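
/-!
Functions on natural numbers evaluated by the kernel: the check of the degree three certificates.
All polynomials are packed into numbers (see `Kron`); arithmetic is modulo `2 ^ (136 b)`.
-/

set_option autoImplicit false
set_option linter.unusedVariables false

namespace Pool.Agent.Lib.EPS9

/-- apex form, last step: combine the coefficients with the apex entries -/
def aF (M h a0 a1 a2 a3 vK vU0 vU1 vU2 vU3 vV vS00 vS01 vS02 vS03 vS11 vS12 vS13 vS22 vS23 vS33 : Nat) : Nat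
  :=
  (Nat.add (Nat.add (Nat.add (Nat.add vK (Nat.mul h vV)) (Nat.add (Nat.mul a0 vU0) (Nat.mul a1 vU1)))
    (Nat.add (Nat.add (Nat.mul a2 vU2) (Nat.mul a3 vU3)) (Nat.add (Nat.mul (Nat.land (Nat.mul a0 a0) M) vS00)
    (Nat.mul (Nat.land (Nat.mul a0 a1) M) vS01)))) (Nat.add (Nat.add (Nat.add (Nat.mul (Nat.land (Nat.mul a0
    a2) M) vS02) (Nat.mul (Nat.land (Nat.mul a0 a3) M) vS03)) (Nat.add (Nat.mul (Nat.land (Nat.mul a1 a1) M)
    vS11) (Nat.mul (Nat.land (Nat.mul a1 a2) M) vS12))) (Nat.add (Nat.add (Nat.mul (Nat.land (Nat.mul a1 a3)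
    M) vS13) (Nat.mul (Nat.land (Nat.mul a2 a2) M) vS22)) (Nat.add (Nat.mul (Nat.land (Nat.mul a2 a3) M)
    vS23) (Nat.mul (Nat.land (Nat.mul a3 a3) M) vS33)))))

/-- apex form, coefficients of the entries of the apex; `l0 … l49` are the digits -/
def aD (M KN g00 g01 g02 g03 g11 g12 g13 g22 g23 g33 p01_01 p01_02 p01_03 p01_12 p01_13 p01_23 p02_02 p02_03
  p02_12 p02_13 p02_23 p03_03 p03_12 p03_13 p03_23 p12_12 p12_13 p12_23 p13_13 p13_23 p23_23 m0_0 m0_1 m0_3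
  m0_6 m1_1 m1_3 m1_6 m3_3 m3_6 m6_6 cK cU0 cU1 cU2 cU3 cV cS00 cS01 cS02 cS03 cS11 cS12 cS13 cS22 cS23 cS33
  h a0 a1 a2 a3 l0 l1 l2 l3 l4 l5 l6 l7 l8 l9 l10 l11 l12 l13 l14 l15 l16 l17 l18 l19 l20 l21 l22 l23 l24 l25
  l26 l27 l28 l29 l30 l31 l32 l33 l34 l35 l36 l37 l38 l39 l40 l41 l42 l43 l44 l45 l46 l47 l48 l49 : Nat) :
  Nat :=
  aF M h a0 a1 a2 a3 (Nat.land (Nat.add (Nat.add (Nat.add (Nat.add (Nat.mul l0 m0_0) (Nat.mul l1 m0_1))
    (Nat.add (Nat.mul l3 m0_3) (Nat.add (Nat.mul l6 m0_6) (Nat.mul l10 m1_1)))) (Nat.add (Nat.add (Nat.mul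
    l12 m1_3) (Nat.mul l15 m1_6)) (Nat.add (Nat.mul l25 m3_3) (Nat.add (Nat.mul l28 m3_6) (Nat.mul l40
    m6_6))))) cK) M) (Nat.land (Nat.add (Nat.add (Nat.add (Nat.add (Nat.add (Nat.mul l2 p01_12) (Nat.mul l4
    p02_12)) (Nat.add (Nat.mul l5 p03_12) (Nat.mul l7 p12_12))) (Nat.add (Nat.add (Nat.mul l8 p12_13)
    (Nat.mul l9 p12_23)) (Nat.add (Nat.mul l11 p01_13) (Nat.mul l13 p02_13)))) (Nat.add (Nat.add (Nat.add
    (Nat.mul l14 p03_13) (Nat.mul l16 p12_13)) (Nat.add (Nat.mul l17 p13_13) (Nat.mul l18 p13_23))) (Nat.add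
    (Nat.add (Nat.mul l26 p02_23) (Nat.mul l27 p03_23)) (Nat.add (Nat.mul l29 p12_23) (Nat.add (Nat.mul l30
    p13_23) (Nat.mul l31 p23_23)))))) cU0) M) (Nat.land (Nat.add (Nat.add (Nat.add (Nat.mul l41 p12_23)
    (Nat.add (Nat.mul l42 p13_23) (Nat.mul l43 p23_23))) cU1) (Nat.sub KN (Nat.add (Nat.add (Nat.add (Nat.mul
    l2 p01_02) (Nat.add (Nat.mul l4 p02_02) (Nat.mul l5 p02_03))) (Nat.add (Nat.mul l7 p02_12) (Nat.add
    (Nat.mul l8 p02_13) (Nat.mul l9 p02_23)))) (Nat.add (Nat.add (Nat.mul l11 p01_03) (Nat.add (Nat.mul l13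
    p02_03) (Nat.mul l14 p03_03))) (Nat.add (Nat.mul l16 p03_12) (Nat.add (Nat.mul l17 p03_13) (Nat.mul l18
    p03_23))))))) M) (Nat.land (Nat.add (Nat.add (Nat.add (Nat.add (Nat.mul l2 p01_01) (Nat.add (Nat.mul l4
    p01_02) (Nat.mul l5 p01_03))) (Nat.add (Nat.mul l7 p01_12) (Nat.add (Nat.mul l8 p01_13) (Nat.mul l9
    p01_23)))) cU2) (Nat.sub KN (Nat.add (Nat.add (Nat.add (Nat.mul l26 p02_03) (Nat.mul l27 p03_03))
    (Nat.add (Nat.mul l29 p03_12) (Nat.mul l30 p03_13))) (Nat.add (Nat.add (Nat.mul l31 p03_23) (Nat.mul l41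
    p12_13)) (Nat.add (Nat.mul l42 p13_13) (Nat.mul l43 p13_23)))))) M) (Nat.land (Nat.add (Nat.add (Nat.add
    (Nat.add (Nat.mul l11 p01_01) (Nat.add (Nat.mul l13 p01_02) (Nat.mul l14 p01_03))) (Nat.add (Nat.add
    (Nat.mul l16 p01_12) (Nat.mul l17 p01_13)) (Nat.add (Nat.mul l18 p01_23) (Nat.mul l26 p02_02)))) (Nat.add
    (Nat.add (Nat.mul l27 p02_03) (Nat.add (Nat.mul l29 p02_12) (Nat.mul l30 p02_13))) (Nat.add (Nat.add
    (Nat.mul l31 p02_23) (Nat.mul l41 p12_12)) (Nat.add (Nat.mul l42 p12_13) (Nat.mul l43 p12_23))))) cU3) M)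
    (Nat.land (Nat.add (Nat.add (Nat.add (Nat.add (Nat.add (Nat.mul l19 p01_01) (Nat.mul l20 p01_02))
    (Nat.add (Nat.mul l21 p01_03) (Nat.add (Nat.mul l22 p01_12) (Nat.mul l23 p01_13)))) (Nat.add (Nat.add
    (Nat.mul l24 p01_23) (Nat.mul l32 p02_02)) (Nat.add (Nat.mul l33 p02_03) (Nat.add (Nat.mul l34 p02_12)
    (Nat.mul l35 p02_13))))) (Nat.add (Nat.add (Nat.add (Nat.mul l36 p02_23) (Nat.mul l37 p03_03)) (Nat.add
    (Nat.mul l38 p03_13) (Nat.add (Nat.mul l39 p03_23) (Nat.mul l44 p12_12)))) (Nat.add (Nat.add (Nat.mul l45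
    p12_13) (Nat.mul l46 p12_23)) (Nat.add (Nat.mul l47 p13_13) (Nat.add (Nat.mul l48 p13_23) (Nat.mul l49
    p23_23)))))) cV) M) (Nat.land (Nat.add cS00 (Nat.sub KN (Nat.add (Nat.add (Nat.mul l19 g11) (Nat.add
    (Nat.mul l20 g12) (Nat.mul l21 g13))) (Nat.add (Nat.mul l32 g22) (Nat.add (Nat.mul l33 g23) (Nat.mul l37
    g33)))))) M) (Nat.land (Nat.add (Nat.add (Nat.add (Nat.add (Nat.mul l19 g01) (Nat.mul l19 g01)) (Nat.add
    (Nat.mul l20 g02) (Nat.mul l21 g03))) cS01) (Nat.sub KN (Nat.add (Nat.add (Nat.mul l22 g12) (Nat.mul l23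
    g13)) (Nat.add (Nat.mul l34 g22) (Nat.add (Nat.mul l35 g23) (Nat.mul l38 g33)))))) M) (Nat.land (Nat.add
    (Nat.add (Nat.add (Nat.add (Nat.mul l20 g01) (Nat.add (Nat.mul l22 g11) (Nat.mul l32 g02))) (Nat.add
    (Nat.mul l32 g02) (Nat.add (Nat.mul l33 g03) (Nat.mul l34 g12)))) cS02) (Nat.sub KN (Nat.add (Nat.mul l24
    g13) (Nat.add (Nat.mul l36 g23) (Nat.mul l39 g33))))) M) (Nat.land (Nat.add (Nat.add (Nat.add (Nat.add
    (Nat.mul l21 g01) (Nat.mul l23 g11)) (Nat.add (Nat.mul l24 g12) (Nat.add (Nat.mul l33 g02) (Nat.mul l35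
    g12)))) (Nat.add (Nat.add (Nat.mul l36 g22) (Nat.mul l37 g03)) (Nat.add (Nat.mul l37 g03) (Nat.add
    (Nat.mul l38 g13) (Nat.mul l39 g23))))) cS03) M) (Nat.land (Nat.add (Nat.add (Nat.add (Nat.mul l22 g02)
    (Nat.mul l23 g03)) cS11) (Nat.sub KN (Nat.add (Nat.add (Nat.mul l19 g00) (Nat.mul l44 g22)) (Nat.add
    (Nat.mul l45 g23) (Nat.mul l47 g33))))) M) (Nat.land (Nat.add (Nat.add (Nat.add (Nat.add (Nat.mul l24
    g03) (Nat.add (Nat.mul l34 g02) (Nat.mul l35 g03))) (Nat.add (Nat.mul l44 g12) (Nat.add (Nat.mul l44 g12)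
    (Nat.mul l45 g13)))) cS12) (Nat.sub KN (Nat.add (Nat.add (Nat.mul l20 g00) (Nat.mul l22 g01)) (Nat.add
    (Nat.mul l46 g23) (Nat.mul l48 g33))))) M) (Nat.land (Nat.add (Nat.add (Nat.add (Nat.add (Nat.mul l38
    g03) (Nat.add (Nat.mul l45 g12) (Nat.mul l46 g22))) (Nat.add (Nat.mul l47 g13) (Nat.add (Nat.mul l47 g13)
    (Nat.mul l48 g23)))) cS13) (Nat.sub KN (Nat.add (Nat.mul l21 g00) (Nat.add (Nat.mul l23 g01) (Nat.mul l24
    g02))))) M) (Nat.land (Nat.add (Nat.add (Nat.add (Nat.mul l36 g03) (Nat.mul l46 g13)) cS22) (Nat.sub KN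
    (Nat.add (Nat.add (Nat.mul l32 g00) (Nat.mul l34 g01)) (Nat.add (Nat.mul l44 g11) (Nat.mul l49 g33)))))
    M) (Nat.land (Nat.add (Nat.add (Nat.add (Nat.add (Nat.mul l39 g03) (Nat.mul l48 g13)) (Nat.add (Nat.mul
    l49 g23) (Nat.mul l49 g23))) cS23) (Nat.sub KN (Nat.add (Nat.add (Nat.mul l33 g00) (Nat.mul l35 g01))
    (Nat.add (Nat.mul l36 g02) (Nat.add (Nat.mul l45 g11) (Nat.mul l46 g12)))))) M) (Nat.land (Nat.add cS33
    (Nat.sub KN (Nat.add (Nat.add (Nat.mul l37 g00) (Nat.add (Nat.mul l38 g01) (Nat.mul l39 g02))) (Nat.add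
    (Nat.mul l47 g11) (Nat.add (Nat.mul l48 g12) (Nat.mul l49 g22)))))) M)

/-- apex form with digits of the packed number `lam` -/
def aL (N M KN mu k1 k2 k3 k4 k5 k6 k7 k8 k9 k10 k11 k12 k13 k14 k15 k16 k17 k18 k19 k20 k21 k22 k23 k24 k25
  k26 k27 k28 k29 k30 k31 k32 k33 k34 k35 k36 k37 k38 k39 k40 k41 k42 k43 k44 k45 k46 k47 k48 k49 x01 x02 x03
  x04 g00 g01 g02 g03 g11 g12 g13 g22 g23 g33 p01_01 p01_02 p01_03 p01_12 p01_13 p01_23 p02_02 p02_03 p02_12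
  p02_13 p02_23 p03_03 p03_12 p03_13 p03_23 p12_12 p12_13 p12_23 p13_13 p13_23 p23_23 m0_0 m0_1 m0_3 m0_6
  m1_1 m1_3 m1_6 m3_3 m3_6 m6_6 cK cU0 cU1 cU2 cU3 cV cS00 cS01 cS02 cS03 cS11 cS12 cS13 cS22 cS23 cS33 lam
  x05 x15 x25 x35 x45 : Nat) : Nat :=
  aD M KN g00 g01 g02 g03 g11 g12 g13 g22 g23 g33 p01_01 p01_02 p01_03 p01_12 p01_13 p01_23 p02_02 p02_03
    p02_12 p02_13 p02_23 p03_03 p03_12 p03_13 p03_23 p12_12 p12_13 p12_23 p13_13 p13_23 p23_23 m0_0 m0_1 m0_3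
    m0_6 m1_1 m1_3 m1_6 m3_3 m3_6 m6_6 cK cU0 cU1 cU2 cU3 cV cS00 cS01 cS02 cS03 cS11 cS12 cS13 cS22 cS23
    cS33 (Nat.mul 2 x05) (Nat.land (Nat.add (Nat.add x01 x05) (Nat.sub N x15)) M) (Nat.land (Nat.add (Nat.add
    x02 x05) (Nat.sub N x25)) M) (Nat.land (Nat.add (Nat.add x03 x05) (Nat.sub N x35)) M) (Nat.land (Nat.add
    (Nat.add x04 x05) (Nat.sub N x45)) M) (Nat.land lam mu) (Nat.land (Nat.shiftRight lam k1) mu) (Nat.land
    (Nat.shiftRight lam k2) mu) (Nat.land (Nat.shiftRight lam k3) mu) (Nat.land (Nat.shiftRight lam k4) mu)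
    (Nat.land (Nat.shiftRight lam k5) mu) (Nat.land (Nat.shiftRight lam k6) mu) (Nat.land (Nat.shiftRight lam
    k7) mu) (Nat.land (Nat.shiftRight lam k8) mu) (Nat.land (Nat.shiftRight lam k9) mu) (Nat.land
    (Nat.shiftRight lam k10) mu) (Nat.land (Nat.shiftRight lam k11) mu) (Nat.land (Nat.shiftRight lam k12)
    mu) (Nat.land (Nat.shiftRight lam k13) mu) (Nat.land (Nat.shiftRight lam k14) mu) (Nat.land
    (Nat.shiftRight lam k15) mu) (Nat.land (Nat.shiftRight lam k16) mu) (Nat.land (Nat.shiftRight lam k17)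
    mu) (Nat.land (Nat.shiftRight lam k18) mu) (Nat.land (Nat.shiftRight lam k19) mu) (Nat.land
    (Nat.shiftRight lam k20) mu) (Nat.land (Nat.shiftRight lam k21) mu) (Nat.land (Nat.shiftRight lam k22)
    mu) (Nat.land (Nat.shiftRight lam k23) mu) (Nat.land (Nat.shiftRight lam k24) mu) (Nat.land
    (Nat.shiftRight lam k25) mu) (Nat.land (Nat.shiftRight lam k26) mu) (Nat.land (Nat.shiftRight lam k27)
    mu) (Nat.land (Nat.shiftRight lam k28) mu) (Nat.land (Nat.shiftRight lam k29) mu) (Nat.land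
    (Nat.shiftRight lam k30) mu) (Nat.land (Nat.shiftRight lam k31) mu) (Nat.land (Nat.shiftRight lam k32)
    mu) (Nat.land (Nat.shiftRight lam k33) mu) (Nat.land (Nat.shiftRight lam k34) mu) (Nat.land
    (Nat.shiftRight lam k35) mu) (Nat.land (Nat.shiftRight lam k36) mu) (Nat.land (Nat.shiftRight lam k37)
    mu) (Nat.land (Nat.shiftRight lam k38) mu) (Nat.land (Nat.shiftRight lam k39) mu) (Nat.land
    (Nat.shiftRight lam k40) mu) (Nat.land (Nat.shiftRight lam k41) mu) (Nat.land (Nat.shiftRight lam k42)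
    mu) (Nat.land (Nat.shiftRight lam k43) mu) (Nat.land (Nat.shiftRight lam k44) mu) (Nat.land
    (Nat.shiftRight lam k45) mu) (Nat.land (Nat.shiftRight lam k46) mu) (Nat.land (Nat.shiftRight lam k47)
    mu) (Nat.land (Nat.shiftRight lam k48) mu) (Nat.land (Nat.shiftRight lam k49) mu)

/-- five point data, the constants coming from the offset of the digits -/
def aK4 (k : (Nat → Nat → Nat → Nat → Nat → Nat → Nat) → Bool) (N M KN mu off k1 k2 k3 k4 k5 k6 k7 k8 k9 k10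
  k11 k12 k13 k14 k15 k16 k17 k18 k19 k20 k21 k22 k23 k24 k25 k26 k27 k28 k29 k30 k31 k32 k33 k34 k35 k36 k37
  k38 k39 k40 k41 k42 k43 k44 k45 k46 k47 k48 k49 x01 x02 x03 x04 g00 g01 g02 g03 g11 g12 g13 g22 g23 g33
  p01_01 p01_02 p01_03 p01_12 p01_13 p01_23 p02_02 p02_03 p02_12 p02_13 p02_23 p03_03 p03_12 p03_13 p03_23
  p12_12 p12_13 p12_23 p13_13 p13_23 p23_23 m0_0 m0_1 m0_3 m0_6 m1_1 m1_3 m1_6 m3_3 m3_6 m6_6 : Nat) : Bool
  :=
  k (aL N M KN mu k1 k2 k3 k4 k5 k6 k7 k8 k9 k10 k11 k12 k13 k14 k15 k16 k17 k18 k19 k20 k21 k22 k23 k24 k25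
    k26 k27 k28 k29 k30 k31 k32 k33 k34 k35 k36 k37 k38 k39 k40 k41 k42 k43 k44 k45 k46 k47 k48 k49 x01 x02
    x03 x04 g00 g01 g02 g03 g11 g12 g13 g22 g23 g33 p01_01 p01_02 p01_03 p01_12 p01_13 p01_23 p02_02 p02_03
    p02_12 p02_13 p02_23 p03_03 p03_12 p03_13 p03_23 p12_12 p12_13 p12_23 p13_13 p13_23 p23_23 m0_0 m0_1 m0_3
    m0_6 m1_1 m1_3 m1_6 m3_3 m3_6 m6_6 (Nat.land (Nat.mul off (Nat.sub KN (Nat.add (Nat.add (Nat.add m0_0
    m0_1) (Nat.add m0_3 (Nat.add m0_6 m1_1))) (Nat.add (Nat.add m1_3 m1_6) (Nat.add m3_3 (Nat.add m3_6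
    m6_6)))))) M) (Nat.land (Nat.mul off (Nat.sub KN (Nat.add (Nat.add (Nat.add (Nat.add p01_12 p02_12)
    (Nat.add p03_12 p12_12)) (Nat.add (Nat.add p12_13 p12_23) (Nat.add p01_13 p02_13))) (Nat.add (Nat.add
    (Nat.add p03_13 p12_13) (Nat.add p13_13 p13_23)) (Nat.add (Nat.add p02_23 p03_23) (Nat.add p12_23
    (Nat.add p13_23 p23_23))))))) M) (Nat.land (Nat.mul off (Nat.add (Nat.sub KN (Nat.add p12_23 (Nat.add
    p13_23 p23_23))) (Nat.add (Nat.add (Nat.add p01_02 (Nat.add p02_02 p02_03)) (Nat.add p02_12 (Nat.add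
    p02_13 p02_23))) (Nat.add (Nat.add p01_03 (Nat.add p02_03 p03_03)) (Nat.add p03_12 (Nat.add p03_13
    p03_23)))))) M) (Nat.land (Nat.mul off (Nat.add (Nat.sub KN (Nat.add (Nat.add p01_01 (Nat.add p01_02
    p01_03)) (Nat.add p01_12 (Nat.add p01_13 p01_23)))) (Nat.add (Nat.add (Nat.add p02_03 p03_03) (Nat.add
    p03_12 p03_13)) (Nat.add (Nat.add p03_23 p12_13) (Nat.add p13_13 p13_23))))) M) (Nat.land (Nat.mul off
    (Nat.sub KN (Nat.add (Nat.add (Nat.add p01_01 (Nat.add p01_02 p01_03)) (Nat.add (Nat.add p01_12 p01_13)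
    (Nat.add p01_23 p02_02))) (Nat.add (Nat.add p02_03 (Nat.add p02_12 p02_13)) (Nat.add (Nat.add p02_23
    p12_12) (Nat.add p12_13 p12_23)))))) M) (Nat.land (Nat.mul off (Nat.sub KN (Nat.add (Nat.add (Nat.add
    (Nat.add p01_01 p01_02) (Nat.add p01_03 (Nat.add p01_12 p01_13))) (Nat.add (Nat.add p01_23 p02_02)
    (Nat.add p02_03 (Nat.add p02_12 p02_13)))) (Nat.add (Nat.add (Nat.add p02_23 p03_03) (Nat.add p03_13
    (Nat.add p03_23 p12_12))) (Nat.add (Nat.add p12_13 p12_23) (Nat.add p13_13 (Nat.add p13_23 p23_23)))))))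
    M) (Nat.land (Nat.mul off (Nat.add (Nat.add g11 (Nat.add g12 g13)) (Nat.add g22 (Nat.add g23 g33)))) M)
    (Nat.land (Nat.mul off (Nat.add (Nat.sub KN (Nat.add (Nat.add g01 g01) (Nat.add g02 g03))) (Nat.add
    (Nat.add g12 g13) (Nat.add g22 (Nat.add g23 g33))))) M) (Nat.land (Nat.mul off (Nat.add (Nat.sub KN
    (Nat.add (Nat.add g01 (Nat.add g11 g02)) (Nat.add g02 (Nat.add g03 g12)))) (Nat.add g13 (Nat.add g23
    g33)))) M) (Nat.land (Nat.mul off (Nat.sub KN (Nat.add (Nat.add (Nat.add g01 g11) (Nat.add g12 (Nat.add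
    g02 g12))) (Nat.add (Nat.add g22 g03) (Nat.add g03 (Nat.add g13 g23)))))) M) (Nat.land (Nat.mul off
    (Nat.add (Nat.sub KN (Nat.add g02 g03)) (Nat.add (Nat.add g00 g22) (Nat.add g23 g33)))) M) (Nat.land
    (Nat.mul off (Nat.add (Nat.sub KN (Nat.add (Nat.add g03 (Nat.add g02 g03)) (Nat.add g12 (Nat.add g12
    g13)))) (Nat.add (Nat.add g00 g01) (Nat.add g23 g33)))) M) (Nat.land (Nat.mul off (Nat.add (Nat.sub KN
    (Nat.add (Nat.add g03 (Nat.add g12 g22)) (Nat.add g13 (Nat.add g13 g23)))) (Nat.add g00 (Nat.add g01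
    g02)))) M) (Nat.land (Nat.mul off (Nat.add (Nat.sub KN (Nat.add g03 g13)) (Nat.add (Nat.add g00 g01)
    (Nat.add g11 g33)))) M) (Nat.land (Nat.mul off (Nat.add (Nat.sub KN (Nat.add (Nat.add g03 g13) (Nat.add
    g23 g23))) (Nat.add (Nat.add g00 g01) (Nat.add g02 (Nat.add g11 g12))))) M) (Nat.land (Nat.mul off
    (Nat.add (Nat.add g00 (Nat.add g01 g02)) (Nat.add g11 (Nat.add g12 g22)))) M))

/-- five point data, minors of size three -/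
def aK3 (k : (Nat → Nat → Nat → Nat → Nat → Nat → Nat) → Bool) (N M N2 KN mu off k1 k2 k3 k4 k5 k6 k7 k8 k9
  k10 k11 k12 k13 k14 k15 k16 k17 k18 k19 k20 k21 k22 k23 k24 k25 k26 k27 k28 k29 k30 k31 k32 k33 k34 k35 k36
  k37 k38 k39 k40 k41 k42 k43 k44 k45 k46 k47 k48 k49 x01 x02 x03 x04 g00 g01 g02 g03 g11 g12 g13 g22 g23 g33
  p01_01 p01_02 p01_03 p01_12 p01_13 p01_23 p02_02 p02_03 p02_12 p02_13 p02_23 p03_03 p03_12 p03_13 p03_23
  p12_12 p12_13 p12_23 p13_13 p13_23 p23_23 : Nat) : Bool :=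
  aK4 k N M KN mu off k1 k2 k3 k4 k5 k6 k7 k8 k9 k10 k11 k12 k13 k14 k15 k16 k17 k18 k19 k20 k21 k22 k23 k24
    k25 k26 k27 k28 k29 k30 k31 k32 k33 k34 k35 k36 k37 k38 k39 k40 k41 k42 k43 k44 k45 k46 k47 k48 k49 x01
    x02 x03 x04 g00 g01 g02 g03 g11 g12 g13 g22 g23 g33 p01_01 p01_02 p01_03 p01_12 p01_13 p01_23 p02_02
    p02_03 p02_12 p02_13 p02_23 p03_03 p03_12 p03_13 p03_23 p12_12 p12_13 p12_23 p13_13 p13_23 p23_23
    (Nat.land (Nat.add (Nat.add (Nat.mul g00 p12_12) (Nat.mul g02 p01_12)) (Nat.sub N2 (Nat.mul g01 p02_12)))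
    M) (Nat.land (Nat.add (Nat.add (Nat.mul g00 p12_13) (Nat.mul g03 p01_12)) (Nat.sub N2 (Nat.mul g01
    p03_12))) M) (Nat.land (Nat.add (Nat.add (Nat.mul g00 p12_23) (Nat.mul g03 p02_12)) (Nat.sub N2 (Nat.mul
    g02 p03_12))) M) (Nat.land (Nat.add (Nat.add (Nat.mul g01 p12_23) (Nat.mul g03 p12_12)) (Nat.sub N2
    (Nat.mul g02 p12_13))) M) (Nat.land (Nat.add (Nat.add (Nat.mul g00 p13_13) (Nat.mul g03 p01_13)) (Nat.sub
    N2 (Nat.mul g01 p03_13))) M) (Nat.land (Nat.add (Nat.add (Nat.mul g00 p13_23) (Nat.mul g03 p02_13))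
    (Nat.sub N2 (Nat.mul g02 p03_13))) M) (Nat.land (Nat.add (Nat.add (Nat.mul g01 p13_23) (Nat.mul g03
    p12_13)) (Nat.sub N2 (Nat.mul g02 p13_13))) M) (Nat.land (Nat.add (Nat.add (Nat.mul g00 p23_23) (Nat.mul
    g03 p02_23)) (Nat.sub N2 (Nat.mul g02 p03_23))) M) (Nat.land (Nat.add (Nat.add (Nat.mul g01 p23_23)
    (Nat.mul g03 p12_23)) (Nat.sub N2 (Nat.mul g02 p13_23))) M) (Nat.land (Nat.add (Nat.add (Nat.mul g11
    p23_23) (Nat.mul g13 p12_23)) (Nat.sub N2 (Nat.mul g12 p13_23))) M)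

/-- five point data, minors of size two -/
def aK2 (k : (Nat → Nat → Nat → Nat → Nat → Nat → Nat) → Bool) (N M N2 KN mu off k1 k2 k3 k4 k5 k6 k7 k8 k9
  k10 k11 k12 k13 k14 k15 k16 k17 k18 k19 k20 k21 k22 k23 k24 k25 k26 k27 k28 k29 k30 k31 k32 k33 k34 k35 k36
  k37 k38 k39 k40 k41 k42 k43 k44 k45 k46 k47 k48 k49 x01 x02 x03 x04 g00 g01 g02 g03 g11 g12 g13 g22 g23 g33
  : Nat) : Bool :=
  aK3 k N M N2 KN mu off k1 k2 k3 k4 k5 k6 k7 k8 k9 k10 k11 k12 k13 k14 k15 k16 k17 k18 k19 k20 k21 k22 k23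
    k24 k25 k26 k27 k28 k29 k30 k31 k32 k33 k34 k35 k36 k37 k38 k39 k40 k41 k42 k43 k44 k45 k46 k47 k48 k49
    x01 x02 x03 x04 g00 g01 g02 g03 g11 g12 g13 g22 g23 g33 (Nat.land (Nat.add (Nat.mul g00 g11) (Nat.sub N2
    (Nat.mul g01 g01))) M) (Nat.land (Nat.add (Nat.mul g00 g12) (Nat.sub N2 (Nat.mul g02 g01))) M) (Nat.land
    (Nat.add (Nat.mul g00 g13) (Nat.sub N2 (Nat.mul g03 g01))) M) (Nat.land (Nat.add (Nat.mul g01 g12)
    (Nat.sub N2 (Nat.mul g02 g11))) M) (Nat.land (Nat.add (Nat.mul g01 g13) (Nat.sub N2 (Nat.mul g03 g11)))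
    M) (Nat.land (Nat.add (Nat.mul g02 g13) (Nat.sub N2 (Nat.mul g03 g12))) M) (Nat.land (Nat.add (Nat.mul
    g00 g22) (Nat.sub N2 (Nat.mul g02 g02))) M) (Nat.land (Nat.add (Nat.mul g00 g23) (Nat.sub N2 (Nat.mul g03
    g02))) M) (Nat.land (Nat.add (Nat.mul g01 g22) (Nat.sub N2 (Nat.mul g02 g12))) M) (Nat.land (Nat.add
    (Nat.mul g01 g23) (Nat.sub N2 (Nat.mul g03 g12))) M) (Nat.land (Nat.add (Nat.mul g02 g23) (Nat.sub N2
    (Nat.mul g03 g22))) M) (Nat.land (Nat.add (Nat.mul g00 g33) (Nat.sub N2 (Nat.mul g03 g03))) M) (Nat.land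
    (Nat.add (Nat.mul g01 g23) (Nat.sub N2 (Nat.mul g02 g13))) M) (Nat.land (Nat.add (Nat.mul g01 g33)
    (Nat.sub N2 (Nat.mul g03 g13))) M) (Nat.land (Nat.add (Nat.mul g02 g33) (Nat.sub N2 (Nat.mul g03 g23)))
    M) (Nat.land (Nat.add (Nat.mul g11 g22) (Nat.sub N2 (Nat.mul g12 g12))) M) (Nat.land (Nat.add (Nat.mul
    g11 g23) (Nat.sub N2 (Nat.mul g13 g12))) M) (Nat.land (Nat.add (Nat.mul g12 g23) (Nat.sub N2 (Nat.mul g13
    g22))) M) (Nat.land (Nat.add (Nat.mul g11 g33) (Nat.sub N2 (Nat.mul g13 g13))) M) (Nat.land (Nat.add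
    (Nat.mul g12 g33) (Nat.sub N2 (Nat.mul g13 g23))) M) (Nat.land (Nat.add (Nat.mul g22 g33) (Nat.sub N2
    (Nat.mul g23 g23))) M)

/-- five point data from the ten values of the pairs of the first five points -/
def aK (k : (Nat → Nat → Nat → Nat → Nat → Nat → Nat) → Bool) (N M N2 KN mu off k1 k2 k3 k4 k5 k6 k7 k8 k9
  k10 k11 k12 k13 k14 k15 k16 k17 k18 k19 k20 k21 k22 k23 k24 k25 k26 k27 k28 k29 k30 k31 k32 k33 k34 k35 k36
  k37 k38 k39 k40 k41 k42 k43 k44 k45 k46 k47 k48 k49 x01 x02 x12 x03 x13 x23 x04 x14 x24 x34 : Nat) : Bool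
  :=
  aK2 k N M N2 KN mu off k1 k2 k3 k4 k5 k6 k7 k8 k9 k10 k11 k12 k13 k14 k15 k16 k17 k18 k19 k20 k21 k22 k23
    k24 k25 k26 k27 k28 k29 k30 k31 k32 k33 k34 k35 k36 k37 k38 k39 k40 k41 k42 k43 k44 k45 k46 k47 k48 k49
    x01 x02 x03 x04 (Nat.mul 2 x01) (Nat.land (Nat.add (Nat.add x01 x02) (Nat.sub N x12)) M) (Nat.land
    (Nat.add (Nat.add x01 x03) (Nat.sub N x13)) M) (Nat.land (Nat.add (Nat.add x01 x04) (Nat.sub N x14)) M)
    (Nat.mul 2 x02) (Nat.land (Nat.add (Nat.add x02 x03) (Nat.sub N x23)) M) (Nat.land (Nat.add (Nat.add x02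
    x04) (Nat.sub N x24)) M) (Nat.mul 2 x03) (Nat.land (Nat.add (Nat.add x03 x04) (Nat.sub N x34)) M)
    (Nat.mul 2 x04)

/-- weighted sum of fifty numbers, the weights are the digits of `lam`, plus a constant -/
def tD (mu k1 k2 k3 k4 k5 k6 k7 k8 k9 k10 k11 k12 k13 k14 k15 k16 k17 k18 k19 k20 k21 k22 k23 k24 k25 k26 k27
  k28 k29 k30 k31 k32 k33 k34 k35 k36 k37 k38 k39 k40 k41 k42 k43 k44 k45 k46 k47 k48 k49 m0_0 m0_1 m0_2 m0_3
  m0_4 m0_5 m0_6 m0_7 m0_8 m0_9 m1_1 m1_2 m1_3 m1_4 m1_5 m1_6 m1_7 m1_8 m1_9 m2_2 m2_4 m2_5 m2_7 m2_8 m2_9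
  m3_3 m3_4 m3_5 m3_6 m3_7 m3_8 m3_9 m4_4 m4_5 m4_7 m4_8 m4_9 m5_5 m5_8 m5_9 m6_6 m6_7 m6_8 m6_9 m7_7 m7_8
  m7_9 m8_8 m8_9 m9_9 cc lam : Nat) : Nat :=
  Nat.add (Nat.add (Nat.add (Nat.add (Nat.add (Nat.add (Nat.mul (Nat.land lam mu) m0_0) (Nat.add (Nat.mul
    (Nat.land (Nat.shiftRight lam k1) mu) m0_1) (Nat.mul (Nat.land (Nat.shiftRight lam k2) mu) m0_2)))
    (Nat.add (Nat.mul (Nat.land (Nat.shiftRight lam k3) mu) m0_3) (Nat.add (Nat.mul (Nat.land (Nat.shiftRight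
    lam k4) mu) m0_4) (Nat.mul (Nat.land (Nat.shiftRight lam k5) mu) m0_5)))) (Nat.add (Nat.add (Nat.mul
    (Nat.land (Nat.shiftRight lam k6) mu) m0_6) (Nat.add (Nat.mul (Nat.land (Nat.shiftRight lam k7) mu) m0_7)
    (Nat.mul (Nat.land (Nat.shiftRight lam k8) mu) m0_8))) (Nat.add (Nat.mul (Nat.land (Nat.shiftRight lam
    k9) mu) m0_9) (Nat.add (Nat.mul (Nat.land (Nat.shiftRight lam k10) mu) m1_1) (Nat.mul (Nat.land
    (Nat.shiftRight lam k11) mu) m1_2))))) (Nat.add (Nat.add (Nat.add (Nat.mul (Nat.land (Nat.shiftRight lam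
    k12) mu) m1_3) (Nat.add (Nat.mul (Nat.land (Nat.shiftRight lam k13) mu) m1_4) (Nat.mul (Nat.land
    (Nat.shiftRight lam k14) mu) m1_5))) (Nat.add (Nat.mul (Nat.land (Nat.shiftRight lam k15) mu) m1_6)
    (Nat.add (Nat.mul (Nat.land (Nat.shiftRight lam k16) mu) m1_7) (Nat.mul (Nat.land (Nat.shiftRight lam
    k17) mu) m1_8)))) (Nat.add (Nat.add (Nat.mul (Nat.land (Nat.shiftRight lam k18) mu) m1_9) (Nat.add
    (Nat.mul (Nat.land (Nat.shiftRight lam k19) mu) m2_2) (Nat.mul (Nat.land (Nat.shiftRight lam k20) mu)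
    m2_4))) (Nat.add (Nat.add (Nat.mul (Nat.land (Nat.shiftRight lam k21) mu) m2_5) (Nat.mul (Nat.land
    (Nat.shiftRight lam k22) mu) m2_7)) (Nat.add (Nat.mul (Nat.land (Nat.shiftRight lam k23) mu) m2_8)
    (Nat.mul (Nat.land (Nat.shiftRight lam k24) mu) m2_9)))))) (Nat.add (Nat.add (Nat.add (Nat.add (Nat.mul
    (Nat.land (Nat.shiftRight lam k25) mu) m3_3) (Nat.add (Nat.mul (Nat.land (Nat.shiftRight lam k26) mu)
    m3_4) (Nat.mul (Nat.land (Nat.shiftRight lam k27) mu) m3_5))) (Nat.add (Nat.mul (Nat.land (Nat.shiftRight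
    lam k28) mu) m3_6) (Nat.add (Nat.mul (Nat.land (Nat.shiftRight lam k29) mu) m3_7) (Nat.mul (Nat.land
    (Nat.shiftRight lam k30) mu) m3_8)))) (Nat.add (Nat.add (Nat.mul (Nat.land (Nat.shiftRight lam k31) mu)
    m3_9) (Nat.add (Nat.mul (Nat.land (Nat.shiftRight lam k32) mu) m4_4) (Nat.mul (Nat.land (Nat.shiftRight
    lam k33) mu) m4_5))) (Nat.add (Nat.mul (Nat.land (Nat.shiftRight lam k34) mu) m4_7) (Nat.add (Nat.mul
    (Nat.land (Nat.shiftRight lam k35) mu) m4_8) (Nat.mul (Nat.land (Nat.shiftRight lam k36) mu) m4_9)))))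
    (Nat.add (Nat.add (Nat.add (Nat.mul (Nat.land (Nat.shiftRight lam k37) mu) m5_5) (Nat.add (Nat.mul
    (Nat.land (Nat.shiftRight lam k38) mu) m5_8) (Nat.mul (Nat.land (Nat.shiftRight lam k39) mu) m5_9)))
    (Nat.add (Nat.mul (Nat.land (Nat.shiftRight lam k40) mu) m6_6) (Nat.add (Nat.mul (Nat.land
    (Nat.shiftRight lam k41) mu) m6_7) (Nat.mul (Nat.land (Nat.shiftRight lam k42) mu) m6_8)))) (Nat.add
    (Nat.add (Nat.mul (Nat.land (Nat.shiftRight lam k43) mu) m6_9) (Nat.add (Nat.mul (Nat.land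
    (Nat.shiftRight lam k44) mu) m7_7) (Nat.mul (Nat.land (Nat.shiftRight lam k45) mu) m7_8))) (Nat.add
    (Nat.add (Nat.mul (Nat.land (Nat.shiftRight lam k46) mu) m7_9) (Nat.mul (Nat.land (Nat.shiftRight lam
    k47) mu) m8_8)) (Nat.add (Nat.mul (Nat.land (Nat.shiftRight lam k48) mu) m8_9) (Nat.mul (Nat.land
    (Nat.shiftRight lam k49) mu) m9_9))))))) cc

/-- six point data: the constant coming from the offset -/
def tC (k : (Nat → Nat) → Bool) (KN mu off M k1 k2 k3 k4 k5 k6 k7 k8 k9 k10 k11 k12 k13 k14 k15 k16 k17 k18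
  k19 k20 k21 k22 k23 k24 k25 k26 k27 k28 k29 k30 k31 k32 k33 k34 k35 k36 k37 k38 k39 k40 k41 k42 k43 k44 k45
  k46 k47 k48 k49 m0_0 m0_1 m0_2 m0_3 m0_4 m0_5 m0_6 m0_7 m0_8 m0_9 m1_1 m1_2 m1_3 m1_4 m1_5 m1_6 m1_7 m1_8
  m1_9 m2_2 m2_4 m2_5 m2_7 m2_8 m2_9 m3_3 m3_4 m3_5 m3_6 m3_7 m3_8 m3_9 m4_4 m4_5 m4_7 m4_8 m4_9 m5_5 m5_8
  m5_9 m6_6 m6_7 m6_8 m6_9 m7_7 m7_8 m7_9 m8_8 m8_9 m9_9 : Nat) : Bool :=
  k (tD mu k1 k2 k3 k4 k5 k6 k7 k8 k9 k10 k11 k12 k13 k14 k15 k16 k17 k18 k19 k20 k21 k22 k23 k24 k25 k26 k27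
    k28 k29 k30 k31 k32 k33 k34 k35 k36 k37 k38 k39 k40 k41 k42 k43 k44 k45 k46 k47 k48 k49 m0_0 m0_1 m0_2
    m0_3 m0_4 m0_5 m0_6 m0_7 m0_8 m0_9 m1_1 m1_2 m1_3 m1_4 m1_5 m1_6 m1_7 m1_8 m1_9 m2_2 m2_4 m2_5 m2_7 m2_8
    m2_9 m3_3 m3_4 m3_5 m3_6 m3_7 m3_8 m3_9 m4_4 m4_5 m4_7 m4_8 m4_9 m5_5 m5_8 m5_9 m6_6 m6_7 m6_8 m6_9 m7_7
    m7_8 m7_9 m8_8 m8_9 m9_9 (Nat.land (Nat.mul off (Nat.sub KN (Nat.add (Nat.add (Nat.add (Nat.add (Nat.add
    m0_0 (Nat.add m0_1 m0_2)) (Nat.add m0_3 (Nat.add m0_4 m0_5))) (Nat.add (Nat.add m0_6 (Nat.add m0_7 m0_8))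
    (Nat.add m0_9 (Nat.add m1_1 m1_2)))) (Nat.add (Nat.add (Nat.add m1_3 (Nat.add m1_4 m1_5)) (Nat.add m1_6
    (Nat.add m1_7 m1_8))) (Nat.add (Nat.add m1_9 (Nat.add m2_2 m2_4)) (Nat.add (Nat.add m2_5 m2_7) (Nat.add
    m2_8 m2_9))))) (Nat.add (Nat.add (Nat.add (Nat.add m3_3 (Nat.add m3_4 m3_5)) (Nat.add m3_6 (Nat.add m3_7
    m3_8))) (Nat.add (Nat.add m3_9 (Nat.add m4_4 m4_5)) (Nat.add m4_7 (Nat.add m4_8 m4_9)))) (Nat.add
    (Nat.add (Nat.add m5_5 (Nat.add m5_8 m5_9)) (Nat.add m6_6 (Nat.add m6_7 m6_8))) (Nat.add (Nat.add m6_9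
    (Nat.add m7_7 m7_8)) (Nat.add (Nat.add m7_9 m8_8) (Nat.add m8_9 m9_9)))))))) M))

/-- six point data: minors of size three -/
def tB (k : (Nat → Nat) → Bool) (M N2 KN mu off k1 k2 k3 k4 k5 k6 k7 k8 k9 k10 k11 k12 k13 k14 k15 k16 k17
  k18 k19 k20 k21 k22 k23 k24 k25 k26 k27 k28 k29 k30 k31 k32 k33 k34 k35 k36 k37 k38 k39 k40 k41 k42 k43 k44
  k45 k46 k47 k48 k49 g00 g01 g02 g03 g04 g11 g12 g13 g14 g22 g23 g24 g33 g34 g44 p01_12 p01_13 p01_14 p02_12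
  p02_13 p02_14 p02_23 p02_24 p03_12 p03_13 p03_14 p03_23 p03_24 p03_34 p04_12 p04_13 p04_14 p04_23 p04_24
  p04_34 p12_12 p12_13 p12_14 p12_23 p12_24 p12_34 p13_13 p13_14 p13_23 p13_24 p13_34 p14_14 p14_23 p14_24
  p14_34 p23_23 p23_24 p23_34 p24_24 p24_34 p34_34 : Nat) : Bool :=
  tC k KN mu off M k1 k2 k3 k4 k5 k6 k7 k8 k9 k10 k11 k12 k13 k14 k15 k16 k17 k18 k19 k20 k21 k22 k23 k24 k25
    k26 k27 k28 k29 k30 k31 k32 k33 k34 k35 k36 k37 k38 k39 k40 k41 k42 k43 k44 k45 k46 k47 k48 k49 (Nat.land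
    (Nat.add (Nat.add (Nat.mul g00 p12_12) (Nat.mul g02 p01_12)) (Nat.sub N2 (Nat.mul g01 p02_12))) M)
    (Nat.land (Nat.add (Nat.add (Nat.mul g00 p12_13) (Nat.mul g03 p01_12)) (Nat.sub N2 (Nat.mul g01 p03_12)))
    M) (Nat.land (Nat.add (Nat.add (Nat.mul g00 p12_14) (Nat.mul g04 p01_12)) (Nat.sub N2 (Nat.mul g01
    p04_12))) M) (Nat.land (Nat.add (Nat.add (Nat.mul g00 p12_23) (Nat.mul g03 p02_12)) (Nat.sub N2 (Nat.mul
    g02 p03_12))) M) (Nat.land (Nat.add (Nat.add (Nat.mul g00 p12_24) (Nat.mul g04 p02_12)) (Nat.sub N2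
    (Nat.mul g02 p04_12))) M) (Nat.land (Nat.add (Nat.add (Nat.mul g00 p12_34) (Nat.mul g04 p03_12)) (Nat.sub
    N2 (Nat.mul g03 p04_12))) M) (Nat.land (Nat.add (Nat.add (Nat.mul g01 p12_23) (Nat.mul g03 p12_12))
    (Nat.sub N2 (Nat.mul g02 p12_13))) M) (Nat.land (Nat.add (Nat.add (Nat.mul g01 p12_24) (Nat.mul g04
    p12_12)) (Nat.sub N2 (Nat.mul g02 p12_14))) M) (Nat.land (Nat.add (Nat.add (Nat.mul g01 p12_34) (Nat.mul
    g04 p12_13)) (Nat.sub N2 (Nat.mul g03 p12_14))) M) (Nat.land (Nat.add (Nat.add (Nat.mul g02 p12_34)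
    (Nat.mul g04 p12_23)) (Nat.sub N2 (Nat.mul g03 p12_24))) M) (Nat.land (Nat.add (Nat.add (Nat.mul g00
    p13_13) (Nat.mul g03 p01_13)) (Nat.sub N2 (Nat.mul g01 p03_13))) M) (Nat.land (Nat.add (Nat.add (Nat.mul
    g00 p13_14) (Nat.mul g04 p01_13)) (Nat.sub N2 (Nat.mul g01 p04_13))) M) (Nat.land (Nat.add (Nat.add
    (Nat.mul g00 p13_23) (Nat.mul g03 p02_13)) (Nat.sub N2 (Nat.mul g02 p03_13))) M) (Nat.land (Nat.add
    (Nat.add (Nat.mul g00 p13_24) (Nat.mul g04 p02_13)) (Nat.sub N2 (Nat.mul g02 p04_13))) M) (Nat.land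
    (Nat.add (Nat.add (Nat.mul g00 p13_34) (Nat.mul g04 p03_13)) (Nat.sub N2 (Nat.mul g03 p04_13))) M)
    (Nat.land (Nat.add (Nat.add (Nat.mul g01 p13_23) (Nat.mul g03 p12_13)) (Nat.sub N2 (Nat.mul g02 p13_13)))
    M) (Nat.land (Nat.add (Nat.add (Nat.mul g01 p13_24) (Nat.mul g04 p12_13)) (Nat.sub N2 (Nat.mul g02
    p13_14))) M) (Nat.land (Nat.add (Nat.add (Nat.mul g01 p13_34) (Nat.mul g04 p13_13)) (Nat.sub N2 (Nat.mul
    g03 p13_14))) M) (Nat.land (Nat.add (Nat.add (Nat.mul g02 p13_34) (Nat.mul g04 p13_23)) (Nat.sub N2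
    (Nat.mul g03 p13_24))) M) (Nat.land (Nat.add (Nat.add (Nat.mul g00 p14_14) (Nat.mul g04 p01_14)) (Nat.sub
    N2 (Nat.mul g01 p04_14))) M) (Nat.land (Nat.add (Nat.add (Nat.mul g00 p14_24) (Nat.mul g04 p02_14))
    (Nat.sub N2 (Nat.mul g02 p04_14))) M) (Nat.land (Nat.add (Nat.add (Nat.mul g00 p14_34) (Nat.mul g04
    p03_14)) (Nat.sub N2 (Nat.mul g03 p04_14))) M) (Nat.land (Nat.add (Nat.add (Nat.mul g01 p14_24) (Nat.mul
    g04 p12_14)) (Nat.sub N2 (Nat.mul g02 p14_14))) M) (Nat.land (Nat.add (Nat.add (Nat.mul g01 p14_34)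
    (Nat.mul g04 p13_14)) (Nat.sub N2 (Nat.mul g03 p14_14))) M) (Nat.land (Nat.add (Nat.add (Nat.mul g02
    p14_34) (Nat.mul g04 p14_23)) (Nat.sub N2 (Nat.mul g03 p14_24))) M) (Nat.land (Nat.add (Nat.add (Nat.mul
    g00 p23_23) (Nat.mul g03 p02_23)) (Nat.sub N2 (Nat.mul g02 p03_23))) M) (Nat.land (Nat.add (Nat.add
    (Nat.mul g00 p23_24) (Nat.mul g04 p02_23)) (Nat.sub N2 (Nat.mul g02 p04_23))) M) (Nat.land (Nat.add
    (Nat.add (Nat.mul g00 p23_34) (Nat.mul g04 p03_23)) (Nat.sub N2 (Nat.mul g03 p04_23))) M) (Nat.land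
    (Nat.add (Nat.add (Nat.mul g01 p23_23) (Nat.mul g03 p12_23)) (Nat.sub N2 (Nat.mul g02 p13_23))) M)
    (Nat.land (Nat.add (Nat.add (Nat.mul g01 p23_24) (Nat.mul g04 p12_23)) (Nat.sub N2 (Nat.mul g02 p14_23)))
    M) (Nat.land (Nat.add (Nat.add (Nat.mul g01 p23_34) (Nat.mul g04 p13_23)) (Nat.sub N2 (Nat.mul g03
    p14_23))) M) (Nat.land (Nat.add (Nat.add (Nat.mul g02 p23_34) (Nat.mul g04 p23_23)) (Nat.sub N2 (Nat.mul
    g03 p23_24))) M) (Nat.land (Nat.add (Nat.add (Nat.mul g00 p24_24) (Nat.mul g04 p02_24)) (Nat.sub N2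
    (Nat.mul g02 p04_24))) M) (Nat.land (Nat.add (Nat.add (Nat.mul g00 p24_34) (Nat.mul g04 p03_24)) (Nat.sub
    N2 (Nat.mul g03 p04_24))) M) (Nat.land (Nat.add (Nat.add (Nat.mul g01 p24_24) (Nat.mul g04 p12_24))
    (Nat.sub N2 (Nat.mul g02 p14_24))) M) (Nat.land (Nat.add (Nat.add (Nat.mul g01 p24_34) (Nat.mul g04
    p13_24)) (Nat.sub N2 (Nat.mul g03 p14_24))) M) (Nat.land (Nat.add (Nat.add (Nat.mul g02 p24_34) (Nat.mul
    g04 p23_24)) (Nat.sub N2 (Nat.mul g03 p24_24))) M) (Nat.land (Nat.add (Nat.add (Nat.mul g00 p34_34)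
    (Nat.mul g04 p03_34)) (Nat.sub N2 (Nat.mul g03 p04_34))) M) (Nat.land (Nat.add (Nat.add (Nat.mul g01
    p34_34) (Nat.mul g04 p13_34)) (Nat.sub N2 (Nat.mul g03 p14_34))) M) (Nat.land (Nat.add (Nat.add (Nat.mul
    g02 p34_34) (Nat.mul g04 p23_34)) (Nat.sub N2 (Nat.mul g03 p24_34))) M) (Nat.land (Nat.add (Nat.add
    (Nat.mul g11 p23_23) (Nat.mul g13 p12_23)) (Nat.sub N2 (Nat.mul g12 p13_23))) M) (Nat.land (Nat.add
    (Nat.add (Nat.mul g11 p23_24) (Nat.mul g14 p12_23)) (Nat.sub N2 (Nat.mul g12 p14_23))) M) (Nat.land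
    (Nat.add (Nat.add (Nat.mul g11 p23_34) (Nat.mul g14 p13_23)) (Nat.sub N2 (Nat.mul g13 p14_23))) M)
    (Nat.land (Nat.add (Nat.add (Nat.mul g12 p23_34) (Nat.mul g14 p23_23)) (Nat.sub N2 (Nat.mul g13 p23_24)))
    M) (Nat.land (Nat.add (Nat.add (Nat.mul g11 p24_24) (Nat.mul g14 p12_24)) (Nat.sub N2 (Nat.mul g12
    p14_24))) M) (Nat.land (Nat.add (Nat.add (Nat.mul g11 p24_34) (Nat.mul g14 p13_24)) (Nat.sub N2 (Nat.mul
    g13 p14_24))) M) (Nat.land (Nat.add (Nat.add (Nat.mul g12 p24_34) (Nat.mul g14 p23_24)) (Nat.sub N2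
    (Nat.mul g13 p24_24))) M) (Nat.land (Nat.add (Nat.add (Nat.mul g11 p34_34) (Nat.mul g14 p13_34)) (Nat.sub
    N2 (Nat.mul g13 p14_34))) M) (Nat.land (Nat.add (Nat.add (Nat.mul g12 p34_34) (Nat.mul g14 p23_34))
    (Nat.sub N2 (Nat.mul g13 p24_34))) M) (Nat.land (Nat.add (Nat.add (Nat.mul g22 p34_34) (Nat.mul g24
    p23_34)) (Nat.sub N2 (Nat.mul g23 p24_34))) M)

/-- six point data: minors of size two -/
def tA (k : (Nat → Nat) → Bool) (M N2 KN mu off k1 k2 k3 k4 k5 k6 k7 k8 k9 k10 k11 k12 k13 k14 k15 k16 k17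
  k18 k19 k20 k21 k22 k23 k24 k25 k26 k27 k28 k29 k30 k31 k32 k33 k34 k35 k36 k37 k38 k39 k40 k41 k42 k43 k44
  k45 k46 k47 k48 k49 g00 g01 g02 g03 g04 g11 g12 g13 g14 g22 g23 g24 g33 g34 g44 : Nat) : Bool :=
  tB k M N2 KN mu off k1 k2 k3 k4 k5 k6 k7 k8 k9 k10 k11 k12 k13 k14 k15 k16 k17 k18 k19 k20 k21 k22 k23 k24
    k25 k26 k27 k28 k29 k30 k31 k32 k33 k34 k35 k36 k37 k38 k39 k40 k41 k42 k43 k44 k45 k46 k47 k48 k49 g00
    g01 g02 g03 g04 g11 g12 g13 g14 g22 g23 g24 g33 g34 g44 (Nat.land (Nat.add (Nat.mul g01 g12) (Nat.sub N2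
    (Nat.mul g02 g11))) M) (Nat.land (Nat.add (Nat.mul g01 g13) (Nat.sub N2 (Nat.mul g03 g11))) M) (Nat.land
    (Nat.add (Nat.mul g01 g14) (Nat.sub N2 (Nat.mul g04 g11))) M) (Nat.land (Nat.add (Nat.mul g01 g22)
    (Nat.sub N2 (Nat.mul g02 g12))) M) (Nat.land (Nat.add (Nat.mul g01 g23) (Nat.sub N2 (Nat.mul g03 g12)))
    M) (Nat.land (Nat.add (Nat.mul g01 g24) (Nat.sub N2 (Nat.mul g04 g12))) M) (Nat.land (Nat.add (Nat.mul
    g02 g23) (Nat.sub N2 (Nat.mul g03 g22))) M) (Nat.land (Nat.add (Nat.mul g02 g24) (Nat.sub N2 (Nat.mul g04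
    g22))) M) (Nat.land (Nat.add (Nat.mul g01 g23) (Nat.sub N2 (Nat.mul g02 g13))) M) (Nat.land (Nat.add
    (Nat.mul g01 g33) (Nat.sub N2 (Nat.mul g03 g13))) M) (Nat.land (Nat.add (Nat.mul g01 g34) (Nat.sub N2
    (Nat.mul g04 g13))) M) (Nat.land (Nat.add (Nat.mul g02 g33) (Nat.sub N2 (Nat.mul g03 g23))) M) (Nat.land
    (Nat.add (Nat.mul g02 g34) (Nat.sub N2 (Nat.mul g04 g23))) M) (Nat.land (Nat.add (Nat.mul g03 g34)
    (Nat.sub N2 (Nat.mul g04 g33))) M) (Nat.land (Nat.add (Nat.mul g01 g24) (Nat.sub N2 (Nat.mul g02 g14)))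
    M) (Nat.land (Nat.add (Nat.mul g01 g34) (Nat.sub N2 (Nat.mul g03 g14))) M) (Nat.land (Nat.add (Nat.mul
    g01 g44) (Nat.sub N2 (Nat.mul g04 g14))) M) (Nat.land (Nat.add (Nat.mul g02 g34) (Nat.sub N2 (Nat.mul g03
    g24))) M) (Nat.land (Nat.add (Nat.mul g02 g44) (Nat.sub N2 (Nat.mul g04 g24))) M) (Nat.land (Nat.add
    (Nat.mul g03 g44) (Nat.sub N2 (Nat.mul g04 g34))) M) (Nat.land (Nat.add (Nat.mul g11 g22) (Nat.sub N2
    (Nat.mul g12 g12))) M) (Nat.land (Nat.add (Nat.mul g11 g23) (Nat.sub N2 (Nat.mul g13 g12))) M) (Nat.land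
    (Nat.add (Nat.mul g11 g24) (Nat.sub N2 (Nat.mul g14 g12))) M) (Nat.land (Nat.add (Nat.mul g12 g23)
    (Nat.sub N2 (Nat.mul g13 g22))) M) (Nat.land (Nat.add (Nat.mul g12 g24) (Nat.sub N2 (Nat.mul g14 g22)))
    M) (Nat.land (Nat.add (Nat.mul g13 g24) (Nat.sub N2 (Nat.mul g14 g23))) M) (Nat.land (Nat.add (Nat.mul
    g11 g33) (Nat.sub N2 (Nat.mul g13 g13))) M) (Nat.land (Nat.add (Nat.mul g11 g34) (Nat.sub N2 (Nat.mul g14
    g13))) M) (Nat.land (Nat.add (Nat.mul g12 g33) (Nat.sub N2 (Nat.mul g13 g23))) M) (Nat.land (Nat.add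
    (Nat.mul g12 g34) (Nat.sub N2 (Nat.mul g14 g23))) M) (Nat.land (Nat.add (Nat.mul g13 g34) (Nat.sub N2
    (Nat.mul g14 g33))) M) (Nat.land (Nat.add (Nat.mul g11 g44) (Nat.sub N2 (Nat.mul g14 g14))) M) (Nat.land
    (Nat.add (Nat.mul g12 g34) (Nat.sub N2 (Nat.mul g13 g24))) M) (Nat.land (Nat.add (Nat.mul g12 g44)
    (Nat.sub N2 (Nat.mul g14 g24))) M) (Nat.land (Nat.add (Nat.mul g13 g44) (Nat.sub N2 (Nat.mul g14 g34)))
    M) (Nat.land (Nat.add (Nat.mul g22 g33) (Nat.sub N2 (Nat.mul g23 g23))) M) (Nat.land (Nat.add (Nat.mul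
    g22 g34) (Nat.sub N2 (Nat.mul g24 g23))) M) (Nat.land (Nat.add (Nat.mul g23 g34) (Nat.sub N2 (Nat.mul g24
    g33))) M) (Nat.land (Nat.add (Nat.mul g22 g44) (Nat.sub N2 (Nat.mul g24 g24))) M) (Nat.land (Nat.add
    (Nat.mul g23 g44) (Nat.sub N2 (Nat.mul g24 g34))) M) (Nat.land (Nat.add (Nat.mul g33 g44) (Nat.sub N2
    (Nat.mul g34 g34))) M)

/-- six point data from the fifteen values -/
def tM (k : (Nat → Nat) → Bool) (N M N2 KN mu off k1 k2 k3 k4 k5 k6 k7 k8 k9 k10 k11 k12 k13 k14 k15 k16 k17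
  k18 k19 k20 k21 k22 k23 k24 k25 k26 k27 k28 k29 k30 k31 k32 k33 k34 k35 k36 k37 k38 k39 k40 k41 k42 k43 k44
  k45 k46 k47 k48 k49 x01 x02 x12 x03 x13 x23 x04 x14 x24 x34 x05 x15 x25 x35 x45 : Nat) : Bool :=
  tA k M N2 KN mu off k1 k2 k3 k4 k5 k6 k7 k8 k9 k10 k11 k12 k13 k14 k15 k16 k17 k18 k19 k20 k21 k22 k23 k24
    k25 k26 k27 k28 k29 k30 k31 k32 k33 k34 k35 k36 k37 k38 k39 k40 k41 k42 k43 k44 k45 k46 k47 k48 k49
    (Nat.mul 2 x01) (Nat.land (Nat.add (Nat.add x01 x02) (Nat.sub N x12)) M) (Nat.land (Nat.add (Nat.add x01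
    x03) (Nat.sub N x13)) M) (Nat.land (Nat.add (Nat.add x01 x04) (Nat.sub N x14)) M) (Nat.land (Nat.add
    (Nat.add x01 x05) (Nat.sub N x15)) M) (Nat.mul 2 x02) (Nat.land (Nat.add (Nat.add x02 x03) (Nat.sub N
    x23)) M) (Nat.land (Nat.add (Nat.add x02 x04) (Nat.sub N x24)) M) (Nat.land (Nat.add (Nat.add x02 x05)
    (Nat.sub N x25)) M) (Nat.mul 2 x03) (Nat.land (Nat.add (Nat.add x03 x04) (Nat.sub N x34)) M) (Nat.land
    (Nat.add (Nat.add x03 x05) (Nat.sub N x35)) M) (Nat.mul 2 x04) (Nat.land (Nat.add (Nat.add x04 x05)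
    (Nat.sub N x45)) M) (Nat.mul 2 x05)

/-- five point data, digits of 6 bits -/
def aK6 (k : (Nat → Nat → Nat → Nat → Nat → Nat → Nat) → Bool) (b x01 x02 x12 x03 x13 x23 x04 x14 x24 x34 : Nat) : Bool :=
  aK k (Nat.pow 2 (Nat.mul 136 b)) (Nat.sub (Nat.pow 2 (Nat.mul 136 b)) 1) (Nat.pow 2 (Nat.mul 272 b))
    (Nat.pow 2 (Nat.add (Nat.mul 136 b) 10)) 63 32 6 12 18 24 30 36 42 48 54 60 66 72 78 84 90 96 102 108 114
    120 126 132 138 144 150 156 162 168 174 180 186 192 198 204 210 216 222 228 234 240 246 252 258 264 270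
    276 282 288 294 x01 x02 x12 x03 x13 x23 x04 x14 x24 x34

/-- six point data, digits of 6 bits -/
def tM6 (k : (Nat → Nat) → Bool) (b x01 x02 x12 x03 x13 x23 x04 x14 x24 x34 x05 x15 x25 x35 x45 : Nat) : Bool :=
  tM k (Nat.pow 2 (Nat.mul 136 b)) (Nat.sub (Nat.pow 2 (Nat.mul 136 b)) 1) (Nat.pow 2 (Nat.mul 272 b))
    (Nat.pow 2 (Nat.add (Nat.mul 136 b) 6)) 63 32 6 12 18 24 30 36 42 48 54 60 66 72 78 84 90 96 102 108 114
    120 126 132 138 144 150 156 162 168 174 180 186 192 198 204 210 216 222 228 234 240 246 252 258 264 270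
    276 282 288 294 x01 x02 x12 x03 x13 x23 x04 x14 x24 x34 x05 x15 x25 x35 x45

/-- five point data, digits of 8 bits -/
def aK8 (k : (Nat → Nat → Nat → Nat → Nat → Nat → Nat) → Bool) (b x01 x02 x12 x03 x13 x23 x04 x14 x24 x34 : Nat) : Bool :=
  aK k (Nat.pow 2 (Nat.mul 136 b)) (Nat.sub (Nat.pow 2 (Nat.mul 136 b)) 1) (Nat.pow 2 (Nat.mul 272 b))
    (Nat.pow 2 (Nat.add (Nat.mul 136 b) 12)) 255 128 8 16 24 32 40 48 56 64 72 80 88 96 104 112 120 128 136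
    144 152 160 168 176 184 192 200 208 216 224 232 240 248 256 264 272 280 288 296 304 312 320 328 336 344
    352 360 368 376 384 392 x01 x02 x12 x03 x13 x23 x04 x14 x24 x34

/-- six point data, digits of 8 bits -/
def tM8 (k : (Nat → Nat) → Bool) (b x01 x02 x12 x03 x13 x23 x04 x14 x24 x34 x05 x15 x25 x35 x45 : Nat) : Bool :=
  tM k (Nat.pow 2 (Nat.mul 136 b)) (Nat.sub (Nat.pow 2 (Nat.mul 136 b)) 1) (Nat.pow 2 (Nat.mul 272 b))
    (Nat.pow 2 (Nat.add (Nat.mul 136 b) 6)) 255 128 8 16 24 32 40 48 56 64 72 80 88 96 104 112 120 128 136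
    144 152 160 168 176 184 192 200 208 216 224 232 240 248 256 264 272 280 288 296 304 312 320 328 336 344
    352 360 368 376 384 392 x01 x02 x12 x03 x13 x23 x04 x14 x24 x34 x05 x15 x25 x35 x45

/-- five point data, digits of 10 bits -/
def aK10 (k : (Nat → Nat → Nat → Nat → Nat → Nat → Nat) → Bool) (b x01 x02 x12 x03 x13 x23 x04 x14 x24 x34 : Nat) : Bool :=
  aK k (Nat.pow 2 (Nat.mul 136 b)) (Nat.sub (Nat.pow 2 (Nat.mul 136 b)) 1) (Nat.pow 2 (Nat.mul 272 b))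
    (Nat.pow 2 (Nat.add (Nat.mul 136 b) 14)) 1023 512 10 20 30 40 50 60 70 80 90 100 110 120 130 140 150 160
    170 180 190 200 210 220 230 240 250 260 270 280 290 300 310 320 330 340 350 360 370 380 390 400 410 420
    430 440 450 460 470 480 490 x01 x02 x12 x03 x13 x23 x04 x14 x24 x34

/-- six point data, digits of 10 bits -/
def tM10 (k : (Nat → Nat) → Bool) (b x01 x02 x12 x03 x13 x23 x04 x14 x24 x34 x05 x15 x25 x35 x45 : Nat) : Bool :=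
  tM k (Nat.pow 2 (Nat.mul 136 b)) (Nat.sub (Nat.pow 2 (Nat.mul 136 b)) 1) (Nat.pow 2 (Nat.mul 272 b))
    (Nat.pow 2 (Nat.add (Nat.mul 136 b) 6)) 1023 512 10 20 30 40 50 60 70 80 90 100 110 120 130 140 150 160
    170 180 190 200 210 220 230 240 250 260 270 280 290 300 310 320 330 340 350 360 370 380 390 400 410 420
    430 440 450 460 470 480 490 x01 x02 x12 x03 x13 x23 x04 x14 x24 x34 x05 x15 x25 x35 x45

/-- five point data, digits of 12 bits -/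
def aK12 (k : (Nat → Nat → Nat → Nat → Nat → Nat → Nat) → Bool) (b x01 x02 x12 x03 x13 x23 x04 x14 x24 x34 : Nat) : Bool :=
  aK k (Nat.pow 2 (Nat.mul 136 b)) (Nat.sub (Nat.pow 2 (Nat.mul 136 b)) 1) (Nat.pow 2 (Nat.mul 272 b))
    (Nat.pow 2 (Nat.add (Nat.mul 136 b) 16)) 4095 2048 12 24 36 48 60 72 84 96 108 120 132 144 156 168 180
    192 204 216 228 240 252 264 276 288 300 312 324 336 348 360 372 384 396 408 420 432 444 456 468 480 492
    504 516 528 540 552 564 576 588 x01 x02 x12 x03 x13 x23 x04 x14 x24 x34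

/-- six point data, digits of 12 bits -/
def tM12 (k : (Nat → Nat) → Bool) (b x01 x02 x12 x03 x13 x23 x04 x14 x24 x34 x05 x15 x25 x35 x45 : Nat) : Bool :=
  tM k (Nat.pow 2 (Nat.mul 136 b)) (Nat.sub (Nat.pow 2 (Nat.mul 136 b)) 1) (Nat.pow 2 (Nat.mul 272 b))
    (Nat.pow 2 (Nat.add (Nat.mul 136 b) 6)) 4095 2048 12 24 36 48 60 72 84 96 108 120 132 144 156 168 180 192
    204 216 228 240 252 264 276 288 300 312 324 336 348 360 372 384 396 408 420 432 444 456 468 480 492 504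
    516 528 540 552 564 576 588 x01 x02 x12 x03 x13 x23 x04 x14 x24 x34 x05 x15 x25 x35 x45

/-- five point data, digits of 14 bits -/
def aK14 (k : (Nat → Nat → Nat → Nat → Nat → Nat → Nat) → Bool) (b x01 x02 x12 x03 x13 x23 x04 x14 x24 x34 : Nat) : Bool :=
  aK k (Nat.pow 2 (Nat.mul 136 b)) (Nat.sub (Nat.pow 2 (Nat.mul 136 b)) 1) (Nat.pow 2 (Nat.mul 272 b))
    (Nat.pow 2 (Nat.add (Nat.mul 136 b) 18)) 16383 8192 14 28 42 56 70 84 98 112 126 140 154 168 182 196 210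
    224 238 252 266 280 294 308 322 336 350 364 378 392 406 420 434 448 462 476 490 504 518 532 546 560 574
    588 602 616 630 644 658 672 686 x01 x02 x12 x03 x13 x23 x04 x14 x24 x34

/-- six point data, digits of 14 bits -/
def tM14 (k : (Nat → Nat) → Bool) (b x01 x02 x12 x03 x13 x23 x04 x14 x24 x34 x05 x15 x25 x35 x45 : Nat) : Bool :=
  tM k (Nat.pow 2 (Nat.mul 136 b)) (Nat.sub (Nat.pow 2 (Nat.mul 136 b)) 1) (Nat.pow 2 (Nat.mul 272 b))
    (Nat.pow 2 (Nat.add (Nat.mul 136 b) 6)) 16383 8192 14 28 42 56 70 84 98 112 126 140 154 168 182 196 210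
    224 238 252 266 280 294 308 322 336 350 364 378 392 406 420 434 448 462 476 490 504 518 532 546 560 574
    588 602 616 630 644 658 672 686 x01 x02 x12 x03 x13 x23 x04 x14 x24 x34 x05 x15 x25 x35 x45

/-- five point data, digits of 18 bits -/
def aK18 (k : (Nat → Nat → Nat → Nat → Nat → Nat → Nat) → Bool) (b x01 x02 x12 x03 x13 x23 x04 x14 x24 x34 : Nat) : Bool :=
  aK k (Nat.pow 2 (Nat.mul 136 b)) (Nat.sub (Nat.pow 2 (Nat.mul 136 b)) 1) (Nat.pow 2 (Nat.mul 272 b))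
    (Nat.pow 2 (Nat.add (Nat.mul 136 b) 22)) 262143 131072 18 36 54 72 90 108 126 144 162 180 198 216 234 252
    270 288 306 324 342 360 378 396 414 432 450 468 486 504 522 540 558 576 594 612 630 648 666 684 702 720
    738 756 774 792 810 828 846 864 882 x01 x02 x12 x03 x13 x23 x04 x14 x24 x34

/-- six point data, digits of 18 bits -/
def tM18 (k : (Nat → Nat) → Bool) (b x01 x02 x12 x03 x13 x23 x04 x14 x24 x34 x05 x15 x25 x35 x45 : Nat) : Bool :=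
  tM k (Nat.pow 2 (Nat.mul 136 b)) (Nat.sub (Nat.pow 2 (Nat.mul 136 b)) 1) (Nat.pow 2 (Nat.mul 272 b))
    (Nat.pow 2 (Nat.add (Nat.mul 136 b) 6)) 262143 131072 18 36 54 72 90 108 126 144 162 180 198 216 234 252
    270 288 306 324 342 360 378 396 414 432 450 468 486 504 522 540 558 576 594 612 630 648 666 684 702 720
    738 756 774 792 810 828 846 864 882 x01 x02 x12 x03 x13 x23 x04 x14 x24 x34 x05 x15 x25 x35 x45

/-- five point data, digits of 24 bits -/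
def aK24 (k : (Nat → Nat → Nat → Nat → Nat → Nat → Nat) → Bool) (b x01 x02 x12 x03 x13 x23 x04 x14 x24 x34 : Nat) : Bool :=
  aK k (Nat.pow 2 (Nat.mul 136 b)) (Nat.sub (Nat.pow 2 (Nat.mul 136 b)) 1) (Nat.pow 2 (Nat.mul 272 b))
    (Nat.pow 2 (Nat.add (Nat.mul 136 b) 28)) 16777215 8388608 24 48 72 96 120 144 168 192 216 240 264 288 312
    336 360 384 408 432 456 480 504 528 552 576 600 624 648 672 696 720 744 768 792 816 840 864 888 912 936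
    960 984 1008 1032 1056 1080 1104 1128 1152 1176 x01 x02 x12 x03 x13 x23 x04 x14 x24 x34

/-- six point data, digits of 24 bits -/
def tM24 (k : (Nat → Nat) → Bool) (b x01 x02 x12 x03 x13 x23 x04 x14 x24 x34 x05 x15 x25 x35 x45 : Nat) : Bool :=
  tM k (Nat.pow 2 (Nat.mul 136 b)) (Nat.sub (Nat.pow 2 (Nat.mul 136 b)) 1) (Nat.pow 2 (Nat.mul 272 b))
    (Nat.pow 2 (Nat.add (Nat.mul 136 b) 6)) 16777215 8388608 24 48 72 96 120 144 168 192 216 240 264 288 312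
    336 360 384 408 432 456 480 504 528 552 576 600 624 648 672 696 720 744 768 792 816 840 864 888 912 936
    960 984 1008 1032 1056 1080 1104 1128 1152 1176 x01 x02 x12 x03 x13 x23 x04 x14 x24 x34 x05 x15 x25 x35
    x45

def g2 (N M a b c : Nat) : Nat := Nat.land (Nat.add (Nat.add a b) (Nat.sub N c)) M

def m2 (N2 M a b c d : Nat) : Nat := Nat.land (Nat.add (Nat.mul a b) (Nat.sub N2 (Nat.mul c d))) M

def m3 (N2 a p b q c r : Nat) : Nat := Nat.add (Nat.add (Nat.mul a p) (Nat.mul c r)) (Nat.sub N2 (Nat.mul b q))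

/-- code of the pair `(i, j)` in the packed table `w` (3 bits each, row length 16; 0 = unknown) -/
def cl (w i j : Nat) : Nat := Nat.land (Nat.shiftRight w (Nat.mul 3 (Nat.add (Nat.mul 16 i) j))) 7

/-- entry number `c` (width `W`, mask `MW`) of a packed table -/
def xc (XT W MW c : Nat) : Nat := Nat.land (Nat.shiftRight XT (Nat.mul W c)) MW

/-- `b` times the weight of variable `k` -/
def kwn (b k : Nat) : Nat := Nat.mul b (Nat.land (Nat.shiftRight 49029886080 (Nat.mul 6 k)) 63)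

/-- one term of the table of values -/
def xe (b A d a : Nat) : Nat :=
  Nat.shiftLeft (Nat.land (Nat.shiftRight A (Nat.add (Nat.mul 6 d) a)) 1)
    (Nat.add (Nat.mul (Nat.mul 46 b) (Nat.add d 1)) (kwn b a))

def xr (b A d : Nat) : Nat :=
  Nat.add (Nat.add (Nat.add (xe b A d 0) (xe b A d 1)) (Nat.add (xe b A d 2) (xe b A d 3)))
    (Nat.add (xe b A d 4) (xe b A d 5))

/-- packed table of the values of the colours: colour `d` (code `d + 1`) is the sum of the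
variables `a` for which bit `6 d + a` of `A` is set -/
def xtab (b A : Nat) : Nat :=
  Nat.add (Nat.add (Nat.add (xr b A 0) (xr b A 1)) (Nat.add (xr b A 2) (xr b A 3)))
    (Nat.add (xr b A 4) (xr b A 5))

/-- the top bits of all digits -/
def topm (b : Nat) : Nat :=
  Nat.mul (Nat.pow 2 (Nat.sub b 1))
    (Nat.div (Nat.sub (Nat.pow 2 (Nat.mul 136 b)) 1) (Nat.sub (Nat.pow 2 b) 1))

noncomputable def cnd (c a : Bool) : Bool := Bool.rec false a c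

noncomputable def isZ (n : Nat) (a b : Bool) : Bool := Nat.rec a (fun _ _ => b) n

noncomputable def isZn (n a b : Nat) : Nat := Nat.rec a (fun _ _ => b) n

/-- final test: all coefficients nonnegative, and not all zero unless `st` is positive -/
noncomputable def lpFin (b st acc : Nat) : Bool :=
  isZ (Nat.land acc (topm b))
    (isZ st (isZ (Nat.land acc (Nat.sub (Nat.pow 2 (Nat.mul 136 b)) 1)) false true) true) false

noncomputable def okp (w r c : Nat) : Bool := isZ (cl w r c) (Nat.beq r c) true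

noncomputable def minOK (w v0 v1 v2 v3 v4 v5 v6 : Nat) : Bool :=
  isZ (Nat.mul (Nat.mul (Nat.mul (cl w v0 v1) (cl w v0 v2)) (Nat.mul (cl w v0 v3) (cl w v0 v4)))
    (Nat.mul (cl w v0 v5) (cl w v0 v6))) false
    (cnd (okp w v1 v4) (cnd (okp w v1 v5) (cnd (okp w v1 v6) (cnd (okp w v2 v4) (cnd (okp w v2 v5)
      (cnd (okp w v2 v6) (cnd (okp w v3 v4) (cnd (okp w v3 v5) (okp w v3 v6)))))))))

/-- value of an equation as a difference `p - q`, with the shift of its multiplier -/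
noncomputable def othV (t N M N2 XT W MW w sk sl v0 v1 v2 v3 v4 v5 v6 : Nat)
    (k : Nat → Nat → Nat → Bool) : Bool :=
  Nat.rec
    ((fun cab cdb cad cbc => isZ (Nat.mul (Nat.mul cab cdb) (Nat.mul cad cbc)) false
        (cnd (Nat.beq cab (cl w v0 v3)) (cnd (Nat.beq cdb (cl w v1 v3))
          ((fun s p q r => k (Nat.mul 2 (Nat.add (Nat.mul s (Nat.add p q)) (Nat.mul p q)))
              (Nat.add (Nat.add (Nat.mul s (Nat.add s r)) (Nat.mul p p)) (Nat.mul q q)) sk)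
            (xc XT W MW cad) (xc XT W MW cab) (xc XT W MW cdb) (xc XT W MW cbc)))))
      (cl w v0 v2) (cl w v1 v2) (cl w v0 v1) (cl w v2 v3))
    (fun t _ => Nat.rec
      ((fun cac cad cab ccd => isZ (Nat.mul (Nat.mul cac cad) (Nat.mul cab ccd)) false
          (cnd (Nat.beq cac (cl w v1 v3)) (cnd (Nat.beq cad (cl w v1 v2))
            (k (Nat.add (xc XT W MW cab) (xc XT W MW ccd))
              (Nat.mul 2 (Nat.add (xc XT W MW cac) (xc XT W MW cad))) (Nat.add sk sl)))))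
        (cl w v0 v2) (cl w v0 v3) (cl w v0 v1) (cl w v2 v3))
      (fun t _ => Nat.rec
        ((fun cac cad cab ccd => isZ (Nat.mul (Nat.mul cac cad) (Nat.mul cab ccd)) false
          (cnd (Nat.beq cac (cl w v1 v3)) (cnd (Nat.beq cad (cl w v1 v2))
            ((fun pa pb pc pd => isZ (Nat.mul (Nat.mul pa pb) (Nat.mul pc pd)) false
              (k (Nat.add (Nat.mul 2 (Nat.add (xc XT W MW pa) (xc XT W MW pb))) (xc XT W MW ccd))
                (Nat.add (Nat.mul 2 (Nat.add (xc XT W MW pc) (xc XT W MW pd))) (xc XT W MW cab))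
                (Nat.add sk sl)))
              (cl w v4 v0) (cl w v4 v1) (cl w v4 v2) (cl w v4 v3)))))
          (cl w v0 v2) (cl w v0 v3) (cl w v0 v1) (cl w v2 v3))
        (fun _ _ =>
          cnd (minOK w v0 v1 v2 v3 v4 v5 v6)
            ((fun x1 x2 x3 y4 y5 y6 =>
              (fun a11 a12 a13 a21 a22 a23 a31 a32 a33 =>
                k (m3 N2 a11 (m2 N2 M a22 a33 a23 a32) a12 (m2 N2 M a21 a33 a23 a31)
                  a13 (m2 N2 M a21 a32 a22 a31)) 0 0)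
              (g2 N M x1 y4 (xc XT W MW (cl w v1 v4))) (g2 N M x1 y5 (xc XT W MW (cl w v1 v5)))
              (g2 N M x1 y6 (xc XT W MW (cl w v1 v6)))
              (g2 N M x2 y4 (xc XT W MW (cl w v2 v4))) (g2 N M x2 y5 (xc XT W MW (cl w v2 v5)))
              (g2 N M x2 y6 (xc XT W MW (cl w v2 v6)))
              (g2 N M x3 y4 (xc XT W MW (cl w v3 v4))) (g2 N M x3 y5 (xc XT W MW (cl w v3 v5)))
              (g2 N M x3 y6 (xc XT W MW (cl w v3 v6))))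
              (xc XT W MW (cl w v0 v1)) (xc XT W MW (cl w v0 v2)) (xc XT W MW (cl w v0 v3))
              (xc XT W MW (cl w v0 v4)) (xc XT W MW (cl w v0 v5)) (xc XT W MW (cl w v0 v6))))
        t) t) t

/-- add the equations of the certificate -/
noncomputable def othLoop (b u mu N M N2 XT W MW w st : Nat) (n : Nat) : Nat → Nat → Bool :=
  Nat.rec (fun _ acc => lpFin b st acc)
    (fun _ ih data acc =>
      othV (Nat.land data 3) N M N2 XT W MW w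
        (kwn b (Nat.land (Nat.shiftRight data 3) 7)) (kwn b (Nat.land (Nat.shiftRight data 6) 7))
        (Nat.land (Nat.shiftRight data 9) 15)
        (Nat.land (Nat.shiftRight data 13) 15) (Nat.land (Nat.shiftRight data 17) 15)
        (Nat.land (Nat.shiftRight data 21) 15) (Nat.land (Nat.shiftRight data 25) 15)
        (Nat.land (Nat.shiftRight data 29) 15) (Nat.land (Nat.shiftRight data 33) 15)
        (fun p q s => ih (Nat.shiftRight data (Nat.add 37 u)) (Nat.add acc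
          (Nat.shiftLeft (Nat.mul (Nat.add 1 (Nat.land (Nat.shiftRight data 37) mu))
            (isZn (Nat.land (Nat.shiftRight data 2) 1)
              (Nat.add p (Nat.sub (Nat.mul 4 N2) q)) (Nat.add q (Nat.sub (Nat.mul 4 N2) p)))) s)))) n

/-- add the triangle terms, then the equations -/
noncomputable def triLoop (b u mu N M N2 XT W MW w st no : Nat) (n : Nat) : Nat → Nat → Bool :=
  Nat.rec (fun data acc => othLoop b u mu N M N2 XT W MW w st no data acc)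
    (fun _ ih data acc =>
      (fun cij cik cjk => isZ (Nat.mul (Nat.mul cij cik) cjk) false
        ((fun p q r => ih (Nat.shiftRight data (Nat.add 15 u)) (Nat.add acc
          (Nat.shiftLeft (Nat.mul (Nat.add 1 (Nat.land (Nat.shiftRight data 15) mu))
            (Nat.add (Nat.add (Nat.add (Nat.mul p p) (Nat.mul q q)) (Nat.mul r r))
              (Nat.sub N2 (Nat.mul 2 (Nat.add (Nat.mul p (Nat.add q r)) (Nat.mul q r))))))
            (kwn b (Nat.land (Nat.shiftRight data 12) 7)))))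
          (xc XT W MW cij) (xc XT W MW cik) (xc XT W MW cjk)))
      (cl w (Nat.land data 15) (Nat.land (Nat.shiftRight data 4) 15))
      (cl w (Nat.land data 15) (Nat.land (Nat.shiftRight data 8) 15))
      (cl w (Nat.land (Nat.shiftRight data 4) 15) (Nat.land (Nat.shiftRight data 8) 15))) n


/-- the mask of a packed table for `b` -/
def mw (b : Nat) : Nat := Nat.sub (Nat.pow 2 (Nat.mul 46 b)) 1

/-- value of the pair `(i, j)` -/
def xv (b XT w i j : Nat) : Nat := xc XT (Nat.mul 46 b) (mw b) (cl w i j)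

/-- the part of a certificate after its dense part -/
noncomputable def rest (b u XT w p off acc : Nat) : Bool :=
  triLoop b u (Nat.sub (Nat.pow 2 u) 1) (Nat.pow 2 (Nat.mul 136 b)) (Nat.sub (Nat.pow 2 (Nat.mul 136 b)) 1)
    (Nat.pow 2 (Nat.mul 272 b)) XT (Nat.mul 46 b) (mw b) w
    (Nat.land p 31) (Nat.land (Nat.shiftRight p 5) 31) (Nat.land p 31) (Nat.shiftRight p off) acc

/-- all ten pairs of the first five points are known -/
noncomputable def full5 (w : Nat) : Nat :=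
  Nat.mul (Nat.mul (Nat.mul (cl w 0 1) (cl w 0 2)) (Nat.mul (cl w 1 2) (cl w 0 3)))
    (Nat.mul (Nat.mul (Nat.mul (cl w 1 3) (cl w 2 3)) (Nat.mul (cl w 0 4) (cl w 1 4))) (Nat.mul (cl w 2 4) (cl w 3 4)))

/-- all five pairs containing the sixth point are known -/
noncomputable def full6 (w : Nat) : Nat :=
  Nat.mul (Nat.mul (Nat.mul (cl w 0 5) (cl w 1 5)) (Nat.mul (cl w 2 5) (cl w 3 5))) (cl w 4 5)

/-- certificate for the table `w`, digits of `u` bits, packing `b`; `K` is the five point data -/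
noncomputable def lf (b u : Nat) (K : Nat → Nat → Nat → Nat → Nat → Nat → Nat) (XT w p : Nat) : Bool :=
  isZ (full6 w) false
    (rest b u XT w p (Nat.add 10 (Nat.mul 50 u))
      (K (Nat.shiftRight p 10) (xv b XT w 0 5) (xv b XT w 1 5) (xv b XT w 2 5) (xv b XT w 3 5) (xv b XT w 4 5)))

/-- the same with six point data `K` -/
noncomputable def lg (b u : Nat) (K : Nat → Nat) (XT w p : Nat) : Bool :=
  rest b u XT w p (Nat.add 10 (Nat.mul 50 u)) (K (Nat.shiftRight p 10))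

/-- certificate without dense part -/
noncomputable def ls (b u XT w p : Nat) : Bool := rest b u XT w p 10 0

/-- the matrix of the trivial forest: every colour is a variable -/
def idA : Nat := 34630287489

/-- certificate without order information; the mode is in the lowest three bits -/
noncomputable def lRoot (K6 K8 K10 K12 K14 K18 K24 : Nat → Nat → Nat → Nat → Nat → Nat → Nat) (w p : Nat) : Bool :=
  Nat.rec (lf 21 6 K6 (xtab 21 idA) w (Nat.shiftRight p 3))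
    (fun t _ => Nat.rec (lf 23 8 K8 (xtab 23 idA) w (Nat.shiftRight p 3)) (fun t _ => Nat.rec (lf 25 10 K10 (xtab 25 idA) w (Nat.shiftRight p 3)) (fun t _ => Nat.rec (lf 27 12 K12 (xtab 27 idA) w (Nat.shiftRight p 3)) (fun t _ => Nat.rec (lf 29 14 K14 (xtab 29 idA) w (Nat.shiftRight p 3)) (fun t _ => Nat.rec (lf 33 18 K18 (xtab 33 idA) w (Nat.shiftRight p 3)) (fun t _ => Nat.rec (lf 39 24 K24 (xtab 39 idA) w (Nat.shiftRight p 3)) (fun _ _ => (ls 39 24 (xtab 39 idA) w (Nat.shiftRight p 3))) t) t) t) t) t) t) (Nat.land p 7)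

/-- provide the five point data of the table `w` for all modes -/
noncomputable def withK (w : Nat) (k : (Nat → Nat → Nat → Nat → Nat → Nat → Nat) → (Nat → Nat → Nat → Nat → Nat → Nat → Nat) → (Nat → Nat → Nat → Nat → Nat → Nat → Nat) → (Nat → Nat → Nat → Nat → Nat → Nat → Nat) → (Nat → Nat → Nat → Nat → Nat → Nat → Nat) → (Nat → Nat → Nat → Nat → Nat → Nat → Nat) → (Nat → Nat → Nat → Nat → Nat → Nat → Nat) → Bool) : Bool :=
  isZ (full5 w) false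
    (aK6 (fun K6 =>
    aK8 (fun K8 =>
    aK10 (fun K10 =>
    aK12 (fun K12 =>
    aK14 (fun K14 =>
    aK18 (fun K18 =>
    aK24 (fun K24 =>
    k K6 K8 K10 K12 K14 K18 K24) 39 (xv 39 (xtab 39 idA) w 0 1) (xv 39 (xtab 39 idA) w 0 2) (xv 39 (xtab 39 idA) w 1 2) (xv 39 (xtab 39 idA) w 0 3) (xv 39 (xtab 39 idA) w 1 3) (xv 39 (xtab 39 idA) w 2 3) (xv 39 (xtab 39 idA) w 0 4) (xv 39 (xtab 39 idA) w 1 4) (xv 39 (xtab 39 idA) w 2 4) (xv 39 (xtab 39 idA) w 3 4)) 33 (xv 33 (xtab 33 idA) w 0 1) (xv 33 (xtab 33 idA) w 0 2) (xv 33 (xtab 33 idA) w 1 2) (xv 33 (xtab 33 idA) w 0 3) (xv 33 (xtab 33 idA) w 1 3) (xv 33 (xtab 33 idA) w 2 3) (xv 33 (xtab 33 idA) w 0 4) (xv 33 (xtab 33 idA) w 1 4) (xv 33 (xtab 33 idA) w 2 4) (xv 33 (xtab 33 idA) w 3 4)) 29 (xv 29 (xtab 29 idA) w 0 1) (xv 29 (xtab 29 idA) w 0 2) (xv 29 (xtab 29 idA) w 1 2) (xv 29 (xtab 29 idA) w 0 3) (xv 29 (xtab 29 idA) w 1 3)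 (xv 29 (xtab 29 idA) w 2 3) (xv 29 (xtab 29 idA) w 0 4) (xv 29 (xtab 29 idA) w 1 4) (xv 29 (xtab 29 idA) w 2 4) (xv 29 (xtab 29 idA) w 3 4)) 27 (xv 27 (xtab 27 idA) w 0 1) (xv 27 (xtab 27 idA) w 0 2) (xv 27 (xtab 27 idA) w 1 2) (xv 27 (xtab 27 idA) w 0 3) (xv 27 (xtab 27 idA) w 1 3) (xv 27 (xtab 27 idA) w 2 3) (xv 27 (xtab 27 idA) w 0 4) (xv 27 (xtab 27 idA) w 1 4) (xv 27 (xtab 27 idA) w 2 4) (xv 27 (xtab 27 idA) w 3 4)) 25 (xv 25 (xtab 25 idA) w 0 1) (xv 25 (xtab 25 idA) w 0 2) (xv 25 (xtab 25 idA) w 1 2) (xv 25 (xtab 25 idA) w 0 3) (xv 25 (xtab 25 idA) w 1 3) (xv 25 (xtab 25 idA) w 2 3) (xv 25 (xtab 25 idA) w 0 4) (xv 25 (xtab 25 idA) w 1 4) (xv 25 (xtab 25 idA) w 2 4) (xv 25 (xtab 25 idA) w 3 4)) 23 (xv 23 (xtab 23 idA) w 0 1) (xv 23 (xtab 23 idA) w 0 2) (xv 23 (xtab 23 idA) w 1 2) (xv 23 (xtab 23 idA) w 0 3) (xv 23 (xtab 23 idA) w 1 3) (xv 23 (xtab 23 idA) w 2 3) (xv 23 (xtab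 23 idA) w 0 4) (xv 23 (xtab 23 idA) w 1 4) (xv 23 (xtab 23 idA) w 2 4) (xv 23 (xtab 23 idA) w 3 4)) 21 (xv 21 (xtab 21 idA) w 0 1) (xv 21 (xtab 21 idA) w 0 2) (xv 21 (xtab 21 idA) w 1 2) (xv 21 (xtab 21 idA) w 0 3) (xv 21 (xtab 21 idA) w 1 3) (xv 21 (xtab 21 idA) w 2 3) (xv 21 (xtab 21 idA) w 0 4) (xv 21 (xtab 21 idA) w 1 4) (xv 21 (xtab 21 idA) w 2 4) (xv 21 (xtab 21 idA) w 3 4))

/-- certificate for the forest `A`; `e` is the number of extra bits -/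
noncomputable def lChain (A e w p : Nat) : Bool :=
  isZ (full5 w) false
    (Nat.rec ((fun b => (fun XT => aK6 (fun K => lf b 6 K XT w (Nat.shiftRight p 3)) b (xv b XT w 0 1) (xv b XT w 0 2) (xv b XT w 1 2) (xv b XT w 0 3) (xv b XT w 1 3) (xv b XT w 2 3) (xv b XT w 0 4) (xv b XT w 1 4) (xv b XT w 2 4) (xv b XT w 3 4)) (xtab b A)) (Nat.add 21 e))
    (fun t _ => Nat.rec ((fun b => (fun XT => aK8 (fun K => lf b 8 K XT w (Nat.shiftRight p 3)) b (xv b XT w 0 1) (xv b XT w 0 2) (xv b XT w 1 2) (xv b XT w 0 3) (xv b XT w 1 3) (xv b XT w 2 3) (xv b XT w 0 4) (xv b XT w 1 4) (xv b XT w 2 4) (xv b XT w 3 4)) (xtab b A)) (Nat.add 23 e)) (fun t _ => Nat.rec ((fun b => (fun XT => aK10 (fun K => lf b 10 K XT w (Nat.shiftRight p 3)) b (xv b XT w 0 1) (xv b XT w 0 2) (xv b XT w 1 2) (xv b XT w 0 3) (xv b XT w 1 3) (xv b XT w 2 3) (xv b XT w 0 4) (xv b XT w 1 4) (xv b XT w 2 4) (xv b XT w 3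 4)) (xtab b A)) (Nat.add 25 e)) (fun t _ => Nat.rec ((fun b => (fun XT => aK12 (fun K => lf b 12 K XT w (Nat.shiftRight p 3)) b (xv b XT w 0 1) (xv b XT w 0 2) (xv b XT w 1 2) (xv b XT w 0 3) (xv b XT w 1 3) (xv b XT w 2 3) (xv b XT w 0 4) (xv b XT w 1 4) (xv b XT w 2 4) (xv b XT w 3 4)) (xtab b A)) (Nat.add 27 e)) (fun t _ => Nat.rec ((fun b => (fun XT => aK14 (fun K => lf b 14 K XT w (Nat.shiftRight p 3)) b (xv b XT w 0 1) (xv b XT w 0 2) (xv b XT w 1 2) (xv b XT w 0 3) (xv b XT w 1 3) (xv b XT w 2 3) (xv b XT w 0 4) (xv b XT w 1 4) (xv b XT w 2 4) (xv b XT w 3 4)) (xtab b A)) (Nat.add 29 e)) (fun t _ => Nat.rec ((fun b => (fun XT => aK18 (fun K => lf b 18 K XT w (Nat.shiftRight p 3)) b (xv b XT w 0 1) (xv b XT w 0 2) (xv b XT w 1 2) (xv b XT w 0 3) (xv b XT w 1 3) (xv b XT w 2 3) (xv b XT w 0 4) (xv b XT w 1 4) (xv b XT w 2 4) (xv b XT w 3 4)) (xtab b A)) (Nat.add 33 e)) (fun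 t _ => Nat.rec ((fun b => (fun XT => aK24 (fun K => lf b 24 K XT w (Nat.shiftRight p 3)) b (xv b XT w 0 1) (xv b XT w 0 2) (xv b XT w 1 2) (xv b XT w 0 3) (xv b XT w 1 3) (xv b XT w 2 3) (xv b XT w 0 4) (xv b XT w 1 4) (xv b XT w 2 4) (xv b XT w 3 4)) (xtab b A)) (Nat.add 39 e)) (fun _ _ => (ls (Nat.add 39 e) 24 (xtab (Nat.add 39 e) A) w (Nat.shiftRight p 3))) t) t) t) t) t) t) (Nat.land p 7))

/-- the matrix of the full chain: colour `d` is the sum of the variables `0, …, d` -/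
def stA : Nat := 68169789633

/-- certificate for the full chain; the mode is in the lowest three bits -/
noncomputable def lTot (K6 K8 K12 K24 : Nat → Nat) (w p : Nat) : Bool :=
  Nat.rec (lg 29 6 K6 (xtab 29 stA) w (Nat.shiftRight p 3))
    (fun t _ => Nat.rec (lg 31 8 K8 (xtab 31 stA) w (Nat.shiftRight p 3)) (fun t _ => Nat.rec (lg 35 12 K12 (xtab 35 stA) w (Nat.shiftRight p 3)) (fun t _ => Nat.rec (lg 47 24 K24 (xtab 47 stA) w (Nat.shiftRight p 3)) (fun _ _ => (ls 47 24 (xtab 47 stA) w (Nat.shiftRight p 3))) t) t) t) (Nat.land p 7)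

/-- provide the six point data of the table `w` (full chain) for all modes -/
noncomputable def withT (w : Nat) (k : (Nat → Nat) → (Nat → Nat) → (Nat → Nat) → (Nat → Nat) → Bool) : Bool :=
  isZ (Nat.mul (full5 w) (full6 w)) false
    (tM6 (fun K6 =>
    tM8 (fun K8 =>
    tM12 (fun K12 =>
    tM24 (fun K24 =>
    k K6 K8 K12 K24) 47 (xv 47 (xtab 47 stA) w 0 1) (xv 47 (xtab 47 stA) w 0 2) (xv 47 (xtab 47 stA) w 1 2) (xv 47 (xtab 47 stA) w 0 3) (xv 47 (xtab 47 stA) w 1 3) (xv 47 (xtab 47 stA) w 2 3) (xv 47 (xtab 47 stA) w 0 4) (xv 47 (xtab 47 stA) w 1 4) (xv 47 (xtab 47 stA) w 2 4) (xv 47 (xtab 47 stA) w 3 4) (xv 47 (xtab 47 stA) w 0 5) (xv 47 (xtab 47 stA) w 1 5) (xv 47 (xtab 47 stA) w 2 5) (xv 47 (xtab 47 stA) w 3 5) (xv 47 (xtab 47 stA) w 4 5)) 35 (xv 35 (xtab 35 stA) w 0 1) (xv 35 (xtab 35 stA) w 0 2) (xv 35 (xtab 35 stA) w 1 2) (xv 35 (xtab 35 stA) w 0 3) (xv 35 (xtab 35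 stA) w 1 3) (xv 35 (xtab 35 stA) w 2 3) (xv 35 (xtab 35 stA) w 0 4) (xv 35 (xtab 35 stA) w 1 4) (xv 35 (xtab 35 stA) w 2 4) (xv 35 (xtab 35 stA) w 3 4) (xv 35 (xtab 35 stA) w 0 5) (xv 35 (xtab 35 stA) w 1 5) (xv 35 (xtab 35 stA) w 2 5) (xv 35 (xtab 35 stA) w 3 5) (xv 35 (xtab 35 stA) w 4 5)) 31 (xv 31 (xtab 31 stA) w 0 1) (xv 31 (xtab 31 stA) w 0 2) (xv 31 (xtab 31 stA) w 1 2) (xv 31 (xtab 31 stA) w 0 3) (xv 31 (xtab 31 stA) w 1 3) (xv 31 (xtab 31 stA) w 2 3) (xv 31 (xtab 31 stA) w 0 4) (xv 31 (xtab 31 stA) w 1 4) (xv 31 (xtab 31 stA) w 2 4) (xv 31 (xtab 31 stA) w 3 4) (xv 31 (xtab 31 stA) w 0 5) (xv 31 (xtab 31 stA) w 1 5) (xv 31 (xtab 31 stA) w 2 5) (xv 31 (xtab 31 stA) w 3 5) (xv 31 (xtab 31 stA) w 4 5)) 29 (xv 29 (xtab 29 stA) w 0 1) (xv 29 (xtab 29 stA) w 0 2) (xv 29 (xtab 29 stA) w 1 2) (xv 29 (xtab 29 stA) w 0 3) (xv 29 (xtab 29 stA) w 1 3) (xv 29 (xtab 29 stA) w 2 3)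 (xv 29 (xtab 29 stA) w 0 4) (xv 29 (xtab 29 stA) w 1 4) (xv 29 (xtab 29 stA) w 2 4) (xv 29 (xtab 29 stA) w 3 4) (xv 29 (xtab 29 stA) w 0 5) (xv 29 (xtab 29 stA) w 1 5) (xv 29 (xtab 29 stA) w 2 5) (xv 29 (xtab 29 stA) w 3 5) (xv 29 (xtab 29 stA) w 4 5))

end Pool.Agent.Lib.EPS9
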