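import Pool.Agent.Lib.MP_c7e7f6_eps.Core

/-!
The check of sparse degree three certificates in seven variables, without order information:
the code `c` (from 1 to 7) has the value of the variable number `c - 1`. Weights of the variables:
0, 1, 7, 50, 59, 78, 82 (sums of three weights are different and below 247).
-/

set_option autoImplicit false
set_option linter.unusedVariables false

namespace Pool.Agent.Lib.EPS9

/-- `b` times the weight of variable `k` -/
def kwn7 (b k : Nat) : Nat := Nat.mul b (Nat.land (Nat.shiftRight 363335816167552 (Nat.mul 7 k)) 127)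

/-- packed table of the values of the codes 1, …, 7 -/
def xtab7 (b : Nat) : Nat :=
  Nat.add (Nat.add (Nat.add (Nat.pow 2 (Nat.add (Nat.mul (Nat.mul 83 b) 1) (kwn7 b 0)))
      (Nat.pow 2 (Nat.add (Nat.mul (Nat.mul 83 b) 2) (kwn7 b 1))))
    (Nat.add (Nat.pow 2 (Nat.add (Nat.mul (Nat.mul 83 b) 3) (kwn7 b 2)))
      (Nat.pow 2 (Nat.add (Nat.mul (Nat.mul 83 b) 4) (kwn7 b 3)))))
    (Nat.add (Nat.add (Nat.pow 2 (Nat.add (Nat.mul (Nat.mul 83 b) 5) (kwn7 b 4)))
      (Nat.pow 2 (Nat.add (Nat.mul (Nat.mul 83 b) 6) (kwn7 b 5))))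
      (Nat.pow 2 (Nat.add (Nat.mul (Nat.mul 83 b) 7) (kwn7 b 6))))

/-- the top bits of all digits -/
def topm7 (b : Nat) : Nat :=
  Nat.mul (Nat.pow 2 (Nat.sub b 1))
    (Nat.div (Nat.sub (Nat.pow 2 (Nat.mul 247 b)) 1) (Nat.sub (Nat.pow 2 b) 1))

/-- final test: all coefficients nonnegative, and not all zero unless `st` is positive -/
noncomputable def lpFin7 (b st acc : Nat) : Bool :=
  isZ (Nat.land acc (topm7 b))
    (isZ st (isZ (Nat.land acc (Nat.sub (Nat.pow 2 (Nat.mul 247 b)) 1)) false true) true) false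

/-- add the equations of the certificate -/
noncomputable def othLoop7 (b u mu N M N2 XT W MW w st : Nat) (n : Nat) : Nat → Nat → Bool :=
  Nat.rec (fun _ acc => lpFin7 b st acc)
    (fun _ ih data acc =>
      othV (Nat.land data 3) N M N2 XT W MW w
        (kwn7 b (Nat.land (Nat.shiftRight data 3) 7)) (kwn7 b (Nat.land (Nat.shiftRight data 6) 7))
        (Nat.land (Nat.shiftRight data 9) 15)
        (Nat.land (Nat.shiftRight data 13) 15) (Nat.land (Nat.shiftRight data 17) 15)
        (Nat.land (Nat.shiftRight data 21) 15) (Nat.land (Nat.shiftRight data 25) 15)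
        (Nat.land (Nat.shiftRight data 29) 15) (Nat.land (Nat.shiftRight data 33) 15)
        (fun p q s => ih (Nat.shiftRight data (Nat.add 37 u)) (Nat.add acc
          (Nat.shiftLeft (Nat.mul (Nat.add 1 (Nat.land (Nat.shiftRight data 37) mu))
            (isZn (Nat.land (Nat.shiftRight data 2) 1)
              (Nat.add p (Nat.sub (Nat.mul 4 N2) q)) (Nat.add q (Nat.sub (Nat.mul 4 N2) p)))) s)))) n

/-- add the triangle terms, then the equations -/
noncomputable def triLoop7 (b u mu N M N2 XT W MW w st no : Nat) (n : Nat) : Nat → Nat → Bool :=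
  Nat.rec (fun data acc => othLoop7 b u mu N M N2 XT W MW w st no data acc)
    (fun _ ih data acc =>
      (fun cij cik cjk => isZ (Nat.mul (Nat.mul cij cik) cjk) false
        ((fun p q r => ih (Nat.shiftRight data (Nat.add 15 u)) (Nat.add acc
          (Nat.shiftLeft (Nat.mul (Nat.add 1 (Nat.land (Nat.shiftRight data 15) mu))
            (Nat.add (Nat.add (Nat.add (Nat.mul p p) (Nat.mul q q)) (Nat.mul r r))
              (Nat.sub N2 (Nat.mul 2 (Nat.add (Nat.mul p (Nat.add q r)) (Nat.mul q r))))))
            (kwn7 b (Nat.land (Nat.shiftRight data 12) 7)))))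
          (xc XT W MW cij) (xc XT W MW cik) (xc XT W MW cjk)))
      (cl w (Nat.land data 15) (Nat.land (Nat.shiftRight data 4) 15))
      (cl w (Nat.land data 15) (Nat.land (Nat.shiftRight data 8) 15))
      (cl w (Nat.land (Nat.shiftRight data 4) 15) (Nat.land (Nat.shiftRight data 8) 15))) n

/-- sparse certificate in seven variables for the table `w`: 8 bits number of triangle terms,
8 bits number of equations, the triangle terms, the equations; 24 bits for each coefficient -/
noncomputable def ls7 (w p : Nat) : Bool :=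
  triLoop7 42 24 16777215 (Nat.pow 2 (Nat.mul 247 42)) (Nat.sub (Nat.pow 2 (Nat.mul 247 42)) 1)
    (Nat.pow 2 (Nat.mul 494 42)) (xtab7 42) (Nat.mul 83 42)
    (Nat.sub (Nat.pow 2 (Nat.mul 83 42)) 1) w
    (Nat.land p 255) (Nat.land (Nat.shiftRight p 8) 255) (Nat.land p 255) (Nat.shiftRight p 16) 0

end Pool.Agent.Lib.EPS9
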