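import Pool.Agent.Lib.MP_c7e7f6_eps.Core2
import Pool.Agent.Lib.MP_c7e7f6_eps.Core7

/-!
Functions on natural numbers evaluated by the kernel: extension of colourings of six points to
nine points.
-/

set_option autoImplicit false
set_option linter.unusedVariables false

namespace Pool.Agent.Lib.EPS9

open Tr

/-! ### Table of the colourings of five points -/

/-- search tree. Keys: colouring of the pairs of five points (ten codes); lists: entries of 30 bits,
namely 15 bits for the five codes of a sixth point, 14 bits for the number of the word, a top bit -/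
inductive Kt
  | e : Kt
  | n : Nat → Nat → Kt → Kt → Kt

/-- the list of the key `K`, zero if absent -/
noncomputable def Kt.lk (t : Kt) (K : Nat) : Nat :=
  Kt.rec (motive := fun _ => Nat) 0
    (fun K' L _ _ hl hr => brnN (Nat.beq K K') L (brnN (Nat.ble K K') hl hr)) t

/-- the codes at the next positions of `q`, packed -/
noncomputable def rwd (w fuel : Nat) : Nat → Nat → Nat → Nat :=
  Nat.rec (fun _ _ acc => acc)
    (fun _ ih q t acc => ih (Nat.shiftRight q 9) (Nat.add t 3)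
      (Nat.add acc (Nat.shiftLeft (at9 w q) t))) fuel

/-- the ten codes of the first five points, permuted -/
noncomputable def w10 (w q : Nat) : Nat := rwd w 10 q 0 0

/-- the five codes of the last point, permuted -/
noncomputable def w5 (w q : Nat) : Nat := rwd w 5 (Nat.shiftRight q 90) 0 0

/-- `x` is an entry of the list -/
noncomputable def memL (x fuel : Nat) : Nat → Bool :=
  Nat.rec (fun _ => false)
    (fun _ ih L => isZ L false
      (brn (Nat.beq (Nat.land L (msk 30)) x) true (ih (Nat.shiftRight L 30)))) fuel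

/-- the word number `j` with table `w`, relabelled by the permutation number `p` which maps 5 to
`a`, is in the table -/
noncomputable def e1a (T : Kt) (w j a p : Nat) : Bool :=
  (fun q => cnd (Nat.beq (Nat.land (Nat.shiftRight q 90) 15) (Nat.mul 3 a))
    (memL (Nat.add (w5 w q) (Nat.add (Nat.mul 32768 j) 536870912)) 64 (T.lk (w10 w q)))) (pw p)

/-- the table of the word number `j` -/
noncomputable def wT (RW j : Nat) : Nat :=
  wOf 15 0 (Nat.land (Nat.shiftRight RW (Nat.mul 45 j)) (msk 45)) 0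

/-- for the words from number `j` on, six permutations (10 bits each) which map 5 to 0, …, 5 -/
noncomputable def e1 (T : Kt) (RW fuel : Nat) : Nat → Nat → Bool :=
  Nat.rec (fun _ _ => true)
    (fun _ ih j P => cnd
      ((fun w => cnd (e1a T w j 0 (Nat.land P 1023))
        (cnd (e1a T w j 1 (Nat.land (Nat.shiftRight P 10) 1023))
        (cnd (e1a T w j 2 (Nat.land (Nat.shiftRight P 20) 1023))
        (cnd (e1a T w j 3 (Nat.land (Nat.shiftRight P 30) 1023))
        (cnd (e1a T w j 4 (Nat.land (Nat.shiftRight P 40) 1023))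
          (e1a T w j 5 (Nat.land (Nat.shiftRight P 50) 1023))))))) (wT RW j))
      (ih (Nat.add j 1) (Nat.shiftRight P 60))) fuel

/-- the first entry of `R` with its codes permuted -/
def prm (p R : Nat) : Nat :=
  (Nat.add (Nat.add (Nat.land (Nat.shiftRight R (Nat.land p 15)) 7) (Nat.add (Nat.shiftLeft (Nat.land (Nat.shiftRight R (Nat.land (Nat.shiftRight p 4) 15)) 7) 3) (Nat.shiftLeft (Nat.land (Nat.shiftRight R (Nat.land (Nat.shiftRight p 8) 15)) 7) 6))) (Nat.add (Nat.shiftLeft (Nat.land (Nat.shiftRight R (Nat.land (Nat.shiftRight p 12) 15)) 7) 9) (Nat.add (Nat.shiftLeft (Nat.land (Nat.shiftRight R (Nat.land (Nat.shiftRight p 16) 15)) 7) 12) (Nat.shiftLeft (Nat.land (Nat.shiftRight R 15) 32767) 15))))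

/-- the permuted entries are in the list `L` -/
noncomputable def clo (L p fuel : Nat) : Nat → Bool :=
  Nat.rec (fun _ => false)
    (fun _ ih R => isZ R true (cnd (memL (prm p R) 64 L) (ih (Nat.shiftRight R 30)))) fuel

/-- all relabelings of five points as a tree: inner nodes (even): twice the shift of the permuted
pair; leaves (odd): twice the shifts of the five permuted codes (4 bits each) plus one -/
def T5 : Tr := (n 0 (n 6 (n 12 (n 18 (n 24 (n 30 (n 36 (n 42 (n 48 (n 54 (n 1649761 z z) z) z) z) z) z) z) (n 36 (n 42 (n 48 (n 18 (n 24 (n 30 (n 54 (n 1281121 z z) z) z) z) z) z) z) z)) z) (n 18 (n 24 (n 6 (n 12 (n 30 (n 36 (n 42 (n 54 (n 48 (n 1626721 z z) z) z) z) z) z) z) (n 36 (n 42 (n 54 (n 6 (n 12 (n 30 (n 48 (n 889441 z z) z) z) z) z) z) z) z)) z) (n 36 (n 42 (n 6 (n 12 (n 48 (n 18 (n 24 (n 54 (n 30 (n 1235041 z z) z) z) z) z) z) z) (n 18 (n 24 (n 54 (n 6 (n 12 (n 48 (n 30 (n 866401 z z) z) z) z) z) z) z) z)) z) z))) (n 6 (n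 0 (n 12 (n 18 (n 30 (n 24 (n 36 (n 48 (n 42 (n 54 (n 1648321 z z) z) z) z) z) z) z) (n 36 (n 48 (n 42 (n 18 (n 30 (n 24 (n 54 (n 1279681 z z) z) z) z) z) z) z) z)) z) (n 18 (n 30 (n 0 (n 12 (n 24 (n 36 (n 48 (n 54 (n 42 (n 1602241 z z) z) z) z) z) z) z) (n 36 (n 48 (n 54 (n 0 (n 12 (n 24 (n 42 (n 496321 z z) z) z) z) z) z) z) z)) z) (n 36 (n 48 (n 0 (n 12 (n 42 (n 18 (n 30 (n 54 (n 24 (n 1210561 z z) z) z) z) z) z) z) (n 18 (n 30 (n 54 (n 0 (n 12 (n 42 (n 24 (n 473281 z z) z) z) z) z) z) z) z)) z) z))) (n 18 (n 0 (n 24 (n 6 (n 30 (n 12 (n 36 (n 54 (n 42 (n 48 (n 1623841 z z) z) z) z) z) z) z) (n 36 (n 54 (n 42 (n 6 (n 30 (n 12 (n 48 (n 886561 z z) z) z) z) z) z) z) z)) z) (n 6 (n 30 (n 0 (n 24 (n 12 (n 36 (n 54 (n 48 (n 42 (n 1600801 z z) z) z) z) z) z) z) (n 36 (n 54 (n 48 (n 0 (n 24 (n 12 (n 42 (n 494881 z z) z) z) z) z) z) z) z)) z) (n 36 (n 54 (n 0 (n 24 (n 42 (n 6 (n 30 (n 48 (n 12 (n 817441 z z) z) z) z) z) z) z) (n 6 (n 30 (n 48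 (n 0 (n 24 (n 42 (n 12 (n 448801 z z) z) z) z) z) z) z) z)) z) z))) (n 36 (n 0 (n 42 (n 6 (n 48 (n 12 (n 18 (n 54 (n 24 (n 30 (n 1230721 z z) z) z) z) z) z) z) (n 18 (n 54 (n 24 (n 6 (n 48 (n 12 (n 30 (n 862081 z z) z) z) z) z) z) z) z)) z) (n 6 (n 48 (n 0 (n 42 (n 12 (n 18 (n 54 (n 30 (n 24 (n 1207681 z z) z) z) z) z) z) z) (n 18 (n 54 (n 30 (n 0 (n 42 (n 12 (n 24 (n 470401 z z) z) z) z) z) z) z) z)) z) (n 18 (n 54 (n 0 (n 42 (n 24 (n 6 (n 48 (n 30 (n 12 (n 816001 z z) z) z) z) z) z) z) (n 6 (n 48 (n 30 (n 0 (n 42 (n 24 (n 12 (n 447361 z z) z) z) z) z) z) z) z)) z) z))) (n 0 (n 12 (n 6 (n 24 (n 18 (n 30 (n 42 (n 36 (n 48 (n 54 (n 1649671 z z) z) z) z) z) z) z) (n 42 (n 36 (n 48 (n 24 (n 18 (n 30 (n 54 (n 1281031 z z) z) z) z) z) z) z) z)) z) (n 24 (n 18 (n 12 (n 6 (n 30 (n 42 (n 36 (n 54 (n 48 (n 1626631 z z) z) z) z) z) z) z) (n 42 (n 36 (n 54 (n 12 (n 6 (n 30 (n 48 (n 889351 z z) z) z) z) z) z) z) z)) z) (n 42 (n 36 (n 12 (n 6 (n 48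 (n 24 (n 18 (n 54 (n 30 (n 1234951 z z) z) z) z) z) z) z) (n 24 (n 18 (n 54 (n 12 (n 6 (n 48 (n 30 (n 866311 z z) z) z) z) z) z) z) z)) z) z))) (n 12 (n 0 (n 6 (n 24 (n 30 (n 18 (n 42 (n 48 (n 36 (n 54 (n 1646791 z z) z) z) z) z) z) z) (n 42 (n 48 (n 36 (n 24 (n 30 (n 18 (n 54 (n 1278151 z z) z) z) z) z) z) z) z)) z) (n 24 (n 30 (n 0 (n 6 (n 18 (n 42 (n 48 (n 54 (n 36 (n 1577671 z z) z) z) z) z) z) z) (n 42 (n 48 (n 54 (n 0 (n 6 (n 18 (n 36 (n 103111 z z) z) z) z) z) z) z) z)) z) (n 42 (n 48 (n 0 (n 6 (n 36 (n 24 (n 30 (n 54 (n 18 (n 1185991 z z) z) z) z) z) z) z) (n 24 (n 30 (n 54 (n 0 (n 6 (n 36 (n 18 (n 80071 z z) z) z) z) z) z) z) z)) z) z))) (n 24 (n 0 (n 18 (n 12 (n 30 (n 6 (n 42 (n 54 (n 36 (n 48 (n 1622311 z z) z) z) z) z) z) z) (n 42 (n 54 (n 36 (n 12 (n 30 (n 6 (n 48 (n 885031 z z) z) z) z) z) z) z) z)) z) (n 12 (n 30 (n 0 (n 18 (n 6 (n 42 (n 54 (n 48 (n 36 (n 1576231 z z) z) z) z) z) z) z) (n 42 (n 54 (n 48 (n 0 (n 18 (n 6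 (n 36 (n 101671 z z) z) z) z) z) z) z) z)) z) (n 42 (n 54 (n 0 (n 18 (n 36 (n 12 (n 30 (n 48 (n 6 (n 792871 z z) z) z) z) z) z) z) (n 12 (n 30 (n 48 (n 0 (n 18 (n 36 (n 6 (n 55591 z z) z) z) z) z) z) z) z)) z) z))) (n 42 (n 0 (n 36 (n 12 (n 48 (n 6 (n 24 (n 54 (n 18 (n 30 (n 1229191 z z) z) z) z) z) z) z) (n 24 (n 54 (n 18 (n 12 (n 48 (n 6 (n 30 (n 860551 z z) z) z) z) z) z) z) z)) z) (n 12 (n 48 (n 0 (n 36 (n 6 (n 24 (n 54 (n 30 (n 18 (n 1183111 z z) z) z) z) z) z) z) (n 24 (n 54 (n 30 (n 0 (n 36 (n 6 (n 18 (n 77191 z z) z) z) z) z) z) z) z)) z) (n 24 (n 54 (n 0 (n 36 (n 18 (n 12 (n 48 (n 30 (n 6 (n 791431 z z) z) z) z) z) z) z) (n 12 (n 48 (n 30 (n 0 (n 36 (n 18 (n 6 (n 54151 z z) z) z) z) z) z) z) z)) z) z))) (n 6 (n 12 (n 0 (n 30 (n 18 (n 24 (n 48 (n 36 (n 42 (n 54 (n 1648141 z z) z) z) z) z) z) z) (n 48 (n 36 (n 42 (n 30 (n 18 (n 24 (n 54 (n 1279501 z z) z) z) z) z) z) z) z)) z) (n 30 (n 18 (n 12 (n 0 (n 24 (n 48 (n 36 (n 54 (n 42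 (n 1602061 z z) z) z) z) z) z) z) (n 48 (n 36 (n 54 (n 12 (n 0 (n 24 (n 42 (n 496141 z z) z) z) z) z) z) z) z)) z) (n 48 (n 36 (n 12 (n 0 (n 42 (n 30 (n 18 (n 54 (n 24 (n 1210381 z z) z) z) z) z) z) z) (n 30 (n 18 (n 54 (n 12 (n 0 (n 42 (n 24 (n 473101 z z) z) z) z) z) z) z) z)) z) z))) (n 12 (n 6 (n 0 (n 30 (n 24 (n 18 (n 48 (n 42 (n 36 (n 54 (n 1646701 z z) z) z) z) z) z) z) (n 48 (n 42 (n 36 (n 30 (n 24 (n 18 (n 54 (n 1278061 z z) z) z) z) z) z) z) z)) z) (n 30 (n 24 (n 6 (n 0 (n 18 (n 48 (n 42 (n 54 (n 36 (n 1577581 z z) z) z) z) z) z) z) (n 48 (n 42 (n 54 (n 6 (n 0 (n 18 (n 36 (n 103021 z z) z) z) z) z) z) z) z)) z) (n 48 (n 42 (n 6 (n 0 (n 36 (n 30 (n 24 (n 54 (n 18 (n 1185901 z z) z) z) z) z) z) z) (n 30 (n 24 (n 54 (n 6 (n 0 (n 36 (n 18 (n 79981 z z) z) z) z) z) z) z) z)) z) z))) (n 30 (n 6 (n 18 (n 12 (n 24 (n 0 (n 48 (n 54 (n 36 (n 42 (n 1597741 z z) z) z) z) z) z) z) (n 48 (n 54 (n 36 (n 12 (n 24 (n 0 (n 42 (n 491821 z z) z)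 z) z) z) z) z) z)) z) (n 12 (n 24 (n 6 (n 18 (n 0 (n 48 (n 54 (n 42 (n 36 (n 1574701 z z) z) z) z) z) z) z) (n 48 (n 54 (n 42 (n 6 (n 18 (n 0 (n 36 (n 100141 z z) z) z) z) z) z) z) z)) z) (n 48 (n 54 (n 6 (n 18 (n 36 (n 12 (n 24 (n 42 (n 0 (n 399661 z z) z) z) z) z) z) z) (n 12 (n 24 (n 42 (n 6 (n 18 (n 36 (n 0 (n 31021 z z) z) z) z) z) z) z) z)) z) z))) (n 48 (n 6 (n 36 (n 12 (n 42 (n 0 (n 30 (n 54 (n 18 (n 24 (n 1204621 z z) z) z) z) z) z) z) (n 30 (n 54 (n 18 (n 12 (n 42 (n 0 (n 24 (n 467341 z z) z) z) z) z) z) z) z)) z) (n 12 (n 42 (n 6 (n 36 (n 0 (n 30 (n 54 (n 24 (n 18 (n 1181581 z z) z) z) z) z) z) z) (n 30 (n 54 (n 24 (n 6 (n 36 (n 0 (n 18 (n 75661 z z) z) z) z) z) z) z) z)) z) (n 30 (n 54 (n 6 (n 36 (n 18 (n 12 (n 42 (n 24 (n 0 (n 398221 z z) z) z) z) z) z) z) (n 12 (n 42 (n 24 (n 6 (n 36 (n 18 (n 0 (n 29581 z z) z) z) z) z) z) z) z)) z) z))) (n 18 (n 24 (n 0 (n 30 (n 6 (n 12 (n 54 (n 36 (n 42 (n 48 (n 1623571 z z) z) z) z) z)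 z) z) (n 54 (n 36 (n 42 (n 30 (n 6 (n 12 (n 48 (n 886291 z z) z) z) z) z) z) z) z)) z) (n 30 (n 6 (n 24 (n 0 (n 12 (n 54 (n 36 (n 48 (n 42 (n 1600531 z z) z) z) z) z) z) z) (n 54 (n 36 (n 48 (n 24 (n 0 (n 12 (n 42 (n 494611 z z) z) z) z) z) z) z) z)) z) (n 54 (n 36 (n 24 (n 0 (n 42 (n 30 (n 6 (n 48 (n 12 (n 817171 z z) z) z) z) z) z) z) (n 30 (n 6 (n 48 (n 24 (n 0 (n 42 (n 12 (n 448531 z z) z) z) z) z) z) z) z)) z) z))) (n 24 (n 18 (n 0 (n 30 (n 12 (n 6 (n 54 (n 42 (n 36 (n 48 (n 1622131 z z) z) z) z) z) z) z) (n 54 (n 42 (n 36 (n 30 (n 12 (n 6 (n 48 (n 884851 z z) z) z) z) z) z) z) z)) z) (n 30 (n 12 (n 18 (n 0 (n 6 (n 54 (n 42 (n 48 (n 36 (n 1576051 z z) z) z) z) z) z) z) (n 54 (n 42 (n 48 (n 18 (n 0 (n 6 (n 36 (n 101491 z z) z) z) z) z) z) z) z)) z) (n 54 (n 42 (n 18 (n 0 (n 36 (n 30 (n 12 (n 48 (n 6 (n 792691 z z) z) z) z) z) z) z) (n 30 (n 12 (n 48 (n 18 (n 0 (n 36 (n 6 (n 55411 z z) z) z) z) z) z) z) z)) z) z))) (n 30 (n 18 (n 6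 (n 24 (n 12 (n 0 (n 54 (n 48 (n 36 (n 42 (n 1597651 z z) z) z) z) z) z) z) (n 54 (n 48 (n 36 (n 24 (n 12 (n 0 (n 42 (n 491731 z z) z) z) z) z) z) z) z)) z) (n 24 (n 12 (n 18 (n 6 (n 0 (n 54 (n 48 (n 42 (n 36 (n 1574611 z z) z) z) z) z) z) z) (n 54 (n 48 (n 42 (n 18 (n 6 (n 0 (n 36 (n 100051 z z) z) z) z) z) z) z) z)) z) (n 54 (n 48 (n 18 (n 6 (n 36 (n 24 (n 12 (n 42 (n 0 (n 399571 z z) z) z) z) z) z) z) (n 24 (n 12 (n 42 (n 18 (n 6 (n 36 (n 0 (n 30931 z z) z) z) z) z) z) z) z)) z) z))) (n 54 (n 18 (n 36 (n 24 (n 42 (n 0 (n 30 (n 48 (n 6 (n 12 (n 811411 z z) z) z) z) z) z) z) (n 30 (n 48 (n 6 (n 24 (n 42 (n 0 (n 12 (n 442771 z z) z) z) z) z) z) z) z)) z) (n 24 (n 42 (n 18 (n 36 (n 0 (n 30 (n 48 (n 12 (n 6 (n 788371 z z) z) z) z) z) z) z) (n 30 (n 48 (n 12 (n 18 (n 36 (n 0 (n 6 (n 51091 z z) z) z) z) z) z) z) z)) z) (n 30 (n 48 (n 18 (n 36 (n 6 (n 24 (n 42 (n 12 (n 0 (n 396691 z z) z) z) z) z) z) z) (n 24 (n 42 (n 12 (n 18 (n 36 (n 6 (n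 0 (n 28051 z z) z) z) z) z) z) z) z)) z) z))) (n 36 (n 42 (n 0 (n 48 (n 6 (n 12 (n 54 (n 18 (n 24 (n 30 (n 1230361 z z) z) z) z) z) z) z) (n 54 (n 18 (n 24 (n 48 (n 6 (n 12 (n 30 (n 861721 z z) z) z) z) z) z) z) z)) z) (n 48 (n 6 (n 42 (n 0 (n 12 (n 54 (n 18 (n 30 (n 24 (n 1207321 z z) z) z) z) z) z) z) (n 54 (n 18 (n 30 (n 42 (n 0 (n 12 (n 24 (n 470041 z z) z) z) z) z) z) z) z)) z) (n 54 (n 18 (n 42 (n 0 (n 24 (n 48 (n 6 (n 30 (n 12 (n 815641 z z) z) z) z) z) z) z) (n 48 (n 6 (n 30 (n 42 (n 0 (n 24 (n 12 (n 447001 z z) z) z) z) z) z) z) z)) z) z))) (n 42 (n 36 (n 0 (n 48 (n 12 (n 6 (n 54 (n 24 (n 18 (n 30 (n 1228921 z z) z) z) z) z) z) z) (n 54 (n 24 (n 18 (n 48 (n 12 (n 6 (n 30 (n 860281 z z) z) z) z) z) z) z) z)) z) (n 48 (n 12 (n 36 (n 0 (n 6 (n 54 (n 24 (n 30 (n 18 (n 1182841 z z) z) z) z) z) z) z) (n 54 (n 24 (n 30 (n 36 (n 0 (n 6 (n 18 (n 76921 z z) z) z) z) z) z) z) z)) z) (n 54 (n 24 (n 36 (n 0 (n 18 (n 48 (n 12 (n 30 (n 6 (n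 791161 z z) z) z) z) z) z) z) (n 48 (n 12 (n 30 (n 36 (n 0 (n 18 (n 6 (n 53881 z z) z) z) z) z) z) z) z)) z) z))) (n 48 (n 36 (n 6 (n 42 (n 12 (n 0 (n 54 (n 30 (n 18 (n 24 (n 1204441 z z) z) z) z) z) z) z) (n 54 (n 30 (n 18 (n 42 (n 12 (n 0 (n 24 (n 467161 z z) z) z) z) z) z) z) z)) z) (n 42 (n 12 (n 36 (n 6 (n 0 (n 54 (n 30 (n 24 (n 18 (n 1181401 z z) z) z) z) z) z) z) (n 54 (n 30 (n 24 (n 36 (n 6 (n 0 (n 18 (n 75481 z z) z) z) z) z) z) z) z)) z) (n 54 (n 30 (n 36 (n 6 (n 18 (n 42 (n 12 (n 24 (n 0 (n 398041 z z) z) z) z) z) z) z) (n 42 (n 12 (n 24 (n 36 (n 6 (n 18 (n 0 (n 29401 z z) z) z) z) z) z) z) z)) z) z))) (n 54 (n 36 (n 18 (n 42 (n 24 (n 0 (n 48 (n 30 (n 6 (n 12 (n 811321 z z) z) z) z) z) z) z) (n 48 (n 30 (n 6 (n 42 (n 24 (n 0 (n 12 (n 442681 z z) z) z) z) z) z) z) z)) z) (n 42 (n 24 (n 36 (n 18 (n 0 (n 48 (n 30 (n 12 (n 6 (n 788281 z z) z) z) z) z) z) z) (n 48 (n 30 (n 12 (n 36 (n 18 (n 0 (n 6 (n 51001 z z) z) z) z) z) z) z)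 z)) z) (n 48 (n 30 (n 36 (n 18 (n 6 (n 42 (n 24 (n 12 (n 0 (n 396601 z z) z) z) z) z) z) z) (n 42 (n 24 (n 12 (n 36 (n 18 (n 6 (n 0 (n 27961 z z) z) z) z) z) z) z) z)) z) z))) z))))))))))))))))))))

/-- the key `K` is not larger than its relabelings, and `L` is invariant under those fixing `K` -/
noncomputable def lexT (K L : Nat) (t : Tr) : Nat → Bool :=
  Tr.rec (motive := fun _ => Nat → Bool) (fun _ => true)
    (fun p _ _ hl hr s => cnd
      (isZ (Nat.land p 1)
        ((fun a b => brn (Nat.ble a b) (cnd (Nat.beq a b) (hl (Nat.shiftRight s 3))) true)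
          (Nat.land (Nat.shiftRight K (Nat.shiftRight p 1)) 7) (Nat.land s 7))
        (clo L (Nat.shiftRight p 1) 64 L))
      (hr s)) t

/-- all keys of the tree are minimal and all lists are invariant -/
noncomputable def Kt.ok (t : Kt) : Bool :=
  Kt.rec (motive := fun _ => Bool) true
    (fun K L _ _ hl hr => cnd (lexT K L T5 K) (cnd hl hr)) t

/-! ### Tables -/

/-- the eight codes of `v` at distance 48 -/
def spr (v : Nat) : Nat :=
  (Nat.add (Nat.add (Nat.add (Nat.land v 7) (Nat.shiftLeft (Nat.land (Nat.shiftRight v 3) 7) 48)) (Nat.add (Nat.shiftLeft (Nat.land (Nat.shiftRight v 6) 7) 96) (Nat.shiftLeft (Nat.land (Nat.shiftRight v 9) 7) 144))) (Nat.add (Nat.add (Nat.shiftLeft (Nat.land (Nat.shiftRight v 12) 7) 192) (Nat.shiftLeft (Nat.land (Nat.shiftRight v 15) 7) 240)) (Nat.add (Nat.shiftLeft (Nat.land (Nat.shiftRight v 18) 7) 288) (Nat.shiftLeft (Nat.land (Nat.shiftRight v 21) 7) 336))))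

/-- new point number `n` with codes `v` -/
def addv (w n v : Nat) : Nat :=
  Nat.add (Nat.add w (Nat.shiftLeft (spr v) (Nat.mul 3 n))) (Nat.shiftLeft v (Nat.mul 48 n))

/-- delete the code at `s` -/
def clz (v s : Nat) : Nat := Nat.sub v (Nat.shiftLeft (Nat.land (Nat.shiftRight v s) 7) s)

/-- replace the code at `s` -/
def sez (v s d : Nat) : Nat := Nat.add (clz v s) (Nat.shiftLeft d s)

/-- row number `s / 3` -/
def rowN (w s : Nat) : Nat := Nat.land (Nat.shiftRight w (Nat.mul 16 s)) (msk 48)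

/-- replace the point number `s / 3` by a point with codes `v` -/
def rep (w s v : Nat) : Nat :=
  Nat.add (Nat.add
      (Nat.sub (Nat.sub w (Nat.shiftLeft (rowN w s) (Nat.mul 16 s)))
        (Nat.shiftLeft (spr (rowN w s)) s))
      (Nat.shiftLeft (spr (clz v s)) s))
    (Nat.shiftLeft (clz v s) (Nat.mul 16 s))

/-- codes of an entry, in the labelling given by the positions `q` -/
def vecOf (o q : Nat) : Nat :=
  (Nat.add (Nat.add (Nat.shiftLeft (Nat.land o 7) (Nat.shiftRight (Nat.land q 511) 4)) (Nat.shiftLeft (Nat.land (Nat.shiftRight o 3) 7) (Nat.shiftRight (Nat.land (Nat.shiftRight q 9) 511) 4))) (Nat.add (Nat.shiftLeft (Nat.land (Nat.shiftRight o 6) 7) (Nat.shiftRight (Nat.land (Nat.shiftRight q 18) 511) 4)) (Nat.add (Nat.shiftLeft (Nat.land (Nat.shiftRight o 9) 7) (Nat.shiftRight (Nat.land (Nat.shiftRight q 27) 511) 4)) (Nat.shiftLeft (Nat.land (Nat.shiftRight o 12) 7) (Nat.shiftRight (Nat.land (Nat.shiftRight q 36) 511) 4)))))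

/-- four points at the same distance from a point, or three points with the same distances from two
points -/
noncomputable def smp (w p : Nat) : Bool :=
  (fun a b c d e => isZ (Nat.land p 1)
    (cnd (Nat.ble (Nat.add b 1) c) (cnd (Nat.ble (Nat.add c 1) d) (cnd (Nat.ble (Nat.add d 1) e)
      (isZ (cl w a b) false (cnd (Nat.beq (cl w a b) (cl w a c))
        (cnd (Nat.beq (cl w a b) (cl w a d)) (Nat.beq (cl w a b) (cl w a e))))))))
    (cnd (Nat.ble (Nat.add a 1) b) (cnd (Nat.ble (Nat.add c 1) d) (cnd (Nat.ble (Nat.add d 1) e)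
      (isZ (Nat.mul (Nat.mul (cl w a c) (cl w a d)) (cl w a e)) false
        (cnd (Nat.beq (cl w a c) (cl w b c))
          (cnd (Nat.beq (cl w a d) (cl w b d)) (Nat.beq (cl w a e) (cl w b e)))))))))
    (Nat.land (Nat.shiftRight p 1) 15) (Nat.land (Nat.shiftRight p 5) 15)
    (Nat.land (Nat.shiftRight p 9) 15) (Nat.land (Nat.shiftRight p 13) 15)
    (Nat.land (Nat.shiftRight p 17) 15)

/-- no entry of the list has the codes `v` and a number at least `i` -/
noncomputable def nomL (i q v fuel : Nat) : Nat → Bool :=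
  Nat.rec (fun _ => false)
    (fun _ ih L => isZ L true
      (cnd (brn (Nat.beq (vecOf L q) v)
          (Nat.ble (Nat.add (Nat.land (Nat.shiftRight L 15) 16383) 1) i) true)
        (ih (Nat.shiftRight L 30)))) fuel

/-- a point with codes `v` cannot replace the point number `s / 3` of `w`; permutation number `p` -/
noncomputable def nom (T : Kt) (i w s p v : Nat) : Bool :=
  (fun q => cnd (Nat.beq (Nat.land (Nat.shiftRight q 90) 15) s)
    ((fun L => isZ L false (nomL i (Nat.shiftRight q 90) (clz v s) 64 L)) (T.lk (w10 w q)))) (pw p)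

/-- the same, the replaced point is read off from the permutation -/
noncomputable def nomA (T : Kt) (i w p v : Nat) : Bool :=
  nom T i w (Nat.land (Nat.shiftRight (pw p) 90) 15) p v

/-! ### Multiplicities -/

/-- multiplicities of the eight codes of `v`, 5 bits for each code -/
def cntv (v : Nat) : Nat :=
  (Nat.add (Nat.add (Nat.add (Nat.shiftLeft 1 (Nat.mul 5 (Nat.land v 7))) (Nat.shiftLeft 1 (Nat.mul 5 (Nat.land (Nat.shiftRight v 3) 7)))) (Nat.add (Nat.shiftLeft 1 (Nat.mul 5 (Nat.land (Nat.shiftRight v 6) 7))) (Nat.shiftLeft 1 (Nat.mul 5 (Nat.land (Nat.shiftRight v 9) 7))))) (Nat.add (Nat.add (Nat.shiftLeft 1 (Nat.mul 5 (Nat.land (Nat.shiftRight v 12) 7))) (Nat.shiftLeft 1 (Nat.mul 5 (Nat.land (Nat.shiftRight v 15) 7)))) (Nat.add (Nat.shiftLeft 1 (Nat.mul 5 (Nat.land (Nat.shiftRight v 18) 7))) (Nat.shiftLeft 1 (Nat.mul 5 (Nat.land (Nat.shiftRight v 21) 7))))))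

/-- one more code `d` -/
def cu (d : Nat) : Nat := Nat.shiftLeft 1 (Nat.mul 5 d)

/-- multiplicities of the fifteen codes of a word -/
noncomputable def cntT (s : Nat) : Nat :=
  Nat.sub (Nat.add (cntv (Nat.land s (msk 24))) (cntv (Nat.shiftRight s 24))) 1

/-- sum of the powers of two of the multiplicities of the codes 1, …, 6 -/
def spw (c : Nat) : Nat :=
  (Nat.add (Nat.add (Nat.shiftLeft 1 (Nat.land (Nat.shiftRight c 5) 31)) (Nat.add (Nat.shiftLeft 1 (Nat.land (Nat.shiftRight c 10) 31)) (Nat.shiftLeft 1 (Nat.land (Nat.shiftRight c 15) 31)))) (Nat.add (Nat.shiftLeft 1 (Nat.land (Nat.shiftRight c 20) 31)) (Nat.add (Nat.shiftLeft 1 (Nat.land (Nat.shiftRight c 25) 31)) (Nat.shiftLeft 1 (Nat.land (Nat.shiftRight c 30) 31)))))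

/-- too many large multiplicities: at least `10 - h` multiplicities are at least `h` -/
noncomputable def dom (c h : Nat) : Bool :=
  cnd (Nat.ble h 9) (Nat.ble 10 (Nat.add h (Nat.add (Nat.add (brnN (Nat.ble h (Nat.land (Nat.shiftRight c 5) 31)) 1 0) (Nat.add (brnN (Nat.ble h (Nat.land (Nat.shiftRight c 10) 31)) 1 0) (brnN (Nat.ble h (Nat.land (Nat.shiftRight c 15) 31)) 1 0))) (Nat.add (brnN (Nat.ble h (Nat.land (Nat.shiftRight c 20) 31)) 1 0) (Nat.add (brnN (Nat.ble h (Nat.land (Nat.shiftRight c 25) 31)) 1 0) (brnN (Nat.ble h (Nat.land (Nat.shiftRight c 30) 31)) 1 0))))))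

/-- the colours `d` such that one more `d` gives the multiplicities 3, …, 8 -/
noncomputable def exD (chk : Nat → Nat → Tr → Bool) (c D fuel : Nat) : Nat → Tr → Bool :=
  Nat.rec (fun _ _ => true)
    (fun _ ih d t =>
      brn (Nat.beq (Nat.shiftLeft 1 (Nat.land (Nat.shiftRight c (Nat.mul 5 d)) 31)) D)
        (Tr.rec (motive := fun _ => Bool) false
          (fun p l r _ _ => cnd (chk d p l) (ih (Nat.add d 1) r)) t)
        (ih (Nat.add d 1) t)) fuel

/-! ### The end: the three missing pairs -/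

/-- mask of the pair `(x, y)`, given `3 x` and `y` -/
def mk2 (s y : Nat) : Nat :=
  Nat.add (Nat.shiftLeft 1 (Nat.add (Nat.mul 16 s) (Nat.mul 3 y)))
    (Nat.shiftLeft 1 (Nat.add (Nat.mul 48 y) s))

/-- mode 0: the two pairs `mb` have the new distance; mode 1: the pair `ma` has it -/
noncomputable def fin1 (w ma mb p : Nat) : Bool :=
  (fun w => isZ (Nat.land (Nat.shiftRight p 1) 1) (ls7 w (Nat.shiftRight p 2))
    (smp w (Nat.shiftRight p 2)))
    (Nat.add w (Nat.mul 7 (isZn (Nat.land p 1) mb ma)))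

/-- each of the three missing pairs can be the single one -/
noncomputable def fin9 (w m1 m2 m3 : Nat) (t : Tr) : Bool :=
  Tr.rec (motive := fun _ => Bool) false
    (fun p _ r _ _ => cnd (fin1 w m1 (Nat.add m2 m3) p)
      (Tr.rec (motive := fun _ => Bool) false
        (fun p _ r _ _ => cnd (fin1 w m2 (Nat.add m1 m3) p)
          (Tr.rec (motive := fun _ => Bool) false
            (fun p _ _ _ _ => fin1 w m3 (Nat.add m1 m2) p) r)) r)) t

/-! ### Search A: the three missing pairs are disjoint -/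

/-- alternatives for the point `a`: tags 0 smaller number, 1 certificate, 2 in the list `alts`,
3 forbidden equalities -/
noncomputable def a1L (LT : Nat → Nat → Bool) (i w alts q a : Nat) (t : Tr) : Nat → Bool :=
  Tr.rec (motive := fun _ => Nat → Bool) (fun L => Nat.beq L 0)
    (fun p _ _ _ hr L => isZ L false (cnd
      ((fun v => Nat.rec (Nat.ble (Nat.add (Nat.land (Nat.shiftRight L 15) 16383) 1) i)
          (fun t _ => Nat.rec (LT (addv w 6 v) (Nat.shiftRight p 3))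
          (fun t _ => Nat.rec (Nat.beq
              (Nat.land (Nat.shiftRight alts (Nat.mul 21 (Nat.shiftRight p 3))) (msk 21))
              (Nat.add a (Nat.mul 8 v)))
          (fun _ _ => smp (addv w 6 v) (Nat.shiftRight p 3)) t) t) (Nat.land p 7))
        (vecOf L q))
      (hr (Nat.shiftRight L 30)))) t

/-- one node for each `a`, with the number of a permutation mapping 5 to `a` -/
noncomputable def a1 (T : Kt) (LT : Nat → Nat → Bool) (i w alts : Nat) (t : Tr) : Nat → Bool :=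
  Tr.rec (motive := fun _ => Nat → Bool) (fun a => Nat.beq a 6)
    (fun p l _ _ hr a => cnd
      ((fun q => cnd (Nat.beq (Nat.land (Nat.shiftRight q 90) 15) (Nat.mul 3 a))
        ((fun L => isZ L false (a1L LT i w alts (Nat.shiftRight q 90) a l L)) (T.lk (w10 w q))))
        (pw p))
      (hr (Nat.add a 1))) t

/-- a configuration of nine points; tags 1 certificate, 3 forbidden equalities, 4, 5, 6 a forbidden
replacement, 7 end -/
noncomputable def a9 (T : Kt) (LT : Nat → Nat → Bool) (i w s1 v1 s2 v2 s3 v3 d12 d13 d23 p : Nat)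
    (l : Tr) : Bool :=
  (fun w9 => Nat.rec false
    (fun t _ => Nat.rec (LT w9 (Nat.shiftRight p 3))
    (fun t _ => Nat.rec false
    (fun t _ => Nat.rec (smp w9 (Nat.shiftRight p 3))
    (fun t _ => Nat.rec (nom T i (rep w s1 v1) s3 (Nat.shiftRight p 3) (sez v3 s1 d13))
    (fun t _ => Nat.rec (nom T i (rep w s2 v2) s3 (Nat.shiftRight p 3) (sez v3 s2 d23))
    (fun t _ => Nat.rec (nom T i (rep (rep w s1 v1) s2 (sez v2 s1 d12)) s3 (Nat.shiftRight p 3)
        (sez (sez v3 s1 d13) s2 d23))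
      (fun _ _ => fin9 w9 (mk2 s1 6) (mk2 s2 7) (mk2 s3 8) l) t) t) t) t) t) t) (Nat.land p 7))
    (addv (addv (addv w 6 v1) 7 (Nat.add v2 (Nat.shiftLeft d12 18))) 8
      (Nat.add v3 (Nat.add (Nat.shiftLeft d13 18) (Nat.shiftLeft d23 21))))

/-- one node for each colour `d13` -/
noncomputable def a3d (T : Kt) (LT : Nat → Nat → Bool) (i w s1 v1 s2 v2 s3 v3 d12 c : Nat)
    (t : Tr) : Nat → Bool :=
  Tr.rec (motive := fun _ => Nat → Bool) (fun d => Nat.beq d 7)
    (fun _ l _ _ hr d => cnd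
      ((fun c => exD (fun d23 p l => a9 T LT i w s1 v1 s2 v2 s3 v3 d12 d d23 p l) c
        (Nat.sub 504 (spw c)) 6 1 l) (Nat.add c (cu d)))
      (hr (Nat.add d 1))) t

/-- one node for each third alternative in `R`: tags 0 same point, 1 multiplicities too large,
2 colours -/
noncomputable def a3 (T : Kt) (LT : Nat → Nat → Bool) (i w s1 v1 s2 v2 d12 c : Nat) (t : Tr) :
    Nat → Bool :=
  Tr.rec (motive := fun _ => Nat → Bool) (fun R => Nat.beq R 0)
    (fun p l _ _ hr R => isZ R false (cnd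
      ((fun s3 v3 => Nat.rec (brn (Nat.beq s3 s1) true (Nat.beq s3 s2))
        (fun t _ => (fun c => Nat.rec (Nat.ble 505 (spw c))
          (fun _ _ => a3d T LT i w s1 v1 s2 v2 s3 v3 d12 c l 1) t) (Nat.add c (cntv v3)))
        (Nat.land p 3))
        (Nat.mul 3 (Nat.land R 7)) (Nat.land (Nat.shiftRight R 3) (msk 18)))
      (hr (Nat.shiftRight R 21)))) t

/-- one node for each entry: tags 0 different codes or smaller number, 1 certificate, 2 continue,
3 forbidden equalities -/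
noncomputable def a2L (T : Kt) (LT : Nat → Nat → Bool) (i w s1 v1 s2 v2 c R q : Nat) (t : Tr) :
    Nat → Bool :=
  Tr.rec (motive := fun _ => Nat → Bool) (fun L => Nat.beq L 0)
    (fun p l _ _ hr L => isZ L false (cnd
      ((fun v => (fun d => Nat.rec (brn (Nat.beq (clz v s1) (clz v2 s1))
            (Nat.ble (Nat.add (Nat.land (Nat.shiftRight L 15) 16383) 1) i) true)
          (fun t _ => Nat.rec
            (LT (addv (addv w 6 v1) 7 (Nat.add v2 (Nat.shiftLeft d 18))) (Nat.shiftRight p 3))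
          (fun t _ => Nat.rec (a3 T LT i w s1 v1 s2 v2 d (Nat.add c (cu d)) l R)
          (fun _ _ => smp (addv (addv w 6 v1) 7 (Nat.add v2 (Nat.shiftLeft d 18)))
            (Nat.shiftRight p 3)) t) t) (Nat.land p 7))
        (Nat.land (Nat.shiftRight v s1) 7)) (vecOf L q))
      (hr (Nat.shiftRight L 30)))) t

/-- one node for each second alternative in `R`: even same point, odd permutation -/
noncomputable def a2b (T : Kt) (LT : Nat → Nat → Bool) (i w s1 v1 c : Nat) (t : Tr) : Nat → Bool :=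
  Tr.rec (motive := fun _ => Nat → Bool) (fun R => Nat.beq R 0)
    (fun p l _ _ hr R => isZ R false (cnd
      ((fun s2 v2 => isZ (Nat.land p 1) (Nat.beq s2 s1)
        ((fun q => cnd (Nat.beq (Nat.land (Nat.shiftRight q 90) 15) s2)
          ((fun L => isZ L false (a2L T LT i w s1 v1 s2 v2 (Nat.add c (cntv v2))
              (Nat.shiftRight R 21) (Nat.shiftRight q 90) l L))
            (T.lk (w10 (rep w s1 v1) q)))) (pw (Nat.shiftRight p 1))))
        (Nat.mul 3 (Nat.land R 7)) (Nat.land (Nat.shiftRight R 3) (msk 18)))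
      (hr (Nat.shiftRight R 21)))) t

/-- one node for each first alternative in `R` -/
noncomputable def a2 (T : Kt) (LT : Nat → Nat → Bool) (i w c : Nat) (t : Tr) : Nat → Bool :=
  Tr.rec (motive := fun _ => Nat → Bool) (fun R => Nat.beq R 0)
    (fun _ l _ _ hr R => isZ R false (cnd
      ((fun s1 v1 => a2b T LT i w s1 v1 (Nat.add c (cntv v1)) l (Nat.shiftRight R 21))
        (Nat.mul 3 (Nat.land R 7)) (Nat.land (Nat.shiftRight R 3) (msk 18)))
      (hr (Nat.shiftRight R 21)))) t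

/-! ### Search B: two points cover the three missing pairs -/

/-- one node for each colour: tags 1 certificate, 2 in the list `ks`, 3 forbidden equalities,
4 forbidden replacement -/
noncomputable def b1d (T : Kt) (LT : Nat → Nat → Bool) (i w ks v s : Nat) (t : Tr) : Nat → Bool :=
  Tr.rec (motive := fun _ => Nat → Bool) (fun d => Nat.beq d 7)
    (fun p _ _ _ hr d => cnd
      ((fun v => Nat.rec false
          (fun t _ => Nat.rec (LT (addv w 6 v) (Nat.shiftRight p 3))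
          (fun t _ => Nat.rec
            (Nat.beq (Nat.land (Nat.shiftRight ks (Nat.mul 18 (Nat.shiftRight p 3))) (msk 18)) v)
          (fun t _ => Nat.rec (smp (addv w 6 v) (Nat.shiftRight p 3))
          (fun _ _ => nomA T i w (Nat.shiftRight p 3) v) t) t) t) (Nat.land p 7))
        (Nat.add v (Nat.shiftLeft d s)))
      (hr (Nat.add d 1))) t

/-- seventh point joined to all six points; one node for each entry: even smaller number -/
noncomputable def b1L (T : Kt) (LT : Nat → Nat → Bool) (i w ks q : Nat) (t : Tr) : Nat → Bool :=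
  Tr.rec (motive := fun _ => Nat → Bool) (fun L => Nat.beq L 0)
    (fun p l _ _ hr L => isZ L false (cnd
      (isZ (Nat.land p 1) (Nat.ble (Nat.add (Nat.land (Nat.shiftRight L 15) 16383) 1) i)
        (b1d T LT i w ks (vecOf L q) (Nat.land q 15) l 1))
      (hr (Nat.shiftRight L 30)))) t

noncomputable def b1 (T : Kt) (LT : Nat → Nat → Bool) (i w ks p : Nat) (t : Tr) : Bool :=
  (fun q => (fun L => isZ L false (b1L T LT i w ks (Nat.shiftRight q 90) t L)) (T.lk (w10 w q)))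
    (pw p)

/-- eighth point joined to all seven points, one node for each colour `d` of the last pair:
tags 1 certificate, 3 forbidden equalities, 4 forbidden replacement (3 bits: replaced point), 5
multiplicities -/
noncomputable def b5d (T : Kt) (LT : Nat → Nat → Bool) (i w v u c : Nat) (t : Tr) : Nat → Bool :=
  Tr.rec (motive := fun _ => Nat → Bool) (fun d => Nat.beq d 7)
    (fun p _ _ _ hr d => cnd
      ((fun w8 => Nat.rec false
          (fun t _ => Nat.rec (LT w8 (Nat.shiftRight p 3))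
          (fun t _ => Nat.rec false
          (fun t _ => Nat.rec (smp w8 (Nat.shiftRight p 3))
          (fun t _ => Nat.rec
            ((fun s => cnd (Nat.ble s 15) (nomA T i (rep w s v) (Nat.shiftRight p 6) (sez u s d)))
              (Nat.mul 3 (Nat.land (Nat.shiftRight p 3) 7)))
          (fun _ _ => dom (Nat.add c (cu d)) (Nat.shiftRight p 3)) t) t) t) t) (Nat.land p 7))
        (addv (addv w 6 v) 7 (Nat.add u (Nat.shiftLeft d 18))))
      (hr (Nat.add d 1))) t

noncomputable def b5 (T : Kt) (LT : Nat → Nat → Bool) (i w v c : Nat) (t : Tr) : Nat → Bool :=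
  Tr.rec (motive := fun _ => Nat → Bool) (fun R => Nat.beq R 0)
    (fun _ l _ _ hr R => isZ R false (cnd
      ((fun u => b5d T LT i w v u (Nat.add c (cntv u)) l 1) (Nat.land R (msk 18)))
      (hr (Nat.shiftRight R 18)))) t

/-- codes with respect to the seven points, from codes `z` with respect to the six points without
the point number `p`, whose place is taken by the seventh point -/
noncomputable def tov (p z : Nat) : Nat :=
  brnN (Nat.beq p 6) z (Nat.add (clz z (Nat.mul 3 p))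
    (Nat.shiftLeft (Nat.land (Nat.shiftRight z (Nat.mul 3 p)) 7) 18))

/-- the six points without the point number `p`, whose place is taken by the seventh point -/
noncomputable def tow (p w v : Nat) : Nat := brnN (Nat.beq p 6) w (rep w (Nat.mul 3 p) v)

/-- eighth point not joined to the point number `p`, one node for each colour: tags 1 certificate,
2 in the list `us`, 3 forbidden equalities, 4 forbidden replacement -/
noncomputable def b2d (T : Kt) (LT : Nat → Nat → Bool) (i w7 w6 us p0 z s : Nat) (t : Tr) :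
    Nat → Bool :=
  Tr.rec (motive := fun _ => Nat → Bool) (fun d => Nat.beq d 7)
    (fun p _ _ _ hr d => cnd
      ((fun z => (fun u => Nat.rec false
          (fun t _ => Nat.rec (LT (addv w7 7 u) (Nat.shiftRight p 3))
          (fun t _ => Nat.rec
            (Nat.beq (Nat.land (Nat.shiftRight us (Nat.mul 24 (Nat.shiftRight p 3))) (msk 24))
              (Nat.add p0 (Nat.mul 8 u)))
          (fun t _ => Nat.rec (smp (addv w7 7 u) (Nat.shiftRight p 3))
          (fun _ _ => nomA T i w6 (Nat.shiftRight p 3) z) t) t) t) (Nat.land p 7))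
        (tov p0 z)) (Nat.add z (Nat.shiftLeft d s)))
      (hr (Nat.add d 1))) t

noncomputable def b2L (T : Kt) (LT : Nat → Nat → Bool) (i w7 w6 us p0 q : Nat) (t : Tr) :
    Nat → Bool :=
  Tr.rec (motive := fun _ => Nat → Bool) (fun L => Nat.beq L 0)
    (fun p l _ _ hr L => isZ L false (cnd
      (isZ (Nat.land p 1) (Nat.ble (Nat.add (Nat.land (Nat.shiftRight L 15) 16383) 1) i)
        (b2d T LT i w7 w6 us p0 (vecOf L q) (Nat.land q 15) l 1))
      (hr (Nat.shiftRight L 30)))) t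

/-- one node for each point `p0 = 0, …, 6` -/
noncomputable def b2 (T : Kt) (LT : Nat → Nat → Bool) (i w v us : Nat) (t : Tr) : Nat → Bool :=
  Tr.rec (motive := fun _ => Nat → Bool) (fun p0 => Nat.beq p0 7)
    (fun p l _ _ hr p0 => cnd
      ((fun w6 q => (fun L => isZ L false
          (b2L T LT i (addv w 6 v) w6 us p0 (Nat.shiftRight q 90) l L)) (T.lk (w10 w6 q)))
        (tow p0 w v) (pw p))
      (hr (Nat.add p0 1))) t

/-- the last two points are not joined, and each is not joined to one of the seven points: tags 0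
multiplicities not exact, 1 certificate, 3 forbidden equalities, 7 end -/
noncomputable def b3b (LT : Nat → Nat → Bool) (w7 e1 c : Nat) (t : Tr) : Nat → Bool :=
  Tr.rec (motive := fun _ => Nat → Bool) (fun R => Nat.beq R 0)
    (fun p l _ _ hr R => isZ R false (cnd
      ((fun u2 => (fun w9 => Nat.rec
          (brn (Nat.beq (spw (Nat.add c (cntv u2))) 504) false true)
          (fun t _ => Nat.rec (LT w9 (Nat.shiftRight p 3))
          (fun t _ => Nat.rec false
          (fun t _ => Nat.rec (smp w9 (Nat.shiftRight p 3))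
          (fun _ _ => fin9 w9 (mk2 (Nat.mul 3 (Nat.land e1 7)) 7)
            (mk2 (Nat.mul 3 (Nat.land R 7)) 8) (mk2 21 8) l) t) t) t) (Nat.land p 7))
        (addv (addv w7 7 (Nat.shiftRight e1 3)) 8 u2))
        (Nat.land (Nat.shiftRight R 3) (msk 21)))
      (hr (Nat.shiftRight R 24)))) t

noncomputable def b3 (LT : Nat → Nat → Bool) (w7 c : Nat) (t : Tr) : Nat → Bool :=
  Tr.rec (motive := fun _ => Nat → Bool) (fun R => Nat.beq R 0)
    (fun _ l _ _ hr R => isZ R false (cnd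
      ((fun e1 => b3b LT w7 e1 (Nat.add c (cntv (Nat.shiftRight e1 3))) l R)
        (Nat.land R (msk 24)))
      (hr (Nat.shiftRight R 24)))) t

/-- the point 8 (codes `u1`) is not joined to the points number `x` and `z`, the point 7 (entry of
`us`) is not joined to one point; the points 7 and 8 have the colour `d`: tags 1 certificate,
3 forbidden equalities, 7 end -/
noncomputable def b4u (LT : Nat → Nat → Bool) (w7 x z u1 c : Nat) (t : Tr) : Nat → Bool :=
  Tr.rec (motive := fun _ => Nat → Bool) (fun R => Nat.beq R 0)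
    (fun _ l _ _ hr R => isZ R false (cnd
      ((fun u2 => (fun c => exD (fun d p l => (fun w9 => Nat.rec false
            (fun t _ => Nat.rec (LT w9 (Nat.shiftRight p 3))
            (fun t _ => Nat.rec false
            (fun t _ => Nat.rec (smp w9 (Nat.shiftRight p 3))
            (fun _ _ => fin9 w9 (mk2 (Nat.mul 3 (Nat.land R 7)) 7) (mk2 (Nat.mul 3 x) 8)
              (mk2 (Nat.mul 3 z) 8) l) t) t) t) (Nat.land p 7))
          (addv (addv w7 7 u2) 8 (Nat.add u1 (Nat.shiftLeft d 21)))) c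
          (Nat.sub 504 (spw c)) 6 1 l) (Nat.add c (cntv u2)))
        (Nat.land (Nat.shiftRight R 3) (msk 21)))
      (hr (Nat.shiftRight R 24)))) t

/-- one node for each entry -/
noncomputable def b4L (LT : Nat → Nat → Bool) (w7 x z us c q : Nat) (t : Tr) : Nat → Bool :=
  Tr.rec (motive := fun _ => Nat → Bool) (fun L => Nat.beq L 0)
    (fun _ l _ _ hr L => isZ L false (cnd
      ((fun u1 => b4u LT w7 x z u1 (Nat.add c (cntv u1)) l us) (tov z (vecOf L q)))
      (hr (Nat.shiftRight L 30)))) t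

/-- one node for each pair `x < z` in the order `(0,1), (0,2), (1,2), …, (5,6)` -/
noncomputable def b4 (T : Kt) (LT : Nat → Nat → Bool) (w v us c : Nat) (t : Tr) :
    Nat → Nat → Bool :=
  Tr.rec (motive := fun _ => Nat → Nat → Bool) (fun x z => Nat.beq z 7)
    (fun p l _ _ hr x z => cnd
      ((fun w6 q => cnd (Nat.beq (Nat.land (Nat.shiftRight q 90) 15) (Nat.mul 3 x))
          ((fun L => isZ L false (b4L LT (addv w 6 v) x z us c (Nat.shiftRight q 90) l L))
            (T.lk (w10 w6 q)))) (tow z w v) (pw p))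
      (brn (Nat.ble (Nat.add x 2) z) (hr (Nat.add x 1) z) (hr 0 (Nat.add z 1)))) t

/-- everything about the seventh point `v`; `R` is the part of the list `ks` from `v` on -/
noncomputable def bK (T : Kt) (LT : Nat → Nat → Bool) (i w v R c us : Nat) (t5 t2 t3 t4 : Tr) :
    Bool :=
  cnd (b5 T LT i w v c t5 R) (cnd (b2 T LT i w v us t2 0)
    (cnd (b3 LT (addv w 6 v) c t3 us) (b4 T LT w v us c t4 0 1)))

/-- one node for each seventh point in the list -/
noncomputable def bAll (T : Kt) (LT : Nat → Nat → Bool) (i w c : Nat) (t : Tr) : Nat → Bool :=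
  Tr.rec (motive := fun _ => Nat → Bool) (fun R => Nat.beq R 0)
    (fun us l _ _ hr R => isZ R false (cnd
      (Tr.rec (motive := fun _ => Bool) false
        (fun _ t5 r _ _ => Tr.rec (motive := fun _ => Bool) false
          (fun _ t2 r _ _ => Tr.rec (motive := fun _ => Bool) false
            (fun _ t3 r _ _ => Tr.rec (motive := fun _ => Bool) false
              (fun _ t4 _ _ _ => (fun v => bK T LT i w v R (Nat.add c (cntv v)) us t5 t2 t3 t4)
                (Nat.land R (msk 18))) r) r) r) l)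
      (hr (Nat.shiftRight R 18)))) t

/-! ### All checks for one word -/

noncomputable def chkI (T : Kt) (RW i alts ks pB : Nat) (t1 t2 t3 t4 : Tr) : Bool :=
  (fun w c => withT w (fun K6 K8 K12 K24 => (fun LT =>
      cnd (a1 T LT i w alts t1 0) (cnd (a2 T LT i w c t2 alts)
        (cnd (b1 T LT i w ks pB t3) (bAll T LT i w c t4 ks)))) (lTot K6 K8 K12 K24)))
    (wT RW i) (cntT (Nat.land (Nat.shiftRight RW (Nat.mul 45 i)) (msk 45)))

/-- the words from number `i` up to number `e` (excluded) -/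
noncomputable def chkR (T : Kt) (RW : Nat) (t : Tr) : Nat → Nat → Bool :=
  Tr.rec (motive := fun _ => Nat → Nat → Bool) (fun i e => Nat.beq i e)
    (fun alts l _ _ hr i e => cnd
      (Tr.rec (motive := fun _ => Bool) false
        (fun ks t1 r _ _ => Tr.rec (motive := fun _ => Bool) false
          (fun pB t2 r _ _ => Tr.rec (motive := fun _ => Bool) false
            (fun _ t3 r _ _ => Tr.rec (motive := fun _ => Bool) false
              (fun _ t4 _ _ _ => chkI T RW i alts ks pB t1 t2 t3 t4) r) r) r) l)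
      (hr (Nat.add i 1) e)) t

end Pool.Agent.Lib.EPS9
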