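import Pool.Agent.Lib.MP_c7e7f6_eps.Core3
import Pool.Agent.Lib.MP_c7e7f6_eps.Rw

/-!
Statements collecting the results of the kernel computations.
-/

set_option autoImplicit false

namespace Pool.Agent.Lib.EPS9

/-- all states in the tree are treated -/
def Rt.Chk (RW NR : Nat) : Rt → Prop
  | .e r => ∃ t, chk6 RW NR r t = true
  | .b x y => x.Chk RW NR ∧ y.Chk RW NR

/-- all ranges between neighbouring entries of the list are treated -/
def RgOk (T : Kt) (RW : Nat) : List Nat → Prop
  | a :: b :: l => (∃ t, chkR T RW t a b = true) ∧ RgOk T RW (b :: l)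
  | _ => True

/-- the next codes are between 1 and 6 -/
noncomputable def wok (fuel : Nat) : Nat → Bool :=
  Nat.rec (fun _ => true)
    (fun _ ih s => brn (Nat.beq (Nat.land s 7) 0) false
      (cnd (Nat.ble (Nat.land s 7) 6) (ih (Nat.shiftRight s 3)))) fuel

/-- the words from number `j` on have codes between 1 and 6 -/
noncomputable def rwok (RW fuel : Nat) : Nat → Bool :=
  Nat.rec (fun _ => true)
    (fun _ ih j => cnd (wok 15 (Nat.land (Nat.shiftRight RW (Nat.mul 45 j)) (msk 45)))
      (ih (Nat.add j 1))) fuel

end Pool.Agent.Lib.EPS9
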