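import Pool.Agent.Lib.MP_c7e7f6_eps.Kt0
import Pool.Agent.Lib.MP_c7e7f6_eps.Kt1
import Pool.Agent.Lib.MP_c7e7f6_eps.Kt2
import Pool.Agent.Lib.MP_c7e7f6_eps.Kt3
import Pool.Agent.Lib.MP_c7e7f6_eps.Kt4
import Pool.Agent.Lib.MP_c7e7f6_eps.Kt5
import Pool.Agent.Lib.MP_c7e7f6_eps.Kt6
import Pool.Agent.Lib.MP_c7e7f6_eps.Kt7
import Pool.Agent.Lib.MP_c7e7f6_eps.Kt8
import Pool.Agent.Lib.MP_c7e7f6_eps.Kt9
import Pool.Agent.Lib.MP_c7e7f6_eps.Kt10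
import Pool.Agent.Lib.MP_c7e7f6_eps.Kt11
import Pool.Agent.Lib.MP_c7e7f6_eps.Kt12
import Pool.Agent.Lib.MP_c7e7f6_eps.Kt13
import Pool.Agent.Lib.MP_c7e7f6_eps.Kt14
import Pool.Agent.Lib.MP_c7e7f6_eps.Kt15

/-!
The table of colourings of five points.
-/

set_option autoImplicit false

namespace Pool.Agent.Lib.EPS9

/-- the whole table -/
noncomputable def KT : Kt := (Kt.n 632986313 0x270ca654 (Kt.n 383207697 0x2a06ea519d3b71aefc934d1 (Kt.n 332814681 0xb239b36ac026993a8130b66a75b461 (Kt.n 242439305 0x2ec2bd8d kt0 kt1) (Kt.n 366438753 0x2760ba59 kt2 kt3)) (Kt.n 513090761 0xa6e96e529bac9948d9e9eba361275caed89d52357a74c (Kt.n 483809050 0xcf5fb3b741c585a kt4 kt5) (Kt.n 584739545 0x2cdfd723 kt6 kt7))) (Kt.n 833233545 0x8b66ddca2d7b572 (Kt.n 735233810 0xd6616a4b51fd5099cc54c466bf4319d40ea18659a166a (Kt.n 651610395 0x24b86cec kt8 kt9) (Kt.n 769042697 0x20dc4513a31b12461502923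 kt10 kt11)) (Kt.n 882258569 0xc569a2ae4e6e352 (Kt.n 863122057 0x234fad5d kt12 kt13) (Kt.n 899335826 0x2971470b kt14 kt15))))

end Pool.Agent.Lib.EPS9
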