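import Pool.Agent.Lib.MP_c7e7f6_eps.Core4
import Pool.Agent.Lib.MP_c7e7f6_eps.KtAll

/-!
Extensions of the words from number 10192 on.
-/

set_option autoImplicit false

namespace Pool.Agent.Lib.EPS9

open Tr

theorem i10192 : ∃ t, chkR KT RW t 10192 10202 = true := ⟨(n 0xc8a7728c8072280 (n 0 (n 407 (n
 3282443 z (n 0 z (n 2 z (n 10 z (n 0 z z))))) (n 478 (n 3278363 z (n 0 z (n
 0xaca8a864078088047fc7cd8537b68107fc80e7f880383b8388317f78647cd7e181f7fb8027da7e487681283083b7f87ec8827b081c83b7d07f481279d7ea7ae7d883f7ff8087e68007ff8478497c68520811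
 z (n 0 z (n 0 z (n 5518875 z z)))))) (n 406 (n 3212843 z (n 0 z z)) (n 3 (n 2164283 z (n 0 z (n
 0x2ca8c820078008017ff8008008007ff8007ff8008018018018008008008008007ff8007ff8007ff8008007ff8007ff7ff8008008008008008008008008008007ff7ff8008008008008008008008018000811
 z (n
 0x3550c00caa181a565001e8ca00389940064b28024865082b87c77687693b7c089e78f8857aa8547d481d7c086782173b8418c57978377f278d8947dc87586c7cc7ef93e7808d37e17d67477c474778c74779f77e89774f81583e86c85182776e90901d1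
 z (n
 0x3550c008aa1816561001a8c200309840058b0801f861082885e7938678f97c48767ac8687bb8407cc8117cd84482a76c8318947a68127ff7ad8727ef84c8617b47ea8fe7a68b47d77f87597cc7707a17727b37b786779a80d84185084181f7888c301d1
 z (n 0 z z)))))) (n 1 (n 0 z (n 0 z (n 0 z (n 0 z (n 0 z (n 0 z (n 0 z (n
 0x1550c004aa1811d6210148c420269884044b1081906218208477ad84e8c37cc85a7c18517c98327d780e7dc83182a78d8238737b98087ff7bf85d7f78388527bd7eb8cb7bb8917e07ff7797d578d7b278e7c27d484b7ba80983583f83581b79e89901d1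
 z (n 0 z (n 0 z (n 0 z (n 2164299 z z)))))))))))) (n 0 (n 0 z (n 0 z (n 0 z (n 2164315 z (n 18
 z (n 0 z z)))))) z)))))) (n 406 (n 0 (n 0 z (n 341 (n 0 z (n 0 z (n 0 z (n 0 z (n 0 z (n 0 z (n
 0 z (n 0 z (n 0 z (n 0 z (n 0 z (n 0 z (n 0 z (n 0 z (n 0 z z))))))))))))))) z)) (n 0 (n 257 (n
 0 z (n 0 z (n 0 z (n 0 z (n 0 z (n 0 z (n 0 z (n 0 z (n 0 z z))))))))) z) (n 0 z z))) (n 0 (n 1
 (n 3212843 z (n 3212843 z (n 3212843 z (n 3212843 z (n 3212843 z (n 3212843 z z)))))) (n 0 z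
 z)) (n 0 z z)))) (n 0x230ba0ab358256e40d931899c84185c2842dc6414ae811519211adc8032630346e0119240
 (n 0 (n 573 (n 2 z (n 0 z (n 3282443 z (n 0 z (n 10 z (n 18 z (n 26 z (n 0 z z)))))))) (n 571
 (n 34 z (n 0 z (n 3278363 z (n 0 z (n 0 z (n 0 z (n 0 z (n 0 z (n 0 z z))))))))) (n 572 (n 42 z
 (n 3212843 z (n 50 z (n 0 z (n 0 z (n 0 z (n
 0x65253040182ca8a86007059519440060329b28800c165454100388c84a8200782075f7df8208e081f8a07de82081f86075f8617e28618207e082281f8a07e089f8628218613001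
 z z))))))) (n 3 (n 58 z (n 0 z (n 6566411 z (n 0 z (n 0 z (n 0 z (n 0 z (n 0 z (n 0 z
 z))))))))) (n 1 (n 66 z (n 0 z (n 6566411 z (n 0 z (n 74 z (n 82 z (n 90 z (n 0 z z)))))))) (n
 0 (n 98 z (n 2164315 z (n 106 z (n 0 z (n 0 z (n 0 z (n
 0x64364120182c86c80403119510c80060b21219000c065242100382c8484200782075f7df8208e081f8a07de82081f86075f8617e28618207e082281f8a07e089f8628218613001
 z z))))))) z)))))) (n 572 (n 0 (n 0 z (n 0 z (n 0 z (n 1143 (n 0 z (n 0 z (n 0 z (n 0 z (n 0 z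
 (n 0 z (n 0 z (n 0 z (n 0 z (n 0 z (n 0 z (n 0 z (n 0 z z))))))))))))) (n 775 (n 0 z (n 0 z (n
 0 z (n 0 z (n 0 z (n 0 z (n 0 z (n 0 z (n 0 z (n 0 z (n 0 z (n 0 z z)))))))))))) (n 775 (n 0 z
 (n 0 z (n 0 z (n 0 z (n 0 z (n 0 z (n 0 z (n 0 z (n 0 z (n 0 z (n 0 z (n 0 z z)))))))))))) (n 7
 (n 0 z (n 0 z (n 0 z (n 0 z (n 0 z (n 0 z (n 0 z (n 0 z (n 0 z (n 0 z (n 0 z (n 0 z (n 0 z (n 0
 z z)))))))))))))) (n 15 (n 0 z (n 0 z (n 0 z (n 0 z (n 0 z (n 0 z (n 0 z (n 0 z (n 0 z (n 0 z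
 (n 0 z (n 0 z z)))))))))))) (n 15 (n 0 z (n 0 z (n 0 z (n 0 z (n 2 (n 0 z (n 0 z (n 1 z (n 1 z
 z)))) (n 0 z (n 0 z (n 0 z (n 0 z (n 0 z (n 0 z (n 0 z z)))))))))))) (n 15 (n 0 z (n 0 z (n 0 z
 (n 0 z (n 0 z (n 7745555 z (n 0 z (n 0 z (n 0 z (n 0 z (n 0 z (n 0 z z)))))))))))) (n 15 (n 0 z
 (n 0 z (n 0 z (n 0 z (n 0 z (n 0 z (n 0 z (n 0 z (n 0 z (n 0 z (n 0 z (n 0 z z)))))))))))) (n
 13 (n 2 (n 0 z z) (n 0 z (n 0 z (n 0 z (n 0 z (n 0 z (n 0 z (n 0 z z)))))))) (n 13 (n 0 z (n 0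
 z (n 0 z (n 0 z (n 0 z (n 0 z (n 0 z (n 0 z z)))))))) z))))))))))))) (n 0 (n 0 z (n 0 z (n 1143
 (n 2 (n 2 (n 0 z (n 0 (n 4580 z (n 4580 z z)) (n 0 z (n 0 (n 8664859 z (n 4580 z z)) (n 0 (n
 8664859 z (n 4580 z z)) (n 0 z z)))))) (n 1 z (n 1 z (n 1 z (n 1 z (n 1 z (n 1 z (n 2 (n 0 z (n
 0 (n 8664859 z (n 3188 z z)) (n 0 z (n 0 (n 3188 z (n 8664859 z z)) (n 0 (n 8730155 z (n
 8730155 z z)) (n 0 z z)))))) (n 1 z z))))))))) (n 0 z (n 0 z (n 0 z (n 0 z (n 0 z (n 0 z (n 0 z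
 z)))))))) (n 1145 (n 0 z (n 0 z (n 0 z (n 0 z z)))) (n 1145 (n 2 (n 1 z (n 1 z (n 1 z (n 1 z (n
 1 z (n 2 (n 0 z (n 0 (n 8664859 z (n 3188 z z)) (n 0 z (n 0 (n 3188 z (n 8664859 z z)) (n 0 (n
 8730155 z (n 8730155 z z)) (n 0 z z)))))) (n 1 z z))))))) (n 0 z (n 0 z (n 0 z z)))) (n 1165 (n
 0 z (n 0 z z)) (n 809 (n 0 z (n 0 z (n 0 z (n 0 z (n 0 z (n 0 z (n 0 z (n 0 z (n 2 (n 0 z (n 0
 z (n 0 z (n 1 z (n 1 z z))))) (n 0 z (n 0 z (n 0 z z)))))))))))) (n 809 (n 0 z (n 0 z (n 0 z (n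
 0 z (n 0 z (n 0 z (n 0 z (n 0 z (n 0 z (n 0 z (n 0 z (n 0 z z)))))))))))) (n 809 (n 0 z (n 0 z
 (n 0 z (n 0 z (n 0 z (n 0 z (n 0 z (n 7741491 z (n 0 z (n 0 z (n 7741491 z (n 0 z z))))))))))))
 (n 809 (n 0 z (n 0 z (n 0 z (n 0 z (n 0 z (n 0 z (n 0 z (n 0 z (n 0 z (n 0 z (n 0 z (n 0 z
 z)))))))))))) (n 797 (n 0 z (n 0 z (n 0 z (n 0 z (n 0 z z))))) (n 797 (n 0 z (n 0 z (n 0 z (n 0
 z (n 0 z z))))) z)))))))))))) (n 0 (n 0 z (n 1115 (n 7749939 z (n 0 z (n 0 z (n 0 z (n 0 z (n 0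
 z (n 0 z (n 0 z (n 0 z z))))))))) (n 1113 (n 0 z (n 0 z (n 0 z (n 0 z (n 0 z (n 0 z (n 0 z (n 0
 z (n 0 z (n 0 z (n 0 z (n 0 z (n 0 z (n 0 z (n 0 z (n 0 z (n 0 z (n 0 z (n 0 z (n 0 z (n 0 z (n
 0 z (n 0 z (n 0 z (n 0 z (n 0 z (n 0 z (n 0 z (n 0 z (n 0 z (n 0 z
 z))))))))))))))))))))))))))))))) (n 1113 (n 0 z (n 0 z (n 0 z (n 0 z (n 0 z (n 0 z (n 0 z (n 0
 z (n 0 z (n 0 z (n 0 z (n 0 z (n 0 z (n 0 z (n 0 z (n 0 z (n 0 z (n 0 z (n 0 z (n 0 z (n 0 z (n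
 0 z (n 0 z (n 0 z (n 0 z (n 0 z (n 0 z (n 0 z (n 0 z (n 0 z (n 0 z
 z))))))))))))))))))))))))))))))) (n 997 (n 0 z (n 0 z (n 0 z (n 0 z (n 0 z (n 0 z z)))))) (n
 777 (n 0 z (n 0 z (n 0 z (n 0 z (n 7749939 z (n 0 z (n 0 z (n 0 z (n 0 z (n 0 z (n 0 z (n 0 z
 z)))))))))))) (n 777 (n 0 z (n 0 z (n 0 z (n 0 z (n 0 z (n 0 z (n 0 z (n 0 z (n 7754771 z (n
 7754771 z (n 0 z (n 0 z z)))))))))))) (n 777 (n 0 z (n 0 z (n 0 z (n 2 (n 0 z (n 1 z (n 1 z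
 z))) (n 0 z (n 0 z (n 0 z (n 0 z (n 0 z (n 0 z (n 0 z (n 0 z z)))))))))))) (n 777 (n 0 z (n 0 z
 (n 0 z (n 0 z (n 0 z (n 0 z (n 0 z (n 0 z (n 0 z (n 0 z (n 0 z (n 0 z z)))))))))))) (n 745 (n 0
 z (n 0 z (n 0 z (n 0 z (n 0 z (n 0 z (n 0 z (n 0 z (n 0 z z))))))))) (n 745 (n 0 z (n 0 z (n 0
 z (n 0 z (n 0 z (n 0 z (n 0 z (n 0 z (n 0 z z))))))))) z))))))))))) (n 0 (n 1143 (n 0 z (n 0 z
 (n 0 z (n 0 z (n 0 z (n 0 z (n 0 z (n 0 z (n 0 z (n 0 z (n 0 z z))))))))))) (n 1145 (n 0 z (n 0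
 z (n 0 z (n 0 z (n 0 z (n 0 z (n 0 z (n 0 z (n 0 z (n 0 z z)))))))))) (n 1145 (n 0 z (n 0 z (n
 0 z (n 0 z (n 0 z (n 0 z (n 0 z (n 0 z (n 0 z (n 0 z z)))))))))) (n 1165 (n 0 z (n 0 z (n 0 z
 (n 0 z (n 0 z (n 0 z (n 0 z (n 0 z (n 0 z (n 0 z z)))))))))) (n 809 (n 0 z (n 0 z (n 0 z z)))
 (n 809 (n 0 z (n 0 z (n 0 z z))) (n 809 (n 0 z (n 0 z (n 0 z z))) (n 809 (n 0 z (n 0 z (n 0 z
 z))) (n 797 (n 0 z (n 0 z (n 0 z (n 0 z (n 0 z (n 0 z (n 0 z (n 0 z (n 0 z (n 0 z (n 0 z (n 0 z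
 (n 0 z (n 0 z (n 0 z z))))))))))))))) (n 797 (n 0 z (n 0 z (n 0 z (n 0 z (n 0 z (n 0 z (n 0 z
 (n 0 z (n 0 z (n 0 z (n 0 z (n 0 z (n 0 z (n 0 z (n 0 z z))))))))))))))) z)))))))))) (n 0 (n
 1145 (n 0 z (n 0 z (n 0 z (n 0 z (n 0 z (n 0 z (n 0 z (n 0 z (n 0 z (n 0 z (n 0 z z)))))))))))
 (n 1145 (n 0 z (n 0 z (n 0 z (n 0 z (n 0 z (n 0 z (n 0 z (n 0 z (n 0 z (n 0 z (n 0 z
 z))))))))))) (n 535 (n 0 z (n 0 z (n 0 z (n 0 z (n 0 z (n 0 z (n 0 z (n 0 z (n 0 z (n 0 z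
 z)))))))))) (n 531 (n 0 z (n 0 z (n 0 z (n 0 z (n 0 z z))))) (n 531 (n 0 z (n 0 z (n 0 z (n 0 z
 (n 0 z z))))) (n 531 (n 0 z (n 0 z (n 0 z (n 0 z (n 0 z z))))) (n 531 (n 0 z (n 0 z (n 0 z (n 0
 z (n 0 z z))))) (n 529 (n 0 z (n 2 (n 0 z z) (n 0 z (n 0 z (n 0 z (n 0 z (n 0 z z))))))) (n 529
 (n 0 z (n 0 z (n 0 z (n 0 z (n 0 z (n 0 z (n 0 z z))))))) z))))))))) (n 0 (n 0 z (n 11 (n 0 z
 (n 0 z (n 2 (n 1 z (n 1 z (n 1 z (n 1 z (n 1 z (n 1 z z)))))) (n 0 z (n 0 z (n 0 z (n 0 z (n 0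
 z (n 0 z z))))))))) (n 3 (n 2 (n 0 z (n 0 z (n 0 z (n 1 z (n 1 z z))))) (n 0 z (n 0 z (n 0 z (n
 0 z (n 0 z (n 0 z (n 0 z (n 0 z (n 0 z (n 0 z z))))))))))) (n 3 (n 0 z (n 0 z (n 0 z (n 0 z (n
 0 z (n 0 z (n 0 z (n 0 z (n 0 z (n 0 z (n 0 z z))))))))))) (n 3 (n 0 z (n 0 z (n 0 z (n 0 z (n
 0 z (n 0 z (n 0 z (n 0 z (n 0 z (n 0 z (n 0 z z))))))))))) (n 3 (n 0 z (n 0 z (n 0 z (n 0 z (n
 0 z (n 0 z (n 0 z (n 0 z (n 0 z (n 0 z (n 0 z z))))))))))) (n 1 (n 0 z (n 0 z (n 0 z (n 0 z (n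
 0 z (n 0 z (n 0 z (n 0 z (n 0 z (n 0 z (n 0 z (n 0 z (n 0 z z))))))))))))) (n 1 (n 0 z (n 2 z
 (n 0 z (n 0 z (n 0 z (n 0 z (n 0 z (n 0 z (n 0 z (n 0 z (n 0 z (n 0 z (n 0 z z)))))))))))))
 z)))))))) (n 0 (n 295 (n 0 z (n 0 z (n 0 z (n 0 z (n 0 z (n 0 z (n 0 z z))))))) (n 303 (n 0 z
 (n 0 z (n 0 z (n 0 z (n 0 z (n 0 z (n 0 z (n 0 z (n 0 z (n 0 z (n 0 z (n 0 z z)))))))))))) (n
 303 (n 0 z (n 0 z (n 0 z (n 0 z (n 0 z (n 0 z (n 0 z (n 0 z (n 0 z (n 0 z (n 0 z (n 0 z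
 z)))))))))))) (n 303 (n 0 z (n 0 z (n 0 z (n 0 z (n 0 z (n 0 z (n 0 z (n 0 z (n 0 z (n 0 z (n 0
 z (n 0 z z)))))))))))) (n 303 (n 0 z (n 0 z (n 0 z (n 0 z (n 0 z (n 0 z (n 0 z (n 0 z (n 0 z (n
 0 z (n 0 z (n 0 z z)))))))))))) (n 301 (n 0 z (n 2 (n 0 z z) (n 0 z (n 0 z (n 0 z (n 0 z (n 0 z
 (n 0 z z)))))))) (n 301 (n 0 z (n 0 z (n 0 z (n 0 z (n 0 z (n 0 z (n 0 z (n 0 z z))))))))
 z))))))) (n 0 (n 3 (n 0 z (n 0 z (n 0 z (n 0 z (n 0 z (n 0 z (n 0 z (n 0 z (n 0 z (n 0 z (n 0 z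
 (n 0 z (n 0 z z))))))))))))) (n 3 (n 0 z (n 0 z (n 0 z (n 0 z (n 0 z (n 0 z (n 2 (n 0 z (n 0 z
 (n 2 (n 0 z (n 0 (n 8455739 z (n 8455739 z z)) (n 0 z (n 0 (n 4 z (n 4 z z)) (n 0 (n 4 z (n 4 z
 z)) (n 0 z z)))))) (n 1 z z)))) (n 0 z (n 0 z (n 0 z (n 0 z (n 0 z (n 0 z z))))))))))))) (n 3
 (n 0 z (n 0 z (n 0 z (n 0 z (n 0 z (n 0 z (n 0 z (n 7745555 z (n 0 z (n 0 z (n 0 z (n 0 z (n 0
 z z))))))))))))) (n 3 (n 0 z (n 0 z (n 0 z (n 0 z (n 0 z (n 0 z (n 0 z (n 0 z (n 0 z (n 0 z (n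
 0 z (n 0 z (n 0 z z))))))))))))) (n 1 (n 0 z (n 0 z (n 0 z (n 0 z (n 0 z (n 0 z (n 0 z (n 0 z
 (n 0 z (n 0 z (n 0 z z))))))))))) (n 1 (n 0 z (n 0 z (n 0 z (n 0 z (n 0 z (n 0 z (n 0 z (n 0 z
 (n 0 z (n 0 z (n 0 z z))))))))))) z)))))) (n 0 (n 0 z (n 0 z (n 0 z (n 361 (n 0 z (n 0 z (n 0 z
 (n 0 z (n 0 z (n 0 z (n 0 z (n 0 z (n 0 z (n 0 z (n 0 z (n 0 z z)))))))))))) (n 361 (n 0 z (n 0
 z (n 0 z (n 0 z (n 0 z (n 0 z (n 0 z (n 0 z (n 0 z (n 0 z (n 0 z (n 0 z z)))))))))))) z))))) (n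
 0 (n 0 z (n 0 z (n 1 (n 0 z (n 0 z (n 0 z (n 0 z z)))) (n 1 (n 2 z (n 0 z (n 0 z (n 0 z z))))
 z)))) (n 0 (n 0 z (n 25 (n 0 z (n 0 z (n 0 z (n 0 z (n 0 z (n 0 z (n 0 z (n 0 z (n 0 z (n 0 z
 (n 0 z (n 0 z (n 0 z (n 0 z (n 0 z (n 0 z (n 0 z (n 0 z (n 0 z (n 0 z (n 0 z (n 0 z (n 0 z (n 0
 z (n 0 z (n 0 z (n 0 z (n 0 z (n 0 z (n 0 z (n 0 z z))))))))))))))))))))))))))))))) (n 25 (n 0
 z (n 0 z (n 0 z (n 0 z (n 0 z (n 0 z (n 0 z (n 0 z (n 0 z (n 0 z (n 0 z (n 0 z (n 0 z (n 0 z (n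
 0 z (n 0 z (n 0 z (n 0 z (n 0 z (n 0 z (n 0 z (n 0 z (n 0 z (n 0 z (n 0 z (n 0 z (n 0 z (n 0 z
 (n 0 z (n 0 z (n 0 z z))))))))))))))))))))))))))))))) z))) (n 0 (n 1 (n 0 z (n 0 z (n 0 z (n 0
 z (n 0 z (n 0 z (n 0 z (n 0 z (n 0 z (n 0 z z)))))))))) (n 1 (n 0 z (n 0 z (n 0 z (n 0 z (n 0 z
 (n 0 z (n 0 z (n 0 z (n 0 z (n 0 z z)))))))))) z)) (n 0 (n 0 z z) (n 0 z z)))))))))))))) (n 0
 (n 1 (n 6566411 z (n 4588 z (n 4588 z (n 4588 z (n 4588 z (n 4588 z z)))))) (n 1 (n 6566411 z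
 (n 3212843 z (n 3212843 z (n 3212843 z (n 3212843 z (n 3212843 z z)))))) (n 1 (n 28 z (n
 6566411 z (n 4588 z (n 4588 z (n 4588 z (n 4588 z z)))))) (n 0 z (n 0 z (n 0 z (n 1 (n 4588 z
 (n 4588 z (n 4588 z (n 4588 z (n 4588 z (n 6566411 z z)))))) z))))))) (n 0 z z)))) (n
 0x454abac04a848b1150548942244a411 (n 0 (n 441 (n 3282443 z z) (n 557 (n 0 z (n 0 z (n 2 z (n 0
 z (n 3278363 z (n 0 z (n 0 z (n 0 z (n 0 z (n 0 z (n 0 z (n 0 z (n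
 0x2ca8ca64038008008008007ff8008018008008008008018008008008017ff7ff7ff8018008008008008008007fe7ff8028027fe8008008007ff8008008008018007ff8018008007ff7ff8008028008000811
 z (n 0 z (n 0 z (n 0 z (n 0 z (n 0 z z)))))))))))))))))) (n 9 (n 10 z (n 18 z (n 3212843 z (n
 26 z (n
 0x16ca8ca82037f87ed7f47fe7f97f67ea80f7f08418107fd80d7f07fe8187f77f07dc7e580b7ea8167fd7e67e67ed7eb8008187ef8198168247e57fd7d08218097fb7fc7c78377ad8497d47ec7f28267ec0811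
 z (n
 0x24ca8ca82037f87f27f480f7dc80c7f58307d77ce7fb80f8087ef82f8017ed7f87d17e37ef8087f382483a7ec7967df7fc82b7e07df8fe7ce83075f8308188807a77fc7aa8117d384c7ec8207d882d7e70811
 z (n 34 z z))))))) (n 27 (n 0 z (n 2164283 z z)) (n 1 (n 6554139 z (n 0 z (n 0 z (n 0 z (n
 0x2ca6ca42077fd8018008008028018008008008008008018007fd8007fd8008008017ff8018008018028017ff8018007ff8018018008008007ff8008008007ff8008007ff7ff8008008008008008008010811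
 z (n 6554139 z (n 0 z z))))))) (n 0 (n 0 z (n 0 z (n 0 z (n 2164315 z (n 42 z (n 0 z (n 0 z (n
 0 z (n 0 z z))))))))) z)))))) (n 441 (n 0 (n 1041 (n 0 z (n 0 z (n 0 z (n 0 z (n 0 z (n 0 z
 z)))))) (n 1041 (n 0 z (n 0 z (n 0 z (n 0 z (n 0 z (n 0 z z)))))) (n 1041 (n 0 z (n 0 z (n 0 z
 (n 0 z (n 0 z (n 0 z z)))))) (n 1041 (n 0 z (n 0 z (n 0 z (n 2 (n 1 z z) (n 0 z (n 0 z z))))))
 (n 1033 (n 0 z (n 0 z (n 0 z (n 0 z (n 0 z (n 0 z (n 0 z (n 0 z (n 0 z z))))))))) z))))) (n 0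
 (n 0 z (n 0 z (n 0 z (n 1129 (n 0 z (n 0 z (n 0 z (n 0 z (n 0 z (n 0 z (n 0 z (n 0 z (n 0 z
 z))))))))) z)))) (n 0 (n 0 z (n 0 z (n 17 (n 0 z (n 0 z (n 0 z (n 0 z (n 0 z (n 0 z (n 0 z (n 0
 z (n 0 z (n 0 z z)))))))))) z))) (n 0 (n 0 z (n 889 (n 0 z (n 2 z (n 0 z (n 0 z (n 0 z (n 0 z
 (n 0 z (n 0 z (n 0 z (n 0 z (n 0 z z))))))))))) z)) (n 0 (n 1 (n 0 z (n 0 z (n 0 z (n 0 z (n 0
 z (n 2 z (n 0 z (n 0 z (n 0 z (n 0 z (n 0 z z))))))))))) z) (n 0 z z)))))) (n 0 (n 1 (n 3282443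
 z (n 3282443 z (n 3282443 z (n 3282443 z (n 3282443 z (n 3282443 z z)))))) z) (n 0 z z)))) (n
 0x230ba9a0e26485168c269b20a4d9240 (n 0 (n 573 (n 2 z (n 3282443 z (n 0 z (n 0 z (n 0 z (n 0 z
 (n
 0xb2a329900c00195190c806002ca8ca24037ff7fa8037fa7ff7fe8008008007ff8027ff8017ff8007fe8027ff7fe8018038008028008017fe8008007fd7ff7ff8008037ff8007ff8018008018008018018027ff8038008028007ff8021811
 z (n 0 z (n 0 z (n 0 z (n 0 z z))))))))))) (n 574 (n 3278363 z (n 0 z (n 0 z (n 0 z (n 0 z (n 0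
 z (n 0 z (n 0 z (n 0 z z))))))))) (n 572 (n 3212843 z (n 10 z (n 0 z (n
 0x6329b28200c009945941006008c84a8200380780e8028017fe7fd80e80d7f98068047fe8028078007ff7ff7ff7ff7fe7fd8057fe8047fd8058118118057f98017fd7f97f38008098077fd7f88018027f68068067f88057f98018087fb1811
 z (n
 0x5995194400e008ca2ca20077ef8487f78387c88147ff7eb80e8067f47f680e7f682481d7e58018277cd7977d77ff8167ed83a7e47e98108357e08138037fa8577f17987c483f80e7e282d7b77ed83881783c7e87e684c1011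
 z (n
 0xaca8ca80037fc8027fb7ff7fe8007fe8058088068007fb7fd7fa8078038067fd8077fb8008027f98077fc8057f48017f78077ff80580a80a8037fc7fd8008027fb7f78027f27ff8087fe7fe7fb8008040811
 z (n 18 z (n 26 z (n 0 z (n 34 z (n
 0x1195194c00600aa86c8400380c8037f97f97fa7ff8007fe7ff8067ee8058078158087fe7ea8087f07f88027f58117f08067f87ef7fa8067fe7f77ff7fd80a7fe7fc7ee80680680180b80b80d7f980280280580e7f97f91011
 z (n
 0x1d50d908006050ca8c820038077b682a7d78107de80b80b8067c37f17fb82e7f27ea7ee7f680579781c8498308827a58567f081a8167ea7f77f982580a8017957e384282c7fe7e87ef81a84d7d37e07cf84f8517ce8001011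
 z (n
 0x1995190400e008ca4a820037fc81b7f380f7f48098098097ff80e8067fe7ff8018058098027fd8137fb7ea7ff7ea8107f08107f78027fe8048007f480280380e80d8067f57ff8077f77f57ec80d7fb7fc7f17f98107f81011
 z z))))))))))))) (n 3 (n 0 z (n 0 z (n 0 z (n 6566411 z (n 0 z (n 0 z (n 0 z (n 0 z (n 0 z (n 0
 z z)))))))))) (n 1 (n 6566411 z (n 0 z (n 0 z (n 0 z (n 0 z z))))) (n 0 (n 2164315 z (n 0 z (n
 42 z (n 0 z (n 0 z (n 0 z (n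
 0xb21b20900c00590d900806000c84c842078007fb7ff8017fc8017fd7fe8097fd7fb8067ff7fc8047fc8008017fa7fd8017ff8067fa8047ff7fd7fd8008037ff8058038057ff7f87fa8038047ff7f98087fd7f98067fe8068017f98051811
 z z))))))) z)))))) (n 1 (n 0 (n 727 (n 0 z (n 0 z (n 0 z (n 0 z (n 0 z (n 0 z (n 0 z (n 0 z (n
 0 z (n 0 z (n 0 z (n 0 z z)))))))))))) (n 727 (n 0 z (n 0 z (n 0 z (n 0 z (n 0 z (n 0 z (n 0 z
 (n 0 z (n 0 z (n 2 (n 0 z (n 0 z (n 1 z z))) (n 0 z (n 0 z z)))))))))))) (n 727 (n 0 z (n 0 z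
 (n 0 z (n 0 z (n 0 z (n 0 z (n 0 z (n 0 z (n 0 z (n 0 z (n 0 z (n 0 z z)))))))))))) (n 727 (n 0
 z (n 0 z (n 0 z (n 0 z (n 0 z (n 0 z (n 0 z (n 0 z (n 0 z (n 0 z (n 0 z (n 0 z z)))))))))))) (n
 13 (n 0 z (n 0 z (n 0 z (n 0 z (n 0 z (n 0 z (n 0 z (n 0 z z)))))))) z))))) (n 0 (n 0 z (n 0 z
 (n 0 z (n 301 (n 0 z (n 0 z (n 0 z (n 0 z (n 0 z (n 0 z (n 0 z (n 0 z z)))))))) z)))) (n 0 (n 0
 z (n 0 z (n 337 (n 0 z (n 0 z (n 2 z (n 0 z (n 0 z (n 0 z (n 0 z (n 0 z (n 0 z (n 0 z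
 z)))))))))) z))) (n 0 (n 0 z (n 845 (n 0 z (n 0 z (n 0 z (n 0 z (n 0 z (n 0 z (n 0 z (n 0 z (n
 0 z (n 0 z z)))))))))) z)) (n 0 (n 797 (n 0 z (n 0 z (n 0 z (n 0 z (n 2 z (n 0 z (n 0 z (n 0 z
 (n 0 z (n 0 z z)))))))))) z) (n 0 z z)))))) (n 0 (n 1 (n 6566411 z (n 6566411 z (n 6566411 z (n
 6566411 z (n 6566411 z (n 6566411 z z)))))) (n 0 z (n 0 z (n 0 z (n 0 z z))))) (n 0 z z)))) (n
 0x204898c265440b4e14428932134da052 (n 0 (n 693 (n 3282443 z (n 0 z (n 0 z (n 0 z (n 0 z z)))))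
 (n 694 (n 0 z (n 0 z (n
 0x50d9090932100341080807d80808085737e9780827980768081897b7b7a6683947a888972856a836c78959b8c7298837667916d886b748290927600c9
 z (n 0 z (n 0 z (n 3278363 z (n 0 z (n
 0x2ca4ca06030a65465400383b21b21801c5590d50c00602ca8ca400780807e80808083848d85807d7c8076807f947a86757074867d8b846d807f866d88997f8e658e867a87915ea162705a7ac35a2809
 z (n 0 z (n 0 z (n
 0x4ca6c860070065365200380329329001c1594d8c800e04ca686400780807f80808081808381807f80807f807f837f807e7f7f828081817c8082817e828183827e82817f81827c847c807b7d89792809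
 z (n
 0xd8854c100e00a64c208070165354320181aa1b28900c059054c080e02ca4c840070664264200380b21a99000c0194d0c800e08c868640038080848080807f7d7e80807e7e807f8080817f8080818082847b7e847f837e7d8181807e827f7e817f7d8281838382817d825009
 z z)))))))))))) (n 692 (n 2 z (n 3212843 z (n 10 z (n 18 z (n
 0x50d90d0932180341080807d80808085737e9780827980768081897b7b7a6683947a888972856a836c78959b8c7298837667916d886b748290927600c9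
 z z))))) (n 3 (n 0 z (n 0 z (n
 0x50d9090932100341080807d80808085737e9780827980768081897b7b7a6683947a888972856a836c78959b8c7298837667916d886b748290927600c9
 z (n 0 z (n 0 z (n 6488603 z (n 0 z (n
 0xeca4ca42071565252010180b2a329001c2994994800e02ca2c8200380807e80808083848d85807d7c8076807f947a86757074867d8b846d807f866d88997f8e658e867a87915ea162705a7ac35a2809
 z (n 0 z (n 0 z (n
 0xaca8ca020302652650103812a1328080c0195195000e00ca8ca200780807f80808081808381807f80807f807f837f807e7f7f828081817c8082817e828183827e82817f81827c847c807b7d89792809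
 z (n
 0x594994100e04c64a208070a65465420382321a88100c0594d04080e0eca4a8420701542650101813292a0081c1590d08400604c828420038080868080807f7c7d7f807d7d807f8081827e808180808386797d877f847d7d82827e7c847f7d827f7b8281848583827b835009
 z z)))))))))))) (n 1 (n 26 z (n 2164299 z (n 34 z (n 42 z (n
 0x50d8810931000341080807d80808085737e9780827980768081897b7b7a6683947a888972856a836c78959b8c7298837667916d886b748290927600c9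
 z z))))) (n 0 (n 6624315 z (n 0 z (n 0 z (n 0 z (n 0 z z))))) z)))))) (n 693 (n 0 (n 0 z (n 0 z
 (n 531 (n 0 z (n 0 z (n 0 z (n 0 z (n 0 z (n 0 z (n 0 z z))))))) (n 531 (n 0 z (n 0 z (n 0 z (n
 0 z (n 0 z (n 0 z (n 0 z z))))))) (n 531 (n 0 z (n 0 z (n 0 z (n 0 z (n 0 z (n 0 z (n 0 z
 z))))))) z))))) (n 0 (n 0 z (n 617 (n 0 z (n 0 z (n 0 z (n 0 z (n 0 z (n 0 z (n 0 z z))))))) (n
 617 (n 0 z (n 0 z (n 0 z (n 0 z (n 0 z (n 0 z (n 0 z z))))))) (n 617 (n 0 z (n 0 z (n 0 z (n 0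
 z (n 0 z (n 0 z (n 0 z z))))))) z)))) (n 0 (n 617 (n 0 z (n 0 z (n 0 z (n 0 z (n 0 z (n 0 z
 z)))))) (n 617 (n 0 z (n 0 z (n 0 z (n 0 z (n 0 z (n 0 z z)))))) (n 617 (n 0 z (n 0 z (n 0 z (n
 0 z (n 0 z (n 0 z z)))))) z))) (n 0 (n 0 z (n 0 z z)) (n 0 (n 0 z z) (n 0 z z)))))) (n 0 (n 1
 (n 3282443 z (n 3282443 z (n 3282443 z (n 3282443 z (n 3282443 z (n 3282443 z z)))))) (n 0 z (n
 0 z (n 0 z (n 0 z z))))) (n 0 z z)))) (n 0x22e1a51609 (n 0 (n 719 (n 3282443 z (n 0 z (n 0 z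
 z))) (n 33 (n 2 z (n 0 z (n 0 z (n 0 z (n 0 z (n 0 z (n 3278363 z (n 0 z z)))))))) (n 11 (n 0 z
 (n 3212843 z z)) (n 27 (n 0 z (n 0 z (n 0 z (n
 0x14c86a4020371808863587694bd6ca86ba8547cac6e88927451b43d7d5e904e7a7bb36571ac967c8752a56cad90717a9b4d7b6fab8d52930809
 z (n 0 z (n 0 z (n 0 z (n 2164283 z (n 0 z z))))))))) (n 1 (n 0 z (n 2164299 z (n 0 z (n 0 z (n
 0 z z))))) (n 0 (n 2164315 z (n 0 z (n 10 z (n 0 z (n 0 z z))))) z)))))) (n 11 (n 0 (n 257 (n 0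
 z (n 0 z (n 0 z (n 0 z (n 0 z (n 0 z (n 0 z (n 0 z (n 0 z z))))))))) z) (n 0 z z)) (n 0 (n 0 z
 (n 1 (n 3212843 z (n 3212843 z (n 3212843 z (n 3212843 z (n 3212843 z (n 3212843 z z)))))) z))
 (n 0 z z)))) (n 0x2a2551c2244a092 (n 0 (n 177 (n 0 z (n 0 z (n 0 z (n 3282443 z z)))) (n 39 (n
 0 z (n 0 z (n 3278363 z z))) (n 129 (n 2 z (n
 0x12ca4a806037fa7eb8157e57ee7eb80181b8008048117e681481882e80c7bd8008017da7f67ee81c8058417c98017e67fd8137fc8097fc81b7fd8037d680e7ed7cd8117fc7f37de80e81e8128048288150811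
 z (n 0 z (n 0 z (n 10 z (n
 0x8ca4a206038008008007ff8017fe8018008018007fe8008018008007ff8008018008008017ff8008008008018007fe7ff7ff8008008007fe8008018008008008008008008038008008018008008008000811
 z (n
 0x2ca6ca60037ff8008008008007ff8008017ff7ff8008008018007ff8018008018018008008008008008008008007ff8007ff8008018008008008018008008018008008008018018008008008008007ff0811
 z (n 0 z (n
 0x2ca6ca60037ff8008007ff8007fe8008007ff8007ff8008008017ff8008008018018008008008008008008018007ff8007ff8018008007ff8008008008008008008008008028008008018008008008000811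
 z (n 0 z (n
 0x595194c00e000ca6ca60038017ff8007ff8027fe8008008008008007ff8018018008018008008008008008008008008008008008008007ff8008018008008008008018008008008008008008008008018008008008001011
 z (n 3212843 z (n
 0x4ca4a806037fe8027fd7fe8038028017ff7fe8037fe8018028027fe7fe7fe8038028018017fe8028007ff7ff8028027ff7fd8018008007ff8028008008017ff8018027fc8008018028038007ff8017ff0811
 z (n 0 z (n 0 z (n
 0x1d949500c0e012ca8ca600780b81a7fb7de80b7d37f680f8307e97dd7ab8588298378737a77c17d37a77c181b8507e982d7ff8007af7d78788007db82e8127e77ce79a8197ff7d48827dc8007f88548407f27f28298131011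
 z z)))))))))))))))) (n 3 (n 0 z (n 0 z (n 0 z (n 0 z (n 0 z (n 2164283 z (n 0 z z))))))) (n 1
 (n 6554139 z (n 0 z (n 0 z (n 0 z z)))) (n 0 (n 18 z (n 2164315 z (n 0 z (n 0 z (n 0 z z)))))
 z)))))) (n 39 (n 0 (n 0 z (n 253 (n 0 z (n 0 z (n 0 z (n 0 z (n 0 z (n 0 z (n 0 z (n 0 z (n 0 z
 z))))))))) z)) (n 0 (n 257 (n 0 z (n 0 z (n 0 z (n 0 z (n 0 z z))))) z) (n 0 z z))) (n 0 (n 0 z
 (n 0 z (n 1 (n 3278363 z (n 6554139 z (n 3278363 z (n 3278363 z (n 3278363 z (n 3278363 z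
 z)))))) z))) (n 0 z z)))) (n 0 (n 0 (n 359 (n 3282443 z (n 0 z (n 0 z (n 0 z z)))) (n 39 (n 0 z
 (n 0 z (n 3278363 z z))) (n 9 (n 0 z (n 0 z (n 3212843 z (n 0 z (n 0 z z))))) (n 27 (n 0 z (n 0
 z (n 0 z (n 0 z (n 2164283 z (n 0 z (n 0 z z))))))) (n 1 (n 0 z (n 0 z (n 0 z (n 0 z (n 2164299
 z z))))) (n 0 (n 0 z (n 0 z (n 0 z (n 0 z (n 2164315 z z))))) z)))))) (n 39 z (n 0 (n 0 z (n 0
 z (n 1 (n 3278363 z (n 3278363 z (n 3278363 z (n 3278363 z (n 3278363 z (n 3278363 z z))))))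
 z))) (n 0 z z)))) (n 0xe366e11b33381944c219 (n 0 (n 177 (n 3282443 z (n 0 z z)) (n 255 (n 2 z
 (n 0 z (n 3278363 z (n 0 z z)))) (n 129 (n 0 z (n 3212843 z (n 10 z z))) (n 27 (n 0 z (n 0 z (n
 0 z (n 0 z (n 0 z (n 0 z (n 2164283 z z))))))) (n 1 (n 2164299 z (n 18 z z)) (n 0 (n 26 z (n
 2164315 z (n 0 z (n 0 z z)))) z)))))) (n 177 (n 0 (n 423 (n 0 z (n 0 z (n 0 z (n 0 z z)))) (n
 537 (n 0 z (n 0 z (n 0 z (n 0 z (n 0 z (n 0 z z)))))) (n 313 (n 0 z (n 0 z z)) z))) (n 0 (n 3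
 (n 0 z (n 0 z (n 0 z z))) (n 1 (n 0 z (n 0 z (n 0 z (n 0 z (n 0 z (n 0 z z)))))) z)) (n 0 (n 5
 (n 0 z (n 0 z (n 0 z (n 0 z (n 0 z (n 0 z (n 0 z (n 0 z (n 0 z (n 0 z z)))))))))) z) (n 0 z
 z)))) (n 0 (n 1 (n 3282443 z (n 3282443 z (n 3282443 z (n 3282443 z (n 3282443 z (n 3282443 z
 z)))))) (n 0 z z)) (n 0 z z)))) (n 0 (n 0 (n 159 (n 0 z (n 3282443 z z)) (n 33 (n 0 z (n 0 z (n
 0 z (n 0 z (n 0 z (n 3278363 z z)))))) (n 9 (n 0 z (n 0 z (n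
 0x10ca8a860037609e38627e36a07a571d86472186191c89f7e07e272b95e5e275f6de8dd9678e081f71b75d0801 z
 (n 0 z (n 0 z (n
 0xeca4a608078a495f59f9a67e08a375e6e38608a176285c81f75d6e289d8209248a09dc9667db8dd79c91f0801 z
 (n 0 z (n 0 z (n 5441067 z (n 3212843 z (n
 0x163080ad84054c20296106dd6a09246598e0798929a5c8dd65d89e7ea865923a1771e8df7989205686529686ea9ab7250101
 z z))))))))))) (n 3 (n 0 z (n 0 z (n 2164283 z (n 0 z (n 0 z z))))) (n 1 (n 0 z (n 0 z (n 0 z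
 (n 0 z (n 0 z (n 0 z (n 2164299 z z))))))) (n 0 (n 0 z (n 0 z (n 6624299 z (n 0 z (n 0 z (n 0 z
 (n 0 z (n 0 z (n 0 z (n 0 z (n 6624299 z (n
 0x163080ad84054c20296106dd6a09246598e0798929a5c8dd65d89e7ea865923a1771e8df7989205686529686ea9ab7250101
 z (n
 0x163100ad88054c40296206dd6a09246598e0798929a5c8dd65d89e7ea865923a1771e8df7989205686529686ea9ab7250101
 z z))))))))))))) z)))))) (n 159 z (n 0 (n 0 z (n 1 (n 3282443 z (n 3282443 z (n 3282443 z (n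
 3282443 z (n 3282443 z (n 3282443 z z)))))) z)) (n 0 z z)))) z)))))))))), by decide +kernel⟩
theorem i10202 : ∃ t, chkR KT RW t 10202 10212 = true := ⟨(n 0x2319a83864 (n 0 (n 225 (n 3282443
 z (n 0 z z)) (n 39 (n 3278363 z (n 0 z (n 0 z (n 0 z (n 0 z z))))) (n 141 (n
 0x365365140188c84a826036e091a71d8e756282271d795ab17e77e18df7da6e575d3e84d66a065b95e7a59dfa56ae77ac1001
 z (n 0 z (n 0 z (n 3212843 z (n 0 z (n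
 0x6ca8a8060376475b8a189e82082285e85d9218218a08a37de76081d71e7dd81d7e27de89f89b8a08a38a30801 z
 (n
 0x164254030182c82a806037a275c95e8197a17a485d95c7e2820a1c9608e17a489e79e85f89979f91e72481b95c8a48601001
 z (n 0 z z)))))))) (n 27 (n 0 z (n 0 z (n 0 z (n 0 z (n 0 z (n 2164283 z z)))))) (n 1 (n 0 z (n
 0 z (n 0 z (n 2 z (n 0 z (n 0 z (n 0 z (n 0 z (n 0 z (n 0 z (n 0 z (n 0 z (n 2164299 z
 z))))))))))))) (n 0 (n 0 z (n 10 z (n 0 z (n 0 z (n 0 z (n 0 z (n 0 z (n 2164315 z (n 0 z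
 z))))))))) z)))))) (n 225 (n 0 (n 1 (n 0 z (n 0 z (n 0 z (n 0 z (n 0 z (n 0 z (n 0 z (n 0 z (n
 0 z (n 0 z z)))))))))) z) (n 0 z z)) (n 0 (n 1 (n 3282443 z (n 3282443 z (n 3282443 z (n
 3282443 z (n 3282443 z (n 3282443 z z)))))) (n 0 z z)) (n 0 z z)))) (n 0xca476205a714211 (n 0
 (n 549 (n 0 z (n 0 z (n 0 z (n 3282443 z (n 0 z (n 0 z (n 0 z (n 0 z (n 0 z (n 0 z (n 0 z (n 0
 z (n 0 z (n 0 z z)))))))))))))) (n 255 (n 0 z (n 0 z (n 0 z (n 0 z (n 3278363 z (n 2 z (n 0 z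
 (n 0 z (n 0 z z))))))))) (n 9 (n 0 z (n 3212843 z (n 0 z z))) (n 27 (n 10 z (n 0 z (n 0 z (n
 6631691 z (n 0 z z))))) (n 1 (n 2164299 z (n 0 z (n 0 z (n 0 z (n 0 z (n 0 z (n 0 z z))))))) (n
 0 (n 0 z (n 0 z (n 6631691 z (n 0 z (n 18 z z))))) z)))))) (n 9 (n 0 (n 535 (n 0 z (n 0 z (n 0
 z (n 0 z (n 0 z (n 0 z z)))))) (n 533 (n 0 z (n 0 z (n 2 z (n 0 z (n 0 z z))))) z)) (n 0 (n 493
 (n 0 z (n 0 z (n 0 z (n 0 z (n 0 z (n 0 z (n 0 z z))))))) z) (n 0 z z))) (n 0 (n 0 z (n 1 (n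
 3212843 z (n 3212843 z (n 3212843 z (n 3212843 z (n 3212843 z (n 3212843 z z)))))) (n 0 z z)))
 (n 0 z z)))) (n 0x285a49a4211 (n 0 (n 203 (n 0 z (n 0 z (n 3282443 z (n 0 z (n 0 z (n 0 z (n 0
 z (n 0 z (n 0 z z))))))))) (n 255 (n 0 z (n 3278363 z (n 3278363 z (n
 0x8ca8c860076932a9a5a7539a0acdaa071f6e1a90898b6085e61f961aa96226707ed9a37719ed3a755e7a40801 z
 (n 0 z (n 0 z (n 0 z (n 0 z (n
 0x4ca8ca46036dc66595a91b860a559d87636e08978a099e8626dfa1d9a26217a57a48df62a9245e469d8a10801 z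
 (n 0xca8ca460379c6a289c85b86095999c72176085c86099e8a079f89e9216e17e47a389f7278e26a275f8610801 z
 (n 0x4ca6ca040379e76285d91c82091275e7a18227de82181f8218a07229647a27a186495e5aa96176281e8a40801
 z (n 0 z (n
 0xaca686040779d75d89f8db7a095585c6628207a07e195e8a092065e8a37a37e38648a066a9e176281f8630801 z
 (n 2 z z)))))))))))))) (n 197 (n 0 z (n 0 z (n 6628379 z (n 6628379 z (n 0 z (n 0 z (n 0 z
 z))))))) (n 3 (n 0 z (n 0 z (n 0 z (n 0 z (n 2164283 z (n 0 z (n 0 z z))))))) (n 1 (n 0 z (n 0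
 z (n 6559019 z (n 6559019 z (n 0 z (n
 0x4ca6c6200776072195c95d8a095579e82086389c91f7a07a081f6a38e46e07217a499f5a6aa16e269f8a10801 z
 (n 0 z (n 6559019 z (n 10 z (n
 0xaca4ca260365a5e799895a9609d281b85e6a391699b8de8216207e5aaa6e25e96699e14abae756461c8200801 z
 (n 0x2ca6a6240771b5e391c85b860a19a587226df89a85fa5d8e16df99e9636627677648606e88a462469e8a00801
 z (n 0 z (n
 0x2ca66204037e07df85f86082089e81e8217e081f8608208218208608607df8208218207a18617e07e18200801 z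
 (n 0 z z)))))))))))))) (n 0 (n 0 z (n 6628379 z (n 6628379 z (n 0 z (n 0 z (n 0 z z))))))
 z)))))) (n 0 (n 0 (n 483 (n 0 z (n 0 z (n 0 z (n 0 z (n 0 z (n 0 z (n 0 z (n 0 z z)))))))) z)
 (n 0 z z)) (n 0 (n 0 z (n 1 (n 6628379 z (n 6628379 z (n 6628379 z (n 6628379 z (n 6628379 z (n
 6628379 z z)))))) (n 1 (n 6628379 z (n 6628379 z (n 6628379 z (n 6628379 z (n 6628379 z (n
 6628379 z z)))))) (n 0 z (n 0 z (n 0 z z)))))) (n 0 z z)))) (n 0 (n 0 (n 203 (n 0 z (n 0 z (n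
 3282443 z (n 0 z (n 0 z (n 0 z z)))))) (n 255 (n 0 z (n 3278363 z (n 0 z (n 0 z (n 0 z (n 0 z
 z)))))) (n 197 (n 0 z (n 0 z (n 0 z (n 6628379 z (n 0 z (n 0 z (n 0 z z))))))) (n 3 (n 0 z (n 0
 z (n 0 z (n 0 z (n 2164283 z (n 0 z z)))))) (n 1 (n 0 z (n 6559019 z (n 0 z (n 0 z (n 0 z (n 0
 z (n 0 z (n 0 z (n 0 z (n 0 z (n 0 z (n 0 z z)))))))))))) (n 0 (n 0 z (n 0 z (n 6628379 z (n 0
 z (n 0 z (n 0 z z)))))) z)))))) (n 203 z (n 0 (n 0 z (n 0 z (n 1 (n 3282443 z (n 3282443 z (n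
 3282443 z (n 3282443 z (n 3282443 z (n 3282443 z z)))))) (n 0 z (n 0 z (n 0 z z)))))) (n 0 z
 z)))) (n 0x661eada0ec64e940 (n 0 (n 153 (n 2 z (n 0 z (n 0 z (n 3282443 z (n 4400651 z (n
 0xb2a328980c265264130192a42c806030190d90c8063321a18901c25326501039ca64c802077de81ea267d58a28977e59a56e0865ce386479f7a2a685557a4a5ea2a6d789639871c574a253801
 z (n 0 z z))))))) (n 33 (n 6357803 z (n 0 z (n 0 z (n 0 z (n 0 z (n 0 z (n 0 z (n 3278363 z (n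
 4400667 z (n 0 z (n
 0x6ca2a4060781f85c82182072381d82089e8208a189f8238dd89a86261d7d875f8e475c99d8a071f6a691d0801 z
 z))))))))))) (n 9 (n 0 z (n 0 z (n 6496523 z (n 0 z (n 0 z z))))) (n 3 (n 0 z (n 0 z (n 10 z (n
 18 z (n 6496523 z (n 0 z z)))))) (n 1 (n 0 z (n 2164299 z (n 0 z (n 0 z z)))) (n 0 (n 0 z (n
 2164315 z (n 0 z (n 0 z (n 0 z z))))) z)))))) (n 1 (n 0 (n 185 (n 0 z (n 0 z (n 0 z (n 0 z (n 0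
 z (n 0 z (n 0 z (n 0 z (n 0 z (n 0 z (n 0 z (n 0 z (n 0 z (n 0 z (n 0 z (n 0 z (n 0 z (n 0 z (n
 0 z (n 0 z z)))))))))))))))))))) (n 185 (n 0 z (n 0 z (n 0 z (n 0 z (n 0 z (n 0 z (n 0 z (n 0 z
 (n 0 z (n 0 z (n 0 z (n 0 z (n 0 z (n 0 z (n 0 z (n 0 z (n 0 z (n 0 z (n 0 z (n 0 z
 z)))))))))))))))))))) z)) (n 0 (n 0 z z) (n 0 z z))) (n 0 (n 0 z (n 1 (n 2164299 z (n 2164299 z
 (n 2164299 z (n 2164299 z (n 2164299 z (n 2164299 z z)))))) (n 0 z (n 0 z z)))) (n 0 z z)))) (n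
 0xc8c96140c4f2122 (n 0 (n 467 (n 3282443 z (n 0 z (n 0 z (n 0 z (n 0 z (n 0 z (n 0 z (n 0 z
 z)))))))) (n 478 (n 3278363 z (n 0 z (n 0 z z))) (n 171 (n 0 z (n
 0x199519500061ac86c8200756908c8d6f7f2d91499ac174748187719d79657a716382a89882a59b745f9162a382b3465a5aa280917ba59f8e7b86727b901009
 z (n 0 z (n
 0x10ca8c8600771937c6d7d7f818376798675868a898673807c78789a878377817e8675868379968a6a776794907c8b697da18b875f7ba2700809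
 z (n 2 z (n 0 z (n 10 z (n 0 z (n 0 z (n 3212843 z (n 0 z z))))))))))) (n 3 (n 2164283 z (n 0 z
 (n 0 z (n 0 z (n 0 z z))))) (n 1 (n 2164299 z (n 0 z (n 0 z (n 0 z z)))) (n 0 (n 0 z (n 2164315
 z (n 0 z (n 0 z (n 0 z (n 0 z (n 0 z (n 18 z (n 0 z (n 0 z z)))))))))) z)))))) (n 478 (n 0 (n 0
 z (n 341 (n 0 z (n 0 z (n 0 z (n 0 z (n 0 z z))))) z)) (n 0 (n 349 (n 0 z (n 0 z (n 0 z (n 0 z
 (n 0 z (n 0 z (n 0 z (n 0 z (n 0 z (n 0 z (n 0 z z))))))))))) z) (n 0 z z))) (n 0 (n 1 (n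
 3278363 z (n 3278363 z (n 3278363 z (n 3278363 z (n 3278363 z (n 3278363 z z)))))) (n 0 z (n 0
 z z))) (n 0 z z)))) (n 0x6193334c813b3609 (n 0 (n 333 (n 3282443 z (n 0 z (n 0 z z))) (n 317 (n
 3278363 z (n 0 z (n 0 z (n 2 z (n 10 z z))))) (n 173 (n 3212843 z (n 0 z (n 0 z z))) (n 27 (n 0
 z (n 2164283 z (n 0 z (n 0 z z)))) (n 1 (n 0 z (n 2164299 z (n 0 z (n 0 z (n
 0x4ca2ca06038218617e08208207df7a081f8228208208a282186082182086186086082082182081f8208210801 z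
 (n 0 z (n 0 z (n 0 z (n 0 z (n 0 z (n 0 z (n 0 z (n 18 z z))))))))))))) (n 0 (n 2164315 z (n 0
 z (n 0 z (n 0 z (n
 0x4c86c860037e081f7e08607df79f7e18208227e181f8207a18208218218207e081f8218208208208207e10801 z
 (n 0 z (n 0 z (n 0 z (n 0 z (n 0 z (n 0 z (n 0 z (n 0 z (n
 0x265442130184c86c8200379f81f7e07a07a37df7e18208617e07e08218608208208207e08608618607e082081f8608601001
 z z)))))))))))))) z)))))) (n 333 (n 0 (n 0 z (n 3 (n 0 z (n 0 z (n 0 z (n 0 z (n 0 z z))))) z))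
 (n 0 (n 51 (n 0 z (n 0 z (n 0 z (n 0 z z)))) z) (n 0 z z))) (n 0 (n 1 (n 3282443 z (n 3282443 z
 (n 3282443 z (n 3282443 z (n 3282443 z (n 3282443 z z)))))) (n 0 z (n 0 z z))) (n 0 z z)))) (n
 0 (n 0 (n 663 (n 0 z (n 0 z (n 3282443 z (n 0 z z)))) (n 339 (n 0 z (n 0 z (n 3278363 z (n 0 z
 (n 0 z (n 0 z (n 0 z z))))))) (n 9 (n 0 z (n 3212843 z (n 0 z (n 0 z (n 0 z z))))) (n 3 (n
 0x1994588100e08ca2a40807827c80817f7e827f7f8581827f8081807e828180837e837b827f81807e8181837f7f80818183837d7f80817f82807d7f837c1009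
 z (n 0 z (n 0 z (n 0 z (n 0 z (n 0 z (n 0 z (n 2164283 z (n
 0x1065265140182328b28201c0d95195080612ca8ca8207827174818f70845dab8295868376698ea17476a66f76638d82867a7d8583807486818d7b857280808a86826e827c967877822009
 z (n
 0x5320b10281c019519484060aca6a842037f7d7d7c808584837c7d838382857a7c7f837c7d8b827f7b7f837a8382857e81837e827f7a7d8280817a8880817e7d7b7e801809
 z (n 0 z (n 0 z (n 0 z z))))))))))))) (n 1 (n 0 z (n 0 z (n 6636299 z z))) (n 0 (n 0 z (n 0 z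
 (n 0 z (n 0 z (n 0 z (n 0 z (n 0 z (n
 0xab28990201c0190d90040604c84c802078b7d7a83807e83787e88797e7c7987817f81847e757d8283807e857a7f7f818187828c8582807e807e837680898580817e7e1809
 z (n 0 z (n 6636299 z z)))))))))) z)))))) (n 1 z (n 0 (n 0 z (n 0 z (n 1 (n 6636299 z (n
 6636299 z (n 6636299 z (n 6636299 z (n 6636299 z (n 6636299 z z)))))) z))) (n 0 z z)))) (n 0 (n
 0 (n 689 (n 0 z (n 3282443 z (n 0 z (n 0 z (n 0 z (n 0 z z)))))) (n 461 (n 0 z (n 3278363 z (n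
 0 z (n 0 z (n 0 z z))))) (n 460 (n 0 z (n 0 z (n 0 z (n 0 z (n 0 z (n 3212843 z (n 0 z z)))))))
 (n 3 (n 0 z (n 2164283 z (n 0 z (n 0 z (n 0 z z))))) (n 1 (n 0 z (n 0 z (n 2164299 z (n 0 z (n
 0 z z))))) (n 0 (n 0 z (n 0 z (n 0 z (n 0 z (n 0 z (n 0 z (n 0 z (n 2164315 z (n 0 z (n 0 z
 z)))))))))) z)))))) (n 461 z (n 0 (n 0 z (n 1 (n 3278363 z (n 3278363 z (n 3278363 z (n 3278363
 z (n 3278363 z (n 3278363 z z)))))) (n 0 z (n 0 z (n 0 z z))))) (n 0 z z)))) (n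
 0x1088cb30169990348c8422642c0 (n 0 (n 573 (n 0 z (n 2 z (n 3282443 z (n 0 z z)))) (n 437 (n 10
 z (n 3278363 z (n 0 z (n 0 z (n 0 z z))))) (n 433 (n 18 z (n 0 z (n 0 z (n 3212843 z (n 0 z
 z))))) (n 3 (n 26 z (n 0 z (n 0 z (n 0 z (n 34 z (n 0 z (n 2164283 z z))))))) (n 1 (n 0 z (n 0
 z (n 0 z (n 0 z (n 2164299 z z))))) (n 0 (n 0 z (n 0 z (n 0 z (n 0 z (n 2164315 z (n 0 z
 z)))))) z)))))) (n 573 (n 0 (n 215 (n 0 z (n 0 z (n 0 z (n 0 z (n 0 z (n 0 z (n 0 z (n 0 z (n 0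
 z z))))))))) (n 203 (n 0 z (n 0 z (n 0 z (n 0 z (n 0 z (n 0 z z)))))) (n 87 (n 0 z (n 0 z (n 0
 z z))) (n 87 (n 0 z (n 0 z (n 0 z z))) z)))) (n 0 (n 867 (n 0 z (n 0 z (n 0 z (n 0 z (n 0 z
 z))))) (n 327 (n 0 z (n 0 z (n 0 z (n 0 z (n 0 z z))))) (n 327 (n 0 z (n 0 z (n 0 z (n 0 z (n 0
 z z))))) z))) (n 0 (n 7 (n 0 z (n 0 z (n 0 z z))) (n 7 (n 0 z (n 0 z (n 0 z z))) z)) (n 0 (n 0
 z z) (n 0 z z))))) (n 0 (n 0 z (n 1 (n 3500 z (n 12 z (n 3500 z (n 3500 z (n 3500 z (n 3500 z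
 z)))))) (n 1 (n 3282443 z (n 3282443 z (n 3282443 z (n 3282443 z (n 3282443 z (n 3282443 z
 z)))))) (n 0 z z)))) (n 0 z z)))) z)))))))))), by decide +kernel⟩
theorem i10212 : ∃ t, chkR KT RW t 10212 10222 = true := ⟨(n 0x6acba0b2cd61966320b2d96194cb2c0
 (n 0 (n 593 (n 3282443 z (n 0 z (n 0 z (n 2 z (n 0 z z))))) (n 33 (n 0 z (n 0 z (n 0 z (n 0 z
 (n 3278363 z (n 0 z z)))))) (n 9 (n 10 z (n 0 z (n 3212843 z (n 0 z (n 0 z (n 0 z (n 0 z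
 z))))))) (n 27 (n 0 z (n 0 z (n 18 z (n 0 z (n 0 z (n 0 z (n 0 z (n 0 z (n 2164283 z z)))))))))
 (n 1 (n 2164299 z (n 26 z (n 0 z (n 0 z z)))) (n 0 (n 34 z (n
 0x7188431b108a262186827d906d8c7a8b6d8e8582777e76848582798b6e83827d85888c948a79818072977d7c726d8a8f7f72717d8c73a38a6b8000c9
 z (n 0 z (n 0 z (n 2164315 z (n
 0x918c03db180ca63087837c94688f798f69908682757e74848682778f6a84837c878a8f9a8c76827f6f9d7c7b6f698c937f6f6d7c906fab8d668100c9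
 z (n 0 z (n 0 z (n 0 z (n 0 z (n 0 z (n 42 z (n 0 z z))))))))))))) z)))))) (n 1 (n 0 (n 1005 (n
 0 z (n 0 z (n 0 z (n 0 z (n 0 z (n 0 z (n 0 z z))))))) (n 165 (n 0 z (n 0 z (n 0 z (n 0 z (n 0
 z (n 0 z (n 0 z (n 0 z (n 0 z (n 0 z (n 0 z (n 0 z (n 0 z (n 0 z (n 0 z (n 0 z (n 0 z
 z))))))))))))))))) (n 483 (n 0 z (n 0 z (n 0 z (n 0 z (n 0 z (n 0 z (n 0 z (n 0 z (n 0 z
 z))))))))) (n 73 (n 0 z (n 0 z (n 0 z (n 0 z (n 0 z z))))) (n 73 (n 0 z (n 0 z (n 0 z (n 0 z (n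
 0 z z))))) z))))) (n 0 (n 507 (n 0 z (n 0 z (n 0 z (n 0 z (n 0 z (n 0 z (n 0 z (n 0 z (n 0 z (n
 0 z (n 0 z (n 0 z (n 0 z (n 0 z (n 0 z (n 0 z (n 0 z (n 0 z (n 0 z z))))))))))))))))))) (n 51
 (n 0 z (n 0 z (n 0 z (n 0 z (n 0 z (n 0 z (n 0 z (n 0 z (n 0 z (n 0 z (n 0 z z))))))))))) (n 49
 (n 0 z (n 0 z (n 0 z (n 0 z (n 0 z (n 0 z (n 0 z (n 0 z (n 0 z (n 0 z z)))))))))) (n 49 (n 0 z
 (n 0 z (n 0 z (n 0 z (n 0 z (n 0 z (n 0 z (n 0 z (n 0 z (n 0 z z)))))))))) z)))) (n 0 (n 63 (n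
 0 z (n 0 z (n 0 z (n 0 z (n 0 z (n 0 z (n 0 z (n 0 z (n 0 z (n 0 z (n 0 z (n 0 z z))))))))))))
 (n 61 (n 0 z (n 0 z (n 0 z (n 0 z (n 0 z (n 0 z (n 0 z (n 0 z z)))))))) (n 61 (n 0 z (n 0 z (n
 0 z (n 0 z (n 0 z (n 0 z (n 0 z (n 0 z z)))))))) z))) (n 0 (n 73 (n 0 z (n 0 z (n 0 z (n 0 z (n
 0 z (n 0 z (n 0 z (n 0 z (n 0 z (n 0 z (n 0 z (n 0 z (n 0 z (n 0 z (n 0 z (n 0 z (n 0 z (n 0 z
 (n 0 z (n 0 z (n 0 z (n 0 z (n 0 z (n 0 z (n 0 z (n 0 z (n 0 z (n 0 z (n 0 z (n 0 z (n 0 z (n 0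
 z (n 0 z (n 0 z (n 0 z (n 0 z (n 0 z (n 0 z (n 0 z (n 0 z (n 0 z (n 0 z (n 0 z (n 0 z (n 0 z (n
 0 z (n 0 z z))))))))))))))))))))))))))))))))))))))))))))))) (n 73 (n 0 z (n 0 z (n 0 z (n 0 z
 (n 0 z (n 0 z (n 0 z (n 0 z (n 0 z (n 0 z (n 0 z (n 0 z (n 0 z (n 0 z (n 0 z (n 0 z (n 0 z (n 0
 z (n 0 z (n 0 z (n 0 z (n 0 z (n 0 z (n 0 z (n 0 z (n 0 z (n 0 z (n 0 z (n 0 z (n 0 z (n 0 z (n
 0 z (n 0 z (n 0 z (n 0 z (n 0 z (n 0 z (n 0 z (n 0 z (n 0 z (n 0 z (n 0 z (n 0 z (n 0 z (n 0 z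
 (n 0 z (n 0 z z))))))))))))))))))))))))))))))))))))))))))))))) z)) (n 0 (n 0 z z) (n 0 z
 z)))))) (n 0 (n 1 (n 2164299 z (n 2164299 z (n 2164299 z (n 2164299 z (n 2164299 z (n 2164299 z
 z)))))) (n 1 (n 268 z (n 4748 z (n 5517667 z (n 4748 z (n 4392475 z (n 4748 z z)))))) (n 0 z (n
 0 z z)))) (n 0 z z)))) (n 0xda4ab0d251b0926db092 (n 0 (n 573 (n 3282443 z (n 0 z (n 0 z (n 0 z
 (n
 0xaca6a864038047fe7fe8017fd8018007fe8008007ff8008008008018008007ff7fe8028028008017ff8007ff7ff8017ff8008037fe8008018008007ff8018008008008018017fe7ff7ff8008008008000811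
 z (n
 0xca6ca64038028007ff8017fe7fe8008008008007ff8008008008018028007ff8008018017ff8008008007ff8008008008008027ff8008008008007ff8008018007fe8008008008008018008008018000811
 z (n 0 z z))))))) (n 33 (n 0 z (n 3278363 z z)) (n 129 (n 2 z (n 0 z (n 0 z (n 0 z (n 0 z (n 0
 z (n 0 z (n 0 z (n 3212843 z (n 0 z (n 0 z z))))))))))) (n 3 (n 0 z (n 0 z (n 0 z (n 0 z (n
 2164283 z (n 10 z (n 0 z (n 0 z (n 0 z (n 0 z z)))))))))) (n 1 (n 2164299 z (n 18 z (n 0 z z)))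
 (n 0 (n 0 z (n
 0xa6218018008008007ff8008018008018007ff8008008008018008008007ff8008008018018008008008008008008008008008008008008008008018008008008008007ff8008008008008008000051
 z (n
 0x11a62181286a7af7558b77948ac7388ad8008007cd74b7fd7ac8558cb7bf7f17f17cf8017da80283f7b181186381f7ab86387d80980d78077987077a81d7ef81676f85a7d28377cd8a277d8088040051
 z (n 2164315 z (n 0 z (n 0 z (n 26 z (n
 0xa6308018008008007ff8008018008018007ff8008008008018008008007ff8008008018018008008008008008008008008008008008008008008018008008008008007ff8008008008008008000051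
 z (n 0 z (n 0 z (n 0 z (n
 0xa6208018008008007ff8008018008018007ff8008008008018008008007ff8008008018018008008008008008008008008008008008008008008018008008008008007ff8008008008008008000051
 z (n 0 z (n 0 z (n
 0x41b08009a6108088117ea7e18227f68177d58178007f98017ef80e8008028137f47f28167ee8158068028097f28128148018018217fc7fd7fe7f17e28007e98077f88167e58177ff80f7fd80a7e58037ec0091
 z (n 0 z (n 0 z (n 0 z (n 0 z (n 0 z z)))))))))))))))))))) z)))))) (n 33 (n 0 (n 247 (n 0 z (n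
 0 z (n 0 z (n 0 z (n 0 z (n 0 z (n 0 z (n 0 z (n 0 z (n 0 z (n 0 z (n 0 z z)))))))))))) (n 243
 (n 0 z (n 0 z (n 0 z (n 0 z (n 0 z (n 0 z (n 0 z (n 0 z (n 0 z z))))))))) (n 241 (n 0 z (n 0 z
 (n 0 z (n 0 z (n 0 z (n 0 z (n 0 z (n 0 z z)))))))) z))) (n 0 (n 3 (n 0 z (n 0 z (n 0 z (n 0 z
 z)))) (n 1 (n 0 z (n 0 z (n 0 z (n 0 z (n 0 z (n 0 z (n 0 z z))))))) z)) (n 0 (n 5 (n 0 z (n 0
 z (n 0 z (n 0 z (n 0 z z))))) z) (n 0 z z)))) (n 0 (n 0 z (n 1 (n 3278363 z (n 3278363 z (n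
 3278363 z (n 3278363 z (n 3278363 z (n 3278363 z z)))))) z)) (n 0 z z)))) (n
 0x2988d0d532834a55105268d092 (n 0 (n 207 (n 0 z (n 0 z (n 0 z (n 3282443 z z)))) (n 33 (n 0 z
 (n 0 z (n 3278363 z (n 0 z z)))) (n 129 (n 0 z (n 2 z (n 0 z (n 3212843 z (n 0 z (n 0 z (n 0 z
 (n 0 z (n 0 z z))))))))) (n 3 (n 10 z (n 0 z (n 2164283 z z))) (n 1 (n 0 z (n 0 z (n 2164299 z
 z))) (n 0 (n 18 z (n 26 z (n 2164315 z (n 34 z z)))) z)))))) (n 3 (n 0 (n 645 (n 0 z (n 0 z (n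
 0 z (n 0 z (n 0 z (n 0 z z)))))) (n 241 (n 0 z (n 0 z (n 0 z (n 0 z (n 0 z (n 0 z z)))))) (n
 241 (n 0 z (n 0 z (n 0 z (n 0 z (n 0 z (n 0 z z)))))) (n 241 (n 0 z (n 0 z (n 0 z (n 0 z (n 0 z
 (n 0 z z)))))) z)))) (n 0 (n 493 (n 0 z (n 0 z (n 0 z (n 0 z (n 0 z (n 0 z (n 0 z (n 0 z (n 0 z
 (n 0 z (n 0 z (n 0 z (n 0 z (n 0 z (n 0 z (n 0 z (n 0 z (n 0 z (n 0 z (n 0 z
 z)))))))))))))))))))) (n 493 (n 0 z (n 0 z (n 0 z (n 0 z (n 0 z (n 0 z (n 0 z (n 0 z (n 0 z (n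
 0 z (n 0 z (n 0 z (n 0 z (n 0 z (n 0 z (n 0 z (n 0 z (n 0 z (n 0 z (n 0 z z))))))))))))))))))))
 (n 493 (n 0 z (n 0 z (n 0 z (n 0 z (n 0 z (n 0 z (n 0 z (n 0 z (n 0 z (n 0 z (n 0 z (n 0 z (n 0
 z (n 0 z (n 0 z (n 0 z (n 0 z (n 0 z (n 0 z (n 0 z z)))))))))))))))))))) z))) (n 0 (n 0 z (n 0
 z z)) (n 0 (n 0 z z) (n 0 z z))))) (n 0 (n 1 (n 1660 z (n 5443683 z (n 1660 z (n 1660 z (n 1660
 z (n 1660 z z)))))) (n 0 z (n 1 (n 2164283 z (n 2164283 z (n 2164283 z (n 2164283 z (n 2164283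
 z (n 2164283 z z)))))) z))) (n 0 z z)))) (n 0x4a66b2132d60636c90ca (n 0 (n 347 (n 0 z (n 0 z (n
 0 z (n 0 z (n 0 z (n 3282443 z (n 0 z z))))))) (n 263 (n 0 z (n 3278363 z z)) (n 9 (n 0 z (n
 3212843 z (n 2 z z))) (n 27 (n 10 z (n 18 z (n 2164283 z (n 0 z z)))) (n 1 (n 0 z (n 0 z (n 0 z
 (n 2164299 z (n 0 z z))))) (n 0 (n 26 z (n 0 z (n 0 z (n 0 z (n 2164315 z (n 0 z (n 0 z (n 0 z
 z)))))))) z)))))) (n 263 (n 0 (n 507 (n 0 z (n 0 z (n 0 z (n 0 z (n 0 z (n 0 z (n 0 z (n 0 z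
 z)))))))) (n 507 (n 0 z (n 0 z (n 0 z (n 0 z (n 0 z (n 0 z (n 0 z (n 0 z z)))))))) (n 581 (n 0
 z (n 0 z (n 0 z (n 0 z (n 0 z (n 0 z (n 0 z (n 0 z (n 0 z (n 0 z (n 0 z z))))))))))) z))) (n 0
 (n 0 z (n 49 (n 0 z (n 0 z (n 0 z (n 0 z (n 0 z (n 0 z (n 0 z z))))))) z)) (n 0 (n 61 (n 0 z (n
 0 z (n 0 z (n 0 z (n 0 z (n 0 z (n 0 z (n 0 z (n 0 z (n 0 z (n 0 z z))))))))))) z) (n 0 z z))))
 (n 0 (n 0 z (n 1 (n 3278363 z (n 3278363 z (n 3278363 z (n 3278363 z (n 3278363 z (n 3278363 z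
 z)))))) z)) (n 0 z z)))) (n 0x19486886156410a721052 (n 0 (n 203 (n 0 z (n 0 z (n 3282443 z (n 0
 z z)))) (n 255 (n 0 z (n 0 z (n 3278363 z (n 0 z (n 3278363 z (n 0 z (n 0 z (n 0 z z)))))))) (n
 197 (n 0 z (n 2 z (n 3212843 z (n 0 z (n 0 z z))))) (n 3 (n 0 z (n 10 z (n 0 z (n 0 z (n
 2164283 z z))))) (n 1 (n 0 z (n 0 z (n 0 z (n 0 z (n 0 z (n 2164299 z (n 0 z (n 3278411 z (n 0
 z (n 0 z (n 0 z (n 0 z (n 0 z (n 0 z (n 0 z (n 0 z (n 0 z (n 0 z (n 0 z (n 0 z (n 0 z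
 z))))))))))))))))))))) (n 0 (n 2164315 z (n 0 z (n 0 z (n 18 z (n 0 z (n 0 z (n 0 z (n 26 z (n
 0 z z))))))))) z)))))) (n 203 (n 0 (n 295 (n 0 z (n 0 z (n 0 z (n 0 z (n 0 z z))))) (n 293 (n 0
 z (n 0 z (n 0 z (n 0 z (n 0 z (n 0 z (n 0 z (n 0 z (n 0 z (n 0 z (n 0 z z))))))))))) (n 293 (n
 0 z (n 0 z (n 0 z (n 0 z (n 0 z (n 0 z (n 0 z (n 0 z (n 0 z (n 0 z (n 0 z z))))))))))) z))) (n
 0 (n 257 (n 0 z (n 0 z (n 0 z (n 0 z (n 0 z (n 0 z (n 0 z (n 0 z (n 0 z (n 0 z (n 0 z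
 z))))))))))) (n 257 (n 0 z (n 0 z (n 0 z (n 2 z (n 0 z (n 0 z (n 0 z (n 0 z (n 0 z (n 0 z (n 0
 z z))))))))))) z)) (n 0 (n 0 z z) (n 0 z z)))) (n 0 (n 0 z (n 0 z (n 1 (n 3282443 z (n 3282443
 z (n 3282443 z (n 3282443 z (n 3282443 z (n 3282443 z z)))))) (n 0 z z)))) (n 0 z z)))) (n
 0x18d538c195c4242639826ac6094e6a19 (n 0 (n 597 (n 6561843 z (n 0 z (n 0 z z))) (n 581 (n
 0xcca28406038207e17e185f8a37a38629a07a092382079f7a27e185f8218607de82085f82181e7e18607de0801 z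
 (n 0 z (n 3278363 z (n 0 z (n 6358075 z (n
 0x2a84ca26038208208208208208208218208218608208208208208208208208208207e08208208208618200801 z
 (n 0 z (n
 0x265364320184a86c8240781e89d81e82482379f8e386165c9227df6e17e27e17e382171e8609217a18238616628a18201001
 z (n 2 z (n
 0x2a84ca260382081f81f7e08218208218208218618207e082082082182182182082082086081f7e18207a00801 z
 (n 0xaca6c864038208e08d88627e385e8a17a265d8df81e7227e27d57ee6a375d8218e06e07a58a15e48a38a40801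
 z z))))))))))) (n 580 (n 10 z (n 0 z (n 0 z (n 0 z (n 0 z (n 0 z (n 0 z (n 0 z (n 6562571 z (n
 0 z (n
 0x2ca6a8620381f8607a08217e185f8227e17a181f7df76181f8208208217a08208e07608628607228628200801 z
 (n 18 z (n 6566403 z (n 6566403 z (n 6566403 z (n 6566403 z (n 0 z (n 0 z (n
 0x2ca6ca020381f85c79c82096389f7e486675e86279c71f85b85b7e77e08e185d8207e396375f7e385d85d0801 z
 (n 0 z (n 0 z (n 0 z (n
 0xca6ca62038207e081f8208208208208607e082082082082079f8617e085f8208208618208208208208200801 z (n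
 0xca6ca62038207e07e082082082182186082186082082082079f8217e08608208208208208208208208200801 z (n
 6562571 z (n 0 z (n 0 z (n 0 z z)))))))))))))))))))))))))))) (n 3 (n 0 z (n 0 z (n 0 z (n
 6566403 z z)))) (n 1 (n 6566403 z (n 0 z (n 6566403 z (n 0 z (n 6566403 z (n 0 z (n 0 z (n 0 z
 (n 6562571 z (n 6566403 z (n 26 z (n
 0x2c84a6420382186081f81f86085e8227e185f81f7e085f81d89e81f81f8218a17e082285f7e086079f8200801 z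
 (n 34 z (n 42 z (n
 0x2ca6a642078208207df8218227e08208607a186181f7a07e07df8217e182082086082182281f7a18217e00801 z
 (n 0 z (n 0 z (n
 0x5949944c061b28b28180c165365320188ca6ca24070194d9484061b29319080c164353210384ca4ca40078188e269b79a8e94ab859ea15e5c2d9e36585e66e09919629e18556e7cd472191471f8d95e04001
 z (n
 0xca4ca260301945940c060329b28901c065365210180c86a6420782081f8208208208217e18607e08618207e082181f82182186081f82082086181f7e08208202801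
 z (n 0 z (n 0 z (n
 0x2ca6ca620382081f7de85f9618617a08627e07e179d79d81d81c86679f8e381d79f86192079f7e27a085d0801 z
 (n 0 z (n 6566403 z (n 6566403 z z))))))))))))))))))))))))) (n 0 (n 0 z (n 6636307 z (n 6636307
 z (n 0 z (n
 0xc84c8420382082081f7e08208208208208208208208208207df8617e086082082086081f82082081f8200801 z (n
 0 z (n 0 z (n 0 z (n 0 z z))))))))) z)))))) (n 597 (n 0 (n 1161 (n 0 z (n 0 z (n 0 z (n 0 z (n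
 0 z (n 0 z (n 0 z (n 0 z (n 0 z (n 0 z (n 0 z (n 0 z (n 0 z (n 0 z (n 0 z (n 0 z (n 7741763 z
 (n 0 z (n 0 z (n 0 z (n 0 z (n 0 z (n 0 z (n 0 z (n 0 z (n 0 z (n 0 z (n 0 z (n 0 z (n 0 z (n 0
 z (n 0 z z)))))))))))))))))))))))))))))))) (n 1161 (n 0 z (n 0 z (n 0 z (n 0 z (n 0 z (n 0 z (n
 0 z (n 0 z (n 0 z (n 0 z (n 0 z (n 0 z (n 0 z (n 0 z (n 0 z (n 0 z (n 0 z (n 0 z (n 0 z (n 0 z
 (n 0 z (n 0 z (n 0 z (n 0 z (n 0 z (n 0 z (n 0 z (n 0 z (n 0 z (n 0 z (n 0 z (n 0 z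
 z)))))))))))))))))))))))))))))))) (n 117 (n 0 z (n 0 z (n 0 z (n 0 z (n 0 z (n 0 z (n 0 z (n 0
 z (n 0 z (n 0 z (n 0 z (n 0 z (n 0 z (n 0 z (n 0 z (n 0 z z)))))))))))))))) (n 117 (n 0 z (n 0
 z (n 0 z (n 0 z (n 0 z (n 0 z (n 0 z (n 0 z (n 0 z (n 0 z (n 0 z (n 0 z (n 0 z (n 0 z (n
 0xf763762503819bb2bb2981c031d95948c06002ea4ca2603008765765203803bb2329901c0ddd4dd44806000ea8a6240701f651750203802328a98100c029d4dd4840601eea4ea420701975275010380bba9a98081c025d89d88006016ecaca400380081786f7b28307d582584981c84d7fb73789a8737a986a70f74e82f8077c97c376184c80d7fc8888437219298348407a57a07ee81b8a98246c28417f787f7b081975e86b8658538568038011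
 z (n 0 z z)))))))))))))))) (n 117 (n 0 z (n 0 z (n 0 z (n 0 z (n 0 z (n 0 z (n 0 z (n 0 z (n 0
 z (n 0 z (n 0 z (n 0 z (n 0 z (n 0 z (n 0 z (n 0 z z)))))))))))))))) z))))) (n 0 (n 0 z (n 51
 (n 0 z (n 0 z (n 0 z (n 0 z (n 0 z (n 0 z (n
 0xaca6e8620381e7e17a27e48237e286091e7639248df65c7217a28dd8237e289e85e8e092089c6637a26e00801 z
 (n 0 z (n 0 z (n 0 z (n 0 z (n 0 z (n 0 z (n 0 z (n 0 z (n 0 z (n 0 z (n 0 z (n 0 z (n 0 z (n 0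
 z (n 0 z (n 0 z (n 0 z (n 0 z (n 0 z (n 0 z (n 0 z (n 0 z (n 0 z (n 0 z (n 0 z (n 0 z (n 0 z (n
 0 z (n 0 z z)))))))))))))))))))))))))))))))))))) (n 51 (n 0 z (n 0 z (n 0 z (n 0 z (n 0 z (n 0
 z (n 0 z (n 0 z (n 0 z (n 0 z (n 7603739 z (n 0 z (n 0 z (n 0 z (n 0 z (n 0 z (n 0 z (n 0 z (n
 0 z (n 0 z (n 0 z (n 0 z (n 0 z (n 0 z (n 0 z (n 0 z (n 0 z (n 0 z (n 0 z (n 0 z (n 0 z (n 0 z
 (n 0 z (n 0 z (n 0 z (n 0 z z)))))))))))))))))))))))))))))))))))) (n 51 (n 0 z (n 0 z (n 0 z (n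
 0 z (n 0 z (n 0 z (n 0 z (n 0 z (n 0 z (n 0 z (n 0 z (n 0 z (n 0 z (n 0 z (n
 0x2ec8c62a03001765765303801bb2b28981c009d89d40c0600aea6ea640701b7536531018043a93a9080c00550d94840e020a86c84207010753732101803ba9a99080c005d0d4c8406000ea6ec400780080c80780c81981281b7ef8187e78047e481e7f47f282280d7bf7e77f07f381283b80380d81d8258087f57e58137f48147e87f77f37e18208107f57c88027ec8258437e281f7ce81a7fa6811
 z (n 0 z (n 0 z (n 0 z (n 0 z (n 0 z (n 0 z (n 0 z (n 0 z (n 0 z (n 0 z (n 0 z (n 0 z (n 0 z (n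
 0 z (n 0 z (n 0 z (n 0 z (n 0 z (n 0 z (n 0 z (n 0 z z))))))))))))))))))))))))))))))))))))
 z)))) (n 0 (n 243 (n 0 z (n 0 z (n 0 z (n 0 z (n 0 z (n 0 z (n 0 z (n 0 z (n 0 z (n 0 z (n 0 z
 (n 0 z (n 0 z (n 0 z (n 0 z (n 0 z (n 0 z (n 0 z (n 0 z (n 0 z (n 0 z (n 0 z
 z)))))))))))))))))))))) (n 243 (n 0 z (n 0 z (n 0 z (n 0 z (n 0 z (n 0 z (n 0 z (n 0 z (n 0 z
 (n 0 z (n 0 z (n 0 z (n 0 z (n
 0x1dd8dd8140e006ecaeca6078008048127ed8007ee80780c80c8068037dd80d81b7f58267e57e980a8087ef7f17e98078087e18217e77e682a8088068017fd8027fe8178027db81080780b7ec7fb7fb80f8037f68087fa1011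
 z (n 0 z (n 0 z (n 0 z (n 0 z (n 0 z (n 0 z (n 0 z (n 0 z z)))))))))))))))))))))) (n 243 (n 0 z
 (n 0 z (n 0 z (n 0 z (n 0 z (n 0 z (n 0 z (n 0 z (n 0 z (n 0 z (n 0 z (n 0 z (n 0 z (n 0 z (n 0
 z (n 0 z (n 0 z (n 0 z (n 0 z (n 0 z (n 0 z (n 0 z z)))))))))))))))))))))) z))) (n 0 (n 0 z (n
 0 z z)) (n 0 (n 0 z z) (n 0 z z)))))) (n 0 (n 1 (n 6561843 z (n 6566403 z (n 6561843 z (n
 6561843 z (n 6561843 z (n 6561843 z z)))))) (n 0 z (n 0 z z))) (n 0 z z)))) (n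
 0x658ec0cd91077484195ca608d6b026ac60952b221 (n 0 (n 479 (n 0 z (n 6561843 z (n 0 z (n 0 z z))))
 (n 475 (n 0 z (n 2 z (n 0 z (n 0 z (n 3278363 z (n 0 z (n 0 z (n 0 z (n 0 z z))))))))) (n 474
 (n 10 z (n
 0x265454010380ca4a802038248a07e08208218e08a08608a08208228607e27217e27a089e7da8dd85d8a481e9238207a01001
 z (n 18 z (n
 0x26c801a64081f82086081f8217207e08208208228dd86189e99f75f8df5e56a47256a871f85e7e185f79b0081 z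
 (n 0 z (n 6566403 z (n 6566403 z (n 6566403 z (n 26 z (n 0 z z)))))))))) (n 3 (n 0 z (n 6566403
 z (n 0 z (n 0 z z)))) (n 1 (n 34 z (n
 0x65453210384ca4a642038248a07e08208218e08a08608a08208228607e27217e27a089e7da8dd85d8a481e9238207a01001
 z (n 42 z (n
 0x36c642263281f8208a081f8216e07e082086082291c8618dea1f71f8df5666656a66696df85e7a185f79a0081 z
 (n 0 z (n 6561843 z (n 6566403 z (n 6566403 z (n 50 z (n 0 z z)))))))))) (n 0 (n 0 z (n 58 z (n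
 0 z (n 0 z (n 6631947 z (n 0 z (n 0 z (n 0 z (n 0 z z))))))))) z)))))) (n 479 (n 0 (n 949 (n 0
 z (n 0 z (n 0 z (n 0 z (n 0 z (n 0 z (n 0 z (n 0 z (n 0 z (n 0 z (n 0 z (n 0 z (n 0 z (n 0 z (n
 0 z (n 0 z (n 0 z (n 0 z (n 0 z (n 0 z (n 0 z (n 0 z (n 0 z (n 0 z (n 0 z
 z))))))))))))))))))))))))) (n 949 (n 0 z (n 0 z (n 0 z (n 0 z (n 0 z (n 0 z (n 0 z (n 0 z (n 0
 z (n 0 z (n 0 z (n 0 z (n 0 z (n 0 z (n 0 z (n 0 z (n 0 z (n 0 z (n 0 z (n 0 z (n 0 z (n 0 z (n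
 0 z (n 0 z (n 0 z z))))))))))))))))))))))))) (n 949 (n 0 z (n 0 z (n 0 z (n 0 z (n 0 z (n 0 z
 (n 0 z (n 0 z (n 0 z (n 0 z (n 0 z (n 0 z (n 0 z (n 0 z (n 0 z (n 0 z (n 0 z (n 0 z (n 0 z (n 0
 z (n 0 z (n 0 z (n 0 z (n 0 z (n 0 z z))))))))))))))))))))))))) (n 543 (n
 0x1d9188140e03b2bb2801c065465400182ec8ca40038207e08208208208208208208208208207e08207e08208208208208208218208208228208202001
 z (n 0 z (n 0 z (n 0 z (n 0 z (n 0 z (n 0 z (n 0 z (n 0 z (n 0 z (n 0 z (n 0 z (n 0 z (n 0 z (n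
 0 z (n 0 z (n 0 z (n 0 z (n 0 z (n 0 z (n 0 z (n 0 z (n 0 z (n 0 z (n 0 z (n 0 z (n 0 z (n 0 z
 z)))))))))))))))))))))))))))) (n 543 (n 0 z (n 0 z (n 0 z (n 0 z (n 0 z (n 0 z (n 0 z (n 0 z (n
 0 z (n 0 z (n 0 z (n 0 z (n 0 z (n 0 z (n 0 z (n 0 z (n 0 z (n 0 z (n 0 z (n 0 z (n 0 z (n 0 z
 (n 0 z (n 0 z (n 0 z (n 0 z (n 0 z (n 0 z z)))))))))))))))))))))))))))) (n 543 (n 0 z (n 0 z (n
 0 z (n 0 z (n 0 z (n 0 z (n 0 z (n 0 z (n 0 z (n 0 z (n 0 z (n 0 z (n 0 z (n 0 z (n 0 z (n 0 z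
 (n 0 z (n 0 z (n 0 z (n 0 z (n 0 z (n 0 z (n 0 z (n 0 z (n 0 z (n 0 z (n 0 z (n 0 z
 z)))))))))))))))))))))))))))) (n 541 (n
 0x864ea0c0301d490c18060320ba8100c074243210180ec6ec60038208208208208208217e082082082082082081f7e085f7e182082082086181f8207e08608202801
 z (n 0 z (n 0 z (n 0 z (n 0 z (n 0 z (n 0 z (n 0 z (n 0 z (n 0 z (n 0 z (n 0 z z))))))))))))
 z))))))) (n 0 (n 0 z (n 0 z (n 51 (n 7603739 z (n 0 z (n 0 z (n 0 z (n 0 z (n 0 z (n 0 z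
 z))))))) (n 51 (n 0 z (n 0 z (n 0 z (n 0 z (n 0 z (n 0 z (n 0 z z))))))) (n 51 (n 0 z (n 0 z (n
 0 z (n 0 z (n 2 (n 1 z z) (n 0 z (n 0 z z))))))) (n 49 (n
 0x5d89d04c0603b1bb1881c074376210180e64e642038207e08208208208208208208208208207e08207e08208208208208208218208208228208202001
 z (n 0 z (n 0 z (n 0 z (n 0 z (n 0 z (n 0 z (n 0 z (n 0 z (n 0 z (n 0 z (n 0 z (n 0 z (n 0 z (n
 0 z z))))))))))))))) z)))))) (n 0 (n 0 z (n 243 (n 0 z (n 0 z (n 0 z (n 0 z (n 0 z (n 0 z (n 0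
 z (n 0 z (n 0 z (n 0 z z)))))))))) (n 243 (n 0 z (n 0 z (n 0 z (n 0 z (n 0 z (n 0 z (n 0 z (n 0
 z (n 0 z (n 0 z z)))))))))) (n 243 (n 0 z (n 0 z (n 0 z (n 0 z (n 0 z (n 0 z (n 0 z (n 0 z (n 0
 z (n 0 z z)))))))))) (n 241 (n 0 z (n 0 z (n 0 z (n 0 z (n 0 z (n 0 z (n 0 z (n 0 z (n 0 z (n 0
 z (n 0 z (n 0 z z)))))))))))) z))))) (n 0 (n 15 (n 2 (n 0 z (n 0 z (n 1 z z))) (n 0 z (n 0 z (n
 0 z (n 0 z (n 0 z (n 0 z (n 0 z z)))))))) (n 15 (n 0 z (n 0 z (n 0 z (n 0 z (n 0 z (n 0 z (n 0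
 z (n 0 z z)))))))) (n 15 (n 0 z (n 0 z (n 0 z (n 0 z (n 0 z (n 0 z (n 0 z (n 0 z z)))))))) (n
 1061 (n 0 z (n 0 z (n 0 z (n 0 z (n 0 z (n 0 z (n 0 z (n 0 z (n 0 z (n 0 z (n 0 z (n 0 z (n 0 z
 (n 0 z (n 0 z (n 0 z (n 0 z (n 0 z (n 0 z (n 0 z (n 0 z (n 0 z (n 0 z (n 0 z (n 0 z (n 0 z (n 0
 z (n 0 z z)))))))))))))))))))))))))))) z)))) (n 0 (n 0 z (n 0 z (n 1 (n 0 z (n 0 z (n 0 z (n 0
 z (n 0 z (n 0 z (n 0 z (n 0 z (n 0 z (n 0 z (n 0 z (n 0 z (n 0 z (n 0 z (n 0 z (n 0 z (n 0 z (n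
 0 z (n 0 z (n 0 z (n 0 z (n 0 z (n 0 z (n 0 z (n 0 z (n 0 z (n 0 z (n 0 z (n 0 z (n 0 z (n 0 z
 (n 0 z (n 0 z (n 0 z (n 0 z (n 0 z (n 0 z (n 0 z (n 0 z (n 0 z (n 0 z (n 0 z (n 0 z (n 0 z (n 0
 z (n 0 z z)))))))))))))))))))))))))))))))))))))))))))))) z))) (n 0 (n 0 z (n 1 (n 0 z (n 0 z
 z)) z)) (n 0 (n 649 (n 0 z (n 0 z (n 0 z (n 0 z (n 0 z (n 0 z (n 0 z (n 0 z (n 0 z (n 0 z (n 0
 z (n 0 z (n 0 z (n 0 z (n 0 z (n 0 z (n 0 z (n 0 z (n 0 z (n 0 z (n 0 z (n 0 z (n 0 z (n 0 z (n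
 0 z (n 0 z (n 0 z (n 0 z (n 0 z (n 0 z (n 0 z (n 0 z (n 0 z (n 0 z (n 0 z (n 0 z (n 0 z (n 0 z
 (n 0 z (n 0 z (n 0 z (n 0 z (n 0 z (n 0 z (n 0 z (n 0 z
 z)))))))))))))))))))))))))))))))))))))))))))))) z) (n 0 z z)))))))) (n 0 (n 0 z (n 1 (n 6561843
 z (n 6566403 z (n 6561843 z (n 6561843 z (n 6561843 z (n 6561843 z z)))))) (n 0 z (n 0 z z))))
 (n 0 z z)))) (n 0x16b728aed944649a216d510b66870c95c74536562924b10b4c8859644321819 (n 0 (n 599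
 (n 0 z (n 6565923 z (n 6554411 z (n
 0x2ca6a62403094c59408062329b29881c265454310384c86a862030994d94840602a1b29081c065253210180a84ca02038208236e782085f82086279f86281c7e17de7dd8a189a8dd8e48a09e67de76455f7e28d97664801
 z (n 0 z (n 0 z (n 0 z z))))))) (n 598 (n 3278363 z (n 0 z (n 2 z (n 10 z (n 18 z (n 26 z (n
 5514779 z (n 34 z (n 42 z (n
 0x2ca2a406070194d94c0061329329001c063263200382a64ca20078208217e28208e182085f79b82381d82381d85f82581891f86482286389f7e16e08a285881f2801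
 z (n 0 z (n
 0x64142030380ca6ca64070190d90c00e0aa1b29000c064253200382ca88640078208207e082086082082085f8208207a082185e82282085f8227df8208208217a082181f8213001
 z z)))))))))))) (n 594 (n 0 z (n 6561843 z (n 0 z (n 0 z (n 0 z z))))) (n 3 (n 0 z (n 6565923 z
 (n 0 z (n 0 z (n 0 z z))))) (n 1 (n 0 z (n 6565923 z (n 6554411 z (n
 0x4ca6ca42031194994840e0329a99081c264353210382c64a64203019514c040e0329a90080c265252100184ca2a420038208236e782085f82086279f86281c7e17de7dd8a189a8dd8e48a09e67de76455f7e28d97664801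
 z (n 0 z (n 0 z (n 0 z z))))))) (n 0 (n 2164315 z (n 0 z (n 50 z (n 58 z (n 66 z (n 74 z (n
 3212891 z (n 82 z (n 90 z (n
 0xc86c864070990d90c40e0321321080c165443210382ca48642078208217a18208e282081f7da86381e82279e85e82485891f8658628628617e169f8638587df2801
 z (n 0 z (n
 0x842c806070590d08040e0321321001c165243200382864c820078208217e082086082081f86082081f7e082181f82482085f86179f8608208227a082089e8612801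
 z z)))))))))))) z)))))) (n 594 (n 0 (n 0 z (n 0 z (n 0 z (n 0 z (n 0 z (n 769 (n 0 z (n 0 z (n
 0 z (n 0 z (n 0 z (n 0 z (n 0 z (n 0 z (n 0 z z))))))))) (n 769 (n 0 z (n 0 z (n 0 z (n 0 z (n
 0 z (n 0 z (n 0 z (n 0 z (n 0 z z))))))))) (n 769 (n 0 z (n 0 z (n 0 z (n 0 z (n 0 z (n 0 z (n
 0 z (n 0 z (n 0 z z))))))))) (n 769 (n 0 z (n 0 z (n 0 z (n 0 z (n 0 z (n 0 z (n 0 z (n 0 z (n
 0 z z))))))))) (n 769 (n 0 z (n 0 z (n 0 z (n 0 z (n 0 z (n 0 z (n 0 z (n 0 z (n 0 z z)))))))))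
 (n 769 (n 0 z (n 0 z (n 0 z (n 0 z (n 0 z (n 0 z (n 0 z (n 0 z (n 0 z z))))))))) z)))))))))))
 (n 0 (n 0 z (n 0 z (n 0 z (n 0 z (n 317 (n 0 z (n 0 z (n 0 z (n 0 z (n 0 z (n 0 z (n 0 z (n 0 z
 (n 0 z (n 0 z (n 0 z (n 0 z (n 0 z (n 0 z z)))))))))))))) (n 317 (n 0 z (n 0 z (n 0 z (n 0 z (n
 0 z (n 0 z (n 0 z (n 0 z (n 0 z (n 0 z (n 0 z (n 0 z (n 0 z (n 0 z z)))))))))))))) (n 317 (n 0
 z (n 0 z (n 0 z (n 0 z (n 0 z (n 0 z (n 0 z (n 0 z (n 0 z (n 0 z (n 0 z (n 0 z (n 0 z (n 0 z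
 z)))))))))))))) (n 317 (n 0 z (n 0 z (n 0 z (n 0 z (n 0 z (n 0 z (n 0 z (n 0 z (n 0 z (n 0 z (n
 0 z (n 0 z (n 0 z (n 0 z z)))))))))))))) (n 317 (n 0 z (n 0 z (n 0 z (n 0 z (n 0 z (n 0 z (n 0
 z (n 0 z (n 0 z (n 0 z (n 0 z (n 0 z (n 0 z (n 0 z z)))))))))))))) (n 317 (n 0 z (n 0 z (n 0 z
 (n 0 z (n 2 z (n 0 z (n 0 z (n 0 z (n 0 z (n 0 z (n 0 z (n 0 z (n 0 z (n 0 z z))))))))))))))
 z)))))))))) (n 0 (n 0 z (n 0 z (n 0 z (n 557 (n 0 z (n 0 z (n 0 z (n 0 z (n 0 z (n 0 z (n 0 z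
 z))))))) (n 557 (n 0 z (n 0 z (n 0 z (n 0 z (n 0 z (n 0 z (n 0 z z))))))) (n 557 (n 0 z (n
 0xbb23b2001c376476300380ec6ec40030dd959080060bb2b19000c175463100380ea4c6200782081e92182086182082081f8208217de82181f8218217e08207e175e82185f82185e7e385e3801
 z (n 0 z (n 0 z (n 0 z (n 0 z (n 0 z z))))))) (n 557 (n 0 z (n 0 z (n 0 z (n 0 z (n 0 z (n 0 z
 (n 0 z z))))))) (n 557 (n 0 z (n 0 z (n 0 z (n 0 z (n 0 z (n 0 z (n 0 z z))))))) (n 557 (n 0 z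
 (n 0 z (n 0 z (n 0 z (n 0 z (n 0 z (n 0 z z))))))) z))))))))) (n 0 (n 0 z (n 0 z (n 365 (n 0 z
 (n 0 z (n 0 z (n 0 z (n 0 z (n 0 z (n 0 z (n 0 z (n 0 z (n 0 z (n 0 z (n 0 z (n 0 z (n 0 z
 z)))))))))))))) (n 365 (n 0 z (n 0 z (n 0 z (n 0 z (n 0 z (n 0 z (n 0 z (n 0 z (n 0 z (n 0 z (n
 0 z (n 0 z (n 0 z (n 0 z z)))))))))))))) (n 365 (n 0 z (n 0 z (n 0 z (n 0 z (n 0 z (n 0 z (n 0
 z (n 0 z (n 0 z (n 0 z (n 0 z (n 0 z (n 0 z (n 0 z z)))))))))))))) (n 365 (n 0 z (n 0 z (n 0 z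
 (n 0 z (n 0 z (n 0 z (n 0 z (n 0 z (n 0 z (n 0 z (n 0 z (n 0 z (n 0 z (n 0 z z)))))))))))))) (n
 365 (n 0 z (n 0 z (n 0 z (n 0 z (n 2 (n 0 z z) (n 0 z (n 0 z (n 0 z (n 0 z (n 0 z (n 0 z (n 0 z
 (n 0 z (n 0 z z)))))))))))))) (n 365 (n 0 z (n 0 z (n 0 z (n 0 z (n 0 z (n 0 z (n 0 z (n 0 z (n
 0 z (n 0 z (n 0 z (n 0 z (n 0 z (n 0 z z)))))))))))))) z)))))))) (n 0 (n 0 z (n 601 (n 0 z (n 0
 z (n 0 z (n 0 z (n 0 z (n 0 z (n 0 z (n 0 z z)))))))) (n 601 (n 0 z (n 0 z (n 0 z (n 0 z (n 0 z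
 (n 0 z (n 0 z (n 0 z z)))))))) (n 601 (n 0 z (n 0 z (n 0 z (n 0 z (n 0 z (n 0 z (n 0 z (n 0 z
 z)))))))) (n 601 (n 0 z (n 0 z (n 2 (n 0 z (n 0 z z)) (n 0 z (n 0 z (n 0 z (n 0 z (n 0 z
 z)))))))) (n 601 (n 0 z (n 0 z (n 0 z (n 0 z (n 0 z (n 0 z (n 0 z (n 0 z z)))))))) (n 601 (n 0
 z (n 0 z (n 0 z (n 0 z (n 0 z (n 0 z (n 0 z (n 0 z z)))))))) z))))))) (n 0 (n 841 (n 0 z (n 0 z
 (n 0 z (n 0 z (n 0 z (n 0 z (n 0 z (n 0 z z)))))))) (n 841 (n 0 z (n 0 z (n 2 (n 0 z (n 0 z (n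
 0 z (n 0 z z)))) (n 0 z (n 0 z (n 0 z (n 0 z (n 0 z z)))))))) (n 841 (n 0 z (n 0 z (n 0 z (n 0
 z (n 0 z (n 0 z (n 0 z (n 0 z z)))))))) (n 841 (n 0 z (n 0 z (n 0 z (n 0 z (n 0 z (n 0 z (n 0 z
 (n 0 z z)))))))) (n 841 (n 0 z (n 0 z (n 0 z (n 0 z (n 0 z (n 0 z (n 0 z (n 0 z z)))))))) (n
 841 (n 0 z (n 0 z (n 0 z (n 0 z (n 0 z (n 0 z (n 0 z (n 0 z z)))))))) z)))))) (n 0 (n 0 z (n 0
 z (n 0 z (n 0 z (n 0 z z))))) (n 0 (n 0 z (n 0 z (n 0 z (n 0 z z)))) (n 0 (n 0 z (n 0 z (n 0 z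
 z))) (n 0 (n 0 z (n 0 z z)) (n 0 (n 0 z z) (n 0 z z)))))))))))) (n 0 (n 0 z (n 1 (n 6561843 z
 (n 6565923 z (n 6561843 z (n 6561843 z (n 6561843 z (n 6561843 z z)))))) (n 0 z (n 0 z (n 0 z
 z))))) (n 0 z z)))) (n 0xa6a7443a5a1d28d06ed29a2e8e91ab688da3 (n 0 (n 153 (n 0 z (n 6557747 z
 (n 0 z z))) (n 45 (n 0 z (n 0 z (n 0 z (n 0 z (n 6557747 z z))))) (n 9 (n 0 z (n 6496523 z (n 0
 z z))) (n 29 (n 2 z (n 6632459 z (n 10 z (n 6631491 z (n 6636291 z (n 6636291 z (n 0 z (n 0 z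
 (n 0 z (n 0 z (n 0 z (n 0 z (n 0 z (n 6496523 z (n 6636291 z (n 0 z (n 18 z (n 6636291 z (n 0 z
 (n
 0xca8ca84037f81807e808081808080808080808080807f80808080808180808080808080808080808080808080808080808080808080800809
 z (n 0 z (n 0 z (n
 0x594994500600ca8c802077e81817c807f818080808080817e8080817f7f818080818081808080808080808080808080808080808080808080808080801009
 z (n 0 z (n 0 z (n 0 z (n 0 z (n 0 z (n 0 z (n 0 z (n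
 0xca8ca82037f81807e808081808080808080808080807f80808080808180808080808080808080808080808080808080808080808080800809
 z (n
 0x2ca4ca08037e81808080808180808081808080808080808180808080818080808080808080808080807f808080808081807f807f8080800809
 z (n 0 z z))))))))))))))))))))))))))))))))) (n 1 (n 0 z (n 6636291 z (n 0 z (n 0 z z)))) (n 0
 (n 6636291 z (n 26 z (n 6631491 z (n 6636291 z (n 0 z (n 0 z (n 6636291 z (n 0 z (n 0 z (n 34 z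
 (n 0 z (n 0 z (n 0 z (n 42 z (n 0 z (n 50 z (n 0 z (n 0 z (n 0 z (n 0 z (n 0 z (n 0 z (n
 0xc86c864037f81807f817f818081808080807e8080817f80808080818081808080808080808180808080808080808080808080808080800809
 z (n 6636291 z (n
 0x2ca68604078080807f817f818081808181807f8180817f81808180808080807f808081807f817f80808080808080808080808080807f800809
 z (n 0 z (n 0 z z))))))))))))))))))))))))))) z)))))) (n 153 (n 0 (n 0 z (n 0 z (n 5 (n 0 z (n 0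
 z (n 0 z (n 0 z (n 0 z (n 0 z (n 0 z (n 0 z (n 0 z (n 0 z (n 0 z z))))))))))) (n 5 (n 0 z (n 0
 z (n 0 z (n 0 z (n 0 z (n 0 z (n 0 z (n
 0x864162050381319208280c29d518c84060cca4c820078381838e877d7c5d92808d8c55737783877ea0877b80799c7da26d86808e7475757082977e806c9d89727c6ea4638e6e88862009
 z (n 0 z (n 0 z (n 0 z z))))))))))) (n 5 (n 0 z (n 0 z (n 0 z (n 0 z (n 0 z (n 0 z (n 0 z (n 0
 z (n 0 z (n 2 (n 0 z z) (n 0 z z))))))))))) (n 5 (n 0 z (n 0 z (n 0 z (n 0 z (n 0 z (n 0 z (n 0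
 z (n 0 z (n 0 z (n 0 z (n 0 z z))))))))))) z)))))) (n 0 (n 0 z (n 5 (n 0 z (n 0 z (n 0 z (n 0 z
 z)))) (n 5 (n 0 z (n 0 z (n 0 z (n 0 z z)))) (n 5 (n 0 z (n 0 z (n 0 z (n 0 z z)))) (n 5 (n 0 z
 (n 0 z (n 2 z (n 0 z z)))) z))))) (n 0 (n 5 (n 0 z (n 0 z (n 0 z (n 0 z (n 0 z (n 0 z (n 0 z (n
 0 z (n 0 z (n 0 z (n 0 z (n 0 z (n 0 z (n 2 (n 0 z (n 0 z (n 0 z z))) (n 0 z (n 0 z
 z)))))))))))))))) (n 5 (n 0 z (n 0 z (n 0 z (n 0 z (n 0 z (n 0 z (n 0 z (n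
 0x2ec8ec82037e81807f807f818080808180807d8180807f81808180808180807f8080808080808080807f808080808181807f807f8180800809
 z (n 0 z (n 0 z (n 0 z (n 0 z (n 0 z (n 0 z (n 0 z (n 0 z z)))))))))))))))) (n 5 (n 0 z (n 0 z
 (n 0 z (n 0 z (n 0 z (n 0 z (n 0 z (n 0 z (n 0 z (n 0 z (n 0 z (n 0 z (n 0 z (n 0 z (n 0 z (n 0
 z z)))))))))))))))) (n 5 (n 0 z (n 0 z (n 0 z (n 0 z (n 0 z (n 0 z (n 0 z (n 0 z (n 0 z (n 0 z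
 (n 0 z (n 0 z (n 0 z (n 0 z (n 0 z (n 0 z z)))))))))))))))) z)))) (n 0 (n 0 z (n 0 z (n 0 z
 z))) (n 0 (n 0 z (n 0 z z)) (n 0 (n 0 z z) (n 0 z z))))))) (n 0 (n 0 z (n 1 (n 6557747 z (n
 6636291 z (n 6557747 z (n 6557747 z (n 6557747 z (n 6557747 z z)))))) (n 0 z z))) (n 0 z z))))
 (n 0x2d4d510a8ae0ea7182a296031b708895798a5d54525a740 (n 0 (n 593 (n 3282443 z (n 0 z (n 2 z (n
 0x2c86a8620781837f7e7f817e817f807f7f807e837f807f7d7f7d82828082807f80827f8081807e7d7e827f817e82827e817f7f838080810809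
 z (n 6358347 z (n 0 z (n 0 z z))))))) (n 33 (n 6624043 z (n 0 z (n 6624043 z (n 6358347 z (n 0
 z (n 0 z (n 10 z (n 0 z (n 0 z (n 6358347 z (n 18 z (n 0 z (n 6631715 z (n
 0x6c6527c848a75797b727c837f83797b7f8f786b957d8e6f9c87717a6c7c709785726e7b6f80707390967989968a818f7c817b8c750049
 z (n 0 z (n 6631715 z (n 0 z z))))))))))))))))) (n 11 (n 0 z (n 0 z (n 6627635 z (n 26 z z))))
 (n 3 (n 0 z (n 6631715 z (n 34 z z))) (n 1 (n 2164299 z (n 42 z (n 50 z (n 0 z z)))) (n 0 (n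
 6631715 z (n 58 z (n
 0x8ab990b28200c000fbd085900c060018fac8686200300275f643621003800aafc6100052976c20004b9a984001880cb08001e1a8610800f3f7ff9727ffc12800164801b937fe0d57fd20f7ff02f801549800a4b7fec018016ee7ff5c17fbb9f803ffd7fe5097fb5e97ffdfc7ffc798015bc7fcb4380152b804a1780221a7fdfea7ff6e88000337ff0ba80348c800ea87fd5b380235d7fdf277fe1148001527fb26c7fe08f7ff7c17fe8238058ed7ff90f802be07ff7cb7fe894802fe0800567800f54801adb800cfe8027602159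
 z (n
 0x1cca8864207837b8482857e827f827f82837d74827a7e73707b8385917e8f89847f7b8e84877c6d8281778774847a73947c9682797ea26e0809
 z (n 66 z z))))) z)))))) (n 3 (n 0 (n 1247 (n 0 z (n 0 z (n 0 z (n 0 z (n 0 z (n 0 z (n 0 z (n
 0 z (n 0 z (n 0 z (n 0 z (n 2 (n 0 z (n 2 (n 0 z (n 0 z (n 0 z (n 0 z (n 0 z (n 0 z z)))))) (n
 2 (n 0 (n 4964 z z) (n 0 z (n 0 z (n 0 z (n 0 z (n 0 (n 4964 z (n 4964 z z)) z)))))) (n 2 (n 0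
 z (n 0 z (n 0 z (n 0 z (n 0 z (n 0 z z)))))) (n 2 (n 0 (n 884 z (n 884 z z)) (n 0 z (n 0 z (n 0
 z (n 0 z (n 0 (n 884 z z) z)))))) (n 2 (n 0 z (n 0 z (n 0 z (n 0 z (n 0 z (n 0 z z)))))) (n 1 z
 z))))))) (n 0 z (n 0 z (n 0 z (n 0 z (n 0 z (n 0 z (n 0 z (n 0 z (n 0 z (n 0 z (n 0 z (n 0 z (n
 0 z z))))))))))))))))))))))))) (n 1247 (n 0 z (n 0 z (n 0 z (n 0 z (n 0 z (n
 0x16e64ec0a077a8e8379788775837d7f7c86765e9969707a77896a90907d898c7e7d8b7b7788777076738b788a8987917b8180778a89947e0809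
 z (n 0 z (n 0 z (n 0 z (n 0 z (n 0 z (n 0 z (n 0 z (n 0 z (n 0 z (n 0 z (n 0 z (n 0 z (n 0 z (n
 0 z (n 0 z (n 0 z (n 0 z (n 0 z (n 0 z z))))))))))))))))))))))))) (n 1245 (n 0 z (n 0 z (n 0 z
 (n 0 z (n 0 z (n 0 z z)))))) (n 1241 (n 0 z (n 0 z (n 0 z (n 0 z (n 0 z (n 0 z (n 0 z z)))))))
 (n 221 (n 0 z (n 0 z (n 0 z (n 0 z z)))) (n 221 (n 2 (n 2 (n 0 z (n 0 z (n 0 z (n 0 z (n 0 z (n
 0 z z)))))) (n 2 (n 0 (n 452 z (n 452 z z)) (n 0 z (n 0 z (n 0 z (n 0 z (n 0 (n 452 z z)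
 z)))))) z)) (n 0 z (n 0 z (n 0 z z)))) (n 113 (n 0 z (n 0 z (n 0 z (n 0 z (n 0 z (n 0 z (n 0 z
 (n 0 z (n 2 (n 0 z z) (n 0 z (n 0 z (n 0 z (n 0 z (n 0 z (n 0 z z))))))))))))))) (n 113 (n 0 z
 (n 0 z (n 0 z (n 0 z (n 0 z (n 0 z (n 2 z (n 0 z (n 0 z (n 0 z (n 0 z (n 0 z (n 0 z (n 0 z (n 0
 z z))))))))))))))) z)))))))) (n 0 (n 0 z (n 375 (n 0 z (n 0 z (n 0 z (n 0 z (n 0 z (n 2 (n 1 z
 (n 2 (n 0 z (n 0 z (n 0 z (n 0 z (n 0 z (n 0 z z)))))) (n 2 (n 0 z (n 0 z (n 0 z (n 0 z (n 0 z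
 (n 0 z z)))))) (n 1 z (n 1 z z))))) (n 0 z (n 0 z (n 0 z (n 0 z (n 0 z (n 0 z (n 0 z
 z))))))))))))) (n 1181 (n 0 z (n 0 z (n 0 z (n 2 (n 2 (n 0 (n 8860179 z (n 8860179 z z)) (n 0
 (n 8860179 z (n 8860179 z z)) (n 0 (n 8860179 z (n 8860179 z z)) (n 0 z (n 0 z (n 0 (n 8860179
 z (n 8860179 z z)) z)))))) (n 2 (n 0 (n 1492 z (n 1492 z z)) (n 0 (n 1492 z z) (n 0 z (n 0 z (n
 0 z (n 0 (n 1492 z z) z)))))) (n 1 z (n 1 z z)))) (n 0 z (n 0 z (n 0 z (n 0 z (n 0 z (n 0 z (n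
 0 z (n 0 z (n 0 z z))))))))))))) (n 373 (n 0 z (n 0 z (n 0 z (n 2 (n 0 z (n 2 (n 0 (n 8860179 z
 z) (n 0 z (n 0 z (n 0 z (n 0 z (n 0 (n 8860179 z (n 8860179 z z)) z)))))) (n 1 z z))) (n 0 z (n
 0 z (n 0 z (n 0 z (n 0 z (n 0 z (n 0 z (n 0 z (n 0 z (n 0 z (n 0 z (n 0 z (n 0 z
 z))))))))))))))))) (n 373 (n 0 z (n 0 z (n 0 z (n 0 z (n 0 z (n 0 z (n 0 z (n 0 z (n 0 z (n 0 z
 (n 7610467 z (n 0 z (n 0 z (n 0 z (n 0 z (n 0 z (n 0 z z))))))))))))))))) (n 65 (n 0 z (n 0 z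
 (n 2 (n 0 z z) (n 0 z (n 0 z (n 0 z (n 0 z (n 0 z (n 0 z (n 0 z (n 0 z (n 0 z (n 0 z
 z))))))))))))) (n 65 (n 0 z (n 0 z (n 0 z (n 0 z (n 0 z (n 0 z (n 0 z (n 0 z (n 0 z (n 0 z (n 0
 z (n 0 z (n 0 z z))))))))))))) z))))))) (n 0 (n 1173 (n 2 (n 1 z (n 2 (n 0 (n 8860179 z (n
 8860179 z z)) (n 0 z (n 0 (n 8860179 z (n 8860179 z z)) (n 0 z (n 0 (n 8860179 z (n 8860179 z
 z)) (n 0 (n 8860179 z (n 8860179 z z)) z)))))) (n 2 (n 0 z (n 0 z (n 0 z (n 0 z (n 0 z (n 0 z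
 z)))))) (n 1 z (n 2 (n 0 (n 260 z (n 260 z z)) (n 0 z (n 0 z (n 0 z (n 0 z (n 0 (n 7751739 z z)
 z)))))) z))))) (n 0 z (n 0 z (n 0 z (n 0 z (n 0 z z)))))) (n 1181 (n 0 z (n 2 (n 2 (n 0 (n
 8860179 z (n 8860179 z z)) (n 0 z (n 0 (n 8860179 z (n 8860179 z z)) (n 0 z (n 0 (n 8860179 z
 (n 8860179 z z)) (n 0 (n 8860179 z (n 8860179 z z)) z)))))) (n 2 (n 0 z (n 0 z (n 0 z (n 0 z (n
 0 z (n 0 z z)))))) (n 1 z (n 2 (n 0 (n 260 z (n 260 z z)) (n 0 z (n 0 z (n 0 z (n 0 z (n 0 (n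
 260 z z) z)))))) z)))) (n 0 z (n 0 z (n 0 z (n 0 z (n 0 z (n 0 z (n 0 z (n 0 z (n 0 z (n 0 z (n
 0 z (n 0 z (n 0 z (n 0 z (n 0 z z))))))))))))))))) (n 63 (n 0 z (n 0 z (n 0 z (n 0 z (n 2 (n 0
 z (n 2 (n 0 (n 8860179 z (n 8860179 z z)) (n 0 (n 8860179 z (n 8860179 z z)) (n 0 z (n 0 z (n 0
 (n 8860179 z (n 8860179 z z)) (n 0 (n 8860179 z (n 8860179 z z)) z)))))) (n 2 (n 0 z (n 0 z (n
 0 z (n 0 z (n 0 z (n 0 z z)))))) z))) (n 0 z (n 0 z (n 0 z (n 0 z (n 0 z (n 0 z z))))))))))) (n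
 63 (n 0 z (n 0 z (n 0 z (n 0 z (n 0 z (n 0 z (n 0 z (n 0 z (n 0 z (n 0 z (n 0 z z))))))))))) (n
 65 (n 0 z (n 0 z (n 0 z (n 0 z (n 0 z (n 0 z (n 0 z (n 2 (n 0 z z) z)))))))) (n 65 (n 0 z (n 0
 z (n 0 z (n 0 z (n 0 z (n 2 z (n 0 z (n 0 z z)))))))) z)))))) (n 0 (n 11 (n 0 z (n 7746067 z (n
 0 z z))) (n 585 (n 0 z (n 0 z (n 0 z (n 0 z (n 0 z (n 0 z z)))))) (n 585 (n 2 (n 1 z (n 2 (n 0
 z (n 0 z (n 0 z (n 0 z (n 0 z (n 0 z z)))))) z)) (n 0 z (n 0 z (n 0 z (n 0 z (n 0 z z)))))) (n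
 577 (n 0 z (n 0 z (n 0 z (n 0 z (n 0 z (n 0 z (n 0 z z))))))) (n 577 (n 0 z (n 0 z (n 0 z (n 0
 z (n 0 z (n 0 z (n 0 z z))))))) z))))) (n 0 (n 579 (n 0 z (n 0 z (n 0 z (n 7746067 z (n 0 z (n
 0 z (n 0 z z))))))) (n 579 (n 0 z (n 0 z (n 0 z (n 0 z (n 0 z (n 0 z (n 0 z z))))))) (n 581 (n
 0 z (n 0 z (n 0 z (n 7746067 z (n 0 z (n 0 z z)))))) (n 581 (n 0 z (n 0 z (n 0 z (n 0 z (n 0 z
 (n 0 z z)))))) z)))) (n 0 (n 0 z (n 1109 (n 0 z (n 0 z (n 0 z (n 0 z (n 0 z (n 0 z (n 0 z (n 0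
 z (n 0 z (n 0 z (n 0 z (n 0 z (n 0 z (n 0 z (n 0 z (n 0 z (n 0 z (n 0 z (n 0 z (n 0 z (n 0 z (n
 0 z (n 0 z (n 0 z (n 0 z (n 0 z (n 0 z (n 0 z z)))))))))))))))))))))))))))) (n 1109 (n 0 z (n 0
 z (n 0 z (n 0 z (n 0 z (n 0 z (n 0 z (n 0 z (n 0 z (n 0 z (n 0 z (n 0 z (n
 0x1eec8e426037aaf86636e89659572797b627c80909586716f7e54967b739c67956a998277659886636daa5c9e6bc3836b9a727597688c870809
 z (n 0 z (n 0 z (n 0 z (n 0 z (n 0 z (n 0 z (n 0 z (n 0 z (n 0 z (n 0 z (n 0 z (n 0 z (n 0 z (n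
 0 z (n 0 z z)))))))))))))))))))))))))))) z))) (n 0 (n 265 (n 2 (n 0 z z) (n 0 z (n 0 z (n 0 z
 (n 0 z (n 0 z (n 0 z (n 0 z (n 0 z (n 0 z (n 0 z (n 0 z (n 0 z (n 0 z (n 0 z (n 0 z (n 0 z (n 0
 z (n 0 z (n 0 z (n 0 z (n 0 z (n 0 z (n 0 z (n 0 z z))))))))))))))))))))))))) (n 265 (n 0 z (n
 0 z (n 0 z (n 0 z (n 0 z (n 0 z (n 0 z (n 0 z (n 0 z (n 0 z (n 0 z (n 2 z (n
 0x247607b89857a7984777f807e847a7a7f86847b8a8185708e8075817085768d7c7b72807d7d7988828e7991858086847e7f778b780049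
 z (n 0 z (n 0 z (n 0 z (n 0 z (n 0 z (n 0 z (n 0 z (n 0 z (n 0 z (n 0 z (n 0 z (n 0 z
 z))))))))))))))))))))))))) z)) (n 0 (n 0 z z) (n 0 z z))))))))) (n 0 (n 0 z (n 1 (n 6631715 z
 (n 6631715 z (n 6631715 z (n 6631715 z (n 6631715 z (n 6631715 z z)))))) (n 1 (n 6624043 z (n
 4748 z (n 4748 z (n 6627635 z (n 4748 z (n 4748 z z)))))) z))) (n 0 z z)))) z)))))))))),
 by decide +kernel⟩
theorem i10222 : ∃ t, chkR KT RW t 10222 10232 = true := ⟨(n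
 0x21d1d62bae3111708ca38cd15ad4b08e3a88752c80cd740 (n 0 (n 285 (n 2 z (n 6623267 z (n 10 z (n
 6623267 z z)))) (n 33 (n 6623267 z (n 6496515 z (n 6496515 z (n 6496515 z (n 18 z (n 26 z
 z)))))) (n 51 (n 6496515 z (n 0 z (n 0 z (n 34 z (n 6496515 z z))))) (n 245 (n 6496515 z (n
 6496515 z (n 0 z (n 0 z (n 0 z (n 0 z (n
 0x2ca8ca82037a275c89f85e8208218207df89f86286082181f7e075f8208207df7e08a182282085f8207e10801 z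
 (n 0 z (n
 0x2ca2ca08037a17dd86085f82086081f85f89f8a186082181f7e07a081f81f8207e08618608208208208200801 z
 z))))))))) (n 1 (n 42 z (n 0 z (n 50 z (n 0 z (n 0 z (n 58 z (n 6563099 z (n 0 z (n 0 z (n
 6554411 z z)))))))))) (n 0 (n
 0x4ca884260381f8627a18627e08227de8607df79e7628618208218a18227de82086082181f81e82081f8a00801 z
 (n 0 z (n 0 z (n
 0x2c84c826037a379d89e85d82185f79f81e99f8618618217de8a071f85f81e7e07de96286381f81f8208610801 z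
 (n 0x4c86c8640372375b89f85d8608a07df85e9a08a28e17e27de8606df81e89f8617df92182086181f7de7e00801
 z (n 0 z (n
 0x2c86c864037a17dd85f85e8208a079f81f8df8a18a17e081e8607df85f81f8217e086086082082081f8210801 z
 (n 0xc86c864037e07de82081f8218207e081f89f86186182081f8607e085f81f8207e08608618208208208200801 z
 (n 0x2c86c864037a181d81f82182086081f86081f86186082086082082181f8208208208208a086082085f8200801
 z (n
 0x2c86c864037a181d81f82182086081f86081f86186082086082082181f8208208208208a086082085f8200801 z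
 (n 0xc86c864037e081e81f8218208608208207e08608207e08208208618208208208208208608207e08208200801 z
 (n 0xc86c864037a085e85f86082086081f8208208218208208208208608208208208208207e08208208608200801 z
 (n 0 z (n 0 z (n
 0xc86c864037a085e85f86082086081f8208208218208208208208608208208208208207e08208208608200801 z (n
 0 z (n
 0x2c868624078227e086082181f81f8a08a07e07e07df8218217607e082086181f7e08608208608217e181f0801 z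
 (n 66 z (n 0 z (n 0 z (n 6623267 z (n 0 z (n 6623267 z (n
 0x2c84c806037a17df86086082086081f8208608608208218208207e08208207df8208608208208208208200801 z
 (n 0 z (n 0 z (n
 0x4c86c8640372375b89f85d8608a07df85e9a08a28e17e27de8606df81e89f8617df92182086181f7de7e00801 z
 (n 6627595 z (n 0 z (n 0 z (n 0 z (n 0 z (n
 0x4c86c8640372375b89f85d8608a07df85e9a08a28e17e27de8606df81e89f8617df92182086181f7de7e00801 z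
 (n 0x2c84c806037a179d89f86082185f81f82089f86186082182085f76081f8607e07df8618608208608207e10801
 z (n 0 z (n 0 z (n 6627595 z (n
 0x2c86c864037a17dd85f85e8208a079f81f8df8a18a17e081e8607df85f81f8217e086086082082081f8210801 z
 (n 6627595 z (n
 0xc86c824037e17de85f82086082086081f8608218208208208207e082082081f82086082182081f8218200801 z (n
 0 z (n 0 z (n
 0xc86c864037e17de85f85f8208607e08208a08618607e181f8207e08208207e08208608608208208208200801 z (n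
 0 z (n
 0xc84c806037e081f86085f82086081f81f85f86186082081f8607e081f81f8207e086086086082081f8210801 z (n
 0xc86c864037a085f81f82082086081f8208208608208208208208208208208208208208208208208208200801 z (n
 0 z z))))))))))))))))))))))))))))))))))))))))))))))) z)))))) (n 285 (n 0 (n 0 z (n 683 (n 0 z
 (n 0 z (n 0 z (n 0 z (n 0 z (n 2 (n 0 z (n 1 z (n 1 z (n 1 z (n 1 z (n 1 z z)))))) z)))))) (n
 683 (n 0 z (n 0 z (n 0 z (n 0 z (n 0 z (n 0 z z)))))) (n 189 (n 0 z (n 0 z (n 0 z (n 0 z (n 0 z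
 z))))) (n 569 (n 0 z (n 0 z (n 0 z (n 0 z (n 2 (n 0 z (n 0 z (n 1 z z))) (n 0 z (n 0 z (n 0 z
 (n 0 z z))))))))) (n 569 (n 0 z (n 0 z (n 0 z (n 0 z (n 0 z (n 0 z (n 0 z (n 0 z (n 0 z
 z))))))))) (n 569 (n 0 z (n 0 z (n 0 z (n 0 z (n 0 z (n 0 z (n 0 z (n 0 z (n 0 z z))))))))) (n
 305 (n 0 z (n 0 z (n 0 z (n 0 z (n 0 z (n 0 z z)))))) z)))))))) (n 0 (n 739 (n 0 z (n 0 z (n 0
 z (n 0 z z)))) (n 739 (n 0 z (n 0 z (n 0 z (n 0 z z)))) (n 103 (n 0 z (n 0 z (n 0 z z))) (n 15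
 (n 0 z (n 0 z (n 0 z (n 0 z (n 0 z z))))) (n 15 (n 0 z (n 0 z (n 0 z (n 0 z (n 0 z z))))) (n 15
 (n 0 z (n 0 z (n 0 z (n 0 z (n 0 z z))))) (n 13 (n 0 z (n 0 z (n 0 z (n 0 z (n 0 z (n 0 z (n 0
 z (n 0 z (n 0 z z))))))))) z))))))) (n 0 (n 0 z (n 129 (n 2 (n 1 z (n 1 z (n 1 z (n 1 z z))))
 (n 0 z (n 0 z (n 0 z (n 0 z (n 0 z (n 0 z (n 0 z z)))))))) (n 69 (n 0 z (n 0 z (n 0 z (n 0 z (n
 0 z z))))) (n 69 (n 0 z (n 0 z (n 0 z (n 0 z (n 0 z z))))) (n 69 (n 0 z (n 0 z (n 0 z (n 0 z (n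
 0 z z))))) (n 65 (n 0 z (n 0 z (n 0 z (n 0 z (n 0 z (n 0 z (n 0 z (n 0 z z)))))))) z)))))) (n 0
 (n 727 (n 0 z (n 0 z (n 0 z (n 0 z z)))) (n 723 (n 0 z (n 0 z (n 0 z (n 0 z (n 0 z z))))) (n
 723 (n 0 z (n 0 z (n 0 z (n 0 z (n 0 z z))))) (n 723 (n 0 z (n 0 z (n 0 z (n 0 z (n 0 z z)))))
 (n 721 (n 0 z (n 0 z (n 0 z z))) z))))) (n 0 (n 21 (n 0 z (n 0 z (n 0 z (n 0 z (n 0 z (n 0 z
 z)))))) (n 21 (n 0 z (n 0 z (n 0 z (n 0 z (n 0 z (n 0 z z)))))) (n 21 (n 0 z (n 0 z (n 0 z (n 0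
 z (n 0 z (n 0 z z)))))) (n 101 (n 0 z (n 0 z (n 0 z (n
 0x2ec8ec82037a27e091f7dd8618a38dc81f8df8a081b8627e082075e7e27e37a07e281e7a38a48df8a17610801 z
 (n 0 z z))))) z)))) (n 0 (n 0 z (n 0 z (n 1 (n 0 z (n 0 z (n 0 z (n 0 z (n 0 z z))))) z))) (n 0
 (n 0 z (n 293 (n 0 z (n 0 z (n 0 z (n 0 z (n 0 z (n 0 z (n 0 z (n 0 z (n 0 z (n 0 z (n 0 z (n 0
 z (n 0 z (n 0 z (n 0 z (n 0 z (n 0 z (n 0 z (n 0 z (n 0 z (n 0 z (n 0 z (n 0 z (n 0 z (n 0 z (n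
 0 z (n 0 z (n 0 z (n 0 z (n 0 z (n 0 z (n 0 z (n 0 z (n 0 z (n 0 z (n 0 z (n 0 z (n 0 z (n 0 z
 (n 0 z (n 0 z (n 0 z (n 0 z (n 0 z (n 0 z (n 0 z (n 0 z (n 0 z (n 0 z
 z))))))))))))))))))))))))))))))))))))))))))))))))) z)) (n 0 (n 1 (n 0 z (n 0 z (n 0 z z))) z)
 (n 0 z z))))))))) (n 0 (n 1 (n 6496515 z (n 268 z (n 268 z (n 268 z (n 6627595 z (n 268 z
 z)))))) (n 1 (n 6496515 z (n 6623267 z (n 6623267 z (n 6623267 z (n 6623267 z (n 6623267 z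
 z)))))) (n 1 (n 6496515 z (n 412 z (n 268 z (n 268 z (n 268 z (n 268 z z)))))) (n 1 (n 6496515
 z (n 6623267 z (n 6623267 z (n 6623267 z (n 6623267 z (n 6623267 z z)))))) z)))) (n 0 z z))))
 (n 0x585aa264e58144e31939211136e60e2db280688a0215100ccac0 (n 0 (n 201 (n 6561811 z (n 6561811 z
 (n 6554411 z (n 2 z (n 6561811 z (n 10 z (n 6561811 z (n 18 z (n 6496323 z (n 6496323 z (n
 0x3654642301803b29b21900c02195150c806006a86ca04037f68277e77fa7ed7f77f880a82781080b7fa8037fe83e80280380380080e7d07e07eb7ec7f97ec7e17f77fc7f080c8007f78428178078057ff80e8048067fa7fb80b7ec7fa7fa8058107fb2011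
 z (n 26 z z)))))))))))) (n 33 (n 0 z (n 6496515 z (n 0 z (n 0 z (n 0 z (n 0 z z)))))) (n 9 (n
 6561811 z (n 0 z (n 0 z (n 0 z (n 34 z (n 6496515 z (n
 0x1194d94500600aca48206038008007ff7f48067fa8097f78018027f97f88028007f180e8057f97f78038088048087fe8048117ff7f87f48137fb7fb8057fa8007fe80c8027f88048027fc8118008167fa8077ff8027f71011
 z (n 0 z z)))))))) (n 147 (n 42 z (n 0 z (n 0 z (n 0 z (n 0 z (n 6496515 z (n 0 z (n 6496515 z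
 (n 0 z z))))))))) (n 1 (n 6561811 z (n 6561811 z (n 6558219 z (n 0 z (n 50 z (n 58 z (n 0 z (n
 0 z (n
 0x3654520303805b2a288181c01d94d94c806052ca6a62407010643531203807329b28100c01d94d94c40e000ca6c602077bb8277d275d8587fd89e7ce84d8008267e37f77d37947a783280c7a283d82480c7fe7d880383a80483c7c07da82c7e385284a81b82d84f82d80d80e83b7d281d81f80e8317fc7d37de7f24011
 z z))))))))) (n 0 (n
 0x264c620a418c40a930800a06108017f97d98557718257b88a382683183283b80c8028ae8007dc8018747fa74679b7808657a478f7837cb83c7f37fa83e7b38cb8428417a87ff82580680183a7bb82a7827d87bc88b81e8410111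
 z (n 0 z (n 0 z (n 0 z (n 0 z (n 2164315 z (n 0 z (n 0 z (n 0 z (n 0 z (n 0 z (n 0 z (n 66 z (n
 0x3131000596208067fe8088227ec8077e98137f68027fa80480580081e8097f57ff80f7f27fc7fd8038028007f18037f180c8047f78087f38077fc8027e77f98057fd7f380b7f37fe7e67f87fd8178028040091
 z (n 0 z (n 0 z (n 74 z (n 3212891 z (n 0 z (n 0 z (n 0 z (n 0 z (n 0 z (n 0 z (n 0 z (n 0 z (n
 0x3132080596418067fe8088227ec8077e98137f68027fa80480580081e8097f57ff80f7f27fc7fd8038028007f18037f180c8047f78087f38077fc8027e77f98057fd7f380b7f37fe7e67f87fd8178028040091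
 z (n 0 z (n 0 z (n 0 z (n 0 z z))))))))))))))))))))))))))))))) z)))))) (n 33 (n 0 (n 0 z (n 0 z
 (n 0 z (n 1019 (n 0 z (n 0 z (n 0 z (n 0 z (n 0 z (n 0 z (n 0 z (n 0 z (n
 0x1cc9901406000ea4ca08030007657653018003b2bb2180c001d49940c06000ecaeca2037fe8017ff8008008018018008008018008008007ff7fe7ff7ff8007ff7ff7ff8008007ff8008018018018018017ff8028018018018008008008008008018008008017ff8008008008008003011
 z (n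
 0x11cc994100e01cecaeca2037ee81b7e57c882f7e482f7df84380181c7f17ee80480080081a8027dc81e7fc7f37de7de7f17ed7fa8167f67f081b7f282a83f80f81f82080f8138038197e57ff80d7ee7f17f67e17f67fd1011
 z (n 0 z (n 0 z z)))))))))))) (n 1017 (n 0 z (n 0 z (n 0 z (n 0 z (n 0 z (n 0 z (n 2 (n 1 z (n
 1 z (n 1 z (n 1 z z)))) (n 0 z (n 0 z (n 0 z z)))))))))) (n 309 (n 0 z (n 0 z (n 0 z (n 0 z (n
 0 z (n 0 z (n 0 z (n 0 z (n 0 z (n 0 z (n 0 z (n 0 z (n 0 z (n 0 z (n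
 0x7327605018003b2bb2980c011d91948c06004ca4ec26070017637532038003b2b29901c00194dd0c80600aecaeca2037f58187ed7ef8157f580d7f08388038137f77f38018188018098047f080e7e47e37df7e97f97e67f38108087ec81280381084380b80f81780181180081e7ee7f18047e57f97f17de8058074011
 z (n 0 z z)))))))))))))))) (n 309 (n 0 z (n 0 z (n 0 z (n 0 z (n 2 (n 1 z (n 1 z z)) (n 0 z (n
 0 z (n 0 z (n 0 z (n 0 z (n 0 z (n 0 z (n 0 z (n 0 z (n 0 z (n 0 z z)))))))))))))))) (n 401 (n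
 0 z (n 0 z (n 0 z (n 0 z (n 0 z (n 0 z (n 0 z (n 0 z (n
 0x29cc9d81006006e86c864037f38147e37f47e98027ff81b81580880a7fe80b7fd8307fe8047ff8058167ec7f37f77f27f97ee7e57fb7e67fb8117f87fc84380e8177e980a81d8057eb8007ee80c7ca7f37f98257fe7fd1011
 z (n 0 z z)))))))))) (n 401 (n 0 z (n 0 z (n 0 z (n 0 z (n 0 z (n 0 z (n 0 z (n 0 z (n 0 z (n 0
 z z)))))))))) z))))))))) (n 0 (n 0 z (n 0 z (n 1019 (n 0 z (n 0 z (n 0 z (n 0 z (n 0 z (n 0 z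
 (n 0 z (n 0 z (n 0 z (n 2 (n 1 z (n 1 z (n 1 z (n 2 (n 0 z (n 0 z (n 0 z (n 0 z (n 0 (n 8852491
 z z) (n 0 z z)))))) (n 2 (n 0 z (n 0 z (n 0 z (n 0 z (n 0 (n 4036 z (n 4036 z z)) (n 0 (n 69 z
 z) z)))))) z))))) (n 0 z z))))))))))) (n 1017 (n 0 z (n 0 z (n 0 z (n 0 z (n 0 z (n 0 z (n 0 z
 (n 0 z (n 0 z (n 0 z (n 0 z (n 0 z (n 0 z (n 0 z (n 0 z (n 0 z (n 0 z (n 0 z (n 0 z (n 0 z (n 0
 z (n 0 z (n 0 z (n 0 z (n 0 z (n 0 z (n 0 z (n 0 z (n 0 z z))))))))))))))))))))))))))))) (n 303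
 (n 0 z (n 0 z (n 0 z (n 0 z (n 0 z (n 0 z (n 0 z (n 0 z (n 0 z (n 0 z (n 0 z (n 0 z (n 0 z (n 0
 z (n 2 (n 0 z (n 2 (n 0 z (n 0 z (n 0 z (n 0 z (n 0 z (n 0 z z)))))) (n 2 (n 0 z (n 0 z (n 0 z
 (n 0 z (n 0 (n 4036 z (n 4036 z z)) (n 0 (n 5 z z) z)))))) z))) (n 0 z (n 0 z (n 0 z (n 0 z (n
 0 z (n 0 z (n 0 z (n 0 z (n 0 z (n 0 z z))))))))))))))))))))))))) (n 303 (n 0 z (n 0 z (n 0 z
 (n 0 z (n 0 z (n 0 z (n 0 z (n 0 z (n 0 z (n 0 z (n 0 z (n 0 z (n 0 z (n 0 z (n 0 z (n 0 z (n 0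
 z (n 0 z (n 0 z (n 0 z (n 0 z (n 0 z (n 0 z (n 0 z (n 0 z z))))))))))))))))))))))))) (n 1009 (n
 0 z (n 0 z (n 0 z (n 0 z (n 0 z (n 0 z (n 0 z (n 0 z (n 0 z (n 0 z (n 0 z (n 0 z (n 0 z (n 0 z
 (n 0 z (n 0 z (n 0 z (n 0 z (n 0 z (n 0 z (n 0 z (n 0 z (n 0 z (n 0 z (n 0 z (n 0 z (n 0 z (n 0
 z (n 0 z (n 0 z (n 0 z (n 0 z (n 0 z (n 0 z (n 0 z (n 0 z (n 0 z (n 2 (n 0 z z) (n 0 z (n 0 z
 (n 0 z (n 0 z (n 0 z (n 0 z (n 0 z (n 0 z z)))))))))))))))))))))))))))))))))))))))))))))) (n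
 1009 (n 0 z (n 0 z (n 0 z (n 0 z (n 0 z (n 0 z (n 0 z (n 0 z (n 0 z (n 0 z (n 0 z (n 0 z (n 0 z
 (n 0 z (n 0 z (n 0 z (n 0 z (n 0 z (n 2 z (n 0 z (n 0 z (n 0 z (n 0 z (n 0 z (n 0 z (n 0 z (n 0
 z (n 0 z (n 0 z (n 0 z (n 0 z (n 0 z (n 0 z (n 0 z (n 0 z (n 0 z (n 0 z (n 0 z (n 0 z (n 0 z (n
 0 z (n 0 z (n 0 z (n 0 z (n 0 z (n 0 z z))))))))))))))))))))))))))))))))))))))))))))))
 z)))))))) (n 0 (n 0 z (n 411 (n 0 z (n 2 (n 1 z (n 1 z (n 1 z (n 2 (n 0 z (n 0 z (n 0 z (n 0 z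
 (n 0 (n 8852491 z z) (n 0 z z)))))) (n 2 (n 0 z (n 0 z (n 0 z (n 0 z (n 0 (n 8785955 z (n
 8785955 z z)) (n 0 (n 8785955 z z) z)))))) z))))) (n 0 z (n 0 z (n 0 z (n 0 z (n 0 z (n 0 z (n
 0 z (n 0 z (n 0 z z))))))))))) (n 535 (n 0 z (n 0 z (n 0 z (n 0 z (n 0 z (n 0 z (n 0 z (n 0 z
 (n 0 z (n 0 z (n 0 z z))))))))))) (n 531 (n 0 z (n 0 z (n 0 z (n 0 z (n 2 (n 0 z (n 2 (n 0 z (n
 0 z (n 0 z (n 0 z (n 0 z (n 0 z z)))))) (n 2 (n 0 z (n 0 z (n 0 z (n 0 z (n 0 (n 8785955 z (n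
 8785955 z z)) (n 0 (n 8785955 z z) z)))))) z))) (n 0 z (n 0 z (n 0 z (n 0 z (n 0 z (n 0 z (n 0
 z (n 0 z (n 0 z z)))))))))))))) (n 531 (n 0 z (n 0 z (n 0 z (n 0 z (n 0 z (n 7734043 z (n
 7734043 z (n 0 z (n 0 z (n 0 z (n 0 z (n 0 z (n 0 z (n 0 z z)))))))))))))) (n 533 (n 0 z (n 0 z
 (n 0 z (n 0 z (n 0 z (n 0 z (n 0 z (n 0 z (n 0 z (n 0 z (n 0 z (n 0 z (n 0 z (n 0 z (n 0 z (n 0
 z (n 0 z (n 0 z (n 0 z (n 0 z (n 0 z (n 0 z (n 0 z (n 0 z (n 0 z (n 0 z (n 0 z (n 0 z (n 0 z (n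
 0 z (n 0 z (n 0 z (n 0 z (n 0 z (n 0 z (n 0 z (n 0 z (n 0 z (n 0 z (n 0 z (n 2 (n 0 z z) (n 0 z
 (n 0 z (n 0 z (n 0 z (n 0 z z)))))))))))))))))))))))))))))))))))))))))))))) (n 533 (n 0 z (n 0
 z (n 0 z (n 0 z (n 0 z (n 0 z (n 0 z (n 0 z (n 0 z (n 0 z (n 0 z (n 0 z (n 0 z (n 0 z (n 0 z (n
 0 z (n 0 z (n 0 z (n 0 z (n 0 z (n 0 z (n 7737379 z (n 0 z (n 0 z (n 0 z (n 0 z (n 0 z (n 0 z
 (n 0 z (n 0 z (n 0 z (n 0 z (n 0 z (n 0 z (n 0 z (n 0 z (n 0 z (n 0 z (n 0 z (n 0 z (n 0 z (n 0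
 z (n 0 z (n 0 z (n 0 z (n 0 z z)))))))))))))))))))))))))))))))))))))))))))))) z))))))) (n 0 (n
 417 (n 0 z (n 0 z (n 2 (n 2 (n 0 z (n 0 z (n 0 z (n 0 z (n 0 z (n 0 z z)))))) (n 1 z (n 2 (n 0
 z (n 0 z (n 0 z (n 0 z (n 0 z (n 0 z z)))))) (n 2 (n 0 z (n 0 z (n 0 z (n 0 z (n 0 z (n 0 z
 z)))))) (n 2 (n 0 z (n 0 z (n 0 z (n 0 z (n 0 z (n 0 z z)))))) z))))) (n 0 z (n 0 z (n 0 z (n 0
 z (n 0 z (n 0 z z))))))))) (n 405 (n 0 z (n 0 z (n 0 z (n 0 z (n 0 z (n 0 z (n 0 z (n 0 z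
 z)))))))) (n 309 (n 0 z (n 0 z (n 0 z (n 0 z (n 2 (n 0 z (n 2 (n 0 z (n 0 z (n 0 z (n 0 z (n 0
 z (n 0 z z)))))) (n 2 (n 0 (n 5 z z) (n 0 (n 1268 z z) (n 0 z (n 0 z (n 0 (n 1268 z (n 1268 z
 z)) (n 0 z z)))))) z))) (n 0 z (n 0 z (n 0 z (n 0 z (n 0 z (n 0 z (n 0 z z)))))))))))) (n 309
 (n 0 z (n 0 z (n 0 z (n 0 z (n 0 z (n 0 z (n 0 z (n 0 z (n 0 z (n 0 z (n 0 z (n 0 z
 z)))))))))))) (n 317 (n 0 z (n 0 z (n 2 (n 0 z z) (n 0 z (n 0 z (n 0 z (n 0 z (n 0 z (n 0 z (n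
 0 z (n 0 z (n 0 z z)))))))))))) (n 317 (n 2 z (n 0 z (n 0 z (n 0 z (n 0 z (n 0 z (n 0 z (n 0 z
 (n 0 z (n 0 z (n 0 z (n 0 z z)))))))))))) z)))))) (n 0 (n 393 (n 0 z (n 0 z (n 2 (n 1 z (n 1 z
 (n 1 z (n 1 z z)))) (n 0 z (n 0 z z))))) (n 15 (n 0 z (n 0 z (n 0 z (n 0 z (n 0 z (n 0 z (n 0 z
 (n 0 z z)))))))) (n 15 (n 0 z (n 0 z (n 0 z (n 0 z (n 0 z (n 0 z (n 2 (n 1 z (n 1 z z)) (n 0 z
 z)))))))) (n 17 (n 0 z (n 0 z (n 0 z (n 0 z z)))) (n 17 (n 0 z (n 0 z (n 0 z (n 2 z z))))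
 z))))) (n 0 (n 243 (n 0 z (n 0 z (n 0 z (n 0 z (n 0 z (n 0 z (n 0 z (n 0 z (n 0 z (n 0 z (n 0 z
 (n 0 z (n 0 z (n 0 z (n 2 (n 0 z (n 1 z (n 1 z z))) (n 0 z (n 0 z (n 0 z (n 0 z (n 0 z (n 0 z
 (n 0 z (n 0 z (n 0 z (n 0 z (n 0 z (n 0 z (n 0 z (n 0 z (n 0 z (n 0 z (n 0 z (n 0 z (n 0 z (n 0
 z (n 0 z z)))))))))))))))))))))))))))))))))))) (n 243 (n 0 z (n 0 z (n 0 z (n 0 z (n 0 z (n 0 z
 (n 0 z (n 0 z (n 0 z (n 0 z (n 0 z (n 0 z (n 0 z (n 0 z (n 0 z (n 0 z (n 0 z (n 0 z (n 0 z (n 0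
 z (n 0 z (n 0 z (n 0 z (n 0 z (n 0 z (n 0 z (n 0 z (n 0 z (n 0 z (n 0 z (n 0 z (n 0 z (n 0 z (n
 0 z (n 0 z (n 0 z z)))))))))))))))))))))))))))))))))))) (n 245 (n 0 z (n 0 z (n 0 z (n 0 z (n 0
 z (n 0 z (n 0 z (n 0 z (n 0 z (n 2 (n 0 z z) (n 0 z (n 0 z z)))))))))))) (n 245 (n 0 z (n 0 z
 (n 0 z (n 0 z (n 0 z (n 0 z (n 0 z (n 0 z (n 0 z (n 0 z (n 2 z (n 0 z z)))))))))))) z)))) (n 0
 (n 0 z (n 1 (n 0 z (n 0 z (n 0 z (n 0 z (n 0 z (n 0 z (n 0 z (n 0 z (n 0 z (n 0 z (n 0 z (n 0 z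
 z)))))))))))) (n 1 (n 0 z (n 0 z (n 0 z (n 2 z (n 0 z (n 0 z (n 0 z (n 0 z (n 0 z (n 0 z (n 0 z
 (n 0 z z)))))))))))) z))) (n 0 (n 1 (n 0 z (n 0 z (n 0 z (n 0 z (n 0 z (n 0 z (n 0 z (n 0 z (n
 0 z (n 0 z (n 0 z (n 0 z (n 0 z (n 0 z (n 0 z (n 0 z (n 0 z (n 0 z (n 0 z (n 0 z (n 0 z (n 0 z
 (n 0 z (n 0 z (n 0 z (n 0 z (n 0 z (n 0 z (n 0 z (n 0 z (n 0 z (n 0 z (n 0 z (n 0 z (n 0 z (n 0
 z (n 0 z (n 0 z (n 0 z (n 0 z (n 0 z (n 0 z (n 0 z (n 0 z (n 0 z (n 0 z (n 0 z (n 0 z (n 0 z (n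
 0 z (n 0 z (n 0 z (n 0 z (n 0 z (n 2 (n 0 z z) (n 0 z
 z)))))))))))))))))))))))))))))))))))))))))))))))))))))))) (n 1 (n 0 z (n 0 z (n 0 z (n 0 z (n 0
 z (n 0 z (n 0 z (n 0 z (n 0 z (n 0 z (n 0 z (n 0 z (n 0 z (n 0 z (n 0 z (n 0 z (n 0 z (n 0 z (n
 0 z (n 0 z (n 0 z (n 0 z (n 0 z (n 0 z (n 0 z (n 0 z (n 0 z (n 0 z (n 0 z (n 0 z (n 0 z (n 0 z
 (n 0 z (n 0 z (n 0 z (n 0 z (n 0 z (n
 0x990ba8300c001d8dd8c806002ea6c864038008017ff8017ff8008008008008008008018008008008008018008008018007ff8018008008008018008007fe8018007ff8008007fe8008008008008007ff8008018008008008008008001811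
 z (n 0 z (n 0 z (n 0 z (n 0 z (n 0 z (n 0 z (n 0 z (n 0 z (n 0 z (n 0 z (n 2 z (n 0 z (n 0 z (n
 0 z (n 0 z (n 0 z (n 0 z (n 0 z z)))))))))))))))))))))))))))))))))))))))))))))))))))))))) z))
 (n 0 (n 0 z z) (n 0 z z)))))))))) (n 0 (n 0 z (n 1 (n 6496515 z (n 6496515 z (n 6496515 z (n
 6496515 z (n 6496515 z (n 6496515 z z)))))) (n 0 z (n 0 z (n 0 z (n 0 z z)))))) (n 0 z z)))) (n
 0x1ba5a0ca9dd4699e822aec12a648ad3b08a91370a6c32804dd00 (n 0 (n 153 (n 0 z (n 2 z (n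
 0x1652651303805329b29900c05995150c80601ac86a864077f484180c7df81e7b580484d8617ca7d97ed80b7e68a382877581482b75f81c8038047ec8008187e57d181e82f7f483d8198407c17a280d8097c081e8257dc80c7b27ed84980c8128578052011
 z (n 6492227 z (n 0 z (n 0 z (n 6492227 z (n 0 z (n 0 z (n 10 z (n 0 z z))))))))))) (n 57 (n 18
 z (n 0 z (n 6492227 z (n 6562099 z (n 6562099 z (n 6496515 z (n 0 z (n 6496515 z (n
 0x2329328201c005951948c06006c86c864037fb80d7f97ed8088058148058287ee8028097f77fe82b7de7df8107f57e58037fa8077fa7fb7f880680c8027fe80680780a8087fd7ea7f68077e78177f77dc7f37dd8138217fe7f18238091811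
 z z))))))))) (n 51 (n 0 z (n 0 z (n 26 z (n 6496515 z (n 0 z z))))) (n 3 (n 34 z (n
 0x2595195080e000ca6a802078017f48008048008087fe7f97ea80780780b7fe8047ca8098217f67fa8297fd8087f38068088038008008047fe8027fa7f87fd80180b8038008167e97fb80980c81b7f87ec80780a7eb7ff1011
 z (n 6492227 z (n 6496515 z (n 6492227 z (n 6488603 z (n 6492227 z (n 42 z (n 50 z (n 6496515 z
 (n 6496515 z (n 58 z z)))))))))))) (n 1 (n 6562099 z (n 0 z (n 0 z (n 0 z (n 0 z z))))) (n 0 (n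
 2164315 z (n 66 z (n 0 z (n 74 z (n 0 z (n 0 z (n 0 z (n 0 z (n 0 z (n 0 z (n 0 z (n 0 z (n 0 z
 (n 0 z z)))))))))))))) z)))))) (n 51 (n 0 (n 0 z (n 1163 (n 0 z (n 0 z (n 0 z (n 0 z (n 0 z (n
 0 z (n 0 z (n 0 z (n 0 z (n 0 z (n 0 z z))))))))))) (n 1161 (n 0 z (n 0 z (n 0 z (n 0 z (n 0 z
 (n 0 z (n 0 z (n 0 z (n 0 z (n 0 z (n 0 z (n 0 z (n 0 z (n 0 z (n 0 z (n 0 z (n 2 (n 1 z (n 1 z
 (n 2 (n 0 z (n 0 z (n 0 (n 3988 z z) (n 0 z (n 0 z (n 0 z z)))))) (n 2 (n 0 z (n 0 z (n 0 z (n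
 0 z (n 0 z (n 0 z z)))))) (n 1 z (n 1 z z)))))) (n 0 z (n 0 z (n 0 z (n 0 z (n 0 z (n 0 z (n 0
 z (n 0 z (n 0 z (n 0 z (n 0 z (n 0 z (n 0 z (n 0 z (n 0 z (n 0 z
 z))))))))))))))))))))))))))))))))) (n 997 (n 0 z (n 0 z (n 0 z (n 0 z (n 0 z (n 0 z (n 0 z (n
 0x1d89d8540e008ecaeca4077ff7fe8007ff8007ff8027fe7f98028018037fd7fe7ea8048087fe8008098027ff8018068028008008008047fb8068027fd7fe80180280280080a7f880180980380e7ff7ff8018047f58031011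
 z (n 0 z (n 0 z (n 0 z z))))))))))) (n 997 (n 0 z (n 0 z (n 0 z (n 2 (n 0 z (n 0 z (n 2 (n 0 z
 (n 0 z (n 0 (n 1220 z (n 1220 z z)) (n 0 z (n 0 z (n 0 (n 1220 z z) z)))))) (n 2 (n 0 z (n 0 z
 (n 0 z (n 0 z (n 0 z (n 0 z z)))))) z)))) (n 0 z (n 0 z (n 0 z (n 0 z (n 0 z (n 0 z (n 0 z
 z))))))))))) (n 997 (n 0 z (n 0 z (n 2 (n 0 z (n 2 (n 0 z (n 0 z (n 0 (n 8864531 z (n 8864531 z
 z)) (n 0 z (n 0 z (n 0 (n 8864531 z z) z)))))) (n 2 (n 0 z (n 0 z (n 0 z (n 0 z (n 0 z (n 0 z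
 z)))))) z))) (n 0 z (n 0 z (n 0 z (n 0 z (n 0 z (n 0 z (n 0 z (n 0 z z))))))))))) (n 997 (n 0 z
 (n 0 z (n 0 z (n 0 z (n 0 z (n 0 z (n 0 z (n 0 z (n 0 z (n 2 (n 2 (n 0 z (n 0 (n 1220 z z) (n 0
 (n 1220 z (n 1220 z z)) (n 0 (n 1220 z z) (n 0 z (n 0 z z)))))) (n 2 (n 0 z (n 0 z (n 0 z (n 0
 z (n 0 z (n 0 z z)))))) z)) (n 0 z z))))))))))) (n 305 (n 0 z (n 2 (n 0 z z) (n 0 z (n 0 z (n 0
 z (n 0 z (n 0 z (n 0 z (n 0 z (n 0 z (n 0 z z))))))))))) (n 305 (n 0 z (n 0 z (n 0 z (n 0 z (n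
 0 z (n 0 z (n 0 z (n 0 z (n 0 z (n 0 z (n 0 z z))))))))))) z))))))))) (n 0 (n 1191 (n 0 z (n 0
 z (n 2 (n 1 z (n 1 z (n 1 z (n 2 (n 0 z (n 0 z (n 0 z (n 0 z (n 0 z (n 0 z z)))))) (n 2 (n 0 z
 (n 0 z (n 0 z (n 0 z (n 0 z (n 0 z z)))))) (n 1 z (n 1 z z))))))) z))) (n 1193 (n 0 z (n 0 z (n
 0 z (n 0 z (n 0 z (n 0 z (n 0 z (n 0 z (n 0 z (n 0 z (n 0 z (n 0 z (n 0 z (n 0 z (n 0 z (n 0 z
 (n 0 z (n 0 z (n 0 z (n 0 z (n 0 z (n 0 z (n 0 z (n 0 z (n 0 z (n 0 z (n 0 z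
 z))))))))))))))))))))))))))) (n 315 (n 2 (n 0 z (n 0 z (n 0 z (n 1 z (n 1 z z))))) (n 0 z (n 0
 z (n 0 z (n 0 z (n 0 z (n 0 z (n 0 z (n 0 z (n 0 z (n 0 z (n 0 z (n 0 z z))))))))))))) (n 315
 (n 0 z (n 0 z (n 0 z (n 0 z (n 0 z (n 0 z (n 0 z (n 0 z (n 0 z (n 0 z (n 0 z (n 0 z (n 0 z
 z))))))))))))) (n 315 (n 0 z (n 0 z (n 0 z (n 0 z (n 0 z (n 0 z (n 0 z (n 0 z (n 0 z (n 0 z (n
 0 z (n 0 z (n 0 z z))))))))))))) (n 315 (n 0 z (n 0 z (n 0 z (n 0 z (n 0 z (n 0 z (n 0 z (n 0 z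
 (n 0 z (n 0 z (n 0 z (n 0 z (n 0 z z))))))))))))) (n 305 (n 0 z (n 0 z (n 0 z (n 0 z (n 0 z (n
 0 z (n 0 z (n 0 z (n 0 z (n 0 z (n 2 (n 0 z z) (n 0 z (n 0 z (n 0 z (n 0 z (n 0 z (n 0 z (n 0 z
 z)))))))))))))))))) (n 305 (n 0 z (n 0 z (n 0 z (n 0 z (n 0 z (n 0 z (n 0 z (n 0 z (n 0 z (n 0
 z (n 0 z (n 2 z (n 0 z (n 0 z (n 0 z (n 0 z (n 0 z (n 0 z z)))))))))))))))))) z)))))))) (n 0 (n
 1173 (n 0 z (n 0 z (n 2 (n 1 z (n 1 z (n 2 (n 0 z (n 0 z (n 0 (n 4660 z z) (n 0 z (n 0 z (n 0 z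
 z)))))) (n 2 (n 0 z (n 0 z (n 0 z (n 0 z (n 0 z (n 0 z z)))))) (n 1 z (n 1 z z)))))) (n 0 z (n
 0 z (n 0 z (n 0 z (n 0 z z)))))))) (n 1165 (n 0 z (n 0 z (n 0 z (n 0 z (n
 0x21765765203800329b29901c009d4d84080e000ea4ea42037fe7f48007f880081280b7f67e98068068057fc80a7be7ef8268067ea8118117f57f28208067f98007fb8007fb8058167fd80380b80f7f580e8247df7e78157fa8437f88157fe7ff7cd8202011
 z (n
 0x1abb200437647f780c8007ed80080580d80480f7f47fc8037fd7f58147ec7e580780c7f880b7ff80b7fc7ff7fd8008008027fa7fb8057fd8118037f98048087fb80d80b7f97f77ee80881480680c8188080091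
 z (n 0 z (n 0 z (n 0 z (n 0 z (n 0 z z))))))))))) (n 1165 (n 0 z (n 0 z (n 2 (n 0 z (n 0 z (n 2
 (n 0 z (n 0 z (n 0 (n 452 z (n 452 z z)) (n 0 z (n 0 z (n 0 (n 452 z z) z)))))) (n 2 (n 0 z (n
 0 z (n 0 (n 8798987 z z) (n 0 z (n 0 z (n 0 z z)))))) z)))) (n 0 z (n 0 z (n 0 z (n 0 z (n 0 z
 (n 0 z (n 0 z (n 0 z z))))))))))) (n 1165 (n 0 z (n 0 z (n 0 z (n 2 (n 0 z (n 2 (n 0 z (n 0 z
 (n 0 (n 8864531 z (n 8864531 z z)) (n 0 z (n 0 z (n 0 (n 8864531 z z) z)))))) (n 2 (n 0 z (n 0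
 z (n 0 (n 8798987 z z) (n 0 z (n 0 z (n 0 z z)))))) z))) (n 0 z (n 0 z (n 0 z (n 0 z (n 0 z (n
 0 z (n 0 z z))))))))))) (n 1165 (n 0 z (n 0 z (n 0 z (n 0 z (n 0 z (n 0 z (n 0 z (n 0 z (n 0 z
 (n 0 z (n 2 (n 2 (n 0 z (n 0 z (n 0 z (n 0 z (n 0 z (n 0 z z)))))) (n 2 (n 0 z (n 0 z (n 0 z (n
 0 z (n 0 z (n 0 z z)))))) z)) z))))))))))) (n 113 (n 2 (n 0 z z) (n 0 z (n 0 z (n 0 z (n 0 z
 z))))) (n 113 (n 0 z (n 0 z (n 0 z (n 0 z (n 0 z z))))) z))))))) (n 0 (n 27 (n 2 (n 0 z (n 0 z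
 (n 0 z (n 1 z (n 1 z z))))) (n 0 z (n 0 z (n 0 z (n 0 z (n 0 z (n 0 z (n 0 z (n 0 z (n 0 z (n 0
 z (n 0 z (n 0 z (n 0 z (n 0 z (n 0 z (n 0 z (n 0 z (n 0 z (n 0 z (n 0 z (n 0 z (n 0 z
 z))))))))))))))))))))))) (n 27 (n 0 z (n 0 z (n 0 z (n 0 z (n 0 z (n 0 z (n 0 z (n 0 z (n 0 z
 (n 0 z (n 0 z (n 0 z (n 0 z (n 0 z (n 0 z (n 0 z (n 0 z (n 0 z (n 0 z (n 0 z (n 0 z (n 0 z (n 0
 z z))))))))))))))))))))))) (n 27 (n 0 z (n 0 z (n 0 z (n 0 z (n 0 z (n 0 z (n 0 z (n 0 z (n 0 z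
 (n 0 z (n 0 z (n 0 z (n 0 z (n 0 z (n 0 z (n 0 z (n 0 z (n 0 z (n 0 z (n 0 z (n 0 z (n 0 z (n 0
 z z))))))))))))))))))))))) (n 27 (n 0 z (n 0 z (n 0 z (n 0 z (n 0 z (n 0 z (n 0 z (n 0 z (n 0 z
 (n 0 z (n 0 z (n 0 z (n 0 z (n 0 z (n 0 z (n 0 z (n 0 z (n 0 z (n 0 z (n 0 z (n 0 z (n 0 z (n 0
 z z))))))))))))))))))))))) (n 97 (n 0 z (n 0 z (n 2 (n 0 z z) (n 0 z (n 0 z (n 0 z z)))))) (n
 97 (n 0 z (n 0 z (n 0 z (n 2 z (n 0 z (n 0 z z)))))) z)))))) (n 0 (n 0 z (n 0 z (n 0 z (n 5 (n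
 0 z (n 0 z (n 0 z (n 0 z (n 0 z (n 0 z (n 0 z (n 0 z (n 0 z (n 0 z (n 0 z z))))))))))) (n 5 (n
 0 z (n 0 z (n
 0x29d91d9080e000c86ea02078017f78007ff8008058017f97f380280480e7fd8027cb80881d7f67fe8288008097f88038088038008008087fa8067f87f67fd7ff8058058028127eb7fc80780c8157fb7f080980b7f28011011
 z (n 0 z (n 0 z (n 0 z (n 0 z (n 0 z (n 0 z (n 0 z (n 0 z z))))))))))) z))))) (n 0 (n 0 z (n 0
 z (n 5 (n 0 z (n 0 z (n 0 z (n 0 z (n 0 z (n 0 z (n 0 z (n 0 z (n 0 z (n 0 z (n 0 z (n 0 z (n 0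
 z (n 2 (n 0 z z) (n 0 z (n 0 z (n 0 z (n 0 z (n 0 z (n 0 z (n 0 z (n 0 z (n 0 z
 z))))))))))))))))))))))) (n 5 (n 0 z (n 0 z (n 0 z (n 0 z (n 0 z (n 0 z (n 0 z (n 0 z (n 0 z (n
 0 z (n 0 z (n 0 z (n 0 z (n 0 z (n 2 z (n 0 z (n 0 z (n 0 z (n 0 z (n 0 z (n 0 z (n 0 z (n 0 z
 z))))))))))))))))))))))) z)))) (n 0 (n 0 z (n 245 (n 0 z (n 0 z (n 0 z (n 7750419 z (n 0 z (n 0
 z (n 0 z (n 0 z (n 0 z (n 0 z (n 0 z (n 0 z (n 0 z (n 0 z (n 0 z (n 0 z (n 0 z (n 0 z (n 0 z (n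
 0 z (n 0 z (n 0 z (n 0 z z))))))))))))))))))))))) (n 245 (n 0 z (n 0 z (n 0 z (n 0 z (n 0 z (n
 0 z (n 0 z (n 0 z (n 0 z (n 0 z (n 2 z (n 0 z (n 0 z (n 0 z (n 0 z (n 0 z (n 0 z (n 0 z (n 0 z
 (n 0 z (n 0 z (n 0 z (n 0 z z))))))))))))))))))))))) z))) (n 0 (n 245 (n 0 z (n 0 z (n 2 (n 0 z
 z) (n 0 z (n 0 z (n 0 z (n 0 z (n 0 z z)))))))) (n 245 (n 0 z (n 0 z (n 0 z (n 0 z (n 2 z (n 0
 z (n 0 z (n 0 z z)))))))) z)) (n 0 (n 0 z z) (n 0 z z)))))))))) (n 0 (n 0 z (n 0 z (n 1 (n 1228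
 z (n 1228 z (n 1228 z (n 460 z (n 6488603 z (n 1228 z z)))))) (n 1 (n 6496515 z (n 6496515 z (n
 6496515 z (n 6496515 z (n 6496515 z (n 6496515 z z)))))) (n 0 z z))))) (n 0 z z)))) (n
 0x60aa718a5a8865645b0b162aa02d4500b6540 (n 0 (n 159 (n 6561811 z (n 6561811 z (n 2 z (n 6561811
 z (n 6561811 z (n 10 z (n 18 z (n 6554411 z (n 6554411 z z))))))))) (n 33 (n 0 z (n 6496515 z
 (n 0 z z))) (n 9 (n 0 z (n 6496515 z (n 26 z z))) (n 147 (n 0 z (n 0 z (n 0 z (n 6496515 z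
 z)))) (n 1 (n 6561811 z (n 34 z (n 42 z (n 6561811 z (n 6561811 z (n
 0x2aca8a6200789f6a08a089d75f8218646608e09a48e17df8625e089f69e72481d82081e81f8a28616df7270801 z
 (n 50 z (n 6554411 z (n
 0xeca8a206030594d94c00e1b29b28801c165165100386ca6c42007a9f727a2169c75e92496079f9599e4a5d9a08a06a18f151e66a8a09a09dc81f7a198a72c7622801
 z (n 6558219 z z)))))))))) (n 0 (n
 0x2c86c8640382082082082082081f7e08208208208207e082082082082086082082082082182082081f8200801 z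
 (n 0 z (n 0 z (n 0 z (n 0 z (n 0 z (n 0 z (n 0 z (n 0 z (n 0 z (n 0 z (n 0 z (n 6624267 z (n
 0xa4c40516209a36a599c71e7df7a78617d68e68aa9e772079f7687d889d76185d8207df85e6218a481a7a50081 z
 (n 0 z (n 0 z (n
 0x2c84c826038208208208618207de8207e07e081f8207e082082082082086082082182082082082081f8200801 z
 (n 6624267 z (n 0 z (n 0 z (n 0 z (n 0 z (n 0 z (n 0 z (n 0 z (n 0 z (n
 0xd4c82696419e4664a1b6de79f7698607d28e78ada696e179f6ea7968db72181d8617df85e5618e68187660081 z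
 (n 0 z (n 0 z (n 0 z (n 0 z z))))))))))))))))))))))))))))))) z)))))) (n 33 (n 0 (n 0 z (n 0 z
 (n 417 (n 0 z (n 0 z (n 0 z (n 0 z (n 0 z (n 0 z (n 0 z (n 0 z z)))))))) (n 565 (n 0 z (n 0 z
 (n 0 z (n 0 z (n 0 z (n 0 z (n 0 z (n 0 z (n 0 z (n 0 z z)))))))))) (n 565 (n 0 z (n 0 z (n 0 z
 (n 2 (n 0 z z) (n 0 z (n 0 z (n 0 z (n 0 z (n 0 z (n 0 z z)))))))))) (n 565 (n 0 z (n 0 z (n 0
 z (n 0 z (n 0 z (n 0 z (n 0 z (n 0 z (n 0 z (n 0 z z)))))))))) z)))))) (n 0 (n 0 z (n 411 (n 0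
 z (n 0 z (n 0 z (n 0 z (n 0 z (n 0 z (n 0 z (n 0 z (n 0 z (n 0 z (n 0 z (n 0 z (n 0 z (n 0 z
 z)))))))))))))) (n 537 (n 0 z (n 0 z (n 0 z (n 0 z (n 0 z (n 0 z (n 0 z (n 0 z (n 0 z (n 0 z (n
 0 z z))))))))))) (n 537 (n 0 z (n 0 z (n 0 z (n 0 z (n 0 z (n 0 z (n 0 z (n 7737379 z (n 0 z (n
 0 z (n 0 z z))))))))))) (n 537 (n 7734043 z (n 7734043 z (n 0 z (n 0 z (n 0 z (n 0 z (n 0 z (n
 0 z (n 0 z (n 0 z (n 0 z z))))))))))) z))))) (n 0 (n 1015 (n 0 z (n 0 z (n 0 z (n 0 z (n 0 z (n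
 0 z (n 0 z (n 0 z (n 0 z z))))))))) (n 303 (n 0 z (n 0 z (n 0 z (n 0 z (n 0 z (n 0 z (n 0 z (n
 0 z (n 0 z (n 0 z z)))))))))) (n 303 (n 0 z (n 0 z (n 2 (n 0 z z) (n 0 z (n 0 z (n 0 z (n 0 z
 (n 0 z (n 0 z (n 0 z z)))))))))) (n 303 (n 0 z (n 0 z (n 0 z (n 0 z (n 0 z (n 0 z (n 0 z (n 0 z
 (n 0 z (n 0 z z)))))))))) z)))) (n 0 (n 15 (n 0 z (n 0 z (n 0 z (n 0 z (n 0 z (n 0 z (n 0 z
 z))))))) (n 15 (n 0 z (n 0 z (n 2 (n 0 z z) (n 0 z (n 0 z (n 0 z (n 0 z z))))))) (n 15 (n 0 z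
 (n 0 z (n 0 z (n 0 z (n 0 z (n 0 z (n 0 z z))))))) z))) (n 0 (n 0 z (n 0 z z)) (n 0 (n 0 z z)
 (n 0 z z))))))) (n 0 (n 0 z (n 1 (n 6496515 z (n 6496515 z (n 6496515 z (n 6496515 z (n 6496515
 z (n 6496515 z z)))))) (n 0 z z))) (n 0 z z)))) (n 0xad337075c9434cc82a8e64eb02d6980f6740 (n 0
 (n 159 (n 6561811 z (n 6561811 z (n 2 z (n 6561811 z (n 10 z (n 18 z (n 6554411 z (n 6554411 z
 z)))))))) (n 33 (n 6496515 z (n 0 z z)) (n 9 (n 0 z (n 6496515 z (n 0 z z))) (n 147 (n 0 z (n 0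
 z (n 0 z (n 6496515 z z)))) (n 1 (n 6561811 z (n 26 z (n 34 z (n 6561811 z (n 42 z (n 6554411 z
 (n 6558219 z z))))))) (n 0 (n 0 z (n 0 z (n 0 z (n 50 z (n 0 z (n 6624267 z (n 0 z (n 0 z
 z)))))))) z)))))) (n 33 (n 0 (n 0 z (n 0 z (n 565 (n 0 z (n 0 z (n 2 (n 0 z (n 0 z (n 1 z z)))
 (n 0 z (n 0 z (n 0 z (n 0 z z))))))) (n 565 (n 0 z (n 0 z (n 0 z (n 0 z (n 0 z (n 0 z (n 0 z
 z))))))) (n 565 (n 0 z (n 0 z (n 0 z (n 0 z (n 0 z (n 0 z (n 0 z z))))))) (n 317 (n 0 z (n 2 z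
 (n 0 z (n 0 z (n 0 z (n 0 z (n 0 z z))))))) z)))))) (n 0 (n 0 z (n 537 (n 0 z (n 0 z (n 0 z (n
 0 z (n 0 z (n 0 z (n 7737379 z (n 0 z (n 0 z z))))))))) (n 537 (n 0 z (n 0 z (n 0 z (n 0 z (n 0
 z (n 0 z (n 0 z (n 0 z (n 0 z z))))))))) (n 537 (n 0 z (n 7734043 z (n 0 z (n 0 z (n 0 z (n 0 z
 (n 0 z (n 0 z (n 0 z z))))))))) (n 533 (n 0 z (n 0 z (n 0 z (n 0 z (n 0 z (n 0 z (n 0 z (n 0 z
 (n 0 z (n 0 z (n 0 z (n 0 z (n 0 z (n 0 z z)))))))))))))) z))))) (n 0 (n 303 (n 0 z (n 2 (n 0 z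
 (n 0 z (n 1 z z))) (n 0 z (n 0 z (n 0 z (n 0 z (n 0 z z))))))) (n 303 (n 0 z (n 0 z (n 0 z (n 0
 z (n 7734043 z (n 0 z (n 0 z z))))))) (n 303 (n 0 z (n 0 z (n 0 z (n 0 z (n 0 z (n 0 z (n 0 z
 z))))))) (n 1009 (n 0 z (n 0 z (n 0 z (n 0 z (n 0 z (n 0 z (n 0 z (n 0 z (n 0 z (n 0 z (n 0 z
 (n 0 z (n 0 z (n 0 z z)))))))))))))) z)))) (n 0 (n 0 z (n 0 z (n 1 (n 0 z (n 0 z (n 0 z (n 0 z
 (n 0 z (n 0 z (n 0 z (n 0 z (n 0 z (n 0 z (n 0 z (n 0 z (n 0 z (n 0 z (n 0 z (n 0 z (n 0 z (n 0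
 z z)))))))))))))))))) z))) (n 0 (n 0 z (n 157 (n 0 z (n 0 z (n 0 z (n 0 z (n 0 z (n 0 z (n 0 z
 (n 0 z (n 0 z (n 0 z (n 0 z (n 0 z (n 0 z (n 0 z (n 0 z (n 0 z (n 0 z (n 0 z (n 0 z (n 0 z (n 0
 z z))))))))))))))))))))) z)) (n 0 (n 1 (n 0 z (n 0 z (n 0 z (n 0 z (n 0 z (n 0 z (n 0 z (n 0 z
 (n 0 z (n 0 z (n 0 z (n 0 z z)))))))))))) z) (n 0 z z))))))) (n 0 (n 1 (n 6496515 z (n 6496515
 z (n 6496515 z (n 6496515 z (n 6496515 z (n 6496515 z z)))))) (n 0 z z)) (n 0 z z)))) (n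
 0x262cd63166380b2f680959912a73065685845cc412e62c0 (n 0x1cc59 (n 597 (n 3282443 z (n 2 z (n 0 z
 (n 0 z z)))) (n 581 (n 10 z (n 0 z (n 0 z (n 6496595 z (n 0 z (n 18 z (n 0 z z))))))) (n 129 (n
 0 z (n 6423867 z (n 26 z (n 6496595 z (n 34 z (n 42 z z)))))) (n 3 (n 0 z (n 0 z (n 50 z (n
 6636291 z (n 0 z (n 0 z (n 0 z (n 6636291 z z)))))))) (n 1 (n 6636291 z (n 0 z (n 58 z (n 0 z
 (n 0 z z))))) (n 0 (n 0 z (n 6636291 z (n 66 z (n 0 z (n 0 z z))))) z)))))) (n 597 (n 0 (n 1403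
 (n 0 z (n 0 z (n 0 z (n 0 z (n 0 z (n 0 z (n 0 z (n 0 z (n 0 z (n 0 z (n 0 z (n 0 z
 z)))))))))))) (n 1403 (n 0 z (n 0 z (n 0 z (n 0 z (n 0 z (n 0 z (n 0 z (n 2 (n 1 z (n 2 (n 0 (n
 5604 z (n 5604 z z)) (n 0 z (n 0 z (n 0 (n 6633595 z (n 7739467 z z)) (n 0 (n 8726027 z (n
 8726027 z z)) (n 0 z z)))))) (n 2 (n 0 (n 8726027 z (n 8726027 z z)) (n 0 z (n 0 (n 5604 z (n
 5604 z z)) (n 0 (n 5604 z (n 7604267 z z)) (n 0 z (n 0 (n 5604 z (n 7604267 z z)) z)))))) (n 1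
 z (n 1 z (n 2 (n 0 z (n 0 z (n 0 z (n 0 (n 8872259 z (n 8872259 z z)) (n 0 (n 8872259 z (n
 8872259 z z)) (n 0 (n 8872259 z (n 8872259 z z)) z)))))) z)))))) (n 0 z (n 0 z (n 0 z (n 0 z
 z)))))))))))) (n 1401 (n 0 z (n 0 z (n 0 z (n 0 z (n 0 z z))))) (n 1401 (n 0 z (n 0 z (n 0 z (n
 0 z (n 0 z z))))) (n 1401 (n 0 z (n 0 z (n 0 z (n 0 z (n 0 z z))))) (n 491 (n 0 z (n 0 z (n 0 z
 z))) (n 489 (n 0 z (n 0 z (n 0 z z))) (n 481 (n 0 z (n 0 z z)) z)))))))) (n 0 (n 0 z (n 47 (n 0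
 z (n 0 z (n 0 z (n 0 z (n 0 z (n 0 z z)))))) (n 47 (n 0 z (n 0 z (n 0 z (n 0 z (n 0 z (n 0 z
 z)))))) (n 47 (n 0 z (n 0 z (n 0 z (n 0 z (n 0 z (n 0 z z)))))) (n 11 (n 0 z (n 0 z (n 0 z (n 0
 z (n 0 z (n 0 z (n 0 z (n 0 z z)))))))) (n 9 (n 0 z (n 0 z (n 0 z (n 0 z (n 0 z (n 0 z (n 0 z
 z))))))) (n 5 (n 0 z (n 0 z (n 0 z (n 0 z (n 0 z (n 0 z (n 0 z (n 0 z (n 0 z (n 0 z (n 0 z (n 0
 z (n 0 z (n 0 z (n 0 z (n 0 z (n 0 z (n 0 z (n 0 z (n 0 z z)))))))))))))))))))) z))))))) (n 0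
 (n 343 (n 0 z (n 0 z (n 0 z (n 0 z (n 0 z (n 0 z (n 2 (n 0 z (n 0 z (n 1 z (n 1 z (n 2 (n 0 z
 (n 0 z (n 0 z (n 0 (n 8855811 z (n 8855811 z z)) (n 0 (n 8855811 z (n 8855811 z z)) (n 0 (n
 8855811 z (n 8855811 z z)) z)))))) z))))) (n 0 z (n 0 z (n 0 z (n 0 z (n 0 z (n 0 z
 z))))))))))))) (n 343 (n 0 z (n 0 z (n 0 z (n 0 z (n 0 z (n 0 z (n 0 z (n 0 z (n 0 z (n 0 z (n
 0 z (n 0 z (n 0 z z))))))))))))) (n 343 (n 0 z (n 0 z (n 0 z (n 0 z (n 0 z (n 0 z (n 0 z (n 0 z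
 (n 0 z (n 0 z (n 0 z (n 0 z (n 0 z z))))))))))))) (n 59 (n 0 z (n 0 z (n 0 z (n 0 z (n 0 z (n 2
 (n 1 z (n 1 z z)) (n 0 z z))))))) (n 51 (n 0 z (n 0 z (n 2 (n 1 z z) z))) (n 49 (n 0 z (n 0 z
 (n 0 z (n 0 z (n 0 z (n 2 z (n 0 z z))))))) z)))))) (n 0 (n 0 z (n 0 z (n 59 (n 0 z (n 0 z (n 0
 z (n 0 z (n 0 z z))))) (n 3 (n 0 z (n 0 z (n 0 z (n 0 z (n 0 z (n 0 z (n 0 z (n 0 z (n 0 z
 z))))))))) (n 1 (n 0 z (n 0 z (n 0 z (n 0 z z)))) z))))) (n 0 (n 0 z (n 1157 (n 0 z (n 0 z (n 0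
 z (n 0 z (n 0 z (n 0 z (n 0 z z))))))) (n 255 (n 0 z (n 0 z (n 0 z (n 0 z (n 0 z (n 0 z (n 0 z
 (n 0 z (n 0 z (n 0 z (n 0 z (n 0 z (n 0 z (n 0 z (n 0 z (n 0 z (n 0 z z))))))))))))))))) (n 257
 (n 0 z (n 0 z (n 0 z z))) z)))) (n 0 (n 7 (n 0 z (n 0 z (n 0 z (n 7741699 z (n 0 z (n 0 z
 z)))))) (n 243 (n 0 z (n 0 z (n 0 z (n 0 z z)))) (n 241 (n 0 z (n 0 z (n 0 z (n 0 z (n 0 z (n 0
 z (n 0 z (n 0 z (n 0 z (n 0 z (n 0 z (n 0 z (n 0 z (n 0 z (n 0 z (n 0 z (n 0 z (n 0 z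
 z)))))))))))))))))) z))) (n 0 (n 63 (n 0 z (n 0 z (n 0 z z))) (n 61 (n 0 z (n 0 z (n 0 z (n 0 z
 z)))) z)) (n 0 (n 73 (n 0 z (n 0 z (n 0 z (n 0 z (n 0 z (n 0 z (n 0 z (n 0 z (n 0 z (n 0 z (n 0
 z (n 0 z z)))))))))))) z) (n 0 z z))))))))) (n 0 (n 1 (n 3282443 z (n 3282443 z (n 6636291 z (n
 3282443 z (n 3282443 z (n 3282443 z z)))))) (n 1 (n 2 z (n 4652 z (n 6636291 z (n 4652 z (n
 4652 z (n 4652 z z)))))) (n 0 z (n 0 z z)))) (n 0 (n 0x9a1611 (n 0 (n 0 (n 7741699 z (n 7741699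
 z (n 7741699 z (n 7741699 z (n 7741699 z (n 7741699 z z)))))) z) (n 0 (n 240 (n 1 (n 7668251 z
 (n 7668251 z (n 7668251 z (n 7668251 z (n 7545171 z (n 7668251 z z)))))) (n 1 (n 6627699 z (n
 3282699 z (n 3282699 z (n 3282699 z (n 7545171 z (n 3282699 z z)))))) z)) (n 23 (n 1 (n 7672619
 z (n 5660 z (n 2 z (n 5660 z (n 5660 z (n 5660 z z)))))) (n 1 (n 7741699 z (n 7741699 z (n
 7741699 z (n 7741699 z (n 7741699 z (n 7741699 z z)))))) (n 1 (n 7741699 z (n 7741699 z (n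
 7741699 z (n 7741699 z (n 7741699 z (n 7741699 z z)))))) (n 1 (n 7741699 z (n 7741699 z (n
 7741699 z (n 7741699 z (n 7741699 z (n 7741699 z z)))))) (n 1 (n 7741699 z (n 7741699 z (n
 7741699 z (n 7741699 z (n 7741699 z (n 7741699 z z)))))) (n 1 (n 5660 z (n 5660 z (n 5660 z (n
 5660 z (n 5660 z (n 7672619 z z)))))) z)))))) (n 0 (n 1 (n 7684867 z (n 7684867 z (n 7684867 z
 (n 7684867 z (n 7684867 z (n 7684867 z z)))))) (n 0 z (n 1 (n 7684867 z (n 7684867 z (n 7684867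
 z (n 7684867 z (n 7684867 z (n 7684867 z z)))))) (n 1 (n 7741699 z (n 7741699 z (n 7741699 z (n
 7741699 z (n 7741699 z (n 7741699 z z)))))) z)))) (n 299 (n 1 (n 7741699 z (n 4331275 z (n
 7684867 z (n 4331275 z (n 4331275 z (n 4331275 z z)))))) (n 1 (n 7741699 z (n 7545171 z (n
 7684867 z (n 7545171 z (n 7545171 z (n 7545171 z z)))))) (n 1 (n 7741699 z (n 476 z (n 7684867
 z (n 476 z (n 476 z (n 476 z z)))))) z))) (n 323 (n 1 (n 7741699 z (n 7603739 z (n 7684867 z (n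
 7677451 z (n 7603739 z (n 7603739 z z)))))) (n 1 (n 7741699 z (n 3282699 z (n 7684867 z (n
 3282699 z (n 3282699 z (n 3282699 z z)))))) (n 0 z z))) (n 345 (n 1 (n 7741699 z (n 7668251 z
 (n 7684867 z (n 7668251 z (n 3281011 z (n 7668251 z z)))))) (n 1 (n 7741699 z (n 3282699 z (n
 7684867 z (n 3282699 z (n 3282699 z (n 3282699 z z)))))) z)) (n 597 (n 1 (n 7741699 z (n
 3282699 z (n 7684867 z (n 3282699 z (n 3282699 z (n 3282699 z z)))))) (n 1 (n 7741699 z (n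
 3282795 z (n 7684867 z (n 3282795 z (n 3282795 z (n 3282795 z z)))))) (n 0 z (n 0 z z))))
 z))))))) (n 0 (n 0 (n 0 z z) z) (n 0 (n 707 (n 0 (n 0 (n 8872259 z (n 8872259 z z)) z) (n 0 (n
 0 z z) (n 0 (n 0 z z) (n 0 (n 0 (n
 0xc9064538328e27de8e385d7de6a17df8da95c795a1a8df8966a38d7a6686275c8a099e7a379a91d8ca8a00081 z
 (n 0x99064438328e17de8a385e7de6e17df89b91d7d799c8df8986e28d99a486279d86195f7e279b8de88e8600081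
 z z)) z) (n 0 (n 0 (n 8721195 z (n 8721195 z z)) z) (n 0 (n 0 z z) (n 0 (n 0 z z) (n 0 (n 0 (n
 8872259 z (n 8872259 z z)) z) (n 0 (n 0 (n 8521019 z (n 8521019 z z)) z) (n 0 (n 0 z z) (n 0 (n
 0 z z) (n 0 (n 0 z z) z)))))))))))) (n 713 (n 0 (n 0 z z) (n 0 (n 0 z z) (n 0 (n 0 (n 8593747 z
 (n 8593747 z z)) z) (n 0 (n 0 z z) (n 0 (n 0 z z) z))))) (n 47 (n 0 (n 0 z z) (n 0 (n 0 (n
 8790275 z (n 8790275 z z)) z) (n 0 (n 0 z z) (n 0 (n 0 z z) (n 0 (n 0 (n 8790275 z (n 8790275 z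
 z)) z) (n 0 (n 0 (n
 0x30ed0ca60381f85f8607e182182082081f82082082082082082082082182082082082086081f8207e08200801 z
 (n 0x30ed0ca60382085f8608218218208208208208208208208208208208208208208208208608208608208200801
 z z)) z) z)))))) (n 299 (n 0 (n 0 z z) (n 0 (n 0 z z) (n 0 (n 0 z z) z))) (n 59 (n 0 (n 0 z z)
 (n 0 (n 0 z z) (n 0 (n 0 z z) (n 0 (n 0 (n 8790275 z (n 8790275 z z)) z) (n 0 (n 0 z z) (n 0 (n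
 0 z z) (n 0 (n 0 z z) (n 0 (n 0 z z) z)))))))) (n 53 (n 0 (n 0 (n 7755851 z (n
 0x30ed0ec80382082081f86081f7e081e8608207e082082186082081f82082082082082082186182185f8200801 z
 z)) z) (n 0 (n 0 z z) (n 0 (n 0 z z) (n 0 (n 0 z z) (n 0 (n 0 z z) z))))) (n 323 (n 0 (n 0 (n
 8652315 z (n 8652315 z z)) z) (n 0 (n 0 z z) (n 0 (n 0 (n 8716827 z (n 8716827 z z)) z) z))) (n
 83 (n 0 (n 0 (n 8790275 z (n 8790275 z z)) z) (n 0 (n 0 (n 8790275 z (n 8790275 z z)) z) (n 0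
 (n 0 z z) (n 0 (n 0 (n 8790275 z (n 8790275 z z)) z) (n 0 (n 0 (n 8790275 z (n 8790275 z z)) z)
 (n 0 (n 0 (n 8790275 z (n 8790275 z z)) z) (n 0 (n 0 z z) z))))))) (n 15 (n 0 (n 0 z z) (n 0 (n
 0 z z) (n 0 (n 0 z z) (n 0 (n 0 (n
 0x1b87589f7de86282185f7e47de85d91b8658607667e091c56985c86b81f6db72289c71f9a36e18600041 z (n
 0x2ecb0a46078608208218208208208208208208208208208208208208208208208208208208208208208200801 z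
 z)) z) (n 0 (n 0 z z) (n 0 (n 0 z z) (n 0 (n 0 (n 8790275 z (n 8790275 z z)) z) (n 0 (n 0 z z)
 (n 0 (n 0 z z) z))))))))) (n 37 (n 0 (n 0 (n 8733443 z (n 8733443 z z)) z) (n 0 (n 0 z z) (n 0
 (n 0 z z) z))) (n 345 (n 0 (n 0 z z) (n 0 (n 0 z z) z)) (n 107 (n 0 (n 0 z z) (n 0 (n 0 (n
 8872259 z (n 8872259 z z)) z) (n 0 (n 0 (n 8790275 z (n 8790275 z z)) z) (n 0 (n 0 (n 8790275 z
 (n 8790275 z z)) z) (n 0 (n 0 z z) (n 0 (n 0 z z) (n 0 (n 0 z z) (n 0 (n 0 z z) (n 0 (n 0 z z)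
 (n 0 (n 0 z z) (n 0 (n 0 z z) (n 0 (n 0 z z) (n 0 (n 0 (n 8790275 z (n 8790275 z z)) z) (n 0 (n
 0 z z) (n 0 (n 0 (n 8721195 z (n 8721195 z z)) z) (n 0 (n 0 z z) (n 0 (n 0 (n 8726027 z (n
 7749763 z z)) z) (n 0 (n 0 z z) (n 0 (n 0 z z) (n 0 (n 0 z z) z)))))))))))))))))))) (n 21 (n 0
 (n 0 z z) (n 0 (n 0 z z) (n 0 (n 0 z z) (n 0 (n 0 z z) z)))) (n 43 (n 0 (n 0 z z) (n 0 (n 0 z
 z) (n 0 (n 0 z z) (n 0 (n 0 z z) z)))) (n 42 (n 0 (n 0 z z) (n 0 (n 0 (n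
 0x3387396565a96889a5e36688619d4998729c5c7aa78f7638dea2172e7a67a576181690f79c99571d0041 z (n
 0x1b87389f7de86282185f7e47de85d91b8658607667e091c56985c86b81f6db72289c71f9a36e18600041 z z)) z)
 (n 0 (n 0 z z) (n 0 (n 0 z z) (n 0 (n 0 (n 8733443 z (n 8733443 z z)) z) (n 0 (n 0 (n 8726027 z
 (n 7545219 z z)) z) (n 0 (n 0 z z) (n 0 (n 0 z z) (n 0 (n 0 (n 8721195 z (n 8721195 z z)) z) (n
 0 (n 0 z z) (n 0 (n 0 z z) (n 0 (n 0 z z) z)))))))))))) (n 597 (n 0 (n 0 z z) (n 0 (n 0 z z) (n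
 0 (n 0 z z) (n 0 (n 0 z z) z)))) (n 581 (n 0 (n 0 z z) (n 0 (n 0 (n 8790275 z (n 8790275 z z))
 z) (n 0 (n 0 (n 8790275 z (n 8790275 z z)) z) (n 0 (n 0 z z) (n 0 (n 0 (n 8790275 z (n 8790275
 z z)) z) (n 0 (n 0 z z) (n 0 (n 0 z z) z))))))) (n 129 (n 0 (n 0 z z) (n 0 (n 0 (n 8790275 z (n
 8790275 z z)) z) (n 0 (n 0 z z) (n 0 (n 0 z z) (n 0 (n 0 (n
 0x1121cc970e63287396175eaa489985d7a481eadc7d58a995d7ef7dcb626a2b5d6ac7646193e3a9a86482e86576000c1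
 z (n 0x3387396565a96889a5e36688619d4998729c5c7aa78f7638dea2172e7a67a576181690f79c99571d0041 z
 z)) z) (n 0 (n 0 (n 8790275 z (n 8790275 z z)) z) z)))))) (n 3 (n 0 (n 0 z z) (n 0 (n 0 z z) (n
 0 (n 0 z z) (n 0 (n 0 z z) (n 0 (n 0 z z) (n 0 (n 0 z z) (n 0 (n 0 z z) (n 0 (n 0 z z)
 z)))))))) (n 1 (n 0 (n 0 z z) (n 0 (n 0 z z) (n 0 (n 0 z z) (n 0 (n 0 z z) (n 0 (n 0 z z)
 z))))) (n 0 (n 0 (n 0 (n
 0x1121d0970e83287496175eaa489985d7a481eadc7d58a995d7ef7dcb626a2b5d6ac7646193e3a9a86482e86576000c1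
 z (n
 0x30a6e8240782082082081f81f82081f8208618208208218208207df82086081f82082082086082181f8200801 z
 z)) z) (n 0 (n 0 z z) (n 0 (n 0 z z) (n 0 (n 0 z z) (n 0 (n 0 z z) z)))))
 z))))))))))))))))))))) z)))) z) z)))) (n 0x19d1d06676e10b518933841d1c2c68d964468b383259d00 (n
 0xb3a3 (n 153 (n 2 z (n 0 z (n 3282443 z (n 0 z z)))) (n 57 (n 10 z (n 0 z (n 0 z (n 6496515 z
 (n 6496515 z z))))) (n 51 (n 18 z (n 0 z (n 0 z (n 6496515 z z)))) (n 123 (n 26 z (n 6496515 z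
 (n 0 z (n 0 z z)))) (n 1 (n 34 z (n 0 z (n 0 z (n 42 z (n 0 z (n 0 z (n 6635827 z (n 6554395 z
 (n 0 z (n 0 z (n 50 z (n 0 z z)))))))))))) (n 0 (n 58 z (n 6635827 z (n 6635827 z (n 6635827 z
 (n 0 z (n 0 z (n 0 z (n 0 z (n 0 z (n 0 z (n
 0x12c86c80403a2979d89e5a56da7a25e882489f5e3b6176285a7df7db86589775b6da7e295e9267216e08a60801 z
 (n 66 z (n 0 z (n 0 z (n 0 z (n
 0x2c86c864037e17df8208217df8a082182081f7df8218208607e18608208e18607e085f8608207e07e18210801 z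
 (n 0x2c86c864037e17df8208217df8a082182081f7df8218208607e18608208e18607e085f8608207e07e18210801
 z (n 0 z (n 0 z (n 0 z (n 0 z (n
 0x2c86c804038617a08607e17e08618208607df7e08218208207e08208208e081f7e081f8208607e08218210801 z
 (n
 0x164364320184c86c624077e66606a4a5b7dc6a08719a386b4f065a65a78a5a47147a492486e79ca68b1c85da1e59e71f1001
 z (n 0x5b6106db75a8a495d8217e38a33de9647a86a381d8ea7245a579981e9a782482375e7658a1a5e79e0041 z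
 (n 0 z (n 0 z (n 0 z (n
 0x2c86c8040382279d91f7a27e085f8a279d7e07e18a17e07e086379c8e381e8207a18208608a08208208210801 z
 (n 0 z (n 0 z (n 0 z (n 0 z (n 6635827 z (n 0 z (n
 0x4c86c864037e181f8207e17df89f7e18208207e082082085f8208207e07e08208208618608208207e18610801 z
 (n 6632475 z (n 6632475 z (n
 0x4ca88624038218639207db81e79e85e72579f91e95f8a07e599d7a579c6de7e289e7647e08207607608210801 z
 (n 0x2c84c826037e08208207e082085f7e182086182081f7a08608207e082082082085f8208617e18608208200801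
 z (n 0 z (n
 0x2c86c804038217e086082082081f8207e082081f82082082082082082086082082082081f8207e08208200801 z
 (n 0 z (n 0 z (n
 0x6c86c864037a972666091f7de760827b248666e969979b84f65f8927e78628a775f9229e185eadf71f8a20801 z
 (n 0 z (n 0 z (n 6632475 z (n 6632475 z (n
 0x164264130182ca88624038697e48e185a85c5dd7e486782486299975e75e86071f79f71e7e791b7a3a1f81c81d6209241001
 z (n 0 z (n 0 z (n 0 z (n 0 z (n 0 z (n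
 0xec84c826037ae7a38199539dc6187e4a6b8a996189671b85475281a6225e48a395d8238a681eae26608a40801 z
 (n 0 z z)))))))))))))))))))))))))))))))))))))))))))))))))))))))) z)))))) (n 153 (n 0 (n 143 (n
 0 z (n 0 z (n 0 z (n 0 z z)))) (n 141 (n 0 z (n 0 z (n 0 z (n 0 z (n 0 z z))))) (n 315 (n 0 z
 (n 0 z (n 0 z (n 0 z z)))) (n 133 (n 0 z (n 0 z (n 0 z (n 0 z (n 0 z (n 0 z (n 0 z (n 0 z (n 0
 z (n 0 z z)))))))))) (n 133 (n 0 z (n 0 z (n 0 z (n 0 z (n 0 z (n 0 z (n 0 z (n 0 z (n 0 z (n 0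
 z z)))))))))) (n 133 (n 0 z (n 0 z (n 0 z (n 0 z (n 0 z (n 0 z (n 0 z (n 0 z (n 0 z (n 0 z
 z)))))))))) (n 745 (n 0 z (n 0 z (n 0 z (n 0 z (n 0 z (n 0 z (n 0 z (n 0 z (n 0 z (n 0 z (n 0 z
 (n 0 z (n 0 z (n 0 z (n 0 z (n 0 z (n 0 z (n 0 z (n 2 (n 0 z z) (n 0 z (n 0 z
 z))))))))))))))))))))) (n 745 (n 0 z (n 0 z (n 0 z (n 0 z (n 0 z (n 0 z (n 0 z (n 0 z (n 0 z (n
 0 z (n 0 z (n 0 z (n 0 z (n 0 z (n 0 z (n 0 z (n 0 z (n 0 z (n 0 z (n 0 z (n 0 z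
 z))))))))))))))))))))) z)))))))) (n 0 (n 375 (n 0 z (n 0 z (n 0 z z))) (n 441 (n 0 z (n 0 z (n
 0 z (n 0 z z)))) (n 373 (n 0 z (n 0 z (n 0 z (n 0 z (n 0 z z))))) (n 373 (n 0 z (n 0 z (n 0 z
 (n 7754755 z (n 0 z z))))) (n 373 (n 0 z (n 0 z (n 0 z (n 0 z (n 0 z z))))) (n 725 (n 0 z (n 0
 z (n 0 z (n 0 z (n 2 (n 0 z z) (n 0 z z)))))) (n 725 (n 0 z (n 0 z (n 0 z (n 0 z (n 0 z (n 0 z
 z)))))) z))))))) (n 0 (n 267 (n 0 z (n 0 z (n 0 z (n 0 z (n 0 z (n 0 z z)))))) (n 613 (n 0 z (n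
 0 z (n 0 z (n 0 z (n 0 z (n 0 z (n 0 z (n 0 z (n 0 z (n 0 z (n 0 z (n 0 z (n 0 z (n 0 z (n 0 z
 (n 0 z (n 0 z z))))))))))))))))) (n 613 (n 0 z (n 0 z (n 0 z (n 0 z (n 0 z (n 0 z (n 0 z (n 0 z
 (n 0 z (n 0 z (n 0 z (n 0 z (n 0 z (n 0 z (n 0 z (n 0 z (n 0 z z))))))))))))))))) (n 613 (n 0 z
 (n 0 z (n 0 z (n 0 z (n 0 z (n 0 z (n 0 z (n 0 z (n 0 z (n 0 z (n 0 z (n 0 z (n 0 z (n 0 z (n 0
 z (n 0 z (n 0 z z))))))))))))))))) (n 97 (n 0 z (n 2 (n 0 z z) (n 0 z (n 0 z (n 0 z (n 0 z (n 0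
 z (n 0 z (n 0 z (n 0 z (n 0 z (n 0 z (n 0 z (n 0 z (n 0 z (n 0 z (n 0 z (n 0 z (n 0 z (n 0 z (n
 0 z (n 0 z (n 0 z (n 0 z (n 0 z (n 0 z (n 0 z (n 0 z (n 0 z (n 0 z (n 0 z (n 0 z (n 0 z (n 0 z
 (n 0 z (n 0 z (n 0 z (n 0 z (n 0 z (n 0 z (n 0 z (n 0 z (n 0 z (n 0 z (n 0 z (n 0 z
 z)))))))))))))))))))))))))))))))))))))))))))))) (n 97 (n 0 z (n 0 z (n 0 z (n 0 z (n 0 z (n 0 z
 (n 0 z (n 0 z (n 0 z (n 0 z (n 0 z (n 0 z (n 0 z (n 0 z (n 0 z (n 0 z (n 0 z (n 0 z (n 0 z (n 0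
 z (n 0 z (n 0 z (n 0 z (n 0 z (n 0 z (n 0 z (n 0 z (n 0 z (n 0 z (n 0 z (n 0 z (n 0 z (n 0 z (n
 0 z (n 0 z (n 0 z (n 0 z (n 0 z (n 0 z (n 0 z (n 0 z (n 0 z (n 0 z (n 0 z (n 0 z (n 0 z
 z)))))))))))))))))))))))))))))))))))))))))))))) z)))))) (n 0 (n 3 (n 0 z (n 0 z (n 0 z (n 0 z
 (n 0 z (n 0 z z)))))) (n 3 (n 0 z (n 0 z (n 0 z (n 0 z (n 0 z (n 0 z z)))))) (n 3 (n 0 z (n 0 z
 (n 0 z (n 0 z (n 0 z (n 0 z z)))))) (n 245 (n 0 z (n 0 z (n 0 z (n 0 z (n 0 z (n 0 z (n 0 z (n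
 0 z (n 0 z (n 0 z (n 0 z (n 0 z (n 0 z (n 0 z (n 0 z (n 2 (n 0 z z) (n 0 z (n 0 z
 z)))))))))))))))))) (n 245 (n 0 z (n 0 z (n 0 z (n 0 z (n 0 z (n 0 z (n 0 z (n 0 z (n 0 z (n 0
 z (n 0 z (n 0 z (n 0 z (n 0 z (n 0 z (n 0 z (n 0 z (n 0 z z)))))))))))))))))) z))))) (n 0 (n 0
 z (n 0 z (n 1 (n 0 z (n 0 z (n 0 z (n 0 z (n 0 z (n 0 z (n 2 (n 0 z z) z))))))) (n 1 (n 0 z (n
 0 z (n 0 z (n 0 z (n 0 z (n 0 z (n 0 z z))))))) z)))) (n 0 (n 0 z (n 1 (n 0 z (n 0 z (n 0 z (n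
 0 z z)))) (n 1 (n 0 z (n 0 z (n 0 z (n 0 z z)))) z))) (n 0 (n 1 (n 0 z (n 0 z (n 0 z (n 0 z (n
 0 z (n 0 z (n 0 z (n 0 z (n 0 z (n 0 z (n 0 z (n 0 z (n 0 z (n 0 z (n 0 z (n 0 z (n 0 z (n 0 z
 (n 0 z (n 0 z (n 0 z (n 0 z (n 0 z (n 0 z (n 0 z (n 0 z (n 0 z (n 0 z (n 0 z (n 0 z (n 0 z (n 0
 z (n 0 z (n 0 z (n 0 z (n 0 z (n 0 z (n 0 z (n 0 z (n 0 z (n 0 z (n 0 z (n 0 z (n 0 z (n 0 z (n
 0 z (n 0 z (n 0 z (n 0 z z))))))))))))))))))))))))))))))))))))))))))))))))) (n 1 (n 0 z (n 0 z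
 (n 0 z (n 0 z (n 0 z (n 0 z (n 0 z (n 0 z (n 0 z (n 0 z (n 0 z (n 0 z (n 0 z (n 0 z (n 0 z (n 0
 z (n 0 z (n 0 z (n 0 z (n 0 z (n 0 z (n 0 z (n 0 z (n 0 z (n 0 z (n 0 z (n 0 z (n 0 z (n 0 z (n
 0 z (n 0 z (n 0 z (n 0 z (n 0 z (n 0 z (n 0 z (n 0 z (n 0 z (n 0 z (n 0 z (n 0 z (n 0 z (n 0 z
 (n 0 z (n 0 z (n 0 z (n 0 z (n 0 z (n 0 z z)))))))))))))))))))))))))))))))))))))))))))))))))
 z)) (n 0 (n 0 z z) (n 0 z z))))))))) (n 0 (n 1 (n 6496515 z (n 460 z (n 2 z (n 460 z (n 460 z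
 (n 460 z z)))))) (n 0 z (n 1 (n 6496515 z (n 3282443 z (n 3282443 z (n 3282443 z (n 3282443 z
 (n 3282443 z z)))))) (n 0 z z)))) (n 0 (n 0xc0cced (n 0 (n 0 (n 7754755 z (n 7754755 z (n
 7754755 z (n 7754755 z (n 7754755 z (n 7754755 z z)))))) z) (n 0 (n 153 (n 1 (n 7472731 z (n
 3282795 z (n 6567691 z (n 3282795 z (n 3282795 z (n 3282795 z z)))))) (n 0 z (n 1 (n 6496627 z
 (n 3282699 z (n 3282699 z (n 3282699 z (n 3282699 z (n 3282699 z z)))))) (n 0 z z)))) (n 187 (n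
 1 (n 7545091 z (n 7545091 z (n 7545091 z (n 7545091 z (n 7545091 z (n 7545091 z z)))))) (n 1 (n
 7545091 z (n 7545091 z (n 7545091 z (n 7545091 z (n 7545091 z (n 7545091 z z)))))) (n 1 (n
 7545091 z (n 7545091 z (n 7545091 z (n 7545091 z (n 7545091 z (n 7545091 z z)))))) z))) (n 307
 (n 1 (n 7545091 z (n 7545091 z (n 7545091 z (n 7545091 z (n 7545091 z (n 7545091 z z)))))) (n 1
 (n 7545091 z (n 7545091 z (n 7545091 z (n 7545091 z (n 7545091 z (n 7545091 z z)))))) (n 1 (n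
 7545091 z (n 7545091 z (n 7545091 z (n 7545091 z (n 7545091 z (n 7545091 z z)))))) z))) (n 159
 (n 0 z (n 1 (n 7545091 z (n 5509235 z (n 7754755 z (n 7681051 z (n 7681051 z (n 7681051 z
 z)))))) (n 1 (n 7545091 z (n 7616011 z (n 7754755 z (n 7681051 z (n 7681051 z (n 7681051 z
 z)))))) (n 1 (n 7545091 z (n 4331275 z (n 7754755 z (n 4331275 z (n 4331275 z (n 4331275 z
 z)))))) z)))) (n 571 (n 1 (n 7545091 z (n 7545091 z (n 7545091 z (n 7545091 z (n 7545091 z (n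
 7545091 z z)))))) (n 1 (n 7545091 z (n 7545091 z (n 7545091 z (n 7545091 z (n 7545091 z (n
 7545091 z z)))))) (n 0 z (n 1 (n 7754755 z (n 7754755 z (n 7754755 z (n 7754755 z (n 7754755 z
 (n 7754755 z z)))))) (n 1 (n 7754755 z (n 7754755 z (n 7754755 z (n 7754755 z (n 7754755 z (n
 7754755 z z)))))) z))))) (n 383 (n 1 (n 7545091 z (n 7545091 z (n 7545091 z (n 7545091 z (n
 7545091 z (n 7545091 z z)))))) (n 1 (n 7545091 z (n 7545091 z (n 7545091 z (n 7545091 z (n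
 7545091 z (n 7545091 z z)))))) (n 0 z (n 1 (n 7602971 z (n 3820 z (n 3820 z (n 7681051 z (n 12
 z (n 3820 z z)))))) (n 1 (n 7681051 z (n 3820 z (n 2 z (n 7602971 z (n 3820 z (n 3820 z z))))))
 (n 1 (n 7754755 z (n 7754755 z (n 7754755 z (n 7754755 z (n 7754755 z (n 7754755 z z))))))
 z)))))) (n 153 (n 1 (n 7545091 z (n 3282795 z (n 7754755 z (n 3282795 z (n 3282795 z (n 3282795
 z z)))))) (n 0 z (n 1 (n 7545091 z (n 3282699 z (n 7754755 z (n 3282699 z (n 3282699 z (n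
 3282699 z z)))))) (n 0 z z)))) z))))))) (n 0 (n 0 (n 0 z z) z) (n 0 (n 191 (n 0 (n 0 z z) (n 0
 (n 0 z z) (n 0 (n 0 z z) (n 0 (n 0 z z) z)))) (n 311 (n 0 (n 0 (n 5445675 z (n 5445675 z z)) z)
 (n 0 (n 0 z z) (n 0 (n 0 (n 4397099 z (n 4397099 z z)) z) (n 0 (n 0 z z) (n 0 (n 0 (n 8586571 z
 (n 8586571 z z)) z) z))))) (n 307 (n 0 (n 0 z z) (n 0 (n 0 z z) (n 0 (n 0 (n 8593667 z (n
 8593667 z z)) z) z))) (n 159 (n 0 (n 0 z z) (n 0 (n 0 z z) (n 0 (n 0 z z) (n 0 (n 0 z z) z))))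
 (n 461 (n 0 (n 0 z z) (n 0 (n 0 z z) (n 0 (n 0 z z) (n 0 (n 0 z z) z)))) (n 135 (n 0 (n 0 (n
 8664587 z (n 8664587 z z)) z) (n 0 (n 0 z z) (n 0 (n 0 z z) (n 0 (n 0 z z) (n 0 (n 0 z z) (n 0
 (n 0 z z) z)))))) (n 573 (n 0 (n 0 z z) (n 0 (n 0 z z) (n 0 (n 0 z z) (n 0 (n 0 z z) (n 0 (n 0
 z z) (n 0 (n 0 z z) (n 0 (n 0 (n
 0x30ecec240781f8608208208208208208208208208208208208208208208208208208208208208208208200801 z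
 (n 0x30e50e2c038207e08208208208208208208208208208208208208208208208208208208208208208208210801
 z z)) z) (n 0 (n 0 (n 8873251 z (n 8873251 z z)) z) (n 0 (n 0 (n 8873251 z (n 8873251 z z)) z)
 (n 0 (n 0 z z) z)))))))))) (n 571 (n 0 (n 0 z z) (n 0 (n 0 z z) (n 0 (n 0 z z) (n 0 (n 0 z z)
 (n 0 (n 0 z z) z))))) (n 570 (n 0 (n 0 z z) (n 0 (n 0 z z) (n 0 (n 0 z z) (n 0 (n 0 (n 8803331
 z (n 8803331 z z)) z) (n 0 (n 0 z z) (n 0 (n 0 z z) (n 0 (n 0 z z) (n 0 (n 0 (n 8803331 z (n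
 8803331 z z)) z) (n 0 (n 0 z z) (n 0 (n 0 (n
 0x43ac08181c187687600180ec4ec40078207e181f8208208208608208608208207e08208208207e08608218608217e08208618208201801
 z (n 7682091 z z)) z) (n 0 (n 0 (n 8803331 z (n 8803331 z z)) z) (n 0 (n 0 z z) (n 0 (n 0 z z)
 (n 0 (n 0 z z) (n 0 (n 0 z z) (n 0 (n 0 (n
 0x30e4e20c038608208208207e08208208208208208208208218208208208608208208207e08208208208200801 z
 (n
 0x853853103810ed0ec0038608208207e18207e082082082082082082082082082081f8208228207e18208208208208201001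
 z z)) z) (n 0 (n 0 (n
 0x2a87691b81e8dd6a085c81d8227a275d859ae97227a98207ab85b7e059c8dd85f69f86565f85e8210041 z (n
 0x50ed0ec207a149a15a462695691e8eb9a26a05608a471c92065d6ed6dfda05d76e095969e66479f8de7e10801 z
 z)) z) z))))))))))))))))) (n 3 (n 0 (n 0 z z) (n 0 (n 0 (n 8593667 z (n 8593667 z z)) z) (n 0
 (n 0 z z) (n 0 (n 0 z z) (n 0 (n 0 z z) (n 0 (n 0 (n
 0x1ee1c8854390e9872ac4790b2687e4fa370788b7d877d95984a5a905eaba0789473a980708fd376647f7f60777f70737a65728592517486888f8b00c9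
 z (n
 0x30e50e2c038207e082086082086082082082082082082082081f8208208208208208208208208208218200801 z
 z)) z) z)))))) (n 477 (n 0 (n 0 z z) (n 0 (n 0 z z) (n 0 (n 0 z z) (n 0 (n 0 (n
 0x2a87291b81e8dd6a085c81d8227a275d859ae97227a98207ab85b7e059c8dd85f69f86565f85e8210041 z (n
 0x1ee104854208e9841ac4790b2687e4fa370788b7d877d95984a5a905eaba0789473a980708fd376647f7f60777f70737a65728592517486888f8b00c9
 z z)) z) (n 0 (n 0 (n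
 0x1ee104854208e9841ac4790b2687e4fa370788b7d877d95984a5a905eaba0789473a980708fd376647f7f60777f70737a65728592517486888f8b00c9
 z (n
 0x1ee104854208e9841ac4790b2687e4fa370788b7d877d95984a5a905eaba0789473a980708fd376647f7f60777f70737a65728592517486888f8b00c9
 z z)) z) (n 0 (n 0 z z) (n 0 (n 0 z z) (n 0 (n 0 z z) (n 0 (n 0 z z) (n 0 (n 0 z z) (n 0 (n 0
 (n 8732979 z (n 8732979 z z)) z) (n 0 (n 0 z z) (n 0 (n 0 z z) (n 0 (n 0 z z) (n 0 (n 0 (n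
 8732979 z (n 8732979 z z)) z) (n 0 (n 0 z z) (n 0 (n 0 z z) (n 0 (n 0 (n 8729627 z (n 8729627 z
 z)) z) (n 0 (n 0 (n 8873251 z (n 8873251 z z)) z) (n 0 (n 0 z z) (n 0 (n 0 z z)
 z))))))))))))))))))))) (n 383 (n 0 (n 0 z z) (n 0 (n 0 z z) (n 0 (n 0 z z) (n 0 (n 0 z z) (n 0
 (n 0 z z) (n 0 (n 0 (n 8803331 z (n 8803331 z z)) z) z)))))) (n 53 (n 0 (n 0 z z) (n 0 (n 0 z
 z) (n 0 (n 0 (n
 0x50ed0e620791b7a46668df8db6e37e58258a06a47a07d999c55f76465e9636a781e8e589c6df86171d79f0801 z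
 (n 0x2a87491b81e8dd6a085c81d8227a275d859ae97227a98207ab85b7e059c8dd85f69f86565f85e8210041 z z))
 z) (n 0 (n 0 z z) (n 0 (n 0 z z) (n 0 (n 0 z z) (n 0 (n 0 z z) (n 0 (n 0 z z) (n 0 (n 0 z z) (n
 0 (n 0 z z) (n 0 (n 0 z z) (n 0 (n 0 z z) (n 0 (n 0 (n
 0x1872740601810ed0ec20785f8a081f7e08617e08208208207e082081f8208218217e082082182082181f8208208218211001
 z (n
 0x30c90c80038667e27de75e81f75f8628a37a286689b79f7db85d79982281f8607227a186181f91f7a08220801 z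
 z)) z) (n 0 (n 0 z z) (n 0 (n 0 z z) (n 0 (n 0 (n 8729627 z (n 8729627 z z)) z) (n 0 (n 0 z z)
 (n 0 (n 0 z z) (n 0 (n 0 z z) (n 0 (n 0 z z) (n 0 (n 0 z z) (n 0 (n 0 z z) (n 0 (n 0 z z) (n 0
 (n 0 z z) (n 0 (n 0 z z) (n 0 (n 0 z z) (n 0 (n 0 (n 8803331 z (n 8803331 z z)) z) (n 0 (n 0 z
 z) (n 0 (n 0 z z) (n 0 (n 0 (n
 0x238747a07598a28df81e76086369f9217a28a279d8df7246607df89e8258a17e38dd7e17a185f8200041 z (n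
 0x30ecec800781f8608608208208208608208608208208208208208a07e08608218208208208208218208200801 z
 z)) z) (n 0 (n 0 z z) (n 0 (n 0 z z) (n 0 (n 0 z z) (n 0 (n 0 z z) (n 0 (n 0 z z) (n 0 (n 0 (n
 8803331 z (n 8803331 z z)) z) (n 0 (n 0 (n 8803331 z (n 8803331 z z)) z) (n 0 (n 0 (n 8729627 z
 (n 8729627 z z)) z) (n 0 (n 0 z z) (n 0 (n 0 z z) (n 0 (n 0 z z) (n 0 (n 0 z z) (n 0 (n 0 z z)
 (n 0 (n 0 (n 6494331 z (n 6494331 z z)) z) (n 0 (n 0 z z) (n 0 (n 0 z z)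
 z)))))))))))))))))))))))))))))))))))))))))))))) (n 123 (n 0 (n 0 z z) (n 0 (n 0 z z) (n 0 (n 0
 (n 8729627 z (n 7610755 z z)) z) (n 0 (n 0 z z) (n 0 (n 0 (n 8803331 z (n 8803331 z z)) z) (n 0
 (n 0 z z) (n 0 (n 0 (n 8803331 z (n 8803331 z z)) z) (n 0 (n 0 z z) (n 0 (n 0 z z) (n 0 (n 0 (n
 8803331 z (n 8803331 z z)) z) (n 0 (n 0 z z) (n 0 (n 0 (n 8803331 z (n 8803331 z z)) z) (n 0 (n
 0 z z) (n 0 (n 0 z z) (n 0 (n 0 z z) (n 0 (n 0 (n 8873251 z (n 8873251 z z)) z) (n 0 (n 0 z z)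
 (n 0 (n 0 z z) z)))))))))))))))))) (n 1 (n 0 (n 0 z z) (n 0 (n 0 (n 8803331 z (n 8803331 z z))
 z) (n 0 (n 0 (n 8803331 z (n 8803331 z z)) z) (n 0 (n 0 z z) (n 0 (n 0 (n
 0x30ecec240781f8608208208208208208208208208208208208208208208208208208208208208208208200801 z
 (n 0x10e50e2c030821 z z)) z) (n 0 (n 0 z z) (n 0 (n 0 z z) z))))))) (n 153 (n 0 (n 0 z z) (n 0
 (n 0 z z) (n 0 (n 0 z z) (n 0 (n 0 (n 8586571 z (n 8586571 z z)) z) z)))) (n 57 (n 0 (n 0 z z)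
 (n 0 (n 0 z z) (n 0 (n 0 z z) (n 0 (n 0 z z) (n 0 (n 0 z z) z))))) (n 51 (n 0 (n 0 z z) (n 0 (n
 0 z z) (n 0 (n 0 z z) (n 0 (n 0 z z) z)))) (n 123 (n 0 (n 0 z z) (n 0 (n 0 z z) (n 0 (n 0 (n
 8803331 z (n 8803331 z z)) z) (n 0 (n 0 z z) z)))) (n 1 (n 0 (n 0 z z) (n 0 (n 0 z z) (n 0 (n 0
 z z) (n 0 (n 0 (n 8803331 z (n 8803331 z z)) z) (n 0 (n 0 (n 8803331 z (n 8803331 z z)) z) (n 0
 (n 0 z z) (n 0 (n 0 z z) (n 0 (n 0 (n 8803331 z (n 8803331 z z)) z) (n 0 (n 0 z z) (n 0 (n 0 (n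
 8803331 z (n 8803331 z z)) z) (n 0 (n 0 (n
 0x2a87291b81e8dd6a085c81d8227a275d859ae97227a98207ab85b7e059c8dd85f69f86565f85e8210041 z (n
 0x30c8ea240382082085f7df82086086082082082082081f8608208207e08208218208208208618208208200801 z
 z)) z) (n 0 (n 0 (n 8651547 z (n 7680387 z z)) z) z)))))))))))) (n 0 (n 0 (n 0 z z) (n 0 (n 0 z
 z) (n 0 (n 0 z z) (n 0 (n 0 z z) (n 0 (n 0 z z) (n 0 (n 0 z z) (n 0 (n 0 (n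
 0x873873201870ece864079d87e14a67e481879f8299a67a066296071e89761772861bb2176391d8218de6e16e17618a31001
 z (n
 0x873873201830ece864078607a08207e082082082082082082082082082081e82081f8208218208218208208208208201001
 z z)) z) (n 0 (n 0 z z) (n 0 (n 0 z z) (n 0 (n 0 z z) (n 0 (n 0 z z) (n 0 (n 0 z z) (n 0 (n 0 z
 z) (n 0 (n 0 (n 8873251 z (n 8873251 z z)) z) (n 0 (n 0 z z) (n 0 (n 0 z z) (n 0 (n 0 z z) (n 0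
 (n 0 z z) (n 0 (n 0 z z) (n 0 (n 0 (n 8729627 z (n 8729627 z z)) z) (n 0 (n 0 (n 8729627 z (n
 8729627 z z)) z) (n 0 (n 0 z z) (n 0 (n 0 z z) (n 0 (n 0 z z) (n 0 (n 0 z z) (n 0 (n 0 z z) (n
 0 (n 0 z z) (n 0 (n 0 z z) (n 0 (n 0 z z) (n 0 (n 0 z z) (n 0 (n 0 z z) (n 0 (n 0 z z) (n 0 (n
 0 z z) (n 0 (n 0 z z) (n 0 (n 0 z z) (n 0 (n 0 z z) (n 0 (n 0 z z) (n 0 (n 0 z z) (n 0 (n 0 z
 z) (n 0 (n 0 (n
 0x439438980c087287030180ec6ec24077a07e17e18607e08218a182082085f7e07e082086082085f8608218607e08208208208208201801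
 z (n
 0x842831701810e50e26037e07a17e18207e08608a18208208218207e081f8207e08617e082181f7e181f85f8208208201001
 z z)) z) (n 0 (n 0 z z) (n 0 (n 0 z z) (n 0 (n 0 (n 8803331 z (n 8803331 z z)) z) (n 0 (n 0 (n
 0x2a87491b81e8dd6a085c81d8227a275d859ae97227a98207ab85b7e059c8dd85f69f86565f85e8210041 z (n
 0x10e70e64038207a082081f8208608608208208208208208208208208207e08207e08207e08208208208200801 z
 z)) z) (n 0 (n 0 z z) (n 0 (n 0 (n 8803331 z (n 8803331 z z)) z) (n 0 (n 0 z z) (n 0 (n 0 z z)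
 (n 0 (n 0 (n
 0x2a87291b81e8dd6a085c81d8227a275d859ae97227a98207ab85b7e059c8dd85f69f86565f85e8210041 z (n
 0x1872871301810ece624078217e082081f7e08208208208208208208208208208208208208208208208208208208208601001
 z z)) z) (n 0 (n 0 z z) (n 0 (n 0 z z) (n 0 (n 0 z z) (n 0 (n 0 z z) (n 0 (n 0 z z) (n 0 (n 0
 (n 0x1387485e8236e382085e7de8229238207e081e7de89c6df82371f82682389f82289d79f7607e08610041 z (n
 0x30e90e84078208a08208218208218208208208208208208208208208208608208208208218208218208200801 z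
 z)) z) (n 0 (n 0 z z) z))))))))))))))))))))))))))))))))))))))))))))))))))))))))
 z))))))))))))))))))))) z)))) z) z)))) (n 0x1b24da1e2e30c931b04970e11a4586d36c129b64808b2c0 (n 0
 (n 467 (n 2 z (n 10 z (n 0 z (n 6561843 z (n 0 z z))))) (n 694 (n 0 z (n 3278363 z (n 0 z (n 0
 z z)))) (n 466 (n 0 z (n
 0x26363080af7b28ae95e836cf3c87668256a6607a84c039c55367cf369a707f8185805c73757e9b478c867c62ab59a2a9a5de77659e0049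
 z (n 18 z (n 0 z (n 0 z (n 6561843 z (n 26 z (n 34 z (n 0 z (n 0 z (n 6497291 z (n 0 z
 z)))))))))))) (n 3 (n 6497291 z (n 42 z z)) (n 1 (n 50 z (n 6561843 z (n 58 z z))) (n 0 (n
 2164315 z (n 66 z (n 0 z z))) z)))))) (n 3 (n 0 (n 0 z (n 189 (n 0 z (n 0 z (n 0 z (n 0 z (n 0
 z (n 0 z (n 0 z z))))))) (n 189 (n 0 z (n 0 z (n 0 z (n 0 z (n 0 z (n 0 z (n 0 z z))))))) (n
 189 (n 0 z (n 0 z (n 0 z (n 0 z (n 0 z (n 2 (n 1 z (n 1 z (n 2 (n 0 z (n 0 z (n 0 z (n 0 (n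
 5380 z (n 5380 z z)) (n 0 (n 13 z (n 8804139 z z)) (n 0 (n 5380 z (n 8804139 z z)) z)))))) (n 1
 z z)))) (n 0 z z))))))) (n 165 (n 0 z (n 0 z (n 0 z (n 0 z (n 0 z z))))) (n 1345 (n 0 z (n 0 z
 (n 0 z z))) (n 1345 (n 0 z (n 0 z (n 2 (n 1 z z) z))) (n 73 (n 0 z (n 0 z (n 0 z (n 0 z (n 0 z
 (n 6426739 z z)))))) z)))))))) (n 0 (n 23 (n 0 z (n 0 z (n 0 z (n 0 z (n 0 z (n 0 z z)))))) (n
 23 (n 0 z (n 0 z (n 0 z (n 0 z (n 0 z (n 0 z z)))))) (n 23 (n 2 (n 1 z (n 1 z (n 1 z (n 1 z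
 z)))) (n 0 z (n 0 z (n 0 z (n 0 z (n 0 z z)))))) (n 55 (n 0 z (n 0 z (n 0 z (n 0 z z)))) (n 3
 (n 0 z (n 0 z (n 0 z (n 0 z (n 0 z z))))) (n 3 (n 0 z (n 0 z (n 7684963 z (n 0 z (n 0 z z)))))
 (n 53 (n 0 z (n 0 z (n 0 z (n 0 z (n 0 z (n 0 z (n 0 z (n 0 z (n 0 z z))))))))) z))))))) (n 0
 (n 0 z (n 0 z (n 539 (n 0 z (n 0 z (n 0 z (n 0 z (n 0 z (n 0 z (n 0 z (n 0 z (n 0 z (n 0 z (n 0
 z (n 0 z (n 0 z (n 0 z (n 0 z (n 0 z (n 0 z (n 0 z (n 0 z (n 0 z z)))))))))))))))))))) (n 531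
 (n 0 z (n 0 z (n 0 z (n 0 z (n 0 z (n 0 z (n 0 z (n 0 z z)))))))) (n 531 (n 0 z (n 0 z (n 0 z
 (n 0 z (n 0 z (n 7684963 z (n 0 z (n 0 z z)))))))) (n 529 (n 0 z (n 0 z (n 0 z (n 0 z (n 0 z (n
 0 z (n 0 z z))))))) z)))))) (n 0 (n 0 z (n 661 (n 0 z (n 0 z (n 0 z (n 0 z (n 0 z (n 0 z (n 0 z
 z))))))) (n 1373 (n 0 z (n 0 z (n 0 z (n 0 z (n 0 z (n 0 z (n 0 z (n 0 z (n 0 z (n 0 z (n 0 z
 (n 0 z (n 0 z z))))))))))))) (n 1373 (n 0 z (n 0 z (n 0 z (n 0 z (n 0 z (n 0 z (n 0 z (n 0 z (n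
 0 z (n 0 z (n 0 z (n 0 z (n 0 z z))))))))))))) (n 241 (n 0 z (n 0 z (n 0 z (n 0 z (n 0 z (n 0 z
 (n 0 z z))))))) z))))) (n 0 (n 1093 (n 0 z (n 2 (n 1 z (n 2 (n 0 z (n 0 z (n 0 z (n 0 (n 12 z
 (n 12 z z)) (n 0 (n 12 z (n 12 z z)) (n 0 (n 12 z (n 12 z z)) z)))))) (n 1 z z))) (n 0 z (n 0 z
 (n 0 z (n 0 z (n 0 z (n 0 z (n 0 z (n 0 z (n 0 z (n 0 z (n 0 z (n 0 z (n 0 z (n 0 z (n 0 z (n 0
 z (n 0 z (n 0 z (n 0 z (n 0 z z)))))))))))))))))))))) (n 3 (n 0 z (n 0 z (n 0 z (n 0 z (n 0 z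
 (n 0 z (n 0 z (n 0 z (n 0 z (n 0 z (n 0 z (n 0 z (n 0 z (n 0 z (n 0 z (n 0 z (n 0 z (n 2 (n 0 z
 (n 1 z z)) (n 0 z (n 0 z (n 0 z (n 0 z z)))))))))))))))))))))) (n 3 (n 0 z (n 0 z (n 0 z (n 0 z
 (n 0 z (n 0 z (n 0 z (n 0 z (n 0 z (n 0 z (n 0 z (n 0 z (n 0 z (n 0 z (n 0 z (n 0 z (n 0 z (n 0
 z (n 0 z (n 0 z (n 0 z (n 0 z z)))))))))))))))))))))) (n 1 (n 0 z (n 0 z (n 0 z (n 0 z (n 0 z
 (n 0 z (n 0 z (n 0 z (n 0 z (n 0 z (n 2 z (n 0 z z)))))))))))) z)))) (n 0 (n 723 (n 0 z (n 0 z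
 (n 0 z (n 0 z z)))) (n 723 (n 0 z (n 0 z (n 0 z (n 2 (n 1 z z) z)))) (n 721 (n 0 z (n 0 z (n 0
 z (n 0 z (n 0 z (n 0 z (n 0 z (n 0 z (n 0 z (n 0 z (n 0 z (n 0 z z)))))))))))) z))) (n 0 (n 0 z
 (n 961 (n 0 z (n 0 z (n 0 z z))) z)) (n 0 (n 265 (n 0 z (n 0 z (n 0 z (n 0 z (n 0 z (n 2 z (n 0
 z (n 0 z (n 0 z z))))))))) z) (n 0 z z))))))))) (n 0 (n 1 (n 6497291 z (n 6497291 z (n 6497291
 z (n 6497291 z (n 6561843 z (n 6497291 z z)))))) (n 1 (n 3280995 z (n 3740 z (n 5556 z (n 3740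
 z (n 6561843 z (n 3740 z z)))))) z)) (n 0 z z)))) (n
 0xb65d40c2e10d972b0c964865bcc899564128960b44b619 (n 0 (n 587 (n 3282443 z (n 0 z (n 0 z (n 0 z
 z)))) (n 595 (n 0 z (n 3278363 z (n 6427707 z (n 2 z z)))) (n 129 (n 10 z (n 6566419 z (n 0 z
 (n 0 z (n
 0x3b190cc5b219026437f7e7982718c888f717c89b44b81705ba29d706d807f916b869e7694915a9577808c6a6c797fa2944c6ca26f826e917c856300c9
 z (n 0 z (n 0 z (n 6427707 z (n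
 0x9949500c0602ca6ca600780807f807f83817f818080827e817f7f80818180808081808080817e80818180807f7f81817f808080807f7f807f807f80801009
 z (n 0 z (n 0 z (n 0 z (n
 0x536417e7e81807d81828280818081818080817f8082837f8082817f7f7b7f83827c7b828283817f7f85857f81808480807d817f7a0049
 z (n 18 z (n 0 z (n 0 z (n 0 z (n 0 z (n 26 z (n
 0x6ca4a806077e7f797c8385807b808081858380807e7d7b8086837d80827f7c807c7e878080837f82847d7b8185857f7e7f817b7e807c7f0809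
 z (n 6566419 z z))))))))))))))))))))) (n 3 (n 34 z (n 0 z (n 6566419 z (n 0 z (n 42 z (n 0 z (n
 0 z (n 0 z (n 0 z (n 0 z z)))))))))) (n 1 (n 6566419 z (n 50 z (n 58 z (n 0 z z)))) (n 0 (n 0 z
 (n 66 z (n 2164315 z (n 0 z (n 0 z z))))) z)))))) (n 587 (n 0 (n 1053 (n 0 z (n 0 z (n 0 z (n 0
 z (n 0 z (n 0 z (n 0 z (n 0 z (n 0 z (n 0 z (n 0 z (n 0 z (n 0 z (n 0 z (n 0 z (n 0 z (n 0 z (n
 0 z z)))))))))))))))))) (n 1053 (n 0 z (n 0 z (n 0 z (n 0 z (n 0 z (n 0 z (n 0 z (n 0 z (n 0 z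
 (n 0 z (n 0 z (n 0 z (n 0 z (n 0 z (n 0 z (n 0 z (n 0 z (n 0 z z)))))))))))))))))) (n 1053 (n 0
 z (n 0 z (n 0 z (n 0 z (n 0 z (n 0 z (n 0 z (n 0 z (n 0 z (n 0 z (n 0 z (n 0 z (n 0 z (n 0 z (n
 0 z (n 2 (n 1 z (n 1 z (n 1 z (n 2 (n 0 z (n 0 (n 204 z (n 204 z z)) (n 0 z (n 0 (n 204 z (n
 204 z z)) (n 0 z (n 0 (n 204 z (n 204 z z)) z)))))) (n 1 z z))))) (n
 0x9d95d4c00e04ec8ea60077e81737b828d81807c7a798b8b7c7a777d7981878b7c8387867c88797587807b85847f8a7e6f798984747a778181847f79831009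
 z (n 0 z z)))))))))))))))))) (n 421 (n 0 z (n 0 z (n 0 z (n 0 z (n 0 z (n 0 z z)))))) (n 421 (n
 0 z (n 0 z (n 7544931 z (n 0 z (n 0 z (n 0 z z)))))) (n 51 (n 0 z (n 0 z (n 0 z (n 0 z z)))) (n
 51 (n 0 z (n 2 (n 1 z z) (n 0 z (n 0 z z)))) (n 1033 (n 0 z (n 0 z (n 0 z (n 0 z (n 0 z (n 0 z
 z)))))) z)))))))) (n 0 (n 0 z (n 0 z (n 665 (n 0 z (n 0 z (n 0 z (n 0 z (n 0 z (n 0 z (n 0 z
 z))))))) (n 665 (n 0 z (n 0 z (n 0 z (n 0 z (n 0 z (n 0 z (n 0 z z))))))) (n 291 (n 0 z (n 0 z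
 (n 0 z (n 0 z (n 0 z (n 0 z z)))))) (n 291 (n 0 z (n 7684451 z (n 0 z (n 0 z (n 0 z (n 0 z
 z)))))) (n 553 (n 0 z (n 0 z (n 0 z (n 0 z (n 0 z (n 0 z (n 0 z (n 0 z (n 0 z (n 0 z (n 0 z (n
 0 z (n 0 z (n 0 z (n 0 z (n 0 z (n 0 z (n 0 z (n 0 z (n 0 z (n 0 z (n 0 z (n 0 z (n 0 z (n 0 z
 (n 0 z (n 0 z (n 0 z (n 0 z (n 0 z (n 0 z (n 0 z (n 0 z (n 0 z (n 0 z (n 0 z (n 0 z (n 0 z (n 0
 z (n 0 z (n 0 z (n 0 z (n 0 z (n 0 z (n 0 z (n 0 z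
 z)))))))))))))))))))))))))))))))))))))))))))))) z))))))) (n 0 (n 0 z (n 295 (n 0 z (n 0 z (n 0
 z (n 0 z (n 0 z (n 0 z (n 0 z z))))))) (n 295 (n 0 z (n 0 z (n 0 z (n 0 z (n 0 z (n 0 z (n 0 z
 z))))))) (n 531 (n 0 z (n 0 z (n 0 z (n 0 z (n 0 z z))))) (n 531 (n 0 z (n 0 z (n 0 z (n 0 z (n
 0 z z))))) (n 529 (n 0 z (n 0 z (n 0 z (n 0 z (n 0 z (n 0 z (n 0 z (n 0 z (n 0 z (n 0 z (n 0 z
 (n 0 z (n 0 z (n 0 z (n 0 z (n 0 z (n 0 z (n 0 z (n 0 z (n 0 z (n 0 z (n 0 z (n 0 z (n 0 z (n 0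
 z (n 0 z (n 0 z (n 0 z (n 0 z (n 0 z (n 0 z (n 0 z (n 0 z (n 0 z (n 0 z (n 0 z (n 0 z (n 0 z (n
 0 z (n 0 z (n 0 z (n 0 z (n 0 z (n 0 z (n 0 z (n 0 z (n 0 z (n 0 z (n 0 z (n 0 z (n 0 z (n 0 z
 (n 0 z (n 0 z (n 0 z (n 0 z z)))))))))))))))))))))))))))))))))))))))))))))))))))))))) z))))))
 (n 0 (n 1169 (n 0 z (n 0 z (n 0 z (n 0 z (n 2 (n 0 z (n 1 z (n 1 z (n 1 z z)))) (n 0 z (n 0 z
 (n 0 z z)))))))) (n 1169 (n 2 (n 1 z (n 2 (n 0 z (n 0 (n 1044 z (n 1044 z z)) (n 0 z (n 0 (n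
 8869419 z (n 8869419 z z)) (n 0 z (n 0 (n 1044 z (n 1044 z z)) z)))))) (n 1 z z))) (n 0 z (n 0
 z (n 0 z (n 0 z (n 0 z (n 0 z (n 0 z z)))))))) (n 261 (n 0 z (n 0 z (n 0 z (n 0 z (n 0 z (n 0 z
 (n 2 (n 0 z (n 1 z z)) (n 0 z z)))))))) (n 261 (n 0 z (n 0 z (n 0 z (n 0 z (n 0 z (n 0 z (n 0 z
 (n 0 z z)))))))) (n 845 (n 0 z (n 0 z (n 0 z (n 0 z (n 0 z (n 0 z (n 0 z (n 2 z (n 0 z (n 0 z
 (n 0 z (n 0 z (n 0 z (n 0 z (n 0 z (n 0 z (n 0 z (n 0 z (n 0 z (n 0 z (n 0 z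
 z))))))))))))))))))))) z))))) (n 0 (n 0 z (n 3 (n 0 z (n 0 z (n 0 z (n 0 z (n 0 z z))))) (n 3
 (n 0 z (n 7684451 z (n 0 z (n 0 z (n 0 z z))))) (n 1 (n 0 z (n 0 z (n 0 z (n 0 z (n 0 z (n 0 z
 (n 0 z (n 0 z (n 0 z (n 0 z (n 0 z (n 0 z (n 0 z (n 0 z (n 0 z (n 0 z (n 0 z z)))))))))))))))))
 z)))) (n 0 (n 15 (n 0 z (n 0 z (n 0 z (n 0 z (n 0 z (n 0 z z)))))) (n 15 (n 0 z (n 2 (n 1 z z)
 (n 0 z (n 0 z (n 0 z (n 0 z z)))))) (n 13 (n 6496371 z (n 0 z (n 0 z (n 0 z (n 0 z (n 0 z (n 0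
 z (n 0 z (n 0 z (n 0 z (n 0 z z))))))))))) z))) (n 0 (n 0 z (n 5 (n 0 z (n 0 z (n 0 z z))) z))
 (n 0 (n 1033 (n 0 z (n 0 z (n 0 z (n 0 z (n 2 z (n 0 z (n 0 z (n 0 z (n 0 z (n 0 z (n 0 z (n 0
 z (n 0 z (n 0 z (n 0 z (n 0 z (n 0 z z))))))))))))))))) z) (n 0 z z))))))))) (n 0 (n 1 (n
 3282443 z (n 3282443 z (n 3282443 z (n 3282443 z (n 3282443 z (n 3282443 z z)))))) (n 0 z (n 0
 z (n 0 z z)))) (n 0 z z)))) (n 0xc755660d5530549521c54c611 (n 0 (n 477 (n 6557747 z (n 0 z (n 0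
 z (n 0 z z)))) (n 475 (n 6557747 z (n 6557747 z (n 2 z (n 0 z (n 0 z (n 0 z (n 0 z (n 0 z
 z)))))))) (n 474 (n
 0x16ca8ca82078276dbc2972e6e7a54c5a65a895760725859955df8405ddd7a37a895d6e772332e7ee75075f0801 z
 (n 0 z (n 0 z (n 0 z (n 3212843 z (n 3212843 z (n 0 z (n 4392491 z (n
 0x8b28b18200c965454310386c86c8600382285e6a28618239df8df7a46277a37de8e27e58207df81d72292192271f7df85e7a095d7991801
 z (n 0 z (n 10 z (n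
 0xca8ca80038208208207e181f82082082181f81f82082082082082081f86185f82082182082082076085f0801 z (n
 0 z (n 18 z (n 0 z (n 0 z (n 0 z (n
 0x4ca2ca20078228a07a282182089e86082089e7e182081f81e9a085f8e079e86079f7e08618617df8228200801 z
 (n 0x16ca2ca20078276dbc2972e6e7a54c5a65a895760725859955df8405ddd7a37a895d6e772332e7ee75075f0801
 z (n 26 z (n
 0x13654640103a6ca4a80207827a65124a188dc6e55a4adfb607a47149e0667ce1e1ad1b554cd24f055699e99a593aef79e1001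
 z z))))))))))))))))))))) (n 3 (n 6631491 z (n 0 z (n 0 z (n 0 z (n 0 z z))))) (n 1 (n
 0xcc84620a034194594080e832a288100c964351020390c84a40207825b259218277e09976e176076179f8a07de8a0c6192189f51e7da7de8627a38288a26a97da2801
 z (n 0 z (n 0 z (n 0 z (n 6557747 z (n 6557747 z (n 6557747 z (n 0 z (n 0 z (n 0 z (n 0 z (n 0
 z (n 0 z (n 6554139 z (n 0 z (n
 0x8d88444c423962182392162472181e99796186186576475d7e17e29618a17e075f8e486175c7e381d6d68e779d00c1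
 z z)))))))))))))))) (n 0 (n 34 z (n 0 z (n 6631491 z (n 0 z (n 0 z z))))) z)))))) (n 477 (n 0
 (n 1015 (n 0 z (n 0 z (n 0 z (n 0 z (n 0 z (n 2 (n 0 z (n 0 z (n 1 z z))) (n 0 z (n 0 z (n 0 z
 (n 0 z (n 0 z (n 0 z (n 0 z (n 0 z (n 0 z (n 0 z (n 0 z (n 0 z (n 0 z (n 0 z (n 0 z
 z))))))))))))))))))))) (n 1015 (n 0 z (n 0 z (n 0 z (n 0 z (n 0 z (n 0 z (n 0 z (n 0 z (n 0 z
 (n 0 z (n 0 z (n 0 z (n 0 z (n 0 z (n 0 z (n 0 z (n 0 z (n 0 z (n 0 z (n 0 z (n 0 z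
 z))))))))))))))))))))) (n 1015 (n 0 z (n 0 z (n 0 z (n 0 z (n 0 z (n 0 z (n 0 z (n 0 z (n 0 z
 (n 0 z (n 2 (n 1 z z) (n
 0xec6ec60038208208207e181f82082082181f81f82082082082082081f86185f82082182082082076085f0801 z (n
 0 z (n 0 z (n 0 z (n 0 z (n 0 z (n 0 z (n 0 z (n 0 z (n 0 z z))))))))))))))))))))) (n 1013 (n 0
 z (n 0 z (n 0 z (n 0 z (n 0 z (n 0 z (n 0 z (n 0 z (n 0 z (n 0 z z)))))))))) z)))) (n 0 (n 0 z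
 (n 0 z (n 17 (n 0 z (n 0 z (n 0 z (n 0 z (n 0 z (n 0 z (n 2 z (n 0 z (n 0 z (n 0 z z))))))))))
 z))) (n 0 (n 0 z (n 17 (n 0 z (n 0 z (n 0 z (n 0 z (n 0 z (n 0 z (n 0 z (n 0 z (n 0 z (n 0 z (n
 0 z (n 0 z (n 0 z (n 0 z (n 0 z (n 0 z (n 0 z (n 0 z (n 0 z (n 0 z (n 0 z
 z))))))))))))))))))))) z)) (n 0 (n 17 (n 2 z (n
 0xec6ec60038208208207e181f82082082181f81f82082082082082081f86185f82082182082082076085f0801 z (n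
 0 z (n 0 z (n 0 z (n 0 z (n 0 z (n 0 z z)))))))) z) (n 0 z z))))) (n 0 (n 1 (n 6557747 z (n
 6557747 z (n 6557747 z (n 6557747 z (n 6557747 z (n 6557747 z z)))))) (n 0 z (n 0 z (n 0 z
 z)))) (n 0 z z)))) z)))))))))), by decide +kernel⟩
theorem i10232 : ∃ t, chkR KT RW t 10232 10242 = true := ⟨(n
 0xbac743449a19b2d2607512e86745a80c9640 (n 0 (n 183 (n 0 z (n 0 z (n 0 z (n 0 z (n 2 z (n 0 z (n
 0 z (n 0 z (n 0 z (n 3282443 z (n 0 z (n 0 z (n 0 z (n 0 z (n 0 z (n 10 z z)))))))))))))))) (n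
 33 (n 18 z (n 0 z (n 0 z (n 0 z (n 6631747 z (n 0 z (n 0 z z))))))) (n 129 (n 6566419 z (n 26 z
 (n 0 z (n
 0x48ca2226519aa757a5e81fd5592a7a48e399f7a161c54d6ab9219a08df9e191b79c81a79d86bacab697e00081 z
 (n 0 z (n 6566419 z (n 0 z z))))))) (n 3 (n 0 z (n 0 z (n 0 z (n 0 z (n 6566419 z (n 0 z (n 0 z
 (n 0 z (n 0 z (n 0 z (n 0 z (n 0 z (n 0 z z))))))))))))) (n 1 (n 6566419 z (n 6566419 z (n 0 z
 z))) (n 0 (n 6631747 z (n 6631747 z (n 34 z (n 0 z (n 42 z (n 0 z (n 0 z (n 50 z (n 0 z (n 0 z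
 z)))))))))) z)))))) (n 1 (n 0 (n 0 z (n 179 (n 0 z (n 0 z (n 0 z (n 0 z (n 0 z (n 0 z (n 0 z (n
 0 z (n 0 z z))))))))) (n 151 (n 0 z (n 0 z (n 0 z (n 0 z (n 0 z (n 0 z z)))))) (n 17 (n 0 z (n
 0 z (n 0 z (n 0 z (n 0 z (n 0 z z)))))) (n 17 (n 0 z (n 0 z (n 0 z (n 0 z (n 0 z (n 0 z z))))))
 (n 17 (n 0 z (n 0 z (n 0 z (n 0 z (n 0 z (n 0 z z)))))) z)))))) (n 0 (n 871 (n 0 z (n 0 z (n 0
 z (n 0 z (n 0 z (n 0 z (n 0 z (n 0 z (n 0 z (n 0 z (n 0 z (n 0 z (n 0 z (n 0 z (n 0 z (n 0 z (n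
 0 z (n 0 z z)))))))))))))))))) (n 1041 (n 0 z (n 0 z (n 0 z (n 0 z (n 0 z (n 0 z (n 0 z (n 0 z
 (n 0 z (n 2 (n 2 (n 0 z (n 0 (n 3508 z (n 3508 z z)) (n 0 (n 3508 z (n 3508 z z)) (n 0 (n 3508
 z (n 3508 z z)) (n 0 z (n 0 (n 6359131 z (n 6359131 z z)) z)))))) (n 2 (n 0 (n 8798515 z (n
 8798515 z z)) (n 0 (n 8798515 z (n 8798515 z z)) (n 0 (n 8798515 z (n 8798515 z z)) (n 0 z (n 0
 z (n 0 (n 8798515 z (n 8798515 z z)) z)))))) (n 2 (n 0 (n 3508 z (n 3508 z z)) (n 0 (n 3508 z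
 (n 3508 z z)) (n 0 z (n 0 (n 7743563 z (n 3508 z z)) (n 0 z (n 0 (n 3508 z (n 3508 z z))
 z)))))) z))) (n 0 z (n 0 z (n 0 z (n 0 z (n 0 z (n 0 z z)))))))))))))))) (n 877 (n 0 z (n 0 z
 (n 0 z (n 0 z (n 0 z (n 0 z (n 0 z (n 0 z (n 0 z (n 2 (n 0 z (n 0 z z)) (n 0 z (n 0 z (n 0 z (n
 0 z (n 0 z (n 0 z z)))))))))))))))) (n 877 (n 0 z (n 0 z (n 0 z (n 0 z (n 0 z (n 0 z (n 0 z (n
 0 z (n 0 z (n 0 z (n 0 z (n 0 z (n 0 z (n 0 z (n 0 z (n 0 z z)))))))))))))))) (n 877 (n 0 z (n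
 0 z (n 0 z (n 0 z (n 0 z (n 0 z (n 0 z (n 0 z (n 0 z (n 0 z (n 0 z (n 0 z (n 0 z (n 0 z (n 0 z
 (n 0 z z)))))))))))))))) z))))) (n 0 (n 429 (n 0 z (n 0 z (n 0 z (n 0 z (n 0 z (n 0 z (n 0 z (n
 0 z (n 2 (n 2 (n 0 z (n 0 z (n 0 z (n 0 z (n 0 z (n 0 z z)))))) (n 1 z (n 2 (n 0 z (n 0 z (n 0
 z (n 0 z (n 0 z (n 0 z z)))))) z))) (n 0 z (n 0 z (n 0 z (n 0 z (n 0 z (n 0 z (n 0 z
 z)))))))))))))))) (n 1033 (n 0 z (n 0 z (n 0 z (n 0 z (n 2 (n 0 z (n 0 z z)) (n 0 z (n 0 z (n 0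
 z (n 0 z z))))))))) (n 1033 (n 0 z (n 0 z (n 0 z (n 0 z (n 0 z (n 0 z (n 0 z (n 0 z (n 0 z
 z))))))))) (n 1033 (n 0 z (n 0 z (n 0 z (n 2 z (n 0 z (n 0 z (n 0 z (n 0 z (n 0 z z)))))))))
 z)))) (n 0 (n 257 (n 0 z (n 0 z (n 0 z (n 0 z (n 0 z (n 0 z (n 0 z (n 0 z (n 0 z (n 0 z (n 0 z
 (n 0 z (n 0 z (n 0 z (n 0 z (n 0 z (n 0 z (n 0 z (n 0 z (n 0 z (n 0 z (n 2 (n 0 z (n 0 z z)) (n
 0 z (n 0 z (n 0 z (n 0 z (n 0 z (n 0 z (n 0 z (n 0 z (n 0 z (n 0 z (n 0 z (n 0 z (n 0 z (n 0 z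
 (n 0 z (n 0 z (n 0 z (n 0 z (n 0 z (n 0 z (n 0 z (n 0 z (n 0 z (n 0 z
 z)))))))))))))))))))))))))))))))))))))))))))))) (n 257 (n 0 z (n 0 z (n 0 z (n 0 z (n 0 z (n 0
 z (n 0 z (n 0 z (n 0 z (n 0 z (n 0 z (n 0 z (n 0 z (n 0 z (n 0 z (n 0 z (n 0 z (n 0 z (n 0 z (n
 0 z (n 0 z (n 0 z (n 6428427 z (n 0 z (n 0 z (n 0 z (n 0 z (n 0 z (n 0 z (n 0 z (n 0 z (n 0 z
 (n 0 z (n 0 z (n 0 z (n 0 z (n 0 z (n 0 z (n 0 z (n 0 z (n 0 z (n 0 z (n 0 z (n 0 z (n 0 z (n 0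
 z z)))))))))))))))))))))))))))))))))))))))))))))) (n 257 (n 0 z (n 0 z (n 0 z (n 0 z (n 0 z (n
 0 z (n 0 z (n 0 z (n 0 z (n 0 z (n 0 z (n 0 z (n 0 z (n 0 z (n 0 z (n 0 z (n 0 z (n 0 z (n 0 z
 (n 0 z (n 0 z (n 0 z (n 0 z (n 2 z (n 0 z (n 0 z (n 0 z (n 0 z (n 0 z (n 0 z (n 0 z (n 0 z (n 0
 z (n 0 z (n 0 z (n 0 z (n 0 z (n 0 z (n 0 z (n 0 z (n 0 z (n 0 z (n 0 z (n 0 z (n 0 z (n 0 z
 z)))))))))))))))))))))))))))))))))))))))))))))) z))) (n 0 (n 0 z (n 0 z z)) (n 0 (n 0 z z) (n 0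
 z z))))))) (n 0 (n 1 (n 6566419 z (n 6566419 z (n 6566419 z (n 6566419 z (n 6566419 z (n
 6566419 z z)))))) (n 1 (n 6566419 z (n 6566419 z (n 6566419 z (n 6566419 z (n 6566419 z (n
 6566419 z z)))))) (n 0 z z))) (n 0 z z)))) (n 0x2c63a116e56165230aa9182dc8816e4 (n 0 (n 467 (n
 0 z (n 6561843 z (n 0 z (n 0 z (n 0 z z))))) (n 315 (n 0 z (n 0 z (n 0 z (n 6492227 z z)))) (n
 129 (n 0 z (n 6561843 z z)) (n 3 (n 6492227 z (n 0 z (n 0 z z))) (n 1 (n 2 z (n 10 z (n 0 z (n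
 0x2ca8642007808280808081808080808080808080808080808080807f808080808080807f808080808080808080808080808080808080800809
 z (n 18 z (n 26 z (n 0 z (n 6561843 z (n 0 z (n
 0x194d94080602ca8a640038081807f7f807f80808080808081808080808080808080808081808080808080808080808080808080808080807f808080801009
 z z)))))))))) (n 0 (n 0 z (n 0 z (n 0 z (n 0 z (n 0 z (n 0 z (n 34 z (n
 0xa318b18100c1d90d8c800e08ca8864003775c7b9a9a715b639c808c997d72558891798baa6b9374778790997d7f738a7378728180a2855b898176818e79799b877c831809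
 z (n 0 z (n 42 z (n 6631947 z (n 0 z (n 0 z (n 0 z (n 0 z (n 6631947 z (n 0 z (n 0 z (n 0 z (n
 0 z (n 0 z (n 0 z (n 0 z (n 0 z (n 0 z z))))))))))))))))))))))))) z)))))) (n 129 (n 0 (n 0 z (n
 0 z (n 0 z (n 1 (n 0 z (n 0 z (n 0 z (n 0 z (n 0 z (n 0 z (n 0 z (n 0 z (n 0 z (n 0 z (n 0 z (n
 0 z (n 0 z (n 0 z (n 0 z (n 0 z (n 0 z (n 0 z (n 0 z (n 0 z (n 0 z (n 0 z (n 0 z (n 0 z (n 0 z
 (n 0 z (n 0 z (n 0 z (n 0 z (n 0 z (n 0 z (n 0 z (n 0 z (n 0 z (n 0 z (n 0 z (n 0 z (n 0 z (n 0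
 z (n 0 z (n 0 z (n 0 z (n 0 z (n 0 z (n 0 z (n 0 z (n 0 z (n 0 z (n 0 z (n 0 z (n 0 z
 z))))))))))))))))))))))))))))))))))))))))))))))))))) (n 1 (n 0 z (n 0 z (n 0 z (n 0 z (n 0 z (n
 0 z (n 0 z (n 0 z (n 0 z (n 0 z (n 0 z (n 0 z (n 0 z (n 0 z (n 0 z (n 0 z (n 0 z (n 0 z (n 0 z
 (n 0 z (n 0 z (n 0 z (n 0 z (n 0 z (n 0 z (n 0 z (n 0 z (n 0 z (n 0 z (n 0 z (n 0 z (n 0 z (n 0
 z (n 0 z (n 0 z (n 0 z (n 0 z (n 0 z (n 0 z (n 0 z (n 0 z (n 0 z (n 0 z (n 0 z (n 0 z (n 0 z (n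
 0 z (n 0 z (n 0 z (n 0 z (n 0 z z))))))))))))))))))))))))))))))))))))))))))))))))))) z))))) (n
 0 (n 0 z (n 0 z (n 1 (n 0 z (n 0 z (n 0 z (n 0 z (n 0 z (n 0 z (n 0 z (n 0 z (n 0 z (n 0 z (n 0
 z (n 0 z (n 0 z (n 0 z (n 0 z (n 0 z (n 0 z (n 0 z (n 0 z (n 0 z (n 0 z (n 0 z (n 0 z (n 0 z (n
 0 z (n 0 z (n 0 z (n 0 z (n 0 z (n 0 z (n 0 z (n 0 z (n 0 z (n 0 z (n 0 z (n 0 z (n 0 z (n 0 z
 (n 0 z (n 0 z (n 0 z (n 0 z (n 0 z (n 0 z (n 0 z (n 0 z (n 0 z (n 0 z (n 0 z (n 0 z (n 0 z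
 z))))))))))))))))))))))))))))))))))))))))))))))))))) (n 1 (n 0 z (n 0 z (n 0 z (n 0 z (n 0 z (n
 0 z (n 0 z (n 0 z (n 0 z (n 0 z (n 0 z (n 0 z (n 0 z (n 0 z (n 0 z (n 0 z (n 0 z (n 0 z (n 0 z
 (n 0 z (n 0 z (n 0 z (n 0 z (n 0 z (n 0 z (n 0 z (n 0 z (n 0 z (n 0 z (n 0 z (n 0 z (n 0 z (n 0
 z (n 0 z (n 0 z (n 0 z (n 0 z (n 0 z (n 0 z (n 0 z (n 0 z (n 0 z (n 0 z (n 0 z (n 0 z (n 0 z (n
 0 z (n 0 z (n 0 z (n 0 z (n 0 z z))))))))))))))))))))))))))))))))))))))))))))))))))) z)))) (n 0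
 (n 0 z (n 1 (n 0 z (n 0 z (n 0 z (n 0 z (n 0 z (n 0 z (n 7750403 z (n 0 z (n 0 z (n 0 z (n 0 z
 (n 0 z z)))))))))))) (n 1 (n 0 z (n 0 z (n 0 z (n 0 z (n 0 z (n 0 z (n 0 z (n 0 z (n 0 z (n 0 z
 (n 0 z (n 0 z z)))))))))))) z))) (n 0 (n 1 (n 0 z (n 0 z (n 0 z (n 0 z (n 0 z (n 0 z (n 7750403
 z z))))))) (n 1 (n 0 z (n 0 z (n 0 z (n 0 z (n 0 z (n 0 z (n 0 z z))))))) z)) (n 0 (n 0 z z) (n
 0 z z)))))) (n 0 (n 0 z (n 1 (n 6561843 z (n 6561843 z (n 6561843 z (n 6561843 z (n 6561843 z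
 (n 6561843 z z)))))) z)) (n 0 z z)))) (n 0xcaa745a8ba0e56561baa2c45695a344d3611 (n 0 (n 279 (n
 0 z (n 0 z (n 6557731 z (n 0 z z)))) (n 255 (n 0 z (n 2 z (n 6496515 z (n 6562131 z z)))) (n 9
 (n 0x6ca2a608077208de7a18a17e281e81c75d85f86085e82086189d81f81f7df8618608607e07dd7e18618200801
 z (n 6496515 z (n 10 z (n 0 z (n 18 z (n 6496515 z (n 6562131 z (n 6562131 z (n 6562131 z
 z))))))))) (n 243 (n 0 z (n 6496515 z (n 0 z (n 0 z (n 0 z z))))) (n 1 (n 26 z (n 0 z (n 0 z (n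
 6562131 z (n 6557731 z z))))) (n 0 (n 34 z (n 0 z (n 0 z (n 0 z (n 0 z (n 0 z (n
 0x6ca88602077e285d81d8df91e7a67e18e385e85d89e8e18218a18208e27a385b8de7e07e08227df8a27e30801 z
 (n 0x6ca88602077e285e81d89e91e7e67e096281f89e85e8e17df89f8218e282289c89f7607e182185e85f7a20801
 z (n 0 z (n 6628379 z (n 0 z (n 0 z (n 0 z (n 0 z (n 0 z (n 0 z (n 0 z (n 0 z (n 42 z (n 50 z
 (n 0 z (n 0 z (n 0 z (n 0 z (n 0 z (n 6619675 z (n 0 z (n 0 z (n 0 z (n 0 z (n 0 z (n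
 0xec82c80603720a5b81d9a07de95e71c85a92186581f8247e38da7e276279e89e9627a07a071d91f8638610801 z
 (n 0 z z))))))))))))))))))))))))))))))))) z)))))) (n 279 (n 0 (n 103 (n 0 z (n 0 z (n 0 z (n 0
 z (n 0 z (n 0 z (n 2 (n 0 z (n 1 z (n 2 (n 0 z (n 0 z (n 0 z (n 0 z (n 0 z (n 0 z z)))))) (n 2
 (n 0 z (n 0 z (n 0 z (n 0 z (n 0 z (n 0 z z)))))) (n 2 (n 0 z (n 0 z (n 0 z (n 0 z (n 0 z (n 0
 z z)))))) z))))) (n 0 z (n 0 z (n 0 z (n 0 z (n 0 z (n 0 z (n 0 z z)))))))))))))) (n 103 (n 0 z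
 (n 0 z (n 0 z (n 0 z (n 0 z (n 0 z (n 0 z (n 0 z (n 0 z (n 0 z (n 0 z (n 0 z (n 0 z (n 0 z
 z)))))))))))))) (n 111 (n 0 z (n 0 z (n 0 z (n 0 z (n 0 z (n 0 z z)))))) (n 509 (n 0 z (n 0 z
 (n 0 z (n 0 z (n 0 z (n 0 z (n 0 z (n 0 z (n 0 z (n 0 z (n 0 z (n 0 z (n 0 z (n 0 z (n 0 z (n 2
 (n 0 z (n 0 z z)) (n 0 z (n 0 z (n 0 z (n 0 z (n 0 z (n 0 z z)))))))))))))))))))))) (n 509 (n 0
 z (n 0 z (n 0 z (n 0 z (n 0 z (n 0 z (n 0 z (n 0 z (n 0 z (n 0 z (n 0 z (n 0 z (n 0 z (n 0 z (n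
 0 z (n 0 z (n 0 z (n 0 z (n 0 z (n 0 z (n 2 (n 0 z z) (n 0 z z)))))))))))))))))))))) (n 509 (n
 0 z (n 0 z (n 0 z (n 0 z (n 0 z (n 0 z (n 0 z (n 0 z (n 0 z (n 0 z (n 0 z (n 0 z (n 0 z (n 0 z
 (n 0 z (n 0 z (n 0 z (n 2 z (n 0 z (n 0 z (n 0 z (n 0 z z)))))))))))))))))))))) z)))))) (n 0 (n
 0 z (n 99 (n 0 z (n 0 z (n 2 (n 2 (n 0 z (n 0 z (n 0 z (n 0 z (n 0 z (n 0 z z)))))) (n 2 (n 0 z
 (n 0 z (n 0 z (n 0 z (n 0 z (n 0 z z)))))) (n 2 (n 0 z (n 0 z (n 0 z (n 0 z (n 0 z (n 0 z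
 z)))))) z))) (n 0 z (n 0 z (n 0 z (n 0 z z))))))) (n 17 (n 0 z (n 0 z (n 0 z (n 0 z (n 0 z (n 0
 z z)))))) (n 17 (n 0 z (n 0 z (n 0 z (n 0 z (n 0 z (n 0 z z)))))) (n 17 (n 0 z (n 0 z (n 0 z (n
 0 z (n 0 z (n 0 z z)))))) z))))) (n 0 (n 99 (n 0 z (n 0 z (n 0 z (n 0 z (n 0 z (n 0 z (n 0 z (n
 0 z z)))))))) (n 17 (n 0 z (n 0 z (n 0 z (n 0 z (n 0 z (n 0 z (n 0 z z))))))) (n 17 (n 0 z (n 0
 z (n 0 z (n 0 z (n 0 z (n 0 z (n 0 z z))))))) (n 17 (n 0 z (n 0 z (n 0 z (n 2 z (n 0 z (n 0 z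
 (n 0 z z))))))) z)))) (n 0 (n 1 (n 0 z (n 0 z (n 0 z (n 0 z (n 0 z (n 0 z (n 0 z (n 0 z (n 0 z
 (n 0 z (n 0 z (n 0 z (n 0 z (n 2 (n 0 z (n 0 z z)) (n 0 z (n 0 z (n 0 z (n 0 z (n 0 z (n 0 z (n
 0 z (n 0 z (n 0 z (n 0 z (n 0 z z))))))))))))))))))))))))) (n 1 (n 0 z (n 0 z (n 0 z (n 0 z (n
 0 z (n 0 z (n 0 z (n 0 z (n 0 z (n 0 z (n 0 z (n 0 z (n 0 z (n 0 z (n 0 z (n 0 z (n 0 z (n 0 z
 (n 0 z (n 0 z (n 0 z (n 2 (n 0 z z) (n 0 z (n 0 z (n 0 z z))))))))))))))))))))))))) (n 1 (n 0 z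
 (n 0 z (n 0 z (n 0 z (n 0 z (n 0 z (n 0 z (n 0 z (n 0 z (n 0 z (n 0 z (n 0 z (n 0 z (n 0 z (n 0
 z (n 2 z (n 0 z (n 0 z (n 0 z (n 0 z (n 0 z (n 0 z (n 0 z (n 0 z (n 0 z
 z))))))))))))))))))))))))) z))) (n 0 (n 0 z (n 0 z z)) (n 0 (n 0 z z) (n 0 z z))))))) (n 0 (n 0
 z (n 0 z (n 1 (n 6496515 z (n 6557731 z (n 6557731 z (n 6557731 z (n 6557731 z (n 6557731 z
 z)))))) (n 0 z z)))) (n 0 z z)))) (n 0x212d80e3840 (n 0 (n 455 (n 0 z (n 3282443 z (n 4331019 z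
 (n 2 z (n 0 z (n 0 z (n 0 z (n 10 z (n 0 z (n 0 z z)))))))))) (n 437 (n 0 z (n 3278363 z (n 0 z
 (n 0 z (n 0 z (n 0 z (n 0 z z))))))) (n 436 (n 0 z (n 0 z (n 0 z (n 3212843 z (n 0 z z))))) (n
 3 (n 0 z (n 0 z (n 0 z (n 0 z (n 6636307 z (n 0 z z)))))) (n 1 (n
 0x2c64c6420781d8df81d8a289d89f7df7658a086372385e86499a76581b8617e385d82291d8a36df72685d0801 z
 (n 0 z (n 0 z (n 0 z (n 0 z (n 0 z (n 0 z (n
 0x4ca8a6420781e7a091e89a91a7a071f6668de9a95aa5ea6638208e189595f75f81f8e38686e55e56a07e00801 z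
 (n 6636307 z (n 6636307 z (n 0 z z))))))))))) (n 0 (n 0 z (n 6636307 z (n 0 z (n 0 z (n 0 z
 z))))) z)))))) (n 436 (n 0 (n 0 z z) (n 0 z z)) (n 0 (n 0 z (n 0 z (n 0 z (n 1 (n 3212843 z (n
 3212843 z (n 3212843 z (n 3212843 z (n 3212843 z (n 3212843 z z)))))) (n 0 z z))))) (n 0 z
 z)))) (n 0x1a365091b2844b56886590584c (n 0 (n 321 (n 0 z (n 6492195 z (n 0 z z))) (n 315 (n 0 z
 (n 6492195 z z)) (n 9 (n 3212843 z (n 0 z z)) (n 125 (n 0 z (n 0 z (n 6492195 z (n 0 z (n 0 z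
 (n 0 z (n 0 z (n 0 z (n 0 z (n 0 z (n 0 z (n 0 z (n 6492195 z (n 0 z (n 0 z (n 0 z (n 0 z (n 0
 z z)))))))))))))))))) (n 1 (n 0 z (n 0 z (n 2164299 z (n 2 z (n 10 z z))))) (n 0 (n 18 z (n 26
 z (n 34 z (n 2164315 z (n 0 z (n 0 z (n
 0xc86c8620786182086092179e8228207e27df6a07df86189c7608a07a18a085e7e08a175d89f89f7e081f0801 z (n
 0 z (n 0 z (n 0 z z)))))))))) z)))))) (n 315 (n 0 (n 0 z (n 25 (n 2 (n 0 z (n 0 z z)) (n 0 z (n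
 0 z (n 0 z (n 0 z (n 0 z (n 0 z (n 0 z (n 0 z (n 0 z (n 0 z (n 0 z (n 0 z (n 0 z (n 0 z (n 0 z
 (n 0 z (n 0 z (n 0 z (n 0 z (n 0 z (n 0 z (n 0 z (n 0 z (n 0 z (n 0 z (n 0 z
 z))))))))))))))))))))))))))) (n 25 (n 0 z (n 0 z (n
 0x2ec6ec620786081f8608a28208a07df86481e82081f7a082182082182081f8217e176185e92385e7e185e0801 z
 (n 0 z (n 0 z (n 0 z (n 0 z (n 0 z (n 0 z (n 0 z (n 0 z (n 0 z (n 0 z (n 0 z (n 0 z (n 0 z (n 0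
 z (n 0 z (n 0 z (n 0 z (n 0 z (n 0 z (n 0 z (n 0 z (n 0 z (n 0 z (n 0 z
 z))))))))))))))))))))))))))) (n 25 (n 0 z (n 0 z (n
 0x2ec6ec620786081e85f8a282089f7e086481f82081f7a08608208217e07df7e17e07a289f96385d7a289c0801 z
 (n 0 z (n 0 z (n 0 z (n 0 z (n 0 z (n 0 z (n 0 z (n 0 z (n 0 z (n 0 z (n 0 z (n 0 z (n 0 z (n 0
 z (n 0 z (n 0 z (n 0 z (n 0 z (n 0 z (n 0 z (n 0 z (n 0 z (n 0 z (n 0 z
 z))))))))))))))))))))))))))) z)))) (n 0 (n 1 (n 0 z (n 0 z (n 0 z (n 0 z (n 0 z (n 0 z (n 0 z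
 (n 0 z (n 0 z (n 0 z (n 0 z (n 0 z (n 0 z (n 0 z (n 0 z (n 0 z (n 0 z (n 0 z
 z)))))))))))))))))) (n 1 (n 0 z (n 0 z (n 0 z (n 0 z (n 0 z (n 0 z (n 0 z (n 0 z (n 0 z (n 0 z
 (n 0 z (n 0 z (n 0 z (n 0 z (n 0 z (n 0 z (n 0 z (n 0 z z)))))))))))))))))) (n 1 (n 0 z (n 0 z
 (n 0 z (n 0 z (n 0 z (n 0 z (n 0 z (n 0 z (n 0 z (n 0 z (n 0 z (n 0 z (n 0 z (n 0 z (n 0 z (n 0
 z (n 0 z (n 0 z z)))))))))))))))))) z))) (n 0 (n 0 z (n 0 z z)) (n 0 (n 0 z z) (n 0 z z))))) (n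
 0 (n 0 z (n 1 (n 6492195 z (n 6492195 z (n 6492195 z (n 6492195 z (n 6492195 z (n 6492195 z
 z)))))) z)) (n 0 z z)))) (n 0xdb295026c932580 (n 0 (n 671 (n 3282443 z (n 6492243 z (n
 0x99099084060ad88415310829621807e807e7f8080818380807f7e817f80817f807f80807f7f8080807f7f8081817d7f817b7f81808081817f7e81808081807f08c9
 z (n
 0x2ca6a6420780808080808080808080808080808080808080808080808080808080808080808180807f80808080808080808080808080800809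
 z (n 0 z (n 0 z (n 0 z (n 0 z (n 0 z (n 0 z (n 2 z (n
 0xb21b21900c0194d94c4060ac86c64203817d82838280827e837d7c808281837e7f807e827f917c8079807f8080808185807f7a807f89817d8080817d817e81807c7f1809
 z z)))))))))))) (n 667 (n 0 z (n 0 z (n 0 z (n 6492243 z z)))) (n 9 (n 0 z (n 6628107 z (n 0 z
 (n 0 z z)))) (n 666 (n 0 z (n 6492243 z (n 0 z (n 0 z (n 6492243 z (n 0 z (n 0 z (n 0 z (n 0 z
 z))))))))) (n 1 (n 0 z (n 10 z (n 2164299 z (n 0 z (n 0 z (n 0 z (n 0 z (n 0 z z)))))))) (n 0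
 (n 0 z (n
 0x8c86c6420780807f80808080818180817f8180808081808180808082807f817d807c7f83838380807e7f7f7e8080807f7d827d7f817f7d0809
 z (n 0 z (n 0 z (n
 0x99099084060ad88415310829621807e807e7f8080818380807f7e817f80817f807f80807f7f8080807f7f8081817d7f817b7f81808081817f7e81808081807f08c9
 z (n
 0x2ca6864207808080808080808080808080808081808080808080807f8080808080808080818080808080808080808080808080808080800809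
 z (n 0 z (n 3282523 z (n 6628107 z (n 0 z (n 6628107 z (n
 0x1d320b20180c1190d90c40614c86c820073d858e6c8c9470bb729492857c79788d3f879e9d8a815678797d7a787484875d907d7f9a7056947d887e709d5671a3738b871809
 z (n 0 z (n 0 z (n 18 z z))))))))))))))) z)))))) (n 667 (n 0 (n 677 (n 0 z (n 0 z (n 0 z (n 0 z
 (n 0 z (n 0 z (n 0 z (n 0 z (n 0 z (n 0 z (n 0 z (n 0 z (n 0 z (n 0 z (n 0 z z)))))))))))))))
 (n 577 (n 0 z (n 0 z (n 0 z (n 0 z (n 0 z (n 0 z (n 0 z (n 0 z (n 0 z (n 0 z (n 0 z (n 0 z (n 0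
 z (n 0 z (n 0 z (n 0 z (n 0 z z))))))))))))))))) z)) (n 0 (n 1081 (n 0 z (n 0 z (n 0 z (n 0 z
 z)))) z) (n 0 z z))) (n 0 (n 0 z (n 0 z (n 0 z (n 1 (n 6492243 z (n 6492243 z (n 6492243 z (n
 6492243 z (n 6492243 z (n 6492243 z z)))))) z)))) (n 0 z z)))) (n 0x82b1c (n 0 (n 153 (n
 0x159498c840e22c84c64207176640a68c814c9901d832089857f8080828575858f7c7b807b7a838f82797b81877f7c7d7d8082848180807f838d81817f8587857c83897d7b818788851109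
 z (n
 0x2ca8a8420780807f818080808280807f8082818180808081817f807f82817f7e80807f7f7f807f7d827f8080807f80827f7f808180817f0809
 z (n 0 z (n 0 z (n 0 z (n
 0x195195040602ca8a86207808080808080808080807f8080808080808080808080808080808080808080808080808080808080808080808080818080801009
 z (n 0 z (n 0 z (n 0 z (n 0 z (n 0 z (n 0 z (n 6554411 z (n 0 z (n 3282443 z (n 4331019 z (n
 4331019 z (n
 0x2ca8864203808080808080808080807f81808080807f8081807f808080807f8080818080807f807f80807f8080818080807f81808081800809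
 z (n 0 z (n 0 z (n 0 z z))))))))))))))))))))) (n 57 (n 0 z (n 0 z (n 0 z (n 0 z (n 0 z (n
 6496515 z z)))))) (n 51 (n 0 z (n 0 z (n 0 z (n 0 z (n 0 z (n 0 z (n 6496515 z (n 0 z (n 0 z (n
 0x2ca8ca820380807e8080808080808180827e8080808080817f8080808081817c80827f7e7f82808180808080808080807f8080808080800809
 z (n 0 z (n 0 z (n 0 z (n 0 z (n 6496515 z z))))))))))))))) (n 27 (n
 0xaa82ca0407056640228c804499005832083817d818080807d83837f8280808081818080808082807e807e7a8083808081808181817f7f808081818082807d828181810909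
 z (n 6496515 z (n 4331067 z (n 4331067 z (n 0 z (n 0 z (n 0 z (n
 0x994548100e00ca8ca8207817e7f807e80808080817f868080838080808181807f8181807d7d80828180817f807f8080807f7f80817f80807f818081801009
 z (n 0 z (n 0 z (n 0 z (n 0 z (n 0 z (n 0 z (n 0 z (n 0 z (n 0 z (n 0 z (n
 0x2ca8a802078080808080808080807f7f80828080807f808181808180817f808080808080808080808081808080808080817f80808080800809
 z (n 0 z (n 0 z (n 6496515 z (n 0 z (n 0 z (n 0 z (n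
 0x2ca8a8420780807f818080808280807f8082818180808081817f807f82817f7e80807f7f7f807f7d827f8080807f80827f7f808180817f0809
 z (n
 0xaca2ca08070565152040185b2a2a0900c1595150840e0aca6a82003837d7f7f807c8280818179907d7f7f847d81847e807e7c817e7b7482877f7a7c807e80877e7e80827e837f817f7e808080822809
 z (n 0 z (n 0 z (n 6496515 z (n 6496515 z z))))))))))))))))))))))))))))))) (n 1 (n 2 z (n 0 z
 (n 0 z (n 6554411 z z)))) (n 0 (n 0 z (n 0 z (n 0 z (n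
 0x2c86c8640380817d808480807e8080807f80807d808080807e808080808080808081807f808180808080808080807e80808080808080800809
 z (n 0 z (n
 0x2c86c8620380817d808480807e8080807f80807d808080807e808080808080808081807f808180808080808080807e80808080808080800809
 z (n 2164315 z (n 0 z (n 0 z (n 0 z (n 0 z (n 0 z (n
 0x2c86c8640380817d808480807e8080807f80807d808080807e808080808080808081807f808180808080808080807e80808080808080800809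
 z (n
 0x2c86c8640380807d7f847e808080808080807e7f80808080808282808080818080807f81818080808080808080818080808080808080800809
 z (n 0 z (n
 0x2c86c8640380817d808480807e8080807f80807d808080807e808080808080808081807f808180808080808080807e80808080808080800809
 z (n 0 z (n
 0xc86c8620380807f808280807f8180807e8081808080808080808080808080808080807f80807f8080808080818080807f8080808080800809
 z z)))))))))))))))))) z)))))) (n 1 (n 0 z z) (n 0 (n 1 (n 1228 z (n 1228 z (n 1228 z (n 1228 z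
 (n 1228 z (n 1228 z z)))))) (n 0 z (n 0 z (n 1 (n 6554411 z (n 6554411 z (n 6554411 z (n
 6554411 z (n 6554411 z (n 6554411 z z)))))) z)))) (n 0 z z)))) (n
 0xcc26d10c32830995884b784add64129e62b4f3819acc04d661029358119d40 (n 0x2b309 (n 153 (n 2 z (n
 0x6ca8a864078a27e48647606e062091d79e8209218e18e18278df7e079a61d8a28617218e28a09607a08df0801 z
 (n 0 z (n 0 z (n 6619675 z (n 6619675 z (n 10 z (n
 0xaca8ca84037e27e486082381f89e81f8e28de8e08607e08228e28617df9217e07607de7e082189f8207e00801 z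
 (n 18 z (n
 0x165454320380ca6ca62038608617e182082075f82086082082081f82082189f86181f6a282085f7e082081f85f8208201001
 z (n 3282443 z (n 5518859 z (n 0 z (n 0 z z)))))))))))))) (n 35 (n 26 z (n 0 z (n 6562131 z (n
 34 z z)))) (n 9 (n 42 z (n 50 z (n 6562131 z z))) (n 3 (n 6632475 z (n 58 z (n 66 z z))) (n 1
 (n 74 z (n 0 z (n 82 z (n 6562131 z (n 6562131 z z))))) (n 0 (n 90 z (n 0 z (n 6619675 z (n
 0xaca886240389f99e75d89d8df9a06668a272165f71e81d81b8a09a196691e85f6de91d6de8607208a07e00801 z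
 (n 6619675 z z))))) z)))))) (n 9 (n 0 (n 0 z (n 0 z (n 767 (n 0 z (n 0 z (n 2 (n 0 z (n 1 z (n
 1 z (n 2 (n 0 z (n 0 z (n 0 z (n 0 z (n 0 z (n 0 z z)))))) (n 2 (n 0 z (n 0 z (n 0 z (n 0 z (n
 0 z (n 0 z z)))))) (n 2 (n 0 z (n 0 z (n 0 z (n 0 z (n 0 z (n 0 z z)))))) (n 2 (n 0 z (n 0 z (n
 0 z (n 0 z (n 0 z (n 0 z z)))))) (n 1 z z)))))))) (n 0 z (n 0 z z))))) (n 767 (n 0 z (n 0 z (n
 0 z (n 2 (n 1 z (n 2 (n 0 z (n 0 z (n 0 z (n 0 z (n 0 z (n 0 z z)))))) (n 1 z (n 2 (n 0 z (n 0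
 z (n 0 z (n 0 z (n 0 z (n 0 z z)))))) (n 2 (n 0 z (n 0 z (n 0 z (n 0 z (n 0 z (n 0 z z)))))) (n
 2 (n 0 z (n 0 z (n 0 z (n 0 z (n 0 z (n 0 z z)))))) (n 2 (n 0 z (n 0 z (n 0 z (n 0 z (n 0 z (n
 0 z z)))))) z))))))) (n 0 z z))))) (n 765 (n 0 z (n 0 z (n 0 z (n 2 (n 0 z (n 1 z (n 1 z (n 2
 (n 0 z (n 0 z (n 0 z (n 0 z (n 0 z (n 0 z z)))))) (n 2 (n 0 z (n 0 z (n 0 z (n 0 z (n 0 z (n 0
 z z)))))) (n 2 (n 0 z (n 0 z (n 0 z (n 0 z (n 0 z (n 0 z z)))))) z)))))) (n 0 z (n 0 z (n 0 z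
 z))))))) (n 765 (n 2 (n 2 (n 0 z (n 0 z (n 0 z (n 0 z (n 0 z (n 0 z z)))))) (n 1 z (n 1 z (n 2
 (n 0 z (n 0 z (n 0 z (n 0 z (n 0 z (n 0 z z)))))) (n 1 z z))))) (n 0 z (n 0 z (n 0 z (n 0 z (n
 0 z (n 0 z z))))))) (n 969 (n 2 (n 0 z (n 2 (n 0 z (n 0 z (n 0 z (n 0 z (n 0 z (n 0 z z))))))
 (n 2 (n 0 z (n 0 z (n 0 z (n 0 z (n 0 z (n 0 z z)))))) (n 2 (n 0 z (n 0 z (n 0 z (n 0 z (n 0 z
 (n 0 z z)))))) z)))) (n 0 z (n 0 z (n 0 z (n 0 z (n 0 z (n 0 z (n 0 z (n 0 z (n 0 z z))))))))))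
 (n 969 (n 0 z (n 0 z (n 0 z (n 2 (n 2 (n 0 z (n 0 z (n 0 z (n 0 z (n 0 z (n 0 z z)))))) (n 2 (n
 0 z (n 0 z (n 0 z (n 0 z (n 0 z (n 0 z z)))))) (n 1 z z))) (n 0 z (n 0 z (n 0 z (n 0 z (n 0 z
 (n 0 z z)))))))))) (n 757 (n 0 z (n 2 (n 0 z (n 1 z z)) (n 0 z (n 0 z z)))) (n 757 (n 0 z (n 0
 z (n 0 z (n 0 z z)))) (n 121 (n 0 z (n 2 z (n 0 z (n 0 z (n 0 z z))))) z))))))))))) (n 0 (n 0 z
 (n 131 (n 0 z (n 0 z (n 0 z (n 0 z z)))) (n 131 (n 0 z (n 0 z (n 0 z (n 0 z z)))) (n 123 (n 0 z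
 (n 0 z (n 0 z (n 0 z (n 0 z (n 0 z (n 0 z z))))))) (n 123 (n 0 z (n 0 z (n 0 z (n 0 z (n 0 z (n
 0 z (n 0 z z))))))) (n 147 (n 0 z (n 0 z (n 0 z z))) (n 147 (n 0 z (n 0 z (n 0 z z))) (n 105 (n
 0 z (n 0 z (n 0 z (n 0 z (n 0 z (n 0 z (n 0 z z))))))) (n 105 (n 0 z (n 0 z (n 0 z (n 0 z (n 0
 z (n 0 z (n 0 z z))))))) (n 121 (n 0 z (n 0 z (n 0 z (n 0 z z)))) z)))))))))) (n 0 (n 127 (n 0
 z (n 0 z (n 0 z (n 0 z (n 0 z (n 0 z (n 0 z (n 0 z (n 0 z (n 0 z (n 0 z (n 0 z (n 0 z (n 0 z (n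
 0 z z))))))))))))))) (n 127 (n 0 z (n 0 z (n 2 (n 1 z (n 1 z (n 1 z (n 1 z (n 2 (n 0 z (n 0 z
 (n 0 z (n 0 z (n 0 z (n 0 z z)))))) (n 1 z (n 1 z z))))))) (n 0 z (n 0 z (n 0 z (n 0 z (n 0 z
 (n 0 z (n 0 z (n 0 z (n 0 z (n 0 z (n 0 z (n 0 z z))))))))))))))) (n 103 (n 2 (n 0 z (n 1 z (n
 2 (n 0 z (n 0 z (n 0 z (n 0 z (n 0 z (n 0 z z)))))) (n 2 (n 0 z (n 0 z (n 0 z (n 0 z (n 0 z (n
 0 z z)))))) (n 2 (n 0 z (n 0 z (n 0 z (n 0 z (n 0 z (n 0 z z)))))) (n 1 z z)))))) (n 0 z (n 0 z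
 (n 0 z (n 0 z (n 0 z (n 0 z z))))))) (n 103 (n 0 z (n 0 z (n 0 z (n 0 z (n 0 z (n 0 z (n 0 z
 z))))))) (n 27 (n 2 (n 0 z (n 2 (n 0 z (n 0 z (n 0 z (n 0 z (n 0 z (n 0 z z)))))) (n 2 (n 0 z
 (n 0 z (n 0 z (n 0 z (n 0 z (n 0 z z)))))) (n 2 (n 0 z (n 0 z (n 0 z (n 0 z (n 0 z (n 0 z
 z)))))) z)))) (n 0 z (n 0 z (n 0 z (n 0 z z))))) (n 27 (n 0 z (n 0 z (n 0 z (n 0 z (n 0 z
 z))))) (n 15 (n 0 z (n 0 z (n 0 z (n 0 z z)))) (n 15 (n 0 z (n 0 z (n 0 z (n 0 z z)))) (n 17 (n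
 0 z (n 0 z (n 0 z (n 0 z (n 0 z (n 0 z (n 0 z (n 0 z (n 0 z z))))))))) z))))))))) (n 0 (n 0 z
 (n 343 (n 0 z (n 0 z (n 2 (n 0 z (n 1 z (n 2 (n 0 z (n 0 z (n 0 z (n 0 z (n 0 z (n 0 z z))))))
 (n 2 (n 0 z (n 0 z (n 0 z (n 0 z (n 0 z (n 0 z z)))))) (n 2 (n 0 z (n 0 z (n 0 z (n 0 z (n 0 z
 (n 0 z z)))))) (n 1 z z)))))) (n 0 z (n 0 z (n 0 z (n 0 z (n 0 z z)))))))) (n 343 (n 0 z (n 0 z
 (n 0 z (n 0 z (n 0 z (n 0 z (n 0 z (n 0 z z)))))))) (n 7 (n 0 z (n 0 z (n 2 (n 0 z (n 2 (n 0 z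
 (n 0 z (n 0 z (n 0 z (n 0 z (n 0 z z)))))) (n 2 (n 0 z (n 0 z (n 0 z (n 0 z (n 0 z (n 0 z
 z)))))) (n 2 (n 0 z (n 0 z (n 0 z (n 0 z (n 0 z (n 0 z z)))))) z)))) (n 0 z z)))) (n 7 (n 0 z
 (n 0 z (n 0 z (n 0 z z)))) (n 255 (n 0 z (n 0 z (n 0 z (n 0 z (n 0 z (n 0 z (n 0 z z))))))) (n
 255 (n 0 z (n 0 z (n 0 z (n 0 z (n 0 z (n 0 z (n 0 z z))))))) (n 341 (n 0 z (n 0 z (n 0 z (n 0
 z (n 0 z (n 0 z z)))))) z)))))))) (n 0 (n 779 (n 0 z (n 0 z (n 0 z (n 0 z (n 0 z (n 0 z (n 0 z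
 (n 0 z z)))))))) (n 779 (n 2 (n 1 z (n 1 z (n 1 z (n 2 (n 0 z (n 0 z (n 0 z (n 0 z (n 0 z (n 0
 z z)))))) (n 1 z z))))) (n 0 z (n 0 z (n 0 z (n 0 z (n 0 z (n 0 z (n 0 z z)))))))) (n 59 (n 0 z
 (n 0 z (n 0 z z))) (n 59 (n 2 (n 2 (n 0 z (n 0 z (n 0 z (n 0 z (n 0 z (n 0 z z)))))) (n 1 z (n
 1 z z))) (n 0 z (n 0 z z))) (n 51 (n 0 z (n 2 (n 0 z (n 1 z z)) (n 0 z (n 0 z (n 0 z (n 0 z (n
 0 z z))))))) (n 51 (n 0 z (n 0 z (n 0 z (n 0 z (n 2 (n 1 z z) (n 0 z (n 0 z z))))))) (n 49 (n 2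
 z (n 0 z (n 0 z (n 0 z (n 0 z z))))) z))))))) (n 0 (n 0 z (n 7 (n 0 z (n 0 z (n 0 z z))) (n 7
 (n 0 z (n 2 (n 2 (n 0 z (n 0 z (n 0 z (n 0 z (n 0 z (n 0 z z)))))) (n 2 (n 0 z (n 0 z (n 0 z (n
 0 z (n 0 z (n 0 z z)))))) (n 1 z z))) (n 0 z z))) (n 15 (n 0 z (n 0 z (n 0 z (n 0 z (n 2 (n 0 z
 (n 1 z z)) (n 0 z (n 0 z z))))))) (n 15 (n 0 z (n 2 (n 1 z z) (n 0 z (n 0 z (n 0 z (n 0 z (n 0
 z z))))))) (n 13 (n 0 z (n 0 z (n 0 z (n 0 z (n 0 z (n 0 z (n 0 z (n 2 z (n 0 z (n 0 z (n 0 z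
 (n 0 z (n 0 z (n 0 z (n 0 z (n 0 z (n 0 z z))))))))))))))))) z)))))) (n 0 (n 535 (n 0 z (n 0 z
 (n 2 (n 0 z (n 2 (n 0 z (n 0 z (n 0 z (n 0 z (n 0 z (n 0 z z)))))) (n 2 (n 0 z (n 0 z (n 0 z (n
 0 z (n 0 z (n 0 z z)))))) (n 1 z z)))) (n 0 z (n 0 z z))))) (n 535 (n 0 z (n 0 z (n 0 z (n 0 z
 (n 0 z z))))) (n 483 (n 0 z (n 0 z (n 0 z (n 0 z (n 0 z (n 0 z (n 0 z (n 0 z z)))))))) (n 483
 (n 0 z (n 0 z (n 0 z (n 0 z (n 0 z (n 0 z (n 0 z (n 0 z z)))))))) (n 481 (n 0 z (n 0 z (n 0 z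
 (n 0 z (n 0 z (n 0 z (n 0 z (n 0 z (n 0 z (n 0 z (n 0 z (n 0 z (n 0 z (n 0 z (n 0 z (n 0 z (n 0
 z (n 0 z z)))))))))))))))))) z))))) (n 0 (n 0 z (n 51 (n 0 z (n 0 z (n 2 (n 0 z (n 1 z z)) (n 0
 z (n 0 z z))))) (n 51 (n 2 (n 1 z z) (n 0 z (n 0 z (n 0 z (n 0 z z))))) (n 49 (n 2 z (n 0 z (n
 0 z (n 0 z (n 0 z (n 0 z (n 0 z z))))))) z)))) (n 0 (n 15 (n 0 z (n 0 z (n 0 z (n 0 z z)))) (n
 15 (n 0 z (n 0 z (n 0 z (n 0 z z)))) (n 13 (n 0 z (n 0 z (n 0 z (n 0 z (n 0 z (n 0 z (n 0 z (n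
 0 z (n 0 z z))))))))) z))) (n 0 (n 0 z (n 25 (n 0 z (n 0 z (n 0 z (n 0 z (n 0 z (n 0 z (n 0 z
 (n 0 z (n 0 z (n 0 z (n 0 z (n 0 z (n 0 z (n 0 z (n 0 z (n 0 z (n 0 z (n 0 z
 z)))))))))))))))))) z)) (n 0 (n 73 (n 0 z (n 0 z (n 0 z (n 0 z (n 0 z (n 0 z (n 0 z (n 0 z (n 0
 z (n 0 z (n 0 z (n 0 z (n 0 z (n 0 z (n 0 z (n 0 z (n 0 z (n 0 z z)))))))))))))))))) z) (n 0 z
 z)))))))))))) (n 0 (n 1 (n 1228 z (n 1228 z (n 5447779 z (n 1228 z (n 6619675 z (n 4400731 z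
 z)))))) (n 1 (n 3280995 z (n 1228 z (n 1228 z (n 2 z (n 1228 z (n 1228 z z)))))) (n 1 (n
 6562131 z (n 6562131 z (n 6562131 z (n 6562131 z (n 6562131 z (n 6562131 z z)))))) z))) (n 0 (n
 0x8f095b8f315a8f3819719d40 (n 0 (n 0 (n 7741699 z (n 7741699 z (n 7741699 z (n 7741699 z (n
 7741699 z (n 7741699 z z)))))) z) (n 0 (n 7 (n 1 (n 7540835 z (n 7540835 z (n 7540835 z (n
 7540835 z (n 7540835 z (n 7540835 z z)))))) (n 1 (n 1228 z (n 1228 z (n 2 z (n 7472459 z (n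
 7681051 z (n 1228 z z)))))) (n 1 (n 7540835 z (n 7540835 z (n 7540835 z (n 7540835 z (n 7540835
 z (n 7540835 z z)))))) (n 1 (n 7610707 z (n 7610707 z (n 7610707 z (n 7610707 z (n 7610707 z (n
 7610707 z z)))))) z)))) (n 35 (n 1 (n 7741699 z (n 7741699 z (n 7741699 z (n 7741699 z (n
 7741699 z (n 7741699 z z)))))) (n 0 z (n 1 (n 7741699 z (n 7741699 z (n 7741699 z (n 7741699 z
 (n 7741699 z (n 7741699 z z)))))) (n 1 (n 7540835 z (n 1468 z (n 6631539 z (n 10 z (n 6567771 z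
 (n 1468 z z)))))) z)))) (n 9 (n 1 (n 7540835 z (n 2380 z (n 6631539 z (n 18 z (n 6567771 z (n
 2380 z z)))))) (n 1 (n 7741699 z (n 7741699 z (n 7741699 z (n 7741699 z (n 7741699 z (n 7741699
 z z)))))) (n 1 (n 7741699 z (n 7741699 z (n 7741699 z (n 7741699 z (n 7741699 z (n 7741699 z
 z)))))) z))) (n 3 (n 1 (n 7540835 z (n 7681051 z (n 7673355 z (n 7681051 z (n 7681051 z (n
 7681051 z z)))))) (n 1 (n 7540835 z (n 3196 z (n 7673355 z (n 26 z (n 3196 z (n 3196 z z))))))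
 (n 1 (n 7741699 z (n 7741699 z (n 7741699 z (n 7741699 z (n 7741699 z (n 7741699 z z)))))) z)))
 (n 519 (n 1 (n 7741699 z (n 7540835 z (n 7540835 z (n 7540835 z (n 7540835 z (n 7540835 z
 z)))))) (n 1 (n 7741699 z (n 3964 z (n 7673355 z (n 3964 z (n 6424395 z (n 3964 z z)))))) (n 1
 (n 7741699 z (n 7540835 z (n 7540835 z (n 7540835 z (n 7540835 z (n 7540835 z z)))))) (n 1 (n
 7741699 z (n 7610707 z (n 7610707 z (n 7610707 z (n 7610707 z (n 7610707 z z)))))) z)))) (n 0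
 (n 1 (n 7741699 z (n 7741699 z (n 7741699 z (n 7741699 z (n 7741699 z (n 7741699 z z)))))) (n 0
 z (n 1 (n 7540835 z (n 7668251 z (n 7668251 z (n 7668251 z (n 7673355 z (n 6562163 z z)))))) (n
 1 (n 7741699 z (n 7741699 z (n 7741699 z (n 7741699 z (n 7741699 z (n 7741699 z z)))))) (n 1 (n
 7540835 z (n 7668251 z (n 7668251 z (n 7673355 z (n 7668251 z (n 7668251 z z)))))) z))))) (n 9
 (n 1 (n 1228 z (n 1228 z (n 5447795 z (n 1228 z (n 7668251 z (n 4400987 z z)))))) (n 1 (n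
 7741699 z (n 7741699 z (n 7741699 z (n 7741699 z (n 7741699 z (n 7741699 z z)))))) (n 1 (n
 7741699 z (n 7741699 z (n 7741699 z (n 7741699 z (n 7741699 z (n 7741699 z z)))))) z)))
 z))))))) (n 0 (n 0 (n 0 z (n 0 z (n 0 z (n 0 z z)))) (n 0 (n 0 z (n 0 z (n 0 z z))) (n 0 (n 0 z
 (n 0 z z)) (n 0 (n 0 z z) z)))) (n 0 (n 183 (n 0 (n 0 z (n 0 z (n 0 z (n 0 z z)))) (n 0 (n 0 z
 (n 0 z (n 0 z (n 0 z z)))) (n 0 (n 0 z (n 0 z (n 0 z (n 0 z z)))) (n 0 (n 0 z (n 0 (n 8868419 z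
 z) (n 0 z (n 0 z z)))) (n 0 (n 0 z (n 0 z (n 0 z (n 0 z z)))) (n 0 (n 0 z (n 0 z (n 0 z (n 0 z
 z)))) (n 0 (n 0 z (n 0 z (n 0 z (n 0 z z)))) (n 0 (n 0 z (n 0 z (n 0 z (n 0 z z)))) (n 0 (n 0 z
 (n 0 z (n 0 z (n 0 z z)))) (n 0 (n 0 z (n 0 z (n 0 z (n 0 z z)))) (n 0 (n 0 z (n 0 z (n 0 z (n
 0 z z)))) (n 0 (n 0 z (n 0 z (n 0 z (n 0 z z)))) (n 0 (n 0 z (n 0 z (n 0 z (n 0 z z)))) (n 0 (n
 0 z (n 0 z (n 0 z (n 0 z z)))) (n 0 (n 0 z (n 0 z (n 0 z (n 0 z z)))) z))))))))))))))) (n 297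
 (n 0 (n 0 z (n 0 z (n 0 z (n 0 z z)))) (n 0 (n 0 z (n 0 z (n 0 z (n 0 z z)))) (n 0 (n 0 z (n 0
 z (n 0 z (n 0 z z)))) (n 0 (n 0 z (n 0 z (n 0 z (n 0 z z)))) (n 0 (n 0 z (n 0 z (n 0 z (n 0 z
 z)))) (n 0 (n 0 z (n 0 z (n 0 z (n 0 z z)))) (n 0 (n 0 z (n 0 z (n 0 z (n 0 z z)))) z))))))) (n
 291 (n 0 (n 0 z (n 0 z (n 0 z (n 0 z z)))) (n 0 (n 0 z (n 0 z (n 0 z (n 0 z z)))) (n 0 (n 0 z
 (n 0 z (n 0 z (n 0 z z)))) (n 0 (n 0 z (n 0 z (n 0 z (n 0 z z)))) (n 0 (n 0 z (n 0 z (n 0 z (n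
 0 z z)))) (n 0 (n 0 z (n 0 z (n 0 z (n 0 z z)))) (n 0 (n 0 z (n 0 z (n 0 z (n 0 z z)))) (n 0 (n
 0 z (n 0 z (n 0 z (n 0 z z)))) z)))))))) (n 399 (n 0 (n 0 z (n 0 z (n 0 z (n 0 z z)))) (n 0 (n
 0 z (n 0 z (n 0 z (n 0 z z)))) (n 0 (n 0 z (n 0 z (n 0 z (n 0 z z)))) (n 0 (n 0 z (n 0 z (n 0 z
 (n 0 z z)))) (n 0 (n 0 z (n 0 z (n 0 z (n 0 z z)))) z))))) (n 57 (n 0 (n 0 z (n 0 z (n 0 z (n 0
 z z)))) (n 0 (n 0 z (n 0 z (n 0 z (n 0 z z)))) (n 0 (n 0 z (n 0 z (n 0 z (n 0 z z)))) (n 0 (n 0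
 z (n 0 z (n 0 z (n 0 z z)))) z)))) (n 387 (n 0 (n 0 z (n 0 z (n 0 z (n 0 z z)))) (n 0 (n 0 z (n
 0 z (n 0 z (n 0 z z)))) (n 0 (n 0 z (n 0 z (n 0 z (n 0 z z)))) (n 0 (n 0 z (n 0 (n 8589411 z (n
 8589411 z z)) (n 0 z (n 0 z z)))) (n 0 (n 0 z (n 0 z (n 0 z (n 0 z z)))) z))))) (n 519 (n 0 (n
 0 z (n 0 z (n 0 z (n 0 z z)))) (n 0 (n 0 z (n 0 z (n 0 z (n 0 z z)))) (n 0 (n 0 z (n 0 z (n 0 z
 (n 0 z z)))) (n 0 (n 0 z (n 0 z (n 0 z (n 0 z z)))) z)))) (n 495 (n 0 (n 0 z (n 0 z (n 0 z (n 0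
 z z)))) (n 0 (n 0 z (n 0 z (n 0 z (n 0 z z)))) (n 0 (n 0 z (n 0 z (n 0 z (n 0 z z)))) (n 0 (n 0
 z (n 0 z (n 0 z (n 0 z z)))) (n 0 (n 0 z (n 0 z (n 0 z (n 0 z z)))) (n 0 (n 0 z (n 0 z (n 0 z
 (n 0 z z)))) (n 0 (n 0 z (n 0 z (n 0 z (n 0 z z)))) z))))))) (n 483 (n 0 (n 0 z (n 0 z (n 0 z
 (n 0 z z)))) (n 0 (n 0 z (n 0 z (n 0 z (n 0 z z)))) (n 0 (n 0 z (n 0 z (n 0 z (n 0 z z)))) (n 0
 (n 0 z (n 0 z (n 0 z (n 0 z z)))) (n 0 (n 0 z (n 0 z (n 0 z (n 0 z z)))) (n 0 (n 0 z (n 0 z (n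
 0 z (n 0 z z)))) (n 0 (n 0 z (n 0 z (n 0 z (n 0 z z)))) (n 0 (n 0 z (n 0 z (n 0 z (n 0 z z))))
 z)))))))) (n 13 (n 0 (n 0 z (n 0 z (n 0 z (n 0 z z)))) (n 0 (n 0 z (n 0 z (n 0 z (n 0 z z))))
 (n 0 (n 0 z (n 0 z (n 0 z (n 0 z z)))) (n 0 (n 0 z (n 0 z (n 0 z (n 0 z z)))) z)))) (n 641 (n 0
 (n 0 z (n 0 z (n 0 z (n 0 z z)))) (n 0 (n 0 z (n 0 z (n 0 z (n 0 z z)))) (n 0 (n 0 z (n 0 z (n
 0 z (n 0 z z)))) (n 0 (n 0 z (n 0 z (n 0 z (n 0 z z)))) (n 0 (n 0 z (n 0 z (n 0 z (n 0 z z))))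
 (n 0 (n 0 z (n 0 z (n 0 z (n 0 z z)))) (n 0 (n 0 z (n 0 z (n 0 z (n 0 z z)))) (n 0 (n 0 z (n 0
 z (n 0 z (n 0 z z)))) (n 0 (n 0 z (n 0 z (n 0 z (n 0 z z)))) z))))))))) (n 677 (n 0 (n 0 z (n 0
 z (n 0 z (n 0 z z)))) (n 0 (n 0 z (n 0 z (n 0 z (n 0 z z)))) (n 0 (n 0 z (n 0 z (n 0 z (n 0 z
 z)))) (n 0 (n 0 z (n 0 z (n 0 z (n 0 z z)))) (n 0 (n 0 z (n 0 z (n 0 z (n 0 z z)))) (n 0 (n 0 z
 (n 0 z (n 0 z (n 0 z z)))) z)))))) (n 603 (n 0 (n 0 z (n 0 z (n 0 z (n 0 z z)))) (n 0 (n 0 z (n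
 0 z (n 0 z (n 0 z z)))) (n 0 (n 0 z (n 0 z (n 0 z (n 0 z z)))) (n 0 (n 0 z (n 0 z (n 0 z (n 0 z
 z)))) (n 0 (n 0 z (n 0 z (n 0 z (n 0 z z)))) (n 0 (n 0 z (n 0 z (n 0 z (n 0 z z)))) (n 0 (n 0 z
 (n 0 z (n 0 z (n 0 z z)))) (n 0 (n 0 z (n 0 z (n 0 z (n 0 z z)))) (n 0 (n 0 z (n 0 z (n 0 z (n
 0 z z)))) (n 0 (n 0 z (n 0 z (n 0 z (n 0 z z)))) (n 0 (n 0 z (n 0 z (n 0 z (n 0 z z)))) (n 0 (n
 0 z (n 0 (n 8868419 z (n 8868419 z z)) (n 0 z (n 0 z z)))) (n 0 (n 0 z (n 0 z (n 0 z (n 0 z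
 z)))) (n 0 (n 0 z (n 0 z (n 0 z (n 0 z z)))) (n 0 (n 0 z (n 0 z (n 0 z (n 0 z z)))) (n 0 (n 0 z
 (n 0 z (n 0 z (n 0 z z)))) (n 0 (n 0 z (n 0 z (n 0 z (n 0 z z)))) (n 0 (n 0 z (n 0 z (n 0 z (n
 0 z z)))) z)))))))))))))))))) (n 19 (n 0 (n 0 z (n 0 z (n 0 z (n 0 z z)))) (n 0 (n 0 z (n 0 z
 (n 0 z (n 0 z z)))) (n 0 (n 0 z (n 0 z (n 0 z (n 0 z z)))) (n 0 (n 0 z (n 0 z (n 0 z (n 0 z
 z)))) (n 0 (n 0 z (n 0 z (n 0 z (n 0 z z)))) (n 0 (n 0 z (n 0 z (n 0 z (n 0 z z)))) (n 0 (n 0 z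
 (n 0 z (n 0 z (n 0 z z)))) (n 0 (n 0 z (n 0 z (n 0 z (n 0 z z)))) (n 0 (n 0 z (n 0 z (n 0 z (n
 0 z z)))) z))))))))) (n 18 (n 0 (n 0 z (n 0 z (n 0 z (n 0 z z)))) (n 0 (n 0 z (n 0 z (n 0 z (n
 0 z z)))) (n 0 (n 0 z (n 0 (n 8867891 z z) (n 0 z (n 0 z z)))) (n 0 (n 0 z (n 0 z (n 0 z (n 0 z
 z)))) (n 0 (n 0 z (n 0 (n 8872715 z z) (n 0 z (n 0 z z)))) (n 0 (n 0 z (n 0 z (n 0 z (n 0 z
 z)))) (n 0 (n 0 z (n 0 z (n 0 z (n 0 z z)))) (n 0 (n 0 z (n 0 z (n 0 z (n 0 z z)))) (n 0 (n 0 z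
 (n 0 (n 8728691 z (n 8716827 z z)) (n 0 z (n 0 z z)))) (n 0 (n 0 z (n 0 z (n 0 z (n 0 z z))))
 (n 0 (n 0 z (n 0 z (n 0 z (n 0 z z)))) (n 0 (n 0 z (n 0 z (n 0 z (n 0 z z)))) (n 0 (n 0 z (n 0
 z (n 0 z (n 0 z z)))) (n 0 (n 0 z (n 0 z (n 0 z (n 0 z z)))) (n 0 (n 0 z (n 0 z (n 0 z (n 0 z
 z)))) (n 0 (n 0 z (n 0 z (n 0 z (n 0 z z)))) (n 0 (n 0 z (n 0 z (n 0 z (n 0 z z)))) (n 0 (n 0 z
 (n 0 z (n 0 z (n 0 z z)))) z)))))))))))))))))) (n 153 (n 0 (n 0 z (n 0 z (n 0 z (n 0 z z)))) (n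
 0 (n 0 z (n 0 z (n 0 z (n 0 z z)))) (n 0 (n 0 z (n 0 z (n 0 z (n 0 z z)))) (n 0 (n 0 z (n 0 z
 (n 0 z (n 0 z z)))) (n 0 (n 0 z (n 0 z (n 0 z (n 0 z z)))) (n 0 (n 0 z (n 0 z (n 0 z (n 0 z
 z)))) (n 0 (n 0 z (n 0 z (n 0 z (n 0 z z)))) (n 0 (n 0 z (n 0 z (n 0 z (n 0 z z)))) (n 0 (n 0 z
 (n 0 z (n 0 z (n 0 z z)))) (n 0 (n 0 z (n 0 z (n 0 z (n 0 z z)))) (n 0 (n 0 z (n 0 z (n 0 z (n
 0 z z)))) (n 0 (n 0 z (n 0 z (n 0 z (n 0 z z)))) (n 0 (n 0 z (n 0 z (n 0 z (n 0 z z)))) (n 0 (n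
 0 z (n 0 z (n 0 z (n 0 z z)))) z)))))))))))))) (n 35 (n 0 (n 0 z (n 0 z (n 0 z (n 0 z z)))) (n
 0 (n 0 z (n 0 z (n 0 z (n 0 z z)))) (n 0 (n 0 z (n 0 z (n 0 z (n 0 z z)))) (n 0 (n 0 z (n 0 z
 (n 0 z (n 0 z z)))) z)))) (n 9 (n 0 (n 0 z (n 0 z (n 0 z (n 0 z z)))) (n 0 (n 0 z (n 0 z (n 0 z
 (n 0 z z)))) (n 0 (n 0 z (n 0 z (n 0 z (n 0 z z)))) z))) (n 3 (n 0 (n 0 z (n 0 z (n 0 z (n 0 z
 z)))) (n 0 (n 0 z (n 0 z (n 0 z (n 0 z z)))) (n 0 (n 0 z (n 0 z (n 0 z (n 0 z z)))) z))) (n 1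
 (n 0 (n 0 z (n 0 z (n 0 z (n 0 z z)))) (n 0 (n 0 z (n 0 z (n 0 z (n 0 z z)))) (n 0 (n 0 z (n 0
 z (n 0 z (n 0 z z)))) (n 0 (n 0 z (n 0 z (n 0 z (n 0 z z)))) (n 0 (n 0 z (n 0 z (n 0 z (n 0 z
 z)))) z))))) (n 0 (n 0 (n 0 z (n 0 z (n 0 z (n 0 z z)))) (n 0 (n 0 z (n 0 z (n 0 z (n 0 z z))))
 (n 0 (n 0 z (n 0 z (n 0 z (n 0 z z)))) (n 0 (n 0 z (n 0 z (n 0 z (n 0 z z)))) (n 0 (n 0 z (n 0
 z (n 0 z (n 0 z z)))) z))))) z))))))))))))))))))))) z)))) z) z)))) (n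
 0x1b3968d5474692bb0495c984adcd0569c42c534819 (n 0 (n 153 (n 0 z (n 3282443 z z)) (n 57 (n 0 z
 (n 2 z (n 0 z (n 6496515 z (n 6562131 z z))))) (n 51 (n 10 z (n 6496515 z (n 18 z (n
 0x6ca4a2080775f89b79e8608238a576381e89f82481f72081c89f8dc96172285e6a09dd8df8a179f7de75f0801 z
 (n 0 z (n 6496515 z (n 6562131 z z))))))) (n 123 (n 6496515 z (n 26 z z)) (n 1 (n 0 z (n 34 z
 (n 0 z (n 6562131 z (n 0 z z))))) (n 0 (n 0 z (n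
 0xaca886240779a79e9229218db92685f8216de8d786289f85d6e28a66e49a07dd96172185d75f79e8a39620801 z
 (n 0 z (n
 0x2c62081c8647e17a17a186279f7e076281f8218227de8217a385f66375e8217a57df81e81e82175d0041 z (n 0 z
 (n 0 z (n 0 z (n 42 z (n 6619675 z (n 0 z (n 50 z (n 58 z z)))))))))))) z)))))) (n 153 (n 0 (n
 747 (n 0 z (n 0 z (n 0 z (n 0 z (n 0 z (n 0 z (n 0 z z))))))) (n 747 (n 0 z (n 0 z (n 0 z (n 0
 z (n 0 z (n 0 z (n 0 z z))))))) (n 55 (n 0 z (n 0 z (n 0 z (n 0 z (n 0 z z))))) (n 111 (n 0 z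
 (n 0 z (n 0 z (n 0 z z)))) (n 109 (n 0 z (n 0 z (n 0 z (n 0 z (n 0 z (n 0 z (n 0 z (n 0 z
 z)))))))) (n 109 (n 0 z (n 0 z (n 0 z (n 0 z (n 0 z (n 2 (n 0 z z) (n 0 z (n 0 z z)))))))) (n
 109 (n 0 z (n 0 z (n 0 z (n 0 z (n 0 z (n 0 z (n 0 z (n 7677499 z z)))))))) z))))))) (n 0 (n 0
 z (n 267 (n 0 z (n 0 z (n 0 z (n 0 z (n 0 z z))))) (n 99 (n 0 z (n 0 z (n 0 z (n 0 z (n 0 z
 z))))) (n 97 (n 0 z (n 0 z (n 0 z (n 0 z (n 0 z (n 0 z (n 0 z (n 0 z (n 0 z (n 0 z (n 0 z (n 0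
 z (n 2 (n 0 z (n 0 z z)) (n 0 z z)))))))))))))) (n 97 (n 0 z (n 0 z (n 0 z (n 0 z (n 0 z (n 0 z
 (n 0 z (n 0 z (n 0 z (n 0 z (n 0 z (n 0 z (n 0 z (n 2 (n 0 z z) z)))))))))))))) (n 97 (n 0 z (n
 0 z (n 0 z (n 0 z (n 0 z (n 0 z (n 0 z (n 0 z (n 0 z (n 0 z (n 0 z (n 0 z (n 0 z (n 0 z
 z)))))))))))))) z)))))) (n 0 (n 267 (n 0 z (n 0 z (n 0 z (n 0 z (n 0 z z))))) (n 99 (n 0 z (n 0
 z (n 0 z (n 0 z (n 0 z z))))) (n 97 (n 0 z (n 0 z (n 0 z (n 0 z (n 0 z (n 0 z (n 0 z (n 0 z (n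
 0 z z))))))))) (n 97 (n 0 z (n 0 z (n 0 z (n 0 z (n 0 z (n 0 z (n 0 z (n 0 z (n 0 z z)))))))))
 (n 97 (n 0 z (n 0 z (n 0 z (n 0 z (n 0 z (n 0 z (n 0 z (n 0 z (n 2 z z))))))))) z))))) (n 0 (n
 51 (n 0 z (n 0 z (n 0 z (n 0 z (n 0 z z))))) (n 49 (n 0 z (n 0 z (n 0 z (n 0 z (n 0 z (n 0 z (n
 0 z (n 0 z (n 0 z (n 0 z (n 0 z (n 0 z (n 0 z (n 0 z (n 0 z (n 0 z (n 0 z (n 0 z (n 0 z (n 0 z
 (n 0 z (n 0 z z)))))))))))))))))))))) (n 49 (n 0 z (n 0 z (n 0 z (n 0 z (n 0 z (n 0 z (n 0 z (n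
 0 z (n 0 z (n 0 z (n 0 z (n 0 z (n 0 z (n 0 z (n 0 z (n 0 z (n 0 z (n 0 z (n 0 z (n 2 (n 0 z z)
 (n 0 z (n 0 z z)))))))))))))))))))))) (n 49 (n 0 z (n 0 z (n 0 z (n 0 z (n 0 z (n 0 z (n 0 z (n
 0 z (n 0 z (n 0 z (n 0 z (n 0 z (n 0 z (n 0 z (n 0 z (n 0 z (n 0 z (n 0 z (n 0 z (n 0 z (n 0 z
 (n 7677499 z z)))))))))))))))))))))) z)))) (n 0 (n 1 (n 0 z (n 0 z (n 0 z (n 0 z (n 0 z (n 0 z
 (n 0 z (n 0 z (n 0 z (n 0 z (n 0 z (n 0 z (n 0 z (n 0 z (n 0 z (n 0 z (n 0 z z)))))))))))))))))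
 (n 1 (n 0 z (n 0 z (n 0 z (n 0 z (n 0 z (n 0 z (n 0 z (n 0 z (n 0 z (n 0 z (n 0 z (n 0 z (n 0 z
 (n 0 z (n 0 z (n 0 z (n 0 z z))))))))))))))))) (n 1 (n 0 z (n 0 z (n 0 z (n 0 z (n 0 z (n 0 z
 (n 0 z (n 0 z (n 0 z (n 0 z (n 0 z (n 0 z (n 0 z (n 0 z (n 0 z (n 0 z (n 7677499 z
 z))))))))))))))))) z))) (n 0 (n 0 z (n 0 z z)) (n 0 (n 0 z z) (n 0 z z)))))))) (n 0 (n 0 z (n 1
 (n 3282443 z (n 6496515 z (n 3282443 z (n 3282443 z (n 3282443 z (n 3282443 z z)))))) z)) (n 0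
 z z)))) (n 0x6112638092dc4094610f285308b8882595842e2240 (n 0 (n 467 (n 6561875 z (n 2 z z)) (n
 33 (n 0 z (n 0 z (n 0 z (n 0 z (n 0 z (n 0 z (n 0 z (n 0 z (n 0 z (n 0 z (n 10 z (n 18 z (n 26
 z (n 3278363 z z)))))))))))))) (n 129 (n 34 z (n 0 z (n 6566419 z (n 42 z (n 6561875 z (n
 6566419 z z)))))) (n 3 (n 6566419 z (n 0 z (n 0 z (n 0 z (n 0 z (n 50 z z)))))) (n 1 (n 0 z (n
 0 z (n 0 z (n 58 z (n 6566419 z (n 0 z (n 6566419 z z))))))) (n 0 (n 0 z (n 6632459 z z))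
 z)))))) (n 467 (n 0 (n 923 (n 0 z (n 0 z (n 0 z (n 0 z (n 0 z (n 0 z (n 0 z (n 2 (n 0 z (n 0 z
 (n 1 z (n 1 z (n 1 z (n 1 z z)))))) z)))))))) (n 923 (n 0 z (n 0 z (n 0 z (n 0 z (n 0 z (n 0 z
 (n 0 z (n 0 z z)))))))) (n 923 (n 0 z (n 0 z (n 0 z (n 7476747 z (n 0 z (n 0 z (n 0 z (n 0 z
 z)))))))) (n 259 (n 0 z (n 0 z (n 0 z (n 0 z (n 0 z (n 0 z (n 0 z (n 0 z z)))))))) (n 259 (n 0
 z (n 0 z (n 0 z (n 0 z (n 0 z (n 0 z (n 0 z (n 0 z z)))))))) (n 11 (n 0 z (n 0 z (n 0 z (n 0 z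
 z)))) (n 3 (n 0 z (n 0 z (n 0 z (n 0 z (n 0 z (n 0 z (n 0 z (n 0 z (n 0 z (n 0 z z))))))))))
 z))))))) (n 0 (n 0 z (n 0 z (n 933 (n 0 z (n 0 z (n 0 z (n 0 z (n 0 z (n 2 (n 0 z (n 1 z (n 1 z
 z))) z)))))) (n 933 (n 0 z (n 0 z (n 0 z (n 0 z (n 0 z (n 0 z z)))))) (n 1017 (n 0 z (n 0 z (n
 0 z (n 0 z (n 0 z (n 0 z (n 0 z (n 0 z (n 0 z (n 0 z (n 0 z (n 0 z (n 0 z (n 0 z (n 0 z
 z))))))))))))))) (n 925 (n 2 z (n 0 z (n 0 z (n 0 z z)))) z)))))) (n 0 (n 0 z (n 927 (n 0 z (n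
 0 z (n 0 z (n 2 (n 0 z (n 1 z (n 1 z z))) (n 0 z (n 0 z z)))))) (n 927 (n 0 z (n 0 z (n 0 z (n
 0 z (n 0 z (n 0 z z)))))) (n 7 (n 0 z (n 0 z (n 0 z (n 0 z (n 0 z (n 0 z (n 0 z (n 0 z (n 0 z
 z))))))))) (n 243 (n 0 z (n 0 z (n 0 z (n 0 z (n 0 z (n 0 z (n 0 z z))))))) z))))) (n 0 (n 411
 (n 0 z (n 0 z (n 0 z (n 0 z (n 0 z (n 0 z z)))))) (n 411 (n 0 z (n 0 z (n 2 (n 1 z (n 1 z z))
 (n 0 z (n 0 z (n 0 z z)))))) (n 387 (n 0 z (n 0 z (n 6428427 z (n 0 z z)))) (n 51 (n 0 z (n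
 6428427 z (n 0 z (n 0 z z)))) z)))) (n 0 (n 0 z (n 267 (n 0 z (n 0 z (n 0 z (n 0 z z)))) (n 857
 (n 0 z (n 0 z (n 0 z (n 0 z (n 0 z (n 0 z (n 0 z z))))))) z))) (n 0 (n 247 (n 0 z (n 0 z (n 0 z
 z))) (n 531 (n 0 z (n 0 z (n 0 z (n 0 z (n 0 z (n 0 z (n 0 z (n 0 z z)))))))) z)) (n 0 (n 723
 (n 0 z (n 0 z (n 0 z (n 0 z z)))) z) (n 0 z z)))))))) (n 0 (n 1 (n 6561875 z (n 6561875 z (n
 6561875 z (n 6561875 z (n 6561875 z (n 6561875 z z)))))) (n 1 (n 4 z (n 268 z (n 268 z (n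
 6632459 z (n 268 z (n 268 z z)))))) z)) (n 0 z z)))) z)))))))))), by decide +kernel⟩
theorem i10242 : ∃ t, chkR KT RW t 10242 10251 = true := ⟨(n
 0x1464d81972311931a0c97930d26a025278269a8c12d4640 (n 0x1a8c9 (n 165 (n 2 z (n 6492195 z z)) (n
 251 (n 10 z (n 0 z (n 0 z (n 6492195 z (n 0 z (n 0 z (n 0 z z))))))) (n 9 (n
 0x2ca8a8060781807f8181807f7f8180807e807f81807f80827e8180807f8180827f808080808081817f817f8180807f81808080817f7f810809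
 z (n
 0x2ca8a8060781817f818180807e817f7f7e807f81807f80827e8280807f8180827f808080807f81807f817f8180807f81818080817f7f810809
 z (n 0 z (n
 0x6ca8a80607828080828181807e7f7f807e8080807f8080827e807f7f80817e8081827e7f817e827e7f817d817f817e81817e7f818081800809
 z (n 18 z (n
 0x2ca8a80607827e7f8280807e8080818080808080807f8081808080808080808080808080808080808080808080808180818080808080800809
 z (n 26 z (n 5441067 z (n 3212843 z (n 0 z (n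
 0x8329b28201c99951500c0642ca8820607589f537c6e7d6c7ba0aaa19885617f3d8f88937a9271974fa7a8896c619081759a65bb846f7364906ba67180868a87b45c7c1809
 z (n
 0x2ca8a82607827e7f8280807e8080818080808080807f8081808080808080808080808080808080808080808080808180818080808080800809
 z (n 0 z (n
 0x2ca8ca86037e827d808082827c807f808080808080808081808081808080808080808081808080808080808080808080818080808080810809
 z (n
 0x2ca8a806037f8180818280807e807f827e8080817f7f81827e8081807f807e807f82807f8080827e808081817e827e81817f81818083800809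
 z (n 34 z (n
 0xca8ca260381807f818181807f81808080807f80807f7f81808080808080818080808080807f80808080808180808080807f80808080800809
 z (n 0 z (n
 0x2ca6ca280380837d817c817e7e848180817f7e7f7c7f84837d81807e7d81867d807e807e7d81808380837f7e817e867c81807f80877f7e0809
 z (n 0 z z)))))))))))))))))))) (n 125 (n 42 z (n 6492195 z (n 0 z (n 0 z z)))) (n 1 (n 50 z (n
 58 z (n 2164299 z (n 0 z z)))) (n 0 (n 66 z (n 0 z (n 0 z (n 0 z (n 0 z (n 0 z (n 2164315 z (n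
 0 z z)))))))) z)))))) (n 165 (n 0 (n 587 (n 0 z (n 0 z (n 0 z (n 0 z (n 0 z (n 0 z (n 0 z (n 0
 z z)))))))) (n 283 (n 0 z (n 0 z (n 0 z (n 0 z (n 0 z (n 0 z (n 0 z (n 0 z (n 2 (n 0 z (n 0 z
 (n 1 z (n 1 z (n 1 z (n 1 z z)))))) (n 0 z (n 0 z (n 0 z (n 0 z (n 0 z (n 0 z (n 0 z (n 0 z (n
 0 z (n 0 z (n 0 z z)))))))))))))))))))) (n 283 (n 0 z (n 0 z (n 0 z (n 0 z (n 0 z (n 0 z (n 0 z
 (n 0 z (n 0 z (n 0 z (n 0 z (n 0 z (n 0 z (n 0 z (n 0 z (n 0 z (n 0 z (n 0 z (n 0 z (n 0 z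
 z)))))))))))))))))))) (n 283 (n 0 z (n 0 z (n 0 z (n 0 z (n 2 (n 1 z (n 1 z (n 1 z (n 1 z z))))
 (n 0 z (n 0 z (n 0 z (n 0 z (n 0 z (n 0 z (n 0 z (n 0 z (n 0 z (n 0 z (n 0 z (n 0 z (n 0 z (n 0
 z (n 0 z z)))))))))))))))))))) (n 279 (n 0 z (n 0 z (n 0 z z))) (n 249 (n 0 z (n 0 z (n 0 z (n
 0 z z)))) (n 249 (n 0 z (n 0 z (n 0 z (n 0 z z)))) (n 241 (n 0 z (n 0 z (n 0 z (n 0 z (n 0 z (n
 0 z (n 0 z (n 0 z z)))))))) z)))))))) (n 0 (n 275 (n 0 z (n 0 z (n 0 z (n 0 z (n 0 z (n 0 z (n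
 0 z (n 0 z (n 0 z (n 0 z (n 0 z (n 0 z (n 0 z (n 0 z (n 0 z (n 2 (n 0 z (n 0 z (n 1 z (n 1 z (n
 1 z (n 1 z z)))))) (n 0 z (n 0 z (n 0 z (n 0 z z)))))))))))))))))))) (n 275 (n 0 z (n 0 z (n 0
 z (n 0 z (n 0 z (n 0 z (n 0 z (n 0 z (n 0 z (n 0 z (n 0 z (n 0 z (n 0 z (n 0 z (n 0 z (n 0 z (n
 0 z (n 0 z (n 0 z (n 0 z z)))))))))))))))))))) (n 275 (n 0 z (n 0 z (n 0 z (n 0 z (n 0 z (n 0 z
 (n 0 z (n 0 z (n 2 (n 1 z (n 1 z (n 1 z (n 1 z z)))) (n 0 z (n 0 z (n 0 z (n 0 z (n 0 z (n 0 z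
 (n 0 z (n 0 z (n 0 z (n 0 z (n 0 z z)))))))))))))))))))) (n 267 (n 0 z (n 0 z (n 0 z z))) (n 3
 (n 0 z (n 0 z (n 0 z (n 0 z (n 0 z (n 0 z (n 0 z (n 0 z (n 0 z (n 0 z (n 0 z (n 0 z (n 0 z (n 0
 z (n 0 z (n 0 z (n 0 z (n 0 z (n 0 z (n 0 z (n 0 z (n 0 z (n 0 z (n 0 z (n 0 z (n 0 z (n 0 z (n
 0 z z)))))))))))))))))))))))))))) (n 3 (n 0 z (n 0 z (n 0 z (n 0 z (n 0 z (n 0 z (n 0 z (n 0 z
 (n 0 z (n 0 z (n 0 z (n 0 z (n 0 z (n 0 z (n 0 z (n 0 z (n 0 z (n 0 z (n 0 z (n 0 z (n 0 z (n 0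
 z (n 0 z (n 0 z (n 0 z (n 0 z (n 0 z (n 0 z z)))))))))))))))))))))))))))) (n 1 (n 0 z (n 0 z (n
 0 z (n 0 z z)))) z))))))) (n 0 (n 0 z (n 0 z (n 251 (n 0 z (n 0 z (n
 0x6ea6ca48037f81808080837e7f7e80837e8080837c8080837c827e817f817e7f827f7e81827f837f7f7f7e807f7f7e808180807f80817f0809
 z (n 2 (n 1 z (n 1 z (n 1 z z))) (n 0 z (n 0 z (n 0 z (n 0 z (n 0 z (n 0 z (n 0 z (n 0 z (n 0 z
 (n 0 z (n 0 z (n 0 z (n 0 z (n 0 z (n 0 z (n 0 z (n 0 z (n 0 z (n 0 z (n 0 z (n 0 z (n 0 z (n 0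
 z (n 0 z z)))))))))))))))))))))))))))) (n 249 (n 0 z (n 2 (n 0 z (n 1 z z)) (n 0 z (n 0 z z))))
 (n 249 (n 2 (n 1 z z) (n 0 z (n 0 z (n 0 z z)))) (n 13 (n 2 z (n 0 z (n 0 z z))) z)))))) (n 0
 (n 0 z (n 487 (n 0 z (n 0 z (n 0 z (n 0 z (n 0 z (n 0 z (n 0 z (n 0 z (n 0 z (n 0 z (n 0 z (n 0
 z (n 0 z (n 0 z (n 0 z (n 0 z (n 0 z (n 0 z (n 0 z (n 0 z (n 0 z (n 0 z (n 0 z
 z))))))))))))))))))))))) (n 297 (n 0 z (n 0 z (n 0 z (n 0 z (n 0 z (n 0 z (n 0 z (n 0 z (n 0 z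
 (n 0 z (n 0 z (n 0 z (n 0 z (n 0 z (n 0 z (n 0 z (n 0 z (n 0 z (n 0 z (n 0 z (n 0 z (n 0 z (n 0
 z z))))))))))))))))))))))) (n 297 (n 0 z (n 0 z (n 0 z (n 0 z (n 0 z (n 0 z (n 0 z (n 0 z (n 0
 z (n 0 z (n 0 z (n 0 z (n 0 z (n 0 z (n 0 z (n 0 z (n 0 z (n 0 z (n 0 z (n 0 z (n 0 z (n 0 z (n
 0 z z))))))))))))))))))))))) (n 1 (n 0 z (n 0 z (n 0 z (n 0 z (n 0 z (n 0 z (n 0 z (n 0 z (n 0
 z (n 0 z (n 0 z (n 0 z (n 0 z (n 0 z (n 0 z (n 0 z (n 0 z (n 0 z (n 0 z (n 0 z (n 0 z (n 0 z (n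
 0 z z))))))))))))))))))))))) z))))) (n 0 (n 7 (n 0 z (n 0 z (n 2 (n 1 z (n 1 z (n 1 z z))) (n 0
 z (n 0 z (n 0 z (n 0 z (n 0 z z)))))))) (n 15 (n 2 (n 0 z (n 1 z z)) (n 0 z (n 0 z z))) (n 15
 (n 0 z (n 0 z (n 0 z z))) (n 1 (n 2 z (n 0 z (n 0 z (n 0 z z)))) z)))) (n 0 (n 255 (n 0 z (n 0
 z (n 0 z (n 0 z (n 0 z (n 0 z (n 0 z (n 0 z (n 0 z (n 0 z (n 0 z (n 0 z (n 0 z (n 0 z (n 0 z (n
 0 z (n 0 z (n 0 z (n 0 z (n 0 z (n 0 z (n 0 z (n 0 z (n 0 z (n 0 z (n 0 z (n 0 z (n 0 z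
 z)))))))))))))))))))))))))))) (n 255 (n 0 z (n 0 z (n 0 z (n 0 z (n 0 z (n 0 z (n 0 z (n 0 z (n
 0 z (n 0 z (n 0 z (n 0 z (n
 0xaec4ec0a07817e7f807e80817f85807e81818080827d80827f82837e7d7e8380817c7e818080857f817f83817f817e83807f807c8180800809
 z (n
 0x6ec4ec0a078082807e7e81808083807e808082817f7f80817e81817f7f7f8080807f80808080827f807e828080817f80808280808180800809
 z (n 0 z (n 0 z (n 0 z (n 0 z (n 0 z (n 0 z (n 0 z (n 0 z (n 0 z (n 0 z (n 0 z (n 0 z (n 0 z (n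
 0 z z)))))))))))))))))))))))))))) (n 13 (n 0 z (n 0 z (n 0 z (n 0 z (n 0 z (n 0 z (n 0 z (n 0 z
 (n 0 z z))))))))) z))) (n 0 (n 0 z (n 25 (n 0 z (n 0 z (n 0 z (n 0 z (n 0 z (n 0 z (n 0 z (n 0
 z (n 0 z (n 0 z (n 0 z (n 0 z (n 0 z (n 0 z (n 0 z (n 0 z (n 0 z (n 0 z (n 0 z (n 0 z (n 0 z (n
 0 z (n 0 z (n 0 z (n 0 z (n 0 z z)))))))))))))))))))))))))) z)) (n 0 (n 1 (n 0 z (n 0 z (n 0 z
 (n 0 z (n 0 z (n 0 z (n 0 z (n 0 z (n 0 z (n 0 z (n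
 0xcec6ec620780817e808082817e83817e81817c807e8182848183817f7f818182827f7e82817e8381837f84807f7f7e7f7f807f7f7f80800809
 z (n 0 z (n 0 z (n 0 z (n 0 z (n 0 z (n 0 z (n 0 z (n 0 z (n 0 z (n 0 z (n
 0xaec6ec6207807f7f827e81807f80817f81817d807d81808280867e808080808280807f81837f8481847d838086807f81807f808181807f0809
 z (n 0 z (n 0 z (n 0 z (n 0 z (n 0 z (n 0 z (n 0 z z))))))))))))))))))))))))))))) z) (n 0 z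
 z))))))))) (n 0 (n 1 (n 2 z (n 2012 z (n 2012 z (n 2012 z (n 2012 z (n 2012 z z)))))) (n 1 (n
 6492195 z (n 6492195 z (n 6492195 z (n 6492195 z (n 6492195 z (n 6492195 z z)))))) z)) (n 0 (n
 0x49e09a5930d2 (n 0 (n 0 (n 7741707 z (n 7741707 z (n 7741707 z (n 7741707 z (n 7741707 z (n
 7741707 z z)))))) z) (n 0 (n 165 (n 1 (n 7738667 z (n 7738667 z (n 7738667 z (n 7738667 z (n
 7738667 z (n 7738667 z z)))))) (n 1 (n 7540771 z (n 7540771 z (n 7540771 z (n 7540771 z (n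
 7540771 z (n 7540771 z z)))))) z)) (n 133 (n 1 (n 7540771 z (n 7540771 z (n 7540771 z (n
 7540771 z (n 7540771 z (n 7540771 z z)))))) (n 1 (n 2396 z (n 2396 z (n 2396 z (n 2396 z (n
 2396 z (n 2396 z z)))))) (n 1 (n 7540771 z (n 7540771 z (n 7540771 z (n 7540771 z (n 7540771 z
 (n 7540771 z z)))))) z))) (n 165 (n 1 (n 2060 z (n 2060 z (n 7741707 z (n 2060 z (n 2060 z (n
 2060 z z)))))) (n 1 (n 2060 z (n 2060 z (n 7741707 z (n 2060 z (n 2060 z (n 2060 z z)))))) (n 0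
 z (n 1 (n
 0x2ea8a806037f8180818280807e807f827e8080817f7f81827e8081807f807e807f82807f8080827e808081817e827e81817f81818083800809
 z (n 5310267 z (n 7741707 z (n 2060 z (n 2060 z (n 2060 z z)))))) (n 1 (n 2060 z (n 2 z (n
 7741707 z (n 2060 z (n 2060 z (n 2060 z z)))))) (n 1 (n 2060 z (n 2060 z (n 6358859 z (n
 7741707 z (n 2060 z (n 2060 z z)))))) (n 1 (n 7741707 z (n 4396811 z (n 4396811 z (n 4396811 z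
 (n 4396811 z (n 4396811 z z)))))) (n 1 (n 6620955 z (n 7741707 z (n
 0x2ea8ca86037f8180818280807e807f827e8080817f7f81827e8081807f807e807f82807f8080827e808081817e827e81817f81818083800809
 z (n 3213147 z (n 2060 z (n 2060 z z)))))) (n 1 (n 2060 z (n 6623347 z (n 10 z (n 2060 z (n
 2060 z (n 2060 z z)))))) (n 0 z (n 1 (n 7741707 z (n 2060 z (n 2060 z (n 2060 z (n 2060 z (n
 2060 z z)))))) (n 1 (n 2060 z (n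
 0x2ea8ca8607827e7f8280807e8080818080808080807f8081808080808080808080808080808080808080808080808180818080808080800809
 z (n 2060 z (n 6557811 z (n 2060 z (n 2060 z z)))))) (n 0 z (n 1 (n 2060 z (n 6620971 z (n 2060
 z (n 7741707 z (n 2060 z (n 2060 z z)))))) (n 1 (n 7741707 z (n 5441323 z (n 6633259 z (n
 6633259 z (n 6633259 z (n 6633259 z z)))))) (n 1 (n 4396843 z (n 7741707 z (n 4396843 z (n
 4396843 z (n 4396843 z (n 4396843 z z)))))) (n 1 (n 2060 z (n 4392747 z (n 5310283 z (n 7741707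
 z (n 2060 z (n 2060 z z)))))) (n 0 z (n 1 (n 2060 z (n 7741707 z (n 2060 z (n
 0x2ea8a80607827e7f8280807e8080818080808080807f8081808080808080808080808080808080808080808080808180818080808080800809
 z (n 2060 z (n 2060 z z)))))) (n 0 z z)))))))))))))))))))) (n 189 (n 1 (n 7540771 z (n 7540771
 z (n 7540771 z (n 7540771 z (n 7540771 z (n 7540771 z z)))))) (n 0 z (n 1 (n 7540771 z (n
 7540771 z (n 7540771 z (n 7540771 z (n 7540771 z (n 7540771 z z)))))) z))) (n 203 (n 1 (n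
 7540771 z (n 7540771 z (n 7540771 z (n 7540771 z (n 7540771 z (n 7540771 z z)))))) (n 1 (n 652
 z (n 7741707 z (n 652 z (n 1068 z (n 652 z (n 652 z z)))))) (n 1 (n 3282763 z (n 3282763 z (n
 2164555 z (n 7741707 z (n 3282763 z (n 3282763 z z)))))) (n 0 z z)))) (n 105 (n 1 (n 1804 z (n
 1804 z (n 7741707 z (n 1804 z (n 1804 z (n 1804 z z)))))) (n 1 (n 7540771 z (n 7540771 z (n
 7540771 z (n 7540771 z (n 7540771 z (n 7540771 z z)))))) (n 1 (n 3278683 z (n 2164571 z (n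
 3278683 z (n 7741707 z (n 3278683 z (n 3278683 z z)))))) (n 0 z z)))) (n 165 (n 1 (n 7741707 z
 (n 7738667 z (n 7738667 z (n 7738667 z (n 7738667 z (n 7738667 z z)))))) (n 1 (n 7540771 z (n
 7540771 z (n 7540771 z (n 7540771 z (n 7540771 z (n 7540771 z z)))))) z)) z))))))) (n 0 (n 0 (n
 0 z (n 0 z z)) (n 0 (n 0 z z) z)) (n 0 (n 299 (n 0 (n 0 z (n 0 z z)) (n 0 (n 0 z (n 0 z z)) (n
 0 (n 0 z (n 0 z z)) (n 0 (n 0 z (n 0 z z)) (n 0 (n 0 z (n 0 z z)) (n 0 (n 0 z (n 0 z z)) (n 0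
 (n 0 z (n 0 z z)) (n 0 (n 0 z (n 0 z z)) z)))))))) (n 165 (n 0 (n 0 z (n 0 z z)) (n 0 (n 0 z (n
 0 z z)) (n 0 (n 0 z (n 0 z z)) (n 0 (n 0 z (n 0 z z)) (n 0 (n 0 z (n 0 z z)) (n 0 (n 0 z (n 0 z
 z)) (n 0 (n 0 z (n 0 z z)) (n 0 (n 0 z (n 0 z z)) (n 0 (n 0 z (n 0 z z)) (n 0 (n 0 z (n 0 z z))
 (n 0 (n 0 z (n 0 z z)) (n 0 (n 0 z (n 0 z z)) (n 0 (n 0 z (n 0 z z)) (n 0 (n 0 z (n 0 z z)) (n
 0 (n 0 z (n 0 z z)) (n 0 (n 0 z (n 0 z z)) (n 0 (n 0 z (n 0 z z)) (n 0 (n 0 z (n 0 z z)) (n 0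
 (n 0 z (n 0 z z)) (n 0 (n 0 z (n 0 z z)) z)))))))))))))))))))) (n 257 (n 0 (n 0 z (n 0 z z)) (n
 0 (n 0 z (n 0 z z)) (n 0 (n 0 z (n 0 z z)) (n 0 (n 0 z (n 0 z z)) (n 0 (n 0 z (n 0 z z)) (n 0
 (n 0 z (n 0 z z)) (n 0 (n 0 z (n 0 z z)) (n 0 (n 0 z (n 0 z z)) (n 0 (n 0 z (n 0 z z)) (n 0 (n
 0 z (n 0 z z)) (n 0 (n 0 z (n 0 z z)) (n 0 (n 0 z (n 0 z z)) (n 0 (n 0 z (n 0 z z)) (n 0 (n 0 z
 (n 0 z z)) (n 0 (n 0 z (n 0 z z)) (n 0 (n 0 z (n 0 z z)) (n 0 (n 0 z (n 0 z z)) (n 0 (n 0 z (n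
 0 z z)) (n 0 (n 0 z (n 0 z z)) (n 0 (n 0 z (n 0 z z)) z)))))))))))))))))))) (n 189 (n 0 (n 0 z
 (n 0 z z)) (n 0 (n 0 z (n 0 z z)) (n 0 (n 0 z (n 0 z z)) z))) (n 375 (n 0 (n 0 z (n 0 z z)) (n
 0 (n 0 z (n 0 z z)) (n 0 (n 0 z (n 0 z z)) z))) (n 363 (n 0 (n 0 z (n 0 z z)) (n 0 (n 0 z (n 0
 z z)) (n 0 (n 0 z (n 0 z z)) (n 0 (n 0 z (n 0 z z)) (n 0 (n 0 z (n 0 z z)) (n 0 (n 0 z (n 0 z
 z)) (n 0 (n 0 z (n 0 z z)) (n 0 (n 0 z (n 0 z z)) (n 0 (n 0 z (n 0 z z)) (n 0 (n 0 z (n 0 z z))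
 (n 0 (n 0 z (n 0 z z)) (n 0 (n 0 z (n 0 z z)) (n 0 (n 0 z (n 0 z z)) (n 0 (n 0 z (n 0 z z)) (n
 0 (n 0 z (n 0 z z)) (n 0 (n 0 z (n 0 z z)) (n 0 (n 0 z (n 0 z z)) (n 0 (n 0 z (n 0 z z)) (n 0
 (n 0 z (n 0 z z)) (n 0 (n 0 z (n 0 z z)) (n 0 (n 0 z (n 0 z z)) (n 0 (n 0 z (n 0 z z)) (n 0 (n
 0 z (n 0 z z)) z))))))))))))))))))))))) (n 203 (n 0 (n 0 z (n 0 z z)) (n 0 (n 0 z (n 0 z z)) (n
 0 (n 0 z (n 0 z z)) (n 0 (n 0 z (n 0 z z)) z)))) (n 81 (n 0 (n 0 z (n 0 z z)) (n 0 (n 0 z (n 0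
 z z)) (n 0 (n 0 z (n 0 z z)) (n 0 (n 0 z (n 0 z z)) (n 0 (n 0 z (n 0 z z)) (n 0 (n 0 z (n 0 z
 z)) (n 0 (n 0 z (n 0 z z)) (n 0 (n 0 z (n 0 z z)) (n 0 (n 0 z (n 0 z z)) (n 0 (n 0 z (n 0 z z))
 (n 0 (n 0 z (n 0 z z)) (n 0 (n 0 z (n 0 z z)) (n 0 (n 0 z (n 0 z z)) (n 0 (n 0 z (n 0 z z)) (n
 0 (n 0 z (n 0 z z)) (n 0 (n 0 z (n 0 z z)) (n 0 (n 0 z (n 0 z z)) (n 0 (n 0 z (n 0 z z)) (n 0
 (n 0 z (n 0 z z)) (n 0 (n 0 z (n 0 z z)) (n 0 (n 0 z (n 0 z z)) (n 0 (n 0 z (n 0 z z)) (n 0 (n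
 0 z (n 0 z z)) (n 0 (n 0 z (n 0 z z)) (n 0 (n 0 z (n 0 z z)) (n 0 (n 0 z (n 0 z z)) (n 0 (n 0 z
 (n 0 z z)) (n 0 (n 0 z (n 0 z z)) z)))))))))))))))))))))))))))) (n 197 (n 0 (n 0 z (n 0 z z))
 (n 0 (n 0 z (n 0 z z)) (n 0 (n 0 z (n 0 z z)) (n 0 (n 0 z (n 0 z z)) (n 0 (n 0 z (n 0 z z)) (n
 0 (n 0 z (n 0 z z)) (n 0 (n 0 z (n 0 z z)) (n 0 (n 0 z (n 0 z z)) (n 0 (n 0 z (n 0 z z)) (n 0
 (n 0 z (n 0 z z)) (n 0 (n 0 z (n 0 z z)) (n 0 (n 0 z (n 0 z z)) (n 0 (n 0 z (n 0 z z)) (n 0 (n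
 0 z (n 0 z z)) (n 0 (n 0 z (n 0 z z)) (n 0 (n 0 z (n 0 z z)) (n 0 (n 0 z (n 0 z z)) (n 0 (n 0 z
 (n 0 z z)) (n 0 (n 0 z (n 0 z z)) (n 0 (n 0 z (n 0 z z)) (n 0 (n 0 z (n 0 z z)) (n 0 (n 0 z (n
 0 z z)) (n 0 (n 0 z (n 0 z z)) z))))))))))))))))))))))) (n 133 (n 0 (n 0 z (n 0 z z)) (n 0 (n 0
 z (n 0 z z)) (n 0 (n 0 z (n 0 z z)) (n 0 (n 0 z (n 0 z z)) (n 0 (n 0 z (n 0 z z)) (n 0 (n 0 z
 (n 0 z z)) (n 0 (n 0 z (n 0 z z)) (n 0 (n 0 z (n 0 z z)) (n 0 (n 0 z (n 0 z z)) (n 0 (n 0 z (n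
 0 z z)) (n 0 (n 0 z (n 0 z z)) (n 0 (n 0 z (n 0 z z)) (n 0 (n 0 z (n 0 z z)) (n 0 (n 0 z (n 0 z
 z)) (n 0 (n 0 z (n 0 z z)) (n 0 (n 0 z (n 0 z z)) (n 0 (n 0 z (n 0 z z)) (n 0 (n 0 z (n 0 z z))
 (n 0 (n 0 z (n 0 z z)) (n 0 (n 0 z (n 0 z z)) (n 0 (n 0 z (n 0 z z)) (n 0 (n 0 z (n 0 z z)) (n
 0 (n 0 z (n 0 z z)) (n 0 (n 0 z (n 0 z z)) (n 0 (n 0 z (n 0 z z)) (n 0 (n 0 z (n 0 z z)) (n 0
 (n 0 z (n 0 z z)) (n 0 (n 0 z (n 0 z z)) z)))))))))))))))))))))))))))) (n 225 (n 0 (n 0 z (n 0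
 z z)) (n 0 (n 0 z (n 0 z z)) (n 0 (n 0 z (n 0 z z)) (n 0 (n 0 z (n 0 z z)) (n 0 (n 0 z (n 0 z
 z)) (n 0 (n 0 z (n 0 z z)) (n 0 (n 0 z (n 0 z z)) (n 0 (n 0 z (n 0 z z)) z)))))))) (n 105 (n 0
 (n 0 z (n 0 z z)) (n 0 (n 0 z (n 0 z z)) (n 0 (n 0 z (n 0 z z)) (n 0 (n 0 z (n 0 z z)) z)))) (n
 21 (n 0 (n 0 z (n 0 z z)) (n 0 (n 0 z (n 0 z z)) (n 0 (n 0 z (n 0 z z)) (n 0 (n 0 z (n 0 z z))
 (n 0 (n 0 z (n 0 z z)) (n 0 (n 0 z (n 0 z z)) (n 0 (n 0 z (n 0 z z)) (n 0 (n 0 z (n 0 z z)) (n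
 0 (n 0 z (n 0 z z)) (n 0 (n 0 z (n 0 z z)) (n 0 (n 0 z (n 0 z z)) (n 0 (n 0 z (n 0 z z)) (n 0
 (n 0 z (n 0 z z)) (n 0 (n 0 z (n 0 z z)) (n 0 (n 0 z (n 0 z z)) (n 0 (n 0 z (n 0 z z)) (n 0 (n
 0 z (n 0 z z)) (n 0 (n 0 z (n 0 z z)) (n 0 (n 0 z (n 0 z z)) (n 0 (n 0 z (n 0 z z)) (n 0 (n 0 z
 (n 0 z z)) (n 0 (n 0 z (n 0 z z)) (n 0 (n 0 z (n 0 z z)) z))))))))))))))))))))))) (n 19 (n 0 (n
 0 z (n 0 z z)) (n 0 (n 0 z (n 0 z z)) (n 0 (n 0 z (n 0 z z)) (n 0 (n 0 z (n 0 z z)) (n 0 (n 0 z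
 (n 0 z z)) (n 0 (n 0 z (n 0 z z)) (n 0 (n 0 z (n 0 z z)) (n 0 (n 0 z (n 0 z z)) (n 0 (n 0 z (n
 0 z z)) z))))))))) (n 18 (n 0 (n 0 z (n 0 z z)) (n 0 (n 0 z (n 0 z z)) (n 0 (n 0 z (n 0 z z))
 (n 0 (n 0 z (n 0 z z)) (n 0 (n 0 z (n 0 z z)) (n 0 (n 0 z (n 0 z z)) (n 0 (n 0 z (n 0 z z)) (n
 0 (n 0 z (n 0 z z)) (n 0 (n 0 z (n 0 z z)) (n 0 (n 0 z (n 0 z z)) (n 0 (n 0 z (n 0 z z)) (n 0
 (n 0 z (n 0 z z)) (n 0 (n 0 z (n 0 z z)) (n 0 (n 0 z (n 0 z z)) (n 0 (n 0 z (n 0 z z)) (n 0 (n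
 0 z (n 0 z z)) (n 0 (n 0 z (n 0 z z)) (n 0 (n 0 z (n 0 z z)) (n 0 (n 0 z (n 0 z z)) (n 0 (n 0 z
 (n 0 z z)) (n 0 (n 0 z (n 0 z z)) (n 0 (n 0 z (n 0 z z)) (n 0 (n 0 z (n 0 z z)) (n 0 (n 0 z (n
 0 z z)) (n 0 (n 0 z (n 0 z z)) (n 0 (n 0 z (n 0 z z)) z)))))))))))))))))))))))))) (n 165 (n 0
 (n 0 z (n 0 z z)) (n 0 (n 0 z (n 0 z z)) z)) (n 251 (n 0 (n 0 z (n 0 z z)) (n 0 (n 0 z (n 0 z
 z)) (n 0 (n 0 z (n 0 z z)) (n 0 (n 0 z (n 0 z z)) (n 0 (n 0 z (n 0 z z)) (n 0 (n 0 z (n 0 z z))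
 (n 0 (n 0 z (n 0 z z)) z))))))) (n 9 (n 0 (n 0 z (n 0 z z)) (n 0 (n 0 z (n 0 z z)) (n 0 (n 0 z
 (n 0 z z)) (n 0 (n 0 z (n 0 z z)) (n 0 (n 0 z (n 0 z z)) (n 0 (n 0 z (n 0 z z)) (n 0 (n 0 z (n
 0 z z)) (n 0 (n 0 z (n 0 z z)) (n 0 (n 0 z (n 0 z z)) (n 0 (n 0 z (n 0 z z)) (n 0 (n 0 z (n 0 z
 z)) (n 0 (n 0 z (n 0 z z)) (n 0 (n 0 z (n 0 z z)) (n 0 (n 0 z (n 0 z z)) (n 0 (n 0 z (n 0 z z))
 (n 0 (n 0 z (n 0 z z)) (n 0 (n 0 z (n 0 z z)) (n 0 (n 0 z (n 0 z z)) (n 0 (n 0 z (n 0 z z)) (n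
 0 (n 0 z (n 0 z z)) z)))))))))))))))))))) (n 125 (n 0 (n 0 z (n 0 z z)) (n 0 (n 0 z (n 0 z z))
 (n 0 (n 0 z (n 0 z z)) (n 0 (n 0 z (n 0 z z)) z)))) (n 1 (n 0 (n 0 z (n 0 z z)) (n 0 (n 0 z (n
 0 z z)) (n 0 (n 0 z (n 0 z z)) (n 0 (n 0 z (n 0 z z)) z)))) (n 0 (n 0 (n 0 z (n 0 z z)) (n 0 (n
 0 z (n 0 z z)) (n 0 (n 0 z (n 0 z z)) (n 0 (n 0 z (n 0 z z)) (n 0 (n 0 z (n 0 z z)) (n 0 (n 0 z
 (n 0 z z)) (n 0 (n 0 z (n 0 z z)) (n 0 (n 0 z (n 0 z z)) z)))))))) z))))))))))))))))))))) z))))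
 z) z)))) (n 0x5265489328509932a0c9152044b4500894c0 (n 0 (n 155 (n 0 z (n 2 z (n 0 z (n 3282443
 z (n 10 z z))))) (n 375 (n 18 z (n 0 z (n 6496515 z (n 0 z z)))) (n 51 (n 26 z (n 6496515 z z))
 (n 245 (n 0 z (n 6496515 z (n 34 z z))) (n 1 (n 42 z (n 2164299 z (n 0 z (n 0 z z)))) (n 0 (n
 50 z (n 2164315 z (n 0 z z))) z)))))) (n 51 (n 0 (n 0 z (n 127 (n 2 (n 1 z (n 1 z (n 1 z (n 1 z
 z)))) (n 0 z (n 0 z (n 0 z (n 0 z (n 0 z (n 0 z (n 0 z (n 0 z (n 0 z (n 0 z (n 0 z (n 0 z (n 0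
 z (n 0 z (n 0 z z)))))))))))))))) (n 747 (n 0 z (n 2 (n 1 z (n 1 z (n 1 z z))) (n 0 z z))) (n
 539 (n 0 z (n 2 (n 1 z (n 1 z z)) (n 0 z z))) (n 537 (n 0 z (n 2 (n 1 z z) (n 0 z (n 0 z z))))
 (n 745 (n 0 z (n 0 z (n 2 z (n 0 z (n 0 z (n 0 z (n 0 z (n 0 z (n 0 z z))))))))) z)))))) (n 0
 (n 91 (n 2 (n 1 z (n 1 z (n 1 z (n 1 z z)))) (n 0 z (n 0 z (n 0 z (n 0 z z))))) (n 867 (n 2 (n
 1 z (n 1 z (n 1 z z))) (n 0 z (n 0 z z))) (n 87 (n 0 z (n 2 (n 1 z (n 1 z z)) z)) (n 85 (n 0 z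
 (n 2 (n 1 z z) (n 0 z z))) (n 481 (n 2 z (n 0 z (n 0 z z))) z))))) (n 0 (n 747 (n 0 z (n 0 z (n
 0 z z))) (n 441 (n 0 z (n 0 z (n 0 z (n 0 z z)))) (n 63 (n 0 z (n 0 z z)) (n 749 (n 0 z (n 0 z
 z)) z)))) (n 0 (n 681 (n 0 z (n 0 z (n 0 z z))) (n 99 (n 0 z (n 0 z (n 0 z (n 0 z (n 0 z z)))))
 (n 101 (n 0 z (n 0 z (n 0 z z))) z))) (n 0 (n 489 (n 0 z (n 0 z (n 0 z (n 0 z (n 0 z (n 0 z (n
 0 z (n 0 z (n 0 z z))))))))) (n 49 (n 0 z (n 0 z (n 0 z (n 0 z (n 0 z (n 0 z (n 0 z (n 0 z (n 0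
 z (n 0 z (n 0 z (n 0 z (n 0 z (n 0 z (n 0 z (n 0 z z)))))))))))))))) z)) (n 0 (n 1 (n 0 z (n 0
 z z)) z) (n 0 z z))))))) (n 0 (n 1 (n 1244 z (n 1244 z (n 1244 z (n 1244 z (n 1244 z (n 1244 z
 z)))))) (n 1 (n 6496515 z (n 6496515 z (n 6496515 z (n 6496515 z (n 6496515 z (n 6496515 z
 z)))))) z)) (n 0 z z)))) (n 0x4851a0a855 (n 0 (n 207 (n 0 z (n
 0x1232080536418038047fc8018037f47fb8027f98088007fa8057fb8157fc7f380b8048038087f880880b7f38037fb8027f38037fe7fa80880c80c8057f680a8018047e580b7f67f68037f98088087ec8120091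
 z (n 0 z (n 0 z (n 3282443 z (n 0 z (n 0 z z))))))) (n 33 (n 6631715 z (n 0 z (n 0 z (n 0 z
 z)))) (n 135 (n 3212843 z (n 0 z (n 0 z (n 0 z z)))) (n 3 (n 0 z (n 0 z (n 0 z (n 0 z (n 0 z (n
 0 z (n 6631715 z z))))))) (n 25 (n 0 z (n 0 z (n 0 z (n 0 z (n 0 z (n 0 z (n 0 z (n 2164299 z
 z)))))))) (n 0 (n 2 z (n
 0x42310804c6207ef8107ff80b7d48197fa7d780880e80e81d7f77d87eb7f183d7f47fe7ee83180d80c7c380c7fb7f082b80c7e580b7e87ee7e180a8158688147e58047ce81d80a8017f17d07f57f38327d30091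
 z (n 6631715 z (n
 0x91951084c0e01200684216a81b7d580d80f80b8327de82f7c17ce8147f97f181e7bd8208167ce7d77f680481d7e47fa83e8158348388007d483681a7f77c379c7e38057ec80d7da8827a482184981e81b7b97bc8587d11011
 z (n
 0x5c654421303815b2a108181c07190d904806072c86c8040380080c8247f37bc8357947cd84f8537f47a082080d86b7f579883382b8b576b7f87c17da84776c87a7a18088827677e97fa8878cf75b74773086384b82c82f71b77e7ee93e89679a7e981f2011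
 z (n
 0x4b6308058017fa7ff80b7ef8018128078047f77ed80e80b81b8007ea80b80b7f77e07f48028257f07ff7fc7e67fd8107f480c8038248058027cd8018138048088007f67ed80b80c81d8087d381f0051
 z (n 10 z (n
 0x2632080846407ef8107ff80b7d48197fa7d780880e80e81d7f77d87eb7f183d7f47fe7ee83180d80c7c380c7fb7f082b80c7e580b7e87ee7e180a8158688147e58047ce81d80a8017f17d07f57f38327d30091
 z (n
 0x1e320806c6307f280d7ff8097dd8147fc7e080780b80b8177f97df7ef7f48317f67fe7f282780b80a7d080a7fc7f382280a7ea8097ed7f27e78088108548107ea8037d88178078017f47d97f77f68287dc0091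
 z (n 6631715 z z)))))))))) z)))))) (n 33 (n 0 (n 0 z z) (n 0 z z)) (n 0 (n 1 (n 6631715 z (n
 6631715 z (n 6631715 z (n 6631715 z (n 6631715 z (n 6631715 z z)))))) (n 0 z (n 0 z (n 0 z
 z)))) (n 0 z z)))) (n 0x1b4aa8d12942509b044a49a0512874015308134480 (n 0 (n 401 (n 0 z (n
 6561875 z (n 2 z (n 10 z (n 6561875 z (n
 0xeca8a8240761285b9e17a091bba771c75c7247a191dad985265376795d7e98227e07627a08e19dc81d9210801 z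
 (n 0 z (n 0 z (n 18 z z))))))))) (n 33 (n 0 z (n 0 z (n 0 z (n 3278363 z (n 0 z (n 0 z z))))))
 (n 171 (n 0 z (n 0 z (n 26 z (n 0 z (n 0 z (n 0 z (n 6561875 z z))))))) (n 3 (n 0 z (n 0 z (n
 2164283 z (n 0 z (n 0 z (n 0 z (n 0 z z))))))) (n 1 (n 0 z (n 34 z (n 0 z (n 0 z (n 6561875 z
 z))))) (n 0 (n 42 z (n 0 z (n 0 z (n 50 z (n 2164315 z (n 58 z z)))))) z)))))) (n 1 (n 0 (n 0 z
 (n 0 z (n 795 (n 0 z (n 0 z (n 0 z (n 0 z (n 0 z (n 0 z (n 0 z z))))))) (n 339 (n 0 z (n 0 z (n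
 0 z (n 0 z (n 0 z (n 0 z (n 0 z (n 0 z (n 0 z (n 0 z (n 0 z (n 0 z (n 0 z (n 0 z (n 0 z
 z))))))))))))))) (n 337 (n 0 z (n 0 z (n 0 z (n 0 z (n 0 z (n 0 z (n 0 z z))))))) (n 337 (n 0 z
 (n 0 z (n 0 z (n 0 z (n 0 z (n 0 z (n 0 z z))))))) (n 337 (n 0 z (n 0 z (n 0 z (n 0 z (n 0 z (n
 7754307 z (n 0 z z))))))) z))))))) (n 0 (n 0 z (n 775 (n 0 z (n 0 z (n 0 z (n 0 z (n 0 z (n 0 z
 (n 0 z (n 0 z (n 6620987 z (n 0 z (n 0 z (n 0 z (n 0 z (n 0 z (n 0 z (n 0 z (n 0 z (n 0 z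
 z)))))))))))))))))) (n 105 (n 0 z (n 0 z (n 0 z (n 0 z (n 6620987 z (n
 0x2ea8ca64078208208618208208607e182181f8208207e082082082082082081f8208208208208208208200801 z
 (n 0 z (n 0 z (n 0 z (n 0 z (n 0 z (n 0 z (n 0 z (n 0 z (n 0 z (n 0 z (n 0 z (n 0 z
 z)))))))))))))))))) (n 253 (n 0 z (n 0 z (n 0 z (n 0 z (n 7745555 z (n 0 z (n 0 z (n 0 z (n 0 z
 (n 0 z (n 0 z (n 0 z (n 0 z (n 0 z (n 0 z (n 0 z (n 0 z (n 0 z z)))))))))))))))))) (n 253 (n 0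
 z (n 0 z (n 0 z (n 0 z (n 0 z (n 0 z (n 0 z (n 0 z (n 0 z (n 0 z (n 0 z (n 0 z (n 0 z (n 0 z (n
 2 (n 0 z z) (n 0 z (n 0 z (n 0 z z)))))))))))))))))) (n 253 (n 0 z (n 0 z (n 0 z (n 0 z (n 0 z
 (n 0 z (n 0 z (n 0 z (n 0 z (n 0 z (n 0 z (n 0 z (n 0 z (n 0 z (n 0 z (n 2 z (n 0 z (n 0 z
 z)))))))))))))))))) z)))))) (n 0 (n 727 (n 0 z (n 0 z (n 0 z (n 0 z (n 0 z (n 0 z (n 0 z (n 0 z
 (n 0 z z))))))))) (n 729 (n 0 z (n 0 z (n 0 z (n 0 z z)))) (n 773 (n 0 z (n 2 (n 0 z (n 0 z z))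
 (n 0 z (n 0 z (n 0 z (n 0 z (n 0 z (n 0 z z)))))))) (n 773 (n 2 (n 0 z z) (n 0 z (n 0 z (n 0 z
 (n 0 z (n 0 z (n 0 z (n 0 z z)))))))) (n 773 (n 0 z (n 0 z (n 0 z (n 0 z (n 0 z (n 0 z (n 0 z
 (n 0 z z)))))))) z))))) (n 0 (n 339 (n 0 z (n 0 z (n 0 z (n 0 z (n 0 z z))))) (n 337 (n 0 z (n
 2 (n 0 z (n 0 z z)) (n 0 z (n 0 z (n 0 z (n 0 z (n 0 z (n 0 z (n 0 z z))))))))) (n 337 (n 0 z
 (n 0 z (n 0 z (n 0 z (n 0 z (n 0 z (n 0 z (n 0 z (n 0 z z))))))))) (n 337 (n 0 z (n 0 z (n 0 z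
 (n 0 z (n 0 z (n 0 z (n 0 z (n 0 z (n 7754307 z z))))))))) z)))) (n 0 (n 1 (n 0 z (n 0 z (n 0 z
 (n 0 z (n 0 z (n 0 z (n 0 z (n 0 z (n 0 z (n 0 z (n 0 z (n 0 z (n 0 z (n 0 z (n 0 z (n 0 z (n 0
 z (n 0 z (n 0 z (n 0 z (n 0 z z))))))))))))))))))))) (n 1 (n 0 z (n 0 z (n 0 z (n 0 z (n 0 z (n
 0 z (n 0 z (n 0 z (n 0 z (n 0 z (n 0 z (n 0 z (n 0 z (n 0 z (n 0 z (n 0 z (n 0 z (n 0 z (n 0 z
 (n 0 z (n 0 z z))))))))))))))))))))) (n 1 (n 0 z (n 0 z (n 0 z (n 0 z (n 0 z (n 0 z (n 0 z (n 0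
 z (n 0 z (n 0 z (n 0 z (n 0 z (n 0 z (n 0 z (n 0 z (n 0 z (n 0 z (n 0 z (n 0 z (n 0 z (n
 7669307 z z))))))))))))))))))))) z))) (n 0 (n 0 z (n 0 z z)) (n 0 (n 0 z z) (n 0 z z)))))))) (n
 0 (n 0 z (n 1 (n 3212 z (n 5506619 z (n 3212 z (n 5517411 z (n 3212 z (n 268 z z)))))) (n 0 z
 (n 0 z (n 1 (n 6561875 z (n 6561875 z (n 6561875 z (n 6561875 z (n 6561875 z (n 6561875 z
 z)))))) z))))) (n 0 z z)))) (n 0x8192648092cb22658d132918256330869703323209 (n 0 (n 477 (n 0 z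
 (n 3282443 z (n 0 z (n 0 z (n 0 z (n 0 z (n 0 z z))))))) (n 475 (n 2 z (n 4392475 z (n 3278363
 z (n 10 z (n 18 z z))))) (n 476 (n 0 z (n
 0x265365040384ca4a608078df8607de8638a07a181c81f8218a17e182086186379f85f8207e08dc7e08a085d7e27e079f1001
 z (n 26 z (n 4392491 z (n 6566419 z (n 0 z (n 0 z (n
 0x4ca4a608038208607e082086081f86086082082181f82082182082082082082081f81f8208208208208200801 z
 (n 0 z (n 0 z (n 0 z (n 0 z (n 0 z (n 0 z (n 0 z (n 0 z (n 0 z (n 0 z (n 0 z (n 0 z (n 0 z (n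
 6566419 z (n 0 z (n
 0x2ca4a2080381f8208208208217e086086082082082082082082082082082082082085f89f8208208208200801 z
 (n 0 z (n 0 z (n 0 z (n
 0x2ca4a2080381f82082081f8208208208208208208208208208208208228208208208208208208208208200801 z
 (n 0 z (n 34 z (n 42 z (n 0 z z)))))))))))))))))))))))))))))))) (n 3 (n 6566419 z (n 50 z (n 0
 z z))) (n 1 (n 6566419 z (n
 0x465453020188ca8a204037e399b71d8e181e7dd7e37a492079f79c82075f8a281d81f8db8e06e58a07e476479f8a18661001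
 z (n
 0x1aca8a624039996ee86d8d68dba9e566a0a82d85ab267de9a289479b6616b171c91ea9e51db9aa0e6d89d20801 z
 (n 0 z (n 6566419 z (n
 0x1565082086182085f82081f7e082182182082082081f8617e08607a07df82085f86082082082181f0041 z (n 0 z
 (n 6566419 z (n 58 z (n 0 z (n 6566419 z (n 0 z (n 0 z (n
 0x6ca4ca40077e299e8a092279e71e7de7de7e07e27e18238a089e86089a81f91f7e182079f7e182192281f0801 z
 (n 6566419 z z))))))))))))))) (n 0 (n 2164315 z (n 0 z (n 0 z (n 0 z (n 0 z z))))) z)))))) (n 3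
 (n 0 (n 0 z (n 0 z (n 933 (n 0 z (n 0 z (n 0 z (n 0 z (n 0 z (n 0 z (n 0 z z))))))) (n 933 (n 0
 z (n 0 z (n 0 z (n 0 z (n 0 z (n 2 (n 0 z (n 1 z (n 1 z z))) (n 0 z z))))))) (n 933 (n 0 z (n 0
 z (n 0 z (n 0 z (n 0 z (n 0 z (n 2 (n 1 z (n 1 z z)) z))))))) (n 247 (n 0 z (n 0 z (n 0 z (n 0
 z (n 0 z (n 0 z (n 0 z (n 0 z (n 0 z (n 0 z (n 0 z (n 0 z (n 0 z (n 0 z (n 0 z (n 0 z (n 0 z (n
 0 z (n 0 z (n 0 z (n 0 z (n 0 z (n 0 z (n 0 z (n 0 z (n 0 z (n 0 z (n 0 z (n 0 z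
 z))))))))))))))))))))))))))))) (n 243 (n 0 z (n 0 z (n 0 z (n 0 z (n 0 z (n 0 z (n 0 z (n 0 z
 z)))))))) z))))))) (n 0 (n 0 z (n 411 (n 7749939 z (n 0 z (n 0 z (n 0 z (n 0 z (n 0 z (n 0 z
 z))))))) (n 411 (n 0 z (n 0 z (n 0 z (n 0 z (n 0 z (n
 0xecaeca00782186082089f8207de8608208207df86086082086082086282085f7df8207e18208208207df0801 z (n
 2 (n 0 z (n 1 z (n 1 z z))) z))))))) (n 411 (n 0 z (n 0 z (n 0 z (n 0 z (n 0 z (n 0 z (n 0 z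
 z))))))) (n 55 (n 0 z (n 6428427 z (n 0 z z))) (n 51 (n 0 z (n 0 z (n 7749939 z (n 0 z z))))
 z)))))) (n 0 (n 953 (n 0 z (n 0 z (n 0 z (n 0 z (n 0 z (n 0 z z)))))) (n 953 (n 0 z (n 0 z (n 0
 z (n 0 z (n 7741523 z (n 0 z z)))))) (n 953 (n 0 z (n 0 z (n 0 z (n 0 z (n 0 z (n 2 (n 1 z (n 1
 z z)) z)))))) (n 393 (n 0 z (n 0 z (n 0 z (n 0 z (n 0 z (n 0 z (n 0 z (n 0 z (n 0 z (n 0 z (n 0
 z (n 0 z (n 0 z (n 0 z (n 0 z (n 0 z (n 0 z (n 0 z (n 0 z (n 0 z (n 0 z (n 0 z (n 0 z (n 0 z (n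
 0 z (n 0 z (n 0 z (n 0 z (n 0 z (n 0 z (n 0 z z))))))))))))))))))))))))))))))) (n 63 (n 0 z (n
 0 z (n 0 z (n 0 z (n 0 z (n 0 z (n 0 z (n 0 z (n 0 z (n 0 z (n 0 z (n 0 z (n 0 z (n 0 z (n 0 z
 (n 0 z (n 0 z (n 0 z (n 0 z (n 0 z (n 0 z (n 0 z (n 0 z (n 0 z (n 0 z (n 2 z (n 0 z (n 0 z (n 0
 z (n 0 z (n 0 z (n 0 z z)))))))))))))))))))))))))))))))) z))))) (n 0 (n 0 z (n 0 z (n 295 (n 0
 z (n 0 z (n 0 z (n 0 z (n 0 z (n 0 z (n 0 z (n 0 z (n 0 z (n 0 z (n 0 z (n 0 z (n 0 z (n 0 z (n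
 0 z (n 0 z (n 0 z (n 0 z (n 0 z (n 0 z (n 0 z (n 0 z (n 0 z (n 0 z (n 0 z (n 0 z (n 0 z (n 0 z
 (n 0 z z))))))))))))))))))))))))))))) (n 531 (n 0 z (n 0 z (n 0 z (n 0 z (n 0 z (n 0 z (n 0 z
 (n 0 z (n 0 z (n 0 z z)))))))))) z)))) (n 0 (n 0 z (n 1077 (n 6428427 z (n 0 z (n 0 z (n 0 z (n
 0 z (n 0 z (n 0 z (n 0 z (n 0 z (n 0 z (n 0 z (n 0 z (n 0 z (n 0 z (n 0 z (n 0 z (n 0 z (n 0 z
 (n 0 z (n 0 z (n 0 z (n 0 z (n 0 z (n 0 z (n 0 z (n 0 z z)))))))))))))))))))))))))) (n 255 (n 0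
 z (n 0 z (n 0 z (n 0 z (n 0 z (n 0 z (n 0 z (n 0 z (n 0 z (n 0 z (n 0 z (n 0 z (n 0 z (n 0 z (n
 0 z (n 0 z (n 0 z (n 0 z (n 0 z (n 0 z (n 0 z (n 6428427 z (n 0 z (n 0 z (n 0 z (n 0 z
 z)))))))))))))))))))))))))) z))) (n 0 (n 713 (n 0 z (n 0 z (n 0 z (n 0 z z)))) (n 857 (n 0 z (n
 0 z (n 0 z (n 0 z (n 0 z (n 0 z (n 0 z (n 0 z z)))))))) z)) (n 0 (n 723 (n 0 z (n 0 z (n 0 z (n
 0 z (n 0 z (n 0 z (n 0 z (n 0 z z)))))))) z) (n 0 z z)))))))) (n 0 (n 1 (n 6566419 z (n 6566419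
 z (n 6566419 z (n 6566419 z (n 6566419 z (n 6566419 z z)))))) (n 1 (n 3280995 z (n 3820 z (n
 3820 z (n 3282443 z (n 3820 z (n 3820 z z)))))) (n 0 z z))) (n 0 z z)))) (n
 0x81a4a48124d342659513291849653086a703323411 (n 0 (n 477 (n 0 z (n 3282443 z z)) (n 475 (n 2 z
 (n 3278363 z (n 10 z (n 18 z z)))) (n 476 (n 0 z (n 6566419 z (n
 0x7563099f82766d958a19b5d4ee98aa2f715adf6dc7e6a1175c81e62bb5f6eab55624aa090d91b91d0041 z (n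
 0x8d6309229205e899ca17a995b18d4aac71395965c6a399679a89e6a2c20632b136a89a78cfa5e9250041 z (n 26
 z (n 6566419 z (n 0 z (n 0 z (n 0 z (n 0 z (n 0 z (n 0 z (n
 0xad6109639205aaa5ba95b594f58d1b6f6d09975db6249d479989d662ce0577bd066a9e988cade9660041 z (n 0 z
 (n 6566419 z (n 0 z (n 0 z (n 0 z (n
 0x556548e08656e891b95ba1e62991296a7999df75e7e595679e81e667a20766a196e39e08d48dd8de0041 z (n 0 z
 (n 0 z (n 0 z (n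
 0x2ca4a2080381f82082081f8208208208208208208208208208208208228208208208208208208208208200801 z
 (n 34 z (n 42 z (n 0 z z)))))))))))))))))))))))))) (n 3 (n 6566419 z (n 50 z (n 0 z z))) (n 1
 (n 0 z (n 0 z (n 0 z (n 0 z (n 58 z (n 6566419 z (n 0 z z))))))) (n 0 (n 2164315 z (n 0 z z))
 z)))))) (n 477 (n 0 (n 0 z (n 0 z (n 933 (n 0 z (n 0 z (n 0 z (n 0 z (n 0 z (n 0 z (n 0 z
 z))))))) (n 933 (n 0 z (n 0 z (n 0 z (n 0 z (n 0 z (n 2 (n 0 z (n 1 z (n 1 z z))) (n 0 z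
 z))))))) (n 933 (n 0 z (n 0 z (n 0 z (n 0 z (n 0 z (n 0 z (n 2 (n 1 z (n 1 z z)) z))))))) (n
 247 (n 0 z (n 0 z (n 0 z (n 0 z (n 0 z (n 0 z (n 0 z (n 0 z (n 0 z (n 0 z (n 0 z (n 0 z (n 0 z
 (n 0 z (n 0 z (n 0 z (n 0 z z))))))))))))))))) (n 243 (n 0 z (n 0 z (n 0 z (n 0 z (n 0 z (n 0 z
 (n 0 z z))))))) z))))))) (n 0 (n 0 z (n 411 (n 7749939 z (n 0 z (n 0 z (n 0 z (n 0 z (n 0 z
 z)))))) (n 411 (n 0 z (n 0 z (n 0 z (n 0 z (n 0 z (n 2 (n 0 z (n 1 z (n 1 z z))) z)))))) (n 411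
 (n 0 z (n 0 z (n 0 z (n 0 z (n 0 z (n 0 z z)))))) (n 55 (n 0 z (n 6428427 z (n 0 z z))) (n 51
 (n 0 z (n 7749939 z (n 0 z z))) z)))))) (n 0 (n 953 (n 0 z (n 0 z (n 0 z (n 0 z (n 0 z (n 0 z
 z)))))) (n 953 (n 0 z (n 0 z (n 0 z (n 0 z (n 7741523 z (n 0 z z)))))) (n 953 (n 0 z (n 0 z (n
 0 z (n 0 z (n 0 z (n 2 (n 1 z (n 1 z z)) z)))))) (n 393 (n 0 z (n 0 z (n 0 z (n 0 z (n 0 z (n 0
 z (n 0 z (n 0 z (n 0 z (n 0 z (n 0 z (n 0 z (n 0 z (n 0 z (n 0 z (n 0 z (n 0 z (n 0 z (n 0 z (n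
 0 z (n 0 z (n 0 z (n 0 z z))))))))))))))))))))))) (n 63 (n 0 z (n 0 z (n 0 z (n 0 z (n 0 z (n 0
 z (n 0 z (n 0 z (n 0 z (n 0 z (n 0 z (n 0 z (n 0 z (n 2 z (n 0 z (n 0 z (n 0 z (n 0 z (n 0 z (n
 0 z (n 0 z (n 0 z z)))))))))))))))))))))) z))))) (n 0 (n 0 z (n 0 z (n 295 (n 0 z (n 0 z (n 0 z
 (n 0 z (n 0 z (n 0 z (n 0 z (n 0 z (n 0 z (n 0 z (n 0 z (n 0 z (n 0 z (n 0 z (n 0 z (n 0 z (n 0
 z (n 0 z z)))))))))))))))))) (n 531 (n 0 z (n 0 z (n 0 z (n 0 z (n 0 z (n 0 z (n 0 z (n 0 z (n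
 0 z z))))))))) z)))) (n 0 (n 0 z (n 1077 (n 0 z (n 0 z (n 6428427 z (n 0 z (n 0 z (n 0 z (n 0 z
 (n 0 z (n 0 z (n 0 z (n 0 z (n 0 z (n 0 z (n 0 z (n 0 z (n 0 z (n 0 z z))))))))))))))))) (n 255
 (n 0 z (n 0 z (n 0 z (n 0 z (n 0 z (n 0 z (n 0 z (n 0 z (n 0 z (n 0 z (n 0 z (n 0 z (n 6428427
 z (n 0 z (n 0 z (n 0 z (n 0 z z))))))))))))))))) z))) (n 0 (n 713 (n 0 z (n 0 z (n 0 z z))) (n
 857 (n 0 z (n 0 z (n 0 z (n 0 z (n 0 z (n 0 z (n 0 z z))))))) z)) (n 0 (n 723 (n 0 z (n 0 z (n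
 0 z (n 0 z z)))) z) (n 0 z z)))))))) (n 0 (n 0 z (n 1 (n 3282443 z (n 3282443 z (n 3282443 z (n
 3282443 z (n 3282443 z (n 3282443 z z)))))) z)) (n 0 z z)))) (n
 0xc9276049393049b8832594216e641345105a9920cac7400a308132480 (n 0x26493 (n 467 (n 6561843 z (n 0
 z (n 0 z (n 2 z (n 10 z (n 0 z (n 0 z (n 0 z (n 0 z (n 0 z (n 18 z (n 0 z z)))))))))))) (n 691
 (n 0 z (n 3278363 z (n 26 z (n 0 z z)))) (n 466 (n 6561843 z (n 0 z (n 0 z (n 6427979 z (n 0 z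
 (n 6561843 z (n 0 z (n
 0xeca4a6080380628a90a8696d6f8c8f977c817431a89d6f92655d74b68d919aad536aaa64c7628ca13d73797f97af61a877d3668d9778610809
 z (n 0 z (n 0 z (n 34 z (n
 0xaca46208039da7ec85c86976c9a171a36dd978213e38e49a6b8f4e96f6721c946269da75589ed11b2a65c0801 z
 (n 42 z (n 0 z (n 0 z (n
 0x2ca6c860038608208607a181f86082082185f86081f7e085f8607e08207e08207e082082082081f8608200801 z
 (n 0x2c86c860038207e181f82181f8208608208217df82182081f8607e08208208218208208608218207e08200801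
 z (n
 0x2ca8ca80038207df85f7e17e18208208208208208618208217e18208207e08218208208208218208208200801 z
 (n 0 z (n 0 z (n 0 z (n 0 z (n 0 z (n 0 z (n
 0xac86c820039df79d99f6a17e385e7e7562a98b2592276a694b996e97a0665a24a1b4efc6296375d5ab6980801 z
 (n
 0x82b188fc6318d64899ae8434d49e06c947e797f3ab76c889b9f799ba3438b83b77a9b7981a0795ea750e87c578fc86b986f5e7b3f8cb2670089
 z (n 0 z (n 0 z (n 0 z z))))))))))))))))))))))))))))) (n 3 (n 50 z (n 0 z (n 2164283 z (n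
 0x3cca8a8040380a8067e18068917d78377ee8298377fb7e07ff7f57bc82f8367b48237ad82b7c281f8677db7d68ad7357bc8577fc8c67d28b080b7f48298117708537e074f83e7da82a7c07e58528037b50811
 z (n
 0x65464020182c86a804078217e085f7df7e182082082182082182082081f8608208208608217df8218208608608208201001
 z (n 58 z (n 66 z (n
 0x995195080610c86a8240381717e8aba698569909a89847f7535a49d67946b6d70a7a37e96b73d65b75fd36c95b44a73776ca29753a46ec36d7c9f77611009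
 z z)))))))) (n 1 (n 0 z (n 0 z (n 6561843 z (n 74 z (n 0 z (n 0 z (n 0 z (n 0 z (n 0 z (n 0 z
 z)))))))))) (n 0 (n 0 z (n 0 z (n 2164315 z (n 82 z z)))) z)))))) (n 691 (n 0 (n 0 z (n 0 z (n
 923 (n 0 z (n 0 z (n 0 z (n 0 z z)))) (n 927 (n 0 z (n 0 z (n 0 z (n 0 z (n 2 (n 0 z (n 1 z (n
 1 z (n 2 (n 0 z (n 0 z (n 0 z (n 0 z (n 0 z (n 0 z z)))))) (n 1 z (n 1 z z)))))) (n 0 z (n 0 z
 (n 0 z (n 0 z (n 0 z (n 0 z (n 0 z (n 0 z (n 0 z (n 0 z (n 0 z (n 0 z (n 0 z (n 0 z (n 0 z (n 0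
 z (n 0 z (n 0 z (n 0 z (n 0 z (n 0 z (n 0 z (n 0 z (n 0 z (n 0 z (n 0 z (n 0 z
 z)))))))))))))))))))))))))))))))) (n 927 (n 0 z (n 0 z (n 0 z (n 0 z (n 0 z (n 0 z (n 0 z (n 0
 z (n 0 z (n 0 z (n 0 z (n 0 z (n 0 z (n 0 z (n 0 z (n 0 z (n 0 z (n 0 z (n 0 z (n 0 z (n 0 z (n
 0 z (n 0 z (n 0 z (n 0 z (n 0 z (n 0 z (n 0 z (n 0 z (n 0 z (n 0 z (n 0 z
 z)))))))))))))))))))))))))))))))) (n 251 (n 0 z (n 0 z (n 0 z (n 0 z (n 2 (n 0 z (n 0 z (n 1 z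
 (n 1 z z)))) (n 0 z (n 0 z (n 0 z (n 0 z (n 0 z (n 0 z (n 0 z (n 0 z (n 0 z (n 0 z (n 0 z (n 0
 z z))))))))))))))))) (n 251 (n 0 z (n 0 z (n 0 z (n 0 z (n 0 z (n 2 (n 0 z (n 1 z (n 1 z z)))
 (n 0 z (n 0 z (n 0 z (n 0 z (n 0 z (n 0 z (n 0 z (n 0 z (n 0 z (n 0 z (n 0 z z)))))))))))))))))
 (n 251 (n 0 z (n 0 z (n 0 z (n 0 z (n 0 z (n 0 z (n 0 z (n 0 z (n 0 z (n 0 z (n 0 z (n 0 z (n 0
 z (n 0 z (n 0 z (n 0 z (n 0 z z))))))))))))))))) (n 925 (n 0 z (n 0 z (n 0 z (n 0 z (n 0 z (n 0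
 z (n 0 z (n 0 z (n 0 z (n 0 z (n 0 z z))))))))))) (n 253 (n 0 z (n 0 z (n 0 z (n 0 z z))))
 z)))))))))) (n 0 (n 0 z (n 227 (n 0 z (n 0 z (n 0 z (n 2 (n 1 z (n 2 (n 0 z (n 0 z (n 0 z (n 0
 z (n 0 z (n 0 z z)))))) (n 1 z (n 1 z (n 2 (n 0 z (n 0 z (n 0 z (n 0 z (n 0 z (n 0 z z)))))) (n
 1 z (n 2 (n 0 z (n 0 z (n 0 z (n 0 z (n 0 z (n 0 z z)))))) z))))))) (n 0 z z))))) (n 135 (n 0 z
 (n 0 z (n 0 z (n 0 z (n 0 z (n 0 z (n 0 z (n 0 z (n 0 z (n 0 z (n 0 z (n 0 z (n 0 z (n 0 z (n 0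
 z (n 0 z (n 0 z (n 0 z (n 0 z (n 0 z (n 0 z (n 0 z (n 0 z (n 0 z (n 0 z (n 0 z (n 0 z (n 0 z (n
 0 z (n 0 z (n 0 z (n 0 z (n 0 z (n 0 z (n 0 z (n 0 z (n 0 z (n 0 z (n 0 z (n 0 z (n 0 z (n 0 z
 (n 0 z (n 0 z (n 0 z (n 0 z (n 0 z z))))))))))))))))))))))))))))))))))))))))))))))) (n 135 (n 0
 z (n 0 z (n 0 z (n 0 z (n 0 z (n 0 z (n 0 z (n 0 z (n 0 z (n 0 z (n 0 z (n 0 z (n 0 z (n 0 z (n
 0 z (n 0 z (n 0 z (n 0 z (n 0 z (n 0 z (n 0 z (n 0 z (n 0 z (n 0 z (n 0 z (n 0 z (n 0 z (n 0 z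
 (n 0 z (n 0 z (n 0 z (n 0 z (n 0 z (n 0 z (n 0 z (n 0 z (n 0 z (n 2 (n 1 z (n 1 z (n 2 (n 0 z
 (n 0 z (n 0 z (n 0 z (n 0 z (n 0 z z)))))) (n 1 z (n 2 (n 0 z (n 0 z (n 0 z (n 0 z (n 0 z (n 0
 z z)))))) z))))) (n 0 z (n 0 z (n 0 z (n 0 z (n 0 z (n 0 z (n 0 z (n 0 z (n 0 z
 z))))))))))))))))))))))))))))))))))))))))))))))) (n 45 (n 0 z (n 0 z (n 0 z (n 0 z (n 0 z (n 0
 z (n 0 z (n 0 z (n 0 z (n 0 z (n 0 z (n 0 z z)))))))))))) (n 45 (n 0 z (n 0 z (n 0 z (n 2 (n 0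
 z (n 1 z (n 1 z z))) (n 0 z (n 0 z (n 0 z (n 0 z (n 0 z (n 0 z (n 0 z (n 0 z z)))))))))))) (n
 45 (n 0 z (n 0 z (n 2 (n 1 z (n 2 (n 0 z (n 0 z (n 0 z (n 0 z (n 0 z (n 0 z z)))))) z)) (n 0 z
 (n 0 z (n 0 z (n 0 z (n 0 z (n 0 z (n 0 z (n 0 z (n 0 z z)))))))))))) (n 133 (n 0 z (n 2 (n 1 z
 z) (n 0 z (n 0 z (n 0 z (n 0 z (n 0 z (n 0 z z)))))))) (n 17 (n 0 z (n 0 z (n 2 z (n 0 z (n 0 z
 (n 0 z (n 0 z (n 0 z (n 0 z (n 0 z z)))))))))) z))))))))) (n 0 (n 923 (n 0 z (n 2 (n 2 (n 0 z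
 (n 0 z (n 0 z (n 0 z (n 0 z (n 0 z z)))))) (n 2 (n 0 z (n 0 z (n 0 z (n 0 z (n 0 z (n 0 z
 z)))))) (n 2 (n 0 z (n 0 z (n 0 z (n 0 z (n 0 z (n 0 z z)))))) (n 2 (n 0 z (n 0 z (n 0 z (n 0 z
 (n 0 z (n 0 z z)))))) (n 2 (n 0 z (n 0 z (n 0 z (n 0 z (n 0 z (n 0 z z)))))) (n 2 (n 0 z (n 0 z
 (n 0 z (n 0 z (n 0 (n 8852267 z z) (n 0 z z)))))) (n 2 (n 0 z (n 0 z (n 0 z (n 0 z (n 0 z (n 0
 z z)))))) z))))))) (n 0 z z))) (n 915 (n 0 z (n 0 z (n 0 z (n 2 (n 0 z (n 1 z (n 1 z (n 2 (n 0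
 z (n 0 z (n 0 z (n 0 z (n 0 z (n 0 z z)))))) (n 2 (n 0 z (n 0 z (n 0 z (n 0 z (n 0 z (n 0 z
 z)))))) (n 2 (n 0 z (n 0 z (n 0 z (n 0 z (n 0 z (n 0 z z)))))) z)))))) (n 0 z (n 0 z (n 0 z (n
 0 z (n 0 z (n 0 z (n 0 z (n 0 z (n 0 z (n 0 z z)))))))))))))) (n 915 (n 0 z (n 0 z (n 0 z (n 0
 z (n 0 z (n 0 z (n 0 z (n 0 z (n 0 z (n 0 z (n 0 z (n 0 z (n 0 z (n 0 z z)))))))))))))) (n 1209
 (n 0 z (n 0 z (n 0 z (n 0 z (n 0 z (n 0 z (n 0 z (n 0 z (n 0 z (n 0 z (n 0 z (n 2 (n 0 z (n 0 z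
 (n 2 (n 0 z (n 0 z (n 0 z (n 0 z (n 0 z (n 0 z z)))))) (n 2 (n 0 z (n 0 z (n 0 z (n 0 z (n 0 z
 (n 0 z z)))))) z)))) (n 0 z (n 0 z (n 0 z (n 0 z (n 0 z z))))))))))))))))) (n 1209 (n 0 z (n 0
 z (n 0 z (n 2 (n 0 z (n 2 (n 0 z (n 0 z (n 0 z (n 0 z (n 0 z (n 0 z z)))))) (n 2 (n 0 z (n 0 z
 (n 0 z (n 0 z (n 0 z (n 0 z z)))))) z))) (n 0 z (n 0 z (n 0 z (n 0 z (n 0 z (n 0 z (n 0 z (n 0
 z (n 0 z (n 0 z (n 0 z (n 0 z (n 0 z z))))))))))))))))) (n 1209 (n 0 z (n 0 z (n 0 z (n 0 z (n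
 0 z (n 0 z (n 0 z (n 0 z (n 0 z (n 0 z (n 0 z (n 0 z (n 0 z (n 0 z (n 0 z (n 0 z (n 0 z
 z))))))))))))))))) (n 913 (n 0 z (n 0 z (n 0 z (n 0 z (n 0 z (n 0 z z)))))) (n 721 (n 0 z (n 0
 z (n 2 z z))) z)))))))) (n 0 (n 933 (n 0 z (n 0 z (n 0 z (n 0 z (n 0 z (n 0 z (n 0 z (n 0 z (n
 0 z (n 0 z (n 2 (n 0 z (n 1 z (n 1 z (n 2 (n 0 z (n 0 z (n 0 z (n 0 z (n 0 z (n 0 z z)))))) (n
 1 z (n 2 (n 0 z (n 0 z (n 0 z (n 0 z (n 0 (n 8786731 z z) (n 0 z z)))))) z)))))) (n 0 z (n 0 z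
 (n 0 z z)))))))))))))) (n 933 (n 0 z (n 0 z (n 0 z (n 0 z (n 0 z (n 0 z (n 0 z (n 0 z (n 0 z (n
 0 z (n 0 z (n 0 z (n 0 z (n 0 z z)))))))))))))) (n 487 (n 0 z (n 2 (n 0 z (n 0 z (n 1 z (n 2 (n
 0 z (n 0 z (n 0 z (n 0 z (n 0 (n 8786731 z z) (n 0 z z)))))) z)))) (n 0 z (n 0 z (n 0 z (n 0 z
 (n 0 z (n 0 z (n 0 z (n 0 z (n 0 z (n 0 z (n 0 z (n 0 z (n 0 z (n 0 z (n 0 z z)))))))))))))))))
 (n 487 (n 0 z (n 0 z (n 0 z (n 0 z (n 0 z (n 0 z (n 0 z (n 0 z (n 0 z (n 0 z (n 0 z (n 0 z (n 0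
 z (n 0 z (n 2 (n 0 z (n 1 z (n 2 (n 0 z (n 0 z (n 0 z (n 0 z (n 0 (n 8786731 z z) (n 0 z
 z)))))) z))) (n 0 z (n 0 z z))))))))))))))))) (n 487 (n 0 z (n 0 z (n 0 z (n 0 z (n 0 z (n 0 z
 (n 0 z (n 0 z (n 0 z (n 0 z (n 0 z (n 0 z (n 0 z (n 0 z (n 0 z (n 0 z (n 0 z z)))))))))))))))))
 (n 483 (n 0 z (n 0 z (n 0 z (n 0 z (n 0 z (n 0 z z)))))) (n 481 (n 0 z (n 0 z z)) z))))))) (n 0
 (n 0 z (n 573 (n 0 z (n 0 z (n 0 z (n 0 z (n 0 z (n 0 z (n 0 z (n 0 z (n 0 z (n 0 z z))))))))))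
 (n 573 (n 2 (n 0 z (n 1 z (n 1 z z))) (n 0 z (n 0 z (n 0 z (n 0 z (n 0 z (n 0 z (n 0 z (n 0 z
 (n 0 z z)))))))))) (n 573 (n 0 z (n 0 z (n 0 z (n 0 z (n 0 z (n 2 (n 1 z (n 2 (n 0 z (n 0 z (n
 0 z (n 0 z (n 0 (n 8860179 z z) (n 0 z z)))))) z)) (n 0 z (n 0 z (n 0 z (n 0 z z)))))))))) (n
 617 (n 0 z (n 0 z (n 2 (n 1 z z) (n 0 z (n 0 z (n 0 z (n 0 z (n 0 z (n 0 z (n 0 z z))))))))))
 (n 545 (n 0 z (n 0 z (n 0 z (n 0 z (n 0 z (n 0 z (n 0 z (n 0 z (n 0 z (n 2 z (n 0 z (n 0 z (n 0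
 z (n 0 z (n 0 z (n 0 z (n 0 z (n 0 z (n 0 z (n 0 z (n 0 z (n 0 z (n 0 z (n 0 z (n 0 z (n 0 z (n
 0 z (n 0 z (n 0 z z))))))))))))))))))))))))))))) z)))))) (n 0 (n 247 (n 2 (n 0 z (n 0 z (n 1 z
 (n 2 (n 0 z (n 0 z (n 0 z (n 0 z (n 0 (n 8794643 z z) (n 0 z z)))))) z)))) (n 0 z (n 0 z (n 0 z
 (n 0 z (n 0 z (n 0 z (n 0 z (n 0 z (n 0 z (n 0 z (n 0 z (n 0 z (n 0 z (n 0 z (n 0 z
 z)))))))))))))))) (n 247 (n 0 z (n 0 z (n 0 z (n 0 z (n 0 z (n 0 z (n 0 z (n 0 z (n 0 z (n 0 z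
 (n 2 (n 0 z (n 1 z (n 2 (n 0 z (n 0 z (n 0 z (n 0 z (n 0 (n 8794643 z z) (n 0 z z)))))) z))) (n
 0 z (n 0 z (n 0 z (n 0 z (n 0 z z)))))))))))))))) (n 247 (n 0 z (n 0 z (n 0 z (n 0 z (n 0 z (n
 0 z (n 0 z (n 0 z (n 0 z (n 0 z (n 0 z (n 0 z (n 0 z (n 0 z (n 0 z (n 0 z z)))))))))))))))) (n
 243 (n 0 z (n 0 z (n 0 z (n 0 z (n 0 z (n 0 z (n 0 z (n 0 z (n 0 z (n 0 z (n 0 z (n 0 z (n 0 z
 (n 0 z (n 0 z (n 0 z (n 0 z (n 0 z (n 0 z (n 0 z (n 0 z (n 0 z (n 0 z (n 0 z (n 0 z (n 0 z (n 0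
 z (n 0 z (n 0 z (n 0 z (n 0 z (n 0 z (n 0 z (n 0 z (n 0 z (n 0 z (n 0 z (n 0 z (n 0 z (n 0 z (n
 0 z (n 0 z (n 0 z (n 0 z (n 0 z (n 0 z z)))))))))))))))))))))))))))))))))))))))))))))) (n 241
 (n 0 z (n 0 z (n 0 z (n 0 z (n 0 z (n 0 z (n 0 z (n 0 z (n 0 z (n 0 z (n 0 z (n 0 z (n 0 z (n 0
 z (n 0 z (n 0 z (n 0 z (n 0 z (n 0 z (n 0 z (n 0 z (n 0 z (n 0 z (n 0 z (n 0 z
 z))))))))))))))))))))))))) z))))) (n 0 (n 0 z (n 0 z (n 3 (n 0 z (n 0 z (n 0 z (n 0 z (n 0 z (n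
 0 z (n 0 z (n 0 z (n 0 z (n 2 (n 1 z z) (n 0 z (n 0 z (n 0 z z))))))))))))) (n 1 (n 0 z (n 0 z
 (n 0 z (n 0 z (n 0 z (n 0 z (n 2 z (n 0 z (n 0 z (n 0 z (n 0 z z))))))))))) z)))) (n 0 (n 0 z
 (n 15 (n 0 z (n 0 z (n 0 z (n 0 z (n 0 z (n 2 (n 1 z z) (n 0 z (n 0 z (n 0 z z))))))))) (n 13
 (n 0 z (n 0 z (n 0 z (n 0 z (n 0 z (n 0 z (n 0 z (n 2 z (n 0 z (n 0 z (n 0 z (n 0 z
 z)))))))))))) z))) (n 0 (n 3 (n 0 z (n 0 z (n 0 z (n 0 z z)))) (n 1 (n 0 z (n 0 z (n 0 z (n 0 z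
 (n 0 z (n 0 z (n 0 z (n 0 z (n 0 z (n 0 z (n 0 z (n 0 z (n 0 z (n 0 z z)))))))))))))) z)) (n 0
 (n 5 (n 0 z (n 0 z (n 0 z (n 0 z (n 0 z (n 0 z (n 0 z (n 0 z (n 0 z (n 0 z (n 0 z (n 0 z (n 0 z
 (n 0 z z)))))))))))))) z) (n 0 z z))))))))))) (n 0 (n 0 z (n 1 (n 3278363 z (n 3278363 z (n
 3278363 z (n 3278363 z (n 3278363 z (n 3278363 z z)))))) (n 1 (n 3740 z (n 2 z (n 3740 z (n
 3740 z (n 3740 z (n 3740 z z)))))) (n 0 z z)))) (n 0 (n 0x91064b65085b65105a651840 (n 0 (n 0 (n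
 7746067 z (n 7746067 z (n 7746067 z (n 7746067 z (n 7746067 z (n 7746067 z z)))))) z) (n 0 (n
 461 (n 1 (n 7610419 z (n 7746067 z (n 7610419 z (n 7610419 z (n 7610419 z (n 7610419 z z))))))
 (n 1 (n 7545187 z (n 7746067 z (n 7545187 z (n 7545187 z (n 7545187 z (n 7545187 z z)))))) (n 1
 (n 2 z (n 7746067 z (n 7546395 z (n 7733787 z (n 3740 z (n 3740 z z)))))) (n 1 (n 3740 z (n
 7746067 z (n 7546395 z (n 3708 z (n 3740 z (n 7733787 z z)))))) z)))) (n 240 (n 1 (n 3278683 z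
 (n 3278683 z (n 7476555 z (n 3278683 z (n 3278683 z (n 3278683 z z)))))) (n 1 (n 7545187 z (n
 7545187 z (n 7545187 z (n 7545187 z (n 7545187 z (n 7545187 z z)))))) z)) (n 472 (n 1 (n
 7610419 z (n 7746067 z (n 7610419 z (n 7610419 z (n 7610419 z (n 7610419 z z)))))) (n 1 (n
 7545187 z (n 7746067 z (n 7545187 z (n 7545187 z (n 7545187 z (n 7545187 z z)))))) (n 1 (n
 7545187 z (n 7746067 z (n 7545187 z (n 7545187 z (n 7545187 z (n 7545187 z z)))))) (n 1 (n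
 7610419 z (n 7746067 z (n 7610419 z (n 7610419 z (n 7610419 z (n 7610419 z z)))))) (n 1 (n
 7545187 z (n 7746067 z (n 7545187 z (n 7545187 z (n 7545187 z (n 7545187 z z)))))) (n 0 z (n 0
 z (n 1 (n 3724 z (n 7746067 z (n 988 z (n 3724 z (n 7546395 z (n 3724 z z)))))) (n 1 (n 3724 z
 (n 7746067 z (n
 0x13b2bb2a00c0594dd8900604ec8ca80078182807779827f7b688880837d807d7f94738b7592768a9f737e8767709c71876da176795e877d978a8495909b787f93736c1809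
 z (n 3724 z (n 3724 z (n 6631795 z z)))))) (n 1 (n 7546395 z (n 7746067 z (n 3724 z (n 3724 z
 (n 3724 z (n 3724 z z)))))) (n 1 (n 10 z (n 7746067 z (n 7546395 z (n 3724 z (n 3724 z (n 3724
 z z)))))) (n 1 (n 3724 z (n 7746067 z (n 3724 z (n 3724 z (n 7546395 z (n 3724 z z)))))) (n 1
 (n 3724 z (n 7746067 z (n 3724 z (n 3724 z (n 3724 z (n 7546395 z z)))))) (n 1 (n 3724 z (n
 7746067 z (n 7546395 z (n 3724 z (n 3724 z (n 3724 z z)))))) z)))))))))))))) (n 1 (n 1 (n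
 7746067 z (n 7746067 z (n 7746067 z (n 7746067 z (n 7746067 z (n 7746067 z z)))))) (n 1 (n
 7476555 z (n 18 z (n 1436 z (n 6559499 z (n 1436 z (n 1436 z z)))))) (n 1 (n 7607851 z (n
 7607851 z (n 7607851 z (n 7607851 z (n 7607851 z (n 7607851 z z)))))) (n 1 (n 1436 z (n 26 z (n
 1436 z (n 7476555 z (n 1436 z (n 1436 z z)))))) z)))) (n 3 (n 1 (n 7746067 z (n 7746067 z (n
 7746067 z (n 7746067 z (n 7746067 z (n 7746067 z z)))))) (n 1 (n 2044 z (n 3740 z (n 3740 z (n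
 7610419 z (n 3740 z (n 3740 z z)))))) (n 1 (n 7607851 z (n 7607851 z (n 7607851 z (n 7610419 z
 (n 7607851 z (n 7738155 z z)))))) (n 1 (n 3740 z (n 3740 z (n 7738155 z (n 7610419 z (n 3740 z
 (n 3740 z z)))))) z)))) (n 261 (n 1 (n 3278683 z (n 7746067 z (n 2164571 z (n 7546395 z (n
 3278683 z (n 7733787 z z)))))) (n 1 (n 7545187 z (n 7746067 z (n 7545187 z (n 7545187 z (n
 7545187 z (n 7545187 z z)))))) z)) (n 691 (n 0 z (n 1 (n 3278619 z (n 7746067 z (n 3278619 z (n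
 3278619 z (n 3278619 z (n 3278619 z z)))))) (n 1 (n 7738155 z (n 7746067 z (n 7738155 z (n
 7738155 z (n 7738155 z (n 7738155 z z)))))) (n 0 z z)))) z))))))) (n 0 (n 0 (n 0 z (n 0 z (n 0
 z (n 0 z z)))) (n 0 (n 0 z (n 0 z (n 0 z z))) (n 0 (n 0 z (n 0 z z)) (n 0 (n 0 z z) z)))) (n 0
 (n 467 (n 0 (n 0 z (n 0 z (n 0 z (n 0 z z)))) (n 0 (n 0 z (n 0 z (n 0 z (n 0 z z)))) (n 0 (n 0
 z (n 0 z (n 0 z (n 0 z z)))) (n 0 (n 0 z (n 0 z (n 0 z (n 0 z z)))) z)))) (n 465 (n 0 (n 0 z (n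
 0 z (n 0 z (n 0 z z)))) (n 0 (n 0 z (n 0 z (n 0 z (n 0 z z)))) (n 0 (n 0 z (n 0 z (n 0 z (n 0 z
 z)))) (n 0 (n 0 z (n 0 z (n 0 z (n 0 z z)))) (n 0 (n 0 z (n 0 z (n 0 z (n 0 z z)))) (n 0 (n 0 z
 (n 0 z (n 0 z (n 0 z z)))) (n 0 (n 0 z (n 0 z (n 0 z (n 0 z z)))) (n 0 (n 0 z (n 0 z (n 0 z (n
 0 z z)))) (n 0 (n 0 (n 8794643 z (n 8794643 z z)) (n 0 (n 8794643 z (n 8794643 z z)) (n 0 (n
 8794643 z (n 8794643 z z)) (n 0 (n 8794643 z (n 8794643 z z)) z)))) (n 0 (n 0 z (n 0 z (n 0 z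
 (n 0 (n 8794643 z (n 8794643 z z)) z)))) (n 0 (n 0 z (n 0 (n 8794643 z (n 8794643 z z)) (n 0 (n
 8794643 z (n 8794643 z z)) (n 0 (n 8794643 z (n 8794643 z z)) z)))) (n 0 (n 0 z (n 0 (n 8728947
 z (n
 0x248738577818b94757d79878888807e7d60908d7a89777a7c8f897f849c61779571a2758d90667e847b8d8e73918397757892816a0049
 z z)) (n 0 (n
 0x5b0ea2c87585e825a1c85d7a889f81d5a8ad695b89ca2d7a0ad062b7716689d67a266789aa21a9b7a79160081 z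
 (n
 0x50cb0ca803866a8188a26e787c8c90897e807c4d969c6c946d81739b9c7a7db14068a16fc367ad935c917459a99d50a07ba174709d7f5e0809
 z z)) (n 0 (n
 0x30ed0eca037e08208207e08207e08208208208208618208608208208208208608208208208208208208200801 z
 (n 7608411 z z)) z)))) (n 0 (n 0 z (n 0 z (n 0 z (n 0 z z)))) (n 0 (n 0 z (n 0 (n 8794643 z (n
 8794643 z z)) (n 0 (n 8794643 z (n 8794643 z z)) (n 0 (n 8794643 z (n 8794643 z z)) z)))) (n 0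
 (n 0 z (n 0 z (n 0 z (n 0 z z)))) (n 0 (n 0 z (n 0 z (n 0 z (n 0 z z)))) (n 0 (n 0 z (n 0 z (n
 0 z (n 0 z z)))) (n 0 (n 0 z (n 0 z (n 0 z (n 0 (n
 0x4c8638087da80582084b7da7f67ee82181c81b8008027ec78984481e7e88197e77c77fb84080481881485f7ab7df8417d98827e38148407a98048067f58148357c48317ef85d7d08038347f77c80051
 z z) z)))) (n 0 (n 0 z (n 0 z (n 0 z (n 0 z z)))) (n 0 (n 0 z (n 0 z (n 0 z (n 0 z z)))) (n 0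
 (n 0 z (n 0 z (n 0 z (n 0 z z)))) (n 0 (n 0 z (n 0 z (n 0 z (n 0 z z)))) (n 0 (n 0 (n 8794643 z
 z) (n 0 z (n 0 (n 8794643 z z) (n 0 z z)))) (n 0 (n 0 z (n 0 z (n 0 z (n 0 z z)))) (n 0 (n 0 z
 (n 0 z (n 0 z (n 0 z z)))) (n 0 (n 0 (n 8728947 z (n 8594971 z z)) (n 0 (n 8728947 z (n 8594971
 z z)) (n 0 z (n 0 (n 8594971 z (n 8594971 z z)) z)))) (n 0 (n 0 (n 8728947 z (n 8726331 z z))
 (n 0 (n 8728947 z (n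
 0x4c8638087da80582084b7da7f67ee82181c81b8008027ec78984481e7e88197e77c77fb84080481881485f7ab7df8417d98827e38148407a98048067f58148357c48317ef85d7d08038347f77c80051
 z z)) (n 0 z (n 0 (n
 0x4c8638087da80582084b7da7f67ee82181c81b8008027ec78984481e7e88197e77c77fb84080481881485f7ab7df8417d98827e38148407a98048067f58148357c48317ef85d7d08038347f77c80051
 z (n
 0x4c8638087da80582084b7da7f67ee82181c81b8008027ec78984481e7e88197e77c77fb84080481881485f7ab7df8417d98827e38148407a98048067f58148357c48317ef85d7d08038347f77c80051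
 z z)) z)))) (n 0 (n 0 z (n 0 z (n 0 z (n 0 z z)))) (n 0 (n 0 z (n 0 z (n 0 z (n 0 z z)))) (n 0
 (n 0 z (n 0 z (n 0 z (n 0 z z)))) (n 0 (n 0 z (n 0 z (n 0 z (n 0 z z)))) (n 0 (n 0 z (n 0 z (n
 0 z (n 0 z z)))) z)))))))))))))))))))))))))))))))) (n 472 (n 0 (n 0 z (n 0 z (n 0 z (n 0 z
 z)))) (n 0 (n 0 z (n 0 z (n 0 z (n 0 z z)))) (n 0 (n 0 z (n 0 z (n 0 z (n 0 z z)))) (n 0 (n 0 z
 (n 0 z (n 0 z (n 0 z z)))) (n 0 (n 0 z (n 0 z (n 0 z (n 0 z z)))) (n 0 (n 0 z (n 0 z (n 0 z (n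
 0 z z)))) (n 0 (n 0 z (n 0 (n 8787723 z (n
 0x1148738f6c80a86f8471785c939c7c7e78528eae76936c7b74a99f83a4986943a27ec07261b6275e6a8d817c839087e8749488766f0049
 z z)) (n 0 (n 8787723 z (n
 0x30cb0806037e17e182081d7e181f8208218608218608607e082082082085f7e08208208208608607e18600801 z
 z)) (n 0 (n
 0x30ed0eca037e07e18208218208208208208207df82082085f8207e082082082181f8208208208208208210801 z
 (n 0x30ed0eca037e07e08207e08207e08218208208208607e08608208208208208208208208208208208608200801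
 z z)) z)))) (n 0 (n 0 z (n 0 z (n 0 z (n 0 z z)))) (n 0 (n 0 z (n 0 z (n 0 z (n 0 z z)))) (n 0
 (n 0 z (n 0 z (n 0 z (n 0 z z)))) (n 0 (n 0 z (n 0 z (n 0 z (n 0 z z)))) (n 0 (n 0 (n 8787723 z
 (n
 0x1c87580a7e880181b8347e980d7f980282a80f7fe7ff7ec7a58358347d58187d77e67e58338348038108597937ce8567d58827d88378367c07da8097f182380c7bf82e7f08677ce80c8387ed7ce0051
 z z)) (n 0 (n 8787723 z (n
 0x1c87580a7e880181b8347e980d7f980282a80f7fe7ff7ec7a58358347d58187d77e67e58338348038108597937ce8567d58827d88378367c07da8097f182380c7bf82e7f08677ce80c8387ed7ce0051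
 z z)) (n 0 z (n 0 (n
 0x66c318cc8638b6b8795d44f5854cd708f7e7b7f48ad708695997a969c4f8982ad7b967a81997a659f5bd37c5f8cba6f9473647c4c89a86d0089
 z (n
 0x4c8748087da80582084b7da7f67ee82181c81b8008027ec78984481e7e88197e77c77fb84080481881485f7ab7df8417d98827e38148407a98048067f58148357c48317ef85d7d08038347f77c80051
 z z)) z)))) (n 0 (n 0 z (n 0 z (n 0 z (n 0 z z)))) (n 0 (n 0 z (n 0 z (n 0 z (n 0 z z))))
 z)))))))))))))) (n 179 (n 0 (n 0 z (n 0 z (n 0 z (n 0 z z)))) (n 0 (n 0 z (n 0 z (n 0 z (n 0 z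
 z)))) (n 0 (n 0 z (n 0 z (n 0 z (n 0 z z)))) (n 0 (n 0 (n 8794643 z (n 8794643 z z)) (n 0 (n
 8794643 z (n 8794643 z z)) (n 0 z (n 0 (n 8794643 z (n 8794643 z z)) z)))) (n 0 (n 0 z (n 0 z
 (n 0 z (n 0 z z)))) (n 0 (n 0 z (n 0 z (n 0 z (n 0 z z)))) (n 0 (n 0 z (n 0 z (n 0 z (n 0 z
 z)))) (n 0 (n 0 z (n 0 z (n 0 z (n 0 z z)))) (n 0 (n 0 z (n 0 z (n 0 z (n 0 z z)))) (n 0 (n 0 z
 (n 0 z (n 0 z (n 0 z z)))) (n 0 (n 0 z (n 0 z (n 0 z (n 0 z z)))) (n 0 (n 0 z (n 0 z (n 0 z (n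
 0 z z)))) (n 0 (n 0 z (n 0 z (n 0 z (n 0 z z)))) (n 0 (n 0 z (n 0 z (n 0 z (n 0 z z)))) (n 0 (n
 0 z (n 0 z (n 0 z (n 0 z z)))) (n 0 (n 0 z (n 0 z (n 0 z (n 0 z z)))) (n 0 (n 0 z (n 0 z (n 0 z
 (n 0 z z)))) z))))))))))))))))) (n 249 (n 0 (n 0 z (n 0 z (n 0 z (n 0 z z)))) (n 0 (n 0 z (n 0
 z (n 0 z (n 0 z z)))) (n 0 (n 0 z (n 0 z (n 0 z (n 0 z z)))) (n 0 (n 0 z (n 0 z (n 0 z (n 0 z
 z)))) (n 0 (n 0 z (n 0 z (n 0 z (n 0 z z)))) (n 0 (n 0 (n 8593763 z (n 8593763 z z)) (n 0 (n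
 8593763 z (n 8593763 z z)) (n 0 z (n 0 (n 8593763 z (n 8593763 z z)) z)))) (n 0 (n 0 z (n 0 z
 (n 0 z (n 0 z z)))) (n 0 (n 0 z (n 0 z (n 0 z (n 0 z z)))) (n 0 (n 0 z (n 0 z (n 0 z (n 0 z
 z)))) (n 0 (n 0 z (n 0 z (n 0 z (n 0 z z)))) (n 0 (n 0 z (n 0 z (n 0 z (n 0 z z)))) (n 0 (n 0
 (n 8728947 z (n
 0x4c8748087da80582084b7da7f67ee82181c81b8008027ec78984481e7e88197e77c77fb84080481881485f7ab7df8417d98827e38148407a98048067f58148357c48317ef85d7d08038347f77c80051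
 z z)) (n 0 (n 8728947 z (n
 0x4c8748087da80582084b7da7f67ee82181c81b8008027ec78984481e7e88197e77c77fb84080481881485f7ab7df8417d98827e38148407a98048067f58148357c48317ef85d7d08038347f77c80051
 z z)) (n 0 z (n 0 (n
 0x4c8748087da80582084b7da7f67ee82181c81b8008027ec78984481e7e88197e77c77fb84080481881485f7ab7df8417d98827e38148407a98048067f58148357c48317ef85d7d08038347f77c80051
 z (n
 0x6b0c43486289d827a9b85c76a8df81d529b9499b89cab1761b8c5ad7365eaa547615e8899a62b5a7a99940081 z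
 z)) z)))) (n 0 (n 0 z (n 0 z (n 0 z (n 0 z z)))) (n 0 (n 0 z (n 0 z (n 0 z (n 0 z z)))) (n 0 (n
 0 z (n 0 z (n 0 z (n 0 z z)))) (n 0 (n 0 (n 8728947 z (n 8787723 z z)) (n 0 (n 8728947 z (n
 8787723 z z)) (n 0 z (n 0 (n
 0x3b0401c82089e82495e81e7a585f81f6a59da8dd85e9a87a19d66a77ac72591a7a16e485c9219dd7e58da0081 z
 (n 0x7b0403c8208dc828b5b85b72c8de81c46cc50a1989bb76721c874f16fb52dad176156a897aa2c187ac9520081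
 z z)) z)))) (n 0 (n 0 z (n 0 z (n 0 z (n 0 (n 8855811 z (n 8855811 z z)) z))))
 z))))))))))))))))) (n 129 (n 0 (n 0 z (n 0 z (n 0 z (n 0 z z)))) (n 0 (n 0 z (n 0 z (n 0 z (n 0
 z z)))) (n 0 (n 0 z (n 0 z (n 0 z (n 0 (n
 0x82c3a0fc8748d64899ae8434d49e06c947e797f3ab76c889b9f799ba3438b83b77a9b7981a0795ea750e87c578fc86b986f5e7b3f8cb2670089
 z (n
 0x4c8748087da80582084b7da7f67ee82181c81b8008027ec78984481e7e88197e77c77fb84080481881485f7ab7df8417d98827e38148407a98048067f58148357c48317ef85d7d08038347f77c80051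
 z z)) z)))) (n 0 (n 0 z (n 0 z (n 0 z (n 0 z z)))) (n 0 (n 0 z (n 0 z (n 0 z (n 0 z z)))) (n 0
 (n 0 z (n 0 z (n 0 z (n 0 (n
 0x7b0e83c8748dc828b5b85b72c8de81c46cc50a1989bb76721c874f16fb52dad176156a897aa2c187ac9520081 z
 z) z)))) (n 0 (n 0 z (n 0 z (n 0 z (n 0 z z)))) (n 0 (n 0 z (n 0 z (n 0 z (n 0 z z)))) (n 0 (n
 0 z (n 0 z (n 0 z (n 0 z z)))) (n 0 (n 0 z (n 0 z (n 0 z (n 0 z z)))) (n 0 (n 0 z (n 0 z (n 0 z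
 (n 0 z z)))) (n 0 (n 0 z (n 0 (n
 0x30eb080c0782082085f8208218208208208208208208208208208208208208208218208208208208208200801 z
 (n
 0x1148718f6c80a86f8471785c939c7c7e78528eae76936c7b74a99f83a4986943a27ec07261b6275e6a8d817c839087e8749488766f0049
 z z)) (n 0 (n
 0x30eb080c0782082085f8208218208208208208208208208208208208208208208218208208208208208200801 z
 (n
 0x1148718f6c80a86f8471785c939c7c7e78528eae76936c7b74a99f83a4986943a27ec07261b6275e6a8d817c839087e8749488766f0049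
 z z)) (n 0 z z)))) (n 0 (n 0 (n 8593763 z (n 8593763 z z)) (n 0 (n 8593763 z (n 8593763 z z))
 (n 0 z (n 0 z z)))) (n 0 (n 0 z (n 0 (n
 0x10ed0ec80786082082082082081f86082082082181f82081f8607e08208607e18208208218207e08608600801 z
 z) (n 0 (n
 0x10ed0ec80786082082082082081f86082082082181f82081f8607e08208607e18208208218207e08608600801 z
 z) (n 0 z z)))) (n 0 (n 0 z (n 0 z (n 0 z (n 0 z z)))) (n 0 (n 0 z (n 0 z (n 0 z (n 0 z z))))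
 z)))))))))))))))) (n 467 (n 0 (n 0 z (n 0 z (n 0 z (n 0 z z)))) (n 0 (n 0 z (n 0 z (n 0 z (n 0
 z z)))) (n 0 (n 0 z (n 0 z (n 0 z (n 0 z z)))) (n 0 (n 0 z (n 0 z (n 0 z (n 0 z z)))) (n 0 (n 0
 z (n 0 z (n 0 z (n 0 z z)))) (n 0 (n 0 z (n 0 z (n 0 z (n 0 z z)))) (n 0 (n 0 z (n 0 z (n 0 z
 (n 0 z z)))) (n 0 (n 0 z (n 0 z (n 0 z (n 0 z z)))) (n 0 (n 0 z (n 0 z (n 0 (n 8658995 z z) (n
 0 (n 8658995 z z) z)))) (n 0 (n 0 z (n 0 z (n 0 z (n 0 z z)))) (n 0 (n 0 z (n 0 z (n 0 z (n 0 z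
 z)))) z))))))))))) (n 255 (n 0 (n 0 z (n 0 z (n 0 z (n 0 z z)))) (n 0 (n 0 z (n 0 z (n 0 z (n 0
 z z)))) (n 0 (n 0 z (n 0 z (n 0 z (n 0 z z)))) (n 0 (n 0 z (n 0 z (n 0 z (n 0 z z)))) (n 0 (n 0
 (n 8658995 z (n 8658995 z z)) (n 0 z (n 0 (n 8658995 z (n 8658995 z z)) (n 0 z z)))) (n 0 (n 0
 z (n 0 z (n 0 z (n 0 z z)))) z)))))) (n 135 (n 0 (n 0 z (n 0 z (n 0 z (n 0 z z)))) (n 0 (n 0 z
 (n 0 z (n 0 z (n 0 z z)))) (n 0 (n 0 z (n 0 z (n 0 z (n 0 z z)))) (n 0 (n 0 z (n 0 z (n 0 z (n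
 0 (n
 0x82c318fc8638d64899ae8434d49e06c947e797f3ab76c889b9f799ba3438b83b77a9b7981a0795ea750e87c578fc86b986f5e7b3f8cb2670089
 z (n
 0x82c318fc8638d64899ae8434d49e06c947e797f3ab76c889b9f799ba3438b83b77a9b7981a0795ea750e87c578fc86b986f5e7b3f8cb2670089
 z z)) z)))) (n 0 (n 0 z (n 0 z (n 0 z (n 0 z z)))) (n 0 (n 0 z (n 0 z (n 0 z (n 0 z z)))) (n 0
 (n 0 z (n 0 z (n 0 z (n 0 z z)))) (n 0 (n 0 z (n 0 z (n 0 z (n 0 z z)))) (n 0 (n 0 z (n 0 z (n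
 0 z (n 0 z z)))) (n 0 (n 0 (n
 0x5b0e62c87389d827adc85c76a89e81d52ab5499b89cab1760bcc5ae7365aaa557205e9898a61b597a99150081 z
 z) (n 0 z (n 0 (n
 0x7b0ea3c8758dc828b5b85b72c8de81c46cc50a1989bb76721c874f16fb52dad176156a897aa2c187ac9520081 z
 z) (n 0 z z)))) (n 0 (n 0 (n 8728947 z (n 8594971 z z)) (n 0 (n 8728947 z (n 8594971 z z)) (n 0
 (n 8594971 z (n 8594971 z z)) (n 0 (n 8594971 z (n 8594971 z z)) z)))) (n 0 (n 0 z (n 0 z (n 0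
 z (n 0 z z)))) (n 0 (n 0 z (n 0 (n
 0x7b0e63c8738dc828b5b85b72c8de81c46cc50a1989bb76721c874f16fb52dad176156a897aa2c187ac9520081 z
 z) (n 0 (n
 0x52c188a4831896e8691c2595f5dbd738d7e7c8054a3738592937b9196598682a37c917b81947c6b9961c27d668aaf7390756a7e56879f700089
 z z) (n 0 z z)))) (n 0 (n 0 z (n 0 z (n 0 z (n 0 (n
 0x52c188a4831896f8591c359605dbd748c7f7c8053a3738591947b9197598782a37c917b81947c6a9962c27e6689af7290756b7c5787a1700089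
 z z) z)))) (n 0 (n 0 z (n 0 (n 8728947 z (n 8594971 z z)) (n 0 (n 8594971 z (n 8594971 z z)) (n
 0 (n 8594971 z (n 8594971 z z)) z)))) (n 0 (n 0 z (n 0 z (n 0 z (n 0 z z)))) (n 0 (n 0 z (n 0 z
 (n 0 z (n 0 z z)))) (n 0 (n 0 z (n 0 z (n 0 z (n 0 z z)))) (n 0 (n 0 z (n 0 z (n 0 z (n 0 z
 z)))) (n 0 (n 0 z (n 0 z (n 0 z (n 0 z z)))) (n 0 (n 0 z (n 0 z (n 0 z (n 0 z z)))) (n 0 (n 0 z
 (n 0 z (n 0 z (n 0 z z)))) (n 0 (n 0 z (n 0 z (n 0 z (n 0 z z)))) (n 0 (n 0 z (n 0 z (n 0 (n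
 8787723 z (n
 0x30c30c0a038207e08208217e07e182081f8218208617e08207e07e082082082082082081f8218208208200801 z
 z)) (n 0 (n
 0x30ed0c2a078207e18207e181f82082182082081f8217e089f8607e086082086181f8208208218208208200801 z
 (n 0x30ed0eca037e082081f8207e08208208208208208618208208208208208208208208208608218208208200801
 z z)) z)))) (n 0 (n 0 z (n 0 (n 8787723 z (n
 0x1148738f6c80a86f8471785c939c7c7e78528eae76936c7b74a99f83a4986943a27ec07261b6275e6a8d817c839087e8749488766f0049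
 z z)) (n 0 (n 8787723 z (n
 0x30c70c0a037e182085e81e7e281f82086182182186185f7e17e086081f82082086082081f8218608207e10801 z
 z)) (n 0 (n
 0x30ed0eca037e07e18208218208208208208207df82082085f8207e082082082181f8208208208208208210801 z
 (n 0x30ed0eca037e07e08207e08207e08218208208208607e08608208208208208208208208208208208608200801
 z z)) z)))) (n 0 (n 0 z (n 0 z (n 0 z (n 0 z z)))) (n 0 (n 0 z (n 0 z (n 0 z (n 0 z z)))) (n 0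
 (n 0 z (n 0 z (n 0 z (n 0 z z)))) (n 0 (n 0 z (n 0 z (n 0 z (n 0 z z)))) (n 0 (n 0 z (n 0 z (n
 0 z (n 0 z z)))) (n 0 (n 0 z (n 0 z (n 0 z (n 0 z z)))) (n 0 (n 0 (n 8658995 z (n 8658995 z z))
 (n 0 z (n 0 (n 8658995 z (n 8658995 z z)) (n 0 (n 8658995 z (n 8658995 z z)) z)))) (n 0 (n 0 z
 (n 0 z (n 0 z (n 0 z z)))) (n 0 (n 0 z (n 0 z (n 0 z (n 0 z z)))) (n 0 (n 0 z (n 0 (n 8593763 z
 z) (n 0 (n 8593763 z z) (n 0 z z)))) (n 0 (n 0 (n 8593763 z z) (n 0 z (n 0 (n 8593763 z z) (n 0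
 z z)))) (n 0 (n 0 z (n 0 z (n 0 z (n 0 z z)))) (n 0 (n 0 z (n 0 z (n 0 z (n 0 z z)))) (n 0 (n 0
 z (n 0 (n 8594971 z z) (n 0 z (n 0 z z)))) (n 0 (n 0 z (n 0 z (n 0 (n
 0x1148758f6c80a86f8471785c939c7c7e78528eae76936c7b74a99f83a4986943a27ec07261b6275e6a8d817c839087e8749488766f0049
 z (n 8787723 z z)) (n 0 (n
 0x7b0e23c8718dc828b5b85b72c8de81c46cc50a1989bb76721c874f16fb52dad176156a897aa2c187ac9520081 z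
 (n 0x30e30c0a078218208207e081f8208208208208208607e08608207e08208208208208208208208208208200801
 z z)) z)))) (n 0 (n 0 z (n 0 z (n 0 z (n 0 z z)))) (n 0 (n 0 z (n 0 z (n 0 z (n 0 z z)))) (n 0
 (n 0 z (n 0 z (n 0 z (n 0 z z)))) (n 0 (n 0 z (n 0 z (n 0 z (n 0 z z)))) (n 0 (n 0 z (n 0 z (n
 0 z (n 0 z z)))) (n 0 (n 0 z (n 0 z (n 0 z (n 0 z z))))
 z)))))))))))))))))))))))))))))))))))))))))))))) (n 3 (n 0 (n 0 z (n 0 z (n 0 z (n 0 z z)))) (n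
 0 (n 0 z (n 0 z (n 0 z (n 0 z z)))) (n 0 (n 0 z (n 0 z (n 0 z (n 0 z z)))) (n 0 (n 0 z (n 0 z
 (n 0 z (n 0 z z)))) z)))) (n 231 (n 0 (n 0 z (n 0 z (n 0 z (n 0 z z)))) (n 0 (n 0 z (n 0 z (n 0
 z (n 0 z z)))) (n 0 (n 0 z (n 0 z (n 0 z (n 0 z z)))) (n 0 (n 0 z (n 0 z (n 0 z (n 0 z z))))
 z)))) (n 261 (n 0 (n 0 z (n 0 z (n 0 z (n 0 z z)))) (n 0 (n 0 z (n 0 z (n 0 z (n 0 z z)))) z))
 (n 141 (n 0 (n 0 z (n 0 z (n 0 z (n 0 z z)))) (n 0 (n 0 z (n 0 z (n 0 z (n 0 z z)))) (n 0 (n 0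
 z (n 0 z (n 0 z (n 0 z z)))) (n 0 (n 0 (n 8794643 z (n 8794643 z z)) (n 0 (n 8794643 z (n
 8794643 z z)) (n 0 z (n 0 (n 8794643 z (n 8794643 z z)) z)))) (n 0 (n 0 z (n 0 z (n 0 z (n 0 z
 z)))) (n 0 (n 0 z (n 0 z (n 0 z (n 0 z z)))) (n 0 (n 0 z (n 0 (n
 0x7b0e83c8748dc828b5b85b72c8de81c46cc50a1989bb76721c874f16fb52dad176156a897aa2c187ac9520081 z
 (n
 0x248748577818b94757d79878888807e7d60908d7a89777a7c8f897f849c61779571a2758d90667e847b8d8e73918397757892816a0049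
 z z)) (n 0 z (n 0 z z)))) (n 0 (n 0 z (n 0 (n
 0x7b0e83c8748dc828b5b85b72c8de81c46cc50a1989bb76721c874f16fb52dad176156a897aa2c187ac9520081 z
 z) (n 0 z (n 0 z z)))) (n 0 (n 0 z (n 0 z (n 0 z (n 0 z z)))) (n 0 (n 0 z (n 0 z (n 0 z (n 0 z
 z)))) (n 0 (n 0 z (n 0 z (n 0 z (n 0 z z)))) (n 0 (n 0 z (n 0 z (n 0 z (n 0 z z)))) (n 0 (n 0 z
 (n 0 z (n 0 z (n 0 z z)))) (n 0 (n 0 z (n 0 (n
 0x10ed0ec80786082082082082081f86082082082181f82081f8607e08208607e18208208218207e08608600801 z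
 z) (n 0 (n
 0x10ed0ec80786082082082082081f86082082082181f82081f8607e08208607e18208208218207e08608600801 z
 z) (n 0 z z)))) (n 0 (n 0 z (n 0 z (n 0 z (n 0 z z)))) (n 0 (n 0 z (n 0 z (n 0 z (n 0 z z))))
 (n 0 (n 0 z (n 0 z (n 0 z (n 0 z z)))) (n 0 (n 0 z (n 0 z (n 0 z (n 0 z z)))) (n 0 (n 0 z (n 0
 z (n 0 z (n 0 z z)))) (n 0 (n 0 z (n 0 z (n 0 z (n 0 (n 8855811 z (n 8855811 z z)) z)))) (n 0
 (n 0 (n 8794643 z (n 8794643 z z)) (n 0 (n 8794643 z (n 8794643 z z)) (n 0 z (n 0 (n 8855811 z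
 (n 8855811 z z)) z)))) (n 0 (n 0 z (n 0 (n 8787723 z z) (n 0 z (n 0 z z)))) (n 0 (n 0 z (n 0 z
 (n 0 z (n 0 z z)))) (n 0 (n 0 z (n 0 z (n 0 z (n 0 z z)))) (n 0 (n 0 (n 8794643 z z) (n 0 (n
 8794643 z z) (n 0 z (n 0 (n 8855811 z z) z)))) z))))))))))))))))))))))))) (n 5 (n 0 (n 0 z (n 0
 z (n 0 z (n 0 z z)))) (n 0 (n 0 z (n 0 z (n 0 z (n 0 z z)))) (n 0 (n 0 z (n 0 z (n 0 z (n 0 z
 z)))) (n 0 (n 0 z (n 0 z (n 0 (n 8787723 z z) (n 0 (n 2164827 z z) z)))) (n 0 (n 0 z (n 0 z (n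
 0 z (n 0 z z)))) (n 0 (n 0 z (n 0 z (n 0 z (n 0 z z)))) (n 0 (n 0 z (n 0 z (n 0 z (n 0 z z))))
 (n 0 (n 0 z (n 0 z (n 0 z (n 0 z z)))) (n 0 (n 0 z (n 0 z (n 0 z (n 0 z z)))) (n 0 (n 0 z (n 0
 z (n 0 z (n 0 z z)))) (n 0 (n 0 z (n 0 z (n 0 z (n 0 z z)))) (n 0 (n 0 z (n 0 z (n 0 z (n 0 z
 z)))) (n 0 (n 0 z (n 0 z (n 0 z (n 0 z z)))) (n 0 (n 0 z (n 0 z (n 0 z (n 0 z z))))
 z)))))))))))))) (n 4 (n 0 (n 0 z (n 0 z (n 0 z (n 0 z z)))) (n 0 (n 0 z (n 0 z (n 0 z (n 0 z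
 z)))) (n 0 (n 0 z (n 0 z (n 0 z (n 0 z z)))) (n 0 (n 0 z (n 0 z (n 0 (n 8726331 z (n
 0x30ed0ec0037e181f8208208208207e08208208208208208208208208208218208208208608218208208200801 z
 z)) (n 0 (n
 0x6b0e03487089d826adc85b7698de81e52ab5499b89cab1761c0c56d7365aaa157a05e8819aa2b5a7a99550081 z
 (n
 0x1873861203810a8e624038608218207e181f81f82182182081f8207e089f86082081f82086181f82081f8208208608601001
 z z)) z)))) (n 0 (n 0 z (n 0 z (n 0 (n 8658995 z (n 8658995 z z)) (n 0 z z)))) (n 0 (n 0 z (n 0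
 z (n 0 z (n 0 z z)))) (n 0 (n 0 z (n 0 z (n 0 z (n 0 z z)))) (n 0 (n 0 z (n 0 z (n 0 (n
 0x30a8e6040382182085f8208218208208218208208207e07e08208208208207e08207e08208208208208200801 z
 (n 0x10a8e6040382082185f8208218208208218208208208208208208208208217e08208208608208208208200801
 z z)) (n 0 (n
 0x248708577818b94757d79878888807e7d60908d7a89777a7c8f897f849c61779571a2758d90667e847b8d8e73918397757892816a0049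
 z (n
 0x1148708f6c80a86f8471785c939c7c7e78528eae76936c7b74a99f83a4986943a27ec07261b6275e6a8d817c839087e8749488766f0049
 z z)) z)))) (n 0 (n 0 z (n 0 z (n 0 z (n 0 z z)))) (n 0 (n 0 z (n 0 z (n 0 z (n 0 (n
 0x7b0e03c8708dc828b5b85b72c8de81c46cc50a1989bb76721c874f16fb52dad176156a897aa2c187ac9520081 z
 (n
 0x248708577818b94757d79878888807e7d60908d7a89777a7c8f897f849c61779571a2758d90667e847b8d8e73918397757892816a0049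
 z z)) z)))) (n 0 (n 0 z (n 0 z (n 0 z (n 0 z z)))) (n 0 (n 0 z (n 0 z (n 0 z (n 0 z z)))) (n 0
 (n 0 z (n 0 z (n 0 z (n 0 (n
 0x6b0e03487089d827a9c85c72a89e81d4eab5499a85cab1761bcc56d7375eaa547a15e8899a62b5a7a99550081 z
 z) z)))) (n 0 (n 0 z (n 0 z (n 0 z (n 0 z z)))) z)))))))))))))) (n 467 (n 0 (n 0 z (n 0 z (n 0
 z (n 0 z z)))) (n 0 (n 0 z (n 0 z (n 0 z (n 0 z z)))) (n 0 (n 0 (n 8794643 z (n 8794643 z z))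
 (n 0 (n 8794643 z (n 8794643 z z)) (n 0 (n 8794643 z (n 8794643 z z)) (n 0 (n 8794643 z (n
 8794643 z z)) z)))) (n 0 (n 0 z (n 0 z (n 0 z (n 0 z z)))) (n 0 (n 0 z (n 0 z (n 0 z (n 0 z
 z)))) (n 0 (n 0 z (n 0 z (n 0 z (n 0 z z)))) (n 0 (n 0 z (n 0 z (n 0 z (n 0 z z)))) (n 0 (n 0
 (n
 0x44873857c818aa4778d767f96897d7f795699976691677f719c9f7c85ab4f68ae6bc366949d5e6e8b75918165967cb465829f78630049
 z (n
 0x1c87380a7e880181b8347e980d7f980282a80f7fe7ff7ec7a58358347d58187d77e67e58338348038108597937ce8567d58827d88378367c07da8097f182380c7bf82e7f08677ce80c8387ed7ce0051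
 z z)) (n 0 z (n 0 z (n 0 (n
 0x30a908240785c8206646df5a37e07e499a8608708eb6a66997de81a99469b9ec8a462596d82a2a64a489a0801 z
 (n 0x30e90a84037df8217e085f82282081f8208217e08208607e08208608208608218207e082082086081f8200801
 z z)) z)))) (n 0 (n 0 z (n 0 z (n 0 z (n 0 z z)))) (n 0 (n 0 (n
 0x2c873847d81889d798a787f91877d7f7b5e93926b8e6d7f7496987d84a3596da570b46b9096657188778e816a927daa6b82987a690049
 z z) (n 0 z (n 0 z (n 0 (n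
 0x908708240385828077748877836d7f7a7b829196737684889593956c836c687b81857c8262727d7e97908c748f8f9e7fa355885f89856f0809
 z z) z)))) (n 0 (n 0 z (n 0 z (n 0 z (n 0 z z)))) (n 0 (n 0 z (n 0 z (n 0 z (n 0 z z))))
 z)))))))))))) (n 691 (n 0 (n 0 z (n 0 z (n 0 z (n 0 z z)))) (n 0 (n 0 z (n 0 z (n 0 z (n 0 z
 z)))) (n 0 (n 0 z (n 0 z (n 0 z (n 0 z z)))) (n 0 (n 0 z (n 0 z (n 0 z (n 0 z z)))) z)))) (n
 466 (n 0 (n 0 z (n 0 z (n 0 z (n 0 z z)))) (n 0 (n 0 z (n 0 z (n 0 z (n 0 z z)))) (n 0 (n 0 z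
 (n 0 z (n 0 z (n 0 z z)))) (n 0 (n 0 z (n 0 (n 8525131 z (n 8525131 z z)) (n 0 z (n 0 z z))))
 (n 0 (n 0 z (n 0 (n
 0x44871857c818aa4778d767f96897d7f795699976691677f719c9f7c85ab4f68ae6bc366949d5e6e8b75918165967cb465829f78630049
 z z) (n 0 z (n 0 z z)))) (n 0 (n 0 z (n 0 z (n 0 z (n 0 z z)))) (n 0 (n 0 z (n 0 (n
 0xea90860030821 z z) (n 0 (n
 0x30a4ea08078208208607df82081f8218218208208208208218208608208208218208208208208208208200801 z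
 z) (n 0 z z)))) (n 0 (n 0 z (n 0 z (n 0 z (n 0 z z)))) (n 0 (n 0 z (n 0 z (n 0 z (n 0 z z))))
 (n 0 (n 0 z (n 0 z (n 0 z (n 0 z z)))) (n 0 (n 0 z (n 0 z (n 0 z (n 0 z z)))) (n 0 (n 0 z (n 0
 z (n 0 z (n 0 z z)))) (n 0 (n 0 z (n 0 z (n 0 z (n 0 z z)))) (n 0 (n 0 z (n 0 z (n 0 z (n 0 z
 z)))) (n 0 (n 0 z (n 0 z (n 0 z (n 0 z z)))) (n 0 (n 0 z (n 0 z (n 0 z (n 0 z z)))) (n 0 (n 0 z
 (n 0 (n 8787723 z z) (n 0 (n 8787723 z z) (n 0 z z)))) (n 0 (n 0 z (n 0 z (n 0 (n 8726331 z (n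
 0x30a90a80038207df85f7e17e18208208208208208618208217e18208207e08218208208208218208208200801 z
 z)) (n 0 (n
 0x4c8748087da80582084b7da7f67ee82181c81b8008027ec78984481e7e88197e77c77fb84080481881485f7ab7df8417d98827e38148407a98048067f58148357c48317ef85d7d08038347f77c80051
 z (n
 0x30a90a80038207df85f7e17e18208208208208208618208217e18208207e08218208208208218208208200801 z
 z)) z)))) (n 0 (n 0 z (n 0 z (n 0 z (n 0 z z)))) (n 0 (n 0 (n 8658995 z z) (n 0 z (n 0 (n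
 8658995 z z) (n 0 z z)))) (n 0 (n 0 z (n 0 (n 8872731 z (n 8872731 z z)) (n 0 (n
 0x7b0e23487189d827a9c85c72a89f81d52ab9399b89cab1761bcc5ae7365eaa157a05e8858a62b5a7a99550081 z
 (n 0x30870860038207e181f82181f8208608208217df82182081f8607e08208208218208208608218207e08200801
 z z)) (n 0 (n
 0x248708577818b94757d79878888807e7d60908d7a89777a7c8f897f849c61779571a2758d90667e847b8d8e73918397757892816a0049
 z (n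
 0x30870860038207e181f82181f8208608208217df82182081f8607e08208208218208208608218207e08200801 z
 z)) z)))) (n 0 (n 0 z (n 0 z (n 0 z (n 0 z z)))) (n 0 (n 0 z (n 0 z (n 0 z (n 0 (n 8658995 z z)
 z)))) (n 0 (n 0 z (n 0 (n 8728947 z (n 8872731 z z)) (n 0 (n 8525131 z (n 8525131 z z)) (n 0 (n
 8525131 z (n 8525131 z z)) z)))) (n 0 (n 0 (n
 0x44873857c818aa4778d767f96897d7f795699976691677f719c9f7c85ab4f68ae6bc366949d5e6e8b75918165967cb465829f78630049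
 z z) (n 0 z (n 0 z (n 0 (n
 0x90870820039a079e95f72282385f7e65e1a1aaa48e17686d6adb7277e06e69a399c5acba18e275e6296d90801 z
 z) z)))) (n 0 (n 0 (n 8728947 z (n 8726331 z z)) (n 0 (n 8728947 z (n
 0x7b0e23c8718dc828b5b85b72c8de81c46cc50a1989bb76721c874f16fb52dad176156a897aa2c187ac9520081 z
 z)) (n 0 z (n 0 (n
 0x248708577818b94757d79878888807e7d60908d7a89777a7c8f897f849c61779571a2758d90667e847b8d8e73918397757892816a0049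
 z (n
 0x82c188fc8318d64899ae8434d49e06c947e797f3ab76c889b9f799ba3438b83b77a9b7981a0795ea750e87c578fc86b986f5e7b3f8cb2670089
 z z)) z)))) (n 0 (n 0 z (n 0 z (n 0 z (n 0 z z)))) (n 0 (n 0 z (n 0 z (n 0 z (n 0 z z)))) (n 0
 (n 0 z (n 0 z (n 0 z (n 0 z z)))) z))))))))))))))))))))))))))))) (n 3 (n 0 (n 0 z (n 0 z (n 0 z
 (n 0 z z)))) (n 0 (n 0 z (n 0 z (n 0 z (n 0 z z)))) (n 0 (n 0 z (n 0 z (n 0 z (n 0 z z)))) (n 0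
 (n 0 z (n 0 z (n 0 z (n 0 z z)))) (n 0 (n 0 z (n 0 z (n 0 z (n 0 z z)))) (n 0 (n 0 z (n 0 z (n
 0 z (n 0 z z)))) (n 0 (n 0 z (n 0 z (n 0 z (n 0 z z)))) (n 0 (n 0 z (n 0 z (n 0 z (n 0 z z))))
 z)))))))) (n 1 (n 0 (n 0 z (n 0 z (n 0 z (n 0 z z)))) (n 0 (n 0 z (n 0 z (n 0 z (n 0 z z)))) (n
 0 (n 0 z (n 0 z (n 0 z (n 0 z z)))) (n 0 (n 0 z (n 0 z (n 0 z (n 0 z z)))) (n 0 (n 0 z (n 0 z
 (n 0 z (n 0 z z)))) (n 0 (n 0 z (n 0 z (n 0 (n 8865051 z (n 8865051 z z)) (n 0 (n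
 0x248708577818b94757d79878888807e7d60908d7a89777a7c8f897f849c61779571a2758d90667e847b8d8e73918397757892816a0049
 z (n
 0x1148708f6c80a86f8471785c939c7c7e78528eae76936c7b74a99f83a4986943a27ec07261b6275e6a8d817c839087e8749488766f0049
 z z)) z)))) (n 0 (n 0 (n 8658995 z (n 8658995 z z)) (n 0 z (n 0 (n 8658995 z (n 8658995 z z))
 (n 0 z z)))) (n 0 (n 0 z (n 0 (n 8794643 z (n 8794643 z z)) (n 0 (n 8794643 z (n 8794643 z z))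
 (n 0 (n 8794643 z (n 8794643 z z)) z)))) (n 0 (n 0 z (n 0 z (n 0 z (n 0 z z)))) (n 0 (n 0 z (n
 0 z (n 0 z (n 0 z z)))) z)))))))))) (n 0 (n 0 (n 0 z (n 0 z (n 0 z (n 0 z z)))) (n 0 (n 0 z (n
 0 z (n 0 z (n 0 z z)))) (n 0 (n 0 z (n 0 (n 8787723 z z) (n 0 z (n 0 z z)))) (n 0 (n 0 z (n 0 z
 (n 0 z (n 0 z z)))) z)))) z))))))))))))))))))))) z)))) z) z)))) (n
 0xb6a945889a12855a2c4e316a91850a8d08536902934a045db500d2840 (n 0x1a50a (n 441 (n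
 0xcca8a8240775718089877c716f796c9d738e9b738370937c89648b80888e6b8079708180777ca2778b747880847f738588837b8d807b7f0809
 z (n
 0x18ca8a824076b668295878167646359b2689aaf6a7d66a275994b9d7996995283756e7f7c6f7db56c9063778683746a85988e7ba5807a7f0809
 z (n 0 z (n 2 z (n
 0xeca8a824077468817b8680687c877eb66f8078767e90859d94858f788a73788280857681588f7d7483828d8e6b9197808159835883867d0809
 z (n 0 z (n 10 z (n 0 z (n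
 0x1cca8a824038158087f184480f8057ec8107cc7db7968188468578168117358407888167b180e81d7ef8328027e28007f782c7ec81d7fd8307fd80e7b67e07ff8147c07f67ff82682d7e884b8177ef7fc0811
 z (n 0 z (n 6623299 z (n 6623299 z (n 6623299 z (n 6488603 z (n 6488603 z z))))))))))))))) (n
 33 (n 0 z (n 18 z (n 0 z (n 6623299 z (n 0 z (n 0 z z)))))) (n 9 (n
 0x4ca8ca80078281818083807e808180807e80807f807f80808080807f808080828081818180807f80807f7f7f7f808080808080807f80810809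
 z (n 26 z (n
 0x246417f767c928780767f73797c8192987b8156976a866785897c8a7c8181738281857f8d8685717c77897175808a947f96817e7f0049
 z (n
 0x31b208826417f82875e787c8473a7b8b46e575e7490e856b869b76c8d91508d8d887f648b648353977bb4888077ba948a475e881d668b810089
 z (n 0 z (n 3212843 z (n 0 z z))))))) (n 3 (n 34 z (n 6488603 z (n 0 z z))) (n 1 (n
 0x299514c480e1aca8a60407727a8461827a6d4daf86c75a6a6c8c88b472b0958793af7e7c8f888e7e578b259255747f9d969656c8d1767e25a018699b841009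
 z (n 0 z (n 42 z (n 50 z (n 2164299 z (n 0 z (n
 0x22ca6ca64078128048068148188007e07f48027d57cd7eb83283681680b77e8237d48247ea81582c7d08308188078008008008037e18087fe7f37f47d97f48097f67d98167ff81d8137f482880c7f77ff0811
 z (n 58 z (n 0 z z))))))))) (n 0 (n 66 z (n 6623299 z (n
 0x246107f767c928780767f73797c8192987b8156976a866785897c8a7c8181738281857f8d8685717c77897175808a947f96817e7f0049
 z (n 74 z (n 0 z (n 82 z (n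
 0x246407f767c928780767f73797c8192987b8156976a866785897c8a7c8181738281857f8d8685717c77897175808a947f96817e7f0049
 z (n
 0x8c86c8420382747e95837e79827b726e7ba1ae8a8e3d8f5f854587837198757c7c73947c937ba38b856b6c7e8f6e63808ba172b28476800809
 z (n
 0x31b208826417f82875e787c8473a7b8b46e575e7490e856b869b76c8d91508d8d887f648b648353977bb4888077ba948a475e881d668b810089
 z z))))))))) z)))))) (n 3 (n 0 (n 0 z (n 179 (n 0 z (n 0 z (n 0 z (n 0 z (n 0 z (n 0 z (n 0 z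
 (n 0 z (n 0 z (n 0 z (n 0 z (n 0 z (n 0 z (n 0 z (n 0 z (n 0 z (n 0 z (n 0 z (n 0 z (n 0 z (n 0
 z (n 0 z z)))))))))))))))))))))) (n 19 (n 0 z (n 0 z (n 0 z (n 0 z (n 0 z (n 0 z (n 0 z (n 0 z
 (n 0 z (n 0 z (n 0 z (n 0 z (n 0 z (n 0 z (n 0 z (n 0 z (n 0 z (n 0 z (n 0 z (n 0 z (n 0 z (n 0
 z (n 0 z (n 0 z (n 0 z z))))))))))))))))))))))))) (n 33 (n 0 z (n 0 z (n 0 z (n 0 z (n 0 z (n 0
 z (n 0 z (n 0 z z)))))))) (n 21 (n 0 z (n 0 z (n 0 z (n 0 z (n 0 z (n 0 z (n 0 z z))))))) (n 21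
 (n 0 z (n 0 z (n 0 z (n 0 z (n 0 z (n 2 (n 0 z (n 2 (n 0 z (n 0 z (n 0 z (n 0 z (n 0 z (n 0 (n
 8798259 z z) z)))))) (n 2 (n 0 z (n 0 z (n 0 z (n 0 z (n 0 z (n 0 z z)))))) (n 1 z z)))) (n 0 z
 z))))))) (n 21 (n 0 z (n 0 z (n 2 (n 1 z (n 2 (n 0 z (n 0 z (n 0 z (n 0 z (n 0 z (n 0 z z))))))
 (n 1 z z))) (n 0 z (n 0 z (n 0 z (n 0 z z))))))) (n 17 (n 0 z (n 0 z (n 0 z (n 0 z (n 0 z (n 0
 z (n 0 z (n 0 z (n 0 z (n 0 z (n 0 z (n 0 z (n 0 z (n 0 z (n 0 z (n 0 z (n 0 z (n 0 z (n 0 z (n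
 0 z (n 0 z (n 0 z (n 0 z (n 0 z (n 0 z (n 0 z (n 0 z (n 0 z z)))))))))))))))))))))))))))) (n 17
 (n 0 z (n 0 z (n 0 z (n 0 z (n 0 z (n 0 z (n 0 z (n 0 z (n 0 z (n 0 z (n 0 z (n 0 z (n 0 z (n 0
 z (n 0 z (n 0 z (n 0 z (n 0 z (n 0 z (n 0 z (n 0 z (n 0 z (n 0 z (n 0 z (n 0 z (n 0 z (n 0 z (n
 0 z z)))))))))))))))))))))))))))) (n 17 (n 0 z (n 0 z (n 0 z (n 0 z (n 0 z (n 0 z (n 0 z (n 0 z
 (n 0 z (n 0 z (n 0 z (n 0 z (n 0 z (n 0 z (n 0 z (n 2 z (n 0 z (n 0 z (n 0 z (n 0 z (n 0 z (n 0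
 z (n 0 z (n 0 z (n 0 z (n 0 z (n 0 z (n 0 z z)))))))))))))))))))))))))))) z)))))))))) (n 0 (n
 897 (n 0 z (n 0 z (n 0 z (n 2 (n 1 z (n 1 z (n 1 z (n 1 z (n 1 z (n 1 z (n 2 (n 0 z (n 0 z (n 0
 z (n 0 z (n 0 z (n 0 z z)))))) (n 1 z z)))))))) (n 0 z (n 0 z z)))))) (n 43 (n 0 z (n 0 z (n 0
 z (n 2 (n 2 (n 0 z (n 0 z (n 0 z (n 0 z (n 0 z (n 0 (n 8860683 z z) z)))))) (n 2 (n 0 z (n 0 z
 (n 0 z (n 0 z (n 0 z (n 0 (n 8863795 z z) z)))))) (n 1 z (n 1 z (n 1 z (n 2 (n 0 z (n 0 z (n 0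
 z (n 0 z (n 0 z (n 0 z z)))))) (n 1 z z))))))) (n 0 z (n 0 z (n 0 z (n 0 z (n 0 z (n 0 z (n 0 z
 (n 0 z (n 0 z (n 0 z (n 0 z (n 0 z (n 0 z z))))))))))))))))) (n 39 (n 0 z (n 2 (n 2 (n 0 z (n 0
 z (n 0 z (n 0 z (n 0 z (n 0 z z)))))) (n 1 z (n 1 z (n 2 (n 0 z (n 0 z (n 0 z (n 0 z (n 0 z (n
 0 z z)))))) (n 2 (n 0 z (n 0 z (n 0 z (n 0 z (n 0 z (n 0 z z)))))) (n 1 z z)))))) (n 0 z (n 0 z
 (n 0 z (n 0 z (n 0 z (n 0 z (n 0 z (n 0 z (n 0 z z))))))))))) (n 41 (n 0 z (n 0 z (n 2 (n 0 z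
 (n 0 z (n 2 (n 0 z (n 0 z (n 0 z (n 0 z (n 0 z (n 0 z z)))))) (n 2 (n 0 z (n 0 z (n 0 z (n 0 z
 (n 0 z (n 0 z z)))))) (n 1 z z))))) (n 0 z (n 0 z (n 0 z (n 0 z (n 0 z z)))))))) (n 41 (n 0 z
 (n 0 z (n 0 z (n 0 z (n 0 z (n 0 z (n 0 z (n 0 z z)))))))) (n 41 (n 0 z (n 0 z (n 0 z (n 0 z (n
 0 z (n 2 (n 1 z (n 1 z (n 1 z z))) (n 0 z (n 0 z z)))))))) (n 881 (n 0 z (n 0 z (n 0 z (n 2 (n
 0 z (n 0 z z)) (n 0 z (n 0 z (n 0 z (n 0 z (n 0 z (n 0 z (n 0 z (n 0 z (n 0 z (n 0 z (n 0 z (n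
 0 z (n 0 z z))))))))))))))))) (n 881 (n 0 z (n 2 (n 0 z z) (n 0 z (n 0 z (n 0 z (n 0 z (n 0 z
 (n 0 z (n 0 z (n 0 z (n 0 z (n 0 z (n 0 z (n 0 z (n 0 z (n 0 z (n 0 z z))))))))))))))))) (n 881
 (n 0 z (n 0 z (n 0 z (n 0 z (n 0 z (n 0 z (n 0 z (n 0 z (n 0 z (n 0 z (n 0 z (n 0 z (n 0 z (n 0
 z (n 0 z (n 0 z (n 0 z z))))))))))))))))) z))))))))) (n 0 (n 363 (n 0 z (n 0 z (n 0 z (n 0 z (n
 0 z (n 0 z (n 0 z (n 0 z z)))))))) (n 55 (n 0 z (n 0 z (n 0 z (n 0 z z)))) (n 63 (n 0 z (n 0 z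
 (n 0 z (n 0 z (n 0 z (n 0 z (n 0 z (n 0 z (n 0 z (n 0 z (n 0 z z))))))))))) (n 63 (n 0 z (n 0 z
 (n 2 (n 0 z (n 1 z (n 2 (n 0 z (n 0 z (n 0 z (n 0 z (n 0 z (n 0 z z)))))) (n 1 z z)))) (n 0 z
 (n 0 z (n 0 z (n 0 z (n 0 z (n 0 z (n 0 z (n 0 z z))))))))))) (n 63 (n 0 z (n 0 z (n 0 z (n 0 z
 (n 0 z (n 0 z (n 0 z (n 0 z (n 2 (n 1 z (n 2 (n 0 z (n 0 z (n 0 z (n 0 z (n 0 z (n 0 (n 244 z
 z) z)))))) (n 1 z z))) (n 0 z (n 0 z z))))))))))) (n 61 (n 0 z (n 0 z (n 0 z (n 0 z (n 0 z (n 0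
 z (n 0 z (n 0 z (n 0 z (n 0 z (n 0 z (n 0 z z)))))))))))) (n 61 (n 0 z (n 0 z (n 0 z (n 0 z (n
 0 z (n 0 z (n 0 z (n 0 z (n 0 z (n 0 z (n 0 z (n 0 z z)))))))))))) (n 61 (n 0 z (n 0 z (n 0 z
 (n 0 z (n 0 z (n 0 z (n 0 z (n 2 z (n 0 z (n 0 z (n 0 z (n 0 z z)))))))))))) z)))))))) (n 0 (n
 295 (n 0 z (n 0 z (n 0 z (n 0 z (n 0 z z))))) (n 291 (n 0 z (n 0 z (n 0 z (n 0 z (n 0 z (n 0 z
 (n 0 z (n 0 z (n 0 z (n 0 z (n 0 z (n 0 z (n 0 z (n 0 z (n 0 z z))))))))))))))) (n 291 (n 0 z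
 (n 0 z (n 0 z (n 0 z (n 2 (n 0 z (n 1 z (n 2 (n 0 z (n 0 z (n 0 z (n 0 z (n 0 z (n 0 z z))))))
 (n 1 z z)))) (n 0 z (n 0 z (n 0 z (n 0 z (n 0 z (n 0 z (n 0 z (n 0 z (n 0 z (n 0 z
 z))))))))))))))) (n 291 (n 0 z (n 0 z (n 0 z (n 0 z (n 0 z (n 0 z (n 0 z (n 0 z (n 0 z (n 2 (n
 1 z (n 2 (n 0 z (n 0 z (n 0 z (n 0 z (n 0 z (n 0 z z)))))) (n 1 z z))) (n 0 z (n 0 z (n 0 z (n
 0 z (n 0 z z))))))))))))))) (n 289 (n 0 z (n 0 z (n 0 z (n 0 z (n 0 z (n 0 z (n 0 z (n 0 z (n 0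
 z (n 0 z (n 0 z (n 0 z (n 0 z (n 0 z z)))))))))))))) (n 289 (n 0 z (n 0 z (n 0 z (n 0 z (n 0 z
 (n 0 z (n 0 z (n 0 z (n 2 (n 0 z z) (n 0 z (n 0 z (n 0 z (n 0 z (n 0 z z)))))))))))))) (n 289
 (n 0 z (n 0 z (n 0 z (n 0 z (n 0 z (n 0 z (n 0 z (n 0 z (n 0 z (n 2 z (n 0 z (n 0 z (n 0 z (n 0
 z z)))))))))))))) z))))))) (n 0 (n 255 (n 0 z (n 0 z (n 0 z (n 0 z (n 0 z (n 0 z (n 0 z (n 0 z
 (n 0 z (n 0 z (n 0 z z))))))))))) (n 255 (n 0 z (n 0 z (n 2 (n 0 z (n 2 (n 0 z (n 0 z (n 0 z (n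
 0 z (n 0 z (n 0 (n 8795147 z z) z)))))) (n 2 (n 0 z (n 0 z (n 0 z (n 0 z (n 0 z (n 0 z z))))))
 (n 1 z z)))) (n 0 z (n 0 z (n 0 z (n 0 z (n 0 z (n 0 z (n 0 z (n 0 z z))))))))))) (n 255 (n 0 z
 (n 0 z (n 0 z (n 0 z (n 0 z (n 0 z (n 0 z (n 0 z (n 0 z (n 2 (n 1 z (n 2 (n 0 z (n 0 z (n 0 z
 (n 0 z (n 0 z (n 0 z z)))))) (n 1 z z))) (n 0 z z))))))))))) (n 253 (n 0 z (n 0 z (n 0 z (n 0 z
 (n 0 z (n 0 z (n 0 z (n 0 z (n 0 z (n 0 z (n 0 z (n 0 z (n 0 z (n 0 z (n 0 z (n 0 z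
 z)))))))))))))))) (n 253 (n 0 z (n 0 z (n 0 z (n 0 z (n 0 z (n 0 z (n 0 z (n 2 (n 0 z z) (n 0 z
 (n 0 z (n 0 z (n 0 z (n 0 z (n 0 z (n 0 z (n 0 z z)))))))))))))))) (n 253 (n 0 z (n 0 z (n 0 z
 (n 0 z (n 0 z (n 0 z (n 0 z (n 0 z (n 0 z (n 2 z (n 0 z (n 0 z (n 0 z (n 0 z (n 0 z (n 0 z
 z)))))))))))))))) z)))))) (n 0 (n 0 z (n 0 z (n 265 (n 0 z (n 0 z (n 0 z (n 0 z (n 0 z (n 0 z
 (n 0 z (n 0 z (n 0 z (n 0 z (n 0 z (n 0 z (n 0 z (n 0 z (n 0 z (n 0 z (n 0 z (n 0 z (n 0 z (n 0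
 z (n 0 z (n 0 z (n 0 z (n 0 z (n 0 z (n 0 z (n 0 z (n 0 z (n 0 z (n 0 z (n 0 z (n 0 z (n 0 z (n
 0 z (n 0 z (n 0 z (n 0 z (n 0 z (n 0 z (n 0 z (n 0 z (n 0 z (n 0 z (n 0 z (n 0 z (n 0 z
 z)))))))))))))))))))))))))))))))))))))))))))))) (n 265 (n 0 z (n 0 z (n 0 z (n 0 z (n 0 z (n 0
 z (n 0 z (n 0 z (n 0 z (n 0 z (n 0 z (n 0 z (n 0 z (n 0 z (n 0 z (n 0 z (n 0 z (n 0 z (n 0 z (n
 0 z (n 0 z (n 0 z (n 0 z (n 0 z (n 0 z (n 0 z (n 0 z (n 0 z (n 0 z (n 0 z (n 0 z (n 0 z (n 0 z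
 (n 0 z (n 0 z (n 0 z (n 0 z (n 0 z (n 0 z (n 0 z (n 0 z (n 0 z (n 0 z (n 0 z (n 0 z (n 0 z
 z)))))))))))))))))))))))))))))))))))))))))))))) (n 265 (n 0 z (n 0 z (n 0 z (n 0 z (n 0 z (n 0
 z (n 0 z (n 0 z (n 0 z (n 0 z (n 0 z (n 0 z (n 0 z (n 0 z (n 0 z (n 0 z (n 0 z (n 0 z (n 0 z (n
 0 z (n 0 z (n 0 z (n 0 z (n 0 z (n 0 z (n 0 z (n 0 z (n 0 z (n 0 z (n 0 z (n 0 z (n 0 z (n 2 z
 (n 0 z (n 0 z (n 0 z (n 0 z (n 0 z (n 0 z (n 0 z (n 0 z (n 0 z (n 0 z (n 0 z (n 0 z (n 0 z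
 z)))))))))))))))))))))))))))))))))))))))))))))) z))))) (n 0 (n 0 z (n 1 (n 0 z (n 2 (n 0 z (n 0
 z z)) (n 0 z (n 0 z (n 0 z (n 0 z (n 0 z (n 0 z (n 0 z (n 0 z (n 0 z z))))))))))) (n 1 (n 0 z
 (n 0 z (n 2 (n 0 z z) (n 0 z (n 0 z (n 0 z (n 0 z (n 0 z (n 0 z (n 0 z (n 0 z z))))))))))) (n 1
 (n 0 z (n 0 z (n 0 z (n 0 z (n 0 z (n 0 z (n 0 z (n 0 z (n 0 z (n 0 z (n 0 z z))))))))))) z))))
 (n 0 (n 1 (n 0 z (n 0 z (n 0 z (n 0 z (n 2 (n 0 z (n 0 z z)) (n 0 z (n 0 z (n 0 z (n 0 z (n 0 z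
 (n 0 z (n 0 z z)))))))))))) (n 1 (n 2 (n 0 z z) (n 0 z (n 0 z (n 0 z (n 0 z (n 0 z (n 0 z (n 0
 z (n 0 z (n 0 z (n 0 z (n 0 z z)))))))))))) (n 1 (n 0 z (n 0 z (n 2 z (n 0 z (n 0 z (n 0 z (n 0
 z (n 0 z (n 0 z (n 0 z (n 0 z (n 0 z z)))))))))))) z))) (n 0 (n 0 z (n 0 z z)) (n 0 (n 0 z z)
 (n 0 z z))))))))))) (n 0 (n 1 (n 3532 z (n 2 z (n 3532 z (n 3532 z (n 3532 z (n 3532 z z))))))
 (n 1 (n 6488603 z (n 6488603 z (n 6488603 z (n 6488603 z (n 6488603 z (n 6488603 z z)))))) (n 0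
 z z))) (n 0 (n 0x62daa56c5aa494589c6eda80 (n 0 (n 0 (n 7749683 z (n 7749683 z (n 7749683 z (n
 7749683 z (n 7749683 z (n 7749683 z z)))))) z) (n 0 (n 10 (n 1 (n 7749683 z (n 7749683 z (n
 7749683 z (n 7749683 z (n 7749683 z (n 7749683 z z)))))) (n 1 (n 3532 z (n 3532 z (n 3532 z (n
 7671875 z (n 6637355 z (n 3532 z z)))))) (n 1 (n 3532 z (n 3532 z (n 3532 z (n 7671875 z (n
 3532 z (n 3532 z z)))))) (n 1 (n 3532 z (n 3532 z (n 3532 z (n 7671875 z (n 3532 z (n 3532 z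
 z)))))) (n 1 (n
 0xcea8a8240775718089877c716f796c9d738e9b738370937c89648b80888e6b8079708180777ca2778b747880847f738588837b8d807b7f0809
 z (n 716 z (n 3532 z (n 7671875 z (n 4396843 z (n 3532 z z)))))) (n 1 (n 3532 z (n 3532 z (n
 3532 z (n 7671875 z (n 2 z (n 3532 z z)))))) (n 1 (n 7749683 z (n 7749683 z (n 7749683 z (n
 7749683 z (n 7749683 z (n 7749683 z z)))))) z))))))) (n 27 (n 0 z (n 1 (n 7671875 z (n 7749683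
 z (n 7671875 z (n 7671875 z (n 7671875 z (n 7671875 z z)))))) (n 1 (n 7614563 z (n 7749683 z (n
 7614563 z (n 7614563 z (n 7614563 z (n 7614563 z z)))))) (n 0 z z)))) (n 147 (n 1 (n 7614563 z
 (n 7749683 z (n 7614563 z (n 7614563 z (n 7614563 z (n 7614563 z z)))))) (n 1 (n 2188 z (n
 7749683 z (n 7754507 z (n 7603771 z (n
 0x29ba086a741808286647a7d84779facaa715f64768dd35ead6ead728a8d598b8a88806a8969835c927caa868079ae9087526586316c89810089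
 z (n 2188 z z)))))) (n 0 z (n 1 (n 7754507 z (n 7749683 z (n 4392747 z (n 5506859 z (n 5506859
 z (n 5506859 z z)))))) (n 1 (n 7754507 z (n 7749683 z (n 3213099 z (n 4261675 z (n 4261675 z (n
 4261675 z z)))))) z))))) (n 3 (n 1 (n 7746571 z (n 7614563 z (n 7746571 z (n 7746571 z (n
 7746571 z (n 7746571 z z)))))) (n 1 (n 7746571 z (n 7614563 z (n 7746571 z (n 7746571 z (n
 7746571 z (n 7746571 z z)))))) (n 0 z z))) (n 521 (n 1 (n 7749683 z (n 7749683 z (n 7749683 z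
 (n 7749683 z (n 7749683 z (n 7749683 z z)))))) (n 1 (n 7754507 z (n 268 z (n 268 z (n 7542283 z
 (n 268 z (n 268 z z)))))) (n 1 (n 268 z (n 268 z (n 10 z (n 7542283 z (n 7754507 z (n 268 z
 z)))))) (n 1 (n 7542283 z (n 268 z (n 268 z (n 7754507 z (n 268 z (n 268 z z)))))) (n 1 (n
 7542283 z (n 268 z (n 7754507 z (n 268 z (n 268 z (n 268 z z)))))) (n 1 (n 268 z (n 268 z (n
 7542283 z (n 18 z (n 7754507 z (n 268 z z)))))) (n 1 (n 7749683 z (n 7749683 z (n 7749683 z (n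
 7749683 z (n 7749683 z (n 7749683 z z)))))) z))))))) (n 0 (n 1 (n 7749683 z (n 7749683 z (n
 7749683 z (n 7749683 z (n 7749683 z (n 7749683 z z)))))) (n 1 (n 7671875 z (n 7671875 z (n
 7671875 z (n 7671875 z (n 7671875 z (n 7671875 z z)))))) (n 1 (n 6498075 z (n 7614563 z (n
 7603771 z (n 7542283 z (n
 0x247107f767c928780767f73797c8192987b8156976a866785897c8a7c8181738281857f8d8685717c77897175808a947f96817e7f0049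
 z (n 5132 z z)))))) (n 1 (n 7542283 z (n 7614563 z (n 5132 z (n 6555435 z (n 5132 z (n 5132 z
 z)))))) (n 0 z (n 1 (n 5132 z (n 7614563 z (n 26 z (n 7542283 z (n 6566515 z (n 5132 z z))))))
 (n 1 (n 7542283 z (n 7614563 z (n 5132 z (n 7603771 z (n 5132 z (n 5132 z z)))))) (n 1 (n 5132
 z (n 7614563 z (n 5132 z (n 7542283 z (n 7603771 z (n 5132 z z)))))) (n 1 (n 5132 z (n 7614563
 z (n 7542283 z (n
 0x31ba08827417f82875e787c8473a7b8b46e575e7490e856b869b76c8d91508d8d887f648b648353977bb4888077ba948a475e881d668b810089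
 z (n 7603771 z (n 5132 z z)))))) z))))))))) (n 3 (n 1 (n 7746571 z (n 7749683 z (n 7746571 z (n
 7746571 z (n 7746571 z (n 7746571 z z)))))) (n 1 (n 7746571 z (n 7749683 z (n 7746571 z (n
 7746571 z (n 7746571 z (n 7746571 z z)))))) (n 0 z z))) z))))))) (n 0 (n 0 (n 0 z (n 0 z (n 0 z
 (n 0 z z)))) (n 0 (n 0 z (n 0 z (n 0 z z))) (n 0 (n 0 z (n 0 z z)) (n 0 (n 0 z z) z)))) (n 0 (n
 209 (n 0 (n 0 z (n 0 z (n 0 z (n 0 z z)))) (n 0 (n 0 z (n 0 z (n 0 z (n 0 z z)))) (n 0 (n 0 z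
 (n 0 z (n 0 z (n 0 z z)))) (n 0 (n 0 z (n 0 z (n 0 z (n 0 z z)))) (n 0 (n 0 z (n 0 z (n 0 z (n
 0 z z)))) (n 0 (n 0 z (n 0 z (n 0 (n 8720451 z z) (n 0 (n 8720451 z z) z)))) (n 0 (n 0 z (n 0 z
 (n 0 z (n 0 z z)))) (n 0 (n 0 z (n 0 z (n 0 z (n 0 z z)))) (n 0 (n 0 z (n 0 z (n 0 z (n 0 z
 z)))) (n 0 (n 0 (n 8652347 z (n 8652347 z z)) (n 0 z (n 0 z (n 0 z z)))) (n 0 (n 0 z (n 0 z (n
 0 z (n 0 z z)))) (n 0 (n 0 z (n 0 z (n 0 z (n 0 z z)))) (n 0 (n 0 z (n 0 z (n 0 z (n 0 z z))))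
 (n 0 (n 0 z (n 0 z (n 0 z (n 0 z z)))) (n 0 (n 0 z (n 0 z (n 0 z (n 0 z z)))) (n 0 (n 0 z (n 0
 z (n 0 z (n 0 z z)))) (n 0 (n 0 z (n 0 z (n 0 z (n 0 z z)))) (n 0 (n 0 z (n 0 z (n 0 z (n 0 z
 z)))) (n 0 (n 0 z (n 0 z (n 0 z (n 0 z z)))) (n 0 (n 0 z (n 0 z (n 0 z (n 0 z z)))) (n 0 (n 0 z
 (n 0 (n
 0x31c390828727f82875e787c8473a7b8b46e575e7490e856b869b76c8d91508d8d887f648b648353977bb4888077ba948a475e881d668b810089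
 z (n
 0x30e70e4a03808080807e7f80808080808081808080808080808080808080807f80808080808080808080808080808081808080808080800809
 z z)) (n 0 z (n 0 (n 8852267 z (n 8663667 z z)) z)))) (n 0 (n 0 z (n 0 z (n 0 z (n 0 z z))))
 z)))))))))))))))))))))) (n 273 (n 0 (n 0 z (n 0 z (n 0 z (n 0 z z)))) (n 0 (n 0 z (n 0 z (n 0 z
 (n 0 (n 8720451 z z) z)))) (n 0 (n 0 z (n 0 (n
 0x5586580837487988079757c787075a59890833d84757386779460948d73806d92797d9085907e8d697a935c6f857b9276a18d717f0049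
 z z) (n 0 z (n 0 z z)))) (n 0 (n 0 z (n 0 z (n 0 z (n 0 z z)))) (n 0 (n 0 z (n 0 z (n 0 z (n 0
 z z)))) (n 0 (n 0 z (n 0 z (n 0 z (n 0 z z)))) (n 0 (n 0 z (n 0 z (n 0 z (n 0 z z)))) (n 0 (n 0
 z (n 0 z (n 0 z (n 0 z z)))) (n 0 (n 0 z (n 0 z (n 0 (n
 0x31c318828637f82875e787c8473a7b8b46e575e7490e856b869b76c8d91508d8d887f648b648353977bb4888077ba948a475e881d668b810089
 z (n 8521547 z z)) (n 0 z z)))) (n 0 (n 0 z (n 0 z (n 0 z (n 0 (n 8720451 z (n 8720451 z z))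
 z)))) (n 0 (n 0 z (n 0 z (n 0 z (n 0 z z)))) (n 0 (n 0 z (n 0 (n
 0x2c8317f6c799d8e806d826b6f7883a4b276872ca85887508786818f787c806c8b7d8b7c9e838c5f79798c697481939a79a2867b7e0049
 z (n
 0x3c8317fe7e17f582d8168007e38047df7e67f480583984d7f080a77e83e7c280c7b580b8098018187f37fa8007e18127fb8127fa82f8048137cd7f57f48137dc7ed80081e8277f58358097f87fc0051
 z z)) (n 0 (n
 0x348317e6877a492806983666b7684aebe738817b24f894489888193767b80678e7c8e7ba583905777768f63718099a077aa877a7d0049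
 z (n 8795995 z z)) (n 0 z z)))) (n 0 (n 0 z (n 0 z (n 0 z (n 0 z z)))) (n 0 (n 0 z (n 0 z (n 0
 z (n 0 z z)))) (n 0 (n 0 z (n 0 z (n 0 z (n 0 z z)))) (n 0 (n 0 (n 8873019 z (n 8873019 z z))
 (n 0 z (n 0 z (n 0 z z)))) (n 0 (n 0 z (n 0 (n 8859731 z (n 8859731 z z)) (n 0 z (n 0 (n
 8873019 z (n 8873019 z z)) z)))) (n 0 (n 0 z (n 0 z (n 0 z (n 0 z z)))) (n 0 (n 0 z (n 0 z (n 0
 z (n 0 z z)))) (n 0 (n 0 z (n 0 z (n 0 z (n 0 z z)))) (n 0 (n 0 z (n 0 z (n 0 z (n 0 z z)))) (n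
 0 (n 0 z (n 0 z (n 0 z (n 0 z z)))) (n 0 (n 0 z (n 0 z (n 0 z (n 0 z z)))) (n 0 (n 0 z (n 0 z
 (n 0 z (n 0 z z)))) (n 0 (n 0 z (n 0 z (n 0 (n 8652347 z (n 8652347 z z)) (n 0 (n 8652347 z (n
 8663667 z z)) z)))) z))))))))))))))))))))))))) (n 301 (n 0 (n 0 z (n 0 z (n 0 z (n 0 z z)))) (n
 0 (n 0 z (n 0 z (n 0 z (n 0 z z)))) (n 0 (n 0 z (n 0 z (n 0 z (n 0 z z)))) (n 0 (n 0 z (n 0 z
 (n 0 z (n 0 z z)))) (n 0 (n 0 z (n 0 z (n 0 z (n 0 z z)))) (n 0 (n 0 z (n 0 z (n 0 z (n 0 z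
 z)))) (n 0 (n 0 z (n 0 z (n 0 z (n 0 z z)))) (n 0 (n 0 z (n 0 z (n 0 z (n 0 z z)))) z))))))))
 (n 401 (n 0 (n 0 z (n 0 z (n 0 z (n 0 z z)))) (n 0 (n 0 z (n 0 z (n 0 z (n 0 z z)))) (n 0 (n 0
 z (n 0 z (n 0 z (n 0 z z)))) (n 0 (n 0 z (n 0 z (n 0 z (n 0 z z)))) (n 0 (n 0 z (n 0 z (n 0 z
 (n 0 z z)))) (n 0 (n 0 z (n 0 z (n 0 z (n 0 z z)))) (n 0 (n 0 z (n 0 z (n 0 z (n 0 z z)))) (n 0
 (n 0 z (n 0 z (n 0 z (n 0 z z)))) z)))))))) (n 33 (n 0 (n 0 z (n 0 z (n 0 z (n 0 z z)))) (n 0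
 (n 0 z (n 0 z (n 0 z (n 0 z z)))) (n 0 (n 0 z (n 0 z (n 0 z (n 0 z z)))) (n 0 (n 0 z (n 0 z (n
 0 z (n 0 z z)))) z)))) (n 171 (n 0 (n 0 z (n 0 z (n 0 z (n 0 z z)))) (n 0 (n 0 z (n 0 z (n 0 z
 (n 0 z z)))) (n 0 (n 0 z (n 0 z (n 0 z (n 0 z z)))) (n 0 (n 0 z (n 0 z (n 0 z (n 0 z z)))) (n 0
 (n 0 z (n 0 z (n 0 z (n 0 z z)))) z))))) (n 521 (n 0 (n 0 z (n 0 z (n 0 z (n 0 z z)))) (n 0 (n
 0 z (n 0 z (n 0 (n 8795995 z z) (n 0 (n 8795995 z z) z)))) (n 0 (n 0 z (n 0 z (n 0 z (n 0 z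
 z)))) (n 0 (n 0 z (n 0 z (n 0 z (n 0 z z)))) (n 0 (n 0 z (n 0 z (n 0 z (n 0 z z)))) (n 0 (n 0 z
 (n 0 z (n 0 z (n 0 z z)))) (n 0 (n 0 z (n 0 z (n 0 z (n 0 z z)))) z))))))) (n 33 (n 0 (n 0 z (n
 0 z (n 0 z (n 0 z z)))) (n 0 (n 0 z (n 0 z (n 0 z (n 0 z z)))) (n 0 (n 0 z (n 0 z (n 0 z (n 0 z
 z)))) (n 0 (n 0 z (n 0 z (n 0 z (n 0 z z)))) (n 0 (n 0 z (n 0 z (n 0 z (n 0 z z)))) (n 0 (n 0 z
 (n 0 z (n 0 z (n 0 z z)))) (n 0 (n 0 z (n 0 z (n 0 z (n 0 z z)))) (n 0 (n 0 z (n 0 z (n 0 z (n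
 0 z z)))) (n 0 (n 0 z (n 0 z (n 0 z (n 0 z z)))) (n 0 (n 0 z (n 0 (n 8859731 z (n 8859731 z z))
 (n 0 z (n 0 z z)))) (n 0 (n 0 z (n 0 z (n 0 z (n 0 z z)))) z))))))))))) (n 195 (n 0 (n 0 z (n 0
 z (n 0 z (n 0 z z)))) (n 0 (n 0 z (n 0 z (n 0 z (n 0 z z)))) (n 0 (n 0 z (n 0 z (n 0 z (n 0 z
 z)))) (n 0 (n 0 z (n 0 z (n 0 z (n 0 z z)))) (n 0 (n 0 z (n 0 z (n 0 z (n 0 z z)))) (n 0 (n 0 z
 (n 0 z (n 0 z (n 0 z z)))) (n 0 (n 0 z (n 0 z (n 0 z (n 0 z z)))) (n 0 (n 0 z (n 0 z (n 0 z (n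
 0 z z)))) (n 0 (n 0 z (n 0 z (n 0 z (n 0 z z)))) (n 0 (n 0 z (n 0 z (n 0 z (n 0 z z)))) (n 0 (n
 0 z (n 0 (n 8859731 z (n 8859731 z z)) (n 0 z (n 0 z z)))) (n 0 (n 0 z (n 0 z (n 0 (n 8795995 z
 z) (n 0 z z)))) (n 0 (n 0 z (n 0 (n 3213355 z z) (n 0 (n 3213355 z z) (n 0 z z)))) (n 0 (n 0 z
 (n 0 z (n 0 z (n 0 z z)))) (n 0 (n 0 z (n 0 z (n 0 (n 6621227 z z) (n 0 (n 6621227 z z) z))))
 z))))))))))))))) (n 133 (n 0 (n 0 z (n 0 z (n 0 z (n 0 z z)))) (n 0 (n 0 z (n 0 z (n 0 z (n 0 z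
 z)))) (n 0 (n 0 z (n 0 z (n 0 z (n 0 z z)))) (n 0 (n 0 z (n 0 z (n 0 z (n 0 z z)))) (n 0 (n 0 z
 (n 0 z (n 0 z (n 0 z z)))) (n 0 (n 0 z (n 0 z (n 0 z (n 0 z z)))) (n 0 (n 0 z (n 0 z (n 0 z (n
 0 z z)))) (n 0 (n 0 z (n 0 z (n 0 z (n 0 z z)))) (n 0 (n 0 z (n 0 z (n 0 z (n 0 z z)))) (n 0 (n
 0 z (n 0 z (n 0 z (n 0 z z)))) (n 0 (n 0 z (n 0 z (n 0 z (n 0 z z)))) z))))))))))) (n 641 (n 0
 (n 0 z (n 0 z (n 0 z (n 0 z z)))) (n 0 (n 0 z (n 0 z (n 0 z (n 0 z z)))) (n 0 (n 0 z (n 0 z (n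
 0 z (n 0 z z)))) (n 0 (n 0 z (n 0 z (n 0 z (n 0 z z)))) (n 0 (n 0 z (n 0 z (n 0 z (n 0 z z))))
 (n 0 (n 0 z (n 0 z (n 0 z (n 0 z z)))) (n 0 (n 0 z (n 0 z (n 0 z (n 0 z z)))) (n 0 (n 0 z (n 0
 z (n 0 z (n 0 z z)))) (n 0 (n 0 (n 8852267 z (n 8852267 z z)) (n 0 z (n 0 z (n 0 z z)))) (n 0
 (n 0 z (n 0 z (n 0 z (n 0 z z)))) (n 0 (n 0 z (n 0 (n
 0x4871807c7e8784807c817a7b7d81888d7d816f88768271847e82867c7e807b837f837f8a7d85787c7e837d7a8087847f8b817f800049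
 z (n
 0x348717d6e769d91806e856a646d82b1c5788918ad54853d8685789e767a8365937f8f7ea47e90576f71916a6c7f9ba276bb89757f0049
 z z)) (n 0 (n
 0x348717d6e769d91806e856a646d82b1c5788918ad54853d8685789e767a8365937f8f7ea47e90576f71916a6c7f9ba276bb89757f0049
 z (n
 0x348437d6e769d91806e856a646d82b1c5788918ad54853d8685789e767a8365937f8f7ea47e90576f71916a6c7f9ba276bb89757f0049
 z z)) (n 0 z z)))) (n 0 (n 0 z (n 0 z (n 0 (n 8852267 z (n 8852267 z z)) (n 0 (n 8852267 z (n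
 8663667 z z)) z)))) (n 0 (n 0 z (n 0 z (n 0 z (n 0 z z)))) (n 0 (n 0 z (n 0 z (n 0 z (n 0 z
 z)))) (n 0 (n 0 z (n 0 z (n 0 z (n 0 z z)))) (n 0 (n 0 z (n 0 z (n 0 z (n 0 z z)))) (n 0 (n 0 z
 (n 0 z (n 0 z (n 0 z z)))) (n 0 (n 0 (n 8852267 z (n 8852267 z z)) (n 0 (n
 0x15c38832871808183727d7e827b9097957870727b87aa6f9777977885876c8786847f758574816d897f9584807c988884697283577584800089
 z (n
 0x61d20c480e010e70e62078180808081817f808080808080808080808081808080808080808080808080808080808080808080808080808080808080801009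
 z z)) (n 0 z (n 0 (n 8852267 z (n 8852267 z z)) z)))) (n 0 (n 0 z (n 0 z (n 0 z (n 0 z z)))) (n
 0 (n 0 z (n 0 z (n 0 z (n 0 z z)))) (n 0 (n 0 (n 8663139 z z) (n 0 z (n 0 (n 8663139 z z) (n 0
 z z)))) (n 0 (n 0 z (n 0 z (n 0 z (n 0 (n 8652347 z z) z)))) (n 0 (n 0 z (n 0 z (n 0 z (n 0 z
 z)))) (n 0 (n 0 z (n 0 z (n 0 z (n 0 z z)))) (n 0 (n 0 z (n 0 z (n 0 z (n 0 z z)))) (n 0 (n 0 z
 (n 0 z (n 0 z (n 0 z z)))) (n 0 (n 0 z (n 0 z (n 0 z (n 0 (n 8852267 z (n 8852267 z z)) z))))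
 (n 0 (n 0 z (n 0 (n
 0x29c3906a8727f8286657a7d83769fadaa705f64768ed35eae6ead708c8d598b8a88806a8969835c927ca9878079ae9088526586316b88810089
 z (n
 0x29c3186a863808285647b7d83759faca9715f65768dd45ead6ead708a8e598b8a877f6a8969835c927caa868179ae8f88526586306b88800089
 z z)) (n 0 (n 8852267 z (n 8852267 z z)) (n 0 z z)))) z)))))))))))))))))))))))))))) (n 35 (n 0
 (n 0 z (n 0 z (n 0 z (n 0 z z)))) (n 0 (n 0 z (n 0 z (n 0 (n 8803083 z z) (n 0 z z)))) (n 0 (n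
 0 z (n 0 z (n 0 z (n 0 z z)))) (n 0 (n 0 z (n 0 z (n 0 z (n 0 z z)))) (n 0 (n 0 z (n 0 z (n 0 z
 (n 0 z z)))) (n 0 (n 0 z (n 0 z (n 0 z (n 0 z z)))) (n 0 (n 0 z (n 0 z (n 0 z (n 0 z z)))) (n 0
 (n 0 z (n 0 z (n 0 z (n 0 z z)))) (n 0 (n 0 z (n 0 z (n 0 z (n 0 z z)))) (n 0 (n 0 z (n 0 z (n
 0 z (n 0 z z)))) (n 0 (n 0 z (n 0 z (n 0 z (n 0 z z)))) (n 0 (n 0 z (n 0 z (n 0 z (n 0 z z))))
 z)))))))))))) (n 219 (n 0 (n 0 z (n 0 z (n 0 z (n 0 z z)))) (n 0 (n 0 z (n 0 z (n 0 z (n 0 z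
 z)))) (n 0 (n 0 z (n 0 z (n 0 z (n 0 z z)))) (n 0 (n 0 z (n 0 z (n 0 z (n 0 z z)))) (n 0 (n 0 z
 (n 0 z (n 0 z (n 0 z z)))) (n 0 (n 0 z (n 0 z (n 0 (n 8720451 z (n 8720451 z z)) (n 0 z z))))
 (n 0 (n 0 z (n 0 z (n 0 z (n 0 z z)))) (n 0 (n 0 z (n 0 z (n 0 z (n 0 z z)))) (n 0 (n 0 z (n 0
 z (n 0 z (n 0 z z)))) (n 0 (n 0 z (n 0 z (n 0 z (n 0 z z)))) (n 0 (n 0 z (n 0 (n 3213355 z z)
 (n 0 (n 3213355 z z) (n 0 z z)))) (n 0 (n 0 z (n 0 z (n 0 z (n 0 z z)))) (n 0 (n 0 z (n 0 z (n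
 0 z (n 0 z z)))) (n 0 (n 0 z (n 0 (n
 0x348317d6e769d91806e856a646d82b1c5788918ad54853d8685789e767a8365937f8f7ea47e90576f71916a6c7f9ba276bb89757f0049
 z (n
 0x4871807c7e8784807c817a7b7d81888d7d816f88768271847e82867c7e807b837f837f8a7d85787c7e837d7a8087847f8b817f800049
 z z)) (n 0 z (n 0 z z)))) z)))))))))))))) (n 139 (n 0 (n 0 z (n 0 z (n 0 z (n 0 z z)))) (n 0 (n
 0 z (n 0 z (n 0 z (n 0 z z)))) (n 0 (n 0 z (n 0 z (n 0 z (n 0 z z)))) (n 0 (n 0 z (n 0 z (n 0 z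
 (n 0 z z)))) (n 0 (n 0 z (n 0 z (n 0 z (n 0 z z)))) (n 0 (n 0 z (n 0 z (n 0 z (n 0 z z)))) (n 0
 (n 0 z (n 0 z (n 0 z (n 0 z z)))) (n 0 (n 0 z (n 0 z (n 0 z (n 0 z z)))) (n 0 (n 0 z (n 0 z (n
 0 z (n 0 z z)))) (n 0 (n 0 z (n 0 z (n 0 z (n 0 z z)))) (n 0 (n 0 z (n 0 z (n 0 z (n 0 z z))))
 (n 0 (n 0 z (n 0 z (n 0 z (n 0 z z)))) (n 0 (n 0 z (n 0 z (n 0 z (n 0 z z)))) (n 0 (n 0 z (n 0
 z (n 0 z (n 0 z z)))) (n 0 (n 0 z (n 0 z (n 0 z (n 0 z z)))) (n 0 (n 0 z (n 0 z (n 0 z (n 0 z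
 z)))) z)))))))))))))))) (n 138 (n 0 (n 0 z (n 0 z (n 0 z (n 0 (n
 0x3c8317fe7e17f582d8168007e38047df7e67f480583984d7f080a77e83e7c280c7b580b8098018187f37fa8007e18127fb8127fa82f8048137cd7f57f48137dc7ed80081e8277f58358097f87fc0051
 z z) z)))) (n 0 (n 0 z (n 0 z (n 0 z (n 0 z z)))) (n 0 (n 0 z (n 0 z (n 0 z (n 0 z z)))) (n 0
 (n 0 z (n 0 z (n 0 z (n 0 z z)))) (n 0 (n 0 z (n 0 z (n 0 z (n 0 z z)))) (n 0 (n 0 z (n 0 z (n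
 0 z (n 0 z z)))) (n 0 (n 0 z (n 0 z (n 0 z (n 0 z z)))) (n 0 (n 0 z (n 0 z (n 0 z (n 0 z z))))
 (n 0 (n 0 z (n 0 z (n 0 z (n 0 z z)))) (n 0 (n 0 z (n 0 z (n 0 z (n 0 z z)))) (n 0 (n 0 z (n 0
 z (n 0 z (n 0 z z)))) (n 0 (n 0 z (n 0 z (n 0 z (n 0 z z)))) (n 0 (n 0 z (n 0 (n
 0x14871807f7f7e828080818081818182827d808080827f817f8081828082807d7e8180808081827f7f7d81827f80808082837f7f800049
 z (n
 0x348637d6e769d91806e856a646d82b1c5788918ad54853d8685789e767a8365937f8f7ea47e90576f71916a6c7f9ba276bb89757f0049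
 z z)) (n 0 (n 8852267 z (n 8852267 z z)) (n 0 z z)))) (n 0 (n 0 z (n 0 z (n 0 z (n 0 z z)))) (n
 0 (n 0 z (n 0 z (n 0 z (n 0 z z)))) (n 0 (n 0 z (n 0 z (n 0 z (n 0 z z)))) (n 0 (n 0 z (n 0 z
 (n 0 z (n 0 z z)))) (n 0 (n 0 z (n 0 z (n 0 z (n 0 z z)))) (n 0 (n 0 z (n 0 z (n 0 z (n 0 z
 z)))) (n 0 (n 0 z (n 0 z (n 0 z (n 0 z z)))) (n 0 (n 0 z (n 0 z (n 0 z (n 0 (n 8852267 z (n
 8852267 z z)) z)))) (n 0 (n 0 z (n 0 z (n 0 z (n 0 z z)))) (n 0 (n 0 z (n 0 z (n 0 z (n 0 z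
 z)))) (n 0 (n 0 z (n 0 (n
 0x4871807c7e8784807c817a7b7d81888d7d816f88768271847e82867c7e807b837f837f8a7d85787c7e837d7a8087847f8b817f800049
 z z) (n 0 z (n 0 z z)))) (n 0 (n 0 z (n 0 z (n 0 z (n 0 z z)))) (n 0 (n 0 z (n 0 z (n 0 z (n 0
 z z)))) (n 0 (n 0 z (n 0 z (n 0 z (n 0 z z)))) (n 0 (n 0 z (n 0 z (n 0 z (n 0 z z)))) (n 0 (n 0
 z (n 0 z (n 0 z (n 0 z z)))) (n 0 (n 0 (n 8803083 z (n 8803083 z z)) (n 0 z (n 0 z (n 0 z z))))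
 (n 0 (n 0 z (n 0 z (n 0 z (n 0 z z)))) (n 0 (n 0 z (n 0 (n 8803083 z (n 8803083 z z)) (n 0 z (n
 0 (n 8803083 z (n 8803083 z z)) z)))) (n 0 (n 0 z (n 0 z (n 0 z (n 0 z z)))) (n 0 (n 0 z (n 0 z
 (n 0 z (n 0 z z)))) (n 0 (n 0 z (n 0 z (n 0 z (n 0 z z)))) (n 0 (n 0 (n 8652347 z (n 8652347 z
 z)) (n 0 (n 8652347 z (n 8652347 z z)) (n 0 (n 8652347 z (n 8652347 z z)) (n 0 z z)))) (n 0 (n
 0 z (n 0 z (n 0 z (n 0 z z)))) (n 0 (n 0 z (n 0 (n 8652347 z (n 8652347 z z)) (n 0 z (n 0 z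
 z)))) (n 0 (n 0 z (n 0 z (n 0 z (n 0 z z)))) (n 0 (n 0 z (n 0 z (n 0 z (n 0 z z)))) (n 0 (n 0 z
 (n 0 z (n 0 z (n 0 z z)))) (n 0 (n 0 z (n 0 z (n 0 z (n 0 z z)))) (n 0 (n 0 z (n 0 z (n 0 z (n
 0 z z)))) (n 0 (n 0 z (n 0 (n
 0x348217d6e769d91806e856a646d82b1c5788918ad54853d8685789e767a8365937f8f7ea47e90576f71916a6c7f9ba276bb89757f0049
 z (n
 0x4871807c7e8784807c817a7b7d81888d7d816f88768271847e82867c7e807b837f837f8a7d85787c7e837d7a8087847f8b817f800049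
 z z)) (n 0 z (n 0 z z)))) (n 0 (n 0 z (n 0 z (n 0 z (n 0 z z)))) (n 0 (n 0 z (n 0 z (n 0 z (n 0
 (n 8852267 z (n 8852267 z z)) z)))) z)))))))))))))))))))))))))))))))))))))))))))))) (n 441 (n 0
 (n 0 z (n 0 z (n 0 z (n 0 z z)))) (n 0 (n 0 z (n 0 z (n 0 z (n 0 z z)))) (n 0 (n 0 z (n 0 z (n
 0 z (n 0 z z)))) (n 0 (n 0 z (n 0 z (n 0 z (n 0 z z)))) (n 0 (n 0 z (n 0 z (n 0 z (n 0 z z))))
 (n 0 (n 0 z (n 0 z (n 0 z (n 0 z z)))) (n 0 (n 0 z (n 0 z (n 0 z (n 0 z z)))) (n 0 (n 0 z (n 0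
 z (n 0 z (n 0 z z)))) (n 0 (n 0 z (n 0 z (n 0 z (n 0 z z)))) (n 0 (n 0 z (n 0 z (n 0 (n 8852267
 z (n 8852267 z z)) (n 0 (n 8852267 z (n 8663667 z z)) z)))) (n 0 (n 0 z (n 0 z (n 0 z (n 0 z
 z)))) (n 0 (n 0 z (n 0 z (n 0 (n 8720451 z z) (n 0 (n 8720451 z z) z)))) (n 0 (n 0 z (n 0 z (n
 0 z (n 0 z z)))) (n 0 (n 0 (n 8585755 z (n 8585755 z z)) (n 0 z (n 0 z (n 0 z z)))) (n 0 (n 0 z
 (n 0 (n 8585755 z (n 8585755 z z)) (n 0 (n 8585755 z (n 8585755 z z)) (n 0 z z))))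
 z))))))))))))))) (n 33 (n 0 (n 0 z (n 0 z (n 0 z (n 0 z z)))) (n 0 (n 0 z (n 0 z (n 0 z (n 0 z
 z)))) (n 0 (n 0 z (n 0 z (n 0 z (n 0 z z)))) (n 0 (n 0 z (n 0 z (n 0 z (n 0 z z)))) (n 0 (n 0 z
 (n 0 z (n 0 z (n 0 z z)))) (n 0 (n 0 z (n 0 (n
 0x348707d6e769d91806e856a646d82b1c5788918ad54853d8685789e767a8365937f8f7ea47e90576f71916a6c7f9ba276bb89757f0049
 z (n
 0x31c180828307f82875e787c8473a7b8b46e575e7490e856b869b76c8d91508d8d887f648b648353977bb4888077ba948a475e881d668b810089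
 z z)) (n 0 (n 8521547 z (n
 0x31c180828307f82875e787c8473a7b8b46e575e7490e856b869b76c8d91508d8d887f648b648353977bb4888077ba948a475e881d668b810089
 z z)) (n 0 z z)))) z)))))) (n 9 (n 0 (n 0 z (n 0 z (n 0 z (n 0 z z)))) (n 0 (n 0 z (n 0 z (n 0
 z (n 0 z z)))) (n 0 (n 0 (n
 0x248417f767c928780767f73797c8192987b8156976a866785897c8a7c8181738281857f8d8685717c77897175808a947f96817e7f0049
 z z) (n 0 z (n 0 z (n 0 z z)))) (n 0 (n 0 z (n 0 z (n 0 z (n 0 z z)))) (n 0 (n 0 z (n 0 (n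
 8859731 z (n 8859731 z z)) (n 0 z (n 0 (n 8873019 z (n 8873019 z z)) z)))) (n 0 (n 0 (n 3213355
 z z) (n 0 z (n 0 z (n 0 z z)))) (n 0 (n 0 z (n 0 z (n 0 z (n 0 z z)))) z))))))) (n 3 (n 0 (n 0
 z (n 0 z (n 0 z (n 0 z z)))) (n 0 (n 0 z (n 0 z (n 0 z (n 0 z z)))) (n 0 (n 0 z (n 0 z (n 0 z
 (n 0 z z)))) z))) (n 1 (n 0 (n 0 z (n 0 z (n 0 z (n 0 z z)))) (n 0 (n 0 z (n 0 z (n 0 z (n 0 z
 z)))) (n 0 (n 0 z (n 0 z (n 0 z (n 0 z z)))) (n 0 (n 0 z (n 0 z (n 0 z (n 0 z z)))) (n 0 (n 0 z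
 (n 0 z (n 0 z (n 0 z z)))) (n 0 (n 0 z (n 0 z (n 0 z (n 0 z z)))) (n 0 (n 0 z (n 0 z (n 0 z (n
 0 z z)))) (n 0 (n 0 z (n 0 z (n 0 z (n 0 z z)))) (n 0 (n 0 z (n 0 z (n 0 (n 8798259 z z) (n 0
 (n 8798259 z z) z)))) z))))))))) (n 0 (n 0 (n 0 z (n 0 z (n 0 z (n 0 z z)))) (n 0 (n 0 z (n 0 z
 (n 0 z (n 0 z z)))) (n 0 (n 0 z (n 0 z (n 0 z (n 0 z z)))) (n 0 (n 0 z (n 0 z (n 0 z (n 0 z
 z)))) (n 0 (n 0 z (n 0 z (n 0 z (n 0 z z)))) (n 0 (n 0 z (n 0 z (n 0 z (n 0 z z)))) (n 0 (n 0 z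
 (n 0 z (n 0 z (n 0 z z)))) (n 0 (n 0 z (n 0 z (n 0 z (n 0 z z)))) (n 0 (n 0 z (n 0 z (n 0 z (n
 0 z z)))) z))))))))) z))))))))))))))))))))) z)))) z) z)))) (n
 0x616132046c8417ac383d5e5412ad4094711aa (n 0 (n 473 (n 6492195 z (n 0 z z)) (n 459 (n 0 z (n 0
 z (n 6492195 z (n 0 z (n 0 z z))))) (n 9 (n 6566403 z (n 2 z (n 6566403 z (n 10 z (n 6566403 z
 (n 6562587 z (n 18 z z))))))) (n 3 (n 0 z (n 6566403 z (n 26 z (n 0 z z)))) (n 1 (n 34 z (n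
 6566403 z (n 6566403 z (n 6566403 z (n 42 z (n
 0x68ca4ca4003856a7f809e7c646a7e8763668467796d9260757cab778586b16765ad897b6c81787087918e80817f8784696e694e775775650809
 z (n
 0x1cca4ca420388767e85857c858d9380926a80848291827b7d7b71888191758187787a9478848779898a7a84817a81808a8b8485888b7e8a0809
 z (n 6566403 z (n 6562587 z (n
 0x4ca4ca420381827d8082807f8180817f83808080807e808081817f807f81827d81827f7f7f847e80807f7f817e818082807f81807f817f0809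
 z (n 50 z z))))))))))) (n 0 (n 0 z (n 0 z (n 0 z (n 6620203 z (n 0 z (n 0 z z)))))) z)))))) (n
 473 (n 0 (n 0 z (n 0 z (n 33 (n 0 z (n 0 z (n 0 z (n 0 z (n 0 z (n 0 z (n 0 z z))))))) (n 937
 (n 0 z (n 0 z (n 0 z (n 0 z (n 0 z (n 0 z (n 0 z (n 0 z (n 0 z (n 0 z (n 0 z z))))))))))) (n
 937 (n 0 z (n 0 z (n 0 z (n 0 z (n 0 z (n 0 z (n 0 z (n 0 z (n 2 (n 0 z z) (n 0 z (n 0 z
 z))))))))))) (n 937 (n 0 z (n 0 z (n 0 z (n 0 z (n 0 z (n 0 z (n 0 z (n 0 z (n 0 z (n 0 z (n 0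
 z z))))))))))) z)))))) (n 0 (n 0 z (n 7 (n 0 z (n 0 z (n 0 z (n 0 z (n 0 z (n 0 z (n 0 z (n 0 z
 (n 0 z (n 0 z (n 0 z (n 0 z (n 0 z (n 0 z (n 0 z (n 0 z z)))))))))))))))) (n 51 (n 0 z (n 0 z
 (n 0 z (n 0 z (n 0 z (n 0 z (n 0 z (n 0 z (n 0 z (n 0 z (n 0 z (n 0 z z)))))))))))) (n 51 (n 0
 z (n 0 z (n 0 z (n 0 z (n 7741491 z (n 0 z (n 0 z (n 0 z (n 0 z (n 0 z (n 0 z (n 0 z
 z)))))))))))) (n 51 (n 0 z (n 0 z (n 0 z (n 0 z (n 0 z (n 0 z (n 0 z (n 0 z (n 0 z (n 7741707 z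
 (n 7741707 z (n 0 z z)))))))))))) z))))) (n 0 (n 55 (n 0 z (n 0 z (n 0 z (n 0 z (n 0 z (n 0 z
 (n 0 z (n 0 z z)))))))) (n 3 (n 0 z (n 0 z (n 0 z (n 0 z (n 0 z (n 0 z (n 0 z (n 0 z (n 0 z (n
 0 z (n 0 z z))))))))))) (n 3 (n 0 z (n 0 z (n 2 (n 0 z z) (n 0 z (n 0 z (n 0 z (n 0 z (n 0 z (n
 0 z (n 0 z (n 0 z z))))))))))) (n 3 (n 0 z (n 0 z (n 0 z (n 0 z (n 0 z (n 0 z (n 0 z (n 0 z (n
 0 z (n 0 z (n 0 z z))))))))))) z)))) (n 0 (n 9 (n 0 z (n 0 z (n 0 z (n 0 z (n 0 z (n 0 z (n 0 z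
 (n 0 z z)))))))) (n 9 (n 0 z (n 0 z (n 2 (n 0 z z) (n 0 z (n 0 z (n 0 z (n 0 z (n 0 z z))))))))
 (n 9 (n 0 z (n 0 z (n 0 z (n 0 z (n 0 z (n 0 z (n 0 z (n 0 z z)))))))) z))) (n 0 (n 0 z (n 0 z
 z)) (n 0 (n 0 z z) (n 0 z z))))))) (n 0 (n 1 (n 6492195 z (n 6566403 z (n 6492195 z (n 6492195
 z (n 6492195 z (n 6492195 z z)))))) (n 0 z z)) (n 0 z z)))) z))))))))), by decide +kernel⟩
theorem i10251 : ∃ t, chkR KT RW t 10251 10261 = true := ⟨(n 0x30b1294329481ab267424ad6124b21aa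
 (n 0 (n 473 (n 0 z (n 6492195 z (n 0 z z))) (n 459 (n 0 z (n 6492195 z (n 0 z (n 0 z z)))) (n 9
 (n 6566403 z (n 2 z (n 6566403 z (n 10 z (n 6566403 z (n 6562587 z (n 18 z z))))))) (n 3 (n 0 z
 (n 6566403 z (n 0 z z))) (n 1 (n 6566403 z (n 0 z (n 26 z (n 34 z (n 0 z (n 6566403 z (n
 6562587 z (n 42 z z)))))))) (n 0 (n 0 z (n 0 z (n 6620203 z (n 0 z (n 0 z z))))) z)))))) (n 473
 (n 0 (n 0 z (n 0 z (n 937 (n 0 z (n 0 z (n 0 z (n 0 z (n 2 (n 0 z (n 0 z z)) (n 0 z (n 0 z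
 z))))))) (n 937 (n 0 z (n 0 z (n 0 z (n 0 z (n 0 z (n 0 z (n 0 z z))))))) (n 937 (n 0 z (n 0 z
 (n 0 z (n 0 z (n 0 z (n 0 z (n 0 z z))))))) z))))) (n 0 (n 0 z (n 51 (n 0 z (n 7741491 z (n 0 z
 (n 0 z (n 0 z (n 0 z (n 0 z (n 0 z (n 0 z z))))))))) (n 51 (n 0 z (n 0 z (n 0 z (n 0 z (n 0 z
 (n 0 z (n 0 z (n 0 z (n 0 z z))))))))) (n 51 (n 0 z (n 0 z (n 0 z (n 0 z (n 0 z (n 0 z (n 0 z
 (n 7741707 z (n 0 z z))))))))) z)))) (n 0 (n 3 (n 2 (n 0 z (n 0 z z)) (n 0 z (n 0 z (n 0 z (n 0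
 z (n 0 z (n 0 z z))))))) (n 3 (n 0 z (n 0 z (n 7741707 z (n 0 z (n 0 z (n 0 z (n 0 z z)))))))
 (n 3 (n 0 z (n 0 z (n 0 z (n 0 z (n 0 z (n 0 z (n 0 z z))))))) z))) (n 0 (n 0 z (n 0 z z)) (n 0
 (n 0 z z) (n 0 z z)))))) (n 0 (n 0 z (n 1 (n 6492195 z (n 6492195 z (n 6566403 z (n 6492195 z
 (n 6492195 z (n 6492195 z z)))))) (n 0 z z))) (n 0 z z)))) (n
 0x288c990224c6118e55012a4409469162 (n 0 (n 473 (n 6492195 z (n 0 z z)) (n 459 (n 0 z (n 0 z (n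
 6492195 z (n 0 z (n 0 z z))))) (n 9 (n 6566403 z (n 2 z (n 6566403 z (n
 0xca8ca820380817f81827f80827f82818380817f80818181827d837e817d827b81847e7d808281827d867d827f80827e7f7f8180817f820809
 z (n 10 z (n 6566403 z (n 6566403 z (n 6562587 z (n 18 z (n 6562587 z (n
 0xca8ca820380817f808080808080808080808080808080808080808080807f807f80808080828080808080817f808080807f80808080810809
 z (n 0 z (n 6566403 z z))))))))))))) (n 3 (n 0 z (n 6566403 z (n 0 z z))) (n 1 (n 6566403 z (n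
 0xa32a298900c0994994840e06ca8a402036e9a7b7b818b888d7b8d7c8f896b6d7c957aa668866d7a8170968a7a6b898066947d777aa2aa6e667c737277936582919a7b1809
 z (n
 0x194594080600ca4ca420380827d7f82817e807f827f81807f7f7e7f81827e817e7f7f7f817f8180807f7e827e84808480808180807f85807e807f7d7f1009
 z (n 6566403 z (n 0 z (n 26 z (n
 0xca4ca420380817f8081808080808080817f8080807f80817f8080807f80807f808080807f8280807f8080807f818080808080808080810809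
 z (n 34 z (n 6566403 z (n 6566403 z (n 6562587 z (n 42 z (n 6562587 z z))))))))))))) (n 0 (n
 6620203 z (n 0 z (n 0 z (n 0 z (n 0 z (n 0 z z)))))) z)))))) (n 473 (n 0 (n 0 z (n 0 z (n 937
 (n 0 z (n 0 z (n 0 z (n 0 z (n 0 z (n 0 z (n 2 (n 0 z (n 0 z z)) (n 0 z (n 0 z (n 0 z
 z)))))))))) (n 937 (n 0 z (n 0 z (n 0 z (n 0 z (n 0 z (n 0 z (n 0 z (n 0 z (n 0 z (n 0 z
 z)))))))))) (n 937 (n 2 z (n 0 z (n 0 z (n 0 z (n 0 z (n 0 z (n 0 z (n 0 z (n 0 z (n 0 z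
 z)))))))))) z))))) (n 0 (n 0 z (n 51 (n 0 z (n 7741491 z (n 0 z (n 0 z (n 0 z (n 0 z (n 0 z (n
 0 z (n 0 z (n 0 z z)))))))))) (n 51 (n 0 z (n 0 z (n 0 z (n 0 z (n 0 z (n 0 z (n 0 z (n 0 z (n
 0 z (n 0 z z)))))))))) (n 51 (n 0 z (n 0 z (n 0 z (n 0 z (n 0 z (n 0 z (n 7741707 z (n 0 z (n 0
 z (n 0 z z)))))))))) z)))) (n 0 (n 3 (n 0 z (n 0 z (n 2 (n 0 z (n 0 z z)) (n 0 z (n 0 z (n 0 z
 (n 0 z (n 0 z (n 0 z (n 0 z z)))))))))) (n 3 (n 0 z (n 0 z (n 0 z (n 0 z (n 7741707 z (n 0 z (n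
 0 z (n 0 z (n 0 z (n 0 z z)))))))))) (n 3 (n 0 z (n 0 z (n 0 z (n 0 z (n 0 z (n 0 z (n 0 z (n 0
 z (n 0 z (n 0 z z)))))))))) z))) (n 0 (n 0 z (n 0 z z)) (n 0 (n 0 z z) (n 0 z z)))))) (n 0 (n 1
 (n 6492195 z (n 6566403 z (n 6492195 z (n 6492195 z (n 6492195 z (n 6492195 z z)))))) (n 0 z
 z)) (n 0 z z)))) (n 0x8a5970b139a581975310cd2e034b10162940 (n 0 (n 299 (n 6492195 z (n 6358075
 z (n 2 z (n 10 z (n 6492195 z (n 0 z (n 6492195 z (n 18 z (n 6358075 z z))))))))) (n 57 (n 26 z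
 (n 6492195 z (n 6492195 z (n 0 z (n 6358075 z (n 34 z (n 6358075 z z))))))) (n 9 (n 6627595 z
 (n 6566403 z (n
 0x1c63082082082089c89e82082081f81f7e07e37e082082182182081d82085d7e17df75f7e08a08220041 z (n 0 z
 (n
 0x2ca8a20603059519004060b29a98080c165465400182ca2ca200776082396479d7629207de7e379d7227e08637e08e77e092275b8a07e16a28a18df8a07df7a02801
 z (n 0 z (n 0 z (n 0 z z)))))))) (n 3 (n 6566403 z (n 6492195 z (n 0 z (n 0 z (n 0 z z))))) (n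
 1 (n 0 z (n 0 z (n 0 z (n 6566403 z (n 0 z (n 42 z z)))))) (n 0 (n 0 z (n 0 z (n 0 z (n 0 z (n
 50 z (n 0 z (n 0 z (n 0 z (n 0 z (n 0 z (n 0 z (n 0 z (n 0 z (n 0 z (n 0 z (n 0 z (n 0 z (n 0 z
 (n 0 z (n 6627595 z (n 0 z z))))))))))))))))))))) z)))))) (n 3 (n 0 (n 0 z (n 0 z (n 823 (n 0 z
 (n 7741491 z (n 0 z (n 0 z (n 0 z (n 0 z (n 0 z (n 0 z z)))))))) (n 823 (n 0 z (n 0 z (n 0 z (n
 0 z (n 0 z (n 0 z (n 7734315 z (n 0 z z)))))))) (n 597 (n 0 z (n 0 z (n 0 z (n 0 z (n 0 z (n 0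
 z (n 0 z (n 0 z (n 0 z (n 0 z (n 0 z (n 0 z (n 0 z (n 0 z (n 0 z (n 0 z (n 0 z (n 0 z (n 0 z
 z))))))))))))))))))) (n 589 (n 0 z (n 0 z (n 0 z (n 0 z (n 0 z (n 0 z (n 0 z (n 0 z (n 0 z (n 0
 z (n 0 z (n 0 z (n 0 z (n 0 z z)))))))))))))) z)))))) (n 0 (n 0 z (n 621 (n 0 z (n 0 z (n 0 z
 (n 0 z (n 0 z (n 0 z (n 2 (n 0 z (n 2 (n 0 (n 3283051 z z) (n 0 z (n 0 z (n 0 z (n 0 z (n 0 z
 z)))))) (n 1 z z))) z))))))) (n 621 (n 0 z (n 0 z (n 0 z (n 0 z (n 0 z (n 0 z (n 0 z z)))))))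
 (n 597 (n 0 z (n 0 z (n 0 z (n 0 z (n 0 z (n 0 z (n 0 z (n 0 z z)))))))) (n 541 (n 0 z (n 0 z
 (n 0 z (n 0 z (n 0 z (n 0 z (n 0 z (n 0 z (n 0 z (n 0 z (n 0 z (n 0 z (n 0 z (n 0 z
 z)))))))))))))) z))))) (n 0 (n 849 (n 2 (n 0 z (n 2 (n 0 (n 2388 z z) (n 0 z (n 0 z (n 0 z (n 0
 z (n 0 z z)))))) (n 1 z z))) (n 0 z (n 0 z (n 0 z (n 0 z (n 0 z (n 0 z z))))))) (n 849 (n 0 z
 (n 0 z (n 0 z (n 0 z (n 0 z (n 0 z (n 0 z z))))))) (n 597 (n 0 z (n 0 z (n 0 z (n 0 z (n 0 z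
 z))))) (n 593 (n 2 z (n 0 z (n 0 z (n 0 z (n 0 z (n 0 z (n 0 z z))))))) z)))) (n 0 (n 0 z (n
 819 (n 0 z (n 0 z (n 0 z (n 0 z (n 0 z (n 0 z (n 0 z (n 0 z (n 0 z (n 0 z (n 0 z (n 2 (n 1 z z)
 z)))))))))))) (n 817 (n 0 z (n 0 z (n 0 z (n 0 z (n 0 z (n 0 z (n 0 z (n 0 z (n 0 z (n 0 z (n 0
 z (n 0 z (n 0 z (n 0 z (n 0 z (n 0 z (n 0 z (n 0 z z)))))))))))))))))) z))) (n 0 (n 585 (n 0 z
 (n 0 z (n 0 z (n 0 z (n 0 z (n 0 z (n 0 z (n 0 z (n 0 z (n 0 z (n 0 z (n 0 z (n 0 z (n 0 z (n 0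
 z (n 0 z (n 0 z (n 0 z (n 0 z (n 0 z (n 0 z (n 0 z z)))))))))))))))))))))) (n 113 (n 0 z (n 0 z
 (n 0 z (n 0 z (n 0 z (n 0 z (n 0 z (n 0 z (n 0 z (n 0 z (n 0 z (n 0 z (n 0 z (n 0 z (n 0 z (n 0
 z (n 0 z z))))))))))))))))) z)) (n 0 (n 1 (n 0 z (n 0 z (n 0 z (n 0 z (n 0 z z))))) z) (n 0 z
 z))))))) (n 0 (n 1 (n 6566403 z (n 6566403 z (n 6566403 z (n 6566403 z (n 6566403 z (n 6566403
 z z)))))) (n 1 (n 6492195 z (n 6492195 z (n 6492195 z (n 6492195 z (n 6492195 z (n 6492195 z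
 z)))))) (n 0 z (n 0 z (n 0 z z))))) (n 0 z z)))) (n
 0x10b668761743963ba06cb68551a6216f421949d840 (n 0 (n 297 (n 2 z (n 6561875 z (n 0 z z))) (n 33
 (n 0 z (n 0 z (n 3278363 z (n 0 z (n 0 z (n 0 z (n 0 z (n 0 z (n 0 z (n 0 z (n 0 z (n 0 z
 z)))))))))))) (n 135 (n 6632003 z (n 0 z (n 0 z (n 6632003 z (n 10 z (n 0 z z)))))) (n 133 (n
 6632003 z (n 18 z (n
 0xca8ca840785f8228218208207e08208208208207e08208217e07e08208208208208208218208208208200801 z (n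
 6631947 z (n 26 z (n 6631947 z (n
 0x18c820b6418608228208a08208208218217e07e07e08208217e181f8208208208208207e08218208608200081 z
 (n 0x6ca8ca04079159e879e86389e76075e96781fa5c91882386579e7628197dc89f8607e06e575f8a48217e20801
 z (n 6632003 z (n 34 z (n
 0x28ca2136518608638208a18208207e18217e07e07a18208227e182081f8207e08208207e17e18208a08200081 z
 (n 0x18ca20b6518608228208a08208208218217e07e07e08208217e181f8208208208208207e08218208608200081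
 z (n 0 z (n 0 z z)))))))))))))) (n 1 (n 6561875 z (n 0 z (n 0 z z))) (n 0 (n
 0x18c400b6208608228208a08208208218217e07e07e08208217e181f8208208208208207e08218208608200081 z
 (n 0x18c600b6308608228208a08208208218217e07e07e08208217e181f8208208208208207e08218208608200081
 z (n 42 z (n 50 z (n 58 z (n 6631947 z (n 6631947 z (n 6632003 z (n 6632003 z (n 6632003 z (n
 6631947 z (n
 0x18c820b6418608228208a08208208218217e07e07e08208217e181f8208208208208207e08218208608200081 z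
 z)))))))))))) z)))))) (n 297 (n 0 (n 275 (n 0 z (n 0 z (n 0 z (n 0 z (n 0 z (n 0 z z)))))) (n
 267 (n 0 z (n 0 z (n 0 z (n 0 z (n 0 z (n 0 z (n 0 z (n 0 z (n 0 z (n 0 z (n 0 z (n 0 z (n 0 z
 (n 0 z (n 0 z (n 0 z (n 0 z (n 0 z (n 0 z (n 0 z z)))))))))))))))))))) (n 267 (n 0 z (n 0 z (n
 0 z (n 0 z (n 0 z (n 0 z (n 0 z (n 2 (n 0 z (n 1 z (n 2 (n 0 z (n 0 z (n 0 z (n 0 z (n 0 z (n 0
 (n 3283051 z z) z)))))) (n 2 (n 0 z (n 0 z (n 0 z (n 0 z (n 0 z (n 0 z z)))))) z)))) (n 0 z (n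
 0 z (n 0 z (n 0 z (n 0 z (n 0 z (n 0 z (n 0 z (n 0 z (n 0 z (n 0 z (n 0 z z))))))))))))))))))))
 (n 267 (n 0 z (n 0 z (n 0 z (n 0 z (n 0 z (n 0 z (n 0 z (n 0 z (n 0 z (n 0 z (n 0 z (n 0 z (n 0
 z (n 0 z (n 0 z (n 0 z (n 0 z (n 0 z (n 0 z (n 0 z z)))))))))))))))))))) (n 265 (n 0 z (n 0 z
 (n 0 z (n 0 z (n 0 z (n 0 z (n 0 z (n 0 z (n 0 z (n 0 z (n 0 z z))))))))))) (n 265 (n 0 z (n 0
 z (n 0 z (n 0 z (n 0 z (n 0 z (n 0 z (n 0 z (n 0 z (n 0 z (n 0 z z))))))))))) (n 265 (n 0 z (n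
 0 z (n 0 z (n 0 z (n 0 z (n 0 z (n 0 z (n 0 z (n 0 z (n 0 z (n 0 z z))))))))))) z))))))) (n 0
 (n 7 (n 0 z (n 0 z (n 0 z (n 0 z (n 0 z (n 0 z (n 0 z z))))))) (n 7 (n 0 z (n 2 (n 0 z (n 2 (n
 0 z (n 0 z (n 0 z (n 0 z (n 0 z (n 0 z z)))))) (n 2 (n 0 z (n 0 (n 1972 z z) (n 0 (n 1972 z z)
 (n 0 z (n 0 z (n 0 (n 7538763 z (n 8525643 z z)) z)))))) (n 2 (n 0 z (n 0 z (n 0 z (n 0 z (n 0
 z (n 0 z z)))))) z)))) (n 0 z (n 0 z (n 0 z (n 0 z (n 0 z z))))))) (n 7 (n 0 z (n 0 z (n 0 z (n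
 0 z (n 0 z (n 0 z (n 0 z z))))))) (n 493 (n 0 z (n 0 z (n 0 z (n 0 z (n 0 z (n 0 z (n 0 z (n 0
 z (n 0 z (n 0 z (n 0 z z))))))))))) (n 493 (n 0 z (n 0 z (n 0 z (n 0 z (n 0 z (n 0 z (n 0 z (n
 0 z (n 0 z (n 0 z (n 0 z z))))))))))) (n 493 (n 0 z (n 0 z (n 0 z (n 0 z (n 0 z (n 0 z (n 0 z
 (n 0 z (n 0 z (n 0 z (n 0 z z))))))))))) z)))))) (n 0 (n 0 z (n 0 z (n 257 (n 0 z (n 0 z (n 0 z
 (n 0 z (n 0 z (n 0 z (n 7754763 z (n 7754763 z (n 0 z (n 0 z (n 0 z (n 0 z z)))))))))))) (n 257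
 (n 0 z (n 0 z (n 0 z (n 0 z (n 0 z (n 0 z (n 0 z (n 0 z (n 0 z (n 0 z (n 0 z (n 0 z
 z)))))))))))) (n 257 (n 0 z (n 0 z (n 0 z (n 0 z (n 0 z (n 0 z (n 0 z (n 0 z (n 0 z (n 0 z (n 0
 z (n 0 z z)))))))))))) z))))) (n 0 (n 0 z (n 269 (n 0 z (n 0 z (n 0 z (n 0 z (n 0 z (n 0 z (n 0
 z (n 0 z (n 7754787 z (n 0 z (n 0 z (n 0 z z)))))))))))) (n 269 (n 0 z (n 0 z (n 0 z (n 0 z (n
 2 (n 0 z z) (n 0 z (n 0 z (n 0 z (n 0 z (n 0 z (n 0 z (n 0 z z)))))))))))) (n 269 (n 0 z (n 0 z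
 (n 0 z (n 2 z (n 0 z (n 0 z (n 0 z (n 0 z (n 0 z (n 0 z (n 0 z (n 0 z z)))))))))))) z)))) (n 0
 (n 13 (n 0 z (n 0 z (n 0 z (n 0 z (n 0 z (n 0 z (n 0 z (n 0 z (n 0 z (n 0 z (n 0 z (n 0 z
 z)))))))))))) (n 13 (n 0 z (n 0 z (n 0 z (n 0 z (n 0 z (n 0 z (n 0 z (n 0 z (n 0 z (n 0 z (n 0
 z (n 0 z z)))))))))))) (n 13 (n 0 z (n 0 z (n 0 z (n 0 z (n 0 z (n 0 z (n 0 z (n 0 z (n 0 z (n
 0 z (n 0 z (n 0 z z)))))))))))) z))) (n 0 (n 0 z (n 0 z z)) (n 0 (n 0 z z) (n 0 z z)))))))) (n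
 0 (n 1 (n 268 z (n 268 z (n 268 z (n 6631947 z (n 268 z (n 268 z z)))))) (n 1 (n 6561875 z (n
 6561875 z (n 6561875 z (n 6561875 z (n 6561875 z (n 6561875 z z)))))) (n 0 z z))) (n 0 z z))))
 (n 0x3065a9b04ebc8169d42c4de08b6b0d6b58695e686ab261a4b4c29 (n 0 (n 165 (n 0 z (n 0 z (n 3282443
 z z))) (n 375 (n 6496515 z (n 6496515 z (n 2 z z))) (n 373 (n 6496515 z (n 6496515 z (n
 0x5195194c4060c6ca6ca62077e280082483f7fb88c7a17bd9047088017d380e7bd7ab81e85079d8467e567380983387d82f8648ba81c7a078c8007c175c8d88838987db8736bf9548677866fa7818b176b81a8828348491011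
 z (n 0 z (n 6496515 z (n 10 z (n
 0xd951904c0e010ca8ca060380680b7f97e08187f08428088158077fe80b7fd80f7fe7ed7e981e7df8058317da7fe7d07f77f57f980c81e7ef80082280b7ee7f07f882a7f081e7fe7dc7f88158017fa7f28117e28107ef1011
 z (n 18 z z)))))))) (n 27 (n 0 z (n 0 z (n 6496515 z (n 0 z (n 0 z (n 26 z (n 34 z (n 0 z (n 42
 z (n 0 z (n 0 z (n 0 z (n 6496515 z (n 50 z (n 0 z (n 58 z (n
 0x19951944806018ca8ca04038008457db7ab85e7e68647ea83a8087e28227ff83a7d37e67ee82b7e080583c7988187a380e7d18148228047c18008277fa7e47d37ec8597dd80d8047fb7d87f57d67d17fd8237d68168111011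
 z (n 0 z (n 66 z z))))))))))))))))))) (n 1 (n 0 z (n 0 z (n 0 z (n 0 z (n 0 z (n 2164299 z (n
 74 z z))))))) (n 0 (n 0 z (n 0 z (n 0 z (n 0 z (n 0 z (n 6619947 z (n 0 z z))))))) z)))))) (n
 165 (n 0 (n 747 (n 0 z (n 0 z (n 0 z (n 0 z (n 0 z (n 0 z (n 0 z z))))))) (n 747 (n 0 z (n 0 z
 (n 0 z (n 0 z (n 0 z (n 0 z (n 2 (n 2 (n 0 (n 4327531 z (n 4327531 z z)) (n 0 (n 4327531 z (n
 7751771 z z)) (n 0 z (n 0 z (n 0 (n 4327531 z (n 4327531 z z)) (n 0 (n 4327531 z (n 4327531 z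
 z)) z)))))) (n 2 (n 0 (n 4327531 z z) (n 0 (n 4327531 z z) (n 0 z (n 0 (n 4327531 z (n 4327531
 z z)) (n 0 z (n 0 z z)))))) (n 2 (n 0 z (n 0 z (n 0 z (n 0 z (n 0 z (n 0 z z)))))) (n 2 (n 0 (n
 324 z (n 324 z z)) (n 0 (n 324 z (n 7743579 z z)) (n 0 z (n 0 z (n 0 z (n 0 (n 324 z (n 324 z
 z)) z)))))) (n 2 (n 0 z (n 0 z (n 0 z (n 0 z (n 0 z (n 0 z z)))))) (n 2 (n 0 z (n 0 z (n 0 z (n
 0 z (n 0 z (n 0 z z)))))) (n 2 (n 0 z (n 0 z (n 0 z (n 0 z (n 0 z (n 0 z z)))))) z)))))))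
 z))))))) (n 81 (n 0 z (n 0 z (n 0 z (n 0 z (n 0 z (n 0 z (n 0 z (n 0 z z)))))))) (n 81 (n 0 z
 (n 0 z (n 0 z (n 0 z (n 0 z (n 0 z (n 0 z (n 0 z z)))))))) (n 81 (n 0 z (n 0 z (n 0 z (n 0 z (n
 0 z (n 0 z (n 0 z (n 2 (n 0 z (n 0 z (n 0 z (n 2 (n 0 (n 468 z z) (n 0 z (n 0 (n 468 z z) (n 0
 (n 7546907 z (n 468 z z)) (n 0 z (n 0 z z)))))) z)))) z)))))))) (n 81 (n 0 z (n 0 z (n 0 z (n 0
 z (n 0 z (n 0 z (n 0 z (n 0 z z)))))))) (n 81 (n 0 z (n 0 z (n 0 z (n 0 z (n 0 z (n 0 z (n 0 z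
 (n 0 z z)))))))) (n 81 (n 0 z (n 0 z (n 0 z (n 0 z (n 0 z (n 0 z (n 0 z (n 0 z z)))))))) (n 117
 (n 0 z (n 0 z (n 0 z z))) z))))))))) (n 0 (n 0 z (n 7 (n 0 z (n 0 z (n 0 z (n 0 z (n 0 z (n 0 z
 (n 0 z (n 0 z (n 0 z (n 0 z z)))))))))) (n 7 (n 0 z (n 0 z (n 0 z (n 0 z (n 0 z (n 0 z (n 0 z
 (n 0 z (n 0 z (n 0 z z)))))))))) (n 7 (n 0 z (n 0 z (n 2 (n 0 z (n 0 z (n 0 z (n 1 z z)))) (n 0
 z (n 0 z (n 0 z (n 0 z (n 0 z (n 0 z (n 0 z z)))))))))) (n 7 (n 0 z (n 0 z (n 0 z (n 0 z (n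
 7746571 z (n 0 z (n 0 z (n 0 z (n 0 z (n 0 z z)))))))))) (n 7 (n 0 z (n 0 z (n 0 z (n 0 z (n 0
 z (n 0 z (n 0 z (n 0 z (n 0 z (n 0 z z)))))))))) (n 7 (n 0 z (n 0 z (n 0 z (n 0 z (n 0 z (n 0 z
 (n 0 z (n 0 z (n 0 z (n 2 (n 1 z z) z)))))))))) (n 15 (n 0 z (n 0 z (n 0 z (n 0 z (n 0 z (n 0 z
 (n 0 z (n 0 z (n 0 z z))))))))) z)))))))) (n 0 (n 285 (n 0 z (n 0 z (n 0 z (n 0 z (n 0 z (n 0 z
 (n 0 z z))))))) (n 285 (n 0 z (n 0 z (n 0 z (n 0 z (n 0 z (n 0 z (n 0 z z))))))) (n 285 (n 0 z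
 (n 0 z (n 0 z (n 0 z (n 0 z (n 0 z (n 0 z z))))))) (n 285 (n 2 (n 0 z (n 0 z (n 2 (n 0 z (n 0 z
 (n 0 z (n 0 z (n 0 z (n 0 z z)))))) z))) (n 0 z (n 0 z (n 0 z (n 0 z (n 0 z (n 0 z z))))))) (n
 285 (n 0 z (n 0 z (n 0 z (n 0 z (n 0 z (n 2 (n 0 z (n 2 (n 0 z (n 0 z (n 0 z (n 0 z (n 0 z (n 0
 z z)))))) z)) (n 0 z z))))))) (n 285 (n 0 z (n 0 z (n 0 z (n 0 z (n 0 z (n 0 z (n 0 z z)))))))
 (n 21 (n 0 z (n 0 z (n 0 z (n 0 z (n 0 z (n 0 z (n 6498075 z z))))))) z))))))) (n 0 (n 0 z (n 0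
 z (n 0 z (n 0 z (n 0 z (n 249 (n 0 z (n 0 z (n 0 z (n 0 z (n 0 z z))))) z)))))) (n 0 (n 0 z (n
 0 z (n 0 z (n 0 z (n 249 (n 0 z (n 0 z (n 0 z (n 0 z (n 0 z z))))) z))))) (n 0 (n 0 z (n 0 z (n
 0 z (n 291 (n 0 z (n 0 z (n 0 z (n 0 z (n 0 z (n 0 z (n 0 z (n 0 z (n 0 z (n 0 z (n 0 z (n 0 z
 (n 0 z (n 0 z (n 0 z (n 0 z (n 0 z (n 0 z (n 0 z (n 0 z (n 0 z (n 2 z (n 0 z (n 0 z (n 0 z
 z))))))))))))))))))))))))) z)))) (n 0 (n 0 z (n 0 z (n 249 (n 0 z (n 0 z (n 0 z (n 0 z (n 0 z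
 (n 0 z (n 0 z (n 0 z (n 0 z (n 0 z (n 0 z (n
 0x118c9d0540e006ea8ca64078018017fe7ff8067ff8037fe8027ff7ff8018008017fd8018007fe8037ff8027fb8008008008018018047ff7fe8008027fd7fd7ff8008028007fe8047fd8007fd7fd8007ff8037fe8008041011
 z (n 0 z (n 0 z (n 0 z (n 0 z (n 0 z (n 0 z (n 0 z (n 0 z (n 0 z (n 0 z z))))))))))))))))))))))
 z))) (n 0 (n 0 z (n 483 (n 0 z (n 0 z (n 0 z (n 0 z (n 0 z (n 0 z (n 0 z (n 0 z (n 0 z (n 0 z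
 z)))))))))) z)) (n 0 (n 249 (n 0 z (n 0 z (n 0 z (n 0 z (n 0 z (n 0 z (n 0 z (n 0 z (n 6498075
 z (n 0 z (n 0 z (n 0 z (n 0 z (n 0 z (n 0 z (n 0 z (n 0 z (n 0 z (n 0 z z))))))))))))))))))) z)
 (n 0 z z)))))))))) (n 0 (n 0 z (n 0 z (n 1 (n 6496515 z (n 3282443 z (n 3282443 z (n 3282443 z
 (n 3282443 z (n 3282443 z z)))))) z))) (n 0 z z)))) (n
 0xd9d10cda8c5e4c43a3811cf514eced03471819eb00 (n 0 (n 299 (n 0 z (n 6492195 z (n 6492195 z (n 2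
 z (n 0 z (n 10 z (n 0 z (n 18 z z)))))))) (n 293 (n 0 z (n 0 z (n 6492195 z (n 0 z (n 6492195 z
 (n
 0xd310018620808080808080808080808080808181837f81817e80827f7f807e7f7c837e7e818182837f8281837e807c837e7f80837e7f840089
 z (n
 0xd319018632808080808080808080808080808181837f81817e80827f7f807e7f7c837e7e818182837f8281837e807c837e7f80837e7f840089
 z (n 6492195 z (n 0 z (n 26 z (n
 0x1594994100e00ca2a608070562153040391328a90201cad951950c064ec82a804074854365100386002a188488300150c4234260048621627f88684cb880ad2ee8188265787093668e85879080b856588d68927d817365c929b6a461858d9ca024ae6c76b93e7e59727e5009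
 z (n 34 z (n 0 z (n 0 z (n
 0xd310018620808080808080808080808080808181837f81817e80827f7f807e7f7c837e7e818182837f8281837e807c837e7f80837e7f840089
 z (n 0 z (n
 0xd329818653808080808080808080808080808181837f81817e80827f7f807e7f7c837e7e818182837f8281837e807c837e7f80837e7f840089
 z (n 0 z (n
 0xa86ca200380808080808080808080808080817f7f808180808081807f80817f80817f7f818181817f817f8280807d7f7f8280817e80810809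
 z (n 42 z (n 50 z (n 58 z z)))))))))))))))))))))) (n 9 (n 0 z (n 0 z (n 6627595 z (n 0 z z))))
 (n 123 (n 0 z (n 6492195 z (n 0 z (n 0 z (n 0 z z))))) (n 1 (n 0 z (n 0 z (n 0 z (n 0 z (n 0 z
 (n 2164299 z z)))))) (n 0 (n 0 z (n 0 z (n 0 z (n 0 z (n 6627595 z z))))) z)))))) (n 9 (n 0 (n
 0 z (n 0 z (n 621 (n 0 z (n 0 z (n 0 z (n 0 z z)))) (n 621 (n 0 z (n 0 z (n 0 z (n 2 (n 0 z (n
 0 z (n 0 z z))) z)))) (n 621 (n 0 z (n 0 z (n 0 z (n 0 z z)))) (n 621 (n 0 z (n 0 z (n 0 z (n 0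
 z z)))) (n 621 (n 0 z (n 0 z (n 0 z (n 0 z z)))) z))))))) (n 0 (n 0 z (n 615 (n 0 z (n 0 z (n 2
 (n 0 z (n 0 z (n 0 z (n 0 z z)))) (n 0 z (n 0 z (n 0 z (n 0 z z))))))) (n 615 (n 0 z (n 0 z (n
 0 z (n 0 z (n 0 z (n 0 z (n 0 z z))))))) (n 615 (n 0 z (n 0 z (n 0 z (n 0 z (n 0 z (n 0 z (n 2
 (n 0 z (n 0 z z)) z))))))) (n 615 (n 0 z (n 0 z (n 0 z (n 0 z (n 0 z (n 0 z (n 0 z z))))))) (n
 615 (n 0 z (n 0 z (n 0 z (n 0 z (n 2 z (n 0 z (n 0 z z))))))) z)))))) (n 0 (n 621 (n 0 z (n 0 z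
 (n 0 z (n 0 z (n 0 z (n 0 z (n 0 z (n 0 z (n 0 z (n 0 z (n 0 z (n 0 z (n 0 z z))))))))))))) (n
 621 (n 0 z (n 0 z (n 0 z (n 0 z (n 2 (n 0 z (n 0 z (n 0 z z))) (n 0 z (n 0 z (n 0 z (n 0 z (n 0
 z (n 0 z (n 0 z (n 0 z z))))))))))))) (n 621 (n 0 z (n 0 z (n 0 z (n 0 z (n 0 z (n 0 z (n 0 z
 (n 2 (n 0 z (n 0 z z)) (n 0 z (n 0 z (n 0 z (n 0 z (n 0 z z))))))))))))) (n 621 (n 0 z (n 0 z
 (n 0 z (n 0 z (n 0 z (n 0 z (n 0 z (n 0 z (n 0 z (n 0 z (n 0 z (n 0 z (n 0 z z))))))))))))) (n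
 621 (n 0 z (n 0 z (n 0 z (n 0 z (n 0 z (n 0 z (n 0 z (n 0 z (n 0 z (n 0 z (n 0 z (n 0 z (n 0 z
 z))))))))))))) z))))) (n 0 (n 0 z (n 0 z (n 0 z (n 0 z z)))) (n 0 (n 0 z (n 0 z (n 0 z z))) (n
 0 (n 0 z (n 0 z z)) (n 0 (n 0 z z) (n 0 z z)))))))) (n 0 (n 0 z (n 0 z (n 1 (n 6627595 z (n
 6492195 z (n 6627595 z (n 6627595 z (n 6627595 z (n 6627595 z z)))))) (n 0 z z)))) (n 0 z z))))
 (n 0x47574192bac495cac325bc126eb4094cc15a (n 0 (n 347 (n 3282443 z (n 0 z (n 0 z z))) (n 341 (n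
 0 z (n 3278363 z (n 0 z (n 0 z (n 0 z (n 0 z (n 0 z (n 0 z z)))))))) (n 9 (n 0 z (n 0 z (n
 6566403 z (n 0 z (n 6566403 z (n 0 z (n 0 z (n 0 z (n
 0x2ca8a802038208208207e17e17e07a08608607a181f81f81f85f86086185f7e07df8218208607a086189f0801 z
 (n 6566403 z (n
 0x65465430382ca6a862038608207e08218207e17e18207e18218207e085f81f85f8207e08208207e18208207e07e08201001
 z (n
 0x3590034c801864082082082086089f7a182082289f7e08208228207e179f8227e072281f7e282285f7e185f82300c1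
 z (n 2 z (n
 0x65465430382ca6a8620389f8218208208608218227e07a18218217e081f81f85f8207e07e08608208208207e082185f1001
 z (n
 0x2ca6ca620376081c89f8608a081e8208207a08df7e17a181f7e28608607607e17a07a091f8207e181f7e00801 z
 (n 0 z (n 0 z (n
 0x2ca8ca860789c8647627637a17e18207e181f8618a182085f82086081e81f7df8207e07e07e37e07e085f0801 z
 (n 10 z (n 0 z (n 0 z (n
 0x5951944c06032a32a081c165354010394ca6ca6007859aa05de82781f82a5e17a48e862795a7268a89986de92689ba5975c82199ca5c7e56589232001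
 z (n 0 z (n 6566403 z (n 6566403 z z))))))))))))))))))))))))) (n 3 (n 0 z (n 0 z (n 0 z (n 0 z
 (n 0x1aca8c80203859716b19768aa26698a989946ebaa6b290a3518db8dc64f72939fd6b730a186e15e85aa7210801
 z (n 0 z (n 0 z (n 6566403 z (n 0 z (n 0 z (n 0 z (n 0 z (n
 0x2ca8ca82037a082086081f82086081c7e085e82082182081f81f7e082181f8208208218208208208207e00801 z
 (n 0 z (n 0 z (n
 0x2ca2ca080386182085f7607e08208208608608207e182082082082082081e7e07df8208a08628207e085f0801 z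
 (n 18 z (n 0 z (n 0 z (n 0 z (n 0 z (n 0 z (n 0 z (n 0 z (n
 0xc65465210380ca2ca2007919755b975aba666a98ad8974f1c6862e9494137e18575945eb2a1eee7aabdc65c56c5ec8661001
 z (n 26 z (n 0 z (n 0 z (n
 0xca8ca82037e082085f82082082081e8608208208208208208208218208208208208208208208207e08200801 z (n
 0 z (n 0 z (n 6566403 z (n 0 z (n 0 z (n 0 z (n
 0x2ca8ca82078a082082082082079e8648207a28208208208208208a082082082079e82082082282082081f0801 z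
 (n 0 z (n 0 z (n 0 z (n 6566403 z (n 0 z z))))))))))))))))))))))))))))))))))))))))) (n 1 (n
 6566403 z (n 0 z (n 34 z (n 0 z (n 6566403 z (n 0 z (n 0 z (n 0 z (n 0 z (n 0 z (n 0 z (n 0 z
 (n 0 z z))))))))))))) (n 0 (n 0 z (n 0 z (n 42 z (n 0 z (n 50 z (n 0 z (n 0 z (n 2164315 z (n 0
 z (n 0 z z)))))))))) z)))))) (n 347 (n 0 (n 0 z (n 1065 (n 0 z (n 0 z (n 0 z (n 0 z (n 0 z (n 0
 z (n 0 z (n
 0x2ecaeca00372089d8208a282082181f86081f86086181f81f7e18618207df7e18207e085f8607e07e18200801 z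
 (n 0 z (n 0 z (n 0 z (n 0 z (n 0 z (n 0 z (n 0 z (n 0 z (n 0 z (n 0 z (n 0 z (n 0 z (n 0 z (n 0
 z (n 0 z (n 0 z (n 0 z (n 0 z (n 0 z (n 0 z (n 0 z z))))))))))))))))))))))))))))) (n 1065 (n 0
 z (n 0 z (n 0 z (n 2 (n 1 z (n 2 (n 0 z (n 0 z (n 0 z (n 0 z (n 0 z (n 0 z z)))))) (n 2 (n 0 (n
 68 z z) (n 0 (n 68 z z) (n 0 z (n 0 z (n 0 z (n 0 (n 68 z (n 68 z z)) z)))))) z))) (n 0 z (n 0
 z (n 0 z (n 0 z (n 0 z (n 0 z (n 0 z (n 0 z (n 0 z (n 0 z (n 0 z (n 0 z (n 0 z (n 0 z (n 0 z (n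
 0 z (n 0 z (n 0 z (n 0 z (n 0 z (n 0 z (n 0 z (n 0 z (n 0 z (n 0 z
 z))))))))))))))))))))))))))))) (n 21 (n 0 z (n 0 z (n 0 z (n 0 z (n 0 z (n 0 z (n 0 z (n 0 z (n
 0 z (n 0 z (n 0 z (n 0 z (n 0 z (n 0 z (n 0 z (n 0 z z)))))))))))))))) (n 17 (n 0 z (n 0 z (n 0
 z (n 0 z (n 0 z (n 0 z (n 0 z (n 0 z (n 0 z (n 0 z (n 0 z (n 0 z (n 0 z (n 0 z (n 0 z (n 0 z (n
 0 z (n 0 z (n 0 z (n 0 z (n 0 z (n 0 z (n 0 z (n 0 z (n 0 z (n 0 z (n 0 z (n 0 z (n 0 z (n 0 z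
 (n 0 z (n 0 z (n 0 z (n 0 z (n 0 z (n 0 z (n 0 z (n 0 z (n 0 z (n 0 z (n 0 z (n 0 z (n 0 z (n 0
 z (n 0 z (n 0 z z)))))))))))))))))))))))))))))))))))))))))))))) (n 17 (n 0 z (n 0 z (n 0 z (n 0
 z (n 0 z (n 0 z (n 0 z (n 0 z (n 0 z (n 0 z (n 0 z (n 2 z (n 0 z (n 0 z (n 0 z (n 0 z (n 0 z (n
 0 z (n 0 z (n 0 z (n 0 z (n 0 z (n 0 z (n 0 z (n 0 z (n 0 z (n 0 z (n 0 z (n 0 z (n 0 z (n 0 z
 (n 0 z (n 0 z (n 0 z (n 0 z (n 0 z (n 0 z (n 0 z (n 0 z (n 0 z (n 0 z (n 0 z (n 0 z (n 0 z (n 0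
 z (n 0 z z)))))))))))))))))))))))))))))))))))))))))))))) z)))))) (n 0 (n 55 (n 0 z (n 0 z (n 0
 z (n 0 z (n 0 z (n 0 z (n 0 z (n 0 z (n 0 z (n 0 z (n 0 z (n 0 z (n 0 z (n 0 z (n 2 (n 0 z (n 1
 z (n 2 (n 0 z (n 0 z (n 0 z (n 0 z (n 0 (n 965 z z) (n 0 (n 196 z (n 196 z z)) z)))))) (n 1 z
 z)))) (n 0 z (n 0 z (n 0 z (n 0 z (n 0 z (n 0 z (n 0 z (n 0 z (n 0 z (n 0 z (n 0 z (n 0 z (n 0
 z (n 0 z (n 0 z (n 0 z (n 0 z (n 0 z (n 0 z (n 0 z (n 0 z z))))))))))))))))))))))))))))))))))))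
 (n 55 (n 0 z (n 0 z (n 0 z (n 0 z (n 0 z (n 0 z (n 0 z (n 0 z (n 0 z (n 0 z (n 0 z (n 0 z (n 0
 z (n 0 z (n 0 z (n 0 z (n 0 z (n 0 z (n 0 z (n 0 z (n 0 z (n 0 z (n 0 z (n 0 z (n 0 z (n 0 z (n
 0 z (n 0 z (n 0 z (n 0 z (n 0 z (n 0 z (n 0 z (n 0 z (n 0 z (n 0 z
 z)))))))))))))))))))))))))))))))))))) (n 51 (n 0 z (n 0 z (n 2 (n 2 (n 0 z (n 0 z (n 0 z (n 0 z
 (n 0 z (n 0 z z)))))) (n 2 (n 0 z (n 0 z (n 0 z (n 0 z (n 0 z (n 0 z z)))))) z)) (n 0 z (n 0 z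
 z))))) (n 49 (n 2 (n 0 z z) (n 0 z (n 0 z (n 0 z (n 0 z (n 0 z (n 0 z (n 0 z (n 0 z (n 0 z (n 0
 z (n 0 z (n 0 z (n 0 z (n 0 z (n 0 z (n 0 z (n 0 z (n 0 z (n 0 z (n 0 z (n 0 z (n 0 z (n 0 z (n
 0 z (n 0 z z)))))))))))))))))))))))))) (n 49 (n 0 z (n 0 z (n 2 z (n 0 z (n 0 z (n 0 z (n 0 z
 (n 0 z (n 0 z (n 0 z (n 0 z (n 0 z (n 0 z (n 0 z (n 0 z (n 0 z (n 0 z (n 0 z (n 0 z (n 0 z (n 0
 z (n 0 z (n 0 z (n 0 z (n 0 z (n 0 z z)))))))))))))))))))))))))) z))))) (n 0 (n 0 z (n 243 (n 0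
 z (n
 0x2ecaeca00372089d8208a282082181f86081f86086181f81f7e18618207df7e18207e085f8607e07e18200801 z
 (n 0 z (n 0 z (n 0 z (n 0 z (n 0 z (n 0 z (n 0 z (n 0 z (n 0 z (n 0 z (n 0 z (n 0 z (n 0 z (n 0
 z (n 0 z (n 0 z (n 0 z (n 0 z (n 0 z (n 0 z (n 0 z (n 0 z (n 0 z (n 0 z (n 0 z (n 0 z (n 0 z
 z))))))))))))))))))))))))))))) (n 241 (n 0 z (n 0 z (n 0 z (n 0 z z)))) (n 241 (n 0 z (n 0 z (n
 0 z (n 0 z z)))) z)))) (n 0 (n 15 (n 0 z (n 0 z (n 2 (n 2 (n 0 z (n 0 z (n 0 z (n 0 z (n 0 z (n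
 0 z z)))))) (n 2 (n 0 z (n 0 z (n 0 z (n 0 z (n 0 z (n 0 z z)))))) z)) (n 0 z (n 0 z (n 0 z (n
 0 z (n 0 z (n 0 z (n 0 z z)))))))))) (n 13 (n 2 (n 0 z z) (n 0 z (n 0 z (n 0 z (n 0 z (n 0 z (n
 0 z (n 0 z (n 0 z (n 0 z (n 0 z (n 0 z (n 0 z (n 0 z (n 0 z (n 0 z (n 0 z (n 0 z (n 0 z (n 0 z
 (n 0 z (n 0 z (n 0 z (n 0 z (n 0 z (n 0 z (n 0 z (n 0 z z)))))))))))))))))))))))))))) (n 13 (n
 0 z (n 0 z (n 0 z (n 0 z (n 0 z (n 0 z (n 0 z (n 2 z (n 0 z (n 0 z (n 0 z (n 0 z (n 0 z (n 0 z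
 (n 0 z (n 0 z (n 0 z (n 0 z (n 0 z (n 0 z (n 0 z (n 0 z (n 0 z (n 0 z (n 0 z (n 0 z (n 0 z (n 0
 z z)))))))))))))))))))))))))))) z))) (n 0 (n 1 (n 0 z (n 0 z (n 0 z (n 0 z (n 0 z (n 0 z
 z)))))) (n 1 (n 0 z (n 0 z (n 0 z (n 2 z (n 0 z (n 0 z z)))))) z)) (n 0 (n 0 z z) (n 0 z
 z))))))) (n 0 (n 1 (n 3282443 z (n 6566403 z (n 3282443 z (n 3282443 z (n 3282443 z (n 3282443
 z z)))))) (n 0 z (n 0 z z))) (n 0 z z)))) (n 0xa246b11231a0916d408a6a204e8a20266e00d4480 (n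
 0x1a891 (n 153 (n 0 z (n 0 z (n 0 z (n 0 z (n 0 z (n 0 z (n 0 z (n 2 z (n 3282443 z (n 0 z (n 0
 z (n 10 z (n 0 z (n 0 z (n 0 z (n 18 z (n 0 z (n 0 z (n 0 z z))))))))))))))))))) (n 261 (n 26 z
 (n 0 z (n 3278363 z (n 0 z z)))) (n 129 (n 3212843 z (n 0 z (n 34 z (n 0 z z)))) (n 29 (n 42 z
 (n 0 z (n 0 z (n 0 z (n 6636291 z (n 0 z z)))))) (n 1 (n 50 z (n 0 z (n 6636291 z (n 0 z (n 0 z
 (n 0 z (n 0 z z))))))) (n 0 (n 58 z (n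
 0x14ca88426077e0820820820820a615a271f868b19a19623710b22b11ae74eb39c6689998dd66e5f655295f0801 z
 (n 0xcca642080382082082082082079c7e38a0820520766a9b9a866685aa62994857ba195b5ec7a89987a37570801
 z (n 0xc86c864078a08208208208206a092475f7a06a17649a082486275ba5b8d78df9a285e8218e195d7a175a0801
 z (n 0 z (n 6636291 z (n 0 z z))))))) z)))))) (n 261 (n 0 (n 0 z (n 0 z (n 523 (n 0 z (n 0 z (n
 0 z (n 0 z (n 0 z (n 0 z (n 0 z (n 0 z (n 0 z (n 0 z (n 0 z (n 0 z (n 0 z (n 0 z (n 0 z (n 0 z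
 (n 0 z (n 0 z (n 0 z z))))))))))))))))))) (n 35 (n 0 z (n 0 z (n 0 z (n 0 z (n 0 z (n 0 z (n 0
 z (n 0 z (n 0 z (n 0 z (n 0 z (n 0 z (n 0 z (n 0 z (n 0 z (n 0 z (n 0 z (n 0 z (n 0 z
 z))))))))))))))))))) (n 7 (n 0 z (n 0 z (n 0 z (n 0 z (n 0 z (n 0 z (n 0 z (n 0 z (n 0 z (n 0 z
 (n 0 z (n 0 z (n 0 z (n 0 z (n 0 z (n 0 z (n 0 z (n 0 z z)))))))))))))))))) (n 489 (n 0 z (n 0
 z (n 0 z (n 0 z (n 0 z (n 0 z (n 0 z (n 0 z (n 0 z (n 0 z (n 0 z (n 0 z (n 0 z (n 0 z (n 0 z (n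
 0 z (n 0 z (n 0 z z)))))))))))))))))) (n 289 (n 0 z (n 0 z (n 0 z (n 0 z (n 0 z (n 0 z (n 0 z
 (n 0 z (n 0 z (n 0 z (n 0 z (n 0 z (n 0 z (n 0 z (n 0 z (n 0 z (n 0 z (n 0 z
 z)))))))))))))))))) z))))))) (n 0 (n 0 z (n 679 (n 0 z (n 0 z (n 0 z (n 0 z (n 0 z (n 0 z (n 0
 z (n 0 z (n 0 z (n 0 z (n 0 z (n 0 z (n 0 z (n 0 z (n 0 z z))))))))))))))) (n 775 (n 0 z (n 0 z
 (n 0 z (n 0 z (n 0 z (n 0 z (n 0 z (n 0 z (n 0 z (n 0 z (n 0 z z))))))))))) (n 567 (n 2 (n 1 z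
 (n 1 z z)) (n 0 z (n 0 z (n 0 z (n 0 z (n 0 z (n 0 z (n 0 z z)))))))) (n 309 (n 0 z (n 0 z (n 0
 z (n 0 z (n 0 z (n 0 z (n 0 z (n 0 z (n 0 z (n 0 z (n 0 z (n 0 z (n 0 z (n 0 z z))))))))))))))
 (n 305 (n 0 z (n 0 z (n 0 z (n 0 z (n 2 z (n 0 z (n 0 z (n 0 z (n 0 z z))))))))) z)))))) (n 0
 (n 739 (n 0 z (n 0 z (n 0 z (n 0 z (n 0 z (n 0 z (n 0 z (n 0 z (n 0 z (n 0 z (n 0 z (n 0 z (n 0
 z z))))))))))))) (n 259 (n 0 z (n 0 z (n 0 z (n 0 z (n 0 z (n 0 z (n 0 z (n 0 z (n 0 z (n 0 z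
 (n 0 z (n 0 z (n 0 z (n 0 z (n 0 z (n 0 z (n 0 z (n 0 z (n 0 z (n 0 z z)))))))))))))))))))) (n
 295 (n 0 z (n 0 z (n 0 z (n 0 z (n 0 z (n 0 z (n 0 z (n 0 z z)))))))) (n 339 (n 0 z (n 0 z (n 0
 z (n 0 z (n 0 z z))))) (n 337 (n 0 z (n 0 z (n 0 z (n 0 z (n 0 z (n 0 z (n 0 z (n 0 z (n 0 z (n
 0 z (n 0 z (n 0 z (n 0 z (n 0 z (n 0 z (n 0 z (n 0 z z))))))))))))))))) z))))) (n 0 (n 275 (n 0
 z (n 0 z (n 0 z (n 0 z z)))) (n 59 (n 0 z (n 0 z (n 0 z (n 0 z (n 0 z (n 0 z (n 0 z z))))))) (n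
 57 (n 0 z (n 0 z (n 0 z (n 0 z (n 0 z (n 0 z (n 0 z z))))))) (n 5 (n 0 z (n 0 z (n 0 z (n 0 z
 (n 0 z (n 0 z z)))))) z)))) (n 0 (n 55 (n 0 z (n 0 z (n 0 z (n 0 z (n 0 z (n 0 z (n 0 z
 z))))))) (n 3 (n 0 z (n 0 z (n 0 z (n 0 z (n 0 z (n 0 z z)))))) (n 53 (n 0 z (n 0 z (n 0 z (n 0
 z (n 0 z (n 0 z (n 0 z z))))))) z))) (n 0 (n 63 (n 0 z (n 0 z (n 0 z (n 0 z (n 0 z (n 0 z (n 0
 z z))))))) (n 97 (n 0 z (n 0 z (n 0 z (n 0 z (n 0 z (n 0 z (n 0 z z))))))) z)) (n 0 (n 5 (n 0 z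
 (n 0 z (n 0 z (n 0 z (n 0 z (n 0 z (n 0 z z))))))) z) (n 0 z z)))))))) (n 0 (n 1 (n 1228 z (n 2
 z (n 1228 z (n 1228 z (n 1228 z (n 1228 z z)))))) (n 0 z (n 1 (n 3278363 z (n 3278363 z (n
 3278363 z (n 3278363 z (n 3278363 z (n 3278363 z z)))))) (n 0 z z)))) (n 0 (n 0 (n 0 (n 0 (n
 7741699 z (n 7741699 z (n 7741699 z (n 7741699 z (n 7741699 z (n 7741699 z z)))))) z) (n 0 (n 3
 (n 0 z (n 1 (n 7603515 z (n 1228 z (n 1228 z (n 1228 z (n 1228 z (n 7668795 z z)))))) (n 1 (n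
 6496627 z (n 4331275 z (n 3282699 z (n 4331275 z (n 4331275 z (n 4331275 z z)))))) (n 0 z (n 1
 (n 7407147 z (n 7407147 z (n 7407147 z (n 7407147 z (n 7407147 z (n 7407147 z z)))))) (n 0 z (n
 0 z (n 1 (n 1228 z (n 1228 z (n 2092 z (n 7603515 z (n 1228 z (n 7668795 z z)))))) (n 1 (n
 7668795 z (n 1228 z (n 1228 z (n 1228 z (n 7603515 z (n 1228 z z)))))) (n 1 (n 7746067 z (n
 7746067 z (n 7746067 z (n 7746067 z (n 7746067 z (n 7746067 z z)))))) (n 1 (n 7668795 z (n 1228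
 z (n 1228 z (n 1228 z (n 6494043 z (n 7603515 z z)))))) (n 1 (n 1228 z (n 1228 z (n 7668795 z
 (n 1228 z (n 1228 z (n 7603515 z z)))))) (n 0 z (n 0 z (n 0 z (n 0 z (n 0 z (n 0 z
 z)))))))))))))))))) (n 261 (n 1 (n 7741699 z (n 7741699 z (n 7741699 z (n 7741699 z (n 7741699
 z (n 7741699 z z)))))) (n 0 z (n 1 (n 7741699 z (n 7741699 z (n 7741699 z (n 7741699 z (n
 7741699 z (n 7741699 z z)))))) (n 0 z z)))) (n 257 (n 1 (n 7741699 z (n 7741699 z (n 7741699 z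
 (n 7741699 z (n 7741699 z (n 7741699 z z)))))) (n 0 z (n 1 (n 7741699 z (n 7741699 z (n 7741699
 z (n 7741699 z (n 7741699 z (n 7741699 z z)))))) (n 0 z z)))) (n 29 (n 1 (n 7741699 z (n
 7741699 z (n 7741699 z (n 7741699 z (n 7741699 z (n 7741699 z z)))))) (n 0 z (n 0 z (n 0 z (n 1
 (n 7684867 z (n 7684867 z (n 7684867 z (n 7684867 z (n 7684867 z (n 7684867 z z)))))) (n 0 z
 z)))))) (n 15 (n 1 (n 7741699 z (n 7741699 z (n 7741699 z (n 7741699 z (n 7741699 z (n 7741699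
 z z)))))) (n 0 z (n 0 z (n 0 z (n 1 (n 7684867 z (n 7684867 z (n 7684867 z (n 7684867 z (n
 7684867 z (n 7684867 z z)))))) (n 0 z z)))))) (n 107 (n 1 (n 7741699 z (n 7741699 z (n 7741699
 z (n 7741699 z (n 7741699 z (n 7741699 z z)))))) (n 0 z (n 0 z (n 0 z (n 1 (n 7684867 z (n
 7684867 z (n 7684867 z (n 7684867 z (n 7684867 z (n 7684867 z z)))))) (n 0 z z)))))) (n 261 (n
 1 (n 7741699 z (n 7741699 z (n 7741699 z (n 7741699 z (n 7741699 z (n 7741699 z z)))))) (n 0 z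
 (n 1 (n 7741699 z (n 7741699 z (n 7741699 z (n 7741699 z (n 7741699 z (n 7741699 z z)))))) (n 0
 z z)))) z))))))) (n 0 z (n 0 (n 285 (n 0 z (n 0 z (n 0 z (n 0 z (n 0 z (n 0 z (n 0 z (n 0 z (n
 0 z (n 0 z (n 0 z (n 0 z (n 0 z (n 0 z (n 0 z (n 0 z (n 0 z (n 0 z (n 0 z z)))))))))))))))))))
 (n 281 (n 0 z (n 0 z (n 0 z (n 0 z (n 0 z (n 0 z (n 0 z (n 0 z (n 0 z (n 0 z (n 0 z (n 0 z (n 0
 z (n 0 z (n 0 z (n 0 z (n 0 z (n 0 z (n 0 z z))))))))))))))))))) (n 257 (n 0 z (n 0 z (n 0 z (n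
 0 z z)))) (n 393 (n 0 z (n 0 z (n 0 z (n 0 z (n 0 z (n 0 z (n 0 z (n 0 z (n 0 z (n 0 z (n 0 z
 (n 0 z (n 0 z (n 0 z (n 0 z (n 0 z (n 0 z (n 0 z z)))))))))))))))))) (n 35 (n 0 z (n 0 z (n 0 z
 (n 0 z (n 0 z (n 0 z (n 0 z z))))))) (n 51 (n 0 z (n 0 z (n 0 z (n 0 z (n 0 z (n 0 z (n 0 z
 z))))))) (n 323 (n 0 z (n 0 z (n 0 z (n 0 z (n 0 z (n 0 z (n 0 z (n 0 z (n 0 z (n 0 z (n 0 z (n
 0 z (n 0 z (n 0 z (n 0 z (n 0 z (n 0 z (n 0 z z)))))))))))))))))) (n 41 (n 0 z (n 0 z (n 0 z (n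
 0 z (n 0 z (n 0 z (n 0 z z))))))) (n 15 (n 0 z (n 0 z (n 0 z (n 0 z (n 0 z (n 0 z z)))))) (n 37
 (n 0 z (n 0 z (n 0 z (n 0 z (n 0 z (n 0 z (n 0 z z))))))) (n 165 (n 0 z (n 0 z (n 0 z (n 0 z (n
 0 z (n 0 z (n 0 z (n 0 z (n 0 z (n 0 z (n 0 z (n 0 z (n 0 z (n 0 z (n 0 z (n 0 z (n 0 z (n 0 z
 z)))))))))))))))))) (n 107 (n 0 z (n 0 z (n 0 z (n 0 z (n 0 z (n 0 z z)))))) (n 101 (n 0 z (n 0
 z (n 0 z (n 0 z (n 0 z (n 0 z (n 0 z z))))))) (n 97 (n 0 z (n 0 z (n 0 z (n 0 z (n 0 z (n 0 z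
 (n 0 z z))))))) (n 4 (n 0 z (n 0 z (n 0 z (n 0 z (n 0 z (n 0 z (n 0 z z))))))) (n 153 (n 0 z (n
 0 z (n 0 z (n 0 z (n 0 z (n 0 z (n 0 z (n 0 z (n 0 z (n 0 z (n 0 z (n 0 z (n 0 z (n 0 z (n 0 z
 (n 0 z (n 0 z (n 0 z (n 0 z z))))))))))))))))))) (n 261 (n 0 z (n 0 z (n 0 z (n 0 z z)))) (n
 129 (n 0 z (n 0 z (n 0 z (n 0 z z)))) (n 29 (n 0 z (n 0 z (n 0 z (n 0 z (n 0 z (n 0 z z))))))
 (n 1 (n 0 z (n 0 z (n 0 z (n 0 z (n 0 z (n 0 z (n 0 z z))))))) (n 0 (n 0 z (n 0 z (n 0 z (n 0 z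
 (n 0 z (n 0 z (n 0 z z))))))) z))))))))))))))))))))) z)))) z) z)))) (n 0xcd67706b39b3580 (n 0
 (n 515 (n
 0x2ca8c6240382082082082182081f8608207e082082082082082082082182082082082082182082081f8200801 z
 (n 3282443 z (n 0 z (n 0 z (n
 0xca8ca86038208208208208208208208208208208208208208208607e08208208208608208208208208600801 z (n
 0x4ca8a82407153dca5207f47605aac188a06a0c60b2092161eb5e4e09a74e341895f41f7a18209206e6b5d0801 z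
 (n 0 z (n
 0x4ca8ca840349fa936e092b7a06a4a1b7e0620aa2aa09e169c8e05a09286a461e95c59f9258209a07e2a600801 z
 (n 0 z (n
 0x6ca8ca860349ea557208a47e06a599e8206e0a629609e275d7de6207e66a465e8df65f868820960867a1f0801 z
 (n 2 z (n 0 z (n
 0x6ca6ca480359e8d27609668a0820a1c820660a1fa6096169e8656609656a369d8dd6208e18209e081e9a10801 z
 (n 0 z (n 0 z (n 0 z (n
 0x265365240180ca8a8640759f9557e08e58607e09dc8606e0a1fa2092171f8635e08e66e26df91c65f8a38209a07e09611001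
 z (n 0 z (n
 0x2ca8ca840382082082082082081f8218208208208208208208608208207e082081f8208208208208208200801 z
 z))))))))))))))))))) (n 59 (n 0 z (n 6496515 z (n 0 z z))) (n 53 (n 6496515 z (n 0 z (n 0 z (n
 0 z z)))) (n 3 (n 0 z (n 6496515 z (n 0 z (n 0 z (n 0 z (n 0 z z)))))) (n 49 (n 0 z (n 0 z (n
 10 z (n 2164299 z z)))) (n 0 (n 0 z (n 0 z (n 2164315 z (n 18 z z)))) z)))))) (n 59 (n 0 (n
 1357 (n 0 z (n 0 z (n 0 z (n 0 z (n 0 z (n 0 z (n 0 z (n 0 z (n 0 z (n 0 z (n 0 z (n 0 z (n 0 z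
 (n 0 z (n 0 z (n 0 z (n 0 z (n 0 z (n 0 z z))))))))))))))))))) (n 65 (n 0 z (n 0 z (n 0 z (n 0
 z (n 0 z (n 0 z (n 0 z (n 0 z (n 0 z (n 0 z (n 0 z (n 0 z (n 0 z (n 0 z (n 0 z (n 0 z (n 0 z (n
 0 z (n 0 z z))))))))))))))))))) z)) (n 0 (n 61 (n 0 z (n 0 z (n 0 z (n 0 z z)))) z) (n 0 z z)))
 (n 0 (n 0 z (n 1 (n 6496515 z (n 6496515 z (n 6496515 z (n 6496515 z (n 6496515 z (n 6496515 z
 z)))))) (n 0 z z))) (n 0 z z)))) (n 0xd48d82a4642122e1a1150d409c64404c51021a90066300 (n 0x21a91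
 (n 177 (n 2 z (n 6489419 z (n 0 z (n 0 z (n
 0x2ca8ca86037a08208208208208a27dd7a191c8e57a27257a27a186081f82079e89f7df8a27e17e17a08600801 z
 (n 0 z (n 3282443 z (n 0 z (n 0 z (n 10 z (n 0 z (n 18 z (n 26 z z))))))))))))) (n 261 (n
 0x2ca8a806078608208208208207e386076185e8a57617637a282185f81e8208208208608e17e07a18207e00801 z
 (n 34 z (n 0 z (n 0 z (n 3278363 z (n 0 z (n 0 z z))))))) (n 129 (n
 0x2ca8a806078608208208208207e386076185e8a57617637a282185f81e8208208208608e17e07a18207e00801 z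
 (n 3212843 z (n 0 z (n 0 z (n 42 z (n 0 z (n 0 z z))))))) (n 29 (n 50 z (n 0 z (n 0 z (n 0 z (n
 6636291 z z))))) (n 1 (n 0 z (n 0 z (n 0 z (n 0 z (n 58 z (n 0 z (n 0 z (n 0 z (n 0 z (n 0 z (n
 0 z (n 0 z (n 0 z (n 6636291 z z)))))))))))))) (n 0 (n 0 z (n 66 z (n 0 z (n 0 z (n 0 z (n 0 z
 (n 0 z (n 0 z (n 0 z (n 0 z (n 0 z (n 0 z (n 6636291 z z))))))))))))) z)))))) (n 29 (n 0 (n 0 z
 (n 0 z (n 0 z (n 95 (n 0 z (n 0 z (n 0 z (n 0 z (n 0 z (n 0 z (n 0 z (n 0 z (n 0 z (n 0 z (n 0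
 z (n 0 z (n 0 z (n 0 z (n 0 z (n 0 z (n 0 z (n 0 z (n 0 z (n 0 z (n 0 z (n 0 z (n 0 z (n 0 z (n
 0 z (n 0 z (n 0 z (n 0 z (n 0 z (n 0 z (n 2 (n 1 z (n 1 z (n 1 z (n 1 z z)))) (n 0 z (n 0 z (n
 0 z (n 0 z (n 0 z z)))))))))))))))))))))))))))))))))))) (n 203 (n 0 z (n 0 z (n 0 z (n 0 z (n 0
 z (n 0 z (n 0 z (n 0 z (n 0 z (n 0 z (n 0 z (n 0 z (n 0 z (n 0 z (n 0 z (n 0 z (n 0 z (n 0 z (n
 0 z (n 0 z (n 0 z (n 0 z (n 0 z (n 0 z (n 0 z (n 0 z (n 2 (n 1 z (n 1 z (n 1 z z))) (n 0 z (n 0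
 z (n 0 z (n 0 z (n 0 z z)))))))))))))))))))))))))))))))) (n 519 (n 0 z (n 2 (n 1 z (n 1 z z))
 (n 0 z (n 0 z (n 0 z (n 0 z (n 0 z (n 0 z (n 0 z (n 0 z (n 0 z (n 0 z (n 0 z (n 0 z (n 0 z
 z))))))))))))))) (n 517 (n 0 z (n 0 z (n 0 z (n 0 z (n 0 z (n 0 z (n 2 (n 1 z z) (n 0 z (n 0 z
 (n 0 z (n 0 z z))))))))))) (n 349 (n 2 z (n 0 z (n 0 z (n 0 z (n 0 z (n 0 z (n 0 z z)))))))
 z)))))))) (n 0 (n 0 z (n 0 z (n 679 (n 0 z (n 0 z (n 0 z (n 0 z (n 0 z (n 0 z (n 0 z (n 0 z (n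
 0 z (n 0 z (n 0 z (n 0 z (n 0 z z))))))))))))) (n 155 (n 0 z (n 0 z (n 0 z (n 0 z (n 0 z (n 0 z
 (n 0 z (n 0 z (n 0 z (n 0 z (n 0 z (n 0 z (n 0 z z))))))))))))) (n 147 (n 0 z (n 0 z (n 0 z (n
 0 z (n 0 z (n 0 z (n 0 z (n 0 z (n 0 z (n 0 z (n 0 z (n 0 z (n 0 z (n 0 z (n 0 z (n 0 z (n 0 z
 (n 0 z (n 0 z (n 0 z (n 0 z (n 0 z (n 0 z (n 0 z (n 0 z (n 0 z (n 0 z (n 0 z (n 0 z (n 0 z
 z)))))))))))))))))))))))))))))) (n 673 (n 0 z (n 0 z (n 0 z (n 0 z (n 0 z (n 0 z (n 0 z (n 0 z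
 (n 0 z (n 0 z (n 0 z (n 0 z (n 0 z (n 0 z (n 0 z (n 0 z (n 0 z (n 0 z (n 0 z (n 0 z (n 0 z (n 0
 z (n 0 z (n 0 z (n 0 z (n 0 z (n 0 z (n 0 z (n 0 z (n 0 z z)))))))))))))))))))))))))))))) (n
 349 (n 0 z (n 0 z (n 0 z (n 0 z (n 0 z (n 0 z (n 0 z (n 0 z (n 0 z (n 0 z (n 0 z (n 0 z (n 0 z
 (n 0 z (n 0 z (n 0 z (n 0 z (n 0 z (n 0 z (n 0 z (n 0 z (n 0 z (n 0 z (n 0 z (n 0 z (n 0 z (n 0
 z (n 0 z (n 0 z (n 0 z z)))))))))))))))))))))))))))))) z))))))) (n 0 (n 0 z (n 679 (n 0 z (n 2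
 (n 1 z (n 1 z (n 1 z (n 1 z z)))) (n 0 z (n 0 z (n 0 z (n 0 z z)))))) (n 23 (n 2 (n 1 z (n 1 z
 (n 1 z z))) (n 0 z (n 0 z (n 0 z (n 0 z (n 0 z (n 0 z (n 0 z (n 0 z (n 0 z (n 0 z (n 0 z (n 0 z
 (n 0 z (n 0 z (n 0 z (n 0 z (n 0 z (n 0 z (n 0 z (n 0 z (n 0 z (n 0 z (n 0 z (n 0 z (n 0 z (n 0
 z (n 0 z (n 0 z (n 0 z (n 0 z (n 0 z (n 0 z (n 0 z (n 0 z (n 0 z
 z)))))))))))))))))))))))))))))))))))) (n 11 (n 2 (n 1 z (n 1 z z)) (n 0 z (n 0 z (n 0 z (n 0 z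
 (n 0 z (n 0 z z))))))) (n 15 (n 0 z (n 0 z (n 0 z (n 0 z (n 2 (n 1 z z) (n 0 z (n 0 z (n 0 z (n
 0 z (n 0 z (n 0 z (n 0 z z)))))))))))) (n 253 (n 2 z (n 0 z (n 0 z (n 0 z (n 0 z (n 0 z (n 0 z
 (n 0 z z)))))))) z)))))) (n 0 (n 163 (n 0 z (n 0 z (n 0 z (n 0 z (n 0 z (n 0 z (n 0 z (n 0 z (n
 0 z (n 0 z (n 0 z (n 0 z (n 0 z (n 0 z (n 0 z (n 0 z (n 0 z (n 0 z (n 0 z (n 0 z (n 0 z (n 0 z
 (n 0 z (n 0 z (n 2 (n 1 z (n 1 z (n 1 z (n 1 z z)))) (n 0 z (n 0 z (n 0 z (n 0 z (n 0 z (n 0 z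
 (n 0 z z)))))))))))))))))))))))))))))))) (n 343 (n 0 z (n 0 z (n 0 z (n 0 z (n 2 (n 1 z (n 1 z
 (n 1 z z))) (n 0 z z)))))) (n 147 (n 0 z (n 0 z (n 0 z (n 0 z (n 2 (n 1 z (n 1 z z)) (n 0 z (n
 0 z z))))))) (n 351 (n 0 z (n 0 z (n 0 z (n 0 z (n 0 z (n 2 (n 1 z z) (n 0 z (n 0 z (n 0 z (n 0
 z z)))))))))) (n 337 (n 2 z (n 0 z (n 0 z (n 0 z (n 0 z (n 0 z (n 0 z z))))))) z))))) (n 0 (n
 275 (n 0 z (n 0 z (n 0 z (n 0 z (n 0 z (n 0 z (n 0 z z))))))) (n 59 (n 0 z (n 0 z (n 0 z (n 0 z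
 (n 0 z (n 0 z (n 0 z (n 0 z (n 0 z (n 0 z (n 0 z (n 0 z (n 0 z (n 0 z z)))))))))))))) (n 57 (n
 0 z (n 0 z (n 0 z (n 0 z (n 0 z (n 0 z (n 0 z (n 0 z (n 0 z (n 0 z (n 0 z (n 0 z (n 0 z
 z))))))))))))) (n 5 (n 0 z (n 0 z (n 0 z (n 0 z (n 0 z z))))) z)))) (n 0 (n 55 (n 0 z (n 0 z (n
 0 z (n 0 z (n 0 z (n 0 z (n 0 z (n 0 z (n 0 z (n 0 z (n 0 z (n 0 z (n 0 z z))))))))))))) (n 3
 (n 0 z (n 0 z (n 0 z (n 0 z (n 0 z z))))) (n 53 (n 0 z (n 0 z (n 0 z (n 0 z (n 0 z (n 0 z (n 0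
 z (n 0 z (n 0 z (n 0 z (n 0 z (n 0 z (n 0 z (n 0 z z)))))))))))))) z))) (n 0 (n 63 (n 0 z (n 0
 z (n 0 z z))) (n 97 (n 0 z (n 0 z (n 0 z z))) z)) (n 0 (n 5 (n 0 z (n 0 z (n 0 z z))) z) (n 0 z
 z))))))))) (n 0 (n 1 (n 3278363 z (n 1420 z (n 1420 z (n 3212843 z (n 2 z (n 1420 z z)))))) (n
 0 z (n 0 z (n 0 z (n 1 (n 6636291 z (n 6636291 z (n 6636291 z (n 6636291 z (n 6636291 z (n
 6636291 z z)))))) z))))) (n 0 (n 0x38c880931440466300 (n 0 (n 0 (n 7741699 z (n 7741699 z (n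
 7741699 z (n 7741699 z (n 7741699 z (n 7741699 z z)))))) z) (n 0 (n 177 (n 1 (n 7407147 z (n 2
 z (n 2716 z (n 7472667 z (n 2716 z (n 2716 z z)))))) (n 1 (n 7407147 z (n 6635891 z (n 7537995
 z (n 7537995 z (n 7537995 z (n 7537995 z z)))))) (n 0 z (n 0 z (n 1 (n 6629131 z (n 7472667 z
 (n 2716 z (n 2716 z (n 2716 z (n 2716 z z)))))) (n 0 z (n 1 (n 3282699 z (n 3282699 z (n
 6636403 z (n 3282699 z (n 3282699 z (n 3282699 z z)))))) (n 0 z (n 0 z (n 1 (n 7733787 z (n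
 7733787 z (n 7733787 z (n 7733787 z (n 7733787 z (n 7733787 z z)))))) (n 0 z (n 1 (n 7472667 z
 (n 6498075 z (n 2716 z (n 10 z (n 6559547 z (n 2716 z z)))))) (n 1 (n 18 z (n 7472667 z (n 2716
 z (n 7407147 z (n 6629179 z (n 2716 z z)))))) z))))))))))))) (n 2 (n 1 (n 7741699 z (n 7741699
 z (n 7741699 z (n 7741699 z (n 7741699 z (n 7741699 z z)))))) (n 0 z (n 0 z (n 0 z (n 1 (n
 7684867 z (n 7684867 z (n 7684867 z (n 7684867 z (n 7684867 z (n 7684867 z z)))))) z))))) (n 1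
 (n 1 (n 7741699 z (n 7741699 z (n 7741699 z (n 7741699 z (n 7741699 z (n 7741699 z z)))))) (n 0
 z (n 0 z (n 0 z (n 1 (n 7684867 z (n 7684867 z (n 7684867 z (n 7684867 z (n 7684867 z (n
 7684867 z z)))))) z))))) (n 31 (n 1 (n 7684867 z (n 7684867 z (n 7684867 z (n 7684867 z (n
 7684867 z (n 7684867 z z)))))) (n 0 z (n 1 (n 7684867 z (n 7684867 z (n 7684867 z (n 7684867 z
 (n 7684867 z (n 7684867 z z)))))) z))) (n 37 (n 1 (n 7684867 z (n 7684867 z (n 7684867 z (n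
 7684867 z (n 7684867 z (n 7684867 z z)))))) (n 0 z (n 1 (n 7684867 z (n 7684867 z (n 7684867 z
 (n 7684867 z (n 7684867 z (n 7684867 z z)))))) z))) (n 97 (n 1 (n 7684867 z (n 7684867 z (n
 7684867 z (n 7684867 z (n 7684867 z (n 7684867 z z)))))) (n 0 z (n 1 (n 7684867 z (n 7684867 z
 (n 7684867 z (n 7684867 z (n 7684867 z (n 7684867 z z)))))) z))) (n 29 (n 1 (n 7741699 z (n
 7741699 z (n 7741699 z (n 7741699 z (n 7741699 z (n 7741699 z z)))))) (n 0 z (n 0 z (n 0 z (n 1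
 (n 7684867 z (n 7684867 z (n 7684867 z (n 7684867 z (n 7684867 z (n 7684867 z z)))))) z)))))
 z))))))) (n 0 (n 0 (n 0 z (n 0 z (n 0 z z))) (n 0 (n 0 z (n 0 z z)) (n 0 (n 0 z z) z))) (n 0 (n
 345 (n 0 (n 0 z (n 0 z (n 0 z z))) (n 0 (n 0 z (n 0 z (n 0 z z))) (n 0 (n 0 z (n 0 z (n 0 z
 z))) (n 0 (n 0 z (n 0 z (n 0 z z))) (n 0 (n 0 z (n 0 z (n 0 z z))) (n 0 (n 0 (n 8855907 z (n
 8855907 z z)) (n 0 (n 8656699 z (n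
 0x43ac3aa01c1875853403830caea86037a08208208208208a089f7e08208a07e08218207e086081e82082082081f8208208208208201801
 z z)) (n 0 (n 8864595 z (n 8864595 z z)) z))) (n 0 (n 0 z (n 0 z (n 0 z z))) (n 0 (n 0 z (n 0 z
 (n 0 z z))) (n 0 (n 0 z (n 0 z (n 0 z z))) (n 0 (n 0 z (n 0 z (n 0 z z))) (n 0 (n 0 (n
 0x1d8758a08208208208207a28217a181e86385f91f8df8217e182086082185e86189e8607617a07df0041 z (n
 7678011 z z)) (n 0 (n 8656699 z (n 8800091 z z)) (n 0 (n 8864595 z (n 8864595 z z)) z))) (n 0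
 (n 0 z (n 0 z (n 0 z z))) (n 0 (n 0 z (n 0 z (n 0 z z))) z))))))))))))) (n 323 (n 0 (n 0 z (n 0
 z (n 0 z z))) (n 0 (n 0 z (n 0 z (n 0 z z))) (n 0 (n 0 z (n 0 z (n 0 z z))) (n 0 (n 0 z (n 0 z
 (n 0 z z))) (n 0 (n 0 z (n 0 z (n 0 z z))) (n 0 (n 0 (n 8800027 z (n
 0xba9c28a01c0874874303830e90a86037a08208208208208a08608208218a07e08218207e082081e82082086081f8208608208208201801
 z z)) (n 0 (n 8868675 z (n 8868675 z z)) (n 0 (n 8872467 z (n 8872467 z z)) z))) (n 0 (n 0 z (n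
 0 z (n 0 z z))) (n 0 (n 0 z (n 0 z (n 0 z z))) (n 0 (n 0 z (n 0 z (n 0 z z))) (n 0 (n 0 z (n 0
 z (n 0 z z))) (n 0 (n 0 (n 8595291 z (n 8591179 z z)) (n 0 (n 8868675 z (n 8868675 z z)) (n 0
 (n 0x1d8748a08208208208207a28217a181e86385f91f8df8217e182086082185e86189e8607617a07df0041 z (n
 8804171 z z)) z))) (n 0 (n 0 z (n 0 z (n 0 z z))) (n 0 (n 0 z (n 0 z (n 0 z z))) z)))))))))))))
 (n 257 (n 0 (n 0 z (n 0 z (n 0 z z))) (n 0 (n 0 z (n 0 z (n 0 z z))) (n 0 (n 0 z (n 0 z (n 0 z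
 z))) (n 0 (n 0 z (n 0 z (n 0 z z))) (n 0 (n 0 z (n 0 z (n 0 z z))) (n 0 (n 0 z (n 0 z (n 0 z
 z))) (n 0 (n 0 z (n 0 z (n 0 z z))) z))))))) (n 441 (n 0 (n 0 z (n 0 z (n 0 z z))) (n 0 (n 0 z
 (n 0 z (n 0 z z))) (n 0 (n 0 z (n 0 z (n 0 z z))) (n 0 (n 0 z (n 0 z (n 0 z z))) (n 0 (n 0 z (n
 0 z (n 0 z z))) (n 0 (n 0 z (n 0 z (n 0 z z))) (n 0 (n 0 z (n 0 z (n 0 z z))) (n 0 (n 0 (n
 8855907 z (n 8855907 z z)) (n 0 (n 8872227 z (n 8872227 z z)) (n 0 (n 8455723 z (n 8455723 z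
 z)) z))) (n 0 (n 0 z (n 0 z (n 0 z z))) (n 0 (n 0 z (n 0 z (n 0 z z))) (n 0 (n 0 (n 8855907 z
 (n 8855907 z z)) (n 0 (n 8800091 z (n
 0x30a6ea28038608208208208208208217e18207e17e081f85f8208208218218208208207e18208208608200801 z
 z)) (n 0 (n 7751707 z (n 8804171 z z)) z))) (n 0 (n 0 z (n 0 z (n 0 z z))) (n 0 (n 0 z (n 0 z
 (n 0 z z))) (n 0 (n 0 z (n 0 z (n 0 z z))) (n 0 (n 0 z (n 0 z (n 0 z z))) (n 0 (n 0 z (n 0 z (n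
 0 z z))) (n 0 (n 0 z (n 0 z (n 0 z z))) (n 0 (n 0 z (n 0 z (n 0 z z))) (n 0 (n 0 z (n 0 z (n 0
 z z))) (n 0 (n 0 (n 8855907 z (n 8855907 z z)) (n 0 (n 8726379 z (n 8595227 z z)) (n 0 (n
 7751707 z (n
 0x1d8768a08208208208207a28217a181e86385f91f8df8217e182086082185e86189e8607617a07df0041 z z))
 z))) (n 0 (n 0 z (n 0 z (n 0 z z))) (n 0 (n 0 z (n 0 z (n 0 z z))) (n 0 (n 0 (n 8855907 z (n
 8855907 z z)) (n 0 (n 8726379 z (n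
 0x30a6ea28038608208208208208208217e18207e17e081f81f8208208218218208608207e18208208208210801 z
 z)) (n 0 (n 7755803 z (n 8591147 z z)) z))) (n 0 (n 0 z (n 0 z (n 0 z z))) (n 0 (n 0 z (n 0 z
 (n 0 z z))) (n 0 (n 0 z (n 0 z (n 0 z z))) (n 0 (n 0 z (n 0 z (n 0 z z))) (n 0 (n 0 z (n 0 z (n
 0 z z))) (n 0 (n 0 (n 8782363 z (n 8782363 z z)) (n 0 (n 8782363 z (n 8782363 z z)) (n 0 (n
 8864595 z (n 8864595 z z)) z))) (n 0 (n 0 (n 8782363 z (n 8782363 z z)) (n 0 (n 8782363 z (n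
 8782363 z z)) (n 0 (n 8864595 z (n 8864595 z z)) z))) z)))))))))))))))))))))))))))))) (n 35 (n
 0 (n 0 (n 8855907 z (n 8855907 z z)) (n 0 (n 8726379 z (n
 0x30a6ea080382082082082082082082082082082082082082082082081f8208208208208208208208208200801 z
 z)) (n 0 (n 8804171 z (n
 0x754541303830a90a80078208208208208208a08618208208217e08208608208208208208208218207e081f8208208201001
 z z)) z))) (n 0 (n 0 (n 8733443 z (n 8733443 z z)) (n 0 (n 8733443 z (n 8733443 z z)) (n 0 (n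
 8733443 z (n 8733443 z z)) z))) (n 0 (n 0 z (n 0 z (n 0 z z))) (n 0 (n 0 z (n 0 z (n 0 z z)))
 (n 0 (n 0 z (n 0 z (n 0 z z))) (n 0 (n 0 z (n 0 z (n 0 z z))) (n 0 (n 0 (n
 0x1d8728a08208208208207a28217a181e86385f91f8df8217e182086082185e86189e8607617a07df0041 z (n
 0xc31ba1280c7863740503870a6ea08077e082082082082092176581e6a691895d89e89789da1e7218db81e8e371f81872392495f9a41801
 z z)) (n 0 (n
 0x30a6ea08038608208208208208208208208208208208208208208208208208208208208208208208208200801 z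
 (n 8726379 z z)) (n 0 (n 8864595 z (n 8864595 z z)) z))) (n 0 (n 0 z (n 0 z (n 0 z z))) (n 0 (n
 0 z (n 0 z (n 0 z z))) (n 0 (n 0 (n
 0x30a6ea08038208208208208208208208208208208208218208208208208208208208208208608208208200801 z
 (n 8591179 z z)) (n 0 (n 8868675 z (n 8868675 z z)) (n 0 (n
 0x1d8748a08208208208207a28217a181e86385f91f8df8217e182086082185e86189e8607617a07df0041 z (n
 8804171 z z)) z))) (n 0 (n 0 z (n 0 z (n 0 z z))) (n 0 (n 0 z (n 0 z (n 0 z z))) (n 0 (n 0 z (n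
 0 z (n 0 z z))) (n 0 (n 0 z (n 0 z (n 0 z z))) z)))))))))))))) (n 51 (n 0 (n 0 z (n 0 z (n 0 z
 z))) (n 0 (n 0 z (n 0 z (n 0 z z))) (n 0 (n 0 z (n 0 z (n 0 z z))) (n 0 (n 0 (n 8855907 z (n
 8855907 z z)) (n 0 (n 8800091 z (n
 0x10a6ea28038608208208208208208217e18217e17e081f85f8208208218218208608207e18208208208200801 z
 z)) (n 0 (n 8656747 z (n
 0x30a90a82078e08208208208207e08627e08207617e082086186082082182086085f8208207e08208608200801 z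
 z)) z))) (n 0 (n 0 (n 8855907 z (n 8855907 z z)) (n 0 (n
 0x1d8718a08208208208207a28217a181e86385f91f8df8217e182086082185e86189e8607617a07df0041 z (n
 0x30a6ea28038608208208208208217e07e18607e17a18208207e086082086081f8608207e17e08208607e00801 z
 z)) (n 0 (n
 0x30eb0ea2078a08208208208208208207e08207e17e08208208208208208208208208218208208208208200801 z
 (n
 0x85375140180ea8a826078a08208208208207228637e17df7237a186082281f8237e07647227228608607a176379f8211001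
 z z)) z))) (n 0 (n 0 z (n 0 z (n 0 z z))) (n 0 (n 0 z (n 0 z (n 0 z z))) (n 0 (n 0 z (n 0 z (n
 0 z z))) (n 0 (n 0 (n 8855907 z (n 8855907 z z)) (n 0 (n 8726379 z (n 8595227 z z)) (n 0 (n
 7751707 z (n
 0x1d8768a08208208208207a28217a181e86385f91f8df8217e182086082185e86189e8607617a07df0041 z z))
 z))) (n 0 (n 0 z (n 0 z (n 0 z z))) (n 0 (n 0 (n 8855907 z (n 8855907 z z)) (n 0 (n 8726379 z
 (n 0x30a6ea28038608208208208208208217e18207e17e081f81f8208208218218208608207e18208208208210801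
 z z)) (n 0 (n 7755803 z (n
 0x8537514018600ae9036e8e08208208208206a28257a17617617e189e8217df82279f81f7a07e27e089f8607e27a08a11001
 z z)) z))) (n 0 (n 0 z (n 0 z (n 0 z z))) (n 0 (n 0 z (n 0 z (n 0 z z))) z))))))))))))) (n 357
 (n 0 (n 0 z (n 0 z (n 0 z z))) (n 0 (n 0 z (n 0 z (n 0 z z))) (n 0 (n 0 z (n 0 z (n 0 z z))) (n
 0 (n 0 z (n 0 z (n 0 z z))) (n 0 (n 0 z (n 0 z (n 0 z z))) (n 0 (n 0 z (n 0 z (n 0 z z))) (n 0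
 (n 0 z (n 0 z (n 0 z z))) (n 0 (n 0 (n 8782363 z (n 8782363 z z)) (n 0 (n 8872227 z (n 8872227
 z z)) (n 0 (n 8872467 z (n 8872467 z z)) z))) (n 0 (n 0 z (n 0 z (n 0 z z))) (n 0 (n 0 z (n 0 z
 (n 0 z z))) (n 0 (n 0 (n 8804139 z (n 8595291 z z)) (n 0 (n 8872227 z (n 8872227 z z)) (n 0 (n
 8591147 z (n
 0x2ecb0a86078608208208208208208217e18207e17e081f85f8208208218218208208207e18208208608200801 z
 z)) z))) (n 0 (n 0 z (n 0 z (n 0 z z))) (n 0 (n 0 z (n 0 z (n 0 z z))) (n 0 (n 0 z (n 0 z (n 0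
 z z))) (n 0 (n 0 z (n 0 z (n 0 z z))) (n 0 (n 0 z (n 0 z (n 0 z z))) (n 0 (n 0 z (n 0 z (n 0 z
 z))) (n 0 (n 0 z (n 0 z (n 0 z z))) (n 0 (n 0 z (n 0 z (n 0 z z))) (n 0 (n 0 (n 8804139 z (n
 0x1d8728a08208208208207a28217a181e86385f91f8df8217e182086082185e86189e8607617a07df0041 z z)) (n
 0 (n 8872227 z (n 8872227 z z)) (n 0 (n 8591147 z (n 8656747 z z)) z))) (n 0 (n 0 z (n 0 z (n 0
 z z))) (n 0 (n 0 z (n 0 z (n 0 z z))) (n 0 (n 0 (n 8804139 z (n 8800027 z z)) (n 0 (n 8872227 z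
 (n 8872227 z z)) (n 0 (n 8591147 z (n
 0x2ecb0a86078608208208208208208217e18207e17e081f81f8208208218218208608207e18208208208210801 z
 z)) z))) (n 0 (n 0 z (n 0 z (n 0 z z))) (n 0 (n 0 z (n 0 z (n 0 z z))) (n 0 (n 0 z (n 0 z (n 0
 z z))) (n 0 (n 0 z (n 0 z (n 0 z z))) (n 0 (n 0 z (n 0 z (n 0 z z))) (n 0 (n 0 (n 8868915 z (n
 8868915 z z)) (n 0 (n 8521243 z (n 8521243 z z)) (n 0 (n 8521243 z (n 8521243 z z)) z))) (n 0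
 (n 0 (n 8868915 z (n 8868915 z z)) (n 0 (n 8521243 z (n 8521243 z z)) (n 0 (n 8521243 z (n
 8521243 z z)) z))) z)))))))))))))))))))))))))))))) (n 41 (n 0 (n 0 z (n 0 z (n 0 z z))) (n 0 (n
 0 z (n 0 z (n 0 z z))) (n 0 (n 0 z (n 0 z (n 0 z z))) (n 0 (n 0 (n 8804139 z (n
 0x30cb0ca6078a08208208208208208627e08217617e081f86086081f82182082081f82082082082085f8210801 z
 z)) (n 0 (n 8872227 z (n 8872227 z z)) (n 0 (n 8591147 z (n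
 0xecb0a86078608208208208208208217e18217e17e081f85f8208208218218208608207e18208208208200801 z
 z)) z))) (n 0 (n 0 (n
 0x30ed0ec6078a08208208208208208207e08207e17e08208208208208208208208208218208208208208200801 z
 (n
 0x276585430386ea8ca86079a08208208208204e692b72471d52a5e58de8677dc7ea75e56d4e94a78df9227245ea5df8611001
 z z)) (n 0 (n 8872227 z (n 8872227 z z)) (n 0 (n
 0x1d8768a08208208208207a28217a181e86385f91f8df8217e182086082185e86189e8607617a07df0041 z (n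
 0xecb0a86078608208208208207e07e07e18607e17a18208208208607e08207df8608207e07e08208208210801 z
 z)) z))) (n 0 (n 0 z (n 0 z (n 0 z z))) (n 0 (n 0 z (n 0 z (n 0 z z))) (n 0 (n 0 z (n 0 z (n 0
 z z))) (n 0 (n 0 (n 8804139 z (n
 0x1d8728a08208208208207a28217a181e86385f91f8df8217e182086082185e86189e8607617a07df0041 z z)) (n
 0 (n 8872227 z (n 8872227 z z)) (n 0 (n 8591147 z (n 8656747 z z)) z))) (n 0 (n 0 z (n 0 z (n 0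
 z z))) (n 0 (n 0 (n 8804139 z (n
 0x765854303860070ceb6a8e08208208208206a28257a17617617e189e8217df82279f81f7a07e27e089f8607e27a08a11001
 z z)) (n 0 (n 8872227 z (n 8872227 z z)) (n 0 (n 8591147 z (n
 0x2ecb0a86078608208208208208208217e18207e17e081f81f8208208218218208608207e18208208208210801 z
 z)) z))) (n 0 (n 0 z (n 0 z (n 0 z z))) (n 0 (n 0 z (n 0 z (n 0 z z))) z))))))))))))) (n 15 (n
 0 (n 0 z (n 0 z (n 0 z z))) (n 0 (n 0 z (n 0 z (n 0 z z))) (n 0 (n 0 z (n 0 z (n 0 z z))) (n 0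
 (n 0 z (n 0 z (n 0 z z))) (n 0 (n 0 z (n 0 z (n 0 z z))) z))))) (n 37 (n 0 (n 0 z (n 0 z (n 0 z
 z))) (n 0 (n 0 (n 7678027 z (n 8595291 z z)) (n 0 (n
 0x30ed0eca038208208208208207a07de7e08208208218207e08218208208207df82082082085f8208208200801 z
 (n 7678027 z z)) (n 0 (n 8872467 z (n 8872467 z z)) z))) (n 0 (n 0 z (n 0 z (n 0 z z))) z))) (n
 179 (n 0 (n 0 z (n 0 z (n 0 z z))) (n 0 (n 0 z (n 0 z (n 0 z z))) (n 0 (n 0 z (n 0 z (n 0 z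
 z))) (n 0 (n 0 z (n 0 z (n 0 z z))) (n 0 (n 0 z (n 0 z (n 0 z z))) (n 0 (n 0 z (n 0 z (n 0 z
 z))) (n 0 (n 0 z (n 0 z (n 0 z z))) (n 0 (n 0 (n 8855907 z (n 8855907 z z)) (n 0 (n 8521243 z
 (n 8521243 z z)) (n 0 (n 8872467 z (n 8872467 z z)) z))) (n 0 (n 0 z (n 0 z (n 0 z z))) (n 0 (n
 0 z (n 0 z (n 0 z z))) (n 0 (n 0 (n 8800027 z (n
 0x30a8e846078608208208208208208217e18207e17e081f85f8208208218218208208207e18208208608200801 z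
 z)) (n 0 (n 8595227 z (n 8656699 z z)) (n 0 (n 8872467 z (n 8872467 z z)) z))) (n 0 (n 0 z (n 0
 z (n 0 z z))) (n 0 (n 0 z (n 0 z (n 0 z z))) (n 0 (n 0 z (n 0 z (n 0 z z))) (n 0 (n 0 z (n 0 z
 (n 0 z z))) (n 0 (n 0 z (n 0 z (n 0 z z))) (n 0 (n 0 z (n 0 z (n 0 z z))) (n 0 (n 0 z (n 0 z (n
 0 z z))) (n 0 (n 0 z (n 0 z (n 0 z z))) (n 0 (n 0 (n 8800027 z (n 8804139 z z)) (n 0 (n 8595227
 z (n 0x1d8718a08208208208207a28217a181e86385f91f8df8217e182086082185e86189e8607617a07df0041 z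
 z)) (n 0 (n 8872467 z (n 8872467 z z)) z))) (n 0 (n 0 z (n 0 z (n 0 z z))) (n 0 (n 0 z (n 0 z
 (n 0 z z))) (n 0 (n 0 (n 8800027 z (n
 0x30a8e846078608208208208208208217e18207e17e081f81f8208208218218208608207e18208208208210801 z
 z)) (n 0 (n 8595227 z (n 8726379 z z)) (n 0 (n 8872467 z (n 8872467 z z)) z))) (n 0 (n 0 z (n 0
 z (n 0 z z))) (n 0 (n 0 z (n 0 z (n 0 z z))) (n 0 (n 0 z (n 0 z (n 0 z z))) (n 0 (n 0 z (n 0 z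
 (n 0 z z))) (n 0 (n 0 z (n 0 z (n 0 z z))) (n 0 (n 0 (n 8455723 z (n 8455723 z z)) (n 0 (n
 8868675 z (n 8868675 z z)) (n 0 (n 8455723 z (n 8455723 z z)) z))) (n 0 (n 0 (n 8455723 z (n
 8455723 z z)) (n 0 (n 8868675 z (n 8868675 z z)) (n 0 (n 8455723 z (n 8455723 z z)) z)))
 z)))))))))))))))))))))))))))))) (n 107 (n 0 (n 0 z (n 0 z (n 0 z z))) (n 0 (n 0 z (n 0 z (n 0 z
 z))) (n 0 (n 0 z (n 0 z (n 0 z z))) (n 0 (n 0 z (n 0 z (n 0 z z))) (n 0 (n 0 z (n 0 z (n 0 z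
 z))) z))))) (n 101 (n 0 (n 0 (n 8800027 z (n
 0x30a8e8060782082082082082082082082082082082082082082082081f8208208208208208208208208200801 z
 z)) (n 0 (n 8595227 z (n
 0x754542303830870860078208208208208208a08618208208217e08208608208208208208208218207e081f8208208201001
 z z)) (n 0 (n 8872467 z (n 8872467 z z)) z))) (n 0 (n 0 (n 8733443 z (n 8733443 z z)) (n 0 (n
 8733443 z (n 8733443 z z)) (n 0 (n 8733443 z (n 8733443 z z)) z))) (n 0 (n 0 z (n 0 z (n 0 z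
 z))) (n 0 (n 0 z (n 0 z (n 0 z z))) (n 0 (n 0 z (n 0 z (n 0 z z))) (n 0 (n 0 z (n 0 z (n 0 z
 z))) (n 0 (n 0 (n
 0x30a8e806078608208208208208208208208208208208208208208208208208208208208208208208208200801 z
 (n 8800027 z z)) (n 0 (n 8868675 z (n 8868675 z z)) (n 0 (n
 0x1d8748a08208208208207a28217a181e86385f91f8df8217e182086082185e86189e8607617a07df0041 z (n
 0xbb1c28a00c7851730401870a8e806037e082082082082092176581e6a691895d89e89789da1e7218db81e8e371f81872392495f9a41801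
 z z)) z))) (n 0 (n 0 z (n 0 z (n 0 z z))) (n 0 (n 0 z (n 0 z (n 0 z z))) (n 0 (n 0 (n 8868915 z
 (n 8868915 z z)) (n 0 (n
 0x1d8738a08208208208207a28217a181e86385f91f8df8217e182086082185e86189e8607617a07df0041 z (n
 8656699 z z)) (n 0 (n
 0x30a8e806078208208208208208208208208208208208218208208208208208208208208208608208208200801 z
 (n 8726331 z z)) z))) (n 0 (n 0 z (n 0 z (n 0 z z))) (n 0 (n 0 z (n 0 z (n 0 z z))) (n 0 (n 0 z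
 (n 0 z (n 0 z z))) (n 0 (n 0 z (n 0 z (n 0 z z))) z)))))))))))))) (n 97 (n 0 (n 0 z (n 0 z (n 0
 z z))) (n 0 (n 0 (n
 0x10e90e82038208208208208207e081e82085f8608208207df82082082082081f8208208218208208208600801 z
 (n 8800027 z z)) (n 0 (n 8872227 z (n 8872227 z z)) (n 0 (n 7751739 z (n 8804171 z z)) z))) (n
 0 (n 0 z (n 0 z (n 0 z z))) z))) (n 4 (n 0 (n 0 z (n 0 z (n 0 z z))) (n 0 (n 0 (n 8868915 z (n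
 8868915 z z)) (n 0 (n 7542875 z (n 8656699 z z)) (n 0 (n
 0x30e70e64038208208208208207a07dd7e086086082182179f8208208208607df8208608618208207e08200801 z
 (n 8591147 z z)) z))) (n 0 (n 0 z (n 0 z (n 0 z z))) z))) (n 177 (n 0 (n 0 z (n 0 z (n 0 z z)))
 (n 0 (n 0 z (n 0 z (n 0 z z))) (n 0 (n 0 z (n 0 z (n 0 z z))) (n 0 (n 0 z (n 0 z (n 0 z z))) (n
 0 (n 0 z (n 0 z (n 0 z z))) (n 0 (n 0 (n 8868915 z (n 8868915 z z)) (n 0 (n 8872227 z (n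
 8872227 z z)) (n 0 (n 8591147 z (n
 0x43ac3a981c187585430382ea90846037a08208208208208a089f7e08208a07e08218207e086081e82082082081f8208208208208201801
 z z)) z))) (n 0 (n 0 z (n 0 z (n 0 z z))) (n 0 (n 0 z (n 0 z (n 0 z z))) (n 0 (n 0 z (n 0 z (n
 0 z z))) (n 0 (n 0 z (n 0 z (n 0 z z))) (n 0 (n 0 (n 8868915 z (n 8868915 z z)) (n 0 (n
 0x1d8738a08208208208207a28217a181e86385f91f8df8217e182086082185e86189e8607617a07df0041 z (n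
 8656699 z z)) (n 0 (n 8804171 z (n 8726331 z z)) z))) (n 0 (n 0 z (n 0 z (n 0 z z))) (n 0 (n 0
 z (n 0 z (n 0 z z))) z))))))))))))) (n 261 (n 0 (n 0 z (n 0 z (n 0 z z))) (n 0 (n 0 z (n 0 z (n
 0 z z))) (n 0 (n 0 z (n 0 z (n 0 z z))) (n 0 (n 0 z (n 0 z (n 0 z z))) (n 0 (n 0 z (n 0 z (n 0
 z z))) (n 0 (n 0 z (n 0 z (n 0 z z))) (n 0 (n 0 z (n 0 z (n 0 z z))) z))))))) (n 129 (n 0 (n 0
 z (n 0 z (n 0 z z))) (n 0 (n 0 z (n 0 z (n 0 z z))) (n 0 (n 0 z (n 0 z (n 0 z z))) (n 0 (n 0 z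
 (n 0 z (n 0 z z))) (n 0 (n 0 z (n 0 z (n 0 z z))) (n 0 (n 0 z (n 0 z (n 0 z z))) (n 0 (n 0 z (n
 0 z (n 0 z z))) z))))))) (n 29 (n 0 (n 0 z (n 0 z (n 0 z z))) (n 0 (n 0 z (n 0 z (n 0 z z))) (n
 0 (n 0 z (n 0 z (n 0 z z))) (n 0 (n 0 z (n 0 z (n 0 z z))) (n 0 (n 0 z (n 0 z (n 0 z z)))
 z))))) (n 1 (n 0 (n 0 (n 8804139 z (n
 0x754654303830a70a60078208208208208208a08618208208217e08208608208208208208208218207e081f8208208201001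
 z z)) (n 0 (n 8872227 z (n 8872227 z z)) (n 0 (n 8591147 z (n
 0x30a8ea060382082082082082082082082082082082082082082082081f8208208208208208208208208200801 z
 z)) z))) (n 0 (n 0 (n 8733443 z (n 8733443 z z)) (n 0 (n 8733443 z (n 8733443 z z)) (n 0 (n
 8733443 z (n 8733443 z z)) z))) (n 0 (n 0 z (n 0 z (n 0 z z))) (n 0 (n 0 z (n 0 z (n 0 z z)))
 (n 0 (n 0 z (n 0 z (n 0 z z))) (n 0 (n 0 z (n 0 z (n 0 z z))) (n 0 (n 0 (n 8868915 z (n 8868915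
 z z)) (n 0 (n
 0x1d8718a08208208208207a28217a181e86385f91f8df8217e182086082185e86189e8607617a07df0041 z (n
 0xc213a8981c38547503038f084ea06037e082082082082092176581e6a691895d89e89789da1e7218db81e8e371f81872392495f9a41801
 z z)) (n 0 (n
 0x30a8ea06038608208208208208208208208208208208208208208208208208208208208208208208208200801 z
 (n 8591147 z z)) z))) (n 0 (n 0 z (n 0 z (n 0 z z))) (n 0 (n 0 z (n 0 z (n 0 z z))) (n 0 (n 0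
 (n 0x1d8758a08208208208207a28217a181e86385f91f8df8217e182086082185e86189e8607617a07df0041 z (n
 7678011 z z)) (n 0 (n
 0x30a8ea06038208208208208208208208208208208208218208208208208208208208208208608208208200801 z
 (n 8800091 z z)) (n 0 (n 8864595 z (n 8864595 z z)) z))) (n 0 (n 0 z (n 0 z (n 0 z z))) (n 0 (n
 0 z (n 0 z (n 0 z z))) (n 0 (n 0 z (n 0 z (n 0 z z))) (n 0 (n 0 z (n 0 z (n 0 z z)))
 z)))))))))))))) (n 0 (n 0 (n 0 z (n 0 z (n 0 z z))) (n 0 (n 0 z (n 0 z (n 0 z z))) (n 0 (n 0 z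
 (n 0 z (n 0 z z))) (n 0 (n 0 (n 8800027 z (n
 0x10a8e846078608208208208208208217e18217e17e081f85f8208208218218208608207e18208208208200801 z
 z)) (n 0 (n 8595227 z (n
 0x30870864078a08208208208208208627e08217617e081f86086081f82182082081f82082082082085f8210801 z
 z)) (n 0 (n 8872467 z (n 8872467 z z)) z))) (n 0 (n 0 (n
 0x1d8728a08208208208207a28217a181e86385f91f8df8217e182086082185e86189e8607617a07df0041 z (n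
 0x30a8e846078608208208208208217e07e18607e17a18208207e086082086081f8608207e17e08208607e00801 z
 z)) (n 0 (n
 0x30e90e84078a08208208208208208207e08207e17e08208208208208208208208208218208208208208200801 z
 (n
 0x285474230386ea8a846079a08208208208204e692b72471d52a5e58de8677dc7ea75e56d4e94a78df9227245ea5df8611001
 z z)) (n 0 (n 8872467 z (n 8872467 z z)) z))) (n 0 (n 0 z (n 0 z (n 0 z z))) (n 0 (n 0 z (n 0 z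
 (n 0 z z))) (n 0 (n 0 z (n 0 z (n 0 z z))) (n 0 (n 0 (n 8800027 z (n 8804139 z z)) (n 0 (n
 8595227 z (n
 0x1d8718a08208208208207a28217a181e86385f91f8df8217e182086082185e86189e8607617a07df0041 z z)) (n
 0 (n 8872467 z (n 8872467 z z)) z))) (n 0 (n 0 z (n 0 z (n 0 z z))) (n 0 (n 0 (n 8800027 z (n
 0x30a8e846078608208208208208208217e18207e17e081f81f8208208218218208608207e18208208208210801 z
 z)) (n 0 (n 8595227 z (n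
 0x85474230386008e7056e8e08208208208206a28257a17617617e189e8217df82279f81f7a07e27e089f8607e27a08a11001
 z z)) (n 0 (n 8872467 z (n 8872467 z z)) z))) (n 0 (n 0 z (n 0 z (n 0 z z))) (n 0 (n 0 z (n 0 z
 (n 0 z z))) z))))))))))))) z))))))))))))))))))))) z)))) z) z)))) z)))))))))),
 by decide +kernel⟩
theorem i10261 : ∃ t, chkR KT RW t 10261 10266 = true := ⟨(n 0x5c59a298556510492a0a512c804e740
 (n 0 (n 183 (n 2 z (n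
 0x4594d4c48060aca68624038a7276798d6e81758e7c9a717c90749996789170757376817572817b8682808b7f8e8d8492808b89867e80879679807985851009
 z (n 0 z (n 0 z (n 0 z (n 0 z (n
 0x994d50c80602ca6a624037f7f80807f827f828081827e81827e808180827f7e7f80807f7f8082807f8080808080808280808082807e818180818080811009
 z (n 0 z (n 10 z (n
 0xca6ca640380808080807f80808080808080808080808080808080808080808080808080808080808080808080808080808080808080800809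
 z (n 0 z (n
 0x4ca4ca2603808181827f7f808080818080807f817f80808080808080807f7f8080807f8080808080808080808080808180807f808080800809
 z (n 0 z (n 0 z (n 0 z (n 0 z (n
 0x2ca6ca640380808080817e807e81808180808180817f8080808080807f808080807f827f817f80807f7f7f8080818081808181808081800809
 z (n 0 z (n 0 z (n
 0xca6ca640380808080807f80808080808080808080808080808080808080808080808080808080808080808080808080808080808080800809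
 z (n 0 z (n 0 z (n 3282443 z (n
 0xd94d90c80e04ca6a8640380778980788181808783827a81837885837c80807d7d837a808383847d8284827a867c777e7e7f7c86877b8485857f7b83821009
 z (n 0 z (n 0 z (n
 0x2ca6ca6403817f8081827e80808180808080807f807f80807f8080807f808180817f81808080817f7f7f7f8080807f7f818081817f80800809
 z z))))))))))))))))))))))))))) (n 255 (n 18 z (n 0 z (n
 0x6ca2a60403817e8478857c7f837e807f7b81857b7d82838179827f828080818183827d80807f7f7f807e828180847e817e7e847d7c7d800809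
 z (n 6558475 z (n 26 z (n
 0x2ca6a864037f8280807d8280818180817e817f867f7f80807d8181817f807e7f817e818080807f818080807f807f827e818180818182800809
 z (n 6558475 z z))))))) (n 171 (n 0 z (n 0 z (n
 0x2cca6ca6007877f947370807da57e937d7d85897c83758979a177918280777e87727c8975707a91777f6d817f7f6f908997b573a59b7a740809
 z (n
 0x194d94c00602ca6ca20037c7d837c837e7f797b827e7f7e7e7c7b7a848581847d89857e82857d86828082798282747b8081807f7a847f808d7a81847f1009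
 z (n 0 z (n 3212843 z (n
 0x2c42860a07817f817e807f7f807f80807f808281808080807f8080808080808080808080808080808080808080808080807f80808080800809
 z (n 0 z z)))))))) (n 3 (n 0 z (n 0 z (n 0 z (n 0 z (n 0 z (n 2164283 z z)))))) (n 1 (n 6558475
 z (n 0 z (n 0 z (n 0 z z)))) (n 0 (n 0 z (n 0 z (n 2164315 z (n 0 z (n 0 z (n 0 z (n 0 z (n 0 z
 (n 0 z (n
 0xc86c860037f808080808080808080808080808080808080808080808080808080808080808080808080808080808080808080808080800809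
 z (n
 0xc86c860037f808080808080808080808080808080808080808080808080808080808080808080808080808080808080808080808080800809
 z (n
 0x2c86c860037e8081818080808080807e817f807f808081807f818080808081827f80808080808080818080808080817f7f7f80818081810809
 z (n 34 z (n
 0xc562088837069878f8970638c5f749b8b8f726a69828e7b727fa67176927e7e8081777b8e83766a76727d7a797a8e9580739fab760049
 z (n 42 z (n
 0xc86c860037f808080808080808080808080808080808080808080808080808080808080808080808080808080808080808080808080800809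
 z (n 0 z (n
 0xc86c860037f808080808080808080808080808080808080808080808080808080808080808080808080808080808080808080808080800809
 z (n 0 z (n 0 z (n
 0xc86c8640380808080807f80808080808080808080808080808080808080808080808080808080808080808080808080808080808080800809
 z (n
 0x5905900c0600c86c864037d8180808180807e7f807e80818080807e8080807f80818280808080808080807f7f7f807e8080808081808180817f8081801009
 z z)))))))))))))))))))))) z)))))) (n 1 (n 0 (n 0 z (n 1003 (n 0 z (n 0 z (n 0 z (n 0 z (n 0 z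
 (n 0 z (n 0 z (n 0 z (n 0 z (n 0 z (n 0 z (n 0 z (n 0 z (n 0 z z)))))))))))))) (n 1003 (n 0 z
 (n 0 z (n 0 z (n 0 z (n 0 z (n 0 z (n 0 z (n 0 z (n 0 z (n 0 z (n 0 z (n 0 z (n 0 z (n 0 z
 z)))))))))))))) (n 973 (n 0 z (n 0 z (n 0 z (n 0 z (n 0 z (n 0 z (n 0 z (n 0 z (n 0 z (n 0 z (n
 0 z (n 0 z (n 0 z (n 0 z (n 0 z (n 0 z (n 0 z z))))))))))))))))) (n 973 (n 0 z (n 0 z (n 0 z (n
 0 z (n 0 z (n 0 z (n 0 z (n 0 z (n 0 z (n 0 z (n 0 z (n 0 z (n 0 z (n 0 z (n 0 z (n 2 z (n 0 z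
 z))))))))))))))))) z))))) (n 0 (n 1003 (n 0 z (n 0 z (n 0 z (n 0 z (n 0 z (n 0 z (n 0 z (n 0 z
 (n 0 z (n 0 z (n 0 z (n 0 z (n 0 z (n 0 z (n 0 z (n 0 z (n 0 z (n 0 z (n 0 z (n 0 z (n 0 z (n 0
 z (n 0 z (n 0 z (n 0 z (n 0 z z)))))))))))))))))))))))))) (n 1003 (n 0 z (n 0 z (n 0 z (n 0 z
 (n 0 z (n 7614819 z (n 0 z (n 0 z (n 0 z (n 0 z (n 0 z (n 0 z (n 0 z (n 0 z (n 0 z (n 0 z (n 0
 z (n 0 z (n 0 z (n 0 z (n 0 z (n 0 z (n 0 z (n 0 z (n 0 z (n 0 z z)))))))))))))))))))))))))) (n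
 17 (n 0 z (n 0 z (n 0 z (n 0 z (n 0 z (n 0 z (n 0 z (n 0 z (n 0 z (n 0 z (n 0 z (n 0 z (n 0 z
 (n 0 z (n 0 z (n 0 z (n 0 z (n 0 z (n 0 z (n 0 z (n 0 z z))))))))))))))))))))) (n 17 (n 0 z (n
 0 z (n 0 z (n 0 z (n 0 z (n 0 z (n 0 z (n 0 z (n 0 z (n 0 z (n 0 z (n 0 z (n 0 z (n 0 z (n 0 z
 (n 0 z (n 0 z (n 0 z (n 0 z (n 0 z (n 0 z z))))))))))))))))))))) z)))) (n 0 (n 0 z (n 413 (n 0
 z (n 0 z (n 0 z (n 2 (n 0 z z) (n 0 z (n 0 z (n 0 z (n 0 z (n 0 z (n 0 z (n 0 z (n 0 z (n 0 z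
 (n 0 z (n 0 z (n 0 z (n 0 z (n 0 z (n 0 z (n 0 z (n 0 z (n 0 z (n 0 z z)))))))))))))))))))))))
 (n 413 (n 0 z (n 0 z (n 0 z (n 0 z (n 0 z (n 0 z (n 0 z (n 0 z (n 0 z (n 0 z (n 0 z (n 0 z (n 0
 z (n 0 z (n 0 z (n 0 z (n 0 z (n 0 z (n 0 z (n 0 z (n 0 z (n 0 z (n 0 z
 z))))))))))))))))))))))) z))) (n 0 (n 293 (n 0 z (n 0 z (n 0 z (n 0 z (n 0 z (n 0 z (n 0 z (n 0
 z (n 0 z (n 0 z (n 0 z (n 0 z (n 0 z (n 0 z (n 0 z (n 0 z (n 0 z (n 0 z (n 0 z (n 0 z (n 0 z (n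
 0 z (n 0 z (n 0 z (n 0 z z))))))))))))))))))))))))) (n 293 (n 0 z (n 0 z (n 0 z (n 0 z (n 0 z
 (n 0 z (n 0 z (n 0 z (n 0 z (n 0 z (n 0 z (n 0 z (n 0 z (n 0 z (n 0 z (n 0 z (n 0 z (n 0 z (n 0
 z (n 0 z (n 0 z (n 0 z (n 0 z (n 0 z (n 0 z z))))))))))))))))))))))))) z)) (n 0 (n 0 z z) (n 0
 z z)))))) (n 0 (n 1 (n 6558475 z (n 6558475 z (n 6558475 z (n 6558475 z (n 6558475 z (n 6558475
 z z)))))) (n 0 z (n 0 z (n 0 z z)))) (n 0 z z)))) (n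
 0x19d5282f4970ae2846724d83d1ca0c4d61547b3132b0851654449c30331c209cab08c70b01c3080b3a80 (n 0 (n
 399 (n 0 z (n 2 z (n 3282443 z (n 0 z (n 6423611 z (n 10 z (n 18 z z))))))) (n 261 (n 0 z (n 26
 z (n 6558475 z (n 0 z (n 6493483 z (n 34 z (n 42 z z))))))) (n 131 (n
 0x65465430182ca8ca26037e081e8dd99f8df8208218208208207df82082082082085f81e86086086085f7618608228201001
 z (n 50 z (n
 0x164163050382ca8ca06036d94d9404063b28b18801c663163100392d842b2c215861086079bbd8ada9e882281b5968208e479d8208137a6860be78639e39b3a2b86745c920827a9c28c1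
 z (n
 0x965464130384c86c86203099459440068b21b18800df2c62f86317a061cb1d9a0924a248576e082086892182081b7287a0aec8a4a698ac9e882055e8e082791e2081
 z (n
 0x16525403019eca6c620071d8c58c40066aa1b10800ef2ca1786508208218986df8a57df85d79b8208e086282081d7dc9a0b228a46e17a29297a665c8e08259df2081
 z (n 3212843 z (n 4261419 z (n
 0x165465410192ca8ca6203059519404064b18a18800db2c20d86108607a089e85f86582279d7e08208e28e382081f7a0860a648639249659258e46609208218db2081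
 z (n 58 z (n 6423611 z (n 66 z z))))))))))) (n 3 (n
 0x65465420182ca8c804077e081e8dd99f8df8208218208208207df82082082082085f81e86086086085f7618608228201001
 z (n 74 z (n
 0x162165040382ca8c824076d9099040063b20b10801c662162100392d842b2c215861086079bbd8ada9e882281b5968208e479d8208137a6860be78639e39b3a2b86745c920827a9c28c1
 z (n
 0x9654650201a2ca4c40203099499480061320b20800df2c40f86207a061cb1d9a0924a248576e082086892182081b7287a0aec8a4a698ac9e882055e8e082791e2081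
 z (n
 0x16435412039aa84c602073d90988040e3b10b10800ef2c41786208208218986df8a57df85d79b8208e086282081d7dc9a0b228a46e17a29297a665c8e08259df2081
 z (n 6493483 z (n 4261435 z (n
 0x165465400192ca8c840070595190400e4b10a90800db2c20d86108607a089e85f86582279d7e08208e28e382081f7a0860a648639249659258e46609208218db2081
 z (n 82 z (n 6493483 z (n 90 z z))))))))))) (n 127 (n
 0xf2ca8a42607000027653631203800014b29a98901c00000d94d94040e00001eca4ca40077fffaa80007a8000057fff4c80004d8000738000827fff747fffd27fff957ffffe7ffff480000780004c7fffe17fffef8000008000007fffb380004c8000537fffe38000008000008000007ffff77ffffb7ffff97fffff8000007ffff17ffffb7fffca7fffc18000277fffec7fffdd80000d80003b7fffcd80002f7ffff580006c7fffc98000258000008000007ffff97ffff88000282819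
 z (n 98 z (n 6558475 z (n 0 z (n
 0xca4ca06037e27df8608608218208208208208208208208208208208208217e08208208208208208208200801 z (n
 6558475 z (n
 0x2ca6ca24037a27de8a08df8618208207e08207e08208208218218208208208208207e07df7e08208218200801 z
 (n 106 z (n 6558475 z (n
 0x2c42c60a0782281f8607df8207a08208208208208208208208208207df8217e08208617e082082081f8200801 z
 z)))))))))) (n 0 (n
 0x4ec86c60407000079654430201800014b21a18101c00003d90d90c40e000006c84c820077fffaa80007a8000057fff4c80004d8000738000827fff747fffd27fff957ffffe7ffff480000780004c7fffe17fffef8000008000007fffb380004c8000537fffe38000008000008000007ffff77ffffb7ffff97fffff8000007ffff17ffffb7fffca7fffc18000277fffec7fffdd80000d80003b7fffcd80002f7ffff580006c7fffc98000258000008000007ffff97ffff88000282819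
 z (n 114 z (n 6619675 z (n 0 z (n
 0xc86c824037e27df8608608218208208208208208208208208208208208217e08208208208208208208200801 z (n
 6619675 z (n
 0x2c84c806037a27df8a089f8218208208208207e17e082082082186082082081f8208207e07e08208218200801 z
 (n 122 z (n 6619675 z (n
 0x2c42c608077e28208207e07e17e082081f8208208208208208208208208217e08208217e18207e08208200801 z
 z)))))))))) z)))))) (n 399 (n 0 (n 0 z (n 0 z (n 1219 (n 0 z (n 0 z (n 0 z (n 0 z z)))) (n 1219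
 (n 0 z (n 0 z (n 2 (n 0 z (n 1 z (n 1 z (n 2 (n 0 z (n 0 z (n 0 z (n 0 z (n 0 z (n 0 z z))))))
 (n 1 z (n 1 z (n 2 (n 0 z (n 0 z (n 0 z (n 0 z (n 0 z (n 0 z z)))))) (n 2 (n 0 z (n 0 z (n 0 z
 (n 0 z (n 0 (n 1380 z z) (n 0 z z)))))) (n 1 z (n 2 (n 0 z (n 0 z (n 0 z (n 0 z (n 0 (n 1348 z
 z) (n 0 z z)))))) (n 1 z z))))))))))) (n 0 z z)))) (n 1219 (n 0 z (n 0 z (n 0 z (n 0 z z)))) (n
 347 (n 0 z (n 0 z (n 0 z (n 0 z (n 0 z (n 0 z (n 0 z (n 0 z (n 0 z (n 0 z (n 0 z z)))))))))))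
 (n 347 (n 0 z (n 0 z (n 0 z (n 0 z (n 0 z (n 0 z (n 0 z (n 7754259 z (n 0 z (n 0 z (n 0 z
 z))))))))))) (n 347 (n 0 z (n 0 z (n 0 z (n 0 z (n 0 z (n 0 z (n 0 z (n 0 z (n 0 z (n 0 z (n 2
 (n 1 z (n 1 z (n 1 z (n 2 (n 0 z (n 0 z (n 0 z (n 0 z (n 0 z (n 0 z z)))))) (n 1 z (n 2 (n 0 z
 (n 0 z (n 0 z (n 0 z (n 0 z (n 0 z z)))))) (n 1 z z))))))) z))))))))))) (n 447 (n 0 z (n 0 z (n
 0 z (n 0 z (n 0 z (n 0 z z)))))) (n 447 (n 0 z (n 0 z (n 0 z (n 0 z (n 0 z (n 0 z z)))))) (n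
 447 (n 0 z (n 0 z (n 0 z (n 0 z (n 0 z (n 0 z z)))))) (n 345 (n 0 z (n 0 z (n 0 z (n 2 (n 0 z
 (n 1 z (n 1 z z))) (n 0 z (n 0 z z)))))) (n 345 (n 0 z (n 0 z (n 0 z (n 0 z (n 0 z (n 0 z
 z)))))) (n 337 (n 0 z (n 0 z (n 0 z (n 0 z (n 0 z (n 0 z (n 0 z z))))))) (n 337 (n 0 z (n 0 z
 (n 0 z (n 0 z (n 0 z (n 0 z (n 0 z z))))))) z))))))))))))))) (n 0 (n 0 z (n 755 (n 0 z (n 0 z
 (n 0 z (n 0 z (n 0 z (n 0 z (n 2 (n 0 z (n 0 z (n 1 z (n 1 z (n 2 (n 0 z (n 0 z (n 0 z (n 0 z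
 (n 0 z (n 0 z z)))))) (n 1 z (n 1 z (n 2 (n 0 z (n 0 z (n 0 z (n 0 z (n 0 z (n 0 z z)))))) (n 2
 (n 0 z (n 0 z (n 0 z (n 0 z (n 0 (n 205 z z) (n 0 z z)))))) (n 1 z (n 2 (n 0 z (n 0 z (n 0 z (n
 0 z (n 0 (n 3092 z z) (n 0 z z)))))) (n 1 z z)))))))))))) (n 0 z (n 0 z z))))))))) (n 755 (n 0
 z (n 0 z (n 0 z (n 2 (n 0 z (n 1 z (n 1 z (n 2 (n 0 z (n 0 z (n 0 z (n 0 z (n 0 (n 1052 z z) (n
 0 z z)))))) (n 1 z (n 1 z (n 2 (n 0 z (n 0 z (n 0 z (n 0 z (n 0 (n 1116 z z) (n 0 z z)))))) (n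
 1 z (n 1 z (n 1 z (n 1 z z))))))))))) (n 0 z (n 0 z (n 0 z (n 0 z (n 0 z z))))))))) (n 755 (n 0
 z (n 0 z (n 0 z (n 0 z (n 0 z (n 0 z (n 0 z (n 0 z (n 0 z z))))))))) (n 263 (n 0 z (n 0 z (n 0
 z (n 0 z (n 0 z (n 2 (n 0 z (n 0 z (n 1 z (n 1 z (n 2 (n 0 z (n 0 z (n 0 z (n 0 z (n 0 (n 1116
 z z) (n 0 z z)))))) (n 1 z (n 1 z (n 1 z (n 1 z z))))))))) (n 0 z (n 0 z (n 0 z (n 0 z (n 0 z
 (n 0 z (n 0 z (n 0 z (n 0 z (n 0 z (n 0 z (n 0 z (n 0 z (n 0 z (n 0 z (n 0 z (n 0 z (n 0 z (n 0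
 z z))))))))))))))))))))))))) (n 263 (n 0 z (n 0 z (n 0 z (n 0 z (n 0 z (n 0 z (n 0 z (n 0 z (n
 0 z (n 0 z (n 0 z (n 0 z (n 0 z (n 0 z (n 0 z (n 0 z (n 0 z (n 0 z (n 0 z (n 0 z (n 0 z (n 0 z
 (n 0 z (n 0 z (n 0 z z))))))))))))))))))))))))) (n 263 (n 0 z (n 0 z (n 0 z (n 0 z (n 0 z (n 0
 z (n 0 z (n 0 z (n 0 z (n 0 z (n 0 z (n 0 z (n 0 z (n 0 z (n 0 z (n 0 z (n 0 z (n 0 z (n 0 z (n
 0 z (n 0 z (n 0 z (n 0 z (n 0 z (n 2 (n 1 z (n 1 z (n 2 (n 0 z (n 0 z (n 0 z (n 0 z (n 0 z (n 0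
 z z)))))) (n 1 z (n 2 (n 0 z (n 0 z (n 0 z (n 0 z (n 0 z (n 0 z z)))))) (n 1 z (n 2 (n 0 z (n 0
 z (n 0 z (n 0 z (n 0 z (n 0 z z)))))) z))))))) z))))))))))))))))))))))))) (n 279 (n 0 z (n 0 z
 (n 0 z (n 0 z (n 0 z (n 0 z (n 0 z (n 0 z (n 0 z (n 0 z (n 0 z (n 0 z (n 0 z (n 0 z (n 0 z (n 0
 z (n 0 z (n 0 z (n 0 z (n 0 z (n 0 z (n 0 z (n 0 z (n 0 z (n 2 (n 0 z (n 0 z (n 1 z (n 1 z (n 1
 z (n 1 z z)))))) z))))))))))))))))))))))))) (n 279 (n 0 z (n 0 z (n 0 z (n 0 z (n 0 z (n 0 z (n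
 0 z (n 0 z (n 0 z (n 0 z (n 0 z (n 0 z (n 0 z (n 0 z (n 0 z (n 0 z (n 0 z (n 0 z (n 0 z (n 0 z
 (n 0 z (n 0 z (n 0 z (n 0 z (n 0 z z))))))))))))))))))))))))) (n 279 (n 0 z (n 0 z (n 0 z (n 0
 z (n 0 z (n 0 z (n 0 z (n 0 z (n 0 z (n 0 z (n 0 z (n 0 z (n 0 z (n 0 z (n 0 z (n 0 z (n 0 z (n
 0 z (n 0 z (n 0 z (n 0 z (n 0 z (n 0 z (n 0 z (n 0 z z))))))))))))))))))))))))) (n 261 (n 0 z
 (n 0 z (n 0 z (n 0 z (n 2 (n 0 z (n 1 z (n 2 (n 0 z (n 0 z (n 0 z (n 0 z (n 0 (n 3092 z (n 3092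
 z z)) (n 0 (n 3092 z z) z)))))) z))) (n 0 z (n 0 z (n 0 z (n 0 z (n 0 z (n 0 z (n 0 z (n 0 z (n
 0 z (n 0 z z))))))))))))))) (n 261 (n 0 z (n 0 z (n 0 z (n 0 z (n 0 z (n 0 z (n 0 z (n 0 z (n 0
 z (n 0 z (n 0 z (n 0 z (n 0 z (n 0 z (n 0 z z))))))))))))))) (n 773 (n 0 z (n 0 z (n 0 z (n 0 z
 (n 0 z (n 0 z (n 0 z (n 0 z (n 0 z (n 0 z (n 0 z (n 0 z (n 0 z (n 0 z z)))))))))))))) (n 773 (n
 0 z (n 0 z (n 0 z (n 0 z (n 0 z (n 0 z (n 0 z (n 0 z (n 0 z (n 0 z (n 0 z (n 0 z (n 0 z (n 0 z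
 z)))))))))))))) z)))))))))))))) (n 0 (n 527 (n 0 z (n 0 z (n 0 z (n 0 z (n 0 z (n 0 z (n 0 z (n
 0 z (n 0 z z))))))))) (n 527 (n 0 z (n 0 z (n 0 z (n 0 z (n 0 z (n 0 z (n 0 z (n 0 z (n 0 z
 z))))))))) (n 527 (n 0 z (n 0 z (n 0 z (n 2 (n 1 z (n 1 z (n 2 (n 0 z (n 0 z (n 0 z (n 0 z (n 0
 (n 3204 z z) (n 0 z z)))))) (n 1 z (n 1 z (n 2 (n 0 z (n 0 z (n 0 z (n 0 z (n 0 (n 1964 z z) (n
 0 z z)))))) (n 1 z (n 1 z (n 1 z (n 1 z z)))))))))) (n 0 z (n 0 z (n 0 z (n 0 z (n 0 z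
 z))))))))) (n 801 (n 0 z (n 0 z (n 0 z (n 0 z (n 0 z (n 0 z (n 0 z (n 0 z (n 0 z (n 0 z (n 0 z
 (n 0 z (n 0 z (n 0 z (n 0 z (n 0 z (n 0 z (n 0 z (n 0 z (n 0 z (n 0 z (n 0 z
 z)))))))))))))))))))))) (n 801 (n 0 z (n 0 z (n 0 z (n 0 z (n 0 z (n 0 z (n 0 z (n 0 z (n 0 z
 (n 0 z (n 0 z (n 0 z (n 0 z (n 0 z (n 0 z (n 0 z (n 0 z (n 0 z (n 0 z (n 0 z (n 0 z (n 0 z
 z)))))))))))))))))))))) (n 801 (n 0 z (n 0 z (n 0 z (n 0 z (n 0 z (n 0 z (n 0 z (n 0 z (n 0 z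
 (n 0 z (n 0 z (n 0 z (n 0 z (n 0 z (n 0 z (n 0 z (n 0 z (n 0 z (n 0 z (n 0 z (n 0 z (n 0 z
 z)))))))))))))))))))))) (n 491 (n 0 z (n 0 z (n 0 z (n 0 z (n 0 z (n 0 z (n 0 z (n 0 z (n 0 z
 (n 0 z (n 0 z (n 0 z (n 0 z (n 0 z (n 0 z (n 0 z (n 0 z (n 0 z (n 0 z (n 0 z (n 0 z (n 0 z (n 0
 z (n 0 z (n 0 z (n 0 z (n 0 z (n 0 z (n 0 z (n 2 (n 0 z (n 0 z (n 1 z (n 1 z (n 1 z (n 1 z
 z)))))) (n 0 z (n 0 z z)))))))))))))))))))))))))))))))) (n 491 (n 0 z (n 0 z (n 0 z (n 0 z (n 0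
 z (n 0 z (n 0 z (n 0 z (n 0 z (n 0 z (n 0 z (n 0 z (n 0 z (n 0 z (n 0 z (n 0 z (n 0 z (n 0 z (n
 0 z (n 0 z (n 0 z (n 0 z (n 0 z (n 0 z (n
 0x668000150cadc0166b8000a86566009edf00054329100eb098002a1957804b68c00150caa4018be8008e2416a0122bc0047120b10027b780238904880dbfbc011c4823401de16008e240da04f2770047120a502262180238903281456fc011c4809400334000ea8216a0272880075410b101c6e3803aa0856820032c01d5041b404070e00ea821120121530075410a506825d803aa0842808f79c01d504094135dde00ea8210201e2b70005410ae81490f8002a085240057bc0015042820448de0006421410057bf00043201002663fd7640711bf6ec808240e9d904ae55cbb204e26f87648003a37f7eb081c83376737786c1e4796c4390f7707b027787ae967f78358204dd7d45d77eda7082188c80d195840646800000800000817c3b80353e7d2f2a8305268000008000008000008198407c5b9f7ce93980ae478000008529f57a78508242e57c95bd7f00b4811e8b83da047c62347f5b107e66df82177a7efee17a096b832df786c31780000080000082abd37cff177ce24ed959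
 z (n 0 z (n 0 z (n 0 z (n 0 z (n 0 z (n 0 z (n 0 z z)))))))))))))))))))))))))))))))) (n 491 (n
 0 z (n 0 z (n 0 z (n 0 z (n 0 z (n 0 z (n 0 z (n 0 z (n 0 z (n 0 z (n 0 z (n 0 z (n 0 z (n 0 z
 (n 0 z (n 0 z (n 0 z (n 0 z (n 0 z (n 0 z (n 0 z (n 0 z (n 0 z (n 0 z (n 0 z (n 0 z (n 0 z (n 0
 z (n 0 z (n 0 z (n 0 z (n 2 (n 1 z (n 2 (n 0 z (n 0 z (n 0 z (n 0 z (n 0 (n 1956 z z) (n 0 z
 z)))))) (n 1 z (n 2 (n 0 z (n 0 z (n 0 z (n 0 z (n 0 (n 3188 z z) (n 0 z z)))))) z))))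
 z)))))))))))))))))))))))))))))))) (n 489 (n 0 z (n 0 z (n 0 z (n 0 z (n 0 z (n 0 z (n 0 z (n 0
 z (n 0 z (n 0 z (n 0 z (n 0 z (n 0 z (n 0 z (n 0 z (n 0 z (n 0 z (n 0 z (n 2 (n 0 z (n 1 z (n 2
 (n 0 z (n 0 z (n 0 z (n 0 z (n 0 (n 3188 z (n 3188 z z)) (n 0 (n 5 z z) z)))))) z))) (n 0 z (n
 0 z (n 0 z (n 0 z (n 0 z (n 0 z (n 0 z (n 0 z (n 0 z z)))))))))))))))))))))))))))) (n 489 (n 0
 z (n 0 z (n 0 z (n 0 z (n 0 z (n 0 z (n 0 z (n 0 z (n 0 z (n 0 z (n 0 z (n 0 z (n 0 z (n 0 z (n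
 0 z (n 0 z (n 0 z (n 0 z (n 0 z (n 0 z (n 0 z (n 0 z (n 0 z (n 0 z (n 0 z (n 0 z (n 0 z (n 0 z
 z)))))))))))))))))))))))))))) (n 797 (n 0 z (n 0 z (n 0 z (n 0 z (n 0 z (n 0 z (n 0 z (n 0 z (n
 0 z (n 0 z (n 0 z (n 0 z (n 0 z (n 0 z (n 0 z (n 0 z (n 0 z (n 0 z (n 0 z (n 0 z (n 0 z (n 0 z
 (n 0 z (n 0 z (n 0 z (n 0 z (n 0 z (n 0 z (n 0 z (n 0 z (n 0 z (n 0 z (n 0 z (n 0 z (n 0 z (n 0
 z (n 0 z (n 0 z (n 0 z (n 0 z (n 0 z (n 0 z (n 0 z (n 0 z (n 0 z (n 0 z (n 0 z (n 0 z (n 0 z (n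
 0 z (n 0 z z))))))))))))))))))))))))))))))))))))))))))))))))))) (n 797 (n 0 z (n 0 z (n 0 z (n
 0 z (n 0 z (n 0 z (n 0 z (n 0 z (n 0 z (n 0 z (n 0 z (n 0 z (n 0 z (n 0 z (n 0 z (n 0 z (n 0 z
 (n 0 z (n 0 z (n 0 z (n 0 z (n 0 z (n 0 z (n 0 z (n 0 z (n 0 z (n 0 z (n 0 z (n 0 z (n 0 z (n 0
 z (n 0 z (n 0 z (n 0 z (n 0 z (n 0 z (n 0 z (n 0 z (n 0 z (n 0 z (n 0 z (n 0 z (n 0 z (n 0 z (n
 2 z (n 0 z (n 0 z (n 0 z (n 0 z (n 0 z (n 0 z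
 z))))))))))))))))))))))))))))))))))))))))))))))))))) z))))))))))))) (n 0 (n 0 z (n 0 z (n 171
 (n 0 z (n 0 z (n 0 z (n 0 z (n 0 z (n 0 z z)))))) (n 171 (n 0 z (n 0 z (n 0 z (n 0 z (n 0 z (n
 0 z z)))))) (n 171 (n 0 z (n 0 z (n 0 z (n 0 z (n 0 z (n 0 z z)))))) (n 55 (n 0 z (n 0 z (n 0 z
 (n 0 z (n 0 z (n 0 z (n 0 z (n 0 z (n 0 z (n 0 z (n 0 z z))))))))))) (n 55 (n 0 z (n 0 z (n 0 z
 (n 0 z (n 0 z (n 0 z (n 0 z (n 7750403 z (n 0 z (n 0 z (n 0 z z))))))))))) (n 55 (n 0 z (n 0 z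
 (n 0 z (n 0 z (n 0 z (n 0 z (n 0 z (n 0 z (n 0 z (n 0 z (n 2 (n 2 (n 0 z (n 0 z (n 0 z (n 0 z
 (n 0 z (n 0 z z)))))) (n 1 z (n 2 (n 0 z (n 0 z (n 0 z (n 0 z (n 0 z (n 0 z z)))))) (n 1 z
 z)))) z))))))))))) (n 51 (n 0 z (n 0 z (n 0 z (n 0 z (n 0 z (n 0 z (n 0 z z))))))) (n 51 (n 0 z
 (n 0 z (n 0 z (n 0 z (n 0 z (n 0 z (n 0 z z))))))) (n 53 (n 0 z (n 0 z (n 0 z (n 2 (n 0 z z) (n
 0 z (n 0 z z)))))) (n 53 (n 0 z (n 0 z (n 0 z (n 0 z (n 0 z (n 0 z z)))))) z)))))))))))) (n 0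
 (n 0 z (n 31 (n 0 z (n 0 z (n 0 z (n 0 z (n 0 z (n 0 z (n 0 z (n 0 z (n 0 z (n 0 z (n 0 z (n 0
 z (n 0 z (n 0 z (n 0 z (n 0 z (n 0 z (n 0 z (n 0 z (n 0 z (n 0 z (n 0 z (n 0 z (n 0 z (n 2 (n 0
 z (n 0 z (n 1 z (n 1 z (n 2 (n 0 z (n 0 z (n 0 z (n 0 z (n 0 (n 28 z z) (n 0 z z)))))) (n 1 z
 (n 1 z (n 1 z (n 1 z z))))))))) z))))))))))))))))))))))))) (n 31 (n 0 z (n 0 z (n 0 z (n 0 z (n
 0 z (n 0 z (n 0 z (n 0 z (n 0 z (n 0 z (n 0 z (n 0 z (n 0 z (n 0 z (n 0 z (n 0 z (n 0 z (n 0 z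
 (n 0 z (n 0 z (n 0 z (n 0 z (n 0 z (n 0 z (n 0 z z))))))))))))))))))))))))) (n 31 (n 0 z (n 0 z
 (n 0 z (n 0 z (n 0 z (n 0 z (n 0 z (n 0 z (n 0 z (n 0 z (n 0 z (n 0 z (n 0 z (n 0 z (n 0 z (n 0
 z (n 0 z (n 0 z (n 0 z (n 0 z (n 0 z (n 0 z (n 0 z (n 0 z (n 0 z z))))))))))))))))))))))))) (n
 7 (n 0 z (n 0 z (n 0 z (n 0 z (n 0 z (n 2 (n 0 z (n 0 z (n 1 z (n 1 z (n 1 z (n 1 z z)))))) (n
 0 z (n 0 z (n 0 z (n 0 z (n 0 z (n 0 z (n 0 z (n 0 z (n 0 z (n 0 z (n 0 z (n 0 z (n 0 z (n 0 z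
 (n 0 z (n 0 z (n 0 z (n 0 z (n 0 z z))))))))))))))))))))))))) (n 7 (n 0 z (n 0 z (n 0 z (n 0 z
 (n 0 z (n 0 z (n 0 z (n 0 z (n 0 z (n 0 z (n 0 z (n 0 z (n 0 z (n 0 z (n 0 z (n 0 z (n 0 z (n 0
 z (n 0 z (n 0 z (n 0 z (n 0 z (n 0 z (n 0 z (n 0 z z))))))))))))))))))))))))) (n 7 (n 0 z (n 0
 z (n 0 z (n 0 z (n 0 z (n 0 z (n 0 z (n 0 z (n 0 z (n 0 z (n 0 z (n 0 z (n 0 z (n 0 z (n 0 z (n
 0 z (n 0 z (n 0 z (n 0 z (n 0 z (n 0 z (n 0 z (n 0 z (n 0 z (n 2 (n 1 z (n 2 (n 0 z (n 0 z (n 0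
 z (n 0 z (n 0 z (n 0 z z)))))) (n 1 z (n 2 (n 0 z (n 0 z (n 0 z (n 0 z (n 0 z (n 0 z z))))))
 z)))) z))))))))))))))))))))))))) (n 489 (n 0 z (n 0 z (n 0 z (n 0 z (n 0 z (n 0 z (n 0 z (n 0 z
 (n 0 z (n 0 z (n 0 z (n 0 z (n 0 z (n 0 z z)))))))))))))) (n 489 (n 0 z (n 0 z (n 0 z (n 0 z (n
 0 z (n 0 z (n 0 z (n 0 z (n 0 z (n 0 z (n 0 z (n 0 z (n 0 z (n 0 z z)))))))))))))) (n 5 (n 0 z
 (n 0 z (n 0 z (n 0 z (n 2 (n 0 z z) (n 0 z (n 0 z (n 0 z (n 0 z (n 0 z (n 0 z (n 0 z (n 0 z (n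
 0 z (n 0 z z))))))))))))))) (n 5 (n 0 z (n 0 z (n 0 z (n 0 z (n 0 z (n 0 z (n 0 z (n 0 z (n 0 z
 (n 0 z (n 0 z (n 0 z (n 0 z (n 0 z (n 0 z z))))))))))))))) z))))))))))) (n 0 (n 775 (n 0 z (n 0
 z (n 0 z (n 0 z (n 0 z (n 0 z (n 0 z (n 0 z (n 0 z (n 0 z (n 0 z (n 0 z (n 0 z (n 0 z (n 0 z (n
 0 z (n 0 z (n 0 z (n 0 z (n 0 z (n 0 z (n 0 z (n 0 z (n 0 z (n 0 z (n 0 z (n 0 z (n 0 z (n 0 z
 (n 2 (n 0 z (n 0 z (n 1 z (n 1 z (n 2 (n 0 z (n 0 z (n 0 z (n 0 z (n 0 (n 2100 z z) (n 0 z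
 z)))))) (n 1 z (n 1 z (n 1 z (n 1 z z))))))))) (n 0 z (n 0 z z))))))))))))))))))))))))))))))))
 (n 775 (n 0 z (n 0 z (n 0 z (n 0 z (n 0 z (n 0 z (n 0 z (n 0 z (n 0 z (n 0 z (n 0 z (n 0 z (n 0
 z (n 0 z (n 0 z (n 0 z (n 0 z (n 0 z (n 0 z (n 0 z (n 0 z (n 0 z (n 0 z (n 0 z (n
 0x668000150cadc0166b8000a86566009edf00054329100eb098002a1957804b68c00150caa4018be800a62e16e0122bc0053170b30027b780298b84980dbfbc014c5c23c01de1600a62e0de04f2770053170a702262180298b83381456fc014c5c09c00334000ea8216a0272880075410b101c6e3803aa0856820032c01d5041b404070e00ea821120121530075410a506825d803aa0842808f79c01d504094135dde00ea8210201e2b70005410ae81490f8002a085240057bc0015042820448de0006421410057bf00043201002663fd7650711bf6eca08240e9d944ae55cbb284e26f87658003a37f7eb081c83376737786c1e4796c4390f7707b027787ae967f78358204dd7d45d77eda7082188c80d195840646800000800000817c3b80353e7d2f2a8305268000008000008000008198407c5b9f7ce93980ae478000008529f57a78508242e57c95bd7f00b4811e8b83da047c62347f5b107e66df82177a7efee17a096b832df786c31780000080000082abd37cff177ce24ed959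
 z (n 0 z (n 0 z (n 0 z (n 0 z (n 0 z (n 0 z (n 0 z z)))))))))))))))))))))))))))))))) (n 775 (n
 0 z (n 0 z (n 0 z (n 0 z (n 0 z (n 0 z (n 0 z (n 0 z (n 0 z (n 0 z (n 0 z (n 0 z (n 0 z (n 0 z
 (n 0 z (n 0 z (n 0 z (n 0 z (n 0 z (n 0 z (n 0 z (n 0 z (n 0 z (n 0 z (n 0 z (n 0 z (n 0 z (n 0
 z (n 0 z (n 0 z (n 0 z (n 2 (n 1 z (n 1 z (n 2 (n 0 z (n 0 z (n 0 z (n 0 z (n 0 z (n 0 z
 z)))))) (n 1 z (n 2 (n 0 z (n 0 z (n 0 z (n 0 z (n 0 (n 2084 z z) (n 0 z z)))))) (n 1 z (n 2 (n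
 0 z (n 0 z (n 0 z (n 0 z (n 0 (n 3092 z z) (n 0 z z)))))) z)))))))
 z)))))))))))))))))))))))))))))))) (n 525 (n 0 z (n 0 z (n 0 z (n 0 z (n 0 z (n 0 z (n 0 z (n 0
 z (n 0 z (n 0 z (n 0 z (n 0 z (n 0 z (n 0 z (n 0 z (n 0 z (n 0 z (n 0 z (n 0 z (n 0 z (n 0 z (n
 0 z z)))))))))))))))))))))) (n 525 (n 0 z (n 0 z (n 0 z (n 0 z (n 0 z (n 0 z (n 0 z (n 0 z (n 0
 z (n 0 z (n 0 z (n 0 z (n 0 z (n 0 z (n 0 z (n 0 z (n 0 z (n 0 z (n 0 z (n 0 z (n 0 z (n 0 z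
 z)))))))))))))))))))))) (n 525 (n 0 z (n 0 z (n 0 z (n 0 z (n 0 z (n 0 z (n 0 z (n 0 z (n 0 z
 (n 0 z (n 0 z (n 0 z (n 0 z (n 0 z (n 0 z (n 0 z (n 0 z (n 0 z (n 0 z (n 0 z (n 0 z (n 0 z
 z)))))))))))))))))))))) (n 521 (n 0 z (n 0 z (n 0 z (n 0 z (n 0 z (n 0 z (n 0 z (n 0 z (n 0 z
 (n 0 z (n 0 z (n 0 z (n 0 z (n 0 z (n 0 z (n 0 z (n 0 z (n 0 z (n 0 z (n 0 z (n 0 z (n 0 z (n 0
 z (n 0 z (n 0 z (n 0 z (n 0 z (n 0 z (n 0 z (n 0 z (n 0 z (n 0 z (n 0 z (n 0 z (n 0 z (n 0 z (n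
 0 z (n 0 z (n 0 z (n 0 z (n 0 z (n 0 z (n 0 z (n 0 z (n 0 z (n 0 z (n 0 z (n 0 z (n 0 z (n 0 z
 (n 0 z z))))))))))))))))))))))))))))))))))))))))))))))))))) (n 521 (n 0 z (n 0 z (n 0 z (n 0 z
 (n 0 z (n 0 z (n 0 z (n 0 z (n 0 z (n 0 z (n 0 z (n 0 z (n 0 z (n 0 z (n 0 z (n 0 z (n 0 z (n 0
 z (n 0 z (n 0 z (n 0 z (n 0 z (n 0 z (n 0 z (n 0 z (n 0 z (n 0 z (n 0 z (n 0 z (n 0 z (n 0 z (n
 0 z (n 0 z (n 0 z (n 0 z (n 0 z (n 0 z (n 0 z (n 0 z (n 0 z (n 0 z (n 0 z (n 0 z (n 0 z (n 2 (n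
 2 (n 0 z (n 0 z (n 0 z (n 0 z (n 0 (n 5 z z) (n 0 z z)))))) (n 2 (n 0 (n 3092 z z) (n 0 z (n 0
 z (n 0 z (n 0 (n 3092 z (n 8718155 z z)) (n 0 (n 3092 z z) z)))))) z)) (n 0 z (n 0 z (n 0 z (n
 0 z (n 0 z (n 0 z z))))))))))))))))))))))))))))))))))))))))))))))))))) (n 773 (n 0 z (n 0 z (n
 0 z (n 0 z (n 0 z (n 0 z (n 0 z (n 0 z (n 0 z (n 0 z (n 0 z (n 0 z (n 0 z (n 0 z (n 0 z (n 0 z
 (n 0 z (n 0 z (n 2 (n 0 z z) (n 0 z (n 0 z (n 0 z (n 0 z (n 0 z (n 0 z (n 0 z (n 0 z (n 0 z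
 z)))))))))))))))))))))))))))) (n 773 (n 0 z (n 0 z (n 0 z (n 0 z (n 0 z (n 0 z (n 0 z (n 0 z (n
 0 z (n 0 z (n 0 z (n 0 z (n 0 z (n 0 z (n 0 z (n 0 z (n 0 z (n 0 z (n 0 z (n 0 z (n 0 z (n 0 z
 (n 0 z (n 0 z (n 0 z (n 0 z (n 0 z (n 0 z z)))))))))))))))))))))))))))) z)))))))))) (n 0 (n 0 z
 (n 0 z (n 27 (n 0 z (n 0 z (n 0 z (n 0 z (n 0 z (n 0 z (n 0 z (n 0 z (n 0 z (n 0 z (n 0 z
 z))))))))))) (n 27 (n 0 z (n 0 z (n 0 z (n 0 z (n 7750403 z (n 0 z (n 0 z (n 0 z (n 0 z (n 0 z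
 (n 0 z z))))))))))) (n 27 (n 0 z (n 0 z (n 0 z (n 0 z (n 0 z (n 0 z (n 0 z (n 0 z (n 0 z (n 2
 (n 2 (n 0 z (n 0 z (n 0 z (n 0 z (n 0 (n 1044 z z) (n 0 z z)))))) (n 1 z (n 2 (n 0 z (n 0 z (n
 0 z (n 0 z (n 0 (n 1028 z z) (n 0 z z)))))) (n 1 z z)))) (n 0 z z))))))))))) (n 261 (n 0 z (n 0
 z (n 0 z (n 0 z (n 0 z (n 0 z (n 0 z (n 0 z (n 0 z (n 0 z (n 0 z (n 0 z (n 0 z (n 0 z (n 0 z
 z))))))))))))))) (n 261 (n 0 z (n 0 z (n 0 z (n 0 z (n 0 z (n 0 z (n 0 z (n 0 z (n 0 z (n 0 z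
 (n 0 z (n 0 z (n 0 z (n 0 z (n 0 z z))))))))))))))) (n 257 (n 0 z (n 0 z (n 2 (n 0 z z) (n 0 z
 (n 0 z (n 0 z (n 0 z (n 0 z z)))))))) (n 257 (n 0 z (n 0 z (n 0 z (n 0 z (n 0 z (n 0 z (n 0 z
 (n 0 z z)))))))) z))))))))) (n 0 (n 0 z (n 279 (n 0 z (n 0 z (n 0 z (n 0 z (n 0 z (n 7754259 z
 (n 0 z z))))))) (n 279 (n 0 z (n 0 z (n 0 z (n 0 z (n 0 z (n 0 z (n 0 z z))))))) (n 279 (n 0 z
 (n 0 z (n 0 z (n 0 z (n 0 z (n 0 z (n 0 z z))))))) (n 339 (n 0 z (n 0 z (n 0 z (n 0 z (n 0 z (n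
 0 z z)))))) (n 339 (n 0 z (n 0 z (n 0 z (n 0 z (n 0 z (n 0 z z)))))) (n 781 (n 0 z (n 0 z (n 2
 (n 0 z z) (n 0 z (n 0 z (n 0 z (n 0 z (n 0 z (n 0 z (n 0 z z)))))))))) (n 781 (n 0 z (n 0 z (n
 0 z (n 0 z (n 0 z (n 0 z (n 0 z (n 0 z (n 7754259 z (n 0 z z)))))))))) z)))))))) (n 0 (n 285 (n
 0 z (n 0 z (n 0 z (n 0 z (n 0 z (n 2 (n 0 z (n 0 z (n 2 (n 0 z (n 0 z (n 0 z (n 0 z (n 0 (n
 1044 z z) (n 0 z z)))))) (n 1 z (n 2 (n 0 z (n 0 z (n 0 z (n 0 z (n 0 (n 1364 z z) (n 0 z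
 z)))))) (n 1 z z)))))) (n 0 z (n 0 z (n 0 z z))))))))) (n 285 (n 0 z (n 0 z (n 0 z (n 0 z (n 0
 z (n 0 z (n 0 z (n 0 z (n 0 z z))))))))) (n 285 (n 0 z (n 0 z (n 0 z (n 0 z (n 0 z (n 0 z (n 0
 z (n 0 z (n 0 z z))))))))) (n 261 (n 0 z (n 0 z (n 0 z (n 0 z (n 0 z (n 0 z (n 0 z (n 0 z (n 0
 z (n 0 z (n 0 z z))))))))))) (n 261 (n 0 z (n 0 z (n 0 z (n 0 z (n 0 z (n 0 z (n 0 z (n 0 z (n
 0 z (n 0 z (n 0 z z))))))))))) (n 341 (n 0 z (n 0 z (n 0 z (n 0 z (n 0 z (n 0 z (n 0 z (n 0 z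
 (n 0 z (n 0 z (n 0 z (n 0 z (n 0 z (n 0 z z)))))))))))))) (n 341 (n 0 z (n 0 z (n 0 z (n 0 z (n
 2 z (n 0 z (n 0 z (n 0 z (n 0 z (n 0 z (n 0 z (n 0 z (n 0 z (n 0 z z)))))))))))))) z))))))) (n
 0 (n 0 z (n 0 z (n 9 (n 0 z (n 0 z (n 2 (n 0 z (n 1 z (n 1 z z))) (n 0 z (n 0 z (n 0 z (n 0 z
 (n 0 z z)))))))) (n 9 (n 0 z (n 0 z (n 0 z (n 0 z (n 0 z (n 0 z (n 0 z (n 0 z z)))))))) (n 5 (n
 0 z (n 0 z (n 0 z (n 0 z (n 0 z (n 0 z (n 0 z (n 0 z (n 0 z (n 0 z (n 0 z (n 0 z (n 0 z (n 0 z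
 (n 0 z z))))))))))))))) (n 5 (n 0 z (n 0 z (n 0 z (n 0 z (n 0 z (n 0 z (n 0 z (n 0 z (n 0 z (n
 0 z (n 0 z (n 0 z (n 0 z (n 0 z (n 0 z z))))))))))))))) z)))))) (n 0 (n 0 z (n 495 (n 0 z (n 0
 z (n 2 (n 0 z (n 1 z (n 1 z z))) (n 0 z (n 0 z (n 0 z (n 0 z (n 0 z (n 0 z (n 0 z z))))))))))
 (n 495 (n 0 z (n 0 z (n 0 z (n 0 z (n 0 z (n 0 z (n 0 z (n 0 z (n 7750403 z (n 0 z z))))))))))
 (n 49 (n 0 z (n 0 z (n 0 z (n 0 z (n 0 z (n 0 z z)))))) (n 49 (n 0 z (n 0 z (n 0 z (n 0 z (n 0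
 z (n 0 z z)))))) z))))) (n 0 (n 57 (n 0 z (n 0 z (n 0 z (n 0 z (n 0 z (n 0 z (n 0 z (n 0 z (n 0
 z (n 0 z (n 0 z (n 0 z (n 0 z (n 0 z z)))))))))))))) (n 57 (n 0 z (n 0 z (n 0 z (n 0 z (n 2 (n
 2 (n 0 z (n 0 z (n 0 z (n 0 z (n 0 z (n 0 z z)))))) (n 2 (n 0 z (n 0 z (n 0 z (n 0 z (n 0 z (n
 0 z z)))))) z)) (n 0 z (n 0 z (n 0 z (n 0 z (n 0 z (n 0 z (n 0 z (n 0 z (n 0 z z))))))))))))))
 (n 5 (n 0 z (n 0 z (n 0 z (n 0 z (n 0 z (n 0 z (n 0 z (n 0 z (n 0 z (n 0 z (n 0 z z)))))))))))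
 (n 5 (n 0 z (n 0 z (n 0 z (n 0 z (n 0 z (n 0 z (n 0 z (n 0 z (n 0 z (n 0 z (n 0 z z)))))))))))
 z)))) (n 0 (n 0 z (n 1 (n 0 z (n 0 z (n 0 z (n 0 z z)))) (n 1 (n 0 z (n 0 z (n 0 z (n 2 z z))))
 z))) (n 0 (n 1 (n 0 z (n 0 z (n 2 (n 0 z z) (n 0 z (n 0 z (n 0 z z)))))) (n 1 (n 0 z (n 0 z (n
 0 z (n 0 z (n 0 z (n 0 z z)))))) z)) (n 0 (n 0 z z) (n 0 z z)))))))))))))))) (n 0 (n 0 z (n 1
 (n 5309995 z (n 2092 z (n 6558475 z (n 2092 z (n 2092 z (n 2092 z z)))))) (n 1 (n 3282443 z (n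
 6558475 z (n 3282443 z (n 3282443 z (n 3282443 z (n 3282443 z z)))))) (n 0 z (n 1 (n 6423611 z
 (n 6423611 z (n 6423611 z (n 6423611 z (n 6423611 z (n 6558475 z z)))))) (n 1 (n 6558475 z (n
 2164283 z (n 1020 z (n 2092 z (n 2092 z (n 2092 z z)))))) (n 1 (n 1020 z (n 2092 z (n 2092 z (n
 6558475 z (n 2092 z (n 2092 z z)))))) z))))))) (n 0 z z)))) (n
 0x42dca1c84d80b72481b8e981c5210e265895677401d7681216c0 (n 0 (n 443 (n 0 z (n 0 z (n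
 0x1150594080e06ca8ca8203798e817385837a83757c777f7f7e7b81797e7f85827f777e87828277797d8182827b7b7e7d817f81858d81807c84857f7f811009
 z (n 0 z (n 0 z (n 3282443 z (n 2 z (n
 0x6a86ca04077f847f7f857f807d7f807e8080807e7f807f8080807f8082817f837f807d828080807f7f80818180807f8180817f817f80800809
 z (n 0 z (n
 0x4c84c62a077b87807e87827f7f7b8177827f7d7c817d7d7f8281807d807e85807f827c83837e7e7e7d7e82817f7d8581818180837d7e850809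
 z (n 6358075 z (n
 0x32a32a101c2150594080e00ca4ca420378917f7589827a857a807f87817e7d797b817d837b7c7f78899081807d807f7e867e83798881877a868d777b768d847f85871809
 z (n 0 z (n 0 z (n
 0x26c84c62a03007654652303808b2a321181c285909504c061f2c86c86403027654543203805b2a318900c08994d94c40e26ac86a862070278ca606ed94c744b298e886538368b87478738fb7609b17b990c86b8347f981584770094b77d87f88672b75581c81776571f9ac84b7907788f47ce8558887c585673983973680b8126f56b59559039f66f28127b97308064911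
 z (n 0 z (n 6358075 z (n 0 z (n 10 z (n
 0x1b2a32a100c1595150480600ca4ca4207669b7b769f8d7a876c855e907e73707b697c7a86807c6c7d78a07a7b87748193817578707588857c759c7d8585898d7976991809
 z (n
 0x2b29318a00c0995194c80e00ca8c864077795817b91857a84727f6a7e8378778175798086847c72837f8d87798274808a7e82767582848b7b7d8d81817c7f897b7e8b1809
 z (n 18 z z)))))))))))))))))))))) (n 451 (n 0 z (n 3278363 z (n 0 z (n 0 z (n 6358075 z z)))))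
 (n 129 (n 26 z (n 34 z (n 42 z (n 3212843 z z)))) (n 3 (n 0 z (n 0 z (n 6631947 z (n 0 z (n 50
 z (n 0 z z)))))) (n 1 (n 58 z (n 2164299 z z)) (n 0 (n
 0x2ec64c64207878c7d8a6da66390528a719174719e4f689577917c7f6f81819761a2906e87946f837b886a83877e6bc357906da18e6b749d0809
 z (n 0 z (n 6631947 z (n 6631947 z (n 6631947 z (n 66 z (n 74 z (n 6631947 z (n 3212891 z (n
 0x1a46317c5f8cb55e899877997f897a778f995b77917c7b858a7783715a6ba3816c9e82817f8b8a55796a947b66798ea27376756c750049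
 z (n 0 z (n
 0x14c6417d658aaa65879379947f877b798d9463788e7d7c8488798374616f9c80709881817f89875d7a6e907d6b7a8b9d75787770760049
 z z)))))))))))) z)))))) (n 1 (n 0 (n 0 z (n 0 z (n 727 (n 0 z (n 0 z (n 0 z (n 0 z (n 0 z (n 0
 z (n 0 z (n 0 z (n 0 z (n 0 z (n 0 z (n 0 z (n 0 z (n 0 z (n 0 z (n 0 z (n 0 z (n 0 z (n 0 z (n
 0 z (n 0 z (n 0 z (n 0 z (n 0 z (n 0 z z))))))))))))))))))))))))) (n 727 (n 0 z (n 0 z (n 0 z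
 (n 0 z (n 0 z (n 0 z (n 0 z (n 0 z (n 0 z (n 0 z (n 0 z (n 0 z (n 0 z (n 0 z (n 0 z (n 0 z (n 0
 z (n 0 z (n 0 z (n 0 z (n 0 z (n 0 z (n 0 z (n 0 z (n 0 z z))))))))))))))))))))))))) (n 727 (n
 0 z (n 0 z (n 0 z (n 0 z (n 0 z (n 0 z (n 0 z (n 0 z (n 0 z (n 0 z (n 0 z (n 0 z (n 0 z (n 0 z
 (n 0 z (n 0 z (n 0 z (n 0 z (n 0 z (n 0 z (n 0 z (n 0 z (n 0 z (n 0 z (n 0 z
 z))))))))))))))))))))))))) (n 387 (n 0 z (n 0 z (n 0 z (n 0 z (n 0 z (n 0 z (n 0 z (n 0 z (n 0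
 z (n 0 z (n 0 z (n 0 z (n 0 z (n 0 z (n 0 z z))))))))))))))) (n 729 (n 0 z (n 0 z (n 0 z (n 0 z
 (n 0 z (n 0 z (n 0 z z))))))) (n 725 (n 0 z (n 0 z (n 0 z (n 0 z (n 0 z (n 0 z (n 0 z (n 0 z (n
 0 z (n 0 z (n 0 z (n 0 z (n 0 z (n 0 z (n 0 z (n 0 z (n 0 z (n 0 z (n 0 z (n 0 z (n 0 z (n 0 z
 (n 0 z (n 0 z (n 0 z (n 0 z (n 0 z (n 0 z z)))))))))))))))))))))))))))) (n 725 (n 0 z (n 0 z (n
 0 z (n 0 z (n 0 z (n 0 z (n 0 z (n 0 z (n 0 z (n 0 z (n 0 z (n 0 z (n 0 z (n 0 z (n 0 z (n 0 z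
 (n 0 z (n 0 z (n 0 z (n 0 z (n 0 z (n 0 z (n 0 z (n 0 z (n 0 z (n 0 z (n 0 z (n 0 z
 z)))))))))))))))))))))))))))) z))))))))) (n 0 (n 0 z (n 885 (n 0 z (n 0 z (n 0 z (n 0 z (n 0 z
 (n 0 z (n 7610723 z (n 0 z (n
 0x447637c787f91818981817a847b83817c837d7980818181827c8079817f8283807f8a80827d7d7c83888077877d8380817f7c7a860049
 z (n 0 z (n 0 z z))))))))))) (n 885 (n 0 z (n 0 z (n 2 (n 0 z (n 1 z (n 1 z (n 1 z (n 1 z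
 z))))) (n 0 z (n 0 z (n 0 z (n 0 z (n 0 z (n 0 z (n 0 z (n 0 z z))))))))))) (n 885 (n 0 z (n 0
 z (n 0 z (n 0 z (n 0 z (n 0 z (n 0 z (n 0 z (n 0 z (n 0 z (n 2 (n 1 z (n 2 (n 0 (n 8864515 z (n
 8864515 z z)) (n 0 (n 8864515 z (n 8864515 z z)) (n 0 z (n 0 z (n 0 z (n 0 (n 8864515 z (n
 8864515 z z)) z)))))) (n 2 (n 0 (n 8855603 z (n 8855603 z z)) (n 0 (n 8855603 z (n 8855603 z
 z)) (n 0 (n 8855603 z (n 8855603 z z)) (n 0 z (n 0 (n 8855603 z (n 8855603 z z)) (n 0 z z))))))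
 (n 2 (n 0 (n 8864515 z (n 8864515 z z)) (n 0 (n 8864515 z (n 8864515 z z)) (n 0 z (n 0 z (n 0 z
 (n 0 (n 8864515 z (n 8864515 z z)) z)))))) z)))) z))))))))))) (n 405 (n 0 z (n 0 z (n 2 (n 1 z
 (n 1 z (n 1 z z))) (n 0 z (n 0 z (n 0 z z)))))) (n 351 (n 0 z (n 0 z (n 2 (n 2 (n 0 z (n 0 (n
 1460 z z) (n 0 z (n 0 z (n 0 (n 8659299 z z) (n 0 (n 5 z (n 4422 z z)) z)))))) (n 1 z z)) (n 0
 z (n 0 z (n 0 z (n 0 z (n 0 z z)))))))) (n 365 (n 0 z (n 0 z (n 0 z (n 0 z (n 0 z (n 0 z (n 0 z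
 (n 0 z (n 0 z (n 0 z (n 0 z (n 0 z (n 2 (n 0 z z) z))))))))))))) (n 365 (n 2 z (n 0 z (n 0 z (n
 0 z (n 0 z (n 0 z (n 0 z (n 0 z (n 0 z (n 0 z (n 0 z (n 0 z (n 0 z z))))))))))))) z)))))))) (n
 0 (n 1035 (n 0 z (n 0 z (n 0 z (n 0 z (n 0 z (n 0 z (n 2 (n 0 z (n 0 z (n 1 z (n 1 z (n 1 z (n
 1 z z)))))) (n 0 z (n 0 z (n 0 z (n 0 z (n 0 z (n 0 z (n 0 z (n 0 z (n 0 z (n 0 z (n 0 z (n 0 z
 (n 0 z (n 0 z (n 0 z z)))))))))))))))))))))) (n 1035 (n 0 z (n 0 z (n 0 z (n 0 z (n 0 z (n 0 z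
 (n 0 z (n 0 z (n 0 z (n 0 z (n 0 z (n 0 z (n 0 z (n 0 z (n 0 z (n 0 z (n 0 z (n 0 z (n 0 z (n 0
 z (n 0 z (n 0 z z)))))))))))))))))))))) (n 1035 (n 0 z (n 0 z (n 0 z (n 0 z (n 0 z (n 0 z (n 0
 z (n 0 z (n 0 z (n 0 z (n 0 z (n 0 z (n 0 z (n 0 z (n
 0x2cd5058c1c0e346e84c20a03038765765401859ba8ba8201c771d91d90406232ca8ea42030b665465210386eba9328080cca5d4d50c00620eea8ea20032e775473100197fba8b98800ca06bb23dac764c356ec8e029d92aecbb231d87649cf2dca2f8fead52709c2838bc6af28e583652bbc79539d6a51d168454b85137929dcb4e4b88f35f789d62ff8e4d1878a88688b8c50176d8b164285c490523ac387ada738a6a8f1e9165ad6191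
 z (n 0 z (n 0 z (n 0 z (n 0 z (n 0 z (n 0 z (n 0 z z)))))))))))))))))))))) (n 1017 (n 0 z (n 0
 z (n 0 z (n 0 z (n
 0x2aea4e82c07749589857e916a825a7f7c82856c876e688077937b7f7d7b8a8f7b9e8d6a8c8575786d7d7386906f89c36077609b8b73739c0809
 z (n 0 z (n 0 z (n 0 z (n 0 z (n 0 z (n 0 z (n 0 z (n 0 z z))))))))))))) (n 351 (n 0 z (n 0 z
 (n 0 z (n 0 z (n 0 z (n 0 z (n 0 z (n 0 z (n 0 z (n 0 z (n 0 z (n 0 z (n 0 z z))))))))))))) (n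
 365 (n 0 z (n 0 z (n 0 z (n 0 z (n 0 z (n 0 z (n 2 (n 0 z z) (n 0 z (n 0 z (n 0 z (n 0 z (n 0 z
 (n 0 z (n 0 z (n 0 z (n 0 z (n 0 z (n 0 z (n 0 z (n 0 z (n 0 z (n 0 z z))))))))))))))))))))))
 (n 365 (n 0 z (n 0 z (n 0 z (n 0 z (n 0 z (n 0 z (n 0 z (n 0 z (n 0 z (n 0 z (n 0 z (n 0 z (n 0
 z (n 0 z (n 0 z (n 0 z (n 0 z (n 0 z (n 0 z (n 0 z (n 0 z (n 0 z z))))))))))))))))))))))
 z))))))) (n 0 (n 0 z (n 0 z (n 1077 (n 0 z (n 0 z (n 0 z (n 0 z (n 0 z z))))) (n 255 (n 0 z (n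
 0 z (n 0 z (n 0 z (n 0 z z))))) (n 1085 (n 0 z (n 0 z (n 0 z (n 0 z (n 0 z (n 0 z (n 0 z (n 0 z
 (n 0 z (n 0 z z)))))))))) (n 1085 (n 0 z (n 0 z (n 0 z (n 0 z (n 0 z (n 0 z (n 0 z (n 0 z (n 0
 z (n 0 z z)))))))))) z)))))) (n 0 (n 0 z (n 267 (n 0 z (n 0 z (n 0 z (n 0 z z)))) (n 837 (n 0 z
 (n 0 z (n 0 z (n 0 z (n 0 z (n 0 z z)))))) (n 833 (n
 0x3c7617f8b7e7d897f807c7d7e7d8081807c827d807e827b7e7d80828e7f867a8482807e777e7c7e81827f808d7f7e8083877e7e820049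
 z (n 0 z (n 0 z (n 0 z (n 0 z (n 0 z (n 0 z (n 0 z (n 0 z (n 0 z (n 0 z (n 0 z (n 0 z (n 0 z (n
 0 z (n 0 z (n 0 z (n 0 z (n 0 z (n 0 z (n 0 z (n 0 z (n 0 z (n 0 z (n 0 z (n 0 z (n 0 z (n 0 z
 z)))))))))))))))))))))))))))) (n 833 (n 0 z (n 0 z (n 0 z (n 0 z (n 0 z (n 0 z (n 0 z (n 0 z (n
 0 z (n 0 z (n 0 z (n 0 z (n 0 z (n 0 z (n 0 z (n 0 z (n 0 z (n 0 z (n 0 z (n 0 z (n 0 z (n 0 z
 (n 0 z (n 0 z (n 0 z (n 0 z (n 0 z (n 0 z z)))))))))))))))))))))))))))) z))))) (n 0 (n 1071 (n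
 0 z (n 0 z (n 0 z (n 0 z (n 0 z (n 0 z (n 0 z z))))))) (n 255 (n 0 z (n 0 z (n 0 z (n 0 z (n 0
 z z))))) (n 1073 (n 0 z (n 0 z (n 0 z (n 0 z (n 0 z (n 0 z (n 0 z (n 0 z (n 0 z (n 0 z (n 0 z
 (n 0 z (n 0 z (n 0 z (n 0 z (n 0 z (n 0 z (n 0 z (n 0 z (n 0 z (n 0 z (n 0 z (n 0 z (n 0 z (n 0
 z (n 0 z (n 0 z (n 0 z z)))))))))))))))))))))))))))) (n 1073 (n 0 z (n 0 z (n 0 z (n 0 z (n 0 z
 (n 0 z (n 0 z (n 0 z (n 0 z (n 0 z (n 0 z (n 0 z (n 0 z (n 0 z (n 0 z (n 0 z (n 0 z (n 0 z (n 0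
 z (n 0 z (n 0 z (n 0 z (n 0 z (n 0 z (n 0 z (n 0 z (n 0 z (n 0 z z))))))))))))))))))))))))))))
 z)))) (n 0 (n 3 (n 0 z (n 0 z (n 0 z (n 0 z (n 0 z (n 0 z (n 0 z z))))))) (n 5 (n 0 z (n 0 z (n
 0 z (n 0 z (n 0 z (n 0 z (n 0 z (n 0 z (n 0 z (n 0 z (n 0 z (n 0 z (n 0 z (n 0 z (n 0 z (n 0 z
 (n 0 z (n 0 z (n 0 z (n 0 z (n 0 z (n 0 z (n 0 z (n 0 z (n 0 z z))))))))))))))))))))))))) (n 5
 (n 0 z (n 0 z (n 0 z (n 0 z (n 0 z (n 0 z (n 0 z (n 0 z (n 0 z (n 0 z (n 0 z (n 0 z (n 0 z (n 0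
 z (n 0 z (n 0 z (n 0 z (n 0 z (n 0 z (n 0 z (n 0 z (n 0 z (n 0 z (n 0 z (n 0 z
 z))))))))))))))))))))))))) z))) (n 0 (n 1 (n 0 z (n 0 z (n 0 z (n 0 z (n 0 z (n 0 z (n 0 z (n 0
 z (n 0 z (n 0 z (n 0 z (n 0 z (n 0 z (n 0 z (n 0 z (n 0 z (n 0 z (n 0 z (n 0 z (n 0 z (n 0 z (n
 0 z (n 0 z (n 0 z (n 0 z (n 0 z (n 0 z (n 0 z (n 0 z (n 0 z (n 0 z (n 0 z (n 0 z (n
 0x7c7617e957c7a927f81777a7b7981807f78857a807c85767d7a7f849b7e8c758984817b707a7a7e83847d7f997e7d81818e7c7e850049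
 z (n 0 z (n 0 z (n 0 z (n 0 z (n 0 z (n 0 z (n 0 z (n 0 z (n 0 z (n 0 z (n 0 z (n 0 z (n 0 z (n
 0 z (n 0 z (n 0 z (n 0 z z))))))))))))))))))))))))))))))))))))))))))))))))))) (n 1 (n 0 z (n 0
 z (n 0 z (n 0 z (n 0 z (n 0 z (n 0 z (n 0 z (n 0 z (n 0 z (n 0 z (n 0 z (n 0 z (n 0 z (n 0 z (n
 0 z (n 0 z (n 0 z (n 0 z (n 0 z (n 0 z (n 0 z (n 0 z (n 0 z (n 0 z (n 0 z (n 0 z (n 0 z (n 0 z
 (n 0 z (n 0 z (n 0 z (n 0 z (n 0 z (n 0 z (n 0 z (n 0 z (n 0 z (n 0 z (n 0 z (n 0 z (n 0 z (n 0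
 z (n 0 z (n 0 z (n 0 z (n 0 z (n 0 z (n 0 z (n 0 z (n 0 z
 z))))))))))))))))))))))))))))))))))))))))))))))))))) z)) (n 0 (n 0 z z) (n 0 z z)))))))))) (n 0
 (n 1 (n 6358075 z (n 3548 z (n 3548 z (n 3612 z (n 3548 z (n 3548 z z)))))) (n 1 (n 2164299 z
 (n 6358075 z (n 2164299 z (n 2164299 z (n 2164299 z (n 2164299 z z)))))) z)) (n 0 z z)))) (n
 0x8c936864996024ba42b194144ec6094620d22988958c824a682363240 (n 0x2c649 (n 153 (n 0 z (n 3282443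
 z (n 0 z (n 2 z z)))) (n 255 (n
 0x8a64ca28077e19db8df8215e58d78659e04a085585fb6270ab5f8dd6de8a179c5ec823aa499a5a762a7a10801 z
 (n 0x1ac401462081d91e91e81e8e479f8638636de8647e18656d689da1f76065e8a39a86a28a38da49a8a66e00081
 z (n
 0xdc65080858e738979848c75867f6d837e9a766f7e805e99809285784ba9849f797e87737b73787fa4797f8187708e5f8f6c7c88850049
 z (n 10 z (n 0 z (n 0 z (n 0 z (n 0 z (n
 0x14c6537f8092638665b192a685698d84a9955c5a915b647f82a574754e7f7d9d5096b77c996e6f86c2845b779d806453686c95778b0049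
 z (n 0 z (n 0 z (n
 0x2ac601c63081c95e95d81e9257608a386465e8667a18a56938dda9e76059e8a4a2a6628e59193da8a86600081 z
 (n 0 z (n
 0xaa64ca28077a81916e8775898871907a6f907aa36f65898769ac7a9c816d529e898b657d807e647f979ab761847c9474803d8b638386890809
 z (n 0 z (n 3278363 z (n 18 z (n 0 z (n
 0x20c6327f809b538a57cd9cbb875b9586bfa148469b45557e83ba6d6f327e7aae35a3d679a7656689e8864671ad7f55395b60a173910049
 z (n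
 0x4ca8ca8607897e78867c857a7c807f7e838092758474796e795587988386858788808183859ca0786e5c8b957b947b8475917b7b8c7d7f0809
 z (n 6358347 z (n
 0x1a46327f80955b885fbe96b086629185b29b535296505e7f82af7172427e7ca5449bc57a9f6a6c88d4855174a4805e4762679b768d0049
 z z)))))))))))))))))))))) (n 11 (n
 0x19c6438080955c885fbd96af86619085b29b535195515e7f82af7272417f7ca5449bc47a9f6a6c87d3865174a47f5d4662679b768e0049
 z (n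
 0x3eca8a862078007f581181e8317ed8007f884281e79a7dc86080485f80f77f8008007e080d80088281e7e17e97c983281f7ea8368107c279480e8218038547b47f680886180d7f47ab7c483c80c7d37e30811
 z (n 26 z (n 3212843 z (n 34 z (n 42 z (n 0 z z))))))) (n 27 (n 50 z (n
 0xeca8c802077c847f7d8782888f7d88a15b866fa883717281426c819194723d927fa7776fb182a8608576af8d79877b7b7854756e8b81870809
 z (n 0 z (n 0 z (n
 0x2ca8ca42037a08607e08a08a08df7dc8df82186085e8218227608208237a182082081f7e081d7e18217e10801 z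
 (n 0 z (n 2164283 z (n 58 z (n 66 z (n 0 z (n 0 z (n 0 z (n
 0x2ca8ca82037a191b85f8217227e17dc91c8a2927ae17a46d39e299179179b8e9bef4a37e252512559d8a50801 z
 (n 0 z (n 0 z (n 0 z z)))))))))))))))) (n 1 (n 2164299 z (n
 0x20c6207f809b538a57cd9cbb875b9586bfa148469b45557e83ba6d6f327e7aae35a3d679a7656689e8864671ad7f55395b60a173910049
 z (n 0 z (n 74 z (n 0 z (n
 0xca6ca64037e085f82089f85f86081f81f8208608207e07e08207e08208208208208208208208217e08200801 z (n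
 0 z (n 0 z z)))))))) (n 0 (n 0 z (n 0 z (n 6624043 z (n 82 z (n 0 z z))))) z)))))) (n 153 (n 0
 (n 511 (n 0 z (n 2 (n 0 z (n 1 z (n 1 z (n 2 (n 0 z (n 0 z (n 0 z (n 0 z (n 0 z (n 0 z z))))))
 (n 1 z (n 2 (n 0 z (n 0 z (n 0 z (n 0 z (n 0 z (n 0 z z)))))) (n 2 (n 0 z (n 0 z (n 0 z (n 0 z
 (n 0 z (n 0 (n 8782363 z z) z)))))) (n 1 z (n 1 z z))))))))) (n 0 z (n 0 z (n 0 z (n 0 z (n 0 z
 (n 0 z (n 0 z (n 0 z (n 0 z (n 0 z (n 0 z (n 0 z z)))))))))))))) (n 511 (n 0 z (n 0 z (n 0 z (n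
 0 z (n 0 z (n 0 z (n 0 z (n 0 z (n 0 z (n 0 z (n 0 z (n 0 z (n 0 z (n 0 z z)))))))))))))) (n
 259 (n 2 (n 0 z (n 0 z (n 1 z (n 2 (n 0 z (n 0 z (n 0 z (n 0 z (n 0 z (n 0 z z)))))) (n 2 (n 0
 z (n 0 z (n 0 z (n 0 z (n 0 z (n 0 z z)))))) (n 2 (n 0 z (n 0 z (n 0 z (n 0 z (n 0 z (n 0 (n
 8782363 z z) z)))))) (n 1 z z))))))) (n 0 z (n 0 z (n 0 z (n 0 z (n 0 z z)))))) (n 259 (n 0 z
 (n 2 (n 0 z (n 1 z (n 2 (n 0 z (n 0 z (n 0 z (n 0 z (n 0 z (n 0 z z)))))) (n 2 (n 0 z (n 0 z (n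
 0 z (n 0 z (n 0 z (n 0 (n 8782363 z z) z)))))) (n 2 (n 0 z (n 0 z (n 0 z (n 0 z (n 0 z (n 0 z
 z)))))) (n 1 z z)))))) (n 0 z (n 0 z (n 0 z (n 0 z z)))))) (n 259 (n 0 z (n 0 z (n 0 z (n 0 z
 (n 0 z (n 0 z z)))))) (n 55 (n 2 (n 0 z (n 0 z (n 2 (n 0 z (n 0 z (n 0 z (n 0 z (n 0 z (n 0 (n
 8782363 z z) z)))))) (n 1 z z)))) (n 0 z (n 0 z (n 0 z (n 0 z (n 0 z (n 0 z z))))))) (n 55 (n 0
 z (n 0 z (n 0 z (n 0 z (n 2 (n 0 z (n 2 (n 0 z (n 0 z (n 0 z (n 0 z (n 0 z (n 0 z z)))))) (n 2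
 (n 0 z (n 0 z (n 0 z (n 0 z (n 0 z (n 0 z z)))))) z))) (n 0 z (n 0 z z))))))) (n 55 (n 0 z (n 0
 z (n 0 z (n 0 z (n 0 z (n 0 z (n 0 z z))))))) (n 3 (n 0 z (n 0 z (n 0 z (n 0 z (n 0 z (n 0 z (n
 0 z (n 0 z (n 0 z (n 0 z (n 0 z z))))))))))) (n 1 (n 0 z (n 0 z (n 0 z (n 0 z (n 0 z z)))))
 z)))))))))) (n 0 (n 0 z (n 443 (n 0 z (n 0 z (n 0 z (n 0 z (n 0 z (n 0 z (n 0 z z))))))) (n 443
 (n 0 z (n 2 (n 0 z (n 1 z (n 1 z (n 1 z (n 1 z (n 1 z z)))))) (n 0 z (n 0 z (n 0 z (n 0 z (n 0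
 z z))))))) (n 443 (n 0 z (n 0 z (n 0 z (n 2 (n 1 z (n 2 (n 0 z (n 0 z (n 0 z (n 0 z (n 0 z (n 0
 z z)))))) (n 2 (n 0 z (n 0 z (n 0 z (n 0 z (n 0 z (n 0 (n 8855811 z z) z)))))) (n 1 z (n 1 z
 z))))) (n 0 z (n 0 z (n 0 z z))))))) (n 487 (n 0 z (n 0 z (n 0 z (n 0 z (n 0 z (n 0 z (n 0 z (n
 0 z (n 0 z (n 0 z (n 0 z (n 0 z (n 0 z (n 0 z (n 0 z (n 0 z (n 0 z (n 0 z (n 0 z (n 0 z (n 0 z
 (n 0 z (n 0 z (n 0 z (n 0 z (n 0 z (n 0 z (n 0 z (n 0 z z))))))))))))))))))))))))))))) (n 487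
 (n 0 z (n 0 z (n 0 z (n 0 z (n 0 z (n 7749923 z (n 0 z (n 0 z (n 0 z (n 0 z (n 0 z (n 0 z (n 0
 z (n 0 z (n 0 z (n 0 z (n 0 z (n 0 z (n 0 z (n 0 z (n 0 z (n 0 z (n 0 z (n 0 z (n 0 z (n 0 z (n
 0 z (n 0 z (n 0 z z))))))))))))))))))))))))))))) (n 487 (n 0 z (n 0 z (n 0 z (n 0 z (n 0 z (n 0
 z (n 0 z (n 0 z (n 0 z (n 0 z (n 2 (n 1 z (n 1 z z)) (n 0 z (n 0 z (n 0 z (n 0 z (n 0 z (n 0 z
 (n 0 z (n 0 z (n 0 z (n 0 z (n 0 z (n 0 z (n 0 z (n 0 z (n 0 z (n 0 z (n 0 z (n 0 z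
 z))))))))))))))))))))))))))))) (n 51 (n 0 z (n 0 z (n 0 z (n 0 z (n 0 z (n 0 z (n 0 z (n 0 z (n
 0 z (n 0 z (n 0 z (n 0 z (n 0 z (n 0 z (n 0 z (n 0 z (n 0 z (n 0 z (n 0 z (n 0 z (n 0 z (n 0 z
 (n 0 z (n 0 z (n 0 z (n 2 (n 1 z z) (n 0 z (n 0 z (n 0 z (n 0 z (n 0 z (n 0 z (n 0 z (n 0 z (n
 0 z (n 0 z (n 0 z (n 0 z (n 0 z (n 0 z (n 0 z z))))))))))))))))))))))))))))))))))))))))) (n 485
 (n 2 z (n 0 z (n 0 z (n 0 z z)))) z))))))))) (n 0 (n 19 (n 0 z (n 2 (n 0 z (n 0 z (n 1 z (n 2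
 (n 0 z (n 0 z (n 0 z (n 0 z (n 0 z (n 0 z z)))))) (n 2 (n 0 z (n 0 z (n 0 z (n 0 z (n 0 z (n 0
 z z)))))) (n 2 (n 0 z (n 0 z (n 0 z (n 0 z (n 0 z (n 0 (n 8790275 z z) z)))))) (n 1 z z)))))))
 (n 0 z (n 0 z (n 0 z (n 0 z (n 0 z (n 0 z (n 0 z (n 0 z (n 0 z (n 0 z (n 0 z (n 0 z (n 0 z (n 0
 z z)))))))))))))))) (n 19 (n 0 z (n 0 z (n 0 z (n 0 z (n 2 (n 0 z (n 1 z (n 2 (n 0 z (n 0 z (n
 0 z (n 0 z (n 0 z (n 0 z z)))))) (n 2 (n 0 z (n 0 z (n 0 z (n 0 z (n 0 z (n 0 (n 8790275 z z)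
 z)))))) (n 2 (n 0 z (n 0 z (n 0 z (n 0 z (n 0 z (n 0 z z)))))) (n 1 z z)))))) (n 0 z (n 0 z (n
 0 z (n 0 z (n 0 z (n 0 z (n 0 z (n 0 z (n 0 z (n 0 z (n 0 z z)))))))))))))))) (n 19 (n 0 z (n 0
 z (n 0 z (n 0 z (n 0 z (n 0 z (n 0 z (n 0 z (n 0 z (n 0 z (n 0 z (n 0 z (n 0 z (n 0 z (n 0 z (n
 0 z z)))))))))))))))) (n 487 (n 0 z (n 2 (n 0 z (n 0 z (n 2 (n 0 z (n 0 z (n 0 z (n 0 z (n 0 z
 (n 0 (n 8790275 z z) z)))))) (n 1 z z)))) (n 0 z (n 0 z (n 0 z (n 0 z (n 0 z (n 0 z (n 0 z (n 0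
 z (n 0 z (n 0 z (n 0 z (n 0 z (n 0 z (n 0 z (n 0 z (n 0 z (n 0 z (n 0 z (n 0 z (n 0 z (n 0 z (n
 0 z (n 0 z (n 0 z (n 0 z (n 0 z (n 0 z (n 0 z (n 0 z (n 0 z (n 0 z (n 0 z (n 0 z
 z))))))))))))))))))))))))))))))))))) (n 487 (n 0 z (n 0 z (n 0 z (n 0 z (n 0 z (n 0 z (n 0 z (n
 0 z (n 0 z (n 0 z (n 0 z (n 0 z (n 0 z (n 0 z (n 0 z (n 0 z (n 0 z (n 0 z (n 0 z (n 0 z (n 0 z
 (n 0 z (n 0 z (n 0 z (n 0 z (n 0 z (n 0 z (n 0 z (n 0 z (n 0 z (n 0 z (n 0 z (n 0 z (n 0 z (n 0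
 z z))))))))))))))))))))))))))))))))))) (n 487 (n 0 z (n 0 z (n 0 z (n 0 z (n 0 z (n 0 z (n 0 z
 (n 0 z (n 0 z (n 0 z (n 0 z (n 0 z (n 0 z (n 0 z (n 0 z (n 0 z (n 0 z (n 0 z (n 0 z (n 0 z (n 0
 z (n 0 z (n 0 z (n 0 z (n 0 z (n 0 z (n 0 z (n 0 z (n 0 z (n 0 z (n 0 z (n 0 z (n 0 z (n 0 z (n
 0 z z))))))))))))))))))))))))))))))))))) (n 3 (n 0 z (n 0 z (n 0 z (n 0 z (n 0 z (n 0 z (n 0 z
 (n 0 z (n 0 z (n 0 z (n 0 z (n 0 z (n 0 z (n 0 z (n 0 z (n 0 z (n 0 z (n 0 z (n 0 z (n 0 z (n 0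
 z (n 0 z (n 0 z (n 0 z (n 0 z (n 0 z (n 0 z (n 0 z (n 0 z (n 0 z (n 0 z (n 0 z (n 0 z (n 0 z (n
 0 z (n 0 z z)))))))))))))))))))))))))))))))))))) (n 1 (n 0 z (n 0 z (n 0 z (n 0 z (n 0 z (n 0 z
 (n 0 z (n 0 z (n 0 z (n 0 z (n 0 z (n 0 z (n 0 z (n 0 z (n 0 z (n 0 z (n 0 z (n 0 z (n 0 z (n 0
 z (n 0 z (n 0 z (n 0 z (n 0 z (n 0 z z))))))))))))))))))))))))) z)))))))) (n 0 (n 0 z (n 0 z (n
 681 (n 0 z (n 0 z (n 0 z (n 0 z (n 0 z (n 0 z (n 0 z (n 0 z (n 0 z (n 0 z (n 0 z (n 0 z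
 z)))))))))))) (n 681 (n 0 z (n 0 z (n 0 z (n 0 z (n 0 z (n 0 z (n 0 z (n 0 z (n 2 (n 0 z (n 2
 (n 0 z (n 0 z (n 0 z (n 0 z (n 0 z (n 0 z z)))))) (n 2 (n 0 z (n 0 z (n 0 z (n 0 z (n 0 z (n 0
 z z)))))) z))) (n 0 z (n 0 z (n 0 z z)))))))))))) (n 681 (n 2 (n 1 z (n 1 z z)) (n 0 z (n 0 z
 (n 0 z (n 0 z (n 0 z (n 0 z (n 0 z (n 0 z (n 0 z (n 0 z (n 0 z z)))))))))))) (n 15 (n 0 z (n 0
 z (n 0 z (n 0 z (n 0 z (n 0 z (n 2 (n 1 z z) (n 0 z (n 0 z (n 0 z z)))))))))) (n 13 (n 0 z (n 0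
 z (n 0 z (n 2 z (n 0 z (n 0 z (n 0 z z))))))) z))))))) (n 0 (n 0 z (n 11 (n 0 z (n 0 z (n 2 (n
 0 z (n 0 z (n 1 z (n 1 z z)))) (n 0 z (n 0 z (n 0 z (n 0 z (n 0 z (n 0 z (n 0 z (n 0 z
 z))))))))))) (n 11 (n 0 z (n 2 (n 0 z (n 2 (n 0 z (n 0 z (n 0 z (n 0 z (n 0 z (n 0 z z)))))) (n
 2 (n 0 z (n 0 z (n 0 z (n 0 z (n 0 z (n 0 z z)))))) z))) (n 0 z (n 0 z (n 0 z (n 0 z (n 0 z (n
 0 z (n 0 z (n 0 z (n 0 z z))))))))))) (n 11 (n 0 z (n 0 z (n 0 z (n 2 (n 1 z (n 1 z z)) (n 0 z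
 (n 0 z (n 0 z (n 0 z (n 0 z (n 0 z (n 0 z z))))))))))) (n 15 (n 0 z (n 0 z (n 0 z (n 0 z (n 0 z
 (n 0 z (n 0 z (n 0 z (n 0 z (n 0 z (n 0 z (n 2 (n 1 z z) (n 0 z z))))))))))))) (n 13 (n 0 z (n
 0 z (n 0 z (n 0 z (n 0 z (n 0 z (n 2 z (n 0 z z)))))))) z)))))) (n 0 (n 55 (n 2 (n 0 z (n 0 z
 (n 2 (n 0 z (n 0 z (n 0 z (n 0 z (n 0 z (n 0 (n 8790275 z z) z)))))) (n 1 z z)))) (n 0 z (n 0 z
 (n 0 z (n 0 z (n 0 z (n 0 z (n 0 z (n 0 z (n 0 z (n 0 z (n 0 z (n 0 z (n 0 z (n 0 z (n 0 z (n 0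
 z z))))))))))))))))) (n 55 (n 0 z (n 0 z (n 0 z (n 0 z (n 0 z (n 0 z (n 0 z (n 0 z (n 0 z (n 0
 z (n 0 z (n 0 z (n 0 z (n 0 z (n 0 z (n 0 z (n 0 z z))))))))))))))))) (n 55 (n 0 z (n 0 z (n 0
 z (n 0 z (n 0 z (n 0 z (n 0 z (n 0 z (n 0 z (n 0 z (n 0 z (n 0 z (n 0 z (n 0 z (n 0 z (n 0 z (n
 0 z z))))))))))))))))) (n 3 (n 0 z (n 0 z (n 0 z (n 0 z (n 0 z (n 0 z (n 0 z (n 0 z (n 0 z (n 0
 z (n 0 z (n 0 z (n 0 z z))))))))))))) (n 1 (n 0 z (n 0 z (n 0 z (n 0 z (n 0 z z))))) z))))) (n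
 0 (n 0 z (n 0 z (n 51 (n 0 z (n 0 z (n 0 z (n 0 z (n 0 z (n 0 z (n 0 z (n 0 z (n 0 z (n 0 z (n
 0 z (n 0 z (n 2 (n 1 z z) (n 0 z (n 0 z (n 0 z (n 0 z (n 0 z z)))))))))))))))))) (n 49 (n 0 z
 (n 0 z (n 0 z (n 0 z (n 2 z (n 0 z (n 0 z (n 0 z z)))))))) z)))) (n 0 (n 0 z (n 57 (n 0 z (n 0
 z (n 0 z (n 0 z (n 0 z (n 2 (n 1 z z) (n 0 z (n 0 z (n 0 z z))))))))) (n 53 (n 0 z (n 0 z (n 0
 z (n 0 z (n 0 z (n 0 z (n 0 z (n 0 z z)))))))) z))) (n 0 (n 111 (n 0 z (n 0 z (n 0 z (n 0 z (n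
 0 z (n 0 z (n 0 z (n 0 z z)))))))) (n 109 (n 0 z (n 0 z (n 0 z (n 0 z (n 0 z (n 0 z (n 0 z (n 0
 z (n 0 z (n 0 z z)))))))))) z)) (n 0 (n 145 (n 0 z (n 0 z (n 0 z (n 0 z (n 0 z (n 0 z (n 0 z (n
 0 z (n 0 z (n 0 z (n 0 z (n 0 z (n 0 z (n 0 z z)))))))))))))) z) (n 0 z z))))))))))) (n 0 (n 0
 z (n 1 (n 3282443 z (n 3282443 z (n 3282443 z (n 3282443 z (n 3282443 z (n 3282443 z z)))))) (n
 0 z (n 1 (n 2 z (n 2044 z (n 2044 z (n 2044 z (n 2044 z (n 2044 z z)))))) z)))) (n 0 (n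
 0x6505138620d2653112653411 (n 0 (n 0 (n 7741699 z (n 7741699 z (n 7741699 z (n 7741699 z (n
 7741699 z (n 7741699 z z)))))) z) (n 0 (n 153 (n 0 z (n 1 (n 7475299 z (n 3282699 z (n 3282699
 z (n 3282699 z (n 3282699 z (n 3282699 z z)))))) (n 0 z (n 1 (n 7475299 z (n 7733787 z (n
 7733787 z (n 7733787 z (n 7733787 z (n 7733787 z z)))))) z)))) (n 279 (n 1 (n 7741699 z (n
 0x4c64e82a0781c95e9db85f8667de89c9db66381fc2095f64b964ad48dc6987a9af35606e75a32a56188e20801 z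
 (n 2044 z (n 6561907 z (n 2044 z (n 2044 z z)))))) (n 1 (n 7741699 z (n 2 z (n 7476747 z (n
 2044 z (n 2044 z (n 2044 z z)))))) (n 1 (n 7741699 z (n 2044 z (n 2044 z (n 2044 z (n 7476747 z
 (n 2044 z z)))))) (n 1 (n 7741699 z (n 2044 z (n 2044 z (n 2044 z (n 2044 z (n 7476747 z
 z)))))) (n 1 (n 7741699 z (n 2044 z (n 2044 z (n 2044 z (n 2044 z (n 7476747 z z)))))) (n 0 z
 (n 0 z (n 1 (n 7741699 z (n 2044 z (n 2044 z (n 2044 z (n 2044 z (n 7476747 z z)))))) (n 1 (n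
 7741699 z (n 2044 z (n 2044 z (n 2044 z (n 2044 z (n 6561907 z z)))))) (n 1 (n 7741699 z (n
 7476747 z (n 2044 z (n 2044 z (n 2044 z (n 2044 z z)))))) (n 1 (n 7741699 z (n 7475299 z (n
 7475299 z (n 7475299 z (n 7475299 z (n 7475299 z z)))))) (n 1 (n 7741699 z (n 7475299 z (n
 7475299 z (n 7475299 z (n 7475299 z (n 7475299 z z)))))) (n 1 (n 7741699 z (n 7475299 z (n
 7475299 z (n 7475299 z (n 7475299 z (n 7475299 z z)))))) (n 1 (n 7741699 z (n 7476747 z (n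
 0x20c7327f809b538a57cd9cbb875b9586bfa148469b45557e83ba6d6f327e7aae35a3d679a7656689e8864671ad7f55395b60a173910049
 z (n 2044 z (n 2044 z (n 2044 z z)))))) z)))))))))))))) (n 0 (n 1 (n 10 z (n 7406923 z (n 1228
 z (n 6620987 z (n 1228 z (n 1228 z z)))))) (n 1 (n 7741699 z (n 7741699 z (n 7741699 z (n
 7741699 z (n 7741699 z (n 7741699 z z)))))) (n 1 (n 7669275 z (n 7669275 z (n 7669275 z (n
 7669275 z (n 7669275 z (n 7669275 z z)))))) (n 1 (n 18 z (n 1228 z (n 1228 z (n 7406923 z (n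
 1228 z (n 1228 z z)))))) (n 0 z z))))) (n 417 (n 1 (n 7741699 z (n 26 z (n 7476747 z (n 7745803
 z (n 1996 z (n 1996 z z)))))) (n 1 (n 7741699 z (n 1996 z (n 1996 z (n 1996 z (n 7476747 z (n
 7745803 z z)))))) (n 1 (n 7741699 z (n 7475299 z (n 7475299 z (n 7475299 z (n 7475299 z (n
 7475299 z z)))))) (n 1 (n 7741699 z (n 7745803 z (n 7476747 z (n 4331323 z (n 4331323 z (n
 4331323 z z)))))) (n 1 (n 7741699 z (n 1996 z (n 7476747 z (n 1996 z (n 7745803 z (n 1996 z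
 z)))))) (n 0 z (n 0 z z))))))) (n 79 (n 1 (n 4108 z (n 7672619 z (n 4108 z (n 4108 z (n 4108 z
 (n 4108 z z)))))) (n 1 (n 2164555 z (n 7672619 z (n 2164555 z (n 2164555 z (n 2164555 z (n
 2164555 z z)))))) (n 1 (n 7745803 z (n 7745803 z (n 7745803 z (n 7745803 z (n 7745803 z (n
 7745803 z z)))))) (n 1 (n
 0x20c7207f809b538a57cd9cbb875b9586bfa148469b45557e83ba6d6f327e7aae35a3d679a7656689e8864671ad7f55395b60a173910049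
 z (n 4108 z (n 4108 z (n 4108 z (n 4108 z (n 7672619 z z)))))) (n 1 (n 4108 z (n 5449499 z (n
 4108 z (n 4108 z (n 4108 z (n 3282763 z z)))))) (n 1 (n 4108 z (n 4108 z (n 4108 z (n 4108 z (n
 7672619 z (n 4108 z z)))))) (n 1 (n 4108 z (n 7672619 z (n 4108 z (n 4108 z (n 4108 z (n
 3278667 z z)))))) (n 0 z z)))))))) (n 633 (n 1 (n 7741699 z (n 7475299 z (n 7475299 z (n
 7475299 z (n 7475299 z (n 7475299 z z)))))) (n 1 (n 7741699 z (n 7669275 z (n 7669275 z (n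
 7669275 z (n 7745803 z (n 7669275 z z)))))) (n 0 z (n 0 z (n 0 z z))))) (n 153 (n 0 z (n 1 (n
 7741699 z (n 3282699 z (n 3282699 z (n 3282699 z (n 3282699 z (n 3282699 z z)))))) (n 0 z (n 1
 (n 7741699 z (n 7733787 z (n 7733787 z (n 7733787 z (n 7733787 z (n 7733787 z z)))))) z))))
 z))))))) (n 0 (n 0 (n 0 z (n 0 z (n 0 z (n 0 z z)))) (n 0 (n 0 z (n 0 z (n 0 z z))) (n 0 (n 0 z
 (n 0 z z)) (n 0 (n 0 z z) z)))) (n 0 (n 279 (n 0 (n 0 z (n 0 z (n 0 z (n 0 z z)))) (n 0 (n 0 z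
 (n 0 z (n 0 z (n 0 z z)))) (n 0 (n 0 z (n 0 z (n 0 z (n 0 z z)))) (n 0 (n 0 (n
 0x1b0ea0c8758208208208208208208617e07a182182081f81f86085f81f82086082281f8608207e17e07e10081 z
 (n 8783675 z z)) (n 0 z (n 0 z (n 0 (n
 0x1b0ea0c8758208208208208208208617e07a182182081f81f86085f81f82086082281f8608207e17e07e10081 z
 (n 8783675 z z)) z)))) (n 0 (n 0 (n
 0x790ea1c8537df9598579238a75a785e9538a7730d1f79d6a27299cda97644a2ceef31f53565e1d77a47e10081 z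
 (n 0x1b0ea0c87581f8208208208208208218207a182182082081f86085f81f82085f7e28208a08208207e17e00081
 z z)) (n 0 (n
 0x748737f8b8471808090966f7d90677b849b7b6b897243878094798342a96799856cb280d3546a6b94987b775e6a9a7d916382907f0049
 z (n
 0x14c8537f8091638766b192a685688d84a8955d5b915b657f82a574754e7f7c9e5096b77b996f7087c3845a779c806453686c95788b0049
 z z)) (n 0 (n
 0x14873807f8579847c82847b8878828378897881847e899b807f817872837f896e7d7676698691a2916489748b76845f7d7c8081820049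
 z (n
 0x4c873807c95788e74897f808a6e808679877a7b7b779c9c81848b738086907f608d696c3d8d979fa3568583ab7a824e8777827e850049
 z z)) (n 0 (n
 0x1048537f808e69856ba78f9e846d8a84a09164628e626a80819e7677587f7d975a92ac7c93727385b583627897806a5c6d709179890049
 z (n
 0x790ea1c8537df9598579238a75a785e9538a7730d1f79d6a27299cda97644a2ceef31f53565e1d77a47e10081 z
 z)) z)))) (n 0 (n 0 z (n 0 z (n 0 z (n 0 z z)))) (n 0 (n 0 (n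
 0x14875807f8579847c82847b8878828378897881847e899b807f817872837f896e7d7676698691a2916489748b76845f7d7c8081820049
 z z) (n 0 z (n 0 z (n 0 z z)))) (n 0 (n 0 (n
 0x1764532801810870864078a08208207e08208208207e086082081f82082085f8208208208208218208208208608208201001
 z (n
 0x2b0ea1c87581c95e95d81e9257608a386465e8667a18a56938dda9e76059e8a4a2a6628e59193da8a86600081 z
 z)) (n 0 (n
 0xa1961950060508708640783639b96a980875bbe848378819470c55c6464733582c19b7b5f7ea3c18980c343be4a544ad48e51997f83646a688c6f6d851009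
 z (n 8783675 z z)) (n 0 z (n 0 (n
 0x14872807f8579847c82847b8878828378897881847e899b807f817872837f896e7d7676698691a2916489748b76845f7d7c8081820049
 z (n 8783675 z z)) z)))) (n 0 (n 0 (n
 0x30ed0c68077df81f8208a08df86086081f85f8218207e17df81f82081f8208208208208617e17e17e17e10801 z
 (n 7750275 z z)) (n 0 (n
 0x4c874807d94778f738a7f828b6d80867a877a7b7b779c9c82858b7381869080608d696c3e8e979fa4568684ab7a824f8777827e840049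
 z (n 8783675 z z)) (n 0 z (n 0 (n
 0xc87282091b8dd8a17646e189b95b8237e6c607e06d78a09947996518ebdaa3e66276a22df79e8610041 z (n
 8783675 z z)) z)))) (n 0 (n 0 z (n 0 z (n 0 z (n 0 z z)))) (n 0 (n 0 z (n 0 z (n 0 z (n 0 z
 z)))) (n 0 (n 0 z (n 0 z (n 0 z (n 0 z z)))) (n 0 (n 0 z (n 0 z (n 0 z (n 0 (n 8523875 z (n
 8523875 z z)) z)))) (n 0 (n 0 z (n 0 z (n 0 z (n 0 (n
 0x2b0e41c87281c95e95d81e9257608a386465e8667a18a56938dda9e76059e8a4a2a6628e59193da8a86600081 z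
 (n 8783675 z z)) z)))) z)))))))))))))) (n 153 (n 0 (n 0 z (n 0 z (n 0 z (n 0 z z)))) (n 0 (n 0
 z (n 0 z (n 0 z (n 0 z z)))) (n 0 (n 0 z (n 0 z (n 0 z (n 0 z z)))) (n 0 (n 0 z (n 0 z (n 0 z
 (n 0 z z)))) (n 0 (n 0 z (n 0 z (n 0 z (n 0 z z)))) (n 0 (n 0 z (n 0 z (n 0 z (n 0 z z))))
 z)))))) (n 33 (n 0 (n 0 z (n 0 z (n 0 z (n 0 z z)))) (n 0 (n 0 z (n 0 z (n 0 z (n 0 z z)))) (n
 0 (n 0 z (n 0 z (n 0 z (n 0 z z)))) (n 0 (n 0 (n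
 0x1b0ea0c8758208208208208208208617e07a182182081f81f86085f81f82086082281f8608207e17e07e10081 z
 (n 8783675 z z)) (n 0 z (n 0 z (n 0 (n
 0x1b0ea0c8758208208208208208208617e07a182182081f81f86085f81f82086082281f8608207e17e07e10081 z
 (n 8783675 z z)) z)))) (n 0 (n 0 z (n 0 z (n 0 z (n 0 z z)))) (n 0 (n 0 (n 8783675 z z) (n 0 z
 (n 0 z (n 0 (n 8783675 z z) z)))) (n 0 (n 0 z (n 0 z (n 0 z (n 0 z z)))) (n 0 (n 0 z (n 0 z (n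
 0 z (n 0 z z)))) (n 0 (n 0 z (n 0 z (n 0 z (n 0 z z)))) (n 0 (n 0 z (n 0 z (n 0 z (n 0 z z))))
 (n 0 (n 0 z (n 0 z (n 0 z (n 0 z z)))) (n 0 (n 0 z (n 0 z (n 0 z (n 0 z z)))) (n 0 (n 0 z (n 0
 z (n 0 z (n 0 z z)))) (n 0 (n 0 z (n 0 (n 8868875 z z) (n 0 z (n 0 (n 8868875 z z) z)))) (n 0
 (n 0 z (n 0 (n 8868875 z (n 8868875 z z)) (n 0 z (n 0 (n 8868875 z (n 8868875 z z)) z)))) (n 0
 (n 0 z (n 0 (n 8523875 z (n 8523875 z z)) (n 0 (n 8851507 z (n 8851507 z z)) (n 0 z z))))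
 z)))))))))))))))) (n 417 (n 0 (n 0 z (n 0 z (n 0 z (n 0 z z)))) (n 0 (n 0 z (n 0 z (n 0 z (n 0
 (n 0xc8758208208208218207e082181f7e182082082082086085f81f8218208218208608208217e28200041 z z)
 z)))) (n 0 (n 0 z (n 0 z (n 0 z (n 0 z z)))) (n 0 (n 0 z (n 0 z (n 0 z (n 0 z z)))) (n 0 (n 0 z
 (n 0 z (n 0 z (n 0 z z)))) (n 0 (n 0 z (n 0 z (n 0 z (n 0 z z)))) (n 0 (n 0 z (n 0 z (n 0 z (n
 0 z z)))) z))))))) (n 249 (n 0 (n 0 z (n 0 z (n 0 z (n 0 z z)))) (n 0 (n 0 z (n 0 z (n 0 z (n 0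
 z z)))) (n 0 (n 0 z (n 0 z (n 0 z (n 0 z z)))) (n 0 (n 0 z (n 0 z (n 0 z (n 0 z z)))) (n 0 (n 0
 z (n 0 z (n 0 z (n 0 z z)))) (n 0 (n 0 (n 8872459 z z) (n 0 z (n 0 z (n 0 z z)))) (n 0 (n 0 (n
 0x14874807f8579847c82847b8878828378897881847e899b807f817872837f896e7d7676698691a2916489748b76845f7d7c8081820049
 z (n
 0x20c8607f809b538a57cd9cbb875b9586bfa148469b45557e83ba6d6f327e7aae35a3d679a7656689e8864671ad7f55395b60a173910049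
 z z)) (n 0 z (n 0 (n
 0x1948608080955c875fbd96af86619085b39b545295505e7e83af7272427f7ba4449bc57a9f6a6b87d3855174a47f5f4762679b768e0049
 z (n
 0xd486080808b6e846f9f8b99837089829a8e69688b686e8081987979607f7e93618fa37d90757584aa82687a92806e6271738e7b870049
 z z)) (n 0 (n
 0xc8748208dc89d8627a46e189d95c8227e5ba07e07198a09577db6d58e9ca84a56666e33df7a18200041 z (n
 0x20c8607f809b538a57cd9cbb875b9586bfa148469b45557e83ba6d6f327e7aae35a3d679a7656689e8864671ad7f55395b60a173910049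
 z z)) z)))) (n 0 (n 0 (n
 0x14872807f8579847c82847b8878828378897881847e899b807f817872837f896e7d7676698691a2916489748b76845f7d7c8081820049
 z (n
 0x1a48207f80955c875fbd96af86629185b29b545296515e7e82ae7172417e7ca4449cc57b9f6a6c86d3855174a4805d4863669b768e0049
 z z)) (n 0 z (n 0 (n
 0x20c8207f809b538a57cd9cbb875b9586bfa148469b45557e83ba6d6f327e7aae35a3d679a7656689e8864671ad7f55395b60a173910049
 z (n
 0x10c82080808d69856ba78e9f846c8b83a09163638e616a7f829e7677587f7d985992ac7c94727385b683627798806a5c6d709179880049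
 z z)) (n 0 (n
 0x14872807f8579847c82847b8878828378897881847e899b807f817872837f896e7d7676698691a2916489748b76845f7d7c8081820049
 z (n
 0x19c8207f80965c885fbd96b086629085b29b545295525d7f82ad7172427e7ba4439cc57a9f6a6c88d3865174a3805e4762679a768e0049
 z z)) z)))) (n 0 (n 0 z (n 0 z (n 0 z (n 0 z z)))) (n 0 (n 0 (n 8872459 z z) (n 0 z (n 0 z (n 0
 z z)))) (n 0 (n 0 (n
 0x748757f8b8471808090966f7d90677b849b7b6b897243878094798342a96799856cb280d3546a6b94987b775e6a9a7d916382907f0049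
 z z) (n 0 z (n 0 z (n 0 z z)))) (n 0 (n 0 z (n 0 z (n 0 z (n 0 z z)))) (n 0 (n 0 z (n 0 z (n 0
 (n
 0x14c8627f8092638665b192a685688d84a9955c5b915a657f82a574754e7f7d9e4f96b77b986f6f87c2845b769d806453686c95788b0049
 z z) (n 0 z z)))) (n 0 (n 0 z (n 0 z (n 0 z (n 0 z z)))) (n 0 (n 0 z (n 0 z (n 0 z (n 0 z z))))
 (n 0 (n 0 z (n 0 z (n 0 z (n 0 z z)))) (n 0 (n 0 (n 8525323 z (n 8525323 z z)) (n 0 z (n 0 (n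
 8525323 z (n 8525323 z z)) (n 0 (n 8525323 z (n 8525323 z z)) z)))) (n 0 (n 0 z (n 0 z (n 0 z
 (n 0 z z)))) (n 0 (n 0 z (n 0 z (n 0 z (n 0 z z)))) (n 0 (n 0 (n 7743579 z (n
 0x748757f8b8471808090966f7d90677b849b7b6b897243878094798342a96799856cb280d3546a6b94987b775e6a9a7d916382907f0049
 z z)) (n 0 z (n 0 (n
 0x14875807f8579847c82847b8878828378897881847e899b807f817872837f896e7d7676698691a2916489748b76845f7d7c8081820049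
 z (n
 0x20c8207f809b538a57cd9cbb875b9586bfa148469b45557e83ba6d6f327e7aae35a3d679a7656689e8864671ad7f55395b60a173910049
 z z)) (n 0 (n 7743579 z (n
 0x20c8207f809b538a57cd9cbb875b9586bfa148469b45557e83ba6d6f327e7aae35a3d679a7656689e8864671ad7f55395b60a173910049
 z z)) z)))) (n 0 (n 0 (n 8525323 z (n 8525323 z z)) (n 0 z (n 0 (n 8525323 z (n 8525323 z z))
 (n 0 (n 8525323 z (n 8525323 z z)) z)))) (n 0 (n 0 z (n 0 z (n 0 z (n 0 z z)))) (n 0 (n 0 z (n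
 0 z (n 0 z (n 0 z z)))) (n 0 (n 0 z (n 0 z (n 0 z (n 0 z z)))) (n 0 (n 0 z (n 0 z (n 0 z (n 0 z
 z)))) (n 0 (n 0 z (n 0 z (n 0 z (n 0 z z)))) (n 0 (n 0 z (n 0 z (n 0 z (n 0 z z)))) (n 0 (n 0 z
 (n 0 z (n 0 z (n 0 z z)))) (n 0 (n 0 z (n 0 z (n 0 z (n 0 z z)))) (n 0 (n 0 z (n 0 z (n 0 z (n
 0 z z)))) (n 0 (n 0 z (n 0 (n 8790275 z z) (n 0 (n 8790275 z z) (n 0 z z)))) (n 0 (n 0 z (n 0
 (n 8523875 z z) (n 0 (n 8523875 z z) (n 0 z z)))) (n 0 (n 0 z (n 0 z (n 0 z (n 0 (n 8864035 z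
 z) z)))) (n 0 (n 0 z (n 0 z (n 0 z (n 0 (n 8523875 z (n 8523875 z z)) z)))) (n 0 (n 0 z (n 0 z
 (n 0 (n 8455499 z (n 8455499 z z)) (n 0 (n 8872459 z (n 8872459 z z)) z))))
 z))))))))))))))))))))))))))))))))))) (n 51 (n 0 (n 0 z (n 0 z (n 0 z (n 0 z z)))) (n 0 (n 0 (n
 0x148758208208608218207a086281f76182182082081f86089e85f7e185f8217e086081f8217e18200041 z z) (n
 0 z (n 0 z (n 0 (n
 0x148758208208608218207a086281f76182182082081f86089e85f7e185f8217e086081f8217e18200041 z z)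
 z)))) (n 0 (n 0 z (n 0 z (n 0 z (n 0 z z)))) (n 0 (n 0 z (n 0 z (n 0 z (n 0 z z)))) (n 0 (n 0 z
 (n 0 z (n 0 z (n 0 z z)))) (n 0 (n 0 z (n 0 z (n 0 z (n 0 z z)))) (n 0 (n 0 z (n 0 z (n 0 z (n
 0 z z)))) (n 0 (n 0 z (n 0 z (n 0 z (n 0 (n 6555707 z z) z)))) (n 0 (n 0 (n
 0x5c870807b997592708c7f828e6980887888787a7b74a3a382868e6f8088947f599063662c919ca5ad4b8784b67982438975827e860049
 z z) (n 0 z (n 0 z (n 0 (n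
 0x4c870807c94788e748a80818b6e81867a87797b7c769c9c82858b7280869080618d696b3d8e979ea4568683ab7a824f8677817e850049
 z z) z)))) (n 0 (n 0 z (n 0 z (n 0 z (n 0 z z)))) (n 0 (n 0 z (n 0 z (n 0 z (n 0 z z)))) (n 0
 (n 0 z (n 0 z (n 0 z (n 0 z z)))) (n 0 (n 0 z (n 0 z (n 0 z (n 0 z z)))) (n 0 (n 0 z (n 0 z (n
 0 z (n 0 z z)))) (n 0 (n 0 z (n 0 z (n 0 z (n 0 z z)))) (n 0 (n 0 z (n 0 z (n 0 z (n 0 (n
 8523875 z z) z)))) (n 0 (n 0 (n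
 0x10a90a82037e082082082086082082081f7e18a08208207e08208208208208208208208208208217e08200801 z
 z) (n 0 z (n 0 z (n 0 z z)))) z))))))))))))))))) (n 513 (n 0 (n 0 z (n 0 z (n 0 z (n 0 z z))))
 (n 0 (n 0 z (n 0 z (n 0 z (n 0 z z)))) (n 0 (n 0 (n 8864035 z z) (n 0 z (n 0 z (n 0 z z)))) (n
 0 (n 0 z (n 0 z (n 0 z (n 0 z z)))) (n 0 (n 0 (n
 0x14872807f8579847c82847b8878828378897881847e899b807f817872837f896e7d7676698691a2916489748b76845f7d7c8081820049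
 z (n
 0x30ed0c6a038208208207e17e181f8608207e18208208208208208608208208208208208208208208608200801 z
 z)) (n 0 z (n 0 z (n 0 z z)))) (n 0 (n 0 (n 8864035 z z) (n 0 z (n 0 z (n 0 z z)))) (n 0 (n 0 z
 (n 0 (n
 0x6ec7082a07807d89798e828e89898392638593939855797d3e5b81a38979309d64a39c62c277d3586a579c9f749161887170737e887a850809
 z z) (n 0 z (n 0 z z)))) (n 0 (n 0 z (n 0 z (n 0 z (n 0 z z)))) (n 0 (n 0 z (n 0 (n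
 0x10a70a64037e085f82089f85f86081f81f8208608207e07e08207e08208208208208208208208217e08200801 z
 z) (n 0 z (n 0 (n
 0x10a70a64037e085f82089f85f86081f81f8208608207e07e08207e08208208208208208208208217e08200801 z
 z) z)))) (n 0 (n 0 z (n 0 (n 8523875 z z) (n 0 (n 8523875 z z) (n 0 z z)))) (n 0 (n 0 z (n 0 (n
 8523875 z z) (n 0 (n 8523875 z z) (n 0 z z)))) z))))))))))) (n 81 (n 0 (n 0 z (n 0 z (n 0 z (n
 0 z z)))) (n 0 (n 0 z (n 0 z (n 0 z (n 0 z z)))) (n 0 (n 0 z (n 0 z (n 0 z (n 0 z z)))) (n 0 (n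
 0 z (n 0 z (n 0 z (n 0 z z)))) (n 0 (n 0 z (n 0 (n
 0x2b0e01c87081c95e95d81e9257608a386465e8667a18a56938dda9e76059e8a4a2a6628e59193da8a86600081 z
 (n 0x30a70a64078a06dd6a27226a396372189892281e6e07607d989c95b79bb249a08df8e29dd8986207a16e60801
 z z)) (n 0 (n 8851507 z (n 8851507 z z)) (n 0 z z)))) (n 0 (n 0 (n
 0x50ed0ec60375f82082081f8607e182181e7e18217e085f81e85f85f85e8218207e281f8a07df7e37e07e10801 z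
 (n 0x2b0ea1c87581c95e95d81e9257608a386465e8667a18a56938dda9e76059e8a4a2a6628e59193da8a86600081
 z z)) (n 0 (n
 0x2c65082a07807f857a827a83827988738685808a6c78877e869d7e857c78837f907d698e7c7f5e848b94926d7f73987b836986767c85830809
 z (n 8783675 z z)) (n 0 z (n 0 (n
 0x14872807f8579847c82847b8878828378897881847e899b807f817872837f896e7d7676698691a2916489748b76845f7d7c8081820049
 z (n 8783675 z z)) z)))) (n 0 (n 0 z (n 0 z (n 0 z (n 0 z z)))) (n 0 (n 0 (n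
 0x14872807f8579847c82847b8878828378897881847e899b807f817872837f896e7d7676698691a2916489748b76845f7d7c8081820049
 z (n
 0x30ed0ca6077a081f82086086082082081f7e186182082081f82086085f8208207e18208618207e18207e00801 z
 z)) (n 0 z (n 0 (n
 0x30cb0c460381f91e95e7e172589d81995f8208e1ae07e5696aa7b1c7197578aabad5267646a12a371c8620801 z
 (n 0x30ed0ca6077a085f7e089f86086082081f82082182082082082082081f8208208218208608208208208200801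
 z z)) (n 0 (n
 0x14872807f8579847c82847b8878828378897881847e899b807f817872837f896e7d7676698691a2916489748b76845f7d7c8081820049
 z (n 8783675 z z)) z)))) (n 0 (n 0 (n
 0x14872807f8579847c82847b8878828378897881847e899b807f817872837f896e7d7676698691a2916489748b76845f7d7c8081820049
 z (n
 0x30ed0ec6037a08608208208607e17e181f7e182082085f81f86085f81f8208208218208608207e17e08200801 z
 z)) (n 0 z (n 0 z (n 0 z z)))) (n 0 (n 0 (n 8872459 z (n 8872459 z z)) (n 0 z (n 0 z (n 0 z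
 z)))) (n 0 (n 0 z (n 0 z (n 0 z (n 0 z z)))) (n 0 (n 0 z (n 0 (n
 0x748607f8b8471808090966f7d90677b849b7b6b897243878094798342a96799856cb280d3546a6b94987b775e6a9a7d916382907f0049
 z z) (n 0 z (n 0 z z)))) (n 0 (n 0 (n
 0x30cb0ca6037c818d73827884846f89887b7d7b956f708d816c9d7c907e76559c869772768781877a7f889d7c81767f787f5b946876878c0809
 z (n
 0x30ed0ca6077a086082081f89f7e186185e7628a08208e081e82085f85d8228607a282086081f7a27df7a10801 z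
 z)) (n 0 (n
 0x2b0e01c87081c95e95d81e9257608a386465e8667a18a56938dda9e76059e8a4a2a6628e59193da8a86600081 z
 (n
 0x30cb0ca6037c818d73827884846f89887b7d7b956f708d816c9d7c907e76559c869772768781877a7f889d7c81767f787f5b946876878c0809
 z z)) (n 0 z (n 0 (n 8659059 z (n 8783675 z z)) z)))) (n 0 (n 0 (n 8659059 z (n
 0x30cb0ca6037a085f81f89f89f8207e081e8208a08207e07df85f86085f8218208218208a081f7e27e08210801 z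
 z)) (n 0 z (n 0 z (n 0 z z)))) (n 0 (n 0 z (n 0 z (n 0 z (n 0 z z)))) (n 0 (n 0 z (n 0 z (n 0
 (n 8851507 z (n 8851507 z z)) (n 0 (n
 0x1a48207f80965c885fbe96af86629185b39a535195515e7e83af7172427e7ba5449bc57a9f6a6c88d4855175a5805d4862669b768f0049
 z (n
 0x20c8207f809b538a57cd9cbb875b9586bfa148469b45557e83ba6d6f327e7aae35a3d679a7656689e8864671ad7f55395b60a173910049
 z z)) z)))) (n 0 (n 0 (n
 0x14872807f8579847c82847b8878828378897881847e899b807f817872837f896e7d7676698691a2916489748b76845f7d7c8081820049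
 z (n
 0x30ed0c6a038208208208208208208208208208208208208608208208208208208208208608208218208200801 z
 z)) (n 0 z (n 0 (n 8851507 z (n 8851507 z z)) (n 0 (n
 0x14872807f8579847c82847b8878828378897881847e899b807f817872837f896e7d7676698691a2916489748b76845f7d7c8081820049
 z (n
 0x3431c30281c3a0ca18140e01082c60a0777867e727b81818e668c8e777d7ba75a70968868ab787876776a988095837385947b8e898f7c749774768777698d718a7f811809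
 z z)) z)))) (n 0 (n 0 (n 8659059 z (n 8783675 z z)) (n 0 z (n 0 z (n 0 z z)))) (n 0 (n 0 z (n 0
 z (n 0 z (n 0 z z)))) (n 0 (n 0 z (n 0 z (n 0 z (n 0 z z)))) (n 0 (n 0 z (n 0 z (n 0 z (n 0 z
 z)))) (n 0 (n 0 (n
 0x14872807f8579847c82847b8878828378897881847e899b807f817872837f896e7d7676698691a2916489748b76845f7d7c8081820049
 z (n
 0x30ed0c6a038208208207e17e181f8608207e18208208208208208608208208208208208208208208608200801 z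
 z)) (n 0 z (n 0 z (n 0 z z)))) (n 0 (n 0 z (n 0 (n 8525323 z z) (n 0 (n 8525323 z z) (n 0 z
 z)))) (n 0 (n 0 z (n 0 z (n 0 z (n 0 (n 8783675 z z) z)))) (n 0 (n 0 z (n 0 (n 8525323 z z) (n
 0 z (n 0 z z)))) (n 0 (n 0 z (n 0 z (n 0 z (n 0 z z)))) (n 0 (n 0 z (n 0 z (n 0 z (n 0 z z))))
 (n 0 (n 0 z (n 0 z (n 0 z (n 0 z z)))) (n 0 (n 0 (n 8525323 z (n 8525323 z z)) (n 0 z (n 0 z (n
 0 z z)))) (n 0 (n 0 (n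
 0x10a70a64037e085f82089f85f86081f81f8208608207e07e08207e08208208208208208208208217e08200801 z
 z) (n 0 z (n 0 z (n 0 z z)))) (n 0 (n 0 z (n 0 z (n 0 z (n 0 z z)))) (n 0 (n 0 z (n 0 (n
 8523875 z z) (n 0 (n 8523875 z z) (n 0 z z)))) (n 0 (n 0 z (n 0 (n 8523875 z z) (n 0 z (n 0 (n
 8523875 z z) z)))) (n 0 (n 0 z (n 0 z (n 0 z (n 0 (n 8864035 z z) z)))) (n 0 (n 0 z (n 0 z (n 0
 z (n 0 (n
 0x2b0e41c87281c95e95d81e9257608a386465e8667a18a56938dda9e76059e8a4a2a6628e59193da8a86600081 z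
 (n 8783675 z z)) z)))) (n 0 (n 0 z (n 0 (n 3278923 z (n 8783675 z z)) (n 0 z (n 0 z z))))
 z)))))))))))))))))))))))))))))))))))) (n 15 (n 0 (n 0 z (n 0 z (n 0 z (n 0 z z)))) (n 0 (n 0 z
 (n 0 z (n 0 z (n 0 z z)))) (n 0 (n 0 z (n 0 z (n 0 z (n 0 z z)))) (n 0 (n 0 z (n 0 z (n 0 z (n
 0 z z)))) (n 0 (n 0 (n 8783675 z z) (n 0 z (n 0 z (n 0 z z)))) (n 0 (n 0 z (n 0 z (n 0 z (n 0 z
 z)))) (n 0 (n 0 z (n 0 z (n 0 z (n 0 z z)))) (n 0 (n 0 z (n 0 z (n 0 z (n 0 z z)))) (n 0 (n 0 z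
 (n 0 z (n 0 z (n 0 z z)))) (n 0 (n 0 z (n 0 z (n 0 z (n 0 z z)))) (n 0 (n 0 z (n 0 z (n 0 z (n
 0 z z)))) (n 0 (n 0 (n
 0x70eb0ca6037c838774877c918f79889765857da4776482803e7e819c8b6f41917a996a79c37eb2547b7bb58d6c7d7c708552826584868a0809
 z (n 8783675 z z)) (n 0 z (n 0 z (n 0 z z)))) (n 0 (n 0 (n
 0x70eb0ca6037c838774877c918f79889765857da4776482803e7e819c8b6f41917a996a79c37eb2547b7bb58d6c7d7c708552826584868a0809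
 z (n 8783675 z z)) (n 0 z (n 0 z (n 0 z z)))) z))))))))))))) (n 79 (n 0 (n 0 z (n 0 z (n 0 z (n
 0 z z)))) (n 0 (n 0 z (n 0 z (n 0 z (n 0 z z)))) (n 0 (n 0 z (n 0 z (n 0 z (n 0 z z)))) (n 0 (n
 0 z (n 0 z (n 0 z (n 0 z z)))) (n 0 (n 0 z (n 0 z (n 0 z (n 0 z z)))) (n 0 (n 0 (n
 0x30ed0eca0782081f8208217e182086081f7a182082079f8618218608208207e182082082085f82085f8200801 z
 z) (n 0 z (n 0 z (n 0 z z)))) (n 0 (n 0 z (n 0 z (n 0 z (n 0 z z)))) (n 0 (n 0 z (n 0 z (n 0 z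
 (n 0 z z)))) z)))))))) (n 633 (n 0 (n 0 z (n 0 z (n 0 z (n 0 z z)))) (n 0 (n 0 z (n 0 z (n 0 z
 (n 0 z z)))) (n 0 (n 0 z (n 0 z (n 0 z (n 0 z z)))) (n 0 (n 0 z (n 0 z (n 0 z (n 0 z z)))) (n 0
 (n 0 z (n 0 (n 8523875 z (n 8523875 z z)) (n 0 (n 8523875 z (n 8523875 z z)) (n 0 z z))))
 z))))) (n 105 (n 0 (n 0 z (n 0 z (n 0 z (n 0 z z)))) (n 0 (n 0 z (n 0 z (n 0 z (n 0 z z)))) (n
 0 (n 0 z (n 0 z (n 0 z (n 0 z z)))) (n 0 (n 0 z (n 0 z (n 0 z (n 0 z z)))) (n 0 (n 0 z (n 0 z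
 (n 0 (n
 0x20c8607f809b538a57cd9cbb875b9586bfa148469b45557e83ba6d6f327e7aae35a3d679a7656689e8864671ad7f55395b60a173910049
 z (n
 0x19c8607f80965c885fbd96af86629185b29a535195515e7e82af7172427e7ba5449cc57a9f6a6b88d3855274a47f5d4763669a758e0049
 z z)) (n 0 (n 8872459 z (n 8872459 z z)) z)))) (n 0 (n 0 (n
 0x2b0e41c87281c95e95d81e9257608a386465e8667a18a56938dda9e76059e8a4a2a6628e59193da8a86600081 z
 (n
 0x20c8607f809b538a57cd9cbb875b9586bfa148469b45557e83ba6d6f327e7aae35a3d679a7656689e8864671ad7f55395b60a173910049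
 z z)) (n 0 z (n 0 (n
 0x3c873807d90798c76887f81897280847b857b7c7d7896968184897580868d80678b6e6f4b8b92989c5e8583a27c81598579817e840049
 z (n
 0x1a48607f80955c8860bd97af86639185b29a545295515e7e82ae7172427f7ca4449cc57a9f6a6c88d3855174a4805e4762679b758e0049
 z z)) (n 0 (n
 0x2b0e41c87281c95e95d81e9257608a386465e8667a18a56938dda9e76059e8a4a2a6628e59193da8a86600081 z
 (n
 0x20c8607f809b538a57cd9cbb875b9586bfa148469b45557e83ba6d6f327e7aae35a3d679a7656689e8864671ad7f55395b60a173910049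
 z z)) z)))) (n 0 (n 0 z (n 0 z (n 0 z (n 0 z z)))) (n 0 (n 0 z (n 0 z (n 0 z (n 0 z z)))) (n 0
 (n 0 z (n 0 z (n 0 z (n 0 z z)))) (n 0 (n 0 z (n 0 z (n 0 z (n 0 z z)))) (n 0 (n 0 z (n 0 z (n
 0 z (n 0 z z)))) (n 0 (n 0 z (n 0 z (n 0 z (n 0 z z)))) (n 0 (n 0 z (n 0 z (n 0 z (n 0 z z))))
 (n 0 (n 0 z (n 0 z (n 0 z (n 0 z z)))) (n 0 (n 0 z (n 0 z (n 0 z (n 0 z z)))) (n 0 (n 0 z (n 0
 z (n 0 z (n 0 z z)))) (n 0 (n 0 z (n 0 z (n 0 z (n 0 z z)))) (n 0 (n 0 z (n 0 z (n 0 z (n 0 z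
 z)))) (n 0 (n 0 z (n 0 z (n 0 z (n 0 z z)))) (n 0 (n 0 z (n 0 z (n 0 z (n 0 z z)))) (n 0 (n 0
 (n
 0x1876863403810e90e860789f81f82082082082082086082082181f8208208208208208208208208208208208208208201001
 z z) (n 0 z (n 0 z (n 0 z z)))) (n 0 (n 0 z (n 0 z (n 0 z (n 0 z z)))) (n 0 (n 0 (n 8659059 z
 (n 8783675 z z)) (n 0 z (n 0 z (n 0 z z)))) (n 0 (n 0 (n 8659059 z (n 8783675 z z)) (n 0 z (n 0
 z (n 0 z z)))) (n 0 (n 0 (n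
 0x10e90c860785f8208207e08217e18217e08207e182085f81f86085f81e86081f82182086082082081f8200801 z
 (n 8783675 z z)) (n 0 z (n 0 z (n 0 z z)))) z))))))))))))))))))))))))) (n 21 (n 0 (n 0 z (n 0 z
 (n 0 z (n 0 z z)))) (n 0 (n 0 z (n 0 z (n 0 z (n 0 z z)))) (n 0 (n 0 z (n 0 z (n 0 z (n 0 z
 z)))) (n 0 (n 0 z (n 0 z (n 0 z (n 0 z z)))) (n 0 (n 0 z (n 0 z (n 0 z (n 0 z z)))) z))))) (n
 103 (n 0 (n 0 z (n 0 z (n 0 z (n 0 z z)))) (n 0 (n 0 (n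
 0x64874807c997592708c80828e6a80887788787a7a74a3a282868e6f8088957f589063672d929ca6ac4c8784b67882438975817e870049
 z z) (n 0 z (n 0 z (n 0 z z)))) (n 0 (n 0 z (n 0 z (n 0 z (n 0 z z)))) (n 0 (n 0 z (n 0 z (n 0
 z (n 0 z z)))) (n 0 (n 0 (n 8868875 z z) (n 0 z (n 0 z (n 0 z z)))) (n 0 (n 0 z (n 0 z (n 0 z
 (n 0 z z)))) (n 0 (n 0 z (n 0 z (n 0 z (n 0 z z)))) (n 0 (n 0 z (n 0 z (n 0 z (n 0 z z)))) (n 0
 (n 0 (n 6559803 z z) (n 0 z (n 0 z (n 0 z z)))) (n 0 (n 0 z (n 0 z (n 0 z (n 0 z z))))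
 z)))))))))) (n 96 (n 0 (n 0 z (n 0 z (n 0 z (n 0 z z)))) (n 0 (n 0 z (n 0 z (n 0 z (n 0 z z))))
 (n 0 (n 0 z (n 0 z (n 0 z (n 0 z z)))) (n 0 (n 0 z (n 0 z (n 0 z (n 0 z z)))) (n 0 (n 0 z (n 0
 z (n 0 z (n 0 z z)))) (n 0 (n 0 z (n 0 z (n 0 z (n 0 z z)))) (n 0 (n 0 z (n 0 z (n 0 z (n 0 z
 z)))) (n 0 (n 0 z (n 0 z (n 0 z (n 0 z z)))) (n 0 (n 0 z (n 0 z (n 0 z (n 0 z z)))) (n 0 (n 0 z
 (n 0 z (n 0 z (n 0 z z)))) (n 0 (n 0 z (n 0 z (n 0 z (n 0 z z)))) (n 0 (n 0 z (n 0 z (n 0 z (n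
 0 z z)))) (n 0 (n 0 (n 8864035 z z) (n 0 z (n 0 z (n 0 z z)))) (n 0 (n 0 z (n 0 z (n 0 z (n 0 z
 z)))) z)))))))))))))) (n 153 (n 0 (n 0 z (n 0 z (n 0 z (n 0 z z)))) (n 0 (n 0 z (n 0 z (n 0 z
 (n 0 z z)))) (n 0 (n 0 (n 8783675 z z) (n 0 z (n 0 z (n 0 (n 8783675 z z) z)))) (n 0 (n 0 z (n
 0 z (n 0 z (n 0 z z)))) z)))) (n 255 (n 0 (n 0 z (n 0 z (n 0 z (n 0 z z)))) (n 0 (n 0 z (n 0 z
 (n 0 z (n 0 z z)))) (n 0 (n 0 z (n 0 z (n 0 z (n 0 z z)))) (n 0 (n 0 z (n 0 z (n 0 z (n 0 z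
 z)))) (n 0 (n 0 z (n 0 z (n 0 (n
 0x148758208208608218207a086281f76182182082081f86089e85f7e185f8217e086081f8217e18200041 z z) (n
 0 z z)))) (n 0 (n 0 (n
 0x14872807f8579847c82847b8878828378897881847e899b807f817872837f896e7d7676698691a2916489748b76845f7d7c8081820049
 z (n 8659059 z z)) (n 0 z (n 0 (n
 0x2b0e01c87081c95e95d81e9257608a386465e8667a18a56938dda9e76059e8a4a2a6628e59193da8a86600081 z
 (n
 0x748547f8b8471808090966f7d90677b849b7b6b897243878094798342a96799856cb280d3546a6b94987b775e6a9a7d916382907f0049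
 z z)) (n 0 (n
 0x14872807f8579847c82847b8878828378897881847e899b807f817872837f896e7d7676698691a2916489748b76845f7d7c8081820049
 z (n 8659059 z z)) z)))) (n 0 (n 0 z (n 0 z (n 0 z (n 0 z z)))) (n 0 (n 0 z (n 0 z (n 0 z (n 0
 z z)))) (n 0 (n 0 z (n 0 z (n 0 z (n 0 z z)))) (n 0 (n 0 z (n 0 z (n 0 z (n 0 z z)))) (n 0 (n 0
 z (n 0 z (n 0 z (n 0 z z)))) (n 0 (n 0 z (n 0 z (n 0 z (n 0 z z)))) (n 0 (n 0 z (n 0 z (n 0 z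
 (n 0 z z)))) (n 0 (n 0 z (n 0 (n
 0x748737f8b8471808090966f7d90677b849b7b6b897243878094798342a96799856cb280d3546a6b94987b775e6a9a7d916382907f0049
 z z) (n 0 z (n 0 z z)))) (n 0 (n 0 z (n 0 z (n 0 z (n 0 z z)))) (n 0 (n 0 z (n 0 z (n 0 z (n 0
 z z)))) (n 0 (n 0 z (n 0 z (n 0 z (n 0 z z)))) (n 0 (n 0 z (n 0 z (n 0 z (n 0 z z)))) (n 0 (n 0
 z (n 0 (n 8868875 z z) (n 0 z (n 0 z z)))) (n 0 (n 0 z (n 0 (n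
 0x3c870807d90798c76888081897180857b857b7c7c7896978184897580858d80678b6d6f4b8b93989d5f8483a27c81598579817e840049
 z z) (n 0 z (n 0 z z)))) (n 0 (n 0 z (n 0 (n 8455499 z (n 8455499 z z)) (n 0 z (n 0 z z)))) (n
 0 (n 0 z (n 0 (n 8868875 z (n 8868875 z z)) (n 0 z (n 0 z z)))) z)))))))))))))))))))))) (n 11
 (n 0 (n 0 z (n 0 z (n 0 z (n 0 z z)))) (n 0 (n 0 z (n 0 z (n 0 z (n 0 z z)))) (n 0 (n 0 z (n 0
 z (n 0 z (n 0 z z)))) (n 0 (n 0 z (n 0 z (n 0 z (n 0 z z)))) (n 0 (n 0 z (n 0 z (n 0 z (n 0 z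
 z)))) (n 0 (n 0 z (n 0 z (n 0 z (n 0 z z)))) (n 0 (n 0 z (n 0 z (n 0 z (n 0 z z)))) z))))))) (n
 27 (n 0 (n 0 z (n 0 z (n 0 z (n 0 z z)))) (n 0 (n 0 z (n 0 z (n 0 z (n 0 z z)))) (n 0 (n 0 z (n
 0 z (n 0 z (n 0 z z)))) (n 0 (n 0 (n
 0x14874807f8579847c82847b8878828378897881847e899b807f817872837f896e7d7676698691a2916489748b76845f7d7c8081820049
 z z) (n 0 z (n 0 z (n 0 (n
 0x14874807f8579847c82847b8878828378897881847e899b807f817872837f896e7d7676698691a2916489748b76845f7d7c8081820049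
 z z) z)))) (n 0 (n 0 z (n 0 z (n 0 (n
 0x20c8747f809b538a57cd9cbb875b9586bfa148469b45557e83ba6d6f327e7aae35a3d679a7656689e8864671ad7f55395b60a173910049
 z z) (n 0 z z)))) (n 0 (n 0 z (n 0 z (n 0 z (n 0 z z)))) (n 0 (n 0 z (n 0 z (n 0 z (n 0 z z))))
 (n 0 (n 0 z (n 0 z (n 0 z (n 0 z z)))) (n 0 (n 0 z (n 0 z (n 0 z (n 0 z z)))) (n 0 (n 0 z (n 0
 z (n 0 (n
 0x170e90e02078079b1719d6b8074708a64807f8da15349907482d380c468813da9a79346a7707755697c76ce756860bd3aba4bc25653938d0809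
 z z) (n 0 z z)))) (n 0 (n 0 z (n 0 z (n 0 (n
 0x3c821807d90798b76888081897181857b857b7c7c7897968184897681858e80668b6d6f4b8b92989d5e8483a37c82588679817e840049
 z (n
 0x4c821807d94778f748a80818b6e808679867a7b7b769c9c81858b7380879080608d696c3d8e979fa4568683ab7a814e8778817e850049
 z z)) (n 0 z z)))) (n 0 (n 0 (n
 0x20c8757f809b538a57cd9cbb875b9586bfa148469b45557e83ba6d6f327e7aae35a3d679a7656689e8864671ad7f55395b60a173910049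
 z (n
 0xb0a90a82037a7389848c8081738e8992807b8d798a71788c7b6b8090926e5e7f8ea37b7c977997736c789d90717b8a7e716473818079840809
 z z)) (n 0 (n
 0x14875807f8579847c82847b8878828378897881847e899b807f817872837f896e7d7676698691a2916489748b76845f7d7c8081820049
 z (n
 0x748757f8b8471808090966f7d90677b849b7b6b897243878094798342a96799856cb280d3546a6b94987b775e6a9a7d916382907f0049
 z z)) (n 0 z (n 0 (n
 0xc8758208208208218207e182281f7e18208207e081f86089f81f7e281f8217e08608208217e18200041 z (n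
 0x748757f8b8471808090966f7d90677b849b7b6b897243878094798342a96799856cb280d3546a6b94987b775e6a9a7d916382907f0049
 z z)) z)))) (n 0 (n 0 z (n 0 z (n 0 z (n 0 z z)))) (n 0 (n 0 z (n 0 z (n 0 z (n 0 z z)))) (n 0
 (n 0 z (n 0 z (n 0 z (n 0 z z)))) (n 0 (n 0 z (n 0 z (n 0 z (n 0 z z)))) z)))))))))))))))) (n 1
 (n 0 (n 0 z (n 0 (n 8783675 z z) (n 0 z (n 0 (n 8864035 z z) z)))) (n 0 (n 0 z (n 0 z (n 0 z (n
 0 z z)))) (n 0 (n 0 z (n 0 z (n 0 z (n 0 z z)))) (n 0 (n 0 z (n 0 z (n 0 z (n 0 z z)))) (n 0 (n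
 0 z (n 0 (n
 0x90a70a640378868675817c8f8d7c7e896d85769a797a7d815ea07a867980608869848579a2768b71848d887c7e6b777b8e757c76858a7e0809
 z z) (n 0 z (n 0 z z)))) (n 0 (n 0 (n
 0x10a70a64037e085f82089f85f86081f81f8208608207e07e08207e08208208208208208208208217e08200801 z
 z) (n 0 z (n 0 z (n 0 z z)))) (n 0 (n 0 z (n 0 (n 8782363 z z) (n 0 z (n 0 z z)))) (n 0 (n 0 (n
 8659059 z (n 8794379 z z)) (n 0 z (n 0 z (n 0 z z)))) z)))))))) (n 0 (n 0 (n 0 z (n 0 z (n 0 z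
 (n 0 z z)))) (n 0 (n 0 z (n 0 z (n 0 z (n 0 z z)))) (n 0 (n 0 z (n 0 z (n 0 z (n 0 z z)))) (n 0
 (n 0 z (n 0 z (n 0 z (n 0 z z)))) (n 0 (n 0 z (n 0 z (n 0 z (n 0 z z)))) z)))))
 z))))))))))))))))))))) z)))) z) z)))) (n
 0xb6b9458c9a1b85da2c6a216b91070b89885b4d82d26e0655b5809b840 (n 0x1370b (n 393 (n 2 z (n
 0xeca8a824077f27f58038028017fd7f68117f68008357ea7fb7eb8047fc81d80781d7fa7ff8067e280e7fb7f58087f17fd7ff7fd80a7fd8107eb8087e77f480a7fb7f97ff80580b8088058067fb7f98020811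
 z (n 0xca8a8240779e82185e7a37df99e81e81e8e491e7e176086085d71f7e27665e461d8217218a492289e8200801
 z (n 10 z (n 0 z (n
 0x5ca42ca08077b575d7d384e8577fb73b7d78a775a93e8177e580e6ce81f86a88b8828b87658527a87968397e57fe7f482e75d7ff77289986d7607958057e08837a38a97cd8008128087df85282c7d97fa0811
 z (n 0 z (n 0 z (n 0 z (n 0 z (n
 0x4ea42ca08037ff80d80d7f47e68007e67d48487bc7d08487ec80f7ab80f80f83980c82e8407e87e67e27ea7d88008007f67c78007988187fd7ca7e98327f97d57f68458357ff7fb7f07f17d68098278030811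
 z (n 0 z (n 0 z (n 3282443 z (n 6488603 z (n 0 z (n 0 z (n 6488603 z z)))))))))))))))))) (n 249
 (n 18 z (n 3278363 z (n 0 z z))) (n 129 (n 26 z (n
 0xca6ca60037db7619206e485c8e57e45e18a18de71d76299f82076182092565f7d97a295b8218609a07e00801 z (n
 0x2ca6ca080385e79f7e182086086285f85f7e07e28207df7e081f7e18228208608208208607e08608208200801 z
 (n 3212843 z (n 0 z z))))) (n 3 (n 34 z (n 0 z (n 0 z (n 6488603 z (n 0 z z))))) (n 1 (n 42 z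
 (n 50 z (n
 0x16ca8a604077db6e896241f7dc8e98253a276886e2a7918a2542ba10792ae13d9624b54c737df6a8a589270801 z
 (n
 0x2eca8a604038157dd7e481d8058197f682680e7d680582b7fd7e47fd7ea7e08117dd7de82d7e88197ed82a84e7e58187ed8217ff83580d7e97f17ff7d87cc7fa80f7d37de7ec8138547e880f7ea80b8030811
 z (n 2164299 z (n
 0x5aca6ca64078257ea81a82482380279481583a7837ab8427ee8817758007ba85e7d083c79a80c82a79b8a38328588007d17e382c77c83f8197d77e77d67d57df7f38507bd7fe8278017fb85e8047f38050811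
 z (n 58 z z))))))) (n 0 (n 66 z (n 2164315 z (n 74 z (n 0 z (n 82 z (n 0 z (n
 0x4321320181c365443120388c84c8420384f7e67a5492b90da56146d2ce5c28a2b35f51b71f89a65782f598aecadd66a6e469c3d78221801
 z z))))))) z)))))) (n 249 (n 0 (n 0 z (n 239 (n 0 z (n 0 z (n 0 z (n 0 z (n 0 z (n 0 z (n 0 z
 (n 0 z (n 0 z (n 0 z (n 0 z (n 0 z (n 0 z (n 0 z (n 0 z (n 0 z (n 0 z (n 0 z (n 0 z (n 0 z (n 0
 z (n 0 z (n 0 z (n 0 z (n 0 z (n 0 z z)))))))))))))))))))))))))) (n 263 (n 0 z (n 0 z (n 0 z (n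
 0 z (n 0 z (n 0 z (n 0 z (n 0 z (n 0 z (n 0 z (n 0 z (n 0 z (n 0 z (n 0 z (n 0 z (n 0 z (n 0 z
 (n 0 z (n 0 z (n 0 z (n 0 z (n 0 z (n 0 z (n 0 z (n 0 z z))))))))))))))))))))))))) (n 45 (n 0 z
 (n 0 z (n 0 z (n 0 z (n 0 z (n 0 z (n 0 z (n 0 z (n 0 z z))))))))) (n 255 (n 0 z (n 0 z (n 0 z
 (n 0 z (n 0 z (n 0 z (n 0 z (n 0 z (n 0 z z))))))))) (n 255 (n 0 z (n 2 (n 0 z (n 2 (n 0 z (n 0
 z (n 0 z (n 0 z (n 0 z (n 0 z z)))))) (n 2 (n 0 z (n 0 z (n 0 z (n 0 z (n 0 z (n 0 z z)))))) (n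
 1 z z)))) (n 0 z (n 0 z (n 0 z (n 0 z (n 0 z (n 0 z (n 0 z z))))))))) (n 255 (n 0 z (n 0 z (n 0
 z (n 0 z (n 0 z (n 0 z (n 0 z (n 2 (n 2 (n 0 z (n 0 z (n 0 z (n 0 z (n 0 z (n 0 (n 8798259 z z)
 z)))))) (n 2 (n 0 z (n 0 z (n 0 z (n 0 z (n 0 z (n 0 z z)))))) (n 1 z z))) (n 0 z z))))))))) (n
 253 (n 0 z (n 0 z (n 0 z (n 0 z (n 0 z (n 0 z (n 0 z (n 0 z (n 0 z (n 0 z (n 0 z (n 0 z (n 0 z
 (n 0 z (n 0 z (n 0 z (n 0 z (n 0 z (n 0 z (n 0 z (n 0 z (n 0 z (n 0 z (n 0 z (n 0 z (n 0 z (n 0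
 z (n 0 z z)))))))))))))))))))))))))))) (n 253 (n 0 z (n 0 z (n 0 z (n 0 z (n 0 z (n 0 z (n 0 z
 (n 0 z (n 0 z (n 0 z (n 0 z (n 0 z (n 0 z (n 0 z (n 0 z (n 0 z (n 0 z (n 0 z (n 0 z (n 0 z (n 0
 z (n 0 z (n 0 z (n 0 z (n 0 z (n 0 z (n 0 z (n 0 z z)))))))))))))))))))))))))))) (n 253 (n 0 z
 (n 0 z (n 0 z (n 0 z (n 0 z (n 0 z (n 0 z (n 0 z (n 0 z (n 0 z (n 0 z (n 0 z (n 0 z (n 0 z (n 0
 z (n 2 z (n 0 z (n 0 z (n 0 z (n 0 z (n 0 z (n 0 z (n 0 z (n 0 z (n 0 z (n 0 z (n 0 z (n 0 z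
 z)))))))))))))))))))))))))))) z)))))))))) (n 0 (n 843 (n 0 z (n 2 (n 1 z (n 1 z (n 1 z (n 1 z
 (n 1 z (n 1 z (n 2 (n 0 z (n 0 z (n 0 z (n 0 z (n 0 z (n 0 (n 8790083 z z) z)))))) (n 1 z
 z)))))))) (n 0 z (n 0 z (n 0 z (n 0 z z)))))) (n 795 (n 0 z (n 0 z (n 0 z (n 2 (n 1 z (n 1 z (n
 1 z (n 1 z (n 1 z (n 2 (n 0 z (n 0 z (n 0 z (n 0 z (n 0 z (n 0 (n 8790083 z z) z)))))) (n 1 z
 z))))))) (n 0 z (n 0 z (n 0 z (n 0 z (n 0 z (n 0 z (n 0 z (n 0 z (n 0 z (n 0 z (n 0 z (n 0 z (n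
 0 z z))))))))))))))))) (n 201 (n 0 z (n 0 z (n 0 z (n 0 z (n 0 z (n 2 (n 2 (n 0 z (n 0 z (n 0 z
 (n 0 z (n 0 z (n 0 z z)))))) (n 1 z (n 1 z (n 2 (n 0 z (n 0 z (n 0 z (n 0 z (n 0 z (n 0 (n
 8860683 z z) z)))))) (n 2 (n 0 z (n 0 z (n 0 z (n 0 z (n 0 z (n 0 z z)))))) (n 1 z z)))))) (n 0
 z (n 0 z (n 0 z (n 0 z (n 0 z (n 0 z (n 0 z z))))))))))))) (n 351 (n 0 z (n 2 (n 0 z (n 0 z (n
 2 (n 0 z (n 0 z (n 0 z (n 0 z (n 0 z (n 0 (n 8863795 z z) z)))))) (n 2 (n 0 z (n 0 z (n 0 z (n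
 0 z (n 0 z (n 0 z z)))))) (n 1 z z))))) (n 0 z (n 0 z (n 0 z (n 0 z (n 0 z z))))))) (n 351 (n 0
 z (n 0 z (n 0 z (n 0 z (n 0 z (n 0 z (n 0 z z))))))) (n 351 (n 0 z (n 0 z (n 0 z (n 0 z (n 0 z
 (n 2 (n 1 z (n 1 z (n 1 z z))) (n 0 z z))))))) (n 785 (n 2 (n 0 z (n 0 z z)) (n 0 z (n 0 z (n 0
 z (n 0 z (n 0 z (n 0 z (n 0 z (n 0 z (n 0 z (n 0 z (n 0 z (n 0 z z))))))))))))) (n 785 (n 0 z
 (n 0 z (n 7741507 z (n 0 z (n 0 z (n 0 z (n 0 z (n 0 z (n 0 z (n 0 z (n 0 z (n 0 z (n 0 z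
 z))))))))))))) (n 785 (n 0 z (n 0 z (n 0 z (n 0 z (n 0 z (n 0 z (n 0 z (n 0 z (n 0 z (n 0 z (n
 0 z (n 0 z (n 0 z z))))))))))))) z))))))))) (n 0 (n 477 (n 0 z (n 0 z (n 0 z (n 0 z (n 0 z (n 0
 z (n 0 z z))))))) (n 55 (n 0 z (n 0 z (n 0 z (n 0 z (n 0 z z))))) (n 495 (n 0 z (n 0 z (n 0 z
 (n 0 z (n 0 z (n 0 z (n 0 z z))))))) (n 495 (n 0 z (n 2 (n 0 z (n 1 z (n 2 (n 0 z (n 0 z (n 0 z
 (n 0 z (n 0 z (n 0 z z)))))) (n 1 z z)))) (n 0 z (n 0 z (n 0 z (n 0 z (n 0 z z))))))) (n 495 (n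
 0 z (n 0 z (n 0 z (n 0 z (n 0 z (n 0 z (n 2 (n 1 z (n 2 (n 0 z (n 0 z (n 0 z (n 0 z (n 0 z (n 0
 z z)))))) (n 1 z z))) z))))))) (n 493 (n 0 z (n 0 z (n 0 z (n 0 z (n 0 z (n 0 z (n 0 z (n 0 z
 (n 0 z z))))))))) (n 493 (n 0 z (n 0 z (n 0 z (n 0 z (n 0 z (n 0 z (n 0 z (n 0 z (n 0 z
 z))))))))) (n 493 (n 0 z (n 0 z (n 0 z (n 0 z (n 2 z (n 0 z (n 0 z (n 0 z (n 0 z z)))))))))
 z)))))))) (n 0 (n 299 (n 0 z (n 0 z (n 0 z (n 0 z z)))) (n 291 (n 0 z (n 0 z (n 0 z (n 0 z (n 0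
 z (n 0 z (n 0 z (n 0 z (n 0 z (n 0 z (n 0 z z))))))))))) (n 291 (n 2 (n 0 z (n 1 z (n 2 (n 0 z
 (n 0 z (n 0 z (n 0 z (n 0 z (n 0 z z)))))) (n 1 z z)))) (n 0 z (n 0 z (n 0 z (n 0 z (n 0 z (n 0
 z (n 0 z (n 0 z (n 0 z (n 0 z z))))))))))) (n 291 (n 0 z (n 0 z (n 0 z (n 0 z (n 0 z (n 0 z (n
 0 z (n 0 z (n 2 (n 1 z (n 2 (n 0 z (n 0 z (n 0 z (n 0 z (n 0 z (n 0 z z)))))) (n 1 z z))) (n 0
 z (n 0 z z))))))))))) (n 289 (n 0 z (n 0 z (n 0 z (n 0 z (n 0 z (n 0 z (n 0 z (n 0 z (n 0 z (n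
 0 z z)))))))))) (n 289 (n 0 z (n 0 z (n 0 z (n 0 z (n 2 (n 0 z z) (n 0 z (n 0 z (n 0 z (n 0 z
 (n 0 z z)))))))))) (n 289 (n 0 z (n 0 z (n 0 z (n 0 z (n 0 z (n 2 z (n 0 z (n 0 z (n 0 z (n 0 z
 z)))))))))) z))))))) (n 0 (n 3 (n 0 z (n 0 z (n 0 z (n 0 z (n 0 z (n 0 z (n 0 z (n 0 z (n 0 z
 (n 0 z z)))))))))) (n 3 (n 0 z (n 2 (n 0 z (n 2 (n 0 z (n 0 z (n 0 z (n 0 z (n 0 z (n 0 z
 z)))))) (n 2 (n 0 z (n 0 z (n 0 z (n 0 z (n 0 z (n 0 z z)))))) (n 1 z z)))) (n 0 z (n 0 z (n 0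
 z (n 0 z (n 0 z (n 0 z (n 0 z (n 0 z z)))))))))) (n 3 (n 0 z (n 0 z (n 0 z (n 0 z (n 0 z (n 0 z
 (n 0 z (n 0 z (n 2 (n 2 (n 0 z (n 0 z (n 0 z (n 0 z (n 0 z (n 0 (n 8795147 z z) z)))))) (n 2 (n
 0 z (n 0 z (n 0 z (n 0 z (n 0 z (n 0 z z)))))) (n 1 z z))) (n 0 z z)))))))))) (n 1 (n 0 z (n 0
 z (n 0 z (n 0 z (n 0 z (n 0 z z)))))) (n 1 (n 0 z (n 0 z (n 2 (n 0 z z) (n 0 z (n 0 z (n 0 z
 z)))))) (n 1 (n 0 z (n 0 z (n 0 z (n 2 z (n 0 z (n 0 z z)))))) z)))))) (n 0 (n 0 z (n 0 z (n 5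
 (n 0 z (n 0 z (n 0 z (n 0 z (n 0 z (n 0 z (n 0 z (n 0 z (n 0 z (n 0 z (n 0 z (n 0 z (n 0 z (n 0
 z (n 0 z (n 0 z (n 0 z (n 0 z (n 0 z (n 0 z (n 0 z (n 0 z (n 0 z (n 0 z (n 0 z (n 0 z (n 0 z (n
 0 z (n 0 z (n 0 z (n 0 z (n 0 z (n 0 z (n 0 z (n 0 z (n 0 z (n 0 z (n 0 z (n 0 z (n 0 z (n 0 z
 (n 0 z (n 0 z (n 0 z (n 0 z (n 0 z z)))))))))))))))))))))))))))))))))))))))))))))) (n 5 (n 0 z
 (n 0 z (n 0 z (n 0 z (n 0 z (n 0 z (n 0 z (n 0 z (n 0 z (n 0 z (n 0 z (n 0 z (n 0 z (n 0 z (n 0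
 z (n 0 z (n 0 z (n 0 z (n 0 z (n 0 z (n 0 z (n 0 z (n 0 z (n 0 z (n 0 z (n 0 z (n 0 z (n 0 z (n
 0 z (n 0 z (n 0 z (n 0 z (n 0 z (n 0 z (n 0 z (n 0 z (n 0 z (n 0 z (n 0 z (n 0 z (n 0 z (n 0 z
 (n 0 z (n 0 z (n 0 z (n 0 z z)))))))))))))))))))))))))))))))))))))))))))))) (n 5 (n 0 z (n 0 z
 (n 0 z (n 0 z (n 0 z (n 0 z (n 0 z (n 0 z (n 0 z (n 0 z (n 0 z (n 0 z (n 0 z (n 0 z (n 0 z (n 0
 z (n 0 z (n 0 z (n 0 z (n 0 z (n 0 z (n 0 z (n 0 z (n 0 z (n 0 z (n 0 z (n 0 z (n 2 z (n 0 z (n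
 0 z (n 0 z (n 0 z (n 0 z (n 0 z (n 0 z (n 0 z (n 0 z (n 0 z (n 0 z (n 0 z (n 0 z (n 0 z (n 0 z
 (n 0 z (n 0 z (n 0 z z)))))))))))))))))))))))))))))))))))))))))))))) z))))) (n 0 (n 0 z (n 1 (n
 2 (n 0 z (n 0 z z)) (n 0 z (n 0 z (n 0 z (n 0 z (n 0 z (n 0 z (n 0 z (n 0 z (n 0 z (n 0 z (n 0
 z (n 0 z (n 0 z (n 0 z z))))))))))))))) (n 1 (n 0 z (n 2 (n 0 z z) (n 0 z (n 0 z (n 0 z (n 0 z
 (n 0 z (n 0 z (n 0 z (n 0 z (n 0 z (n 0 z (n 0 z (n 0 z (n 0 z z))))))))))))))) (n 1 (n 0 z (n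
 0 z (n 0 z (n 0 z (n 0 z (n 0 z (n 0 z (n 0 z (n 0 z (n 0 z (n 0 z (n 0 z (n 0 z (n 0 z (n 0 z
 z))))))))))))))) z)))) (n 0 (n 5 (n 0 z (n 0 z (n 0 z (n 2 (n 0 z (n 0 z z)) (n 0 z (n 0 z (n 0
 z (n 0 z (n 0 z (n 0 z (n 0 z (n 0 z (n 0 z (n 0 z z)))))))))))))) (n 5 (n 0 z (n 0 z (n 0 z (n
 0 z (n 0 z (n 0 z (n 2 (n 0 z z) (n 0 z (n 0 z (n 0 z (n 0 z (n 0 z (n 0 z (n 0 z
 z)))))))))))))) (n 5 (n 0 z (n 0 z (n 0 z (n 0 z (n 0 z (n 0 z (n 0 z (n 0 z (n 0 z (n 2 z (n 0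
 z (n 0 z (n 0 z (n 0 z z)))))))))))))) z))) (n 0 (n 0 z (n 0 z z)) (n 0 (n 0 z z) (n 0 z
 z))))))))))) (n 0 (n 1 (n 2 z (n 4261435 z (n 4395107 z (n 6488603 z (n 3148 z (n 3148 z
 z)))))) (n 1 (n 3278363 z (n 6488603 z (n 3278363 z (n 3278363 z (n 3278363 z (n 3278363 z
 z)))))) (n 0 z z))) (n 0 (n 0x42dae59458d4485ae44adac0 (n 0 (n 0 (n 7749683 z (n 7749683 z (n
 7749683 z (n 7749683 z (n 7749683 z (n 7749683 z z)))))) z) (n 0 (n 22 (n 1 (n 7614563 z (n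
 7614563 z (n 7749683 z (n 7614563 z (n 7614563 z (n 7614563 z z)))))) (n 1 (n 7614563 z (n
 7614563 z (n 7749683 z (n 7614563 z (n 7614563 z (n 7614563 z z)))))) (n 1 (n 7603771 z (n
 6633243 z (n 7749683 z (n 3148 z (n 3148 z (n 3148 z z)))))) (n 1 (n 3148 z (n 7603771 z (n
 7749683 z (n 3148 z (n 3148 z (n 3148 z z)))))) (n 1 (n 7603771 z (n
 0x4aa42ea08077c477e7dd83e8457fc7637df88577a8fe8127ea80c70b8188558708688937848427ba7ab82e7eb7ff7f782577d7ff78f87a8577807ab8057e68697b68877d87ff80f8077e58428227e17fb0811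
 z (n 7749683 z (n 3148 z (n 3148 z (n 3148 z z)))))) (n 0 z (n 1 (n 7603771 z (n 3148 z (n
 7749683 z (n 3148 z (n 3148 z (n 3148 z z)))))) (n 1 (n 3148 z (n 7603771 z (n 7749683 z (n
 3148 z (n 2 z (n 3148 z z)))))) (n 0 z z))))))))) (n 249 (n 1 (n 7749683 z (n 7749683 z (n
 7749683 z (n 7749683 z (n 7749683 z (n 7749683 z z)))))) (n 1 (n 7542283 z (n 3278619 z (n
 7614563 z (n 3278619 z (n 3278619 z (n 3278619 z z)))))) (n 0 z z))) (n 149 (n 0 z (n 1 (n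
 7614563 z (n 7614563 z (n 7749683 z (n 7614563 z (n 7614563 z (n 7614563 z z)))))) (n 1 (n
 7754507 z (n 3213099 z (n 7749683 z (n 4261675 z (n 4261675 z (n 4261675 z z)))))) (n 1 (n 1244
 z (n 7754507 z (n 7749683 z (n 7603771 z (n
 0xea6ea080385f7e08208208208218208607e082081f7df82081f7e082181f8618208218218208208208200801 z (n
 1244 z z)))))) z)))) (n 173 (n 0 z (n 1 (n 7614563 z (n 7614563 z (n 7614563 z (n 7614563 z (n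
 7614563 z (n 7614563 z z)))))) (n 1 (n 4261675 z (n 7537179 z (n 4261675 z (n 4261675 z (n
 4261675 z (n 4261675 z z)))))) (n 1 (n 3260 z (n 3260 z (n 7537179 z (n 3260 z (n 3260 z (n
 3260 z z)))))) z)))) (n 249 (n 0 z (n 1 (n 1660 z (n 1660 z (n 10 z (n 6494043 z (n 7537179 z
 (n 1660 z z)))))) (n 1 (n 28 z (n 1660 z (n 1660 z (n 7537179 z (n 1660 z (n 1660 z z)))))) (n
 1 (n 7542283 z (n 7542283 z (n 7542283 z (n 7542283 z (n 7542283 z (n 7542283 z z)))))) (n 0 z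
 (n 1 (n 7749683 z (n 7749683 z (n 7749683 z (n 7749683 z (n 7749683 z (n 7749683 z z)))))) (n 1
 (n 1660 z (n 1660 z (n 18 z (n 7537179 z (n 1660 z (n 1660 z z)))))) z))))))) (n 5 (n 1 (n
 7614563 z (n 7614563 z (n 7749683 z (n 7614563 z (n 7614563 z (n 7614563 z z)))))) (n 1 (n
 2164571 z (n 7603771 z (n 7749683 z (n 2164571 z (n 7754507 z (n 2164571 z z)))))) (n 1 (n
 7754507 z (n 4392747 z (n 7749683 z (n 1852 z (n 1852 z (n 1852 z z)))))) (n 1 (n 1852 z (n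
 7603771 z (n 7749683 z (n 7754507 z (n 26 z (n 2012 z z)))))) (n 1 (n 1852 z (n 7754507 z (n
 7749683 z (n 7603771 z (n
 0x16ec8ec84037ff7f77f47fd7f77ff7f88038147ee7f881e7f47f87e88018247fd80e8217f88067ce8017f97e87f67f88017f37fb7f68078357df7fb81a8028048048137f08037fe7e67fc8038007f88000811
 z (n 1852 z z)))))) (n 0 z z)))))) (n 249 (n 1 (n 7749683 z (n 7749683 z (n 7749683 z (n
 7749683 z (n 7749683 z (n 7749683 z z)))))) (n 1 (n 3278619 z (n 7537179 z (n 3278619 z (n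
 3278619 z (n 3278619 z (n 3278619 z z)))))) (n 0 z z))) z))))))) (n 0 (n 0 (n 0 z (n 0 z (n 0 z
 (n 0 z z)))) (n 0 (n 0 z (n 0 z (n 0 z z))) (n 0 (n 0 z (n 0 z z)) (n 0 (n 0 z z) z)))) (n 0 (n
 239 (n 0 (n 0 z (n 0 z (n 0 z (n 0 z z)))) (n 0 (n 0 z (n 0 z (n 0 z (n 0 z z)))) (n 0 (n 0 z
 (n 0 z (n 0 z (n 0 z z)))) (n 0 (n 0 z (n 0 z (n 0 z (n 0 z z)))) (n 0 (n 0 z (n 0 z (n 0 z (n
 0 z z)))) (n 0 (n 0 z (n 0 z (n 0 z (n 0 (n 8798259 z (n 8798259 z z)) z)))) (n 0 (n 0 z (n 0 z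
 (n 0 z (n 0 z z)))) (n 0 (n 0 z (n 0 z (n 0 z (n 0 z z)))) (n 0 (n 0 z (n 0 z (n 0 z (n 0 z
 z)))) (n 0 (n 0 (n 8795995 z z) (n 0 z (n 0 (n
 0x30a90a84078a182182279f82082082081f82082082181f8208207e18217e086081f8208608208a07e08200801 z
 z) (n 0 (n 8795995 z z) z)))) (n 0 (n 0 z (n 0 z (n 0 z (n 0 z z)))) (n 0 (n 0 z (n 0 z (n 0 z
 (n 0 z z)))) (n 0 (n 0 z (n 0 z (n 0 z (n 0 z z)))) (n 0 (n 0 z (n 0 z (n 0 z (n 0 z z)))) (n 0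
 (n 0 z (n 0 z (n 0 z (n 0 z z)))) (n 0 (n 0 z (n 0 z (n 0 z (n 0 z z)))) (n 0 (n 0 z (n 0 z (n
 0 z (n 0 z z)))) (n 0 (n 0 z (n 0 z (n 0 z (n 0 z z)))) (n 0 (n 0 z (n 0 z (n 0 z (n 0 z z))))
 (n 0 (n 0 z (n 0 z (n 0 z (n 0 z z)))) (n 0 (n 0 z (n 0 z (n 0 z (n 0 z z)))) (n 0 (n 0 z (n 0
 z (n 0 z (n 0 z z)))) (n 0 (n 0 z (n 0 z (n 0 z (n 0 z z)))) (n 0 (n 0 (n
 0xc87582081f8208218608608207e08608208208208207e08607e18208208608218218208208208200041 z (n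
 8795995 z z)) (n 0 z (n 0 z (n 0 z z)))) (n 0 (n 0 z (n 0 z (n 0 z (n 0 z z)))) (n 0 (n 0 (n
 8855619 z (n 8855619 z z)) (n 0 (n 8663139 z (n 8663139 z z)) (n 0 (n 8663139 z (n 8663139 z
 z)) (n 0 (n 8855619 z (n 8855619 z z)) z)))) z)))))))))))))))))))))))))) (n 155 (n 0 (n 0 z (n
 0 z (n 0 z (n 0 z z)))) (n 0 (n 0 z (n 0 z (n 0 z (n 0 z z)))) (n 0 (n 0 z (n 0 z (n 0 z (n 0 z
 z)))) (n 0 (n 0 z (n 0 z (n 0 z (n 0 z z)))) (n 0 (n 0 z (n 0 z (n 0 z (n 0 z z)))) (n 0 (n 0 z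
 (n 0 z (n 0 z (n 0 z z)))) (n 0 (n 0 (n
 0x8c86480081e80f7e27e080181e7fb80381b7f17e58007ea8258038267de8218088258027cb8177be7e07ee8008077f57f78107e58107fb81482082c7fd8077f981a7ff7e77d67fe7d58028048000051
 z (n 7754115 z z)) (n 0 (n
 0x1c87582481c82091e92279d81e9a195b99c81f66169d7218a27a56a67a38678237a381f75e81f71f0041 z (n
 0xdc86480082f8187d17cf80082f7f780482b7e87d68007dd83a80483b7cb83480d83c8037ad8247987cd7e380080b7ee7f28197d68187f781f8318457f980c7f58297ff7d87bf7fe7bd8038068010051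
 z z)) (n 0 (n
 0x8c87180081e80f7e27e180081e7fa80381c7f17e58007e98258038267de8218098278027cb8177bd7e07ed8008077f57f78107e580f7fa81482082d7fc8077f981a7ff7e77d67fe7d48028048000051
 z (n
 0xdc86480082f8187d17cf80082f7f780482b7e87d68007dd83a80483b7cb83480d83c8037ad8247987cd7e380080b7ee7f28197d68187f781f8318457f980c7f58297ff7d87bf7fe7bd8038068010051
 z z)) (n 0 (n
 0x148768207de8608608a18608207a089f85f7df81f7e07608a07e28208208608617e282089f7e181f0041 z (n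
 0xac8648008258137da7d98008267f98038227ed7de8007e482e80482f7d682980b8308027be81c7ad7d77e98008097f27f58147de8137f88198278387fb80a7f88218007e07cc7fe7cb8038048000051
 z z)) z)))) (n 0 (n 0 z (n 0 z (n 0 (n 8455499 z (n 8455499 z z)) (n 0 (n 8455499 z (n 8455499
 z z)) z)))) (n 0 (n 0 (n 7616603 z (n
 0x1c87582481c82091e92279d81e9a195b99c81f66169d7218a27a56a67a38678237a381f75e81f71f0041 z z)) (n
 0 z (n 0 (n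
 0x30eb0a26078617e08208208208208208208208208208208208208208208208208208208208208208208200801 z
 (n 7616603 z z)) (n 0 (n
 0x1c87682481c82091e92279d81e9a195b99c81f66169d7218a27a56a67a38678237a381f75e81f71f0041 z (n
 0x30ed0ec8078618208207e086181f8607df8608208208208208208608208208208208208208208218208200801 z
 z)) z)))) (n 0 (n 0 (n 8855619 z z) (n 0 z (n 0 z (n 0 (n 8855619 z z) z)))) (n 0 (n 0 z (n 0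
 (n 8663139 z z) (n 0 (n 8663139 z z) (n 0 z z)))) (n 0 (n 0 z (n 0 z (n 0 z (n 0 z z)))) (n 0
 (n 0 z (n 0 z (n 0 z (n 0 z z)))) (n 0 (n 0 z (n 0 z (n 0 z (n 0 z z)))) (n 0 (n 0 z (n 0 z (n
 0 z (n 0 z z)))) (n 0 (n 0 z (n 0 z (n 0 z (n 0 z z)))) (n 0 (n 0 (n 8663139 z (n 8663139 z z))
 (n 0 z (n 0 (n 8663139 z (n 8663139 z z)) (n 0 (n 8663139 z (n 8663139 z z)) z)))) (n 0 (n 0 z
 (n 0 z (n 0 z (n 0 z z)))) (n 0 (n 0 (n 8873019 z (n 8873019 z z)) (n 0 z (n 0 z (n 0 z z))))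
 (n 0 (n 0 z (n 0 z (n 0 z (n 0 (n 8873019 z (n 8873019 z z)) z)))) (n 0 (n 0 z (n 0 (n 8798259
 z z) (n 0 (n 8798259 z z) (n 0 z z)))) (n 0 (n 0 z (n 0 z (n 0 z (n 0 z z)))) (n 0 (n 0 z (n 0
 z (n 0 z (n 0 z z)))) (n 0 (n 0 z (n 0 (n 8798259 z (n 8798259 z z)) (n 0 z (n 0 (n 8798259 z
 (n 8798259 z z)) z)))) (n 0 (n 0 z (n 0 z (n 0 z (n 0 z z)))) z))))))))))))))))))))))))) (n 358
 (n 0 (n 0 z (n 0 z (n 0 z (n 0 z z)))) (n 0 (n 0 (n 8855619 z z) (n 0 z (n 0 z (n 0 z z)))) (n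
 0 (n 0 z (n 0 z (n 0 z (n 0 z z)))) (n 0 (n 0 z (n 0 z (n 0 z (n 0 z z)))) (n 0 (n 0 z (n 0 z
 (n 0 z (n 0 z z)))) (n 0 (n 0 z (n 0 z (n 0 z (n 0 z z)))) (n 0 (n 0 z (n 0 z (n 0 z (n 0 z
 z)))) z))))))) (n 407 (n 0 (n 0 z (n 0 z (n 0 z (n 0 z z)))) (n 0 (n 0 z (n 0 z (n 0 z (n 0 z
 z)))) (n 0 (n 0 z (n 0 z (n 0 z (n 0 z z)))) (n 0 (n 0 z (n 0 z (n 0 z (n 0 z z)))) (n 0 (n 0 z
 (n 0 z (n 0 z (n 0 z z)))) (n 0 (n 0 z (n 0 z (n 0 z (n 0 z z)))) (n 0 (n 0 z (n 0 z (n 0 z (n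
 0 z z)))) (n 0 (n 0 z (n 0 z (n 0 z (n 0 z z)))) (n 0 (n 0 (n 8855619 z z) (n 0 z (n 0 z (n 0
 (n 8855619 z z) z)))) z))))))))) (n 33 (n 0 (n 0 z (n 0 z (n 0 z (n 0 z z)))) (n 0 (n 0 z (n 0
 z (n 0 z (n 0 z z)))) (n 0 (n 0 z (n 0 z (n 0 z (n 0 z z)))) (n 0 (n 0 z (n 0 z (n 0 z (n 0 z
 z)))) (n 0 (n 0 z (n 0 z (n 0 z (n 0 z z)))) z))))) (n 173 (n 0 (n 0 (n
 0x148758207de8608608a18608207a089f85f7df81f7e07608a07e28208208608617e282089f7e181f0041 z z) (n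
 0 z (n 0 z (n 0 z z)))) (n 0 (n 0 z (n 0 z (n 0 z (n 0 z z)))) (n 0 (n 0 (n 8855619 z z) (n 0 z
 (n 0 z (n 0 z z)))) (n 0 (n 0 z (n 0 z (n 0 z (n 0 z z)))) z)))) (n 207 (n 0 (n 0 z (n 0 z (n 0
 z (n 0 z z)))) (n 0 (n 0 z (n 0 z (n 0 z (n 0 z z)))) (n 0 (n 0 z (n 0 z (n 0 z (n 0 z z)))) (n
 0 (n 0 z (n 0 z (n 0 z (n 0 z z)))) (n 0 (n 0 z (n 0 z (n 0 z (n 0 z z)))) (n 0 (n 0 z (n 0 z
 (n 0 z (n 0 z z)))) (n 0 (n 0 z (n 0 z (n 0 z (n 0 z z)))) (n 0 (n 0 z (n 0 z (n 0 z (n 0 z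
 z)))) (n 0 (n 0 z (n 0 z (n 0 z (n 0 z z)))) z))))))))) (n 249 (n 0 (n 0 z (n 0 z (n 0 z (n 0 z
 z)))) (n 0 (n 0 z (n 0 z (n 0 z (n 0 z z)))) (n 0 (n 0 z (n 0 z (n 0 z (n 0 z z)))) (n 0 (n 0 z
 (n 0 z (n 0 z (n 0 z z)))) (n 0 (n 0 z (n 0 z (n 0 z (n 0 z z)))) (n 0 (n 0 z (n 0 z (n 0 z (n
 0 z z)))) (n 0 (n 0 z (n 0 z (n 0 z (n 0 z z)))) z))))))) (n 195 (n 0 (n 0 z (n 0 z (n 0 z (n 0
 z z)))) (n 0 (n 0 z (n 0 z (n 0 z (n 0 z z)))) (n 0 (n 0 z (n 0 z (n 0 z (n 0 z z)))) (n 0 (n 0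
 z (n 0 z (n 0 z (n 0 z z)))) (n 0 (n 0 z (n 0 z (n 0 z (n 0 z z)))) (n 0 (n 0 z (n 0 z (n 0 z
 (n 0 z z)))) (n 0 (n 0 z (n 0 z (n 0 z (n 0 z z)))) (n 0 (n 0 z (n 0 z (n 0 z (n 0 z z)))) (n 0
 (n 0 z (n 0 z (n 0 z (n 0 z z)))) (n 0 (n 0 (n 3213355 z z) (n 0 z (n 0 z (n 0 z z)))) (n 0 (n
 0 z (n 0 z (n 0 z (n 0 z z)))) z))))))))))) (n 3 (n 0 (n 0 z (n 0 z (n 0 z (n 0 z z)))) (n 0 (n
 0 z (n 0 z (n 0 z (n 0 z z)))) (n 0 (n 0 z (n 0 z (n 0 z (n 0 z z)))) (n 0 (n 0 z (n 0 z (n 0 z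
 (n 0 z z)))) (n 0 (n 0 z (n 0 z (n 0 z (n 0 z z)))) (n 0 (n 0 z (n 0 z (n 0 z (n 0 z z)))) (n 0
 (n 0 z (n 0 z (n 0 z (n 0 z z)))) (n 0 (n 0 z (n 0 z (n 0 z (n 0 z z)))) (n 0 (n 0 z (n 0 z (n
 0 z (n 0 z z)))) (n 0 (n 0 z (n 0 z (n 0 z (n 0 z z)))) z)))))))))) (n 231 (n 0 (n 0 z (n 0 z
 (n 0 z (n 0 z z)))) (n 0 (n 0 z (n 0 z (n 0 z (n 0 z z)))) (n 0 (n 0 z (n 0 z (n 0 z (n 0 z
 z)))) (n 0 (n 0 z (n 0 z (n 0 z (n 0 z z)))) (n 0 (n 0 z (n 0 z (n 0 z (n 0 z z)))) (n 0 (n 0 z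
 (n 0 z (n 0 z (n 0 z z)))) (n 0 (n 0 z (n 0 z (n 0 z (n 0 z z)))) (n 0 (n 0 z (n 0 z (n 0 z (n
 0 z z)))) (n 0 (n 0 z (n 0 (n 8798259 z (n 8798259 z z)) (n 0 (n 8798259 z (n 8798259 z z)) (n
 0 z z)))) (n 0 (n 0 (n 8798259 z (n 8798259 z z)) (n 0 z (n 0 z (n 0 (n 8798259 z (n 8798259 z
 z)) z)))) (n 0 (n 0 (n 8798259 z (n 8798259 z z)) (n 0 z (n 0 (n 8798259 z (n 8798259 z z)) (n
 0 (n 8798259 z (n 8798259 z z)) z)))) (n 0 (n 0 z (n 0 z (n 0 (n 8585755 z (n 8585755 z z)) (n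
 0 (n 8585755 z (n 8663667 z z)) z)))) (n 0 (n 0 z (n 0 z (n 0 z (n 0 z z)))) (n 0 (n 0 z (n 0 z
 (n 0 z (n 0 z z)))) (n 0 (n 0 z (n 0 z (n 0 z (n 0 z z)))) (n 0 (n 0 z (n 0 z (n 0 z (n 0 z
 z)))) (n 0 (n 0 z (n 0 z (n 0 z (n 0 z z)))) (n 0 (n 0 z (n 0 (n 8585755 z (n 8585755 z z)) (n
 0 (n 8585755 z (n 8585755 z z)) (n 0 z z)))) (n 0 (n 0 (n 8855619 z (n 8855619 z z)) (n 0 z (n
 0 z (n 0 (n 8855619 z (n 8855619 z z)) z)))) (n 0 (n 0 (n 8798259 z z) (n 0 z (n 0 z (n 0 z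
 z)))) (n 0 (n 0 z (n 0 (n 8798259 z z) (n 0 z (n 0 (n 8798259 z z) z)))) (n 0 (n 0 z (n 0 z (n
 0 (n 0x3c87279a7638a169cb12b286dc3de9ea7e866295f99e51fa1369d8312a04dd9a1962821adeb226a20041 z
 z) (n 0 (n
 0x30e90e860381f7a07e082186082185f8e07e07a18207df7e08207a081f8a081f8208218208208208208200801 z
 z) z)))) (n 0 (n 0 z (n 0 z (n 0 z (n 0 z z)))) (n 0 (n 0 z (n 0 z (n 0 z (n 0 z z)))) (n 0 (n
 0 z (n 0 z (n 0 z (n 0 z z)))) (n 0 (n 0 z (n 0 z (n 0 z (n 0 z z)))) (n 0 (n 0 z (n 0 z (n 0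
 (n
 0xd0c90c84037ff7fc7fc7ff7f58007fd80280a7ff7fc8068007f78017ff80e8008088188078077de7fc7eb7f47fe7fb7fe7fb7ff7fa8048147f97ff8158068018028087fa8027fa7ed7ff7f27fe7fd8000811
 z (n
 0x30ed0e46078608208208208208208208208208208208208208208208208208208208208208208208208200801 z
 z)) (n 0 (n 8873019 z (n 8873019 z z)) z)))) (n 0 (n 0 (n 8663139 z (n 8663139 z z)) (n 0 z (n
 0 (n 8663139 z (n 8663139 z z)) (n 0 (n 8663139 z (n 8663139 z z)) z))))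
 z)))))))))))))))))))))))))))) (n 251 (n 0 (n 0 (n 6424667 z z) (n 0 z (n 0 z (n 0 z z)))) (n 0
 (n 0 z (n 0 z (n 0 z (n 0 z z)))) (n 0 (n 0 z (n 0 z (n 0 z (n 0 z z)))) (n 0 (n 0 z (n 0 z (n
 0 z (n 0 z z)))) (n 0 (n 0 z (n 0 z (n 0 z (n 0 z z)))) (n 0 (n 0 z (n 0 z (n 0 z (n 0 z z))))
 (n 0 (n 0 z (n 0 z (n 0 z (n 0 z z)))) (n 0 (n 0 z (n 0 z (n 0 z (n 0 z z)))) (n 0 (n 0 (n
 0x30e90e860381f7a082082182182185f8a07e07a18207df7e08207a081e8a082081f8217e18208207e08200801 z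
 z) (n 0 z (n 0 z (n 0 z z)))) z))))))))) (n 219 (n 0 (n 0 z (n 0 z (n 0 z (n 0 z z)))) (n 0 (n
 0 z (n 0 z (n 0 z (n 0 z z)))) (n 0 (n 0 z (n 0 z (n 0 z (n 0 z z)))) (n 0 (n 0 z (n 0 z (n 0 z
 (n 0 z z)))) (n 0 (n 0 z (n 0 z (n 0 z (n 0 z z)))) (n 0 (n 0 z (n 0 z (n 0 z (n 0 z z)))) (n 0
 (n 0 (n 3213355 z z) (n 0 z (n 0 z (n 0 z z)))) (n 0 (n 0 z (n 0 z (n 0 z (n 0 z z)))) (n 0 (n
 0 z (n 0 z (n 0 z (n 0 z z)))) (n 0 (n 0 z (n 0 z (n 0 z (n 0 z z)))) z)))))))))) (n 5 (n 0 (n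
 0 z (n 0 z (n 0 z (n 0 z z)))) (n 0 (n 0 z (n 0 z (n 0 z (n 0 z z)))) (n 0 (n 0 z (n 0 z (n 0 z
 (n 0 z z)))) (n 0 (n 0 z (n 0 z (n 0 z (n 0 z z)))) (n 0 (n 0 z (n 0 z (n 0 z (n 0 z z)))) (n 0
 (n 0 z (n 0 z (n 0 z (n 0 z z)))) z)))))) (n 4 (n 0 (n 0 z (n 0 z (n 0 (n
 0xc83082081f82082186086082082085f8608208208207e08a07e18208208208218208208208208200041 z z) (n 0
 (n 0xc83082081f82082186086082082085f8608208208207e08a07e18208208208218208208208208200041 z z)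
 z)))) (n 0 (n 0 (n
 0xc86382081f82082186086082082085f8608208208207e08a07e18208208208218208208208208200041 z z) (n 0
 z (n 0 z (n 0 (n
 0xc86382081f82082186086082082085f8608208208207e08a07e18208208208218208208208208200041 z z)
 z)))) (n 0 (n 0 z (n 0 z (n 0 z (n 0 z z)))) (n 0 (n 0 z (n 0 z (n 0 z (n 0 z z)))) (n 0 (n 0 z
 (n 0 z (n 0 z (n 0 z z)))) (n 0 (n 0 z (n 0 z (n 0 z (n 0 z z)))) (n 0 (n 0 z (n 0 z (n 0 z (n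
 0 z z)))) (n 0 (n 0 z (n 0 z (n 0 z (n 0 z z)))) (n 0 (n 0 z (n 0 z (n 0 z (n 0 z z)))) (n 0 (n
 0 z (n 0 z (n 0 z (n 0 z z)))) (n 0 (n 0 z (n 0 z (n 0 z (n 0 z z)))) (n 0 (n 0 z (n 0 z (n 0 z
 (n 0 z z)))) (n 0 (n 0 (n 8798259 z (n 8798259 z z)) (n 0 z (n 0 (n 8798259 z (n 8798259 z z))
 (n 0 (n 8798259 z (n 8798259 z z)) z)))) (n 0 (n 0 (n 8798259 z (n 8798259 z z)) (n 0 z (n 0 z
 (n 0 (n 8798259 z (n 8798259 z z)) z)))) (n 0 (n 0 z (n 0 z (n 0 z (n 0 z z)))) (n 0 (n 0 z (n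
 0 z (n 0 z (n 0 z z)))) (n 0 (n 0 z (n 0 z (n 0 z (n 0 z z)))) (n 0 (n 0 z (n 0 z (n 0 z (n 0 z
 z)))) (n 0 (n 0 (n
 0xc87682081f8208218608608207e08608208208208207e08607e18208208608218218208208208200041 z z) (n 0
 z (n 0 z (n 0 (n
 0xc87682081f8208218608608207e08608208208208207e08607e18208208608218218208208208200041 z z)
 z)))) (n 0 (n 0 (n 8663139 z (n 8663139 z z)) (n 0 z (n 0 z (n 0 (n 8663139 z (n 8663139 z z))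
 z)))) (n 0 (n 0 z (n 0 z (n 0 (n 8652347 z (n 8652347 z z)) (n 0 (n 8652347 z (n 8652347 z z))
 z)))) (n 0 (n 0 z (n 0 z (n 0 z (n 0 z z)))) (n 0 (n 0 z (n 0 z (n 0 z (n 0 z z)))) (n 0 (n 0
 (n 0x1c86082481c82091e92279d81e9a195b99c81f66169d7218a27a56a67a38678237a381f75e81f71f0041 z z)
 (n 0 z (n 0 z (n 0 z z)))) (n 0 (n 0 z (n 0 z (n 0 z (n 0 z z)))) (n 0 (n 0 z (n 0 z (n 0 z (n
 0 z z)))) (n 0 (n 0 z (n 0 z (n 0 z (n 0 z z)))) (n 0 (n 0 z (n 0 z (n 0 z (n 0 z z)))) (n 0 (n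
 0 z (n 0 z (n 0 z (n 0 z z)))) (n 0 (n 0 z (n 0 (n 8663139 z (n 8663139 z z)) (n 0 (n 8663139 z
 (n 8663139 z z)) (n 0 z z)))) (n 0 (n 0 z (n 0 z (n 0 z (n 0 z z)))) (n 0 (n 0 z (n 0 z (n 0 (n
 0xc87082081f8208218608608207e08608208208208207e08607e18208208608218218208208208200041 z (n
 0x70ed0ec4039e15a47676578961f586965676473b83441659b2a5ad060cba9417b33b1c6f86a81636206620801 z
 z)) (n 0 z z)))) (n 0 (n 0 z (n 0 z (n 0 z (n 0 z z)))) (n 0 (n 0 z (n 0 z (n 0 z (n 0 z z))))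
 (n 0 (n 0 z (n 0 z (n 0 z (n 0 z z)))) (n 0 (n 0 z (n 0 (n 8852267 z (n 8852267 z z)) (n 0 z (n
 0 (n 8852267 z (n 8663667 z z)) z)))) (n 0 (n 0 z (n 0 z (n 0 z (n 0 z z)))) (n 0 (n 0 z (n 0 z
 (n 0 z (n 0 z z)))) (n 0 (n 0 z (n 0 z (n 0 z (n 0 z z)))) (n 0 (n 0 (n 8663139 z (n 8663139 z
 z)) (n 0 z (n 0 z (n 0 (n 8663139 z (n 8663139 z z)) z)))) (n 0 (n 0 z (n 0 z (n 0 z (n 0 z
 z)))) (n 0 (n 0 z (n 0 z (n 0 z (n 0 z z)))) (n 0 (n 0 z (n 0 z (n 0 z (n 0 z z)))) (n 0 (n 0 z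
 (n 0 z (n 0 z (n 0 z z)))) (n 0 (n 0 (n 8652347 z (n 8652347 z z)) (n 0 z (n 0 z (n 0 (n
 8652347 z (n 8652347 z z)) z)))) (n 0 (n 0 z (n 0 z (n 0 (n 8652347 z (n 8652347 z z)) (n 0 (n
 8652347 z (n 8652347 z z)) z)))) z)))))))))))))))))))))))))))))))))))))))))))))) (n 393 (n 0 (n
 0 z (n 0 z (n 0 z (n 0 z z)))) (n 0 (n 0 z (n 0 z (n 0 z (n 0 z z)))) (n 0 (n 0 z (n 0 z (n 0 z
 (n 0 z z)))) (n 0 (n 0 z (n 0 z (n 0 z (n 0 z z)))) (n 0 (n 0 z (n 0 z (n 0 z (n 0 z z)))) (n 0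
 (n 0 z (n 0 z (n 0 z (n 0 z z)))) (n 0 (n 0 z (n 0 z (n 0 z (n 0 z z)))) (n 0 (n 0 z (n 0 z (n
 0 z (n 0 z z)))) (n 0 (n 0 z (n 0 z (n 0 z (n 0 z z)))) (n 0 (n 0 z (n 0 z (n 0 z (n 0 z z))))
 (n 0 (n 0 z (n 0 z (n 0 z (n 0 z z)))) (n 0 (n 0 z (n 0 z (n 0 z (n 0 z z)))) (n 0 (n 0 z (n 0
 z (n 0 z (n 0 z z)))) (n 0 (n 0 z (n 0 z (n 0 z (n 0 z z)))) (n 0 (n 0 (n 8585755 z (n 8663667
 z z)) (n 0 z (n 0 z (n 0 z z)))) (n 0 (n 0 z (n 0 z (n 0 z (n 0 z z)))) (n 0 (n 0 z (n 0 z (n 0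
 (n 0x70a90a84038258d765c9638ed65a89cbe78959e791e2e630e7e075f8227ad6638667238e78145206df7230801
 z z) (n 0 z z)))) (n 0 (n 0 z (n 0 (n 8798259 z (n 8798259 z z)) (n 0 z (n 0 z z))))
 z)))))))))))))))))) (n 249 (n 0 (n 0 z (n 0 z (n 0 z (n 0 z z)))) (n 0 (n 0 z (n 0 z (n 0 z (n
 0 z z)))) (n 0 (n 0 z (n 0 z (n 0 z (n 0 z z)))) z))) (n 129 (n 0 (n 0 z (n 0 z (n 0 z (n 0 z
 z)))) (n 0 (n 0 z (n 0 z (n 0 z (n 0 z z)))) (n 0 (n 0 z (n 0 z (n 0 z (n 0 z z)))) (n 0 (n 0 z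
 (n 0 (n 3213355 z z) (n 0 z (n 0 (n 8855619 z z) z)))) (n 0 (n 0 z (n 0 z (n 0 z (n 0 z z))))
 z))))) (n 3 (n 0 (n 0 z (n 0 z (n 0 z (n 0 z z)))) (n 0 (n 0 z (n 0 z (n 0 z (n 0 z z)))) (n 0
 (n 0 z (n 0 z (n 0 z (n 0 z z)))) (n 0 (n 0 z (n 0 z (n 0 z (n 0 z z)))) (n 0 (n 0 z (n 0 z (n
 0 z (n 0 z z)))) z))))) (n 1 (n 0 (n 0 z (n 0 z (n 0 z (n 0 z z)))) (n 0 (n 0 z (n 0 z (n 0 z
 (n 0 z z)))) (n 0 (n 0 z (n 0 z (n 0 z (n 0 z z)))) (n 0 (n 0 z (n 0 z (n 0 z (n 0 z z)))) (n 0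
 (n 0 z (n 0 z (n 0 z (n 0 z z)))) (n 0 (n 0 z (n 0 z (n 0 z (n 0 z z)))) (n 0 (n 0 z (n 0 z (n
 0 z (n 0 z z)))) z))))))) (n 0 (n 0 (n 0 z (n 0 z (n 0 z (n 0 z z)))) (n 0 (n 0 z (n 0 z (n 0 z
 (n 0 z z)))) (n 0 (n 0 z (n 0 z (n 0 z (n 0 z z)))) (n 0 (n 0 z (n 0 z (n 0 (n
 0xc87082081f8208218608608207e08608208208208207e08607e18208208608218218208208208200041 z (n
 0x10e30e06078608208217e082081f82081f82082082081f8208218208208208208208208207e08218208200801 z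
 z)) (n 0 z z)))) (n 0 (n 0 z (n 0 z (n 0 z (n 0 z z)))) (n 0 (n 0 z (n 0 z (n 0 z (n 0 z z))))
 (n 0 (n 0 z (n 0 z (n 0 z (n 0 z z)))) z))))))) z))))))))))))))))))))) z)))) z) z)))) z))))),
 by decide +kernel⟩
theorem i10266 : ∃ t, chkR KT RW t 10266 10276 = true := ⟨(n
 0x34d9ac5a8c60aaa209b3130d96d1c314d304b2504592a809a6c0 (n 0 (n 455 (n 3282443 z (n 2 z (n 0 z
 (n 10 z z)))) (n 451 (n 18 z (n
 0x6ca2a408037e17209207607e091991d85e89f95f86476571e8a381d92179c7a28a47608a08627a072091e0801 z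
 (n 26 z (n 3278363 z (n 0 z (n
 0x6ca2a6080779f7e086082081f85f89f7e086186182181f82079f8217e186182182086181f8218608207e00801 z
 (n 34 z z))))))) (n 450 (n 0 z (n 0 z (n 0 z (n 0 z (n 3212843 z (n 0 z (n 0 z z))))))) (n 3 (n
 6636307 z (n 42 z (n 0 z (n 0 z (n 0 z (n 0 z z)))))) (n 1 (n 0 z (n 50 z (n 0 z (n 58 z (n 0 z
 (n 0 z (n 0 z (n 66 z (n 0 z (n 6636307 z (n 6636307 z z))))))))))) (n 0 (n 0 z (n 74 z (n 0 z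
 (n 6636307 z z)))) z)))))) (n 455 (n 0 (n 0 z (n 875 (n 0 z (n 0 z (n 0 z (n 0 z (n 2 (n 0 z (n
 0 z (n 1 z (n 1 z (n 2 (n 0 z (n 0 z (n 0 z (n 0 (n 3278971 z z) (n 0 z (n 0 z z)))))) (n 2 (n
 0 z (n 0 z (n 0 z (n 0 z (n 0 z (n 0 z z)))))) (n 1 z z))))))) (n 0 z (n 0 z (n 0 z (n 0 z (n 0
 z (n 0 z (n 0 z (n 0 z (n 0 z z)))))))))))))) (n 875 (n 0 z (n 0 z (n 0 z (n 0 z (n 0 z (n 0 z
 (n 0 z (n 0 z (n 0 z (n 0 z (n 0 z (n 0 z (n 0 z (n 0 z z)))))))))))))) (n 875 (n 0 z (n 0 z (n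
 0 z (n 0 z (n 0 z (n 0 z (n 0 z (n 0 z (n 0 z (n 0 z (n 0 z (n 0 z (n 0 z (n 0 z
 z)))))))))))))) (n 233 (n 0 z (n 0 z (n 0 z (n 0 z z)))) (n 137 (n 0 z (n 0 z (n 0 z (n 0 z (n
 0 z (n 0 z (n 0 z (n 0 z (n 0 z (n 0 z (n 0 z (n 0 z (n 0 z (n 0 z (n 0 z z))))))))))))))) (n
 137 (n 0 z (n 0 z (n 0 z (n 0 z (n 0 z (n 0 z (n 0 z (n 0 z (n 0 z (n 0 z (n 0 z (n 0 z (n 2 (n
 0 z (n 1 z z)) (n 0 z (n 0 z z))))))))))))))) (n 137 (n 0 z (n 0 z (n 0 z (n 0 z (n 0 z (n 0 z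
 (n 0 z (n 0 z (n 2 (n 1 z z) (n 0 z (n 0 z (n 0 z (n 0 z (n 0 z (n 0 z z))))))))))))))) (n 869
 (n 0 z (n 0 z (n 0 z (n 0 z (n 0 z z))))) z))))))))) (n 0 (n 175 (n 0 z (n 0 z (n 0 z (n 0 z (n
 0 z (n 0 z (n 0 z (n 0 z (n 0 z (n 0 z (n 0 z (n 0 z (n 0 z (n 0 z (n 0 z (n 0 z (n 0 z (n 0 z
 (n 0 z z))))))))))))))))))) (n 175 (n 0 z (n 0 z (n 2 (n 0 z (n 2 (n 0 z (n 0 z (n 0 z (n 0 (n
 8864035 z z) (n 0 z (n 0 z z)))))) (n 2 (n 0 z (n 0 z (n 0 z (n 0 z (n 0 z (n 0 z z)))))) (n 2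
 (n 0 z (n 0 z (n 0 z (n 0 z (n 0 z (n 0 z z)))))) (n 2 (n 0 z (n 0 z (n 0 z (n 0 z (n 0 z (n 0
 z z)))))) (n 2 (n 0 z (n 0 z (n 0 z (n 0 (n 8864035 z z) (n 0 z (n 0 z z)))))) z)))))) (n 0 z
 (n 0 z (n 0 z (n 0 z (n 0 z (n 0 z (n 0 z (n 0 z (n 0 z (n 0 z (n 0 z (n 0 z (n 0 z (n 0 z (n 0
 z (n 0 z z))))))))))))))))))) (n 175 (n 0 z (n 0 z (n 0 z (n 0 z (n 0 z (n 0 z (n 0 z (n 0 z (n
 2 (n 2 (n 0 z (n 0 z (n 0 z (n 0 z (n 0 z (n 0 z z)))))) (n 2 (n 0 z (n 0 z (n 0 z (n 0 z (n 0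
 z (n 0 z z)))))) (n 2 (n 0 z (n 0 z (n 0 z (n 0 z (n 0 z (n 0 z z)))))) (n 2 (n 0 z (n 0 z (n 0
 z (n 0 z (n 0 z (n 0 z z)))))) (n 2 (n 0 z (n 0 z (n 0 z (n 0 z (n 0 z (n 0 z z)))))) z))))) (n
 0 z (n 0 z (n 0 z (n 0 z (n 0 z (n 0 z (n 0 z (n 0 z (n 0 z (n 0 z z))))))))))))))))))) (n 165
 (n 0 z (n 0 z (n 2 (n 2 (n 0 z (n 0 z (n 0 z (n 0 (n 8864035 z z) (n 0 z (n 0 z z)))))) (n 2 (n
 0 z (n 0 z (n 0 z (n 0 z (n 0 z (n 0 z z)))))) (n 2 (n 0 z (n 0 z (n 0 z (n 0 z (n 0 z (n 0 z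
 z)))))) (n 1 z z)))) (n 0 z (n 0 z (n 0 z (n 0 z z))))))) (n 761 (n 0 z (n 0 z (n 0 z (n 2 (n 0
 z (n 0 z (n 2 (n 0 z (n 0 z (n 0 z (n 0 (n 8864035 z z) (n 0 z (n 0 z z)))))) z))) (n 0 z (n 0
 z (n 0 z z))))))) (n 761 (n 0 z (n 0 z (n 0 z (n 0 z (n 0 z (n 0 z (n 0 z z))))))) (n 761 (n 0
 z (n 0 z (n 0 z (n 0 z (n 0 z (n 0 z (n 0 z z))))))) (n 173 (n 2 z (n 0 z (n 0 z z))) z))))))))
 (n 0 (n 0 z (n 0 z (n 399 (n 0 z (n 0 z (n 0 z (n 0 z (n 0 z (n 0 z (n 2 (n 1 z (n 2 (n 0 z (n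
 0 z (n 0 z (n 0 z (n 0 z (n 0 z z)))))) (n 2 (n 0 z (n 0 z (n 0 z (n 0 z (n 0 z (n 0 z z))))))
 (n 1 z z)))) (n 0 z (n 0 z (n 0 z (n 0 z (n 0 z (n 0 z (n 0 z z)))))))))))))) (n 805 (n 0 z (n
 2 (n 0 z (n 0 z (n 1 z z))) (n 0 z (n 0 z (n 0 z (n 0 z (n 0 z z))))))) (n 805 (n 0 z (n 0 z (n
 0 z (n 0 z (n 0 z (n 0 z (n 0 z z))))))) (n 805 (n 0 z (n 0 z (n 0 z (n 0 z (n 2 (n 2 (n 0 z (n
 0 z (n 0 z (n 0 z (n 0 z (n 0 z z)))))) z) (n 0 z (n 0 z z))))))) (n 413 (n 0 z (n 2 z (n 0 z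
 (n 0 z (n 0 z (n 0 z (n 0 z (n 0 z (n 0 z (n 0 z (n 0 z (n 0 z (n 0 z (n 0 z (n 0 z (n 0 z (n 0
 z (n 0 z (n 0 z (n 0 z (n 0 z (n 0 z (n 0 z (n 0 z (n 0 z (n 0 z (n 0 z (n 0 z (n 0 z (n 0 z (n
 0 z (n 0 z (n 0 z z))))))))))))))))))))))))))))))))) z))))))) (n 0 (n 0 z (n 11 (n 0 z (n 0 z
 (n 0 z (n 0 z (n 0 z (n 0 z (n 0 z (n 0 z (n 0 z z))))))))) (n 3 (n 0 z (n 0 z (n 0 z (n 0 z (n
 0 z (n 0 z (n 0 z z))))))) (n 3 (n 0 z (n 2 (n 0 z (n 2 (n 0 z (n 0 z (n 0 z (n 0 (n 8798499 z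
 z) (n 0 z (n 0 z z)))))) z)) (n 0 z (n 0 z (n 0 z (n 0 z (n 0 z z))))))) (n 3 (n 0 z (n 0 z (n
 0 z (n 2 (n 2 (n 0 z (n 0 z (n 0 z (n 0 z (n 0 z (n 0 z z)))))) z) (n 0 z (n 0 z (n 0 z
 z))))))) (n 1 (n 0 z (n 0 z (n 0 z (n 0 z (n 0 z (n 0 z (n 0 z (n 0 z (n 0 z (n 0 z (n 0 z (n 0
 z (n 0 z (n 0 z (n 0 z (n 0 z (n 0 z (n 0 z (n 0 z (n 0 z (n 0 z (n 0 z (n 0 z
 z))))))))))))))))))))))) z)))))) (n 0 (n 425 (n 0 z (n 0 z (n 0 z (n 0 z (n 0 z (n 0 z (n 0 z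
 (n 0 z (n 0 z (n 0 z (n 0 z (n 0 z (n 0 z (n 0 z z)))))))))))))) (n 805 (n 0 z (n 0 z (n 0 z (n
 2 (n 0 z (n 0 z (n 2 (n 0 z (n 0 z (n 0 z (n 0 z (n 0 z (n 0 z z)))))) z))) (n 0 z (n 0 z (n 0
 z (n 0 z (n 0 z (n 0 z (n 0 z z))))))))))) (n 805 (n 0 z (n 2 (n 0 z (n 2 (n 0 z (n 0 z (n 0 z
 (n 0 z (n 0 z (n 0 z z)))))) z)) (n 0 z (n 0 z (n 0 z (n 0 z (n 0 z (n 0 z (n 0 z (n 0 z (n 0 z
 z))))))))))) (n 805 (n 0 z (n 0 z (n 0 z (n 0 z (n 0 z (n 0 z (n 0 z (n 0 z (n 0 z (n 2 (n 2 (n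
 0 z (n 0 z (n 0 z (n 0 z (n 0 z (n 0 z z)))))) z) (n 0 z z))))))))))) (n 877 (n 0 z (n 0 z (n 2
 z (n 0 z (n 0 z (n 0 z (n 0 z z))))))) z))))) (n 0 (n 99 (n 0 z (n 0 z (n 0 z (n 0 z (n 0 z (n
 0 z (n 0 z (n 0 z (n 0 z (n 0 z (n 0 z (n 0 z z)))))))))))) (n 99 (n 0 z (n 0 z (n 2 (n 0 z (n
 1 z z)) (n 0 z (n 0 z (n 0 z (n 0 z (n 0 z (n 0 z (n 0 z (n 0 z (n 0 z z)))))))))))) (n 99 (n 0
 z (n 0 z (n 0 z (n 2 (n 1 z z) (n 0 z (n 0 z (n 0 z (n 0 z (n 0 z (n 0 z (n 0 z (n 0 z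
 z)))))))))))) (n 97 (n 0 z (n 0 z (n 0 z (n 0 z (n 0 z (n 0 z z)))))) z)))) (n 0 (n 0 z (n 0 z
 (n 145 (n 0 z (n 0 z (n 0 z (n 0 z (n 0 z (n 0 z (n 0 z (n 0 z (n 0 z (n 0 z z)))))))))) z)))
 (n 0 (n 0 z (n 5 (n 2 z (n 0 z (n 0 z (n 0 z (n 0 z (n 0 z z)))))) z)) (n 0 (n 25 (n 0 z (n 0 z
 (n 0 z (n 2 z (n 0 z (n 0 z z)))))) z) (n 0 z z)))))))))) (n 0 (n 1 (n 3282443 z (n 3282443 z
 (n 3282443 z (n 3282443 z (n 3282443 z (n 3282443 z z)))))) (n 1 (n 3604 z (n 4261419 z (n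
 4329571 z (n 3612 z (n 3612 z (n 3612 z z)))))) (n 0 z (n 1 (n 3612 z (n 3604 z (n 3612 z (n
 3612 z (n 3612 z (n 3612 z z)))))) z)))) (n 0 z z)))) (n
 0x5649b41b1c619263a092e521c4eb04aac88d566866a2c22eb209 (n 0 (n 189 (n 3282443 z (n 0 z z)) (n
 33 (n 0 z (n 3278363 z (n 2 z (n 10 z (n 18 z (n 0 z z)))))) (n 131 (n 0 z (n 26 z (n 0 z (n
 6631955 z (n 34 z (n 42 z z)))))) (n 27 (n 0 z (n 0 z (n 6631955 z (n 50 z (n 0 z (n 0 z (n 0 z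
 (n 0 z z)))))))) (n 1 (n 0 z (n 0 z (n 0 z (n 58 z (n 0 z (n 0 z (n
 0x46c422262081b8e17e28207e38607e17a07e07e17e089f79f7e285f7e079f8218a27e189f89e7e289f8e10081 z
 (n 66 z (n 0 z (n 0 z (n 0 z (n 0 z (n 0 z (n 0 z (n 0 z (n 0 z (n 6558507 z (n 0 z
 z)))))))))))))))))) (n 0 (n 0 z (n
 0x56c422a62081b9217a27e07e48607a07607e17e17e089e79f82385e7a279f8208e27e189f8dd7e289e8e10081 z
 (n 0 z (n 74 z (n 0 z (n 6631955 z (n 0 z (n 0 z z)))))))) z)))))) (n 189 (n 0 (n 0 z (n 0 z (n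
 19 (n 0 z (n 0 z (n 0 z (n 2 (n 0 z (n 0 z (n 2 (n 0 z (n 0 z (n 0 z (n 0 z (n 0 z (n 0 (n
 8790275 z z) z)))))) (n 1 z (n 2 (n 0 z (n 0 z (n 0 z (n 0 z (n 0 z (n 0 z z)))))) (n 2 (n 0 z
 (n 0 z (n 0 z (n 0 z (n 0 z (n 0 (n 8790275 z z) z)))))) z)))))) (n 0 z z))))) (n 19 (n 0 z (n
 0 z (n 0 z (n 0 z (n 0 z z))))) (n 19 (n 0 z (n 2 (n 2 (n 0 z (n 0 z (n 0 z (n 0 z (n 0 z (n 0
 z z)))))) (n 2 (n 0 z (n 0 z (n 0 z (n 0 z (n 0 z (n 0 (n 8790275 z z) z)))))) (n 2 (n 0 z (n 0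
 z (n 0 z (n 0 z (n 0 z (n 0 z z)))))) (n 2 (n 0 z (n 0 z (n 0 z (n 0 z (n 0 z (n 0 z z))))))
 z)))) (n 0 z (n 0 z (n 0 z z))))) (n 55 (n 0 z (n 0 z (n 0 z (n 0 z (n 0 z (n 0 z (n 0 z (n 0 z
 (n 0 z (n 0 z (n 0 z (n 0 z (n 0 z (n 0 z (n 0 z (n 0 z (n 0 z (n 0 z (n 0 z (n 0 z (n 0 z (n 0
 z (n 0 z (n 0 z (n 0 z (n 0 z (n 0 z (n 0 z z)))))))))))))))))))))))))))) (n 3 (n 0 z (n 0 z (n
 0 z (n 0 z (n 0 z (n 0 z (n 0 z (n 0 z (n 0 z (n 0 z (n 0 z (n 0 z (n 0 z (n 0 z (n 0 z (n 0 z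
 (n 0 z (n 0 z (n 0 z (n 0 z (n 0 z (n 0 z (n 0 z (n 0 z (n 0 z (n 0 z (n 0 z (n 0 z (n 0 z (n 0
 z (n 0 z (n 0 z (n 0 z (n 0 z (n 0 z z))))))))))))))))))))))))))))))))))) (n 3 (n 0 z (n 0 z (n
 0 z (n 0 z (n 0 z (n 0 z (n 0 z (n 0 z (n 0 z (n 0 z (n 0 z (n 0 z (n 0 z (n 0 z (n 2 (n 2 (n 0
 z (n 0 z (n 0 z (n 0 z (n 0 z (n 0 (n 8790275 z z) z)))))) z) (n 0 z (n 0 z (n 0 z (n 0 z (n 0
 z (n 0 z (n 0 z (n 0 z (n 0 z (n 0 z (n 0 z (n 0 z (n 0 z (n 0 z (n 0 z (n 0 z (n 0 z (n 0 z (n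
 0 z (n 0 z z))))))))))))))))))))))))))))))))))) (n 1 (n 0 z (n 0 z (n 0 z (n 0 z (n 0 z (n 0 z
 (n 0 z (n 0 z (n 0 z (n 0 z (n 0 z (n 0 z (n 0 z (n 0 z (n 0 z (n 0 z (n 0 z (n 0 z (n 0 z (n 0
 z (n 0 z (n 0 z (n 0 z (n 0 z (n 0 z (n 0 z (n 0 z (n 0 z (n 0 z (n 0 z (n 0 z (n 0 z (n 0 z (n
 0 z (n 0 z (n 0 z z)))))))))))))))))))))))))))))))))))) z))))))))) (n 0 (n 0 z (n 343 (n 0 z (n
 0 z (n 0 z (n 0 z (n 2 (n 0 z (n 0 z (n 2 (n 0 z (n 0 z (n 0 z (n 0 z (n 0 z (n 0 z z)))))) (n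
 2 (n 0 z (n 0 z (n 0 z (n 0 z (n 0 z (n 0 (n 8730475 z z) z)))))) (n 2 (n 0 z (n 0 z (n 0 z (n
 0 z (n 0 z (n 0 z z)))))) (n 2 (n 0 z (n 0 z (n 0 z (n 0 z (n 0 z (n 0 z z)))))) z)))))) (n 0 z
 z)))))) (n 343 (n 0 z (n 2 (n 0 z (n 2 (n 0 z (n 0 z (n 0 z (n 0 z (n 0 z (n 0 z z)))))) (n 2
 (n 0 z (n 0 z (n 0 z (n 0 z (n 0 z (n 0 (n 8855811 z z) z)))))) (n 2 (n 0 z (n 0 z (n 0 z (n 0
 z (n 0 z (n 0 z z)))))) (n 2 (n 0 z (n 0 z (n 0 z (n 0 z (n 0 z (n 0 z z)))))) z))))) (n 0 z (n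
 0 z (n 0 z (n 0 z z)))))) (n 343 (n 0 z (n 0 z (n 0 z (n 2 (n 2 (n 0 z (n 0 z (n 0 z (n 0 z (n
 0 z (n 0 z z)))))) (n 2 (n 0 z (n 0 z (n 0 z (n 0 z (n 0 z (n 0 z z)))))) (n 2 (n 0 z (n 0 z (n
 0 z (n 0 z (n 0 z (n 0 z z)))))) (n 2 (n 0 z (n 0 z (n 0 z (n 0 z (n 0 z (n 0 z z)))))) z))))
 (n 0 z (n 0 z z)))))) (n 55 (n 0 z (n 2 (n 1 z (n 2 (n 0 z (n 0 z (n 0 z (n 0 z (n 0 z (n 0 z
 z)))))) (n 1 z z))) (n 0 z z))) (n 339 (n 0 z (n 0 z (n 0 z (n 0 z (n 0 z (n 0 z (n 0 z (n 0 z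
 (n 0 z z))))))))) (n 339 (n 0 z (n 0 z (n 0 z (n 0 z (n 0 z (n 0 z (n 2 (n 2 (n 0 z (n 0 z (n 0
 z (n 0 z (n 0 z (n 0 z z)))))) z) (n 0 z (n 0 z z))))))))) (n 341 (n 0 z (n 0 z (n 0 z (n 0 z
 (n 0 z (n 0 z (n 0 z (n 0 z (n 0 z (n 0 z (n 0 z (n 0 z (n 0 z (n 0 z (n 0 z (n 0 z (n 0 z (n 0
 z (n 0 z (n 0 z (n 0 z (n 0 z (n 0 z (n 0 z (n 0 z (n 0 z (n 0 z (n 0 z (n 0 z (n 0 z (n 0 z (n
 0 z (n 0 z (n 0 z (n 0 z (n 0 z (n 0 z (n 0 z (n 0 z (n 0 z (n 0 z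
 z))))))))))))))))))))))))))))))))))))))))) z)))))))) (n 0 (n 779 (n 0 z (n 0 z (n 0 z (n 0 z (n
 0 z z))))) (n 779 (n 0 z (n 0 z (n 0 z (n 2 (n 0 z (n 1 z (n 1 z (n 2 (n 0 z (n 0 z (n 0 z (n 0
 z (n 0 z (n 0 (n 8787243 z z) z)))))) (n 1 z z))))) (n 0 z z))))) (n 779 (n 0 z (n 0 z (n 0 z
 (n 0 z (n 2 (n 2 (n 0 z (n 0 z (n 0 z (n 0 z (n 0 z (n 0 z z)))))) (n 2 (n 0 z (n 0 z (n 0 z (n
 0 z (n 0 z (n 0 (n 3108 z z) z)))))) (n 2 (n 0 z (n 0 z (n 0 z (n 0 z (n 0 z (n 0 z z)))))) (n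
 2 (n 0 z (n 0 z (n 0 z (n 0 z (n 0 z (n 0 z z)))))) z)))) z))))) (n 75 (n 0 z (n 0 z (n 0 z (n
 0 z (n 0 z (n 0 z (n 0 z (n 0 z (n 0 z (n 2 (n 1 z (n 2 (n 0 z (n 0 z (n 0 z (n 0 z (n 0 z (n 0
 (n 8787243 z z) z)))))) (n 1 z z))) (n 0 z (n 0 z (n 0 z (n 0 z (n 0 z z))))))))))))))) (n 777
 (n 2 (n 0 z (n 1 z z)) (n 0 z (n 0 z (n 0 z (n 0 z (n 0 z (n 0 z (n 0 z (n 0 z (n 0 z (n 0 z (n
 0 z (n 0 z (n 0 z (n 0 z (n 0 z (n 0 z (n 0 z (n 0 z (n 0 z (n 0 z (n 0 z (n 0 z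
 z))))))))))))))))))))))) (n 777 (n 0 z (n 0 z (n 0 z (n 0 z (n 0 z (n 0 z (n 0 z (n 0 z (n 0 z
 (n 0 z (n 0 z (n 0 z (n 0 z (n 0 z (n 0 z (n 0 z (n 0 z (n 0 z (n 0 z (n 0 z (n 0 z (n 0 z (n 0
 z z))))))))))))))))))))))) (n 773 (n 0 z (n 0 z (n 0 z (n 2 z (n 0 z (n 0 z (n 0 z (n 0 z (n 0
 z (n 0 z (n 0 z (n 0 z (n 0 z (n 0 z (n 0 z (n 0 z (n 0 z (n 0 z (n 0 z (n 0 z (n 0 z (n 0 z (n
 0 z (n 0 z (n 0 z (n 0 z (n 0 z (n 0 z (n 0 z z))))))))))))))))))))))))))))) z))))))) (n 0 (n 0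
 z (n 0 z (n 279 (n 0 z (n 0 z (n 2 (n 1 z (n 2 (n 0 z (n 0 z (n 0 z (n 0 z (n 0 z (n 0 z
 z)))))) (n 1 z z))) z))) (n 261 (n 0 z (n 0 z (n 0 z (n 0 z (n 0 z (n 0 z (n 0 z (n 0 z (n 0 z
 (n 2 (n 0 z (n 1 z z)) (n 0 z z))))))))))) (n 261 (n 0 z (n 0 z (n 0 z (n 0 z (n 0 z (n 0 z (n
 0 z (n 0 z (n 0 z (n 0 z (n 0 z z))))))))))) (n 13 (n 0 z (n 0 z (n 0 z (n 0 z (n 0 z (n 2 z (n
 0 z (n 0 z (n 0 z z))))))))) z)))))) (n 0 (n 0 z (n 299 (n 0 z (n 0 z (n 0 z (n 0 z (n 0 z (n 0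
 z z)))))) (n 243 (n 0 z (n 0 z (n 0 z (n 0 z (n 0 z (n 0 z (n 0 z (n 0 z (n 0 z (n 0 z (n 0 z
 (n 0 z (n 0 z (n 0 z (n 0 z (n 0 z (n 0 z (n 0 z (n 0 z (n 0 z (n 0 z (n 0 z (n 0 z (n 0 z (n 0
 z (n 0 z (n 0 z (n 0 z z)))))))))))))))))))))))))))) (n 243 (n 0 z (n 0 z (n 0 z (n 0 z (n 0 z
 (n 0 z (n 0 z (n 0 z (n 0 z (n 0 z (n 0 z (n 0 z (n 0 z (n 0 z (n 0 z (n 0 z (n 2 (n 2 (n 0 z
 (n 0 z (n 0 z (n 0 z (n 0 z (n 0 (n 8790275 z z) z)))))) z) (n 0 z (n 0 z (n 0 z (n 0 z (n 0 z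
 (n 0 z (n 0 z (n 0 z (n 0 z (n 0 z (n 0 z z)))))))))))))))))))))))))))) (n 1 (n 0 z (n 0 z (n 0
 z (n 0 z (n 0 z (n 0 z (n 0 z (n 0 z (n 0 z (n 0 z (n 0 z (n 0 z (n 0 z z))))))))))))) z)))))
 (n 0 (n 279 (n 0 z (n 2 (n 1 z (n 2 (n 0 z (n 0 z (n 0 z (n 0 z (n 0 z (n 0 z z)))))) (n 1 z
 z))) (n 0 z z))) (n 261 (n 0 z (n 0 z (n 0 z (n 0 z (n 0 z (n 0 z (n 0 z (n 0 z (n 0 z (n 0 z
 (n 0 z (n 0 z (n 0 z (n 0 z (n 0 z (n 0 z (n 0 z (n 0 z (n 0 z (n 0 z (n 0 z (n 0 z (n 0 z (n 0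
 z (n 0 z (n 2 (n 0 z (n 1 z z)) (n 0 z (n 0 z (n 0 z (n 0 z (n 0 z (n 0 z (n 0 z (n 0 z (n 0 z
 (n 0x26ec20a76181e8618208207e28607e17e082082182082081f7e081f82182082186082085f81f8218208a00081
 z (n 0 z (n 0 z (n 0 z (n 0 z (n 0 z z))))))))))))))))))))))))))))))))))))))))) (n 261 (n 0 z
 (n 0 z (n 0 z (n 0 z (n 0 z (n 0 z (n 0 z (n 0 z (n 0 z (n 0 z (n 0 z (n 0 z (n 0 z (n 0 z (n 0
 z (n 0 z (n 0 z (n 0 z (n 0 z (n 0 z (n 0 z (n 0 z (n 0 z (n 0 z (n 0 z (n 0 z (n 0 z (n 0 z (n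
 0 z (n 0 z (n 0 z (n 0 z (n 0 z (n 0 z (n 0 z (n 0 z (n 0 z (n 0 z (n 0 z (n 0 z (n 0 z
 z))))))))))))))))))))))))))))))))))))))))) (n 253 (n 0 z (n 0 z (n 0 z (n 0 z (n 0 z (n 0 z (n
 2 z (n 0 z (n 0 z z))))))))) z)))) (n 0 (n 723 (n 0 z (n 0 z (n 0 z (n 0 z (n 0 z (n 0 z (n 0 z
 (n 0 z (n 0 z (n 0 z z)))))))))) (n 723 (n 0 z (n 0 z (n 0 z (n 0 z (n 0 z (n 0 z (n 2 (n 1 z
 z) (n 0 z (n 0 z (n 0 z z)))))))))) (n 109 (n 0 z (n 0 z (n 0 z (n 0 z (n 0 z (n 0 z (n 0 z (n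
 0 z z)))))))) z))) (n 0 (n 0 z (n 145 (n 0 z (n 0 z (n 0 z (n 0 z (n 0 z (n 0 z (n 0 z (n 0 z
 (n 0 z (n 0 z (n 0 z (n 0 z (n 0 z (n 0 z z)))))))))))))) z)) (n 0 (n 1 (n 0 z (n 0 z (n 0 z (n
 0 z (n 0 z (n 0 z (n 0 z (n 0 z (n 0 z (n 0 z (n 0 z (n 0 z (n 2 z (n 0 z (n 0 z (n 0 z (n 0 z
 (n 0 z z)))))))))))))))))) z) (n 0 z z)))))))))) (n 0 (n 1 (n 3282443 z (n 3282443 z (n 3282443
 z (n 3282443 z (n 3282443 z (n 3282443 z z)))))) (n 0 z z)) (n 0 z z)))) (n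
 0x8aa943d1aa1464d09c2ec0e6d087a694c0523105118aa00c2c80dccc0 (n 0 (n 465 (n
 0x8ca8a864077fa81b7f37fa80080d8177eb7f27f87f38008068078157ea7ef8127f18197f78187f57f87ff8147e58187ff7f97fd7e97ff7e78018128137f08028097f58198028067ef80e7ff7f18107fa0811
 z (n 2 z (n 0 z (n 3282443 z (n 10 z (n 18 z (n 0 z z))))))) (n 251 (n 3278363 z z) (n 129 (n
 26 z (n 0 z (n 0 z (n 0 z (n 0 z (n 0 z (n 0 z (n 0 z (n 6632003 z (n 34 z (n 0 z (n 0 z (n 0 z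
 z))))))))))))) (n 3 (n 6632003 z (n 6632003 z (n 0 z z))) (n 1 (n 0 z (n 0 z (n 42 z (n 50 z (n
 0x636537f87f68027f77fc8007f77ed8117fb80d8087fa7fd8177e67f781180e81b7ff80d7f38007f67d580b80380b7ee80d7f07f37f68198117f380f7ec80f81c8047fe7fc7f08178007f280a7ff0051
 z (n
 0x636517f87f68027f77fc8007f77ed8117fb80d8087fa7fd8177e67f781180e81b7ff80d7f38007f67d580b80380b7ee80d7f07f37f68198117f380f7ec80f81c8047fe7fc7f08178007f280a7ff0051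
 z (n 0 z (n 6558507 z z)))))))) (n 0 (n
 0x355880145b10014262087774e7ed8037fc7a87607cc8017df8088847bd8707de8bf7d77ac7df8fe7ca81c7d884681f7ac7a87718778a17907828298128877b779475282c8ac8bc8308637ee7c27b286e87c7a67e600d1
 z (n 58 z (n 66 z (n
 0xac86c860038067e77f780d7f08017ea7eb80a7fa7ec82f7fa8067f37f58018067df8538008237f88047fa7e87fb7e78178017f37cc81080082a7fa7ef7f07f681e81781180b7fb8018028088057f67fe0811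
 z (n 74 z (n
 0x14ca88604037e08078097f58047fb80780780380a81d7f08027fa80580b7ff8008227e87ed7f57e88057f97e48037fc80d8067f57f680c7f481280e80680681280481a7ed7f58017eb7f08068028097fb0811
 z (n 82 z (n 0 z (n
 0x2ca88624037ff8008018007fe8018008008018008008008008018008008008008008008008008007ff8017ff8008008008007ff8008008008018008008008008008008008008008018008008008018000811
 z (n 6632003 z (n 6632003 z (n 6632003 z (n 6632003 z (n 6632003 z z)))))))))))))) z)))))) (n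
 251 (n 0 (n 0 z (n 0 z (n 927 (n 0 z (n 0 z (n 2 (n 0 z (n 2 (n 0 z (n 0 z (n 0 z (n 0 z (n 0 z
 (n 0 z z)))))) (n 2 (n 0 z (n 0 z (n 0 z (n 0 z (n 0 z (n 0 z z)))))) (n 2 (n 0 z (n 0 z (n 0 z
 (n 0 z (n 0 z (n 0 z z)))))) (n 2 (n 0 z (n 0 z (n 0 z (n 0 z (n 0 z (n 0 z z)))))) (n 2 (n 0 z
 (n 0 z (n 0 z (n 0 z (n 0 z (n 0 z z)))))) (n 2 (n 0 z (n 0 (n 8860179 z z) (n 0 z (n 0 (n
 8860179 z z) (n 0 (n 8860179 z (n 8860179 z z)) (n 0 z z)))))) z))))))) (n 0 z (n 0 z (n 0 z (n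
 0 z (n 0 z z)))))))) (n 927 (n 0 z (n 0 z (n 0 z (n 0 z (n 0 z (n 0 z (n 0 z (n 0 z z))))))))
 (n 929 (n 0 z (n 0 z (n 0 z (n 0 z (n 0 z (n 0 z (n 0 z (n 0 z (n 0 z (n 0 z (n 0 z (n 0 z (n 0
 z (n 0 z (n 0 z (n 0 z (n 0 z (n 0 z (n 0 z (n 0 z (n 0 z (n 0 z (n 0 z (n 0 z (n 0 z (n 0 z (n
 0 z (n 0 z (n 0 z (n 0 z (n 0 z (n 0 z z)))))))))))))))))))))))))))))))) (n 929 (n 0 z (n 0 z
 (n 0 z (n 0 z (n 0 z (n 0 z (n 0 z (n 0 z (n 0 z (n 0 z (n 0 z (n 0 z (n 0 z (n 0 z (n 0 z (n 0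
 z (n 0 z (n 0 z (n 0 z (n 0 z (n 0 z (n 0 z (n 0 z (n 0 z (n 0 z (n 0 z (n 0 z (n 0 z (n 0 z (n
 0 z (n 0 z (n 0 z z)))))))))))))))))))))))))))))))) (n 349 (n 0 z (n 0 z (n 0 z (n 0 z (n
 7685659 z (n 0 z (n 0 z (n 0 z (n 0 z (n 0 z (n 0 z (n 0 z (n 0 z (n 0 z (n 0 z (n 0 z (n 0 z
 z))))))))))))))))) (n 349 (n 0 z (n 0 z (n 0 z (n 0 z (n 0 z (n 2 (n 0 z (n 0 z z)) (n 0 z (n 0
 z (n 0 z (n 0 z (n 0 z (n 0 z (n 0 z (n 0 z (n 0 z (n 0 z (n 0 z z))))))))))))))))) (n 349 (n 0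
 z (n 0 z (n 0 z (n 0 z (n 0 z (n 0 z (n 0 z (n 0 z (n 0 z (n 0 z (n 0 z (n 0 z (n 0 z (n 0 z (n
 0 z (n 0 z (n 0 z z))))))))))))))))) (n 349 (n 0 z (n 0 z (n 0 z (n 0 z (n 0 z (n 0 z (n 0 z (n
 0 z (n 0 z (n 2 z (n 0 z (n 0 z (n 0 z (n 0 z (n 0 z (n 0 z (n 0 z z)))))))))))))))))
 z)))))))))) (n 0 (n 0 z (n 135 (n 0 z (n 0 z (n 0 z (n 0 z (n 0 z (n 0 z (n 0 z (n 0 z (n 0 z
 (n 0 z (n 0 z (n 0 z (n 0 z z))))))))))))) (n 135 (n 0 z (n 0 z (n 0 z (n 0 z (n 0 z (n 0 z (n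
 0 z (n 0 z (n 0 z (n 0 z (n 0 z (n 0 z (n 0 z z))))))))))))) (n 133 (n 0 z (n 0 z (n 0 z (n 0 z
 (n 0 z (n 0 z (n 0 z (n 0 z (n 0 z (n 0 z (n 0 z (n 0 z (n 0 z (n 0 z (n 0 z (n 0 z (n 0 z (n 0
 z (n 0 z (n 0 z (n 0 z (n 0 z (n 0 z (n 0 z (n 0 z (n 0 z (n 0 z (n 0 z (n 0 z (n 0 z (n 0 z (n
 0 z (n 0 z (n 0 z (n 0 z (n 0 z (n 0 z (n 0 z (n 0 z (n 0 z (n 0 z (n 0 z (n 0 z (n 0 z (n 0 z
 (n 0 z (n 0 z (n 0 z (n 2 (n 0 z (n 2 (n 0 z (n 0 z (n 0 z (n 0 z (n 0 z (n 0 z z)))))) (n 1 z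
 (n 2 (n 0 z (n 0 z (n 0 z (n 0 z (n 0 z (n 0 z z)))))) (n 2 (n 0 z (n 0 z (n 0 z (n 0 z (n 0 z
 (n 0 z z)))))) z))))) (n 0 z (n 0 z (n 0 z (n 0 z (n 0 z (n 0 z (n 0 z
 z)))))))))))))))))))))))))))))))))))))))))))))))))))))))) (n 133 (n 0 z (n 0 z (n 0 z (n 0 z (n
 0 z (n 0 z (n 0 z (n 0 z (n 0 z (n 0 z (n 0 z (n 0 z (n 0 z (n 0 z (n 0 z (n 0 z (n 0 z (n 0 z
 (n 0 z (n 0 z (n 0 z (n 0 z (n 0 z (n 0 z (n 0 z (n 0 z (n 0 z (n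
 0x18ea8ca24037f67fd8037f08087f17fd7ec8147fb80c8087f38017f580d8037fc7f88347f08237e97fd8057fa8027da80e8207de7cb81c7fe82f7fc7e97e181681a8177fa80c7fb7f57e98128127f87fb0811
 z (n 0 z (n 0 z (n 0 z (n 0 z (n 0 z (n 0 z (n 0 z (n 0 z (n 0 z (n 0 z (n 0 z (n 0 z (n 0 z (n
 0 z (n 0 z (n 0 z (n 0 z (n 0 z (n 0 z (n 0 z (n 0 z (n 0 z (n 0 z (n 0 z (n 0 z (n 0 z (n 0 z
 (n 0 z z)))))))))))))))))))))))))))))))))))))))))))))))))))))))) (n 13 (n 0 z (n 0 z (n 7680355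
 z (n 0 z (n 0 z (n 0 z (n 0 z (n 0 z (n 0 z (n 0 z (n 0 z (n 0 z (n 0 z (n 0 z z))))))))))))))
 (n 13 (n 0 z (n 2 (n 0 z (n 0 z z)) (n 0 z (n 0 z (n 0 z (n 0 z (n 0 z (n 0 z (n 0 z (n 0 z (n
 0 z (n 0 z (n 0 z (n 0 z z)))))))))))))) (n 13 (n 0 z (n 0 z (n 0 z (n
 0xcea8c864077ec8088017e07fe80080480680d80280c8057fa80881f7e97fb80d8217ff8077f27d780a7ee7bd8087fa8157f07fe7f180080b7fb82480a80b7f98158397e47f78097d57f68097f481f7f10811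
 z (n 0 z (n 0 z (n 0 z (n 0 z (n 0 z (n 0 z (n 0 z (n 0 z (n 0 z (n 0 z z)))))))))))))) (n 13
 (n 0 z (n 0 z (n 0 z (n 0 z (n 0 z (n 0 z (n 0 z (n 0 z (n 0 z (n 0 z (n 0 z (n 0 z (n 0 z (n 0
 z z)))))))))))))) z))))))))) (n 0 (n 1227 (n 0 z (n 0 z (n 0 z (n 0 z (n 0 z (n 0 z z)))))) (n
 1227 (n 2 (n 2 (n 0 z (n 0 z (n 0 z (n 0 z (n 0 z (n 0 z z)))))) (n 2 (n 0 z (n 0 z (n 0 z (n 0
 z (n 0 z (n 0 z z)))))) (n 2 (n 0 (n 7743579 z (n 965 z z)) (n 0 (n 1348 z (n 1348 z z)) (n 0 z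
 (n 0 z (n 0 (n 1348 z (n 7542795 z z)) (n 0 (n 1348 z (n 7542795 z z)) z)))))) (n 2 (n 0 z (n 0
 z (n 0 (n 8590891 z (n 8590891 z z)) (n 0 (n 8721979 z (n 8721979 z z)) (n 0 (n 1348 z (n 1348
 z z)) (n 0 (n 1348 z (n 1348 z z)) z)))))) (n 2 (n 0 (n 7542859 z (n 8722187 z z)) (n 0 (n
 7751707 z (n 1348 z z)) (n 0 (n 8722187 z (n 7750019 z z)) (n 0 z (n 0 z (n 0 z z)))))) (n 2 (n
 0 (n 8794643 z (n 8794643 z z)) (n 0 z (n 0 (n 8794643 z (n 8794643 z z)) (n 0 (n 8794643 z (n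
 8794643 z z)) (n 0 (n 8794643 z (n 8794643 z z)) (n 0 z z)))))) z)))))) (n 0 z (n 0 z (n 0 z (n
 0 z (n 0 z z)))))) (n 1345 (n 0 z (n 0 z (n 0 z (n 0 z (n 0 z (n 0 z (n 2 (n 0 z (n 2 (n 0 z (n
 0 z (n 0 z (n 0 z (n 0 z (n 0 z z)))))) (n 2 (n 0 z (n 0 z (n 0 z (n 0 z (n 0 z (n 0 z z))))))
 (n 2 (n 0 z (n 0 z (n 0 z (n 0 z (n 0 z (n 0 z z)))))) (n 2 (n 0 (n 8794643 z (n 8794643 z z))
 (n 0 (n 8794643 z (n 8794643 z z)) (n 0 z (n 0 (n 8794643 z (n 8794643 z z)) (n 0 z (n 0 z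
 z)))))) z))))) (n 0 z z)))))))) (n 1345 (n 0 z (n 0 z (n 0 z (n 2 (n 2 (n 0 z (n 0 z (n 0 z (n
 0 z (n 0 z (n 0 z z)))))) (n 2 (n 0 z (n 0 z (n 0 z (n 0 z (n 0 z (n 0 z z)))))) (n 2 (n 0 z (n
 0 z (n 0 z (n 0 z (n 0 z (n 0 z z)))))) (n 2 (n 0 (n 8794643 z (n 8794643 z z)) (n 0 (n 8794643
 z (n 8794643 z z)) (n 0 (n 8794643 z (n 8794643 z z)) (n 0 (n 8794643 z (n 8794643 z z)) (n 0 z
 (n 0 z z)))))) z)))) (n 0 z (n 0 z (n 0 z (n 0 z z)))))))) (n 337 (n 0 z (n 2 (n 0 z (n 0 z (n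
 0 z z))) (n 0 z (n 0 z (n 0 z (n 0 z z)))))) (n 337 (n 7673403 z (n 0 z (n 0 z (n 0 z (n 0 z (n
 0 z z)))))) (n 337 (n 0 z (n 0 z (n 0 z (n 0 z (n 0 z (n 0 z z)))))) (n 337 (n 0 z (n 0 z (n 0
 z (n 0 z (n 0 z (n 0 z z)))))) z)))))))) (n 0 (n 0 z (n 1373 (n 0 z (n 0 z (n 0 z (n 0 z (n 0 z
 (n 0 z (n 0 z (n 0 z z)))))))) (n 1373 (n 0 z (n 0 z (n 0 z (n 0 z (n 0 z (n 0 z (n 0 z (n 2 (n
 2 (n 0 z (n 0 z (n 0 z (n 0 z (n 0 z (n 0 z z)))))) (n 2 (n 0 z (n 0 z (n 0 z (n 0 z (n 0 z (n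
 0 z z)))))) (n 2 (n 0 z (n 0 z (n 0 z (n 0 z (n 0 z (n 0 z z)))))) (n 2 (n 0 (n 8794643 z z) (n
 0 z (n 0 (n 8794643 z z) (n 0 z (n 0 (n 8794643 z (n 8794643 z z)) (n 0 z z)))))) z))))
 z)))))))) (n 253 (n 0 z (n 0 z (n 0 z (n 0 z (n 0 z (n 0 z (n 0 z (n 0 z (n 2 (n 0 z (n 0 z (n
 0 z z))) (n 0 z (n 0 z (n 0 z (n 0 z (n 0 z (n 0 z (n 0 z (n 0 z (n 0 z (n 0 z (n 0 z (n 0 z (n
 0 z (n 0 z (n 0 z (n 0 z z))))))))))))))))))))))))) (n 253 (n 0 z (n 0 z (n 0 z (n 0 z (n 0 z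
 (n 0 z (n 0 z (n 0 z (n 0 z (n 0 z (n 7673403 z (n
 0x355d84145bb0814276187774e7ed8037fc7a87607cc8017df8088847bd8707de8bf7d77ac7df8fe7ca81c7d884681f7ac7a87718778a17907828298128877b779475282c8ac8bc8308637ee7c27b286e87c7a67e600d1
 z (n 0 z (n 0 z (n 0 z (n 0 z (n 0 z (n 0 z (n 0 z (n 0 z (n 0 z (n 0 z (n 0 z (n 0 z (n 0 z
 z))))))))))))))))))))))))) (n 253 (n 0 z (n 0 z (n 0 z (n 0 z (n 0 z (n 0 z (n 0 z (n 0 z (n 0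
 z (n 0 z (n 0 z (n 0 z (n 0 z (n 0 z (n 7673403 z (n 0 z (n 0 z (n 0 z (n 0 z (n 0 z (n 0 z (n
 0 z (n 0 z (n 0 z (n 0 z z))))))))))))))))))))))))) (n 253 (n 0 z (n 0 z (n 0 z (n 0 z (n 0 z
 (n 0 z (n 0 z (n 0 z (n 0 z (n 0 z (n 0 z (n 0 z (n 0 z (n 0 z (n 0 z (n 0 z (n 0 z (n 0 z (n 0
 z (n 0 z (n 0 z (n 0 z (n 0 z (n 0 z (n 0 z z))))))))))))))))))))))))) z))))))) (n 0 (n 243 (n
 0 z (n 0 z (n 0 z (n 0 z (n 0 z z))))) (n 243 (n 0 z (n 0 z (n 0 z (n 0 z (n 0 z z))))) (n 241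
 (n 2 (n 0 z (n 0 z (n 0 z z))) (n 0 z (n 0 z (n 0 z (n 0 z (n 0 z (n 0 z (n 0 z (n 0 z (n 0 z
 (n 0 z (n 0 z (n 0 z z))))))))))))) (n 241 (n 0 z (n 0 z (n 0 z (n 0 z (n 0 z (n 0 z (n 0 z (n
 0 z (n 0 z (n 0 z (n 0 z (n 0 z (n 0 z z))))))))))))) (n 241 (n 0 z (n 0 z (n 0 z (n 0 z (n
 7673355 z (n 0 z (n 0 z (n 0 z (n 0 z (n 0 z (n 0 z (n 0 z (n 0 z z))))))))))))) (n 241 (n 0 z
 (n 0 z (n 0 z (n 0 z (n 0 z (n 0 z (n 0 z (n 0 z (n 0 z (n 0 z (n 0 z (n 0 z (n 0 z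
 z))))))))))))) z)))))) (n 0 (n 0 z (n 1 (n 0 z (n 2 (n 0 z (n 0 z (n 0 z z))) (n 0 z (n 0 z (n
 0 z (n 0 z z)))))) (n 1 (n 0 z (n 0 z (n 0 z (n 0 z (n 2 (n 0 z (n 0 z z)) (n 0 z z)))))) (n 1
 (n 0 z (n 0 z (n 0 z (n 0 z (n 0 z (n 0 z z)))))) (n 1 (n 0 z (n 0 z (n 0 z (n 0 z (n 0 z (n 0
 z z)))))) z))))) (n 0 (n 49 (n 0 z (n 0 z (n 0 z (n 0 z (n 0 z (n 0 z z)))))) (n 49 (n 0 z (n 0
 z (n 0 z (n 0 z (n 0 z (n 0 z z)))))) (n 49 (n 0 z (n 0 z (n 0 z (n 0 z (n 0 z (n 0 z z))))))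
 (n 49 (n 0 z (n 0 z (n 0 z (n 2 z (n 0 z (n 0 z z)))))) z)))) (n 0 (n 0 z (n 0 z (n 0 z z))) (n
 0 (n 0 z (n 0 z z)) (n 0 (n 0 z z) (n 0 z z))))))))))) (n 0 (n 1 (n 3278363 z (n 6488603 z (n
 3278363 z (n 3278363 z (n 3278363 z (n 3278363 z z)))))) z) (n 0 z z)))) (n
 0xa6cb44449a1eb1d8c58db835aec21d51e11a6a0251303a9190228aa21 (n 0 (n 587 (n 3282443 z (n 0 z z))
 (n 33 (n 2 z (n 10 z (n 0 z (n 0 z (n 3278363 z (n 0 z z)))))) (n 135 (n 18 z (n 6566419 z (n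
 0x8a61052a46e62b677832db7896eab526a5c67bd8486a2819b8d7880a1529cb15a7462a95f623f955aac8bcc78b4789c7f5c6586590049
 z (n
 0x2c98c444b188c063187717da887884e66679a6f8482808d5e579888816ba5ac6f74987a808b77806d8664867758b88a73b16a96a2a48b4e81c36100c9
 z (n 6566419 z (n 26 z (n
 0xc86c860037f80807f807f81818080818080817f818081808080807f808080808080808080808080808080808081808180808180807f800809
 z (n 34 z (n 42 z (n 6566419 z (n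
 0x2a651718c7a76927d816592837a8e717974789481828b8089857e808a718991737c768e75766b87758f83997d917d897f747782730049
 z (n 6566419 z z)))))))))))) (n 3 (n 0 z (n 0 z (n 0 z (n 0 z (n 0 z (n
 0x9561082838083808078867c877a77748a9184a17d697c78876878915b80807d80809885965588885e7e898a7e827072868f7e727c0049
 z (n 0 z (n 50 z (n 0 z (n 0 z (n 58 z (n 0 z (n 0 z (n 6566419 z (n 0 z (n 0 z (n 0 z (n 0 z
 (n 0 z z))))))))))))))))))) (n 1 (n 6566419 z (n 0 z (n 0 z z))) (n 0 (n 6636299 z (n 66 z (n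
 0x8a63252a46e62b677832db7896eab526a5c67bd8486a2819b8d7880a1529cb15a7462a95f623f955aac8bcc78b4789c7f5c6586590049
 z (n 74 z (n 82 z (n 0 z z)))))) z)))))) (n 587 (n 0 (n 0 z (n 1053 (n 0 z (n 0 z (n 0 z (n 0 z
 (n 0 z (n 0 z (n 0 z (n 0 z (n 2 (n 0 z (n 0 z (n 0 z (n 2 (n 0 z (n 0 z (n 0 z (n 0 z (n 0 z
 (n 0 z z)))))) (n 2 (n 0 z (n 0 z (n 0 z (n 0 z (n 0 z (n 0 z z)))))) (n 2 (n 0 z (n 0 z (n 0 z
 (n 0 z (n 0 z (n 0 z z)))))) (n 1 z (n 1 z z)))))))) (n 0 z (n 0 z (n 0 z (n 0 z (n 0 z (n 0 z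
 (n 0 z z)))))))))))))))) (n 1053 (n 0 z (n 0 z (n 0 z (n 0 z (n 0 z (n 0 z (n 0 z (n 0 z (n 0 z
 (n 0 z (n 0 z (n 0 z (n 0 z (n 0 z (n 0 z (n 0 z z)))))))))))))))) (n 1053 (n 0 z (n 0 z (n 0 z
 (n 0 z (n 0 z (n 0 z (n 0 z (n 0 z (n 0 z (n 0 z (n 0 z (n 0 z (n 0 z (n 0 z (n 0 z (n 0 z
 z)))))))))))))))) (n 1053 (n 0 z (n 0 z (n 0 z (n 0 z (n 0 z (n 0 z (n 0 z (n 2 (n 2 (n 0 z (n
 0 z (n 0 z (n 0 z (n 0 z (n 0 z z)))))) (n 2 (n 0 z (n 0 z (n 0 z (n 0 z (n 0 z (n 0 z z))))))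
 (n 2 (n 0 z (n 0 z (n 0 z (n 0 z (n 0 z (n 0 z z)))))) (n 2 (n 0 z (n 0 z (n 0 z (n 0 z (n 0 z
 (n 0 (n 1636 z z) z)))))) (n 1 z z))))) (n 0 z (n 0 z (n 0 z (n 0 z (n 0 z (n 0 z (n 0 z (n 0 z
 z)))))))))))))))) (n 1045 (n 0 z (n 0 z (n 0 z (n 0 z (n 0 z (n 0 z (n 0 z (n 0 z (n 0 z (n 0 z
 (n 0 z (n 0 z (n 0 z z))))))))))))) (n 1045 (n 0 z (n 0 z (n 0 z (n 0 z (n 0 z (n 0 z (n 0 z (n
 0 z (n 0 z (n 0 z (n 0 z (n 0 z (n 0 z z))))))))))))) (n 409 (n 0 z (n 0 z (n 0 z (n 2 (n 0 z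
 (n 0 z z)) (n 0 z (n 0 z (n 0 z (n 0 z (n 0 z z))))))))) (n 409 (n 0 z (n 0 z (n 0 z (n 0 z (n
 0 z (n 0 z (n 0 z (n 0 z (n 0 z z))))))))) (n 409 (n 0 z (n 0 z (n 0 z (n 0 z (n 2 z (n 0 z (n
 0 z (n 0 z (n 0 z z))))))))) z)))))))))) (n 0 (n 1047 (n 0 z (n 0 z (n 0 z (n 0 z (n 0 z (n 0 z
 (n 0 z (n 0 z (n 0 z (n 0 z (n 0 z (n 0 z (n 0 z (n 0 z (n 0 z (n 0 z z)))))))))))))))) (n 1047
 (n 0 z (n 0 z (n 0 z (n 0 z (n 0 z (n 0 z (n 0 z (n 0 z (n 0 z (n 0 z (n 0 z (n 0 z (n 0 z (n 0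
 z (n 0 z (n 0 z z)))))))))))))))) (n 1047 (n 0 z (n 0 z (n 0 z (n 0 z (n 0 z (n 0 z (n 0 z (n 0
 z (n 0 z (n 0 z (n 0 z (n 0 z (n 2 (n 0 z (n 2 (n 0 z (n 0 (n 8867939 z (n 8867939 z z)) (n 0
 (n 8787803 z (n 7473243 z z)) (n 0 (n 4180 z (n 8787803 z z)) (n 0 z (n 0 z z)))))) (n 2 (n 0
 (n 8864515 z z) (n 0 z (n 0 z (n 0 z (n 0 (n 8864515 z z) (n 0 (n 8864515 z (n 8864515 z z))
 z)))))) (n 2 (n 0 (n 8864515 z (n 8864515 z z)) (n 0 z (n 0 (n 8864515 z (n 8864515 z z)) (n 0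
 (n 8864515 z (n 8864515 z z)) (n 0 (n 8864515 z (n 8864515 z z)) (n 0 z z)))))) (n 2 (n 0 z (n
 0 z (n 0 z (n 0 z (n 0 z (n 0 z z)))))) (n 2 (n 0 z (n 0 z (n 0 z (n 0 z (n 0 z (n 0 z z))))))
 z)))))) (n 0 z (n 0 z (n 0 z z)))))))))))))))) (n 1047 (n 0 z (n 0 z (n 0 z (n 0 z (n 0 z (n 0
 z (n 0 z (n 0 z (n 0 z (n 0 z (n 0 z (n 0 z (n 0 z (n 0 z (n 0 z (n 0 z z)))))))))))))))) (n
 1045 (n 0 z (n 0 z (n 0 z (n 0 z (n 0 z (n 0 z (n 0 z (n 0 z (n 0 z (n 0 z (n 0 z (n 0 z (n 0 z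
 (n 0 z (n 0 z (n 0 z (n 0 z (n 0 z (n 0 z z))))))))))))))))))) (n 1045 (n 0 z (n 0 z (n 0 z (n
 0 z (n 0 z (n 0 z (n 0 z (n 0 z (n 0 z (n 0 z (n 0 z (n 0 z (n 0 z (n 2 (n 2 (n 0 z (n 0 z (n 0
 (n 8864515 z z) (n 0 (n 8864515 z z) (n 0 z (n 0 (n 8864515 z (n 8864515 z z)) z)))))) (n 2 (n
 0 z (n 0 z (n 0 z (n 0 z (n 0 z (n 0 z z)))))) (n 2 (n 0 z (n 0 z (n 0 z (n 0 z (n 0 z (n 0 z
 z)))))) z))) (n 0 z (n 0 z (n 0 z (n 0 z (n 0 z z))))))))))))))))))) (n 389 (n 0 z (n 0 z (n 0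
 z (n 0 z (n 0 z (n 0 z (n 0 z (n 0 z (n 0 z (n 0 z (n 0 z (n 0 z (n 0 z (n 0 z (n 0 z (n 0 z (n
 2 (n 0 z (n 0 z z)) (n 0 z (n 0 z (n 0 z (n 0 z (n 0 z (n 0 z (n 0 z (n 0 z (n 0 z (n 0 z (n 0
 z (n 0 z z))))))))))))))))))))))))))))) (n 389 (n
 0xcea6c8640768a27e7b8b7c7683819b798772778f768a908089838c86827c87788b8574817682886e74796b878e9364a15fa1755f75855f0809
 z (n 0 z (n 0 z (n 0 z (n 0 z (n 0 z (n 0 z (n 0 z (n 0 z (n 0 z (n 0 z (n 0 z (n 0 z (n 0 z (n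
 0 z (n 0 z (n 0 z (n 0 z (n 0 z (n 0 z (n 0 z (n 0 z (n 0 z (n 0 z (n 0 z (n 0 z (n 0 z (n 0 z
 (n 0 z z))))))))))))))))))))))))))))) (n 389 (n 0 z (n 0 z (n 0 z (n 0 z (n 0 z (n 0 z (n 0 z
 (n 0 z (n 0 z (n 0 z (n 0 z (n 0 z (n 0 z (n 0 z (n 0 z (n
 0x8a76352a46e62b677832db7896eab526a5c67bd8486a2819b8d7880a1529cb15a7462a95f623f955aac8bcc78b4789c7f5c6586590049
 z (n 0 z (n 0 z (n 0 z (n 0 z (n 0 z (n 0 z (n 0 z (n 0 z (n 0 z (n 0 z (n 0 z (n 0 z (n 0 z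
 z))))))))))))))))))))))))))))) z))))))))) (n 0 (n 0 z (n 0 z (n 0 z (n 1097 (n 0 z (n 0 z (n 0
 z (n 0 z (n 0 z (n 0 z (n 0 z (n 0 z (n 0 z (n 2 (n 0 z (n 2 (n 0 (n 6424651 z (n 6424651 z z))
 (n 0 (n 1076 z (n 7473227 z z)) (n 0 z (n 0 (n 6555707 z (n 6555707 z z)) (n 0 z (n 0 (n 1076 z
 (n 7473227 z z)) z)))))) (n 2 (n 0 z (n 0 z (n 0 (n 6490139 z z) (n 0 (n 1076 z z) (n 0 z (n 0
 (n 1076 z (n 1076 z z)) z)))))) (n 1 z z)))) z)))))))))) (n 1097 (n 0 z (n 0 z (n 0 z (n 2 (n 2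
 (n 0 z (n 0 (n 8864515 z z) (n 0 z (n 0 z (n 0 z (n 0 (n 8864515 z (n 8864515 z z)) z)))))) (n
 2 (n 0 z (n 0 z (n 0 z (n 0 z (n 0 z (n 0 z z)))))) (n 1 z z))) (n 0 z (n 0 z (n 0 z (n 0 z (n
 0 z (n 0 z z)))))))))) (n 269 (n 0 z (n 0 z (n 0 z (n 0 z (n 0 z (n 0 z (n 0 z (n 0 z (n 0 z (n
 2 (n 0 z (n 0 z z)) (n 0 z (n 0 z (n 0 z z))))))))))))) (n 269 (n 0 z (n 0 z (n 0 z (n 0 z (n 0
 z (n 0 z (n 0 z (n 0 z (n 6428427 z (n 0 z (n 0 z (n 0 z (n 0 z z))))))))))))) (n 269 (n 0 z (n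
 0 z (n 0 z (n 0 z (n 0 z (n 0 z (n 0 z (n 6561907 z (n 0 z (n 0 z (n 0 z (n 0 z (n 0 z
 z))))))))))))) z)))))))) (n 0 (n 0 z (n 0 z (n 535 (n 0 z (n 0 z (n 6424411 z (n 0 z (n 0 z (n
 0 z (n 0 z (n 0 z (n 0 z (n 0 z z)))))))))) (n 535 (n 0 z (n 0 z (n 0 z (n 0 z (n 6424395 z (n
 0 z (n 0 z (n 0 z (n 0 z (n 0 z z)))))))))) (n 293 (n 0 z (n 0 z (n 0 z (n 0 z (n 0 z (n 0 z (n
 0 z (n 0 z (n 0 z (n 0 z (n 0 z (n 0 z (n 0 z (n 0 z (n 0 z (n 0 z (n 0 z (n 0 z (n 0 z (n 0 z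
 (n 0 z (n 0 z (n 0 z (n 0 z (n 0 z (n 0 z (n 0 z (n 0 z z)))))))))))))))))))))))))))) (n 293 (n
 0 z (n 0 z (n 0 z (n 0 z (n 0 z (n 0 z (n 0 z (n 0 z (n 0 z (n 0 z (n 0 z (n 0 z (n 0 z (n 0 z
 (n 0 z (n 0 z (n 0 z (n 0 z (n 0 z (n 0 z (n 0 z (n 0 z (n 0 z (n 0 z (n 0 z (n 0 z (n 0 z (n 0
 z z)))))))))))))))))))))))))))) (n 293 (n 0 z (n 0 z (n
 0x8a76152a46e62b677832db7896eab526a5c67bd8486a2819b8d7880a1529cb15a7462a95f623f955aac8bcc78b4789c7f5c6586590049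
 z (n 0 z (n 0 z (n 0 z (n 0 z (n 0 z (n 0 z (n 0 z (n 0 z (n 0 z (n 0 z (n 0 z (n 0 z (n 0 z (n
 0 z (n 0 z (n 0 z (n 0 z (n 0 z (n 0 z (n 0 z (n 0 z (n 0 z (n 0 z (n 0 z (n 0 z
 z)))))))))))))))))))))))))))) z))))))) (n 0 (n 0 z (n 267 (n 0 z (n 0 z (n 0 z (n 0 z (n 0 z (n
 0 z (n 0 z (n 0 z (n 0 z (n 0 z (n 0 z (n 0 z (n 0 z (n 0 z (n 0 z (n 0 z (n 0 z (n 0 z (n 0 z
 (n 0 z (n 0 z (n 0 z (n 0 z (n 0 z (n 0 z (n 0 z (n 0 z (n 0 z (n 0 z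
 z))))))))))))))))))))))))))))) (n 267 (n 0 z (n 0 z (n 0 z (n 0 z (n 0 z (n 0 z (n 0 z (n 0 z
 (n 0 z (n 0 z (n 0 z (n 0 z (n 0 z (n 0 z (n 0 z (n 0 z (n 0 z (n 0 z (n 0 z (n 0 z (n 0 z (n 0
 z (n 0 z (n 0 z (n 0 z (n 0 z (n 0 z (n 0 z (n 0 z z))))))))))))))))))))))))))))) (n 269 (n 0 z
 (n 0 z (n 0 z (n 0 z (n 0 z (n 0 z (n 0 z (n 0 z z)))))))) (n 269 (n 0 z (n 0 z (n 0 z (n 0 z
 (n 2 (n 0 z z) (n 0 z (n 0 z (n 0 z z)))))))) (n 269 (n 0 z (n 0 z (n 0 z (n 0 z (n 0 z (n 0 z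
 (n 0 z (n 0 z z)))))))) z)))))) (n 0 (n 267 (n 0 z (n 0 z (n 0 z (n 0 z (n 0 z (n 0 z (n 0 z (n
 0 z (n 0 z (n 0 z (n 0 z (n 0 z (n 0 z (n 0 z (n 0 z (n 0 z (n 0 z (n 0 z (n 0 z (n 0 z (n 0 z
 (n 0 z (n 0 z z))))))))))))))))))))))) (n 267 (n 0 z (n 0 z (n 0 z (n 0 z (n 0 z (n 0 z (n 0 z
 (n 0 z (n 0 z (n 0 z (n 0 z (n 0 z (n 0 z (n 0 z (n
 0xec8ec80037f80807f807f81818080818080817f818081808080807f808080808080808080808080808080808081808180808180807f800809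
 z (n 0 z (n 0 z (n 0 z (n 0 z (n 0 z (n 0 z (n 0 z (n 0 z z))))))))))))))))))))))) (n 257 (n 0
 z (n 0 z (n 0 z (n 0 z (n 0 z (n 0 z (n 0 z (n 0 z (n 0 z (n 0 z (n 0 z (n 0 z (n 0 z
 z))))))))))))) (n 257 (n 0 z (n 0 z (n 0 z (n 0 z (n 2 (n 0 z z) (n 0 z (n 0 z (n 0 z (n 0 z (n
 0 z (n 0 z (n 0 z (n 0 z z))))))))))))) (n 257 (n 0 z (n 2 z (n 0 z (n 0 z (n 0 z (n 0 z (n 0 z
 (n 0 z (n 0 z (n 0 z (n 0 z (n 0 z (n 0 z z))))))))))))) z))))) (n 0 (n 0 z (n 5 (n 0 z (n 0 z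
 (n 2 (n 0 z (n 0 z z)) (n 0 z (n 0 z (n 0 z (n 0 z (n 0 z z)))))))) (n 5 (n 0 z (n 0 z (n 0 z
 (n 0 z (n 0 z (n 0 z (n 0 z (n 0 z z)))))))) (n 5 (n 0 z (n 0 z (n 0 z (n 0 z (n 0 z (n 0 z (n
 0 z (n 0 z z)))))))) z)))) (n 0 (n 5 (n 0 z (n 0 z (n 0 z (n 0 z (n 0 z (n 0 z (n 0 z (n 0 z (n
 0 z (n 0 z (n 0 z (n 0 z (n 0 z (n 0 z (n 0 z (n 0 z z)))))))))))))))) (n 5 (n 0 z (n 0 z (n 0
 z (n 0 z (n 0 z (n 0 z (n 0 z (n 0 z (n 2 (n 0 z z) (n 0 z (n 0 z (n 0 z (n 0 z (n 0 z (n 0 z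
 (n 0 z z)))))))))))))))) (n 5 (n 0 z (n 0 z (n 0 z (n 0 z (n 0 z (n 0 z (n 0 z (n 0 z (n 0 z (n
 0 z (n 0 z (n 0 z (n 0 z (n 0 z (n 0 z (n 0 z z)))))))))))))))) z))) (n 0 (n 0 z (n 0 z z)) (n
 0 (n 0 z z) (n 0 z z))))))))))) (n 0 (n 1 (n 3282443 z (n 3282443 z (n 6636299 z (n 3282443 z
 (n 3282443 z (n 3282443 z z)))))) (n 0 z z)) (n 0 z z)))) (n
 0x1b4568ca1544c54a1450d8228645042a28812a9809 (n 0 (n 279 (n 0 z (n 0 z (n 3282443 z z))) (n 255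
 (n 0 z (n 2 z (n 10 z (n 6562131 z (n 6562131 z z))))) (n 9 (n 0 z (n 0 z (n 18 z (n 0 z (n
 6562131 z (n 0 z z)))))) (n 243 (n 0 z (n 2164283 z z)) (n 1 (n 26 z (n 0 z (n 6562131 z z)))
 (n 0 (n 0 z (n 0 z (n 0 z (n 0 z (n 34 z (n
 0x4ca88602038607a08208208217e08618207e08208608208208208208608208208208607e08207e182081f0801 z
 (n 0 z (n
 0x6ca886420786082282082081f7a28617e27e08207e089f7e085f85e82082182086286081f8a07e08208210801 z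
 (n 42 z (n 0 z (n 0 z (n
 0x4ca88642078217df82082082081f82086082181f8208218208208208208207e17e082081f8207e08208200801 z
 (n 0 z (n 0 z (n 50 z (n 6619675 z (n 0 z (n 58 z z)))))))))))))))))) z)))))) (n 243 (n 0 (n 0
 z (n 347 (n 7741699 z (n 0 z (n 0 z (n 0 z (n 0 z (n 0 z z)))))) (n 345 (n 7741699 z (n 0 z (n
 0 z (n 0 z (n 0 z z))))) (n 253 (n 7741699 z (n 0 z (n 0 z (n 0 z (n 0 z (n 0 z z)))))) (n 253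
 (n 0 z (n 0 z (n 0 z (n 0 z (n 0 z (n 0 z z)))))) (n 253 (n 0 z (n 0 z (n 0 z (n 2 (n 0 z z) (n
 0 z (n 0 z z)))))) (n 253 (n 0 z (n 0 z (n 0 z (n 0 z (n 0 z (n 0 z z)))))) z))))))) (n 0 (n
 271 (n 0 z (n 0 z (n 0 z (n 0 z (n 0 z (n 0 z (n 0 z z))))))) (n 3 (n 0 z (n 0 z (n 0 z (n 0 z
 (n 0 z (n 0 z z)))))) (n 1 (n 0 z (n 0 z (n 0 z (n 0 z (n 0 z (n 0 z (n 0 z (n 0 z z)))))))) (n
 1 (n 0 z (n 0 z (n 2 (n 0 z (n 0 z z)) (n 0 z (n 0 z (n 0 z (n 0 z (n 0 z z)))))))) (n 1 (n 0 z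
 (n 0 z (n 0 z (n 0 z (n 0 z (n 0 z (n 0 z (n 0 z z)))))))) (n 1 (n 0 z (n 0 z (n 0 z (n 0 z (n
 0 z (n 0 z (n 0 z (n 2 z z)))))))) z)))))) (n 0 (n 51 (n 0 z (n 0 z (n 0 z (n 0 z (n 0 z z)))))
 (n 49 (n 0 z (n 0 z (n 0 z (n 0 z (n 0 z (n 0 z (n 0 z (n 0 z (n 0 z z))))))))) (n 49 (n 0 z (n
 0 z (n 0 z (n 0 z (n 0 z (n 0 z (n 0 z (n 0 z (n 0 z z))))))))) (n 49 (n 0 z (n 0 z (n 0 z (n 0
 z (n 0 z (n 0 z (n 2 (n 0 z z) (n 0 z (n 0 z z))))))))) (n 49 (n 0 z (n 0 z (n 0 z (n 0 z (n 0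
 z (n 0 z (n 0 z (n 0 z (n 7673403 z z))))))))) z))))) (n 0 (n 53 (n 0 z (n 0 z (n 0 z (n 0 z (n
 0 z (n 0 z (n 0 z (n 0 z (n 0 z (n 0 z (n 0 z (n 0 z (n 0 z (n 0 z (n 0 z (n 0 z (n 0 z (n 0 z
 (n 0 z (n 0 z (n 0 z (n 0 z (n 0 z (n 0 z (n 0 z (n 0 z z)))))))))))))))))))))))))) (n 53 (n 0
 z (n 0 z (n 0 z (n 0 z (n 0 z (n 0 z (n 0 z (n 0 z (n 0 z (n 0 z (n 0 z (n 0 z (n 0 z (n 0 z (n
 0 z (n 0 z (n 0 z (n 0 z (n 0 z (n 0 z (n 0 z (n 0 z (n 0 z (n 0 z (n 2 (n 0 z (n 0 z z)) (n 0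
 z z)))))))))))))))))))))))))) (n 53 (n 0 z (n 0 z (n 0 z (n 0 z (n 0 z (n 0 z (n 0 z (n 0 z (n
 0 z (n 0 z (n 0 z (n 0 z (n 0 z (n 0 z (n 0 z (n 0 z (n 0 z (n 0 z (n 0 z (n 0 z (n 0 z (n 0 z
 (n 0 z (n 0 z (n 0 z (n 0 z z)))))))))))))))))))))))))) (n 53 (n 0 z (n 0 z (n 0 z (n 0 z (n 0
 z (n 0 z (n 0 z (n 0 z (n 0 z (n 0 z (n 0 z (n 0 z (n 0 z (n 0 z (n 0 z (n 0 z (n 0 z (n 0 z (n
 0 z (n 0 z (n 0 z (n 0 z (n 0 z (n 0 z (n 0 z (n 7673403 z z)))))))))))))))))))))))))) z)))) (n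
 0 (n 0 z (n 0 z (n 0 z z))) (n 0 (n 0 z (n 0 z z)) (n 0 (n 0 z z) (n 0 z z)))))))) (n 0 (n 0 z
 (n 1 (n 2164283 z (n 2164283 z (n 2164283 z (n 2164283 z (n 2164283 z (n 2164283 z z)))))) z))
 (n 0 z z)))) (n 0x1b4768ce1744c5ca1c70d8238647042a38c12e9809 (n 0 (n 279 (n 0 z (n 0 z (n 0 z
 (n 3282443 z z)))) (n 255 (n 0 z (n 2 z (n 10 z (n 6562131 z (n 6562131 z z))))) (n 9 (n 0 z (n
 0 z (n 0 z (n 0 z (n 18 z (n 0 z (n 0 z (n 6562131 z (n 0 z z))))))))) (n 243 (n 0 z (n 0 z (n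
 0 z (n 2164283 z z)))) (n 1 (n 0 z (n 0 z (n 0 z (n 26 z (n 0 z (n 6562131 z z)))))) (n 0 (n 0
 z (n
 0x1909904c060321b21901ca643643101aac868642079a59a76e46997616df7a5a1f85a8dc7598656a68256a07e495e96299d9a09dd7e281789f7212001
 z (n 0 z (n 0 z (n 0 z (n 0 z (n 34 z (n
 0x56544103038ac868602078dd6e28e585f8207df8206e279e65f79f7dd92086282482399d8e079f82081c7e275d82189d1001
 z (n 0 z (n
 0xaca886420786082382181f81f7628a17e27a08207e189f79f85f85d7e18618208638607df86179f8207e10801 z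
 (n 0 z (n 42 z (n 0 z (n 0 z (n 0 z (n 0 z (n
 0x6ca886420381f8a08218208608608207df85e81f7e082082086082086082185f8218207e182186086181f0801 z
 (n 0 z (n 6619675 z (n 0 z (n 0 z (n 0 z (n 0 z (n 50 z (n 6619675 z (n 0 z (n 0 z (n 58 z
 z)))))))))))))))))))))))))))) z)))))) (n 279 (n 0 (n 0 z (n 347 (n 7741699 z (n 0 z (n 0 z (n 0
 z (n 0 z (n 0 z (n 0 z z))))))) (n 345 (n 0 z (n 7741699 z (n 0 z (n 0 z (n 0 z (n 0 z z))))))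
 (n 253 (n 0 z (n 7741699 z (n 0 z (n 0 z (n 0 z (n 0 z (n 0 z (n 0 z z)))))))) (n 253 (n 0 z (n
 0 z (n 0 z (n 0 z (n 0 z (n 0 z (n 0 z (n 0 z z)))))))) (n 253 (n 0 z (n 0 z (n 0 z (n 0 z (n 0
 z (n 2 (n 0 z z) (n 0 z (n 0 z z)))))))) (n 253 (n 0 z (n 0 z (n 0 z (n 0 z (n 0 z (n 0 z (n 0
 z (n 0 z z)))))))) z))))))) (n 0 (n 271 (n 0 z (n 0 z (n 0 z (n 0 z (n 0 z (n 0 z (n 0 z
 z))))))) (n 3 (n 0 z (n 0 z (n 0 z (n 0 z (n 0 z z))))) (n 1 (n 0 z (n 0 z (n 0 z (n 0 z (n 0 z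
 (n 0 z (n 0 z (n 0 z (n 0 z z))))))))) (n 1 (n 0 z (n 0 z (n 0 z (n 2 (n 0 z (n 0 z z)) (n 0 z
 (n 0 z (n 0 z (n 0 z (n 0 z z))))))))) (n 1 (n 0 z (n 0 z (n 0 z (n 0 z (n 0 z (n 0 z (n 0 z (n
 0 z (n 0 z z))))))))) (n 1 (n 0 z (n 0 z (n 0 z (n 0 z (n 0 z (n 0 z (n 0 z (n 0 z (n 2 z
 z))))))))) z)))))) (n 0 (n 51 (n 0 z (n 0 z (n 0 z (n 0 z z)))) (n 49 (n 0 z (n 0 z (n 0 z (n 0
 z (n 0 z (n 0 z (n 0 z (n 0 z (n 0 z z))))))))) (n 49 (n 0 z (n 0 z (n 0 z (n 0 z (n 0 z (n 0 z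
 (n 0 z (n 0 z (n 0 z z))))))))) (n 49 (n 0 z (n 0 z (n 0 z (n 0 z (n 0 z (n 0 z (n 2 (n 0 z z)
 (n 0 z (n 0 z z))))))))) (n 49 (n 0 z (n 0 z (n 0 z (n 0 z (n 0 z (n 0 z (n 0 z (n 0 z (n
 7673403 z z))))))))) z))))) (n 0 (n 53 (n 0 z (n 0 z (n 0 z (n 0 z (n 0 z (n 0 z (n 0 z (n 0 z
 (n 0 z (n 0 z (n 0 z (n 0 z (n 0 z (n 0 z (n 0 z (n 0 z (n 0 z (n 0 z z)))))))))))))))))) (n 53
 (n 0 z (n 0 z (n 0 z (n 0 z (n 0 z (n 0 z (n 0 z (n 0 z (n 0 z (n 0 z (n 0 z (n 0 z (n 0 z (n 0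
 z (n 0 z (n 2 (n 0 z (n 0 z z)) (n 0 z (n 0 z z)))))))))))))))))) (n 53 (n 0 z (n 0 z (n 0 z (n
 0 z (n 0 z (n 0 z (n 0 z (n 0 z (n 0 z (n 0 z (n 0 z (n 0 z (n 0 z (n 0 z (n 0 z (n 0 z (n 0 z
 (n 0 z z)))))))))))))))))) (n 53 (n 0 z (n 0 z (n 0 z (n 0 z (n 0 z (n 0 z (n 0 z (n 0 z (n 0 z
 (n 0 z (n 0 z (n 0 z (n 0 z (n 0 z (n 0 z (n 0 z (n 0 z (n 7673403 z z)))))))))))))))))) z))))
 (n 0 (n 0 z (n 0 z (n 0 z z))) (n 0 (n 0 z (n 0 z z)) (n 0 (n 0 z z) (n 0 z z)))))))) (n 0 (n 0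
 z (n 0 z (n 0 z (n 1 (n 3282443 z (n 3282443 z (n 3282443 z (n 3282443 z (n 3282443 z (n
 3282443 z z)))))) z)))) (n 0 z z)))) (n 0x19926bc092de6094740f22d60ce25844c4c22f3209 (n 0 (n
 443 (n 0 z (n 3282443 z z)) (n 437 (n
 0x1753265040182b29298200c1594d50c80e22ca8a8040396886e9890877a667d849f846f9780896f807f687b7b878778707f7b978c78ac7b83796e78827f7c937680787577868a767e2009
 z (n 2 z (n 3278363 z (n 10 z (n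
 0x6a62083828083808483817f7c83807c877e80837c83807f86827f7e82817e8781857e827e878a8084837c807f83827f7c827780850049
 z (n 18 z (n
 0x6a64383828083808483817f7c83807c877e80837c83807f86827f7e82817e8781857e827e878a8084837c807f83827f7c827780850049
 z (n 26 z z)))))))) (n 131 (n 0 z (n 0 z (n 0 z (n 6631955 z (n 0 z (n 34 z (n 42 z (n 6631955
 z z)))))))) (n 3 (n 0 z (n 6631955 z (n 50 z (n 0 z z)))) (n 1 (n 0 z (n 0 z (n 0 z (n 6559019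
 z z)))) (n 0 (n 0 z (n 0 z (n 0 z (n 0 z (n 0 z (n 0 z (n 0 z (n 58 z (n 6631955 z (n 0 z
 z)))))))))) z)))))) (n 443 (n 0 (n 0 z (n 0 z (n 0 z (n 867 (n 0 z (n 7754307 z (n 0 z (n 0 z
 (n 0 z (n 0 z z)))))) (n 867 (n 0 z (n 0 z (n 0 z (n 0 z (n 0 z (n 0 z z)))))) (n 251 (n 0 z (n
 0 z (n 0 z (n 0 z (n 0 z (n 0 z (n 0 z (n 0 z (n 0 z z))))))))) (n 1 (n 0 z (n 0 z (n 0 z (n 0
 z (n 0 z (n 0 z (n 0 z z))))))) z))))))) (n 0 (n 0 z (n 0 z (n 867 (n 0 z (n 0 z (n 0 z (n 0 z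
 (n 2 (n 0 z (n 1 z (n 1 z z))) (n 0 z (n 0 z (n 0 z (n 0 z (n 0 z (n 0 z (n 0 z (n 0 z (n 0 z
 (n 0 z (n 0 z (n 0 z (n 0 z (n 0 z (n 0 z (n 0 z z))))))))))))))))))))) (n 867 (n 0 z (n 0 z (n
 0 z (n 0 z (n 0 z (n 0 z (n 0 z (n 0 z (n 2 (n 1 z (n 1 z z)) (n 0 z (n 0 z (n 0 z (n 0 z (n 0
 z (n 0 z (n 0 z (n 0 z (n 0 z (n 0 z (n 0 z (n 0 z z))))))))))))))))))))) (n 55 (n 0 z (n 0 z
 (n 0 z (n 0 z (n 0 z (n 6428427 z (n 0 z (n 0 z z)))))))) (n 49 (n 0 z (n 0 z (n 0 z (n 0 z (n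
 0 z (n 0 z (n 0 z (n 0 z (n 0 z (n 0 z (n 0 z (n 0 z (n 0 z (n 0 z (n 0 z (n 0 z (n 0 z (n 0 z
 (n 0 z (n 6428427 z (n 0 z z))))))))))))))))))))) z)))))) (n 0 (n 0 z (n 795 (n 0 z (n 0 z (n 0
 z (n 0 z (n 0 z z))))) (n 795 (n 0 z (n 0 z (n 2 (n 1 z (n 1 z z)) (n 0 z (n 0 z z))))) (n 55
 (n 0 z (n 0 z (n 0 z (n 2 (n 1 z z) z)))) (n 361 (n 0 z (n 0 z (n 0 z (n 0 z (n 0 z (n 0 z (n 0
 z (n 0 z z)))))))) z))))) (n 0 (n 879 (n 0 z (n 2 (n 0 z (n 1 z (n 1 z z))) (n 0 z (n 0 z (n 0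
 z (n 0 z (n 0 z (n 0 z z)))))))) (n 879 (n 0 z (n 0 z (n 0 z (n 0 z (n 0 z (n 0 z (n 0 z (n 0 z
 z)))))))) (n 441 (n 0 z (n 0 z (n 0 z (n 0 z (n 0 z (n 0 z (n 0 z (n 0 z (n 0 z (n 0 z (n 0 z
 (n 0 z (n 0 z (n 0 z z)))))))))))))) (n 865 (n 2 z (n 0 z (n 0 z (n 0 z (n 0 z (n 0 z z))))))
 z)))) (n 0 (n 0 z (n 1311 (n 0 z (n 0 z (n 7754307 z z))) (n 17 (n 0 z (n 0 z (n 0 z (n 7754307
 z z)))) z))) (n 0 (n 299 (n 0 z (n 0 z (n 0 z z))) (n 1 (n 0 z (n 0 z (n 0 z (n 0 z (n 0 z (n 0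
 z (n 0 z (n 0 z z)))))))) z)) (n 0 (n 97 (n 0 z (n 0 z (n 0 z (n 0 z z)))) z) (n 0 z z))))))))
 (n 0 (n 0 z (n 1 (n 3282443 z (n 3282443 z (n 3282443 z (n 3282443 z (n 3282443 z (n 3282443 z
 z)))))) z)) (n 0 z z)))) (n 0x6849b0424c98125cd0128ea26463c21c4c0c9ae0666841334240 (n 0x26849
 (n 443 (n 2 z (n 0 z (n 3282443 z z))) (n 437 (n 10 z (n 0 z (n 0 z (n 0 z (n 4392475 z (n 0 z
 (n 0 z (n 0 z (n 0 z (n 0 z (n 0 z (n 0 z (n 3278363 z (n 0 z (n 0 z (n 0 z (n 0 z (n 18 z (n 0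
 z (n 0 z (n 0 z (n 26 z (n 0 z (n 0 z (n 34 z (n 0 z z)))))))))))))))))))))))))) (n 131 (n
 6631955 z (n 0 z (n 0 z (n 42 z (n 50 z (n 4392491 z (n 6631955 z z))))))) (n 3 (n 0 z (n 0 z
 (n 6631955 z (n 58 z z)))) (n 1 (n 0 z (n 66 z (n 0 z (n 6559019 z z)))) (n 0 (n
 0x6c84c64207808080808281807f7f80807e80807e7f81817f82808080807f80817e80807f7f81808080808081807f80807f8080828080820809
 z (n
 0x2cca68604032e65441020185321321080c5d9098c840e16c64c402038e73807b735c6995a35e6a88a15a6e698182a495977f797c938d9f9c5271b569987581a5898684746d8e8c74696e988c737a2809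
 z (n 6631955 z (n 0 z (n 6631955 z (n 0 z (n
 0x10ca88204077f8280817f807f82807e7c7f837d807f8380818282817e7f818480837c7f837a7b7f7f838280817f7e808381817f807f827f0809
 z (n 0 z (n
 0x1b61080808081818180807f80807f807f80817f80808080828182807f808181807e808081817e808081818280808081827f7f827f0049
 z (n 0 z (n 74 z (n 0 z (n 6631955 z z))))))))))))) z)))))) (n 443 (n 0 (n 71 (n 0 z (n 0 z (n
 0 z (n 0 z (n 0 z (n 0 z (n 0 z (n 0 z (n 0 z (n 0 z (n 0 z (n 0 z (n 0 z (n 0 z (n 0 z (n 0 z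
 (n 0 z (n 0 z (n 0 z (n 0 z (n 0 z (n 0 z (n 0 z (n 0 z (n 0 z (n 0 z (n 0 z (n 0 z (n 0 z (n 0
 z (n 0 z (n 0 z z)))))))))))))))))))))))))))))))) (n 71 (n 0 z (n 0 z (n 0 z (n 0 z (n 0 z (n 0
 z (n 0 z (n 0 z (n 0 z (n 0 z (n 0 z (n 0 z (n 0 z (n 0 z (n 0 z (n 0 z (n 0 z (n 0 z (n 0 z (n
 0 z (n 0 z (n 0 z (n 0 z (n 0 z (n 0 z (n 0 z (n 0 z (n 7476747 z (n 0 z (n 0 z (n 0 z (n 0 z
 z)))))))))))))))))))))))))))))))) (n 71 (n 0 z (n 0 z (n 0 z (n 0 z (n 0 z (n 0 z (n 0 z (n 0 z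
 (n 0 z (n 0 z (n 0 z (n 0 z (n 0 z (n 0 z (n 0 z (n 0 z (n 0 z (n 0 z (n 0 z (n 0 z (n 0 z (n 0
 z (n 0 z (n 0 z (n 0 z (n 0 z (n 0 z (n 0 z (n 0 z (n 0 z (n 0 z (n 0 z
 z)))))))))))))))))))))))))))))))) (n 71 (n 0 z (n 0 z (n 0 z (n 0 z (n 0 z (n 0 z (n 0 z (n 0 z
 (n 0 z (n 0 z (n 0 z (n 0 z (n 0 z (n 0 z (n 0 z (n 0 z (n 0 z (n 0 z (n 0 z (n 0 z (n 0 z (n 2
 (n 2 (n 0 z (n 0 z (n 0 z (n 0 z (n 0 z (n 0 z z)))))) (n 1 z (n 1 z (n 1 z (n 1 z z))))) (n 0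
 z (n 0 z (n 0 z (n 0 z (n 0 z (n 0 z (n 0 z (n 0 z (n 0 z (n 0 z
 z)))))))))))))))))))))))))))))))) (n 263 (n 0 z (n 0 z (n 0 z (n 0 z (n 0 z (n 0 z (n 7754307 z
 (n 0 z (n 0 z z))))))))) (n 263 (n 0 z (n 0 z (n 0 z (n 0 z (n 0 z (n 0 z (n 0 z (n 0 z (n 0 z
 z))))))))) (n 11 (n 0 z (n 0 z (n 0 z (n 0 z z)))) (n 3 (n 0 z (n 0 z (n 0 z (n 0 z (n 0 z
 z))))) (n 1 (n 0 z (n 0 z (n 0 z (n 0 z (n 0 z (n 0 z (n 0 z (n 0 z (n 0 z (n 0 z (n 0 z (n 0 z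
 (n 0 z (n 0 z (n 0 z z))))))))))))))) z))))))))) (n 0 (n 0 z (n 0 z (n 0 z (n 867 (n 0 z (n
 7754307 z (n 0 z (n 0 z (n 0 z (n 0 z z)))))) (n 867 (n 0 z (n 0 z (n 0 z (n 0 z (n 0 z (n 0 z
 z)))))) (n 251 (n 0 z (n 0 z (n 0 z (n 0 z (n 0 z (n 0 z (n 0 z (n 0 z (n 0 z (n 0 z (n 0 z (n
 0 z (n 0 z (n 0 z (n 0 z (n 0 z (n 0 z (n 0 z (n 0 z (n 0 z (n 0 z (n 0 z (n 0 z (n 0 z (n 0 z
 (n 0 z (n 0 z (n 0 z (n 0 z (n 0 z (n 0 z (n 0 z (n 0 z (n 0 z (n 0 z (n 0 z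
 z)))))))))))))))))))))))))))))))))))) (n 3 (n 0 z (n 0 z (n 0 z (n 0 z (n 0 z (n 0 z (n 0 z (n
 0 z (n 0 z (n 0 z (n 0 z (n 0 z (n 0 z (n 0 z (n 0 z (n 0 z (n 0 z (n 0 z (n 0 z (n 0 z (n 0 z
 (n 0 z (n 0 z (n 0 z (n 0 z (n 0 z (n 0 z (n 0 z (n 0 z z))))))))))))))))))))))))))))) (n 1 (n
 0 z (n 0 z (n 0 z (n 0 z (n 0 z (n 0 z (n 0 z (n 0 z z)))))))) z)))))))) (n 0 (n 0 z (n 0 z (n
 867 (n 0 z (n 0 z (n 0 z (n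
 0x5d91d9000e02ea8ec6007807f808180818081807f7f7d83807c808080808380817f7f80808083807e827d81818083827f8080807e80808180817d82811009
 z (n 0 z (n 0 z (n 0 z (n 0 z (n 0 z (n 0 z (n 0 z (n 0 z (n 0 z (n 0 z (n 0 z (n 0 z (n 0 z (n
 0 z (n 0 z (n 0 z (n 0 z (n 0 z (n 0 z (n 0 z (n 0 z (n 0 z (n 0 z (n 0 z (n 0 z (n 0 z (n 0 z
 (n 0 z z)))))))))))))))))))))))))))))))) (n 867 (n 0 z (n 0 z (n 0 z (n 0 z (n 0 z (n 0 z (n 0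
 z (n 0 z (n 0 z (n 0 z (n 0 z (n 0 z (n 0 z (n 0 z (n 0 z (n 0 z (n 0 z (n 0 z (n 0 z (n 0 z (n
 0 z (n 2 (n 1 z (n 1 z (n 1 z z))) (n 0 z (n 0 z (n 0 z (n 0 z (n 0 z (n 0 z (n 0 z (n 0 z (n 0
 z (n 0 z z)))))))))))))))))))))))))))))))) (n 55 (n 0 z (n 0 z (n 0 z (n 0 z (n 0 z (n 0 z (n 0
 z (n 0 z (n 0 z (n 0 z (n 0 z (n 0 z (n 0 z (n 0 z (n 0 z (n 0 z (n 0 z (n 0 z (n 0 z (n 0 z (n
 0 z (n 6428427 z (n 0 z (n 0 z (n 0 z (n 0 z z)))))))))))))))))))))))))) (n 457 (n 0 z (n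
 0x5d5194c80602ea8a2040381828081817f7f7f7f81827f7e8281827f81807e807f817f807f7f7f84807f8382807f7c8081827e8280817f7e807f827f7f1009
 z (n 6428427 z (n 0 z (n 0 z (n 0 z (n 0 z (n 0 z (n 0 z (n 0 z (n 0 z (n 0 z (n 0 z (n 0 z (n
 0 z (n 0 z (n 0 z (n 0 z (n 0 z (n 0 z (n 0 z (n 0 z (n 0 z (n 0 z (n 0 z (n 0 z (n 0 z (n 0 z
 (n 0 z (n 0 z (n 0 z (n 0 z z)))))))))))))))))))))))))))))))) (n 49 (n 0 z (n 0 z (n 0 z (n 0 z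
 (n 0 z (n 0 z (n 0 z (n 0 z (n 0 z (n 0 z (n 0 z (n 0 z (n 0 z (n 0 z (n 0 z (n 0 z (n 0 z (n 0
 z (n 0 z (n 0 z (n 0 z (n 0 z (n 0 z (n 0 z (n 0 z (n 0 z (n 0 z (n 0 z (n 0 z (n 0 z (n
 6428427 z (n 0 z z)))))))))))))))))))))))))))))))) z))))))) (n 0 (n 0 z (n 795 (n 0 z (n 0 z (n
 0 z (n 0 z (n 0 z (n 0 z z)))))) (n 795 (n 0 z (n 0 z (n 2 (n 1 z (n 1 z (n 1 z z))) (n 0 z (n
 0 z (n 0 z z)))))) (n 55 (n 0 z (n 0 z (n 0 z (n 0 z (n 2 (n 1 z (n 1 z z)) z))))) (n 339 (n 0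
 z (n 0 z (n 0 z (n 0 z (n 0 z (n 0 z (n 0 z (n 0 z z)))))))) (n 361 (n 0 z (n 0 z (n 0 z (n 0 z
 (n 0 z (n 0 z (n 0 z (n 0 z (n 0 z (n 0 z z)))))))))) z)))))) (n 0 (n 879 (n 0 z (n 2 (n 0 z (n
 1 z (n 1 z (n 1 z z)))) (n 0 z (n 0 z (n 0 z (n 0 z (n 0 z z))))))) (n 879 (n 0 z (n 0 z (n 0 z
 (n 0 z (n 0 z (n 0 z (n 0 z z))))))) (n 441 (n 0 z (n 0 z (n 0 z (n 0 z (n 0 z (n 0 z (n 0 z (n
 0 z (n 0 z (n 0 z (n 0 z (n 0 z (n 0 z (n 0 z (n 0 z (n 0 z (n 0 z (n 0 z (n 0 z (n 0 z (n 0 z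
 (n 0 z (n 0 z (n 0 z (n 0 z (n 0 z (n 0 z (n 0 z (n 0 z (n 0 z (n 0 z (n 0 z
 z)))))))))))))))))))))))))))))))) (n 457 (n 0 z (n 0 z (n 0 z (n 0 z z)))) (n 865 (n 2 z (n 0 z
 (n 0 z (n 0 z (n 0 z (n 0 z (n 0 z (n 0 z (n 0 z z))))))))) z))))) (n 0 (n 0 z (n 1311 (n 0 z
 (n 0 z (n 7754307 z z))) (n 261 (n 0 z (n 0 z (n 0 z (n 0 z (n 6428427 z (n 0 z z)))))) (n 17
 (n 0 z (n 0 z (n 0 z (n 0 z (n 0 z (n 0 z (n 0 z (n 7754307 z z)))))))) z)))) (n 0 (n 299 (n 0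
 z (n 0 z (n 0 z (n 0 z z)))) (n 243 (n 0 z (n 0 z (n 0 z (n 0 z (n 0 z (n 0 z (n 0 z (n 0 z (n
 0 z (n 0 z z)))))))))) (n 1 (n 0 z (n 0 z (n 0 z (n 0 z (n 0 z (n 0 z (n 0 z (n 0 z (n 0 z (n 0
 z z)))))))))) z))) (n 0 (n 723 (n 0 z (n 0 z (n 0 z (n 0 z (n 0 z (n 0 z z)))))) (n 97 (n 0 z
 (n 0 z (n 0 z (n 0 z (n 0 z (n 0 z (n 0 z (n 0 z z)))))))) z)) (n 0 (n 145 (n 0 z (n 0 z (n 0 z
 (n 0 z (n 0 z z))))) z) (n 0 z z)))))))))) (n 0 (n 1 (n 2 z (n 3500 z (n 3500 z (n 3500 z (n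
 4392539 z (n 3500 z z)))))) (n 0 z (n 1 (n 3282443 z (n 3282443 z (n 3282443 z (n 3282443 z (n
 3282443 z (n 3282443 z z)))))) z))) (n 0 (n 0 (n 0 (n 0 (n 7741699 z (n 7741699 z (n 7741699 z
 (n 7741699 z (n 7741699 z (n 7741699 z z)))))) z) (n 0 (n 443 (n 1 (n 7754307 z (n 7754307 z (n
 7754307 z (n 7754307 z (n 7754307 z (n 7754307 z z)))))) (n 0 z (n 1 (n 7475299 z (n 3282699 z
 (n 3282699 z (n 3282699 z (n 3282699 z (n 3282699 z z)))))) z))) (n 433 (n 1 (n 7476747 z (n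
 7476747 z (n 6496371 z (n 7476747 z (n 7476747 z (n 7476747 z z)))))) (n 1 (n 7754307 z (n
 7754307 z (n 7754307 z (n 7754307 z (n 7754307 z (n 7754307 z z)))))) (n 1 (n 7741699 z (n
 7741699 z (n 7741699 z (n 7741699 z (n 7741699 z (n 7741699 z z)))))) (n 1 (n 1244 z (n 1244 z
 (n 1244 z (n 1244 z (n 7607595 z (n 7603755 z z)))))) (n 1 (n 7741699 z (n 7741699 z (n 7741699
 z (n 7741699 z (n 7741699 z (n 7741699 z z)))))) (n 1 (n 1244 z (n 1244 z (n 1244 z (n 1244 z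
 (n 7603755 z (n 7607595 z z)))))) z)))))) (n 149 (n 1 (n 7680531 z (n 7680531 z (n 7680531 z (n
 7680531 z (n 7680531 z (n 7680531 z z)))))) (n 1 (n 7754307 z (n 7754307 z (n 7754307 z (n
 7754307 z (n 7754307 z (n 7754307 z z)))))) (n 1 (n 7741699 z (n 7741699 z (n 7741699 z (n
 7741699 z (n 7741699 z (n 7741699 z z)))))) (n 1 (n 7741699 z (n 7741699 z (n 7741699 z (n
 7741699 z (n 7741699 z (n 7741699 z z)))))) z)))) (n 395 (n 1 (n 7741699 z (n 7680531 z (n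
 7680531 z (n 7680531 z (n 7680531 z (n 7680531 z z)))))) (n 0 z (n 0 z (n 1 (n 7741699 z (n
 7475299 z (n 7475299 z (n 7475299 z (n 7475299 z (n 7475299 z z)))))) z)))) (n 1 (n 0 z (n 1 (n
 7741699 z (n 7741699 z (n 7741699 z (n 7741699 z (n 7741699 z (n 7741699 z z)))))) (n 0 z (n 1
 (n 7475299 z (n 7607595 z (n 7607595 z (n 7476747 z (n 7607595 z (n 7607595 z z)))))) z)))) (n
 96 (n 1 (n 7603755 z (n 7603755 z (n 7603755 z (n 7603755 z (n 7603755 z (n 7754307 z z))))))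
 (n 0 z (n 1 (n 7680531 z (n 7680531 z (n 7680531 z (n 7680531 z (n 7680531 z (n 7680531 z
 z)))))) (n 1 (n 5068 z (n 5068 z (n 5068 z (n 5068 z (n 5068 z (n 7754307 z z)))))) (n 0 z
 z))))) (n 443 (n 1 (n 7741699 z (n 7754307 z (n 7754307 z (n 7754307 z (n 7754307 z (n 7754307
 z z)))))) (n 0 z (n 1 (n 7741699 z (n 3282699 z (n 3282699 z (n 3282699 z (n 3282699 z (n
 3282699 z z)))))) z))) z))))))) (n 0 z (n 0 (n 155 (n 0 z (n 0 z (n 0 z (n 0 z (n 0 z (n 0 z (n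
 0 z (n 0 z (n 0 z (n 0 z (n 0 z (n 0 z (n 0 z (n 0 z (n 0 z (n 0 z (n 0 z (n 0 z (n 0 z (n 0 z
 (n 0 z (n 0 z (n 0 z (n 0 z (n 0 z (n 0 z (n 0 z (n 0 z (n 0 z (n 0 z (n 0 z (n 0 z
 z)))))))))))))))))))))))))))))))) (n 155 (n 0 z (n 0 z (n 0 z (n 0 z (n 0 z (n 0 z (n 0 z (n 0
 z (n 0 z z))))))))) (n 435 (n 0 z (n 0 z (n 0 z (n 0 z (n 0 z (n 0 z z)))))) (n 395 (n 0 z (n 0
 z (n 0 z (n 0 z z)))) (n 371 (n 0 z (n 0 z (n 0 z (n 0 z (n 0 z (n 0 z (n 0 z (n 0 z (n 0 z (n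
 0 z (n 0 z (n 0 z (n 0 z (n 0 z (n 0 z (n 0 z (n 0 z (n 0 z (n 0 z (n 0 z (n 0 z (n 0 z (n 0 z
 (n 0 z (n 0 z (n 0 z (n 0 z (n 0 z (n 0 z (n 0 z (n 0 z (n 0 z (n 0 z (n 0 z (n 0 z (n 0 z
 z)))))))))))))))))))))))))))))))))))) (n 173 (n 0 z (n 0 z (n 0 z (n 0 z z)))) (n 513 (n 0 z (n
 0 z (n 0 z (n 0 z (n 0 z z))))) (n 81 (n 0 z (n 0 z (n 0 z (n 0 z (n 0 z (n 0 z (n 0 z (n 0 z
 (n 0 z (n 0 z (n 0 z (n 0 z (n 0 z (n 0 z (n 0 z (n 0 z (n 0 z (n 0 z (n 0 z (n 0 z (n 0 z (n 0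
 z (n 0 z (n 0 z (n 0 z (n 0 z (n 0 z (n 0 z (n 0 z z))))))))))))))))))))))))))))) (n 135 (n 0 z
 (n 0 z (n 0 z (n 0 z (n 0 z (n 0 z (n 0 z (n 0 z (n 0 z (n 0 z z)))))))))) (n 481 (n 0 z (n 0 z
 (n 0 z (n 0 z (n 0 z (n 0 z z)))))) (n 633 (n 0 z (n 0 z (n 0 z (n 0 z (n 0 z (n 0 z (n 0 z (n
 0 z (n 0 z (n 0 z (n 0 z (n 0 z (n 0 z (n 0 z (n 0 z z))))))))))))))) (n 105 (n 0 z (n 0 z (n 0
 z (n 0 z (n 0 z (n 0 z (n 0 z (n 0 z z)))))))) (n 21 (n 0 z (n 0 z (n 0 z (n 0 z (n 0 z (n 0 z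
 (n 0 z (n 0 z (n 0 z (n 0 z z)))))))))) (n 97 (n 0 z (n 0 z (n 0 z (n 0 z (n 0 z (n 0 z (n 0 z
 (n 0 z z)))))))) (n 96 (n 0 z (n 0 z (n 0 z (n 0 z (n 0 z z))))) (n 443 (n 0 z (n 0 z (n 0 z
 z))) (n 437 (n 0 z (n 0 z (n 0 z (n 0 z (n 0 z (n 0 z (n 0 z (n 0 z (n 0 z (n 0 z (n 0 z (n 0 z
 (n 0 z (n 0 z (n 0 z (n 0 z (n 0 z (n 0 z (n 0 z (n 0 z (n 0 z (n 0 z (n 0 z (n 0 z (n 0 z (n 0
 z z)))))))))))))))))))))))))) (n 131 (n 0 z (n 0 z (n 0 z (n 0 z (n 0 z (n 0 z (n 0 z z)))))))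
 (n 3 (n 0 z (n 0 z (n 0 z (n 0 z z)))) (n 1 (n 0 z (n 0 z (n 0 z (n 0 z z)))) (n 0 (n 0 z (n 0
 z (n 0 z (n 0 z (n 0 z (n 0 z (n 0 z (n 0 z (n 0 z (n 0 z (n 0 z (n 0 z (n 0 z z)))))))))))))
 z))))))))))))))))))))) z)))) z) z)))) (n 0x1a24acc124e68124b513251e10e4a0655703334411 (n 0 (n
 443 (n 0 z (n 3282443 z z)) (n 437 (n 0 z (n 0 z (n 2 z (n 0 z (n 3278363 z (n 0 z (n 0 z (n 0
 z (n 0 z (n 10 z (n 0 z (n 0 z (n 18 z (n 0 z (n 0 z (n 26 z (n 0 z z))))))))))))))))) (n 131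
 (n 6631955 z (n 0 z (n 0 z (n 34 z (n 42 z (n 6631955 z z)))))) (n 3 (n 0 z (n 0 z (n 6631955 z
 (n 50 z (n 0 z (n 0 z (n 0 z z))))))) (n 1 (n 0 z (n 0 z (n 0 z (n 0 z (n 0 z (n 6559019 z (n 0
 z z))))))) (n 0 (n
 0x8c84c8420781f8229207e086289f81f81f76185f76086181e7df8a18238207de86086282085e81e89f85e0801 z
 (n 0 z (n 0 z (n 0 z (n 0 z (n 0 z (n 0 z (n 0 z (n 58 z (n 0 z (n 6631955 z z)))))))))))
 z)))))) (n 443 (n 0 (n 0 z (n 0 z (n 0 z (n 867 (n 0 z (n 7754307 z (n 0 z (n 0 z (n 0 z (n 0 z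
 z)))))) (n 867 (n 0 z (n 0 z (n 0 z (n 0 z (n 0 z (n 0 z z)))))) (n 251 (n 0 z (n 0 z (n 0 z (n
 0 z (n 0 z (n 0 z (n 0 z (n 0 z (n 0 z (n 0 z (n 0 z (n 0 z (n 0 z (n 0 z (n 0 z (n 0 z (n 0 z
 (n 0 z (n 0 z z))))))))))))))))))) (n 1 (n 0 z (n 0 z (n 0 z (n 0 z (n 0 z (n 0 z (n 0 z
 z))))))) z))))))) (n 0 (n 0 z (n 0 z (n 867 (n 0 z (n 0 z (n 0 z (n 0 z (n 0 z (n 0 z (n 0 z (n
 0 z (n 0 z (n 0 z (n 0 z (n 0 z (n 0 z (n 0 z (n 0 z (n 0 z (n 0 z (n 0 z (n 0 z (n 0 z (n 0 z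
 (n 0 z (n 0 z (n 0 z (n 0 z (n 0 z z)))))))))))))))))))))))))) (n 867 (n 0 z (n 0 z (n 0 z (n 0
 z (n 0 z (n 0 z (n 0 z (n 0 z (n 0 z (n 0 z (n 0 z (n 0 z (n 0 z (n 0 z (n 2 (n 1 z (n 1 z z))
 (n 0 z (n 0 z (n 0 z (n 0 z (n 0 z (n 0 z (n 0 z (n 0 z (n 0 z (n 0 z (n 0 z
 z)))))))))))))))))))))))))) (n 55 (n 0 z (n 0 z (n 0 z (n 0 z (n 0 z (n 0 z (n 0 z (n 0 z (n 0
 z (n 0 z (n 0 z (n 0 z (n 6428427 z (n 0 z (n 0 z (n 0 z (n 0 z z))))))))))))))))) (n 49 (n 0 z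
 (n 0 z (n 0 z (n 0 z (n 0 z (n 0 z (n 0 z (n 0 z (n 0 z (n 0 z (n 0 z (n 0 z (n 0 z (n 0 z (n 0
 z (n 0 z (n 0 z (n 0 z (n 0 z (n 0 z (n 0 z (n 0 z (n 0 z (n 0 z (n 6428427 z (n 0 z
 z)))))))))))))))))))))))))) z)))))) (n 0 (n 0 z (n 795 (n 0 z (n 0 z (n 0 z (n 0 z (n 0 z
 z))))) (n 795 (n 0 z (n 0 z (n 2 (n 1 z (n 1 z z)) (n 0 z (n 0 z z))))) (n 55 (n 0 z (n 0 z (n
 0 z (n 2 (n 1 z z) z)))) (n 361 (n 0 z (n 0 z (n 0 z (n 0 z (n 0 z (n 0 z (n 0 z (n 0 z (n 0 z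
 z))))))))) z))))) (n 0 (n 879 (n 0 z (n 2 (n 0 z (n 1 z (n 1 z z))) (n 0 z (n 0 z (n 0 z (n 0 z
 (n 0 z z))))))) (n 879 (n 0 z (n 0 z (n 0 z (n 0 z (n 0 z (n 0 z (n 0 z z))))))) (n 441 (n 0 z
 (n 0 z (n 0 z (n 0 z (n 0 z (n 0 z (n 0 z (n 0 z (n 0 z (n 0 z (n 0 z (n 0 z (n 0 z (n 0 z (n 0
 z (n 0 z (n 0 z (n 0 z (n 0 z (n 0 z (n 0 z (n 0 z z)))))))))))))))))))))) (n 865 (n 2 z (n 0 z
 (n 0 z (n 0 z (n 0 z (n 0 z z)))))) z)))) (n 0 (n 0 z (n 1311 (n 0 z (n 0 z (n 7754307 z z)))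
 (n 17 (n 0 z (n 0 z (n 0 z (n 7754307 z z)))) z))) (n 0 (n 299 (n 0 z (n 0 z (n 0 z z))) (n 1
 (n 0 z (n 0 z (n 0 z (n 0 z (n 0 z (n 0 z (n 0 z (n 0 z (n 0 z z))))))))) z)) (n 0 (n 97 (n 0 z
 (n 0 z (n 0 z (n 0 z z)))) z) (n 0 z z)))))))) (n 0 (n 0 z (n 1 (n 3282443 z (n 3282443 z (n
 3282443 z (n 3282443 z (n 3282443 z (n 3282443 z z)))))) z)) (n 0 z z)))) (n
 0xa6d744cd4a21d650534ac0ac70b15d65089b690253305aa154330ab00 (n 0 (n 153 (n 0 z (n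
 0x3fc6218147bc7dd8567a88547d984e7fa8597ea84c7ea8828567f671586675682f7847ed8f471c8707b17778018e57c87d18e68df81f7e46c282683191372d76382975081d8aa75e8b37ed84a7e50051
 z (n 2 z (n 0 z (n 0 z (n 3282443 z (n 3282443 z (n
 0x5951948c0e002ca8ca26078017fe7ff8018027fe7fd8057ff8018018028027ff7fe8017fe8018018007ff8007fe7ff8008047ff8017fe8018018008027ff8008027ff7ff8008017ff8007ff8007ff8018008018007ff1011
 z z)))))))) (n 33 (n 0 z (n 10 z (n 3278363 z (n 0 z z)))) (n 9 (n 18 z (n 26 z (n 0 z (n 0 z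
 (n 3212843 z z))))) (n 123 (n
 0xa46218007fd8017fd8028018008068088018008018028028038067ff7fd7fd8047f48077ff7f68017ef80a7fb80180080281c7fe8137f37ee80b7fd8058058097f57fd7ff7f78048017f77f97f60051
 z (n 34 z (n 42 z (n 0 z (n 0 z (n
 0xd46428037f07fc8207dc8117ed82080c7fd80481180580183580f7db7fb80580c7e97fc8147d481f8037c47f081f8287db81e83082481a7d08027fd8347f57d681f7ad8178047e181d7fd8077fe0051
 z (n 0 z (n 0 z (n 2164283 z (n 0 z (n 0 z z))))))))))) (n 1 (n 2164299 z (n 0 z (n 50 z (n 0 z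
 z)))) (n 0 (n
 0x3fc6218147bc7dd8567a88547d984e7fa8597ea84c7ea8828567f671586675682f7847ed8f471c8707b17778018e57c87d18e68df81f7e46c282683191372d76382975081d8aa75e8b37ed84a7e50051
 z (n 58 z (n
 0x2ca68604078008008008008008008017ff8008007ff8008008008008008008008008008008008018008008008008008008008008017ff8008008008008008008008008008018008008008008008008000811
 z (n
 0xa46428027f37fd81a7e380d7f181980b7fd80380e80480082b80c7e27fc8048097ed7fd8117dc8198037d07f38198207e281782681d8157d98027fe82a7f87de8197be8138057e88177fd8057ff0051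
 z (n 0 z (n 0 z (n 2164315 z (n 3282523 z (n 0 z (n 0 z (n
 0x2c86c864037ff7ff7fe8047f68057fd8058008077ff7fd8058028108087f87fc7fc7ff7fb80280a7f68017f57f97f280680b7f68168098088017f67fe7fd80a7fc7f98147ef8087f87f77fe80d7f87ff0811
 z (n 0 z (n 66 z (n 74 z (n 82 z (n 0 z (n 0 z (n
 0xd46308037f07fc8207dc8117ed82080c7fd80481180580183580f7db7fb80580c7e97fc8147d481f8037c47f081f8287db81e83082481a7d08027fd8347f57d681f7ad8178047e181d7fd8077fe0051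
 z (n
 0x4ca68624038008018008017ff8017fe8017ff8007fd8018027ff8017ff8017ff8008008018017ff8008008037fd8028008028007ff7ff8018008008018008007ff8008008008008008007ff8008008000811
 z (n 0 z (n 0 z (n 0 z (n
 0x3fc6108147bc7dd8567a88547d984e7fa8597ea84c7ea8828567f671586675682f7847ed8f471c8707b17778018e57c87d18e68df81f7e46c282683191372d76382975081d8aa75e8b37ed84a7e50051
 z (n
 0xac84c826037fb7f37ff8177e08107f08187f98208087fa80c7fc8228117ea7f37fc80a7e980181b7ec8017e87f17e381581c7e683581c8198027db7f67fc8257f17ee82d7d08087f27ee7fb81c7f17f90811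
 z (n 0 z (n 0 z (n 0 z (n 0 z (n 0 z (n
 0x2c86c864037ff8008008008007ff8008008008008028007ff8018018018008008018008008008008008017ff8007ff8008017ff8008007ff8008008008008008007ff8008008008008008008008008010811
 z (n 0 z (n 0 z (n 0 z (n
 0x3346208107c97e48457ba8437e183e7fc8477ef83d7ee8688457f774485277882679c7f18c374a85a7c17928018b77d37da8b88b28197e970381e8278dc75878282177481788877e88f7f183b7ea0051
 z (n 0 z z))))))))))))))))))))))))))))))))))) z)))))) (n 33 (n 0 (n 179 (n 0 z (n 0 z (n 0 z (n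
 0 z (n 0 z (n 0 z z)))))) (n 177 (n 0 z (n 0 z (n 0 z (n 0 z (n 0 z (n 0 z (n 0 z (n 0 z (n 0 z
 (n 0 z (n 0 z (n 0 z (n 0 z (n 0 z (n 0 z (n 0 z (n 2 (n 0 z (n 2 (n 0 z (n 0 z (n 0 z (n 0 z
 (n 0 z (n 0 z z)))))) (n 2 (n 0 z (n 0 z (n 0 z (n 0 z (n 0 z (n 0 z z)))))) (n 2 (n 0 (n
 3283051 z z) (n 0 z (n 0 z (n 0 z (n 0 (n 3283051 z z) (n 0 (n 3283051 z (n 3283051 z z))
 z)))))) (n 2 (n 0 z (n 0 z (n 0 z (n 0 z (n 0 z (n 0 z z)))))) (n 2 (n 0 z (n 0 (n 69 z (n 69 z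
 z)) (n 0 (n 676 z (n 676 z z)) (n 0 z (n 0 z (n 0 (n 676 z (n 676 z z)) z)))))) (n 2 (n 0 (n
 676 z (n 676 z z)) (n 0 z (n 0 (n 676 z (n 676 z z)) (n 0 z (n 0 (n 69 z (n 69 z z)) (n 0 z
 z)))))) (n 2 (n 0 z (n 0 (n 676 z z) (n 0 z (n 0 z (n 0 z (n 0 (n 676 z (n 676 z z)) z))))))
 z)))))))) (n 0 z (n 0 z (n 0 z (n 0 z (n 0 z z)))))))))))))))))))))) (n 177 (n 0 z (n 0 z (n 0
 z (n 2 (n 2 (n 0 z (n 0 z (n 0 z (n 0 z (n 0 (n 3988 z z) (n 0 (n 3988 z (n 3988 z z)) z))))))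
 (n 2 (n 0 z (n 0 z (n 0 z (n 0 z (n 0 z (n 0 z z)))))) (n 2 (n 0 z (n 0 (n 8871987 z z) (n 0 z
 (n 0 (n 8871987 z z) (n 0 z (n 0 (n 8871987 z (n 8871987 z z)) z)))))) (n 1 z (n 2 (n 0 (n 676
 z (n 676 z z)) (n 0 z (n 0 (n 676 z (n 8591115 z z)) (n 0 (n 8857163 z (n 8857163 z z)) (n 0 (n
 676 z (n 8591115 z z)) (n 0 z z)))))) (n 2 (n 0 z (n 0 (n 676 z (n 676 z z)) (n 0 z (n 0 (n
 8857163 z (n 8857163 z z)) (n 0 (n 8799091 z (n 8591115 z z)) (n 0 (n 8799091 z (n 8591115 z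
 z)) z)))))) (n 2 (n 0 z (n 0 z (n 0 z (n 0 z (n 0 z (n 0 z z)))))) z))))))) (n 0 z (n 0 z (n 0
 z (n 0 z (n 0 z (n 0 z (n 0 z (n 0 z (n 0 z (n 0 z (n 0 z (n 0 z (n 0 z (n 0 z (n 0 z (n 0 z (n
 0 z (n 0 z z)))))))))))))))))))))) (n 997 (n 0 z (n 0 z (n 2 (n 0 z (n 2 (n 0 z (n 0 (n 3283051
 z z) (n 0 (n 8861195 z z) (n 0 z (n 0 z (n 0 (n 3283051 z (n 3283051 z z)) z)))))) (n 2 (n 0 z
 (n 0 z (n 0 z (n 0 z (n 0 z (n 0 z z)))))) (n 2 (n 0 (n 7735371 z (n 676 z z)) (n 0 (n 965 z (n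
 965 z z)) (n 0 (n 676 z (n 676 z z)) (n 0 z (n 0 z (n 0 z z)))))) (n 2 (n 0 z (n 0 (n 676 z (n
 676 z z)) (n 0 (n 676 z (n 676 z z)) (n 0 z (n 0 (n 965 z (n 965 z z)) (n 0 (n 676 z (n 676 z
 z)) z)))))) (n 2 (n 0 z (n 0 z (n 0 z (n 0 z (n 0 z (n 0 z z)))))) z)))))) (n 0 z (n 0 z (n 0 z
 (n 0 z z))))))) (n 997 (n 0 z (n 0 z (n 0 z (n 0 z (n 2 (n 2 (n 0 z (n 0 z (n 0 z (n 0 (n
 8872995 z z) (n 0 (n 8872995 z z) (n 0 (n 8872995 z (n 8872995 z z)) z)))))) (n 2 (n 0 z (n 0 z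
 (n 0 z (n 0 z (n 0 z (n 0 z z)))))) (n 2 (n 0 z (n 0 (n 8525643 z (n 8790131 z z)) (n 0 z (n 0
 (n 8861195 z (n 8861195 z z)) (n 0 (n 676 z (n 676 z z)) (n 0 (n 8525643 z (n 8790131 z z))
 z)))))) (n 2 (n 0 z (n 0 z (n 0 (n 676 z (n 8525643 z z)) (n 0 (n 8861195 z (n 8790131 z z)) (n
 0 (n 8525643 z (n 8790131 z z)) (n 0 z z)))))) (n 1 z z))))) (n 0 z (n 0 z z))))))) (n 303 (n 0
 z (n 0 z (n 0 z (n 0 z (n 0 z z))))) (n 169 (n 0 z (n 2 (n 0 z (n 0 z (n 0 z z))) (n 0 z (n 0 z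
 (n 0 z (n 0 z (n 0 z (n 0 z (n 0 z z))))))))) (n 169 (n 0 z (n 0 z (n 0 z (n 0 z (n 0 z (n 0 z
 (n 0 z (n 2 (n 0 z (n 0 z z)) (n 0 z z))))))))) (n 169 (n 0 z (n 0 z (n 2 (n 0 z z) (n 0 z (n 0
 z (n 0 z (n 0 z (n 0 z (n 0 z z))))))))) (n 169 (n 0 z (n 0 z (n 0 z (n 0 z (n 2 z (n 0 z (n 0
 z (n 0 z (n 0 z z))))))))) z)))))))))) (n 0 (n 411 (n 0 z (n 0 z (n 0 z (n 2 (n 0 z (n 2 (n 0 z
 (n 0 z (n 0 z (n 0 z (n 0 z (n 0 z z)))))) (n 2 (n 0 z (n 0 z (n 0 z (n 0 z (n 0 z (n 0 z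
 z)))))) (n 2 (n 0 z (n 0 z (n 0 z (n 0 z (n 0 z (n 0 z z)))))) (n 2 (n 0 z (n 0 z (n 0 z (n 0 z
 (n 0 z (n 0 z z)))))) (n 2 (n 0 (n 1636 z (n 1636 z z)) (n 0 (n 69 z (n 69 z z)) (n 0 z (n 0 (n
 8857163 z (n 8857163 z z)) (n 0 z (n 0 (n 1636 z (n 1636 z z)) z)))))) (n 2 (n 0 (n 7735371 z
 (n 1636 z z)) (n 0 z (n 0 (n 1636 z (n 1636 z z)) (n 0 (n 8857163 z (n 8857163 z z)) (n 0 z (n
 0 z z)))))) (n 2 (n 0 z (n 0 (n 1636 z z) (n 0 z (n 0 z (n 0 z (n 0 (n 1636 z (n 1636 z z))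
 z)))))) z)))))))) (n 0 z (n 0 z (n 0 z (n 0 z z)))))))) (n 411 (n 0 z (n 2 (n 2 (n 0 z (n 0 z
 (n 0 z (n 0 z (n 0 (n 4180 z z) (n 0 (n 4180 z (n 4180 z z)) z)))))) (n 2 (n 0 (n 6428747 z z)
 (n 0 z (n 0 (n 8857163 z z) (n 0 z (n 0 z (n 0 (n 4180 z (n 4180 z z)) z)))))) (n 2 (n 0 z (n 0
 z (n 0 z (n 0 z (n 0 z (n 0 z z)))))) (n 1 z (n 2 (n 0 (n 8799091 z (n 8591115 z z)) (n 0 (n
 1925 z (n 8799091 z z)) (n 0 z (n 0 (n 8857163 z (n 7749763 z z)) (n 0 z (n 0 z z)))))) (n 2 (n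
 0 z (n 0 z (n 0 z (n 0 z (n 0 z (n 0 z z)))))) (n 2 (n 0 z (n 0 z (n 0 z (n 0 z (n 0 z (n 0 z
 z)))))) z))))))) (n 0 z (n 0 z (n 0 z (n 0 z (n 0 z (n 0 z z)))))))) (n 1045 (n 0 z (n 0 z (n 2
 (n 0 z (n 2 (n 0 z (n 0 z (n 0 (n 8861195 z z) (n 0 (n 3278955 z z) (n 0 z (n 0 (n 3278955 z (n
 3278955 z z)) z)))))) (n 2 (n 0 z (n 0 z (n 0 z (n 0 z (n 0 (n 1636 z z) (n 0 (n 1636 z (n 1636
 z z)) z)))))) (n 2 (n 0 (n 1636 z (n 1636 z z)) (n 0 z (n 0 (n 7751691 z (n 1636 z z)) (n 0 (n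
 8861195 z (n 8861195 z z)) (n 0 z (n 0 z z)))))) (n 2 (n 0 z (n 0 z (n 0 (n 1636 z (n 1636 z
 z)) (n 0 (n 8861195 z (n 8861195 z z)) (n 0 (n 965 z (n 965 z z)) (n 0 (n 1636 z (n 1636 z z))
 z)))))) (n 2 (n 0 z (n 0 z (n 0 z (n 0 z (n 0 z (n 0 z z)))))) z)))))) (n 0 z (n 0 z z))))) (n
 1045 (n 0 z (n 0 z (n 0 z (n 2 (n 2 (n 0 z (n 0 z (n 0 (n 8872995 z z) (n 0 z (n 0 (n 8872995 z
 z) (n 0 (n 8872995 z (n 8872995 z z)) z)))))) (n 2 (n 0 z (n 0 z (n 0 z (n 0 z (n 0 z (n 0 z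
 z)))))) (n 2 (n 0 z (n 0 z (n 0 z (n 0 z (n 0 z (n 0 z z)))))) (n 2 (n 0 z (n 0 z (n 0 (n
 8525643 z (n 8790131 z z)) (n 0 (n 8861195 z (n 7749763 z z)) (n 0 (n 981 z (n 8790131 z z)) (n
 0 z z)))))) (n 1 z z))))) (n 0 z z))))) (n 63 (n 0 z (n 0 z (n 0 z z))) (n 409 (n 0 z (n 0 z (n
 2 (n 0 z (n 0 z (n 0 z z))) (n 0 z (n 0 z (n 0 z (n 0 z (n 0 z z)))))))) (n 409 (n 0 z (n 0 z
 (n 0 z (n 0 z (n 0 z (n 0 z (n 2 (n 0 z (n 0 z z)) (n 0 z z)))))))) (n 409 (n 0 z (n 0 z (n 0 z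
 (n 2 (n 0 z z) (n 0 z (n 0 z (n 0 z (n 0 z z)))))))) (n 409 (n 0 z (n 0 z (n 0 z (n 0 z (n 2 z
 (n 0 z (n 0 z (n 0 z z)))))))) z))))))))) (n 0 (n 0 z (n 1097 (n 0 z (n 0 z (n 0 z (n 2 (n 0 z
 (n 2 (n 0 z (n 0 z (n 0 z (n 0 z (n 0 z (n 0 z z)))))) (n 2 (n 0 z (n 0 z (n 0 z (n 0 z (n 0 z
 (n 0 z z)))))) (n 2 (n 0 (n 68 z (n 68 z z)) (n 0 z (n 0 (n 8791867 z (n 68 z z)) (n 0 z (n 0
 (n 8791867 z (n 68 z z)) (n 0 z z)))))) (n 2 (n 0 (n 68 z (n 68 z z)) (n 0 (n 68 z (n 68 z z))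
 (n 0 (n 8861227 z (n 8861227 z z)) (n 0 z (n 0 z (n 0 z z)))))) (n 2 (n 0 z (n 0 z (n 0 z (n 0
 z (n 0 z (n 0 z z)))))) z)))))) (n 0 z (n 0 z (n 0 z (n 0 z (n 0 z z))))))))) (n 1097 (n 0 z (n
 0 z (n 0 z (n 0 z (n 0 z (n 2 (n 2 (n 0 z (n 0 (n 84 z z) (n 0 z (n 0 z (n 0 z (n 0 (n 8656699
 z (n 84 z z)) z)))))) (n 2 (n 0 z (n 0 z (n 0 (n 8790283 z z) (n 0 z (n 0 (n 8851555 z z) (n 0
 (n 8790283 z (n 8790131 z z)) z)))))) (n 2 (n 0 z (n 0 z (n 0 z (n 0 z (n 0 z (n 0 z z)))))) (n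
 2 (n 0 z (n 0 (n 68 z (n 8790131 z z)) (n 0 (n 8800027 z (n 8861227 z z)) (n 0 z (n 0 (n
 8851555 z (n 8851555 z z)) (n 0 (n 981 z (n 8790131 z z)) z)))))) (n 1 z z))))) (n 0 z (n 0 z
 (n 0 z z))))))))) (n 21 (n 0 z (n 2 (n 2 (n 0 z (n 0 z (n 0 z (n 0 z (n 0 z (n 0 z z)))))) (n 2
 (n 0 (n 68 z (n 68 z z)) (n 0 (n 68 z (n 68 z z)) (n 0 z (n 0 z (n 0 (n 68 z (n 68 z z)) (n 0
 (n 68 z (n 68 z z)) z)))))) (n 2 (n 0 (n 68 z (n 68 z z)) (n 0 z (n 0 (n 68 z (n 68 z z)) (n 0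
 z (n 0 (n 7751691 z (n 68 z z)) (n 0 z z)))))) (n 2 (n 0 z (n 0 z (n 0 z (n 0 z (n 0 z (n 0 z
 z)))))) z)))) (n 0 z (n 0 z (n 0 z (n 0 z z)))))) (n 17 (n 0 z (n 0 z (n 0 z (n 0 z (n 0 z (n 0
 z (n 0 z (n 0 z (n 0 z z))))))))) (n 17 (n 0 z (n 0 z (n 0 z (n 0 z (n 0 z (n 0 z (n 0 z (n 0 z
 (n 0 z z))))))))) (n 17 (n 0 z (n 0 z (n 0 z (n 0 z (n 0 z (n 0 z (n 2 (n 0 z z) (n 0 z (n 0 z
 z))))))))) (n 17 (n 0 z (n 0 z (n 0 z (n 0 z (n 6562163 z (n 0 z (n 0 z (n 0 z (n 0 z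
 z))))))))) z)))))))) (n 0 (n 535 (n 2 (n 0 z (n 2 (n 0 z (n 0 z (n 0 z (n 0 z (n 0 z (n 0 z
 z)))))) (n 1 z (n 2 (n 0 (n 1924 z (n 1924 z z)) (n 0 (n 8864611 z (n 8864611 z z)) (n 0 z (n 0
 z (n 0 (n 8848923 z (n 8798579 z z)) (n 0 (n 8455723 z (n 8798579 z z)) z)))))) (n 2 (n 0 z (n
 0 z (n 0 z (n 0 z (n 0 z (n 0 z z)))))) (n 2 (n 0 (n 8860699 z z) (n 0 (n 8864611 z z) (n 0 z
 (n 0 z (n 0 z (n 0 (n 8860699 z (n 8798579 z z)) z)))))) z)))))) (n 0 z (n 0 z (n 0 z (n 0 z (n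
 0 z (n 0 z (n 0 z (n 0 z (n 0 z (n 0 z (n 0 z (n 0 z z))))))))))))) (n 535 (n 0 z (n 0 z (n 0 z
 (n 0 z (n 0 z (n 0 z (n 0 z (n 0 z (n 0 z (n 0 z (n 0 z (n 0 z (n 0 z z))))))))))))) (n 483 (n
 0 z (n 0 z (n 0 z (n 2 (n 1 z (n 2 (n 0 (n 1924 z (n 8791883 z z)) (n 0 (n 8864611 z (n 8864611
 z z)) (n 0 z (n 0 (n 8590859 z (n 8590859 z z)) (n 0 z (n 0 z z)))))) (n 2 (n 0 z (n 0 (n
 8864611 z (n 8864611 z z)) (n 0 z (n 0 (n 8590859 z (n 8590859 z z)) (n 0 (n 1924 z (n 8791883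
 z z)) (n 0 (n 1924 z (n 8791883 z z)) z)))))) (n 2 (n 0 z (n 0 z (n 0 z (n 0 z (n 0 z (n 0 z
 z)))))) z)))) (n 0 z z))))) (n 481 (n 0 z (n 0 z (n 0 z (n 0 z (n 0 z (n 0 z (n 0 z (n 0 z (n 0
 z (n 0 z (n 0 z (n 0 z (n 0 z (n 0 z (n 0 z (n 0 z (n 0 z (n 0 z (n 0 z (n 0 z (n 0 z (n 0 z (n
 0 z (n 0 z (n 0 z (n 0 z (n 0 z (n 0 z z)))))))))))))))))))))))))))) (n 481 (n 0 z (n 0 z (n 0
 z (n 0 z (n 0 z (n 0 z (n 0 z (n 0 z (n 0 z (n 0 z (n 0 z (n 0 z (n 2 (n 0 z (n 0 z z)) (n 0 z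
 (n 0 z (n 0 z (n 0 z (n 0 z (n 0 z (n 0 z (n 0 z (n 0 z (n 0 z (n 0 z (n 0 z (n 0 z (n 0 z (n 0
 z z)))))))))))))))))))))))))))) (n 481 (n 0 z (n 0 z (n 0 z (n 0 z (n 0 z (n 0 z (n 0 z (n 0 z
 (n 0 z (n 0 z (n 0 z (n 0 z (n 0 z (n 0 z (n 0 z (n 0 z (n 0 z (n 0 z (n 0 z (n 0 z (n 0 z (n 0
 z (n 0 z (n 0 z (n 0 z (n 0 z (n 0 z (n 0 z z)))))))))))))))))))))))))))) (n 481 (n 0 z (n 0 z
 (n 0 z (n 0 z (n 0 z (n 0 z (n 0 z (n 0 z (n 0 z (n 0 z (n 0 z (n 0 z (n 0 z (n 0 z (n 0 z (n 0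
 z (n 2 z (n 0 z (n 0 z (n 0 z (n 0 z (n 0 z (n 0 z (n 0 z (n 0 z (n 0 z (n 0 z (n 0 z
 z)))))))))))))))))))))))))))) z))))))) (n 0 (n 0 z (n 243 (n 0 z (n 0 z (n 0 z (n 0 z (n 2 (n 2
 (n 0 z (n 0 z (n 0 z (n 0 z (n 0 (n 964 z z) (n 0 (n 964 z (n 964 z z)) z)))))) (n 2 (n 0 (n
 964 z (n 964 z z)) (n 0 (n 964 z (n 964 z z)) (n 0 (n 964 z (n 964 z z)) (n 0 z (n 0 z (n 0 z
 z)))))) (n 2 (n 0 (n 964 z (n 964 z z)) (n 0 z (n 0 z (n 0 z (n 0 (n 964 z (n 964 z z)) (n 0 (n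
 964 z (n 964 z z)) z)))))) (n 2 (n 0 z (n 0 z (n 0 z (n 0 z (n 0 z (n 0 z z)))))) z)))) (n 0 z
 (n 0 z z))))))) (n 241 (n 6492275 z (n 0 z (n 0 z (n 0 z (n 0 z (n 0 z (n 0 z (n 0 z (n 0 z (n
 0 z (n 0 z (n 0 z (n 0 z z))))))))))))) (n 241 (n 0 z (n 0 z (n 0 z (n 0 z (n 2 (n 0 z (n 0 z
 z)) (n 0 z (n 0 z (n 0 z (n 0 z (n 0 z (n 0 z (n 0 z (n 0 z z))))))))))))) (n 241 (n 0 z (n 0 z
 (n 0 z (n 0 z (n 0 z (n 0 z (n 0 z (n 0 z (n 0 z (n 0 z (n 0 z (n 0 z (n 0 z z))))))))))))) (n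
 241 (n 0 z (n 0 z (n 0 z (n 0 z (n 0 z (n 0 z (n 0 z (n 7746587 z (n 0 z (n 0 z (n 0 z (n 0 z
 (n 0 z z))))))))))))) z)))))) (n 0 (n 243 (n 0 z (n 0 z (n 0 z (n 0 z (n 0 z (n 2 (n 2 (n 0 z
 (n 0 z (n 0 z (n 0 z (n 0 z (n 0 z z)))))) (n 2 (n 0 z (n 0 (n 8795915 z (n 980 z z)) (n 0 z (n
 0 (n 8525387 z (n 8525387 z z)) (n 0 (n 8855651 z (n 8855651 z z)) (n 0 (n 8795915 z (n 980 z
 z)) z)))))) (n 2 (n 0 (n 5 z (n 8795915 z z)) (n 0 (n 980 z (n 8795915 z z)) (n 0 (n 980 z (n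
 980 z z)) (n 0 (n 8525387 z (n 8525387 z z)) (n 0 z (n 0 z z)))))) (n 1 z z)))) (n 0 z (n 0 z
 z)))))))) (n 245 (n 0 z (n 0 z (n 0 z (n 0 z (n 2 (n 0 z (n 0 z (n 0 z z))) (n 0 z (n 0 z (n 0
 z (n 0 z (n 0 z (n 0 z (n 0 z (n 0 z (n 0 z (n 0 z (n 0 z (n 0 z z))))))))))))))))) (n 245 (n 0
 z (n 0 z (n 0 z (n 0 z (n 0 z (n 0 z (n 0 z (n 0 z (n 0 z (n 0 z (n 0 z (n 0 z (n 0 z (n 0 z (n
 0 z (n 0 z (n 0 z z))))))))))))))))) (n 245 (n 0 z (n 0 z (n 2 (n 0 z z) (n 0 z (n 0 z (n 0 z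
 (n 0 z (n 0 z (n 0 z (n 0 z (n 0 z (n 0 z (n 0 z (n 0 z (n 0 z (n 0 z (n 0 z z)))))))))))))))))
 (n 245 (n 0 z (n 0 z (n 0 z (n 0 z (n 0 z (n 0 z (n 0 z (n 0 z (n 0 z (n 0 z (n 0 z (n 0 z (n 0
 z (n 0 z (n 0 z (n 0 z (n 0 z z))))))))))))))))) z))))) (n 0 (n 1 (n 2 (n 0 z (n 0 z (n 0 z
 z))) (n 0 z (n 0 z (n 0 z (n 0 z (n 0 z (n 0 z (n 0 z (n 0 z (n 0 z (n 0 z (n 0 z (n 0 z
 z))))))))))))) (n 1 (n 0 z (n 2 (n 0 z (n 0 z z)) (n 0 z (n 0 z (n 0 z (n 0 z (n 0 z (n 0 z (n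
 0 z (n 0 z (n 0 z (n 0 z (n 0 z z))))))))))))) (n 1 (n 0 z (n 0 z (n 0 z (n 0 z (n 0 z (n 0 z
 (n 2 (n 0 z z) (n 0 z (n 0 z (n 0 z (n 0 z (n 0 z (n 0 z z))))))))))))) (n 1 (n 0 z (n 0 z (n 0
 z (n 2 z (n 0 z (n 0 z (n 0 z (n 0 z (n 0 z (n 0 z (n 0 z (n 0 z (n 0 z z))))))))))))) z)))) (n
 0 (n 0 z (n 0 z (n 0 z z))) (n 0 (n 0 z (n 0 z z)) (n 0 (n 0 z z) (n 0 z z))))))))))) (n 0 (n 0
 z (n 1 (n 1228 z (n 1228 z (n 1228 z (n 76 z (n 1228 z (n 1228 z z)))))) (n 1 (n 3278363 z (n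
 3278363 z (n 3278363 z (n 3278363 z (n 3278363 z (n 3278363 z z)))))) (n 0 z z)))) (n 0 z z))))
 z)))))))))), by decide +kernel⟩

theorem g7_52 : RgOk KT RW [10192, 10202, 10212, 10222, 10232, 10242, 10251, 10261, 10266, 10276] := ⟨i10192, ⟨i10202, ⟨i10212, ⟨i10222, ⟨i10232, ⟨i10242, ⟨i10251, ⟨i10261, ⟨i10266, True.intro⟩⟩⟩⟩⟩⟩⟩⟩⟩

end Pool.Agent.Lib.EPS9
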