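import Pool.Agent.Lib.MP_c7e7f6_eps.Core4
import Pool.Agent.Lib.MP_c7e7f6_eps.KtAll

/-!
Extensions of the words from number 10276 on.
-/

set_option autoImplicit false

namespace Pool.Agent.Lib.EPS9

open Tr

theorem i10276 : ∃ t, chkR KT RW t 10276 10286 = true := ⟨(n
 0x69934169aa0a92561a6a32c34ae5432cb411 (n 0 (n 719 (n 3282443 z (n 0 z (n 0 z z))) (n 718 (n 0
 z (n 0 z (n 3278363 z (n 2 z (n 0 z (n 0 z (n 0 z (n 10 z (n 0 z (n 0 z z)))))))))) (n 129 (n 0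
 z (n 0 z (n 0 z (n 18 z (n 0 z (n 3212843 z (n 3212843 z (n
 0x6a86ca4203807f82837e7e807f80827f80807f808080807f818080817f818280807f8181828080807f80817f7e7f80807d8180818080810809
 z z)))))))) (n 3 (n 0 z (n 2164283 z z)) (n 1 (n 2164299 z (n 0 z (n 26 z (n 0 z (n 0 z z)))))
 (n 0 (n 34 z (n 42 z (n
 0x8ca286040380828080818081807f7f80817f8380807d80807f7e7f7f8180807f81807f817f7f81808181808182837f81817e8080817f800809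
 z (n
 0x6c86c86003807e81827f80817f80807f80808180818080807f7f7f807e7e808080807f81817f807f81818180808080817f7f808280807f0809
 z (n
 0x5e3100d362080798e847380777c857d9a727b58866ea479847f728c729e6f7a8e977f5b8f88629e6a89768c8289859c5c67879a915856a30089
 z (n 0 z (n 0 z (n 2164315 z (n 3212891 z (n
 0x5e3208d364180798e847380777c857d9a727b58866ea479847f728c729e6f7a8e977f5b8f88629e6a89768c8289859c5c67879a915856a30089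
 z (n 50 z (n
 0x5e3100d362080798e847380777c857d9a727b58866ea479847f728c729e6f7a8e977f5b8f88629e6a89768c8289859c5c67879a915856a30089
 z (n
 0x12ca486020780897c946d8c987a807b95817b8e8f9676828d6d8274768a6c7d7b6883986d98767a7e858d807289558879908b6d88888c830809
 z (n
 0x8c86c86003807e82817f80827e807f7e8080818081807f817f807f817e8080807f807f81817f807f81828180808081817f7f80827f7e7e0809
 z z)))))))))))))) z)))))) (n 3 (n 0 (n 0 z (n 1047 (n 0 z (n 0 z (n 0 z (n 0 z (n 0 z (n 0 z (n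
 0 z (n 0 z (n 0 z (n 0 z (n 0 z (n 0 z (n 0 z (n 0 z (n 0 z (n 0 z (n 0 z (n 0 z (n 0 z (n 0 z
 (n 0 z (n 0 z z)))))))))))))))))))))) (n 243 (n 0 z (n 0 z (n 0 z (n 0 z (n 0 z (n 0 z (n 0 z
 (n 0 z (n 0 z (n 0 z (n 0 z (n 0 z (n 0 z (n 0 z (n 0 z (n 0 z z)))))))))))))))) (n 397 (n 0 z
 (n 0 z (n 0 z (n 0 z (n 0 z (n 0 z (n 0 z (n 0 z (n 0 z (n 0 z (n 2 (n 0 z (n 0 z z)) (n 0 z (n
 0 z (n 0 z (n 0 z (n 0 z (n 0 z (n 0 z (n 0 z (n 0 z (n 0 z (n 0 z (n 0 z (n 0 z (n 0 z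
 z))))))))))))))))))))))))) (n 397 (n 0 z (n 0 z (n 0 z (n 0 z (n 0 z (n 0 z (n 0 z (n 0 z (n 0
 z (n 0 z (n 0 z (n 0 z (n 0 z (n 0 z (n 0 z (n 0 z (n 0 z (n 0 z (n 0 z (n 0 z (n 0 z (n 0 z (n
 0 z (n 0 z (n 0 z z))))))))))))))))))))))))) (n 397 (n 0 z (n 0 z (n 0 z (n 0 z (n 0 z (n 0 z
 (n 0 z (n 0 z (n
 0x1eea4c80607808d809e6e8f9f727d749e7a7e9283926f8b946f78768d8274897c6c86946d9864788384837f768a5e8f728e9678868a85820809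
 z (n
 0x10ea4c80607808180817d81827e7f80808080827f7f7f81807f8080807f80818180807e82807f8181808181808081808181807f81807f7f0809
 z (n 0 z (n 0 z (n 0 z (n 0 z (n 0 z (n 0 z (n 0 z (n 0 z (n 0 z (n 0 z (n 0 z (n 0 z (n 0 z (n
 0 z (n 0 z z))))))))))))))))))))))))) z)))))) (n 0 (n 347 (n 0 z (n 0 z (n 0 z (n 0 z (n 0 z (n
 0 z (n 0 z (n 0 z (n 0 z (n 0 z z)))))))))) (n 345 (n 0 z (n 0 z (n 0 z (n 0 z (n 0 z (n 0 z (n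
 0 z (n 0 z (n 0 z (n 0 z z)))))))))) (n 505 (n 0 z (n 0 z (n 0 z (n 0 z (n 0 z (n 0 z (n 0 z (n
 0 z (n 0 z (n 0 z z)))))))))) (n 505 (n 0 z (n 0 z (n 0 z (n 0 z (n 0 z (n 0 z (n 0 z (n 0 z (n
 0 z (n 0 z z)))))))))) (n 505 (n 0 z (n 0 z (n 0 z (n 2 z (n 0 z (n 0 z (n 0 z (n 0 z (n 0 z (n
 0 z z)))))))))) z))))) (n 0 (n 3 (n 0 z (n 0 z (n 0 z (n 0 z (n 0 z (n 0 z (n 0 z (n 0 z
 z)))))))) (n 1 (n 2 (n 0 z (n 0 z z)) (n 0 z (n 0 z (n 0 z (n 0 z (n 0 z (n 0 z (n 0 z (n 0 z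
 (n 0 z (n 0 z (n 0 z (n 0 z (n 0 z (n 0 z (n 0 z (n 0 z (n 0 z (n 0 z (n 0 z (n 0 z (n 0 z (n 0
 z (n 0 z (n 0 z (n 0 z (n 0 z (n 0 z (n 0 z z))))))))))))))))))))))))))))) (n 1 (n 0 z (n 0 z
 (n 0 z (n 0 z (n 0 z (n 0 z (n 0 z (n 0 z (n 0 z (n 0 z (n 0 z (n 0 z (n 0 z (n 0 z (n 0 z (n 0
 z (n 0 z (n 0 z (n 0 z (n 0 z (n 0 z (n 0 z (n 0 z (n 0 z (n 0 z (n 0 z (n 0 z (n 0 z (n 0 z
 z))))))))))))))))))))))))))))) (n 1 (n 0 z (n 0 z (n 0 z (n 0 z (n 0 z (n 0 z (n 0 z (n 0 z (n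
 0 z (n 0 z (n
 0x1ae86c86007808d858e777dab8c8585717f7b9790856b8a826c7b73767c7997936d6f957d85697e6696748069915c656d88a3839772988a0809
 z (n 7673403 z (n 0 z (n 0 z (n 0 z (n 0 z (n 0 z (n 0 z (n 0 z (n 0 z (n 0 z (n 0 z (n 0 z (n
 0 z (n 0 z (n 0 z (n 0 z (n 0 z (n 0 z z))))))))))))))))))))))))))))) z)))) (n 0 (n 25 (n 0 z
 (n 0 z (n 0 z (n 0 z (n 0 z (n 0 z (n 2 (n 0 z (n 0 z z)) (n 0 z (n 0 z (n 0 z (n 0 z (n 0 z (n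
 0 z (n 0 z (n 0 z (n 0 z (n 0 z (n 0 z (n 0 z (n 0 z (n 0 z (n 0 z (n 0 z (n 0 z (n 0 z (n 0 z
 (n 0 z (n 0 z (n 0 z (n 0 z (n 0 z (n 0 z z)))))))))))))))))))))))))))))))) (n 25 (n 0 z (n 0 z
 (n 0 z (n 0 z (n 0 z (n 0 z (n 0 z (n 0 z (n 0 z (n 0 z (n 0 z (n 0 z (n 0 z (n 0 z (n 0 z (n 0
 z (n 0 z (n 0 z (n 0 z (n 0 z (n 0 z (n 0 z (n 0 z (n 0 z (n 0 z (n 0 z (n 0 z (n 0 z (n 0 z (n
 0 z (n 0 z (n 0 z z)))))))))))))))))))))))))))))))) (n 25 (n 0 z (n 0 z (n 0 z (n 0 z (n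
 0x24c86ea2407808e878d7f849c79896daa79778f758f6b96956f796d7e747585887f7d84719c63767d7695776f90758e788c878d7b8d977e0809
 z (n 7673403 z (n 0 z (n 0 z (n 0 z (n 0 z (n 0 z (n 0 z (n 0 z (n 0 z (n 0 z (n 0 z (n 0 z (n
 0 z (n 0 z (n 0 z (n 0 z (n 0 z (n 0 z (n 0 z (n 0 z (n 0 z (n 0 z (n 0 z (n 0 z (n 0 z (n 0 z
 (n 0 z z)))))))))))))))))))))))))))))))) z))) (n 0 (n 0 z (n 0 z z)) (n 0 (n 0 z z) (n 0 z
 z))))))) (n 0 (n 0 z (n 1 (n 2164283 z (n 2164283 z (n 2164283 z (n 2164283 z (n 2164283 z (n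
 2164283 z z)))))) z)) (n 0 z z)))) (n
 0xaec743b65a14ceda212656092e942647416a35d0c96a044d76015c240 (n 0 (n 443 (n 3282443 z (n 2 z (n
 10 z z))) (n 451 (n 3278363 z (n 0 z (n 18 z (n
 0x4ca8ca60038246a282085d7246a485f81f7e285c8db8627a36657dc8da9da9607a48e06a772282581b7620801 z
 (n 26 z (n 0 z (n 0 z z))))))) (n 442 (n 0 z (n 0 z (n 0 z (n 0 z (n 6566419 z (n 0 z (n 0 z (n
 6566419 z (n 0 z (n 0 z (n 0 z (n 0 z (n 6427707 z (n 0 z (n 0 z (n 6566419 z (n 6566419 z (n 0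
 z (n 0 z (n 0 z (n 0 z (n 0 z (n 0 z (n 0 z (n 34 z (n 6427707 z (n 0 z (n 0 z (n
 0xca8ca80038207e08208208207e182082082081f82082086086082081f8608208208208207e08208208200801 z (n
 0 z (n 0 z (n 0 z (n 0 z (n 0 z (n 0 z (n 6427707 z (n 0 z (n 0 z (n 0 z (n 42 z (n 0 z
 z))))))))))))))))))))))))))))))))))))))))) (n 3 (n 0 z (n 6566419 z (n 0 z (n 6566419 z (n 0 z
 (n 50 z (n 0 z (n 6566419 z (n
 0x58c205261082179d8a07227626a47e181c8e27a2a1d7e282282069e81c8a77206a176269b6e18e18e66630081 z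
 z))))))))) (n 1 (n 6566419 z (n 0 z (n 0 z (n 0 z (n 6566419 z (n 0 z (n 58 z (n 0 z z))))))))
 (n 0 (n 0 z (n 66 z (n 0 z (n 74 z (n 0 z (n 2164315 z (n 82 z (n 0 z z)))))))) z)))))) (n 443
 (n 0 (n 0 z (n 903 (n 0 z (n 0 z (n 2 (n 0 z (n 2 (n 0 z (n 0 z (n 0 z (n 0 z (n 0 z (n 0 z
 z)))))) (n 2 (n 0 (n 8868147 z z) (n 0 (n 8868147 z z) (n 0 z (n 0 z (n 0 z (n 0 (n 8868147 z
 (n 8868147 z z)) z)))))) (n 1 z (n 1 z (n 2 (n 0 z (n 0 z (n 0 z (n 0 z (n 0 z (n 0 z z))))))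
 (n 2 (n 0 z (n 0 z (n 0 z (n 0 z (n 0 z (n 0 z z)))))) (n 2 (n 0 z (n 0 z (n 0 z (n 0 z (n 0 z
 (n 0 z z)))))) z)))))))) (n 0 z (n 0 z z))))) (n 903 (n 0 z (n 0 z (n 0 z (n 2 (n 2 (n 0 z (n 0
 z (n 0 (n 3540 z z) (n 0 (n 3540 z z) (n 0 z (n 0 (n 3540 z (n 8521531 z z)) z)))))) (n 2 (n 0
 z (n 0 z (n 0 z (n 0 z (n 0 z (n 0 z z)))))) (n 1 z (n 1 z (n 2 (n 0 z (n 0 z (n 0 z (n 0 z (n
 0 z (n 0 z z)))))) (n 1 z (n 2 (n 0 z (n 0 z (n 0 z (n 0 z (n 0 z (n 0 (n 8864547 z z) z))))))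
 z))))))) (n 0 z z))))) (n 885 (n 0 z (n 0 z (n 0 z (n 0 z (n 0 z (n 0 z (n 0 z (n 0 z (n 0 z (n
 0 z (n 0 z z))))))))))) (n 885 (n 0 z (n 0 z (n 0 z (n 0 z (n 0 z (n 0 z (n 0 z (n 0 z (n 0 z
 (n 0 z (n 2 (n 1 z (n 1 z (n 2 (n 0 z (n 0 z (n 0 z (n 0 z (n 0 z (n 0 z z)))))) (n 2 (n 0 (n
 20 z z) (n 0 z (n 0 z (n 0 (n 20 z z) (n 0 z (n 0 (n 20 z (n 20 z z)) z)))))) (n 2 (n 0 z (n 0
 z (n 0 z (n 0 z (n 0 z (n 0 z z)))))) z))))) z))))))))))) (n 7 (n 0 z (n 0 z (n 0 z (n 0 z (n 0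
 z (n 0 z (n 0 z (n 0 z (n 0 z (n 0 z (n 0 z z))))))))))) (n 3 (n 0 z (n 0 z (n 0 z (n 0 z (n 0
 z (n 0 z z)))))) (n 5 (n 0 z (n 0 z (n 0 z (n 0 z (n 0 z (n 2 (n 0 z (n 0 z z)) (n 0 z (n 0 z
 z)))))))) (n 5 (n 0 z (n 0 z (n 0 z (n 0 z (n 0 z (n 0 z (n 2 (n 0 z z) (n 0 z z)))))))) (n 5
 (n 0 z (n 0 z (n 0 z (n 2 z (n 0 z (n 0 z (n 0 z (n 0 z z)))))))) z)))))))))) (n 0 (n 1235 (n 0
 z (n 0 z (n 0 z (n 0 z (n 0 z (n 0 z (n 2 (n 0 z (n 2 (n 0 z (n 0 z (n 0 z (n 0 z (n 0 z (n 0 z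
 z)))))) (n 2 (n 0 (n 8868147 z z) (n 0 (n 8868147 z z) (n 0 z (n 0 z (n 0 z (n 0 (n 8868147 z
 (n 8868147 z z)) z)))))) (n 1 z (n 1 z (n 2 (n 0 z (n 0 z (n 0 z (n 0 z (n 0 z (n 0 z z))))))
 (n 2 (n 0 z (n 0 z (n 0 z (n 0 z (n 0 z (n 0 z z)))))) (n 2 (n 0 z (n 0 z (n 0 z (n 0 z (n 0 z
 (n 0 z z)))))) z)))))))) z))))))) (n 1235 (n 0 z (n 0 z (n 0 z (n 0 z (n 0 z (n 0 z (n 0 z
 z))))))) (n 885 (n 0 z (n 2 (n 0 z (n 1 z (n 1 z (n 2 (n 0 (n 6428763 z (n 6428763 z z)) (n 0 z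
 (n 0 z (n 0 (n 3508 z (n 7751707 z z)) (n 0 (n 7477339 z (n 3508 z z)) (n 0 z z)))))) (n 1 z (n
 2 (n 0 (n 8799011 z z) (n 0 z (n 0 z (n 0 (n 8799011 z z) (n 0 z (n 0 (n 8799011 z (n 8799011 z
 z)) z)))))) z)))))) (n 0 z (n 0 z (n 0 z (n 0 z (n 0 z (n 0 z (n 0 z (n 0 z z)))))))))) (n 885
 (n 0 z (n 0 z (n 0 z (n 0 z (n 0 z (n 0 z (n 0 z (n 0 z (n 0 z (n 0 z z)))))))))) (n 1209 (n 2
 (n 1 z (n 2 (n 0 z (n 0 z (n 0 z (n 0 z (n 0 z (n 0 z z)))))) (n 1 z (n 2 (n 0 z (n 0 z (n 0 z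
 (n 0 z (n 0 z (n 0 (n 8799011 z z) z)))))) z)))) (n 0 z (n 0 z (n 0 z (n 0 z (n 0 z z)))))) (n
 1225 (n 2 (n 2 (n 0 (n 8783659 z z) (n 0 z (n 0 z (n 0 z (n 0 (n 8864355 z z) (n 0 (n 8523891 z
 (n 8525579 z z)) z)))))) (n 1 z (n 2 (n 0 z (n 0 z (n 0 z (n 0 z (n 0 z (n 0 (n 8799011 z z)
 z)))))) z))) (n 0 z (n 0 z (n 0 z z)))) (n 877 (n 0 z (n 0 z (n 0 z (n 0 z (n 0 z z))))) (n 877
 (n 0 z (n 0 z (n 0 z (n 0 z (n 0 z z))))) (n 877 (n 0 z (n 0 z (n 0 z (n 0 z (n 0 z z)))))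
 z))))))))) (n 0 (n 0 z (n 459 (n 0 z (n 0 z (n 0 z (n 0 z (n 0 z (n 0 z (n 0 z (n 0 z (n 0 z (n
 0 z (n 0 z (n 0 z (n 0 z (n 0 z (n 0 z (n 0 z (n 0 z (n 0 z (n 0 z (n 0 z (n 0 z (n 0 z (n 0 z
 (n 0 z (n 0 z (n 0 z (n 0 z (n 0 z (n 0 z (n 0 z (n 0 z (n 0 z (n 0 z (n 0 z (n 0 z (n 0 z (n 0
 z (n 0 z (n 0 z (n 2 (n 0 z (n 2 (n 0 z (n 0 z (n 0 z (n 0 (n 1764 z z) (n 0 (n 1764 z z) (n 0
 (n 1764 z (n 7477259 z z)) z)))))) (n 2 (n 0 z (n 0 z (n 0 (n 1045 z z) (n 0 z (n 0 z (n 0 (n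
 1828 z (n 1828 z z)) z)))))) (n 2 (n 0 (n 6428763 z (n 6428763 z z)) (n 0 z (n 0 z (n 0 (n
 7477339 z (n 3508 z z)) (n 0 (n 3508 z (n 3508 z z)) (n 0 z z)))))) (n 2 (n 0 z (n 0 (n 8859747
 z z) (n 0 z (n 0 z (n 0 (n 6496387 z z) (n 0 (n 3509 z (n 7544963 z z)) z)))))) (n 2 (n 0 z (n
 0 z (n 0 z (n 0 z (n 0 z (n 0 z z)))))) z)))))) (n 0 z
 z))))))))))))))))))))))))))))))))))))))))) (n 459 (n 0 z (n 0 z (n 0 z (n 0 z (n 7754035 z (n 0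
 z (n 0 z (n 0 z (n 0 z (n 0 z (n 0 z (n 0 z (n 0 z (n 0 z (n 0 z (n 0 z (n 0 z (n 0 z (n 0 z (n
 0 z (n 0 z (n 0 z (n 0 z (n 0 z (n 0 z (n 0 z (n 0 z (n 0 z (n 0 z (n 0 z (n 0 z (n 0 z (n 0 z
 (n 0 z (n 0 z (n 0 z (n 0 z (n 0 z (n 0 z (n 0 z (n 0 z
 z))))))))))))))))))))))))))))))))))))))))) (n 441 (n 2 (n 1 z (n 2 (n 0 (n 6428763 z z) (n 0 (n
 3508 z z) (n 0 z (n 0 z (n 0 z (n 0 (n 8523891 z (n 2885 z z)) z)))))) (n 2 (n 0 z (n 0 z (n 0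
 z (n 0 z (n 0 z (n 0 z z)))))) (n 2 (n 0 z (n 0 z (n 0 z (n 0 z (n 0 z (n 0 z z)))))) z)))) (n
 0 z (n 0 z (n 0 z (n 0 z (n 0 z (n 0 z (n 0 z z)))))))) (n 457 (n 2 (n 2 (n 0 (n 6428763 z z)
 (n 0 (n 3508 z z) (n 0 z (n 0 z (n 0 z (n 0 (n 8523891 z (n 581 z z)) z)))))) (n 2 (n 0 z (n 0
 z (n 0 z (n 0 z (n 0 z (n 0 z z)))))) (n 2 (n 0 z (n 0 z (n 0 z (n 0 z (n 0 z (n 0 z z))))))
 z))) (n 0 z (n 0 z (n 0 z (n 0 z (n 0 z (n 0 z (n 0 z (n 0 z (n 0 z z)))))))))) (n 877 (n 0 z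
 (n 0 z (n 0 z (n 0 z (n 0 z (n 0 z (n 0 z (n
 0x2ec8ec60038247a189e79c8216a28618df76182195c91e92282081d85a95f85f6e27df7617618e189f7a10801 z
 z)))))))) (n 877 (n 0 z (n 0 z (n 0 z (n 0 z (n 0 z (n
 0x2ec8ec800382281f7df7e07e26a476485e7a482475f6e181f8dd81e7db95f81d7dd85e7dc8a095f8217a00801 z
 (n 0 z (n 0 z z)))))))) (n 877 (n 0 z (n 0 z (n 0 z (n 0 z (n 2 z (n 0 z (n 0 z (n 0 z
 z)))))))) z)))))))) (n 0 (n 1275 (n 0 z (n 0 z (n 0 z (n 0 z (n 0 z (n 0 z (n 0 z (n 0 z (n 0 z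
 (n 0 z (n 0 z (n 0 z (n 0 z (n 0 z (n 0 z (n 0 z (n 0 z (n 0 z (n 0 z (n 0 z (n 0 z (n 0 z (n 0
 z (n 0 z (n 2 (n 0 z (n 1 z (n 1 z (n 2 (n 0 z (n 0 z (n 0 z (n 0 z (n 0 z (n 0 z z)))))) (n 1
 z (n 2 (n 0 (n 8799011 z z) (n 0 z (n 0 (n 8799011 z z) (n 0 z (n 0 z (n 0 (n 8799011 z (n
 8799011 z z)) z)))))) z)))))) (n 0 z (n 0 z (n 0 z (n 0 z z))))))))))))))))))))))))))))) (n
 1275 (n 0 z (n 0 z (n 0 z (n 0 z (n 0 z (n 0 z (n 0 z (n 0 z (n 0 z (n 0 z (n 0 z (n 0 z (n 0 z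
 (n 0 z (n 0 z (n 0 z (n 0 z (n 0 z (n 0 z (n 0 z (n 0 z (n 0 z (n 0 z (n 0 z (n 0 z (n 0 z (n 0
 z (n 0 z (n 0 z z))))))))))))))))))))))))))))) (n 441 (n 2 (n 1 z (n 2 (n 0 (n 8783659 z z) (n
 0 z (n 0 z (n 0 z (n 0 (n 8864355 z z) (n 0 (n 8523891 z (n 8525579 z z)) z)))))) (n 1 z (n 1 z
 z)))) (n 0 z (n 0 z (n 0 z (n 0 z (n 0 z (n 0 z (n 0 z (n 0 z (n 0 z (n 0 z (n 0 z (n 0 z (n 0
 z (n 0 z (n 0 z (n 0 z (n 0 z (n 0 z (n 0 z (n 0 z z))))))))))))))))))))) (n 1273 (n 2 (n 2 (n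
 0 z (n 0 z (n 0 z (n 0 z (n 0 z (n 0 z z)))))) (n 1 z (n 2 (n 0 z (n 0 z (n 0 z (n 0 z (n 0 z
 (n 0 (n 8799011 z z) z)))))) z))) (n 0 z (n 0 z (n 0 z (n 0 z (n 0 z (n 0 z (n 0 z (n 0 z
 z))))))))) (n 865 (n 0 z (n 0 z (n 0 z (n 0 z (n 0 z (n 0 z (n 0 z (n 0 z (n 0 z (n 0 z (n 0 z
 (n 0 z (n 0 z (n 0 z (n 0 z z))))))))))))))) (n 865 (n 0 z (n 0 z (n 0 z (n 0 z (n 0 z (n 0 z
 (n 0 z (n 0 z (n 0 z (n 0 z (n 0 z (n 0 z (n 0 z (n 0 z (n 0 z z))))))))))))))) (n 865 (n 0 z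
 (n 0 z (n 0 z (n 0 z (n 0 z (n 0 z (n 0 z (n 0 z (n 0 z (n 0 z (n 0 z (n 0 z (n 0 z (n 0 z (n 0
 z z))))))))))))))) z))))))) (n 0 (n 0 z (n 273 (n 0 z (n 0 z (n 0 z (n 0 z (n 0 z (n 0 z (n 0 z
 z))))))) (n 261 (n 0 z (n 0 z (n 0 z (n 0 z (n 0 z (n 0 z (n 0 z (n 0 z z)))))))) (n 877 (n 0 z
 (n 0 z (n 0 z (n 0 z (n 0 z (n 0 z z)))))) (n 877 (n 0 z (n 0 z (n 0 z (n 0 z (n 0 z (n 0 z
 z)))))) (n 877 (n 2 z (n 0 z (n 0 z (n 0 z (n 0 z (n 0 z z)))))) z)))))) (n 0 (n 273 (n 0 z (n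
 0 z (n 0 z (n 0 z (n 0 z (n 2 (n 1 z (n 2 (n 0 (n 4532 z (n 8525579 z z)) (n 0 (n 8523891 z (n
 4532 z z)) (n 0 z (n 0 z (n 0 (n 8523891 z (n 8525579 z z)) (n 0 z z)))))) (n 2 (n 0 z (n 0 (n
 4532 z z) (n 0 z (n 0 (n 2885 z z) (n 0 z (n 0 (n 4532 z (n 4532 z z)) z)))))) (n 2 (n 0 z (n 0
 z (n 0 z (n 0 z (n 0 z (n 0 z z)))))) z)))) (n 0 z (n 0 z z)))))))) (n 261 (n 0 z (n 0 z (n 0 z
 (n 2 (n 2 (n 0 z (n 0 z (n 0 z (n 0 z (n 0 z (n 0 z z)))))) (n 2 (n 0 z (n 0 z (n 0 (n 4532 z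
 z) (n 0 z (n 0 z (n 0 (n 4532 z (n 4532 z z)) z)))))) (n 2 (n 0 (n 4532 z z) (n 0 z (n 0 z (n 0
 z (n 0 (n 4532 z z) (n 0 (n 8523891 z (n 4532 z z)) z)))))) z))) z)))) (n 1133 (n 0 z (n 0 z (n
 0 z (n 0 z (n 0 z (n 0 z (n 0 z (n 0 z (n 0 z z))))))))) (n 1133 (n 0 z (n 0 z (n 0 z (n 0 z (n
 0 z (n 0 z (n 0 z (n 0 z (n 2 (n 0 z z) z))))))))) (n 1133 (n 0 z (n 0 z (n 0 z (n 0 z (n 0 z
 (n 0 z (n 0 z (n 0 z (n 0 z z))))))))) z))))) (n 0 (n 99 (n 0 z (n 0 z (n 0 z (n 0 z (n 0 z (n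
 0 z (n 0 z (n 0 z (n 0 z (n 0 z (n 0 z (n 0 z z)))))))))))) (n 721 (n 0 z (n 2 (n 0 z (n 0 z
 z)) (n 0 z (n 0 z (n 0 z (n 0 z (n 0 z (n 0 z (n 0 z (n 0 z z)))))))))) (n 721 (n 0 z (n 0 z (n
 0 z (n 2 (n 0 z z) (n 0 z (n 0 z (n 0 z (n 0 z (n 0 z (n 0 z z)))))))))) (n 721 (n 0 z (n 0 z
 (n 0 z (n 0 z (n 0 z (n 0 z (n 2 z (n 0 z (n 0 z (n 0 z z)))))))))) z)))) (n 0 (n 145 (n 0 z (n
 0 z (n 0 z (n 0 z (n 0 z (n 2 (n 0 z (n 0 z z)) (n 0 z (n 0 z (n 0 z (n 0 z z)))))))))) (n 145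
 (n 0 z (n 0 z (n 0 z (n 0 z (n 0 z (n 0 z (n 2 (n 0 z z) (n 0 z (n 0 z (n 0 z z)))))))))) (n
 145 (n 0 z (n 0 z (n 0 z (n 2 z (n 0 z (n 0 z (n 0 z (n 0 z (n 0 z (n 0 z z)))))))))) z))) (n 0
 (n 0 z (n 0 z z)) (n 0 (n 0 z z) (n 0 z z))))))))))) (n 0 (n 1 (n 3282443 z (n 3282443 z (n
 3282443 z (n 3282443 z (n 3282443 z (n 3282443 z z)))))) (n 1 (n 3612 z (n 3612 z (n 3612 z (n
 3612 z (n 3612 z (n 3612 z z)))))) (n 1 (n 3612 z (n 3612 z (n 3540 z (n 3612 z (n 3612 z (n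
 3612 z z)))))) z))) (n 0 z z)))) (n 0x796943451b0228c80a262074b230516c851b6588d32d064b36010d780
 (n 0 (n 179 (n
 0xeca4a6420780480e7eb81a8057ee7de7de8038037f28018068068028087f680a80d8177de8058048048008077f87ef7f88038077e97f78118068027f27fe80080981e80780c8048108077f58038027fa0811
 z (n 0 z (n 0 z (n 0 z (n 2 z (n 6619675 z (n 0 z (n
 0xeca8ca82078077fc7f67fc7fc7fd7f37f37f37fe7ef80b7fd8107fd7f08048007ef8127f87fe7fe80980c7f27f68077fc7f58157ed8127fa8017f78067f97ff80781b8028058058048107fe7f77fc7ff0811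
 z (n 0 z (n 10 z (n 6426707 z (n 0 z (n
 0x5eca4a8420381284d7a08768127b776276e80c8037ae7ea80d81183e8007b082b82e85a75481c7e68267f78097a57d57f481e8327767d885e7fe81f7c17fc80184c8cb84a80e8077f88687c281b7f27f90811
 z (n 0 z (n 0 z (n 0 z (n
 0x2ca8ca84078047fb8077fa7fa7fc80280b7f78057fc7ff7ff8088068037fb8037f67f980b7fa8027f98047f77fb7fd80480380080280a7f58057fa80a7fd8057fe7f98028007fc8037fc8087f97ff8010811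
 z (n 0 z (n 6426707 z z))))))))))))))))))) (n 33 (n 0 z (n 0 z (n 0 z (n 18 z (n 0 z (n 0 z (n
 6426707 z (n 6426707 z z)))))))) (n 129 (n 26 z (n 0 z (n 0 z (n 6426707 z (n 6426707 z z)))))
 (n 27 (n 34 z (n 2164283 z (n 42 z z))) (n 1 (n 50 z (n 2164299 z (n 58 z (n 0 z (n 66 z (n 0 z
 (n 0 z z))))))) (n 0 (n 0 z (n 6619675 z (n 74 z (n 82 z (n 0 z (n 0 z z)))))) z)))))) (n 27 (n
 0 (n 0 z (n 1003 (n 0 z (n 0 z (n 0 z (n 0 z (n 0 z (n 0 z (n 0 z (n 0 z (n 0 z (n 0 z (n 2 (n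
 1 z (n 1 z (n 2 (n 0 z (n 0 z (n 0 z (n 0 (n 4004 z z) (n 0 (n 4004 z (n 4004 z z)) (n 0 (n
 4004 z z) z)))))) (n 2 (n 0 (n 8718139 z (n 8728691 z z)) (n 0 z (n 0 (n 8718139 z (n 1428 z
 z)) (n 0 z (n 0 z (n 0 (n 8728691 z (n 1428 z z)) z)))))) (n 2 (n 0 z (n 0 z (n 0 z (n 0 (n
 1933 z z) (n 0 (n 1428 z (n 1428 z z)) (n 0 (n 1428 z z) z)))))) (n 2 (n 0 z (n 0 z (n 0 z (n 0
 z (n 0 z (n 0 z z)))))) (n 2 (n 0 z (n 0 (n 644 z z) (n 0 z (n 0 z (n 0 (n 8718139 z (n 644 z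
 z)) (n 0 (n 6490139 z z) z)))))) (n 2 (n 0 (n 8803347 z z) (n 0 z (n 0 z (n 0 (n 8803347 z z)
 (n 0 (n 8803347 z (n 8803347 z z)) (n 0 z z)))))) z)))))))) (n 0 z (n 0 z (n 0 z
 z)))))))))))))) (n 1005 (n 0 z (n 0 z (n 0 z (n 0 z (n 2 (n 1 z (n 2 (n 0 z (n 0 (n 4004 z z)
 (n 0 z (n 0 z (n 0 (n 4004 z (n 4004 z z)) (n 0 z z)))))) (n 2 (n 0 z (n 0 z (n 0 z (n 0 z (n 0
 z (n 0 z z)))))) (n 2 (n 0 z (n 0 (n 1428 z z) (n 0 z (n 0 z (n 0 (n 1428 z (n 1428 z z)) (n 0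
 z z)))))) (n 2 (n 0 (n 1428 z z) (n 0 z (n 0 (n 1428 z z) (n 0 z (n 0 (n 1428 z (n 8728691 z
 z)) (n 0 z z)))))) (n 2 (n 0 z (n 0 z (n 0 z (n 0 (n 644 z z) (n 0 (n 7538715 z (n 644 z z)) (n
 0 (n 6490139 z z) z)))))) (n 2 (n 0 z (n 0 (n 8803347 z z) (n 0 z (n 0 z (n 0 (n 8803347 z (n
 8803347 z z)) (n 0 z z)))))) z))))))) (n 0 z (n 0 z z))))))) (n 1001 (n 0 z (n 0 z (n 0 z (n 2
 (n 0 z (n 2 (n 0 z (n 0 z (n 0 z (n 0 z (n 0 z (n 0 z z)))))) (n 2 (n 0 z (n 0 z (n 0 (n 1428 z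
 z) (n 0 (n 205 z z) (n 0 (n 1428 z (n 1428 z z)) (n 0 z z)))))) (n 2 (n 0 z (n 0 z (n 0 z (n 0
 z (n 0 z (n 0 z z)))))) (n 2 (n 0 z (n 0 z (n 0 z (n 0 z (n 0 z (n 0 z z)))))) (n 2 (n 0 z (n 0
 z (n 0 (n 8803347 z z) (n 0 z (n 0 (n 8803347 z (n 8803347 z z)) (n 0 (n 8803347 z z) z))))))
 z)))))) z)))) (n 1001 (n 0 z (n 0 z (n 0 z (n 0 z z)))) (n 357 (n 0 z (n 0 z (n 0 z (n 0 z (n 0
 z (n 0 z (n 0 z (n 0 z (n 0 z (n 0 z z)))))))))) (n 357 (n 0 z (n 0 z (n 0 z (n 0 z (n 0 z (n 0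
 z (n 0 z (n 0 z (n 0 z (n 2 (n 0 z (n 2 (n 0 z (n 0 z (n 0 z (n 0 z (n 0 z (n 0 z z)))))) (n 2
 (n 0 z (n 0 z (n 0 z (n 0 (n 8803347 z z) (n 0 (n 8803347 z (n 8803347 z z)) (n 0 (n 8803347 z
 z) z)))))) z))) z)))))))))) (n 357 (n 0 z (n 0 z (n 0 z (n 0 z (n 0 z (n 0 z (n 0 z (n 0 z (n 0
 z (n 0 z z)))))))))) (n 161 (n 0 z (n 0 z (n 0 z (n 0 z (n 0 z (n 0 z (n 0 z (n 0 z z))))))))
 (n 161 (n 0 z (n 0 z (n 0 z (n 0 z (n 0 z (n 0 z (n 0 z (n 7754771 z z)))))))) z)))))))))) (n 0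
 (n 227 (n 0 z (n 0 z (n 0 z (n 0 z (n 0 z (n 0 z z)))))) (n 225 (n 0 z (n 0 z (n 0 z (n 0 z (n
 0 z (n 0 z (n 0 z (n 0 z z)))))))) (n 1237 (n 0 z (n 0 z (n 0 z (n 0 z (n 0 z (n 0 z (n 0 z (n
 0 z (n 0 z (n 0 z (n 0 z (n 0 z (n 0 z (n 0 z (n 0 z (n 0 z (n 0 z z))))))))))))))))) (n 1237
 (n 0 z (n 2 (n 2 (n 0 (n 7669835 z (n 7743579 z z)) (n 0 z (n 0 (n 6621259 z (n 6621259 z z))
 (n 0 (n 532 z (n 532 z z)) (n 0 z (n 0 z z)))))) (n 1 z (n 2 (n 0 z (n 0 z (n 0 (n 8855811 z z)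
 (n 0 (n 8855811 z z) (n 0 (n 8855811 z (n 8855811 z z)) (n 0 z z)))))) (n 2 (n 0 z (n 0 (n
 8855811 z z) (n 0 z (n 0 (n 8855811 z z) (n 0 (n 8855811 z (n 8855811 z z)) (n 0 z z)))))) (n 2
 (n 0 z (n 0 z (n 0 z (n 0 z (n 0 z (n 0 z z)))))) z))))) (n 0 z (n 0 z (n 0 z (n 0 z (n 0 z (n
 0 z (n 0 z (n 0 z (n 0 z (n 0 z (n 0 z (n 0 z (n 0 z (n 0 z (n 0 z z))))))))))))))))) (n 133 (n
 0 z (n 0 z (n 0 z (n 0 z z)))) (n 133 (n 0 z (n 0 z (n 0 z (n 0 z z)))) (n 133 (n 2 (n 2 (n 0 z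
 (n 0 (n 8855811 z z) (n 0 (n 8855811 z z) (n 0 z (n 0 (n 8855811 z (n 8855811 z z)) (n 0 z
 z)))))) (n 2 (n 0 z (n 0 z (n 0 z (n 0 z (n 0 z (n 0 z z)))))) z)) (n 0 z (n 0 z (n 0 z z))))
 (n 725 (n 0 z (n 2 (n 0 z z) (n 0 z (n 0 z (n 0 z (n 0 z (n 0 z (n 0 z (n 0 z (n 0 z (n 0 z (n
 0 z (n 0 z (n 0 z z)))))))))))))) (n 725 (n 0 z (n 0 z (n 0 z (n 0 z (n 0 z (n 0 z (n 0 z (n 0
 z (n 2 z (n 0 z (n 0 z (n 0 z (n 0 z (n 0 z z)))))))))))))) z))))))))) (n 0 (n 1053 (n 0 z (n 0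
 z (n 0 z (n 0 z (n 0 z (n 0 z (n 0 z (n 0 z (n 0 z (n 0 z (n 0 z (n 0 z z)))))))))))) (n 1049
 (n 0 z (n 0 z (n 0 z (n 0 z (n 0 z (n 0 z (n 0 z (n 0 z (n 0 z z))))))))) (n 1049 (n 2 (n 2 (n
 0 z (n 0 z (n 0 z (n 0 z (n 0 z (n 0 z z)))))) (n 1 z (n 2 (n 0 z (n 0 z (n 0 z (n 0 z (n 0 (n
 8855811 z z) (n 0 z z)))))) (n 1 z (n 2 (n 0 z (n 0 z (n 0 z (n 0 z (n 0 z (n 0 z z))))))
 z))))) (n 0 z (n 0 z (n 0 z (n 0 z (n 0 z (n 0 z (n 0 z (n 0 z z))))))))) (n 483 (n 2 (n 0 z (n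
 0 z (n 2 (n 0 z (n 0 z (n 0 z (n 0 z (n 0 z (n 0 z z)))))) (n 2 (n 0 z (n 0 z (n 0 (n 8728675 z
 z) (n 0 z (n 0 (n 8718155 z (n 1924 z z)) (n 0 (n 8717883 z z) z)))))) z)))) (n 0 z (n 0 z (n 0
 z (n 0 z (n 0 z (n 0 z (n 0 z z)))))))) (n 483 (n 0 z (n 0 z (n 2 (n 0 z (n 1 z (n 2 (n 0 z (n
 0 z (n 0 z (n 0 z (n 0 z (n 0 z z)))))) z))) (n 0 z (n 0 z (n 0 z (n 0 z (n 0 z z)))))))) (n
 483 (n 0 z (n 0 z (n 0 z (n 2 (n 1 z (n 2 (n 0 z (n 0 z (n 0 z (n 0 z (n 0 z (n 0 z z)))))) z))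
 (n 0 z (n 0 z (n 0 z (n 0 z z)))))))) (n 481 (n 0 z (n 0 z (n 0 z (n 0 z (n 0 z (n 0 z (n 0 z
 (n 0 z (n 0 z (n 0 z (n 2 (n 0 z z) (n 7669307 z (n 0 z (n 0 z (n 0 z (n 0 z (n 0 z (n 0 z (n 0
 z (n 0 z (n 0 z (n 0 z (n 0 z (n 0 z (n 0 z (n 0 z (n 0 z (n 0 z (n 0 z
 z))))))))))))))))))))))))))))) (n 481 (n 0 z (n 0 z (n 0 z (n 0 z (n 0 z (n 0 z (n 0 z (n 0 z
 (n 0 z (n 0 z (n 0 z (n 0 z (n 2 z (n 0 z (n 0 z (n 0 z (n 0 z (n 0 z (n 0 z (n 0 z (n 0 z (n 0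
 z (n 0 z (n 0 z (n 0 z (n 0 z (n 0 z (n 0 z (n 0 z z))))))))))))))))))))))))))))) z)))))))) (n
 0 (n 1093 (n 0 z (n 0 z (n 0 z (n 0 z (n 0 z (n 0 z (n 0 z (n 0 z (n 0 z (n 0 z z)))))))))) (n
 1093 (n 0 z (n 2 (n 2 (n 0 (n 8717883 z z) (n 0 z (n 0 (n 8728675 z z) (n 0 z (n 0 (n 8790131 z
 (n 8861195 z z)) (n 0 z z)))))) (n 1 z (n 2 (n 0 z (n 0 z (n 0 z (n 0 z (n 0 (n 8855811 z z) (n
 0 z z)))))) (n 1 z (n 2 (n 0 z (n 0 z (n 0 z (n 0 z (n 0 z (n 0 z z)))))) z))))) (n 0 z (n 0 z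
 (n 0 z (n 0 z (n 0 z (n 0 z (n 0 z (n 0 z z)))))))))) (n 255 (n 0 z (n 2 (n 0 z (n 0 z (n 2 (n
 0 z (n 0 z (n 0 z (n 0 z (n 0 z (n 0 z z)))))) (n 2 (n 0 z (n 0 z (n 0 z (n 0 z (n 0 z (n 0 z
 z)))))) z)))) (n 0 z (n 0 z (n 0 z (n 0 z (n 0 z (n 0 z z)))))))) (n 255 (n 0 z (n 0 z (n 0 z
 (n 2 (n 0 z (n 2 (n 0 z (n 0 z (n 0 z (n 0 z (n 0 (n 8855811 z z) (n 0 z z)))))) (n 2 (n 0 z (n
 0 z (n 0 z (n 0 z (n 0 z (n 0 z z)))))) z))) (n 0 z (n 0 z (n 0 z (n 0 z z)))))))) (n 255 (n 0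
 z (n 0 z (n 2 (n 2 (n 0 z (n 0 z (n 0 z (n 0 z (n 0 (n 8855811 z z) (n 0 z z)))))) (n 2 (n 0 z
 (n 0 z (n 0 z (n 0 z (n 0 z (n 0 z z)))))) z)) (n 0 z (n 0 z (n 0 z (n 0 z (n 0 z z)))))))) (n
 253 (n 0 z (n 2 (n 0 z z) (n 0 z (n 0 z z)))) (n 253 (n 0 z (n 0 z (n 0 z (n 2 z z)))) z)))))))
 (n 0 (n 0 z (n 51 (n 0 z (n 2 (n 0 z (n 0 z (n 2 (n 0 z (n 0 z (n 0 z (n 0 z (n 0 z (n 0 z
 z)))))) (n 2 (n 0 z (n 0 z (n 0 z (n 0 (n 196 z z) (n 0 (n 196 z (n 196 z z)) (n 0 (n 8717883 z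
 z) z)))))) z)))) (n 0 z (n 0 z (n 0 z (n 0 z (n 0 z z))))))) (n 51 (n 0 z (n 0 z (n 0 z (n 0 z
 (n 2 (n 0 z (n 2 (n 0 z (n 0 z (n 0 z (n 0 z (n 0 (n 8855811 z z) (n 0 z z)))))) (n 2 (n 0 z (n
 0 z (n 0 z (n 0 z (n 0 z (n 0 z z)))))) z))) (n 0 z (n 0 z z))))))) (n 51 (n 0 z (n 0 z (n 2 (n
 2 (n 0 z (n 0 z (n 0 z (n 0 z (n 0 (n 8855811 z z) (n 0 z z)))))) (n 2 (n 0 z (n 0 z (n 0 z (n
 0 z (n 0 z (n 0 z z)))))) z)) (n 0 z (n 0 z (n 0 z (n 0 z z))))))) (n 49 (n 0 z (n 0 z (n 2 (n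
 0 z z) (n 0 z (n 0 z (n 0 z (n 0 z z))))))) (n 49 (n 0 z (n 0 z (n 0 z (n 0 z (n 2 z (n 0 z (n
 0 z z))))))) z)))))) (n 0 (n 111 (n 0 z (n 0 z (n 0 z (n 0 z (n 0 z z))))) (n 111 (n 0 z (n 0 z
 (n 0 z (n 0 z (n 0 z z))))) (n 111 (n 0 z (n 0 z (n 0 z (n 0 z (n 0 z z))))) (n 109 (n 0 z (n 0
 z (n 0 z (n 0 z (n 0 z (n 0 z (n 0 z (n 0 z (n 0 z z))))))))) (n 109 (n 0 z (n 0 z (n 0 z (n 0
 z (n 2 z (n 0 z (n 0 z (n 0 z (n 0 z z))))))))) z))))) (n 0 (n 0 z (n 0 z (n 1 (n 0 z (n 0 z (n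
 0 z (n 7669323 z (n 0 z (n 0 z (n 0 z z))))))) (n 1 (n 0 z (n 0 z (n 0 z (n 0 z (n 0 z (n 0 z
 (n 0 z z))))))) z)))) (n 0 (n 0 z (n 1013 (n 0 z (n 0 z (n 0 z (n 0 z (n 0 z (n 0 z (n 0 z (n 0
 z (n 0 z (n 0 z (n 0 z (n 0 z (n 0 z (n 0 z (n 0 z (n 0 z (n 0 z (n 0 z (n 0 z (n 0 z (n 0 z (n
 0 z (n 0 z (n 0 z (n 0 z (n 0 z (n 0 z (n 0 z (n 0 z (n 0 z (n 0 z (n 0 z (n 0 z (n 0 z (n 0 z
 (n 0 z (n 0 z (n 0 z (n 0 z (n 0 z (n 0 z (n 0 z (n 0 z (n 0 z (n 0 z (n 0 z (n 0 z (n 0 z (n 0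
 z z))))))))))))))))))))))))))))))))))))))))))))))))) (n 1013 (n 0 z (n 0 z (n 0 z (n 0 z (n
 0x1cc86ea24037f681a8158157fd80280a7fc81a7fe8007db8107f68088047f98008107f97fe8048097e37f880d8167fc7ee7fc8107ed7d780d80882b7fa80b7e780e82a7e47f77f57fc80d7e17e98097fc0811
 z (n
 0x18c86ea24078037f97e78047f87f67db7f17ec8077f58177f97ff8087f080580680481a7dd8027f68218097e87ea7f07f97fb8107f981081b8007ec7f17ed81180482581e80980280482b8047ff7ee8000811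
 z (n 0 z (n 0 z (n 0 z (n 0 z (n 0 z (n 0 z (n 0 z (n 0 z (n 0 z (n 0 z (n 0 z (n 0 z (n 0 z (n
 0 z (n 0 z (n 0 z (n 0 z (n 0 z (n 0 z (n 0 z (n 0 z (n 0 z (n 0 z (n 0 z (n 0 z (n 0 z (n 0 z
 (n 0 z (n 0 z (n 0 z (n 0 z (n 0 z (n 0 z (n 0 z (n 0 z (n 0 z (n 0 z (n 0 z (n 0 z (n 0 z (n 0
 z (n 0 z (n 0 z z))))))))))))))))))))))))))))))))))))))))))))))))) z))) (n 0 (n 157 (n 0 z (n 0
 z (n 0 z (n 0 z (n 0 z (n 0 z (n 0 z (n 0 z (n 0 z (n 0 z (n 0 z (n 0 z (n 0 z (n 0 z (n 0 z (n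
 0 z (n 0 z (n 0 z (n 0 z (n 0 z (n 0 z (n 0 z (n 0 z (n 0 z (n 0 z (n 0 z (n 0 z (n 0 z (n 0 z
 (n 0 z (n 0 z (n 0 z (n 0 z (n 0 z (n 0 z (n 0 z (n 0 z (n 0 z (n 0 z (n 0 z (n 0 z (n 0 z (n 0
 z (n 0 z (n 0 z (n 0 z (n 0 z (n 0 z (n 0 z (n 0 z (n 0 z (n 0 z (n 0 z (n 0 z (n 0 z (n 0 z
 z)))))))))))))))))))))))))))))))))))))))))))))))))))))))) (n 157 (n 0 z (n 0 z (n 0 z (n 0 z (n
 0 z (n 0 z (n 0 z (n 0 z (n 0 z (n 0 z (n 0 z (n 0 z (n 0 z (n 0 z (n 0 z (n 0 z (n 0 z (n 0 z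
 (n 0 z (n 0 z (n 0 z (n 0 z (n 0 z (n 0 z (n 0 z (n 0 z (n 0 z (n 0 z (n 0 z (n 0 z (n 0 z (n 0
 z (n 0 z (n 0 z (n 0 z (n 0 z (n 0 z (n 0 z (n 0 z (n 0 z (n 0 z (n 0 z (n 0 z (n 0 z (n 0 z (n
 0 z (n 0 z (n 0 z (n 0 z (n 0 z (n 0 z (n 0 z (n 0 z (n 0 z (n 2 z (n 0 z
 z)))))))))))))))))))))))))))))))))))))))))))))))))))))))) z)) (n 0 (n 0 z z) (n 0 z
 z))))))))))) (n 0 (n 1 (n 1436 z (n 1436 z (n 1436 z (n 1436 z (n 1436 z (n 1436 z z)))))) (n 1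
 (n 2164283 z (n 2164283 z (n 2164283 z (n 2164283 z (n 2164283 z (n 2164283 z z)))))) (n 1 (n
 1436 z (n 1436 z (n 1436 z (n 1436 z (n 1436 z (n 1436 z z)))))) z))) (n 0 z z)))) (n
 0x22c9b8631c383899c8448e4c23b6219 (n 0 (n 201 (n 3282443 z (n 0 z (n 0 z (n 0 z z)))) (n 459 (n
 3278363 z (n 0 z (n 0 z (n 0 z (n 2 z (n 10 z (n 0 z z))))))) (n 135 (n 18 z (n 0 z (n 0 z (n 0
 z (n 0 z (n 0 z (n 0 z (n 3212843 z (n 0 z (n 0 z z)))))))))) (n 3 (n 2164283 z (n 26 z (n 0 z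
 (n 0 z (n 0 z (n 0 z z)))))) (n 1 (n 0 z (n
 0x1a36106e5a8b7990a56d78867da76f8973826f6f6caa897d907f867d868d8a7a7e7c666c87718f8585767b7776806b88748b9578810049
 z (n 0 z (n 2164299 z (n 34 z z))))) (n 0 (n
 0x16ca88604077e808280817f7e857e84807c82847d7f7d807d837e847f7f817b857f80818381827e8283847c7c7f7f7e81807e80818180800809
 z (n 0 z (n
 0x4c86c8640380808083818480837d7d8080807d80797f81808082818180817f8382837e7f7e7f7c80837e837f80807c8181817f8281817f0809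
 z (n 0 z (n
 0x8c86c604038a787d9b768773847a82838d786e7c828a76807a857b8680858382798683828e7f838277867e7c817a827d838f76827b897e0809
 z (n 42 z (n
 0x6c86c624077b847f797e83827c7e8284808081807d8680857c867e7c847c7c8281807d7d7e827c84847f827e827f817f8081827e7f80810809
 z (n
 0x2c86c864037e847e7e8280827e807e8080807e827e8080807f81808080808080808080807e817e807f7f808280807f8280807e7e82807e0809
 z (n 6619675 z (n 6619675 z (n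
 0xc86c864037f827f808080817f80808080807f80808180807f80807f80808080808080808081808080808080808080808080807f8080800809
 z (n 0 z (n 0 z (n 0 z (n 0 z (n 0 z (n 0 z (n
 0x6ca88624037e80827f828383827d80807c82827f7d7f7f7c8082837f7f807f8182837e7f827b7e7e808480817f7b837f837e7c7e837f7f0809
 z (n
 0xc86c864037f827f808080817f80808080808080808180818080807f80808080808080807f8180808080808081807f808080808080807f0809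
 z (n 0 z (n
 0x6c84c806037b847f797e83827c7e8284808081807d8680857c867e7c847c7c8281807d7d7e827c84847f827e827f817f8081827e7f80810809
 z (n 0 z (n 6619675 z (n 0 z (n 6619675 z (n 0 z (n
 0x1a36406e5a8b7990a56d78867da76f8973826f6f6caa897d907f867d868d8a7a7e7c666c87718f8585767b7776806b88748b9578810049
 z (n
 0xc86c864037f827f808081817f818080808080807f8180808080807f80808080808080807f8180808080808080807f80808080808080800809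
 z (n 0 z z))))))))))))))))))))))))))))) z)))))) (n 201 (n 0 (n 0 z (n 921 (n 0 z (n 0 z (n 0 z
 (n 0 z (n 0 z z))))) (n 487 (n 0 z (n 0 z (n 0 z (n 0 z (n 0 z (n 0 z (n 0 z z))))))) (n 483 (n
 0 z (n 0 z (n 0 z (n 0 z (n 0 z (n 0 z (n 0 z (n 0 z (n 0 z (n 0 z (n 0 z (n 0 z (n 0 z (n 0 z
 (n 0 z (n 0 z (n 0 z (n 0 z (n 0 z (n 0 z z)))))))))))))))))))) (n 481 (n 0 z (n 0 z (n
 0x8ec8c846078a787d9b768773847a82838d786e7c828a76807a857b8680858382798683828e7f838277867e7c817a827d838f76827b897e0809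
 z (n 0 z (n 0 z (n 0 z (n 0 z (n 0 z (n 0 z (n 0 z z)))))))))) z))))) (n 0 (n 1359 (n 0 z (n 0
 z (n 0 z (n 0 z (n 0 z (n 0 z z)))))) (n 55 (n 0 z (n 0 z (n 0 z (n 0 z (n 0 z (n 0 z (n 0 z (n
 0 z (n 0 z (n 0 z (n 0 z (n 0 z (n 0 z z))))))))))))) (n 1273 (n 0 z (n 0 z (n 2 (n 1 z z) (n 0
 z (n 0 z (n 0 z (n 0 z (n 0 z z)))))))) (n 49 (n 0 z (n 0 z (n 0 z (n 0 z (n 0 z (n 0 z (n 0 z
 (n 0 z (n 2 z (n 0 z (n 0 z (n 0 z (n 0 z (n 0 z (n 0 z (n 0 z (n 0 z (n 0 z (n 0 z (n 0 z (n 0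
 z (n 0 z (n 0 z (n 0 z (n 0 z z))))))))))))))))))))))))) z)))) (n 0 (n 267 (n 0 z (n 0 z (n 0 z
 (n 0 z (n 0 z (n 0 z (n 0 z (n 0 z (n 0 z (n 0 z (n 0 z (n 0 z (n 0 z (n 0 z (n 0 z (n 0 z (n 0
 z (n 0 z (n 0 z (n 0 z z)))))))))))))))))))) (n 1369 (n 0 z (n 0 z (n 0 z (n 2 (n 1 z z) (n 0 z
 (n 0 z (n 0 z (n 0 z z)))))))) (n 269 (n 0 z (n 0 z (n 2 z (n 0 z (n 0 z (n 0 z (n 0 z (n 0 z
 z)))))))) z))) (n 0 (n 51 (n 0 z (n 0 z (n 0 z (n 2 (n 1 z z) (n 0 z z))))) (n 49 (n 2 z (n 0 z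
 (n 0 z (n 0 z (n 0 z (n 0 z (n 0 z (n 0 z (n 0 z (n 0 z (n 0 z (n 0 z (n 0 z z))))))))))))) z))
 (n 0 (n 1 (n 0 z (n 0 z (n 0 z (n 0 z (n 0 z (n
 0x11d4d90c80e0ec86ea2407877f7e9b798f6d73808278877d79837b7a797c7f778e967a8c7f7d798a8881828b8187747c85816d85848574907c8c7b89831009
 z (n 0 z (n 0 z (n 0 z (n 0 z (n 0 z (n 0 z (n 0 z z))))))))))))) z) (n 0 z z)))))) (n 0 (n 1
 (n 3282443 z (n 3282443 z (n 3282443 z (n 3282443 z (n 3282443 z (n 3282443 z z)))))) (n 0 z (n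
 0 z (n 0 z z)))) (n 0 z z)))) (n 0xd6934286ca09455848b9448129920a454162 (n 0 (n 443 (n 3282443
 z (n 0 z z)) (n 574 (n 3278363 z z) (n 439 (n 2 z (n
 0x1328b28181c00994d50c006020ca6a8200380a8077f27f680d8058008017f98018167fa80e81080c80c7ec7fa8087f27f97f07f47ff7f08007ff8007f78058037ff8028158058017e58078098048147f27f97fe7fe8167ea7f17f68081811
 z (n 0 z (n 10 z (n 0 z (n 18 z (n 3212843 z (n 26 z (n
 0x16995001cb2a00496108098167fa7f780b8047f78087f88017f780b7f28087fc7f680d7fa7f97f58067fd7fb80380480c7f48157f87ec8077f880a7e58017f08117fc7ff80380480480f8057fb7fb80380a8047f700d1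
 z z))))))))) (n 3 (n 0 z (n 2164283 z z)) (n 1 (n 2164299 z (n 0 z z)) (n 0 (n 34 z (n 0 z (n
 0x10c84c842037f77e180d80a7e88028107eb8147f68127e87f97f88118127fc7fc8057fc7f18018078078027ee8107e68148147f88227f282b7f67f77f67f97f87fc7e88027df80a80d80480e7fe80380d0811
 z (n 42 z (n 0 z (n 0 z (n 2164315 z (n 0 z (n 0 z (n 0 z (n 0 z (n 0 z (n
 0x1cc84c840037f77ff80d8007ea7fa8057f78068007f47f37f37ff80781f8057f48077fb7fd7f47f880b80180f8017e58058197f47f97fc7fd7f57fd7f77fe7f58027de8177f681280f7eb8128168027fa0811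
 z (n 0 z (n 50 z (n
 0xb21b18100c00d9058c0806004c64c640037fc7fa80b8067f27fd8017f380e7fe8027e58047f880e8147f87f980e7fd7f07fa8008037fe7fd80e7ea8068127f88007ef8187fc8047ee8017fa8067fb7fe7ec8028077ff8018008008041811
 z (n 0 z (n 0 z (n
 0x6c84c842038018087fa7f68067fc8018097f78007fe8117fc7fe7fa8018077f77fa7f680a7fe7ff8018018037f67fe8057ff7fb7fa80e7f67ff7f680080280e7fe7fa7fd8058018087fb8018078007ff0811
 z (n 0 z (n 0 z (n 0 z (n 0 z z))))))))))))))))))))))) z)))))) (n 574 (n 0 (n 0 z (n 0 z (n 0 z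
 (n 881 (n 0 z (n 0 z (n 0 z (n 0 z (n 0 z (n 0 z (n 0 z (n 0 z (n 0 z (n 0 z (n 0 z (n 0 z (n 0
 z z))))))))))))) (n 881 (n 0 z (n 0 z (n 0 z (n 0 z (n 0 z (n 0 z (n 0 z (n 0 z (n 0 z (n 0 z
 (n 0 z (n 0 z (n 0 z z))))))))))))) (n 881 (n 0 z (n 0 z (n 0 z (n 0 z (n 0 z (n 0 z (n 0 z (n
 0 z (n 0 z (n 0 z (n 0 z (n 0 z (n 0 z z))))))))))))) z)))))) (n 0 (n 0 z (n 0 z (n 605 (n 0 z
 (n 0 z (n 0 z (n 0 z (n 0 z (n 0 z (n 0 z (n 0 z (n 0 z (n 0 z (n 0 z (n 0 z (n 0 z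
 z))))))))))))) (n 605 (n 0 z (n 0 z (n 0 z (n 0 z (n 0 z (n 0 z (n 0 z (n 0 z (n 0 z (n 0 z (n
 0 z (n 0 z (n 0 z z))))))))))))) (n 605 (n
 0x153a1ba1901c179d4d90840e072ca6a620078798eb73478290980a7e789f7427fc7849417df83973575180e7fc7827a88877a37b58458468817479297f374e81176f8bd6738007e58ea7e27f48277ee7de8d081e7037cb7ed8748417ad1811
 z (n 0 z (n 0 z (n 0 z (n 0 z (n 0 z (n 0 z (n 0 z (n 0 z (n 0 z (n 0 z (n 0 z (n 0 z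
 z))))))))))))) z))))) (n 0 (n 0 z (n 529 (n 0 z (n 0 z (n 0 z (n 0 z (n 0 z (n 0 z (n 0 z (n 0
 z (n 0 z (n 0 z (n 0 z z))))))))))) (n 529 (n 0 z (n 0 z (n 0 z (n 2 (n 0 z z) (n 0 z (n 0 z (n
 0 z (n 0 z (n 0 z (n 0 z (n 0 z z))))))))))) (n 529 (n 0 z (n 0 z (n 0 z (n 0 z (n 0 z (n 0 z
 (n 0 z (n 0 z (n 0 z (n 0 z (n 0 z z))))))))))) z)))) (n 0 (n 893 (n 0 z (n 0 z (n 0 z (n 0 z
 (n 0 z (n 0 z (n 0 z (n 0 z (n 0 z (n 0 z z)))))))))) (n 893 (n 0 z (n 0 z (n 0 z (n 0 z (n 2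
 (n 0 z z) (n 0 z (n 0 z (n 0 z (n 0 z (n 0 z z)))))))))) (n 893 (n 0 z (n 0 z (n 0 z (n 0 z (n
 0 z (n 0 z (n 0 z (n 0 z (n 0 z (n 0 z z)))))))))) z))) (n 0 (n 0 z (n 0 z z)) (n 0 (n 0 z z)
 (n 0 z z))))))) (n 0 (n 1 (n 3278363 z (n 3278363 z (n 3278363 z (n 3278363 z (n 3278363 z (n
 3278363 z z)))))) z) (n 0 z z)))) (n 0x6a5ba1eced236761633acbc1d45617288d0c97b0a4bd980c9640 (n
 0xbd9d (n 587 (n 3282443 z (n 0 z (n 0 z (n 2 z (n 6488603 z (n 0 z (n 0 z (n 10 z z)))))))) (n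
 57 (n 18 z (n 6496515 z (n 6496515 z (n 0 z (n 6496515 z (n 0 z (n 26 z (n 0 z (n
 0x4b6306c7078727f8e6f847b73868a997096797877768779647a7a846a82907c7c837e8b79726a8f7c9569a6839280568da07c73ab0049
 z (n 0 z (n 6496515 z (n 0 z (n 0 z z))))))))))))) (n 9 (n 34 z (n 42 z (n 0 z (n 0 z (n
 0x4ca6ca62037f82807f8080817b807f817e8080847f7e8180828181807f807e807f81817f7f7d7e7f8181817e7e808280808080818080810809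
 z (n 0 z (n 6496515 z (n 0 z z)))))))) (n 3 (n
 0x1aca8ca84037a7280807f706b809a96777da07a8c9d68748fb778728471835f807f917e8293929d795a7f689b43966d5a463d95866474b20809
 z (n 50 z (n 0 z (n
 0xab29308200c1d95195080618ca4ca4207807977828c666b83959b8986827b888c669191996d7c81797989809a7797a1828bb59477718e8a718772525c8786746587861809
 z (n 0 z (n 6493227 z (n 6496515 z (n 6496515 z (n 0 z (n 0 z (n 0 z z))))))))))) (n 1 (n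
 6562099 z (n 58 z z)) (n 0 (n 0 z (n 2164315 z (n 66 z (n 0 z (n 74 z z))))) z)))))) (n 1 (n 0
 (n 0 z (n 179 (n 0 z (n 0 z (n 0 z (n 0 z (n 0 z (n 0 z (n 0 z z))))))) (n 179 (n 0 z (n 0 z (n
 0 z (n 0 z (n 0 z (n 0 z (n 0 z z))))))) (n 151 (n 2 (n 0 z (n 1 z (n 1 z (n 1 z (n 1 z z)))))
 (n 0 z (n 0 z (n 0 z (n 0 z (n 0 z (n 0 z (n 0 z (n 0 z (n 0 z z)))))))))) (n 151 (n 0 z (n 0 z
 (n 0 z (n 0 z (n 0 z (n 0 z (n 0 z (n 0 z (n 0 z (n 0 z z)))))))))) (n 153 (n 0 z (n 0 z (n 0 z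
 (n 0 z (n 0 z (n 0 z (n 0 z z))))))) (n 15 (n 0 z (n 0 z (n 0 z (n 0 z (n 0 z (n 0 z (n 0 z (n
 0 z (n 0 z (n 0 z z)))))))))) (n 29 (n 0 z (n 0 z (n 0 z (n 0 z (n 0 z z))))) (n 29 (n 0 z (n 2
 z (n 0 z (n 0 z (n 0 z z))))) z))))))))) (n 0 (n 1403 (n 0 z (n 0 z (n 0 z (n 0 z (n 0 z (n 0 z
 (n 0 z z))))))) (n 1403 (n 0 z (n 0 z (n 0 z (n 0 z (n 0 z (n 2 (n 2 (n 0 z (n 0 (n 5580 z z)
 (n 0 z (n 0 (n 8521547 z (n 5580 z z)) (n 0 (n 5580 z z) (n 0 z z)))))) (n 1 z (n 1 z (n 1 z (n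
 1 z (n 1 z z)))))) (n 0 z z))))))) (n 1395 (n 0 z (n 0 z (n 0 z (n 0 z (n 0 z (n 2 (n 0 z (n 1
 z (n 1 z (n 1 z (n 1 z z))))) (n 0 z z))))))) (n 1395 (n 0 z (n 0 z (n 0 z (n 0 z (n 0 z (n 0 z
 (n 0 z z))))))) (n 1393 (n 0 z (n 0 z (n 0 z (n 0 z z)))) (n 1205 (n 0 z (n 0 z (n 0 z (n 0 z
 (n 0 z (n 0 z (n 0 z (n 0 z (n 0 z z))))))))) (n 401 (n 0 z (n 0 z (n 0 z (n 0 z (n 0 z (n 0 z
 z)))))) (n 401 (n 0 z (n 0 z (n 0 z (n 0 z (n 0 z (n 7754515 z z)))))) z)))))))) (n 0 (n 0 z (n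
 1407 (n 0 z (n 0 z (n 0 z (n 0 z (n 0 z (n 2 (n 0 z (n 1 z (n 1 z (n 1 z (n 1 z z))))) z))))))
 (n 1407 (n 0 z (n 0 z (n 0 z (n 0 z (n 0 z (n 0 z z)))))) (n 1405 (n 0 z (n 0 z (n 0 z (n 0 z
 (n 0 z (n 0 z (n 0 z (n 0 z (n 0 z (n 0 z (n 0 z (n 0 z (n 0 z (n 0 z (n 0 z z)))))))))))))))
 (n 117 (n 0 z (n 0 z (n 0 z (n 0 z (n 0 z (n 0 z (n 0 z (n 0 z (n 0 z (n 0 z z)))))))))) (n 113
 (n 0 z (n 0 z (n 0 z (n 0 z (n 0 z (n 0 z (n 0 z z))))))) (n 113 (n 0 z (n 0 z (n 0 z (n 0 z (n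
 0 z (n 0 z (n 2 z z))))))) z))))))) (n 0 (n 775 (n 2 (n 0 z (n 2 (n 0 z (n 0 (n 4660 z z) (n 0
 z (n 0 (n 6428763 z (n 7608379 z z)) (n 0 z (n 0 (n 5685 z z) z)))))) (n 2 (n 0 (n 444 z z) (n
 0 z (n 0 (n 8865307 z z) (n 0 (n 6428763 z (n 6428763 z z)) (n 0 z (n 0 z z)))))) (n 2 (n 0 (n
 6559803 z z) (n 0 z (n 0 z (n 0 (n 6428763 z (n 6428763 z z)) (n 0 (n 8730123 z z) (n 0 z
 z)))))) (n 2 (n 0 z (n 0 (n 2884 z z) (n 0 z (n 0 (n 6494299 z (n 6494299 z z)) (n 0 z (n 0 (n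
 8521291 z z) z)))))) z))))) (n 0 z (n 0 z (n 0 z (n 0 z (n 0 z (n 0 z (n 0 z z)))))))) (n 775
 (n 0 z (n 0 z (n 2 (n 1 z (n 1 z (n 1 z (n 1 z z)))) (n 0 z (n 0 z (n 0 z (n 0 z (n 0 z
 z)))))))) (n 1165 (n 0 z (n 0 z (n 0 z (n 0 z (n 2 (n 1 z (n 1 z (n 1 z z))) z))))) (n 111 (n 0
 z (n 2 (n 1 z (n 1 z z)) (n 0 z (n 0 z z)))) (n 721 (n 0 z (n 0 z (n 0 z (n 2 (n 0 z z) (n 0 z
 (n 0 z (n 0 z (n 0 z (n 0 z z))))))))) (n 721 (n 0 z (n 0 z (n 0 z (n 0 z (n 0 z (n 0 z (n 0 z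
 (n 0 z (n 0 z z))))))))) z)))))) (n 0 (n 0 z (n 1421 (n 0 z (n 0 z (n 0 z (n 0 z (n 0 z (n 0 z
 (n 0 z (n 2 (n 1 z (n 1 z (n 1 z z))) (n 0 z (n 0 z (n 0 z z))))))))))) (n 21 (n 0 z (n 0 z (n
 0 z (n 0 z (n 2 (n 1 z (n 1 z z)) (n 0 z (n 0 z (n 0 z (n 0 z (n 0 z (n 0 z (n 0 z (n 0 z (n 0
 z (n 0 z z))))))))))))))) (n 17 (n 0 z (n 0 z (n 2 (n 0 z z) (n 0 z z)))) (n 17 (n 0 z (n 0 z
 (n 0 z (n 0 z z)))) z))))) (n 0 (n 1421 (n 0 z (n 0 z (n 0 z (n 0 z (n 0 z (n 0 z (n 0 z (n 0 z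
 z)))))))) (n 21 (n 0 z (n 0 z (n 0 z (n 0 z (n 0 z (n 0 z z)))))) (n 17 (n 0 z (n 0 z (n 0 z (n
 0 z (n 0 z (n 0 z (n 0 z z))))))) (n 17 (n 0 z (n 0 z (n 0 z (n 0 z (n 0 z (n 0 z (n 7754515 z
 z))))))) z)))) (n 0 (n 9 (n 0 z (n 0 z (n 0 z (n 0 z (n 0 z (n 0 z (n 0 z (n 0 z z)))))))) (n 5
 (n 0 z (n 0 z (n 0 z (n 0 z (n 0 z (n 0 z (n 0 z (n 0 z (n 0 z (n 0 z (n 0 z (n 0 z (n 0 z (n 0
 z z)))))))))))))) (n 5 (n 0 z (n 0 z (n 0 z (n 0 z (n 0 z (n 0 z (n 0 z (n 0 z (n 0 z (n 0 z (n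
 0 z (n 0 z (n 0 z (n 7754515 z z)))))))))))))) z))) (n 0 (n 1 (n 0 z (n 0 z (n 0 z (n 0 z (n 0
 z (n 0 z (n 0 z z))))))) (n 1 (n 0 z (n 0 z (n 0 z (n 0 z (n 0 z (n 0 z (n 7754515 z z)))))))
 z)) (n 0 (n 0 z z) (n 0 z z)))))))))) (n 0 (n 1 (n 6562099 z (n 6562099 z (n 6562099 z (n
 6562099 z (n 6562099 z (n 6562099 z z)))))) (n 1 (n 4331099 z (n 4700 z (n 2 z (n 4700 z (n
 4700 z (n 6493227 z z)))))) z)) (n 0 (n 0x656172d11a19 (n 0 (n 0 (n 7754515 z (n 7754515 z (n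
 7754515 z (n 7754515 z (n 7754515 z (n 7754515 z z)))))) z) (n 0 (n 696 (n 1 (n 3282699 z (n
 7537179 z (n 7610675 z (n 7537179 z (n 7537179 z (n 7537179 z z)))))) (n 1 (n 7745603 z (n
 7745603 z (n 7610675 z (n 7745603 z (n 7745603 z (n 7745603 z z)))))) (n 1 (n 7754515 z (n
 7754515 z (n 7754515 z (n 7754515 z (n 7754515 z (n 7754515 z z)))))) (n 0 z z)))) (n 703 (n 1
 (n 5449483 z (n 7541803 z (n 5660 z (n 5660 z (n 2 z (n 5660 z z)))))) (n 1 (n 7545091 z (n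
 7545091 z (n 7545091 z (n 7545091 z (n 7545091 z (n 7545091 z z)))))) (n 1 (n 7545091 z (n
 7545091 z (n 7545091 z (n 7545091 z (n 7545091 z (n 7545091 z z)))))) (n 1 (n 7545091 z (n
 7545091 z (n 7545091 z (n 7545091 z (n 7545091 z (n 7545091 z z)))))) (n 0 z (n 1 (n 5660 z (n
 6563611 z (n 5660 z (n 5660 z (n 6629195 z (n 7734059 z z)))))) z)))))) (n 709 (n 1 (n 5445387
 z (n 7746587 z (n 7754515 z (n 5692 z (n 5692 z (n 5692 z z)))))) (n 1 (n 7545091 z (n 7545091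
 z (n 7545091 z (n 7545091 z (n 7545091 z (n 7545091 z z)))))) (n 1 (n 7545091 z (n 7545091 z (n
 7545091 z (n 7545091 z (n 7545091 z (n 7545091 z z)))))) (n 1 (n 7545091 z (n 7545091 z (n
 7545091 z (n 7545091 z (n 7545091 z (n 7545091 z z)))))) (n 0 z (n 1 (n 5692 z (n 7746587 z (n
 7754515 z (n 5692 z (n 10 z (n 5692 z z)))))) z)))))) (n 717 (n 1 (n 7545091 z (n 7537179 z (n
 7537179 z (n 7537179 z (n 7537179 z (n 7537179 z z)))))) (n 1 (n 7545091 z (n 7745603 z (n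
 7745603 z (n 7745603 z (n 7745603 z (n 7745603 z z)))))) (n 1 (n 7545091 z (n 7754515 z (n
 7754515 z (n 7754515 z (n 7754515 z (n 7754515 z z)))))) (n 0 z z)))) (n 1 (n 1 (n 7610675 z (n
 7610675 z (n 7610675 z (n 7610675 z (n 7610675 z (n 7610675 z z)))))) (n 1 (n 7754515 z (n
 7754515 z (n 7754515 z (n 7754515 z (n 7754515 z (n 7754515 z z)))))) z)) (n 0 (n 0 z (n 1 (n
 7754515 z (n 7754515 z (n 7754515 z (n 7754515 z (n 7754515 z (n 7754515 z z)))))) (n 1 (n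
 7754515 z (n 7754515 z (n 7754515 z (n 7754515 z (n 7754515 z (n 7754515 z z)))))) (n 0 z (n 1
 (n 7754515 z (n 7754515 z (n 7754515 z (n 7754515 z (n 7754515 z (n 7754515 z z)))))) z))))) (n
 1 (n 1 (n 7610675 z (n 7610675 z (n 7610675 z (n 7610675 z (n 7610675 z (n 7610675 z z)))))) (n
 1 (n 7754515 z (n 7754515 z (n 7754515 z (n 7754515 z (n 7754515 z (n 7754515 z z)))))) z))
 z))))))) (n 0 (n 0 (n 0 z (n 0 z z)) (n 0 (n 0 z z) z)) (n 0 (n 707 (n 0 (n 0 z (n 0 z z)) (n 0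
 (n 0 z (n 0 z z)) (n 0 (n 0 z (n 0 z z)) (n 0 (n 0 z (n 0 z z)) (n 0 (n 0 z (n 0 (n 8782635 z
 (n 7754883 z z)) z)) (n 0 (n 0 (n 8860259 z (n 8860259 z z)) (n 0 (n
 0xbb1430200c021da1d8c0e010ed0ea607808180808183807e8181807e827e827e7f7e7e828080807e808380857d82827f7f7f7f8083817e7e80818181817f808082801809
 z z) z)) (n 0 (n 0 z (n 0 z z)) z))))))) (n 711 (n 0 (n 0 z (n 0 z z)) (n 0 (n 0 z (n 0 z z))
 (n 0 (n 0 z (n 0 z z)) (n 0 (n 0 z (n 0 z z)) (n 0 (n 0 z (n 0 z z)) (n 0 (n 0 z (n 0 z z)) (n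
 0 (n 0 z (n 0 z z)) z))))))) (n 709 (n 0 (n 0 z (n 0 z z)) (n 0 (n 0 z (n 0 z z)) (n 0 (n 0 z
 (n 0 z z)) (n 0 (n 0 z (n 0 z z)) (n 0 (n 0 z (n 0 z z)) (n 0 (n 0 z (n 0 z z)) z)))))) (n 717
 (n 0 (n 0 z (n 0 z z)) (n 0 (n 0 z (n 0 z z)) (n 0 (n 0 z (n 0 z z)) (n 0 (n 0 z (n 0 z z))
 z)))) (n 715 (n 0 (n 0 z (n 0 z z)) (n 0 (n 0 z (n 0 z z)) (n 0 (n 0 z (n 0 z z)) (n 0 (n 0 z
 (n 0 z z)) (n 0 (n 0 z (n 0 z z)) (n 0 (n 0 z (n 0 z z)) (n 0 (n 0 z (n 0 z z)) (n 0 (n 0 z (n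
 0 z z)) (n 0 (n 0 z (n 0 z z)) (n 0 (n 0 z (n 0 z z)) (n 0 (n 0 z (n 0 z z)) (n 0 (n 0 z (n 0 z
 z)) (n 0 (n 0 z (n 0 (n
 0x4b8746971797d7a8b64867471898e936e98787b7d738079637b7e8066868d847588798b83746995809765a7829c874c83a17e6cb50049
 z (n 8804171 z z)) z)) (n 0 (n 0 z (n 0 z z)) (n 0 (n 0 z (n 0 z z)) z))))))))))))))) (n 716 (n
 0 (n 0 (n 8593667 z z) (n 0 z z)) (n 0 (n 0 z (n 0 z z)) (n 0 (n 0 z (n 0 z z)) (n 0 (n 0 z (n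
 0 z z)) (n 0 (n 0 z (n 0 z z)) (n 0 (n 0 z (n 0 z z)) (n 0 (n 0 z (n 0 z z)) (n 0 (n 0 z (n 0 z
 z)) z)))))))) (n 707 (n 0 (n 0 z (n 0 z z)) (n 0 (n 0 (n 6633483 z (n 6633483 z z)) (n 0 z z))
 (n 0 (n 0 (n 8585755 z (n 8585755 z z)) (n 0 z z)) (n 0 (n 0 z (n 0 z z)) (n 0 (n 0 z (n 0 z
 z)) (n 0 (n 0 z (n 0 z z)) (n 0 (n 0 z (n 0 z z)) (n 0 (n 0 z (n 0 z z)) (n 0 (n 0 z (n 0 z z))
 z))))))))) (n 59 (n 0 (n 0 z (n 0 z z)) (n 0 (n 0 z (n 0 z z)) (n 0 (n 0 z (n 0 z z)) (n 0 (n 0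
 z (n 0 z z)) (n 0 (n 0 z (n 0 z z)) (n 0 (n 0 z (n 0 z z)) (n 0 (n 0 z (n 0 z z)) (n 0 (n 0 z
 (n 0 z z)) (n 0 (n 0 z (n 0 z z)) (n 0 (n 0 z (n 0 z z)) z)))))))))) (n 11 (n 0 (n 0 z (n 0 z
 z)) (n 0 (n 0 z (n 0 z z)) (n 0 (n 0 z (n 0 z z)) (n 0 (n 0 z (n 0 z z)) (n 0 (n 0 z (n 0 z z))
 (n 0 (n 0 z (n 0 z z)) z)))))) (n 5 (n 0 (n 0 z (n 0 z z)) (n 0 (n 0 z (n 0 z z)) (n 0 (n 0 z
 (n 0 z z)) (n 0 (n 0 z (n 0 z z)) (n 0 (n 0 z (n 0 z z)) (n 0 (n 0 (n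
 0x30eb0ca40781817f8180818080808080808080807f808080808080808080818081808081818081808080808080818080808080808080800809
 z (n 0x10ed0ea4030821 z z)) (n 0 z z)) (n 0 (n 0 (n 8860259 z (n 8860259 z z)) (n 0 (n
 0x10ed0ea00780807f7f82807f80808081818080807f8180808080808080808181837e7f8280808181807f818180807f80808080807f80810809
 z (n
 0x85187060180432c30100c0e18a14840e050ed0ca0078278767b86847287777c899174887e768e85807683807182817d7a88817b80808b73857a7984898b8579858c8a7e867e817a2009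
 z z)) z)) (n 0 (n 0 z (n 0 z z)) z)))))))) (n 201 (n 0 (n 0 z (n 0 z z)) (n 0 (n 0 (n
 0x10ecec84077f80807f80808080808080818180808081807f8180808181818080817f7e80808081808080808180808080808180807f81810809
 z (n
 0x21d9d9080e010eaec64077e80807f7f7f7f8080808180817f817f82817f807f808181817f807f7d7e817f8081808080808080807f80808281817f81811009
 z z)) (n 0 (n 8804171 z z) z)) (n 0 (n 0 z (n 0 z z)) (n 0 (n 0 z (n 0 z z)) (n 0 (n 0 (n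
 8860259 z (n 8860259 z z)) (n 0 (n 8800027 z z) z)) (n 0 (n 0 z (n 0 z z)) z)))))) (n 57 (n 0
 (n 0 z (n 0 z z)) (n 0 (n 0 z (n 0 z z)) (n 0 (n 0 z (n 0 z z)) (n 0 (n 0 z (n 0 z z)) (n 0 (n
 0 z (n 0 z z)) (n 0 (n 0 z (n 0 z z)) (n 0 (n 0 z (n 0 z z)) z))))))) (n 9 (n 0 (n 0 z (n 0 z
 z)) (n 0 (n 0 z (n 0 z z)) (n 0 (n 0 z (n 0 z z)) (n 0 (n 0 z (n 0 z z)) (n 0 (n 0 z (n 0 z z))
 (n 0 (n 0 z (n 0 z z)) (n 0 (n 0 z (n 0 z z)) z))))))) (n 3 (n 0 (n 0 z (n 0 z z)) (n 0 (n 0 z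
 (n 0 z z)) (n 0 (n 0 z (n 0 z z)) (n 0 (n 0 (n 7477323 z (n
 0xad810847b7774937e7c79757c86986d9465758b927c8686797481818b83927a7788787486758d8e8d7f8d808689998a80829079700049
 z z)) (n 0 (n 8804171 z z) z)) (n 0 (n 0 (n 8730379 z (n 7473259 z z)) (n 0 (n 8800027 z z) z))
 (n 0 (n 0 z (n 0 z z)) (n 0 (n 0 z (n 0 z z)) (n 0 (n 0 z (n 0 z z)) (n 0 (n 0 (n
 0x2b87475787c7e7d8672837a7884888a778c7c7e7e79807c717d7f81738486827b847c86827a758b808c7294818e836681927f769b0049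
 z (n 8730379 z z)) (n 0 z z)) (n 0 (n 0 (n 8860259 z (n 8860259 z z)) (n 0 z z)) (n 0 (n 0 z (n
 0 z z)) (n 0 (n 0 z (n 0 z z)) (n 0 (n 0 z (n 0 z z)) (n 0 (n 0 z (n 0 z z)) z)))))))))))))) (n
 1 (n 0 (n 0 z (n 0 z z)) (n 0 (n 0 (n
 0x30ecec64077f817f808080807f81808080817f807f81807f8080808080808080807f7f81818081808080808080808080808080808080810809
 z (n
 0x50ecec64077f827f8080818080808181808080807f80807f8080808180808180817f7f817f808080808080807f8080808080807f8081810809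
 z z)) (n 0 (n
 0x70ed0ec603877c84797f778287797c77778a7d7c8576727d8d787c7e8788798078818281887a906e76877689749083817c6493908174920809
 z z) z)) (n 0 (n 0 z (n 0 z z)) (n 0 (n 0 z (n 0 z z)) (n 0 (n 0 z (n 0 z z)) (n 0 (n 0 z (n 0
 z z)) (n 0 (n 0 z (n 0 z z)) z))))))) (n 587 (n 0 (n 0 z (n 0 z z)) (n 0 (n 0 z (n 0 z z)) (n 0
 (n 0 z (n 0 z z)) (n 0 (n 0 z (n 0 z z)) (n 0 (n 0 z (n 0 z z)) (n 0 (n 0 z (n 0 (n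
 0x9d8757f7175966c98617b5e7898867e80a1709590726986807988826f7d937a6f84788a69818683857e837f8388878584847a7e820049
 z (n
 0x432ba1181c021d61c4c06000070e836e7d7b7f7e817d788187857e82887f7f857b7e838e7d7a817b7a79817c81808082848a7e77867c8577877a7b7a73838381818e1809
 z z)) z)) (n 0 (n 0 (n
 0xb8737e7e7f8080817e807f808282817f807f8181808180808281807e82827e7e82808080808181817f7f8181818181807f7f80810049
 z (n 7608363 z z)) (n 0 z z)) (n 0 (n 0 z (n 0 z z)) z)))))))) (n 57 (n 0 (n 0 z (n 0 z z)) (n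
 0 (n 0 z (n 0 z z)) (n 0 (n 0 z (n 0 z z)) (n 0 (n 0 z (n 0 z z)) (n 0 (n 0 z (n 0 z z)) (n 0
 (n 0 z (n 0 z z)) (n 0 (n 0 z (n 0 z z)) (n 0 (n 0 z (n 0 z z)) (n 0 (n 0 z (n 0 z z)) (n 0 (n
 0 z (n 0 z z)) (n 0 (n 0 z (n 0 z z)) (n 0 (n 0 z (n 0 z z)) (n 0 (n 0 z (n 0 z z))
 z))))))))))))) (n 9 (n 0 (n 0 (n
 0x6189501c06030c4a60e030087387050380439398280c021d61d400e010eb0e60037f817f808080807f818181808180807f818080818180818181847e867f7f818280827f808181817f808181808180817f81813009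
 z z) (n 0 z z)) (n 0 (n 0 z (n 0 z z)) (n 0 (n 0 z (n 0 z z)) (n 0 (n 0 z (n 0 z z)) (n 0 (n 0
 z (n 0 z z)) (n 0 (n 0 z (n 0 z z)) (n 0 (n 0 z (n 0 z z)) (n 0 (n 0 z (n 0 z z)) z)))))))) (n
 3 (n 0 (n 0 z (n 0 z z)) (n 0 (n 0 z (n 0 z z)) (n 0 (n 0 z (n 0 z z)) (n 0 (n 0 z (n 0 z z))
 (n 0 (n 0 z (n 0 z z)) (n 0 (n 0 z (n 0 z z)) (n 0 (n 0 z (n 0 z z)) (n 0 (n 0 z (n 0 z z)) (n
 0 (n 0 z (n 0 z z)) (n 0 (n 0 z (n 0 z z)) (n 0 (n 0 z (n 0 z z)) z))))))))))) (n 1 (n 0 (n 0 z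
 (n 0 z z)) (n 0 (n 0 z (n 0 z z)) z)) (n 0 (n 0 (n 0 (n 8730379 z (n 7473259 z z)) (n 0 (n
 0x106506420380808080807f808080808080807f808080808080808180808080807e80807f808080808081808080808081808080808080800809
 z (n 8800027 z z)) z)) (n 0 (n 0 z (n 0 z z)) (n 0 (n 0 z (n 0 z z)) (n 0 (n 0 z (n 0 z z)) (n
 0 (n 0 z (n 0 z z)) z))))) z))))))))))))))))))))) z)))) z) z)))) (n
 0x1616e876b958b5c8d8ae36e871376885bb5804cac0 (n 0x1bb5c (n 201 (n 2 z (n 10 z (n 3282443 z z)))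
 (n 57 (n 0 z (n 18 z (n 6496515 z (n 0 z z)))) (n 9 (n 26 z (n 0 z (n 6496515 z (n
 0x6ca8ca06038048008028017fc7fc8008068018038028048037fe8007ff7fc7fd7f98047fd8008068028038008007fc7fe7fa7ff7fe8047fc8028027fa8057f77fb7fe8078008038098058037fe80b8030811
 z z)))) (n 3 (n 0 z (n
 0x3bb29328200c02994d50080e008ca8a2040300565351020180f329aa0081c01194d48040e014c84a4020770283a7fb76b8287c08767b97dd7da8248487b67877ae7fe85e81d8bd7f78af8737f47c07897d080f80485e7aa83a7f97c07e18287ca8817cf87f8867ae8118c28437bb76c7978967ee7973811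
 z (n 0 z (n 34 z (n 0 z (n 0 z (n 0 z (n 0 z (n 0 z (n 6496515 z (n 0 z (n 0 z (n 0 z (n 0 z (n
 0 z (n 0 z z)))))))))))))))) (n 1 (n 0 z (n 6562099 z (n 0 z (n 0 z (n 42 z (n 0 z z)))))) (n 0
 (n 6636299 z (n 50 z (n 0 z (n 58 z (n 0 z (n
 0x532080096418018008008018008017ff8018008008008008008008008008008008008008007ff8008008018028008028008008007ff8008028018008008008008008008007ff8008008008007ff8018000091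
 z (n 0 z z))))))) z)))))) (n 201 (n 0 (n 0 z (n 191 (n 0 z (n 0 z (n 0 z (n 0 z (n 0 z (n 0 z
 (n 2 (n 1 z (n 1 z (n 1 z (n 1 z (n 1 z z))))) (n 0 z (n 0 z (n 0 z z)))))))))) (n 183 (n 0 z
 (n 0 z (n 0 z (n 0 z (n 0 z (n 2 (n 1 z (n 1 z (n 1 z (n 1 z z)))) (n 0 z (n 0 z (n 0 z (n 0 z
 (n 0 z z))))))))))) (n 181 (n 0 z (n 0 z (n 0 z (n 0 z (n 0 z (n 0 z (n 0 z (n 0 z (n 0 z (n 2
 (n 1 z (n 1 z (n 1 z z))) (n 0 z (n 0 z (n 0 z (n 0 z (n 0 z (n 0 z z)))))))))))))))) (n 197 (n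
 0 z (n 0 z (n 0 z (n 2 (n 1 z (n 1 z z)) (n 0 z (n 0 z z)))))) (n 965 (n 0 z (n 0 z (n 0 z (n 2
 (n 0 z z) (n 0 z (n 0 z (n 0 z (n 0 z z)))))))) (n 965 (n 0 z (n 0 z (n 0 z (n 0 z (n 0 z (n 0
 z (n 0 z (n 0 z z)))))))) z))))))) (n 0 (n 1163 (n 0 z (n 0 z (n 0 z (n 0 z (n 0 z (n 0 z (n 0
 z (n 0 z z)))))))) (n 1047 (n 0 z (n 0 z (n 0 z (n 0 z (n 0 z (n 0 z z)))))) (n 1045 (n 0 z (n
 0 z (n 0 z z))) (n 303 (n 0 z (n 0 z (n 0 z (n 0 z (n 0 z (n 0 z (n 0 z (n 0 z z)))))))) (n 401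
 (n 0 z (n 0 z (n 0 z (n 0 z (n 0 z (n 0 z z)))))) (n 401 (n 0 z (n 0 z (n 0 z (n 0 z (n 2 z (n
 0 z z)))))) z)))))) (n 0 (n 123 (n 0 z (n 0 z (n 0 z (n 0 z (n 0 z (n 0 z z)))))) (n 75 (n 0 z
 (n 0 z (n 0 z (n 0 z (n 0 z (n 0 z z)))))) (n 111 (n 0 z (n 0 z (n 0 z (n 0 z (n 0 z (n 0 z (n
 0 z (n 0 z (n 0 z z))))))))) (n 113 (n 0 z (n 0 z (n 0 z (n 0 z (n 0 z (n 0 z (n 0 z z)))))))
 (n 113 (n 0 z (n 0 z (n 0 z (n 0 z (n 2 z (n 0 z (n 0 z z))))))) z))))) (n 0 (n 267 (n 0 z (n 0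
 z (n 0 z (n 0 z (n 0 z (n 0 z (n 0 z (n 0 z z)))))))) (n 15 (n 0 z (n 0 z (n 0 z (n 0 z (n 0 z
 z))))) (n 17 (n 0 z (n 0 z (n 0 z (n 0 z (n 0 z z))))) (n 17 (n 0 z (n 0 z (n 2 z (n 0 z (n 0 z
 z))))) z)))) (n 0 (n 3 (n 0 z (n 0 z (n 0 z (n 0 z (n 0 z (n 0 z (n 0 z (n 0 z (n 0 z (n 0 z
 z)))))))))) (n 5 (n 0 z (n 0 z (n 0 z (n 0 z (n 0 z (n 0 z (n 0 z (n 0 z (n 0 z (n 0 z (n 0 z
 z))))))))))) (n 5 (n 0 z (n 0 z (n 0 z (n 0 z (n 0 z (n 0 z (n 2 z (n 0 z (n 0 z (n 0 z (n 0 z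
 z))))))))))) z))) (n 0 (n 1 (n 0 z (n 0 z (n 0 z (n 0 z (n 0 z z))))) (n 1 (n 0 z (n 0 z (n 0 z
 (n 2 z (n 0 z z))))) z)) (n 0 (n 0 z z) (n 0 z z)))))))) (n 0 (n 1 (n 6496515 z (n 460 z (n 460
 z (n 6636299 z (n 460 z (n 460 z z)))))) (n 1 (n 6496515 z (n 460 z (n 5509219 z (n 2 z (n
 6636299 z (n 460 z z)))))) (n 1 (n 6496515 z (n 3282443 z (n 3282443 z (n 3282443 z (n 3282443
 z (n 3282443 z z)))))) z))) (n 0 (n 0xa2c2dd24cac0 (n 0 (n 0 (n 7745603 z (n 7745603 z (n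
 7745603 z (n 7745603 z (n 7745603 z (n 7745603 z z)))))) z) (n 0 (n 201 (n 1 (n 2 z (n 4652 z
 (n 7684451 z (n 7607867 z (n 4652 z (n 4652 z z)))))) (n 1 (n 7745603 z (n 7745603 z (n 7745603
 z (n 7745603 z (n 7745603 z (n 7745603 z z)))))) (n 1 (n 7745603 z (n 7745603 z (n 7745603 z (n
 7745603 z (n 7745603 z (n 7745603 z z)))))) z))) (n 57 (n 0 z (n 1 (n 7745603 z (n 7745603 z (n
 7745603 z (n 7745603 z (n 7745603 z (n 7745603 z z)))))) (n 1 (n 7545091 z (n 7545091 z (n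
 7545091 z (n 7545091 z (n 7545091 z (n 7545091 z z)))))) (n 0 z z)))) (n 9 (n 1 (n 7745603 z (n
 7745603 z (n 7745603 z (n 7745603 z (n 7745603 z (n 7745603 z z)))))) (n 0 z (n 1 (n 7545091 z
 (n 7545091 z (n 7545091 z (n 7545091 z (n 7545091 z (n 7545091 z z)))))) (n 1 (n 4204 z (n 4204
 z (n 7684451 z (n 7607867 z (n 4204 z (n 4204 z z)))))) z)))) (n 527 (n 1 (n 7545091 z (n
 7745603 z (n 7745603 z (n 7745603 z (n 7745603 z (n 7745603 z z)))))) (n 1 (n 7545091 z (n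
 7745603 z (n 7745603 z (n 7745603 z (n 7745603 z (n 7745603 z z)))))) (n 1 (n 7545091 z (n 316
 z (n 316 z (n 2164587 z (n 316 z (n 316 z z)))))) z))) (n 9 (n 1 (n 7610675 z (n 7610675 z (n
 7610675 z (n 7610675 z (n 7610675 z (n 7610675 z z)))))) (n 1 (n 7610675 z (n 7610675 z (n
 7610675 z (n 7610675 z (n 7610675 z (n 7610675 z z)))))) (n 1 (n 7684451 z (n 7684451 z (n
 7684451 z (n 7684451 z (n 7684451 z (n 7684451 z z)))))) (n 1 (n 7545091 z (n 7545091 z (n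
 7545091 z (n 7545091 z (n 7545091 z (n 7545091 z z)))))) (n 1 (n 1228 z (n 1228 z (n 7537179 z
 (n 7734059 z (n 1228 z (n 1228 z z)))))) z))))) (n 9 (n 1 (n 7684451 z (n 7684451 z (n 7684451
 z (n 7684451 z (n 7684451 z (n 7684451 z z)))))) (n 1 (n 7545091 z (n 7545091 z (n 7545091 z (n
 7545091 z (n 7545091 z (n 7545091 z z)))))) (n 1 (n 10 z (n 1612 z (n 7537179 z (n 7734059 z (n
 7541803 z (n 1612 z z)))))) (n 0 z (n 0 z z))))) (n 201 (n 1 (n 7545091 z (n 460 z (n 460 z (n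
 7684875 z (n 460 z (n 460 z z)))))) (n 1 (n 7545091 z (n 7745603 z (n 7745603 z (n 7745603 z (n
 7745603 z (n 7745603 z z)))))) (n 1 (n 7545091 z (n 7745603 z (n 7745603 z (n 7745603 z (n
 7745603 z (n 7745603 z z)))))) z))) z))))))) (n 0 (n 0 (n 0 z (n 0 z z)) (n 0 (n 0 z z) z)) (n
 0 (n 587 (n 0 (n 0 z (n 0 z z)) (n 0 (n 0 z (n 0 z z)) (n 0 (n 0 z (n 0 z z)) (n 0 (n 0 z (n 0
 z z)) (n 0 (n 0 z (n 0 z z)) (n 0 (n 0 z (n 0 z z)) (n 0 (n 0 z (n 0 z z)) (n 0 (n 0 z (n 0 z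
 z)) z)))))))) (n 525 (n 0 (n 0 z (n 0 z z)) (n 0 (n 0 z (n 0 z z)) (n 0 (n 0 z (n 0 z z)) (n 0
 (n 0 z (n 0 z z)) (n 0 (n 0 z (n 0 z z)) (n 0 (n 0 z (n 0 z z)) z)))))) (n 63 (n 0 (n 0 z (n 0
 z z)) (n 0 (n 0 z (n 0 z z)) (n 0 (n 0 (n
 0x1b8768087ff7fc8038048057fc8077f88067ff8028018008047fe7fa7fa7fa8017fa8048007fe8098058008087fe8058017ff80c7f780b7fd7f88077fe7fa80c7ff7f980180480f8097ea8108030051
 z z) (n 0 z z)) (n 0 (n 0 z (n 0 z z)) (n 0 (n 0 z (n 0 z z)) (n 0 (n 0 z (n 0 z z)) z)))))) (n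
 527 (n 0 (n 0 z (n 0 z z)) (n 0 (n 0 z (n 0 z z)) (n 0 (n 0 z (n 0 z z)) z))) (n 39 (n 0 (n 0 z
 (n 0 z z)) (n 0 (n 0 z (n 0 z z)) (n 0 (n 0 z (n 0 z z)) (n 0 (n 0 z (n 0 z z)) (n 0 (n 0 z (n
 0 z z)) (n 0 (n 0 z (n 0 z z)) z)))))) (n 135 (n 0 (n 0 z (n 0 z z)) (n 0 (n 0 z (n 0 z z)) (n
 0 (n 0 z (n 0 z z)) (n 0 (n 0 z (n 0 z z)) (n 0 (n 0 z (n 0 z z)) (n 0 (n 0 z (n 0 z z)) (n 0
 (n 0 (n 8593667 z z) (n 0 z z)) (n 0 (n 0 z (n 0 z z)) z)))))))) (n 153 (n 0 (n 0 z (n 0 z z))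
 (n 0 (n 0 z (n 0 z z)) (n 0 (n 0 z (n 0 z z)) (n 0 (n 0 z (n 0 z z)) (n 0 (n 0 z (n 0 z z)) (n
 0 (n 0 z (n 0 z z)) (n 0 (n 0 z (n 0 z z)) (n 0 (n 0 z (n 0 z z)) z)))))))) (n 57 (n 0 (n 0 z
 (n 0 z z)) (n 0 (n 0 z (n 0 z z)) (n 0 (n 0 z (n 0 z z)) (n 0 (n 0 z (n 0 z z)) (n 0 (n 0 z (n
 0 z z)) (n 0 (n 0 z (n 0 z z)) (n 0 (n 0 z (n 0 z z)) (n 0 (n 0 z (n 0 z z)) (n 0 (n 0 z (n 0 z
 z)) z))))))))) (n 9 (n 0 (n 0 z (n 0 z z)) (n 0 (n 0 z (n 0 z z)) (n 0 (n 0 z (n 0 z z)) (n 0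
 (n 0 z (n 0 z z)) (n 0 (n 0 z (n 0 z z)) z))))) (n 3 (n 0 (n 0 z (n 0 z z)) (n 0 (n 0 z (n 0 z
 z)) (n 0 (n 0 z (n 0 z z)) (n 0 (n 0 z (n 0 z z)) (n 0 (n 0 z (n 0 z z)) (n 0 (n 0 z (n 0 z z))
 (n 0 (n 0 z (n 0 z z)) (n 0 (n 0 z (n 0 z z)) (n 0 (n 0 z (n 0 z z)) (n 0 (n 0 z (n 0 z z))
 z)))))))))) (n 201 (n 0 (n 0 z (n 0 z z)) (n 0 (n 0 z (n 0 z z)) (n 0 (n 0 z (n 0 z z)) (n 0 (n
 0 z (n 0 z z)) (n 0 (n 0 z (n 0 z z)) (n 0 (n 0 z (n 0 z z)) z)))))) (n 57 (n 0 (n 0 z (n 0 z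
 z)) (n 0 (n 0 z (n 0 z z)) (n 0 (n 0 z (n 0 z z)) (n 0 (n 0 z (n 0 z z)) (n 0 (n 0 z (n 0 z z))
 (n 0 (n 0 z (n 0 z z)) (n 0 (n 0 z (n 0 z z)) z))))))) (n 9 (n 0 (n 0 z (n 0 z z)) (n 0 (n 0 z
 (n 0 z z)) (n 0 (n 0 z (n 0 z z)) (n 0 (n 0 z (n 0 z z)) (n 0 (n 0 z (n 0 z z)) z))))) (n 3 (n
 0 (n 0 z (n 0 z z)) (n 0 (n 0 z (n 0 z z)) (n 0 (n 0 z (n 0 z z)) (n 0 (n 0 z (n 0 z z)) (n 0
 (n 0 z (n 0 z z)) (n 0 (n 0 z (n 0 z z)) (n 0 (n 0 z (n 0 z z)) (n 0 (n 0 z (n 0 z z)) (n 0 (n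
 0 z (n 0 z z)) (n 0 (n 0 z (n 0 z z)) (n 0 (n 0 z (n 0 z z)) z))))))))))) (n 1 (n 0 (n 0 z (n 0
 z z)) (n 0 (n 0 z (n 0 z z)) (n 0 (n 0 z (n 0 z z)) (n 0 (n 0 z (n 0 z z)) (n 0 (n 0 z (n 0 z
 z)) z))))) (n 201 (n 0 (n 0 z (n 0 z z)) (n 0 (n 0 z (n 0 z z)) (n 0 (n 0 z (n 0 z z)) z))) (n
 57 (n 0 (n 0 z (n 0 z z)) (n 0 (n 0 z (n 0 z z)) (n 0 (n 0 z (n 0 z z)) (n 0 (n 0 z (n 0 z z))
 z)))) (n 9 (n 0 (n 0 z (n 0 z z)) (n 0 (n 0 z (n 0 z z)) (n 0 (n 0 z (n 0 z z)) (n 0 (n 0 z (n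
 0 z z)) z)))) (n 3 (n 0 (n 0 z (n 0 z z)) (n 0 (n 0 z (n 0 z z)) (n 0 (n 0 z (n 0 z z)) (n 0 (n
 0 z (n 0 z z)) (n 0 (n 0 z (n 0 z z)) (n 0 (n 0 z (n 0 z z)) (n 0 (n 0 z (n 0 z z)) (n 0 (n 0 z
 (n 0 z z)) (n 0 (n 0 z (n 0 z z)) (n 0 (n 0 z (n 0 z z)) (n 0 (n 0 z (n 0 z z)) (n 0 (n 0 z (n
 0 z z)) (n 0 (n 0 z (n 0 z z)) (n 0 (n 0 z (n 0 z z)) (n 0 (n 0 z (n 0 z z)) (n 0 (n 0 z (n 0 z
 z)) z)))))))))))))))) (n 1 (n 0 (n 0 z (n 0 z z)) (n 0 (n 0 z (n 0 z z)) (n 0 (n 0 z (n 0 z z))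
 (n 0 (n 0 z (n 0 z z)) (n 0 (n 0 z (n 0 z z)) (n 0 (n 0 z (n 0 z z)) z)))))) (n 0 (n 0 (n 0 (n
 8733451 z z) (n 0 z z)) (n 0 (n 0 z (n 0 z z)) (n 0 (n 0 z (n 0 z z)) (n 0 (n 0 z (n 0 z z)) (n
 0 (n 0 z (n 0 z z)) (n 0 (n 0 z (n 0 z z)) (n 0 (n 0 z (n 0 z z)) z)))))))
 z))))))))))))))))))))) z)))) z) z)))) (n 0 (n 0 (n 189 (n 0 z (n 3282443 z (n 0 z (n 0 z (n 0 z
 (n 0 z (n 0 z z))))))) (n 39 (n 0 z (n 3278363 z (n 0 z (n 0 z (n 0 z (n 0 z (n 0 z z))))))) (n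
 131 (n 0 z (n 0 z (n 6566403 z (n 0 z (n 0 z (n 0 z z)))))) (n 3 (n 0 z (n 0 z (n 6566403 z (n
 0 z (n 0 z (n 0 z z)))))) (n 127 (n 0 z (n 0 z (n 0 z (n 0 z (n 0 z (n 0 z (n 0 z (n 0 z (n 0 z
 (n 6566403 z (n 0 z (n 0 z z)))))))))))) (n 0 (n 0 z (n 0 z (n 0 z (n 0 z (n 0 z (n 0 z (n 0 z
 (n 0 z (n 0 z (n 6631955 z (n 0 z (n 0 z z)))))))))))) z)))))) (n 131 z (n 0 (n 0 z (n 0 z (n 1
 (n 6566403 z (n 6566403 z (n 6566403 z (n 6566403 z (n 6566403 z (n 6566403 z z)))))) (n 0 z (n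
 0 z (n 0 z z)))))) (n 0 z z)))) (n 0x30753906aa4633d6119592b10b79915a3602962e866c4c32eb211 (n 0
 (n 345 (n 0 z (n 3282443 z (n 0 z (n 0 z (n 0 z (n 0 z z)))))) (n 375 (n 0 z (n 6496515 z (n 0
 z (n
 0x3994d88100e002c84c840077fa7ff7fa7fb80e7fe7e78267ee8258018038098058087f57eb80e8147e48237e48097ed8008137ee8218007e580381580f7e58307de8357ef7fb80c7cd8127f67fc80e80580a8047f18001011
 z (n 2 z (n 6496515 z (n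
 0x4194d949006010ca8ca80077e87ff7fc8008278117e87ff7f98168127ff80a81a7f97c67cb82e7e28178447e38287ab8007fc7f482282d7b88208457d27ed81e7c88827c87e181b7c481581d7cc7d57fd81f8207d98081011
 z (n 6496515 z (n 0 z (n
 0x19951948c0e010a84ca26037fa7ff8047f980a8027f58078008098028008018178027ee7e381a7ea8088157f18107d98007fe7f580f80c7e681181a7f87fc8057ef8357e47f68087ec80880e7ed7ed7f981280d7ed8021011
 z (n 10 z (n
 0x2329b29200c01594d94100e002ca8c864037f98018097fd8027fc7e681b7f68158007ff7ff80380d7f37f08118057f88217ee8077e68008087eb81080d7df80c8147f47f38177e68357e67f880c7df8108087ee7f180280980c7ee7fe1811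
 z (n 18 z z))))))))))))) (n 373 (n 26 z (n 6496515 z (n 0 z (n 0 z (n 0 z (n 0 z (n 0 z (n 0 z
 (n 34 z z))))))))) (n 3 (n 0 z (n 0 z (n 0 z (n 6496515 z (n 42 z (n 0 z (n 0 z z))))))) (n 25
 (n 50 z (n 0 z (n 58 z (n 66 z (n 0 z (n 6636307 z (n 0 z (n 0 z (n 74 z (n 6636307 z
 z)))))))))) (n 0 (n 0 z (n 0 z (n 0 z (n 0 z (n 0 z (n 0 z (n 6636307 z (n 0 z z))))))))
 z)))))) (n 345 (n 0 (n 0 z (n 0 z (n 747 (n 0 z (n 0 z (n 0 z (n 0 z (n 0 z (n 0 z (n 0 z (n 0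
 z (n 0 z (n 0 z (n 0 z (n 0 z (n 0 z (n 0 z z)))))))))))))) (n 747 (n 0 z (n 0 z (n 0 z (n 0 z
 (n 0 z (n 0 z (n 0 z (n 0 z (n 0 z (n 0 z (n 0 z (n 0 z (n 7677451 z (n 0 z z)))))))))))))) (n
 491 (n 0 z (n 0 z (n 0 z (n 0 z (n 0 z z))))) (n 489 (n 0 z (n 0 z (n 0 z (n 0 z (n 0 z (n 2 (n
 0 z (n 0 z (n 0 z z))) (n 0 z (n 0 z (n 0 z (n 0 z z)))))))))) (n 489 (n 0 z (n 0 z (n 0 z (n 0
 z (n 0 z (n 0 z (n 0 z (n 0 z (n 7737427 z (n 0 z z)))))))))) (n 489 (n 0 z (n 0 z (n 0 z (n 0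
 z (n 0 z (n 0 z (n 0 z (n 0 z (n 0 z (n 0 z z)))))))))) (n 489 (n 0 z (n 0 z (n 7741747 z (n 0
 z (n 0 z (n 0 z (n 0 z (n 0 z (n 0 z (n 0 z z)))))))))) z))))))))) (n 0 (n 0 z (n 747 (n 0 z (n
 0 z (n 0 z (n 0 z (n 0 z z))))) (n 747 (n 0 z (n 0 z (n 0 z (n 0 z (n 0 z z))))) (n 519 (n 0 z
 (n 0 z (n 0 z (n 0 z z)))) (n 69 (n 0 z (n 0 z (n 0 z (n 0 z (n 0 z (n 0 z (n 0 z (n 0 z (n 0 z
 z))))))))) (n 69 (n 0 z (n 0 z (n 0 z (n 0 z (n 0 z (n 0 z (n 0 z (n 0 z (n 0 z z))))))))) (n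
 69 (n 0 z (n 0 z (n 0 z (n 0 z (n 0 z (n 0 z (n 0 z (n 0 z (n 0 z z))))))))) (n 69 (n 0 z (n 0
 z (n 0 z (n 0 z (n 0 z (n 0 z (n 0 z (n 0 z (n 2 z z))))))))) z)))))))) (n 0 (n 867 (n 2 (n 0 z
 (n 1 z (n 1 z (n 1 z (n 2 (n 0 z (n 0 (n 276 z (n 276 z z)) (n 0 z (n 0 (n 276 z (n 276 z z))
 (n 0 (n 276 z (n 276 z z)) (n 0 z z)))))) (n 1 z z)))))) (n 0 z (n 0 z (n 0 z (n 0 z (n 0 z
 z)))))) (n 867 (n 0 z (n 0 z (n 0 z (n 0 z (n 0 z (n 2 (n 1 z (n 1 z (n 1 z (n 1 z (n 1 z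
 z))))) z)))))) (n 525 (n 0 z (n 0 z (n 2 (n 1 z (n 1 z (n 1 z (n 1 z z)))) (n 0 z (n 0 z (n 0 z
 (n 0 z (n 0 z (n 0 z (n 0 z (n 0 z (n 0 z (n 0 z (n 0 z (n 0 z (n 0 z (n 0 z (n 0 z (n 0 z (n 0
 z z)))))))))))))))))))) (n 69 (n 0 z (n 0 z (n 0 z (n 0 z (n 0 z (n 0 z (n 0 z z))))))) (n 69
 (n 0 z (n 0 z (n 0 z (n 0 z (n 0 z (n 0 z (n 0 z z))))))) (n 69 (n 0 z (n 0 z (n 0 z (n 0 z (n
 0 z (n 0 z (n 0 z z))))))) (n 69 (n 0 z (n 0 z (n 0 z (n 0 z (n 0 z (n 0 z (n 0 z z)))))))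
 z))))))) (n 0 (n 0 z (n 299 (n 0 z (n 0 z (n 0 z (n 0 z (n 2 (n 1 z (n 1 z (n 1 z (n 1 z z))))
 (n 0 z (n 0 z z))))))) (n 297 (n 0 z (n 0 z (n 0 z (n 0 z (n 0 z (n 0 z (n 0 z (n 0 z (n 0 z (n
 0 z (n 0 z (n 0 z (n 0 z (n 0 z z)))))))))))))) (n 297 (n 0 z (n 0 z (n 0 z (n 0 z (n 0 z (n 0
 z (n 0 z (n 0 z (n 0 z (n 0 z (n 0 z (n 2 (n 0 z (n 0 z z)) (n 0 z (n 0 z z)))))))))))))) (n
 297 (n 0 z (n 0 z (n 0 z (n 0 z (n 0 z (n 0 z (n 0 z (n 0 z (n 0 z (n 0 z (n 0 z (n 0 z (n 0 z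
 (n 0 z z)))))))))))))) (n 297 (n 0 z (n 0 z (n 0 z (n 2 z (n 0 z (n 0 z (n 0 z (n 0 z (n 0 z (n
 0 z (n 0 z (n 0 z (n 0 z (n 0 z z)))))))))))))) z)))))) (n 0 (n 33 (n 0 z (n 0 z (n 0 z (n 0 z
 (n 0 z (n 0 z (n 7746571 z z))))))) (n 99 (n 0 z (n 0 z (n 0 z (n 0 z (n 0 z (n 0 z (n 0 z
 z))))))) (n 99 (n 0 z (n 0 z (n 0 z (n 2 (n 0 z (n 0 z z)) (n 0 z (n 0 z (n 0 z z))))))) (n 99
 (n 0 z (n 0 z (n 0 z (n 0 z (n 0 z (n 0 z (n 0 z z))))))) (n 99 (n 0 z (n 0 z (n 0 z (n 0 z (n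
 0 z (n 0 z (n 2 z z))))))) z))))) (n 0 (n 57 (n 0 z (n 0 z (n 0 z (n 0 z (n 0 z (n 0 z (n 0 z
 (n 0 z (n
 0xcec6ea02077ff7ff7fd8008008047fe8008078008018018038087ff7f67fa80580181280b7fe80f7e78007f281180a8107ed7fa7ed8048077f380782780f7f77f481780980680a7d57f97fa81d80880e0811
 z (n 0 z (n 0 z (n 0 z (n 0 z (n 0 z z)))))))))))))) (n 57 (n 0 z (n 0 z (n 0 z (n 0 z (n 0 z
 (n 0 z (n 0 z (n 0 z (n 0 z (n 0 z (n 0 z (n 0 z (n 0 z (n 0 z z)))))))))))))) (n 57 (n 0 z (n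
 0 z (n 0 z (n 0 z (n 0 z (n 0 z (n 0 z (n 0 z (n 0 z (n 0 z (n 0 z (n 0 z (n 0 z (n 0 z
 z)))))))))))))) (n 57 (n 2 z (n 0 z (n 0 z (n 0 z (n 0 z (n 0 z (n 0 z (n 0 z (n 0 z (n 0 z (n
 0 z (n 0 z (n 0 z (n 0 z z)))))))))))))) z)))) (n 0 (n 0 z (n 0 z (n 0 z z))) (n 0 (n 0 z (n 0
 z z)) (n 0 (n 0 z z) (n 0 z z)))))))))) (n 0 (n 0 z (n 1 (n 6496515 z (n 3282443 z (n 3282443 z
 (n 3282443 z (n 3282443 z (n 3282443 z z)))))) (n 0 z (n 0 z (n 0 z (n 0 z z)))))) (n 0 z z))))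
 (n 0x1338684cc76059e92204a6988d48882536852a4780 (n 0 (n 405 (n 0 z (n 3282443 z (n 2 z z))) (n
 255 (n
 0x299328a00c519454c100608ca8ca8007808a7d7885877d8074837a778b8991715e93747e758c7e77857f7d7e8381767d8c7c808e757f9a767a7f788a6d7f947980831809
 z (n
 0x10c86c860078586837d837f82837c7e7e7a8189857a7b8b787e7c867d7e81807b7f7f807e7d82808088827c827f7f807d817c84837f7f830809
 z (n 10 z (n 0 z (n 0 z (n 18 z (n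
 0x328a98200c0595194c00600ca8a86007828080807f807f80808080807f8281807f8181817f7f81818080808080807f8080807f8080818080808080818080818080801809
 z (n 0 z (n 6631747 z (n 0 z z)))))))))) (n 173 (n 26 z (n 6628363 z (n 34 z z))) (n 27 (n 0 z
 (n 0 z (n 6631747 z (n 0 z (n 0 z z))))) (n 1 (n 0 z (n 0 z (n 42 z (n 0 z (n 0 z (n 0 z (n 0 z
 (n 0 z (n 0 z (n 0 z (n 6562587 z z))))))))))) (n 0 (n 50 z (n 0 z (n 58 z (n 6631747 z (n 0 z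
 z))))) z)))))) (n 405 (n 0 (n 1231 (n 0 z (n 0 z (n 7734331 z (n 0 z (n 0 z (n 0 z (n 0 z (n 0
 z (n 0 z (n 0 z z)))))))))) (n 1231 (n 0 z (n 0 z (n 0 z (n 0 z (n 0 z (n 0 z (n 0 z (n 0 z (n
 0 z (n 0 z z)))))))))) (n 1347 (n 0 z (n 2 (n 0 z (n 1 z (n 1 z (n 1 z z)))) (n 0 z z))) (n
 1347 (n 0 z (n 0 z (n 0 z z))) (n 1349 (n 0 z (n 0 z (n 0 z z))) (n 781 (n 0 z (n 0 z (n 0 z (n
 0 z (n 0 z (n 0 z (n 0 z z))))))) (n 781 (n 0 z (n 0 z (n 0 z (n 0 z (n 0 z (n 0 z (n 0 z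
 z))))))) z))))))) (n 0 (n 0 z (n 1281 (n 0 z (n 0 z (n 0 z (n 0 z z)))) (n 1281 (n 0 z (n 0 z
 (n 0 z (n 0 z z)))) (n 1277 (n 0 z (n 0 z (n 0 z (n 0 z (n 0 z (n 0 z (n 0 z (n 0 z (n 0 z (n 0
 z (n 2 (n 1 z (n 1 z z)) z))))))))))) (n 637 (n 0 z z) (n 637 (n 0 z z) z)))))) (n 0 (n 259 (n
 0 z (n 0 z (n 0 z (n 0 z (n 2 (n 0 z (n 1 z (n 1 z (n 1 z z)))) (n 0 z (n 0 z (n 0 z (n 0 z
 z))))))))) (n 259 (n 0 z (n 0 z (n 0 z (n 0 z (n 0 z (n 0 z (n 0 z (n 0 z (n 0 z z))))))))) (n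
 291 (n 0 z (n 0 z (n 0 z (n 0 z (n 7754035 z (n 0 z (n 0 z (n 0 z (n 0 z (n 0 z (n 0 z (n 0 z
 (n 0 z z))))))))))))) (n 289 (n 0 z (n 0 z (n 0 z (n 0 z (n 0 z (n 0 z (n 0 z (n 0 z (n 0 z (n
 0 z z)))))))))) (n 289 (n 0 z (n 0 z (n 0 z (n 0 z (n 0 z (n 0 z (n 0 z (n 0 z (n 0 z (n 0 z
 z)))))))))) z))))) (n 0 (n 0 z (n 339 (n 0 z (n 0 z (n 0 z z))) (n 253 (n 0 z (n 0 z (n 0 z (n
 0 z (n 0 z (n 0 z (n 0 z (n 0 z (n 0 z (n 0 z z)))))))))) (n 253 (n 0 z (n 0 z (n 0 z (n 0 z (n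
 0 z (n
 0xeea2c608078683857f7f798281817b80817b867c81898280847d7f7e867d847d787a817d837986807f857f80847f85827f867e7f837b830809
 z (n 0 z (n 0 z (n 0 z (n 0 z z)))))))))) z)))) (n 0 (n 531 (n 0 z (n 0 z (n 0 z (n 0 z (n 0 z
 (n 0 z (n 0 z (n 0 z (n 0 z (n 0 z (n 0 z (n 0 z (n 0 z (n 0 z z)))))))))))))) (n 529 (n 0 z (n
 0x4b2a32a081c29d510c840616ea88640038b8492888268898089778179748a6d8ba28180817b7e768e788b747582837f86738b7b7b997a668c7f8784788881769176861809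
 z (n 0 z (n 0 z (n 0 z (n 0 z (n 0 z (n 0 z (n 0 z z))))))))) (n 529 (n 0 z (n 0 z (n 0 z (n 0
 z (n 0 z (n 0 z (n 0 z (n 0 z (n 0 z z))))))))) z))) (n 0 (n 797 (n 0 z (n 0 z (n 0 z (n 0 z (n
 0 z (n 0 z z)))))) (n 797 (n 0 z (n 0 z (n 0 z (n 0 z (n 0 z (n 0 z z)))))) z)) (n 0 (n 0 z z)
 (n 0 z z)))))))) (n 0 (n 0 z (n 1 (n 3282443 z (n 3282443 z (n 3282443 z (n 6628363 z (n
 3282443 z (n 3282443 z z)))))) (n 1 (n 2044 z (n 2044 z (n 2044 z (n 6628363 z (n 2044 z (n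
 2044 z z)))))) z))) (n 0 z z)))) z)))))))))), by decide +kernel⟩
theorem i10286 : ∃ t, chkR KT RW t 10286 10296 = true := ⟨(n 0x3259b412ccac165d6432ab2413592c0
 (n 0x2b259 (n 329 (n 0 z (n 6561843 z (n 0 z (n 2 z (n 0 z z))))) (n 315 (n 6631715 z (n 0 z (n
 10 z (n 0 z (n 0 z (n 6631715 z z)))))) (n 9 (n 0 z (n 0 z (n 6561843 z (n 0 z (n 0 z (n 18 z
 z)))))) (n 3 (n 6632491 z (n 0 z (n 0 z (n 0 z (n 0 z (n 0 z (n 26 z (n 6631715 z (n 0 z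
 z))))))))) (n 1 (n 0 z (n 0 z (n 6561843 z (n 34 z z)))) (n 0 (n 0 z (n 0 z (n 0 z (n 42 z (n
 6631715 z (n 0 z (n 0 z (n 6631715 z z)))))))) z)))))) (n 1 (n 0 (n 67 (n 0 z (n 0 z (n 0 z (n
 0 z (n 0 z (n 0 z (n 0 z z))))))) (n 123 (n 0 z (n 0 z (n 0 z (n 0 z (n 0 z z))))) (n 507 (n 0
 z (n 0 z (n 0 z (n 0 z (n 0 z (n 0 z (n 0 z z))))))) (n 63 (n 0 z (n 0 z (n 0 z (n 0 z (n 0 z
 (n 0 z z)))))) (n 65 (n 0 z (n 0 z (n 0 z (n 0 z (n 0 z (n 0 z (n 0 z (n 0 z (n 0 z (n 0 z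
 z)))))))))) z))))) (n 0 (n 343 (n 0 z (n 0 z (n 0 z (n 0 z (n 0 z (n 0 z (n 0 z z))))))) (n 295
 (n 0 z (n 0 z (n 0 z (n 0 z (n 0 z (n 0 z (n 0 z (n 0 z (n 0 z (n 0 z (n 0 z (n 0 z (n 0 z (n 0
 z z)))))))))))))) (n 291 (n 0 z (n 0 z (n 0 z (n 0 z (n 0 z (n 0 z (n 0 z z))))))) (n 289 (n 0
 z (n 0 z (n 0 z (n 0 z (n 0 z z))))) z)))) (n 0 (n 55 (n 0 z (n 0 z (n 0 z (n 0 z (n 0 z (n 0 z
 (n 0 z z))))))) (n 495 (n 0 z (n 0 z (n 0 z (n 0 z (n 0 z (n 0 z z)))))) (n 493 (n 0 z (n 0 z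
 (n 0 z (n 0 z (n 0 z (n 0 z (n 0 z z))))))) z))) (n 0 (n 735 (n 0 z (n 0 z (n 0 z (n 0 z (n 0 z
 (n 0 z z)))))) (n 733 (n 0 z (n 0 z (n 0 z (n 0 z (n 0 z (n 0 z (n 0 z z))))))) z)) (n 0 (n 977
 (n 0 z (n 0 z (n 0 z (n 0 z (n 0 z (n 0 z (n 0 z (n 0 z (n 0 z (n 0 z z)))))))))) z) (n 0 z
 z)))))) (n 0 (n 0 z (n 0 z (n 1 (n 6561843 z (n 6561843 z (n 6561843 z (n 6561843 z (n 6561843
 z (n 6561843 z z)))))) (n 1 (n 4399203 z (n 2636 z (n 2 z (n 2636 z (n 2636 z (n 2636 z z))))))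
 z)))) (n 0 (n 0 (n 0 (n 0 (n 7754563 z (n 7754563 z (n 7754563 z (n 7754563 z (n 7754563 z (n
 7754563 z z)))))) z) (n 0 (n 329 (n 0 z (n 1 (n 7610419 z (n 7610419 z (n 7610419 z (n 7610419
 z (n 7610419 z (n 7610419 z z)))))) (n 0 z (n 1 (n 7754563 z (n 7754563 z (n 7754563 z (n
 7754563 z (n 7754563 z (n 7754563 z z)))))) (n 0 z z))))) (n 144 (n 0 z (n 0 z (n 1 (n 7680291
 z (n 7680291 z (n 7680291 z (n 7680291 z (n 7680291 z (n 7680291 z z)))))) (n 0 z (n 1 (n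
 7680291 z (n 7680291 z (n 7680291 z (n 7680291 z (n 7680291 z (n 7680291 z z)))))) z))))) (n
 303 (n 0 z (n 0 z (n 1 (n 7610419 z (n 7610419 z (n 7610419 z (n 7610419 z (n 7610419 z (n
 7610419 z z)))))) (n 0 z (n 1 (n 7610419 z (n 7610419 z (n 7610419 z (n 7610419 z (n 7610419 z
 (n 7610419 z z)))))) z))))) (n 367 (n 1 (n 2428 z (n 7681067 z (n 7754563 z (n 2428 z (n
 7545867 z (n 2428 z z)))))) (n 1 (n 7681067 z (n 2428 z (n 7754563 z (n 7545867 z (n 2428 z (n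
 2428 z z)))))) (n 1 (n 2164555 z (n 7681067 z (n 7754563 z (n 2164555 z (n 7545867 z (n 2164555
 z z)))))) (n 0 z (n 0 z (n 1 (n 7680291 z (n 7680291 z (n 7680291 z (n 7680291 z (n 7680291 z
 (n 7680291 z z)))))) z)))))) (n 1 (n 0 z (n 0 z (n 1 (n 7610419 z (n 7610419 z (n 7610419 z (n
 7610419 z (n 7610419 z (n 7610419 z z)))))) (n 1 (n 7544931 z (n 7746059 z (n 7746059 z (n
 7746059 z (n 7746059 z (n 7746059 z z)))))) z)))) (n 651 (n 0 z (n 0 z (n 1 (n 7680291 z (n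
 7680291 z (n 7680291 z (n 7680291 z (n 7680291 z (n 7680291 z z)))))) (n 0 z (n 1 (n 7680291 z
 (n 7680291 z (n 7680291 z (n 7680291 z (n 7680291 z (n 7680291 z z)))))) z))))) (n 1 (n 0 z (n
 0 z (n 1 (n 7610419 z (n 7610419 z (n 7610419 z (n 7610419 z (n 7610419 z (n 7610419 z z))))))
 (n 1 (n 4399219 z (n 7746059 z (n 7754563 z (n 7746059 z (n 7746059 z (n 7746059 z z))))))
 z)))) z))))))) (n 0 z (n 0 (n 153 (n 0 z (n 0 z (n 0 z (n 0 z (n 0 z (n 0 z (n 0 z z))))))) (n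
 303 (n 0 z (n 0 z (n 0 z (n 0 z (n 0 z z))))) (n 291 (n 0 z (n 0 z (n 0 z (n 0 z (n 0 z (n 0 z
 (n 0 z z))))))) (n 303 (n 0 z (n 0 z (n 0 z (n 0 z (n 0 z (n 0 z (n 0 z z))))))) (n 411 (n 0 z
 (n 0 z (n 0 z (n 0 z (n 0 z (n 0 z (n 0 z (n 0 z (n 0 z (n 0 z (n 0 z (n 0 z (n 0 z (n 0 z
 z)))))))))))))) (n 51 (n 0 z (n 0 z (n 0 z (n 0 z (n 0 z (n 0 z (n 0 z z))))))) (n 543 (n 0 z
 (n 0 z (n 0 z (n 0 z (n 0 z (n 0 z z)))))) (n 531 (n 0 z (n 0 z (n 0 z (n 0 z (n 0 z (n 0 z (n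
 0 z z))))))) (n 493 (n 0 z (n 0 z (n 0 z (n 0 z (n 0 z (n 0 z z)))))) (n 487 (n 0 z (n 0 z (n 0
 z (n 0 z (n 0 z (n 0 z z)))))) (n 665 (n 0 z (n 0 z (n 0 z (n 0 z (n 0 z (n 0 z (n 0 z (n 0 z
 (n 0 z (n 0 z z)))))))))) (n 651 (n 0 z (n 0 z (n 0 z (n 0 z (n 0 z z))))) (n 613 (n 0 z (n 0 z
 (n 0 z (n 0 z (n 0 z (n 0 z (n 0 z z))))))) (n 607 (n 0 z (n 0 z (n 0 z (n 0 z (n 0 z (n 0 z (n
 0 z z))))))) (n 608 (n 0 z (n 0 z (n 0 z (n 0 z (n 0 z (n 0 z (n 0 z (n 0 z (n 0 z (n 0 z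
 z)))))))))) (n 329 (n 0 z (n 0 z (n 0 z (n 0 z (n 0 z z))))) (n 315 (n 0 z (n 0 z (n 0 z (n 0 z
 (n 0 z (n 0 z z)))))) (n 9 (n 0 z (n 0 z (n 0 z (n 0 z (n 0 z (n 0 z z)))))) (n 3 (n 0 z (n 0 z
 (n 0 z (n 0 z (n 0 z (n 0 z (n 0 z (n 0 z (n 0 z z))))))))) (n 1 (n 0 z (n 0 z (n 0 z (n 0 z
 z)))) (n 0 (n 0 z (n 0 z (n 0 z (n 0 z (n 0 z (n 0 z (n 0 z (n 0 z z))))))))
 z))))))))))))))))))))) z)))) z) z)))) (n 0 (n 0 (n 515 (n 6635539 z (n 0 z (n 0 z (n 0 z z))))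
 (n 255 (n 6496515 z (n 0 z z)) (n 9 (n 0 z (n 0 z (n 6496515 z (n 0 z z)))) (n 511 (n 6496515 z
 (n 6496515 z (n 0 z (n 0 z (n 0 z z))))) (n 7 (n 6635539 z (n 0 z (n 0 z (n 0 z (n 0 z (n 0 z
 z)))))) (n 0 (n 0 z (n 6635539 z (n 6635539 z (n 0 z (n 0 z (n 0 z (n 0 z z))))))) z)))))) (n
 255 z (n 0 (n 1 (n 6496515 z (n 6496515 z (n 6496515 z (n 6496515 z (n 6496515 z (n 6496515 z
 z)))))) (n 0 z z)) (n 0 z z)))) (n 0x1696e8adb36d0d976b0ca758b532416ad6c136b6c0 (n 0 (n 407 (n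
 3282443 z (n 2 z (n 0 z z))) (n 33 (n 0 z (n 0 z (n 6631747 z (n 10 z (n 0 z (n 0 z z)))))) (n
 129 (n 18 z (n 26 z (n 0 z (n 34 z (n 0 z (n 0 z (n 3212843 z (n
 0x2ca8ca80038207a085f8627e08228207a08218208207e082086082086082082182085f81f81f8208208200801 z
 z)))))))) (n 3 (n 0 z (n 6631747 z (n 0 z (n 0 z (n 0 z (n 0 z (n 42 z (n 0 z (n 0 z (n 0 z
 z)))))))))) (n 1 (n 0 z (n 2164299 z (n 0 z (n 6567195 z (n 0 z (n 0 z (n 0 z (n 0 z (n 0 z (n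
 0 z (n 0 z (n 0 z (n 0 z (n 0 z (n 0 z (n 0 z z)))))))))))))))) (n 0 (n 0 z (n 6631747 z (n 0 z
 (n 0 z (n 0 z (n 50 z (n 58 z (n 0 z (n 0 z (n 0 z (n 0 z z))))))))))) z)))))) (n 407 (n 0 (n
 951 (n 0 z (n 0 z (n 0 z (n 0 z (n 0 z (n 0 z (n 0 z (n 0 z z)))))))) (n 813 (n 0 z (n 0 z (n 0
 z (n 0 z (n 0 z (n 0 z z)))))) (n 813 (n 0 z (n 0 z (n 0 z (n 0 z (n 0 z (n 0 z z)))))) (n 813
 (n 0 z (n 0 z (n 0 z (n 0 z (n 0 z (n 0 z z)))))) (n 295 (n 0 z (n 0 z (n 0 z (n 0 z (n 0 z (n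
 0 z (n 0 z (n 0 z z)))))))) (n 349 (n 0 z (n 0 z (n 0 z (n 0 z (n 0 z (n 0 z z)))))) (n 349 (n
 0 z (n 0 z (n 0 z (n 0 z (n 2 z (n 0 z z)))))) z))))))) (n 0 (n 19 (n 0 z (n 0 z (n 0 z (n 0 z
 (n 0 z (n 0 z z)))))) (n 19 (n 0 z (n 0 z (n 0 z (n 0 z (n 0 z (n 0 z z)))))) (n 19 (n 0 z (n 0
 z (n 0 z (n 0 z (n 0 z (n 0 z z)))))) (n 7 (n 0 z (n 0 z (n 0 z (n 0 z (n 0 z (n 0 z (n 0 z (n
 0 z (n 0 z z))))))))) (n 1 (n 0 z (n 0 z (n 0 z (n 0 z (n 0 z (n 0 z (n 0 z z))))))) (n 1 (n 0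
 z (n 0 z (n 0 z (n 0 z (n 2 z (n 0 z (n 0 z z))))))) z)))))) (n 0 (n 0 z (n 0 z (n 555 (n 0 z
 (n 0 z (n 0 z (n 0 z (n 0 z (n 0 z z)))))) (n 545 (n 0 z (n 0 z (n 0 z (n 0 z (n 0 z (n 0 z (n
 0 z (n 0 z (n 0 z (n 0 z z)))))))))) (n 545 (n 2 z (n 0 z (n 0 z (n 0 z (n 0 z (n 0 z (n 0 z (n
 0 z (n 0 z (n 0 z z)))))))))) z))))) (n 0 (n 0 z (n 273 (n 0 z (n 0 z (n 0 z (n 0 z z)))) (n
 257 (n 0 z (n 0 z z)) (n 257 (n 0 z (n 0 z z)) z)))) (n 0 (n 7 (n 0 z (n 0 z (n 0 z (n 0 z (n 0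
 z z))))) (n 1 (n 0 z (n 0 z (n 0 z (n 0 z (n 0 z z))))) (n 1 (n 0 z (n 0 z (n 2 z (n 0 z (n 0 z
 z))))) z))) (n 0 (n 1 (n 0 z (n 0 z (n 0 z (n 0 z (n 0 z z))))) (n 1 (n 0 z (n 0 z (n 0 z (n 2
 z (n 0 z z))))) z)) (n 0 (n 0 z z) (n 0 z z)))))))) (n 0 (n 1 (n 3282443 z (n 3282443 z (n
 3282443 z (n 3282443 z (n 3282443 z (n 3282443 z z)))))) (n 1 (n 12 z (n 268 z (n 3280995 z (n
 3212875 z (n 268 z (n 268 z z)))))) (n 0 z z))) (n 0 z z)))) (n 0xac6ab06273211a7950d2 (n 0 (n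
 179 (n 0 z (n 0 z (n 0 z (n 6627379 z (n 0 z z))))) (n 33 (n 3278363 z (n 0 z z)) (n 129 (n 0 z
 (n 0 z (n 2 z (n 6636051 z z)))) (n 3 (n 0 z (n 6493483 z (n 10 z (n 0 z z)))) (n 1 (n 18 z (n
 0 z (n 0 z (n 0 z (n 6636051 z z))))) (n 0 (n 26 z (n 0 z (n 6636051 z (n 0 z (n 0 z z)))))
 z)))))) (n 33 (n 0 (n 55 (n 0 z (n 0 z (n 0 z z))) (n 3 (n 0 z (n 0 z (n 0 z z))) (n 53 (n 0 z
 (n 0 z (n 0 z (n 0 z (n 0 z z))))) z))) (n 0 (n 15 (n 0 z (n 0 z (n 0 z z))) (n 97 (n 0 z (n 0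
 z (n 0 z (n 0 z (n 0 z z))))) z)) (n 0 (n 1117 (n 0 z (n 0 z (n 0 z (n 0 z (n 0 z (n 0 z (n 0 z
 (n 0 z (n 0 z (n 0 z (n 0 z (n 0 z z)))))))))))) z) (n 0 z z)))) (n 0 (n 1 (n 3278363 z (n
 3278363 z (n 6628123 z (n 6636051 z (n 3278363 z (n 3278363 z z)))))) (n 0 z z)) (n 0 z z))))
 (n 0 (n 0 (n 239 (n 6426675 z (n 6426675 z (n 6488603 z (n
 0x99519508061b2a2a0901c265265210382ca4c842037a971a8a18dc9df81981a8e28209dc66582076789e8208988e76a09d772389e7227df9a581b2001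
 z (n 0 z z))))) (n 33 (n 6426675 z (n 6426675 z (n 6558987 z (n
 0x994d94c8061b29a98101c165365200184ca4ca40077a971a8a18dc9df81981a8e28209dc66582076789e8208988e76a09d772389e7227df9a581b2001
 z (n 0 z z))))) (n 143 (n 6426675 z (n 0 z (n 0 z (n 0 z (n 0 z (n 0 z (n 0 z (n 0 z (n 0 z
 z))))))))) (n 142 (n 6566155 z (n 0 z (n 0 z (n 0 z (n 0 z (n 0 z (n 0 z (n 0 z z)))))))) (n 1
 (n 6566155 z (n 0 z (n 0 z (n 0 z (n 0 z (n 0 z (n 0 z (n 0 z z)))))))) (n 0 (n 6623299 z (n 0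
 z (n 0 z (n 0 z (n 0 z (n 0 z (n 0 z (n 0 z (n 0 z z))))))))) z)))))) (n 239 z (n 0 (n 1 (n
 6426675 z (n 6426675 z (n 6426675 z (n 6426675 z (n 6426675 z (n 6426675 z z)))))) (n 1 (n
 6426675 z (n 6426675 z (n 6426675 z (n 6426675 z (n 6426675 z (n 6426675 z z)))))) (n 1 (n
 6488603 z (n 6488603 z (n 6566155 z (n 6488603 z (n 6558987 z (n 6488603 z z)))))) (n 1 (n 268
 z (n 268 z (n 6558987 z (n 6566155 z (n 268 z (n 268 z z)))))) (n 0 z z))))) (n 0 z z)))) (n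
 0x586ba212cd0652e9943a8980b5610cab090493286499481612c0 (n 0 (n 239 (n 2 z (n 0 z (n 0 z (n
 6426675 z (n 0 z (n 0 z (n 10 z (n 0 z z)))))))) (n 33 (n 18 z (n 0 z (n 0 z (n 6426675 z (n 0
 z (n 0 z (n 26 z (n 0 z z)))))))) (n 143 (n 34 z (n 6426675 z (n 42 z (n 0 z (n 50 z (n 0 z
 z)))))) (n 142 (n 0 z (n 6566155 z (n 0 z z))) (n 1 (n 0 z (n 6566155 z (n 0 z z))) (n 0 (n 58
 z (n 6623299 z (n 66 z (n 0 z (n 74 z (n 0 z z)))))) z)))))) (n 142 (n 0 (n 0 z (n 115 (n 0 z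
 (n 0 z (n 0 z (n 0 z (n 0 z (n 0 z (n 0 z (n 0 z (n 0 z z))))))))) (n 115 (n 0 z (n 0 z (n 0 z
 (n 0 z (n 0 z (n 0 z (n 0 z (n 0 z (n 0 z z))))))))) (n 103 (n 0 z (n 0 z (n 0 z (n 0 z (n 0 z
 (n 0 z z)))))) (n 103 (n 0 z (n 0 z (n 0 z (n 0 z (n 0 z (n 0 z z)))))) (n 103 (n 0 z (n 0 z (n
 0 z (n 0 z (n 0 z (n 0 z z)))))) (n 109 (n 0 z (n 0 z (n 0 z (n 0 z (n 0 z (n 0 z (n 0 z
 z))))))) (n 109 (n 0 z (n 0 z (n 0 z (n 0 z (n 0 z (n 0 z (n 0 z z))))))) (n 109 (n 0 z (n 0 z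
 (n 0 z (n 0 z (n 2 z (n 0 z (n 0 z z))))))) z))))))))) (n 0 (n 191 (n 0 z (n 0 z (n 0 z (n 0 z
 (n 0 z (n 0 z (n 0 z (n 0 z (n 0 z z))))))))) (n 191 (n 0 z (n 0 z (n 0 z (n 0 z (n 0 z (n 0 z
 (n 0 z (n 0 z (n 0 z z))))))))) (n 47 (n 0 z (n 0 z (n 0 z (n 0 z (n 0 z z))))) (n 47 (n 0 z (n
 0 z (n 0 z (n 0 z (n 0 z z))))) (n 47 (n 0 z (n 0 z (n 0 z (n 2 (n 1 z (n 1 z (n 1 z z))) (n 0
 z z))))) (n 29 (n 0 z (n 0 z (n 0 z (n 0 z (n 0 z z))))) (n 29 (n 0 z (n 0 z (n 0 z (n 0 z (n 0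
 z z))))) (n 29 (n 0 z (n 0 z (n 0 z (n 0 z (n 0 z z))))) z)))))))) (n 0 (n 0 z (n 423 (n 0 z (n
 0 z (n 0 z (n 0 z (n 0 z (n 0 z (n 0 z z))))))) (n 423 (n 0 z (n 0 z (n 0 z (n 0 z (n 0 z (n 0
 z (n 0 z z))))))) (n 423 (n 0 z (n 0 z (n 0 z (n 0 z (n 2 (n 1 z (n 1 z (n 1 z z))) (n 0 z (n 0
 z z))))))) (n 389 (n 0 z (n 0 z (n 0 z (n 0 z (n 0 z (n 0 z z)))))) (n 389 (n 0 z (n 0 z (n 0 z
 (n 0 z (n 0 z (n 0 z z)))))) (n 389 (n 0 z (n 0 z (n 0 z (n 0 z (n 0 z (n 0 z z)))))) z)))))))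
 (n 0 (n 259 (n 0 z (n 0 z (n 0 z (n 0 z (n 0 z z))))) (n 259 (n 0 z (n 0 z (n 0 z (n 0 z (n 0 z
 z))))) (n 259 (n 0 z (n 0 z (n 0 z (n 0 z (n 0 z z))))) (n 241 (n 0 z (n 0 z (n 0 z (n 0 z (n 0
 z z))))) (n 241 (n 0 z (n 0 z (n 0 z (n 0 z (n 0 z z))))) (n 241 (n 0 z (n 0 z (n 0 z (n 2 z (n
 0 z z))))) z)))))) (n 0 (n 0 z (n 0 z (n 493 (n 0 z (n 0 z (n 0 z (n 0 z (n 0 z z))))) (n 493
 (n 0 z (n 0 z (n 0 z (n 0 z (n 0 z z))))) (n 493 (n 0 z (n 0 z (n 2 z (n 0 z (n 0 z z)))))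
 z))))) (n 0 (n 0 z (n 553 (n 0 z (n 0 z (n 0 z (n 0 z (n 0 z z))))) (n 553 (n 0 z (n 0 z (n 0 z
 (n 0 z (n 0 z z))))) (n 553 (n 0 z (n 0 z (n 0 z (n 0 z (n 0 z z))))) z)))) (n 0 (n 269 (n 0 z
 (n 2 (n 0 z (n 0 z z)) (n 0 z (n 0 z (n 0 z z))))) (n 269 (n 0 z (n 0 z (n 0 z (n 0 z (n 0 z
 z))))) (n 269 (n 0 z (n 0 z (n 0 z (n 0 z (n 0 z z))))) z))) (n 0 (n 0 z (n 0 z z)) (n 0 (n 0 z
 z) (n 0 z z)))))))))) (n 0 (n 0 z (n 1 (n 6566155 z (n 6566155 z (n 6426675 z (n 6566155 z (n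
 6566155 z (n 6566155 z z)))))) (n 0 z z))) (n 0 z z)))) (n 0x42d1b61609 (n 0 (n 183 (n 0 z (n
 3282443 z (n 0 z z))) (n 33 (n 0 z (n 2 z (n 3278363 z z))) (n 15 (n 0 z (n 6632003 z (n 0 z (n
 0 z (n 0 z (n 0 z (n 0 z (n 0 z (n 0 z z))))))))) (n 3 (n 0 z (n 0 z (n 0 z (n 0 z (n 0 z (n 0
 z (n 0 z (n 0 z (n 0 z (n 6632003 z z)))))))))) (n 1 (n 0 z (n 0 z (n 0 z (n 0 z (n 6566155 z
 z))))) (n 0 (n 0 z (n 0 z (n 10 z (n 0 z (n 0 z (n 6632003 z (n 0 z (n 0 z z)))))))) z)))))) (n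
 183 (n 0 (n 253 (n 0 z (n 0 z (n 0 z (n 0 z (n 0 z (n 0 z (n 0 z (n 0 z (n 0 z z))))))))) z) (n
 0 z z)) (n 0 (n 0 z (n 1 (n 3282443 z (n 6566155 z (n 3282443 z (n 3282443 z (n 3282443 z (n
 3282443 z z)))))) (n 0 z z))) (n 0 z z)))) (n 0x298cd0da66c0d332309975a11a8d8654360a5984331b409
 (n 0 (n 357 (n 0 z (n 6557731 z (n 0 z (n 0 z z)))) (n 355 (n 2 z (n 6557731 z (n 10 z (n 18 z
 z)))) (n 9 (n 0 z (n 6627595 z (n 26 z (n 0 z (n 34 z z))))) (n 3 (n 0 z (n 42 z (n 0 z (n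
 0x9b6529db91a9565e77234128dfedc59f59d8aa866993c224a1b5791e7eb5e08224e17276dcc177a20041 z (n 0 z
 (n 2164283 z z)))))) (n 1 (n 6557731 z (n 0 z (n 0 z (n 50 z (n 0 z z))))) (n 0 (n 0 z (n 58 z
 (n 6627595 z (n 66 z (n 0 z z))))) z)))))) (n 357 (n 0 (n 0 z (n 0 z (n 259 (n 0 z (n 0 z (n 0
 z (n 0 z (n 0 z (n 0 z (n 0 z (n 0 z (n 0 z (n 0 z z)))))))))) (n 259 (n 0 z (n 0 z (n 0 z (n 0
 z (n 0 z (n 0 z (n 0 z (n 7754307 z (n 0 z (n 0 z z)))))))))) (n 247 (n 0 z (n 0 z (n 0 z (n 0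
 z (n 0 z (n 0 z (n 0 z (n 0 z z)))))))) (n 243 (n 0 z (n 0 z (n 0 z (n 0 z (n 0 z (n 0 z (n 0 z
 (n 0 z (n 0 z (n 0 z (n 0 z (n 0 z (n 0 z (n 0 z z)))))))))))))) (n 241 (n 0 z (n 0 z (n 0 z (n
 0 z (n 0 z (n 0 z z)))))) (n 241 (n 0 z (n 0 z (n 2 z (n 0 z (n 0 z (n 0 z z)))))) z)))))))) (n
 0 (n 0 z (n 423 (n 0 z (n 0 z (n
 0x1ae84ca260776691a9a0a9e699505a5fa734d276755f9f785f85d46f82e7db596611925530a9aae2c248650801 z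
 (n 0 z (n 0 z (n 0 z (n 0 z (n 0 z (n 0 z (n 0 z z)))))))))) (n 423 (n 7746051 z (n 0 z (n 0 z
 (n 0 z (n 0 z (n 0 z (n 0 z (n 0 z (n 0 z (n 0 z z)))))))))) (n 321 (n 6559531 z (n 0 z (n 0 z
 (n 0 z (n 0 z (n 0 z (n 0 z (n 0 z z)))))))) (n 565 (n 0 z (n
 0x1ae84ca260776691a9a0a9e699505a5fa734d276755f9f785f85d46f82e7db596611925530a9aae2c248650801 z
 (n 0 z (n 0 z (n 0 z (n 0 z (n 0 z (n 0 z (n 0 z (n 0 z (n 0 z z))))))))))) (n 313 (n 6559531 z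
 (n 0 z (n 0 z (n 0 z (n 0 z (n 0 z (n 0 z z))))))) (n 313 (n 0 z (n 0 z (n 0 z (n 0 z (n 0 z (n
 0 z (n 0 z z))))))) z))))))) (n 0 (n 1047 (n 0 z (n 0 z (n 0 z (n 0 z (n 0 z z))))) (n 1047 (n
 0 z (n 2 (n 1 z (n 1 z (n 1 z (n 1 z z)))) (n 0 z (n 0 z (n 0 z z))))) (n 1029 (n 0 z (n 0 z (n
 0 z (n 0 z z)))) (n 673 (n 0 z (n 0 z (n 0 z z))) (n 1021 (n 0 z (n 0 z (n 0 z (n 0 z z)))) (n
 1021 (n 0 z (n 0 z (n 0 z (n 0 z z)))) z)))))) (n 0 (n 0 z (n 55 (n 0 z (n 0 z (n 0 z (n 0 z (n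
 0 z z))))) (n 51 (n 0 z (n 0 z (n 0 z (n 0 z (n 0 z z))))) (n 49 (n 0 z (n 0 z (n 0 z (n 0 z (n
 0 z z))))) (n 49 (n 0 z (n 0 z (n 0 z (n 2 z (n 0 z z))))) z))))) (n 0 (n 7 (n 0 z (n 0 z (n
 7754307 z (n 0 z z)))) (n 3 (n 0 z (n 0 z (n 0 z (n 0 z (n 2 (n 1 z (n 1 z z)) z))))) (n 1 (n 0
 z (n 7754307 z (n 0 z (n 0 z z)))) (n 1 (n 0 z (n 0 z (n 0 z (n 2 z z)))) z)))) (n 0 (n 99 (n 0
 z (n 0 z (n 0 z (n 0 z z)))) (n 97 (n 0 z (n 0 z (n 0 z (n 0 z (n 0 z z))))) (n 97 (n 0 z (n 2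
 z (n 0 z (n 0 z (n 0 z z))))) z))) (n 0 (n 145 (n 0 z (n 0 z (n 0 z (n 0 z (n 0 z (n 0 z (n 0 z
 (n 0 z z)))))))) (n 145 (n 2 z (n 0 z (n 0 z (n 0 z (n 0 z (n 0 z (n 0 z (n 0 z z)))))))) z))
 (n 0 (n 0 z z) (n 0 z z))))))))) (n 0 (n 0 z (n 1 (n 6557731 z (n 6557731 z (n 6557731 z (n
 6557731 z (n 6557731 z (n 6557731 z z)))))) (n 0 z (n 0 z z)))) (n 0 z z)))) (n
 0x14b6686cb3606599182cb68369c6c32a36412cc419 (n 0 (n 303 (n 0 z (n 0 z (n 6426707 z z))) (n 291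
 (n 2 z (n 0 z (n 10 z (n 6426707 z z)))) (n 9 (n 0 z (n 0 z (n 18 z (n 0 z (n 6426707 z z)))))
 (n 3 (n 26 z (n 0 z (n 34 z (n 2164283 z z)))) (n 1 (n 0 z (n 0 z (n 0 z (n 2164299 z (n 42 z
 z))))) (n 0 (n 0 z (n 50 z (n 2164315 z (n 58 z z)))) z)))))) (n 303 (n 0 (n 0 z (n 423 (n 0 z
 (n 0 z (n
 0x1ac62e40a07a59a609975e57dc5de7de9727148d452b8e5514d5e823b6145c4e562f5e4b58d688d359f9590801 z
 (n 0 z (n 0 z (n 0 z (n 0 z (n 0 z (n 0 z (n 0 z z)))))))))) (n 405 (n 0 z (n 0 z (n 0 z (n 0 z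
 (n 0 z (n 0 z z)))))) (n 405 (n 2 (n 1 z (n 1 z (n 1 z z))) (n 0 z (n 0 z (n 0 z (n 0 z (n 0 z
 z)))))) (n 543 (n 0 z (n 0 z (n 0 z z))) (n 397 (n 2 (n 0 z z) (n 0 z (n 0 z (n 0 z (n 0 z (n 0
 z (n 0 z (n 0 z z)))))))) (n 397 (n 0 z (n 0 z (n 0 z (n 0 z (n 0 z (n 0 z (n 0 z (n 0 z
 z)))))))) z))))))) (n 0 (n 259 (n 0 z (n 0 z (n 0 z (n 0 z (n 0 z (n 0 z (n 0 z (n 0 z (n 0 z
 (n 0 z z)))))))))) (n 295 (n 0 z (n 2 (n 0 z (n 1 z (n 1 z (n 1 z z)))) (n 0 z (n 0 z (n 0 z (n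
 0 z (n 0 z z))))))) (n 295 (n 0 z (n 0 z (n 0 z (n 0 z (n 0 z (n 0 z (n 0 z z))))))) (n 291 (n
 0 z (n 0 z (n 0 z z))) (n 289 (n 0 z (n 0 z (n 0 z (n 0 z (n 0 z (n 0 z (n 0 z (n 0 z z))))))))
 (n 289 (n 0 z (n 0 z (n 0 z (n 0 z (n 0 z (n 0 z (n 0 z (n 0 z z)))))))) z)))))) (n 0 (n 55 (n
 0 z (n 2 (n 0 z (n 1 z (n 1 z (n 1 z z)))) (n 0 z (n 0 z (n 0 z z))))) (n 55 (n 0 z (n 0 z (n 0
 z (n 0 z (n 0 z z))))) (n 51 (n 0 z (n 0 z (n 0 z (n 0 z (n 0 z z))))) (n 49 (n 0 z (n 0 z (n 0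
 z (n 0 z (n 0 z z))))) (n 49 (n 0 z (n 0 z (n 0 z (n 2 z (n 0 z z))))) z))))) (n 0 (n 0 z (n 15
 (n 0 z (n 2 (n 1 z (n 1 z z)) z)) (n 13 (n 2 (n 0 z z) (n 0 z (n 0 z (n 0 z (n 0 z (n 0 z (n 0
 z (n 0 z z)))))))) (n 13 (n 0 z (n 0 z (n 0 z (n 0 z (n 0 z (n 0 z (n 0 z (n 0 z z))))))))
 z)))) (n 0 (n 735 (n 0 z (n 0 z (n 0 z (n 0 z (n 0 z (n 0 z (n 0 z z))))))) (n 733 (n 0 z (n 0
 z (n 0 z (n 0 z (n 0 z (n 0 z z)))))) (n 733 (n 0 z (n 0 z (n 2 z (n 0 z (n 0 z (n 0 z z))))))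
 z))) (n 0 (n 973 (n 0 z (n 0 z (n 0 z (n 0 z (n 0 z (n 0 z (n 0 z (n 0 z (n 0 z (n 0 z (n 0 z
 (n 0 z z)))))))))))) (n 973 (n 0 z (n 0 z (n 0 z (n 0 z (n 0 z (n 0 z (n 0 z (n 0 z (n 0 z (n 0
 z (n 0 z (n 0 z z)))))))))))) z)) (n 0 (n 0 z z) (n 0 z z)))))))) (n 0 (n 0 z (n 0 z (n 1 (n
 6426707 z (n 6426707 z (n 6426707 z (n 6426707 z (n 6426707 z (n 6426707 z z)))))) z))) (n 0 z
 z)))) (n 0xb0c5449b5a1185580c2a44414a2302311840 (n 0 (n 441 (n 2 z (n 6565971 z (n 0 z z))) (n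
 435 (n 0 z (n 3278363 z (n 0 z (n 10 z (n 0 z z))))) (n 9 (n 18 z (n 0 z (n 3212843 z (n 0 z
 z)))) (n 3 (n 0 z (n 0 z (n 0 z (n 0 z (n 0 z (n 0 z (n 6565971 z z))))))) (n 1 (n 0 z (n 26 z
 (n 6565971 z (n 0 z (n 0 z z))))) (n 0 (n 34 z (n 0 z (n 0 z (n 42 z (n 50 z (n 2164315 z
 z)))))) z)))))) (n 441 (n 0 (n 751 (n 0 z (n 0 z (n 0 z z))) (n 747 (n 0 z (n 0 z (n 0 z (n 0 z
 (n 0 z z))))) (n 15 (n 0 z (n 0 z (n 0 z (n 0 z (n 0 z (n 0 z (n 0 z (n 0 z (n 0 z z)))))))))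
 (n 745 (n 0 z (n 0 z (n 0 z (n 0 z (n 0 z z))))) (n 745 (n 0 z (n 0 z (n 0 z (n 0 z (n 0 z
 z))))) (n 745 (n 0 z (n 0 z (n 0 z (n 0 z (n 0 z z))))) z)))))) (n 0 (n 795 (n 0 z (n 0 z (n 0
 z (n 0 z z)))) (n 339 (n 0 z (n 0 z (n 0 z (n 0 z z)))) (n 793 (n 0 z (n 0 z (n 0 z z))) (n 793
 (n 0 z (n 0 z (n 0 z z))) (n 793 (n 0 z (n 0 z (n 0 z z))) z))))) (n 0 (n 291 (n 0 z (n 0 z (n
 0 z (n 0 z (n 0 z z))))) (n 841 (n 0 z (n 0 z (n 0 z (n 0 z (n 0 z (n 0 z (n 0 z (n 0 z (n 0 z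
 (n 0 z (n 0 z (n 0 z (n 0 z z))))))))))))) (n 841 (n 0 z (n 0 z (n 0 z (n 0 z (n 0 z (n 0 z (n
 0 z (n 0 z (n 0 z (n 0 z (n 0 z (n 0 z (n 2 (n 0 z z) z))))))))))))) (n 841 (n 0 z (n 0 z (n 0
 z (n 0 z (n 0 z (n 0 z (n 0 z (n 0 z (n 0 z (n 0 z (n 0 z (n 0 z (n 0 z z))))))))))))) z)))) (n
 0 (n 389 (n 0 z (n 0 z (n 0 z (n 0 z (n 0 z (n 0 z (n 0 z (n 0 z (n 0 z (n 0 z (n 0 z (n 0 z
 z)))))))))))) (n 389 (n 0 z (n 0 z (n 0 z (n 0 z (n 0 z (n 0 z (n 0 z (n 0 z (n 0 z (n 2 (n 0 z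
 z) (n 0 z (n 0 z z)))))))))))) (n 389 (n 0 z (n 0 z (n 0 z (n 0 z (n 0 z (n 0 z (n 0 z (n 0 z
 (n 0 z (n 0 z (n 0 z (n 0 z z)))))))))))) z))) (n 0 (n 0 z (n 0 z z)) (n 0 (n 0 z z) (n 0 z
 z))))))) (n 0 (n 1 (n 3484 z (n 28 z (n 3484 z (n 3484 z (n 3484 z (n 3484 z z)))))) (n 1 (n
 6565971 z (n 6565971 z (n 6565971 z (n 6565971 z (n 6565971 z (n 6565971 z z)))))) (n 0 z z)))
 (n 0 z z)))) z)))))))))), by decide +kernel⟩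
theorem i10296 : ∃ t, chkR KT RW t 10296 10306 = true := ⟨(n
 0x1ad6ee16b71909b7b50da6606d6d686746c531b209 (n 0 (n 297 (n 3282443 z (n 0 z z)) (n 249 (n 0 z
 (n 2 z (n 3278363 z (n 10 z (n 18 z z))))) (n 9 (n 0 z (n 26 z (n
 0x30c86c862037f98218097f37d28008137f482e7d27ce83e8087f18147f37dd7ff81c7cd81182c8377db7ee8827c87ab8088777d278f84c8537d77d87a784986f78d8407e079e8368208477cf7fc8638170811
 z (n 3212843 z (n 34 z z))))) (n 3 (n 42 z (n 6636307 z (n 0 z z))) (n 1 (n 6636307 z (n 50 z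
 z)) (n 0 (n 6636307 z (n 0 z (n 0 z (n 0 z (n 0 z (n 0 z (n 58 z z))))))) z)))))) (n 297 (n 0
 (n 0 z (n 0 z (n 259 (n 0 z (n 0 z (n
 0x16c62ea08037e17b28297c282380084c80181a7d87e87f080e7c278e7c282580087a8518467c87c88248007d48828287cb7b782f7f17807f57c984a83f7ef7a982878b80a7f086e7d97eb8058078147dc0811
 z (n 0 z (n 0 z (n 0 z (n 0 z (n 0 z (n 0 z (n 0 z z)))))))))) (n 259 (n 0 z (n 0 z (n 0 z (n 0
 z (n 0 z (n 0 z (n 0 z (n 0 z (n 0 z (n 0 z z)))))))))) (n 295 (n 0 z (n 0 z z)) (n 291 (n 0 z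
 (n 0 z (n 0 z (n 0 z (n 0 z (n 2 (n 1 z z) z)))))) (n 289 (n 0 z (n 0 z (n 0 z (n 0 z (n 0 z (n
 0 z (n 0 z z))))))) z))))))) (n 0 (n 0 z (n 727 (n 2 (n 0 z (n 1 z (n 1 z (n 1 z z)))) (n 0 z
 (n 0 z (n 0 z (n 0 z (n 0 z (n 0 z z))))))) (n 727 (n 0 z (n 0 z (n 0 z (n 0 z (n 0 z (n 0 z (n
 0 z z))))))) (n 507 (n 2 (n 1 z (n 1 z z)) (n 0 z (n 0 z (n 0 z (n 0 z (n 0 z z)))))) (n 579 (n
 0 z (n 0 z (n 0 z (n 0 z z)))) (n 577 (n 0 z (n 0 z z)) z)))))) (n 0 (n 103 (n 0 z (n 0 z (n 0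
 z (n 0 z z)))) (n 103 (n 0 z (n 0 z (n 0 z (n 0 z z)))) (n 507 (n 0 z (n 0 z (n 0 z (n 0 z (n 0
 z (n 0 z (n 0 z (n 0 z z)))))))) (n 495 (n 0 z (n 0 z (n 0 z (n 0 z z)))) (n 497 (n 0 z (n 0 z
 (n 0 z (n 0 z (n 0 z (n 0 z (n 0 z (n 0 z (n 0 z (n 0 z (n 0 z z))))))))))) z))))) (n 0 (n 0 z
 (n 665 (n 0 z (n 0 z (n 0 z (n 0 z (n 0 z (n 0 z z)))))) (n 3 (n 0 z (n 0 z (n 0 z (n 0 z (n 0
 z (n 0 z z)))))) (n 1 (n 0 z (n 0 z (n 0 z (n 0 z (n 0 z (n 0 z (n 0 z z))))))) z)))) (n 0 (n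
 247 (n 0 z (n 0 z (n 0 z (n 0 z z)))) (n 3 (n 0 z (n 0 z (n 0 z (n 0 z z)))) (n 1 (n 0 z (n 0 z
 (n 0 z (n 0 z z)))) z))) (n 0 (n 3 (n 0 z (n 0 z (n 0 z (n 0 z (n 0 z z))))) (n 1 (n 0 z (n 0 z
 (n 0 z (n 0 z (n 0 z z))))) z)) (n 0 (n 5 (n 0 z (n 0 z (n 0 z (n 0 z (n 0 z (n 0 z (n 0 z (n 0
 z z)))))))) z) (n 0 z z)))))))) (n 0 (n 1 (n 3282443 z (n 3282443 z (n 3282443 z (n 3282443 z
 (n 3282443 z (n 3282443 z z)))))) (n 0 z z)) (n 0 z z)))) (n 0x18629c (n 0 (n 563 (n 3282443 z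
 (n 0 z (n 0 z (n 0 z (n 0 z (n 0 z (n 0 z (n 0 z (n 0 z (n 0 z (n 0 z z))))))))))) (n 377 (n 0
 z (n 6496515 z (n 0 z (n 0 z (n 0 z (n 0 z (n 0 z (n 0 z (n 0 z (n 0 z z)))))))))) (n 376 (n 0
 z (n 0 z (n 0 z (n 6496515 z (n 0 z (n 0 z (n 0 z (n 0 z (n 0 z (n 0 z (n 0 z (n 0 z (n 0 z
 z))))))))))))) (n 3 (n 0 z (n 6496515 z (n 0 z (n 0 z (n 0 z (n 0 z (n 0 z (n 0 z (n 0 z
 z))))))))) (n 1 (n 0 z (n 2164299 z (n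
 0x12c62c40a0381a89889cb6595d81d81e9357e382552b85e89e8a62ad86391892375c8a396c5a19de5509190801 z
 (n 0 z (n 2 z z))))) (n 0 (n 0 z (n 0 z (n 0 z (n 0 z (n 0 z (n 0 z (n 2164315 z (n 0 z (n 0 z
 (n 0 z (n 0 z z))))))))))) z)))))) (n 1 (n 0 z z) (n 0 (n 0 z (n 1 (n 2164299 z (n 2164299 z (n
 2164299 z (n 2164299 z (n 2164299 z (n 2164299 z z)))))) (n 1 (n 4508 z (n 4508 z (n 4508 z (n
 4392539 z (n 4508 z (n 4508 z z)))))) (n 0 z (n 1 (n 4508 z (n 4508 z (n 4508 z (n 4508 z (n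
 4508 z (n 4508 z z)))))) z))))) (n 0 z z)))) (n 0x3b4ca61a19 (n 0 (n 563 (n 0 z (n 3282443 z (n
 0 z (n 0 z (n 0 z z))))) (n 377 (n 0 z (n 0 z (n
 0x2ca4ca080382086082081f8208217a08207df7e08217e085f8209207e17e085f8208608208207e08608600801 z
 (n 6496515 z (n 0 z (n 0 z (n 0 z (n 2 z (n
 0xca8c8640782086086082082082181f8207df8208208218208208a17e07e086082082081f82086081f8600801 z (n
 0xca8ca840382081f8208208208217e082081f82082082085f8208a07e07e08208208218208208208218200801 z (n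
 0 z z))))))))))) (n 376 (n 6496515 z (n 0 z (n 0 z (n 0 z (n 0 z z))))) (n 3 (n 0 z (n 0 z (n
 6496515 z (n 0 z (n 0 z z))))) (n 1 (n 0 z (n 0 z (n 0 z (n 0 z (n 2164299 z (n 0 z z)))))) (n
 0 (n
 0x2c64c6420382182085f82086082182082179e8207e182182081f8a27a07e07e081f82182085f7de82281f0801 z
 (n 0 z (n 0 z (n 10 z (n 0 z (n 0 z (n 0 z (n 0 z (n 2164315 z (n 0 z (n 0 z (n 0 z (n 0 z (n 0
 z (n 0 z (n 0 z (n 0 z (n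
 0xc64c6420382082185f85f85f7df7df7e181f81f8208218df8208207df7e07e182186089f8a081e86181f0801 z (n
 0 z z))))))))))))))))))) z)))))) (n 563 (n 0 (n 745 (n 0 z (n 0 z (n 0 z (n 0 z (n 0 z (n 0 z
 (n 0 z (n 0 z (n 0 z (n 0 z (n
 0xec8ec84038208208208208208207e08208208208208208208208a07e081f8208208208207e08208208210801 z (n
 0 z (n 0 z (n 0 z (n 0 z (n 0 z (n 0 z z))))))))))))))))) z) (n 0 z z)) (n 0 (n 0 z (n 1 (n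
 6496515 z (n 3282443 z (n 3282443 z (n 3282443 z (n 3282443 z (n 3282443 z z)))))) (n 0 z (n 0
 z (n 0 z z))))) (n 0 z z)))) (n 0x618c5320626a048b (n 0 (n 333 (n 0 z (n 3282443 z (n 0 z (n 0
 z (n 0 z (n 0 z (n 0 z z))))))) (n 317 (n 0 z (n 3278363 z (n 0 z (n 0 z (n 0 z z))))) (n 9 (n
 0 z (n 6566483 z (n 0 z z))) (n 253 (n 0 z (n 2 z (n 0 z (n 0 z (n 6566483 z (n 0 z (n 0 z (n
 10 z z)))))))) (n 1 (n 0 z (n 0 z (n 0 z (n 6566483 z (n 18 z z))))) (n 0 (n 0 z (n 2164315 z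
 (n 0 z (n 3212891 z (n 0 z (n 0 z (n 0 z (n 0 z z)))))))) z)))))) (n 9 (n 0 (n 0 z (n 111 (n 0
 z (n 0 z (n 0 z (n 0 z (n 0 z z))))) z)) (n 0 (n 495 (n 0 z (n 0 z (n 0 z (n 0 z (n 0 z (n 0 z
 (n 0 z z))))))) z) (n 0 z z))) (n 0 (n 0 z (n 1 (n 6566483 z (n 6566483 z (n 6566483 z (n
 6566483 z (n 6566483 z (n 6566483 z z)))))) (n 0 z z))) (n 0 z z)))) (n 0xcc4d9cc33acd1a67350ea
 (n 0 (n 237 (n 0 z (n 3282443 z (n 0 z (n 0 z (n 0 z (n 0 z (n 0 z (n 0 z z)))))))) (n 255 (n 0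
 z (n 0 z (n 6496515 z (n 0 z (n 0 z (n 0 z z)))))) (n 9 (n 0 z (n 0 z (n 2 z (n 6496515 z z))))
 (n 27 (n 0 z (n 0 z (n 10 z (n 0 z (n 18 z (n 0 z (n 26 z (n 0 z (n 0 z (n 6496515 z
 z)))))))))) (n 1 (n 0 z (n 0 z (n 0 z (n 2164299 z (n 0 z (n 0 z (n 0 z (n 0 z (n 0 z (n 0 z (n
 0 z (n 0 z (n 0 z z))))))))))))) (n 0 (n 0 z (n 2164315 z (n 0 z (n 0 z (n 0 z (n 0 z z))))))
 z)))))) (n 9 (n 0 (n 441 (n 0 z (n 0 z (n 0 z (n 0 z (n 0 z (n 0 z (n 0 z (n 0 z z)))))))) (n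
 441 (n 0 z (n 0 z (n 0 z (n 0 z (n 0 z (n 0 z (n 0 z (n 0 z z)))))))) (n 441 (n 0 z (n 0 z (n 0
 z (n 0 z (n 0 z (n 0 z (n 0 z (n 0 z z)))))))) z))) (n 0 (n 0 z (n 0 z z)) (n 0 (n 0 z z) (n 0
 z z)))) (n 0 (n 0 z (n 0 z (n 1 (n 1900 z (n 1900 z (n 1900 z (n 1900 z (n 1900 z (n 1900 z
 z)))))) (n 1 (n 6496515 z (n 6496515 z (n 6496515 z (n 6496515 z (n 6496515 z (n 6496515 z
 z)))))) z)))) (n 0 z z)))) (n 0x152958294a440a4e2a124910a24540cc548462ca0115280 (n 0x22a52 (n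
 587 (n 2 z (n 0 z (n 6635571 z (n 0 z (n 10 z (n 0 z z)))))) (n 598 (n 0 z (n 3278363 z (n 0 z
 (n 18 z (n 0 z (n 0 z (n 0 z (n 26 z z)))))))) (n 129 (n 34 z (n 42 z (n 0 z (n 3212843 z z))))
 (n 3 (n 0 z (n 50 z (n 0 z (n 0 z (n 0 z (n 0 z (n 0 z (n 2164283 z (n 0 z z))))))))) (n 1 (n 0
 z (n 6635571 z (n 0 z (n 58 z z)))) (n 0 (n 6635571 z (n 66 z (n 0 z z))) z)))))) (n 0 (n 0 (n
 0 z (n 1163 (n 0 z (n 0 z (n 0 z (n 0 z (n 0 z z))))) (n 1163 (n 0 z (n 0 z (n 0 z (n 0 z (n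
 7673403 z z))))) (n 1155 (n 0 z (n 0 z (n 0 z (n 0 z (n 0 z (n 0 z (n 0 z (n 0 z z)))))))) (n
 1155 (n 0 z (n 0 z (n 0 z (n 0 z (n 0 z (n 0 z (n 0 z (n 0 z z)))))))) (n 55 (n 0 z (n 0 z (n 0
 z (n 0 z (n 0 z (n 0 z (n 0 z (n 0 z (n 0 z (n 0 z (n 0 z (n 0 z (n 0 z (n 0 z (n 0 z (n 0 z
 z)))))))))))))))) (n 57 (n 0 z (n 0 z (n 0 z (n 0 z (n 0 z z))))) (n 53 (n 0 z (n 0 z (n 0 z (n
 0 z z)))) z)))))))) (n 0 (n 1163 (n 0 z (n 2 (n 0 z (n 1 z (n 1 z (n 1 z (n 1 z (n 1 z z))))))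
 (n 0 z (n 0 z (n 0 z (n 0 z (n 0 z (n 0 z (n 0 z z))))))))) (n 1163 (n 0 z (n 0 z (n 0 z (n 0 z
 (n 0 z (n 0 z (n 2 (n 1 z (n 1 z (n 1 z (n 1 z (n 1 z z))))) (n 0 z (n 0 z z))))))))) (n 1155
 (n 2 (n 0 z (n 1 z (n 1 z (n 1 z z)))) (n 0 z (n 0 z (n 0 z z)))) (n 1155 (n 0 z (n 2 (n 1 z (n
 1 z (n 1 z z))) (n 0 z (n 0 z z)))) (n 1153 (n 2 (n 1 z (n 1 z z)) (n 0 z (n 0 z (n 0 z (n 0 z
 z))))) (n 489 (n 0 z (n 0 z (n 0 z (n 0 z (n 0 z (n 0 z (n 2 (n 1 z z) z))))))) (n 157 (n 0 z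
 (n 0 z (n 0 z (n 0 z (n 0 z (n 0 z (n 2 z (n 0 z (n 0 z (n 0 z z)))))))))) z))))))) (n 0 (n 0 z
 (n 1173 (n 0 z (n 0 z (n 0 z (n 0 z (n 0 z (n 0 z (n 0 z (n 2 (n 0 z (n 1 z (n 1 z (n 1 z z))))
 (n 0 z (n 0 z z)))))))))) (n 1173 (n 0 z (n 0 z (n 0 z (n 0 z (n 0 z (n 0 z (n 0 z (n 0 z (n 0
 z (n 0 z z)))))))))) (n 295 (n 0 z (n 0 z (n 0 z (n 0 z (n 0 z (n 0 z (n 0 z (n 0 z (n 0 z (n 0
 z (n 0 z z))))))))))) (n 297 (n 0 z (n 0 z (n 0 z (n 0 z (n 0 z (n 0 z (n 0 z (n 0 z (n 0 z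
 z))))))))) (n 293 (n 0 z (n 0 z (n 0 z (n 0 z (n 0 z (n 0 z (n 0 z (n 0 z (n 0 z (n 0 z
 z)))))))))) z)))))) (n 0 (n 1053 (n 0 z (n 0 z z)) (n 1053 (n 6557811 z (n 0 z z)) (n 1049 (n
 6557811 z (n 0 z (n 0 z z))) (n 373 (n 0 z (n 6625083 z (n 0 z (n 0 z (n 0 z (n 0 z (n 0 z (n 0
 z (n 0 z (n 0 z z)))))))))) (n 409 (n 6557811 z (n 0 z (n 0 z (n 0 z z)))) z))))) (n 0 (n 0 z
 (n 1181 (n 0 z (n 0 z (n 0 z (n 0 z (n 0 z (n 0 z (n 0 z (n 0 z z)))))))) (n 597 (n 0 z (n 2 (n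
 1 z z) (n 0 z (n 0 z (n 0 z (n 0 z (n 0 z z))))))) (n 593 (n 0 z (n 0 z (n 0 z (n 0 z (n 0 z (n
 0 z (n 0 z z))))))) z)))) (n 0 (n 247 (n 0 z (n 0 z (n 0 z (n 0 z (n 0 z (n 0 z (n 0 z (n 0 z
 z)))))))) (n 243 (n 0 z (n 0 z (n 0 z (n 0 z (n 0 z (n 0 z (n 0 z (n 0 z (n 0 z (n 0 z
 z)))))))))) (n 241 (n 0 z (n 0 z (n 0 z (n 0 z (n 0 z (n 0 z (n 0 z z))))))) z))) (n 0 (n 819
 (n 0 z (n 0 z (n 0 z (n 0 z (n 0 z (n 0 z (n 0 z (n 0 z (n 0 z (n 0 z (n 0 z z))))))))))) (n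
 817 (n 0 z (n 0 z (n 0 z (n 0 z (n 0 z (n 0 z (n 0 z (n 0 z (n 0 z (n 0 z (n 0 z (n 0 z (n 0 z
 (n 0 z (n 0 z (n 0 z z)))))))))))))))) z)) (n 0 (n 25 (n 0 z (n 0 z (n 0 z (n 0 z (n 0 z (n 0 z
 (n 0 z (n 0 z (n 0 z (n 0 z (n 0 z (n 0 z (n 0 z (n 0 z (n 0 z (n 0 z z)))))))))))))))) z) (n 0
 z z))))))))) (n 0 (n 1 (n 6635571 z (n 6635571 z (n 6635571 z (n 6635571 z (n 6635571 z (n
 6635571 z z)))))) (n 1 (n 4700 z (n 5509219 z (n 4700 z (n 2 z (n 4700 z (n 4700 z z)))))) (n 0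
 z z))) (n 0 (n 0x316500 (n 0 (n 0 (n 7746571 z (n 7606371 z (n 7746571 z (n 7746571 z (n
 7746571 z (n 7746571 z z)))))) z) (n 0 (n 26 (n 0 z (n 1 (n 7684147 z (n 7684147 z (n 7684147 z
 (n 7684147 z (n 7684147 z (n 7684147 z z)))))) (n 1 (n 7684147 z (n 7684147 z (n 7684147 z (n
 7684147 z (n 7684147 z (n 7684147 z z)))))) (n 1 (n 4700 z (n 4700 z (n 4700 z (n 2 z (n 4700 z
 (n 6633259 z z)))))) z)))) (n 587 (n 1 (n 7684147 z (n 7684147 z (n 7684147 z (n 7684147 z (n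
 7684147 z (n 7684147 z z)))))) (n 1 (n 4788 z (n 7746571 z (n 4788 z (n 4788 z (n 4788 z (n
 4788 z z)))))) (n 1 (n 7606371 z (n 7606371 z (n 7606371 z (n 7606371 z (n 7606371 z (n 7606371
 z z)))))) (n 0 z (n 1 (n 7606371 z (n 7606371 z (n 7606371 z (n 7606371 z (n 7606371 z (n
 7606371 z z)))))) z))))) (n 129 (n 1 (n 7673403 z (n 7606371 z (n 4732 z (n 4732 z (n 6358843 z
 (n 4732 z z)))))) (n 1 (n 7746571 z (n 7606371 z (n 7746571 z (n 7746571 z (n 7746571 z (n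
 7746571 z z)))))) (n 0 z (n 1 (n 3213099 z (n 7606371 z (n 3213099 z (n 3213099 z (n 3213099 z
 (n 3213099 z z)))))) z)))) (n 129 (n 0 z (n 0 z (n 1 (n 6358843 z (n 6358843 z (n 6358843 z (n
 6358843 z (n 6358843 z (n 2164539 z z)))))) (n 1 (n 5515115 z (n 3292 z (n 3340 z (n 5378163 z
 (n 3340 z (n 5375803 z z)))))) (n 0 z (n 1 (n 7746571 z (n 7746571 z (n 7746571 z (n 5513331 z
 (n 7746571 z (n 7746571 z z)))))) (n 0 z (n 1 (n 4261675 z (n 4261675 z (n 4261675 z (n 4261675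
 z (n 4261675 z (n 4261675 z z)))))) z)))))))) (n 1 (n 0 z (n 1 (n 7684147 z (n 7684147 z (n
 7684147 z (n 7684147 z (n 7684147 z (n 7684147 z z)))))) (n 0 z (n 1 (n 2164587 z (n 7606371 z
 (n 2164587 z (n 2164587 z (n 7673403 z (n 2164587 z z)))))) z)))) (n 0 (n 1 (n 7684147 z (n
 7684147 z (n 7684147 z (n 7684147 z (n 7684147 z (n 7684147 z z)))))) (n 1 (n 7746571 z (n
 7606371 z (n 7746571 z (n 7746571 z (n 7746571 z (n 7746571 z z)))))) (n 0 z z))) (n 0 (n 1 (n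
 7684147 z (n 7684147 z (n 7684147 z (n 7684147 z (n 7684147 z (n 7684147 z z)))))) (n 1 (n
 7746571 z (n 5509235 z (n 7746571 z (n 7746571 z (n 7746571 z (n 7746571 z z)))))) (n 0 z z)))
 z))))))) (n 0 (n 0 (n 0 z z) z) (n 0 (n 587 (n 0 (n 0 z z) (n 0 (n 0 z z) (n 0 (n 0 z z) (n 0
 (n 0 z z) (n 0 (n 0 z z) z))))) (n 591 (n 0 (n 0 z z) (n 0 (n 0 z z) (n 0 (n 0 z z) (n 0 (n 0
 (n
 0x858647de82d7e67ed80e8138297ee7d581982c7fe8087d082f7c07e67e18447a685a7c380b83d7ee8427cb8447f97f88037ce86977e8498047e28097f97fb8018187f782f80b7fd7f28088078040051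
 z (n
 0x858647de82d7e67ed80e8138297ee7d581982c7fe8087d082f7c07e67e18447a685a7c380b83d7ee8427cb8447f97f88037ce86977e8498047e28097f97fb8018187f782f80b7fd7f28088078040051
 z z)) z) (n 0 (n 0 z z) (n 0 (n 0 (n 4397099 z (n 4397099 z z)) z) (n 0 (n 0 z z) (n 0 (n 0 z
 z) z)))))))) (n 592 (n 0 (n 0 z z) (n 0 (n 0 z z) (n 0 (n 0 (n 8872787 z (n 8872787 z z)) z) (n
 0 (n 0 z z) (n 0 (n 0 z z) (n 0 (n 0 z z) (n 0 (n 0 z z) (n 0 (n 0 z z) (n 0 (n 0 z z) (n 0 (n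
 0 (n 8734571 z (n
 0xfac3a06a28747c67c48c385a76780775a8ff81c7df84a7f880d8797c68168317a07958337a48467fb8417ed7cb76b7d579b7d58508098758497ba8477b482d7d482283b7f58227be83d7ae8228247be8030091
 z z)) z) z)))))))))) (n 417 (n 0 (n 0 z z) (n 0 (n 0 z z) (n 0 (n 0 (n 8734571 z (n
 0x1d8747fc8018018057fc8067fe8057f58058057fd8017f58087f17ff8008097f18127f68028057fe80e7f880f8007fd8007f58117ea80c8007fd8018008007fd8057ff8067ff7fd7fe8047fd7fe0051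
 z z)) z) (n 0 (n 0 z z) (n 0 (n 0 z z) (n 0 (n 0 z z) (n 0 (n 0 z z) (n 0 (n 0 z z) (n 0 (n 0
 (n 6428731 z z) z) (n 0 (n 0 z z) (n 0 (n 0 z z) (n 0 (n 0 (n 8852523 z z) z) (n 0 (n 0 z z) (n
 0 (n 0 z z) (n 0 (n 0 z z) (n 0 (n 0 z z) z)))))))))))))))) (n 411 (n 0 (n 0 z z) (n 0 (n 0 z
 z) (n 0 (n 0 z z) (n 0 (n 0 (n 8872787 z (n 8872787 z z)) z) (n 0 (n 0 z z) (n 0 (n 0 z z) (n 0
 (n 0 z z) (n 0 (n 0 z z) (n 0 (n 0 (n 6424635 z z) z) (n 0 (n 0 z z) (n 0 (n 0 z z)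
 z))))))))))) (n 129 (n 0 (n 0 z z) (n 0 (n 0 z z) (n 0 (n 0 z z) (n 0 (n 0 z z) (n 0 (n 0 z z)
 (n 0 (n 0 z z) (n 0 (n 0 z z) (n 0 (n 0 z z) z)))))))) (n 539 (n 0 (n 0 z z) (n 0 (n 0 z z) (n
 0 (n 0 z z) (n 0 (n 0 z z) (n 0 (n 0 z z) z))))) (n 533 (n 0 (n 0 z z) (n 0 (n 0 z z) (n 0 (n 0
 z z) (n 0 (n 0 z z) (n 0 (n 0 z z) (n 0 (n 0 z z) (n 0 (n 0 z z) (n 0 (n 0 z z) (n 0 (n 0 z z)
 z))))))))) (n 135 (n 0 (n 0 z z) (n 0 (n 0 z z) (n 0 (n 0 z z) (n 0 (n 0 z z) (n 0 (n 0 z z) (n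
 0 (n 0 z z) (n 0 (n 0 z z) (n 0 (n 0 z z) (n 0 (n 0 (n 3213355 z (n 3213355 z z)) z) (n 0 (n 0
 (n 3213355 z (n 3213355 z z)) z) z)))))))))) (n 529 (n 0 (n 0 z z) (n 0 (n 0 z z) (n 0 (n 0 z
 z) (n 0 (n 0 z z) (n 0 (n 0 z z) (n 0 (n 0 z z) (n 0 (n 0 z z) (n 0 (n 0 z z) (n 0 (n 0 z z) (n
 0 (n 0 (n 6424635 z (n 8795947 z z)) z) (n 0 (n 0 z z) z))))))))))) (n 659 (n 0 (n 0 z z) (n 0
 (n 0 z z) (n 0 (n 0 z z) (n 0 (n 0 z z) z)))) (n 653 (n 0 (n 0 z z) (n 0 (n 0 z z) (n 0 (n 0 z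
 z) (n 0 (n 0 z z) (n 0 (n 0 z z) (n 0 (n 0 z z) (n 0 (n 0 z z) (n 0 (n 0 z z) (n 0 (n 0 (n
 0x1d8747fb8028018077fa8077ff8077f38078067fd8017f380a7ed7fe80080c7ed8167f58018067fd8137f58138007fc8007f38157e580f8007fd8018008007fc8057fe8077ff7fc7ff8067fc7fe0051
 z (n
 0x858727de82d7e67ed80e8138297ee7d581982c7fe8087d082f7c07e67e18447a685a7c380b83d7ee8427cb8447f97f88037ce86977e8498047e28097f97fb8018187f782f80b7fd7f28088078040051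
 z z)) z) (n 0 (n 0 (n 8734571 z (n
 0x561ce1cc80e0570a6e8640380180a7f57ca82c7f28177e38357e58137d77fb7bd80d8218277e480f7d17da8138207d481e7ee8607e97e981b81582a7eb81b7ea7d183d7e98167f57fc79881282282c7cf7f67f680a7e91011
 z z)) z) z)))))))))) (n 141 (n 0 (n 0 z z) (n 0 (n 0 z z) (n 0 (n 0 z z) (n 0 (n 0 z z) (n 0 (n
 0 (n
 0x858617de82d7e67ed80e8138297ee7d581982c7fe8087d082f7c07e67e18447a685a7c380b83d7ee8427cb8447f97f88037ce86977e8498047e28097f97fb8018187f782f80b7fd7f28088078040051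
 z (n
 0x858617de82d7e67ed80e8138297ee7d581982c7fe8087d082f7c07e67e18447a685a7c380b83d7ee8427cb8447f97f88037ce86977e8498047e28097f97fb8018187f782f80b7fd7f28088078040051
 z z)) z) (n 0 (n 0 z z) (n 0 (n 0 z z) z))))))) (n 649 (n 0 (n 0 (n 2164827 z z) z) (n 0 (n 0 z
 z) (n 0 (n 0 z z) (n 0 (n 0 (n
 0x121d8767fff357ffecb8001948005997ffc508001577ffb678005a17fffd27fffbc8001ac7ffcdc7fffea7ff8bc8001917ffad280014a8002098004a47ff6c28001627fff4480002f7ffeb68000db8006027ffec28006168000178000067fff227ffc4980076d7ffcac8001978000507fffa17ffdb38000ce8000fc8005d47ff8437fff857ffc177ffe7c7ffb898004668005967ffa9c80017a0059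
 z (n 8795947 z z)) z) (n 0 (n 0 z z) (n 0 (n 0 z z) (n 0 (n 0 z z) (n 0 (n 0 (n
 0x258727fa8028018087f98097fe8087ef8088087fc8017f080d7e87fe80180f7e781c7f28018077fd8177f38188007fc8007f081a7de8128017fc8018008007fd8067fe80a7fe7fc7fe8067fb7fd0051
 z (n 8795947 z z)) z) (n 0 (n 0 z z) (n 0 (n 0 z z) (n 0 (n 0 (n 8852523 z z) z) (n 0 (n 0 z z)
 (n 0 (n 0 z z) (n 0 (n 0 z z) (n 0 (n 0 (n 8734571 z (n
 0xbd82180f7af86188877681d7828a37c58207f47f87f77c481f79781d84d8077df86f7df7fa7ae8168537e08657ef7cb8097d682478383580282e7e47f18017b485181280b7e97f67f18127fb7e40051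
 z z)) z) (n 0 (n 0 z z) z)))))))))))))))) (n 18 (n 0 (n 0 z z) (n 0 (n 0 z z) (n 0 (n 0 z z) (n
 0 (n 0 (n 8795947 z (n 6359131 z z)) z) (n 0 (n 0 (n 2164827 z (n 2164827 z z)) z) (n 0 (n 0 z
 z) (n 0 (n 0 z z) (n 0 (n 0 z z) (n 0 (n 0 z z) (n 0 (n 0 z z) (n 0 (n 0 z z) (n 0 (n 0 z z) (n
 0 (n 0 (n 6359131 z z) z) (n 0 (n 0 (n 2164827 z z) z) (n 0 (n 0 z z) (n 0 (n 0 (n 6359131 z z)
 z) z)))))))))))))))) (n 587 (n 0 (n 0 z z) (n 0 (n 0 z z) (n 0 (n 0 z z) (n 0 (n 0 z z) (n 0 (n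
 0 z z) (n 0 (n 0 z z) z)))))) (n 598 (n 0 (n 0 z z) (n 0 (n 0 z z) (n 0 (n 0 z z) (n 0 (n 0 z
 z) (n 0 (n 0 z z) (n 0 (n 0 z z) (n 0 (n 0 z z) (n 0 (n 0 z z) z)))))))) (n 129 (n 0 (n 0 z z)
 (n 0 (n 0 z z) (n 0 (n 0 z z) (n 0 (n 0 z z) z)))) (n 3 (n 0 (n 0 z z) (n 0 (n 0 z z) (n 0 (n 0
 z z) (n 0 (n 0 z z) (n 0 (n 0 z z) (n 0 (n 0 z z) (n 0 (n 0 z z) (n 0 (n 0 z z) (n 0 (n 0 z z)
 z))))))))) (n 1 (n 0 (n 0 z z) (n 0 (n 0 z z) (n 0 (n 0 (n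
 0xbd87380f7af86188877681d7828a37c58207f47f87f77c481f79781d84d8077df86f7df7fa7ae8168537e08657ef7cb8097d682478383580282e7e47f18017b485181280b7e97f67f18127fb7e40051
 z (n 7680643 z z)) z) (n 0 (n 0 z z) z)))) (n 0 (n 0 (n 0 (n 8732723 z z) z) (n 0 (n 0 z z) (n
 0 (n 0 (n 8852523 z (n 8852523 z z)) z) z))) z))))))))))))))))))))) z)))) z) z)))) (n
 0x1da6505eb6d169928a6b958a63ae8311b414abb4435da40 (n 0x2bb4c (n 561 (n 0 z (n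
 0x329298a01c2994d48500e08ca8a82407858b87817683727e798b816b827598768877956d8366757f8c887d8079807f8a737a7962877a7c636978778fa2838f7a9a831809
 z (n 3282443 z (n 0 z (n 0 z (n 2 z z)))))) (n 375 (n 0 z (n 6496515 z (n 0 z (n 0 z (n 10 z
 z))))) (n 373 (n 18 z (n 0 z (n 6496515 z (n 0 z (n 0 z (n 26 z (n 0 z z))))))) (n 3 (n 0 z (n
 34 z (n 6496515 z z))) (n 1 (n 0 z (n 42 z (n 50 z (n 2164299 z z)))) (n 0 (n 58 z (n 0 z (n 0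
 z (n 66 z (n 0 z (n 0 z (n 0 z (n 0 z (n 0 z (n 0 z (n 0 z (n 0 z (n 0 z (n 0 z (n 0 z (n 0 z
 (n 0 z (n 2164315 z (n 0 z z))))))))))))))))))) z)))))) (n 3 (n 0 (n 1111 (n 0 z (n 0 z (n 0 z
 (n 0 z (n 0 z (n 0 z (n 0 z (n 0 z (n 0 z z))))))))) (n 271 (n 2 (n 0 z (n 1 z (n 1 z (n 1 z (n
 1 z (n 1 z z)))))) (n 0 z (n 0 z (n 0 z (n 0 z (n 0 z (n 0 z (n 0 z (n 0 z (n 0 z (n 0 z (n 0 z
 (n 0 z (n 0 z (n 0 z z))))))))))))))) (n 271 (n 0 z (n 0 z (n 0 z (n 0 z (n 0 z (n 0 z (n 0 z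
 (n 0 z (n 0 z (n 0 z (n 0 z (n 0 z (n 0 z (n 0 z (n 0 z z))))))))))))))) (n 267 (n 0 z (n 0 z
 (n 0 z (n 0 z (n 0 z (n 0 z (n 0 z (n 0 z (n 0 z (n 0 z (n 0 z z))))))))))) (n 243 (n 0 z (n 0
 z (n 0 z (n 0 z z)))) (n 243 (n 0 z (n 0 z (n 0 z (n 0 z z)))) (n 265 (n 0 z (n 0 z (n 0 z (n
 7680611 z (n 0 z (n 0 z (n 0 z (n 0 z (n 0 z (n 0 z z)))))))))) (n 265 (n 0 z (n 0 z (n 0 z (n
 0 z (n 0 z (n 0 z (n 0 z (n 0 z (n 0 z (n 0 z z)))))))))) z)))))))) (n 0 (n 867 (n 2 (n 0 z (n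
 1 z (n 1 z (n 1 z (n 1 z (n 1 z z)))))) (n 0 z (n 0 z z))) (n 867 (n 0 z (n 0 z (n 0 z z))) (n
 75 (n 0 z (n 0 z (n 0 z (n 0 z (n 0 z (n 0 z (n 0 z z))))))) (n 63 (n 0 z (n 0 z (n 0 z (n 0 z
 z)))) (n 63 (n 0 z (n 0 z (n 0 z (n 0 z z)))) (n 749 (n 0 z (n 0 z (n 0 z (n 0 z (n 0 z (n
 7680611 z (n 0 z (n 0 z (n 0 z (n 0 z z)))))))))) (n 749 (n 0 z (n 0 z (n 0 z (n 0 z (n 0 z (n
 0 z (n 0 z (n 0 z (n 0 z (n 0 z z)))))))))) z))))))) (n 0 (n 0 z (n 247 (n 2 (n 1 z (n 1 z (n 1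
 z (n 1 z z)))) (n 0 z (n 0 z z))) (n 243 (n 0 z (n 0 z (n 0 z (n 0 z (n 2 (n 0 z (n 1 z (n 1 z
 z))) (n 0 z z)))))) (n 243 (n 0 z (n 0 z (n 0 z (n 2 (n 1 z (n 1 z z)) (n 0 z (n 0 z z)))))) (n
 245 (n 2 (n 0 z z) (n 0 z (n 0 z (n 0 z (n 0 z (n 0 z (n 0 z (n 0 z (n 0 z (n 0 z z))))))))))
 (n 245 (n 0 z (n 0 z (n 0 z (n 0 z (n 2 z (n 0 z (n 0 z (n 0 z (n 0 z (n 0 z z))))))))))
 z)))))) (n 0 (n 247 (n 0 z (n 0 z (n 0 z (n 0 z (n 0 z (n 0 z (n 0 z z))))))) (n 15 (n 0 z (n 0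
 z (n 0 z (n 0 z z)))) (n 15 (n 0 z (n 0 z (n 0 z (n 0 z z)))) (n 745 (n 0 z (n 0 z (n 0 z (n 0
 z (n 0 z (n 0 z (n 0 z (n 0 z (n 0 z (n 0 z (n 0 z (n 0 z (n 0 z (n 7673355 z (n 0 z (n 0 z (n
 0 z (n 0 z (n 0 z (n 0 z (n 0 z z))))))))))))))))))))) (n 745 (n 0 z (n 0 z (n 0 z (n 0 z (n 0
 z (n 0 z (n 0 z (n 0 z (n 0 z (n 0 z (n 0 z (n 0 z (n 0 z (n 0 z (n 0 z (n 0 z (n 0 z (n 0 z (n
 0 z (n 0 z (n 0 z z))))))))))))))))))))) z))))) (n 0 (n 3 (n 0 z (n 0 z (n 0 z (n 0 z (n 0 z (n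
 2 (n 0 z (n 1 z (n 1 z z))) (n 0 z (n 0 z (n 0 z (n 0 z z)))))))))) (n 3 (n 0 z (n 0 z (n 0 z
 (n 0 z (n 0 z (n 0 z (n 0 z (n 0 z (n 0 z (n 0 z z)))))))))) (n 5 (n 0 z (n 0 z (n 0 z (n 0 z
 (n 0 z (n 0 z (n 0 z (n 0 z (n 7673355 z (n 0 z (n 0 z z))))))))))) (n 5 (n 0 z (n 0 z (n 0 z
 (n 0 z (n 0 z (n 0 z (n 0 z (n 0 z (n 0 z (n 0 z (n 0 z z))))))))))) z)))) (n 0 (n 0 z (n 1 (n
 0 z (n 0 z (n 0 z (n 0 z (n 0 z (n 0 z (n 0 z (n 0 z (n 0 z (n 0 z (n 0 z (n 0 z (n 0 z (n 0 z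
 z)))))))))))))) (n 1 (n 0 z (n 0 z (n 0 z (n 0 z (n 0 z (n 0 z (n 0 z (n 0 z (n 0 z (n 0 z (n 0
 z (n 0 z (n 0 z (n 2 z z)))))))))))))) z))) (n 0 (n 1 (n 0 z (n 0 z (n 0 z (n 0 z (n 0 z (n 0 z
 (n 0 z (n 0 z (n 0 z (n 7680611 z (n 0 z (n 0 z (n 0 z (n 0 z (n 0 z (n 0 z (n 0 z
 z))))))))))))))))) (n 1 (n 0 z (n 0 z (n 0 z (n 0 z (n 0 z (n 0 z (n 0 z (n 0 z (n 0 z (n 0 z
 (n 0 z (n 0 z (n 0 z (n 0 z (n 0 z (n 0 z (n 0 z z))))))))))))))))) z)) (n 0 (n 0 z z) (n 0 z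
 z))))))))) (n 0 (n 0 z (n 1 (n 5445131 z (n 4492 z (n 4492 z (n 4492 z (n 2 z (n 4492 z z))))))
 (n 1 (n 6496515 z (n 6496515 z (n 6496515 z (n 6496515 z (n 6496515 z (n 6496515 z z)))))) z)))
 (n 0 (n 0x66d052 (n 0 (n 0 (n 7734059 z (n 7734059 z (n 7734059 z (n 7673355 z (n 7680611 z (n
 7734059 z z)))))) z) (n 0 (n 121 (n 1 (n 5513587 z (n 4331275 z (n 4396907 z (n 4492 z (n 4492
 z (n 4492 z z)))))) (n 0 z (n 1 (n 4399475 z (n 3282699 z (n 3282699 z (n 3282699 z (n 3282699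
 z (n 3282699 z z)))))) (n 1 (n 3282763 z (n 3282763 z (n 3282763 z (n 3282763 z (n 3282763 z (n
 3282763 z z)))))) z)))) (n 433 (n 1 (n 4492 z (n 4492 z (n 4492 z (n 4492 z (n 7734059 z (n
 4492 z z)))))) (n 1 (n 7545091 z (n 7545091 z (n 7545091 z (n 7545091 z (n 7545091 z (n 7545091
 z z)))))) (n 1 (n 7545091 z (n 7545091 z (n 7545091 z (n 7545091 z (n 7545091 z (n 7545091 z
 z)))))) z))) (n 435 (n 1 (n 2 z (n 6358859 z (n 1276 z (n 1276 z (n 1276 z (n 1276 z z)))))) (n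
 1 (n 7545091 z (n 7545091 z (n 7545091 z (n 7545091 z (n 7545091 z (n 7545091 z z)))))) (n 1 (n
 7545091 z (n 7545091 z (n 7545091 z (n 7545091 z (n 7545091 z (n 7545091 z z)))))) z))) (n 3 (n
 0 z (n 1 (n 2164587 z (n 2164587 z (n 2164587 z (n 7673355 z (n 7680611 z (n 2164587 z z))))))
 (n 1 (n 7545091 z (n 7545091 z (n 7545091 z (n 7545091 z (n 7545091 z (n 7545091 z z)))))) z)))
 (n 201 (n 1 (n 7545091 z (n 28 z (n 7673355 z (n 3213163 z (n 268 z (n 268 z z)))))) (n 0 z (n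
 1 (n 7545091 z (n 3282699 z (n 3282699 z (n 7673355 z (n 3282699 z (n 3282699 z z)))))) (n 1 (n
 7545091 z (n 2164555 z (n 7673355 z (n 3282763 z (n 3282763 z (n 3282763 z z)))))) z)))) (n 237
 (n 1 (n 7545091 z (n 3282699 z (n 3282699 z (n 7673355 z (n 3282699 z (n 3282699 z z)))))) (n 1
 (n 7545091 z (n 7680611 z (n 7680611 z (n 7680611 z (n 7680611 z (n 7680611 z z)))))) (n 0 z (n
 1 (n 7545091 z (n 7680611 z (n 7680611 z (n 7680611 z (n 7680611 z (n 7680611 z z)))))) (n 0 z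
 (n 0 z (n 0 z (n 0 z (n 0 z (n 1 (n 7545091 z (n 7680611 z (n 7680611 z (n 7680611 z (n 7680611
 z (n 7680611 z z)))))) z)))))))))) (n 3 (n 0 z (n 1 (n 5445387 z (n 2164587 z (n 2164587 z (n
 2164587 z (n 7734059 z (n 2164587 z z)))))) (n 1 (n 7545091 z (n 7545091 z (n 7545091 z (n
 7545091 z (n 7545091 z (n 7545091 z z)))))) z))) z))))))) (n 0 (n 0 (n 0 z z) z) (n 0 (n 561 (n
 0 (n 0 (n
 0x2c3a824875808183837d807e847c818278847c85817f7d837b857b7f7e8582837f7d8184837f7d7d7d827e7f7a7a7e8382897e867f837d0089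
 z z) z) (n 0 (n 0 (n 8868923 z z) z) (n 0 (n 0 z z) (n 0 (n 0 (n
 0x44875938280877b856f837f7c6e707e92788f7083758d8381897f90797b8d79829f667d8a78818e75758098848b5e786f768d69600049
 z z) z) (n 0 (n 0 z z) (n 0 (n 0 z z) (n 0 (n 0 (n 4401179 z z) z) (n 0 (n 0 z z) (n 0 (n 0 z
 z) z))))))))) (n 159 (n 0 (n 0 z z) (n 0 (n 0 z z) (n 0 (n 0 (n 8871955 z z) z) (n 0 (n 0 z z)
 (n 0 (n 0 (n 8871955 z z) z) (n 0 (n 0 z z) (n 0 (n 0 z z) (n 0 (n 0 z z) (n 0 (n 0 z z) (n 0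
 (n 0 z z) (n 0 (n 0 z z) (n 0 (n 0 z z) (n 0 (n 0 z z) (n 0 (n 0 z z) (n 0 (n 0 z z)
 z))))))))))))))) (n 435 (n 0 (n 0 z z) (n 0 (n 0 z z) (n 0 (n 0 z z) z))) (n 183 (n 0 (n 0 z z)
 (n 0 (n 0 z z) (n 0 (n 0 z z) (n 0 (n 0 z z) (n 0 (n 0 z z) (n 0 (n 0 z z) (n 0 (n 0 z z) (n 0
 (n 0 z z) (n 0 (n 0 z z) (n 0 (n 0 z z) (n 0 (n 0 z z) z))))))))))) (n 39 (n 0 (n 0 z z) (n 0
 (n 0 z z) (n 0 (n 0 z z) (n 0 (n 0 z z) (n 0 (n 0 z z) (n 0 (n 0 z z) (n 0 (n 0 z z) z)))))))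
 (n 129 (n 0 (n 0 z z) (n 0 (n 0 (n 8871955 z z) z) (n 0 (n 0 z z) (n 0 (n 0 z z) (n 0 (n 0 z z)
 (n 0 (n 0 z z) (n 0 (n 0 z z) z))))))) (n 201 (n 0 (n 0 z z) (n 0 (n 0 z z) (n 0 (n 0 z z) (n 0
 (n 0 z z) z)))) (n 33 (n 0 (n 0 z z) (n 0 (n 0 z z) (n 0 (n 0 z z) (n 0 (n 0 z z) z)))) (n 9 (n
 0 (n 0 z z) (n 0 (n 0 z z) (n 0 (n 0 z z) (n 0 (n 0 (n 3213387 z (n 3213387 z z)) z) z)))) (n 3
 (n 0 (n 0 z z) (n 0 (n 0 z z) (n 0 (n 0 z z) (n 0 (n 0 z z) (n 0 (n 0 z z) (n 0 (n 0 z z) (n 0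
 (n 0 z z) (n 0 (n 0 (n 2164811 z (n 2164811 z z)) z) (n 0 (n 0 z z) (n 0 (n 0 z z) z))))))))))
 (n 237 (n 0 (n 0 z z) (n 0 (n 0 z z) (n 0 (n 0 z z) (n 0 (n 0 z z) (n 0 (n 0 z z) (n 0 (n 0 z
 z) (n 0 (n 0 z z) (n 0 (n 0 z z) (n 0 (n 0 z z) (n 0 (n 0 z z) z)))))))))) (n 375 (n 0 (n 0 z
 z) (n 0 (n 0 z z) (n 0 (n 0 z z) (n 0 (n 0 z z) (n 0 (n 0 z z) (n 0 (n 0 z z) (n 0 (n 0 z z) (n
 0 (n 0 (n
 0x10ed0ec607818080827f817e807f7f7f7e827f817f7f80817f8080818081817f817f7f817f8080807f80807f817f8080808281808080800809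
 z (n 8591211 z z)) z) (n 0 (n 0 z z) (n 0 (n 0 z z) z)))))))))) (n 373 (n 0 (n 0 z z) (n 0 (n 0
 z z) (n 0 (n 0 (n 8871955 z (n 8871955 z z)) z) (n 0 (n 0 (n
 0x5c840858588867d7b7d86718a836a877e8a807e7c8a738b6d737c8288847a7a7e808677787a7b7f828371717f7f8b9284917c88860049
 z (n
 0x5c840858588867d7b7d86718a836a877e8a807e7c8a738b6d737c8288847a7a7e808677787a7b7f828371717f7f8b9284917c88860049
 z z)) z) (n 0 (n 0 z z) (n 0 (n 0 (n 8593667 z z) z) (n 0 (n 0 z z) (n 0 (n 0 z z) (n 0 (n 0 z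
 z) (n 0 (n 0 z z) (n 0 (n 0 z z) (n 0 (n 0 z z) (n 0 (n 0 z z) (n 0 (n 0 z z) (n 0 (n 0 z z) (n
 0 (n 0 z z) (n 0 (n 0 (n 8593667 z (n 8593667 z z)) z) (n 0 (n 0 z z) (n 0 (n 0 z z) (n 0 (n 0
 z z) (n 0 (n 0 z z) z))))))))))))))))))))) (n 3 (n 0 (n 0 z z) (n 0 (n 0 z z) (n 0 (n 0 (n
 0x748109e83808b798766857e7964677d9c739866856f9484818f7f997679947584b0587c8f7482956f6e81a586914b746671955b4e0049
 z (n 7610499 z z)) z) (n 0 (n 0 (n 8871955 z (n 8871955 z z)) z) (n 0 (n 0 (n 8721931 z (n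
 8721931 z z)) z) (n 0 (n 0 (n 7743499 z (n
 0x5c841858588867d7b7d86718a836a877e8a807e7c8a738b6d737c8288847a7a7e808677787a7b7f828371717f7f8b9284917c88860049
 z z)) z) (n 0 (n 0 (n 8721931 z (n 8721931 z z)) z) (n 0 (n 0 z z) (n 0 (n 0 z z) (n 0 (n 0 z
 z) (n 0 (n 0 z z) z))))))))))) (n 1 (n 0 (n 0 (n
 0x3c8208f8280867c8473837f7c72737f8e798c7383778a828188808d7b7d8b7a82996b7e8879818b777780938388657b72798b6d660049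
 z (n
 0x748209e83808b798766857e7964677d9c739866856f9484818f7f997679947584b0587c8f7482956f6e81a586914b746671955b4e0049
 z z)) z) (n 0 (n 0 (n
 0x5c821858588867d7b7d86718a836a877e8a807e7c8a738b6d737c8288847a7a7e808677787a7b7f828371717f7f8b9284917c88860049
 z (n
 0x5c821858588867d7b7d86718a836a877e8a807e7c8a738b6d737c8288847a7a7e808677787a7b7f828371717f7f8b9284917c88860049
 z z)) z) (n 0 (n 0 z z) (n 0 (n 0 (n 8871955 z (n 8871955 z z)) z) (n 0 (n 0 z z) (n 0 (n 0 (n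
 8721931 z (n 8721931 z z)) z) (n 0 (n 0 (n 8721931 z (n 8721931 z z)) z) (n 0 (n 0 (n 8721931 z
 (n 8721931 z z)) z) (n 0 (n 0 z z) (n 0 (n 0 z z) (n 0 (n 0 z z) (n 0 (n 0 z z) (n 0 (n 0 z z)
 (n 0 (n 0 z z) (n 0 (n 0 (n
 0x30ed0ec607828281827d827f7f807d817a7e7b847e867e847e827e7a8185827e857f7c88857f7f7875877d7e7576827d868b80817c897d0809
 z (n 8591211 z z)) z) (n 0 (n 0 z z) (n 0 (n 0 z z) z))))))))))))))))) (n 561 (n 0 (n 0 z z) (n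
 0 (n 0 z z) (n 0 (n 0 z z) (n 0 (n 0 z z) (n 0 (n 0 z z) (n 0 (n 0 z z) z)))))) (n 375 (n 0 (n
 0 z z) (n 0 (n 0 (n 8593667 z z) z) (n 0 (n 0 (n 8593667 z z) z) (n 0 (n 0 (n 8782635 z z) z)
 (n 0 (n 0 z z) z))))) (n 373 (n 0 (n 0 z z) (n 0 (n 0 z z) (n 0 (n 0 z z) (n 0 (n 0 (n 5519403
 z z) z) (n 0 (n 0 z z) (n 0 (n 0 z z) (n 0 (n 0 z z) z))))))) (n 3 (n 0 (n 0 z z) (n 0 (n 0 z
 z) (n 0 (n 0 z z) z))) (n 1 (n 0 (n 0 z z) (n 0 (n 0 z z) (n 0 (n 0 z z) (n 0 (n 0 z z) z))))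
 (n 0 (n 0 (n 0 z z) (n 0 (n 0 (n
 0x44821848487857d7c7e847488826e857f88807f7d87758971767c8287837b7c7e808578797c7c7f828274747f7f898f848e7c87850049
 z (n
 0x5c821858588867d7b7d86718a836a877e8a807e7c8a738b6d737c8288847a7a7e808677787a7b7f828371717f7f8b9284917c88860049
 z z)) z) (n 0 (n 0 z z) (n 0 (n 0 z z) (n 0 (n 0 z z) (n 0 (n 0 (n 8782635 z (n 8782635 z z))
 z) (n 0 (n 0 z z) (n 0 (n 0 z z) (n 0 (n 0 (n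
 0x2c08024810808183837d807e847c818278847c85817f7d837b857b7f7e8582837f7d8184837f7d7d7d827e7f7a7a7e8382897e867f837d0089
 z (n
 0x2c08024810808183837d807e847c818278847c85817f7d837b857b7f7e8582837f7d8184837f7d7d7d827e7f7a7a7e8382897e867f837d0089
 z z)) z) (n 0 (n 0 z z) (n 0 (n 0 z z) (n 0 (n 0 z z) (n 0 (n 0 z z) (n 0 (n 0 z z) (n 0 (n 0
 (n 8868923 z (n 8868923 z z)) z) (n 0 (n 0 (n 8871955 z (n 8871955 z z)) z) (n 0 (n 0 z z) (n 0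
 (n 0 z z) (n 0 (n 0 z z) z))))))))))))))))))) z))))))))))))))))))))) z)))) z) z)))) (n 0x11110a
 (n 0 (n 669 (n 0 z (n 3282443 z (n 0 z (n 0 z z)))) (n 667 (n 0 z (n 0 z (n 6496515 z (n 0 z (n
 0 z (n 0 z (n 0 z (n 0 z (n 0 z (n 0 z (n 0 z z))))))))))) (n 51 (n 6496515 z (n 6496515 z (n
 6496515 z (n 0 z (n 0 z (n 2 z (n
 0x165465130182ca6a8620386376395f8a285f7df8218a28207a08a18207a48218229238a17df8607e076092091e7a379f1001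
 z (n 0 z (n 0 z (n 0 z z)))))))))) (n 27 (n 0 z (n 6497307 z (n 0 z (n 0 z (n 0 z (n 6496515 z
 z)))))) (n 1 (n 2164299 z (n 0 z (n 0 z (n 0 z (n 0 z (n 0 z (n 0 z z))))))) (n 0 (n 6619931 z
 z) z)))))) (n 0 (n 0 z z) (n 0 (n 1 (n 6619931 z (n 6619931 z (n 6619931 z (n 6619931 z (n
 6619931 z (n 6619931 z z)))))) z) (n 0 z z)))) (n 0xa96ea133732770099680 (n 0 (n 279 (n 0 z (n
 2 z (n 6557731 z (n 0 z (n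
 0x226528207e186281f81f81f8a27df7e182082181e89e8228607e28207a382085e81f8207de8617a00041 z (n
 0x226418207e186281f81f81f8a27df7e182082181e89e8228607e28207a382085e81f8207de8617a00041 z (n
 0x5ac822c6417df8e085e8218a07e07a18a28e379e82075c8a279f86081f8608628a379d7e18228dca628200081 z
 (n 0 z (n 10 z (n 0 z z)))))))))) (n 383 (n 0 z (n 6557731 z (n 0 z (n 0 z (n 0 z (n 0 z
 z)))))) (n 11 (n 0 z (n 6497307 z z)) (n 3 (n 6497307 z (n 0 z z)) (n 1 (n 0 z (n 18 z (n 0 z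
 (n 0 z (n 0 z (n 0 z (n 6557731 z (n 0 z z)))))))) (n 0 (n 0 z (n 0 z (n 26 z (n 0 z (n 0 z (n
 0 z (n 3212891 z (n 0 z (n 2164315 z (n 0 z (n 0 z (n 0 z z)))))))))))) z)))))) (n 11 (n 0 (n 0
 z (n 133 (n 0 z (n 0 z (n 0 z (n 0 z (n 0 z (n 0 z (n 2 (n 1 z z) (n 0 z z)))))))) (n 101 (n 0
 z (n 0 z (n 0 z (n 0 z (n 0 z (n 0 z (n 0 z (n 0 z (n 0 z z))))))))) z))) (n 0 (n 925 (n 0 z (n
 0 z (n 0 z (n 0 z (n 0 z (n 0 z z)))))) (n 641 (n 0 z (n 0 z (n 0 z z))) z)) (n 0 (n 1 (n 0 z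
 (n 0 z (n 0 z (n 0 z (n 0 z (n 0 z z)))))) z) (n 0 z z)))) (n 0 (n 0 z (n 1 (n 6497307 z (n
 6557731 z (n 6497307 z (n 6497307 z (n 6497307 z (n 6497307 z z)))))) z)) (n 0 z z)))) (n
 0x81426448129b4114990d2 (n 0 (n 521 (n 0 z (n 3282443 z (n 0 z (n 0 z z)))) (n 461 (n 0 z (n
 6562131 z (n 0 z z))) (n 135 (n 2 z (n 0 z (n 10 z (n 18 z (n 6562131 z z))))) (n 3 (n 6493195
 z (n 0 z (n 0 z (n 0 z z)))) (n 1 (n 0 z (n 0 z (n 26 z (n 0 z (n 6562131 z (n 0 z z)))))) (n 0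
 (n 0 z (n 6619675 z z)) z)))))) (n 0 (n 0 (n 0 z (n 0 z (n 613 (n 0 z (n 0 z (n 0 z (n 0 z (n 0
 z (n 0 z (n 0 z z))))))) z))) (n 0 (n 0 z (n 483 (n 0 z (n 0 z (n 0 z (n 0 z (n 0 z (n 0 z (n 0
 z z))))))) z)) (n 0 (n 483 (n 0 z (n 0 z (n 0 z (n 0 z (n 0 z (n 0 z z)))))) z) (n 0 z z)))) (n
 0 (n 0 z (n 1 (n 6619675 z (n 6619675 z (n 6619675 z (n 6619675 z (n 6562131 z (n 6619675 z
 z)))))) z)) (n 0 z z)))) z)))))))))), by decide +kernel⟩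
theorem i10306 : ∃ t, chkR KT RW t 10306 10316 = true := ⟨(n 0x1042d4 (n 0 (n 179 (n 0 z (n 0 z
 (n 0 z (n 6623283 z (n 0 z z))))) (n 33 (n 0 z (n 0 z (n 0 z (n 0 z (n 0 z (n 6623283 z (n 0 z
 (n 0 z (n 0 z z))))))))) (n 11 (n 3212843 z (n 0 z (n 0 z (n 0 z z)))) (n 27 (n 0 z (n 0 z (n 0
 z (n 0 z (n 0 z (n 2164283 z (n 0 z (n 0 z (n 0 z (n 0 z (n 0 z z))))))))))) (n 1 (n 2 z (n 0 z
 (n 0 z (n 2164299 z (n 5445195 z (n 0 z z)))))) (n 0 (n 0 z (n 0 z (n 0 z (n 0 z (n 6623283 z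
 z))))) z)))))) (n 11 (n 0 z z) (n 0 (n 1 (n 3212843 z (n 6619675 z (n 3212843 z (n 3212843 z (n
 3212843 z (n 3212843 z z)))))) (n 0 z (n 0 z (n 0 z z)))) (n 0 z z)))) (n 0x4a6ba59162 (n 0 (n
 453 (n 3282443 z (n 0 z (n 0 z (n 0 z (n 0 z (n 0 z z)))))) (n 377 (n 0 z (n 6496515 z (n 0 z
 (n 0 z (n 0 z (n 0 z (n 0 z z))))))) (n 376 (n 0 z (n 6496515 z (n 0 z (n 0 z (n 2 z (n 0 z (n
 0 z (n 0 z (n 0 z z))))))))) (n 27 (n 0 z (n 0 z (n 6496515 z (n 0 z (n 0 z z))))) (n 1 (n 0 z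
 (n 0 z (n 0 z (n 2164299 z (n 0 z z))))) (n 0 (n 0 z (n 0 z (n 0 z (n 10 z (n 0 z (n 2164315 z
 (n 0 z (n 0 z z)))))))) z)))))) (n 27 (n 0 (n 869 (n 0 z (n 0 z (n 0 z (n 0 z (n 0 z (n 0 z (n
 0 z (n 0 z (n 0 z (n 0 z (n 0 z (n
 0xec8ec82038207e082182082086086082085f81f82182081f7a08207a18208208608208208218208207e00801 z (n
 0 z (n 0 z z)))))))))))))) z) (n 0 z z)) (n 0 (n 0 z (n 0 z (n 1 (n 6496515 z (n 6496515 z (n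
 6496515 z (n 6496515 z (n 6496515 z (n 6496515 z z)))))) (n 0 z (n 0 z z))))) (n 0 z z)))) (n
 0x5615a (n 0 (n 177 (n 0 z (n 0 z (n 3282443 z z))) (n 33 (n 0 z (n 0 z (n 0 z (n 6496595 z
 z)))) (n 129 (n 2 z (n 0 z (n 0 z (n 6496595 z (n 6496595 z (n 0 z (n 0 z z))))))) (n 3 (n 0 z
 (n 0 z (n 0 z (n 0 z (n 0 z (n 6496595 z (n 6496595 z (n 0 z (n 0 z z))))))))) (n 1 (n 6558475
 z (n 0 z (n 0 z (n 0 z (n 0 z z))))) (n 0 (n 0 z (n 6619675 z (n 6619675 z (n 0 z (n 0 z (n 0 z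
 (n 0 z (n 0 z (n 0 z (n 0 z (n 6619675 z z))))))))))) z)))))) (n 177 (n 0 z z) (n 0 (n 0 z (n 0
 z (n 1 (n 3282443 z (n 6558475 z (n 3282443 z (n 3282443 z (n 3282443 z (n 3282443 z z))))))
 z))) (n 0 z z)))) (n 0 (n 0 (n 719 (n 3282443 z (n 5379595 z (n 0 z (n 5445131 z (n
 0x465365120180329b20901c1d4c59408060aca4ca42037c93808a739a6c8588608a737d9284728f7a837c8694817e8085616a72747c6d80737d7c68858a7671aaa88896878b82788e2009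
 z (n 0 z (n 0 z (n 0 z (n 0 z (n
 0x1994d50480608ca4a84203788e8090748c71867d7886857d887883857d7e8484847f7f837977787a6c81867d7f7a7b7a7a857e758a9681848585747b911009
 z (n 0 z (n 0 z (n
 0x195194480600ca6ca240380808080808080808080808080817e808080817f80818080807f8080807e807f81807f8081807f80807f808180807f8081801009
 z (n
 0x765364320183b21b28900c0d94d90480606ca4c84203817e80807e80817f7c788080807e7f818280838182828080808081827e807e7d7f868080808080807d7e7e8582817d7e7f862009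
 z (n
 0xca4ca4203817e8081807f7e8180807f7e81817d8081837c847c8380807f8382837c7f817f80807e827d827f8080817e8280837f7c81810809
 z (n 0 z (n 0 z z))))))))))))))))) (n 715 (n 0 z (n 0 z (n 3278363 z (n 0 z z)))) (n 714 (n 0 z
 (n 6566403 z (n 0 z (n 0 z (n 0 z (n 0 z (n 0 z (n 0 z (n 0 z (n 0 z (n 0 z (n 0 z (n 0 z
 z))))))))))))) (n 3 (n 0 z (n 6566403 z (n 0 z (n 0 z (n 0 z (n 0 z (n 0 z (n 0 z (n 0 z (n 0 z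
 (n 0 z z))))))))))) (n 1 (n 6566403 z (n 0 z (n 0 z (n 0 z z)))) (n 0 (n 0 z (n 2164315 z (n 0
 z (n 0 z (n 0 z (n 0 z z)))))) z)))))) (n 715 z (n 0 (n 0 z (n 0 z (n 1 (n 3278363 z (n 3278363
 z (n 3278363 z (n 3278363 z (n 3278363 z (n 3278363 z z)))))) (n 0 z z)))) (n 0 z z)))) (n
 0x16b8e876cb58ae38c368c6146e3a1c6dda234ab0d2 (n 0 (n 177 (n 0 z (n 0 z (n 0 z (n 0 z (n 3282443
 z z))))) (n 255 (n 0 z (n 6496595 z z)) (n 129 (n 2 z (n 0 z (n 10 z (n 6496595 z (n 0 z z)))))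
 (n 27 (n 0 z (n 18 z (n 6496595 z z))) (n 1 (n 26 z (n 34 z (n 42 z (n 0 z (n 0 z (n 2164299 z
 (n 0 z z))))))) (n 0 (n 0 z (n 50 z (n 0 z (n 0 z (n 0 z (n
 0x356409608298e489d6dc5a08198555e49dcd95b19933a276289a27d692075e5a432d6e98e17ad75b0041 z (n 58
 z (n 0 z (n 0 z (n 0 z (n 6619675 z (n
 0xb64281e82082186176182182081f7e07e085f8218208607e082181f8208208208207a18207df7e10041 z
 z)))))))))))) z)))))) (n 255 (n 0 (n 0 z (n 7 (n 0 z (n 0 z (n 0 z (n 0 z (n 0 z (n 0 z (n 0 z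
 (n 6627443 z (n 0 z (n 0 z (n 0 z (n 0 z (n 0 z (n 0 z z)))))))))))))) (n 255 (n 0 z (n 0 z (n
 0 z (n 0 z z)))) (n 255 (n 0 z (n 0 z (n 0 z (n 0 z z)))) (n 255 (n 6627443 z (n 0 z (n 0 z (n
 0 z z)))) (n 253 (n 0 z (n 0 z (n 2 (n 0 z z) (n 0 z (n 0 z (n 0 z (n 0 z (n 0 z z)))))))) (n
 253 (n 0 z (n 0 z (n 0 z (n 2 z (n 0 z (n 0 z (n 0 z (n 0 z z)))))))) z))))))) (n 0 (n 27 (n 0
 z (n 0 z (n 0 z (n 0 z (n 0 z (n 0 z (n 0 z (n 0 z (n 0 z (n 0 z z)))))))))) (n 255 (n 0 z (n 0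
 z (n 0 z (n 0 z (n 0 z z))))) (n 255 (n 0 z (n 2 (n 0 z (n 1 z (n 1 z z))) (n 0 z (n 0 z (n 0 z
 z))))) (n 255 (n 0 z (n 0 z (n 0 z (n 0 z (n 0 z z))))) (n 257 (n 0 z (n 0 z (n 0 z (n 0 z (n 0
 z z))))) (n 257 (n 0 z (n 0 z (n 0 z (n 0 z (n 0 z z))))) z)))))) (n 0 (n 51 (n 0 z (n 0 z (n 0
 z (n 0 z (n 0 z (n 0 z (n 0 z z))))))) (n 51 (n 0 z (n 2 (n 0 z (n 1 z (n 1 z z))) (n 0 z (n 0
 z (n 0 z (n 0 z (n 0 z z))))))) (n 51 (n 0 z (n 0 z (n 0 z (n 0 z (n 0 z (n 0 z (n 0 z z)))))))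
 (n 53 (n 0 z (n 0 z (n 0 z (n 0 z (n 0 z (n 0 z (n 0 z (n 0 z z)))))))) (n 53 (n 0 z (n 0 z (n
 0 z (n 0 z (n 0 z (n 0 z (n 0 z (n 0 z z)))))))) z))))) (n 0 (n 0 z (n 0 z (n 253 (n 0 z (n 0 z
 (n 0 z (n 0 z (n 0 z (n 0 z (n 0 z (n 0 z (n 0 z (n 0 z (n 2 (n 0 z z) (n 0 z z)))))))))))) (n
 253 (n 0 z (n 0 z (n 0 z (n 0 z (n 0 z (n 0 z (n 0 z (n 0 z (n 0 z (n 0 z (n 0 z (n 0 z
 z)))))))))))) z)))) (n 0 (n 0 z (n 25 (n 0 z (n 0 z (n 0 z (n 0 z (n 0 z (n 0 z (n 0 z (n 0 z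
 (n 0 z (n 0 z z)))))))))) (n 25 (n 0 z (n 0 z (n 0 z (n 0 z (n 2 z (n 0 z (n 0 z (n 0 z (n 0 z
 (n 0 z z)))))))))) z))) (n 0 (n 1 (n 0 z (n 0 z (n 0 z (n 0 z (n 0 z (n 0 z z)))))) (n 1 (n 0 z
 (n 0 z (n 0 z (n 0 z (n 0 z (n 0 z z)))))) z)) (n 0 (n 0 z z) (n 0 z z)))))))) (n 0 (n 0 z (n 1
 (n 6496595 z (n 6496595 z (n 6496595 z (n 6496595 z (n 6496595 z (n 6496595 z z)))))) z)) (n 0
 z z)))) (n 0x1491dc248e20a2732123794900 (n 0 (n 177 (n 0 z (n 6496339 z (n 2 z z))) (n 39 (n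
 6624011 z (n 0 z (n 0 z (n 0 z z)))) (n 129 (n 0 z (n 6496339 z (n 0 z (n 0 z z)))) (n 27 (n
 6496339 z (n 10 z z)) (n 127 (n 18 z (n 0 z (n 6636043 z (n 0 z (n 0 z (n 26 z (n 0 z z)))))))
 (n 0 (n 34 z (n 0 z (n 0 z (n 6636043 z (n 0 z (n 0 z (n 0 z z))))))) z)))))) (n 27 (n 0 (n 639
 (n 0 z (n 0 z (n 0 z (n 0 z (n 0 z z))))) (n 357 (n 0 z (n 0 z (n 0 z (n 0 z (n 0 z z))))) (n
 357 (n 0 z (n 0 z (n 0 z (n 0 z (n 0 z z))))) (n 353 (n 0 z (n 0 z (n 0 z (n 0 z (n 0 z (n 0 z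
 (n 0 z (n 0 z (n 0 z (n 0 z (n 0 z (n 0 z z)))))))))))) z)))) (n 0 (n 3 (n 0 z (n 0 z (n 0 z (n
 0 z (n 0 z (n 0 z (n 0 z (n 0 z (n 0 z (n 0 z z)))))))))) (n 3 (n 0 z (n 0 z (n 0 z (n 0 z (n 0
 z (n 0 z (n 0 z (n 0 z (n 0 z (n 0 z z)))))))))) (n 53 (n 0 z (n 0 z (n 0 z (n 0 z (n 0 z (n 0
 z z)))))) z))) (n 0 (n 0 z (n 253 (n 0 z (n 0 z (n 0 z (n 2 z (n 0 z (n 0 z (n 0 z z))))))) z))
 (n 0 (n 1 (n 0 z (n 0 z (n 0 z (n 0 z (n 0 z (n 0 z (n 0 z z))))))) z) (n 0 z z))))) (n 0 (n 1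
 (n 6496339 z (n 6496339 z (n 6496339 z (n 6496339 z (n 6496339 z (n 6496339 z z)))))) (n 1 (n
 1420 z (n 1420 z (n 6624011 z (n 316 z (n 1420 z (n 1420 z z)))))) z)) (n 0 z z)))) (n
 0x96cb43364b6029bcc89166688738c812d300 (n 0 (n 519 (n 0 z (n 0 z (n 3282443 z (n 2 z (n 0 z (n
 10 z z)))))) (n 435 (n 0 z (n 0 z (n 3278363 z (n 0 z (n 0 z (n 0 z (n 18 z z))))))) (n 517 (n
 3212843 z (n 0 z (n 0 z (n 26 z z)))) (n 3 (n 0 z (n 0 z (n 0 z (n 6636323 z (n 0 z (n 34 z (n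
 0 z (n 0 z (n 0 z (n 0 z z)))))))))) (n 1 (n
 0x53653828082848b7889857b888584777c86787a89808a86806a85717a8d7f837482797782828881867b8a856c867d8b7a8a7f79830049
 z (n 0 z (n 6636323 z z))) (n 0 (n 0 z (n 42 z (n
 0x536208c816b739a7a6e7e83856b988788887372868b8d877f879770697f8297717e6193897d8d70937588927d678d945baead4a850049
 z (n 6636323 z (n 0 z (n 0 z (n
 0x736317e807780957b8f857c8a6f8790867575668c777c927c847a7d84868b7a6e888c837383888b88757d5e64897396699079907f0049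
 z (n 50 z (n 0 z (n
 0x636108f816670a1796a7e8387679e888a89706f878d91887e899d6c647f839d6d7e5a988b7c906b97728a967d61909952b9b73d870049
 z (n 0 z (n 0 z (n 6636323 z z))))))))))))) z)))))) (n 1 (n 0 (n 0 z (n 523 (n 0 z (n 0 z (n 0
 z (n 0 z z)))) (n 1035 (n 0 z (n 0 z z)) (n 491 (n 0 z (n 0 z (n 0 z (n 0 z (n 0 z (n 0 z (n 0
 z (n 0 z (n 0 z z))))))))) (n 1037 (n 0 z (n 0 z (n 0 z (n 0 z (n 0 z (n 0 z z)))))) (n 1037 (n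
 0 z (n 0 z (n 0 z (n 0 z (n 0 z (n 2 z z)))))) z)))))) (n 0 (n 1111 (n 0 z (n 0 z z)) (n 1035
 (n 0 z (n 0 z (n 0 z (n 0 z (n 0 z (n 0 z z)))))) (n 267 (n 0 z (n 2 (n 1 z (n 2 (n 0 z (n 0 (n
 4132 z z) (n 0 (n 4132 z z) (n 0 z (n 0 z (n 0 (n 4132 z (n 4132 z z)) z)))))) z)) (n 0 z z)))
 (n 1033 (n 0 z (n 0 z (n 0 z (n 0 z (n 0 z (n 0 z (n 0 z (n 0 z (n 0 z (n 0 z z)))))))))) (n
 1033 (n 0 z (n 0 z (n 0 z (n 0 z (n 0 z (n 0 z (n 0 z (n 0 z (n 0 z (n 0 z z)))))))))) z)))))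
 (n 0 (n 879 (n 0 z (n 0 z (n 0 z z))) (n 81 (n 0 z (n 0 z (n 0 z (n 0 z (n 0 z z))))) (n 877 (n
 0 z (n 0 z (n 0 z (n 0 z (n 0 z (n 0 z z)))))) (n 877 (n 0 z (n 0 z (n 0 z (n 0 z (n 0 z (n 0 z
 z)))))) z)))) (n 0 (n 387 (n 0 z (n 0 z (n 0 z z))) (n 1033 (n 0 z (n 0 z (n 0 z (n 0 z (n 0 z
 (n 0 z (n 0 z (n 0 z (n 0 z (n 0 z (n 0 z (n 0 z z)))))))))))) (n 1033 (n 0 z (n 0 z (n 0 z (n
 0 z (n 0 z (n 0 z (n 0 z (n 0 z (n 0 z (n 0 z (n 0 z (n 2 z z)))))))))))) z))) (n 0 (n 49 (n 0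
 z (n 0 z (n 0 z (n 0 z (n 0 z (n 0 z (n 0 z (n 0 z (n 0 z (n 0 z (n 0 z (n 0 z z)))))))))))) (n
 49 (n 0 z (n 0 z (n 0 z (n 0 z (n 0 z (n 0 z (n 0 z (n 0 z (n 0 z (n 0 z (n 0 z (n 0 z
 z)))))))))))) z)) (n 0 (n 0 z z) (n 0 z z))))))) (n 0 (n 1 (n 4156 z (n 4156 z (n 4156 z (n
 4156 z (n 4156 z (n 4156 z z)))))) (n 0 z (n 1 (n 6636323 z (n 6636323 z (n 6636323 z (n
 6636323 z (n 6636323 z (n 6636323 z z)))))) z))) (n 0 z z)))) (n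
 0x6aa3b44654ac329ba814a3a1c55c611 (n 0 (n 405 (n 6623283 z z) (n 33 (n 0 z (n 0 z (n 6623283 z
 (n 2 z z)))) (n 131 (n 0 z (n 10 z (n 0 z (n 18 z (n 3212843 z (n 0 z z)))))) (n 3 (n 2164283 z
 (n 26 z (n 0 z z))) (n 1 (n 0 z (n
 0x2cb10005862080780e80a7fd7fc7ef8128147fd80780181c8067fc8057fc7ec7ff7f28097fa7f880e7fb8008047e78167fa8107fc7f37de8197f67f48028007f780a7fe7fc80980180f7f87f77fc8097f70091
 z (n 34 z (n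
 0x39561080b8187ea85f8158118047cc7e48008347a781572b86c8d37828367027247b27bc8717c17f38997657d388382a79682e8cf7f780f73c7398da8bf78f7e680182879c85a86f7b97648737d70051
 z (n 0 z (n 0 z (n 0 z (n 0 z (n 0 z (n 0 z (n 2164299 z z))))))))))) (n 0 (n 0 z (n 0 z (n
 6623283 z (n 42 z z)))) z)))))) (n 405 (n 0 (n 19 (n 0 z (n 0 z (n 0 z (n 0 z (n 0 z (n 0 z (n
 0 z (n 0 z z)))))))) (n 19 (n 0 z (n 0 z (n 0 z (n 0 z (n 0 z (n 0 z (n 0 z (n 0 z z)))))))) (n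
 7 (n 0 z (n 0 z (n 0 z (n 0 z z)))) (n 3 (n 0 z (n 0 z (n 0 z (n 0 z (n 0 z z))))) (n 1 (n 0 z
 (n 0 z (n 0 z (n 0 z (n 0 z (n 0 z (n 0 z (n 0 z (n 0 z (n 0 z (n 0 z z))))))))))) z))))) (n 0
 (n 0 z (n 247 (n 0 z (n 0 z (n 0 z z))) (n 255 (n 0 z (n 0 z (n 0 z (n 0 z (n 0 z (n 0 z (n 0 z
 z))))))) (n 253 (n 0 z (n 0 z (n 0 z (n 0 z (n 0 z (n 0 z (n 0 z (n 0 z (n 0 z (n 0 z
 z)))))))))) z)))) (n 0 (n 299 (n 0 z (n 0 z (n 0 z (n 0 z (n 0 z (n 0 z (n 0 z z))))))) (n 291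
 (n 0 z (n 0 z z)) (n 289 (n 0 z (n 0 z (n 0 z (n 0 z (n 0 z (n 2 z z)))))) z))) (n 0 (n 255 (n
 0 z (n 0 z (n 0 z (n 0 z (n 0 z (n 0 z z)))))) (n 253 (n 0 z (n 0 z (n 0 z z))) z)) (n 0 (n 265
 (n 0 z (n 0 z (n 0 z (n 0 z (n 0 z (n 0 z (n 0 z z))))))) z) (n 0 z z)))))) (n 0 (n 1 (n
 6623283 z (n 6623283 z (n 6623283 z (n 6623283 z (n 6623283 z (n 6623283 z z)))))) z) (n 0 z
 z)))) (n 0x2465511cb2879d9418a3ad87636c245bd84a9bc2c4de740 (n 0 (n 321 (n 0 z (n 2 z (n 6426707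
 z z))) (n 315 (n 0 z (n 0 z (n 0 z (n 6426707 z z)))) (n 9 (n
 0x1eca8ca8607804c97746b84ae87697f9493527f648d927f5f8da35c7f6abcc37d51438d8075689b86987c787a825fa863877b94787d679d0809
 z (n 10 z (n 18 z (n 6426707 z z)))) (n 3 (n 0 z (n 26 z (n 34 z (n 0 z (n 0 z (n 0 z (n 0 z (n
 6631691 z z)))))))) (n 1 (n 0 z (n 0 z (n 6563131 z z))) (n 0 (n 42 z (n 0 z (n 50 z (n 58 z (n
 66 z (n 0 z (n 6631691 z z))))))) z)))))) (n 321 (n 0 (n 183 (n 0 z (n 0 z (n 0 z (n 0 z (n 0 z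
 (n 0 z (n 0 z z))))))) (n 183 (n 0 z (n 0 z (n 0 z (n 0 z (n 0 z (n 0 z (n 0 z z))))))) (n 627
 (n 0 z (n 0 z (n 0 z (n 0 z (n 0 z (n 0 z (n 0 z z))))))) (n 627 (n 0 z (n 0 z (n 0 z (n 0 z (n
 0 z (n 0 z (n 0 z z))))))) (n 625 (n 0 z (n 0 z (n 0 z (n 0 z (n 0 z (n 2 (n 0 z (n 0 z (n 0 z
 z))) (n 0 z (n 0 z (n 0 z (n 0 z z)))))))))) (n 625 (n 0 z (n 0 z (n 0 z (n 0 z (n 0 z (n 0 z
 (n 0 z (n 0 z (n 0 z (n 0 z z)))))))))) (n 625 (n 0 z (n 0 z (n 0 z (n 2 (n 0 z z) (n 0 z (n 0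
 z (n 0 z (n 0 z (n 0 z (n 0 z z)))))))))) (n 625 (n 0 z (n 0 z (n 0 z (n 0 z (n 2 z (n 0 z (n 0
 z (n 0 z (n 0 z (n 0 z z)))))))))) z)))))))) (n 0 (n 0 z (n 33 (n 0 z (n 0 z (n 0 z (n 0 z
 z)))) (n 33 (n 0 z (n 0 z (n 0 z (n 0 z z)))) (n 17 (n 0 z (n 0 z (n 0 z (n 0 z (n 2 (n 0 z (n
 0 z (n 0 z z))) (n 0 z (n 0 z (n 0 z (n 0 z (n 0 z z)))))))))) (n 17 (n 0 z (n 0 z (n 0 z (n 0
 z (n 0 z (n 0 z (n 0 z (n 0 z (n 0 z (n 0 z z)))))))))) (n 17 (n 0 z (n 0 z (n 0 z (n 0 z (n 0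
 z (n 0 z (n 0 z (n 0 z (n 0 z (n 2 (n 0 z z) z)))))))))) (n 17 (n 0 z (n 0 z (n 0 z (n 0 z (n 0
 z (n 2 z (n 0 z (n 0 z (n 0 z (n 0 z z)))))))))) z))))))) (n 0 (n 33 (n 0 z (n 0 z (n 2 (n 0 z
 (n 1 z (n 1 z (n 1 z (n 1 z z))))) (n 0 z (n 0 z z))))) (n 33 (n 0 z (n 0 z (n 0 z (n 0 z (n 0
 z z))))) (n 17 (n 0 z (n 0 z (n 0 z (n 0 z z)))) (n 17 (n 0 z (n 0 z (n 0 z (n 0 z z)))) (n 17
 (n 0 z (n 0 z (n 0 z (n 0 z z)))) (n 17 (n 0 z (n 0 z (n 0 z (n 0 z z)))) z)))))) (n 0 (n 0 z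
 (n 97 (n 0 z (n 0 z (n 0 z (n 0 z z)))) (n 97 (n 0 z (n 0 z (n 0 z (n 0 z z)))) (n 97 (n 0 z (n
 0 z (n 0 z (n 0 z z)))) (n 97 (n 0 z (n 0 z (n 0 z (n 0 z z)))) z))))) (n 0 (n 629 (n 0 z (n 0
 z (n 0 z (n 0 z (n 2 (n 0 z (n 0 z (n 0 z z))) (n 0 z (n 0 z z))))))) (n 629 (n 0 z (n 0 z (n 0
 z (n 0 z (n 0 z (n 0 z (n 0 z z))))))) (n 629 (n 0 z (n 0 z (n 0 z (n 0 z (n 0 z (n 0 z (n 2 (n
 0 z z) z))))))) (n 629 (n 2 z (n 0 z (n 0 z (n 0 z (n 0 z (n 0 z (n 0 z z))))))) z)))) (n 0 (n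
 0 z (n 0 z (n 0 z z))) (n 0 (n 0 z (n 0 z z)) (n 0 (n 0 z z) (n 0 z z))))))))) (n 0 (n 0 z (n 1
 (n 2524 z (n 2524 z (n 5513315 z (n 2524 z (n 6631691 z (n 2524 z z)))))) (n 1 (n 6426707 z (n
 6426707 z (n 6426707 z (n 6426707 z (n 6426707 z (n 6426707 z z)))))) z))) (n 0 z z)))) (n
 0x216950634eb21a6f462550c0e27709133026b6ac32cc619 (n 0 (n 159 (n 0 z (n 3282443 z z)) (n 33 (n
 0 z (n 2 z (n 3278363 z (n 0 z (n 10 z z))))) (n 129 (n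
 0x5b6508008008008007fa80280081581e7f38007ff80180080e8007f87fe8007ff7f28007ec7ef80d7fe7ff7f07fd80d80c80d8108147fc80a8057ea7f18088147ef7eb7fe7fb7ff7f97ff80a7ef0051
 z (n 0 z (n 18 z (n 26 z (n 34 z (n 3212843 z (n
 0x5b6438008008008007fa80280081581e7f38007ff80180080e8007f87fe8007ff7f28007ec7ef80d7fe7ff7f07fd80d80c80d8108147fc80a8057ea7f18088147ef7eb7fe7fb7ff7f97ff80a7ef0051
 z (n
 0x5b6438008008008007fa80280081581e7f38007ff80180080e8007f87fe8007ff7f28007ec7ef80d7fe7ff7f07fd80d80c80d8108147fc80a8057ea7f18088147ef7eb7fe7fb7ff7f97ff80a7ef0051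
 z (n
 0xa1951900c060b2c848206038008107fe7ff7eb8087e086986d8357dd81f7e780081c8007d87f78127f97f28357de76b7da8037097a98757d57df7de8dd8727138278928cb8836c28587ad7e97957ec7b070b81591f7f61011
 z (n 42 z z)))))))))) (n 3 (n 50 z (n 0 z (n 6636323 z z))) (n 1 (n 0 z (n 6636323 z z)) (n 0
 (n 58 z (n 0 z (n 0 z (n 6636323 z (n 66 z (n 0 z (n 0 z (n 0 z (n 0 z z))))))))) z)))))) (n
 159 (n 0 (n 0 z (n 423 (n 0 z (n 0 z (n 0 z (n 0 z (n 0 z (n 0 z (n 0 z (n 0 z (n 0 z (n 0 z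
 z)))))))))) (n 423 (n 0 z (n 0 z (n 0 z (n 0 z (n 0 z (n 0 z (n 0 z (n 0 z (n 0 z (n 2 (n 0 z
 (n 0 z (n 1 z (n 1 z (n 1 z z))))) z)))))))))) (n 423 (n 0 z (n 0 z (n 0 z (n 0 z (n 0 z (n 2
 (n 0 z (n 1 z (n 1 z (n 1 z z)))) (n 0 z (n 0 z (n 0 z (n 0 z z)))))))))) (n 423 (n 0 z (n 0 z
 (n 0 z (n 2 (n 1 z (n 1 z (n 1 z z))) (n 0 z (n 0 z (n 0 z (n 0 z (n 0 z (n 0 z z)))))))))) (n
 425 (n 0 z (n 0 z (n 0 z (n 0 z (n 0 z (n 0 z z)))))) (n 49 (n 0 z (n 0 z (n 0 z (n 0 z (n 0 z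
 (n 0 z (n 0 z z))))))) (n 49 (n 0 z (n 0 z (n 0 z (n 0 z (n 0 z (n 0 z (n 0 z z)))))))
 z)))))))) (n 0 (n 103 (n 0 z (n 0 z (n 0 z (n 0 z z)))) (n 103 (n 0 z (n 0 z (n 0 z (n 0 z
 z)))) (n 103 (n 0 z (n 0 z (n 0 z (n 0 z z)))) (n 103 (n 0 z (n 0 z (n 0 z (n 0 z z)))) (n 487
 (n 0 z (n 0 z (n 0 z (n 0 z z)))) (n 49 (n 0 z (n 0 z (n 0 z (n 0 z z)))) (n 49 (n 0 z (n 0 z
 (n 0 z (n 0 z z)))) z))))))) (n 0 (n 0 z (n 0 z (n 0 z (n 645 (n 0 z (n 0 z (n 0 z (n 0 z (n 0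
 z (n 0 z (n 0 z z))))))) (n 241 (n 0 z (n 0 z (n 0 z (n 0 z (n 0 z (n 0 z (n 0 z z))))))) (n
 241 (n 0 z (n 0 z (n 0 z (n 0 z (n 0 z (n 0 z (n 0 z z))))))) z)))))) (n 0 (n 0 z (n 0 z (n 267
 (n 0 z (n 2 (n 1 z (n 1 z z)) (n 0 z (n 0 z z)))) (n 257 (n 0 z (n 0 z (n 0 z (n 0 z z)))) (n
 257 (n 0 z (n 0 z (n 0 z (n 0 z z)))) z))))) (n 0 (n 0 z (n 1077 (n 2 (n 1 z (n 1 z z)) (n 0 z
 (n 0 z (n 0 z (n 0 z (n 0 z (n 0 z z))))))) (n 253 (n 2 (n 0 z z) (n 0 z (n 0 z (n 0 z (n 0 z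
 (n 0 z z)))))) (n 253 (n 0 z (n 0 z (n 0 z (n 0 z (n 0 z (n 0 z z)))))) z)))) (n 0 (n 273 (n 0
 z (n 0 z (n 0 z z))) (n 257 (n 0 z (n 0 z (n 0 z (n 2 (n 0 z z) (n 0 z (n 0 z (n 0 z z)))))))
 (n 257 (n 0 z (n 0 z (n 0 z (n 0 z (n 0 z (n 0 z (n 0 z z))))))) z))) (n 0 (n 1 (n 0 z (n 0 z
 (n 0 z (n 0 z (n 0 z (n 0 z (n 0 z z))))))) (n 1 (n 0 z (n 0 z (n 0 z (n 0 z (n 0 z (n 0 z (n 0
 z z))))))) z)) (n 0 (n 0 z z) (n 0 z z))))))))) (n 0 (n 0 z (n 1 (n 3282443 z (n 3282443 z (n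
 3282443 z (n 3282443 z (n 3282443 z (n 3282443 z z)))))) z)) (n 0 z z)))) z)))))))))),
 by decide +kernel⟩
theorem i10316 : ∃ t, chkR KT RW t 10316 10326 = true := ⟨(n 0xcb2d8214e422cae921450c12a (n 0 (n
 183 (n 0 z (n 0 z (n 0 z (n 0 z (n 0 z (n 0 z (n 0 z (n 6627395 z z)))))))) (n 33 (n 0 z (n
 6624011 z z)) (n 171 (n 2 z (n 10 z (n 6627395 z z))) (n 3 (n 0 z (n 0 z (n 0 z (n 18 z (n 0 z
 (n 2164283 z z)))))) (n 1 (n 0 z (n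
 0x336508057fa7fe80c80a8037f67e481780e7f68008057fb7f87fc7f38038078218007f081f7f87ff7fa8048037fa7fd80180c81080b83281e8007ec7f181e7f08077da7dd7f17ed81e8127cb80f0051
 z (n 2164299 z (n 0 z (n 26 z (n 0 z z)))))) (n 0 (n 34 z (n
 0x336108047fb7fc80480180181080b7f08017f88078017fd7f180480f7fb7f77f08017fa7f680c80180b8007fe8058057f98127ff7f18007ef8087fc80e7ff7f68088028047fb80b8048027fe8000051
 z (n 0 z (n 6627395 z (n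
 0x4b6438027f77f98057e080285b8637a68067fc80080b7f87f582b81f7cf7ec77e81b7a87de8418238228057d67ef82a8068507dd7d88127db8117d78078177b282e8128208097fd84c8277d27fd0051
 z (n 0 z (n 0 z (n 0 z (n 0 z (n 0 z z)))))))))) z)))))) (n 33 (n 0 (n 0 z (n 1077 (n 0 z (n 0
 z (n 0 z (n 0 z (n 0 z (n 0 z (n 0 z (n 0 z (n 0 z z))))))))) (n 339 (n 0 z (n 0 z z)) (n 341
 (n 0 z (n 0 z (n 0 z (n 0 z (n 0 z (n 0 z z)))))) z)))) (n 0 (n 1071 (n 0 z (n 0 z (n 0 z (n 0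
 z z)))) (n 783 (n 0 z (n 0 z (n 7750163 z (n 0 z (n 0 z (n 0 z z)))))) (n 833 (n 0 z (n 0 z (n
 0 z (n 0 z (n 0 z (n 2 z (n 0 z (n 0 z (n 0 z (n 0 z (n 0 z (n 0 z z)))))))))))) z))) (n 0 (n 3
 (n 0 z (n 0 z z)) (n 5 (n 0 z (n 0 z (n 0 z (n 0 z (n 0 z (n 0 z z)))))) z)) (n 0 (n 53 (n 0 z
 (n 0 z (n 0 z (n 0 z (n 0 z (n 0 z (n 0 z (n 0 z (n 0 z (n 0 z (n 0 z (n 0 z z)))))))))))) z)
 (n 0 z z))))) (n 0 (n 0 z (n 1 (n 6624011 z (n 6624011 z (n 6624011 z (n 6624011 z (n 6624011 z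
 (n 6624011 z z)))))) z)) (n 0 z z)))) (n 0x4b1bb8576462c6e6a136dcb032e58c0 (n 0 (n 177 (n 2 z
 (n 6561843 z (n 0 z (n 0 z z)))) (n 33 (n 0 z (n 10 z (n 0 z (n 3278363 z (n 0 z (n 0 z z))))))
 (n 129 (n 0 z (n 0 z (n 6561843 z (n 0 z z)))) (n 3 (n 0 z (n 0 z (n 0 z (n 0 z (n 0 z (n
 2164283 z (n 18 z z))))))) (n 1 (n 0 z (n 26 z (n 0 z (n 0 z (n 6561843 z (n 34 z z)))))) (n 0
 (n 42 z (n 6619675 z z)) z)))))) (n 0 (n 0 (n 843 (n 0 z (n 0 z (n 0 z (n 0 z (n 0 z (n 0 z (n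
 0 z z))))))) (n 295 (n 0 z (n 0 z (n 0 z (n 0 z (n 0 z (n 0 z z)))))) (n 303 (n 0 z (n 0 z (n 0
 z (n 0 z (n 0 z z))))) (n 303 (n 0 z (n 0 z (n 0 z (n 0 z (n 2 (n 1 z z) z))))) (n 353 (n 0 z
 (n 0 z z)) z))))) (n 0 (n 59 (n 0 z (n 0 z (n 0 z z))) (n 63 (n 0 z (n 0 z (n 0 z (n 0 z (n 0 z
 (n 0 z (n 0 z (n 0 z (n 0 z (n 0 z z)))))))))) (n 63 (n 0 z (n 0 z (n 0 z (n 0 z (n 0 z (n 0 z
 (n 0 z (n 0 z (n 0 z (n 0 z z)))))))))) (n 61 (n 0 z (n 0 z (n 0 z (n 0 z (n 0 z (n 0 z (n 0 z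
 z))))))) z)))) (n 0 (n 51 (n 0 z (n 0 z (n 0 z (n 0 z (n 0 z (n 0 z z)))))) (n 51 (n 0 z (n 0 z
 (n 0 z (n 0 z (n 7750483 z (n 0 z z)))))) (n 49 (n 0 z (n 0 z (n 0 z z))) z))) (n 0 (n 0 z (n 1
 (n 0 z (n 0 z (n 0 z (n 0 z (n 0 z (n 0 z (n 0 z z))))))) z)) (n 0 (n 1 (n 0 z (n 0 z (n 0 z
 z))) z) (n 0 z z)))))) (n 0 (n 1 (n 1420 z (n 1420 z (n 1036 z (n 6423883 z (n 1420 z (n 1420 z
 z)))))) (n 1 (n 6619675 z (n 6619675 z (n 6619675 z (n 6619675 z (n 6619675 z (n 6619675 z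
 z)))))) z)) (n 0 z z)))) (n 0x5891a1aaa50942ad0a1518aa288448c (n 0 (n 189 (n 0 z (n 0 z (n 0 z
 (n 3282443 z (n 0 z (n 0 z (n 0 z (n 0 z z)))))))) (n 39 (n 0 z (n 0 z (n 0 z (n 3278363 z (n 0
 z (n 0 z (n 0 z (n 0 z z)))))))) (n 173 (n 0 z (n 0 z (n 0 z (n 3212843 z (n 0 z (n 0 z (n 0 z
 (n 0 z z)))))))) (n 27 (n 0 z (n 0 z (n 0 z (n 2164283 z (n 0 z (n 0 z (n 0 z (n 0 z z))))))))
 (n 127 (n 2 z (n
 0xa31004d88084c404162091d76489d75889e8a17dd82082089a85e82081e85d7a081e8647a185e82481f7607608208a00101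
 z (n 10 z (n 18 z (n 0 z (n 0 z (n 2164299 z (n 0 z z)))))))) (n 0 (n 26 z (n
 0xa31884d8c484c624163191d76489d75889e8a17dd82082089a85e82081e85d7a081e8647a185e82481f7607608208a00101
 z (n 34 z (n 42 z (n 0 z (n 0 z (n 2164315 z (n 0 z z)))))))) z)))))) (n 189 (n 0 (n 0 z (n 0 z
 (n 145 (n 0 z (n 0 z (n 0 z (n 0 z (n 0 z (n 0 z (n 0 z (n 0 z (n 0 z (n 0 z (n 0 z
 z))))))))))) (n 145 (n 0 z (n 0 z (n 0 z (n 0 z (n 0 z (n 0 z (n 0 z (n 0 z (n 0 z (n 0 z (n 0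
 z z))))))))))) (n 145 (n 0 z (n 0 z (n 0 z (n 0 z (n 0 z (n 0 z (n 0 z (n 0 z (n 0 z (n 0 z (n
 0 z z))))))))))) z))))) (n 0 (n 0 z (n 53 (n 0 z (n 0 z (n 0 z (n 0 z (n 0 z (n 0 z (n 0 z (n 0
 z (n 0 z (n 0 z z)))))))))) (n 53 (n 0 z (n 0 z (n 0 z (n 0 z (n 0 z (n 0 z (n 0 z (n 0 z (n 0
 z (n 0 z z)))))))))) (n 53 (n 0 z (n 0 z (n 0 z (n 0 z (n 0 z (n 0 z (n 0 z (n 0 z (n 0 z (n 0
 z z)))))))))) z)))) (n 0 (n 389 (n 0 z (n 0 z (n 0 z (n 0 z (n 0 z (n 0 z (n 0 z (n 0 z (n 0 z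
 (n 0 z (n 0 z z))))))))))) (n 389 (n 0 z (n 0 z (n 0 z (n 0 z (n 0 z (n 0 z (n 0 z (n 0 z (n 0
 z (n 0 z (n 0 z z))))))))))) (n 389 (n 0 z (n 0 z (n 0 z (n 0 z (n 0 z (n 0 z (n 0 z (n 0 z (n
 0 z (n 0 z (n 0 z z))))))))))) z))) (n 0 (n 0 z (n 0 z z)) (n 0 (n 0 z z) (n 0 z z)))))) (n 0
 (n 0 z (n 0 z (n 0 z (n 1 (n 3282443 z (n 3282443 z (n 3282443 z (n 3282443 z (n 3282443 z (n
 3282443 z z)))))) (n 0 z (n 0 z (n 0 z (n 0 z z)))))))) (n 0 z z)))) (n 0x267863ae621 (n 0 (n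
 593 (n 3282443 z (n 0 z (n 0 z (n 0 z (n 0 z z))))) (n 592 (n 0 z (n 0 z (n 3278363 z (n 0 z (n
 2 z (n 0 z (n 10 z (n 0 z (n 0 z (n 0 z z)))))))))) (n 11 (n 3212843 z (n 0 z z)) (n 3 (n
 2164283 z (n 0 z (n 0 z (n 0 z z)))) (n 1 (n 2164299 z (n 0 z (n 0 z (n 0 z (n 0 z (n 0 z (n 0
 z (n 0 z (n 0 z z))))))))) (n 0 (n 2164315 z (n 0 z (n 0 z (n 0 z (n 0 z (n 0 z z)))))) z))))))
 (n 11 (n 0 (n 0 z z) (n 0 z z)) (n 0 (n 1 (n 3212843 z (n 3212843 z (n 3212843 z (n 3212843 z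
 (n 3212843 z (n 3212843 z z)))))) (n 0 z z)) (n 0 z z)))) (n 0xb12343554a12855 (n 0 (n 177 (n 0
 z (n 0 z (n 3282443 z (n 0 z z)))) (n 263 (n 3278363 z (n 0 z (n 0 z z))) (n 129 (n 3212843 z
 (n 0 z (n 0 z (n 0 z (n 0 z (n 0 z (n 0 z (n 0 z (n 0 z (n 0 z (n
 0x12ca8ca86037e84767b7a7382836f89778084808392897985996a9285907b847e627c8e7d73719872837e9679728d938981887472a391730809
 z (n 0 z (n
 0xcca2c608077b867f76857e8d8a5d85887e857f887780867e9d8090858896768784657c95765c8e6a869498644f77b1758d687f68abb56f0809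
 z (n 0 z (n 0 z (n 0 z z)))))))))))))))) (n 27 (n 0 z (n 0 z (n 0 z (n 6632491 z z)))) (n 1 (n
 0 z (n 0 z (n 2164299 z (n 0 z (n 0 z (n 0 z (n 0 z (n 0 z (n 0 z (n 0 z (n 0 z (n 0 z (n 0 z
 (n 0 z (n 0 z (n 0 z (n 0 z z))))))))))))))))) (n 0 (n 2 z (n 6632491 z (n 10 z (n 18 z (n 0 z
 (n 0 z (n 0 z (n 0 z z)))))))) z)))))) (n 263 (n 0 (n 0 z (n 0 z z)) (n 0 (n 0 z z) (n 0 z z)))
 (n 0 (n 1 (n 3278363 z (n 3278363 z (n 3278363 z (n 3278363 z (n 3278363 z (n 3278363 z z))))))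
 (n 0 z (n 0 z z))) (n 0 z z)))) (n 0 (n 0 (n 159 (n 0 z (n 3282443 z (n 0 z (n 0 z (n 0 z (n 0
 z z)))))) (n 33 (n 0 z (n 3278363 z (n 4326939 z (n 0 z (n 0 z (n 0 z (n 0 z z))))))) (n 9 (n 0
 z (n 0 z (n 0 z (n 3212843 z z)))) (n 3 (n 0 z (n 0 z (n 6488603 z (n 6488603 z (n 4326971 z (n
 0 z (n 0 z (n 0 z (n 0 z (n
 0x3588418c420b62181f8217a17df8608a081e8df79f8a186189f85e82082182186282082285f7a17a181d7e185e00c1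
 z z)))))))))) (n 1 (n 0 z (n 6559035 z z)) (n 0 (n 0 z (n 0 z (n 0 z (n 0 z (n 0 z (n 2164315 z
 z)))))) z)))))) (n 1 z (n 0 (n 0 z (n 1 (n 6559035 z (n 6559035 z (n 6559035 z (n 6559035 z (n
 6559035 z (n 6559035 z z)))))) z)) (n 0 z z)))) (n
 0x78c741659b8649c4318e20cb3110596ca1124f08d22c329164128b2c0 (n 0x11659 (n 593 (n 3282443 z (n 2
 z z)) (n 33 (n 0 z (n 10 z (n 3278363 z z))) (n 9 (n 0 z (n 18 z (n 26 z (n 34 z (n 3212843 z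
 (n 0 z (n
 0x11951944c0e00cca4a8260777c7e57447db9378568456cc8217758179107aa7eb69c80a8278af83c9298867327fe74d8549f97c89f880f81689a64a8404f98b77d887577e7bc82e7979cd8098ad77283e79f85c81679d1011
 z z))))))) (n 27 (n 42 z (n 0 z (n 0 z (n 0 z (n 0 z (n 0 z (n 0 z (n 0 z (n 0 z (n 0 z (n 0 z
 (n 0 z (n 0 z (n 2164283 z z)))))))))))))) (n 1 (n 2164299 z (n 50 z (n
 0x1aca6a6020773f8456e674a9e880d8cc6238df7087d69617b87f46397e280a92b8629a489e71e8006f9848aa178aa808167e48cb57a8734378bf7db87978f7c18267b7a4c7f58cf71a8c87368518407910811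
 z (n 0xca6ca60078a17a17e085f8617e282082185f7df79f8a086081f7e082086085f7df8207e27e08618a07e10801
 z (n 58 z (n
 0x2eca6ca02037187f76e5792a058728bc60086773a85199676e7ee61a7f581091085099d94a6668006ca892ac17a0b0083b80f8e65a08473449677cd90271076985f709add81c8b26fd87e7a48757e27ae0811
 z (n
 0x4ca6a642078208617e082086085f82082082186082181f7df85f82082081f81f8627df82085f7df8218600801 z
 (n
 0xad94d4c840e0015948005298007a3207777ea7da78d94181490467d8997678658ab7848266db8707da89f7f29249116757ff71f87d95383a98681986f8816c678b4f997f7fd8bd70871d8867859e28727da74b87d81587175f81908d1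
 z (n
 0x658c9841406008ca6ca60038717e387a8347257ad7739087c085e7c975e83c81e8c080f7e27987ce75471d9068008817be6d28136937f88127889377eea6c70c8027998788767ca8666807fd7e787f76a8177e18517df1011
 z (n
 0x2a90809d6300158c60022d8c008d318001941081e8b97937c87bf7a88128288db7a075f7d788b7ef8597ea8137f68347c96b395281188c77d8197947817c27e97d07be89398d6ac8126d38f28a778e8a177c7378a883e8787467e38997d50191
 z (n 66 z z))))))))))) (n 0 (n 74 z (n 2164315 z (n 0 z (n 0 z (n 0 z (n 82 z (n 0 z (n 0 z (n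
 0 z (n 0 z (n 0 z (n
 0x590d90c8061b5218237e27a18de8618627df86281e7e18218207e179f8227a086081f82281f7a37e081e8627e00841
 z (n 0 z z))))))))))))) z)))))) (n 593 (n 0 (n 1003 (n 0 z (n 0 z (n 0 z (n 0 z z)))) (n 1005
 (n 0 z (n 0 z (n 0 z (n 0 z (n 0 z (n 0 z (n 0 z (n 0 z z)))))))) (n 1005 (n 0 z (n 0 z (n 0 z
 (n 0 z (n 0 z (n 0 z (n 2 (n 0 z (n 1 z (n 1 z (n 1 z (n 1 z (n 1 z (n 1 z z))))))) (n 0 z
 z)))))))) (n 1005 (n 0 z (n 0 z (n 0 z (n 0 z (n 0 z (n 2 (n 1 z (n 1 z (n 1 z (n 1 z (n 1 z (n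
 1 z z)))))) (n 0 z (n 0 z z)))))))) (n 1001 (n 0 z (n 0 z (n 0 z (n 0 z (n 0 z (n 0 z (n 0 z (n
 0 z z)))))))) (n 85 (n 0 z (n 0 z (n 0 z (n 0 z (n 0 z (n 0 z (n 0 z (n 0 z (n 0 z (n 0 z (n 0
 z (n 0 z z)))))))))))) (n 85 (n 0 z (n 0 z (n 0 z (n 0 z (n 0 z (n 0 z (n 0 z (n 0 z (n 0 z (n
 0 z (n 0 z (n 2 (n 0 z (n 1 z (n 1 z z))) z)))))))))))) (n 85 (n 0 z (n 0 z (n 0 z (n 0 z (n 0
 z (n 0 z (n 0 z (n 0 z (n 0 z (n 2 (n 1 z (n 1 z z)) (n 0 z (n 0 z z)))))))))))) (n 73 (n 0 z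
 (n 0 z (n 0 z (n 0 z (n 0 z z))))) (n 73 (n 0 z (n 0 z (n 2 z (n 0 z (n 0 z z))))) z))))))))))
 (n 0 (n 1047 (n 0 z (n 0 z (n 0 z (n 0 z (n 0 z (n 0 z (n 0 z (n 0 z (n 0 z (n 0 z (n 0 z
 z))))))))))) (n 1047 (n 0 z (n 0 z (n 0 z (n 0 z (n 0 z (n 0 z (n 2 (n 0 z (n 1 z (n 1 z (n 2
 (n 0 z (n 0 z (n 0 z (n 0 z (n 0 (n 3213435 z z) (n 0 z z)))))) (n 2 (n 0 z (n 0 z (n 0 z (n 0
 z (n 0 (n 1188 z z) (n 0 z z)))))) (n 1 z (n 1 z z))))))) (n 0 z (n 0 z (n 0 z (n 0 z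
 z))))))))))) (n 1047 (n 0 z (n 7610467 z (n 0 z (n 0 z (n 0 z (n 0 z (n 0 z (n 0 z (n 0 z (n 0
 z (n 0 z z))))))))))) (n 295 (n 0 z (n 0 z (n 0 z (n 0 z (n 0 z (n 0 z (n 0 z (n 0 z (n 0 z (n
 0 z (n 0 z (n 0 z z)))))))))))) (n 297 (n 0 z (n 0 z (n 0 z (n 0 z (n 0 z (n 0 z (n 0 z (n 0 z
 (n 0 z (n 0 z (n 0 z (n 0 z (n 0 z (n 0 z (n 0 z (n 0 z (n 0 z (n 0 z (n 0 z (n 0 z (n 0 z (n 0
 z (n 0 z (n 0 z (n 0 z z))))))))))))))))))))))))) (n 297 (n 0 z (n 0 z (n 0 z (n 0 z (n 0 z (n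
 0 z (n 0 z (n 0 z (n 0 z (n 0 z (n 0 z (n 0 z (n 0 z (n 0 z (n 0 z (n 0 z (n 0 z (n 0 z (n 0 z
 (n 2 (n 0 z (n 1 z (n 1 z z))) (n 0 z (n 0 z (n 0 z (n 0 z (n 0 z z))))))))))))))))))))))))) (n
 297 (n 0 z (n 0 z (n 0 z (n 0 z (n 0 z (n 0 z (n 0 z (n 0 z (n 0 z (n 0 z (n 0 z (n 0 z (n 0 z
 (n 0 z (n 0 z (n 0 z (n 0 z (n 0 z (n 0 z (n 0 z (n 0 z (n 0 z (n 0 z (n 0 z (n 2 (n 1 z (n 2
 (n 0 z (n 0 z (n 0 z (n 0 z (n 0 z (n 0 z z)))))) z)) z))))))))))))))))))))))))) (n 245 (n 0 z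
 (n 0 z (n 0 z (n 0 z (n 0 z (n 0 z (n 0 z (n 0 z (n 0 z z))))))))) (n 245 (n 0 z (n 0 z (n 0 z
 (n 0 z (n 0 z (n 0 z (n 0 z (n 0 z (n 2 z z))))))))) z))))))))) (n 0 (n 0 z (n 0 z (n 1093 (n 0
 z (n 0 z (n 0 z (n 0 z (n 0 z (n 0 z (n 0 z (n 0 z (n 0 z (n 0 z (n 0 z (n 0 z (n 0 z
 z))))))))))))) (n 51 (n 0 z (n 0 z (n 0 z (n 0 z (n 0 z (n 0 z (n 0 z (n 0 z (n 0 z (n 0 z (n 0
 z (n 0 z z)))))))))))) (n 51 (n 0 z (n 0 z (n 2 (n 0 z (n 1 z (n 1 z z))) (n 0 z (n 0 z (n 0 z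
 (n 0 z (n 0 z (n 0 z (n 0 z (n 0 z (n 0 z z)))))))))))) (n 51 (n 0 z (n 0 z (n 0 z (n 0 z (n 0
 z (n 0 z (n 0 z (n 0 z (n 0 z (n 0 z (n 0 z (n 2 (n 1 z (n 1 z z)) z)))))))))))) (n 49 (n 0 z
 (n 0 z (n 0 z (n 0 z (n 0 z (n 0 z (n 0 z (n 0 z (n 0 z (n 0 z z)))))))))) (n 49 (n 0 z (n 0 z
 (n 0 z (n 0 z (n 0 z (n 2 z (n 0 z (n 0 z (n 0 z (n 0 z z)))))))))) z)))))))) (n 0 (n 0 z (n
 1417 (n 0 z (n 2 (n 1 z (n 2 (n 0 z (n 0 z (n 0 z (n 0 z (n 0 (n 3213419 z z) (n 0 z z)))))) (n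
 2 (n 0 z (n 0 z (n 0 z (n 0 z (n 0 (n 60 z z) (n 0 z z)))))) (n 1 z (n 1 z z))))) (n 0 z (n 0 z
 z)))) (n 15 (n 0 z (n 0 z (n 2 (n 0 z (n 0 z (n 1 z (n 1 z z)))) (n 0 z (n 0 z (n 0 z (n 0 z (n
 0 z z)))))))) (n 15 (n 0 z (n 0 z (n 0 z (n 0 z (n 0 z (n 0 z (n 0 z (n 0 z z)))))))) (n 15 (n
 0 z (n 0 z (n 0 z (n 0 z (n 0 z (n 0 z (n 2 (n 1 z (n 1 z z)) (n 0 z z)))))))) (n 13 (n 2 (n 0
 z z) (n 0 z (n 0 z (n 0 z (n 0 z (n 0 z (n 0 z (n 0 z (n 0 z (n 0 z (n 0 z (n 0 z (n 0 z (n 0 z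
 (n 0 z (n 0 z z)))))))))))))))) (n 13 (n 0 z (n 0 z (n 0 z (n 0 z (n 0 z (n 0 z (n 0 z (n 0 z
 (n 0 z (n 0 z (n 0 z (n 0 z (n 0 z (n 0 z (n 0 z (n 0 z z)))))))))))))))) z))))))) (n 0 (n 1093
 (n 0 z (n 0 z (n 6561907 z (n 0 z (n 0 z (n 0 z (n 0 z z))))))) (n 15 (n 0 z (n 0 z (n 2 (n 0 z
 (n 0 z (n 1 z (n 1 z z)))) (n 0 z (n 0 z (n 0 z (n 0 z (n 0 z (n 0 z (n 0 z (n 0 z z)))))))))))
 (n 15 (n 0 z (n 0 z (n 0 z (n 0 z (n 0 z (n 0 z (n 0 z (n 0 z (n 0 z (n 0 z (n 0 z z)))))))))))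
 (n 15 (n 0 z (n 0 z (n 0 z (n 0 z (n 0 z (n 0 z (n 0 z (n 0 z (n 0 z (n 0 z (n 2 (n 2 (n 0 z (n
 0 z (n 0 z (n 0 z (n 0 (n 52 z z) (n 0 z z)))))) (n 2 (n 0 z (n 0 z (n 0 z (n 0 z (n 0 z (n 0 z
 z)))))) z)) z))))))))))) (n 13 (n 6561907 z (n 0 z (n 0 z (n 0 z (n 0 z (n 0 z (n 0 z (n 0 z (n
 0 z (n 0 z (n 0 z (n 0 z (n 0 z (n 0 z (n 0 z (n 0 z (n 0 z (n 0 z (n 0 z (n 0 z (n 0 z (n 0 z
 (n 0 z (n 0 z (n 0 z (n 0 z (n 0 z (n 0 z (n 0 z (n 0 z (n 0 z (n 0 z (n 0 z (n 0 z (n 0 z (n 0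
 z (n 0 z (n 0 z (n 0 z (n 0 z (n 0 z (n 0 z (n 0 z (n 0 z (n 0 z (n 0 z
 z)))))))))))))))))))))))))))))))))))))))))))))) (n 13 (n 0 z (n 0 z (n 0 z (n 0 z (n 0 z (n 0 z
 (n 0 z (n 0 z (n 0 z (n 0 z (n 0 z (n 0 z (n 0 z (n 0 z (n 0 z (n 2 z (n 0 z (n 0 z (n 0 z (n 0
 z (n 0 z (n 0 z (n 0 z (n 0 z (n 0 z (n 0 z (n 0 z (n 0 z (n 0 z (n 0 z (n 0 z (n 0 z (n 0 z (n
 0 z (n 0 z (n 0 z (n 0 z (n 0 z (n 0 z (n 0 z (n 0 z (n 0 z (n 0 z (n 0 z (n 0 z (n 0 z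
 z)))))))))))))))))))))))))))))))))))))))))))))) z)))))) (n 0 (n 63 (n 0 z (n 0 z (n 0 z (n 0 z
 (n 0 z (n 0 z (n 0 z (n 0 z (n 0 z (n 0 z (n 0 z (n 0 z z)))))))))))) (n 63 (n 0 z (n 2 (n 0 z
 (n 1 z (n 1 z z))) (n 0 z (n 0 z (n 0 z (n 0 z (n 0 z (n 0 z (n 0 z (n 0 z (n 0 z (n 0 z
 z)))))))))))) (n 63 (n 0 z (n 0 z (n 0 z (n 0 z (n 0 z (n 0 z (n 0 z (n 2 (n 1 z (n 2 (n 0 z (n
 0 z (n 0 z (n 0 z (n 0 z (n 0 z z)))))) z)) (n 0 z (n 0 z (n 0 z (n 0 z z)))))))))))) (n 61 (n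
 0 z (n 0 z (n 0 z (n 0 z (n 0 z (n 0 z (n 0 z (n 0 z z)))))))) (n 61 (n 0 z (n 0 z (n 0 z (n 2
 z (n 0 z (n 0 z (n 0 z (n 0 z z)))))))) z))))) (n 0 (n 0 z (n 0 z (n 73 (n 0 z (n 0 z (n 0 z (n
 0 z (n 0 z (n 0 z (n 0 z (n 0 z (n 0 z (n 0 z (n 0 z (n 0 z (n 0 z (n 0 z (n 0 z (n 0 z (n 0 z
 (n 0 z (n 0 z (n 0 z (n 0 z (n 0 z (n 0 z (n 0 z (n 0 z (n 0 z (n 0 z (n 0 z (n 0 z (n 0 z (n 0
 z (n 0 z (n 0 z (n 0 z (n 0 z (n 0 z (n 0 z (n 0 z (n 0 z (n 0 z (n 0 z (n 0 z (n 0 z (n 0 z (n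
 0 z (n 0 z (n 0 z z))))))))))))))))))))))))))))))))))))))))))))))) (n 73 (n 0 z (n 0 z (n 0 z
 (n 0 z (n 0 z (n 0 z (n 0 z (n 0 z (n 0 z (n 0 z (n 0 z (n 0 z (n 0 z (n 0 z (n 0 z (n 0 z (n 0
 z (n 0 z (n 0 z (n 0 z (n 0 z (n 0 z (n 0 z (n 0 z (n 0 z (n 0 z (n 0 z (n 0 z (n 0 z (n 0 z (n
 0 z (n 0 z (n 0 z (n 0 z (n 0 z (n 0 z (n 0 z (n 0 z (n 0 z (n 0 z (n 0 z (n 0 z (n 2 z (n 0 z
 (n 0 z (n 0 z (n 0 z z))))))))))))))))))))))))))))))))))))))))))))))) z)))) (n 0 (n 0 z (n 1 (n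
 2 (n 0 z z) (n 0 z (n 0 z (n 0 z (n 0 z (n 0 z (n 0 z (n 0 z (n 0 z (n 0 z (n 0 z (n 0 z (n 0 z
 z))))))))))))) (n 1 (n 0 z (n 0 z (n 0 z (n 0 z (n 0 z (n 0 z (n 0 z (n 0 z (n 0 z (n 0 z (n 0
 z (n 0 z (n 0 z z))))))))))))) z))) (n 0 (n 1 (n 0 z (n 0 z (n 0 z (n 0 z (n 0 z (n 0 z (n 0 z
 (n 2 (n 0 z z) (n 0 z (n 0 z (n 0 z z))))))))))) (n 1 (n 0 z (n 0 z (n 0 z (n 6563595 z (n 0 z
 (n 0 z (n 0 z (n 0 z (n 0 z (n 0 z (n 0 z z))))))))))) z)) (n 0 (n 0 z z) (n 0 z z)))))))))))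
 (n 0 (n 1 (n 3282443 z (n 3282443 z (n 3282443 z (n 3282443 z (n 3282443 z (n 3282443 z z))))))
 (n 1 (n 2 z (n 268 z (n 268 z (n 268 z (n 268 z (n 268 z z)))))) z)) (n 0 (n
 0x41e31d98649c48631c49e11a (n 0 (n 0 (n 7741699 z (n 7741699 z (n 7741699 z (n 7741699 z (n
 7741699 z (n 7741699 z z)))))) z) (n 0 (n 593 (n 1 (n 7610467 z (n 3282699 z (n 3282699 z (n
 3282699 z (n 3282699 z (n 3282699 z z)))))) (n 1 (n 7610467 z (n 7754523 z (n 7754523 z (n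
 7754523 z (n 7754523 z (n 7754523 z z)))))) z)) (n 33 (n 0 z (n 1 (n 7741699 z (n 7741699 z (n
 7741699 z (n 7741699 z (n 7741699 z (n 7741699 z z)))))) (n 1 (n 7741699 z (n 7741699 z (n
 7741699 z (n 7741699 z (n 7741699 z (n 7741699 z z)))))) z))) (n 9 (n 0 z (n 1 (n 7741699 z (n
 7741699 z (n 7741699 z (n 7741699 z (n 7741699 z (n 7741699 z z)))))) (n 1 (n 7610467 z (n 2 z
 (n 4412 z (n 7538203 z (n 4412 z (n 4412 z z)))))) (n 1 (n 7610467 z (n 4412 z (n 4412 z (n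
 7538203 z (n 4412 z (n 4412 z z)))))) (n 1 (n 7741699 z (n 7741699 z (n 7741699 z (n 7741699 z
 (n 7741699 z (n 7741699 z z)))))) (n 0 z (n 1 (n 7610467 z (n 7538203 z (n 4412 z (n
 0xdd51d44c0e008ea4a826077967ea7697e28f984583770a81b7908128da7bc7ef6e380881f88c8308ed86b75b7fe7708439947d399480c81187c6a18335948927e085e7987c98257aa97180788a78e8317b284a8147b11011
 z (n 4412 z (n 6636403 z z)))))) z))))))) (n 575 (n 1 (n 7741699 z (n 7610467 z (n 7610467 z (n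
 7610467 z (n 7610467 z (n 7610467 z z)))))) (n 0 z (n 0 z (n 0 z (n 1 (n 7741699 z (n 7538203 z
 (n 7538203 z (n 7750155 z (n 7538203 z (n 7538203 z z)))))) (n 0 z (n 1 (n 7741699 z (n 6424379
 z (n 3292 z (n 7750155 z (n 3292 z (n 3292 z z)))))) (n 0 z z)))))))) (n 1 (n 1 (n 7610467 z (n
 7750155 z (n 7750155 z (n 7750155 z (n 7750155 z (n 7750155 z z)))))) (n 1 (n 7741699 z (n
 7741699 z (n 7741699 z (n 7741699 z (n 7741699 z (n 7741699 z z)))))) (n 1 (n 7610467 z (n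
 7750155 z (n 7750155 z (n 6496371 z (n 7750155 z (n 7750155 z z)))))) (n 1 (n 7610467 z (n
 0x552100daec001d1d800093b000054107898447557559357d18b66d28d07597c98bc7f58176fc81d7ea8b882190d80379e80d77e80e97b7ce9477fb81c86567c84561084d7fa7e87e67fa8108129357e08957718ac76684582b7bc0151
 z (n 4396 z (n 4396 z (n 4396 z (n 7538203 z z)))))) (n 1 (n 7610467 z (n 10 z (n 4396 z (n
 7538203 z (n 4396 z (n 4396 z z)))))) (n 1 (n 7610467 z (n 6358875 z (n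
 0x12ea6ea0203000aa42002d484004b1000623208017e682e7ff7d180281781380d80c8327db7ee80984981f7f87d57e47d07fd7e57fe81481079880d7c681d8257ec8607e285f8107f08017ec7ff8027d77ea7ea7df8187fd83e7f97d582a0911
 z (n 4396 z (n 4396 z (n 7538203 z z)))))) (n 1 (n 7741699 z (n 7741699 z (n 7741699 z (n
 7741699 z (n 7741699 z (n 7741699 z z)))))) (n 1 (n 7741699 z (n 7741699 z (n 7741699 z (n
 7741699 z (n 7741699 z (n 7741699 z z)))))) (n 1 (n 7610467 z (n 6358875 z (n 4396 z (n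
 0x367327105018033a9ba9800c00cb10000d5107e07e27c77978e47947fb7878477967a48767e98087047f57fa8b78358f07ca83e7fc76281f93e7f58b67e180982d6e68006fc7bb81182c7d581780f84688b83a8a87a97c677486188b74b1091
 z (n 4396 z (n 6627699 z z)))))) (n 1 (n 7610467 z (n 4396 z (n 4396 z (n
 0x5521027ae600531cc004939800216207f58e477b7398437488b57a698d7527437fa88481382581d7ed84382180d6a790b82884378d8627947997d381b7d27568909436c480d6928f18c178e8cb7a87368a482f8eb7327ee8997e40151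
 z (n 4396 z (n 6627699 z z)))))) (n 1 (n 7610467 z (n 7538203 z (n 6629147 z (n 18 z (n 4396 z
 (n 4396 z z)))))) z))))))))))) (n 669 (n 1 (n 7741699 z (n 7610467 z (n 7610467 z (n 7610467 z
 (n 7610467 z (n 7610467 z z)))))) (n 0 z (n 1 (n 7741699 z (n 4892 z (n 26 z (n 6489947 z (n
 4892 z (n 4892 z z)))))) (n 1 (n 7741699 z (n 7754523 z (n 7750155 z (n 7754523 z (n 7754523 z
 (n 7754523 z z)))))) (n 1 (n 7741699 z (n 7754523 z (n 7754523 z (n 7750155 z (n 7754523 z (n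
 7754523 z z)))))) z))))) (n 593 (n 1 (n 7741699 z (n 3282699 z (n 3282699 z (n 3282699 z (n
 3282699 z (n 3282699 z z)))))) (n 1 (n 7741699 z (n 7754523 z (n 7754523 z (n 7754523 z (n
 7754523 z (n 7754523 z z)))))) z)) z))))))) (n 0 (n 0 (n 0 z (n 0 z (n 0 z (n 0 z z)))) (n 0 (n
 0 z (n 0 z (n 0 z z))) (n 0 (n 0 z (n 0 z z)) (n 0 (n 0 z z) z)))) (n 0 (n 525 (n 0 (n 0 z (n 0
 z (n 0 z (n 0 z z)))) (n 0 (n 0 z (n 0 z (n 0 z (n 0 z z)))) (n 0 (n 0 z (n 0 z (n 0 z (n 0 z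
 z)))) (n 0 (n 0 z (n 0 z (n 0 z (n 0 z z)))) z)))) (n 551 (n 0 (n 0 z (n 0 z (n 0 z (n 0 z
 z)))) (n 0 (n 0 z (n 0 z (n 0 z (n 0 z z)))) (n 0 (n 0 z (n 0 z (n 0 z (n 0 z z)))) (n 0 (n 0 z
 (n 0 z (n 0 z (n 0 z z)))) (n 0 (n 0 z (n 0 z (n 0 z (n 0 z z)))) (n 0 (n 0 z (n 0 z (n 0 z (n
 0 z z)))) (n 0 (n 0 z (n 0 z (n 0 z (n 0 z z)))) (n 0 (n 0 z (n 0 z (n 0 z (n 0 z z))))
 z)))))))) (n 547 (n 0 (n 0 z (n 0 z (n 0 z (n 0 z z)))) (n 0 (n 0 z (n 0 z (n 0 z (n 0 z z))))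
 (n 0 (n 0 z (n 0 z (n 0 z (n 0 z z)))) (n 0 (n 0 z (n 0 z (n 0 z (n 0 z z)))) (n 0 (n 0 z (n 0
 (n 8795995 z (n 7735355 z z)) (n 0 (n
 0xb0eb0a06077b480a7837df8d581f82173e8127b87f58957e87db7177f582a8738538c38577907fa7ad8129437f292a7f17f385f6bd81a6108738128267c77c482680b91182884c79683f7b98417fd7c40811
 z (n 7751707 z z)) (n 0 z z)))) (n 0 (n 0 z (n 0 (n 7751707 z (n 7684995 z z)) (n 0 z (n 0 z
 z)))) (n 0 (n 0 z (n 0 z (n 0 z (n 0 z z)))) (n 0 (n 0 z (n 0 z (n 0 z (n 0 z z)))) (n 0 (n 0 z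
 (n 0 z (n 0 z (n 0 z z)))) (n 0 (n 0 z (n 0 z (n 0 z (n 0 z z)))) (n 0 (n 0 z (n 0 z (n 0 z (n
 0 z z)))) z))))))))))) (n 575 (n 0 (n 0 z (n 0 z (n 0 z (n 0 z z)))) (n 0 (n 0 z (n 0 z (n 0 z
 (n 0 z z)))) (n 0 (n 0 z (n 0 z (n 0 z (n 0 z z)))) (n 0 (n 0 z (n 0 z (n 0 z (n 0 z z)))) (n 0
 (n 0 z (n 0 z (n 0 z (n 0 z z)))) (n 0 (n 0 z (n 0 z (n 0 z (n 0 z z)))) (n 0 (n 0 z (n 0 z (n
 0 z (n 0 z z)))) (n 0 (n 0 z (n 0 (n 8865371 z z) (n 0 z (n 0 z z)))) z)))))))) (n 411 (n 0 (n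
 0 z (n 0 z (n 0 z (n 0 (n 8795179 z z) z)))) (n 0 (n 0 z (n 0 z (n 0 z (n 0 z z)))) (n 0 (n 0 z
 (n 0 z (n 0 z (n 0 z z)))) (n 0 (n 0 z (n 0 z (n 0 z (n 0 z z)))) (n 0 (n 0 z (n 0 z (n 0 z (n
 0 z z)))) (n 0 (n 0 z (n 0 z (n 0 z (n 0 z z)))) (n 0 (n 0 z (n 0 z (n 0 (n
 0x30e6e40a077e081f82182082082182085f7e08218608608207df8237a07e08207e08217a182085f8228200801 z
 (n 7735355 z z)) (n 0 z z)))) (n 0 (n 0 z (n 0 z (n 0 z (n 0 z z)))) (n 0 (n 0 z (n 0 z (n 0 z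
 (n 0 z z)))) (n 0 (n 0 z (n 0 z (n 0 z (n 0 z z)))) (n 0 (n 0 z (n 0 z (n 0 (n 8790275 z z) (n
 0 z z)))) (n 0 (n 0 z (n 0 z (n 0 z (n 0 z z)))) z)))))))))))) (n 570 (n 0 (n 0 z (n 0 z (n 0
 (n 0x4ea90a620782086181f8618228218207e08608217df7e17e182181f82079f7e17e08217df7df8618608610801
 z (n 7735355 z z)) (n 0 z z)))) (n 0 (n 0 z (n 0 z (n 0 z (n 0 z z)))) (n 0 (n 0 z (n 0 z (n 0
 z (n 0 z z)))) (n 0 (n 0 z (n 0 z (n 0 z (n 0 z z)))) (n 0 (n 0 z (n 0 z (n 0 z (n 0 z z)))) (n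
 0 (n 0 z (n 0 z (n 0 z (n 0 z z)))) (n 0 (n 0 z (n 0 z (n 0 z (n 0 z z)))) (n 0 (n 0 z (n 0 z
 (n 0 z (n 0 z z)))) (n 0 (n 0 z (n 0 z (n 0 z (n 0 z z)))) (n 0 (n 0 z (n 0 z (n 0 z (n 0 z
 z)))) (n 0 (n 0 z (n 0 z (n 0 z (n 0 z z)))) (n 0 (n 0 z (n 0 z (n 0 z (n 0 z z)))) (n 0 (n 0 z
 (n 0 z (n 0 z (n 0 z z)))) z))))))))))))) (n 549 (n 0 (n 0 z (n 0 z (n 0 z (n 0 z z)))) (n 0 (n
 0 z (n 0 z (n 0 z (n 0 z z)))) (n 0 (n 0 z (n 0 z (n 0 z (n 0 z z)))) (n 0 (n 0 z (n 0 z (n 0 z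
 (n 0 z z)))) (n 0 (n 0 z (n 0 z (n 0 z (n 0 z z)))) (n 0 (n 0 z (n 0 z (n 0 z (n 0 z z)))) (n 0
 (n 0 z (n 0 z (n 0 z (n 0 z z)))) (n 0 (n 0 z (n 0 z (n 0 z (n 0 z z)))) (n 0 (n 0 z (n 0 z (n
 0 z (n 0 z z)))) (n 0 (n 0 z (n 0 z (n 0 z (n 0 z z)))) (n 0 (n 0 z (n 0 z (n 0 z (n 0 z z))))
 (n 0 (n 0 z (n 0 z (n 0 z (n 0 z z)))) z)))))))))))) (n 533 (n 0 (n 0 z (n 0 z (n 0 z (n 0 z
 z)))) (n 0 (n 0 z (n 0 z (n 0 z (n 0 z z)))) (n 0 (n 0 z (n 0 (n 8795995 z (n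
 0x287687350184ecb0a26077df82081f82186082181f7e18208607e08608218207df82082082086082181f86182081f8601001
 z z)) (n 0 (n
 0x2c398321cc170e60a8728207e07e08618217e28207e18a081f7de8208218607df8208208207df82181e7df8608208210101
 z (n
 0x848737dd7f57b581583e8277e17dd7e87ea7f98637ee7f37927f881d8338268358197d58007d98128b17ce89d8037f982f78583c7358067ee81d7ef7ff7ff7ca8647fd8378007ee7ee80f82d7d30051
 z z)) (n 0 z z)))) (n 0 (n 0 z (n 0 z (n 0 z (n 0 (n 8795995 z (n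
 0x1a19614c80e000a1cc006b9800016207b08077967978d37e886774486a7b08058867dc80a75c8067f886c81689e8287a67fc79e81f8d37e78db80e80284e73c81b6c28457f383d7c67f18137df8c37f18587a48457c08218107d608d1
 z z)) z)))) (n 0 (n 0 z (n 0 z (n 0 z (n 0 z z)))) (n 0 (n 0 z (n 0 z (n 0 z (n 0 z z)))) (n 0
 (n 0 z (n 0 z (n 0 z (n 0 z z)))) (n 0 (n 0 z (n 0 z (n 0 z (n 0 z z)))) (n 0 (n 0 z (n 0 z (n
 0 z (n 0 z z)))) (n 0 (n 0 z (n 0 z (n 0 z (n 0 z z)))) (n 0 (n 0 z (n 0 z (n 0 z (n 0 z z))))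
 (n 0 (n 0 z (n 0 z (n 0 z (n 0 z z)))) (n 0 (n 0 z (n 0 z (n 0 (n
 0x6b0e401b21c8005439000541078d84173c79b93d8078706d08867637c68d57f57f36c77fd80d8b784992482f79e80777c8109e47c799d7dc7fe8846218495948518158037dd7ce8138059817f08a976688f75b84f8397a70111
 z z) (n 0 z z)))) (n 0 (n 0 z (n 0 z (n 0 z (n 0 (n
 0x10e70e640789f7e07e08208207e18617e18a07e07df86085f81f81f7e082081f8208208218208208628200801 z
 (n 8795995 z z)) z)))) (n 0 (n 0 z (n 0 z (n 0 z (n 0 z z)))) (n 0 (n 0 z (n 0 (n 8798731 z (n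
 8798731 z z)) (n 0 z (n 0 z z)))) (n 0 (n 0 z (n 0 (n
 0x721c8270e4006208607e17df8618617e37e07a18e081f7de8208228a07df82082075f7df8217de7df8a186086100c1
 z (n 8726379 z z)) (n 0 z (n 0 z z)))) (n 0 (n 0 z (n 0 z (n 0 z (n 0 z z)))) (n 0 (n 0 z (n 0
 z (n 0 (n
 0x13d8300299060024a0c0002b9800216207f58e477b7398437488b57a698d7527437fa88481382581d7ed84382180d6a790b82884378d8627947997d381b7d27568909436c480d6928f18c178e8cb7a87368a482f8eb7327ee8997e40151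
 z (n 7735355 z z)) (n 0 z z)))) (n 0 (n 0 z (n 0 z (n 0 z (n 0 z z)))) (n 0 (n 0 z (n 0 (n
 8798731 z (n 8798731 z z)) (n 0 (n 8798731 z (n 8798731 z z)) (n 0 z z)))) (n 0 (n 0 (n 8798731
 z (n 8798731 z z)) (n 0 (n 8798731 z (n 8798731 z z)) (n 0 z (n 0 (n 8798731 z (n 8798731 z z))
 z)))) (n 0 (n 0 z (n 0 z (n 0 z (n 0 z z)))) (n 0 (n 0 z (n 0 z (n 0 z (n 0 z z)))) (n 0 (n 0 z
 (n 0 z (n 0 z (n 0 z z)))) z))))))))))))))))))))))))) (n 75 (n 0 (n 0 z (n 0 z (n 0 z (n 0 z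
 z)))) (n 0 (n 0 (n 8865371 z z) (n 0 z (n 0 z (n 0 (n 8660747 z z) z)))) (n 0 (n 0 z (n 0 z (n
 0 z (n 0 z z)))) (n 0 (n 0 z (n 0 z (n 0 z (n 0 z z)))) (n 0 (n 0 z (n 0 z (n 0 z (n 0 z z))))
 (n 0 (n 0 z (n 0 z (n 0 z (n 0 z z)))) (n 0 (n 0 z (n 0 z (n 0 z (n 0 z z)))) (n 0 (n 0 z (n 0
 z (n 0 z (n 0 z z)))) (n 0 (n 0 z (n 0 z (n 0 (n 8790275 z z) (n 0 z z)))) (n 0 (n 0 z (n 0 z
 (n 0 z (n 0 z z)))) (n 0 (n 0 z (n 0 z (n 0 z (n 0 z z)))) (n 0 (n 0 z (n 0 z (n 0 z (n 0 z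
 z)))) z)))))))))))) (n 37 (n 0 (n 0 z (n 0 z (n 0 z (n 0 z z)))) (n 0 (n 0 z (n 0 z (n 0 z (n 0
 z z)))) (n 0 (n 0 (n 8865371 z z) (n 0 z (n 0 z (n 0 (n 8660747 z z) z)))) (n 0 (n 0 z (n 0 z
 (n 0 z (n 0 z z)))) (n 0 (n 0 z (n 0 z (n 0 z (n 0 z z)))) (n 0 (n 0 z (n 0 z (n 0 z (n 0 z
 z)))) (n 0 (n 0 z (n 0 (n
 0x2875875101802b7307e87ff7e87e68447fd81d7c48137ea80582c7ec7ff7c57fa80182480983982c7d57fa7d880e84280384a8027fa81e7c17fd77e82b7fe82e7df7e680f7f68408138097e280c7f28097fc7f50851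
 z z) (n 0 z (n 0 z z)))) (n 0 (n 0 z (n 0 z (n 0 z (n 0 z z)))) (n 0 (n 0 z (n 0 z (n 0 z (n 0
 z z)))) (n 0 (n 0 z (n 0 z (n 0 z (n 0 z z)))) (n 0 (n 0 z (n 0 z (n 0 z (n 0 (n 8660747 z z)
 z)))) (n 0 (n 0 z (n 0 z (n 0 z (n 0 (n 8660747 z z) z)))) z)))))))))))) (n 669 (n 0 (n 0 z (n
 0 z (n 0 z (n 0 z z)))) (n 0 (n 0 z (n 0 z (n 0 z (n 0 z z)))) (n 0 (n 0 z (n 0 z (n 0 z (n 0 z
 z)))) (n 0 (n 0 z (n 0 z (n 0 z (n 0 z z)))) (n 0 (n 0 z (n 0 z (n 0 z (n 0 z z)))) z))))) (n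
 611 (n 0 (n 0 z (n 0 z (n 0 z (n 0 z z)))) (n 0 (n 0 z (n 0 z (n 0 z (n 0 z z)))) (n 0 (n 0 z
 (n 0 z (n 0 (n 4327515 z z) (n 0 z z)))) (n 0 (n 0 z (n 0 z (n 0 z (n 0 z z)))) (n 0 (n 0 z (n
 0 z (n 0 (n
 0x3b0e41c8720d439016108190840b8428627e17a08a28607a57e07a28e085e7dd8e186385f79f7e07e17e07de7a381d7a19208608600181
 z z) (n 0 z z)))) (n 0 (n 0 z (n 0 (n
 0x2ac39005c87276983d72475d9927f78b867e8be7377d79087d97f968e8018068e684c96086974e80c73f831a247c69ef7f080389d5e084f4f98978018307af7bf8267e59db7f18bd73c8b275186182f7a20091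
 z z) (n 0 z (n 0 z z)))) (n 0 (n 0 z (n 0 z (n 0 z (n 0 z z)))) (n 0 (n 0 z (n 0 (n
 0x2e850a26078627a17e285d85f7e086086181f7df81f8618217618637a086185f7df8607a279f89e8a07e10801 z
 z) (n 0 z (n 0 z z)))) (n 0 (n 0 z (n 0 z (n 0 z (n 0 z z)))) z))))))))) (n 99 (n 0 (n 0 z (n 0
 z (n 0 z (n 0 z z)))) (n 0 (n 0 z (n 0 z (n 0 z (n 0 z z)))) (n 0 (n 0 z (n 0 z (n 0 z (n 0 z
 z)))) (n 0 (n 0 z (n 0 (n 8803099 z z) (n 0 z (n 0 z z)))) (n 0 (n 0 z (n 0 z (n 0 z (n 0 z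
 z)))) (n 0 (n 0 z (n 0 z (n 0 z (n 0 z z)))) (n 0 (n 0 z (n 0 z (n 0 z (n 0 z z)))) (n 0 (n 0 z
 (n 0 z (n 0 z (n 0 z z)))) (n 0 (n 0 z (n 0 z (n 0 z (n 0 z z)))) (n 0 (n 0 z (n 0 z (n 0 z (n
 0 z z)))) z)))))))))) (n 43 (n 0 (n 0 z (n 0 z (n 0 (n 8726299 z z) (n 0 z z)))) (n 0 (n 0 z (n
 0 z (n 0 z (n 0 z z)))) (n 0 (n 0 z (n 0 (n
 0x50a6e802078227a17e185e8607e182082185f7df7df8a08627a082182086185f7e08607a27e085e8a07a00801 z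
 z) (n 0 z (n 0 z z)))) (n 0 (n 0 z (n 0 z (n 0 z (n 0 z z)))) (n 0 (n 0 z (n 0 z (n 0 z (n 0 z
 z)))) (n 0 (n 0 z (n 0 z (n 0 z (n 0 z z)))) (n 0 (n 0 z (n 0 (n 8726379 z z) (n 0 z (n 0 z
 z)))) (n 0 (n 0 z (n 0 (n
 0x20ec90a62077ffdfb8000637ffd147ffe8080051580009e8001b47ffb008001877ffd8a7fffdb8003de7fff217fffb67ffad77fffa180005280030c8001328004a68002677ffd198000097ffd398000e480077e7ffeed8007838000067fffa38002687ff8b580010f7ff4728002797fffcf8001c17ffe627ffeb380009d7fff248006ec8000398002427ffd408001ea7ffde880012c8000937ffeb70819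
 z (n 8726379 z z)) (n 0 z (n 0 z z)))) z)))))))) (n 42 (n 0 (n 0 z (n 0 z (n 0 z (n 0 z z))))
 (n 0 (n 0 z (n 0 z (n 0 z (n 0 z z)))) (n 0 (n 0 z (n 0 z (n 0 z (n 0 z z)))) (n 0 (n 0 z (n 0
 z (n 0 z (n 0 (n
 0x30ed0e62038208208208208207e081f8207e082082082082082082082082082082082082081f8208208200801 z
 z) z)))) (n 0 (n 0 z (n 0 z (n 0 z (n 0 (n
 0x30ed0e62037e085f8208208208208208208218208208207e082186082082082182082082082085f8208600801 z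
 (n 0x30ed0e62037df85f8208618208208208208218208208207e082186082082082182082081f8208608208210801
 z z)) z)))) (n 0 (n 0 z (n 0 z (n 0 z (n 0 z z)))) (n 0 (n 0 z (n 0 z (n 0 z (n 0 z z)))) (n 0
 (n 0 z (n 0 z (n 0 z (n 0 z z)))) (n 0 (n 0 z (n 0 z (n 0 z (n 0 z z)))) (n 0 (n 0 z (n 0 z (n
 0 z (n 0 z z)))) (n 0 (n 0 z (n 0 z (n 0 z (n 0 z z)))) (n 0 (n 0 z (n 0 z (n 0 z (n 0 z z))))
 (n 0 (n 0 z (n 0 z (n 0 z (n 0 z z)))) (n 0 (n 0 z (n 0 (n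
 0x2a1d8190e40b8728217e18208608618227e07e18a081f7de8218228607df8208618207df8217df7a08608207a100c1
 z (n 8726379 z z)) (n 0 (n
 0x321c8270e4128728208218208208607e28207e186081f7df82182186081e82082081f7e07e17df7a082182082100c1
 z (n
 0x10eaec26078218217e08608607e28207e08607e07df8608208607df86182081f7df8218208208618607e00801 z
 z)) (n 0 z z)))) (n 0 (n 0 z (n 0 z (n 0 z (n 0 z z)))) (n 0 (n 0 z (n 0 (n
 0x190e40b8728608207e08a18607e18207a189f7e07df8208218607df8208207df7e082081f7df8618608610081 z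
 (n 0x30ed0e62038208208208208207e182081f81f8608208218217df8217e17e086081f8217e17e081f7e08600801
 z z)) (n 0 (n 8847899 z (n 8847899 z z)) (n 0 z z)))) (n 0 (n 0 z (n 0 z (n 0 (n
 0x6b0e201b21c4005438800541078d84173c79b93d8078706d08867637c68d57f57f36c77fd80d8b784992482f79e80777c8109e47c799d7dc7fe8846218495948518158037dd7ce8138059817f08a976688f75b84f8397a70111
 z z) (n 0 z z)))) (n 0 (n 0 z (n 0 z (n 0 z (n 0 z z)))) (n 0 (n 0 z (n 0 z (n 0 z (n 0 z z))))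
 (n 0 (n 0 z (n 0 z (n 0 z (n 0 (n 8660747 z z) z)))) (n 0 (n 0 z (n 0 z (n 0 z (n 0 z z)))) (n
 0 (n 0 z (n 0 z (n 0 z (n 0 (n
 0x30ed0e46078607e17e081f8208208607e08627e07df86081f8617df8608618607e08208207e08218607a00801 z
 (n 0x10e70e62037e08608208208607e08208607e08208217e07e17e08627e07e08218218207e181f81e8208200801
 z z)) z)))) (n 0 (n 0 z (n 0 z (n 0 z (n 0 z z)))) (n 0 (n 0 z (n 0 z (n 0 z (n 0 (n 8660747 z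
 z) z)))) (n 0 (n 0 z (n 0 (n 8798731 z (n 8798731 z z)) (n 0 z (n 0 z z)))) (n 0 (n 0 z (n 0 z
 (n 0 z (n 0 (n
 0x873873203830ed0c620385f8208208208207a08608208218207df82082082081f8208208208208208208208208218201001
 z (n
 0x30ed0e62038208208208208207e182081f81f8208208208608208218208208208208208207e081f8208600801 z
 z)) z)))) (n 0 (n 0 z (n 0 z (n 0 (n 8847899 z z) (n 0 z z)))) (n 0 (n 0 z (n 0 z (n 0 z (n 0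
 (n 8798731 z (n 8798731 z z)) z)))) (n 0 (n 0 z (n 0 z (n 0 z (n 0 (n 8798731 z z) z)))) (n 0
 (n 0 (n
 0x161d8290ec138768207e07e08618617e38207a18a081f7de8208218607df8218207df7df7e17df7df86086086000c1
 z (n
 0x448767ee7fb7da80c8208147f07ee7f47f57fd8327f67f97c87fc80f81a81481b80d7ea8007ec80985b7e68508027fc8187c281e7988037f680f7f78008007e58337ff81c8017f77f78088177ea0051
 z z)) (n 0 (n
 0x243b00e1d8150ec058720243900a1c8030e4008728608218208608217e182082186082081f8208208208607e08208207e08218207df8208208600201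
 z (n
 0x6160840d241080b28217ee91974970685d71c8db78e9f072270c8098ab81b81f8237e385a82b81d64395783385576b89b76d7987bd8257d37128c897b66980e63093b8f37698f87a46f48e883792b6e67f08d67d000d1
 z z)) (n 0 z (n 0 (n
 0x548767ea7f97d080e8288197ed7e97f17f27fc83f7f47f77ba7fb8138208198228107e58007e780b8717e08648027fc81e7b282677e8047f48127f58008007df8407fe8248007f57f480a81d7e40051
 z (n 8660747 z z)) z)))) (n 0 (n 0 (n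
 0x2c3b0321d8170ec028218207e07e08618608228207e18a081f7de8218218617df8208618208207e17de7a08608208210101
 z (n
 0x848217dd7f57b581583e8277e17dd7e87ea7f98637ee7f37927f881d8338268358197d58007d98128b17ce89d8037f982f78583c7358067ee81d7ef7ff7ff7ca8647fd8378007ee7ee80f82d7d30051
 z z)) (n 0 (n
 0x1c8728a182281f82085f7e282082185e81f81f8e286181e8a27e086081f79f7e17a086081e8a289f0041 z (n
 0x848217dd7f57b581583e8277e17dd7e87ea7f98637ee7f37927f881d8338268358197d58007d98128b17ce89d8037f982f78583c7358067ee81d7ef7ff7ff7ca8647fd8378007ee7ee80f82d7d30051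
 z z)) (n 0 z (n 0 (n
 0x2c390321c8170e40a8218217e18208608618228207e18a081f7de8218218617df8208218217df7e181f7a08618207e10101
 z (n
 0x848217dd7f57b581583e8277e17dd7e87ea7f98637ee7f37927f881d8338268358197d58007d98128b17ce89d8037f982f78583c7358067ee81d7ef7ff7ff7ca8647fd8378007ee7ee80f82d7d30051
 z z)) z)))) (n 0 (n 0 z (n 0 (n
 0x2a1d8190e40b8728217e18208608618227e07e18a081f7de8218228607df8208618207df8217df7a08608207a100c1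
 z (n 8726379 z z)) (n 0 (n
 0x161c8490e41b8728607e17df8a18617e47e07a28e07df7dd8208628a079f82082079f79f7e17de7de8a18a086100c1
 z (n
 0x87687630180ea6ea62078218218218608617e281f82081f8207e082081f8208218208208207e08207e07df86085f8201001
 z z)) (n 0 z z)))) (n 0 (n 0 z (n 0 z (n 0 (n
 0x6b0e401b21c8005439000541078d84173c79b93d8078706d08867637c68d57f57f36c77fd80d8b784992482f79e80777c8109e47c799d7dc7fe8846218495948518158037dd7ce8138059817f08a976688f75b84f8397a70111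
 z z) (n 0 z z)))) (n 0 (n 0 z (n 0 (n 8803099 z (n 8803099 z z)) (n 0 (n 8803099 z (n 8803099 z
 z)) (n 0 z z)))) (n 0 (n 0 z (n 0 (n
 0x30e70e60078207e18208208618228207e08e181e79d8608a08a079e8a08207e081f7e085f7df86289f8a10801 z
 (n
 0x873870101810a6e602078617e17e085f8217e27df82085f7e082082182182082086086081f82081f7e17e08608608201001
 z z)) (n 0 z (n 0 z z)))) (n 0 (n 0 z (n 0 z (n 0 z (n 0 z z)))) (n 0 (n 0 z (n 0 z (n 0 z (n 0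
 z z)))) (n 0 (n 0 z (n 0 z (n 0 z (n 0 z z)))) (n 0 (n 0 z (n 0 z (n 0 z (n 0 z z)))) (n 0 (n 0
 z (n 0 z (n 0 z (n 0 z z)))) (n 0 (n 0 z (n 0 z (n 0 z (n 0 z z)))) (n 0 (n 0 z (n 0 (n 8798731
 z (n 8798731 z z)) (n 0 (n 8798731 z (n 8798731 z z)) (n 0 z z)))) (n 0 (n 0 z (n 0 z (n 0 z (n
 0 z z)))) (n 0 (n 0 z (n 0 z (n 0 z (n 0 (n 8798731 z (n 8798731 z z)) z)))) (n 0 (n 0 z (n 0 z
 (n 0 z (n 0 z z)))) (n 0 (n 0 z (n 0 z (n 0 z (n 0 z z)))) (n 0 (n 0 z (n 0 z (n 0 z (n 0 (n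
 8660747 z z) z)))) z))))))))))))))))))))))))))))))))))))))))))))))) (n 593 (n 0 (n 0 z (n 0 z
 (n 0 z (n 0 z z)))) (n 0 (n 0 z (n 0 z (n 0 z (n 0 z z)))) z)) (n 33 (n 0 (n 0 z (n 0 z (n 0 z
 (n 0 z z)))) (n 0 (n 0 z (n 0 z (n 0 z (n 0 z z)))) (n 0 (n 0 z (n 0 z (n 0 (n 8790275 z z) (n
 0 z z)))) z))) (n 9 (n 0 (n 0 z (n 0 z (n 0 z (n 0 z z)))) (n 0 (n 0 z (n 0 z (n 0 z (n 0 z
 z)))) (n 0 (n 0 z (n 0 z (n 0 z (n 0 z z)))) (n 0 (n 0 z (n 0 z (n 0 z (n 0 z z)))) (n 0 (n 0 z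
 (n 0 z (n 0 z (n 0 z z)))) (n 0 (n 0 z (n 0 z (n 0 z (n 0 z z)))) (n 0 (n 0 z (n 0 z (n 0 z (n
 0 z z)))) z))))))) (n 27 (n 0 (n 0 z (n 0 z (n 0 z (n 0 z z)))) (n 0 (n 0 z (n 0 z (n 0 z (n 0
 z z)))) (n 0 (n 0 z (n 0 (n
 0x13d87502990ea024a1d4002b9800216207f58e477b7398437488b57a698d7527437fa88481382581d7ed84382180d6a790b82884378d8627947997d381b7d27568909436c480d6928f18c178e8cb7a87368a482f8eb7327ee8997e40151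
 z z) (n 0 z (n 0 z z)))) (n 0 (n 0 z (n 0 (n
 0x10a50a42078608218208208607e18607df8617df7df8608208617de8608208607e082081f7e08618608200801 z
 z) (n 0 z (n 0 z z)))) (n 0 (n 0 z (n 0 (n
 0x30a50a42078437f884582b7577e87bb8a07eb8327f979a8287f988880481979c7f078a78787f7ea87c7ce71b81071f7ed7f97c98c87f398d77c8117c68488277e48347197e77c685b7ca82b7ce80c8240811
 z (n
 0x30a50a42078437f884582b7577e87bb8a07eb8327f979a8287f988880481979c7f078a78787f7ea87c7ce71b81071f7ed7f97c98c87f398d77c8117c68488277e48347197e77c685b7ca82b7ce80c8240811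
 z z)) (n 0 (n
 0x321c8170e4128728608218208608617e28207e18a081f7df82082186081f82082081f7e08207df7a086182082100c1
 z (n
 0x848727dd7f57b581583e8277e17dd7e87ea7f98637ee7f37927f881d8338268358197d58007d98128b17ce89d8037f982f78583c7358067ee81d7ef7ff7ff7ca8647fd8378007ee7ee80f82d7d30051
 z z)) (n 0 z z)))) (n 0 (n 0 z (n 0 (n
 0x50a50a420775682470077b9cb82389964b89672d7ed9497bd7d76237e683b8fe8739a98b17137ee727841a877c8a6d7e47dd8d65858444378d880d88b7777838427d0a3881d8b172089f75685e81979a0811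
 z z) (n 0 z (n 0 z z)))) (n 0 (n 0 z (n 0 z (n 0 z (n 0 (n 8660747 z z) z)))) (n 0 (n 0 (n
 0x30a6e8420786082181f82086082182082086181f7df86082082081f8208208208208208208208218618200801 z
 (n 0x30a6e8420782082181f8208608218607e08617df7e086082082081f82082082081f8208208208208608200801
 z z)) (n 0 (n
 0x1c8728a182281f82085f7e282082185e81f81f8e286181e8a27e086081f79f7e17a086081e8a289f0041 z (n
 0xb0e402b21c802dc3900225107c37e97917f38b182081176e8107bc8068987e27f071e8108258508298a882d7a38007bb81f9158039037dd80386770382b6738488028387cd7c58197ec8c681285f7b58247ad8308277bf0111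
 z z)) (n 0 z (n 0 (n
 0x243902e1c8150e4037308207e18208608228228207e18608207df82082186081f8208208607e08207df7df82181f8210101
 z (n 8795995 z z)) z)))) (n 0 (n 0 z (n 0 z (n 0 z (n 0 z z)))) (n 0 (n 0 z (n 0 z (n 0 z (n 0
 (n
 0x1d87200990e4006a1c800141080054107a885373f7b990180c84470d86977f7b78b480b7e87007e58188968538e78147df8057a87f89a27be95b7d97e586d6618536108168177ed8047e380481a9387e78a378187875b83b84a7a50151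
 z (n
 0x161c8290e40b8728207e07e08618607e28207e18a081f7de8208218607df8208217e07df8217de7df86086086100c1
 z z)) z)))) (n 0 (n 0 (n
 0x6b0a800f215000542a00054107da81c7ca7ba85e7e38467a28597c77e58338068167b88167ea83a7fb8537d97f78077e17fa8657ef8517fc81681b79a8187987fe7fc7e080a80d7fe80f8477e88367d783f7c681381a7e90111
 z (n
 0x2875005b0a800d215000142a00054107e181a7d27c484c7e583a7b484e7cf7e782a8078137c78137ed8307fc8437d87fe8067ea7f88527f083f7fc8138157ad8167b47f87fd7e080c80f7fd8108367e982f7e18367cc8108187ed0151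
 z z)) (n 0 (n
 0x1c8728a182281f82085f7e282082185e81f81f8e286181e8a27e086081f79f7e17a086081e8a289f0041 z (n
 0x16c2a00348547b381f7907ad8ce7fb85e73b8627997eb8877ec7fd7428018038768278b48367a580679d8199197e28fe7f98018506ea82867384d8018197d67de8147f28f27f986179b85b7a78318177d00091
 z z)) (n 0 z (n 0 (n
 0x321c8170e40a8728608218208608618218207e189f81f7df82182182181f8208208207e08207df79f86086082000c1
 z (n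
 0x6b0a800f215000542a00054107da81c7ca7ba85e7e38467a28597c77e58338068167b88167ea83a7fb8537d97f78077e17fa8657ef8517fc81681b79a8187987fe7fc7e080a80d7fe80f8477e88367d783f7c681381a7e90111
 z z)) z)))) (n 0 (n 0 z (n 0 z (n 0 z (n 0 z z)))) (n 0 (n 0 z (n 0 z (n 0 z (n 0 z z)))) (n 0
 (n 0 z (n 0 z (n 0 z (n 0 z z)))) z)))))))))))))) (n 1 (n 0 (n 0 z (n 0 z (n 0 z (n 0 z z))))
 (n 0 (n 0 z (n 0 z (n 0 z (n 0 z z)))) (n 0 (n 0 z (n 0 z (n 0 z (n 0 z z)))) (n 0 (n 0 z (n 0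
 z (n 0 z (n 0 (n 8660747 z z) z)))) (n 0 (n 0 z (n 0 z (n 0 z (n 0 z z)))) (n 0 (n 0 z (n 0 (n
 0x50eb0a620381d89f85e7a18208a179d81d7639228218217df86086089f7a18218217e082085f7e07a089f0801 z
 z) (n 0 z (n 0 z z)))) (n 0 (n 0 z (n 0 z (n 0 z (n 0 z z)))) (n 0 (n 0 z (n 0 z (n 0 z (n 0 z
 z)))) (n 0 (n 0 z (n 0 z (n 0 z (n 0 z z)))) (n 0 (n 0 z (n 0 z (n 0 z (n 0 (n 8660747 z z)
 z)))) (n 0 (n 0 z (n 0 z (n 0 z (n 0 z z)))) z))))))))))) (n 0 (n 0 (n 0 z (n 0 z (n 0 z (n 0 z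
 z)))) (n 0 (n 0 z (n 0 z (n 0 z (n 0 z z)))) (n 0 (n 0 z (n 0 z (n 0 z (n 0 z z)))) (n 0 (n 0 z
 (n 0 z (n 0 z (n 0 z z)))) (n 0 (n 0 z (n 0 z (n 0 z (n 0 z z)))) (n 0 (n 0 z (n 0 z (n 0 z (n
 0 z z)))) (n 0 (n 0 z (n 0 z (n 0 z (n 0 z z)))) (n 0 (n 0 z (n 0 (n
 0x6b0e400f21c800543900054107da81c7ca7ba85e7e38467a28597c77e58338068167b88167ea83a7fb8537d97f78077e17fa8657ef8517fc81681b79a8187987fe7fc7e080a80d7fe80f8477e88367d783f7c681381a7e90111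
 z z) (n 0 z (n 0 z z)))) (n 0 (n 0 z (n 0 z (n 0 z (n 0 (n
 0x2ac39005c87276983d72475d9927f78b867e8be7377d79087d97f968e8018068e684c96086974e80c73f831a247c69ef7f080389d5e084f4f98978018307af7bf8267e59db7f18bd73c8b275186182f7a20091
 z z) z)))) (n 0 (n 0 (n
 0x6160840d241080aa8217ee91974970685d71c8db78e9f072170d8098ab81a81f8237e485a82c81d64395783485476c89a76d7987bd8257d37118c897b66880e63093a8f47698f97a46f58e883692b6e67f08d77cf00d1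
 z (n 7538779 z z)) (n 0 (n
 0x6160840d241080b28217ee91974970685e71c8db78d9f172270d80a8aa81b81f8237e385a82c81d64395783485576b89a76d7997be8257d47128c897b66980e63193a8f37698f97a36f58e883692c6e67ef8d67cf00d1
 z (n
 0x13d8210299042024a084002b9800216207f58e477b7398437488b57a698d7527437fa88481382581d7ed84382180d6a790b82884378d8627947997d381b7d27568909436c480d6928f18c178e8cb7a87368a482f8eb7327ee8997e40151
 z z)) (n 0 z (n 0 (n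
 0x13d8210299042024a084002b9800216207f58e477b7398437488b57a698d7527437fa88481382581d7ed84382180d6a790b82884378d8627947997d381b7d27568909436c480d6928f18c178e8cb7a87368a482f8eb7327ee8997e40151
 z (n 8660747 z z)) z)))) (n 0 (n 0 z (n 0 z (n 0 z (n 0 z z)))) (n 0 (n 0 z (n 0 z (n 0 z (n 0
 z z)))) (n 0 (n 0 (n
 0x1d90e801ae1d001d41080006208177d180286a7df84479d84377e82882c8167e07c37e77f28577d683f7c78617bf80480d82381d83d82d7e27e581f7ef7f279b81c80b8427c47af81d7f180a8337f682d7b682880e8077ee0111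
 z (n
 0x13d8210299042024a084002b9800216207f58e477b7398437488b57a698d7527437fa88481382581d7ed84382180d6a790b82884378d8627947997d381b7d27568909436c480d6928f18c178e8cb7a87368a482f8eb7327ee8997e40151
 z z)) (n 0 (n
 0xd8720643902e1c8150e4008728608217e08608607e281f8208208207e08608207df8607a07e081f7df8217e07df81f8218600141
 z (n
 0x3d6084086410806a8217f58b478b76083c76e88c7b793d77276480586d8118138177ee83981c8136e38db8218367a18647a27be7d58187e47678808f36fb8096d78c989c7a089f7c57558948238bf74c7f688a7e000d1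
 z z)) (n 0 z (n 0 (n
 0x2d87200690e4000a1c800141080054107e181a7d27c484c7e583a7b484e7cf7e782a8078137c78137ed8307fc8437d87fe8067ea7f88527f083f7fc8138157ad8167b47f87fd7e080c80f7fd8108367e982f7e18367cc8108187ed0151
 z (n 8660747 z z)) z)))) z))))))))))))) z))))))))))))))))))))) z)))) z) z)))) (n
 0x3125488929a828b2424993024b584124c41194c08e98c0098901ac280 (n 0x9892 (n 591 (n 3282443 z (n
 0xca6ca24037a182082082182182081f8607e186182082082082081f85f82082082082082082082086081f0801 z (n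
 0x11d63180d7ed80e81c7ed8087e48207f080680180b7ec8527e68258148377ad87476087c7f77a48187b68187e57f07a28298597a68a27887f082e80c8427df83c7cd8118648038247d87a683a7ab0051
 z (n 2 z (n 10 z (n
 0x1cc86c824037dc8317ed7f181980c80f7f07ef8107e37f981e7ba7d97df80d7e783b7fb84a7d97fb8357fc8747ef8507ce7dd8157b583477e81681180980b7e47de7da8158157d88287fc8187de82c8200811
 z (n 18 z z))))))) (n 257 (n 26 z (n 3278363 z (n 0 z (n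
 0x1296437c18547e679c8287d98647a88657a983879b85b7c27eb7be85280b83c77f8517cc81b8847d887d7db8707967b08227a588477c80d82578e8b67ce78c7de7ef8067df8cb83f7f378286886c0051
 z (n 0 z (n 34 z (n 0 z (n 42 z (n
 0x21951950c0e00eca6ca60037e57e48127a68237c28697f185d7da7f680e7d98267fa8587b37fa7cb83073c86082c81e80775f8187698478497fe8b27a38fe7877e28057ba83c8288297a68548057b37ff87385d7cf7cb1011
 z z))))))))) (n 129 (n 50 z (n 3212843 z (n 0 z z))) (n 27 (n 58 z (n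
 0xeca4ca42077d47da81c7a58087cf84b80b8407e683e7ed7e67f581d7f07e382580e7e47d782a7fd8317f075d8117b882b8077f18887db89e7a87ee8257f380a7fe80c7ad82c7e97ba82882383d7f38040811
 z (n 0 z (n 0 z (n
 0x6ca4ca42077c781380579a80f7d28607d685a7b78417ca81a7ee8127ff81b8138197c67d78248088687e27be7f47d67ea7fb7f88328118457c180a7d685d7ef7c280b7c781e7f68418298057f083a8290811
 z (n
 0xcca6a204077e17e18207e08207e085e8607e18a182081e82081e82086081e7a082182081f81f81f8218200801 z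
 (n 0xca4ca42037e18208608208207e181f8607e186082082082086081f8207e07e08208208208608208208200801 z
 (n 0 z (n
 0xca4ca42037e28218607e08207e181e8607e086182086082081e82082082082081f8207df8208208208200801 z (n
 0 z (n
 0x2ca8ca42037608a17e07e182185f81e8a07e182182082082081f82081f7e081f82181f7e086085f82085f0801 z
 (n 0 z (n 66 z (n 0 z (n 0 z (n 2164283 z z)))))))))))))))) (n 1 (n 74 z (n 0 z (n 0 z (n
 2164299 z z)))) (n 0 (n 82 z (n 2164315 z (n 0 z z))) z)))))) (n 129 (n 0 (n 0 z (n 0 z (n 1179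
 (n 0 z (n 0 z (n 0 z (n 0 z (n 0 z z))))) (n 1179 (n 0 z (n 0 z (n 2 (n 0 z (n 1 z (n 1 z (n 1
 z (n 1 z (n 1 z z)))))) (n 0 z (n 0 z z))))) (n 1179 (n 0 z (n 0 z (n 0 z (n 0 z (n 0 z z)))))
 (n 343 (n 2 (n 1 z (n 1 z (n 1 z (n 1 z z)))) (n 0 z (n 0 z (n 0 z (n 0 z (n 0 z (n 0 z
 z))))))) (n 487 (n 2 (n 0 z (n 1 z (n 1 z z))) (n 0 z (n 0 z (n 0 z (n 0 z (n 0 z (n 0 z
 z))))))) (n 487 (n 0 z (n 0 z (n 0 z (n 0 z (n 0 z (n 0 z (n 0 z z))))))) (n 51 (n 2 (n 1 z z)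
 (n 0 z (n 0 z (n 0 z (n 0 z (n 0 z (n 0 z z))))))) (n 485 (n 0 z (n 0 z (n 0 z (n 0 z (n 2 z (n
 0 z (n 0 z (n 0 z (n 0 z (n 0 z (n 0 z z))))))))))) z)))))))))) (n 0 (n 0 z (n 187 (n 0 z (n 2
 (n 0 z (n 0 z (n 1 z (n 1 z (n 1 z (n 1 z (n 1 z z))))))) (n 0 z (n 0 z (n 0 z (n 0 z (n 0 z (n
 0 z z)))))))) (n 187 (n 0 z (n 0 z (n 0 z (n 0 z (n 0 z (n 0 z (n 0 z (n 0 z z)))))))) (n 187
 (n 0 z (n 0 z (n 0 z (n 0 z (n 2 (n 1 z (n 1 z (n 1 z (n 1 z (n 1 z z))))) (n 0 z (n 0 z (n 0 z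
 z)))))))) (n 183 (n 0 z (n 0 z (n 0 z (n 0 z (n 0 z (n 0 z (n 0 z (n 0 z (n 0 z (n 0 z (n 0 z
 z))))))))))) (n 185 (n 0 z (n 0 z (n 0 z (n 0 z (n 0 z (n 0 z (n 0 z (n 0 z (n 0 z (n 0 z (n 0
 z (n 0 z (n 0 z (n 0 z (n 0 z (n 0 z (n 0 z (n 0 z (n 0 z (n 0 z (n 0 z (n 0 z (n 0 z (n 0 z (n
 0 z (n 0 z (n 0 z z))))))))))))))))))))))))))) (n 185 (n 0 z (n 0 z (n 2 (n 1 z (n 1 z z)) (n 0
 z (n 0 z (n 0 z (n 0 z (n 0 z (n 0 z (n 0 z (n 0 z (n 0 z (n 0 z (n 0 z (n 0 z (n 0 z (n 0 z (n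
 0 z (n 0 z (n 0 z (n 0 z (n 0 z (n 0 z (n 0 z (n 0 z (n 0 z (n 0 z z)))))))))))))))))))))))))))
 (n 205 (n 0 z (n 0 z (n 0 z (n 0 z (n 0 z (n 0 z (n 0 z (n 0 z (n 0 z (n 0 z (n 0 z (n 0 z (n 0
 z (n 0 z (n 0 z (n 0 z (n 0 z (n 0 z (n 0 z (n 0 z (n 0 z (n 0 z (n 0 z (n 0 z (n 0 z (n 0 z (n
 0 z (n 0 z (n 0 z (n 0 z z)))))))))))))))))))))))))))))) (n 157 (n 0 z (n 0 z (n 0 z (n 0 z (n
 0 z (n 0 z (n 0 z (n 0 z (n 0 z (n 0 z (n 0 z z))))))))))) z))))))))) (n 0 (n 515 (n 2 (n 0 z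
 (n 0 z (n 2 (n 0 z (n 0 z (n 0 (n 4668 z z) (n 0 z (n 0 z (n 0 z z)))))) (n 2 (n 0 z (n 0 z (n
 0 (n 2028 z z) (n 0 z (n 0 z (n 0 z z)))))) (n 2 (n 0 z (n 0 z (n 0 z (n 0 z (n 0 z (n 0 z
 z)))))) (n 2 (n 0 z (n 0 z (n 0 z (n 0 z (n 0 z (n 0 z z)))))) (n 2 (n 0 z (n 0 z (n 0 z (n 0 z
 (n 0 z (n 0 z z)))))) z))))))) (n 0 z (n 0 z (n 0 z (n 0 z (n 0 z z)))))) (n 515 (n 0 z (n 0 z
 (n 0 z (n 0 z (n 2 (n 0 z (n 1 z (n 1 z (n 1 z (n 1 z (n 1 z z)))))) (n 0 z z)))))) (n 515 (n 0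
 z (n 0 z (n 0 z (n 0 z (n 0 z (n 2 (n 1 z (n 1 z (n 1 z (n 1 z (n 1 z z))))) z)))))) (n 1167 (n
 0 z (n 0 z (n 0 z (n 0 z (n 0 z (n 0 z (n 0 z (n 0 z (n 0 z (n 0 z (n 0 z (n 0 z (n 0 z (n 0 z
 (n 0 z (n 0 z (n 0 z (n 0 z (n 0 z (n 0 z (n 0 z (n 0 z (n 0 z (n 0 z (n 2 (n 1 z (n 1 z (n 1 z
 (n 1 z z)))) (n 0 z (n 0 z (n 0 z (n 0 z (n 0 z (n 0 z (n 0 z z))))))))))))))))))))))))))))))))
 (n 507 (n 2 (n 0 z (n 1 z (n 1 z z))) (n 0 z (n 0 z (n 0 z (n 0 z (n 0 z (n 0 z z))))))) (n 507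
 (n 0 z (n 0 z (n 0 z (n 0 z (n 0 z (n 0 z (n 6358827 z z))))))) (n 489 (n 0 z (n 0 z (n 0 z (n
 0 z (n 0 z (n 0 z (n 0 z (n 0 z (n 0 z (n 2 (n 1 z z) (n 0 z (n 0 z (n 0 z z))))))))))))) (n
 485 (n 0 z (n 0 z (n 0 z (n 0 z (n 0 z (n 2 z (n 0 z (n 0 z (n 0 z (n 0 z z)))))))))) z))))))))
 (n 0 (n 0 z (n 0 z (n 347 (n 2 (n 1 z (n 1 z (n 1 z (n 1 z z)))) (n 0 z (n 0 z (n 0 z (n 0 z (n
 0 z (n 0 z (n 0 z z)))))))) (n 507 (n 6426739 z (n 0 z (n 0 z (n 0 z (n 0 z (n 0 z (n 0 z (n 0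
 z (n 0 z (n 0 z (n 0 z (n 0 z (n 0 z z))))))))))))) (n 507 (n 0 z (n 0 z (n 0 z (n 0 z (n 0 z
 (n 0 z (n 0 z (n 0 z (n 0 z (n 0 z (n 2 (n 1 z (n 1 z z)) (n 0 z (n 0 z z))))))))))))) (n 339
 (n 6426739 z (n 0 z (n 0 z (n 0 z (n 0 z (n 0 z (n 0 z (n 0 z z)))))))) (n 337 (n 6426739 z (n
 0 z (n 0 z (n 0 z z)))) z))))))) (n 0 (n 0 z (n 423 (n 0 z (n 0 z (n 0 z (n 0 z (n 0 z (n 0 z
 (n 0 z (n 0 z (n 0 z (n 0 z (n 0 z z))))))))))) (n 425 (n 0 z (n 0 z (n 0 z (n 0 z (n 0 z (n 0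
 z (n 0 z (n 0 z (n 0 z (n 0 z (n 0 z z))))))))))) (n 425 (n 2 (n 1 z (n 1 z z)) (n 0 z (n 0 z
 (n 0 z (n 0 z (n 0 z (n 0 z (n 0 z (n 0 z (n 0 z (n 0 z z))))))))))) (n 51 (n 0 z (n 0 z (n 0 z
 (n 0 z (n 0 z (n 0 z (n 0 z (n 0 z (n 0 z (n 0 z (n 0 z z))))))))))) (n 397 (n 0 z (n 0 z (n 0
 z (n 0 z (n 0 z (n 0 z (n 0 z z))))))) z)))))) (n 0 (n 19 (n 2 (n 1 z (n 1 z (n 1 z (n 1 z
 z)))) (n 0 z (n 0 z (n 0 z (n 0 z (n 0 z (n 0 z z))))))) (n 487 (n 2 (n 0 z (n 1 z (n 1 z z)))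
 (n 0 z (n 0 z (n 0 z (n 0 z (n 0 z (n 0 z (n 0 z (n 0 z (n 0 z z)))))))))) (n 487 (n 0 z (n 0 z
 (n 0 z (n 0 z (n 0 z (n 0 z (n 0 z (n 0 z (n 0 z (n 0 z z)))))))))) (n 3 (n 2 (n 1 z z) (n 0 z
 (n 0 z (n 0 z (n 0 z (n 0 z (n 0 z z))))))) (n 485 (n 0 z (n 0 z (n 0 z (n 0 z (n 2 z (n 0 z (n
 0 z (n 0 z z)))))))) z))))) (n 0 (n 661 (n 0 z (n 0 z (n 0 z (n 0 z (n 0 z (n 0 z (n 0 z (n 0 z
 z)))))))) (n 661 (n 0 z (n 0 z (n 2 (n 1 z (n 1 z z)) (n 0 z (n 0 z (n 0 z (n 0 z (n 0 z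
 z)))))))) (n 255 (n 0 z (n 0 z (n 0 z (n 0 z (n 0 z z))))) (n 253 (n 0 z (n 0 z (n 0 z (n 0 z
 (n 0 z (n 0 z (n 0 z (n 0 z (n 0 z z))))))))) z)))) (n 0 (n 0 z (n 51 (n 0 z (n 0 z (n 0 z (n 0
 z z)))) (n 49 (n 0 z (n 0 z (n 0 z (n 0 z (n 0 z (n 0 z (n 0 z (n 0 z (n 0 z z))))))))) z))) (n
 0 (n 63 (n 2 (n 1 z z) (n 0 z (n 0 z (n 0 z (n 0 z (n 0 z z)))))) (n 61 (n 2 z (n 0 z (n 0 z (n
 0 z (n 0 z (n 0 z z)))))) z)) (n 0 (n 1 (n 0 z (n 0 z (n 0 z (n 0 z (n 0 z (n 0 z z)))))) z) (n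
 0 z z))))))))))) (n 0 (n 1 (n 4732 z (n 2 z (n 4732 z (n 4732 z (n 4732 z (n 4732 z z)))))) (n
 1 (n 3212843 z (n 3212843 z (n 3212843 z (n 3212843 z (n 3212843 z (n 3212843 z z)))))) (n 0 z
 z))) (n 0 (n 0x9a828b9ac209ba63009ac280 (n 0 (n 0 (n 7749923 z (n 7749923 z (n 7749923 z (n
 7749923 z (n 7749923 z (n 7749923 z z)))))) z) (n 0 (n 591 (n 1 (n 3282699 z (n 7475299 z (n
 3282699 z (n 3282699 z (n 3282699 z (n 3282699 z z)))))) (n 1 (n 748 z (n 7475299 z (n 748 z (n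
 748 z (n 7677515 z (n 748 z z)))))) (n 1 (n 7749923 z (n 7749923 z (n 7749923 z (n 7749923 z (n
 7749923 z (n 7749923 z z)))))) (n 1 (n 748 z (n 7475299 z (n 748 z (n 2 z (n 7677515 z (n 748 z
 z)))))) (n 1 (n 7749923 z (n 7749923 z (n 7749923 z (n 7749923 z (n 7749923 z (n 7749923 z
 z)))))) (n 1 (n
 0x24e86e824037d283d7ea7ed81f80f8137ec7eb8147dd7f78247a97cf7d68107e184b7fa85c7d07fa8427fb8917eb8647c17d581b7a284275d81c81580b80d7dd7d67d281a81a7ce8337fb81e7d68378280811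
 z (n 7475299 z (n 748 z (n 748 z (n 748 z (n 748 z z)))))) (n 1 (n 6494027 z (n 7475299 z (n
 748 z (n 7677515 z (n 10 z (n 748 z z)))))) z))))))) (n 198 (n 1 (n 7749923 z (n 7749923 z (n
 7749923 z (n 7749923 z (n 7749923 z (n 7749923 z z)))))) (n 1 (n 7475299 z (n 7475299 z (n
 7475299 z (n 7475299 z (n 7475299 z (n 7475299 z z)))))) (n 0 z (n 1 (n 1708 z (n 1708 z (n
 1708 z (n 1708 z (n 7746891 z (n 18 z z)))))) (n 1 (n 2060 z (n 7746891 z (n 1708 z (n 5519147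
 z (n 1708 z (n 1708 z z)))))) (n 1 (n 1708 z (n 1708 z (n 1708 z (n 7746891 z (n 1708 z (n
 0x21d51d50c0e00eea6ea60037e57e48127a68237c28697f185d7da7f680e7d98267fa8587b37fa7cb83073c86082c81e80775f8187698478497fe8b27a38fe7877e28057ba83c8288297a68548057b37ff87385d7cf7cb1011
 z z)))))) (n 1 (n 7746891 z (n 7677515 z (n 7677515 z (n 7677515 z (n 7677515 z (n 7677515 z
 z)))))) z))))))) (n 129 (n 1 (n 7753995 z (n 7475299 z (n 7753995 z (n 7753995 z (n 7753995 z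
 (n 7753995 z z)))))) (n 1 (n 3213099 z (n 7475299 z (n 3213099 z (n 3213099 z (n 3213099 z (n
 3213099 z z)))))) (n 0 z z))) (n 25 (n 1 (n 7749923 z (n 7749923 z (n 7749923 z (n 7749923 z (n
 7749923 z (n 7749923 z z)))))) (n 0 z (n 1 (n 2164539 z (n 2164539 z (n 2164539 z (n 2164539 z
 (n 2164539 z (n 2164539 z z)))))) (n 1 (n 3644 z (n 4261675 z (n 3644 z (n 7677515 z (n 26 z (n
 6637371 z z)))))) z)))) (n 27 (n 1 (n 7749923 z (n 7749923 z (n 7749923 z (n 7749923 z (n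
 7749923 z (n 7749923 z z)))))) (n 0 z (n 1 (n 2164539 z (n 2164539 z (n 2164539 z (n 2164539 z
 (n 2164539 z (n 2164539 z z)))))) (n 1 (n 4732 z (n 4732 z (n 4732 z (n 1036 z (n 3213099 z (n
 4732 z z)))))) z)))) (n 0 (n 1 (n 7749923 z (n 7749923 z (n 7749923 z (n 7749923 z (n 7749923 z
 (n 7749923 z z)))))) (n 1 (n 7753995 z (n 7475299 z (n 7753995 z (n 7753995 z (n 7753995 z (n
 7753995 z z)))))) (n 0 z z))) (n 129 (n 1 (n 7753995 z (n 7749923 z (n 7753995 z (n 7753995 z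
 (n 7753995 z (n 7753995 z z)))))) (n 1 (n 3213099 z (n 7749923 z (n 3213099 z (n 3213099 z (n
 3213099 z (n 3213099 z z)))))) (n 0 z z))) z))))))) (n 0 (n 0 (n 0 z (n 0 z (n 0 z (n 0 z z))))
 (n 0 (n 0 z (n 0 z (n 0 z z))) (n 0 (n 0 z (n 0 z z)) (n 0 (n 0 z z) z)))) (n 0 (n 213 (n 0 (n
 0 z (n 0 z (n 0 z (n 0 z z)))) (n 0 (n 0 z (n 0 z (n 0 z (n 0 z z)))) (n 0 (n 0 z (n 0 z (n 0 z
 (n 0 z z)))) (n 0 (n 0 z (n 0 (n 8523875 z z) (n 0 z (n 0 z z)))) (n 0 (n 0 z (n 0 z (n 0 z (n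
 0 z z)))) (n 0 (n 0 z (n 0 z (n 0 z (n 0 z z)))) (n 0 (n 0 z (n 0 z (n 0 z (n 0 z z)))) (n 0 (n
 0 z (n 0 z (n 0 z (n 0 z z)))) z)))))))) (n 333 (n 0 (n 0 z (n 0 z (n 0 z (n 0 z z)))) (n 0 (n
 0 z (n 0 z (n 0 z (n 0 z z)))) (n 0 (n 0 z (n 0 z (n 0 z (n 0 z z)))) (n 0 (n 0 z (n 0 z (n 0 z
 (n 0 z z)))) (n 0 (n 0 z (n 0 z (n 0 z (n 0 z z)))) (n 0 (n 0 z (n 0 z (n 0 z (n 0 z z)))) (n 0
 (n 0 z (n 0 z (n 0 z (n 0 z z)))) (n 0 (n 0 z (n 0 z (n 0 z (n 0 z z)))) (n 0 (n 0 z (n 0 z (n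
 0 z (n 0 z z)))) (n 0 (n 0 z (n 0 z (n 0 z (n 0 z z)))) (n 0 (n 0 z (n 0 z (n 0 z (n 0 z z))))
 z))))))))))) (n 331 (n 0 (n 0 z (n 0 z (n 0 z (n 0 z z)))) (n 0 (n 0 z (n 0 z (n 0 z (n 0 z
 z)))) (n 0 (n 0 (n 8591211 z z) (n 0 z (n 0 (n
 0x1298647c18547e679c8287d98647a88657a983879b85b7c27eb7be85280b83c77f8517cc81b8847d887d7db8707967b08227a588477c80d82578e8b67ce78c7de7ef8067df8cb83f7f378286886c0051
 z z) (n 0 z z)))) (n 0 (n 0 z (n 0 z (n 0 z (n 0 z z)))) (n 0 (n 0 z (n 0 z (n 0 z (n 0 z z))))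
 (n 0 (n 0 z (n 0 (n
 0x11d86480d7ed80e81c7ed8087e48207f080680180b7ec8527e68258148377ad87476087c7f77a48187b68187e57f07a28298597a68a27887f082e80c8427df83c7cd8118648038247d87a683a7ab0051
 z (n
 0x11d86480d7ed80e81c7ed8087e48207f080680180b7ec8527e68258148377ad87476087c7f77a48187b68187e57f07a28298597a68a27887f082e80c8427df83c7cd8118648038247d87a683a7ab0051
 z z)) (n 0 z (n 0 z z)))) (n 0 (n 0 z (n 0 z (n 0 z (n 0 z z)))) (n 0 (n 0 z (n 0 z (n 0 z (n 0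
 z z)))) (n 0 (n 0 z (n 0 z (n 0 z (n 0 z z)))) (n 0 (n 0 z (n 0 z (n 0 z (n 0 z z)))) (n 0 (n 0
 z (n 0 z (n 0 z (n 0 z z)))) z))))))))))) (n 455 (n 0 (n 0 z (n 0 z (n 0 z (n 0 z z)))) (n 0 (n
 0 z (n 0 z (n 0 z (n 0 z z)))) (n 0 (n 0 z (n 0 z (n 0 z (n 0 z z)))) (n 0 (n 0 z (n 0 (n
 8523875 z z) (n 0 z (n 0 z z)))) (n 0 (n 0 (n 8872467 z z) (n 0 z (n 0 (n
 0x1298647c18547e679c8287d98647a88657a983879b85b7c27eb7be85280b83c77f8517cc81b8847d887d7db8707967b08227a588477c80d82578e8b67ce78c7de7ef8067df8cb83f7f378286886c0051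
 z z) (n 0 z z)))) (n 0 (n 0 (n 8872467 z z) (n 0 z (n 0 (n
 0x1298647c18547e679c8287d98647a88657a983879b85b7c27eb7be85280b83c77f8517cc81b8847d887d7db8707967b08227a588477c80d82578e8b67ce78c7de7ef8067df8cb83f7f378286886c0051
 z z) (n 0 z z)))) (n 0 (n 0 z (n 0 z (n 0 z (n 0 z z)))) (n 0 (n 0 (n 8872467 z z) (n 0 z (n 0
 (n
 0x1298727c18547e679c8287d98647a88657a983879b85b7c27eb7be85280b83c77f8517cc81b8847d887d7db8707967b08227a588477c80d82578e8b67ce78c7de7ef8067df8cb83f7f378286886c0051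
 z z) (n 0 z z)))) (n 0 (n 0 z (n 0 z (n 0 z (n 0 z z)))) (n 0 (n 0 z (n 0 z (n 0 z (n 0 z z))))
 (n 0 (n 0 (n
 0x2d87285d82179f7df81d8a086076182282081f8df86185e7e085f86081f82082089f92282285f7a00041 z (n
 0x1298647c18547e679c8287d98647a88657a983879b85b7c27eb7be85280b83c77f8517cc81b8847d887d7db8707967b08227a588477c80d82578e8b67ce78c7de7ef8067df8cb83f7f378286886c0051
 z z)) (n 0 z (n 0 (n
 0xb98647d88367ef7c08197e78407c88417c88247c083a7d87f37d68358078277ae8347df8118557e684f7e98477bc7cd8167c68547ac8088187b78757e07b57eb7f58047eb8828287f87af8438450051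
 z (n 7612475 z z)) (n 0 (n
 0x1298647c18547e679c8287d98647a88657a983879b85b7c27eb7be85280b83c77f8517cc81b8847d887d7db8707967b08227a588477c80d82578e8b67ce78c7de7ef8067df8cb83f7f378286886c0051
 z (n 8455979 z z)) z)))) (n 0 (n 0 (n
 0x358727c37fe81377b8137b18777e08837ab83d7e47f183183c8357e68337d580774287d81084d7dd73480676f82d8267f08927ae8fe7707fc7c58428197f382d7a183681f7fe82082481f8147ee0051
 z (n
 0x298728087fd7ff8197fc80f7e780b7e58148008028017fd7f07ed8128098028078247eb7f77e08098198058267f37d580b7f48067da80d7fa81f7f88027f77f58027fe7ff8098037f27df80e8000051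
 z z)) (n 0 z (n 0 (n
 0x498728117fa7fe8307f781d7d08167cb8267ff8038017fa7e07db82381180580e8467d67ed7c181283180984b7e77ac8177e880b7b58197f583d7f18037ef7ea8057fd7fd8138067e77be81d8000051
 z (n
 0x1298647c18547e679c8287d98647a88657a983879b85b7c27eb7be85280b83c77f8517cc81b8847d887d7db8707967b08227a588477c80d82578e8b67ce78c7de7ef8067df8cb83f7f378286886c0051
 z z)) (n 0 (n
 0x1298647c18547e679c8287d98647a88657a983879b85b7c27eb7be85280b83c77f8517cc81b8847d887d7db8707967b08227a588477c80d82578e8b67ce78c7de7ef8067df8cb83f7f378286886c0051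
 z (n 8455979 z z)) z)))) (n 0 (n 0 z (n 0 z (n 0 z (n 0 (n
 0x1298647c18547e679c8287d98647a88657a983879b85b7c27eb7be85280b83c77f8517cc81b8847d887d7db8707967b08227a588477c80d82578e8b67ce78c7de7ef8067df8cb83f7f378286886c0051
 z (n 8455979 z z)) z)))) (n 0 (n 0 z (n 0 z (n 0 z (n 0 z z)))) (n 0 (n 0 z (n 0 z (n 0 z (n 0
 z z)))) (n 0 (n 0 z (n 0 (n
 0x11d87280d7ed80e81c7ed8087e48207f080680180b7ec8527e68258148377ad87476087c7f77a48187b68187e57f07a28298597a68a27887f082e80c8427df83c7cd8118648038247d87a683a7ab0051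
 z z) (n 0 z (n 0 z z)))) (n 0 (n 0 z (n 0 z (n 0 z (n 0 z z)))) (n 0 (n 0 (n 8591211 z z) (n 0
 z (n 0 z (n 0 z z)))) (n 0 (n 0 (n
 0xbd8648387c48118747da83a78c85478685c7ea82c7cc8397f67fb7fa8337c68587f88127e475d8197ce8188158257988028367ac8297ea7e48847ad83082d8007f280281f7a77f67d77c37fd7c00051
 z (n
 0x7d8648247da80b84a7e88257b68367b283b7f281c7df8257f97fd7fc8217db8397fb80b7ee7978107e081080e8187bd8018237ca81a7f27ee8547cb81f81d8007f68018147c77fa7e67d87fe7d70051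
 z z)) (n 0 (n
 0x7d8648247d980c84a7e78257b68367b283a7f281c7df8257f97fd7fc8217db8387fa80c7ee7978107e081080d8187bd8018227cb81a7f27ee8557cb81e81d8017f78028147c77f97e67d97fe7d70051
 z (n
 0xbd8648387c48118747da83a78c85478685c7ea82c7cc8397f67fb7fa8337c68587f88127e475d8197ce8188158257988028367ac8297ea7e48847ad83082d8007f280281f7a77f67d77c37fd7c00051
 z z)) (n 0 z (n 0 z z)))) (n 0 (n 0 z (n 0 (n
 0xbd8548387c48118747da83a78c85478685c7ea82c7cc8397f67fb7fa8337c68587f88127e475d8197ce8188158257988028367ac8297ea7e48847ad83082d8007f280281f7a77f67d77c37fd7c00051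
 z z) (n 0 z (n 0 z z)))) (n 0 (n 0 z (n 0 (n
 0x11d86480d7ed80e81c7ed8087e48207f080680180b7ec8527e68258148377ad87476087c7f77a48187b68187e57f07a28298597a68a27887f082e80c8427df83c7cd8118648038247d87a683a7ab0051
 z z) (n 0 z (n 0 z z)))) (n 0 (n 0 z (n 0 (n
 0xbd8648387c48118747da83a78c85478685c7ea82c7cc8397f67fb7fa8337c68587f88127e475d8197ce8188158257988028367ac8297ea7e48847ad83082d8007f280281f7a77f67d77c37fd7c00051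
 z z) (n 0 z (n 0 z z)))) (n 0 (n 0 z (n 0 z (n 0 z (n 0 z z)))) (n 0 (n 0 z (n 0 z (n 0 z (n 0
 z z)))) (n 0 (n 0 z (n 0 z (n 0 z (n 0 z z)))) (n 0 (n 0 (n
 0x30e6e42a0382081f8208208208208208208208208208207e081f8208608208208208208208608208207e00801 z
 z) (n 0 z (n 0 (n
 0xbb2439a81c1853751201810a50a42038207e081f8208218208208208208208208208208208208208208208208208208208208208201801
 z z) (n 0 z z)))) (n 0 (n 0 (n 8782363 z z) (n 0 z (n 0 z (n 0 z z))))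
 z))))))))))))))))))))))))))) (n 454 (n 0 (n 0 z (n 0 z (n 0 z (n 0 z z)))) (n 0 (n 0 z (n 0 z
 (n 0 z (n 0 z z)))) (n 0 (n 0 z (n 0 z (n 0 z (n 0 z z)))) (n 0 (n 0 z (n 0 z (n 0 z (n 0 z
 z)))) (n 0 (n 0 z (n 0 z (n 0 z (n 0 z z)))) (n 0 (n 0 z (n 0 z (n 0 z (n 0 z z)))) (n 0 (n 0 z
 (n 0 z (n 0 z (n 0 z z)))) (n 0 (n 0 z (n 0 z (n 0 z (n 0 z z)))) (n 0 (n 0 z (n 0 z (n 0 z (n
 0 z z)))) (n 0 (n 0 (n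
 0x30c90a4e0382082082182081f82081f82081f86082082082181f82082082082082082082082081f8208200801 z
 z) (n 0 z (n 0 (n
 0x1298707c18547e679c8287d98647a88657a983879b85b7c27eb7be85280b83c77f8517cc81b8847d887d7db8707967b08227a588477c80d82578e8b67ce78c7de7ef8067df8cb83f7f378286886c0051
 z z) (n 0 z z)))) (n 0 (n 0 z (n 0 z (n 0 z (n 0 z z)))) z))))))))))) (n 450 (n 0 (n 0 z (n 0 z
 (n 0 z (n 0 z z)))) (n 0 (n 0 z (n 0 z (n 0 z (n 0 z z)))) (n 0 (n 0 z (n 0 z (n 0 z (n 0 z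
 z)))) (n 0 (n 0 (n 6637691 z z) (n 0 z (n 0 z (n 0 z z)))) (n 0 (n 0 z (n 0 z (n 0 z (n 0 z
 z)))) (n 0 (n 0 (n 6621243 z z) (n 0 z (n 0 (n 6621243 z z) (n 0 z z)))) (n 0 (n 0 z (n 0 z (n
 0 z (n 0 z z)))) (n 0 (n 0 (n
 0x11d85480d7ed80e81c7ed8087e48207f080680180b7ec8527e68258148377ad87476087c7f77a48187b68187e57f07a28298597a68a27887f082e80c8427df83c7cd8118648038247d87a683a7ab0051
 z (n
 0x11d85480d7ed80e81c7ed8087e48207f080680180b7ec8527e68258148377ad87476087c7f77a48187b68187e57f07a28298597a68a27887f082e80c8427df83c7cd8118648038247d87a683a7ab0051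
 z z)) (n 0 (n
 0x11d85480d7ed80e81c7ed8087e48207f080680180b7ec8527e68258148377ad87476087c7f77a48187b68187e57f07a28298597a68a27887f082e80c8427df83c7cd8118648038247d87a683a7ab0051
 z (n
 0x11d85480d7ed80e81c7ed8087e48207f080680180b7ec8527e68258148377ad87476087c7f77a48187b68187e57f07a28298597a68a27887f082e80c8427df83c7cd8118648038247d87a683a7ab0051
 z z)) (n 0 z (n 0 z z)))) z)))))))) (n 591 (n 0 (n 0 z (n 0 z (n 0 z (n 0 z z)))) (n 0 (n 0 z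
 (n 0 z (n 0 z (n 0 z z)))) (n 0 (n 0 z (n 0 z (n 0 z (n 0 z z)))) (n 0 (n 0 z (n 0 z (n 0 z (n
 0 z z)))) (n 0 (n 0 z (n 0 z (n 0 z (n 0 z z)))) (n 0 (n 0 z (n 0 z (n 0 z (n 0 z z)))) (n 0 (n
 0 z (n 0 z (n 0 z (n 0 z z)))) (n 0 (n 0 z (n 0 z (n 0 z (n 0 z z)))) (n 0 (n 0 z (n 0 (n
 8523875 z z) (n 0 z (n 0 z z)))) (n 0 (n 0 (n 8591211 z (n
 0x873821501810e8ea46037e08207e082082086181f82182082082082082081f82082081f8208218218208208208208201001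
 z z)) (n 0 (n
 0x2d87285d82179f7df81d8a086076182282081f8df86185e7e085f86081f82082089f92282285f7a00041 z (n
 0x30eaea46078208208208208218208208208208208208208208208208208208208208208208208208208200801 z
 z)) (n 0 (n
 0x30650e2a078208207e08208208208208207e08208208208208208208208208208208208208208208208210801 z
 (n 0x10a70a24037a082082082182182081f8607e18208208208208208208208208208208208208208208208200801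
 z z)) (n 0 z z)))) (n 0 (n 0 z (n 0 (n 8523875 z z) (n 0 z (n 0 z z)))) (n 0 (n 0 (n
 0x10eaea460781c8a081f82282089e8217e082286085f82181e8628608608208608227df85f81f8208208200801 z
 (n
 0x1873871501810eb0a64037a18627e18617e082085e8217e07e082086082181f81f8218208208208208a08208208608201001
 z z)) (n 0 (n
 0x358727c37fe81377b8137b18777e08837ab83d7e47f183183c8357e68337d580774287d81084d7dd73480676f82d8267f08927ae8fe7707fc7c58428197f382d7a183681f7fe82082481f8147ee0051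
 z (n
 0x518728117fa7fe8307f781d7d08167cb8267ff8048007fa7e17db82381180580d8467d57ee7c281283180984a7e77ad8177e980b7b68197f483b7f18037ef7ea8057fd7fd8138067e77be81c8000051
 z z)) (n 0 (n
 0x10eaea460781c8a081f82282089e8217e082286085f82181e8628608608208608227df85f81f8208208200801 z
 (n
 0xa0ca1c54060130eaea46077e87fd8097e680d7f680f7fe80a7fa8307e58157f97ef7c682c83882d7f58687d47d380a7f381b80b8557c77bd80f7e28157ae80a81c81b8347ca7d27d77ff7ec80681b8297cb7bc84281c1011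
 z z)) (n 0 z z)))) (n 0 (n 0 z (n 0 z (n 0 z (n 0 z z)))) (n 0 (n 0 z (n 0 z (n 0 z (n 0 z
 z)))) (n 0 (n 0 z (n 0 z (n 0 z (n 0 z z)))) (n 0 (n 0 z (n 0 (n
 0x11d86580d7ed80e81c7ed8087e48207f080680180b7ec8527e68258148377ad87476087c7f77a48187b68187e57f07a28298597a68a27887f082e80c8427df83c7cd8118648038247d87a683a7ab0051
 z (n 7743579 z z)) (n 0 z (n 0 z z)))) (n 0 (n 0 (n 8523875 z (n 8523875 z z)) (n 0 z (n 0 (n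
 8523875 z (n 8523875 z z)) (n 0 z z)))) (n 0 (n 0 z (n 0 z (n 0 z (n 0 z z)))) (n 0 (n 0 (n
 8523875 z (n 8523875 z z)) (n 0 (n 8523875 z (n 8523875 z z)) (n 0 (n 8523875 z (n 8523875 z
 z)) (n 0 z z)))) (n 0 (n 0 z (n 0 z (n 0 z (n 0 z z)))) (n 0 (n 0 z (n 0 z (n 0 z (n 0 z z))))
 (n 0 (n 0 z (n 0 z (n 0 z (n 0 z z)))) (n 0 (n 0 z (n 0 z (n 0 z (n 0 z z)))) (n 0 (n 0 (n
 0x358727c37fe81377b8137b18777e08837ab83d7e47f183183c8357e68337d580774287d81084d7dd73480676f82d8267f08927ae8fe7707fc7c58428197f382d7a183681f7fe82082481f8147ee0051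
 z (n
 0x518728117f97fe8307f781d7d08167cb8267ff8048017f87e07db82481180680d8467d67ed7c281283180984a7e67ad8167e980c7b58197f583d7f18037ef7ea8057fd7fd8138057e87bf81d8000051
 z z)) (n 0 z (n 0 (n
 0x3187280b7fc7fe81f7fa8127e180e7de8187ff8038007fc7ec7e981680b80380882c7e57f47d980c82180682f7ef7cb80e7f18087d08107f88267f68027f57f28047fe7ff80c8047f07d68128010051
 z (n
 0x30eaea460785f8208208208208208217e08208608208208208208208208208208218208208208208208600801 z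
 z)) (n 0 (n
 0x30e7042a037e08207e082082082081f82082082082082082081f8608608208208208208208208208208200801 z
 (n 8804155 z z)) z)))) (n 0 (n 0 z (n 0 z (n 0 z (n 0 z z)))) (n 0 (n 0 (n 8523875 z z) (n 0 z
 (n 0 (n 8523875 z z) (n 0 z z)))) (n 0 (n 0 z (n 0 z (n 0 z (n 0 z z)))) (n 0 (n 0 z (n 0 z (n
 0 z (n 0 z z)))) (n 0 (n 0 (n 8782363 z z) (n 0 z (n 0 (n 8782363 z z) (n 0 z z)))) (n 0 (n 0 z
 (n 0 z (n 0 z (n 0 (n 8782363 z z) z)))) z)))))))))))))))))))))))))))))) (n 39 (n 0 (n 0 z (n 0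
 z (n 0 z (n 0 z z)))) (n 0 (n 0 z (n 0 z (n 0 z (n 0 z z)))) (n 0 (n 0 z (n 0 (n
 0x875875301830eaea46077df8218208208208208208208218208208208208208208208208208208208208208208208201001
 z (n 7743579 z z)) (n 0 z (n 0 z z)))) (n 0 (n 0 (n 7680131 z (n 7735371 z z)) (n 0 z (n 0 z (n
 0 z z)))) (n 0 (n 0 z (n 0 z (n 0 z (n 0 z z)))) (n 0 (n 0 (n 8591211 z (n
 0x1875752301810a70a640382082082086082082081f8207e082082081f7e08208208208208208208218208208208608201001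
 z z)) (n 0 (n
 0x2d87285d82179f7df81d8a086076182282081f8df86185e7e085f86081f82082089f92282285f7a00041 z (n
 0x30eaea46078208208208208218208208208208208208208208208208208208208208208208208208208200801 z
 z)) (n 0 (n
 0x30eaea460782082085f7e08218608608207e082082082082081f8208208208208208208208208208208200801 z
 (n
 0x1298707c18547e679c8287d98647a88657a983879b85b7c27eb7be85280b83c77f8517cc81b8847d887d7db8707967b08227a588477c80d82578e8b67ce78c7de7ef8067df8cb83f7f378286886c0051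
 z z)) (n 0 z z)))) (n 0 (n 0 z (n 0 z (n 0 z (n 0 z z)))) (n 0 (n 0 z (n 0 z (n 0 z (n 0 z
 z)))) (n 0 (n 0 z (n 0 z (n 0 z (n 0 z z)))) (n 0 (n 0 z (n 0 z (n 0 z (n 0 z z)))) (n 0 (n 0 z
 (n 0 z (n 0 z (n 0 z z)))) z))))))))))) (n 129 (n 0 (n 0 z (n 0 z (n 0 z (n 0 z z)))) (n 0 (n 0
 z (n 0 z (n 0 z (n 0 z z)))) (n 0 (n 0 z (n 0 z (n 0 z (n 0 z z)))) (n 0 (n 0 z (n 0 z (n 0 z
 (n 0 z z)))) (n 0 (n 0 (n 8591211 z z) (n 0 z (n 0 (n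
 0x87687530180ea8ea86077a085f7e082182082085f82082182182082082085f81f81f85f81f82082081f86082081f8201001
 z z) (n 0 z z)))) z))))) (n 27 (n 0 (n 0 z (n 0 z (n 0 z (n 0 z z)))) (n 0 (n 0 z (n 0 z (n 0 z
 (n 0 z z)))) (n 0 (n 0 z (n 0 z (n 0 z (n 0 z z)))) (n 0 (n 0 z (n 0 z (n 0 z (n 0 z z))))
 z)))) (n 711 (n 0 (n 0 z (n 0 z (n 0 z (n 0 z z)))) (n 0 (n 0 z (n 0 z (n 0 z (n 0 z z)))) (n 0
 (n 0 z (n 0 z (n 0 z (n 0 z z)))) (n 0 (n 0 z (n 0 z (n 0 z (n 0 z z)))) (n 0 (n 0 z (n 0 z (n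
 0 z (n 0 z z)))) (n 0 (n 0 z (n 0 z (n 0 z (n 0 z z)))) (n 0 (n 0 z (n 0 (n
 0x30eaec460782081f8208208208208208208208208208208208208208208208208208208208208208208200801 z
 z) (n 0 z (n 0 z z)))) (n 0 (n 0 z (n 0 z (n 0 z (n 0 z z)))) (n 0 (n 0 z (n 0 z (n 0 z (n 0 z
 z)))) (n 0 (n 0 z (n 0 z (n 0 z (n 0 (n 8455979 z z) z)))) (n 0 (n 0 z (n 0 z (n 0 z (n 0 z
 z)))) z))))))))))) (n 709 (n 0 (n 0 z (n 0 z (n 0 z (n 0 z z)))) (n 0 (n 0 z (n 0 z (n 0 z (n 0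
 z z)))) (n 0 (n 0 z (n 0 (n
 0x30eaec460781d86181f7e18208a08207e082186182082081f82182086082082082181f8608608608208200801 z
 (n 7743579 z z)) (n 0 z (n 0 z z)))) (n 0 (n 0 z (n 0 z (n 0 z (n 0 z z)))) (n 0 (n 0 z (n 0 z
 (n 0 z (n 0 z z)))) (n 0 (n 0 z (n 0 z (n 0 z (n 0 z z)))) (n 0 (n 0 z (n 0 z (n 0 z (n 0 z
 z)))) z))))))) (n 131 (n 0 (n 0 z (n 0 z (n 0 z (n 0 z z)))) (n 0 (n 0 z (n 0 z (n 0 z (n 0 z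
 z)))) (n 0 (n 0 z (n 0 z (n 0 z (n 0 z z)))) (n 0 (n 0 z (n 0 z (n 0 z (n 0 z z)))) (n 0 (n 0 z
 (n 0 z (n 0 z (n 0 z z)))) (n 0 (n 0 z (n 0 z (n 0 z (n 0 z z)))) (n 0 (n 0 z (n 0 (n 8523875 z
 z) (n 0 z (n 0 z z)))) (n 0 (n 0 z (n 0 z (n 0 z (n 0 z z)))) (n 0 (n 0 z (n 0 z (n 0 z (n 0 z
 z)))) z))))))))) (n 29 (n 0 (n 0 z (n 0 z (n 0 z (n 0 z z)))) (n 0 (n 0 z (n 0 z (n 0 z (n 0 z
 z)))) (n 0 (n 0 z (n 0 (n 8591179 z z) (n 0 z (n 0 z z)))) (n 0 (n 0 z (n 0 (n 8591179 z z) (n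
 0 z (n 0 z z)))) (n 0 (n 0 z (n 0 z (n 0 z (n 0 z z)))) (n 0 (n 0 z (n 0 z (n 0 z (n 0 z z))))
 (n 0 (n 0 z (n 0 z (n 0 z (n 0 z z)))) (n 0 (n 0 z (n 0 z (n 0 z (n 0 z z)))) (n 0 (n 0 z (n 0
 z (n 0 z (n 0 z z)))) z))))))))) (n 1 (n 0 (n 0 z (n 0 (n
 0x30eaec460781d86181f7e18208a08207e082186182082081f82182086082082082181f8608608608208200801 z
 (n 7743579 z z)) (n 0 z (n 0 z z)))) (n 0 (n 0 z (n 0 z (n 0 z (n 0 z z)))) (n 0 (n 0 z (n 0 (n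
 8798499 z z) (n 0 z (n 0 z z)))) (n 0 (n 0 z (n 0 z (n 0 z (n 0 z z)))) (n 0 (n 0 z (n 0 z (n 0
 z (n 0 z z)))) (n 0 (n 0 z (n 0 z (n 0 z (n 0 (n
 0x30ed0ec2037e17e08608208208217de8a179f85f8627df7df81f82185f81e7e086181f81f86081e7e185f0801 z
 z) z)))) z)))))) (n 591 (n 0 (n 0 z (n 0 z (n 0 z (n 0 z z)))) (n 0 (n 0 z (n 0 (n
 0x10eaea46078608208208208208208208208208208208208208208208208208208208208208208208208200801 z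
 z) (n 0 z (n 0 z z)))) (n 0 (n 0 z (n 0 z (n 0 z (n 0 z z)))) (n 0 (n 0 z (n 0 z (n 0 z (n 0 z
 z)))) (n 0 (n 0 z (n 0 z (n 0 z (n 0 z z)))) (n 0 (n 0 z (n 0 (n
 0x1298757c18547e679c8287d98647a88657a983879b85b7c27eb7be85280b83c77f8517cc81b8847d887d7db8707967b08227a588477c80d82578e8b67ce78c7de7ef8067df8cb83f7f378286886c0051
 z z) (n 0 z (n 0 z z)))) (n 0 (n 0 z (n 0 z (n 0 z (n 0 z z)))) z))))))) (n 257 (n 0 (n 0 z (n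
 0 z (n 0 z (n 0 z z)))) (n 0 (n 0 z (n 0 z (n 0 z (n 0 z z)))) (n 0 (n 0 z (n 0 (n
 0x30eaea46078608208208208208208217e082085f8208208208208208208208208218208208208208208600801 z
 (n 0x30eaea460785f8208208208208208217e08218208208208208208208208218208218208208208208208200801
 z z)) (n 0 z (n 0 z z)))) (n 0 (n 0 z (n 0 z (n 0 z (n 0 z z)))) (n 0 (n 0 (n
 0x874874301830eaea46077e08208208208208208208208208208208208608208208208208208208208208208208208201001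
 z (n
 0x875874301810eaea46077a08208207e082186081f82082182082082081f8208208208208208218208208208208208201001
 z z)) (n 0 z (n 0 (n
 0x874874301830eaea46077e08208208208208208208208208208208208608208208208208208208208208208208208201001
 z (n
 0x875874301810eaea460779f82081f7e086182081f82082182082082082086082186085f8208208208208208207e08201001
 z z)) (n 0 z z)))) (n 0 (n 0 z (n 0 z (n 0 z (n 0 z z)))) (n 0 (n 0 (n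
 0x874852303830eaea46077df8208207e082082085f8208218208208208608208208208208208208208208208208207e01001
 z (n
 0x874752301810a70a64037a182085f86182186085f82282186181f81f7e082081e82181f82082086082086082185f8201001
 z z)) (n 0 (n
 0x2d87285d82179f7df81d8a086076182282081f8df86185e7e085f86081f82082089f92282285f7a00041 z (n
 0x30eaea46078208208208208218208208208208208208208208208208208208208208208208208208208200801 z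
 z)) (n 0 (n
 0x874852303830eaea46077df8208207e082082085f8208218208208208608208208208208208208208208208208207e01001
 z (n
 0x1298707c18547e679c8287d98647a88657a983879b85b7c27eb7be85280b83c77f8517cc81b8847d887d7db8707967b08227a588477c80d82578e8b67ce78c7de7ef8067df8cb83f7f378286886c0051
 z z)) (n 0 z z)))) (n 0 (n 0 z (n 0 z (n 0 z (n 0 z z)))) (n 0 (n 0 z (n 0 z (n 0 z (n 0 z
 z)))) z))))))))) (n 129 (n 0 (n 0 z (n 0 z (n 0 z (n 0 z z)))) (n 0 (n 0 z (n 0 z (n 0 z (n 0 z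
 z)))) (n 0 (n 0 z (n 0 z (n 0 z (n 0 z z)))) z))) (n 27 (n 0 (n 0 z (n 0 z (n 0 z (n 0 z z))))
 (n 0 (n 0 z (n 0 z (n 0 z (n 0 z z)))) (n 0 (n 0 z (n 0 z (n 0 z (n 0 z z)))) (n 0 (n 0 z (n 0
 z (n 0 z (n 0 z z)))) (n 0 (n 0 z (n 0 z (n 0 z (n 0 z z)))) (n 0 (n 0 z (n 0 z (n 0 z (n 0 z
 z)))) (n 0 (n 0 z (n 0 (n 8798499 z z) (n 0 z (n 0 z z)))) (n 0 (n 0 z (n 0 z (n 0 z (n 0 z
 z)))) (n 0 (n 0 (n 8798499 z (n 8798499 z z)) (n 0 (n 8798499 z (n 8798499 z z)) (n 0 (n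
 8798499 z (n 8798499 z z)) (n 0 z z)))) (n 0 (n 0 z (n 0 z (n 0 z (n 0 (n 8455979 z z) z)))) (n
 0 (n 0 z (n 0 z (n 0 (n 8795467 z z) (n 0 z z)))) (n 0 (n 0 z (n 0 z (n 0 z (n 0 z z)))) (n 0
 (n 0 z (n 0 z (n 0 z (n 0 z z)))) (n 0 (n 0 z (n 0 z (n 0 z (n 0 z z)))) (n 0 (n 0 z (n 0 z (n
 0 z (n 0 z z)))) (n 0 (n 0 z (n 0 z (n 0 z (n 0 z z)))) z)))))))))))))))) (n 1 (n 0 (n 0 z (n 0
 z (n 0 z (n 0 z z)))) (n 0 (n 0 z (n 0 z (n 0 z (n 0 z z)))) (n 0 (n 0 z (n 0 (n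
 0x1298757c18547e679c8287d98647a88657a983879b85b7c27eb7be85280b83c77f8517cc81b8847d887d7db8707967b08227a588477c80d82578e8b67ce78c7de7ef8067df8cb83f7f378286886c0051
 z z) (n 0 z (n 0 z z)))) (n 0 (n 0 z (n 0 (n 8798499 z z) (n 0 z (n 0 z z)))) z)))) (n 0 (n 0
 (n 0 z (n 0 z (n 0 z (n 0 z z)))) (n 0 (n 0 z (n 0 z (n 0 z (n 0 z z)))) (n 0 (n 0 z (n 0 (n
 8856603 z z) (n 0 z (n 0 z z)))) z))) z))))))))))))))))))))) z)))) z) z)))) (n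
 0x10639c215b2182d8cc544259900 (n 0 (n 443 (n 3282443 z (n 0 z (n 0 z (n 0 z (n 2 z (n 0 z (n 0
 z z))))))) (n 437 (n 0 z (n 3278363 z (n 10 z z))) (n 439 (n 0 z (n 3212843 z (n 0 z z))) (n 3
 (n 18 z (n 2164283 z (n 0 z z))) (n 1 (n 26 z (n 0 z (n 0 z (n 34 z (n 2164299 z z))))) (n 0 (n
 0 z (n 0 z (n 0 z (n 0 z (n 2164315 z z))))) z)))))) (n 437 (n 0 (n 143 (n 0 z (n 0 z z)) (n
 233 (n 0 z (n 0 z (n 0 z (n 0 z (n 0 z (n 0 z (n 0 z (n 0 z (n 0 z (n 0 z z)))))))))) (n 133 (n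
 0 z (n 0 z (n 0 z (n 0 z (n 0 z (n 0 z z)))))) (n 133 (n 0 z (n 0 z (n 0 z (n 0 z (n 0 z (n 0 z
 z)))))) z)))) (n 0 (n 81 (n 0 z (n 0 z (n 0 z (n 0 z (n 0 z (n 0 z z)))))) (n 457 (n 0 z (n 0 z
 (n 0 z (n 0 z (n 0 z z))))) (n 457 (n 2 z (n 0 z (n 0 z (n 0 z (n 0 z z))))) z))) (n 0 (n 57 (n
 0 z (n 0 z (n 0 z (n 0 z (n 0 z (n 0 z (n 0 z (n 0 z (n 0 z z))))))))) (n 57 (n 0 z (n 0 z (n 0
 z (n 0 z (n 0 z (n 0 z (n 0 z (n 0 z (n 0 z z))))))))) z)) (n 0 (n 0 z z) (n 0 z z))))) (n 0 (n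
 0 z (n 1 (n 3278363 z (n 3278363 z (n 3278363 z (n 3278363 z (n 3278363 z (n 3278363 z z))))))
 (n 1 (n 3548 z (n 3548 z (n 3548 z (n 3548 z (n 3548 z (n 3548 z z)))))) z))) (n 0 z z)))) (n
 0x1232ac05c5360ec66b09a (n 0 (n 159 (n 0 z (n 0 z (n 0 z (n 0 z (n 3282443 z z))))) (n 33 (n 0
 z (n 0 z (n 0 z (n 0 z (n 0 z (n 0 z (n 0 z (n 0 z (n 0 z (n 0 z (n 0 z (n 3278363 z (n 0 z (n
 0 z (n 6559035 z (n 0 z (n 0 z z))))))))))))))))) (n 9 (n 2 z (n 0 z (n 0 z (n 0 z (n 0 z (n 0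
 z (n 3212843 z z))))))) (n 3 (n 0 z (n 0 z (n 0 z (n 0 z (n 6488603 z (n 0 z (n 0 z (n 6488603
 z (n 0 z (n 0 z (n 0 z (n 0 z (n 0 z (n 0 z (n 0 z (n 10 z z)))))))))))))))) (n 1 (n 0 z (n 18
 z (n 0 z (n 0 z (n 0 z (n 6559035 z z)))))) (n 0 (n 0 z (n 26 z (n 0 z (n 0 z (n 0 z (n
 0x465442030380c86c864031990d9048062321b18901c064364020382ca882040382485d9977e08a06e47607e09a36e66e476175e75871e61795e8e091d868859a9bae08e37213001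
 z (n 0 z (n 0 z (n 0 z (n 2164315 z z)))))))))) z)))))) (n 159 (n 0 (n 247 (n 0 z (n 0 z (n 0 z
 (n 0 z (n 0 z (n 0 z z)))))) (n 1325 (n 0 z (n 0 z (n 0 z (n 0 z (n 0 z (n 0 z (n 0 z (n 0 z (n
 0 z (n 0 z (n 0 z (n 2 (n 1 z z) (n 0 z (n 0 z (n 0 z (n 0 z (n 0 z (n 0 z (n 0 z (n 0 z (n 0 z
 (n 0 z (n 0 z (n 0 z (n 0 z (n 0 z (n 0 z (n 0 z (n 0 z (n 0 z (n 0 z (n 0 z (n 0 z (n 0 z (n 0
 z (n 0 z (n 0 z (n 0 z (n 0 z (n 0 z (n 0 z (n 0 z (n 0 z (n 0 z (n 0 z (n 0 z (n 0 z (n 0 z (n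
 0 z (n 0 z (n 0 z z))))))))))))))))))))))))))))))))))))))))))))))))))) (n 245 (n 0 z (n 0 z (n
 0 z (n 0 z (n 0 z (n 0 z (n 0 z z))))))) z))) (n 0 (n 51 (n 0 z (n 0 z (n 0 z (n 0 z (n 0 z (n
 0 z (n 2 (n 1 z z) (n 0 z (n 0 z (n 0 z (n 0 z (n 0 z (n 0 z z))))))))))))) (n 5 (n 0 z (n 0 z
 (n 0 z (n 0 z (n 0 z (n 0 z (n 0 z (n 0 z (n 0 z (n 0 z z)))))))))) z)) (n 0 (n 53 (n 0 z (n 0
 z (n 0 z (n 0 z (n 0 z (n 0 z (n 0 z (n 0 z (n 0 z z))))))))) z) (n 0 z z)))) (n 0 (n 0 z (n 0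
 z (n 0 z (n 0 z (n 1 (n 3282443 z (n 3282443 z (n 3282443 z (n 3282443 z (n 3282443 z (n
 3282443 z z)))))) z))))) (n 0 z z)))) z)))))))))), by decide +kernel⟩
theorem i10326 : ∃ t, chkR KT RW t 10326 10336 = true := ⟨(n 0x12c8a890c744651b85914 (n 0 (n 177
 (n 0 z (n 3282443 z (n 0 z z))) (n 255 (n 0 z (n 0 z (n 3278363 z (n 0 z z)))) (n 129 (n 0 z (n
 3212843 z (n 0 z z))) (n 27 (n 0 z (n 0 z (n 2164283 z z))) (n 1 (n 0 z (n 2164299 z (n 2 z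
 z))) (n 0 (n 0 z (n 10 z (n 18 z (n 26 z (n 2164315 z z))))) z)))))) (n 177 (n 0 (n 5 (n 0 z (n
 0 z (n 0 z (n 0 z (n 0 z z))))) (n 5 (n 0 z (n 0 z (n 0 z (n 0 z (n 0 z z))))) (n 5 (n 0 z (n 0
 z (n 0 z (n 0 z (n 0 z z))))) z))) (n 0 (n 0 z (n 0 z z)) (n 0 (n 0 z z) (n 0 z z)))) (n 0 (n 0
 z (n 1 (n 3282443 z (n 3282443 z (n 3282443 z (n 3282443 z (n 3282443 z (n 3282443 z z)))))) (n
 0 z z))) (n 0 z z)))) (n 0xb0c74575ca1eb6506346b0eb91d15c6eb0e2 (n 0 (n 405 (n 3282443 z (n 0 z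
 (n 0 z (n 0 z z)))) (n 33 (n 0 z (n 0 z (n 0 z (n 3278363 z (n 0 z z))))) (n 129 (n 0 z (n 0 z
 (n 0 z (n 0 z (n
 0x565251040188ca8ca82078a769ba58991a19715b6a9e246459c896c92b95a5e51fb1c5e3a2e5625e6a119a1be4718a9e1001
 z (n 0 z (n 0 z (n 2 z (n 0 z (n 0 z (n 0 z (n 0 z (n 0 z (n 3212843 z z)))))))))))))) (n 3 (n
 6631947 z (n 0 z (n 10 z (n 0 z (n 0 z z))))) (n 1 (n 18 z (n 0 z (n 0 z (n 2164299 z z)))) (n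
 0 (n 26 z (n 0 z (n 34 z (n 42 z (n 0 z (n 50 z (n 0 z (n 6631947 z z)))))))) z)))))) (n 405 (n
 0 (n 267 (n 0 z (n 0 z (n 0 z (n 0 z (n 0 z (n 0 z (n 0 z (n 0 z (n 0 z (n 0 z z)))))))))) (n
 255 (n 0 z (n 0 z (n 0 z (n 0 z (n 0 z (n 0 z (n 0 z (n 0 z z)))))))) (n 257 (n 0 z (n 0 z (n 2
 (n 0 z (n 0 z (n 0 z z))) (n 0 z (n 0 z (n 0 z z)))))) (n 257 (n 0 z (n 0 z (n 0 z (n 0 z (n 0
 z (n 0 z z)))))) (n 257 (n 0 z (n 0 z (n 0 z (n 0 z (n 0 z (n 0 z z)))))) (n 257 (n 0 z (n 0 z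
 (n 0 z (n 0 z (n 0 z (n 0 z z)))))) z)))))) (n 0 (n 3 (n 0 z (n 0 z (n 0 z (n 0 z (n 0 z z)))))
 (n 5 (n 0 z (n 0 z (n 0 z (n 2 (n 0 z (n 0 z (n 0 z z))) (n 0 z z))))) (n 5 (n 0 z (n 0 z (n 0
 z (n 0 z (n 0 z z))))) (n 5 (n 0 z (n 0 z (n 0 z (n 0 z (n 0 z z))))) (n 5 (n 0 z (n 0 z (n 0 z
 (n 0 z (n 0 z z))))) z))))) (n 0 (n 1 (n 0 z (n 2 (n 0 z (n 0 z (n 0 z z))) (n 0 z (n 0 z (n 0
 z z))))) (n 1 (n 0 z (n 0 z (n 0 z (n 0 z (n 0 z z))))) (n 1 (n 0 z (n 0 z (n 0 z (n 0 z (n 0 z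
 z))))) (n 1 (n 0 z (n 0 z (n 0 z (n 0 z (n 0 z z))))) z)))) (n 0 (n 0 z (n 0 z (n 0 z z))) (n 0
 (n 0 z (n 0 z z)) (n 0 (n 0 z z) (n 0 z z))))))) (n 0 (n 1 (n 6631947 z (n 3282443 z (n 3282443
 z (n 3282443 z (n 3282443 z (n 3282443 z z)))))) (n 0 z (n 0 z (n 0 z z)))) (n 0 z z)))) (n
 0x22ae5 (n 0 (n 465 (n 3282443 z (n 0 z (n 0 z (n 0 z z)))) (n 33 (n 0 z (n 0 z (n 3278363 z
 z))) (n 129 (n 0 z (n 0 z (n 0 z (n 3212843 z (n 0 z (n 0 z z)))))) (n 3 (n 6631947 z (n 0 z (n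
 0 z (n 0 z z)))) (n 1 (n 0 z (n 0 z (n
 0x1b21a88101c165252010182ca6c620077e479d8a17dd76282275f76099d7e389f7e18608247df91e7e081f71f8608237217e18df7601801
 z (n 0 z (n 0 z (n 6558507 z (n 6558507 z z))))))) (n 0 (n 0 z (n 0 z (n 2 z (n 0 z (n 6631947
 z (n 6631947 z (n 0 z z))))))) z)))))) (n 33 (n 0 z z) (n 0 (n 0 z (n 0 z (n 1 (n 3278363 z (n
 3278363 z (n 3278363 z (n 3278363 z (n 3278363 z (n 3278363 z z)))))) z))) (n 0 z z)))) (n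
 0xc58dcaaa0cbba08638580f58c0 (n 0 (n 153 (n 2 z (n 10 z (n 3282443 z (n 0 z z)))) (n 249 (n 18
 z (n 26 z (n 3278363 z (n 0 z z)))) (n 129 (n 0 z (n 3212843 z (n 0 z z))) (n 27 (n 0 z (n 0 z
 (n 0 z (n 0 z (n 0 z (n 0 z (n 2164283 z z))))))) (n 1 (n 0 z (n 34 z (n 0 z (n 0 z (n 0 z (n
 2164299 z z)))))) (n 0 (n 0 z (n 0 z (n 6619675 z z))) z)))))) (n 129 (n 0 (n 0 z (n 603 (n 0 z
 (n 0 z (n 0 z (n 0 z z)))) (n 603 (n 0 z (n 0 z (n 0 z (n 0 z z)))) (n 303 (n 0 z (n 0 z (n 0 z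
 (n 0 z (n 0 z z))))) z)))) (n 0 (n 511 (n 0 z (n 0 z (n 0 z (n 0 z z)))) (n 511 (n 0 z (n 0 z
 (n 2 (n 1 z z) (n 0 z z)))) (n 483 (n 0 z (n 0 z z)) z))) (n 0 (n 0 z (n 63 (n 0 z (n 2 z (n 0
 z (n 0 z z)))) z)) (n 0 (n 483 (n 0 z (n 0 z (n 0 z (n 0 z z)))) z) (n 0 z z))))) (n 0 (n 0 z
 (n 1 (n 3212843 z (n 6619675 z (n 3212843 z (n 3212843 z (n 3212843 z (n 3212843 z z)))))) (n 0
 z z))) (n 0 z z)))) (n 0x35b2514c52ca6086d5081192c0 (n 0 (n 393 (n 2 z (n 0 z (n 10 z (n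
 3282443 z z)))) (n 255 (n 18 z (n 3278363 z (n 0 z z))) (n 129 (n 0 z (n 6628363 z (n 0 z z)))
 (n 27 (n 0 z (n
 0x1b6508077fd7fc80f7fc7f780f8007fb8067f47f98068047fb80080c80b7f27f27de80d80a81c7ee80c7ff7f980480b80280c8017f78087ff8007fd7fe8018218088067f97ff80f7fa8047fa8010051
 z (n 0 z (n 0 z (n 2164283 z (n 0 z z)))))) (n 1 (n 0 z (n 0 z (n 0 z (n 6562587 z z)))) (n 0
 (n
 0x9b6328317d88008637e27d37dd8167d68487d27e280680c8138008168337fe7f975d7fc7ed8ab7c282c8197df7ff83580c80580283c8307ea7d37d57e980a8cb7d07f579d7f886a8247f17d981d0051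
 z (n 0 z (n 0 z (n 0 z (n 0 z (n 26 z (n
 0x836428008028058017ef7f880b80d7fd80d7f77ee8088038097ff80c80a7f87f07e28088078227e87fd7ff7fa80480980280a80b7fa8138007fc7fb7fe80181e8008027ee80180f7ff8007f88050051
 z (n 0 z (n 0 z (n 6628363 z (n 0 z (n 34 z z)))))))))))) z)))))) (n 255 (n 0 (n 0 z (n 67 (n 0
 z (n 0 z (n 0 z (n 0 z (n 0 z (n 0 z (n 0 z (n 0 z (n 0 z (n 0 z z)))))))))) (n 109 (n 0 z (n 0
 z (n 0 z (n 0 z (n 0 z (n 0 z (n 0 z (n 0 z (n 0 z (n 0 z (n 0 z (n 0 z z)))))))))))) (n 109 (n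
 0 z (n 0 z (n 0 z (n 0 z (n 0 z (n 0 z (n 0 z (n 0 z (n 0 z (n 2 z (n 0 z (n 0 z z))))))))))))
 z)))) (n 0 (n 651 (n 0 z (n 2 (n 1 z (n 1 z z)) (n 0 z (n 0 z (n 0 z (n 0 z z)))))) (n 337 (n 0
 z (n 0 z (n 0 z z))) (n 337 (n 0 z (n 0 z (n 0 z z))) z))) (n 0 (n 509 (n 0 z (n 0 z (n 0 z (n
 0 z (n 0 z (n 0 z z)))))) (n 509 (n 0 z (n 0 z (n 0 z (n 0 z (n 0 z (n 0 z z)))))) z)) (n 0 (n
 0 z z) (n 0 z z))))) (n 0 (n 1 (n 6562587 z (n 3148 z (n 3148 z (n 5378147 z (n 3148 z (n 3148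
 z z)))))) (n 1 (n 6562587 z (n 6619675 z (n 3278363 z (n 3278363 z (n 3278363 z (n 3278363 z
 z)))))) (n 0 z z))) (n 0 z z)))) (n 0xc9c35c10a6e1052 (n 0 (n 203 (n 0 z (n 0 z (n 0 z (n
 3282443 z (n 0 z z))))) (n 255 (n 3278363 z (n 3278363 z (n 0 z (n
 0x594d94c80602ca6a864037d817c84877c8282828084787a7c87817d817f79828078857b837c7f87848484807f7e7f82848682758082847b7f7a7f7e801009
 z (n
 0x4ca8ca46037a7d7a84877c857c828086727e797f817d8180798380847f7f817c807d8285867b817b867d8887827289898478827a7d80830809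
 z (n 0 z (n
 0x2ca6ca04037e7e7e82837e827e8180827a7f7e807f7f81807e8180808080817f807f8183827e807e817f8283807b8483817e817f7e80810809
 z z))))))) (n 197 (n 2 z (n 0 z (n 0 z (n 0 z (n 6628379 z (n 0 z (n 0 z z))))))) (n 3 (n 0 z
 (n 0 z (n 10 z (n 0 z (n 0 z (n 0 z (n 2164283 z z))))))) (n 1 (n 6559019 z (n 6559019 z (n 0 z
 (n 0 z (n
 0x16ca6ca6003777a767f8379817981808876827b7d817c80857884818a7e7f7e7e7f788085877b827c897d8983847a8b8a857884798282800809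
 z (n
 0xeca6ca64030465363120384329a98901c0994d94080614ca6a604077c756c8f9d747c7a8d80855573828f7b80897c6c847a718e718e7881948c8e8c787d797d8f8c9f86648e8290767d7a6e788c2809
 z (n 0 z (n
 0x4ca4ca26037c7e7d83847d847c828084777e7e807f7e818279827e837f7f817c807f8383857c807b847d858582788787837a827b7d81810809
 z (n 0 z (n
 0x2ca6a624077c7c7983887d817c8280867981797f807c81817b8280877e80807b807f8283857c827b877c8685837787868479837b7d81810809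
 z z)))))))))) (n 0 (n 0 z (n 6628379 z (n 0 z (n 0 z (n 0 z (n 0 z (n 0 z (n 0 z (n 0 z (n 0 z
 (n 18 z (n 0 z z)))))))))))) z)))))) (n 203 (n 0 (n 247 (n 0 z (n 0 z (n 0 z (n 0 z (n 0 z
 z))))) (n 245 (n
 0x5ba9b10a00c19d85cc100e18ec8ec860701764761303843aa310980c55d51084c0622c42ea06031b7647403038bbaa320181c01d9190c0060cea8c820036448638a787e71578e80b46baf536c6569819f58a16de86c864c687a7f7f8b63689070d36cc273a3a8969b994b8e4fa2945f5809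
 z (n 0 z (n 0 z (n 0 z (n 0 z (n 0 z (n 0 z (n 0 z (n 0 z (n 0 z (n 0 z z))))))))))) z)) (n 0
 (n 257 (n 0 z (n 0 z (n 0 z (n 0 z (n 0 z (n 0 z (n 0 z (n 0 z (n 0 z (n 0 z (n 0 z
 z))))))))))) z) (n 0 z z))) (n 0 (n 0 z (n 0 z (n 0 z (n 1 (n 3282443 z (n 3282443 z (n 3282443
 z (n 3282443 z (n 3282443 z (n 3282443 z z)))))) (n 0 z z))))) (n 0 z z)))) (n
 0x350ea6c8ad348325bcb300b548093640 (n 0 (n 179 (n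
 0x30ca6ca64077e477e8308027fc7c981c7e87a084c81d8287f67a57d282281a7e48338098707d381d8427d97e18087a68218307e98597f77348227de8a98077d37fa7b18b585c7c47ba7d981287b7f88000811
 z (n 2 z (n 10 z (n
 0x20c86a864077b77818177e07ec7b78247f07be87384b8027fa76c78a8408737c186c81581f7db7fa87a7ab7bd8157808028227f88937f57b48028038a28008007f680282787075d7eb7c983c8597fe81c0811
 z (n 3282443 z (n 4331019 z (n
 0x4ac86a8640775e72f82b7e478a7a78787ff7e78d18de7da80064771c7f997b7329537dd8a075178f9457487a683575a7f67c48039457c981b85d80a8e079e81f8227bf7bc87960f8537eb8d185777c8d30811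
 z (n 18 z z)))))))) (n 33 (n 0 z (n 0 z (n 6624011 z z))) (n 131 (n 0 z (n 3212843 z z)) (n 3
 (n 26 z (n
 0x54ca8ca840392d8477fc9a37c8859562ad66887497b68577d4cb760eaac7c793353ea67492b135bd5609425d38fa6887fb8567797da71ea8a5a88ab9ae6b37ac805c18551b97cbc5ba48d4e29d388c3ae0811
 z (n 34 z (n 2164283 z (n 4331067 z (n
 0x18ca8ca04078077e181a8217e681e7ea8237d080e7fb7fd7fb81f80f81d7f38077ed8177ca8247f28087f17ea8087f18008087fe8047ec8227f67fe7ef8047fa8058297e681c8247e47f87e58007fc7d80811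
 z (n 42 z z))))))) (n 1 (n 0 z (n 0 z (n 2164299 z z))) (n 0 (n 0 z (n 0 z (n 6624011 z (n 0 z
 z)))) z)))))) (n 131 (n 0 (n 0 z (n 0 z (n 45 (n 0 z (n 0 z (n 0 z (n 0 z (n 0 z (n 0 z (n 0 z
 (n 0 z (n 0 z (n 0 z z)))))))))) (n 45 (n 0 z (n 0 z (n 0 z (n 2 (n 0 z z) (n 0 z (n 0 z (n 0 z
 (n 0 z (n 0 z (n 0 z z)))))))))) (n 45 (n 0 z (n 2 z (n 0 z (n 0 z (n 0 z (n 0 z (n 0 z (n 0 z
 (n 0 z (n 0 z z)))))))))) z))))) (n 0 (n 0 z (n 201 (n 7745555 z (n 0 z (n 0 z (n 0 z (n 0 z (n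
 0 z (n 0 z z))))))) (n 201 (n 0 z (n 0 z (n 0 z (n 0 z (n 0 z (n 0 z (n 0 z z))))))) (n 201 (n
 0 z (n 0 z (n 0 z (n 0 z (n 0 z (n 0 z (n 0 z z))))))) z)))) (n 0 (n 1405 (n 0 z (n 0 z (n 0 z
 (n 2 (n 0 z (n 0 z z)) (n 0 z (n 0 z (n 0 z (n 0 z (n 0 z (n 0 z (n 0 z (n 0 z (n 0 z (n 0 z (n
 0 z (n 0 z z)))))))))))))))) (n 1405 (n 0 z (n 0 z (n 0 z (n 0 z (n 0 z (n 0 z (n 0 z (n 0 z (n
 0 z (n 0 z (n 0 z (n 0 z (n 0 z (n 0 z (n 0 z (n 0 z z)))))))))))))))) (n 1405 (n 0 z (n 0 z (n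
 0 z (n 0 z (n 0 z (n 0 z (n 0 z (n 0 z (n 0 z (n 0 z (n 0 z (n 0 z (n 0 z (n 0 z (n 0 z (n 0 z
 z)))))))))))))))) z))) (n 0 (n 0 z (n 0 z z)) (n 0 (n 0 z z) (n 0 z z)))))) (n 0 (n 0 z (n 1 (n
 3212843 z (n 3212843 z (n 3212843 z (n 3212843 z (n 3212843 z (n 3212843 z z)))))) z)) (n 0 z
 z)))) (n 0xd42a868a3693432da2092940ccb0b01b4500898c0 (n 0 (n 441 (n
 0x746517ff8017ff8018077ff8017f37fd7fe80a8007f17e88037f781e7f181b7fa8037f87e682b7f780281c7f57f18008127e97e680880c8017e17f77f48128177ee80a80281181580b7e87ee8080051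
 z (n 2 z (n 10 z (n 18 z (n 3282443 z z))))) (n 33 (n 26 z (n
 0xcca8c804077fd80b7ed80080b7fa8088007f07fb8367c281a7dc85d7da7cb81b8837898667be81c7f180c7a681e7fc8018007e47e87de7e981982c7c37ed8288268327b68227da80580480b8277d77fd0811
 z (n 34 z (n 42 z (n
 0x746537ff8017ff8018077ff8017f37fd7fe80a8007f17e88037f781e7f181b7fa8037f87e682b7f780281c7f57f18008127e97e680880c8017e17f77f48128177ee80a80281181580b7e87ee8080051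
 z (n
 0x6ca8ca84037fc8117f88058147ec7f780e80080680180180a8097f580f7e480d8148157ec7f47e98038038077e080b80b8017ed7d58167e882281b7fe7e980081a8247fa8057f27df8017f281e7f57f30811
 z (n 3278363 z (n
 0xca8ca84038008018008008008018008018007ff8008007ff8008008008007ff8008008008008008008008007ff7ff8028008008008008008007ff8008008018008008008008008008008008018008000811
 z (n 0 z (n
 0x2ca8ca80038008007fe8008008008008008008008028008037fe8047ff7fa8008047fb8077fe8067fb8007fe7fc8018008047fc8008027fb7fe8028018058008017fe8048018027fd7fd7fb8098037fb0811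
 z z)))))))))) (n 9 (n 0 z (n 0 z (n 0 z (n 3212843 z z)))) (n 3 (n 0 z (n 6566155 z (n 0 z z)))
 (n 1 (n 6566155 z (n 0 z (n 0 z (n 0 z z)))) (n 0 (n 50 z (n 58 z (n 2164315 z (n 0 z (n 0 z
 z))))) z)))))) (n 3 (n 0 (n 0 z (n 0 z (n 179 (n 0 z (n 0 z (n 0 z (n 0 z (n 0 z (n 0 z (n 0 z
 (n 0 z (n 0 z z))))))))) (n 179 (n 2 (n 0 z (n 1 z (n 1 z z))) (n 0 z (n 0 z (n 0 z (n 0 z (n 0
 z (n 0 z (n 0 z (n 0 z z))))))))) (n 179 (n 0 z (n 0 z (n 0 z (n 0 z (n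
 0x18ecaeca4037f38287e17f08147ec80a7f47dc7f57fb7c683282d8517f579683685d7cd8287d48177ff8137818097de8017fb7cf7b57bc81e8238827867db81f85f8677b083a7e17ed80d8058357bf7f10811
 z (n 0 z (n 0 z (n 0 z (n 0 z z))))))))) (n 745 (n 2 (n 0 z z) (n 0 z (n 0 z (n 0 z (n 0 z (n 0
 z (n 0 z (n 0 z (n 0 z (n 0 z (n 0 z (n 0 z (n 0 z z))))))))))))) (n 745 (n 0 z (n 0 z (n 0 z
 (n 0 z (n 0 z (n 0 z (n 0 z (n 0 z (n 0 z (n 0 z (n 0 z (n 0 z (n 0 z z))))))))))))) z)))))))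
 (n 0 (n 0 z (n 67 (n 7737395 z (n 0 z (n 0 z (n 0 z (n 0 z (n 0 z (n 0 z (n 0 z (n 0 z (n 0 z
 (n 0 z z))))))))))) (n 67 (n 0 z (n 0 z (n 0 z (n 0 z (n 0 z (n 0 z (n 0 z (n 0 z (n 0 z (n 0 z
 (n 0 z z))))))))))) (n 67 (n 0 z (n 0 z (n 0 z (n 0 z (n 0 z (n 2 (n 2 (n 0 z (n 0 z (n 0 z (n
 0 z (n 0 z (n 0 (n 8794643 z z) z)))))) (n 2 (n 0 z (n 0 z (n 0 z (n 0 z (n 0 z (n 0 z z))))))
 z)) (n 0 z (n 0 z (n 0 z (n 0 z (n 0 z z))))))))))) (n 49 (n 0 z (n 0 z (n 0 z (n 0 z (n 0 z (n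
 0 z (n 0 z (n 0 z (n 0 z (n 0 z (n 0 z (n 0 z (n 0 z z))))))))))))) (n 49 (n 0 z (n 0 z (n 0 z
 (n 0 z (n 0 z (n 7737395 z (n 0 z (n 0 z (n 0 z (n 0 z (n 0 z (n 0 z (n 0 z z)))))))))))))
 z)))))) (n 0 (n 1149 (n 0 z (n 0 z (n 0 z (n 0 z (n 0 z (n 0 z (n 0 z (n 0 z (n 0 z (n 0 z (n 0
 z (n 0 z (n 0 z (n 0 z (n 0 z (n 0 z (n 0 z (n 0 z (n 0 z (n 0 z (n 0 z (n 0 z
 z)))))))))))))))))))))) (n 1149 (n 2 (n 0 z (n 1 z (n 2 (n 0 z (n 0 z (n 0 z (n 0 z (n 0 z (n 0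
 z z)))))) z))) (n 0 z (n 0 z (n 0 z (n 0 z (n 0 z (n 0 z (n 0 z (n 0 z (n 0 z (n 0 z (n 0 z (n
 0 z (n 0 z (n 0 z (n 0 z (n 0 z (n 0 z (n 0 z (n 0 z (n 0 z (n 0 z z)))))))))))))))))))))) (n
 1149 (n 0 z (n 0 z (n 0 z (n 0 z (n 0 z (n 0 z (n 0 z (n 0 z (n 0 z (n 0 z (n 0 z (n 0 z (n 0 z
 (n 0 z (n 0 z (n 0 z (n
 0x747637ff8017ff8018077ff8017f37fd7fe80a8007f17e88037f781e7f181b7fa8037f87e682b7f780281c7f57f18008127e97e680880c8017e17f77f48128177ee80a80281181580b7e87ee8080051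
 z (n 0 z (n 0 z (n 0 z (n 0 z (n 0 z z)))))))))))))))))))))) (n 481 (n 0 z (n 0 z (n 6358827 z
 (n 0 z (n 0 z (n 0 z (n 0 z (n 0 z z)))))))) (n 481 (n 0 z (n 2 z (n 0 z (n 0 z (n 0 z (n 0 z
 (n 0 z (n 0 z z)))))))) z))))) (n 0 (n 0 z (n 0 z (n 877 (n 7737395 z (n 0 z (n 0 z (n 0 z (n 0
 z (n 0 z (n 0 z (n 0 z (n 0 z (n 0 z z)))))))))) (n 877 (n 0 z (n 0 z (n 0 z (n 0 z (n 7737395
 z (n 0 z (n 0 z (n 0 z (n 0 z (n 0 z z)))))))))) z)))) (n 0 (n 0 z (n 241 (n 0 z (n 0 z (n 0 z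
 (n 0 z (n 0 z (n 0 z (n 0 z (n 0 z (n 0 z (n 0 z z)))))))))) (n 241 (n 0 z (n 7737395 z (n 0 z
 (n 0 z (n 0 z (n 0 z (n 0 z (n 0 z (n 0 z (n 0 z z)))))))))) z))) (n 0 (n 793 (n 0 z (n 0 z (n
 0 z (n 0 z (n 0 z (n 0 z (n 0 z (n 0 z (n 0 z (n 0 z z)))))))))) (n 793 (n 0 z (n 0 z (n 0 z (n
 0 z (n 0 z (n 2 z (n 0 z (n 0 z (n 0 z (n 0 z z)))))))))) z)) (n 0 (n 0 z z) (n 0 z z))))))))
 (n 0 (n 0 z (n 1 (n 6566155 z (n 6566155 z (n 6566155 z (n 6566155 z (n 6566155 z (n 6566155 z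
 z)))))) (n 0 z z))) (n 0 z z)))) (n 0x1312b4189421c5252224cd114749092 (n 0 (n 177 (n 0 z (n 0 z
 (n 0 z (n 3282443 z (n 0 z z))))) (n 33 (n 3278363 z (n 0 z (n 0 z z))) (n 171 (n 0 z (n 0 z (n
 0 z (n 2 z (n 0 z (n 0 z (n 3212843 z (n 0 z (n 0 z z))))))))) (n 3 (n 10 z (n 2164283 z (n 18
 z z))) (n 1 (n 26 z (n 0 z (n 34 z (n 2164299 z (n 0 z z))))) (n 0 (n 42 z (n 0 z (n 0 z (n
 2164315 z (n
 0x4ca88604037e80818388827c7d7f7f83867c847595836e7a7b89688a729e90808381a1797f8c6796758a5f8095678f84758a5e9f8d5f790809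
 z z))))) z)))))) (n 33 (n 0 (n 247 (n 0 z (n 0 z (n 0 z (n 0 z z)))) (n 247 (n 0 z (n 0 z (n 0
 z (n 0 z z)))) (n 783 (n 0 z (n 0 z (n 0 z (n 0 z (n 0 z z))))) (n 783 (n 0 z (n 0 z (n 0 z (n
 0 z (n 0 z z))))) (n 781 (n 0 z (n 0 z (n 0 z (n 0 z (n 0 z (n 0 z (n 0 z (n 0 z (n 0 z (n 0 z
 (n 0 z (n 0 z z)))))))))))) z))))) (n 0 (n 0 z (n 3 (n 0 z (n 0 z (n 0 z (n 0 z (n 0 z (n 0 z
 z)))))) (n 3 (n 0 z (n 0 z (n 0 z (n 0 z (n 0 z (n 0 z z)))))) (n 1 (n 0 z (n 0 z (n 0 z (n 0 z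
 (n 0 z (n 0 z (n 0 z z))))))) z)))) (n 0 (n 3 (n 0 z (n 0 z (n 0 z (n 0 z z)))) (n 3 (n 0 z (n
 0 z (n 0 z (n 0 z z)))) (n 1 (n 0 z (n 0 z (n 0 z z))) z))) (n 0 (n 0 z (n 1 (n 0 z (n 0 z (n 0
 z (n 0 z (n
 0x1c7637f808281828081807f8082807e8081817f808080808080808180807f808180817f80807f80818080808180807f80818080800049
 z (n 0 z (n 0 z (n 0 z (n 0 z (n 0 z z)))))))))) z)) (n 0 (n 5 (n 0 z (n 0 z (n 0 z (n 0 z (n 0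
 z (n 0 z (n 0 z (n 0 z (n 0 z (n 0 z (n 0 z (n 0 z (n 0 z z))))))))))))) z) (n 0 z z)))))) (n 0
 (n 1 (n 3278363 z (n 3278363 z (n 3278363 z (n 3278363 z (n 3278363 z (n 3278363 z z)))))) (n 0
 z (n 0 z z))) (n 0 z z)))) (n 0xdacb434d1a0c71d7b095378589ed452de540 (n 0 (n 323 (n 3282443 z
 (n 0 z (n 0 z (n 0 z (n 2 z (n 0 z z)))))) (n 257 (n 0 z (n 3278363 z (n 0 z (n 0 z (n
 0x36ca8ca06078bc24c96789cb0497076989673788d4899906093b87087479c7170b5a5348bbb5e4e7c72e8607c7d47c08890446a918e77860809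
 z (n 0 z (n 0 z (n 0 z (n 10 z (n
 0xcb1001862085857e8a84807c7e77835465888051807d807d89d0aa8c7893e783945a958c76535d4b788497676b5ba5aba28a757597935f0089
 z (n
 0xcb2101864285857e8a84807c7e77835465888051807d807d89d0aa8c7893e783945a958c76535d4b788497676b5ba5aba28a757597935f0089
 z z))))))))))) (n 9 (n 3212843 z (n 18 z (n 26 z (n 0 z z)))) (n 3 (n 0 z (n 0 z (n 0 z (n 0 z
 (n 0 z (n 0 z (n 6631691 z z))))))) (n 1 (n 0 z (n 0 z (n 2164299 z z))) (n 0 (n 34 z (n 0 z (n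
 0 z (n 42 z (n 6631691 z (n 0 z (n 0 z (n 50 z z)))))))) z)))))) (n 1 (n 0 (n 515 (n 0 z (n 0 z
 (n 0 z (n 0 z z)))) (n 183 (n 0 z (n 0 z (n 0 z (n 0 z (n 0 z (n 0 z (n 0 z z))))))) (n 183 (n
 0 z (n 0 z (n 0 z (n 0 z (n 0 z (n 0 z (n 0 z z))))))) (n 625 (n 0 z (n 0 z (n 0 z (n 0 z (n 0
 z z))))) (n 625 (n 0 z (n 0 z (n 0 z (n 0 z (n 0 z z))))) (n 625 (n 0 z (n 0 z (n 0 z (n 0 z (n
 0 z z))))) z)))))) (n 0 (n 177 (n 0 z (n 0 z (n 0 z (n 0 z z)))) (n 177 (n 0 z (n 0 z (n 0 z (n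
 0 z z)))) (n 509 (n 0 z (n 0 z (n 0 z (n 0 z z)))) (n 509 (n 0 z (n 0 z (n 0 z (n 0 z z)))) (n
 509 (n 0 z (n 0 z (n 0 z (n 0 z z)))) z))))) (n 0 (n 0 z (n 17 (n 0 z (n 0 z (n 0 z (n 0 z (n 2
 (n 0 z (n 0 z z)) (n 0 z (n 0 z (n 0 z (n 0 z (n 0 z z)))))))))) (n 17 (n 0 z (n 0 z (n 0 z (n
 0 z (n 0 z (n 0 z (n 6424347 z (n 0 z (n 0 z (n 0 z z)))))))))) (n 17 (n 0 z (n 0 z (n 0 z (n 0
 z (n 0 z (n 0 z (n 0 z (n 0 z (n 0 z (n 0 z z)))))))))) z)))) (n 0 (n 17 (n 0 z (n 0 z (n 0 z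
 (n 0 z z)))) (n 17 (n 0 z (n 0 z (n 0 z (n 0 z z)))) (n 17 (n 0 z (n 0 z (n 0 z (n 0 z z))))
 z))) (n 0 (n 0 z (n 0 z z)) (n 0 (n 0 z z) (n 0 z z))))))) (n 0 (n 0 z (n 0 z (n 1 (n 2164299 z
 (n 2164299 z (n 2164299 z (n 2164299 z (n 2164299 z (n 2164299 z z)))))) z))) (n 0 z z))))
 z)))))))))), by decide +kernel⟩
theorem i10336 : ∃ t, chkR KT RW t 10336 10346 = true := ⟨(n 0x1298a88a1548ce48e5211 (n 0 (n 441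
 (n 0 z (n 3282443 z (n 0 z z))) (n 435 (n
 0x23a6407de8308417d079f8428507ca81f7a37d48217ce82c7ff7e08647ce7dc8327b981380083283c8217608748487b883287178d89b7d37d076f7908c483670a8e17448218518708c973c75c83c0051
 z (n 2 z (n 0 z (n
 0x16ca8ca80078017c782582280d7e57d48087e780e7f280880280d7cf8118157e97fc8487ee8007f78078168208187e77f580b80b7f67cb80582581e7f77cc8018217dd8507e180e7e480682d7ea7ad83b0811
 z (n 0 z (n 0 z (n 3278363 z (n 0 z (n 0 z (n 0 z (n 0 z z))))))))))) (n 9 (n 3212843 z (n 0 z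
 (n 0 z (n 0 z (n 0 z z))))) (n 27 (n 0 z (n 0 z (n 0 z (n 0 z (n 0 z (n 0 z (n 2164283 z
 z))))))) (n 1 (n 0 z (n 10 z (n 0 z (n 0 z (n 0 z (n 0 z (n 0 z (n 0 z (n 6554139 z (n 0 z (n 0
 z z))))))))))) (n 0 (n 0 z (n 0 z (n
 0x18c84c642038188287df7dc7ff81680b7f68197e07e57f980181a8058137ee7fc7f27fc7ed81a7f87fc7fe8067d980981780a7f48387ec8427da8027bf7dd85382a7d68247d080380681c8207d17cf8000811
 z (n
 0x336108017f97f580180d7fd7fc8107f481380f8037fa7f77f880780b7fa8087e88087e87ff8078057fb80f7fd8027ff80580d7f37e980880380b7f27f081380080481b7f97fb7f78058147f47ef0051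
 z (n 18 z (n 26 z (n 0 z (n 0 z (n 6628411 z z))))))))) z)))))) (n 441 (n 0 (n 537 (n 0 z (n 0
 z (n 0 z (n 0 z (n 0 z (n 0 z (n 0 z (n 0 z (n 2 (n 1 z (n 1 z z)) (n 0 z (n 0 z z)))))))))))
 (n 481 (n 0 z (n 0 z (n 0 z (n 0 z (n 0 z (n 0 z (n 0 z (n 0 z (n 0 z z))))))))) (n 481 (n 0 z
 (n 0 z (n 0 z (n 0 z (n 0 z (n 0 z (n 0 z (n 0 z (n 0 z z))))))))) z))) (n 0 (n 1 (n 0 z (n 0 z
 (n 0 z (n 0 z (n 0 z (n 0 z (n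
 0x10ec6ec64077d777583c87885979c7c185077989284580b7b77cc7f67f387a7d57fb7b08327bb8437e38267dd8717d68147e58428077ee71682c77f8fe8407587d27fd7eb8ce83a86572a7fc8a48177d60811
 z z))))))) (n 1 (n 0 z (n 0 z (n 0 z (n 0 z (n 0 z (n 0 z (n 0 z z))))))) z)) (n 0 (n 0 z z) (n
 0 z z)))) (n 0 (n 0 z (n 1 (n 3282443 z (n 3282443 z (n 3282443 z (n 3282443 z (n 3282443 z (n
 3282443 z z)))))) (n 0 z z))) (n 0 z z)))) (n 0x4acca1daad (n 0 (n 563 (n 0 z (n 0 z (n 3282443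
 z (n
 0x1d95195080e08ca8c864038675809580807a8a729979a259737d69898d78718e7b93797a9870819563806aab7f89648b858d885a7174928e97737587831009
 z (n 0 z (n 0 z (n 0 z (n 0 z (n 0 z (n 0 z (n
 0x1d95195080e0cca8ca2407817972997f8f7f896b8e76ab6471726c8f88796d877a947d81a1639d8a698e7d9e6f766e847e83845f6f66969b98765f96871009
 z (n 0 z (n 0 z (n
 0xaca6c864030164365120380329b20901c059515048060aa86ca0407887a837a8a748e718a7c73966e79618aa568658270989f9477738a788482898e989b63577aa195696e718789ab7381848a7b2809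
 z z)))))))))))))) (n 451 (n 3278363 z (n 0 z (n 0 z (n 0 z (n 0 z (n 0 z z)))))) (n 517 (n
 0x5b18018630817e8182807f7a7d8280847f7d7d83808082817f807f877e817f8080847d827b8381817c83817f7f7f8081817d7f7e837e800089
 z (n 0 z (n 3212843 z (n 0 z (n 0 z (n 0 z z)))))) (n 3 (n 0 z (n 2164283 z (n 0 z (n 0 z (n 0
 z (n 0 z (n 0 z (n 0 z z)))))))) (n 1 (n 0 z (n 2164299 z (n 0 z z))) (n 0 (n 0 z (n 2 z (n
 2164315 z (n 10 z (n 0 z (n 0 z (n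
 0x5b18818631817e8182807f7a7d8280847f7d7d83808082817f807f877e817f8080847d827b8381817c83817f7f7f8081817d7f7e837e800089
 z z))))))) z)))))) (n 1 (n 0 (n 0 z z) (n 0 z z)) (n 0 (n 0 z (n 1 (n 2164299 z (n 2164299 z (n
 2164299 z (n 2164299 z (n 2164299 z (n 2164299 z z)))))) (n 0 z z))) (n 0 z z)))) (n 0xc29d (n
 0 (n 179 (n 0 z (n 0 z (n 0 z (n 0 z (n 0 z (n 3282443 z (n 0 z (n 0 z (n 0 z (n 0 z (n 0 z (n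
 0 z (n 0 z (n 0 z z)))))))))))))) (n 255 (n 0 z (n 3278363 z (n 0 z (n 0 z (n 0 z z))))) (n 173
 (n 3212843 z (n 0 z (n 0 z (n 0 z (n 0 z z))))) (n 27 (n 0 z (n 0 z (n 2164283 z (n 0 z (n 0 z
 (n 0 z z)))))) (n 1 (n 6635787 z (n 0 z (n 0 z (n 0 z (n 6635787 z z))))) (n 0 (n 0 z (n 2 z (n
 0x12ca46208072165321040181b21b21881c1190990840606c86c860077f80818079878780807982807f8481808a787c737b818d888572767291807b885e967a93718f798c878675897e907c8e80802809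
 z (n 0 z (n 0 z (n 0 z (n
 0x1131882963081807f8381817f7d807f837f7f7d7c808381838680827c817e7f7c7e847f7b8182847e7d847e877e82847f817b817e837d7f0089
 z (n 6635787 z (n 3282523 z (n
 0x5909904c0e00c86c862077f807e837a7f8084877b828082827a828680847f847c807888847b7a847d7f788081827d8282817e877b7b8484857c8181811009
 z (n 0 z (n 0 z (n 6635787 z (n 0 z (n 0 z (n
 0x4990008b2001864080808080808080808080817f82807f7f80808081817f807f818080808081808080817f807f817f8080807f8080807f81808000c9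
 z z)))))))))))))))) z)))))) (n 255 (n 0 z z) (n 0 (n 0 z (n 1 (n 6635787 z (n 3278363 z (n
 3278363 z (n 3278363 z (n 3278363 z (n 3278363 z z)))))) (n 0 z (n 0 z (n 0 z z))))) (n 0 z
 z)))) (n 0 (n 0 (n 183 (n 0 z (n 0 z (n 0 z (n 0 z (n 3282443 z (n 0 z (n 0 z z))))))) (n 33 (n
 0 z (n 0 z (n 3278363 z (n 4326939 z (n 0 z (n
 0x2ca8a864078207e08608208208a081f8207e18208208208208208218238208208208207e08208218208200801 z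
 (n 0x2ca6ca080381f82185f82082086181f7e07e186082086082085f8218217e17e17e18207e07e082181f8200801
 z z))))))) (n 129 (n 0 z (n 0 z (n 0 z (n 0 z (n 6628123 z (n 6628123 z z)))))) (n 3 (n 0 z (n
 0 z (n 6493483 z (n 6493483 z (n 0 z (n 0 z (n 0 z (n
 0x2ca8a8240781f8208217e082086081f81f7e082086082081f8208208208218207e08207e18208207e08200801 z
 (n 0 z (n
 0x2ca4ca280381f7e18a081f8208a085e85e7a181f8a08207df8608218247a27a07e08607a17e17e17e18200801 z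
 z)))))))))) (n 1 (n 0 z (n 0 z (n 0 z (n 0 z (n 0 z (n 2164299 z (n 0 z (n 0 z z)))))))) (n 0
 (n 0 z (n 0 z (n 6628123 z (n 6628123 z (n 0 z (n 0 z (n 0 z z))))))) z)))))) (n 129 z (n 0 (n
 0 z (n 0 z (n 0 z (n 0 z (n 1 (n 6628123 z (n 6628123 z (n 6628123 z (n 6628123 z (n 6628123 z
 (n 6628123 z z)))))) (n 1 (n 6628123 z (n 6628123 z (n 6628123 z (n 6628123 z (n 6628123 z (n
 6628123 z z)))))) z)))))) (n 0 z z)))) (n 0x4763b0448c21d8e66828a921d4520e2 (n 0 (n 443 (n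
 3282443 z (n 0 z z)) (n 571 (n 0 z (n 3278363 z (n 0 z (n 0 z (n 0 z z))))) (n 129 (n 2 z (n
 0x2ca4a208038007ff8017ff8008007ff7ff8008018008008008008008008008008008008008008008008008018008008008008008018008007ff7ff8008008007ff8018018007ff8008008008008008000811
 z (n 6423883 z (n 10 z (n
 0xa46537cd8087fc7fe81a81e8377e57df7ff82c80e7f97cf8057e281c7f87fd8058337f781c7d380f80780f81e7f281281d8327dd78b84b80987977f7c58207be8758247de7ed79785f8647a48190051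
 z (n 18 z (n 0 z (n
 0x2ca8ca80037ff8008008007fd8008007ff8008007ff8028007ff8017ff8028017fe8018018018028007ff8008017ff7fd7fe8018008038008017fd8008017fe7ff8008018008008018008007ff8018010811
 z (n 0 z (n 3212843 z z)))))))))) (n 3 (n 0 z (n 2164283 z z)) (n 1 (n 0 z (n 0 z (n 26 z (n
 2164299 z (n 0 z (n 34 z (n 0 z (n 0 z z)))))))) (n 0 (n 0 z (n 0 z (n 0 z (n 0 z (n 0 z (n
 0x1556107fd8057fe7ef80980e80e7f67ef8057fc8117f57ff7ef7f08087fc7f880681d7fb8057f97ff7fa80280e7db7eb8078027ff7ea80b81a80e7f77fc7fe7fd8138157e87fb8078028007f381f0051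
 z (n 0 z (n 2164315 z (n 0 z (n 0 z (n 42 z (n 0 z (n 0 z (n 0 z (n 0 z (n 0 z (n 0 z (n 0 z (n
 0 z z))))))))))))))))))) z)))))) (n 443 (n 0 (n 0 z (n 0 z (n 255 (n 0 z (n 0 z (n 0 z (n 0 z
 (n 0 z (n 0 z (n 0 z (n 0 z z)))))))) (n 255 (n 0 z (n 0 z (n 0 z (n 0 z (n 0 z (n 0 z (n 0 z
 (n 0 z z)))))))) (n 893 (n 0 z (n 0 z (n 0 z (n 0 z (n 0 z (n 0 z (n 0 z (n 0 z (n 0 z (n 0 z
 z)))))))))) z))))) (n 0 (n 0 z (n 831 (n 2 (n 0 z (n 1 z z)) (n 0 z (n 0 z (n 0 z (n 0 z (n 0 z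
 (n 0 z (n 0 z (n 0 z (n 0 z (n 0 z z))))))))))) (n 831 (n 0 z (n 0 z (n 0 z (n 0 z (n
 0x6c7637df8057fd7fe8118148237ef7eb7ff81c80a7fc7e18037ed8127fb7ff8038217fa8127e380a8048098137f880c8118217e97b582f80684e7ad7da8157d684a8177ea7f27bd83d8407c58100051
 z (n 0 z (n 0 z (n 0 z (n 0 z (n 0 z (n 0 z z))))))))))) (n 845 (n 0 z (n 0 z (n 0 z (n 2 z (n
 0 z (n 0 z (n 0 z (n 0 z (n 0 z (n 0 z z)))))))))) z)))) (n 0 (n 255 (n 0 z (n 0 z (n 0 z (n 0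
 z (n 0 z z))))) (n 255 (n 0 z (n 0 z (n 0 z (n 0 z (n 0 z z))))) (n 893 (n 0 z (n 0 z (n 0 z (n
 0 z (n 0 z (n 0 z (n 0 z (n 0 z (n 0 z (n 0 z (n 0 z (n 0 z (n 0 z (n 0 z (n 0 z (n
 0x3f1d8c031bb180156107f180e80e80e8077fe8198058117dd8137d48037f281f8137f68147f07ea7f78298077f37f88007f47f98228057d68227ec8287df7f28107f981381d7e57e58028357ee80d7f58067ff7f800d1
 z (n 0 z (n 0 z (n 0 z (n 0 z (n 0 z (n 0 z (n 0 z (n 0 z (n 0 z (n 0 z (n 0 z (n 0 z (n 0 z (n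
 0 z (n 0 z (n 0 z (n 0 z (n 0 z (n 0 z (n 0 z (n 0 z (n 0 z (n 0 z (n 0 z (n 0 z (n 0 z (n 0 z
 (n 0 z (n 0 z (n 0 z z)))))))))))))))))))))))))))))))))))))))))))))) z))) (n 0 (n 0 z (n 1 (n 0
 z (n 0 z (n 0 z (n 0 z (n 0 z (n 0 z (n 0 z (n 0 z (n 0 z (n 0 z (n 0 z (n 0 z (n 0 z (n 0 z (n
 0 z (n 0 z z)))))))))))))))) z)) (n 0 (n 25 (n 0 z (n 0 z (n 0 z (n 0 z (n 0 z (n 0 z z))))))
 z) (n 0 z z)))))) (n 0 (n 1 (n 3282443 z (n 3282443 z (n 3282443 z (n 3282443 z (n 3282443 z (n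
 3282443 z z)))))) (n 0 z z)) (n 0 z z)))) (n 0x6d54a167a50996698844b6903262611 (n 0 (n 321 (n 0
 z (n 0 z (n 3282443 z (n
 0x11b6437f07e981b7f57ea7eb7fa83a7ed81d81c7c282780281d8237fc7e080b7988267d78267e88107f08007d37fc81580e82d8018088077ff8198028047e97e37fd80a7ff7ea7cf7f680d80a7f00051
 z z)))) (n 255 (n 2 z (n 0 z (n
 0x16ca2a408037d77dc7c37f28247e57cf7f58488008258328087ab78481e8587fc83287c7b784078b8277e38298257f37c480e7f977e80f7f880c7fb7e681f7cb81c8147f27f97ed8268188078097fa8100811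
 z (n 0 z (n 0 z (n 0 z (n
 0x30a64ca28077fe86e7c47d77f886986d7807e27c781b8657c27ad8087ba84e7b18038928198477668cb78e83a7f47eb80282d7e87e68238067df7e182778f7f182c7888237c987386678f84f81c81a7ce0811
 z (n 0 z (n
 0x12ca6ca64077f17d281e7ca7db7cc7d18677d383b8107b684c8368358457f27cc81174383778d8737a38437697ce7b68327f980d87a81d8168397eb85f8158497c082d8147ff7cd7357f67b48097d681f0811
 z (n
 0x1328a90200c00990d90c80e00cca8ca800380580c7c37ef8038298037bc7ed7f58198547e17be7d27f18497d881287c7e98317988827ad8278017ef7fd80e7f37b48187da8127dd8147db7dd8267e88317e283d8227e980e7ff8137f01811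
 z (n 0 z (n 0 z (n 3278363 z (n 0 z (n 0 z (n 0 z (n
 0x5328a98201c019951950c0e016ca8ca800381181f7e67d77da7eb81a8197bc81f8147fe8237db80084185379d82178085c77e83182180c8067f579d7e68178118727f37da8378048737cb7e880c7a985e80e81d7c379c7ea8328047d81811
 z (n 10 z (n 0 z (n
 0xf641320501800b29b29201c00d9454c100e004ca8ca86077a579c7ab7f98467d479f80888d80087183781a7487028508aa7df87c8be78686a72d83b7dd8448547e87958207ff72c8178088157fb7ca83d7aa8118107d97f77c884682782680f7df8332011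
 z z)))))))))))))))))))) (n 9 (n 18 z (n 0 z (n 0 z (n 0 z (n 0 z (n 0 z (n 0 z (n 0 z (n 0 z (n
 3212843 z (n 0 z (n 0 z (n 0 z z))))))))))))) (n 27 (n 0 z (n 2164283 z (n 0 z (n 0 z (n 0 z (n
 0 z z)))))) (n 1 (n 0 z (n
 0x11b6107f07e981b7f57ea7eb7fa83a7ed81d81c7c282780281d8237fc7e080b7988267d78267e88107f08007d37fc81580e82d8018088077ff8198028047e97e37fd80a7ff7ea7cf7f680d80a7f00051
 z (n 0 z (n 0 z (n 2164299 z z))))) (n 0 (n 26 z (n 0 z (n 34 z (n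
 0xac86c642077fc8057f980080480d8057f580480180680d7f97e87ee7fd8147f68068177f980a7e681b7ec80d8047fb7f77ff7f97ed80a8038087ff7ff8007fd8077f18027f38028197fc80b7fa7fe8030811
 z (n 6619675 z (n
 0x1d90d90c80e018ca88642037f47e27f87fa7f17e57e381c80e81281d7fc8187dd7da8238357f181d7f97f57f27ee7fe8068088027d77e18097fc7ee80480981780c7ff8097f48097f080e7fe7f77fd7f480680f7f68001011
 z (n 0 z (n 0 z (n 6619675 z (n
 0xc6b10018462084582a7f07d37d07f48298077e27fe79880080f83e8657f77a17f37997d98447d985c7ed8168047fd7e180785182d8288107c48057cc8017c47ec7f27c68318028387c17b980282880c7d60091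
 z (n
 0x1909904c0600ac86c842077f77f78248027ef8057fe83780081080e7cc8127fe81c8067f57ef8097ad80d7e88187f58117ed8017f17f88068038248158208058117fc81880b7e67ec7e77f87ed8077f68037fc8037fe1011
 z (n
 0xd905880c06008ca88642077e17db7ef80680f7f87e180681c80482d80d8057c87bd81d8347e98278267de8167cb8147fc80b80c7fb7f580b7ff7e28048068057f17fc80e7ef8007fb8027f87f28098068088007f980d1011
 z (n 42 z z))))))))))))) z)))))) (n 321 (n 0 (n 0 z (n 1275 (n 0 z (n 0 z (n 0 z (n 0 z (n 0 z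
 (n 0 z z)))))) (n 505 (n 0 z (n 0 z (n 2 (n 0 z (n 0 z z)) (n 0 z (n 0 z (n 0 z (n 0 z (n 0 z
 z)))))))) (n 505 (n 0 z (n 0 z (n 0 z (n 0 z (n 0 z (n 0 z (n 0 z (n 0 z z)))))))) (n 505 (n 0
 z (n 0 z (n 0 z (n 0 z (n 0 z (n 0 z (n 0 z (n 0 z z)))))))) z))))) (n 0 (n 915 (n 0 z (n 0 z
 (n 0 z (n 0 z (n 0 z z))))) (n 509 (n 0 z (n 0 z (n 0 z (n 0 z (n 0 z (n 0 z (n
 0x16ec8ec46037f68037f07fd8038028037fa80f80780880c8037d57eb80a81f7e88088087f97fc7ed81f7f78048097f07eb8027ff7f08137fc80880480d8017eb8087f08007f78008137f080880480b7f90811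
 z (n 0 z (n 0 z (n 0 z z)))))))))) (n 509 (n 0 z (n 0 z (n 0 z (n 0 z (n 0 z (n 0 z (n 0 z (n 0
 z (n 0 z (n 0 z z)))))))))) (n 509 (n 0 z (n 0 z (n 0 z (n 0 z (n 0 z (n 0 z (n 0 z (n 0 z (n 0
 z (n 0 z z)))))))))) z)))) (n 0 (n 13 (n 0 z (n 0 z (n 0 z (n 0 z (n 0 z (n 0 z (n 0 z (n 0 z
 (n 2 (n 0 z (n 0 z z)) (n 0 z (n 0 z (n 0 z (n 0 z (n 0 z (n 0 z (n 0 z (n 0 z (n 0 z (n 0 z (n
 0 z (n 0 z (n 0 z (n 0 z (n 0 z (n 0 z z))))))))))))))))))))))))) (n 13 (n 0 z (n 0 z (n 0 z (n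
 0 z (n 0 z (n 0 z (n 0 z (n 0 z (n 0 z (n 0 z (n 0 z (n 0 z (n 0 z (n 0 z (n 0 z (n 0 z (n 0 z
 (n 0 z (n 0 z (n 0 z (n 0 z (n 0 z (n 0 z (n 0 z (n 0 z z))))))))))))))))))))))))) (n 13 (n 0 z
 (n 0 z (n 0 z (n 0 z (n 0 z (n 0 z (n 0 z (n 0 z (n 0 z (n 0 z (n 0 z (n 0 z (n 0 z (n 0 z (n 0
 z (n 0 z (n 0 z (n 0 z (n 0 z (n 0 z (n 0 z (n 0 z (n 0 z (n 0 z (n 0 z
 z))))))))))))))))))))))))) z))) (n 0 (n 0 z (n 0 z z)) (n 0 (n 0 z z) (n 0 z z)))))) (n 0 (n 0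
 z (n 0 z (n 1 (n 3282443 z (n 3282443 z (n 3282443 z (n 3282443 z (n 3282443 z (n 3282443 z
 z)))))) (n 1 (n 2044 z (n 2044 z (n 5443683 z (n 2044 z (n 2044 z (n 2044 z z)))))) z)))) (n 0
 z z)))) (n 0x2e0656a036324289e8468a222a44c112 (n 0 (n 713 (n 3282443 z (n 0 z z)) (n 709 (n
 3278363 z (n 0 z z)) (n 9 (n 2 z (n
 0x2eca6ca62037e88247f48237fe8087c58137cc8147f07ea80e7e97ca7eb81880f8198057f381e7f68057ef8537fe8157d27e580e7c88257de8128177f37fa8127fb80680080b7ff8117de7e480f8037ec0811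
 z (n
 0x56ca6ca62037ea7db7f08397e27f37a685479484d8258407cd7f58628447f680684678a7f47b57c68277e17967a07af89f83979a87a89d8647ed7748057968cb7c580d7bb8287ed7b67b284f8247e47fc0811
 z (n
 0x2dd6547f37ef84077e85979087c7748957dc7f67c781b88983384478785b7d48b481778e7df78c82d75785677981a8077ec8367028318718488807a778f84884686e82a79675e84f81f7fe7ad83a0051
 z (n 3212843 z (n 10 z (n 18 z z))))))) (n 3 (n 26 z (n
 0x104ca6a842037ba8258287268397b88d77568997d48187cc81f8038657c57f97dd82c87e87878b7b882980d7418357ac8008227f88097027a788c89186976874f8c58118768487b073d84284283e75480d0811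
 z (n 34 z (n 0 z (n
 0x6ca4c842038008008008008008008018017ff7fd8008008018018008038028008008008008017ff8007ff8007ff7ff8008008008008027ff7ff8008028018008008008008008027ff8007fe8038007ff0811
 z (n
 0x40c84c842037fb8037f87fb7f48048097fe7f27e98008107f27ee81d7ed7f57f88057d57f28268138087fa7f47ee80e8127f88097fb82280c7d97f87ea8118117f480f7ec8028218128007e280e80c7e90811
 z (n 42 z (n 2164283 z z)))))))) (n 1 (n 0 z (n 6554411 z z)) (n 0 (n 0 z (n 0 z (n 2164315 z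
 (n 0 z z)))) z)))))) (n 713 (n 0 (n 0 z (n 0 z (n 661 (n 0 z (n 0 z (n 0 z (n 0 z (n 0 z (n 0 z
 (n 0 z (n 0 z (n 0 z (n 0 z (n 0 z z))))))))))) (n 661 (n 0 z (n 0 z (n 0 z (n 0 z (n 0 z (n 0
 z (n 0 z (n 0 z (n 2 (n 0 z z) (n 0 z (n 0 z z))))))))))) (n 661 (n 0 z (n 0 z (n 0 z (n 2 z (n
 0 z (n 0 z (n 0 z (n 0 z (n 0 z (n 0 z (n 0 z z))))))))))) z))))) (n 0 (n 0 z (n 1177 (n 0 z (n
 0 z (n 0 z (n 0 z (n 7746051 z (n 0 z (n 0 z z))))))) (n 1177 (n 0 z (n 0 z (n 0 z (n 0 z (n 0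
 z (n 0 z (n 0 z z))))))) (n 1177 (n 0 z (n 0 z (n 0 z (n 0 z (n 0 z (n 0 z (n 0 z z)))))))
 z)))) (n 0 (n 1157 (n 0 z (n 0 z (n 0 z (n 0 z (n 0 z (n 0 z (n 0 z (n 0 z (n 0 z (n 0 z (n 0 z
 (n 0 z (n 0 z (n 0 z (n 0 z (n 0 z (n 0 z (n 0 z (n 0 z (n 0 z (n 0 z (n 0 z (n 0 z (n 0 z (n 2
 (n 0 z (n 0 z z)) (n 0 z (n 0 z (n 0 z (n 0 z (n 0 z (n 0 z (n 0 z
 z)))))))))))))))))))))))))))))))) (n 1157 (n 0 z (n 0 z (n 0 z (n 0 z (n 0 z (n 0 z (n 0 z (n 0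
 z (n 0 z (n 0 z (n 0 z (n 0 z (n 0 z (n 0 z (n 0 z (n 0 z (n 0 z (n 0 z (n 0 z (n 0 z (n 0 z (n
 0 z (n 0 z (n 0 z (n 0 z (n 0 z (n 0 z (n 0 z (n 0 z (n 0 z (n 0 z (n 0 z
 z)))))))))))))))))))))))))))))))) (n 1157 (n 0 z (n 0 z (n 0 z (n 0 z (n 0 z (n 0 z (n 0 z (n 0
 z (n 0 z (n 0 z (n 0 z (n 0 z (n 0 z (n 0 z (n 0 z (n 0 z (n 0 z (n 0 z (n 0 z (n 0 z (n 0 z (n
 0 z (n 0 z (n 0 z (n 0 z (n 0 z (n 0 z (n 0 z (n 0 z (n 0 z (n 0 z (n 0 z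
 z)))))))))))))))))))))))))))))))) z))) (n 0 (n 0 z (n 0 z z)) (n 0 (n 0 z z) (n 0 z z)))))) (n
 0 (n 1 (n 3282443 z (n 3282443 z (n 3282443 z (n 3282443 z (n 3282443 z (n 3282443 z z)))))) (n
 0 z z)) (n 0 z z)))) (n 0xb5c545693a1264db584d384289a4254abb00 (n 0 (n 399 (n 2 z (n 0 z (n 0 z
 (n 0 z (n 3282443 z (n 0 z z)))))) (n 33 (n 3278363 z (n 0 z (n 0 z z))) (n 171 (n
 0x12ca8ca80078127f27fc8077ea80d7ec8027f58048027f780a7ff8227ef7f78057f77f68088088087f98007ee8008187ee7f281180d7f88127fb80d7f78077fe80980080a7ec7fd7fb80b7f67ea7f88000811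
 z (n 10 z (n 18 z (n 0 z (n
 0x28ca4a608037f67ed7ff8027f982482a8048137e58137f38007f08217d97fc7ff7fb7e58008038027fe8057eb80981f7f87f78128438008257db7f17fa80380a7f47e18067cf80a7f980d8047ee7fc8090811
 z (n 26 z (n 3212843 z z))))))) (n 3 (n 0 z (n 6567211 z (n 0 z (n 0 z z)))) (n 1 (n 0 z (n 0 z
 (n 6567211 z (n 0 z (n 0 z (n 0 z (n 0 z (n 0 z z)))))))) (n 0 (n 34 z (n
 0x4c6217ff7ec7ff80f7f38097e18037e481980480b7fb7ff7f77fd8078087f28227f98157f98027fb8027fa8068007fc7fd7ed8117fa8088028038048057fd80081a7f88077e28017f680d7ea7f90051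
 z (n
 0x2aca886240780c7c37f284a7c58327d885f7d581c7f08238018127f281f7fc7ea7e481f79881f7f08228048257d37e880c82b7ed81285f8587d77c97b57f88487c28207d57e78028108098248107e28150811
 z (n 0 z (n 42 z (n
 0xcca88604078007fe8028047fd8058008087fa8007ff7ff8018018018017fd7fe8037ff8017fd8027ff8028038008017fe8038008058018047fb7ff7fa7fe8047fc7f87fd7f58078088048037fc8028050811
 z (n
 0x1c6108027ff8018017ff7ff7fe8008008008008018008008018008008008007ff8008008008008007fe8008017ff7ff7ff8018018008007ff8008018018008018007ff8008018018008018018000051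
 z (n 2164315 z (n 50 z (n
 0xc86c864078027fe8018017fe8007ff8018017ff8018008008008028008008008008007ff8007ff8008017ff8018007fe8008008028008018007ff7ff8008008008008018008008008008008018008000811
 z (n 0 z z))))))))))) z)))))) (n 33 (n 0 (n 795 (n 0 z (n 0 z (n 0 z (n 0 z (n 0 z (n 0 z (n 0
 z (n 0 z (n 0 z (n 0 z (n 0 z z))))))))))) (n 795 (n 0 z (n 2 (n 0 z (n 2 (n 0 z (n 0 z (n 0 z
 (n 0 z (n 0 z (n 0 z z)))))) (n 2 (n 0 z (n 0 z (n 0 z (n 0 z (n 0 z (n 0 z z)))))) (n 2 (n 0 z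
 (n 0 z (n 0 z (n 0 z (n 0 z (n 0 z z)))))) z)))) (n 0 z (n 0 z (n 0 z (n 0 z (n 0 z (n 0 z (n 0
 z (n 0 z (n 0 z z))))))))))) (n 795 (n 0 z (n 0 z (n 0 z (n 0 z (n 7754307 z (n 0 z (n 0 z (n 0
 z (n 0 z (n 0 z (n 0 z z))))))))))) (n 793 (n 0 z (n 0 z (n 0 z (n 0 z (n 0 z (n 0 z (n 0 z (n
 2 (n 0 z (n 0 z z)) (n 0 z (n 0 z (n 0 z (n 0 z (n 0 z (n 0 z (n 0 z (n 0 z (n 0 z (n 0 z (n 0
 z (n 0 z z)))))))))))))))))))) (n 793 (n 0 z (n 0 z (n 0 z (n 7754307 z (n 0 z (n 0 z (n 0 z (n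
 0 z (n 0 z (n 0 z (n 0 z (n 0 z (n 0 z (n 0 z (n 0 z (n 0 z (n 0 z (n 0 z (n 0 z (n 0 z
 z)))))))))))))))))))) (n 793 (n 0 z (n 0 z (n 0 z (n 0 z (n 0 z (n 0 z (n 0 z (n 0 z (n 0 z (n
 0 z (n 0 z (n 0 z (n 0 z (n 0 z (n 0 z (n 0 z (n 0 z (n 0 z (n 0 z (n 0 z z))))))))))))))))))))
 z)))))) (n 0 (n 0 z (n 0 z (n 341 (n 0 z (n 0 z (n 0 z (n
 0x96c64ea08077967827fa8307ea88185b8727ed81989383d7d07998147568347fb8237e67e97d17a183280e7de8108a481279785798d8798ba7537037eb79987575a7467c770483182a8a186e7767fd8870811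
 z (n 0 z (n 0 z (n 0 z (n 0 z z)))))))) (n 341 (n 0 z (n 0 z (n 0 z (n 0 z (n 0 z (n 2 (n 0 z
 z) (n 0 z (n 0 z z)))))))) (n 341 (n 0 z (n 0 z (n 0 z (n 0 z (n 0 z (n 0 z (n 0 z (n 0 z
 z)))))))) z))))) (n 0 (n 0 z (n 785 (n
 0x1d7618028018017f98017fe8067fb80f7f57fd8007fe8067ff8008018037fb8087ed8087f88057fe7f17fd8018097f67ff7fe7fb80e7f68028018068047ff81b8068027fa7e58077fb8047f98010051
 z (n 0 z (n 0 z (n 0 z (n 0 z (n 0 z (n 0 z (n 0 z (n 0 z (n 0 z (n 0 z (n 0 z (n 0 z (n 0 z (n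
 0 z (n 0 z (n 0 z (n 0 z (n 0 z (n 0 z (n 0 z (n 0 z (n 0 z (n 0 z (n 0 z (n 0 z (n 0 z (n 0 z
 (n 0 z z))))))))))))))))))))))))))))) (n 785 (n 0 z (n 0 z (n 0 z (n 0 z (n 0 z (n 0 z (n 0 z
 (n 0 z (n 2 (n 0 z z) (n 0 z (n 0 z (n 0 z (n 0 z (n 0 z (n 0 z (n 0 z (n 0 z (n 0 z (n 0 z (n
 0 z (n 0 z (n 0 z (n 0 z (n 0 z (n 0 z (n 0 z (n 0 z (n 0 z (n 0 z
 z))))))))))))))))))))))))))))) (n 785 (n 0 z (n 0 z (n 0 z (n 0 z (n 0 z (n 0 z (n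
 0x4c7607ff7ec7ff80f7f38097e18037e481980480b7fb7ff7f77fd8078087f28227f98157f98027fb8027fa8068007fc7fd7ed8117fa8088028038048057fd80081a7f88077e28017f680d7ea7f90051
 z (n 0 z (n 0 z (n 0 z (n 0 z (n 0 z (n 0 z (n 0 z (n 0 z (n 0 z (n 0 z (n 0 z (n 0 z (n 0 z (n
 0 z (n 0 z (n 0 z (n 0 z (n 0 z (n 0 z (n 0 z (n 0 z (n 0 z z)))))))))))))))))))))))))))))
 z)))) (n 0 (n 337 (n 0 z (n 2 (n 0 z (n 0 z z)) (n 0 z (n 0 z (n 0 z (n 0 z (n 0 z (n 0 z (n 0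
 z (n 0 z (n 0 z (n 0 z z)))))))))))) (n 337 (n 0 z (n 0 z (n 0 z (n 0 z (n 0 z (n 0 z (n 0 z (n
 0 z (n 0 z (n 0 z (n 0 z (n 0 z z)))))))))))) (n 337 (n 0 z (n 0 z (n 0 z (n 0 z (n 0 z (n 0 z
 (n 0 z (n 0 z (n 7754307 z (n 0 z (n 0 z (n 0 z z)))))))))))) z))) (n 0 (n 0 z (n 0 z z)) (n 0
 (n 0 z z) (n 0 z z))))))) (n 0 (n 1 (n 3278363 z (n 3278363 z (n 3278363 z (n 3278363 z (n
 3278363 z (n 3278363 z z)))))) (n 0 z (n 0 z z))) (n 0 z z)))) (n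
 0x20d93350ea6c8ad348325bcb300b548093640 (n 0 (n 179 (n
 0x32ca6ca64037f181e80a7ce7f87ed8277e28187f480f7fc7ce8127fe8157c48407da81e7f97e184b77e8417df8227c28258297d47fb7ed8288167f081e7c182c7fd7e48137e47eb7d47ff83a81e7e281c0811
 z (n 2 z (n 10 z (n
 0x1cc86a864077f58057fe7f87f07f481f7f180780c8157f87f77e97fb7f880680d7fc7e781a80382f7d78057fc7ff7e98147f77f78357fc7fb7f67e481480c8237e17fb80d8127d57ec81a7f88177ef81e0811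
 z (n 0 z (n 3282443 z (n
 0x10c86a864037fd8058057fc7fe8017ff8047fb7f87f88037fd8288077fd7e68207dd8107f080d80b7d58187f58017fd80480b7f88077f78077f17fb8047fb8007fd80a80a7f880f7f08048018078037f90811
 z (n 18 z z)))))))) (n 249 (n 0 z (n 0 z (n 6624011 z z))) (n 131 (n 0 z (n 3212843 z (n 0 z
 z))) (n 3 (n 26 z (n
 0x22ca8ca84078057e884a7d57f97ce81a7ee84a7e67db8157e383181f80778284f7d48257fd7ea84b79582d80d81a7cb81f8827ea7cf8167d08277d27f57e07f07ee7b687779e8298027f483784081b8030811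
 z (n 34 z (n 0 z (n 2164283 z (n
 0x1eca8ca04037f27fd7fe7f18027f080480a7f681d82b8027f97ce8058068217e68247d282d7cb8018138067f07fe7f680d7f87fb8248067fe81f7f57fb7f58157f87ec7ff8127d18037ff81c8077df8180811
 z (n 42 z z))))))) (n 1 (n 0 z (n 50 z (n 2164299 z z))) (n 0 (n 0 z (n 6624011 z z)) z))))))
 (n 0 (n 0 (n 0 z (n 0 z (n 45 (n 0 z (n 0 z (n 0 z (n 0 z (n 0 z (n 0 z (n 0 z (n 0 z (n 0 z (n
 0 z z)))))))))) (n 45 (n 0 z (n 0 z (n 0 z (n 2 (n 0 z (n 1 z z)) (n 0 z (n 0 z (n 0 z (n 0 z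
 (n 0 z (n 0 z z)))))))))) (n 45 (n 0 z (n 2 (n 2 (n 0 (n 8794131 z z) (n 0 (n 8794131 z z) (n 0
 z (n 0 (n 8794131 z (n 8794131 z z)) (n 0 z (n 0 z z)))))) z) (n 0 z (n 0 z (n 0 z (n 0 z (n 0
 z (n 0 z (n 0 z (n 0 z z)))))))))) (n 255 (n 0 z (n 0 z (n 0 z (n 0 z (n 0 z (n 0 z (n 0 z (n 0
 z (n 0 z z))))))))) z)))))) (n 0 (n 0 z (n 201 (n 7745555 z (n 0 z (n 0 z (n 0 z (n 0 z (n 0 z
 (n 0 z z))))))) (n 201 (n 0 z (n 0 z (n 0 z (n 0 z (n 0 z (n 0 z (n 0 z z))))))) (n 201 (n 0 z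
 (n 0 z (n 0 z (n 0 z (n 0 z (n 0 z (n 0 z z))))))) (n 339 (n 0 z (n 7745555 z (n 0 z (n 0 z (n
 0 z (n 0 z (n 0 z z))))))) z))))) (n 0 (n 1405 (n 0 z (n 0 z (n 0 z (n 2 (n 0 z (n 0 z (n 2 (n
 0 (n 8855811 z z) (n 0 z (n 0 (n 8855811 z z) (n 0 (n 8855811 z (n 8855811 z z)) (n 0 z (n 0 z
 z)))))) z))) (n 0 z (n 0 z (n 0 z (n 0 z (n 0 z (n 0 z (n 0 z (n 0 z (n 0 z (n 0 z (n 0 z (n 0
 z z)))))))))))))))) (n 1405 (n 0 z (n 0 z (n 0 z (n 0 z (n 0 z (n 0 z (n 0 z (n 0 z (n 0 z (n 0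
 z (n 0 z (n 0 z (n 0 z (n 0 z (n 0 z (n 0 z z)))))))))))))))) (n 1405 (n 0 z (n 0 z (n 0 z (n 0
 z (n 0 z (n 0 z (n 0 z (n 0 z (n 0 z (n 0 z (n 0 z (n 0 z (n 0 z (n 0 z (n 0 z (n 0 z
 z)))))))))))))))) (n 351 (n 0 z (n 0 z (n 0 z (n 0 z (n 0 z (n 0 z (n 0 z (n 0 z z))))))))
 z)))) (n 0 (n 0 z (n 0 z (n 15 (n 0 z (n 0 z (n 0 z (n 0 z (n 0 z (n 0 z (n 0 z (n 0 z (n 0 z
 (n 0 z z)))))))))) z))) (n 0 (n 0 z (n 3 (n 0 z (n 2 z (n 0 z (n 0 z (n 0 z (n 0 z (n 0 z (n 0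
 z z)))))))) z)) (n 0 (n 51 (n 0 z (n 6489899 z (n 0 z (n 0 z (n 0 z (n 0 z (n 0 z (n 0 z (n 0 z
 z))))))))) z) (n 0 z z))))))) (n 0 (n 0 z (n 1 (n 6624011 z (n 6624011 z (n 6624011 z (n
 6624011 z (n 6624011 z (n 6624011 z z)))))) z)) (n 0 z z)))) (n
 0x48a2a166e5a1d4e316eb1d1116e0513 (n 0 (n 321 (n 0 z (n 0 z (n 0 z (n 3282443 z z)))) (n 315 (n
 0 z (n 0 z (n 3278363 z z))) (n 9 (n 0 z (n 0 z (n 0 z (n 0 z (n 0 z (n 0 z (n 0 z (n 0 z (n 0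
 z (n 0 z (n 0 z (n 0 z (n 0 z (n 0 z (n 3212843 z (n 0 z (n 0 z z))))))))))))))))) (n 3 (n 0 z
 (n 2164283 z (n 0 z (n 2 z (n 10 z (n 0 z (n 0 z z))))))) (n 1 (n 6563131 z (n
 0x1a1bc6300072c36c6000686e98c000d7dcb180000df8630801ab0807ca07fdbef8026e480aa067ffeb6807ca07fd184805db67fdae57f21d47f8429809fe87f82f87e881b800ada8073647fb9747f21d48050857fc64f80cc5c808bdc800dc47febf481d30680a9c58099967f4f2a7f9cbe8029187f478d7fdf097f83ad7f8cc180a3957f95308096877f6fd1800d0e7eda0f7ff9c57fc9ac8081f080f3f77fdd08801bf77fe1e9803de77ffb230159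
 z (n 18 z (n
 0xcca8a6420384787d82727e768e828c818281899b846f88817272708180816f7978878b7a8b888f87776d798e7e8d7a7c798683877f79820809
 z (n 26 z (n
 0xcca4ca06078b747d887581877e92796983897c907e7385637e69759c7494938a756d927e8f8096827b65768084697e717aa2859379798b0809
 z (n
 0xcc650886e97877480868c886d475592a3808660992d6f7e9abf3bada49b7d5ea57e8c6c9166716173817c3e846598c55aa77d7b890049
 z (n
 0x1a1bc6100072c36c2000686e984000d7dcb080000df8610801ab0807ca07fdbef8026e480aa067ffeb6807ca07fd184805db67fdae57f21d47f8429809fe87f82f87e881b800ada8073647fb9747f21d48050857fc64f80cc5c808bdc800dc47febf481d30680a9c58099967f4f2a7f9cbe8029187f478d7fdf097f83ad7f8cc180a3957f95308096877f6fd1800d0e7eda0f7ff9c57fc9ac8081f080f3f77fdd08801bf77fe1e9803de77ffb230159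
 z (n
 0x2ca6ca64037f877c80877f7f847f868078867a7f807e82846d837985847e8d82877c817e82877e827c6f7f847e76777c7b96838d7680850809
 z (n 6563131 z (n 0 z z))))))))))) (n 0 (n 34 z (n 0 z (n 0 z (n 42 z (n 0 z (n 2164315 z
 z)))))) z)))))) (n 315 (n 0 (n 0 z (n 3 (n 0 z (n 0 z (n 2 (n 0 z (n 2 (n 0 (n 4 z (n 4 z z))
 (n 0 z (n 0 (n 4 z z) (n 0 (n 8660491 z z) (n 0 z (n 0 z z)))))) (n 1 z z))) (n 0 z (n 0 z (n 0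
 z (n 0 z (n 0 z (n 0 z (n 0 z (n 0 z z))))))))))) (n 3 (n 0 z (n 0 z (n 0 z (n 0 z (n 0 z (n 2
 (n 2 (n 0 z (n 0 z (n 0 z (n 0 z (n 0 z (n 0 z z)))))) (n 1 z z)) (n 0 z (n 0 z (n 0 z (n 0 z
 (n 0 z z))))))))))) (n 1 (n 0 z (n 0 z (n 0 z (n 0 z (n 0 z (n 0 z (n 0 z (n 0 z (n 0 z (n 0 z
 (n 2 (n 0 z z) (n
 0x14762837e83827f8080878281747689887486847f717a7c848c7883918685747d847e8180798c748d797f777a7e819576897d83820049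
 z (n 0 z (n 0 z (n 0 z (n 0 z (n 0 z (n 0 z (n 0 z (n 0 z (n 0 z (n 0 z (n 0 z (n 0 z (n 0 z (n
 0 z (n 0 z (n 0 z z)))))))))))))))))))))))))))) (n 1 (n 0 z (n 0 z (n 0 z (n 0 z (n 0 z (n 0 z
 (n 0 z (n 0 z (n 0 z (n 0 z (n 0 z (n 0 z (n 0 z (n 0 z (n 0 z (n 0 z (n 0 z (n 0 z (n 0 z (n 0
 z (n 0 z (n 0 z (n 0 z (n 0 z (n 0 z (n 0 z (n 0 z (n 0 z z)))))))))))))))))))))))))))) z)))))
 (n 0 (n 15 (n 0 z (n 0 z (n 0 z (n 6496371 z (n 0 z (n 0 z (n 0 z (n 0 z (n 0 z (n 0 z (n 0 z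
 (n 0 z z)))))))))))) (n 15 (n 0 z (n 0 z (n 0 z (n 0 z (n 0 z (n 0 z (n 0 z (n 2 (n 2 (n 0 z (n
 0 z (n 0 z (n 0 z (n 0 z (n 0 z z)))))) (n 2 (n 0 (n 6563851 z z) (n 0 z (n 0 z (n 0 z (n 0 z
 (n 0 (n 52 z (n 52 z z)) z)))))) z)) (n 0 z (n 0 z (n 0 z (n 0 z z)))))))))))) (n 13 (n 0 z (n
 6489931 z (n 0 z (n 0 z (n 0 z (n 0 z (n 0 z z))))))) (n 13 (n 0 z (n 0 z (n 0 z (n 0 z (n 0 z
 (n 0 z (n 0 z z))))))) z)))) (n 0 (n 0 z (n 1 (n 0 z (n 0 z (n 0 z (n 0 z (n 0 z (n 0 z (n 0 z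
 (n 0 z z)))))))) (n 1 (n 0 z (n 0 z (n 0 z (n 2 z (n 0 z (n 0 z (n 0 z (n 0 z z)))))))) z))) (n
 0 (n 5 (n 0 z (n 0 z (n 0 z (n 0 z (n 0 z (n 0 z (n 0 z (n 0 z (n 0 z (n 0 z (n 2 (n 0 z z) (n
 0 z z)))))))))))) (n 5 (n 0 z (n 0 z (n 0 z (n 0 z (n 2 z (n 0 z (n 0 z (n 0 z (n 0 z (n 0 z (n
 0 z (n 0 z z)))))))))))) z)) (n 0 (n 0 z z) (n 0 z z)))))) (n 0 (n 0 z (n 0 z (n 1 (n 3278363 z
 (n 3278363 z (n 3278363 z (n 3278363 z (n 3278363 z (n 3278363 z z)))))) z))) (n 0 z z))))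
 z)))))))))), by decide +kernel⟩
theorem i10346 : ∃ t, chkR KT RW t 10346 10356 = true := ⟨(n
 0xb59341ad4a0b49d62b5220d271109368b09a4c910b35885168328b480 (n 0x11693 (n 299 (n 2 z (n 0 z (n
 0 z (n 0 z (n 3282443 z (n 0 z z)))))) (n 293 (n 10 z (n 18 z (n 26 z (n 3278363 z (n 0 z (n 0
 z z)))))) (n 9 (n 34 z (n 0 z (n 0 z (n 0 z (n 3212843 z z))))) (n 123 (n 0 z (n 42 z (n 0 z (n
 0 z (n 0 z (n 0 z (n 0 z (n 0 z (n 0 z (n 2164283 z (n 0 z (n 0 z z)))))))))))) (n 1 (n 0 z (n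
 0 z (n 0 z (n 50 z (n 0 z (n 2164299 z (n 0 z (n 58 z (n 0 z (n 0 z (n 0 z (n 0 z (n 0 z
 z))))))))))))) (n 0 (n 66 z (n 74 z (n 2164315 z (n
 0x1c46328087ff7fb7e480c7fc8247e98047f87fe8387db7fd8288077c07e38007c37fc7f07fe8018228237b182985a8407ce7f08608027f079e7a17fc8827ca7ea7ea7cf80180d8318297d08138210051
 z (n
 0x1c46318087ff7fb7e480c7fc8247e98047f87fe8387db7fd8288077c07e38007c37fc7f07fe8018228237b182985a8407ce7f08608027f079e7a17fc8827ca7ea7ea7cf80180d8318297d08138210051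
 z (n
 0x8964264200180fc63204d864209ed880168310001551079f8277b17b18bc7e27b482178480f8d48397a17177f47948c378b93e7628d489b73d92671b7d184984b7c87b886881284d70b79c7508c38687b87de7d178b8288b480a8507487c38da7c40951
 z (n 82 z (n
 0xec86c86203885d95a352ac46b7458996877883855387878f5d97b2759154707fac7747a6af71815573a5aa626a647e65c274975775af6e0809
 z (n
 0x2c86c862037df8207e082082082082082082082081f8208208208208208208208208208208207e08208200801 z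
 z))))))))) z)))))) (n 9 (n 0 (n 187 (n 0 z (n 0 z (n 0 z (n 0 z (n 0 z (n 0 z (n 0 z (n 0 z (n
 0 z (n 0 z z)))))))))) (n 187 (n 0 z (n 0 z (n 0 z (n 0 z (n 0 z (n 0 z (n 2 (n 0 z (n 1 z (n 1
 z (n 1 z (n 2 (n 0 z (n 0 z (n 0 z (n 0 z (n 0 z (n 0 z z)))))) (n 1 z (n 2 (n 0 z (n 0 z (n 0
 z (n 0 z (n 0 z (n 0 z z)))))) (n 2 (n 0 z (n 0 z (n 0 z (n 0 z (n 0 z (n 0 z z)))))) z))))))))
 (n 0 z (n 0 z (n 0 z z)))))))))) (n 187 (n 7676259 z (n 0 z (n 0 z (n 0 z (n 0 z (n 0 z (n 0 z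
 (n 0 z (n 0 z (n 0 z z)))))))))) (n 183 (n 0 z (n 0 z (n 0 z (n 0 z (n 0 z (n 0 z z)))))) (n
 181 (n 0 z (n 0 z (n 0 z (n 0 z (n 0 z (n 0 z (n 0 z (n 0 z (n 0 z (n 0 z z)))))))))) (n 579 (n
 0 z (n 0 z (n 0 z (n 0 z (n 0 z (n 0 z (n 0 z (n 0 z z)))))))) (n 579 (n 0 z (n 0 z (n 2 (n 1 z
 (n 2 (n 0 z (n 0 z (n 0 z (n 0 z (n 0 z (n 0 z z)))))) (n 2 (n 0 z (n 0 z (n 0 z (n 0 z (n 0 z
 (n 0 z z)))))) z))) (n 0 z (n 0 z (n 0 z (n 0 z (n 0 z z)))))))) (n 145 (n 0 z (n 0 z (n 0 z (n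
 0 z (n 0 z (n 0 z (n 0 z (n 0 z (n 0 z (n 0 z (n 0 z (n 0 z (n 0 z (n 0 z (n 0 z (n 0 z (n 0 z
 (n 0 z (n 0 z (n 0 z (n 0 z (n 0 z (n 0 z (n 0 z (n 0 z (n 0 z (n 0 z (n 0 z (n 0 z (n 0 z (n 0
 z (n 0 z (n 0 z (n 0 z (n 0 z (n 0 z (n 0 z (n 0 z (n 0 z (n 0 z (n 0 z (n 0 z (n 0 z (n 0 z (n
 0 z (n 0 z z)))))))))))))))))))))))))))))))))))))))))))))) (n 145 (n 0 z (n 0 z (n 0 z (n 0 z
 (n 0 z (n 0 z (n 0 z (n 0 z (n 0 z (n 0 z (n 0 z (n 0 z (n 0 z (n 0 z (n 0 z (n 0 z (n 0 z (n 0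
 z (n 0 z (n 0 z (n 0 z (n 0 z (n 2 (n 0 z z) (n 0 z (n 0 z (n 0 z (n 0 z (n 0 z (n 0 z (n 0 z
 (n 0 z (n 0 z (n 0 z (n 0 z (n 0 z (n 0 z (n 0 z (n 0 z (n 0 z (n 0 z (n 0 z (n 0 z (n 0 z (n 0
 z (n 0 z (n 0 z z)))))))))))))))))))))))))))))))))))))))))))))) (n 145 (n 0 z (n 0 z (n 0 z (n
 0 z (n 0 z (n 0 z (n 0 z (n 0 z (n 0 z (n 0 z (n 0 z (n 0 z (n 0 z (n 0 z (n 0 z (n 0 z (n 0 z
 (n 0 z (n 0 z (n 0 z (n 0 z (n 2 z (n 0 z (n 0 z (n 0 z (n 0 z (n 0 z (n 0 z (n 0 z (n 0 z (n 0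
 z (n 0 z (n 0 z (n 0 z (n 0 z (n 0 z (n 0 z (n 0 z (n 0 z (n 0 z (n 0 z (n 0 z (n 0 z (n 0 z (n
 0 z (n 0 z z)))))))))))))))))))))))))))))))))))))))))))))) z)))))))))) (n 0 (n 0 z (n 0 z (n
 429 (n 0 z (n 0 z (n 0 z (n 0 z (n 0 z (n 0 z (n 0 z z))))))) (n 425 (n 0 z (n 0 z (n 0 z (n 0
 z (n 0 z (n 0 z (n 0 z z))))))) (n 591 (n 0 z (n 0 z (n 0 z (n 0 z (n 0 z (n 0 z (n 0 z
 z))))))) (n 591 (n 0 z (n 0 z (n 0 z (n 2 (n 1 z (n 2 (n 0 z (n 0 z (n 0 z (n 0 z (n 0 z (n 0 z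
 z)))))) (n 2 (n 0 z (n 0 z (n 0 z (n 0 z (n 0 z (n 0 z z)))))) z))) (n 0 z (n 0 z (n 0 z
 z))))))) (n 589 (n 0 z (n 0 z (n 0 z (n 0 z (n 0 z (n 0 z (n 0 z (n 0 z (n 0 z (n 0 z (n 0 z (n
 0 z z)))))))))))) (n 589 (n 2 (n 0 z z) (n 0 z (n 0 z (n 0 z (n 0 z (n 0 z (n 0 z (n 0 z (n 0 z
 (n 0 z (n 0 z (n 0 z z)))))))))))) (n 589 (n 0 z (n 0 z (n 0 z (n 0 z (n 0 z (n 0 z (n 0 z (n 0
 z (n 2 z (n 0 z (n 0 z (n 0 z z)))))))))))) z))))))))) (n 0 (n 0 z (n 1047 (n 0 z (n 0 z (n 0 z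
 (n 0 z (n 2 (n 1 z (n 1 z (n 1 z (n 1 z (n 2 (n 0 z (n 0 z (n 0 z (n 0 z (n 0 z (n 0 z z))))))
 (n 2 (n 0 z (n 0 z (n 0 z (n 0 z (n 0 z (n 0 (n 2308 z z) z)))))) z)))))) (n 0 z z)))))) (n
 1049 (n 0 z (n 2 (n 1 z (n 2 (n 0 z (n 0 z (n 0 z (n 0 z (n 0 z (n 0 z z)))))) (n 1 z (n 2 (n 0
 z (n 0 z (n 0 z (n 0 z (n 0 z (n 0 z z)))))) (n 2 (n 0 z (n 0 z (n 0 z (n 0 z (n 0 z (n 0 z
 z)))))) z))))) (n 0 z (n 0 z (n 0 z z))))) (n 585 (n 0 z (n 2 (n 0 z (n 1 z (n 2 (n 0 z (n 0 z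
 (n 0 z (n 0 z (n 0 z (n 0 z z)))))) (n 2 (n 0 z (n 0 z (n 0 z (n 0 z (n 0 z (n 0 z z))))))
 z)))) (n 0 z (n 0 z (n 0 z (n 0 z (n 0 z (n 0 z (n 0 z (n 0 z (n 0 z (n 0 z (n 0 z (n 0 z (n 0
 z (n 0 z z)))))))))))))))) (n 585 (n 0 z (n 0 z (n 0 z (n 0 z (n 0 z (n 0 z (n 0 z (n 0 z (n 0
 z (n 0 z (n 0 z (n 0 z (n 0 z (n 0 z (n 0 z (n 0 z z)))))))))))))))) (n 577 (n 2 (n 0 z (n 0 z
 z)) (n 0 z (n 0 z (n 0 z (n 0 z (n 0 z (n 0 z (n 0 z (n 0 z z))))))))) (n 577 (n 0 z (n 0 z (n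
 0 z (n 0 z (n 0 z (n 0 z (n 0 z (n 0 z (n 0 z z))))))))) (n 577 (n 0 z (n 0 z (n 0 z (n 0 z (n
 0 z (n 2 z (n 0 z (n 0 z (n 0 z z))))))))) z)))))))) (n 0 (n 381 (n 0 z (n 0 z (n 2 (n 1 z (n 1
 z (n 1 z (n 1 z (n 2 (n 0 z (n 0 z (n 0 z (n 0 z (n 0 z (n 0 (n 2356 z z) z)))))) (n 2 (n 0 z
 (n 0 z (n 0 z (n 0 z (n 0 z (n 0 z z)))))) z)))))) (n 0 z (n 0 z z))))) (n 333 (n 0 z (n
 6627699 z (n 0 z (n 0 z (n 0 z (n 0 z (n 0 z (n 0 z z)))))))) (n 591 (n 0 z (n 6627699 z (n 0 z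
 (n 0 z (n 0 z (n 0 z (n 0 z (n 0 z (n 0 z (n 0 z (n 0 z (n 0 z (n 0 z (n 0 z (n 0 z (n 0 z (n 0
 z (n 0 z (n 0 z (n 0 z (n 0 z (n 0 z (n 0 z (n 0 z (n 0 z z))))))))))))))))))))))))) (n 591 (n
 0 z (n 0 z (n 0 z (n 0 z (n 0 z (n 0 z (n 2 (n 2 (n 0 z (n 0 z (n 0 z (n 0 z (n 0 z (n 0 (n
 2356 z z) z)))))) (n 2 (n 0 z (n 0 z (n 0 z (n 0 z (n 0 z (n 0 z z)))))) (n 2 (n 0 z (n 0 z (n
 0 z (n 0 z (n 0 z (n 0 z z)))))) z))) (n 0 z (n 0 z (n 0 z (n 0 z (n 0 z (n 0 z (n 0 z (n 0 z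
 (n 0 z (n 0 z (n 0 z (n 0 z (n 0 z (n 0 z (n 0 z (n 0 z (n 0 z (n 0 z
 z))))))))))))))))))))))))) (n 589 (n 2 (n 0 z (n 0 z z)) (n 0 z (n 0 z (n 0 z (n 0 z (n 0 z (n
 0 z (n 0 z (n 0 z z))))))))) (n 589 (n 0 z (n 0 z (n 0 z (n 0 z (n 0 z (n 0 z (n 0 z (n 0 z (n
 0 z z))))))))) (n 589 (n 0 z (n 0 z (n 0 z (n 2 z (n 0 z (n 0 z (n 0 z (n 0 z (n 0 z z)))))))))
 z))))))) (n 0 (n 665 (n 0 z (n 0 z (n 0 z (n 0 z (n 0 z (n 0 z (n 0 z (n 0 z (n 0 z (n 0 z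
 z)))))))))) (n 243 (n 0 z (n 0 z (n 0 z (n 0 z (n 0 z (n 0 z (n 0 z (n 0 z (n 0 z (n 0 z
 z)))))))))) (n 243 (n 0 z (n 0 z (n 0 z (n 0 z (n 0 z (n 0 z (n 2 (n 1 z (n 2 (n 0 z (n 0 z (n
 0 z (n 0 z (n 0 z (n 0 z z)))))) (n 2 (n 0 z (n 0 z (n 0 z (n 0 z (n 0 z (n 0 z z)))))) z))) (n
 0 z (n 0 z (n 0 z z)))))))))) (n 637 (n 0 z (n 0 z (n 0 z (n 0 z (n 0 z (n 0 z (n 0 z (n 0 z (n
 0 z (n 0 z (n 0 z z))))))))))) (n 637 (n 0 z (n 0 z (n 0 z (n 0 z (n 0 z (n 0 z (n 2 (n 0 z z)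
 (n 0 z (n 0 z (n 0 z (n 0 z z))))))))))) (n 637 (n 0 z (n 0 z (n 0 z (n 0 z (n 0 z (n 2 z (n 0
 z (n 0 z (n 0 z (n 0 z (n 0 z z))))))))))) z)))))) (n 0 (n 243 (n 0 z (n 0 z (n 0 z z))) (n 243
 (n 0 z (n 2 (n 1 z (n 2 (n 0 z (n 0 z (n 0 z (n 0 z (n 0 z (n 0 z z)))))) (n 2 (n 0 z (n 0 z (n
 0 z (n 0 z (n 0 z (n 0 z z)))))) z))) (n 0 z z))) (n 241 (n 0 z (n 0 z (n 0 z (n 0 z (n 0 z (n
 0 z (n 0 z (n 0 z (n 0 z (n 0 z (n 0 z (n 0 z (n 0 z z))))))))))))) (n 241 (n 2 (n 0 z z) (n 0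
 z (n 0 z (n 0 z (n 0 z (n 0 z (n 0 z (n 0 z (n 0 z (n 0 z (n 0 z (n 0 z (n 0 z z)))))))))))))
 (n 241 (n 0 z (n 0 z (n 0 z (n 0 z (n 0 z (n 0 z (n 0 z (n 0 z (n 0 z (n 0 z (n 0 z (n 2 z (n 0
 z z))))))))))))) z))))) (n 0 (n 0 z (n 245 (n 0 z (n 0 z (n 0 z (n 0 z (n 0 z (n 0 z (n 0 z (n
 0 z (n 0 z (n 0 z (n 0 z (n 0 z (n 0 z (n 0 z (n 0 z (n 0 z (n 0 z (n 0 z (n 0 z (n 0 z (n 0 z
 (n 0 z (n 0 z (n 0 z (n 0 z (n 0 z (n 0 z (n 0 z (n 0 z z))))))))))))))))))))))))))))) (n 245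
 (n 0 z (n 0 z (n 0 z (n 0 z (n 0 z (n 2 (n 0 z z) (n 0 z (n 0 z (n 0 z (n 0 z (n 0 z (n 0 z (n
 0 z (n 0 z (n 0 z (n 0 z (n 0 z (n 0 z (n 0 z (n 0 z (n 0 z (n 0 z (n 0 z (n 0 z (n 0 z (n 0 z
 (n 0 z (n 0 z (n 0 z z))))))))))))))))))))))))))))) (n 245 (n 0 z (n 0 z (n 0 z (n 0 z (n 0 z
 (n 0 z (n 0 z (n 0 z (n 0 z (n 0 z (n 2 z (n 0 z (n 0 z (n 0 z (n 0 z (n 0 z (n 0 z (n 0 z (n 0
 z (n 0 z (n 0 z (n 0 z (n 0 z (n 0 z (n 0 z (n 0 z (n 0 z (n 0 z (n 0 z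
 z))))))))))))))))))))))))))))) z)))) (n 0 (n 245 (n 0 z (n 0 z (n 0 z (n 2 (n 0 z (n 0 z z)) (n
 0 z (n 0 z (n 0 z (n 0 z (n 0 z (n 0 z (n 0 z z))))))))))) (n 245 (n 0 z (n 0 z (n 0 z (n 0 z
 (n 0 z (n 0 z (n 0 z (n 0 z (n 0 z (n 0 z (n 0 z z))))))))))) (n 245 (n 0 z (n 0 z (n 0 z (n 0
 z (n 0 z (n 0 z (n 0 z (n 0 z (n 0 z (n 7673387 z (n 0 z z))))))))))) z))) (n 0 (n 0 z (n 0 z
 z)) (n 0 (n 0 z z) (n 0 z z))))))))))) (n 0 (n 1 (n 2396 z (n 2 z (n 2396 z (n 2396 z (n 2396 z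
 (n 2396 z z)))))) (n 0 z (n 0 z (n 0 z (n 1 (n 3212843 z (n 3212843 z (n 3212843 z (n 3212843 z
 (n 3212843 z (n 3212843 z z)))))) z))))) (n 0 (n 0x82d64d20d6a52c56a42cd621 (n 0 (n 0 (n
 7737379 z (n 7737379 z (n 7737379 z (n 7737379 z (n 7737379 z (n 7737379 z z)))))) z) (n 0 (n
 299 (n 1 (n 7737379 z (n 7737379 z (n 7737379 z (n 7737379 z (n 7737379 z (n 7737379 z z))))))
 (n 0 z (n 0 z (n 0 z (n 1 (n 7737379 z (n 7737379 z (n 7737379 z (n 7737379 z (n 7737379 z (n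
 7737379 z z)))))) (n 0 z z)))))) (n 293 (n 1 (n 7737379 z (n 7737379 z (n 7737379 z (n 7737379
 z (n 7737379 z (n 7737379 z z)))))) (n 1 (n 2 z (n 7676259 z (n 1708 z (n 7546379 z (n 1708 z
 (n 1708 z z)))))) (n 1 (n 1708 z (n 7676259 z (n 1708 z (n 7546379 z (n 1708 z (n 1708 z
 z)))))) (n 1 (n 7737379 z (n 7737379 z (n 7737379 z (n 7737379 z (n 7737379 z (n 7737379 z
 z)))))) (n 0 z (n 0 z z)))))) (n 9 (n 1 (n 7750411 z (n 7676259 z (n 7750411 z (n 7750411 z (n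
 7750411 z (n 7750411 z z)))))) (n 0 z (n 0 z (n 0 z (n 1 (n 3213099 z (n 7676259 z (n 3213099 z
 (n 3213099 z (n 3213099 z (n 3213099 z z)))))) z))))) (n 121 (n 1 (n 2164555 z (n 2164555 z (n
 2164555 z (n 2164555 z (n 2164555 z (n 2164555 z z)))))) (n 1 (n 3628 z (n 3628 z (n 3628 z (n
 5510955 z (n 3628 z (n 3628 z z)))))) (n 1 (n 7546379 z (n 7546379 z (n 7546379 z (n 7546379 z
 (n 7546379 z (n 7546379 z z)))))) z))) (n 123 (n 1 (n 2164555 z (n 2164555 z (n 2164555 z (n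
 2164555 z (n 7750411 z (n 2164555 z z)))))) (n 1 (n 5445419 z (n 2428 z (n 2428 z (n 7750411 z
 (n 10 z (n 2428 z z)))))) (n 1 (n 7546379 z (n 7546379 z (n 7750411 z (n 7546379 z (n 7546379 z
 (n 7546379 z z)))))) z))) (n 0 (n 1 (n 7737379 z (n 7737379 z (n 7737379 z (n 7737379 z (n
 7737379 z (n 7737379 z z)))))) (n 1 (n 18 z (n 7676259 z (n 5644 z (n 7546379 z (n 5644 z (n
 5644 z z)))))) (n 1 (n 2164571 z (n 7676259 z (n 2164571 z (n 2164571 z (n 2164571 z (n 7546379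
 z z)))))) (n 1 (n 5644 z (n 7676259 z (n 5644 z (n 7546379 z (n 5644 z (n 5644 z z)))))) (n 1
 (n 5644 z (n 7676259 z (n 5644 z (n 2460 z (n 5644 z (n 5644 z z)))))) (n 1 (n 7737379 z (n
 7737379 z (n 7737379 z (n 7737379 z (n 7737379 z (n 7737379 z z)))))) (n 1 (n 7546379 z (n
 7676259 z (n 6559499 z (n 26 z (n 5644 z (n 5644 z z)))))) (n 1 (n 7737379 z (n 7737379 z (n
 7737379 z (n 7737379 z (n 7737379 z (n 7737379 z z)))))) (n 1 (n 5644 z (n 7676259 z (n 5644 z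
 (n 5644 z (n 5644 z (n 5644 z z)))))) z))))))))) (n 9 (n 1 (n 7750411 z (n 7737379 z (n 7750411
 z (n 7750411 z (n 7750411 z (n 7750411 z z)))))) (n 0 z (n 0 z (n 0 z (n 1 (n 3213099 z (n
 7737379 z (n 3213099 z (n 3213099 z (n 3213099 z (n 3213099 z z)))))) z))))) z))))))) (n 0 (n 0
 (n 0 z (n 0 z (n 0 z (n 0 z z)))) (n 0 (n 0 z (n 0 z (n 0 z z))) (n 0 (n 0 z (n 0 z z)) (n 0 (n
 0 z z) z)))) (n 0 (n 213 (n 0 (n 0 z (n 0 z (n 0 z (n 0 z z)))) (n 0 (n 0 z (n 0 z (n 0 z (n 0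
 z z)))) (n 0 (n 0 (n 7755787 z (n 7743547 z z)) (n 0 z (n 0 (n 7755787 z (n 7743547 z z)) (n 0
 (n
 0x7485281827d877793768c6488899a6b7c876e7d798f68838e6d877c797599a26a8988927e6955878b9f60786f6a9b829783629a840049
 z (n
 0x7485281827d877793768c6488899a6b7c876e7d798f68838e6d877c797599a26a8988927e6955878b9f60786f6a9b829783629a840049
 z z)) z)))) (n 0 (n 0 z (n 0 z (n 0 z (n 0 (n 8785955 z z) z)))) (n 0 (n 0 z (n 0 z (n 0 z (n 0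
 z z)))) (n 0 (n 0 z (n 0 z (n 0 z (n 0 z z)))) (n 0 (n 0 z (n 0 z (n 0 z (n 0 z z)))) (n 0 (n 0
 z (n 0 (n
 0x1c48768087ff7fb7e480c7fc8247e98047f87fe8387db7fd8288077c07e38007c37fc7f07fe8018228237b182985a8407ce7f08608027f079e7a17fc8827ca7ea7ea7cf80180d8318297d08138210051
 z z) (n 0 z (n 0 z z)))) (n 0 (n 0 z (n 0 z (n 0 z (n 0 z z)))) (n 0 (n 0 z (n 0 z (n 0 (n
 8869451 z z) (n 0 (n 8859715 z z) z)))) z)))))))))) (n 333 (n 0 (n 0 z (n 0 z (n 0 z (n 0 z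
 z)))) (n 0 (n 0 z (n 0 z (n 0 z (n 0 z z)))) (n 0 (n 0 (n
 0x1487485f8207e085f8208208208217df8208608208218228218608207e082082081f81f8208208200041 z (n
 0x7487481827d877793768c6488899a6b7c876e7d798f68838e6d877c797599a26a8988927e6955878b9f60786f6a9b829783629a840049
 z z)) (n 0 (n
 0x3487685f86282081e8207a382082075f7e18218218218608a086179f8207e181f81e86085f8608200041 z (n
 0x30eb0a62038208618208208207e08208208208208208208218208208208208208208208208208208208200801 z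
 z)) (n 0 (n
 0x7487481827d877793768c6488899a6b7c876e7d798f68838e6d877c797599a26a8988927e6955878b9f60786f6a9b829783629a840049
 z (n 8656747 z z)) (n 0 (n
 0xd487197509aa94da74baa5580868884987e81796d6f805bc37d8e6b5b9181737d95b363a84a8e9c9a596c947572b36c6a659b8b6e0049
 z (n
 0x30e90e86037e08208608208207e082082082081f82082082086081f8208208208208208208208218208200801 z
 z)) z)))) (n 0 (n 0 z (n 0 z (n 0 (n 4397067 z z) (n 0 z z)))) (n 0 (n 0 z (n 0 z (n 0 (n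
 0x7487681827d877793768c6488899a6b7c876e7d798f68838e6d877c797599a26a8988927e6955878b9f60786f6a9b829783629a840049
 z z) (n 0 z z)))) (n 0 (n 0 (n
 0x1487485f82081f81f8208208208207e082086182082182082086082282082082081f8208208208200041 z z) (n
 0 (n
 0x7487581827d877793768c6488899a6b7c876e7d798f68838e6d877c797599a26a8988927e6955878b9f60786f6a9b829783629a840049
 z z) (n 0 z (n 0 z z)))) z)))))) (n 334 (n 0 (n 0 z (n 0 z (n 0 z (n 0 z z)))) (n 0 (n 0 z (n 0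
 z (n 0 z (n 0 z z)))) (n 0 (n 0 z (n 0 z (n 0 z (n 0 z z)))) (n 0 (n 0 z (n 0 z (n 0 z (n 0 z
 z)))) (n 0 (n 0 z (n 0 z (n 0 z (n 0 z z)))) (n 0 (n 0 z (n 0 z (n 0 z (n 0 z z)))) (n 0 (n 0 z
 (n 0 z (n 0 z (n 0 z z)))) z))))))) (n 453 (n 0 (n 0 z (n 0 z (n 0 z (n 0 z z)))) (n 0 (n 0 (n
 7755787 z (n 7743547 z z)) (n 0 z (n 0 (n 8872467 z (n 8872467 z z)) (n 0 (n
 0x7485281827d877793768c6488899a6b7c876e7d798f68838e6d877c797599a26a8988927e6955878b9f60786f6a9b829783629a840049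
 z (n
 0x7485281827d877793768c6488899a6b7c876e7d798f68838e6d877c797599a26a8988927e6955878b9f60786f6a9b829783629a840049
 z z)) z)))) (n 0 (n 0 z (n 0 z (n 0 z (n 0 z z)))) (n 0 (n 0 z (n 0 (n 8795419 z z) (n 0 z (n 0
 z z)))) (n 0 (n 0 (n 8785955 z z) (n 0 z (n 0 (n 8785955 z z) (n 0 z z)))) (n 0 (n 0 z (n 0 (n
 8785955 z z) (n 0 z (n 0 z z)))) (n 0 (n 0 z (n 0 z (n 0 (n 8785955 z z) (n 0 (n 8785955 z z)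
 z)))) (n 0 (n 0 z (n 0 (n
 0x7487581827d877793768c6488899a6b7c876e7d798f68838e6d877c797599a26a8988927e6955878b9f60786f6a9b829783629a840049
 z z) (n 0 z (n 0 z z)))) (n 0 (n 0 z (n 0 (n
 0x1c48768087ff7fb7e480c7fc8247e98047f87fe8387db7fd8288077c07e38007c37fc7f07fe8018228237b182985a8407ce7f08608027f079e7a17fc8827ca7ea7ea7cf80180d8318297d08138210051
 z z) (n 0 z (n 0 z z)))) (n 0 (n 0 z (n 0 z (n 0 z (n 0 z z)))) z)))))))))) (n 454 (n 0 (n 0 z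
 (n 0 z (n 0 z (n 0 z z)))) (n 0 (n 0 z (n 0 z (n 0 z (n 0 z z)))) (n 0 (n 0 z (n 0 z (n 0 z (n
 0 z z)))) (n 0 (n 0 z (n 0 z (n 0 z (n 0 z z)))) (n 0 (n 0 z (n 0 z (n 0 z (n 0 z z)))) (n 0 (n
 0 z (n 0 z (n 0 z (n 0 z z)))) (n 0 (n 0 (n 8724835 z (n 8724835 z z)) (n 0 z (n 0 z (n 0 z
 z)))) z))))))) (n 452 (n 0 (n 0 z (n 0 z (n 0 z (n 0 z z)))) (n 0 (n 0 z (n 0 z (n 0 z (n 0 z
 z)))) (n 0 (n 0 z (n 0 z (n 0 z (n 0 z z)))) (n 0 (n 0 z (n 0 z (n 0 z (n 0 z z)))) (n 0 (n 0 z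
 (n 0 z (n 0 z (n 0 z z)))) (n 0 (n 0 z (n 0 (n 8795979 z z) (n 0 z (n 0 z z)))) (n 0 (n 0 z (n
 0 z (n 0 z (n 0 z z)))) (n 0 (n 0 z (n 0 z (n 0 z (n 0 z z)))) (n 0 (n 0 (n 8594955 z z) (n 0 z
 (n 0 z (n 0 (n 8855819 z z) z)))) (n 0 (n 0 z (n 0 z (n 0 z (n 0 z z)))) z)))))))))) (n 303 (n
 0 (n 0 z (n 0 z (n 0 z (n 0 z z)))) (n 0 (n 0 (n 5380171 z z) (n 0 z (n 0 (n 5380171 z z) (n 0
 z z)))) (n 0 (n 0 z (n 0 z (n 0 z (n 0 z z)))) (n 0 (n 0 z (n 0 z (n 0 z (n 0 (n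
 0x1487185f8207e085f8208208208217df8208608208218228218608207e082082081f81f8208208200041 z z)
 z)))) (n 0 (n 0 z (n 0 z (n 0 z (n 0 z z)))) (n 0 (n 0 z (n 0 z (n 0 z (n 0 (n 8785955 z z)
 z)))) (n 0 (n 0 z (n 0 z (n 0 z (n 0 (n
 0x1487185f8207e085f8208208208217df8208608208218228218608207e082082081f81f8208208200041 z z)
 z)))) (n 0 (n 0 z (n 0 z (n 0 z (n 0 (n 8785955 z z) z)))) z)))))))) (n 301 (n 0 (n 0 z (n 0 z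
 (n 0 z (n 0 z z)))) (n 0 (n 0 z (n 0 z (n 0 z (n 0 z z)))) (n 0 (n 0 z (n 0 z (n 0 z (n 0 z
 z)))) (n 0 (n 0 z (n 0 z (n 0 z (n 0 z z)))) (n 0 (n 0 z (n 0 z (n 0 z (n 0 z z)))) (n 0 (n 0 z
 (n 0 z (n 0 z (n 0 z z)))) (n 0 (n 0 z (n 0 z (n 0 z (n 0 z z)))) z))))))) (n 135 (n 0 (n 0 z
 (n 0 z (n 0 z (n 0 z z)))) (n 0 (n 0 z (n 0 z (n 0 z (n 0 z z)))) (n 0 (n 0 (n 8798987 z (n
 8798987 z z)) (n 0 (n 8798987 z (n 8798987 z z)) (n 0 (n 8798987 z (n 8798987 z z)) (n 0 z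
 z)))) (n 0 (n 0 z (n 0 z (n 0 z (n 0 z z)))) (n 0 (n 0 z (n 0 z (n 0 z (n 0 z z)))) (n 0 (n 0 z
 (n 0 z (n 0 z (n 0 z z)))) (n 0 (n 0 z (n 0 z (n 0 z (n 0 z z)))) (n 0 (n 0 z (n 0 z (n 0 z (n
 0 z z)))) (n 0 (n 0 z (n 0 z (n 0 z (n 0 z z)))) (n 0 (n 0 z (n 0 (n
 0x1c48538087ff7fb7e480c7fc8247e98047f87fe8387db7fd8288077c07e38007c37fc7f07fe8018228237b182985a8407ce7f08608027f079e7a17fc8827ca7ea7ea7cf80180d8318297d08138210051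
 z z) (n 0 z (n 0 z z)))) z)))))))))) (n 123 (n 0 (n 0 z (n 0 z (n 0 z (n 0 z z)))) (n 0 (n 0 z
 (n 0 z (n 0 z (n 0 z z)))) (n 0 (n 0 z (n 0 z (n 0 z (n 0 z z)))) z))) (n 705 (n 0 (n 0 z (n 0
 z (n 0 z (n 0 z z)))) (n 0 (n 0 z (n 0 z (n 0 z (n 0 z z)))) (n 0 (n 0 z (n 0 z (n 0 z (n 0 z
 z)))) (n 0 (n 0 z (n 0 z (n 0 z (n 0 z z)))) (n 0 (n 0 (n 8785955 z (n 8785955 z z)) (n 0 (n
 8785955 z (n 8785955 z z)) (n 0 (n 8785955 z (n 8785955 z z)) (n 0 z z)))) (n 0 (n 0 (n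
 0x1487485f82081f81f8208208208207e082086182082182082086082282082082081f8208208208200041 z (n
 0x1487485f8207e085f8208208208217df8208608208218228218608207e082082081f81f8208208200041 z z)) (n
 0 (n 0x1487185f8207e085f8208208208217df8208608208218228218608207e082082081f81f8208208200041 z
 (n
 0x16483186807c698a7b9e6d857a7fad627ea0864d69804f7c737f819c9c41a1c8b35973cd827432337ce8546e6e59818ba7a15a909b0049
 z z)) (n 0 (n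
 0x1487485f8207e085f8208208208217df8208608208218228218608207e082082081f81f8208208200041 z (n
 0x7487481827d877793768c6488899a6b7c876e7d798f68838e6d877c797599a26a8988927e6955878b9f60786f6a9b829783629a840049
 z z)) (n 0 z z)))) (n 0 (n 0 z (n 0 (n
 0x548718c7482797a8c7e8c718277858a9d70897877678a7b908476857784887184857a9170678d8c8d7068b55392956283638dad6a0049
 z (n
 0x12483185807c6e887d9771837c7fa4687e9a85576e80597e757e8096964d9abaa86076be827641447dd45d71726180889f9a618c950049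
 z z)) (n 0 z (n 0 z z)))) (n 0 (n 0 z (n 0 z (n 0 z (n 0 z z)))) (n 0 (n 0 z (n 0 z (n 0 z (n 0
 (n 0x1487185f8207e085f8208208208217df8208608208218228218608207e082082081f81f8208208200041 z z)
 z)))) (n 0 (n 0 z (n 0 z (n 0 z (n 0 z z)))) (n 0 (n 0 (n 8785955 z z) (n 0 z (n 0 z (n 0 (n
 8785955 z z) z)))) (n 0 (n 0 z (n 0 z (n 0 z (n 0 z z)))) (n 0 (n 0 z (n 0 z (n 0 z (n 0 (n
 8785955 z z) z)))) (n 0 (n 0 z (n 0 z (n 0 z (n 0 z z)))) (n 0 (n 0 z (n 0 z (n 0 (n 8795979 z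
 z) (n 0 (n
 0x30e90e86037e08218208208207e082182081f8208208208208208208208208208208208208208208208210801 z
 z) z)))) (n 0 (n 0 z (n 0 z (n 0 (n
 0x7487681827d877793768c6488899a6b7c876e7d798f68838e6d877c797599a26a8988927e6955878b9f60786f6a9b829783629a840049
 z z) (n 0 z z)))) (n 0 (n 0 (n
 0x1487485f8207e085f8208208208217df8208608208218228218608207e082082081f81f8208208200041 z (n
 0x30870842037df8208208608208208207df82081f7e082086082081f82181f8208208218208218208618200801 z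
 z)) (n 0 (n
 0x1487185f8207e085f8208208208217df8208608208218228218608207e082082081f81f8208208200041 z (n
 0x30870842037df8208208608208208207df82081f7e082086082081f82181f8208208218208218208618200801 z
 z)) (n 0 (n
 0x1487485f8207e085f8208208208217df8208608208218228218608207e082082081f81f8208208200041 z (n
 0x7487481827d877793768c6488899a6b7c876e7d798f68838e6d877c797599a26a8988927e6955878b9f60786f6a9b829783629a840049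
 z z)) (n 0 (n
 0x7487181827d877793768c6488899a6b7c876e7d798f68838e6d877c797599a26a8988927e6955878b9f60786f6a9b829783629a840049
 z (n
 0x30e70e48038208208208208217e082182081f82082082082082081f8608208208208208208208208208200801 z
 z)) z)))) (n 0 (n 0 (n 8785955 z z) (n 0 z (n 0 z (n 0 z z)))) (n 0 (n 0 z (n 0 z (n 0 z (n 0 z
 z)))) (n 0 (n 0 z (n 0 z (n 0 z (n 0 z z)))) (n 0 (n 0 z (n 0 z (n 0 z (n 0 z z)))) (n 0 (n 0 z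
 (n 0 z (n 0 z (n 0 z z)))) (n 0 (n 0 z (n 0 z (n 0 z (n 0 z z)))) (n 0 (n 0 z (n 0 (n
 0x1c48768087ff7fb7e480c7fc8247e98047f87fe8387db7fd8288077c07e38007c37fc7f07fe8018228237b182985a8407ce7f08608027f079e7a17fc8827ca7ea7ea7cf80180d8318297d08138210051
 z z) (n 0 z (n 0 z z)))) (n 0 (n 0 (n
 0x1487485f8207e085f8208208208217df8208608208218228218608207e082082081f81f8208208200041 z z) (n
 0 z (n 0 (n
 0x1487485f8207e085f8208208208217df8208608208218228218608207e082082081f81f8208208200041 z z) (n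
 0 z z)))) (n 0 (n 0 (n 8724835 z (n 8724835 z z)) (n 0 z (n 0 z (n 0 (n 8724835 z (n 8724835 z
 z)) z)))) (n 0 (n 0 (n 8724835 z (n 8724835 z z)) (n 0 z (n 0 (n 8724835 z (n 8724835 z z)) (n
 0 (n 8724835 z (n 8724835 z z)) z)))) (n 0 (n 0 z (n 0 z (n 0 (n 8869451 z (n 8869451 z z)) (n
 0 (n 0x1487185f8207e085f8208208208217df8208608208218228218608207e082082081f81f8208208200041 z
 (n 0x10e90e86030821 z z)) z)))) (n 0 (n 0 z (n 0 z (n 0 z (n 0 z z)))) (n 0 (n 0 (n 8724835 z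
 z) (n 0 z (n 0 z (n 0 z z)))) (n 0 (n 0 z (n 0 z (n 0 z (n 0 z z)))) (n 0 (n 0 z (n 0 (n
 8872467 z z) (n 0 z (n 0 z z)))) (n 0 (n 0 z (n 0 (n 8872467 z (n 8872467 z z)) (n 0 z (n 0 z
 z)))) (n 0 (n 0 z (n 0 z (n 0 z (n 0 z z)))) (n 0 (n 0 z (n 0 z (n 0 z (n 0 (n
 0x1487185f8207e085f8208208208217df8208608208218228218608207e082082081f81f8208208200041 z z)
 z)))) (n 0 (n 0 z (n 0 (n 8872467 z z) (n 0 z (n 0 z z)))) (n 0 (n 0 z (n 0 z (n 0 (n 8872467 z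
 z) (n 0 (n 8859715 z z) z)))) (n 0 (n 0 (n 8724835 z z) (n 0 z (n 0 (n 8724835 z z) (n 0 z
 z)))) (n 0 (n 0 z (n 0 z (n 0 (n
 0x1487485f82081f81f8208208208207e082086182082182082086082282082082081f8208208208200041 z z) (n
 0 z z)))) (n 0 (n 0 z (n 0 (n
 0x30e90c26078208218218208618208207e081f8208208208217e08208208208208208208208208208208200801 z
 z) (n 0 z (n 0 z z)))) (n 0 (n 0 (n 8869451 z z) (n 0 z (n 0 z (n 0 (n 8859715 z z) z)))) (n 0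
 (n 0 (n 8724835 z (n 8724835 z z)) (n 0 (n 8724835 z (n 8724835 z z)) (n 0 (n 8724835 z (n
 8724835 z z)) (n 0 z z)))) (n 0 (n 0 (n 8795979 z (n
 0xe484284807d72867e9274827c7f9c6d7e95845f7280617e787f8091925895aea06778b181794e4f7ec36474756781879995688a910049
 z z)) (n 0 (n 8795979 z (n
 0x1c48428087ff7fb7e480c7fc8247e98047f87fe8387db7fd8288077c07e38007c37fc7f07fe8018228237b182985a8407ce7f08608027f079e7a17fc8827ca7ea7ea7cf80180d8318297d08138210051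
 z z)) (n 0 (n
 0x1c48428087ff7fb7e480c7fc8247e98047f87fe8387db7fd8288077c07e38007c37fc7f07fe8018228237b182985a8407ce7f08608027f079e7a17fc8827ca7ea7ea7cf80180d8318297d08138210051
 z (n 8656747 z z)) (n 0 z z)))) (n 0 (n 0 (n
 0x7487281827d877793768c6488899a6b7c876e7d798f68838e6d877c797599a26a8988927e6955878b9f60786f6a9b829783629a840049
 z (n
 0x3ec3a04c874847d8085708d7786688a8d94748a9c847a627d62848e74868476639992858d8ca085705e78879e5f78748590757d9479877d0089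
 z z)) (n 0 z (n 0 (n
 0x7487281827d877793768c6488899a6b7c876e7d798f68838e6d877c797599a26a8988927e6955878b9f60786f6a9b829783629a840049
 z (n
 0xcb0e83c8748de8244eb6a5367af05a8da36c87888ec5a48d7274ba4aaae644c56a6e4669592d5dec1b99e0081 z
 z)) (n 0 (n
 0xd487197509aa94da74baa5580868884987e81796d6f805bc37d8e6b5b9181737d95b363a84a8e9c9a596c947572b36c6a659b8b6e0049
 z (n
 0x30e8e826078208218208208207df8618208208208208208608208208208208208208208208208608208200801 z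
 z)) z)))) (n 0 (n 0 z (n 0 z (n 0 z (n 0 z z)))) (n 0 (n 0 z (n 0 z (n 0 z (n 0 z z))))
 z)))))))))))))))))))))))))))))))))))))))))))))) (n 307 (n 0 (n 0 z (n 0 z (n 0 z (n 0 z z))))
 (n 0 (n 0 z (n 0 z (n 0 z (n 0 z z)))) (n 0 (n 0 (n 8724835 z z) (n 0 z (n 0 z (n 0 z z)))) (n
 0 (n 0 z (n 0 z (n 0 z (n 0 z z)))) (n 0 (n 0 z (n 0 z (n 0 z (n 0 z z)))) (n 0 (n 0 z (n 0 z
 (n 0 z (n 0 z z)))) (n 0 (n 0 z (n 0 (n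
 0x1c48768087ff7fb7e480c7fc8247e98047f87fe8387db7fd8288077c07e38007c37fc7f07fe8018228237b182985a8407ce7f08608027f079e7a17fc8827ca7ea7ea7cf80180d8318297d08138210051
 z z) (n 0 z (n 0 z z)))) (n 0 (n 0 z (n 0 z (n 0 (n
 0x7487681827d877793768c6488899a6b7c876e7d798f68838e6d877c797599a26a8988927e6955878b9f60786f6a9b829783629a840049
 z z) (n 0 z z)))) (n 0 (n 0 z (n 0 z (n 0 z (n 0 z z)))) (n 0 (n 0 z (n 0 z (n 0 z (n 0 z z))))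
 (n 0 (n 0 z (n 0 (n 8795979 z z) (n 0 (n 8795979 z z) (n 0 z z)))) (n 0 (n 0 z (n 0 z (n 0 z (n
 0 z z)))) z)))))))))))) (n 703 (n 0 (n 0 z (n 0 z (n 0 z (n 0 z z)))) (n 0 (n 0 z (n 0 z (n 0 z
 (n 0 z z)))) (n 0 (n 0 z (n 0 z (n 0 z (n 0 z z)))) (n 0 (n 0 z (n 0 z (n 0 z (n 0 z z)))) (n 0
 (n 0 z (n 0 z (n 0 z (n 0 z z)))) (n 0 (n 0 z (n 0 z (n 0 z (n 0 z z)))) (n 0 (n 0 z (n 0 z (n
 0 z (n 0 z z)))) (n 0 (n 0 z (n 0 z (n 0 z (n 0 z z)))) (n 0 (n 0 z (n 0 z (n 0 z (n 0 z z))))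
 (n 0 (n 0 z (n 0 z (n 0 z (n 0 z z)))) (n 0 (n 0 z (n 0 z (n 0 z (n 0 z z)))) z))))))))))) (n
 125 (n 0 (n 0 z (n 0 z (n 0 z (n 0 z z)))) (n 0 (n 0 z (n 0 z (n 0 z (n 0 z z)))) (n 0 (n 0 z
 (n 0 z (n 0 z (n 0 (n 8724835 z z) z)))) (n 0 (n 0 z (n 0 z (n 0 z (n 0 z z)))) (n 0 (n 0 z (n
 0 z (n 0 z (n 0 z z)))) (n 0 (n 0 z (n 0 z (n 0 z (n 0 z z)))) (n 0 (n 0 z (n 0 z (n 0 z (n 0 z
 z)))) (n 0 (n 0 z (n 0 z (n 0 z (n 0 z z)))) (n 0 (n 0 z (n 0 z (n 0 z (n 0 z z)))) (n 0 (n 0 z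
 (n 0 z (n 0 z (n 0 z z)))) (n 0 (n 0 z (n 0 z (n 0 z (n 0 z z)))) (n 0 (n 0 z (n 0 z (n 0 z (n
 0 z z)))) (n 0 (n 0 z (n 0 z (n 0 z (n 0 z z)))) z))))))))))))) (n 124 (n 0 (n 0 z (n 0 z (n 0
 z (n 0 z z)))) (n 0 (n 0 z (n 0 z (n 0 z (n 0 z z)))) (n 0 (n 0 z (n 0 z (n 0 z (n 0 z z)))) (n
 0 (n 0 z (n 0 z (n 0 z (n 0 z z)))) (n 0 (n 0 (n
 0xf0e70e6003836e888e6caa639b5e778795768f744b7e91857d79c17295526889ad803da799737d4c799eae656e807e51bf6fb05f60a0820809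
 z z) (n 0 z (n 0 (n 8656747 z z) (n 0 z z)))) (n 0 (n 0 z (n 0 z (n 0 z (n 0 z z)))) (n 0 (n 0
 z (n 0 z (n 0 z (n 0 z z)))) (n 0 (n 0 z (n 0 z (n 0 z (n 0 z z)))) (n 0 (n 0 z (n 0 (n 8724835
 z z) (n 0 z (n 0 z z)))) (n 0 (n 0 z (n 0 (n 8724835 z z) (n 0 z (n 0 z z)))) (n 0 (n 0 z (n 0
 z (n 0 z (n 0 z z)))) (n 0 (n 0 z (n 0 z (n 0 z (n 0 z z)))) (n 0 (n 0 z (n 0 (n
 0x30e30e06037a086082185f8208608207e07a08607e086186082081f8217df82081f7e08618208218218200801 z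
 z) (n 0 z (n 0 z z)))) (n 0 (n 0 (n 6424699 z z) (n 0 z (n 0 (n 8872467 z z) (n 0 z z)))) (n 0
 (n 0 (n 8798987 z (n 8798987 z z)) (n 0 (n 8798987 z (n 8798987 z z)) (n 0 (n 8798987 z (n
 8798987 z z)) (n 0 z z)))) (n 0 (n 0 (n 8724835 z z) (n 0 z (n 0 z (n 0 z z)))) (n 0 (n 0 z (n
 0 z (n 0 z (n 0 z z)))) (n 0 (n 0 z (n 0 (n 8724835 z z) (n 0 z (n 0 z z)))) (n 0 (n 0 z (n 0
 (n 8724835 z (n 8724835 z z)) (n 0 z (n 0 z z)))) (n 0 (n 0 z (n 0 z (n 0 (n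
 0x7487681827d877793768c6488899a6b7c876e7d798f68838e6d877c797599a26a8988927e6955878b9f60786f6a9b829783629a840049
 z z) (n 0 (n
 0x7487181827d877793768c6488899a6b7c876e7d798f68838e6d877c797599a26a8988927e6955878b9f60786f6a9b829783629a840049
 z z) z)))) (n 0 (n 0 z (n 0 (n
 0x7487681827d877793768c6488899a6b7c876e7d798f68838e6d877c797599a26a8988927e6955878b9f60786f6a9b829783629a840049
 z z) (n 0 z (n 0 z z)))) (n 0 (n 0 (n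
 0x7483081827d877793768c6488899a6b7c876e7d798f68838e6d877c797599a26a8988927e6955878b9f60786f6a9b829783629a840049
 z z) (n 0 (n
 0x1487185f8207e085f8208208208217df8208608208218228218608207e082082081f81f8208208200041 z z) (n
 0 z (n 0 z z)))) (n 0 (n 0 z (n 0 z (n 0 z (n 0 z z)))) (n 0 (n 0 z (n 0 z (n 0 z (n 0 z z))))
 (n 0 (n 0 z (n 0 z (n 0 z (n 0 z z)))) (n 0 (n 0 (n
 0x30ed0e060785f82186081f82082081f7e082082086081f8208608208208208208218208208217e08208200801 z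
 z) (n 0 z (n 0 z (n 0 (n 8855819 z z) z)))) (n 0 (n 0 z (n 0 z (n 0 (n
 0x30e70e60037e082186081f86086082081f85f7df7e08208217e181f8218208617e082081f8217e08208200801 z
 z) (n 0 (n 8855819 z z) z)))) (n 0 (n 0 z (n 0 z (n 0 z (n 0 z z)))) (n 0 (n 0 (n
 0x1487685f8207e085f8208208208217df8208608208218228218608207e082082081f81f8208208200041 z (n
 0x548618c7482797a8c7e8c718277858a9d70897877678a7b908476857784887184857a9170678d8c8d7068b55392956283638dad6a0049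
 z z)) (n 0 (n 8872467 z (n 8872467 z z)) (n 0 (n 8872467 z (n 8872467 z z)) (n 0 z z))))
 z))))))))))))))))))))))))))))) (n 299 (n 0 (n 0 z (n 0 z (n 0 z (n 0 z z)))) (n 0 (n 0 z (n 0 z
 (n 0 z (n 0 z z)))) (n 0 (n 0 (n 8785955 z z) (n 0 z (n 0 (n 8785955 z z) (n 0 z z)))) (n 0 (n
 0 z (n 0 z (n 0 (n
 0x1c48748087ff7fb7e480c7fc8247e98047f87fe8387db7fd8288077c07e38007c37fc7f07fe8018228237b182985a8407ce7f08608027f079e7a17fc8827ca7ea7ea7cf80180d8318297d08138210051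
 z z) (n 0 z z)))) (n 0 (n 0 (n 8785955 z z) (n 0 z (n 0 (n 8785955 z z) (n 0 z z)))) (n 0 (n 0
 z (n 0 z (n 0 z (n 0 (n 8785955 z (n 8785955 z z)) z)))) z)))))) (n 293 (n 0 (n 0 z (n 0 z (n 0
 z (n 0 z z)))) (n 0 (n 0 z (n 0 z (n 0 z (n 0 z z)))) (n 0 (n 0 z (n 0 z (n 0 z (n 0 z z)))) (n
 0 (n 0 z (n 0 z (n 0 z (n 0 z z)))) (n 0 (n 0 z (n 0 z (n 0 z (n 0 z z)))) (n 0 (n 0 z (n 0 (n
 0x30eb0ea6037e082082082082082082082081f8208208208208208208208a08208208208208208208208200801 z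
 z) (n 0 z (n 0 z z)))) z)))))) (n 9 (n 0 (n 0 z (n 0 z (n 0 z (n 0 z z)))) (n 0 (n 0 z (n 0 z
 (n 0 z (n 0 z z)))) (n 0 (n 0 z (n 0 z (n 0 z (n 0 z z)))) (n 0 (n 0 z (n 0 z (n 0 z (n 0 z
 z)))) (n 0 (n 0 z (n 0 z (n 0 z (n 0 z z)))) z))))) (n 123 (n 0 (n 0 z (n 0 z (n 0 z (n 0 z
 z)))) (n 0 (n 0 z (n 0 z (n 0 z (n 0 z z)))) (n 0 (n 0 z (n 0 z (n 0 z (n 0 z z)))) (n 0 (n 0 z
 (n 0 z (n 0 z (n 0 (n 8795419 z z) z)))) (n 0 (n 0 z (n 0 z (n 0 z (n 0 z z)))) (n 0 (n 0 (n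
 8785955 z z) (n 0 z (n 0 (n 8785955 z z) (n 0 z z)))) (n 0 (n 0 (n 8785955 z z) (n 0 z (n 0 (n
 8785955 z z) (n 0 z z)))) (n 0 (n 0 z (n 0 z (n 0 z (n 0 z z)))) (n 0 (n 0 z (n 0 z (n 0 z (n 0
 z z)))) (n 0 (n 0 z (n 0 z (n 0 z (n 0 z z)))) (n 0 (n 0 (n
 0x1487485f8207e085f8208208208217df8208608208218228218608207e082082081f81f8208208200041 z z) (n
 0 z (n 0 (n
 0x1487485f8207e085f8208208208217df8208608208218228218608207e082082081f81f8208208200041 z z) (n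
 0 z z)))) (n 0 (n 0 (n 8873259 z (n 8873259 z z)) (n 0 z (n 0 (n 7407691 z (n
 0x548548c7482797a8c7e8c718277858a9d70897877678a7b908476857784887184857a9170678d8c8d7068b55392956283638dad6a0049
 z z)) (n 0 (n
 0x548548c7482797a8c7e8c718277858a9d70897877678a7b908476857784887184857a9170678d8c8d7068b55392956283638dad6a0049
 z (n
 0x548548c7482797a8c7e8c718277858a9d70897877678a7b908476857784887184857a9170678d8c8d7068b55392956283638dad6a0049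
 z z)) z)))) z)))))))))))) (n 1 (n 0 (n 0 z (n 0 z (n 0 z (n 0 z z)))) (n 0 (n 0 z (n 0 z (n 0 z
 (n 0 z z)))) (n 0 (n 0 z (n 0 z (n 0 z (n 0 z z)))) (n 0 (n 0 z (n 0 z (n 0 z (n 0 z z)))) (n 0
 (n 0 z (n 0 z (n 0 z (n 0 z z)))) (n 0 (n 0 z (n 0 z (n 0 z (n 0 z z)))) (n 0 (n 0 z (n 0 z (n
 0 z (n 0 z z)))) (n 0 (n 0 z (n 0 z (n 0 z (n 0 z z)))) (n 0 (n 0 z (n 0 z (n 0 z (n 0 z z))))
 (n 0 (n 0 z (n 0 z (n 0 z (n 0 z z)))) (n 0 (n 0 z (n 0 z (n 0 z (n 0 z z)))) (n 0 (n 0 z (n 0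
 z (n 0 z (n 0 z z)))) (n 0 (n 0 (n
 0x7487581827d877793768c6488899a6b7c876e7d798f68838e6d877c797599a26a8988927e6955878b9f60786f6a9b829783629a840049
 z (n
 0x1c48318087ff7fb7e480c7fc8247e98047f87fe8387db7fd8288077c07e38007c37fc7f07fe8018228237b182985a8407ce7f08608027f079e7a17fc8827ca7ea7ea7cf80180d8318297d08138210051
 z z)) (n 0 (n
 0x7487581827d877793768c6488899a6b7c876e7d798f68838e6d877c797599a26a8988927e6955878b9f60786f6a9b829783629a840049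
 z (n 7673867 z z)) (n 0 (n
 0x1c48318087ff7fb7e480c7fc8247e98047f87fe8387db7fd8288077c07e38007c37fc7f07fe8018228237b182985a8407ce7f08608027f079e7a17fc8827ca7ea7ea7cf80180d8318297d08138210051
 z (n
 0x1c48318087ff7fb7e480c7fc8247e98047f87fe8387db7fd8288077c07e38007c37fc7f07fe8018228237b182985a8407ce7f08608027f079e7a17fc8827ca7ea7ea7cf80180d8318297d08138210051
 z z)) (n 0 z z)))) z))))))))))))) (n 0 (n 0 (n 0 z (n 0 z (n 0 z (n 0 z z)))) (n 0 (n 0 z (n 0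
 z (n 0 z (n 0 z z)))) (n 0 (n 0 z (n 0 z (n 0 z (n 0 z z)))) (n 0 (n 0 (n
 0x1487485f8207e085f8208208208217df8208608208218228218608207e082082081f81f8208208200041 z z) (n
 0 z (n 0 z (n 0 z z)))) (n 0 (n 0 z (n 0 (n
 0x1487185f8207e085f8208208208217df8208608208218228218608207e082082081f81f8208208200041 z z) (n
 0 z (n 0 z z)))) (n 0 (n 0 z (n 0 z (n 0 z (n 0 z z)))) (n 0 (n 0 z (n 0 z (n 0 z (n 0 z z))))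
 (n 0 (n 0 z (n 0 z (n 0 z (n 0 z z)))) (n 0 (n 0 (n 8795979 z z) (n 0 z (n 0 (n 8795979 z z) (n
 0 z z)))) z))))))))) z))))))))))))))))))))) z)))) z) z)))) (n 0x698429a8114d4809 (n 0 (n 189 (n
 0 z (n 0 z (n 0 z (n 3282443 z z)))) (n 33 (n 0 z (n 2 z (n 3278363 z z))) (n 173 (n 10 z (n 18
 z (n 3212843 z z))) (n 3 (n 0 z (n 0 z (n 2164283 z (n 0 z (n 0 z z))))) (n 1 (n 0 z (n 2164299
 z (n 0 z z))) (n 0 (n 0 z (n 0 z (n 0 z (n 0 z (n 0 z (n 2164315 z (n 0 z z))))))) z)))))) (n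
 33 (n 0 (n 275 (n 0 z (n 0 z (n 0 z (n 0 z (n 0 z z))))) (n 275 (n 0 z (n 0 z (n 0 z (n 0 z (n
 0 z z))))) z)) (n 0 (n 0 z z) (n 0 z z))) (n 0 (n 0 z (n 1 (n 1516 z (n 1516 z (n 1516 z (n
 1516 z (n 1516 z (n 1516 z z)))))) (n 1 (n 3278363 z (n 3278363 z (n 3278363 z (n 3278363 z (n
 3278363 z (n 3278363 z z)))))) z))) (n 0 z z)))) (n 0x2188da0c46114a52c21154ac29 (n 0 (n 209 (n
 3282443 z (n 0 z (n 0 z (n 0 z z)))) (n 35 (n 3278363 z (n 2 z (n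
 0x2ca6a604078608208218208208208217df8207e08208208208208608207e08208208208208207e082085f0801 z
 (n 0 z (n 0 z (n 0 z z)))))) (n 195 (n 0 z (n 0 z (n 3212843 z (n 0 z (n 10 z (n 0 z z)))))) (n
 3 (n 2164283 z z) (n 1 (n 18 z (n 2164299 z (n 0 z (n 26 z z)))) (n 0 (n 2164315 z (n 34 z (n 0
 z (n 0 z (n 0 z (n 0 z z)))))) z)))))) (n 3 (n 0 (n 1041 (n 0 z (n 0 z (n 0 z (n 0 z (n 0 z (n
 0 z (n 0 z (n 0 z (n 0 z (n 0 z z)))))))))) (n 69 (n 0 z (n 0 z (n 0 z (n 0 z (n 0 z (n 0 z (n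
 0 z z))))))) (n 69 (n 0 z (n 0 z (n 0 z (n 0 z (n 0 z (n 0 z (n 0 z z))))))) (n 1033 (n 0 z (n
 0 z (n 0 z (n 0 z (n 0 z (n 0 z (n 0 z (n 0 z (n 0 z z))))))))) z)))) (n 0 (n 51 (n 0 z (n 0 z
 (n 0 z z))) (n 51 (n 0 z (n 0 z (n 0 z z))) (n 49 (n 0 z (n 0 z (n 0 z (n 0 z (n 0 z (n 0 z (n
 0 z (n 0 z (n 0 z (n 0 z (n 0 z (n 0 z (n 0 z (n 0 z (n 0 z (n 0 z (n 0 z (n 0 z (n 0 z (n 0 z
 z)))))))))))))))))))) z))) (n 0 (n 0 z (n 505 (n 0 z (n 0 z (n 0 z (n 0 z (n 0 z (n 0 z (n 0 z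
 (n 0 z (n 0 z z))))))))) z)) (n 0 (n 25 (n 0 z (n 0 z (n 0 z (n 0 z z)))) z) (n 0 z z))))) (n 0
 (n 1 (n 2164283 z (n 2164283 z (n 2164283 z (n 2164283 z (n 2164283 z (n 2164283 z z)))))) z)
 (n 0 z z)))) (n 0x10c9b9aa0d2 (n 0 (n 209 (n 0 z (n 3282443 z (n 0 z (n 0 z (n 0 z (n 0 z
 z)))))) (n 35 (n 0 z (n 0 z (n 3278363 z (n 0 z (n 0 z (n 0 z z)))))) (n 195 (n 0 z (n 0 z (n 0
 z (n 0 z (n 3212843 z (n 2 z (n 0 z (n 0 z z)))))))) (n 3 (n 0 z (n 0 z (n 0 z (n 0 z (n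
 2164283 z z))))) (n 1 (n 10 z (n 2164299 z (n 0 z z))) (n 0 (n 0 z (n 0 z (n 2164315 z (n 0 z
 z)))) z)))))) (n 1 (n 0 (n 51 (n 0 z (n 0 z (n 0 z (n 0 z z)))) z) (n 0 z z)) (n 0 (n 1 (n 1676
 z (n 1676 z (n 1676 z (n 4396635 z (n 1676 z (n 1676 z z)))))) (n 1 (n 2164299 z (n 2164299 z
 (n 2164299 z (n 2164299 z (n 2164299 z (n 2164299 z z)))))) (n 0 z z))) (n 0 z z)))) (n
 0x6ceca2569511d4e87ab970d5c9854d4c1aae67838946134a3a80 (n 0 (n 215 (n 5518859 z (n 3282443 z (n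
 0xca8ca84078a17a075f8a18607a286285f8a07e18217a17e179f7e38628608a081e82081e7e08e07e17e00801 z (n
 2 z (n 0 z (n 0 z (n 0 z (n 0 z z)))))))) (n 35 (n 6627635 z z) (n 9 (n
 0x12ca4a6080775ea57b6371862495a51882955ea606deb9f92196095a71779b6e082591c7a896052099b9610801 z
 (n 0x2ca8a820037e182082085f8207a17e08608207e185f7a081f8207e081e86181f7e07e18208208608208200801
 z (n 10 z (n 0 z (n
 0x54ca4a208071b1de8da75d47228695956f15a77d47dbb1ca13a5ba8950c6e374b6a675a73ac9c5d7bdf99a0801 z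
 (n 0 z (n 0 z (n 0 z (n
 0x4ca4a6080782089f7e18608208207a18208208628208608208218217df82081f8207e08208208207e18200801 z
 (n 18 z (n 6631955 z z))))))))))) (n 3 (n 6631955 z z) (n 1 (n 6558507 z (n 26 z (n 34 z (n 42
 z z)))) (n 0 (n 50 z (n 58 z (n 66 z (n 6631955 z (n
 0x6ca886240386082172185f8207a182281f89f82182082082081f7df86182285f7de8218207a186085f7e00801 z
 (n 0x2c86c8040781f8617a182086082082082082082082082082182181f82082082082082086082082081f8200801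
 z (n 74 z z))))))) z)))))) (n 35 (n 0 (n 43 (n 0 z (n 0 z (n 0 z (n 0 z (n 0 z (n 0 z (n 0 z (n
 0 z z)))))))) (n 43 (n 0 z (n 0 z (n 2 (n 2 (n 0 z (n 0 z (n 0 z (n 0 z (n 0 z (n 0 z z))))))
 (n 2 (n 0 z (n 0 z (n 0 z (n 0 z (n 0 z (n 0 z z)))))) (n 1 z (n 1 z (n 1 z (n 2 (n 0 z (n 0 z
 (n 0 z (n 0 z (n 0 z (n 0 z z)))))) (n 1 z z))))))) (n 0 z (n 0 z (n 0 z (n 0 z (n 0 z
 z)))))))) (n 41 (n 0 z (n 0 z (n 0 z (n 0 z z)))) (n 41 (n 0 z (n 0 z (n 0 z (n 0 z z)))) (n 41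
 (n 2 (n 1 z (n 1 z (n 1 z (n 1 z z)))) (n 0 z (n 0 z (n 0 z z)))) (n 269 (n 0 z (n 0 z (n 0 z
 (n 2 (n 0 z (n 0 z (n 0 z z))) (n 0 z (n 0 z (n 0 z z))))))) (n 269 (n 0 z (n 0 z (n 0 z (n 0 z
 (n 0 z (n 0 z (n 0 z z))))))) (n 269 (n 0 z (n 0 z (n 0 z (n 0 z (n 0 z (n 0 z (n 0 z z)))))))
 (n 269 (n 0 z (n 0 z (n 2 z (n 0 z (n 0 z (n 0 z (n 0 z z))))))) z))))))))) (n 0 (n 0 z (n 297
 (n 0 z (n 0 z (n
 0xac62e80a076dba5c9626a191c8a07de7e069f8a09597de8a3961adc8586d972476875e7e38e06e089f8610801 z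
 (n 0 z (n 0 z (n 0 z (n 0 z (n 0 z (n 0 z (n 0 z (n 0 z (n 0 z (n 0 z (n 0 z z)))))))))))))) (n
 297 (n 0 z (n 0 z (n 0 z (n 0 z (n 0 z (n 0 z (n 0 z (n 0 z (n 0 z (n 0 z (n 0 z (n 0 z (n 0 z
 (n 0 z z)))))))))))))) (n 297 (n 0 z (n 0 z (n 0 z (n 0 z (n 0 z (n 0 z (n 0 z (n 0 z (n 0 z (n
 0 z (n 0 z (n 0 z (n 0 z (n 2 (n 1 z (n 1 z (n 2 (n 0 z (n 0 z (n 0 z (n 0 z (n 0 z (n 0 z
 z)))))) (n 1 z z)))) z)))))))))))))) (n 293 (n 0 z (n 0 z (n 0 z (n 0 z (n 0 z (n 0 z (n 0 z (n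
 0 z (n 0 z z))))))))) (n 293 (n 0 z (n 0 z (n 0 z (n 0 z (n 0 z (n 0 z (n 0 z (n 0 z (n 0 z
 z))))))))) (n 293 (n 0 z (n 0 z (n 0 z (n 0 z (n 0 z (n 0 z (n 2 (n 0 z z) (n 0 z (n 0 z
 z))))))))) (n 293 (n 0 z (n 0 z (n 0 z (n 0 z (n 0 z (n 0 z (n 0 z (n 0 z (n 2 z z)))))))))
 z)))))))) (n 0 (n 243 (n 0 z (n 0 z (n 0 z (n 0 z (n 2 (n 0 z (n 0 z (n 1 z (n 1 z (n 2 (n 0 z
 (n 0 z (n 0 z (n 0 z (n 0 z (n 0 z z)))))) (n 1 z z)))))) (n 0 z (n 0 z z))))))) (n 243 (n 0 z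
 (n 0 z (n 0 z (n 0 z (n 0 z (n 0 z (n 2 (n 0 z (n 1 z (n 1 z (n 2 (n 0 z (n 0 z (n 0 z (n 0 z
 (n 0 z (n 0 z z)))))) (n 1 z z))))) z))))))) (n 243 (n 0 z (n 0 z (n 0 z (n 0 z (n 0 z (n 0 z
 (n 0 z z))))))) (n 245 (n 0 z (n 0 z (n 0 z (n 0 z (n 0 z (n 0 z (n 0 z z))))))) (n 245 (n 0 z
 (n 0 z (n 0 z (n 0 z (n 0 z (n 0 z (n 0 z z))))))) (n 245 (n 0 z (n 0 z (n 0 z (n 2 (n 0 z z)
 (n 0 z (n 0 z (n 0 z z))))))) (n 245 (n 0 z (n 0 z (n 0 z (n 0 z (n 0 z (n 0 z (n 2 z z)))))))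
 z))))))) (n 0 (n 0 z (n 0 z (n 505 (n 0 z (n 0 z (n 0 z (n 0 z (n 0 z (n 0 z (n 0 z (n 0 z (n 0
 z (n 0 z (n 0 z (n 2 (n 0 z (n 0 z (n 0 z z))) (n 0 z (n 0 z z)))))))))))))) (n 505 (n 0 z (n 0
 z (n 0 z (n 0 z (n 0 z (n 0 z (n 0 z (n 0 z (n 0 z (n 0 z (n 0 z (n 0 z (n 0 z (n 0 z
 z)))))))))))))) (n 505 (n 0 z (n 0 z (n 0 z (n 0 z (n 0 z (n 0 z (n 0 z (n 0 z (n 0 z (n 0 z (n
 0 z (n 0 z (n 0 z (n 0 z z)))))))))))))) (n 505 (n 0 z (n 0 z (n 0 z (n 0 z (n 0 z (n 0 z (n 0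
 z (n 0 z (n 0 z (n 0 z (n 0 z (n 0 z (n 2 z (n 0 z z)))))))))))))) z)))))) (n 0 (n 0 z (n 157
 (n 0 z (n 0 z (n 0 z (n 0 z (n 0 z (n 0 z (n 0 z (n 0 z (n 0 z (n 0 z (n 0 z (n 2 (n 0 z (n 0 z
 (n 0 z z))) (n 0 z (n 0 z (n 0 z (n 0 z (n 0 z z))))))))))))))))) (n 157 (n 0 z (n 0 z (n 0 z
 (n 0 z (n 0 z (n 0 z (n 0 z (n 0 z (n 0 z (n 0 z (n 0 z (n 0 z (n 0 z (n 0 z (n 0 z (n 0 z (n 0
 z z))))))))))))))))) (n 157 (n 0 z (n 0 z (n 0 z (n 0 z (n 0 z (n 0 z (n 0 z (n 0 z (n 0 z (n 0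
 z (n 0 z (n 0 z (n 0 z (n 0 z (n 0 z (n 0 z (n 0 z z))))))))))))))))) (n 157 (n 0 z (n 0 z (n 0
 z (n 0 z (n 0 z (n 0 z (n 0 z (n 0 z (n 0 z (n 0 z (n 0 z (n 0 z (n 0 z (n 0 z (n 0 z (n 2 z (n
 0 z z))))))))))))))))) z))))) (n 0 (n 1 (n 0 z (n 0 z (n 0 z (n 0 z (n 0 z (n 0 z (n 0 z (n 0 z
 z)))))))) (n 1 (n 0 z (n 0 z (n 0 z (n 0 z (n 2 (n 0 z (n 0 z z)) (n 0 z (n 0 z (n 0 z
 z)))))))) (n 1 (n 2 (n 0 z z) (n 0 z (n 0 z (n 0 z (n 0 z (n 0 z (n 0 z (n 0 z z)))))))) (n 1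
 (n 0 z (n 0 z (n 0 z (n 0 z (n 0 z (n 0 z (n 0 z (n 0 z z)))))))) z)))) (n 0 (n 0 z (n 0 z (n 0
 z z))) (n 0 (n 0 z (n 0 z z)) (n 0 (n 0 z z) (n 0 z z)))))))))) (n 0 (n 1 (n 6627635 z (n
 6627635 z (n 6627635 z (n 6631955 z (n 6627635 z (n 6627635 z z)))))) z) (n 0 z z)))) (n
 0x1d33b82ce46168e10a35310f46c899b2c469941c4d9c3345a0d2 (n 0 (n 153 (n 6496275 z z) (n 33 (n
 6496515 z z) (n 9 (n 0 z (n
 0xca8a8260379f9e36a482379e8dc7e089e91e79c85e8207e082182379f79f7e07dd86085e9608217a07650801 z (n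
 6496515 z (n 2 z (n
 0x6ca8c8060379fba85657647dd81385fa1d85e6e075e75d71f8a16e585b91c8a189b8a39999a27a07dd7210801 z
 (n 0 z (n 0 z (n 0 z (n 0 z (n 0 z (n 0 z (n
 0x2ca8a826037a08e47617a181f7dc8de8de7a18608218df7e082182181f7e08237df8227e18217e085f7e00801 z
 (n 10 z (n 6496515 z z)))))))))))))) (n 27 (n 18 z (n 26 z (n 34 z (n 6496515 z (n 42 z z)))))
 (n 7 (n 50 z (n 58 z (n 6558219 z (n 66 z z)))) (n 0 (n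
 0x6c86c6020782075f89f7e08217e18607e17df86086086186079f89f7a07227a18608628227df81f7df8200801 z
 (n 0xeca264080771dbe826c9695dcc9f41e7a2ed268cb226df82b7e266a76da1365c7a19a4857b628a279e6a30801
 z (n 74 z (n
 0x2ca88604038208617e186081f81e81f8208607df81f7e08228617e17e081f7e181f8217df7e082181f8210801 z
 (n 0 z (n
 0x164264130182c868624078247618dd85f91f75e8de8a16e285e7a18608637e27de86179f7e28217607a37a08208218211001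
 z (n 0 z (n 6619675 z (n 6619675 z (n 0 z (n
 0x318b10201c063261040382c86c604078217de89f86082085f81f85f86081f8a08607e081f81f8218207e27618207a17e27e17a27a31801
 z (n 0 z (n
 0x365132040386c64c208077e096075f7a07a095d7e089d9a085e8df8617df7a07e27e27e07e171f7de8228a28237627661001
 z (n
 0x2c86c864037e48a57639a279b79c81c8de91c6da9238207e481e82281e89c7e279f89e7df9208df7217a70801 z
 z)))))))))))))) z)))))) (n 153 (n 0 (n 0 z (n 7 (n 2 (n 0 z (n 0 z (n 0 z (n 1 z (n 1 z (n 1 z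
 (n 1 z z))))))) (n 0 z (n 0 z (n 0 z (n 0 z (n 0 z (n 0 z (n 0 z z)))))))) (n 7 (n 0 z (n 0 z
 (n 0 z (n 0 z (n 0 z (n 0 z (n 0 z (n 0 z z)))))))) (n 7 (n 0 z (n 0 z (n 0 z (n 0 z (n 0 z (n
 0 z (n 0 z (n 0 z z)))))))) (n 7 (n 0 z (n 0 z (n 0 z (n 0 z (n 0 z (n 0 z (n 2 (n 1 z (n 2 (n
 0 z (n 0 z (n 0 z (n 0 z (n 0 z (n 0 z z)))))) (n 2 (n 0 z (n 0 z (n 0 z (n 0 z (n 0 z (n 0 z
 z)))))) (n 1 z z)))) (n 0 z z)))))))) (n 99 (n 0 z (n 0 z (n 0 z (n 0 z (n 0 z (n 0 z (n 0 z (n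
 0 z z)))))))) (n 99 (n 0 z (n 2 (n 0 z (n 2 (n 0 z (n 0 z (n 0 z (n 0 z (n 0 z (n 0 z z))))))
 z)) (n 0 z (n 0 z (n 0 z (n 0 z (n 0 z (n 0 z z)))))))) (n 99 (n 0 z (n 0 z (n 0 z (n 0 z (n 0
 z (n 2 (n 2 (n 0 z (n 0 z (n 0 z (n 0 z (n 0 z (n 0 z z)))))) z) (n 0 z (n 0 z z)))))))) (n 97
 (n 0 z (n 2 z (n 0 z (n 0 z (n 0 z (n 0 z (n 0 z (n 0 z (n 0 z (n 0 z (n 0 z (n 0 z (n 0 z (n 0
 z (n 0 z (n 0 z (n 0 z (n 0 z (n 0 z (n 0 z (n 0 z (n 0 z (n 0 z (n 0 z (n 0 z (n 0 z (n 0 z (n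
 0 z z)))))))))))))))))))))))))))) z))))))))) (n 0 (n 27 (n 2 (n 0 z (n 0 z (n 0 z (n 1 z (n 2
 (n 0 z (n 0 z (n 0 z (n 0 z (n 0 z (n 0 z z)))))) (n 2 (n 0 z (n 0 z (n 0 z (n 0 z (n 0 z (n 0
 z z)))))) (n 2 (n 0 z (n 0 z (n 0 z (n 0 z (n 0 z (n 0 z z)))))) z))))))) (n 0 z (n 0 z (n 0 z
 (n 0 z (n 0 z z)))))) (n 27 (n 0 z (n 0 z (n 0 z (n 0 z (n 0 z (n 0 z z)))))) (n 27 (n 0 z (n 0
 z (n 0 z (n 0 z (n 0 z (n 0 z z)))))) (n 27 (n 0 z (n 0 z (n 0 z (n 0 z (n 2 (n 1 z (n 1 z (n 1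
 z (n 1 z z)))) (n 0 z z)))))) (n 105 (n 0 z (n 0 z (n 0 z (n 0 z (n 0 z (n 0 z (n 0 z (n 2 (n 0
 z (n 0 z (n 2 (n 0 z (n 0 z (n 0 z (n 0 z (n 0 z (n 0 z z)))))) z))) (n 0 z (n 0 z (n 0 z
 z))))))))))) (n 105 (n 0 z (n 0 z (n 0 z (n 0 z (n 0 z (n 0 z (n 0 z (n 0 z (n 0 z (n 0 z (n 0
 z z))))))))))) (n 105 (n 0 z (n 0 z (n 0 z (n 0 z (n 0 z (n 0 z (n 0 z (n 0 z (n 0 z (n 0 z (n
 0 z z))))))))))) (n 17 (n 0 z (n 0 z (n 0 z (n 0 z (n 0 z (n 0 z (n 0 z z))))))) z)))))))) (n 0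
 (n 0 z (n 0 z (n 0 z (n 51 (n 0 z (n 0 z (n 0 z (n 0 z (n 0 z (n 0 z (n 0 z z))))))) (n 51 (n 0
 z (n 2 (n 0 z (n 2 (n 0 z (n 0 z (n 0 z (n 0 z (n 0 z (n 0 z z)))))) z)) (n 0 z (n 0 z (n 0 z
 (n 0 z (n 0 z z))))))) (n 51 (n 0 z (n 0 z (n 0 z (n 0 z (n 0 z (n 0 z (n 2 (n 2 (n 0 z (n 0 z
 (n 0 z (n 0 z (n 0 z (n 0 z z)))))) z) z))))))) (n 53 (n 0 z (n 0 z (n 0 z (n 2 z (n 0 z (n 0 z
 (n 0 z (n 0 z (n 0 z (n 0 z (n 0 z (n 0 z (n 0 z (n 0 z (n 0 z (n 0 z (n 0 z (n 0 z (n 0 z (n 0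
 z (n 0 z (n 0 z (n 0 z (n 0 z (n 0 z (n 0 z z)))))))))))))))))))))))))) z))))))) (n 0 (n 0 z (n
 0 z (n 3 (n 0 z (n 0 z (n 0 z (n 0 z (n 0 z (n 0 z (n 0 z z))))))) (n 3 (n 2 (n 0 z (n 2 (n 0 z
 (n 0 z (n 0 z (n 0 z (n 0 z (n 0 z z)))))) z)) (n 0 z (n 0 z (n 0 z (n 0 z (n 0 z (n 0 z
 z))))))) (n 3 (n 0 z (n 0 z (n 0 z (n 0 z (n 0 z (n 2 (n 2 (n 0 z (n 0 z (n 0 z (n 0 z (n 0 z
 (n 0 z z)))))) z) (n 0 z z))))))) (n 53 (n 0 z (n 0 z (n 0 z (n 0 z (n 0 z (n 0 z (n 0 z (n 0 z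
 (n 0 z (n 0 z (n 0 z (n 0 z (n 0 z (n 2 z (n 0 z (n 0 z (n 0 z (n 0 z (n 0 z (n 0 z (n 0 z (n 0
 z (n 0 z (n 0 z (n 0 z (n 0 z (n 0 z (n 0 z z)))))))))))))))))))))))))))) z)))))) (n 0 (n 0 z
 (n 51 (n 0 z (n 2 (n 0 z (n 0 z (n 1 z z))) (n 0 z (n 0 z (n 0 z (n 0 z (n 0 z (n 0 z (n 0 z (n
 0 z (n 0 z z))))))))))) (n 51 (n 0 z (n 0 z (n 0 z (n 0 z (n 0 z (n 0 z (n 0 z (n 0 z (n 0 z (n
 0 z (n 0 z z))))))))))) (n 51 (n 0 z (n 0 z (n 0 z (n 0 z (n 0 z (n 0 z (n 0 z (n 0 z (n 0 z (n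
 0 z (n 0 z z))))))))))) (n 53 (n 0 z (n 0 z (n 0 z (n 0 z (n 0 z (n 0 z (n 0 z (n 0 z z))))))))
 z))))) (n 0 (n 483 (n 0 z (n 2 (n 0 z (n 0 z (n 1 z z))) (n 0 z (n 0 z (n 0 z (n 0 z (n 0 z (n
 0 z (n 0 z z))))))))) (n 483 (n 0 z (n 0 z (n 0 z (n 0 z (n 0 z (n 0 z (n 0 z (n 0 z (n 0 z
 z))))))))) (n 483 (n 0 z (n 0 z (n 0 z (n 0 z (n 0 z (n 0 z (n 0 z (n 0 z (n 0 z z))))))))) (n
 485 (n 0 z (n 0 z (n 0 z (n 0 z (n 0 z (n 0 z (n 0 z (n 0 z z)))))))) z)))) (n 0 (n 0 z (n 0 z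
 (n 13 (n 0 z (n 0 z (n 0 z (n 0 z (n 0 z (n 0 z (n 0 z (n 0 z (n 2 z (n 0 z (n 0 z (n 0 z (n 0
 z (n 0 z z)))))))))))))) z))) (n 0 (n 0 z (n 13 (n 0 z (n 0 z (n 0 z (n 0 z (n 0 z (n 0 z (n 0
 z z))))))) z)) (n 0 (n 253 (n 0 z (n 0 z (n 0 z (n 0 z (n 0 z (n 0 z (n 0 z z))))))) z) (n 0 z
 z)))))))))) (n 0 (n 1 (n 6496515 z (n 6496275 z (n 6496275 z (n 6496275 z (n 6496275 z (n
 6496275 z z)))))) z) (n 0 z z)))) (n 0x1d73b82cec616ae10ab5310f56c8b9b2c569941d4d9c3345a0d2 (n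
 0 (n 153 (n 6496275 z z) (n 33 (n 0 z (n 0 z (n 0 z (n 0 z (n 0 z (n 6496515 z z)))))) (n 9 (n
 0x2ca8a8260361dda73a876775ea9079ead9a9b75a79a85d6dd9217a779d81c7e17dc9669daa227237dc6220801 z
 (n 0 z (n 6496515 z (n 2 z (n 0 z (n 0 z (n 0 z (n 0 z (n 0 z (n 0 z (n 0 z (n
 0x65365310380ca8a8620781f8e27617e17e075c8e189f7a18607e08607df8208608207618227a08218207e17a185f7a11001
 z (n 10 z (n 6496515 z z)))))))))))))) (n 27 (n 18 z (n 26 z (n 34 z (n 6496515 z (n 42 z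
 z))))) (n 7 (n 50 z (n 58 z (n 6558219 z (n 66 z z)))) (n 0 (n 74 z (n 0 z (n 0 z (n 6619675 z
 (n 0 z z))))) z)))))) (n 153 (n 0 (n 0 z (n 7 (n 2 (n 0 z (n 0 z (n 0 z (n 1 z (n 1 z (n 1 z (n
 1 z z))))))) (n 0 z (n 0 z (n 0 z (n 0 z (n 0 z (n 0 z z))))))) (n 7 (n 0 z (n 0 z (n 0 z (n 0
 z (n 0 z (n 0 z (n 0 z z))))))) (n 7 (n 0 z (n 0 z (n 0 z (n 0 z (n 0 z (n 0 z (n 0 z z)))))))
 (n 7 (n 0 z (n 0 z (n 0 z (n 0 z (n 0 z (n 2 (n 1 z (n 2 (n 0 z (n 0 z (n 0 z (n 0 z (n 0 z (n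
 0 z z)))))) (n 2 (n 0 z (n 0 z (n 0 z (n 0 z (n 0 z (n 0 z z)))))) (n 1 z z)))) (n 0 z z)))))))
 (n 99 (n 0 z (n 0 z (n 0 z (n 0 z (n 0 z (n 0 z (n 0 z (n 0 z z)))))))) (n 99 (n 0 z (n 2 (n 0
 z (n 2 (n 0 z (n 0 z (n 0 z (n 0 z (n 0 z (n 0 z z)))))) z)) (n 0 z (n 0 z (n 0 z (n 0 z (n 0 z
 (n 0 z z)))))))) (n 99 (n 0 z (n 0 z (n 0 z (n 0 z (n 0 z (n 2 (n 2 (n 0 z (n 0 z (n 0 z (n 0 z
 (n 0 z (n 0 z z)))))) z) (n 0 z (n 0 z z)))))))) (n 97 (n 2 z (n 0 z (n 0 z (n 0 z (n 0 z (n 0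
 z z)))))) z))))))))) (n 0 (n 27 (n 2 (n 0 z (n 0 z (n 0 z (n 1 z (n 2 (n 0 z (n 0 z (n 0 z (n 0
 z (n 0 z (n 0 z z)))))) (n 2 (n 0 z (n 0 z (n 0 z (n 0 z (n 0 z (n 0 z z)))))) (n 2 (n 0 z (n 0
 z (n 0 z (n 0 z (n 0 z (n 0 z z)))))) z))))))) (n 0 z (n 0 z (n 0 z (n 0 z (n 0 z z)))))) (n 27
 (n 0 z (n 0 z (n 0 z (n 0 z (n 0 z (n 0 z z)))))) (n 27 (n 0 z (n 0 z (n 0 z (n 0 z (n 0 z (n 0
 z z)))))) (n 27 (n 0 z (n 0 z (n 0 z (n 0 z (n 2 (n 1 z (n 1 z (n 1 z (n 1 z z)))) (n 0 z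
 z)))))) (n 105 (n 0 z (n 0 z (n 0 z (n 2 (n 0 z (n 0 z (n 2 (n 0 z (n 0 z (n 0 z (n 0 z (n 0 z
 (n 0 z z)))))) z))) (n 0 z z))))) (n 105 (n 0 z (n 0 z (n 0 z (n 0 z (n 0 z z))))) (n 105 (n 0
 z (n 0 z (n 0 z (n 0 z (n 0 z z))))) (n 17 (n 0 z (n 0 z (n 0 z (n 0 z (n 0 z (n 0 z (n 0 z
 z))))))) z)))))))) (n 0 (n 0 z (n 0 z (n 0 z (n 51 (n 0 z (n 0 z (n 0 z (n 0 z (n 0 z (n 0 z (n
 0 z z))))))) (n 51 (n 0 z (n 2 (n 0 z (n 2 (n 0 z (n 0 z (n 0 z (n 0 z (n 0 z (n 0 z z))))))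
 z)) (n 0 z (n 0 z (n 0 z (n 0 z (n 0 z z))))))) (n 51 (n 0 z (n 0 z (n 0 z (n 0 z (n 0 z (n 0 z
 (n 2 (n 2 (n 0 z (n 0 z (n 0 z (n 0 z (n 0 z (n 0 z z)))))) z) z))))))) (n 53 (n 0 z (n 2 z (n
 0 z (n 0 z (n 0 z z))))) z))))))) (n 0 (n 0 z (n 0 z (n 3 (n 0 z (n 0 z (n 0 z (n 0 z (n 0 z (n
 0 z (n 0 z z))))))) (n 3 (n 2 (n 0 z (n 2 (n 0 z (n 0 z (n 0 z (n 0 z (n 0 z (n 0 z z)))))) z))
 (n 0 z (n 0 z (n 0 z (n 0 z (n 0 z (n 0 z z))))))) (n 3 (n 0 z (n 0 z (n 0 z (n 0 z (n 0 z (n 2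
 (n 2 (n 0 z (n 0 z (n 0 z (n 0 z (n 0 z (n 0 z z)))))) z) (n 0 z z))))))) (n 53 (n 0 z (n 2 z
 (n 0 z (n 0 z (n 0 z (n 0 z z)))))) z)))))) (n 0 (n 0 z (n 51 (n 0 z (n 0 z (n 2 (n 0 z (n 0 z
 (n 1 z z))) (n 0 z (n 0 z z))))) (n 51 (n 0 z (n 0 z (n 0 z (n 0 z (n 0 z z))))) (n 51 (n 0 z
 (n 0 z (n 0 z (n 0 z (n 0 z z))))) (n 53 (n 0 z (n 0 z (n 0 z (n 0 z (n 0 z (n 0 z (n 0 z (n 0
 z z)))))))) z))))) (n 0 (n 483 (n 0 z (n 0 z (n 2 (n 0 z (n 0 z (n 1 z z))) (n 0 z (n 0 z (n 0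
 z (n 0 z z))))))) (n 483 (n 0 z (n 0 z (n 0 z (n 0 z (n 0 z (n 0 z (n 0 z z))))))) (n 483 (n 0
 z (n 0 z (n 0 z (n 0 z (n 0 z (n 0 z (n 0 z z))))))) (n 485 (n 0 z (n 0 z (n 0 z (n 0 z (n 0 z
 (n 0 z (n 0 z (n 0 z z)))))))) z)))) (n 0 (n 0 z (n 0 z (n 13 (n 0 z (n 0 z (n 0 z (n 2 z (n 0
 z z))))) z))) (n 0 (n 0 z (n 13 (n 0 z (n 0 z (n 0 z (n 0 z (n 0 z (n 0 z (n 0 z z))))))) z))
 (n 0 (n 253 (n 0 z (n 0 z (n 0 z (n 0 z (n 0 z (n 0 z (n 0 z z))))))) z) (n 0 z z)))))))))) (n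
 0 (n 1 (n 6496515 z (n 6496275 z (n 6496275 z (n 6496275 z (n 6496275 z (n 6496275 z z)))))) z)
 (n 0 z z)))) (n 0x2d74b83d2c81eb220ec732135710ba35058da6256e2c344a311a (n 0 (n 153 (n 6496275 z
 z) (n 33 (n 6496515 z z) (n 9 (n 0 z (n
 0xca8a862077e09a36e27e27de85c7df8de8de7de81f81f7e085f82281e85e7e181f8a289f8e17e07df7a10801 z (n
 0x3d61079d9df6e26e282189982591c89e82079971e75c81f86289c7607e281d8e3a618607e281f7620041 z (n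
 6496515 z (n 2 z (n
 0x3d61079d9df6e26e282189982591c89e82079971e75c81f86289c7607e281d8e3a618607e281f7620041 z (n 0 z
 (n 6496515 z (n
 0x256307de95f76176182085c8238dd85f8207db75e79d82082285e7a07e181e8a29618208217df7a20041 z (n 0 z
 (n 10 z (n 0 z (n 0 z (n 0 z (n 0 z (n 6496523 z (n 0 z (n 6496515 z (n 0 z (n 0 z
 z)))))))))))))))))))) (n 27 (n 18 z (n 26 z (n 34 z (n 6496515 z (n 42 z z))))) (n 7 (n 50 z (n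
 58 z (n 6558219 z (n 66 z z)))) (n 0 (n 74 z (n 0 z (n 0 z (n 6619675 z (n 0 z z))))) z))))))
 (n 153 (n 0 (n 0 z (n 7 (n 2 (n 0 z (n 0 z (n 0 z (n 1 z (n 1 z (n 1 z (n 1 z z))))))) (n 0 z
 (n 0 z (n 0 z (n 0 z (n 0 z (n 0 z z))))))) (n 7 (n 0 z (n 0 z (n 0 z (n 0 z (n 0 z (n 0 z (n 0
 z z))))))) (n 7 (n 0 z (n 0 z (n 0 z (n 0 z (n 0 z (n 0 z (n 0 z z))))))) (n 7 (n 0 z (n 0 z (n
 0 z (n 0 z (n 0 z (n 2 (n 1 z (n 2 (n 0 z (n 0 z (n 0 z (n 0 z (n 0 z (n 0 z z)))))) (n 2 (n 0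
 z (n 0 z (n 0 z (n 0 z (n 0 z (n 0 z z)))))) (n 1 z z)))) (n 0 z z))))))) (n 99 (n 0 z (n 0 z
 (n 0 z (n 0 z (n 0 z (n 0 z (n 0 z (n 0 z (n 0 z z))))))))) (n 99 (n 0 z (n 2 (n 0 z (n 2 (n 0
 z (n 0 z (n 0 z (n 0 z (n 0 z (n 0 z z)))))) z)) (n 0 z (n 0 z (n 0 z (n 0 z (n 0 z (n 0 z (n 0
 z z))))))))) (n 99 (n 0 z (n 0 z (n 0 z (n 0 z (n 0 z (n 0 z (n 2 (n 2 (n 0 z (n 0 z (n 0 z (n
 0 z (n 0 z (n 0 z z)))))) z) (n 0 z (n 0 z z))))))))) (n 97 (n 2 z (n 0 z (n 0 z (n 0 z (n 0 z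
 (n 0 z (n 0 z (n 0 z (n 0 z z))))))))) z))))))))) (n 0 (n 27 (n 2 (n 0 z (n 0 z (n 0 z (n 1 z
 (n 2 (n 0 z (n 0 z (n 0 z (n 0 z (n 0 z (n 0 z z)))))) (n 2 (n 0 z (n 0 z (n 0 z (n 0 z (n 0 z
 (n 0 z z)))))) (n 2 (n 0 z (n 0 z (n 0 z (n 0 z (n 0 z (n 0 z z)))))) z))))))) (n 0 z (n 0 z (n
 0 z (n 0 z (n 0 z z)))))) (n 27 (n 0 z (n 0 z (n 0 z (n 0 z (n 0 z (n 0 z z)))))) (n 27 (n 0 z
 (n 0 z (n 0 z (n 0 z (n 0 z (n 0 z z)))))) (n 27 (n 0 z (n 0 z (n 0 z (n 0 z (n 2 (n 1 z (n 1 z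
 (n 1 z (n 1 z z)))) (n 0 z z)))))) (n 105 (n 0 z (n 0 z (n 0 z (n 0 z (n 0 z (n 0 z (n 0 z (n 0
 z (n 0 z (n 0 z (n 0 z (n 0 z (n 0 z (n 0 z (n 2 (n 0 z (n 0 z (n 2 (n 0 z (n 0 z (n 0 z (n 0 z
 (n 0 z (n 0 z z)))))) z))) (n 0 z (n 0 z z))))))))))))))))) (n 105 (n 0 z (n 0 z (n 0 z (n 0 z
 (n 0 z (n 0 z (n 0 z (n 0 z (n 0 z (n 0 z (n 0 z (n 0 z (n 0 z (n 0 z (n 0 z (n 0 z (n 0 z
 z))))))))))))))))) (n 105 (n 0 z (n 0 z (n 0 z (n 0 z (n 0 z (n 0 z (n 0 z (n 0 z (n 0 z (n 0 z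
 (n 0 z (n 0 z (n 0 z (n 0 z (n 0 z (n 0 z (n 0 z z))))))))))))))))) (n 17 (n 0 z (n 0 z (n 0 z
 (n 0 z (n 0 z (n 0 z (n 0 z z))))))) z)))))))) (n 0 (n 0 z (n 0 z (n 0 z (n 51 (n 0 z (n 0 z (n
 0 z (n 0 z (n 0 z (n 0 z (n 0 z z))))))) (n 51 (n 0 z (n 2 (n 0 z (n 2 (n 0 z (n 0 z (n 0 z (n
 0 z (n 0 z (n 0 z z)))))) z)) (n 0 z (n 0 z (n 0 z (n 0 z (n 0 z z))))))) (n 51 (n 0 z (n 0 z
 (n 0 z (n 0 z (n 0 z (n 0 z (n 2 (n 2 (n 0 z (n 0 z (n 0 z (n 0 z (n 0 z (n 0 z z)))))) z)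
 z))))))) (n 53 (n 0 z (n 2 z (n 0 z (n 0 z (n 0 z (n 0 z (n 0 z (n 0 z z)))))))) z))))))) (n 0
 (n 0 z (n 0 z (n 3 (n 0 z (n 0 z (n 0 z (n 0 z (n 0 z (n 0 z (n 0 z z))))))) (n 3 (n 2 (n 0 z
 (n 2 (n 0 z (n 0 z (n 0 z (n 0 z (n 0 z (n 0 z z)))))) z)) (n 0 z (n 0 z (n 0 z (n 0 z (n 0 z
 (n 0 z z))))))) (n 3 (n 0 z (n 0 z (n 0 z (n 0 z (n 0 z (n 2 (n 2 (n 0 z (n 0 z (n 0 z (n 0 z
 (n 0 z (n 0 z z)))))) z) (n 0 z z))))))) (n 53 (n 0 z (n 2 z (n 0 z (n 0 z (n 0 z (n 0 z (n 0 z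
 (n 0 z (n 0 z z))))))))) z)))))) (n 0 (n 0 z (n 51 (n 0 z (n 0 z (n 0 z (n 2 (n 0 z (n 0 z (n 1
 z z))) (n 0 z (n 0 z (n 0 z (n 0 z (n 0 z (n 0 z (n 0 z (n 0 z (n 0 z (n 0 z (n 0 z (n 0 z (n 0
 z z))))))))))))))))) (n 51 (n 0 z (n 0 z (n 0 z (n 0 z (n 0 z (n 0 z (n 0 z (n 0 z (n 0 z (n 0
 z (n 0 z (n 0 z (n 0 z (n 0 z (n 0 z (n 0 z (n 0 z z))))))))))))))))) (n 51 (n 0 z (n 0 z (n 0
 z (n 0 z (n 0 z (n 0 z (n 0 z (n 0 z (n 0 z (n 0 z (n 0 z (n 0 z (n 0 z (n 0 z (n 0 z (n 0 z (n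
 0 z z))))))))))))))))) (n 53 (n 0 z (n 0 z (n 0 z (n 0 z (n 0 z (n 0 z (n 0 z (n 0 z (n 0 z
 z))))))))) z))))) (n 0 (n 483 (n 0 z (n 0 z (n 0 z (n 2 (n 0 z (n 0 z (n 1 z z))) (n 0 z (n 0 z
 (n 0 z (n 0 z (n 0 z (n 0 z (n 0 z (n 0 z (n 0 z (n 0 z (n 0 z (n 0 z (n 0 z (n 0 z (n 0 z
 z))))))))))))))))))) (n 483 (n 0 z (n 0 z (n 0 z (n 0 z (n 0 z (n 0 z (n 0 z (n 0 z (n 0 z (n 0
 z (n 0 z (n 0 z (n 0 z (n 0 z (n 0 z (n 0 z (n 0 z (n 0 z (n 0 z z))))))))))))))))))) (n 483 (n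
 0 z (n 0 z (n 0 z (n 0 z (n 0 z (n 0 z (n 0 z (n 0 z (n 0 z (n 0 z (n 0 z (n 0 z (n 0 z (n 0 z
 (n 0 z (n 0 z (n 0 z (n 0 z (n 0 z z))))))))))))))))))) (n 485 (n 0 z (n 0 z (n 0 z (n 0 z (n 0
 z (n 0 z (n 0 z (n 0 z (n 0 z z))))))))) z)))) (n 0 (n 0 z (n 0 z (n 13 (n 0 z (n 0 z (n 0 z (n
 2 z (n 0 z z))))) z))) (n 0 (n 0 z (n 13 (n 0 z (n 0 z (n 0 z (n 0 z (n 0 z z))))) z)) (n 0 (n
 253 (n 0 z (n 0 z (n 0 z (n 0 z (n 0 z z))))) z) (n 0 z z)))))))))) (n 0 (n 1 (n 6496275 z (n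
 6496515 z (n 6496275 z (n 6496275 z (n 6496275 z (n 6496275 z z)))))) z) (n 0 z z)))) (n
 0x16ed283ae970d74906b34c45d1d226af1c3458eb80 (n 0 (n 153 (n 0 z (n 0 z (n 6496275 z (n 0 z (n 2
 z z))))) (n 33 (n 0 z (n 6496515 z (n 0 z (n 0 z z)))) (n 9 (n 0 z (n
 0x2ca8a8620780807e807f817d827e80807c8580827e7e80827f7f7f808180827a817e80807a838180827e817f81867e7e837e867f7d7f800809
 z (n 6496523 z (n
 0xca8a80607808080808180818080807f7f808081808080808081818080807f8180808080808080807f817f80807f808080817f808080800809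
 z (n 0 z (n 0 z (n 0 z (n 0 z (n 0 z (n 0 z (n 0 z (n 0 z (n 0 z (n 6496515 z (n 0 z (n 6496515
 z (n 6496515 z (n 0 z (n 0 z (n 0 z (n 10 z (n 0 z (n 0 z (n 0 z (n
 0xca8ca2607817f8080818080808080807e8080817f8080807f81808080807f80807f80807f8180807f80808080808080808180807f80800809
 z (n 0 z (n 0 z (n 6496275 z (n 6496275 z z))))))))))))))))))))))))))))) (n 243 (n 6496523 z (n
 0x6994d44100606ca8ca8207806e927f7787738e7d717d9490806f8176777da27c83717d80647f848d937e6e7e7e7884818375839974838f6e9c7c738a781009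
 z (n 0 z (n 18 z (n 26 z (n 0 z (n 0 z (n 0 z (n 6496515 z (n 6496515 z z)))))))))) (n 121 (n 0
 z (n 0 z (n 0 z (n 6636323 z (n 34 z (n 42 z z)))))) (n 0 (n 50 z (n 0 z (n 6636323 z (n 58 z
 (n 0 z z))))) z)))))) (n 33 (n 0 (n 369 (n 0 z (n 0 z (n 0 z (n 0 z (n 0 z (n 0 z (n 0 z (n 0 z
 (n 0 z (n 0 z (n 0 z (n 0 z (n 0 z (n 0 z (n 0 z (n 0 z (n 0 z (n 0 z (n 0 z (n 0 z (n 0 z (n 0
 z (n 0 z (n 0 z (n 0 z (n 0 z (n 0 z (n 0 z (n 0 z (n 0 z (n 0 z (n 0 z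
 z)))))))))))))))))))))))))))))))) (n 561 (n 2 (n 0 z (n 1 z (n 1 z (n 1 z (n 1 z z))))) (n 0 z
 (n 0 z (n 0 z (n 0 z (n 0 z (n 0 z (n 0 z (n 0 z z))))))))) (n 561 (n 0 z (n 0 z (n 0 z (n 0 z
 (n 0 z (n 0 z (n 0 z (n 0 z (n 0 z z))))))))) (n 309 (n 0 z (n 0 z (n 0 z (n 0 z z)))) (n 309
 (n 0 z (n 0 z (n 0 z (n 0 z z)))) (n 305 (n 0 z (n 0 z (n 0 z (n 0 z (n 0 z (n 0 z (n 0 z (n 0
 z (n 0 z (n 0 z (n 0 z (n 0 z (n 0 z (n 0 z (n 0 z z))))))))))))))) (n 305 (n 0 z (n 0 z (n 0 z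
 (n 0 z (n 0 z (n 0 z (n 0 z (n 0 z (n 0 z (n 0 z (n 0 z (n 0 z (n 0 z (n 0 z (n 0 z
 z))))))))))))))) z))))))) (n 0 (n 1059 (n 0 z (n 0 z (n 0 z (n 2 (n 0 z (n 1 z (n 1 z (n 1 z (n
 1 z z))))) (n 0 z (n 0 z z)))))) (n 1059 (n 0 z (n 0 z (n 0 z (n 0 z (n 0 z (n 0 z z)))))) (n
 261 (n 0 z (n 0 z (n 0 z (n 0 z (n 0 z (n 0 z (n 0 z (n 0 z (n 0 z (n 0 z (n 0 z (n 0 z (n 0 z
 (n 0 z (n 0 z (n 0 z (n 0 z (n 0 z (n 0 z (n 0 z (n 0 z (n 0 z (n 0 z (n 0 z (n 0 z (n 0 z (n 0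
 z (n 0 z (n 0 z (n 0 z (n 0 z (n 0 z (n 0 z (n 0 z (n 0 z (n 0 z
 z)))))))))))))))))))))))))))))))))))) (n 261 (n 0 z (n 0 z (n 0 z (n 0 z (n 0 z (n 0 z (n 0 z
 (n 0 z (n 0 z (n 0 z (n 0 z (n 0 z (n 0 z (n 0 z (n 0 z (n 0 z (n 0 z (n 0 z (n 0 z (n 0 z (n 0
 z (n 0 z (n 0 z (n 0 z (n 0 z (n 0 z (n 0 z (n 0 z (n 0 z (n 0 z (n 0 z (n 0 z (n 0 z (n 0 z (n
 0 z (n 0 z z)))))))))))))))))))))))))))))))))))) (n 17 (n 0 z (n 0 z (n 0 z (n 0 z (n 0 z (n 0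
 z (n 0 z (n 0 z z)))))))) (n 17 (n 0 z (n 2 z (n 0 z (n 0 z (n 0 z (n 0 z (n 0 z (n 0 z
 z)))))))) z)))))) (n 0 (n 0 z (n 537 (n 0 z (n 0 z (n 0 z (n 0 z (n 0 z (n 0 z (n 0 z (n 0 z (n
 0 z (n 0 z (n 0 z (n 0 z (n 0 z (n 0 z (n 0 z (n 0 z (n 0 z (n 0 z (n 0 z (n 0 z (n 0 z (n 0 z
 (n 0 z (n 0 z (n 0 z (n 0 z (n 0 z (n 0 z (n 0 z (n 0 z (n 0 z z)))))))))))))))))))))))))))))))
 (n 537 (n 0 z (n 0 z (n 0 z (n 0 z (n 0 z (n 0 z (n 0 z (n 0 z (n 0 z (n 0 z (n 0 z (n 0 z (n 0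
 z (n 0 z (n 0 z (n 0 z (n 0 z (n 0 z (n 0 z (n 0 z (n 0 z (n 0 z (n 0 z (n 0 z (n 0 z (n 0 z (n
 0 z (n 0 z (n 0 z (n 0 z (n 0 z z))))))))))))))))))))))))))))))) (n 485 (n 0 z (n 0 z (n 0 z (n
 0 z (n 0 z (n 0 z (n 0 z (n 0 z (n 0 z (n 0 z z)))))))))) (n 485 (n 0 z (n 0 z (n 0 z (n 0 z (n
 0 z (n 0 z (n 0 z (n 0 z (n 0 z (n 2 z z)))))))))) z))))) (n 0 (n 537 (n 0 z (n 0 z (n 0 z (n 0
 z z)))) (n 537 (n 0 z (n 0 z (n 0 z (n 0 z z)))) (n 53 (n 0 z (n 0 z (n 0 z (n 0 z (n 0 z (n 0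
 z (n 0 z (n 0 z (n 0 z (n 0 z z)))))))))) (n 53 (n 0 z (n 0 z (n 2 z (n 0 z (n 0 z (n 0 z (n 0
 z (n 0 z (n 0 z (n 0 z z)))))))))) z)))) (n 0 (n 0 z (n 241 (n 0 z (n 0 z (n 0 z (n 0 z (n 0 z
 (n 0 z (n 0 z (n 0 z z)))))))) (n 241 (n 0 z (n 0 z (n 0 z (n 0 z (n 0 z (n 0 z (n 0 z (n 0 z
 z)))))))) z))) (n 0 (n 1 (n 0 z (n 0 z (n 0 z (n 0 z (n 0 z (n 0 z (n 0 z (n 0 z z)))))))) (n 1
 (n 0 z (n 0 z (n 0 z (n 0 z (n 0 z (n 0 z (n 0 z (n 0 z z)))))))) z)) (n 0 (n 0 z z) (n 0 z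
 z)))))))) (n 0 (n 0 z (n 1 (n 6496515 z (n 6496515 z (n 6496515 z (n 6496515 z (n 6496515 z (n
 6496515 z z)))))) (n 0 z (n 0 z z)))) (n 0 z z)))) (n
 0x8caed11932832b9066a4a84add4456a322c551940 (n 0 (n 351 (n 0 z (n 6492195 z (n 2 z (n 0 z (n 0
 z (n 0 z (n 0 z (n 0 z (n 0 z z))))))))) (n 349 (n
 0x1b29b28200c165465400386ca8c840037658208a099b82181f7dc6e38a086089b71fa5c8e38217e67a56de8de81b9df9d869f7ab71a1801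
 z (n 0 z (n 0 z (n 0 z (n 4392475 z (n 6492195 z (n 0 z (n
 0xfaca67c6538169636e06ed7a68208267968207e67e764b32d519595950a96bed3ec9285e43b1a20b05af40081 z
 (n
 0xd951900c0e0b21b21900c165465400382ca8c8400382785d7e099d82161c99f7247217e385a76195d7e28238237a36a099f9178e095566272471a2001
 z (n
 0x329328201c065465430182ca8c604077688db7e082582371d8a28228207667df7a27e275c71d81b8e08246a489c7a075b7248648e21801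
 z (n
 0xb2a320181c065465400380ca8c840038a085e7e082082071f8e17a07df7e28a07e07a179f75f82185f85f8628607a279f8e08a18201801
 z z))))))))))) (n 9 (n 6566403 z (n 6566403 z (n 6566403 z (n 0 z (n 6562571 z (n 6561843 z (n
 0x2ca8a8020782082082082082081f8607a07e082181f82081f82082086182081f8608208218208208208200801 z
 (n 0x2ca8c8020781f82082086082081f8208207e082181f81f7df8207e086282081e8608608228208608208200801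
 z (n 0 z (n 0 z (n 0 z (n 0 z (n
 0x65465010182ca8c8020776385d8208a17e27a08a075f7607a389e8207a17e17df86382281d8e085f7e385e7e18208611001
 z (n 0 z (n
 0x32a32a080c165464010380ca8ca80077e181d8608e37677638a271c6e06a281f8a05e482175f9218228e07208207268658a49639a21801
 z (n
 0x65465010182ca8c8020776285d7e08a18227a08e075f7607a389e8207a07e17df86482281d8e085f7e385e8208208611001
 z (n 10 z (n 0 z (n 0 z (n 0 z (n 6628123 z (n 18 z (n 6561843 z (n 0 z (n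
 0x2ca8c862077e085f7e08608218227e075e81f8218a18a07a37e17e28237e085e8207e07a38638e089f8a20801 z
 (n 0 z (n 0 z (n 6628123 z (n 6561843 z (n 6561843 z (n
 0x2ca8ca260382282086082182079f85f81f89f7e186082081f7df7de81f8217e086086082085f7e18617e00801 z
 (n 0x2ca8ca260382086082082182079f85f81f8607e18208608217df81f81f8227e08208df8208607e08627df0801
 z z)))))))))))))))))))))))))))))))) (n 3 (n 0 z (n 0 z (n 6566403 z (n 26 z (n 0 z (n 0 z (n 0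
 z z))))))) (n 1 (n 0 z (n
 0xca6ca62037e08208608208208a07df81f8a07e086081f7df82081f8208217df85f8607e081f8208218210801 z (n
 6561843 z (n
 0x2ca6ca20077e085f82082182182082186086082279f7e085f81e81f81e8208237a181f85e7df7618208a00801 z
 (n 34 z (n 6566403 z (n 42 z (n 6566403 z (n 0 z (n 0 z (n 50 z (n 6566403 z (n 0 z (n 6566403
 z (n 0x2a61081e85f7607247e46a18a875c7237a17a682056a69e6a18598da9634647a172566ba62a5bae70041 z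
 (n 6566403 z (n 0 z (n 0 z (n 0 z (n 0 z (n 0 z (n
 0x2a65181e85f7607247e46a18a875c7237a17a682056a69e6a18598da9634647a172566ba62a5bae70041 z (n 0 z
 (n 0 z (n 0 z (n 0 z (n 0 z (n 0 z (n 0 z z))))))))))))))))))))))))))))) (n 0 (n 0 z (n 58 z (n
 0 z (n 0 z (n 6628123 z (n 6628123 z (n 0 z z))))))) z)))))) (n 3 (n 0 (n 747 (n 0 z (n 0 z (n
 0 z (n 0 z (n 0 z (n 2 (n 0 z (n 2 (n 0 z (n 0 z (n 0 z (n 0 z (n 0 z (n 0 z z)))))) (n 1 z (n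
 2 (n 0 z (n 0 z (n 0 z (n 0 z (n 0 z (n 0 z z)))))) (n 2 (n 0 z (n 0 z (n 0 z (n 0 z (n 0 z (n
 0 z z)))))) (n 2 (n 0 z (n 0 z (n 0 z (n 0 z (n 0 z (n 0 (n 8794179 z z) z)))))) z)))))) (n 0 z
 z))))))) (n 747 (n 0 z (n 0 z (n 0 z (n 0 z (n 0 z (n 0 z (n 0 z z))))))) (n 687 (n 0 z (n 0 z
 (n 0 z (n 0 z (n 0 z z))))) (n 701 (n 0 z (n 0 z (n 0 z (n 0 z (n 0 z (n 0 z (n 0 z (n 0 z (n 0
 z (n 0 z (n 0 z (n 0 z z)))))))))))) (n 701 (n 0 z (n 0 z (n 0 z (n 0 z (n 0 z (n 0 z (n 0 z (n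
 0 z (n 0 z (n 0 z (n 0 z (n 0 z z)))))))))))) (n 701 (n 0 z (n 0 z (n 0 z (n 0 z (n 0 z (n 0 z
 (n 0 z (n 0 z (n 2 (n 2 (n 0 z (n 0 z (n 0 z (n 0 z (n 0 z (n 0 z z)))))) z) (n 0 z (n 0 z (n 0
 z z)))))))))))) (n 749 (n 0 z (n 0 z (n 0 z (n 0 z (n 0 z z))))) z))))))) (n 0 (n 0 z (n 33 (n
 0 z (n 0 z (n 2 (n 1 z (n 2 (n 0 z (n 0 z (n 0 z (n 0 z (n 0 z (n 0 z z)))))) (n 2 (n 0 z (n 0
 z (n 0 z (n 0 z (n 0 z (n 0 z z)))))) (n 2 (n 0 z (n 0 z (n 0 z (n 0 z (n 0 z (n 0 (n 8859715 z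
 z) z)))))) z)))) (n 0 z (n 0 z (n 0 z (n 0 z (n 0 z (n 0 z (n 0 z (n 0 z (n 0 z (n 0 z (n 0 z
 z)))))))))))))) (n 21 (n 0 z (n 0 z (n 0 z (n 0 z (n 0 z (n 0 z (n 0 z (n 0 z (n 0 z (n 0 z (n
 0 z (n 0 z (n 0 z (n 0 z (n 0 z (n 0 z (n 0 z (n 0 z (n 0 z (n 0 z (n 0 z (n 0 z (n 0 z (n 0 z
 (n 0 z (n 0 z (n 0 z (n 0 z (n 0 z z))))))))))))))))))))))))))))) (n 21 (n 0 z (n 0 z (n 0 z (n
 2 (n 0 z (n 2 (n 0 z (n 0 z (n 0 z (n 0 z (n 0 z (n 0 z z)))))) z)) (n 0 z (n 0 z (n 0 z (n 0 z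
 (n 0 z (n 0 z (n 0 z (n 0 z (n 0 z (n 0 z (n 0 z (n 0 z (n 0 z (n 0 z (n 0 z (n 0 z (n 0 z (n 0
 z (n 0 z (n 0 z (n 0 z (n 0 z (n 0 z (n 0 z (n 0 z z))))))))))))))))))))))))))))) (n 21 (n 0 z
 (n 0 z (n 0 z (n 0 z (n 0 z (n 0 z (n 0 z (n 0 z (n 0 z (n 0 z (n 0 z (n 0 z (n 0 z (n 0 z (n 0
 z (n 0 z (n 0 z (n 0 z (n 0 z (n 0 z (n 0 z (n 0 z (n 0 z (n 0 z (n
 0x5d0d44180e00eec8c62a0300a76376050180eb18bb0280c0cdd918c1406000ca6ca2807004652531401801b2a32a081c00dd95d8c40e00cec8ca620300d75376210380d3a1b29081c075d4dcc840e00ee86a642070096546540038033aa328800c00dd8594400e016ca2c8200783175d7fa82a7dc80080a79c8067db85b8277dc8107d882081f7fb83f7b885283c8207f28007ac7ee80580f8118008107e27aa8137d88117eb7f980980880b7e68338728028137ed7d880e9011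
 z (n 0 z (n 0 z (n 0 z (n 0 z z))))))))))))))))))))))))))))) (n 841 (n 0 z (n 0 z (n 0 z (n 0 z
 (n 0 z (n 0 z (n 0 z (n 0 z (n 0 z (n 0 z (n 0 z (n 0 z (n 0 z (n 0 z (n 0 z (n 0 z (n 0 z (n 0
 z (n 0 z (n 0 z (n 0 z (n 0 z (n 2 z (n 0 z (n 0 z (n 0 z (n 0 z (n 0 z (n 0 z (n 0 z (n 0 z (n
 0 z (n 0 z (n 0 z (n 0 z (n 0 z (n 0 z (n 0 z (n 0 z (n 0 z (n 0 z (n 0 z (n 0 z (n 0 z (n 0 z
 (n 0 z z)))))))))))))))))))))))))))))))))))))))))))))) z)))))) (n 0 (n 27 (n 0 z (n 0 z (n 0 z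
 (n 0 z (n 0 z z))))) (n 819 (n 0 z (n 0 z (n 0 z (n 0 z (n 0 z (n 0 z (n 0 z (n 0 z (n 0 z (n 0
 z (n 0 z z))))))))))) (n 819 (n 0 z (n 0 z (n 0 z (n 0 z (n 0 z (n 0 z (n 0 z (n 0 z (n 0 z (n
 0 z (n 0 z z))))))))))) (n 819 (n 0 z (n 0 z (n 0 z (n 0 z (n 0 z (n 2 (n 2 (n 0 z (n 0 z (n 0
 z (n 0 z (n 0 z (n 0 z z)))))) z) (n 0 z (n 0 z (n 0 z (n 0 z (n 0 z z))))))))))) (n 841 (n 0 z
 (n 0 z (n 0 z (n 0 z (n 0 z (n 0 z (n 0 z (n 0 z (n 0 z (n 0 z (n 0 z (n 0 z (n 0 z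
 z))))))))))))) z))))) (n 0 (n 249 (n 0 z (n 0 z (n 0 z (n 0 z (n 0 z (n 0 z (n 0 z (n 0 z (n
 0x1c85d4180603b2310280c176576500182ea6ea600781f7e082082082086082082082082082081f8208208208208208208208218208208208208212001
 z z))))))))) (n 249 (n 0 z (n 0 z (n 0 z (n 0 z (n 0 z (n 0 z (n 0 z (n 0 z (n 0 z z)))))))))
 (n 249 (n 0 z (n 0 z (n 0 z (n 0 z (n 0 z (n 0 z (n 2 (n 2 (n 0 z (n 0 z (n 0 z (n 0 z (n 0 z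
 (n 0 z z)))))) z) (n 0 z (n 0 z z))))))))) (n 5 (n 0 z (n 0 z (n 0 z (n 0 z (n 0 z z))))) z))))
 (n 0 (n 0 z (n 0 z (n 1 (n 0 z (n 0 z (n 0 z (n 0 z z)))) z))) (n 0 (n 0 z (n 1 (n 0 z (n 0 z
 (n 0 z (n 0 z (n 0 z (n 0 z (n 0 z (n 0 z (n 0 z (n 0 z (n 0 z (n 0 z (n 0 z z))))))))))))) z))
 (n 0 (n 25 (n 2 z (n 0 z (n 0 z (n 0 z (n 0 z (n 0 z (n 0 z (n 0 z (n 0 z (n 0 z (n 0 z (n 0 z
 (n 0 z (n 0 z (n 0 z (n 0 z (n 0 z (n 0 z (n 0 z (n 0 z (n 0 z (n 0 z (n 0 z (n 0 z (n 0 z (n 0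
 z z)))))))))))))))))))))))))) z) (n 0 z z)))))))) (n 0 (n 0 z (n 0 z (n 1 (n 6566403 z (n
 6566403 z (n 6566403 z (n 6566403 z (n 6566403 z (n 6566403 z z)))))) (n 1 (n 2796 z (n 6561843
 z (n 6562571 z (n 2812 z (n 6628123 z (n 2812 z z)))))) (n 0 z (n 0 z (n 0 z z))))))) (n 0 z
 z)))) z)))))))))), by decide +kernel⟩
theorem i10356 : ∃ t, chkR KT RW t 10356 10366 = true := ⟨(n
 0x1b54e8b213454b4a233650a192a80d8e18822a3221 (n 0 (n 299 (n 0 z (n 3282443 z (n 0 z (n 0 z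
 z)))) (n 249 (n 0 z (n 0 z (n 0 z (n 0 z (n 2 z (n 0 z (n 0 z (n 0 z (n 0 z (n 0 z (n 10 z (n 0
 z (n 0 z (n 0 z (n 6635811 z (n 0 z z)))))))))))))))) (n 9 (n 0 z (n 0 z (n 6627651 z (n 0 z (n
 0 z z))))) (n 3 (n
 0xaca6a802077d7d8c8e7c818382817c84827c758f847e818a7783787b847f86757e85857e8879807c828179857b757d707e7e91807388890809
 z (n 18 z (n
 0x6ca6a20803807d82837e818180837f80808080807d84838280807f7c817e807d7f807d7e807f838080837f807f7e7d7c7f8083817d82820809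
 z (n
 0x6ca6a802077f7f837e7f7d82808280827c7c84818380807e8281817e7e80817e81808084807d81808481828380817e817f81807f7f81810809
 z (n 0 z (n 2164283 z (n
 0xca2ca20037f7e81807e8180808080827e7f80827f817f8181817f7f8081807e82807f817f7e808082807f808180817f808080817f80800809
 z (n 2164283 z z)))))))) (n 1 (n 0 z (n 0 z (n 0 z (n 0 z (n 0 z (n 0 z (n 6635811 z (n 0 z (n
 0 z (n 0 z z)))))))))) (n 0 (n
 0x5329a19081c1194d0c040604ca68402037d7f837a7d7d84808180827e81807e7f87827c8b7d808381827d827d7d797f7c7b7e817a7a837b828383877f8a848284807d1809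
 z (n 0 z (n
 0x23180cb6307c83947b7a8380827a719a6f7967bb7a8c739b5ea16b71a4728c3d8078af6ab4767777827363a174509247909ba3786b83a40089
 z (n 0 z (n
 0x6ca68642077e7e847f7c818282817f807c80858280807e7f808380808082817c857e80847d7e817e868480807e827c7b808082827e82840809
 z (n 6624299 z (n 26 z (n
 0x231004b6207c8988797e817d807e7a887b7b739b7b847a8d6e8e7978917989677f849677977f7c7a807f729179698a67868b897f76838f0089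
 z (n 0 z (n 0 z (n 0 z (n 0 z (n 6635811 z (n 0 z (n 6635811 z (n 6635811 z (n 34 z (n 0 z (n 0
 z (n 0 z (n 6635811 z (n
 0x6ca6860203807f80807f8180808080807f8180817f8081807f7f80817f80807f81807f808180807f808080808080827f7f8081818180800809
 z (n 42 z (n 0 z (n 50 z (n 0 z (n 0 z (n 6635811 z (n
 0x4c86c862037f7e7d8080817e7f7f81808080807e7f807f81837e80808380827e7f80837e7f82837f807b7e848182807f81838180807f7f0809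
 z (n
 0x23100cb6207c83947b7a8380827a719a6f7967bb7a8c739b5ea16b71a4728c3d8078af6ab4767777827363a174509247909ba3786b83a40089
 z (n 58 z (n 6624299 z z)))))))))))))))))))))))))))))))) z)))))) (n 299 (n 0 (n 0 z (n 327 (n 0
 z (n 0 z (n 0 z (n 0 z (n 0 z (n 0 z (n 0 z (n 0 z (n 0 z (n 0 z (n 0 z (n 0 z (n 0 z (n 0 z (n
 0 z (n 0 z (n 0 z (n 0 z (n 0 z (n 0 z (n 0 z (n 0 z z)))))))))))))))))))))) (n 541 (n 0 z (n 0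
 z (n 0 z (n 0 z (n 0 z (n 0 z (n 0 z (n 0 z (n 0 z (n 0 z (n 2 (n 0 z (n 0 z (n 0 z (n 0 z
 z)))) (n 0 z (n 0 z (n 0 z (n 0 z (n 0 z (n 0 z (n 0 z (n 0 z (n 0 z (n 0 z (n 0 z (n 0 z (n 0
 z (n 0 z z))))))))))))))))))))))))) (n 541 (n 0 z (n 0 z (n 0 z (n 0 z (n 0 z (n 0 z (n 0 z (n
 0 z (n 0 z (n 0 z (n 0 z (n 0 z (n 0 z (n 0 z (n 0 z (n 0 z (n 0 z (n 0 z (n 0 z (n 0 z (n 0 z
 (n 0 z (n 0 z (n 0 z (n 0 z z))))))))))))))))))))))))) (n 541 (n 0 z (n 0 z (n 0 z (n 0 z (n 0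
 z (n 0 z (n 0 z (n 0 z (n 0 z (n 0 z (n 0 z (n 0 z (n 0 z (n 0 z (n 0 z (n 0 z (n 0 z (n 0 z (n
 0 z (n 0 z (n 0 z (n 0 z (n 0 z (n 0 z (n 0 z z))))))))))))))))))))))))) (n 541 (n 0 z (n 0 z
 (n 0 z (n 0 z (n 0 z (n 0 z (n 0 z (n 0 z (n 0 z (n 0 z (n 0 z (n 0 z (n 0 z (n 0 z (n 0 z (n 0
 z (n 0 z (n 0 z (n 0 z (n 0 z (n 0 z (n 0 z (n 0 z (n 0 z (n 0 z z))))))))))))))))))))))))) (n
 541 (n 0 z (n 0 z (n 0 z (n 0 z (n 0 z (n 0 z (n 0 z (n 0 z (n 0 z (n 0 z (n 0 z (n 0 z (n 0 z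
 (n 0 z (n 0 z (n 0 z (n 0 z (n 0 z (n 0 z (n 0 z (n 0 z (n 0 z (n 0 z (n 0 z (n 0 z
 z))))))))))))))))))))))))) z))))))) (n 0 (n 399 (n 0 z (n 0 z (n 0 z (n 0 z (n 0 z (n 0 z (n
 0xd65154030181ba9aa0081c09d45d4400e02e86ca2007827c88897a8b86827f7e8a767d739073857d817c8581758380886a897d807f8b7c7f7c897377887d798d7182808c827d7e832009
 z (n
 0xa3b10f3762759a986b7b8377807a6c98717159d3718c6fa948aa6b65b46b9a33798dc662c77d756e7f7b53b56a3aa03493a29a806289ad0089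
 z (n 0 z (n 0 z (n 0 z (n 0 z (n 0 z (n 0 z (n 0 z (n 0 z (n 0 z (n 0 z (n 0 z (n 0 z (n 0 z (n
 0 z (n 0 z (n 0 z (n 0 z (n 0 z (n 0 z (n 0 z (n 0 z (n 0 z (n 0 z (n 0 z
 z)))))))))))))))))))))))))))))))) (n 397 (n 0 z (n 0 z (n 0 z (n 0 z (n 0 z (n 0 z (n 0 z (n 0
 z (n 0 z (n 0 z (n 0 z z))))))))))) (n 397 (n 0 z (n 0 z (n 0 z (n 0 z (n 0 z (n 0 z (n 0 z (n
 0 z (n 0 z (n 0 z (n 0 z z))))))))))) (n 397 (n 0 z (n 0 z (n 0 z (n 0 z (n 0 z (n 0 z (n 0 z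
 (n 0 z (n 0 z (n 0 z (n 0 z z))))))))))) (n 397 (n 0 z (n 0 z (n 0 z (n 0 z (n 0 z (n 0 z (n 0
 z (n 0 z (n 0 z (n 0 z (n 0 z z))))))))))) (n 397 (n 0 z (n 0 z (n 0 z (n 0 z (n 0 z (n 0 z (n
 0 z (n 0 z (n 0 z (n 0 z (n 0 z z))))))))))) z)))))) (n 0 (n 5 (n 2 (n 0 z (n 0 z (n 0 z (n 0 z
 z)))) (n 0 z (n 0 z (n 0 z (n 0 z (n 0 z (n 0 z (n 0 z (n 0 z (n 0 z (n 0 z (n 0 z (n 0 z (n 0
 z (n 0 z (n 0 z (n 0 z (n 0 z (n 0 z (n 0 z (n 0 z (n 0 z (n 0 z (n 0 z (n 0 z (n 0 z (n 0 z (n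
 0 z (n 0 z z))))))))))))))))))))))))))))) (n 5 (n 0 z (n 0 z (n 0 z (n 0 z (n 0 z (n 0 z (n 0 z
 (n 0 z (n 0 z (n 0 z (n 0 z (n 0 z (n 0 z (n 0 z (n 0 z (n 0 z (n 0 z (n 0 z (n 0 z (n 0 z (n 0
 z (n 0 z (n 0 z (n 0 z (n 0 z (n 0 z (n 0 z (n 0 z (n 0 z z))))))))))))))))))))))))))))) (n 5
 (n 0 z (n 0 z (n 0 z (n 0 z (n 0 z (n 0 z (n 0 z (n 0 z (n 0 z (n 0 z (n 0 z (n 0 z (n 0 z (n 0
 z (n 0 z (n 0 z (n 0 z (n 0 z (n 0 z (n 0 z (n 0 z (n 0 z (n 0 z (n 0 z (n 0 z (n 0 z (n 0 z (n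
 0 z (n 0 z z))))))))))))))))))))))))))))) (n 5 (n 0 z (n 0 z (n 0 z (n 0 z (n 0 z (n 0 z (n 0 z
 (n 0 z (n 0 z (n 0 z (n 0 z (n 0 z (n 0 z (n 0 z (n 0 z (n 0 z (n 0 z (n 0 z (n 0 z (n 0 z (n 0
 z (n 0 z (n 0 z (n 0 z (n
 0x4ec6e42803817984837e7e838181807e838080858182818481837b7a7f7d89757b7e837c857f867d81817e8e7c83847e807c887e7e7d830809
 z (n 0 z (n 0 z (n 0 z (n 0 z z))))))))))))))))))))))))))))) (n 5 (n 0 z (n 0 z (n 0 z (n 0 z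
 (n 0 z (n 0 z (n 0 z (n 0 z (n 0 z (n 0 z (n 0 z (n 0 z (n 0 z (n 0 z (n 0 z (n 0 z (n 0 z (n 0
 z (n 0 z (n 0 z (n 0 z (n 0 z (n 0 z (n 0 z (n 0 z (n 0 z (n 0 z (n 0 z (n 0 z
 z))))))))))))))))))))))))))))) z))))) (n 0 (n 0 z (n 0 z (n 0 z (n 0 z z)))) (n 0 (n 0 z (n 0 z
 (n 0 z z))) (n 0 (n 0 z (n 0 z z)) (n 0 (n 0 z z) (n 0 z z)))))))) (n 0 (n 0 z (n 1 (n 3282443
 z (n 3282443 z (n 3282443 z (n 3282443 z (n 3282443 z (n 3282443 z z)))))) (n 0 z (n 0 z z))))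
 (n 0 z z)))) (n 0x1b58a8d4c34686cb869548358a216131094c936112460316335021ba008ca40 (n 0 (n 183
 (n 2 z (n 0 z (n 10 z (n 6627395 z (n 18 z z))))) (n 249 (n 6562099 z (n 0 z z)) (n 129 (n 0 z
 (n 0 z (n 0 z (n 0 z (n 26 z (n 6566419 z (n 0 z (n
 0x465253040180ca6a860037dc91f75f91a5df8d98297e291e89c8a0a658dd66079e8d971e82599d9a0a1f867a218197e01001
 z (n 0 z (n 0 z (n 0 z (n 34 z (n 0 z (n 0 z (n 6566419 z z))))))))))))))) (n 3 (n 0 z (n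
 6566419 z z)) (n 1 (n 42 z (n 50 z (n 58 z (n 6566419 z (n 0 z (n 0 z (n 66 z z))))))) (n 0 (n
 0 z (n 6627395 z (n 74 z (n 82 z (n 90 z z))))) z)))))) (n 249 (n 0 (n 0 z (n 0 z (n 35 (n 0 z
 (n 0 z (n 0 z (n 0 z (n 0 z (n 0 z (n 0 z (n 0 z z)))))))) (n 35 (n 0 z (n 0 z (n 0 z (n 0 z (n
 0 z (n 0 z (n 2 (n 1 z (n 1 z (n 1 z (n 1 z (n 2 (n 0 z (n 0 z (n 0 z (n 0 z (n 0 z (n 0 z
 z)))))) (n 2 (n 0 z (n 0 z (n 0 z (n 0 z (n 0 z (n 0 z z)))))) (n 1 z z))))))) (n 0 z z))))))))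
 (n 255 (n 0 z (n 0 z (n 0 z (n 0 z (n 0 z (n 0 z (n 0 z z))))))) (n 255 (n 0 z (n 0 z (n 0 z (n
 0 z (n 0 z (n 0 z (n 0 z z))))))) (n 255 (n 2 (n 0 z (n 1 z (n 1 z (n 1 z z)))) (n 0 z (n 0 z
 (n 0 z (n 0 z (n 0 z (n 0 z z))))))) (n 255 (n 0 z (n 0 z (n 0 z (n 0 z (n 0 z (n 2 (n 2 (n 0 z
 (n 0 z (n 0 z (n 0 z (n 0 z (n 0 z z)))))) (n 2 (n 0 z (n 0 z (n 0 z (n 0 z (n 0 z (n 0 z
 z)))))) (n 1 z z))) (n 0 z z))))))) (n 29 (n 0 z (n 0 z (n 0 z (n 0 z (n 0 z z))))) (n 29 (n 0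
 z (n 0 z (n 0 z (n 0 z (n 0 z z))))) (n 29 (n 0 z (n 2 z (n 0 z (n 0 z (n 0 z z)))))
 z))))))))))) (n 0 (n 0 z (n 967 (n 0 z (n 0 z (n 0 z (n 0 z (n 2 (n 0 z (n 1 z (n 1 z (n 1 z (n
 2 (n 0 z (n 0 z (n 0 z (n 0 z (n 0 z (n 0 z z)))))) (n 1 z (n 1 z (n 2 (n 0 z (n 0 z (n 0 z (n
 0 z (n 0 z (n 0 z z)))))) z)))))))) (n 0 z (n 0 z (n 0 z (n 0 z (n 0 z (n 0 z (n 0 z (n 0 z (n
 0 z (n 0 z z))))))))))))))) (n 967 (n 0 z (n 0 z (n 0 z (n 0 z (n 0 z (n 0 z (n 0 z (n 0 z (n 0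
 z (n 0 z (n 0 z (n 0 z (n 0 z (n 0 z (n 0 z z))))))))))))))) (n 351 (n 2 (n 0 z (n 0 z (n 0 z
 (n 1 z (n 2 (n 0 z (n 0 z (n 0 z (n 0 z (n 0 z (n 0 z z)))))) (n 2 (n 0 z (n 0 z (n 0 z (n 0 z
 (n 0 z (n 0 z z)))))) z)))))) (n 0 z (n 0 z (n 0 z (n 0 z (n 0 z (n 0 z (n 0 z (n 0 z (n 0 z (n
 0 z (n 0 z (n 0 z (n 0 z (n 0 z (n 0 z (n 0 z z))))))))))))))))) (n 351 (n 0 z (n 0 z (n 2 (n 0
 z (n 0 z (n 1 z (n 1 z (n 1 z z))))) (n 0 z (n 0 z (n 0 z (n 0 z (n 0 z (n 0 z (n 0 z (n 0 z (n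
 0 z (n 0 z (n 0 z (n 0 z (n 0 z (n 0 z z))))))))))))))))) (n 351 (n 0 z (n 0 z (n 0 z (n 0 z (n
 0 z (n 0 z (n 0 z (n 0 z (n 0 z (n 0 z (n 0 z (n 0 z (n 0 z (n 0 z (n 0 z (n 0 z (n 0 z
 z))))))))))))))))) (n 351 (n 0 z (n 0 z (n 0 z (n 0 z (n 0 z (n 0 z (n 0 z (n 0 z (n 0 z (n 0 z
 (n 0 z (n 0 z (n 0 z (n 0 z (n 0 z (n 0 z (n 0 z z))))))))))))))))) (n 965 (n 0 z (n 0 z (n 0 z
 (n 0 z (n 0 z (n 0 z (n 0 z (n 0 z (n 0 z (n 0 z z)))))))))) (n 965 (n 0 z (n 0 z (n 0 z (n 0 z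
 (n 0 z (n 0 z (n 0 z (n 0 z (n 0 z (n 0 z z)))))))))) (n 965 (n 0 z (n 0 z (n 0 z (n 0 z (n 0 z
 (n 0 z (n 0 z (n 0 z (n 0 z (n 0 z z)))))))))) z)))))))))) (n 0 (n 987 (n 2 (n 0 z (n 1 z (n 2
 (n 0 z (n 0 z (n 0 z (n 0 z (n 0 z (n 0 z z)))))) (n 1 z (n 2 (n 0 z (n 0 z (n 0 z (n 0 z (n 0
 z (n 0 z z)))))) (n 2 (n 0 z (n 0 z (n 0 z (n 0 z (n 0 z (n 0 z z)))))) (n 2 (n 0 z (n 0 z (n 0
 z (n 0 z (n 0 z (n 0 z z)))))) (n 2 (n 0 z (n 0 z (n 0 z (n 0 z (n 0 z (n 0 z z)))))) z))))))))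
 (n 0 z (n 0 z (n 0 z (n 0 z z))))) (n 987 (n 0 z (n 0 z (n 0 z (n 0 z (n 0 z z))))) (n 783 (n 2
 (n 0 z (n 0 z (n 0 z (n 1 z (n 2 (n 0 z (n 0 z (n 0 z (n 0 z (n 0 z (n 0 z z)))))) (n 2 (n 0 z
 (n 0 z (n 0 z (n 0 z (n 0 z (n 0 z z)))))) z)))))) (n 0 z (n 0 z (n 0 z (n 0 z (n 0 z (n 0 z (n
 0 z (n 0 z (n 0 z (n 0 z (n 0 z (n 0 z (n 0 z (n 0 z (n 0 z (n 0 z (n 0 z (n 0 z
 z))))))))))))))))))) (n 783 (n 0 z (n 0 z (n 2 (n 0 z (n 0 z (n 2 (n 0 z (n 0 z (n 0 z (n 0 z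
 (n 0 z (n 0 z z)))))) (n 2 (n 0 z (n 0 z (n 0 z (n 0 z (n 0 z (n 0 z z)))))) (n 2 (n 0 z (n 0 z
 (n 0 z (n 0 z (n 0 z (n 0 z z)))))) z))))) (n 0 z (n 0 z (n 0 z (n 0 z (n 0 z (n 0 z (n 0 z (n
 0 z (n 0 z (n 0 z (n 0 z (n 0 z (n 0 z (n 0 z (n 0 z (n 0 z z))))))))))))))))))) (n 783 (n 0 z
 (n 0 z (n 0 z (n 0 z (n 0 z (n 0 z (n 0 z (n 0 z (n 0 z (n 0 z (n 0 z (n 0 z (n 0 z (n 0 z (n 0
 z (n 0 z (n 0 z (n 0 z (n 0 z z))))))))))))))))))) (n 783 (n 0 z (n 0 z (n 0 z (n 0 z (n 0 z (n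
 0 z (n 0 z (n 0 z (n 0 z (n 0 z (n 0 z (n 0 z (n 0 z (n 0 z (n 0 z (n 0 z (n 0 z (n 0 z (n 0 z
 z))))))))))))))))))) (n 985 (n 0 z (n 0 z (n 0 z (n 0 z (n 0 z (n 0 z (n 0 z (n 0 z (n 0 z (n 0
 z z)))))))))) (n 985 (n 0 z (n 0 z (n 0 z (n 0 z (n 0 z (n 0 z (n 0 z (n 0 z (n 0 z (n 0 z
 z)))))))))) (n 985 (n 0 z (n 0 z (n 0 z (n 0 z (n 0 z (n 0 z (n 0 z (n 0 z (n 0 z (n 0 z
 z)))))))))) z))))))))) (n 0 (n 0 z (n 291 (n 0 z (n 0 z (n 0 z (n 0 z (n 0 z (n 0 z (n 0 z (n 0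
 z (n 0 z z))))))))) (n 291 (n 0 z (n 2 (n 0 z (n 0 z (n 1 z (n 1 z (n 1 z z))))) (n 0 z (n 0 z
 (n 0 z (n 0 z (n 0 z (n 0 z (n 0 z z))))))))) (n 291 (n 0 z (n 0 z (n 0 z (n 0 z (n 0 z (n 0 z
 (n 0 z (n 0 z (n 0 z z))))))))) (n 291 (n 0 z (n 0 z (n 0 z (n 0 z (n 0 z (n 0 z (n 0 z (n 0 z
 (n 2 (n 2 (n 0 z (n 0 z (n 0 z (n 0 z (n 0 z (n 0 z z)))))) (n 2 (n 0 z (n 0 z (n 0 z (n 0 z (n
 0 z (n 0 z z)))))) (n 1 z z))) z))))))))) (n 553 (n 0 z (n 0 z (n 0 z (n 0 z (n 0 z (n 0 z (n 0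
 z (n
 0x8ec6ec600381e95c8dd65d8a692881c86269f8a2a6a7de8639678e17637e375d59c69c65b91e79e5615d50801 z
 (n 0 z (n 0 z (n 0 z (n 0 z (n 0 z (n 0 z (n 0 z (n 0 z (n 0 z (n 0 z (n 0 z (n 0 z (n 0 z
 z))))))))))))))))))))) (n 553 (n 0 z (n 0 z (n 0 z (n 0 z (n 0 z (n 0 z (n 0 z (n 0 z (n 0 z (n
 0 z (n 0 z (n 0 z (n 0 z (n 0 z (n 0 z (n 0 z (n 0 z (n 0 z (n 0 z (n 0 z (n 0 z
 z))))))))))))))))))))) (n 553 (n 0 z (n 0 z (n 0 z (n 0 z (n 0 z (n 0 z (n 0 z (n 0 z (n 0 z (n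
 0 z (n 0 z (n 0 z (n 0 z (n 0 z (n 0 z (n 2 z (n 0 z (n 0 z (n 0 z (n 0 z (n 0 z
 z))))))))))))))))))))) z)))))))) (n 0 (n 255 (n 0 z (n 0 z (n 0 z (n 0 z (n 0 z (n 0 z (n 0 z
 z))))))) (n 255 (n 0 z (n 2 (n 0 z (n 0 z (n 2 (n 0 z (n 0 z (n 0 z (n 0 z (n 0 z (n 0 z
 z)))))) (n 2 (n 0 z (n 0 z (n 0 z (n 0 z (n 0 z (n 0 z z)))))) (n 2 (n 0 z (n 0 z (n 0 z (n 0 z
 (n 0 z (n 0 z z)))))) z))))) (n 0 z (n 0 z (n 0 z (n 0 z (n 0 z z))))))) (n 255 (n 0 z (n 0 z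
 (n 0 z (n 0 z (n 0 z (n 0 z (n 0 z z))))))) (n 255 (n 0 z (n 0 z (n 0 z (n 0 z (n 2 (n 1 z (n 1
 z (n 1 z z))) (n 0 z (n 0 z z))))))) (n 257 (n 0 z (n 0 z (n 0 z (n 0 z (n 0 z (n 0 z (n 2 (n 0
 z (n 0 z z)) z))))))) (n 257 (n 0 z (n 2 (n 0 z z) (n 0 z (n 0 z (n 0 z (n 0 z (n 0 z z)))))))
 (n 257 (n 0 z (n 0 z (n 0 z (n 0 z (n 0 z (n 0 z (n 0 z z))))))) z))))))) (n 0 (n 0 z (n 0 z (n
 0 z (n 5 (n 0 z (n 0 z (n 0 z (n 0 z (n 0 z (n 0 z (n 0 z (n 0 z (n 0 z (n 0 z (n 0 z (n 0 z (n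
 0 z (n 0 z (n 0 z (n 0 z (n 0 z (n 0 z (n 0 z (n 0 z (n 0 z z))))))))))))))))))))) (n 5 (n 0 z
 (n 0 z (n 0 z (n 0 z (n 0 z (n 0 z (n 0 z (n 0 z (n 0 z (n 0 z (n 0 z (n 0 z (n 0 z (n 0 z (n 0
 z (n 0 z (n 0 z (n 0 z (n 0 z (n 0 z (n 0 z z))))))))))))))))))))) (n 5 (n 0 z (n 0 z (n 0 z (n
 0 z (n 0 z (n 0 z (n 0 z (n 0 z (n 0 z (n 0 z (n 0 z (n 0 z (n 0 z (n 0 z (n 0 z (n 0 z (n 0 z
 (n 0 z (n 0 z (n 2 z (n 0 z z))))))))))))))))))))) z)))))) (n 0 (n 0 z (n 0 z (n 25 (n 0 z (n 0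
 z (n 0 z (n 0 z (n 0 z (n 0 z (n 0 z (n 0 z (n 0 z (n 0 z (n 0 z (n 0 z (n 0 z (n 0 z (n 0 z (n
 0 z (n 0 z (n 0 z z)))))))))))))))))) (n 25 (n 0 z (n 0 z (n 0 z (n 0 z (n 0 z (n 0 z (n 0 z (n
 0 z (n 0 z (n 0 z (n 0 z (n 0 z (n 0 z (n 0 z (n 0 z (n 0 z (n 0 z (n 0 z z))))))))))))))))))
 (n 25 (n 0 z (n 0 z (n 0 z (n 0 z (n 0 z (n 0 z (n 0 z (n 0 z (n 0 z (n 0 z (n 0 z (n 0 z (n 0
 z (n 0 z (n 0 z (n 0 z (n 2 z (n 0 z z)))))))))))))))))) z))))) (n 0 (n 0 z (n 5 (n 0 z (n 0 z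
 (n 2 (n 0 z (n 0 z z)) (n 0 z (n 0 z (n 0 z (n 0 z (n 0 z z)))))))) (n 5 (n 0 z (n 0 z (n 0 z
 (n 0 z (n 0 z (n 2 (n 0 z z) (n 0 z (n 0 z z)))))))) (n 5 (n 0 z (n 0 z (n 0 z (n 0 z (n 0 z (n
 0 z (n 0 z (n 0 z z)))))))) z)))) (n 0 (n 53 (n 0 z (n 2 (n 0 z (n 0 z z)) (n 0 z (n 0 z (n 0 z
 (n 0 z (n 0 z (n 0 z z)))))))) (n 53 (n 0 z (n 0 z (n 0 z (n 2 (n 0 z z) (n 0 z (n 0 z (n 0 z
 (n 0 z z)))))))) (n 53 (n 0 z (n 0 z (n 0 z (n 0 z (n 0 z (n 0 z (n 0 z (n 0 z z)))))))) z)))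
 (n 0 (n 0 z (n 0 z z)) (n 0 (n 0 z z) (n 0 z z)))))))))))) (n 0 (n 1 (n 6562099 z (n 6566419 z
 (n 6562099 z (n 6562099 z (n 6562099 z (n 6562099 z z)))))) (n 0 z z)) (n 0 z z)))) (n
 0x1b58e8d4c34686cb8695c8358e316131894c93611a660316335021ba00cca40 (n 0 (n 183 (n 2 z (n
 0x152165040382a84ca06039207617e082285d7e08227a08a081d8207608a082079f82089d8607e17a18247e082091c8621001
 z (n 10 z (n
 0x65465420180ca6ca620782181f85f82085f86081f8207e18207df7a082286082082181f81f7df8208218208218208201001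
 z (n 6627395 z (n 6627395 z (n 18 z (n
 0x65465420180ca4ca42078617de81f81f82082181f86082081f81f82181f7e089f82185f81f81f81f8208208218208201001
 z z)))))))) (n 249 (n 6562099 z (n 0 z z)) (n 129 (n 0 z (n 0 z (n 0 z (n 0 z (n 0 z (n 26 z (n
 0x2ca8a8200785f7e17e185f81f85f82082082081f81f86085f7e07df81f8208618608618217e086089f7e10801 z
 (n 6566419 z (n 0 z (n 6627395 z (n 34 z (n 6562587 z (n 0 z (n 6566419 z (n 0 z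
 z))))))))))))))) (n 3 (n 6566419 z z) (n 1 (n 42 z (n 50 z (n 58 z (n 6566419 z (n 0 z (n 0 z
 (n 66 z z))))))) (n 0 (n 0 z (n 6627395 z (n 74 z (n 82 z (n 90 z z))))) z)))))) (n 3 (n 0 (n 0
 z (n 0 z (n 35 (n 0 z (n 0 z (n 0 z (n 0 z (n 0 z (n 0 z (n 0 z (n 0 z (n 0 z z))))))))) (n 35
 (n 0 z (n 0 z (n 0 z (n 0 z (n 0 z (n 0 z (n 0 z (n 2 (n 1 z (n 1 z (n 1 z (n 1 z (n 2 (n 0 z
 (n 0 z (n 0 z (n 0 z (n 0 z (n 0 z z)))))) (n 2 (n 0 z (n 0 z (n 0 z (n 0 z (n 0 z (n 0 z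
 z)))))) (n 1 z z))))))) (n 0 z z))))))))) (n 255 (n 0 z (n 0 z (n 0 z (n 0 z (n 0 z (n 0 z (n 0
 z z))))))) (n 255 (n 0 z (n 0 z (n 0 z (n 0 z (n 0 z (n 0 z (n 0 z z))))))) (n 255 (n 2 (n 0 z
 (n 1 z (n 1 z (n 1 z z)))) (n 0 z (n 0 z (n 0 z (n 0 z (n 0 z (n 0 z z))))))) (n 255 (n 0 z (n
 0 z (n 0 z (n 0 z (n 0 z (n 2 (n 2 (n 0 z (n 0 z (n 0 z (n 0 z (n 0 z (n 0 z z)))))) (n 2 (n 0
 z (n 0 z (n 0 z (n 0 z (n 0 z (n 0 z z)))))) (n 1 z z))) (n 0 z z))))))) (n 29 (n 0 z (n 0 z (n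
 0 z (n 0 z (n 0 z z))))) (n 29 (n 0 z (n 0 z (n 0 z (n 0 z (n 0 z z))))) (n 29 (n 0 z (n 2 z (n
 0 z (n 0 z (n 0 z z))))) z))))))))))) (n 0 (n 0 z (n 967 (n 0 z (n 0 z (n 0 z (n 0 z (n 0 z (n
 0 z (n 0 z (n 2 (n 0 z (n 1 z (n 1 z (n 1 z (n 2 (n 0 z (n 0 z (n 0 z (n 0 z (n 0 z (n 0 z
 z)))))) (n 1 z (n 1 z (n 2 (n 0 z (n 0 z (n 0 z (n 0 z (n 0 z (n 0 z z)))))) z)))))))) (n 0 z
 (n 0 z (n 0 z (n 0 z (n 0 z (n 0 z (n 0 z (n 0 z (n 0 z z))))))))))))))))) (n 967 (n 0 z (n 0 z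
 (n 0 z (n 0 z (n 0 z (n 0 z (n 0 z (n 0 z (n 0 z (n 0 z (n 0 z (n 0 z (n 0 z (n 0 z (n 0 z (n 0
 z (n 0 z z))))))))))))))))) (n 351 (n 2 (n 0 z (n 0 z (n 0 z (n 1 z (n 2 (n 0 z (n 0 z (n 0 z
 (n 0 z (n 0 z (n 0 z z)))))) (n 2 (n 0 z (n 0 z (n 0 z (n 0 z (n 0 z (n 0 z z)))))) z)))))) (n
 0 z (n 0 z (n 0 z (n 0 z (n 0 z (n 0 z (n 0 z (n 0 z (n 0 z (n 0 z (n 0 z z)))))))))))) (n 351
 (n 0 z (n 0 z (n 2 (n 0 z (n 0 z (n 1 z (n 1 z (n 1 z z))))) (n 0 z (n 0 z (n 0 z (n 0 z (n 0 z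
 (n 0 z (n 0 z (n 0 z (n 0 z z)))))))))))) (n 351 (n 0 z (n 0 z (n 0 z (n 0 z (n 0 z (n 0 z (n 0
 z (n 0 z (n 0 z (n 0 z (n 0 z (n 0 z z)))))))))))) (n 351 (n 0 z (n 0 z (n 0 z (n 0 z (n 0 z (n
 0 z (n 0 z (n 0 z (n 0 z (n 0 z (n 0 z (n 0 z z)))))))))))) (n 965 (n 0 z (n 0 z (n 0 z (n 0 z
 (n 0 z (n 0 z (n 0 z z))))))) (n 965 (n 0 z (n 0 z (n 0 z (n 0 z (n 0 z (n 0 z (n 0 z z)))))))
 (n 965 (n 0 z (n 0 z (n 0 z (n 0 z (n 0 z (n 0 z (n 0 z z))))))) z)))))))))) (n 0 (n 987 (n 2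
 (n 0 z (n 1 z (n 2 (n 0 z (n 0 z (n 0 z (n 0 z (n 0 z (n 0 z z)))))) (n 1 z (n 2 (n 0 z (n 0 z
 (n 0 z (n 0 z (n 0 z (n 0 z z)))))) (n 2 (n 0 z (n 0 z (n 0 z (n 0 z (n 0 z (n 0 z z)))))) (n 2
 (n 0 z (n 0 z (n 0 z (n 0 z (n 0 z (n 0 z z)))))) (n 2 (n 0 z (n 0 z (n 0 z (n 0 z (n 0 z (n 0
 z z)))))) z)))))))) (n 0 z (n 0 z (n 0 z (n 0 z z))))) (n 987 (n 0 z (n 0 z (n 0 z (n 0 z (n 0
 z z))))) (n 783 (n 2 (n 0 z (n 0 z (n 0 z (n 1 z (n 2 (n 0 z (n 0 z (n 0 z (n 0 z (n 0 z (n 0 z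
 z)))))) (n 2 (n 0 z (n 0 z (n 0 z (n 0 z (n 0 z (n 0 z z)))))) z)))))) (n 0 z (n 0 z (n 0 z (n
 0 z (n 0 z (n 0 z (n 0 z (n 0 z (n 0 z (n 0 z z))))))))))) (n 783 (n 0 z (n 0 z (n 2 (n 0 z (n
 0 z (n 2 (n 0 z (n 0 z (n 0 z (n 0 z (n 0 z (n 0 z z)))))) (n 2 (n 0 z (n 0 z (n 0 z (n 0 z (n
 0 z (n 0 z z)))))) (n 2 (n 0 z (n 0 z (n 0 z (n 0 z (n 0 z (n 0 z z)))))) z))))) (n 0 z (n 0 z
 (n 0 z (n 0 z (n 0 z (n 0 z (n 0 z (n 0 z z))))))))))) (n 783 (n 0 z (n 0 z (n 0 z (n 0 z (n 0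
 z (n 0 z (n 0 z (n 0 z (n 0 z (n 0 z (n 0 z z))))))))))) (n 783 (n 0 z (n 0 z (n 0 z (n 0 z (n
 0 z (n 0 z (n 0 z (n 0 z (n 0 z (n 0 z (n 0 z z))))))))))) (n 985 (n 0 z (n 0 z (n 0 z (n 0 z
 (n 0 z (n 0 z (n 0 z z))))))) (n 985 (n 0 z (n 0 z (n 0 z (n 0 z (n 0 z (n 0 z (n 0 z z)))))))
 (n 985 (n 0 z (n 0 z (n 0 z (n 0 z (n 0 z (n 0 z (n 0 z z))))))) z))))))))) (n 0 (n 0 z (n 291
 (n 0 z (n 0 z (n 0 z (n 0 z (n 0 z (n 0 z (n 0 z (n 0 z (n 0 z z))))))))) (n 291 (n 0 z (n 2 (n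
 0 z (n 0 z (n 1 z (n 1 z (n 1 z z))))) (n 0 z (n 0 z (n 0 z (n 0 z (n 0 z (n 0 z (n 0 z
 z))))))))) (n 291 (n 0 z (n 0 z (n 0 z (n 0 z (n 0 z (n 0 z (n 0 z (n 0 z (n 0 z z))))))))) (n
 291 (n 0 z (n 0 z (n 0 z (n 0 z (n 0 z (n 0 z (n 0 z (n 0 z (n 2 (n 2 (n 0 z (n 0 z (n 0 z (n 0
 z (n 0 z (n 0 z z)))))) (n 2 (n 0 z (n 0 z (n 0 z (n 0 z (n 0 z (n 0 z z)))))) (n 1 z z)))
 z))))))))) (n 553 (n 0 z (n 0 z (n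
 0xcec8ec600379e95c8de69ea6992b85b85d5e28e789d75b663a629647e38e18995d869d6dc7986e16a559e0801 z
 (n 0 z (n 0 z (n 0 z (n 0 z (n 0 z (n 0 z (n 0 z (n 0 z (n 0 z (n 0 z z))))))))))))) (n 553 (n
 0 z (n 0 z (n 0 z (n 0 z (n 0 z (n 0 z (n 0 z (n 0 z (n 0 z (n 0 z (n 0 z (n 0 z (n 0 z
 z))))))))))))) (n 553 (n 0 z (n 0 z (n 0 z (n 0 z (n 0 z (n 0 z (n 0 z (n 2 z (n 0 z (n 0 z (n
 0 z (n 0 z (n 0 z z))))))))))))) z)))))))) (n 0 (n 255 (n 0 z (n 0 z (n 0 z (n 0 z (n 0 z (n 0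
 z (n 0 z z))))))) (n 255 (n 0 z (n 2 (n 0 z (n 0 z (n 2 (n 0 z (n 0 z (n 0 z (n 0 z (n 0 z (n 0
 z z)))))) (n 2 (n 0 z (n 0 z (n 0 z (n 0 z (n 0 z (n 0 z z)))))) (n 2 (n 0 z (n 0 z (n 0 z (n 0
 z (n 0 z (n 0 z z)))))) z))))) (n 0 z (n 0 z (n 0 z (n 0 z (n 0 z z))))))) (n 255 (n 0 z (n 0 z
 (n 0 z (n 0 z (n 0 z (n 0 z (n 0 z z))))))) (n 255 (n 0 z (n 0 z (n 0 z (n 0 z (n 2 (n 1 z (n 1
 z (n 1 z z))) (n 0 z (n 0 z z))))))) (n 257 (n 0 z (n 0 z (n 0 z (n 0 z (n 0 z (n 0 z (n 2 (n 0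
 z (n 0 z z)) z))))))) (n 257 (n 0 z (n 2 (n 0 z z) (n 0 z (n 0 z (n 0 z (n 0 z (n 0 z z)))))))
 (n 257 (n 0 z (n 0 z (n 0 z (n 0 z (n 0 z (n 0 z (n 0 z z))))))) z))))))) (n 0 (n 0 z (n 0 z (n
 0 z (n 5 (n 0 z (n 0 z (n 0 z (n 0 z (n 0 z (n 0 z (n 0 z (n 0 z (n 0 z (n 0 z (n 0 z (n 0 z (n
 0 z z))))))))))))) (n 5 (n 0 z (n 0 z (n 0 z (n 0 z (n 0 z (n 0 z (n 0 z (n 0 z (n 0 z (n 0 z
 (n 0 z (n 0 z (n 0 z z))))))))))))) (n 5 (n 0 z (n 0 z (n 0 z (n 0 z (n 0 z (n 0 z (n 0 z (n 0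
 z (n 0 z (n 0 z (n 0 z (n 2 z (n 0 z z))))))))))))) z)))))) (n 0 (n 0 z (n 0 z (n 25 (n 0 z (n
 0 z (n 0 z (n 0 z (n 0 z (n 0 z (n 0 z (n 0 z (n 0 z (n 0 z (n 0 z (n 0 z (n 0 z (n 0 z (n 0 z
 (n 0 z (n 0 z (n 0 z (n 0 z z))))))))))))))))))) (n 25 (n 0 z (n 0 z (n 0 z (n 0 z (n 0 z (n 0
 z (n 0 z (n 0 z (n 0 z (n 0 z (n 0 z (n 0 z (n 0 z (n 0 z (n 0 z (n 0 z (n 0 z (n 0 z (n 0 z
 z))))))))))))))))))) (n 25 (n 0 z (n 0 z (n 0 z (n 0 z (n 0 z (n 0 z (n 0 z (n 0 z (n 0 z (n 0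
 z (n 0 z (n 0 z (n 0 z (n 0 z (n 0 z (n 0 z (n 2 z (n 0 z (n 0 z z))))))))))))))))))) z))))) (n
 0 (n 0 z (n 5 (n 0 z (n 0 z (n 0 z (n 2 (n 0 z (n 0 z z)) (n 0 z (n 0 z (n 0 z (n 0 z (n 0 z
 z))))))))) (n 5 (n 0 z (n 0 z (n 0 z (n 0 z (n 0 z (n 0 z (n 2 (n 0 z z) (n 0 z (n 0 z
 z))))))))) (n 5 (n 0 z (n 0 z (n 0 z (n 0 z (n 0 z (n 0 z (n 0 z (n 0 z (n 0 z z))))))))) z))))
 (n 0 (n 53 (n 0 z (n 0 z (n 2 (n 0 z (n 0 z z)) (n 0 z (n 0 z (n 0 z (n 0 z (n 0 z (n 0 z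
 z))))))))) (n 53 (n 0 z (n 0 z (n 0 z (n 0 z (n 2 (n 0 z z) (n 0 z (n 0 z (n 0 z (n 0 z
 z))))))))) (n 53 (n 0 z (n 0 z (n 0 z (n 0 z (n 0 z (n 0 z (n 0 z (n 0 z (n 0 z z))))))))) z)))
 (n 0 (n 0 z (n 0 z z)) (n 0 (n 0 z z) (n 0 z z)))))))))))) (n 0 (n 1 (n 6566419 z (n 6566419 z
 (n 6566419 z (n 6566419 z (n 6566419 z (n 6566419 z z)))))) z) (n 0 z z)))) (n
 0x1b58e8d545468acb8695c8358e316251895493611a6a0516535022ba00d4a80 (n 0 (n 183 (n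
 0x2c86c862078208208208208208208208218208607e07e082081f82082082082086082086081f8207e08210801 z
 (n 2 z (n
 0x65465420380ca6ca62038208208208207e17df82186085f8208618a081e8207e085f82182186182081f82081f8208201001
 z (n 10 z (n 0 z (n 6627395 z (n
 0xc01908c6d4380029320b0100052640a02000a4c80471d9e48217db6e781c7a67a092089e99e9a471e79c99c81869c82089a9209208a49a479a6a22001
 z (n 18 z z)))))))) (n 249 (n 0 z (n 6562099 z (n 0 z (n 0 z (n 0 z z))))) (n 129 (n 6566419 z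
 (n 0x2ca8a820037e08608207e08607e281e81f7e08218618208228218a082082081f7e17df7df8208207e085f0801
 z (n 26 z (n 0 z (n 6627395 z (n 0 z (n 34 z (n 0 z (n 0 z (n 6562587 z (n 0 z (n
 0x2ca8ca860785f7a18e279f82186181f8607618217e07de7df8607e08229208217e07df7a07a175f8218210801 z
 (n 0 z (n 0 z (n 6566419 z z))))))))))))))) (n 3 (n 0 z (n 6566419 z z)) (n 1 (n 42 z (n 50 z
 (n 58 z (n 6566419 z (n 0 z (n 0 z (n 66 z z))))))) (n 0 (n 0 z (n 6627395 z (n 74 z (n 82 z (n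
 90 z z))))) z)))))) (n 3 (n 0 (n 0 z (n 0 z (n 35 (n 0 z (n 0 z (n 0 z (n 0 z (n 0 z (n 0 z (n
 0 z (n 0 z (n 0 z z))))))))) (n 35 (n 0 z (n 0 z (n 0 z (n 0 z (n 0 z (n 0 z (n 0 z (n 2 (n 1 z
 (n 1 z (n 1 z (n 1 z (n 2 (n 0 z (n 0 z (n 0 z (n 0 z (n 0 z (n 0 z z)))))) (n 2 (n 0 z (n 0 z
 (n 0 z (n 0 z (n 0 z (n 0 z z)))))) (n 1 z z))))))) (n 0 z z))))))))) (n 255 (n 0 z (n 0 z (n 0
 z (n 0 z (n 0 z (n 0 z (n 0 z z))))))) (n 255 (n 0 z (n 0 z (n 0 z (n 0 z (n 0 z (n 0 z (n 0 z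
 z))))))) (n 255 (n 2 (n 0 z (n 1 z (n 1 z (n 1 z z)))) (n 0 z (n 0 z (n 0 z (n 0 z (n 0 z (n 0
 z z))))))) (n 255 (n 0 z (n 0 z (n 0 z (n 0 z (n 0 z (n 2 (n 2 (n 0 z (n 0 z (n 0 z (n 0 z (n 0
 z (n 0 z z)))))) (n 2 (n 0 z (n 0 z (n 0 z (n 0 z (n 0 z (n 0 z z)))))) (n 1 z z))) (n 0 z
 z))))))) (n 29 (n 0 z (n 0 z (n 0 z (n 0 z (n 0 z z))))) (n 29 (n 0 z (n 0 z (n 0 z (n 0 z (n 0
 z z))))) (n 29 (n 0 z (n 2 z (n 0 z (n 0 z (n 0 z z))))) z))))))))))) (n 0 (n 0 z (n 967 (n 0 z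
 (n 0 z (n 0 z (n 0 z (n 2 (n 0 z (n 1 z (n 1 z (n 1 z (n 2 (n 0 z (n 0 z (n 0 z (n 0 z (n 0 z
 (n 0 z z)))))) (n 1 z (n 1 z (n 2 (n 0 z (n 0 z (n 0 z (n 0 z (n 0 z (n 0 z z)))))) z))))))))
 (n 0 z (n 0 z (n 0 z (n 0 z (n 0 z (n 0 z (n 0 z (n 0 z (n 0 z (n 0 z z))))))))))))))) (n 967
 (n 0 z (n 0 z (n 0 z (n 0 z (n 0 z (n 0 z (n 0 z (n 0 z (n 0 z (n 0 z (n 0 z (n 0 z (n 0 z (n 0
 z (n 0 z z))))))))))))))) (n 351 (n 0 z (n 2 (n 0 z (n 0 z (n 0 z (n 1 z (n 2 (n 0 z (n 0 z (n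
 0 z (n 0 z (n 0 z (n 0 z z)))))) (n 2 (n 0 z (n 0 z (n 0 z (n 0 z (n 0 z (n 0 z z)))))) z))))))
 (n 0 z (n 0 z (n 0 z (n 0 z (n 0 z (n 0 z (n 0 z (n 0 z (n 0 z (n 0 z z)))))))))))) (n 351 (n 0
 z (n 0 z (n 0 z (n 2 (n 0 z (n 0 z (n 1 z (n 1 z (n 1 z z))))) (n 0 z (n 0 z (n 0 z (n 0 z (n 0
 z (n 0 z (n 0 z (n 0 z z)))))))))))) (n 351 (n 0 z (n 0 z (n 0 z (n 0 z (n 0 z (n 0 z (n 0 z (n
 0 z (n 0 z (n 0 z (n 0 z (n 0 z z)))))))))))) (n 351 (n 0 z (n 0 z (n 0 z (n 0 z (n 0 z (n 0 z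
 (n 0 z (n 0 z (n 0 z (n 0 z (n 0 z (n 0 z z)))))))))))) (n 965 (n 0 z (n 0 z (n 0 z (n 0 z (n 0
 z (n 0 z (n 0 z (n 0 z (n 0 z (n 0 z z)))))))))) (n 965 (n 0 z (n 0 z (n 0 z (n 0 z (n 0 z (n 0
 z (n 0 z (n 0 z (n 0 z (n 0 z z)))))))))) (n 965 (n 0 z (n 0 z (n 0 z (n 0 z (n 0 z (n 0 z (n 0
 z (n 0 z (n 0 z (n 0 z z)))))))))) z)))))))))) (n 0 (n 987 (n 2 (n 0 z (n 1 z (n 2 (n 0 z (n 0
 z (n 0 z (n 0 z (n 0 z (n 0 z z)))))) (n 1 z (n 2 (n 0 z (n 0 z (n 0 z (n 0 z (n 0 z (n 0 z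
 z)))))) (n 2 (n 0 z (n 0 z (n 0 z (n 0 z (n 0 z (n 0 z z)))))) (n 2 (n 0 z (n 0 z (n 0 z (n 0 z
 (n 0 z (n 0 z z)))))) (n 2 (n 0 z (n 0 z (n 0 z (n 0 z (n 0 z (n 0 z z)))))) z)))))))) (n 0 z
 (n 0 z (n 0 z (n 0 z z))))) (n 987 (n 0 z (n 0 z (n 0 z (n 0 z (n 0 z z))))) (n 783 (n 0 z (n 2
 (n 0 z (n 0 z (n 0 z (n 1 z (n 2 (n 0 z (n 0 z (n 0 z (n 0 z (n 0 z (n 0 z z)))))) (n 2 (n 0 z
 (n 0 z (n 0 z (n 0 z (n 0 z (n 0 z z)))))) z)))))) (n 0 z (n 0 z (n 0 z (n 0 z (n 0 z (n 0 z (n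
 0 z (n 0 z (n 0 z z))))))))))) (n 783 (n 0 z (n 0 z (n 0 z (n 2 (n 0 z (n 0 z (n 2 (n 0 z (n 0
 z (n 0 z (n 0 z (n 0 z (n 0 z z)))))) (n 2 (n 0 z (n 0 z (n 0 z (n 0 z (n 0 z (n 0 z z)))))) (n
 2 (n 0 z (n 0 z (n 0 z (n 0 z (n 0 z (n 0 z z)))))) z))))) (n 0 z (n 0 z (n 0 z (n 0 z (n 0 z
 (n 0 z (n 0 z z))))))))))) (n 783 (n 0 z (n 0 z (n 0 z (n 0 z (n 0 z (n 0 z (n 0 z (n 0 z (n 0
 z (n 0 z (n 0 z z))))))))))) (n 783 (n 0 z (n 0 z (n 0 z (n 0 z (n 0 z (n 0 z (n 0 z (n 0 z (n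
 0 z (n 0 z (n 0 z z))))))))))) (n 985 (n 0 z (n 0 z (n 0 z (n 0 z (n 0 z (n 0 z (n 0 z (n 0 z
 (n 0 z (n 0 z z)))))))))) (n 985 (n 0 z (n 0 z (n 0 z (n 0 z (n 0 z (n 0 z (n 0 z (n 0 z (n 0 z
 (n 0 z z)))))))))) (n 985 (n 0 z (n 0 z (n 0 z (n 0 z (n 0 z (n 0 z (n 0 z (n 0 z (n 0 z (n 0 z
 z)))))))))) z))))))))) (n 0 (n 0 z (n 291 (n 0 z (n 0 z (n 0 z (n 0 z (n 0 z (n 0 z (n 0 z (n 0
 z z)))))))) (n 291 (n 0 z (n 2 (n 0 z (n 0 z (n 1 z (n 1 z (n 1 z z))))) (n 0 z (n 0 z (n 0 z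
 (n 0 z (n 0 z (n 0 z z)))))))) (n 291 (n 0 z (n 0 z (n 0 z (n 0 z (n 0 z (n 0 z (n 0 z (n 0 z
 z)))))))) (n 291 (n 0 z (n 0 z (n 0 z (n 0 z (n 0 z (n 0 z (n 0 z (n 2 (n 2 (n 0 z (n 0 z (n 0
 z (n 0 z (n 0 z (n 0 z z)))))) (n 2 (n 0 z (n 0 z (n 0 z (n 0 z (n 0 z (n 0 z z)))))) (n 1 z
 z))) z)))))))) (n 553 (n 0 z (n 0 z (n 0 z (n 0 z (n
 0xaec8ec600375fa1b8dc71f9e98eb85c81c66292895f79e6e6aa2a648217a285859869b69a7d77236675db0801 z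
 (n 0 z (n 0 z (n 0 z (n 0 z (n 0 z (n 0 z (n 0 z (n 0 z (n 0 z z)))))))))))))) (n 553 (n 0 z (n
 0 z (n 0 z (n 0 z (n 0 z (n 0 z (n 0 z (n 0 z (n 0 z (n 0 z (n 0 z (n 0 z (n 0 z (n 0 z
 z)))))))))))))) (n 553 (n 0 z (n 0 z (n 0 z (n 0 z (n 0 z (n 0 z (n 0 z (n 0 z (n 0 z (n 0 z (n
 0 z (n 2 z (n 0 z (n 0 z z)))))))))))))) z)))))))) (n 0 (n 255 (n 0 z (n 0 z (n 0 z (n 0 z (n 0
 z (n 0 z (n 0 z z))))))) (n 255 (n 0 z (n 2 (n 0 z (n 0 z (n 2 (n 0 z (n 0 z (n 0 z (n 0 z (n 0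
 z (n 0 z z)))))) (n 2 (n 0 z (n 0 z (n 0 z (n 0 z (n 0 z (n 0 z z)))))) (n 2 (n 0 z (n 0 z (n 0
 z (n 0 z (n 0 z (n 0 z z)))))) z))))) (n 0 z (n 0 z (n 0 z (n 0 z (n 0 z z))))))) (n 255 (n 0 z
 (n 0 z (n 0 z (n 0 z (n 0 z (n 0 z (n 0 z z))))))) (n 255 (n 0 z (n 0 z (n 0 z (n 0 z (n 2 (n 1
 z (n 1 z (n 1 z z))) (n 0 z (n 0 z z))))))) (n 257 (n 0 z (n 0 z (n 0 z (n 0 z (n 0 z (n 0 z (n
 2 (n 0 z (n 0 z z)) z))))))) (n 257 (n 0 z (n 2 (n 0 z z) (n 0 z (n 0 z (n 0 z (n 0 z (n 0 z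
 z))))))) (n 257 (n 0 z (n 0 z (n 0 z (n 0 z (n 0 z (n 0 z (n 0 z z))))))) z))))))) (n 0 (n 0 z
 (n 0 z (n 0 z (n 5 (n 0 z (n 0 z (n 0 z (n 0 z (n 0 z (n 0 z (n 0 z (n 0 z (n 0 z (n 0 z (n 0 z
 (n 0 z (n 0 z (n 0 z z)))))))))))))) (n 5 (n 0 z (n 0 z (n 0 z (n 0 z (n 0 z (n 0 z (n 0 z (n 0
 z (n 0 z (n
 0x48ec04376085d7a38228e369f75876282299e79a7a192191a69d61f81d7de8659e59649647e595d99a8630081 z
 (n 0 z (n 0 z (n 0 z (n 0 z z)))))))))))))) (n 5 (n 0 z (n 0 z (n 0 z (n 0 z (n 0 z (n 0 z (n 0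
 z (n 0 z (n 0 z (n 0 z (n 0 z (n 0 z (n 2 z (n 0 z z)))))))))))))) z)))))) (n 0 (n 0 z (n 0 z
 (n 25 (n 0 z (n 0 z (n 0 z (n
 0x58ec06b76085b7667e396661e6d47237e3a5f7567219a29585db4de7da7dd8a8ae7a27a277a89dba588e40081 z
 (n 0 z (n 0 z (n 0 z (n 0 z (n 0 z (n 0 z (n 0 z (n 0 z z)))))))))))) (n 25 (n 0 z (n 0 z (n 0
 z (n 0 z (n 0 z (n 0 z (n 0 z (n 0 z (n 0 z (n 0 z (n 0 z (n 0 z z)))))))))))) (n 25 (n 0 z (n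
 0 z (n 0 z (n 0 z (n 0 z (n 0 z (n 0 z (n 0 z (n 0 z (n 0 z (n 2 z (n 0 z z)))))))))))) z)))))
 (n 0 (n 0 z (n 5 (n 0 z (n 0 z (n 0 z (n 2 (n 0 z (n 0 z z)) (n 0 z (n 0 z (n 0 z (n 0 z (n 0 z
 z))))))))) (n 5 (n 0 z (n 0 z (n 0 z (n 0 z (n 0 z (n 0 z (n 2 (n 0 z z) (n 0 z (n 0 z
 z))))))))) (n 5 (n 0 z (n 0 z (n 0 z (n 0 z (n 0 z (n 0 z (n 0 z (n 0 z (n 0 z z))))))))) z))))
 (n 0 (n 53 (n 0 z (n 0 z (n 2 (n 0 z (n 0 z z)) (n 0 z (n 0 z (n 0 z (n 0 z (n 0 z (n 0 z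
 z))))))))) (n 53 (n 0 z (n 0 z (n 0 z (n 0 z (n 2 (n 0 z z) (n 0 z (n 0 z (n 0 z (n 0 z
 z))))))))) (n 53 (n 0 z (n 0 z (n 0 z (n 0 z (n 0 z (n 0 z (n 0 z (n 0 z (n 0 z z))))))))) z)))
 (n 0 (n 0 z (n 0 z z)) (n 0 (n 0 z z) (n 0 z z)))))))))))) (n 0 (n 0 z (n 1 (n 6566419 z (n
 6566419 z (n 6566419 z (n 6566419 z (n 6566419 z (n 6566419 z z)))))) z)) (n 0 z z)))) (n
 0x1b28e871134350aa1689dc344e610a33046299609a2d029153200e5a005a840 (n 0 (n 215 (n 3282443 z (n 2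
 z (n 10 z (n 18 z z)))) (n 35 (n 0 z (n 6627635 z z)) (n 9 (n
 0x136ca4a2080309b652540303803b28aa0181c01d885500c0607eca6ca2007069543651001811328b28801c32d9094c400e442884211c908312821078882888f7608007716fe9028d37c174d87a8ae7da7d625a8e03237649405249c47a39f07dd81491e80087a98088f7a173d60563c72e83b4fd981b6572a8b1ac47a963b68d8edad587ec7b40d1
 z (n 0x4c61075f96661e7288de91b89f9238688617e08e17df61b99e3e36e371c85f8237a4ae27f18a18690041 z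
 (n 26 z (n 6628123 z (n 0 z (n 0 z (n 0 z (n 0 z (n
 0x7c6516e29692a56b175d9d39e2ae796681e72092485e31d91d16d6eb4d9a178a56e7b268b692082e0041 z (n 0 z
 (n 0 z (n 6628123 z (n 0 z (n 6631955 z (n 0 z (n 0 z (n
 0x5c6517219273a472d79e9569a2a6692581e7608e481e41d8dd2ab72959a9998a4726a648b18e082b0041 z (n 0 z
 (n 6631955 z (n
 0xca8ca860791c7e491e81a8e082379f6a485e76376091e8a285f8268a276095f6df86186181b89e8626a00801 z (n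
 34 z (n 6631955 z z)))))))))))))))))))))) (n 3 (n 0 z (n 0 z (n 0 z (n 6631955 z (n 0 z (n 0 z
 z)))))) (n 1 (n
 0xca8a6240381f8617e082181f82081f8608218207e07e08208208208208208218208207e082181f8607e00801 z (n
 6558507 z (n 6558507 z (n
 0x6ca8a6240385d8e37df7e285d8207df86176281f7a18218247618df7a081f71e8608a07e58a16e28608200801 z
 (n 0x6ca8a6240382082282289e7dd82081e81e7a081e8608228228a081e8a28237607e08a07607a17a089e7e00801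
 z (n
 0x2329b28901c265363210182ca6ca20037de8648648618df82089f79e7df86082089e8a47df7a07a47257627de7a18227e181f85f8601801
 z (n 42 z (n 50 z (n
 0xca8a6240381f8617e082181f82081f8608218207e07e08208208208208208218208207e082181f8607e00801 z (n
 58 z z)))))))))) (n 0 (n
 0x4c6207219264a372b7de9579619e592481f7608a381f4de8de3a976761b95a8a4764a2386e8e08280041 z (n
 0x4c61075f96661e7288de91b89f9238688617e08e17df61b99e3e36e371c85f8237a4ae27f18a18690041 z (n 66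
 z (n 74 z (n 82 z (n 6631955 z (n 6631955 z (n
 0x6ca88624037e285f6a38227df79f8618de85d85f7e082285f82085e82186375f91d82079f7e381d8e08a00801 z
 (n 0x2ca886240781f8207a18227df82181f8dd7e081e91e81f81f7a08a07e282379f8a18e17de8207617df8600801
 z (n
 0x2c86c8040781f8617a182086082082082082082082082082182181f82082082082082086082082081f8200801 z
 (n 0xc86c8600785f8217a27e17df8217e18de76185e8de81d89f7a085f7e27e37a081f8217e08218208208600801 z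
 (n 90 z z)))))))))))) z)))))) (n 35 (n 0 (n 0 z (n 0 z (n 43 (n 0 z (n 0 z (n 0 z (n 0 z (n 0 z
 (n 0 z (n 0 z (n 0 z (n 0 z (n 0 z (n 0 z (n 0 z z)))))))))))) (n 43 (n 0 z (n 0 z (n 2 (n 2 (n
 0 z (n 0 z (n 0 z (n 0 z (n 0 z (n 0 z z)))))) (n 2 (n 0 z (n 0 z (n 0 z (n 0 z (n 0 z (n 0 z
 z)))))) (n 2 (n 0 z (n 0 z (n 0 z (n 0 z (n 0 z (n 0 z z)))))) (n 2 (n 0 z (n 0 z (n 0 z (n 0 z
 (n 0 (n 3213435 z z) (n 0 z z)))))) (n 2 (n 0 z (n 0 z (n 0 z (n 0 z (n 0 (n 3283051 z z) (n 0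
 z z)))))) (n 2 (n 0 z (n 0 z (n 0 z (n 0 z (n 0 z (n 0 z z)))))) (n 2 (n 0 z (n 0 z (n 0 z (n 0
 z (n 0 z (n 0 z z)))))) z))))))) (n 0 z (n 0 z (n 0 z (n 0 z (n 0 z (n 0 z (n 0 z (n 0 z (n 0 z
 z)))))))))))) (n 41 (n 0 z (n 0 z (n 0 z (n 0 z (n 0 z (n 0 z (n 0 z (n 0 z (n 0 z (n 0 z
 z)))))))))) (n 41 (n 0 z (n 0 z (n 0 z (n 0 z (n 0 z (n 0 z (n 0 z (n 0 z (n 0 z (n 0 z
 z)))))))))) (n 41 (n 0 z (n 0 z (n 2 (n 2 (n 0 z (n 0 z (n 0 z (n 0 z (n 0 (n 2164859 z z) (n 0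
 z z)))))) (n 2 (n 0 z (n 0 z (n 0 z (n 0 z (n 0 (n 3283051 z z) (n 0 z z)))))) (n 2 (n 0 z (n 0
 z (n 0 z (n 0 z (n 0 (n 1076 z z) (n 0 z z)))))) (n 2 (n 0 z (n 0 z (n 0 z (n 0 z (n 0 (n 1076
 z z) (n 0 z z)))))) z)))) (n 0 z (n 0 z (n 0 z (n 0 z (n 0 z (n 0 z (n 0 z z)))))))))) (n 269
 (n 0 z (n 0 z (n 0 z (n 0 z (n 0 z (n 0 z (n 2 (n 0 z (n 0 z (n 0 z z))) (n 0 z (n 0 z (n 0 z
 (n 0 z (n 0 z z)))))))))))) (n 269 (n 0 z (n 0 z (n 0 z (n 0 z (n 0 z (n 0 z (n 0 z (n 0 z (n 0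
 z (n 0 z (n 0 z (n 0 z z)))))))))))) (n 269 (n 0 z (n 0 z (n 0 z (n 0 z (n 0 z (n 0 z (n 0 z (n
 0 z (n 0 z (n 0 z (n 0 z (n 0 z z)))))))))))) (n 269 (n 0 z (n 0 z (n 0 z (n 2 z (n 0 z (n 0 z
 (n 0 z (n 0 z (n 0 z (n 0 z (n 0 z (n 0 z z)))))))))))) z))))))))))) (n 0 (n 0 z (n 219 (n 0 z
 (n 0 z (n 0 z (n 2 (n 0 z (n 2 (n 0 z (n 0 z (n 0 z (n 0 z (n 0 z (n 0 z z)))))) (n 2 (n 0 z (n
 0 z (n 0 z (n 0 z (n 0 z (n 0 z z)))))) (n 2 (n 0 z (n 0 z (n 0 z (n 0 z (n 0 z (n 0 z z))))))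
 (n 2 (n 0 z (n 0 z (n 0 z (n 0 z (n 0 z (n 0 z z)))))) (n 2 (n 0 z (n 0 z (n 0 z (n 0 z (n 0 (n
 8871987 z z) (n 0 z z)))))) (n 2 (n 0 z (n 0 z (n 0 z (n 0 z (n 0 z (n 0 z z)))))) (n 2 (n 0 z
 (n 0 z (n 0 z (n 0 z (n 0 z (n 0 z z)))))) z)))))))) (n 0 z (n 0 z (n 0 z (n 0 z (n 0 z (n 0 z
 (n 0 z (n 0 z (n 0 z z))))))))))))) (n 219 (n 0 z (n 0 z (n 0 z (n 0 z (n 0 z (n 0 z (n 0 z (n
 0 z (n 0 z (n 0 z (n 0 z (n 0 z (n 0 z z))))))))))))) (n 217 (n 0 z (n 0 z (n 0 z (n 0 z (n 0 z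
 (n 0 z z)))))) (n 217 (n 0 z (n 0 z (n 0 z (n 0 z (n 0 z (n 0 z z)))))) (n 217 (n 0 z (n 0 z (n
 0 z (n 0 z (n 0 z (n 0 z z)))))) (n 721 (n 0 z (n 0 z (n 0 z (n 0 z (n 0 z (n 0 z (n 0 z (n 0 z
 (n 0 z (n 0 z (n 0 z (n 0 z (n 0 z (n 0 z (n 0 z (n 0 z (n 0 z z))))))))))))))))) (n 721 (n 0 z
 (n 0 z (n 0 z (n 0 z (n 0 z (n 2 (n 0 z (n 0 z z)) (n 0 z (n 0 z (n 0 z (n 0 z (n 0 z (n 0 z (n
 0 z (n 0 z (n 0 z (n 0 z (n 0 z z))))))))))))))))) (n 721 (n 0 z (n 0 z (n 0 z (n 2 (n 0 z z)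
 (n 0 z (n 0 z (n 0 z (n 0 z (n 0 z (n 0 z (n 0 z (n 0 z (n 0 z (n 0 z (n 0 z (n 0 z (n 0 z
 z))))))))))))))))) (n 721 (n 0 z (n 0 z (n 0 z (n 0 z (n 0 z (n 0 z (n 0 z (n 0 z (n 0 z (n 0 z
 (n 0 z (n 0 z (n 0 z (n 0 z (n 0 z (n 0 z (n 0 z z))))))))))))))))) z)))))))))) (n 0 (n 203 (n
 0 z (n 0 z (n 0 z (n 0 z (n 2 (n 0 z (n 2 (n 0 z (n 0 z (n 0 z (n 0 z (n 0 (n 788 z z) (n 0 z
 z)))))) (n 2 (n 0 z (n 0 z (n 0 z (n 0 z (n 0 (n 788 z z) (n 0 z z)))))) (n 2 (n 0 z (n 0 z (n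
 0 z (n 0 z (n 0 z (n 0 z z)))))) (n 2 (n 0 z (n 0 z (n 0 z (n 0 z (n 0 (n 1076 z z) (n 0 z
 z)))))) (n 1 z (n 1 z (n 2 (n 0 z (n 0 z (n 0 z (n 0 z (n 0 z (n 0 z z)))))) z)))))))) (n 0 z
 (n 0 z (n 0 z (n 0 z (n 0 z (n 0 z (n 0 z (n 0 z (n 0 z (n 0 z (n 0 z (n 0 z (n 0 z (n 0 z (n 0
 z (n 0 z (n 0 z (n 0 z (n 0 z (n 0 z (n 0 z (n 0 z (n 0 z (n 0 z (n 0 z (n 0 z (n 0 z
 z)))))))))))))))))))))))))))))))) (n 203 (n 0 z (n 0 z (n 0 z (n 0 z (n 0 z (n 0 z (n 0 z (n 0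
 z (n 0 z (n 0 z (n 0 z (n 0 z (n 0 z (n 0 z (n 0 z (n 0 z (n 0 z (n 0 z (n 0 z (n 0 z (n 0 z (n
 0 z (n 0 z (n 0 z (n 0 z (n 0 z (n 0 z (n 0 z (n
 0x6ea4ca080381f89f7a08a08208207a17df85f8a18208a08218218618608207df8207df8608608218218210801 z
 (n 0xec8ec860785f8217a27e17df8217e18de76185e8de81d89f7a085f7e27e37a081f8217e08218208208600801 z
 (n 0 z (n 0 z z)))))))))))))))))))))))))))))))) (n 197 (n 0 z (n 0 z (n 0 z (n 0 z (n 0 z (n 0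
 z z)))))) (n 197 (n 0 z (n 0 z (n 0 z (n 0 z (n 0 z (n 0 z z)))))) (n 197 (n 0 z (n 0 z (n 0 z
 (n 0 z (n 0 z (n 0 z z)))))) (n 269 (n 0 z (n 0 z (n 0 z (n 0 z (n 0 z (n 0 z (n 0 z (n 0 z (n
 0 z (n 0 z (n 0 z (n 0 z (n 0 z (n 0 z (n 0 z (n 0 z (n 0 z z))))))))))))))))) (n 269 (n 0 z (n
 0 z (n 0 z (n 0 z (n 0 z (n 0 z (n 0 z (n 0 z (n 0 z (n 0 z (n 2 (n 0 z (n 0 z z)) (n 0 z (n 0
 z (n 0 z (n 0 z (n 0 z (n 0 z z))))))))))))))))) (n 269 (n 0 z (n 0 z (n 0 z (n 0 z (n 0 z (n 2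
 (n 0 z z) (n 0 z (n 0 z (n 0 z (n 0 z (n 0 z (n 0 z (n 0 z (n 0 z (n 0 z (n 0 z (n 0 z
 z))))))))))))))))) (n 269 (n 0 z (n 0 z (n 0 z (n 0 z (n 0 z (n 0 z (n 0 z (n 0 z (n 0 z (n 0 z
 (n 0 z (n 0 z (n 0 z (n 0 z (n 0 z (n 0 z (n 0 z z))))))))))))))))) z))))))))) (n 0 (n 0 z (n
 297 (n 0 z (n 0 z (n 0 z (n 0 z (n 0 z (n
 0xcc64e80a077a47645e67e372185c8e395e9de89b76189f8976e485b8a199d76191d79e8a176385e8a285f0801 z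
 (n
 0x163174050182ea8ca60038207e282182085e8617df8de7638de8a085e89e79e89d79f8218a292072079d82289f7e38601001
 z (n 0 z (n 0 z (n 0 z (n 0 z (n 0 z (n 0 z (n 0 z (n 0 z (n 0 z (n 0 z (n 0 z (n 0 z (n 0 z (n
 0 z (n 0 z (n 0 z (n 0 z (n 0 z (n 0 z (n 0 z (n 0 z (n 0 z (n 0 z (n 0 z (n 0 z (n 0 z (n 0 z
 (n 0 z (n 0 z (n 0 z (n 0 z (n 0 z (n 0 z (n 0 z (n 0 z (n 0 z (n 0 z (n 0 z (n 0 z
 z)))))))))))))))))))))))))))))))))))))))))))))) (n 297 (n 0 z (n 0 z (n 0 z (n 0 z (n 0 z (n 0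
 z (n 0 z (n 0 z (n 0 z (n 0 z (n 0 z (n 0 z (n 0 z (n 0 z (n 0 z (n 0 z (n 0 z (n 0 z (n 0 z (n
 0 z (n 0 z (n 0 z (n 0 z (n
 0x4c76075f96661e7288de91b89f9238688617e08e17df61b99e3e36e371c85f8237a4ae27f18a18690041 z (n 0 z
 (n 0 z (n 0 z (n 0 z (n 0 z (n 0 z (n 0 z (n 0 z (n 0 z (n 0 z (n 0 z (n 0 z (n 0 z (n 0 z (n 0
 z (n 0 z (n 0 z (n 0 z (n 0 z (n 0 z (n 0 z (n 0 z
 z)))))))))))))))))))))))))))))))))))))))))))))) (n 297 (n 0 z (n 0 z (n 0 z (n 0 z (n 0 z (n 0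
 z (n 0 z (n 0 z (n 0 z (n 0 z (n 0 z (n 0 z (n 0 z (n 0 z (n 0 z (n 0 z (n 0 z (n 0 z (n 0 z (n
 0 z (n 0 z (n 0 z (n 0 z (n 0 z (n 0 z (n 0 z (n 0 z (n 0 z (n 0 z (n 0 z (n 0 z (n 0 z (n 0 z
 (n 0 z (n 0 z (n 0 z (n 0 z (n 0 z (n 0 z (n 0 z (n 0 z (n 0 z (n 0 z (n 2 (n 2 (n 0 z (n 0 z
 (n 0 z (n 0 z (n 0 (n 2164859 z z) (n 0 z z)))))) (n 2 (n 0 z (n 0 z (n 0 z (n 0 z (n 0 (n
 3213419 z z) (n 0 z z)))))) (n 2 (n 0 z (n 0 z (n 0 z (n 0 z (n 0 z (n 0 z z)))))) (n 2 (n 0 z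
 (n 0 z (n 0 z (n 0 z (n 0 z (n 0 z z)))))) z)))) (n 0 z (n 0 z
 z)))))))))))))))))))))))))))))))))))))))))))))) (n 293 (n 0 z (n 0 z (n 0 z (n 0 z (n 0 z (n 0
 z (n 0 z (n 0 z (n 0 z (n 0 z (n 0 z z))))))))))) (n 293 (n 0 z (n 0 z (n 0 z (n 0 z (n 0 z (n
 0 z (n 0 z (n 0 z (n 0 z (n 0 z (n 0 z z))))))))))) (n 293 (n 0 z (n 0 z (n 0 z (n 0 z (n 0 z
 (n 0 z (n 0 z (n 2 (n 0 z z) (n 0 z (n 0 z (n 0 z z))))))))))) (n 293 (n 0 z (n 0 z (n 0 z (n 0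
 z (n 0 z (n 0 z (n 0 z (n 0 z (n 0 z (n 0 z (n 2 z z))))))))))) z)))))))) (n 0 (n 243 (n 0 z (n
 0 z (n 0 z (n 0 z (n 0 z (n 0 z (n 0 z (n 0 z (n 0 z (n 2 (n 0 z (n 0 z (n 1 z (n 2 (n 0 z (n 0
 z (n 0 z (n 0 z (n 0 (n 980 z z) (n 0 z z)))))) (n 2 (n 0 z (n 0 z (n 0 z (n 0 z (n 0 z (n 0 z
 z)))))) (n 1 z z)))))) (n 0 z (n 0 z z)))))))))))) (n 243 (n 0 z (n 0 z (n 0 z (n 0 z (n 0 z (n
 0 z (n 0 z (n 0 z (n 0 z (n 0 z (n 0 z (n 2 (n 0 z (n 2 (n 0 z (n 0 z (n 0 z (n 0 z (n 0 (n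
 8872979 z z) (n 0 z z)))))) (n 2 (n 0 z (n 0 z (n 0 z (n 0 z (n 0 z (n 0 z z)))))) (n 2 (n 0 z
 (n 0 z (n 0 z (n 0 z (n 0 z (n 0 z z)))))) (n 2 (n 0 z (n 0 z (n 0 z (n 0 z (n 0 z (n 0 z
 z)))))) z))))) z)))))))))))) (n 243 (n 0 z (n 0 z (n 0 z (n 0 z (n 0 z (n 0 z (n 0 z (n 0 z (n
 0 z (n 0 z (n 0 z (n 0 z z)))))))))))) (n 245 (n 0 z (n 0 z (n 0 z (n 0 z (n 0 z (n 0 z (n 0 z
 (n 0 z (n 0 z (n 0 z (n 0 z z))))))))))) (n 245 (n 0 z (n 0 z (n 0 z (n 0 z (n 0 z (n 0 z (n 0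
 z (n 0 z (n 0 z (n 0 z (n 0 z z))))))))))) (n 245 (n 0 z (n 0 z (n 0 z (n 0 z (n 0 z (n 2 (n 0
 z z) (n 0 z (n 0 z (n 0 z (n 0 z (n 0 z z))))))))))) (n 245 (n 0 z (n 0 z (n 0 z (n 0 z (n 0 z
 (n 0 z (n 0 z (n 0 z (n 0 z (n 0 z (n 2 z z))))))))))) z))))))) (n 0 (n 0 z (n 0 z (n 505 (n 0
 z (n 0 z (n 0 z (n 0 z (n 0 z (n 0 z (n 0 z (n 0 z (n 0 z (n 0 z (n 0 z (n 0 z (n 0 z (n 0 z (n
 0 z (n 0 z (n 0 z (n 0 z (n 0 z (n 0 z (n 0 z (n 0 z (n 0 z (n 0 z (n 0 z (n 0 z (n 0 z (n 0 z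
 (n 0 z (n 0 z (n 0 z (n 0 z (n 0 z (n 0 z (n 0 z (n 0 z (n 0 z (n 2 (n 0 z (n 0 z (n 0 z z)))
 (n 0 z (n 0 z (n 0 z (n 0 z (n 0 z (n 0 z (n 0 z (n 0 z
 z)))))))))))))))))))))))))))))))))))))))))))))) (n 505 (n 0 z (n 0 z (n 0 z (n 0 z (n 0 z (n 0
 z (n 0 z (n 0 z (n 0 z (n 0 z (n 0 z (n 0 z (n 0 z (n 0 z (n 0 z (n 0 z (n 0 z (n 0 z (n 0 z (n
 0 z (n 0 z (n 0 z (n 0 z (n 0 z (n 0 z (n 0 z (n 0 z (n 0 z (n 0 z (n 0 z (n 0 z (n 0 z (n 0 z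
 (n 0 z (n 0 z (n 0 z (n 0 z (n 0 z (n 0 z (n 0 z (n 0 z (n 0 z (n 0 z (n 0 z (n 0 z (n 0 z
 z)))))))))))))))))))))))))))))))))))))))))))))) (n 505 (n 0 z (n 0 z (n 0 z (n 0 z (n 0 z (n 0
 z (n 0 z (n 0 z (n 0 z (n 0 z (n 0 z (n 0 z (n 0 z (n 0 z (n 0 z (n 0 z (n
 0x4c76075f96661e7288de91b89f9238688617e08e17df61b99e3e36e371c85f8237a4ae27f18a18690041 z (n 0 z
 (n 0 z (n 0 z (n 0 z (n 0 z (n 0 z (n 0 z (n 0 z (n 0 z (n 0 z (n 0 z (n 0 z (n 0 z (n 0 z (n 0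
 z (n 0 z (n 0 z (n 0 z (n 0 z (n 0 z (n 0 z (n 0 z (n 0 z (n 0 z (n 0 z (n 0 z (n 0 z (n 0 z (n
 0 z z)))))))))))))))))))))))))))))))))))))))))))))) (n 505 (n 0 z (n 0 z (n 0 z (n 0 z (n 0 z
 (n 0 z (n 0 z (n 0 z (n 0 z (n 0 z (n 0 z (n 0 z (n 0 z (n 0 z (n 0 z (n 0 z (n 0 z (n 0 z (n 0
 z (n 0 z (n 0 z (n 0 z (n 0 z (n 0 z (n 0 z (n 0 z (n 0 z (n 0 z (n 0 z (n 0 z (n 0 z (n 0 z (n
 0 z (n 0 z (n 0 z (n 0 z (n 0 z (n 0 z (n 0 z (n 0 z (n 2 z (n 0 z (n 0 z (n 0 z (n 0 z (n 0 z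
 z)))))))))))))))))))))))))))))))))))))))))))))) z)))))) (n 0 (n 0 z (n 157 (n 0 z (n 0 z (n 0 z
 (n 0 z (n 0 z (n 0 z (n 0 z (n 0 z (n 0 z (n 0 z (n 0 z (n 0 z (n 0 z (n 0 z (n 0 z (n 0 z (n 0
 z (n 0 z (n 0 z (n 0 z (n 0 z (n 0 z (n 0 z (n 0 z (n 0 z (n 0 z (n 0 z (n 0 z (n 0 z (n 0 z (n
 0 z (n 0 z (n 0 z (n 0 z (n 0 z (n 0 z (n 0 z (n 2 (n 0 z (n 0 z (n 0 z z))) (n 0 z (n 0 z (n 0
 z (n 0 z (n 0 z (n 0 z (n 0 z (n 0 z (n 0 z z))))))))))))))))))))))))))))))))))))))))))))))) (n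
 157 (n 0x4c76075f96661e7288de91b89f9238688617e08e17df61b99e3e36e371c85f8237a4ae27f18a18690041 z
 (n 0 z (n 0 z (n 0 z (n 0 z (n 0 z (n 0 z (n 0 z (n 0 z (n 0 z (n 0 z (n 0 z (n 0 z (n 0 z (n 0
 z (n 0 z (n 0 z (n 0 z (n 0 z (n 0 z (n 0 z (n 0 z (n 0 z (n 0 z (n 0 z (n 0 z (n 0 z (n 0 z (n
 0 z (n 0 z (n 0 z (n 0 z (n 0 z (n 0 z (n 0 z (n 0 z (n 0 z (n 0 z (n 0 z (n 0 z (n 0 z (n 0 z
 (n 0 z (n 0 z (n 0 z (n 0 z (n 0 z z))))))))))))))))))))))))))))))))))))))))))))))) (n 157 (n 0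
 z (n 0 z (n 0 z (n 0 z (n 0 z (n 0 z (n 0 z (n 0 z (n 0 z (n 0 z (n 0 z (n 0 z (n 0 z (n 0 z (n
 0 z (n 0 z (n 0 z (n 0 z (n 0 z (n 0 z (n 0 z (n 0 z (n 0 z (n 0 z (n 0 z (n 0 z (n 0 z (n 0 z
 (n 0 z (n 0 z (n 0 z (n 0 z (n 0 z (n 0 z (n 0 z (n 0 z (n 0 z (n 0 z (n 0 z (n 0 z (n 0 z (n 0
 z (n 0 z (n 0 z (n 0 z (n 0 z (n 0 z z))))))))))))))))))))))))))))))))))))))))))))))) (n 157 (n
 0 z (n 0 z (n 0 z (n 0 z (n 0 z (n 0 z (n 0 z (n 0 z (n 0 z (n 0 z (n 0 z (n 0 z (n 0 z (n 0 z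
 (n 0 z (n 0 z (n 0 z (n 0 z (n 0 z (n 0 z (n 0 z (n 0 z (n 0 z (n 0 z (n 0 z (n 0 z (n 0 z (n 0
 z (n 0 z (n 0 z (n 0 z (n 0 z (n 0 z (n 0 z (n 0 z (n 0 z (n 0 z (n 0 z (n 0 z (n 0 z (n 0 z (n
 0 z (n 2 z (n 0 z (n 0 z (n 0 z (n 0 z z))))))))))))))))))))))))))))))))))))))))))))))) z)))))
 (n 0 (n 1 (n 0 z (n 0 z (n 0 z (n 0 z (n 0 z (n 0 z (n 0 z (n 0 z (n 0 z (n 0 z (n 0 z (n 0 z
 z)))))))))))) (n 1 (n 0 z (n 0 z (n 0 z (n 0 z (n 0 z (n 2 (n 0 z (n 0 z z)) (n 0 z (n 0 z (n 0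
 z (n 0 z (n 0 z (n 0 z z)))))))))))) (n 1 (n 2 (n 0 z z) (n 0 z (n 0 z (n 0 z (n 0 z (n 0 z (n
 0 z (n 0 z (n 0 z (n 0 z (n 0 z (n 0 z z)))))))))))) (n 1 (n 0 z (n 0 z (n 0 z (n 0 z (n 0 z (n
 0 z (n 0 z (n 0 z (n 0 z (n 0 z (n 0 z (n 0 z z)))))))))))) z)))) (n 0 (n 0 z (n 0 z (n 0 z
 z))) (n 0 (n 0 z (n 0 z z)) (n 0 (n 0 z z) (n 0 z z)))))))))))) (n 0 (n 0 z (n 1 (n 6627635 z
 (n 6627635 z (n 6631955 z (n 6627635 z (n 6627635 z (n 6627635 z z)))))) z)) (n 0 z z)))) (n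
 0x1b56a8d4b34666bb867546356a215931074b8f60d24582d62f5019b9808ba40 (n 0 (n 183 (n 2 z (n 10 z (n
 3282443 z (n 18 z z)))) (n 249 (n 0 z (n 0 z (n 6562099 z (n 0 z (n 0 z (n 0 z z)))))) (n 129
 (n 0 z (n 0 z (n 6566419 z (n 0 z (n 0 z (n 0 z (n 26 z (n 0 z (n
 0x365253040386ca8ca86079209a49dd7a7b237646e16dd7a072779f71c66aaad9a979d65395c4e66a67226eb81f4daba01001
 z (n 0 z (n 34 z (n 0 z (n 6566419 z (n 6566419 z z)))))))))))))) (n 3 (n 0 z (n 0 z (n 6566419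
 z z))) (n 1 (n
 0x165453020182c84a6400781f8208217607a182181f7e07e181f85d7df8208a07a07e18208618227617a086185e85f8601001
 z (n 42 z (n 50 z (n 58 z (n 6566419 z (n 6566419 z (n 0 z (n
 0x10ca4ca260389d7dd8e172e6678a27dd8dc6e179f9e769e91c8637a46a38ea7e25d78206979196208e45a00801 z
 (n 66 z z))))))))) (n 0 (n 0 z (n 6624043 z (n 74 z (n 82 z (n 90 z z))))) z)))))) (n 3 (n 0 (n
 0 z (n 0 z (n 35 (n 0 z (n 0 z (n 0 z (n 0 z (n 0 z (n 0 z (n 0 z (n 0 z (n 0 z (n 0 z (n 0 z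
 z))))))))))) (n 35 (n 0 z (n 0 z (n 0 z (n 0 z (n 0 z (n 0 z (n 0 z (n 0 z (n 0 z (n 2 (n 2 (n
 0 z (n 0 z (n 0 z (n 0 (n 3283051 z z) (n 0 z (n 0 z z)))))) (n 2 (n 0 z (n 0 z (n 0 z (n 0 z
 (n 0 z (n 0 z z)))))) (n 2 (n 0 z (n 0 z (n 0 z (n 0 (n 3213435 z z) (n 0 z (n 0 z z)))))) (n 2
 (n 0 z (n 0 z (n 0 z (n 0 z (n 0 z (n 0 z z)))))) (n 2 (n 0 z (n 0 z (n 0 z (n 0 z (n 0 z (n 0
 z z)))))) (n 2 (n 0 z (n 0 z (n 0 z (n 0 z (n 0 z (n 0 z z)))))) (n 2 (n 0 z (n 0 z (n 0 z (n 0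
 z (n 0 z (n 0 z z)))))) z))))))) (n 0 z z))))))))))) (n 255 (n 0 z (n 0 z (n 0 z (n 0 z (n 0 z
 (n 0 z (n 0 z (n 0 z (n 0 z (n 0 z z)))))))))) (n 255 (n 0 z (n 0 z (n 0 z (n 0 z (n 0 z (n 0 z
 (n 0 z (n 0 z (n 0 z (n 0 z z)))))))))) (n 255 (n 0 z (n 2 (n 0 z (n 2 (n 0 z (n 0 z (n 0 z (n
 0 z (n 0 z (n 0 z z)))))) (n 2 (n 0 z (n 0 z (n 0 z (n 0 z (n 0 z (n 0 z z)))))) (n 2 (n 0 z (n
 0 z (n 0 z (n 0 (n 2164859 z z) (n 0 z (n 0 z z)))))) z)))) (n 0 z (n 0 z (n 0 z (n 0 z (n 0 z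
 (n 0 z (n 0 z (n 0 z z)))))))))) (n 255 (n 0 z (n 0 z (n 0 z (n 0 z (n 0 z (n 0 z (n 0 z (n 0 z
 (n 2 (n 2 (n 0 z (n 0 z (n 0 z (n 0 z (n 0 z (n 0 z z)))))) (n 2 (n 0 z (n 0 z (n 0 z (n 0 z (n
 0 z (n 0 z z)))))) (n 2 (n 0 z (n 0 z (n 0 z (n 0 (n 116 z z) (n 0 z (n 0 z z)))))) z))) (n 0 z
 z)))))))))) (n 29 (n 0 z (n 0 z (n 0 z (n 0 z (n 0 z z))))) (n 29 (n 0 z (n 0 z (n 0 z (n 0 z
 (n 0 z z))))) (n 29 (n 0 z (n 2 z (n 0 z (n 0 z (n 0 z z))))) z))))))))))) (n 0 (n 0 z (n 967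
 (n 0 z (n 0 z (n 0 z (n 0 z (n 2 (n 0 z (n 1 z (n 1 z (n 2 (n 0 z (n 0 z (n 0 z (n 0 (n 1404 z
 z) (n 0 z (n 0 z z)))))) (n 2 (n 0 z (n 0 z (n 0 z (n 0 z (n 0 z (n 0 z z)))))) (n 2 (n 0 z (n
 0 z (n 0 z (n 0 (n 3860 z z) (n 0 z (n 0 z z)))))) (n 2 (n 0 z (n 0 z (n 0 z (n 0 (n 3860 z z)
 (n 0 z (n 0 z z)))))) (n 2 (n 0 z (n 0 z (n 0 z (n 0 z (n 0 z (n 0 z z)))))) z)))))))) (n 0 z
 (n 0 z (n 0 z (n 0 z (n 0 z (n 0 z (n 0 z (n 0 z (n 0 z z)))))))))))))) (n 967 (n 0 z (n 0 z (n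
 0 z (n 0 z (n 0 z (n 0 z (n 0 z (n 0 z (n
 0x399320280c176576530182ca8ea46077607629228268e48e18a289e6a182169e6db6217e38628a395d75f81d85d89f76971d69f8a21801
 z (n 0 z (n 0 z (n 0 z (n 0 z (n 0 z z)))))))))))))) (n 351 (n 0 z (n 0 z (n 0 z (n 0 z (n 0 z
 (n 0 z (n 0 z (n 2 (n 0 z (n 0 z (n 0 z (n 2 (n 0 z (n 0 z (n 0 z (n 0 z (n 0 z (n 0 z z))))))
 (n 2 (n 0 z (n 0 z (n 0 z (n 0 z (n 0 z (n 0 z z)))))) (n 2 (n 0 z (n 0 z (n 0 z (n 0 z (n 0 z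
 (n 0 z z)))))) z)))))) (n 0 z (n 0 z (n 0 z (n 0 z (n 0 z (n 0 z (n 0 z z))))))))))))))) (n 351
 (n 0 z (n 0 z (n 0 z (n 0 z (n 0 z (n 0 z (n 0 z (n 0 z (n 2 (n 0 z (n 0 z (n 2 (n 0 z (n 0 z
 (n 0 z (n 0 z (n 0 z (n 0 z z)))))) (n 2 (n 0 z (n 0 z (n 0 z (n 0 z (n 0 z (n 0 z z)))))) (n 2
 (n 0 z (n 0 z (n 0 z (n 0 z (n 0 z (n 0 z z)))))) z))))) (n 0 z (n 0 z (n 0 z (n 0 z (n 0 z (n
 0 z z))))))))))))))) (n 351 (n 0 z (n 0 z (n 0 z (n 0 z (n 0 z (n 0 z (n 0 z (n 0 z (n 0 z (n 0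
 z (n 0 z (n 0 z (n 0 z (n 0 z (n 0 z z))))))))))))))) (n 351 (n 0 z (n 0 z (n 0 z (n 0 z (n 0 z
 (n 0 z (n 0 z (n 0 z (n 0 z (n 0 z (n 0 z (n 0 z (n 0 z (n 0 z (n 0 z z))))))))))))))) (n 965
 (n 0 z (n 0 z (n 0 z (n 0 z (n 0 z (n 0 z (n 0 z z))))))) (n 965 (n 0 z (n 0 z (n 0 z (n 0 z (n
 0 z (n 0 z (n 0 z z))))))) (n 965 (n 0 z (n 0 z (n 0 z (n 0 z (n 0 z (n 0 z (n 0 z z)))))))
 z)))))))))) (n 0 (n 987 (n 0 z (n 2 (n 0 z (n 2 (n 0 z (n 0 z (n 0 z (n 0 (n 8871987 z z) (n 0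
 z (n 0 z z)))))) (n 2 (n 0 z (n 0 z (n 0 z (n 0 z (n 0 z (n 0 z z)))))) (n 2 (n 0 z (n 0 z (n 0
 z (n 0 z (n 0 z (n 0 z z)))))) (n 2 (n 0 z (n 0 z (n 0 z (n 0 z (n 0 z (n 0 z z)))))) (n 2 (n 0
 z (n 0 z (n 0 z (n 0 z (n 0 z (n 0 z z)))))) (n 2 (n 0 z (n 0 z (n 0 z (n 0 z (n 0 z (n 0 z
 z)))))) (n 2 (n 0 z (n 0 z (n 0 z (n 0 z (n 0 z (n 0 z z)))))) z)))))))) (n 0 z (n 0 z (n 0 z
 (n 0 z (n 0 z (n 0 z (n 0 z z))))))))) (n 987 (n 0 z (n 0 z (n 0 z (n 0 z (n 0 z (n 0 z (n 0 z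
 (n 0 z (n 0 z z))))))))) (n 783 (n 0 z (n 0 z (n 0 z (n 0 z (n 0 z (n 0 z (n 2 (n 0 z (n 0 z (n
 0 z (n 2 (n 0 z (n 0 z (n 0 z (n 0 z (n 0 z (n 0 z z)))))) (n 2 (n 0 z (n 0 z (n 0 z (n 0 z (n
 0 z (n 0 z z)))))) (n 2 (n 0 z (n 0 z (n 0 z (n 0 z (n 0 z (n 0 z z)))))) z)))))) (n 0 z (n 0 z
 (n 0 z (n 0 z (n 0 z (n 0 z (n 0 z (n 0 z (n 0 z z)))))))))))))))) (n 783 (n 0 z (n 0 z (n 0 z
 (n 0 z (n 0 z (n 0 z (n 0 z (n 0 z (n 2 (n 0 z (n 0 z (n 2 (n 0 z (n 0 z (n 0 z (n 0 z (n 0 z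
 (n 0 z z)))))) (n 2 (n 0 z (n 0 z (n 0 z (n 0 z (n 0 z (n 0 z z)))))) (n 2 (n 0 z (n 0 z (n 0 z
 (n 0 z (n 0 z (n 0 z z)))))) z))))) (n 0 z (n 0 z (n 0 z (n 0 z (n 0 z (n 0 z (n 0 z
 z)))))))))))))))) (n 783 (n 0 z (n 0 z (n 0 z (n 0 z (n 0 z (n 0 z (n 0 z (n 0 z (n 0 z (n 0 z
 (n 0 z (n 0 z (n 0 z (n 0 z (n 0 z (n 0 z z)))))))))))))))) (n 783 (n 0 z (n 0 z (n 0 z (n 0 z
 (n 0 z (n 0 z (n 0 z (n 0 z (n 0 z (n 0 z (n 0 z (n 0 z (n 0 z (n 0 z (n 0 z (n 0 z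
 z)))))))))))))))) (n 985 (n 0 z (n 0 z (n 0 z (n 0 z (n 0 z (n 0 z (n 0 z z))))))) (n 985 (n 0
 z (n 0 z (n 0 z (n 0 z (n 0 z (n 0 z (n 0 z z))))))) (n 985 (n 0 z (n 0 z (n 0 z (n 0 z (n 0 z
 (n 0 z (n 0 z z))))))) z))))))))) (n 0 (n 0 z (n 291 (n 0 z (n 0 z (n 0 z (n 0 z (n 0 z (n 0 z
 (n 0 z (n 0 z (n 0 z z))))))))) (n 291 (n 0 z (n 2 (n 0 z (n 0 z (n 1 z (n 1 z (n 1 z z))))) (n
 0 z (n 0 z (n 0 z (n 0 z (n 0 z (n 0 z (n 0 z z))))))))) (n 291 (n 0 z (n 0 z (n 0 z (n 0 z (n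
 0 z (n 0 z (n 0 z (n 0 z (n 0 z z))))))))) (n 291 (n 0 z (n 0 z (n 0 z (n 0 z (n 0 z (n 0 z (n
 0 z (n 0 z (n 2 (n 2 (n 0 z (n 0 z (n 0 z (n 0 z (n 0 z (n 0 z z)))))) (n 2 (n 0 z (n 0 z (n 0
 z (n 0 z (n 0 z (n 0 z z)))))) (n 2 (n 0 z (n 0 z (n 0 z (n 0 (n 2212 z z) (n 0 z (n 0 z
 z)))))) z))) z))))))))) (n 553 (n 0 z (n 0 z (n 0 z (n 0 z (n 0 z (n 0 z (n 0 z (n 0 z (n 0 z
 (n 0 z (n 0 z (n
 0x6ec8ec600385e7a19e376082295e7e289f6a07a17a979a9647a97a77248dc8a465c79f72179c75b89e7a10801 z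
 (n 0 z (n 0 z (n 0 z (n 0 z (n 0 z (n 0 z (n 0 z (n 0 z (n 0 z (n 0 z z))))))))))))))))))))))
 (n 553 (n 0 z (n 0 z (n 0 z (n 0 z (n 0 z (n 0 z (n 0 z (n 0 z (n 0 z (n 0 z (n 0 z (n 0 z (n 0
 z (n 0 z (n 0 z (n 0 z (n 0 z (n 0 z (n 0 z (n 0 z (n 0 z (n 0 z z)))))))))))))))))))))) (n 553
 (n 0 z (n 0 z (n 0 z (n 0 z (n 0 z (n 0 z (n 0 z (n 0 z (n 0 z (n 0 z (n 0 z (n 0 z (n 0 z (n 0
 z (n 0 z (n 0 z (n 0 z (n 2 z (n 0 z (n 0 z (n 0 z (n 0 z z)))))))))))))))))))))) z)))))))) (n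
 0 (n 255 (n 0 z (n 0 z (n 0 z (n 0 z (n 0 z (n 0 z (n 0 z (n 0 z z)))))))) (n 255 (n 0 z (n 0 z
 (n 2 (n 0 z (n 0 z (n 2 (n 0 z (n 0 z (n 0 z (n 0 z (n 0 z (n 0 z z)))))) (n 2 (n 0 z (n 0 z (n
 0 z (n 0 z (n 0 z (n 0 z z)))))) (n 2 (n 0 z (n 0 z (n 0 z (n 0 z (n 0 z (n 0 z z)))))) z)))))
 (n 0 z (n 0 z (n 0 z (n 0 z (n 0 z z)))))))) (n 255 (n 0 z (n 0 z (n 0 z (n 0 z (n 0 z (n 0 z
 (n 0 z (n 0 z z)))))))) (n 255 (n 0 z (n 0 z (n 0 z (n 0 z (n 0 z (n 2 (n 1 z (n 2 (n 0 z (n 0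
 z (n 0 z (n 0 (n 8587115 z z) (n 0 z (n 0 z z)))))) (n 1 z z))) (n 0 z (n 0 z z)))))))) (n 257
 (n 0 z (n 0 z (n 0 z (n 0 z (n 0 z (n 0 z (n 0 z (n 0 z (n 0 z (n 2 (n 0 z (n 0 z z))
 z)))))))))) (n 257 (n 0 z (n 0 z (n 2 (n 0 z z) (n 0 z (n 0 z (n 0 z (n 0 z (n 0 z (n 0 z (n 0
 z z)))))))))) (n 257 (n 0 z (n 0 z (n 0 z (n 0 z (n 0 z (n 0 z (n 0 z (n 0 z (n 0 z (n 0 z
 z)))))))))) z))))))) (n 0 (n 0 z (n 0 z (n 0 z (n 5 (n 0 z (n 0 z (n 0 z (n 0 z (n 0 z (n 0 z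
 (n 0 z (n 0 z (n 0 z (n 0 z (n 0 z (n 0 z (n 0 z (n 0 z (n 0 z (n 0 z (n 0 z (n 0 z (n 0 z (n 0
 z (n 0 z (n 0 z z)))))))))))))))))))))) (n 5 (n 0 z (n 0 z (n 0 z (n 0 z (n 0 z (n 0 z (n 0 z
 (n 0 z (n 0 z (n 0 z (n 0 z (n 0 z (n 0 z (n 0 z (n
 0x2ec6ec600782086081f86089f7e082181e8a07e189f8227e085e8608df7de85e7e08207e27e28217e08200801 z
 (n 0 z (n 0 z (n 0 z (n 0 z (n 0 z (n 0 z (n 0 z z)))))))))))))))))))))) (n 5 (n 0 z (n 0 z (n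
 0 z (n 0 z (n 0 z (n 0 z (n 0 z (n 0 z (n 0 z (n 0 z (n 0 z (n 0 z (n 0 z (n 0 z (n 0 z (n 0 z
 (n 0 z (n 0 z (n 0 z (n 0 z (n 2 z (n 0 z z)))))))))))))))))))))) z)))))) (n 0 (n 0 z (n 0 z (n
 25 (n 0 z (n 0 z (n 0 z (n 0 z (n 0 z (n 0 z (n 0 z (n 0 z (n 0 z (n
 0x2ec6ec600782086081f8208607e082181e8a07e289e8227e085e8208df7de89e81f8207e18218207e08600801 z
 (n 0 z (n 0 z (n 0 z (n 0 z (n 0 z (n 0 z (n 0 z (n 0 z (n 0 z (n 0 z (n 0 z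
 z))))))))))))))))))))) (n 25 (n 0 z (n 0 z (n 0 z (n 0 z (n 0 z (n 0 z (n 0 z (n 0 z (n 0 z (n
 0 z (n 0 z (n 0 z (n 0 z (n 0 z (n 0 z (n 0 z (n 0 z (n 0 z (n 0 z (n 0 z (n 0 z
 z))))))))))))))))))))) (n 25 (n 0 z (n 0 z (n 0 z (n 0 z (n 0 z (n 0 z (n 0 z (n 0 z (n 0 z (n
 0 z (n 0 z (n 0 z (n 0 z (n 0 z (n 0 z (n 0 z (n 0 z (n 0 z (n 0 z (n 2 z (n 0 z
 z))))))))))))))))))))) z))))) (n 0 (n 0 z (n 5 (n 0 z (n 0 z (n 0 z (n 2 (n 0 z (n 0 z z)) (n 0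
 z (n 0 z (n 0 z (n 0 z (n 0 z (n 0 z (n 0 z z))))))))))) (n 5 (n 0 z (n 0 z (n 0 z (n 0 z (n 0
 z (n 0 z (n 0 z (n 2 (n 0 z z) (n 0 z (n 0 z (n 0 z z))))))))))) (n 5 (n 0 z (n 0 z (n 0 z (n 0
 z (n 0 z (n 0 z (n 0 z (n 0 z (n 0 z (n 0 z (n 0 z z))))))))))) z)))) (n 0 (n 53 (n 0 z (n 0 z
 (n 2 (n 0 z (n 0 z z)) (n 0 z (n 0 z (n 0 z (n 0 z (n 0 z (n 0 z (n 0 z (n 0 z z))))))))))) (n
 53 (n 0 z (n 0 z (n 0 z (n 0 z (n 2 (n 0 z z) (n 0 z (n 0 z (n 0 z (n 0 z (n 0 z (n 0 z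
 z))))))))))) (n 53 (n 0 z (n 0 z (n 0 z (n 0 z (n 0 z (n 0 z (n 0 z (n 0 z (n 0 z (n 0 z (n 0 z
 z))))))))))) z))) (n 0 (n 0 z (n 0 z z)) (n 0 (n 0 z z) (n 0 z z)))))))))))) (n 0 (n 0 z (n 0 z
 (n 1 (n 6566419 z (n 6566419 z (n 6566419 z (n 6566419 z (n 6566419 z (n 6566419 z z)))))) z)))
 (n 0 z z)))) (n 0x132968595941d74b82d2c816b210ac531135708ba33058994254e1c34462112 (n 0 (n 153
 (n 0 z (n 0 z (n 0 z (n 0 z (n 6496275 z (n 0 z (n 0 z z))))))) (n 33 (n 0 z (n 6496515 z z))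
 (n 9 (n
 0x164254130382ca8a8620381f86091da1795eb2759f62299e6a06e075f82781f81f8ea79d7978a289e72289e89f89d8201001
 z (n 0 z (n 6496515 z (n 2 z (n 0 z (n 0 z (n 0 z (n 6496515 z (n 0 z (n 0 z (n 0 z (n 0 z (n 0
 z (n 10 z (n 6496515 z (n 6496515 z z)))))))))))))))) (n 27 (n 18 z (n 26 z (n
 0x2ca4ca42078208e37a095c89f9e36a07a09206e26e07617e37e185f8a579e75a82085f72379e82291c7e30801 z
 (n 0x4ca8ca820785a9aa4a29636a39e26dc8629df69f89f7a38a57e185f7e57de75f7e481c6e185d8e08a08a30801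
 z (n 34 z (n 6496515 z (n 6496515 z (n 42 z z)))))))) (n 7 (n 50 z (n
 0x2ca8a402078207e34e18e581f8a5720aa585e7a685f6a39d97e086075a85e76175f7a189d81f8e18e28220801 z
 (n 58 z (n
 0x2ca6ca64038237627e085e85f71f89e8e079f89f8238a27e379f7a185e7e17df7a37de7e47608607e08610801 z
 (n 6558219 z (n 6558219 z (n 66 z (n
 0x6ca4ca06037a37a27a486275f69d91e8a181f81f8239228247a07a27da95d86372385e8607a086081f8a10801 z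
 z)))))))) (n 0 (n 74 z (n 82 z (n 90 z (n 6619675 z (n 0 z z))))) z)))))) (n 33 (n 0 (n 0 z (n
 7 (n 2 (n 0 z (n 0 z (n 0 z (n 1 z (n 1 z (n 2 (n 0 z (n 0 z (n 0 (n 8718187 z z) (n 0 z (n 0 z
 (n 0 z z)))))) (n 1 z (n 1 z (n 1 z z))))))))) (n 0 z (n 0 z (n 0 z (n 0 z (n 0 z (n 0 z
 z))))))) (n 7 (n 0 z (n 0 z (n 0 z (n 0 z (n 0 z (n 0 z (n 0 z z))))))) (n 7 (n 0 z (n 0 z (n 0
 z (n 0 z (n 0 z (n 0 z (n 0 z z))))))) (n 7 (n 0 z (n 0 z (n 0 z (n 0 z (n 0 z (n 2 (n 2 (n 0 z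
 (n 0 z (n 0 z (n 0 z (n 0 z (n 0 z z)))))) (n 2 (n 0 z (n 0 z (n 0 z (n 0 z (n 0 z (n 0 z
 z)))))) (n 2 (n 0 z (n 0 z (n 0 z (n 0 z (n 0 z (n 0 z z)))))) (n 2 (n 0 z (n 0 z (n 0 (n 388 z
 z) (n 0 z (n 0 z (n 0 z z)))))) (n 2 (n 0 z (n 0 z (n 0 z (n 0 z (n 0 z (n 0 z z)))))) (n 2 (n
 0 z (n 0 z (n 0 z (n 0 z (n 0 z (n 0 z z)))))) z)))))) (n 0 z z))))))) (n 99 (n 0 z (n 0 z (n 0
 z (n 0 z (n 0 z (n 0 z (n 0 z (n 0 z (n 0 z (n 0 z (n 0 z (n 0 z z)))))))))))) (n 99 (n 0 z (n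
 0 z (n 0 z (n 0 z (n 2 (n 0 z (n 2 (n 0 z (n 0 z (n 0 z (n 0 z (n 0 z (n 0 z z)))))) (n 2 (n 0
 z (n 0 z (n 0 (n 388 z z) (n 0 z (n 0 z (n 0 z z)))))) (n 2 (n 0 z (n 0 z (n 0 (n 388 z z) (n 0
 z (n 0 z (n 0 z z)))))) z)))) (n 0 z (n 0 z (n 0 z (n 0 z (n 0 z (n 0 z (n 0 z z)))))))))))) (n
 99 (n 0 z (n 0 z (n 0 z (n 0 z (n 0 z (n 0 z (n 0 z (n 0 z (n 2 (n 2 (n 0 z (n 0 z (n 0 z (n 0
 z (n 0 z (n 0 z z)))))) (n 2 (n 0 z (n 0 z (n 0 z (n 0 z (n 0 z (n 0 z z)))))) (n 2 (n 0 z (n 0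
 z (n 0 z (n 0 z (n 0 z (n 0 z z)))))) z))) (n 0 z (n 0 z (n 0 z z)))))))))))) (n 97 (n 0 z (n 2
 (n 0 z (n 0 z z)) (n 0 z (n 0 z (n 0 z (n 0 z (n 0 z (n 0 z (n 0 z (n 0 z (n 0 z (n 0 z (n 0 z
 (n 0 z (n 0 z (n 0 z (n 0 z (n 0 z (n 0 z (n 0 z (n 0 z (n 0 z (n 0 z z)))))))))))))))))))))))
 (n 97 (n 0 z (n 0 z (n 0 z (n 0 z (n 0 z (n 0 z (n 0 z (n 0 z (n 0 z (n 0 z (n 0 z (n 0 z (n 0
 z (n 0 z (n 0 z (n 0 z (n 0 z (n 0 z (n 0 z (n 0 z (n 0 z (n 0 z (n 0 z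
 z))))))))))))))))))))))) (n 97 (n 0 z (n 0 z (n 0 z (n 0 z (n 0 z (n 0 z (n 0 z (n 0 z (n 0 z
 (n 0 z (n 0 z (n 0 z (n 0 z (n 0 z (n 0 z (n 0 z (n 0 z (n 0 z (n 0 z (n 0 z (n 0 z (n 0 z (n 0
 z z))))))))))))))))))))))) z))))))))))) (n 0 (n 27 (n 2 (n 0 z (n 0 z (n 0 z (n 2 (n 0 z (n 0 z
 (n 0 (n 420 z z) (n 0 z (n 0 z (n 0 z z)))))) (n 2 (n 0 z (n 0 z (n 0 z (n 0 z (n 0 z (n 0 z
 z)))))) (n 2 (n 0 z (n 0 z (n 0 z (n 0 z (n 0 z (n 0 z z)))))) (n 2 (n 0 z (n 0 z (n 0 z (n 0 z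
 (n 0 z (n 0 z z)))))) (n 2 (n 0 z (n 0 z (n 0 z (n 0 z (n 0 z (n 0 z z)))))) (n 2 (n 0 z (n 0 z
 (n 0 z (n 0 z (n 0 z (n 0 z z)))))) z))))))))) (n 0 z (n 0 z (n 0 z (n 0 z (n 0 z (n 0 z
 z))))))) (n 27 (n 0 z (n 0 z (n 0 z (n 0 z (n 0 z (n 0 z (n 0 z z))))))) (n 27 (n 0 z (n 0 z (n
 0 z (n 0 z (n 0 z (n 0 z (n 0 z z))))))) (n 27 (n 0 z (n 0 z (n 0 z (n 0 z (n 0 z (n 2 (n 1 z
 (n 1 z (n 1 z (n 1 z (n 2 (n 0 z (n 0 z (n 0 (n 8656747 z z) (n 0 z (n 0 z (n 0 z z)))))) (n 1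
 z z)))))) (n 0 z z))))))) (n 105 (n 0 z (n 0 z (n 0 z (n 0 z (n 0 z (n 0 z (n 0 z (n 0 z (n 0 z
 (n 0 z (n 0 z (n 0 z (n 0 z (n 0 z (n 0 z (n 0 z (n 0 z (n 0 z (n 0 z (n 0 z (n 2 (n 0 z (n 0 z
 (n 2 (n 0 z (n 0 z (n 0 z (n 0 z (n 0 z (n 0 z z)))))) (n 2 (n 0 z (n 0 z (n 0 z (n 0 z (n 0 z
 (n 0 z z)))))) (n 2 (n 0 z (n 0 z (n 0 z (n 0 z (n 0 z (n 0 z z)))))) z))))) (n 0 z (n 0 z (n 0
 z (n 0 z (n 0 z (n 0 z (n 0 z (n 0 z z))))))))))))))))))))))))))))) (n 105 (n 0 z (n 0 z (n 0 z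
 (n 0 z (n 0 z (n 0 z (n 0 z (n 0 z (n 0 z (n 0 z (n 0 z (n 0 z (n 0 z (n 0 z (n 0 z (n 0 z (n 0
 z (n 0 z (n 0 z (n 0 z (n 0 z (n 0 z (n 0 z (n 0 z (n 0 z (n 0 z (n 0 z (n 0 z (n 0 z
 z))))))))))))))))))))))))))))) (n 105 (n 0 z (n 0 z (n 0 z (n 0 z (n 0 z (n 0 z (n 0 z (n 0 z
 (n 0 z (n 0 z (n 0 z (n 0 z (n 0 z (n 0 z (n 0 z (n 0 z (n 0 z (n 0 z (n 0 z (n 0 z (n 0 z (n 0
 z (n 0 z (n 0 z (n 0 z (n 0 z (n 0 z (n 0 z (n 0 z z))))))))))))))))))))))))))))) (n 17 (n 0 z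
 (n 0 z (n 0 z (n 0 z (n 0 z (n 0 z (n 0 z (n 0 z (n 0 z (n 0 z (n 0 z z))))))))))) (n 17 (n 0 z
 (n 0 z (n 2 (n 0 z z) (n 0 z (n 0 z (n 0 z (n 0 z (n 0 z (n 0 z (n 0 z (n 0 z z))))))))))) (n
 17 (n 0 z (n 0 z (n 0 z (n 0 z (n 0 z (n 0 z (n 0 z (n 0 z (n 0 z (n 2 z (n 0 z z)))))))))))
 z)))))))))) (n 0 (n 0 z (n 0 z (n 0 z (n 51 (n 0 z (n 0 z (n 0 z (n 0 z (n 0 z (n 0 z (n 0 z (n
 0 z (n 0 z (n 0 z (n 0 z z))))))))))) (n 51 (n 0 z (n 0 z (n 0 z (n 2 (n 0 z (n 2 (n 0 z (n 0 z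
 (n 0 z (n 0 z (n 0 z (n 0 z z)))))) (n 2 (n 0 z (n 0 z (n 0 z (n 0 z (n 0 z (n 0 z z)))))) (n 2
 (n 0 z (n 0 z (n 0 z (n 0 z (n 0 z (n 0 z z)))))) z)))) (n 0 z (n 0 z (n 0 z (n 0 z (n 0 z (n 0
 z (n 0 z z))))))))))) (n 51 (n 0 z (n 0 z (n 0 z (n 0 z (n 0 z (n 0 z (n 0 z (n 0 z (n 0 z (n 0
 z (n 2 (n 2 (n 0 z (n 0 z (n 0 z (n 0 z (n 0 z (n 0 z z)))))) (n 2 (n 0 z (n 0 z (n 0 z (n 0 z
 (n 0 z (n 0 z z)))))) (n 2 (n 0 z (n 0 z (n 0 z (n 0 z (n 0 z (n 0 z z)))))) z))) z)))))))))))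
 (n 53 (n 0 z (n 0 z (n 2 (n 0 z (n 0 z z)) (n 0 z (n 0 z (n 0 z (n 0 z (n 0 z (n 0 z (n 0 z (n
 0 z (n 0 z (n 0 z (n 0 z (n 0 z (n 0 z (n 0 z (n 0 z (n 0 z (n 0 z (n 0 z (n 0 z (n 0 z (n 0 z
 (n 0 z (n 0 z (n 0 z z))))))))))))))))))))))))))) (n 53 (n 0 z (n 0 z (n 0 z (n 0 z (n 0 z (n 0
 z (n 0 z (n 0 z (n 0 z (n 0 z (n 0 z (n 0 z (n 0 z (n 0 z (n 0 z (n 0 z (n 0 z (n 0 z (n 0 z (n
 0 z (n 0 z (n 0 z (n 0 z (n 0 z (n 0 z (n 0 z (n 0 z z))))))))))))))))))))))))))) (n 53 (n 0 z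
 (n 0 z (n 0 z (n 0 z (n 0 z (n 0 z (n 0 z (n 0 z (n 0 z (n 0 z (n 0 z (n 0 z (n 0 z (n 0 z (n 0
 z (n 0 z (n 0 z (n 0 z (n 0 z (n 0 z (n 0 z (n 0 z (n
 0x2ec8ec82038217a08207e082179f85f82082085d89e8a07e27607e08208a08618218207e185f89f82085f0801 z
 (n 0 z (n 0 z (n 0 z (n 0 z z))))))))))))))))))))))))))) z))))))))) (n 0 (n 0 z (n 0 z (n 3 (n
 0 z (n 0 z (n 0 z (n 0 z (n 0 z (n 0 z (n 0 z (n 0 z (n 0 z (n 0 z (n 0 z z))))))))))) (n 3 (n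
 0 z (n 0 z (n 2 (n 0 z (n 2 (n 0 z (n 0 z (n 0 z (n 0 z (n 0 z (n 0 z z)))))) (n 2 (n 0 z (n 0
 z (n 0 z (n 0 z (n 0 z (n 0 z z)))))) (n 2 (n 0 z (n 0 z (n 0 z (n 0 z (n 0 z (n 0 z z))))))
 z)))) (n 0 z (n 0 z (n 0 z (n 0 z (n 0 z (n 0 z (n 0 z (n 0 z z))))))))))) (n 3 (n 0 z (n 0 z
 (n 0 z (n 0 z (n 0 z (n 0 z (n 0 z (n 0 z (n 0 z (n 2 (n 2 (n 0 z (n 0 z (n 0 z (n 0 z (n 0 z
 (n 0 z z)))))) (n 2 (n 0 z (n 0 z (n 0 z (n 0 z (n 0 z (n 0 z z)))))) (n 2 (n 0 z (n 0 z (n 0 z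
 (n 0 z (n 0 z (n 0 z z)))))) z))) (n 0 z z))))))))))) (n 53 (n 0 z (n 0 z (n 0 z (n 0 z (n 0 z
 (n 0 z (n 0 z (n 0 z (n 0 z (n 0 z (n 2 (n 0 z (n 0 z z)) (n 0 z (n 0 z (n 0 z (n 0 z (n 0 z (n
 0 z (n 0 z (n 0 z (n 0 z (n 0 z (n 0 z (n 0 z z))))))))))))))))))))))) (n 53 (n 0 z (n 0 z (n 0
 z (n 0 z (n 0 z (n 0 z (n 0 z (n 0 z (n 0 z (n 0 z (n 0 z (n 0 z (n 0 z (n 0 z (n 0 z (n 0 z (n
 0 z (n
 0x2ec8ec82038217a08207e082179f85f82082085d89e8a07e27607e08208a08618218207e185f89f82085f0801 z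
 (n 0 z (n 0 z (n 0 z (n 0 z (n 0 z z))))))))))))))))))))))) (n 53 (n 0 z (n 0 z (n 0 z (n 0 z
 (n 0 z (n 0 z (n 0 z (n 0 z (n 0 z (n 0 z (n 0 z (n 0 z (n 0 z (n 0 z (n 0 z (n 0 z (n 0 z (n 0
 z (n 0 z (n 0 z (n 0 z (n 0 z (n 0 z z))))))))))))))))))))))) z)))))))) (n 0 (n 0 z (n 51 (n 0
 z (n 0 z (n 2 (n 0 z (n 0 z (n 2 (n 0 z (n 0 z (n 0 (n 2164843 z z) (n 0 z (n 0 z (n 0 z
 z)))))) (n 2 (n 0 z (n 0 z (n 0 z (n 0 z (n 0 z (n 0 z z)))))) (n 2 (n 0 z (n 0 z (n 0 z (n 0 z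
 (n 0 z (n 0 z z)))))) z))))) (n 0 z (n 0 z (n 0 z (n 0 z (n 0 z (n 0 z (n 0 z (n 0 z (n 0 z (n
 0 z (n 0 z (n 0 z (n 0 z (n 0 z (n 0 z (n 0 z (n 0 z (n 0 z (n 0 z (n 0 z (n 0 z (n 0 z (n 0 z
 (n 0 z (n 0 z (n 0 z z))))))))))))))))))))))))))))) (n 51 (n 0 z (n 0 z (n 0 z (n 0 z (n 0 z (n
 0 z (n 0 z (n 0 z (n 0 z (n 0 z (n 0 z (n 0 z (n 0 z (n 0 z (n 0 z (n 0 z (n 0 z (n 0 z (n 0 z
 (n 0 z (n 0 z (n 0 z (n 0 z (n 0 z (n 0 z (n 0 z (n 0 z (n 0 z (n 0 z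
 z))))))))))))))))))))))))))))) (n 51 (n 0 z (n 0 z (n 0 z (n 0 z (n 0 z (n 0 z (n 0 z (n 0 z (n
 0 z (n 0 z (n 0 z (n 0 z (n 0 z (n 0 z (n 0 z (n 0 z (n 0 z (n 0 z (n 0 z (n 0 z (n 0 z (n 0 z
 (n 0 z (n 0 z (n 0 z (n 0 z (n 0 z (n 0 z (n 0 z z))))))))))))))))))))))))))))) (n 53 (n 0 z (n
 0 z (n 0 z (n 0 z (n 0 z (n 0 z (n 0 z (n 0 z (n 0 z (n 0 z (n 0 z (n 0 z z)))))))))))) (n 53
 (n 0 z (n 0 z (n 0 z (n 0 z (n 2 (n 0 z z) (n 0 z (n 0 z (n 0 z (n 0 z (n 0 z (n 0 z (n 0 z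
 z)))))))))))) (n 53 (n 0 z (n 0 z (n 0 z (n 0 z (n 0 z (n 0 z (n 0 z (n 0 z (n 2 z (n 0 z (n 0
 z (n 0 z z)))))))))))) z))))))) (n 0 (n 483 (n 0 z (n 0 z (n 2 (n 0 z (n 0 z (n 2 (n 0 z (n 0 z
 (n 0 (n 1940 z z) (n 0 z (n 0 z (n 0 z z)))))) (n 2 (n 0 z (n 0 z (n 0 z (n 0 z (n 0 z (n 0 z
 z)))))) (n 2 (n 0 z (n 0 z (n 0 z (n 0 z (n 0 z (n 0 z z)))))) z))))) (n 0 z (n 0 z (n 0 z (n 0
 z (n 0 z (n 0 z (n 0 z (n 0 z (n 0 z (n 0 z (n 0 z (n 0 z (n 0 z (n 0 z (n 0 z (n 0 z (n 0 z (n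
 0 z (n 0 z (n 0 z (n 0 z (n 0 z (n 0 z (n 0 z (n 0 z (n 0 z (n 0 z (n 0 z (n 0 z (n 0 z (n 0 z
 (n 0 z (n 0 z z)))))))))))))))))))))))))))))))))))) (n 483 (n 0 z (n 0 z (n 0 z (n 0 z (n 0 z
 (n 0 z (n 0 z (n 0 z (n 0 z (n 0 z (n 0 z (n 0 z (n 0 z (n 0 z (n 0 z (n 0 z (n 0 z (n 0 z (n 0
 z (n 0 z (n 0 z (n 0 z (n 0 z (n 0 z (n 0 z (n 0 z (n 0 z (n 0 z (n 0 z (n 0 z (n 0 z (n 0 z (n
 0 z (n 0 z (n 0 z (n 0 z z)))))))))))))))))))))))))))))))))))) (n 483 (n 0 z (n 0 z (n 0 z (n 0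
 z (n 0 z (n 0 z (n 0 z (n 0 z (n 0 z (n 0 z (n 0 z (n 0 z (n 0 z (n 0 z (n 0 z (n 0 z (n 0 z (n
 0 z (n 0 z (n 0 z (n 0 z (n 0 z (n 0 z (n 0 z (n 0 z (n 0 z (n 0 z (n 0 z (n 0 z (n 0 z (n 0 z
 (n 0 z (n 0 z (n 0 z (n 0 z (n 0 z z)))))))))))))))))))))))))))))))))))) (n 485 (n 0 z (n 0 z
 (n 0 z (n 0 z (n 0 z (n 0 z (n 0 z (n 0 z (n 0 z (n 0 z (n 0 z (n 0 z z)))))))))))) (n 485 (n 0
 z (n 0 z (n 2 (n 0 z z) (n 0 z (n 0 z (n 0 z (n 0 z (n 0 z (n 0 z (n 0 z (n 0 z (n 0 z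
 z)))))))))))) (n 485 (n 0 z (n 0 z (n 0 z (n 0 z (n 0 z (n 0 z (n 0 z (n 2 z (n 0 z (n 0 z (n 0
 z (n 0 z z)))))))))))) z)))))) (n 0 (n 0 z (n 0 z (n 13 (n 0 z (n 0 z (n 0 z (n 2 (n 0 z (n 0 z
 z)) (n 0 z z))))) (n 13 (n 0 z (n 0 z (n 0 z (n 0 z (n 0 z z))))) (n 13 (n 0 z (n 0 z (n 0 z (n
 0 z (n 0 z z))))) z))))) (n 0 (n 0 z (n 13 (n 0 z (n 0 z (n 0 z (n 0 z (n 0 z (n 0 z (n 0 z (n
 0 z z)))))))) (n 13 (n 0 z (n 0 z (n 0 z (n 0 z (n 0 z (n 0 z (n 0 z (n 0 z z)))))))) (n 13 (n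
 0 z (n 0 z (n 0 z (n 0 z (n 0 z (n 0 z (n 0 z (n 0 z z)))))))) z)))) (n 0 (n 253 (n 0 z (n 0 z
 (n 0 z (n 0 z (n 0 z (n 0 z (n 0 z (n 0 z z)))))))) (n 253 (n 0 z (n 0 z (n 0 z (n 0 z (n 0 z
 (n 0 z (n 0 z (n 0 z z)))))))) (n 253 (n 0 z (n 0 z (n 0 z (n 0 z (n 0 z (n 0 z (n 0 z (n 0 z
 z)))))))) z))) (n 0 (n 0 z (n 0 z z)) (n 0 (n 0 z z) (n 0 z z)))))))))))) (n 0 (n 0 z (n 1 (n
 6496515 z (n 6496515 z (n 6496515 z (n 6496515 z (n 6496515 z (n 6496515 z z)))))) z)) (n 0 z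
 z)))) (n 0x13396879d941d74b83d2c81eb210ec731135708ba33058d96256e1c3446311a (n 0 (n 153 (n 0 z
 (n 0 z (n 0 z (n 0 z (n 6496275 z z))))) (n 33 (n 0 z (n 0 z (n 0 z (n 0 z (n 6496515 z z)))))
 (n 9 (n
 0x2ca8a8620775f91d6a266b75f81a8e48e08e095c89e8618d882082079c8217e585b823a5d8e27a17e17a00801 z
 (n 0 z (n
 0x2ca8a806037a08e37a176281f81a8de89f82089d7e19207e082082082182086281f8228218217e181f7e00801 z
 (n 2 z (n 0 z (n 0 z (n 0 z (n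
 0xca6ca620782086082082082081e86082082182082086081f8608208217e08217e08218208207e08208200801 z (n
 0 z (n 0 z (n 0 z (n 0 z (n 0 z (n 0 z (n 0 z (n 0 z (n 0 z (n 0 z (n
 0x165454030182ca8a8620761ca1f2a36b0725913962a66ae0a5891692399b72489c6616e36aa8617a291c8e17a37e585f1001
 z (n 0 z (n 0 z (n 6496515 z (n 0 z (n 0 z (n 0 z (n 10 z (n 6496523 z (n 0 z (n 0 z (n 6496515
 z (n 6496515 z z))))))))))))))))))))))))))))))) (n 27 (n 18 z (n 26 z (n 34 z (n 6496515 z (n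
 6496515 z (n 42 z z)))))) (n 7 (n
 0x65452130184ca8a642078607647df89d82186381e7e281f79f8618208257607a086285f7df82381e76282089e81f8601001
 z (n
 0x2ca8a402038207dda5f75d82179d91f69d7e18dc8229606e38607e08a47e382186281f7e18217df75f89e0801 z
 (n 50 z (n
 0xca6ca64077df89c8607a285e85d8628218218a17df7e085a89f85f7a08207e281c82389d8a27a489f7a20801 z (n
 0x2ca6ca640781d8de8607e27e19217a27608a17a181d79e85d8a189f7e285f86189d86285c8e07e08607df0801 z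
 (n 58 z (n 6558219 z (n 6558219 z (n
 0x6ca4ca060789d89e89c7de8e19a372279f82182181d71e81c8a089e8666e37dd91d7e27e08a07e082179f0801 z
 (n 66 z z)))))))))) (n 0 (n 74 z (n 82 z (n 90 z (n 6619675 z (n 0 z z))))) z)))))) (n 153 (n 0
 (n 0 z (n 7 (n 2 (n 0 z (n 0 z (n 0 z (n 1 z (n 1 z (n 2 (n 0 z (n 0 (n 8718187 z z) (n 0 z (n
 0 z (n 0 z (n 0 z z)))))) (n 1 z (n 1 z (n 1 z z))))))))) (n 0 z (n 0 z (n 0 z (n 0 z (n 0 z (n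
 0 z z))))))) (n 7 (n 0 z (n 0 z (n 0 z (n 0 z (n 0 z (n 0 z (n 0 z z))))))) (n 7 (n 0 z (n 0 z
 (n 0 z (n 0 z (n 0 z (n 0 z (n 0 z z))))))) (n 7 (n 0 z (n 0 z (n 0 z (n 0 z (n 0 z (n 2 (n 2
 (n 0 z (n 0 z (n 0 z (n 0 z (n 0 z (n 0 z z)))))) (n 2 (n 0 z (n 0 z (n 0 z (n 0 z (n 0 z (n 0
 z z)))))) (n 2 (n 0 z (n 0 z (n 0 z (n 0 z (n 0 z (n 0 z z)))))) (n 2 (n 0 z (n 0 (n 388 z z)
 (n 0 z (n 0 z (n 0 z (n 0 z z)))))) (n 2 (n 0 z (n 0 z (n 0 z (n 0 z (n 0 z (n 0 z z)))))) (n 2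
 (n 0 z (n 0 z (n 0 z (n 0 z (n 0 z (n 0 z z)))))) z)))))) (n 0 z z))))))) (n 99 (n 0 z (n 0 z
 (n 0 z (n 0 z (n 0 z (n 0 z (n 0 z (n 0 z (n 0 z (n 0 z z)))))))))) (n 99 (n 0 z (n 2 (n 0 z (n
 2 (n 0 z (n 0 z (n 0 z (n 0 z (n 0 z (n 0 z z)))))) (n 2 (n 0 z (n 0 (n 388 z z) (n 0 z (n 0 z
 (n 0 z (n 0 z z)))))) (n 2 (n 0 z (n 0 (n 388 z z) (n 0 z (n 0 z (n 0 z (n 0 z z)))))) z)))) (n
 0 z (n 0 z (n 0 z (n 0 z (n 0 z (n 0 z (n 0 z (n 0 z z)))))))))) (n 99 (n 0 z (n 0 z (n 0 z (n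
 0 z (n 0 z (n 0 z (n 2 (n 2 (n 0 z (n 0 z (n 0 z (n 0 z (n 0 z (n 0 z z)))))) (n 2 (n 0 z (n 0
 z (n 0 z (n 0 z (n 0 z (n 0 z z)))))) (n 2 (n 0 z (n 0 z (n 0 z (n 0 z (n 0 z (n 0 z z))))))
 z))) (n 0 z (n 0 z (n 0 z z)))))))))) (n 97 (n 2 (n 0 z (n 0 z z)) (n 0 z (n 0 z (n 0 z (n 0 z
 (n 0 z (n 0 z (n 0 z (n 0 z (n 0 z z)))))))))) (n 97 (n 0 z (n 0 z (n 0 z (n 0 z (n 0 z (n 0 z
 (n 0 z (n 0 z (n 0 z (n 0 z z)))))))))) (n 97 (n 0 z (n 0 z (n 0 z (n 0 z (n 0 z (n 0 z (n 0 z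
 (n 0 z (n 0 z (n 0 z z)))))))))) z))))))))))) (n 0 (n 27 (n 2 (n 0 z (n 0 z (n 0 z (n 2 (n 0 z
 (n 0 (n 420 z z) (n 0 z (n 0 z (n 0 z (n 0 z z)))))) (n 2 (n 0 z (n 0 z (n 0 z (n 0 z (n 0 z (n
 0 z z)))))) (n 2 (n 0 z (n 0 z (n 0 z (n 0 z (n 0 z (n 0 z z)))))) (n 2 (n 0 z (n 0 z (n 0 z (n
 0 z (n 0 z (n 0 z z)))))) (n 2 (n 0 z (n 0 z (n 0 z (n 0 z (n 0 z (n 0 z z)))))) (n 2 (n 0 z (n
 0 z (n 0 z (n 0 z (n 0 z (n 0 z z)))))) z))))))))) (n 0 z (n 0 z (n 0 z (n 0 z (n 0 z z))))))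
 (n 27 (n 0 z (n 0 z (n 0 z (n 0 z (n 0 z (n 0 z z)))))) (n 27 (n 0 z (n 0 z (n 0 z (n 0 z (n 0
 z (n 0 z z)))))) (n 27 (n 0 z (n 0 z (n 0 z (n 0 z (n 2 (n 1 z (n 1 z (n 1 z (n 1 z (n 2 (n 0 z
 (n 0 (n 8656747 z z) (n 0 z (n 0 z (n 0 z (n 0 z z)))))) (n 1 z z)))))) (n 0 z z)))))) (n 105
 (n 0 z (n 0 z (n 0 z (n 0 z (n 0 z (n 0 z (n 0 z (n 0 z (n 0 z (n 0 z (n 0 z (n 0 z (n 0 z (n 0
 z (n 0 z (n 0 z (n 0 z (n 0 z (n 0 z (n 0 z (n 0 z (n 2 (n 0 z (n 0 z (n 2 (n 0 z (n 0 z (n 0 z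
 (n 0 z (n 0 z (n 0 z z)))))) (n 2 (n 0 z (n 0 z (n 0 z (n 0 z (n 0 z (n 0 z z)))))) (n 2 (n 0 z
 (n 0 z (n 0 z (n 0 z (n 0 z (n 0 z z)))))) z))))) (n 0 z (n 0 z (n 0 z (n 0 z (n 0 z (n 0 z (n
 0 z z))))))))))))))))))))))))))))) (n 105 (n 0 z (n 0 z (n 0 z (n 0 z (n 0 z (n 0 z (n 0 z (n 0
 z (n 0 z (n 0 z (n 0 z (n 0 z (n 0 z (n 0 z (n 0 z (n 0 z (n 0 z (n 0 z (n 0 z (n 0 z (n 0 z (n
 0 z (n 0 z (n 0 z (n 0 z (n 0 z (n 0 z (n 0 z (n 0 z z))))))))))))))))))))))))))))) (n 105 (n 0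
 z (n 0 z (n 0 z (n 0 z (n 0 z (n 0 z (n 0 z (n 0 z (n 0 z (n 0 z (n 0 z (n 0 z (n 0 z (n 0 z (n
 0 z (n 0 z (n 0 z (n 0 z (n 0 z (n 0 z (n 0 z (n 0 z (n 0 z (n 0 z (n 0 z (n 0 z (n 0 z (n 0 z
 (n 0 z z))))))))))))))))))))))))))))) (n 17 (n 0 z (n 0 z (n 0 z (n 0 z (n 0 z (n 0 z (n 0 z (n
 0 z z)))))))) (n 17 (n 2 (n 0 z z) (n 0 z (n 0 z (n 0 z (n 0 z (n 0 z (n 0 z (n 0 z z))))))))
 (n 17 (n 0 z (n 0 z (n 0 z (n 0 z (n 0 z (n 0 z (n 2 z (n 0 z z)))))))) z)))))))))) (n 0 (n 0 z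
 (n 0 z (n 0 z (n 51 (n 0 z (n 0 z (n 0 z (n 0 z (n 0 z (n 0 z (n 0 z (n 0 z z)))))))) (n 51 (n
 0 z (n 2 (n 0 z (n 2 (n 0 z (n 0 z (n 0 z (n 0 z (n 0 z (n 0 z z)))))) (n 2 (n 0 z (n 0 z (n 0
 z (n 0 z (n 0 z (n 0 z z)))))) (n 2 (n 0 z (n 0 z (n 0 z (n 0 z (n 0 z (n 0 z z)))))) z)))) (n
 0 z (n 0 z (n 0 z (n 0 z (n 0 z (n 0 z z)))))))) (n 51 (n 0 z (n 0 z (n 0 z (n 0 z (n 0 z (n 0
 z (n 0 z (n 2 (n 2 (n 0 z (n 0 z (n 0 z (n 0 z (n 0 z (n 0 z z)))))) (n 2 (n 0 z (n 0 z (n 0 z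
 (n 0 z (n 0 z (n 0 z z)))))) (n 2 (n 0 z (n 0 z (n 0 z (n 0 z (n 0 z (n 0 z z)))))) z)))
 z)))))))) (n 53 (n 0 z (n 2 (n 0 z (n 0 z z)) (n 0 z (n 0 z (n 0 z (n 0 z (n 0 z (n 0 z
 z)))))))) (n 53 (n 0 z (n 0 z (n 0 z (n 0 z (n 0 z (n 0 z (n 0 z (n 0 z z)))))))) (n 53 (n 0 z
 (n 0 z (n 0 z (n 0 z (n 0 z (n 0 z (n 0 z (n 0 z z)))))))) z))))))))) (n 0 (n 0 z (n 0 z (n 3
 (n 0 z (n 0 z (n 0 z (n 0 z (n 0 z (n 0 z (n 0 z (n 0 z z)))))))) (n 3 (n 2 (n 0 z (n 2 (n 0 z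
 (n 0 z (n 0 z (n 0 z (n 0 z (n 0 z z)))))) (n 2 (n 0 z (n 0 z (n 0 z (n 0 z (n 0 z (n 0 z
 z)))))) (n 2 (n 0 z (n 0 z (n 0 z (n 0 z (n 0 z (n 0 z z)))))) z)))) (n 0 z (n 0 z (n 0 z (n 0
 z (n 0 z (n 0 z (n 0 z z)))))))) (n 3 (n 0 z (n 0 z (n 0 z (n 0 z (n 0 z (n 0 z (n 2 (n 2 (n 0
 z (n 0 z (n 0 z (n 0 z (n 0 z (n 0 z z)))))) (n 2 (n 0 z (n 0 z (n 0 z (n 0 z (n 0 z (n 0 z
 z)))))) (n 2 (n 0 z (n 0 z (n 0 z (n 0 z (n 0 z (n 0 z z)))))) z))) (n 0 z z)))))))) (n 53 (n 0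
 z (n 0 z (n 0 z (n 2 (n 0 z (n 0 z z)) (n 0 z (n 0 z (n 0 z (n 0 z (n 0 z (n 0 z z)))))))))) (n
 53 (n 0 z (n 0 z (n 0 z (n 0 z (n 0 z (n 0 z (n 0 z (n 0 z (n 0 z (n 0 z z)))))))))) (n 53 (n 0
 z (n 0 z (n 0 z (n 0 z (n 0 z (n 0 z (n 0 z (n 0 z (n 0 z (n 0 z z)))))))))) z)))))))) (n 0 (n
 0 z (n 51 (n 0 z (n 0 z (n 0 z (n 2 (n 0 z (n 0 z (n 2 (n 0 z (n 0 (n 2164843 z z) (n 0 z (n 0
 z (n 0 z (n 0 z z)))))) (n 2 (n 0 z (n 0 z (n 0 z (n 0 z (n 0 z (n 0 z z)))))) (n 2 (n 0 z (n 0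
 z (n 0 z (n 0 z (n 0 z (n 0 z z)))))) z))))) (n 0 z (n 0 z (n 0 z (n 0 z (n 0 z (n 0 z (n 0 z
 (n 0 z (n 0 z (n 0 z (n 0 z (n 0 z (n 0 z (n 0 z (n 0 z (n 0 z (n 0 z (n 0 z (n 0 z (n 0 z (n 0
 z (n 0 z (n 0 z (n 0 z (n 0 z z))))))))))))))))))))))))))))) (n 51 (n 0 z (n 0 z (n 0 z (n 0 z
 (n 0 z (n 0 z (n 0 z (n 0 z (n 0 z (n 0 z (n 0 z (n 0 z (n 0 z (n 0 z (n 0 z (n 0 z (n 0 z (n 0
 z (n 0 z (n 0 z (n 0 z (n 0 z (n 0 z (n 0 z (n 0 z (n 0 z (n 0 z (n 0 z (n 0 z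
 z))))))))))))))))))))))))))))) (n 51 (n 0 z (n 0 z (n 0 z (n 0 z (n 0 z (n 0 z (n 0 z (n 0 z (n
 0 z (n 0 z (n 0 z (n 0 z (n 0 z (n 0 z (n 0 z (n 0 z (n 0 z (n 0 z (n 0 z (n 0 z (n 0 z (n 0 z
 (n 0 z (n 0 z (n 0 z (n 0 z (n 0 z (n 0 z (n 0 z z))))))))))))))))))))))))))))) (n 53 (n 0 z (n
 0 z (n 0 z (n 0 z (n 0 z (n 0 z (n 0 z (n 0 z (n 0 z (n 0 z z)))))))))) (n 53 (n 0 z (n 2 (n 0
 z z) (n 0 z (n 0 z (n 0 z (n 0 z (n 0 z (n 0 z (n 0 z (n 0 z z)))))))))) (n 53 (n 0 z (n 0 z (n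
 0 z (n 0 z (n 0 z (n 0 z (n 2 z (n 0 z (n 0 z (n 0 z z)))))))))) z))))))) (n 0 (n 483 (n 0 z (n
 0 z (n 0 z (n 2 (n 0 z (n 0 z (n 2 (n 0 z (n 0 (n 1940 z z) (n 0 z (n 0 z (n 0 z (n 0 z z))))))
 (n 2 (n 0 z (n 0 z (n 0 z (n 0 z (n 0 z (n 0 z z)))))) (n 2 (n 0 z (n 0 z (n 0 z (n 0 z (n 0 z
 (n 0 z z)))))) z))))) (n 0 z (n 0 z (n 0 z (n 0 z (n 0 z (n 0 z (n 0 z (n 0 z (n 0 z (n 0 z (n
 0 z (n 0 z (n 0 z (n 0 z (n 0 z (n 0 z (n 0 z (n 0 z (n 0 z (n 0 z (n 0 z (n 0 z (n 0 z (n 0 z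
 (n 0 z (n 0 z (n 0 z (n 0 z (n 0 z (n 0 z (n 0 z (n 0 z z))))))))))))))))))))))))))))))))))))
 (n 483 (n 0 z (n 0 z (n 0 z (n 0 z (n 0 z (n 0 z (n 0 z (n 0 z (n 0 z (n 0 z (n 0 z (n 0 z (n 0
 z (n 0 z (n 0 z (n 0 z (n 0 z (n 0 z (n 0 z (n 0 z (n 0 z (n 0 z (n 0 z (n 0 z (n 0 z (n 0 z (n
 0 z (n 0 z (n 0 z (n 0 z (n 0 z (n 0 z (n 0 z (n 0 z (n 0 z (n 0 z
 z)))))))))))))))))))))))))))))))))))) (n 483 (n 0 z (n 0 z (n 0 z (n 0 z (n 0 z (n 0 z (n 0 z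
 (n 0 z (n 0 z (n 0 z (n 0 z (n 0 z (n 0 z (n 0 z (n 0 z (n 0 z (n 0 z (n 0 z (n 0 z (n 0 z (n 0
 z (n 0 z (n 0 z (n 0 z (n 0 z (n 0 z (n 0 z (n 0 z (n 0 z (n 0 z (n 0 z (n 0 z (n 0 z (n 0 z (n
 0 z (n 0 z z)))))))))))))))))))))))))))))))))))) (n 485 (n 0 z (n 0 z (n 0 z (n 0 z (n 0 z (n 0
 z (n 0 z (n 0 z (n 0 z (n 0 z z)))))))))) (n 485 (n 2 (n 0 z z) (n 0 z (n 0 z (n 0 z (n 0 z (n
 0 z (n 0 z (n 0 z (n 0 z (n 0 z z)))))))))) (n 485 (n 0 z (n 0 z (n 0 z (n 0 z (n 0 z (n 2 z (n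
 0 z (n 0 z (n 0 z (n 0 z z)))))))))) z)))))) (n 0 (n 0 z (n 0 z (n 13 (n 0 z (n 0 z (n 0 z (n 2
 (n 0 z (n 0 z z)) (n 0 z z))))) (n 13 (n 0 z (n 0 z (n 0 z (n 0 z (n 0 z z))))) (n 13 (n 0 z (n
 0 z (n 0 z (n 0 z (n 0 z z))))) z))))) (n 0 (n 0 z (n 13 (n 0 z (n 0 z (n 0 z (n 0 z (n 0 z (n
 0 z (n 0 z (n 0 z (n 0 z (n 0 z (n 0 z (n 0 z z)))))))))))) (n 13 (n 0 z (n 0 z (n 0 z (n 0 z
 (n 0 z (n 0 z (n 0 z (n 0 z (n 0 z (n 0 z (n 0 z (n 0 z z)))))))))))) (n 13 (n 0 z (n 0 z (n 0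
 z (n 0 z (n 0 z (n 0 z (n 0 z (n 0 z (n 0 z (n 0 z (n 0 z (n 0 z z)))))))))))) z)))) (n 0 (n
 253 (n 0 z (n 0 z (n 0 z (n 0 z (n 0 z (n 0 z (n 0 z (n 0 z (n 0 z (n 0 z (n 0 z (n 0 z
 z)))))))))))) (n 253 (n 0 z (n 0 z (n 0 z (n 0 z (n 0 z (n 0 z (n 0 z (n 0 z (n 0 z (n 0 z (n 0
 z (n 0 z z)))))))))))) (n 253 (n 0 z (n 0 z (n 0 z (n 0 z (n 0 z (n 0 z (n 0 z (n 0 z (n 0 z (n
 0 z (n 0 z (n 0 z z)))))))))))) z))) (n 0 (n 0 z (n 0 z z)) (n 0 (n 0 z z) (n 0 z z))))))))))))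
 (n 0 (n 0 z (n 0 z (n 0 z (n 0 z (n 1 (n 6496515 z (n 6496275 z (n 6496275 z (n 6496275 z (n
 6496275 z (n 6496275 z z)))))) z))))) (n 0 z z)))) (n
 0x2671512a66e07391c09968868b648d56644a91211489680 (n 0 (n 573 (n 6623283 z (n 5510667 z (n
 0x4ca6a6240391f82081e7a082086182082081e7e082082082181f8207df81f82082082085f8e08608218200801 z
 (n 0 z (n 6623283 z (n 2 z (n 0 z (n 6623283 z (n 6554939 z (n 0 z (n 0 z (n 0 z (n 0 z (n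
 0x64263150180ca4c628078a08237e081f7e086081f86182076079f8208608617e086186286081f7e079f7df8208207e01001
 z (n 6623283 z z))))))))))))))) (n 571 (n 6623283 z (n 0 z z)) (n 570 (n 6496523 z (n 10 z (n 0
 z (n 18 z (n 26 z (n 6496523 z z)))))) (n 3 (n 34 z (n 0 z (n 6636291 z (n 42 z (n 6636291 z (n
 0 z z)))))) (n 1 (n 0 z (n 6636291 z (n 0 z (n 0 z (n 0 z (n 0 z (n 0 z (n 0 z (n 0 z (n 0 z (n
 0 z (n 0 z (n 50 z (n 0 z (n 0 z z))))))))))))))) (n 0 (n 6636291 z (n 0 z (n 6636291 z (n 58 z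
 (n 66 z (n 6636291 z (n 0 z (n 6623283 z z)))))))) z)))))) (n 571 (n 0 (n 993 (n 0 z (n 0 z (n
 0 z (n 0 z (n 0 z (n 0 z (n 0 z (n 0 z (n 0 z (n 0 z (n 0 z z))))))))))) (n 993 (n 0 z (n 0 z
 (n 0 z (n 0 z (n 0 z (n 0 z (n 0 z (n 0 z (n 0 z (n 0 z (n 0 z z))))))))))) (n 993 (n 0 z (n 0
 z (n 0 z (n 0 z (n 0 z (n 0 z (n 0 z (n 0 z (n 0 z (n 0 z (n 0 z z))))))))))) (n 997 (n 0 z (n
 0 z (n 0 z (n 0 z (n 0 z (n 0 z (n 0 z (n 0 z (n 0 z (n 0 z z)))))))))) (n 997 (n 0 z (n 0 z (n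
 0 z (n 0 z (n 0 z (n 0 z (n 0 z (n 0 z (n 0 z (n 0 z z)))))))))) (n 105 (n 0 z (n 0 z (n 0 z (n
 0 z (n 0 z (n 0 z (n 0 z z))))))) (n 121 (n 0 z (n 0 z (n 0 z (n 0 z (n 0 z (n 0 z (n 0 z
 z))))))) (n 121 (n 2 z (n 0 z (n 0 z (n 0 z (n 0 z (n 0 z (n 0 z z))))))) z)))))))) (n 0 (n 0 z
 (n 0 z (n 1093 (n 0 z (n 0 z (n 0 z (n 0 z (n 0 z (n 0 z (n 0 z (n 0 z (n 0 z (n 0 z (n 0 z (n
 0 z (n 0 z (n 0 z (n 0 z (n 0 z (n 0 z z))))))))))))))))) (n 1093 (n 0 z (n 0 z (n 0 z (n 0 z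
 (n 0 z (n 0 z (n 0 z (n 0 z (n 0 z (n 0 z (n 0 z (n 0 z (n 0 z (n 0 z (n 0 z (n 0 z (n 0 z
 z))))))))))))))))) (n 51 (n 0 z (n 0 z (n 0 z z))) (n 601 (n 0 z (n 0 z (n 0 z (n 0 z (n 0 z (n
 0 z (n 0 z (n 0 z (n 0 z (n 0 z (n 0 z (n 0 z z)))))))))))) (n 601 (n 0 z (n 0 z (n 0 z (n 0 z
 (n 0 z (n 0 z (n 0 z (n 0 z (n 0 z (n 0 z (n 0 z (n 0 z z)))))))))))) z))))))) (n 0 (n 0 z (n
 1157 (n 0 z (n 0 z (n 2 (n 0 z (n 1 z (n 1 z (n 1 z z)))) (n 0 z (n 0 z (n 0 z (n 0 z z)))))))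
 (n 1157 (n 0 z (n 0 z (n 0 z (n 0 z (n 0 z (n 0 z (n 0 z z))))))) (n 21 (n 0 z (n 0 z (n 0 z (n
 0 z (n 0 z (n 0 z (n 0 z z))))))) (n 889 (n 0 z (n 0 z (n 0 z (n 0 z (n 0 z z))))) (n 889 (n 0
 z (n 0 z (n 0 z (n 0 z (n 0 z z))))) z)))))) (n 0 (n 1177 (n 0 z (n 7754563 z (n 0 z (n 0 z (n
 0 z (n 0 z (n 0 z (n 0 z (n 0 z (n 0 z (n 0 z (n 0 z (n 0 z z))))))))))))) (n 1177 (n 0 z (n 0
 z (n 0 z (n 0 z (n 0 z (n 0 z (n 0 z (n 0 z (n 0 z (n 0 z (n 0 z (n 0 z (n 0 z z)))))))))))))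
 (n 853 (n 0 z (n 0 z (n 0 z (n 0 z (n 0 z (n 0 z (n 0 z (n 0 z (n 0 z (n 0 z (n 0 z (n 0 z (n 0
 z (n 0 z (n 0 z (n 0 z (n 0 z (n 0 z (n 0 z (n 0 z z)))))))))))))))))))) (n 889 (n 0 z (n 0 z
 (n 0 z (n 0 z (n 0 z (n 0 z (n 0 z (n 0 z z)))))))) (n 889 (n 0 z (n 0 z (n 0 z (n 0 z (n 0 z
 (n 0 z (n 0 z (n 0 z z)))))))) z))))) (n 0 (n 0 z (n 3 (n 0 z (n 0 z (n 0 z (n 0 z (n 0 z (n 0
 z (n 0 z (n 0 z (n 0 z (n 0 z (n 0 z (n 0 z z)))))))))))) (n 1 (n 0 z (n 0 z (n 0 z (n 0 z (n 0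
 z (n 0 z (n 0 z z))))))) (n 1 (n 0 z (n 0 z (n 0 z (n 0 z (n 2 z (n 0 z (n 0 z z))))))) z))))
 (n 0 (n 51 (n 0 z (n 0 z (n 0 z (n 0 z (n 0 z z))))) (n 49 (n 0 z (n 0 z (n 0 z (n 0 z z)))) (n
 49 (n 0 z (n 0 z (n 0 z (n 0 z z)))) z))) (n 0 (n 241 (n 0 z (n 0 z (n 0 z (n 0 z (n 0 z (n 0 z
 (n 0 z (n 0 z z)))))))) (n 241 (n 0 z (n 0 z (n 0 z (n 0 z (n 0 z (n 0 z (n 0 z (n 0 z
 z)))))))) z)) (n 0 (n 0 z z) (n 0 z z))))))))) (n 0 (n 1 (n 6623283 z (n 6623283 z (n 6623283 z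
 (n 6623283 z (n 6623283 z (n 6623283 z z)))))) (n 0 z z)) (n 0 z z)))) (n
 0xc5c545c8bb0645c98351ca116f680a52e05a9720ce84a025c88111b00 (n 0x25c8b (n 153 (n 0 z (n 0 z (n
 0 z (n 6554395 z (n 0 z (n 0 z (n 0 z (n 0 z (n 2 z (n 0 z (n 6492227 z (n 0 z (n 10 z (n 0 z
 (n 0 z (n 0 z (n 0 z (n 6492227 z (n 18 z (n 0 z z)))))))))))))))))))) (n 57 (n 6492227 z (n
 6496515 z (n 0 z (n 0 z (n 6496515 z (n 0 z (n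
 0x4ca6ca04037e27e18607de86081f7e08a28218208207e081f79e8a076179f7df86182082189f8208218210801 z
 (n 0 z (n 26 z (n 0 z (n 6496515 z (n 0 z (n 0 z z))))))))))))) (n 9 (n 0 z (n 6496515 z (n 0 z
 (n 34 z (n 6496515 z (n 42 z z)))))) (n 123 (n 0 z (n 0 z (n 6636307 z (n 50 z (n 58 z (n
 6496515 z (n 0 z (n 6492227 z z)))))))) (n 1 (n 6562099 z (n 6636307 z (n 6636307 z (n 66 z
 z)))) (n 0 (n 6636307 z (n 0 z (n 0 z (n 0 z (n 0 z (n 0 z (n 0 z (n 0 z (n 74 z (n 0 z (n 0 z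
 (n 82 z (n 0 z (n 0 z (n 0 z (n 0 z z)))))))))))))))) z)))))) (n 1 (n 0 (n 0 z (n 0 z (n 131 (n
 0 z (n 0 z (n 0 z (n 0 z (n 0 z (n 0 z (n 0 z (n 0 z (n 0 z (n 0 z (n 0 z (n 0 z (n 0 z (n 0 z
 (n 0 z (n 0 z (n 0 z z))))))))))))))))) (n 123 (n 0 z (n 0 z (n 0 z z))) (n 123 (n 0 z (n 0 z
 (n 0 z z))) (n 1153 (n 0 z (n 0 z z)) (n 1153 (n 0 z (n 0 z z)) (n 309 (n 0 z (n 0 z (n 0 z (n
 0 z (n 0 z (n 0 z (n 0 z z))))))) (n 121 (n 0 z (n 0 z (n 0 z (n 0 z (n 0 z (n 0 z z)))))) (n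
 121 (n 0 z (n 0 z (n 2 z (n 0 z (n 0 z (n 0 z z)))))) z)))))))))) (n 0 (n 0 z (n 1191 (n 0 z (n
 0 z (n 0 z (n 0 z (n 0 z (n 0 z (n 0 z (n 0 z z)))))))) (n 1173 (n 0 z (n 0 z (n 0 z (n 0 z (n
 0 z (n 0 z (n 0 z z))))))) (n 1173 (n 0 z (n 0 z (n 0 z (n 0 z (n 0 z (n 0 z (n 0 z z))))))) (n
 251 (n 0 z (n 0 z (n 0 z (n 0 z (n 0 z (n 0 z (n 0 z (n 0 z z)))))))) (n 251 (n 0 z (n 0 z (n 0
 z (n 0 z (n 0 z (n 0 z (n 0 z (n 0 z z)))))))) (n 291 (n 0 z (n 0 z (n 0 z (n 0 z z)))) (n 289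
 (n 0 z (n 0 z (n 0 z (n 0 z (n 0 z (n 0 z z)))))) (n 289 (n 0 z (n 0 z (n 0 z (n 0 z (n 0 z (n
 0 z z)))))) z))))))))) (n 0 (n 115 (n 0 z (n 0 z (n 0 z (n 0 z (n 0 z (n 0 z (n 0 z (n 0 z (n 0
 z (n 0 z (n 0 z (n 0 z (n 0 z (n 0 z (n 0 z z))))))))))))))) (n 103 (n 0 z (n 0 z (n 0 z (n 0 z
 (n 0 z (n 0 z (n 0 z (n 0 z (n 0 z (n 0 z (n 0 z (n 0 z (n 0 z z))))))))))))) (n 103 (n 0 z (n
 0 z (n 0 z (n 0 z (n 0 z (n 0 z (n 0 z (n 0 z (n 0 z (n 0 z (n 0 z (n 0 z (n 0 z z)))))))))))))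
 (n 535 (n 0 z (n 0 z (n 0 z (n 0 z z)))) (n 535 (n 0 z (n 0 z (n 0 z (n 0 z z)))) (n 483 (n 0 z
 (n 0 z z)) (n 481 (n 0 z (n 0 z (n 0 z (n 0 z (n 0 z (n 0 z (n 0 z (n 0 z (n 0 z z))))))))) (n
 481 (n 0 z (n 0 z (n 0 z (n 0 z (n 0 z (n 0 z (n 0 z (n 2 z (n 0 z z))))))))) z)))))))) (n 0 (n
 123 (n 0 z (n 0 z (n 0 z (n 0 z (n 0 z (n 0 z (n 0 z z))))))) (n 123 (n 0 z (n 0 z (n 0 z (n 0
 z (n 0 z (n 0 z (n 0 z z))))))) (n 487 (n 0 z (n 0 z (n 0 z z))) (n 487 (n 0 z (n 0 z (n 0 z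
 z))) (n 63 (n 0 z (n 0 z z)) (n 61 (n 0 z (n 0 z (n 0 z (n 0 z (n 0 z (n 0 z (n 0 z (n 0 z (n 0
 z z))))))))) (n 61 (n 0 z (n 0 z (n 0 z (n 0 z (n 0 z (n 0 z (n 0 z (n 0 z (n 0 z z)))))))))
 z))))))) (n 0 (n 0 z (n 247 (n 0 z (n 0 z (n 0 z (n 0 z (n 0 z z))))) (n 247 (n 0 z (n 0 z (n 0
 z (n 0 z (n 0 z z))))) (n 243 (n 0 z (n 0 z (n 0 z (n 0 z (n 0 z (n 0 z (n 0 z (n 0 z (n 0 z (n
 0 z z)))))))))) (n 13 (n 0 z (n 0 z (n 0 z (n 0 z (n 0 z z))))) (n 13 (n 0 z (n 0 z (n 0 z (n 0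
 z (n 0 z z))))) z)))))) (n 0 (n 247 (n 0 z (n 0 z (n 0 z (n 0 z (n 7741459 z (n 0 z (n 0 z
 z))))))) (n 247 (n 0 z (n 0 z (n 0 z (n 0 z (n 0 z (n 0 z (n 0 z z))))))) (n 243 (n 0 z (n 0 z
 (n 0 z (n 0 z (n 0 z z))))) (n 241 (n 0 z (n 0 z (n 0 z (n 7741459 z z)))) (n 241 (n 0 z (n 0 z
 (n 0 z (n 0 z z)))) z))))) (n 0 (n 0 z (n 291 (n 0 z (n 0 z (n 0 z (n 0 z z)))) (n 289 (n 0 z
 (n 0 z (n 0 z z))) (n 289 (n 0 z (n 0 z (n 0 z z))) z)))) (n 0 (n 291 (n 0 z (n 0 z (n 0 z (n 0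
 z (n 0 z (n 0 z (n 0 z (n 0 z (n 0 z (n 0 z (n 0 z (n 0 z (n 0 z (n 0 z z)))))))))))))) (n 289
 (n 0 z (n 0 z (n 0 z (n 0 z (n 0 z z))))) (n 289 (n 0 z (n 0 z (n 0 z (n 0 z (n 0 z z))))) z)))
 (n 0 (n 293 (n 0 z (n 0 z (n 0 z (n 0 z (n 0 z (n 0 z (n 0 z (n 0 z (n 0 z (n 0 z z))))))))))
 (n 293 (n 0 z (n 0 z (n 0 z (n 0 z (n 0 z (n 0 z (n 0 z (n 0 z (n 0 z (n 0 z z)))))))))) z)) (n
 0 (n 0 z z) (n 0 z z))))))))))) (n 0 (n 1 (n 6562099 z (n 6562099 z (n 6562099 z (n 6562099 z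
 (n 6562099 z (n 6562099 z z)))))) (n 1 (n 6636307 z (n 6636307 z (n 6636307 z (n 6636307 z (n
 6636307 z (n 6636307 z z)))))) (n 1 (n 6636307 z (n 6636307 z (n 6636307 z (n 6636307 z (n
 6636307 z (n 6636307 z z)))))) (n 1 (n 1228 z (n 1228 z (n 6492227 z (n 1228 z (n 2 z (n 1228 z
 z)))))) z)))) (n 0 (n 0 (n 0 (n 0 (n 7741459 z (n 7741459 z (n 7741459 z (n 7741459 z (n
 7741459 z (n 7741459 z z)))))) z) (n 0 (n 145 (n 1 (n 7684883 z (n 7684883 z (n 7684883 z (n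
 7684883 z (n 7684883 z (n 7684883 z z)))))) (n 0 z (n 0 z (n 1 (n 7741459 z (n 7741459 z (n
 7741459 z (n 7741459 z (n 7741459 z (n 7741459 z z)))))) z)))) (n 31 (n 1 (n 7610675 z (n
 7610675 z (n 7610675 z (n 7610675 z (n 7610675 z (n 7610675 z z)))))) (n 1 (n 7545091 z (n
 7545091 z (n 7545091 z (n 7545091 z (n 7545091 z (n 7545091 z z)))))) z)) (n 123 (n 0 z (n 1 (n
 7684883 z (n 7684883 z (n 7684883 z (n 7684883 z (n 7684883 z (n 7684883 z z)))))) (n 1 (n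
 7545091 z (n 7545091 z (n 7545091 z (n 7545091 z (n 7545091 z (n 7545091 z z)))))) (n 1 (n
 7545091 z (n 7545091 z (n 7545091 z (n 7545091 z (n 7545091 z (n 7545091 z z)))))) (n 1 (n
 7741459 z (n 7741459 z (n 7741459 z (n 7741459 z (n 7741459 z (n 7741459 z z)))))) z))))) (n
 249 (n 1 (n 7545091 z (n 7545091 z (n 7545091 z (n 7545091 z (n 7545091 z (n 7545091 z z))))))
 (n 0 z (n 1 (n 7545091 z (n 7545091 z (n 7545091 z (n 7545091 z (n 7545091 z (n 7545091 z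
 z)))))) z))) (n 33 (n 1 (n 7741459 z (n 7610675 z (n 7684883 z (n 7610675 z (n 7610675 z (n
 7610675 z z)))))) (n 1 (n 7545091 z (n 7545091 z (n 7545091 z (n 7545091 z (n 7545091 z (n
 7545091 z z)))))) z)) (n 149 (n 1 (n 7684883 z (n 7684883 z (n 7684883 z (n 7684883 z (n
 7684883 z (n 7684883 z z)))))) (n 1 (n 7545091 z (n 7545091 z (n 7545091 z (n 7545091 z (n
 7545091 z (n 7545091 z z)))))) (n 1 (n 7684883 z (n 7684883 z (n 7684883 z (n 7684883 z (n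
 7684883 z (n 7684883 z z)))))) z))) (n 1 (n 1 (n 7741459 z (n 7741459 z (n 7741459 z (n 7741459
 z (n 7741459 z (n 7741459 z z)))))) (n 1 (n 7684883 z (n 7684883 z (n 7684883 z (n 7684883 z (n
 7684883 z (n 7684883 z z)))))) (n 1 (n 7684883 z (n 7684883 z (n 7684883 z (n 7684883 z (n
 7684883 z (n 7684883 z z)))))) (n 1 (n 7741459 z (n 7741459 z (n 7741459 z (n 7741459 z (n
 7741459 z (n 7741459 z z)))))) z)))) z))))))) (n 0 z (n 0 (n 597 (n 0 z (n 0 z (n 0 z (n 0 z (n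
 0 z (n 0 z (n 0 z (n 0 z z)))))))) (n 587 (n 0 z (n 0 z (n 0 z (n 0 z (n 0 z (n 0 z (n 0 z
 z))))))) (n 63 (n 0 z (n 0 z (n 0 z (n 0 z (n 0 z (n 0 z (n 0 z z))))))) (n 179 (n 0 z (n 0 z
 (n 0 z (n 0 z (n 0 z (n 0 z (n 0 z (n 0 z z)))))))) (n 249 (n 0 z (n 0 z (n 0 z z))) (n 129 (n
 0 z (n 0 z (n 0 z (n 0 z (n 0 z z))))) (n 159 (n 0 z (n 0 z (n 0 z (n 0 z z)))) (n 33 (n 0 z (n
 0 z z)) (n 135 (n 0 z (n 0 z (n 0 z (n 0 z (n 0 z (n 0 z (n 0 z (n 0 z (n 0 z (n 0 z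
 z)))))))))) (n 147 (n 0 z (n 0 z (n 0 z (n 0 z z)))) (n 165 (n 0 z (n 0 z (n 0 z (n 0 z (n 0 z
 (n 0 z z)))))) (n 35 (n 0 z (n 0 z (n 0 z (n 0 z (n 0 z (n 0 z (n 0 z (n 0 z (n 0 z z)))))))))
 (n 11 (n 0 z (n 0 z (n 0 z (n 0 z (n 0 z z))))) (n 149 (n 0 z (n 0 z (n 0 z z))) (n 148 (n 0 z
 (n 0 z (n 0 z (n 0 z (n 0 z (n 0 z (n 0 z (n 0 z (n 0 z (n 0 z z)))))))))) (n 153 (n 0 z (n 0 z
 (n 0 z (n 0 z (n 0 z (n 0 z (n 0 z (n 0 z (n 0 z (n 0 z (n 0 z (n 0 z (n 0 z (n 0 z (n 0 z (n 0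
 z (n 0 z (n 0 z (n 0 z (n 0 z z)))))))))))))))))))) (n 57 (n 0 z (n 0 z (n 0 z (n 0 z (n 0 z (n
 0 z (n 0 z (n 0 z (n 0 z (n 0 z (n 0 z (n 0 z (n 0 z z))))))))))))) (n 9 (n 0 z (n 0 z (n 0 z
 (n 0 z (n 0 z (n 0 z z)))))) (n 123 (n 0 z (n 0 z (n 0 z (n 0 z (n 0 z (n 0 z (n 0 z (n 0 z
 z)))))))) (n 1 (n 0 z (n 0 z (n 0 z (n 0 z z)))) (n 0 (n 0 z (n 0 z (n 0 z (n 0 z (n 0 z (n 0 z
 (n 0 z (n 0 z (n 0 z (n 0 z (n 0 z (n 0 z (n 0 z (n 0 z (n 0 z (n 0 z z))))))))))))))))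
 z))))))))))))))))))))) z)))) z) z)))) z)))))))))), by decide +kernel⟩
theorem i10366 : ∃ t, chkR KT RW t 10366 10376 = true := ⟨(n
 0xd5a9465aba23b9da0e8e115a92c0e66706a33a8511d5884ead01b1b00 (n 0xead4 (n 165 (n 6557731 z (n
 6627347 z (n 0 z (n 6627347 z (n 2 z (n 10 z z)))))) (n 255 (n 6496515 z (n 18 z (n 6496515 z
 (n 6557731 z z)))) (n 9 (n 0 z (n 26 z (n 0 z (n 6496515 z (n 0 z (n 0 z z)))))) (n 243 (n 34 z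
 (n 0 z (n 6496515 z (n 0 z (n 0 z (n 6496339 z (n 0 z (n 0 z (n 0 z (n 42 z z)))))))))) (n 1 (n
 50 z (n 0 z (n 0 z (n 0 z (n 0 z (n 0 z (n 0 z (n 0 z (n 0 z (n 0 z (n 0 z (n 0 z (n
 0xca4ca060380827e7e827f827e827f8080807f8081808080807f8080808081807f8080808180827f807f8081807f807f8180817f8080800809
 z (n 58 z (n 0 z (n 0 z (n 6557731 z (n 0 z (n 0 z (n 0 z (n 0 z (n 0 z (n 0 z (n 0 z (n 0 z (n
 0 z (n 6557731 z (n 0 z (n 0 z (n 0 z (n 0 z z))))))))))))))))))))))))))))))) (n 0 (n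
 0x2ca8820603807f807f827f7f7e8181837e7f7c80818181867e807b7e827e82817e7f807f817f80817f80818180808180817f807f7e817f0809
 z (n 6623755 z (n 0 z (n 0 z (n 6623755 z (n
 0x12c86c602076d81866f857995828c9294787c5e86838f6e9e6f87646b917f8285748181858d788b788677797f806d7f757e7d8891838c760809
 z (n
 0x6c86c862037c887e78887b887b847d807e7f778284827f7f7d7d807f817f8584797f80808580827d807d7e82807d837a857e837e80827e0809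
 z (n
 0xc86c862037f827f7e817f817f817f8080807f808180808080808080808081817f80808080808080808080808080807f818080808180810809
 z (n 0 z (n 0 z (n
 0x64364310180321b19081c0190d8c040e00c86c860077f847e7f827f837d81808080807e818281808180807f7e808082827e808080807f827f81807f818080817f8180818080817f2009
 z (n 66 z (n 6627347 z (n 0 z (n 0 z (n 0 z (n 0 z (n 0 z (n 0 z (n
 0x4c84c826037c837e7c817e897a847d837f817e808381818280807e7e808081817f8182817f7d847f827f8181807e807f8080817f7e827f0809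
 z (n 0 z (n 0 z (n 6627347 z (n
 0x6c86c802038488757d897b8b76847a80817e7b80897f83797f7c817a7e81888579827e818482867c837b7d83807f8178857b867f8485810809
 z (n
 0x6c86c802038488757d897b8b76847a80817e7b80897f83797f7c817a7e81888579827e818482867c837b7d83807f8178857b867f8485810809
 z (n 0 z (n 0 z (n 0 z (n 0 z (n 0 z (n
 0xc86c642077f82807e817f817f81807f80807f8081808080808080807f8081817f80808080808180808080808080817f808080808081800809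
 z (n
 0xd951040c0606c86c8020381817c7e847f797e7f82847d80817f84818283837b83807f7c7f7e7e7f7f7f827d80817b828382808182808181817a7d817f1009
 z (n
 0x2c84c826037e827f7d807f867e837f827e817e8082817f8180807e7e8180808180818180807e837d817e7f81807e807f818081837f81800809
 z (n
 0xc86c8020380807f80817f807f80808180807f7f818080818080807f808082807f80808080808180808080808080817f808081808081800809
 z (n 74 z (n 0 z (n 6627347 z (n 0 z (n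
 0xc86c8020381827d80817f827d817e808080807f8280817f817f817f7f8081817f8180808080827f80807f818080807f8180817f8082800809
 z (n
 0xc86c8020381827d80817f827d817e808080807f8280817f817f817f7f8081817f8180808080827f80807f818080807f8180817f8082800809
 z (n 0 z (n 0 z (n 82 z (n 0 z (n 0 z (n 6623755 z (n 0 z (n 0 z (n
 0x5951084c0e00c86c62403817f808081807f80807f817f7f7e81808180807f80807f808080807f80808081817f807f807f8080808080808080808080801009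
 z z))))))))))))))))))))))))))))))))))))))))))))))))) z)))))) (n 255 (n 0 (n 0 z (n 657 (n 0 z
 (n 0 z (n 0 z (n 0 z (n 0 z (n 0 z (n 0 z (n 0 z (n 0 z (n 0 z (n 0 z (n 0 z (n 0 z
 z))))))))))))) (n 465 (n 0 z (n 0 z (n 0 z (n 0 z (n 0 z (n 0 z (n 0 z (n 0 z z)))))))) (n 333
 (n 0 z (n 0 z (n 0 z (n 0 z (n 0 z z))))) (n 333 (n 0 z (n 0 z (n 0 z (n 0 z (n 0 z z))))) (n
 329 (n 0 z (n 0 z (n 0 z (n 0 z (n 0 z (n 0 z (n 0 z (n 0 z z)))))))) (n 329 (n 0 z (n 0 z (n 0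
 z (n 0 z (n 0 z (n 0 z (n 0 z (n 0 z z)))))))) (n 557 (n 0 z (n 0 z (n 0 z (n 0 z (n 0 z (n 0 z
 (n 0 z z))))))) (n 557 (n 0 z (n 0 z (n 0 z (n 0 z (n 0 z (n 0 z (n 0 z z))))))) (n 557 (n 0 z
 (n 0 z (n 0 z (n 0 z (n 0 z (n 0 z (n 0 z z))))))) z)))))))))) (n 0 (n 1219 (n 0 z (n 0 z (n 0
 z (n 0 z z)))) (n 1255 (n 0 z (n 0 z (n 0 z (n 0 z z)))) (n 1251 (n 0 z (n 0 z (n 0 z (n 0 z (n
 0 z z))))) (n 1251 (n 0 z (n 0 z (n 0 z (n 7754531 z (n 0 z z))))) (n 1249 (n 0 z (n 0 z (n 0 z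
 z))) (n 1249 (n 0 z (n 0 z (n 0 z z))) (n 557 (n 0 z (n 0 z (n 0 z (n 0 z (n 0 z z))))) (n 557
 (n 0 z (n 0 z (n 0 z (n 0 z (n 0 z z))))) (n 557 (n 0 z (n 0 z (n 0 z (n 0 z (n 0 z z)))))
 z))))))))) (n 0 (n 129 (n 0 z (n 0 z (n 0 z (n 0 z (n 0 z (n 0 z z)))))) (n 513 (n 0 z (n 0 z
 (n 0 z (n 0 z (n 0 z (n 0 z (n 0 z z))))))) (n 513 (n 0 z (n 0 z (n 0 z (n 0 z (n 0 z (n 0 z (n
 0 z z))))))) (n 69 (n 0 z (n 0 z (n 0 z (n 0 z (n 0 z (n 0 z z)))))) (n 69 (n 0 z (n 0 z (n 0 z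
 (n 0 z (n 0 z (n 0 z z)))))) (n 509 (n 0 z (n 0 z (n 0 z (n 0 z (n 0 z z))))) (n 509 (n 0 z (n
 0 z (n 0 z (n 0 z (n 0 z z))))) (n 509 (n 0 z (n 0 z (n 0 z (n 0 z (n 0 z z))))) z)))))))) (n 0
 (n 1263 (n 0 z (n 0 z (n 0 z (n 0 z (n 0 z (n 0 z z)))))) (n 1263 (n 0 z (n 0 z (n 0 z (n 0 z
 (n 0 z (n 0 z z)))))) (n 21 (n 0 z (n 0 z (n 0 z (n 0 z (n 0 z (n 0 z (n 0 z (n 0 z (n 0 z (n 0
 z (n 0 z (n 0 z (n 0 z (n 0 z (n 0 z (n 0 z (n 0 z z))))))))))))))))) (n 21 (n 0 z (n 0 z (n 0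
 z (n 0 z (n 0 z (n 0 z (n 0 z (n 0 z (n 0 z (n 0 z (n 0 z (n 0 z (n
 0x5951950c0606ea8ca46038284757d887889728979817f817a7f8a7f8482817c7f7c7e7f888379818281817e887c837e7f86807e8378857c857c80857e1009
 z (n 0 z (n 0 z (n 0 z (n 0 z z))))))))))))))))) (n 17 (n 0 z (n 0 z (n 0 z (n 0 z (n 0 z (n 0
 z (n 0 z (n 0 z (n 0 z (n 0 z (n 0 z (n 0 z (n 0 z (n 0 z (n 0 z z))))))))))))))) (n 17 (n 0 z
 (n 0 z (n 0 z (n 0 z (n 0 z (n 0 z (n 0 z (n 0 z (n 0 z (n 0 z (n 0 z (n 0 z (n 0 z (n 0 z (n 0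
 z z))))))))))))))) (n 17 (n 0 z (n 0 z (n 0 z (n 0 z (n 0 z (n 0 z (n 0 z (n 0 z (n 0 z (n 0 z
 (n 0 z (n 0 z (n 0 z (n 0 z (n 0 z z))))))))))))))) z))))))) (n 0 (n 0 z (n 297 (n 0 z (n 0 z
 (n 0 z (n 0 z (n 0 z (n 0 z (n 0 z (n 0 z (n 0 z (n 0 z (n 0 z (n 0 z z)))))))))))) (n 297 (n 0
 z (n 0 z (n 0 z (n 0 z (n 0 z (n 0 z (n 0 z (n 0 z (n 0 z (n 0 z (n 0 z (n 0 z z)))))))))))) (n
 485 (n 0 z (n 0 z (n 0 z (n 0 z (n 0 z z))))) (n 485 (n 0 z (n 0 z (n 0 z (n 0 z (n 0 z z)))))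
 (n 485 (n 0 z (n 0 z (n 0 z (n 0 z (n 0 z z))))) z)))))) (n 0 (n 297 (n 0 z (n 0 z (n 7754531 z
 (n 0 z z)))) (n 297 (n 0 z (n 0 z (n 0 z (n 0 z z)))) (n 485 (n 0 z (n 0 z (n 0 z (n 0 z z))))
 (n 485 (n 0 z (n 0 z (n 0 z (n 0 z z)))) (n 485 (n 0 z (n 0 z (n 0 z (n 0 z z)))) z))))) (n 0
 (n 0 z (n 1 (n 0 z (n 0 z (n 0 z (n 0 z (n 0 z (n 0 z (n 0 z (n 0 z (n 0 z (n 0 z (n 0 z
 z))))))))))) (n 1 (n 0 z (n 0 z (n 0 z (n 0 z (n 0 z (n 0 z (n 0 z (n 0 z (n 0 z (n 0 z (n 0 z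
 z))))))))))) (n 1 (n 0 z (n 0 z (n 0 z (n 0 z (n 0 z (n 0 z (n 0 z (n 0 z (n 0 z (n 0 z (n 0 z
 z))))))))))) z)))) (n 0 (n 1 (n 0 z (n 0 z (n 0 z (n 2 (n 0 z (n 0 z z)) (n 0 z (n 0 z (n 0 z
 z))))))) (n 1 (n 0 z (n 2 (n 0 z z) (n 0 z (n 0 z (n 0 z (n 0 z (n 0 z z))))))) (n 1 (n 0 z (n
 0 z (n 0 z (n 0 z (n 0 z (n 0 z (n 0 z z))))))) z))) (n 0 (n 0 z (n 0 z z)) (n 0 (n 0 z z) (n 0
 z z))))))))))) (n 0 (n 1 (n 6496515 z (n 6496515 z (n 6496515 z (n 6496515 z (n 6496515 z (n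
 6496515 z z)))))) (n 1 (n 6627347 z (n 2 z (n 1324 z (n 1324 z (n 1324 z (n 1324 z z)))))) (n 1
 (n 6496515 z (n 6496515 z (n 6496515 z (n 6496515 z (n 6496515 z (n 6496515 z z)))))) (n 1 (n
 6627347 z (n 6557731 z (n 6557731 z (n 6557731 z (n 6557731 z (n 6557731 z z)))))) z)))) (n 0
 (n 0 (n 0 (n 0 (n 7754531 z (n 7754531 z (n 7754531 z (n 7754531 z (n 7754531 z (n 7754531 z
 z)))))) z) (n 0 (n 624 (n 1 (n 7675923 z (n 7675923 z (n 7675923 z (n 7675923 z (n 7675923 z (n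
 7675923 z z)))))) (n 1 (n 7606307 z (n 7606307 z (n 7606307 z (n 7606307 z (n 7606307 z (n
 7606307 z z)))))) (n 1 (n 7606307 z (n 7606307 z (n 7606307 z (n 7606307 z (n 7606307 z (n
 7606307 z z)))))) z))) (n 633 (n 1 (n 7545091 z (n 7606307 z (n 7606307 z (n 7606307 z (n
 7606307 z (n 7606307 z z)))))) (n 1 (n 7545091 z (n 7606307 z (n 7606307 z (n 7606307 z (n
 7606307 z (n 7606307 z z)))))) (n 1 (n 7545091 z (n 7606307 z (n 7606307 z (n 7606307 z (n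
 7606307 z (n 7606307 z z)))))) (n 1 (n 7545091 z (n 7606307 z (n 7606307 z (n 7606307 z (n
 7606307 z (n 7606307 z z)))))) z)))) (n 633 (n 0 z (n 1 (n 7545091 z (n 7675923 z (n 7675923 z
 (n 7675923 z (n 7675923 z (n 7675923 z z)))))) (n 1 (n 7545091 z (n 7675923 z (n 7675923 z (n
 7675923 z (n 7675923 z (n 7675923 z z)))))) (n 0 z z)))) (n 639 (n 1 (n 7545091 z (n 7606307 z
 (n 7606307 z (n 7606307 z (n 7606307 z (n 7606307 z z)))))) (n 1 (n 7545091 z (n 7675923 z (n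
 7675923 z (n 7675923 z (n 7675923 z (n 7675923 z z)))))) (n 0 z (n 1 (n 7545091 z (n 7754531 z
 (n 7754531 z (n 7754531 z (n 7754531 z (n 7754531 z z)))))) (n 1 (n 7545091 z (n 7754531 z (n
 7754531 z (n 7754531 z (n 7754531 z (n 7754531 z z)))))) z))))) (n 645 (n 1 (n 7545091 z (n
 7675923 z (n 7675923 z (n 7675923 z (n 7675923 z (n 7675923 z z)))))) (n 1 (n 7545091 z (n
 7606307 z (n 7606307 z (n 7606307 z (n 7606307 z (n 7606307 z z)))))) (n 1 (n 7545091 z (n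
 7606307 z (n 7606307 z (n 7606307 z (n 7606307 z (n 7606307 z z)))))) z))) (n 279 (n 1 (n
 7545091 z (n 7675923 z (n 7675923 z (n 7675923 z (n 7675923 z (n 7675923 z z)))))) (n 0 z (n 0
 z (n 1 (n 7545091 z (n 7675923 z (n 7675923 z (n 7675923 z (n 7675923 z (n 7675923 z z)))))) (n
 0 z z))))) (n 255 (n 1 (n 7545091 z (n 7545091 z (n 7545091 z (n 7545091 z (n 7545091 z (n
 7545091 z z)))))) (n 1 (n 7675923 z (n 7754531 z (n 7754531 z (n 7754531 z (n 7754531 z (n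
 7754531 z z)))))) (n 1 (n 7545091 z (n 7545091 z (n 7545091 z (n 7545091 z (n 7545091 z (n
 7545091 z z)))))) (n 1 (n 7675923 z (n 7606307 z (n 7606307 z (n 7606307 z (n 7606307 z (n
 7606307 z z)))))) z)))) z))))))) (n 0 z (n 0 (n 633 (n 0 z (n 0 z (n 0 z (n 0 z z)))) (n 633 (n
 0 z (n 0 z (n 0 z (n 0 z z)))) (n 65 (n 0 z (n 0 z (n 0 z (n 0 z (n 0 z (n 0 z z)))))) (n 639
 (n 0 z (n 0 z (n 0 z (n 0 z (n 0 z z))))) (n 257 (n 0 z (n 0 z (n 0 z (n 0 z (n 0 z (n 0 z (n 0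
 z z))))))) (n 637 (n 0 z (n 0 z (n 0 z (n 0 z (n 0 z (n 0 z z)))))) (n 645 (n 0 z (n 0 z (n 0 z
 z))) (n 35 (n 0 z (n 0 z (n 0 z (n 0 z (n 0 z (n 0 z z)))))) (n 11 (n 0 z (n 0 z (n 0 z (n 0 z
 (n 0 z (n 0 z (n 0 z (n 0 z (n 0 z (n 0 z (n 0 z (n 0 z (n 0 z (n 0 z (n 0 z (n 0 z (n 0 z
 z))))))))))))))))) (n 149 (n 0 z (n 0 z (n 0 z (n 0 z (n 0 z (n 0 z (n 0 z (n 0 z (n 0 z (n 0 z
 (n 0 z (n 0 z z)))))))))))) (n 279 (n 0 z (n 0 z (n 0 z (n 0 z (n 0 z z))))) (n 255 (n 0 z (n 0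
 z (n 0 z (n 0 z (n 0 z z))))) (n 9 (n 0 z (n 0 z (n 0 z (n 0 z (n 0 z (n 0 z (n 0 z (n 0 z (n 0
 z (n 0 z (n 0 z (n 0 z (n 0 z (n 0 z (n 0 z z))))))))))))))) (n 243 (n 0 z (n 0 z (n 0 z (n 0 z
 (n 0 z z))))) (n 1 (n 0 z (n 0 z (n 0 z (n 0 z (n 0 z (n 0 z (n 0 z (n 0 z (n 0 z (n 0 z (n 0 z
 z))))))))))) (n 165 (n 0 z (n 0 z (n 0 z (n 0 z (n 0 z (n 0 z z)))))) (n 255 (n 0 z (n 0 z (n 0
 z (n 0 z z)))) (n 9 (n 0 z (n 0 z (n 0 z (n 0 z (n 0 z (n 0 z z)))))) (n 243 (n 0 z (n 0 z (n 0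
 z (n 0 z (n 0 z (n 0 z (n 0 z (n 0 z (n 0 z (n 0 z z)))))))))) (n 1 (n 0 z (n 0 z (n 0 z (n 0 z
 (n 0 z (n 0 z (n 0 z (n 0 z (n 0 z (n 0 z (n 0 z (n 0 z (n 0 z (n 0 z (n 0 z (n 0 z (n 0 z (n 0
 z (n 0 z (n 0 z (n 0 z (n 0 z (n 0 z (n 0 z (n 0 z (n 0 z (n 0 z (n 0 z (n 0 z (n 0 z (n 0 z
 z))))))))))))))))))))))))))))))) (n 0 (n 0 z (n 0 z (n 0 z (n 0 z (n 0 z (n 0 z (n 0 z (n 0 z
 (n 0 z (n 0 z (n 0 z (n 0 z (n 0 z (n 0 z (n 0 z (n 0 z (n 0 z (n 0 z (n 0 z (n 0 z (n 0 z (n 0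
 z (n 0 z (n 0 z (n 0 z (n 0 z (n 0 z (n 0 z (n 0 z (n 0 z (n 0 z (n 0 z (n 0 z (n 0 z (n 0 z (n
 0 z (n 0 z (n 0 z (n 0 z (n 0 z (n 0 z (n 0 z (n 0 z (n 0 z (n 0 z (n 0 z (n 0 z (n 0 z (n 0 z
 z))))))))))))))))))))))))))))))))))))))))))))))))) z))))))))))))))))))))) z)))) z) z)))) (n
 0x9d72b0eb933a264d30e2 (n 0 (n 393 (n 0 z (n 0 z (n 6426675 z z))) (n 33 (n 0 z (n 0 z (n 0 z
 (n 0 z (n 0 z (n 0 z (n 0 z (n 0 z (n 6426675 z (n 0 z (n 0 z (n 0 z z)))))))))))) (n 129 (n 0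
 z (n 0 z (n 2 z (n 0 z (n 0 z (n 6426675 z (n 0 z (n 0 z (n 10 z (n 6426675 z (n 0 z (n 0 z
 z)))))))))))) (n 3 (n 0 z (n 0 z (n 0 z (n 0 z (n 0 z (n 6631947 z (n 0 z (n 0 z (n 0 z (n 0 z
 z)))))))))) (n 1 (n 0 z (n 2164299 z (n 18 z (n 0 z z)))) (n 0 (n 26 z (n 6631947 z (n 0 z (n 0
 z (n 0 z (n 0 z (n 0 z z))))))) z)))))) (n 393 (n 0 (n 0 z (n 255 (n 0 z (n 0 z (n 0 z (n 0 z
 (n 0 z (n 0 z (n 0 z (n 0 z (n 0 z z))))))))) (n 253 (n 0 z (n 0 z (n 0 z (n 0 z (n 0 z (n 0 z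
 (n 0 z (n 0 z z)))))))) z))) (n 0 (n 255 (n 0 z (n 2 (n 2 (n 0 (n 8868915 z (n 8868915 z z)) (n
 0 z (n 0 z (n 0 z (n 0 (n 8868915 z z) (n 0 (n 8868915 z z) z)))))) z) (n 0 z (n 0 z (n 0 z
 z))))) (n 257 (n 0 z (n 2 z (n 0 z (n 0 z (n 0 z z))))) z)) (n 0 (n 1 (n 0 z (n 0 z (n 0 z (n 0
 z (n 0 z z))))) z) (n 0 z z)))) (n 0 (n 0 z (n 0 z (n 1 (n 6426675 z (n 6426675 z (n 6426675 z
 (n 6426675 z (n 6426675 z (n 6426675 z z)))))) z))) (n 0 z z)))) (n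
 0x14485422966140b2caa19455209 (n 0 (n 177 (n 0 z (n 0 z (n 0 z (n 3282443 z (n 0 z z))))) (n
 263 (n 0 z (n 3278363 z (n 0 z (n 0 z (n 0 z (n 0 z (n 2 z (n 0 z (n 0 z z))))))))) (n 129 (n
 10 z (n 0 z (n 0 z (n 0 z (n 0 z (n 3212843 z (n 0 z z))))))) (n 29 (n 18 z (n 0 z (n
 0x846408e37dd6e08dc9195d9a1da1d85749e964b19a1b75a5af6a172972676396495c65e7236e26280041 z (n
 6489419 z (n 6636291 z z))))) (n 1 (n 26 z (n 0 z (n 0 z (n 0 z (n 0 z (n 6636291 z (n 0 z (n 0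
 z (n 0 z (n 0 z (n 0 z (n 34 z (n 0 z (n 0 z (n 6636291 z (n 0 z (n 0 z z))))))))))))))))) (n 0
 (n 0 z (n 0 z (n 0 z (n 0 z (n 0 z (n 0 z (n 0 z (n 6636291 z (n 0 z (n 0 z (n 0 z z)))))))))))
 z)))))) (n 177 (n 0 (n 287 (n 0 z (n 0 z (n 0 z (n 0 z (n 0 z (n 0 z (n 0 z (n 0 z (n 0 z (n 0
 z (n 0 z z))))))))))) (n 299 (n 0 z (n 0 z (n 0 z (n 0 z (n 0 z (n 0 z (n 0 z (n 0 z (n 0 z (n
 0 z (n 0 z (n 0 z (n 0 z (n 0 z (n 0 z (n 0 z (n 0 z (n 0 z (n 0 z (n 0 z (n 0 z (n 0 z (n 0 z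
 (n 0 z (n 0 z (n 0 z (n 0 z (n 0 z (n 0 z (n 0 z (n 0 z (n 0 z (n 0 z (n 0 z (n 0 z (n 0 z (n 0
 z (n 0 z (n 0 z (n 0 z (n 0 z (n 0 z (n 0 z (n 0 z (n 0 z (n 0 z (n 0 z
 z))))))))))))))))))))))))))))))))))))))))))))))) (n 297 (n 0 z (n 0 z (n 0 z (n 0 z (n 0 z (n 0
 z (n 0 z (n 0 z (n 0 z (n 0 z (n 0 z (n 0 z z)))))))))))) (n 297 (n 0 z (n 0 z (n 0 z (n 0 z (n
 0 z (n 0 z (n 2 z (n 0 z (n 0 z (n 0 z (n 0 z (n 0 z z)))))))))))) z)))) (n 0 (n 525 (n 0 z (n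
 0 z (n 0 z (n 0 z (n 0 z (n 0 z (n 0 z (n 0 z (n 0 z (n 0 z z)))))))))) (n 57 (n 0 z (n 0 z (n
 0 z (n 0 z (n 0 z (n 0 z (n 0 z (n 0 z (n 0 z (n 0 z (n 0 z (n 0 z (n 0 z (n 0 z (n 0 z (n 0 z
 (n 0 z (n 0 z (n 0 z z))))))))))))))))))) (n 57 (n 0 z (n 0 z (n 0 z (n 0 z (n 0 z (n 0 z (n 0
 z (n 0 z (n 2 z (n 0 z (n 0 z (n 0 z (n 0 z (n 0 z (n 0 z (n 0 z (n 0 z (n 0 z (n 0 z
 z))))))))))))))))))) z))) (n 0 (n 825 (n 0 z (n 0 z (n 0 z (n 0 z (n 0 z (n 0 z (n 0 z (n 0 z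
 z)))))))) (n 825 (n 2 z (n 0 z (n 0 z (n 0 z (n 0 z (n 0 z (n 0 z (n 0 z z)))))))) z)) (n 0 (n
 0 z z) (n 0 z z))))) (n 0 (n 0 z (n 0 z (n 0 z (n 1 (n 3282443 z (n 3282443 z (n 6636291 z (n
 3282443 z (n 3282443 z (n 3282443 z z)))))) (n 0 z z))))) (n 0 z z)))) (n
 0x3395b81caccc655e642ab3385399c80 (n 0x33395 (n 527 (n 6565907 z (n 0 z (n 2 z z))) (n 33 (n 0
 z (n 0 z (n 0 z (n 6558475 z (n 0 z (n 0 z (n 0 z (n 0 z (n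
 0x165464320180329b21900c0190d94080600ca6a64003807c82817e837a826e8c8075807c76927a7d808b8484808576658b7d749380897f6e8487956c6a7282857d8774727f918f902009
 z (n 0 z (n 0 z (n 0 z (n
 0x664364320181328a98101c0194d8c800e02ca6a64007807a827f727b7c8771888071807e779f7f768089838680897d6c956a5dab7c887d68848999725772817b80868071839f98982009
 z (n 0 z (n 0 z (n 0 z (n 0 z (n 10 z (n
 0x2ca4ca060380827f7f807e80818082808280808081807e80808080807f80807e81817f81807f807f80827f8080807f81807f7f808081800809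
 z (n 0 z z)))))))))))))))))))) (n 523 (n 18 z (n 6561843 z (n 0 z (n 0 z (n 0 z z))))) (n 522
 (n 0 z (n 0 z (n 0 z (n 6636291 z (n 0 z (n 0 z (n 0 z (n 0 z (n 0 z (n 26 z z)))))))))) (n 1
 (n 6636291 z (n 0 z (n 34 z z))) (n 0 (n 6636291 z (n 42 z (n 0 z (n 0 z (n 0 z z))))) z))))))
 (n 527 (n 0 (n 751 (n 0 z (n 0 z (n 0 z (n 0 z (n 0 z (n 0 z (n 0 z (n 0 z (n 0 z (n 0 z (n 0 z
 (n 0 z (n 0 z (n 0 z (n 0 z z))))))))))))))) (n 775 (n 0 z (n 0 z (n 0 z (n 0 z (n 0 z (n 0 z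
 (n 0 z (n 0 z (n 0 z (n 0 z z)))))))))) (n 1045 (n 0 z (n 0 z (n 0 z (n 0 z z)))) (n 771 (n 0 z
 (n 0 z (n 0 z (n 0 z z)))) (n 773 (n 0 z (n 0 z (n 0 z z))) z))))) (n 0 (n 1161 (n 0 z (n 0 z
 (n 0 z (n 0 z (n 0 z (n 0 z (n 0 z (n 0 z (n 0 z (n 0 z (n 0 z (n 0 z (n 0 z (n 0 z (n 0 z (n 0
 z (n 0 z (n 0 z (n 0 z (n 0 z z)))))))))))))))))))) (n 1153 (n 0 z (n 0 z (n 0 z (n 0 z (n 0 z
 (n 0 z (n 0 z (n 0 z (n 0 z (n 0 z (n 0 z (n 0 z (n 0 z (n 0 z (n 0 z z))))))))))))))) (n 69 (n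
 0 z (n 0 z (n 0 z (n 0 z (n 0 z (n 0 z (n 0 z (n 0 z (n 0 z (n 0 z (n 0 z (n 0 z (n 0 z (n 0 z
 (n 0 z z))))))))))))))) (n 793 (n 0 z (n 0 z (n 0 z (n 0 z (n 0 z (n 0 z (n 0 z (n 0 z (n 0 z
 (n 0 z (n 0 z (n 0 z (n 0 z (n 0 z (n 0 z (n 0 z (n 0 z (n 0 z (n 0 z (n 0 z
 z)))))))))))))))))))) z)))) (n 0 (n 1045 (n 0 z (n 0 z (n 0 z z))) (n 783 (n 0 z (n 0 z (n 0 z
 z))) (n 785 (n 0 z (n 0 z (n 0 z (n 0 z (n 0 z z))))) z))) (n 0 (n 9 (n 0 z (n 0 z (n 0 z (n 0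
 z z)))) (n 5 (n 0 z (n 0 z (n 0 z z))) z)) (n 0 (n 1 (n 0 z (n 0 z (n 0 z (n 0 z (n 0 z (n 0 z
 (n 0 z (n 0 z (n 0 z (n 0 z z)))))))))) z) (n 0 z z)))))) (n 0 (n 1 (n 6565907 z (n 6565907 z
 (n 6636291 z (n 6565907 z (n 6565907 z (n 6565907 z z)))))) (n 0 z (n 1 (n 6558475 z (n 268 z
 (n 6636291 z (n 268 z (n 2 z (n 268 z z)))))) z))) (n 0 (n 0 (n 0 (n 0 (n 7754259 z (n 7754259
 z (n 7754259 z (n 7754259 z (n 7754259 z (n 7754259 z z)))))) z) (n 0 (n 527 (n 1 (n 7614483 z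
 (n 7614483 z (n 7614483 z (n 7614483 z (n 7614483 z (n 7614483 z z)))))) (n 0 z (n 1 (n 7754259
 z (n 7754259 z (n 7754259 z (n 7754259 z (n 7754259 z (n 7754259 z z)))))) z))) (n 399 (n 1 (n
 7610419 z (n 7610419 z (n 7684867 z (n 7610419 z (n 7610419 z (n 7610419 z z)))))) (n 1 (n
 7607051 z (n 6627443 z (n 7684867 z (n 4400923 z (n 4400923 z (n 4400923 z z)))))) (n 0 z (n 0
 z (n 1 (n 7610419 z (n 7610419 z (n 7684867 z (n 7610419 z (n 7610419 z (n 7610419 z z)))))) (n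
 0 z (n 0 z (n 0 z (n 0 z (n 0 z (n 0 z (n 0 z (n 0 z (n 0 z (n 0 z z))))))))))))))) (n 522 (n 1
 (n 7684867 z (n 7684867 z (n 7684867 z (n 7684867 z (n 7684867 z (n 7684867 z z)))))) (n 0 z (n
 1 (n 7754259 z (n 7754259 z (n 7754259 z (n 7754259 z (n 7754259 z (n 7754259 z z)))))) z))) (n
 523 (n 1 (n 7684867 z (n 7684867 z (n 7684867 z (n 7684867 z (n 7684867 z (n 7684867 z z))))))
 (n 0 z (n 1 (n 7754259 z (n 7754259 z (n 7754259 z (n 7754259 z (n 7754259 z (n 7754259 z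
 z)))))) z))) (n 397 (n 1 (n 7684867 z (n 7684867 z (n 7684867 z (n 7684867 z (n 7684867 z (n
 7684867 z z)))))) (n 0 z (n 1 (n 7754259 z (n 7754259 z (n 7754259 z (n 7754259 z (n 7754259 z
 (n 7754259 z z)))))) z))) (n 407 (n 1 (n 7614483 z (n 7614483 z (n 7684867 z (n 7614483 z (n
 7614483 z (n 7614483 z z)))))) (n 0 z (n 1 (n 7754259 z (n 7754259 z (n 7684867 z (n 7754259 z
 (n 7754259 z (n 7754259 z z)))))) z))) (n 527 (n 1 (n 7614483 z (n 7614483 z (n 7684867 z (n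
 7614483 z (n 7614483 z (n 7614483 z z)))))) (n 0 z (n 1 (n 7754259 z (n 7754259 z (n 7684867 z
 (n 7754259 z (n 7754259 z (n 7754259 z z)))))) z))) z))))))) (n 0 z (n 0 (n 399 (n 0 z (n 0 z
 (n 0 z (n 0 z (n 0 z (n 0 z (n 0 z (n 0 z (n 0 z (n 0 z (n 0 z (n 0 z (n 0 z (n 0 z (n 0 z
 z))))))))))))))) (n 393 (n 0 z (n 0 z (n 0 z (n 0 z (n 0 z (n 0 z (n 0 z (n 0 z (n 0 z (n 0 z
 z)))))))))) (n 581 (n 0 z (n 0 z (n 0 z (n 0 z (n 0 z (n 0 z (n 0 z (n 0 z (n 0 z (n 0 z (n 0 z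
 (n 0 z (n 0 z (n 0 z (n 0 z (n 0 z (n 0 z (n 0 z (n 0 z (n 0 z z)))))))))))))))))))) (n 527 (n
 0 z (n 0 z (n 0 z (n 0 z z)))) (n 581 (n 0 z (n 0 z (n 0 z (n 0 z (n 0 z (n 0 z (n 0 z (n 0 z
 (n 0 z (n 0 z (n 0 z (n 0 z (n 0 z (n 0 z (n 0 z z))))))))))))))) (n 523 (n 0 z (n 0 z (n 0 z
 z))) (n 399 (n 0 z (n 0 z (n 0 z (n 0 z z)))) (n 35 (n 0 z (n 0 z (n 0 z (n 0 z (n 0 z (n 0 z
 (n 0 z (n 0 z (n 0 z (n 0 z (n 0 z (n 0 z (n 0 z (n 0 z (n 0 z z))))))))))))))) (n 397 (n 0 z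
 (n 0 z (n 0 z z))) (n 5 (n 0 z (n 0 z (n 0 z (n 0 z z)))) (n 407 (n 0 z (n 0 z (n 0 z z))) (n
 475 (n 0 z (n 0 z (n 0 z (n 0 z (n 0 z (n 0 z (n 0 z (n 0 z (n 0 z (n 0 z (n 0 z (n 0 z (n 0 z
 (n 0 z (n 0 z (n 0 z (n 0 z (n 0 z (n 0 z (n 0 z z)))))))))))))))))))) (n 406 (n 0 z (n 0 z (n
 0 z (n 0 z (n 0 z z))))) (n 3 (n 0 z (n 0 z (n 0 z z))) (n 1 (n 0 z (n 0 z (n 0 z (n 0 z (n 0 z
 (n 0 z (n 0 z (n 0 z (n 0 z (n 0 z z)))))))))) (n 527 (n 0 z (n 0 z (n 0 z z))) (n 33 (n 0 z (n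
 0 z (n 0 z (n 0 z (n 0 z (n 0 z (n 0 z (n 0 z (n 0 z (n 0 z (n 0 z (n 0 z (n 0 z (n 0 z (n 0 z
 (n 0 z (n 0 z (n 0 z (n 0 z (n 0 z z)))))))))))))))))))) (n 523 (n 0 z (n 0 z (n 0 z (n 0 z (n
 0 z z))))) (n 522 (n 0 z (n 0 z (n 0 z (n 0 z (n 0 z (n 0 z (n 0 z (n 0 z (n 0 z (n 0 z
 z)))))))))) (n 1 (n 0 z (n 0 z (n 0 z z))) (n 0 (n 0 z (n 0 z (n 0 z (n 0 z (n 0 z z)))))
 z))))))))))))))))))))) z)))) z) z)))) (n 0x32d5d1222e88ee748d5e84365c3832d9cc168e6c3273640 (n 0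
 (n 279 (n 2 z (n 0 z (n 0 z (n 6557731 z (n 0 z z))))) (n 255 (n 0 z (n 10 z (n 6496515 z (n 0
 z (n 0 z z))))) (n 9 (n 18 z (n 0 z (n 0 z (n 0 z (n 6427963 z (n 0 z (n 0 z (n 6496515 z (n 0
 z (n
 0x6ca4a8260381807e837f80807f7f80807f81807f8280807f7f808181808081807e818081808081807f80808080808080807f81808080800809
 z (n 0 z (n 0 z (n 0 z (n 6496515 z (n
 0x8ca4a8260781857c86887f84718b71857f7c75837c7f7f847f807e85818773858087778c8c7881796e886f7980797f7c8071887a7c87800809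
 z z))))))))))))))) (n 243 (n 26 z (n 0 z (n 0 z (n 6496515 z (n 0 z z))))) (n 1 (n 34 z (n 42 z
 (n 0 z (n 0 z (n 0 z (n 0 z (n 0 z (n 0 z (n 0 z (n 6557731 z (n 0 z z))))))))))) (n 0 (n
 0x6ca8820603817e7b868486857a817c86828179807e817b847f817e81857f7f82828581818680817f7f807f7e807f817a827e7f808280800809
 z (n
 0x4ca88206037d817b7f8081837a827f818086827a817f81827f817e857f7f8081808480817e7e827f7d81808080847f7f817e817e7f83800809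
 z (n 0 z (n 0 z (n
 0x664264030383321308181c15951040c0604c86c862037789637c8579985592738c7c9777717e8f848e7387789782817b84828f80857b7492818f8b7b7c8083798d81768590837a862009
 z (n
 0x15909840c0e08ca88206037b867486867e8b6a8e7487798b6f7d7a83818a768a7a8d81827485858378877f7b817c7881747880727e827f77897d7c87831009
 z (n
 0x2c86c862037f807f828080827f7f7f817f807f8181807f807f8181808080827f7f81818081817f807f80808080807f8081807f7f8081800809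
 z (n
 0x18c86c862037a9b6e7490898073967f80827c7173798c71968482837b837e8487916a797d7782877970877e78808a767181778669758e800809
 z (n 0 z (n 0 z (n
 0x4c86c862037c877d778180877c837e807d82837f8181807c817c827f7f7d7c827c7e8082867e847c81827d80807e817a857f7e7f8082800809
 z (n 50 z (n 58 z (n 0 z (n 0 z (n 0 z (n 0 z (n 0 z (n 0 z (n
 0x2ca884260780807f82817f807e827f8081807e7f82808082817e8080808080817f817e81807f81807f817e7f80827f81807e817f7f81810809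
 z (n 0 z (n 0 z (n
 0x16c84c8260380897983817a827a797f7d8183838980788580779475877c848d787f888582817a6a877a847679808b828f737c848a83778a0809
 z (n
 0x2c86c862037f8082827f7d84827f7d827f7e7c86827f7f7d7d84827e807d817d7d807f8484847e7d7b7b80848077828184847f7c7e867c0809
 z (n
 0x2c86c862037f8081827f7e84827f7e827f7f7c85817f7f7d7d84817e807e817e7e807f8383837e7d7c7c80838079818083847f7d7e857d0809
 z (n 0 z (n 0 z (n 0 z (n 0 z (n 0 z (n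
 0x2c86c862037d84827d827f827e837c817f7d7c8280807f7f827b817e82827b847e817d82857d827e7d847d7d807e817e817c80807f80810809
 z (n
 0x32a210980c09951040c0604c86c802037f827c7f82857f808184817e837d7c7e807c83817f85807f7c8380847b7f7f7e84837f7d7e83838082807a81817d7a7f857c1809
 z (n
 0x1eca8842607808074ab8478796c8a7680878865788e797c8c876e82908485878e7c956c8f7b7d8d7d718b7279808b738182698674778a810809
 z (n
 0x1951040c0600c86c802037f807e808180807f80818180817f7f817f8081807f8080808080817e818080817f817f7f80808080808080807f81807f81801009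
 z (n 66 z (n 0 z (n 0 z (n 0 z (n
 0x4c84c826037f837f7e828181807f7f817f7f7f837d807f807f82807f828080808280818082827e807e818080807f81807f817e808180800809
 z (n
 0x2c86c8620380847d8082807c81808180847d7c827f817e857f81807e827f827f847f80807f847f807c7f818280827e818080807c7e837f0809
 z (n 0 z (n 0 z (n 2164315 z (n 0 z (n 0 z (n
 0xc86c862037f817f7f807f817f80808180807f81808180818080808081807f808080808081808080807f7f8080808080808080808080800809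
 z (n 0 z (n 0 z (n
 0xcc86c62403808e7c7a8679827c7f7d7a7d807f8280838086788d7d828183897d827e7c84748572877f82757b8089798b7c7c7f82807c870809
 z z))))))))))))))))))))))))))))))))))))))))))))))))) z)))))) (n 279 (n 0 (n 211 (n 0 z (n 0 z
 (n 0 z (n 0 z z)))) (n 43 (n 0 z (n 0 z (n 0 z (n 0 z z)))) (n 39 (n 0 z (n 0 z (n 0 z (n 0 z
 (n 0 z z))))) (n 37 (n 0 z (n 0 z (n 0 z z))) (n 37 (n 0 z (n 0 z (n 0 z z))) (n 289 (n 0 z (n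
 0 z (n 0 z (n 0 z (n 0 z (n 0 z z)))))) (n 289 (n 0 z (n 0 z (n 0 z (n 7741459 z (n 0 z (n 0 z
 z)))))) (n 289 (n 0 z (n 0 z (n 0 z (n 0 z (n 0 z (n 0 z z)))))) z)))))))) (n 0 (n 123 (n 0 z
 (n 0 z (n 0 z (n 0 z (n 0 z (n 0 z z)))))) (n 507 (n 0 z (n 0 z (n 0 z (n 0 z (n 0 z (n 0 z (n
 0 z z))))))) (n 63 (n 0 z (n 0 z (n 0 z (n 0 z (n 0 z (n 0 z z)))))) (n 63 (n 0 z (n 0 z (n 0 z
 (n 0 z (n 0 z (n 0 z z)))))) (n 509 (n 0 z (n 0 z (n 0 z (n 0 z z)))) (n 509 (n 0 z (n 0 z (n 0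
 z (n 0 z z)))) (n 509 (n 0 z (n 0 z (n 0 z (n 0 z z)))) z))))))) (n 0 (n 567 (n 0 z (n 0 z (n 0
 z (n 0 z (n 0 z (n 0 z z)))))) (n 15 (n 0 z (n 0 z (n 0 z (n 0 z (n 0 z (n 0 z (n 0 z (n 0 z (n
 0 z (n 0 z (n 0 z (n 0 z (n 0 z (n 0 z (n 0 z (n 0 z (n 0 z z))))))))))))))))) (n 15 (n 2 (n 1
 z (n 1 z (n 1 z z))) (n 0 z (n 0 z (n 0 z (n 0 z (n 0 z (n 0 z (n 0 z (n 0 z (n 0 z (n 0 z (n 0
 z (n 0 z (n 0 z (n 0 z (n 0 z (n 0 z z))))))))))))))))) (n 17 (n 0 z (n 0 z (n 0 z (n 0 z (n 0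
 z (n 0 z z)))))) (n 17 (n 0 z (n 0 z (n 0 z (n 0 z (n 0 z (n 0 z z)))))) (n 17 (n 0 z (n 0 z (n
 0 z (n 0 z (n 0 z (n 0 z z)))))) z)))))) (n 0 (n 291 (n 0 z (n 0 z (n 0 z (n 0 z (n 0 z (n 0 z
 (n 0 z (n 0 z (n 0 z (n 0 z (n 0 z (n 0 z z)))))))))))) (n 291 (n 0 z (n 0 z (n 0 z (n 0 z (n 0
 z (n 0 z (n 0 z (n 0 z (n 0 z (n 0 z (n 0 z (n 0 z z)))))))))))) (n 485 (n 0 z (n 0 z (n 0 z (n
 0 z (n 0 z (n 0 z (n 0 z (n 0 z (n 0 z (n 0 z z)))))))))) (n 485 (n 0 z (n 0 z (n 0 z (n 0 z (n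
 0 z (n 0 z (n 0 z (n 0 z (n 0 z (n 0 z z)))))))))) (n 485 (n 0 z (n 0 z (n 0 z (n 0 z (n 0 z (n
 0 z (n 0 z (n 0 z (n 0 z (n 0 z z)))))))))) z))))) (n 0 (n 0 z (n 1 (n 0 z (n 0 z (n 0 z (n 0 z
 (n 0 z (n 0 z (n 0 z (n 0 z (n 0 z (n 0 z (n 0 z (n 0 z (n 0 z (n 0 z (n 0 z (n 0 z (n 0 z (n 0
 z (n 0 z (n 0 z (n 0 z (n 0 z (n 0 z (n 0 z (n 0 z (n 0 z (n 0 z (n 0 z (n 0 z (n 0 z (n 0 z
 z))))))))))))))))))))))))))))))) (n 1 (n 0 z (n 0 z (n 0 z (n 0 z (n 0 z (n 0 z (n 0 z (n 0 z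
 (n 0 z (n 0 z (n 0 z (n 0 z (n 0 z (n 0 z (n 0 z (n 0 z (n 0 z (n 0 z (n 0 z (n 0 z (n 0 z (n 0
 z (n 0 z (n 0 z (n 0 z (n 0 z (n 0 z (n 0 z (n 0 z (n 0 z (n 0 z
 z))))))))))))))))))))))))))))))) (n 1 (n 0 z (n 0 z (n 0 z (n 0 z (n 0 z (n 0 z (n 0 z (n 0 z
 (n 0 z (n 0 z (n 0 z (n 0 z (n 0 z (n 0 z (n 0 z (n 0 z (n 0 z (n 0 z (n 0 z (n 0 z (n 0 z (n 0
 z (n 0 z (n 0 z (n 0 z (n 0 z (n 0 z (n 0 z (n 0 z (n 0 z (n 0 z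
 z))))))))))))))))))))))))))))))) z)))) (n 0 (n 1 (n 0 z (n 0 z (n 0 z (n 0 z (n 0 z (n 0 z
 z)))))) (n 1 (n 0 z (n 2 (n 0 z z) (n 0 z (n 0 z (n 0 z (n 0 z z)))))) (n 1 (n 0 z (n 0 z (n 0
 z (n 0 z (n 0 z (n 0 z z)))))) z))) (n 0 (n 0 z (n 0 z z)) (n 0 (n 0 z z) (n 0 z z))))))))) (n
 0 (n 1 (n 6496515 z (n 2044 z (n 4 z (n 4327003 z (n 2044 z (n 2044 z z)))))) (n 0 z (n 0 z (n
 1 (n 6496515 z (n 6557731 z (n 6557731 z (n 6557731 z (n 6557731 z (n 6557731 z z)))))) (n 0 z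
 z))))) (n 0 z z)))) (n 0xc755660d5530549d21c54c611 (n 0 (n 477 (n 6557747 z (n 0 z (n 0 z (n 0
 z (n 0 z (n 0 z (n 0 z (n 0 z (n 0 z z))))))))) (n 475 (n 0 z (n 6557747 z (n 2 z (n 0 z (n 0 z
 (n 0 z (n 0 z (n 0 z z)))))))) (n 474 (n
 0x1d94d94500e0aa86ca4203807987837c7f847e7a7e84768381848585748284818c8683827b887c7e8782827c74737f847c767e817e898882828085877f1009
 z (n 0 z (n 0 z (n 0 z (n 5441067 z (n 0 z (n 0 z (n 3212843 z (n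
 0xac84a826038081817f807f83827e81817f7f83808080817f7f837f7f7f817f80807f8180817c7f7b838284807e7e7f7f7f7d8082807e820809
 z (n 0 z (n
 0xcca8ca8207807d74818c86806796838489827c7a7c7e7b83936e7d83817f7c7f8187818077877b9b76876f7f8b918d707c7a88827e6c860809
 z (n 10 z (n 0 z (n 18 z (n 0 z (n 0 z (n 0 z (n
 0x594594400e08ca2c62007808186808d7a82837d82807880837c8279837f7e84827d808076897b7b8380807a887b84787b7c8781867d7f82897d8479801009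
 z (n
 0x65253140380321b21881c0995150c40600a86ca420380808282817f7f80817f817d81807f7f818281837e8280817e81817f7f81807f80818181817f7d7f807f80807f7e80857f802009
 z (n 26 z (n
 0x432a321880c0590d90c40602c62c62007807f927e5c837f9671837e727f859975878b7c758b7b7a7f818280896f7986857293798c73857c8377757e7c86877b7486801809
 z z))))))))))))))))))))) (n 3 (n 6631491 z (n 0 z (n 0 z (n 0 z z)))) (n 1 (n 0 z (n 0 z (n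
 6557747 z (n 0 z (n 6557747 z (n 0 z (n 0 z (n 0 z (n 0 z (n 0 z (n 6554139 z (n 0 z (n 0 z (n
 0x19458c080e02ca4c62003807f88806c828088777e817783818b7f857f807d86838183817f827c7b827f82798a79837882807e817786808283818181811009
 z z)))))))))))))) (n 0 (n 34 z (n 6631491 z (n 0 z (n 0 z (n 0 z z))))) z)))))) (n 3 (n 0 (n
 1015 (n 0 z (n 0 z (n 0 z (n 0 z (n 0 z (n 0 z (n 0 z (n 2 (n 0 z (n 0 z (n 2 (n 0 z (n 0 z (n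
 0 z (n 0 z (n 0 z (n 0 z z)))))) z))) (n 0 z (n 0 z (n 0 z (n 0 z (n 0 z (n 0 z (n 0 z (n 0 z
 (n 0 z (n 0 z (n 0 z (n 0 z (n 0 z z))))))))))))))))))))) (n 1015 (n 0 z (n 0 z (n 0 z (n 0 z
 (n 0 z (n 0 z (n 0 z (n 0 z (n 0 z (n 0 z (n 0 z (n 0 z (n 0 z (n 0 z (n 0 z (n 0 z (n 0 z (n 0
 z (n 0 z (n 0 z (n 0 z z))))))))))))))))))))) (n 1015 (n 0 z (n 0 z (n 0 z (n 0 z (n 0 z (n 0 z
 (n 0 z (n 0 z (n 0 z (n 0 z (n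
 0xcecaeca007807d74818c86806796838489827c7a7c7e7b83936e7d83817f7c7f8187818077877b9b76876f7f8b918d707c7a88827e6c860809
 z (n 2 (n 2 (n 0 z (n 0 z (n 0 z (n 0 z (n 0 z (n 0 z z)))))) z) (n 0 z (n 0 z (n 0 z (n 0 z (n
 0 z (n 0 z (n 0 z (n 0 z (n 0 z z))))))))))))))))))))) (n 1013 (n 0 z (n 0 z (n 0 z (n 0 z (n 0
 z (n 0 z (n 0 z (n 0 z (n 0 z (n 0 z z)))))))))) z)))) (n 0 (n 0 z (n 0 z (n 17 (n 0 z (n 0 z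
 (n 0 z (n 0 z (n 0 z (n 0 z (n 2 z (n 0 z (n 0 z (n 0 z z)))))))))) z))) (n 0 (n 0 z (n 17 (n 0
 z (n 0 z (n 0 z (n 0 z (n 0 z (n 0 z (n 0 z (n 0 z (n 0 z (n 0 z (n 0 z (n 0 z (n 0 z (n 0 z (n
 0 z (n 0 z (n 0 z (n 0 z (n 0 z (n 0 z (n 0 z z))))))))))))))))))))) z)) (n 0 (n 17 (n 0 z (n 2
 z (n 0 z (n 0 z (n 0 z (n 0 z (n 0 z (n 0 z z)))))))) z) (n 0 z z))))) (n 0 (n 1 (n 6631491 z
 (n 6557747 z (n 6631491 z (n 6631491 z (n 6631491 z (n 6631491 z z)))))) (n 0 z (n 0 z (n 0 z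
 z)))) (n 0 z z)))) (n 0x1dc8329d2c0 (n 0 (n 399 (n 2 z (n 0 z (n 0 z (n 3282443 z (n 0 z (n 0 z
 (n 0 z (n 0 z (n 0 z (n 0 z z)))))))))) (n 581 (n 0 z (n 0 z (n 6496595 z (n 0 z (n 10 z (n 0 z
 (n 0 z (n 0 z (n 0 z (n 0 z (n 0 z (n 0 z (n 0 z (n 0 z (n 0 z z))))))))))))))) (n 129 (n 0 z
 (n 0 z (n 6496595 z (n 0 z z)))) (n 3 (n 0 z (n 0 z (n 6636323 z (n 0 z z)))) (n 1 (n 6636323 z
 (n 0 z (n 0 z z))) (n 0 (n 0 z (n 6636323 z (n 0 z z))) z)))))) (n 1 (n 0 (n 1403 (n 0 z (n 0 z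
 (n 0 z (n 0 z (n 0 z (n 0 z (n 0 z (n 0 z (n 0 z (n 0 z z)))))))))) z) (n 0 z z)) (n 0 (n 1 (n
 6636323 z (n 6636323 z (n 6636323 z (n 6636323 z (n 6636323 z (n 6636323 z z)))))) (n 0 z (n 0
 z z))) (n 0 z z)))) (n 0xa5300 (n 0 (n 399 (n 2 z (n 0 z (n 0 z (n 3282443 z (n 0 z z))))) (n
 581 (n 0 z (n 6496595 z (n 0 z (n 0 z (n 0 z (n 0 z (n 0 z (n 0 z z)))))))) (n 129 (n 0 z (n 0
 z (n 6496595 z (n 0 z z)))) (n 3 (n 0 z (n 0 z (n 6636323 z (n 0 z z)))) (n 1 (n 6636323 z (n 0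
 z (n 0 z z))) (n 0 (n 0 z (n 6636323 z (n 0 z z))) z)))))) (n 1 (n 0 z z) (n 0 (n 1 (n 6636323
 z (n 6636323 z (n 6636323 z (n 6636323 z (n 6636323 z (n 6636323 z z)))))) (n 0 z (n 0 z z)))
 (n 0 z z)))) (n 0x25cc42e5300 (n 0 (n 399 (n
 0x990402c820064182082082082082082082082086081f8208208208208208218208218208217e082085f81f7e000c1
 z (n 0 z (n 0 z (n
 0x194d90c8060b21b21900c165354320182ca6ca42078208208208208208208208208208207e08208208618217e08207e082082081f8208208208202001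
 z (n 0 z (n 2 z (n 0 z (n 0 z (n
 0x2ca6a8640382082082182186182082081f82082082081f8208228208208208208608208207e081f7e085f0801 z
 (n 0 z (n 0 z (n
 0x2ca4ca280301509900c063b29aa1900c064354320186ca4a642078a28238a489e85f86082079f79f89d79d85d79d95f8e171f79f8218a07e385b79e75e72385f2801
 z (n 3282443 z (n 4400651 z (n 0 z (n
 0x165354320182ca6a624038208218218208208208207e08208207df8207df82082082086082086082081f7e08208208611001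
 z (n 6423611 z (n
 0xd950a240000b2a1498000165428b00000ca85218208208208608208208208607e082082182081f82082082085f82186082081f8208208207e02001
 z (n 0 z (n 0 z (n 0 z z))))))))))))))))))))) (n 581 (n
 0x15bb21318280c56d8850c14060e2ca2a806071af6536532018d9329b29800c1fd90d50c00e26eca6ca40070e3652542003859a99328800c4c54c98840060be004a2816a05f000215014377c6506ef6ca147a99428f4b282c686507d37f18a88127dd8bc7ac81c8487de7e67407258a974a7eb8038c57b57d676e7697c382079281a8006ca7bc6f08127a38d485980483d8568be81382d76480773e7c075a73a8157ef8cc8626151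
 z (n
 0x65365320182ca6a6040782182082181f8218207e082182085f7e081f81f8a085f82085f8608608207df8218217e08201001
 z (n 6496595 z (n 6496595 z (n
 0x2ca6a604078618218618207e08208207e081f8207df82081f8a082082082082082082081f7e07e08218600801 z
 (n 10 z (n
 0x2ca6a8640382082082182186182082081f82082082081f8208228208208208208608208207e081f7e085f0801 z
 (n 6558475 z (n 0 z (n 0 z (n
 0x158d02cc1002b1a0498400563408f0000ac68156080158d022c0002b1a035800026340b302004c6810e000014502ca08002031890000040630a00000c680147df7e08218208218208608208207e07e07e17e08207e07df85f86082182089f7e08207e08216001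
 z (n
 0xaa84ca260335509840c068b29aa1900c365365020396ca6a804071590d8c080e1b29329000c06426420038ec86a840033594d8c800e1b29319001c154263200182c64c640078a27278a89619209a08607a171d8e075a79f7dd8286aa7e18da86585d72099972081d8a09606801
 z (n 0 z (n 0 z (n 0 z z))))))))))))))) (n 129 (n 0 z (n 0 z (n 6496595 z (n 0 z z)))) (n 3 (n
 0 z (n 0 z (n 6636323 z (n 0 z z)))) (n 1 (n 6636323 z (n 0 z (n 0 z z))) (n 0 (n 0 z (n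
 6636323 z (n 0 z z))) z)))))) (n 1 (n 0 (n 1403 (n 0 z (n 0 z (n 0 z (n 0 z (n 0 z (n 0 z (n 0
 z (n 0 z (n 0 z (n 0 z (n 0 z (n
 0xce6856e0000010067342ab00000000039a1538000000001cd0ad2000002000e685510000000025140b700000080128a05580000000014502da000002000a281554821
 z (n 0 z (n 0 z (n 0 z (n 0 z (n 0 z (n 0 z (n 0 z (n 0 z (n 0 z z))))))))))))))))))))) z) (n 0
 z z)) (n 0 (n 1 (n 6636323 z (n 6636323 z (n 6636323 z (n 6636323 z (n 6636323 z (n 6636323 z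
 z)))))) (n 0 z (n 0 z z))) (n 0 z z)))) (n 0x25cc42e5500 (n 0 (n 399 (n 2 z (n 0 z (n
 0x16c820a64182086181f82182182082182082185f81f86086185f85f7e27e08a18208218617e085f8217df0081 z
 (n 0x2ca8ca820782082082082082082082082082182086082082082082086081f8208607e08218208208218200801
 z (n 0 z (n 4400651 z (n 3282443 z (n
 0x16c820a64182086181f82182182082182082185f81f86086185f85f7e27e08a18208218617e085f8217df0081 z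
 (n 6423611 z (n
 0x16ca80a65482086181f82182182082182082185f81f86086185f85f7e27e08a18208218617e085f8217df0081 z
 (n 0x16c620a63182086181f82182182082182082185f81f86086185f85f7e27e08a18208218617e085f8217df0081
 z (n
 0x2c86c8640382081f7df8207e07e082082082082082082182081f81e86082082082082082186182081f7e00801 z
 (n 0 z z))))))))))))) (n 581 (n
 0x15bb21318280c56d8850c14060e2ca2a806071af6536532018d9329b29800c1fd90d50c00e26eca6ca40070e3652542003859a99328800c4c54c98840060be004a2816a05f000215014377c6506ef6ca147a9941634b282c686507d37f18a88127dd8bc7ac81c8487de7e67407258a974a7eb8038c57b57d676e7697c382079281a8006ca7bc6f08127a38d485980483d8568be81382d76480773e7c075a73a8157ef8cc8626151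
 z (n 6496595 z (n 6496595 z (n
 0x16ca00a65082086181f82182182082182082185f81f86086185f85f7e27e08a18208218617e085f8217df0081 z
 (n 10 z (n 6558475 z (n
 0x988002c400062082082082082082082082082086081f8208208208208208218208218208217e082085f81f7e000c1
 z (n
 0x16c400a62082086181f82182182082182082185f81f86086185f85f7e27e08a18208218617e085f8217df0081 z
 (n 6558475 z (n
 0x16ca00a65082086181f82182182082182082185f81f86086185f85f7e27e08a18208218617e085f8217df0081 z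
 (n 0x2c86c8640382081f7df8207e07e082082082082082082182081f81e86082082082082082186182081f7e00801
 z (n
 0x158d02c41002b1a0488000563408d0400ac68112200158d01a42802b1a024820026340a90000080c62008001018c20080010a8020000063401004000c680107e281f86082181f8608207e08207e07e28608a08a089e82182281f7df7e08227e186081e8606001
 z (n 0 z (n 0 z (n
 0x16ca80a65482086181f82182182082182082185f81f86086185f85f7e27e08a18208218617e085f8217df0081 z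
 (n 0 z (n 0 z z))))))))))))))))) (n 129 (n 0 z (n 0 z (n 6496595 z (n 0 z z)))) (n 3 (n 0 z (n
 0 z (n 6636323 z (n 0 z z)))) (n 1 (n 6636323 z (n 0 z (n 0 z z))) (n 0 (n 0 z (n 6636323 z (n
 0 z z))) z)))))) (n 1 (n 0 (n 1403 (n 0 z (n 0 z (n 0 z (n
 0x2ec8ec840782082082082082082082082082182086082082082082086081f8208607e08218208208218200801 z
 (n 0 z (n 0 z (n 0 z (n 0 z (n 0 z (n 0 z (n 0 z (n 0 z (n 0 z z))))))))))))) z) (n 0 z z)) (n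
 0 (n 1 (n 6636323 z (n 6636323 z (n 6636323 z (n 6636323 z (n 6636323 z (n 6636323 z z)))))) (n
 0 z (n 0 z z))) (n 0 z z)))) z)))))))))), by decide +kernel⟩
theorem i10376 : ∃ t, chkR KT RW t 10376 10386 = true := ⟨(n 0x58a0261a8232ac29 (n 0 (n 585 (n 0
 z (n 0 z (n 0 z (n 6496339 z (n 0 z (n 0 z (n 0 z (n 0 z (n 0 z z))))))))) (n 255 (n 0 z (n 0 z
 (n 0 z (n 6493483 z (n 0 z (n 0 z (n 0 z (n 0 z (n 2 z (n 0 z (n 0 z (n 0 z (n 3278363 z (n 0 z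
 (n 0 z (n 0 z (n 10 z (n 5506587 z (n 18 z (n 0 z (n
 0x2ca6a60407808080808080808081808080807e8180808080808080808080808080808080808080808080808080808080808080808080800809
 z (n 0 z (n
 0x40ca8ca860775729b8a9a8993897b7d8a717583807c885e8e977f908b78a0898267918684788277728866949c6d8387919071876a7d877d0809
 z z))))))))))))))))))))))) (n 129 (n 0 z (n 0 z (n 0 z (n 0 z (n 0 z (n 6636083 z z)))))) (n 3
 (n 0 z (n 0 z (n 0 z (n 6496339 z z)))) (n 1 (n 6636083 z (n 0 z (n 0 z (n 0 z (n 0 z (n 0 z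
 z)))))) (n 0 (n 6636083 z z) z)))))) (n 0 (n 0 (n 0 z (n 0 z z)) (n 0 (n 0 z z) (n 0 z z))) (n
 0 (n 1 (n 6636083 z (n 6636083 z (n 6636083 z (n 6636083 z (n 6636083 z (n 6636083 z z)))))) z)
 (n 0 z z)))) (n 0x1142e86d15414dcb0345461372321b8e360a4ca0e265310a5086498a00ca6c0 (n 0x194dc (n
 713 (n 0 z (n 6492243 z (n 0 z (n 6627379 z (n 0 z (n 0 z (n 0 z (n 2 z (n 0 z (n 10 z
 z)))))))))) (n 712 (n 0 z (n 6492243 z (n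
 0x1eca6ca640380aa71669c719472907a5f8b67907c809a8f6b807c7a7d6288bf6e95824e8755a53d906595848a6e6c997a9778bd6c5e899b0809
 z (n 6492243 z (n 0 z (n 18 z (n
 0x2ca6a86007808080808080808080808080807f8081807f7f8080808080807f80808080818080807f808080808080807f808080808080800809
 z (n 26 z (n 0 z (n
 0x16ca6a64007807b868f747d728c808c967e74c05e8273b5569f518c824a8e917fbf9040a36e7c887c868b7d8980e8635e8954bc695786840809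
 z (n
 0xca6a8600380808080808080808080808080808081808080808080808080808080808080808080808080808080808080808080808080800809
 z (n 0 z (n 0 z (n 0 z (n 0 z (n
 0x2ca6a6400380818080808081808080808080808181807f7f80818080808080807f808080808080808081807f808080808080807f8080800809
 z z)))))))))))))))) (n 129 (n 0 z (n 34 z (n 6627379 z (n 42 z z)))) (n 3 (n 50 z (n 0 z (n 0 z
 (n 6636291 z (n 0 z z))))) (n 1 (n 0 z (n 6636291 z (n 58 z (n 66 z (n 0 z z))))) (n 0 (n 0 z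
 (n 74 z (n 0 z (n
 0x14ca6642003808d7a748f768a7a83826e7a79778a8294828370857c768081997d726c84837a8672847f7b82807b5e7a927d8b8d7b6c82850809
 z (n
 0x4ca6642007808080808080808080808080807f817f8080818080808081808180807f808080808080807f808080818080808181808180800809
 z (n 0 z (n 0 z (n 0 z (n 0 z (n
 0x14842ca0603807c857f79827c888381927c7d7f828c7983818e7d8a7e768270937c828e7a8874857c8196717787887b878c7772829482700809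
 z (n 0 z (n 0 z (n 6636291 z (n 82 z (n 90 z (n 0 z (n 0 z z))))))))))))))))) z)))))) (n 129 (n
 0 (n 0 z (n 179 (n 7673387 z (n 0 z (n 0 z (n 0 z (n 0 z (n 0 z (n 0 z (n 0 z (n 0 z (n 0 z (n
 0 z (n 0 z z)))))))))))) (n 179 (n 0 z (n 0 z (n 0 z (n 0 z (n 0 z (n 0 z (n 0 z (n 0 z (n 0 z
 (n 0 z (n 0 z (n 0 z z)))))))))))) (n 177 (n 0 z (n 0 z (n 0 z (n 0 z (n 0 z (n 0 z (n 0 z (n 0
 z (n 0 z (n 0 z (n 0 z (n 0 z (n 0 z (n 0 z (n 0 z (n 0 z z)))))))))))))))) (n 177 (n 2 (n 1 z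
 (n 1 z (n 1 z (n 1 z (n 1 z (n 1 z z)))))) (n 0 z (n 0 z (n 0 z (n 0 z (n 0 z (n 0 z (n 0 z (n
 0 z (n 0 z (n 0 z (n 0 z (n 0 z (n 0 z (n 0 z (n 0 z z)))))))))))))))) (n 1001 (n 0 z (n 0 z (n
 0 z (n 0 z (n 0 z (n 0 z (n 0 z (n 0 z (n 0 z (n 0 z (n 0 z (n 0 z z)))))))))))) (n 99 (n 0 z
 (n 0 z (n 0 z (n 0 z (n 0 z (n 0 z (n 0 z z))))))) (n 99 (n 0 z (n 0 z (n 0 z (n 2 (n 1 z (n 1
 z (n 2 (n 0 z (n 0 z (n 0 z (n 0 z (n 0 z (n 0 z z)))))) z))) (n 0 z (n 0 z (n 0 z z))))))) (n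
 173 (n 0 z (n 0 z (n 0 z (n 0 z (n 0 z (n 0 z (n 0 z (n 0 z (n 0 z (n 0 z (n 0 z (n 0 z (n 0 z
 (n 0 z (n 0 z (n 0 z z)))))))))))))))) (n 173 (n 2 (n 0 z z) (n 7673387 z (n 0 z (n 0 z (n 0 z
 (n 0 z (n 0 z (n 0 z (n 0 z (n 0 z (n 0 z (n 0 z (n 0 z (n 0 z (n 0 z (n 0 z z))))))))))))))))
 (n 173 (n 0 z (n 0 z (n 0 z (n 0 z (n 2 z (n 0 z (n 0 z (n 0 z (n 0 z (n 0 z (n 0 z (n 0 z (n 0
 z (n 0 z (n 0 z (n 0 z z)))))))))))))))) z))))))))))) (n 0 (n 235 (n 0 z (n 0 z (n 0 z (n 0 z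
 (n 0 z (n 0 z (n 0 z (n 0 z (n 0 z (n 0 z (n 0 z z))))))))))) (n 235 (n 0 z (n 2 (n 2 (n 0 z (n
 0 z (n 0 z (n 0 z (n 0 z (n 0 z z)))))) (n 2 (n 0 z (n 0 z (n 0 z (n 0 z (n 0 z (n 0 z z))))))
 (n 2 (n 0 z (n 0 z (n 0 z (n 0 z (n 0 z (n 0 z z)))))) (n 2 (n 0 z (n 0 z (n 0 z (n 0 z (n 0 z
 (n 0 z z)))))) (n 2 (n 0 z (n 0 z (n 0 z (n 0 z (n 0 z (n 0 z z)))))) (n 2 (n 0 z (n 0 z (n 0 z
 (n 0 z (n 0 z (n 0 z z)))))) (n 2 (n 0 z (n 0 z (n 0 z (n 0 z (n 0 z (n 0 z z)))))) (n 2 (n 0 z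
 (n 0 z (n 0 z (n 0 z (n 0 z (n 0 z z)))))) z)))))))) (n 0 z (n 0 z (n 0 z (n 0 z (n 0 z (n 0 z
 (n 0 z (n 0 z (n 0 z z))))))))))) (n 189 (n 0 z (n 0 z (n 0 z (n 0 z (n 2 (n 0 z (n 2 (n 0 z (n
 0 z (n 0 z (n 0 z (n 0 z (n 0 z z)))))) (n 2 (n 0 z (n 0 z (n 0 z (n 0 z (n 0 z (n 0 z z))))))
 (n 2 (n 0 z (n 0 z (n 0 z (n 0 z (n 0 z (n 0 z z)))))) (n 2 (n 0 z (n 0 z (n 0 z (n 0 z (n 0 z
 (n 0 z z)))))) (n 2 (n 0 z (n 0 z (n 0 z (n 0 z (n 0 z (n 0 z z)))))) (n 2 (n 0 z (n 0 z (n 0 z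
 (n 0 z (n 0 z (n 0 z z)))))) z))))))) (n 0 z (n 0 z (n 0 z z)))))))) (n 189 (n 0 z (n 0 z (n 0
 z (n 0 z (n 0 z (n 0 z (n 0 z (n 0 z z)))))))) (n 233 (n 0 z (n 0 z (n 2 (n 1 z (n 2 (n 0 z (n
 0 z (n 0 z (n 0 z (n 0 z (n 0 z z)))))) (n 2 (n 0 z (n 0 z (n 0 z (n 0 z (n 0 z (n 0 z z))))))
 (n 2 (n 0 z (n 0 z (n 0 z (n 0 z (n 0 z (n 0 z z)))))) (n 2 (n 0 z (n 0 z (n 0 z (n 0 z (n 0 z
 (n 0 z z)))))) z))))) (n 0 z (n 0 z (n 0 z (n 0 z (n 0 z (n 0 z z))))))))) (n 205 (n 2 (n 0 z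
 (n 2 (n 0 z (n 0 z (n 0 z (n 0 z (n 0 z (n 0 z z)))))) (n 2 (n 0 z (n 0 z (n 0 z (n 0 z (n 0 z
 (n 0 z z)))))) (n 2 (n 0 z (n 0 z (n 0 z (n 0 z (n 0 z (n 0 z z)))))) z)))) (n 0 z (n 0 z (n 0
 z (n 0 z z))))) (n 205 (n 0 z (n 0 z (n 0 z (n 0 z (n 0 z z))))) (n 161 (n 0 z (n 0 z (n 0 z (n
 0 z (n 0 z (n 0 z (n 0 z (n 0 z (n 0 z (n 0 z (n 2 (n 0 z (n 0 z z)) (n 0 z (n 0 z (n 0 z
 z)))))))))))))) (n 161 (n 0 z (n 2 (n 0 z z) (n 0 z (n 0 z (n 0 z (n 0 z (n 0 z (n 0 z (n 0 z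
 (n 0 z (n 0 z (n 0 z (n 0 z (n 0 z z)))))))))))))) (n 161 (n
 0x2eea2c80607807984a376807c90718c837d859b5e71759c7a89759a617e6a8f8d76815d7e95897685799b7b7080ad4b688f7ab0546da18b0809
 z (n 0 z (n 0 z (n 0 z (n 0 z (n 0 z (n 0 z (n 0 z (n 0 z (n 0 z (n 0 z (n 0 z (n 0 z (n 0 z
 z)))))))))))))) z)))))))))) (n 0 (n 0 z (n 1053 (n 0 z (n 0 z (n 0 z (n 0 z (n 0 z (n 0 z (n 0
 z (n 0 z (n 0 z (n 0 z (n 6625067 z (n 0 z (n 0 z (n 0 z (n 0 z z))))))))))))))) (n 1053 (n 0 z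
 (n 0 z (n 0 z (n 0 z (n 2 (n 1 z (n 1 z (n 2 (n 0 z (n 0 z (n 0 z (n 0 z (n 0 z (n 0 z z))))))
 (n 2 (n 0 z (n 0 z (n 0 z (n 0 z (n 0 z (n 0 z z)))))) (n 2 (n 0 z (n 0 z (n 0 z (n 0 z (n 0 (n
 8848443 z z) (n 0 z z)))))) (n 2 (n 0 z (n 0 z (n 0 z (n 0 z (n 0 z (n 0 z z)))))) z)))))) (n 0
 z (n 0 z (n 0 z (n 0 z (n 0 z (n 0 z (n 0 z (n 0 z (n 0 z (n 0 z z))))))))))))))) (n 333 (n 0 z
 (n 0 z (n 0 z (n 6625067 z (n 0 z (n 0 z (n 0 z (n 0 z (n 0 z (n 0 z (n 0 z z))))))))))) (n 325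
 (n 0 z (n 0 z (n 0 z (n 6625067 z (n 0 z (n 0 z (n 0 z (n 0 z (n 0 z z))))))))) (n 325 (n 0 z
 (n 0 z (n 0 z (n 0 z (n 2 (n 2 (n 0 z (n 0 z (n 0 z (n 0 z (n 0 z (n 0 z z)))))) (n 2 (n 0 z (n
 0 z (n 0 z (n 0 z (n 0 (n 8860171 z z) (n 0 z z)))))) (n 2 (n 0 z (n 0 z (n 0 z (n 0 z (n 0 z
 (n 0 z z)))))) z))) (n 0 z (n 0 z (n 0 z (n 0 z z))))))))) (n 533 (n 0 z (n 0 z (n 0 z (n 2 (n
 0 z (n 0 z z)) (n 0 z (n 0 z (n 0 z (n 0 z z)))))))) (n 533 (n 0 z (n 0 z (n 0 z (n 0 z (n 2 (n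
 0 z z) (n 0 z (n 0 z (n 0 z z)))))))) (n 533 (n 0 z (n 0 z (n 0 z (n 0 z (n 0 z (n 0 z (n 0 z
 (n 0 z z)))))))) z))))))))) (n 0 (n 417 (n 0 z (n 0 z (n 0 z (n 0 z (n 0 z (n 0 z (n 0 z (n 0 z
 (n 0 z z))))))))) (n 417 (n 0 z (n 0 z (n 0 z (n 2 (n 1 z (n 1 z (n 2 (n 0 z (n 0 z (n 0 z (n 0
 z (n 0 z (n 0 z z)))))) (n 1 z (n 1 z (n 2 (n 0 z (n 0 z (n 0 z (n 0 z (n 0 z (n 0 z z))))))
 z)))))) (n 0 z (n 0 z (n 0 z (n 0 z (n 0 z z))))))))) (n 1049 (n 0 z (n 0 z (n 0 z (n 0 z (n 0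
 z (n 0 z (n 0 z (n 0 z (n 0 z (n 0 z (n 0 z (n 0 z (n 0 z z))))))))))))) (n 489 (n 0 z (n 0 z
 (n 0 z (n 0 z (n 0 z (n 0 z (n 0 z (n 0 z (n 0 z (n 0 z (n 0 z (n 0 z (n 0 z (n 0 z (n 0 z (n 0
 z (n 0 z z))))))))))))))))) (n 489 (n 0 z (n 0 z (n 0 z (n 0 z (n 0 z (n 2 (n 2 (n 0 z (n 0 z
 (n 0 z (n 0 z (n 0 z (n 0 z z)))))) (n 2 (n 0 z (n 0 z (n 0 z (n 0 z (n 0 (n 8860171 z z) (n 0
 z z)))))) (n 2 (n 0 z (n 0 z (n 0 z (n 0 z (n 0 z (n 0 z z)))))) z))) (n 0 z (n 0 z (n 0 z (n 0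
 z (n 0 z (n 0 z (n 0 z (n 0 z (n 0 z (n 0 z (n 0 z z))))))))))))))))) (n 413 (n 0 z (n 0 z (n 0
 z (n 0 z (n 0 z (n 0 z (n 0 z (n 0 z z)))))))) (n 413 (n 0 z (n 0 z (n 2 (n 0 z z) (n 0 z (n 0
 z (n 0 z (n 0 z (n 0 z z)))))))) (n 413 (n 0 z (n 0 z (n 0 z (n 0 z (n 0 z (n 0 z (n 0 z (n 0 z
 z)))))))) z)))))))) (n 0 (n 0 z (n 1097 (n 0 z (n 0 z (n 0 z (n 0 z (n 0 z (n 0 z (n 0 z (n 0 z
 (n 0 z (n 0 z z)))))))))) (n 243 (n 0 z (n 0 z (n 0 z (n 0 z (n 0 z (n 0 z (n 0 z (n 0 z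
 z)))))))) (n 243 (n 0 z (n 0 z (n 0 z (n 0 z (n 2 (n 2 (n 0 z (n 0 z (n 0 z (n 0 z (n 0 z (n 0
 z z)))))) (n 2 (n 0 z (n 0 z (n 0 z (n 0 z (n 0 (n 8860171 z z) (n 0 z z)))))) (n 2 (n 0 z (n 0
 z (n 0 z (n 0 z (n 0 z (n 0 z z)))))) z))) (n 0 z (n 0 z (n 0 z z)))))))) (n 653 (n 0 z (n 0 z
 (n 0 z (n 0 z (n 0 z (n 0 z (n 0 z z))))))) (n 653 (n 0 z (n 2 (n 0 z z) (n 0 z (n 0 z (n 0 z
 (n 0 z (n 0 z z))))))) (n 653 (n 0 z (n 0 z (n 0 z (n 2 z (n 0 z (n 0 z (n 0 z z)))))))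
 z))))))) (n 0 (n 295 (n 0 z (n 2 (n 1 z (n 1 z (n 1 z (n 1 z (n 1 z z))))) (n 0 z (n 0 z (n 0 z
 (n 0 z (n 0 z (n 0 z (n 0 z z))))))))) (n 291 (n 0 z (n 0 z (n 2 (n 0 z (n 1 z (n 1 z (n 1 z
 z)))) (n 0 z (n 0 z z))))) (n 291 (n 0 z (n 0 z (n 0 z (n 0 z (n 0 z z))))) (n 289 (n 2 (n 0 z
 (n 0 z z)) (n 0 z (n 0 z (n 0 z (n 0 z (n 0 z (n 0 z (n 0 z z)))))))) (n 289 (n 0 z (n 0 z (n 0
 z (n 0 z (n 0 z (n 0 z (n 0 z (n 0 z z)))))))) (n 289 (n 0 z (n 0 z (n 0 z (n 0 z (n 0 z (n 2 z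
 (n 0 z (n 0 z z)))))))) z)))))) (n 0 (n 3 (n 0 z (n 0 z (n 0 z (n 0 z (n 0 z (n 0 z (n 0 z (n 0
 z z)))))))) (n 3 (n 0 z (n 0 z (n 2 (n 1 z (n 1 z (n 2 (n 0 z (n 0 z (n 0 z (n 0 z (n 0 z (n 0
 z z)))))) z))) (n 0 z (n 0 z (n 0 z (n 0 z (n 0 z z)))))))) (n 1 (n 0 z (n 0 z (n 0 z (n 0 z
 z)))) (n 1 (n 0 z (n 2 (n 0 z z) (n 0 z (n 0 z z)))) (n 1 (n 0 z (n 0 z (n 0 z (n 0 z z))))
 z))))) (n 0 (n 0 z (n 5 (n 0 z (n 0 z (n 0 z (n 0 z (n 0 z (n 0 z (n 0 z (n 0 z (n 0 z (n 0 z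
 (n 0 z (n 0 z (n 0 z z))))))))))))) (n 5 (n 0 z (n 0 z (n 0 z (n 2 (n 0 z z) (n 0 z (n 0 z (n 0
 z (n 0 z (n 0 z (n 0 z (n 0 z (n 0 z (n 0 z z))))))))))))) (n 5 (n 0 z (n 0 z (n 0 z (n 0 z (n
 0 z (n 0 z (n 0 z (n 0 z (n 0 z (n 0 z (n 0 z (n 0 z (n 0 z z))))))))))))) z)))) (n 0 (n 385 (n
 0 z (n 2 (n 0 z (n 0 z z)) (n 0 z (n 0 z (n 0 z (n 0 z (n 0 z (n 0 z (n 0 z (n 0 z (n 0 z (n 0
 z (n 0 z (n 0 z z)))))))))))))) (n 385 (n 0 z (n 0 z (n 0 z (n 0 z (n 0 z (n 0 z (n 0 z (n 0 z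
 (n 0 z (n 0 z (n 0 z (n 0 z (n 0 z (n 0 z z)))))))))))))) (n 385 (n 0 z (n 0 z (n 2 z (n 0 z (n
 0 z (n 0 z (n 0 z (n 0 z (n 0 z (n 0 z (n 0 z (n 0 z (n 0 z (n 0 z z)))))))))))))) z))) (n 0 (n
 0 z (n 0 z z)) (n 0 (n 0 z z) (n 0 z z)))))))))))) (n 0 (n 0 z (n 1 (n 5708 z (n 5708 z (n 2 z
 (n 5708 z (n 5708 z (n 5708 z z)))))) (n 1 (n 6627379 z (n 6627379 z (n 6627379 z (n 6627379 z
 (n 6627379 z (n 6627379 z z)))))) (n 1 (n 5708 z (n 5708 z (n 5708 z (n 5708 z (n 5708 z (n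
 5708 z z)))))) z)))) (n 0 (n 0x21b45530345431b05224c500 (n 0 (n 0 (n 7754019 z (n 7754019 z (n
 7754019 z (n 7754019 z (n 7754019 z (n 7754019 z z)))))) z) (n 0 (n 49 (n 1 (n 2 z (n 5708 z (n
 5708 z (n 5708 z (n 5708 z (n 5708 z z)))))) (n 1 (n 3282763 z (n 3282763 z (n 3282763 z (n
 3282763 z (n 3282763 z (n 3282763 z z)))))) (n 1 (n 5708 z (n 5708 z (n 5708 z (n 5708 z (n
 5708 z (n 5708 z z)))))) (n 1 (n 5708 z (n 5708 z (n 5708 z (n 5708 z (n 5708 z (n 4331275 z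
 z)))))) (n 1 (n 5708 z (n 5708 z (n 5708 z (n 5708 z (n 5708 z (n 5708 z z)))))) (n 1 (n
 7675955 z (n 7675955 z (n 7675955 z (n 7675955 z (n 7675955 z (n 7675955 z z)))))) (n 1 (n
 7540819 z (n 7540819 z (n 7540819 z (n 7540819 z (n 7540819 z (n 7540819 z z)))))) z))))))) (n
 206 (n 1 (n 7746859 z (n 1676 z (n 1676 z (n
 0x16ea6ca60038008177eb7de81b7ff8217e07fe7f27d47fc7fb7be8347f382d7dc8237e78317f17e88257f981e7f57cb7d583d7ef7fc8027e48078057e77f980080377e8148307f782e7e98138027f68030811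
 z (n 1676 z (n 7540819 z z)))))) (n 1 (n 7754019 z (n 7754019 z (n 7754019 z (n 7754019 z (n
 7754019 z (n 7754019 z z)))))) (n 1 (n 1676 z (n 7746859 z (n 1676 z (n 1676 z (n 1676 z (n
 7540819 z z)))))) (n 1 (n 7746859 z (n 7673387 z (n 7673387 z (n 7673387 z (n 7673387 z (n
 7540819 z z)))))) (n 1 (n
 0x1cea6a640078007fa8078147f27fd7ee80f80080f81b7fe7f18517d68037f08417cb8267c68108037bd8128157fe84f8147af82b7e97fb80b7fb80880f7fc80b8008837db7d680c7ca84b7e17cc8088040811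
 z (n 7746859 z (n 5506923 z (n 1676 z (n 1676 z (n 7540819 z z)))))) (n 1 (n
 0x4ea6a64003808080808080818080808081807f8181807f7f8181808080808080808081807f808080808080808080807f80808080807f800809
 z (n 7746859 z (n 1676 z (n 1676 z (n 1676 z (n 7540819 z z)))))) (n 1 (n 7684867 z (n 7684867
 z (n 7684867 z (n 7684867 z (n 7684867 z (n 7684867 z z)))))) (n 1 (n 7684867 z (n 7684867 z (n
 7684867 z (n 7684867 z (n 7684867 z (n 7684867 z z)))))) z)))))))) (n 129 (n 0 z (n 1 (n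
 7742747 z (n 7742747 z (n 7676259 z (n 7742747 z (n 7742747 z (n 7742747 z z)))))) (n 1 (n
 7675955 z (n 7675955 z (n 7675955 z (n 7675955 z (n 7675955 z (n 7675955 z z)))))) (n 1 (n 10 z
 (n 2636 z (n 7676259 z (n 2636 z (n 2636 z (n 2636 z z)))))) z)))) (n 0 (n 1 (n 7684867 z (n
 7684867 z (n 7684867 z (n 7684867 z (n 7684867 z (n 7684867 z z)))))) (n 1 (n 7742747 z (n
 7746859 z (n 4604 z (n 4604 z (n 4604 z (n 7540819 z z)))))) (n 0 z (n 1 (n 7684867 z (n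
 7684867 z (n 7684867 z (n 7684867 z (n 7684867 z (n 7684867 z z)))))) z)))) (n 1 (n 0 z (n 1 (n
 7684867 z (n 7684867 z (n 7684867 z (n 7684867 z (n 7684867 z (n 7684867 z z)))))) (n 1 (n
 7754019 z (n 7754019 z (n 7754019 z (n 7754019 z (n 7754019 z (n 7754019 z z)))))) (n 1 (n 18 z
 (n 7673387 z (n 7676259 z (n 6428427 z (n 4492 z (n 4492 z z)))))) (n 0 z z))))) (n 5 (n 1 (n
 7684867 z (n 7684867 z (n 7684867 z (n 7684867 z (n 7684867 z (n 7684867 z z)))))) (n 1 (n 5756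
 z (n 5756 z (n 26 z (n 5756 z (n 5756 z (n 7675955 z z)))))) (n 0 z (n 1 (n 7684867 z (n
 7684867 z (n 7684867 z (n 7684867 z (n 7684867 z (n 7684867 z z)))))) z)))) (n 129 (n 0 z (n 1
 (n 7742747 z (n 7742747 z (n 7754019 z (n 7742747 z (n 7742747 z (n 7742747 z z)))))) (n 1 (n
 7675955 z (n 7675955 z (n 7754019 z (n 7675955 z (n 7675955 z (n 7675955 z z)))))) (n 1 (n 5708
 z (n 5708 z (n 7754019 z (n 7746859 z (n 5708 z (n 5708 z z)))))) z)))) z))))))) (n 0 (n 0 (n 0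
 z (n 0 z (n 0 z (n 0 z z)))) (n 0 (n 0 z (n 0 z (n 0 z z))) (n 0 (n 0 z (n 0 z z)) (n 0 (n 0 z
 z) z)))) (n 0 (n 209 (n 0 (n 0 z (n 0 z (n 0 z (n 0 z z)))) (n 0 (n 0 z (n 0 z (n 0 z (n 0 z
 z)))) (n 0 (n 0 z (n 0 z (n 0 z (n 0 z z)))) (n 0 (n 0 z (n 0 z (n 0 z (n 0 z z)))) (n 0 (n 0
 (n 8802595 z z) (n 0 z (n 0 z (n 0 z z)))) (n 0 (n 0 z (n 0 z (n 0 z (n 0 z z)))) (n 0 (n 0 z
 (n 0 z (n 0 z (n 0 z z)))) (n 0 (n 0 z (n 0 z (n 0 z (n 0 z z)))) (n 0 (n 0 z (n 0 (n 8848443 z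
 z) (n 0 z (n 0 (n 8848443 z z) z)))) (n 0 (n 0 z (n 0 z (n 0 z (n 0 z z)))) (n 0 (n 0 z (n 0 z
 (n 0 z (n 0 z z)))) (n 0 (n 0 z (n 0 z (n 0 z (n 0 z z)))) z)))))))))))) (n 329 (n 0 (n 0 z (n
 0 z (n 0 z (n 0 z z)))) (n 0 (n 0 z (n 0 z (n 0 z (n 0 z z)))) (n 0 (n 0 z (n 0 z (n 0 z (n 0 z
 z)))) (n 0 (n 0 z (n 0 (n 8724531 z (n 8724531 z z)) (n 0 (n 8724531 z (n 8724531 z z)) (n 0 (n
 8724531 z (n 8724531 z z)) z)))) (n 0 (n 0 z (n 0 z (n 0 z (n 0 z z)))) (n 0 (n 0 z (n 0 z (n 0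
 z (n 0 z z)))) (n 0 (n 0 z (n 0 z (n 0 z (n 0 z z)))) (n 0 (n 0 z (n 0 z (n 0 z (n 0 z z)))) (n
 0 (n 0 z (n 0 z (n 0 z (n 0 z z)))) (n 0 (n 0 z (n 0 z (n 0 z (n 0 z z)))) (n 0 (n 0 z (n 0 z
 (n 0 z (n 0 z z)))) (n 0 (n 0 z (n 0 z (n 0 (n 8724531 z z) (n 0 z z)))) (n 0 (n 0 z (n 0 (n
 8724531 z z) (n 0 z (n 0 (n 8724531 z z) z)))) (n 0 (n 0 z (n 0 z (n 0 z (n 0 z z)))) (n 0 (n 0
 z (n 0 z (n 0 z (n 0 z z)))) (n 0 (n 0 z (n 0 z (n 0 z (n 0 z z)))) z)))))))))))))))) (n 328 (n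
 0 (n 0 z (n 0 z (n 0 z (n 0 z z)))) (n 0 (n 0 z (n 0 z (n 0 z (n 0 z z)))) (n 0 (n 0 z (n 0 z
 (n 0 z (n 0 z z)))) (n 0 (n 0 z (n 0 z (n 0 z (n 0 z z)))) (n 0 (n 0 z (n 0 z (n 0 z (n 0 z
 z)))) (n 0 (n 0 z (n 0 z (n 0 z (n 0 z z)))) (n 0 (n 0 z (n 0 z (n 0 z (n 0 z z)))) (n 0 (n 0 z
 (n 0 (n
 0xb61d81243b01b87680877e7c877a807f8383847c7f9479867e8f6d81777a876f838984967c6d917e8078827c88797c81937e74877e957b6e868500c9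
 z z) (n 0 z (n 0 (n 8525579 z z) z)))) (n 0 (n 0 z (n 0 (n 8848443 z z) (n 0 z (n 0 (n 8525579
 z z) z)))) z))))))))) (n 575 (n 0 (n 0 z (n 0 z (n 0 z (n 0 z z)))) (n 0 (n 0 z (n 0 z (n 0 z
 (n 0 z z)))) (n 0 (n 0 z (n 0 z (n 0 z (n 0 (n
 0x8843060a078081807f7f807f7f807f807f807f807f818181807f808180808082808080808280807f7f8080808081808080807f808081800809
 z (n
 0x45871807b888d78837b877a8081768780777f7b8c857c84887782757e8b727f7b7c8681798182967c6c8384737b847e7c818a877c0049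
 z z)) z)))) (n 0 (n 0 z (n 0 z (n 0 z (n 0 z z)))) (n 0 (n 0 z (n 0 z (n 0 z (n 0 z z)))) (n 0
 (n 0 z (n 0 z (n 0 z (n 0 z z)))) (n 0 (n 0 z (n 0 z (n 0 (n 4331579 z z) (n 0 z z)))) (n 0 (n
 0 z (n 0 z (n 0 z (n 0 z z)))) (n 0 (n 0 z (n 0 z (n 0 z (n 0 z z)))) (n 0 (n 0 z (n 0 (n
 8795979 z (n
 0x2d876807881857681758a828989837e8e718673907983718d76777c7d81858274818083917d8284827e819b6d797f777f797e817a0049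
 z z)) (n 0 z (n 0 (n 8795979 z (n
 0x458768074828871816f90838e8e857d9669896c997684699470717a7a8187846d8281849b7c8485837d82ab62757e737e757c82750049
 z z)) z)))) (n 0 (n 0 z (n 0 z (n 0 z (n 0 z z)))) (n 0 (n 0 z (n 0 z (n 0 z (n 0 z z))))
 z)))))))))))) (n 574 (n 0 (n 0 z (n 0 z (n 0 z (n 0 z z)))) (n 0 (n 0 z (n 0 z (n 0 z (n 0 z
 z)))) (n 0 (n 0 (n 8802595 z z) (n 0 z (n 0 z (n 0 z z)))) (n 0 (n 0 z (n 0 z (n 0 z (n 0 z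
 z)))) (n 0 (n 0 z (n 0 z (n 0 z (n 0 z z)))) (n 0 (n 0 z (n 0 z (n 0 z (n 0 z z)))) (n 0 (n 0 z
 (n 0 (n
 0xb61d81243b01b87680877e7c877a807f8383847c7f9479867e8f6d81777a876f838984967c6d917e8078827c88797c81937e74877e957b6e868500c9
 z z) (n 0 z (n 0 z z)))) (n 0 (n 0 z (n 0 z (n 0 z (n 0 z z)))) (n 0 (n 0 z (n 0 z (n 0 z (n 0
 (n 8733443 z z) z)))) (n 0 (n 0 z (n 0 z (n 0 z (n 0 z z)))) (n 0 (n 0 z (n 0 z (n 0 z (n 0 z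
 z)))) (n 0 (n 0 z (n 0 (n 8733443 z z) (n 0 z (n 0 (n 8733443 z z) z)))) (n 0 (n 0 z (n 0 z (n
 0 z (n 0 z z)))) z))))))))))))) (n 572 (n 0 (n 0 z (n 0 z (n 0 z (n 0 z z)))) (n 0 (n 0 z (n 0
 z (n 0 z (n 0 z z)))) (n 0 (n 0 z (n 0 z (n 0 (n 8795979 z z) (n 0 z z)))) (n 0 (n 0 z (n 0 z
 (n 0 z (n 0 z z)))) (n 0 (n 0 z (n 0 z (n 0 z (n 0 z z)))) (n 0 (n 0 z (n 0 z (n 0 z (n 0 z
 z)))) (n 0 (n 0 z (n 0 (n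
 0x4ca90a6003808080807f817f8081807f80807f818180807f81818080807f8080808080817f8080808080807f80808080808081808081800809
 z (n
 0x30eb0ea00780818081808180808081808080808080808080808080808080808080808080808080808080808080808080808080808080800809
 z z)) (n 0 z (n 0 (n
 0x1d61c43e43885387180847c7e80837c8182838a7c87977c8a758e687a727b9270838a7faa7a6c917d87767c777f808177a6806b867ea47359908f00c9
 z (n
 0x30e90e800780808180808180808180807f808080808080808080808080808080808080807f8080808080808080808080808080808080800809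
 z z)) z)))) (n 0 (n 0 (n
 0xb0cb0ca003808c7d748875888280807c857c85768588867c858184787f7c8d817a7c707b7d896a7f7b90847d7b7b7d8a8d7f9172708f850809
 z (n
 0x5062ec0a078080808080817f8081807f80808081808080818080808080807f8080808080808080808080807f80808080808080808180800809
 z z)) (n 0 z (n 0 (n 8525579 z (n
 0x2ecb0a6003808180817f8180808080818080808180808081808080808080818080808080818080818080808080807f80808080808080800809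
 z z)) (n 0 z z)))) (n 0 (n 0 (n 8589395 z z) (n 0 z (n 0 z (n 0 z z)))) (n 0 (n 0 z (n 0 z (n 0
 z (n 0 z z)))) z)))))))))) (n 561 (n 0 (n 0 z (n 0 z (n 0 z (n 0 z z)))) (n 0 (n 0 z (n 0 z (n
 0 z (n 0 z z)))) (n 0 (n 0 z (n 0 z (n 0 z (n 0 z z)))) (n 0 (n 0 z (n 0 z (n 0 z (n 0 z z))))
 (n 0 (n 0 z (n 0 z (n 0 z (n 0 z z)))) (n 0 (n 0 z (n 0 z (n 0 z (n 0 z z)))) (n 0 (n 0 z (n 0
 z (n 0 z (n 0 z z)))) z))))))) (n 257 (n 0 (n 0 z (n 0 (n 8733443 z z) (n 0 z (n 0 (n 8733443 z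
 z) z)))) (n 0 (n 0 (n 8802595 z z) (n 0 z (n 0 z (n 0 z z)))) (n 0 (n 0 z (n 0 z (n 0 z (n 0 z
 z)))) (n 0 (n 0 z (n 0 z (n 0 z (n 0 z z)))) (n 0 (n 0 z (n 0 z (n 0 z (n 0 z z)))) (n 0 (n 0 z
 (n 0 z (n 0 z (n 0 z z)))) (n 0 (n 0 (n 8802595 z z) (n 0 z (n 0 z (n 0 z z)))) (n 0 (n 0 z (n
 0 z (n 0 z (n 0 z z)))) (n 0 (n 0 z (n 0 z (n 0 z (n 0 z z)))) (n 0 (n 0 z (n 0 z (n 0 z (n 0 z
 z)))) (n 0 (n 0 z (n 0 z (n 0 z (n 0 z z)))) (n 0 (n 0 z (n 0 z (n 0 z (n 0 z z)))) (n 0 (n 0 z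
 (n 0 z (n 0 z (n 0 z z)))) (n 0 (n 0 z (n 0 z (n 0 z (n 0 z z)))) (n 0 (n 0 z (n 0 z (n 0 z (n
 0 z z)))) (n 0 (n 0 z (n 0 z (n 0 z (n 0 (n 8721963 z z) z)))) (n 0 (n 0 z (n 0 z (n 0 z (n 0 z
 z)))) z))))))))))))))))) (n 135 (n 0 (n 0 z (n 0 z (n 0 z (n 0 z z)))) (n 0 (n 0 z (n 0 z (n 0
 (n 8733443 z z) (n 0 z z)))) (n 0 (n 0 z (n 0 z (n 0 z (n 0 z z)))) (n 0 (n 0 z (n 0 (n 8733443
 z z) (n 0 z (n 0 (n 8733443 z z) z)))) (n 0 (n 0 z (n 0 z (n 0 z (n 0 z z)))) (n 0 (n 0 z (n 0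
 z (n 0 z (n 0 z z)))) (n 0 (n 0 z (n 0 z (n 0 z (n 0 z z)))) (n 0 (n 0 z (n 0 z (n 0 z (n 0 z
 z)))) z)))))))) (n 3 (n 0 (n 0 z (n 0 z (n 0 z (n 0 (n 8733443 z z) z)))) (n 0 (n 0 z (n 0 z (n
 0 z (n 0 z z)))) (n 0 (n 0 z (n 0 z (n 0 z (n 0 z z)))) (n 0 (n 0 z (n 0 z (n 0 z (n 0 z z))))
 (n 0 (n 0 z (n 0 z (n 0 z (n 0 z z)))) (n 0 (n 0 z (n 0 (n
 0x50eb0ca00780818182808281808180807f7f8182807f818181807f7f807f8281818080807f8081808080818080807f7f80808080807f800809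
 z z) (n 0 z (n 0 z z)))) (n 0 (n 0 z (n 0 z (n 0 z (n 0 z z)))) (n 0 (n 0 z (n 0 z (n 0 z (n 0
 z z)))) z)))))))) (n 719 (n 0 (n 0 z (n 0 z (n 0 z (n 0 z z)))) (n 0 (n 0 z (n 0 z (n 0 z (n 0
 z z)))) (n 0 (n 0 z (n 0 z (n 0 z (n 0 (n 6428683 z (n 6428683 z z)) z)))) (n 0 (n 0 z (n 0 z
 (n 0 z (n 0 z z)))) (n 0 (n 0 z (n 0 z (n 0 z (n 0 z z)))) (n 0 (n 0 z (n 0 z (n 0 z (n 0 (n
 8724531 z z) z)))) (n 0 (n 0 z (n 0 z (n 0 z (n 0 z z)))) (n 0 (n 0 z (n 0 z (n 0 z (n 0 (n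
 8857115 z z) z)))) (n 0 (n 0 z (n 0 z (n 0 z (n 0 z z)))) (n 0 (n 0 z (n 0 z (n 0 z (n 0 (n
 0x2761c85243906b87280857a7d7f857c8280848d7a889c7b8c719262796f7a966d838c7fb67967967c88737b757e818175af8066867eac7050939300c9
 z z) z)))) (n 0 (n 0 z (n 0 z (n 0 z (n 0 z z)))) (n 0 (n 0 z (n 0 z (n 0 z (n 0 z z)))) (n 0
 (n 0 z (n 0 (n 8795979 z (n
 0x3d876807682877481728d828b8b837e916e87709478836d9073747b7c81868471828084957d8384827e81a267787e757d787d82780049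
 z z)) (n 0 z (n 0 z z)))) (n 0 (n 0 z (n 0 z (n 0 z (n 0 z z)))) (n 0 (n 0 z (n 0 z (n 0 z (n 0
 z z)))) (n 0 (n 0 z (n 0 z (n 0 z (n 0 z z)))) z)))))))))))))))) (n 718 (n 0 (n 0 z (n 0 z (n 0
 z (n 0 z z)))) (n 0 (n 0 z (n 0 z (n 0 z (n 0 z z)))) (n 0 (n 0 z (n 0 z (n 0 z (n 0 z z)))) (n
 0 (n 0 z (n 0 z (n 0 z (n 0 z z)))) (n 0 (n 0 z (n 0 z (n 0 z (n 0 z z)))) (n 0 (n 0 z (n 0 z
 (n 0 z (n 0 z z)))) (n 0 (n 0 z (n 0 z (n 0 z (n 0 z z)))) (n 0 (n 0 (n 8733443 z z) (n 0 z (n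
 0 z (n 0 z z)))) z)))))))) (n 716 (n 0 (n 0 z (n 0 z (n 0 z (n 0 z z)))) (n 0 (n 0 z (n 0 z (n
 0 z (n 0 z z)))) (n 0 (n 0 z (n 0 z (n 0 z (n 0 z z)))) (n 0 (n 0 z (n 0 z (n 0 z (n 0 z z))))
 (n 0 (n 0 z (n 0 z (n 0 z (n 0 z z)))) (n 0 (n 0 z (n 0 z (n 0 z (n 0 z z)))) (n 0 (n 0 z (n 0
 z (n 0 z (n 0 z z)))) z))))))) (n 5 (n 0 (n 0 z (n 0 z (n 0 z (n 0 z z)))) (n 0 (n 0 z (n 0 z
 (n 0 z (n 0 z z)))) (n 0 (n 0 z (n 0 z (n 0 z (n 0 z z)))) (n 0 (n 0 z (n 0 z (n 0 z (n 0 z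
 z)))) z)))) (n 4 (n 0 (n 0 z (n 0 z (n 0 z (n 0 z z)))) (n 0 (n 0 z (n 0 z (n 0 z (n 0 z z))))
 (n 0 (n 0 (n 8724835 z z) (n 0 z (n 0 z (n 0 z z)))) (n 0 (n 0 z (n 0 z (n 0 z (n 0 z z)))) (n
 0 (n 0 z (n 0 z (n 0 z (n 0 z z)))) (n 0 (n 0 z (n 0 z (n 0 z (n 0 z z)))) (n 0 (n 0 z (n 0 (n
 0xb61c41243881b87180877e7c877a807f8383847c7f9479867e8f6d81777a876f838984967c6d917e8078827c88797c81937e74877e957b6e868500c9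
 z z) (n 0 z (n 0 z z)))) (n 0 (n 0 z (n 0 z (n 0 z (n 0 z z)))) (n 0 (n 0 z (n 0 z (n 0 z (n 0
 (n 8724531 z z) z)))) (n 0 (n 0 z (n 0 z (n 0 z (n 0 z z)))) (n 0 (n 0 z (n 0 z (n 0 z (n 0 z
 z)))) (n 0 (n 0 z (n 0 (n 8724531 z z) (n 0 z (n 0 (n 8724531 z z) z)))) (n 0 (n 0 z (n 0 z (n
 0 z (n 0 z z)))) z))))))))))))) (n 713 (n 0 (n 0 z (n 0 z (n 0 z (n 0 z z)))) (n 0 (n 0 z (n 0
 z (n 0 z (n 0 z z)))) (n 0 (n 0 z (n 0 z (n 0 z (n 0 z z)))) (n 0 (n 0 z (n 0 z (n 0 z (n 0 z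
 z)))) (n 0 (n 0 z (n 0 z (n 0 z (n 0 z z)))) (n 0 (n 0 z (n 0 z (n 0 z (n 0 z z)))) (n 0 (n 0 z
 (n 0 z (n 0 z (n 0 z z)))) (n 0 (n 0 z (n 0 z (n 0 z (n 0 z z)))) (n 0 (n 0 z (n 0 z (n 0 z (n
 0 z z)))) (n 0 (n 0 z (n 0 z (n 0 z (n 0 z z)))) z)))))))))) (n 712 (n 0 (n 0 z (n 0 z (n 0 z
 (n 0 z z)))) (n 0 (n 0 z (n 0 z (n 0 z (n 0 z z)))) (n 0 (n 0 z (n 0 z (n 0 z (n 0 z z)))) (n 0
 (n 0 z (n 0 z (n 0 z (n 0 z z)))) (n 0 (n 0 z (n 0 z (n 0 z (n 0 z z)))) (n 0 (n 0 z (n 0 z (n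
 0 z (n 0 z z)))) (n 0 (n 0 z (n 0 z (n 0 z (n 0 z z)))) (n 0 (n 0 z (n 0 z (n 0 z (n 0 z z))))
 (n 0 (n 0 z (n 0 z (n 0 z (n 0 z z)))) (n 0 (n 0 z (n 0 z (n 0 z (n 0 z z)))) (n 0 (n 0 z (n 0
 z (n 0 z (n 0 z z)))) (n 0 (n 0 z (n 0 z (n 0 z (n 0 z z)))) (n 0 (n 0 z (n 0 z (n 0 z (n 0 z
 z)))) (n 0 (n 0 z (n 0 z (n 0 z (n 0 z z)))) (n 0 (n 0 z (n 0 z (n 0 z (n 0 (n 8795979 z (n
 0x1c587380927985829877797c726a809ea13d6948ce6068a889636e56a494b35a28a475852b8392d86c188b649b4bab8675886ba1890049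
 z z)) z)))) (n 0 (n 0 z (n 0 z (n 0 z (n 0 z z)))) z)))))))))))))))) (n 129 (n 0 (n 0 z (n 0 z
 (n 0 z (n 0 z z)))) (n 0 (n 0 z (n 0 z (n 0 z (n 0 z z)))) (n 0 (n 0 z (n 0 z (n 0 z (n 0 z
 z)))) (n 0 (n 0 z (n 0 z (n 0 z (n 0 z z)))) z)))) (n 3 (n 0 (n 0 z (n 0 z (n 0 z (n 0 z z))))
 (n 0 (n 0 z (n 0 z (n 0 z (n 0 z z)))) (n 0 (n 0 z (n 0 z (n 0 z (n 0 z z)))) (n 0 (n 0 z (n 0
 z (n 0 z (n 0 z z)))) (n 0 (n 0 z (n 0 z (n 0 z (n 0 z z)))) z))))) (n 1 (n 0 (n 0 z (n 0 z (n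
 0 z (n 0 z z)))) (n 0 (n 0 z (n 0 z (n 0 (n 8733443 z z) (n 0 z z)))) (n 0 (n 0 z (n 0 z (n 0 z
 (n 0 z z)))) (n 0 (n 0 z (n 0 z (n 0 z (n 0 z z)))) (n 0 (n 0 z (n 0 (n
 0xb61c41243881b87180877e7c877a807f8383847c7f9479867e8f6d81777a876f838984967c6d917e8078827c88797c81937e74877e957b6e868500c9
 z z) (n 0 z (n 0 (n 8860171 z z) z)))) z))))) (n 0 (n 0 (n 0 z (n 0 z (n 0 z (n 0 z z)))) (n 0
 (n 0 z (n 0 z (n 0 z (n 0 z z)))) (n 0 (n 0 z (n 0 z (n 0 z (n 0 z z)))) (n 0 (n 0 z (n 0 z (n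
 0 z (n 0 z z)))) (n 0 (n 0 z (n 0 z (n 0 z (n 0 z z)))) (n 0 (n 0 z (n 0 z (n 0 z (n 0 (n
 0x2f61c4664388838718087797c7f867b82828490798aa3798f6e975a786a799b67858d7fc377619b7c8a707a737f818172ba805f877db76c43999700c9
 z (n
 0x1c587480927985829877797c726a809ea13d6948ce6068a889636e56a494b35a28a475852b8392d86c188b649b4bab8675886ba1890049
 z z)) z)))) (n 0 (n 0 z (n 0 z (n 0 z (n 0 z z)))) (n 0 (n 0 z (n 0 z (n 0 z (n 0 z z)))) (n 0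
 (n 0 z (n 0 z (n 0 z (n 0 z z)))) (n 0 (n 0 z (n 0 z (n 0 z (n 0 z z)))) (n 0 (n 0 z (n 0 z (n
 0 z (n 0 z z)))) (n 0 (n 0 z (n 0 (n 8724531 z (n 8724531 z z)) (n 0 (n 8724531 z (n 8724531 z
 z)) (n 0 (n 8724531 z (n 8724531 z z)) z)))) (n 0 (n 0 z (n 0 z (n 0 z (n 0 z z)))) (n 0 (n 0 z
 (n 0 z (n 0 z (n 0 z z)))) (n 0 (n 0 z (n 0 z (n 0 z (n 0 z z)))) (n 0 (n 0 z (n 0 (n
 0x3b60407e4080ab8108089777c7f877982838594788cac78936a9d51756577a26285917ed3765aa27c8d6c786f7e81826ec98157897cc667349f9d00c9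
 z (n
 0x2f60406240808b8108087797d7f867a82828490798aa37a8f6e985b786a7a9c67848d7fc379619b7b8a707a737e818271bc805f887db86c44989700c9
 z z)) (n 0 (n
 0x4960409a4080db810808b757b7f8977838386997590b7769763a345725e75ab5a87957ee87250aa799066766b7d828369db814d8c7bd66122a7a500c9
 z (n
 0x45871807b888d78837b877a8081768780777f7b8c857c84887782757e8b727f7b7c8681798182967c6c8384737b847e7c818a877c0049
 z z)) (n 0 (n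
 0x2560404e40807381080867b7d80847c8281838d7a889c7b8c719262796e7a966d848b7fb57a67957d88737b747e818175af8066867dad7050939300c9
 z (n 8525579 z z)) z)))) (n 0 (n 0 z (n 0 z (n 0 z (n 0 (n
 0xa6c0815c81080a67261ab69ae637e784c7584926d75a19978929273617e67c67c935949aa867b388476c05678943f6a9c90b0896c18947c0089
 z (n
 0x35871807582877480728d838c8b837d916f87709578836e9173747b7c81868372828183967c8485827d81a168777f757e777d81770049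
 z z)) z)))) z))))))))))))))))) z))))))))))))))))))))) z)))) z) z)))) (n
 0x11926866c76892b94324cb0125b303aac60950ba212cd0cd8c824b360163240 (n 0x2c649 (n 477 (n 6557747
 z (n 2 z (n 0 z (n 0 z (n 10 z (n 0 z (n 0 z (n 0 z z)))))))) (n 475 (n 18 z (n 0 z (n 6557747
 z (n 0 z (n 0 z (n 0 z (n 26 z (n 34 z (n 0 z (n 0 z z)))))))))) (n 476 (n 42 z (n
 0xfa65181657d956986687977746c8a817f9097736463b676a56a9a82944487a8946d679c6f7b687281a27b51c35d976d7b967d689f0049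
 z (n 6566419 z (n 0 z (n 0 z (n 0 z (n 0 z (n 0 z (n 0 z (n
 0x258c590140e0cc86c862037e6f7f7c8d73767f828582927b91559f82777a99788f737c827c8b667f9179798181847e92827f7d957196747e678091797c1009
 z (n 0 z (n 6566419 z (n 0 z (n 0 z (n
 0x1d8c594100e26c86c8600371677b797e7a80826e7f7d8083a16eb571617a906e977ca083786c64919b5f8e909462706697a76b7b91688a728b8e8b76a61009
 z (n 0 z (n 6566419 z (n 0 z (n 0 z (n 50 z (n 0 z (n 0 z (n 0 z (n 0 z (n 0 z (n 0 z (n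
 0xfa61081657d956986687977746c8a817f9097736463b676a56a9a82944487a8946d679c6f7b687281a27b51c35d976d7b967d689f0049
 z (n 0 z (n 0 z (n 0 z (n 0 z (n 0 z z)))))))))))))))))))))))))))))))) (n 3 (n 6566419 z (n 0 z
 (n 0 z (n 0 z (n 0 z (n 0 z (n 58 z (n 0 z z)))))))) (n 1 (n
 0x6a6309d991e81c9de9535e18a482d79467486a52875ba188a97e33e942a9de6662ac574516aab4e70041 z (n 0 z
 (n 6557747 z (n 6566419 z (n 6566419 z (n 0 z (n 0 z (n 66 z (n 74 z z))))))))) (n 0 (n 6631747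
 z (n 82 z (n 0 z (n 0 z (n 90 z (n 0 z (n 0 z (n 0 z z)))))))) z)))))) (n 477 (n 0 (n 0 z (n
 951 (n 0 z (n 0 z (n 0 z (n 0 z (n 0 z (n 0 z (n 0 z (n 0 z (n 0 z (n 0 z (n 0 z (n 0 z (n 0 z
 (n 0 z z)))))))))))))) (n 951 (n 0 z (n 0 z (n 0 z (n 0 z (n 0 z (n 0 z (n 0 z (n 0 z (n 0 z (n
 0 z (n 0 z (n 2 (n 0 z (n 1 z (n 2 (n 0 z (n 0 z (n 0 z (n 0 z (n 0 z (n 0 (n 3812 z z) z))))))
 (n 1 z (n 1 z (n 2 (n 0 z (n 0 z (n 0 z (n 0 z (n 0 z (n 0 z z)))))) (n 2 (n 0 z (n 0 z (n 0 z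
 (n 0 z (n 0 z (n 0 (n 8860683 z z) z)))))) (n 1 z z)))))))) (n 0 z (n 0 z z)))))))))))))) (n
 951 (n 0 z (n 0 z (n 0 z (n 0 z (n 0 z (n 0 z (n 0 z (n 2 (n 2 (n 0 z (n 0 z (n 0 z (n 0 z (n 0
 z (n 0 z z)))))) (n 2 (n 0 z (n 0 z (n 0 z (n 0 z (n 0 z (n 0 z z)))))) (n 1 z (n 1 z (n 2 (n 0
 z (n 0 z (n 0 z (n 0 z (n 0 z (n 0 z z)))))) (n 2 (n 0 z (n 0 z (n 0 z (n 0 z (n 0 z (n 0 z
 z)))))) (n 1 z z))))))) (n 0 z (n 0 z (n 0 z (n 0 z (n 0 z (n 0 z z)))))))))))))) (n 953 (n 0 z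
 (n 0 z (n 0 z (n 0 z (n 0 z (n 0 z (n 0 z (n 0 z (n 0 z (n 0 z (n 0 z (n 0 z (n 0 z
 z))))))))))))) (n 953 (n 0 z (n 0 z (n 0 z (n 0 z (n 0 z (n 0 z (n 0 z (n 0 z (n 0 z (n 0 z (n
 7476747 z (n 0 z (n 0 z z))))))))))))) (n 7 (n 0 z (n 0 z (n 0 z (n 0 z (n 0 z (n 0 z z))))))
 (n 3 (n 0 z (n 0 z (n 0 z (n 0 z (n 0 z (n 0 z (n 0 z (n 0 z (n 0 z (n 0 z (n 0 z (n 0 z (n 0 z
 (n 0 z (n 0 z (n 0 z (n 0 z (n 0 z z)))))))))))))))))) (n 3 (n 0 z (n 0 z (n 0 z (n 0 z (n 0 z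
 (n 0 z (n 0 z (n 0 z (n 0 z (n 0 z (n 0 z (n 0 z (n 0 z (n 0 z (n 2 (n 2 (n 0 z (n 0 z (n 0 z
 (n 0 z (n 0 z (n 0 z z)))))) (n 2 (n 0 z (n 0 z (n 0 z (n 0 z (n 0 z (n 0 z z)))))) z)) (n 0 z
 (n 0 z (n 0 z z)))))))))))))))))) (n 1 (n 0 z (n 0 z (n 2 (n 0 z z) (n 0 z (n 0 z (n 0 z (n 0 z
 (n 0 z (n 0 z (n 0 z z)))))))))) (n 1 (n 0 z (n 0 z (n 0 z (n 0 z (n 0 z (n 0 z (n 0 z (n 0 z
 (n 0 z (n 0 z z)))))))))) z))))))))))) (n 0 (n 923 (n 0 z (n 2 (n 0 z (n 0 z (n 1 z (n 2 (n 0 z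
 (n 0 z (n 0 z (n 0 z (n 0 z (n 0 z z)))))) (n 1 z (n 1 z (n 2 (n 0 z (n 0 z (n 0 z (n 0 z (n 0
 z (n 0 z z)))))) (n 2 (n 0 z (n 0 z (n 0 z (n 0 z (n 0 z (n 0 z z)))))) (n 1 z z))))))))) (n 0
 z (n 0 z (n 0 z (n 0 z z)))))) (n 923 (n 0 z (n 0 z (n 0 z (n 0 z (n 0 z (n 0 z z)))))) (n 923
 (n 0 z (n 0 z (n 0 z (n 0 z (n 0 z (n 2 (n 2 (n 0 z (n 0 z (n 0 z (n 0 z (n 0 z (n 0 z z))))))
 (n 2 (n 0 z (n 0 z (n 0 z (n 0 z (n 0 z (n 0 z z)))))) (n 1 z (n 1 z (n 2 (n 0 z (n 0 z (n 0 z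
 (n 0 z (n 0 z (n 0 z z)))))) (n 2 (n 0 z (n 0 z (n 0 z (n 0 z (n 0 z (n 0 z z)))))) (n 1 z
 z))))))) z)))))) (n 921 (n 2 (n 0 z (n 1 z (n 1 z (n 2 (n 0 z (n 0 z (n 0 z (n 0 z (n 0 z (n 0
 z z)))))) (n 2 (n 0 z (n 0 z (n 0 z (n 0 z (n 0 z (n 0 z z)))))) (n 1 z z)))))) (n 0 z (n 0 z
 (n 0 z (n 0 z (n 0 z (n 0 z (n 0 z (n 0 z (n 0 z (n 0 z (n 0 z (n 0 z (n 0 z (n 0 z (n 0 z (n 0
 z (n 0 z (n 0 z (n 0 z (n 0 z (n 0 z (n 0 z (n 0 z (n 0 z (n 0 z z)))))))))))))))))))))))))) (n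
 921 (n 0 z (n 0 z (n 0 z (n 0 z (n 0 z (n 0 z (n 0 z (n 0 z (n 0 z (n 0 z (n 2 (n 1 z (n 1 z (n
 2 (n 0 z (n 0 z (n 0 z (n 0 z (n 0 z (n 0 z z)))))) (n 2 (n 0 z (n 0 z (n 0 z (n 0 z (n 0 z (n
 0 z z)))))) (n 1 z z))))) (n
 0xfa76481657d956986687977746c8a817f9097736463b676a56a9a82944487a8946d679c6f7b687281a27b51c35d976d7b967d689f0049
 z (n 0 z (n 0 z (n 0 z (n 0 z (n 0 z (n 0 z (n 0 z (n 0 z (n 0 z (n 0 z (n 0 z (n 0 z (n 0 z (n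
 0 z z)))))))))))))))))))))))))) (n 1237 (n 2 (n 1 z (n 2 (n 0 z (n 0 z (n 0 z (n 0 z (n 0 z (n
 0 z z)))))) (n 1 z (n 1 z z)))) (n 0 z (n 0 z (n 0 z z)))) (n 913 (n 2 (n 0 z (n 1 z (n 1 z
 z))) (n 0 z (n 0 z (n 0 z (n 0 z (n 0 z (n 0 z (n 0 z (n 0 z z))))))))) (n 913 (n 0 z (n 0 z (n
 0 z (n 0 z (n 0 z (n 0 z (n 0 z (n 0 z (n 0 z z))))))))) (n 745 (n 0 z (n 0 z (n 0 z (n 0 z (n
 0 z (n 0 z (n 0 z z))))))) (n 745 (n 0 z (n 2 z (n 0 z (n 0 z (n 0 z (n 0 z (n 0 z z)))))))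
 z)))))))))) (n 0 (n 0 z (n 0 z (n 949 (n 0 z (n 0 z (n 0 z (n 0 z (n 0 z (n 0 z (n 0 z (n 0 z
 (n 0 z (n 0 z z)))))))))) (n 949 (n 0 z (n 0 z (n 0 z (n 0 z (n 0 z (n 0 z (n 0 z (n 0 z (n 2
 (n 1 z (n 1 z (n 2 (n 0 z (n 0 z (n 0 z (n 0 z (n 0 z (n 0 z z)))))) (n 2 (n 0 z (n 0 z (n 0 z
 (n 0 z (n 0 z (n 0 z z)))))) (n 1 z z))))) (n 0 z z)))))))))) (n 7 (n 0 z (n 0 z (n 0 z (n 0 z
 (n 0 z (n 0 z (n 0 z (n 0 z (n 0 z (n 0 z (n 0 z z))))))))))) (n 3 (n 0 z (n 0 z (n 0 z (n 0 z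
 (n 0 z (n 0 z (n 0 z z))))))) (n 3 (n 0 z (n 0 z (n 0 z (n 0 z (n 0 z (n 0 z (n 2 (n 2 (n 0 z
 (n 0 z (n 0 z (n 0 z (n 0 z (n 0 z z)))))) (n 2 (n 0 z (n 0 z (n 0 z (n 0 z (n 0 z (n 0 z
 z)))))) z)) z))))))) (n 1 (n 0 z (n 0 z (n 0 z (n 2 (n 0 z z) (n 0 z (n 0 z (n 0 z (n 0 z (n 0
 z (n 0 z (n 0 z (n 0 z (n 0 z z))))))))))))) (n 1 (n 0 z (n 0 z (n 0 z (n 0 z (n 0 z (n 0 z (n
 0 z (n 0 z (n 0 z (n 0 z (n 0 z (n 0 z (n 0 z z))))))))))))) z))))))))) (n 0 (n 0 z (n 933 (n 2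
 (n 0 z (n 1 z (n 1 z (n 2 (n 0 z (n 0 z (n 0 z (n 0 z (n 0 z (n 0 z z)))))) (n 2 (n 0 z (n 0 z
 (n 0 z (n 0 z (n 0 z (n 0 (n 8795147 z z) z)))))) (n 1 z z)))))) (n 0 z (n 0 z (n 0 z (n 0 z (n
 0 z (n 0 z (n 0 z (n 0 z (n 0 z (n 0 z (n 0 z (n 0 z (n 0 z (n 0 z (n 0 z (n 0 z (n 0 z (n 0 z
 (n 0 z (n 0 z (n 0 z (n 0 z (n 0 z (n 0 z (n 0 z (n 0 z (n 0 z z)))))))))))))))))))))))))))) (n
 933 (n 0 z (n 0 z (n 0 z (n 0 z (n 0 z (n 0 z (n 0 z (n 0 z (n 0 z (n 0 z (n 0 z (n 0 z (n 0 z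
 (n 0 z (n 0 z (n 0 z (n 2 (n 1 z (n 1 z (n 2 (n 0 z (n 0 z (n 0 z (n 0 z (n 0 z (n 0 z z))))))
 (n 2 (n 0 z (n 0 z (n 0 z (n 0 z (n 0 z (n 0 (n 8795147 z z) z)))))) (n 1 z z))))) (n 0 z (n 0
 z (n 0 z (n 0 z (n 0 z (n 0 z (n 0 z (n 0 z (n 0 z (n 0 z (n 0 z z))))))))))))))))))))))))))))
 (n 1285 (n 2 (n 1 z (n 2 (n 0 z (n 0 z (n 0 z (n 0 z (n 0 z (n 0 z z)))))) (n 1 z (n 1 z z))))
 (n 0 z (n 0 z (n 0 z (n 0 z (n 0 z (n 0 z (n 0 z (n 0 z z))))))))) (n 805 (n 2 (n 0 z (n 1 z (n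
 1 z z))) (n 0 z (n 0 z (n 0 z (n 0 z (n 0 z (n 0 z z))))))) (n 805 (n 0 z (n 0 z (n 0 z (n 0 z
 (n 2 (n 2 (n 0 z (n 0 z (n 0 z (n 0 z (n 0 z (n 0 z z)))))) (n 2 (n 0 z (n 0 z (n 0 z (n 0 z (n
 0 z (n 0 (n 3092 z z) z)))))) z)) (n 0 z (n 0 z z))))))) (n 773 (n 0 z (n 0 z (n 0 z (n 0 z (n
 0 z (n 0 z (n 0 z (n 0 z (n 0 z (n 0 z (n 0 z (n 0 z z)))))))))))) (n 773 (n 2 z (n 0 z (n 0 z
 (n 0 z (n 0 z (n 0 z (n 0 z (n 0 z (n 0 z (n 0 z (n 0 z (n 0 z z)))))))))))) z)))))))) (n 0 (n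
 949 (n 0 z (n 0 z (n 0 z (n 0 z (n 0 z (n 0 z (n 0 z (n 0 z (n 0 z (n 0 z (n 0 z (n 0 z (n 0 z
 (n 0 z (n 0 z (n 0 z (n 0 z (n 0 z (n 0 z (n 0 z (n 0 z (n 0 z (n 0 z (n 0 z (n 0 z (n 0 z (n 0
 z (n 0 z (n 0 z (n 0 z (n 0 z (n 0 z (n 0 z (n 0 z (n 0 z (n 0 z (n 0 z (n 0 z (n 0 z (n 0 z (n
 0 z z))))))))))))))))))))))))))))))))))))))))) (n 949 (n 0 z (n 0 z (n 0 z (n 0 z (n 0 z (n 0 z
 (n 0 z (n 0 z (n 0 z (n 0 z (n 0 z (n 0 z (n 0 z (n 0 z (n 0 z (n 0 z (n 0 z (n 0 z (n 0 z (n 0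
 z (n 0 z (n 0 z (n 0 z (n 0 z (n 0 z (n 0 z (n 0 z (n 0 z (n 0 z (n 0 z (n 0 z (n 0 z (n 0 z (n
 0 z (n 0 z (n 0 z (n 0 z (n 0 z (n 0 z (n 0 z (n 0 z z)))))))))))))))))))))))))))))))))))))))))
 (n 1045 (n 0 z (n 0 z (n 0 z (n 0 z (n 0 z (n 0 z (n 0 z z))))))) (n 913 (n 2 (n 0 z (n 2 (n 0
 z (n 0 z (n 0 z (n 0 z (n 0 z (n 0 (n 4132 z z) z)))))) (n 1 z z))) (n 0 z (n 0 z (n 0 z (n 0 z
 (n 0 z (n 0 z (n 0 z z)))))))) (n 913 (n 0 z (n 0 z (n 0 z (n 0 z (n 0 z (n 0 z (n 0 z (n 0 z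
 z)))))))) (n 1033 (n 0 z (n 0 z (n 0 z (n 0 z (n 2 (n 0 z z) (n 0 z (n 0 z (n 0 z z)))))))) (n
 1033 (n 0 z (n 0 z (n 0 z (n 0 z (n 0 z (n 0 z (n 0 z (n 0 z z)))))))) z))))))) (n 0 (n 0 z (n
 247 (n 0 z (n 0 z (n 0 z (n 0 z (n 0 z (n 0 z (n 0 z (n 0 z (n 0 z (n 0 z (n 0 z (n 0 z (n 0 z
 z))))))))))))) (n 243 (n 0 z (n 0 z (n 0 z (n 0 z (n 0 z (n 0 z (n 0 z (n 0 z (n 0 z (n 0 z
 z)))))))))) (n 243 (n 0 z (n 0 z (n 0 z (n 0 z (n 0 z (n 0 z (n 0 z (n 2 (n 2 (n 0 z (n 0 z (n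
 0 z (n 0 z (n 0 z (n 0 z z)))))) (n 2 (n 0 z (n 0 z (n 0 z (n 0 z (n 0 z (n 0 z z)))))) z)) (n
 0 z (n 0 z z)))))))))) (n 241 (n 0 z (n 0 z (n 0 z (n 0 z (n 0 z (n 0 z (n 0 z (n 0 z (n 0 z (n
 0 z (n 2 (n 0 z z) (n
 0xfa76081657d956986687977746c8a817f9097736463b676a56a9a82944487a8946d679c6f7b687281a27b51c35d976d7b967d689f0049
 z (n 0 z (n 0 z (n 0 z (n 0 z (n 0 z (n 0 z (n 0 z (n 0 z (n 0 z (n 0 z (n 0 z (n 0 z (n 0 z (n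
 0 z z)))))))))))))))))))))))))) (n 241 (n 0 z (n 0 z (n 0 z (n 0 z (n 0 z (n 0 z (n 0 z (n 0 z
 (n 0 z (n 0 z (n 0 z (n 0 z (n 0 z (n 0 z (n 0 z (n 0 z (n 0 z (n 0 z (n 0 z (n 0 z (n 0 z (n 0
 z (n 0 z (n 0 z (n 0 z (n 0 z z)))))))))))))))))))))))))) z)))))) (n 0 (n 1077 (n 0 z (n
 6428427 z (n 0 z (n 0 z (n 0 z (n 0 z (n 0 z (n 0 z (n 0 z (n 0 z (n 0 z (n 0 z (n 0 z
 z))))))))))))) (n 261 (n 0 z (n 0 z (n 0 z (n 0 z (n 0 z (n 6428427 z (n 0 z (n 0 z (n 0 z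
 z))))))))) (n 261 (n 0 z (n 0 z (n 0 z (n 0 z (n 0 z (n 0 z (n 0 z (n 0 z (n 0 z z))))))))) (n
 257 (n 0 z (n 0 z (n 0 z (n 0 z (n 0 z (n 0 z (n 0 z (n 0 z (n 0 z (n 0 z (n 2 (n 0 z z) (n 0 z
 (n 0 z z))))))))))))) (n 257 (n 0 z (n 0 z (n 0 z (n 0 z (n 0 z (n 0 z (n 0 z (n 0 z (n 0 z (n
 0 z (n 0 z (n 6428427 z (n 0 z z))))))))))))) z))))) (n 0 (n 99 (n 0 z (n 0 z (n 0 z (n 0 z (n
 0 z (n 0 z (n 0 z (n 0 z (n 0 z (n 0 z (n 0 z (n 0 z z)))))))))))) (n 99 (n 0 z (n 0 z (n 0 z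
 (n 0 z (n 0 z (n 0 z (n 0 z (n 0 z (n 0 z (n 0 z (n 2 (n 2 (n 0 z (n 0 z (n 0 z (n 0 z (n 0 z
 (n 0 z z)))))) (n 1 z z)) (n 0 z z)))))))))))) (n 97 (n 0 z (n 0 z (n 0 z (n 2 (n 0 z z) (n 0 z
 (n 0 z (n 0 z (n 0 z (n 0 z (n 0 z z)))))))))) (n 97 (n 0 z (n 0 z (n 0 z (n 0 z (n 0 z (n 0 z
 (n 0 z (n 0 z (n 0 z (n 0 z z)))))))))) z)))) (n 0 (n 0 z (n 145 (n 2 (n 0 z z) (n 0 z (n 0 z
 (n 0 z (n 0 z (n 0 z (n 0 z (n 0 z (n 0 z (n 0 z (n 0 z (n 0 z (n 0 z (n 0 z z)))))))))))))) (n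
 145 (n 0 z (n 0 z (n 0 z (n 0 z (n 0 z (n 0 z (n 0 z (n 0 z (n 0 z (n 0 z (n 0 z (n 0 z (n 0 z
 (n 0 z z)))))))))))))) z))) (n 0 (n 1 (n 0 z (n 0 z (n 0 z (n 0 z (n 0 z (n 0 z (n 0 z (n 0 z
 z)))))))) (n 1 (n 0 z (n 0 z (n 0 z (n 2 z (n 0 z (n 0 z (n 0 z (n 0 z z)))))))) z)) (n 0 (n 0
 z z) (n 0 z z)))))))))))) (n 0 (n 1 (n 6557747 z (n 6557747 z (n 6557747 z (n 6557747 z (n
 6557747 z (n 6557747 z z)))))) (n 1 (n 2 z (n 3804 z (n 3804 z (n 3804 z (n 3804 z (n 3804 z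
 z)))))) (n 0 z (n 0 z (n 1 (n 3804 z (n 3804 z (n 3812 z (n 3804 z (n 3804 z (n 3804 z z))))))
 (n 0 z (n 0 z (n 0 z z)))))))) (n 0 (n 0xa19b1db4495ca59a19a59b00 (n 0 (n 0 (n 7741699 z (n
 7741699 z (n 7741699 z (n 7741699 z (n 7741699 z (n 7741699 z z)))))) z) (n 0 (n 3 (n 1 (n
 7614995 z (n 7614995 z (n 7614995 z (n 7614995 z (n 7614995 z (n 7614995 z z)))))) (n 1 (n 2 z
 (n 7606323 z (n 3820 z (n 3820 z (n 3820 z (n 3820 z z)))))) (n 0 z (n 1 (n 7614995 z (n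
 7614995 z (n 7614995 z (n 7614995 z (n 7614995 z (n 7614995 z z)))))) (n 1 (n 7475299 z (n
 7606323 z (n 7475299 z (n 7475299 z (n 7475299 z (n 7475299 z z)))))) (n 0 z z)))))) (n 1 (n 1
 (n 3820 z (n 7680323 z (n 10 z (n 3820 z (n 3820 z (n 3820 z z)))))) (n 1 (n 7606323 z (n
 7606323 z (n 7606323 z (n 7606323 z (n 7606323 z (n 7606323 z z)))))) (n 1 (n 7741699 z (n
 7741699 z (n 7741699 z (n 7741699 z (n 7741699 z (n 7741699 z z)))))) (n 1 (n 7606323 z (n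
 7606323 z (n 7606323 z (n 7606323 z (n 7606323 z (n 7606323 z z)))))) (n 1 (n 3796 z (n 7680323
 z (n 3820 z (n 3820 z (n 3820 z (n 3820 z z)))))) (n 1 (n 3820 z (n 7680323 z (n 3820 z (n
 5519211 z (n 3820 z (n 3820 z z)))))) (n 1 (n 3820 z (n 7680323 z (n 3820 z (n 3820 z (n 3820 z
 (n 3820 z z)))))) z))))))) (n 475 (n 1 (n 7741699 z (n 7741699 z (n 7741699 z (n 7741699 z (n
 7741699 z (n 7741699 z z)))))) (n 1 (n 7741699 z (n 7741699 z (n 7741699 z (n 7741699 z (n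
 7741699 z (n 7741699 z z)))))) (n 0 z (n 1 (n 5445483 z (n 7614995 z (n 3820 z (n
 0x1994dd8900e0aec8ec86037c7483718d748090838a8280808d768a7e7c8b7176818b8990729264759078868396797d7682886f98558d6d858783818a811009
 z (n 3820 z (n 3820 z z)))))) (n 1 (n 7606323 z (n 7614995 z (n 7606323 z (n 7606323 z (n
 7606323 z (n 7606323 z z)))))) (n 0 z (n 1 (n 3820 z (n 7614995 z (n 7745803 z (n 3812 z (n
 3820 z (n 3820 z z)))))) (n 1 (n 3820 z (n 7614995 z (n 7745803 z (n 3820 z (n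
 0x329bb1201c076474030380ea4ca020382082085f82085f8218207e182081f7df86086081f82081f8de8207e181f85e85f82081f8611801
 z (n 3820 z z)))))) (n 1 (n 7476747 z (n 7614995 z (n 7476747 z (n 7476747 z (n 7745803 z (n
 7476747 z z)))))) (n 1 (n 7680323 z (n 7614995 z (n 7680323 z (n 7680323 z (n 7680323 z (n
 7680323 z z)))))) z)))))))))) (n 393 (n 1 (n 7741699 z (n 7614995 z (n 7614995 z (n 7614995 z
 (n 7614995 z (n 7614995 z z)))))) (n 1 (n 7741699 z (n 460 z (n 1036 z (n 7745803 z (n 7476747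
 z (n 460 z z)))))) (n 0 z (n 1 (n 7741699 z (n 7614995 z (n 7614995 z (n 7614995 z (n 7614995 z
 (n 7614995 z z)))))) (n 1 (n 7741699 z (n 7475299 z (n 7475299 z (n 7475299 z (n 7475299 z (n
 7475299 z z)))))) (n 0 z z)))))) (n 81 (n 1 (n 4108 z (n 7614995 z (n 7745803 z (n 1084 z (n
 7733787 z (n 4108 z z)))))) (n 1 (n 7606323 z (n 7614995 z (n 7606323 z (n 7606323 z (n 7606323
 z (n 7606323 z z)))))) (n 1 (n 7741699 z (n 7741699 z (n 7741699 z (n 7741699 z (n 7741699 z (n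
 7741699 z z)))))) (n 1 (n 7606323 z (n 7614995 z (n 7606323 z (n 7606323 z (n 7606323 z (n
 7606323 z z)))))) (n 1 (n 4108 z (n 7614995 z (n 4108 z (n 7745803 z (n 7733787 z (n 4108 z
 z)))))) (n 1 (n 5445483 z (n 7614995 z (n 4108 z (n 4108 z (n 4108 z (n 4108 z z)))))) (n 1 (n
 4108 z (n 7614995 z (n 7745803 z (n 7733787 z (n 18 z (n 4108 z z)))))) z))))))) (n 0 (n 1 (n
 7680323 z (n 7680323 z (n 7680323 z (n 7680323 z (n 7680323 z (n 7680323 z z)))))) (n 1 (n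
 7475299 z (n 5068 z (n 7476747 z (n 6424395 z (n 26 z (n 5068 z z)))))) (n 0 z (n 0 z (n 1 (n
 7741699 z (n 7741699 z (n 7741699 z (n 7741699 z (n 7741699 z (n 7741699 z z)))))) (n 0 z (n 0
 z (n 0 z z)))))))) (n 477 (n 1 (n 7741699 z (n 7606323 z (n 7606323 z (n 7606323 z (n 7606323 z
 (n 7606323 z z)))))) (n 1 (n 7741699 z (n 7733787 z (n 7733787 z (n 7733787 z (n 7733787 z (n
 7733787 z z)))))) (n 0 z (n 0 z (n 1 (n 7741699 z (n 3804 z (n 3812 z (n 7745803 z (n 3804 z (n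
 3804 z z)))))) (n 0 z (n 0 z (n 0 z z)))))))) z))))))) (n 0 (n 0 (n 0 z (n 0 z (n 0 z (n 0 z
 z)))) (n 0 (n 0 z (n 0 z (n 0 z z))) (n 0 (n 0 z (n 0 z z)) (n 0 (n 0 z z) z)))) (n 0 (n 477 (n
 0 (n 0 z (n 0 z (n 0 z (n 0 z z)))) (n 0 (n 0 z (n 0 z (n 0 z (n 0 z z)))) (n 0 (n 0 z (n 0 z
 (n 0 (n 0x6a8769d991e81c9de9135e18a482d81467486a52875aa188a97e33e742a9dd6a62ec5b4556aea4a70041
 z (n
 0x1876876503830cb0ca80391d6eb6a579871972b6dd7e481b6b67ea61ca65563a226d39169a089ba224f666671b95d8631001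
 z z)) (n 0 (n
 0xa18e109c06030ed0e4807788b769b7392776f707d7e8b7b728e6d738d788d858278817ea15ca28e737e639c4b9e737a7c8d8868b3718e848c746d83821009
 z (n
 0xae650e080365c8d591b92a864795b24aa75179947619f0a90a946ed7268735a62a69d588b69a967b1d7ea0801 z
 z)) z)))) (n 0 (n 0 z (n 0 z (n 0 z (n 0 z z)))) (n 0 (n 0 z (n 0 z (n 0 z (n 0 z z)))) (n 0 (n
 0 z (n 0 z (n 0 z (n 0 z z)))) (n 0 (n 0 (n
 0xfa87581657d956986687977746c8a817f9097736463b676a56a9a82944487a8946d679c6f7b687281a27b51c35d976d7b967d689f0049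
 z (n
 0x30cb0e840781f82081f8208207e08208228208608208208607df8208208208218208208208208208208200801 z
 z)) (n 0 (n
 0x30cb0e840781f82081f8208207e08208228208608208208607df8208208208218208208208208208208200801 z
 (n 7682091 z z)) (n 0 z (n 0 (n
 0xaa8768b75867d81798b7d876d7281838780947e6e759f81906d8c7b788d73838e7f85658c67908a7b768a5e93709f6f71928f6a8b0049
 z (n
 0x10ed0ec8078218617a08608207e08608217e086386079f8607e082081f7628237de8617e281f7e081f8200801 z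
 z)) z)))) (n 0 (n 0 z (n 0 z (n 0 z (n 0 z z)))) (n 0 (n 0 z (n 0 z (n 0 z (n 0 z z)))) (n 0 (n
 0 z (n 0 z (n 0 z (n 0 z z)))) (n 0 (n 0 z (n 0 (n 8521547 z z) (n 0 z (n 0 z z)))) (n 0 (n 0 z
 (n 0 z (n 0 z (n 0 z z)))) (n 0 (n 0 (n 8728899 z (n 8728899 z z)) (n 0 (n 8728899 z (n 8728899
 z z)) (n 0 z (n 0 z z)))) (n 0 (n 0 z (n 0 (n
 0x1a8758208207e08207e07618608617a08218a17a18a27df8217de7a186381e8217a18207df85f7df0041 z (n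
 8521547 z z)) (n 0 z (n 0 z z)))) z)))))))))))))) (n 477 (n 0 (n 0 z (n 0 z (n 0 z (n 0 z z))))
 (n 0 (n 0 z (n 0 z (n 0 z (n 0 z z)))) (n 0 (n 0 z (n 0 z (n 0 z (n 0 (n 8663571 z z) z)))) (n
 0 (n 0 z (n 0 z (n 0 z (n 0 z z)))) (n 0 (n 0 z (n 0 z (n 0 z (n 0 z z)))) (n 0 (n 0 z (n 0 z
 (n 0 z (n 0 z z)))) (n 0 (n 0 z (n 0 (n 8521547 z z) (n 0 z (n 0 z z)))) (n 0 (n 0 z (n 0 z (n
 0 z (n 0 z z)))) (n 0 (n 0 z (n 0 z (n 0 z (n 0 z z)))) (n 0 (n 0 (n 8654899 z z) (n 0 z (n 0 z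
 (n 0 z z)))) (n 0 (n 0 z (n 0 z (n 0 z (n 0 z z)))) (n 0 (n 0 z (n 0 z (n 0 z (n 0 z z)))) (n 0
 (n 0 (n
 0x1875874601810ed0c68078207e086082082082082082082082082082082081f8217e08208208208208208208208208211001
 z z) (n 0 (n 8521547 z z) (n 0 z (n 0 z z)))) z))))))))))))) (n 475 (n 0 (n 0 z (n 0 z (n 0 z
 (n 0 z z)))) (n 0 (n 0 z (n 0 z (n 0 z (n 0 z z)))) (n 0 (n 0 z (n 0 z (n 0 z (n 0 (n 8790275 z
 (n 8790275 z z)) z)))) (n 0 (n 0 (n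
 0xfa87381657d956986687977746c8a817f9097736463b676a56a9a82944487a8946d679c6f7b687281a27b51c35d976d7b967d689f0049
 z z) (n 0 z (n 0 z (n 0 z z)))) (n 0 (n 0 z (n 0 z (n 0 z (n 0 z z)))) (n 0 (n 0 z (n 0 z (n 0
 z (n 0 (n 8654899 z z) z)))) (n 0 (n 0 z (n 0 z (n 0 z (n 0 z z)))) (n 0 (n 0 z (n 0 z (n 0 z
 (n 0 z z)))) (n 0 (n 0 z (n 0 z (n 0 z (n 0 z z)))) (n 0 (n 0 z (n 0 z (n 0 (n 8728899 z z) (n
 0 z z)))) z)))))))))) (n 393 (n 0 (n 0 z (n 0 z (n 0 z (n 0 z z)))) (n 0 (n 0 z (n 0 z (n 0 z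
 (n 0 z z)))) (n 0 (n 0 (n
 0x1a8758208207e08207e07618608617a08218a17a18a27df8217de7a186381e8217a18207df85f7df0041 z z) (n
 0 (n 0x1a8758208207e08207e07618608617a08218a17a18a27df8217de7a186381e8217a18207df85f7df0041 z
 z) (n 0 z (n 0 z z)))) (n 0 (n 0 z (n 0 z (n 0 z (n 0 z z)))) (n 0 (n 0 z (n 0 z (n 0 z (n 0 z
 z)))) (n 0 (n 0 z (n 0 z (n 0 z (n 0 z z)))) z)))))) (n 57 (n 0 (n 0 z (n 0 z (n 0 z (n 0 z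
 z)))) (n 0 (n 0 z (n 0 z (n 0 z (n 0 z z)))) (n 0 (n 0 z (n 0 z (n 0 z (n 0 z z)))) (n 0 (n 0 z
 (n 0 z (n 0 z (n 0 z z)))) (n 0 (n 0 z (n 0 z (n 0 z (n 0 z z)))) (n 0 (n 0 z (n 0 z (n 0 z (n
 0 z z)))) (n 0 (n 0 z (n 0 z (n 0 z (n 0 z z)))) (n 0 (n 0 z (n 0 z (n 0 z (n 0 (n 8523875 z z)
 z)))) (n 0 (n 0 (n 8795995 z z) (n 0 z (n 0 z (n 0 z z)))) (n 0 (n 0 z (n 0 z (n 0 (n 8523875 z
 z) (n 0 z z)))) (n 0 (n 0 z (n 0 z (n 0 z (n 0 (n 8795995 z z) z)))) z))))))))))) (n 129 (n 0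
 (n 0 z (n 0 z (n 0 z (n 0 z z)))) (n 0 (n 0 z (n 0 z (n 0 z (n 0 z z)))) (n 0 (n 0 z (n 0 z (n
 0 z (n 0 z z)))) (n 0 (n 0 z (n 0 z (n 0 z (n 0 z z)))) (n 0 (n 0 (n
 0x5d921894060010c4c82a03006876865403807432c38a01c03219215000600b0a90a800784474d81e81f80b7d77578597ef83c82884c7c885b7358758577e57cb88476c8817ed7f78347df8367af8068087e780c80a8328007ba85481a81c7bb8707a98517e98037b28018237fe7e03011
 z (n 8795995 z z)) (n 0 z (n 0 z (n 0 z z)))) (n 0 (n 0 (n 8728899 z z) (n 0 (n 8728899 z z) (n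
 0 z (n 0 z z)))) (n 0 (n 0 z (n 0 (n 8521547 z z) (n 0 z (n 0 z z)))) (n 0 (n 0 (n
 0x30eb0e8c038207e08608208207e082086082086081f8208608208218208208208208608207e08208208200801 z
 z) (n 0 z (n 0 z (n 0 z z)))) (n 0 (n 0 z (n 0 z (n 0 z (n 0 z z)))) (n 0 (n 0 z (n 0 z (n 0 (n
 8790275 z z) (n 0 z z)))) (n 0 (n 0 z (n 0 z (n 0 z (n 0 z z)))) (n 0 (n 0 z (n 0 z (n 0 z (n 0
 (n 8525323 z (n 8525323 z z)) z)))) (n 0 (n 0 z (n 0 (n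
 0x1a8758208207e08207e07618608617a08218a17a18a27df8217de7a186381e8217a18207df85f7df0041 z (n
 7735371 z z)) (n 0 z (n 0 z z)))) z))))))))))))) (n 513 (n 0 (n 0 z (n 0 z (n 0 z (n 0 z z))))
 (n 0 (n 0 z (n 0 z (n 0 z (n 0 z z)))) (n 0 (n 0 z (n 0 z (n 0 z (n 0 z z)))) (n 0 (n 0 z (n 0
 z (n 0 z (n 0 z z)))) (n 0 (n 0 z (n 0 z (n 0 z (n 0 (n 8654899 z z) z)))) (n 0 (n 0 (n 8865083
 z z) (n 0 z (n 0 z (n 0 (n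
 0xfa87381657d956986687977746c8a817f9097736463b676a56a9a82944487a8946d679c6f7b687281a27b51c35d976d7b967d689f0049
 z z) z)))) (n 0 (n 0 z (n 0 z (n 0 z (n 0 z z)))) (n 0 (n 0 z (n 0 z (n 0 z (n 0 z z)))) (n 0
 (n 0 z (n 0 z (n 0 z (n 0 z z)))) (n 0 (n 0 z (n 0 z (n 0 z (n 0 z z)))) (n 0 (n 0 z (n 0 z (n
 0 z (n 0 z z)))) (n 0 (n 0 z (n 0 z (n 0 z (n 0 z z)))) (n 0 (n 0 (n 8865083 z z) (n 0 z (n 0 z
 (n 0 z z)))) (n 0 (n 0 z (n 0 z (n 0 z (n 0 z z)))) (n 0 (n 0 z (n 0 z (n 0 z (n 0 z z)))) (n 0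
 (n 0 z (n 0 z (n 0 z (n 0 z z)))) (n 0 (n 0 (n
 0x1a8758208207e08207e07618608617a08218a17a18a27df8217de7a186381e8217a18207df85f7df0041 z (n
 0x30eb0a24038208208208208218207e08208208208208208207e08208208608208208208208208208208200801 z
 z)) (n 0 z (n 0 z (n 0 z z)))) (n 0 (n 0 z (n 0 z (n 0 z (n 0 z z)))) z)))))))))))))))))) (n 81
 (n 0 (n 0 z (n 0 z (n 0 z (n 0 z z)))) (n 0 (n 0 z (n 0 z (n 0 z (n 0 z z)))) (n 0 (n 0 z (n 0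
 z (n 0 z (n 0 z z)))) (n 0 (n 0 z (n 0 z (n 0 z (n 0 z z)))) (n 0 (n 0 z (n 0 z (n 0 z (n 0 z
 z)))) (n 0 (n 0 z (n 0 z (n 0 z (n 0 z z)))) (n 0 (n 0 z (n 0 z (n 0 z (n 0 z z)))) z))))))) (n
 135 (n 0 (n 0 z (n 0 z (n 0 z (n 0 z z)))) (n 0 (n 0 z (n 0 z (n 0 z (n 0 z z)))) (n 0 (n 0 z
 (n 0 z (n 0 z (n 0 z z)))) (n 0 (n 0 z (n 0 z (n 0 z (n 0 z z)))) (n 0 (n 0 z (n 0 z (n 0 z (n
 0 z z)))) (n 0 (n 0 z (n 0 z (n 0 z (n 0 z z)))) (n 0 (n 0 z (n 0 z (n 0 z (n 0 z z)))) (n 0 (n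
 0 z (n 0 z (n 0 z (n 0 z z)))) (n 0 (n 0 (n 8865083 z z) (n 0 (n 8865083 z z) (n 0 z (n 0 z
 z)))) (n 0 (n 0 z (n 0 z (n 0 (n 8790275 z z) (n 0 z z)))) z)))))))))) (n 73 (n 0 (n 0 z (n 0 z
 (n 0 z (n 0 z z)))) (n 0 (n 0 z (n 0 z (n 0 z (n 0 z z)))) (n 0 (n 0 z (n 0 z (n 0 z (n 0 z
 z)))) (n 0 (n 0 z (n 0 z (n 0 z (n 0 z z)))) (n 0 (n 0 z (n 0 z (n 0 z (n 0 z z)))) (n 0 (n 0 z
 (n 0 z (n 0 z (n 0 z z)))) (n 0 (n 0 z (n 0 z (n 0 z (n 0 z z)))) (n 0 (n 0 z (n 0 z (n 0 z (n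
 0 z z)))) (n 0 (n 0 (n 8848939 z (n 8848939 z z)) (n 0 z (n 0 z (n 0 z z)))) (n 0 (n 0 z (n 0 z
 (n 0 z (n 0 z z)))) (n 0 (n 0 z (n 0 z (n 0 z (n 0 z z)))) (n 0 (n 0 z (n 0 z (n 0 z (n 0 z
 z)))) z)))))))))))) (n 633 (n 0 (n 0 z (n 0 z (n 0 z (n 0 (n 8728899 z z) z)))) (n 0 (n 0 (n
 8728899 z z) (n 0 (n 8728899 z z) (n 0 z (n 0 z z)))) (n 0 (n 0 z (n 0 z (n 0 z (n 0 z z)))) (n
 0 (n 0 z (n 0 z (n 0 z (n 0 z z)))) (n 0 (n 0 z (n 0 z (n 0 z (n 0 z z)))) (n 0 (n 0 (n 8654899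
 z (n 8654899 z z)) (n 0 (n 8654899 z (n 8654899 z z)) (n 0 z (n 0 z z)))) (n 0 (n 0 z (n 0 z (n
 0 z (n 0 z z)))) (n 0 (n 0 z (n 0 z (n 0 z (n 0 z z)))) (n 0 (n 0 z (n 0 z (n 0 z (n 0 z z))))
 (n 0 (n 0 (n 8848939 z (n 8848939 z z)) (n 0 (n 8848939 z (n 8848939 z z)) (n 0 z (n 0 (n
 8848939 z (n 8848939 z z)) z)))) z)))))))))) (n 105 (n 0 (n 0 z (n 0 z (n 0 z (n 0 z z)))) (n 0
 (n 0 z (n 0 z (n 0 z (n 0 z z)))) (n 0 (n 0 z (n 0 z (n 0 z (n 0 z z)))) (n 0 (n 0 z (n 0 z (n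
 0 z (n 0 z z)))) (n 0 (n 0 (n
 0x1a8738208207e08207e07618608617a08218a17a18a27df8217de7a186381e8217a18207df85f7df0041 z (n
 0x874874201830e70864078208208208208208208208208208208208208207df8207e08208208208208208208208208201001
 z z)) (n 0 z (n 0 z (n 0 z z)))) (n 0 (n 0 (n 8654899 z z) (n 0 (n 8654899 z z) (n 0 z (n 0 z
 z)))) (n 0 (n 0 z (n 0 (n
 0x1864832703810e90e84038207a08608218217e182082082086081f7e085f8607e082081f7e18207e08208208208218201001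
 z z) (n 0 z (n 0 z z)))) (n 0 (n 0 (n
 0x1864832703810e90e84038207a08218208207e08208208208608208208608208208208208218208208208208208208201001
 z z) (n 0 z (n 0 z (n 0 z z)))) (n 0 (n 0 z (n 0 z (n 0 z (n 0 z z)))) (n 0 (n 0 z (n 0 z (n 0
 (n 8523875 z z) (n 0 z z)))) (n 0 (n 0 z (n 0 z (n 0 z (n 0 z z)))) (n 0 (n 0 z (n 0 z (n 0 z
 (n 0 (n 8848939 z (n 8848939 z z)) z)))) (n 0 (n 0 z (n 0 (n
 0x1a8738208207e08207e07618608617a08218a17a18a27df8217de7a186381e8217a18207df85f7df0041 z (n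
 0xfa87381657d956986687977746c8a817f9097736463b676a56a9a82944487a8946d679c6f7b687281a27b51c35d976d7b967d689f0049
 z z)) (n 0 z (n 0 z z)))) z))))))))))))) (n 141 (n 0 (n 0 z (n 0 z (n 0 z (n 0 z z)))) (n 0 (n
 0 z (n 0 z (n 0 z (n 0 (n 8525323 z (n 8525323 z z)) z)))) (n 0 (n 0 z (n 0 z (n 0 z (n 0 z
 z)))) (n 0 (n 0 z (n 0 z (n 0 z (n 0 (n 8728899 z z) z)))) (n 0 (n 0 (n 8728899 z z) (n 0 z (n
 0 z (n 0 z z)))) (n 0 (n 0 (n 8728899 z z) (n 0 z (n 0 z (n 0 z z)))) (n 0 (n 0 (n 8728899 z z)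
 (n 0 (n 8728899 z z) (n 0 z (n 0 z z)))) (n 0 (n 0 (n 8728899 z (n 8728899 z z)) (n 0 (n
 8728899 z (n 8728899 z z)) (n 0 z (n 0 z z)))) (n 0 (n 0 (n 8728899 z (n 8728899 z z)) (n 0 (n
 8728899 z (n 8728899 z z)) (n 0 (n 8728899 z (n 8728899 z z)) (n 0 (n 8728899 z (n 8728899 z
 z)) z)))) (n 0 (n 0 (n 8728899 z (n 8728899 z z)) (n 0 (n 8728899 z (n 8728899 z z)) (n 0 z (n
 0 z z)))) (n 0 (n 0 z (n 0 z (n 0 z (n 0 z z)))) (n 0 (n 0 z (n 0 z (n 0 z (n 0 (n 8860683 z z)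
 z)))) (n 0 (n 0 (n 8525323 z (n 8525323 z z)) (n 0 z (n 0 z (n 0 z z)))) (n 0 (n 0 (n
 0x1a8738208207e08207e07618608617a08218a17a18a27df8217de7a186381e8217a18207df85f7df0041 z (n
 0xfa81081657d956986687977746c8a817f9097736463b676a56a9a82944487a8946d679c6f7b687281a27b51c35d976d7b967d689f0049
 z z)) (n 0 (n
 0xfa81081657d956986687977746c8a817f9097736463b676a56a9a82944487a8946d679c6f7b687281a27b51c35d976d7b967d689f0049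
 z (n
 0xfa81081657d956986687977746c8a817f9097736463b676a56a9a82944487a8946d679c6f7b687281a27b51c35d976d7b967d689f0049
 z z)) (n 0 z (n 0 (n
 0xa87382082085f8208217a18208217e08608a07e18a182082181f7e08227df81f7e082081f85f7e00041 z (n
 8521547 z z)) z)))) (n 0 (n 0 z (n 0 (n
 0x1a8738208207e08207e07618608617a08218a17a18a27df8217de7a186381e8217a18207df85f7df0041 z (n
 8521547 z z)) (n 0 z (n 0 z z)))) (n 0 (n 0 (n 8525323 z (n 8525323 z z)) (n 0 (n 8525323 z (n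
 8525323 z z)) (n 0 z (n 0 z z)))) (n 0 (n 0 z (n 0 z (n 0 z (n 0 z z)))) (n 0 (n 0 (n
 0x1a8738208207e08207e07618608617a08218a17a18a27df8217de7a186381e8217a18207df85f7df0041 z (n
 0x10ed0ec80382081f8de7e18208208207e082185f8208208608df8208207df7e182081f81e8218218208200801 z
 z)) (n 0 z (n 0 z (n 0 z z)))) (n 0 (n 0 z (n 0 z (n 0 z (n 0 z z)))) (n 0 (n 0 z (n 0 z (n 0 z
 (n 0 z z)))) (n 0 (n 0 z (n 0 (n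
 0x43b43b181c0864864303830e90e80038617e08207e08207e08608218208208208208608607e08608a082082081f8208208208208201801
 z z) (n 0 z (n 0 z z)))) (n 0 (n 0 z (n 0 z (n 0 z (n 0 z z)))) (n 0 (n 0 (n
 0xfa87381657d956986687977746c8a817f9097736463b676a56a9a82944487a8946d679c6f7b687281a27b51c35d976d7b967d689f0049
 z z) (n 0 z (n 0 z (n 0 z z)))) (n 0 (n 0 z (n 0 (n
 0x121da18d00e0b0ed0c0803816a867a86777c917d8c8087808874877c808e7776898d8a9b7a9467798c768082877983757f8d6b945e89728690857687821009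
 z (n
 0xc3b438200c1876864301810c90c800781f7df91f82086076489f7e075f86189f7a28a195d7a381e89c82281d7207dd8617a18a08211801
 z z)) (n 0 z (n 0 z z)))) (n 0 (n 0 z (n 0 z (n 0 (n 8790275 z z) (n 0 z z)))) (n 0 (n 0 z (n 0
 z (n 0 z (n 0 z z)))) z)))))))))))))))))))))))))) (n 97 (n 0 (n 0 z (n 0 z (n 0 z (n 0 z z))))
 (n 0 (n 0 z (n 0 (n 8728899 z z) (n 0 z (n 0 z z)))) (n 0 (n 0 z (n 0 z (n 0 z (n 0 z z)))) (n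
 0 (n 0 z (n 0 z (n 0 z (n 0 z z)))) (n 0 (n 0 z (n 0 (n 8860683 z z) (n 0 z (n 0 z z)))) (n 0
 (n 0 z (n 0 z (n 0 z (n 0 z z)))) (n 0 (n 0 z (n 0 z (n 0 z (n 0 z z)))) (n 0 (n 0 z (n 0 z (n
 0 z (n 0 (n 8521547 z z) z)))) (n 0 (n 0 z (n 0 (n 8521547 z z) (n 0 z (n 0 z z)))) (n 0 (n 0 z
 (n 0 z (n 0 z (n 0 z z)))) z)))))))))) (n 96 (n 0 (n 0 z (n 0 z (n 0 z (n 0 z z)))) (n 0 (n 0 z
 (n 0 z (n 0 z (n 0 z z)))) (n 0 (n 0 z (n 0 z (n 0 z (n 0 (n 8848939 z (n 8848939 z z)) z))))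
 (n 0 (n 0 z (n 0 z (n 0 z (n 0 z z)))) (n 0 (n 0 z (n 0 z (n 0 z (n 0 (n 8663571 z z) z)))) (n
 0 (n 0 z (n 0 z (n 0 z (n 0 z z)))) (n 0 (n 0 (n 8663571 z z) (n 0 z (n 0 z (n 0 z z)))) (n 0
 (n 0 z (n 0 z (n 0 z (n 0 z z)))) (n 0 (n 0 (n
 0xfa81081657d956986687977746c8a817f9097736463b676a56a9a82944487a8946d679c6f7b687281a27b51c35d976d7b967d689f0049
 z (n
 0xfa81081657d956986687977746c8a817f9097736463b676a56a9a82944487a8946d679c6f7b687281a27b51c35d976d7b967d689f0049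
 z z)) (n 0 (n
 0xfa81081657d956986687977746c8a817f9097736463b676a56a9a82944487a8946d679c6f7b687281a27b51c35d976d7b967d689f0049
 z (n
 0xfa81081657d956986687977746c8a817f9097736463b676a56a9a82944487a8946d679c6f7b687281a27b51c35d976d7b967d689f0049
 z z)) (n 0 z (n 0 z z)))) (n 0 (n 0 z (n 0 z (n 0 z (n 0 z z)))) (n 0 (n 0 z (n 0 z (n 0 z (n 0
 z z)))) (n 0 (n 0 z (n 0 z (n 0 z (n 0 (n 8848939 z z) z)))) (n 0 (n 0 z (n 0 (n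
 0x221ce1c980606ec8ea84036b8f6d8b7c93936e787c77838c65b5635288956d8f73878d91915b928b9470619f618e84557aa8796d9862778e998965808e1009
 z z) (n 0 z (n 0 z z)))) (n 0 (n 0 z (n 0 z (n 0 z (n 0 z z)))) z)))))))))))))) (n 477 (n 0 (n
 0 z (n 0 z (n 0 z (n 0 z z)))) (n 0 (n 0 z (n 0 z (n 0 z (n 0 z z)))) (n 0 (n 0 z (n 0 z (n 0 z
 (n 0 z z)))) (n 0 (n 0 z (n 0 z (n 0 z (n 0 z z)))) (n 0 (n 0 z (n 0 z (n 0 z (n 0 z z)))) (n 0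
 (n 0 z (n 0 z (n 0 z (n 0 (n
 0xfa87481657d956986687977746c8a817f9097736463b676a56a9a82944487a8946d679c6f7b687281a27b51c35d976d7b967d689f0049
 z z) z)))) (n 0 (n 0 z (n 0 z (n 0 z (n 0 z z)))) (n 0 (n 0 z (n 0 (n 8865083 z (n 8865083 z
 z)) (n 0 z (n 0 z z)))) z)))))))) (n 475 (n 0 (n 0 z (n 0 z (n 0 z (n 0 z z)))) (n 0 (n 0 z (n
 0 z (n 0 (n
 0xb28727c68857a7e7c78907b87777e8e83888669748186808989ab8c6f886a7f9777857f9f717a5a85907375727280838e8e8076880049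
 z (n
 0x1876730503850a90a80037dd79e89e8a18227e47a17a082181f8e08628a179c8a275f91f7df82285e81d81e7e28a17e11001
 z z)) (n 0 (n
 0x2e650e080382081f89f8208608208607a181f82086082185f89f82082081f82182079f81e85e7e08618210801 z
 (n 0xce650e08035db91391a9ac866793ba4b69415a127a1a34b0cb106b16e78784e7167a128866579a9b9e7ed0801
 z z)) z)))) (n 0 (n 0 z (n 0 z (n 0 z (n 0 z z)))) (n 0 (n 0 z (n 0 z (n 0 z (n 0 z z)))) (n 0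
 (n 0 z (n 0 z (n 0 z (n 0 (n 8728899 z z) z)))) (n 0 (n 0 (n 8795995 z z) (n 0 z (n 0 z (n 0 z
 z)))) (n 0 (n 0 z (n 0 z (n 0 z (n 0 z z)))) (n 0 (n 0 z (n 0 z (n 0 z (n 0 z z)))) (n 0 (n 0
 (n 8654899 z z) (n 0 z (n 0 z (n 0 z z)))) (n 0 (n 0 (n 8654899 z (n 8654899 z z)) (n 0 (n
 8654899 z (n 8654899 z z)) (n 0 z (n 0 (n 8654899 z (n 8654899 z z)) z)))) z)))))))))) (n 476
 (n 0 (n 0 z (n 0 z (n 0 z (n 0 z z)))) (n 0 (n 0 z (n 0 z (n 0 z (n 0 z z)))) (n 0 (n 0 z (n 0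
 z (n 0 z (n 0 z z)))) (n 0 (n 0 z (n 0 z (n 0 z (n 0 z z)))) (n 0 (n 0 z (n 0 z (n 0 z (n 0 (n
 8790275 z (n 8790275 z z)) z)))) (n 0 (n 0 z (n 0 z (n 0 z (n 0 z z)))) (n 0 (n 0 z (n 0 z (n 0
 z (n 0 (n 8795995 z z) z)))) (n 0 (n 0 z (n 0 z (n 0 z (n 0 z z)))) (n 0 (n 0 z (n 0 z (n 0 (n
 8663571 z z) (n 0 (n 8663571 z z) z)))) (n 0 (n 0 z (n 0 (n 8521547 z z) (n 0 z (n 0 z z)))) (n
 0 (n 0 (n
 0x1852750403810e90e820385e8218608218208208207df82082082086082085f8207e085f8208627e085f7e08218218201001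
 z z) (n 0 z (n 0 z (n 0 z z)))) (n 0 (n 0 (n 8663571 z z) (n 0 z (n 0 z (n 0 z z)))) (n 0 (n 0
 z (n 0 z (n 0 z (n 0 z z)))) (n 0 (n 0 z (n 0 z (n 0 z (n 0 z z)))) (n 0 (n 0 z (n 0 z (n 0 z
 (n 0 z z)))) (n 0 (n 0 (n
 0x1a8758208207e08207e07618608617a08218a17a18a27df8217de7a186381e8217a18207df85f7df0041 z (n
 0x30a90a80037df79e95d8de8607e382272379e8a089e86386085a86479d89d79f8207df89d89f7a28628630801 z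
 z)) (n 0 z (n 0 z (n 0 z z)))) (n 0 (n 0 z (n 0 z (n 0 z (n 0 z z)))) (n 0 (n 0 z (n 0 z (n 0 z
 (n 0 z z)))) (n 0 (n 0 (n
 0x1a8758208207e08207e07618608617a08218a17a18a27df8217de7a186381e8217a18207df85f7df0041 z (n
 0x10a90a80037e07df89f81f8608208207e082086082082082181e8217de86086082182085f81f7e18218210801 z
 z)) (n 0 (n
 0x1a8758208207e08207e07618608617a08218a17a18a27df8217de7a186381e8217a18207df85f7df0041 z (n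
 0x874874001810a30a20037df7df89f8228217e18207e082085f81f86186089e8207df89f8218617df85d8208208618611001
 z z)) (n 0 z (n 0 z z)))) (n 0 (n 0 z (n 0 z (n 0 z (n 0 z z)))) (n 0 (n 0 z (n 0 z (n 0 z (n 0
 z z)))) (n 0 (n 0 z (n 0 z (n 0 z (n 0 z z)))) (n 0 (n 0 z (n 0 z (n 0 z (n 0 z z)))) (n 0 (n 0
 (n 8865083 z (n 8865083 z z)) (n 0 (n 8865083 z (n 8865083 z z)) (n 0 z (n 0 (n
 0xfa87481657d956986687977746c8a817f9097736463b676a56a9a82944487a8946d679c6f7b687281a27b51c35d976d7b967d689f0049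
 z (n 8795995 z z)) z)))) (n 0 (n 0 z (n 0 (n
 0x862740503830e908600781e81e89e7a38228228207a082185f85f8a186089f81f81e8de7df8227dc89b8a08218e18221001
 z (n 8795995 z z)) (n 0 z (n 0 z z)))) (n 0 (n 0 (n 8865083 z (n 8865083 z z)) (n 0 z (n 0 z (n
 0 z z)))) (n 0 (n 0 z (n 0 z (n 0 z (n 0 (n
 0xfa81081657d956986687977746c8a817f9097736463b676a56a9a82944487a8946d679c6f7b687281a27b51c35d976d7b967d689f0049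
 z z) z)))) (n 0 (n 0 z (n 0 (n
 0x1a8758208207e08207e07618608617a08218a17a18a27df8217de7a186381e8217a18207df85f7df0041 z (n
 8521547 z z)) (n 0 z (n 0 z z)))) (n 0 (n 0 z (n 0 z (n 0 z (n 0 (n
 0xca873816a7e916e856c7a79767087817f8d93756a69aa789f6f9582915086a08f716c96727c6d76819b7c5bb66492717c927c6c990049
 z z) z)))) (n 0 (n 0 (n
 0x1a8758208207e08207e07618608617a08218a17a18a27df8217de7a186381e8217a18207df85f7df0041 z z) (n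
 0 z (n 0 z (n 0 z z)))) (n 0 (n 0 z (n 0 z (n 0 z (n 0 z z)))) (n 0 (n 0 (n 8794379 z (n
 8794379 z z)) (n 0 (n 8794379 z (n 8794379 z z)) (n 0 z (n 0 (n 8794379 z (n 8794379 z z))
 z)))) z)))))))))))))))))))))))))))))))) (n 3 (n 0 (n 0 z (n 0 z (n 0 z (n 0 z z)))) (n 0 (n 0 z
 (n 0 z (n 0 z (n 0 z z)))) (n 0 (n 0 (n 8794379 z z) (n 0 z (n 0 z (n 0 z z)))) (n 0 (n 0 z (n
 0 z (n 0 z (n 0 z z)))) (n 0 (n 0 z (n 0 z (n 0 z (n 0 z z)))) (n 0 (n 0 z (n 0 z (n 0 z (n 0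
 (n 8663571 z z) z)))) (n 0 (n 0 z (n 0 z (n 0 z (n 0 z z)))) (n 0 (n 0 z (n 0 z (n 0 z (n 0 (n
 8663571 z (n 8663571 z z)) z)))) z)))))))) (n 1 (n 0 (n 0 z (n 0 z (n 0 (n 8794379 z z) (n 0 z
 z)))) (n 0 (n 0 z (n 0 z (n 0 z (n 0 z z)))) (n 0 (n 0 z (n 0 z (n 0 z (n 0 z z)))) (n 0 (n 0 z
 (n 0 z (n 0 z (n 0 z z)))) (n 0 (n 0 z (n 0 z (n 0 z (n 0 z z)))) (n 0 (n 0 z (n 0 z (n 0 z (n
 0 z z)))) (n 0 (n 0 z (n 0 z (n 0 z (n 0 z z)))) (n 0 (n 0 z (n 0 z (n 0 z (n 0 z z)))) (n 0 (n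
 0 z (n 0 z (n 0 z (n 0 z z)))) z))))))))) (n 0 (n 0 (n 0 z (n 0 z (n 0 z (n 0 (n 8728899 z z)
 z)))) (n 0 (n 0 z (n 0 z (n 0 z (n 0 z z)))) (n 0 (n 0 z (n 0 z (n 0 z (n 0 (n 8860683 z z)
 z)))) (n 0 (n 0 (n
 0x1a8738208207e08207e07618608617a08218a17a18a27df8217de7a186381e8217a18207df85f7df0041 z (n
 0xfa87381657d956986687977746c8a817f9097736463b676a56a9a82944487a8946d679c6f7b687281a27b51c35d976d7b967d689f0049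
 z z)) (n 0 (n
 0x874874201830e70864078208207e08208208208207e082081f86082086082082082081f82082082081f8208208208201001
 z (n
 0x30e90e64038207e08608208207e08208217df86081f7e086081f82181f8208208208608608208208208600801 z
 z)) (n 0 z (n 0 (n
 0x1287381f86081f7e18207a08208617a08608a17e18a27df8217de7e082181f8207e082082085f7e10041 z (n
 8521547 z z)) z)))) (n 0 (n 0 z (n 0 z (n 0 z (n 0 z z)))) (n 0 (n 0 (n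
 0x1d95d9480e0000010e90e84031021 z z) (n 0 (n 8860683 z z) (n 0 z (n 0 z z)))) (n 0 (n 0 z (n 0
 z (n 0 z (n 0 z z)))) (n 0 (n 0 (n
 0x1874874201830e70864078207e08208208208208208208208208208208607df8207e08208208208208208208208208201001
 z z) (n 0 z (n 0 z (n 0 z z)))) z)))))))) z))))))))))))))))))))) z)))) z) z)))) (n 0 (n 0 (n
 477 (n 3282443 z (n 4331019 z (n 0 z (n
 0x3b2a329900c00000195150c80e00000cc86a864038000038000057ffffb7ffff680000d7ffff78000137fffe280000c7ffff78000008000067fffe47ffff480000380000280001a8000017ffffe8000167ffffb7ffffa7fffee7ffff880000d8000108000007ffffd7fffed8000058000027fffe08000138000037ffff780002b7ffff780000480000b7fffef80001b7fffd98000148000057ffffb7fffe180000c80000a8000088000001819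
 z (n 0 z (n 0 z (n 0 z (n
 0xd951950806000000ca6ca6403000017654643203800000b29321081c00004d909508406000032ca4c642077ffffb80001c7ffffe80000e8000027fffea80000f8000067ffffb7ffffc7fffe28000078000118000027ffff27ffffb8000058000038000028000267fffe28000098000088000267ffff480001d80000080000080001e7fffff8000127ffff47fffc87fffdb8000018000267fffdd7fffd280000380000f7ffff57fffd27ffff18000008000377fffef7fffde7fffef7ffff67fffff3019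
 z (n 0 z (n 0 z (n 0 z (n
 0xe2ca4ca280300015565464320380005cb21321081c0001159098c840e0002e6a84c642077fff648001d27fffef7fff618000007ffdf48002168000b08001137fff587ffead80014d7fffca80010f80001080015b8000e67ffe247fff1d8000387fff318000d680004a8000fe7fff5580007080000080002280019d80010480022e7fff997ffcef7ffdba8000568000f27ffef07ffded7ffe6d8003817ffff77ffcca8000557fffb38002e37fff077ffd2a7fff2a8000147fffb42819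
 z (n 0 z (n 0 z z)))))))))))))) (n 461 (n 6496515 z (n 0 z (n 0 z (n 0 z z)))) (n 51 (n 0 z (n
 0 z (n 0 z (n 0 z (n 0 z (n 0 z (n 0 z (n 0 z (n 6496515 z z))))))))) (n 3 (n 6496515 z (n
 4331067 z (n
 0x5b59499410060001f6a42c60807000230654654201800121321321081c00008d5098c840e000460c84c840078001268000ee7fff528002da80006d7ffd807ffdab8005857ffe4a7fff0f7fff488000c880091e7fff9b7ffe2980017c7ffbec7ffed78004007ffc078001018001f18009657fff3a7fff097fff3b8000007ffc8d80048f7fff7c7fff0d8004077ff6eb7ffe4c8004267ffd537fffb67ffbc47ffeff800db07ffb1d8004247ff9f57ffdca8002b48005c97ff8317ff9c47fffca7ffabf3019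
 z (n 0 z (n 0 z (n 6496515 z (n 0 z (n 0 z (n 0 z (n 0 z (n 0 z z))))))))))) (n 1 (n 2164299 z
 (n 0 z (n 0 z (n 0 z z)))) (n 0 (n 2164315 z (n 0 z (n 0 z (n 0 z (n 0 z (n 0 z (n 0 z (n 0 z
 z)))))))) z)))))) (n 461 z (n 0 (n 1 (n 6496515 z (n 6496515 z (n 6496515 z (n 6496515 z (n
 6496515 z (n 6496515 z z)))))) (n 0 z (n 0 z (n 0 z z)))) (n 0 z z)))) (n
 0xb33b45509b4444ca167240a132a0897503639904955102569423a2a11 (n 0 (n 323 (n 0 z (n 3282443 z (n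
 0 z (n 0 z (n 0 z z))))) (n 257 (n 0 z (n 0 z (n 3278363 z (n 2 z (n 10 z (n 18 z (n 0 z
 z))))))) (n 129 (n 0 z (n
 0x57d61080077680007e7ff4e7800e728002a78007477ff50f7ffab17ff50b8003567ffae67ffed28000118001998000b28003807ffee880007b7ffcb680033b7ffba380023b8000ff7ffdfe8001148004ad7ffe9880008a7fffff8001197fff737ffa6980024b7ff9da8002f88000567ffccc8000e080003c80006e7ffddb8003ef7ffef480033180029a7ffff48000fa80005a7fffc28000080059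
 z (n 0 z (n 0 z (n
 0x57d61080077680007e7ff4e7800e728002a78007477ff50f7ffab17ff50b8003567ffae67ffed28000118001998000b28003807ffee880007b7ffcb680033b7ffba380023b8000ff7ffdfe8001148004ad7ffe9880008a7fffff8001197fff737ffa6980024b7ff9da8002f88000567ffccc8000e080003c80006e7ffddb8003ef7ffef480033180029a7ffff48000fa80005a7fffc28000080059
 z (n 0 z (n 0 z (n 6636083 z (n 26 z z))))))))) (n 3 (n 0 z (n 0 z (n 0 z (n 6636291 z (n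
 6489419 z (n 34 z (n 42 z (n 6636291 z z)))))))) (n 1 (n
 0xd653ab8244d38cae4665458b647b84827f92817f6b9464908275839e82867780805f8e4d90807e897a806f9e7b9b8f81818085810049
 z (n 6636083 z (n 6636083 z (n 0 z (n 0 z (n 0 z (n 6636291 z (n 0 z (n
 0xd632ab8244d38cae4665458b647b84827f92817f6b9464908275839e82867780805f8e4d90807e897a806f9e7b9b8f81818085810049
 z (n 50 z (n 0 z (n 58 z (n 0 z (n 66 z (n 6636291 z (n 0 z z)))))))))))))))) (n 0 (n 0 z (n 0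
 z (n 0 z (n 0 z (n 0 z (n 0 z (n 0 z (n 6636083 z (n 0 z (n 74 z (n 82 z (n 0 z (n 0 z (n 0 z
 (n 0 z (n 6636291 z z)))))))))))))))) z)))))) (n 323 (n 0 (n 0 z (n 0 z (n 259 (n 0 z (n 0 z (n
 0 z (n 0 z (n 0 z (n 0 z (n 0 z z))))))) (n 513 (n 0 z (n 0 z (n 0 z (n 0 z (n 0 z z))))) (n
 513 (n 0 z (n 0 z (n 0 z (n 0 z (n 0 z z))))) (n 255 (n 0 z (n 0 z (n 0 z z))) (n 255 (n 0 z (n
 0 z (n 0 z z))) (n 255 (n 0 z (n 0 z (n 0 z z))) (n 257 (n 0 z (n 0 z (n 0 z (n 0 z (n 0 z (n 0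
 z (n 0 z (n 0 z (n 0 z (n 0 z (n 0 z z))))))))))) (n 257 (n 0 z (n 0 z (n 0 z (n 0 z (n 0 z (n
 0 z (n 0 z (n 0 z (n 0 z (n 0 z (n 0 z z))))))))))) z)))))))))) (n 0 (n 0 z (n 283 (n 0 z (n 0
 z (n 0 z (n 0 z (n 0 z (n 0 z (n 0 z z))))))) (n 513 (n 0 z (n 0 z (n 0 z (n 0 z (n 0 z (n 0 z
 (n 0 z (n 0 z (n 0 z (n 0 z (n 0 z z))))))))))) (n 513 (n 0 z (n 0 z (n 0 z (n 0 z (n 0 z (n 0
 z (n 0 z (n 0 z (n 0 z (n 0 z (n 0 z z))))))))))) (n 281 (n 0 z (n 0 z (n 0 z (n 0 z (n 0 z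
 z))))) (n 281 (n 0 z (n 0 z (n 0 z (n 0 z (n 0 z z))))) (n 281 (n 0 z (n 0 z (n 0 z (n 0 z (n 0
 z z))))) (n 505 (n 0 z (n 0 z (n 0 z z))) (n 505 (n 0 z (n 0 z (n 0 z z))) z))))))))) (n 0 (n
 271 (n 0 z (n 0 z (n 0 z (n 0 z (n 0 z (n 0 z (n 0 z (n 2 (n 1 z (n 1 z (n 1 z (n 1 z (n 1 z (n
 1 z (n 2 (n 0 (n 980 z (n 8718123 z z)) (n 0 z (n 0 (n 8717851 z z) (n 0 z (n 0 z (n 0 (n 980 z
 z) z)))))) z))))))) (n 0 z z))))))))) (n 247 (n 0 z (n 0 z (n 0 z (n 2 (n 0 z (n 2 (n 0 z (n 0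
 z (n 0 z (n 0 z (n 0 z (n 0 z z)))))) (n 2 (n 0 z (n 0 z (n 0 z (n 0 z (n 0 z (n 0 z z)))))) (n
 2 (n 0 z (n 0 z (n 0 z (n 0 z (n 0 z (n 0 z z)))))) (n 2 (n 0 z (n 0 z (n 0 z (n 0 z (n 0 z (n
 0 z z)))))) (n 2 (n 0 z (n 0 z (n 0 z (n 0 z (n 0 z (n 0 z z)))))) z)))))) (n 0 z (n 0 z (n 0 z
 z))))))) (n 247 (n 0 z (n 0 z (n 0 z (n 0 z (n 0 z (n 0 z (n 0 z z))))))) (n 3 (n 0 z (n 0 z (n
 0 z (n 0 z z)))) (n 3 (n 0 z (n 2 (n 0 z (n 2 (n 0 z (n 0 z (n 0 z (n 0 z (n 0 z (n 0 z z))))))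
 (n 2 (n 0 z (n 0 z (n 0 z (n 0 z (n 0 z (n 0 z z)))))) z))) (n 0 z (n 0 z z)))) (n 3 (n 0 z (n
 0 z (n 0 z (n 0 z z)))) (n 245 (n 0 z (n 0 z (n 0 z (n 0 z (n 0 z (n 0 z (n 0 z (n 0 z (n 0 z
 z))))))))) (n 245 (n 0 z (n 0 z (n 0 z (n 0 z (n 0 z (n 0 z (n 0 z (n 0 z (n 0 z z)))))))))
 z)))))))) (n 0 (n 7 (n 0 z (n 2 (n 0 z (n 2 (n 0 (n 972 z (n 7682155 z z)) (n 0 z (n 0 (n 972 z
 (n 7682155 z z)) (n 0 (n 8717867 z (n 8717867 z z)) (n 0 z (n 0 (n 972 z (n 972 z z)) z))))))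
 (n 2 (n 0 (n 37 z (n 37 z z)) (n 0 z (n 0 (n 972 z z) (n 0 (n 972 z z) (n 0 z (n 0 z z)))))) (n
 2 (n 0 z (n 0 z (n 0 z (n 0 z (n 0 z (n 0 z z)))))) (n 2 (n 0 z (n 0 z (n 0 z (n 0 z (n 0 z (n
 0 z z)))))) (n 2 (n 0 z (n 0 z (n 0 z (n 0 z (n 0 z (n 0 z z)))))) z)))))) (n 0 z (n 0 z z))))
 (n 7 (n 2 (n 1 z (n 1 z (n 1 z (n 1 z (n 2 (n 0 z (n 0 z (n 0 (n 964 z (n 8525579 z z)) (n 0 (n
 8718107 z (n 8656443 z z)) (n 0 (n 8718107 z (n 964 z z)) (n 0 (n 8717867 z (n 8525579 z z))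
 z)))))) z))))) (n 0 z (n 0 z (n 0 z z)))) (n 243 (n 0 z (n 0 z (n 0 z (n 0 z (n 0 z (n 0 z (n 0
 z z))))))) (n 243 (n 0 z (n 0 z (n 0 z (n 2 (n 0 z (n 2 (n 0 z (n 0 z (n 0 (n 8872243 z (n
 8872243 z z)) (n 0 (n 8872243 z (n 8872243 z z)) (n 0 z (n 0 (n 8872243 z (n 8872243 z z))
 z)))))) (n 2 (n 0 (n 6428795 z (n 6428795 z z)) (n 0 (n 8589411 z z) (n 0 z (n 0 z (n 0 z (n 0
 (n 8717867 z z) z)))))) z))) (n 0 z (n 0 z (n 0 z z))))))) (n 243 (n 0 z (n 0 z (n 0 z (n 0 z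
 (n 2 (n 2 (n 0 z (n 0 z (n 0 z (n 0 z (n 0 z (n 0 z z)))))) (n 2 (n 0 z (n 0 (n 8589411 z (n
 8589411 z z)) (n 0 (n 964 z (n 8718107 z z)) (n 0 z (n 0 z (n 0 (n 8717867 z (n 8717867 z z))
 z)))))) z)) (n 0 z (n 0 z z))))))) (n 241 (n 0 z (n 0 z (n 0 z (n 0 z (n 0 z (n 0 z (n 0 z (n 0
 z (n 0 z z))))))))) (n 241 (n 0 z (n 0 z (n 0 z (n 0 z (n 0 z (n 0 z (n 0 z (n 0 z (n 0 z
 z))))))))) z))))))) (n 0 (n 0 z (n 9 (n 0 z (n 0 z (n 0 z (n 0 z (n 0 z (n 0 z (n 0 z (n 0 z (n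
 0 z (n 0 z (n 0 z (n 0 z (n 0 z (n 0 z (n 0 z (n 0 z (n 0 z (n 0 z (n 0 z (n 0 z (n 0 z (n
 0xd760ab8244d38cae4665458b647b84827f92817f6b9464908275839e82867780805f8e4d90807e897a806f9e7b9b8f81818085810049
 z (n 0 z z))))))))))))))))))))))) (n 9 (n 0 z (n 0 z (n 0 z (n 0 z (n 0 z (n 0 z (n 0 z (n 0 z
 (n 0 z (n 0 z (n 0 z (n 0 z (n 0 z (n 0 z (n 0 z (n 0 z (n 0 z (n 0 z (n 0 z (n 0 z (n 0 z (n 0
 z (n 0 z z))))))))))))))))))))))) (n 9 (n 0 z (n 0 z (n 0 z (n 0 z (n 0 z (n 0 z (n 0 z (n 0 z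
 (n 0 z (n 2 (n 2 (n 0 z (n 0 z (n 0 z (n 0 z (n 0 z (n 0 z z)))))) (n 2 (n 0 z (n 0 z (n 0 z (n
 0 z (n 0 z (n 0 z z)))))) z)) (n 0 z (n 0 z (n 0 z (n 0 z (n 0 z (n 0 z (n 0 z (n 0 z (n 0 z (n
 0 z (n 0 z (n 0 z (n 0 z z))))))))))))))))))))))) (n 601 (n 0 z (n
 0xd760ab8244d38cae4665458b647b84827f92817f6b9464908275839e82867780805f8e4d90807e897a806f9e7b9b8f81818085810049
 z (n 0 z (n 0 z (n 0 z (n 0 z (n 0 z (n 0 z (n 0 z (n 0 z z)))))))))) (n 601 (n 0 z (n 0 z (n 0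
 z (n 0 z (n 0 z (n 0 z (n 0 z (n 0 z (n 0 z (n 0 z z)))))))))) z)))))) (n 0 (n 99 (n 0 z (n 0 z
 (n 0 z (n 0 z (n 0 z (n
 0x57d76080077680007e7ff4e7800e728002a78007477ff50f7ffab17ff50b8003567ffae67ffed28000118001998000b28003807ffee880007b7ffcb680033b7ffba380023b8000ff7ffdfe8001148004ad7ffe9880008a7fffff8001197fff737ffa6980024b7ff9da8002f88000567ffccc8000e080003c80006e7ffddb8003ef7ffef480033180029a7ffff48000fa80005a7fffc28000080059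
 z (n 0 z (n 0 z (n 0 z (n 0 z (n 0 z (n 0 z (n 0 z z))))))))))))) (n 99 (n 0 z (n 0 z (n 0 z (n
 0 z (n 0 z (n 0 z (n 0 z (n 2 (n 0 z (n 2 (n 0 z (n 0 z (n 0 z (n 0 z (n 0 z (n 0 z z)))))) (n
 2 (n 0 z (n 0 z (n 0 z (n 0 z (n 0 z (n 0 z z)))))) z))) (n 0 z (n 0 z (n 0 z (n 0 z (n 0 z
 z))))))))))))) (n 99 (n 0 z (n 0 z (n 0 z (n 0 z (n 0 z (n 0 z (n 0 z (n 0 z (n 0 z (n 0 z (n 0
 z (n 0 z (n 0 z z))))))))))))) (n 721 (n 0 z (n 0 z (n 0 z (n 0 z (n 0 z (n 0 z (n 0 z (n 0 z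
 (n 0 z (n 0 z (n 0 z (n 0 z (n 0 z (n 0 z (n 0 z (n 0 z (n 0 z (n 0 z (n 0 z (n
 0x57d76080077680007e7ff4e7800e728002a78007477ff50f7ffab17ff50b8003567ffae67ffed28000118001998000b28003807ffee880007b7ffcb680033b7ffba380023b8000ff7ffdfe8001148004ad7ffe9880008a7fffff8001197fff737ffa6980024b7ff9da8002f88000567ffccc8000e080003c80006e7ffddb8003ef7ffef480033180029a7ffff48000fa80005a7fffc28000080059
 z (n 0 z (n 0 z (n 0 z (n 0 z (n 0 z (n 0 z z)))))))))))))))))))))))))) (n 721 (n 0 z (n 0 z (n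
 0 z (n 0 z (n 0 z (n 0 z (n 0 z (n 0 z (n 0 z (n 0 z (n 0 z (n 0 z (n 0 z (n 0 z (n 0 z (n 0 z
 (n 0 z (n 0 z (n 0 z (n 0 z (n 0 z (n 2 z (n 0 z (n 0 z (n 0 z (n 0 z
 z)))))))))))))))))))))))))) z))))) (n 0 (n 0 z (n 0 z (n 389 (n 0 z (n 0 z (n 0 z (n 0 z (n 0 z
 (n 0 z (n 0 z (n 0 z (n 0 z z))))))))) (n 389 (n 0 z (n 0 z (n 0 z (n 0 z (n 0 z (n 0 z (n 0 z
 (n 0 z (n 2 z z))))))))) z)))) (n 0 (n 0 z (n 253 (n 0 z (n 0 z (n 0 z (n 0 z (n 0 z (n 0 z (n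
 0 z (n 0 z (n 0 z (n 0 z (n 0 z (n 0 z (n 0 z (n 0 z (n 0 z (n 0 z z)))))))))))))))) (n 253 (n
 0 z (n 0 z (n 0 z (n 0 z (n 0 z (n 0 z (n 0 z (n 0 z (n 0 z (n 0 z (n 0 z (n 0 z (n 0 z (n 0 z
 (n 0 z (n 2 z z)))))))))))))))) z))) (n 0 (n 145 (n 0 z (n 0 z (n 0 z (n 0 z (n 0 z (n 0 z (n 0
 z (n 0 z (n 0 z z))))))))) (n 145 (n 0 z (n 0 z (n 2 z (n 0 z (n 0 z (n 0 z (n 0 z (n 0 z (n 0
 z z))))))))) z)) (n 0 (n 0 z z) (n 0 z z))))))))))) (n 0 (n 0 z (n 1 (n 3282443 z (n 3282443 z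
 (n 6636291 z (n 3282443 z (n 3282443 z (n 3282443 z z)))))) (n 0 z (n 0 z (n 0 z z))))) (n 0 z
 z)))) (n 0xcd574655ba1e76562a6e4a338ca1ae72d0e28f0b11583ab4cc531e621 (n 0 (n 585 (n 3282443 z
 (n 0 z (n 0 z (n 0 z (n 0 z (n 0 z z)))))) (n 33 (n 6357803 z (n 6496515 z (n 0 z (n 2 z (n 0 z
 (n 0 z (n 6496515 z (n 0 z (n 0 z (n 0 z (n 10 z z))))))))))) (n 9 (n 18 z (n
 0x13565481758080867e7a77a24b898b77827382858179926092826d9c7c8584847b84917a9b5e65746aa1728a896da4ab6ea64c7ea40049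
 z (n 0 z (n 26 z (n 0 z (n 34 z (n 6496515 z (n 0 z (n 0 z (n 0 z (n 0 z z))))))))))) (n 3 (n 0
 z (n 42 z (n 50 z (n 6566419 z (n 0 z (n 0 z (n 6496515 z z))))))) (n 1 (n 6566419 z (n 0 z (n
 58 z (n 0 z (n 0 z z))))) (n 0 (n 2164315 z (n 66 z (n 0 z (n 0 z (n 74 z (n 82 z z))))))
 z)))))) (n 1 (n 0 (n 0 z (n 1155 (n 0 z (n 0 z (n 0 z (n 0 z (n 0 z (n 0 z (n 0 z (n 2 (n 0 z
 (n 0 z (n 2 (n 0 z (n 0 z (n 0 z (n 0 z (n 0 z (n 0 z z)))))) (n 2 (n 0 z (n 0 z (n 0 z (n 0 z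
 (n 0 z (n 0 z z)))))) (n 1 z (n 2 (n 0 z (n 0 z (n 0 z (n 0 z (n 0 z (n 0 z z)))))) (n 2 (n 0
 (n 7477339 z (n 260 z z)) (n 0 (n 7477339 z (n 260 z z)) (n 0 z (n 0 z (n 0 z (n 0 (n 260 z (n
 260 z z)) z)))))) (n 2 (n 0 (n 260 z (n 260 z z)) (n 0 (n 260 z (n 260 z z)) (n 0 z (n 0 z (n 0
 z (n 0 (n 260 z (n 7743547 z z)) z)))))) z)))))))) (n 0 z z))))))))) (n 1155 (n 0 z (n 0 z (n 0
 z (n 0 z (n 0 z (n 0 z (n 0 z (n 0 z (n 0 z z))))))))) (n 1155 (n 0 z (n 0 z (n 0 z (n 0 z (n 0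
 z (n 0 z (n 0 z (n 0 z (n 0 z z))))))))) (n 507 (n 2 (n 0 z (n 2 (n 0 (n 37 z (n 7538763 z z))
 (n 0 (n 252 z (n 7677979 z z)) (n 0 z (n 0 z (n 0 (n 7538763 z (n 7677979 z z)) (n 0 z z))))))
 (n 2 (n 0 z (n 0 z (n 0 z (n 0 z (n 0 z (n 0 z z)))))) (n 2 (n 0 z (n 0 z (n 0 z (n 0 z (n 0 z
 (n 0 z z)))))) (n 2 (n 0 z (n 0 z (n 0 z (n 0 z (n 0 z (n 0 z z)))))) z))))) (n 0 z (n 0 z (n 0
 z (n 0 z (n 0 z (n 0 z (n 0 z (n 0 z (n 0 z (n 0 z (n 0 z (n 0 z z))))))))))))) (n 507 (n 0 z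
 (n 0 z (n 0 z (n 0 z (n 0 z (n 0 z (n 0 z (n 0 z (n 0 z (n 0 z (n 0 z (n 0 z (n 0 z
 z))))))))))))) (n 63 (n 0 z (n 0 z (n 0 z (n 2 (n 1 z (n 1 z (n 1 z z))) (n 0 z (n 0 z (n 0 z
 (n 0 z z)))))))) (n 65 (n 0 z (n 0 z (n 0 z (n 0 z (n 0 z (n 0 z (n 0 z (n 0 z (n 0 z
 z))))))))) (n 65 (n 0 z (n 0 z (n 0 z (n 0 z (n 0 z (n 0 z (n 0 z (n 0 z (n 0 z z))))))))) (n
 65 (n 0 z (n 0 z (n 0 z (n 0 z (n 0 z (n 0 z (n 0 z (n 0 z (n 0 z z))))))))) z)))))))))) (n 0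
 (n 1155 (n 0 z (n 0 z (n 0 z (n 0 z (n 0 z (n 0 z (n 0 z (n 0 z (n 0 z (n 0 z (n 0 z (n 0 z (n
 0 z (n 0 z (n 0 z (n 0 z (n 0 z (n 0 z (n 0 z (n 0 z (n 0 z (n 0 z (n 0 z (n 0 z (n 0 z (n 0 z
 z)))))))))))))))))))))))))) (n 1155 (n 0 z (n 0 z (n 0 z (n 0 z (n 0 z (n 0 z (n 0 z (n 0 z (n
 0 z (n 0 z (n 0 z (n 0 z (n 0 z (n 0 z (n 0 z (n 0 z (n 0 z (n 0 z (n 0 z (n 0 z (n 0 z (n 0 z
 (n 0 z (n 0 z (n 2 (n 0 z (n 2 (n 0 z (n 0 z (n 0 z (n 0 z (n 0 z (n 0 z z)))))) (n 2 (n 0 z (n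
 0 z (n 0 z (n 0 z (n 0 z (n 0 z z)))))) (n 2 (n 0 z (n 0 z (n 0 z (n 0 z (n 0 z (n 0 z z))))))
 (n 2 (n 0 z (n 0 z (n 0 z (n 0 z (n 0 z (n 0 z z)))))) (n 2 (n 0 z (n 0 z (n 0 z (n 0 z (n 0 z
 (n 0 z z)))))) (n 2 (n 0 z (n 0 z (n 0 z (n 0 z (n 0 z (n 0 z z)))))) z))))))) (n 0 z
 z)))))))))))))))))))))))))) (n 1155 (n 0 z (n 0 z (n 0 z (n 0 z (n 0 z (n 0 z (n 0 z (n 0 z (n
 0 z (n 0 z (n 0 z (n 0 z (n 0 z (n 0 z (n 0 z (n 0 z (n 0 z (n 0 z (n 0 z (n 0 z (n 0 z (n 0 z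
 (n 0 z (n 0 z (n 0 z (n 0 z z)))))))))))))))))))))))))) (n 507 (n 0 z (n 0 z (n 0 z (n 0 z (n 0
 z (n 0 z (n 0 z z))))))) (n 507 (n 0 z (n 0 z (n 0 z (n 0 z (n 0 z (n 0 z (n 0 z z))))))) (n 69
 (n 0 z (n 2 (n 1 z (n 1 z (n 1 z z))) (n 0 z (n 0 z (n 0 z (n 0 z z)))))) (n 65 (n 2 (n 0 z (n
 0 z z)) (n 0 z (n 0 z (n 0 z (n 0 z (n 0 z (n 0 z (n 0 z (n 0 z (n 0 z (n 0 z z))))))))))) (n
 65 (n 0 z (n 0 z (n 0 z (n 0 z (n 0 z (n 0 z (n 0 z (n 0 z (n 0 z (n 0 z (n 0 z z))))))))))) (n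
 65 (n 0 z (n 0 z (n 0 z (n 0 z (n 0 z (n 0 z (n 0 z (n 0 z (n 0 z (n 0 z (n 0 z z)))))))))))
 z))))))))) (n 0 (n 0 z (n 0 z (n 1421 (n 0 z (n 0 z (n 0 z (n 0 z (n 0 z (n 0 z (n 2 (n 0 z (n
 2 (n 0 z (n 0 z (n 0 z (n 0 (n 8734571 z z) (n 0 z (n 0 z z)))))) (n 2 (n 0 z (n 0 z (n 0 z (n
 0 z (n 0 z (n 0 z z)))))) (n 2 (n 0 z (n 0 z (n 0 z (n 0 z (n 0 z (n 0 z z)))))) (n 2 (n 0 z (n
 0 z (n 0 z (n 0 z (n 0 z (n 0 z z)))))) z))))) z))))))) (n 1421 (n 0 z (n 0 z (n 0 z (n 0 z (n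
 0 z (n 0 z (n 0 z z))))))) (n 21 (n 0 z (n 0 z (n 0 z (n 0 z (n 2 (n 1 z (n 1 z (n 1 z z))) (n
 0 z (n 0 z (n 0 z z)))))))) (n 17 (n 0 z (n 0 z (n 0 z (n 0 z (n 0 z (n 0 z (n 0 z (n 0 z (n 0
 z (n 0 z (n 0 z (n 0 z (n 0 z (n 0 z (n 0 z (n 2 (n 0 z (n 0 z z)) (n 0 z (n 0 z (n 0 z (n 0 z
 z)))))))))))))))))))) (n 17 (n 0 z (n 0 z (n 0 z (n 0 z (n 0 z (n 0 z (n 0 z (n 0 z (n 0 z (n 0
 z (n 0 z (n 0 z (n 0 z (n 0 z (n 0 z (n 0 z (n 0 z (n 0 z (n 0 z (n 0 z z))))))))))))))))))))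
 (n 17 (n 0 z (n 0 z (n 0 z (n 0 z (n 0 z (n 0 z (n 0 z (n 0 z (n 0 z (n 0 z (n 0 z (n 0 z (n 0
 z (n 0 z (n 0 z (n 0 z (n 0 z (n 0 z (n 0 z (n 0 z z)))))))))))))))))))) z)))))))) (n 0 (n 0 z
 (n 1165 (n 0 z (n 0 z (n 2 (n 0 z (n 2 (n 0 z (n 0 (n 7538763 z (n 7671939 z z)) (n 0 (n
 6623363 z (n 6623363 z z)) (n 0 z (n 0 (n 7671939 z (n 6629403 z z)) (n 0 z z)))))) (n 2 (n 0 z
 (n 0 z (n 0 z (n 0 z (n 0 z (n 0 z z)))))) (n 2 (n 0 z (n 0 z (n 0 z (n 0 z (n 0 z (n 0 z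
 z)))))) (n 2 (n 0 z (n 0 z (n 0 z (n 0 z (n 0 z (n 0 z z)))))) z))))) (n 0 z (n 0 z (n 0 z (n 0
 z (n 0 z (n 0 z z))))))))) (n 1165 (n 0 z (n 0 z (n 0 z (n 0 z (n 0 z (n 0 z (n 0 z (n 0 z (n 0
 z z))))))))) (n 21 (n 0 z (n 2 (n 1 z (n 1 z (n 1 z z))) (n 0 z (n 0 z (n 0 z (n 0 z (n 0 z (n
 0 z z)))))))) (n 17 (n 0 z (n 0 z (n 0 z (n 0 z (n 0 z (n 0 z (n 0 z (n 0 z z)))))))) (n 17 (n
 0 z (n 0 z (n 0 z (n 0 z (n 0 z (n 0 z (n 0 z (n 0 z z)))))))) (n 17 (n 0 z (n 0 z (n 0 z (n 0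
 z (n 0 z (n 0 z (n 0 z (n 0 z z)))))))) z))))))) (n 0 (n 273 (n 0 z (n 0 z (n 0 z (n 0 z (n 2
 (n 0 z (n 2 (n 0 z (n 0 (n 7538763 z (n 7671939 z z)) (n 0 (n 6623363 z (n 6623363 z z)) (n 0 z
 (n 0 (n 7671939 z (n 7677979 z z)) (n 0 z z)))))) (n 2 (n 0 z (n 0 z (n 0 z (n 0 z (n 0 z (n 0
 z z)))))) (n 2 (n 0 z (n 0 z (n 0 z (n 0 z (n 0 z (n 0 z z)))))) (n 2 (n 0 z (n 0 z (n 0 z (n 0
 z (n 0 z (n 0 z z)))))) z))))) (n 0 z (n 0 z (n 0 z (n 0 z z))))))))) (n 273 (n 0 z (n 0 z (n 0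
 z (n 0 z (n 0 z (n 0 z (n 0 z (n 0 z (n 0 z z))))))))) (n 15 (n 0 z (n 0 z (n 0 z (n 0 z (n 0 z
 (n 0 z z)))))) (n 17 (n 0 z (n 0 z (n 0 z (n 0 z (n 0 z (n 0 z (n 0 z (n 0 z (n 0 z z)))))))))
 (n 17 (n 0 z (n 0 z (n 0 z (n 0 z (n 0 z (n 0 z (n 0 z (n 0 z (n 0 z z))))))))) (n 17 (n 0 z (n
 0 z (n 0 z (n 0 z (n 0 z (n 0 z (n 0 z (n 0 z (n 0 z z))))))))) z)))))) (n 0 (n 0 z (n 9 (n 0 z
 (n 0 z (n 0 z (n 0 z (n 0 z (n 0 z (n 0 z z))))))) (n 5 (n 0 z (n 0 z (n 0 z (n 0 z (n 0 z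
 z))))) (n 5 (n 0 z (n 0 z (n 0 z (n 0 z (n 0 z z))))) (n 5 (n 0 z (n 0 z (n 0 z (n 0 z (n 0 z
 z))))) z))))) (n 0 (n 9 (n 0 z (n 0 z (n 0 z (n 0 z (n 0 z (n 0 z z)))))) (n 5 (n 0 z (n 0 z (n
 0 z (n 0 z (n 0 z (n 0 z z)))))) (n 5 (n 0 z (n 0 z (n 0 z (n 0 z (n 0 z (n 0 z z)))))) (n 5 (n
 0 z (n 0 z (n 0 z (n 0 z (n 0 z (n 0 z z)))))) z)))) (n 0 (n 49 (n 2 (n 0 z (n 0 z z)) (n 0 z
 (n 0 z (n 0 z (n 0 z (n 0 z z)))))) (n 49 (n 0 z (n 0 z (n 0 z (n 0 z (n 0 z (n 0 z z)))))) (n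
 49 (n 0 z (n 0 z (n 0 z (n 0 z (n 0 z (n 0 z z)))))) z))) (n 0 (n 0 z (n 0 z z)) (n 0 (n 0 z z)
 (n 0 z z))))))))))) (n 0 (n 1 (n 6566419 z (n 6566419 z (n 6566419 z (n 6566419 z (n 6566419 z
 (n 6566419 z z)))))) (n 0 z (n 1 (n 4684 z (n 5514779 z (n 5509219 z (n 4684 z (n 4684 z (n
 4684 z z)))))) (n 0 z (n 0 z z))))) (n 0 z z)))) (n 0xa24ae106c715543395d00 (n 0 (n 477 (n 0 z
 (n 6554395 z (n 4331019 z (n 3282443 z (n 4331019 z (n 0 z (n 0 z (n 0 z (n 0 z (n 0 z (n 0 z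
 (n 0 z (n
 0x5a99328200c2195195080e06ca6ca64030965465120383b2a2a0900c199510c480e00a86ca04070a5416502018132a32a080c059494c840e1aca886420384817b7d82807d85827c847b8279827d897e71817b887786807d6f80807b7d7c8f787a877b85817d818388847d8984847c815809
 z (n 0 z (n
 0x2ca8ca8407808081817e808082807f7f81827f828180807f81807f8183807f7c828080818080808181817e7e80818083808180808080800809
 z (n 0 z (n 0 z (n 0 z (n
 0x595195080e02ca6a8240780817f807e807f807f808080808080808080807f81807f7f807f7e80807f837f827f828081808080807f8080807f807f82801009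
 z (n 0 z (n 0 z (n 0 z (n
 0xb6435421018d319319081c154c98c040eee8c81dc9903b832092807e77847d86817e837e808b7f83818194818079946e95807e808480888580807c857b8596848f78818879837b78857e9318c9
 z (n 2 z (n
 0xca8ca84038080808080808180818080808080808080808080807f80808080808080807f8080808080808080808080807f8080808080800809
 z (n 0 z z)))))))))))))))))))))))))) (n 383 (n 0 z (n 0 z (n 6496515 z (n 0 z (n 0 z (n 0 z (n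
 0 z (n 10 z z)))))))) (n 53 (n 6496515 z (n 0 z (n
 0x2ca8ca800380807e7f808080808080807f8080808180807f7f808180808080807e80807f818080808080818080808180808080808080800809
 z (n 0 z (n
 0xca8ca800380817f808080807f8080807f8080808080808080808080808080808080808080807f808080808080808080808080808081800809
 z (n 0 z (n 0 z (n 0 z (n 0 z (n 6496515 z (n 0 z (n
 0x2ca8ca800380807e7f808080808080807f8080808180807f7f808180808080807e80807f818080808080818080808180808080808080800809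
 z (n
 0x2ca8ca800380807e7f808080808080807f8080808180807f7f808180808080807e80807f818080808080818080808180808080808080800809
 z (n
 0x2ca8ca820380807f808280817c808180807e817e80808080817f81817f8080847e80807f7f8080807f808181807f817e807f80808080800809
 z z)))))))))))))) (n 123 (n 4331067 z (n 6496515 z (n 4331067 z (n
 0x4595194040e0aca4ca0207176640a68c80ec9901d83208c848078807a7c817e8a80817e838981718d8c7584887b85807d80808080867f807e8c7684817d877e8484778180798685841109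
 z (n 0 z (n 6496515 z (n 0 z (n 0 z (n 0 z (n 0 z (n
 0x2b29328a00c1194944100602ca8a8040382827d7f857f827b7f7f817f81807b81828181837f8281817c80817a80857d817f8580807f80807f807e7f7e81817e8380801809
 z (n 0 z (n 0 z (n 0 z (n 6567179 z (n 0 z (n 0 z (n 6496515 z z)))))))))))))))))) (n 1 (n 18 z
 (n 6567179 z (n 0 z (n 0 z (n 26 z z))))) (n 0 (n 0 z (n
 0x4ca88624038081808080808081807f7f7f828080808080808080808080808080808080807e807f818180808080808080807f80808180800809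
 z (n 0 z (n 2164315 z (n 0 z (n 0 z (n 0 z (n
 0x2c86c8640380807e7f808080808080807f8080808180807f7f808180808080807e80807f818080808080818080808180808080808080800809
 z (n 0 z (n 0 z (n
 0xc84c8260380807f808080808080808080808081818180808080808081807f7f8080808080817f818080807f80808081808080818080800809
 z (n
 0x2c84c8260380807f80828080807f81817f818180818180817c807e82808180807e80817d83807f80818082808080828083808081827f7f0809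
 z z)))))))))))) z)))))) (n 1 (n 0 (n 957 (n 0 z (n 0 z (n 0 z (n 0 z (n 0 z (n 0 z (n 0 z (n 0
 z (n 0 z (n 0 z (n 0 z (n 0 z (n 0 z (n 0 z (n 0 z (n 0 z (n 0 z z))))))))))))))))) (n 303 (n 0
 z (n 0 z (n 0 z (n 0 z (n 0 z (n 0 z (n 0 z (n 0 z (n 0 z (n 0 z (n 0 z (n 0 z (n 0 z (n 0 z (n
 0 z (n 0 z (n 0 z z))))))))))))))))) (n 303 (n 0 z (n 0 z (n 0 z (n 0 z (n 0 z (n 0 z (n 0 z (n
 0 z (n 0 z (n 0 z (n 0 z (n 0 z (n 0 z (n 0 z (n 0 z (n 0 z (n 0 z z))))))))))))))))) z))) (n 0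
 (n 805 (n 0 z (n 0 z (n 0 z (n 0 z (n 0 z z))))) (n 805 (n 0 z (n 2 z (n 0 z (n 0 z (n 0 z
 z))))) z)) (n 0 (n 0 z z) (n 0 z z)))) (n 0 (n 1 (n 3820 z (n 3068 z (n 3820 z (n 3820 z (n
 3820 z (n 3820 z z)))))) (n 1 (n 6567179 z (n 6567179 z (n 6567179 z (n 6567179 z (n 6567179 z
 (n 6567179 z z)))))) (n 0 z (n 0 z (n 1 (n 3820 z (n 3820 z (n 3820 z (n 3820 z (n 3820 z (n
 3820 z z)))))) z))))) (n 0 z z)))) (n 0x8cab86855b370ad1b9064929805a280 (n 0 (n 573 (n 3282443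
 z (n 2 z (n 10 z (n 0 z z)))) (n 375 (n 18 z (n 6496515 z z)) (n 51 (n 26 z (n 6496515 z (n 0 z
 z))) (n 29 (n 6496515 z (n 0 z (n 0 z (n 0 z (n 0 z (n 0 z (n 0 z (n 0 z (n 0 z (n 0 z (n 0 z
 (n 0 z (n 0 z (n 34 z (n 0 z (n 0 z z)))))))))))))))) (n 1 (n 42 z (n 2164299 z z)) (n 0 (n
 6632459 z (n 0 z (n 0 z z))) z)))))) (n 375 (n 0 (n 0 z (n 211 (n 0 z (n 2 (n 1 z (n 1 z (n 1 z
 z))) z)) (n 867 (n 2 (n 1 z (n 1 z z)) (n 0 z (n 0 z (n 0 z z)))) (n 491 (n 0 z (n 0 z (n 0 z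
 (n 0 z z)))) (n 489 (n 0 z (n 2 z z)) z))))) (n 0 (n 179 (n 0 z (n 2 (n 1 z (n 1 z (n 1 z z)))
 z)) (n 177 (n 0 z (n 0 z (n 0 z (n 0 z z)))) (n 233 (n 0 z (n 0 z (n 0 z (n 0 z (n 2 (n 1 z z)
 z))))) (n 137 (n 2 z (n 0 z z)) z)))) (n 0 (n 753 (n 0 z (n 0 z (n 0 z z))) (n 1257 (n 0 z (n 0
 z (n 0 z (n 0 z z)))) (n 69 (n 0 z (n 0 z z)) z))) (n 0 (n 1305 (n 0 z (n 0 z (n 0 z z))) (n
 105 (n 0 z (n 0 z (n 0 z (n 0 z (n 0 z z))))) z)) (n 0 (n 483 (n 0 z (n 0 z (n 0 z (n 0 z (n 0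
 z (n 0 z (n 0 z (n 0 z (n 0 z z))))))))) z) (n 0 z z)))))) (n 0 (n 1 (n 4588 z (n 4588 z (n
 4588 z (n 4588 z (n 4588 z (n 4588 z z)))))) (n 1 (n 6496515 z (n 6496515 z (n 6496515 z (n
 6496515 z (n 6496515 z (n 6496515 z z)))))) z)) (n 0 z z)))) (n
 0x4b09a4529c2814d954268aa43255280 (n 0 (n 345 (n 2 z (n 6492195 z z)) (n 349 (n 0 z (n 0 z (n 0
 z (n 0 z (n 4392475 z (n 6492195 z (n 0 z (n 10 z (n 0 z (n 0 z (n 0 z (n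
 0x365454030382c86c8600795e8207de7a27e181d82289e8a262286286292382085e7e48208207dc7e08608208208208201001
 z (n 0 z (n 0 z (n 0 z z))))))))))))))) (n 9 (n 18 z (n 0 z (n 4392491 z (n 6628123 z (n 0 z (n
 0 z (n 0 z (n 0 z (n 0 z (n 0 z (n
 0x165465430386ca8ca600795e8207de7a27e181d82289e8a262286286292382085e7e48208207dc7e08608208208208201001
 z (n 6628123 z z)))))))))))) (n 123 (n 26 z (n 0 z (n 0 z (n 6492195 z (n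
 0xca8ca80078608208208208208208208208208208208208208208208208208208208208208208208208200801 z (n
 0 z (n 0 z (n 6492195 z (n 0 z (n 0 z (n 0 z (n 0 z (n 0 z (n 0 z (n 6492195 z (n 0 z (n 0 z (n
 0 z (n 0 z (n 0 z (n
 0x2ca4ca080789e8208208207df8208208208207a08208a18617e08208237df7e07df8208608208208208200801 z
 (n 0 z (n 0 z z))))))))))))))))))))))) (n 1 (n 34 z (n
 0x2ca6ca620789d82082082086082182186082072186081f8a08207a08218607e07df82091f8208608208200801 z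
 (n 0 z (n 0 z (n 0 z (n 0 z (n
 0x2ca6ca020789e8208208207df8208208208207a08208a18617e08208237df7e07df8208608208208208200801 z
 (n 2164299 z (n 0 z (n 0 z (n
 0x2ca6ca620789d82082082086082182186082072186081f8a08207a08218607e07df82091f8208608208200801 z
 (n 0x2ca6ca420789e8208208217e08208218208207208608208a27e08207a37df7a07df8208608228228208a00801
 z (n 0 z (n 0 z (n
 0x2ca6ca620789d82082082086082182186082072186081f8a08207a08218607e07df82091f8208608208200801 z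
 (n 0 z (n
 0xb1882d8c014c600163086082082082082081f8208208207a08208208208208208208208208208218208208208208200101
 z (n
 0x2ca4ca260789e8208208217e08208218208207208608208a27e08207a37df7a07df8208608228228208a00801 z
 z)))))))))))))))))) (n 0 (n 0 z (n 0 z (n 0 z (n 42 z (n 6628123 z z))))) z)))))) (n 345 (n 0
 (n 679 (n 0 z (n 0 z (n 0 z (n 0 z (n 0 z (n 0 z (n 0 z (n 0 z (n 0 z (n 0 z (n 0 z (n 0 z (n 0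
 z (n 0 z (n 0 z (n 0 z (n 0 z (n 0 z z)))))))))))))))))) (n 203 (n 0 z (n 0 z (n 0 z (n 0 z (n
 0 z (n 0 z (n 0 z (n 0 z (n 0 z (n 0 z (n 0 z (n 0 z (n 0 z (n 0 z (n 0 z z))))))))))))))) (n
 87 (n 0 z (n 0 z (n 0 z (n 0 z (n 0 z (n 0 z (n 0 z (n 0 z (n 0 z (n 0 z (n 0 z (n 0 z (n 0 z
 (n 0 z (n 0 z (n 0 z (n 0 z (n 0 z (n 0 z (n 0 z (n 0 z (n 0 z (n 0 z (n 0 z (n 0 z (n 0 z (n 0
 z z))))))))))))))))))))))))))) (n 517 (n 0 z (n 0 z (n 0 z (n 0 z (n 0 z (n 0 z (n 0 z (n 0 z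
 (n 0 z (n 0 z (n 0 z (n 0 z (n 0 z (n 0 z (n 0 z (n 0 z (n 0 z (n 0 z (n 0 z (n 0 z (n 0 z (n 0
 z (n 0 z z))))))))))))))))))))))) (n 53 (n 0 z (n 0 z (n 0 z (n 0 z (n 2 z z))))) z))))) (n 0
 (n 471 (n 0 z (n 0 z (n 0 z z))) (n 567 (n 0 z (n 0 z (n 0 z (n 0 z (n 0 z (n 0 z (n 0 z (n 0 z
 (n 0 z (n 0 z (n 0 z (n 0 z (n 0 z (n 0 z (n 0 z (n 0 z (n 0 z (n 0 z (n 0 z (n 0 z (n 0 z (n 0
 z z)))))))))))))))))))))) (n 565 (n 0 z (n 0 z (n 0 z (n 0 z (n 0 z (n 0 z (n 0 z (n 0 z (n 0 z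
 (n 0 z (n 0 z (n 0 z (n 0 z (n 0 z (n 0 z (n 0 z (n 0 z (n 0 z (n 0 z (n 0 z (n 0 z (n 0 z (n 0
 z (n 0 z (n 0 z (n 0 z (n 0 z (n 0 z (n 0 z (n 0 z (n 0 z (n 0 z (n 0 z
 z))))))))))))))))))))))))))))))))) (n 529 (n 0 z (n 0 z (n 2 z (n 0 z z)))) z)))) (n 0 (n 247
 (n 0 z (n 0 z (n 0 z (n 0 z (n 0 z (n 0 z (n 0 z (n 0 z (n 0 z (n 0 z (n 0 z (n 0 z (n 0 z (n 0
 z (n 0 z (n 0 z (n 0 z (n 0 z (n 0 z (n 0 z (n 0 z (n 0 z (n 0 z (n 0 z (n 0 z (n 0 z (n 0 z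
 z))))))))))))))))))))))))))) (n 243 (n 0 z (n 0 z (n 0 z (n 0 z (n 0 z (n 0 z (n 0 z (n 0 z (n
 0 z (n 0 z (n 0 z (n 0 z (n 0 z z))))))))))))) (n 245 (n 0 z (n 0 z (n 0 z (n 2 z z)))) z))) (n
 0 (n 617 (n 0 z (n 0 z (n 0 z (n 0 z (n 0 z (n 0 z (n 0 z (n 0 z (n 0 z (n 0 z (n 0 z
 z))))))))))) (n 241 (n 0 z (n 0 z (n 0 z (n 0 z (n 0 z (n 2 z (n 0 z (n 0 z (n 0 z (n 0 z
 z)))))))))) z)) (n 0 (n 637 (n 0 z (n 0 z (n 0 z (n 0 z (n 0 z (n 0 z (n 2 z (n 0 z (n 0 z (n 0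
 z z)))))))))) z) (n 0 z z)))))) (n 0 (n 1 (n 2796 z (n 5309995 z (n 4 z (n 2796 z (n 2796 z (n
 2796 z z)))))) (n 1 (n 6492195 z (n 6492195 z (n 6492195 z (n 6492195 z (n 6492195 z (n 6492195
 z z)))))) z)) (n 0 z z)))) (n 0xd9cb46acca33d6dc3396314c7360e56d831bdb0956d98a5ba433b6700 (n
 0x36ce5 (n 153 (n 0 z (n 6619931 z (n 3282443 z (n 0 z (n 2 z z))))) (n 33 (n 0 z (n 10 z (n
 6496515 z (n 18 z z)))) (n 51 (n 6496515 z (n 0 z (n 6496515 z (n 0 z (n 26 z z))))) (n 27 (n 0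
 z (n 34 z (n 0 z (n 6496515 z (n 42 z z))))) (n 1 (n 6554411 z (n 50 z (n 0 z (n 58 z z)))) (n
 0 (n 0 z (n 0 z (n 0 z (n 6623755 z (n 0 z (n
 0x8c86c824037da92099e7a37e099775891f8de7648614a8821a218e08607e28267e285f79b7606de85f8610801 z
 (n 0 z (n 0 z (n 0 z (n 0 z (n 0 z (n 0 z (n 6619931 z (n 66 z (n 0 z (n 74 z (n 0 z (n 82 z
 z)))))))))))))))))) z)))))) (n 33 (n 0 (n 1185 (n 0 z (n 0 z (n 0 z (n 0 z (n 2 (n 0 z (n 1 z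
 (n 1 z (n 1 z (n 1 z (n 1 z (n 1 z (n 2 (n 0 z (n 0 z (n 0 z (n 0 z (n 0 z (n 0 z z)))))) (n 1
 z z))))))))) (n 0 z (n 0 z (n 0 z (n 0 z (n 0 z (n 0 z (n 0 z (n 0 z (n 0 z z)))))))))))))) (n
 1185 (n 0 z (n 0 z (n 0 z (n 0 z (n 0 z (n 0 z (n 0 z (n 0 z (n 0 z (n 0 z (n 0 z (n 0 z (n 0 z
 (n 0 z z)))))))))))))) (n 795 (n 0 z (n 0 z (n 0 z (n 0 z (n 0 z (n 0 z (n 0 z (n 0 z (n 0 z (n
 0 z z)))))))))) (n 535 (n 2 (n 0 z (n 1 z (n 1 z (n 1 z (n 1 z (n 1 z z)))))) (n 0 z (n 0 z (n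
 0 z z)))) (n 535 (n 0 z (n 0 z (n 0 z (n 0 z z)))) (n 531 (n 0 z (n 2 (n 0 z (n 2 (n 0 z (n 0 z
 (n 0 z (n 0 z (n 0 z (n 0 z z)))))) (n 2 (n 0 z (n 0 z (n 0 z (n 0 z (n 0 z (n 0 z z)))))) (n 2
 (n 0 z (n 0 z (n 0 z (n 0 z (n 0 z (n 0 z z)))))) z)))) (n 0 z (n 0 z (n 0 z z))))) (n 531 (n 0
 z (n 0 z (n 0 z (n 0 z (n 0 z z))))) (n 529 (n 0 z (n 0 z (n 0 z (n 0 z (n 0 z (n 0 z (n 0 z
 z))))))) (n 529 (n 0 z (n 0 z (n 0 z (n 0 z (n 0 z (n 0 z (n 2 (n 0 z z) z))))))) (n 529 (n 0 z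
 (n 0 z (n 0 z (n 0 z (n 0 z (n 0 z (n 0 z z))))))) z)))))))))) (n 0 (n 0 z (n 123 (n 0 z (n 0 z
 (n 0 z (n 0 z (n 0 z (n 2 (n 1 z (n 2 (n 0 z (n 0 z (n 0 z (n 0 z (n 0 z (n 0 z z)))))) (n 2 (n
 0 z (n 0 z (n 0 z (n 0 z (n 0 z (n 0 z z)))))) (n 2 (n 0 z (n 0 z (n 0 z (n 0 z (n 0 z (n 0 z
 z)))))) (n 2 (n 0 z (n 0 z (n 0 z (n 0 z (n 0 z (n 0 z z)))))) (n 2 (n 0 z (n 0 z (n 0 z (n 0 z
 (n 0 z (n 0 z z)))))) (n 2 (n 0 z (n 0 z (n 0 z (n 0 z (n 0 z (n 0 z z)))))) z))))))) (n 0 z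
 z))))))) (n 535 (n 0 z (n 0 z (n 0 z (n 0 z (n 0 z z))))) (n 535 (n 0 z (n 0 z (n 0 z (n 0 z (n
 2 (n 1 z (n 2 (n 0 z (n 0 z (n 0 z (n 0 z (n 0 z (n 0 z z)))))) (n 1 z (n 2 (n 0 z (n 0 z (n 0
 z (n 0 z (n 0 z (n 0 z z)))))) (n 2 (n 0 z (n 0 z (n 0 z (n 0 z (n 0 z (n 0 z z)))))) z)))))
 z))))) (n 483 (n 0 z (n 0 z (n 0 z (n 0 z (n 0 z (n 0 z (n 0 z z))))))) (n 483 (n 0 z (n 0 z (n
 0 z (n 0 z (n 0 z (n 0 z (n 2 (n 1 z (n 2 (n 0 z (n 0 z (n 0 z (n 0 z (n 0 z (n 0 z z)))))) (n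
 2 (n 0 z (n 0 z (n 0 z (n 0 z (n 0 z (n 0 z z)))))) z))) z))))))) (n 481 (n 0 z (n 0 z (n 0 z
 (n 0 z (n 0 z (n 0 z (n 0 z (n 0 z (n 0 z (n 0 z (n 0 z (n 0 z (n 0 z z))))))))))))) (n 481 (n
 0 z (n 0 z (n 0 z (n 0 z (n 0 z (n 0 z (n 0 z (n 0 z (n 0 z (n 0 z (n 0 z (n 2 (n 0 z z) (n 0 z
 z))))))))))))) (n 481 (n 0 z (n 0 z (n 0 z (n 0 z (n 0 z (n 0 z (n 0 z (n 0 z (n 0 z (n 0 z (n
 0 z (n 0 z (n 2 z z))))))))))))) z))))))))) (n 0 (n 129 (n 0 z (n 0 z (n 0 z z))) (n 75 (n 0 z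
 (n 0 z (n 0 z (n 2 (n 0 z (n 1 z (n 1 z (n 1 z (n 2 (n 0 z (n 0 z (n 0 z (n 0 z (n 0 z (n 0 z
 z)))))) (n 1 z z)))))) (n 0 z (n 0 z (n 0 z z))))))) (n 75 (n 0 z (n 0 z (n 0 z (n 0 z (n 0 z
 (n 0 z (n 0 z z))))))) (n 63 (n 2 (n 0 z (n 2 (n 0 z (n 0 z (n 0 z (n 0 z (n 0 z (n 0 z z))))))
 (n 2 (n 0 z (n 0 z (n 0 z (n 0 z (n 0 z (n 0 z z)))))) (n 2 (n 0 z (n 0 z (n 0 z (n 0 z (n 0 z
 (n 0 z z)))))) z)))) (n 0 z (n 0 z (n 0 z z)))) (n 63 (n 0 z (n 0 z (n 0 z (n 0 z z)))) (n 65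
 (n 0 z (n 0 z (n 0 z (n 0 z (n 0 z (n 0 z (n 0 z z))))))) (n 65 (n 2 (n 0 z z) (n 0 z (n 0 z (n
 0 z (n 0 z (n 0 z (n 0 z z))))))) (n 65 (n 0 z (n 0 z (n 0 z (n 0 z (n 0 z (n 0 z (n 0 z
 z))))))) z)))))))) (n 0 (n 27 (n 2 (n 0 z (n 1 z (n 2 (n 0 z (n 0 z (n 0 z (n 0 z (n 0 z (n 0 z
 z)))))) (n 2 (n 0 z (n 0 z (n 0 z (n 0 z (n 0 z (n 0 z z)))))) (n 2 (n 0 z (n 0 z (n 0 z (n 0 z
 (n 0 z (n 0 z z)))))) (n 2 (n 0 z (n 0 z (n 0 z (n 0 z (n 0 z (n 0 z z)))))) z)))))) (n 0 z (n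
 0 z z))) (n 27 (n 0 z (n 0 z (n 0 z z))) (n 15 (n 0 z (n 0 z (n 0 z z))) (n 15 (n 0 z (n 0 z (n
 0 z z))) (n 101 (n 0 z (n 0 z (n 0 z (n 0 z (n 0 z (n 0 z (n 0 z z))))))) (n 101 (n 0 z (n 0 z
 (n 2 (n 0 z z) (n 0 z (n 0 z (n 0 z (n 0 z z))))))) (n 101 (n 0 z (n 0 z (n 0 z (n 0 z (n 0 z
 (n 0 z (n 0 z z))))))) z))))))) (n 0 (n 0 z (n 483 (n 0 z (n 0 z (n 0 z (n 0 z (n 0 z (n 0 z (n
 0 z (n 0 z z)))))))) (n 483 (n 0 z (n 0 z (n 0 z (n 0 z (n 0 z (n 0 z (n 2 (n 2 (n 0 z (n 0 z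
 (n 0 z (n 0 z (n 0 z (n 0 z z)))))) (n 1 z (n 1 z z))) (n 0 z z)))))))) (n 481 (n 0 z (n 0 z (n
 0 z (n 0 z (n 0 z (n 0 z (n 0 z (n 0 z (n 0 z (n 0 z (n 0 z (n 0 z (n 0 z (n 0 z (n 0 z (n 0 z
 (n 0 z (n 0 z (n 0 z z))))))))))))))))))) (n 481 (n 0 z (n 0 z (n 0 z (n 0 z (n 0 z (n 0 z (n 0
 z (n 0 z (n 0 z (n 0 z (n 0 z (n 0 z (n 0 z (n 0 z (n 0 z (n 0 z (n 2 (n 0 z z) (n 0 z (n 0 z
 z))))))))))))))))))) (n 481 (n 0 z (n 0 z (n 0 z (n 0 z (n 0 z (n 0 z (n 0 z (n 0 z (n 0 z (n 0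
 z (n 0 z (n 0 z (n 0 z (n 2 z (n 0 z (n 0 z (n 0 z (n 0 z (n 0 z z))))))))))))))))))) z))))))
 (n 0 (n 531 (n 0 z (n 2 (n 0 z (n 2 (n 0 z (n 0 z (n 0 z (n 0 z (n 0 z (n 0 z z)))))) (n 2 (n 0
 z (n 0 z (n 0 z (n 0 z (n 0 z (n 0 z z)))))) (n 2 (n 0 z (n 0 z (n 0 z (n 0 z (n 0 z (n 0 z
 z)))))) z)))) (n 0 z (n 0 z (n 0 z z))))) (n 531 (n 0 z (n 0 z (n 0 z (n 0 z (n 0 z z))))) (n
 529 (n 0 z (n 0 z (n 0 z (n 0 z (n 0 z (n 0 z (n 0 z (n 0 z (n 0 z (n 0 z (n 0 z (n 0 z (n 0 z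
 (n 0 z (n 0 z (n 0 z (n 0 z (n 0 z (n 0 z (n 0 z (n 0 z (n 0 z (n 0 z (n 0 z (n 0 z (n 0 z (n 0
 z (n 0 z z)))))))))))))))))))))))))))) (n 529 (n 0 z (n 0 z (n 0 z (n 0 z (n 0 z (n 0 z (n 0 z
 (n 0 z (n 0 z (n 0 z (n 0 z (n 0 z (n 0 z (n 0 z (n 0 z (n 0 z (n 0 z (n 0 z (n 0 z (n 0 z (n 0
 z (n 0 z (n 0 z (n 2 (n 0 z z) (n 0 z (n 0 z (n 0 z (n 0 z z)))))))))))))))))))))))))))) (n 529
 (n 0 z (n 0 z (n 0 z (n 0 z (n 0 z (n 0 z (n 0 z (n 0 z (n 0 z (n 0 z (n 0 z (n 0 z (n 0 z (n 0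
 z (n 0 z (n 0 z (n 0 z (n 0 z (n 0 z (n 0 z (n 0 z (n 0 z (n 0 z (n 0 z (n 0 z (n 0 z (n 0 z (n
 0 z z)))))))))))))))))))))))))))) z))))) (n 0 (n 0 z (n 1 (n 0 z (n 0 z (n 0 z (n 0 z (n 0 z (n
 0 z (n 0 z (n 0 z (n 0 z (n 0 z (n 0 z (n 0 z (n 0 z (n 0 z (n 0 z (n 0 z (n 0 z (n 0 z
 z)))))))))))))))))) (n 1 (n 0 z (n 0 z (n 0 z (n 0 z (n 0 z (n 0 z (n 2 (n 0 z z) (n 0 z (n 0 z
 (n 0 z (n 0 z (n 0 z (n 0 z (n 0 z (n 0 z (n 0 z (n 0 z (n 0 z z)))))))))))))))))) (n 1 (n 0 z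
 (n 0 z (n 0 z (n 0 z (n 0 z (n 2 z (n 0 z (n 0 z (n 0 z (n 0 z (n 0 z (n 0 z (n 0 z (n 0 z (n 0
 z (n 0 z (n 0 z (n 0 z z)))))))))))))))))) z)))) (n 0 (n 1 (n 0 z (n 0 z (n 0 z (n 0 z (n 0 z
 (n 0 z (n 0 z (n 0 z (n 0 z z))))))))) (n 1 (n 0 z (n 2 (n 0 z z) (n 0 z (n 0 z (n 0 z (n 0 z
 (n 0 z (n 0 z (n 0 z z))))))))) (n 1 (n 0 z (n 0 z (n 0 z (n 0 z (n 0 z (n 0 z (n 0 z (n 0 z (n
 0 z z))))))))) z))) (n 0 (n 0 z (n 0 z z)) (n 0 (n 0 z z) (n 0 z z))))))))))) (n 0 (n 0 z (n 1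
 (n 4331019 z (n 1228 z (n 5509219 z (n 1228 z (n 6619931 z (n 1228 z z)))))) (n 1 (n 6496515 z
 (n 6496515 z (n 6496515 z (n 6496515 z (n 6496515 z (n 6496515 z z)))))) (n 1 (n 1228 z (n 1228
 z (n 1228 z (n 2 z (n 1228 z (n 5517667 z z)))))) z)))) (n 0 (n 0x6356658d831b8dd219 (n 0 (n 0
 (n 7745875 z (n 7745875 z (n 7745875 z (n 7745875 z (n 7745875 z (n 7745875 z z)))))) z) (n 0
 (n 267 (n 1 (n 4400907 z (n 1228 z (n 6498075 z (n 7668507 z (n 1228 z (n 1228 z z)))))) (n 1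
 (n 6498059 z (n 1228 z (n 7668507 z (n 1228 z (n 1228 z (n 1228 z z)))))) (n 1 (n 3282699 z (n
 4331275 z (n 4331275 z (n 4331275 z (n 4331275 z (n 4331275 z z)))))) (n 1 (n 7745875 z (n
 7745875 z (n 7745875 z (n 7745875 z (n 7745875 z (n 7745875 z z)))))) z)))) (n 64 (n 1 (n
 7545091 z (n 7545091 z (n 7545091 z (n 7545091 z (n 7545091 z (n 7545091 z z)))))) (n 1 (n 2 z
 (n 268 z (n 5513331 z (n 5375819 z (n 7602987 z (n 4748 z z)))))) (n 1 (n 7545091 z (n 7545091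
 z (n 7545091 z (n 7545091 z (n 7545091 z (n 7545091 z z)))))) z))) (n 65 (n 1 (n 7545091 z (n
 7545091 z (n 7545091 z (n 7545091 z (n 7545091 z (n 7545091 z z)))))) (n 1 (n 3196 z (n 3196 z
 (n 5509235 z (n 3196 z (n 7668507 z (n 3196 z z)))))) (n 1 (n 7545091 z (n 7545091 z (n 7545091
 z (n 7545091 z (n 7545091 z (n 7545091 z z)))))) z))) (n 15 (n 1 (n 10 z (n 2188 z (n 5513331 z
 (n 5375819 z (n 2188 z (n 2188 z z)))))) (n 1 (n 7545091 z (n 7545091 z (n 7545091 z (n 7545091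
 z (n 7545091 z (n 7545091 z z)))))) (n 1 (n 7545091 z (n 7545091 z (n 7545091 z (n 7545091 z (n
 7545091 z (n 7545091 z z)))))) z))) (n 9 (n 0 z (n 1 (n 7684963 z (n 7684963 z (n 7684963 z (n
 7684963 z (n 7684963 z (n 7684963 z z)))))) (n 1 (n 7545091 z (n 7545091 z (n 7545091 z (n
 7545091 z (n 7545091 z (n 7545091 z z)))))) z))) (n 285 (n 1 (n 7545091 z (n 7668507 z (n
 7668507 z (n 7668507 z (n 7668507 z (n 7668507 z z)))))) (n 1 (n 7545091 z (n 3282699 z (n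
 3282699 z (n 3282699 z (n 3282699 z (n 3282699 z z)))))) (n 1 (n 7545091 z (n 7684963 z (n
 7684963 z (n 7684963 z (n 7684963 z (n 7684963 z z)))))) (n 1 (n 7545091 z (n 268 z (n 7672331
 z (n 268 z (n 3278699 z (n 268 z z)))))) (n 1 (n 7545091 z (n 7684963 z (n 7684963 z (n 7684963
 z (n 7684963 z (n 7684963 z z)))))) (n 1 (n 7545091 z (n 7602987 z (n 7602987 z (n 7672331 z (n
 7602987 z (n 7602987 z z)))))) (n 1 (n 7545091 z (n 268 z (n 7672331 z (n 18 z (n 4327275 z (n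
 268 z z)))))) z))))))) (n 33 (n 0 z (n 1 (n 4331275 z (n 1228 z (n 5509235 z (n 1228 z (n
 7668507 z (n 1228 z z)))))) (n 1 (n 7545091 z (n 7545091 z (n 7545091 z (n 7545091 z (n 7545091
 z (n 7545091 z z)))))) (n 1 (n 7745875 z (n 7745875 z (n 7745875 z (n 7745875 z (n 7745875 z (n
 7745875 z z)))))) z)))) z))))))) (n 0 (n 0 (n 0 z (n 0 z (n 0 z z))) (n 0 (n 0 z (n 0 z z)) (n
 0 (n 0 z z) z))) (n 0 (n 593 (n 0 (n 0 z (n 0 z (n 0 z z))) (n 0 (n 0 z (n 0 z (n 0 z z))) (n 0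
 (n 0 z (n 0 z (n 0 z z))) (n 0 (n 0 z (n 0 z (n 0 z z))) (n 0 (n 0 z (n 0 z (n 0 z z))) (n 0 (n
 0 z (n 0 z (n 0 z z))) (n 0 (n 0 z (n 0 z (n 0 z z))) (n 0 (n 0 z (n 0 z (n 0 z z))) (n 0 (n 0
 z (n 0 z (n 0 z z))) (n 0 (n 0 z (n 0 z (n 0 z z))) (n 0 (n 0 z (n 0 z (n 0 z z))) (n 0 (n 0 z
 (n 0 z (n 0 z z))) (n 0 (n 0 z (n 0 z (n 0 z z))) (n 0 (n 0 z (n 0 z (n 0 z z)))
 z)))))))))))))) (n 399 (n 0 (n 0 z (n 0 z (n 0 z z))) (n 0 (n 0 z (n 0 z (n 0 z z))) (n 0 (n 0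
 z (n 0 z (n 0 z z))) (n 0 (n 0 z (n 0 z (n 0 z z))) (n 0 (n 0 z (n 0 z (n 0 z z))) (n 0 (n 0 z
 (n 0 z (n 0 z z))) (n 0 (n 0 z (n 0 z (n 0 z z))) (n 0 (n 0 z (n 0 z (n 0 z z))) (n 0 (n 0 z (n
 0 z (n 0 z z))) (n 0 (n 0 z (n 0 z (n 0 z z))) z)))))))))) (n 65 (n 0 (n 0 z (n 0 z (n 0 z z)))
 (n 0 (n 0 z (n 0 z (n 0 z z))) (n 0 (n 0 z (n 0 z (n 0 z z))) z))) (n 273 (n 0 (n 0 z (n 0 z (n
 0 z z))) (n 0 (n 0 z (n 0 z (n 0 z z))) (n 0 (n 0 z (n 0 z (n 0 z z))) (n 0 (n 0 z (n 0 z (n 0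
 z z))) z)))) (n 39 (n 0 (n 0 z (n 0 z (n 0 z z))) (n 0 (n 0 z (n 0 z (n 0 z z))) (n 0 (n 0 z (n
 0 z (n 0 z z))) (n 0 (n 0 z (n 0 z (n 0 z z))) (n 0 (n 0 z (n 0 z (n 0 z z))) (n 0 (n 0 z (n 0
 z (n 0 z z))) (n 0 (n 0 z (n 0 z (n 0 z z))) z))))))) (n 15 (n 0 (n 0 z (n 0 z (n 0 z z))) (n 0
 (n 0 z (n 0 z (n 0 z z))) (n 0 (n 0 z (n 0 z (n 0 z z))) z))) (n 279 (n 0 (n 0 z (n 0 z (n 0 z
 z))) (n 0 (n 0 z (n 0 z (n 0 z z))) (n 0 (n 0 z (n 0 z (n 0 z z))) (n 0 (n 0 z (n 0 z (n 0 z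
 z))) (n 0 (n 0 z (n 0 z (n 0 z z))) z))))) (n 33 (n 0 (n 0 z (n 0 z (n 0 z z))) (n 0 (n 0 z (n
 0 z (n 0 z z))) (n 0 (n 0 z (n 0 z (n 0 z z))) (n 0 (n 0 z (n 0 z (n 0 z z))) z)))) (n 9 (n 0
 (n 0 z (n 0 z (n 0 z z))) (n 0 (n 0 z (n 0 z (n 0 z z))) (n 0 (n 0 z (n 0 z (n 0 z z))) z))) (n
 267 (n 0 (n 0 z (n 0 z (n 0 z z))) (n 0 (n 0 z (n 0 z (n 0 z z))) (n 0 (n 0 z (n 0 z (n 0 z
 z))) (n 0 (n 0 z (n 0 (n 8851491 z (n 8851491 z z)) (n 0 z z))) (n 0 (n 0 z (n 0 z (n 0 z z)))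
 z))))) (n 285 (n 0 (n 0 z (n 0 z (n 0 z z))) (n 0 (n 0 z (n 0 z (n 0 z z))) (n 0 (n 0 z (n 0 z
 (n 0 z z))) (n 0 (n 0 z (n 0 z (n 0 z z))) (n 0 (n 0 z (n 0 z (n 0 z z))) (n 0 (n 0 z (n 0 z (n
 0 z z))) (n 0 (n 0 z (n 0 z (n 0 z z))) z))))))) (n 33 (n 0 (n 0 z (n 0 z (n 0 z z))) (n 0 (n 0
 z (n 0 z (n 0 z z))) (n 0 (n 0 z (n 0 z (n 0 z z))) (n 0 (n 0 z (n 0 z (n 0 z z))) (n 0 (n 0 z
 (n 0 z (n 0 z z))) (n 0 (n 0 z (n 0 z (n 0 z z))) (n 0 (n 0 z (n 0 z (n 0 z z))) z))))))) (n 51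
 (n 0 (n 0 z (n 0 z (n 0 z z))) (n 0 (n 0 z (n 0 z (n 0 z z))) (n 0 (n 0 z (n 0 z (n 0 z z))) (n
 0 (n 0 z (n 0 (n 8593667 z z) (n 0 z z))) (n 0 (n 0 z (n 0 z (n 0 z z))) (n 0 (n 0 z (n 0 z (n
 0 z z))) (n 0 (n 0 z (n 0 z (n 0 z z))) z))))))) (n 269 (n 0 (n 0 z (n 0 z (n 0 z z))) (n 0 (n
 0 z (n 0 z (n 0 z z))) (n 0 (n 0 z (n 0 z (n 0 z z))) (n 0 (n 0 z (n 0 z (n 0 z z))) (n 0 (n 0
 z (n 0 z (n 0 z z))) (n 0 (n 0 z (n 0 (n 8733539 z z) (n 0 z z))) (n 0 (n 0 z (n 0 z (n 0 z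
 z))) (n 0 (n 0 z (n 0 z (n 0 z z))) (n 0 (n 0 z (n 0 z (n 0 z z))) (n 0 (n 0 z (n 0 z (n 0 z
 z))) (n 0 (n 0 z (n 0 (n 8851491 z z) (n 0 z z))) (n 0 (n 0 z (n 0 z (n 0 z z))) (n 0 (n 0 z (n
 0 (n 8733539 z z) (n 0 z z))) (n 0 (n 0 z (n 0 z (n 0 z z))) (n 0 (n 0 z (n 0 z (n 0 z z))) (n
 0 (n 0 z (n 0 z (n 0 z z))) (n 0 (n 0 z (n 0 z (n 0 z z))) (n 0 (n 0 z (n 0 z (n 0 z z))) (n 0
 (n 0 z (n 0 z (n 0 z z))) (n 0 (n 0 z (n 0 z (n 0 z z))) (n 0 (n 0 z (n 0 z (n 0 z z))) (n 0 (n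
 0 z (n 0 (n 8869403 z (n 8869403 z z)) (n 0 z z))) (n 0 (n 0 z (n 0 z (n 0 z z))) (n 0 (n 0 z
 (n 0 z (n 0 z z))) (n 0 (n 0 z (n 0 z (n 0 z z))) (n 0 (n 0 z (n 0 z (n 0 z z))) (n 0 (n 0 z (n
 0 z (n 0 z z))) (n 0 (n 0 z (n 0 z (n 0 z z))) z)))))))))))))))))))))))))))) (n 1 (n 0 (n 0 z
 (n 0 z (n 0 z z))) (n 0 (n 0 z (n 0 z (n 0 z z))) (n 0 (n 0 z (n 0 z (n 0 z z))) (n 0 (n 0 z (n
 0 z (n 0 z z))) (n 0 (n 0 z (n 0 z (n 0 z z))) (n 0 (n 0 z (n 0 z (n 0 z z))) (n 0 (n 0 z (n 0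
 z (n 0 z z))) (n 0 (n 0 z (n 0 z (n 0 z z))) (n 0 (n 0 z (n 0 z (n 0 z z))) z))))))))) (n 153
 (n 0 (n 0 z (n 0 z (n 0 z z))) (n 0 (n 0 z (n 0 z (n 0 z z))) (n 0 (n 0 z (n 0 z (n 0 z z))) (n
 0 (n 0 z (n 0 z (n 0 z z))) (n 0 (n 0 z (n 0 z (n 0 z z))) z))))) (n 33 (n 0 (n 0 z (n 0 z (n 0
 z z))) (n 0 (n 0 z (n 0 z (n 0 z z))) (n 0 (n 0 z (n 0 z (n 0 z z))) (n 0 (n 0 z (n 0 z (n 0 z
 z))) z)))) (n 51 (n 0 (n 0 z (n 0 z (n 0 z z))) (n 0 (n 0 z (n 0 z (n 0 z z))) (n 0 (n 0 z (n 0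
 z (n 0 z z))) (n 0 (n 0 z (n 0 z (n 0 z z))) (n 0 (n 0 z (n 0 z (n 0 z z))) z))))) (n 27 (n 0
 (n 0 z (n 0 z (n 0 z z))) (n 0 (n 0 z (n 0 z (n 0 z z))) (n 0 (n 0 z (n 0 (n 8593667 z (n
 8593667 z z)) (n 0 z z))) (n 0 (n 0 z (n 0 z (n 0 z z))) (n 0 (n 0 z (n 0 z (n 0 z z))) z)))))
 (n 1 (n 0 (n 0 z (n 0 z (n 0 z z))) (n 0 (n 0 z (n 0 z (n 0 z z))) (n 0 (n 0 z (n 0 z (n 0 z
 z))) (n 0 (n 0 z (n 0 z (n 0 z z))) z)))) (n 0 (n 0 (n 0 z (n 0 z (n 0 z z))) (n 0 (n 0 z (n 0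
 z (n 0 z z))) (n 0 (n 0 z (n 0 z (n 0 z z))) (n 0 (n 0 z (n 0 z (n 0 z z))) (n 0 (n 0 z (n 0 z
 (n 0 z z))) (n 0 (n 0 z (n 0 z (n 0 z z))) (n 0 (n 0 z (n 0 z (n 0 z z))) (n 0 (n 0 z (n 0 z (n
 0 z z))) (n 0 (n 0 z (n 0 z (n 0 z z))) (n 0 (n 0 z (n 0 z (n 0 z z))) (n 0 (n 0 z (n 0 z (n 0
 z z))) (n 0 (n 0 z (n 0 (n 8732787 z (n 8717083 z z)) (n 0 z z))) (n 0 (n 0 z (n 0 z (n 0 z
 z))) (n 0 (n 0 z (n 0 z (n 0 z z))) (n 0 (n 0 z (n 0 z (n 0 z z))) (n 0 (n 0 z (n 0 z (n 0 z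
 z))) (n 0 (n 0 z (n 0 z (n 0 z z))) (n 0 (n 0 z (n 0 z (n 0 z z))) z))))))))))))))))))
 z))))))))))))))))))))) z)))) z) z)))) z)))))))))), by decide +kernel⟩

theorem g7_53 : RgOk KT RW [10276, 10286, 10296, 10306, 10316, 10326, 10336, 10346, 10356, 10366, 10376, 10386] := ⟨i10276, ⟨i10286, ⟨i10296, ⟨i10306, ⟨i10316, ⟨i10326, ⟨i10336, ⟨i10346, ⟨i10356, ⟨i10366, ⟨i10376, True.intro⟩⟩⟩⟩⟩⟩⟩⟩⟩⟩⟩

end Pool.Agent.Lib.EPS9
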