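import Pool.Agent.Lib.MP_c7e7f6_eps.Core4
import Pool.Agent.Lib.MP_c7e7f6_eps.KtAll

/-!
Extensions of the words from number 10386 on.
-/

set_option autoImplicit false

namespace Pool.Agent.Lib.EPS9

open Tr

theorem i10386 : ∃ t, chkR KT RW t 10386 10394 = true := ⟨(n
 0xd44ad114528512958893784add68249e62b4f3819ad408d6a202a55811ad40 (n 0x2b512 (n 153 (n
 0x6ca8a8640379e85c7dc8e0960a207238a282071f75f75f8197618608a6a2379e7df91f75e7a06e08a07610801 z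
 (n 2 z (n 0 z (n 0 z (n 6619675 z (n 6619675 z (n
 0xaca8ca840785e85c7e081d8217a282175e7627607e086081e75e7df86171f8608e086286081f7a18208600801 z
 (n 10 z (n
 0x165454320180ca6ca62077e07df85f8208208e18207e082082082182081f7a17df82199e8207e18608208217e18208201001
 z (n 18 z (n 0 z (n 3282443 z (n 0 z (n 0 z z)))))))))))))) (n 35 (n 0 z (n 26 z (n 6562131 z
 (n 34 z z)))) (n 9 (n 42 z (n 50 z (n 0 z (n 6562131 z z)))) (n 3 (n 6632475 z (n 58 z (n 66 z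
 z))) (n 1 (n 74 z (n 82 z (n 6562131 z (n 6562131 z z)))) (n 0 (n 90 z (n 0 z (n 6619675 z (n
 0xeca8862403859a1e75b8a5a9db1c6ae8626a051e6dd7daa1a7e39e1a689de91e71895e59e5e356395c7620801 z
 (n 6619675 z z))))) z)))))) (n 3 (n 0 (n 0 z (n 0 z (n 767 (n 0 z (n 0 z (n 2 (n 0 z (n 1 z (n
 1 z (n 2 (n 0 z (n 0 z (n 0 z (n 0 z (n 0 z (n 0 z z)))))) (n 2 (n 0 z (n 0 z (n 0 z (n 0 z (n
 0 z (n 0 z z)))))) (n 2 (n 0 z (n 0 z (n 0 z (n 0 z (n 0 z (n 0 z z)))))) (n 2 (n 0 z (n 0 z (n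
 0 z (n 0 z (n 0 z (n 0 z z)))))) (n 1 z z)))))))) (n 0 z (n 0 z z))))) (n 767 (n 0 z (n 0 z (n
 0 z (n 2 (n 1 z (n 2 (n 0 z (n 0 z (n 0 z (n 0 z (n 0 z (n 0 z z)))))) (n 1 z (n 2 (n 0 z (n 0
 z (n 0 z (n 0 z (n 0 z (n 0 z z)))))) (n 2 (n 0 z (n 0 z (n 0 z (n 0 z (n 0 z (n 0 z z)))))) (n
 2 (n 0 z (n 0 z (n 0 z (n 0 z (n 0 z (n 0 z z)))))) (n 2 (n 0 z (n 0 z (n 0 z (n 0 z (n 0 z (n
 0 z z)))))) z))))))) (n 0 z z))))) (n 765 (n 0 z (n 0 z (n 0 z (n 2 (n 0 z (n 1 z (n 1 z (n 2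
 (n 0 z (n 0 z (n 0 z (n 0 z (n 0 z (n 0 z z)))))) (n 2 (n 0 z (n 0 z (n 0 z (n 0 z (n 0 z (n 0
 z z)))))) (n 2 (n 0 z (n 0 z (n 0 z (n 0 z (n 0 z (n 0 z z)))))) z)))))) (n 0 z (n 0 z (n 0 z
 z))))))) (n 765 (n 2 (n 2 (n 0 z (n 0 z (n 0 z (n 0 z (n 0 z (n 0 z z)))))) (n 1 z (n 1 z (n 2
 (n 0 z (n 0 z (n 0 z (n 0 z (n 0 z (n 0 z z)))))) (n 1 z z))))) (n 0 z (n 0 z (n 0 z (n 0 z (n
 0 z (n 0 z z))))))) (n 969 (n 2 (n 0 z (n 2 (n 0 z (n 0 z (n 0 z (n 0 z (n 0 z (n 0 z z))))))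
 (n 2 (n 0 z (n 0 z (n 0 z (n 0 z (n 0 z (n 0 z z)))))) (n 2 (n 0 z (n 0 z (n 0 z (n 0 z (n 0 z
 (n 0 z z)))))) z)))) (n 0 z (n 0 z (n 0 z (n 0 z (n 0 z (n 0 z (n 0 z (n 0 z (n 0 z z))))))))))
 (n 969 (n 0 z (n 0 z (n 0 z (n 0 z (n 2 (n 2 (n 0 z (n 0 z (n 0 z (n 0 z (n 0 z (n 0 z z))))))
 (n 2 (n 0 z (n 0 z (n 0 z (n 0 z (n 0 z (n 0 z z)))))) (n 1 z z))) (n 0 z (n 0 z (n 0 z (n 0 z
 (n 0 z z)))))))))) (n 757 (n 0 z (n 2 (n 0 z (n 1 z z)) (n 0 z (n 0 z z)))) (n 757 (n 0 z (n 0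
 z (n 0 z (n 0 z z)))) (n 121 (n 0 z (n 2 z (n 0 z (n 0 z (n 0 z z))))) z))))))))))) (n 0 (n 0 z
 (n 131 (n 0 z (n 0 z (n 0 z (n 0 z (n 0 z (n 0 z z)))))) (n 131 (n 0 z (n 0 z (n 0 z (n 0 z (n
 0 z (n 0 z z)))))) (n 123 (n 0 z (n 0 z (n 0 z (n 0 z (n 0 z (n 0 z (n 0 z z))))))) (n 123 (n 0
 z (n 0 z (n 0 z (n 0 z (n 0 z (n 0 z (n 0 z z))))))) (n 147 (n 0 z (n 0 z (n 0 z (n 0 z z))))
 (n 147 (n 0 z (n 0 z (n 0 z (n 0 z z)))) (n 105 (n 0 z (n 0 z (n 0 z (n 0 z (n 0 z (n 0 z (n 0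
 z (n 0 z z)))))))) (n 105 (n 0 z (n 0 z (n 0 z (n 0 z (n 0 z (n 0 z (n 0 z (n 0 z z)))))))) (n
 121 (n 0 z (n 0 z (n 0 z (n 0 z (n 0 z (n 0 z z)))))) z)))))))))) (n 0 (n 127 (n 0 z (n 0 z (n
 0 z (n 0 z (n 0 z (n 0 z (n 0 z (n 0 z (n 0 z (n 0 z (n 0 z (n 0 z (n 0 z z))))))))))))) (n 127
 (n 0 z (n 0 z (n 0 z (n 0 z (n 2 (n 1 z (n 1 z (n 1 z (n 1 z (n 2 (n 0 z (n 0 z (n 0 z (n 0 z
 (n 0 z (n 0 z z)))))) (n 1 z (n 1 z z))))))) (n 0 z (n 0 z (n 0 z (n 0 z (n 0 z (n 0 z (n 0 z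
 (n 0 z z))))))))))))) (n 103 (n 2 (n 0 z (n 1 z (n 2 (n 0 z (n 0 z (n 0 z (n 0 z (n 0 z (n 0 z
 z)))))) (n 2 (n 0 z (n 0 z (n 0 z (n 0 z (n 0 z (n 0 z z)))))) (n 2 (n 0 z (n 0 z (n 0 z (n 0 z
 (n 0 z (n 0 z z)))))) (n 1 z z)))))) (n 0 z (n 0 z (n 0 z (n 0 z (n 0 z (n 0 z z))))))) (n 103
 (n 0 z (n 0 z (n 0 z (n 0 z (n 0 z (n 0 z (n 0 z z))))))) (n 27 (n 2 (n 0 z (n 2 (n 0 z (n 0 z
 (n 0 z (n 0 z (n 0 z (n 0 z z)))))) (n 2 (n 0 z (n 0 z (n 0 z (n 0 z (n 0 z (n 0 z z)))))) (n 2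
 (n 0 z (n 0 z (n 0 z (n 0 z (n 0 z (n 0 z z)))))) z)))) (n 0 z (n 0 z (n 0 z (n 0 z z))))) (n
 27 (n 0 z (n 0 z (n 0 z (n 0 z (n 0 z z))))) (n 15 (n 0 z (n 0 z (n 0 z (n 0 z z)))) (n 15 (n 0
 z (n 0 z (n 0 z (n 0 z z)))) (n 17 (n 0 z (n 0 z (n 0 z (n 0 z (n 0 z (n 0 z (n 0 z (n 0 z
 z)))))))) z))))))))) (n 0 (n 0 z (n 343 (n 0 z (n 0 z (n 0 z (n 0 z (n 2 (n 0 z (n 1 z (n 2 (n
 0 z (n 0 z (n 0 z (n 0 z (n 0 z (n 0 z z)))))) (n 2 (n 0 z (n 0 z (n 0 z (n 0 z (n 0 z (n 0 z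
 z)))))) (n 2 (n 0 z (n 0 z (n 0 z (n 0 z (n 0 z (n 0 z z)))))) (n 1 z z)))))) (n 0 z (n 0 z (n
 0 z (n 0 z (n 0 z (n 0 z z))))))))))) (n 343 (n 0 z (n 0 z (n 0 z (n 0 z (n 0 z (n 0 z (n 0 z
 (n 0 z (n 0 z (n 0 z (n 0 z z))))))))))) (n 7 (n 0 z (n 0 z (n 2 (n 0 z (n 2 (n 0 z (n 0 z (n 0
 z (n 0 z (n 0 z (n 0 z z)))))) (n 2 (n 0 z (n 0 z (n 0 z (n 0 z (n 0 z (n 0 z z)))))) (n 2 (n 0
 z (n 0 z (n 0 z (n 0 z (n 0 z (n 0 z z)))))) z)))) (n 0 z (n 0 z (n 0 z z)))))) (n 7 (n 0 z (n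
 0 z (n 0 z (n 0 z (n 0 z (n 0 z z)))))) (n 255 (n 0 z (n 0 z (n 0 z (n 0 z (n 0 z (n 0 z (n 0 z
 (n 0 z (n 0 z z))))))))) (n 255 (n 0 z (n 0 z (n 0 z (n 0 z (n 0 z (n 0 z (n 0 z (n 0 z (n 0 z
 z))))))))) (n 341 (n 0 z (n 0 z (n 0 z (n 0 z (n 0 z (n 0 z (n 0 z (n 0 z z)))))))) z))))))))
 (n 0 (n 779 (n 0 z (n 0 z (n 0 z (n 0 z (n 0 z (n 0 z (n 0 z (n 0 z z)))))))) (n 779 (n 0 z (n
 2 (n 1 z (n 1 z (n 1 z (n 2 (n 0 z (n 0 z (n 0 z (n 0 z (n 0 z (n 0 z z)))))) (n 1 z z))))) (n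
 0 z (n 0 z (n 0 z (n 0 z (n 0 z (n 0 z z)))))))) (n 59 (n 0 z (n 0 z (n 0 z (n 0 z z)))) (n 59
 (n 2 (n 2 (n 0 z (n 0 z (n 0 z (n 0 z (n 0 z (n 0 z z)))))) (n 1 z (n 1 z z))) (n 0 z (n 0 z (n
 0 z z)))) (n 51 (n 0 z (n 0 z (n 0 z (n 0 z (n 2 (n 0 z (n 1 z z)) (n 0 z (n 0 z (n 0 z (n 0 z
 (n 0 z z)))))))))) (n 51 (n 0 z (n 0 z (n 0 z (n 0 z (n 0 z (n 0 z (n 0 z (n 2 (n 1 z z) (n 0 z
 (n 0 z z)))))))))) (n 49 (n 2 z (n 0 z (n 0 z (n 0 z (n 0 z z))))) z))))))) (n 0 (n 0 z (n 7 (n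
 0 z (n 0 z (n 0 z (n 0 z (n 0 z z))))) (n 7 (n 0 z (n 0 z (n 2 (n 2 (n 0 z (n 0 z (n 0 z (n 0 z
 (n 0 z (n 0 z z)))))) (n 2 (n 0 z (n 0 z (n 0 z (n 0 z (n 0 z (n 0 z z)))))) (n 1 z z))) (n 0 z
 (n 0 z z))))) (n 15 (n 0 z (n 0 z (n 0 z (n 0 z (n 0 z (n 0 z (n 0 z (n 2 (n 0 z (n 1 z z)) (n
 0 z (n 0 z z)))))))))) (n 15 (n 0 z (n 0 z (n 0 z (n 0 z (n 2 (n 1 z z) (n 0 z (n 0 z (n 0 z (n
 0 z (n 0 z z)))))))))) (n 13 (n 0 z (n 0 z (n 0 z (n 0 z (n 2 z (n 0 z (n 0 z (n 0 z (n 0 z (n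
 0 z (n 0 z (n 0 z (n 0 z (n 0 z (n 0 z z))))))))))))))) z)))))) (n 0 (n 535 (n 0 z (n 2 (n 0 z
 (n 2 (n 0 z (n 0 z (n 0 z (n 0 z (n 0 z (n 0 z z)))))) (n 2 (n 0 z (n 0 z (n 0 z (n 0 z (n 0 z
 (n 0 z z)))))) (n 1 z z)))) (n 0 z (n 0 z z)))) (n 535 (n 0 z (n 0 z (n 0 z (n 0 z z)))) (n 483
 (n 0 z (n 0 z (n 0 z (n 0 z (n 0 z z))))) (n 483 (n 0 z (n 0 z (n 0 z (n 0 z (n 0 z z))))) (n
 481 (n 0 z (n 0 z (n 0 z (n 0 z (n 0 z (n 0 z (n 0 z (n 0 z (n 0 z (n 0 z (n 0 z (n 0 z (n 0 z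
 (n 0 z (n 0 z (n 0 z (n 0 z z))))))))))))))))) z))))) (n 0 (n 0 z (n 51 (n 0 z (n 2 (n 0 z (n 1
 z z)) (n 0 z (n 0 z z)))) (n 51 (n 2 (n 1 z z) (n 0 z (n 0 z (n 0 z z)))) (n 49 (n 2 z (n 0 z
 (n 0 z (n 0 z (n 0 z (n 0 z z)))))) z)))) (n 0 (n 15 (n 0 z (n 0 z (n 0 z (n 0 z z)))) (n 15 (n
 0 z (n 0 z (n 0 z (n 0 z z)))) (n 13 (n 0 z (n 0 z (n 0 z (n 0 z (n 0 z (n 0 z (n 0 z z)))))))
 z))) (n 0 (n 0 z (n 25 (n 0 z (n 0 z (n 0 z (n 0 z (n 0 z (n 0 z (n 0 z (n 0 z (n 0 z (n 0 z (n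
 0 z (n 0 z (n 0 z (n 0 z (n 0 z (n 0 z (n 0 z (n 0 z z)))))))))))))))))) z)) (n 0 (n 73 (n 0 z
 (n 0 z (n 0 z (n 0 z (n 0 z (n 0 z (n 0 z (n 0 z (n 0 z (n 0 z (n 0 z (n 0 z (n 0 z (n 0 z (n 0
 z (n 0 z (n 0 z z))))))))))))))))) z) (n 0 z z)))))))))))) (n 0 (n 1 (n 6632475 z (n 6632475 z
 (n 6632475 z (n 6632475 z (n 6632475 z (n 6632475 z z)))))) (n 1 (n 1228 z (n 1228 z (n 1228 z
 (n 1228 z (n 1228 z (n 1228 z z)))))) (n 1 (n 1228 z (n 2 z (n 5445131 z (n 1228 z (n 1228 z (n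
 1228 z z)))))) z))) (n 0 (n 0x8f095b8f315a8f381971ad40 (n 0 (n 0 (n 7741699 z (n 7741699 z (n
 7741699 z (n 7741699 z (n 7741699 z (n 7741699 z z)))))) z) (n 0 (n 7 (n 1 (n 7540835 z (n
 7540835 z (n 7540835 z (n 7540835 z (n 7540835 z (n 7540835 z z)))))) (n 1 (n 1228 z (n 1228 z
 (n 2 z (n 7472459 z (n 7681051 z (n 1228 z z)))))) (n 1 (n 7540835 z (n 7540835 z (n 7540835 z
 (n 7540835 z (n 7540835 z (n 7540835 z z)))))) (n 1 (n 7610707 z (n 7610707 z (n 7610707 z (n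
 7610707 z (n 7610707 z (n 7610707 z z)))))) z)))) (n 35 (n 0 z (n 1 (n 7741699 z (n 7741699 z
 (n 7741699 z (n 7741699 z (n 7741699 z (n 7741699 z z)))))) (n 1 (n 7741699 z (n 7741699 z (n
 7741699 z (n 7741699 z (n 7741699 z (n 7741699 z z)))))) (n 1 (n 1468 z (n 7540835 z (n 6631539
 z (n 10 z (n 6567771 z (n 1468 z z)))))) z)))) (n 9 (n 1 (n 2380 z (n 7540835 z (n 6631539 z (n
 18 z (n 6567771 z (n 2380 z z)))))) (n 1 (n 7741699 z (n 7741699 z (n 7741699 z (n 7741699 z (n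
 7741699 z (n 7741699 z z)))))) (n 0 z (n 1 (n 7741699 z (n 7741699 z (n 7741699 z (n 7741699 z
 (n 7741699 z (n 7741699 z z)))))) z)))) (n 3 (n 1 (n 7681051 z (n 7540835 z (n 7673355 z (n
 7681051 z (n 7681051 z (n 7681051 z z)))))) (n 1 (n 3196 z (n 7540835 z (n 7673355 z (n 26 z (n
 3196 z (n 3196 z z)))))) (n 1 (n 7741699 z (n 7741699 z (n 7741699 z (n 7741699 z (n 7741699 z
 (n 7741699 z z)))))) z))) (n 519 (n 1 (n 7540835 z (n 7741699 z (n 7540835 z (n 7540835 z (n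
 7540835 z (n 7540835 z z)))))) (n 1 (n 3964 z (n 7741699 z (n 7673355 z (n 3964 z (n 6424395 z
 (n 3964 z z)))))) (n 1 (n 7540835 z (n 7741699 z (n 7540835 z (n 7540835 z (n 7540835 z (n
 7540835 z z)))))) (n 1 (n 7610707 z (n 7741699 z (n 7610707 z (n 7610707 z (n 7610707 z (n
 7610707 z z)))))) z)))) (n 0 (n 1 (n 7741699 z (n 7741699 z (n 7741699 z (n 7741699 z (n
 7741699 z (n 7741699 z z)))))) (n 0 z (n 1 (n 7668251 z (n 7540835 z (n 7668251 z (n 7668251 z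
 (n 7673355 z (n 6562163 z z)))))) (n 1 (n 7741699 z (n 7741699 z (n 7741699 z (n 7741699 z (n
 7741699 z (n 7741699 z z)))))) (n 1 (n 7668251 z (n 7540835 z (n 7668251 z (n 7673355 z (n
 7668251 z (n 7668251 z z)))))) z))))) (n 3 (n 1 (n 7681051 z (n 7681051 z (n 7681051 z (n
 7750427 z (n 7681051 z (n 7681051 z z)))))) (n 1 (n 1228 z (n 1228 z (n 1228 z (n 1228 z (n
 7750427 z (n 1228 z z)))))) (n 1 (n 7741699 z (n 7741699 z (n 7741699 z (n 7741699 z (n 7741699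
 z (n 7741699 z z)))))) z))) z))))))) (n 0 (n 0 (n 0 z (n 0 z (n 0 z (n 0 z z)))) (n 0 (n 0 z (n
 0 z (n 0 z z))) (n 0 (n 0 z (n 0 z z)) (n 0 (n 0 z z) z)))) (n 0 (n 183 (n 0 (n 0 z (n 0 z (n 0
 z (n 0 z z)))) (n 0 (n 0 z (n 0 z (n 0 z (n 0 z z)))) (n 0 (n 0 z (n 0 z (n 0 z (n 0 z z)))) (n
 0 (n 0 z (n 0 z (n 0 z (n 0 z z)))) (n 0 (n 0 z (n 0 z (n 0 z (n 0 z z)))) (n 0 (n 0 z (n 0 z
 (n 0 z (n 0 z z)))) (n 0 (n 0 z (n 0 z (n 0 z (n 0 z z)))) (n 0 (n 0 z (n 0 z (n 0 z (n 0 z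
 z)))) (n 0 (n 0 z (n 0 z (n 0 z (n 0 z z)))) (n 0 (n 0 z (n 0 z (n 0 z (n 0 z z)))) (n 0 (n 0 z
 (n 0 z (n 0 z (n 0 z z)))) (n 0 (n 0 z (n 0 z (n 0 z (n 0 z z)))) (n 0 (n 0 z (n 0 z (n 0 z (n
 0 z z)))) z))))))))))))) (n 297 (n 0 (n 0 z (n 0 z (n 0 z (n 0 z z)))) (n 0 (n 0 z (n 0 z (n 0
 z (n 0 z z)))) (n 0 (n 0 z (n 0 z (n 0 z (n 0 z z)))) (n 0 (n 0 z (n 0 z (n 0 z (n 0 z z)))) (n
 0 (n 0 z (n 0 z (n 0 z (n 0 z z)))) (n 0 (n 0 z (n 0 z (n 0 z (n 0 z z)))) (n 0 (n 0 z (n 0 z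
 (n 0 z (n 0 z z)))) z))))))) (n 291 (n 0 (n 0 z (n 0 z (n 0 z (n 0 z z)))) (n 0 (n 0 z (n 0 z
 (n 0 z (n 0 z z)))) (n 0 (n 0 z (n 0 z (n 0 z (n 0 z z)))) (n 0 (n 0 z (n 0 z (n 0 z (n 0 z
 z)))) (n 0 (n 0 z (n 0 z (n 0 z (n 0 z z)))) (n 0 (n 0 z (n 0 z (n 0 z (n 0 z z)))) (n 0 (n 0 z
 (n 0 (n 8872715 z (n 8872715 z z)) (n 0 z (n 0 z z)))) (n 0 (n 0 z (n 0 z (n 0 z (n 0 z z))))
 (n 0 (n 0 z (n 0 z (n 0 z (n 0 z z)))) (n 0 (n 0 z (n 0 z (n 0 z (n 0 z z)))) (n 0 (n 0 z (n 0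
 z (n 0 z (n 0 z z)))) z))))))))))) (n 399 (n 0 (n 0 z (n 0 z (n 0 z (n 0 z z)))) (n 0 (n 0 z (n
 0 z (n 0 z (n 0 z z)))) (n 0 (n 0 z (n 0 z (n 0 z (n 0 z z)))) (n 0 (n 0 z (n 0 z (n 0 z (n 0 z
 z)))) (n 0 (n 0 z (n 0 z (n 0 z (n 0 z z)))) z))))) (n 57 (n 0 (n 0 z (n 0 z (n 0 z (n 0 z
 z)))) (n 0 (n 0 z (n 0 z (n 0 z (n 0 z z)))) (n 0 (n 0 z (n 0 z (n 0 z (n 0 z z)))) (n 0 (n 0 z
 (n 0 z (n 0 z (n 0 z z)))) (n 0 (n 0 z (n 0 z (n 0 z (n 0 z z)))) (n 0 (n 0 z (n 0 z (n 0 z (n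
 0 z z)))) z)))))) (n 387 (n 0 (n 0 z (n 0 z (n 0 z (n 0 z z)))) (n 0 (n 0 z (n 0 z (n 0 z (n 0
 z z)))) (n 0 (n 0 z (n 0 z (n 0 z (n 0 z z)))) (n 0 (n 0 z (n 0 z (n 0 z (n 0 z z)))) z)))) (n
 519 (n 0 (n 0 z (n 0 z (n 0 z (n 0 z z)))) (n 0 (n 0 z (n 0 z (n 0 z (n 0 z z)))) (n 0 (n 0 z
 (n 0 z (n 0 z (n 0 z z)))) (n 0 (n 0 z (n 0 z (n 0 z (n 0 z z)))) z)))) (n 495 (n 0 (n 0 z (n 0
 z (n 0 z (n 0 z z)))) (n 0 (n 0 z (n 0 z (n 0 z (n 0 z z)))) (n 0 (n 0 z (n 0 z (n 0 z (n 0 z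
 z)))) (n 0 (n 0 z (n 0 z (n 0 z (n 0 z z)))) (n 0 (n 0 z (n 0 z (n 0 z (n 0 z z)))) (n 0 (n 0 z
 (n 0 z (n 0 z (n 0 z z)))) (n 0 (n 0 z (n 0 z (n 0 z (n 0 z z)))) (n 0 (n 0 z (n 0 z (n 0 z (n
 0 z z)))) (n 0 (n 0 z (n 0 z (n 0 z (n 0 z z)))) z))))))))) (n 483 (n 0 (n 0 z (n 0 z (n 0 z (n
 0 z z)))) (n 0 (n 0 z (n 0 z (n 0 z (n 0 z z)))) (n 0 (n 0 z (n 0 z (n 0 z (n 0 z z)))) (n 0 (n
 0 z (n 0 z (n 0 z (n 0 z z)))) (n 0 (n 0 z (n 0 z (n 0 z (n 0 z z)))) z))))) (n 13 (n 0 (n 0 z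
 (n 0 z (n 0 z (n 0 z z)))) (n 0 (n 0 z (n 0 z (n 0 z (n 0 z z)))) (n 0 (n 0 z (n 0 z (n 0 z (n
 0 z z)))) (n 0 (n 0 z (n 0 z (n 0 z (n 0 z z)))) z)))) (n 641 (n 0 (n 0 z (n 0 z (n 0 z (n 0 z
 z)))) (n 0 (n 0 z (n 0 z (n 0 z (n 0 z z)))) (n 0 (n 0 z (n 0 z (n 0 z (n 0 z z)))) (n 0 (n 0 z
 (n 0 z (n 0 z (n 0 z z)))) (n 0 (n 0 z (n 0 z (n 0 z (n 0 z z)))) (n 0 (n 0 z (n 0 z (n 0 z (n
 0 z z)))) (n 0 (n 0 z (n 0 z (n 0 z (n 0 z z)))) (n 0 (n 0 z (n 0 z (n 0 z (n 0 z z))))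
 z)))))))) (n 677 (n 0 (n 0 z (n 0 z (n 0 z (n 0 z z)))) (n 0 (n 0 z (n 0 z (n 0 z (n 0 z z))))
 (n 0 (n 0 z (n 0 z (n 0 z (n 0 z z)))) (n 0 (n 0 z (n 0 z (n 0 z (n 0 z z)))) (n 0 (n 0 z (n 0
 (n 8790275 z z) (n 0 z (n 0 z z)))) (n 0 (n 0 z (n 0 z (n 0 z (n 0 z z)))) (n 0 (n 0 z (n 0 z
 (n 0 z (n 0 z z)))) (n 0 (n 0 z (n 0 z (n 0 z (n 0 z z)))) z)))))))) (n 603 (n 0 (n 0 z (n 0 z
 (n 0 z (n 0 z z)))) (n 0 (n 0 z (n 0 z (n 0 z (n 0 z z)))) (n 0 (n 0 z (n 0 z (n 0 z (n 0 z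
 z)))) (n 0 (n 0 z (n 0 z (n 0 z (n 0 z z)))) (n 0 (n 0 z (n 0 (n 8872715 z (n 8872715 z z)) (n
 0 z (n 0 z z)))) (n 0 (n 0 z (n 0 z (n 0 z (n 0 z z)))) (n 0 (n 0 z (n 0 z (n 0 z (n 0 z z))))
 (n 0 (n 0 z (n 0 z (n 0 z (n 0 z z)))) (n 0 (n 0 z (n 0 z (n 0 z (n 0 z z)))) (n 0 (n 0 z (n 0
 z (n 0 z (n 0 z z)))) (n 0 (n 0 z (n 0 z (n 0 z (n 0 z z)))) (n 0 (n 0 z (n 0 z (n 0 z (n 0 z
 z)))) (n 0 (n 0 z (n 0 z (n 0 z (n 0 z z)))) (n 0 (n 0 z (n 0 (n 8868419 z z) (n 0 z (n 0 z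
 z)))) (n 0 (n 0 z (n 0 z (n 0 z (n 0 z z)))) (n 0 (n 0 z (n 0 z (n 0 z (n 0 z z)))) (n 0 (n 0 z
 (n 0 z (n 0 z (n 0 z z)))) z))))))))))))))))) (n 19 (n 0 (n 0 z (n 0 z (n 0 z (n 0 z z)))) (n 0
 (n 0 z (n 0 z (n 0 z (n 0 z z)))) (n 0 (n 0 z (n 0 z (n 0 z (n 0 z z)))) (n 0 (n 0 z (n 0 z (n
 0 z (n 0 z z)))) (n 0 (n 0 z (n 0 z (n 0 z (n 0 z z)))) (n 0 (n 0 z (n 0 z (n 0 z (n 0 z z))))
 (n 0 (n 0 z (n 0 z (n 0 z (n 0 z z)))) z))))))) (n 18 (n 0 (n 0 z (n 0 z (n 0 z (n 0 z z)))) (n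
 0 (n 0 z (n 0 z (n 0 z (n 0 z z)))) (n 0 (n 0 z (n 0 z (n 0 z (n 0 z z)))) (n 0 (n 0 z (n 0 z
 (n 0 z (n 0 z z)))) (n 0 (n 0 z (n 0 z (n 0 z (n 0 z z)))) (n 0 (n 0 z (n 0 (n 8716827 z (n
 8716827 z z)) (n 0 z (n 0 z z)))) (n 0 (n 0 z (n 0 z (n 0 z (n 0 z z)))) (n 0 (n 0 z (n 0 z (n
 0 z (n 0 z z)))) (n 0 (n 0 z (n 0 z (n 0 z (n 0 z z)))) (n 0 (n 0 z (n 0 z (n 0 z (n 0 z z))))
 (n 0 (n 0 z (n 0 z (n 0 z (n 0 z z)))) (n 0 (n 0 z (n 0 z (n 0 z (n 0 z z)))) (n 0 (n 0 z (n 0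
 z (n 0 z (n 0 z z)))) (n 0 (n 0 z (n 0 z (n 0 z (n 0 z z)))) (n 0 (n 0 z (n 0 z (n 0 z (n 0 z
 z)))) (n 0 (n 0 z (n 0 z (n 0 z (n 0 z z)))) (n 0 (n 0 z (n 0 z (n 0 z (n 0 z z)))) (n 0 (n 0 z
 (n 0 z (n 0 z (n 0 z z)))) z)))))))))))))))))) (n 153 (n 0 (n 0 z (n 0 z (n 0 z (n 0 z z)))) (n
 0 (n 0 z (n 0 z (n 0 z (n 0 z z)))) (n 0 (n 0 z (n 0 z (n 0 z (n 0 z z)))) (n 0 (n 0 z (n 0 z
 (n 0 z (n 0 z z)))) (n 0 (n 0 z (n 0 z (n 0 z (n 0 z z)))) (n 0 (n 0 z (n 0 z (n 0 z (n 0 z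
 z)))) (n 0 (n 0 z (n 0 z (n 0 z (n 0 z z)))) (n 0 (n 0 z (n 0 z (n 0 z (n 0 z z)))) (n 0 (n 0 z
 (n 0 z (n 0 z (n 0 z z)))) (n 0 (n 0 z (n 0 z (n 0 z (n 0 z z)))) (n 0 (n 0 z (n 0 z (n 0 z (n
 0 z z)))) (n 0 (n 0 z (n 0 z (n 0 z (n 0 z z)))) (n 0 (n 0 z (n 0 z (n 0 z (n 0 z z)))) (n 0 (n
 0 z (n 0 z (n 0 z (n 0 z z)))) z)))))))))))))) (n 35 (n 0 (n 0 z (n 0 z (n 0 z (n 0 z z)))) (n
 0 (n 0 z (n 0 z (n 0 z (n 0 z z)))) (n 0 (n 0 z (n 0 z (n 0 z (n 0 z z)))) (n 0 (n 0 z (n 0 z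
 (n 0 z (n 0 z z)))) z)))) (n 9 (n 0 (n 0 z (n 0 z (n 0 z (n 0 z z)))) (n 0 (n 0 z (n 0 z (n 0 z
 (n 0 z z)))) (n 0 (n 0 z (n 0 z (n 0 z (n 0 z z)))) (n 0 (n 0 z (n 0 z (n 0 z (n 0 z z))))
 z)))) (n 3 (n 0 (n 0 z (n 0 z (n 0 z (n 0 z z)))) (n 0 (n 0 z (n 0 z (n 0 z (n 0 z z)))) (n 0
 (n 0 z (n 0 z (n 0 z (n 0 z z)))) z))) (n 1 (n 0 (n 0 z (n 0 z (n 0 z (n 0 z z)))) (n 0 (n 0 z
 (n 0 z (n 0 z (n 0 z z)))) (n 0 (n 0 z (n 0 z (n 0 z (n 0 z z)))) (n 0 (n 0 z (n 0 z (n 0 z (n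
 0 z z)))) z)))) (n 0 (n 0 (n 0 z (n 0 z (n 0 z (n 0 z z)))) (n 0 (n 0 z (n 0 z (n 0 z (n 0 z
 z)))) (n 0 (n 0 z (n 0 z (n 0 z (n 0 z z)))) (n 0 (n 0 z (n 0 z (n 0 z (n 0 z z)))) (n 0 (n 0 z
 (n 0 z (n 0 z (n 0 z z)))) z))))) z))))))))))))))))))))) z)))) z) z)))) (n
 0x1ac268ba23442f5a0d7a590125aa1b8dd41346162954b10985e0152d80e1280 (n 0 (n 473 (n 6565923 z (n 2
 z (n 10 z (n 6565923 z (n 18 z (n 0 z z)))))) (n 472 (n 0 z (n 6557747 z (n 26 z (n 34 z z))))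
 (n 9 (n 0 z (n 0 z (n 0 z (n 0 z (n 0 z (n 0 z (n 0 z (n 42 z (n 0 z (n 0 z (n 0 z (n 0 z (n
 6562571 z (n 0 z (n 0 z (n 0 z (n 0 z z))))))))))))))))) (n 3 (n 0 z (n 6565923 z (n 0 z (n 50
 z (n 0 z (n 0 z (n 58 z z))))))) (n 1 (n 6565923 z (n 6557747 z (n 0 z (n 0 z (n 6565923 z (n 0
 z z)))))) (n 0 (n 66 z (n 74 z (n 0 z (n 6632475 z (n 82 z (n 0 z (n 90 z (n 0 z z))))))))
 z)))))) (n 472 (n 0 (n 0 z (n 0 z (n 119 (n 0 z (n 0 z (n 0 z (n 0 z (n 0 z (n 0 z (n 0 z (n 2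
 (n 0 z (n 2 (n 0 z (n 0 z (n 0 z (n 0 z (n 0 z (n 0 z z)))))) (n 2 (n 0 z (n 0 z (n 0 z (n 0 z
 (n 0 z (n 0 z z)))))) (n 1 z (n 2 (n 0 z (n 0 (n 8864515 z z) (n 0 z (n 0 z (n 0 (n 8864515 z
 z) (n 0 (n 8864515 z (n 8864515 z z)) z)))))) (n 2 (n 0 z (n 0 (n 8873267 z z) (n 0 z (n 0 z (n
 0 (n 8873267 z z) (n 0 (n 8873267 z (n 8873267 z z)) z)))))) (n 2 (n 0 z (n 0 z (n 0 (n 8868163
 z z) (n 0 z (n 0 z (n 0 (n 8868163 z (n 8868163 z z)) z)))))) (n 1 z z)))))))) (n 0 z (n 0 z (n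
 0 z (n 0 z (n 0 z (n 0 z (n 0 z (n 0 z z)))))))))))))))) (n 119 (n 0 z (n 0 z (n 0 z (n 0 z (n
 0 z (n 0 z (n 0 z (n 0 z (n 0 z (n 0 z (n 0 z (n 0 z (n 0 z (n 0 z (n 0 z (n 0 z
 z)))))))))))))))) (n 759 (n 0 z (n 0 z (n 0 z (n 0 z (n 0 z (n 0 z (n 0 z (n 0 z z)))))))) (n
 59 (n 0 z (n 0 z (n 0 z (n 0 z (n 0 z (n 0 z (n 0 z (n 0 z (n 0 z (n 0 z (n 0 z (n 0 z (n 0 z
 (n 0 z (n 2 (n 0 z (n 2 (n 0 z (n 0 z (n 0 z (n 0 z (n 0 z (n 0 z z)))))) (n 2 (n 0 z (n 0 z (n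
 0 z (n 0 z (n 0 z (n 0 z z)))))) (n 2 (n 0 (n 8868163 z z) (n 0 (n 8868163 z z) (n 0 z (n 0 z
 (n 0 z (n 0 (n 8868163 z (n 8868163 z z)) z)))))) (n 2 (n 0 z (n 0 (n 244 z z) (n 0 z (n 0 z (n
 0 (n 244 z z) (n 0 (n 244 z (n 8783675 z z)) z)))))) z))))) (n 0 z (n 0 z (n 0 z (n 0 z (n 0 z
 z)))))))))))))))))))) (n 59 (n 0 z (n 0 z (n 0 z (n 0 z (n 0 z (n 0 z (n 0 z (n 0 z (n 0 z (n 0
 z (n 0 z (n 0 z (n 0 z (n 0 z (n 0 z (n 0 z (n 0 z (n 0 z (n 0 z (n 0 z z))))))))))))))))))))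
 (n 61 (n 0 z (n 0 z (n 0 z (n 0 z (n 0 z (n 0 z (n 0 z (n 0 z (n 0 z (n 0 z (n 0 z (n 0 z (n 0
 z (n 0 z z)))))))))))))) (n 61 (n 0 z (n 0 z (n 0 z (n 0 z (n 0 z (n 0 z (n 0 z (n 0 z (n 0 z
 (n 0 z (n 0 z (n 0 z (n 0 z (n 0 z z)))))))))))))) (n 61 (n 0 z (n 0 z (n 0 z (n 0 z (n 0 z (n
 0 z (n 0 z (n 0 z (n 2 (n 0 z z) (n 0 z (n 0 z (n 0 z (n 0 z (n 0 z z)))))))))))))) (n 61 (n 0
 z (n 0 z (n 0 z (n 0 z (n 0 z (n 0 z (n 0 z (n 0 z (n 0 z (n 0 z (n 0 z (n 0 z (n 0 z (n 0 z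
 z)))))))))))))) z))))))))))) (n 0 (n 0 z (n 763 (n 0 z (n 0 z (n 0 z (n 0 z (n 0 z (n 0 z (n 0
 z (n 0 z (n 0 z z))))))))) (n 763 (n 0 z (n 0 z (n 2 (n 2 (n 0 z (n 0 z (n 0 z (n 0 z (n 0 z (n
 0 z z)))))) (n 2 (n 0 z (n 0 z (n 0 z (n 0 z (n 0 z (n 0 z z)))))) (n 1 z (n 2 (n 0 z (n 0 z (n
 0 z (n 0 z (n 0 z (n 0 z z)))))) (n 2 (n 0 z (n 0 z (n 0 z (n 0 z (n 0 z (n 0 z z)))))) (n 2 (n
 0 z (n 0 z (n 0 z (n 0 z (n 0 z (n 0 z z)))))) (n 2 (n 0 (n 8660507 z z) (n 0 z (n 0 z (n 0 (n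
 8853035 z z) (n 0 z (n 0 (n 8791835 z (n 2932 z z)) z)))))) z))))))) (n 0 z (n 0 z (n 0 z (n 0
 z (n 0 z (n 0 z z))))))))) (n 759 (n 0 z (n 0 z (n 0 z (n 0 z (n 0 z (n 0 z z)))))) (n 207 (n 0
 z (n 0 z (n 0 z (n 0 z (n 0 z (n 0 z (n 0 z (n 0 z (n 0 z (n 0 z (n 0 z (n 0 z (n 0 z (n 0 z (n
 0 z (n 0 z (n 0 z z))))))))))))))))) (n 207 (n 0 z (n 0 z (n 0 z (n 0 z (n 0 z (n 2 (n 2 (n 0 z
 (n 0 (n 2932 z z) (n 0 z (n 0 z (n 0 (n 2932 z z) (n 0 (n 8660507 z (n 8660507 z z)) z)))))) (n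
 2 (n 0 z (n 0 (n 8859715 z z) (n 0 z (n 0 z (n 0 (n 8859715 z z) (n 0 (n 8859715 z (n 8859715 z
 z)) z)))))) (n 2 (n 0 z (n 0 z (n 0 (n 8802627 z z) (n 0 z (n 0 z (n 0 (n 8802627 z (n 8802627
 z z)) z)))))) (n 1 z z)))) (n 0 z (n 0 z (n 0 z (n 0 z (n 0 z (n 0 z (n 0 z (n 0 z (n 0 z (n 0
 z (n 0 z z))))))))))))))))) (n 733 (n 0 z (n 0 z (n 0 z (n 0 z (n 0 z (n 0 z (n 0 z (n 0 z (n 0
 z z))))))))) (n 733 (n 0 z (n 0 z (n 2 (n 0 z (n 0 z z)) (n 0 z (n 0 z (n 0 z (n 0 z (n 0 z (n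
 0 z z))))))))) (n 733 (n 0 z (n 0 z (n 0 z (n 7754051 z (n 0 z (n 0 z (n 0 z (n 0 z (n 0 z
 z))))))))) (n 733 (n 0 z (n 0 z (n 0 z (n 0 z (n 0 z (n 0 z (n 0 z (n 0 z (n 0 z z)))))))))
 z)))))))))) (n 0 (n 763 (n 0 z (n 0 z (n 0 z (n 2 (n 0 z (n 2 (n 0 z (n 0 z (n 0 z (n 0 z (n 0
 z (n 0 z z)))))) (n 2 (n 0 z (n 0 z (n 0 z (n 0 z (n 0 z (n 0 z z)))))) (n 1 z (n 2 (n 0 (n
 8864515 z (n 8864515 z z)) (n 0 z (n 0 (n 8864515 z (n 8864515 z z)) (n 0 z (n 0 (n 8864515 z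
 (n 8864515 z z)) (n 0 z z)))))) (n 2 (n 0 (n 8872227 z (n 8872227 z z)) (n 0 z (n 0 (n 8872227
 z (n 8872227 z z)) (n 0 z (n 0 (n 8872227 z (n 8872227 z z)) (n 0 z z)))))) (n 2 (n 0 (n
 8868163 z (n 8868163 z z)) (n 0 (n 8868163 z (n 8868163 z z)) (n 0 z (n 0 z (n 0 (n 8868163 z
 (n 8868163 z z)) (n 0 z z)))))) (n 2 (n 0 z (n 0 (n 8595307 z (n 2948 z z)) (n 0 (n 8595307 z
 (n 2948 z z)) (n 0 z (n 0 (n 8734267 z (n 8734267 z z)) (n 0 z z)))))) z)))))))) (n 0 z (n 0 z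
 (n 0 z (n 0 z z)))))))) (n 763 (n 0 z (n 0 z (n 0 z (n 0 z (n 0 z (n 0 z (n 0 z (n 0 z
 z)))))))) (n 765 (n 0 z (n 0 z (n 0 z (n 2 (n 2 (n 0 z (n 0 (n 8868163 z z) (n 0 (n 8868163 z
 z) (n 0 z (n 0 z (n 0 (n 8868163 z (n 8868163 z z)) z)))))) (n 1 z (n 2 (n 0 z (n 0 z (n 0 z (n
 0 z (n 0 z (n 0 z z)))))) (n 2 (n 0 z (n 0 z (n 0 z (n 0 z (n 0 z (n 0 z z)))))) (n 2 (n 0 (n
 8868163 z (n 8868163 z z)) (n 0 (n 8868163 z (n 8868163 z z)) (n 0 z (n 0 z (n 0 (n 8868163 z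
 (n 8868163 z z)) (n 0 z z)))))) (n 2 (n 0 (n 2948 z (n 2948 z z)) (n 0 (n 2948 z (n 2948 z z))
 (n 0 z (n 0 z (n 0 (n 8734267 z (n 8734267 z z)) (n 0 z z)))))) z)))))) (n 0 z (n 0 z (n 0 z (n
 0 z (n 0 z (n 0 z (n 0 z (n 0 z (n 0 z (n 0 z (n 0 z (n 0 z (n 0 z (n 0 z z))))))))))))))))))
 (n 213 (n 0 z (n 0 z (n 2 (n 0 z (n 2 (n 0 (n 8864515 z (n 8864515 z z)) (n 0 z (n 0 (n 8864515
 z (n 8864515 z z)) (n 0 z (n 0 (n 8864515 z (n 8864515 z z)) (n 0 z z)))))) (n 2 (n 0 (n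
 8872227 z (n 8872227 z z)) (n 0 z (n 0 (n 8872227 z (n 8872227 z z)) (n 0 z (n 0 (n 8872227 z
 (n 8872227 z z)) (n 0 z z)))))) (n 2 (n 0 z (n 0 z (n 0 z (n 0 z (n 0 z (n 0 z z)))))) (n 2 (n
 0 (n 8790387 z (n 8857115 z z)) (n 0 z (n 0 (n 8660763 z (n 8790387 z z)) (n 0 z (n 0 (n
 8660763 z (n 8734267 z z)) (n 0 z z)))))) z))))) (n 0 z (n 0 z (n 0 z (n 0 z (n 0 z (n 0 z
 z))))))))) (n 213 (n 0 z (n 0 z (n 0 z (n 0 z (n 0 z (n 0 z (n 0 z (n 0 z (n 0 z z))))))))) (n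
 737 (n 0 z (n 0 z (n 0 z (n 0 z (n 0 z (n 0 z (n 0 z (n 0 z (n 0 z (n 2 (n 0 z (n 0 z (n 0 z
 z))) (n 0 z z))))))))))) (n 737 (n 0 z (n 0 z (n 0 z (n 0 z (n 0 z (n 0 z (n 0 z (n 0 z (n 0 z
 (n 0 z (n 0 z z))))))))))) (n 737 (n 0 z (n 0 z (n 0 z (n 0 z (n 0 z (n 0 z (n 0 z (n 0 z (n 0
 z (n 0 z (n 0 z z))))))))))) (n 737 (n 0 z (n 0 z (n 0 z (n 0 z (n 0 z (n 0 z (n 0 z (n 0 z (n
 0 z (n 0 z (n 0 z z))))))))))) z))))))))) (n 0 (n 0 z (n 807 (n 0 z (n 0 z (n 0 z (n 0 z (n 0 z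
 z))))) (n 507 (n 0 z (n 0 z (n 0 z (n 0 z (n 0 z (n 0 z (n 0 z (n 0 z z)))))))) (n 507 (n 0 z
 (n 0 z (n 0 z (n 2 (n 1 z (n 1 z (n 1 z (n 1 z z)))) (n 0 z (n 0 z (n 0 z (n 0 z z)))))))) (n
 781 (n 0 z (n 0 z (n 0 z (n 0 z (n 0 z (n 0 z (n 0 z (n 0 z z)))))))) (n 781 (n 0 z (n 0 z (n 0
 z (n 0 z (n 0 z (n 0 z (n 0 z (n 0 z z)))))))) (n 781 (n 0 z (n 0 z (n 0 z (n 7754051 z (n 0 z
 (n 0 z (n 0 z (n 0 z z)))))))) (n 781 (n 0 z (n 0 z (n 0 z (n 0 z (n 0 z (n 0 z (n 0 z (n 0 z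
 z)))))))) z)))))))) (n 0 (n 813 (n 0 z (n 0 z (n 0 z (n 0 z (n 0 z (n 0 z (n 0 z (n 0 z (n 0 z
 (n 0 z (n 0 z (n 0 z z)))))))))))) (n 453 (n 0 z (n 0 z (n 0 z (n 0 z (n 0 z (n 0 z (n 0 z (n 0
 z (n 0 z (n 0 z z)))))))))) (n 453 (n 0 z (n 0 z (n 0 z (n 0 z (n 0 z (n 0 z (n 0 z (n 0 z (n 0
 z (n 0 z z)))))))))) (n 785 (n 0 z (n 2 (n 0 z (n 0 z (n 0 z z))) (n 0 z (n 0 z (n 0 z (n 0 z
 (n 0 z (n 0 z z)))))))) (n 785 (n 0 z (n 0 z (n 0 z (n 0 z (n 0 z (n 0 z (n 0 z (n 0 z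
 z)))))))) (n 785 (n 0 z (n 0 z (n 0 z (n 0 z (n 0 z (n 0 z (n 0 z (n 0 z z)))))))) (n 785 (n 0
 z (n 0 z (n 0 z (n 0 z (n 0 z (n 0 z (n 0 z (n 0 z z)))))))) z))))))) (n 0 (n 247 (n 0 z (n 0 z
 (n 0 z (n 0 z (n 0 z z))))) (n 247 (n 0 z (n 0 z (n 0 z (n 6426739 z (n 0 z z))))) (n 241 (n 0
 z (n 0 z (n 0 z (n 0 z (n 0 z (n 0 z (n 0 z z))))))) (n 241 (n 0 z (n 0 z (n 0 z (n 0 z (n 0 z
 (n 0 z (n 0 z z))))))) (n 241 (n 0 z (n 0 z (n 0 z (n 0 z (n 0 z (n 0 z (n 0 z z))))))) (n 241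
 (n 0 z (n 0 z (n 0 z (n 0 z (n 0 z (n 0 z (n 0 z z))))))) z)))))) (n 0 (n 0 z (n 1 (n 0 z (n 0
 z (n 0 z (n 0 z (n 0 z (n 0 z (n 0 z (n 0 z (n 0 z z))))))))) (n 1 (n 0 z (n 0 z (n 0 z (n 0 z
 (n 0 z (n 0 z (n 0 z (n 0 z (n 0 z z))))))))) (n 1 (n 0 z (n 0 z (n 0 z (n 0 z (n 7754051 z (n
 0 z (n 0 z (n 0 z (n 0 z z))))))))) (n 1 (n 0 z (n 0 z (n 0 z (n 0 z (n 0 z (n 0 z (n 0 z (n 0
 z (n 0 z z))))))))) z))))) (n 0 (n 721 (n 0 z (n 0 z (n 0 z (n 0 z (n 0 z (n 0 z (n 0 z (n 0 z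
 (n 0 z (n 0 z (n 0 z (n 0 z z)))))))))))) (n 721 (n 0 z (n 0 z (n 7745603 z (n 0 z (n 0 z (n 0
 z (n 0 z (n 0 z (n 0 z (n 0 z (n 0 z (n 0 z z)))))))))))) (n 721 (n 0 z (n 0 z (n 0 z (n 0 z (n
 0 z (n 0 z (n 2 (n 0 z z) (n 0 z (n 0 z (n 0 z (n 0 z (n 0 z z)))))))))))) (n 721 (n 0 z (n 0 z
 (n 0 z (n 0 z (n 0 z (n 0 z (n 0 z (n 0 z (n 0 z (n 0 z (n 0 z (n 0 z z)))))))))))) z)))) (n 0
 (n 0 z (n 0 z (n 0 z z))) (n 0 (n 0 z (n 0 z z)) (n 0 (n 0 z z) (n 0 z z)))))))))))) (n 0 (n 0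
 z (n 1 (n 6557747 z (n 6557747 z (n 6557747 z (n 6557747 z (n 6557747 z (n 6557747 z z)))))) (n
 1 (n 3788 z (n 3788 z (n 76 z (n 3788 z (n 6632475 z (n 3788 z z)))))) (n 1 (n 3788 z (n 3788 z
 (n 3788 z (n 6632475 z (n 3788 z (n 76 z z)))))) z)))) (n 0 z z)))) (n
 0x5ad4a2bba515a66d1659206998d068bba04542c6a8d63452b409 (n 0 (n 153 (n 0 z (n 0 z (n 0 z (n 0 z
 (n 0 z (n 0 z (n 6635571 z (n 0 z (n 0 z (n 0 z z)))))))))) (n 33 (n 0 z (n 0 z (n 2 z (n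
 6623299 z z)))) (n 9 (n 10 z (n 18 z (n 0 z (n 0 z (n 26 z (n 0 z (n 6562059 z (n 0 z z))))))))
 (n 3 (n 0 z (n 0 z (n 6632459 z (n 0 z (n 0 z (n 34 z (n 0 z (n 0 z (n 0 z (n 0 z (n 0 z (n 0 z
 z)))))))))))) (n 1 (n 0 z (n 6635571 z (n 42 z (n 0 z (n 50 z (n 0 z (n 0 z (n 0 z z)))))))) (n
 0 (n 6635571 z (n 6635571 z (n 0 z (n 58 z (n 66 z (n 74 z (n 0 z (n
 0x8c86c8640782189d99985bd1d8d1a197a282385e81f5714e3b1e81c9a62a97ec8645a43dd99e9198217a10801 z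
 z)))))))) z)))))) (n 33 (n 0 (n 23 (n 0 z (n 0 z (n 0 z (n 0 z (n 0 z (n 0 z (n 0 z (n 0 z
 z)))))))) (n 23 (n 0 z (n 0 z (n 0 z (n 0 z (n 0 z (n 0 z (n 0 z (n 0 z z)))))))) (n 23 (n 0 z
 (n 0 z (n 0 z (n 0 z (n 0 z (n 0 z (n 7741699 z (n 0 z z)))))))) (n 11 (n 0 z (n 0 z (n 0 z (n
 0 z (n 0 z z))))) (n 3 (n 0 z (n 0 z (n 0 z (n 0 z (n 0 z (n 0 z (n 0 z (n 0 z (n 0 z (n 0 z (n
 0 z (n 0 z (n 0 z z))))))))))))) (n 3 (n 0 z (n 0 z (n 0 z (n 0 z (n 0 z (n 0 z (n 0 z (n 0 z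
 (n 0 z (n 2 (n 2 (n 0 z (n 0 z (n 0 z (n 0 z (n 0 z (n 0 (n 8790275 z z) z)))))) (n 1 z (n 1 z
 z))) (n 0 z (n 0 z (n 0 z z))))))))))))) (n 1 (n 0 z (n 0 z (n 0 z (n 0 z (n 0 z (n 0 z (n 0 z
 (n 0 z (n 0 z z))))))))) (n 1 (n 0 z (n 0 z (n 0 z (n 2 (n 0 z z) (n 0 z (n 0 z (n 0 z (n 0 z
 (n 0 z z))))))))) (n 1 (n 0 z (n 0 z (n 0 z (n 0 z (n 2 z (n 0 z (n 0 z (n 0 z (n 0 z
 z))))))))) z))))))))) (n 0 (n 0 z (n 0 z (n 33 (n 0 z (n 0 z (n 0 z (n 0 z (n 0 z (n 0 z (n 0 z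
 (n 0 z (n 0 z (n 0 z (n 0 z (n 0 z (n 0 z z))))))))))))) (n 1321 (n 0 z (n 0 z (n 0 z (n 0 z (n
 0 z (n 0 z (n 0 z (n 0 z (n 0 z (n 0 z (n 0 z (n 0 z z)))))))))))) (n 1321 (n 0 z (n 0 z (n 0 z
 (n 0 z (n 0 z (n 0 z (n 7754755 z (n 0 z (n 0 z (n 0 z (n 0 z (n 0 z z)))))))))))) (n 17 (n 0 z
 (n 0 z (n 0 z (n 2 (n 0 z (n 0 z z)) (n 0 z (n 0 z (n 0 z (n 0 z (n 0 z (n 0 z (n 0 z
 z))))))))))) (n 17 (n 0 z (n 0 z (n 0 z (n 0 z (n 0 z (n 0 z (n 0 z (n 0 z (n 0 z (n 0 z (n 0 z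
 z))))))))))) (n 17 (n 0 z (n 0 z (n 0 z (n 0 z (n 0 z (n 0 z (n 0 z (n 0 z (n 0 z (n 0 z (n 0 z
 z))))))))))) z)))))))) (n 0 (n 0 z (n 1093 (n 0 z (n 0 z (n 0 z (n 0 z (n 0 z (n 0 z (n 0 z (n
 0 z (n 0 z (n 0 z (n 0 z (n 0 z (n 0 z z))))))))))))) (n 21 (n 0 z (n 0 z (n 0 z (n 0 z (n 0 z
 (n 0 z (n 0 z (n 0 z z)))))))) (n 21 (n 0 z (n 0 z (n 0 z (n 0 z (n 0 z (n 0 z (n 0 z (n 0 z
 z)))))))) (n 17 (n 0 z (n 0 z (n 0 z (n 0 z (n 0 z (n 0 z (n 0 z (n 0 z (n 0 z (n 0 z (n 0 z (n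
 0 z z)))))))))))) (n 17 (n 0 z (n 0 z (n 0 z (n 0 z (n 0 z (n 0 z (n 0 z (n 0 z (n 0 z (n 0 z
 (n 0 z (n 2 (n 0 z z) z)))))))))))) (n 17 (n 0 z (n 0 z (n 0 z (n 0 z (n 0 z (n 0 z (n 0 z (n 0
 z (n 0 z (n 0 z (n 0 z (n 0 z z)))))))))))) z))))))) (n 0 (n 7 (n 0 z (n 0 z (n 0 z (n 0 z (n 0
 z z))))) (n 3 (n 0 z (n 0 z (n 7741699 z (n 0 z (n 0 z (n 0 z (n 0 z (n 0 z (n 0 z z)))))))))
 (n 3 (n 0 z (n 0 z (n 0 z (n 0 z (n 2 (n 2 (n 0 (n 8790275 z z) (n 0 (n 8790275 z z) (n 0 z (n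
 0 z (n 0 z (n 0 (n 8790275 z (n 8790275 z z)) z)))))) (n 1 z (n 1 z z))) (n 0 z (n 0 z (n 0 z
 (n 0 z z))))))))) (n 1 (n 0 z (n 0 z (n 0 z (n 0 z (n 0 z (n 0 z (n 7741699 z (n 0 z (n 0 z (n
 0 z (n 0 z (n 0 z (n 0 z z))))))))))))) (n 1 (n 0 z (n 0 z (n 0 z (n 0 z (n 0 z (n 0 z (n 0 z
 (n 0 z (n 0 z (n 0 z (n 0 z (n 0 z (n 0 z z))))))))))))) (n 1 (n 0 z (n 0 z (n 0 z (n 0 z (n 0
 z (n 0 z (n 0 z (n 0 z (n 0 z (n 2 z (n 0 z (n 0 z (n 0 z z))))))))))))) z)))))) (n 0 (n 3 (n 0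
 z (n 0 z (n 0 z (n 0 z (n 0 z (n 0 z (n 0 z (n 0 z (n 0 z (n 0 z (n 0 z (n 0 z z)))))))))))) (n
 3 (n 0 z (n 0 z (n 0 z (n 0 z (n 0 z (n 0 z (n 0 z (n 0 z (n 0 z (n 0 z (n 0 z (n 6631795 z
 z)))))))))))) (n 1 (n 0 z (n 0 z (n 0 z (n 0 z (n 0 z (n 0 z (n 0 z (n 0 z (n 0 z (n 0 z (n 0 z
 (n 0 z z)))))))))))) (n 1 (n 0 z (n 0 z (n 0 z (n 0 z (n 0 z (n 0 z (n 0 z (n 2 (n 0 z z) (n 0
 z (n 0 z (n 0 z (n 0 z z)))))))))))) (n 1 (n 0 z (n 0 z (n 0 z (n 0 z (n 0 z (n 0 z (n 0 z (n 0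
 z (n 0 z (n 0 z (n 0 z (n 0 z z)))))))))))) z))))) (n 0 (n 0 z (n 53 (n 0 z (n 0 z (n 0 z (n 0
 z (n 0 z (n 0 z (n 0 z (n 0 z (n 0 z (n 0 z (n 0 z (n 0 z (n 0 z (n 0 z (n 0 z (n 0 z (n 0 z (n
 0 z (n 0 z (n 0 z (n 0 z (n 0 z (n 0 z (n 0 z (n 0 z (n 0 z (n 0 z (n 0 z (n 0 z (n 0 z (n 0 z
 (n 0 z (n 0 z (n 0 z (n 0 z (n 0 z (n 0 z (n 0 z (n 0 z (n 0 z (n 0 z (n 0 z (n 0 z (n 0 z (n 0
 z (n 0 z (n 0 z z))))))))))))))))))))))))))))))))))))))))))))))) (n 53 (n 0 z (n 0 z (n 0 z (n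
 0 z (n 0 z (n 0 z (n 0 z (n 0 z (n 0 z (n 0 z (n 2 (n 0 z z) (n 0 z (n 0 z (n 0 z (n 0 z (n 0 z
 (n 0 z (n 0 z (n 0 z (n 0 z (n 0 z (n 0 z (n 0 z (n 0 z (n 0 z (n 0 z (n 0 z (n 0 z (n 0 z (n 0
 z (n 0 z (n 0 z (n 0 z (n 0 z (n 0 z (n 0 z (n 0 z (n 0 z (n 0 z (n 0 z (n 0 z (n 0 z (n 0 z (n
 0 z (n 0 z (n 0 z (n 0 z z))))))))))))))))))))))))))))))))))))))))))))))) (n 53 (n 0 z (n 0 z
 (n 0 z (n 0 z (n 0 z (n 0 z (n 0 z (n 0 z (n 0 z (n 0 z (n 0 z (n 0 z (n 0 z (n 0 z (n 0 z (n 0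
 z (n 0 z (n 0 z (n 0 z (n 0 z (n 0 z (n 0 z (n 0 z (n 0 z (n 0 z (n 0 z (n 0 z (n 0 z (n 0 z (n
 0 z (n 0 z (n 0 z (n 0 z (n 2 z (n 0 z (n 0 z (n 0 z (n 0 z (n 0 z (n 0 z (n 0 z (n 0 z (n 0 z
 (n 0 z (n 0 z (n 0 z (n 0 z z))))))))))))))))))))))))))))))))))))))))))))))) z)))) (n 0 (n 1 (n
 2 (n 0 z (n 0 z z)) (n 0 z (n 0 z (n 0 z (n 0 z (n 0 z (n 0 z z))))))) (n 1 (n 0 z (n 0 z (n 0
 z (n 0 z (n 0 z (n 0 z (n 0 z z))))))) (n 1 (n 0 z (n 0 z (n 0 z (n 0 z (n 0 z (n 0 z (n 0 z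
 z))))))) z))) (n 0 (n 0 z (n 0 z z)) (n 0 (n 0 z z) (n 0 z z)))))))))) (n 0 (n 0 z (n 0 z (n 1
 (n 6562059 z (n 1228 z (n 1228 z (n 1228 z (n 1228 z (n 1228 z z)))))) (n 1 (n 6623299 z (n
 6623299 z (n 6623299 z (n 6623299 z (n 6623299 z (n 6623299 z z)))))) z)))) (n 0 z z)))) (n
 0x3528d2144e1c826b1b10135280 (n 0 (n 467 (n 3282443 z (n 2 z (n 0 z (n 10 z (n 0 z z))))) (n
 461 (n 0 z (n 0 z (n 0 z (n 6559019 z (n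
 0x194994100e01cc64ca08037f78048138097d580d80e8137e58117ef8087f48017ff7fc8138007e47fd7fb8057fe8067fb8028057f77f580a7ff8028087ea8087f67e97ff8028087f67f78137f08128097fc8037e87fe1011
 z (n 0 z (n 0 z (n 0 z (n 3278363 z (n 0 z (n 0 z (n 0 z (n 0 z (n 0 z (n 3278363 z (n 0 z (n 0
 z (n 0 z (n 0 z (n 0 z (n
 0x6ca8a804037fa7f97fb80780a7ff7ff7f78147fd7fe8028177f88007f97e180c8087fe8037fe8127e48018038048017fb8037fd7ff7ff7f980482a7f281d7f98057f78008047f57f27fd7e680680d7f20811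
 z (n
 0x2ca8a804078008018018018008007ff7ff8008017ff8007fe8008008007ff8008018007ff7ff8018017ff8007ff8008028018008008028017ff7ff7ff8018018008008008008008008008008008008000811
 z (n 0 z (n 0 z (n
 0x5cd65069f7467c88736f693c7e981c7249738538367666d27327828df7f27727ff72d8287d374186d80973f7bf75488a89c76e7518058d16737117577fe7857df77d86b71b90673381f8376cd7b20051
 z (n
 0x6ca8a804077f47fe80a7ff7e680d80180c7ea8128068077ef7f87ef80281b7f38078047ef7fb7f38227fb8037f98018057fd8027f88018088087e28097f08047f88067fc7f47fb80c80281a8007f080e0811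
 z (n
 0x5cd62069f7467c88736f693c7e981c7249738538367666d27327828df7f27727ff72d8287d374186d80973f7bf75488a89c76e7518058d16737117577fe7857df77d86b71b90673381f8376cd7b20051
 z (n
 0x2ca8a864078008018018018008007ff7ff8008017ff8007fe8008008007ff8008018007ff7ff8018017ff8007ff8008028018008008028017ff7ff7ff8018018008008008008008008008008008008000811
 z (n 6427979 z (n
 0x4a56206e676b7d385c72b8fc7ed81675092984382c78570f75b79b8b37f478e7ff7578207dc7678578087667cd77686f87d78b7748048a86c27417797fe79e7e67988567498d275c81882c70b7c10051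
 z (n
 0x2ca8a804078007fe8018007ff8008007ff8008008008007ff8008008007fe8008018008007ff8018007ff8017ff8008018018007fe8017ff8007ff7ff8018018008008008008018008008008008008010811
 z (n 6427979 z z)))))))))))))))))))))))))))))))) (n 463 (n 0 z (n 0 z (n 0 z (n 0 z (n 6636051
 z (n 18 z (n 0 z z))))))) (n 3 (n 6636323 z (n 0 z (n 0 z (n 0 z (n 0 z (n 0 z (n 0 z z)))))))
 (n 1 (n 26 z (n 0 z (n 6636051 z (n 0 z (n 0 z (n 0 z (n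
 0xcca8a604077f27f280080b7f78057fc7f280c8037e77fa82b80a80a7fe7ad81c7fa7fa80a80a8307bb8037fc7ff7ef7f881c7ff7f57f38037f78407ce8477f77fa7f47ef8197f67ea7ec7ca81481e7d90811
 z (n 0 z (n 6636051 z (n 6636323 z (n 0 z (n 0 z (n 0 z (n 0 z (n 0 z (n 0 z (n 6636051 z (n
 6636051 z (n 0 z (n
 0xcca8a624077f87f38028068067fb7fe7f381d7fc7f27fb8258078057fd7cb8138017fe8078088237d27fe7f280c7f17fb80c7fd8007f38087f58337ef82e7f07fe7fd7f880c7fe7ee7f57d580f81a7e70811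
 z z)))))))))))))))))))) (n 0 (n 0 z (n 0 z (n
 0x2ca88604038007ff8018007ff8008018008008017ff8007ff8008018008008008008008007ff8018017ff8017ff8018018008008008018007ff7ff8008018008008008008008008008008008008008000811
 z (n 0 z (n 0 z (n 6636051 z (n
 0x9909900c06004c86c864037f97f77fd8087fc8048007f88087ff7f97fe8127fe8047fc7de80b7ff7ff7ff8098187e67ff7f88027fa7fc8098007ff7fa7fd7f98227ef8227fc8007fc7f580a7f77f57f97ea80980c7f11011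
 z (n 0 z (n 6636051 z (n 34 z z)))))))))) z)))))) (n 467 (n 0 (n 0 z (n 933 (n 0 z (n 7754307 z
 (n 0 z (n 0 z (n 0 z (n 0 z (n 0 z (n 0 z (n 0 z (n 0 z (n 0 z z))))))))))) (n 57 (n 0 z (n 0 z
 (n 0 z (n 0 z (n 0 z (n 0 z (n 0 z (n 0 z (n 0 z (n 0 z (n 0 z (n 0 z (n 0 z (n 0 z (n 0 z (n 0
 z z)))))))))))))))) (n 49 (n 0 z (n 0 z (n 0 z (n 0 z (n 0 z z))))) z)))) (n 0 (n 933 (n 0 z (n
 0 z (n 0 z (n 0 z (n 0 z (n 0 z (n 0 z (n 0 z (n 0 z (n 0 z (n 0 z (n 0 z (n 0 z (n 0 z (n 0 z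
 (n 0 z z)))))))))))))))) (n 925 (n 0 z (n 0 z (n 0 z (n 0 z (n 0 z z))))) (n 145 (n 0 z (n 0 z
 (n 0 z (n 0 z (n 2 z (n 0 z (n 0 z (n 0 z (n 0 z (n 0 z (n 0 z z))))))))))) z))) (n 0 (n 1325
 (n 0 z (n 0 z (n 0 z (n 0 z (n 0 z (n 0 z (n 0 z (n 0 z z)))))))) (n 241 (n 0 z (n 0 z (n 0 z
 (n 0 z (n 0 z (n 0 z (n 0 z (n 0 z (n 0 z (n 0 z (n 0 z (n 0 z (n 0 z (n 0 z (n 0 z (n 0 z (n 0
 z (n 0 z (n 0 z (n 0 z (n 0 z (n 0 z (n 0 z (n 0 z (n 7754307 z z))))))))))))))))))))))))) z))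
 (n 0 (n 5 (n 0 z (n 0 z (n 0 z (n 0 z (n 0 z (n 2 z (n 0 z (n 0 z z)))))))) z) (n 0 z z))))) (n
 0 (n 1 (n 3282443 z (n 3282443 z (n 3282443 z (n 3282443 z (n 3282443 z (n 3282443 z z)))))) (n
 1 (n 3692 z (n 3692 z (n 3692 z (n 3692 z (n 3692 z (n 3692 z z)))))) (n 0 z (n 1 (n 3692 z (n
 3708 z (n 3708 z (n 3692 z (n 3692 z (n 3692 z z)))))) (n 0 z z))))) (n 0 z z)))) (n
 0x3455d1958edc156cba2345d419 (n 0 (n 153 (n 0 z (n 0 z (n 0 z (n 0 z (n 0 z (n 0 z (n 0 z (n 0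
 z (n 0 z (n 0 z (n 0 z (n 3282443 z (n 0 z (n 0 z z)))))))))))))) (n 33 (n 2 z (n 0 z (n 0 z (n
 6496515 z (n 6496515 z (n 0 z z)))))) (n 9 (n 0 z (n 0 z (n 10 z (n 0 z (n 0 z (n 6496515 z (n
 0 z (n 0 z z)))))))) (n 3 (n
 0x7a62182082092991c9a646f810ea094e15b717bce79a9e441462869476f3efe62916b3b9c77575ab0041 z (n
 6496515 z (n
 0x465465420382ca8ca80077a09e54a376b56d6a864fc52a229169a98a986f6aa7d0a197ad79e9915616266289639165e31001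
 z (n 0x1a64282082071f7246ea89f81c9a091f95ba287a48a58a36e276956789d91285a82492c9e0a1f7640041 z
 (n 0 z (n 18 z (n 0 z (n 0 z (n 0 z (n 0 z (n 6496515 z z))))))))))) (n 25 (n 0 z (n 0 z (n
 6566419 z (n 0 z z)))) (n 0 (n 0 z (n 0 z (n 6624299 z (n 0 z (n 26 z (n 34 z z)))))) z))))))
 (n 25 (n 0 (n 471 (n 0 z (n 0 z (n 0 z (n 0 z (n 0 z (n 0 z z)))))) (n 487 (n 0 z (n 0 z (n 0 z
 (n 0 z (n 0 z (n 0 z (n 0 z (n 0 z (n 0 z (n 0 z (n 0 z (n 0 z (n 0 z (n 0 z (n 0 z (n 0 z (n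
 7745827 z (n 0 z (n 0 z (n 0 z (n 0 z (n 0 z (n 0 z (n 0 z (n 0 z (n 0 z (n 0 z (n 0 z (n 0 z
 z))))))))))))))))))))))))))))) (n 61 (n 0 z (n 0 z (n 0 z (n 0 z (n 0 z (n 0 z (n 0 z (n 0 z (n
 0 z (n 0 z (n 0 z (n 0 z (n 0 z (n 0 z (n 0 z (n 0 z z)))))))))))))))) (n 61 (n 0 z (n 0 z (n 0
 z (n 0 z (n 0 z (n 0 z (n 0 z (n 0 z (n 0 z (n 0 z (n 0 z (n 0 z (n 7745827 z (n 0 z (n 0 z (n
 0 z z)))))))))))))))) z)))) (n 0 (n 267 (n 0 z (n 0 z (n 0 z (n 2 (n 2 (n 0 z (n 0 (n 8872963 z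
 (n 8872963 z z)) (n 0 (n 8872963 z (n 8872963 z z)) (n 0 z (n 0 (n 8872963 z (n 8872963 z z))
 (n 0 z z)))))) (n 2 (n 0 z (n 0 (n 8872963 z (n 8872963 z z)) (n 0 (n 8872963 z (n 8872963 z
 z)) (n 0 z (n 0 (n 8872963 z (n 8872963 z z)) (n 0 z z)))))) z)) (n 0 z (n 0 z (n 0 z (n 0 z (n
 0 z z))))))))) (n 17 (n 0 z (n 0 z (n 0 z (n 0 z (n 0 z (n 0 z (n 0 z (n 0 z (n 0 z (n 0 z (n 0
 z (n 0 z (n 0 z (n 0 z (n 0 z (n 0 z z)))))))))))))))) (n 17 (n 0 z (n 0 z (n 0 z (n 0 z (n 0 z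
 (n 0 z (n 0 z (n 0 z (n 0 z (n 0 z (n 0 z (n 0 z (n 0 z (n 0 z (n 0 z (n 0 z z))))))))))))))))
 z))) (n 0 (n 5 (n 0 z (n 0 z (n 0 z (n 0 z (n 0 z (n 0 z (n 0 z (n 0 z (n 0 z (n 0 z (n 0 z (n
 0 z (n 0 z (n 2 (n 0 z z) z)))))))))))))) (n 5 (n 0 z (n 0 z (n 0 z (n 0 z (n 0 z (n 0 z (n 0 z
 (n 0 z (n 0 z (n 0 z (n 0 z (n 0 z (n 0 z (n 0 z z)))))))))))))) z)) (n 0 (n 0 z z) (n 0 z
 z))))) (n 0 (n 0 z (n 0 z (n 1 (n 6566419 z (n 6566419 z (n 6566419 z (n 6566419 z (n 6566419 z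
 (n 6566419 z z)))))) (n 0 z z)))) (n 0 z z)))) (n
 0x1b2728d0b546774b864e46222e6c138db08b7b60e26e02d6d908725843b64c0 (n 0x36c9c (n 153 (n
 0x336217608e179f8a579d8658206e18de8e19228237e38a17a08df8607df7df82175f76281e7dd8220041 z (n
 0x2c86c8640781e89e8a182279f8629e17dd75b8df9249a37e28217a972089f75a72289e8a179f8207a08220801 z
 (n 6619947 z (n 6554395 z (n
 0x2b64179f8e17a08e575c8a485f7df79f7df8628268238a07a281e8a079f79f7e18618228227e08220041 z (n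
 3282443 z (n 0 z (n
 0x65365120380ca6ca42037e181f8208208207a28608608208217e08208207df8208208207df8208208218208208208201001
 z (n
 0x2ca6a624077e081f85e8208207e081e8207e27e08208618617e081f8208207e17e082176082082185f8200801 z
 (n 3282443 z (n 2 z z))))))))))) (n 57 (n 6496515 z (n 6496515 z (n 10 z (n 18 z z)))) (n 9 (n
 26 z (n 0 z (n 6496515 z (n 34 z z)))) (n 123 (n 42 z (n 0 z (n 0 z (n 6496515 z (n 0 z (n 50 z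
 z)))))) (n 1 (n 6554395 z (n 58 z (n 66 z z))) (n 0 (n
 0x336216608e57e3ab14dd92b8216976668a26e196582b82791a91e7228a765f6ed5e08a275a9677190041 z (n
 0xcca68624036a581d8a2a6b6a17e88207567667e071e8a282b76885a85a79e92481d76a76496181f8e77590801 z
 (n 0xaca68624038277dca9a61b9e57e28287d9b1f95d95a7df8255e872472091f8d8a1b8df86081d71d75e8e00801
 z (n
 0x2ca68624077e181e81e81f96179f8209617a181e82085e7e07618628207de81f7a07e07a281f8608608210801 z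
 (n 0 z (n 0 z (n 0 z (n 0 z (n 0 z (n 0 z (n
 0x336207608e179f8a579d8658206e18de8e19228237e38a17a08df8607df7df82175f76281e7dd8220041 z (n
 4331099 z (n 0 z (n 0 z (n 0 z (n 6619947 z (n 6619947 z (n 0 z (n 0 z (n 0 z (n 0 z (n 6619947
 z (n 6619947 z (n
 0x2b61079f8e17a08e575c8a485f7df79f7df8628268238a07a281e8a079f79f7e18618228227e08220041 z (n 0 z
 (n 0 z (n 0 z (n
 0x336107608e179f8a579d8658206e18de8e19228237e38a17a08df8607df7df82175f76281e7dd8220041 z (n 0 z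
 (n 0 z (n 0 z (n 0 z (n 0 z (n 0 z (n 6619947 z (n
 0x2c86c864037e079f82181c7a079e8227e47a27608a08e081c81e89f7df79c7607a085f7a481d82181f7e20801 z
 (n 0x6c86c8240779f89f82082182086081f79f8e182082082081f89f8207e08218607e08607de8218a08208600801
 z (n
 0x64364310182c86c802037a08207df7e07a09207a07608a08a18de8638217e181c89d81f86079f8a17618208de7dd8a01001
 z (n
 0x364264030182c86c842037647da89c79e9228de71f75f95fa2185c8a47de8208198e08229dc89e8a685f76385e79b85d1001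
 z (n 0 z (n 3212891 z (n 0 z (n 0 z (n 6619947 z (n 0 z (n 0 z (n 74 z (n
 0x6c86c8040781f89b6e38a97207a18186a081d7e196075c8279e065c9e18de95e8e07de7dd725a6281c8e10801 z
 (n 82 z (n 0 z (n 0 z (n 0 z (n 0 z (n 0 z (n 90 z (n 0 z
 z)))))))))))))))))))))))))))))))))))))))))))))))))))))))) z)))))) (n 1 (n 0 (n 897 (n 0 z (n 0
 z (n 0 z (n 0 z (n 0 z (n 0 z (n 0 z (n 0 z (n 0 z (n 0 z (n 0 z (n 0 z (n 0 z (n 0 z (n 0 z (n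
 0 z z)))))))))))))))) (n 897 (n 0 z (n 0 z (n 0 z (n 0 z (n 0 z (n 0 z (n 0 z (n 0 z (n 0 z (n
 0 z (n 0 z (n 0 z (n 0 z (n 0 z (n 0 z (n 0 z z)))))))))))))))) (n 1041 (n 0 z (n 0 z (n 0 z (n
 0 z (n 2 (n 0 z (n 1 z (n 2 (n 0 z (n 0 z (n 0 z (n 0 z (n 0 (n 8794707 z z) (n 0 z z)))))) (n
 1 z (n 2 (n 0 z (n 0 z (n 0 z (n 0 z (n 0 (n 8794707 z z) (n 0 z z)))))) (n 2 (n 0 (n 8787755 z
 z) (n 0 (n 8787755 z z) (n 0 z (n 0 z (n 0 (n 1220 z (n 1220 z z)) (n 0 z z)))))) (n 2 (n 0 z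
 (n 0 z (n 0 z (n 0 z (n 0 z (n 0 z z)))))) (n 2 (n 0 z (n 0 z (n 0 z (n 0 z (n 0 (n 8787003 z
 z) (n 0 z z)))))) z)))))))) (n 0 z (n 0 z (n 0 z (n 0 z (n 0 z (n 0 z (n 0 z (n 0 z (n 0 z (n 0
 z z))))))))))))))) (n 1041 (n 0 z (n 0 z (n 0 z (n 0 z (n 0 z (n 0 z (n 0 z (n 0 z (n 0 z (n 0
 z (n 0 z (n 0 z (n 0 z (n 0 z (n 0 z z))))))))))))))) (n 535 (n 0 z (n 0 z (n 0 z (n 0 z (n 2
 (n 0 z (n 1 z (n 1 z (n 2 (n 0 z (n 0 z (n 0 z (n 0 (n 8787755 z z) (n 0 (n 8656651 z (n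
 8869419 z z)) (n 0 z z)))))) (n 1 z (n 1 z z)))))) (n 0 z (n 0 z (n 0 z z)))))))) (n 535 (n 0 z
 (n 0 z (n 0 z (n 0 z (n 0 z (n 0 z (n 0 z (n 0 z z)))))))) (n 303 (n 0 z (n 0 z (n 0 z (n 0 z
 (n 2 (n 0 z (n 2 (n 0 z (n 0 z (n 0 (n 8787755 z z) (n 0 z (n 0 (n 8869419 z (n 8869419 z z))
 (n 0 (n 8733539 z z) z)))))) (n 2 (n 0 z (n 0 z (n 0 z (n 0 z (n 0 z (n 0 z z)))))) (n 2 (n 0 z
 (n 0 z (n 0 z (n 0 z (n 0 z (n 0 z z)))))) z)))) (n 0 z (n 0 z (n 0 z (n 0 z z))))))))) (n 303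
 (n 0 z (n 0 z (n 0 z (n 0 z (n 0 z (n 0 z (n 0 z (n 0 z (n 0 z z))))))))) (n 305 (n 0 z (n 0 z
 (n 0 z (n 0 z (n 0 z (n 0 z (n 0 z (n 0 z (n 0 z (n 0 z (n 0 z z))))))))))) (n 305 (n 0 z (n 0
 z (n 2 (n 0 z z) (n 0 z (n 0 z (n 0 z (n 0 z (n 0 z (n 0 z (n 0 z (n 0 z z))))))))))) (n 305 (n
 0 z (n 0 z (n 0 z (n 0 z (n 0 z (n 0 z (n 0 z (n 0 z (n 0 z (n 0 z (n 0 z z)))))))))))
 z))))))))))) (n 0 (n 0 z (n 747 (n 0 z (n 0 z (n 2 (n 0 z (n 1 z (n 2 (n 0 z (n 0 z (n 0 z (n 0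
 z (n 0 z (n 0 z z)))))) (n 2 (n 0 z (n 0 z (n 0 z (n 0 z (n 0 z (n 0 z z)))))) (n 2 (n 0 z (n 0
 z (n 0 z (n 0 z (n 0 z (n 0 z z)))))) (n 2 (n 0 z (n 0 z (n 0 z (n 0 z (n 0 z (n 0 z z)))))) (n
 2 (n 0 z (n 0 z (n 0 z (n 0 z (n 0 z (n 0 z z)))))) (n 2 (n 0 z (n 0 z (n 0 z (n 0 z (n 0 z (n
 0 z z)))))) z)))))))) (n 0 z (n 0 z (n 0 z z)))))) (n 747 (n 0 z (n 0 z (n 0 z (n 0 z (n 0 z (n
 0 z z)))))) (n 75 (n 0 z (n 0 z (n 2 (n 0 z (n 2 (n 0 z (n 0 z (n 0 z (n 0 z (n 0 (n 8855571 z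
 z) (n 0 z z)))))) (n 2 (n 0 z (n 0 z (n 0 z (n 0 z (n 0 z (n 0 z z)))))) (n 2 (n 0 z (n 0 z (n
 0 (n 8787755 z z) (n 0 z (n 0 (n 8732787 z (n 8718155 z z)) (n 0 (n 8868451 z z) z)))))) (n 2
 (n 0 z (n 0 z (n 0 z (n 0 z (n 0 z (n 0 z z)))))) (n 2 (n 0 z (n 0 z (n 0 z (n 0 z (n 0 z (n 0
 z z)))))) z)))))) (n 0 z (n 0 z (n 0 z (n 0 z (n 0 z z)))))))) (n 75 (n 0 z (n 0 z (n 0 z (n 0
 z (n 0 z (n 0 z (n 0 z (n 0 z z)))))))) (n 111 (n 0 z (n 2 (n 0 z (n 2 (n 0 z (n 0 z (n 0 z (n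
 0 z (n 0 z (n 0 z z)))))) (n 2 (n 0 z (n 0 z (n 0 z (n 0 z (n 0 z (n 0 z z)))))) (n 2 (n 0 z (n
 0 z (n 0 z (n 0 z (n 0 z (n 0 z z)))))) z)))) (n 0 z (n 0 z (n 0 z (n 0 z (n 0 z z))))))) (n
 111 (n 0 z (n 0 z (n 0 z (n 0 z (n 0 z (n 0 z (n 0 z z))))))) (n 113 (n 0 z (n 0 z (n 0 z (n 0
 z (n 0 z (n 0 z (n 0 z (n 0 z z)))))))) (n 113 (n 0 z (n 0 z (n 0 z (n 0 z (n 0 z (n 0 z (n 0 z
 (n 0 z z)))))))) (n 113 (n 0 z (n 0 z (n 0 z (n 0 z (n 0 z (n 0 z (n 0 z (n 0 z z))))))))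
 z)))))))))) (n 0 (n 747 (n 2 (n 0 z (n 1 z (n 2 (n 0 z (n 0 z (n 0 z (n 0 z (n 0 z (n 0 z
 z)))))) (n 2 (n 0 z (n 0 z (n 0 z (n 0 z (n 0 z (n 0 z z)))))) (n 2 (n 0 z (n 0 z (n 0 z (n 0 z
 (n 0 z (n 0 z z)))))) (n 2 (n 0 z (n 0 z (n 0 z (n 0 z (n 0 z (n 0 z z)))))) (n 2 (n 0 z (n 0 z
 (n 0 z (n 0 z (n 0 z (n 0 z z)))))) (n 2 (n 0 z (n 0 z (n 0 z (n 0 z (n 0 z (n 0 z z))))))
 z)))))))) (n 0 z (n 0 z z))) (n 747 (n 0 z (n 0 z (n 0 z z))) (n 487 (n 0 z (n 2 (n 0 z (n 2 (n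
 0 z (n 0 z (n 0 z (n 0 z (n 0 (n 8855571 z z) (n 0 z z)))))) (n 2 (n 0 z (n 0 z (n 0 z (n 0 z
 (n 0 z (n 0 z z)))))) (n 2 (n 0 z (n 0 z (n 0 (n 8787755 z z) (n 0 z (n 0 (n 8732787 z (n
 8869419 z z)) (n 0 (n 8733539 z z) z)))))) (n 2 (n 0 z (n 0 z (n 0 z (n 0 z (n 0 z (n 0 z
 z)))))) (n 2 (n 0 z (n 0 z (n 0 z (n 0 z (n 0 z (n 0 z z)))))) z)))))) (n 0 z (n 0 z z)))) (n
 487 (n 0 z (n 0 z (n 0 z (n 0 z z)))) (n 63 (n 2 (n 0 z (n 2 (n 0 z (n 0 z (n 0 z (n 0 z (n 0 z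
 (n 0 z z)))))) (n 2 (n 0 z (n 0 z (n 0 z (n 0 z (n 0 z (n 0 z z)))))) (n 2 (n 0 z (n 0 z (n 0 z
 (n 0 z (n 0 z (n 0 z z)))))) z)))) (n 0 z (n 0 z (n 0 z (n 0 z (n 0 z (n 0 z z))))))) (n 63 (n
 0 z (n 0 z (n 0 z (n 0 z (n 0 z (n 0 z (n 0 z z))))))) (n 113 (n 0 z (n 0 z (n 0 z (n 0 z (n 0
 z (n 0 z (n 0 z (n 0 z z)))))))) (n 113 (n 0 z (n 0 z (n 0 z (n 2 (n 0 z z) (n 0 z (n 0 z (n 0
 z (n 0 z z)))))))) (n 113 (n 0 z (n 0 z (n 0 z (n 0 z (n 0 z (n 0 z (n 0 z (n 0 z z))))))))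
 z))))))))) (n 0 (n 0 z (n 295 (n 0 z (n 0 z (n 0 z (n 0 z (n 0 z (n 0 z (n 0 z (n 0 z (n 0 z (n
 0 z z)))))))))) (n 295 (n 0 z (n 0 z (n 0 z (n 0 z (n 0 z (n 0 z (n 0 z (n 0 z (n 0 z (n 2 (n 1
 z (n 2 (n 0 z (n 0 z (n 0 z (n 0 z (n 0 z (n 0 z z)))))) (n 2 (n 0 z (n 0 z (n 0 z (n 0 z (n 0
 z (n 0 z z)))))) (n 2 (n 0 z (n 0 z (n 0 z (n 0 z (n 0 z (n 0 z z)))))) (n 2 (n 0 z (n 0 z (n 0
 z (n 0 z (n 0 z (n 0 z z)))))) z))))) z)))))))))) (n 15 (n 0 z (n 0 z (n 0 z (n 0 z (n 0 z (n 0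
 z (n 0 z (n 0 z (n 0 z (n 0 z (n 0 z (n 0 z (n 0 z (n 0 z (n 0 z (n 0 z z)))))))))))))))) (n 15
 (n 0 z (n 0 z (n 0 z (n 0 z (n 0 z (n 0 z (n 0 z (n 0 z (n 0 z (n 0 z (n 0 z (n 2 (n 2 (n 0 z
 (n 0 z (n 0 z (n 0 z (n 0 z (n 0 z z)))))) (n 2 (n 0 z (n 0 z (n 0 z (n 0 z (n 0 z (n 0 z
 z)))))) (n 2 (n 0 z (n 0 z (n 0 z (n 0 z (n 0 z (n 0 z z)))))) z))) (n 0 z (n 0 z (n 0 z (n 0 z
 z)))))))))))))))) (n 13 (n 0 z (n 0 z (n 0 z (n 0 z (n 0 z (n 0 z (n 0 z (n 0 z (n 0 z (n 0 z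
 (n 0 z (n 0 z (n 0 z (n 0 z (n 0 z (n 0 z (n 0 z (n 0 z (n 0 z (n 0 z (n 0 z (n 0 z (n 0 z (n 0
 z (n 0 z (n 0 z (n 0 z (n 0 z (n 0 z (n 0 z (n 0 z (n 0 z (n 0 z (n 0 z (n 0 z (n 0 z (n 0 z (n
 0 z (n 0 z (n 0 z (n 0 z (n 0 z (n 0 z (n 0 z (n 0 z (n 0 z
 z)))))))))))))))))))))))))))))))))))))))))))))) (n 13 (n 0 z (n 0 z (n 0 z (n 0 z (n 0 z (n 0 z
 (n 0 z (n 0 z (n 0 z (n 0 z (n 0 z (n 0 z (n 0 z (n 0 z (n 0 z (n 0 z (n 0 z (n 0 z (n 0 z (n 0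
 z (n 0 z (n 0 z (n 0 z (n 0 z (n 0 z (n 0 z (n 0 z (n 0 z (n 0 z (n 0 z (n 0 z (n 0 z (n 0 z (n
 0 z (n 0 z (n 0 z (n 0 z (n 0 z (n 0 z (n 0 z (n 2 (n 0 z z) (n 0 z (n 0 z (n 0 z (n 0 z (n 0 z
 z)))))))))))))))))))))))))))))))))))))))))))))) (n 13 (n 0 z (n 0 z (n 0 z (n 0 z (n 0 z (n 0 z
 (n 0 z (n 0 z (n 0 z (n 0 z (n 0 z (n 0 z (n 0 z (n 0 z (n 0 z (n 0 z (n 0 z (n 0 z (n 0 z (n 0
 z (n 0 z (n 0 z (n 0 z (n 0 z (n 0 z (n 0 z (n 0 z (n 0 z (n 0 z (n 0 z (n 0 z (n 0 z (n 0 z (n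
 0 z (n 0 z (n 0 z (n 0 z (n 2 z (n 0 z (n 0 z (n 0 z (n 0 z (n 0 z (n 0 z (n 0 z (n 0 z
 z)))))))))))))))))))))))))))))))))))))))))))))) z)))))))) (n 0 (n 267 (n 0 z (n 0 z (n 2 (n 0 z
 (n 1 z (n 2 (n 0 z (n 0 z (n 0 z (n 0 z (n 0 (n 8794707 z z) (n 0 z z)))))) (n 2 (n 0 (n 68 z
 z) (n 0 (n 68 z z) (n 0 z (n 0 z (n 0 (n 8869419 z (n 8869419 z z)) (n 0 z z)))))) (n 2 (n 0 z
 (n 0 z (n 0 z (n 0 z (n 0 z (n 0 z z)))))) (n 2 (n 0 z (n 0 z (n 0 z (n 0 z (n 0 (n 8787003 z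
 z) (n 0 z z)))))) z)))))) (n 0 z (n 0 z (n 0 z (n 0 z z))))))) (n 267 (n 0 z (n 0 z (n 0 z (n 0
 z (n 0 z (n 0 z (n 0 z z))))))) (n 15 (n 0 z (n 0 z (n 2 (n 0 z (n 2 (n 0 z (n 0 z (n 0 z (n 0
 z (n 0 z (n 0 z z)))))) (n 2 (n 0 z (n 0 z (n 0 z (n 0 z (n 0 z (n 0 z z)))))) (n 2 (n 0 z (n 0
 z (n 0 z (n 0 z (n 0 z (n 0 z z)))))) z)))) (n 0 z (n 0 z (n 0 z (n 0 z z))))))) (n 15 (n 0 z
 (n 0 z (n 0 z (n 0 z (n 0 z (n 0 z (n 0 z z))))))) (n 17 (n 0 z (n 0 z (n 0 z (n 0 z (n 0 z (n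
 0 z (n 0 z (n 0 z (n 0 z (n 0 z (n 0 z (n 0 z (n 0 z (n 0 z z)))))))))))))) (n 17 (n 0 z (n 0 z
 (n 0 z (n 0 z (n 2 (n 0 z z) (n 0 z (n 0 z (n 0 z (n 0 z (n 0 z (n 0 z (n 0 z (n 0 z (n 0 z
 z)))))))))))))) (n 17 (n 0 z (n 0 z (n 0 z (n 0 z (n 0 z (n 0 z (n 0 z (n 0 z (n 0 z (n 0 z (n
 0 z (n 0 z (n 0 z (n 0 z z)))))))))))))) z))))))) (n 0 (n 0 z (n 291 (n 0 z (n 0 z (n 0 z (n 0
 z (n 0 z z))))) (n 291 (n 0 z (n 0 z (n 0 z (n 2 (n 2 (n 0 z (n 0 (n 8804139 z z) (n 0 z (n 0 z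
 (n 0 (n 8853035 z (n 8853035 z z)) (n 0 (n 8804139 z z) z)))))) (n 2 (n 0 z (n 0 z (n 0 z (n 0
 z (n 0 (n 1156 z z) (n 0 z z)))))) (n 2 (n 0 z (n 0 z (n 0 z (n 0 z (n 0 (n 2164859 z z) (n 0 z
 z)))))) z))) (n 0 z z))))) (n 289 (n 0 z (n 0 z (n 0 z (n 0 z (n 0 z (n 0 z (n 0 z (n 0 z (n 0
 z (n 0 z (n 0 z (n 0 z (n 0 z (n 0 z (n 0 z (n 0 z (n 0 z (n 0 z (n 0 z (n 0 z (n 0 z (n 0 z (n
 0 z (n 0 z (n 0 z (n 0 z (n 0 z (n 0 z (n 0 z (n 0 z (n 0 z (n 0 z (n 0 z (n 0 z (n 0 z (n 0 z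
 (n 0 z (n 0 z (n 0 z (n 0 z (n 0 z (n 0 z (n 0 z (n 0 z (n 0 z (n 0 z (n 0 z
 z))))))))))))))))))))))))))))))))))))))))))))))) (n 289 (n 0 z (n 0 z (n 0 z (n 0 z (n 0 z (n 0
 z (n 0 z (n 0 z (n 0 z (n 0 z (n 0 z (n 0 z (n 0 z (n 0 z (n 0 z (n 0 z (n 0 z (n 0 z (n 0 z (n
 0 z (n 0 z (n 0 z (n 0 z (n 0 z (n 0 z (n 0 z (n 0 z (n 0 z (n 0 z (n 0 z (n 0 z (n 0 z (n 0 z
 (n 0 z (n 0 z (n 0 z (n 0 z (n 0 z (n 0 z (n 0 z (n 0 z (n 0 z (n 2 (n 0 z z) (n 0 z (n 0 z (n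
 0 z (n 0 z z))))))))))))))))))))))))))))))))))))))))))))))) (n 289 (n 0 z (n 0 z (n 0 z (n 0 z
 (n 0 z (n 0 z (n 0 z (n 0 z (n 0 z (n 0 z (n 0 z (n 0 z (n 0 z (n 0 z (n 0 z (n 0 z (n 0 z (n 0
 z (n 0 z (n 0 z (n 0 z (n 0 z (n 0 z (n 0 z (n 0 z (n 0 z (n 0 z (n 0 z (n 0 z (n 0 z (n 0 z (n
 0 z (n 0 z (n 0 z (n 0 z (n 0 z (n 0 z (n 2 z (n 0 z (n 0 z (n 0 z (n 0 z (n 0 z (n 0 z (n 0 z
 (n 0 z (n 0 z z))))))))))))))))))))))))))))))))))))))))))))))) z)))))) (n 0 (n 531 (n 2 (n 0 z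
 (n 2 (n 0 z (n 0 z (n 0 z (n 0 z (n 0 z (n 0 z z)))))) (n 2 (n 0 z (n 0 z (n 0 z (n 0 z (n 0 z
 (n 0 z z)))))) (n 2 (n 0 z (n 0 z (n 0 z (n 0 z (n 0 z (n 0 z z)))))) z)))) (n 0 z (n 0 z (n 0
 z (n 0 z z))))) (n 531 (n 0 z (n 0 z (n 0 z (n 0 z (n 0 z z))))) (n 245 (n 0 z (n 0 z (n 0 z (n
 0 z (n 0 z (n 0 z (n 0 z (n 0 z (n 0 z (n 0 z (n 0 z (n 0 z (n 0 z (n 0 z (n 0 z (n 0 z (n 0 z
 (n 0 z (n 0 z (n 0 z (n 0 z (n 0 z (n 0 z (n 0 z (n 0 z z))))))))))))))))))))))))) (n 245 (n 0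
 z (n 0 z (n 0 z (n 0 z (n 0 z (n 0 z (n 0 z (n 2 (n 0 z z) (n 0 z (n 0 z (n 0 z (n 0 z (n 0 z
 (n 0 z (n 0 z (n 0 z (n 0 z (n 0 z (n 0 z (n 0 z (n 0 z (n 0 z (n 0 z (n 0 z (n 0 z
 z))))))))))))))))))))))))) (n 245 (n 0 z (n 0 z (n 0 z (n 0 z (n 0 z (n 0 z (n 0 z (n 0 z (n 0
 z (n 0 z (n 0 z (n 0 z (n 0 z (n 0 z (n 0 z (n 0 z (n 0 z (n 0 z (n 0 z (n 0 z (n 0 z (n 0 z (n
 0 z (n 0 z (n 0 z z))))))))))))))))))))))))) z))))) (n 0 (n 0 z (n 293 (n 0 z (n 0 z (n 0 z (n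
 0 z (n 0 z (n 0 z (n 0 z (n 0 z (n 0 z (n 0 z (n 0 z (n 0 z (n 0 z (n 0 z (n 0 z (n 0 z (n 0 z
 (n 0 z (n 0 z (n 0 z (n 0 z (n 0 z (n 0 z (n 0 z (n 0 z (n 0 z (n 0 z (n 0 z (n 0 z (n 0 z (n 0
 z (n 0 z (n 0 z (n 0 z (n 0 z (n 0 z (n 0 z (n 0 z (n 0 z (n 0 z (n 0 z (n 0 z (n 0 z (n 0 z (n
 0 z (n 0 z (n 0 z (n 0 z (n 0 z z))))))))))))))))))))))))))))))))))))))))))))))))) (n 293 (n 0
 z (n 0 z (n 0 z (n 0 z (n 0 z (n 0 z (n 0 z (n 0 z (n 0 z (n 0 z (n 0 z (n 0 z (n 2 (n 0 z z)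
 (n 0 z (n 0 z (n 0 z (n 0 z (n 0 z (n 0 z (n 0 z (n 0 z (n 0 z (n 0 z (n 0 z (n 0 z (n 0 z (n 0
 z (n 0 z (n 0 z (n 0 z (n 0 z (n 0 z (n 0 z (n 0 z (n 0 z (n 0 z (n 0 z (n 0 z (n 0 z (n 0 z (n
 0 z (n 0 z (n 0 z (n 0 z (n 0 z (n 0 z (n 0 z (n 0 z (n 0 z
 z))))))))))))))))))))))))))))))))))))))))))))))))) (n 293 (n 0 z (n 0 z (n 0 z (n 0 z (n 0 z (n
 0 z (n 0 z (n 0 z (n 0 z (n 0 z (n 0 z (n 0 z (n 0 z (n 0 z (n 0 z (n 0 z (n 0 z (n 0 z (n 0 z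
 (n 0 z (n 0 z (n 0 z (n 0 z (n 0 z (n 0 z (n 0 z (n 0 z (n 0 z (n 0 z (n 0 z (n 0 z (n 0 z (n 2
 z (n 0 z (n 0 z (n 0 z (n 0 z (n 0 z (n 0 z (n 0 z (n 0 z (n 0 z (n 0 z (n 0 z (n 0 z (n 0 z (n
 0 z (n 0 z (n 0 z z))))))))))))))))))))))))))))))))))))))))))))))))) z)))) (n 0 (n 1 (n 0 z (n
 0 z (n 0 z (n 0 z (n 0 z (n 0 z (n 0 z (n 0 z (n 0 z (n 0 z (n 0 z (n 0 z z)))))))))))) (n 1 (n
 0 z (n 0 z (n 0 z (n 2 (n 0 z z) (n 0 z (n 0 z (n 0 z (n 0 z (n 0 z (n 0 z (n 0 z (n 0 z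
 z)))))))))))) (n 1 (n 0 z (n 0 z (n 0 z (n 0 z (n 0 z (n 0 z (n 0 z (n 0 z (n 0 z (n 0 z (n 0 z
 (n 0 z z)))))))))))) z))) (n 0 (n 0 z (n 0 z z)) (n 0 (n 0 z z) (n 0 z z)))))))))))) (n 0 (n 1
 (n 6554395 z (n 6554395 z (n 6554395 z (n 6554395 z (n 6554395 z (n 6554395 z z)))))) (n 1 (n
 1228 z (n 1228 z (n 1228 z (n 1228 z (n 1228 z (n 1228 z z)))))) (n 1 (n 1228 z (n 1228 z (n
 1228 z (n 1228 z (n 1228 z (n 2 z z)))))) z))) (n 0 (n 0x6342d54c445c4d845b4dc05a (n 0 (n 0 (n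
 7746131 z (n 7746131 z (n 7746131 z (n 7746131 z (n 7746131 z (n 7746131 z z)))))) z) (n 0 (n
 267 (n 1 (n 7684963 z (n 7684963 z (n 7684963 z (n 7684963 z (n 7684963 z (n 7684963 z z))))))
 (n 1 (n 1228 z (n 7602971 z (n 1228 z (n 7668523 z (n
 0x2c64ec0a037a181e82081f8607a186082085f7e18208a18607e07e086082181f82081f7e18218a18208210801 z
 (n 1228 z z)))))) (n 1 (n 1228 z (n 7602971 z (n 1228 z (n 1228 z (n 7668523 z (n 1228 z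
 z)))))) (n 1 (n 6493963 z (n 1228 z (n 7668523 z (n 1228 z (n 1228 z (n 1228 z z)))))) (n 1 (n
 4396811 z (n 7668523 z (n 6493995 z (n 1228 z (n 1228 z (n 1228 z z)))))) (n 1 (n 3282699 z (n
 4331275 z (n 4331275 z (n 4331275 z (n 4331275 z (n 4331275 z z)))))) (n 1 (n 7746131 z (n
 7746131 z (n 7746131 z (n 7746131 z (n 7746131 z (n 7746131 z z)))))) (n 1 (n 7746131 z (n
 7746131 z (n 7746131 z (n 7746131 z (n 7746131 z (n 7746131 z z)))))) z)))))))) (n 373 (n 1 (n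
 3596 z (n 3596 z (n 5513331 z (n 7668523 z (n 3596 z (n 3596 z z)))))) (n 1 (n 7545091 z (n
 7545091 z (n 7545091 z (n 7545091 z (n 7545091 z (n 7545091 z z)))))) (n 1 (n 7545091 z (n
 7545091 z (n 7545091 z (n 7545091 z (n 7545091 z (n 7545091 z z)))))) z))) (n 375 (n 1 (n 2 z
 (n 5310283 z (n 5509235 z (n 7602971 z (n 4172 z (n 4172 z z)))))) (n 1 (n 7545091 z (n 7545091
 z (n 7545091 z (n 7545091 z (n 7545091 z (n 7545091 z z)))))) (n 1 (n 7545091 z (n 7545091 z (n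
 7545091 z (n 7545091 z (n 7545091 z (n 7545091 z z)))))) z))) (n 249 (n 0 z (n 1 (n 10 z (n
 5310283 z (n 5509235 z (n 2188 z (n 2188 z (n 2188 z z)))))) (n 1 (n 7545091 z (n 7545091 z (n
 7545091 z (n 7545091 z (n 7545091 z (n 7545091 z z)))))) (n 1 (n 7545091 z (n 7545091 z (n
 7545091 z (n 7545091 z (n 7545091 z (n 7545091 z z)))))) z)))) (n 1 (n 1 (n 7602971 z (n
 7602971 z (n 7602971 z (n 7602971 z (n 7602971 z (n 7684963 z z)))))) (n 1 (n 1228 z (n 18 z (n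
 1228 z (n 1228 z (n 1228 z (n 7684963 z z)))))) (n 1 (n 7746131 z (n 7746131 z (n 7746131 z (n
 7746131 z (n 7746131 z (n 7746131 z z)))))) z))) (n 57 (n 1 (n 1228 z (n 1228 z (n 1228 z (n
 1228 z (n 7602971 z (n 1228 z z)))))) (n 1 (n 7545091 z (n 7545091 z (n 7545091 z (n 7545091 z
 (n 7545091 z (n 7545091 z z)))))) (n 1 (n 1228 z (n 1228 z (n
 0x2b7107a08a17df8a47de8648207218de8a18a18237e28a17a08a08a07df7e086175f76181e7de8210041 z (n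
 3213147 z (n 1228 z (n 7602971 z z)))))) (n 1 (n 1228 z (n 1228 z (n 26 z (n 7602971 z (n 1228
 z (n 1228 z z)))))) (n 1 (n 7545091 z (n 7545091 z (n 7545091 z (n 7545091 z (n 7545091 z (n
 7545091 z z)))))) (n 1 (n 7545091 z (n 7545091 z (n 7545091 z (n 7545091 z (n 7545091 z (n
 7545091 z z)))))) (n 1 (n 7684963 z (n 7684963 z (n 7684963 z (n 7684963 z (n 7684963 z (n
 7684963 z z)))))) (n 1 (n 7684963 z (n 7684963 z (n 7684963 z (n 7684963 z (n 7684963 z (n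
 7684963 z z)))))) z)))))))) (n 1 (n 1 (n 7602971 z (n 7602971 z (n 7602971 z (n 7602971 z (n
 7602971 z (n 7602971 z z)))))) (n 1 (n 1228 z (n 1228 z (n 1228 z (n 7738427 z (n 1228 z (n
 1228 z z)))))) (n 1 (n 7746131 z (n 7746131 z (n 7746131 z (n 7746131 z (n 7746131 z (n 7746131
 z z)))))) z))) z))))))) (n 0 (n 0 (n 0 z (n 0 z (n 0 z (n 0 z z)))) (n 0 (n 0 z (n 0 z (n 0 z
 z))) (n 0 (n 0 z (n 0 z z)) (n 0 (n 0 z z) z)))) (n 0 (n 449 (n 0 (n 0 z (n 0 z (n 0 z (n 0 z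
 z)))) (n 0 (n 0 z (n 0 z (n 0 z (n 0 z z)))) (n 0 (n 0 z (n 0 z (n 0 z (n 0 z z)))) (n 0 (n 0 z
 (n 0 z (n 0 z (n 0 z z)))) (n 0 (n 0 z (n 0 z (n 0 z (n 0 z z)))) (n 0 (n 0 z (n 0 z (n 0 z (n
 0 z z)))) (n 0 (n 0 z (n 0 z (n 0 z (n 0 z z)))) (n 0 (n 0 z (n 0 z (n 0 z (n 0 z z)))) (n 0 (n
 0 z (n 0 z (n 0 z (n 0 z z)))) (n 0 (n 0 z (n 0 z (n 0 z (n 0 z z)))) (n 0 (n 0 z (n 0 (n
 8867907 z z) (n 0 z (n 0 z z)))) (n 0 (n 0 z (n 0 (n 8873291 z z) (n 0 z (n 0 z z)))) (n 0 (n 0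
 z (n 0 (n
 0x238536e08a37e29ac61e8a882171b6e48617608e48278258dc8df7a186471f7686a08617db8e575b0041 z z) (n
 0 z (n 0 z z)))) (n 0 (n 0 z (n 0 z (n 0 z (n 0 z z)))) (n 0 (n 0 z (n 0 (n 8718155 z (n
 8732787 z z)) (n 0 z (n 0 z z)))) (n 0 (n 0 z (n 0 z (n 0 z (n 0 z z)))) z)))))))))))))))) (n
 521 (n 0 (n 0 z (n 0 z (n 0 z (n 0 z z)))) (n 0 (n 0 z (n 0 z (n 0 z (n 0 z z)))) (n 0 (n 0 z
 (n 0 (n
 0xc870c0a077e181f82081f81f7e186086085f8208208618607e07df85f82082082082082182086081f8210801 z (n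
 8732787 z z)) (n 0 z (n 0 z z)))) (n 0 (n 0 z (n 0 z (n 0 z (n 0 z z)))) (n 0 (n 0 z (n 0 z (n
 0 z (n 0 z z)))) (n 0 (n 0 z (n 0 z (n 0 z (n 0 z z)))) (n 0 (n 0 z (n 0 z (n 0 (n 8855571 z z)
 (n 0 (n 0x2b83179f8e17a08e575c8a485f7df79f7df8628268238a07a281e8a079f79f7e18618228227e08220041
 z z) z)))) (n 0 (n 0 z (n 0 z (n 0 (n
 0x2b87179f8e17a08e575c8a485f7df79f7df8628268238a07a281e8a079f79f7e18618228227e08220041 z z) (n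
 0 z z)))) (n 0 (n 0 z (n 0 z (n 0 z (n 0 z z)))) (n 0 (n 0 z (n 0 (n
 0x1b8717a08a17e08a379d86385f7df7df7df86282482286182181f8607df7a08608618227e27df8220041 z z) (n
 0 z (n 0 z z)))) (n 0 (n 0 z (n 0 z (n 0 z (n 0 z z)))) (n 0 (n 0 z (n 0 (n 8855571 z z) (n 0 z
 (n 0 z z)))) (n 0 (n 0 z (n 0 z (n 0 z (n 0 z z)))) (n 0 (n 0 z (n 0 (n 8873291 z z) (n 0 z (n
 0 z z)))) (n 0 (n 0 (n
 0x2b87679f8e17a08e575c8a485f7df79f7df8628268238a07a281e8a079f79f7e18618228227e08220041 z (n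
 8718155 z z)) (n 0 (n
 0x2ec70c0a0781f8608608208208618218208208208208208208607e18208608208208208208208208208200801 z
 (n 0x338717608e179f8a579d8658206e18de8e19228237e38a17a08df8607df7df82175f76281e7dd8220041 z z))
 (n 0 (n 8718155 z (n
 0x631860501830ed0ca60781f81f8208208208218208208208208208208208208218208208208208208208208208208201001
 z z)) (n 0 z z)))) z))))))))))))))) (n 375 (n 0 (n 0 z (n 0 z (n 0 z (n 0 z z)))) (n 0 (n 0 z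
 (n 0 z (n 0 z (n 0 z z)))) (n 0 (n 0 z (n 0 z (n 0 z (n 0 z z)))) z))) (n 273 (n 0 (n 0 (n
 8733539 z z) (n 0 z (n 0 z (n 0 z z)))) (n 0 (n 0 z (n 0 z (n 0 z (n 0 z z)))) (n 0 (n 0 z (n 0
 (n 8787755 z z) (n 0 z (n 0 z z)))) (n 0 (n 0 z (n 0 z (n 0 z (n 0 z z)))) (n 0 (n 0 z (n 0 z
 (n 0 z (n 0 z z)))) (n 0 (n 0 z (n 0 (n 8855571 z z) (n 0 z (n 0 z z)))) (n 0 (n 0 z (n 0 z (n
 0 z (n 0 z z)))) (n 0 (n 0 z (n 0 z (n 0 z (n 0 z z)))) z)))))))) (n 249 (n 0 (n 0 z (n 0 z (n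
 0 z (n 0 z z)))) (n 0 (n 0 z (n 0 z (n 0 z (n 0 z z)))) (n 0 (n 0 z (n 0 z (n 0 z (n 0 z z))))
 (n 0 (n 0 z (n 0 z (n 0 z (n 0 z z)))) z)))) (n 135 (n 0 (n 0 z (n 0 z (n 0 z (n 0 z z)))) (n 0
 (n 0 z (n 0 z (n 0 z (n 0 z z)))) (n 0 (n 0 z (n 0 z (n 0 z (n 0 z z)))) (n 0 (n 0 z (n 0 z (n
 0 z (n 0 z z)))) (n 0 (n 0 z (n 0 z (n 0 z (n 0 z z)))) (n 0 (n 0 z (n 0 z (n 0 z (n 0 z z))))
 (n 0 (n 0 z (n 0 z (n 0 z (n 0 z z)))) z))))))) (n 153 (n 0 (n 0 z (n 0 z (n 0 z (n 0 z z))))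
 (n 0 (n 0 z (n 0 z (n 0 z (n 0 z z)))) (n 0 (n 0 z (n 0 z (n 0 z (n 0 z z)))) (n 0 (n 0 z (n 0
 z (n 0 z (n 0 z z)))) (n 0 (n 0 z (n 0 z (n 0 z (n 0 z z)))) (n 0 (n 0 z (n 0 z (n 0 z (n 0 z
 z)))) (n 0 (n 0 z (n 0 z (n 0 z (n 0 z z)))) (n 0 (n 0 z (n 0 (n 8855571 z z) (n 0 z (n 0 z
 z)))) (n 0 (n 0 z (n 0 (n 8855571 z z) (n 0 z (n 0 z z)))) z))))))))) (n 33 (n 0 (n 0 z (n 0 z
 (n 0 z (n 0 z z)))) (n 0 (n 0 z (n 0 z (n 0 z (n 0 z z)))) (n 0 (n 0 z (n 0 (n 8593667 z z) (n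
 0 z (n 0 z z)))) (n 0 (n 0 z (n 0 (n
 0x2b87679f8e17a08e575c8a485f7df79f7df8628268238a07a281e8a079f79f7e18618228227e08220041 z z) (n
 0 z (n 0 z z)))) (n 0 (n 0 z (n 0 z (n 0 z (n 0 z z)))) (n 0 (n 0 z (n 0 z (n 0 z (n 0 z z))))
 (n 0 (n 0 z (n 0 z (n 0 z (n 0 z z)))) z))))))) (n 9 (n 0 (n 0 z (n 0 z (n 0 z (n 0 z z)))) (n
 0 (n 0 z (n 0 z (n 0 z (n 0 z z)))) (n 0 (n 0 z (n 0 z (n 0 z (n 0 z z)))) (n 0 (n 0 z (n 0 z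
 (n 0 z (n 0 z z)))) (n 0 (n 0 z (n 0 z (n 0 z (n 0 (n 8651547 z z) z)))) (n 0 (n 0 z (n 0 z (n
 0 z (n 0 z z)))) (n 0 (n 0 z (n 0 z (n 0 z (n 0 z z)))) z))))))) (n 267 (n 0 (n 0 z (n 0 z (n 0
 z (n 0 z z)))) (n 0 (n 0 z (n 0 z (n 0 z (n 0 z z)))) (n 0 (n 0 z (n 0 z (n 0 z (n 0 z z)))) (n
 0 (n 0 z (n 0 z (n 0 z (n 0 z z)))) (n 0 (n 0 z (n 0 z (n 0 z (n 0 z z)))) z))))) (n 153 (n 0
 (n 0 z (n 0 (n 8855571 z z) (n 0 z (n 0 z z)))) (n 0 (n 0 z (n 0 z (n 0 z (n 0 z z)))) (n 0 (n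
 0 z (n 0 z (n 0 z (n 0 z z)))) (n 0 (n 0 z (n 0 z (n 0 z (n 0 z z)))) (n 0 (n 0 z (n 0 z (n 0 z
 (n 0 z z)))) (n 0 (n 0 z (n 0 z (n 0 z (n 0 z z)))) (n 0 (n 0 z (n 0 z (n 0 z (n 0 z z)))) (n 0
 (n 0 z (n 0 (n 8651547 z z) (n 0 z (n 0 z z)))) (n 0 (n 0 z (n 0 z (n 0 z (n 0 z z)))) (n 0 (n
 0 z (n 0 z (n 0 z (n 0 z z)))) (n 0 (n 0 z (n 0 z (n 0 z (n 0 z z)))) z))))))))))) (n 57 (n 0
 (n 0 (n 0x2b87679f8e17a08e575c8a485f7df79f7df8628268238a07a281e8a079f79f7e18618228227e08220041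
 z z) (n 0 z (n 0 z (n 0 z z)))) (n 0 (n 0 z (n 0 z (n 0 z (n 0 z z)))) (n 0 (n 0 z (n 0 z (n 0
 z (n 0 z z)))) (n 0 (n 0 z (n 0 z (n 0 z (n 0 z z)))) (n 0 (n 0 z (n 0 z (n 0 z (n 0 z z)))) (n
 0 (n 0 (n 8593667 z z) (n 0 z (n 0 (n 8593667 z z) (n 0 z z)))) (n 0 (n 0 z (n 0 z (n 0 (n
 8733539 z z) (n 0 z z)))) (n 0 (n 0 z (n 0 z (n 0 z (n 0 z z)))) z)))))))) (n 9 (n 0 (n 0 z (n
 0 z (n 0 z (n 0 z z)))) (n 0 (n 0 z (n 0 z (n 0 z (n 0 z z)))) (n 0 (n 0 z (n 0 z (n 0 z (n 0 z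
 z)))) (n 0 (n 0 z (n 0 z (n 0 z (n 0 z z)))) (n 0 (n 0 z (n 0 z (n 0 z (n 0 z z)))) (n 0 (n 0 z
 (n 0 z (n 0 z (n 0 z z)))) (n 0 (n 0 z (n 0 z (n 0 z (n 0 z z)))) (n 0 (n 0 z (n 0 z (n 0 z (n
 0 z z)))) (n 0 (n 0 z (n 0 (n 8593667 z z) (n 0 z (n 0 z z)))) (n 0 (n 0 z (n 0 z (n 0 z (n 0 z
 z)))) (n 0 (n 0 z (n 0 (n 8867907 z z) (n 0 z (n 0 z z)))) (n 0 (n 0 z (n 0 z (n 0 z (n 0 z
 z)))) (n 0 (n 0 z (n 0 z (n 0 z (n 0 z z)))) (n 0 (n 0 z (n 0 z (n 0 z (n 0 z z))))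
 z)))))))))))))) (n 123 (n 0 (n 0 z (n 0 z (n 0 z (n 0 z z)))) (n 0 (n 0 z (n 0 z (n 0 z (n 0 z
 z)))) (n 0 (n 0 z (n 0 (n
 0x1c87181f8217e081e89f7e081e8e37dd7e082292181e85f8228a092079c79f85e7a27e189e7dd8210041 z (n
 0x2b8207608e17df8a479e86482072189e8a18a28237e38a17a08df86079f7df82179f7a17df81d8210041 z z)) (n
 0 z (n 0 z z)))) (n 0 (n 0 z (n 0 z (n 0 z (n 0 z z)))) (n 0 (n 0 z (n 0 z (n 0 z (n 0 z z))))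
 (n 0 (n 0 z (n 0 z (n 0 z (n 0 z z)))) (n 0 (n 0 z (n 0 z (n 0 z (n 0 z z)))) (n 0 (n 0 z (n 0
 z (n 0 z (n 0 z z)))) (n 0 (n 0 z (n 0 z (n 0 z (n 0 z z)))) (n 0 (n 0 z (n 0 z (n 0 z (n 0 z
 z)))) (n 0 (n 0 z (n 0 z (n 0 z (n 0 z z)))) (n 0 (n 0 z (n 0 (n 8593667 z z) (n 0 z (n 0 z
 z)))) (n 0 (n 0 z (n 0 (n 8593667 z z) (n 0 z (n 0 z z)))) (n 0 (n 0 z (n 0 (n 8732787 z (n
 8656651 z z)) (n 0 z (n 0 z z)))) (n 0 (n 0 z (n 0 z (n 0 (n 8593667 z z) (n 0 z z)))) (n 0 (n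
 0 z (n 0 z (n 0 z (n 0 z z)))) (n 0 (n 0 z (n 0 (n 8867907 z (n 8867907 z z)) (n 0 z (n 0 z
 z)))) (n 0 (n 0 z (n 0 (n 8593667 z z) (n 0 z (n 0 z z)))) (n 0 (n 0 (n 8593667 z (n 8593667 z
 z)) (n 0 (n 8593667 z (n 8593667 z z)) (n 0 (n 8593667 z (n 8593667 z z)) (n 0 z z)))) (n 0 (n
 0 z (n 0 z (n 0 z (n 0 z z)))) (n 0 (n 0 (n 8733539 z (n 8733539 z z)) (n 0 (n 8733539 z (n
 8733539 z z)) (n 0 (n 8733539 z (n 8733539 z z)) (n 0 (n 8733539 z (n 8733539 z z)) z)))) (n 0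
 (n 0 z (n 0 (n 8733539 z (n 8733539 z z)) (n 0 z (n 0 z z)))) (n 0 (n 0 z (n 0 (n 8867907 z z)
 (n 0 z (n 0 z z)))) (n 0 (n 0 z (n 0 z (n 0 z (n 0 z z)))) (n 0 (n 0 z (n 0 z (n 0 z (n 0 z
 z)))) z))))))))))))))))))))))))) (n 1 (n 0 (n 0 z (n 0 z (n 0 (n 8869419 z z) (n 0 (n 8851491 z
 z) z)))) (n 0 (n 0 z (n 0 z (n 0 z (n 0 z z)))) (n 0 (n 0 z (n 0 (n 8656651 z z) (n 0 z (n 0 z
 z)))) (n 0 (n 0 z (n 0 z (n 0 z (n 0 z z)))) (n 0 (n 0 z (n 0 z (n 0 z (n 0 z z)))) (n 0 (n 0 z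
 (n 0 z (n 0 z (n 0 z z)))) (n 0 (n 0 z (n 0 z (n 0 z (n 0 z z)))) (n 0 (n 0 z (n 0 z (n 0 z (n
 0 z z)))) (n 0 (n 0 z (n 0 z (n 0 z (n 0 z z)))) (n 0 (n 0 z (n 0 z (n 0 z (n 0 z z)))) (n 0 (n
 0 z (n 0 (n 8733539 z z) (n 0 z (n 0 z z)))) (n 0 (n 0 z (n 0 (n 8733539 z z) (n 0 z (n 0 z
 z)))) z)))))))))))) (n 153 (n 0 (n 0 z (n 0 (n 8787755 z z) (n 0 z (n 0 z z)))) (n 0 (n 0 z (n
 0 (n 0x2b87179f8e17a08e575c8a485f7df79f7df8628268238a07a281e8a079f79f7e18618228227e08220041 z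
 z) (n 0 z (n 0 z z)))) (n 0 (n 0 z (n 0 z (n 0 z (n 0 z z)))) (n 0 (n 0 z (n 0 z (n 0 z (n 0 z
 z)))) (n 0 (n 0 z (n 0 z (n 0 z (n 0 z z)))) (n 0 (n 0 z (n 0 z (n 0 (n 8855571 z z) (n 0 (n
 8851491 z z) z)))) (n 0 (n 0 z (n 0 z (n 0 z (n 0 z z)))) (n 0 (n 0 z (n 0 z (n 0 z (n 0 z
 z)))) (n 0 (n 0 z (n 0 z (n 0 (n 8794707 z z) (n 0 (n 8794707 z z) z)))) (n 0 (n 0 z (n 0 z (n
 0 z (n 0 z z)))) (n 0 (n 0 z (n 0 z (n 0 z (n 0 z z)))) z))))))))))) (n 57 (n 0 (n 0 z (n 0 z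
 (n 0 z (n 0 z z)))) (n 0 (n 0 z (n 0 z (n 0 z (n 0 z z)))) (n 0 (n 0 z (n 0 z (n 0 z (n 0 z
 z)))) (n 0 (n 0 z (n 0 z (n 0 z (n 0 z z)))) z)))) (n 9 (n 0 (n 0 z (n 0 z (n 0 z (n 0 z z))))
 (n 0 (n 0 z (n 0 z (n 0 z (n 0 z z)))) (n 0 (n 0 z (n 0 z (n 0 z (n 0 z z)))) (n 0 (n 0 z (n 0
 z (n 0 z (n 0 z z)))) z)))) (n 123 (n 0 (n 0 z (n 0 z (n 0 z (n 0 z z)))) (n 0 (n 0 z (n 0 z (n
 0 z (n 0 z z)))) (n 0 (n 0 z (n 0 z (n 0 z (n 0 z z)))) (n 0 (n 0 z (n 0 z (n 0 z (n 0 z z))))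
 (n 0 (n 0 z (n 0 (n 8794707 z z) (n 0 z (n 0 z z)))) (n 0 (n 0 z (n 0 z (n 0 z (n 0 z z))))
 z)))))) (n 1 (n 0 (n 0 z (n 0 z (n 0 z (n 0 z z)))) (n 0 (n 0 z (n 0 z (n 0 z (n 0 z z)))) (n 0
 (n 0 z (n 0 z (n 0 z (n 0 z z)))) z))) (n 0 (n 0 (n 0 z (n 0 z (n 0 z (n 0 z z)))) (n 0 (n 0 z
 (n 0 z (n 0 z (n 0 z z)))) (n 0 (n 0 z (n 0 z (n 0 z (n 0 z z)))) (n 0 (n 0 z (n 0 (n 8787003 z
 z) (n 0 z (n 0 z z)))) (n 0 (n 0 (n 8718155 z (n 8787755 z z)) (n 0 (n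
 0x338307608e179f8a579d8658206e18de8e19228237e38a17a08df8607df7df82175f76281e7dd8220041 z (n
 8656651 z z)) (n 0 (n 8718155 z (n 7473243 z z)) (n 0 (n
 0x2b8726a08e47e2a2e59e8e98226d96a58617609248298268db91e7618666e076a66086275c92571a0041 z (n
 0x338307608e179f8a579d8658206e18de8e19228237e38a17a08df8607df7df82175f76281e7dd8220041 z z))
 z)))) (n 0 (n 0 z (n 0 (n 8718155 z (n 8732787 z z)) (n 0 z (n 0 z z)))) (n 0 (n 0 z (n 0 (n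
 8717099 z (n 8717099 z z)) (n 0 z (n 0 z z)))) (n 0 (n 0 z (n 0 (n 8718155 z (n 8732787 z z))
 (n 0 z (n 0 z z)))) (n 0 (n 0 z (n 0 (n 8787755 z z) (n 0 z (n 0 z z)))) (n 0 (n 0 z (n 0 z (n
 0 z (n 0 z z)))) (n 0 (n 0 z (n 0 z (n 0 z (n 0 z z)))) (n 0 (n 0 z (n 0 z (n 0 z (n 0 z z))))
 (n 0 (n 0 z (n 0 (n 8867907 z z) (n 0 z (n 0 z z)))) (n 0 (n 0 z (n 0 z (n 0 (n 8787003 z (n
 8787755 z z)) (n 0 (n 8787003 z (n 8787003 z z)) z)))) (n 0 (n 0 z (n 0 (n 8867907 z (n 8867907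
 z z)) (n 0 z (n 0 z z)))) (n 0 (n 0 z (n 0 z (n 0 z (n 0 z z)))) (n 0 (n 0 z (n 0 (n 8867907 z
 (n 8867907 z z)) (n 0 z (n 0 z z)))) (n 0 (n 0 z (n 0 (n 8867907 z z) (n 0 z (n 0 z z)))) (n 0
 (n 0 (n 8867907 z (n 8867907 z z)) (n 0 (n 8867907 z (n 8867907 z z)) (n 0 (n 4393051 z (n
 8718155 z z)) (n 0 (n 4393051 z (n 4393051 z z)) z)))) (n 0 (n 0 z (n 0 z (n 0 (n 4393051 z (n
 4393051 z z)) (n 0 (n 4393051 z (n 4393051 z z)) z)))) (n 0 (n 0 z (n 0 z (n 0 (n 8787755 z z)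
 (n 0 z z)))) (n 0 (n 0 z (n 0 (n 8867907 z z) (n 0 z (n 0 z z)))) (n 0 (n 0 z (n 0 z (n 0 z (n
 0 z z)))) (n 0 (n 0 z (n 0 z (n 0 z (n 0 z z)))) (n 0 (n 0 z (n 0 z (n 0 z (n 0 z z)))) (n 0 (n
 0 z (n 0 (n
 0x338206608e57e3ab14dd92b8216976668a26e196582b82791a91e7228a765f6ed5e08a275a9677190041 z z) (n
 0 z (n 0 z z)))) (n 0 (n 0 z (n 0 z (n 0 z (n 0 z z)))) (n 0 (n 0 z (n 0 z (n 0 z (n 0 z z))))
 (n 0 (n 0 z (n 0 z (n 0 z (n 0 z z)))) (n 0 (n 0 z (n 0 z (n 0 z (n 0 z z)))) (n 0 (n 0 z (n 0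
 (n 8717099 z z) (n 0 z (n 0 z z)))) (n 0 (n 0 z (n 0 (n
 0x1387181f8628608647a086382079f7df82082082386486182186185f81f8207a07df7e285f8a08600041 z (n
 8732787 z z)) (n 0 z (n 0 z z)))) (n 0 (n 0 (n
 0x2b87179f8e17a08e575c8a485f7df79f7df8628268238a07a281e8a079f79f7e18618228227e08220041 z (n
 8787755 z z)) (n 0 (n
 0x338206608e57e3ab14dd92b8216976668a26e196582b82791a91e7228a765f6ed5e08a275a9677190041 z (n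
 8718155 z z)) (n 0 (n
 0x2b87179f8e17a08e575c8a485f7df79f7df8628268238a07a281e8a079f79f7e18618228227e08220041 z (n
 0x2b8206a18e47e2a2e59e8e98216d96e58a17208e48298658db8de7628a56e072a66086179b92575a0041 z z)) (n
 0 (n 0x338206608e57e3ab14dd92b8216976668a26e196582b82791a91e7228a765f6ed5e08a275a9677190041 z
 (n 7538763 z z)) z)))) (n 0 (n 0 z (n 0 z (n 0 z (n 0 z z)))) (n 0 (n 0 z (n 0 z (n 0 z (n 0 z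
 z)))) (n 0 (n 0 z (n 0 z (n 0 z (n 0 z z)))) (n 0 (n 0 z (n 0 (n
 0x2b87179f8e17a08e575c8a485f7df79f7df8628268238a07a281e8a079f79f7e18618228227e08220041 z (n
 8787755 z z)) (n 0 z (n 0 z z)))) (n 0 (n 0 z (n 0 (n 8718155 z z) (n 0 z (n 0 z z)))) (n 0 (n
 0 z (n 0 (n 8787003 z (n 8787003 z z)) (n 0 z (n 0 z z)))) (n 0 (n 0 z (n 0 z (n 0 (n 7542891 z
 (n 0x338716608e57e3ab14dd92b8216976668a26e196582b82791a91e7228a765f6ed5e08a275a9677190041 z z))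
 (n 0 (n 0x2b87079f8e17a08e575c8a485f7df79f7df8628268238a07a281e8a079f79f7e18618228227e08220041
 z (n 0x338107608e179f8a579d8658206e18de8e19228237e38a17a08df8607df7df82175f76281e7dd8220041 z
 z)) z)))) (n 0 (n 0 z (n 0 z (n 0 z (n 0 z z)))) (n 0 (n 0 (n
 0x2b87179f8e17a08e575c8a485f7df79f7df8628268238a07a281e8a079f79f7e18618228227e08220041 z (n
 8718155 z z)) (n 0 (n
 0x338107608e179f8a579d8658206e18de8e19228237e38a17a08df8607df7df82175f76281e7dd8220041 z (n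
 8787755 z z)) (n 0 (n
 0x2b87179f8e17a08e575c8a485f7df79f7df8628268238a07a281e8a079f79f7e18618228227e08220041 z (n
 0x338107608e179f8a579d8658206e18de8e19228237e38a17a08df8607df7df82175f76281e7dd8220041 z z)) (n
 0 (n 0x338107608e179f8a579d8658206e18de8e19228237e38a17a08df8607df7df82175f76281e7dd8220041 z
 (n 7538763 z z)) z)))) (n 0 (n 0 (n
 0x2b8206a08e47e2a2e59e8e98216d96a58617218e48298258db8df7628a66a072a6608a279b92571a0041 z z) (n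
 0 z (n 0 z (n 0 (n 8791835 z z) z)))) (n 0 (n 0 z (n 0 z (n 0 z (n 0 z z)))) (n 0 (n 0 z (n 0 z
 (n 0 z (n 0 z z)))) (n 0 (n 0 z (n 0 z (n 0 (n
 0x2b87179f8e17a08e575c8a485f7df79f7df8628268238a07a281e8a079f79f7e18618228227e08220041 z (n
 8718155 z z)) (n 0 (n
 0x1c8727a181f8227a08207e28628de8618207df7e081f85f71f7e18a07e181f82182189f81e7a07e00041 z (n
 0x2b87279f8e17a08e575c8a485f7df79f7df8628268238a07a281e8a079f79f7e18618228227e08220041 z z))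
 z)))) (n 0 (n 0 z (n 0 (n 8787755 z z) (n 0 z (n 0 z z)))) (n 0 (n 0 z (n 0 z (n 0 z (n 0 z
 z)))) (n 0 (n 0 z (n 0 z (n 0 z (n 0 z z)))) (n 0 (n 0 z (n 0 z (n 0 z (n 0 z z)))) (n 0 (n 0 z
 (n 0 z (n 0 z (n 0 z z)))) (n 0 (n 0 z (n 0 z (n 0 z (n 0 z z)))) (n 0 (n 0 z (n 0 z (n 0 z (n
 0 z z)))) (n 0 (n 0 z (n 0 (n 8656651 z z) (n 0 z (n 0 z z)))) (n 0 (n 0 z (n 0 z (n 0 z (n 0 z
 z)))) (n 0 (n 0 z (n 0 (n 8656651 z z) (n 0 z (n 0 z z))))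
 z)))))))))))))))))))))))))))))))))))))))))))))))))))))))) z))))))))))))))))))))) z)))) z) z))))
 (n 0x65136028991844b7828dc64129e62351940979a0cc26b023288099d00 (n 0x23289 (n 183 (n 0 z (n 0 z
 (n 0 z (n 0 z (n 6619675 z (n 2 z (n 0 z (n 0 z (n
 0x2ca8a824078080818081808080808082807f8080807f8080808080808080808080818080807f80808080808080808080808080808080800809
 z (n
 0x2ca8a824038082817f8280807f8080807f7e808180807f807f8180808080808281828180807f7f807f80807f80807f80807f7f808180800809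
 z (n 10 z (n 18 z (n
 0x6ca4ca4207848082828280807e80807f7e7e827e827d817d807e80807d8080807f81807f837a807f81808081837f8082808380807f80800809
 z (n 3282443 z (n 0 z z))))))))))))))) (n 33 (n 0 z (n
 0xd95150c80e02ca8a80403818082808080808080807f7f7f8181807f807f808080807f81818180808080807f808080807f8081808181808080808080801009
 z (n 26 z (n 0 z (n 34 z (n 0 z (n 0 z (n 6562131 z z)))))))) (n 129 (n 0 z (n 0 z (n 42 z (n 0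
 z (n 50 z (n 6562131 z z)))))) (n 3 (n 6632475 z (n 58 z (n 0 z (n 0 z (n 0 z (n 66 z (n 0 z
 z))))))) (n 1 (n 74 z (n 0 z (n 6562131 z (n 6562131 z z)))) (n 0 (n
 0xbc6108476787e987c8d579b65618f9260727842a781649c74d08883758c7a5d7f74329718a973999b607978768076b472a37993970049
 z (n 6632475 z (n 82 z (n
 0xbc6308476787e987c8d579b65618f9260727842a781649c74d08883758c7a5d7f74329718a973999b607978768076b472a37993970049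
 z (n
 0xcca8862403867a80828283817c817e86867a81808179807e7c817f81827f7b848080807f8b80827e827d817e83837f7d807c817f7f7e810809
 z (n
 0x6ca8862407817f7f8182827f7f7f7f80807e827e80827e7f7e8081817f81807e8282828081827f807d7e80858080817e82837e817e7e800809
 z (n 6619675 z (n 6619675 z z)))))))) z)))))) (n 1 (n 0 (n 0 z (n 0 z (n 755 (n 0 z (n 0 z (n 2
 (n 0 z (n 1 z (n 2 (n 0 z (n 0 z (n 0 z (n 0 z (n 0 z (n 0 z z)))))) (n 1 z (n 2 (n 0 z (n 0 z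
 (n 0 z (n 0 z (n 0 z (n 0 z z)))))) (n 2 (n 0 z (n 0 z (n 0 z (n 0 z (n 0 z (n 0 z z)))))) (n 2
 (n 0 z (n 0 z (n 0 z (n 0 z (n 0 z (n 0 z z)))))) z))))))) (n 0 z (n 0 z (n 0 z (n 0 z (n 0 z
 (n 0 z z))))))))) (n 755 (n 0 z (n 0 z (n 0 z (n 2 (n 1 z (n 2 (n 0 z (n 0 z (n 0 z (n 0 z (n 0
 z (n 0 z z)))))) (n 2 (n 0 z (n 0 z (n 0 z (n 0 z (n 0 z (n 0 z z)))))) (n 2 (n 0 z (n 0 z (n 0
 z (n 0 z (n 0 z (n 0 z z)))))) (n 2 (n 0 z (n 0 z (n 0 z (n 0 z (n 0 z (n 0 z z)))))) (n 2 (n 0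
 z (n 0 z (n 0 z (n 0 z (n 0 (n 8855811 z z) (n 0 z z)))))) z)))))) (n 0 z (n 0 z (n 0 z (n 0 z
 (n 0 z z))))))))) (n 747 (n 0 z (n 2 (n 0 z (n 1 z (n 2 (n 0 z (n 0 z (n 0 z (n 0 z (n 0 z (n 0
 z z)))))) (n 2 (n 0 z (n 0 z (n 0 z (n 0 z (n 0 z (n 0 z z)))))) (n 2 (n 0 z (n 0 z (n 0 z (n 0
 z (n 0 z (n 0 z z)))))) z))))) (n 0 z (n 0 z (n 0 z (n 0 z (n 0 z (n 0 z (n 0 z (n 0 z (n 0 z
 z))))))))))) (n 747 (n 0 z (n 0 z (n 0 z (n 2 (n 2 (n 0 z (n 0 z (n 0 z (n 0 z (n 0 z (n 0 z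
 z)))))) (n 2 (n 0 z (n 0 z (n 0 z (n 0 z (n 0 z (n 0 z z)))))) (n 1 z (n 1 z z)))) (n 0 z (n 0
 z (n 0 z (n 0 z (n 0 z (n 0 z (n 0 z z))))))))))) (n 1011 (n 0 z (n 0 z (n 0 z (n 2 (n 0 z (n 2
 (n 0 z (n 0 z (n 0 z (n 0 z (n 0 z (n 0 z z)))))) (n 2 (n 0 z (n 0 z (n 0 z (n 0 z (n 0 z (n 0
 z z)))))) z))) (n 0 z (n 0 z (n 0 z (n 0 z (n 0 z (n 0 z (n 0 z (n 0 z (n 0 z (n 0 z (n 0 z (n
 0 z z)))))))))))))))) (n 1011 (n 0 z (n 0 z (n 0 z (n 0 z (n 0 z (n 0 z (n 0 z (n 2 (n 2 (n 0 z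
 (n 0 z (n 0 z (n 0 z (n 0 z (n 0 z z)))))) (n 2 (n 0 z (n 0 z (n 0 z (n 0 z (n 0 (n 8855811 z
 z) (n 0 z z)))))) z)) (n 0 z (n 0 z (n 0 z (n 0 z (n 0 z (n 0 z (n 0 z (n 0 z z))))))))))))))))
 (n 133 (n 0 z (n 0 z (n 0 z (n 2 (n 1 z z) (n 0 z (n 0 z (n 0 z (n 0 z z)))))))) (n 745 (n 0 z
 (n 0 z (n 2 z (n 0 z (n 0 z (n 0 z (n 0 z (n 0 z (n 0 z (n 0 z (n 0 z z))))))))))) z))))))))))
 (n 0 (n 0 z (n 755 (n 0 z (n 0 z (n 0 z (n 0 z (n 2 (n 0 z (n 1 z (n 2 (n 0 z (n 0 z (n 0 z (n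
 0 z (n 0 (n 8799003 z z) (n 0 z z)))))) (n 1 z (n 2 (n 0 z (n 0 z (n 0 z (n 0 z (n 0 (n 4331627
 z z) (n 0 z z)))))) (n 2 (n 0 z (n 0 z (n 0 z (n 0 z (n 0 z (n 0 z z)))))) (n 1 z z))))))) (n 0
 z (n 0 z (n 0 z (n 0 z (n 0 z (n 0 z (n 0 z z)))))))))))) (n 755 (n 0 z (n 0 z (n 0 z (n 0 z (n
 0 z (n 0 z (n 0 z (n 0 z (n 0 z (n 0 z (n 0 z (n 0 z z)))))))))))) (n 103 (n 0 z (n 0 z (n 0 z
 (n 0 z (n 2 (n 0 z (n 1 z (n 2 (n 0 z (n 0 z (n 0 z (n 0 z (n 0 z (n 0 z z)))))) (n 2 (n 0 z (n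
 0 z (n 0 z (n 0 z (n 0 z (n 0 z z)))))) (n 2 (n 0 z (n 0 z (n 0 z (n 0 z (n 0 (n 8799003 z z)
 (n 0 z z)))))) z))))) (n 0 z (n 0 z (n 0 z (n 0 z (n 0 z (n 0 z (n 0 z (n 0 z (n 0 z
 z)))))))))))))) (n 103 (n 0 z (n 0 z (n 0 z (n 0 z (n 0 z (n 0 z (n 0 z (n 0 z (n 0 z (n 0 z (n
 0 z (n 0 z (n 0 z (n 0 z z)))))))))))))) (n 7 (n 0 z (n 0 z (n 0 z (n 0 z (n 0 z (n 2 (n 0 z (n
 2 (n 0 z (n 0 z (n 0 z (n 0 z (n 0 z (n 0 z z)))))) (n 2 (n 0 z (n 0 z (n 0 z (n 0 z (n 0 z (n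
 0 z z)))))) z))) (n 0 z (n 0 z (n 0 z z))))))))) (n 7 (n 0 z (n 0 z (n 0 z (n 0 z (n 0 z (n 0 z
 (n 0 z (n 0 z (n 0 z z))))))))) (n 15 (n 0 z (n 0 z (n 0 z (n 0 z (n 0 z (n 0 z (n 0 z (n 0 z
 (n 0 z (n 0 z (n 0 z z))))))))))) (n 13 (n 0 z (n 0 z (n 0 z (n 0 z (n 0 z (n 0 z (n 0 z (n 0 z
 (n 0 z (n 0 z (n 0 z z))))))))))) z))))))))) (n 0 (n 131 (n 0 z (n 0 z (n 0 z (n 0 z (n 0 z (n
 0 z (n 0 z z))))))) (n 131 (n 0 z (n 0 z (n 0 z (n 0 z (n 0 z (n 0 z (n 0 z z))))))) (n 123 (n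
 0 z (n 0 z (n 0 z (n
 0xbc7638476787e987c8d579b65618f9260727842a781649c74d08883758c7a5d7f74329718a973999b607978768076b472a37993970049
 z (n 0 z (n 0 z (n 0 z (n 0 z (n 0 z (n 0 z (n 0 z (n 0 z (n 0 z (n 0 z z)))))))))))))) (n 123
 (n 0 z (n 0 z (n 0 z (n 0 z (n 0 z (n 0 z (n 0 z (n 0 z (n 0 z (n 0 z (n 0 z (n 0 z (n 0 z (n 0
 z z)))))))))))))) (n 969 (n 0 z (n 0 z (n 0 z z))) (n 969 (n 0 z (n 0 z (n 0 z z))) (n 729 (n 0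
 z (n 0 z (n 0 z (n 0 z (n 0 z (n 0 z (n 0 z z))))))) (n 121 (n 0 z (n 0 z (n 0 z (n 0 z z))))
 z)))))))) (n 0 (n 0 z (n 867 (n 0 z (n 0 z (n 0 z (n 0 z z)))) (n 867 (n 0 z (n 2 (n 1 z (n 2
 (n 0 z (n 0 z (n 0 z (n 0 z (n 0 (n 8855811 z z) (n 0 z z)))))) (n 2 (n 0 z (n 0 z (n 0 z (n 0
 z (n 0 (n 8855811 z z) (n 0 z z)))))) (n 1 z z)))) (n 0 z (n 0 z z)))) (n 487 (n 0 z (n 0 z (n
 0 z z))) (n 487 (n 0 z (n 2 (n 2 (n 0 z (n 0 z (n 0 z (n 0 z (n 0 z (n 0 z z)))))) (n 1 z z))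
 (n 0 z z))) (n 483 (n 0 z (n 2 (n 1 z z) (n 0 z (n 0 z (n 0 z (n 0 z z)))))) (n 481 (n 0 z (n 0
 z (n 0 z (n 2 z (n 0 z (n 0 z (n 0 z (n 0 z (n 0 z (n 0 z (n 0 z (n 0 z (n 0 z z)))))))))))))
 z))))))) (n 0 (n 343 (n 0 z (n 0 z (n 2 (n 0 z (n 1 z (n 2 (n 0 z (n 0 z (n 0 z (n 0 z (n 0 z
 (n 0 z z)))))) (n 2 (n 0 z (n 0 z (n 0 z (n 0 z (n 0 z (n 0 z z)))))) (n 2 (n 0 z (n 0 z (n 0 z
 (n 0 z (n 0 (n 8790275 z z) (n 0 z z)))))) z))))) (n 0 z (n 0 z (n 0 z (n 0 z z))))))) (n 343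
 (n 0 z (n 0 z (n 0 z (n 0 z (n 0 z (n 0 z (n 0 z z))))))) (n 7 (n 0 z (n 0 z (n 0 z (n 0 z (n 0
 z (n 2 (n 0 z (n 2 (n 0 z (n 0 z (n 0 z (n 0 z (n 0 z (n 0 z z)))))) (n 2 (n 0 z (n 0 z (n 0 z
 (n 0 z (n 0 z (n 0 z z)))))) z))) (n 0 z z))))))) (n 7 (n 0 z (n 0 z (n 0 z (n 0 z (n 0 z (n 0
 z (n 0 z z))))))) (n 3 (n 0 z (n 0 z (n 0 z (n 0 z (n 0 z (n 0 z (n 0 z (n 0 z (n 0 z (n 0 z (n
 0 z (n 0 z (n 0 z (n 0 z (n 0 z (n 0 z z)))))))))))))))) (n 1 (n 0 z (n 0 z (n 0 z (n 0 z (n 0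
 z (n 0 z (n 0 z (n 0 z (n 0 z (n 0 z (n 0 z z))))))))))) z)))))) (n 0 (n 0 z (n 267 (n 0 z (n 0
 z (n 0 z (n 0 z z)))) (n 267 (n 0 z (n 0 z (n 2 (n 2 (n 0 z (n 0 z (n 0 z (n 0 z (n 0 z (n 0 z
 z)))))) (n 2 (n 0 z (n 0 z (n 0 z (n 0 z (n 0 (n 8855811 z z) (n 0 z z)))))) z)) (n 0 z z))))
 (n 255 (n 0 z (n 0 z (n 2 (n 2 (n 0 z (n 0 z (n 0 z (n 0 z (n 0 (n 8855811 z z) (n 0 z z))))))
 z) (n 0 z (n 0 z (n 0 z z)))))) (n 257 (n 0 z (n 0 z (n 0 z (n 0 z (n 2 z (n 0 z (n 0 z (n 0 z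
 (n 0 z (n 0 z (n 0 z (n 0 z (n 0 z (n 0 z (n 0 z (n 0 z (n 0 z (n 0 z (n 0 z (n 0 z (n 0 z (n 0
 z (n 0 z (n 0 z (n 0 z (n 0 z (n 0 z (n 0 z (n 0 z (n 0 z (n 0 z (n 0 z
 z)))))))))))))))))))))))))))))))) z))))) (n 0 (n 295 (n 0 z (n 0 z (n 2 (n 0 z (n 2 (n 0 z (n 0
 z (n 0 z (n 0 z (n 0 z (n 0 z z)))))) (n 2 (n 0 z (n 0 z (n 0 z (n 0 z (n 0 (n 8790275 z z) (n
 0 z z)))))) z))) (n 0 z (n 0 z z))))) (n 295 (n 0 z (n 0 z (n 0 z (n 0 z (n 0 z z))))) (n 531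
 (n 0 z (n 0 z (n 0 z (n 0 z (n 0 z z))))) (n 529 (n 0 z (n 0 z (n 0 z (n 0 z (n 0 z (n 0 z (n 0
 z (n 0 z (n 0 z (n 0 z (n 0 z (n 0 z (n 0 z (n 0 z (n 0 z (n 0 z (n 0 z (n 0 z (n 0 z (n 0 z (n
 0 z (n 0 z (n 0 z (n 0 z (n 0 z (n 0 z (n 0 z (n 0 z (n 0 z (n 0 z (n 0 z (n 0 z (n 0 z (n 0 z
 (n 0 z (n 0 z (n 0 z (n 0 z (n 0 z (n 0 z (n 0 z (n 0 z (n 0 z (n 0 z (n 0 z (n 0 z (n 0 z (n 0
 z (n 0 z (n 0 z (n 0 z (n 0 z (n 0 z (n 0 z (n 0 z (n 0 z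
 z)))))))))))))))))))))))))))))))))))))))))))))))))))))))) z)))) (n 0 (n 0 z (n 51 (n 0 z (n 0 z
 (n 0 z (n 0 z z)))) (n 49 (n 0 z (n 2 z (n 0 z (n 0 z (n 0 z (n 0 z (n 0 z (n 0 z z))))))))
 z))) (n 0 (n 99 (n 0 z (n 0 z (n 0 z z))) (n 97 (n 0 z (n 0 z (n 0 z (n 0 z (n 0 z (n 0 z (n 0
 z (n 0 z (n 0 z (n 0 z (n 0 z (n 0 z z)))))))))))) z)) (n 0 (n 1013 (n 0 z (n 0 z (n 0 z (n 0 z
 (n 0 z (n 0 z (n 0 z (n 0 z (n 0 z (n 0 z (n 0 z (n 0 z (n 0 z (n 0 z (n 0 z (n 0 z (n 0 z (n 0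
 z (n 0 z (n 0 z (n 0 z (n 0 z (n 0 z (n 0 z (n 0 z (n 0 z (n 0 z (n 0 z (n 0 z (n 0 z (n 0 z (n
 0 z (n 0 z (n 0 z (n 0 z (n 0 z (n 0 z (n 0 z (n 0 z (n 0 z (n 0 z (n 0 z (n 0 z (n 0 z (n 0 z
 (n 0 z (n 0 z (n 0 z (n 0 z z))))))))))))))))))))))))))))))))))))))))))))))))) z) (n 0 z
 z))))))))))) (n 0 (n 1 (n 4395107 z (n 1468 z (n 2 z (n 1468 z (n 1468 z (n 1468 z z)))))) (n 0
 z (n 1 (n 6562131 z (n 6562131 z (n 6562131 z (n 6562131 z (n 6562131 z (n 6562131 z z)))))) (n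
 1 (n 6562131 z (n 6562131 z (n 6562131 z (n 6562131 z (n 6562131 z (n 6562131 z z)))))) z))))
 (n 0 (n 0x4f311a4f3419699d00 (n 0 (n 0 (n 7741699 z (n 7741699 z (n 7741699 z (n 7741699 z (n
 7741699 z (n 7741699 z z)))))) z) (n 0 (n 3 (n 1 (n 7681051 z (n 7681051 z (n 7681051 z (n
 7750427 z (n 7681051 z (n 7681051 z z)))))) (n 1 (n 1468 z (n 1468 z (n 1468 z (n 1468 z (n
 7750427 z (n 1468 z z)))))) (n 1 (n 2 z (n 6498123 z (n 1468 z (n 7750427 z (n 1468 z (n 1468 z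
 z)))))) (n 1 (n 7540835 z (n 7540835 z (n 7540835 z (n 7540835 z (n 7540835 z (n 7540835 z
 z)))))) (n 1 (n 7540835 z (n 7540835 z (n 7540835 z (n 7540835 z (n 7540835 z (n 7540835 z
 z)))))) (n 1 (n 1468 z (n 1468 z (n 1468 z (n 7750427 z (n 1468 z (n 1468 z z)))))) (n 1 (n
 7540835 z (n 7540835 z (n 7540835 z (n 7540835 z (n 7540835 z (n 7540835 z z)))))) (n 1 (n
 7540835 z (n 7540835 z (n 7540835 z (n 7540835 z (n 7540835 z (n 7540835 z z)))))) (n 1 (n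
 7540835 z (n 7540835 z (n 7540835 z (n 7540835 z (n 7540835 z (n 7540835 z z)))))) z)))))))))
 (n 171 (n 0 z (n 0 z (n 1 (n 3212 z (n 10 z (n 5447795 z (n 5375803 z (n 3212 z (n 4400987 z
 z)))))) (n 0 z (n 1 (n 7741699 z (n 7741699 z (n 7741699 z (n 7741699 z (n 7741699 z (n 7741699
 z z)))))) (n 0 z (n 1 (n 7741699 z (n 7741699 z (n 7741699 z (n 7741699 z (n 7741699 z (n
 7741699 z z)))))) z))))))) (n 147 (n 1 (n 7540835 z (n 7540835 z (n 7540835 z (n 7540835 z (n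
 7540835 z (n 7540835 z z)))))) (n 0 z (n 1 (n 2380 z (n 2380 z (n 18 z (n 7750427 z (n 2380 z
 (n 2380 z z)))))) (n 1 (n 7741699 z (n 7741699 z (n 7741699 z (n 7741699 z (n 7741699 z (n
 7741699 z z)))))) (n 0 z z))))) (n 49 (n 0 z (n 1 (n 7540835 z (n 7540835 z (n 7540835 z (n
 7540835 z (n 7540835 z (n 7540835 z z)))))) (n 1 (n 7610707 z (n 7610707 z (n 7610707 z (n
 7610707 z (n 7610707 z (n 7610707 z z)))))) z))) (n 73 (n 0 z (n 1 (n 7540835 z (n 7540835 z (n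
 7540835 z (n 7540835 z (n 7540835 z (n 7540835 z z)))))) (n 1 (n 7610707 z (n 7610707 z (n
 7610707 z (n 7610707 z (n 7610707 z (n 7610707 z z)))))) z))) (n 0 (n 1 (n 7540835 z (n 5116 z
 (n 5116 z (n 6424411 z (n 5116 z (n 5116 z z)))))) (n 1 (n 7540835 z (n 7681051 z (n 7681051 z
 (n 7681051 z (n 7681051 z (n 7681051 z z)))))) (n 1 (n 7741699 z (n 7741699 z (n 7741699 z (n
 7741699 z (n 7741699 z (n 7741699 z z)))))) (n 1 (n 7540835 z (n 5116 z (n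
 0x9473083787a7e937c8a60966a678c8f6675794da0816a9777c08683778a7b647f7641922da0759495667a7a787f79a9759c7b8f920049
 z (n 6424411 z (n 5116 z (n 5116 z z)))))) (n 1 (n 7741699 z (n 7741699 z (n 7741699 z (n
 7741699 z (n 7741699 z (n 7741699 z z)))))) (n 1 (n 7741699 z (n 7741699 z (n 7741699 z (n
 7741699 z (n 7741699 z (n 7741699 z z)))))) (n 1 (n 7540835 z (n 7668251 z (n 7668251 z (n
 7668251 z (n 7668251 z (n 6562163 z z)))))) (n 1 (n 7540835 z (n 7668251 z (n 7668251 z (n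
 7668251 z (n 7668251 z (n 7668251 z z)))))) z)))))))) (n 1 (n 1 (n 7741699 z (n 7741699 z (n
 7741699 z (n 7741699 z (n 7741699 z (n 7741699 z z)))))) (n 0 z (n 1 (n 7610707 z (n 7610707 z
 (n 7610707 z (n 7610707 z (n 7610707 z (n 7610707 z z)))))) (n 1 (n 7610707 z (n 7610707 z (n
 7610707 z (n 7610707 z (n 7610707 z (n 7610707 z z)))))) z)))) z))))))) (n 0 (n 0 (n 0 z (n 0 z
 (n 0 z z))) (n 0 (n 0 z (n 0 z z)) (n 0 (n 0 z z) z))) (n 0 (n 401 (n 0 (n 0 z (n 0 (n 8867891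
 z z) (n 0 z z))) (n 0 (n 0 (n 8589411 z (n 8589411 z z)) (n 0 z (n 0 (n 8589411 z (n 8589411 z
 z)) z))) (n 0 (n 0 z (n 0 z (n 0 z z))) (n 0 (n 0 (n 8791883 z z) (n 0 z (n 0 z z))) (n 0 (n 0
 z (n 0 z (n 0 z z))) (n 0 (n 0 z (n 0 z (n 0 z z))) (n 0 (n 0 z (n 0 z (n 0 z z))) (n 0 (n 0 z
 (n 0 z (n 0 z z))) (n 0 (n 0 z (n 0 (n
 0x948758378797f937d8b5f966a688c8f67757a4e9f816a9677bf868378897b64807641922da1769494667a7b788078aa759c7b8f920049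
 z z) (n 0 z z))) (n 0 (n 0 z (n 0 z (n 0 z z))) (n 0 (n 0 z (n 0 z (n 0 z z))) (n 0 (n 0 z (n 0
 z (n 0 z z))) z)))))))))))) (n 297 (n 0 (n 0 z (n 0 z (n 0 z z))) (n 0 (n 0 z (n 0 z (n 0 z
 z))) (n 0 (n 0 z (n 0 z (n 0 z z))) (n 0 (n 0 z (n 0 z (n 0 z z))) (n 0 (n 0 z (n 0 z (n 0 z
 z))) (n 0 (n 0 z (n 0 z (n 0 z z))) (n 0 (n 0 z (n 0 z (n 0 z z))) (n 0 (n 0 z (n 0 z (n 0 z
 z))) (n 0 (n 0 z (n 0 (n 8867891 z z) (n 0 z z))) (n 0 (n 0 z (n 0 z (n 0 z z))) (n 0 (n 0 z (n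
 0 (n 8659283 z z) (n 0 z z))) (n 0 (n 0 z (n 0 z (n 0 z z))) (n 0 (n 0 z (n 0 z (n 0 z z))) (n
 0 (n 0 z (n 0 z (n 0 z z))) z)))))))))))))) (n 291 (n 0 (n 0 z (n 0 (n
 0xbc8758476787e987c8d579b65618f9260727842a781649c74d08883758c7a5d7f74329718a973999b607978768076b472a37993970049
 z z) (n 0 z z))) (n 0 (n 0 z (n 0 z (n 0 z z))) (n 0 (n 0 z (n 0 z (n 0 z z))) (n 0 (n 0 z (n 0
 z (n 0 z z))) (n 0 (n 0 z (n 0 z (n 0 z z))) (n 0 (n 0 z (n 0 (n 8659283 z z) (n 0 z z))) (n 0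
 (n 0 z (n 0 z (n 0 z z))) z))))))) (n 393 (n 0 (n 0 z (n 0 z (n 0 z z))) (n 0 (n 0 z (n 0 z (n
 0 z z))) (n 0 (n 0 z (n 0 z (n 0 z z))) (n 0 (n 0 z (n 0 z (n 0 z z))) (n 0 (n 0 z (n 0 z (n 0
 z z))) (n 0 (n 0 z (n 0 z (n 0 z z))) (n 0 (n 0 z (n 0 z (n 0 z z))) (n 0 (n 0 z (n 0 (n
 8589411 z z) (n 0 z z))) (n 0 (n 0 z (n 0 (n 8589411 z z) (n 0 z z))) z))))))))) (n 57 (n 0 (n
 0 z (n 0 z (n 0 z z))) (n 0 (n 0 z (n 0 z (n 0 z z))) (n 0 (n 0 z (n 0 z (n 0 z z))) (n 0 (n 0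
 z (n 0 z (n 0 z z))) (n 0 (n 0 (n 8791883 z z) (n 0 z (n 0 z z))) (n 0 (n 0 z (n 0 z (n 0 z
 z))) (n 0 (n 0 z (n 0 z (n 0 z z))) z))))))) (n 171 (n 0 (n 0 z (n 0 z (n 0 z z))) (n 0 (n 0 z
 (n 0 z (n 0 z z))) (n 0 (n 0 z (n 0 z (n 0 z z))) (n 0 (n 0 z (n 0 z (n 0 z z))) (n 0 (n 0 z (n
 0 z (n 0 z z))) z))))) (n 519 (n 0 (n 0 z (n 0 z (n 0 z z))) (n 0 (n 0 z (n 0 z (n 0 z z))) (n
 0 (n 0 z (n 0 z (n 0 z z))) (n 0 (n 0 z (n 0 z (n 0 z z))) (n 0 (n 0 z (n 0 z (n 0 z z))) (n 0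
 (n 0 z (n 0 z (n 0 z z))) (n 0 (n 0 z (n 0 z (n 0 z z))) (n 0 (n 0 z (n 0 z (n 0 z z))) (n 0 (n
 0 z (n 0 z (n 0 z z))) (n 0 (n 0 z (n 0 z (n 0 (n 8659283 z z) z))) (n 0 (n 0 z (n 0 z (n 0 z
 z))) z))))))))))) (n 81 (n 0 (n 0 (n
 0x1c873847a7d808280897a8678808182827d8277857b7783818b84847d7e7f7d7f817b826f84788782767c79827a818684897a84860049
 z z) (n 0 z (n 0 z z))) (n 0 (n 0 (n
 0x4487389707a8086809673906c8184858676856c8c736b89829b8b8b797c7f777d827685558a6c958366756e8672828f8995718a900049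
 z z) (n 0 z (n 0 (n 8800043 z z) z))) (n 0 (n 0 z (n 0 z (n 0 z z))) (n 0 (n 0 z (n 0 z (n 0 z
 z))) (n 0 (n 0 z (n 0 z (n 0 z z))) (n 0 (n 0 z (n 0 z (n 0 z z))) (n 0 (n 0 z (n 0 z (n 0 z
 z))) (n 0 (n 0 z (n 0 z (n 0 z z))) (n 0 (n 0 z (n 0 z (n 0 z z))) (n 0 (n 0 z (n 0 (n 8728691
 z (n 8800043 z z)) (n 0 z z))) (n 0 (n 0 z (n 0 z (n 0 z z))) (n 0 (n 0 z (n 0 z (n 0 z z))) (n
 0 (n 0 z (n 0 z (n 0 z z))) (n 0 (n 0 z (n 0 (n 8659283 z z) (n 0 z z))) (n 0 (n 0 (n 8790275 z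
 z) (n 0 z (n 0 (n 8790275 z z) z))) (n 0 (n 0 z (n 0 z (n 0 z z))) z)))))))))))))))) (n 507 (n
 0 (n 0 z (n 0 z (n 0 z z))) (n 0 (n 0 z (n 0 z (n 0 z z))) (n 0 (n 0 (n 8790275 z (n 8790275 z
 z)) (n 0 (n 8790275 z (n 8790275 z z)) (n 0 (n 8790275 z (n 8790275 z z)) z))) (n 0 (n 0 z (n 0
 z (n 0 z z))) (n 0 (n 0 z (n 0 z (n 0 z z))) z))))) (n 73 (n 0 (n 0 z (n 0 z (n 0 z z))) (n 0
 (n 0 z (n 0 z (n 0 z z))) (n 0 (n 0 z (n 0 z (n 0 z z))) z))) (n 639 (n 0 (n 0 z (n 0 z (n 0 z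
 z))) (n 0 (n 0 z (n 0 (n 8729627 z z) (n 0 z z))) (n 0 (n 0 z (n 0 z (n 0 z z))) (n 0 (n 0 z (n
 0 z (n 0 z z))) (n 0 (n 0 z (n 0 z (n 0 z z))) (n 0 (n 0 z (n 0 z (n 0 z z))) (n 0 (n 0 z (n 0
 (n 8848939 z z) (n 0 z z))) (n 0 (n 0 z (n 0 z (n 0 z z))) (n 0 (n 0 z (n 0 z (n 0 z z))) (n 0
 (n 0 z (n 0 z (n 0 z z))) (n 0 (n 0 z (n 0 z (n 0 z z))) z))))))))))) (n 105 (n 0 (n 0 z (n 0 z
 (n 0 (n 8589411 z z) z))) (n 0 (n 0 z (n 0 z (n 0 z z))) (n 0 (n 0 (n 8868899 z z) (n 0 z (n 0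
 z z))) (n 0 (n 0 z (n 0 z (n 0 z z))) (n 0 (n 0 z (n 0 (n
 0x848728369817c9770866fa36c72848d76718055a17465907bad86856d867c70737d64903d96669d936373608b7576a078a972889b0049
 z (n 7747659 z z)) (n 0 z z))) (n 0 (n 0 z (n 0 (n
 0x848728369817c9770866fa36c72848d76718055a17465907bad86856d867c70737d64903d96669d936373608b7576a078a972889b0049
 z (n 7747659 z z)) (n 0 z z))) (n 0 (n 0 z (n 0 z (n 0 z z))) (n 0 (n 0 z (n 0 (n 8867891 z z)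
 (n 0 z z))) (n 0 (n 0 z (n 0 z (n 0 z z))) (n 0 (n 0 (n 8790275 z z) (n 0 z (n 0 (n 8790275 z
 z) z))) (n 0 (n 0 z (n 0 z (n 0 z z))) z))))))))))) (n 627 (n 0 (n 0 z (n 0 z (n 0 z z))) (n 0
 (n 0 z (n 0 z (n 0 z z))) (n 0 (n 0 z (n 0 z (n 0 z z))) (n 0 (n 0 z (n 0 (n
 0xf0a4e62803826b7d88808883858678878183937987887d7a8a8281758b8575798b8483827f788f7886847a7b8876806a8577788c7670830809
 z z) (n 0 z z))) (n 0 (n 0 z (n 0 (n 8867891 z (n 8867891 z z)) (n 0 (n 8867891 z (n 8867891 z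
 z)) z))) (n 0 (n 0 z (n 0 (n
 0x30ed0ec807818080808180807f8080807f8080807f808080808080808080808080808081808080808080808080808080808080808080800809
 z (n 8728691 z z)) (n 0 z z))) (n 0 (n 0 z (n 0 (n 8872715 z (n 8872715 z z)) (n 0 z z))) (n 0
 (n 0 z (n 0 (n
 0x30e90e8607818080808180807f8080807f8080807f808080808080808080808080808081808080808080808080808080808080808080800809
 z (n 8728691 z z)) (n 0 z z))) (n 0 (n 0 z (n 0 (n 8729627 z z) (n 0 z z))) (n 0 (n 0 z (n 0 z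
 (n 0 z z))) (n 0 (n 0 z (n 0 z (n 0 z z))) (n 0 (n 0 z (n 0 z (n 0 z z))) (n 0 (n 0 z (n 0 (n
 0x1e149cc5006010a4e208037e7a80827e858d84797c7d7f83887985827b6f86857e7f838c7b80808282828c7a85787c83787e7e6f817f867d788b827c7e1009
 z z) (n 0 z z))) (n 0 (n 0 (n
 0xbc8638476787e987c8d579b65618f9260727842a781649c74d08883758c7a5d7f74329718a973999b607978768076b472a37993970049
 z (n
 0x24873807f81828080817f817f817f7f8180807e817f807f8080807f7f818080818280807f827e80818180807f80807f807f81807f0049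
 z z)) (n 0 z (n 0 z z))) (n 0 (n 0 z (n 0 (n
 0x30ed0ec807818080808180807f8080807f8080807f808080808080808080808080808081808080808080808080808080808080808080800809
 z (n
 0x30a4ec0803808181808180807f8080817f7f8080807f807f8080808080807f8080818080808080807f8080807f81808080807f808080810809
 z z)) (n 0 z z))) (n 0 (n 0 z (n 0 z (n 0 z z))) (n 0 (n 0 z (n 0 (n 8872715 z (n 8872715 z z))
 (n 0 z z))) (n 0 (n 0 z (n 0 (n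
 0x848618369817c9770866fa36c72848d76718055a17465907bad86856d867c70737d64903d96669d936373608b7576a078a972889b0049
 z z) (n 0 z z))) (n 0 (n 0 z (n 0 (n
 0x848108369817c9770866fa36c72848d76718055a17465907bad86856d867c70737d64903d96669d936373608b7576a078a972889b0049
 z (n
 0x848108369817c9770866fa36c72848d76718055a17465907bad86856d867c70737d64903d96669d936373608b7576a078a972889b0049
 z z)) (n 0 (n
 0x848108369817c9770866fa36c72848d76718055a17465907bad86856d867c70737d64903d96669d936373608b7576a078a972889b0049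
 z (n 8718139 z z)) z))) (n 0 (n 0 (n 8729627 z (n 8729627 z z)) (n 0 z (n 0 z z))) (n 0 (n 0 (n
 8729627 z z) (n 0 z (n 0 z z))) (n 0 (n 0 z (n 0 (n 8872715 z z) (n 0 z z))) (n 0 (n 0 z (n 0 z
 (n 0 z z))) (n 0 (n 0 z (n 0 z (n 0 z z))) (n 0 (n 0 z (n 0 z (n 0 z z))) (n 0 (n 0 z (n 0 (n
 0x24860807f81828080817f817f817f7f8080807e81807f808080808080818080818280807f817e7f80817f7f7f80807f8180817e800049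
 z z) (n 0 z z))) (n 0 (n 0 z (n 0 z (n 0 z z))) (n 0 (n 0 z (n 0 z (n 0 z z))) (n 0 (n 0 z (n 0
 z (n 0 z z))) (n 0 (n 0 z (n 0 z (n 0 z z))) (n 0 (n 0 z (n 0 (n 8872715 z z) (n 0 z z))) (n 0
 (n 0 z (n 0 (n 8718139 z (n 8728691 z z)) (n 0 z z))) (n 0 (n 0 z (n 0 (n 8729627 z (n 8729627
 z z)) (n 0 (n 8729627 z (n 8729627 z z)) z))) (n 0 (n 0 z (n 0 z (n 0 z z))) (n 0 (n 0 z (n 0 z
 (n 0 z z))) (n 0 (n 0 z (n 0 z (n 0 z z))) (n 0 (n 0 z (n 0 (n 8867891 z (n 8867891 z z)) (n 0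
 z z))) (n 0 (n 0 z (n 0 (n 8790275 z z) (n 0 z z))) (n 0 (n 0 z (n 0 (n
 0xbc8738476787e987c8d579b65618f9260727842a781649c74d08883758c7a5d7f74329718a973999b607978768076b472a37993970049
 z (n
 0xe1c60c1006030e3080607827f817b837b7b83838083808085817e847c7d7f8282827d817c80828181838482807c7b847f807e81818180817c81857d811009
 z z)) (n 0 z z))) (n 0 (n 0 (n
 0xc873808080808080807e8080817f7f80807f7e7f808081808080807f8080808182807f80817f7f818080807f80807f80808180800049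
 z (n
 0x9486083787a7e937d8b60966a688c8f6675794e9f816a9677c18682778a7b64807642922ca0769495677a7a787f79a9749c7b8f920049
 z z)) (n 0 z (n 0 z z))) (n 0 (n 0 z (n 0 z (n 0 z z))) (n 0 (n 0 z (n 0 (n 8868419 z (n
 8868419 z z)) (n 0 (n 8868419 z (n 8868419 z z)) z))) (n 0 (n 0 z (n 0 z (n 0 (n 8868419 z z)
 z))) (n 0 (n 0 z (n 0 z (n 0 z z))) (n 0 (n 0 z (n 0 z (n 0 z z))) (n 0 (n 0 (n 4393051 z (n
 8791883 z z)) (n 0 z (n 0 z z))) (n 0 (n 0 z (n 0 (n 8867891 z z) (n 0 z z))) (n 0 (n 0 z (n 0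
 z (n 0 z z))) (n 0 (n 0 z (n 0 z (n 0 z z))) (n 0 (n 0 z (n 0 z (n 0 z z))) (n 0 (n 0 z (n 0 z
 (n 0 z z))) (n 0 (n 0 z (n 0 z (n 0 z z))) (n 0 (n 0 z (n 0 z (n 0 z z))) (n 0 (n 0 z (n 0 (n
 8868419 z z) (n 0 z z))) (n 0 (n 0 z (n 0 z (n 0 z z))) (n 0 (n 0 z (n 0 (n 8868419 z z) (n 0 z
 z))) z)))))))))))))))))))))))))))))))))))))))))))))))))))))))) (n 97 (n 0 (n 0 z (n 0 z (n 0 z
 z))) (n 0 (n 0 z (n 0 z (n 0 z z))) (n 0 (n 0 z (n 0 (n 8729627 z z) (n 0 z z))) (n 0 (n 0 z (n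
 0 z (n 0 z z))) (n 0 (n 0 z (n 0 z (n 0 z z))) (n 0 (n 0 z (n 0 z (n 0 z z))) (n 0 (n 0 z (n 0
 z (n 0 z z))) (n 0 (n 0 z (n 0 z (n 0 z z))) (n 0 (n 0 z (n 0 z (n 0 z z))) (n 0 (n 0 z (n 0 z
 (n 0 z z))) (n 0 (n 0 z (n 0 (n 8868419 z z) (n 0 z z))) (n 0 (n 0 z (n 0 (n 8868419 z z) (n 0
 z z))) z)))))))))))) (n 626 (n 0 (n 0 z (n 0 z (n 0 z z))) (n 0 (n 0 z (n 0 z (n 0 z z))) (n 0
 (n 0 z (n 0 z (n 0 z z))) (n 0 (n 0 z (n 0 (n 8800043 z (n 8728691 z z)) (n 0 z z))) (n 0 (n 0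
 z (n 0 z (n 0 z z))) (n 0 (n 0 z (n 0 z (n 0 z z))) (n 0 (n 0 z (n 0 z (n 0 z z))) (n 0 (n 0 z
 (n 0 z (n 0 z z))) (n 0 (n 0 z (n 0 z (n 0 z z))) (n 0 (n 0 (n
 0x14873808080818180807f8180807f7f81807f7f808080807f8080807f7f80818082808080818080808180807f80807f80808180800049
 z (n
 0xbc8108476787e987c8d579b65618f9260727842a781649c74d08883758c7a5d7f74329718a973999b607978768076b472a37993970049
 z z)) (n 0 z (n 0 z z))) (n 0 (n 0 z (n 0 (n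
 0x30a8ec24038080807f80808080808080808080807f8080808081807f8080808080808080808080808080808080808080808080808080800809
 z (n 8718139 z z)) (n 0 z z))) (n 0 (n 0 z (n 0 z (n 0 z z))) (n 0 (n 0 z (n 0 z (n 0 z z))) (n
 0 (n 0 z (n 0 z (n 0 z z))) (n 0 (n 0 z (n 0 z (n 0 z z))) (n 0 (n 0 z (n 0 z (n 0 z z))) (n 0
 (n 0 z (n 0 z (n 0 z z))) (n 0 (n 0 z (n 0 z (n 0 z z))) (n 0 (n 0 z (n 0 (n 8728691 z (n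
 8799003 z z)) (n 0 z z))) (n 0 (n 0 z (n 0 z (n 0 z z))) (n 0 (n 0 z (n 0 (n 8716827 z (n
 8716827 z z)) (n 0 z z))) (n 0 (n 0 z (n 0 (n
 0x2c861807f81828080817e817f827f7f8080807d807f8080808080807f8180808183808080827e8081817f807f80807f8080807e800049
 z (n 8800043 z z)) (n 0 (n 8718139 z (n 7747659 z z)) z))) (n 0 (n 0 z (n 0 z (n 0 z z))) (n 0
 (n 0 z (n 0 z (n 0 z z))) (n 0 (n 0 z (n 0 (n 8867891 z (n 8867891 z z)) (n 0 z z))) (n 0 (n 0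
 (n
 0x1c860807f81818080807f8080817f7f8080817e808080807f8080807f8180808182808080817e8081817f7f7f807f7f80808080800049
 z z) (n 0 z (n 0 z z))) (n 0 (n 0 z (n 0 z (n 0 z z))) (n 0 (n 0 z (n 0 z (n 0 z z))) (n 0 (n 0
 z (n 0 (n
 0x848728369817c9770866fa36c72848d76718055a17465907bad86856d867c70737d64903d96669d936373608b7576a078a972889b0049
 z (n
 0xbc8208476787e987c8d579b65618f9260727842a781649c74d08883758c7a5d7f74329718a973999b607978768076b472a37993970049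
 z z)) (n 0 z z))) (n 0 (n 0 z (n 0 (n 8800043 z z) (n 0 z z))) (n 0 (n 0 z (n 0 z (n 0 z z)))
 (n 0 (n 0 z (n 0 z (n 0 z z))) (n 0 (n 0 z (n 0 z (n 0 z z))) (n 0 (n 0 z (n 0 z (n 0 z z))) (n
 0 (n 0 z (n 0 z (n 0 (n 6498379 z z) z))) (n 0 (n 0 z (n 0 z (n 0 z z))) (n 0 (n 0 z (n 0 z (n
 0 z z))) (n 0 (n 0 z (n 0 z (n 0 z z))) (n 0 (n 0 z (n 0 (n 8867891 z z) (n 0 z z))) (n 0 (n 0
 z (n 0 z (n 0 z z))) (n 0 (n 0 z (n 0 z (n 0 z z))) (n 0 (n 0 z (n 0 (n 8716827 z z) (n 0 z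
 z))) (n 0 (n 0 z (n 0 (n 8718139 z z) (n 0 z z))) (n 0 (n 0 z (n 0 (n 8872715 z (n 8872715 z
 z)) (n 0 z z))) (n 0 (n 0 z (n 0 (n 8872715 z (n 8872715 z z)) (n 0 z z))) (n 0 (n 0 z (n 0 z
 (n 0 z z))) (n 0 (n 0 z (n 0 z (n 0 z z))) (n 0 (n 0 z (n 0 z (n 0 z z))) (n 0 (n 0 z (n 0 (n
 0xbc8618476787e987c8d579b65618f9260727842a781649c74d08883758c7a5d7f74329718a973999b607978768076b472a37993970049
 z z) (n 0 z z))) z))))))))))))))))))))))))))))))))))))))))))))))))) (n 183 (n 0 (n 0 z (n 0 z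
 (n 0 z z))) (n 0 (n 0 z (n 0 z (n 0 z z))) (n 0 (n 0 z (n 0 (n 8718139 z (n 8728691 z z)) (n 0
 z z))) (n 0 (n 0 z (n 0 z (n 0 z z))) (n 0 (n 0 z (n 0 z (n 0 z z))) (n 0 (n 0 z (n 0 z (n 0 z
 z))) (n 0 (n 0 z (n 0 z (n 0 z z))) (n 0 (n 0 (n 8791883 z z) (n 0 z (n 0 z z))) (n 0 (n 0 z (n
 0 z (n 0 z z))) (n 0 (n 0 z (n 0 (n 8799003 z z) (n 0 z z))) (n 0 (n 0 z (n 0 z (n 0 z z))) (n
 0 (n 0 z (n 0 (n 8800043 z z) (n 0 z z))) (n 0 (n 0 z (n 0 z (n 0 z z))) (n 0 (n 0 z (n 0 (n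
 8867891 z z) (n 0 z z))) (n 0 (n 0 (n 5449739 z (n 5449739 z z)) (n 0 (n 8867891 z (n 8867891 z
 z)) (n 0 (n 8867891 z (n 8867891 z z)) z))) z))))))))))))))) (n 33 (n 0 (n 0 z (n 0 z (n 0 z
 z))) (n 0 (n 0 (n 8791883 z z) (n 0 z (n 0 z z))) (n 0 (n 0 z (n 0 z (n 0 z z))) (n 0 (n 0 z (n
 0 z (n 0 z z))) (n 0 (n 0 z (n 0 z (n 0 z z))) (n 0 (n 0 z (n 0 z (n 0 z z))) (n 0 (n 0 (n
 4401179 z z) (n 0 z (n 0 z z))) (n 0 (n 0 z (n 0 z (n 0 z z))) z)))))))) (n 129 (n 0 (n 0 z (n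
 0 z (n 0 z z))) (n 0 (n 0 z (n 0 z (n 0 z z))) (n 0 (n 0 z (n 0 z (n 0 z z))) (n 0 (n 0 z (n 0
 z (n 0 z z))) (n 0 (n 0 z (n 0 z (n 0 z z))) (n 0 (n 0 z (n 0 z (n 0 z z))) z)))))) (n 3 (n 0
 (n 0 z (n 0 z (n 0 z z))) (n 0 (n 0 z (n 0 z (n 0 z z))) (n 0 (n 0 z (n 0 (n 8790275 z z) (n 0
 z z))) (n 0 (n 0 z (n 0 (n 8800043 z z) (n 0 z z))) (n 0 (n 0 z (n 0 z (n 0 z z))) (n 0 (n 0 z
 (n 0 z (n 0 z z))) (n 0 (n 0 z (n 0 z (n 0 z z))) z))))))) (n 1 (n 0 (n 0 z (n 0 z (n 0 z z)))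
 (n 0 (n 0 z (n 0 z (n 0 z z))) (n 0 (n 0 z (n 0 z (n 0 z z))) (n 0 (n 0 z (n 0 z (n 0 z z)))
 z)))) (n 0 (n 0 (n 0 (n 8868899 z z) (n 0 z (n 0 (n
 0xbc8108476787e987c8d579b65618f9260727842a781649c74d08883758c7a5d7f74329718a973999b607978768076b472a37993970049
 z z) z))) (n 0 (n 0 z (n 0 z (n 0 z z))) (n 0 (n 0 z (n 0 z (n 0 z z))) (n 0 (n 0 z (n 0 z (n 0
 z z))) (n 0 (n 0 z (n 0 z (n 0 z z))) (n 0 (n 0 (n 8790275 z z) (n 0 z (n 0 z z))) (n 0 (n 0 (n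
 8868899 z z) (n 0 z (n 0 z z))) (n 0 (n 0 z (n 0 z (n 0 z z))) z)))))))) z)))))))))))))))))))))
 z)))) z) z)))) (n 0x1b2768d517465a5b864ec4296a6c13ad205a7b60eacd8d56d90a52a423b64c0 (n 0x36c9d
 (n 153 (n
 0x6ca6a642038218e382175f7a07e081f89e85f6a28e07df8208617e281f8df89f7e28208a17e27df8a089e0801 z
 (n 0 z (n 6619931 z (n 3282443 z (n 3282443 z (n 0 z (n 2 z z))))))) (n 33 (n 0 z (n 10 z (n 0
 z (n 0 z (n 0 z (n 0 z (n 0 z (n 6496515 z (n 18 z z))))))))) (n 51 (n 6496515 z (n 0 z (n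
 6496515 z (n 26 z (n 34 z z))))) (n 27 (n 42 z (n 0 z (n 0 z (n 6496515 z (n 50 z z))))) (n 1
 (n 6554411 z (n 58 z (n 66 z z))) (n 0 (n 0 z (n
 0x4ca686240781f8607e082386086182082081f8627e181f81f7e086081f81f8618617e18e185f7618617a00801 z
 (n 4331099 z (n 0 z (n 0 z (n 6619931 z (n 6619931 z (n 0 z (n
 0x6c86c8640376485e960c27b9d9a181a84f9a169496295b797a207df72aae389cba06204616df6e57268220801 z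
 (n 0 z (n
 0x2c84c8420781f85e7de7e08a07a18637628618237e285e86089e79e8a07a47e28227e08607e085e8e08600801 z
 (n 0 z (n 0 z (n
 0x6c64c2080381b85e8218627e07e28208208217a07e07a179d8608607e286179f8e17e081d81e7e08608a00801 z
 (n 0 z (n 6619931 z (n 74 z (n
 0x2c84c8420381f81f7a08217e08e179c85c91f8648206e581f8218207dc89f8217e181f8a08207a38608200801 z
 (n 0 z (n 0 z (n 0 z (n 82 z (n 0 z (n 0 z (n 90 z z))))))))))))))))))))))))) z)))))) (n 1 (n 0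
 (n 1185 (n 0 z (n 0 z (n 0 z (n 2 (n 0 z (n 2 (n 0 z (n 0 z (n 0 z (n 0 z (n 0 z (n 0 z z))))))
 (n 2 (n 0 z (n 0 z (n 0 z (n 0 (n 8794451 z z) (n 0 z (n 0 z z)))))) (n 1 z (n 2 (n 0 z (n 0 z
 (n 0 z (n 0 (n 8794451 z z) (n 0 z (n 0 z z)))))) (n 1 z (n 2 (n 0 z (n 0 z (n 0 z (n 0 (n
 8794451 z z) (n 0 z (n 0 z z)))))) (n 2 (n 0 (n 8791835 z z) (n 0 z (n 0 (n 8791835 z z) (n 0
 (n 2116 z (n 2116 z z)) (n 0 z (n 0 z z)))))) (n 2 (n 0 z (n 0 z (n 0 z (n 0 z (n 0 z (n 0 z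
 z)))))) (n 2 (n 0 z (n 0 z (n 0 z (n 0 (n 8791099 z z) (n 0 z (n 0 z z)))))) z)))))))))) (n 0 z
 (n 0 z (n 0 z (n 0 z (n 0 z (n 0 z (n 0 z (n 0 z (n 0 z (n 0 z (n 0 z (n 0 z z))))))))))))))))
 (n 1185 (n 0 z (n 0 z (n 0 z (n 0 z (n 0 z (n 0 z (n 0 z (n 0 z (n 0 z (n 0 z (n 0 z (n 0 z (n
 0 z (n 0 z (n 0 z (n 0 z z)))))))))))))))) (n 795 (n 0 z (n 0 z (n 0 z (n 0 z (n 0 z (n 0 z (n
 0 z (n 0 z (n 0 z (n 0 z (n 0 z (n 0 z (n 0 z (n 0 z (n 0 z z))))))))))))))) (n 795 (n 0 z (n 0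
 z (n 0 z (n 0 z (n 0 z (n 0 z (n 0 z (n 0 z (n 0 z (n 0 z (n 0 z (n 0 z (n 0 z (n 0 z (n 0 z
 z))))))))))))))) (n 535 (n 0 z (n 2 (n 0 z (n 1 z (n 1 z (n 2 (n 0 z (n 0 z (n 0 z (n 0 (n
 8869403 z (n 8660747 z z)) (n 0 (n 8791835 z z) (n 0 z z)))))) (n 1 z (n 1 z z)))))) (n 0 z (n
 0 z (n 0 z (n 0 z (n 0 z (n 0 z z)))))))) (n 535 (n 0 z (n 0 z (n 0 z (n 0 z (n 0 z (n 0 z (n 0
 z (n 0 z z)))))))) (n 531 (n 0 z (n 0 z (n 2 (n 0 z (n 2 (n 0 z (n 0 (n 8791835 z z) (n 0 z (n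
 0 (n 8869403 z (n 8869403 z z)) (n 0 z (n 0 (n 8733539 z z) z)))))) (n 2 (n 0 z (n 0 z (n 0 z
 (n 0 z (n 0 z (n 0 z z)))))) (n 2 (n 0 z (n 0 z (n 0 z (n 0 z (n 0 z (n 0 z z)))))) z)))) (n 0
 z (n 0 z (n 0 z (n 0 z z))))))) (n 531 (n 0 z (n 0 z (n 0 z (n 0 z (n 0 z (n 0 z (n 0 z
 z))))))) (n 529 (n 0 z (n 0 z (n 0 z (n 0 z (n 0 z (n 0 z (n 0 z (n 0 z z)))))))) (n 529 (n 0 z
 (n 0 z (n 0 z (n 0 z (n 0 z (n 0 z (n 0 z (n 2 (n 0 z z) z)))))))) (n 529 (n 0 z (n 0 z (n 0 z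
 (n 0 z (n 0 z (n 0 z (n 0 z (n 0 z z)))))))) z))))))))))) (n 0 (n 0 z (n 123 (n 0 z (n 0 z (n 0
 z (n 0 z (n 0 z (n 0 z (n 2 (n 0 z (n 1 z (n 2 (n 0 z (n 0 z (n 0 z (n 0 z (n 0 z (n 0 z
 z)))))) (n 2 (n 0 z (n 0 z (n 0 z (n 0 z (n 0 z (n 0 z z)))))) (n 2 (n 0 z (n 0 z (n 0 z (n 0 z
 (n 0 z (n 0 z z)))))) (n 2 (n 0 z (n 0 z (n 0 z (n 0 z (n 0 z (n 0 z z)))))) (n 2 (n 0 z (n 0 z
 (n 0 z (n 0 z (n 0 z (n 0 z z)))))) (n 2 (n 0 z (n 0 z (n 0 z (n 0 z (n 0 z (n 0 z z))))))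
 z)))))))) z))))))) (n 123 (n 0 z (n 0 z (n 0 z (n 0 z (n 0 z (n 2 (n 1 z (n 2 (n 0 z (n 0 z (n
 0 z (n 0 z (n 0 z (n 0 z z)))))) (n 2 (n 0 z (n 0 z (n 0 z (n 0 z (n 0 z (n 0 z z)))))) (n 2 (n
 0 z (n 0 z (n 0 z (n 0 z (n 0 z (n 0 z z)))))) (n 2 (n 0 z (n 0 z (n 0 z (n 0 z (n 0 z (n 0 z
 z)))))) (n 2 (n 0 z (n 0 z (n 0 z (n 0 z (n 0 z (n 0 z z)))))) (n 2 (n 0 z (n 0 z (n 0 z (n 0 z
 (n 0 z (n 0 z z)))))) z))))))) (n 0 z z))))))) (n 535 (n 0 z (n 0 z (n 0 z (n 0 z (n 0 z z)))))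
 (n 535 (n 0 z (n 0 z (n 0 z (n 0 z (n 2 (n 1 z (n 2 (n 0 z (n 0 z (n 0 z (n 0 z (n 0 z (n 0 z
 z)))))) (n 2 (n 0 z (n 0 z (n 0 z (n 0 z (n 0 z (n 0 z z)))))) (n 2 (n 0 z (n 0 z (n 0 z (n 0 z
 (n 0 z (n 0 z z)))))) (n 2 (n 0 z (n 0 z (n 0 z (n 0 z (n 0 z (n 0 z z)))))) z))))) z))))) (n
 483 (n 0 z (n 0 z (n 0 z (n 0 z (n 0 z (n 0 z (n 0 z (n 0 z (n 0 z (n 0 z (n 0 z (n 0 z
 z)))))))))))) (n 483 (n 0 z (n 0 z (n 0 z (n 0 z (n 0 z (n 0 z (n 0 z (n 0 z (n 0 z (n 0 z (n 0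
 z (n 2 (n 2 (n 0 z (n 0 z (n 0 z (n 0 z (n 0 z (n 0 z z)))))) (n 2 (n 0 z (n 0 z (n 0 z (n 0 z
 (n 0 z (n 0 z z)))))) (n 2 (n 0 z (n 0 z (n 0 z (n 0 z (n 0 z (n 0 z z)))))) z))) z))))))))))))
 (n 481 (n 0 z (n 0 z (n 0 z (n 0 z (n 0 z (n 0 z (n 0 z (n 0 z (n 0 z (n 0 z (n 0 z (n 0 z (n 0
 z (n 0 z (n 0 z (n 0 z (n 0 z (n 0 z (n 0 z (n 0 z (n 0 z (n 0 z z)))))))))))))))))))))) (n 481
 (n 0 z (n 0 z (n 0 z (n 0 z (n 0 z (n 0 z (n 0 z (n 0 z (n 0 z (n 0 z (n 0 z (n 0 z (n 0 z (n 0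
 z (n 0 z (n 0 z (n 0 z (n 0 z (n 0 z (n 0 z (n 2 (n 0 z z) (n 0 z z)))))))))))))))))))))) (n
 481 (n 0 z (n 0 z (n 0 z (n 0 z (n 0 z (n 0 z (n 0 z (n 0 z (n 0 z (n 0 z (n 0 z (n 0 z (n 0 z
 (n 0 z (n 0 z (n 0 z (n 0 z (n 0 z (n 0 z (n 0 z (n 0 z (n 2 z z))))))))))))))))))))))
 z)))))))))) (n 0 (n 129 (n 0 z (n 0 z (n 0 z (n 0 z (n 0 z (n 0 z (n 0 z (n 0 z z)))))))) (n
 129 (n 0 z (n 0 z (n 0 z (n 0 z (n 0 z (n 0 z (n 0 z (n 0 z z)))))))) (n 81 (n 0 z (n 2 (n 0 z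
 (n 1 z (n 2 (n 0 z (n 0 z (n 0 z (n 0 (n 8794451 z z) (n 0 z (n 0 z z)))))) (n 2 (n 0 (n 260 z
 z) (n 0 z (n 0 (n 260 z z) (n 0 (n 8869403 z (n 8869403 z z)) (n 0 z (n 0 z z)))))) (n 2 (n 0 z
 (n 0 z (n 0 z (n 0 z (n 0 z (n 0 z z)))))) (n 2 (n 0 z (n 0 z (n 0 z (n 0 (n 8791099 z z) (n 0
 z (n 0 z z)))))) z)))))) (n 0 z (n 0 z (n 0 z (n 0 z (n 0 z z))))))) (n 81 (n 0 z (n 0 z (n 0 z
 (n 0 z (n 0 z (n 0 z (n 0 z z))))))) (n 69 (n 0 z (n 2 (n 0 z (n 2 (n 0 z (n 0 z (n 0 z (n 0 z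
 (n 0 z (n 0 z z)))))) (n 2 (n 0 z (n 0 z (n 0 z (n 0 z (n 0 z (n 0 z z)))))) (n 2 (n 0 z (n 0 z
 (n 0 z (n 0 z (n 0 z (n 0 z z)))))) z)))) (n 0 z (n 0 z (n 0 z (n 0 z (n 0 z z))))))) (n 69 (n
 0 z (n 0 z (n 0 z (n 0 z (n 0 z (n 0 z (n 0 z z))))))) (n 65 (n 0 z (n 0 z (n 0 z (n 0 z (n 0 z
 (n 0 z (n 0 z (n 0 z (n 0 z (n 0 z (n 0 z (n 0 z z)))))))))))) (n 65 (n 0 z (n 2 (n 0 z z) (n 0
 z (n 0 z (n 0 z (n 0 z (n 0 z (n 0 z (n 0 z (n 0 z (n 0 z (n 0 z z)))))))))))) (n 65 (n 0 z (n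
 0 z (n 0 z (n 0 z (n 0 z (n 0 z (n 0 z (n 0 z (n 0 z (n 0 z (n 0 z (n 0 z z))))))))))))
 z))))))))) (n 0 (n 0 z (n 33 (n 0 z (n 0 z (n 0 z (n 0 z (n 0 z (n 0 z (n 2 (n 0 z (n 2 (n 0 z
 (n 0 z (n 0 z (n 0 (n 8851491 z z) (n 0 z (n 0 z z)))))) (n 2 (n 0 z (n 0 z (n 0 z (n 0 z (n 0
 z (n 0 z z)))))) (n 2 (n 0 z (n 0 (n 8791835 z z) (n 0 z (n 0 (n 8732787 z (n 8718155 z z)) (n
 0 z (n 0 (n 8868195 z z) z)))))) (n 2 (n 0 z (n 0 z (n 0 z (n 0 z (n 0 z (n 0 z z)))))) (n 2 (n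
 0 z (n 0 z (n 0 z (n 0 z (n 0 z (n 0 z z)))))) z)))))) z))))))) (n 33 (n 0 z (n 0 z (n 0 z (n 0
 z (n 0 z (n 0 z (n 0 z z))))))) (n 105 (n 0 z (n 0 z (n 0 z (n 2 (n 0 z (n 2 (n 0 z (n 0 z (n 0
 z (n 0 z (n 0 z (n 0 z z)))))) (n 2 (n 0 z (n 0 z (n 0 z (n 0 z (n 0 z (n 0 z z)))))) (n 2 (n 0
 z (n 0 z (n 0 z (n 0 z (n 0 z (n 0 z z)))))) z)))) z)))) (n 105 (n 0 z (n 0 z (n 0 z (n 0 z
 z)))) (n 101 (n 0 z (n 0 z (n 0 z (n 0 z (n 0 z (n 0 z (n 0 z (n 0 z z)))))))) (n 101 (n 0 z (n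
 0 z (n 0 z (n 0 z (n 0 z (n 0 z (n 0 z (n 0 z z)))))))) (n 101 (n 0 z (n 0 z (n 0 z (n 0 z (n 0
 z (n 0 z (n 0 z (n 0 z z)))))))) z)))))))) (n 0 (n 33 (n 0 z (n 2 (n 0 z (n 2 (n 0 z (n 0 z (n
 0 z (n 0 (n 8851491 z z) (n 0 z (n 0 z z)))))) (n 2 (n 0 z (n 0 z (n 0 z (n 0 z (n 0 z (n 0 z
 z)))))) (n 2 (n 0 z (n 0 (n 8791835 z z) (n 0 z (n 0 (n 8732787 z (n 8869403 z z)) (n 0 z (n 0
 (n 8733539 z z) z)))))) (n 2 (n 0 z (n 0 z (n 0 z (n 0 z (n 0 z (n 0 z z)))))) (n 2 (n 0 z (n 0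
 z (n 0 z (n 0 z (n 0 z (n 0 z z)))))) z)))))) (n 0 z z))) (n 33 (n 0 z (n 0 z (n 0 z z))) (n 21
 (n 0 z (n 0 z (n 2 (n 0 z (n 2 (n 0 z (n 0 z (n 0 z (n 0 z (n 0 z (n 0 z z)))))) (n 2 (n 0 z (n
 0 z (n 0 z (n 0 z (n 0 z (n 0 z z)))))) (n 2 (n 0 z (n 0 z (n 0 z (n 0 z (n 0 z (n 0 z z))))))
 z)))) (n 0 z z)))) (n 21 (n 0 z (n 0 z (n 0 z (n 0 z z)))) (n 101 (n 0 z (n 0 z (n 0 z (n 0 z
 (n 0 z (n 0 z (n 0 z (n 0 z (n 0 z z))))))))) (n 101 (n 0 z (n 0 z (n 0 z (n 0 z (n 2 (n 0 z z)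
 (n 0 z (n 0 z (n 0 z (n 0 z z))))))))) (n 101 (n 0 z (n 0 z (n 0 z (n 0 z (n 0 z (n 0 z (n 0 z
 (n 0 z (n 0 z z))))))))) z))))))) (n 0 (n 0 z (n 483 (n 0 z (n 0 z (n 0 z (n 0 z (n 0 z (n 0 z
 (n 0 z (n 0 z z)))))))) (n 483 (n 0 z (n 0 z (n 0 z (n 0 z (n 2 (n 2 (n 0 z (n 0 z (n 0 (n
 8804123 z z) (n 0 (n 8857115 z (n 8857115 z z)) (n 0 z (n 0 (n 8804123 z z) z)))))) (n 2 (n 0 z
 (n 0 z (n 0 z (n 0 (n 1924 z z) (n 0 z (n 0 z z)))))) (n 2 (n 0 z (n 0 z (n 0 z (n 0 (n 2164859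
 z z) (n 0 z (n 0 z z)))))) z))) (n 0 z (n 0 z (n 0 z z)))))))) (n 481 (n 0 z (n 0 z (n 0 z (n 0
 z (n 0 z (n 0 z (n 0 z (n 0 z (n 0 z (n 0 z (n 0 z (n 0 z (n 0 z (n 0 z (n 0 z (n 0 z (n 0 z (n
 0 z (n 0 z (n 0 z (n 0 z z))))))))))))))))))))) (n 481 (n 0 z (n 0 z (n 0 z (n 0 z (n 0 z (n 0
 z (n 0 z (n 0 z (n 0 z (n 0 z (n 0 z (n 0 z (n 0 z (n 0 z (n 0 z (n 0 z (n 0 z (n 0 z (n 0 z (n
 2 (n 0 z z) (n 0 z z))))))))))))))))))))) (n 481 (n 0 z (n 0 z (n 0 z (n 0 z (n 0 z (n 0 z (n 0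
 z (n 0 z (n 0 z (n 0 z (n 0 z (n 0 z (n 0 z (n 0 z (n 0 z (n 0 z (n 0 z (n 2 z (n 0 z (n 0 z (n
 0 z z))))))))))))))))))))) z)))))) (n 0 (n 531 (n 2 (n 0 z (n 2 (n 0 z (n 0 z (n 0 z (n 0 z (n
 0 z (n 0 z z)))))) (n 2 (n 0 z (n 0 z (n 0 z (n 0 z (n 0 z (n 0 z z)))))) (n 2 (n 0 z (n 0 z (n
 0 z (n 0 z (n 0 z (n 0 z z)))))) z)))) (n 0 z (n 0 z (n 0 z z)))) (n 531 (n 0 z (n 0 z (n 0 z
 (n 0 z z)))) (n 529 (n 0 z (n 0 z (n 0 z (n 0 z (n 0 z (n 0 z (n 0 z (n 0 z (n 0 z (n 0 z (n 0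
 z (n 0 z (n 0 z (n 0 z (n 0 z (n 0 z (n 0 z (n 0 z (n 0 z z))))))))))))))))))) (n 529 (n 0 z (n
 0 z (n 0 z (n 0 z (n 0 z (n 0 z (n 0 z (n 0 z (n 0 z (n 0 z (n 0 z (n 0 z (n 0 z (n 0 z (n 0 z
 (n 2 (n 0 z z) (n 0 z (n 0 z (n 0 z z))))))))))))))))))) (n 529 (n 0 z (n 0 z (n 0 z (n 0 z (n
 0 z (n 0 z (n 0 z (n 0 z (n 0 z (n 0 z (n 0 z (n 0 z (n 0 z (n 0 z (n 0 z (n 0 z (n 0 z (n 0 z
 (n 0 z z))))))))))))))))))) z))))) (n 0 (n 0 z (n 1 (n 0 z (n 0 z (n 0 z (n 0 z (n 0 z (n 0 z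
 (n 0 z (n 0 z (n 0 z (n 0 z (n 0 z (n 0 z (n 0 z (n 0 z (n 0 z (n 0 z (n 0 z (n 0 z (n 0 z (n 0
 z (n 0 z (n 0 z (n 0 z (n 0 z (n 0 z (n 0 z (n 0 z (n 0 z (n 0 z (n 0 z (n 0 z (n 0 z (n 0 z
 z))))))))))))))))))))))))))))))))) (n 1 (n 0 z (n 0 z (n 0 z (n 0 z (n 0 z (n 0 z (n 0 z (n 0 z
 (n 0 z (n 0 z (n 0 z (n 0 z (n 0 z (n 0 z (n 0 z (n 0 z (n 0 z (n 0 z (n 2 (n 0 z z) (n 0 z (n
 0 z (n 0 z (n 0 z (n 0 z (n 0 z (n 0 z (n 0 z (n 0 z (n 0 z (n 0 z (n 0 z (n 0 z (n 0 z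
 z))))))))))))))))))))))))))))))))) (n 1 (n 0 z (n 0 z (n 0 z (n 0 z (n 0 z (n 0 z (n 0 z (n 0 z
 (n 0 z (n 2 z (n 0 z (n 0 z (n 0 z (n 0 z (n 0 z (n 0 z (n 0 z (n 0 z (n 0 z (n 0 z (n 0 z (n 0
 z (n 0 z (n 0 z (n 0 z (n 0 z (n 0 z (n 0 z (n 0 z (n 0 z (n 0 z (n 0 z (n 0 z
 z))))))))))))))))))))))))))))))))) z)))) (n 0 (n 1 (n 0 z (n 0 z (n 0 z (n 0 z (n 0 z (n 0 z (n
 0 z (n 0 z (n 0 z (n 0 z z)))))))))) (n 1 (n 2 (n 0 z z) (n 0 z (n 0 z (n 0 z (n 0 z (n 0 z (n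
 0 z (n 0 z (n 0 z (n 0 z z)))))))))) (n 1 (n 0 z (n 0 z (n 0 z (n 0 z (n 0 z (n 0 z (n 0 z (n 0
 z (n 0 z (n 0 z z)))))))))) z))) (n 0 (n 0 z (n 0 z z)) (n 0 (n 0 z z) (n 0 z z)))))))))))) (n
 0 (n 1 (n 6554411 z (n 6554411 z (n 6554411 z (n 6554411 z (n 6554411 z (n 6554411 z z)))))) (n
 1 (n 1228 z (n 1228 z (n 1228 z (n 1228 z (n 1228 z (n 1228 z z)))))) (n 1 (n 1228 z (n 1228 z
 (n 1228 z (n 1228 z (n 1228 z (n 2 z z)))))) z))) (n 0 (n 0x43545d6852d46902d3695211 (n 0 (n 0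
 (n 7745875 z (n 7745875 z (n 7745875 z (n 7745875 z (n 7745875 z (n 7745875 z z)))))) z) (n 0
 (n 153 (n 1 (n 4740 z (n 4740 z (n 4740 z (n 3180 z (n
 0x14c64ec0a030d885d8140e13b2b28981c176552130184ea6a6240342f9dd2e741981e35ed5b81f322c725e7d587b65db4ad6d93688304a3765b1e4e08917f379d2801
 z (n 7684963 z z)))))) (n 0 z (n 1 (n 7668507 z (n 7668507 z (n 7668507 z (n 7668507 z (n
 7668507 z (n 7684963 z z)))))) (n 1 (n 6496627 z (n 3282699 z (n 3282699 z (n 3282699 z (n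
 3282699 z (n 7684963 z z)))))) (n 1 (n 6496627 z (n 3282699 z (n 3282699 z (n 3282699 z (n
 3282699 z (n 7684963 z z)))))) (n 0 z (n 1 (n 7745875 z (n 7745875 z (n 7745875 z (n 7745875 z
 (n 7745875 z (n 7745875 z z)))))) z))))))) (n 40 (n 0 z (n 1 (n 4400907 z (n 5517427 z (n
 5441355 z (n 4748 z (n 2 z (n 4748 z z)))))) (n 1 (n 7545091 z (n 7545091 z (n 7545091 z (n
 7545091 z (n 7545091 z (n 7545091 z z)))))) (n 0 z (n 0 z (n 0 z (n 1 (n 7545091 z (n 7545091 z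
 (n 7545091 z (n 7545091 z (n 7545091 z (n 7545091 z z)))))) z))))))) (n 16 (n 1 (n 7545091 z (n
 7545091 z (n 7545091 z (n 7545091 z (n 7545091 z (n 7545091 z z)))))) (n 1 (n 3196 z (n 5517427
 z (n 7668507 z (n 3196 z (n 3196 z (n 3196 z z)))))) (n 1 (n 7545091 z (n 7545091 z (n 7545091
 z (n 7545091 z (n 7545091 z (n 7545091 z z)))))) z))) (n 17 (n 1 (n 7545091 z (n 7545091 z (n
 7545091 z (n 7545091 z (n 7545091 z (n 7545091 z z)))))) (n 1 (n 10 z (n 5513331 z (n 5375819 z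
 (n 2188 z (n 2188 z (n 2188 z z)))))) (n 1 (n 7545091 z (n 7545091 z (n 7545091 z (n 7545091 z
 (n 7545091 z (n 7545091 z z)))))) z))) (n 1 (n 1 (n 7602987 z (n 7602987 z (n 7602987 z (n
 7602987 z (n 7602987 z (n 7684963 z z)))))) (n 1 (n 2236 z (n 2236 z (n 18 z (n 2236 z (n 2236
 z (n 7684963 z z)))))) (n 1 (n 7745875 z (n 7745875 z (n 7745875 z (n 7745875 z (n 7745875 z (n
 7745875 z z)))))) z))) (n 285 (n 1 (n 7545091 z (n 7668507 z (n 7668507 z (n 7668507 z (n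
 7668507 z (n 7668507 z z)))))) (n 1 (n 7545091 z (n 268 z (n 268 z (n 268 z (n 268 z (n 268 z
 z)))))) (n 1 (n 7545091 z (n 3282699 z (n 3282699 z (n 3282699 z (n 3282699 z (n 3282699 z
 z)))))) (n 1 (n 7545091 z (n 7684963 z (n 7684963 z (n 7684963 z (n 7684963 z (n 7684963 z
 z)))))) (n 1 (n 7545091 z (n 268 z (n 268 z (n
 0x176474030382ecac8060781c89f81f7a38218217e176085f8218227a281c8df85e9247e37df96279d9db8df7e281f89f1001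
 z (n 3278699 z (n 268 z z)))))) (n 1 (n 7545091 z (n 7684963 z (n 7684963 z (n 7684963 z (n
 7684963 z (n 7684963 z z)))))) (n 1 (n 7545091 z (n 7602987 z (n 7602987 z (n 7602987 z (n
 7602987 z (n 7602987 z z)))))) (n 1 (n 7545091 z (n 268 z (n 26 z (n 268 z (n 4327275 z (n 268
 z z)))))) z)))))))) (n 1 (n 1 (n 7602987 z (n 7602987 z (n 7602987 z (n 7602987 z (n 7602987 z
 (n 7602987 z z)))))) (n 1 (n 1228 z (n 1228 z (n 1228 z (n 1228 z (n 7742523 z (n 1228 z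
 z)))))) (n 1 (n 7745875 z (n 7745875 z (n 7745875 z (n 7745875 z (n 7745875 z (n 7745875 z
 z)))))) z))) z))))))) (n 0 (n 0 (n 0 z (n 0 z (n 0 z (n 0 z z)))) (n 0 (n 0 z (n 0 z (n 0 z
 z))) (n 0 (n 0 z (n 0 z z)) (n 0 (n 0 z z) z)))) (n 0 (n 593 (n 0 (n 0 z (n 0 z (n 0 (n 8851491
 z (n 8851491 z z)) (n 0 (n 5515275 z (n 5515275 z z)) z)))) (n 0 (n 0 z (n 0 z (n 0 z (n 0 z
 z)))) (n 0 (n 0 z (n 0 z (n 0 z (n 0 z z)))) (n 0 (n 0 z (n 0 z (n 0 z (n 0 z z)))) (n 0 (n 0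
 (n 8851491 z (n 8851491 z z)) (n 0 z (n 0 z (n 0 (n 8794451 z (n 8794451 z z)) z)))) (n 0 (n 0
 (n 8794451 z (n 8794451 z z)) (n 0 z (n 0 z (n 0 (n 8794451 z (n 8794451 z z)) z)))) (n 0 (n 0
 (n 8851491 z (n 8851491 z z)) (n 0 (n 8851491 z (n 8851491 z z)) (n 0 (n 8851491 z (n 8851491 z
 z)) (n 0 (n 8787755 z (n
 0x258747df8607df82186086482276091f8637e289e7db82175f8a27a18208608208e08607dc81f8210041 z z))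
 z)))) (n 0 (n 0 z (n 0 z (n 0 (n 8718155 z (n
 0x10caeca6077df85f8208208208618207e086082082081f81f86081f86082082082182085f8208208207e00801 z
 z)) (n 0 (n
 0xd8748208218608218208218218208608217e082081e8617e08208208208208608208207df85f7e10041 z (n
 0x4287275fc9f3539b4b1f8a37de9208619668ad81a65c74e71f7e49b67a582b99a59a6e46e37637260041 z z))
 z)))) (n 0 (n 0 z (n 0 (n 8873291 z z) (n 0 z (n 0 z z)))) (n 0 (n 0 z (n 0 z (n 0 z (n 0 z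
 z)))) (n 0 (n 0 z (n 0 (n 8851491 z z) (n 0 z (n 0 z z)))) (n 0 (n 0 z (n 0 z (n 0 z (n 0 z
 z)))) (n 0 (n 0 z (n 0 z (n 0 z (n 0 z z)))) (n 0 (n 0 z (n 0 z (n 0 z (n 0 z z)))) (n 0 (n 0 z
 (n 0 z (n 0 z (n 0 z z)))) (n 0 (n 0 z (n 0 z (n 0 z (n 0 z z)))) z)))))))))))))))) (n 399 (n 0
 (n 0 z (n 0 z (n 0 z (n 0 z z)))) (n 0 (n 0 z (n 0 z (n 0 (n 8718155 z (n
 0x2a85179fb1f5188eda1f8617df8a08618e48687dc71e79475f7e292e7a482791c69c7637227a27640041 z z)) (n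
 0 (n 0xd8748208218608218208218218208608217e082081e8617e08208208208208608208207df85f7e10041 z (n
 0x158717df8607e08208608238217a08e082282185f7dd7e17df8617e182086181f8618607de81f8210041 z z))
 z)))) (n 0 (n 0 z (n 0 z (n 0 z (n 0 z z)))) (n 0 (n 0 z (n 0 z (n 0 z (n 0 z z)))) (n 0 (n 0 z
 (n 0 z (n 0 z (n 0 z z)))) (n 0 (n 0 (n 8791835 z (n 8732787 z z)) (n 0 z (n 0 (n 8869403 z (n
 8869403 z z)) (n 0 z z)))) (n 0 (n 0 (n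
 0x30c8ec860781e8617617a07a07628a27e17a286182089e81f81f81f8217637a082381e8e089f7e18e08210801 z
 (n 8718155 z z)) (n 0 (n
 0x2ec70c2a0781f8208208208208208208208208208208208208208208208208208208608208208208208200801 z
 (n
 0x76386150382ec70c0a0781f8618208208207e08208208618208208208208208208208208208208618208208208208211001
 z z)) (n 0 (n 8791835 z (n 8718155 z z)) (n 0 z z)))) (n 0 (n 0 z (n 0 z (n 0 (n 5511179 z (n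
 5511179 z z)) (n 0 (n 8855571 z (n 8855571 z z)) z)))) (n 0 (n 0 z (n 0 (n 8791835 z (n 8732787
 z z)) (n 0 z (n 0 z z)))) (n 0 (n 0 z (n 0 z (n 0 (n 5511179 z (n 5511179 z z)) (n 0 (n 8855571
 z (n 8855571 z z)) z)))) (n 0 (n 0 z (n 0 (n 8867907 z z) (n 0 z (n 0 z z)))) (n 0 (n 0 z (n 0
 z (n 0 z (n 0 z z)))) (n 0 (n 0 z (n 0 z (n 0 z (n 0 z z)))) (n 0 (n 0 z (n 0 z (n 0 z (n 0 z
 z)))) (n 0 (n 0 z (n 0 z (n 0 z (n 0 z z)))) z))))))))))))))) (n 65 (n 0 (n 0 z (n 0 (n 8732787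
 z (n 8660747 z z)) (n 0 z (n 0 z z)))) (n 0 (n 0 (n
 0x30caeca60781f8608208208207e18207e082082182086081f8608608607e08208208208208208208208200801 z
 (n 0x10caeca60785e8207e08208207e08607e082182082086081f8608208608208208208208208208208208200801
 z z)) (n 0 (n 8660747 z (n
 0x2ec70c2a0781f8207e08208207e18208208208218208608208208208207e08208208218208208208208200801 z
 z)) (n 0 (n 7538779 z (n
 0x30caeca60781f8608208208207e18207e082082182086081f8608608607e08208208208208208208208200801 z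
 z)) (n 0 (n 8660843 z (n
 0x4287675fc9f3539b4b1f8a37de9208619668ad81a65c74e71f7e49b67a582b99a59a6e46e37637260041 z z))
 z)))) (n 0 (n 0 z (n 0 z (n 0 z (n 0 (n 6567979 z z) z)))) (n 0 (n 0 z (n 0 z (n 0 z (n 0 z
 z)))) (n 0 (n 0 z (n 0 z (n 0 z (n 0 z z)))) (n 0 (n 0 z (n 0 z (n 0 z (n 0 z z)))) (n 0 (n 0 z
 (n 0 (n 8867907 z z) (n 0 z (n 0 z z)))) (n 0 (n 0 (n 8593667 z (n 8593667 z z)) (n 0 z (n 0 z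
 (n 0 (n 8593667 z (n 8593667 z z)) z)))) z)))))))) (n 273 (n 0 (n 0 z (n 0 (n 8791835 z z) (n 0
 z (n 0 z z)))) (n 0 (n 0 z (n 0 z (n 0 z (n 0 z z)))) (n 0 (n 0 z (n 0 z (n 0 z (n 0 z z)))) (n
 0 (n 0 z (n 0 (n 8851491 z z) (n 0 z (n 0 z z)))) (n 0 (n 0 z (n 0 z (n 0 z (n 0 z z)))) (n 0
 (n 0 z (n 0 (n 8851491 z (n 8851491 z z)) (n 0 z (n 0 z z)))) (n 0 (n 0 z (n 0 z (n 0 z (n 0 z
 z)))) (n 0 (n 0 z (n 0 z (n 0 z (n 0 z z)))) z)))))))) (n 41 (n 0 (n 0 z (n 0 z (n 0 z (n 0 z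
 z)))) (n 0 (n 0 z (n 0 z (n 0 z (n 0 z z)))) (n 0 (n 0 z (n 0 z (n 0 z (n 0 z z)))) (n 0 (n 0 z
 (n 0 z (n 0 z (n 0 z z)))) (n 0 (n 0 z (n 0 z (n 0 z (n 0 z z)))) (n 0 (n 0 z (n 0 z (n 0 z (n
 0 z z)))) (n 0 (n 0 z (n 0 z (n 0 z (n 0 z z)))) z))))))) (n 17 (n 0 (n 0 z (n 0 z (n 0 z (n 0
 z z)))) (n 0 (n 0 z (n 0 z (n 0 z (n 0 z z)))) (n 0 (n 0 z (n 0 z (n 0 z (n 0 z z)))) z))) (n
 279 (n 0 (n 0 z (n 0 z (n 0 z (n 0 z z)))) (n 0 (n 0 z (n 0 z (n 0 z (n 0 z z)))) (n 0 (n 0 z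
 (n 0 z (n 0 z (n 0 z z)))) (n 0 (n 0 z (n 0 z (n 0 z (n 0 z z)))) (n 0 (n 0 z (n 0 z (n 0 z (n
 0 z z)))) (n 0 (n 0 z (n 0 (n 8851491 z z) (n 0 z (n 0 z z)))) (n 0 (n 0 z (n 0 z (n 0 z (n 0 z
 z)))) z))))))) (n 35 (n 0 (n 0 (n 8865035 z (n 8865035 z z)) (n 0 z (n 0 z (n 0 (n 8787755 z (n
 0x258767df8607df82186086482276091f8637e289e7db82175f8a27a18208608208e08607dc81f8210041 z z))
 z)))) (n 0 (n 0 z (n 0 z (n 0 z (n 0 z z)))) (n 0 (n 0 z (n 0 z (n 0 z (n 0 z z)))) (n 0 (n 0 z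
 (n 0 z (n 0 z (n 0 z z)))) (n 0 (n 0 z (n 0 (n
 0x2ec70c2a0781f8208208218208208208208208208208208208208208208208208208218208208208208210801 z
 z) (n 0 z (n 0 z z)))) (n 0 (n 0 (n 8593667 z z) (n 0 z (n 0 z (n 0 (n 8593667 z z) z)))) (n 0
 (n 0 z (n 0 z (n 0 z (n 0 z z)))) z))))))) (n 11 (n 0 (n 0 z (n 0 (n 8593667 z z) (n 0 z (n 0 z
 z)))) (n 0 (n 0 z (n 0 z (n 0 z (n 0 z z)))) (n 0 (n 0 z (n 0 z (n 0 z (n 0 z z)))) (n 0 (n 0 z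
 (n 0 z (n 0 z (n 0 z z)))) z)))) (n 267 (n 0 (n 0 z (n 0 z (n 0 z (n 0 z z)))) (n 0 (n 0 z (n 0
 z (n 0 z (n 0 z z)))) (n 0 (n 0 (n 8851491 z z) (n 0 z (n 0 (n 8851491 z z) (n 0 z z)))) (n 0
 (n 0 z (n 0 z (n 0 z (n 0 z z)))) z)))) (n 285 (n 0 (n 0 z (n 0 z (n 0 z (n 0 z z)))) (n 0 (n 0
 z (n 0 z (n 0 z (n 0 z z)))) (n 0 (n 0 z (n 0 z (n 0 z (n 0 z z)))) (n 0 (n 0 z (n 0 z (n 0 z
 (n 0 z z)))) (n 0 (n 0 z (n 0 z (n 0 z (n 0 z z)))) (n 0 (n 0 z (n 0 z (n 0 z (n 0 z z)))) (n 0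
 (n 0 z (n 0 z (n 0 z (n 0 z z)))) (n 0 (n 0 z (n 0 z (n 0 z (n 0 z z)))) z)))))))) (n 33 (n 0
 (n 0 z (n 0 z (n 0 z (n 0 z z)))) (n 0 (n 0 z (n 0 z (n 0 z (n 0 z z)))) (n 0 (n 0 z (n 0 z (n
 0 z (n 0 z z)))) (n 0 (n 0 z (n 0 z (n 0 z (n 0 z z)))) (n 0 (n 0 (n 8593667 z z) (n 0 z (n 0
 (n 8593667 z z) (n 0 z z)))) (n 0 (n 0 (n 8593667 z (n 8593667 z z)) (n 0 (n 8593667 z (n
 8593667 z z)) (n 0 (n 8593667 z (n 8593667 z z)) (n 0 (n 8593667 z (n 8593667 z z)) z)))) (n 0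
 (n 0 z (n 0 (n 8593667 z z) (n 0 z (n 0 z z)))) (n 0 (n 0 z (n 0 z (n 0 z (n 0 z z)))) (n 0 (n
 0 z (n 0 z (n 0 z (n 0 z z)))) (n 0 (n 0 z (n 0 (n 8867907 z z) (n 0 z (n 0 z z)))) (n 0 (n 0 z
 (n 0 z (n 0 z (n 0 z z)))) (n 0 (n 0 z (n 0 z (n 0 z (n 0 z z)))) z)))))))))))) (n 51 (n 0 (n 0
 z (n 0 (n 8869403 z z) (n 0 z (n 0 z z)))) (n 0 (n 0 z (n 0 z (n 0 z (n 0 z z)))) (n 0 (n 0 z
 (n 0 z (n 0 z (n 0 z z)))) (n 0 (n 0 z (n 0 z (n 0 z (n 0 z z)))) (n 0 (n 0 z (n 0 z (n 0 z (n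
 0 z z)))) (n 0 (n 0 z (n 0 z (n 0 z (n 0 z z)))) (n 0 (n 0 z (n 0 z (n 0 (n 8733539 z z) (n 0 z
 z)))) (n 0 (n 0 z (n 0 z (n 0 z (n 0 z z)))) (n 0 (n 0 z (n 0 z (n 0 z (n 0 z z)))) z)))))))))
 (n 269 (n 0 (n 0 z (n 0 z (n 0 z (n 0 z z)))) (n 0 (n 0 (n 8733539 z (n 8733539 z z)) (n 0 z (n
 0 z (n 0 (n 8733539 z (n 8733539 z z)) z)))) (n 0 (n 0 z (n 0 z (n 0 z (n 0 z z)))) (n 0 (n 0 z
 (n 0 z (n 0 z (n 0 z z)))) (n 0 (n 0 z (n 0 (n 8851491 z (n 8851491 z z)) (n 0 z (n 0 z z))))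
 (n 0 (n 0 z (n 0 (n 8867907 z z) (n 0 z (n 0 z z)))) (n 0 (n 0 z (n 0 z (n 0 z (n 0 z z)))) (n
 0 (n 0 z (n 0 (n 8851491 z z) (n 0 z (n 0 z z)))) (n 0 (n 0 z (n 0 z (n 0 z (n 0 z z)))) (n 0
 (n 0 (n 8851491 z (n 8851491 z z)) (n 0 (n 8851491 z (n 8851491 z z)) (n 0 (n 8851491 z (n
 8851491 z z)) (n 0 z z)))) (n 0 (n 0 z (n 0 z (n 0 z (n 0 z z)))) (n 0 (n 0 z (n 0 z (n 0 z (n
 0 z z)))) (n 0 (n 0 z (n 0 z (n 0 z (n 0 z z)))) (n 0 (n 0 z (n 0 z (n 0 z (n 0 z z)))) (n 0 (n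
 0 z (n 0 z (n 0 z (n 0 z z)))) (n 0 (n 0 z (n 0 z (n 0 z (n 0 z z)))) (n 0 (n 0 z (n 0 z (n 0 z
 (n 0 z z)))) (n 0 (n 0 z (n 0 z (n 0 z (n 0 z z)))) (n 0 (n 0 z (n 0 z (n 0 z (n 0 z z))))
 z))))))))))))))))))) (n 1 (n 0 (n 0 z (n 0 z (n 0 z (n 0 z z)))) (n 0 (n 0 z (n 0 z (n 0 z (n 0
 z z)))) (n 0 (n 0 z (n 0 z (n 0 z (n 0 z z)))) (n 0 (n 0 z (n 0 z (n 0 z (n 0 z z)))) (n 0 (n 0
 z (n 0 (n 8660747 z z) (n 0 z (n 0 z z)))) (n 0 (n 0 z (n 0 z (n 0 z (n 0 z z)))) (n 0 (n 0 z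
 (n 0 z (n 0 z (n 0 z z)))) (n 0 (n 0 z (n 0 z (n 0 z (n 0 z z)))) (n 0 (n 0 z (n 0 (n 8733539 z
 z) (n 0 z (n 0 z z)))) (n 0 (n 0 z (n 0 z (n 0 z (n 0 z z)))) z)))))))))) (n 153 (n 0 (n 0 z (n
 0 (n 8791835 z z) (n 0 z (n 0 z z)))) (n 0 (n 0 z (n 0 z (n 0 z (n 0 z z)))) (n 0 (n 0 z (n 0 z
 (n 0 z (n 0 z z)))) (n 0 (n 0 z (n 0 z (n 0 (n 8851491 z z) (n 0 (n 8855571 z z) z)))) (n 0 (n
 0 z (n 0 z (n 0 z (n 0 z z)))) (n 0 (n 0 z (n 0 z (n 0 z (n 0 z z)))) (n 0 (n 0 z (n 0 z (n 0 z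
 (n 0 z z)))) z))))))) (n 33 (n 0 (n 0 z (n 0 z (n 0 (n 8593667 z z) (n 0 (n 8593667 z z) z))))
 (n 0 (n 0 z (n 0 z (n 0 z (n 0 z z)))) (n 0 (n 0 z (n 0 z (n 0 z (n 0 z z)))) (n 0 (n 0 z (n 0
 z (n 0 z (n 0 z z)))) (n 0 (n 0 (n 8593667 z (n 8593667 z z)) (n 0 (n 8593667 z (n 8593667 z
 z)) (n 0 (n 8593667 z (n 8593667 z z)) (n 0 (n 8593667 z (n 8593667 z z)) z)))) (n 0 (n 0 z (n
 0 (n 8593667 z z) (n 0 z (n 0 z z)))) (n 0 (n 0 z (n 0 z (n 0 z (n 0 z z)))) (n 0 (n 0 z (n 0 z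
 (n 0 z (n 0 z z)))) (n 0 (n 0 z (n 0 z (n 0 z (n 0 z z)))) z))))))))) (n 51 (n 0 (n 0 z (n 0 z
 (n 0 z (n 0 z z)))) (n 0 (n 0 z (n 0 z (n 0 z (n 0 z z)))) (n 0 (n 0 z (n 0 z (n 0 z (n 0 z
 z)))) (n 0 (n 0 z (n 0 z (n 0 z (n 0 z z)))) (n 0 (n 0 z (n 0 z (n 0 z (n 0 z z)))) z))))) (n
 27 (n 0 (n 0 z (n 0 z (n 0 z (n 0 z z)))) (n 0 (n 0 (n 8851491 z (n 8851491 z z)) (n 0 (n
 8851491 z (n 8851491 z z)) (n 0 (n 8851491 z (n 8851491 z z)) (n 0 z z)))) (n 0 (n 0 z (n 0 z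
 (n 0 z (n 0 z z)))) (n 0 (n 0 z (n 0 z (n 0 z (n 0 z z)))) (n 0 (n 0 z (n 0 z (n 0 z (n 0 z
 z)))) z))))) (n 1 (n 0 (n 0 z (n 0 z (n 0 z (n 0 z z)))) (n 0 (n 0 z (n 0 z (n 0 z (n 0 z z))))
 (n 0 (n 0 z (n 0 z (n 0 z (n 0 z z)))) z))) (n 0 (n 0 (n 0 z (n 0 z (n 0 z (n 0 z z)))) (n 0 (n
 0 z (n 0 z (n 0 z (n 0 z z)))) (n 0 (n 0 z (n 0 z (n 0 z (n 0 z z)))) (n 0 (n 0 (n 8867907 z z)
 (n 0 z (n 0 z (n 0 (n 4261979 z z) z)))) (n 0 (n 0 (n 8867907 z (n 8867907 z z)) (n 0 (n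
 8867907 z (n 8867907 z z)) (n 0 (n 8718155 z (n 8791835 z z)) (n 0 (n 4261979 z (n 4261979 z
 z)) z)))) (n 0 (n 0 z (n 0 (n 8867907 z z) (n 0 z (n 0 z z)))) (n 0 (n 0 z (n 0 z (n 0 z (n 0 z
 z)))) (n 0 (n 0 (n 8660747 z z) (n 0 z (n 0 z (n 0 (n
 0x3283179fba0415930aa08a27de8e08619668aa7db6dd7917607e39327a582995b61b7236e37627250041 z z)
 z)))) (n 0 (n 0 z (n 0 z (n 0 z (n 0 z z)))) (n 0 (n 0 z (n 0 (n 8718155 z z) (n 0 z (n 0 z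
 z)))) (n 0 (n 0 z (n 0 z (n 0 z (n 0 z z)))) (n 0 (n 0 z (n 0 z (n 0 z (n 0 z z)))) (n 0 (n 0 z
 (n 0 z (n 0 z (n 0 z z)))) (n 0 (n 0 z (n 0 z (n 0 z (n 0 z z)))) (n 0 (n 0 (n 8732787 z (n
 8718155 z z)) (n 0 z (n 0 z (n 0 (n
 0x258727df8607df82186086482276091f8637e289e7db82175f8a27a18208608208e08607dc81f8210041 z (n
 0x4287275fc9f3539b4b1f8a37de9208619668ad81a65c74e71f7e49b67a582b99a59a6e46e37637260041 z z))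
 z)))) (n 0 (n 0 z (n 0 z (n 0 z (n 0 z z)))) (n 0 (n 0 z (n 0 (n 8791835 z z) (n 0 z (n 0 z
 z)))) (n 0 (n 0 z (n 0 z (n 0 z (n 0 z z)))) (n 0 (n 0 (n 0x10cae846070821 z (n 8718155 z z))
 (n 0 (n 8660747 z (n
 0x30870864037e181e86082185f8607e086081f81f8617e082082282282085f82086081f85d8207e08208210801 z
 z)) (n 0 (n 8791835 z (n 0x10cae846070821 z z)) (n 0 (n
 0x30e908460779d8608e07e08208de7dc8a181f82281f6a48208618e08208208217e18a07df7e079f81f8200801 z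
 (n 0x158717df8607e08208608637e17a08e08227e185f7dd82179f8617a18208608208a08607de7df8210041 z z))
 z)))) (n 0 (n 0 z (n 0 (n 8660747 z z) (n 0 z (n 0 z z)))) (n 0 (n 0 z (n 0 (n
 0x30870864037e17df86082186082082081f8208208207e18208218617e082082086082081f8208208208210801 z
 (n 8718155 z z)) (n 0 z (n 0 z z)))) (n 0 (n 0 z (n 0 z (n 0 z (n 0 z z)))) (n 0 (n 0 z (n 0 (n
 0x30870864037e17df86082186082082081f8208208207e18208218617e082082086082081f8208208208210801 z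
 (n 8718155 z z)) (n 0 z (n 0 z z)))) (n 0 (n 0 z (n 0 z (n 0 z (n 0 z z)))) (n 0 (n 0 z (n 0 z
 (n 0 z (n 0 z z)))) z))))))))))))))))))))))))) z))))))))))))))))))))) z)))) z) z)))) z)))))))),
 by decide +kernel⟩
theorem i10394 : ∃ t, chkR KT RW t 10394 10398 = true := ⟨(n
 0x18eba8a89360449901d74d06b1cc35cd9c2e531172548994c70c663a812a240 (n 0x263ae (n 707 (n 2 z (n
 3282443 z (n 10 z z))) (n 715 (n 0 z (n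
 0x6a84c8060382281e8208208207e08208a07a08637a08218227e086082185e8a18208207a081e8208617e00801 z
 (n 3278363 z (n 0 z (n 6427979 z (n 18 z z)))))) (n 706 (n
 0xac84a806037e182282085e85e8df85e7e17e17e47607e18207e08607e07e17e07a08a07e089d85f81f85f0801 z
 (n 3212843 z (n 0 z (n 0 z (n 0 z (n 0 z (n
 0xc8482060782081f85f81f8608208217e18208207a082082082082082281f85f8608208e085f8208208200801 z (n
 0 z (n 0 z (n 0 z (n 26 z (n 34 z (n 0 z (n 0 z (n 6427979 z (n 0 z (n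
 0x2ca6ca600786182085f85f8a17e279e89f72389d85c85f7e082082082181f85d8618207e185b8218a08220801 z
 (n 42 z z)))))))))))))))))) (n 3 (n 6636307 z (n 0 z (n 6636307 z (n 50 z (n 0 z (n 58 z
 z)))))) (n 1 (n 6636307 z (n 66 z (n 74 z z))) (n 0 (n 6636307 z (n 0 z (n 0 z (n 0 z (n 0 z (n
 82 z (n 0 z (n 0 z (n 0 z (n 90 z (n 0 z z))))))))))) z)))))) (n 707 (n 0 (n 0 z (n 1431 (n 0 z
 (n 0 z (n 0 z (n 0 z (n 0 z (n 0 z (n 2 (n 2 (n 0 z (n 0 z (n 0 z (n 0 z (n 0 z (n 0 z z))))))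
 (n 2 (n 0 z (n 0 z (n 0 z (n 0 z (n 0 z (n 0 z z)))))) (n 2 (n 0 (n 8791899 z z) (n 0 z (n 0 (n
 8861275 z (n 8659059 z z)) (n 0 z (n 0 z (n 0 (n 8525323 z z) z)))))) (n 2 (n 0 z (n 0 z (n 0
 (n 8868899 z z) (n 0 z (n 0 z (n 0 z z)))))) (n 2 (n 0 z (n 0 z (n 0 (n 8868899 z z) (n 0 z (n
 0 z (n 0 z z)))))) (n 2 (n 0 z (n 0 z (n 0 z (n 0 z (n 0 z (n 0 z z)))))) (n 1 z (n 1 z (n 2 (n
 0 z (n 0 z (n 0 (n 8868899 z z) (n 0 z (n 0 z (n 0 z z)))))) z))))))))) z))))))) (n 263 (n 0 z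
 (n 0 z (n 0 z (n 0 z (n 0 z (n 0 z (n 0 z (n 0 z (n 0 z (n 0 z (n 0 z (n 0 z (n 0 z (n 2 (n 0 z
 (n 0 z (n 2 (n 0 z (n 0 z (n 0 z (n 0 z (n 0 z (n 0 z z)))))) (n 2 (n 0 z (n 0 z (n 0 z (n 0 z
 (n 0 z (n 0 z z)))))) (n 2 (n 0 z (n 0 z (n 0 z (n 0 z (n 0 z (n 0 z z)))))) (n 1 z (n 1 z (n 2
 (n 0 z (n 0 z (n 0 z (n 0 z (n 0 z (n 0 z z)))))) z)))))))) (n 0 z (n 0 z (n 0 z (n 0 z (n 0 z
 (n 0 z (n 0 z z))))))))))))))))))))) (n 263 (n 0 z (n 0 z (n 0 z (n 0 z (n 0 z (n 0 z (n 0 z (n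
 0 z (n 0 z (n 0 z (n 0 z (n 0 z (n 0 z (n 0 z (n 0 z (n 0 z (n 0 z (n 2 (n 0 z (n 2 (n 0 z (n 0
 z (n 0 z (n 0 z (n 0 z (n 0 z z)))))) (n 2 (n 0 z (n 0 z (n 0 z (n 0 z (n 0 z (n 0 z z)))))) (n
 2 (n 0 z (n 0 z (n 0 z (n 0 z (n 0 z (n 0 z z)))))) (n 1 z (n 1 z (n 2 (n 0 z (n 0 z (n 0 z (n
 0 z (n 0 z (n 0 z z)))))) z))))))) (n 0 z (n 0 z (n 0 z z))))))))))))))))))))) (n 263 (n 0 z (n
 0 z (n 0 z (n 0 z (n 0 z (n 0 z (n 0 z (n 0 z (n 0 z (n 0 z (n 0 z (n 0 z (n 0 z (n 0 z (n 0 z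
 (n 0 z (n 0 z (n 0 z (n 0 z (n 0 z (n 0 z z))))))))))))))))))))) (n 11 (n 0 z (n 0 z (n 0 z (n
 0 z (n 0 z (n 2 (n 0 z (n 2 (n 0 z (n 0 z (n 0 z (n 0 z (n 0 z (n 0 z z)))))) (n 2 (n 0 z (n 0
 z (n 0 (n 8802611 z z) (n 0 z (n 0 z (n 0 z z)))))) (n 2 (n 0 z (n 0 z (n 0 z (n 0 z (n 0 z (n
 0 z z)))))) (n 2 (n 0 z (n 0 z (n 0 z (n 0 z (n 0 z (n 0 z z)))))) z))))) z)))))) (n 11 (n 0 z
 (n 0 z (n 0 z (n 2 (n 2 (n 0 z (n 0 z (n 0 z (n 0 z (n 0 z (n 0 z z)))))) (n 2 (n 0 z (n 0 z (n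
 0 (n 8802611 z z) (n 0 z (n 0 z (n 0 z z)))))) (n 2 (n 0 z (n 0 z (n 0 z (n 0 z (n 0 z (n 0 z
 z)))))) (n 2 (n 0 z (n 0 z (n 0 z (n 0 z (n 0 z (n 0 z z)))))) z)))) (n 0 z (n 0 z z)))))) (n 3
 (n 0 z (n 2 (n 0 z (n 1 z (n 2 (n 0 z (n 0 z (n 0 z (n 0 z (n 0 z (n 0 z z)))))) z))) (n 0 z (n
 0 z z)))) (n 3 (n 0 z (n 0 z (n 0 z (n 0 z z)))) (n 1 (n 0 z (n 0 z (n 0 z (n 0 z (n 0 z (n 0 z
 (n 0 z (n 0 z z)))))))) (n 1 (n 0 z (n 0 z (n 0 z (n 0 z (n 0 z (n 0 z (n 2 z (n 0 z z))))))))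
 z))))))))))) (n 0 (n 767 (n 0 z (n 0 z (n 0 z (n 0 z (n 0 z (n 0 z z)))))) (n 1413 (n 0 z (n 2
 (n 0 z (n 0 z (n 2 (n 0 z (n 0 z (n 0 z (n 0 z (n 0 z (n 0 z z)))))) (n 2 (n 0 z (n 0 z (n 0 z
 (n 0 z (n 0 z (n 0 z z)))))) (n 2 (n 0 z (n 0 z (n 0 z (n 0 z (n 0 z (n 0 z z)))))) (n 1 z (n 1
 z (n 2 (n 0 z (n 0 z (n 0 z (n 0 z (n 0 z (n 0 z z)))))) z)))))))) (n 0 z (n 0 z (n 0 z (n 0 z
 (n 0 z (n 0 z (n 0 z (n 0 z (n 0 z z))))))))))) (n 1413 (n 0 z (n 0 z (n 0 z (n 0 z (n 0 z (n 0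
 z (n 0 z (n 0 z (n 0 z (n 0 z (n 0 z z))))))))))) (n 1413 (n 0 z (n 0 z (n 0 z (n 0 z (n 0 z (n
 0 z (n 0 z (n 0 z (n 0 z (n 0 z (n 0 z z))))))))))) (n 1405 (n 0 z (n 0 z (n 0 z (n 0 z z))))
 (n 1405 (n 0 z (n 0 z (n 0 z (n 0 z z)))) (n 757 (n 0 z (n 0 z (n 0 z z))) (n 757 (n 2 (n 1 z
 (n 2 (n 0 z (n 0 z (n 0 (n 8803363 z z) (n 0 z (n 0 z (n 0 z z)))))) z)) (n 0 z (n 0 z z))) (n
 725 (n 0 z (n 2 (n 0 z z) (n 0 z (n 0 z (n 0 z (n 0 z (n 0 z z))))))) (n 725 (n 0 z (n 0 z (n 0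
 z (n 0 z (n 0 z (n 0 z (n 0 z z))))))) z)))))))))) (n 0 (n 813 (n 0 z (n 0 z (n 0 z (n 0 z (n 0
 z (n 0 z (n 2 (n 0 z (n 0 z (n 1 z (n 2 (n 0 z (n 0 z (n 0 (n 8803363 z z) (n 0 z (n 0 z (n 0 z
 z)))))) (n 2 (n 0 z (n 0 z (n 0 (n 8803363 z z) (n 0 z (n 0 z (n 0 z z)))))) (n 1 z (n 1 z (n 1
 z z)))))))) z))))))) (n 813 (n 0 z (n 0 z (n 0 z (n 0 z (n 0 z (n 0 z (n 0 z z))))))) (n 813 (n
 0 z (n 0 z (n 0 z (n 0 z (n 0 z (n 0 z (n 0 z z))))))) (n 1153 (n 0 z (n 0 z (n 0 z (n 0 z (n 0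
 z (n 0 z (n 0 z (n 0 z (n 0 z (n 0 z (n 0 z (n 0 z (n 0 z (n 0 z (n 0 z (n 0 z (n 0 z (n 0 z (n
 0 z (n 0 z (n 0 z (n 0 z (n 0 z (n 0 z (n 0 z (n 0 z (n 0 z (n 0 z (n 0 z (n 0 z (n 0 z
 z))))))))))))))))))))))))))))))) (n 1153 (n 0 z (n 0 z (n 0 z (n 0 z (n 0 z (n 0 z (n 0 z (n 0
 z (n 0 z (n 0 z (n 0 z (n 0 z (n 0 z (n 0 z (n 0 z (n 0 z (n 0 z (n 0 z (n 0 z (n 0 z (n 0 z (n
 0 z (n 0 z (n 0 z (n 0 z (n 0 z (n 0 z (n 0 z (n 0 z (n 0 z (n 0 z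
 z))))))))))))))))))))))))))))))) (n 805 (n 0 z (n 0 z (n 0 z (n 0 z (n 0 z (n 0 z (n 0 z
 z))))))) (n 805 (n 2 (n 1 z (n 1 z z)) (n 0 z (n 0 z (n 0 z (n 0 z (n 0 z (n 0 z z))))))) (n 65
 (n 0 z (n 0 z (n 0 z (n 0 z (n 0 z (n 0 z (n 0 z (n 0 z (n 0 z (n 0 z (n 0 z (n 0 z (n 0 z (n 0
 z (n 0 z (n 0 z (n 0 z (n 0 z (n 0 z (n 0 z (n 0 z (n 0 z (n 0 z (n 0 z (n 2 (n 0 z z) (n 0 z
 (n 0 z (n 0 z (n 0 z (n 0 z (n 0 z (n 0 z z)))))))))))))))))))))))))))))))) (n 65 (n 0 z (n 0 z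
 (n 0 z (n 0 z (n 0 z (n 0 z (n 0 z (n 0 z (n 0 z (n 0 z (n 0 z (n 0 z (n 0 z (n 0 z (n 0 z (n 0
 z (n 0 z (n 0 z (n 0 z (n 0 z (n 0 z (n 0 z (n 0 z (n 0 z (n 0 z (n 0 z (n 0 z (n 0 z (n 0 z (n
 0 z (n 0 z (n 0 z z)))))))))))))))))))))))))))))))) z))))))))) (n 0 (n 0 z (n 0 z (n 1409 (n 0
 z (n 0 z (n 0 z (n 0 z (n 0 z (n 0 z (n 0 z (n 2 (n 0 z (n 2 (n 0 z (n 0 z (n 0 z (n 0 z (n 0 z
 (n 0 z z)))))) (n 2 (n 0 z (n 0 z (n 0 z (n 0 z (n 0 z (n 0 z z)))))) (n 2 (n 0 z (n 0 z (n 0 z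
 (n 0 z (n 0 z (n 0 z z)))))) (n 1 z z))))) (n 0 z (n 0 z (n 0 z z))))))))))) (n 1409 (n 0 z (n
 0 z (n 0 z (n 0 z (n 0 z (n 0 z (n 0 z (n 0 z (n 0 z (n 0 z (n 0 z z))))))))))) (n 857 (n 0 z
 (n 0 z (n 0 z (n 0 z (n 0 z (n 0 z (n 0 z (n 0 z (n 0 z (n 0 z (n 2 (n 0 z (n 1 z (n 2 (n 0 z
 (n 0 z (n 0 z (n 0 z (n 0 z (n 0 z z)))))) z))) z))))))))))) (n 857 (n 0 z (n 2 (n 1 z (n 2 (n
 0 z (n 0 z (n 0 z (n 0 z (n 0 z (n 0 z z)))))) z)) (n 0 z (n 0 z (n 0 z (n 0 z (n 0 z (n 0 z (n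
 0 z (n 0 z (n 0 z z))))))))))) (n 257 (n 0 z (n 0 z (n 0 z (n 2 (n 0 z z) (n 0 z (n 0 z (n 0 z
 z))))))) (n 257 (n 0 z (n 2 z (n 0 z (n 0 z (n 0 z (n 0 z (n 0 z z))))))) z)))))))) (n 0 (n 0 z
 (n 1165 (n 0 z (n 0 z (n 0 z (n 0 z (n 0 z (n 0 z (n 0 z z))))))) (n 1165 (n 0 z (n 0 z (n 0 z
 (n 0 z (n 0 z (n 0 z (n 0 z z))))))) (n 857 (n 0 z (n 0 z (n 0 z (n 0 z (n 0 z (n 0 z (n 0 z (n
 0 z (n 0 z (n 0 z (n 0 z (n 0 z (n 0 z (n 0 z (n 0 z (n 0 z (n 0 z (n 0 z (n 0 z (n 0 z (n 0 z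
 (n 0 z (n 0 z (n 0 z (n 0 z (n 0 z (n 0 z (n 0 z (n 0 z (n 0 z z))))))))))))))))))))))))))))))
 (n 857 (n 0 z (n 2 (n 1 z (n 2 (n 0 z (n 0 z (n 0 (n 8795147 z z) (n 0 z (n 0 z (n 0 z z))))))
 z)) (n 0 z (n 0 z (n 0 z (n 0 z (n 0 z (n 0 z (n 0 z (n 0 z (n 0 z (n 0 z (n 0 z (n 0 z (n 0 z
 (n 0 z (n 0 z (n 0 z (n 0 z (n 0 z (n 0 z (n 0 z (n 0 z (n 0 z (n 0 z (n 0 z (n 0 z (n 0 z (n 0
 z (n 0 z z)))))))))))))))))))))))))))))) (n 257 (n 0 z (n 0 z (n 0 z (n 0 z (n 0 z (n 0 z (n 2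
 (n 0 z z) (n 0 z (n 0 z (n 0 z z)))))))))) (n 257 (n 0 z (n 0 z (n 0 z (n 0 z (n 0 z (n 0 z (n
 0 z (n 0 z (n 0 z (n 0 z z)))))))))) z))))))) (n 0 (n 1181 (n 0 z (n 0 z (n 0 z (n 0 z (n 0 z
 (n 0 z (n 0 z (n 0 z (n 0 z (n 0 z (n 0 z (n 0 z (n 0 z (n 0 z z)))))))))))))) (n 1181 (n 0 z
 (n 0 z (n 0 z (n 0 z (n 0 z (n 0 z (n 0 z (n 0 z (n 0 z (n 0 z (n 0 z (n 0 z (n 0 z (n 0 z
 z)))))))))))))) (n 261 (n 0 z (n 0 z (n 0 z z))) (n 261 (n 0 z (n 0 z (n 0 z z))) (n 269 (n 0 z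
 (n 0 z (n 0 z (n 0 z (n 0 z (n 0 z (n 0 z (n 0 z (n 0 z (n 0 z z)))))))))) (n 269 (n 0 z (n 0 z
 (n 0 z (n 0 z (n 0 z (n 0 z (n 0 z (n 0 z (n 0 z (n 0 z z)))))))))) z)))))) (n 0 (n 0 z (n 9 (n
 0 z (n 0 z (n 0 z z))) (n 9 (n 0 z (n 2 (n 1 z (n 2 (n 0 z (n 0 z (n 0 (n 8803363 z z) (n 0 z
 (n 0 z (n 0 z z)))))) z)) (n 0 z z))) (n 5 (n 0 z (n 0 z (n 0 z (n 0 z (n 0 z (n 0 z (n 0 z (n
 2 (n 0 z z) z)))))))) (n 5 (n 0 z (n 0 z (n 0 z (n 0 z (n 0 z (n 0 z (n 0 z (n 0 z z))))))))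
 z))))) (n 0 (n 3 (n 0 z (n 0 z (n 0 z (n 0 z (n 0 z (n 0 z (n 0 z z))))))) (n 3 (n 0 z (n 0 z
 (n 0 z (n 0 z (n 0 z (n 2 (n 1 z (n 2 (n 0 z (n 0 z (n 0 (n 8803363 z z) (n 0 z (n 0 z (n 0 z
 z)))))) z)) (n 0 z z))))))) (n 5 (n 0 z (n 0 z (n 2 (n 0 z z) z))) (n 5 (n 0 z (n 0 z (n 0 z
 z))) z)))) (n 0 (n 0 z (n 1 (n 0 z (n 0 z (n 0 z (n 2 (n 0 z z) (n 0 z (n 0 z (n 0 z z)))))))
 (n 1 (n 0 z (n 0 z (n 0 z (n 0 z (n 0 z (n 0 z (n 0 z z))))))) z))) (n 0 (n 961 (n 0 z (n 0 z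
 (n 0 z (n 0 z (n 0 z z))))) (n 961 (n 2 z (n 0 z (n 0 z (n 0 z (n 0 z z))))) z)) (n 0 (n 0 z z)
 (n 0 z z)))))))))))) (n 0 (n 1 (n 5724 z (n 5724 z (n 5724 z (n 5724 z (n 5724 z (n 5724 z
 z)))))) (n 1 (n 3282443 z (n 3282443 z (n 3282443 z (n 3282443 z (n 3282443 z (n 3282443 z
 z)))))) (n 1 (n 5724 z (n 5724 z (n 5724 z (n 5724 z (n 5724 z (n 2 z z)))))) z))) (n 0 (n
 0x82a24d90224c2a913292a240 (n 0 (n 0 (n 7754787 z (n 7754787 z (n 7754787 z (n 7754787 z (n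
 7754787 z (n 7754787 z z)))))) z) (n 0 (n 707 (n 1 (n 3068 z (n 3068 z (n 3068 z (n 2 z (n 3068
 z (n 7610467 z z)))))) (n 1 (n 3282699 z (n 3282699 z (n 3282699 z (n 3282699 z (n 3282699 z (n
 7610467 z z)))))) (n 1 (n 7754787 z (n 7754787 z (n 7754787 z (n 7754787 z (n 7754787 z (n
 7754787 z z)))))) z))) (n 407 (n 1 (n 7610467 z (n 7610467 z (n 7610467 z (n 7610467 z (n
 7610467 z (n 7610467 z z)))))) (n 1 (n 5724 z (n 5724 z (n 5724 z (n 5724 z (n 7746571 z (n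
 5724 z z)))))) (n 1 (n 5724 z (n
 0x376576520380ec8ec80037e16e67a07a87e37a19e18216de7615639658e281c6e48df9a26e375e7e085989ba5ba636a21001
 z (n 5724 z (n 5724 z (n 7746571 z (n 5724 z z)))))) (n 1 (n 3278619 z (n 5517427 z (n 4400923
 z (n 4400923 z (n 4400923 z (n 4400923 z z)))))) (n 1 (n 7746571 z (n 7476555 z (n 7476555 z (n
 7476555 z (n 7476555 z (n 7476555 z z)))))) (n 1 (n 5724 z (n 5724 z (n 5724 z (n 5724 z (n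
 5724 z (n 7746571 z z)))))) z)))))) (n 430 (n 1 (n 4392731 z (n 7684883 z (n 4392731 z (n
 4392731 z (n 4392731 z (n 4392731 z z)))))) (n 1 (n 7610467 z (n 7684883 z (n 7610467 z (n
 7610467 z (n 7610467 z (n 7610467 z z)))))) (n 1 (n 7476555 z (n 7684883 z (n 7476555 z (n
 7476555 z (n 7476555 z (n 7476555 z z)))))) (n 1 (n 5660 z (n 7684883 z (n 5660 z (n 5660 z (n
 5660 z (n 5660 z z)))))) (n 1 (n 5660 z (n 7684883 z (n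
 0x176261040382ec8e820038628df7e17df7dc85f7dd85e7a28227628a28607a28a07e17a071e81f82086481d8609607df1001
 z (n 5660 z (n 4396907 z (n 5660 z z)))))) (n 1 (n 7610467 z (n 7684883 z (n 7610467 z (n
 7610467 z (n 7610467 z (n 7610467 z z)))))) (n 1 (n 5660 z (n 7684883 z (n 5660 z (n 10 z (n
 3213163 z (n 5660 z z)))))) z))))))) (n 4 (n 1 (n 7684883 z (n 7684883 z (n 7684883 z (n
 7684883 z (n 7684883 z (n 7684883 z z)))))) (n 1 (n 4329587 z (n 5660 z (n 5660 z (n 4331275 z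
 (n 4652 z (n 5660 z z)))))) (n 1 (n 7684883 z (n 7684883 z (n 7684883 z (n 7684883 z (n 7684883
 z (n 7684883 z z)))))) z))) (n 453 (n 1 (n 18 z (n 3612 z (n 3612 z (n 3612 z (n 6489947 z (n
 3612 z z)))))) (n 1 (n 7610467 z (n 7610467 z (n 7610467 z (n 7610467 z (n 7610467 z (n 7610467
 z z)))))) (n 1 (n 7684883 z (n 7684883 z (n 7684883 z (n 7684883 z (n 7684883 z (n 7684883 z
 z)))))) z))) (n 467 (n 1 (n 7610467 z (n 7610467 z (n 7610467 z (n 7610467 z (n 7610467 z (n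
 7610467 z z)))))) (n 1 (n 26 z (n 268 z (n 268 z (n 268 z (n 7746571 z (n 268 z z)))))) (n 0 z
 (n 1 (n 268 z (n 1036 z (n 268 z (n 268 z (n 7746571 z (n 268 z z)))))) (n 1 (n 4261675 z (n
 268 z (n 268 z (n 268 z (n 268 z (n 7746571 z z)))))) (n 1 (n 7684883 z (n 7684883 z (n 7684883
 z (n 7684883 z (n 7684883 z (n 7684883 z z)))))) (n 1 (n 7684883 z (n 7684883 z (n 7684883 z (n
 7684883 z (n 7684883 z (n 7684883 z z)))))) z))))))) (n 707 (n 1 (n 5724 z (n 5724 z (n 5724 z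
 (n 5724 z (n 7746571 z (n 5724 z z)))))) (n 1 (n 3282699 z (n 3282699 z (n 3282699 z (n 7746571
 z (n 3282699 z (n 3282699 z z)))))) (n 1 (n 7754787 z (n 7754787 z (n 7754787 z (n 7754787 z (n
 7754787 z (n 7754787 z z)))))) z))) z))))))) (n 0 (n 0 (n 0 z (n 0 z (n 0 z (n 0 z z)))) (n 0
 (n 0 z (n 0 z (n 0 z z))) (n 0 (n 0 z (n 0 z z)) (n 0 (n 0 z z) z)))) (n 0 (n 407 (n 0 (n 0 z
 (n 0 z (n 0 z (n 0 z z)))) (n 0 (n 0 z (n 0 z (n 0 z (n 0 z z)))) (n 0 (n 0 z (n 0 z (n 0 (n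
 8795995 z z) (n 0 z z)))) (n 0 (n 0 z (n 0 z (n 0 (n 8868147 z z) (n 0 z z)))) (n 0 (n 0 z (n 0
 z (n 0 z (n 0 z z)))) (n 0 (n 0 z (n 0 z (n 0 z (n 0 z z)))) z)))))) (n 707 (n 0 (n 0 z (n 0 z
 (n 0 z (n 0 z z)))) (n 0 (n 0 z (n 0 z (n 0 z (n 0 z z)))) (n 0 (n 0 (n 8857179 z z) (n 0 (n
 8859987 z z) (n 0 z (n 0 z z)))) (n 0 (n 0 z (n 0 z (n 0 z (n 0 z z)))) (n 0 (n 0 z (n 0 z (n 0
 z (n 0 z z)))) (n 0 (n 0 z (n 0 z (n 0 z (n 0 z z)))) (n 0 (n 0 z (n 0 z (n 0 z (n 0 z z)))) (n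
 0 (n 0 z (n 0 z (n 0 z (n 0 z z)))) (n 0 (n 0 z (n 0 z (n 0 z (n 0 z z)))) (n 0 (n 0 z (n 0 z
 (n 0 (n 8659043 z z) (n 0 z z)))) (n 0 (n 0 z (n 0 z (n 0 z (n 0 z z)))) z))))))))))) (n 430 (n
 0 (n 0 z (n 0 z (n 0 z (n 0 z z)))) (n 0 (n 0 z (n 0 z (n 0 z (n 0 z z)))) (n 0 (n 0 z (n 0 z
 (n 0 z (n 0 z z)))) (n 0 (n 0 z (n 0 z (n 0 (n 8795995 z z) (n 0 z z)))) (n 0 (n 0 z (n 0 z (n
 0 z (n 0 z z)))) (n 0 (n 0 z (n 0 z (n 0 z (n 0 z z)))) (n 0 (n 0 z (n 0 z (n 0 z (n 0 z z))))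
 z))))))) (n 707 (n 0 (n 0 z (n 0 z (n 0 z (n 0 z z)))) (n 0 (n 0 z (n 0 z (n 0 z (n 0 z z))))
 (n 0 (n 0 z (n 0 z (n 0 z (n 0 z z)))) (n 0 (n 0 z (n 0 z (n 0 (n 8733459 z z) (n 0 z z))))
 z)))) (n 581 (n 0 (n 0 z (n 0 z (n 0 z (n 0 z z)))) (n 0 (n 0 (n 8795995 z z) (n 0 z (n 0 z (n
 0 (n 8872459 z z) z)))) (n 0 (n 0 z (n 0 z (n 0 (n 8872459 z z) (n 0 z z)))) (n 0 (n 0 (n
 8525579 z (n 8795995 z z)) (n 0 (n 8859987 z (n 8859987 z z)) (n 0 (n 8855811 z (n 8855811 z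
 z)) (n 0 (n 8855811 z (n 8855811 z z)) z)))) (n 0 (n 0 z (n 0 z (n 0 z (n 0 z z)))) (n 0 (n 0 z
 (n 0 z (n 0 (n 8855811 z (n 8855811 z z)) (n 0 z z)))) (n 0 (n 0 (n
 0x358607a479d89f85b95b7df9238237dc85c7219e28e589d3ef85f7dc69d62665b821826bdaa25aa20041 z z) (n
 0 z (n 0 z (n 0 z z)))) (n 0 (n 0 (n 8857179 z z) (n 0 z (n 0 z (n 0 (n
 0x30c8ec84078208207e08208218208208208208208208208208208208208208208208208208208208208200801 z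
 z) z)))) (n 0 (n 0 z (n 0 z (n 0 z (n 0 z z)))) (n 0 (n 0 (n 8525579 z (n 5376027 z z)) (n 0 z
 (n 0 (n 8855811 z (n 8855811 z z)) (n 0 (n 8855811 z (n 8855811 z z)) z)))) (n 0 (n 0 z (n 0 z
 (n 0 (n 8523891 z (n 8525579 z z)) (n 0 z z)))) (n 0 (n 0 z (n 0 z (n 0 z (n 0 (n 8795147 z z)
 z)))) (n 0 (n 0 z (n 0 z (n 0 (n 8523891 z (n 8525131 z z)) (n 0 z z)))) (n 0 (n 0 z (n 0 z (n
 0 (n 8855811 z z) (n 0 z z)))) (n 0 (n 0 z (n 0 z (n 0 z (n 0 z z)))) (n 0 (n 0 z (n 0 z (n 0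
 (n 8525579 z z) (n 0 z z)))) (n 0 (n 0 z (n 0 z (n 0 z (n 0 z z)))) (n 0 (n 0 z (n 0 z (n 0 z
 (n 0 z z)))) (n 0 (n 0 z (n 0 z (n 0 z (n 0 (n
 0x30c4ec08078208207e08208208208208208208208208208208208208208208208208208208608208208200801 z
 z) z)))) (n 0 (n 0 z (n 0 z (n 0 z (n 0 z z)))) (n 0 (n 0 (n 8795147 z (n 8795147 z z)) (n 0 z
 (n 0 z (n 0 (n 8523891 z (n 8795147 z z)) z)))) (n 0 (n 0 (n 8525579 z z) (n 0 z (n 0 z (n 0 z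
 z)))) (n 0 (n 0 (n 8795995 z (n
 0x30c8ec84078208207e081f8218208208208208208208208208208208208208208208208208208208208200801 z
 z)) (n 0 z (n 0 (n 8525579 z (n
 0x30caec840782082082081f8218208208208208208208208208208208208208208208208208208208208200801 z
 z)) (n 0 (n
 0x187676240184ec90864038a17a07e299c89e86279b91d8df7218228617647e47e181f85c81e8e27e25667a37e17a285e1001
 z (n
 0x30c8ec84078208207e081f8218208208208208208208208208208208208208208208208208208208208200801 z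
 z)) z)))) (n 0 (n 0 z (n 0 z (n 0 (n 8795147 z (n 8795147 z z)) (n 0 z z)))) (n 0 (n 0 (n
 0x50caca840781f82182082081f8208607e182182085f7e08607e081f82082086082082081e8217e08a08200801 z
 (n 0x30c8ec840782086082181f8618208208208208207df8208208208208208208208208208208208208208200801
 z z)) (n 0 (n
 0x864654203810e8ec80038207e18208208208208608218218208608208607e07e08207e082082082081f8218208208201001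
 z (n
 0x762860403830caca84078208217e08208208208608208218208208208607e07df8208208608217e081f8218208608201001
 z z)) (n 0 z (n 0 (n
 0x30caca84078208207e082081f8208608218218208207e085f7e081f82082085f82082085f86182186081f0801 z
 (n 0x30c8ec840782086082181f8618208208208208207df8208208208208208208208208208208208208208200801
 z z)) z)))) (n 0 (n 0 z (n 0 z (n 0 z (n 0 z z)))) (n 0 (n 0 z (n 0 z (n 0 z (n 0 z z)))) (n 0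
 (n 0 z (n 0 z (n 0 z (n 0 z z)))) (n 0 (n 0 z (n 0 z (n 0 z (n 0 z z)))) (n 0 (n 0 z (n 0 z (n
 0 z (n 0 z z)))) (n 0 (n 0 z (n 0 z (n 0 (n 8525579 z z) (n 0 z z))))
 z))))))))))))))))))))))))))))))) (n 583 (n 0 (n 0 z (n 0 z (n 0 z (n 0 z z)))) (n 0 (n 0 z (n 0
 z (n 0 z (n 0 z z)))) (n 0 (n 0 z (n 0 z (n 0 z (n 0 z z)))) (n 0 (n 0 (n 8857179 z z) (n 0 (n
 8859987 z z) (n 0 z (n 0 z z)))) (n 0 (n 0 z (n 0 z (n 0 z (n 0 z z)))) (n 0 (n 0 (n 8659043 z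
 z) (n 0 z (n 0 z (n 0 z z)))) (n 0 (n 0 z (n 0 z (n 0 z (n 0 z z)))) z))))))) (n 453 (n 0 (n 0
 z (n 0 z (n 0 z (n 0 z z)))) (n 0 (n 0 z (n 0 z (n 0 z (n 0 z z)))) (n 0 (n 0 z (n 0 z (n 0 z
 (n 0 z z)))) z))) (n 451 (n 0 (n 0 z (n 0 z (n 0 z (n 0 z z)))) (n 0 (n 0 z (n 0 z (n 0 z (n 0
 z z)))) (n 0 (n 0 (n 8795995 z z) (n 0 (n
 0x30cb0ca40779f7648607637e382096282171f7a06a18e28e089c7638608a37637218208998db95c9a27610801 z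
 z) (n 0 z (n 0 z z)))) (n 0 (n 0 z (n 0 z (n 0 (n 8855811 z z) (n 0 z z)))) (n 0 (n 0 z (n 0 z
 (n 0 z (n 0 z z)))) (n 0 (n 0 z (n 0 z (n 0 z (n 0 z z)))) (n 0 (n 0 z (n 0 z (n 0 z (n 0 z
 z)))) z))))))) (n 452 (n 0 (n 0 z (n 0 z (n 0 z (n 0 z z)))) (n 0 (n 0 z (n 0 z (n 0 z (n 0 z
 z)))) (n 0 (n 0 z (n 0 (n 8804155 z z) (n 0 z (n 0 z z)))) (n 0 (n 0 z (n 0 z (n 0 z (n 0 z
 z)))) (n 0 (n 0 z (n 0 z (n 0 (n 8855811 z z) (n 0 z z)))) (n 0 (n 0 z (n 0 z (n 0 z (n 0 z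
 z)))) (n 0 (n 0 z (n 0 z (n 0 (n 8733459 z z) (n 0 z z)))) (n 0 (n 0 z (n 0 (n 8733459 z z) (n
 0 z (n 0 (n 8733459 z z) z)))) (n 0 (n 0 z (n 0 z (n 0 z (n 0 z z)))) (n 0 (n 0 z (n 0 z (n 0
 (n 8523891 z (n 0x10c4ec0a070821 z z)) (n 0 z z)))) (n 0 (n 0 z (n 0 z (n 0 z (n 0 z z)))) (n 0
 (n 0 z (n 0 z (n 0 z (n 0 z z)))) (n 0 (n 0 z (n 0 z (n 0 z (n 0 z z)))) (n 0 (n 0 z (n 0 z (n
 0 z (n 0 z z)))) (n 0 (n 0 z (n 0 z (n 0 z (n 0 (n 8733459 z z) z)))) (n 0 (n 0 (n 8733459 z (n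
 8733459 z z)) (n 0 z (n 0 (n 8733459 z (n 8733459 z z)) (n 0 (n 8733459 z (n 8733459 z z))
 z)))) (n 0 (n 0 z (n 0 z (n 0 z (n 0 z z)))) (n 0 (n 0 z (n 0 z (n 0 z (n 0 z z)))) (n 0 (n 0 z
 (n 0 z (n 0 z (n 0 z z)))) (n 0 (n 0 z (n 0 z (n 0 z (n 0 z z)))) (n 0 (n 0 z (n 0 z (n 0 z (n
 0 z z)))) (n 0 (n 0 z (n 0 z (n 0 z (n 0 z z)))) (n 0 (n 0 z (n 0 z (n 0 z (n 0 z z)))) (n 0 (n
 0 z (n 0 z (n 0 (n 8523891 z (n 8587035 z z)) (n 0 z z)))) (n 0 (n 0 z (n 0 z (n 0 z (n 0 z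
 z)))) (n 0 (n 0 z (n 0 z (n 0 z (n 0 z z)))) (n 0 (n 0 z (n 0 z (n 0 z (n 0 z z)))) (n 0 (n 0 z
 (n 0 z (n 0 z (n 0 z z)))) (n 0 (n 0 z (n 0 z (n 0 z (n 0 (n
 0x4ea3080c0381f7a07a18208208208608208608607e082082182082082086086186082181f8208618608200801 z
 z) z)))) (n 0 (n 0 (n
 0x1842751601810cb0ca00381f7e18208208208208608208208207e08208207e082082076082082082081f8208208218601001
 z z) (n 0 z (n 0 z (n 0 (n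
 0x1842751601810cb0ca00381f7e18208208208208608208208207e08208207e082082076082082082081f8208208218601001
 z z) z)))) z)))))))))))))))))))))))))))))) (n 5 (n 0 (n 0 z (n 0 z (n 0 z (n 0 z z)))) (n 0 (n
 0 z (n 0 z (n 0 z (n 0 z z)))) (n 0 (n 0 z (n 0 z (n 0 z (n 0 z z)))) z))) (n 467 (n 0 (n 0 z
 (n 0 z (n 0 z (n 0 z z)))) (n 0 (n 0 z (n 0 z (n 0 z (n 0 z z)))) (n 0 (n 0 z (n 0 z (n 0 z (n
 0 z z)))) (n 0 (n 0 z (n 0 z (n 0 z (n 0 z z)))) (n 0 (n 0 z (n 0 (n 8804155 z (n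
 0xd87382081f7e185f85f8208a17a17de81f81f8a182085f72481f8608607e27607df7e08df8628a00041 z z)) (n
 0 z (n 0 (n 8847899 z (n 8847899 z z)) z)))) (n 0 (n 0 z (n 0 z (n 0 z (n 0 z z)))) (n 0 (n 0 z
 (n 0 (n 8733459 z z) (n 0 z (n 0 (n 8733459 z z) z)))) z))))))) (n 33 (n 0 (n 0 z (n 0 z (n 0
 (n 8525579 z z) (n 0 z z)))) (n 0 (n 0 (n
 0x30ecc648078218228208208208608208208208207df82182085f7e082081f7a08217df82181f81f8608610801 z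
 (n 8525579 z z)) (n 0 (n 8804155 z (n 8587115 z z)) (n 0 (n
 0x10caec840782082082081f8208208208208208208208208208207e08208208208208208208218208208200801 z
 (n 0x30caec84078208208208208218208208208208208208208208208208208208208208208208208208208200801
 z z)) (n 0 (n
 0x30c8ec84078208207e081f8218208208208208208208208208208208208208208208208208208208208200801 z
 (n 0x1d8707e27df86085d8dd8208a18227de81e7a09218a389f5e885f7de75f72371d7e17e3a1d9239610041 z z))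
 z)))) (n 0 (n 0 z (n 0 z (n 0 z (n 0 (n
 0x30c8ec84078208207e08208218208208208208208208208208208208208208208208208208208208208200801 z
 z) z)))) (n 0 (n 0 z (n 0 z (n 0 z (n 0 z z)))) (n 0 (n 0 z (n 0 z (n 0 (n 8872459 z (n 8872459
 z z)) (n 0 z z)))) (n 0 (n 0 z (n 0 z (n 0 (n
 0x5432321901cf843643201810c8c804038a789e72c89c667a56b2e8df6c752619edf3924a9f56d7a2e0b99c66379c96e705be19248641801
 z (n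
 0x30caec84078208217e082082082086082082082081f8208208207e08208208208208208208208208208200801 z
 z)) (n 0 z z)))) (n 0 (n 0 (n 8868147 z (n 8868147 z z)) (n 0 z (n 0 z (n 0 (n 8868147 z (n
 8868147 z z)) z)))) (n 0 (n 0 z (n 0 z (n 0 (n 8868147 z (n 8868147 z z)) (n 0 z z)))) (n 0 (n
 0 z (n 0 z (n 0 (n 8525579 z (n
 0x30caec840782082082081f8218208208208208208208208208207e08208208208208208208208208208200801 z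
 z)) (n 0 z z)))) (n 0 (n 0 (n 8868147 z (n 8868147 z z)) (n 0 (n
 0xd87082081f7e185f85f8208a17a17de81f81f8a182085f72481f8608607e27607df7e08df8628a00041 z (n
 8804155 z z)) (n 0 (n 8855811 z (n 8855811 z z)) (n 0 (n 8855811 z (n 8855811 z z)) z)))) (n 0
 (n 0 (n
 0x30c8ec84078208207e08208218208208208208208208208208208208208208208208208208208208208200801 z
 z) (n 0 z (n 0 z (n 0 z z)))) (n 0 (n 0 (n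
 0x2d0ed0c4807737d6fa2997f839a65908d87818171847386678779976c807283c34e5b98859557847bb48f544dbd7565919f746951a465700809
 z (n
 0x30c8ec84078208207e081f8218208208208208208208208208208208208208208208208208208208208200801 z
 z)) (n 0 z (n 0 (n
 0x30caec840782082082081f8218208208208208208208208208207e08208208208208208208208208208200801 z
 (n 0x30caec840782082082081f8218208208208208208208208208208208208208208208208208208208208200801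
 z z)) (n 0 (n 8525579 z (n
 0x30c8ec84078208207e081f8218208208208208208208208208208208208208208208208208208208208200801 z
 z)) z)))) (n 0 (n 0 z (n 0 z (n 0 z (n 0 (n 8855811 z z) z)))) (n 0 (n 0 z (n 0 z (n 0 (n
 8868147 z (n 8868147 z z)) (n 0 z z)))) (n 0 (n 0 z (n 0 z (n 0 (n 8872459 z z) (n 0 z z)))) (n
 0 (n 0 z (n 0 z (n 0 z (n 0 z z)))) (n 0 (n 0 z (n 0 (n 8804155 z (n
 0x158738227df86085e89e81f8a282181e81e7e08a086285f66685f81e79f76375d7e082199d9229210041 z z)) (n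
 0 z (n 0 (n 8868147 z (n 8868147 z z)) z)))) (n 0 (n 0 z (n 0 z (n 0 z (n 0 z z)))) (n 0 (n 0 z
 (n 0 z (n 0 z (n 0 z z)))) (n 0 (n 0 z (n 0 z (n 0 z (n 0 z z)))) (n 0 (n 0 z (n 0 z (n 0 z (n
 0 z z)))) (n 0 (n 0 z (n 0 z (n 0 (n 8803363 z z) (n 0 z z)))) (n 0 (n 0 (n 8868147 z z) (n 0 z
 (n 0 z (n 0 z z)))) (n 0 (n 0 z (n 0 z (n 0 (n 8523891 z (n 8455227 z z)) (n 0 z z)))) (n 0 (n
 0 z (n 0 z (n 0 z (n 0 z z)))) (n 0 (n 0 z (n 0 z (n 0 z (n 0 z z)))) (n 0 (n 0 z (n 0 z (n 0 z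
 (n 0 z z)))) (n 0 (n 0 z (n 0 z (n 0 (n
 0x3864860201870c8c80407815a9261989ea6a7e365b95fa9f7a499f8226558199218188acd5c7ac81b69f8dc7a752289d1001
 z (n
 0x30caec84078208208208208218208208208208208208208208208208208208208208208208208208208200801 z
 z)) (n 0 z z)))) (n 0 (n 0 z (n 0 z (n 0 z (n 0 z z)))) (n 0 (n 0 z (n 0 z (n 0 (n 8855811 z z)
 (n 0 z z)))) (n 0 (n 0 z (n 0 z (n 0 (n 8855811 z (n 8855811 z z)) (n 0 z z)))) (n 0 (n 0 z (n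
 0 z (n 0 z (n 0 z z)))) z)))))))))))))))))))))))))))))))) (n 129 (n 0 (n 0 z (n 0 z (n 0 z (n 0
 z z)))) (n 0 (n 0 z (n 0 z (n 0 z (n 0 z z)))) (n 0 (n 0 z (n 0 z (n 0 z (n 0 z z)))) (n 0 (n 0
 z (n 0 z (n 0 (n 8733459 z z) (n 0 z z)))) (n 0 (n 0 z (n 0 (n 8733459 z z) (n 0 z (n 0 (n
 8733459 z z) z)))) (n 0 (n 0 z (n 0 z (n 0 z (n 0 z z)))) (n 0 (n 0 z (n 0 z (n 0 z (n 0 z
 z)))) (n 0 (n 0 z (n 0 z (n 0 z (n 0 z z)))) (n 0 (n 0 z (n 0 z (n 0 z (n 0 z z)))) (n 0 (n 0 z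
 (n 0 z (n 0 (n 8855811 z z) (n 0 z z)))) z)))))))))) (n 3 (n 0 (n 0 z (n 0 z (n 0 z (n 0 z
 z)))) (n 0 (n 0 z (n 0 z (n 0 (n 8523891 z (n 8525579 z z)) (n 0 z z)))) (n 0 (n 0 (n 8525579 z
 (n 8847899 z z)) (n 0 z (n 0 z (n 0 (n 8523891 z (n 8525579 z z)) z)))) (n 0 (n 0 z (n 0 z (n 0
 z (n 0 z z)))) (n 0 (n 0 z (n 0 z (n 0 (n 8733459 z (n 8733459 z z)) (n 0 z z)))) (n 0 (n 0 z
 (n 0 z (n 0 z (n 0 z z)))) (n 0 (n 0 z (n 0 z (n 0 z (n 0 z z)))) (n 0 (n 0 z (n 0 z (n 0 z (n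
 0 z z)))) z)))))))) (n 1 (n 0 (n 0 (n 8847899 z (n 8847899 z z)) (n 0 (n
 0xf0ed0ec0075e96fb9e452555f6d6b5c71e6e95a93f96239eda258917e68cd4a9b1266f7e17b3a5699951b0801 z
 (n 0xd87382081f7e185f85f8208a17a17de81f81f8a182085f72481f8608607e27607df7e08df8628a00041 z z))
 (n 0 z (n 0 z z)))) (n 0 (n 0 z (n 0 z (n 0 z (n 0 z z)))) (n 0 (n 0 z (n 0 z (n 0 z (n 0 z
 z)))) (n 0 (n 0 z (n 0 z (n 0 z (n 0 z z)))) (n 0 (n 0 z (n 0 z (n 0 z (n 0 z z)))) (n 0 (n 0 z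
 (n 0 z (n 0 z (n 0 z z)))) (n 0 (n 0 z (n 0 z (n 0 z (n 0 z z)))) z))))))) (n 707 (n 0 (n 0 z
 (n 0 z (n 0 z (n 0 z z)))) (n 0 (n 0 z (n 0 z (n 0 z (n 0 z z)))) (n 0 (n 0 z (n 0 z (n 0 z (n
 0 z z)))) z))) (n 715 (n 0 (n 0 z (n 0 z (n 0 (n 8855811 z z) (n 0 z z)))) (n 0 (n 0 z (n 0 z
 (n 0 (n 8872459 z z) (n 0 z z)))) (n 0 (n 0 (n 8868147 z z) (n 0 (n 8859987 z z) (n 0 z (n 0 z
 z)))) (n 0 (n 0 z (n 0 z (n 0 (n 8855811 z (n 8855811 z z)) (n 0 z z)))) (n 0 (n 0 z (n 0 z (n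
 0 z (n 0 z z)))) (n 0 (n 0 z (n 0 z (n 0 z (n 0 z z)))) z)))))) (n 706 (n 0 (n 0 z (n 0 z (n 0
 z (n 0 z z)))) (n 0 (n 0 z (n 0 z (n 0 (n 8855811 z z) (n 0 z z)))) (n 0 (n 0 z (n 0 z (n 0 z
 (n 0 z z)))) (n 0 (n 0 z (n 0 z (n 0 z (n 0 z z)))) (n 0 (n 0 (n
 0x358737a479d89f85b95b7df9238237dc85c7219e28e589d3ef85f7dc69d62665b821826bdaa25aa20041 z (n
 8525579 z z)) (n 0 (n
 0xd87382081f7e185f85f8208a17a17de81f81f8a182085f72481f8608607e27607df7e08df8628a00041 z (n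
 8804155 z z)) (n 0 (n 8587035 z (n
 0x30eb0ea60782082186186086082086081e8208207df7e18608217e182081f7e082081f8207df8208a08610801 z
 z)) (n 0 (n 8525579 z (n
 0x30c4e608077a16e78637a27208219617df75f6e46a68248627a27e182185d6e485b7e489f8a199b8a071f0801 z
 z)) z)))) (n 0 (n 0 (n
 0x30c4e6080382082082081f8208208208208208208208208208207e082082081f82182082081f8208208200801 z
 z) (n 0 z (n 0 z (n 0 (n 8587035 z z) z)))) (n 0 (n 0 z (n 0 z (n 0 z (n 0 z z)))) (n 0 (n 0 z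
 (n 0 z (n 0 z (n 0 z z)))) (n 0 (n 0 (n 7538795 z (n 8525579 z z)) (n 0 (n
 0x50e8e860037e08207e081f81f8208208218208208208208208208208608208208208208608208208208200801 z
 (n 0x30e90e60078208218208208218208208208208208208208207e08208208208208208208208208208208200801
 z z)) (n 0 z (n 0 z z)))) (n 0 (n 0 (n
 0x30c4e6080382082082081f8208208208208208208208208208207e08208608208218208218208208208200801 z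
 z) (n 0 (n
 0x30e90e80038207e07e08207df8208607e08208208608208217e082086182086182082085f8618208207df0801 z
 z) (n 0 z (n 0 z z)))) (n 0 (n 0 z (n 0 z (n 0 z (n 0 z z)))) (n 0 (n 0 z (n 0 z (n 0 z (n 0 z
 z)))) (n 0 (n 0 z (n 0 z (n 0 z (n 0 z z)))) (n 0 (n 0 z (n 0 z (n 0 z (n 0 z z)))) (n 0 (n 0 z
 (n 0 z (n 0 z (n 0 z z)))) (n 0 (n 0 z (n 0 z (n 0 z (n 0 z z)))) (n 0 (n 0 z (n 0 z (n 0 z (n
 0 z z)))) (n 0 (n 0 z (n 0 z (n 0 (n 8795995 z z) (n 0 z z)))) z)))))))))))))))))) (n 3 (n 0 (n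
 0 z (n 0 z (n 0 z (n 0 z z)))) (n 0 (n 0 z (n 0 z (n 0 (n 8587035 z z) (n 0 z z)))) (n 0 (n 0 z
 (n 0 z (n 0 z (n 0 z z)))) (n 0 (n 0 z (n 0 z (n 0 z (n 0 z z)))) (n 0 (n 0 z (n 0 z (n 0 z (n
 0 z z)))) (n 0 (n 0 z (n 0 z (n 0 z (n 0 z z)))) z)))))) (n 1 (n 0 (n 0 z (n 0 z (n 0 z (n 0 z
 z)))) (n 0 (n 0 z (n 0 z (n 0 z (n 0 z z)))) (n 0 (n 0 z (n 0 z (n 0 z (n 0 z z)))) z))) (n 0
 (n 0 (n 0 z (n 0 z (n 0 z (n 0 z z)))) (n 0 (n 0 z (n 0 z (n 0 z (n 0 z z)))) (n 0 (n 0 z (n 0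
 z (n 0 z (n 0 z z)))) (n 0 (n 0 z (n 0 z (n 0 z (n 0 z z)))) (n 0 (n 0 z (n 0 z (n 0 z (n 0 z
 z)))) (n 0 (n 0 z (n 0 z (n 0 z (n 0 z z)))) (n 0 (n 0 z (n 0 z (n 0 (n 8733459 z z) (n 0 z
 z)))) (n 0 (n 0 z (n 0 z (n 0 z (n 0 z z)))) (n 0 (n 0 z (n 0 z (n 0 z (n 0 z z)))) (n 0 (n 0 z
 (n 0 z (n 0 z (n 0 z z)))) (n 0 (n 0 z (n 0 z (n 0 z (n 0 z z)))) z)))))))))))
 z))))))))))))))))))))) z)))) z) z)))) (n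
 0xa593502c999075354325e48549520959261154b04aa5900d310099d40 (n 0x152c9 (n 155 (n 0 z (n 2 z (n
 0 z (n 6554139 z (n 0 z (n 0 z (n 0 z (n 0 z (n 3282443 z (n 0 z (n 10 z (n
 0xeca8a824038de86099e81f823a225628228a079e81f7dc7df8a19227e76df7d78628df82285e8a07618600801 z
 (n 0 z (n 18 z (n 3282443 z (n 0 z z)))))))))))))))) (n 33 (n
 0x6ca8a864037df8a182089e81e9206e08618a17a17a17e185e79f8e17a58217da7e08df7a382096089f8200801 z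
 (n 0xaca2a408038a77a38e285a89c7dd85e9a165f8e075f99989e8e27e281b81d7de89f85f8a572665f7a48df0801
 z (n 0 z (n 26 z (n 6627651 z (n
 0x6ca8a8040381f8608df6dd86091f76181f7e08618218648618628e18617a181c72189e8a389f7e18607600801 z
 (n 34 z z))))))) (n 9 (n 42 z (n 0 z (n 50 z (n 6627651 z z)))) (n 3 (n 0 z (n 58 z (n 6567195
 z (n 66 z z)))) (n 1 (n 6567195 z (n 74 z (n
 0x6ca8a6040781e8a08207e08218a17627608607e17df81f81e82089e7e376189e81f8617e285f8a081f8220801 z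
 (n 0 z (n 6554139 z (n 6554139 z (n
 0x8ca8a62407861aa46d866c928ad949c8e3b6555d4e35976db75a517a628b1a1485e9e365f8dac1981f69b0801 z
 (n 6554139 z z)))))))) (n 0 (n 82 z (n 0 z (n 0 z (n 6627651 z (n 6627651 z z))))) z)))))) (n 9
 (n 0 (n 0 z (n 0 z (n 755 (n 0 z (n 0 z (n 0 z (n 2 (n 0 z (n 2 (n 0 z (n 0 z (n 0 z (n 0 z (n
 0 z (n 0 z z)))))) (n 1 z (n 2 (n 0 z (n 0 z (n 0 z (n 0 z (n 0 z (n 0 z z)))))) (n 2 (n 0 z (n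
 0 z (n 0 z (n 0 z (n 0 z (n 0 z z)))))) (n 2 (n 0 z (n 0 z (n 0 z (n 0 (n 8855811 z z) (n 0 z
 (n 0 z z)))))) (n 2 (n 0 z (n 0 z (n 0 z (n 0 z (n 0 z (n 0 z z)))))) z))))))) (n 0 z (n 0 z (n
 0 z z))))))) (n 755 (n 0 z (n 0 z (n 0 z (n 0 z (n 2 (n 2 (n 0 z (n 0 z (n 0 z (n 0 z (n 0 z (n
 0 z z)))))) (n 1 z (n 2 (n 0 z (n 0 z (n 0 z (n 0 z (n 0 z (n 0 z z)))))) (n 1 z (n 2 (n 0 z (n
 0 z (n 0 z (n 0 z (n 0 z (n 0 z z)))))) (n 2 (n 0 z (n 0 z (n 0 z (n 0 z (n 0 z (n 0 z z))))))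
 z)))))) (n 0 z (n 0 z z))))))) (n 753 (n 2 (n 0 z (n 2 (n 0 z (n 0 z (n 0 z (n 0 z (n 0 z (n 0
 z z)))))) (n 2 (n 0 z (n 0 z (n 0 z (n 0 z (n 0 z (n 0 z z)))))) (n 1 z (n 1 z z))))) (n 0 z (n
 0 z (n 0 z (n 0 z (n 0 z (n 0 z (n 0 z z)))))))) (n 753 (n 0 z (n 0 z (n 0 z (n 0 z (n 2 (n 2
 (n 0 z (n 0 z (n 0 z (n 0 z (n 0 z (n 0 z z)))))) (n 1 z (n 2 (n 0 z (n 0 z (n 0 z (n 0 z (n 0
 z (n 0 z z)))))) (n 2 (n 0 z (n 0 z (n 0 z (n 0 z (n 0 z (n 0 z z)))))) z)))) (n 0 z (n 0 z (n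
 0 z z)))))))) (n 1209 (n 0 z (n 0 z (n 0 z (n 0 z (n 2 (n 0 z (n 2 (n 0 z (n 0 z (n 0 z (n 0 (n
 8855811 z z) (n 0 z (n 0 z z)))))) (n 2 (n 0 z (n 0 z (n 0 z (n 0 z (n 0 z (n 0 z z)))))) z)))
 (n 0 z (n 0 z (n 0 z (n 0 z (n 0 z (n 0 z (n 0 z (n 0 z (n 0 z (n 0 z z))))))))))))))) (n 1209
 (n 0 z (n 0 z (n 2 (n 2 (n 0 z (n 0 z (n 0 z (n 0 z (n 0 z (n 0 z z)))))) (n 2 (n 0 z (n 0 z (n
 0 z (n 0 z (n 0 z (n 0 z z)))))) z)) (n 0 z (n 0 z (n 0 z (n 0 z (n 0 z (n 0 z (n 0 z (n 0 z (n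
 0 z (n 0 z (n 0 z (n 0 z z))))))))))))))) (n 133 (n 0 z (n 0 z (n 2 (n 1 z z) (n 0 z (n 0 z (n
 0 z (n 0 z z))))))) (n 745 (n 0 z (n 0 z (n 2 z (n 0 z (n 0 z (n 0 z (n 0 z (n 0 z z))))))))
 z)))))))))) (n 0 (n 0 z (n 139 (n 0 z (n 0 z (n 0 z (n 0 z (n 0 z (n 0 z (n 0 z z))))))) (n 139
 (n 0 z (n 0 z (n 0 z (n 0 z (n 0 z (n 0 z (n 0 z z))))))) (n 135 (n 0 z (n 0 z (n 0 z (n 0 z (n
 0 z (n 0 z (n 0 z (n 0 z (n 0 z (n 0 z (n 0 z (n 0 z z)))))))))))) (n 135 (n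
 0x2ea4ca280781f8a08207df8218607a08607e085f81f82081f8618a086179f85f82082082081f81f81f81f0801 z
 (n 0 z (n 0 z (n 0 z (n 0 z (n 0 z (n 0 z (n 0 z (n 0 z (n 0 z (n 0 z (n 0 z z)))))))))))) (n
 195 (n 0 z (n 0 z (n 0 z (n 0 z (n 0 z (n 0 z (n 0 z (n 0 z z)))))))) (n 195 (n 0 z (n 0 z (n 0
 z (n 0 z (n 0 z (n 0 z (n 0 z (n 0 z z)))))))) (n 133 (n 0 z (n 0 z (n 0 z (n 0 z (n 0 z (n 0 z
 (n 0 z (n 0 z (n 0 z z))))))))) (n 97 (n 0 z (n 0 z (n 0 z (n 0 z (n 0 z (n 0 z (n 0 z z)))))))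
 z))))))))) (n 0 (n 139 (n 0 z (n 0 z (n 0 z (n 0 z (n 0 z (n 0 z (n 0 z (n 0 z (n 0 z (n 0 z (n
 0 z (n 0 z z)))))))))))) (n 139 (n 0 z (n 0 z (n 2 (n 2 (n 0 z (n 0 z (n 0 z (n 0 (n 8803099 z
 z) (n 0 z (n 0 z z)))))) (n 1 z (n 2 (n 0 z (n 0 z (n 0 z (n 0 (n 4331627 z z) (n 0 z (n 0 z
 z)))))) (n 1 z (n 1 z (n 2 (n 0 z (n 0 z (n 0 z (n 0 z (n 0 z (n 0 z z)))))) z)))))) (n 0 z (n
 0 z (n 0 z (n 0 z (n 0 z (n 0 z (n 0 z (n 0 z (n 0 z z)))))))))))) (n 107 (n 0 z (n 0 z (n 0 z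
 (n 0 z (n 0 z (n 0 z (n 0 z (n 0 z (n 0 z (n 0 z (n 0 z (n 0 z z)))))))))))) (n 107 (n 0 z (n 2
 (n 2 (n 0 z (n 0 z (n 0 z (n 0 z (n 0 z (n 0 z z)))))) (n 1 z (n 2 (n 0 z (n 0 z (n 0 z (n 0 (n
 8803099 z z) (n 0 z (n 0 z z)))))) (n 2 (n 0 z (n 0 z (n 0 z (n 0 z (n 0 z (n 0 z z)))))) z))))
 (n 0 z (n 0 z (n 0 z (n 0 z (n 0 z (n 0 z (n 0 z (n 0 z (n 0 z (n 0 z z)))))))))))) (n 39 (n 0
 z (n 0 z (n 0 z (n 0 z (n 0 z (n 0 z (n 0 z z))))))) (n 39 (n 0 z (n 2 (n 2 (n 0 z (n 0 z (n 0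
 z (n 0 z (n 0 z (n 0 z z)))))) (n 2 (n 0 z (n 0 z (n 0 z (n 0 z (n 0 z (n 0 z z)))))) z)) (n 0
 z (n 0 z (n 0 z (n 0 z (n 0 z z))))))) (n 21 (n 0 z (n 0 z (n 0 z (n 0 z (n 0 z (n 0 z (n 0 z
 (n 0 z (n 0 z z))))))))) (n 13 (n 0 z (n 0 z (n 0 z (n 0 z (n 0 z (n 0 z (n 0 z z)))))))
 z)))))))) (n 0 (n 0 z (n 347 (n 0 z (n 0 z (n 0 z (n 0 z (n 0 z (n 0 z (n 0 z (n 0 z (n 0 z
 z))))))))) (n 347 (n 0 z (n 2 (n 2 (n 0 z (n 0 z (n 0 z (n 0 z (n 0 z (n 0 z z)))))) (n 1 z (n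
 2 (n 0 z (n 0 z (n 0 z (n 0 (n 8790275 z z) (n 0 z (n 0 z z)))))) (n 2 (n 0 z (n 0 z (n 0 z (n
 0 z (n 0 z (n 0 z z)))))) z)))) (n 0 z (n 0 z (n 0 z (n 0 z (n 0 z (n 0 z (n 0 z z))))))))) (n
 7 (n 0 z (n 0 z (n 0 z (n 0 z (n 0 z (n 0 z (n 0 z z))))))) (n 7 (n 0 z (n 0 z (n 0 z (n 0 z (n
 0 z (n 0 z (n 2 (n 2 (n 0 z (n 0 z (n 0 z (n 0 z (n 0 z (n 0 z z)))))) (n 2 (n 0 z (n 0 z (n 0
 z (n 0 z (n 0 z (n 0 z z)))))) z)) z))))))) (n 345 (n 0 z (n 0 z (n 0 z (n 0 z (n 0 z (n 0 z (n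
 0 z z))))))) (n 253 (n 0 z (n 0 z (n 0 z (n 0 z (n 0 z (n 0 z (n 0 z (n 0 z (n 0 z (n 0 z (n 0
 z (n 0 z z)))))))))))) z))))))) (n 0 (n 775 (n 2 (n 0 z (n 2 (n 0 z (n 0 z (n 0 z (n 0 (n
 8855811 z z) (n 0 z (n 0 z z)))))) (n 1 z (n 1 z (n 2 (n 0 z (n 0 z (n 0 z (n 0 (n 8855811 z z)
 (n 0 z (n 0 z z)))))) z))))) (n 0 z (n 0 z (n 0 z z)))) (n 775 (n 0 z (n 0 z (n 0 z (n 0 z
 z)))) (n 55 (n 0 z (n 0 z (n 0 z (n 2 (n 0 z (n 1 z (n 2 (n 0 z (n 0 z (n 0 z (n 0 z (n 0 z (n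
 0 z z)))))) z))) (n 0 z (n 0 z (n 0 z (n 0 z z)))))))) (n 55 (n 0 z (n 0 z (n 0 z (n 0 z (n 0 z
 (n 0 z (n 0 z (n 0 z z)))))))) (n 51 (n 0 z (n 2 (n 1 z z) (n 0 z (n 0 z (n 0 z (n 0 z (n 0 z
 (n 0 z (n 0 z z))))))))) (n 49 (n 0 z (n 0 z (n 2 z (n 0 z (n 0 z (n 0 z (n 0 z z)))))))
 z)))))) (n 0 (n 0 z (n 539 (n 0 z (n 0 z (n 0 z (n 0 z z)))) (n 539 (n 0 z (n 2 (n 2 (n 0 z (n
 0 z (n 0 z (n 0 (n 8790275 z z) (n 0 z (n 0 z z)))))) (n 2 (n 0 z (n 0 z (n 0 z (n 0 z (n 0 z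
 (n 0 z z)))))) z)) (n 0 z (n 0 z z)))) (n 483 (n 0 z (n 0 z (n 0 z (n 0 z (n 0 z (n 0 z (n 0 z
 (n 0 z (n 0 z (n 0 z (n 0 z (n 0 z (n 0 z (n 0 z (n 0 z (n 0 z (n 0 z (n 0 z (n 0 z (n 0 z (n 0
 z (n 0 z (n 0 z (n 0 z (n 0 z z))))))))))))))))))))))))) (n 481 (n 0 z (n 0 z (n 0 z (n 0 z (n
 0 z (n 0 z (n 0 z (n 0 z z)))))))) z))))) (n 0 (n 7 (n 2 (n 0 z (n 2 (n 0 z (n 0 z (n 0 z (n 0
 (n 8855811 z z) (n 0 z (n 0 z z)))))) (n 2 (n 0 z (n 0 z (n 0 z (n 0 z (n 0 z (n 0 z z))))))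
 z))) (n 0 z (n 0 z z))) (n 7 (n 0 z (n 0 z (n 0 z z))) (n 15 (n 0 z (n 0 z (n 0 z (n 0 z (n 2
 (n 2 (n 0 z (n 0 z (n 0 z (n 0 (n 8855811 z z) (n 0 z (n 0 z z)))))) z) (n 0 z (n 0 z (n 0 z (n
 0 z (n 0 z (n 0 z (n 0 z (n 0 z (n 0 z z)))))))))))))) (n 13 (n 0 z (n 0 z (n 0 z (n 0 z (n 2 z
 (n 0 z (n 0 z z))))))) z)))) (n 0 (n 0 z (n 15 (n 0 z (n 0 z (n 0 z (n 0 z (n 0 z (n 0 z (n 0 z
 (n 0 z (n 0 z (n 0 z z)))))))))) (n 13 (n 0 z (n 0 z (n 0 z z))) z))) (n 0 (n 51 (n 0 z (n 2 (n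
 2 (n 0 z (n 0 z (n 0 z (n 0 (n 8855811 z z) (n 0 z (n 0 z z)))))) z) (n 0 z (n 0 z (n 0 z (n 0
 z (n 0 z (n 0 z (n 0 z z))))))))) (n 49 (n 0 z (n 0 z (n 0 z (n 0 z (n 0 z z))))) z)) (n 0 (n
 25 (n 0 z (n 0 z (n 0 z (n 0 z (n 0 z (n 0 z (n 0 z (n 0 z (n 0 z (n 0 z (n 0 z (n 0 z (n 0 z
 (n 0 z (n 0 z (n 0 z (n 0 z (n 0 z (n 0 z (n 0 z (n 0 z (n 0 z (n 0 z (n 0 z (n 0 z (n 0 z (n 0
 z (n 0 z (n 0 z (n 0 z (n 0 z (n 0 z (n 0 z z))))))))))))))))))))))))))))))))) z) (n 0 z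
 z))))))))))) (n 0 (n 1 (n 3280995 z (n 1244 z (n 2 z (n 1244 z (n 1244 z (n 1244 z z)))))) (n 0
 z (n 1 (n 1244 z (n 4399203 z (n 1244 z (n 1244 z (n 6554139 z (n 5449291 z z)))))) (n 1 (n
 6627651 z (n 6627651 z (n 6627651 z (n 6627651 z (n 6627651 z (n 6627651 z z)))))) z)))) (n 0
 (n 0x792152792611499d40 (n 0 (n 0 (n 7741699 z (n 7741699 z (n 7741699 z (n 7741699 z (n
 7741699 z (n 7741699 z z)))))) z) (n 0 (n 19 (n 1 (n 1244 z (n 1244 z (n 1244 z (n 7754523 z (n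
 1244 z (n 1244 z z)))))) (n 1 (n 1244 z (n 1244 z (n 1244 z (n 1244 z (n 7754523 z (n 1244 z
 z)))))) (n 1 (n 7540835 z (n 7540835 z (n 7540835 z (n 7540835 z (n 7540835 z (n 7540835 z
 z)))))) (n 1 (n 7540835 z (n 7540835 z (n 7540835 z (n 7540835 z (n 7540835 z (n 7540835 z
 z)))))) (n 1 (n 2 z (n 1244 z (n 6498139 z (n 1244 z (n 7754523 z (n 1244 z z)))))) (n 1 (n
 7540835 z (n 7540835 z (n 7540835 z (n 7540835 z (n 7540835 z (n 7540835 z z)))))) (n 1 (n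
 7540835 z (n 7540835 z (n 7540835 z (n 7540835 z (n 7540835 z (n 7540835 z z)))))) z))))))) (n
 33 (n 1 (n 7540835 z (n 1516 z (n 1516 z (n 1516 z (n 6424395 z (n 1516 z z)))))) (n 1 (n
 7540835 z (n 1516 z (n 1516 z (n 1516 z (n 1516 z (n 1516 z z)))))) (n 0 z (n 1 (n 7741699 z (n
 7741699 z (n 7741699 z (n 7741699 z (n 7741699 z (n 7741699 z z)))))) (n 1 (n 7741699 z (n
 7741699 z (n 7741699 z (n 7741699 z (n 7741699 z (n 7741699 z z)))))) (n 1 (n 7540835 z (n 1516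
 z (n 1516 z (n 1516 z (n 6633291 z (n 1516 z z)))))) (n 1 (n 7540835 z (n 6566003 z (n 10 z (n
 1516 z (n 6633291 z (n 1516 z z)))))) z))))))) (n 9 (n 1 (n 7741699 z (n 7741699 z (n 7741699 z
 (n 7741699 z (n 7741699 z (n 7741699 z z)))))) (n 0 z (n 1 (n 7540835 z (n 6566003 z (n 18 z (n
 2396 z (n 6633291 z (n 2396 z z)))))) (n 1 (n 7741699 z (n 7741699 z (n 7741699 z (n 7741699 z
 (n 7741699 z (n 7741699 z z)))))) z)))) (n 6 (n 0 z (n 1 (n 7540835 z (n 7540835 z (n 7540835 z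
 (n 7540835 z (n 7540835 z (n 7540835 z z)))))) (n 1 (n 7676227 z (n 7676227 z (n 7676227 z (n
 7676227 z (n 7676227 z (n 7676227 z z)))))) z))) (n 557 (n 1 (n 7741699 z (n 7741699 z (n
 7741699 z (n 7741699 z (n 7741699 z (n 7741699 z z)))))) (n 1 (n 7741699 z (n 7741699 z (n
 7741699 z (n 7741699 z (n 7741699 z (n 7741699 z z)))))) (n 1 (n 4172 z (n 7602715 z (n 4172 z
 (n 4172 z (n 4172 z (n 7754523 z z)))))) (n 1 (n 4172 z (n 7754523 z (n 7602715 z (n 4172 z (n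
 4172 z (n 7615771 z z)))))) (n 1 (n 7754523 z (n 7615771 z (n 6428507 z (n 4172 z (n
 0x6ea8a6040781e8a08207e08218a17627608607e17df81f81e82089e7e376189e81f8617e285f8a081f8220801 z
 (n 7602715 z z)))))) (n 1 (n 3278667 z (n 7754523 z (n 3278667 z (n 3278667 z (n 3278667 z (n
 7602715 z z)))))) (n 1 (n 5449547 z (n 7754523 z (n 5449547 z (n 5449547 z (n 5449547 z (n
 7602715 z z)))))) z))))))) (n 19 (n 0 z (n 1 (n 7540835 z (n 7540835 z (n 7540835 z (n 7540835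
 z (n 7540835 z (n 7540835 z z)))))) (n 1 (n 7676227 z (n 7676227 z (n 7676227 z (n 7676227 z (n
 7676227 z (n 7676227 z z)))))) z))) (n 9 (n 1 (n 7741699 z (n 7741699 z (n 7741699 z (n 7741699
 z (n 7741699 z (n 7741699 z z)))))) (n 0 z (n 1 (n 1244 z (n 4399219 z (n 1244 z (n 1244 z (n
 7602715 z (n 5449547 z z)))))) (n 1 (n 7741699 z (n 7741699 z (n 7741699 z (n 7741699 z (n
 7741699 z (n 7741699 z z)))))) z)))) z))))))) (n 0 (n 0 (n 0 z (n 0 z (n 0 z z))) (n 0 (n 0 z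
 (n 0 z z)) (n 0 (n 0 z z) z))) (n 0 (n 189 (n 0 (n 0 z (n 0 z (n 0 z z))) (n 0 (n 0 z (n 0 z (n
 0 z z))) (n 0 (n 0 z (n 0 z (n 0 z z))) (n 0 (n 0 z (n 0 z (n 0 z z))) (n 0 (n 0 z (n 0 z (n 0
 z z))) (n 0 (n 0 z (n 0 (n 8863795 z z) (n 0 z z))) (n 0 (n 0 z (n 0 z (n 0 z z))) (n 0 (n 0 z
 (n 0 z (n 0 z z))) (n 0 (n 0 z (n 0 (n 8864339 z (n 8864339 z z)) (n 0 (n 8864339 z (n 8864339
 z z)) z))) (n 0 (n 0 z (n 0 z (n 0 z z))) (n 0 (n 0 z (n 0 z (n 0 z z))) (n 0 (n 0 z (n 0 z (n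
 0 z z))) z)))))))))))) (n 299 (n 0 (n 0 z (n 0 z (n 0 z z))) (n 0 (n 0 z (n 0 z (n 0 z z))) (n
 0 (n 0 z (n 0 z (n 0 z z))) (n 0 (n 0 z (n 0 z (n 0 z z))) (n 0 (n 0 z (n 0 z (n 0 (n 8589411 z
 z) z))) (n 0 (n 0 z (n 0 (n 8589411 z (n 8589411 z z)) (n 0 (n 8589411 z (n 8589411 z z)) z)))
 (n 0 (n 0 z (n 0 (n 8863795 z z) (n 0 z z))) (n 0 (n 0 z (n 0 z (n 0 z z))) (n 0 (n 0 z (n 0 z
 (n 0 z z))) (n 0 (n 0 z (n 0 (n 8724803 z z) (n 0 z z))) (n 0 (n 0 z (n 0 z (n 0 z z))) (n 0 (n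
 0 z (n 0 z (n 0 z z))) z)))))))))))) (n 293 (n 0 (n 0 z (n 0 z (n 0 z z))) (n 0 (n 0 z (n 0 z
 (n 0 z z))) (n 0 (n 0 z (n 0 z (n 0 z z))) (n 0 (n 0 z (n 0 z (n 0 z z))) (n 0 (n 0 z (n 0 z (n
 0 z z))) (n 0 (n 0 z (n 0 z (n 0 z z))) (n 0 (n 0 z (n 0 (n 8724803 z z) (n 0 z z))) (n 0 (n 0
 z (n 0 z (n 0 z z))) (n 0 (n 0 z (n 0 z (n 0 z z))) z))))))))) (n 405 (n 0 (n 0 z (n 0 z (n 0 z
 z))) (n 0 (n 0 z (n 0 z (n 0 z z))) (n 0 (n 0 z (n 0 z (n 0 z z))) (n 0 (n 0 z (n 0 z (n 0 z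
 z))) (n 0 (n 0 z (n 0 z (n 0 z z))) (n 0 (n 0 z (n 0 (n 8589411 z z) (n 0 z z))) (n 0 (n 0 z (n
 0 z (n 0 z z))) z))))))) (n 57 (n 0 (n 0 (n 8868899 z (n 8868899 z z)) (n 0 z (n 0 (n 8860683 z
 (n 8860683 z z)) z))) (n 0 (n 0 z (n 0 z (n 0 z z))) (n 0 (n 0 z (n 0 z (n 0 z z))) (n 0 (n 0 z
 (n 0 z (n 0 z z))) (n 0 (n 0 z (n 0 (n
 0x30a8ea840785f8608608207e085f7e182082182182086081e86086082082181f82186182181f8608218600801 z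
 z) (n 0 z z))) (n 0 (n 0 z (n 0 z (n 0 (n 8790275 z z) z))) (n 0 (n 0 z (n 0 z (n 0 z z)))
 z))))))) (n 389 (n 0 (n 0 z (n 0 z (n 0 z z))) (n 0 (n 0 z (n 0 z (n 0 z z))) (n 0 (n 0 z (n 0
 z (n 0 (n 8589411 z z) z))) (n 0 (n 0 z (n 0 z (n 0 z z))) z)))) (n 521 (n 0 (n 0 z (n 0 z (n 0
 z z))) (n 0 (n 0 z (n 0 z (n 0 z z))) (n 0 (n 0 z (n 0 z (n 0 z z))) (n 0 (n 0 z (n 0 z (n 0 z
 z))) (n 0 (n 0 z (n 0 (n 8589411 z z) (n 0 z z))) (n 0 (n 0 z (n 0 z (n 0 z z))) (n 0 (n 0 z (n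
 0 z (n 0 z z))) (n 0 (n 0 z (n 0 z (n 0 z z))) (n 0 (n 0 z (n 0 z (n 0 z z))) z))))))))) (n 557
 (n 0 (n 0 z (n 0 (n 8790275 z z) (n 0 z z))) (n 0 (n 0 z (n 0 z (n 0 z z))) (n 0 (n 0 z (n 0 z
 (n 0 z z))) (n 0 (n 0 z (n 0 z (n 0 z z))) (n 0 (n 0 (n 8868899 z z) (n 0 z (n 0 z z))) (n 0 (n
 0 z (n 0 (n 8863795 z z) (n 0 z z))) (n 0 (n 0 z (n 0 z (n 0 z z))) z))))))) (n 483 (n 0 (n 0 z
 (n 0 z (n 0 z z))) (n 0 (n 0 z (n 0 z (n 0 z z))) (n 0 (n 0 z (n 0 z (n 0 z z))) (n 0 (n 0 z (n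
 0 z (n 0 (n
 0x10eb0ea00785f8a086082082185f7e07df82082081f8608208608208208208207e08208208208208608610801 z
 z) z))) (n 0 (n 0 (n 8791899 z (n
 0x1d87581f8a18a07618208207e17df7e07e086081f85f8a081f8607a08207e17a185f82086081e8600041 z z)) (n
 0 (n 8652603 z (n
 0x10eb0ea00785f8608618208208607df7df8208208208208208a082082082082082182081f8208208608600801 z
 z)) (n 0 (n
 0xd8708208608607e08208207e07e08208208208208208208208208218208218208208208208208200041 z (n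
 0x30eb0ea00785f8618607e082081f8207df7e182181f82082086082085f82082082082082081f8208608600801 z
 z)) z))) (n 0 (n 0 z (n 0 (n 8872715 z z) (n 0 z z))) (n 0 (n 0 z (n 0 z (n 0 z z))) (n 0 (n 0
 z (n 0 z (n 0 (n 8863795 z z) z))) (n 0 (n 0 z (n 0 z (n 0 z z))) (n 0 (n 0 z (n 0 (n 8863795 z
 z) (n 0 z z))) (n 0 (n 0 z (n 0 z (n 0 z z))) (n 0 (n 0 z (n 0 z (n 0 z z))) (n 0 (n 0 z (n 0 z
 (n 0 z z))) (n 0 (n 0 z (n 0 z (n 0 z z))) (n 0 (n 0 (n 8664347 z (n 8664347 z z)) (n 0 z (n 0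
 (n 8864339 z (n 8864339 z z)) z))) (n 0 (n 0 z (n 0 z (n 0 z z))) (n 0 (n 0 z (n 0 (n 8863795 z
 z) (n 0 z z))) (n 0 (n 0 z (n 0 z (n 0 z z))) (n 0 (n 0 z (n 0 (n 8864339 z (n 8864339 z z)) (n
 0 (n 8864339 z (n 8864339 z z)) z))) (n 0 (n 0 z (n 0 (n 8864339 z z) (n 0 z z))) (n 0 (n 0 z
 (n 0 (n 8864339 z (n 8864339 z z)) (n 0 z z))) (n 0 (n 0 z (n 0 z (n 0 z z))) (n 0 (n 0 z (n 0
 (n 8864339 z (n 8864339 z z)) (n 0 z z))) (n 0 (n 0 z (n 0 z (n 0 z z))) (n 0 (n 0 z (n 0 z (n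
 0 z z))) z))))))))))))))))))))))))) (n 13 (n 0 (n 0 z (n 0 z (n 0 z z))) (n 0 (n 0 z (n 0 z (n
 0 z z))) (n 0 (n 0 z (n 0 z (n 0 z z))) (n 0 (n 0 z (n 0 z (n 0 z z))) (n 0 (n 0 z (n 0 (n
 8848939 z z) (n 0 z z))) (n 0 (n 0 z (n 0 z (n 0 z z))) (n 0 (n 0 z (n 0 z (n 0 z z))) (n 0 (n
 0 z (n 0 z (n 0 z z))) (n 0 (n 0 z (n 0 (n 8864339 z z) (n 0 z z))) (n 0 (n 0 z (n 0 z (n 0 z
 z))) z)))))))))) (n 639 (n 0 (n 0 z (n 0 z (n 0 z z))) (n 0 (n 0 z (n 0 z (n 0 z z))) (n 0 (n 0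
 z (n 0 z (n 0 z z))) (n 0 (n 0 z (n 0 (n
 0x200d0e656e81f8208607e08218208208207e082082082081f8608208207e08208208208208608208608200801 z
 (n 0x2ec90a84078608608207e08208208208208208208208207e08208208608208208208208208208208208200801
 z z)) (n 0 z z))) (n 0 (n 0 z (n 0 z (n 0 z z))) (n 0 (n 0 z (n 0 z (n 0 z z))) (n 0 (n 0 z (n
 0 z (n 0 z z))) z))))))) (n 615 (n 0 (n 0 z (n 0 z (n 0 (n 8790275 z z) z))) (n 0 (n 0 (n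
 0xc8527604018d0a8e80403a249568e97a74619e33e5c1a561b1a85db107458eb8e67dd2a335f71e9e7b1e9f48d3a71a131001
 z z) (n 0 z (n 0 (n 8804139 z z) z))) (n 0 (n 0 z (n 0 z (n 0 z z))) (n 0 (n 0 (n 8730475 z z)
 (n 0 z (n 0 z z))) (n 0 (n 0 (n 8790275 z z) (n 0 z (n 0 (n 8790275 z z) z))) (n 0 (n 0 z (n 0
 (n 8790275 z (n 8790275 z z)) (n 0 z z))) (n 0 (n 0 z (n 0 z (n 0 z z))) (n 0 (n 0 z (n 0 (n
 8790275 z z) (n 0 z z))) (n 0 (n 0 z (n 0 (n 8790275 z (n 8790275 z z)) (n 0 z z))) (n 0 (n 0 z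
 (n 0 z (n 0 z z))) (n 0 (n 0 z (n 0 z (n 0 (n 8724803 z z) z))) (n 0 (n 0 z (n 0 z (n 0 z z)))
 z)))))))))))) (n 603 (n 0 (n 0 z (n 0 z (n 0 z z))) (n 0 (n 0 (n 8790275 z z) (n 0 z (n 0 (n
 8790275 z z) z))) (n 0 (n 0 (n 8790275 z (n 8790275 z z)) (n 0 (n 8790275 z (n 8790275 z z)) (n
 0 (n 8790275 z (n 8790275 z z)) z))) (n 0 (n 0 z (n 0 (n 8790275 z z) (n 0 z z))) (n 0 (n 0 z
 (n 0 z (n 0 z z))) (n 0 (n 0 z (n 0 z (n 0 (n 8724803 z z) z))) (n 0 (n 0 (n 8724803 z (n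
 8724803 z z)) (n 0 (n 8724803 z (n 8724803 z z)) (n 0 (n 8724803 z (n 8724803 z z)) z))) (n 0
 (n 0 z (n 0 z (n 0 z z))) z)))))))) (n 19 (n 0 (n 0 z (n 0 z (n 0 z z))) (n 0 (n 0 z (n 0 z (n
 0 z z))) (n 0 (n 0 z (n 0 z (n 0 z z))) z))) (n 18 (n 0 (n 0 z (n 0 z (n 0 z z))) (n 0 (n 0 z
 (n 0 z (n 0 z z))) (n 0 (n 0 z (n 0 (n 8863795 z z) (n 0 z z))) (n 0 (n 0 z (n 0 (n 8863795 z
 (n 8863795 z z)) (n 0 z z))) (n 0 (n 0 (n 8868899 z (n 8868899 z z)) (n 0 z (n 0 z z))) (n 0 (n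
 0 z (n 0 z (n 0 z z))) (n 0 (n 0 z (n 0 (n 8863795 z z) (n 0 z z))) (n 0 (n 0 z (n 0 z (n 0 z
 z))) (n 0 (n 0 z (n 0 (n 8663155 z (n 8652603 z z)) (n 0 z z))) (n 0 (n 0 z (n 0 z (n 0 z z)))
 (n 0 (n 0 z (n 0 (n 8652603 z (n
 0x1d82181f8a18a07618208207e17df7e07e086081f85f8a081f8607a08207e17a185f82086081e8600041 z z)) (n
 0 (n 0x1582181f8a185f7a18218207e081f7e182086081f81f8a18208217a07df8207e185f8208218208200041 z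
 (n 0x1d82181f8a18a07618208207e17df7e07e086081f85f8a081f8607a08207e17a185f82086081e8600041 z z))
 z))) (n 0 (n 0 z (n 0 (n 8652603 z z) (n 0 z z))) (n 0 (n 0 z (n 0 (n 8663155 z (n
 0x50a8ec240385f8608208208208207e08207e17e082086082182082086082082082082082082086086085f0801 z
 z)) (n 0 z z))) (n 0 (n 0 z (n 0 z (n 0 z z))) (n 0 (n 0 z (n 0 z (n 0 z z))) (n 0 (n 0 (n
 8868899 z (n 8868899 z z)) (n 0 z (n 0 z z))) (n 0 (n 0 z (n 0 (n 8652603 z z) (n 0 z z))) (n 0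
 (n 0 z (n 0 z (n 0 z z))) (n 0 (n 0 z (n 0 z (n 0 z z))) (n 0 (n 0 z (n 0 z (n 0 z z))) (n 0 (n
 0 z (n 0 z (n 0 z z))) (n 0 (n 0 z (n 0 z (n 0 z z))) (n 0 (n 0 z (n 0 z (n 0 z z))) (n 0 (n 0
 z (n 0 (n
 0x30a8e624078208608618208207e07e081f7e17e082085f82082082082082081f8218207e07df8208208200801 z
 (n 0x30a8e6240782085f8608208208207e081f82182082086082082082082082081f8218607e07e08608208200801
 z z)) (n 0 (n 8804139 z (n 8652603 z z)) z))) (n 0 (n 0 z (n 0 (n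
 0x30a8e624078208608618208207e07e081f7e17e082085f82082082082082081f8218207e07df8208208200801 z
 z) (n 0 z z))) (n 0 (n 0 z (n 0 z (n 0 z z))) (n 0 (n 0 z (n 0 (n 8804139 z z) (n 0 z z))) (n 0
 (n 0 z (n 0 (n 8848939 z (n 8848939 z z)) (n 0 z z))) (n 0 (n 0 z (n 0 (n 0x10a8e624070821 z (n
 8652603 z z)) (n 0 z z))) (n 0 (n 0 z (n 0 z (n 0 z z))) (n 0 (n 0 z (n 0 (n 0x10a8e624070821 z
 (n 8652603 z z)) (n 0 z z))) (n 0 (n 0 z (n 0 z (n 0 z z))) (n 0 (n 0 z (n 0 z (n 0 z z)))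
 z))))))))))))))))))))))))))))))))) (n 155 (n 0 (n 0 (n
 0x1d84181f8a18a07618208207e17df7e07e086081f85f8a081f8607a08207e17a185f82086081e8600041 z (n
 0xd8738208608608208208207e081f8208208208208208218208208208208218208208208208208600041 z z)) (n
 0 z (n 0 z z))) (n 0 (n 0 z (n 0 z (n 0 z z))) (n 0 (n 0 z (n 0 z (n 0 z z))) (n 0 (n 0 z (n 0
 z (n 0 z z))) (n 0 (n 0 (n 8868899 z (n 8868899 z z)) (n 0 z (n 0 (n 8652603 z (n 8663155 z z))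
 z))) (n 0 (n 0 (n 8868899 z (n 8868899 z z)) (n 0 z (n 0 (n 8863795 z (n 8863795 z z)) z))) (n
 0 (n 0 (n 8803099 z (n 8803099 z z)) (n 0 (n 8803099 z (n 8803099 z z)) (n 0 (n 8803099 z (n
 8803099 z z)) z))) (n 0 (n 0 (n 4397067 z (n 4397067 z z)) (n 0 z (n 0 z z))) (n 0 (n 0 z (n 0
 (n 8863795 z z) (n 0 z z))) (n 0 (n 0 z (n 0 z (n 0 z z))) (n 0 (n 0 z (n 0 (n 8804139 z z) (n
 0 z z))) (n 0 (n 0 z (n 0 z (n 0 z z))) (n 0 (n 0 z (n 0 z (n 0 z z))) (n 0 (n 0 z (n 0 z (n 0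
 z z))) (n 0 (n 0 z (n 0 z (n 0 z z))) (n 0 (n 0 z (n 0 z (n 0 z z))) z)))))))))))))))) (n 33 (n
 0 (n 0 (n 8868899 z (n 8868899 z z)) (n 0 z (n 0 (n 8860683 z (n 8663155 z z)) z))) (n 0 (n 0 z
 (n 0 (n 8804139 z z) (n 0 z z))) (n 0 (n 0 z (n 0 z (n 0 z z))) (n 0 (n 0 z (n 0 z (n 0 z z)))
 (n 0 (n 0 z (n 0 z (n 0 z z))) (n 0 (n 0 (n
 0x70a8a8040381f8608df6dd86091f76181f7e08618218648618628e18617a181c72189e8a389f7e18607600801 z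
 z) (n 0 z (n 0 z z))) (n 0 (n 0 z (n 0 z (n 0 z z))) z))))))) (n 9 (n 0 (n 0 z (n 0 z (n 0 z
 z))) (n 0 (n 0 (n 8790275 z z) (n 0 z (n 0 z z))) (n 0 (n 0 z (n 0 z (n 0 z z))) (n 0 (n 0 z (n
 0 z (n 0 z z))) z)))) (n 3 (n 0 (n 0 z (n 0 (n 8790275 z z) (n 0 z z))) (n 0 (n 0 z (n 0 z (n 0
 z z))) (n 0 (n 0 z (n 0 z (n 0 z z))) (n 0 (n 0 z (n 0 z (n 0 z z))) z)))) (n 1 (n 0 (n 0 z (n
 0 z (n 0 z z))) (n 0 (n 0 z (n 0 z (n 0 z z))) (n 0 (n 0 z (n 0 z (n 0 z z))) (n 0 (n 0 z (n 0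
 z (n 0 z z))) (n 0 (n 0 (n 8868899 z z) (n 0 z (n 0 z z))) (n 0 (n 0 z (n 0 z (n 0 z z))) (n 0
 (n 0 z (n 0 z (n 0 z z))) (n 0 (n 0 z (n 0 z (n 0 z z))) z)))))))) (n 0 (n 0 (n 0 z (n 0 z (n 0
 z z))) (n 0 (n 0 z (n 0 z (n 0 z z))) (n 0 (n 0 z (n 0 z (n 0 z z))) (n 0 (n 0 z (n 0 z (n 0 z
 z))) (n 0 (n 0 z (n 0 z (n 0 z z))) z))))) z))))))))))))))))))))) z)))) z) z)))) (n
 0xd49341552b02a9498125c22a4e14124d1a1185508e360461550135240 (n 0x21552 (n 467 (n 3282443 z (n 2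
 z (n 10 z (n 0 z z)))) (n 461 (n 0 z (n 0 z (n 0 z (n 4392475 z (n 6427963 z (n 0 z (n 0 z (n 0
 z (n 0 z (n 0 z (n 0 z (n 0 z (n 0 z (n 0 z (n 3278363 z (n 0 z (n 0 z (n 0 z (n 0 z (n 0 z (n
 18 z (n
 0x6ca8a804078a17e28617dd7628207a192275e79f7a08e37df7db96282586479a76389d92189e85f8e17e00801 z
 (n 0 z (n 0 z (n 6427963 z (n 6427963 z (n 26 z (n
 0x6ca8a864078a17e28617dd7628207a192275e79f7a08e37df7db96282586479a76389d92189e85f8e17e00801 z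
 (n 0x2ca8ca840781f85d8608227a27a08a081e82082195e81e81e8a07208a181f82282179f7df81e8207608600801
 z (n 34 z (n
 0x6ca8a8040789e8dd81e8208218a17218a281f8217a07e275f7df92182186181986185e8e28a07df7e285f0801 z
 (n 0x2ca8ca84038207a176181f79f8a17a28217e181f7a182182176092079f8617de7df8e18df8627e08a081f0801
 z z)))))))))))))))))))))))))))))))) (n 463 (n 42 z (n
 0x6ca4a2080786281f7e27e07607a082081f85f8218a07a17e08238218217a17e182081f8208e081f8208600801 z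
 (n 6423611 z (n 0 z (n 0 z (n 4392491 z (n 3212843 z (n 6427963 z z)))))))) (n 3 (n 6636323 z
 (n 0x12c86a8240775e8237218268a376179f82389e4dd4e68a091b91b99b832aa579a91c8a38d965a7a581c6a30801
 z (n
 0x6ca8a824078638218e27de79f6e381d7d97a38a5a9d79d8668238217db7db82085e85e72682075f8e27a10801 z
 (n 50 z (n 0 z (n 58 z (n
 0x6ca8a804078638208e275e7a08208207df7a18a28618227a282282279e7e081f7e18a08e38218618627df0801 z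
 z))))))) (n 1 (n 0 z (n 0 z (n 66 z (n 6636323 z (n 0 z (n 6636323 z z)))))) (n 0 (n 74 z (n
 6636323 z (n 82 z z))) z)))))) (n 0 (n 0 (n 0 z (n 1355 (n 0 z (n 0 z (n 0 z (n 0 z (n 0 z (n 0
 z (n 0 z (n 0 z (n 0 z (n 0 z (n 0 z (n 0 z (n 0 z (n 0 z (n 0 z (n 0 z (n 2 (n 0 z (n 0 z (n 2
 (n 0 z (n 0 z (n 0 z (n 0 z (n 0 z (n 0 z z)))))) (n 2 (n 0 z (n 0 z (n 0 z (n 0 z (n 0 z (n 0
 z z)))))) (n 1 z (n 2 (n 0 z (n 0 z (n 0 z (n 0 z (n 0 z (n 0 z z)))))) (n 2 (n 0 z (n 0 z (n 0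
 z (n 0 z (n 0 z (n 0 z z)))))) (n 1 z z)))))))) (n 0 z (n 0 z (n 0 z (n 0 z (n 0 z (n 0 z (n 0
 z (n 0 z (n 0 z (n 0 z (n 0 z (n 0 z (n 0 z (n 0 z z))))))))))))))))))))))))))))))) (n 1355 (n
 0 z (n 0 z (n 0 z (n 0 z (n 0 z (n 0 z (n 0 z (n 0 z (n 0 z (n 0 z (n 0 z (n 0 z (n 0 z (n 0 z
 (n 0 z (n 0 z (n 0 z (n 0 z (n 0 z (n 0 z (n 0 z (n 0 z (n 0 z (n 0 z (n 0 z (n 0 z (n 0 z (n 0
 z (n 2 (n 0 z (n 2 (n 0 z (n 0 z (n 0 z (n 0 z (n 0 z (n 0 z z)))))) (n 2 (n 0 z (n 0 z (n 0 z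
 (n 0 z (n 0 z (n 0 z z)))))) (n 1 z (n 2 (n 0 z (n 0 z (n 0 z (n 0 z (n 0 z (n 0 z z)))))) (n 2
 (n 0 z (n 0 z (n 0 z (n 0 z (n 0 z (n 0 z z)))))) (n 1 z z))))))) (n 0 z (n 0 z
 z))))))))))))))))))))))))))))))) (n 1355 (n 0 z (n 0 z (n 0 z (n 0 z (n 0 z (n 0 z (n 0 z (n 0
 z (n 0 z (n 0 z (n 0 z (n 0 z (n 0 z (n 0 z (n 0 z (n 0 z (n 0 z (n 0 z (n 0 z (n 0 z (n 0 z (n
 0 z (n 0 z (n 0 z (n 0 z (n 0 z (n 0 z (n 0 z (n 0 z (n 0 z (n 0 z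
 z))))))))))))))))))))))))))))))) (n 1359 (n 2 (n 2 (n 0 z (n 0 z (n 0 z (n 0 z (n 0 z (n 0 z
 z)))))) (n 1 z (n 2 (n 0 z (n 0 z (n 0 (n 8868627 z z) (n 0 z (n 0 z (n 0 z z)))))) (n 2 (n 0 z
 (n 0 z (n 0 (n 8868627 z z) (n 0 z (n 0 z (n 0 z z)))))) (n 1 z z))))) (n 0 z (n 0 z (n 0 z (n
 0 z (n 0 z (n 0 z z))))))) (n 11 (n 2 (n 0 z (n 2 (n 0 z (n 0 z (n 0 z (n 0 z (n 0 z (n 0 z
 z)))))) (n 2 (n 0 z (n 0 z (n 0 z (n 0 z (n 0 z (n 0 z z)))))) (n 1 z z)))) (n 0 z (n 0 z (n 0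
 z (n 0 z (n 0 z (n 0 z (n 0 z z)))))))) (n 11 (n 0 z (n 0 z (n 0 z (n 0 z (n 0 z (n 0 z (n 0 z
 (n 0 z z)))))))) (n 9 (n 0 z (n 0 z (n 0 z (n 0 z (n 0 z (n 0 z z)))))) (n 1 (n 2 (n 0 z z) (n
 0 z (n 0 z z))) (n 1 (n 0 z (n 0 z (n 0 z z))) z)))))))))) (n 0 (n 179 (n 0 z (n 0 z (n 0 z (n
 0 z (n 0 z (n 2 (n 0 z (n 0 z (n 2 (n 0 z (n 0 z (n 0 (n 8803091 z z) (n 0 z (n 0 z (n 0 z
 z)))))) (n 2 (n 0 z (n 0 z (n 0 z (n 0 z (n 0 z (n 0 z z)))))) (n 1 z (n 2 (n 0 z (n 0 z (n 0 z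
 (n 0 z (n 0 z (n 0 z z)))))) (n 2 (n 0 z (n 0 z (n 0 z (n 0 z (n 0 z (n 0 z z)))))) (n 1 z
 z)))))))) z)))))) (n 179 (n 0 z (n 0 z (n 0 z (n 0 z (n 0 z (n 0 z z)))))) (n 179 (n 0 z (n 0 z
 (n 0 z (n 0 z (n 0 z (n 0 z z)))))) (n 927 (n 0 z (n 0 z (n 0 z (n 0 z (n 0 z (n 0 z (n 0 z (n
 0 z (n 0 z (n 0 z (n 0 z z))))))))))) (n 153 (n 0 z (n 0 z (n 0 z (n 0 z (n 0 z (n 0 z (n 0 z
 z))))))) (n 153 (n 2 (n 2 (n 0 z (n 0 z (n 0 z (n 0 z (n 0 z (n 0 z z)))))) (n 2 (n 0 z (n 0 z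
 (n 0 (n 8803091 z z) (n 0 z (n 0 z (n 0 z z)))))) (n 1 z z))) (n 0 z (n 0 z (n 0 z (n 0 z (n 0
 z (n 0 z z))))))) (n 925 (n 0 z (n 0 z (n 0 z z))) (n 169 (n 0 z (n 0 z (n 0 z z))) (n 169 (n 0
 z (n 2 z (n 0 z z))) z))))))))) (n 0 (n 0 z (n 0 z (n 391 (n 0 z (n 0 z (n 0 z (n 0 z (n 2 (n 2
 (n 0 z (n 0 z (n 0 (n 8868627 z z) (n 0 z (n 0 z (n 0 z z)))))) (n 1 z (n 1 z (n 1 z (n 1 z
 z))))) (n 0 z z)))))) (n 55 (n 0 z (n 0 z (n 0 z (n 0 z (n 2 (n 0 z (n 2 (n 0 z (n 0 z (n 0 z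
 (n 0 z (n 0 z (n 0 z z)))))) (n 2 (n 0 z (n 0 z (n 0 z (n 0 z (n 0 z (n 0 z z)))))) (n 1 z
 z)))) (n 0 z z)))))) (n 55 (n 0 z (n 0 z (n 0 z (n 0 z (n 0 z (n 2 (n 2 (n 0 z (n 0 z (n 0 z (n
 0 z (n 0 z (n 0 z z)))))) (n 2 (n 0 z (n 0 z (n 0 z (n 0 z (n 0 z (n 0 z z)))))) (n 1 z z)))
 z)))))) (n 51 (n 0 z (n 0 z (n 0 z (n 0 z (n 0 z (n 2 (n 1 z (n 2 (n 0 z (n 0 z (n 0 z (n 0 z
 (n 0 z (n 0 z z)))))) z)) (n 0 z z))))))) (n 53 (n 0 z (n 0 z (n 2 (n 0 z z) (n 0 z (n 0 z (n 0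
 z (n 0 z z))))))) (n 53 (n 0 z (n 0 z (n 0 z (n 0 z (n 2 z (n 0 z (n 0 z z))))))) z)))))))) (n
 0 (n 0 z (n 411 (n 0 z (n 0 z (n 0 z (n 0 z (n 0 z (n 0 z (n 0 z z))))))) (n 393 (n 0 z (n 0 z
 (n 0 z (n 0 z (n 0 z (n 0 z (n 0 z (n 0 z (n 0 z (n 0 z (n 0 z (n 0 z (n 0 z z))))))))))))) (n
 393 (n 2 (n 2 (n 0 z (n 0 z (n 0 z (n 0 z (n 0 z (n 0 z z)))))) (n 2 (n 0 z (n 0 z (n 0 (n
 8798987 z z) (n 0 z (n 0 z (n 0 z z)))))) (n 1 z z))) (n 0 z (n 0 z (n 0 z (n 0 z (n 0 z (n 0 z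
 (n 0 z (n 0 z (n 0 z (n 0 z (n 0 z (n 0 z z))))))))))))) (n 925 (n 0 z (n 0 z (n 0 z (n 0 z (n
 0 z (n 0 z (n 0 z z))))))) (n 389 (n 0 z (n 0 z (n 0 z (n 0 z (n 0 z (n 0 z (n 0 z (n 0 z (n 0
 z (n 0 z z)))))))))) (n 389 (n 2 z (n 0 z (n 0 z (n 0 z (n 0 z (n 0 z (n 0 z (n 0 z (n 0 z (n 0
 z z)))))))))) z))))))) (n 0 (n 807 (n 0 z (n 0 z (n 0 z (n 0 z (n 0 z (n 0 z (n 0 z (n 0 z (n 0
 z (n 0 z (n 0 z z))))))))))) (n 55 (n 0 z (n 0 z (n 0 z (n 0 z (n 0 z (n 0 z (n 0 z z))))))) (n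
 55 (n 0 z (n 0 z (n 0 z (n 0 z (n 0 z (n 0 z (n 0 z z))))))) (n 805 (n 0 z (n 0 z (n 0 z (n 0 z
 (n 0 z (n 0 z (n 0 z z))))))) (n 341 (n 0 z (n 0 z (n 0 z (n 0 z (n 0 z (n 0 z (n 0 z (n 0 z (n
 0 z (n 0 z z)))))))))) (n 341 (n 0 z (n
 0x6ea8c864078237a08607a07a08208237e282085f8df7de8a27a37a181f81f7e17a38608a08a086185f8600801 z
 (n 0 z (n 0 z (n 0 z (n 0 z (n 0 z (n 0 z (n 0 z (n 0 z z)))))))))) z)))))) (n 0 (n 251 (n 0 z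
 (n 0 z (n 0 z (n 0 z (n 0 z (n 0 z (n 0 z (n 0 z (n 0 z (n 0 z (n 0 z z))))))))))) (n 251 (n 0
 z (n 0 z (n 0 z (n 0 z (n 0 z (n 0 z (n 0 z (n 0 z (n 2 (n 1 z (n 1 z (n 1 z z))) (n 0 z (n 0 z
 z))))))))))) (n 243 (n 0 z (n 0 z (n 0 z (n 0 z (n 0 z (n 0 z (n 0 z (n 0 z (n 0 z (n 0 z (n 0
 z (n 0 z (n 0 z (n 0 z (n 0 z (n 0 z (n 0 z (n 0 z (n 0 z (n 0 z (n 0 z z)))))))))))))))))))))
 (n 241 (n 0 z (n 0 z (n 0 z (n 0 z (n 0 z (n 0 z (n 0 z (n 0 z (n 0 z (n 0 z (n 0 z (n 0 z (n 0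
 z (n 0 z (n 0 z (n 0 z (n 0 z (n 0 z z)))))))))))))))))) (n 241 (n 0 z (n 0 z (n 0 z (n 0 z (n
 0 z (n 0 z (n 0 z (n 0 z (n 0 z (n 0 z (n 0 z (n 0 z (n 0 z (n 0 z (n 2 z (n 0 z (n 0 z (n 0 z
 z)))))))))))))))))) z))))) (n 0 (n 0 z (n 3 (n 0 z (n 0 z (n 0 z (n 0 z (n 0 z (n 0 z (n 0 z (n
 0 z z)))))))) (n 1 (n 0 z (n 0 z (n 0 z (n 0 z (n 0 z (n 0 z (n 0 z (n 0 z (n 0 z (n 0 z (n 0 z
 (n 0 z (n 0 z (n 0 z z)))))))))))))) (n 1 (n 0 z (n 0 z (n 0 z (n 0 z (n 0 z (n 0 z (n 0 z (n 0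
 z (n 0 z (n 0 z (n 2 z (n 0 z (n 0 z (n 0 z z)))))))))))))) z)))) (n 0 (n 723 (n 0 z (n 0 z (n
 2 (n 2 (n 0 z (n 0 z (n 0 (n 8868627 z z) (n 0 z (n 0 z (n 0 z z)))))) (n 1 z z)) (n 0 z (n 0 z
 (n 0 z (n 0 z (n 0 z z)))))))) (n 97 (n 2 (n 0 z z) (n 0 z (n 0 z (n 0 z (n 0 z (n 0 z (n 0 z
 (n 0 z z)))))))) (n 97 (n 0 z (n 0 z (n 0 z (n 0 z (n 0 z (n 0 z (n 0 z (n 0 z z)))))))) z)))
 (n 0 (n 5 (n 0 z (n 0 z (n 0 z (n 0 z z)))) (n 5 (n 0 z (n 0 z (n 2 z (n 0 z z)))) z)) (n 0 (n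
 0 z z) (n 0 z z))))))))))) (n 0 (n 1 (n 3740 z (n 5443683 z (n 3740 z (n 2 z (n 3740 z (n 3740
 z z)))))) (n 1 (n 6636323 z (n 6636323 z (n 6636323 z (n 6636323 z (n 6636323 z (n 6636323 z
 z)))))) (n 1 (n 5378147 z (n 3740 z (n 3740 z (n 3692 z (n 5379595 z (n 5506603 z z)))))) z)))
 (n 0 (n 0x83524d93024b38d811 (n 0 (n 0 (n 7754515 z (n 7754515 z (n 7754515 z (n 7754515 z (n
 7754515 z (n 7754515 z z)))))) z) (n 0 (n 462 (n 1 (n 7540835 z (n 7540835 z (n 7540835 z (n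
 7540835 z (n 7540835 z (n 7540835 z z)))))) (n 0 z (n 1 (n 7684899 z (n 7684899 z (n 7684899 z
 (n 7684899 z (n 7684899 z (n 7684899 z z)))))) z))) (n 209 (n 1 (n 3692 z (n 3692 z (n 3692 z
 (n 3692 z (n 7750411 z (n 3692 z z)))))) (n 1 (n 7540835 z (n 7540835 z (n 7540835 z (n 7540835
 z (n 7540835 z (n 7540835 z z)))))) (n 1 (n 3692 z (n 3692 z (n 7750411 z (n 3692 z (n 3692 z
 (n 3692 z z)))))) (n 1 (n 7540835 z (n 7540835 z (n 7540835 z (n 7540835 z (n 7540835 z (n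
 7540835 z z)))))) (n 1 (n 7540835 z (n 7540835 z (n 7540835 z (n 7540835 z (n 7540835 z (n
 7540835 z z)))))) (n 1 (n 3692 z (n 2 z (n 1644 z (n 6621003 z (n 7750411 z (n 3692 z z))))))
 z)))))) (n 325 (n 1 (n 7540835 z (n 7754515 z (n 7540835 z (n 7540835 z (n 7540835 z (n 7540835
 z z)))))) (n 1 (n 7476539 z (n 7754515 z (n 6559531 z (n 7476539 z (n 7476539 z (n 7476539 z
 z)))))) (n 1 (n 7540835 z (n 7754515 z (n 7540835 z (n 7540835 z (n 7540835 z (n 7540835 z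
 z)))))) (n 1 (n 3724 z (n 7754515 z (n 3724 z (n 3708 z (n 3724 z (n 3724 z z)))))) (n 0 z (n 1
 (n 4392747 z (n 7754515 z (n 3213099 z (n 4392747 z (n 4392747 z (n 5517683 z z)))))) (n 1 (n
 3724 z (n 7754515 z (n
 0x6ea4a2080786281f7e27e07607a082081f85f8218a07a17e08238218217a17e182081f8208e081f8208600801 z
 (n 3724 z (n 6625099 z (n 3724 z z)))))) z))))))) (n 443 (n 1 (n 10 z (n 3500 z (n 3500 z (n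
 3500 z (n 6555483 z (n 3500 z z)))))) (n 1 (n 7540835 z (n 7540835 z (n 7540835 z (n 7540835 z
 (n 7540835 z (n 7540835 z z)))))) (n 0 z (n 1 (n 3500 z (n 3500 z (n 3500 z (n 3500 z (n 3500 z
 (n 3500 z z)))))) (n 0 z (n 1 (n 7754515 z (n 7754515 z (n 7754515 z (n 7754515 z (n 7754515 z
 (n 7754515 z z)))))) (n 1 (n 7754515 z (n 7754515 z (n 7754515 z (n 7754515 z (n 7754515 z (n
 7754515 z z)))))) z))))))) (n 467 (n 1 (n 7540835 z (n 7540835 z (n 7540835 z (n 7540835 z (n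
 7540835 z (n 7540835 z z)))))) (n 0 z (n 1 (n 7684899 z (n 7684899 z (n 7684899 z (n 7684899 z
 (n 7684899 z (n 7684899 z z)))))) z))) (n 717 (n 1 (n 7540835 z (n 7540835 z (n 7540835 z (n
 7540835 z (n 7540835 z (n 7540835 z z)))))) (n 1 (n 18 z (n 5612 z (n 5612 z (n 5612 z (n
 7750411 z (n 5612 z z)))))) (n 1 (n 7754515 z (n 7754515 z (n 7754515 z (n 7754515 z (n 7754515
 z (n 7754515 z z)))))) z))) (n 0 (n 1 (n 7754515 z (n 7754515 z (n 7754515 z (n 7754515 z (n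
 7754515 z (n 7754515 z z)))))) (n 1 (n 7754515 z (n 7754515 z (n 7754515 z (n 7754515 z (n
 7754515 z (n 7754515 z z)))))) (n 1 (n 5378163 z (n 3740 z (n 3740 z (n 3692 z (n 5379851 z (n
 5506859 z z)))))) z))) z))))))) (n 0 (n 0 (n 0 z (n 0 z (n 0 z z))) (n 0 (n 0 z (n 0 z z)) (n 0
 (n 0 z z) z))) (n 0 (n 209 (n 0 (n 0 z (n 0 z (n 0 z z))) (n 0 (n 0 z (n 0 z (n 0 z z))) (n 0
 (n 0 z (n 0 (n
 0x30a8e8640382082082082082082082082082086082082082081f81f81f8608208208208207e18208208200801 z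
 z) (n 0 z z))) (n 0 (n 0 z (n 0 (n 8589411 z z) (n 0 z z))) (n 0 (n 0 z (n 0 z (n 0 z z))) (n 0
 (n 0 z (n 0 z (n 0 z z))) z)))))) (n 465 (n 0 (n 0 z (n 0 z (n 0 z z))) (n 0 (n 0 z (n 0 z (n 0
 z z))) (n 0 (n 0 z (n 0 z (n 0 z z))) (n 0 (n 0 z (n 0 z (n 0 z z))) (n 0 (n 0 z (n 0 z (n 0 z
 z))) (n 0 (n 0 z (n 0 z (n 0 z z))) (n 0 (n 0 z (n 0 z (n 0 z z))) (n 0 (n 0 z (n 0 z (n 0 z
 z))) (n 0 (n 0 z (n 0 z (n 0 z z))) (n 0 (n 0 z (n 0 (n 8868419 z z) (n 0 z z))) (n 0 (n 0 z (n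
 0 z (n 0 z z))) z))))))))))) (n 325 (n 0 (n 0 z (n 0 z (n 0 z z))) (n 0 (n 0 z (n 0 z (n 0 z
 z))) (n 0 (n 0 z (n 0 z (n 0 z z))) (n 0 (n 0 z (n 0 z (n 0 z z))) (n 0 (n 0 z (n 0 z (n 0 z
 z))) (n 0 (n 0 z (n 0 z (n 0 z z))) (n 0 (n 0 z (n 0 z (n 0 z z))) z))))))) (n 443 (n 0 (n 0 z
 (n 0 z (n 0 z z))) (n 0 (n 0 z (n 0 z (n 0 z z))) (n 0 (n 0 z (n 0 z (n 0 z z))) (n 0 (n 0 z (n
 0 z (n 0 z z))) (n 0 (n 0 (n 8864339 z (n 8864339 z z)) (n 0 z (n 0 (n 8847899 z (n 8847899 z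
 z)) z))) (n 0 (n 0 z (n 0 z (n 0 z z))) (n 0 (n 0 z (n 0 z (n 0 (n 8803091 z z) z))) z)))))))
 (n 437 (n 0 (n 0 z (n 0 z (n 0 z z))) (n 0 (n 0 z (n 0 z (n 0 z z))) (n 0 (n 0 z (n 0 (n
 8855811 z (n 8855811 z z)) (n 0 z z))) (n 0 (n 0 (n 5376027 z z) (n 0 z (n 0 z z))) (n 0 (n 0 z
 (n 0 (n 8855811 z z) (n 0 z z))) (n 0 (n 0 z (n 0 z (n 0 z z))) (n 0 (n 0 z (n 0 z (n 0 z z)))
 (n 0 (n 0 z (n 0 z (n 0 z z))) (n 0 (n 0 z (n 0 z (n 0 z z))) (n 0 (n 0 z (n 0 z (n 0 z z))) (n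
 0 (n 0 z (n 0 z (n 0 z z))) (n 0 (n 0 z (n 0 z (n 0 z z))) (n 0 (n 0 z (n 0 z (n 0 z z)))
 z))))))))))))) (n 131 (n 0 (n 0 (n 8864339 z z) (n 0 z (n 0 z z))) (n 0 (n 0 z (n 0 z (n 0 z
 z))) (n 0 (n 0 (n 7735371 z (n 8804171 z z)) (n 0 (n 8800091 z (n
 0x30a4ea080381e85f7df86085f82082082082186082082082081f7df81f85f8208208207e07e18208207e00801 z
 z)) (n 0 (n
 0x3064ea08038208208208208208208208208208208208208208207e08208207e08208208208208208208200801 z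
 (n 8525579 z z)) z))) (n 0 (n 0 z (n 0 (n
 0x30a4ea080381f8208208208208208208208208208208208208208208208208208208208208618208208200801 z
 (n 7735371 z z)) (n 0 z z))) (n 0 (n 0 z (n 0 z (n 0 z z))) (n 0 (n 0 z (n 0 (n 8523891 z (n
 0x10a4ea08030821 z z)) (n 0 z z))) (n 0 (n 0 z (n 0 z (n 0 z z))) (n 0 (n 0 z (n 0 z (n 0 z
 z))) (n 0 (n 0 z (n 0 z (n 0 z z))) (n 0 (n 0 z (n 0 z (n 0 z z))) (n 0 (n 0 z (n 0 (n 8855811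
 z z) (n 0 z z))) z))))))))))) (n 467 (n 0 (n 0 z (n 0 z (n 0 z z))) (n 0 (n 0 z (n 0 z (n 0 z
 z))) (n 0 (n 0 z (n 0 z (n 0 z z))) z))) (n 475 (n 0 (n 0 z (n 0 z (n 0 z z))) (n 0 (n 0 z (n 0
 z (n 0 z z))) (n 0 (n 0 z (n 0 z (n 0 z z))) (n 0 (n 0 z (n 0 z (n 0 z z))) (n 0 (n 0 z (n 0 z
 (n 0 z z))) (n 0 (n 0 z (n 0 z (n 0 z z))) (n 0 (n 0 z (n 0 z (n 0 z z))) z))))))) (n 135 (n 0
 (n 0 z (n 0 z (n 0 z z))) (n 0 (n 0 z (n 0 z (n 0 (n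
 0x30e70e600782182182181f8218208208208208208208208208208208208208208208208208a08208208200801 z
 z) z))) (n 0 (n 0 z (n 0 (n
 0x876876503830ed0c0a038608207e081f82182082082082082082082082082082082082082082082082082081f8208201001
 z z) (n 0 z z))) (n 0 (n 0 z (n 0 z (n 0 z z))) (n 0 (n 0 z (n 0 z (n 0 z z))) (n 0 (n 0 z (n 0
 z (n 0 z z))) (n 0 (n 0 (n
 0x30eb0ea0078608207df85f81f7de85f8208638627df7df8208607df81e81f86281d8217e08218a08208600801 z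
 (n
 0x12109d8140e130eb0ea003898f8c738e6e8194837292867c7f7a757c94a155956976907283847e79857d8976997787718581737a798a967491867d9b781009
 z z)) (n 0 z (n 0 z z))) (n 0 (n 0 z (n 0 (n 8800091 z z) (n 0 z z))) (n 0 (n 0 z (n 0 z (n 0 z
 z))) (n 0 (n 0 z (n 0 z (n 0 z z))) (n 0 (n 0 z (n 0 (n 8800091 z z) (n 0 z z))) (n 0 (n 0 z (n
 0 (n
 0x50ed0eca038208207e082082082182082082081f86085f7a082082081f8208608208208208208208208200801 z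
 (n 0xd87181f82081f8207e182082082082082082082082081f81f8208208208208208208618208208200041 z z))
 (n 0 z z))) (n 0 (n 0 z (n 0 z (n 0 z z))) (n 0 (n 0 z (n 0 z (n 0 z z))) (n 0 (n 0 z (n 0 z (n
 0 z z))) (n 0 (n 0 z (n 0 z (n 0 z z))) (n 0 (n 0 z (n 0 z (n 0 z z))) (n 0 (n 0 z (n 0 z (n 0
 z z))) (n 0 (n 0 z (n 0 z (n 0 z z))) (n 0 (n 0 z (n 0 (n 8525579 z z) (n 0 z z))) (n 0 (n 0 z
 (n 0 (n 8855811 z z) (n 0 z z))) z))))))))))))))))))))) (n 3 (n 0 (n 0 z (n 0 z (n 0 z z))) (n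
 0 (n 0 (n
 0x50a8ea040389865f5a18185669705619df8616af9da79c91c61b9a18e4952b4cb0a7a58759a749c56a8540801 z
 z) (n 0 z (n 0 z z))) (n 0 (n 0 z (n 0 z (n 0 z z))) (n 0 (n 0 (n
 0x2ecb0a840781f82082082082082082082082082082082082082082082082081f8208208208208208208200801 z
 z) (n 0 z (n 0 (n 8800091 z z) z))) (n 0 (n 0 z (n 0 z (n 0 (n 8803091 z z) z))) (n 0 (n 0 z (n
 0 z (n 0 z z))) (n 0 (n 0 z (n 0 z (n 0 z z))) (n 0 (n 0 z (n 0 z (n 0 z z))) z)))))))) (n 717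
 (n 0 (n 0 z (n 0 z (n 0 z z))) (n 0 (n 0 z (n 0 z (n 0 z z))) (n 0 (n 0 z (n 0 z (n 0 z z)))
 z))) (n 701 (n 0 (n 0 z (n 0 z (n 0 z z))) (n 0 (n 0 z (n 0 z (n 0 z z))) (n 0 (n 0 z (n 0 z (n
 0 z z))) (n 0 (n 0 z (n 0 (n 8855811 z z) (n 0 z z))) (n 0 (n 0 z (n 0 z (n 0 (n 8589411 z z)
 z))) (n 0 (n 0 z (n 0 z (n 0 z z))) (n 0 (n 0 z (n 0 z (n 0 z z))) (n 0 (n 0 z (n 0 z (n 0 z
 z))) (n 0 (n 0 z (n 0 z (n 0 z z))) (n 0 (n 0 z (n 0 (n 8733475 z z) (n 0 z z))) z)))))))))) (n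
 141 (n 0 (n 0 z (n 0 z (n 0 z z))) (n 0 (n 0 z (n 0 (n 8872203 z z) (n 0 z z))) (n 0 (n 0 z (n
 0 z (n 0 z z))) (n 0 (n 0 z (n 0 z (n 0 z z))) (n 0 (n 0 z (n 0 (n 8855811 z (n 8855811 z z))
 (n 0 (n 8855811 z (n 8855811 z z)) z))) (n 0 (n 0 z (n 0 z (n 0 (n 8855811 z z) z))) (n 0 (n 0
 z (n 0 z (n 0 z z))) (n 0 (n 0 z (n 0 z (n 0 z z))) (n 0 (n 0 (n
 0xd87481f8208208207e08608207e082186082081f82181f7df81f81f8208207e08207e08208207e10041 z (n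
 8804171 z z)) (n 0 z (n 0 z z))) (n 0 (n 0 z (n 0 z (n 0 z z))) (n 0 (n 0 z (n 0 z (n 0 z z)))
 (n 0 (n 0 z (n 0 z (n 0 z z))) (n 0 (n 0 z (n 0 z (n 0 z z))) (n 0 (n 0 z (n 0 z (n 0 z z))) (n
 0 (n 0 z (n 0 z (n 0 z z))) (n 0 (n 0 z (n 0 z (n 0 z z))) (n 0 (n 0 z (n 0 z (n 0 z z))) (n 0
 (n 0 z (n 0 (n 8855811 z z) (n 0 z z))) z)))))))))))))))))) (n 5 (n 0 (n 0 z (n 0 (n 8733475 z
 z) (n 0 z z))) (n 0 (n 0 z (n 0 z (n 0 z z))) (n 0 (n 0 z (n 0 z (n 0 z z))) (n 0 (n 0 z (n 0 z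
 (n 0 z z))) (n 0 (n 0 z (n 0 z (n 0 z z))) (n 0 (n 0 (n 8652651 z z) (n 0 z (n 0 z z))) (n 0 (n
 0 z (n 0 (n 8733475 z (n 8733475 z z)) (n 0 z z))) (n 0 (n 0 z (n 0 z (n 0 z z))) (n 0 (n 0 z
 (n 0 z (n 0 z z))) (n 0 (n 0 z (n 0 z (n 0 (n 8733475 z z) z))) (n 0 (n 0 z (n 0 z (n 0 z z)))
 (n 0 (n 0 z (n 0 z (n 0 z z))) (n 0 (n 0 z (n 0 z (n 0 z z))) (n 0 (n 0 z (n 0 z (n 0 z z)))
 z)))))))))))))) (n 4 (n 0 (n 0 z (n 0 z (n 0 z z))) (n 0 (n 0 z (n 0 z (n 0 z z))) (n 0 (n 0 z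
 (n 0 z (n 0 z z))) (n 0 (n 0 z (n 0 z (n 0 (n 8523891 z (n 8847899 z z)) z))) z)))) (n 467 (n 0
 (n 0 z (n 0 z (n 0 z z))) (n 0 (n 0 z (n 0 z (n 0 z z))) (n 0 (n 0 z (n 0 z (n 0 z z))) (n 0 (n
 0 z (n 0 (n 8803091 z z) (n 0 z z))) z)))) (n 461 (n 0 (n 0 z (n 0 (n 8855811 z z) (n 0 z z)))
 (n 0 (n 0 (n
 0x30a8ea84078208208208208218208208208208208208208208208208208208208208208208208208208200801 z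
 (n 0xd87081f8208208207e08608207e082186082081f82181f7df81f81f8208207e08207e08208207e10041 z z))
 (n 0 (n 8855811 z (n 8855811 z z)) (n 0 (n 8855811 z (n 8855811 z z)) z))) (n 0 (n 0 (n
 0x90a8a804078d56a1622a5a4e6abb52181972676dd096dd9da81c9297ae69fb53a0976a6f0b693606ea9d20801 z
 z) (n 0 z (n 0 (n 8855811 z z) z))) (n 0 (n 0 z (n 0 z (n 0 z z))) (n 0 (n 0 z (n 0 (n 8855811
 z (n 8855811 z z)) (n 0 z z))) (n 0 (n 0 z (n 0 (n 8855811 z (n 8855811 z z)) (n 0 z z))) (n 0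
 (n 0 (n 7669867 z (n
 0x30a8ea84078208208208208218208208208208208208208208208208208208208208208208208208208200801 z
 z)) (n 0 z (n 0 (n 8523891 z (n 8525579 z z)) z))) (n 0 (n 0 z (n 0 (n 8523891 z (n 8525579 z
 z)) (n 0 z z))) (n 0 (n 0 z (n 0 (n 8855811 z (n 8855811 z z)) (n 0 z z))) (n 0 (n 0 (n
 0x30a8ea84078208208208208218208208208208208208208208208208208208208208208208208208208200801 z
 (n 0x4b0641d87082281f82865e5e175b91b7a39558e28a58e07e88db4e684f98eaa172049f7a55e68d44a78200081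
 z z)) (n 0 (n 8652587 z (n
 0x30a8ea84078208208208208218208208208208208208208208208208208208208208208208208208208200801 z
 z)) (n 0 (n
 0x2ea908640381f8207e08208218208208208208208208208208207df8208208208208208208208208208200801 z
 (n 0xd87081f8208208207e08608207e082186082081f82181f7df81f81f8208207e08207e08208207e10041 z z))
 z))) (n 0 (n 0 (n 8798987 z z) (n 0 z (n 0 z z))) (n 0 (n 0 (n 3278875 z (n 3278875 z z)) (n 0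
 (n 8855811 z (n 8855811 z z)) (n 0 (n 8855811 z (n 8855811 z z)) z))) (n 0 (n 0 (n
 0x90a8a804079e18da9da821859a5d7247dd72b99675a86289a7a9ad57e6572562623a9e819920925c969220801 z
 z) (n 0 z (n 0 (n 8652587 z z) z))) (n 0 (n 0 z (n 0 (n 8523891 z (n 8525115 z z)) (n 0 z z)))
 (n 0 (n 0 z (n 0 (n 8855811 z z) (n 0 z z))) (n 0 (n 0 z (n 0 z (n 0 z z))) (n 0 (n 0 (n
 0xd87482085f7e08207e081f82082082082082082082081f7df81f8208218207e08207e18208208210041 z (n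
 8804171 z z)) (n 0 z (n 0 (n 8868419 z (n 8868419 z z)) z))) (n 0 (n 0 z (n 0 z (n 0 z z))) (n
 0 (n 0 z (n 0 z (n 0 z z))) (n 0 (n 0 z (n 0 z (n 0 z z))) (n 0 (n 0 z (n 0 z (n 0 z z))) (n 0
 (n 0 z (n 0 (n 8525579 z z) (n 0 z z))) (n 0 (n 0 (n
 0x30eb0ea40381f81f7e082081e82182082082181f7e08208208208208208208208208208208208208208200801 z
 z) (n 0 z (n 0 z z))) (n 0 (n 0 z (n 0 (n 8523891 z (n 8652587 z z)) (n 0 z z))) (n 0 (n 0 z (n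
 0 z (n 0 z z))) (n 0 (n 0 z (n 0 z (n 0 z z))) (n 0 (n 0 z (n 0 z (n 0 z z))) (n 0 (n 0 z (n 0
 (n 8798987 z (n 8798987 z z)) (n 0 z z))) (n 0 (n 0 z (n 0 z (n 0 z z))) (n 0 (n 0 z (n 0 (n
 8800091 z z) (n 0 z z))) (n 0 (n 0 z (n 0 (n 8800091 z (n
 0x30a8ea840781e85f7df82086082082082086182082082082081f7df85f81f8208208208207e082081f8200801 z
 z)) (n 0 z z))) (n 0 (n 0 z (n 0 z (n 0 z z))) z)))))))))))))))))))))))))))))))) (n 463 (n 0 (n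
 0 z (n 0 z (n 0 z z))) (n 0 (n 0 z (n 0 z (n 0 z z))) (n 0 (n 0 z (n 0 z (n 0 z z))) (n 0 (n 0
 z (n 0 (n 0x10a4ea08030821 z z) (n 0 z z))) (n 0 (n 0 z (n 0 (n 0x10a4ea08030821 z (n 7538779 z
 z)) (n 0 z z))) (n 0 (n 0 z (n 0 z (n 0 z z))) (n 0 (n 0 (n 8864339 z z) (n 0 z (n 0 z z))) (n
 0 (n 0 z (n 0 z (n 0 z z))) z)))))))) (n 3 (n 0 (n 0 z (n 0 z (n 0 z z))) (n 0 (n 0 z (n 0 (n
 8800091 z z) (n 0 z z))) (n 0 (n 0 (n 0x10a8ea84030821 z z) (n 0 z (n 0 z z))) (n 0 (n 0 z (n 0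
 z (n 0 z z))) (n 0 (n 0 z (n 0 (n 8803091 z z) (n 0 z z))) (n 0 (n 0 z (n 0 z (n 0 z z))) (n 0
 (n 0 (n 8864339 z (n 8864339 z z)) (n 0 z (n 0 (n 8523891 z (n 8525579 z z)) z))) z))))))) (n 1
 (n 0 (n 0 z (n 0 z (n 0 z z))) (n 0 (n 0 z (n 0 (n 5376107 z z) (n 0 z z))) (n 0 (n 0 z (n 0 z
 (n 0 z z))) (n 0 (n 0 z (n 0 z (n 0 z z))) (n 0 (n 0 z (n 0 z (n 0 z z))) (n 0 (n 0 z (n 0 z (n
 0 z z))) z)))))) (n 0 (n 0 (n 0 z (n 0 z (n 0 z z))) (n 0 (n 0 z (n 0 z (n 0 z z))) (n 0 (n 0 z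
 (n 0 z (n 0 z z))) z))) z))))))))))))))))))))) z)))) z) z)))) (n
 0x6caba2aa9d09baad0dd5185539507537454daac6caa62a4ea09a7550cd4d845d550153740 (n 0x7554ea6ea (n
 453 (n 6635571 z (n 0 z (n 2 z (n 10 z z)))) (n 451 (n 6496515 z (n 0 z (n 18 z (n 26 z (n 0 z
 (n 0 z z)))))) (n 450 (n 6496515 z (n 34 z (n 0 z (n
 0x4ca2ca08030d949504c060b2a32a080c165365310380ca6c602038237208618208207a27e08617df81a7e08a27e065e9a072289d81f81e82585f79e8617e18e02801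
 z (n 42 z (n 0 z (n 0 z (n 0 z (n 0 z (n
 0x8c86c20a070d94d90c40602a1b21081c165254010384ca8c602030995194400e1b28aa0801c06546310018c00c82610a8237a085f8228207a376086089f8218208618e161ea9f6dc81b7e28e196285d71e95e71f7df4801
 z (n 0 z (n 0 z (n 50 z z))))))))))))) (n 3 (n 6496515 z (n 0 z (n 58 z (n 66 z z)))) (n 1 (n
 6635571 z (n 0 z (n 74 z (n 82 z (n 0 z (n 0 z z)))))) (n 0 (n 6635571 z (n 90 z (n 0 z (n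
 0x2c84c84203059098c84060321b21001c064264200384ca48420078237608218218207a27e08617df81d7e08227e069f96072189e81f81f7e382079f8217e28e12801
 z (n 98 z (n 0 z (n 0 z (n 0 z (n 0 z (n
 0x4c42c6080701885900c0e1321b18900c165443120386c868624031190d84080e032a210081c36426410018c00c82610a8237a085f8228207a376086089f8218208618e161ea9f6dc81b7e28e196285d71e95e71f7df4801
 z (n 0 z (n 0 z (n 106 z z))))))))))))) z)))))) (n 453 (n 0 (n 0 z (n 1143 (n 0 z (n 0 z (n 0 z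
 (n 0 z (n 0 z (n 0 z (n 0 z (n 0 z (n 0 z (n 0 z (n 0 z (n 0 z (n 0 z (n 0 z (n 0 z (n 0 z (n 0
 z z))))))))))))))))) (n 1143 (n 0 z (n 0 z (n 0 z (n 0 z (n 0 z (n 0 z (n 0 z (n 0 z (n 0 z (n
 0 z (n 0 z (n 0 z (n 0 z (n 0 z (n 0 z (n 0 z (n 0 z z))))))))))))))))) (n 1141 (n 0 z (n 0 z
 (n 0 z (n 0 z (n
 0xbb2bb2080c176476310180ca4ca42078217a082081f8207a07e086182181e7e09a17e171e8607a576082291e82589f69f91f6218601801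
 z (n 0 z (n 0 z (n 0 z (n 0 z (n 0 z (n 0 z (n 0 z (n 0 z (n 0 z (n 0 z (n 0 z (n 0 z (n 0 z (n
 0 z (n 0 z (n 0 z (n 0 z z)))))))))))))))))))))) (n 1141 (n 0 z (n 0 z (n 0 z (n 0 z (n 0 z (n
 0 z (n 0 z (n 0 z (n 0 z (n 0 z (n 0 z (n 0 z (n 0 z (n 0 z (n 0 z (n 0 z (n 0 z (n 0 z (n 0 z
 (n 0 z (n 0 z (n 0 z z)))))))))))))))))))))) (n 1141 (n 0 z (n 0 z (n 0 z (n 0 z (n 0 z (n 0 z
 (n 0 z (n 0 z (n 0 z (n 0 z (n 0 z (n 0 z (n 0 z (n 0 z (n 0 z (n 0 z (n 0 z (n 0 z (n 0 z (n 0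
 z (n 0 z (n 0 z z)))))))))))))))))))))) (n 1153 (n 0 z (n 0 z (n 0 z z))) (n 1153 (n 0 z (n 0 z
 (n 0 z z))) (n 303 (n 0 z (n 0 z (n 0 z (n 0 z (n 0 z (n 0 z (n 0 z z))))))) (n 303 (n 0 z (n 0
 z (n 0 z (n 0 z (n 0 z (n 0 z (n 0 z z))))))) (n 1105 (n 0 z (n 0 z (n 0 z (n 0 z (n 0 z (n 0 z
 (n 0 z (n 0 z (n 0 z (n 0 z (n 0 z (n 0 z (n 0 z (n 0 z (n 0 z (n 0 z (n 0 z (n 0 z (n 0 z (n 0
 z (n 0 z (n 0 z (n 0 z z))))))))))))))))))))))) (n 1105 (n 0 z (n 0 z (n 0 z (n 0 z (n 0 z (n 0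
 z (n 0 z (n 0 z (n 0 z (n 0 z (n 0 z (n 0 z (n
 0xbb13b0a00c176476310180ca4ca42078217a082081f8207a07e086182181e7e09a17e171e8607a576082291e82589f69f91f6218601801
 z (n 0 z (n 0 z (n 0 z (n 0 z (n 0 z (n 0 z (n 0 z (n 0 z (n 0 z (n 0 z
 z))))))))))))))))))))))) (n 1105 (n 0 z (n 0 z (n 0 z (n 0 z (n 0 z (n 0 z (n 0 z (n 0 z (n 0 z
 (n 0 z (n 0 z (n 0 z (n 0 z (n 0 z (n 0 z (n 0 z (n 0 z (n 0 z (n 0 z (n 0 z (n 0 z (n 0 z (n 0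
 z z))))))))))))))))))))))) z))))))))))))) (n 0 (n 951 (n 0 z (n 0 z (n 0 z (n 0 z (n 0 z (n 0 z
 (n 0 z (n 0 z (n 0 z (n 0 z (n 0 z (n 0 z (n 0 z (n 0 z z)))))))))))))) (n 951 (n 0 z (n 0 z (n
 0 z (n 0 z (n 0 z (n 0 z (n 0 z (n 0 z (n 0 z (n 0 z (n 0 z (n 0 z (n 0 z (n 0 z
 z)))))))))))))) (n 949 (n 0 z (n 0 z (n 0 z (n 0 z (n 0 z (n 0 z (n 0 z (n 0 z (n 0 z (n 0 z (n
 0 z (n 0 z (n 0 z (n 0 z (n 0 z (n 0 z (n 0 z (n 0 z (n 0 z (n 0 z (n 0 z (n 0 z (n 0 z (n 0 z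
 (n 0 z (n 0 z (n 0 z (n 0 z (n 0 z (n 0 z (n 0 z (n 0 z (n 0 z
 z))))))))))))))))))))))))))))))))) (n 949 (n 0 z (n 0 z (n 0 z (n 0 z (n 0 z (n 0 z (n 0 z (n 0
 z (n 0 z (n 0 z (n 0 z (n 0 z (n 0 z (n 0 z (n 0 z (n 0 z (n 0 z (n 0 z (n 0 z (n
 0x32a32a101c176576410182ec8ec62038217a082081f8207a07e086182181e7e09a17e171e8607a576082291e82589f69f91f6218601801
 z (n 0 z (n 0 z (n 0 z (n 0 z (n 0 z (n 0 z (n 0 z (n 0 z (n 0 z (n 0 z (n 0 z (n 0 z (n 0 z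
 z))))))))))))))))))))))))))))))))) (n 949 (n 0 z (n 0 z (n 0 z (n 0 z (n 0 z (n 0 z (n 0 z (n 0
 z (n 0 z (n 0 z (n 0 z (n 0 z (n 0 z (n 0 z (n 0 z (n 0 z (n 0 z (n 0 z (n 0 z (n 0 z (n 0 z (n
 0 z (n 0 z (n 0 z (n 0 z (n 0 z (n 0 z (n 0 z (n 0 z (n 0 z (n 0 z (n 0 z (n 0 z
 z))))))))))))))))))))))))))))))))) (n 295 (n 0 z (n 0 z (n 0 z z))) (n 295 (n 0 z (n 0 z (n 0 z
 z))) (n 913 (n 0 z (n 0 z (n 0 z (n 0 z (n 0 z (n 0 z (n 0 z (n 0 z (n 0 z (n 0 z (n 0 z (n 0 z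
 (n 0 z (n 0 z (n 0 z (n 0 z (n 0 z z))))))))))))))))) (n 913 (n 0 z (n 0 z (n 0 z (n 0 z (n 0 z
 (n 0 z (n 0 z (n 0 z (n 0 z (n 0 z (n 0 z (n 0 z (n 0 z (n 0 z (n 0 z (n 0 z (n 0 z
 z))))))))))))))))) (n 301 (n 0 z (n 0 z (n 0 z (n 0 z (n 0 z (n 0 z (n 0 z (n 0 z (n 0 z (n
 0xbb13b0a00c065465420382ec8ec62038217a082081f8207a07e086182181e7e09a17e171e8607a576082291e82589f69f91f6218601801
 z (n 0 z (n 0 z (n 0 z (n 0 z (n 0 z (n 0 z (n 0 z (n 0 z (n 0 z (n 0 z (n 0 z (n 0 z (n 0 z (n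
 0 z (n 0 z (n 0 z (n 0 z z))))))))))))))))))))))))))) (n 301 (n 0 z (n 0 z (n 0 z (n 0 z (n 0 z
 (n 0 z (n 0 z (n 0 z (n 0 z (n 0 z (n 0 z (n 0 z (n 0 z (n 0 z (n 0 z (n 0 z (n 0 z (n 0 z (n 0
 z (n 0 z (n 0 z (n 0 z (n 0 z (n 0 z (n 0 z (n 0 z (n 0 z z))))))))))))))))))))))))))) (n 301
 (n 0 z (n 0 z (n 0 z (n 0 z (n 0 z (n 0 z (n 0 z (n 0 z (n 0 z (n 0 z (n 0 z (n 0 z (n 0 z (n 0
 z (n 0 z (n 0 z (n 0 z (n 0 z (n 0 z (n 0 z (n 0 z (n 0 z (n 0 z (n 0 z (n 0 z (n 0 z (n 0 z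
 z))))))))))))))))))))))))))) z)))))))))))) (n 0 (n 0 z (n 901 (n 0 z (n 0 z (n 0 z (n 0 z (n 0
 z (n 0 z (n 0 z (n 0 z (n 0 z (n 0 z (n 0 z (n 0 z (n 0 z (n 0 z (n 0 z (n 0 z (n 0 z (n
 0x194d94c80e000000ecaeca0031021 z (n 0 z (n 0 z (n 0 z z))))))))))))))))))))) (n 901 (n 0 z (n
 0 z (n 0 z (n 0 z (n 0 z (n 0 z (n 0 z (n 0 z (n 0 z (n 0 z (n 0 z (n 0 z (n 0 z (n 0 z (n 0 z
 (n 0 z (n 0 z (n 0 z (n 0 z (n 0 z (n 0 z z))))))))))))))))))))) (n 901 (n 0 z (n 0 z (n 0 z (n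
 0 z (n 0 z (n 0 z (n 0 z (n 0 z (n 0 z (n 0 z (n 0 z (n 0 z (n 0 z (n 0 z (n 0 z (n 0 z (n 0 z
 (n 0 z (n 0 z (n 0 z (n 0 z z))))))))))))))))))))) (n 55 (n 0 z (n 0 z (n 0 z (n 0 z (n 0 z (n
 0 z (n 0 z (n 0 z (n 0 z (n 0 z (n 0 z (n 0 z (n 0 z (n 0 z (n 0 z (n 0 z (n 0 z
 z))))))))))))))))) (n 55 (n 0 z (n 0 z (n 0 z (n 0 z (n 0 z (n 0 z (n 0 z (n 0 z (n 0 z (n 0 z
 (n 0 z (n 0 z (n 0 z (n 0 z (n 0 z (n 0 z (n 0 z z))))))))))))))))) (n 111 (n 0 z (n 0 z (n 0 z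
 (n 0 z (n 0 z (n 0 z (n 0 z (n 0 z z)))))))) (n 111 (n 0 z (n 0 z (n 0 z (n 0 z (n 0 z (n 0 z
 (n 0 z (n 0 z z)))))))) (n 749 (n 0 z (n 0 z (n 0 z (n 0 z (n 0 z (n 0 z (n 0 z (n 0 z (n 0 z
 (n 0 z (n 0 z (n 0 z (n 0 z (n 0 z (n 0 z (n 0 z (n 0 z (n 0 z (n 0 z (n 0 z (n 0 z (n 0 z
 z)))))))))))))))))))))) (n 749 (n 0 z (n 0 z (n 0 z (n 0 z (n 0 z (n 0 z (n 0 z (n 0 z (n 0 z
 (n 0 z (n 0 z (n 0 z (n 0 z (n 0 z (n 0 z (n 0 z (n 0 z (n 0 z (n 0 z (n 0 z (n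
 0x1d8dd8c806000000ca6ca64071021 z (n 0 z z)))))))))))))))))))))) (n 749 (n 0 z (n 0 z (n 0 z (n
 0 z (n 0 z (n 0 z (n 0 z (n 0 z (n 0 z (n 0 z (n 0 z (n 0 z (n 0 z (n 0 z (n 0 z (n 0 z (n 0 z
 (n 0 z (n 0 z (n 0 z (n 0 z (n 0 z z)))))))))))))))))))))) z))))))))))) (n 0 (n 901 (n 0 z (n 0
 z (n 0 z (n 0 z (n 0 z (n 0 z (n 0 z (n 0 z (n 0 z (n 0 z (n 0 z (n 0 z (n 0 z (n 0 z (n 0 z (n
 0 z (n 0 z (n 0 z (n 0 z (n 0 z (n 0 z (n 0 z (n 0 z (n 0 z (n 0 z z)))))))))))))))))))))))))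
 (n 901 (n 0 z (n 0 z (n 0 z (n 0 z (n 0 z (n 0 z (n 0 z (n 0 z (n 0 z (n 0 z (n 0 z (n 0 z (n 0
 z (n 0 z (n 0 z (n 0x1d95d94006000000ca4ca40071021 z (n 0 z (n 0 z (n 0 z (n 0 z (n 0 z (n 0 z
 (n 0 z (n 0 z (n 0 z z))))))))))))))))))))))))) (n 901 (n 0 z (n 0 z (n 0 z (n 0 z (n 0 z (n 0
 z (n 0 z (n 0 z (n 0 z (n 0 z (n 0 z (n 0 z (n 0 z (n 0 z (n 0 z (n 0 z (n 0 z (n 0 z (n 0 z (n
 0 z (n 0 z (n 0 z (n 0 z (n 0 z (n 0 z z))))))))))))))))))))))))) (n 1153 (n 0 z (n 0 z (n 0 z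
 (n 0 z (n 0 z (n 0 z (n 0 z z))))))) (n 1153 (n 0 z (n 0 z (n 0 z (n 0 z (n 0 z (n 0 z (n 0 z
 z))))))) (n 757 (n 0 z (n 0 z (n 0 z (n 0 z (n 0 z (n 0 z (n 0 z (n 0 z z)))))))) (n 757 (n 0 z
 (n 0 z (n 0 z (n 0 z (n 0 z (n 0 z (n 0 z (n 0 z z)))))))) (n 745 (n 0 z (n 0 z (n 0 z (n 0 z
 (n 0 z (n 0 z (n 0 z (n 0 z (n
 0x176476420182ca8ca840782082082082182082082085e8e08207a086081f82082082081e8208208208607e08e08228201001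
 z (n 0 z (n 0 z (n 0 z (n 0 z (n 0 z (n 0 z (n 0 z (n 0 z (n 0 z (n 0 z (n 0 z (n 0 z (n 0 z (n
 0 z (n 0 z (n 0 z (n 0 z z)))))))))))))))))))))))))) (n 745 (n 0 z (n 0 z (n 0 z (n 0 z (n 0 z
 (n 0 z (n 0 z (n 0 z (n 0 z (n 0 z (n 0 z (n 0 z (n 0 z (n 0 z (n 0 z (n 0 z (n 0 z (n 0 z (n 0
 z (n 0 z (n 0 z (n 0 z (n 0 z (n 0 z (n 0 z (n 0 z z)))))))))))))))))))))))))) (n 745 (n 0 z (n
 0 z (n 0 z (n 0 z (n 0 z (n 0 z (n 0 z (n 0 z (n 0 z (n 0 z (n 0 z (n 0 z (n 0 z (n 0 z (n 0 z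
 (n 0 z (n 0 z (n 0 z (n 0 z (n 0 z (n 0 z (n 0 z (n 0 z (n 0 z (n 0 z (n 0 z
 z)))))))))))))))))))))))))) z)))))))))) (n 0 (n 0 z (n 0 z (n 247 (n 0 z (n 0 z (n 0 z (n 0 z
 (n 0 z (n 0 z (n 0 z (n 0 z (n 0 z (n 0 z (n 0 z (n 0 z (n 0 z (n 0 z (n 0 z (n 0 z (n 0 z (n 0
 z (n 0 z (n 0 z (n 0 z (n 0 z (n 0 z z))))))))))))))))))))))) (n 247 (n 0 z (n 0 z (n 0 z (n 0
 z (n 0 z (n 0 z (n 0 z (n 0 z (n 0 z (n 0 z (n 0 z (n 0 z (n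
 0xbb0bb0200c176576410180ea4ea42078217a082081f8207a07e086182181e7e09a17e171e8607a576082291e82589f69f91f6218601801
 z (n 0 z (n 0 z (n 0 z (n 0 z (n 0 z (n 0 z (n 0 z (n 0 z (n 0 z (n 0 z
 z))))))))))))))))))))))) (n 105 (n 0 z (n 0 z (n 0 z (n 0 z (n 0 z (n 0 z (n 0 z (n 0 z (n 0 z
 (n 0 z (n 0 z (n 0 z (n 0 z (n 0 z (n 0 z (n 0 z (n 0 z (n 0 z (n 0 z (n 0 z (n 0 z (n 0 z
 z)))))))))))))))))))))) (n 105 (n 0 z (n 0 z (n 0 z (n 0 z (n 0 z (n 0 z (n 0 z (n 0 z (n 0 z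
 (n 0 z (n 0 z (n 0 z (n 0 z (n 0 z (n 0 z (n 0 z (n 0 z (n 0 z (n 0 z (n 0 z (n
 0x176576510182ea4ea420782082082082182082082085e8e08207a086081f82082082081e8208208208607e08e08228201001
 z (n 0 z z)))))))))))))))))))))) (n 745 (n 0 z (n 0 z (n 0 z (n 0 z (n 0 z (n 0 z (n 0 z (n 0 z
 (n 0 z (n
 0x3b23b2080c176476310180ea8c8420382376082181f8207e382081f7df81f7a09e372069e9206e389d89b89d92686279f8e17217e01801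
 z (n 0 z z))))))))))) (n 745 (n 0 z (n 0 z (n 0 z (n 0 z (n 0 z (n 0 z (n 0 z (n 0 z (n 0 z (n
 0 z (n 0 z z))))))))))) (n 745 (n 0 z (n 0 z (n 0 z (n 0 z (n 0 z (n 0 z (n 0 z (n 0 z (n 0 z
 (n 0 z (n 0 z z))))))))))) z))))))))) (n 0 (n 0 z (n 1157 (n 0 z (n 0 z (n 0 z (n 0 z (n 0 z (n
 0 z (n 0 z (n 0 z (n 0 z (n
 0xbb0bb0200c075475420382ecaec82038217a082081f8207a07e086182181e7e09a17e171e8607a576082291e82589f69f91f6218601801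
 z (n 0 z (n 0 z (n 0 z (n 0 z (n 0 z (n 0 z (n 0 z (n 0 z (n 0 z (n 0 z (n 0 z (n 0 z (n 0 z (n
 0 z (n 0 z (n 0 z (n 0 z z))))))))))))))))))))))))))) (n 1157 (n 0 z (n 0 z (n 0 z (n 0 z (n 0
 z (n 0 z (n 0 z (n 0 z (n 0 z (n 0 z (n 0 z (n 0 z (n 0 z (n 0 z (n 0 z (n 0 z (n 0 z (n 0 z (n
 0 z (n 0 z (n 0 z (n 0 z (n 0 z (n 0 z (n 0 z (n 0 z (n 0 z z))))))))))))))))))))))))))) (n 99
 (n 0 z (n 0 z (n 0 z (n 0 z (n 0 z (n 0 z (n 0 z (n 0 z (n 0x1d95d94006000000ea4ea40071021 z (n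
 0 z (n 0 z (n 0 z (n 0 z (n 0 z (n 0 z (n 0 z (n 0 z (n 0 z (n 0 z (n 0 z (n 0 z (n 0 z (n 0 z
 (n 0 z (n 0 z (n 0 z z)))))))))))))))))))))))))) (n 99 (n 0 z (n 0 z (n 0 z (n 0 z (n 0 z (n 0
 z (n 0 z (n 0 z (n 0 z (n 0 z (n 0 z (n 0 z (n 0 z (n 0 z (n 0 z (n 0 z (n 0 z (n 0 z (n 0 z (n
 0 z (n 0 z (n 0 z (n 0 z (n 0 z (n 0 z (n 0 z z)))))))))))))))))))))))))) (n 101 (n 0 z (n 0 z
 (n 0 z (n 0 z (n 0 z (n 0 z (n 0 z (n 0 z (n 0 z (n 0 z (n 0 z z))))))))))) (n 101 (n 0 z (n 0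
 z (n 0 z (n 0 z (n 0 z (n 0 z (n 0 z (n 0 z (n 0 z (n
 0xbb23b1880c075464210180ca6ca02078217e07a181f8207618a086182081a7609df82071e8e27217de7e07a08618df75e95f7a28201801
 z (n 0 z z))))))))))) (n 101 (n 0 z (n 0 z (n 0 z (n 0 z (n 0 z (n 0 z (n 0 z (n 0 z (n 0 z (n
 0 z (n 0 z z))))))))))) z)))))))) (n 0 (n 1153 (n 0 z (n 0 z (n 0 z (n 0 z (n 0 z (n 0 z (n 0 z
 (n 0 z (n 0 z z))))))))) (n 1153 (n 0 z (n 0 z (n 0 z (n 0 z (n 0 z (n 0 z (n 0 z (n 0 z (n 0 z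
 z))))))))) (n 105 (n 0 z (n 0 z (n 0 z (n 0 z (n 0 z (n 0 z z)))))) (n 105 (n 0 z (n 0 z (n 0 z
 (n 0 z (n 0 z (n 0 z z)))))) (n 745 (n 0 z (n 0 z (n 0 z (n 0 z (n 0 z (n 0 z z)))))) (n 745 (n
 0 z (n 0 z (n 0 z (n 0 z (n 0 z (n 0 z z)))))) (n 745 (n 0 z (n 0 z (n 0 z (n 0 z (n 0 z (n 0 z
 z)))))) z))))))) (n 0 (n 0 z (n 243 (n 0 z (n 0 z (n 0 z (n 0 z (n 0 z (n 0 z (n 0 z (n 0 z (n
 0 z (n 0 z (n 0 z (n 0 z (n 0 z (n 0 z (n 0 z (n 0 z (n 0 z z))))))))))))))))) (n 243 (n 0 z (n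
 0 z (n 0 z (n 0 z (n 0 z (n 0 z (n 0 z (n 0 z (n 0 z (n 0 z (n 0 z (n 0 z (n 0 z (n 0 z (n 0 z
 (n 0 z (n 0 z z))))))))))))))))) (n 241 (n 0 z (n 0 z (n 0 z (n 0 z (n
 0xbb13b0a00c176176040180ca8ca84078217a082081f8207a07e086182181e7e09a17e171e8607a576082291e82589f69f91f6218601801
 z (n 0 z (n 0 z (n 0 z (n 0 z (n 0 z (n 0 z (n 0 z (n 0 z (n 0 z (n 0 z (n 0 z (n 0 z (n 0 z (n
 0 z (n 0 z (n 0 z (n 0 z z)))))))))))))))))))))) (n 241 (n 0 z (n 0 z (n 0 z (n 0 z (n 0 z (n 0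
 z (n 0 z (n 0 z (n 0 z (n 0 z (n 0 z (n 0 z (n 0 z (n 0 z (n 0 z (n 0 z (n 0 z (n 0 z (n 0 z (n
 0 z (n 0 z (n 0 z z)))))))))))))))))))))) (n 241 (n 0 z (n 0 z (n 0 z (n 0 z (n 0 z (n 0 z (n 0
 z (n 0 z (n 0 z (n 0 z (n 0 z (n 0 z (n 0 z (n 0 z (n 0 z (n 0 z (n 0 z (n 0 z (n 0 z (n 0 z (n
 0 z (n 0 z z)))))))))))))))))))))) z)))))) (n 0 (n 51 (n 0 z (n 0 z (n 0 z (n 0 z (n 0 z (n 0 z
 (n 0 z (n 0 z (n 0 z (n 0 z (n 0 z (n 0 z (n 0 z (n 0 z z)))))))))))))) (n 51 (n 0 z (n 0 z (n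
 0 z (n 0 z (n 0 z (n 0 z (n 0 z (n 0 z (n 0 z (n 0 z (n 0 z (n 0 z (n 0 z (n 0 z
 z)))))))))))))) (n 49 (n 0 z (n 0 z (n 0 z (n 0 z (n 0 z (n 0 z (n 0 z (n 0 z (n 0 z (n 0 z (n
 0 z (n 0 z (n 0 z (n 0 z (n 0 z (n 0 z (n 0 z (n 0 z (n 0 z (n 0 z (n 0 z (n 0 z (n 0 z (n 0 z
 (n 0 z (n 0 z (n 0 z (n 0 z (n 0 z (n 0 z (n 0 z (n 0 z (n 0 z
 z))))))))))))))))))))))))))))))))) (n 49 (n 0 z (n 0 z (n 0 z (n 0 z (n 0 z (n 0 z (n 0 z (n 0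
 z (n 0 z (n 0 z (n 0 z (n 0 z (n 0 z (n 0 z (n 0 z (n 0 z (n 0 z (n 0 z (n 0 z (n
 0xbb13b0a00c176176040180ca4ca42078217a082081f8207a07e086182181e7e09a17e171e8607a576082291e82589f69f91f6218601801
 z (n 0 z (n 0 z (n 0 z (n 0 z (n 0 z (n 0 z (n 0 z (n 0 z (n 0 z (n 0 z (n 0 z (n 0 z (n 0 z
 z))))))))))))))))))))))))))))))))) (n 49 (n 0 z (n 0 z (n 0 z (n 0 z (n 0 z (n 0 z (n 0 z (n 0
 z (n 0 z (n 0 z (n 0 z (n 0 z (n 0 z (n 0 z (n 0 z (n 0 z (n 0 z (n 0 z (n 0 z (n 0 z (n 0 z (n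
 0 z (n 0 z (n 0 z (n 0 z (n 0 z (n 0 z (n 0 z (n 0 z (n 0 z (n 0 z (n 0 z (n 0 z
 z))))))))))))))))))))))))))))))))) z))))) (n 0 (n 0 z (n 1 (n 0 z (n 0 z (n 0 z (n 0 z (n 0 z
 (n 0 z (n 0 z (n 0 z (n 0 z (n 0 z (n 0 z (n 0 z (n 0 z (n 0 z (n 0 z (n 0 z (n 0 z (n
 0x13b1bb1900c165365020382ca4ca40078207e082181f8207e07e07e086082182082082082082081f82082082086181f7e089f7df81f1801
 z (n 0 z (n 0 z (n 0 z z))))))))))))))))))))) (n 1 (n 0 z (n 0 z (n 0 z (n 0 z (n 0 z (n 0 z (n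
 0 z (n 0 z (n 0 z (n 0 z (n 0 z (n 0 z (n 0 z (n 0 z (n 0 z (n 0 z (n 0 z (n 0 z (n 0 z (n 0 z
 (n 0 z z))))))))))))))))))))) (n 1 (n 0 z (n 0 z (n 0 z (n 0 z (n 0 z (n 0 z (n 0 z (n 0 z (n 0
 z (n 0 z (n 0 z (n 0 z (n 0 z (n 0 z (n 0 z (n 0 z (n 0 z (n 0 z (n 0 z (n 0 z (n 0 z
 z))))))))))))))))))))) z)))) (n 0 (n 1 (n 0 z (n 0 z (n 0 z (n 0 z (n 0 z (n 0 z (n 0 z (n 0 z
 (n 0 z (n 0 z (n 0 z (n 0 z (n 0 z (n 0 z (n 0 z (n 0 z (n 0 z (n 0 z (n 0 z (n 0 z (n 0 z (n 0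
 z (n 0 z (n 0 z (n 0 z z))))))))))))))))))))))))) (n 1 (n 0 z (n 0 z (n 0 z (n 0 z (n 0 z (n 0
 z (n 0 z (n 0 z (n 0 z (n 0 z (n 0 z (n 0 z (n 0 z (n 0 z (n 0 z (n
 0x1d8dd8c806000000ca6ca64071021 z (n 0 z (n 0 z (n 0 z (n 0 z (n 0 z (n 0 z (n 0 z (n 0 z (n 0
 z z))))))))))))))))))))))))) (n 1 (n 0 z (n 0 z (n 0 z (n 0 z (n 0 z (n 0 z (n 0 z (n 0 z (n 0
 z (n 0 z (n 0 z (n 0 z (n 0 z (n 0 z (n 0 z (n 0 z (n 0 z (n 0 z (n 0 z (n 0 z (n 0 z (n 0 z (n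
 0 z (n 0 z (n 0 z z))))))))))))))))))))))))) z))) (n 0 (n 0 z (n 0 z z)) (n 0 (n 0 z z) (n 0 z
 z)))))))))))))) (n 0 (n 1 (n 6496515 z (n 6635571 z (n 6635571 z (n 6635571 z (n 6635571 z (n
 6635571 z z)))))) (n 0 z (n 1 (n 6496515 z (n 2 z (n 3612 z (n 3612 z (n 3612 z (n 3612 z
 z)))))) (n 1 (n 6496515 z (n 3612 z (n 10 z (n 3612 z (n 3612 z (n 3612 z z)))))) z)))) (n 0 (n
 0xeaa9e (n 0 (n 0 (n 7746571 z (n 7746571 z (n 7746571 z (n 7746571 z (n 7746571 z (n 7746571 z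
 z)))))) (n 0 (n 36548 z (n 36548 z (n 36548 z (n 36548 z (n 36548 z (n 36548 z z)))))) z)) (n 0
 (n 576 (n 1 (n 7684147 z (n 4331275 z (n 4331275 z (n 4331275 z (n 4331275 z (n 4331275 z
 z)))))) (n 0 z (n 1 (n 7684147 z (n 4331323 z (n 7734059 z (n 4331323 z (n 4331323 z (n 4331323
 z z)))))) z))) (n 451 (n 1 (n 7545091 z (n 7545091 z (n 7545091 z (n 7545091 z (n 7545091 z (n
 7545091 z z)))))) (n 0 z (n 1 (n 7746571 z (n 7746571 z (n 7746571 z (n 7746571 z (n 7746571 z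
 (n 7746571 z z)))))) (n 1 (n 4588 z (n 4588 z (n 4588 z (n 4588 z (n 4588 z (n 4588 z z))))))
 (n 0 z (n 0 z z)))))) (n 50 (n 1 (n 4604 z (n 4604 z (n 4604 z (n 4604 z (n 4604 z (n 4604 z
 z)))))) (n 0 z (n 0 z (n 1 (n 6637371 z (n 3612 z (n 4604 z (n 4604 z (n 4604 z (n 6633259 z
 z)))))) (n 1 (n 7545091 z (n 7545091 z (n 7545091 z (n 7545091 z (n 7545091 z (n 7545091 z
 z)))))) (n 0 z (n 0 z (n 1 (n 7684147 z (n 7684147 z (n 7684147 z (n 7684147 z (n 7684147 z (n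
 7684147 z z)))))) (n 1 (n 3604 z (n 4604 z (n 4604 z (n 4604 z (n 4604 z (n 4604 z z)))))) (n 1
 (n 4604 z (n 4604 z (n
 0xbb2bb2080c176476310180ca4ca42078217a082081f8207a07e086182181e7e09a17e171e8607a576082291e82589f69f91f6218601801
 z (n 4604 z (n 4604 z (n 4604 z z)))))) (n 1 (n 4604 z (n 4604 z (n 4604 z (n 4604 z (n 4604 z
 (n 4604 z z)))))) z))))))))))) (n 597 (n 1 (n 7545091 z (n 7746571 z (n 4331275 z (n 4331275 z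
 (n 4331275 z (n 4331275 z z)))))) (n 0 z (n 1 (n 7545091 z (n 4331323 z (n 4331323 z (n 4331323
 z (n 4331323 z (n 4331323 z z)))))) z))) (n 1 (n 1 (n 7684147 z (n 7684147 z (n 7684147 z (n
 7684147 z (n 7684147 z (n 7684147 z z)))))) (n 0 z (n 1 (n 1228 z (n 1228 z (n 1228 z (n 1228 z
 (n 1228 z (n 1228 z z)))))) (n 1 (n 7734059 z (n 7734059 z (n 7734059 z (n 7734059 z (n 7734059
 z (n 7734059 z z)))))) (n 0 z (n 0 z z)))))) (n 51 (n 1 (n 4588 z (n 4588 z (n 4588 z (n 4588 z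
 (n 4588 z (n 7734059 z z)))))) (n 0 z (n 0 z (n 1 (n 4588 z (n 4588 z (n 7734059 z (n 4588 z (n
 4588 z (n 3004 z z)))))) (n 1 (n 7545091 z (n 7545091 z (n 7545091 z (n 7545091 z (n 7545091 z
 (n 7545091 z z)))))) (n 0 z (n 0 z (n 1 (n 7684147 z (n 7684147 z (n 7684147 z (n 7684147 z (n
 7684147 z (n 7684147 z z)))))) (n 1 (n 4588 z (n 7734059 z (n 4588 z (n 4588 z (n 4588 z (n
 0x13b2b20901c176476410182ec8ec42078237e08208228207207e08e275d81c7a0a6372179f91f76175b7df85d72e7df75d9626e18601801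
 z z)))))) (n 1 (n 4588 z (n 7734059 z (n 4588 z (n 4588 z (n
 0xbb13b0a00c176476310180ca4ca42078217a082081f8207a07e086182181e7e09a17e171e8607a576082291e82589f69f91f6218601801
 z (n 4588 z z)))))) (n 1 (n 4588 z (n
 0x1b993a0b00c37524316038aec6ec480305d89d8500e0bb13b0200c176376320182ca4ca42078256608e281f82072282081a71e820760aa571e71b8e266885d85e8da9ac8e16de9226e38e23801
 z (n 4588 z (n 4588 z (n 7734059 z (n 4588 z z)))))) z))))))))))) (n 453 (n 1 (n 7545091 z (n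
 7684147 z (n 7684147 z (n 7684147 z (n 7684147 z (n 7684147 z z)))))) (n 0 z (n 1 (n 7545091 z
 (n 7746571 z (n 7734059 z (n 7734059 z (n 7734059 z (n 7734059 z z)))))) (n 1 (n 7545091 z (n
 3612 z (n 2 z (n 3612 z (n 7746571 z (n 3612 z z)))))) z)))) z))))))) (n 0 (n 0 (n 0 z z) z) (n
 0 (n 573 (n 0 (n 0 z z) (n 0 (n 0 z z) (n 0 (n 0 z z) (n 0 (n 0 z z) (n 0 (n 0 z z) (n 0 (n 0 z
 z) (n 0 (n 0 z z) (n 0 (n 0 z z) (n 0 (n 0 z z) (n 0 (n 0 z z) (n 0 (n 0 z z) (n 0 (n 0 z z) (n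
 0 (n 0 z z) (n 0 (n 0 z z) (n 0 (n 0 z z) (n 0 (n 0 z z) (n 0 (n 0 z z) z))))))))))))))))) (n
 575 (n 0 (n 0 z z) (n 0 (n 0 z z) (n 0 (n 0 z z) (n 0 (n 0 z z) (n 0 (n 0 z z) (n 0 (n 0 z z)
 (n 0 (n 0 z z) (n 0 (n 0 z z) (n 0 (n 0 z z) (n 0 (n 0 z z) (n 0 (n 0 z z) (n 0 (n 0 z z) (n 0
 (n 0 z z) (n 0 (n 0 z z) (n 0 (n 0 z z) (n 0 (n 0 z z) (n 0 (n 0 z z) (n 0 (n 0 z z) (n 0 (n 0
 z z) (n 0 (n 0 z z) (n 0 (n 0 z z) (n 0 (n 0 z z) z)))))))))))))))))))))) (n 451 (n 0 (n 0 z z)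
 (n 0 (n 0 z z) (n 0 (n 0 z z) (n 0 (n 0 z z) (n 0 (n 0 z z) (n 0 (n 0 z z) (n 0 (n 0 z z) (n 0
 (n 0 z z) (n 0 (n 0 z z) (n 0 (n 0 z z) (n 0 (n 0 z z) (n 0 (n 0 z z) (n 0 (n 0 z z) (n 0 (n 0
 z z) (n 0 (n 0 z z) (n 0 (n 0 z z) (n 0 (n 0 z z) (n 0 (n 0 z z) (n 0 (n 0 z z) (n 0 (n 0 z z)
 (n 0 (n 0 z z) z))))))))))))))))))))) (n 597 (n 0 (n 0 z z) (n 0 (n 0 z z) (n 0 (n 0 z z) z)))
 (n 33 (n 0 (n 0 z z) (n 0 (n 0 z z) (n 0 (n 0 z z) (n 0 (n 0 z z) (n 0 (n 0 z z) (n 0 (n 0 z z)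
 (n 0 (n 0 z z) (n 0 (n 0 z z) (n 0 (n 0 z z) (n 0 (n 0 z z) (n 0 (n 0 z z) (n 0 (n 0 z z) (n 0
 (n 0 z z) (n 0 (n 0 z z) (n 0 (n 0 z z) (n 0 (n 0 z z) (n 0 (n 0 z z) z))))))))))))))))) (n 580
 (n 0 (n 0 z z) (n 0 (n 0 z z) (n 0 (n 0 z z) (n 0 (n 0 z z) (n 0 (n 0 z z) (n 0 (n 0 z z) (n 0
 (n 0 z z) (n 0 (n 0 z z) (n 0 (n 0 z z) (n 0 (n 0 z z) (n 0 (n 0 z z) (n 0 (n 0 z z) (n 0 (n 0
 z z) (n 0 (n 0 z z) (n 0 (n 0 z z) (n 0 (n 0 z z) (n 0 (n 0 z z) (n 0 (n 0 z z) (n 0 (n 0 z z)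
 (n 0 (n 0 z z) (n 0 (n 0 z z) (n 0 (n 0 z z) (n 0 (n 0 z z) (n 0 (n 0 z z) (n 0 (n 0 z z) (n 0
 (n 0 z z) (n 0 (n 0 z z) z))))))))))))))))))))))))))) (n 153 (n 0 (n 0 z z) (n 0 (n 0 z z) (n 0
 (n 0 z z) (n 0 (n 0 z z) (n 0 (n 0 z z) (n 0 (n 0 z z) (n 0 (n 0 z z) z))))))) (n 57 (n 0 (n 0
 z z) (n 0 (n 0 z z) (n 0 (n 0 z z) (n 0 (n 0 z z) (n 0 (n 0 z z) (n 0 (n 0 z z) (n 0 (n 0 z z)
 (n 0 (n 0 z z) z)))))))) (n 51 (n 0 (n 0 z z) (n 0 (n 0 z z) (n 0 (n 0 z z) (n 0 (n 0 z z) (n 0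
 (n 0 z z) (n 0 (n 0 z z) (n 0 (n 0 z z) (n 0 (n 0 z z) (n 0 (n 0 z z) (n 0 (n 0 z z) (n 0 (n 0
 z z) (n 0 (n 0 z z) (n 0 (n 0 z z) (n 0 (n 0 z z) (n 0 (n 0 z z) (n 0 (n 0 z z) (n 0 (n 0 z z)
 (n 0 (n 0 z z) (n 0 (n 0 z z) (n 0 (n 0 z z) (n 0 (n 0 z z) (n 0 (n 0 z z) (n 0 (n 0 z z) (n 0
 (n 0 z z) (n 0 (n 0 z z) (n 0 (n 0 z z) z)))))))))))))))))))))))))) (n 27 (n 0 (n 0 z z) (n 0
 (n 0 z z) (n 0 (n 0 z z) (n 0 (n 0 z z) (n 0 (n 0 z z) (n 0 (n 0 z z) (n 0 (n 0 z z) (n 0 (n 0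
 z z) (n 0 (n 0 z z) (n 0 (n 0 z z) (n 0 (n 0 z z) (n 0 (n 0 z z) (n 0 (n 0 z z) (n 0 (n 0 z z)
 z)))))))))))))) (n 573 (n 0 (n 0 z z) (n 0 (n 0 z z) (n 0 (n 0 z z) (n 0 (n 0 z z) (n 0 (n 0 z
 z) (n 0 (n 0 z z) (n 0 (n 0 z z) (n 0 (n 0 z z) (n 0 (n 0 z z) (n 0 (n 0 z z) (n 0 (n 0 z z) (n
 0 (n 0 z z) (n 0 (n 0 z z) (n 0 (n 0 z z) (n 0 (n 0 z z) (n 0 (n 0 z z) (n 0 (n 0 z z) (n 0 (n
 0 z z) (n 0 (n 0 z z) (n 0 (n 0 z z) (n 0 (n 0 z z) (n 0 (n 0 z z) (n 0 (n 0 z z)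
 z))))))))))))))))))))))) (n 375 (n 0 (n 0 z z) (n 0 (n 0 z z) (n 0 (n 0 z z) (n 0 (n 0 z z) (n
 0 (n 0 z z) (n 0 (n 0 z z) (n 0 (n 0 z z) (n 0 (n 0 z z) (n 0 (n 0 z z) (n 0 (n 0 z z) (n 0 (n
 0 z z) (n 0 (n 0 z z) (n 0 (n 0 z z) (n 0 (n 0 z z) (n 0 (n 0 z z) (n 0 (n 0 z z) (n 0 (n 0 z
 z) (n 0 (n 0 z z) (n 0 (n 0 z z) (n 0 (n 0 z z) (n 0 (n 0 z z) (n 0 (n 0 z z)
 z)))))))))))))))))))))) (n 51 (n 0 (n 0 z z) (n 0 (n 0 z z) (n 0 (n 0 z z) (n 0 (n 0 z z) (n 0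
 (n 0 z z) (n 0 (n 0 z z) (n 0 (n 0 z z) (n 0 (n 0 z z) (n 0 (n 0 z z) (n 0 (n 0 z z) (n 0 (n 0
 z z) z))))))))))) (n 29 (n 0 (n 0 z z) (n 0 (n 0 z z) (n 0 (n 0 z z) (n 0 (n 0 z z) (n 0 (n 0 z
 z) (n 0 (n 0 z z) (n 0 (n 0 z z) (n 0 (n 0 z z) (n 0 (n 0 z z) (n 0 (n 0 z z) (n 0 (n 0 z z) (n
 0 (n 0 z z) (n 0 (n 0 z z) (n 0 (n 0 z z) (n 0 (n 0 z z) (n 0 (n 0 z z) (n 0 (n 0 z z) (n 0 (n
 0 z z) (n 0 (n 0 z z) (n 0 (n 0 z z) (n 0 (n 0 z z) (n 0 (n 0 z z) (n 0 (n 0 z z) (n 0 (n 0 z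
 z) (n 0 (n 0 z z) (n 0 (n 0 z z) (n 0 (n 0 z z) (n 0 (n 0 z z) (n 0 (n 0 z z) (n 0 (n 0 z z) (n
 0 (n 0 z z) (n 0 (n 0 z z) (n 0 (n 0 z z) z))))))))))))))))))))))))))))))))) (n 1 (n 0 (n 0 z
 z) (n 0 (n 0 z z) (n 0 (n 0 z z) (n 0 (n 0 z z) (n 0 (n 0 z z) (n 0 (n 0 z z) (n 0 (n 0 z z) (n
 0 (n 0 z z) (n 0 (n 0 z z) (n 0 (n 0 z z) (n 0 (n 0 z z) (n 0 (n 0 z z) (n 0 (n 0 z z) (n 0 (n
 0 z z) (n 0 (n 0 z z) (n 0 (n 0 z z) (n 0 (n 0 z z) (n 0 (n 0 z z) (n 0 (n 0 z z) (n 0 (n 0 z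
 z) (n 0 (n 0 z z) (n 0 (n 0 z z) (n 0 (n 0 z z) (n 0 (n 0 z z) (n 0 (n 0 z z)
 z))))))))))))))))))))))))) (n 453 (n 0 (n 0 z z) (n 0 (n 0 z z) (n 0 (n 0 z z) (n 0 (n 0 z z)
 z)))) (n 451 (n 0 (n 0 z z) (n 0 (n 0 z z) (n 0 (n 0 z z) (n 0 (n 0 z z) (n 0 (n 0 z z) (n 0 (n
 0 z z) z)))))) (n 450 (n 0 (n 0 z z) (n 0 (n 0 z z) (n 0 (n 0 z z) (n 0 (n 0 z z) (n 0 (n 0 z
 z) (n 0 (n 0 z z) (n 0 (n 0 z z) (n 0 (n 0 z z) (n 0 (n 0 z z) (n 0 (n 0 z z) (n 0 (n 0 z z) (n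
 0 (n 0 z z) (n 0 (n 0 z z) z))))))))))))) (n 3 (n 0 (n 0 z z) (n 0 (n 0 z z) (n 0 (n 0 z z) (n
 0 (n 0 z z) z)))) (n 1 (n 0 (n 0 z z) (n 0 (n 0 z z) (n 0 (n 0 z z) (n 0 (n 0 z z) (n 0 (n 0 z
 z) (n 0 (n 0 z z) z)))))) (n 0 (n 0 (n 0 z z) (n 0 (n 0 z z) (n 0 (n 0 z z) (n 0 (n 0 z z) (n 0
 (n 0 z z) (n 0 (n 0 z z) (n 0 (n 0 z z) (n 0 (n 0 z z) (n 0 (n 0 z z) (n 0 (n 0 z z) (n 0 (n 0
 z z) (n 0 (n 0 z z) (n 0 (n 0 z z) z))))))))))))) z))))))))))))))))))))) z)))) (n 0x153756 (n 0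
 (n 0 (n 7746827 z (n 7746827 z (n 7746827 z (n 7746827 z (n 7746827 z (n 7746827 z z)))))) z)
 (n 0 (n 147 (n 1 (n 7684147 z (n 7734043 z (n 4331323 z (n 4331323 z (n 4331323 z (n 4331323 z
 z)))))) (n 0 z (n 1 (n 7684147 z (n 4331275 z (n 4331275 z (n 4331275 z (n 4331275 z (n 4331275
 z z)))))) z))) (n 451 (n 1 (n 7545091 z (n 7545091 z (n 7545091 z (n 7545091 z (n 7545091 z (n
 7545091 z z)))))) (n 0 z (n 1 (n 3820 z (n 3820 z (n 3820 z (n 3820 z (n 3820 z (n 3820 z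
 z)))))) (n 1 (n 7746827 z (n 7746827 z (n 7746827 z (n 7746827 z (n 7746827 z (n 7746827 z
 z)))))) (n 0 z (n 0 z z)))))) (n 372 (n 1 (n 3836 z (n 3836 z (n 3836 z (n 3836 z (n 3836 z (n
 7746827 z z)))))) (n 0 z (n 0 z (n 1 (n 3836 z (n 3836 z (n 7746827 z (n 3836 z (n 3836 z (n
 3836 z z)))))) (n 1 (n 7684147 z (n 7684147 z (n 7684147 z (n 7684147 z (n 7684147 z (n 7684147
 z z)))))) (n 0 z (n 0 z (n 1 (n 7545091 z (n 7545091 z (n 7545091 z (n 7545091 z (n 7545091 z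
 (n 7545091 z z)))))) (n 1 (n 3836 z (n 7746827 z (n 3836 z (n 3836 z (n 3836 z (n
 0x13b1320a80c176576140382ec8ec82038237e08208228207207e08e275d81c7a0a6372179f91f76175b7df85d72e7df75d9626e18601801
 z z)))))) (n 1 (n 3836 z (n 7746827 z (n 3836 z (n 3836 z (n
 0x32a32a101c176576410182ec8ec62038217a082081f8207a07e086182181e7e09a17e171e8607a576082291e82589f69f91f6218601801
 z (n 3836 z z)))))) (n 1 (n 3836 z (n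
 0x1ba0ba8300c375241060182ca8ca840705d95d9040e0bb2bb1880c576576010182ecaeca0038256608e281f82072282081a71e820760aa571e71b8e266885d85e8da9ac8e16de9226e38e23801
 z (n 3836 z (n 3836 z (n 7746827 z (n 3836 z z)))))) z))))))))))) (n 153 (n 1 (n 7545091 z (n
 4331323 z (n 4331323 z (n 4331323 z (n 4331323 z (n 4331323 z z)))))) (n 0 z (n 1 (n 7545091 z
 (n 4331275 z (n 7746827 z (n 4331275 z (n 4331275 z (n 4331275 z z)))))) z))) (n 1 (n 1 (n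
 7684147 z (n 7684147 z (n 7684147 z (n 7684147 z (n 7684147 z (n 7684147 z z)))))) (n 0 z (n 1
 (n 7746827 z (n 7746827 z (n 7746827 z (n 7746827 z (n 7746827 z (n 7746827 z z)))))) (n 1 (n
 3820 z (n 3820 z (n 3820 z (n 3820 z (n 3820 z (n 3820 z z)))))) (n 0 z (n 0 z z)))))) (n 373
 (n 1 (n 1244 z (n 1244 z (n 1244 z (n 1244 z (n 1244 z (n 1244 z z)))))) (n 0 z (n 0 z (n 1 (n
 6428427 z (n 1244 z (n 1244 z (n 1244 z (n 1244 z (n 6424411 z z)))))) (n 1 (n 7684147 z (n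
 7684147 z (n 7684147 z (n 7684147 z (n 7684147 z (n 7684147 z z)))))) (n 0 z (n 0 z (n 1 (n
 7545091 z (n 7545091 z (n 7545091 z (n 7545091 z (n 7545091 z (n 7545091 z z)))))) (n 1 (n 1244
 z (n 1244 z (n 1244 z (n 1244 z (n 1244 z (n 1244 z z)))))) (n 1 (n 1244 z (n 1244 z (n
 0xbb13b0a00c065465420382ec8ec62038217a082081f8207a07e086182181e7e09a17e171e8607a576082291e82589f69f91f6218601801
 z (n 1244 z (n 1244 z (n 1244 z z)))))) (n 1 (n 1244 z (n 1244 z (n 1244 z (n 1244 z (n 1244 z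
 (n 1244 z z)))))) z))))))))))) (n 453 (n 1 (n 7545091 z (n 7684147 z (n 7684147 z (n 7684147 z
 (n 7684147 z (n 7684147 z z)))))) (n 0 z (n 1 (n 7545091 z (n 2 z (n 3612 z (n 3612 z (n
 7746827 z (n 3612 z z)))))) (n 1 (n 7545091 z (n 7734043 z (n 7746827 z (n 7734043 z (n 7734043
 z (n 7734043 z z)))))) z)))) z))))))) (n 0 (n 0 (n 0 z z) z) (n 0 (n 477 (n 0 (n 0 z z) (n 0 (n
 0 z z) (n 0 (n 0 z z) (n 0 (n 0 z z) (n 0 (n 0 z z) (n 0 (n 0 z z) (n 0 (n 0 z z) (n 0 (n 0 z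
 z) (n 0 (n 0 z z) (n 0 (n 0 z z) (n 0 (n 0 z z) (n 0 (n 0 z z) (n 0 (n 0 z z) (n 0 (n 0 z z)
 z)))))))))))))) (n 479 (n 0 (n 0 z z) (n 0 (n 0 z z) (n 0 (n 0 z z) (n 0 (n 0 z z) (n 0 (n 0 z
 z) (n 0 (n 0 z z) (n 0 (n 0 z z) (n 0 (n 0 z z) (n 0 (n 0 z z) (n 0 (n 0 z z) (n 0 (n 0 z z) (n
 0 (n 0 z z) (n 0 (n 0 z z) (n 0 (n 0 z z) (n 0 (n 0 z z) (n 0 (n 0 z z) (n 0 (n 0 z z) (n 0 (n
 0 z z) (n 0 (n 0 z z) (n 0 (n 0 z z) (n 0 (n 0 z z) (n 0 (n 0 z z) (n 0 (n 0 z z) (n 0 (n 0 z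
 z) (n 0 (n 0 z z) (n 0 (n 0 z z) (n 0 (n 0 z z) (n 0 (n 0 z z) (n 0 (n 0 z z) (n 0 (n 0 z z) (n
 0 (n 0 z z) (n 0 (n 0 z z) (n 0 (n 0 z z) z))))))))))))))))))))))))))))))))) (n 451 (n 0 (n 0 z
 z) (n 0 (n 0 z z) (n 0 (n 0 z z) (n 0 (n 0 z z) (n 0 (n 0 z z) (n 0 (n 0 z z) (n 0 (n 0 z z) (n
 0 (n 0 z z) (n 0 (n 0 z z) (n 0 (n 0 z z) (n 0 (n 0 z z) (n 0 (n 0 z z) (n 0 (n 0 z z) (n 0 (n
 0 z z) (n 0 (n 0 z z) (n 0 (n 0 z z) (n 0 (n 0 z z) (n 0 (n 0 z z) (n 0 (n 0 z z) (n 0 (n 0 z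
 z) (n 0 (n 0 z z) (n 0 (n 0 z z) (n 0 (n 0 z z) (n 0 (n 0 z z) (n 0 (n 0 z z)
 z))))))))))))))))))))))))) (n 153 (n 0 (n 0 z z) (n 0 (n 0 z z) (n 0 (n 0 z z) z))) (n 581 (n 0
 (n 0 z z) (n 0 (n 0 z z) (n 0 (n 0 z z) (n 0 (n 0 z z) (n 0 (n 0 z z) (n 0 (n 0 z z) (n 0 (n 0
 z z) z))))))) (n 129 (n 0 (n 0 z z) (n 0 (n 0 z z) (n 0 (n 0 z z) (n 0 (n 0 z z) (n 0 (n 0 z z)
 (n 0 (n 0 z z) (n 0 (n 0 z z) (n 0 (n 0 z z) (n 0 (n 0 z z) (n 0 (n 0 z z) (n 0 (n 0 z z) (n 0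
 (n 0 z z) (n 0 (n 0 z z) (n 0 (n 0 z z) (n 0 (n 0 z z) (n 0 (n 0 z z) (n 0 (n 0 z z) (n 0 (n 0
 z z) (n 0 (n 0 z z) (n 0 (n 0 z z) (n 0 (n 0 z z) (n 0 (n 0 z z) (n 0 (n 0 z z)
 z))))))))))))))))))))))) (n 477 (n 0 (n 0 z z) (n 0 (n 0 z z) (n 0 (n 0 z z) (n 0 (n 0 z z) (n
 0 (n 0 z z) (n 0 (n 0 z z) (n 0 (n 0 z z) (n 0 (n 0 z z) (n 0 (n 0 z z) (n 0 (n 0 z z) (n 0 (n
 0 z z) (n 0 (n 0 z z) (n 0 (n 0 z z) (n 0 (n 0 z z) (n 0 (n 0 z z) (n 0 (n 0 z z) (n 0 (n 0 z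
 z) z))))))))))))))))) (n 383 (n 0 (n 0 z z) (n 0 (n 0 z z) (n 0 (n 0 z z) (n 0 (n 0 z z) (n 0
 (n 0 z z) (n 0 (n 0 z z) (n 0 (n 0 z z) (n 0 (n 0 z z) z)))))))) (n 53 (n 0 (n 0 z z) (n 0 (n 0
 z z) (n 0 (n 0 z z) (n 0 (n 0 z z) (n 0 (n 0 z z) (n 0 (n 0 z z) (n 0 (n 0 z z) (n 0 (n 0 z z)
 (n 0 (n 0 z z) (n 0 (n 0 z z) (n 0 (n 0 z z) (n 0 (n 0 z z) (n 0 (n 0 z z) (n 0 (n 0 z z) (n 0
 (n 0 z z) (n 0 (n 0 z z) (n 0 (n 0 z z) (n 0 (n 0 z z) (n 0 (n 0 z z) (n 0 (n 0 z z) (n 0 (n 0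
 z z) (n 0 (n 0 z z) z)))))))))))))))))))))) (n 123 (n 0 (n 0 z z) (n 0 (n 0 z z) (n 0 (n 0 z z)
 (n 0 (n 0 z z) (n 0 (n 0 z z) (n 0 (n 0 z z) (n 0 (n 0 z z) (n 0 (n 0 z z) (n 0 (n 0 z z) (n 0
 (n 0 z z) (n 0 (n 0 z z) (n 0 (n 0 z z) (n 0 (n 0 z z) (n 0 (n 0 z z) (n 0 (n 0 z z) (n 0 (n 0
 z z) (n 0 (n 0 z z) z))))))))))))))))) (n 155 (n 0 (n 0 z z) (n 0 (n 0 z z) (n 0 (n 0 z z) (n 0
 (n 0 z z) (n 0 (n 0 z z) (n 0 (n 0 z z) (n 0 (n 0 z z) (n 0 (n 0 z z) (n 0 (n 0 z z) (n 0 (n 0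
 z z) (n 0 (n 0 z z) (n 0 (n 0 z z) (n 0 (n 0 z z) (n 0 (n 0 z z) (n 0 (n 0 z z) (n 0 (n 0 z z)
 (n 0 (n 0 z z) (n 0 (n 0 z z) (n 0 (n 0 z z) (n 0 (n 0 z z) (n 0 (n 0 z z) (n 0 (n 0 z z) (n 0
 (n 0 z z) (n 0 (n 0 z z) (n 0 (n 0 z z) (n 0 (n 0 z z) (n 0 (n 0 z z)
 z))))))))))))))))))))))))))) (n 377 (n 0 (n 0 z z) (n 0 (n 0 z z) (n 0 (n 0 z z) (n 0 (n 0 z z)
 (n 0 (n 0 z z) (n 0 (n 0 z z) (n 0 (n 0 z z) (n 0 (n 0 z z) (n 0 (n 0 z z) (n 0 (n 0 z z) (n 0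
 (n 0 z z) (n 0 (n 0 z z) (n 0 (n 0 z z) (n 0 (n 0 z z) (n 0 (n 0 z z) (n 0 (n 0 z z) (n 0 (n 0
 z z) (n 0 (n 0 z z) (n 0 (n 0 z z) (n 0 (n 0 z z) (n 0 (n 0 z z) (n 0 (n 0 z z) (n 0 (n 0 z z)
 (n 0 (n 0 z z) (n 0 (n 0 z z) (n 0 (n 0 z z) z)))))))))))))))))))))))))) (n 373 (n 0 (n 0 z z)
 (n 0 (n 0 z z) (n 0 (n 0 z z) (n 0 (n 0 z z) (n 0 (n 0 z z) (n 0 (n 0 z z) (n 0 (n 0 z z) (n 0
 (n 0 z z) (n 0 (n 0 z z) (n 0 (n 0 z z) (n 0 (n 0 z z) z))))))))))) (n 125 (n 0 (n 0 z z) (n 0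
 (n 0 z z) (n 0 (n 0 z z) (n 0 (n 0 z z) (n 0 (n 0 z z) (n 0 (n 0 z z) (n 0 (n 0 z z) (n 0 (n 0
 z z) (n 0 (n 0 z z) (n 0 (n 0 z z) (n 0 (n 0 z z) (n 0 (n 0 z z) (n 0 (n 0 z z) (n 0 (n 0 z z)
 (n 0 (n 0 z z) (n 0 (n 0 z z) (n 0 (n 0 z z) (n 0 (n 0 z z) (n 0 (n 0 z z) (n 0 (n 0 z z) (n 0
 (n 0 z z) (n 0 (n 0 z z) z)))))))))))))))))))))) (n 1 (n 0 (n 0 z z) (n 0 (n 0 z z) (n 0 (n 0 z
 z) (n 0 (n 0 z z) (n 0 (n 0 z z) (n 0 (n 0 z z) (n 0 (n 0 z z) (n 0 (n 0 z z) (n 0 (n 0 z z) (n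
 0 (n 0 z z) (n 0 (n 0 z z) (n 0 (n 0 z z) (n 0 (n 0 z z) (n 0 (n 0 z z) (n 0 (n 0 z z) (n 0 (n
 0 z z) (n 0 (n 0 z z) (n 0 (n 0 z z) (n 0 (n 0 z z) (n 0 (n 0 z z) (n 0 (n 0 z z)
 z))))))))))))))))))))) (n 453 (n 0 (n 0 z z) (n 0 (n 0 z z) (n 0 (n 0 z z) (n 0 (n 0 z z) z))))
 (n 451 (n 0 (n 0 z z) (n 0 (n 0 z z) (n 0 (n 0 z z) (n 0 (n 0 z z) (n 0 (n 0 z z) (n 0 (n 0 z
 z) z)))))) (n 450 (n 0 (n 0 z z) (n 0 (n 0 z z) (n 0 (n 0 z z) (n 0 (n 0 z z) (n 0 (n 0 z z) (n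
 0 (n 0 z z) (n 0 (n 0 z z) (n 0 (n 0 z z) (n 0 (n 0 z z) (n 0 (n 0 z z) (n 0 (n 0 z z) (n 0 (n
 0 z z) (n 0 (n 0 z z) z))))))))))))) (n 3 (n 0 (n 0 z z) (n 0 (n 0 z z) (n 0 (n 0 z z) (n 0 (n
 0 z z) z)))) (n 1 (n 0 (n 0 z z) (n 0 (n 0 z z) (n 0 (n 0 z z) (n 0 (n 0 z z) (n 0 (n 0 z z) (n
 0 (n 0 z z) z)))))) (n 0 (n 0 (n 0 z z) (n 0 (n 0 z z) (n 0 (n 0 z z) (n 0 (n 0 z z) (n 0 (n 0
 z z) (n 0 (n 0 z z) (n 0 (n 0 z z) (n 0 (n 0 z z) (n 0 (n 0 z z) (n 0 (n 0 z z) (n 0 (n 0 z z)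
 (n 0 (n 0 z z) (n 0 (n 0 z z) z))))))))))))) z))))))))))))))))))))) z)))) z)) z)))) z)))),
 by decide +kernel⟩
theorem i10398 : ∃ t, chkR KT RW t 10398 10406 = true := ⟨(n
 0x1ab6686d154230bb034546237246114da0dc71b0528da08b518863688065500 (n 0x2368a (n 399 (n 2 z (n 0
 z (n 0 z (n 10 z (n 0 z (n 0 z (n 6627395 z (n 6557779 z (n 0 z z))))))))) (n 261 (n 6557779 z
 (n 0 z (n 18 z (n 26 z (n 6557779 z (n 0 z z)))))) (n 129 (n 6627395 z (n 34 z (n 0 z (n 0 z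
 z)))) (n 3 (n 42 z (n 50 z (n 2164283 z z))) (n 1 (n 0 z (n 0 z (n 58 z (n 66 z (n 6557779 z (n
 0 z (n 0 z (n 0 z (n 6557779 z (n 0 z (n 0 z z))))))))))) (n 0 (n
 0x3eca8864003807986957a8a897f767980738a80ab805e80787c5e749086865e967f648b969d66858094977b5688638b6f8f62858197957e0809
 z (n 0 z (n 74 z (n
 0x2c84c84007827588906e887f867d7e7e8d81807f827b7f7c82747e877f8481827c86857c8484907c787d828579778675877f8085857f810809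
 z (n
 0x2c64c640078280808080808080808180817f8081808080808080808080807f8080808080807f7f808080808080808080808080808080800809
 z (n 82 z (n 6627395 z (n 6627395 z (n 6627395 z (n
 0x34641808c80788f7c7d7d797e89727d799b81787c877c7e797b877f78838a6b8c86787a7d808b717d7c8b858e85837a778188767e0049
 z (n
 0xd464180927f6b8a758c80817d7e83856594808b719b6fb568787e717b767d7f8a755f88797a9079967d888c8b9381876b6f8d7b760049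
 z (n 90 z (n 0 z z))))))))))))) z)))))) (n 3 (n 0 (n 0 z (n 215 (n 0 z (n 0 z (n 0 z (n 0 z (n
 2 (n 0 z (n 2 (n 0 z (n 0 z (n 0 z (n 0 z (n 0 z (n 0 z z)))))) (n 1 z (n 2 (n 0 z (n 0 z (n 0
 z (n 0 z (n 0 z (n 0 z z)))))) (n 1 z (n 2 (n 0 z (n 0 z (n 0 z (n 0 z (n 0 z (n 0 z z)))))) (n
 2 (n 0 z (n 0 z (n 0 z (n 0 z (n 0 z (n 0 z z)))))) (n 2 (n 0 z (n 0 z (n 0 z (n 0 z (n 0 z (n
 0 z z)))))) (n 2 (n 0 (n 8868131 z z) (n 0 (n 8868131 z z) (n 0 z (n 0 z (n 0 z (n 0 (n 8868131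
 z (n 8868131 z z)) z)))))) z))))))))) (n 0 z (n 0 z z))))))) (n 215 (n 0 z (n 0 z (n 0 z (n 2
 (n 2 (n 0 z (n 0 z (n 0 z (n 0 z (n 0 z (n 0 z z)))))) (n 1 z (n 1 z (n 1 z (n 1 z (n 2 (n 0 z
 (n 0 z (n 0 z (n 0 z (n 0 z (n 0 z z)))))) (n 1 z (n 2 (n 0 (n 8857099 z z) (n 0 z (n 0 z (n 0
 z (n 0 z (n 0 (n 3188 z (n 3188 z z)) z)))))) z)))))))) (n 0 z (n 0 z (n 0 z z))))))) (n 203 (n
 0 z (n 0 z (n 0 z (n 0 z z)))) (n 207 (n 2 (n 0 z (n 1 z (n 2 (n 0 z (n 0 z (n 0 z (n 0 z (n 0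
 z (n 0 z z)))))) (n 2 (n 0 z (n 0 z (n 0 z (n 0 z (n 0 z (n 0 z z)))))) (n 2 (n 0 z (n 0 z (n 0
 z (n 0 z (n 0 z (n 0 (n 3188 z z) z)))))) (n 1 z z)))))) (n 0 z (n 0 z (n 0 z (n 0 z z))))) (n
 207 (n 0 z (n 0 z (n 0 z (n 0 z (n 0 z z))))) (n 205 (n 0 z (n 0 z (n 0 z (n 0 z (n 0 z (n 2 (n
 0 z (n 2 (n 0 z (n 0 z (n 0 z (n 0 z (n 0 z (n 0 z z)))))) (n 2 (n 0 z (n 0 z (n 0 z (n 0 z (n
 0 z (n 0 (n 3188 z z) z)))))) (n 1 z z)))) (n 0 z (n 0 z (n 0 z z))))))))) (n 205 (n 0 z (n 0 z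
 (n 0 z (n 0 z (n 0 z (n 0 z (n 0 z (n 0 z (n 0 z z))))))))) (n 797 (n 0 z (n 0 z (n 0 z (n 0 z
 (n 0 z (n 0 z (n 0 z (n 0 z (n 0 z (n
 0x5cc64ea280380078482489476d84a82181581b7fd7ea84e81c8007ca8007e77fb7ea86975d7e88268088187fd82d7d081f81580c84b79688f80880682a7b67c780f7998647727e97b181e87a84a79983f0811
 z (n 0 z (n 0 z (n 0 z (n 0 z (n 0 z (n 0 z (n 0 z z))))))))))))))))) (n 797 (n 0 z (n 0 z (n 0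
 z (n 2 (n 0 z z) (n 0 z (n 0 z (n 0 z (n 0 z (n 0 z (n 0 z (n 0 z (n 0 z (n 0 z (n 0 z (n 0 z
 (n 0 z (n 0 z z))))))))))))))))) (n 797 (n 0 z (n 0 z (n 0 z (n 0 z (n 0 z (n 0 z (n 0 z (n 0 z
 (n 0 z (n 0 z (n 2 z (n 0 z (n 0 z (n 0 z (n 0 z (n 0 z (n 0 z z))))))))))))))))) z)))))))))))
 (n 0 (n 527 (n 0 z (n 0 z (n 2 (n 0 z (n 1 z (n 1 z (n 2 (n 0 z (n 0 z (n 0 z (n 0 z (n 0 z (n
 0 z z)))))) (n 1 z (n 2 (n 0 z (n 0 z (n 0 z (n 0 z (n 0 z (n 0 z z)))))) (n 2 (n 0 z (n 0 z (n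
 0 z (n 0 z (n 0 z (n 0 z z)))))) (n 1 z (n 1 z z))))))))) (n 0 z (n 0 z (n 0 z (n 0 z (n 0 z
 z)))))))) (n 527 (n 0 z (n 0 z (n 0 z (n 0 z (n 0 z (n 0 z (n 0 z (n 0 z z)))))))) (n 259 (n 0
 z (n 0 z (n 0 z (n 0 z z)))) (n 7 (n 0 z (n 0 z (n 2 (n 0 z (n 1 z (n 1 z (n 1 z (n 1 z (n 1 z
 z)))))) (n 0 z (n 0 z (n 0 z (n 0 z (n 0 z (n 0 z (n 0 z (n 0 z (n 0 z (n 0 z z))))))))))))) (n
 7 (n 0 z (n 0 z (n 0 z (n 0 z (n 0 z (n 0 z (n 0 z (n 0 z (n 0 z (n 0 z (n 0 z (n 0 z (n 0 z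
 z))))))))))))) (n 3 (n 0 z (n 0 z (n 0 z (n 2 (n 0 z (n 1 z (n 1 z (n 1 z z)))) (n 0 z (n 0 z
 (n 0 z (n 0 z (n 0 z z))))))))) (n 3 (n 0 z (n 0 z (n 0 z (n 0 z (n 0 z (n 0 z (n 0 z (n 0 z (n
 0 z z))))))))) (n 1 (n 0 z (n 2 (n 0 z (n 0 z z)) (n 0 z (n 0 z (n 0 z (n 0 z (n 0 z (n 0 z (n
 0 z (n 0 z (n 0 z (n 0 z z)))))))))))) (n 1 (n 0 z (n 0 z (n 0 z (n 0 z (n 0 z (n 0 z (n 0 z (n
 0 z (n 0 z (n 0 z (n 0 z (n 0 z z)))))))))))) (n 1 (n 0 z (n 0 z (n 0 z (n 0 z (n 0 z (n 0 z (n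
 0 z (n 0 z (n 0 z (n 0 z (n 2 z (n 0 z z)))))))))))) z)))))))))) (n 0 (n 0 z (n 1041 (n 0 z (n
 2 (n 1 z (n 2 (n 0 z (n 0 z (n 0 z (n 0 z (n 0 z (n 0 z z)))))) (n 1 z (n 2 (n 0 z (n 0 z (n 0
 z (n 0 z (n 0 z (n 0 z z)))))) (n 2 (n 0 z (n 0 z (n 0 z (n 0 z (n 0 z (n 0 z z)))))) (n 1 z (n
 1 z z))))))) (n
 0x4ea8ca800780808080808080808081817f818080808080808080808080807f808081808080808080818081807f8080807f7f80808080800809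
 z (n 0 z (n 0 z (n 0 z (n 0 z (n 0 z (n 0 z (n 0 z (n 0 z z))))))))))) (n 491 (n 0 z (n 0 z (n
 0 z (n 0 z (n 0 z (n 0 z (n 0 z (n 0 z (n 0 z (n 0 z (n 0 z (n 0 z (n 0 z (n 0 z (n 0 z (n 0 z
 (n 0 z z))))))))))))))))) (n 491 (n 0 z (n 0 z (n 0 z (n 2 (n 1 z (n 2 (n 0 z (n 0 z (n 0 z (n
 0 z (n 0 z (n 0 z z)))))) (n 2 (n 0 z (n 0 z (n 0 z (n 0 z (n 0 z (n 0 z z)))))) (n 2 (n 0 z (n
 0 z (n 0 z (n 0 z (n 0 z (n 0 (n 8864267 z z) z)))))) (n 2 (n 0 z (n 0 (n 8802595 z z) (n 0 z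
 (n 0 (n 8802595 z z) (n 0 z (n 0 (n 8802595 z (n 8802595 z z)) z)))))) z))))) (n 0 z (n 0 z (n
 0 z (n 0 z (n 0 z (n 0 z (n 0 z (n 0 z (n 0 z (n 0 z (n 0 z (n 0 z (n 0 z z))))))))))))))))) (n
 489 (n 0 z (n 0 z (n 0 z (n 0 z (n 0 z (n 0 z (n 0 z (n 0 z (n 0 z (n 0 z (n 0 z (n 0 z (n 0 z
 (n 0 z (n 0 z z))))))))))))))) (n 489 (n 0 z (n 0 z (n 0 z (n 2 (n 2 (n 0 z (n 0 z (n 0 z (n 0
 z (n 0 z (n 0 z z)))))) (n 2 (n 0 z (n 0 z (n 0 z (n 0 z (n 0 z (n 0 (n 8864267 z z) z)))))) (n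
 2 (n 0 z (n 0 (n 8802595 z z) (n 0 z (n 0 (n 8802595 z z) (n 0 z (n 0 (n 8802595 z (n 8802595 z
 z)) z)))))) z))) (n
 0xaea8ca6007808081807f8081817f80827f81808180818083807f7e7e817f80808180808080808181818080807f80817f80827e7f8080810809
 z (n 0 z (n 0 z (n 0 z (n 0 z (n 0 z (n 0 z (n 0 z (n 0 z (n 0 z (n 0 z z))))))))))))))) (n
 1037 (n 0 z (n 0 z (n 0 z (n 0 z (n 0 z (n 0 z (n 0 z (n 0 z (n 0 z (n 0 z (n 0 z (n 0 z (n 0 z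
 (n 0 z (n 0 z (n 0 z (n 0 z z))))))))))))))))) (n 1037 (n 0 z (n 0 z (n 0 z (n 2 (n 0 z z) (n 0
 z (n 0 z (n 0 z (n 0 z (n 0 z (n 0 z (n 0 z (n 0 z (n 0 z (n 0 z (n 0 z (n 0 z (n 0 z
 z))))))))))))))))) (n 1037 (n 0 z (n 0 z (n 7754019 z (n 0 z (n 0 z (n 0 z (n 0 z (n 0 z (n 0 z
 (n 0 z (n 0 z (n 0 z (n 0 z (n 0 z (n 0 z (n 0 z (n 0 z z))))))))))))))))) z))))))))) (n 0 (n
 259 (n 0 z (n 0 z (n 0 z (n 0 z (n 0 z (n 0 z (n 0 z (n 0 z (n 0 z (n 0 z (n 0 z (n 0 z (n 0 z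
 (n 0 z (n 0 z z))))))))))))))) (n 539 (n 2 (n 0 z (n 1 z (n 1 z (n 1 z (n 1 z (n 1 z z)))))) (n
 0 z (n 0 z (n 0 z (n 0 z (n 0 z (n 0 z (n 0 z (n 0 z (n 0 z (n 0 z (n 0 z (n 0 z z)))))))))))))
 (n 539 (n 0 z (n 0 z (n 0 z (n 0 z (n 0 z (n 0 z (n 0 z (n 0 z (n 0 z (n 0 z (n 0 z (n 0 z (n 0
 z z))))))))))))) (n 243 (n 0 z (n 0 z (n 0 z (n 0 z (n 0 z (n 0 z (n 2 (n 0 z (n 1 z (n 1 z (n
 1 z z)))) (n 6625067 z (n 0 z (n 0 z (n 0 z (n 0 z (n 0 z (n 0 z (n 0 z (n 0 z (n 0 z (n 0 z (n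
 0 z (n 0 z (n 0 z (n 0 z z)))))))))))))))))))))) (n 243 (n 0 z (n 0 z (n 0 z (n 0 z (n 0 z (n 0
 z (n 0 z (n 0 z (n 0 z (n 0 z (n 0 z (n 0 z (n 0 z (n 0 z (n 0 z (n 0 z (n 0 z (n 0 z (n 0 z (n
 0 z (n 0 z (n 0 z z)))))))))))))))))))))) (n 241 (n 2 (n 0 z (n 0 z z)) (n 0 z (n 0 z (n 0 z (n
 0 z (n 0 z (n 0 z (n 0 z (n 0 z (n 0 z (n 0 z z))))))))))) (n 241 (n 0 z (n 0 z (n 0 z (n 0 z
 (n 0 z (n 0 z (n 0 z (n 0 z (n 0 z (n 0 z (n 0 z z))))))))))) (n 241 (n 0 z (n 0 z (n 0 z (n 0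
 z (n 0 z (n 0 z (n 0 z (n 0 z (n 0 z (n 0 z (n 2 z z))))))))))) z)))))))) (n 0 (n 295 (n 2 (n 0
 z (n 1 z (n 1 z (n 1 z (n 1 z (n 1 z z)))))) (n 0 z (n 0 z (n 0 z (n 0 z z))))) (n 295 (n 0 z
 (n 0 z (n 0 z (n 0 z (n 0 z z))))) (n 291 (n 0 z (n 2 (n 0 z (n 1 z (n 1 z (n 1 z z)))) (n 0 z
 (n 0 z (n 0 z (n 0 z (n 0 z (n 0 z z)))))))) (n 291 (n 0 z (n 0 z (n 0 z (n 0 z (n 0 z (n 0 z
 (n 0 z (n 0 z z)))))))) (n 289 (n 2 (n 0 z (n 0 z z)) (n 0 z (n 0 z (n 0 z (n 0 z (n 0 z (n 0 z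
 (n 0 z (n 0 z (n 0 z (n 0 z (n 0 z z)))))))))))) (n 289 (n 0 z (n 0 z (n 0 z (n 0 z (n 0 z (n 0
 z (n 0 z (n 0 z (n 0 z (n 0 z (n 0 z (n 0 z z)))))))))))) (n 289 (n 0 z (n 0 z (n 0 z (n 0 z (n
 0 z (n 0 z (n 0 z (n 0 z (n 0 z (n 0 z (n 0 z (n 2 z z)))))))))))) z))))))) (n 0 (n 0 z (n 3 (n
 0 z (n 0 z (n 0 z (n 0 z (n 0 z (n 0 z (n 0 z (n 0 z (n 0 z z))))))))) (n 3 (n 0 z (n 2 (n 2 (n
 0 z (n 0 z (n 0 z (n 0 z (n 0 z (n 0 z z)))))) (n 1 z (n 1 z z))) (n 0 z (n 0 z (n 0 z (n 0 z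
 (n 0 z (n 0 z (n 0 z z))))))))) (n 1 (n 0 z (n 0 z (n 0 z (n 0 z (n 0 z (n 0 z (n 0 z (n 0 z (n
 0 z (n 0 z (n 0 z (n 0 z z)))))))))))) (n 1 (n 0 z (n 0 z (n 0 z (n 2 (n 0 z z) (n 0 z (n 0 z
 (n 0 z (n 0 z (n 0 z (n 0 z (n 0 z (n 0 z z)))))))))))) (n 1 (n 0 z (n 0 z (n 0 z (n 0 z (n 0 z
 (n 0 z (n 0 z (n 0 z (n 0 z (n 0 z (n 7754019 z (n 0 z z)))))))))))) z)))))) (n 0 (n 339 (n 2
 (n 0 z (n 2 (n 0 z (n 0 z (n 0 z (n 0 z (n 0 z (n 0 z z)))))) (n 1 z (n 1 z z)))) (n 0 z (n 0 z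
 (n 0 z (n 0 z (n 0 z (n 0 z z))))))) (n 339 (n 0 z (n 0 z (n 0 z (n 0 z (n 0 z (n 0 z (n 0 z
 z))))))) (n 337 (n 0 z (n 2 (n 0 z (n 0 z z)) (n 0 z (n 0 z (n 0 z (n 0 z (n 0 z (n 0 z (n 0 z
 (n 0 z (n 0 z (n 0 z (n 0 z (n 0 z (n 0 z z))))))))))))))) (n 337 (n 0 z (n 0 z (n 0 z (n 0 z
 (n 0 z (n 0 z (n 0 z (n 0 z (n 0 z (n 0 z (n 0 z (n 0 z (n 0 z (n 0 z (n 0 z z)))))))))))))))
 (n 337 (n 0 z (n 0 z (n 0 z (n 0 z (n 0 z (n 0 z (n 0 z (n 0 z (n 0 z (n 0 z (n 0 z (n 0 z (n 2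
 z (n 0 z (n 0 z z))))))))))))))) z))))) (n 0 (n 0 z (n 1 (n 0 z (n 0 z (n 0 z (n 0 z (n 0 z (n
 0 z (n 0 z (n 0 z (n 0 z (n 0 z (n 0 z (n 0 z (n 0 z (n 0 z (n 0 z (n 0 z (n 0 z (n 0 z (n 0 z
 (n 0 z (n 0 z (n 0 z (n 0 z (n 0 z (n 0 z z))))))))))))))))))))))))) (n 1 (n 0 z (n 2 (n 0 z z)
 (n 0 z (n 0 z (n 0 z (n 0 z (n 0 z (n 0 z (n 0 z (n 0 z (n 0 z (n 0 z (n 0 z (n 0 z (n 0 z (n 0
 z (n 0 z (n 0 z (n 0 z (n 0 z (n 0 z (n 0 z (n 0 z (n 0 z (n 0 z z))))))))))))))))))))))))) (n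
 1 (n 0 z (n 0 z (n 0 z (n 0 z (n 0 z (n 0 z (n 0 z (n 0 z (n 0 z (n 0 z (n 0 z (n 0 z (n 0 z (n
 7754019 z (n 0 z (n 0 z (n 0 z (n 0 z (n 0 z (n 0 z (n 7754019 z (n 0 z (n 0 z (n 0 z (n 0 z
 z))))))))))))))))))))))))) z)))) (n 0 (n 389 (n 0 z (n 0 z (n 0 z (n 0 z (n 0 z (n 0 z (n 2 (n
 0 z (n 0 z z)) (n 0 z (n 0 z (n 0 z (n 0 z (n 0 z (n 0 z (n 0 z z)))))))))))))) (n 389 (n 0 z
 (n 0 z (n 0 z (n 0 z (n 0 z (n 0 z (n 0 z (n 0 z (n 0 z (n 0 z (n 0 z (n 0 z (n 0 z (n 0 z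
 z)))))))))))))) (n 389 (n 0 z (n 0 z (n 0 z (n 0 z (n 2 z (n 0 z (n 0 z (n 0 z (n 0 z (n 0 z (n
 0 z (n 0 z (n 0 z (n 0 z z)))))))))))))) z))) (n 0 (n 0 z (n 0 z z)) (n 0 (n 0 z z) (n 0 z
 z)))))))))))) (n 0 (n 1 (n 3196 z (n 3196 z (n 5448035 z (n 3196 z (n 5445163 z (n 3196 z
 z)))))) (n 1 (n 3196 z (n 3196 z (n 2 z (n 3282443 z (n 3196 z (n 3196 z z)))))) (n 1 (n
 2164283 z (n 2164283 z (n 2164283 z (n 2164283 z (n 2164283 z (n 2164283 z z)))))) z))) (n 0 (n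
 0x8356cd21185d2c46e42d06e32d4621 (n 0 (n 0 (n 7750155 z (n 7750155 z (n 7750155 z (n 7750155 z
 (n 7750155 z (n 7750155 z z)))))) z) (n 0 (n 129 (n 1 (n 7675971 z (n 7675971 z (n 7675971 z (n
 7675971 z (n 7675971 z (n 7675971 z z)))))) (n 0 z (n 1 (n 7606355 z (n 7606355 z (n 7606355 z
 (n 7606355 z (n 7606355 z (n 7606355 z z)))))) (n 1 (n 7675971 z (n 7675971 z (n 7675971 z (n
 7675971 z (n 7675971 z (n 7675971 z z)))))) z)))) (n 261 (n 1 (n 7606355 z (n 7606355 z (n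
 7606355 z (n 7606355 z (n 7606355 z (n 7606355 z z)))))) (n 0 z (n 1 (n 2 z (n 2300 z (n 2300 z
 (n 7476747 z (n 2300 z (n 2300 z z)))))) (n 1 (n 7750155 z (n 7750155 z (n 7750155 z (n 7750155
 z (n 7750155 z (n 7750155 z z)))))) (n 1 (n 7606355 z (n 7606355 z (n 7606355 z (n 7606355 z (n
 7606355 z (n 7606355 z z)))))) (n 0 z z)))))) (n 153 (n 1 (n 7675971 z (n 7675971 z (n 7675971
 z (n 7675971 z (n 7675971 z (n 7675971 z z)))))) (n 0 z (n 1 (n 7606355 z (n 7606355 z (n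
 7606355 z (n 7606355 z (n 7606355 z (n 7606355 z z)))))) (n 1 (n 7675971 z (n 7675971 z (n
 7675971 z (n 7675971 z (n 7675971 z (n 7675971 z z)))))) z)))) (n 3 (n 1 (n 10 z (n 6625067 z
 (n 6627699 z (n 7476747 z (n 3148 z (n 3148 z z)))))) (n 1 (n 7750155 z (n 7750155 z (n 7750155
 z (n 7750155 z (n 7750155 z (n 7750155 z z)))))) (n 1 (n 2164539 z (n 2164539 z (n 2164539 z (n
 7476747 z (n 2164539 z (n 2164539 z z)))))) z))) (n 193 (n 1 (n 4108 z (n 6498075 z (n 5448051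
 z (n 18 z (n 5445419 z (n 4108 z z)))))) (n 0 z (n 1 (n 7606355 z (n 7606355 z (n 7606355 z (n
 7606355 z (n 7606355 z (n 7606355 z z)))))) (n 0 z (n 1 (n 7606355 z (n 7606355 z (n 7606355 z
 (n 7606355 z (n 7606355 z (n 7606355 z z)))))) (n 0 z (n 1 (n 2164539 z (n 2164539 z (n 2164539
 z (n 2164539 z (n 2164539 z (n 2164539 z z)))))) z))))))) (n 609 (n 1 (n 26 z (n 5068 z (n 5068
 z (n 5068 z (n 5068 z (n 5068 z z)))))) (n 1 (n 5068 z (n 5068 z (n 5068 z (n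
 0x10476280967e668d738f80807c7e84865f99808d6ea26ac362767e6e78737d7f8d72588a777895779b7d8a8f8e988187666b9079730049
 z (n 6358875 z (n 5068 z z)))))) (n 1 (n 5068 z (n 5068 z (n 5068 z (n 5068 z (n 5068 z (n 5068
 z z)))))) (n 1 (n 5068 z (n 5068 z (n 5068 z (n 5068 z (n
 0x10476080967e668d738f80807c7e84865f99808d6ea26ac362767e6e78737d7f8d72588a777895779b7d8a8f8e988187666b9079730049
 z (n 5068 z z)))))) (n 1 (n 7476747 z (n 7476747 z (n 7476747 z (n 7476747 z (n 7476747 z (n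
 7476747 z z)))))) (n 1 (n 7476747 z (n 7476747 z (n 7476747 z (n 7476747 z (n 7476747 z (n
 7476747 z z)))))) (n 1 (n 7675971 z (n 7675971 z (n 7675971 z (n 7675971 z (n 7675971 z (n
 7675971 z z)))))) (n 1 (n 7675971 z (n 7675971 z (n 7675971 z (n 7675971 z (n 7675971 z (n
 7675971 z z)))))) (n 1 (n
 0x34741808c80788f7c7d7d797e89727d799b81787c877c7e797b877f78838a6b8c86787a7d808b717d7c8b858e85837a778188767e0049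
 z (n 5068 z (n 5068 z (n 6494027 z (n 5068 z (n 5068 z z)))))) (n 0 z (n 1 (n 5068 z (n 5068 z
 (n 34 z (n 5068 z (n 6428507 z (n 5068 z z)))))) z))))))))))) (n 3 (n 1 (n 3196 z (n 7742523 z
 (n 5448051 z (n 3196 z (n 5445419 z (n 3196 z z)))))) (n 1 (n 7750155 z (n 7750155 z (n 7750155
 z (n 7750155 z (n 7750155 z (n 7750155 z z)))))) (n 1 (n 2164539 z (n 2164539 z (n 7742523 z (n
 2164539 z (n 2164539 z (n 2164539 z z)))))) z))) z))))))) (n 0 (n 0 (n 0 z (n 0 z (n 0 z (n 0 z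
 (n 0 z z))))) (n 0 (n 0 z (n 0 z (n 0 z (n 0 z z)))) (n 0 (n 0 z (n 0 z (n 0 z z))) (n 0 (n 0 z
 (n 0 z z)) (n 0 (n 0 z z) z))))) (n 0 (n 287 (n 0 (n 0 z (n 0 z (n 0 z (n 0 z (n 0 z z))))) (n
 0 (n 0 z (n 0 z (n 0 z (n 0 z (n 0 z z))))) (n 0 (n 0 z (n 0 z (n 0 z (n 0 z (n 0 z z))))) (n 0
 (n 0 z (n 0 z (n 0 z (n 0 z (n 0 z z))))) (n 0 (n 0 z (n 0 (n 8865067 z (n 8865067 z z)) (n 0
 (n 8865067 z (n 8865067 z z)) (n 0 z (n 0 (n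
 0x14874807f81807f80818180808181807e8180817f8280807e7f817f7f7f807f8080807f8080807f8180808083807f8180808080800049
 z (n
 0x10487480967e668d738f80807c7e84865f99808d6ea26ac362767e6e78737d7f8d72588a777895779b7d8a8f8e988187666b9079730049
 z z)) z))))) (n 0 (n 0 z (n 0 z (n 0 z (n 0 z (n 0 z z))))) (n 0 (n 0 z (n 0 z (n 0 z (n 0 z (n
 0 z z))))) (n 0 (n 0 z (n 0 z (n 0 z (n 0 z (n 0 (n
 0x2c872807d8889738480857b7d86867e7c7b8a8478827d7e7b808184917b7b7f917883758f7c80797b8283798e7f888277838c777c0049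
 z z) z))))) z)))))))) (n 153 (n 0 (n 0 z (n 0 z (n 0 z (n 0 z (n 0 z z))))) (n 0 (n 0 (n
 8791099 z (n 8791099 z z)) (n 0 (n 8856859 z (n 8856859 z z)) (n 0 z (n 0 z (n 0 z z))))) (n 0
 (n 0 z (n 0 z (n 0 z (n 0 z (n 0 (n 8654931 z z) z))))) (n 0 (n 0 z (n 0 z (n 0 z (n 0 z (n 0 z
 z))))) z)))) (n 249 (n 0 (n 0 z (n 0 z (n 0 z (n 0 z (n 0 z z))))) (n 0 (n 0 z (n 0 z (n 0 z (n
 0 z (n 0 (n
 0x34870808c80788f7c7d7d797e89727d799b81787c877c7e797b877f78838a6b8c86787a7d808b717d7c8b858e85837a778188767e0049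
 z z) z))))) (n 0 (n 0 z (n 0 z (n 0 z (n 0 z (n 0 z z))))) (n 0 (n 0 z (n 0 z (n 0 z (n 0 z (n
 0 z z))))) (n 0 (n 0 z (n 0 z (n 0 z (n 0 z (n 0 z z))))) (n 0 (n 0 z (n 0 z (n 0 z (n 0 z (n 0
 (n
 0x10487680967e668d738f80807c7e84865f99808d6ea26ac362767e6e78737d7f8d72588a777895779b7d8a8f8e988187666b9079730049
 z z) z))))) (n 0 (n 0 (n 8791099 z (n 8791099 z z)) (n 0 z (n 0 z (n 0 z (n 0 (n 8791099 z (n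
 8791099 z z)) z))))) (n 0 (n 0 z (n 0 z (n 0 z (n 0 z (n 0 z z))))) (n 0 (n 0 z (n 0 z (n 0 z
 (n 0 z (n 0 (n 8654931 z z) z))))) (n 0 (n 0 z (n 0 z (n 0 z (n 0 z (n 0 z z))))) (n 0 (n 0 z
 (n 0 z (n 0 z (n 0 z (n 0 z z))))) (n 0 (n 0 z (n 0 z (n 0 z (n 0 z (n 0 z z))))) (n 0 (n 0 z
 (n 0 z (n 0 (n 8791099 z z) (n 0 z (n 0 (n 8791099 z (n 8791099 z z)) z))))) (n 0 (n 0 z (n 0
 (n
 0x14874807f81807f80818180808181807e8180817f8280807e7f817f7f7f807f8080807f8080807f8180808083807f8180808080800049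
 z z) (n 0 (n
 0x34873808c80788f7c7d7d797e89727d799b81787c877c7e797b877f78838a6b8c86787a7d808b717d7c8b858e85837a778188767e0049
 z z) (n 0 z (n 0 (n
 0x14874807f81807f80818180808181807e8180817f8280807e7f817f7f7f807f8080807f8080807f8180808083807f8180808080800049
 z (n
 0x10487480967e668d738f80807c7e84865f99808d6ea26ac362767e6e78737d7f8d72588a777895779b7d8a8f8e988187666b9079730049
 z z)) z))))) (n 0 (n 0 z (n 0 z (n 0 z (n 0 (n 8724547 z z) (n 0 z z))))) z))))))))))))))) (n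
 393 (n 0 (n 0 z (n 0 z (n 0 z (n 0 z (n 0 z z))))) (n 0 (n 0 z (n 0 z (n 0 z (n 0 z (n 0 z
 z))))) (n 0 (n 0 z (n 0 z (n 0 z (n 0 z (n 0 z z))))) (n 0 (n 0 z (n 0 z (n 0 z (n 0 z (n 0 z
 z))))) (n 0 (n 0 z (n 0 z (n 0 z (n 0 z (n 0 z z))))) (n 0 (n 0 z (n 0 z (n 0 z (n 0 z (n 0 z
 z))))) (n 0 (n 0 z (n 0 z (n 0 z (n 0 (n 8654931 z (n 8654931 z z)) (n 0 z z))))) (n 0 (n 0 z
 (n 0 z (n 0 z (n 0 z (n 0 z z))))) (n 0 (n 0 z (n 0 z (n 0 z (n 0 z (n 0 z z))))) (n 0 (n 0 z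
 (n 0 z (n 0 z (n 0 z (n 0 z z))))) (n 0 (n 0 z (n 0 z (n 0 z (n 0 (n 4331579 z z) (n 0 z z)))))
 (n 0 (n 0 z (n 0 z (n 0 z (n 0 z (n 0 z z))))) (n 0 (n 0 (n 8724547 z z) (n 0 z (n 0 z (n 0 z
 (n 0 z z))))) z))))))))))))) (n 293 (n 0 (n 0 z (n 0 z (n 0 z (n 0 z (n 0 z z))))) (n 0 (n 0 z
 (n 0 z (n 0 z (n 0 z (n 0 (n
 0x58708180808080807f807f80808181808080817e80818080818180808080808080808080808080807f8080818081817f808080800049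
 z (n
 0x10486080967e668d738f80807c7e84865f99808d6ea26ac362767e6e78737d7f8d72588a777895779b7d8a8f8e988187666b9079730049
 z z)) z))))) (n 0 (n 0 z (n 0 z (n 0 z (n 0 z (n 0 z z))))) (n 0 (n 0 z (n 0 z (n 0 z (n 0 z (n
 0 z z))))) (n 0 (n 0 z (n 0 z (n 0 z (n 0 z (n 0 z z))))) (n 0 (n 0 z (n 0 z (n 0 z (n 0 z (n 0
 z z))))) (n 0 (n 0 z (n 0 z (n 0 z (n 0 z (n 0 z z))))) (n 0 (n 0 z (n 0 z (n 0 z (n 0 z (n 0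
 (n 8868131 z (n 8868131 z z)) z))))) (n 0 (n 0 z (n 0 z (n 0 z (n 0 z (n 0 z z))))) (n 0 (n 0 z
 (n 0 z (n 0 z (n 0 z (n 0 (n 8591147 z (n
 0x548648061969d528e8194827c829d83757a807f7b88828076877784807c689b906f8d80b57c71797d8776678f63857b82859170830049
 z z)) z))))) (n 0 (n 0 z (n 0 z (n 0 (n 8525323 z z) (n 0 z (n 0 (n 8525323 z (n 8525323 z z))
 z))))) (n 0 (n 0 z (n 0 z (n 0 z (n 0 z (n 0 (n
 0x548648061969d528e8194827c829d83757a807f7b88828076877784807c689b906f8d80b57c71797d8776678f63857b82859170830049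
 z (n 8791899 z z)) z))))) (n 0 (n 0 (n
 0x3d872878989897d7d77866a7d7377898787a2786b78816983918786987e7379a27771847e79876e83887e7d9391928362879878760049
 z z) (n 0 z (n 0 z (n 0 z (n 0 (n 8591147 z (n
 0x3e0c9d4100e060090e416e6c47839966a0aa77ae75828d9d68a5297b9d9fa7ae4f68727a28b1aa623ab4a1626790aee86f238a4cba346531a6857080a71009
 z z)) z))))) z))))))))))))) (n 171 (n 0 (n 0 z (n 0 z (n 0 z (n 0 z (n 0 z z))))) (n 0 (n 0 z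
 (n 0 z (n 0 z (n 0 z (n 0 z z))))) (n 0 (n 0 z (n 0 z (n 0 z (n 0 z (n 0 z z))))) (n 0 (n 0 z
 (n 0 z (n 0 z (n 0 z (n 0 z z))))) (n 0 (n 0 z (n 0 z (n 0 z (n 0 z (n 0 z z))))) z))))) (n 513
 (n 0 (n 0 z (n 0 z (n 0 z (n 0 z (n 0 z z))))) (n 0 (n 0 z (n 0 z (n 0 z (n 0 z (n 0 z z)))))
 (n 0 (n 0 z (n 0 z (n 0 z (n 0 z (n 0 z z))))) (n 0 (n 0 z (n 0 z (n 0 z (n 0 z (n 0 z z)))))
 (n 0 (n 0 z (n 0 z (n 0 z (n 0 z (n 0 z z))))) (n 0 (n 0 z (n 0 z (n 0 z (n 0 z (n 0 z z)))))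
 (n 0 (n 0 z (n 0 z (n 0 z (n 0 z (n 0 (n 8654931 z z) z))))) (n 0 (n 0 z (n 0 z (n 0 z (n 0 z
 (n 0 z z))))) (n 0 (n 0 z (n 0 z (n 0 z (n 0 z (n 0 (n 8654931 z z) z))))) z))))))))) (n 489 (n
 0 (n 0 z (n 0 z (n 0 z (n 0 z (n 0 z z))))) (n 0 (n 0 z (n 0 z (n 0 z (n 0 z (n 0 z z))))) (n 0
 (n 0 z (n 0 z (n 0 z (n 0 z (n 0 (n
 0x3c872807c8d8e6b877f88787b8a897c7978918673847c7d788082879b79797f9974856f977b7e7678838476967e8c82728493727a0049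
 z z) z))))) (n 0 (n 0 z (n 0 z (n 0 z (n 0 z (n 0 z z))))) (n 0 (n 0 z (n 0 z (n 0 z (n 0 z (n
 0 z z))))) (n 0 (n 0 z (n 0 z (n 0 (n 8525323 z z) (n 0 z (n 0 (n 8525323 z (n 8525323 z z))
 z))))) (n 0 (n 0 z (n 0 z (n 0 z (n 0 z (n 0 z z))))) (n 0 (n 0 z (n 0 z (n 0 z (n 0 z (n 0 z
 z))))) (n 0 (n 0 z (n 0 z (n 0 z (n 0 z (n 0 z z))))) (n 0 (n 0 z (n 0 z (n 0 z (n 0 (n 8794483
 z (n
 0x1587382808180807e7e827e817f81817e817e817d7f82808181828080818181808180817f7f7f817e80817d808180807e817e7f800049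
 z z)) (n 0 z z))))) (n 0 (n 0 z (n 0 z (n 0 z (n 0 z (n 0 z z))))) (n 0 (n 0 z (n 0 z (n 0 z (n
 0 z (n 0 (n
 0xaea70804037d81807e7e84827e818083808080817f7f8181818080817d808180827e7f807f808280808181817f8280807f7f808080817f0809
 z (n
 0x3d870878989897d7d77866a7d7377898787a2786b78816983918786987e7379a27771847e79876e83887e7d9391928362879878760049
 z z)) z))))) (n 0 (n 0 z (n 0 z (n 0 z (n 0 z (n 0 (n 8654931 z z) z))))) (n 0 (n 0 z (n 0 z (n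
 0 z (n 0 z (n 0 z z))))) (n 0 (n 0 z (n 0 z (n 0 z (n 0 z (n 0 z z))))) (n 0 (n 0 z (n 0 z (n 0
 z (n 0 z (n 0 (n 8654931 z z) z))))) (n 0 (n 0 z (n 0 z (n 0 z (n 0 z (n 0 z z))))) (n 0 (n 0 z
 (n 0 z (n 0 z (n 0 z (n 0 z z))))) (n 0 (n 0 z (n 0 z (n 0 z (n 0 z (n 0 z z))))) (n 0 (n 0 z
 (n 0 z (n 0 z (n 0 z (n 0 z z))))) (n 0 (n 0 (n 8798731 z (n 8798731 z z)) (n 0 (n 8798731 z (n
 8798731 z z)) (n 0 (n 8798731 z (n 7676035 z z)) (n 0 z (n 0 (n 8798731 z (n 7676035 z z))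
 z))))) (n 0 (n 0 (n
 0x3d875878989897d7d77866a7d7377898787a2786b78816983918786987e7379a27771847e79876e83887e7d9391928362879878760049
 z (n
 0x161d61d4c0e170eb0a06078094ac8a597989a15c76928b7b697ca99656876e717b839b89c38c587cbf677c829f7a79647a86785c8b97a397568dae7b6b1009
 z z)) (n 0 z (n 0 z (n 0 z (n 0 z z))))) z)))))))))))))))))))))) (n 195 (n 0 (n 0 z (n 0 z (n 0
 z (n 0 z (n 0 (n
 0x34870808c80788f7c7d7d797e89727d799b81787c877c7e797b877f78838a6b8c86787a7d808b717d7c8b858e85837a778188767e0049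
 z z) z))))) (n 0 (n 0 z (n 0 z (n 0 z (n 0 z (n 0 z z))))) (n 0 (n 0 z (n 0 z (n 0 z (n 0 z (n
 0 z z))))) (n 0 (n 0 z (n 0 z (n 0 z (n 0 z (n 0 z z))))) (n 0 (n 0 z (n 0 z (n 0 z (n 0 z (n 0
 z z))))) (n 0 (n 0 z (n 0 z (n 0 z (n 0 z (n 0 (n 8654931 z z) z))))) (n 0 (n 0 z (n 0 z (n 0 z
 (n 0 z (n 0 z z))))) (n 0 (n 0 z (n 0 z (n 0 z (n 0 (n 8871955 z z) (n 0 z z))))) z)))))))) (n
 193 (n 0 (n 0 z (n 0 z (n 0 z (n 0 z (n 0 z z))))) (n 0 (n 0 z (n 0 z (n 0 z (n 0 z (n 0 z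
 z))))) (n 0 (n 0 z (n 0 z (n 0 z (n 0 z (n 0 z z))))) (n 0 (n 0 (n 8654931 z (n 8654931 z z))
 (n 0 z (n 0 z (n 0 z (n 0 z z))))) (n 0 (n 0 z (n 0 z (n 0 z (n 0 z (n 0 z z))))) (n 0 (n 0 z
 (n 0 z (n 0 z (n 0 z (n 0 (n 8521499 z (n 8591147 z z)) z))))) (n 0 (n 0 z (n 0 z (n 0 z (n 0 z
 (n 0 z z))))) z))))))) (n 633 (n 0 (n 0 z (n 0 z (n 0 z (n 0 z (n 0 z z))))) (n 0 (n 0 z (n 0 z
 (n 0 z (n 0 z (n 0 z z))))) (n 0 (n 0 z (n 0 z (n 0 (n 8722219 z z) (n 0 z (n 0 (n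
 0x3c874807c8d8e6b877f88787b8a897c7978918673847c7d788082879b79797f9974856f977b7e7678838476967e8c82728493727a0049
 z (n
 0x10486280967e668d738f80807c7e84865f99808d6ea26ac362767e6e78737d7f8d72588a777895779b7d8a8f8e988187666b9079730049
 z z)) z))))) (n 0 (n 0 z (n 0 z (n 0 z (n 0 z (n 0 z z))))) (n 0 (n 0 z (n 0 z (n 0 z (n 0 z (n
 0 z z))))) (n 0 (n 0 z (n 0 z (n 0 z (n 0 z (n 0 z z))))) (n 0 (n 0 z (n 0 z (n 0 z (n 0 z (n 0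
 z z))))) (n 0 (n 0 z (n 0 z (n 0 z (n 0 z (n 0 (n 8724547 z z) z))))) (n 0 (n 0 z (n 0 z (n 0 z
 (n 0 z (n 0 z z))))) (n 0 (n 0 z (n 0 z (n 0 z (n 0 z (n 0 z z))))) (n 0 (n 0 z (n 0 z (n 0 z
 (n 0 z (n 0 z z))))) (n 0 (n 0 z (n 0 z (n 0 z (n 0 z (n 0 z z))))) z)))))))))))) (n 609 (n 0
 (n 0 z (n 0 z (n 0 z (n 0 z (n 0 z z))))) (n 0 (n 0 z (n 0 (n 8722219 z z) (n 0 (n 8722219 z z)
 (n 0 z (n 0 (n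
 0x14874807f81807f80818180808181807e8180817f8280807e7f817f7f7f807f8080807f8080807f8180808083807f8180808080800049
 z (n
 0x10486280967e668d738f80807c7e84865f99808d6ea26ac362767e6e78737d7f8d72588a777895779b7d8a8f8e988187666b9079730049
 z z)) z))))) (n 0 (n 0 z (n 0 z (n 0 z (n 0 z (n 0 (n 8868131 z z) z))))) (n 0 (n 0 z (n 0 z (n
 0 z (n 0 z (n 0 z z))))) (n 0 (n 0 z (n 0 z (n 0 z (n 0 z (n 0 z z))))) (n 0 (n 0 z (n 0 z (n 0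
 z (n 0 z (n 0 z z))))) (n 0 (n 0 z (n 0 z (n 0 z (n 0 z (n 0 z z))))) (n 0 (n 0 z (n 0 z (n 0 z
 (n 0 z (n 0 z z))))) (n 0 (n 0 z (n 0 z (n 0 z (n 0 z (n 0 z z))))) (n 0 (n 0 (n
 0x3d876878989897d7d77866a7d7377898787a2786b78816983918786987e7379a27771847e79876e83887e7d9391928362879878760049
 z z) (n 0 z (n 0 z (n 0 z (n 0 z z))))) (n 0 (n 0 (n 8868131 z z) (n 0 z (n 0 z (n 0 z (n 0 z
 z))))) z))))))))))) (n 219 (n 0 (n 0 z (n 0 z (n 0 z (n 0 z (n 0 (n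
 0x3d870878989897d7d77866a7d7377898787a2786b78816983918786987e7379a27771847e79876e83887e7d9391928362879878760049
 z z) z))))) (n 0 (n 0 z (n 0 z (n 0 z (n 0 z (n 0 (n 7407691 z z) z))))) (n 0 (n 0 z (n 0 z (n
 0 z (n 0 z (n 0 z z))))) (n 0 (n 0 z (n 0 z (n 0 z (n 0 z (n 0 z z))))) (n 0 (n 0 z (n 0 z (n 0
 z (n 0 z (n 0 z z))))) (n 0 (n 0 z (n 0 z (n 0 z (n 0 z (n 0 z z))))) (n 0 (n 0 z (n 0 z (n 0 z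
 (n 0 z (n 0 z z))))) (n 0 (n 0 z (n 0 z (n 0 z (n 0 z (n 0 z z))))) (n 0 (n 0 z (n 0 z (n 0 z
 (n 0 z (n 0 z z))))) (n 0 (n 0 z (n 0 z (n 0 z (n 0 (n 8871955 z z) (n 0 z z))))) (n 0 (n 0 z
 (n 0 z (n 0 z (n 0 z (n 0 z z))))) (n 0 (n 0 (n
 0x34870808c80788f7c7d7d797e89727d799b81787c877c7e797b877f78838a6b8c86787a7d808b717d7c8b858e85837a778188767e0049
 z z) (n 0 z (n 0 z (n 0 z (n 0 z z))))) z)))))))))))) (n 217 (n 0 (n 0 z (n 0 z (n 0 z (n 0 z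
 (n 0 z z))))) (n 0 (n 0 z (n 0 z (n 0 z (n 0 z (n 0 z z))))) (n 0 (n 0 z (n 0 z (n 0 z (n 0 z
 (n 0 z z))))) (n 0 (n 0 z (n 0 z (n 0 z (n 0 z (n 0 (n
 0x1587482808180807e7e827e817f81817e817e817d7f82808181828080818181808180817f7f7f817e80817d808180807e817e7f800049
 z (n 8591147 z z)) z))))) (n 0 (n 0 z (n 0 z (n 0 z (n 0 z (n 0 z z))))) (n 0 (n 0 z (n 0 z (n
 0 z (n 0 z (n 0 z z))))) (n 0 (n 0 z (n 0 z (n 0 z (n 0 z (n 0 z z))))) (n 0 (n 0 z (n 0 z (n 0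
 z (n 0 z (n 0 z z))))) (n 0 (n 0 z (n 0 z (n 0 z (n 0 z (n 0 z z))))) (n 0 (n 0 z (n 0 z (n 0 z
 (n 0 z (n 0 z z))))) (n 0 (n 0 z (n 0 z (n 0 z (n 0 z (n 0 z z))))) (n 0 (n 0 (n
 0x3d872878989897d7d77866a7d7377898787a2786b78816983918786987e7379a27771847e79876e83887e7d9391928362879878760049
 z z) (n 0 z (n 0 z (n 0 z (n 0 (n 8591147 z (n
 0x60090e41668084898871847f85757d8b887873778f8d72828077807c8a829b7d77819575807d8b7e79767a8780748a838c8a73868e7b790809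
 z z)) z))))) (n 0 (n 0 z (n 0 z (n 0 z (n 0 z (n 0 z z))))) (n 0 (n 0 z (n 0 z (n 0 z (n 0 z (n
 0 (n 8521499 z (n 8591147 z z)) z))))) (n 0 (n 0 z (n 0 z (n 0 (n
 0x3c871807c8d8e6b877f88787b8a897c7978918673847c7d788082879b79797f9974856f977b7e7678838476967e8c82728493727a0049
 z z) (n 0 z (n 0 (n 6555771 z (n 6555771 z z)) z))))) z))))))))))))))) (n 218 (n 0 (n 0 (n
 0x3d872878989897d7d77866a7d7377898787a2786b78816983918786987e7379a27771847e79876e83887e7d9391928362879878760049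
 z z) (n 0 z (n 0 z (n 0 z (n 0 (n 8591147 z (n
 0x84831808c7f7287798880807e7f82836f8d8087779175a2717b7f767c7a7e8086796b857b7c8b7b8e7f8588878c81857275887d790049
 z z)) z))))) (n 0 (n 0 z (n 0 z (n 0 z (n 0 z (n 0 z z))))) (n 0 (n 0 z (n 0 z (n 0 z (n 0 z (n
 0 z z))))) (n 0 (n 0 z (n 0 z (n 0 z (n 0 z (n 0 z z))))) (n 0 (n 0 z (n 0 z (n 0 z (n 0 z (n 0
 z z))))) (n 0 (n 0 z (n 0 z (n 0 z (n 0 z (n 0 z z))))) (n 0 (n 0 z (n 0 z (n 0 z (n 0 z (n 0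
 (n
 0x3d870878989897d7d77866a7d7377898787a2786b78816983918786987e7379a27771847e79876e83887e7d9391928362879878760049
 z z) z))))) (n 0 (n 0 z (n 0 z (n 0 z (n 0 z (n 0 z z))))) (n 0 (n 0 z (n 0 z (n 0 z (n 0 z (n
 0 z z))))) (n 0 (n 0 z (n 0 z (n 0 z (n 0 z (n 0 z z))))) (n 0 (n 0 z (n 0 z (n 0 z (n 0 z (n 0
 z z))))) (n 0 (n 0 z (n 0 z (n 0 z (n 0 z (n 0 z z))))) (n 0 (n 0 z (n 0 (n 8722219 z z) (n 0 z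
 (n 0 z (n 0 (n
 0x3d872878989897d7d77866a7d7377898787a2786b78816983918786987e7379a27771847e79876e83887e7d9391928362879878760049
 z (n
 0x3c872807c8d8e6b877f88787b8a897c7978918673847c7d788082879b79797f9974856f977b7e7678838476967e8c82728493727a0049
 z z)) z))))) (n 0 (n 0 z (n 0 z (n 0 z (n 0 z (n 0 z z))))) z)))))))))))))) (n 399 (n 0 (n 0 z
 (n 0 z (n 0 z (n 0 z (n 0 (n
 0x3c872807c8d8e6b877f88787b8a897c7978918673847c7d788082879b79797f9974856f977b7e7678838476967e8c82728493727a0049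
 z z) z))))) (n 0 (n 0 z (n 0 z (n 0 z (n 0 z (n 0 z z))))) (n 0 (n 0 z (n 0 z (n 0 z (n 0 z (n
 0 (n 4331627 z z) z))))) (n 0 (n 0 z (n 0 z (n 0 z (n 0 z (n 0 z z))))) (n 0 (n 0 z (n 0 z (n 0
 z (n 0 z (n 0 (n 3282955 z z) z))))) (n 0 (n 0 z (n 0 z (n 0 z (n 0 z (n 0 z z))))) (n 0 (n 0 z
 (n 0 z (n 0 z (n 0 z (n 0 z z))))) (n 0 (n 0 z (n 0 z (n 0 z (n 0 z (n 0 z z))))) (n 0 (n 0 (n
 8724547 z z) (n 0 z (n 0 z (n 0 z (n 0 z z))))) z))))))))) (n 261 (n 0 (n 0 z (n 0 z (n 0 z (n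
 0 z (n 0 z z))))) (n 0 (n 0 z (n 0 z (n 0 z (n 0 z (n 0 z z))))) (n 0 (n 0 z (n 0 z (n 0 z (n 0
 z (n 0 z z))))) (n 0 (n 0 z (n 0 z (n 0 z (n 0 z (n 0 z z))))) (n 0 (n 0 z (n 0 z (n 0 z (n 0 z
 (n 0 z z))))) (n 0 (n 0 z (n 0 z (n 0 z (n 0 z (n 0 (n 8591147 z (n 8791099 z z)) z)))))
 z)))))) (n 129 (n 0 (n 0 z (n 0 z (n 0 z (n 0 z (n 0 z z))))) (n 0 (n 0 z (n 0 z (n 0 z (n 0 z
 (n 0 z z))))) (n 0 (n 0 (n 8791099 z (n 8791099 z z)) (n 0 z (n 0 z (n 0 z (n 0 (n 8791099 z (n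
 8791099 z z)) z))))) (n 0 (n 0 z (n 0 z (n 0 z (n 0 z (n 0 z z))))) z)))) (n 3 (n 0 (n 0 z (n 0
 z (n 0 z (n 0 z (n 0 z z))))) (n 0 (n 0 z (n 0 z (n 0 z (n 0 z (n 0 (n 8798731 z z) z))))) (n 0
 (n 0 z (n 0 z (n 0 z (n 0 z (n 0 z z))))) z))) (n 1 (n 0 (n 0 z (n 0 z (n 0 z (n 0 z (n 0 z
 z))))) (n 0 (n 0 z (n 0 z (n 0 z (n 0 z (n 0 z z))))) (n 0 (n 0 z (n 0 z (n 0 z (n 0 z (n 0 z
 z))))) (n 0 (n 0 z (n 0 z (n 0 z (n 0 z (n 0 (n 8798731 z z) z))))) (n 0 (n 0 z (n 0 z (n 0 z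
 (n 0 z (n 0 z z))))) (n 0 (n 0 z (n 0 z (n 0 z (n 0 z (n 0 z z))))) (n 0 (n 0 z (n 0 z (n 0 z
 (n 0 z (n 0 z z))))) (n 0 (n 0 z (n 0 z (n 0 z (n 0 z (n 0 z z))))) (n 0 (n 0 z (n 0 z (n 0 z
 (n 0 z (n 0 z z))))) (n 0 (n 0 z (n 0 z (n 0 z (n 0 z (n 0 (n 8521499 z (n 8591147 z z)) z)))))
 (n 0 (n 0 (n 8798731 z (n 8798731 z z)) (n 0 (n 8798731 z (n 8798731 z z)) (n 0 (n 8798731 z (n
 7676035 z z)) (n 0 z (n 0 (n 8798731 z (n 7676035 z z)) z))))) z))))))))))) (n 0 (n 0 (n 0 z (n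
 0 z (n 0 z (n 0 z (n 0 z z))))) (n 0 (n 0 (n 8798731 z (n 8798731 z z)) (n 0 (n 8798731 z (n
 8798731 z z)) (n 0 (n 8798731 z (n 8798731 z z)) (n 0 z (n 0 z z))))) (n 0 (n 0 z (n 0 z (n 0 z
 (n 0 z (n 0 z z))))) (n 0 (n 0 z (n 0 (n 8722219 z z) (n 0 (n 8722219 z z) (n 0 z (n 0 (n
 0x14874807f81807f80818180808181807e8180817f8280807e7f817f7f7f807f8080807f8080807f8180808083807f8180808080800049
 z (n 8521499 z z)) z))))) (n 0 (n 0 z (n 0 z (n 0 z (n 0 z (n 0 z z))))) (n 0 (n 0 z (n 0 z (n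
 0 z (n 0 z (n 0 z z))))) (n 0 (n 0 z (n 0 z (n 0 z (n 0 z (n 0 z z))))) (n 0 (n 0 z (n 0 z (n 0
 z (n 0 z (n 0 z z))))) (n 0 (n 0 z (n 0 z (n 0 z (n 0 z (n 0 z z))))) (n 0 (n 0 z (n 0 z (n 0 z
 (n 0 z (n 0 (n 8521499 z (n 8591147 z z)) z))))) (n 0 (n 0 z (n 0 z (n 0 (n
 0x3c871807c8d8e6b877f88787b8a897c7978918673847c7d788082879b79797f9974856f977b7e7678838476967e8c82728493727a0049
 z z) (n 0 z (n 0 (n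
 0xd484180927e6c8b768c7f817d7f83856596808b719b6eb568787f717a767e808a756088797a9179967e888c8b9381876b6f8d7a760049
 z (n
 0x15870807f818080807f80808081808080808080808081808182818080808080818080807f808080808080808080808180807f80800049
 z z)) z))))) (n 0 (n 0 z (n 0 z (n 0 z (n 0 (n
 0x3d870878989897d7d77866a7d7377898787a2786b78816983918786987e7379a27771847e79876e83887e7d9391928362879878760049
 z z) (n 0 z z))))) (n 0 (n 0 z (n 0 z (n 0 z (n 0 z (n 0 z z))))) z)))))))))))))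
 z))))))))))))))))))))) z)))) z) z)))) (n
 0xadd28275968849901d64b4125c2358ed80950916284e109d30a72641309d40 (n 0x213ac (n 443 (n 6623283 z
 (n 0 z (n 0 z (n 0 z (n 0 z (n 0 z (n 2 z (n 0 z z)))))))) (n 437 (n 10 z (n 6623283 z (n 0 z
 (n 0 z (n 6623283 z (n 0 z (n
 0x2aca8a864076e6b9aae50a059c13ea5a2766d6d828bb493857b8c7b706c8a867f8e7f826c967e67826b836d9b80798e6f837a7c74ae61690809
 z (n 18 z (n 26 z (n 6623283 z (n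
 0x13d64388798898778181747f6f597a969a4caf748053a240ae9b7b77e87f7864a57750908093a749a89c807e897f94a68377758e820049
 z z))))))))))) (n 433 (n 6631955 z (n 0 z (n 0 z (n 0 z (n 0 z (n 34 z (n 42 z (n 6631955 z (n
 0 z (n 0 z z)))))))))) (n 3 (n 6631955 z (n 6631955 z (n 0 z (n 0 z (n 50 z (n 58 z z)))))) (n
 1 (n 66 z (n 2164299 z (n 74 z z))) (n 0 (n 82 z (n 0 z (n 90 z (n 6631955 z (n 0 z (n 6631955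
 z (n 0 z z))))))) z)))))) (n 1 (n 0 (n 755 (n 0 z (n 2 (n 0 z (n 0 z (n 1 z (n 1 z (n 2 (n 0 z
 (n 0 z (n 0 (n 8660747 z (n 8783643 z z)) (n 0 (n 6424667 z z) (n 0 (n 4331627 z z) (n 0 z
 z)))))) (n 1 z (n 2 (n 0 z (n 0 z (n 0 (n 8660747 z (n 8783643 z z)) (n 0 (n 6424667 z z) (n 0
 (n 3283051 z z) (n 0 z z)))))) (n 1 z (n 1 z (n 2 (n 0 z (n 0 z (n 0 (n 8660747 z (n 8783643 z
 z)) (n 0 (n 3460 z z) (n 0 z (n 0 (n 3460 z z) z)))))) z)))))))))) (n 0 z (n 0 z (n 0 z (n 0 z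
 (n 0 z z))))))) (n 755 (n 0 z (n 0 z (n 0 z (n 0 z (n 2 (n 0 z (n 2 (n 0 z (n 0 z (n 0 z (n 0 z
 (n 0 z (n 0 z z)))))) (n 2 (n 0 z (n 0 z (n 0 z (n 0 z (n 0 z (n 0 z z)))))) (n 2 (n 0 z (n 0 z
 (n 0 z (n 0 z (n 0 z (n 0 z z)))))) (n 1 z (n 2 (n 0 z (n 0 z (n 0 z (n 0 z (n 0 z (n 0 z
 z)))))) (n 1 z (n 2 (n 0 z (n 0 z (n 0 z (n 0 z (n 0 z (n 0 z z)))))) (n 2 (n 0 z (n 0 z (n 0 z
 (n 0 z (n 0 z (n 0 z z)))))) z))))))))) (n 0 z (n 0 z z))))))) (n 755 (n 0 z (n 0 z (n 0 z (n 0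
 z (n 0 z (n 0 z (n 0 z z))))))) (n 867 (n 0 z (n 0 z (n 0 z (n 0 z (n 0 z (n 0 z (n 0 z (n 0 z
 (n 0 z (n 0 z (n 0 z (n 0 z (n 0 z (n 0 z (n 0 z (n 0 z (n 0 z (n 0 z (n 0 z (n 0 z (n 0 z (n 0
 z (n 0 z (n 0 z (n 0 z (n 0 z (n 0 z (n 0 z (n 0 z (n 0 z (n 0 z (n 0 z (n 0 z
 z))))))))))))))))))))))))))))))))) (n 867 (n 0 z (n 0 z (n 0 z (n 0 z (n 0 z (n 0 z (n 0 z (n 0
 z (n 0 z (n 0 z (n 0 z (n 0 z (n 0 z (n 0 z (n 0 z (n 0 z (n 2 (n 2 (n 0 z (n 0 z (n 0 z (n 0 z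
 (n 0 z (n 0 z z)))))) (n 1 z (n 2 (n 0 z (n 0 z (n 0 z (n 0 z (n 0 z (n 0 z z)))))) (n 1 z (n 1
 z (n 2 (n 0 z (n 0 z (n 0 z (n 0 z (n 0 z (n 0 z z)))))) z)))))) (n 0 z (n 0 z (n 0 z (n 0 z (n
 0 z (n 0 z (n 0 z (n 0 z (n 0 z (n 0 z (n 0 z (n 0 z (n 0 z (n 0 z (n 0 z (n 0 z
 z))))))))))))))))))))))))))))))))) (n 963 (n 0 z (n 0 z (n 0 z (n 0 z z)))) (n 963 (n 0 z (n 0
 z (n 0 z (n 2 (n 1 z (n 1 z (n 1 z (n 1 z z)))) z)))) (n 757 (n 0 z (n 0 z (n 0 z (n 0 z z))))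
 (n 757 (n 0 z (n 2 (n 1 z (n 2 (n 0 z (n 0 z (n 0 (n 3460 z z) (n 0 z (n 0 z (n 0 z z)))))) z))
 (n 0 z (n 0 z z)))) (n 865 (n 0 z (n 0 z (n 0 z (n 0 z (n 0 z (n 0 z (n 0 z (n 0 z z)))))))) (n
 865 (n 0 z (n 0 z (n 0 z (n 0 z (n 0 z (n 0 z (n 0 z (n 0 z z)))))))) z))))))))))) (n 0 (n 0 z
 (n 0 z (n 31 (n 0 z (n 0 z (n 0 z (n 2 (n 0 z (n 2 (n 0 z (n 0 z (n 0 (n 8860939 z (n 8860939 z
 z)) (n 0 z (n 0 z (n 0 (n 8860939 z z) z)))))) (n 1 z (n 2 (n 0 z (n 0 z (n 0 (n 8860939 z (n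
 8860939 z z)) (n 0 z (n 0 z (n 0 (n 8860939 z z) z)))))) (n 1 z (n 1 z (n 2 (n 0 z (n 0 z (n 0
 (n 20 z (n 20 z z)) (n 0 z (n 0 z (n 0 (n 8848923 z z) z)))))) z))))))) (n 0 z (n 0 z (n 0 z
 z))))))) (n 31 (n 0 z (n 0 z (n 0 z (n 0 z (n 7741699 z (n 0 z (n 0 z z))))))) (n 7 (n 0 z (n 0
 z (n 0 z (n 0 z (n 2 (n 0 z (n 2 (n 0 (n 8860939 z z) (n 0 (n 8860939 z z) (n 0 (n 8860939 z (n
 8860939 z z)) (n 0 z (n 0 z (n 0 z z)))))) (n 1 z (n 2 (n 0 z (n 0 z (n 0 (n 7473243 z (n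
 2164859 z z)) (n 0 (n 8660491 z z) (n 0 (n 8848923 z z) (n 0 z z)))))) (n 2 (n 0 (n 20 z z) (n
 0 z (n 0 (n 20 z (n 20 z z)) (n 0 z (n 0 (n 8717867 z z) (n 0 z z)))))) z))))) (n 0 z (n 0 z (n
 0 z z)))))))) (n 7 (n 0 z (n 0 z (n 0 z (n 0 z (n 0 z (n 7741699 z (n 0 z (n 0 z z)))))))) (n 3
 (n 0 z (n 0 z (n 0 z (n 0 z (n 2 (n 0 z (n 2 (n 0 z (n 0 z (n 0 (n 7473243 z (n 2164859 z z))
 (n 0 (n 8660491 z z) (n 0 (n 8848923 z z) (n 0 z z)))))) (n 2 (n 0 (n 20 z z) (n 0 z (n 0 (n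
 7743547 z (n 20 z z)) (n 0 z (n 0 (n 8717867 z z) (n 0 z z)))))) z))) (n 0 z (n 0 z (n 0 z (n 0
 z (n 0 z (n 0 z z))))))))))) (n 3 (n 0 z (n 0 z (n 0 z (n 0 z (n 0 z (n 0 z (n 0 z (n 0 z (n
 7741699 z (n 0 z (n 0 z z))))))))))) (n 5 (n 2 (n 0 z z) (n 0 z (n 0 z (n 0 z (n 0 z (n 0 z (n
 0 z (n 0 z (n 0 z (n 0 z (n 0 z z))))))))))) (n 5 (n 0 z (n 0 z (n 0 z (n 0 z (n 0 z (n 0 z (n
 2 z (n 0 z (n 0 z (n 0 z (n 0 z z))))))))))) z)))))))))) (n 0 (n 0 z (n 873 (n 0 z (n 0 z (n 0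
 z (n 0 z (n 0 z (n 2 (n 0 z (n 2 (n 0 z (n 0 z (n 0 z (n 0 z (n 0 z (n 0 z z)))))) (n 1 z (n 2
 (n 0 z (n 0 z (n 0 z (n 0 z (n 0 z (n 0 z z)))))) (n 1 z (n 2 (n 0 z (n 0 z (n 0 z (n 0 z (n 0
 z (n 0 z z)))))) (n 2 (n 0 z (n 0 z (n 0 z (n 0 z (n 0 z (n 0 z z)))))) z))))))) (n 0 z
 z))))))) (n 873 (n 0 z (n 0 z (n 0 z (n 0 z (n 0 z (n 0 z (n 0 z z))))))) (n 81 (n 0 z (n 0 z
 (n 0 z (n 0 z (n 0 z (n 0 z (n 2 (n 0 z (n 2 (n 0 z (n 0 z (n 0 z (n 0 z (n 0 z (n 0 z z))))))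
 (n 2 (n 0 z (n 0 z (n 0 z (n 0 z (n 0 z (n 0 z z)))))) (n 2 (n 0 z (n 0 z (n 0 z (n 0 z (n 0 z
 (n 0 z z)))))) (n 2 (n 0 z (n 0 z (n 0 z (n 0 z (n 0 z (n 0 z z)))))) z))))) z))))))) (n 81 (n
 0 z (n 0 z (n 0 z (n 0 z (n 0 z (n 0 z (n 0 z z))))))) (n 1273 (n 0 z (n 0 z (n 0 z (n 0 z (n 0
 z (n 0 z (n 2 (n 0 z (n 2 (n 0 z (n 0 z (n 0 z (n 0 z (n 0 z (n 0 z z)))))) (n 2 (n 0 z (n 0 z
 (n 0 z (n 0 z (n 0 z (n 0 z z)))))) z))) z))))))) (n 1273 (n 0 z (n 0 z (n 0 z (n 0 z (n 0 z (n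
 0 z (n 0 z z))))))) (n 1109 (n 0 z (n 0 z (n 0 z (n 0 z (n 0 z (n 0 z (n 2 (n 0 z z) z)))))))
 (n 1109 (n 0 z (n 0 z (n 0 z (n 0 z (n 0 z (n 0 z (n 0 z z))))))) z))))))))) (n 0 (n 879 (n 0 z
 (n 0 z (n 0 z (n 0 z (n 0 z (n 0 z (n 0 z (n 0 z (n 0 z (n 0 z (n 0 z (n 0 z (n 0 z (n 0 z (n 0
 z (n 0 z (n 0 z (n 0 z (n 0 z (n 0 z (n 0 z (n 0 z (n 0 z z))))))))))))))))))))))) (n 879 (n 0
 z (n 0 z (n 0 z (n 0 z (n 0 z (n 0 z (n 0 z (n 0 z (n 0 z (n 0 z (n 2 (n 2 (n 0 z (n 0 z (n 0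
 (n 8795403 z z) (n 0 z (n 0 z (n 0 z z)))))) (n 1 z (n 2 (n 0 z (n 0 z (n 0 (n 8795403 z z) (n
 0 z (n 0 z (n 0 z z)))))) (n 1 z (n 1 z (n 2 (n 0 z (n 0 z (n 0 z (n 0 z (n 0 z (n 0 z z))))))
 z)))))) (n 0 z (n 0 z (n 0 z (n 0 z (n 0 z (n 0 z (n 0 z (n 0 z (n 0 z (n 0 z (n 0 z (n 0 z
 z))))))))))))))))))))))) (n 75 (n 0 z (n 0 z (n 0 z (n 0 z (n 0 z (n 0 z (n 0 z z))))))) (n 75
 (n 0 z (n 0 z (n 0 z (n 0 z (n 2 (n 1 z (n 1 z (n 1 z (n 2 (n 0 z (n 0 z (n 0 (n 4468 z z) (n 0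
 z (n 0 z (n 0 z z)))))) z)))) (n 0 z (n 0 z z))))))) (n 777 (n 0 z (n 0 z (n 0 z (n 0 z (n 0 z
 (n 0 z (n 0 z (n 0 z (n 0 z (n 0 z z)))))))))) (n 777 (n 2 (n 1 z (n 2 (n 0 z (n 0 z (n 0 (n
 4468 z z) (n 0 z (n 0 z (n 0 z z)))))) z)) (n 0 z (n 0 z (n 0 z (n 0 z (n 0 z (n 0 z (n 0 z (n
 0 z (n 0 z z)))))))))) (n 1117 (n 0 z (n 0 z (n 0 z (n 0 z (n 0 z (n 0 z (n 0 z (n 0 z (n 0 z
 (n 0 z (n 0 z (n 0 z z)))))))))))) (n 1117 (n 0 z (n 0 z (n 0 z (n 0 z (n 0 z (n 0 z (n 0 z (n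
 2 z (n 0 z (n 0 z (n 0 z (n 0 z z)))))))))))) z)))))))) (n 0 (n 0 z (n 33 (n 0 z (n 0 z (n 0 z
 (n 0 z (n 0 z (n 0 z (n 0 z (n 0 z (n 0 z (n 0 z (n 0 z (n 0 z (n 0 z z))))))))))))) (n 33 (n 0
 z (n 0 z (n 0 z (n 0 z (n 0 z (n 0 z (n 0 z (n 0 z (n 0 z (n 0 z (n 2 (n 1 z (n 1 z (n 1 z (n 1
 z z)))) (n 0 z (n 0 z z))))))))))))) (n 261 (n 0 z (n 0 z (n 0 z (n 0 z (n 0 z (n 0 z (n 0 z (n
 0 z (n 0 z (n 0 z (n 0 z (n 0 z (n 0 z (n 0 z (n 0 z (n 0 z (n 0 z (n 0 z z))))))))))))))))))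
 (n 261 (n 0 z (n 0 z (n 0 z (n 0 z (n 0 z (n 0 z (n 0 z (n 0 z (n 0 z (n 0 z (n 0 z (n 0 z (n 0
 z (n 0 z (n 2 (n 1 z (n 1 z z)) (n 0 z (n 0 z (n 0 z z)))))))))))))))))) (n 889 (n 0 z (n 0 z
 (n 0 z (n 0 z (n 0 z (n 0 z (n 0 z (n 0 z (n 0 z (n 0 z (n 0 z z))))))))))) (n 889 (n 0 z (n 0
 z (n 0 z (n 0 z (n 0 z (n 0 z (n 0 z (n 2 z (n 0 z (n 0 z (n 0 z z))))))))))) z))))))) (n 0 (n
 7 (n 0 z (n 0 z (n 0 z (n 0 z (n 0 z (n 0 z (n 0 z (n 0 z (n 0 z (n 2 (n 0 z (n 2 (n 0 z (n 0 z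
 (n 0 z (n 0 z (n 0 z (n 0 z z)))))) (n 1 z (n 2 (n 0 z (n 0 z (n 0 z (n 0 z (n 0 z (n 0 z
 z)))))) (n 2 (n 0 z (n 0 z (n 0 z (n 0 z (n 0 z (n 0 z z)))))) z))))) (n 0 z (n 0 z (n 0 z (n 0
 z (n 0 z (n 0 z (n 0 z (n 0 z (n 0 z (n 0 z (n 0 z (n 0 z z)))))))))))))))))))))) (n 7 (n 0 z
 (n 0 z (n 0 z (n 0 z (n 0 z (n 0 z (n 0 z (n 0 z (n 0 z (n 0 z (n 0 z (n 0 z (n 0 z (n 0 z (n 0
 z (n 0 z (n 0 z (n 0 z (n 0 z (n 0 z (n 0 z (n 0 z z)))))))))))))))))))))) (n 243 (n 0 z (n 0 z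
 (n 0 z (n 0 z (n 0 z (n 0 z (n 0 z (n 0 z (n 0 z (n 0 z (n 0 z (n 0 z (n 0 z (n 2 (n 0 z (n 2
 (n 0 z (n 0 z (n 0 z (n 0 z (n 0 z (n 0 z z)))))) (n 2 (n 0 z (n 0 z (n 0 z (n 0 z (n 0 z (n 0
 z z)))))) z))) (n 0 z (n 0 z (n 0 z (n 0 z (n 0 z (n 0 z (n 0 z (n 0 z (n 0 z (n 0 z (n 0 z (n
 0 z (n 0 z z))))))))))))))))))))))))))) (n 243 (n 0 z (n 0 z (n 0 z (n 0 z (n 0 z (n 0 z (n 0 z
 (n 0 z (n 0 z (n 0 z (n 0 z (n 0 z (n 0 z (n 0 z (n 0 z (n 0 z (n 0 z (n 0 z (n 0 z (n 0 z (n 0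
 z (n 0 z (n 0 z (n 0 z (n 0 z (n 0 z (n 0 z z))))))))))))))))))))))))))) (n 1 (n 2 (n 0 z z) (n
 0 z (n 0 z (n 0 z (n 0 z (n 0 z (n 0 z (n 0 z (n 0 z (n 0 z (n 0 z z))))))))))) (n 1 (n 0 z (n
 0 z (n 0 z (n 0 z (n 2 z (n 0 z (n 0 z (n 0 z (n 0 z (n 0 z (n 0 z z))))))))))) z)))))) (n 0 (n
 0 z (n 9 (n 0 z (n 0 z (n 0 z (n 0 z (n 0 z z))))) (n 9 (n 0 z (n 0 z (n 0 z (n 0 z (n 2 (n 1 z
 (n 2 (n 0 z (n 0 z (n 0 z (n 0 z (n 0 z (n 0 z z)))))) z)) z))))) (n 5 (n 0 z (n 0 z (n 0 z (n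
 0 z (n 0 z (n 0 z (n 0 z (n 0 z (n 0 z (n 0 z (n 0 z (n 0 z (n 0 z (n 0 z z)))))))))))))) (n 5
 (n 0 z (n 0 z (n 0 z (n 0 z (n 0 z (n 0 z (n 0 z (n 0 z (n 0 z (n 0 z (n 0 z (n 0 z (n 0 z (n 0
 z z)))))))))))))) z))))) (n 0 (n 99 (n 0 z (n 0 z (n 0 z (n 2 (n 0 z (n 1 z (n 2 (n 0 z (n 0 z
 (n 0 z (n 0 z (n 0 z (n 0 z z)))))) z))) (n 0 z (n 0 z (n 0 z z))))))) (n 99 (n 0 z (n 0 z (n 0
 z (n 0 z (n 0 z (n 0 z (n 0 z z))))))) (n 97 (n 2 (n 0 z z) (n 0 z (n 0 z (n 0 z (n 0 z (n 0 z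
 (n 0 z (n 0 z (n 0 z z))))))))) (n 97 (n 0 z (n 0 z (n 2 z (n 0 z (n 0 z (n 0 z (n 0 z (n 0 z
 (n 0 z z))))))))) z)))) (n 0 (n 0 z (n 1 (n 0 z (n 0 z (n 0 z (n 0 z (n 0 z (n 0 z (n 0 z (n 0
 z (n 0 z (n 0 z (n 0 z (n 0 z (n 0 z (n 0 z (n 0 z (n 0 z z)))))))))))))))) (n 1 (n 0 z (n 0 z
 (n 0 z (n 0 z (n 0 z (n 0 z (n 0 z (n 0 z (n 0 z (n 0 z (n 0 z (n 0 z (n 0 z (n 0 z (n 0 z (n 0
 z z)))))))))))))))) z))) (n 0 (n 145 (n 0 z (n 2 (n 0 z z) (n 0 z (n 0 z (n 0 z (n 0 z (n 0 z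
 (n 0 z (n 0 z z))))))))) (n 145 (n 0 z (n 0 z (n 0 z (n 0 z (n 0 z (n 2 z (n 0 z (n 0 z (n 0 z
 z))))))))) z)) (n 0 (n 0 z z) (n 0 z z)))))))))))) (n 0 (n 1 (n 2 z (n 3548 z (n 3548 z (n 3548
 z (n 4327003 z (n 3548 z z)))))) (n 1 (n 2164299 z (n 2164299 z (n 2164299 z (n 2164299 z (n
 2164299 z (n 2164299 z z)))))) (n 1 (n 4329571 z (n 4331019 z (n 3548 z (n 3548 z (n 3548 z (n
 3548 z z)))))) z))) (n 0 (n 0xd4424cd6824bd6c04ac74c29b93209 (n 0 (n 0 (n 7746827 z (n 7746827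
 z (n 7746827 z (n 7746827 z (n 7746827 z (n 7746827 z z)))))) z) (n 0 (n 481 (n 1 (n 7680531 z
 (n 7680531 z (n 7680531 z (n 7680531 z (n 7680531 z (n 7680531 z z)))))) (n 1 (n 7680531 z (n
 7680531 z (n 7680531 z (n 7680531 z (n 7680531 z (n 7680531 z z)))))) (n 1 (n 4331275 z (n
 7671859 z (n 4331275 z (n 4331275 z (n 4331275 z (n 4331275 z z)))))) (n 1 (n 3548 z (n 7671859
 z (n 3548 z (n 3548 z (n 7734331 z (n 3548 z z)))))) z)))) (n 401 (n 1 (n 7671859 z (n 7671859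
 z (n 7671859 z (n 7671859 z (n 7671859 z (n 7671859 z z)))))) (n 1 (n 2 z (n 3500 z (n 3500 z
 (n 3500 z (n 3500 z (n 7746827 z z)))))) (n 1 (n 7671859 z (n 7671859 z (n 7671859 z (n 7671859
 z (n 7671859 z (n 7671859 z z)))))) (n 1 (n 7734331 z (n 7734331 z (n 7746827 z (n 7734331 z (n
 7734331 z (n 7734331 z z)))))) (n 1 (n 7746827 z (n 3500 z (n 3500 z (n 3500 z (n 10 z (n
 6561907 z z)))))) (n 1 (n 7671859 z (n 7671859 z (n 7671859 z (n 7671859 z (n 7671859 z (n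
 7671859 z z)))))) (n 1 (n 3500 z (n 6555451 z (n 3500 z (n 4327275 z (n
 0x13d74388798898778181747f6f597a969a4caf748053a240ae9b7b77e87f7864a57750908093a749a89c807e897f94a68377758e820049
 z (n 7746827 z z)))))) z))))))) (n 433 (n 1 (n 7680531 z (n 7680531 z (n 7680531 z (n 7680531 z
 (n 7680531 z (n 7680531 z z)))))) (n 0 z (n 0 z (n 0 z (n 0 z (n 1 (n 7746827 z (n 7746827 z (n
 7746827 z (n 7746827 z (n 7746827 z (n 7746827 z z)))))) (n 1 (n 3580 z (n 3580 z (n 3580 z (n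
 3580 z (n 7472731 z (n 18 z z)))))) (n 1 (n 7680531 z (n 7680531 z (n 7680531 z (n 7680531 z (n
 7680531 z (n 7680531 z z)))))) (n 0 z (n 0 z z)))))))))) (n 561 (n 1 (n 7680531 z (n 7680531 z
 (n 7680531 z (n 7680531 z (n 7680531 z (n 7680531 z z)))))) (n 1 (n 7680531 z (n 7680531 z (n
 7680531 z (n 7680531 z (n 7680531 z (n 7680531 z z)))))) (n 1 (n 4331275 z (n 4331275 z (n
 4331275 z (n 7746827 z (n 4331275 z (n 4331275 z z)))))) (n 1 (n 26 z (n 316 z (n 316 z (n 316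
 z (n 7746827 z (n 316 z z)))))) z)))) (n 1 (n 1 (n 7746827 z (n 7746827 z (n 7746827 z (n
 7746827 z (n 7746827 z (n 7746827 z z)))))) (n 1 (n 2164555 z (n 2164555 z (n 2164555 z (n
 2164555 z (n 2164555 z (n 2164555 z z)))))) (n 1 (n 6426739 z (n 3628 z (n 3628 z (n 6428427 z
 (n 7472731 z (n 34 z z)))))) z))) (n 0 (n 1 (n 7734331 z (n 7734331 z (n 7734331 z (n 7734331 z
 (n 7734331 z (n 7734331 z z)))))) (n 0 z (n 1 (n 3628 z (n 3628 z (n 3628 z (n 3628 z (n 3628 z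
 (n 3628 z z)))))) (n 1 (n 7680531 z (n 7680531 z (n 7680531 z (n 7680531 z (n 7680531 z (n
 7680531 z z)))))) (n 0 z (n 1 (n 7680531 z (n 7680531 z (n 7680531 z (n 7680531 z (n 7680531 z
 (n 7680531 z z)))))) (n 0 z z))))))) (n 1 (n 1 (n 7746827 z (n 7746827 z (n 7746827 z (n
 7746827 z (n 7746827 z (n 7746827 z z)))))) (n 1 (n 7734331 z (n 2164555 z (n 2164555 z (n
 2164555 z (n 2164555 z (n 2164555 z z)))))) (n 1 (n 4329587 z (n 4331275 z (n 3548 z (n 7734331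
 z (n 3548 z (n 3548 z z)))))) z))) z))))))) (n 0 (n 0 (n 0 z (n 0 z (n 0 z (n 0 z (n 0 z z)))))
 (n 0 (n 0 z (n 0 z (n 0 z (n 0 z z)))) (n 0 (n 0 z (n 0 z (n 0 z z))) (n 0 (n 0 z (n 0 z z)) (n
 0 (n 0 z z) z))))) (n 0 (n 401 (n 0 (n 0 z (n 0 z (n 0 z (n 0 z (n 0 z z))))) (n 0 (n 0 z (n 0
 z (n 0 (n
 0x5d8a18140e020010ecb6d807f7f807f81808080808082807f808081808180808080808080807f7f807f7f81808080818080807f80808080807f8080801009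
 z z) (n 0 z (n 0 z z))))) (n 0 (n 0 z (n 0 z (n 0 z (n 0 z (n 0 z z))))) (n 0 (n 0 z (n 0 z (n
 0 z (n 0 z (n 0 z z))))) (n 0 (n 0 (n
 0x139872957a81687f9489808b5e776f9283c14949918738cd73b4658f307fa78c7f7ed36b7f5e7fb674547e4e936f7775699a7f998c0049
 z z) (n 0 z (n 0 z (n 0 z (n 0 z z))))) (n 0 (n 0 z (n 0 z (n 0 z (n 0 z (n 0 z z))))) (n 0 (n
 0 z (n 0 (n 8873251 z z) (n 0 z (n 0 z (n 0 z z))))) z))))))) (n 447 (n 0 (n 0 z (n 0 z (n 0 z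
 (n 0 z (n 0 z z))))) (n 0 (n 0 z (n 0 (n
 0x95875818477777f8a8a7f7d747ca6607e5e7ca48e81ac4e8253b68a8f7fa6776a8a6289b1717f3e7e9a7d9d5c607da1ba92646e8a0049
 z (n 8798835 z z)) (n 0 z (n 0 z (n 0 z z))))) (n 0 (n 0 (n
 0x1898439a7881627f998b808e56756a9783d13b3c968826e070c15e931d7fb18e7f7ee8667f567fc471497d42986a757364a27e9f8f0049
 z (n
 0x139843957a81687f948a808b5f776f9283c1484a918638cd73b3658f307fa78b7f7ed46b7f5e7fb774547d4e936f78766a9b7f998c0049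
 z z)) (n 0 z (n 0 (n
 0x1898439a7881627f998b808e56756a9783d13b3c968826e070c15e931d7fb18e7f7ee8667f567fc471497d42986a757364a27e9f8f0049
 z z) (n 0 z (n 0 z z))))) (n 0 (n 0 z (n 0 z (n 0 z (n 0 z (n 0 z z))))) (n 0 (n 0 z (n 0 z (n
 0 z (n 0 z (n 0 z z))))) (n 0 (n 0 z (n 0 z (n 0 z (n 0 z (n 0 z z))))) (n 0 (n 0 z (n 0 (n
 0x1898439a7881627f998b808e56756a9783d13b3c968826e070c15e931d7fb18e7f7ee8667f567fc471497d42986a757364a27e9f8f0049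
 z (n 8798835 z z)) (n 0 z (n 0 (n
 0x1898439a7881627f998b808e56756a9783d13b3c968826e070c15e931d7fb18e7f7ee8667f567fc471497d42986a757364a27e9f8f0049
 z (n
 0x1898439a7881627f998b808e56756a9783d13b3c968826e070c15e931d7fb18e7f7ee8667f567fc471497d42986a757364a27e9f8f0049
 z z)) (n 0 (n
 0x1898439a7881627f998b808e56756a9783d13b3c968826e070c15e931d7fb18e7f7ee8667f567fc471497d42986a757364a27e9f8f0049
 z (n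
 0x139843957a81687f948a808b5e776f9283c0494a918638cc73b4658f317fa78c7f7ed46b805e7fb774547e4e936f78766a9b7f998c0049
 z z)) z))))) (n 0 (n 0 (n
 0x1898649a7881627f998b808e56756a9783d13b3c968826e070c15e931d7fb18e7f7ee8667f567fc471497d42986a757364a27e9f8f0049
 z (n 8783643 z z)) (n 0 z (n 0 z (n 0 z (n 0 (n
 0x139871957a81687f9489808b5f776f9283c14849918638cc73b3658f307fa78b7f7ed36b7f5e7fb774547e4f936f7876699b80998c0049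
 z z) z))))) (n 0 (n 0 (n
 0x10c4ec2a03808081807f8080808080807f80807f80808080808080808080808080808080808080808080808080808080808080808081800809
 z z) (n 0 z (n 0 z (n 0 z (n 0 z z))))) (n 0 (n 0 z (n 0 z (n 0 z (n 0 z (n 0 z z))))) (n 0 (n
 0 z (n 0 (n 8720435 z (n 8720435 z z)) (n 0 (n 8720435 z (n 8720435 z z)) (n 0 z (n 0 z z)))))
 (n 0 (n 0 (n
 0x62874847a897a7f787887888075867b8d59ab997583927587817284958c5e719c72797d797c7c8e7e857a8f7d9683806572a1846e0049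
 z (n
 0x30c4ec2a03808081807f8080808080807f80808080808080808080808080808080808080808080808080808080808080808080808180800809
 z z)) (n 0 z (n 0 z (n 0 z (n 0 (n
 0x139871957981687f948a808c5e776f9283c14949918639cc73b4658f317fa78b7f7ed36b805e7fb674547e4e936f77766a9a7f998c0049
 z z) z))))) (n 0 (n 0 z (n 0 z (n 0 z (n 0 z (n 0 z z))))) (n 0 (n 0 (n
 0x62874847a897a7f787887888075867b8d59ab997583927587817284958c5e719c72797d797c7c8e7e857a8f7d9683806572a1846e0049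
 z (n
 0x30c4ec2a0380808180808080808080807f80807f80808080808080808080808080808080808080808080808080808080808080808080800809
 z z)) (n 0 z (n 0 z (n 0 (n
 0x1898719a7881627f998b808e56756a9783d13b3c968826e070c15e931d7fb18e7f7ee8667f567fc471497d42986a757364a27e9f8f0049
 z z) (n 0 z z))))) (n 0 (n 0 z (n 0 z (n 0 z (n 0 z (n 0 z z))))) (n 0 (n 0 z (n 0 z (n 0 (n
 8720435 z z) (n 0 z (n 0 z z))))) (n 0 (n 0 (n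
 0xbb1c39281c021d61d5006020010ecb6d8081807f8080808081807f807f8081808080808080808080808080808080807f808080808080808080807f808080808080801809
 z z) (n 0 z (n 0 z (n 0 z (n 0 z z))))) (n 0 (n 0 z (n 0 z (n 0 z (n 0 z (n 0 z z))))) (n 0 (n
 0 z (n 0 z (n 0 (n 8720435 z z) (n 0 z (n 0 z z))))) (n 0 (n 0 (n
 0x61da1d140601084ec2a038080808080808080808080808080808080808080808080808080808081807f808080808080808080808080808080808180801009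
 z (n 8783643 z z)) (n 0 z (n 0 z (n 0 z (n 0 (n
 0x1898719a7881627f998b808e56756a9783d13b3c968826e070c15e931d7fb18e7f7ee8667f567fc471497d42986a757364a27e9f8f0049
 z z) z))))) (n 0 (n 0 z (n 0 (n 8729107 z z) (n 0 z (n 0 z (n 0 z z))))) (n 0 (n 0 (n 8729107 z
 (n 8729107 z z)) (n 0 z (n 0 z (n 0 z (n 0 (n 8729107 z z) z))))) (n 0 (n 0 z (n 0 z (n 0 z (n
 0 z (n 0 z z))))) (n 0 (n 0 z (n 0 z (n 0 (n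
 0xed864818772717e8f8f7f7b6d79bc4d7e4b7bba9581c633833ad48f987ebc735d90528ecd677f187da97cab47507bb4da9d53648f0049
 z (n
 0xed864818772717e8f8f7f7b6d79bc4d7e4b7bba9581c633833ad48f987ebc735d90528ecd677f187da97cab47507bb4da9d53648f0049
 z z)) (n 0 z (n 0 z z))))) (n 0 (n 0 z (n 0 z (n 0 z (n 0 z (n 0 z z))))) (n 0 (n 0 z (n 0 z (n
 0 (n
 0x13d84388798898778181747f6f597a969a4caf748053a240ae9b7b77e87f7864a57750908093a749a89c807e897f94a68377758e820049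
 z (n
 0x13d84388798898778181747f6f597a969a4caf748053a240ae9b7b77e87f7864a57750908093a749a89c807e897f94a68377758e820049
 z z)) (n 0 z (n 0 z z))))) (n 0 (n 0 (n
 0x95864818477777f8a897f7d747ca7607e5e7ca58d80ad4f8254b689907fa6776a8a6189b1707f3e7e9a7d9c5b617da2b993646e8a0049
 z (n
 0x62874847a897a7f787887888075867b8d59ab997583927587817284958c5e719c72797d797c7c8e7e857a8f7d9683806572a1846e0049
 z z)) (n 0 z (n 0 (n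
 0x95864818477767f8a89807d747ba75f7f5e7ca58e80ad4e8253b6898f7fa678698a6289b270803d7e9a7e9c5b617da1b993646e890049
 z z) (n 0 z (n 0 z z))))) (n 0 (n 0 z (n 0 z (n 0 z (n 0 z (n 0 z z))))) (n 0 (n 0 z (n 0 z (n
 0 (n
 0x13d84388798898778181747f6f597a969a4caf748053a240ae9b7b77e87f7864a57750908093a749a89c807e897f94a68377758e820049
 z (n
 0x13d84388798898778181747f6f597a969a4caf748053a240ae9b7b77e87f7864a57750908093a749a89c807e897f94a68377758e820049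
 z z)) (n 0 z (n 0 z z))))) (n 0 (n 0 (n
 0xed864818772717e8f8f7f7b6d79bc4d7e4b7bba9581c633833ad48f987ebc735d90528ecd677f187da97cab47507bb4da9d53648f0049
 z (n 8783643 z z)) (n 0 z (n 0 z (n 0 z (n 0 z z))))) (n 0 (n 0 (n 6637691 z z) (n 0 z (n 0 z
 (n 0 z (n 0 z z))))) (n 0 (n 0 z (n 0 z (n 0 z (n 0 z (n 0 z z))))) (n 0 (n 0 (n
 0xed863818772717e8f8f7f7b6d79bc4d7e4b7bba9581c633833ad48f987ebc735d90528ecd677f187da97cab47507bb4da9d53648f0049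
 z (n 8783643 z z)) (n 0 z (n 0 z (n 0 z (n 0 z z))))) z))))))))))))))))))))))))))))))))) (n 445
 (n 0 (n 0 z (n 0 z (n 0 (n
 0x1898639a7881627f998b808e56756a9783d13b3c968826e070c15e931d7fb18e7f7ee8667f567fc471497d42986a757364a27e9f8f0049
 z (n
 0x1898639a7881627f998b808e56756a9783d13b3c968826e070c15e931d7fb18e7f7ee8667f567fc471497d42986a757364a27e9f8f0049
 z z)) (n 0 z (n 0 z z))))) (n 0 (n 0 z (n 0 z (n 0 z (n 0 z (n 0 z z))))) (n 0 (n 0 z (n 0 z (n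
 0 (n 8720435 z z) (n 0 z (n 0 z z))))) (n 0 (n 0 z (n 0 z (n 0 z (n 0 z (n 0 z z))))) (n 0 (n 0
 z (n 0 z (n 0 (n
 0x1898639a7881627f998b808e56756a9783d13b3c968826e070c15e931d7fb18e7f7ee8667f567fc471497d42986a757364a27e9f8f0049
 z (n
 0x1898639a7881627f998b808e56756a9783d13b3c968826e070c15e931d7fb18e7f7ee8667f567fc471497d42986a757364a27e9f8f0049
 z z)) (n 0 (n
 0x139863957a81687f948a808b5e776f9282c1484a918638cd73b4658f317fa78b7f7ed36b7f5e7fb674547e4f936f77766b9b7f998c0049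
 z (n
 0x139870957a81687f9489808b5e776f9283c14949928638cc73b4658f307fa78c7f7ed36b805e7fb674557d4e936e7775699b7f998c0049
 z z)) (n 0 (n
 0x1898639a7881627f998b808e56756a9783d13b3c968826e070c15e931d7fb18e7f7ee8667f567fc471497d42986a757364a27e9f8f0049
 z (n
 0x1898639a7881627f998b808e56756a9783d13b3c968826e070c15e931d7fb18e7f7ee8667f567fc471497d42986a757364a27e9f8f0049
 z z)) z))))) (n 0 (n 0 z (n 0 z (n 0 (n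
 0x1898639a7881627f998b808e56756a9783d13b3c968826e070c15e931d7fb18e7f7ee8667f567fc471497d42986a757364a27e9f8f0049
 z (n
 0x139863957a81687f9489808b5f776f9283c14849918738cc73b3658f307fa78b7f7ed46b7f5e7fb774547e4e936f7876699b7f998c0049
 z z)) (n 0 (n
 0x141863957981687f9489808b5f776f9283c14849918739cb73b4658f317fa78b7f7ed46b7f5e7fb774547e4f936f77756a9b80998c0049
 z (n
 0x62870847a897a7f787887888075867b8d59ab997583927587817284958c5e719c72797d797c7c8e7e857a8f7d9683806572a1846e0049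
 z z)) (n 0 (n
 0x1898639a7881627f998b808e56756a9783d13b3c968826e070c15e931d7fb18e7f7ee8667f567fc471497d42986a757364a27e9f8f0049
 z (n
 0x139863957a81687f9489808b5e776f9282c1484a918638cc73b3658e317fa78b7f7ed36b7f5e7fb774547e4e936f78756a9b7f998d0049
 z z)) z))))) (n 0 (n 0 z (n 0 (n 8720435 z (n 8720435 z z)) (n 0 (n 8720435 z (n 8720435 z z))
 (n 0 z (n 0 z z))))) (n 0 (n 0 (n
 0x1898639a7881627f998b808e56756a9783d13b3c968826e070c15e931d7fb18e7f7ee8667f567fc471497d42986a757364a27e9f8f0049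
 z (n
 0x1898639a7881627f998b808e56756a9783d13b3c968826e070c15e931d7fb18e7f7ee8667f567fc471497d42986a757364a27e9f8f0049
 z z)) (n 0 z (n 0 z (n 0 (n
 0x1898639a7881627f998b808e56756a9783d13b3c968826e070c15e931d7fb18e7f7ee8667f567fc471497d42986a757364a27e9f8f0049
 z z) (n 0 (n
 0x1898639a7881627f998b808e56756a9783d13b3c968826e070c15e931d7fb18e7f7ee8667f567fc471497d42986a757364a27e9f8f0049
 z z) z))))) (n 0 (n 0 z (n 0 z (n 0 (n 8720435 z z) (n 0 z (n 0 z z))))) (n 0 (n 0 (n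
 0xed864818772717e8f8f7f7b6d79bc4d7e4b7bba9581c633833ad48f987ebc735d90528ecd677f187da97cab47507bb4da9d53648f0049
 z (n 8660747 z z)) (n 0 z (n 0 (n
 0xed864818772717e8f8f7f7b6d79bc4d7e4b7bba9581c633833ad48f987ebc735d90528ecd677f187da97cab47507bb4da9d53648f0049
 z z) (n 0 z (n 0 z z))))) (n 0 (n 0 (n 8855811 z z) (n 0 z (n 0 z (n 0 z (n 0 z z))))) (n 0 (n
 0 (n 0x10e90c0a070821 z (n 8660747 z z)) (n 0 z (n 0 z (n 0 z (n 0 (n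
 0x1898709a7881627f998b808e56756a9783d13b3c968826e070c15e931d7fb18e7f7ee8667f567fc471497d42986a757364a27e9f8f0049
 z z) z))))) (n 0 (n 0 z (n 0 z (n 0 z (n 0 z (n 0 z z))))) (n 0 (n 0 z (n 0 z (n 0 (n 8855811 z
 z) (n 0 z (n 0 z z))))) (n 0 (n 0 z (n 0 z (n 0 z (n 0 z (n 0 z z))))) (n 0 (n 0 z (n 0 z (n 0
 z (n 0 z (n 0 z z))))) (n 0 (n 0 z (n 0 z (n 0 (n
 0xed864818772717e8f8f7f7b6d79bc4d7e4b7bba9581c633833ad48f987ebc735d90528ecd677f187da97cab47507bb4da9d53648f0049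
 z z) (n 0 z (n 0 z z))))) (n 0 (n 0 z (n 0 z (n 0 z (n 0 z (n 0 z z))))) (n 0 (n 0 z (n 0 z (n
 0 (n
 0xc5843818574737f8c8c7f7c727ab0587f567bae9180b8428249c38b927fb075648d5b8bbe6c802d7da07da353597da9c9975c6a8c0049
 z (n
 0xed843818772717e8f8f7f7b6d79bc4d7e4b7bba9581c633833ad48f987ebc735d90528ecd677f187da97cab47507bb4da9d53648f0049
 z z)) (n 0 z (n 0 z z))))) (n 0 (n 0 (n
 0x75843818479797f88877f7d777c9f667f657c9d8b80a358815dab888e7f9f796e886887a774804a7f957e9563677d9bae8f6971880049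
 z (n
 0x29874817e817f80827f80827e80808080807f8080807f80808180807f808280817e7f80817f7f8180808081807d818181808082810049
 z z)) (n 0 z (n 0 (n
 0x95843818577767f8a8a7f7d747ba7607f5e7ba58d80ac4f8154b68a8f7fa678698a6389b170803e7e9a7d9b5c617da1ba93636e8a0049
 z z) (n 0 z (n 0 z z))))) (n 0 (n 0 z (n 0 z (n 0 z (n 0 z (n 0 z z))))) (n 0 (n 0 z (n 0 z (n
 0 z (n 0 z (n 0 z z))))) (n 0 (n 0 (n
 0x10ed060a0781807f80808080808080808080808081808080808080808081807f808080808080807f8080808180808081808181807f807f0809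
 z (n
 0x21da1d9406010ed0e0a077f7f807f7d80818181808080808080808181807f7f807f808080807f7f8080808181808081807f807f81808080807f8081801009
 z z)) (n 0 z (n 0 z (n 0 z (n 0 (n
 0x6189d81406010eb0ca007808081808080807f8180807f7f807f80808080808080808080808180808080808080808080808080808080808080808080811009
 z z) z))))) z))))))))))))))))))))))) (n 561 (n 0 (n 0 z (n 0 z (n 0 z (n 0 z (n 0 z z))))) (n 0
 (n 0 z (n 0 z (n 0 z (n 0 z (n 0 z z))))) (n 0 (n 0 z (n 0 z (n 0 z (n 0 z (n 0 z z))))) (n 0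
 (n 0 z (n 0 z (n 0 z (n 0 z (n 0 z z))))) z)))) (n 39 (n 0 (n 0 z (n 0 z (n 0 z (n 0 z (n 0 z
 z))))) (n 0 (n 0 (n
 0x1898729a7881627f998b808e56756a9783d13b3c968826e070c15e931d7fb18e7f7ee8667f567fc471497d42986a757364a27e9f8f0049
 z z) (n 0 z (n 0 z (n 0 z (n 0 z z))))) (n 0 (n 0 z (n 0 z (n 0 z (n 0 z (n 0 z z))))) (n 0 (n
 0 z (n 0 z (n 0 z (n 0 z (n 0 z z))))) (n 0 (n 0 z (n 0 z (n 0 z (n 0 z (n 0 z z))))) (n 0 (n 0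
 z (n 0 z (n 0 z (n 0 z (n 0 z z))))) (n 0 (n 0 z (n 0 z (n 0 z (n 0 z (n 0 z z))))) z))))))) (n
 17 (n 0 (n 0 z (n 0 z (n 0 z (n 0 z (n 0 z z))))) (n 0 (n 0 z (n 0 z (n 0 z (n 0 z (n 0 z
 z))))) (n 0 (n 0 z (n 0 z (n 0 z (n 0 z (n 0 z z))))) (n 0 (n 0 z (n 0 z (n 0 z (n 0 z (n 0 z
 z))))) (n 0 (n 0 (n
 0x13d86488798898778181747f6f597a969a4caf748053a240ae9b7b77e87f7864a57750908093a749a89c807e897f94a68377758e820049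
 z (n 8660747 z z)) (n 0 z (n 0 z (n 0 z (n 0 z z))))) (n 0 (n 0 z (n 0 z (n 0 (n
 0x30e8ec0a07818180808080807f8081818080808080808080808080808080808080808080808080808080808080808080808080808080800809
 z (n
 0x1898719a7881627f998b808e56756a9783d13b3c968826e070c15e931d7fb18e7f7ee8667f567fc471497d42986a757364a27e9f8f0049
 z z)) (n 0 z (n 0 z z))))) (n 0 (n 0 z (n 0 z (n 0 z (n 0 z (n 0 z z))))) (n 0 (n 0 z (n 0 z (n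
 0 (n 8855811 z z) (n 0 z (n 0 z z))))) (n 0 (n 0 z (n 0 z (n 0 z (n 0 z (n 0 z z))))) (n 0 (n 0
 z (n 0 z (n 0 z (n 0 z (n 0 z z))))) (n 0 (n 0 z (n 0 z (n 0 z (n 0 z (n 0 z z))))) (n 0 (n 0 z
 (n 0 z (n 0 z (n 0 z (n 0 z z))))) (n 0 (n 0 (n 8521307 z (n 8521307 z z)) (n 0 z (n 0 z (n 0
 (n 8521307 z z) (n 0 z z))))) z))))))))))))) (n 453 (n 0 (n 0 z (n 0 z (n 0 z (n 0 z (n 0 z
 z))))) (n 0 (n 0 z (n 0 z (n 0 z (n 0 z (n 0 z z))))) (n 0 (n 0 z (n 0 z (n 0 z (n 0 z (n 0 z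
 z))))) (n 0 (n 0 z (n 0 z (n 0 z (n 0 z (n 0 z z))))) z)))) (n 437 (n 0 (n 0 z (n 0 z (n 0 z (n
 0 z (n 0 z z))))) (n 0 (n 0 z (n 0 z (n 0 z (n 0 z (n 0 z z))))) (n 0 (n 0 z (n 0 z (n 0 z (n 0
 z (n 0 z z))))) (n 0 (n 0 z (n 0 z (n 0 z (n 0 z (n 0 z z))))) (n 0 (n 0 z (n 0 z (n 0 z (n 0 z
 (n 0 z z))))) (n 0 (n 0 z (n 0 z (n 0 z (n 0 z (n 0 z z))))) (n 0 (n 0 z (n 0 z (n 0 z (n 0 z
 (n 0 z z))))) (n 0 (n 0 z (n 0 z (n 0 z (n 0 z (n 0 z z))))) (n 0 (n 0 z (n 0 z (n 0 z (n 0 z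
 (n 0 z z))))) (n 0 (n 0 (n 8660747 z (n 8718123 z z)) (n 0 z (n 0 z (n 0 z (n 0 z z)))))
 z)))))))))) (n 131 (n 0 (n 0 z (n 0 z (n 0 z (n 0 z (n 0 z z))))) (n 0 (n 0 (n
 0x13d86388798898778181747f6f597a969a4caf748053a240ae9b7b77e87f7864a57750908093a749a89c807e897f94a68377758e820049
 z (n 8660747 z z)) (n 0 z (n 0 z (n 0 z (n 0 z z))))) (n 0 (n 0 (n
 0x30c4ec0a03817f817f7f7f807f8180807f8080807f808080808080808080808081808080808180808080808080808080808080808080800809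
 z (n 8783643 z z)) (n 0 z (n 0 z (n 0 (n
 0x1898709a7881627f998b808e56756a9783d13b3c968826e070c15e931d7fb18e7f7ee8667f567fc471497d42986a757364a27e9f8f0049
 z z) (n 0 (n
 0x1898709a7881627f998b808e56756a9783d13b3c968826e070c15e931d7fb18e7f7ee8667f567fc471497d42986a757364a27e9f8f0049
 z z) z))))) (n 0 (n 0 z (n 0 z (n 0 (n 8855811 z z) (n 0 z (n 0 z z))))) (n 0 (n 0 z (n 0 z (n
 0 (n 8855811 z (n 8855811 z z)) (n 0 z (n 0 z z))))) (n 0 (n 0 (n 8855811 z (n 8855811 z z)) (n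
 0 z (n 0 (n 8855811 z z) (n 0 z (n 0 z z))))) (n 0 (n 0 (n
 0x30c4ec0a03817f817f7f7f807f8180807f8080807f808080808080808080808081808080808180808080808080808080808080808080800809
 z (n 8660747 z z)) (n 0 z (n 0 (n
 0x1898709a7881627f998b808e56756a9783d13b3c968826e070c15e931d7fb18e7f7ee8667f567fc471497d42986a757364a27e9f8f0049
 z z) (n 0 z (n 0 z z))))) (n 0 (n 0 (n
 0x10ed0eca0380807f80808080808080808080808080808080808080808080807e8080807f808080808080808080808080808080808080810809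
 z z) (n 0 z (n 0 z (n 0 z (n 0 z z))))) (n 0 (n 0 z (n 0 (n
 0x139863957a81677f948a818b5e776f9283c24849928638cd73b4658f317fa78b7f7ed36c7f5e7fb774547e4e936f7876699b81998b0049
 z (n 8798835 z z)) (n 0 z (n 0 z (n 0 z z))))) (n 0 (n 0 z (n 0 z (n 0 z (n 0 z (n 0 z z)))))
 (n 0 (n 0 z (n 0 z (n 0 z (n 0 z (n 0 z z))))) (n 0 (n 0 z (n 0 z (n 0 z (n 0 z (n 0 z z)))))
 (n 0 (n 0 z (n 0 z (n 0 z (n 0 z (n 0 z z))))) (n 0 (n 0 z (n 0 z (n 0 (n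
 0x13d87188798898778181747f6f597a969a4caf748053a240ae9b7b77e87f7864a57750908093a749a89c807e897f94a68377758e820049
 z z) (n 0 z (n 0 z z))))) (n 0 (n 0 z (n 0 z (n 0 z (n 0 z (n 0 z z))))) (n 0 (n 0 (n 8729107 z
 (n 8729107 z z)) (n 0 z (n 0 z (n 0 z (n 0 (n 8729107 z z) z))))) (n 0 (n 0 z (n 0 z (n 0 z (n
 0 z (n 0 z z))))) (n 0 (n 0 (n 8855811 z (n 8855811 z z)) (n 0 z (n 0 z (n 0 z (n 0 z z)))))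
 z)))))))))))))))))) (n 5 (n 0 (n 0 z (n 0 z (n 0 z (n 0 z (n 0 z z))))) (n 0 (n 0 z (n 0 z (n 0
 z (n 0 z (n 0 z z))))) (n 0 (n 0 z (n 0 (n
 0x13d82088798898778181747f6f597a969a4caf748053a240ae9b7b77e87f7864a57750908093a749a89c807e897f94a68377758e820049
 z (n 8798835 z z)) (n 0 z (n 0 z (n 0 z z))))) (n 0 (n 0 z (n 0 z (n 0 z (n 0 z (n 0 z z)))))
 (n 0 (n 0 z (n 0 z (n 0 z (n 0 z (n 0 z z))))) z))))) (n 453 (n 0 (n 0 z (n 0 z (n 0 z (n 0 z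
 (n 0 z z))))) (n 0 (n 0 (n 8718123 z (n
 0x1898729a7881627f998b808e56756a9783d13b3c968826e070c15e931d7fb18e7f7ee8667f567fc471497d42986a757364a27e9f8f0049
 z z)) (n 0 z (n 0 z (n 0 z (n 0 z z))))) (n 0 (n 0 z (n 0 z (n 0 z (n 0 z (n 0 z z))))) (n 0 (n
 0 z (n 0 z (n 0 z (n 0 z (n 0 z z))))) (n 0 (n 0 z (n 0 z (n 0 z (n 0 z (n 0 z z))))) (n 0 (n 0
 z (n 0 z (n 0 z (n 0 z (n 0 z z))))) (n 0 (n 0 (n 8729107 z z) (n 0 z (n 0 z (n 0 z (n 0 z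
 z))))) (n 0 (n 0 (n
 0x15872817f807f8182807f837e80807f7f80818081817d7f817f81808084837f837d8182807f8081807f817e7c7f817f82808080800049
 z (n
 0x62872847a897a7f787887888075867b8d59ab997583927587817284958c5e719c72797d797c7c8e7e857a8f7d9683806572a1846e0049
 z z)) (n 0 z (n 0 z (n 0 z (n 0 z z))))) z)))))))) (n 571 (n 0 (n 0 z (n 0 z (n 0 z (n 0 z (n 0
 z z))))) (n 0 (n 0 z (n 0 z (n 0 z (n 0 z (n 0 z z))))) (n 0 (n 0 z (n 0 z (n 0 z (n 0 z (n 0 z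
 z))))) (n 0 (n 0 z (n 0 z (n 0 z (n 0 z (n 0 z z))))) (n 0 (n 0 z (n 0 z (n 0 z (n 0 z (n 0 z
 z))))) (n 0 (n 0 z (n 0 z (n 0 z (n 0 z (n 0 z z))))) (n 0 (n 0 z (n 0 z (n 0 z (n 0 z (n 0 z
 z))))) (n 0 (n 0 z (n 0 z (n 0 z (n 0 z (n 0 z z))))) (n 0 (n 0 (n 8720435 z z) (n 0 z (n 0 z
 (n 0 z (n 0 z z))))) (n 0 (n 0 z (n 0 z (n 0 z (n 0 z (n 0 z z))))) (n 0 (n 0 z (n 0 z (n 0 z
 (n 0 z (n 0 z z))))) (n 0 (n 0 z (n 0 z (n 0 z (n 0 z (n 0 z z))))) z)))))))))))) (n 450 (n 0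
 (n 0 z (n 0 z (n 0 z (n 0 z (n 0 z z))))) (n 0 (n 0 z (n 0 z (n 0 z (n 0 z (n 0 z z))))) (n 0
 (n 0 z (n 0 z (n 0 z (n 0 z (n 0 z z))))) (n 0 (n 0 z (n 0 z (n 0 z (n 0 z (n 0 z z))))) (n 0
 (n 0 z (n 0 z (n 0 z (n 0 z (n 0 z z))))) (n 0 (n 0 z (n 0 z (n 0 z (n 0 z (n 0 z z))))) (n 0
 (n 0 z (n 0 z (n 0 z (n 0 z (n 0 z z))))) (n 0 (n 0 (n
 0x170ed0ec0036f8d9581668478a55d738a6b767774abaa8487549599996389c370785daf66a66d6a70777177a07959b282a6a45373b87b6a0809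
 z z) (n 0 z (n 0 z (n 0 z (n 0 z z))))) (n 0 (n 0 z (n 0 z (n 0 z (n 0 z (n 0 z z))))) (n 0 (n
 0 (n
 0x1d0ed0ec0037f682f8017dd7fe8008107e880c7a58117af8257ee8288207eb81583175e8688198597e78078197ff7fe7e68087fe85d7ec7b88147ff8307f87de7f07b383c81d8218347b78137ef82c80d0811
 z (n 8783643 z z)) (n 0 z (n 0 z (n 0 z (n 0 (n
 0x1898719a7881627f998b808e56756a9783d13b3c968826e070c15e931d7fb18e7f7ee8667f567fc471497d42986a757364a27e9f8f0049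
 z z) z))))) (n 0 (n 0 z (n 0 z (n 0 z (n 0 z (n 0 z z))))) z))))))))))) (n 3 (n 0 (n 0 z (n 0 z
 (n 0 z (n 0 z (n 0 z z))))) (n 0 (n 0 z (n 0 z (n 0 (n
 0x1898209a7881627f998b808e56756a9783d13b3c968826e070c15e931d7fb18e7f7ee8667f567fc471497d42986a757364a27e9f8f0049
 z z) (n 0 z (n 0 z z))))) (n 0 (n 0 z (n 0 z (n 0 z (n 0 z (n 0 z z))))) (n 0 (n 0 z (n 0 z (n
 0 z (n 0 z (n 0 z z))))) (n 0 (n 0 z (n 0 z (n 0 z (n 0 z (n 0 z z))))) (n 0 (n 0 z (n 0 z (n 0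
 z (n 0 z (n 0 z z))))) (n 0 (n 0 z (n 0 z (n 0 (n
 0x13d87188798898778181747f6f597a969a4caf748053a240ae9b7b77e87f7864a57750908093a749a89c807e897f94a68377758e820049
 z (n
 0x15871817f807f8182807f837e80807f7f80818081817d7f817f81808084837f837d8182807f8081807f817e7c7f817f82808080800049
 z z)) (n 0 z (n 0 z z))))) (n 0 (n 0 z (n 0 z (n 0 z (n 0 z (n 0 z z))))) (n 0 (n 0 (n 8729107
 z z) (n 0 z (n 0 z (n 0 z (n 0 z z))))) (n 0 (n 0 z (n 0 z (n 0 z (n 0 z (n 0 z z))))) (n 0 (n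
 0 z (n 0 z (n 0 z (n 0 z (n 0 z z))))) (n 0 (n 0 z (n 0 z (n 0 z (n 0 z (n 0 z z))))) (n 0 (n 0
 (n
 0x4587087847b77887d827686707b8f70816b85957f8393668869a2848d7e8b7e758377818a757d657d8a7c8b777c8492978f6b7b8c0049
 z (n 7477323 z z)) (n 0 z (n 0 z (n 0 (n
 0x30c508420380807f808081808081807f817f808080808081808080808080807f7f80817f7f81808080808080807f7f80808080808080800809
 z z) (n 0 z z))))) (n 0 (n 0 (n 8729107 z z) (n 0 z (n 0 z (n 0 z (n 0 z z))))) z))))))))))))))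
 (n 1 (n 0 (n 0 z (n 0 (n 2164811 z z) (n 0 z (n 0 z (n 0 z z))))) (n 0 (n 0 z (n 0 z (n 0 z (n
 0 z (n 0 z z))))) (n 0 (n 0 z (n 0 z (n 0 z (n 0 z (n 0 z z))))) (n 0 (n 0 z (n 0 (n 8720435 z
 (n 8720435 z z)) (n 0 z (n 0 z (n 0 z z))))) (n 0 (n 0 z (n 0 z (n 0 z (n 0 z (n 0 z z))))) (n
 0 (n 0 z (n 0 z (n 0 z (n 0 z (n 0 z z))))) (n 0 (n 0 z (n 0 z (n 0 z (n 0 z (n 0 z z))))) (n 0
 (n 0 (n 8720435 z (n 8720435 z z)) (n 0 z (n 0 z (n 0 (n 8720435 z z) (n 0 (n 8720435 z z)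
 z))))) (n 0 (n 0 (n
 0x1898109a7881627f998b808e56756a9783d13b3c968826e070c15e931d7fb18e7f7ee8667f567fc471497d42986a757364a27e9f8f0049
 z (n
 0x1898109a7881627f998b808e56756a9783d13b3c968826e070c15e931d7fb18e7f7ee8667f567fc471497d42986a757364a27e9f8f0049
 z z)) (n 0 z (n 0 z (n 0 (n 8525579 z z) (n 0 (n 8525579 z z) z))))) (n 0 (n 0 z (n 0 z (n 0 z
 (n 0 (n
 0x62871847a897a7f787887888075867b8d59ab997583927587817284958c5e719c72797d797c7c8e7e857a8f7d9683806572a1846e0049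
 z (n
 0x1898109a7881627f998b808e56756a9783d13b3c968826e070c15e931d7fb18e7f7ee8667f567fc471497d42986a757364a27e9f8f0049
 z z)) (n 0 (n
 0x62871847a897a7f787887888075867b8d59ab997583927587817284958c5e719c72797d797c7c8e7e857a8f7d9683806572a1846e0049
 z (n
 0x1898109a7881627f998b808e56756a9783d13b3c968826e070c15e931d7fb18e7f7ee8667f567fc471497d42986a757364a27e9f8f0049
 z z)) z))))) (n 0 (n 0 (n
 0xed872818772717e8f8f7f7b6d79bc4d7e4b7bba9581c633833ad48f987ebc735d90528ecd677f187da97cab47507bb4da9d53648f0049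
 z (n
 0x139810957a81687f9489808b5e776f9283c1484a918638cc73b4658f307fa78c7f7ed46b7f5f7fb774547e4e93707875699a7f9a8b0049
 z z)) (n 0 z (n 0 z (n 0 z (n 0 (n 8525579 z z) z))))) (n 0 (n 0 (n 8718123 z (n
 0x62870847a897a7f787887888075867b8d59ab997583927587817284958c5e719c72797d797c7c8e7e857a8f7d9683806572a1846e0049
 z z)) (n 0 z (n 0 z (n 0 z (n 0 z z))))) (n 0 (n 0 z (n 0 z (n 0 z (n 0 z (n 0 z z))))) (n 0 (n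
 0 z (n 0 z (n 0 z (n 0 z (n 0 z z))))) (n 0 (n 0 (n
 0x13d81088798898778181747f6f597a969a4caf748053a240ae9b7b77e87f7864a57750908093a749a89c807e897f94a68377758e820049
 z (n
 0x1898709a7881627f998b808e56756a9783d13b3c968826e070c15e931d7fb18e7f7ee8667f567fc471497d42986a757364a27e9f8f0049
 z z)) (n 0 z (n 0 (n 6494331 z z) (n 0 z (n 0 z z))))) (n 0 (n 0 z (n 0 z (n 0 z (n 0 z (n 0 z
 z))))) z)))))))))))))))) (n 443 (n 0 (n 0 z (n 0 z (n 0 z (n 0 z (n 0 z z))))) (n 0 (n 0 z (n 0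
 z (n 0 z (n 0 z (n 0 z z))))) (n 0 (n 0 z (n 0 z (n 0 (n
 0x1898419a7881627f998b808e56756a9783d13b3c968826e070c15e931d7fb18e7f7ee8667f567fc471497d42986a757364a27e9f8f0049
 z (n
 0x4587187847b77887d827686707b8f70816b85957f8393668869a2848d7e8b7e758377818a757d657d8a7c8b777c8492978f6b7b8c0049
 z z)) (n 0 z (n 0 z z))))) (n 0 (n 0 (n 8718123 z (n
 0x1898419a7881627f998b808e56756a9783d13b3c968826e070c15e931d7fb18e7f7ee8667f567fc471497d42986a757364a27e9f8f0049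
 z z)) (n 0 z (n 0 z (n 0 z (n 0 z z))))) (n 0 (n 0 z (n 0 z (n 0 z (n 0 z (n 0 z z))))) (n 0 (n
 0 z (n 0 (n 8873251 z (n 8873251 z z)) (n 0 z (n 0 z (n 0 z z))))) (n 0 (n 0 z (n 0 z (n 0 z (n
 0 z (n 0 z z))))) (n 0 (n 0 z (n 0 z (n 0 z (n 0 z (n 0 z z))))) z)))))))) (n 437 (n 0 (n 0 z
 (n 0 (n
 0x139872957a81687f9489808b5f776f9283c14949928738cc73b4658f317fa78b7f7ed26b7f5f7fb774547d4e936f7876699b7f998c0049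
 z z) (n 0 z (n 0 z (n 0 z z))))) (n 0 (n 0 z (n 0 z (n 0 z (n 0 z (n 0 z z))))) (n 0 (n 0 z (n
 0 (n
 0x4587087847b77887d827686707b8f70816b85957f8393668869a2848d7e8b7e758377818a757d657d8a7c8b777c8492978f6b7b8c0049
 z (n
 0xa1d9d50806030e8e86407818f88727c7c678e6f62898266725aa2d35896706b97739e93a88566679b757b84767c5c6e5c9e81887f93a1a9679a986d851009
 z z)) (n 0 (n 8855811 z (n 8855811 z z)) (n 0 z (n 0 z z))))) (n 0 (n 0 (n 8855811 z (n 8855811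
 z z)) (n 0 z (n 0 (n 8855811 z (n 8855811 z z)) (n 0 z (n 0 z z))))) (n 0 (n 0 z (n 0 z (n 0 z
 (n 0 z (n 0 z z))))) (n 0 (n 0 (n 8718123 z (n
 0x30a50a080380807f7f80818081817f7f81807f8081808081807f8080808080807e80817f7f8180808080808080808180808080808080800809
 z z)) (n 0 z (n 0 z (n 0 (n 8525579 z (n
 0x1898709a7881627f998b808e56756a9783d13b3c968826e070c15e931d7fb18e7f7ee8667f567fc471497d42986a757364a27e9f8f0049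
 z z)) (n 0 (n 8525579 z (n
 0x1898709a7881627f998b808e56756a9783d13b3c968826e070c15e931d7fb18e7f7ee8667f567fc471497d42986a757364a27e9f8f0049
 z z)) z))))) (n 0 (n 0 z (n 0 z (n 0 z (n 0 z (n 0 z z))))) (n 0 (n 0 z (n 0 z (n 0 z (n 0 z (n
 0 z z))))) (n 0 (n 0 z (n 0 z (n 0 z (n 0 z (n 0 z z))))) (n 0 (n 0 z (n 0 z (n 0 z (n 0 z (n 0
 z z))))) (n 0 (n 0 (n 8660747 z (n 8718123 z z)) (n 0 z (n 0 z (n 0 z (n 0 z z)))))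
 z))))))))))) (n 433 (n 0 (n 0 z (n 0 z (n 0 z (n 0 z (n 0 z z))))) (n 0 (n 0 z (n 0 z (n 0 z (n
 0 z (n 0 z z))))) (n 0 (n 0 z (n 0 z (n 0 z (n 0 z (n 0 z z))))) (n 0 (n 0 z (n 0 z (n 0 (n
 0x139841957a81687f9489808b5f776f9283c1484a918638cc73b4658f307fa78b7f7ed36b7f5e7fb674547e4f936f78766a9b7f998c0049
 z z) (n 0 z (n 0 z z))))) (n 0 (n 0 z (n 0 z (n 0 z (n 0 z (n 0 z z))))) (n 0 (n 0 z (n 0 z (n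
 0 z (n 0 z (n 0 z z))))) (n 0 (n 0 z (n 0 z (n 0 z (n 0 z (n 0 z z))))) (n 0 (n 0 z (n 0 z (n 0
 z (n 0 z (n 0 z z))))) (n 0 (n 0 z (n 0 z (n 0 z (n 0 z (n 0 z z))))) (n 0 (n 0 z (n 0 z (n 0 z
 (n 0 z (n 0 z z))))) z)))))))))) (n 3 (n 0 (n 0 z (n 0 z (n 0 z (n 0 z (n 0 z z))))) (n 0 (n 0
 z (n 0 z (n 0 z (n 0 z (n 0 z z))))) (n 0 (n 0 z (n 0 z (n 0 z (n 0 z (n 0 z z))))) (n 0 (n 0 z
 (n 0 z (n 0 z (n 0 z (n 0 z z))))) (n 0 (n 0 (n 8795403 z z) (n 0 z (n 0 z (n 0 z (n 0 z z)))))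
 (n 0 (n 0 z (n 0 z (n 0 z (n 0 z (n 0 z z))))) z)))))) (n 1 (n 0 (n 0 (n 8795403 z z) (n 0 z (n
 0 z (n 0 z (n 0 z z))))) (n 0 (n 0 z (n 0 z (n 0 z (n 0 z (n 0 z z))))) (n 0 (n 0 z (n 0 z (n 0
 z (n 0 z (n 0 z z))))) z))) (n 0 (n 0 (n 0 z (n 0 z (n 0 z (n 0 z (n 0 z z))))) (n 0 (n 0 z (n
 0 z (n 0 z (n 0 z (n 0 z z))))) (n 0 (n 0 (n
 0xf0a8e8240375897d7f7c878980777b80807f7b807988907c7e7a847d7f8389819573728b7f88857b7a787c8c7f7e796d888a9c826a7b890809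
 z z) (n 0 z (n 0 z (n 0 z (n 0 z z))))) (n 0 (n 0 z (n 0 z (n 0 z (n 0 z (n 0 z z))))) (n 0 (n
 0 z (n 0 z (n 0 z (n 0 z (n 0 z z))))) (n 0 (n 0 z (n 0 z (n 0 z (n 0 z (n 0 z z))))) (n 0 (n 0
 z (n 0 z (n 0 z (n 0 z (n 0 z z))))) z))))))) z))))))))))))))))))))) z)))) z) z)))) (n
 0x3185d06bdaa0617083548b105a68908a25884a305271a80 (n 0 (n 405 (n 6561843 z (n 0 z (n 6561843 z
 (n 2 z z)))) (n 249 (n 10 z (n 18 z (n 26 z (n 3278363 z z)))) (n 403 (n 0 z (n 6561843 z (n 0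
 z (n 0 z (n 0 z (n 6561843 z (n 0 z (n 34 z (n 0 z (n 0 z z)))))))))) (n 27 (n 6631947 z (n 0 z
 (n 0 z z))) (n 1 (n 42 z (n 50 z (n 0 z (n 6561843 z (n 6561843 z z))))) (n 0 (n 0 z (n 0 z (n
 58 z (n 6631947 z (n 0 z (n 0 z (n 0 z (n 66 z (n 0 z z))))))))) z)))))) (n 27 (n 0 (n 923 (n 0
 z (n 0 z (n 0 z (n 0 z (n 0 z (n 0 z (n 0 z (n 0 z (n 0 z (n 0 z (n 0 z (n 0 z (n 0 z (n
 7754035 z (n 0 z (n 0 z (n 0 z (n 0 z (n 0 z (n 0 z z)))))))))))))))))))) (n 923 (n 0 z (n 0 z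
 (n 0 z (n 0 z (n 0 z (n 0 z (n 7754035 z (n 0 z (n 0 z (n 0 z (n 0 z (n 0 z (n 0 z (n 0 z (n 0
 z (n 0 z (n 0 z (n 0 z (n 0 z (n 0 z z)))))))))))))))))))) (n 923 (n 0 z (n 0 z (n 0 z (n 0 z
 (n 0 z (n 0 z (n 0 z (n 0 z (n 0 z (n 0 z (n 0 z (n 0 z (n 0 z (n 0 z (n 0 z (n 0 z (n 0 z (n 0
 z (n 0 z (n 0 z z)))))))))))))))))))) (n 759 (n 0 z (n 0 z (n 0 z (n 0 z z)))) (n 757 (n 0 z (n
 0 z (n 0 z (n 0 z (n 0 z (n 0 z (n 0 z (n 0 z (n 0 z (n 0 z (n 0 z (n 0 z z)))))))))))) (n 757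
 (n 0 z (n 0 z (n 0 z (n 0 z (n 0 z (n 0 z (n 0 z (n 0 z (n 0 z (n 0 z (n 0 z (n 0 z
 z)))))))))))) (n 769 (n 0 z (n 0 z (n 0 z (n 0 z (n 0 z z))))) (n 769 (n 0 z (n 0 z (n 0 z (n 0
 z (n 0 z z))))) z)))))))) (n 0 (n 0 z (n 0 z (n 381 (n 0 z (n 0 z (n 0 z (n 0 z z)))) (n 809 (n
 0 z (n 0 z (n 0 z (n 0 z (n 0 z (n 0 z z)))))) (n 809 (n 0 z (n 0 z (n 0 z (n 7754035 z (n 0 z
 (n 0 z z)))))) (n 365 (n 0 z (n 0 z (n 0 z (n 0 z (n 2 (n 0 z z) (n 0 z z)))))) (n 365 (n 0 z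
 (n 0 z (n 7754035 z (n 0 z (n 0 z (n 0 z z)))))) z))))))) (n 0 (n 0 z (n 813 (n 0 z (n 0 z (n 0
 z (n 0 z (n 0 z z))))) (n 809 (n 0 z (n 0 z (n 0 z (n 0 z (n 7754035 z (n 0 z (n 0 z z)))))))
 (n 809 (n 0 z (n 0 z (n 0 z (n 0 z (n 0 z (n 0 z (n 0 z z))))))) (n 365 (n 0 z (n 0 z (n 0 z (n
 0 z (n 0 z (n 0 z z)))))) (n 365 (n 0 z (n 0 z (n 0 z (n 0 z (n 0 z (n 0 z z)))))) z)))))) (n 0
 (n 813 (n 0 z (n 0 z (n 0 z (n 0 z (n 0 z z))))) (n 531 (n 0 z (n 0 z (n 0 z (n 0 z (n 0 z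
 z))))) (n 531 (n 0 z (n 0 z (n 0 z (n 0 z (n 0 z z))))) (n 529 (n 0 z (n 0 z (n 0 z z))) (n 529
 (n 0 z (n 0 z (n 0 z z))) z))))) (n 0 (n 837 (n 0 z (n 0 z (n 0 z (n 0 z (n 0 z (n 0 z (n 0 z
 (n 0 z (n 0 z (n 0 z z)))))))))) (n 837 (n 0 z (n 0 z (n 0 z (n 0 z (n 0 z (n 0 z (n 0 z (n 0 z
 (n 0 z (n 0 z z)))))))))) (n 349 (n 0 z (n 0 z (n 0 z (n 0 z z)))) (n 349 (n 0 z (n 0 z (n 0 z
 (n 0 z z)))) z)))) (n 0 (n 0 z (n 1 (n 0 z (n 0 z (n 0 z (n 0 z (n 0 z (n 0 z (n 0 z (n 0 z (n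
 0 z (n 0 z (n 0 z (n 0 z (n 0 z (n 0 z (n 0 z (n 0 z (n 0 z z))))))))))))))))) (n 1 (n 0 z (n 0
 z (n 0 z (n 0 z (n 0 z (n 0 z (n 0 z (n 0 z (n 0 z (n 0 z (n 0 z (n 0 z (n 0 z (n 0 z (n 0 z (n
 0 z (n 0 z z))))))))))))))))) z))) (n 0 (n 361 (n 0 z (n 0 z (n 0 z (n 0 z (n 0 z (n 0 z (n 0 z
 (n 0 z (n 0 z (n 0 z (n 0 z (n 0 z z)))))))))))) (n 361 (n 0 z (n 0 z (n 0 z (n 0 z (n 0 z (n 0
 z (n 0 z (n 0 z (n 0 z (n 0 z (n 0 z (n 0 z z)))))))))))) z)) (n 0 (n 0 z z) (n 0 z z)))))))))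
 (n 0 (n 1 (n 6631947 z (n 6631947 z (n 6561843 z (n 6631947 z (n 6631947 z (n 6631947 z z))))))
 (n 0 z (n 0 z z))) (n 0 z z)))) (n 0x2e2dd0d6ae835d76085a8c1d1cac28dba4469d38335e419 (n 0 (n
 153 (n 0 z (n 0 z (n 3282443 z z))) (n 59 (n 0 z (n 2 z (n 10 z (n 6496515 z (n 6496515 z
 z))))) (n 53 (n 0 z (n 6496515 z (n 0 z (n 0 z (n 6496515 z (n 18 z (n 0 z z))))))) (n 27 (n
 6496515 z (n 0 z (n 0 z (n 6496515 z (n 26 z (n 0 z z)))))) (n 1 (n 6554411 z (n 34 z (n 42 z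
 (n 0 z (n 0 z z))))) (n 0 (n 2164315 z (n 50 z (n 58 z (n 66 z z)))) z)))))) (n 153 (n 0 (n 0 z
 (n 141 (n 0 z (n 0 z (n 0 z (n 0 z (n 0 z (n 0 z z)))))) (n 487 (n 0 z (n 0 z (n 0 z (n 0 z (n
 0 z (n 0 z z)))))) (n 63 (n 0 z (n 0 z (n 0 z (n 0 z (n 0 z (n 0 z (n 0 z (n 0 z (n 0 z
 z))))))))) (n 63 (n 0 z (n 0 z (n 0 z (n 0 z (n 0 z (n 0 z (n 0 z (n 0 z (n 0 z z))))))))) (n
 61 (n 0 z (n 0 z (n 0 z (n 0 z z)))) (n 61 (n 0 z (n 0 z (n 0 z (n 0 z z)))) (n 61 (n 0 z (n 0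
 z (n 0 z (n 0 z z)))) z)))))))) (n 0 (n 731 (n 0 z (n 0 z (n 0 z (n 0 z (n 0 z (n 0 z z))))))
 (n 1393 (n 0 z (n 0 z (n 0 z (n 0 z (n 0 z (n 0 z (n 0 z z))))))) (n 723 (n 0 z (n 0 z (n 0 z
 (n 0 z (n 0 z z))))) (n 723 (n 0 z (n 0 z (n 0 z (n 0 z (n 0 z z))))) (n 109 (n 0 z (n 0 z (n 0
 z (n 0 z (n 0 z (n 0 z (n 0 z (n 0 z (n 0 z (n 0 z z)))))))))) (n 109 (n 0 z (n 0 z (n 0 z (n 0
 z (n 0 z (n 0 z (n 0 z (n 0 z (n 0 z (n 0 z z)))))))))) (n 109 (n 0 z (n 0 z (n 0 z (n 0 z (n 0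
 z (n 0 z (n 0 z (n 0 z (n 0 z (n 0 z z)))))))))) z))))))) (n 0 (n 1397 (n 0 z (n 0 z (n 0 z (n
 0 z z)))) (n 99 (n 0 z (n 0 z (n 0 z (n 0 z z)))) (n 99 (n 0 z (n 0 z (n 0 z (n 0 z z)))) (n 97
 (n 0 z (n 0 z (n 0 z (n 0 z (n 0 z z))))) (n 97 (n 0 z (n 0 z (n 0 z (n 0 z (n 0 z z))))) (n 97
 (n 0 z (n 0 z (n 0 z (n 0 z (n 0 z z))))) z)))))) (n 0 (n 483 (n 0 z (n 0 z (n 0 z (n 0 z z))))
 (n 483 (n 0 z (n 0 z (n 0 z (n 0 z z)))) (n 481 (n 0 z (n 0 z (n 0 z (n 0 z (n 0 z (n 0 z (n 0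
 z (n 0 z (n 0 z (n 0 z (n 0 z (n 0 z (n 0 z (n 0 z (n 0 z (n 0 z (n 0 z (n 0 z
 z)))))))))))))))))) (n 481 (n 0 z (n 0 z (n 0 z (n 0 z (n 0 z (n 0 z (n 0 z (n 0 z (n 0 z (n 0
 z (n 0 z (n 0 z (n 0 z (n 0 z (n 0 z (n 0 z (n 0 z (n 0 z z)))))))))))))))))) (n 481 (n 0 z (n
 0 z (n 0 z (n 0 z (n 0 z (n 0 z (n 0 z (n 0 z (n 0 z (n 0 z (n 0 z (n 0 z (n 7754755 z (n 0 z
 (n 0 z (n 0 z (n 0 z (n 0 z z)))))))))))))))))) z))))) (n 0 (n 0 z (n 1 (n 0 z (n 0 z (n 0 z (n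
 0 z (n 0 z (n 0 z (n 0 z z))))))) (n 1 (n 0 z (n 7754755 z (n 0 z (n 0 z (n 0 z (n 0 z (n 0 z
 z))))))) (n 1 (n 0 z (n 0 z (n 0 z (n 0 z (n 0 z (n 0 z (n 0 z z))))))) z)))) (n 0 (n 1 (n 0 z
 (n 0 z (n 0 z (n 0 z (n 0 z (n 0 z (n 0 z (n 0 z (n 0 z (n 0 z (n 0 z (n 0 z (n 0 z (n 0 z (n 0
 z (n 0 z (n 0 z (n 0 z (n 0 z (n 0 z (n 0 z (n 0 z (n 0 z (n 0 z (n 0 z (n 0 z (n 0 z (n 0 z (n
 0 z (n 0 z (n 0 z (n 0 z (n 0 z (n 0 z (n 0 z (n 0 z (n 0 z (n 0 z (n 0 z (n 0 z (n 0 z (n 0 z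
 (n 0 z (n 0 z (n 0 z (n 0 z (n 0 z (n 0 z (n 0 z
 z))))))))))))))))))))))))))))))))))))))))))))))))) (n 1 (n 0 z (n 0 z (n 0 z (n 0 z (n 0 z (n 0
 z (n 0 z (n 0 z (n 0 z (n 0 z (n 0 z (n 0 z (n 0 z (n 0 z (n 0 z (n 0 z (n 0 z (n 0 z (n 0 z (n
 0 z (n 0 z (n 0 z (n 0 z (n 0 z (n 0 z (n 0 z (n 0 z (n 0 z (n 0 z (n 0 z (n 0 z (n 0 z (n 0 z
 (n 0 z (n 2 (n 0 z z) (n 0 z (n 0 z (n 0 z (n 0 z (n 0 z (n 0 z (n 0 z (n 0 z (n 0 z (n 0 z (n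
 0 z (n 0 z (n 0 z (n 0 z z))))))))))))))))))))))))))))))))))))))))))))))))) (n 1 (n 0 z (n 0 z
 (n 0 z (n 0 z (n 0 z (n 0 z (n 0 z (n 0 z (n 0 z (n 0 z (n 0 z (n 0 z (n 0 z (n 0 z (n 0 z (n 0
 z (n 0 z (n 0 z (n 0 z (n 0 z (n 0 z (n 0 z (n 0 z (n 0 z (n 0 z (n 0 z (n 0 z (n 0 z (n 0 z (n
 0 z (n 0 z (n 0 z (n 0 z (n 0 z (n 0 z (n 0 z (n 0 z (n 0 z (n 0 z (n 0 z (n 0 z (n 0 z (n 0 z
 (n 0 z (n 0 z (n 0 z (n 0 z (n 0 z (n 0 z z)))))))))))))))))))))))))))))))))))))))))))))))))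
 z))) (n 0 (n 0 z (n 0 z z)) (n 0 (n 0 z z) (n 0 z z))))))))) (n 0 (n 0 z (n 0 z (n 1 (n 6496515
 z (n 3282443 z (n 3282443 z (n 3282443 z (n 3282443 z (n 3282443 z z)))))) z))) (n 0 z z)))) (n
 0x308b14a844a181452a611 (n 0 (n 693 (n 3282443 z (n 0 z z)) (n 691 (n 4392475 z (n 3278363 z (n
 0 z (n
 0x2ca8ca80078083807e827f807e7f84827f7e838182817f7d827d7d80827f7d7f82817e7e7e7d7d85837e83828281827c83817f827f7e850809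
 z (n 2 z (n
 0xcb6438a82887e7f807e7f8176737b87817f7181897c8f8d976c8a5e816c75988a70827a818884846e8090777b8c77837f837a7e810049
 z (n 0 z (n 0 z (n 0 z (n
 0x14364390848d7c7f7f7c7f83706c788b827f68818f7a9795a560904b816071a68f678477818c8686647f9972779272847f83767d810049
 z z)))))))))) (n 690 (n 0 z (n 0 z (n 0 z (n 0 z (n 0 z (n 0 z (n 6423883 z (n 0 z (n 4392491 z
 (n 0 z (n
 0x995194040e04ca8ca20037e7f7f807e838080807d807f867f7e817e7e84808280807e828382807981868384817d7e837f7e7c827f817d7e807e7f817e1009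
 z (n 10 z (n 0 z (n 0 z (n 0 z (n 6566419 z (n 0 z (n 0 z (n 0 z (n 0 z (n 0 z (n 18 z (n
 0x14364390848d7c7f7f7c7f83706c788b827f68818f7a9795a560904b816071a68f678477818c8686647f9972779272847f83767d810049
 z (n 6423883 z (n 0 z (n 0 z (n 0 z (n 0 z (n 0 z (n 0 z (n 0 z (n 0 z (n 0 z (n 26 z (n 0 z (n
 0 z (n 0 z (n 0 z (n 0 z (n 0 z (n 0 z (n 0 z (n 0 z (n 0 z (n
 0x14363190848d7c7f7f7c7f83706c788b827f68818f7a9795a560904b816071a68f678477818c8686647f9972779272847f83767d810049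
 z (n 0 z (n 0 z (n
 0x2c82c806038080808080808082807f808181817f808080807f8080808180817f8080808080817f7f8080807f7f8180817f7f80808280800809
 z (n 0 z (n 0 z (n 0 z z))))))))))))))))))))))))))))))))))))))))))))))))))) (n 3 (n 6566419 z
 (n 0 z (n 0 z z))) (n 1 (n
 0x4ca8a204078081817f807f82807f817e8180817d827f817e81807f80807e817e81817e7e837f817e7f817f81818081827f7f8081807e820809
 z (n 6566419 z (n
 0x994994840604ca4c60203807e808181808081807e82827e7f7f807f80807e818283808181827f7e808182847f7e7c81817e7e7e7e817f80817e81817f1009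
 z (n 0 z (n 0 z (n 0 z (n 0 z (n 0 z (n
 0x16ca4ca420383817f7f867c7e7d7f8781877285807e82837b81807d858a7a807a808a776f79868281797b867e87838881807b85818476850809
 z (n 0 z (n
 0x34ca8a204077e7b7e7f798486838379867c8b817880827d82828382847d7d827c856c808f8d847c7b7986827f71807d8282877c7e8089800809
 z z))))))))))) (n 0 (n 2164315 z (n 0 z (n 0 z z))) z)))))) (n 693 (n 0 (n 1381 (n 0 z (n 0 z
 (n 0 z (n 0 z (n 0 z (n 0 z (n 0 z (n 0 z (n 0 z (n 0 z (n 0 z (n 0 z z)))))))))))) (n 1381 (n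
 0 z (n 0 z (n 0 z (n 0 z (n 0 z (n 0 z (n 0 z (n 0 z (n 0 z (n 0 z (n 0 z (n 0 z z))))))))))))
 (n 1381 (n 0 z (n 0 z (n 0 z (n 0 z (n 0 z (n
 0x9d91d9000604e82e820077e7e7f847d838080817b8180877a7d7f7c7c877f8283877f86857f7d7c7f878281857b7e857c7b7e7e7e85797f847b81847a1009
 z (n 0 z (n 0 z (n 0 z (n 0 z (n 0 z (n 0 z z)))))))))))) z))) (n 0 (n 0 z (n 0 z z)) (n 0 (n 0
 z z) (n 0 z z)))) (n 0 (n 1 (n 3282443 z (n 3282443 z (n 3282443 z (n 3282443 z (n 3282443 z (n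
 3282443 z z)))))) (n 0 z z)) (n 0 z z)))) (n 0x3675519a4e849934130aac349c7984d26730152c80f3480
 (n 0 (n 401 (n 0 z (n 6561875 z (n 2 z (n 10 z (n 6561875 z (n
 0xcca8a82407746b8c7781967a8a8b7a918d75796d7a7781848a8072a26988767f6f797c8376789c8480947968797f7c8b848d657e8e90810809
 z (n 0 z (n 0 z (n 0 z (n
 0x8ca8a824077874807e82827e7d86798c877d7b797a80877d828a7d8b74817579728184867a7f897d8477827a7c82808684827a817985820809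
 z (n 0 z (n 18 z z)))))))))))) (n 33 (n 0 z (n 0 z (n 3278363 z (n 0 z z)))) (n 171 (n 0 z (n 0
 z (n 26 z (n 0 z (n 0 z (n 6561875 z (n 6561875 z z))))))) (n 3 (n 2164283 z (n 0 z (n 0 z z)))
 (n 1 (n 0 z (n 34 z (n 0 z (n 6561875 z z)))) (n 0 (n 42 z (n 50 z (n
 0xcc86c864037d817b7e84777d7c7e858586848389887a81857e867d79847d7c86807c8c8486807d857e7b808e7e80847882748d787a7a7d0809
 z (n 0 z (n 0 z (n 58 z (n 2164315 z (n 66 z z)))))))) z)))))) (n 3 (n 0 (n 0 z (n 0 z (n 795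
 (n 0 z (n 0 z (n 0 z (n 0 z (n 0 z (n 0 z (n 0 z (n 0 z z)))))))) (n 339 (n 0 z (n 0 z (n 0 z
 (n 0 z (n 0 z (n 0 z (n 0 z (n 0 z (n 0 z (n 0 z (n 0 z (n 0 z (n 0 z (n 0 z z)))))))))))))) (n
 337 (n 2 (n 0 z (n 0 z (n 0 z z))) (n 0 z (n 0 z (n 0 z (n 0 z (n 0 z (n 0 z (n 0 z (n 0 z (n 0
 z z)))))))))) (n 337 (n 0 z (n 0 z (n 0 z (n 0 z (n 0 z (n 0 z (n 0 z (n 0 z (n 0 z (n 0 z
 z)))))))))) (n 337 (n 0 z (n 0 z (n 0 z (n 0 z (n 0 z (n 0 z (n 0 z (n 0 z (n 0 z (n 0 z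
 z)))))))))) (n 337 (n 0 z (n 0 z (n 0 z (n 0 z (n 0 z (n 0 z (n 0 z (n 0 z (n 7754307 z (n 0 z
 z)))))))))) z)))))))) (n 0 (n 0 z (n 775 (n 0 z (n 0 z (n 0 z (n 0 z (n 0 z (n 0 z (n 0 z (n 0
 z (n 6620987 z (n 0 z (n 0 z (n 0 z (n 0 z (n 0 z (n 0 z (n 0 z (n 0 z (n 0 z (n 0 z
 z))))))))))))))))))) (n 105 (n 0 z (n 0 z (n 6620987 z (n 0 z (n 0 z (n 0 z (n 0 z (n 0 z (n 0
 z (n 0 z (n 0 z (n 0 z (n 0 z (n 0 z (n 0 z (n 0 z (n 0 z (n 0 z (n 0 z z))))))))))))))))))) (n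
 253 (n 0 z (n 0 z (n 0 z (n 0 z (n 0 z (n 0 z (n 0 z (n 0 z (n 0 z (n 0 z (n 0 z (n 0 z (n 0 z
 (n 0 z (n 0 z (n 0 z (n 0 z (n 0 z (n 0 z z))))))))))))))))))) (n 253 (n 0 z (n 0 z (n 7745555
 z (n 0 z (n 0 z (n 0 z (n 0 z (n 0 z (n 0 z (n 0 z (n 0 z (n 0 z (n 0 z (n 0 z (n 0 z (n 0 z (n
 0 z (n 0 z (n 0 z z))))))))))))))))))) (n 253 (n 0 z (n 0 z (n 0 z (n 0 z (n 0 z (n 0 z (n 0 z
 (n 0 z (n 0 z (n 0 z (n 0 z (n 0 z (n 0 z (n 0 z (n 0 z (n 2 (n 0 z z) (n 0 z (n 0 z (n 0 z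
 z))))))))))))))))))) (n 253 (n 0 z (n 0 z (n 0 z (n 0 z (n 0 z (n 0 z (n 0 z (n 0 z (n 0 z (n 0
 z (n 0 z (n 0 z (n 0 z (n 0 z (n 0 z (n 0 z (n 2 z (n 0 z (n 0 z z))))))))))))))))))) z)))))))
 (n 0 (n 727 (n 0 z (n 0 z (n 0 z (n 0 z (n 0 z (n 0 z (n 0 z (n 0 z (n 0 z z))))))))) (n 729 (n
 0 z (n 0 z (n 0 z (n 0 z (n 0 z (n 0 z (n 0 z z))))))) (n 773 (n 0 z (n 0 z (n 0 z (n 0 z (n 0
 z (n 0 z (n 0 z (n 0 z (n 0 z (n 0 z (n 0 z (n 0 z z)))))))))))) (n 773 (n 0 z (n 0 z (n 2 (n 0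
 z (n 0 z z)) (n 0 z (n 0 z (n 0 z (n 0 z (n 0 z (n 0 z (n 0 z (n 0 z (n 0 z z)))))))))))) (n
 773 (n 0 z (n 2 (n 0 z z) (n 0 z (n 0 z (n 0 z (n 0 z (n 0 z (n 0 z (n 0 z (n 0 z (n 0 z (n 0 z
 z)))))))))))) (n 773 (n 0 z (n 0 z (n 0 z (n 0 z (n 0 z (n 0 z (n 0 z (n 0 z (n 0 z (n 0 z (n 0
 z (n 0 z z)))))))))))) z)))))) (n 0 (n 339 (n 0 z (n 0 z (n 0 z (n 0 z (n 0 z (n 0 z z)))))) (n
 337 (n 2 (n 0 z (n 0 z (n 0 z z))) (n 0 z (n 0 z (n 0 z (n 0 z (n 0 z (n 0 z (n 0 z (n 0 z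
 z))))))))) (n 337 (n 0 z (n 2 (n 0 z (n 0 z z)) (n 0 z (n 0 z (n 0 z (n 0 z (n 0 z (n 0 z (n 0
 z z))))))))) (n 337 (n 0 z (n 0 z (n 0 z (n 0 z (n 0 z (n 0 z (n 0 z (n 0 z (n 0 z z)))))))))
 (n 337 (n 0 z (n 0 z (n 0 z (n 0 z (n 0 z (n 0 z (n 0 z (n 0 z (n 7754307 z z))))))))) z)))))
 (n 0 (n 1 (n 0 z (n 0 z (n 0 z (n 0 z (n 0 z (n 0 z (n 0 z (n 0 z (n 0 z (n 0 z (n 0 z (n 0 z
 (n 2 (n 0 z (n 0 z (n 0 z z))) (n 0 z (n 0 z (n 0 z (n 0 z (n 0 z (n 0 z (n 0 z (n 0 z (n 0 z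
 z)))))))))))))))))))))) (n 1 (n 0 z (n 0 z (n 0 z (n 0 z (n 0 z (n 0 z (n 0 z (n 0 z (n 0 z (n
 0 z (n 0 z (n 0 z (n 0 z (n 0 z (n 0 z (n 0 z (n 0 z (n 0 z (n 0 z (n 0 z (n 0 z (n 0 z
 z)))))))))))))))))))))) (n 1 (n 0 z (n 0 z (n 0 z (n 0 z (n 0 z (n 0 z (n 0 z (n 0 z (n 0 z (n
 0 z (n 0 z (n 0 z (n 0 z (n 0 z (n 0 z (n 0 z (n 0 z (n 0 z (n 0 z (n 0 z (n 0 z (n 0 z
 z)))))))))))))))))))))) (n 1 (n 0 z (n 0 z (n 0 z (n 0 z (n 0 z (n 0 z (n 0 z (n 0 z (n 0 z (n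
 0 z (n 0 z (n 0 z (n 0 z (n 0 z (n 0 z (n 0 z (n 0 z (n 0 z (n 0 z (n 0 z (n 0 z (n 7669307 z
 z)))))))))))))))))))))) z)))) (n 0 (n 0 z (n 0 z (n 0 z z))) (n 0 (n 0 z (n 0 z z)) (n 0 (n 0 z
 z) (n 0 z z))))))))) (n 0 (n 1 (n 2164283 z (n 2164283 z (n 2164283 z (n 2164283 z (n 2164283 z
 (n 2164283 z z)))))) (n 0 z (n 0 z z))) (n 0 z z)))) (n
 0xb5c5454c9a1349da246a50d2718ae295049b76b08974846a683353480 (n 0 (n 177 (n 0 z (n 6623299 z (n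
 2 z (n 0 z z)))) (n 257 (n 6623299 z (n
 0x34ca8ca80038027fb8088047fe8017fe8038057f97ea7ff7ea80080a8087fa7fa8067f87f680f7ff80c7f48227f07f78028227f47f381080c7eb7f27ec8138137ef8117f17fa80c8098087f47f98137fc0811
 z (n 0 z (n 10 z (n 0 z (n 18 z (n
 0x9b29a90200c1f1951908c0e032ca8a846077f778e8b87ef7878048507f88677a37d08607fc8018707d57bb81f84574a86c7858467bd8288f57827a56fc8be78c8c48218d47cb7fc6738a78a07638587b779383e84a8da6ea7c48178211811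
 z (n 26 z z)))))))) (n 129 (n 3212843 z (n 0 z (n 0 z z))) (n 27 (n 34 z (n
 0x41b20008264081a7e58198237ef8027f57fb80f7ff7dd8028048017d983581d7db7e37f97dc80481680880f8177ff7ef80280d7f481c7f381580680481f7e98028087eb80e7ee7fb7f27e68288067e88020091
 z (n 0 z (n 5510715 z (n 2164283 z z))))) (n 1 (n 0 z (n 0 z (n 42 z (n 0 z (n 2164299 z (n 0 z
 (n
 0x21654520303809329b29900c11590d4c0806006ca6a6400384079883f85e7d380c7fa7e88197f97bb84682b80178288388a78d7767c27f27d58187ef8717df8157f27997d88118c180a82183f8468a877778f83c7968627dd7c67467c58bb7f373580d2011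
 z (n 50 z (n 0 z (n 58 z (n 0 z z))))))))))) (n 0 (n 0 z (n
 0x88ca88206037e08457c57c184c7ff7f67fa7b28248667e07e580181c7c286d8217d87e38257907a283884a76983884b81875e8138307a47c487181d87e78479f8677d78298497ea77b7e08497ff7b87fa0811
 z (n 66 z (n 0 z (n 0 z (n 0 z (n 6623299 z (n 74 z (n
 0x15b0800226108047fc8068037fd7fe7fd8018057fd7f58048008028018098047fc7fb7fa7f78048028048048117f97fd80180d7f97fe8048067f77f77ff8048017fa8067fd7ff8048018008037ff8037fc0091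
 z (n 82 z (n 0 z (n 0 z (n 0 z (n 0 z (n 0 z (n
 0x35b20006a6408157ea81481c7f28027f77fc80c8007e48028038017e282b8177e27e97fa7e380381280680c8127ff7f380280a7f68167f68118058038197ee8028067ef80b7f17fc7f57eb8208047ed8020091
 z z)))))))))))))))) z)))))) (n 129 (n 0 (n 635 (n 0 z (n 0 z (n 0 z (n 0 z (n 0 z (n 0 z (n 0 z
 (n 0 z (n 0 z (n 0 z (n 0 z (n 0 z (n 0 z (n 0 z (n 0 z (n 0 z (n 0 z (n 0 z (n 0 z (n 0 z (n 0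
 z (n 0 z z)))))))))))))))))))))) (n 635 (n 0 z (n 0 z (n 0 z (n 0 z (n 0 z (n 0 z (n 0 z (n 0 z
 (n 0 z (n 0 z (n 0 z (n 0 z (n 0 z (n 0 z (n 2 (n 0 z (n 1 z (n 2 (n 0 z (n 0 z (n 0 z (n 0 z
 (n 0 z (n 0 z z)))))) (n 2 (n 0 z (n 0 z (n 0 z (n 0 z (n 0 z (n 0 z z)))))) (n 2 (n 0 z (n 0 z
 (n 0 z (n 0 z (n 0 z (n 0 z z)))))) (n 1 z (n 2 (n 0 z (n 0 z (n 0 z (n 0 z (n 0 z (n 0 z
 z)))))) (n 2 (n 0 z (n 0 z (n 0 z (n 0 z (n 0 z (n 0 z z)))))) z)))))))) (n 0 z (n 0 z (n 0 z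
 (n 0 z (n 0 z (n 0 z (n 0 z z)))))))))))))))))))))) (n 635 (n 0 z (n 0 z (n 0 z (n 0 z (n 0 z
 (n 0 z (n 0 z (n 0 z (n 0 z (n 0 z (n 0 z (n 0 z (n 0 z (n 0 z (n 0 z (n 0 z (n 0 z (n 0 z (n 2
 (n 1 z (n 2 (n 0 z (n 0 z (n 0 z (n 0 z (n 0 z (n 0 z z)))))) (n 1 z (n 2 (n 0 z (n 0 z (n 0 z
 (n 0 z (n 0 z (n 0 z z)))))) (n 1 z (n 2 (n 0 z (n 0 z (n 0 z (n 0 z (n 0 z (n 0 z z)))))) (n 1
 z z))))))) (n 0 z (n 0 z (n 0 z z)))))))))))))))))))))) (n 507 (n 0 z (n 0 z (n 0 z (n 0 z (n 0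
 z (n 0 z (n 0 z (n 0 z z)))))))) (n 339 (n 0 z (n 0 z (n 2 (n 0 z (n 0 z (n 1 z (n 2 (n 0 z (n
 0 z (n 0 z (n 0 z (n 0 z (n 0 z z)))))) (n 2 (n 0 z (n 0 z (n 0 z (n 0 z (n 0 z (n 0 z z))))))
 z))))) (n 0 z (n 0 z (n 0 z (n 0 z (n 0 z (n 0 z (n 0 z (n 0 z z))))))))))) (n 339 (n 0 z (n 0
 z (n 0 z (n 0 z (n 0 z (n 0 z (n 0 z (n 0 z (n 0 z (n 0 z (n 0 z z))))))))))) (n 339 (n 0 z (n
 0 z (n 0 z (n 0 z (n 0 z (n 0 z (n 0 z (n 0 z (n 2 (n 1 z (n 2 (n 0 z (n 0 z (n 0 z (n 0 z (n 0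
 z (n 0 z z)))))) (n 1 z z))) (n 0 z (n 0 z z))))))))))) (n 337 (n 0 z (n 0 z (n 0 z (n 0 z (n 0
 z (n 0 z (n 0 z (n 0 z (n 0 z (n 0 z (n 0 z (n 0 z z)))))))))))) (n 337 (n 0 z (n 0 z (n 0 z (n
 0 z (n 0 z (n 0 z (n 0 z (n 0 z (n 0 z (n 0 z (n 0 z (n 0 z z)))))))))))) (n 337 (n 0 z (n 0 z
 (n 0 z (n 0 z (n 0 z (n 0 z (n 0 z (n 2 z (n 0 z (n 0 z (n 0 z (n 0 z z)))))))))))) z))))))))))
 (n 0 (n 0 z (n 0 z (n 487 (n 0 z (n 0 z (n 0 z (n 0 z (n 0 z (n 0 z (n 0 z (n 0 z (n 0 z (n 0 z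
 (n 0 z (n 0 z (n 0 z (n 0 z (n 0 z (n 0 z (n 0 z (n 0 z (n 0 z (n 0 z (n 0 z (n 0 z (n 0 z (n 0
 z (n 0 z z))))))))))))))))))))))))) (n 489 (n 0 z (n 0 z (n 0 z (n 0 z (n 0 z (n 2 (n 0 z (n 0
 z (n 1 z (n 2 (n 0 z (n 0 z (n 0 z (n 0 z (n 0 z (n 0 z z)))))) (n 2 (n 0 z (n 0 z (n 0 z (n 0
 z (n 0 z (n 0 z z)))))) z))))) (n 0 z z))))))) (n 489 (n 0 z (n 0 z (n 0 z (n 0 z (n 0 z (n 0 z
 (n 0 z z))))))) (n 489 (n 0 z (n 0 z (n 2 (n 1 z (n 2 (n 0 z (n 0 z (n 0 z (n 0 z (n 0 z (n 0 z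
 z)))))) (n 1 z z))) (n 0 z (n 0 z (n 0 z (n 0 z z))))))) (n 485 (n 0 z (n 0 z (n 0 z (n 0 z (n
 0 z (n 0 z (n 0 z (n 0 z (n 0 z (n 0 z (n 0 z (n 0 z (n 0 z (n 0 z (n 0 z (n 0 z (n 0 z (n 0 z
 (n 0 z (n 0 z (n 0 z (n 0 z (n 0 z (n 0 z (n 0 z (n 0 z (n 0 z (n 0 z
 z)))))))))))))))))))))))))))) (n 485 (n 0 z (n 0 z (n 0 z (n 0 z (n 0 z (n 0 z (n 0 z (n 0 z (n
 0 z (n 0 z (n 0 z (n 0 z (n 0 z (n 0 z (n 0 z (n 0 z (n 0 z (n 0 z (n 0 z (n 0 z (n 0 z (n 0 z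
 (n 0 z (n 0 z (n 0 z (n 0 z (n 0 z (n 0 z z)))))))))))))))))))))))))))) (n 485 (n 0 z (n 0 z (n
 0 z (n 0 z (n 0 z (n 0 z (n 0 z (n 0 z (n 0 z (n 0 z (n 0 z (n 0 z (n 0 z (n 0 z (n 0 z (n 2 z
 (n
 0x3c7608077f38028107f78017f68078068057f28048047f17ed8108017f08078047f98108008057f58137f68038108068077ea8097f57f77fe81680f8097f98038067ff8017f87fd8038008107f30051
 z (n 0 z (n 0 z (n 0 z (n 0 z (n 0 z (n 0 z (n 0 z (n 0 z (n 0 z (n 0 z (n 0 z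
 z)))))))))))))))))))))))))))) z))))))))) (n 0 (n 0 z (n 535 (n 0 z (n 0 z (n 0 z (n 0 z (n 0 z
 (n 0 z (n 0 z (n 0 z (n 0 z (n 0 z (n 0 z (n 0 z (n 0 z (n 0 z (n 0 z (n 0 z (n 0 z (n 0 z (n 0
 z (n 0 z (n 0 z (n 0 z (n 0 z (n 0 z (n 0 z (n 0 z (n 0 z (n 0 z (n 0 z
 z))))))))))))))))))))))))))))) (n 537 (n 0 z (n 0 z (n 0 z (n 0 z (n 0 z (n 0 z (n 0 z (n 2 (n
 0 z (n 0 z (n 2 (n 0 z (n 0 z (n 0 z (n 0 z (n 0 z (n 0 (n 8587115 z z) z)))))) (n 2 (n 0 z (n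
 0 z (n 0 z (n 0 z (n 0 z (n 0 z z)))))) (n 2 (n 0 z (n 0 z (n 0 z (n 0 z (n 0 z (n 0 z z))))))
 z))))) (n 0 z (n 0 z (n 0 z z))))))))))) (n 537 (n 0 z (n 0 z (n 2 (n 0 z (n 2 (n 0 z (n 0 z (n
 0 z (n 0 z (n 0 z (n 0 (n 8864035 z z) z)))))) (n 2 (n 0 z (n 0 z (n 0 z (n 0 z (n 0 z (n 0 z
 z)))))) (n 2 (n 0 z (n 0 z (n 0 z (n 0 z (n 0 z (n 0 z z)))))) z)))) (n 0 z (n 0 z (n 0 z (n 0
 z (n 0 z (n 0 z (n 0 z (n 0 z z))))))))))) (n 537 (n 0 z (n 0 z (n 0 z (n 0 z (n 2 (n 2 (n 0 z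
 (n 0 z (n 0 z (n 0 z (n 0 z (n 0 (n 2132 z z) z)))))) (n 2 (n 0 z (n 0 z (n 0 z (n 0 z (n 0 z
 (n 0 z z)))))) (n 1 z z))) (n 0 z (n 0 z (n 0 z (n 0 z (n 0 z (n 0 z z))))))))))) (n 533 (n 0 z
 (n 0 z (n 0 z (n 0 z (n 0 z (n 0 z (n 0 z (n 0 z (n 0 z (n 0 z (n 0 z (n 0 z z)))))))))))) (n
 533 (n 0 z (n 0 z (n 2 (n 0 z z) (n 0 z (n 0 z (n 0 z (n 0 z (n 0 z (n 0 z (n 0 z (n 0 z (n 0 z
 z)))))))))))) (n 533 (n 0 z (n 0 z (n 0 z (n 0 z (n 0 z (n 0 z (n 0 z (n 2 z (n 0 z (n 0 z (n 0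
 z (n 0 z z)))))))))))) z)))))))) (n 0 (n 55 (n 0 z (n 0 z (n 0 z (n 0 z (n 0 z (n 0 z (n 0 z (n
 0 z (n 0 z (n 0 z (n 0 z (n 2 (n 2 (n 0 z (n 0 z (n 0 z (n 0 z (n 0 z (n 0 z z)))))) (n 1 z (n
 2 (n 0 z (n 0 z (n 0 z (n 0 z (n 0 z (n 0 z z)))))) (n 1 z (n 2 (n 0 z (n 0 z (n 0 z (n 0 z (n
 0 z (n 0 z z)))))) (n 1 z z)))))) (n
 0x1c7608047fa8018087fc8007fb8038038037f98018027f87f68088017f88038027fc8088008037fa8097fb8018088028047f58047fa7fb7ff80c8078057fc8028038008007fc7fe8028008087fa0051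
 z (n 0 z (n 0 z (n 0 z (n 0 z (n 0 z (n 0 z (n 0 z (n 0 z (n 0 z (n 0 z (n 0 z (n 0 z
 z))))))))))))))))))))))))) (n 51 (n 0 z (n 0 z (n 0 z (n 0 z (n 0 z (n 0 z (n 0 z z))))))) (n
 51 (n 0 z (n 0 z (n 0 z (n 0 z (n 0 z (n 2 (n 0 z (n 1 z (n 2 (n 0 z (n 0 z (n 0 z (n 0 z (n 0
 z (n 0 z z)))))) (n 1 z z)))) (n 0 z z))))))) (n 51 (n 0 z (n 0 z (n 0 z (n 0 z (n 0 z (n 0 z
 (n 2 (n 1 z (n 2 (n 0 z (n 0 z (n 0 z (n 0 z (n 0 z (n 0 z z)))))) (n 1 z z))) z))))))) (n 49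
 (n 0 z (n 0 z (n 0 z (n 2 (n 0 z (n 0 z z)) (n
 0x247608057f880180a7fb8007f98048048037f78028027f67f480a8017f68058037fc80a8008037f980b7fa80280b8038047f18067f87fa7fe80e80a8067fb8038038008007fb7fe80280080a7f80051
 z (n 0 z (n 0 z (n 0 z (n 0 z (n 0 z (n 0 z (n 0 z (n 0 z (n 0 z (n 0 z (n 0 z (n 0 z (n 0 z (n
 0 z (n 0 z z)))))))))))))))))))) (n 49 (n 0 z (n 0 z (n 0 z (n 0 z (n 0 z (n 0 z (n 0 z (n 0 z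
 (n 0 z (n 0 z (n 0 z (n 0 z (n 0 z (n 0 z (n 2 (n 0 z z) (n 0 z (n 0 z (n 0 z (n 0 z (n 0 z
 z)))))))))))))))))))) (n 49 (n 0 z (n 0 z (n 0 z (n 0 z (n 0 z (n 0 z (n 0 z (n 0 z (n 0 z (n 0
 z (n 0 z (n 0 z (n 0 z (n 0 z (n 0 z (n 0 z (n 0 z (n 0 z (n 0 z (n 0 z z))))))))))))))))))))
 z))))))) (n 0 (n 51 (n 0 z (n 0 z (n 0 z (n 0 z (n 2 (n 0 z (n 0 z (n 1 z (n 2 (n 0 z (n 0 z (n
 0 z (n 0 z (n 0 z (n 0 z z)))))) (n 2 (n 0 z (n 0 z (n 0 z (n 0 z (n 0 z (n 0 z z)))))) z)))))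
 (n 0 z (n 0 z (n 0 z (n 0 z (n 0 z (n 0 z (n 0 z (n 0 z (n 0 z (n 0 z z))))))))))))))) (n 51 (n
 0 z (n 0 z (n 0 z (n 0 z (n 0 z (n 0 z (n 0 z (n 0 z (n 0 z (n 0 z (n 0 z (n 0 z (n 0 z (n 0 z
 (n 0 z z))))))))))))))) (n 51 (n 0 z (n 0 z (n 0 z (n 0 z (n 0 z (n 0 z (n 0 z (n 0 z (n 0 z (n
 2 (n 1 z (n 2 (n 0 z (n 0 z (n 0 z (n 0 z (n 0 z (n 0 z z)))))) (n 1 z z))) (n 0 z (n 0 z (n 0
 z (n 0 z (n 0 z z))))))))))))))) (n 49 (n 0 z (n 0 z (n 0 z (n 0 z (n 0 z (n 0 z (n 0 z (n 0 z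
 (n 0 z (n 0 z (n 0 z (n 0 z (n 0 z (n 0 z z)))))))))))))) (n 49 (n 0 z (n 0 z (n 0 z (n 0 z (n
 0 z (n 0 z (n 0 z (n 0 z (n 2 (n 0 z z) (n 0 z (n 0 z (n 0 z (n 0 z (n 0 z z)))))))))))))) (n
 49 (n 0 z (n 0 z (n 0 z (n 0 z (n 0 z (n 0 z (n 0 z (n 0 z (n 0 z (n 2 z (n 0 z (n 0 z (n 0 z
 (n 0 z z)))))))))))))) z)))))) (n 0 (n 0 z (n 0 z (n 53 (n 0 z (n 0 z (n 0 z (n 2 (n 0 z (n 0 z
 z)) (n 0 z (n 0 z (n 0 z (n 0 z z)))))))) (n 53 (n 2 (n 0 z z) (n 0 z (n 0 z (n 0 z (n 0 z (n 0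
 z (n 0 z (n 0 z z)))))))) (n 53 (n 0 z (n 0 z (n 0 z (n 0 z (n 0 z (n 0 z (n 0 z (n 0 z
 z)))))))) z))))) (n 0 (n 0 z (n 1 (n 0 z (n 0 z (n 0 z (n 0 z (n 0 z (n 0 z (n 0 z (n 0 z (n 0
 z (n 0 z (n 0 z (n 0 z (n 0 z (n 0 z (n 0 z (n 0 z (n 0 z (n 0 z (n 0 z (n 0 z (n 0 z (n 0 z (n
 0 z (n 0 z (n 0 z (n 0 z (n 0 z (n 0 z (n 0 z (n 0 z (n 0 z (n 0 z (n 0 z (n 0 z (n 0 z (n 0 z
 (n 0 z (n 0 z (n 0 z (n 0 z (n 0 z (n 0 z (n 0 z (n 0 z (n 0 z (n 0 z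
 z)))))))))))))))))))))))))))))))))))))))))))))) (n 1 (n 0 z (n 0 z (n 0 z (n 0 z (n 0 z (n 0 z
 (n 0 z (n 0 z (n 0 z (n 0 z (n 0 z (n 0 z (n 0 z (n 0 z (n 0 z (n 0 z (n 0 z (n 0 z (n 0 z (n 0
 z (n 0 z (n 0 z (n 0 z (n 0 z (n 0 z (n 0 z (n 0 z (n 0 z (n 0 z (n 0 z (n 0 z (n 0 z (n 0 z (n
 0 z (n 0 z (n 0 z (n 0 z (n 0 z (n 0 z (n 0 z (n 0 z (n 0 z (n 0 z (n 0 z (n 0 z (n 0 z
 z)))))))))))))))))))))))))))))))))))))))))))))) (n 1 (n 0 z (n 0 z (n 0 z (n 0 z (n 0 z (n 0 z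
 (n 0 z (n 0 z (n 0 z (n 0 z (n 0 z (n 0 z (n 0 z (n 0 z (n 0 z (n 0 z (n 0 z (n 0 z (n 0 z (n 0
 z (n 0 z (n 0 z (n 0 z (n 0 z (n 0 z (n 0 z (n 0 z (n 0 z (n 0 z (n 0 z (n 0 z (n 0 z (n 2 z (n
 0 z (n 0 z (n 0 z (n 0 z (n 0 z (n 0 z (n 0 z (n 0 z (n 0 z (n 0 z (n 0 z (n 0 z (n 0 z
 z)))))))))))))))))))))))))))))))))))))))))))))) z)))) (n 0 (n 5 (n 0 z (n 0 z (n 0 z (n 0 z (n
 0 z (n 0 z (n 0 z (n 0 z (n 2 (n 0 z (n 0 z z)) (n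
 0x247608057f880180a7fb8007f98058048037f78028037f67f480a8017f68048037fc80a8008037f980b7fa80180a8038057f18067f97fa7ff80e80a8067fc8028048018017fb7fe80280080a7f70051
 z (n 0 z (n 0 z (n 0 z (n 0 z (n 0 z (n 0 z (n 0 z (n 0 z (n 0 z (n 0 z (n 0 z (n 0 z (n 0 z (n
 0 z (n 0 z (n 0 z (n 0 z (n 0 z (n 0 z z))))))))))))))))))))))))))))) (n 5 (n 0 z (n 0 z (n 0 z
 (n 0 z (n 0 z (n 2 (n 0 z z) (n 0 z (n 0 z (n 0 z (n 0 z (n 0 z (n 0 z (n 0 z (n 0 z (n 0 z (n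
 0 z (n 0 z (n 0 z (n 0 z (n 0 z (n 0 z (n 0 z (n 0 z (n 0 z (n 0 z (n 0 z (n 0 z (n 0 z (n 0 z
 z))))))))))))))))))))))))))))) (n 5 (n 0 z (n 0 z (n 0 z (n 0 z (n 0 z (n 0 z (n 0 z (n 0 z (n
 0 z (n 0 z (n 0 z (n 0 z (n 0 z (n 0 z (n 0 z (n 0 z (n 0 z (n 0 z (n 0 z (n 0 z (n 0 z (n 0 z
 (n 0 z (n 0 z (n 0 z (n 0 z (n 0 z (n 0 z (n 0 z z))))))))))))))))))))))))))))) z))) (n 0 (n 0
 z (n 0 z z)) (n 0 (n 0 z z) (n 0 z z))))))))))) (n 0 (n 1 (n 3212843 z (n 3212843 z (n 3212843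
 z (n 3212843 z (n 3212843 z (n 3212843 z z)))))) (n 0 z (n 0 z z))) (n 0 z z)))) (n
 0x69155848a91085b6c229941b8d62c62516216d20894f600a2d80da440 (n 0 (n 473 (n 6557747 z (n 2 z (n
 0x14a42c806038048067ff8027fc8028048007fb8038018037fd7fc7fa7ff8078017f88108028067fb7fc7ff8077ff8037f87fc80480280a7f381780380a7ef7f580e8027fa7fb7f48018058027fa7fd7fd0811
 z (n 6557747 z (n 4331019 z (n 0 z (n 0 z (n 0 z (n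
 0x2aca8ca84037c480c8017df83280b8167fd83b7e782181e7fb7dd8217f381a7e17c98177f38598177d17ec8117f483a8148297f487280781275d7cb85c86e7f77af7e37ec7e98287dc7ea7f68078548110811
 z (n
 0x10aca20231944049b28803a6518058058008007f480a8037f47fd7f67ee7f88037fe8038068077f38027f880e7ff8048018047f67f07ff8028167f88007f17f98078117f37f180780e80b8088027ff7fc8008047f88028020111
 z (n 10 z (n
 0x10ac6402318c8049b19003a6328058058008007f480a8037f47fd7f67ee7f88037fe8038068077f38027f880e7ff8048018047f67f07ff8028167f88007f17f98078117f37f180780e80b8088027ff7fc8008047f88028020111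
 z (n 18 z (n
 0x22c84c842037d08098017e58298088127fe8317ec81a8187fd7e581a7f58157e77d28137f58478127da7f080e7f682e8108217f785c80580e77e7d684a8587f77bf7e97ef7ee81f7e37ef7f780584380e0811
 z z)))))))))))))) (n 472 (n 6557747 z (n 26 z (n 34 z (n 42 z z)))) (n 692 (n 0 z (n 0 z (n
 3212843 z (n 0 z z)))) (n 3 (n 0 z (n 50 z (n 0 z (n 2164283 z (n 4331067 z (n 0 z (n 0 z (n 0
 z (n 0 z (n
 0x10aca20231944049b28803a6518058058008007f480a8037f47fd7f67ee7f88037fe8038068077f38027f880e7ff8048018047f67f07ff8028167f88007f17f98078117f37f180780e80b8088027ff7fc8008047f88028020111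
 z (n 0 z (n 0 z (n 0 z (n 58 z (n 66 z (n 0 z (n 0 z z))))))))))))))))) (n 1 (n 74 z (n 6557747
 z (n 0 z (n 0 z (n 0 z (n 0 z z)))))) (n 0 (n 2164315 z (n 82 z z)) z)))))) (n 0 (n 0 (n 0 z (n
 0 z (n 919 (n 0 z (n 0 z (n 0 z (n 0 z (n 0 z (n 0 z (n 0 z (n 0 z (n 0 z (n 0 z (n 0 z (n 0 z
 (n 0 z (n 0 z (n 0 z (n 0 z (n 0 z (n 0 z (n 0 z (n 0 z (n 0 z (n 0 z (n 0 z (n 0 z (n 0 z (n 0
 z (n 0 z (n 0 z (n 0 z (n 0 z (n 0 z (n 0 z z)))))))))))))))))))))))))))))))) (n 919 (n 0 z (n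
 0 z (n 0 z (n 0 z (n 2 (n 0 z (n 2 (n 0 z (n 0 z (n 0 z (n 0 z (n 0 z (n 0 z z)))))) (n 2 (n 0
 z (n 0 z (n 0 z (n 0 z (n 0 z (n 0 z z)))))) (n 1 z (n 1 z (n 1 z z)))))) (n 6620987 z (n 0 z
 (n 0 z (n 0 z (n 0 z (n 0 z (n 0 z (n 0 z (n 0 z (n 0 z (n 0 z (n 0 z (n 0 z (n 0 z (n 0 z (n 0
 z (n 0 z (n 0 z (n 0 z (n 0 z (n 0 z (n 0 z (n 0 z (n 0 z (n 0 z (n 0 z (n 0 z
 z)))))))))))))))))))))))))))))))) (n 919 (n 0 z (n 0 z (n 0 z (n 0 z (n 0 z (n 0 z (n 0 z (n 0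
 z (n 0 z (n 0 z (n 0 z (n 0 z (n 0 z (n 0 z (n 0 z (n 0 z (n 0 z (n 0 z (n 0 z (n 0 z (n 0 z (n
 0 z (n 0 z (n 0 z (n 0 z (n 0 z (n 0 z (n 0 z (n 0 z (n 0 z (n 0 z (n 0 z
 z)))))))))))))))))))))))))))))))) (n 7 (n 2 (n 0 z (n 0 z (n 1 z (n 1 z z)))) (n 6620987 z (n 0
 z (n 0 z (n 0 z (n 0 z (n 0 z (n 0 z (n 0 z (n 0 z (n 0 z (n 0 z (n 0 z (n 0 z (n 0 z (n 0 z
 z)))))))))))))))) (n 7 (n 0 z (n 0 z (n 0 z (n 0 z (n 0 z (n 0 z (n 0 z (n 0 z (n 0 z (n 0 z (n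
 0 z (n 0 z (n 0 z (n 0 z (n 0 z (n 0 z z)))))))))))))))) (n 7 (n 0 z (n 0 z (n 0 z (n 0 z (n 0
 z (n 0 z (n 0 z (n 0 z (n 0 z (n 0 z (n 2 (n 1 z (n 1 z z)) (n 0 z (n 0 z (n 0 z (n 0 z (n 0 z
 z)))))))))))))))) (n 3 (n 0 z (n 0 z (n 0 z (n 0 z (n 0 z (n 0 z (n 0 z (n 0 z (n 0 z (n 0 z (n
 0 z (n 0 z (n 0 z (n 0 z (n 0 z (n 0 z (n 0 z (n 0 z (n 0 z (n 0 z (n 0 z (n 0 z (n 0 z (n 0 z
 (n 0 z (n 0 z (n 0 z (n 0 z (n 0 z (n 0 z (n 0 z (n 0 z (n 0 z (n 0 z (n 0 z (n 0 z (n 0 z (n 0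
 z (n 0 z (n 0 z (n 0 z (n 0 z (n 0 z (n 0 z (n 0 z (n 0 z
 z)))))))))))))))))))))))))))))))))))))))))))))) (n 1 (n 0 z (n 0 z (n 0 z (n 0 z (n 0 z (n 0 z
 (n 0 z (n 0 z (n 0 z (n 0 z (n 0 z (n 0 z (n 0 z (n 0 z (n 0 z (n 0 z (n 0 z (n 0 z (n 0 z (n 0
 z (n 0 z (n 0 z (n 0 z (n 0 z (n 0 z z))))))))))))))))))))))))) z)))))))))) (n 0 (n 0 z (n 227
 (n 2 (n 0 z (n 0 z (n 1 z (n 1 z (n 2 (n 0 z (n 0 z (n 0 z (n 0 z (n 0 z (n 0 z z)))))) (n 1 z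
 (n 1 z z))))))) (n 6496371 z (n 0 z (n 0 z (n 0 z (n 0 z (n 0 z (n 0 z (n 0 z (n 0 z (n 0 z (n
 0 z (n 0 z (n 0 z (n 0 z (n 0 z (n 0 z (n 0 z (n 0 z (n 0 z (n 0 z (n 0 z (n 0 z (n 0 z (n 0 z
 z))))))))))))))))))))))))) (n 227 (n 0 z (n 0 z (n 0 z (n 0 z (n 0 z (n 0 z (n 0 z (n 0 z (n 0
 z (n 0 z (n 0 z (n 0 z (n 0 z (n 0 z (n 0 z (n 0 z (n 0 z (n 0 z (n 0 z (n 0 z (n 0 z (n 0 z (n
 0 z (n 0 z (n 0 z z))))))))))))))))))))))))) (n 227 (n 0 z (n 0 z (n 0 z (n 0 z (n 0 z (n 0 z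
 (n 0 z (n 2 (n 2 (n 0 z (n 0 z (n 0 z (n 0 z (n 0 z (n 0 z z)))))) (n 2 (n 0 z (n 0 z (n 0 z (n
 0 z (n 0 z (n 0 z z)))))) (n 2 (n 0 z (n 0 z (n 0 z (n 0 z (n 0 z (n 0 z z)))))) (n 2 (n 0 z (n
 0 z (n 0 z (n 0 z (n 0 z (n 0 z z)))))) (n 2 (n 0 z (n 0 z (n 0 z (n 0 z (n 0 z (n 0 z z))))))
 z))))) (n 0 z (n 0 z (n 0 z (n 0 z (n 0 z (n 0 z (n 0 z (n 0 z (n 0 z (n 0 z (n 0 z (n 0 z (n 0
 z (n 0 z (n 0 z (n 0 z (n 0 z z))))))))))))))))))))))))) (n 233 (n 0 z (n 0 z (n 0 z (n 0 z (n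
 0 z (n 0 z (n 0 z (n 0 z (n 0 z (n 0 z (n 0 z (n 0 z (n 0 z (n 0 z (n 0 z (n 0 z
 z)))))))))))))))) (n 233 (n 2 (n 0 z (n 1 z (n 1 z z))) (n
 0x40e62ca080780080c8048137f080b8157e87f17e480a80e80a8237d18137eb8348097c183c7c17d18117e77d47fa7f27d779e81484a7fd7fa7a083280e80e7c87bd84d80983d81180483d7e67f08688130811
 z (n 0 z (n 0 z (n 0 z (n 0 z (n 0 z (n 0 z (n 0 z (n 0 z (n 0 z (n 0 z (n 0 z (n 0 z (n 0 z (n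
 0 z z)))))))))))))))) (n 233 (n 0 z (n 0 z (n 0 z (n 0 z (n 2 (n 1 z (n 1 z z)) (n 0 z (n 0 z
 (n 0 z (n 0 z (n 0 z (n 0 z (n 0 z (n 0 z (n 0 z (n 0 z (n 0 z z)))))))))))))))) (n 761 (n 2 (n
 1 z z) (n 6496371 z (n 0 z (n 0 z (n 0 z (n 0 z (n 0 z (n 0 z (n 0 z (n 0 z (n 0 z (n 0 z (n 0
 z (n 0 z (n 0 z (n 0 z (n 0 z (n 0 z (n 0 z (n 0 z (n 0 z (n 0 z (n 0 z (n 0 z (n 0 z (n 0 z (n
 0 z (n 0 z (n 0 z (n 0 z (n 0 z (n 0 z (n 0 z (n 0 z (n 0 z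
 z))))))))))))))))))))))))))))))))))) (n 737 (n 0 z (n 0 z (n 2 z (n 6496371 z (n 0 z (n 0 z (n
 0 z (n 0 z (n 0 z (n 0 z (n 0 z (n 0 z (n 0 z (n 0 z (n 0 z (n 0 z (n 0 z (n 0 z (n 0 z (n 0 z
 (n 0 z (n 0 z z)))))))))))))))))))))) z))))))))) (n 0 (n 1235 (n 0 z (n 0 z (n 0 z (n 0 z (n 0
 z (n 0 z (n 0 z (n 0 z z)))))))) (n 1235 (n 0 z (n 2 (n 0 z (n 2 (n 0 z (n 0 z (n 0 z (n 0 z (n
 0 z (n 0 z z)))))) (n 2 (n 0 z (n 0 z (n 0 z (n 0 z (n 0 z (n 0 z z)))))) (n 2 (n 0 z (n 0 z (n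
 0 z (n 0 z (n 0 z (n 0 z z)))))) (n 2 (n 0 z (n 0 z (n 0 z (n 0 z (n 0 z (n 0 z z)))))) (n 2 (n
 0 z (n 0 z (n 0 z (n 0 z (n 0 z (n 0 z z)))))) z)))))) (n 0 z (n 0 z (n 0 z (n 0 z (n 0 z (n 0
 z z)))))))) (n 1235 (n 0 z (n 0 z (n 0 z (n 2 (n 2 (n 0 z (n 0 z (n 0 z (n 0 z (n 0 z (n 0 z
 z)))))) (n 2 (n 0 z (n 0 z (n 0 z (n 0 z (n 0 z (n 0 z z)))))) (n 2 (n 0 z (n 0 z (n 0 z (n 0 z
 (n 0 z (n 0 z z)))))) (n 2 (n 0 z (n 0 z (n 0 z (n 0 z (n 0 z (n 0 z z)))))) (n 2 (n 0 z (n 0 z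
 (n 0 z (n 0 z (n 0 z (n 0 z z)))))) z))))) (n 0 z (n 0 z (n 0 z (n 0 z z)))))))) (n 233 (n 0 z
 (n 0 z (n 0 z (n 0 z (n 0 z (n 0 z (n 0 z (n 0 z (n 0 z (n 0 z (n 0 z (n 0 z (n 0 z (n 2 (n 0 z
 (n 0 z (n 2 (n 0 z (n 0 z (n 0 z (n 0 z (n 0 z (n 0 z z)))))) (n 2 (n 0 z (n 0 z (n 0 z (n 0 z
 (n 0 z (n 0 z z)))))) z)))) (n 0 z (n 0 z (n 0 z z))))))))))))))))) (n 233 (n 0 z (n 2 (n 0 z
 (n 2 (n 0 z (n 0 z (n 0 z (n 0 z (n 0 z (n 0 z z)))))) (n 2 (n 0 z (n 0 z (n 0 z (n 0 z (n 0 z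
 (n 0 z z)))))) z))) (n 0 z (n 0 z (n 0 z (n 0 z (n 0 z (n 0 z (n 0 z (n 0 z (n 0 z (n 0 z (n 0
 z (n 0 z (n 0 z (n 0 z (n 0 z z))))))))))))))))) (n 233 (n 0 z (n 0 z (n 0 z (n 2 (n 2 (n 0 z
 (n 0 z (n 0 z (n 0 z (n 0 z (n 0 z z)))))) (n 2 (n 0 z (n 0 z (n 0 z (n 0 z (n 0 z (n 0 z
 z)))))) z)) (n
 0x10aec80231d90049bb2003a7648058058008007f480a8037f47fd7f67ee7f88037fe8038068077f38027f880e7ff8048018047f67f07ff8028167f88007f17f98078117f37f180780e80b8088027ff7fc8008047f88028020111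
 z (n 0 z (n 0 z (n 0 z (n 0 z (n 0 z (n 0 z (n 0 z (n 0 z (n 0 z (n 0 z (n 0 z (n 0 z
 z))))))))))))))))) (n 1349 (n 2 (n 1 z z) (n 0 z (n 0 z (n 0 z z)))) (n 589 (n 0 z (n 0 z (n 0
 z (n 0 z (n 0 z (n 0 z (n 0 z (n 0 z (n 0 z (n 0 z (n 0 z (n 0 z (n 0 z (n 0 z (n 0 z (n 0 z (n
 0 z (n 0 z (n 0 z z))))))))))))))))))) z)))))))) (n 0 (n 0 z (n 0 z (n 299 (n 0 z (n 0 z (n 0 z
 (n 0 z (n 2 (n 0 z (n 0 z (n 1 z (n 1 z z)))) (n 0 z (n 0 z (n 0 z (n 0 z (n 0 z (n 0 z (n 0 z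
 (n 0 z (n 0 z (n 0 z (n 0 z (n 0 z z))))))))))))))))) (n 299 (n 0 z (n 0 z (n 0 z (n 0 z (n 0 z
 (n 0 z (n 0 z (n 0 z (n 0 z (n 0 z (n 0 z (n 0 z (n 0 z (n 0 z (n 0 z (n 0 z (n 0 z
 z))))))))))))))))) (n 299 (n 0 z (n 0 z (n 0 z (n 0 z (n 0 z (n 2 (n 1 z (n 1 z z)) (n 0 z (n 0
 z (n 0 z (n 0 z (n 0 z (n 0 z (n 0 z (n 0 z (n 0 z (n 0 z (n 0 z z))))))))))))))))) (n 929 (n 0
 z (n 0 z (n 0 z (n 0 z (n 0 z (n 0 z (n 0 z (n 0 z (n 0 z (n 0 z (n 0 z z))))))))))) (n 301 (n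
 0 z (n 0 z (n 0 z (n 0 z z)))) z))))))) (n 0 (n 0 z (n 473 (n 0 z (n 0 z (n 0 z (n 0 z (n 0 z
 (n 0 z (n 0 z (n 0 z z)))))))) (n 473 (n 0 z (n 0 z (n 2 (n 0 z (n 1 z (n 1 z z))) (n 0 z (n 0
 z (n 0 z (n 0 z (n 0 z z)))))))) (n 473 (n 0 z (n 0 z (n 0 z (n 0 z (n 0 z (n 0 z (n 0 z (n 0 z
 z)))))))) (n 809 (n 2 (n 1 z z) (n 0 z (n 0 z (n 0 z (n 0 z z))))) (n 785 (n 0 z (n 0 z (n 2 z
 (n 0 z (n 0 z (n 0 z (n 0 z (n 0 z z)))))))) z)))))) (n 0 (n 453 (n 0 z (n 0 z (n 0 z (n 0 z (n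
 0 z (n 0 z (n 0 z (n 2 (n 0 z (n 0 z (n 2 (n 0 z (n 0 z (n 0 z (n 0 z (n 0 z (n 0 z z)))))) (n
 2 (n 0 z (n 0 z (n 0 z (n 0 z (n 0 z (n 0 z z)))))) z)))) (n 0 z (n 0 z (n 0 z (n 0 z (n 0 z (n
 0 z (n 0 z (n 0 z z)))))))))))))))) (n 453 (n 0 z (n 0 z (n 0 z (n 0 z (n 0 z (n 0 z (n 0 z (n
 0 z (n 0 z (n 0 z (n 0 z (n 0 z (n 0 z (n 0 z (n 0 z (n 0 z z)))))))))))))))) (n 453 (n 0 z (n
 0 z (n 0 z (n 2 (n 2 (n 0 z (n 0 z (n 0 z (n 0 z (n 0 z (n 0 z z)))))) (n 2 (n 0 z (n 0 z (n 0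
 z (n 0 z (n 0 z (n 0 z z)))))) z)) (n 0 z (n 0 z (n 0 z (n 0 z (n 0 z (n 0 z (n 0 z (n 0 z (n 0
 z (n 0 z (n 0 z (n 0 z z)))))))))))))))) (n 809 (n 0 z (n 0 z (n 0 z (n 0 z (n 0 z (n 0 z
 z)))))) (n 781 (n 0 z (n 0 z (n 2 z (n 0 z (n 0 z z))))) z))))) (n 0 (n 0 z (n 0 z (n 3 (n 0 z
 (n 2 (n 1 z z) (n 0 z (n 0 z z)))) (n 1 (n 0 z (n 0 z (n 0 z (n 2 z (n 0 z (n 0 z (n 0 z (n 0 z
 (n 0 z (n 0 z (n 0 z (n 0 z (n 0 z z))))))))))))) z)))) (n 0 (n 0 z (n 339 (n 0 z (n 0 z (n 0 z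
 (n 0 z z)))) (n 337 (n 0 z (n 0 z (n 0 z (n 0 z (n 0 z (n 0 z (n 0 z (n 0 z (n 0 z (n 0 z (n 0
 z (n 0 z (n 0 z (n 0 z z)))))))))))))) z))) (n 0 (n 255 (n 0 z (n 0 z (n 2 (n 1 z z) (n 0 z (n
 0 z (n 0 z z)))))) (n 253 (n 0 z (n 2 z (n 0 z (n 0 z (n 0 z (n 0 z (n 0 z (n 0 z z)))))))) z))
 (n 0 (n 385 (n 0 z (n 0 z (n 0 z (n 0 z (n 0 z (n 0 z (n 0 z (n 0 z (n 0 z (n 0 z (n 0 z (n 0 z
 (n 0 z (n 0 z z)))))))))))))) z) (n 0 z z))))))))))) (n 0 (n 1 (n 2164315 z (n 2164315 z (n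
 2164315 z (n 2164315 z (n 2164315 z (n 2164315 z z)))))) (n 1 (n 3788 z (n 5447779 z (n 5540 z
 (n 5441067 z (n 3788 z (n 5379595 z z)))))) z)) (n 0 z z)))) z)))))))), by decide +kernel⟩
theorem i10406 : ∃ t, chkR KT RW t 10406 10416 = true := ⟨(n 0x1a4a19b2314cba0c74950095700 (n 0
 (n 297 (n 2 z (n 0 z (n 6426691 z (n 6426691 z (n 0 z (n 0 z (n 10 z (n 6357803 z z)))))))) (n
 249 (n 6426691 z (n 6426691 z (n 18 z (n 6426691 z (n 0 z (n 26 z (n 34 z (n 6357803 z (n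
 6357803 z z))))))))) (n 9 (n 0 z (n 6566419 z (n 0 z (n 0 z z)))) (n 3 (n 0 z (n 6566419 z (n 0
 z z))) (n 1 (n 0 z (n 6566419 z (n 0 z (n 0 z (n 0 z (n 0 z (n 0 z z))))))) (n 0 (n 0 z (n
 6635787 z (n 0 z (n 0 z (n 0 z (n 0 z z)))))) z)))))) (n 3 (n 0 (n 0 z (n 1003 (n 0 z (n 0 z (n
 0 z (n 0 z (n 0 z (n 0 z (n 2 (n 0 z (n 0 z z)) (n 0 z (n 0 z z))))))))) (n 1003 (n 0 z (n
 7749923 z (n 0 z (n 0 z (n 0 z (n 0 z (n 0 z (n 0 z (n 0 z z))))))))) (n 1003 (n 0 z (n 0 z (n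
 2 z (n 0 z (n 0 z (n 0 z (n 0 z (n 0 z (n 0 z z))))))))) z)))) (n 0 (n 1185 (n 0 z (n 0 z (n 0
 z (n 0 z (n 0 z (n 0 z z)))))) (n 1185 (n 0 z (n 0 z (n 0 z (n 0 z (n 0 z (n 0 z z)))))) (n
 1185 (n 0 z (n 0 z (n 0 z (n 0 z (n 0 z (n 0 z z)))))) z))) (n 0 (n 0 z (n 0 z z)) (n 0 (n 0 z
 z) (n 0 z z))))) (n 0 (n 0 z (n 1 (n 6566419 z (n 6566419 z (n 6566419 z (n 6566419 z (n
 6566419 z (n 6566419 z z)))))) (n 0 z z))) (n 0 z z)))) (n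
 0x2a6cd133728862343a8aa1a84d06c2ec0a13183118826cc (n 0 (n 201 (n 3282443 z z) (n 459 (n 3278363
 z (n 0 z (n 0 z z))) (n 135 (n 0 z (n 0 z (n 0 z (n 3212843 z z)))) (n 3 (n 6636323 z (n 0 z (n
 0 z (n 0 z (n 0 z (n 0 z z)))))) (n 1 (n 2 z (n 10 z (n 6636323 z (n 18 z (n 6636323 z (n
 0xca6ca620785e8618207e082082082082082082082082081f8208208208208208208208208208208208200801 z (n
 0x1c65079c91e82272081f91e7df81f7a09607a17df81e8e086089d7237a37a185f8a07df79e8207e00041 z (n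
 0x6ca6ca64078d98de7227607e17df8a78216a08a376181d91b8208a182076576672289d91f7de7a18dd8620801 z
 (n 6636323 z (n 0 z (n 0 z z))))))))))) (n 0 (n 26 z (n
 0x3463175a9618e272081f9db81e7a079e91b7e08226df9237e099e8227dd8df7a085e85e7a07206e10041 z (n 0 z
 (n 6636323 z (n
 0x1c62081e8608228207a18a07df81f85f89f8607e27e08a07e08217a18208207e08208218618207a00041 z (n
 0x4c631716a1d8235de81ea9c75e81f6deb9e72075e89aa2092091a5ea6e86e28dd95f79d71e8607610041 z (n 34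
 z (n 42 z (n 0 z (n 0 z (n 50 z (n
 0x54620716a5d8235de81ea9d71d7df6deb9e72175e89aa219208d95ab6a87228de95f79d71e85f7610041 z (n 0 z
 (n 58 z (n 66 z (n
 0x1c64181e8608228207a18a07df81f85f89f8607e27e08a07e08217a18208207e08208218618207a00041 z (n
 6636323 z (n 0 z (n
 0x4c640716a5c82259e81ea9c75e81f71eb9e72175e89aa209209195ab6e76e28dd96075d79e85f7610041 z (n 0 z
 z)))))))))))))))))))) z)))))) (n 201 (n 0 (n 0 z (n 0 z (n 145 (n 0 z (n 0 z (n 0 z (n 0 z (n 0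
 z (n 0 z (n 0 z (n 0 z (n 0 z (n 0 z (n 0 z (n 0 z z)))))))))))) (n 145 (n 0 z (n 2 (n 0 z (n 0
 z (n 0 z (n 0 z z)))) (n 0 z (n 0 z (n 0 z (n 0 z (n 0 z (n 0 z (n 0 z (n 0 z (n 0 z (n 0 z
 z)))))))))))) (n 145 (n 0 z (n 0 z (n 0 z (n 0 z (n 0 z (n 2 (n 0 z (n 0 z (n 0 z z))) (n 0 z
 (n 0 z (n 0 z (n 0 z (n 0 z (n 0 z z)))))))))))) (n 145 (n 2 (n 0 z (n 0 z z)) (n 0 z (n 0 z (n
 0 z (n 0 z (n 0 z (n 0 z (n 0 z (n 0 z (n 0 z (n 0 z (n 0 z z)))))))))))) (n 145 (n 0 z (n 0 z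
 (n 0 z (n 0 z (n 0 z (n 0 z (n 0 z (n 0 z (n 0 z (n 0 z (n 0 z (n 7754267 z z)))))))))))) (n
 145 (n 0 z (n 0 z (n 0 z (n 0 z (n 0 z (n 0 z (n 0 z (n 0 z (n 0 z (n 0 z (n 0 z (n 0 z
 z)))))))))))) z)))))))) (n 0 (n 0 z (n 25 (n 0 z (n 0 z (n 0 z (n 0 z (n 0 z (n 0 z (n 0 z (n 0
 z z)))))))) (n 25 (n 0 z (n 0 z (n 0 z (n 0 z (n 0 z (n 0 z (n 0 z (n 0 z z)))))))) (n 25 (n 0
 z (n 0 z (n 0 z (n 0 z (n 0 z (n 0 z (n 0 z (n 0 z z)))))))) (n 25 (n 0 z (n 0 z (n 0 z (n 0 z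
 (n 0 z (n 0 z (n 0 z (n 0 z z)))))))) (n 25 (n 0 z (n 0 z (n 0 z (n 0 z (n 0 z (n 0 z (n 2 (n 0
 z z) (n 0 z z)))))))) (n 25 (n 2 z (n 0 z (n 0 z (n 0 z (n 0 z (n 0 z (n 0 z (n 0 z z))))))))
 z))))))) (n 0 (n 25 (n 0 z (n 0 z (n 0 z (n 0 z (n 0 z (n 0 z (n 0 z (n 0 z (n 0 z (n 0 z (n 0
 z (n 0 z (n 0 z (n 0 z (n 0 z (n 0 z (n 0 z (n 0 z (n 0 z (n 0 z (n 0 z (n 0 z (n 0 z
 z))))))))))))))))))))))) (n 25 (n 0 z (n 0 z (n 0 z (n 0 z (n 0 z (n 0 z (n 0 z (n 0 z (n 0 z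
 (n 0 z (n 0 z (n 0 z (n 0 z (n 0 z (n 0 z (n 0 z (n 0 z (n 0 z (n 0 z (n 0 z (n 0 z (n 0 z (n 0
 z z))))))))))))))))))))))) (n 25 (n 0 z (n 0 z (n 0 z (n 0 z (n 0 z (n 0 z (n 0 z (n 0 z (n 0 z
 (n 0 z (n 0 z (n 0 z (n 2 (n 0 z (n 0 z (n 0 z z))) (n 0 z (n 0 z (n 0 z (n 0 z (n 0 z (n 0 z
 (n 0 z (n 0 z (n 0 z (n 0 z z))))))))))))))))))))))) (n 25 (n 0 z (n 0 z (n 0 z (n 0 z (n 0 z
 (n 0 z (n 0 z (n 0 z (n 0 z (n 0 z (n 0 z (n 0 z (n 0 z (n 0 z (n 0 z (n 0 z (n 0 z (n 0 z (n 0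
 z (n 0 z (n 0 z (n 0 z (n 0 z z))))))))))))))))))))))) (n 25 (n 0 z (n 0 z (n 0 z (n 0 z (n 0 z
 (n 0 z (n 0 z (n 0 z (n 0 z (n 0 z (n 0 z (n 0 z (n 0 z (n 0 z (n 0 z (n 0 z (n 0 z (n 0 z (n 0
 z (n 0 z (n 0 z (n 0 z (n 0 z z))))))))))))))))))))))) (n 25 (n 2 z (n 0 z (n 0 z (n 0 z (n 0 z
 (n 0 z (n 0 z (n 0 z (n 0 z (n 0 z (n 0 z (n 0 z (n 0 z (n 0 z (n 0 z (n 0 z (n 0 z (n 0 z (n 0
 z (n 0 z (n 0 z (n 0 z (n 0 z z))))))))))))))))))))))) z)))))) (n 0 (n 0 z (n 0 z (n 0 z (n 0 z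
 (n 0 z z))))) (n 0 (n 0 z (n 0 z (n 0 z (n 0 z z)))) (n 0 (n 0 z (n 0 z (n 0 z z))) (n 0 (n 0 z
 (n 0 z z)) (n 0 (n 0 z z) (n 0 z z))))))))) (n 0 (n 1 (n 3282443 z (n 3282443 z (n 3282443 z (n
 3282443 z (n 3282443 z (n 3282443 z z)))))) z) (n 0 z z)))) (n
 0xb4b941374a452e434171960c6e121a4ca1622e08d1b4388da4426d2c0 (n 0xda5c (n 447 (n 2 z (n 0 z (n 0
 z (n 0 z (n 6623267 z (n 6623267 z z)))))) (n 435 (n 10 z (n 0 z (n 6623267 z (n 6623267 z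
 z)))) (n 433 (n 18 z (n 26 z (n 6627595 z (n 34 z (n 0 z (n 0 z (n 42 z z))))))) (n 3 (n 50 z
 (n 58 z (n 2164283 z (n 0 z (n 0 z z))))) (n 1 (n 0 z (n 66 z (n 6557779 z z))) (n 0 (n 6623267
 z (n 74 z (n 0 z (n
 0x1ac84c842037d680a8047fe7d581981c80e7e97f18337e87f77e483d7ad80981b81280383b8117e97ef7fa8017ce8438117eb7fe8667c87e57d87e88587cb7e781279885a7d482f7d97f97fd81380b8030811
 z (n
 0x3cc84c842077fe86780379884e7ce8267ac8617e27ee7b382c7f38097e681080180a8208018077df8147fe7d88667da75d7cf8417b47f57e480b8437f080a7a48088537d38108027f58447d77c18427f60811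
 z (n 0 z (n 6627595 z (n
 0xc84c842037fe8017ff8008017ff8017ff8018008028008007fd8027ff8028008018008018007ff8008008017fe8008008017ff8008008008008018008017ff8007fe8018008008007ff8008008008010811
 z (n 82 z (n 6623267 z z)))))))))) z)))))) (n 1 (n 0 (n 91 (n 0 z (n 0 z (n 0 z (n 0 z (n 0 z
 (n 0 z (n 0 z (n 0 z (n 0 z (n 0 z (n 0 z (n 0 z (n 0 z (n 0 z z)))))))))))))) (n 203 (n 0 z (n
 0 z (n 0 z (n 0 z (n 0 z (n 0 z (n 0 z (n 0 z (n 0 z (n 0 z (n 0 z (n 0 z z)))))))))))) (n 203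
 (n 0 z (n 0 z (n 0 z (n 0 z (n 0 z (n 0 z (n 0 z (n 0 z (n 0 z (n 0 z (n 0 z (n 2 (n 0 z (n 0 z
 (n 2 (n 0 z (n 0 z (n 0 z (n 0 z (n 0 z (n 0 (n 8868875 z z) z)))))) (n 2 (n 0 z (n 0 z (n 0 z
 (n 0 z (n 0 z (n 0 (n 8802627 z z) z)))))) (n 2 (n 0 z (n 0 z (n 0 z (n 0 z (n 0 z (n 0 (n
 3283051 z z) z)))))) (n 2 (n 0 z (n 0 z (n 0 (n 1924 z z) (n 0 (n 1924 z z) (n 0 z (n 0 (n 1924
 z (n 1924 z z)) z)))))) (n 2 (n 0 z (n 0 z (n 0 z (n 0 z (n 0 z (n 0 (n 8802627 z z) z))))))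
 z))))))) z)))))))))))) (n 203 (n 0 z (n 0 z (n 0 z (n 0 z (n 0 z (n 0 z (n 0 z (n 0 z (n 0 z (n
 0 z (n 0 z (n 0 z z)))))))))))) (n 203 (n 2 (n 2 (n 0 z (n 0 z (n 0 z (n 0 z (n 0 z (n 0 (n 348
 z z) z)))))) (n 2 (n 0 z (n 0 z (n 0 z (n 0 z (n 0 z (n 0 (n 8802627 z z) z)))))) (n 2 (n 0 z
 (n 0 z (n 0 z (n 0 z (n 0 z (n 0 (n 3283051 z z) z)))))) (n 2 (n 0 z (n 0 (n 8873019 z z) (n 0
 (n 8873019 z z) (n 0 z (n 0 z (n 0 (n 8865307 z (n 8865307 z z)) z)))))) (n 2 (n 0 z (n 0 z (n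
 0 z (n 0 z (n 0 z (n 0 (n 8802627 z z) z)))))) z))))) (n 0 z (n 0 z (n 0 z (n 0 z (n 0 z (n 0 z
 (n 0 z (n 0 z (n 0 z (n 0 z (n 0 z z)))))))))))) (n 87 (n 0 z (n 0 z (n 0 z (n 2 (n 0 z (n 1 z
 (n 1 z (n 1 z z)))) (n 0 z (n 0 z (n 0 z (n 0 z (n 0 z (n 0 z z)))))))))) (n 87 (n 0 z (n 0 z
 (n 0 z (n 0 z (n 0 z (n 0 z (n 0 z (n 0 z (n 0 z (n 0 z z)))))))))) (n 85 (n 0 z (n 0 z (n 0 z
 (n 0 z (n 0 z (n 0 z (n 0 z (n 0 z (n 0 z (n 0 z (n 0 z z))))))))))) (n 481 (n 0 z (n 0 z (n 0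
 z (n 0 z (n 0 z (n 0 z (n 0 z (n 0 z (n 0 z z))))))))) (n 481 (n 0 z (n 0 z (n 0 z (n 0 z (n 0
 z (n 0 z (n 0 z (n 0 z (n 0 z z))))))))) z)))))))))) (n 0 (n 867 (n 0 z (n 0 z (n 0 z (n 0 z (n
 0 z (n 0 z (n 0 z z))))))) (n 867 (n 2 (n 0 z (n 0 z (n 2 (n 0 z (n 0 z (n 0 z (n 0 z (n 0 z (n
 0 z z)))))) (n 2 (n 0 z (n 0 z (n 0 z (n 0 z (n 0 z (n 0 (n 8802627 z z) z)))))) (n 2 (n 0 z (n
 0 z (n 0 z (n 0 z (n 0 z (n 0 (n 3278955 z z) z)))))) (n 2 (n 0 z (n 0 (n 3476 z z) (n 0 (n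
 3476 z z) (n 0 z (n 0 z (n 0 (n 3476 z (n 3476 z z)) z)))))) (n 2 (n 0 z (n 0 z (n 0 z (n 0 z
 (n 0 z (n 0 (n 8802627 z z) z)))))) z))))))) (n 0 z (n 0 z (n 0 z (n 0 z (n 0 z (n 0 z z)))))))
 (n 867 (n 0 z (n 0 z (n 2 (n 0 z (n 2 (n 0 z (n 0 z (n 0 z (n 0 z (n 0 z (n 0 z z)))))) (n 2 (n
 0 z (n 0 z (n 0 z (n 0 z (n 0 z (n 0 (n 8802627 z z) z)))))) (n 2 (n 0 z (n 0 z (n 0 z (n 0 z
 (n 0 z (n 0 (n 3278955 z z) z)))))) (n 2 (n 0 z (n 0 z (n 0 (n 3476 z z) (n 0 z (n 0 z (n 0 (n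
 3476 z (n 3476 z z)) z)))))) (n 1 z z)))))) (n 0 z (n 0 z (n 0 z (n 0 z z))))))) (n 867 (n 0 z
 (n 0 z (n 0 z (n 0 z (n 2 (n 2 (n 0 z (n 0 z (n 0 z (n 0 z (n 0 z (n 0 z z)))))) (n 2 (n 0 z (n
 0 z (n 0 z (n 0 z (n 0 z (n 0 z z)))))) (n 2 (n 0 z (n 0 z (n 0 z (n 0 z (n 0 z (n 0 z z))))))
 (n 2 (n 0 z (n 0 (n 8873019 z z) (n 0 z (n 0 (n 8873019 z z) (n 0 z (n 0 (n 8865307 z (n
 8865307 z z)) z)))))) (n 2 (n 0 z (n 0 z (n 0 z (n 0 z (n 0 z (n 0 z z)))))) z))))) (n 0 z (n 0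
 z z))))))) (n 327 (n 0 z (n 0 z (n 2 (n 0 z (n 1 z (n 1 z (n 1 z z)))) (n 0 z (n 0 z (n 0 z (n
 0 z z))))))) (n 327 (n 0 z (n 0 z (n 0 z (n 0 z (n 0 z (n 0 z (n 0 z z))))))) (n 325 (n 0 z (n
 0 z (n 0 z (n 0 z (n 0 z (n 0 z z)))))) (n 869 (n 0 z (n 0 z (n 0 z (n 0 z (n 0 z (n 0 z (n 0 z
 (n 0 z z)))))))) (n 869 (n 0 z (n 0 z (n 0 z (n 0 z (n 0 z (n 0 z (n 0 z (n 0 z z))))))))
 z))))))))) (n 0 (n 0 z (n 0 z (n 0 z (n 247 (n 0 z (n 0 z (n 0 z (n 0 z (n 0 z (n 0 z (n 0 z (n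
 0 z (n 0 z (n 0 z (n 0 z (n 0 z (n 0 z (n 0 z (n 0 z (n 0 z (n 0 z (n 0 z (n 0 z (n 0 z (n 0 z
 z))))))))))))))))))))) (n 247 (n 0 z (n 0 z (n 0 z (n 0 z (n 0 z (n 0 z (n 0 z (n 0 z (n 0 z (n
 0 z (n 0 z (n 0 z (n 0 z (n 0 z (n 0 z (n 0 z (n 0 z (n 0 z (n 0 z (n 0 z (n 0 z
 z))))))))))))))))))))) (n 15 (n 0 z (n 0 z (n 0 z (n 0 z (n 0 z z))))) (n 865 (n 0 z (n 0 z (n
 0 z (n 0 z (n 0 z (n 0 z (n 0 z (n 0 z (n 0 z (n 0 z z)))))))))) (n 865 (n 0 z (n 0 z (n 0 z (n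
 0 z (n 0 z (n 0 z (n 0 z (n 0 z (n 0 z (n 0 z z)))))))))) z)))))))) (n 0 (n 0 z (n 0 z (n 7 (n
 0 z (n 0 z (n 0 z (n 0 z (n 0 z (n 0 z (n 0 z (n 0 z (n 0 z (n 0 z (n 0 z (n 0 z (n 0 z (n 0 z
 (n 0 z z))))))))))))))) (n 7 (n 0 z (n 0 z (n 0 z (n 0 z (n 0 z (n 0 z (n 0 z (n 0 z (n 0 z (n
 0 z (n 0 z (n 0 z (n 0 z (n 0 z (n 0 z z))))))))))))))) (n 15 (n 0 z (n 0 z (n 0 z (n 0 z (n 0
 z (n 0 z (n 0 z z))))))) (n 869 (n 0 z (n 0 z (n 0 z (n 0 z (n 0 z (n 0 z (n 0 z (n 0 z (n 0 z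
 (n 0 z (n 0 z (n 0 z (n 0 z (n 0 z (n 0 z (n 0 z (n 0 z (n 0 z (n 0 z (n 0 z (n 0 z (n 0 z (n 0
 z (n 0 z (n 2 (n 0 z z) (n 0 z (n 0 z (n 0 z (n 0 z z))))))))))))))))))))))))))))) (n 869 (n 0
 z (n 0 z (n 0 z (n 0 z (n 0 z (n 0 z (n 0 z (n 0 z (n 0 z (n 0 z (n 0 z (n 0 z (n 0 z (n 0 z (n
 0 z (n 0 z (n 0 z (n 0 z (n 0 z (n 0 z (n 0 z (n 0 z (n 0 z (n 0 z (n 0 z (n 0 z (n 0 z (n 0 z
 (n 0 z z))))))))))))))))))))))))))))) z))))))) (n 0 (n 0 z (n 1065 (n 0 z (n 0 z (n 0 z (n 0 z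
 (n 0 z (n 0 z (n 0 z (n 0 z (n 0 z (n 0 z (n 0 z (n 0 z (n 0 z (n 2 (n 0 z (n 2 (n 0 z (n 0 z
 (n 0 z (n 0 z (n 0 z (n 0 z z)))))) (n 2 (n 0 z (n 0 z (n 0 z (n 0 z (n 0 z (n 0 z z)))))) (n 2
 (n 0 z (n 0 z (n 0 z (n 0 z (n 0 z (n 0 z z)))))) z)))) (n 0 z (n 0 z (n 0 z (n 0 z (n 0 z (n 0
 z (n 0 z z))))))))))))))))))))) (n 1065 (n 0 z (n 0 z (n 0 z (n 0 z (n 0 z (n 2 (n 2 (n 0 z (n
 0 z (n 0 z (n 0 z (n 0 z (n 0 z z)))))) (n 2 (n 0 (n 4516 z z) (n 0 z (n 0 z (n 0 z (n 0 (n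
 4516 z z) (n 0 (n 4516 z (n 4516 z z)) z)))))) (n 2 (n 0 z (n 0 z (n 0 z (n 0 z (n 0 z (n 0 z
 z)))))) z))) (n 0 z (n 0 z (n 0 z (n 0 z (n 0 z (n 0 z (n 0 z (n 0 z (n 0 z (n 0 z (n 0 z (n 0
 z (n 0 z (n 0 z (n 0 z z))))))))))))))))))))) (n 15 (n 0 z (n 0 z z)) (n 1129 (n 0 z (n 0 z (n
 0 z (n 0 z (n 0 z (n 0 z (n 0 z (n 0 z (n 0 z (n 0 z (n 0 z (n 0 z (n 0 z (n 0 z (n 0 z (n 0 z
 z)))))))))))))))) (n 1129 (n 0 z (n 0 z (n 0 z (n 0 z (n 0 z (n 0 z (n 0 z (n 0 z (n 0 z (n 0 z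
 (n 0 z (n 0 z (n 0 z (n 0 z (n 0 z (n 0 z z)))))))))))))))) z)))))) (n 0 (n 627 (n 0 z (n 2 (n
 0 z (n 2 (n 0 z (n 0 z (n 0 z (n 0 z (n 0 z (n 0 z z)))))) (n 2 (n 0 z (n 0 z (n 0 z (n 0 z (n
 0 z (n 0 z z)))))) (n 2 (n 0 z (n 0 z (n 0 z (n 0 z (n 0 z (n 0 z z)))))) z)))) (n 0 z (n 0 z
 (n 0 z (n 0 z (n 0 z (n 0 z (n 0 z (n 0 z (n 0 z z))))))))))) (n 627 (n 2 (n 2 (n 0 z (n 0 z (n
 0 z (n 0 z (n 0 z (n 0 z z)))))) (n 2 (n 0 z (n 0 z (n 0 z (n 0 z (n 0 z (n 0 z z)))))) (n 2 (n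
 0 z (n 0 z (n 0 z (n 0 z (n 0 z (n 0 z z)))))) z))) (n 0 z (n 0 z (n 0 z (n 0 z (n 0 z (n 0 z
 (n 0 z (n 0 z (n 0 z (n 0 z z))))))))))) (n 579 (n 2 (n 2 (n 0 z (n 0 z (n 0 z (n 0 z (n 0 z (n
 0 z z)))))) (n 2 (n 0 z (n 0 z (n 0 z (n 0 z (n 0 z (n 0 z z)))))) z)) (n 0 z (n 0 z (n 0 z (n
 0 z (n 0 z z)))))) (n 601 (n 0 z (n 0 z (n 0 z (n 0 z (n 0 z (n 0 z (n 0 z (n 0 z (n 0 z (n 2
 (n 0 z z) z)))))))))) (n 601 (n 0 z (n 0 z (n 2 z (n 0 z (n 0 z (n 0 z (n 0 z (n 0 z (n 0 z (n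
 0 z z)))))))))) z))))) (n 0 (n 0 z (n 853 (n 0 z (n 0 z (n 0 z (n 0 z (n 0 z (n 0 z (n 0 z (n 0
 z z)))))))) (n 1 (n 0 z (n 2 (n 0 z z) (n 0 z (n 0 z (n 0 z (n 0 z (n 0 z (n 0 z (n 0 z
 z))))))))) (n 1 (n 0 z (n 0 z (n 0 z (n 0 z (n 0 z (n 0 z (n 0 z (n 0 z (n 0 z z))))))))) z))))
 (n 0 (n 857 (n 0 z (n 0 z (n 0 z (n 0 z (n 0 z (n 0 z (n 0 z (n 0 z z)))))))) (n 241 (n 0 z (n
 0 z (n 0 z (n 0 z (n 0 z (n 0 z (n 0 z (n 0 z (n 0 z z))))))))) (n 241 (n 0 z (n 0 z (n 0 z (n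
 0 z (n 0 z (n 0 z (n 0 z (n 0 z (n 0 z z))))))))) z))) (n 0 (n 1 (n 0 z (n 0 z (n 0 z (n 0 z (n
 0 z (n 0 z (n 0 z (n 0 z (n 0 z (n 0 z (n 0 z z))))))))))) (n 1 (n 0 z (n 0 z (n 0 z (n 0 z (n
 0 z (n 0 z (n 0 z (n 0 z (n 0 z (n 0 z (n 0 z z))))))))))) z)) (n 0 (n 0 z z) (n 0 z
 z))))))))))) (n 0 (n 0 z (n 1 (n 3580 z (n 3580 z (n 3580 z (n 3580 z (n 2 z (n 3580 z z))))))
 (n 1 (n 6557779 z (n 6557779 z (n 6557779 z (n 6557779 z (n 6557779 z (n 6557779 z z)))))) z)))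
 (n 0 (n 0x7090d2 (n 0 (n 0 (n 7754051 z (n 7754051 z (n 7754051 z (n 7754051 z (n 7754051 z (n
 7754051 z z)))))) z) (n 0 (n 447 (n 1 (n 7754051 z (n 7754051 z (n 7754051 z (n 7754051 z (n
 7754051 z (n 7754051 z z)))))) (n 0 z (n 0 z (n 0 z (n 1 (n 7671843 z (n 7671843 z (n 7671843 z
 (n 7671843 z (n 7671843 z (n 7671843 z z)))))) (n 1 (n 7671843 z (n 7671843 z (n 7671843 z (n
 7671843 z (n 7671843 z (n 7671843 z z)))))) z)))))) (n 435 (n 1 (n 7754051 z (n 7754051 z (n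
 7754051 z (n 7754051 z (n 7754051 z (n 7754051 z z)))))) (n 0 z (n 1 (n 7671843 z (n 7671843 z
 (n 7671843 z (n 7671843 z (n 7671843 z (n 7671843 z z)))))) (n 1 (n 7671843 z (n 7671843 z (n
 7671843 z (n 7671843 z (n 7671843 z (n 7671843 z z)))))) z)))) (n 7 (n 1 (n 7676171 z (n
 5509235 z (n 7676171 z (n 7676171 z (n 7754051 z (n 7676171 z z)))))) (n 1 (n 2780 z (n 2780 z
 (n 2780 z (n 2780 z (n 7754051 z (n 2780 z z)))))) (n 1 (n 2 z (n 2780 z (n 2780 z (n 2780 z (n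
 7754051 z (n 2780 z z)))))) (n 1 (n 7606355 z (n 7606355 z (n 7606355 z (n 7606355 z (n 7754051
 z (n 7606355 z z)))))) (n 0 z z))))) (n 3 (n 1 (n 1036 z (n 3436 z (n 3436 z (n 3436 z (n 3436
 z (n 3436 z z)))))) (n 1 (n 7754051 z (n 7754051 z (n 7754051 z (n 7754051 z (n 7754051 z (n
 7754051 z z)))))) (n 1 (n 2164539 z (n 2164539 z (n 2164539 z (n 2164539 z (n 2164539 z (n
 2164539 z z)))))) (n 0 z (n 0 z z))))) (n 1 (n 0 z (n 1 (n 2164587 z (n 2164587 z (n 2164587 z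
 (n 2164587 z (n 2164587 z (n 2164587 z z)))))) (n 1 (n 7606355 z (n 7606355 z (n 7606355 z (n
 7606355 z (n 7606355 z (n 7606355 z z)))))) z))) (n 435 (n 1 (n 7671843 z (n 7671843 z (n
 7671843 z (n 7671843 z (n 7671843 z (n 7671843 z z)))))) (n 1 (n 7671843 z (n 7671843 z (n
 7671843 z (n 7671843 z (n 7671843 z (n 7671843 z z)))))) (n 1 (n 7671843 z (n 7671843 z (n
 7671843 z (n 7671843 z (n 7671843 z (n 7671843 z z)))))) (n 1 (n 2764 z (n 2764 z (n 2764 z (n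
 2764 z (n 2764 z (n 7676171 z z)))))) (n 1 (n 7754051 z (n 7754051 z (n 7754051 z (n 7754051 z
 (n 7754051 z (n 7754051 z z)))))) (n 1 (n 2764 z (n 2764 z (n 2764 z (n 2764 z (n 6496627 z (n
 7676171 z z)))))) (n 1 (n 7676171 z (n 2764 z (n 2764 z (n 2764 z (n 2764 z (n 2764 z z))))))
 (n 1 (n 2764 z (n 2764 z (n 2764 z (n 2764 z (n 2764 z (n 7676171 z z)))))) z)))))))) (n 1 (n 0
 z (n 1 (n 2164587 z (n 2164587 z (n 2164587 z (n 2164587 z (n 7754051 z (n 2164587 z z)))))) (n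
 1 (n 7606355 z (n 7606355 z (n 7606355 z (n 7606355 z (n 7754051 z (n 7606355 z z)))))) z)))
 z))))))) (n 0 (n 0 (n 0 z z) z) (n 0 (n 165 (n 0 (n 0 z z) (n 0 (n 0 z z) (n 0 (n 0 z z) (n 0
 (n 0 z z) (n 0 (n 0 z z) (n 0 (n 0 z z) (n 0 (n 0 z z) (n 0 (n 0 z z) (n 0 (n 0 z z) (n 0 (n 0
 z z) (n 0 (n 0 z z) (n 0 (n 0 z z) (n 0 (n 0 z z) (n 0 (n 0 z z) z)))))))))))))) (n 347 (n 0 (n
 0 z z) (n 0 (n 0 z z) (n 0 (n 0 z z) (n 0 (n 0 z z) (n 0 (n 0 z z) (n 0 (n 0 z z) (n 0 (n 0 z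
 z) (n 0 (n 0 z z) (n 0 (n 0 z z) (n 0 (n 0 z z) (n 0 (n 0 z z) (n 0 (n 0 z z) z)))))))))))) (n
 435 (n 0 (n 0 z z) (n 0 (n 0 z z) (n 0 (n 0 z z) (n 0 (n 0 z z) (n 0 (n 0 z z) (n 0 (n 0 z z)
 (n 0 (n 0 z z) z))))))) (n 429 (n 0 (n 0 z z) (n 0 (n 0 z z) (n 0 (n 0 z z) (n 0 (n 0 z z) (n 0
 (n 0 z z) (n 0 (n 0 z z) (n 0 (n 0 z z) (n 0 (n 0 (n 8654931 z z) z) (n 0 (n 0 z z) (n 0 (n 0 z
 z) z)))))))))) (n 427 (n 0 (n 0 z z) (n 0 (n 0 z z) (n 0 (n 0 z z) (n 0 (n 0 z z) (n 0 (n 0 z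
 z) (n 0 (n 0 z z) (n 0 (n 0 z z) z))))))) (n 129 (n 0 (n 0 z z) (n 0 (n 0 z z) (n 0 (n 0 z z)
 (n 0 (n 0 z z) (n 0 (n 0 z z) (n 0 (n 0 z z) (n 0 (n 0 z z) (n 0 (n 0 z z) (n 0 (n 0 z z) (n 0
 (n 0 z z) (n 0 (n 0 z z) (n 0 (n 0 z z) (n 0 (n 0 z z) (n 0 (n 0 z z) (n 0 (n 0 z z) (n 0 (n 0
 z z) (n 0 (n 0 z z) (n 0 (n 0 z z) (n 0 (n 0 z z) (n 0 (n 0 z z) (n 0 (n 0 z z)
 z))))))))))))))))))))) (n 549 (n 0 (n 0 z z) (n 0 (n 0 z z) (n 0 (n 0 z z) (n 0 (n 0 z z) (n 0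
 (n 0 z z) (n 0 (n 0 z z) (n 0 (n 0 z z) (n 0 (n 0 z z) (n 0 (n 0 z z) (n 0 (n 0 z z) (n 0 (n 0
 z z) z))))))))))) (n 547 (n 0 (n 0 z z) (n 0 (n 0 z z) (n 0 (n 0 z z) (n 0 (n 0 z z) (n 0 (n 0
 z z) (n 0 (n 0 z z) z)))))) (n 9 (n 0 (n 0 z z) (n 0 (n 0 z z) (n 0 (n 0 z z) (n 0 (n 0 z z) (n
 0 (n 0 z z) z))))) (n 548 (n 0 (n 0 z z) (n 0 (n 0 z z) (n 0 (n 0 z z) (n 0 (n 0 z z) (n 0 (n 0
 z z) (n 0 (n 0 z z) (n 0 (n 0 z z) (n 0 (n 0 z z) z)))))))) (n 345 (n 0 (n 0 z z) (n 0 (n 0 z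
 z) (n 0 (n 0 z z) (n 0 (n 0 z z) (n 0 (n 0 z z) (n 0 (n 0 z z) (n 0 (n 0 (n 8720419 z z) z) (n
 0 (n 0 z z) (n 0 (n 0 (n
 0xcc8767fb8197f57e78147f88107e781c7f37dc7e283e8197ff8057ef8097fc7fd7ff7fb81d7e58067ea8207ec7ee7f97fe7d67cf8398068827f98137ef82581b7e68057ea7e37fe7f98097e37fb0051
 z z) z) z))))))))) (n 435 (n 0 (n 0 (n 8720419 z z) z) (n 0 (n 0 z z) (n 0 (n 0 z z) (n 0 (n 0
 z z) (n 0 (n 0 z z) (n 0 (n 0 z z) (n 0 (n 0 z z) (n 0 (n 0 z z) z)))))))) (n 433 (n 0 (n 0 z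
 z) (n 0 (n 0 z z) (n 0 (n 0 z z) (n 0 (n 0 z z) (n 0 (n 0 z z) (n 0 (n 0 z z) (n 0 (n 0 z z) (n
 0 (n 0 z z) (n 0 (n 0 z z) (n 0 (n 0 (n 8865307 z (n 8865307 z z)) z) z)))))))))) (n 125 (n 0
 (n 0 z z) (n 0 (n 0 z z) (n 0 (n 0 z z) (n 0 (n 0 z z) (n 0 (n 0 z z) (n 0 (n 0 z z) (n 0 (n 0
 z z) (n 0 (n 0 z z) (n 0 (n 0 z z) z))))))))) (n 1 (n 0 (n 0 (n 8720419 z z) z) (n 0 (n 0 z z)
 (n 0 (n 0 z z) (n 0 (n 0 z z) (n 0 (n 0 z z) (n 0 (n 0 z z) (n 0 (n 0 z z) (n 0 (n 0 z z) (n 0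
 (n 0 z z) (n 0 (n 0 z z) (n 0 (n 0 z z) z))))))))))) (n 447 (n 0 (n 0 z z) (n 0 (n 0 z z) (n 0
 (n 0 z z) (n 0 (n 0 z z) (n 0 (n 0 z z) (n 0 (n 0 z z) z)))))) (n 435 (n 0 (n 0 z z) (n 0 (n 0
 z z) (n 0 (n 0 z z) (n 0 (n 0 z z) z)))) (n 433 (n 0 (n 0 z z) (n 0 (n 0 z z) (n 0 (n 0 z z) (n
 0 (n 0 z z) (n 0 (n 0 z z) (n 0 (n 0 z z) (n 0 (n 0 z z) z))))))) (n 3 (n 0 (n 0 z z) (n 0 (n 0
 z z) (n 0 (n 0 z z) (n 0 (n 0 z z) (n 0 (n 0 z z) z))))) (n 1 (n 0 (n 0 z z) (n 0 (n 0 z z) (n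
 0 (n 0 z z) z))) (n 0 (n 0 (n 0 z z) (n 0 (n 0 z z) (n 0 (n 0 z z) (n 0 (n 0 z z) (n 0 (n 0 z
 z) (n 0 (n 0 z z) (n 0 (n 0 z z) (n 0 (n 0 z z) (n 0 (n 0 z z) (n 0 (n 0 z z) z))))))))))
 z))))))))))))))))))))) z)))) z) z)))) (n
 0xd0b544513a1e4e50622eb1117185138c845b6602d331065988805cac0 (n 0x1988b (n 153 (n
 0x1eca4a826037ff8088077f77e68018018098077f67f280880081081f7f68028028017f27ff7fb7ff80d7fd7ec7f27fd7fe8018018047f27f980a8027eb7fe7ee8177fc8367f98007fd8068028047f18020811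
 z (n 2 z (n 6619947 z (n 10 z (n
 0x22ca6a8640380d7fa7f78177f77fc7f57e87e48037f08137fe80580481180780e7fd81b80d7fe7f881e7f78217cb7ec7f57fb7f17e880e7ad81880e80c7f77de80b7c28387d980b8378288127d58078260811
 z (n
 0xaca8ca86078017f08057f57da8137f78107e580a7fb8127ff7fe7f57f180f80181180e81a7fa8088038068037e87ff8017fc7f47ea80c7d58097f481f8007f77f180a81b7f47ff8097f18087fb8188020811
 z (n 6496339 z (n 6496339 z z)))))))) (n 33 (n 18 z (n 0 z (n 6496515 z z))) (n 9 (n 0 z (n 26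
 z (n 0 z (n 0 z (n 0 z (n 0 z (n 6496339 z (n 6496515 z (n 0 z z))))))))) (n 147 (n 34 z (n 0 z
 (n 6496339 z (n 6496515 z z)))) (n 1 (n 2164299 z (n 42 z (n 50 z (n 0 z (n 0 z z))))) (n 0 (n
 58 z (n 0 z (n 6623755 z (n 0 z (n 66 z (n 74 z (n 0 z (n 0 z (n 82 z z))))))))) z)))))) (n 33
 (n 0 (n 0 z (n 1247 (n 0 z (n 0 z (n 0 z (n 0 z (n 0 z (n 0 z (n 0 z (n 0 z (n 0 z (n 0 z (n 0
 z (n 0 z (n 0 z (n 0 z (n 0 z (n 0 z (n 0 z z))))))))))))))))) (n 1239 (n 0 z (n 0 z (n 0 z (n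
 0 z (n 0 z (n 0 z (n 0 z (n 0 z (n 0 z (n 0 z (n 0 z (n 0 z (n 0 z z))))))))))))) (n 1237 (n 0
 z (n 0 z (n 0 z (n 0 z z)))) (n 303 (n 0 z (n 0 z (n 0 z (n 2 (n 0 z (n 2 (n 0 z (n 0 (n 1220 z
 z) (n 0 z (n 0 (n 1220 z z) (n 0 (n 1220 z (n 7739435 z z)) (n 0 z z)))))) (n 2 (n 0 z (n 0 z
 (n 0 z (n 0 z (n 0 z (n 0 z z)))))) (n 2 (n 0 z (n 0 z (n 0 z (n 0 z (n 0 z (n 0 z z)))))) (n 2
 (n 0 z (n 0 z (n 0 z (n 0 z (n 0 z (n 0 z z)))))) z))))) (n 0 z (n 0 z (n 0 z z))))))) (n 303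
 (n 0 z (n 0 z (n 0 z (n 0 z (n 0 z (n 0 z (n 0 z z))))))) (n 305 (n 0 z (n 0 z (n 0 z (n 0 z (n
 0 z (n 0 z (n 0 z (n 0 z (n
 0x99d8dd8c806032ea6c864077cf8547e97da84d7dd87182786d7db8507ae7cf7c48157ef7f77cb7fa7c07e28387b97b97d680486b89b7fd78f8e88377fb93e78183679b86e8a57b380d73086183d77379478b8168257881011
 z (n 0 z (n 0 z (n 0 z (n 0 z (n 0 z (n 0 z (n 0 z z)))))))))))))))) (n 305 (n 0 z (n 0 z (n 0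
 z (n 0 z (n 0 z (n 0 z (n 0 z (n 0 z (n 0 z (n 0 z (n 0 z (n 0 z (n 0 z (n 0 z (n 2 (n 0 z (n 0
 z z)) (n 0 z z)))))))))))))))) (n 305 (n 0 z (n 0 z (n 0 z (n 0 z (n 2 (n 0 z z) (n 0 z (n 0 z
 (n 0 z (n 0 z (n 0 z (n 0 z (n 0 z (n 0 z (n 0 z (n 0 z (n 0 z z)))))))))))))))) (n 305 (n 0 z
 (n 0 z (n 0 z (n 0 z (n 0 z (n 0 z (n 0 z (n 0 z (n 0 z (n 0 z (n 0 z (n 0 z (n 0 z (n 0 z (n 0
 z (n 0 z z)))))))))))))))) z)))))))))) (n 0 (n 1003 (n 0 z (n 0 z (n 0 z (n 0 z (n 0 z (n 0 z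
 (n 0 z (n 0 z z)))))))) (n 155 (n 0 z (n 0 z (n 0 z (n 0 z (n 0 z (n 0 z (n 0 z (n 0 z
 z)))))))) (n 247 (n 0 z (n 0 z (n 0 z (n 0 z (n 0 z (n 0 z (n 0 z (n 0 z (n 0 z (n 0 z (n 0 z
 z))))))))))) (n 291 (n 0 z (n 0 z (n 0 z (n 0 z (n 0 z (n 0 z (n 0 z (n 0 z (n 0 z (n 0 z (n 0
 z z))))))))))) (n 291 (n 0 z (n 0 z (n 0 z (n 0 z (n 0 z (n 0 z (n 0 z (n 0 z (n 0 z (n 0 z (n
 0 z z))))))))))) (n 289 (n 0 z (n 0 z (n 0 z (n 0 z (n 0 z (n 0 z (n 0 z (n 0 z (n 0 z (n 0 z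
 (n 0 z (n 0 z (n 0 z z))))))))))))) (n 289 (n 0 z (n 0 z (n 0 z (n 0 z (n 2 (n 0 z (n 0 z z))
 (n 0 z (n 0 z (n 0 z (n 0 z (n 0 z (n 0 z (n 0 z (n 0 z z))))))))))))) (n 289 (n 0 z (n 0 z (n
 0 z (n 0 z (n 0 z (n 0 z (n 0 z (n 0 z (n 0 z (n 0 z (n 0 z (n 0 z (n 0 z z))))))))))))) (n 289
 (n 0 z (n 0 z (n 0 z (n 0 z (n 0 z (n 0 z (n 0 z (n 0 z (n 0 z (n 0 z (n 0 z (n 0 z (n 0 z
 z))))))))))))) z))))))))) (n 0 (n 1047 (n 0 z (n 0 z (n 0 z (n 0 z (n 0 z (n 0 z (n 0 z (n 0 z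
 (n 0 z (n 0 z z)))))))))) (n 1049 (n 0 z (n 0 z (n 0 z (n 0 z (n 0 z (n 0 z (n 0 z (n 0 z (n 0
 z z))))))))) (n 63 (n 0 z (n 0 z (n 0 z (n 0 z (n 0 z (n 0 z (n 0 z z))))))) (n 63 (n 0 z (n 0
 z (n 0 z (n 0 z (n 0 z (n 0 z (n 0 z z))))))) (n 61 (n 0 z (n 0 z (n 0 z (n 0 z (n 0 z (n 0 z
 (n 0 z z))))))) (n 61 (n 0 z (n 0 z (n 0 z (n 0 z (n 2 (n 0 z (n 0 z z)) (n 0 z (n 0 z z)))))))
 (n 61 (n 0 z (n 0 z (n 0 z (n 0 z (n 0 z (n 0 z (n 0 z z))))))) (n 61 (n 0 z (n 0 z (n 0 z (n 0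
 z (n 0 z (n 0 z (n 0 z z))))))) z)))))))) (n 0 (n 555 (n 0 z (n 0 z (n 0 z (n 0 z (n 0 z (n 0 z
 (n 0 z (n 0 z (n 0 z (n 0 z z)))))))))) (n 15 (n 0 z (n 2 (n 0 z (n 1 z (n 1 z (n 2 (n 0 z (n 0
 z (n 0 z (n 0 z (n 0 z (n 0 z z)))))) (n 2 (n 0 z (n 0 z (n 0 z (n 0 z (n 0 z (n 0 z z))))))
 z))))) (n 0 z (n 0 z (n 0 z (n 0 z z)))))) (n 15 (n 0 z (n 0 z (n 0 z (n 0 z (n 0 z (n 0 z
 z)))))) (n 13 (n 0 z (n 0 z (n 0 z (n 0 z (n 0 z (n 0 z (n 0 z (n 0 z (n 0 z (n 0 z (n 0 z (n 0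
 z (n 0 z z))))))))))))) (n 13 (n 0 z (n 0 z (n 0 z (n 0 z (n 0 z (n 0 z (n 2 (n 0 z (n 0 z z))
 (n 0 z (n 0 z (n 0 z (n 0 z (n 0 z (n 0 z z))))))))))))) (n 13 (n 0 z (n 0 z (n 0 z (n 0 z (n 0
 z (n 0 z (n 0 z (n 0 z (n 0 z (n 2 (n 0 z z) (n 0 z (n 0 z (n 0 z z))))))))))))) (n 13 (n 0 z
 (n 0 z (n 0 z (n 0 z (n 0 z (n 0 z (n 0 z (n 0 z (n 0 z (n 0 z (n 0 z (n 2 z (n 0 z
 z))))))))))))) z))))))) (n 0 (n 291 (n 0 z (n 0 z (n 2 (n 0 z (n 1 z (n 1 z (n 2 (n 0 z (n 0 z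
 (n 0 z (n 0 z (n 0 (n 8848155 z z) (n 0 z z)))))) (n 2 (n 0 z (n 0 z (n 0 z (n 0 z (n 0 (n
 8718187 z z) (n 0 z z)))))) z))))) (n 0 z (n 0 z (n 0 z (n 0 z (n 0 z (n 0 z (n 0 z (n 0 z (n 0
 z (n 0 z z))))))))))))) (n 291 (n 0 z (n 0 z (n 0 z (n 0 z (n 0 z (n 0 z (n 0 z (n 0 z (n 0 z
 (n 0 z (n 0 z (n 0 z (n 0 z z))))))))))))) (n 289 (n 0 z (n 0 z (n 0 z (n 0 z (n 0 z (n 0 z (n
 0 z (n 0 z (n 0 z (n 0 z z)))))))))) (n 289 (n 0 z (n 0 z (n 2 (n 0 z (n 0 z z)) (n 0 z (n 0 z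
 (n 0 z (n 0 z (n 0 z (n 0 z (n 0 z z)))))))))) (n 289 (n 0 z (n 0 z (n 0 z (n 0 z (n 0 z (n 2
 (n 0 z z) (n 0 z (n 0 z (n 0 z (n 0 z z)))))))))) (n 289 (n 0 z (n 0 z (n 0 z (n 0 z (n 0 z (n
 0 z (n 0 z (n 0 z (n 0 z (n 0 z z)))))))))) z)))))) (n 0 (n 0 z (n 1 (n 0 z (n 0 z (n 0 z (n 0
 z (n 0 z (n 0 z (n 0 z (n 0 z (n 0 z (n 0 z (n 0 z (n 0 z (n 0 z (n 0 z (n 0 z (n 0 z (n 0 z (n
 0 z (n 0 z (n 0 z (n 0 z (n 0 z (n 0 z (n 0 z (n 0 z (n 0 z (n 0 z (n 0 z (n 0 z (n 0 z (n 0 z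
 (n 0 z (n 0 z (n 0 z (n 0 z (n 0 z (n 0 z (n 0 z (n 0 z (n 0 z (n 0 z (n 0 z (n 0 z (n 0 z (n 0
 z (n 0 z (n 0 z (n 0 z (n 0 z (n 0 z (n 0 z (n 0 z (n 0 z (n 0 z (n 0 z (n 0 z
 z)))))))))))))))))))))))))))))))))))))))))))))))))))))))) (n 1 (n 0 z (n 0 z (n 0 z (n 0 z (n 0
 z (n 0 z (n 0 z (n 0 z (n 0 z (n 0 z (n 0 z (n 0 z (n 0 z (n 0 z (n 0 z (n 0 z (n 0 z (n 0 z (n
 0 z (n 0 z (n 0 z (n 0 z (n 0 z (n 0 z (n 0 z (n 0 z (n 0 z (n 0 z (n 0 z (n 0 z (n 0 z (n 0 z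
 (n 0 z (n 0 z (n 0 z (n 0 z (n 0 z (n 0 z (n 0 z (n 0 z (n 0 z (n 0 z (n 0 z (n 0 z (n 0 z (n 0
 z (n 0 z (n 0 z (n 0 z (n 0 z (n 0 z (n 0 z (n 0 z (n 0 z (n 2 (n 0 z (n 0 z z)) (n 0 z
 z)))))))))))))))))))))))))))))))))))))))))))))))))))))))) (n 1 (n 0 z (n 0 z (n 0 z (n 0 z (n 0
 z (n 0 z (n 0 z (n 0 z (n 0 z (n 0 z (n 0 z (n 0 z (n 0 z (n 0 z (n 0 z (n 0 z (n 0 z (n 0 z (n
 0 z (n 0 z (n 0 z (n 0 z (n 0 z (n 0 z (n 0 z (n 0 z (n 0 z (n 0 z (n 0 z (n 0 z (n 0 z (n 0 z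
 (n 0 z (n 0 z (n 0 z (n 0 z (n 0 z (n 0 z (n 0 z (n 0 z (n 0 z (n 0 z (n 0 z (n 0 z (n 0 z (n 0
 z (n 0 z (n 0 z (n 0 z (n 0 z (n 0 z (n 0 z (n 0 z (n 0 z (n 0 z (n 0 z
 z)))))))))))))))))))))))))))))))))))))))))))))))))))))))) (n 1 (n 0 z (n 0 z (n 0 z (n 0 z (n 0
 z (n 0 z (n 0 z (n 0 z (n 0 z (n 0 z (n 0 z (n 0 z (n 0 z (n 0 z (n 0 z (n 0 z (n 0 z (n 0 z (n
 0 z (n 0 z (n 0 z (n 0 z (n 0 z (n 0 z (n 0 z (n 0 z (n 0 z (n 0 z (n 0 z (n 0 z (n 0 z (n 0 z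
 (n 0 z (n 0 z (n 0 z (n 0 z (n 0 z (n
 0x2ea6c864038018008007ff8018007fe8017ff8007ff8017ff8007ff8008018008007fe8018008008008008008007ff8007ff8018008007ff8008008008017ff8018008008007ff8008018007fe8008000811
 z (n 0 z (n 0 z (n 0 z (n 0 z (n 0 z (n 0 z (n 0 z (n 0 z (n 0 z (n 0 z (n 2 z (n 0 z (n 0 z (n
 0 z (n 0 z (n 0 z (n 0 z (n 0 z z))))))))))))))))))))))))))))))))))))))))))))))))))))))))
 z))))) (n 0 (n 293 (n 0 z (n 0 z (n 0 z (n 0 z (n 0 z (n 0 z (n 0 z (n 0 z (n 0 z (n 0 z (n 0 z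
 (n 0 z (n 0 z (n 0 z (n 0 z (n 0 z (n 0 z (n 0 z (n 0 z (n 0 z (n 0 z (n 0 z (n 0 z (n 0 z (n 0
 z (n 0 z (n 0 z (n 0 z (n 0 z (n 0 z (n 0 z (n 0 z (n 0 z (n 0 z (n 0 z (n 0 z (n 0 z (n 0 z (n
 0 z (n 0 z (n 0 z (n 0 z (n 0 z (n 0 z (n 0 z (n 0 z (n 0 z (n 0 z (n 0 z
 z))))))))))))))))))))))))))))))))))))))))))))))))) (n 293 (n 0 z (n 0 z (n 0 z (n 0 z (n 0 z (n
 0 z (n 0 z (n 0 z (n 0 z (n 0 z (n 0 z (n 0 z (n 0 z (n 0 z (n 0 z (n 0 z (n 0 z (n 0 z (n 0 z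
 (n 0 z (n 0 z (n 0 z (n 0 z (n 0 z (n 0 z (n 0 z (n 0 z (n 0 z (n 0 z (n 0 z (n 0 z (n 0 z (n 2
 (n 0 z (n 0 z z)) (n 0 z (n 0 z (n 0 z (n 0 z (n 0 z (n 0 z (n 0 z (n 0 z (n 0 z (n 0 z (n 0 z
 (n 0 z (n 0 z (n 0 z (n 0 z (n 0 z z))))))))))))))))))))))))))))))))))))))))))))))))) (n 293 (n
 0 z (n 0 z (n 0 z (n 0 z (n 0 z (n 0 z (n 0 z (n 0 z (n 0 z (n 0 z (n 0 z (n 0 z (n 0 z (n 0 z
 (n 0 z (n 0 z (n 0 z (n 0 z (n 0 z (n 0 z (n 0 z (n 0 z (n 0 z (n 0 z (n 0 z (n 0 z (n 0 z (n 0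
 z (n 0 z (n 0 z (n 0 z (n 0 z (n 0 z (n 0 z (n 0 z (n 0 z (n 0 z (n 0 z (n 0 z (n 0 z (n 0 z (n
 0 z (n 0 z (n 0 z (n 0 z (n 0 z (n 0 z (n 0 z (n 0 z
 z))))))))))))))))))))))))))))))))))))))))))))))))) (n 293 (n 0 z (n 0 z (n 0 z (n 0 z (n 0 z (n
 0 z (n 0 z (n 0 z (n 0 z (n 0 z (n 0 z (n 0 z (n 2 z (n 0 z (n 0 z (n 0 z (n 0 z (n 0 z (n 0 z
 (n 0 z (n 0 z (n 0 z (n 0 z (n 0 z (n 0 z (n 0 z (n 0 z (n 0 z (n 0 z (n 0 z (n 0 z (n 0 z (n 0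
 z (n 0 z (n 0 z (n 0 z (n 0 z (n 0 z (n 0 z (n 0 z (n 0 z (n 0 z (n 0 z (n 0 z (n 0 z (n 0 z (n
 0 z (n 0 z (n 0 z z))))))))))))))))))))))))))))))))))))))))))))))))) z)))) (n 0 (n 0 z (n 0 z
 (n 0 z z))) (n 0 (n 0 z (n 0 z z)) (n 0 (n 0 z z) (n 0 z z))))))))))) (n 0 (n 1 (n 2 z (n 1228
 z (n 1228 z (n 1228 z (n 1228 z (n 1228 z z)))))) (n 0 z (n 1 (n 6496515 z (n 6496515 z (n
 6496515 z (n 6496515 z (n 6496515 z (n 6496515 z z)))))) z))) (n 0 (n 0x41e4e5 (n 0 (n 0 (n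
 7741459 z (n 7741459 z (n 7741459 z (n 7741459 z (n 7741459 z (n 7741459 z z)))))) z) (n 0 (n
 153 (n 1 (n 4012 z (n 4012 z (n 4012 z (n 4012 z (n 4012 z (n 4012 z z)))))) (n 1 (n 4012 z (n
 4012 z (n 4012 z (n 4012 z (n 4012 z (n 4012 z z)))))) (n 1 (n 7741459 z (n 7741459 z (n
 7741459 z (n 7741459 z (n 7741459 z (n 7741459 z z)))))) (n 1 (n 7741459 z (n 7741459 z (n
 7741459 z (n 7741459 z (n 7741459 z (n 7741459 z z)))))) (n 1 (n 7741459 z (n 7741459 z (n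
 7741459 z (n 7741459 z (n 7741459 z (n 7741459 z z)))))) (n 1 (n 7741459 z (n 7741459 z (n
 7741459 z (n 7741459 z (n 7741459 z (n 7741459 z z)))))) (n 1 (n 7544915 z (n 7544915 z (n
 7544915 z (n 7544915 z (n 7544915 z (n 7544915 z z)))))) (n 1 (n 7741459 z (n 7741459 z (n
 7741459 z (n 7741459 z (n 7741459 z (n 7741459 z z)))))) z)))))))) (n 33 (n 1 (n 3278699 z (n
 3278699 z (n 3278699 z (n 3278699 z (n 3278699 z (n 3278699 z z)))))) (n 0 z (n 1 (n 7545091 z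
 (n 7545091 z (n 7545091 z (n 7545091 z (n 7545091 z (n 7545091 z z)))))) z))) (n 7 (n 1 (n
 3213131 z (n 3213131 z (n 3213131 z (n 3213131 z (n 3213131 z (n 3213131 z z)))))) (n 1 (n
 5506923 z (n 2588 z (n 6635635 z (n 2588 z (n 2588 z (n 2588 z z)))))) (n 0 z (n 1 (n 7545091 z
 (n 7545091 z (n 7545091 z (n 7545091 z (n 7545091 z (n 7545091 z z)))))) (n 1 (n 7544915 z (n
 7544915 z (n 7544915 z (n 7544915 z (n 7544915 z (n 7544915 z z)))))) (n 0 z z)))))) (n 147 (n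
 1 (n 7741459 z (n 7741459 z (n 7741459 z (n 7741459 z (n 7741459 z (n 7741459 z z)))))) (n 0 z
 (n 1 (n 7544915 z (n 7544915 z (n 7544915 z (n 7544915 z (n 7544915 z (n 7544915 z z)))))) (n 1
 (n 7545091 z (n 7545091 z (n 7545091 z (n 7545091 z (n 7545091 z (n 7545091 z z)))))) z)))) (n
 1 (n 1 (n 2164555 z (n 2164555 z (n 2164555 z (n 2164555 z (n 2164555 z (n 2164555 z z)))))) (n
 1 (n 1276 z (n 1276 z (n 1276 z (n 1276 z (n 1276 z (n 1276 z z)))))) (n 1 (n 7741459 z (n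
 7741459 z (n 7741459 z (n 7741459 z (n 7741459 z (n 7741459 z z)))))) (n 0 z (n 0 z z))))) (n
 35 (n 0 z (n 1 (n 7741459 z (n 7672331 z (n 7672331 z (n 7672331 z (n 7672331 z (n 3281011 z
 z)))))) (n 1 (n 7545091 z (n 7545091 z (n 7545091 z (n 7545091 z (n 7545091 z (n 7545091 z
 z)))))) (n 1 (n 7545091 z (n 7545091 z (n 7545091 z (n 7545091 z (n 7545091 z (n 7545091 z
 z)))))) (n 1 (n 7741459 z (n 1324 z (n 2 z (n 1324 z (n 1324 z (n 1324 z z)))))) (n 1 (n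
 7741459 z (n 1324 z (n 1324 z (n 6494043 z (n 1324 z (n 1324 z z)))))) (n 0 z z))))))) (n 33 (n
 1 (n 7741459 z (n 3278699 z (n 3278699 z (n 3278699 z (n 3278699 z (n 3278699 z z)))))) (n 0 z
 (n 1 (n 7545091 z (n 7545091 z (n 7545091 z (n 7545091 z (n 7545091 z (n 7545091 z z)))))) z)))
 z))))))) (n 0 (n 0 (n 0 z z) z) (n 0 (n 525 (n 0 (n 0 (n 8593491 z z) z) (n 0 (n 0 z z) (n 0 (n
 0 z z) (n 0 (n 0 z z) (n 0 (n 0 z z) (n 0 (n 0 z z) (n 0 (n 0 z z) (n 0 (n 0 z z) z)))))))) (n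
 323 (n 0 (n 0 (n 8790035 z z) z) (n 0 (n 0 z z) (n 0 (n 0 z z) (n 0 (n 0 z z) (n 0 (n 0 z z) (n
 0 (n 0 z z) (n 0 (n 0 (n 8868915 z z) z) (n 0 (n 0 z z) z)))))))) (n 547 (n 0 (n 0 z z) (n 0 (n
 0 z z) (n 0 (n 0 z z) (n 0 (n 0 z z) (n 0 (n 0 z z) (n 0 (n 0 z z) (n 0 (n 0 z z) (n 0 (n 0 z
 z) (n 0 (n 0 z z) (n 0 (n 0 z z) z)))))))))) (n 177 (n 0 (n 0 z z) (n 0 (n 0 z z) (n 0 (n 0 (n
 0xcea90864038047f580c7fb7f480e7fd8027f47fd7fd7fe8008067f27fd8058077ff8098108018028018028088007f57f68177df7f77f87d08068018107fe7e98057f48357ef8088067ff8058068048090811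
 z z) z) (n 0 (n 0 z z) (n 0 (n 0 z z) (n 0 (n 0 z z) (n 0 (n 0 z z) (n 0 (n 0 z z) (n 0 (n 0 z
 z) (n 0 (n 0 (n 8790035 z z) z) (n 0 (n 0 z z) z))))))))))) (n 574 (n 0 (n 0 z z) (n 0 (n 0 z
 z) (n 0 (n 0 z z) (n 0 (n 0 z z) (n 0 (n 0 z z) (n 0 (n 0 z z) (n 0 (n 0 z z) (n 0 (n 0 z z) (n
 0 (n 0 z z) z))))))))) (n 397 (n 0 (n 0 z z) (n 0 (n 0 z z) (n 0 (n 0 z z) (n 0 (n 0 z z) (n 0
 (n 0 z z) (n 0 (n 0 z z) (n 0 (n 0 z z) (n 0 (n 0 z z) (n 0 (n 0 z z) (n 0 (n 0 z z)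
 z)))))))))) (n 159 (n 0 (n 0 z z) (n 0 (n 0 z z) (n 0 (n 0 z z) (n 0 (n 0 z z) (n 0 (n 0 z z)
 (n 0 (n 0 z z) (n 0 (n 0 z z) (n 0 (n 0 z z) (n 0 (n 0 z z) (n 0 (n 0 z z) (n 0 (n 0 z z)
 z))))))))))) (n 33 (n 0 (n 0 z z) (n 0 (n 0 z z) (n 0 (n 0 z z) (n 0 (n 0 z z) (n 0 (n 0 z z)
 (n 0 (n 0 z z) (n 0 (n 0 z z) z))))))) (n 9 (n 0 (n 0 z z) (n 0 (n 0 z z) (n 0 (n 0 z z) (n 0
 (n 0 z z) (n 0 (n 0 z z) (n 0 (n 0 z z) z)))))) (n 147 (n 0 (n 0 z z) (n 0 (n 0 (n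
 0x22c1080548217ff7fc8068027f48097fa8097ed8097fc8048007fd7fa8018017fb80780c80a7f57ff8088088077ff8017ff8047fe7f88007e57fc7ff8107f67f17f37ef8117f180b80a8058087f78138060091
 z z) z) (n 0 (n 0 z z) (n 0 (n 0 z z) (n 0 (n 0 z z) (n 0 (n 0 z z) (n 0 (n 0 z z) (n 0 (n 0 z
 z) (n 0 (n 0 z z) (n 0 (n 0 z z) (n 0 (n 0 z z) (n 0 (n 0 z z) (n 0 (n 0 z z) z))))))))))))) (n
 165 (n 0 (n 0 z z) (n 0 (n 0 z z) (n 0 (n 0 z z) (n 0 (n 0 z z) (n 0 (n 0 z z) (n 0 (n 0 z z)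
 (n 0 (n 0 z z) (n 0 (n 0 (n
 0x2d8728037fe8007fd7fe8018018018007fe8018017fd8038008008008017ff8008028027fd8007fe8017fe8007ff8008027ff8037fe8027fe8038007fe8018017ff7ff7ff8008017ff8007ff8000051
 z (n
 0x6d82180c7f98007fc7fa80c8017ff7fb7f77fc8027fe8027f78018027fd7fc80480380a7fe80a7ff8098007f67fc80b7f47f68087de80a7fc8088087ed7fd80c8157f27f78058068058037fd80c0051
 z z)) z) (n 0 (n 0 (n 8853035 z (n 8853035 z z)) z) (n 0 (n 0 z z) (n 0 (n 0 z z) (n 0 (n 0 z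
 z) (n 0 (n 0 z z) z))))))))))))) (n 35 (n 0 (n 0 z z) (n 0 (n 0 z z) (n 0 (n 0 z z) (n 0 (n 0 z
 z) (n 0 (n 0 z z) (n 0 (n 0 z z) (n 0 (n 0 z z) z))))))) (n 11 (n 0 (n 0 (n 8591179 z (n
 7407691 z z)) z) (n 0 (n 0 z z) (n 0 (n 0 z z) (n 0 (n 0 z z) (n 0 (n 0 (n
 0x2ac3b005c8767fe7fb8078027f280b7f980c7e880c7fb8058007fc7f88018017fb80980f80c7f27fe80a80980a7ff8037ff8057fe7f68007de7fb7fe8147f47ee7f07eb8157ee80f80c80680a7f48178070091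
 z z) z) (n 0 (n 0 z z) (n 0 (n 0 z z) (n 0 (n 0 z z) (n 0 (n 0 z z) (n 0 (n 0 z z) (n 0 (n 0 z
 z) (n 0 (n 0 z z) (n 0 (n 0 (n
 0x30e90e80037fe8007fe8008008018007ff8018018008008008008008018008008018008008008007ff8007ff8008018008018018007ff8008008008018028007ff7ff8008008008007ff8008018008000811
 z z) z) z))))))))))))) (n 149 (n 0 (n 0 z z) (n 0 (n 0 z z) (n 0 (n 0 z z) (n 0 (n 0 z z) (n 0
 (n 0 z z) (n 0 (n 0 z z) (n 0 (n 0 z z) (n 0 (n 0 z z) (n 0 (n 0 z z) (n 0 (n 0 z z)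
 z)))))))))) (n 148 (n 0 (n 0 z z) (n 0 (n 0 z z) (n 0 (n 0 z z) (n 0 (n 0 z z) (n 0 (n 0 z z)
 (n 0 (n 0 z z) (n 0 (n 0 z z) (n 0 (n 0 z z) (n 0 (n 0 z z) (n 0 (n 0 (n
 0x458768047fd7ff7fc7fc8028018028007fd8018017fb8048008008008028007ff8028027fc8017fe8017fc8007fe7ff8037ff8047fd8037fe8038017fd8018027ff7fe7fd8008027ff8007ff8010051
 z (n
 0x50ed0e46078017fd8028017ff8008008018007ff7ff8017ff8008008018008017ff8008008008008018008007ff7ff8018008008008008008008018008008008017ff7ff8008007ff8008007ff8008010811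
 z z)) z) (n 0 (n 0 z z) (n 0 (n 0 z z) (n 0 (n 0 z z) (n 0 (n 0 z z) (n 0 (n 0 z z) (n 0 (n 0 z
 z) (n 0 (n 0 z z) (n 0 (n 0 z z) (n 0 (n 0 z z) (n 0 (n 0 z z) (n 0 (n 0 z z) (n 0 (n 0 z z) (n
 0 (n 0 z z) (n 0 (n 0 z z) (n 0 (n 0 z z) (n 0 (n 0 (n 8720907 z z) z) (n 0 (n 0 z z) (n 0 (n 0
 z z) (n 0 (n 0 z z) (n 0 (n 0 z z) (n 0 (n 0 z z) (n 0 (n 0 z z) (n 0 (n 0 z z) (n 0 (n 0 z z)
 (n 0 (n 0 z z) (n 0 (n 0 z z) (n 0 (n 0 z z) (n 0 (n 0 z z) (n 0 (n 0 z z) (n 0 (n 0 z z) (n 0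
 (n 0 z z) (n 0 (n 0 z z) (n 0 (n 0 z z) (n 0 (n 0 z z) (n 0 (n 0 z z) (n 0 (n 0 z z) (n 0 (n 0
 z z) (n 0 (n 0 z z) (n 0 (n 0 z z) z))))))))))))))))))))))))))))))))))))))))))))))))) (n 153 (n
 0 (n 0 z z) (n 0 (n 0 z z) (n 0 (n 0 z z) (n 0 (n 0 z z) (n 0 (n 0 z z) (n 0 (n 0 z z) (n 0 (n
 0 z z) (n 0 (n 0 z z) z)))))))) (n 33 (n 0 (n 0 z z) (n 0 (n 0 z z) (n 0 (n 0 z z) z))) (n 9 (n
 0 (n 0 z z) (n 0 (n 0 z z) (n 0 (n 0 z z) (n 0 (n 0 z z) (n 0 (n 0 (n 8872987 z (n 8872987 z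
 z)) z) (n 0 (n 0 z z) (n 0 (n 0 z z) (n 0 (n 0 z z) (n 0 (n 0 z z) z))))))))) (n 147 (n 0 (n 0
 z z) (n 0 (n 0 z z) (n 0 (n 0 z z) (n 0 (n 0 z z) z)))) (n 1 (n 0 (n 0 z z) (n 0 (n 0 z z) (n 0
 (n 0 z z) (n 0 (n 0 z z) (n 0 (n 0 z z) z))))) (n 0 (n 0 (n 0 z z) (n 0 (n 0 z z) (n 0 (n 0 z
 z) (n 0 (n 0 z z) (n 0 (n 0 z z) (n 0 (n 0 z z) (n 0 (n 0 z z) (n 0 (n 0 z z) (n 0 (n 0 z z)
 z))))))))) z))))))))))))))))))))) z)))) z) z)))) (n 0x6452db2e864b3032cba40 (n 0 (n 405 (n 2 z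
 (n 0 z (n 3282443 z (n 0 z z)))) (n 33 (n 10 z (n 3278363 z (n 0 z (n 0 z (n 18 z (n 0 z (n 0 z
 (n 0 z (n 0 z (n 0 z (n 0 z (n 0 z (n 0 z (n 0 z (n 0 z z))))))))))))))) (n 403 (n 0 z (n 0 z
 (n 6636051 z z))) (n 3 (n 2164283 z (n 0 z (n 26 z (n 0 z z)))) (n 1 (n 0 z (n 0 z (n 0 z (n 0
 z (n 0 z (n 0 z (n 0 z (n 0 z (n 0 z (n 6636051 z z)))))))))) (n 0 (n 0 z (n 0 z (n 6636051 z
 z))) z)))))) (n 403 (n 0 (n 919 (n 0 z (n 0 z (n 0 z (n 0 z (n 0 z (n 0 z (n 0 z (n 0 z (n 0 z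
 (n 0 z (n 0 z (n 0 z (n 0 z (n 0 z (n 0 z z))))))))))))))) (n 919 (n 0 z (n 0 z (n 0 z (n 0 z
 (n 0 z (n 0 z (n 0 z (n 0 z (n 0 z (n 0 z (n 0 z (n 0 z (n 0 z (n 0 z (n 0 z z)))))))))))))))
 (n 33 (n 0 z (n 0 z (n 0 z (n 0 z z)))) z))) (n 0 (n 0 z (n 55 (n 0 z (n 0 z (n 0 z (n 0 z (n 0
 z (n 0 z (n 0 z (n 0 z (n 0 z (n 0 z (n 0 z (n 0 z (n 0 z z))))))))))))) z)) (n 0 (n 393 (n 0 z
 (n 0 z (n 0 z (n 0 z (n 0 z (n 0 z (n 0 z (n 0 z (n 0 z (n 0 z (n 0 z (n 0 z (n 0 z (n 0 z (n 0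
 z z))))))))))))))) z) (n 0 z z)))) (n 0 (n 0 z (n 0 z (n 1 (n 6636051 z (n 6636051 z (n 6636051
 z (n 6636051 z (n 6636051 z (n 6636051 z z)))))) z))) (n 0 z z)))) (n
 0x2b55da1aae55aa01db9816b540 (n 0 (n 515 (n 3282443 z (n 0 z (n 6488603 z (n
 0x6ca8a82407295d5166072d7a05a7b5e9a0720a9ea608df71da9d4e08ab55f51c9a155f7a48208e066aadd0801 z
 (n 0 z (n 0 z (n 2 z (n 0 z (n 0 z (n
 0x4ca6ca480375e7997a08df8e089e96182076089e9608de7a27e37e07e171f71e8616e18228208e08239600801 z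
 (n 10 z (n 0 z (n
 0x2c64c6420375f89e8207e07e07a18e28207e08617a07e07df89c8207a07617227637e07e18207a08238de0801 z
 (n 18 z (n 0 z (n 0 z (n 0 z z))))))))))))))))) (n 59 (n 6496515 z (n 0 z (n 0 z z))) (n 53 (n
 6496515 z (n 0 z (n 0 z z))) (n 3 (n 6496515 z (n 0 z (n 0 z (n 0 z (n 0 z (n 0 z z)))))) (n 49
 (n 26 z (n 2164299 z (n 0 z (n 0 z z)))) (n 0 (n 2164315 z (n 34 z (n 0 z (n 0 z z)))) z))))))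
 (n 59 (n 0 (n 0 z (n 0 z (n 1357 (n 0 z (n 0 z (n 0 z (n 0 z (n 0 z (n 0 z (n 0 z (n 0 z (n 0 z
 (n 0 z (n 0 z (n 0 z (n 0 z (n 0 z (n 0 z (n 0 z (n 0 z z))))))))))))))))) (n 65 (n 0 z (n 0 z
 (n 0 z (n 0 z (n 0 z (n 0 z (n 0 z (n 0 z (n 0 z (n 0 z (n 0 z (n 0 z (n 0 z (n 0 z (n 0 z (n 0
 z (n 0 z z))))))))))))))))) z)))) (n 0 (n 0 z (n 1357 (n 0 z (n 0 z (n 0 z (n 0 z (n 0 z (n 0 z
 (n 0 z (n 0 z (n 0 z (n 0 z (n 0 z (n 0 z (n 0 z (n 0 z (n 0 z z))))))))))))))) (n 1021 (n 0 z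
 (n 0 z (n 0 z (n 0 z (n 0 z (n 0 z (n 0 z (n 0 z (n 0 z (n 0 z (n 0 z z))))))))))) z))) (n 0 (n
 1361 (n 0 z (n 0 z (n 0 z (n 0 z (n 0 z (n 0 z (n 0 z (n 0 z (n 0 z (n 0 z (n 0 z (n 0 z (n 0 z
 z))))))))))))) (n 1009 (n 0 z (n 0 z (n 0 z (n 0 z (n 0 z (n 0 z (n 0 z (n 0 z (n 0 z (n 0 z (n
 0 z (n 0 z (n 0 z (n 0 z (n 0 z (n 0 z (n 0 z (n 0 z z)))))))))))))))))) z)) (n 0 (n 61 (n 0 z
 (n 0 z (n 0 z (n 0 z z)))) z) (n 0 z z))))) (n 0 (n 1 (n 6496515 z (n 6496515 z (n 6496515 z (n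
 6496515 z (n 6496515 z (n 6496515 z z)))))) (n 0 z (n 0 z z))) (n 0 z z)))) (n
 0xd1e9708f49b07a3da0d16d188768f00e3840 (n 0x368f4 (n 515 (n 0 z (n 0 z (n 0 z (n 0 z (n 3282443
 z (n 2 z (n
 0x6ca8a82407152e494e07f57e05aac198e0660c60b609625deb5e4a09684643d895f41f7a38209a0668b1d0801 z
 (n 0 z (n 10 z (n 0 z (n 0 z z))))))))))) (n 59 (n 0 z (n 6496515 z (n 0 z (n 0 z (n 0 z (n 18
 z z)))))) (n 53 (n 6496515 z (n 26 z z)) (n 3 (n 0 z (n 6496515 z (n 0 z (n 0 z (n 34 z z)))))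
 (n 49 (n 0 z (n 42 z (n 2164299 z z))) (n 0 (n 0 z (n 2164315 z (n 50 z z))) z)))))) (n 53 (n 0
 (n 0 z (n 139 (n 0 z (n 0 z (n 0 z (n 0 z (n 0 z (n 0 z (n 0 z (n 0 z (n 0 z (n 0 z (n 0 z (n 0
 z z)))))))))))) (n 43 (n 0 z (n 0 z (n 0 z (n 0 z (n 0 z (n 2 (n 1 z (n 1 z (n 1 z z))) (n 0 z
 z))))))) (n 45 (n 0 z (n 0 z (n 2 (n 1 z (n 1 z z)) (n 0 z (n 0 z (n 0 z (n 0 z z))))))) (n 41
 (n 0 z (n 0 z (n 0 z (n 0 z (n 0 z (n 0 z (n 0 z (n 0 z (n 0 z (n 0 z (n 0 z (n 0 z (n 0 z (n 0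
 z (n 0 z z))))))))))))))) (n 269 (n 0 z (n 0 z (n 0 z (n 0 z (n 0 z (n 0 z (n 0 z (n 0 z (n 0 z
 (n 0 z (n 0 z (n 0 z (n 0 z (n 0 z (n 0 z (n 0 z (n 0 z (n 0 z z)))))))))))))))))) z)))))) (n 0
 (n 67 (n 0 z (n 0 z (n 0 z (n 0 z (n 0 z (n 0 z (n 0 z (n 0 z (n 0 z (n 0 z z)))))))))) (n 1359
 (n 0 z (n 0 z (n 0 z (n 0 z (n 0 z (n 0 z (n 0 z (n 0 z (n 0 z (n 0 z z)))))))))) (n 1029 (n 0
 z (n 0 z (n 0 z (n 0 z (n 0 z (n 0 z (n 0 z (n 0 z (n 0 z (n 0 z z)))))))))) (n 1357 (n 0 z (n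
 0 z (n 0 z (n 0 z (n 0 z (n 0 z (n 0 z (n 0 z (n 0 z (n 0 z (n 0 z z))))))))))) (n 65 (n 0 z (n
 0 z (n 0 z (n 0 z (n 0 z (n 0 z (n 0 z (n 0 z (n 0 z (n 0 z (n 0 z z))))))))))) z))))) (n 0 (n
 759 (n 0 z (n 0 z (n 0 z (n 0 z z)))) (n 487 (n 0 z (n 0 z (n 0 z (n 0 z z)))) (n 63 (n 0 z (n
 0 z z)) (n 61 (n 0 z (n 0 z (n 0 z (n 0 z (n 0 z z))))) z)))) (n 0 (n 273 (n 0 z (n 0 z (n 0 z
 (n 0 z z)))) (n 105 (n 0 z (n 0 z (n 0 z (n 0 z (n 0 z z))))) (n 17 (n 0 z (n 0 z (n 0 z (n 0 z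
 (n 0 z (n 0 z z)))))) z))) (n 0 (n 51 (n 0 z (n 0 z (n 0 z (n 0 z (n 0 z (n 0 z z)))))) (n 5 (n
 0 z (n 0 z z)) z)) (n 0 (n 61 (n 0 z (n 0 z (n 0 z z))) z) (n 0 z z))))))) (n 0 (n 1 (n 6496515
 z (n 6496515 z (n 6496515 z (n 6496515 z (n 6496515 z (n 6496515 z z)))))) (n 1 (n 4124 z (n
 4124 z (n 2 z (n 6357803 z (n 4124 z (n 5513571 z z)))))) z)) (n 0 (n 0 (n 0 (n 0 (n 7754755 z
 (n 7754755 z (n 7754755 z (n 7754755 z (n 7754755 z (n 7754755 z z)))))) z) (n 0 (n 33 (n 1 (n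
 7684451 z (n 7684451 z (n 7684451 z (n 7684451 z (n 7684451 z (n 7684451 z z)))))) (n 0 z (n 1
 (n 4400907 z (n 3282699 z (n 4400907 z (n 6635891 z (n 4400907 z (n 4400907 z z)))))) (n 1 (n
 7471899 z (n 4124 z (n 7537179 z (n 4124 z (n 4124 z (n 4124 z z)))))) (n 1 (n 4124 z (n
 5445387 z (n 7537179 z (n 4124 z (n 4124 z (n 4124 z z)))))) (n 1 (n 7537179 z (n 4124 z (n
 4124 z (n 7471899 z (n 4124 z (n 4124 z z)))))) (n 1 (n 4124 z (n 6428427 z (n 4124 z (n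
 7471899 z (n 4124 z (n 4124 z z)))))) (n 0 z (n 1 (n 7537179 z (n 7734603 z (n 7471899 z (n
 7734603 z (n 7734603 z (n 7734603 z z)))))) (n 1 (n 7734603 z (n 7537179 z (n 7471899 z (n
 7734603 z (n 7734603 z (n 7734603 z z)))))) z)))))))))) (n 31 (n 1 (n 7545091 z (n 7545091 z (n
 7545091 z (n 7545091 z (n 7545091 z (n 7545091 z z)))))) (n 1 (n 7754755 z (n 7754755 z (n
 7754755 z (n 7754755 z (n 7754755 z (n 7754755 z z)))))) z)) (n 53 (n 1 (n 7545091 z (n 7545091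
 z (n 7545091 z (n 7545091 z (n 7545091 z (n 7545091 z z)))))) (n 1 (n 7754755 z (n 7754755 z (n
 7754755 z (n 7754755 z (n 7754755 z (n 7754755 z z)))))) z)) (n 2 (n 1 (n 7545091 z (n 7545091
 z (n 7545091 z (n 7545091 z (n 7545091 z (n 7545091 z z)))))) (n 1 (n 7754755 z (n 7754755 z (n
 7754755 z (n 7754755 z (n 7754755 z (n 7754755 z z)))))) z)) (n 33 (n 1 (n 7545091 z (n 7545091
 z (n 7545091 z (n 7545091 z (n 7545091 z (n 7545091 z z)))))) (n 1 (n 7754755 z (n 7754755 z (n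
 7754755 z (n 7754755 z (n 7754755 z (n 7754755 z z)))))) z)) (n 3 (n 1 (n 7545091 z (n 7545091
 z (n 7545091 z (n 7545091 z (n 7545091 z (n 7545091 z z)))))) (n 1 (n 7754755 z (n 7754755 z (n
 7754755 z (n 7754755 z (n 7754755 z (n 7754755 z z)))))) z)) (n 53 (n 1 (n 7545091 z (n 7545091
 z (n 7545091 z (n 7545091 z (n 7545091 z (n 7545091 z z)))))) (n 1 (n 7754755 z (n 7754755 z (n
 7754755 z (n 7754755 z (n 7754755 z (n 7754755 z z)))))) z)) z))))))) (n 0 z (n 0 (n 153 (n 0 z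
 (n 0 z (n 0 z (n 0 z (n 0 z (n 0 z (n 0 z (n 0 z (n 0 z (n 0 z z)))))))))) (n 681 (n 0 z (n 0 z
 (n 0 z (n 0 z (n 0 z (n 0 z (n 0 z (n 0 z (n 0 z (n 0 z z)))))))))) (n 381 (n 0 z (n 0 z (n 0 z
 (n 0 z z)))) (n 515 (n 0 z (n 0 z (n 0 z (n 0 z (n 0 z (n 0 z (n 0 z (n 0 z (n 0 z (n 0 z
 z)))))))))) (n 249 (n 0 z (n 0 z (n 0 z (n 0 z z)))) (n 137 (n 0 z (n 0 z (n 0 z (n 0 z z))))
 (n 683 (n 0 z (n 0 z (n 0 z (n 0 z (n 0 z (n 0 z (n 0 z (n 0 z (n 0 z (n 0 z (n 0 z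
 z))))))))))) (n 33 (n 0 z (n 0 z z)) (n 53 (n 0 z (n 0 z (n 0 z (n 0 z (n 0 z z))))) (n 27 (n 0
 z (n 0 z (n 0 z (n 0 z (n 0 z (n 0 z z)))))) (n 665 (n 0 z (n 0 z (n 0 z (n 0 z (n 0 z (n 0 z
 (n 0 z (n 0 z (n 0 z (n 0 z (n 0 z z))))))))))) (n 35 (n 0 z (n 0 z (n 0 z (n 0 z (n 0 z z)))))
 (n 9 (n 0 z (n 0 z (n 0 z (n 0 z (n 0 z (n 0 z z)))))) (n 3 (n 0 z (n 0 z z)) (n 31 (n 0 z (n 0
 z (n 0 z z))) (n 515 (n 0 z (n 0 z (n 0 z (n 0 z (n 0 z (n 0 z (n 0 z (n 0 z (n 0 z (n 0 z (n 0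
 z z))))))))))) (n 59 (n 0 z (n 0 z (n 0 z (n 0 z (n 0 z (n 0 z z)))))) (n 53 (n 0 z (n 0 z z))
 (n 3 (n 0 z (n 0 z (n 0 z (n 0 z (n 0 z z))))) (n 49 (n 0 z (n 0 z (n 0 z z))) (n 0 (n 0 z (n 0
 z (n 0 z z))) z))))))))))))))))))))) z)))) z) z)))) (n
 0x2aaa515126855236892d90548c88245c5422a2a81315480 (n 0x22a91 (n 153 (n 0 z (n 0 z (n 0 z (n
 3282443 z (n 0 z (n 0 z (n 0 z (n 0 z (n 2 z (n 0 z (n 0 z (n 0 z (n 0 z (n 0 z (n 0 z (n 0 z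
 (n 0 z (n 0 z z)))))))))))))))))) (n 261 (n 0 z (n 10 z (n 0 z (n 0 z (n 3278363 z (n 0 z (n 0
 z (n 0 z (n
 0x165454230182ca8a806037a08208208208208de7de8df82185d89f85f85f7a285f8227e17a08208607e27a27a279f8201001
 z z))))))))) (n 129 (n 0 z (n 3212843 z (n 0 z (n 0 z (n 18 z (n 0 z (n 0 z (n 0 z (n
 0x165454130182ca8a806037a08208208208208de7de8df82185d89f85f85f7a285f8227e17a08208607e27a27a279f8201001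
 z z))))))))) (n 29 (n 0 z (n 0 z (n 0 z (n 26 z (n 0 z (n 0 z (n 0 z (n 0 z (n 6636291 z
 z))))))))) (n 1 (n 0 z (n 0 z (n 0 z (n 0 z (n 0 z (n 0 z (n 0 z (n 0 z (n 0 z (n 34 z (n 42 z
 (n 0 z (n 0 z (n 6636291 z z)))))))))))))) (n 0 (n 0 z (n 50 z (n 6636291 z (n 0 z (n 0 z (n 58
 z (n 66 z (n 0 z (n 6636291 z z))))))))) z)))))) (n 261 (n 0 (n 523 (n 0 z (n 0 z (n 0 z (n 0 z
 (n 0 z (n 0 z (n 0 z (n 0 z (n 0 z (n 0 z (n 0 z (n 0 z (n 0 z (n 0 z (n 0 z (n 0 z (n 0 z (n 0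
 z z)))))))))))))))))) (n 35 (n 0 z (n 0 z (n 0 z (n 0 z (n 0 z (n 0 z (n 0 z (n 0 z (n 0 z (n 0
 z (n 0 z (n 0 z (n 0 z (n 0 z (n 0 z (n 0 z (n 0 z (n 0 z z)))))))))))))))))) (n 7 (n 0 z (n 0
 z (n 0 z (n 0 z (n 0 z (n 0 z (n 0 z (n 0 z (n 0 z (n 0 z (n 0 z (n 0 z (n 0 z (n 0 z (n 0 z (n
 0 z z)))))))))))))))) (n 489 (n 0 z (n 0 z (n 0 z (n 0 z (n 0 z (n 0 z (n 0 z (n 0 z (n 0 z (n
 0 z (n 0 z (n 0 z (n 0 z (n 0 z (n 0 z (n 0 z z)))))))))))))))) (n 489 (n 0 z (n 0 z (n 0 z (n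
 0 z (n 0 z (n 0 z (n 0 z (n 0 z (n 0 z (n 0 z (n 0 z (n 0 z (n 0 z (n 0 z (n 0 z (n 0 z
 z)))))))))))))))) (n 289 (n 0 z (n 0 z (n 0 z (n 0 z (n 0 z (n 0 z (n 0 z (n 0 z (n 0 z (n 0 z
 (n 0 z (n 0 z (n 0 z (n 0 z (n 0 z (n 0 z z)))))))))))))))) (n 289 (n 0 z (n 0 z (n 0 z (n 0 z
 (n 0 z (n 0 z (n 0 z (n 0 z (n 0 z (n 0 z (n 0 z (n 0 z (n 0 z (n 0 z (n 0 z (n 0 z
 z)))))))))))))))) (n 289 (n 0 z (n 0 z (n 0 z (n 0 z (n 0 z (n 0 z (n 0 z (n 0 z (n 0 z (n 0 z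
 (n 0 z (n 0 z (n 0 z (n 0 z (n 0 z (n 0 z z)))))))))))))))) z)))))))) (n 0 (n 275 (n 0 z (n 0 z
 (n 0 z (n 0 z (n 0 z (n 0 z (n 0 z (n 0 z (n 0 z z))))))))) (n 59 (n 0 z (n 0 z (n 0 z (n 0 z
 (n 0 z (n 0 z (n 0 z (n 0 z (n 0 z (n 0 z (n 0 z (n 0 z (n 0 z (n 0 z z)))))))))))))) (n 57 (n
 0 z (n 0 z (n 0 z (n 0 z (n 0 z (n 0 z (n 0 z (n 0 z (n 0 z z))))))))) (n 57 (n 0 z (n 0 z (n 0
 z (n 0 z (n 0 z (n 0 z (n 0 z (n 0 z (n 0 z z))))))))) (n 5 (n 0 z (n 0 z (n 0 z (n 0 z (n 0 z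
 (n 0 z (n 0 z (n 0 z (n 0 z z))))))))) (n 5 (n 0 z (n 0 z (n 0 z (n 0 z (n 0 z (n 0 z (n 0 z (n
 0 z (n 0 z z))))))))) (n 5 (n 0 z (n 0 z (n 0 z (n 0 z (n 0 z (n 0 z (n 0 z (n 0 z (n 0 z
 z))))))))) z))))))) (n 0 (n 55 (n 0 z (n 0 z (n 0 z (n 0 z (n 0 z (n 0 z (n 0 z (n 0 z (n 0 z
 z))))))))) (n 3 (n 0 z (n 0 z (n 0 z (n 0 z (n 0 z (n 0 z (n 0 z (n 0 z (n 0 z z))))))))) (n 3
 (n 0 z (n 0 z (n 0 z (n 0 z (n 0 z (n 0 z (n 0 z (n 0 z (n 0 z z))))))))) (n 53 (n 0 z (n 0 z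
 (n 0 z (n 0 z (n 0 z (n 0 z (n 0 z (n 0 z (n 0 z (n 0 z (n 0 z (n 0 z (n 0 z (n 0 z
 z)))))))))))))) (n 53 (n 0 z (n 0 z (n 0 z (n 0 z (n 0 z (n 0 z (n 0 z (n 0 z (n 0 z (n 0 z (n
 0 z (n 0 z (n 0 z (n 0 z z)))))))))))))) (n 53 (n 0 z (n 0 z (n 0 z (n 0 z (n 0 z (n 0 z (n 0 z
 (n 0 z (n 0 z (n 0 z (n 0 z (n 0 z (n 0 z (n 0 z z)))))))))))))) z)))))) (n 0 (n 63 (n 0 z (n 0
 z (n 0 z (n 0 z (n 0 z (n 0 z z)))))) (n 63 (n 0 z (n 0 z (n 0 z (n 0 z (n 0 z (n 0 z z))))))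
 (n 97 (n 0 z (n 0 z (n 0 z (n 0 z (n 0 z (n 0 z z)))))) (n 97 (n 0 z (n 0 z (n 0 z (n 0 z (n 0
 z (n 0 z z)))))) (n 97 (n 0 z (n 0 z (n 0 z (n 0 z (n 0 z (n 0 z z)))))) z))))) (n 0 (n 0 z (n
 5 (n 0 z (n 0 z (n 0 z (n 0 z (n 0 z (n 0 z z)))))) (n 5 (n 0 z (n 0 z (n 0 z (n 0 z (n 0 z (n
 0 z z)))))) (n 5 (n 0 z (n 0 z (n 0 z (n 0 z (n 0 z (n 0 z z)))))) z)))) (n 0 (n 1 (n 0 z (n 0
 z (n 0 z (n 0 z (n 0 z (n 0 z (n 0 z (n 0 z (n 0 z (n 0 z (n 0 z z))))))))))) (n 1 (n 0 z (n 2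
 (n 0 z z) (n 0 z (n 0 z (n 0 z (n 0 z (n 0 z (n 0 z (n 0 z (n 0 z (n 0 z z))))))))))) (n 1 (n 0
 z (n 0 z (n 0 z (n 0 z (n 0 z (n 0 z (n 0 z (n 0 z (n 0 z (n 0 z (n 0 z z))))))))))) z))) (n 0
 (n 0 z (n 0 z z)) (n 0 (n 0 z z) (n 0 z z))))))))) (n 0 (n 0 z (n 1 (n 1228 z (n 2 z (n 1228 z
 (n 1228 z (n 1228 z (n 1228 z z)))))) (n 0 z (n 0 z (n 1 (n 3278363 z (n 3278363 z (n 3278363 z
 (n 3278363 z (n 3278363 z (n 3278363 z z)))))) (n 0 z (n 0 z (n 0 z (n 1 (n 1228 z (n 5378147 z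
 (n 1228 z (n 1228 z (n 3282523 z (n 1228 z z)))))) z))))))))) (n 0 (n 0 (n 0 (n 0 (n 7741699 z
 (n 7741699 z (n 7741699 z (n 7741699 z (n 7741699 z (n 7741699 z z)))))) z) (n 0 (n 3 (n 0 z (n
 0 z (n 0 z (n 0 z (n 1 (n 6496627 z (n 4331275 z (n 3282699 z (n 4331275 z (n 4331275 z (n
 4331275 z z)))))) (n 0 z (n 0 z (n 0 z (n 0 z (n 0 z (n 0 z (n 0 z (n 0 z (n 0 z (n 0 z (n 1 (n
 7746067 z (n 7746067 z (n 7746067 z (n 7746067 z (n 7746067 z (n 7746067 z z))))))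
 z)))))))))))))))) (n 261 (n 0 z (n 1 (n 7741699 z (n 7741699 z (n 7741699 z (n 7741699 z (n
 7741699 z (n 7741699 z z)))))) (n 0 z (n 0 z (n 1 (n 7741699 z (n 7741699 z (n 7741699 z (n
 7741699 z (n 7741699 z (n 7741699 z z)))))) (n 0 z (n 0 z (n 0 z (n 1 (n 7754019 z (n 7754019 z
 (n 7754019 z (n 7754019 z (n 7754019 z (n 7754019 z z)))))) z))))))))) (n 257 (n 0 z (n 1 (n
 7741699 z (n 7741699 z (n 7741699 z (n 7741699 z (n 7741699 z (n 7741699 z z)))))) (n 0 z (n 0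
 z (n 1 (n 7741699 z (n 7741699 z (n 7741699 z (n 7741699 z (n 7741699 z (n 7741699 z z)))))) (n
 0 z (n 0 z (n 0 z (n 1 (n 7610723 z (n 7746067 z (n 7610723 z (n 7610723 z (n 7610723 z (n
 7610723 z z)))))) z))))))))) (n 31 (n 0 z (n 0 z (n 0 z (n 0 z (n 1 (n 7684867 z (n 7684867 z
 (n 7684867 z (n 7684867 z (n 7684867 z (n 7684867 z z)))))) (n 1 (n 7684867 z (n 7684867 z (n
 7684867 z (n 7684867 z (n 7684867 z (n 7684867 z z)))))) z)))))) (n 37 (n 0 z (n 0 z (n 0 z (n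
 0 z (n 1 (n 7684867 z (n 7684867 z (n 7684867 z (n 7684867 z (n 7684867 z (n 7684867 z z))))))
 (n 1 (n 7684867 z (n 7684867 z (n 7684867 z (n 7684867 z (n 7684867 z (n 7684867 z z))))))
 z)))))) (n 97 (n 0 z (n 0 z (n 0 z (n 0 z (n 1 (n 7684867 z (n 7684867 z (n 7684867 z (n
 7684867 z (n 7684867 z (n 7684867 z z)))))) (n 1 (n 7684867 z (n 7684867 z (n 7684867 z (n
 7684867 z (n 7684867 z (n 7684867 z z)))))) z)))))) (n 261 (n 0 z (n 1 (n 7741699 z (n 7741699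
 z (n 7741699 z (n 7741699 z (n 7741699 z (n 7741699 z z)))))) (n 0 z (n 0 z (n 1 (n 7741699 z
 (n 7741699 z (n 7741699 z (n 7741699 z (n 7741699 z (n 7741699 z z)))))) (n 0 z (n 0 z (n 0 z
 (n 1 (n 7754019 z (n 7746067 z (n 7754019 z (n 7754019 z (n 7754019 z (n 7754019 z z))))))
 z))))))))) z))))))) (n 0 z (n 0 (n 285 (n 0 z (n 0 z (n 0 z (n 0 z (n 0 z (n 0 z (n 0 z (n 0 z
 (n 0 z (n 0 z (n 0 z (n 0 z (n 0 z (n 0 z (n 0 z (n 0 z (n 0 z (n 0 z z)))))))))))))))))) (n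
 281 (n 0 z (n 0 z (n 0 z (n 0 z (n 0 z (n 0 z (n 0 z (n 0 z (n 0 z (n 0 z (n 0 z (n 0 z (n 0 z
 (n 0 z (n 0 z (n 0 z (n 0 z (n 0 z z)))))))))))))))))) (n 257 (n 0 z (n 0 z (n 0 z (n 0 z (n 0
 z (n 0 z (n 0 z (n 0 z (n 0 z z))))))))) (n 393 (n 0 z (n 0 z (n 0 z (n 0 z (n 0 z (n 0 z (n 0
 z (n 0 z (n 0 z (n 0 z (n 0 z (n 0 z (n 0 z (n 0 z (n 0 z (n 0 z z)))))))))))))))) (n 35 (n 0 z
 (n 0 z (n 0 z (n 0 z (n 0 z (n 0 z (n 0 z (n 0 z (n 0 z (n 0 z (n 0 z (n 0 z (n 0 z (n 0 z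
 z)))))))))))))) (n 51 (n 0 z (n 0 z (n 0 z (n 0 z (n 0 z (n 0 z (n 0 z (n 0 z (n 0 z z)))))))))
 (n 323 (n 0 z (n 0 z (n 0 z (n 0 z (n 0 z (n 0 z (n 0 z (n 0 z (n 0 z (n 0 z (n 0 z (n 0 z (n 0
 z (n 0 z (n 0 z (n 0 z z)))))))))))))))) (n 41 (n 0 z (n 0 z (n 0 z (n 0 z (n 0 z (n 0 z (n 0 z
 (n 0 z (n 0 z z))))))))) (n 15 (n 0 z (n 0 z (n 0 z (n 0 z (n 0 z (n 0 z (n 0 z (n 0 z (n 0 z
 z))))))))) (n 37 (n 0 z (n 0 z (n 0 z (n 0 z (n 0 z (n 0 z z)))))) (n 165 (n 0 z (n 0 z (n 0 z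
 (n 0 z (n 0 z (n 0 z (n 0 z (n 0 z (n 0 z (n 0 z (n 0 z (n 0 z (n 0 z (n 0 z (n 0 z (n 0 z
 z)))))))))))))))) (n 107 (n 0 z (n 0 z (n 0 z (n 0 z (n 0 z (n 0 z (n 0 z (n 0 z (n 0 z
 z))))))))) (n 101 (n 0 z (n 0 z (n 0 z (n 0 z (n 0 z (n 0 z (n 0 z (n 0 z (n 0 z (n 0 z (n 0 z
 (n 0 z (n 0 z (n 0 z z)))))))))))))) (n 97 (n 0 z (n 0 z (n 0 z (n 0 z (n 0 z (n 0 z z)))))) (n
 4 (n 0 z (n 0 z (n 0 z (n 0 z (n 0 z (n 0 z z)))))) (n 153 (n 0 z (n 0 z (n 0 z (n 0 z (n 0 z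
 (n 0 z (n 0 z (n 0 z (n 0 z (n 0 z (n 0 z (n 0 z (n 0 z (n 0 z (n 0 z (n 0 z (n 0 z (n 0 z
 z)))))))))))))))))) (n 261 (n 0 z (n 0 z (n 0 z (n 0 z (n 0 z (n 0 z (n 0 z (n 0 z (n 0 z
 z))))))))) (n 129 (n 0 z (n 0 z (n 0 z (n 0 z (n 0 z (n 0 z (n 0 z (n 0 z (n 0 z z))))))))) (n
 29 (n 0 z (n 0 z (n 0 z (n 0 z (n 0 z (n 0 z (n 0 z (n 0 z (n 0 z z))))))))) (n 1 (n 0 z (n 0 z
 (n 0 z (n 0 z (n 0 z (n 0 z (n 0 z (n 0 z (n 0 z (n 0 z (n 0 z (n 0 z (n 0 z (n 0 z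
 z)))))))))))))) (n 0 (n 0 z (n 0 z (n 0 z (n 0 z (n 0 z (n 0 z (n 0 z (n 0 z (n 0 z z)))))))))
 z))))))))))))))))))))) z)))) z) z)))) (n 0x170a53b88291258449da8171a40 (n 0 (n 585 (n 2 z (n
 3282443 z (n 0 z (n 10 z z)))) (n 718 (n 0 z (n 6558475 z (n 18 z (n 0 z z)))) (n 171 (n
 3212843 z (n 26 z z)) (n 3 (n 2164283 z (n 34 z (n 0 z z))) (n 1 (n 6558475 z (n 0 z (n 0 z (n
 0 z z)))) (n 0 (n 2164315 z (n 0 z z)) z)))))) (n 171 (n 0 (n 0 z (n 1437 (n 0 z (n 0 z (n 0 z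
 (n 0 z (n 0 z z))))) (n 779 (n 0 z (n 0 z (n 0 z (n 0 z (n 0 z (n 0 z (n 0 z (n 0 z (n 0 z
 z))))))))) (n 1169 (n 0 z (n 0 z (n 0 z z))) z)))) (n 0 (n 1403 (n 0 z (n 0 z (n 0 z (n 0 z (n
 0 z (n 0 z z)))))) (n 1155 (n 0 z (n 0 z (n 0 z (n 0 z (n 0 z (n 0 z (n 0 z (n 0 z (n 0 z
 z))))))))) (n 1153 (n 0 z (n 0 z (n 0 z (n 0 z (n 0 z (n 0 z (n 0 z (n 0 z (n 0 z z)))))))))
 z))) (n 0 (n 477 (n 0 z (n 0 z z)) (n 1049 (n 0 z (n 2 z (n 0 z (n 0 z (n 0 z (n 0 z (n 0 z (n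
 0 z (n 0 z z))))))))) z)) (n 0 (n 247 (n 0 z (n 0 z (n 0 z (n 0 z (n 0 z z))))) z) (n 0 z
 z))))) (n 0 (n 1 (n 3212843 z (n 6554139 z (n 3212843 z (n 3212843 z (n 3212843 z (n 3212843 z
 z)))))) (n 1 (n 6554139 z (n 4684 z (n 4684 z (n 4684 z (n 5748 z (n 4684 z z)))))) z)) (n 0 z
 z)))) (n 0x3247417a4b067245824dbcc4c9689019c2c0 (n 0 (n 189 (n 0 z (n 3282443 z (n 0 z (n 2 z
 (n 6423611 z (n 10 z (n 0 z z))))))) (n 33 (n 0 z (n 6558475 z (n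
 0x2db2a32a100c08550d944806022864c420030d96ca41e69948394b2903d86527ef80080a7f47ec80c80b7e585f8018007de7bc8b87d08387ef8007c78297cb7fa7847ef8ae80285e7c880f7ef7e986b80d82c7c17fa8727487818107c08047f98777a27e887a7dd7d87ed1911
 z (n 0 z z)))) (n 173 (n 6423611 z (n 6423611 z (n
 0x3a64364310180fb21a18080c02595194c00e074c86c8600300f00032104080780019080141acb1883586318008008008128008018077fb80d7fe8008008007977f080e8248008337bf8188377f384d77582480080280080a80081b80a82b7d37ec7bc86280c7d28148087e18077fb82c79c7fe8197f03091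
 z (n
 0x1321b21800c00594d94400e00ec82c820030016414310038008001908204004000c8400a002d84003cb0800786108008008008048008008028008038028028008007f17fb8038068008067f68028097fd80a7ee8088008008008028008068018077f87fd7f880f8027fc8028027fc8027fe8067f18008037fc30d1
 z (n
 0x595190c00601eca6c6200700b543631001802b18b18800c0acb0801586107ff8008008038008008037ff8048048028008007ef7fa80580c8008017fa8017fd80b80781d8068008008007fe8008037fa8097f78007f78047fe7f580a8067f880f7ee8127ef8008167f22091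
 z (n 0 z (n
 0x3ab0801136107fe8038278037d47f580580a7fd80c8008007d88537fa80f7f78007f78437d77e97ae7ec83f7f17e08128217d77f080c7f281980e7fa83c7c88028097e781d7f87ef7eb7e68298167ff7fa0091
 z (n
 0xc8012a18b780fc014c841bc15a0006420810ad000321002b748002190001ba4b18b74863180d80085a84374c81682d7b97a07a47e68007a66ff87e87e7de8007d780c8428ce981800b2288680082c80081a80084b7f484a76f7b076697f8468c87e583072c6747608a75f57d47665a02891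
 z (n 3212843 z (n 18 z (n 6423611 z z))))))))))) (n 3 (n
 0x7164180f8017ff8048027fb80b7fa8068027f08007f78227ff8107f98007f780f7ec7fe7ea80280e8097ff7fd8027fe8048067ee81280180a8067f77f58017ef8147e980b7f38017fb80380c7f80051
 z (n 0 z (n 0 z (n 0 z (n 26 z (n 0 z (n 0 z (n 0 z (n 0 z (n 2164283 z (n 0 z (n 0 z (n 0 z (n
 0xb29328201c01595194080601aca8c84203002652652001806b29328800c004014c842d400600a6421620010053210910018003228890006b08017c61002b6c20056984004cb0800a861080d80480582a80480581681e7f38287e67ec7fb8237f17fa7b98007e27ed7f18397f97e28048387fa8188178017f78058048267f08357eb81f80481e7c68267d18007e58147e88267f07f14991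
 z (n
 0x5652642103801329329000c08590590400603aca8c4200300f621621003802c6200236c4000a98800a4b1001486207e780081582a7ee7f780581b81180e8267e87de7c77fe8158048008387ff7e88137b18367d88487fa80c7fa8067fd8337f78387d78147dd8327fd8097ca82b7ed81f7da8087d280f80f7f22951
 z z))))))))))))))) (n 127 (n 6558475 z (n 0 z (n 34 z (n 0 z (n 6558475 z (n 0 z z)))))) (n 0
 (n 3278427 z (n 42 z (n 50 z (n 0 z (n
 0x2c86c824037fe8027ff7ff8008018017ff8008018008008008008007ff8018007ff8008008007ff7ff8008007ff8017ff8017ff7ff8018008008018008008008018008008008008008018008008018000811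
 z (n
 0x4c86c864038008007fc7ff8027fe7ff8017fe8018018038018027fe8028008007ff7ff8008008008018017ff7fd8008017ff7ff8018018017fe8027ff8018008007ff8008028018008027ff7ff7ff8000811
 z (n
 0x2c84c806037fe8027ff7fe8047fe8037fe8028017ff7ff8028077fe8038008008008027fc8007f97ff8027ff8008008008008007ff7fd7fe8028038017ff8007fe8028008007ff8008027ff7fe8018020811
 z (n 2164315 z (n 0 z (n
 0x2c86c824037fe8028018007ff8008027ff7ff7ff7ff7ff8008008008008008008008008018008008008018018007ff8018017ff7ff7ff8008008008008008008018018008018008008018018008018000811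
 z z)))))))))) z)))))) (n 33 (n 0 (n 0 z (n 381 (n 0 z (n 0 z (n 0 z (n 0 z (n 0 z (n 0 z (n 0 z
 (n 0 z (n 0 z (n 0 z (n 0 z (n 0 z z)))))))))))) (n 487 (n 0 z (n 2 (n 1 z (n 2 (n 0 z (n 0 z
 (n 0 z (n 0 z (n 0 (n 3188 z z) (n 0 z z)))))) (n 1 z z))) (n 0 z (n 0 z (n 0 z (n 0 z (n 0 z
 (n 0 z z)))))))) (n 377 (n 0 z (n 0 z (n 0 z (n 0 z z)))) (n 797 (n 0 z (n 0 z (n 0 z (n 0 z (n
 0 z (n 0 z (n 0 z (n 0 z (n 0 z (n 0 z (n 0 z (n 0 z (n 0 z (n 0 z (n 0 z (n 0 z (n 0 z (n 0 z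
 (n 0 z (n 0 z (n 0 z (n 0 z (n 0 z (n 0 z (n 0 z (n 0 z (n 0 z (n 0 z (n 0 z (n 0 z (n 0 z (n 0
 z (n 0 z (n 0 z (n 0 z (n 0 z (n 0 z (n 0 z (n 0 z (n 0 z (n 0 z (n 0 z (n 0 z (n 0 z (n 0 z (n
 0 z (n 0 z (n 0 z (n 0 z (n 0 z (n 0 z z))))))))))))))))))))))))))))))))))))))))))))))))))) (n
 797 (n 0 z (n 0 z (n 0 z (n 0 z (n 0 z (n 0 z (n 0 z (n 0 z (n 0 z (n 0 z (n 0 z (n 2 z (n 0 z
 (n 0 z (n 0 z (n 0 z (n 0 z (n 0 z (n 0 z (n 0 z (n 0 z (n 0 z (n 0 z (n 0 z (n 0 z (n 0 z (n 0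
 z (n 0 z (n 0 z (n 0 z (n 0 z (n 0 z (n 0 z (n 0 z (n 0 z (n 0 z (n 0 z (n 0 z (n 0 z (n 0 z (n
 0 z (n 0 z (n 0 z (n 0 z (n 0 z (n 0 z (n 0 z (n 0 z (n 0 z (n 0 z (n 0 z
 z))))))))))))))))))))))))))))))))))))))))))))))))))) z)))))) (n 0 (n 375 (n 0 z (n 0 z (n 0 z
 (n 0 z (n 0 z (n 0 z (n 0 z (n 0 z (n 0 z (n 0 z (n 2 (n 1 z (n 1 z (n 2 (n 0 z (n 0 z (n 0 z
 (n 0 z (n 0 (n 3188 z z) (n 0 z z)))))) (n 1 z z)))) z))))))))))) (n 251 (n 0 z (n 0 z (n 0 z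
 (n 0 z (n 0 z (n 0 z z)))))) (n 373 (n 0 z (n 0 z (n 0 z (n 2 (n 1 z (n 1 z z)) (n 0 z (n 0 z
 z)))))) (n 797 (n 0 z (n 0 z (n 0 z (n 0 z (n 0 z (n 0 z (n 0 z z))))))) (n 797 (n 0 z (n 0 z
 (n 0 z (n 0 z (n 0 z (n 0 z (n 0 z z))))))) z))))) (n 0 (n 33 (n 0 z (n 0 z (n 0 z (n 0 z (n 0
 z (n 0 z (n 2 (n 1 z (n 2 (n 0 z (n 0 z (n 0 z (n 0 z (n 0 z (n 0 z z)))))) (n 2 (n 0 z (n 0 z
 (n 0 z (n 0 z (n 0 (n 8847899 z z) (n 0 z z)))))) z))) (n 0 z z)))))))) (n 345 (n 0 z (n 0 z (n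
 0 z (n 0 z (n 0 z (n 0 z (n 0 z (n 0 z (n 0 z (n 0 z (n 0 z (n 0 z (n 0 z (n 0 z
 z)))))))))))))) (n 341 (n 0 z (n 0 z (n 0 z (n 0 z (n 0 z (n 0 z (n 0 z (n 0 z (n 0 z (n 0 z (n
 0 z (n 0 z (n 0 z (n 0 z z)))))))))))))) (n 341 (n 0 z (n 0 z (n 0 z (n 0 z (n 0 z (n 0 z (n 0
 z (n 0 z (n 0 z (n 0 z (n 0 z (n 0 z (n 0 z (n 0 z z)))))))))))))) z)))) (n 0 (n 3 (n 0 z (n 0
 z (n 2 (n 1 z (n 1 z z)) (n 0 z (n 0 z (n 0 z (n 0 z (n 0 z z)))))))) (n 5 (n 0 z (n 0 z (n 0 z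
 (n 0 z (n 0 z (n 0 z (n 0 z (n 0 z (n 0 z (n 0 z (n 0 z z))))))))))) (n 5 (n 0 z (n 0 z (n 0 z
 (n 0 z (n 0 z (n 0 z (n 0 z (n 0 z (n 0 z (n 0 z (n 0 z z))))))))))) z))) (n 0 (n 1 (n 0 z (n 0
 z (n 0 z (n 0 z z)))) (n 1 (n 0 z (n 0 z (n 0 z (n 0 z z)))) z)) (n 0 (n 0 z z) (n 0 z z)))))))
 (n 0 (n 0 z (n 1 (n 6558475 z (n 6558475 z (n 6558475 z (n 6558475 z (n 6558475 z (n 6558475 z
 z)))))) (n 1 (n 1516 z (n 4261419 z (n 1516 z (n 1516 z (n 1516 z (n 1516 z z)))))) (n 0 z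
 z)))) (n 0 z z)))) z)))))))))), by decide +kernel⟩
theorem i10416 : ∃ t, chkR KT RW t 10416 10426 = true := ⟨(n 0xb59745acaaed640 (n 0 (n 323 (n
 3282443 z (n 0 z (n 2 z z))) (n 317 (n 6357803 z (n 0 z (n 3278363 z (n 0 z (n 0 z (n
 0x4ca8a8060785f81f81f8247a07618208607e189f8617e27df81f82186081e7e28217df7df7e08608228210801 z
 (n 0 z (n 0 z (n
 0xca8a8060782082082085f8207dd81f82086085f82186182081f7a082181f85f81f8207e081f85f8207e10801 z (n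
 0 z (n 0 z (n
 0xca6ca640785f8208207e08207df82282082182086182081f81f7e182082081f81f8207e082085f8208200801 z (n
 0 z (n 0 z (n 0 z (n 0 z z)))))))))))))))) (n 9 (n 0 z (n 0 z (n 0 z (n 6563099 z z)))) (n 313
 (n 0 z (n 0 z (n
 0x56c821b62199b82281c6a38204e2ae976b79d8de8e17218628d27ae51b85c79d91d69e8dc9a47627e08610081 z
 (n 0 z (n
 0x36c820b64091d82181d7228205e1a267a77de85f8a07618218977e861d85d7de89e71f89d9627a27df8610081 z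
 (n 2164283 z (n 0 z (n
 0x46ca81365291d82081c6e28205a1aa876979e85f8a07618618957ab59c85d7de8de6df89e96276181f8620081 z
 (n 0 z z))))))))) (n 1 (n 0 z (n 0 z (n 0 z (n 6563099 z (n 0 z (n 0 z (n 0 z (n 0 z z))))))))
 (n 0 (n 0 z (n 2164315 z (n 10 z (n 18 z (n 0 z (n 0 z z)))))) z)))))) (n 323 (n 0 (n 241 (n 0
 z (n 0 z (n 0 z (n 0 z (n 0 z (n 0 z (n 0 z (n 0 z (n 0 z (n 0 z (n 0 z (n 0 z (n 0 z (n 0 z (n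
 0 z (n 0 z (n 0 z (n 0 z (n 0 z (n 0 z z)))))))))))))))))))) (n 241 (n 0 z (n 0 z (n 0 z (n 0 z
 (n 0 z (n 0 z (n 0 z (n 0 z (n 0 z (n 0 z (n 0 z (n 0 z (n 0 z (n 0 z (n 0 z (n 0 z (n 0 z (n 0
 z (n 0 z (n 0 z z)))))))))))))))))))) z)) (n 0 (n 0 z z) (n 0 z z))) (n 0 (n 1 (n 3282443 z (n
 3282443 z (n 3282443 z (n 3282443 z (n 3282443 z (n 3282443 z z)))))) (n 0 z (n 1 (n 2540 z (n
 2540 z (n 2540 z (n 2540 z (n 2540 z (n 2540 z z)))))) z))) (n 0 z z)))) (n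
 0x89c543913a427143038998844a1384262611 (n 0 (n 453 (n 0 z (n 3282443 z (n 0 z (n 0 z (n 0 z
 z))))) (n 437 (n
 0xea64ca280791c91d81971d8628958a49ae71d81f71892681681c8208a27647618e381c7db89f85d91f9a10801 z
 (n 0 z (n 3278363 z (n
 0x14532651403a6ca8c864035707e5828b9b1ebc1b79477589e6b13e4b1c756ba18a18617a4b9e9a8a1932a8a34d87fb4a01001
 z (n 0 z (n 0 z (n 0 z (n
 0x2a64ca280782182086081f8207e081f8208208208208617e082082081f82081f8218207e082086081f8600801 z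
 (n 2 z (n
 0x2ca2a4080781f7e086081f7e17e181f8218208207e08a17e07e082081f82081f8217e17e082086082085f0801 z
 (n 0 z (n 0 z (n 0 z (n 0 z (n
 0xca8ca84038607e081f8208208217e086181f7e185f7e085f7df8a08208228208208207e086079f8617e00801 z (n
 0x2a64ca280381f85f82081f7e082181f8208208208208a17e086082081f81f82082281f7e07df8618208610801 z
 (n 0 z (n 0 z (n 0 z (n 0 z (n 0 z (n 10 z (n 0 z z))))))))))))))))))))))) (n 436 (n 3212843 z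
 (n 18 z (n 0 z (n 0 z z)))) (n 3 (n 6488603 z (n 0 z (n 26 z (n
 0x2ca8a8040781f86082082082085f8207e08207e181f7e081f81f8208227e182085f86182186075f7e27a00801 z
 (n 0 z (n 0 z (n 0 z (n
 0x2ca8a842078227e182181f7e07a281f82082081f8208a17e282082181d85f8208217e07e07e08608208610801 z
 (n 0 z (n 0 z (n 0 z (n 0 z (n 0 z (n 0 z (n 0 z (n 0 z (n 0 z (n 0 z (n 6488603 z (n 0 z (n 0
 z (n
 0xb28b28201c165465410388ca8a8020386086185c7e18227a27a0a617228db75d8e57a08a186085c7a36d97237607dc8239229a08e21801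
 z (n 0 z (n 0 z (n 0 z (n 6488603 z (n
 0x2ca2a4080781f7e086081f7e17e181f8218208207e08a17e07e082081f82081f8217e17e082086082085f0801 z
 (n 0 z (n 0 z (n 0 z (n
 0x65465420188ca8ca820389d7a275f81f95b85d76176591e82281d75f89f71a8a06e28658609de7e57e191f69c92775f1001
 z z))))))))))))))))))))))))))))))) (n 25 (n 34 z (n 0 z (n 0 z (n 2164299 z (n 0 z z))))) (n 0
 (n 0 z (n 42 z (n 50 z (n 2164315 z (n 0 z (n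
 0x6ca862040782282086281f6a47e081d7a081f7647e58217238a19207607a28628218df6e182471e7a37a00801 z
 z)))))) z)))))) (n 436 (n 0 (n 0 z (n 867 (n 0 z (n 0 z (n 0 z (n 0 z (n 0 z (n 0 z (n 0 z (n 0
 z (n 0 z (n 0 z (n 0 z (n 0 z (n 0 z (n 0 z (n 0 z (n 0 z (n 0 z (n 0 z (n 0 z (n 0 z (n 0 z (n
 0 z (n 0 z (n 0 z (n 0 z (n 0 z (n 0 z (n 0 z (n 0 z (n 0 z (n 0 z (n 0 z (n 0 z (n 0 z (n 0 z
 (n 0 z (n 0 z (n 0 z (n 0 z (n 0 z (n 0 z (n 0 z (n 0 z (n 0 z (n 0 z (n 0 z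
 z)))))))))))))))))))))))))))))))))))))))))))))) (n 55 (n 0 z (n 0 z (n 0 z (n 0 z (n 0 z (n 0 z
 (n 0 z (n 0 z (n 0 z (n 0 z (n 0 z (n 0 z (n 0 z (n 0 z (n 0 z (n 0 z (n 0 z (n 0 z (n 0 z (n 0
 z (n 0 z (n 0 z (n 0 z z))))))))))))))))))))))) (n 457 (n 0 z (n 0 z (n 0 z (n 0 z (n 0 z (n 0
 z (n 0 z (n 0 z (n 0 z (n 0 z (n 0 z (n 0 z (n 0 z (n 0 z (n 0 z (n 0 z (n 0 z (n 0 z (n 0 z (n
 0 z (n 0 z (n 0 z (n 0 z (n 0 z (n 0 z (n 0 z (n 0 z (n 0 z (n 0 z (n 0 z (n 0 z (n 0 z (n 0 z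
 (n 0 z (n 0 z (n 0 z (n 0 z (n 0 z (n 0 z (n 0 z (n 0 z (n 0 z (n 0 z (n 0 z (n 0 z (n 0 z
 z)))))))))))))))))))))))))))))))))))))))))))))) (n 49 (n 0 z (n 0 z (n 0 z (n 0 z (n 0 z (n 0 z
 (n 0 z (n 0 z (n 0 z (n 0 z (n 0 z (n 0 z (n 0 z (n 0 z (n 0 z (n
 0x161763762403800035ba13b0981c000225085d40c06000028ec6ec640300010176364020380000a3b23b2001c00017d4c98c4006002a52d0800050cca1000126584208009057ffa5580000080070d8002658003667ffb067ff29a8007a57fff117ff7dd7fff9480007480084f7ffd738000d98000a47ffee87ffbf87ffe8680091a7ff6057ffd5a80036380003a7ffc6c7ffc587ff92f7ffe9e80018c8000ee7ffb0380033c8000647fef937ff79f7ffc3180042e7ff9f18009367fffdb7fffb88005367ff9c68002d98001248005247ffb4f8004b08003c338d9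
 z (n 0 z (n 0 z (n 0 z (n 0 z (n 0 z (n 0 z (n 0 z (n 0 z (n 0 z (n 0 z (n 0 z (n 0 z (n 0 z (n
 0 z (n 0 z (n 0 z (n 0 z (n 0 z (n 0 z (n 0 z (n 0 z (n 0 z (n 0 z (n 0 z (n 0 z (n 0 z (n 0 z
 (n 0 z (n 0 z (n 0 z z)))))))))))))))))))))))))))))))))))))))))))))) (n 49 (n 0 z (n 0 z (n 0 z
 (n 0 z (n 0 z (n 0 z (n 0 z (n 0 z (n 0 z (n 0 z (n 0 z (n 0 z (n 0 z (n 0 z (n 0 z (n 0 z (n 0
 z (n 0 z (n 0 z (n 0 z (n 0 z (n 0 z (n 0 z (n 0 z (n 0 z (n 0 z (n 0 z (n 0 z (n 0 z (n 0 z (n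
 0 z (n 0 z (n 0 z (n 0 z (n 0 z (n 0 z (n 0 z (n 0 z (n 0 z (n 0 z (n 0 z (n 0 z (n 0 z (n 0 z
 (n 0 z (n 0 z z)))))))))))))))))))))))))))))))))))))))))))))) z)))))) (n 0 (n 879 (n 2 (n 1 z
 (n 1 z (n 1 z (n 1 z z)))) (n 0 z (n 0 z (n 0 z (n 0 z (n 0 z (n 0 z (n 0 z (n 0 z (n 0 z (n 0
 z (n 0 z (n 0 z (n 0 z (n 0 z (n 0 z (n 0 z (n 0 z (n 0 z (n 0 z (n 0 z (n 0 z (n 0 z (n 0 z (n
 0 z (n 0 z (n 0 z (n 0 z (n 0 z (n 0 z (n 0 z (n 0 z (n 0 z (n 0 z (n 0 z (n 0 z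
 z)))))))))))))))))))))))))))))))))))) (n 1017 (n 0 z (n 0 z (n 0 z (n 0 z (n 0 z (n 0 z (n 0 z
 (n 0 z (n 0 z (n 0 z (n 0 z (n 0 z (n 0 z (n 0 z (n 0 z (n 0 z (n 0 z (n 0 z (n 0 z (n 0 z (n 0
 z z))))))))))))))))))))) (n 777 (n 0 z (n 0 z (n 2 (n 1 z (n 1 z z)) (n 0 z (n 0 z (n 0 z (n 0
 z (n 0 z z)))))))) (n 877 (n 0 z (n 0 z (n 0 z (n 0 z (n 2 (n 0 z z) (n 0 z (n 0 z z))))))) (n
 877 (n 0 z (n 0 z (n 0 z (n 2 z (n 0 z (n 0 z (n 0 z z))))))) z))))) (n 0 (n 7 (n 0 z (n 0 z (n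
 0 z (n 0 z (n 0 z (n 0 z (n 0 z (n 0 z z)))))))) (n 697 (n 0 z (n 0 z (n 0 z (n 0 z (n 0 z (n 0
 z (n 0 z (n 0 z (n 0 z (n 0 z z)))))))))) (n 869 (n 0 z (n 0 z (n 0 z (n 0 z (n 0 z (n 0 z (n 0
 z (n 0 z (n 0 z (n 0 z (n
 0x6ec8ec62038a08227a082091a7de82295f81f7dc7648a379f76082085e8655e08236e295a81d8df8dd8e20801 z
 (n
 0x1e4ec8ec860700004d754641303800065b2a308181c0001add5188040e001642d08000284ca1000099b842080047d7ffcee8000008003128001fc8001b27ffd8b7ff8d680027e7fffe07ffbbb8000638000208004457ffe8e8000437fffc08000207ffcf97fff7c8005497ffc1f7ffec280017480002e7ffe337ffe8e7ffcc97fff948000008001577ffd4a8001d57ffe637ff75c7ffc367ffd248001c77ffd408004527fff9f80002b80039f7ffd708001928001368001527ffcf08002498001b920d9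
 z (n 0 z (n 0 z (n 0 z (n 0 z (n 0 z (n 0 z (n 0 z (n 0 z (n 0 z (n 0 z (n 0 z (n 0 z (n 0 z (n
 0 z (n 0 z (n 0 z z)))))))))))))))))))))))))))) (n 869 (n 0 z (n 0 z (n 0 z (n 0 z (n 0 z (n 0
 z (n 0 z (n 0 z (n 0 z (n 0 z (n 0 z (n 0 z (n 0 z (n 0 z (n 0 z (n 0 z (n 0 z (n 0 z (n 0 z (n
 0 z (n 0 z (n 0 z (n 0 z (n 0 z (n 0 z (n 0 z (n 0 z (n 0 z z)))))))))))))))))))))))))))) z))))
 (n 0 (n 51 (n 0 z (n 0 z (n 0 z (n 0 z (n 0 z (n 0 z (n 0 z z))))))) (n 49 (n 0 z (n 0 z (n 0 z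
 (n 0 z (n 0 z (n 0 z (n 0 z (n 0 z (n 0 z (n 0 z (n 0 z (n 0 z (n 0 z (n 0 z (n
 0x11f761720403800125bb23b0901c0009d5d9590480600011eea8c8620700008f76276210380003a3b13b1001c00034594d50400e00617ed08000bcfca10002a77842080146e7ff4a8800000800ea6800499800a877ff4ba7fe1198010017ffd7e7feb887ffcd780023c8013e07ff9bc8001d98002c07ffc3f7ff6337ffda38015487fea1f7ff8ff8007588001477ff6337ff7787ff0997ffb3e8004c28003437ff39a8007d57fffaa7fd9107fef807ff66a8008537ff27080134f80005d7fff45800ab07ff2048008bd8002918009ad7ff458800bbb80086538d9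
 z (n 0 z (n 0 z (n 0 z (n 0 z (n 0 z (n 0 z (n 0 z (n 0 z (n 0 z (n 0 z (n 0 z (n 0 z (n 0 z (n
 0 z (n 0 z (n 0 z (n 0 z (n 0 z (n 0 z (n 0 z (n 0 z z)))))))))))))))))))))))))))))))))))) (n
 49 (n 0 z (n 0 z (n 0 z (n 0 z (n 0 z (n 0 z (n 0 z (n 0 z (n 0 z (n 0 z (n 0 z (n 0 z (n 0 z
 (n 0 z (n 0 z (n 0 z (n 0 z (n 0 z (n 0 z (n 0 z (n 0 z (n 0 z (n 0 z (n 0 z (n 0 z (n 0 z (n 0
 z (n 0 z (n 0 z (n 0 z (n 0 z (n 0 z (n 0 z (n 0 z (n 0 z (n 0 z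
 z)))))))))))))))))))))))))))))))))))) z))) (n 0 (n 53 (n 0 z (n 0 z (n 0 z (n 0 z (n 0 z (n 0 z
 (n 0x6ec4ec26038a08227a082091a7de82295f81f7dc7648a379f76082085e8655e08236e295a81d8df8dd8e20801
 z (n
 0xa7bb2b10981c010935d85d8080e00c13cec4ec420700000b753632103802120b21b90080c002355d49880406000940ec4ec4007000017763631003800035b29b18800c00fb5594cc8400e0cacc6d08018827ca100584de842082fa697e24c380000081dad1810ced80b4387e1aaf7bfab08232047fa3237d61ef8032cf7ff249829df57f76198019be801cbe7ff0457e80737f7afd833e077d3d057ef60f810ca3805ca07ec85d7f1f147dfc558000008001688098837e4aec8113bb7f7e0c7a94ab7d8c527e60b8813b5e7e10be8279127fef3b7fec9a81f7997e670a80c029809a8c8181f77e3df28175a681298b50d9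
 z (n 0 z (n 0 z (n 0 z (n 0 z (n 0 z (n 0 z (n 0 z z))))))))))))))) (n 53 (n 0 z (n 0 z (n 0 z
 (n 0 z (n 0 z (n 0 z (n 0 z (n 0 z (n 0 z (n 0 z (n 0 z (n 0 z (n 0 z (n 0 z (n 0 z
 z))))))))))))))) z)) (n 0 (n 0 z z) (n 0 z z))))))) (n 0 (n 1 (n 6488603 z (n 3212843 z (n
 3212843 z (n 3212843 z (n 3212843 z (n 3212843 z z)))))) (n 1 (n 3628 z (n 3628 z (n 3628 z (n
 6488603 z (n 3628 z (n 3628 z z)))))) (n 0 z (n 0 z z)))) (n 0 z z)))) (n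
 0xb0425c42a8d406476304a (n 0 (n 585 (n 3282443 z (n 0 z (n 0 z (n 0 z (n 0 z (n 0 z (n 0 z
 z))))))) (n 709 (n 0 z (n 3278363 z z)) (n 583 (n 2 z (n
 0x4ca6ca620381f85f85d8607e181f8a07de7e08218a07e17e089f8a369f8208608208607de8208207e27e20801 z
 (n 0 z (n 3212843 z (n 0 z (n 0 z (n 0 z (n 0 z (n 0 z (n 0 z (n 0 z z))))))))))) (n 3 (n 0 z
 (n 0 z (n 0 z (n 0 z (n 0 z (n 0 z (n
 0x290b18201c26535204019cca64208033d90d5008062b21a88100c2654640101a2c86a84007019519440060329328800cb6535210018ac868420078a095bd908ed7737ee5dd46b5a07d495489e7aa997b658627e792e72b5de6db8265e47247a35801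
 z (n 0 z (n
 0x1b65281e92375f8257a37e18207648217e07df81e8237e38227a17a07df86182085f81e7e18608600041 z (n 0 z
 (n 6631963 z (n 10 z (n 0 z (n 0 z (n 0 z (n 0 z (n 0 z (n 0 z (n 0 z (n 0 z (n 0 z (n 18 z (n
 0x1362185e8e279f8638218217e07a28218207df81f7e17e28217e08217df86082181e81e8218608200041 z (n
 0x2c84c840038207e08a08207a082082082082082082082082085f82082081f8608217e08208218608218200801 z
 (n 0 z (n 0 z (n 0 z (n 0 z (n 0 z (n 0 z (n 0 z (n 0 z (n 0 z (n 26 z (n 0 z (n 0 z (n 0 z (n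
 0 z (n 0 z (n 0 z (n 0 z (n 0 z (n 0 z (n 0 z (n
 0xb62081f8a179f86282182081f7a28207e082081f8227e18217e07e07e182082081f85f8208208600041 z (n 0 z
 (n 0 z (n 6631963 z (n 0 z (n 0 z (n 0 z z)))))))))))))))))))))))))))))))))))))))))))))))))))
 (n 1 (n 0 z (n 2164299 z (n 0 z (n 0 z (n 0 z z))))) (n 0 (n 6631963 z (n 0 z (n 0 z (n 0 z (n
 0 z z))))) z)))))) (n 709 (n 0 (n 247 (n 0 z (n 0 z (n 0 z (n 0 z (n 0 z (n 0 z z)))))) (n 247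
 (n 0 z (n 0 z (n
 0x376576500386ea4ea400381f8607a281e85d7dc89f89b8618a38637e07df81f86081f8e079f7de81e7e181e85f8607a21001
 z (n 0 z (n 0 z (n 0 z z)))))) (n 247 (n 0 z (n 0 z (n 0 z (n 0 z (n 0 z (n 0 z z)))))) z))) (n
 0 (n 0 z (n 0 z z)) (n 0 (n 0 z z) (n 0 z z)))) (n 0 (n 0 z (n 1 (n 3278363 z (n 3278363 z (n
 6631963 z (n 3278363 z (n 3278363 z (n 3278363 z z)))))) z)) (n 0 z z)))) (n
 0x68935844994855b6c12594146db4094620e22988d368824aac5253419 (n 0 (n 153 (n 0 z (n 0 z (n 0 z (n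
 3282443 z z)))) (n 255 (n
 0x2ca2a4080380807f808180808180808080818080807f80808080807f80807f7f80818080808080808080808080808081808080808080800809
 z (n 2 z (n 10 z (n 0 z (n
 0xcc6538080747c7b6f957391757c828f7881758e79788085817e7d83896f7f856f8d7f9c9b7e948e98896e5e72757983677a7a87860049
 z (n 0 z (n 0 z (n 0 z (n
 0x8ca6c804077f7f7e7e857d8b7d837d8182837f7b807b807487817f7e7882817a868b7477887e86798385828b836e7683808475817984840809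
 z (n
 0xcc6438080747c7b6f957391757c828f7881758e79788085817e7d83896f7f856f8d7f9c9b7e948e98896e5e72757983677a7a87860049
 z (n 18 z (n 3278363 z (n
 0xcc6408080747c7b6f957391757c828f7881758e79788085817e7d83896f7f856f8d7f9c9b7e948e98896e5e72757983677a7a87860049
 z (n
 0xcc6328080747c7b6f957391757c828f7881758e79788085817e7d83896f7f856f8d7f9c9b7e948e98896e5e72757983677a7a87860049
 z z)))))))))))))) (n 129 (n 26 z (n 34 z (n 0 z (n 0 z (n 42 z (n 3212843 z z)))))) (n 27 (n 50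
 z (n
 0x1eca8a802037d7e7e7e807685798183897f8589817b93879379887c7983757a85617b6d6c7d888aaa9e789c8893878c807c598d5b9d5c810809
 z (n 58 z (n 2164283 z (n 66 z (n 0 z (n 0 z z))))))) (n 1 (n
 0xb2a299080c119514c040e0aca6c620077e7c817985788b7d828684847f817a8180827e8988777c777d7a7f76897572857e868e8e8b888b86718083746f717b8775881809
 z (n 74 z (n 2164299 z (n
 0xcc6328080747c7b6f957391757c828f7881758e79788085817e7d83896f7f856f8d7f9c9b7e948e98896e5e72757983677a7a87860049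
 z (n 0 z (n 3282507 z (n 0 z (n 0 z (n 0 z (n 0 z (n 0 z z))))))))))) (n 0 (n 82 z (n 6624043 z
 (n 0 z (n 0 z (n 0 z z))))) z)))))) (n 153 (n 0 (n 0 z (n 0 z (n 477 (n 0 z (n 0 z (n 0 z (n 0
 z (n 0 z (n 0 z (n 0 z (n 0 z (n 0 z (n 0 z (n 0 z (n 0 z (n 0 z (n 0 z (n 0 z (n 0 z
 z)))))))))))))))) (n 477 (n 0 z (n 0 z (n 0 z (n 0 z (n 0 z (n 0 z (n 0 z (n 0 z (n 0 z (n 0 z
 (n 2 (n 0 z (n 1 z (n 1 z (n 2 (n 0 z (n 0 z (n 0 z (n 0 z (n 0 z (n 0 z z)))))) (n 1 z (n 1 z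
 z)))))) (n 0 z (n 0 z (n 0 z (n 0 z (n 0 z z)))))))))))))))) (n 477 (n
 0x1a476080897289747380717f73807f97808773977e8d7674828d85858d67686e568b7f937e989d7fab977476745f7f8d66786f7a8b0049
 z (n 2 (n 1 z (n 1 z (n 2 (n 0 z (n 0 z (n 0 z (n 0 z (n 0 z (n 0 (n 8798499 z z) z)))))) (n 1
 z (n 1 z z))))) (n 0 z (n 0 z (n 0 z (n 0 z (n 0 z (n 0 z (n 0 z (n 0 z (n 0 z (n 0 z (n 0 z (n
 0 z (n 0 z (n 0 z z)))))))))))))))) (n 473 (n 0 z (n 0 z (n 0 z (n 0 z (n 0 z (n 0 z (n 0 z (n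
 0 z (n 0 z (n 0 z (n 0 z (n 0 z (n 0 z (n 0 z (n 0 z (n 0 z (n 0 z (n 0 z (n 0 z (n 0 z (n 0 z
 (n 0 z (n 0 z (n 0 z (n 0 z (n 0 z (n 0 z (n 0 z (n 0 z (n 0 z (n 0 z (n 0 z (n 0 z (n 0 z (n 0
 z (n 0 z (n 0 z (n 0 z (n 0 z (n 0 z (n 0 z (n 0 z (n 0 z (n 0 z (n 0 z (n 0 z
 z)))))))))))))))))))))))))))))))))))))))))))))) (n 473 (n 6426739 z (n 2 (n 0 z (n 1 z (n 1 z
 z))) (n 0 z (n 0 z (n 0 z (n 0 z (n 0 z (n 0 z (n 0 z (n 0 z (n 0 z (n 0 z (n 0 z (n 0 z (n 0 z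
 (n 0 z (n 0 z (n 0 z (n 0 z (n 0 z (n 0 z (n 0 z (n 0 z (n 0 z (n 0 z (n 0 z (n 0 z (n 0 z (n 0
 z (n 0 z (n 0 z (n 0 z (n 0 z (n 0 z (n 0 z (n 0 z (n 0 z (n 0 z (n 0 z (n 0 z (n 0 z (n 0 z (n
 0 z (n 0 z (n 0 z (n 0 z z)))))))))))))))))))))))))))))))))))))))))))))) (n 473 (n 0 z (n 0 z
 (n 0 z (n 0 z (n 0 z (n 0 z (n 0 z (n 0 z (n 0 z (n 0 z (n 0 z (n 7749923 z (n 0 z (n 0 z (n 0
 z (n 0 z (n 0 z (n 0 z (n 0 z (n 0 z (n 0 z (n 0 z (n 0 z (n 0 z (n 0 z (n 0 z (n 0 z (n 0 z (n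
 0 z (n 0 z (n 0 z (n 0 z (n 0 z (n 0 z (n 0 z (n 0 z (n 0 z (n 0 z (n 0 z (n 0 z (n 0 z (n 0 z
 (n 0 z (n 0 z (n 0 z (n 0 z z)))))))))))))))))))))))))))))))))))))))))))))) (n 483 (n 0 z (n 0
 z (n 0 z (n 0 z (n 0 z (n 0 z (n 0 z (n 0 z (n 0 z (n 0 z (n 6426739 z (n 2 (n 1 z z) (n 0 z (n
 0 z (n 0 z (n 0 z (n 0 z (n 0 z (n 0 z (n 0 z (n 0 z (n 0 z (n 0 z (n 0 z (n 0 z (n 0 z (n 0 z
 (n 0 z (n 0 z z))))))))))))))))))))))))))))) (n 485 (n 0 z (n 0 z (n 0 z (n 0 z (n 6426739 z (n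
 2 z (n 0 z (n 0 z (n 0 z (n 0 z (n 0 z (n 0 z (n 0 z (n 0 z (n 0 z (n 0 z (n 0 z (n 0 z (n 0 z
 (n 0 z (n 0 z (n 0 z (n 0 z (n 0 z (n 0 z (n 0 z (n 0 z (n 0 z (n 0 z (n 0 z (n 0 z (n 0 z
 z)))))))))))))))))))))))))))))))) z)))))))))) (n 0 (n 0 z (n 477 (n 0 z (n 0 z (n 0 z (n 0 z (n
 2 (n 0 z (n 0 z (n 2 (n 0 z (n 0 z (n 0 z (n 0 z (n 0 z (n 0 z z)))))) (n 2 (n 0 z (n 0 z (n 0
 z (n 0 z (n 0 z (n 0 z z)))))) (n 2 (n 0 z (n 0 z (n 0 z (n 0 z (n 0 z (n 0 z z)))))) (n 2 (n 0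
 z (n 0 z (n 0 z (n 0 z (n 0 z (n 0 z z)))))) (n 2 (n 0 z (n 0 z (n 0 z (n 0 z (n 0 z (n 0 z
 z)))))) z))))))) (n 0 z z)))))) (n 477 (n 0 z (n 0 z (n 0 z (n 0 z (n 0 z (n 2 (n 0 z (n 2 (n 0
 z (n 0 z (n 0 z (n 0 z (n 0 z (n 0 z z)))))) (n 2 (n 0 z (n 0 z (n 0 z (n 0 z (n 0 z (n 0 z
 z)))))) (n 2 (n 0 z (n 0 z (n 0 z (n 0 z (n 0 z (n 0 z z)))))) (n 2 (n 0 z (n 0 z (n 0 z (n 0 z
 (n 0 z (n 0 z z)))))) (n 2 (n 0 z (n 0 z (n 0 z (n 0 z (n 0 z (n 0 z z)))))) z)))))) z)))))) (n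
 477 (n 2 (n 2 (n 0 z (n 0 z (n 0 z (n 0 z (n 0 z (n 0 z z)))))) (n 2 (n 0 z (n 0 z (n 0 z (n 0
 z (n 0 z (n 0 z z)))))) (n 2 (n 0 z (n 0 z (n 0 z (n 0 z (n 0 z (n 0 z z)))))) (n 2 (n 0 z (n 0
 z (n 0 z (n 0 z (n 0 z (n 0 z z)))))) (n 2 (n 0 z (n 0 z (n 0 z (n 0 z (n 0 z (n 0 z z))))))
 z))))) (n 0 z (n 0 z (n 0 z (n 0 z (n 0 z z)))))) (n 473 (n 0 z (n 0 z (n 2 (n 0 z (n 0 z (n 2
 (n 0 z (n 0 z (n 0 z (n 0 z (n 0 z (n 0 z z)))))) (n 2 (n 0 z (n 0 z (n 0 z (n 0 z (n 0 z (n 0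
 z z)))))) z)))) (n 0 z (n 0 z (n 0 z (n 0 z (n 0 z z)))))))) (n 473 (n 0 z (n 0 z (n 0 z (n 0 z
 (n 0 z (n 0 z (n 0 z (n 0 z z)))))))) (n 473 (n 0 z (n 2 (n 2 (n 0 z (n 0 z (n 0 z (n 0 z (n 0
 z (n 0 z z)))))) (n 2 (n 0 z (n 0 z (n 0 z (n 0 z (n 0 z (n 0 z z)))))) z)) (n 0 z (n 0 z (n 0
 z (n 0 z (n 0 z (n 0 z z)))))))) (n 63 (n 0 z (n 0 z (n 0 z (n 0 z (n 0 z (n 0 z (n 0 z (n 0 z
 (n 0 z (n 0 z (n 0 z (n 0 z (n 0 z (n 0 z (n 0 z (n 0 z (n 0 z (n 0 z (n 0 z (n 0 z (n 0 z (n 0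
 z z)))))))))))))))))))))) (n 505 (n 0 z (n 2 z (n 0 z (n 0 z (n 0 z z))))) z))))))))) (n 0 (n
 259 (n
 0x14c7608089748776767f757f76807f92818576937f8b7876828a84848a6c6d715e8a7f917f949880a292767876667f8b6b79737b880049
 z (n 2 (n 0 z (n 0 z (n 1 z (n 1 z (n 2 (n 0 z (n 0 z (n 0 z (n 0 z (n 0 z (n 0 z z)))))) (n 1
 z (n 1 z z))))))) (n 0 z (n 0 z (n 0 z (n 0 z (n 0 z (n 0 z (n 0 z (n 0 z (n 0 z (n 0 z (n 0 z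
 (n 0 z (n 0 z (n 0 z z)))))))))))))))) (n 259 (n 0 z (n 0 z (n 0 z (n 0 z (n 2 (n 0 z (n 1 z (n
 1 z (n 2 (n 0 z (n 0 z (n 0 z (n 0 z (n 0 z (n 0 z z)))))) (n 1 z (n 1 z z)))))) (n 0 z (n 0 z
 (n 0 z (n 0 z (n 0 z (n 0 z (n 0 z (n 0 z (n 0 z (n 0 z (n 0 z z)))))))))))))))) (n 259 (n 0 z
 (n 0 z (n 0 z (n 0 z (n 0 z (n 0 z (n 0 z (n 0 z (n 0 z (n 0 z (n 0 z (n 0 z (n 0 z (n 0 z (n 0
 z (n 0 z z)))))))))))))))) (n 535 (n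
 0x1a476080897289747380717f73807f97808773977e8d7674828d85858d67686e568b7f937e989d7fab977476745f7f8d66786f7a8b0049
 z (n 2 (n 0 z (n 0 z (n 1 z (n 1 z z)))) (n 0 z (n 0 z (n 0 z (n 0 z (n 0 z (n 0 z (n 0 z (n 0
 z (n 0 z (n 0 z (n 0 z (n 0 z (n 0 z (n 0 z (n 0 z (n 0 z (n 0 z (n 0 z (n 0 z (n 0 z (n 0 z (n
 0 z (n 0 z (n 0 z (n 0 z (n 0 z (n 0 z (n 0 z (n 0 z (n 0 z (n 0 z (n 0 z (n 0 z
 z))))))))))))))))))))))))))))))))))) (n 535 (n 0 z (n 0 z (n 0 z (n 0 z (n 0 z (n 0 z (n 0 z (n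
 0 z (n 0 z (n 0 z (n 0 z (n 0 z (n 0 z (n 0 z (n 0 z (n 0 z (n 0 z (n 0 z (n 0 z (n 0 z (n 0 z
 (n 0 z (n 0 z (n 0 z (n 0 z (n 0 z (n 0 z (n 0 z (n 0 z (n 0 z (n 0 z (n 0 z (n 0 z (n 0 z (n 0
 z z))))))))))))))))))))))))))))))))))) (n 535 (n 0 z (n 0 z (n 0 z (n 0 z (n 0 z (n 0 z (n 0 z
 (n 0 z (n 0 z (n 0 z (n 0 z (n 0 z (n 0 z (n 0 z (n 0 z (n 0 z (n 0 z (n 0 z (n 0 z (n 0 z (n 0
 z (n 0 z (n 0 z (n 0 z (n 0 z (n 0 z (n 0 z (n 0 z (n 0 z (n 0 z (n 0 z (n 0 z (n 0 z (n 0 z (n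
 0 z z))))))))))))))))))))))))))))))))))) (n 243 (n 0 z (n 0 z (n 0 z (n 0 z (n 0 z (n 0 z (n 0
 z (n 0 z (n 0 z (n 0 z (n 0 z (n 0 z (n 0 z (n 0 z (n 0 z (n 0 z (n 0 z (n 0 z (n 0 z (n 0 z (n
 0 z (n 0 z (n 0 z (n 0 z (n 0 z (n 0 z (n 0 z (n 0 z (n 0 z (n 0 z (n 0 z (n 0 z (n 0 z (n 0 z
 (n 0 z (n 0 z z)))))))))))))))))))))))))))))))))))) (n 241 (n 0 z (n 0 z (n 0 z (n 0 z (n 0 z
 (n 0 z (n 0 z (n 0 z (n 0 z (n 0 z (n 0 z (n 0 z (n 0 z (n 0 z (n 0 z (n 0 z (n 0 z (n 0 z (n 0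
 z (n 0 z (n 0 z (n 0 z (n 0 z (n 0 z (n 0 z z))))))))))))))))))))))))) z)))))))) (n 0 (n 0 z (n
 0 z (n 709 (n 0 z (n 0 z (n 0 z (n 0 z (n 0 z (n 0 z (n 0 z (n 0 z (n 0 z z))))))))) (n 709 (n
 2 (n 0 z (n 1 z (n 1 z z))) (n 0 z (n 0 z (n 0 z (n 0 z (n 0 z (n 0 z (n 0 z (n 0 z z)))))))))
 (n 709 (n 0 z (n 0 z (n 0 z (n 0 z (n 0 z (n 2 (n 2 (n 0 z (n 0 z (n 0 z (n 0 z (n 0 z (n 0 z
 z)))))) (n 2 (n 0 z (n 0 z (n 0 z (n 0 z (n 0 z (n 0 z z)))))) z)) (n 0 z (n 0 z (n 0 z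
 z))))))))) (n 255 (n 0 z (n 2 (n 1 z z) (n 0 z (n 0 z (n 0 z (n 0 z (n 0 z (n 0 z (n 0 z
 z))))))))) (n 253 (n 0 z (n 2 z (n 0 z (n 0 z (n 0 z z))))) z))))))) (n 0 (n 0 z (n 1337 (n 0 z
 (n 0 z (n 0 z (n 0 z (n 0 z (n 0 z (n 0 z (n 0 z (n 0 z (n 0 z (n 0 z (n 0 z (n 0 z (n 0 z (n 0
 z (n 0 z (n 0 z (n 0 z (n 0 z (n 0 z (n 0 z (n 0 z z)))))))))))))))))))))) (n 1337 (n 2 (n 0 z
 (n 1 z (n 1 z z))) (n 0 z (n 0 z (n 0 z (n 0 z (n 0 z (n 0 z (n 0 z (n 0 z (n 0 z (n 0 z (n 0 z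
 (n 0 z (n 0 z (n 0 z (n 0 z (n 0 z (n 0 z (n 0 z (n 0 z (n 0 z (n 0 z z))))))))))))))))))))))
 (n 1337 (n 0 z (n 0 z (n 0 z (n 0 z (n 0 z (n 0 z (n 0 z (n 0 z (n 2 (n 2 (n 0 z (n 0 z (n 0 z
 (n 0 z (n 0 z (n 0 z z)))))) (n 2 (n 0 z (n 0 z (n 0 z (n 0 z (n 0 z (n 0 z z)))))) z)) (n 0 z
 (n 0 z (n 0 z (n 0 z (n 0 z (n 0 z (n 0 z (n 0 z (n 0 z (n 0 z (n 0 z (n 0 z (n 0 z
 z)))))))))))))))))))))) (n 255 (n 0 z (n 0 z (n 2 (n 1 z z) (n 0 z (n 0 z (n 0 z (n 0 z (n 0 z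
 z)))))))) (n 253 (n 0 z (n 0 z (n 2 z (n 0 z (n 0 z z))))) z)))))) (n 0 (n 487 (n 2 (n 0 z (n 0
 z (n 1 z (n 1 z z)))) (n 0 z (n 0 z (n 0 z (n 0 z (n 0 z (n 0 z (n 0 z (n 0 z (n 0 z (n 0 z (n
 0 z (n 0 z (n 0 z (n 0 z (n 0 z (n 0 z z))))))))))))))))) (n 487 (n 0 z (n 0 z (n 0 z (n 0 z (n
 0 z (n 0 z (n 0 z (n 0 z (n 0 z (n 0 z (n 0 z (n 0 z (n 0 z (n 0 z (n 0 z (n 0 z (n 0 z
 z))))))))))))))))) (n 487 (n 0 z (n 0 z (n 0 z (n 0 z (n 0 z (n 0 z (n 0 z (n 0 z (n 0 z (n 0 z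
 (n 0 z (n 0 z (n 0 z (n 0 z (n 0 z (n 0 z (n 0 z z))))))))))))))))) (n 531 (n 0 z (n 0 z (n 0 z
 (n 0 z (n 0 z (n 0 z (n 0 z (n 0 z (n 0 z (n 0 z (n 0 z (n 0 z (n 0 z z))))))))))))) (n 529 (n
 0 z (n 0 z (n 0 z (n 0 z (n 0 z z))))) z))))) (n 0 (n 0 z (n 0 z (n 51 (n 0 z (n 0 z (n 0 z (n
 0 z (n 0 z (n 2 (n 1 z z) (n 0 z (n 0 z (n 0 z (n 0 z (n 0 z (n 0 z (n 0 z (n 0 z (n 0 z (n 0 z
 z)))))))))))))))) (n 49 (n 0 z (n 0 z (n 0 z (n 0 z (n 2 z (n 0 z (n 0 z (n 0 z (n 0 z (n 0 z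
 z)))))))))) z)))) (n 0 (n 0 z (n 735 (n 0 z (n 0 z (n 0 z (n 0 z (n 0 z (n 0 z (n 0 z (n 0 z
 z)))))))) (n 733 (n 0 z (n 0 z (n 0 z (n 0 z (n 0 z (n 0 z (n 0 z (n 0 z (n 0 z (n 0 z
 z)))))))))) z))) (n 0 (n 51 (n 0 z (n 0 z (n 0 z (n 2 (n 1 z z) (n 0 z (n 0 z (n 0 z (n 0 z (n
 0 z (n 0 z z)))))))))) (n 49 (n 0 z (n 0 z (n 0 z (n 0 z (n 0 z (n 0 z (n 0 z (n 0 z z))))))))
 z)) (n 0 (n 961 (n 0 z (n 0 z (n 0 z (n 0 z (n 0 z (n 0 z (n 0 z (n 0 z (n 0 z (n 0 z (n 0 z (n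
 0 z (n 0 z (n 0 z z)))))))))))))) z) (n 0 z z))))))))))) (n 0 (n 0 z (n 0 z (n 0 z (n 1 (n
 3282443 z (n 3282443 z (n 3282443 z (n 3282443 z (n 3282443 z (n 3282443 z z)))))) z)))) (n 0 z
 z)))) (n 0xaab9454c9a1b49da246a50d271055c95b09aada0caaab00a35815b480 (n 0 (n 407 (n 3282443 z
 (n 2 z (n
 0x4aa64ca0807848d8c5c6882928d9a605d937880716b8f558998878a668b9b9a80848689805a808d897381739f85767673788e7f657691800809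
 z (n
 0x1995195080e1ac86a864037b78808b8c838a717f8094837e7a897d76897b7e7090858d738f7e867c937ea2878c79768077848075856f847589757f75801009
 z (n
 0xea42ca08077e7d7f7e8183837c7c7b8b887f817e787e807f8481868283807d80857b7e808980807e807f8282847e80807e8181807e7f810809
 z (n 0 z (n 10 z (n 18 z (n 0 z z))))))))) (n 33 (n 0 z (n 3278363 z (n 0 z (n 0 z (n 26 z
 z))))) (n 173 (n 0 z (n 34 z (n 3212843 z (n
 0x2ca8ca80037f817f807e808180808080828081807f80817f808080808080808080808080808080808080808080808080808080808080800809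
 z z)))) (n 3 (n 2164283 z (n 0 z (n 0 z (n 0 z (n 0 z z))))) (n 1 (n 0 z (n 42 z (n 0 z (n
 0x565365320186b29b28100c559514c080e4cca8a6400371788a9781817c759779937e78948d706e65748a98787486a78b7f8ea2586ca08f7a887e79b66d926f81866d777b6884887c2009
 z (n 2164299 z (n 0 z (n 0 z (n 50 z (n 58 z (n 0 z z)))))))))) (n 0 (n 66 z (n 2164315 z (n 74
 z (n 82 z (n
 0xc86c8640380807f808080808080807f8080807f808180808080807f80807f7e8081807f8080808080808081807f8180808080808081800809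
 z (n 0 z z)))))) z)))))) (n 173 (n 0 (n 0 z (n 0 z (n 951 (n 0 z (n 0 z (n 0 z (n 0 z (n 0 z (n
 0 z (n 0 z (n 0 z (n 0 z (n 0 z (n 0 z (n 0 z (n 0 z (n 0 z (n 0 z (n 0 z (n 0 z (n 0 z (n 0 z
 (n 0 z (n 0 z (n 0 z (n 0 z (n 0 z (n 0 z (n 0 z z)))))))))))))))))))))))))) (n 347 (n 0 z (n 0
 z (n 0 z (n 0 z (n 0 z (n 0 z (n 0 z (n 0 z (n 0 z (n 0 z (n 0 z (n 0 z (n 0 z (n 0 z (n 0 z (n
 0 z (n 0 z (n 0 z (n 0 z (n 0 z (n 0 z (n 0 z (n 0 z (n 0 z (n 0 z z)))))))))))))))))))))))))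
 (n 339 (n 0 z (n 2 (n 0 z (n 0 z (n 1 z (n 2 (n 0 z (n 0 z (n 0 z (n 0 z (n 0 z (n 0 z z))))))
 (n 1 z z))))) (n 0 z (n 0 z (n 0 z (n 0 z (n 0 z (n 0 z (n 0 z z))))))))) (n 339 (n 0 z (n 0 z
 (n 0 z (n 0 z (n 0 z (n 0 z (n 0 z (n 0 z (n 0 z z))))))))) (n 339 (n 0 z (n 0 z (n 0 z (n 0 z
 (n 0 z (n 0 z (n 0 z (n 2 (n 1 z (n 2 (n 0 z (n 0 z (n 0 z (n 0 z (n 0 z (n 0 z z)))))) (n 1 z
 z))) (n 0 z z))))))))) (n 337 (n 0 z (n 0 z (n 0 z (n 0 z (n 0 z (n 0 z (n 0 z (n 0 z (n 0 z (n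
 0 z (n 0 z (n 0 z (n 0 z (n 0 z (n 0 z (n 0 z (n 0 z (n 0 z (n 0 z (n 0 z (n 0 z (n 0 z (n 0 z
 (n 0 z (n 0 z (n 0 z (n 0 z (n 0 z z)))))))))))))))))))))))))))) (n 337 (n 0 z (n 0 z (n 0 z (n
 0 z (n 0 z (n 0 z (n 0 z (n 0 z (n 0 z (n 0 z (n 0 z (n 0 z (n 0 z (n 0 z (n 0 z (n 0 z (n 0 z
 (n 0 z (n 0 z (n 0 z (n 0 z (n 0 z (n 0 z (n 0 z (n 0 z (n 0 z (n 0 z (n 0 z
 z)))))))))))))))))))))))))))) (n 337 (n 0 z (n 0 z (n 0 z (n 0 z (n 0 z (n 0 z (n 0 z (n 0 z (n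
 0 z (n 0 z (n 0 z (n 0 z (n 0 z (n 0 z (n 0 z (n 2 z (n
 0xa3b08237618281837c7d7e837f81837f81807d7b84887d817f7e8083897b83807f827e80837c80847d7c807e7e8780867a8c81817e7f810089
 z (n 0 z (n 0 z (n 0 z (n 0 z (n 0 z (n 0 z (n 0 z (n 0 z (n 0 z (n 0 z (n 0 z
 z)))))))))))))))))))))))))))) z)))))))))) (n 0 (n 0 z (n 143 (n 2 (n 1 z (n 2 (n 0 z (n 0 z (n
 0 z (n 0 z (n 0 z (n 0 z z)))))) (n 2 (n 0 z (n 0 z (n 0 z (n 0 z (n 0 z (n 0 z z)))))) (n 2 (n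
 0 z (n 0 z (n 0 z (n 0 z (n 0 z (n 0 z z)))))) (n 1 z (n 2 (n 0 z (n 0 z (n 0 z (n 0 z (n 0 z
 (n 0 z z)))))) (n 2 (n 0 z (n 0 z (n 0 z (n 0 z (n 0 z (n 0 z z)))))) z))))))) (n 0 z (n 0 z (n
 0 z (n 0 z (n 0 z (n 0 z (n 0 z (n 0 z z))))))))) (n 141 (n 0 z (n 0 z (n 0 z (n 0 z (n 0 z (n
 0 z (n 0 z (n 0 z (n 0 z (n 0 z (n 0 z (n 0 z (n 0 z (n 0 z (n 0 z (n 0 z (n 0 z (n 0 z (n 0 z
 (n 0 z (n 0 z (n 0 z (n 0 z (n 0 z (n 0 z (n 0 z (n 0 z (n 0 z (n 0 z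
 z))))))))))))))))))))))))))))) (n 133 (n 0 z (n 0 z (n 0 z (n 0 z (n 0 z (n 0 z (n 0 z (n 2 (n
 0 z (n 0 z (n 2 (n 0 z (n 0 z (n 0 z (n 0 z (n 0 z (n 0 z z)))))) (n 2 (n 0 z (n 0 z (n 0 z (n
 0 z (n 0 z (n 0 z z)))))) (n 2 (n 0 z (n 0 z (n 0 z (n 0 z (n 0 z (n 0 z z)))))) z))))) (n 0 z
 (n 0 z z)))))))))) (n 133 (n 0 z (n 2 (n 0 z (n 2 (n 0 z (n 0 z (n 0 z (n 0 z (n 0 z (n 0 z
 z)))))) (n 2 (n 0 z (n 0 z (n 0 z (n 0 z (n 0 z (n 0 z z)))))) (n 2 (n 0 z (n 0 z (n 0 z (n 0 z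
 (n 0 z (n 0 z z)))))) z)))) (n 0 z (n 0 z (n 0 z (n 0 z (n 0 z (n 0 z (n 0 z (n 0 z z))))))))))
 (n 133 (n 0 z (n 0 z (n 0 z (n 0 z (n 2 (n 2 (n 0 z (n 0 z (n 0 z (n 0 z (n 0 z (n 0 z z))))))
 (n 2 (n 0 z (n 0 z (n 0 z (n 0 z (n 0 z (n 0 z z)))))) (n 2 (n 0 z (n 0 z (n 0 z (n 0 z (n 0 z
 (n 0 z z)))))) z))) (n 0 z (n 0 z (n 0 z (n 0 z (n 0 z z)))))))))) (n 725 (n 0 z (n 0 z (n 0 z
 (n 0 z (n 0 z (n 0 z (n 0 z (n 0 z z)))))))) (n 725 (n 0 z (n 0 z (n 2 (n 0 z z) (n 0 z (n 0 z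
 (n 0 z (n 0 z (n 0 z z)))))))) (n 725 (n 0 z (n 0 z (n 0 z (n 0 z (n 0 z (n 0 z (n 2 z (n 0 z
 z)))))))) z))))))))) (n 0 (n 923 (n 0 z (n 2 (n 1 z (n 1 z (n 1 z (n 1 z (n 1 z (n 2 (n 0 z (n
 0 z (n 0 z (n 0 z (n 0 z (n 0 (n 8790083 z z) z)))))) (n 1 z z))))))) (n 0 z (n 0 z (n 0 z (n 0
 z (n 0 z (n 0 z (n 0 z (n 0 z (n 0 z (n 0 z (n 0 z (n 0 z (n 0 z (n 0 z (n 0 z (n 0 z (n 0 z (n
 0 z z)))))))))))))))))))) (n 779 (n 0 z (n 0 z (n 0 z (n 0 z (n 0 z (n 0 z (n 2 (n 1 z (n 1 z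
 (n 1 z (n 1 z (n 2 (n 0 z (n 0 z (n 0 z (n 0 z (n 0 z (n 0 (n 8790083 z z) z)))))) (n 1 z
 z)))))) (n
 0xa3b08237618281837c7d7e837f81837f81807d7b84887d817f7e8083897b83807f827e80837c80847d7c807e7e8780867a8c81817e7f810089
 z (n 0 z (n 0 z (n 0 z (n 0 z (n 0 z (n 0 z (n 0 z (n 0 z (n 0 z (n 0 z (n 0 z (n 0 z (n 0 z (n
 0 z (n 0 z (n 0 z (n 0 z z))))))))))))))))))))))))) (n 777 (n 0 z (n 0 z (n 0 z (n 0 z (n 0 z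
 (n 0 z (n 0 z (n 0 z (n 0 z z))))))))) (n 777 (n 0 z (n 2 (n 0 z (n 1 z (n 2 (n 0 z (n 0 z (n 0
 z (n 0 z (n 0 z (n 0 (n 8790083 z z) z)))))) (n 1 z z)))) (n 0 z (n 0 z (n 0 z (n 0 z (n 0 z (n
 0 z (n 0 z z))))))))) (n 777 (n 0 z (n 0 z (n 0 z (n 0 z (n 0 z (n 2 (n 1 z (n 2 (n 0 z (n 0 z
 (n 0 z (n 0 z (n 0 z (n 0 z z)))))) (n 1 z z))) (n 0 z (n 0 z (n 0 z z))))))))) (n 773 (n 0 z
 (n 0 z (n 0 z (n 2 (n 0 z (n 0 z z)) (n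
 0xa3b08237618281837c7d7e837f81837f81807d7b84887d817f7e8083897b83807f827e80837c80847d7c807e7e8780867a8c81817e7f810089
 z (n 0 z (n 0 z (n 0 z (n 0 z (n 0 z (n 0 z (n 0 z (n 0 z (n 0 z (n 0 z (n 0 z (n 0 z (n 0 z (n
 0 z (n 0 z z)))))))))))))))))))) (n 773 (n 0 z (n 0 z (n 0 z (n 0 z (n 0 z (n 0 z (n 0 z (n
 7741507 z (n 0 z (n 0 z (n 0 z (n 0 z (n 0 z (n 0 z (n 0 z (n 0 z (n 0 z (n 0 z (n 0 z (n 0 z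
 z)))))))))))))))))))) (n 773 (n 0 z (n 0 z (n 0 z (n 0 z (n 0 z (n 0 z (n 0 z (n 0 z (n 0 z (n
 0 z (n 0 z (n 0 z (n 0 z (n 0 z (n 0 z (n 0 z (n 0 z (n 0 z (n 0 z (n 0 z z))))))))))))))))))))
 z)))))))) (n 0 (n 953 (n 0 z (n 0 z (n 0 z (n 0 z (n 0 z (n 0 z (n 0 z z))))))) (n 483 (n 0 z
 (n 2 (n 0 z (n 0 z (n 1 z (n 2 (n 0 z (n 0 z (n 0 z (n 0 z (n 0 z (n 0 z z)))))) (n 1 z z)))))
 (n 0 z (n 0 z (n 0 z (n 0 z (n 0 z z))))))) (n 483 (n 0 z (n 0 z (n 0 z (n 0 z (n 0 z (n 0 z (n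
 0 z z))))))) (n 483 (n 0 z (n 0 z (n 0 z (n 0 z (n 0 z (n 0 z (n 2 (n 1 z (n 2 (n 0 z (n 0 z (n
 0 z (n 0 z (n 0 z (n 0 z z)))))) (n 1 z z))) z))))))) (n 481 (n 0 z (n 0 z (n 0 z (n 0 z (n 0 z
 (n 0 z (n 0 z (n 0 z (n 0 z z))))))))) (n 481 (n 0 z (n 0 z (n 0 z (n 0 z (n 0 z (n 0 z (n 0 z
 (n 0 z (n 0 z z))))))))) (n 481 (n 0 z (n 0 z (n 0 z (n 0 z (n 2 z (n 0 z (n 0 z (n 0 z (n 0 z
 z))))))))) z))))))) (n 0 (n 339 (n 2 (n 0 z (n 0 z (n 1 z (n 2 (n 0 z (n 0 z (n 0 z (n 0 z (n 0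
 z (n 0 z z)))))) (n 1 z z))))) (n 0 z (n 0 z (n 0 z (n 0 z (n 0 z (n 0 z (n 0 z (n 0 z (n 0 z
 (n 0 z z))))))))))) (n 339 (n 0 z (n 0 z (n 0 z (n 0 z (n 0 z (n 0 z (n 0 z (n 0 z (n 0 z (n 0
 z (n 0 z z))))))))))) (n 339 (n 0 z (n 0 z (n 0 z (n 0 z (n 0 z (n 0 z (n 0 z (n 0 z (n 2 (n 1
 z (n 2 (n 0 z (n 0 z (n 0 z (n 0 z (n 0 z (n 0 z z)))))) (n 1 z z))) (n 0 z (n 0 z z)))))))))))
 (n 337 (n 0 z (n 0 z (n 0 z (n 0 z (n 0 z (n 0 z (n 0 z (n 0 z (n 0 z (n 0 z z)))))))))) (n 337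
 (n 0 z (n 0 z (n 0 z (n 0 z (n 2 (n 0 z z) (n 0 z (n 0 z (n 0 z (n 0 z (n 0 z z)))))))))) (n
 337 (n 0 z (n 0 z (n 0 z (n 0 z (n 0 z (n 2 z (n 0 z (n 0 z (n 0 z (n 0 z z)))))))))) z))))))
 (n 0 (n 0 z (n 0 z (n 1 (n 0 z (n 0 z (n 0 z (n 0 z (n 2 (n 0 z (n 0 z z)) (n 0 z (n 0 z (n 0 z
 (n 0 z (n 0 z (n 0 z z))))))))))) (n 1 (n 2 (n 0 z z) (n 0 z (n 0 z (n 0 z (n 0 z (n 0 z (n 0 z
 (n 0 z (n 0 z (n 0 z (n 0 z z))))))))))) (n 1 (n 0 z (n 0 z (n 0 z (n 0 z (n 0 z (n 0 z (n 0 z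
 (n 0 z (n 0 z (n 0 z (n 0 z z))))))))))) z))))) (n 0 (n 0 z (n 1 (n 0 z (n 0 z (n 0 z (n 0 z (n
 0 z (n 0 z (n 0 z (n 0 z (n 0 z (n 0 z (n 0 z (n 0 z (n 0 z (n 0 z (n 0 z (n 0 z (n 0 z (n 0 z
 (n 0 z (n 0 z (n 0 z (n 0 z (n 0 z (n 0 z (n 0 z (n 0 z (n 0 z (n 0 z (n 0 z (n 0 z (n 0 z (n 0
 z (n 0 z (n 0 z (n 0 z (n 0 z (n 0 z (n 0 z (n 0 z (n 0 z (n 0 z (n 0 z (n 0 z (n 0 z (n 0 z (n
 0 z z)))))))))))))))))))))))))))))))))))))))))))))) (n 1 (n 0 z (n 0 z (n 0 z (n 0 z (n 0 z (n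
 0 z (n 0 z (n 0 z (n 0 z (n 0 z (n 0 z (n 0 z (n 0 z (n 0 z (n 0 z (n 0 z (n 0 z (n 0 z (n 0 z
 (n 0 z (n 0 z (n 0 z (n 0 z (n 0 z (n 0 z (n 0 z (n 0 z (n 0 z (n 0 z (n 0 z (n 0 z (n 0 z (n 0
 z (n 0 z (n 0 z (n 0 z (n 0 z (n 0 z (n 0 z (n 0 z (n 0 z (n 0 z (n 0 z (n 0 z (n 0 z (n 0 z
 z)))))))))))))))))))))))))))))))))))))))))))))) (n 1 (n 0 z (n 0 z (n 0 z (n 0 z (n 0 z (n 0 z
 (n 0 z (n 0 z (n 0 z (n 0 z (n 0 z (n 0 z (n 0 z (n 0 z (n 0 z (n 0 z (n 0 z (n 0 z (n 0 z (n 0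
 z (n 0 z (n 0 z (n 0 z (n 0 z (n 0 z (n 0 z (n 0 z (n 2 z (n 0 z (n 0 z (n 0 z (n 0 z (n 0 z (n
 0 z (n 0 z (n 0 z (n 0 z (n 0 z (n 0 z (n 0 z (n 0 z (n 0 z (n 0 z (n 0 z (n 0 z (n 0 z
 z)))))))))))))))))))))))))))))))))))))))))))))) z)))) (n 0 (n 5 (n 0 z (n 0 z (n 0 z (n 0 z (n
 0 z (n 0 z (n 0 z (n 0 z (n 2 (n 0 z (n 0 z z)) (n
 0xa3b00237608281837c7d7e837f81837f81807d7b84887d817f7e8083897b83807f827e80837c80847d7c807e7e8780867a8c81817e7f810089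
 z (n 0 z (n 0 z (n 0 z (n 0 z (n 0 z (n 0 z (n 0 z (n 0 z (n 0 z (n 0 z (n 0 z (n 0 z (n 0 z (n
 0 z (n 0 z (n 0 z (n 0 z (n 0 z (n 0 z z))))))))))))))))))))))))))))) (n 5 (n 0 z (n 0 z (n 0 z
 (n 0 z (n 0 z (n 2 (n 0 z z) (n 0 z (n 0 z (n 0 z (n 0 z (n 0 z (n 0 z (n 0 z (n 0 z (n 0 z (n
 0 z (n 0 z (n 0 z (n 0 z (n 0 z (n 0 z (n 0 z (n 0 z (n 0 z (n 0 z (n 0 z (n 0 z (n 0 z (n 0 z
 z))))))))))))))))))))))))))))) (n 5 (n 0 z (n 0 z (n 0 z (n 0 z (n 0 z (n 0 z (n 0 z (n 0 z (n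
 0 z (n 0 z (n 0 z (n 0 z (n 0 z (n 0 z (n 0 z (n 0 z (n 0 z (n 0 z (n 0 z (n 0 z (n 0 z (n 0 z
 (n 0 z (n 0 z (n 0 z (n 0 z (n 0 z (n 0 z (n 0 z z))))))))))))))))))))))))))))) z))) (n 0 (n 0
 z (n 0 z z)) (n 0 (n 0 z z) (n 0 z z))))))))))) (n 0 (n 0 z (n 1 (n 5449227 z (n 28 z (n
 4399203 z (n 4326971 z (n 3260 z (n 3260 z z)))))) (n 1 (n 3212843 z (n 3212843 z (n 3212843 z
 (n 3212843 z (n 3212843 z (n 3212843 z z)))))) (n 1 (n 3260 z (n 3260 z (n 3260 z (n 3260 z (n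
 3260 z (n 3260 z z)))))) z)))) (n 0 z z)))) (n
 0xae1341692a4551cd4189da0d6da1a56d044b245b9d643aa221344d419 (n 0 (n 591 (n 0 z (n
 0x1550c26320833641204c82305904021880483108c75808c72876e95757e7992828973926a778589966796518f91887282a07a4b82798b8368929e8b836f8f8694595f8d9a6201c9
 z (n 3282443 z (n 0 z (n 0 z (n 0 z (n
 0x6ca6a62403817e817e807e7f8182827f7f80808081807f817f82817f7f8081807f80817f8080807f808081808080818180807f827f7f800809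
 z (n
 0x594d8c480604c86c624038d6f87986f8b5797708b80a56f77659774619bab956f815a868b88689c9d813f907b907576889782738e84776a3d619f5d681009
 z z)))))))) (n 589 (n 3278363 z (n 0 z (n 0 z (n 2 z (n 0 z z))))) (n 129 (n 0 z (n 0 z (n 10 z
 (n 3212843 z (n 18 z (n 0 z (n 0 z z))))))) (n 3 (n 26 z (n 34 z (n 42 z (n
 0x2ca4ca42037e817e7e808080817d828081808082818180807f8180808280817f7e7f817f80808081808081807f807e827f7f82808281800809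
 z (n 50 z (n 0 z (n 2164283 z (n 58 z (n
 0x4d88411990805620038c4000d88045310019620020c4002d84000b08003210778583818185827b7d82757291758379697d8d9475818fa27b927d8280817f716f8f798e568b7e80708b7c8a6c8a9a905a8a02c9
 z z))))))))) (n 1 (n 2164299 z (n 66 z (n
 0x10ca6ca6403837d82857d83767f7a7b79808280809575708d8589727c7a7b7a7e6f8d8c7c688c7a89877a878b8181858980646b758f6c7a0809
 z (n
 0x2ca6ca40077f81817e7f81808080808080808180808080808080808080808080807f80808080808080808080807f8080808080808080800809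
 z (n 0 z (n 0 z z)))))) (n 0 (n
 0x2ca6860407808080818081807f807f8180807f8180808080807f80808080807f817f80818180808080808080808080817f80807f8080800809
 z (n 4327003 z (n
 0x2aa1802543148c823ad904fd320951641006642029880203080003108875818f7c83708d72837b7c90896da064718b9d995e955a878b826f839e7c3d707c8c9f6398a88f8773a183775464947f630289
 z (n 74 z (n 0 z (n 0 z (n 0 z (n 0 z (n 2164315 z (n 0 z (n 0 z (n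
 0x646318b6281a25ba244a65095a3985536cf249f7e9f44a6a67391a07997767caf59b354d157187856797c4aa83269a58885b580840049
 z (n 0 z (n
 0x2ca6860407807f817f817f808180818080808080808080808080808080808180807f8080808080808080808080807f80808080808080800809
 z (n 0 z (n 0 z (n 82 z (n 0 z (n 0 z (n
 0x2ca6860407807f808180807f80827f8080807e818080807f807f80808080807f807f8081808081808080808080808082807f80808080800809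
 z (n
 0xeca6860407827b81837b867686847a7e897e7575808370919b827d7882888a8481818487657e8482857d81827f8777867e6d6d778472780809
 z (n
 0x66420158c05a30808b610484c20645840061880b83109e677c9d648f51af648176aa7f876c9d596a938db44fa61f9d97935a83c77318827c967e559dbf9885679583ab2f39a4b5440209
 z z)))))))))))))))))))))) z)))))) (n 589 (n 0 (n 423 (n 0 z (n 2 (n 0 z (n 2 (n 0 z (n 0 z (n 0
 z (n 0 z (n 0 z (n 0 z z)))))) (n 2 (n 0 z (n 0 z (n 0 z (n 0 z (n 0 z (n 0 z z)))))) (n 2 (n 0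
 z (n 0 (n 1700 z (n 1700 z z)) (n 0 (n 1700 z (n 1700 z z)) (n 0 (n 989 z (n 989 z z)) (n 0 z
 (n 0 z z)))))) (n 2 (n 0 z (n 0 z (n 0 z (n 0 z (n 0 z (n 0 z z)))))) (n 2 (n 0 z (n 0 z (n 0 z
 (n 0 z (n 0 z (n 0 z z)))))) (n 2 (n 0 z (n 0 z (n 0 z (n 0 z (n 0 z (n 0 z z)))))) (n 2 (n 0 z
 (n 0 z (n 0 z (n 0 z (n 0 (n 1588 z z) (n 0 (n 1588 z (n 1588 z z)) z)))))) (n 2 (n 0 (n
 8857099 z z) (n 0 z (n 0 (n 1588 z z) (n 0 z (n 0 z (n 0 (n 1588 z (n 1588 z z)) z))))))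
 z))))))))) (n 0 z (n 0 z (n 0 z (n 0 z (n 0 z (n 0 z (n 0 z (n 0 z (n 0 z (n 0 z (n 0 z (n 0 z
 (n 0 z (n 0 z (n 0 z (n 0 z (n 0 z (n 0 z (n 0 z (n 0 z (n 0 z (n 0 z (n 0 z (n 0 z (n 0 z (n 0
 z (n 0 z z))))))))))))))))))))))))))))) (n 423 (n 0 z (n 0 z (n 0 z (n 2 (n 2 (n 0 z (n 0 (n
 1069 z (n
 0x1365407b0c41721880dc310ea8620030c40a218841c300032107c88798e7c966e876c82728f8a7d887d4e6a96a18475a2868e9e6982998d863d987c7e8a459c9972687d82a1475e85a55f6b0249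
 z z)) (n 0 z (n 0 (n 1700 z (n 1700 z z)) (n 0 z (n 0 (n 8857099 z (n 8857099 z z)) z)))))) (n
 2 (n 0 (n 8857099 z z) (n 0 z (n 0 (n 6428683 z z) (n 0 z (n 0 z (n 0 (n 8734491 z (n 1700 z
 z)) z)))))) (n 2 (n 0 (n 1700 z (n 8802419 z z)) (n 0 z (n 0 (n 8865371 z (n 8734491 z z)) (n 0
 (n 1069 z (n 8802419 z z)) (n 0 (n 8857099 z (n 8857099 z z)) (n 0 z z)))))) (n 1 z (n 2 (n 0
 (n 8656683 z (n 8802419 z z)) (n 0 z (n 0 (n 1700 z (n 8802419 z z)) (n 0 z (n 0 (n 8656683 z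
 (n 1700 z z)) (n 0 z z)))))) (n 2 (n 0 z (n 0 z (n 0 (n 8857099 z z) (n 0 z (n 0 (n 3278955 z
 z) (n 0 (n 3278955 z (n 8802419 z z)) z)))))) (n 2 (n 0 z (n 0 z (n 0 z (n 0 z (n 0 z (n 0 z
 z)))))) (n 2 (n 0 z (n 0 z (n 0 z (n 0 z (n 0 z (n 0 z z)))))) z)))))))) (n 0 z (n 0 z (n 0 z
 (n 0 z (n 0 z (n 0 z (n 0 z (n 0 z (n 0 z (n 0 z (n 0 z (n 0 z (n 0 z (n 0 z (n 0 z (n 0 z (n 0
 z (n 0 z (n 0 z (n 0 z (n 0 z (n 0 z (n 0 z (n 0 z (n 0 z z))))))))))))))))))))))))))))) (n 425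
 (n 0 z (n 0 z (n 0 z (n 0 z (n 0 z (n 0 z (n 0 z (n 0 z (n 0 z (n
 0x16ca8075d88223b1013762144ec4045d88083b104b7607b847e897a8f76837382757f8c78867c617492947d7c948d8690797b888a8263818c7b88558e8c786f817e9366728a986c770209
 z (n 0 z (n 0 z (n 0 z z))))))))))))) (n 425 (n 2 (n 0 z (n 0 z (n 0 z (n 2 (n 0 (n 8871971 z
 z) (n 0 (n 8871971 z z) (n 0 z (n 0 z (n 0 z (n 0 (n 8871971 z (n 8871971 z z)) z)))))) (n 1 z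
 (n 2 (n 0 z (n 0 (n 8868107 z z) (n 0 (n 8868107 z z) (n 0 z (n 0 z (n 0 (n 8798835 z (n
 8868107 z z)) z)))))) z)))))) (n 0 z (n 0 z (n 0 z (n 0 z (n 0 z (n 0 z (n 0 z (n 0 z (n 0 z (n
 0 z (n 0 z (n 0 z z))))))))))))) (n 425 (n 0 z (n 0 z (n 0 z (n 0 z (n 0 z (n 0 z (n 2 (n 0 z
 (n 0 z (n 2 (n 0 z (n 0 z (n 0 z (n 0 z (n 0 z (n 0 z z)))))) (n 2 (n 0 z (n 0 (n 6426755 z (n
 6426755 z z)) (n 0 (n 7475331 z (n 1588 z z)) (n 0 (n 7475331 z (n 7612523 z z)) (n 0 z (n 0 z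
 z)))))) (n 2 (n 0 (n 7737475 z (n 1588 z z)) (n 0 z (n 0 (n 1588 z (n 1588 z z)) (n 0 (n 1588 z
 (n 1588 z z)) (n 0 z (n 0 z z)))))) z))))) (n 0 z (n 0 z (n 0 z (n 0 z (n 0 z (n 0 z
 z))))))))))))) (n 425 (n 0 z (n 0 z (n 0 z (n 2 (n 0 z (n 2 (n 0 z (n 0 z (n 0 (n 8857099 z z)
 (n 0 z (n 0 (n 3278955 z z) (n 0 (n 8804107 z (n 8733043 z z)) z)))))) (n 2 (n 0 z (n 0 z (n 0
 z (n 0 z (n 0 z (n 0 z z)))))) (n 2 (n 0 z (n 0 z (n 0 z (n 0 z (n 0 z (n 0 z z)))))) z)))) (n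
 0 z (n 0 z (n 0 z (n 0 z (n 0 z (n 0 z (n 0 z (n 0 z (n 0 z z))))))))))))) (n 425 (n 0 z (n 2
 (n 2 (n 0 z (n 0 z (n 0 z (n 0 z (n 0 z (n 0 z z)))))) (n 2 (n 0 (n 2309 z (n 7475331 z z)) (n
 0 (n 6426755 z (n 6426755 z z)) (n 0 z (n 0 (n 7475331 z (n 7612523 z z)) (n 0 z (n 0 z z))))))
 (n 2 (n 0 (n 1588 z (n 1588 z z)) (n 0 z (n 0 (n 1588 z (n 1588 z z)) (n 0 (n 1588 z (n 1588 z
 z)) (n 0 (n 2309 z (n 2309 z z)) (n 0 z z)))))) z))) (n 0 z (n 0 z (n 0 z (n 0 z (n 0 z (n 0 z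
 (n 0 z (n 0 z (n 0 z (n 0 z (n 0 z z))))))))))))) (n 445 (n 0 z (n 0 z (n 0 z z))) (n 397 (n 0
 z (n 0 z (n 2 (n 0 z z) (n 0 z (n 0 z z))))) (n 397 (n 0 z (n 2 z (n 0 z (n 0 z (n 0 z z)))))
 z)))))))))) (n 0 (n 0 z (n 247 (n 0 z (n 0 z (n 0 z (n 0 z (n 0 z (n 0 z (n 0 z (n 0 z
 z)))))))) (n 247 (n 0 z (n 0 z (n 2 (n 0 z (n 0 z (n 0 z (n 2 (n 0 z (n 0 z (n 0 z (n 0 z (n 0
 z (n 0 z z)))))) (n 1 z (n 2 (n 0 z (n 0 z (n 0 z (n 0 z (n 0 z (n 0 z z)))))) z)))))) (n 0 z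
 (n 0 z (n 0 z (n 0 z (n 0 z z)))))))) (n 247 (n 0 z (n 2 (n 0 z (n 0 z (n 2 (n 0 z (n 0 (n
 7755851 z (n 2364 z z)) (n 0 (n 13 z (n 974 z z)) (n 0 (n 2364 z (n 2364 z z)) (n 0 z (n 0 z
 z)))))) (n 2 (n 0 z (n 0 z (n 0 (n 7743499 z (n 2372 z z)) (n 0 (n 2372 z (n 2372 z z)) (n 0 (n
 8791867 z (n 2372 z z)) (n 0 (n 8791867 z (n 2372 z z)) z)))))) (n 2 (n 0 (n 7737475 z (n 2372
 z z)) (n 0 z (n 0 (n 8791867 z (n 2372 z z)) (n 0 (n 2372 z (n 8791867 z z)) (n 0 z (n 0 z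
 z)))))) z))))) (n 0 z (n 0 z (n 0 z (n 0 z (n 0 z (n 0 z z)))))))) (n 247 (n 0 z (n 0 z (n 0 z
 (n 0 z (n 0 z (n 7742491 z (n 0 z (n 0 z z)))))))) (n 247 (n 0 z (n 0 z (n 0 z (n 0 z (n 0 z (n
 0 z (n 0 z (n 2 (n 2 (n 0 z (n 0 z (n 0 z (n 0 z (n 0 z (n 0 z z)))))) (n 2 (n 0 (n 2372 z (n
 2372 z z)) (n 0 z (n 0 (n 2372 z (n 2372 z z)) (n 0 (n 2372 z (n 2372 z z)) (n 0 z (n 0 z
 z)))))) (n 2 (n 0 z (n 0 z (n 0 z (n 0 z (n 0 z (n 0 z z)))))) z))) z)))))))) (n 591 (n 2 (n 2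
 (n 0 z (n 0 z (n 0 z (n 0 z (n 0 (n 2372 z z) (n 0 (n 2372 z (n 2372 z z)) z)))))) (n 2 (n 0 z
 (n 0 z (n 0 (n 2372 z z) (n 0 (n 2372 z z) (n 0 z (n 0 (n 2372 z (n 2372 z z)) z)))))) z)) (n 0
 z (n 0 z (n 0 z (n 0 z (n 0 z z)))))) (n 593 (n 0 z (n 0 z (n 0 z (n 0 z (n 0 z (n 0 z (n 0 z
 (n 6426739 z (n 0 z (n 0 z (n 0 z (n 0 z (n 0 z (n 0 z (n 0 z (n 0 z (n 0 z (n 0 z (n 0 z (n 0
 z (n 0 z (n 0 z (n 0 z (n 0 z (n 0 z (n 0 z (n 0 z (n 0 z (n 0 z (n 0 z (n 0 z (n 0 z (n 0 z (n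
 0 z (n 0 z (n 0 z (n 0 z (n 0 z (n 0 z (n 0 z (n 0 z z)))))))))))))))))))))))))))))))))))))))))
 (n 593 (n 0 z (n 0 z (n 0 z (n 0 z (n 0 z (n 0 z (n 0 z (n 0 z (n 0 z (n 0 z (n 0 z (n 0 z (n 0
 z (n 0 z (n 0 z (n 0 z (n 0 z (n 0 z (n 0 z (n 0 z (n 0 z (n 0 z (n 0 z (n 0 z (n 0 z (n 0 z (n
 0 z (n 0 z (n 0 z (n 0 z (n 0 z (n 0 z (n 0 z (n 0 z (n 0 z (n 0 z (n 0 z (n 0 z (n 0 z (n 0 z
 (n 0 z z))))))))))))))))))))))))))))))))))))))))) z))))))))) (n 0 (n 267 (n 2 (n 0 z (n 0 z (n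
 0 z (n 0 z (n 2 (n 0 z (n 0 z (n 0 z (n 0 z (n 0 z (n 0 z z)))))) (n 2 (n 0 z (n 0 z (n 0 z (n
 0 z (n 0 z (n 0 z z)))))) (n 2 (n 0 z (n 0 z (n 0 z (n 0 z (n 0 z (n 0 z z)))))) z))))))) (n 0
 z (n 0 z (n 0 z (n 0 z (n 0 z (n 0 z (n 0 z (n 0 z (n 0 z (n 0 z (n 0 z (n 0 z (n 0 z (n 0 z
 z))))))))))))))) (n 267 (n 0 z (n 0 z (n 0 z (n 0 z (n 2 (n 0 z (n 0 z (n 0 z (n 2 (n 0 z (n 0
 z (n 0 z (n 0 z (n 0 z (n 0 z z)))))) (n 2 (n 0 z (n 0 (n 6426755 z z) (n 0 (n 8868107 z z) (n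
 0 z (n 0 z (n 0 (n 7475331 z (n 8868107 z z)) z)))))) (n 2 (n 0 (n 8868107 z z) (n 0 z (n 0 (n
 8868107 z z) (n 0 z (n 0 z (n 0 (n 8868107 z (n 8868107 z z)) z)))))) z)))))) (n 0 z (n 0 z (n
 0 z (n 0 z (n 0 z (n 0 z (n 0 z (n 0 z (n 0 z (n 0 z z))))))))))))))) (n 267 (n 0 z (n 0 z (n 0
 z (n 2 (n 0 z (n 0 z (n 2 (n 0 z (n 0 z (n 0 (n 3324 z (n 8791867 z z)) (n 0 (n 8734235 z (n
 8734235 z z)) (n 0 (n 13 z (n 7743499 z z)) (n 0 z z)))))) (n 2 (n 0 z (n 0 z (n 0 z (n 0 z (n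
 0 z (n 0 z z)))))) (n 2 (n 0 z (n 0 z (n 0 z (n 0 z (n 0 z (n 0 z z)))))) z))))) (n 0 z (n 0 z
 (n 0 z (n 0 z (n 0 z (n 0 z (n 0 z (n 0 z (n 0 z (n 0 z (n 0 z z))))))))))))))) (n 267 (n 0 z
 (n 0 z (n 0 z (n 0 z (n 0 z (n 0 z (n 0 z (n 0 z (n 0 z (n 0 z (n 0 z (n 0 z (n 0 z (n 0 z (n 0
 z z))))))))))))))) (n 267 (n 0 z (n 0 z (n 0 z (n 0 z (n 0 z (n 0 z (n 0 z (n 0 z (n 0 z (n 0 z
 (n 0 z (n 0 z (n 0 z (n 0 z (n 0 z z))))))))))))))) (n 831 (n 2 (n 2 (n 0 z (n 0 z (n 0 z (n 0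
 z (n 0 z (n 0 z z)))))) (n 2 (n 0 z (n 0 z (n 0 z (n 0 z (n 0 z (n 0 z z)))))) z)) (n 0 z (n 0
 z (n 0 z (n 0 z (n 0 z (n 0 z z))))))) (n 833 (n 0 z (n 0 z (n 0 z (n 0 z (n 0 z (n 0 z (n 0 z
 (n 0 z (n 0 z (n 0 z (n 0 z (n 0 z (n 0 z (n 0 z (n 0 z (n 0 z (n 0 z (n 0 z (n 0 z (n 0 z (n 0
 z (n 0 z (n 0 z (n 0 z (n 0 z (n 0 z (n 0 z (n 0 z (n 0 z z))))))))))))))))))))))))))))) (n 833
 (n 0 z (n 0 z (n 0 z (n 2 z (n 0 z (n 0 z (n 0 z (n 0 z (n 0 z (n 0 z (n 0 z (n 0 z (n 0 z (n 0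
 z (n 0 z (n 0 z (n 0 z (n 0 z (n 0 z (n 0 z (n 0 z (n 0 z (n 0 z (n 0 z (n 0 z (n 0 z (n 0 z (n
 0 z (n 0 z z))))))))))))))))))))))))))))) z)))))))) (n 0 (n 0 z (n 0 z (n 0 z (n 0 z (n 9 (n 0
 z (n
 0x16ca8075d88223b1013762144ec4045d88083b104b7607b847e897a8f76837382757f8c78867c617492947d7c948d8690797b888a8263818c7b88558e8c786f817e9366728a986c770209
 z (n 0 z (n 0 z (n 0 z (n 0 z (n 0 z z))))))) (n 5 (n 0 z (n 0 z (n 0 z (n 0 z (n 0 z (n 0 z (n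
 0 z (n 0 z (n 0 z z))))))))) (n 5 (n 0 z (n 0 z (n 0 z (n 0 z (n 0 z (n 0 z (n 0 z (n 0 z (n 0
 z z))))))))) z))))))) (n 0 (n 0 z (n 0 z (n 0 z (n 723 (n 2 (n 1 z (n 2 (n 0 z (n 0 z (n 0 z (n
 0 z (n 0 z (n 0 z z)))))) z)) (n 0 z (n 0 z (n 0 z (n 0 z (n 0 z (n 0 z (n 0 z (n 0 z (n 0 z (n
 0 z (n 0 z (n 0 z z))))))))))))) (n 721 (n 0 z (n 0 z (n 0 z (n 0 z (n 0 z (n 0 z (n 0 z (n 0 z
 (n 0 z (n 0 z (n 0 z (n 0 z (n 0 z (n 0 z (n 0 z (n 0 z (n 0 z (n 0 z (n 0 z (n 0 z (n 0 z (n 0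
 z (n 0 z (n 0 z (n 0 z (n 0 z (n 0 z (n 0 z z)))))))))))))))))))))))))))) (n 721 (n 0 z (n 0 z
 (n 0 z (n 0 z (n 0 z (n 0 z (n 0 z (n 0 z (n 0 z (n 0 z (n 0 z (n 0 z (n 0 z (n 0 z (n 0 z (n 0
 z (n 0 z (n 0 z (n 0 z (n 0 z (n 7753995 z (n 0 z (n 0 z (n 0 z (n 0 z (n 0 z (n 0 z (n 0 z
 z)))))))))))))))))))))))))))) z)))))) (n 0 (n 0 z (n 0 z (n 3 (n 0 z (n 2 (n 2 (n 0 (n 7475331
 z (n 20 z z)) (n 0 (n 6426755 z (n 6426755 z z)) (n 0 z (n 0 (n 20 z (n 20 z z)) (n 0 (n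
 7475331 z (n 20 z z)) (n 0 z z)))))) (n 2 (n 0 (n 7737475 z (n 20 z z)) (n 0 z (n 0 (n 7743579
 z (n 20 z z)) (n 0 z (n 0 (n 7739403 z (n 20 z z)) (n 0 z z)))))) z)) (n 0 z (n 0 z (n 0 z (n 0
 z z)))))) (n 5 (n 0 z (n 0 z (n 0 z (n 0 z (n 0 z z))))) (n 5 (n 0 z (n 0 z (n 0 z (n 0 z (n 0
 z z))))) z))))) (n 0 (n 0 z (n 579 (n 0 z (n 2 (n 2 (n 0 z (n 0 z (n 0 z (n 0 z (n 0 z (n 0 z
 z)))))) (n 2 (n 0 z (n 0 z (n 0 z (n 0 z (n 0 z (n 0 z z)))))) z)) (n 0 z (n 0 z (n 0 z (n 0 z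
 (n 0 z (n 0 z (n 0 z (n 0 z (n 0 z z))))))))))) (n 577 (n 2 (n 0 z z) (n 0 z (n 0 z (n 0 z (n 0
 z (n 0 z (n 0 z (n 0 z (n 0 z (n 0 z (n 0 z z))))))))))) (n 577 (n 0 z (n 0 z (n 0 z (n 0 z (n
 0 z (n 7684451 z (n 0 z (n 0 z (n 0 z (n 0 z (n 0 z z))))))))))) z)))) (n 0 (n 579 (n 0 z (n 2
 (n 2 (n 0 (n 7475331 z (n 2308 z z)) (n 0 (n 6426755 z (n 6426755 z z)) (n 0 (n 7475331 z (n 21
 z z)) (n 0 (n 2308 z (n 2308 z z)) (n 0 z (n 0 z z)))))) (n 2 (n 0 (n 2308 z (n 2308 z z)) (n 0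
 z (n 0 (n 2308 z (n 2308 z z)) (n 0 z (n 0 (n 2308 z (n 2308 z z)) (n 0 z z)))))) z)) (n 0 z (n
 0 z (n 0 z (n 0 z z)))))) (n 577 (n 2 (n 0 z z) (n 0 z (n 0 z (n 0 z (n 0 z (n 0 z (n 0 z (n 0
 z (n 0 z z))))))))) (n 577 (n 0 z (n 0 z (n 0 z (n 0 z (n 0 z (n 0 z (n 0 z (n 0 z (n 0 z
 z))))))))) z))) (n 0 (n 5 (n 0 z (n 2 (n 0 z z) (n 0 z (n 0 z (n 0 z (n 0 z (n 0 z (n 0 z
 z)))))))) (n 5 (n 0 z (n 0 z (n 0 z (n 2 z (n 0 z (n 0 z (n 0 z (n 0 z z)))))))) z)) (n 0 (n 0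
 z z) (n 0 z z))))))))))) (n 0 (n 1 (n 3278363 z (n 3278363 z (n 3278363 z (n 3278363 z (n
 3278363 z (n 3278363 z z)))))) (n 0 z (n 0 z (n 1 (n 4732 z (n 4732 z (n 4732 z (n 4732 z (n
 4732 z (n 4732 z z)))))) (n 0 z z))))) (n 0 z z)))) (n
 0x669aa2e6a50cdae84759414d2a68aeb2c44db48129982d48ba21 (n 0 (n 153 (n 0 z (n 0 z (n 0 z (n
 3282443 z (n 0 z z))))) (n 33 (n 2 z (n 3278363 z (n 0 z z))) (n 9 (n 0 z (n 10 z (n 18 z (n 0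
 z (n 3212843 z z))))) (n 3 (n 0 z (n 26 z (n
 0x2ca6a824078017ff8008008008008008008008008008008008007ff7ff8018008007ff8008008018008008008018008008008008008008008008008008008008008018008008018018008008008008000811
 z (n 34 z (n 0 z (n 0 z (n 0 z (n 0 z (n 0 z (n 0 z (n 0 z (n 0 z (n 0 z (n
 0x16c6428087de7eb82e7ce8317ea76987c75b8528657f37967ba81583d7f484a8de70388b7e18467cf8557f27ea8128027d171480486682284478c88883880a8e77f179a7fc8217ee7e17c18278150051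
 z (n 0 z (n
 0xc64820a038008008008008008008008008008008008008008007ff8008018008007ff8008008008008008008018008008008008008018007ff8008008008008008018008008008008008008008008000811
 z (n 0 z (n 0 z (n 0 z (n 0 z (n
 0x1909841406000ca8ca24038017fe8008008008007ff8008008008018008008017ff8008018008007ff8008008008008007ff8017ff8007ff8008018008008008008008008008008017ff8018008008008007ff8008011011
 z (n 0 z (n 0 z (n 0 z (n 2164283 z (n 0 z (n 0 z (n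
 0x5951950806008ca6a842078017ff7fe8018017ff7ff8017ff8028018038008007fd8018037fd8008028007ff8008008018018028017ff8007ff8008038008007ff8017fe8008028007ff8018008017fe8007ff8037ff1011
 z (n
 0x52c61080a7a683f85e7a28107c78038518038497fb78579082d84781e7df7cd85a7157f982784984d7e083f7ba7ff83c7d28a978693d80f78972873a8af8ab82a8467cc7bb8877c58be8046e27f60051
 z z))))))))))))))))))))))))))))) (n 1 (n 0 z (n 0 z (n 2164299 z (n 0 z z)))) (n 0 (n 42 z (n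
 50 z (n
 0x16c6428087de7eb82e7ce8317ea76987c75b8528657f37967ba81583d7f484a8de70388b7e18467cf8557f27ea8128027d171480486682284478c88883880a8e77f179a7fc8217ee7e17c18278150051
 z (n 58 z (n 2164315 z (n
 0xe46438057ea7f281d7e08207f27a08507968358417f87bc7d380d8277f882f88e75d8597ec82d7e18367f87f380b8017e276980384181682b7b68578238068947f67bf7fe8157f47ec7d881980e0051
 z (n 66 z (n
 0xc86c864037ff8018007fe8008008018008018008007ff8008008018008008008008008008008008008007ff8008008007ff8008017ff8008008008007ff8008008018018008008008008008008008000811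
 z (n 74 z (n
 0x16c6308087de7eb82e7ce8317ea76987c75b8528657f37967ba81583d7f484a8de70388b7e18467cf8557f27ea8128027d171480486682284478c88883880a8e77f179a7fc8217ee7e17c18278150051
 z (n
 0x2c86c862037ff8007ff7ff8008008008008008008008008008008008008018008008008008018008008007ff7ff8008007ff8008018008008008008008008008008018008008008008008008008008000811
 z (n
 0x12ca68624078008027f07ff8098058047f48017fb7fc81d8028047dd80380e7fc7f980a7f38018097ff80480d7f58077fd7f48007ee80a7f78058087ff80c80180080c7f17f97ff80980580d7f380680a0811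
 z (n 0 z z))))))))))))) z)))))) (n 33 (n 0 (n 1035 (n 0 z (n 0 z (n 0 z (n 2 (n 0 z (n 2 (n 0
 (n 1684 z z) (n 0 z (n 0 z (n 0 (n 1684 z z) (n 0 z (n 0 (n 1684 z (n 1684 z z)) z)))))) (n 2
 (n 0 z (n 0 (n 1684 z z) (n 0 z (n 0 z (n 0 z (n 0 (n 1684 z (n 1684 z z)) z)))))) (n 2 (n 0 z
 (n 0 z (n 0 z (n 0 z (n 0 z (n 0 z z)))))) (n 2 (n 0 (n 4132 z (n 4132 z z)) (n 0 (n 8857163 z
 (n 8857163 z z)) (n 0 (n 4132 z (n 7751739 z z)) (n 0 (n 69 z (n 4102 z z)) (n 0 z (n 0 z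
 z)))))) (n 2 (n 0 z (n 0 z (n 0 z (n 0 z (n 0 z (n 0 z z)))))) (n 2 (n 0 (n 4132 z (n 4132 z
 z)) (n 0 z (n 0 z (n 0 (n 69 z (n 69 z z)) (n 0 (n 8857163 z (n 8857163 z z)) (n 0 z z)))))) (n
 2 (n 0 z (n 0 z (n 0 z (n 0 z (n 0 z (n 0 z z)))))) z)))))))) (n 0 z (n 0 z (n 0 z (n 0 z
 z)))))))) (n 1035 (n 0 z (n 2 (n 2 (n 0 z (n 0 z (n 0 z (n 0 z (n 0 z (n 0 z z)))))) (n 2 (n 0
 z (n 0 z (n 0 z (n 0 z (n 0 z (n 0 z z)))))) (n 1 z (n 2 (n 0 (n 4132 z (n 4132 z z)) (n 0 (n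
 8857163 z (n 8857163 z z)) (n 0 (n 4132 z (n 8799091 z z)) (n 0 z (n 0 (n 4132 z (n 8799091 z
 z)) (n 0 z z)))))) (n 2 (n 0 z (n 0 z (n 0 z (n 0 z (n 0 z (n 0 z z)))))) (n 2 (n 0 (n 4132 z
 (n 8799091 z z)) (n 0 (n 4132 z (n 8591115 z z)) (n 0 z (n 0 (n 8799091 z (n 8591115 z z)) (n 0
 z (n 0 z z)))))) (n 2 (n 0 (n 4132 z (n 4132 z z)) (n 0 z (n 0 (n 6359099 z (n 6359099 z z)) (n
 0 z (n 0 (n 4132 z (n 4132 z z)) (n 0 (n 8857163 z (n 8857163 z z)) z)))))) z))))))) (n 0 z (n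
 0 z (n 0 z (n 0 z (n 0 z (n 0 z z)))))))) (n 421 (n 0 z (n 0 z (n 2 (n 0 z (n 2 (n 0 z (n 0 z
 (n 0 z (n 0 z (n 0 z (n 0 z z)))))) (n 2 (n 0 (n 4132 z (n 4132 z z)) (n 0 (n 4132 z (n 4132 z
 z)) (n 0 z (n 0 (n 965 z (n 965 z z)) (n 0 z (n 0 z z)))))) (n 2 (n 0 z (n 0 z (n 0 z (n 0 z (n
 0 z (n 0 z z)))))) (n 2 (n 0 z (n 0 (n 8861211 z (n 8861211 z z)) (n 0 (n 4132 z (n 4132 z z))
 (n 0 (n 965 z (n 965 z z)) (n 0 z (n 0 z z)))))) (n 2 (n 0 z (n 0 (n 4132 z (n 4132 z z)) (n 0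
 (n 8861211 z (n 8861211 z z)) (n 0 z (n 0 (n 4132 z (n 4132 z z)) (n 0 (n 4132 z (n 4132 z z))
 z)))))) z)))))) (n 0 z (n 0 z z))))) (n 421 (n 0 z (n 0 z (n 0 z (n 2 (n 2 (n 0 z (n 0 z (n 0 z
 (n 0 z (n 0 z (n 0 z z)))))) (n 2 (n 0 (n 8787771 z (n 8659059 z z)) (n 0 z (n 0 z (n 0 (n 21 z
 (n 8659059 z z)) (n 0 (n 8861211 z (n 8861211 z z)) (n 0 z z)))))) (n 2 (n 0 z (n 0 (n 8872995
 z z) (n 0 z (n 0 z (n 0 z (n 0 (n 8872995 z (n 8872995 z z)) z)))))) (n 2 (n 0 z (n 0 z (n 0 (n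
 4132 z (n 8659059 z z)) (n 0 (n 21 z (n 8659059 z z)) (n 0 (n 4132 z (n 4132 z z)) (n 0 z
 z)))))) (n 2 (n 0 z (n 0 z (n 0 z (n 0 z (n 0 z (n 0 z z)))))) z))))) (n 0 z z))))) (n 1033 (n
 0 z (n 0 z (n 2 (n 0 z (n 0 z (n 0 z (n 0 z z)))) (n 0 z (n 0 z (n 0 z (n 0 z (n 0 z z))))))))
 (n 1033 (n 0 z (n 0 z (n 0 z (n 0 z (n 0 z (n 0 z (n 2 (n 0 z (n 0 z (n 0 z z))) (n 0 z
 z)))))))) (n 1033 (n 0 z (n 0 z (n 0 z (n 0 z (n 2 (n 0 z (n 0 z z)) (n 0 z (n 0 z (n 0 z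
 z)))))))) (n 1033 (n 0 z (n 0 z (n 0 z (n 2 (n 0 z z) (n 0 z (n 0 z (n 0 z (n 0 z z)))))))) (n
 1033 (n 0 z (n 0 z (n 0 z (n 0 z (n 0 z (n 0 z (n 0 z (n 0 z z)))))))) z))))))))) (n 0 (n 0 z
 (n 661 (n 0 z (n 0 z (n 0 z (n 0 z (n 0 z (n 0 z (n 0 z (n 0 z (n 0 z (n 0 z (n 0 z (n 0 z (n 0
 z (n 0 z (n 0 z (n 0 z (n 0 z (n 0 z (n 0 z (n 0 z (n 0 z (n 0 z z)))))))))))))))))))))) (n 661
 (n 0 z (n 0 z (n 0 z (n 0 z (n 0 z (n 0 z (n 0 z (n 0 z (n 6561907 z (n 0 z (n 0 z (n 0 z (n 0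
 z (n 0 z (n 0 z (n 0 z (n 0 z (n 0 z (n 0 z (n 0 z (n 0 z (n 0 z z)))))))))))))))))))))) (n 17
 (n 0 z (n 0 z (n 0 z (n 0 z (n 0 z (n 0 z (n 0 z (n 0 z z)))))))) (n 17 (n 0 z (n 2 (n 0 z (n 0
 z (n 0 z z))) (n 0 z (n 0 z (n 0 z (n 0 z (n 0 z (n 0 z z)))))))) (n 17 (n 0 z (n 0 z (n 0 z (n
 0 z (n 2 (n 0 z (n 0 z z)) (n 0 z (n 0 z (n 0 z z)))))))) (n 17 (n 0 z (n 0 z (n 0 z (n 0 z (n
 0 z (n 0 z (n 0 z (n 2 (n 0 z z) z)))))))) (n 17 (n 0 z (n 0 z (n 0 z (n 0 z (n 0 z (n 0 z (n 0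
 z (n 0 z z)))))))) z)))))))) (n 0 (n 487 (n 0 z (n
 0x52c76080a7a683f85e7a28107c78038518038497fb78579082d84781e7df7cd85a7157f982784984d7e083f7ba7ff83c7d28a978693d80f78972873a8af8ab82a8467cc7bb8877c58be8046e27f60051
 z (n 2 (n 0 z (n 1 z (n 2 (n 0 (n 1924 z (n 1924 z z)) (n 0 (n 8864611 z (n 8864611 z z)) (n 0
 z (n 0 z (n 0 (n 8848923 z (n 8848923 z z)) (n 0 (n 8455723 z (n 8455723 z z)) z)))))) (n 2 (n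
 0 (n 8860683 z z) (n 0 z (n 0 (n 8860683 z z) (n 0 z (n 0 z (n 0 (n 8860683 z (n 8860683 z z))
 z)))))) (n 2 (n 0 z (n 0 z (n 0 z (n 0 z (n 0 z (n 0 z z)))))) (n 2 (n 0 z (n 0 z (n 0 z (n 0 z
 (n 0 (n 1924 z (n 8783691 z z)) (n 0 (n 1924 z z) z)))))) z)))))) (n 0 z (n 0 z (n 0 z (n 0 z
 (n 0 z (n 0 z (n 0 z (n 0 z (n 0 z (n 0 z (n 0 z (n 0 z (n 0 z (n 0 z (n 0 z (n 0 z (n 0 z (n 0
 z (n 0 z (n 0 z (n 0 z (n 0 z (n 0 z (n 0 z (n 0 z (n 0 z (n 0 z (n 0 z (n 0 z (n 0 z (n 0 z (n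
 0 z (n 0 z z)))))))))))))))))))))))))))))))))))) (n 487 (n 0 z (n 0 z (n 0 z (n 0 z (n 0 z (n 0
 z (n 0 z (n 0 z (n 0 z (n 0 z (n 0 z (n 0 z (n 0 z (n 0 z (n 0 z (n 0 z (n 0 z (n 0 z (n 0 z (n
 0 z (n 0 z (n 0 z (n 0 z (n 0 z (n 0 z (n 0 z (n 0 z (n 0 z (n 0 z (n 0 z (n 0 z (n 0 z (n 0 z
 (n 0 z (n 0 z (n 0 z z)))))))))))))))))))))))))))))))))))) (n 481 (n 0 z (n 0 z (n 0 z (n 0 z
 (n 0 z (n 0 z (n 0 z (n 0 z (n 0 z (n 0 z (n 0 z (n 0 z (n 0 z (n 0 z (n 0 z (n 0 z (n 0 z (n 0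
 z (n 0 z (n 0 z (n 0 z (n 0 z (n 0 z (n 0 z (n 0 z (n 0 z z)))))))))))))))))))))))))) (n 481 (n
 0 z (n 0 z (n 2 (n 0 z (n 0 z (n 0 z z))) (n 0 z (n 0 z (n 0 z (n 0 z (n 0 z (n 0 z (n 0 z (n 0
 z (n 0 z (n 0 z (n 0 z (n 0 z (n 0 z (n 0 z (n 0 z (n 0 z (n 0 z (n 0 z (n 0 z (n 0 z (n 0 z (n
 0 z (n 0 z z)))))))))))))))))))))))))) (n 481 (n 0 z (n 0 z (n 0 z (n 0 z (n 0 z (n 0 z (n 0 z
 (n 0 z (n 0 z (n 0 z (n 2 (n 0 z (n 0 z z)) (n 0 z (n 0 z (n 0 z (n 0 z (n 0 z (n 0 z (n 0 z (n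
 0 z (n 0 z (n 0 z (n 0 z (n 0 z (n 0 z (n 0 z (n 0 z z)))))))))))))))))))))))))) (n 481 (n 0 z
 (n 0 z (n 0 z (n 0 z (n 0 z (n 0 z (n 0 z (n 0 z (n 0 z (n 0 z (n 0 z (n 0 z (n 0 z (n 0 z (n 0
 z (n 0 z (n 0 z (n 0 z (n 0 z (n 0 z (n 7407147 z (n 0 z (n 0 z (n 0 z (n 0 z (n 0 z
 z)))))))))))))))))))))))))) (n 481 (n 0 z (n 0 z (n 0 z (n 0 z (n 0 z (n 0 z (n 0 z (n 0 z (n 0
 z (n 0 z (n 0 z (n 0 z (n 0 z (n 0 z (n 0 z (n 0 z (n 0 z (n 0 z (n 0 z (n 0 z (n 0 z (n 0 z (n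
 2 z (n 0 z (n 0 z (n 0 z z)))))))))))))))))))))))))) z))))))) (n 0 (n 0 z (n 241 (n 0 z (n
 6492275 z (n 0 z (n 0 z (n 0 z (n 0 z (n 0 z (n 0 z (n 0 z (n 0 z (n 0 z (n 0 z (n 0 z (n 0 z
 (n 0 z (n 0 z (n 0 z (n 0 z (n 0 z (n 0 z (n 0 z (n 0 z (n 0 z (n 0 z (n 0 z (n 0 z (n 0 z (n 0
 z (n 0 z (n 0 z (n 0 z (n 0 z (n 0 z (n 0 z (n 0 z z))))))))))))))))))))))))))))))))))) (n 241
 (n 0 z (n 0 z (n 0 z (n 0 z (n 0 z (n 0 z (n 0 z (n 0 z (n 0 z (n 0 z (n 0 z (n 0 z (n 0 z (n 0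
 z (n 0 z (n 0 z (n 0 z (n 0 z (n 0 z (n 0 z (n 0 z (n 0 z (n 0 z (n 0 z (n 0 z (n 0 z (n 0 z (n
 0 z (n 0 z (n 0 z (n 0 z (n 0 z (n 0 z (n 0 z (n 0 z z))))))))))))))))))))))))))))))))))) (n
 241 (n 0 z (n 0 z (n 0 z (n 0 z (n 0 z (n 0 z (n 0 z (n 0 z (n 0 z (n 0 z (n 7746571 z (n 0 z
 (n 0 z (n 0 z (n 0 z (n 0 z (n 0 z (n 0 z (n 0 z (n 0 z (n 0 z (n 0 z (n 0 z (n 0 z (n 0 z (n 0
 z (n 0 z (n 0 z (n 0 z (n 0 z (n 0 z (n 0 z (n 0 z (n 0 z (n 0 z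
 z))))))))))))))))))))))))))))))))))) (n 241 (n 0 z (n 0 z (n 0 z (n 0 z (n 0 z (n 0 z (n 0 z (n
 0 z (n 0 z (n 0 z (n 0 z (n 0 z (n 0 z (n 0 z (n 0 z (n 0 z (n 0 z (n 0 z (n 0 z (n 0 z (n 0 z
 (n 0 z (n 0 z (n 0 z (n 0 z (n 0 z (n 0 z (n 0 z (n 0 z (n 0 z (n 0 z (n 0 z (n 0 z (n 0 z (n 0
 z z))))))))))))))))))))))))))))))))))) (n 241 (n 0 z (n 0 z (n 0 z (n 0 z (n 0 z (n 0 z (n 0 z
 (n 0 z (n 0 z (n 0 z (n 0 z (n 0 z (n 0 z (n 0 z (n 0 z (n 0 z (n 0 z (n 0 z (n 0 z (n 0 z (n 0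
 z (n 0 z (n 0 z (n 0 z (n 0 z (n 0 z (n 0 z (n 0 z (n 0 z (n 0 z (n 0 z (n 0 z (n 0 z (n 0 z (n
 0 z z))))))))))))))))))))))))))))))))))) z)))))) (n 0 (n 5 (n 0 z (n 0 z (n 0 z (n 0 z (n 0 z
 (n 0 z (n 0 z (n 0 z (n 0 z (n 2 (n 0 z (n 0 z (n 0 z (n 0 z z)))) (n 0 z (n 0 z (n 0 z (n 0 z
 (n 0 z (n 0 z (n 0 z (n 0 z (n 0 z (n 0 z (n 0 z (n 0 z z)))))))))))))))))))))) (n 5 (n 0 z (n
 0 z (n 0 z (n 0 z (n 0 z (n 0 z (n 0 z (n 0 z (n 0 z (n 0 z (n 0 z (n 0 z (n 0 z (n 0 z (n 0 z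
 (n 0 z (n 0 z (n 0 z (n 0 z (n 0 z (n 0 z (n 0 z z)))))))))))))))))))))) (n 5 (n 0 z (n 0 z (n
 0 z (n 0 z (n 0 z (n 0 z (n 0 z (n 0 z (n 0 z (n 0 z (n 0 z (n 0 z (n 0 z (n 0 z (n 0 z (n 0 z
 (n 0 z (n 0 z (n 0 z (n 0 z (n 0 z (n 0 z z)))))))))))))))))))))) (n 5 (n 0 z (n 0 z (n 2 (n 0
 z z) (n 0 z (n 0 z (n 0 z (n 0 z (n 0 z (n 0 z (n 0 z (n 0 z (n 0 z (n 0 z (n 0 z (n 0 z (n 0 z
 (n 0 z (n 0 z (n 0 z (n 0 z (n 0 z (n 0 z z)))))))))))))))))))))) (n 5 (n 0 z (n 0 z (n 0 z (n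
 0 z (n 0 z (n 0 z (n 0 z (n 0 z (n 0 z (n 0 z (n 0 z (n 0 z (n 0 z (n 0 z (n 0 z (n 0 z (n 0 z
 (n 0 z (n 0 z (n 0 z (n 0 z (n 0 z z)))))))))))))))))))))) z))))) (n 0 (n 0 z (n 0 z (n 0 z (n
 0 z z)))) (n 0 (n 0 z (n 0 z (n 0 z z))) (n 0 (n 0 z (n 0 z z)) (n 0 (n 0 z z) (n 0 z
 z)))))))))) (n 0 (n 1 (n 1228 z (n 1228 z (n 1228 z (n 1228 z (n 1228 z (n 1228 z z)))))) (n 1
 (n 3278363 z (n 3278363 z (n 3278363 z (n 3278363 z (n 3278363 z (n 3278363 z z)))))) (n 0 z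
 z))) (n 0 z z)))) (n 0x1a45544451ac58c4a2c428b8218a40cb690454250114840 (n 0 (n 473 (n 2 z (n
 0xa0d7652651401803c5fb2a32a100c062bed9519448060212b6ca6ca620300a0d7654642103803e6fb29b19081c01208c008c542b400180a00062a16d0097df000315002802486d65105e49f6ca20a997e994414612cb28833e3f8651832f6b7f04737f95f980bb6a7ecb15805c24803d1f7dc9ce80f1937dbb157e491d8038c2813e58808f377ea24e81cebe7ccd3f810fa77eb79483f8897d274982f2018180417d138480a0117f19867fd4db7e403c7fefd48302e17f87578056237f7baf82e54781758f7fc73e7aaa2a7e02258249028075987f5b0780ac927c958e7f996983273483c7f78273c07f01397e63b58234404959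
 z (n
 0x254264030382a82c8060789f8218608608217df7df8617e08607df8208608608207e181f86182082086081f8208208201001
 z (n 0 z (n 3282443 z (n 0 z (n 0 z (n 0 z (n
 0x66546542038ac84a8420772885ca989e396b80da5eb21a227dc6e05626d7d10414b1799cbb5aed3a17588e386145c9d91001
 z (n 10 z (n
 0x87ed951950806001bbeca8ca6403002a3b6536532018006efb29b20900c006c2d95190840e0035e6c84c842030005b76536321038006e380118a856800092c000c542da00287e00062a00500d43f6ca2017ffe994403533cb2880743f86518047557ff2837fdfe4801b4c7fe47d7ffc278023397fb606803dad7fbb2e7fba8f805fb27ffeaa8019aa7fe2b78019d67fb26d801a6f7fbcc28073607f8ee3805d9a8038357fb78b8028918023d67fca45801bc08016c08067d47ffad3803a35801ec3808fdd7f67f57fa6067f688a80147c80731a7f9a2d7fbd7d80450b7f75788014828022a9805142801caf8018467fd428803a925119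
 z (n 0 z (n
 0x4572bb29328980c022d6d90d90c80e038bf6c64c64203006e6f543650101802243a99328080c1d075d0c9900406045ade864c402030377690023150ad00071080118a851806e69c000c542da034a3e00062a049001487000315000823e8bc65314ab6f6ca6206a5e994c6f479cb29880ce786537d211e8781138357e47b4c7b7b46397e15c58e7cd27783388b9d606e27d07bf78886102478bc757d7c9b85414681cfcb81d40c825cd776b00c891bde7a9e7c8d733b80fa027d09c77ee72f7bbbc68109f976581b8327927c359d7f48d28946c578409d9308fd71a7157d0308793e6f925f367aa2448a9d4f7b0e647de3777d2fb2889fe988bb0b875db6750f747d587585b88680bba76159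
 z (n
 0x752165040392c84c8420786182295d66c6f4954c9f9629dfa8f94b5e38e1b5f3569cad4fbafb5a4938da96155f6a471c1001
 z z)))))))))))))) (n 472 (n 3278363 z (n 18 z (n 26 z (n 34 z (n 0 z (n 42 z (n 0 z (n 50 z
 z)))))))) (n 692 (n 3212843 z (n 0 z z)) (n 3 (n 0 z (n
 0x454321908281c000ca590994400e0014fea84ca20070010d3651541003800688328b10800c000e9d90548400600005e00062a16d0002c90003150ac800b78d651006b4b6ca20143e6994401e68cb288035a58651802d3f7fdfff7ffd5d800abc7febce8002c580000c7fef86800bdb7ff2297fe2f77ffb60802ddd8008e97fea6b801d017fb6df8007347ffbea8009947ff2d67fe88b801cf97fe521801a807fed798029027fd81f7fca05803c3d8037ad8009cf7fffe8800eb5801bf08007317f7fbd7feb327fd4ca8002bb7ffcb18008c27fd6ea8011b780097c803c6a8001fb8008cd7fe6c58003b94159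
 z (n 0 z (n 0 z (n 2164283 z (n 0 z (n 0 z (n 0 z (n 0 z (n 58 z (n 0 z (n 0 z (n 0 z (n
 0x23db8002128d2802fcfc001094522002fce00084a30d00ef0f00042514493fe3880118a85b80cbccc008c5428c272e4e00062a11d2606ff00031506282042f80018a8214005f9c000c540021ae4fe000a8c02006b93f00054600010ebcfd651bfdbff6ca37733be9946d500fcb28c9cc378651aeda9c796e157d59109903ed8231376833d18c64f18ba7b29528138e4ea25f7df5889c6c94822e8dd2c6787c058474fa515189878a9d878197ada93d54393a8f789590b6194e4ccba563eda38d497c097b92974d67fccdbf96e09ad1045ef07a7edb2fb0a3e66cc6bd93cbb83e91399105b87d243487286173ce5e988fd8396a3d7a89976e50619cf5406b5aa09b49f433f4dc9de76d6159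
 z (n
 0xe2fdb2a32a000c022d6d90990800e00890ea84ca200308ae57651641001803737b28aa0800c1d075d90508400e045adec428420070377690023150ad00071080118a851806e69c000c542da034a3e00062a049001487000315000823e8bc61014ab6f6c20206a5e98406f479cb08080ce786107d4869851db68357e47b3fb97a921c7df7668dac807778728c7c4e6e1d0a7bea2d86cae378fa8c7d538f84b646819945816fae8260da7699a1846fd07a82838d76b381075d7ccbb57eba7c7c41d681e6fc76fc86831b187cab767f650d8e170a781e598ea3bc71f6637c8cd179b9ec96874479a2fd8abf937b403880f7717d257c88ae27890eae874045750bfc7cdbb1807c1280e4e26159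
 z (n 0 z (n 0 z z))))))))))))))))) (n 1 (n 0 z (n 2164299 z (n 0 z (n 0 z (n 0 z (n 0 z (n 0 z
 z))))))) (n 0 (n 0 z (n 0 z (n 2164315 z (n 66 z (n 0 z (n 0 z (n 0 z z))))))) z)))))) (n 692
 (n 0 (n 0 z (n 945 (n 0 z (n 2 (n 0 z (n 0 z (n 0 z (n 0 z (n 1 z (n 1 z z)))))) (n 0 z (n 0 z
 (n 0 z (n 0 z (n 0 z (n 0 z (n 0 z z))))))))) (n 945 (n 0 z (n 0 z (n 0 z (n 0 z (n 0 z (n 0 z
 (n 0 z (n 0 z (n 0 z z))))))))) (n 945 (n 2 (n 0 z (n 0 z (n 1 z (n 1 z z)))) (n 0 z (n 0 z (n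
 0 z (n 0 z (n 0 z (n 0 z (n 0 z (n 0 z z))))))))) (n 945 (n 0 z (n 0 z (n 0 z (n 0 z (n 2 (n 0
 z (n 1 z (n 1 z z))) (n 0 z (n 0 z (n 0 z (n 0 z z))))))))) (n 945 (n 0 z (n 0 z (n 0 z (n 0 z
 (n 0 z (n 0 z (n 0 z (n 0 z (n 2 (n 1 z (n 2 (n 0 z (n 0 (n 6496387 z z) (n 0 z (n 0 (n 8729187
 z z) (n 0 (n 7544963 z (n 100 z z)) (n 0 z z)))))) z)) z))))))))) (n 27 (n 0 z (n 0 z (n 0 z (n
 0 z (n 0 z (n 0 z (n 0 z (n 0 z (n 0 z (n 2 (n 1 z z) (n 0 z (n 0 z (n 0 z (n 0 z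
 z)))))))))))))) (n 25 (n 0 z (n 0 z (n 0 z (n 0 z (n 2 z (n 0 z (n 0 z (n 0 z (n 0 z z)))))))))
 z)))))))) (n 0 (n 763 (n 0 z (n 0 z (n 0 z (n 0 z z)))) (n 763 (n 0 z (n 0 z (n 0 z (n 0 z
 z)))) (n 763 (n 0 z (n 2 (n 0 z (n 0 z (n 1 z (n 1 z z)))) (n 0 z (n 0 z z)))) (n 763 (n 0 z (n
 0 z (n 0 z (n 0 z z)))) (n 763 (n 0 z (n 0 z (n 0 z (n 0 z z)))) (n 59 (n 0 z (n 2 (n 1 z z) (n
 0 z (n 0 z (n 0 z (n 0 z (n 0 z z))))))) (n 61 (n 0 z (n 0 z (n 0 z (n 0 z (n 0 z (n 0 z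
 z)))))) z))))))) (n 0 (n 0 z (n 0 z (n 0 z (n 0 z (n 299 (n 0 z (n 0 z (n 0 z (n 0 z (n 0 z (n
 0 z (n 0 z (n 0 z (n 0 z (n 0 z (n 0 z (n 0 z (n 0 z (n 0 z (n 0 z (n 0 z (n 0 z
 z))))))))))))))))) (n 301 (n 0 z (n 0 z (n 0 z (n 0 z (n 0 z (n 0 z z)))))) z)))))) (n 0 (n 0 z
 (n 0 z (n 0 z (n 1045 (n 0 z (n 0 z (n 0 z (n 0 z (n 0 z (n 0 z (n 0 z (n 0 z (n 0 z (n 0 z (n
 0 z (n 0 z (n 2 (n 1 z z) (n 0 z (n 0 z (n 0 z (n 0 z (n 0 z (n 0 z z))))))))))))))))))) (n 493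
 (n 2 z (n 0 z (n 0 z (n 0 z z)))) z))))) (n 0 (n 0 z (n 0 z (n 425 (n 0 z (n 0 z (n 0 z (n 0 z
 (n 0 z (n 0 z (n 0 z (n 0 z (n 0 z (n 0 z (n 0 z (n 0 z (n 0 z z))))))))))))) (n 413 (n 0 z z)
 z)))) (n 0 (n 0 z (n 473 (n 0 z (n 0 z (n 0 z (n 0 z (n 0 z (n 0 z (n 0 z (n 0 z z)))))))) (n
 785 (n 0 z (n 0 z (n 2 z (n 0 z (n 0 z (n 0 z (n 0 z (n 0 z z)))))))) z))) (n 0 (n 453 (n 0 z
 (n 0 z (n 0 z (n 0 z (n 0 z (n 0 z (n 2 (n 2 (n 0 (n 8864267 z (n 8864267 z z)) (n 0 z (n 0 z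
 (n 0 (n 8864267 z (n 8864267 z z)) (n 0 z (n 0 (n 8864267 z (n 8864267 z z)) z)))))) z) (n 0 z
 (n 0 z (n 0 z (n 0 z (n 0 z (n 0 z (n 0 z (n 0 z (n 0 z z)))))))))))))))) (n 785 (n 0 z (n 0 z
 (n 2 z (n 0 z (n 0 z (n 0 z (n 0 z (n 0 z (n 0 z z))))))))) z)) (n 0 (n 1 (n 0 z (n 0 z (n 0 z
 (n 0 z (n 0 z (n 0 z (n 0 z (n 0 z (n 0 z (n 0 z z)))))))))) z) (n 0 z z))))))))) (n 0 (n 1 (n
 3212843 z (n 3212843 z (n 3212843 z (n 3212843 z (n 3212843 z (n 3212843 z z)))))) (n 0 z z))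
 (n 0 z z)))) (n 0x6d35b1828b (n 0 (n 201 (n 3282443 z (n 0 z (n 0 z z))) (n 35 (n 6496515 z (n
 0 z (n 0 z (n 0 z (n 0 z z))))) (n 9 (n 6496515 z (n 0 z (n 0 z (n 0 z (n 0 z z))))) (n 3 (n 0
 z (n 2 z (n 6497563 z (n 6496515 z (n 0 z z))))) (n 25 (n 0 z (n 2164299 z z)) (n 0 (n 0 z (n 0
 z (n 0 z (n 6627635 z (n 10 z z))))) z)))))) (n 25 (n 0 (n 733 (n 0 z (n 0 z (n 0 z (n 0 z (n 0
 z (n 0 z z)))))) z) (n 0 z z)) (n 0 (n 0 z (n 1 (n 2164299 z (n 2164299 z (n 2164299 z (n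
 2164299 z (n 2164299 z (n 2164299 z z)))))) z)) (n 0 z z)))) (n
 0xd9e9466a3a22addc216e650369ec265b1819 (n 0 (n 203 (n 6627395 z (n 0 z (n 0 z (n 0 z z)))) (n
 33 (n 6496515 z (n 0 z (n 0 z (n 2 z z)))) (n 135 (n 6627395 z (n 10 z (n 0 z (n 0 z (n 6496515
 z (n 18 z z)))))) (n 3 (n 0 z (n 6496515 z z)) (n 1 (n 0 z (n 2164299 z (n 26 z z))) (n 0 (n
 6627395 z (n 6627395 z (n 34 z (n 0 z (n
 0x2ca68624077e07e081f82086085f85d86082185f7df86085f86081e8617e181f7e189f86081e82285e8210801 z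
 (n 0x2ca68604078217a185f81f8a082081e86182081f8208208227df8608208208208208208208a08208208200801
 z (n 0 z (n 0 z (n 42 z (n 50 z z)))))))))) z)))))) (n 3 (n 0 (n 727 (n 0 z (n 0 z (n 0 z z)))
 (n 727 (n 0 z (n 0 z (n 0 z z))) (n 111 (n 0 z (n 0 z (n 0 z z))) (n 109 (n 0 z (n 0 z (n 0 z
 (n 0 z (n 0 z (n 0 z z)))))) (n 109 (n 0 z (n 0 z (n 0 z (n 0 z (n 0 z (n 2 (n 0 z z) z))))))
 (n 109 (n 0 z (n 0 z (n 0 z (n 0 z (n 0 z (n 0 z z)))))) z)))))) (n 0 (n 0 z (n 21 (n 0 z (n 0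
 z (n 0 z z))) (n 269 (n 0 z (n 0 z (n 0 z z))) (n 269 (n 0 z (n 0 z (n 0 z z))) (n 269 (n 0 z
 (n 0 z (n 0 z z))) z))))) (n 0 (n 15 (n 0 z (n 0 z (n 0 z (n 0 z z)))) (n 269 (n 0 z (n 0 z (n
 0 z (n 0 z (n 0 z (n 0 z (n 0 z (n 0 z (n 0 z (n 0 z (n 0 z (n 0 z z)))))))))))) (n 269 (n 0 z
 (n 0 z (n 0 z (n 0 z (n 0 z (n 0 z (n 0 z (n 0 z (n 0 z (n 0 z (n 0 z (n 0 z z)))))))))))) (n
 269 (n 0 z (n 0 z (n 0 z (n 0 z (n 0 z (n 0 z (n 0 z (n 0 z (n 0 z (n 0 z (n 0 z (n 0 z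
 z)))))))))))) z)))) (n 0 (n 49 (n 0 z (n 0 z (n 0 z (n 0 z (n 0 z (n 0 z (n 0 z (n 0 z (n 0 z
 (n 0 z z)))))))))) (n 49 (n 0 z (n 0 z (n 0 z (n 0 z (n 0 z (n 0 z (n 0 z (n 0 z (n 0 z (n 0 z
 z)))))))))) (n 49 (n 0 z (n 2 z (n 0 z (n 0 z (n 0 z (n 0 z (n 0 z (n 0 z (n 0 z (n 0 z
 z)))))))))) z))) (n 0 (n 0 z (n 0 z z)) (n 0 (n 0 z z) (n 0 z z))))))) (n 0 (n 0 z (n 1 (n
 6496515 z (n 6496515 z (n 6496515 z (n 6496515 z (n 6496515 z (n 6496515 z z)))))) z)) (n 0 z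
 z)))) z)))))))))), by decide +kernel⟩
theorem i10426 : ∃ t, chkR KT RW t 10426 10436 = true := ⟨(n 0x19a8e88ab75e6234d4219 (n 0 (n 201
 (n 0 z (n 0 z (n 0 z (n 3282443 z z)))) (n 33 (n 0 z (n 2 z (n 0 z (n 6496515 z z)))) (n 9 (n 0
 z (n 6496515 z (n 10 z z))) (n 3 (n 0 z (n 6496515 z z)) (n 25 (n 0 z (n 0 z (n 6636323 z z)))
 (n 0 (n
 0x2ca88406038218607a08a181f79f82182185f7e07e182085e81f8208207e081f8208208218608208208200801 z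
 (n 0 z (n 18 z (n 0 z (n
 0x2ca88426038208207e186081f8208218208607a07df82185f8217e18208208217e08208618207e08208200801 z
 (n 6636323 z (n 0 z (n 0 z (n 26 z (n 6636323 z z)))))))))) z)))))) (n 3 (n 0 (n 103 (n 0 z (n
 0 z (n 0 z z))) (n 481 (n 0 z (n 0 z (n 0 z (n 0 z (n 0 z (n 0 z (n 0 z (n 0 z (n 0 z (n 0 z (n
 0 z (n 0 z z)))))))))))) (n 481 (n 0 z (n 0 z (n 0 z (n 0 z (n 0 z (n 0 z (n 0 z (n 0 z (n 0 z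
 (n 0 z (n 0 z (n 0 z z)))))))))))) z))) (n 0 (n 17 (n 0 z (n 0 z (n 0 z (n 0 z (n 0 z (n 2 (n 0
 z z) z)))))) (n 17 (n 0 z (n 0 z (n 0 z (n 0 z (n 0 z (n 0 z z)))))) z)) (n 0 (n 0 z z) (n 0 z
 z)))) (n 0 (n 0 z (n 1 (n 6496515 z (n 6496515 z (n 6496515 z (n 6496515 z (n 6496515 z (n
 6496515 z z)))))) z)) (n 0 z z)))) (n 0 (n 0 (n 201 (n 0 z (n 3282443 z (n 0 z z))) (n 33 (n 0
 z (n 0 z (n 6496515 z (n 0 z z)))) (n 9 (n 0 z (n 6496515 z (n 0 z z))) (n 3 (n 0 z (n 0 z (n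
 6496515 z z))) (n 25 (n 0 z (n 0 z (n 6636323 z z))) (n 0 (n 0 z (n 0 z (n 0 z (n 0 z (n
 6636323 z z))))) z)))))) (n 201 z (n 0 (n 0 z (n 1 (n 3282443 z (n 6496515 z (n 3282443 z (n
 3282443 z (n 3282443 z (n 3282443 z z)))))) (n 0 z z))) (n 0 z z)))) (n 0x1962ecc43cae40b4ce829
 (n 0 (n 717 (n 6426691 z (n 0 z (n 0 z (n 0 z (n 0 z z))))) (n 715 (n 6426691 z (n 0 z (n 0 z
 (n 0 z (n 0 z (n 0 z (n 0 z (n 0 z (n 2 z (n 0 z (n 0 z (n 0 z z)))))))))))) (n 716 (n 6426691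
 z (n 0 z (n 10 z (n 0 z (n 18 z z))))) (n 3 (n 2164283 z (n 0 z (n 0 z (n 0 z (n 0 z (n 0 z (n
 0 z (n 0 z z)))))))) (n 1 (n 0 z (n 6554139 z (n 0 z (n 0 z z)))) (n 0 (n 2164315 z (n 0 z (n 0
 z (n 0 z (n 0 z (n 26 z z)))))) z)))))) (n 1 (n 0 (n 1173 (n 0 z (n 0 z (n 0 z z))) (n 1173 (n
 0 z (n 0 z (n 0 z z))) (n 1037 (n 0 z (n 0 z (n 0 z (n 0 z (n 0 z (n 0 z z)))))) z))) (n 0 (n 0
 z (n 289 (n 0 z (n 0 z (n 0 z (n 0 z (n 0 z z))))) z)) (n 0 (n 833 (n 0 z (n 0 z (n 0 z z))) z)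
 (n 0 z z)))) (n 0 (n 0 z (n 1 (n 6554139 z (n 6554139 z (n 6554139 z (n 6426691 z (n 6554139 z
 (n 6554139 z z)))))) (n 0 z (n 0 z z)))) (n 0 z z)))) (n 0xa19d68e162 (n 0 (n 179 (n 0 z (n 0 z
 (n 0 z (n 6426691 z (n 0 z z))))) (n 33 (n 0 z (n 0 z (n 6426691 z (n 0 z z)))) (n 129 (n 2 z
 (n 0 z (n 0 z (n 0 z (n 0 z (n 0 z (n 0 z (n 6426691 z (n 6426691 z (n 6426691 z (n 0 z (n 0 z
 (n 0 z (n 0 z z)))))))))))))) (n 3 (n 10 z (n 0 z (n 0 z (n 2164283 z (n 4261435 z (n 4261435 z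
 (n 0 z (n 0 z (n 0 z (n 0 z (n 0 z z))))))))))) (n 127 (n 6554139 z (n 0 z (n 0 z z))) (n 0 (n
 6624011 z (n 0 z (n 0 z z))) z)))))) (n 127 (n 0 (n 1181 (n 0 z (n 0 z (n 0 z (n 0 z (n 0 z (n
 0 z (n 0 z (n
 0x5d09d0840e13a1b21080c074364010180ca8c602070194d94c00603a9b29001c074274200380e86ca200785e81f82076489e8a086179f81f85e7dc82199e7a279e7e07e086179f7e289d7e28e39dd8634001
 z (n 0x3276482086179d8de7a885f8a08a38a27e37e389f7258e08227a591e8218dd7de8207d77a17216e20041 z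
 (n 0x3a76486089f71a95a7ac89c7e09258e37a37e591f6e78df7a376691f82095b75e89e7926e079b6650041 z (n
 0 z (n 0 z (n 0 z (n 0 z z)))))))))))))) z) (n 0 z z)) (n 0 (n 1 (n 6554139 z (n 6554139 z (n
 6426691 z (n 6554139 z (n 6554139 z (n 6554139 z z)))))) (n 0 z (n 0 z z))) (n 0 z z)))) (n
 0x10228c40a6e480a2e4441322280 (n 0 (n 207 (n 0 z (n 0 z (n 0 z (n 0 z (n 0 z (n 2 z (n 6557779
 z z))))))) (n 472 (n 0 z (n 10 z (n 0 z (n 0 z (n 6562099 z (n 0 z z)))))) (n 195 (n 0 z (n 0 z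
 (n 6562099 z z))) (n 3 (n 6488603 z (n 0 z (n 18 z z))) (n 25 (n 0 z (n 26 z (n 0 z (n 0 z (n
 34 z (n
 0x6642c80a038207df85f85f89e79e8607df7a182371e7e489e7e07267e182182075f8618a185e79c85f7a00801 z
 (n
 0x6190b20281c562163050182ca8a624079a169885881b8e179f86899d6e479e7217e47584ea4f29678d985d9df9df8a395991a8d39a11801
 z (n 0 z (n 6562099 z (n 0 z z)))))))))) (n 0 (n 0 z (n 0 z (n 6624267 z z))) z)))))) (n 195 (n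
 0 (n 71 (n 0 z (n 0 z (n 0 z (n 0 z (n 0 z z))))) (n 59 (n 0 z (n 0 z (n 0 z (n 0 z (n 0 z (n 0
 z (n 0 z (n 0 z (n 0 z z))))))))) (n 63 (n 0 z (n 0 z (n 0 z (n 0 z z)))) (n 63 (n 0 z (n 0 z
 (n 0 z (n 0 z z)))) z)))) (n 0 (n 299 (n 0 z (n 0 z (n 0 z (n 0 z (n 0 z (n 0 z (n 0 z (n 0 z
 (n 0 z z))))))))) (n 291 (n 0 z (n 0 z (n 0 z (n 0 z (n 0 z (n 0 z (n 0 z (n 0 z (n 0 z (n 0 z
 (n 0 z (n 0 z (n 0 z z))))))))))))) (n 291 (n 0 z (n 0 z (n 0 z (n 0 z (n 0 z (n 0 z (n 0 z (n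
 0 z (n 0 z (n 0 z (n 0 z (n 0 z (n 0 z z))))))))))))) z))) (n 0 (n 735 (n 0 z (n 0 z (n 0 z (n
 0 z (n 0 z (n 0 z (n 0 z (n 0 z (n 0 z z))))))))) (n 735 (n 0 z (n 0 z (n 0 z (n 0 z (n 0 z (n
 0 z (n 0 z (n 0 z (n 0 z z))))))))) z)) (n 0 (n 0 z z) (n 0 z z))))) (n 0 (n 0 z (n 0 z (n 1 (n
 6562099 z (n 6562099 z (n 6562099 z (n 6562099 z (n 6562099 z (n 6562099 z z)))))) z))) (n 0 z
 z)))) (n 0xa6b75b16e6d3240 (n 0 (n 585 (n 6496339 z (n 2 z (n 0 z (n 0 z (n 0 z (n 0 z z))))))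
 (n 33 (n 3278363 z (n 0 z (n 0 z z))) (n 129 (n 0 z (n 0 z (n 0 z (n 6566419 z (n 0 z (n 0 z
 z)))))) (n 3 (n 0 z (n 0 z (n 6566419 z (n 10 z (n 6566419 z (n 0 z (n 0 z z))))))) (n 1 (n
 6566419 z (n 0 z (n 0 z (n 0 z (n 0 z z))))) (n 0 (n 6636043 z (n 0 z (n 18 z (n 0 z (n 0 z (n
 0 z (n 0 z z))))))) z)))))) (n 33 (n 0 (n 7 (n 0 z (n 0 z (n 7733787 z (n 0 z (n 0 z (n 0 z
 z)))))) (n 5 (n 2 z (n 0 z (n 0 z (n 0 z (n 0 z (n 0 z (n 0 z z))))))) z)) (n 0 (n 5 (n 0 z (n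
 0 z (n 0 z (n 0 z (n 0 z (n 0 z (n 0 z z))))))) z) (n 0 z z))) (n 0 (n 1 (n 3278363 z (n
 6566419 z (n 3278363 z (n 3278363 z (n 3278363 z (n 3278363 z z)))))) (n 0 z (n 0 z z))) (n 0 z
 z)))) (n 0x34d758a6b8c835bd6829334569122a5ad21168d0cb348659a681ad240 (n 0x19a6b (n 593 (n
 6496339 z (n 2 z (n 6619947 z (n 0 z (n 0 z (n 10 z (n 0 z z))))))) (n 33 (n 18 z (n 26 z (n 0
 z (n 6496515 z (n 34 z z))))) (n 51 (n 42 z (n 0 z (n 0 z (n 0 z (n 50 z (n 0 z (n 6496515 z (n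
 58 z z)))))))) (n 27 (n 0 z (n 0 z (n 6496515 z (n 66 z (n 0 z (n 6496515 z (n 6496339 z
 z))))))) (n 1 (n 6636043 z (n 0 z (n 0 z (n 74 z (n 0 z (n 0 z (n 0 z (n 0 z (n 0 z z)))))))))
 (n 0 (n 0 z (n 82 z (n 6636043 z (n 0 z (n 0 z (n 0 z (n 6619947 z (n 0 z (n 0 z z)))))))))
 z)))))) (n 33 (n 0 (n 0 z (n 1185 (n 0 z (n 0 z (n 0 z (n 2 (n 0 z (n 0 z (n 1 z (n 1 z (n 1 z
 (n 1 z (n 1 z (n 1 z z)))))))) z)))) (n 1185 (n 0 z (n 0 z (n 0 z (n 0 z z)))) (n 1185 (n 0 z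
 (n 0 z (n 0 z (n 0 z z)))) (n 259 (n 0 z (n 0 z (n 0 z z))) (n 259 (n 0 z (n 0 z (n 0 z z))) (n
 259 (n 0 z (n 0 z (n 0 z z))) (n 55 (n 0 z (n 0 z (n 0 z (n 0 z z)))) (n 3 (n 0 z (n 2 (n 1 z
 z) (n 0 z z))) (n 53 (n 0 z (n 0 z (n 0 z (n 0 z z)))) z)))))))))) (n 0 (n 167 (n 0 z (n 0 z (n
 0 z (n 0 z (n 0 z (n 0 z (n 0 z (n 0 z (n 0 z (n 0 z (n 0 z z))))))))))) (n 167 (n 0 z (n 0 z
 (n 0 z (n 0 z (n 0 z (n 0 z (n 0 z (n 0 z (n 0 z (n 0 z (n 0 z z))))))))))) (n 167 (n 0 z (n 0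
 z (n 0 z (n 0 z (n 0 z (n 0 z (n 2 (n 1 z (n 1 z (n 1 z (n 1 z (n 1 z (n 1 z z)))))) (n 0 z (n
 0 z (n 0 z (n 0 z z))))))))))) (n 1005 (n 0 z (n 0 z (n 0 z (n 2 (n 0 z (n 0 z (n 1 z (n 1 z (n
 1 z z))))) (n 0 z z))))) (n 1005 (n 0 z (n 0 z (n 0 z (n 0 z (n 0 z z))))) (n 1005 (n 0 z (n 0
 z (n 0 z (n 0 z (n 0 z z))))) (n 165 (n 0 z (n 0 z (n 0 z (n 0 z (n 0 z (n 0 z (n 0 z (n 0 z (n
 0 z (n 0 z (n 0 z (n 0 z (n 0 z (n 0 z z)))))))))))))) (n 483 (n 0 z (n 0 z (n 0 z (n 0 z (n 0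
 z (n 0 z (n 0 z z))))))) (n 73 (n 0 z (n 0 z (n 0 z (n 0 z z)))) z))))))))) (n 0 (n 0 z (n 0 z
 (n 1047 (n 2 (n 0 z (n 0 z (n 1 z (n 1 z (n 1 z z))))) (n 0 z (n 0 z (n 0 z (n 0 z (n 0 z (n 0
 z (n 0 z z)))))))) (n 1047 (n 0 z (n 0 z (n 0 z (n 0 z (n 0 z (n 0 z (n 0 z (n 0 z z)))))))) (n
 1047 (n 0 z (n 0 z (n 0 z (n 0 z (n 0 z (n 0 z (n 2 (n 1 z (n 1 z (n 1 z z))) (n 0 z z))))))))
 (n 315 (n 0 z (n 0 z (n 0 z (n 0 z (n 0 z z))))) (n 483 (n 0 z (n 0 z (n 0 z (n 0 z z)))) (n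
 313 (n 0 z (n 0 z (n 0 z (n 0 z (n 0 z (n 0 z (n 0 z (n 0 z (n 0 z (n 0 z (n 0 z (n 0 z (n 0 z
 (n 0 z (n 0 z (n 0 z (n 0 z (n 0 z (n 0 z (n 0 z (n 0 z z))))))))))))))))))))) z)))))))) (n 0
 (n 0 z (n 775 (n 0 z (n 0 z (n 0 z (n 0 z (n 0 z (n 0 z z)))))) (n 775 (n 0 z (n 0 z (n 0 z (n
 0 z (n 0 z (n 0 z z)))))) (n 775 (n 0 z (n 0 z (n 0 z (n 0 z (n 0 z (n 0 z z)))))) (n 75 (n 0 z
 (n 0 z (n 0 z (n 0 z z)))) (n 723 (n 0 z (n 0 z (n 0 z (n 0 z z)))) (n 725 (n 0 z (n 0 z (n 0 z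
 (n 0 z (n 0 z z))))) z))))))) (n 0 (n 123 (n 0 z (n 0 z (n 0 z (n 0 z (n 0 z (n 0 z (n 0 z (n 0
 z (n 0 z (n 0 z (n 0 z z))))))))))) (n 123 (n 0 z (n 0 z (n 2 (n 0 z (n 1 z (n 1 z (n 1 z z))))
 (n 0 z (n 0 z (n 0 z (n 0 z (n 0 z (n 0 z (n 0 z (n 0 z z))))))))))) (n 123 (n 0 z (n 0 z (n 0
 z (n 0 z (n 0 z (n 0 z (n 0 z (n 0 z (n 0 z (n 0 z (n 0 z z))))))))))) (n 487 (n 0 z (n 0 z (n
 2 (n 1 z (n 1 z z)) (n 0 z (n 0 z (n 0 z (n 0 z z))))))) (n 483 (n 0 z (n 0 z (n 2 (n 1 z z) (n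
 0 z (n 0 z z))))) (n 485 (n 0 z (n 0 z (n 0 z (n 0 z (n 0 z (n 0 z (n 0 z (n 2 z (n 0 z (n 0 z
 (n 0 z z))))))))))) z)))))) (n 0 (n 0 z (n 0 z (n 1093 (n 0 z (n 0 z (n 0 z (n 0 z (n 0 z (n 2
 (n 1 z (n 1 z z)) (n 0 z z))))))) (n 735 (n 0 z (n 0 z (n 0 z (n 0 z (n 2 (n 1 z z) (n 0 z (n 0
 z (n 0 z (n 0 z (n 0 z (n 0 z (n 0 z (n 0 z (n 0 z z)))))))))))))) (n 821 (n 0 z (n 2 z (n 0 z
 (n 0 z (n 0 z z))))) z))))) (n 0 (n 0 z (n 1093 (n 0 z (n 0 z (n 0 z (n 0 z (n 0 z (n 0 z (n 0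
 z (n 0 z z)))))))) (n 99 (n 0 z (n 0 z (n 0 z (n 0 z (n 0 z z))))) (n 101 (n 0 z (n 0 z (n 0 z
 (n 0 z (n 0 z (n 0 z (n 0 z (n 0 z z)))))))) z)))) (n 0 (n 247 (n 0 z (n 0 z (n 0 z (n 0 z
 z)))) (n 243 (n 0 z (n 0 z (n 0 z (n 2 (n 1 z z) (n 0 z (n 0 z z)))))) (n 241 (n 0 z (n 0 z (n
 0 z (n 0 z z)))) z))) (n 0 (n 51 (n 0 z (n 0 z (n 0 z (n 0 z (n 0 z (n 0 z (n 0 z z))))))) (n
 53 (n 0 z (n 0 z (n 0 z (n 0 z (n 0 z (n 0 z (n 0 z (n 0 z (n 0 z (n 0 z z)))))))))) z)) (n 0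
 (n 1 (n 0 z (n 0 z (n 0 z (n 0 z (n 0 z (n 0 z (n 0 z (n 0 z (n 0 z (n 0 z (n 0 z (n 0 z (n 0 z
 (n 0 z z)))))))))))))) z) (n 0 z z))))))))))) (n 0 (n 1 (n 6497307 z (n 4748 z (n 4748 z (n
 4748 z (n 2 z (n 4396635 z z)))))) (n 1 (n 4396555 z (n 6497307 z (n 4748 z (n 4748 z (n 4748 z
 (n 4748 z z)))))) (n 0 z (n 1 (n 6496515 z (n 6496515 z (n 6496515 z (n 6496515 z (n 6496515 z
 (n 6496515 z z)))))) (n 1 (n 220 z (n 4748 z (n 4748 z (n 4748 z (n 6497307 z (n 4748 z z))))))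
 z))))) (n 0 (n 0x8891529ad211 (n 0 (n 0 (n 7734043 z (n 7734043 z (n 7734043 z (n 7734043 z (n
 7734043 z (n 7734043 z z)))))) z) (n 0 (n 36 (n 1 (n 5448051 z (n 3282699 z (n 3282699 z (n
 3282699 z (n 7544915 z (n 3282699 z z)))))) (n 1 (n 7668523 z (n 7668523 z (n 7668523 z (n
 7668523 z (n 7544915 z (n 7668523 z z)))))) (n 1 (n 7668523 z (n 7668523 z (n 7668523 z (n
 7668523 z (n 7544915 z (n 7668523 z z)))))) (n 0 z z)))) (n 241 (n 1 (n 1628 z (n 6566003 z (n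
 1628 z (n 1628 z (n 1628 z (n 1628 z z)))))) (n 1 (n 7684619 z (n 7684619 z (n 7684619 z (n
 7684619 z (n 7684619 z (n 7684619 z z)))))) (n 1 (n 7545091 z (n 7545091 z (n 7545091 z (n
 7545091 z (n 7545091 z (n 7545091 z z)))))) (n 1 (n 4401003 z (n 1628 z (n 1628 z (n 1628 z (n
 2 z (n 1628 z z)))))) z)))) (n 551 (n 1 (n 7545091 z (n 7544915 z (n 7544915 z (n 7544915 z (n
 7544915 z (n 7544915 z z)))))) (n 1 (n 7545091 z (n 4380 z (n 4380 z (n 4380 z (n 4380 z (n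
 4380 z z)))))) (n 1 (n 7545091 z (n 7544915 z (n 7544915 z (n 7544915 z (n 7544915 z (n 7544915
 z z)))))) (n 1 (n 7545091 z (n 10 z (n 4261739 z (n 4380 z (n 4380 z (n 4380 z z)))))) (n 1 (n
 7545091 z (n 4380 z (n 4380 z (n 4380 z (n 4380 z (n 4380 z z)))))) z))))) (n 421 (n 0 z (n 1
 (n 7545091 z (n 7545091 z (n 7545091 z (n 7545091 z (n 7545091 z (n 7545091 z z)))))) (n 0 z (n
 1 (n 7545091 z (n 7545091 z (n 7545091 z (n 7545091 z (n 7545091 z (n 7545091 z z)))))) (n 1 (n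
 3596 z (n 3596 z (n 3596 z (n 3596 z (n 7545883 z (n 3596 z z)))))) z))))) (n 255 (n 1 (n 2572
 z (n 6492275 z (n 2572 z (n 2572 z (n 5310283 z (n 2572 z z)))))) (n 1 (n 7684619 z (n 7684619
 z (n 7684619 z (n 7684619 z (n 7684619 z (n 7684619 z z)))))) (n 1 (n 7545091 z (n 7545091 z (n
 7545091 z (n 7545091 z (n 7545091 z (n 7545091 z z)))))) (n 1 (n 220 z (n 2572 z (n 2572 z (n
 2572 z (n 7734043 z (n 2572 z z)))))) z)))) (n 669 (n 1 (n 7545091 z (n 3282699 z (n 3282699 z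
 (n 3282699 z (n 3282699 z (n 3282699 z z)))))) (n 1 (n 7545091 z (n 7668523 z (n 7668523 z (n
 7668523 z (n 7684619 z (n 7668523 z z)))))) (n 1 (n 7545091 z (n 7668523 z (n 7668523 z (n
 7668523 z (n 7684619 z (n 7668523 z z)))))) (n 0 z z)))) (n 33 (n 1 (n 7545883 z (n 3278699 z
 (n 3278699 z (n 3278699 z (n 7734043 z (n 4396891 z z)))))) (n 1 (n 4396811 z (n 7545883 z (n
 4748 z (n 4748 z (n 5310315 z (n 4748 z z)))))) (n 0 z (n 1 (n 7545091 z (n 7545091 z (n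
 7545091 z (n 7545091 z (n 7545091 z (n 7545091 z z)))))) (n 1 (n 220 z (n 4748 z (n 4748 z (n
 4748 z (n 7734043 z (n 4748 z z)))))) z))))) z))))))) (n 0 (n 0 (n 0 z (n 0 z z)) (n 0 (n 0 z
 z) z)) (n 0 (n 203 (n 0 (n 0 z (n 0 z z)) (n 0 (n 0 z (n 0 z z)) (n 0 (n 0 z (n 0 z z)) (n 0 (n
 0 z (n 0 (n
 0xdc3208a190330c8108647a67dca0c7d5d5c6e18207a28a77e65de79a76391a6dc7a54b64a46a5a1f5e895181372d5af0101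
 z (n 8456011 z z)) z)) (n 0 (n 0 z (n 0 z z)) (n 0 (n 0 z (n 0 z z)) (n 0 (n 0 z (n 0 z z)) (n
 0 (n 0 z (n 0 z z)) (n 0 (n 0 z (n 0 z z)) (n 0 (n 0 z (n 0 z z)) (n 0 (n 0 z (n 0 z z))
 z))))))))))) (n 551 (n 0 (n 0 z (n 0 z z)) (n 0 (n 0 z (n 0 z z)) (n 0 (n 0 z (n 0 z z)) (n 0
 (n 0 z (n 0 z z)) (n 0 (n 0 z (n 0 z z)) z))))) (n 547 (n 0 (n 0 z (n 0 z z)) (n 0 (n 0 z (n 0
 z z)) (n 0 (n 0 z (n 0 z z)) (n 0 (n 0 z (n 0 z z)) (n 0 (n 0 z (n 0 z z)) (n 0 (n 0 z (n 0 z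
 z)) (n 0 (n 0 z (n 0 z z)) (n 0 (n 0 z (n 0 z z)) z)))))))) (n 449 (n 0 (n 0 z (n 0 z z)) (n 0
 (n 0 z (n 0 z z)) (n 0 (n 0 z (n 0 z z)) (n 0 (n 0 z (n 0 z z)) (n 0 (n 0 z (n 0 z z)) (n 0 (n
 0 z (n 0 z z)) (n 0 (n 0 z (n 0 z z)) (n 0 (n 0 z (n 0 z z)) (n 0 (n 0 z (n 0 z z)) (n 0 (n 0 z
 (n 0 z z)) (n 0 (n 0 z (n 0 z z)) (n 0 (n 0 z (n 0 z z)) (n 0 (n 0 z (n 0 z z)) (n 0 (n 0 z (n
 0 z z)) z)))))))))))))) (n 421 (n 0 (n 0 z (n 0 z z)) (n 0 (n 0 z (n 0 z z)) (n 0 (n 0 z (n 0 z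
 z)) (n 0 (n 0 z (n 0 z z)) (n 0 (n 0 z (n 0 z z)) z))))) (n 570 (n 0 (n 0 z (n 0 z z)) (n 0 (n
 0 (n
 0xdc2a08a150330a8108547a67dca0c7d5d5c6e18207a28a77e65de79a76391a6dc7a54b64a46a5a1f5e895181372d5af0101
 z (n
 0xdc2a08a150330a8108547a67dca0c7d5d5c6e18207a28a77e65de79a76391a6dc7a54b64a46a5a1f5e895181372d5af0101
 z z)) (n 0 z z)) (n 0 (n 0 z (n 0 z z)) (n 0 (n 0 z (n 0 z z)) (n 0 (n 0 z (n 0 z z)) (n 0 (n 0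
 z (n 0 z z)) (n 0 (n 0 z (n 0 z z)) (n 0 (n 0 z (n 0 z z)) z)))))))) (n 321 (n 0 (n 0 z (n 0 z
 z)) (n 0 (n 0 z (n 0 z z)) (n 0 (n 0 z (n 0 z z)) (n 0 (n 0 z (n 0 z z)) (n 0 (n 0 z (n 0 z z))
 (n 0 (n 0 z (n 0 z z)) (n 0 (n 0 z (n 0 z z)) z))))))) (n 255 (n 0 (n 0 z (n 0 z z)) (n 0 (n 0
 z (n 0 z z)) (n 0 (n 0 z (n 0 z z)) (n 0 (n 0 z (n 0 z z)) z)))) (n 51 (n 0 (n 0 z (n 0 z z))
 (n 0 (n 0 z (n 0 z z)) (n 0 (n 0 z (n 0 z z)) (n 0 (n 0 z (n 0 z z)) (n 0 (n 0 z (n 0 z z))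
 z))))) (n 27 (n 0 (n 0 z (n 0 z z)) (n 0 (n 0 z (n 0 z z)) (n 0 (n 0 z (n 0 z z)) (n 0 (n 0 z
 (n 0 z z)) (n 0 (n 0 z (n 0 z z)) (n 0 (n 0 z (n 0 z z)) (n 0 (n 0 z (n 0 z z)) z))))))) (n 669
 (n 0 (n 0 z (n 0 z z)) (n 0 (n 0 z (n 0 z z)) (n 0 (n 0 z (n 0 z z)) (n 0 (n 0 z (n 0 z z))
 z)))) (n 667 (n 0 (n 0 z (n 0 z z)) (n 0 (n 0 z (n 0 z z)) (n 0 (n 0 z (n 0 z z)) (n 0 (n 0 z
 (n 0 z z)) (n 0 (n 0 z (n 0 z z)) (n 0 (n 0 z (n 0 z z)) (n 0 (n 0 (n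
 0x5c3102a188130c4088627df8617e085f8218218207e08218607e082082182081e8617a28207e08617e17e086081f7e00101
 z (n
 0x5c3102a188130c4088627df8617e085f8218218207e08218607e082082182081e8617a28207e08617e17e086081f7e00101
 z z)) (n 0 (n
 0x5c3102a188130c4088627df8617e085f8218218207e08218607e082082182081e8617a28207e08617e17e086081f7e00101
 z (n 8456011 z z)) z)) (n 0 (n 0 z (n 0 (n 8717099 z (n 8717099 z z)) z)) (n 0 (n 0 z (n 0 z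
 z)) (n 0 (n 0 z (n 0 z z)) (n 0 (n 0 z (n 0 z z)) (n 0 (n 0 z (n 0 z z)) (n 0 (n 0 z (n 0 z z))
 (n 0 (n 0 z (n 0 z z)) (n 0 (n 0 z (n 0 z z)) (n 0 (n 0 z (n 0 z z)) (n 0 (n 0 z (n 0 z z)) (n
 0 (n 0 z (n 0 z z)) (n 0 (n 0 z (n 0 z z)) (n 0 (n 0 (n 8733195 z (n 7544963 z z)) (n 0 (n
 8733195 z (n 7544963 z z)) z)) (n 0 (n 0 z (n 0 z z)) z))))))))))))))))))))) (n 51 (n 0 (n 0 z
 (n 0 z z)) (n 0 (n 0 z (n 0 z z)) (n 0 (n 0 z (n 0 z z)) (n 0 (n 0 z (n 0 z z)) (n 0 (n 0 z (n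
 0 z z)) (n 0 (n 0 z (n 0 z z)) (n 0 (n 0 z (n 0 z z)) (n 0 (n 0 z (n 0 z z)) z)))))))) (n 27 (n
 0 (n 0 z (n 0 z z)) (n 0 (n 0 z (n 0 z z)) (n 0 (n 0 z (n 0 z z)) (n 0 (n 0 z (n 0 z z)) (n 0
 (n 0 z (n 0 z z)) (n 0 (n 0 z (n 0 z z)) (n 0 (n 0 z (n 0 z z)) (n 0 (n 0 z (n 0 z z)) (n 0 (n
 0 z (n 0 z z)) (n 0 (n 0 z (n 0 z z)) z)))))))))) (n 1 (n 0 (n 0 z (n 0 z z)) (n 0 (n 0 z (n 0
 z z)) (n 0 (n 0 (n 8717099 z (n 8734491 z z)) (n 0 z z)) (n 0 (n 0 (n 8733195 z (n 7544963 z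
 z)) (n 0 (n 8733195 z z) z)) (n 0 (n 0 z (n 0 z z)) (n 0 (n 0 z (n 0 z z)) (n 0 (n 0 z (n 0 z
 z)) (n 0 (n 0 z (n 0 z z)) (n 0 (n 0 z (n 0 z z)) (n 0 (n 0 z (n 0 z z)) (n 0 (n 0 z (n 0 z z))
 (n 0 (n 0 z (n 0 z z)) (n 0 (n 0 z (n 0 z z)) (n 0 (n 0 z (n 0 z z)) z)))))))))))))) (n 593 (n
 0 (n 0 z (n 0 z z)) (n 0 (n 0 z (n 0 z z)) (n 0 (n 0 z (n 0 z z)) (n 0 (n 0 z (n 0 z z)) (n 0
 (n 0 z (n 0 z z)) (n 0 (n 0 z (n 0 z z)) (n 0 (n 0 z (n 0 (n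
 0x5c1882a0c413062088317e182185b89aa1d8208207a18228236a08207e185b81e8226ea7a07608e176381e8df8236250101
 z (n
 0x5c1882a0c413062088317e182185b89aa1d8208207a18228236a08207e185b81e8226ea7a07608e176381e8df8236250101
 z z)) z)) z))))))) (n 33 (n 0 (n 0 z (n 0 z z)) (n 0 (n 0 z (n 0 z z)) (n 0 (n 0 z (n 0 z z))
 (n 0 (n 0 z (n 0 z z)) (n 0 (n 0 z (n 0 z z)) z))))) (n 51 (n 0 (n 0 z (n 0 z z)) (n 0 (n 0 (n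
 0x9c0804a04023020088107a481d9537d8b9e7618207a18a482469f7dd7a289c75d7e35ae5e372395f6e39168177a86a90101
 z (n 8734491 z z)) (n 0 z z)) (n 0 (n 0 z (n 0 z z)) (n 0 (n 0 z (n 0 z z)) (n 0 (n 0 z (n 0 z
 z)) (n 0 (n 0 z (n 0 z z)) (n 0 (n 0 z (n 0 z z)) (n 0 (n 0 z (n 0 z z)) z)))))))) (n 27 (n 0
 (n 0 z (n 0 z z)) (n 0 (n 0 z (n 0 z z)) (n 0 (n 0 z (n 0 z z)) (n 0 (n 0 z (n 0 z z)) (n 0 (n
 0 z (n 0 z z)) (n 0 (n 0 z (n 0 z z)) (n 0 (n 0 z (n 0 z z)) z))))))) (n 1 (n 0 (n 0 z (n 0 z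
 z)) (n 0 (n 0 z (n 0 z z)) (n 0 (n 0 z (n 0 z z)) (n 0 (n 0 z (n 0 z z)) (n 0 (n 0 z (n 0 z z))
 (n 0 (n 0 z (n 0 z z)) (n 0 (n 0 z (n 0 z z)) (n 0 (n 0 z (n 0 z z)) (n 0 (n 0 z (n 0 z z))
 z))))))))) (n 0 (n 0 (n 0 z (n 0 z z)) (n 0 (n 0 z (n 0 z z)) (n 0 (n 0 z (n 0 z z)) (n 0 (n 0
 z (n 0 z z)) (n 0 (n 0 z (n 0 z z)) (n 0 (n 0 z (n 0 z z)) (n 0 (n 0 z (n 0 z z)) (n 0 (n 0 z
 (n 0 z z)) (n 0 (n 0 (n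
 0x5c2102a10813084088427e085f8618207e08208217df8217e17e082182082181e8617a28207a086085f82086181f8210101
 z (n
 0x1c3900a1c8030e40887282082082082082082182082082082082082082082081f8608208207e08608208218208208200101
 z z)) (n 0 z z)) z))))))))) z))))))))))))))))))))) z)))) z) z)))) (n
 0xda29466a2a0989581a8a406252111270909299a08c260451384309880 (n 0x21312 (n 453 (n 6635571 z (n
 6635571 z (n 0 z (n 0 z (n 0 z (n 2 z (n 6623299 z (n 0 z (n 0 z (n 0 z z)))))))))) (n 33 (n 0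
 z (n 10 z (n 18 z (n 26 z (n 0 z (n 6623299 z z)))))) (n 9 (n 0 z (n 0 z (n 0 z (n 34 z (n
 3212843 z z))))) (n 3 (n 6567179 z (n 0 z (n 6567179 z (n 42 z (n 0 z (n 0 z z)))))) (n 1 (n 0
 z (n 2164299 z (n
 0xcca4ca42078d897d84826c907c7f808880805e7d8a8c7d7d799370856f8b8585638271667d6ba6906dc3688d9f96769b658a71959d5e800809
 z (n
 0xc620016c4002988004b100086207e807f8280817f807f80807f8384817e7f80808180808082807f7d858381837f807d807e7e807e807f7f7f808380807f80800149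
 z (n 50 z (n 6635571 z (n
 0xc610016c2002984004b080086107e807f8280817f807f80807f8384817e7f80808180808082807f7d858381837f807d807e7e807e807f7f7f808380807f80800149
 z (n 58 z (n 6567179 z (n
 0x10ca2ca04078b7a868c7c7c7f817b7e7c8176886f8197807b7c867989778483916e767a888f708c857f9b78768a7a878d778277888c7b810809
 z (n
 0x8c42c60a037c7985867c837d817d81817b82917d7c7f85808679857f827a7e848580808d85777a7b827885717d7a857c8b83877a7b8b7f0809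
 z z))))))))))) (n 0 (n 66 z (n 0 z (n 0 z (n 6635571 z (n 6635571 z (n 0 z (n
 0xc610016c2002984004b080086107e807f8280817f807f80807f8384817e7f80808180808082807f7d858381837f807d807e7e807e807f7f7f808380807f80800149
 z (n 0 z (n 0 z (n
 0x5948c4100e00ca882040780818080808081818081808181807e808080808080808080808080807f80807f8080808080807f7f8081808080808080817f1009
 z (n 74 z (n
 0x6c84c842078575868976857a827e807a807c8d767f908179857a83847e807f8f76727e8f8e77877e86887d6f81718a80847a7f80867e800809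
 z (n 82 z z))))))))))))) z)))))) (n 9 (n 0 (n 131 (n 0 z (n 0 z (n 0 z (n 0 z (n 0 z (n 0 z
 z)))))) (n 131 (n 0 z (n 0 z (n 0 z (n 0 z (n 0 z (n 0 z z)))))) (n 131 (n 0 z (n 0 z (n 0 z (n
 2 (n 1 z (n 1 z (n 1 z (n 1 z (n 1 z (n 1 z (n 1 z z))))))) (n 0 z (n 0 z z)))))) (n 123 (n 0 z
 (n 0 z (n 0 z (n 0 z (n 0 z (n 0 z (n 0 z (n 0 z (n 0 z (n 0 z z)))))))))) (n 153 (n 0 z (n 0 z
 (n 0 z (n 0 z (n 0 z (n 0 z (n 0 z (n 0 z (n 0 z z))))))))) (n 105 (n 0 z (n 0 z (n 0 z (n 0 z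
 (n 0 z (n 0 z (n 0 z (n 0 z z)))))))) (n 105 (n 0 z (n 0 z (n 0 z (n 0 z (n 0 z (n 0 z (n 0 z
 (n 0 z z)))))))) (n 121 (n 0 z (n 0 z (n 0 z (n 0 z (n 0 z (n 0 z (n 0 z (n 0 z (n 0 z (n 0 z
 (n 0 z (n 0 z (n 0 z z))))))))))))) (n 121 (n 0 z (n 0 z (n 0 z (n 0 z (n 0 z (n 0 z (n 0 z (n
 0 z (n 0 z (n 0 z (n 0 z (n 0 z (n 0 z z))))))))))))) (n 121 (n 0 z (n 0 z (n 0 z (n 0 z (n 2 z
 (n 0 z (n 0 z (n 0 z (n 0 z (n 0 z (n 0 z (n 0 z (n 0 z z))))))))))))) z)))))))))) (n 0 (n 0 z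
 (n 0 z (n 369 (n 0 z (n 0 z (n 0 z (n 0 z (n 0 z (n 0 z (n 0 z z))))))) (n 421 (n 0 z (n 0 z (n
 0 z (n 0 z z)))) (n 805 (n 0 z (n 0 z (n 0 z (n 0 z (n 0 z (n 0 z (n 0 z (n 0 z (n 0 z (n 0 z
 (n 0 z z))))))))))) (n 805 (n 0 z (n 0 z (n 0 z (n 0 z (n 0 z (n 0 z (n 0 z (n 0 z (n 0 z (n 0
 z (n 0 z z))))))))))) (n 361 (n 0 z (n 0 z (n 0 z (n 0 z (n 0 z (n 0 z (n 0 z z))))))) (n 361
 (n 0 z (n 0 z (n 0 z (n 0 z (n 0 z (n 0 z (n 0 z z))))))) (n 361 (n 0 z (n 0 z (n 0 z (n 0 z (n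
 0 z (n 0 z (n 0 z z))))))) z))))))))) (n 0 (n 0 z (n 363 (n 0 z (n 0 z (n 0 z (n 0 z (n 0 z (n
 0 z (n 0 z z))))))) (n 393 (n 0 z (n 0 z (n 0 z (n 0 z (n 0 z z))))) (n 777 (n 0 z (n 0 z (n 0
 z (n 0 z (n 0 z (n 0 z (n 0 z z))))))) (n 777 (n 0 z (n 2 (n 1 z (n 1 z (n 1 z z))) (n 0 z (n 0
 z (n 0 z (n 0 z (n 0 z z))))))) (n 361 (n 0 z (n 0 z (n 0 z (n 0 z (n 0 z (n 0 z (n 0 z (n 0 z
 (n 0 z (n 0 z z)))))))))) (n 361 (n 0 z (n 0 z (n 0 z (n 2 (n 0 z z) (n 0 z (n 0 z (n 0 z (n 0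
 z (n 0 z (n 0 z z)))))))))) (n 361 (n 0 z (n 0 z (n 0 z (n 0 z (n 0 z (n 0 z (n 2 z (n 0 z (n 0
 z (n 0 z z)))))))))) z)))))))) (n 0 (n 103 (n 0 z (n 0 z (n 2 (n 1 z (n 1 z (n 1 z (n 1 z (n 1
 z (n 1 z z)))))) (n 0 z (n 0 z (n 0 z z)))))) (n 55 (n 0 z (n 0 z (n 0 z (n 0 z (n 0 z (n 0 z
 (n 0 z (n 2 (n 1 z (n 1 z (n 1 z (n 1 z (n 1 z z))))) (n 0 z z))))))))) (n 51 (n 0 z (n 2 (n 0
 z (n 1 z (n 1 z (n 1 z z)))) (n 0 z (n 0 z (n 0 z (n 0 z (n 0 z (n 0 z (n 0 z z))))))))) (n 51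
 (n 0 z (n 0 z (n 0 z (n 0 z (n 0 z (n 0 z (n 0 z (n 0 z (n 0 z z))))))))) (n 49 (n 2 (n 0 z (n
 0 z z)) (n 0 z (n 0 z (n 0 z (n 0 z (n 0 z (n 0 z z))))))) (n 49 (n 0 z (n 0 z (n 0 z (n 0 z (n
 0 z (n 0 z (n 0 z z))))))) (n 49 (n 0 z (n 0 z (n 0 z (n 0 z (n 0 z (n 0 z (n 0 z z)))))))
 z))))))) (n 0 (n 7 (n 0 z (n 0 z (n 0 z (n 0 z (n 0 z (n 0 z (n 0 z (n 0 z (n 0 z z))))))))) (n
 579 (n 0 z (n 0 z (n 0 z (n 0 z (n 0 z (n 0 z (n 0 z (n 0 z (n 0 z (n 0 z (n 0 z (n 0 z (n 0 z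
 (n 0 z (n 0 z (n 0 z z)))))))))))))))) (n 579 (n 0 z (n 0 z (n 0 z (n 0 z (n 0 z (n 2 (n 1 z (n
 1 z (n 1 z z))) (n 0 z (n 0 z (n 0 z (n 0 z (n 0 z (n 0 z (n 0 z (n 0 z (n 0 z (n 0 z
 z)))))))))))))))) (n 601 (n 0 z (n 0 z (n 0 z (n 0 z (n 0 z (n 0 z (n 0 z (n 0 z (n 0 z (n 0 z
 (n 0 z z))))))))))) (n 601 (n 0 z (n 0 z (n 0 z (n 0 z (n 0 z (n 2 (n 0 z z) (n 0 z (n 0 z (n 0
 z (n 0 z (n 0 z z))))))))))) (n 601 (n 0 z (n 0 z (n 0 z (n 0 z (n 2 z (n 0 z (n 0 z (n 0 z (n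
 0 z (n 0 z (n 0 z z))))))))))) z)))))) (n 0 (n 3 (n 0 z (n 0 z (n 0 z (n 0 z (n 0 z z))))) (n 3
 (n 0 z (n 0 z (n 0 z (n 0 z (n 0 z z))))) (n 1 (n 0 z (n 0 z (n 0 z (n 0 z (n 0 z (n 0 z (n 0 z
 (n 0 z (n 0 z (n 0 z z)))))))))) (n 1 (n 0 z (n 0 z (n 0 z (n 0 z (n 0 z (n 0 z (n 0 z (n 0 z
 (n 0 z (n 0 z z)))))))))) (n 1 (n 0 z (n 0 z (n 0 z (n 0 z (n 0 z (n 0 z (n 0 z (n 0 z (n 0 z
 (n 2 z z)))))))))) z))))) (n 0 (n 0 z (n 5 (n 0 z (n 0 z (n 0 z (n 0 z (n 0 z (n 0 z (n 0 z (n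
 0 z (n 0 z (n 0 z (n 0 z z))))))))))) (n 5 (n 0 z (n 0 z (n 0 z (n 0 z (n 0 z (n 0 z (n 0 z (n
 0 z (n 0 z (n 0 z (n 0 z z))))))))))) (n 5 (n 0 z (n 0 z (n 0 z (n 0 z (n 0 z (n 0 z (n 0 z (n
 0 z (n 0 z (n 2 z (n 0 z z))))))))))) z)))) (n 0 (n 53 (n 0 z (n 0 z (n 0 z (n 0 z (n 0 z (n 0
 z (n 0 z (n 0 z (n 0 z z))))))))) (n 53 (n 0 z (n 0 z (n 0 z (n 0 z (n 0 z (n 0 z (n 0 z (n 0 z
 (n 0 z z))))))))) (n 53 (n 0 z (n 0 z (n 0 z (n 0 z (n 0 z (n 0 z (n 0 z (n 0 z (n 0 z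
 z))))))))) z))) (n 0 (n 0 z (n 0 z z)) (n 0 (n 0 z z) (n 0 z z))))))))))) (n 0 (n 0 z (n 0 z (n
 0 z (n 1 (n 3628 z (n 6619675 z (n 3628 z (n 2 z (n 3628 z (n 3628 z z)))))) (n 1 (n 3212843 z
 (n 6619675 z (n 3212843 z (n 3212843 z (n 3212843 z (n 3212843 z z)))))) z))))) (n 0 (n
 0xa368a5b33411 (n 0 (n 0 (n 7749899 z (n 7749899 z (n 7749899 z (n 7749899 z (n 7749899 z (n
 7749899 z z)))))) z) (n 0 (n 65 (n 0 z (n 1 (n 7684147 z (n 7684147 z (n 7684147 z (n 7684147 z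
 (n 7684147 z (n 7684147 z z)))))) (n 0 z (n 1 (n 3628 z (n 7668251 z (n 3628 z (n 3628 z (n
 3628 z (n 3628 z z)))))) (n 1 (n 7671875 z (n 7671875 z (n 7671875 z (n 7671875 z (n 7671875 z
 (n 7671875 z z)))))) (n 1 (n 3628 z (n 3628 z (n 3628 z (n 3628 z (n 3628 z (n 7668251 z
 z)))))) z)))))) (n 196 (n 1 (n 5441387 z (n 7684147 z (n 2 z (n 1484 z (n 7472699 z (n 1484 z
 z)))))) (n 1 (n 7671875 z (n 7684147 z (n 7671875 z (n 7671875 z (n 7671875 z (n 7671875 z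
 z)))))) (n 1 (n 7615755 z (n 7684147 z (n 7615755 z (n 7615755 z (n 7615755 z (n 7615755 z
 z)))))) (n 0 z (n 1 (n 7615755 z (n 7684147 z (n 7615755 z (n 7615755 z (n 7615755 z (n 7615755
 z z)))))) z))))) (n 9 (n 0 z (n 0 z (n 0 z (n 1 (n 7749899 z (n 7749899 z (n 7749899 z (n
 7749899 z (n 7749899 z (n 7749899 z z)))))) (n 1 (n 3213099 z (n 6620955 z (n 3213099 z (n
 3213099 z (n 3213099 z (n 3213099 z z)))))) z))))) (n 437 (n 1 (n 3548 z (n 7749899 z (n 3548 z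
 (n 3548 z (n 3548 z (n 3548 z z)))))) (n 1 (n 7671875 z (n 7671875 z (n 7671875 z (n 7671875 z
 (n 7671875 z (n 7671875 z z)))))) (n 1 (n 7615755 z (n 7749899 z (n 7615755 z (n 7615755 z (n
 7615755 z (n 7615755 z z)))))) (n 0 z (n 1 (n 7615755 z (n 5509235 z (n 7615755 z (n 7615755 z
 (n 7615755 z (n 7615755 z z)))))) z))))) (n 3 (n 1 (n 7615755 z (n 7684147 z (n 7615755 z (n
 7615755 z (n 7615755 z (n 7615755 z z)))))) (n 1 (n 7615755 z (n 7684147 z (n 7615755 z (n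
 7615755 z (n 7615755 z (n 7615755 z z)))))) (n 0 z (n 1 (n 7749899 z (n 7684147 z (n 7749899 z
 (n 5443699 z (n 7749899 z (n 7749899 z z)))))) (n 0 z z))))) (n 691 (n 1 (n 7668251 z (n
 7749899 z (n 5548 z (n 5548 z (n 5548 z (n 5548 z z)))))) (n 1 (n 7671875 z (n 7671875 z (n
 7671875 z (n 7671875 z (n 7671875 z (n 7671875 z z)))))) (n 0 z (n 1 (n 5548 z (n 7749899 z (n
 5548 z (n 5548 z (n 5548 z (n 5548 z z)))))) (n 1 (n 7671875 z (n 7671875 z (n 7671875 z (n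
 7671875 z (n 7671875 z (n 7671875 z z)))))) (n 0 z (n 1 (n 5548 z (n 10 z (n 5548 z (n 7749899
 z (n 5548 z (n 5548 z z)))))) (n 1 (n 5548 z (n 5548 z (n 7749899 z (n 5548 z (n 7668251 z (n
 5548 z z)))))) (n 0 z (n 1 (n 7684147 z (n 7684147 z (n 7684147 z (n 7684147 z (n 7684147 z (n
 7684147 z z)))))) z)))))))))) (n 9 (n 0 z (n 0 z (n 0 z (n 1 (n 7749899 z (n 7749899 z (n
 7749899 z (n 7749899 z (n 7749899 z (n 7749899 z z)))))) (n 1 (n 3213099 z (n 7668251 z (n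
 3213099 z (n 3213099 z (n 3213099 z (n 3213099 z z)))))) z))))) z))))))) (n 0 (n 0 (n 0 z (n 0
 z z)) (n 0 (n 0 z z) z)) (n 0 (n 185 (n 0 (n 0 z (n 0 z z)) (n 0 (n 0 z (n 0 z z)) (n 0 (n 0 z
 (n 0 z z)) (n 0 (n 0 z (n 0 z z)) (n 0 (n 0 z (n 0 z z)) (n 0 (n 0 z (n 0 z z)) z)))))) (n 303
 (n 0 (n 0 z (n 0 z z)) (n 0 (n 0 z (n 0 z z)) (n 0 (n 0 z (n 0 z z)) (n 0 (n 0 z (n 0 z z)) (n
 0 (n 0 z (n 0 z z)) (n 0 (n 0 z (n 0 z z)) (n 0 (n 0 z (n 0 z z)) (n 0 (n 0 z (n 0 z z)) (n 0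
 (n 0 (n
 0xc8630170c602a18c04c318088637e807f8280817f807f80807f8384817e7f80808180808082807f7d858381837f807d807e7e807e807f7f7f808380807f80800149
 z z) (n 0 z z)) (n 0 (n 0 z (n 0 z z)) z)))))))))) (n 301 (n 0 (n 0 z (n 0 z z)) (n 0 (n 0 z (n
 0 z z)) (n 0 (n 0 z (n 0 z z)) (n 0 (n 0 z (n 0 z z)) (n 0 (n 0 z (n 0 z z)) (n 0 (n 0 z (n 0 z
 z)) (n 0 (n 0 z (n 0 z z)) z))))))) (n 443 (n 0 (n 0 z (n 0 z z)) (n 0 (n 0 z (n 0 z z)) (n 0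
 (n 0 z (n 0 z z)) (n 0 (n 0 z (n 0 z z)) (n 0 (n 0 z (n 0 z z)) (n 0 (n 0 z (n 0 z z)) (n 0 (n
 0 z (n 0 z z)) (n 0 (n 0 z (n 0 z z)) (n 0 (n 0 z (n 0 z z)) z))))))))) (n 437 (n 0 (n 0 z (n 0
 z z)) (n 0 (n 0 z (n 0 z z)) (n 0 (n 0 z (n 0 z z)) (n 0 (n 0 z (n 0 z z)) (n 0 (n 0 z (n 0 z
 z)) z))))) (n 9 (n 0 (n 0 z (n 0 z z)) (n 0 (n 0 z (n 0 z z)) (n 0 (n 0 z (n 0 z z)) (n 0 (n 0
 z (n 0 z z)) (n 0 (n 0 z (n 0 z z)) (n 0 (n 0 z (n 0 z z)) (n 0 (n 0 z (n 0 z z)) (n 0 (n 0 (n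
 0xc81001702002a04004c080088107e807f8280817f807f80807f8384817e7f80808180808082807f7d858381837f807d807e7e807e807f7f7f808380807f80800149
 z z) (n 0 z z)) (n 0 (n 0 z (n 0 z z)) z))))))))) (n 563 (n 0 (n 0 z (n 0 z z)) (n 0 (n 0 z (n
 0 z z)) (n 0 (n 0 z (n 0 z z)) (n 0 (n 0 z (n 0 z z)) (n 0 (n 0 z (n 0 z z)) (n 0 (n 0 z (n 0 z
 z)) (n 0 (n 0 z (n 0 z z)) (n 0 (n 0 (n
 0xc8630170c602a18c04c318088637e807f8280817f807f80807f8384817e7f80808180808082807f7d858381837f807d807e7e807e807f7f7f808380807f80800149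
 z z) (n 0 z z)) z)))))))) (n 437 (n 0 (n 0 z (n 0 z z)) (n 0 (n 0 z (n 0 z z)) (n 0 (n 0 z (n 0
 z z)) (n 0 (n 0 z (n 0 z z)) (n 0 (n 0 z (n 0 z z)) (n 0 (n 0 z (n 0 z z)) (n 0 (n 0 z (n 0 z
 z)) z))))))) (n 553 (n 0 (n 0 z (n 0 z z)) (n 0 (n 0 z (n 0 z z)) (n 0 (n 0 z (n 0 z z)) (n 0
 (n 0 z (n 0 z z)) (n 0 (n 0 z (n 0 z z)) (n 0 (n 0 z (n 0 z z)) (n 0 (n 0 z (n 0 z z)) (n 0 (n
 0 z (n 0 z z)) (n 0 (n 0 z (n 0 z z)) (n 0 (n 0 z (n 0 z z)) (n 0 (n 0 z (n 0 z z)) (n 0 (n 0 z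
 (n 0 z z)) (n 0 (n 0 z (n 0 z z)) (n 0 (n 0 z (n 0 z z)) (n 0 (n 0 z (n 0 z z)) (n 0 (n 0 z (n
 0 z z)) z)))))))))))))))) (n 3 (n 0 (n 0 z (n 0 z z)) (n 0 (n 0 z (n 0 z z)) (n 0 (n 0 z (n 0 z
 z)) (n 0 (n 0 z (n 0 z z)) (n 0 (n 0 z (n 0 z z)) z))))) (n 693 (n 0 (n 0 z (n 0 z z)) (n 0 (n
 0 z (n 0 z z)) (n 0 (n 0 z (n 0 z z)) (n 0 (n 0 z (n 0 z z)) (n 0 (n 0 z (n 0 z z)) (n 0 (n 0 z
 (n 0 z z)) (n 0 (n 0 (n 8595227 z (n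
 0xc8630170c602a18c04c318088637e807f8280817f807f80807f8384817e7f80808180808082807f7d858381837f807d807e7e807e807f7f7f808380807f80800149
 z z)) (n 0 (n
 0x45874828b7d7d7d7992847d7f8580946d8f7c66888d8b76947f7d7881798d86786c6e78806d8c798b9571927a6da28494747a91820049
 z (n 8656683 z z)) z)) (n 0 (n 0 z (n 0 z z)) (n 0 (n 0 z (n 0 z z)) (n 0 (n 0 z (n 0 z z)) (n
 0 (n 0 z (n 0 z z)) (n 0 (n 0 z (n 0 z z)) (n 0 (n 0 z (n 0 z z)) z))))))))))))) (n 691 (n 0 (n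
 0 z (n 0 z z)) (n 0 (n 0 z (n 0 z z)) (n 0 (n 0 z (n 0 z z)) (n 0 (n 0 z (n 0 z z)) (n 0 (n 0 z
 (n 0 z z)) (n 0 (n 0 z (n 0 z z)) (n 0 (n 0 z (n 0 z z)) (n 0 (n 0 z (n 0 z z)) (n 0 (n 0 z (n
 0 z z)) (n 0 (n 0 z (n 0 z z)) z)))))))))) (n 690 (n 0 (n 0 z (n 0 z z)) (n 0 (n 0 z (n 0 z z))
 (n 0 (n 0 z (n 0 z z)) (n 0 (n 0 z (n 0 z z)) (n 0 (n 0 z (n 0 z z)) (n 0 (n 0 z (n 0 z z)) (n
 0 (n 0 z (n 0 z z)) (n 0 (n 0 z (n 0 z z)) (n 0 (n 0 z (n 0 z z)) (n 0 (n 0 z (n 0 z z)) (n 0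
 (n 0 z (n 0 z z)) z))))))))))) (n 5 (n 0 (n 0 z (n 0 z z)) (n 0 (n 0 z (n 0 z z)) (n 0 (n 0 z
 (n 0 z z)) (n 0 (n 0 z (n 0 z z)) (n 0 (n 0 z (n 0 z z)) (n 0 (n 0 z (n 0 z z)) (n 0 (n 0 z (n
 0 z z)) (n 0 (n 0 z (n 0 z z)) (n 0 (n 0 z (n 0 z z)) (n 0 (n 0 z (n 0 z z)) z)))))))))) (n 4
 (n 0 (n 0 z (n 0 z z)) (n 0 (n 0 z (n 0 z z)) (n 0 (n 0 z (n 0 z z)) (n 0 (n 0 z (n 0 z z)) (n
 0 (n 0 z (n 0 z z)) (n 0 (n 0 z (n 0 z z)) (n 0 (n 0 z (n 0 z z)) (n 0 (n 0 z (n 0 z z)) (n 0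
 (n 0 z (n 0 z z)) (n 0 (n 0 z (n 0 z z)) (n 0 (n 0 z (n 0 z z)) z))))))))))) (n 453 (n 0 (n 0 z
 (n 0 z z)) (n 0 (n 0 z (n 0 z z)) (n 0 (n 0 z (n 0 z z)) (n 0 (n 0 z (n 0 z z)) (n 0 (n 0 z (n
 0 z z)) (n 0 (n 0 z (n 0 z z)) (n 0 (n 0 z (n 0 z z)) (n 0 (n 0 z (n 0 z z)) (n 0 (n 0 z (n 0 z
 z)) (n 0 (n 0 z (n 0 z z)) z)))))))))) (n 33 (n 0 (n 0 z (n 0 z z)) (n 0 (n 0 z (n 0 z z)) (n 0
 (n 0 z (n 0 z z)) (n 0 (n 0 z (n 0 z z)) (n 0 (n 0 z (n 0 z z)) (n 0 (n 0 z (n 0 z z)) z))))))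
 (n 9 (n 0 (n 0 z (n 0 z z)) (n 0 (n 0 z (n 0 z z)) (n 0 (n 0 z (n 0 z z)) (n 0 (n 0 z (n 0 z
 z)) (n 0 (n 0 z (n 0 z z)) z))))) (n 3 (n 0 (n 0 z (n 0 z z)) (n 0 (n 0 z (n 0 z z)) (n 0 (n 0
 z (n 0 z z)) (n 0 (n 0 z (n 0 z z)) (n 0 (n 0 z (n 0 z z)) (n 0 (n 0 z (n 0 z z)) z)))))) (n 1
 (n 0 (n 0 z (n 0 z z)) (n 0 (n 0 z (n 0 z z)) (n 0 (n 0 z (n 0 z z)) (n 0 (n 0 z (n 0 z z)) (n
 0 (n 0 z (n 0 z z)) (n 0 (n 0 z (n 0 z z)) (n 0 (n 0 z (n 0 z z)) (n 0 (n 0 z (n 0 z z)) (n 0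
 (n 0 z (n 0 z z)) (n 0 (n 0 z (n 0 z z)) (n 0 (n 0 z (n 0 z z)) z))))))))))) (n 0 (n 0 (n 0 z
 (n 0 z z)) (n 0 (n 0 z (n 0 z z)) (n 0 (n 0 z (n 0 z z)) (n 0 (n 0 z (n 0 z z)) (n 0 (n 0 z (n
 0 z z)) (n 0 (n 0 z (n 0 z z)) (n 0 (n 0 (n 8595227 z (n
 0x15870807f7f818080808080808080817f807f81807f8180817f81808180807e8080807f807f80818080807f8080817f80808180800049
 z z)) (n 0 (n
 0xc81001702002a04004c080088107e807f8280817f807f80807f8384817e7f80808180808082807f7d858381837f807d807e7e807e807f7f7f808380807f80800149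
 z (n
 0xc81001702002a04004c080088107e807f8280817f807f80807f8384817e7f80808180808082807f7d858381837f807d807e7e807e807f7f7f808380807f80800149
 z z)) z)) (n 0 (n 0 z (n 0 z z)) (n 0 (n 0 z (n 0 z z)) (n 0 (n 0 z (n 0 z z)) (n 0 (n 0 z (n 0
 z z)) (n 0 (n 0 z (n 0 z z)) (n 0 (n 0 z (n 0 z z)) z))))))))))))) z))))))))))))))))))))) z))))
 z) z)))) (n 0 (n 0 (n 515 (n 6635539 z (n 0 z (n 0 z (n 0 z z)))) (n 255 (n 6496515 z (n 0 z (n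
 0 z z))) (n 9 (n 0 z (n 6496515 z (n 0 z (n 0 z z)))) (n 511 (n 0 z (n 6496515 z (n 0 z (n 0 z
 (n 0 z z))))) (n 7 (n 0 z (n 6635539 z (n 0 z (n 0 z z)))) (n 0 (n 0 z (n 0 z (n 6635539 z (n 0
 z (n 0 z (n 0 z (n 0 z z))))))) z)))))) (n 255 z (n 0 (n 1 (n 6496515 z (n 6496515 z (n 6496515
 z (n 6496515 z (n 6496515 z (n 6496515 z z)))))) (n 0 z (n 0 z z))) (n 0 z z)))) (n
 0xac695d784ab584339d411 (n 0 (n 191 (n 6426675 z (n 0 z (n 0 z (n 0 z (n 0 z (n 0 z z)))))) (n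
 33 (n 0 z (n 6426675 z (n
 0x6465479ca614a97a68606e17dc72191b7a295d7d589e9db8e372266b8a25238636277e276162189d0041 z (n 0 z
 (n 0 z (n 2 z (n 10 z (n 0 z z)))))))) (n 129 (n 18 z (n 6426675 z (n 0 z (n 0 z (n 0 z z)))))
 (n 3 (n 0 z (n 0 z (n 6636307 z (n 0 z (n 0 z (n 0 z (n 0 z (n 26 z (n 0 z (n 0 z (n 0 z (n 0 z
 z)))))))))))) (n 1 (n 0 z (n 0 z (n 6636307 z (n 0 z (n 0 z (n 0 z (n 0 z (n 0 z (n 0 z (n 0 z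
 z)))))))))) (n 0 (n 0 z (n 0 z (n 0 z (n 6636307 z (n 0 z (n 0 z (n 0 z z))))))) z)))))) (n 129
 (n 0 (n 0 z (n 151 (n 0 z (n 0 z (n 0 z (n 0 z z)))) (n 55 (n 0 z (n 0 z (n 0 z z))) z))) (n 0
 (n 123 (n 0 z (n 0 z (n 0 z (n 0 z z)))) (n 487 (n 0 z (n 0 z (n 0 z (n 0 z (n 0 z z))))) z))
 (n 0 (n 273 (n 0 z (n 0 z (n 0 z (n 0 z (n 0 z (n 0 z (n 0 z (n 0 z z)))))))) z) (n 0 z z))))
 (n 0 (n 1 (n 1532 z (n 1532 z (n 1532 z (n 6488603 z (n 1532 z (n 1532 z z)))))) (n 1 (n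
 6426675 z (n 6426675 z (n 6426675 z (n 6426675 z (n 6426675 z (n 6426675 z z)))))) (n 0 z (n 0
 z (n 0 z z))))) (n 0 z z)))) z)))))))))), by decide +kernel⟩

theorem g7_54 : RgOk KT RW [10386, 10394, 10398, 10406, 10416, 10426, 10436] := ⟨i10386, ⟨i10394, ⟨i10398, ⟨i10406, ⟨i10416, ⟨i10426, True.intro⟩⟩⟩⟩⟩⟩

end Pool.Agent.Lib.EPS9
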