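import Pool.Agent.Lib.MP_c7e7f6_eps.Core4
import Pool.Agent.Lib.MP_c7e7f6_eps.KtAll

/-!
Extensions of the words from number 10436 on.
-/

set_option autoImplicit false

namespace Pool.Agent.Lib.EPS9

open Tr

theorem i10436 : ∃ t, chkR KT RW t 10436 10446 = true := ⟨(n 0x2b0cad0863 (n 0 (n 321 (n 3282443
 z (n 0 z (n 0 z (n 0 z (n 0 z z))))) (n 255 (n 6496515 z (n 0 z (n 0 z (n 0 z z)))) (n 9 (n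
 6636051 z (n 0 z (n 0 z (n 6496515 z z)))) (n 27 (n 2 z (n 6496515 z (n 0 z z))) (n 1 (n 0 z (n
 0 z (n 0 z (n 6636051 z (n 0 z (n 0 z z)))))) (n 0 (n 10 z (n 6636051 z (n 0 z (n 0 z z))))
 z)))))) (n 27 (n 0 (n 53 (n 0 z (n 0 z (n 0 z (n 0 z (n 0 z (n 0 z (n 0 z (n 0 z (n 0 z (n 0 z
 (n 0 z (n 0 z (n 0 z (n 0 z (n 0 z (n 0 z (n 0 z (n 0 z (n 0 z (n 0 z z)))))))))))))))))))) z)
 (n 0 z z)) (n 0 (n 1 (n 2572 z (n 2572 z (n 2572 z (n 2572 z (n 2572 z (n 2572 z z)))))) (n 1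
 (n 6496515 z (n 6496515 z (n 6496515 z (n 6496515 z (n 6496515 z (n 6496515 z z)))))) (n 0 z
 z))) (n 0 z z)))) (n 0xb8d943cada43aaca60292842a9140c44b0aaa6108c45846984804ba80 (n 0 (n 177 (n
 2 z (n 10 z (n 3282443 z z))) (n 33 (n 0 z (n 0 z (n 0 z (n 0 z (n 0 z (n 0 z (n 18 z (n 26 z
 (n 6558475 z z))))))))) (n 171 (n 34 z (n 42 z (n 50 z (n 58 z (n 6636083 z z))))) (n 3 (n 0 z
 (n 0 z (n 2164283 z z))) (n 1 (n 66 z (n 0 z (n 0 z (n 6636083 z (n 0 z (n 0 z z)))))) (n 0 (n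
 0x14ca68604077c57eb8048277f983e7de84d8588018428117f97e582f7e37e77ec82e80484380180675d8278187f280f80b8187fa83f81e82b7c180584f80180f7f67d27f278c8207db8017b67fd8008050811
 z (n
 0x5eca68604077ae7ee8167f283584080081c85f7df8638097ee7db85d7df7e47c385d80083d80f7e57c58077e082281c80983c81e7fe7ee80c7ce8328078347d88088047f17988307c87e67aa8027ff7ec0811
 z (n 6636083 z (n 0 z (n 6636083 z (n 74 z (n 82 z (n 0 z (n 0 z (n 0 z (n 6636083 z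
 z))))))))))) z)))))) (n 177 (n 0 (n 0 z (n 191 (n 0 z (n 0 z (n 2 (n 0 z (n 1 z (n 1 z (n 2 (n
 0 z (n 0 z (n 0 z (n 0 (n 732 z z) (n 0 z (n 0 (n 732 z (n 732 z z)) z)))))) (n 1 z (n 1 z (n 2
 (n 0 z (n 0 z (n 0 z (n 0 (n 7608411 z (n 1348 z z)) (n 0 z (n 0 (n 8857147 z z) z)))))) (n 1 z
 z)))))))) z))) (n 191 (n 2 (n 1 z (n 1 z (n 1 z (n 1 z (n 1 z (n 1 z (n 1 z z))))))) (n 0 z (n
 0 z z))) (n 183 (n 0 z (n 0 z (n 0 z (n 0 z (n 0 z (n 0 z (n 0 z (n 0 z z)))))))) (n 183 (n 0 z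
 (n 0 z (n 0 z (n 0 z (n 0 z (n 0 z (n 0 z (n 0 z z)))))))) (n 183 (n 2 (n 0 z (n 1 z (n 1 z (n
 1 z z)))) (n 0 z (n 0 z (n 0 z (n 0 z (n 0 z (n 0 z (n 0 z z)))))))) (n 183 (n 0 z (n 0 z (n 0
 z (n 2 (n 1 z (n 1 z (n 1 z z))) (n 0 z (n 0 z (n 0 z (n 0 z z)))))))) (n 339 (n 0 z (n 0 z (n
 0 z (n 0 z (n 0 z (n 0 z (n 0 z (n 0 z (n 0 z (n 0 z (n 0 z z))))))))))) (n 337 (n 0 z (n 0 z
 (n 0 z (n 0 z (n 0 z (n 0 z (n 0 z (n 0 z (n 0 z (n 0 z z)))))))))) (n 337 (n 0 z (n 0 z (n 0 z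
 (n 0 z (n 0 z (n 0 z (n 0 z (n 0 z (n 0 z (n 0 z z)))))))))) z)))))))))) (n 0 (n 163 (n 0 z (n
 7610723 z (n 0 z (n 0 z z)))) (n 163 (n 0 z (n 0 z (n 0 z (n 0 z z)))) (n 31 (n 0 z (n 2 (n 0 z
 (n 0 z (n 0 z (n 1 z (n 1 z (n 1 z z)))))) (n 0 z (n 0 z z)))) (n 31 (n 0 z (n 0 z (n 0 z (n 0
 z z)))) (n 31 (n 0 z (n 0 z (n 0 z (n 0 z z)))) (n 31 (n 0 z (n 0 z (n 0 z (n 0 z z)))) (n 3 (n
 2 (n 1 z (n 1 z z)) (n 0 z (n 0 z (n 0 z (n 0 z z))))) (n 5 (n 0 z (n 0 z (n 0 z (n 0 z (n 0 z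
 (n 0 z (n 0 z (n 0 z (n 0 z (n 0 z (n 0 z (n 0 z (n 0 z (n 0 z (n 2 (n 0 z z) (n 0 z (n 0 z
 z))))))))))))))))) (n 5 (n 0 z (n 0 z (n 0 z (n 0 z (n 0 z (n 0 z (n 0 z (n 0 z (n 0 z (n 0 z
 (n 0 z (n 0 z (n 0 z (n 0 z (n 0 z (n 0 z (n 2 z z))))))))))))))))) z))))))))) (n 0 (n 0 z (n
 343 (n 2 (n 0 z (n 0 z (n 0 z (n 1 z (n 2 (n 0 z (n 0 z (n 0 z (n 0 (n 6559835 z (n 6559835 z
 z)) (n 0 z (n 0 (n 1364 z z) z)))))) (n 1 z z)))))) (n 0 z (n 0 z (n 0 z (n 0 z (n 0 z (n 0 z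
 (n 0 z (n 0 z (n 0 z (n 0 z z))))))))))) (n 343 (n 0 z (n 0 z (n 0 z (n 0 z (n 0 z (n 0 z (n 0
 z (n 0 z (n 0 z (n 0 z (n 0 z z))))))))))) (n 343 (n 0 z (n 0 z (n 0 z (n 0 z (n 0 z (n 0 z (n
 0 z (n 0 z (n 0 z (n 0 z (n 0 z z))))))))))) (n 343 (n 0 z (n 0 z (n 0 z (n 0 z (n 0 z (n 0 z
 (n 0 z (n 6625083 z (n 0 z (n 0 z (n 0 z z))))))))))) (n 339 (n 2 (n 1 z (n 1 z z)) (n 0 z (n 0
 z (n 0 z (n 0 z (n 0 z (n 0 z (n 0 z (n 0 z (n 0 z (n 0 z (n 0 z (n 0 z (n 0 z (n 0 z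
 z))))))))))))))) (n 341 (n 0 z (n 0 z (n 0 z (n 0 z (n 0 z (n 0 z (n 0 z (n 0 z (n 0 z (n 0 z
 z)))))))))) (n 341 (n 0 z (n 0 z (n 0 z (n 0 z (n 0 z (n 0 z (n 0 z (n 0 z (n 0 z (n 0 z
 z)))))))))) z)))))))) (n 0 (n 391 (n 0 z (n 2 (n 0 z (n 0 z (n 0 z (n 1 z (n 1 z (n 1 z z))))))
 (n 0 z (n 0 z (n 0 z (n 0 z (n 0 z z))))))) (n 391 (n 0 z (n 0 z (n 0 z (n 0 z (n 0 z (n 0 z (n
 0 z z))))))) (n 391 (n 0 z (n 0 z (n 0 z (n 0 z (n 0 z (n 0 z (n 0 z z))))))) (n 391 (n 0 z (n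
 0 z (n 0 z (n 0 z (n 0 z (n 0 z (n 0 z z))))))) (n 483 (n 2 (n 1 z (n 1 z z)) (n 0 z (n 0 z
 z))) (n 533 (n 0 z (n 0 z (n 0 z (n 0 z (n 0 z (n 0 z (n 0 z (n 2 (n 0 z z) (n 0 z (n 0 z
 z)))))))))) (n 533 (n 0 z (n 0 z (n 0 z (n 0 z (n 0 z (n 0 z (n 0 z (n 0 z (n 2 z (n 0 z
 z)))))))))) z))))))) (n 0 (n 0 z (n 0 z (n 0 z (n 339 (n 0 z (n 0 z (n 0 z (n 0 z (n 0 z (n 0 z
 (n 0 z (n 0 z z)))))))) (n 337 (n 0 z (n 0 z (n 0 z (n 0 z (n 0 z (n 0 z (n 0 z (n 0 z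
 z)))))))) (n 337 (n 0 z (n 0 z (n 0 z (n 0 z (n 0 z (n 0 z (n 0 z (n 0 z z)))))))) z)))))) (n 0
 (n 0 z (n 0 z (n 351 (n 0 z (n 0 z z)) (n 349 (n 0 z (n 0 z (n 0 z (n 0 z (n 0 z (n 0 z (n 2 (n
 0 z z) (n 0 z (n 0 z (n 0 z (n 0 z (n 0 z (n 0 z (n 0 z z)))))))))))))) (n 349 (n 0 z (n 0 z (n
 0 z (n 0 z (n 0 z (n 0 z (n 0 z (n 0 z (n 0 z (n 0 z (n 0 z (n 0 z (n 0 z (n 0 z
 z)))))))))))))) z))))) (n 0 (n 0 z (n 783 (n 0 z (n 2 (n 1 z (n 1 z z)) (n 0 z (n 0 z (n 0 z (n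
 0 z (n 0 z (n 0 z (n 0 z (n 0 z (n 0 z (n 0 z (n 0 z (n 0 z z)))))))))))))) (n 781 (n 0 z (n 0
 z (n 0 z (n 0 z (n 2 (n 0 z z) (n 0 z (n 0 z (n 0 z (n 0 z (n 0 z (n 0 z z))))))))))) (n 781 (n
 0 z (n 0 z (n 0 z (n 0 z (n 0 z (n 0 z (n 0 z (n 0 z (n 0 z (n 0 z (n 0 z z))))))))))) z)))) (n
 0 (n 243 (n 0 z (n 0 z (n 0 z (n 0 z (n 0 z (n 0 z (n 0 z (n 0 z (n 0 z z))))))))) (n 241 (n 0
 z (n 0 z (n 0 z (n 0 z (n 0 z (n 0 z (n 0 z (n 2 (n 0 z z) (n 0 z (n 0 z (n 0 z (n 0 z (n 0 z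
 (n 0 z z)))))))))))))) (n 241 (n 0 z (n 0 z (n 0 z (n 0 z (n 0 z (n 0 z (n 0 z (n 0 z (n 0 z (n
 0 z (n 0 z (n 2 z (n 0 z (n 0 z z)))))))))))))) z))) (n 0 (n 1 (n 0 z (n 0 z (n 0 z (n 0 z
 z)))) (n 1 (n 0 z (n 0 z (n 0 z (n 0 z z)))) z)) (n 0 (n 0 z z) (n 0 z z))))))))))) (n 0 (n 1
 (n 268 z (n 268 z (n 6558475 z (n 268 z (n 268 z (n 268 z z)))))) (n 1 (n 4329571 z (n 28 z (n
 5310011 z (n 6558475 z (n 268 z (n 268 z z)))))) (n 1 (n 3282443 z (n 3282443 z (n 6558475 z (n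
 3282443 z (n 3282443 z (n 3282443 z z)))))) z))) (n 0 z z)))) (n
 0x1ac528ba69429b5a11d2582c522074926a14474172c9a04cad04523a00b4cc0 (n 0 (n 443 (n 6623283 z (n 2
 z (n 10 z (n 0 z z)))) (n 437 (n 6623283 z (n 18 z (n 0 z (n 26 z (n 6623283 z (n 0 z (n
 6623283 z z))))))) (n 433 (n 34 z (n 0 z (n 0 z (n 0 z (n 42 z (n 0 z (n 0 z (n 0 z (n 0 z (n 0
 z (n 0 z (n 3212843 z (n 0 z (n 0 z (n 0 z (n 0 z z)))))))))))))))) (n 3 (n 2164283 z (n 0 z (n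
 0 z (n 0 z z)))) (n 1 (n 50 z (n 0 z (n 2164299 z (n 58 z (n 0 z z))))) (n 0 (n 0 z (n 0 z (n
 66 z (n 0 z (n 74 z (n 6623283 z (n 82 z (n 0 z (n 0 z (n 90 z (n 0 z z))))))))))) z)))))) (n
 443 (n 0 (n 0 z (n 909 (n 0 z (n 0 z (n 0 z (n 0 z (n 0 z (n 2 (n 0 z (n 2 (n 0 z (n 0 z (n 0
 (n 7616619 z (n 3540 z z)) (n 0 (n 8869435 z (n 8869435 z z)) (n 0 z (n 0 (n 3540 z (n 7749763
 z z)) z)))))) (n 1 z (n 1 z (n 1 z (n 1 z (n 1 z (n 2 (n 0 (n 3524 z (n 8791835 z z)) (n 0 z (n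
 0 (n 3524 z (n 8718155 z z)) (n 0 z (n 0 (n 3524 z (n 8791835 z z)) (n 0 (n 8869435 z (n
 8869435 z z)) z)))))) (n 1 z z))))))))) (n 0 z (n 0 z (n 0 z z))))))))) (n 909 (n 0 z (n 0 z (n
 0 z (n 0 z (n 0 z (n 0 z (n 0 z (n 0 z (n 0 z z))))))))) (n 885 (n 0 z (n 0 z (n 0 z (n 0 z
 z)))) (n 885 (n 0 z (n 0 z (n 0 z (n 0 z z)))) (n 925 (n 0 z (n 0 z (n 0 z (n 0 z (n 0 z z)))))
 (n 925 (n 0 z (n 0 z (n 0 z (n 0 z (n 0 z z))))) (n 881 (n 0 z (n 0 z (n 0 z (n 0 z (n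
 0x6bb23b2101c055d8d90480e020ec6c6240787d7738468498077b86b788d7f78b076b7e48448e37708f574d80283781d79a78c8ba75e85778e84376e8e47be7dd76b8727788fd7259057b980a7e098d6f390068970a8138587b57be80f1811
 z z))))) (n 881 (n 0 z (n 0 z (n 0 z (n 0 z (n 0 z z))))) (n 881 (n 0 z (n 0 z (n 0 z (n 0 z (n
 0 z z))))) (n 881 (n 0 z (n 0 z (n 0 z (n 0 z (n 0 z z))))) z))))))))))) (n 0 (n 755 (n 0 z (n
 0 z (n 0 z (n 0 z (n 0 z (n 0 z (n 0 z (n 0 z (n 0 z z))))))))) (n 755 (n 0 z (n 0 z (n 0 z (n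
 0 z (n 0 z (n 0 z (n 0 z (n 0 z (n 0 z z))))))))) (n 753 (n 0 z (n 0 z (n 0 z (n 0 z (n 0 z (n
 2 (n 0 z (n 1 z (n 1 z (n 1 z (n 2 (n 0 z (n 0 z (n 0 (n 3460 z (n 3460 z z)) (n 0 z (n 0 (n
 3460 z z) (n 0 z z)))))) (n 2 (n 0 z (n 0 z (n 0 (n 3460 z (n 3460 z z)) (n 0 z (n 0 (n 3460 z
 z) (n 0 z z)))))) (n 1 z z))))))) (n 0 z (n 0 z (n 0 z z))))))))) (n 753 (n 0 z (n 2 (n 1 z (n
 1 z (n 1 z (n 1 z (n 1 z (n 1 z z)))))) (n 0 z (n 0 z (n 0 z (n 0 z (n 0 z (n 0 z (n 0 z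
 z))))))))) (n 757 (n 0 z (n 0 z (n 0 z (n 0 z (n 0 z (n 0 z (n 0 z z))))))) (n 757 (n 0 z (n 0
 z (n 2 (n 1 z (n 1 z (n 1 z (n 1 z z)))) (n 0 z (n 0 z (n 0 z (n 0 z z))))))) (n 865 (n 0 z (n
 0 z (n 0 z (n 0 z (n 0 z (n 0 z (n 0 z (n 0 z (n 0 z (n 0 z (n 0 z (n 0 z (n 0 z z)))))))))))))
 (n 865 (n 0 z (n 0 z (n 0 z (n 0 z (n 0 z (n 0 z (n 0 z (n 0 z (n 0 z (n 0 z (n 0 z (n 0 z (n 2
 (n 0 z (n 0 z z)) z))))))))))))) (n 865 (n 0 z (n 0 z (n 0 z (n 0 z (n 0 z (n 0 z (n 0 z (n 0 z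
 (n 0 z (n 0 z (n 0 z (n 0 z (n 0 z z))))))))))))) (n 865 (n 0 z (n 0 z (n 0 z (n 0 z (n 0 z (n
 0 z (n 0 z (n 0 z (n 0 z (n 0 z (n 0 z (n 0 z (n 0 z z))))))))))))) z)))))))))) (n 0 (n 0 z (n
 873 (n 0 z (n 0 z (n 0 z (n 0 z (n 0 z (n 0 z (n 0 z z))))))) (n 873 (n 2 (n 1 z (n 1 z (n 1 z
 (n 1 z (n 1 z (n 1 z z)))))) (n 0 z (n 0 z (n 0 z (n 0 z (n 0 z (n 0 z z))))))) (n 51 (n 0 z (n
 0 z (n 0 z (n 0 z (n 0 z (n 0 z (n 0 z (n 0 z (n 0 z z))))))))) (n 51 (n 0 z (n 0 z (n 0 z (n 2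
 (n 1 z (n 1 z (n 1 z (n 1 z z)))) (n 0 z (n 0 z (n 0 z (n 0 z (n 0 z z))))))))) (n 49 (n 0 z (n
 0 z (n 0 z (n 0 z (n 0 z (n 0 z z)))))) (n 49 (n 0 z (n 0 z (n 0 z (n 0 z (n 0 z (n 0 z z))))))
 (n 49 (n 0 z (n 0 z (n 0 z (n 0 z (n 0 z (n 0 z z)))))) (n 49 (n 0 z (n 0 z (n 0 z (n 0 z (n 0
 z (n 2 z z)))))) z))))))))) (n 0 (n 1107 (n 0 z (n 0 z (n 0 z (n 0 z (n 0 z (n 0 z (n 0 z (n 0
 z (n 0 z (n 0 z (n 0 z (n 0 z (n 0 z (n 0 z (n 0 z (n 0 z z)))))))))))))))) (n 1107 (n 0 z (n 0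
 z (n 0 z (n 0 z (n 0 z (n 0 z (n 0 z (n 0 z (n 0 z (n 2 (n 1 z (n 1 z (n 1 z (n 1 z (n 2 (n 0
 (n 20 z (n 20 z z)) (n 0 z (n 0 (n 20 z (n 20 z z)) (n 0 z (n 0 (n 20 z (n 20 z z)) (n 0 z
 z)))))) (n 1 z z)))))) (n 0 z (n 0 z (n 0 z (n 0 z (n 0 z (n 0 z z)))))))))))))))) (n 3 (n 0 z
 (n 0 z (n 0 z (n 0 z (n 0 z (n 0 z (n 0 z (n 0 z (n 0 z (n 0 z (n 0 z z))))))))))) (n 3 (n 0 z
 (n 0 z (n 0 z (n 0 z (n 0 z (n 0 z (n 0 z (n 0 z (n 2 (n 1 z (n 1 z (n 1 z (n 1 z z)))) (n 0 z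
 (n 0 z z))))))))))) (n 5 (n 0 z (n 0 z (n 0 z (n 0 z (n 0 z (n 0 z (n 0 z (n 0 z (n 0 z (n 0 z
 (n 0 z z))))))))))) (n 5 (n 0 z (n 0 z (n 0 z (n 0 z (n 0 z (n 2 (n 0 z (n 0 z z)) (n 0 z (n 0
 z (n 0 z (n 0 z (n 0 z z))))))))))) (n 5 (n 0 z (n 0 z (n 0 z (n 0 z (n 0 z (n 0 z (n 0 z (n 0
 z (n 0 z (n 2 (n 0 z z) (n 0 z z))))))))))) (n 5 (n 0 z (n 0 z (n 0 z (n 0 z (n 0 z (n 0 z (n 2
 z (n 0 z (n 0 z (n 0 z (n 0 z z))))))))))) z)))))))) (n 0 (n 0 z (n 261 (n 0 z (n 0 z (n 0 z (n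
 2 (n 0 z (n 1 z (n 2 (n 0 z (n 0 z (n 0 (n 3460 z (n 3460 z z)) (n 0 z (n 0 (n 3460 z z) (n 0 z
 z)))))) (n 1 z (n 1 z z))))) (n 0 z (n 0 z (n 0 z (n 0 z z)))))))) (n 261 (n 0 z (n 0 z (n 0 z
 (n 0 z (n 0 z (n 6627443 z (n 0 z (n 0 z z)))))))) (n 865 (n 0 z (n 0 z (n 0 z (n 0 z (n 0 z (n
 0 z (n 0 z (n 2 (n 0 z (n 0 z (n 0 z z))) (n 0 z (n 0 z (n 0 z z))))))))))) (n 865 (n 0 z (n 0
 z (n 0 z (n 0 z (n 0 z (n 0 z (n 0 z (n 0 z (n 0 z (n 0 z (n 0 z z))))))))))) (n 865 (n 0 z (n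
 0 z (n 0 z (n 0 z (n 0 z (n 0 z (n 0 z (n 0 z (n 0 z (n 0 z (n 0 z z))))))))))) (n 865 (n 0 z
 (n 0 z (n 0 z (n 0 z (n 0 z (n 6428475 z (n 0 z (n 0 z (n 0 z (n 0 z (n 0 z z)))))))))))
 z))))))) (n 0 (n 255 (n 0 z (n 2 (n 0 z (n 1 z (n 1 z (n 1 z (n 1 z z))))) (n 0 z (n 0 z (n 0 z
 (n 0 z (n 0 z z))))))) (n 255 (n 0 z (n 0 z (n 0 z (n 0 z (n 0 z (n 0 z (n 0 z z))))))) (n 17
 (n 0 z (n 0 z (n 0 z (n 0 z (n 0 z (n 0 z (n 0 z (n 0 z (n 0 z (n 0 z (n 0 z (n 0 z (n 0 z (n 0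
 z (n 2 (n 0 z (n 0 z (n 0 z z))) (n 0 z z)))))))))))))))) (n 17 (n 0 z (n 0 z (n 0 z (n 0 z (n
 0 z (n 0 z (n 0 z (n 0 z (n 0 z (n 0 z (n 0 z (n 0 z (n 0 z (n 0 z (n 0 z (n 0 z
 z)))))))))))))))) (n 17 (n 0 z (n 0 z (n 0 z (n 0 z (n 0 z (n 0 z (n 0 z (n 0 z (n 0 z (n 0 z
 (n 0 z (n 0 z (n 0 z (n 0 z (n 0 z (n 0 z z)))))))))))))))) (n 17 (n 0 z (n 0 z (n 0 z (n 0 z
 (n 0 z (n 0 z (n 0 z (n 0 z (n 0 z (n 0 z (n 0 z (n 0 z (n 0 z (n 0 z (n 0 z (n 0 z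
 z)))))))))))))))) z)))))) (n 0 (n 0 z (n 1 (n 0 z (n 0 z (n 0 z (n 0 z (n 0 z (n 0 z (n 0 z (n
 0 z (n 0 z (n 0 z z)))))))))) (n 1 (n 0 z (n 0 z (n 0 z (n 0 z (n 0 z (n 0 z (n 2 (n 0 z (n 0 z
 z)) (n 0 z (n 0 z (n 0 z z)))))))))) (n 1 (n 0 z (n 0 z (n 0 z (n 0 z (n 0 z (n 0 z (n 0 z (n 0
 z (n 0 z (n 0 z z)))))))))) (n 1 (n 0 z (n 0 z (n 0 z (n 0 z (n 0 z (n 0 z (n 0 z (n 0 z (n 0 z
 (n 2 z z)))))))))) z))))) (n 0 (n 1 (n 0 z (n 0 z (n 0 z (n 0 z (n 0 z (n 2 (n 0 z (n 0 z (n 0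
 z z))) (n 0 z z))))))) (n 1 (n 0 z (n 0 z (n 0 z (n 0 z (n 0 z (n 0 z (n 0 z z))))))) (n 1 (n 0
 z (n 0 z (n 0 z (n 0 z (n 0 z (n 0 z (n 0 z z))))))) (n 1 (n 0 z (n 0 z (n 0 z (n 0 z (n 0 z (n
 0 z (n 0 z z))))))) z)))) (n 0 (n 0 z (n 0 z (n 0 z z))) (n 0 (n 0 z (n 0 z z)) (n 0 (n 0 z z)
 (n 0 z z)))))))))))) (n 0 (n 1 (n 6623283 z (n 6623283 z (n 6623283 z (n 6623283 z (n 6623283 z
 (n 6623283 z z)))))) (n 1 (n 3500 z (n 3500 z (n 3500 z (n 3500 z (n 2164315 z (n 3500 z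
 z)))))) (n 1 (n 3500 z (n 3500 z (n 3500 z (n 3500 z (n 3500 z (n 3500 z z)))))) (n 0 z z))))
 (n 0 z z)))) (n 0 (n 0 (n 177 (n 0 z (n 6627395 z z)) (n 39 (n 0 z (n 6496595 z z)) (n 129 (n 0
 z (n 0 z (n 0 z (n 6627395 z z)))) (n 27 (n 0 z (n 0 z (n 0 z (n 6496595 z z)))) (n 1 (n 0 z (n
 0 z (n 2164299 z z))) (n 0 (n 0 z (n 6627395 z (n 0 z z))) z)))))) (n 177 z (n 0 (n 0 z (n 1 (n
 6627395 z (n 6627395 z (n 6627395 z (n 6627395 z (n 6627395 z (n 6627395 z z)))))) z)) (n 0 z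
 z)))) (n 0x689ba1368d (n 0 (n 177 (n 0 z (n 6627395 z z)) (n 39 (n 0 z (n 6496595 z z)) (n 129
 (n 0 z (n 0 z (n 6627395 z z))) (n 27 (n 0 z (n 0 z (n 0 z (n 6496595 z z)))) (n 1 (n 0 z (n 0
 z (n 2164299 z z))) (n 0 (n 2 z (n 6627395 z (n 0 z (n 0 z (n 0 z (n 10 z z)))))) z)))))) (n
 177 (n 0 (n 0 z z) (n 0 z z)) (n 0 (n 0 z (n 1 (n 6627395 z (n 6627395 z (n 6627395 z (n
 6627395 z (n 6627395 z (n 6627395 z z)))))) z)) (n 0 z z)))) (n 0x308a31c0516e2209 (n 0 (n 429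
 (n 6426707 z (n 0 z (n 0 z (n 0 z (n 0 z z))))) (n 293 (n 0 z (n 2 z (n 6426707 z (n 0 z (n 0 z
 z))))) (n 9 (n 0 z (n 6426707 z z)) (n 3 (n 6636307 z (n 0 z (n 10 z (n 0 z (n 0 z z))))) (n 1
 (n 0 z (n 0 z (n 0 z (n 0 z (n 0 z (n 18 z (n 0 z (n 0 z (n 0 z (n 0 z (n 6636307 z (n 0 z
 z)))))))))))) (n 0 (n 0 z (n 0 z (n 6636307 z z))) z)))))) (n 9 (n 0 (n 251 (n 0 z (n 0 z (n 0
 z (n 0 z (n 0 z (n 0 z (n 0 z (n 0 z (n 0 z (n 0 z z)))))))))) (n 291 (n 0 z (n 0 z (n 0 z (n 0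
 z (n 0 z (n 0 z z)))))) z)) (n 0 (n 735 (n 0 z (n 0 z (n 0 z (n 0 z (n 0 z (n 0 z (n 0 z
 z))))))) z) (n 0 z z))) (n 0 (n 0 z (n 1 (n 6426707 z (n 6426707 z (n 6426707 z (n 6426707 z (n
 6426707 z (n 6426707 z z)))))) z)) (n 0 z z)))) (n 0x19b25c0d9216228f32245ad300 (n 0 (n 519 (n
 0x436216790868585798c8c798e7d8f6f708385928387847c77a26c6c807a8170898067828a7074828a9a9f796b8e8e667f747465830049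
 z (n 6496339 z (n 0 z (n 2 z (n 0 z (n 0 z (n 0 z z))))))) (n 435 (n 3278363 z (n 0 z (n 0 z (n
 0 z z)))) (n 517 (n 6496339 z (n 0 z (n 0 z (n 0 z (n 10 z z))))) (n 3 (n 18 z (n 0 z (n
 6496339 z (n 0 z (n 0 z z))))) (n 1 (n 2164299 z (n 0 z (n 26 z (n 0 z z)))) (n 0 (n 0 z (n 34
 z (n
 0x2c86c840037d818080817f7e8181817f83807f81817f82837f81827f8280807f8083807f837f7e827f7e807f7e83808182817f8183807f0809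
 z (n
 0xb643808081808080808080807f817f8080807f81807f807f80808080817f7f8080808180808080808080808080808080808080800049
 z (n 0 z (n 0 z (n
 0x1b63178897d7c82827d7f81807989857c84827a868e7a838877847982827a837f7d86858188797d817a7788817e82877d808685800049
 z (n 6624043 z (n 0 z (n 6624043 z (n 0 z (n 0 z (n 0 z z))))))))))))) z)))))) (n 435 (n 0 (n
 1041 (n 0 z (n 0 z (n 0 z z))) (n 405 (n 0 z (n 0 z (n 0 z (n 0 z (n 0 z (n 0 z (n 0 z (n 0 z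
 (n 0 z z))))))))) (n 483 (n 0 z (n 0 z (n 0 z (n 0 z (n 0 z (n 0 z z)))))) (n 1037 (n 0 z (n 0
 z (n 0 z (n 0 z (n 0 z (n 0 z z)))))) z)))) (n 0 (n 387 (n 0 z (n 0 z (n 0 z (n 0 z (n 0 z (n 0
 z (n 0 z (n 0 z (n 0 z z))))))))) (n 255 (n 0 z (n 0 z (n 0 z (n 0 z z)))) (n 1033 (n 0 z (n 0
 z (n 0 z (n 0 z (n 0 z (n 0 z (n 0 z (n 0 z (n 0 z (n 0 z (n 0 z (n 0 z z)))))))))))) z))) (n 0
 (n 3 (n 0 z (n 0 z (n 0 z (n 0 z (n 0 z (n 2 (n 1 z z) z)))))) (n 5 (n 0 z (n 0 z (n 0 z (n 0 z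
 (n 0 z (n 0 z (n 0 z (n 0 z (n 0 z (n 0 z z)))))))))) z)) (n 0 (n 1 (n 0 z (n 0 z (n 0 z z)))
 z) (n 0 z z))))) (n 0 (n 1 (n 3278363 z (n 3278363 z (n 3278363 z (n 3278363 z (n 3278363 z (n
 3278363 z z)))))) (n 0 z (n 0 z (n 0 z z)))) (n 0 z z)))) (n 0 (n 0 (n 179 (n 3282443 z (n 0 z
 (n 0 z z))) (n 33 (n 0 z (n 3278363 z (n 0 z z))) (n 129 (n
 0x2ca8ca800396161a96379c7a091d8da9696e28e05aaa5b8a88208a38208138dd8517dd998c5d5649149d80801 z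
 (n 0 z (n 0 z (n 0 z (n 6632003 z (n 0 z (n 0 z (n 0 z z)))))))) (n 3 (n 0 z (n 6632003 z (n
 2164283 z (n 0 z (n 0 z (n 0 z (n 0 z (n 0 z z)))))))) (n 1 (n 0 z (n 0 z (n 0 z (n 0 z (n 0 z
 (n 6558507 z (n 0 z (n 0 z (n 0 z (n 0 z (n 0 z (n 2164299 z z)))))))))))) (n 0 (n 0 z (n 0 z
 (n 6632003 z (n 0 z (n
 0x6ca886040389e75d92281b7e085e85c8e579f8617649608238a08e37df8dc85f8596e38da9e072089b8db0801 z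
 (n 0 z (n 0 z z))))))) z)))))) (n 179 z (n 0 (n 1 (n 3282443 z (n 3282443 z (n 3282443 z (n
 3282443 z (n 3282443 z (n 3282443 z z)))))) (n 0 z (n 0 z z))) (n 0 z z)))) (n
 0x4da6a19d25632b21c148f24254b6300 (n 0 (n 519 (n 2 z (n 3282443 z (n 0 z z))) (n 261 (n 3278363
 z (n 0 z (n 0 z (n 0 z (n 0 z (n 0 z (n 0 z (n 0 z (n 0 z (n 0 z (n 0 z z))))))))))) (n 517 (n
 6631955 z (n 0 z (n 0 z (n 0 z (n 0 z (n 0 z (n 0 z (n 0 z (n 10 z z))))))))) (n 29 (n 6631955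
 z (n 0 z (n 0 z (n 0 z (n 0 z (n
 0x2ca8c820077e18208618607e17e07e17df8208208208618208208218208208208208208208208208208200801 z
 (n 18 z (n 0 z (n 0 z (n 0 z (n 0 z (n
 0x321308280c065465420180c84c840077a185d86086086082082181f8207e07e08208217df82082086082082082082082181f82081f1801
 z z)))))))))))) (n 1 (n 0 z (n 26 z (n 0 z (n 6559019 z (n 0 z (n 0 z (n 0 z (n 0 z z))))))))
 (n 0 (n 0 z (n
 0xc86c8040382182082085f82081f82181f8207e082082081f81f7e18218208208208208208208208208200801 z (n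
 34 z (n 6631955 z (n 0 z (n 0 z (n 6631955 z (n 0 z (n 0 z (n 42 z (n 0 z (n 0 z (n 0 z
 z))))))))))))) z)))))) (n 519 (n 0 (n 1041 (n 0 z (n 0 z (n 0 z (n 0 z (n 0 z (n 0 z (n 0 z (n
 0 z z)))))))) (n 675 (n 0 z (n 0 z (n 0 z (n 0 z (n 0 z (n 0 z (n 0 z (n 0 z (n 0 z (n 0 z
 z)))))))))) (n 673 (n 0 z (n 0 z (n 0 z (n 0 z (n 0 z (n 0 z (n 0 z (n 0 z (n 0 z (n 0 z (n 0 z
 (n 0 z (n 0 z (n 0 z z)))))))))))))) (n 1037 (n 0 z (n 0 z (n 0 z (n 0 z (n 0 z (n 0 z (n 0 z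
 z))))))) (n 1037 (n 0 z (n 0 z (n 0 z (n 0 z (n 0 z (n 0 z (n 0 z z))))))) z))))) (n 0 (n 273
 (n 0 z (n 0 z (n 0 z (n 0 z (n 0 z (n 0 z (n 0 z (n 0 z (n 0 z (n 0 z (n 0 z z))))))))))) (n
 261 (n 0 z (n 0 z (n 0 z (n 0 z (n 0 z (n 0 z (n 0 z (n 0 z (n 0 z (n 0 z (n 0 z (n 0 z (n 0 z
 (n 0 z (n 0 z (n 0 z (n 0 z (n 0 z (n 0 z (n 0 z (n 0 z (n 0 z z)))))))))))))))))))))) (n 1121
 (n 0 z (n 0 z (n 0 z (n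
 0x163164050380ca4a62807019494c100e03a1b88101c065465400180ca8a8600301d09d0800e0baa319001c174272100180ea884200785f82181f81f8208208208208208208208208207e08208608208208208208208228608208205001
 z (n 0 z (n 0 z (n 0 z (n 0 z z)))))))) (n 1121 (n 0 z (n 0 z (n 0 z (n 0 z (n 0 z (n 0 z (n 0
 z (n 0 z z)))))))) z)))) (n 0 (n 1325 (n 0 z (n 0 z (n 0 z (n 0 z (n 0 z (n 0 z (n
 0xc62e80a030194994100e0329308201c072175030380ca8ca800701d4dd4c00603aa329000c076375100180ea6ea200385f82082081f82082082082081f8208208208208208208208208208208208208218608208204801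
 z (n 0 z (n 0 z (n 0 z (n 0 z (n 0 z (n 0 z z))))))))))))) (n 5 (n 0 z (n 0 z (n 0 z (n 0 z (n
 0 z (n 0 z (n 0 z (n 0 z (n 0 z (n 0 z z)))))))))) (n 5 (n 0 z (n 0 z (n 0 z (n 0 z (n 0 z (n 0
 z (n 0 z (n 0 z (n 0 z (n 0 z z)))))))))) z))) (n 0 (n 1 (n 0 z (n 0 z (n 0 z (n 0 z (n 0 z (n
 0 z (n 0 z (n 0 z z)))))))) (n 1 (n 0 z (n 0 z (n 0 z (n 0 z (n 0 z (n 0 z (n 0 z (n 0 z
 z)))))))) z)) (n 0 (n 0 z z) (n 0 z z)))))) (n 0 (n 1 (n 2092 z (n 2092 z (n 2092 z (n 2092 z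
 (n 2092 z (n 2092 z z)))))) (n 1 (n 3282443 z (n 3282443 z (n 3282443 z (n 3282443 z (n 3282443
 z (n 3282443 z z)))))) (n 0 z z))) (n 0 z z)))) (n 0x2b0a36a0adb (n 0 (n 573 (n 3282443 z (n 0
 z (n 0 z z))) (n 557 (n 6627635 z (n 0 z (n 0 z (n 0 z (n 0 z (n 0 z (n 0 z (n 0 z z)))))))) (n
 556 (n 6566403 z (n 0 z (n
 0x1a6438228627e081f79d8618237e182381f7de7e186182485f85f7df79e8207de8a18a07e389f8220041 z (n 0 z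
 (n 0 z (n 6627635 z (n 0 z (n 0 z (n 0 z z))))))))) (n 3 (n 0 z (n 2 z (n 0 z (n 6566403 z (n 0
 z (n 10 z (n 0 z z))))))) (n 1 (n 6566403 z (n 0 z (n 0 z (n 0 z z)))) (n 0 (n 6627635 z (n 0 z
 (n 0 z (n
 0x226108228627a182075d8617e37e182485f7de7e186182486085f7de75d7e07de8a189f82489f8220041 z (n 0 z
 (n 0 z (n 0 z (n
 0x226428228627a182075d8617e37e182485f7de7e186182486085f7de75d7e07de8a189f82489f8220041 z (n 0 z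
 (n 0 z (n 0 z z))))))))))) z)))))) (n 573 (n 0 (n 0 z z) (n 0 z z)) (n 0 (n 1 (n 3282443 z (n
 6566403 z (n 3282443 z (n 3282443 z (n 3282443 z (n 3282443 z z)))))) (n 0 z (n 0 z z))) (n 0 z
 z)))) z)))))))))), by decide +kernel⟩
theorem i10446 : ∃ t, chkR KT RW t 10446 10456 = true := ⟨(n
 0x2d1aa0d89542c4a22224de4264a90a246849236045430808d880 (n 0x11b12 (n 179 (n 0 z (n 2 z (n 0 z
 (n 0 z (n 0 z (n 10 z (n 6627379 z (n 0 z (n 0 z (n 0 z z)))))))))) (n 33 (n 0 z (n 0 z (n 0 z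
 (n 18 z (n 0 z (n 0 z (n 0 z (n 3278363 z z)))))))) (n 131 (n 26 z (n 34 z (n 42 z (n 6627379 z
 z)))) (n 3 (n 50 z (n 2164283 z (n 0 z z))) (n 1 (n 58 z (n 6558507 z z)) (n 0 (n 0 z (n 66 z
 (n 0 z (n 6627379 z (n 74 z (n
 0x52d840a53081496105f41e089f8195335b091699790baed46aa70670be56d4ba77e23363656a0708dde1aaa7885d6546c999e8f3c61733309668300c9
 z z)))))) z)))))) (n 1 (n 0 (n 0 z (n 187 (n 0 z (n 0 z (n 0 z (n 0 z (n 0 z (n 0 z (n 0 z (n 0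
 z (n 0 z z))))))))) (n 183 (n 0 z (n 0 z (n 0 z (n 0 z (n 0 z (n 0 z (n 0 z (n 0 z (n 0 z
 z))))))))) (n 183 (n 0 z (n 0 z (n 0 z (n 0 z (n 0 z (n 0 z (n 0 z (n 0 z (n 0 z z))))))))) (n
 183 (n 0 z (n 0 z (n 0 z (n 0 z (n 0 z (n 0 z (n 0 z (n 0 z (n 0 z z))))))))) (n 181 (n 0 z (n
 0 z (n 0 z (n 0 z (n 0 z (n 0 z (n 0 z z))))))) (n 37 (n 0 z (n 0 z (n 0 z (n 0 z (n 0 z (n 0 z
 z)))))) (n 145 (n 0 z (n 0 z (n 0 z (n 0 z (n 0 z (n 0 z z)))))) (n 145 (n 0 z (n 0 z (n 0 z (n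
 0 z (n 0 z (n 0 z z)))))) z))))))))) (n 0 (n 139 (n 0 z (n 0 z (n 0 z (n 0 z (n 0 z (n 0 z (n 0
 z (n 0 z (n 0 z z))))))))) (n 23 (n 0 z (n 0 z (n 0 z (n 0 z (n 0 z (n 0 z (n 0 z (n 0 z (n 0 z
 (n 0 z (n 0 z (n 0 z (n 0 z z))))))))))))) (n 23 (n 0 z (n 0 z (n 0 z (n 0 z (n 0 z (n 0 z (n 0
 z (n 0 z (n 0 z (n 0 z (n 0 z (n 0 z (n 0 z z))))))))))))) (n 23 (n 0 z (n 0 z (n 0 z (n 0 z (n
 0 z (n 0 z (n 0 z (n 0 z (n 0 z (n 0 z (n 2 (n 1 z (n 1 z (n 1 z (n 1 z z)))) (n 0 z (n 0 z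
 z))))))))))))) (n 39 (n 0 z (n 0 z (n 0 z (n 0 z (n 0 z (n 0 z (n 0 z (n 0 z z)))))))) (n 21 (n
 0 z (n 0 z (n 0 z (n 0 z (n 0 z (n 0 z (n 0 z (n 0 z (n 0 z (n 0 z z)))))))))) (n 13 (n 0 z (n
 0 z (n 0 z (n 0 z (n 0 z (n 0 z z)))))) (n 13 (n 0 z (n 0 z (n 0 z (n 2 z (n 0 z (n 0 z z))))))
 z)))))))) (n 0 (n 423 (n 0 z (n 0 z (n 0 z (n 0 z (n 0 z (n 0 z (n 0 z (n 0 z (n 0 z (n 0 z
 z)))))))))) (n 423 (n 2 (n 0 z (n 1 z (n 1 z (n 1 z (n 1 z z))))) (n 0 z (n 0 z (n 0 z (n 0 z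
 (n 0 z (n 0 z (n 0 z (n 0 z (n 0 z z)))))))))) (n 423 (n 0 z (n 0 z (n 0 z (n 0 z (n 0 z (n 0 z
 (n 0 z (n 0 z (n 0 z (n 0 z z)))))))))) (n 421 (n 0 z (n 0 z (n 0 z (n 0 z (n 0 z (n 0 z (n 0 z
 (n 0 z (n 0 z (n 0 z (n 0 z z))))))))))) (n 51 (n 0 z (n 0 z (n 0 z (n 0 z (n 0 z (n 0 z (n 0 z
 (n 0 z (n 0 z (n 0 z z)))))))))) (n 49 (n 0 z (n 0 z (n 0 z (n 0 z (n 0 z z))))) (n 49 (n 0 z
 (n 2 z (n 0 z (n 0 z (n 0 z z))))) z))))))) (n 0 (n 0 z (n 0 z (n 665 (n 0 z (n 0 z (n 0 z (n 0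
 z (n 0 z (n 0 z z)))))) (n 243 (n 0 z (n 0 z (n 0 z (n 0 z (n 0 z (n 0 z (n 0 z z))))))) (n 241
 (n 0 z (n 0 z (n 0 z (n 0 z (n 0 z (n 0 z (n 0 z z))))))) (n 241 (n 0 z (n 0 z (n 0 z (n 2 z (n
 0 z (n 0 z (n 0 z z))))))) z)))))) (n 0 (n 0 z (n 251 (n 0 z (n 0 z (n 0 z (n 0 z (n 0 z (n 0 z
 (n 0 z (n 0 z z)))))))) (n 597 (n 0 z (n 0 z (n 0 z (n 0 z (n 0 z (n 0 z (n 0 z z))))))) (n 589
 (n 7746067 z (n 0 z (n 0 z (n 0 z (n 0 z (n 0 z (n 0 z (n 0 z (n 0 z z))))))))) (n 589 (n 0 z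
 (n 0 z (n 0 z (n 0 z (n 0 z (n 0 z (n 0 z (n 0 z (n 0 z z))))))))) z))))) (n 0 (n 285 (n 0 z (n
 0 z (n 0 z (n 0 z (n 0 z (n 0 z z)))))) (n 261 (n 0 z (n 0 z (n 0 z (n 0 z (n 0 z z))))) (n 257
 (n 0 z (n 0 z (n 0 z (n 0 z (n 0 z (n 0 z (n 0 z (n 0 z (n 0 z z))))))))) (n 257 (n 0 z (n 0 z
 (n 0 z (n 0 z (n 0 z (n 0 z (n 0 z (n 0 z (n 0 z z))))))))) z)))) (n 0 (n 3 (n 0 z (n 0 z (n 0
 z (n 0 z (n 0 z z))))) (n 1 (n 0 z (n 0 z (n 0 z (n 0 z (n 0 z (n 0 z (n 0 z (n 0 z (n 0 z (n 0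
 z z)))))))))) (n 1 (n 0 z (n 2 z (n 0 z (n 0 z (n 0 z (n 0 z (n 0 z (n 0 z (n 0 z (n 0 z
 z)))))))))) z))) (n 0 (n 5 (n 0 z (n 0 z (n 0 z (n 0 z (n 0 z (n 0 z (n 0 z z))))))) (n 5 (n 0
 z (n 0 z (n 0 z (n 0 z (n 2 z (n 0 z (n 0 z z))))))) z)) (n 0 (n 0 z z) (n 0 z z)))))))))) (n 0
 (n 1 (n 2 z (n 5509219 z (n 1436 z (n 1436 z (n 1436 z (n 4331067 z z)))))) (n 1 (n 6558507 z
 (n 6558507 z (n 6558507 z (n 6558507 z (n 6558507 z (n 6558507 z z)))))) z)) (n 0 (n 0 (n 0 (n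
 0 (n 7746067 z (n 7746067 z (n 7746067 z (n 7746067 z (n 7746067 z (n 7746067 z z)))))) z) (n 0
 (n 18 (n 0 z (n 0 z (n 1 (n 7675955 z (n 7675955 z (n 7675955 z (n 7675955 z (n 7675955 z (n
 7675955 z z)))))) (n 0 z (n 0 z (n 1 (n 7607083 z (n 7607083 z (n 7607083 z (n 7607083 z (n
 7607083 z (n 7607083 z z)))))) z)))))) (n 24 (n 1 (n 7675955 z (n 7675955 z (n 7675955 z (n
 7675955 z (n 7675955 z (n 7675955 z z)))))) (n 1 (n 1708 z (n 7746827 z (n 1708 z (n 1708 z (n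
 1708 z (n 1708 z z)))))) (n 1 (n 7671907 z (n 7671907 z (n 7671907 z (n 7671907 z (n 7671907 z
 (n 7671907 z z)))))) (n 0 z (n 1 (n 7671907 z (n 7671907 z (n 7671907 z (n 7671907 z (n 7671907
 z (n 7671907 z z)))))) z))))) (n 131 (n 1 (n 7746067 z (n 7746067 z (n 7746067 z (n 7746067 z
 (n 7746067 z (n 7746067 z z)))))) (n 1 (n 7746067 z (n 7746067 z (n 7746067 z (n 7746067 z (n
 7746067 z (n 7746067 z z)))))) (n 1 (n 2668 z (n 7671907 z (n 2668 z (n 2668 z (n 2668 z (n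
 2668 z z)))))) (n 1 (n 7746067 z (n 7746067 z (n 7746067 z (n 7746067 z (n 7746067 z (n 7746067
 z z)))))) z)))) (n 3 (n 1 (n 7746067 z (n 7746067 z (n 7746067 z (n 7746067 z (n 7746067 z (n
 7746067 z z)))))) (n 1 (n 7746067 z (n 7746067 z (n 7746067 z (n 7746067 z (n 7746067 z (n
 7746067 z z)))))) (n 0 z z))) (n 1 (n 1 (n 7746067 z (n 7746067 z (n 7746067 z (n 7746067 z (n
 7746067 z (n 7746067 z z)))))) (n 1 (n 7749899 z (n 7671907 z (n 7749899 z (n 7749899 z (n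
 7749899 z (n 7749899 z z)))))) z)) (n 45 (n 1 (n 7675955 z (n 7746067 z (n 7675955 z (n 7675955
 z (n 7675955 z (n 7675955 z z)))))) (n 1 (n 5644 z (n 7746067 z (n 5644 z (n 6494027 z (n 5644
 z (n 5644 z z)))))) (n 1 (n 7671907 z (n 7746067 z (n 7671907 z (n 7671907 z (n 7671907 z (n
 7671907 z z)))))) (n 0 z (n 1 (n 7671907 z (n 7746067 z (n 7671907 z (n 7671907 z (n 7671907 z
 (n 7671907 z z)))))) z))))) (n 1 (n 1 (n 7746067 z (n 7746067 z (n 7746067 z (n 7746067 z (n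
 7746067 z (n 7746067 z z)))))) (n 1 (n 7749899 z (n 7749899 z (n 7749899 z (n 7749899 z (n
 7749899 z (n 7749899 z z)))))) z)) z))))))) (n 0 z (n 0 (n 213 (n 0 z (n 0 z (n 0 z (n 0 z (n 0
 z (n 0 z (n 0 z (n 0 z (n 0 z z))))))))) (n 333 (n 0 z (n 0 z (n 0 z (n 0 z (n 0 z (n 0 z (n 0
 z (n 0 z (n 0 z z))))))))) (n 331 (n 0 z (n 0 z (n 0 z (n 0 z (n 0 z (n 0 z (n 0 z (n 0 z (n 0
 z (n 0 z z)))))))))) (n 453 (n 0 z (n 0 z (n 0 z (n 0 z (n 0 z (n 0 z (n 0 z z))))))) (n 451 (n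
 0 z (n 0 z (n 0 z (n 0 z (n 0 z (n 0 z (n 0 z (n 0 z (n 0 z (n 0 z (n 0 z z))))))))))) (n 452
 (n 0 z (n 0 z (n 0 z (n 0 z (n 0 z (n 0 z z)))))) (n 525 (n 0 z (n 0 z (n 0 z (n 0 z (n 0 z (n
 0 z z)))))) (n 39 (n 0 z (n 0 z (n 0 z (n 0 z (n 0 z (n 0 z (n 0 z (n 0 z (n 0 z (n 0 z
 z)))))))))) (n 135 (n 0 z (n 0 z (n 0 z (n 0 z (n 0 z (n 0 z (n 0 z z))))))) (n 3 (n 0 z (n 0 z
 (n 0 z (n 0 z (n 0 z z))))) (n 705 (n 0 z (n 0 z (n 0 z (n 0 z (n 0 z (n 0 z z)))))) (n 45 (n 0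
 z (n 0 z (n 0 z (n 0 z (n 0 z z))))) (n 141 (n 0 z (n 0 z (n 0 z (n 0 z (n 0 z (n 0 z (n 0 z
 z))))))) (n 5 (n 0 z (n 0 z (n 0 z (n 0 z (n 0 z (n 0 z (n 0 z (n 0 z (n 0 z (n 0 z z))))))))))
 (n 4 (n 0 z (n 0 z (n 0 z (n 0 z (n 0 z (n 0 z (n 0 z z))))))) (n 179 (n 0 z (n 0 z (n 0 z (n 0
 z (n 0 z (n 0 z (n 0 z (n 0 z (n 0 z (n 0 z z)))))))))) (n 33 (n 0 z (n 0 z (n 0 z (n 0 z (n 0
 z (n 0 z (n 0 z (n 0 z z)))))))) (n 131 (n 0 z (n 0 z (n 0 z (n 0 z z)))) (n 3 (n 0 z (n 0 z (n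
 0 z z))) (n 1 (n 0 z (n 0 z z)) (n 0 (n 0 z (n 0 z (n 0 z (n 0 z (n 0 z (n 0 z z))))))
 z))))))))))))))))))))) z)))) z) z)))) (n 0x3b4cb45a64ac531b2296f5a0a55d06229614d76886c34335da40
 (n 0x2bb4c (n 573 (n 3282443 z (n 0 z (n 2 z (n 0 z (n 0 z z))))) (n 437 (n 6496515 z (n 0 z (n
 0 z (n 10 z (n 18 z (n 26 z z)))))) (n 373 (n 0 z (n 34 z (n 0 z (n 42 z (n 6496515 z z))))) (n
 3 (n 0 z (n 0 z (n 6496515 z (n 50 z (n 0 z (n 0 z (n 58 z z))))))) (n 1 (n 6635787 z (n 66 z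
 z)) (n 0 (n 6635787 z (n 0 z (n 0 z (n 74 z (n 0 z (n 0 z (n 0 z (n 0 z (n 0 z (n 0 z (n 0 z (n
 0 z (n 0 z (n 0 z (n 0 z (n 0 z (n 0 z (n 0 z (n 0 z z))))))))))))))))))) z)))))) (n 1 (n 0 (n
 1143 (n 0 z (n 0 z (n 0 z z))) (n 1143 (n 0 z (n 0 z (n 0 z z))) (n 1143 (n 0 z (n 0 z (n 0 z
 z))) (n 1145 (n 0 z (n 0 z (n 0 z (n 0 z (n 0 z (n 0 z (n 0 z (n 0 z z)))))))) (n 1145 (n 0 z
 (n 0 z (n 2 (n 1 z (n 1 z (n 1 z (n 1 z z)))) (n 0 z (n 0 z (n 0 z (n 0 z (n 0 z z)))))))) (n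
 267 (n 0 z (n 0 z (n 0 z (n 0 z (n 0 z (n 0 z (n 0 z (n 0 z (n 0 z (n 0 z (n 0 z z)))))))))))
 (n 267 (n 0 z (n 0 z (n 0 z (n 0 z (n 0 z (n 0 z (n 0 z (n 0 z (n 0 z (n 0 z (n 0 z
 z))))))))))) (n 243 (n 0 z (n 0 z (n 0 z z))) (n 265 (n 0 z (n 0 z (n 0 z (n 0 z (n 0 z (n 0 z
 (n 0 z (n 0 z (n 0 z (n 0 z z)))))))))) z))))))))) (n 0 (n 0 z (n 0 z (n 747 (n 0 z (n 0 z (n 0
 z (n 0 z (n 0 z (n 0 z (n 0 z (n 0 z (n 0 z (n 0 z (n 0 z (n 7737427 z (n 0 z (n 0 z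
 z)))))))))))))) (n 747 (n 0 z (n 0 z (n 0 z (n 0 z (n 0 z (n 0 z (n 0 z (n 0 z (n 0 z (n 0 z (n
 0 z (n 0 z (n 0 z (n 0 z z)))))))))))))) (n 75 (n 0 z (n 0 z (n 0 z (n 0 z z)))) (n 75 (n 0 z
 (n 0 z (n 0 z (n 0 z z)))) (n 729 (n 0 z (n 0 z (n 0 z z))) (n 745 (n 0 z (n 0 z (n 0 z (n 0 z
 (n 0 z (n 0 z (n 0 z (n 0 z (n 0 z (n 0 z (n 2 z (n 0 z (n 0 z (n 0 z (n 0 z (n 0 z (n 0 z
 z))))))))))))))))) z)))))))) (n 0 (n 0 z (n 873 (n 0 z (n 0 z (n 0 z (n 0 z (n 0 z (n 0 z (n 0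
 z (n 0 z (n 0 z (n 0 z (n 0 z z))))))))))) (n 873 (n 0 z (n 0 z (n 0 z (n 0 z (n 0 z (n 2 (n 1
 z (n 1 z (n 1 z (n 1 z z)))) (n 0 z (n 0 z (n 0 z (n 0 z (n 0 z z))))))))))) (n 1153 (n 0 z (n
 0 z (n 0 z (n 0 z z)))) (n 1153 (n 0 z (n 0 z (n 0 z (n 0 z z)))) (n 111 (n 0 z (n 0 z (n 0 z
 (n 0 z z)))) (n 749 (n 0 z (n 0 z (n 0 z (n 0 z (n 0 z (n 0 z (n 0 z (n 0 z (n 0 z (n 0 z
 z)))))))))) z))))))) (n 0 (n 867 (n 0 z (n 0 z (n 0 z (n 0 z (n 0 z (n 0 z (n 0 z (n 0 z (n 0 z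
 (n 0 z z)))))))))) (n 867 (n 0 z (n 0 z (n 0 z (n 0 z (n 0 z (n 0 z (n 0 z (n 0 z (n 0 z (n 0 z
 z)))))))))) (n 1405 (n 0 z (n 0 z (n 2 (n 0 z (n 1 z (n 1 z z))) (n 0 z z)))) (n 1405 (n 0 z (n
 0 z (n 0 z (n 0 z z)))) (n 111 (n 0 z (n 0 z (n 0 z (n 0 z (n 0 z z))))) (n 865 (n 0 z (n 0 z
 (n 0 z z))) z)))))) (n 0 (n 0 z (n 247 (n 0 z (n 0 z (n 0 z (n 0 z (n 0 z z))))) (n 247 (n 0 z
 (n 0 z (n 0 z (n 0 z (n 0 z z))))) (n 15 (n 0 z (n 0 z (n 0 z (n 0 z z)))) (n 745 (n 0 z (n 0 z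
 (n 0 z (n 0 z (n 0 z (n 0 z (n 0 z (n 0 z (n 0 z (n 0 z (n 0 z (n 0 z (n 0 z (n 0 z (n 0 z (n 0
 z (n 0 z (n 0 z (n 0 z (n 0 z (n 0 z z))))))))))))))))))))) z))))) (n 0 (n 247 (n 0 z (n 0 z (n
 2 (n 0 z (n 1 z (n 1 z z))) (n 0 z (n 0 z (n 0 z (n 0 z z))))))) (n 247 (n 0 z (n 0 z (n 0 z (n
 0 z (n 0 z (n 0 z (n 0 z z))))))) (n 243 (n 0 z (n 0 z (n 0 z (n 0 z (n 0 z (n 2 (n 1 z z) (n 0
 z z))))))) (n 245 (n 0 z (n 0 z (n 0 z (n 0 z (n 2 z (n 0 z (n 0 z (n 0 z (n 0 z (n 0 z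
 z)))))))))) z)))) (n 0 (n 0 z (n 3 (n 0 z (n 0 z (n 0 z (n 0 z (n 0 z (n 0 z (n 0 z z))))))) (n
 5 (n 0 z (n 0 z (n 0 z (n 0 z (n 0 z (n 0 z (n 0 z (n 0 z (n 0 z (n 0 z z)))))))))) z))) (n 0
 (n 3 (n 0 z (n 0 z (n 0 z (n 0 z (n 0 z z))))) (n 5 (n 0 z (n 0 z (n 0 z (n 0 z (n 0 z (n 0 z
 (n 0 z (n 0 z (n 0 z (n 0 z (n 0 z z))))))))))) z)) (n 0 (n 1 (n 0 z (n 0 z (n 0 z (n 0 z (n 0
 z (n 0 z (n 0 z (n 0 z (n 0 z (n 0 z (n 0 z (n 0 z (n 0 z (n 0 z (n 0 z (n 0 z (n 0 z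
 z))))))))))))))))) z) (n 0 z z)))))))))) (n 0 (n 1 (n 6635787 z (n 6635787 z (n 6635787 z (n
 6635787 z (n 6635787 z (n 6635787 z z)))))) (n 1 (n 4588 z (n 5510667 z (n 2 z (n 4588 z (n
 5517923 z (n 4588 z z)))))) z)) (n 0 (n 0 (n 0 (n 0 (n 7737427 z (n 7737427 z (n 7737427 z (n
 7737427 z (n 7737427 z (n 7737427 z z)))))) z) (n 0 (n 571 (n 1 (n 7737427 z (n 7737427 z (n
 7737427 z (n 7737427 z (n 7737427 z (n 7737427 z z)))))) (n 1 (n 7737427 z (n 7737427 z (n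
 7737427 z (n 7737427 z (n 7737427 z (n 7737427 z z)))))) (n 1 (n 4588 z (n 4588 z (n 4588 z (n
 4588 z (n 4588 z (n 4588 z z)))))) z))) (n 573 (n 1 (n 7545091 z (n 7737427 z (n 7737427 z (n
 7737427 z (n 7737427 z (n 7737427 z z)))))) (n 1 (n 7545091 z (n 7737427 z (n 7737427 z (n
 7737427 z (n 7737427 z (n 7737427 z z)))))) (n 1 (n 7545091 z (n 3500 z (n 3500 z (n 3500 z (n
 3500 z (n 3500 z z)))))) z))) (n 7 (n 1 (n 4588 z (n 6566259 z (n 4588 z (n 4588 z (n 4588 z (n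
 4588 z z)))))) (n 1 (n 7684363 z (n 7684363 z (n 7684363 z (n 7684363 z (n 7684363 z (n 7684363
 z z)))))) (n 1 (n 4588 z (n 4588 z (n 4396907 z (n 4588 z (n 988 z (n 4588 z z)))))) (n 1 (n
 7545091 z (n 7545091 z (n 7545091 z (n 7545091 z (n 7545091 z (n 7545091 z z)))))) z)))) (n 581
 (n 1 (n 1036 z (n 7684363 z (n 1468 z (n 1468 z (n 1468 z (n 1468 z z)))))) (n 1 (n 7545091 z
 (n 7545091 z (n 7545091 z (n 7545091 z (n 7545091 z (n 7545091 z z)))))) (n 1 (n 7545091 z (n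
 7545091 z (n 7545091 z (n 7545091 z (n 7545091 z (n 7545091 z z)))))) (n 1 (n 7545091 z (n
 7545091 z (n 7545091 z (n 7545091 z (n 7545091 z (n 7545091 z z)))))) z)))) (n 1 (n 1 (n
 7684363 z (n 7684363 z (n 7684363 z (n 7684363 z (n 7680611 z (n 7684363 z z)))))) (n 1 (n
 7737427 z (n 7737427 z (n 7737427 z (n 7737427 z (n 7737427 z (n 7737427 z z)))))) z)) (n 237
 (n 1 (n 7545091 z (n 3282699 z (n 3282699 z (n 7673355 z (n 3282699 z (n 3282699 z z)))))) (n 1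
 (n 7545091 z (n 7680611 z (n 7680611 z (n 7680611 z (n 7680611 z (n 7680611 z z)))))) (n 0 z (n
 1 (n 7545091 z (n 7680611 z (n 7680611 z (n 7680611 z (n 7680611 z (n 7680611 z z)))))) (n 0 z
 (n 0 z (n 0 z (n 0 z (n 0 z (n 1 (n 7545091 z (n 7680611 z (n 7680611 z (n 7680611 z (n 7680611
 z (n 7680611 z z)))))) z)))))))))) (n 1 (n 1 (n 7684363 z (n 7684363 z (n 7684363 z (n 7684363
 z (n 7684363 z (n 7684363 z z)))))) (n 1 (n 7737427 z (n 7737427 z (n 7737427 z (n 7737427 z (n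
 7737427 z (n 7737427 z z)))))) z)) z))))))) (n 0 z (n 0 (n 573 (n 0 z (n 0 z (n 0 z z))) (n 573
 (n 0 z (n 0 z (n 0 z (n 0 z (n 0 z (n 0 z (n 0 z (n 0 z z)))))))) (n 437 (n 0 z (n 0 z (n 0 z
 (n 0 z (n 0 z (n 0 z (n 0 z (n 0 z (n 0 z (n 0 z (n 0 z z))))))))))) (n 183 (n 0 z (n 0 z (n 0
 z (n 0 z (n 0 z (n 0 z (n 0 z (n 0 z (n 0 z (n 0 z (n 0 z z))))))))))) (n 581 (n 0 z (n 0 z (n
 0 z (n 0 z z)))) (n 129 (n 0 z (n 0 z (n 0 z (n 0 z (n 0 z z))))) (n 201 (n 0 z (n 0 z (n 0 z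
 z))) (n 57 (n 0 z (n 0 z (n 0 z (n 0 z z)))) (n 9 (n 0 z (n 0 z (n 0 z (n 0 z z)))) (n 3 (n 0 z
 (n 0 z (n 0 z (n 0 z (n 0 z z))))) (n 237 (n 0 z (n 0 z (n 0 z (n 0 z (n 0 z (n 0 z (n 0 z (n 0
 z (n 0 z (n 0 z z)))))))))) (n 375 (n 0 z (n 0 z (n 0 z (n 0 z (n 0 z (n 0 z (n 0 z (n 0 z (n 0
 z (n 0 z z)))))))))) (n 373 (n 0 z (n 0 z (n 0 z (n 0 z (n 0 z (n 0 z (n 0 z (n 0 z (n 0 z (n 0
 z (n 0 z (n 0 z (n 0 z (n 0 z (n 0 z (n 0 z (n 0 z (n 0 z (n 0 z (n 0 z (n 0 z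
 z))))))))))))))))))))) (n 3 (n 0 z (n 0 z (n 0 z (n 0 z (n 0 z (n 0 z (n 0 z (n 0 z (n 0 z (n 0
 z (n 0 z z))))))))))) (n 1 (n 0 z (n 0 z (n 0 z (n 0 z (n 0 z (n 0 z (n 0 z (n 0 z (n 0 z (n 0
 z (n 0 z (n 0 z (n 0 z (n 0 z (n 0 z (n 0 z (n 0 z z))))))))))))))))) (n 573 (n 0 z (n 0 z (n 0
 z (n 0 z (n 0 z z))))) (n 437 (n 0 z (n 0 z (n 0 z (n 0 z (n 0 z (n 0 z z)))))) (n 373 (n 0 z
 (n 0 z (n 0 z (n 0 z (n 0 z z))))) (n 3 (n 0 z (n 0 z (n 0 z (n 0 z (n 0 z (n 0 z (n 0 z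
 z))))))) (n 1 (n 0 z (n 0 z z)) (n 0 (n 0 z (n 0 z (n 0 z (n 0 z (n 0 z (n 0 z (n 0 z (n 0 z (n
 0 z (n 0 z (n 0 z (n 0 z (n 0 z (n 0 z (n 0 z (n 0 z (n 0 z (n 0 z (n 0 z z)))))))))))))))))))
 z))))))))))))))))))))) z)))) z) z)))) (n 0x1e715073d68395771cc53aa6096910cb64844e30538e780 (n 0
 (n 177 (n 6627379 z (n 6619675 z (n
 0x2ca8a84203807e8181818081808080817f81807f817f80807f80807f8080807f81807f7f818080808280808081807f80807f7f80807f800809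
 z (n 0 z (n 0 z (n 0 z (n 0 z (n 0 z (n 0 z (n 0 z (n 0 z (n 2 z (n 0 z (n 6627379 z (n 0 z (n
 0 z (n 0 z z))))))))))))))))) (n 255 (n 10 z (n 18 z (n 26 z (n 0 z (n 3278363 z (n 34 z (n 42
 z z))))))) (n 129 (n 0 z (n 0 z (n 6627379 z z))) (n 27 (n 0 z (n 2164283 z (n 0 z (n 0 z (n 0
 z (n 0 z z)))))) (n 1 (n 0 z (n 0 z (n 0 z (n 0 z (n 2164299 z z))))) (n 0 (n 50 z (n 58 z (n
 0x436207e6daa80774c60ab70ab9c6e6f7f84b8876ca368995b686c8475813d89b95e69a263a9767d6b9c8576859c70856a8fb2717a0049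
 z (n 66 z (n 0 z (n 0 z (n 0 z (n 0 z (n
 0x2ca2640803807e76817f858172827f80888080827e80827e8a7d7f8284807e7b84857e8180837a877c837c8081828481807e80827e817f0809
 z (n 0 z (n 6627379 z (n 6627379 z (n 0 z (n 0 z z)))))))))))))) z)))))) (n 129 (n 0 (n 1063 (n
 0 z (n 0 z (n 0 z (n 0 z (n 0 z (n 0 z (n 0 z z))))))) (n 1063 (n 0 z (n 0 z (n 0 z (n 0 z (n 0
 z (n 0 z (n 0 z z))))))) (n 1063 (n 0 z (n 0 z (n 2 (n 0 z (n 0 z (n 1 z (n 1 z (n 1 z z)))))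
 (n 0 z (n 0 z (n 0 z (n 0 z z))))))) (n 1063 (n 0 z (n 0 z (n 0 z (n 0 z (n 0 z (n 0 z (n 0 z
 z))))))) (n 1063 (n 0 z (n 0 z (n 0 z (n 0 z (n 0 z (n 0 z (n 0 z z))))))) (n 1057 (n 0 z (n 0
 z (n 0 z (n 0 z (n 0 z (n 0 z (n 0 z (n 0 z (n 0 z (n 0 z (n 0 z (n 0 z (n 0 z (n 0 z (n 0 z (n
 0 z (n 0 z (n 0 z (n 0 z (n 2 (n 0 z (n 0 z z)) z)))))))))))))))))))) (n 1057 (n 0 z (n 0 z (n
 0 z (n 0 z (n 0 z (n 0 z (n 0 z (n 0 z (n 0 z (n 0 z (n 0 z (n 0 z (n 0 z (n 0 z (n 0 z (n 0 z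
 (n 0 z (n 0 z (n 0 z (n 0 z z)))))))))))))))))))) (n 1057 (n 0 z (n 0 z (n 0 z (n 0 z (n 0 z (n
 0 z (n 0 z (n 0 z (n 0 z (n 0 z (n 0 z (n 0 z (n 0 z (n 0 z (n 0 z (n 0 z (n 2 z (n 0 z (n 0 z
 (n 0 z z)))))))))))))))))))) z)))))))) (n 0 (n 0 z (n 0 z (n 0 z (n 0 z (n 509 (n 0 z (n 0 z (n
 0 z (n 0 z (n 0 z (n 0 z (n 0 z (n 0 z (n 0 z (n 0 z (n 0 z (n 0 z (n 0 z z))))))))))))) (n 509
 (n 0 z (n 0 z (n 0 z (n 0 z (n 0 z (n 0 z (n 0 z (n 0 z (n 0 z (n 0 z (n 0 z (n 0 z (n 0 z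
 z))))))))))))) (n 509 (n 0 z (n 0 z (n 0 z (n 0 z (n 0 z (n 0 z (n 0 z (n 0 z (n 0 z (n 0 z (n
 0 z (n 0 z (n 0 z z))))))))))))) z))))))) (n 0 (n 0 z (n 0 z (n 0 z (n 533 (n 0 z (n 0 z (n 0 z
 (n 0 z (n 0 z (n 0 z (n 0 z (n 0 z (n 0 z (n 0 z z)))))))))) (n 533 (n 0 z (n 0 z (n 0 z (n 0 z
 (n 0 z (n 0 z (n 0 z (n 0 z (n 0 z (n 0 z z)))))))))) (n 533 (n 0 z (n 0 z (n 0 z (n 0 z (n 0 z
 (n 0 z (n 0 z (n 0 z (n 2 z (n 0 z z)))))))))) z)))))) (n 0 (n 0 z (n 0 z (n 553 (n 0 z (n 0 z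
 (n 0 z (n 0 z (n 0 z z))))) (n 553 (n 0 z (n 0 z (n 0 z (n 0 z (n 2 (n 0 z z) z))))) (n 553 (n
 0 z (n 0 z (n 0 z (n 0 z (n 0 z z))))) z))))) (n 0 (n 0 z (n 53 (n 0 z (n 0 z (n 0 z (n 0 z (n
 0 z (n 0 z (n 0 z (n 0 z (n 0 z z))))))))) (n 53 (n 0 z (n 0 z (n 0 z (n 0 z (n 0 z (n 0 z (n 0
 z (n 0 z (n 0 z z))))))))) (n 53 (n 0 z (n 0 z (n 0 z (n 0 z (n 0 z (n 0 z (n 0 z (n 0 z (n 0 z
 z))))))))) z)))) (n 0 (n 625 (n 0 z (n 0 z (n 0 z (n 0 z (n 0 z (n 2 (n 0 z (n 0 z z)) (n 0 z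
 z))))))) (n 625 (n 0 z (n 0 z (n 0 z (n 0 z (n 0 z (n 0 z (n 0 z z))))))) (n 625 (n 0 z (n 0 z
 (n 0 z (n 0 z (n 0 z (n 0 z (n 2 z z))))))) z))) (n 0 (n 0 z (n 0 z z)) (n 0 (n 0 z z) (n 0 z
 z))))))))) (n 0 (n 0 z (n 0 z (n 1 (n 6627379 z (n 6627379 z (n 6627379 z (n 6627379 z (n
 6627379 z (n 6627379 z z)))))) z))) (n 0 z z)))) (n 0x275aa0a8d58299216a085a2c2263740 (n 0 (n
 453 (n 0 z (n 3282443 z (n 0 z (n 0 z (n 2 z z))))) (n 437 (n 0 z (n 10 z (n 3278363 z (n 18 z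
 (n 0 z (n
 0xca8ca840381f8208208618208217e07e08208218207e081f81f8617e082181f82082082082081f8218200801 z (n
 0 z z))))))) (n 436 (n 0 z (n 6566403 z (n 0 z (n 0 z (n 0 z z))))) (n 3 (n 0 z (n 6566403 z (n
 0 z (n 0 z z)))) (n 1 (n 0 z (n 6566403 z (n 0 z (n 26 z (n 0 z (n 0 z (n 0 z (n 0 z (n 0 z
 z))))))))) (n 0 (n 34 z (n 42 z (n 0 z (n
 0x2c64c6420381f8217e086085f8607e07e281f8218207df81f81e8a27a07e181f85f8617e08607df8618200801 z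
 (n 6620203 z (n 0 z z)))))) z)))))) (n 3 (n 0 (n 223 (n 0 z (n 0 z (n 0 z (n 0 z (n 0 z (n 0 z
 (n 0 z z))))))) (n 223 (n 0 z (n 0 z (n 0 z (n 0 z (n 0 z (n 0 z (n 0 z z))))))) (n 221 (n 0 z
 (n 2 (n 1 z (n 1 z z)) (n 0 z (n 0 z (n 0 z (n 0 z (n 0 z (n 0 z (n 0 z z))))))))) (n 865 (n 0
 z (n 0 z (n 0 z (n 0 z z)))) (n 865 (n 0 z (n 0 z (n 0 z (n 0 z z)))) z))))) (n 0 (n 0 z (n 345
 (n 0 z (n 0 z (n 0 z (n 0 z (n 0 z (n 0 z (n 0 z (n 0 z (n 0 z (n 0 z (n 0 z (n 0 z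
 z)))))))))))) (n 793 (n 0 z (n 0 z z)) (n 793 (n 0 z (n 0 z z)) z)))) (n 0 (n 461 (n 0 z (n 0 z
 (n 0 z (n 0 z z)))) (n 877 (n 0 z (n 0 z (n 0 z (n 0 z (n 0 z z))))) (n 877 (n 0 z (n 0 z (n 0
 z (n 0 z (n 0 z z))))) z))) (n 0 (n 1 (n 0 z (n 0 z (n 0 z (n 0 z (n 0 z (n 0 z (n 0 z z)))))))
 (n 1 (n 0 z (n 0 z (n 0 z (n 0 z (n 0 z (n 0 z (n 0 z z))))))) z)) (n 0 (n 0 z z) (n 0 z
 z)))))) (n 0 (n 0 z (n 1 (n 6566403 z (n 6566403 z (n 6566403 z (n 6566403 z (n 6566403 z (n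
 6566403 z z)))))) (n 0 z (n 0 z z)))) (n 0 z z)))) (n 0x1189d (n 0 (n 443 (n 6619675 z (n 0 z
 (n 6627379 z (n 0 z (n 0 z (n 0 z (n 0 z (n 0 z z)))))))) (n 454 (n 3278363 z (n 0 z (n 0 z (n
 0 z (n 0 z (n 0 z z)))))) (n 442 (n 6627379 z (n 0 z (n 0 z (n 0 z (n 0 z z))))) (n 3 (n
 6566411 z z) (n 1 (n 0 z (n 6566411 z (n 0 z (n 0 z (n 0 z (n 0 z (n 0 z z))))))) (n 0 (n 0 z
 (n 0 z (n 2 z (n 6627379 z (n 0 z (n 0 z (n 0 z z))))))) z)))))) (n 3 (n 0 z z) (n 0 (n 1 (n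
 6566411 z (n 6566411 z (n 6627379 z (n 6566411 z (n 6566411 z (n 6566411 z z)))))) z) (n 0 z
 z)))) (n 0xcc2e9a228e320b52c240 (n 0 (n 441 (n 0 z (n 2 z (n 0 z (n 6496339 z (n 0 z (n 0 z
 z)))))) (n 33 (n 0 z (n 0 z (n 0 z (n 3278363 z (n 0 z z))))) (n 129 (n 10 z (n 0 z (n 6496339
 z (n 0 z z)))) (n 3 (n 18 z (n 0 z (n 6496339 z z))) (n 1 (n 0 z (n 0 z (n 6566155 z (n 0 z
 z)))) (n 0 (n 0 z (n 26 z (n 6624043 z z))) z)))))) (n 3 (n 0 (n 263 (n 0 z (n 0 z (n 0 z (n 0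
 z (n 0 z (n 0 z (n 0 z (n 0 z (n 0 z z))))))))) (n 11 (n 0 z (n 0 z (n 2 (n 1 z z) z))) (n 1 (n
 0 z (n 0 z (n 0 z (n 0 z (n 0 z (n 0 z z)))))) z))) (n 0 (n 295 (n 0 z (n 0 z (n 0 z (n 0 z (n
 0 z (n 0 z (n 0 z (n 0 z (n 0 z z))))))))) (n 541 (n 0 z (n 0 z (n 0 z (n 0 z (n 0 z (n 0 z (n
 0 z (n 0 z (n 0 z (n 0 z (n 0 z (n 0 z z)))))))))))) z)) (n 0 (n 1 (n 0 z (n 0 z (n 0 z (n 0 z
 (n 0 z (n 0 z (n 0 z z))))))) z) (n 0 z z)))) (n 0 (n 1 (n 3532 z (n 3532 z (n 3532 z (n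
 6624043 z (n 3532 z (n 3532 z z)))))) (n 0 z (n 1 (n 6496339 z (n 6496339 z (n 6496339 z (n
 6496339 z (n 6496339 z (n 6496339 z z)))))) z))) (n 0 z z)))) (n 0x485ab202d3 (n 0 (n 177 (n 0
 z (n 6557747 z (n 0 z (n 0 z (n 0 z z))))) (n 33 (n 0 z (n 0 z (n 6557747 z (n 0 z (n 0 z (n 0
 z (n 0 z z))))))) (n 9 (n 3212843 z (n 0 z (n 0 z z))) (n 27 (n 0 z (n 2 z (n 0 z (n 0 z (n 0 z
 (n 6631691 z (n 0 z (n 0 z (n 0 z (n 0 z z)))))))))) (n 1 (n 0 z (n 6557747 z z)) (n 0 (n 10 z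
 (n 0 z (n 0 z (n 0 z (n 6631691 z (n 0 z z)))))) z)))))) (n 1 (n 0 (n 49 (n 0 z (n 0 z (n 0 z
 (n 0 z (n 0 z (n 0 z (n 0 z z))))))) z) (n 0 z z)) (n 0 (n 0 z (n 1 (n 6557747 z (n 6557747 z
 (n 6557747 z (n 6557747 z (n 6557747 z (n 6557747 z z)))))) z)) (n 0 z z)))) (n
 0x1618a846156954436c211 (n 0 (n 443 (n 6623299 z (n 0 z (n 0 z (n 0 z (n 0 z z))))) (n 437 (n 2
 z (n 0 z (n 0 z (n 0 z (n 0 z (n 6623299 z (n 0 z (n 0 z (n 10 z z))))))))) (n 9 (n 0 z (n 0 z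
 (n 0 z (n 0 z (n 0 z (n 0 z (n 3212843 z z))))))) (n 3 (n 2164283 z (n 0 z z)) (n 1 (n 2164299
 z (n 0 z (n 0 z z))) (n 0 (n 18 z (n 0 z (n 0 z (n 6623299 z (n 26 z (n 0 z z)))))) z)))))) (n
 3 (n 0 (n 0 z (n 481 (n 0 z (n 0 z (n 0 z (n 0 z (n 0 z (n 0 z z)))))) (n 481 (n 0 z (n 0 z (n
 0 z (n 0 z (n 0 z (n 0 z z)))))) z))) (n 0 (n 1117 (n 0 z (n 0 z (n 0 z (n 0 z (n 0 z (n 0 z
 z)))))) (n 1117 (n 0 z (n 0 z (n 0 z (n 0 z (n 0 z (n 0 z z)))))) z)) (n 0 (n 0 z z) (n 0 z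
 z)))) (n 0 (n 1 (n 2164283 z (n 2164283 z (n 2164283 z (n 2164283 z (n 2164283 z (n 2164283 z
 z)))))) (n 0 z z)) (n 0 z z)))) (n 0x475cba3a218640cbba0876ae81a3ac0 (n 0 (n 153 (n 0 z (n
 6623299 z (n 0 z (n 2 z (n 10 z z))))) (n 33 (n 6623299 z (n 0 z (n
 0x5aca8a604078007d77fb7ff8197e780f7f58197e782b7da7fd8018228007cd8198178107ff7ff82a7fe8057f97e67f67f87f18227fb7e382a7de8537c48017ee7fc84a7ef7f080a7e67bc7fe8438027fa0811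
 z (n 18 z (n 26 z (n 0 z (n 6623299 z (n 6623299 z (n
 0x1756208008008007ff7f480480e7f28137f67fc8218118017fa80081c7fc7e88027fb7fc8047f280d8018048327f68347e38227d77fe7e47f07e07e98018217f980a82a80f80082f7f77cb8097eb0051
 z (n 34 z z)))))))))) (n 129 (n 0 z (n
 0xe531881c96318007f280e8008097ff7c482e7d683a80f8068258008568007dd80180079583978c8017f183a7cd7eb80f8ca84672f7c38777d78ae7188466de8dd8008117998317528238479227b96de8e80091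
 z (n 3212843 z (n 4392491 z (n 0 z (n 0 z (n 0 z (n 0 z (n 0 z (n 0 z (n 0 z z))))))))))) (n 3
 (n 0 z (n 2164283 z z)) (n 1 (n 0 z (n 2164299 z (n 0 z (n 0 z (n 0 z (n 0 z z)))))) (n 0 (n
 6619675 z (n 6619675 z (n 6623299 z (n 42 z (n 0 z (n 0 z (n 0 z z))))))) z)))))) (n 3 (n 0 (n
 0 z (n 823 (n 0 z (n 0 z (n 0 z (n 0 z (n 0 z (n 0 z (n 0 z z))))))) (n 823 (n 0 z (n 0 z (n 0
 z (n 0 z (n 0 z (n 0 z (n 0 z z))))))) (n 823 (n 0 z (n 0 z (n 0 z (n 0 z (n 0 z (n 0 z (n 0 z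
 z))))))) (n 349 (n 0 z (n 0 z z)) z))))) (n 0 (n 583 (n 0 z (n 0 z (n 0 z (n 0 z z)))) (n 583
 (n 0 z (n 0 z (n 0 z (n 0 z z)))) (n 583 (n 0 z (n 0 z (n 0 z (n 0 z z)))) (n 305 (n 0 z (n 0 z
 (n 0 z (n 0 z (n 0 z (n 0 z (n 0 z (n 0 z (n 0 z (n 0 z (n 0 z z))))))))))) z)))) (n 0 (n 0 z
 (n 0 z (n 65 (n 0 z (n 0 z (n 0 z (n 0 z z)))) z))) (n 0 (n 0 z (n 61 (n 0 z (n 0 z (n 0 z (n 0
 z (n 0 z (n 0 z z)))))) z)) (n 0 (n 65 (n 0 z (n 0 z (n 0 z (n 0 z (n 0 z (n 0 z (n 0 z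
 z))))))) z) (n 0 z z)))))) (n 0 (n 0 z (n 1 (n 2164283 z (n 2164283 z (n 2164283 z (n 2164283 z
 (n 2164283 z (n 2164283 z z)))))) z)) (n 0 z z)))) (n 0x30769340537a6280 (n 0 (n 593 (n 6557731
 z (n 0 z (n 0 z (n 0 z (n 0 z (n 2 z (n 0 z (n 0 z (n 0 z z))))))))) (n 592 (n 6557731 z (n 0 z
 (n 0 z (n 0 z (n 0 z (n 0 z z)))))) (n 9 (n 0 z (n 0 z (n 3212843 z (n 0 z (n 0 z z))))) (n 3
 (n 0 z (n 0 z (n 2164283 z (n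
 0x163142050382ca4c802037e181f7a086082081f8208a082081f85f85e89f8208208217e081f85f8208218208208208601001
 z (n 0 z (n 2164283 z (n 0 z (n 10 z z)))))))) (n 1 (n 6557731 z (n 0 z (n 0 z (n 0 z (n 0 z (n
 18 z (n 0 z (n 0 z z)))))))) (n 0 (n 2164315 z (n 0 z (n 0 z z))) z)))))) (n 0 (n 0 (n 487 (n 0
 z (n 0 z (n 0 z (n 0 z (n 0 z (n 0 z (n 0 z (n 0 z (n 0 z (n 0 z (n 0 z z))))))))))) (n 489 (n
 0 z (n 0 z (n 0 z (n 0 z (n 0 z (n 0 z (n 0 z z))))))) z)) (n 0 (n 591 (n 0 z (n 0 z (n 0 z (n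
 0 z (n 0 z (n 0 z (n 0 z (n 0 z (n 0 z (n 0 z (n 0 z z))))))))))) z) (n 0 z z))) (n 0 (n 1 (n
 2164315 z (n 2164315 z (n 2164315 z (n 2164315 z (n 2164315 z (n 2164315 z z)))))) (n 0 z (n 0
 z z))) (n 0 z z)))) z)))))))))), by decide +kernel⟩
theorem i10456 : ∃ t, chkR KT RW t 10456 10466 = true := ⟨(n
 0x1654e82b5d70ad18c2d74d8345b235cd10ca658ca3ad0956d422995863b560968a04e8886595a81b5680 (n 0 (n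
 573 (n 6627379 z (n 2 z (n 0 z (n 0 z (n 0 z (n 10 z (n 6627379 z z))))))) (n 571 (n 18 z (n 26
 z (n 3278363 z (n 34 z (n 0 z (n 42 z z)))))) (n 572 (n 50 z (n 6636051 z (n 0 z (n 0 z (n 58 z
 (n 0 z (n 0 z (n 0 z z)))))))) (n 3 (n 66 z (n 74 z (n 6493483 z (n 82 z (n 0 z (n 90 z z))))))
 (n 1 (n 6636051 z (n 98 z (n 0 z (n 0 z (n 0 z (n 106 z (n 6636051 z z))))))) (n 0 (n 114 z (n
 6636051 z (n 0 z (n 0 z (n 122 z (n 0 z (n 0 z (n 0 z z)))))))) z)))))) (n 571 (n 0 (n 0 z (n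
 1149 (n 0 z (n 0 z (n 0 z (n 0 z (n 0 z (n 2 (n 0 z (n 0 z (n 0 z (n 2 (n 0 (n 8872531 z z) (n
 0 z (n 0 z (n 0 (n 8872531 z (n 8872531 z z)) (n 0 z (n 0 (n 8872531 z z) z)))))) (n 1 z (n 1 z
 (n 1 z (n 1 z (n 1 z (n 1 z (n 1 z (n 2 (n 0 (n 3524 z z) (n 0 z (n 0 z (n 0 (n 3524 z (n
 8660747 z z)) (n 0 z (n 0 (n 6563931 z z) z)))))) (n 1 z z))))))))))))) (n 0 z z))))))) (n 1149
 (n 0 z (n 0 z (n 2 (n 0 z (n 0 z (n 1 z (n 1 z (n 1 z (n 1 z (n 1 z (n 1 z (n 1 z (n 1 z (n 1 z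
 (n 1 z z)))))))))))) (n 0 z (n 0 z (n 0 z (n 0 z z))))))) (n 1149 (n 0 z (n 0 z (n 0 z (n 0 z
 (n 0 z (n 0 z (n 0 z z))))))) (n 1149 (n 0 z (n 0 z (n 0 z (n 0 z (n 0 z (n 0 z (n 0 z z)))))))
 (n 1145 (n 0 z (n 0 z (n 0 z (n 0 z z)))) (n 1145 (n 0 z (n 0 z (n 0 z (n 0 z z)))) (n 1169 (n
 0 z (n 0 z (n 0 z (n 0 z (n 0 z (n 0 z (n 0 z (n 0 z (n 0 z z))))))))) (n 1169 (n 0 z (n 0 z (n
 0 z (n 0 z (n 0 z (n 0 z (n 0 z (n 0 z (n 0 z z))))))))) (n 1169 (n 0 z (n 0 z (n 0 z (n 0 z (n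
 0 z (n 0 z (n 0 z (n 0 z (n 0 z z))))))))) (n 1169 (n 0 z (n 0 z (n 0 z (n 0 z (n 0 z (n 0 z (n
 0 z (n 0 z (n 0 z z))))))))) (n 339 (n 0 z (n 0 z (n 0 z (n 0 z (n 0 z (n 0 z z)))))) (n 339 (n
 0 z (n 0 z (n 0 z (n 0 z (n 0 z (n 0 z z)))))) (n 881 (n 0 z (n 0 z (n 0 z (n 0 z (n 0 z (n 0 z
 (n 0 z (n 0 z z)))))))) (n 881 (n 0 z (n 0 z (n 0 z (n 0 z (n 0 z (n 0 z (n 0 z (n 0 z
 z)))))))) z))))))))))))))) (n 0 (n 1115 (n 0 z (n 2 (n 0 z (n 0 z (n 0 z (n 2 (n 0 z (n 0 z (n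
 0 z (n 0 (n 4452 z (n 4452 z z)) (n 0 (n 8734267 z z) (n 0 (n 6621227 z z) z)))))) (n 1 z (n 1
 z (n 1 z (n 1 z (n 1 z (n 1 z (n 1 z (n 2 (n 0 z (n 0 z (n 0 z (n 0 (n 8872243 z (n 8872243 z
 z)) (n 0 (n 8872243 z z) (n 0 (n 8872243 z z) z)))))) (n 1 z z))))))))))))) (n 0 z (n 0 z (n 0
 z (n 0 z (n 0 z z))))))) (n 1115 (n 0 z (n 0 z (n 0 z (n 0 z (n 0 z (n 0 z (n 0 z z))))))) (n
 1115 (n 0 z (n 0 z (n 0 z (n 0 z (n 0 z (n 0 z (n 0 z z))))))) (n 1115 (n 0 z (n 0 z (n 0 z (n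
 0 z (n 0 z (n 0 z (n 0 z z))))))) (n 1113 (n 0 z (n 0 z (n 0 z (n 0 z (n 0 z z))))) (n 1113 (n
 0 z (n 0 z (n 0 z (n 0 z (n 0 z z))))) (n 1153 (n 0 z (n 0 z (n 0 z (n 0 z (n 0 z (n 2 (n 0 z
 (n 0 z (n 0 z (n 1 z (n 1 z (n 2 (n 0 z (n 0 z (n 0 z (n 0 (n 8873251 z (n 8873251 z z)) (n 0
 (n 8873251 z z) (n 0 (n 8873251 z z) z)))))) (n 1 z z))))))) (n 0 z z))))))) (n 1153 (n 0 z (n
 7754563 z (n 0 z (n 0 z (n 0 z (n 0 z (n 0 z z))))))) (n 1153 (n 0 z (n 0 z (n 0 z (n 0 z (n 0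
 z (n 0 z (n 0 z z))))))) (n 1153 (n 0 z (n 0 z (n 0 z (n 0 z (n 0 z (n 0 z (n 0 z z))))))) (n
 777 (n 0 z (n 0 z (n 0 z (n 0 z (n 0 z (n 0 z z)))))) (n 777 (n 0 z (n 0 z (n 0 z (n 0 z (n 0 z
 (n 0 z z)))))) (n 1105 (n 0 z (n 0 z (n 0 z (n 0 z (n 0 z (n 0 z (n 0 z (n 0 z (n 0 z (n 0 z (n
 0 z (n 0 z (n 0 z (n 0 z z)))))))))))))) (n 1105 (n 0 z (n 0 z (n 0 z (n 0 z (n 0 z (n 0 z (n 0
 z (n 0 z (n 0 z (n 0 z (n 0 z (n 0 z (n 0 z (n 0 z z)))))))))))))) z)))))))))))))) (n 0 (n 0 z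
 (n 0 z (n 0 z (n 1145 (n 0 z (n 0 z (n 2 (n 0 z (n 2 (n 0 z (n 0 (n 1948 z (n 8718123 z z)) (n
 0 z (n 0 z (n 0 (n 1948 z (n 8718123 z z)) (n 0 (n 1948 z (n 1948 z z)) z)))))) (n 1 z (n 2 (n
 0 z (n 0 (n 6637627 z z) (n 0 z (n 0 (n 1948 z (n 1948 z z)) (n 0 z (n 0 z z)))))) (n 2 (n 0 z
 (n 0 (n 8855811 z z) (n 0 z (n 0 (n 8855811 z (n 8855811 z z)) (n 0 (n 8855811 z z) (n 0 z
 z)))))) (n 2 (n 0 (n 2124 z z) (n 0 z (n 0 z (n 0 (n 2124 z (n 8718123 z z)) (n 0 z (n 0 (n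
 8660491 z z) z)))))) (n 2 (n 0 z (n 0 z (n 0 z (n 0 (n 8855811 z (n 8855811 z z)) (n 0 (n
 8855811 z z) (n 0 (n 8855811 z z) z)))))) (n 2 (n 0 (n 2116 z z) (n 0 z (n 0 (n 2116 z z) (n 0
 (n 2116 z (n 2116 z z)) (n 0 z (n 0 z z)))))) (n 2 (n 0 (n 2116 z (n 2116 z z)) (n 0 (n 6359099
 z (n 8718123 z z)) (n 0 z (n 0 z (n 0 (n 2116 z (n 2116 z z)) (n 0 (n 2116 z (n 8718123 z z))
 z)))))) z))))))))) (n 0 z (n 0 z z))))) (n 1145 (n 0 z (n 0 z (n 0 z (n 0 z (n 0 z z))))) (n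
 487 (n 0 z (n 0 z (n 0 z (n 0 z (n 0 z (n 0 z (n 0 z (n 0 z z)))))))) (n 487 (n 2 (n 0 z (n 0 z
 (n 1 z (n 1 z (n 1 z (n 1 z z)))))) (n 0 z (n 0 z (n 0 z (n 0 z (n 0 z (n 0 z (n 0 z z))))))))
 (n 487 (n 0 z (n 0 z (n 0 z (n 0 z (n 0 z (n 0 z (n 0 z (n 0 z z)))))))) (n 487 (n 0 z (n 0 z
 (n 0 z (n 0 z (n 0 z (n 0 z (n 0 z (n 2 (n 1 z (n 1 z (n 2 (n 0 z (n 0 (n 2116 z z) (n 0 z (n 0
 (n 8525627 z (n 8521499 z z)) (n 0 (n 53 z z) (n 0 z z)))))) (n 1 z z)))) z)))))))) (n 531 (n 0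
 z (n 0 z (n 0 z (n 0 z (n 0 z (n 0 z z)))))) (n 531 (n 0 z (n 0 z (n 0 z (n 0 z (n 2 (n 2 (n 0
 z (n 0 z (n 0 z (n 0 (n 8521499 z (n 8718123 z z)) (n 0 (n 101 z z) (n 0 (n 8660491 z z)
 z)))))) (n 1 z z)) (n 0 z z)))))) (n 529 (n 2 (n 0 z z) (n 0 z (n 0 z (n 0 z (n 0 z (n 0 z (n 0
 z (n 0 z z)))))))) (n 529 (n 0 z (n 0 z (n 0 z (n 0 z (n 0 z (n 0 z (n 0 z (n 0 z z))))))))
 z))))))))))))) (n 0 (n 0 z (n 0 z (n 885 (n 0 z (n 7741699 z (n 0 z (n 0 z (n 0 z (n 0 z (n 0 z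
 (n 0 z (n 0 z (n 0 z (n 0 z (n 0 z (n 0 z (n 0 z z)))))))))))))) (n 885 (n 0 z (n 0 z (n 0 z (n
 0 z (n 0 z (n 0 z (n 0 z (n 0 z (n 0 z (n 0 z (n 0 z (n 0 z (n 0 z (n 0 z z)))))))))))))) (n 7
 (n 2 (n 0 z (n 0 z (n 0 z (n 1 z (n 1 z (n 1 z (n 1 z z))))))) (n 0 z (n 0 z (n 0 z (n 0 z (n 0
 z (n 0 z (n 0 z (n 0 z (n 0 z (n 0 z (n 0 z (n 0 z (n 0 z (n 0 z (n 0 z (n 0 z (n 0 z (n 0 z (n
 0 z (n 0 z (n 0 z z)))))))))))))))))))))) (n 7 (n 0 z (n 0 z (n 0 z (n 0 z (n 0 z (n 0 z (n 0 z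
 (n 0 z (n 0 z (n 0 z (n 0 z (n 0 z (n 0 z (n 0 z (n 0 z (n 0 z (n 0 z (n 0 z (n 0 z (n 0 z (n 0
 z (n 0 z z)))))))))))))))))))))) (n 7 (n 0 z (n 0 z (n 0 z (n 0 z (n 0 z (n 0 z (n 0 z (n 0 z
 (n 0 z (n 0 z (n 0 z (n 0 z (n 0 z (n 0 z (n 0 z (n 0 z (n 0 z (n 0 z (n 0 z (n 0 z (n 0 z (n 0
 z z)))))))))))))))))))))) (n 7 (n 0 z (n 0 z (n 0 z (n 0 z (n 0 z (n 0 z (n 0 z (n 0 z (n 0 z
 (n 0 z (n 0 z (n 0 z (n 0 z (n 0 z (n 0 z (n 0 z (n 0 z (n 0 z (n 0 z (n 7741699 z (n 0 z (n 0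
 z z)))))))))))))))))))))) (n 3 (n 0 z (n 0 z (n 0 z (n 0 z (n 0 z (n 0 z (n 0 z (n 0 z (n 0 z
 z))))))))) (n 3 (n 0 z (n 0 z (n 0 z (n 0 z (n 0 z (n 0 z (n 0 z (n 0 z (n 7741699 z z)))))))))
 (n 1 (n 0 z (n 0 z (n 0 z (n 0 z (n 0 z (n 0 z (n 0 z (n 0 z (n 0 z (n 0 z (n 0 z (n 0 z (n 0 z
 (n 0 z (n 0 z (n 0 z (n 0 z z))))))))))))))))) (n 1 (n 0 z (n 0 z (n 0 z (n 0 z (n 0 z (n 0 z
 (n 0 z (n 0 z (n 7669275 z (n 0 z (n 0 z (n 0 z (n 0 z (n 0 z (n 0 z (n 0 z (n 0 z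
 z))))))))))))))))) z)))))))))))) (n 0 (n 0 z (n 1141 (n 0 z (n 0 z (n 0 z (n 0 z (n 0 z (n 0 z
 (n 0 z (n 0 z (n 0 z (n 0 z (n 0 z (n 0 z (n 0 z (n 0 z (n 0 z z))))))))))))))) (n 1141 (n 0 z
 (n 0 z (n 0 z (n 0 z (n 0 z (n 0 z (n 0 z (n 0 z (n 0 z (n 0 z (n 0 z (n 0 z (n 0 z (n 0 z (n 0
 z z))))))))))))))) (n 55 (n 0 z (n 0 z (n 0 z (n 0 z (n 0 z (n 0 z (n 0 z (n 0 z (n 0 z (n 0 z
 z)))))))))) (n 55 (n 0 z (n 0 z (n 0 z (n 0 z (n 0 z (n 0 z (n 0 z (n 0 z (n 0 z (n 0 z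
 z)))))))))) (n 55 (n 0 z (n 0 z (n 0 z (n 0 z (n 0 z (n 0 z (n 0 z (n 0 z (n 0 z (n 0 z
 z)))))))))) (n 55 (n 0 z (n 0 z (n 0 z (n 0 z (n 0 z (n 0 z (n 0 z (n 0 z (n 0 z (n 0 z
 z)))))))))) (n 51 (n 0 z (n 0 z (n 0 z (n 0 z (n 0 z (n 0 z (n 0 z z))))))) (n 51 (n 0 z (n 0 z
 (n 0 z (n 0 z (n 0 z (n 0 z (n 0 z z))))))) (n 49 (n 0 z (n 0 z (n 0 z (n 0 z (n 0 z (n 0 z (n
 0 z (n 0 z (n 0 z (n 0 z (n 0 z (n 0 z (n 0 z z))))))))))))) (n 49 (n 0 z (n 0 z (n 0 z (n 0 z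
 (n 0 z (n 0 z (n 0 z (n 0 z (n 0 z (n 0 z (n 0 z (n 0 z (n 0 z z))))))))))))) z))))))))))) (n 0
 (n 1125 (n 0 z (n 0 z z)) (n 1125 (n 0 z (n 0 z z)) (n 1165 (n 0 z (n 0 z (n 0 z (n 0 z (n 0 z
 (n 0 z (n 0 z (n 0 z (n 0 z (n 2 (n 0 z (n 0 z (n 0 z (n 1 z (n 1 z (n 2 (n 0 z (n 0 (n 8873251
 z z) (n 0 z (n 0 (n 8873251 z (n 8873251 z z)) (n 0 (n 8873251 z z) (n 0 z z)))))) (n 1 z
 z))))))) z)))))))))) (n 1165 (n 0 z (n 0 z (n 0 z (n 7754563 z (n 0 z (n 0 z (n 0 z (n 0 z (n 0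
 z (n 0 z z)))))))))) (n 1165 (n 0 z (n 0 z (n 0 z (n 0 z (n 0 z (n 0 z (n 0 z (n 0 z (n 0 z (n
 0 z z)))))))))) (n 1165 (n 0 z (n 0 z (n 0 z (n 0 z (n 0 z (n 0 z (n 0 z (n 0 z (n 0 z (n 0 z
 z)))))))))) (n 69 (n 0 z (n 0 z (n 0 z (n 0 z (n 0 z (n 0 z (n 0 z (n 0 z (n 0 z z))))))))) (n
 69 (n 0 z (n 0 z (n 0 z (n 0 z (n 0 z (n 0 z (n 0 z (n 0 z (n 0 z z))))))))) (n 1117 (n 0 z (n
 0 z (n 0 z (n 0 z (n 0 z (n 0 z (n 0 z (n 0 z z)))))))) (n 1117 (n 0 z (n 0 z (n 0 z (n 0 z (n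
 0 z (n 0 z (n 0 z (n 0 z z)))))))) z)))))))))) (n 0 (n 0 z (n 7 (n 2 (n 0 z (n 0 z (n 0 z (n 2
 (n 0 (n 12 z z) (n 0 z (n 0 z (n 0 (n 12 z (n 12 z z)) (n 0 z (n 0 (n 8717867 z z) z)))))) (n 2
 (n 0 z (n 0 z (n 0 z (n 0 (n 8790275 z (n 8790275 z z)) (n 0 (n 8790275 z z) (n 0 (n 8790275 z
 z) z)))))) (n 2 (n 0 (n 4 z z) (n 0 z (n 0 (n 4 z z) (n 0 (n 8718155 z (n 4 z z)) (n 0 z (n 0 z
 z)))))) (n 2 (n 0 (n 8872723 z (n 8872723 z z)) (n 0 (n 8872723 z (n 8872723 z z)) (n 0 z (n 0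
 z (n 0 (n 8872723 z (n 8872723 z z)) (n 0 (n 8872723 z (n 8872723 z z)) z)))))) z))))))) (n 0 z
 (n 0 z (n 0 z (n 0 z (n 0 z (n 0 z (n 0 z z)))))))) (n 7 (n 0 z (n 0 z (n 0 z (n 0 z (n 0 z (n
 0 z (n 0 z (n 0 z z)))))))) (n 7 (n 0 z (n 0 z (n 0 z (n 0 z (n 0 z (n 0 z (n 0 z (n 0 z
 z)))))))) (n 7 (n 0 z (n 0 z (n 0 z (n 0 z (n 0 z (n 0 z (n 0 z (n 0 z z)))))))) (n 3 (n 0 z (n
 0 z (n 0 z (n 0 z (n 0 z (n 0 z (n 0 z (n 0 z (n 0 z (n 0 z (n 0 z (n 0 z (n 0 z (n 0 z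
 z)))))))))))))) (n 3 (n 0 z (n 0 z (n 0 z (n 0 z (n 0 z (n 0 z (n 0 z (n 0 z (n 0 z (n 0 z (n 0
 z (n 0 z (n 0 z (n 0 z z)))))))))))))) (n 1 (n 0 z (n 0 z (n 0 z (n 0 z (n 0 z (n 0 z (n 0 z (n
 0 z (n 0 z (n 0 z (n 0 z z))))))))))) (n 1 (n 0 z (n 0 z (n 0 z (n 0 z (n 0 z (n 0 z (n 0 z (n
 0 z (n 0 z (n 0 z (n 0 z z))))))))))) z))))))))) (n 0 (n 1169 (n 0 z (n 0 z (n 0 z (n 0 z (n 0
 z (n 0 z (n 0 z (n 0 z (n 0 z (n 0 z (n 0 z (n 0 z (n 0 z (n 0 z (n 0 z (n 0 z (n 0 z (n 0 z (n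
 0 z (n 0 z z)))))))))))))))))))) (n 1169 (n 7746827 z (n 0 z (n 0 z (n 0 z (n 0 z (n 0 z (n 0 z
 (n 0 z (n 0 z (n 0 z (n 0 z (n 0 z (n 0 z (n 0 z (n 0 z (n 0 z (n 0 z (n 0 z (n 0 z (n 0 z
 z)))))))))))))))))))) (n 1169 (n 0 z (n 0 z (n 0 z (n 0 z (n 0 z (n 0 z (n 0 z (n 0 z (n 0 z (n
 0 z (n 0 z (n 0 z (n 0 z (n 0 z (n 0 z (n 0 z (n 0 z (n 0 z (n 0 z (n 0 z z))))))))))))))))))))
 (n 1169 (n 0 z (n 0 z (n 0 z (n 0 z (n 0 z (n 0 z (n 0 z (n 0 z (n 0 z (n 0 z (n 0 z (n 0 z (n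
 0 z (n 0 z (n 0 z (n 0 z (n 0 z (n 0 z (n 0 z (n 0 z z)))))))))))))))))))) (n 261 (n 0 z (n 0 z
 (n 0 z (n 0 z z)))) (n 261 (n 0 z (n 0 z (n 0 z (n 0 z z)))) (n 881 (n 0 z (n 0 z (n 0 z (n 0 z
 (n 0 z (n 0 z z)))))) (n 881 (n 0 z (n 0 z (n 0 z (n 0 z (n 0 z (n 0 z z)))))) z)))))))) (n 0
 (n 0 z (n 0 z (n 0 z (n 3 (n 0 z (n 0 z (n 0 z (n 0 z (n 0 z (n 0 z (n 0 z (n 0 z (n 0 z (n 2
 (n 0 z (n 2 (n 0 (n 8873251 z z) (n 0 z (n 0 z (n 0 (n 8873251 z (n 8873251 z z)) (n 0 z (n 0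
 (n 8873251 z z) z)))))) (n 1 z z))) (n 0 z (n 0 z (n 0 z (n 0 z (n 0 z (n 0 z (n 0 z (n 0 z (n
 0 z (n 0 z z)))))))))))))))))))) (n 3 (n 0 z (n 0 z (n 0 z (n 0 z (n 0 z (n 0 z (n 0 z (n 0 z
 (n 0 z (n 0 z (n 0 z (n 0 z (n 0 z (n 0 z (n 0 z (n 0 z (n 0 z (n 0 z (n 0 z (n 2 (n 2 (n 0 z
 (n 0 z (n 0 z (n 0 (n 8521499 z (n 8718123 z z)) (n 0 (n 101 z z) (n 0 (n 4 z z) z)))))) (n 1 z
 z)) z)))))))))))))))))))) (n 1 (n 0 z (n 0 z (n 2 (n 0 z z) (n 0 z (n 0 z z))))) (n 1 (n 0 z (n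
 0 z (n 0 z (n 0 z (n 0 z z))))) z))))))) (n 0 (n 0 z (n 0 z (n 255 (n 0 z (n 0 z (n 0 z (n 0 z
 (n 0 z (n 2 (n 0 z (n 1 z (n 1 z z))) (n 0 z z))))))) (n 255 (n 0 z (n 0 z (n 0 z (n 0 z (n 0 z
 (n 0 z (n 0 z z))))))) (n 253 (n 0 z (n 7754563 z (n 0 z (n 0 z (n 0 z (n 0 z (n 0 z (n 0 z (n
 0 z (n 0 z (n 0 z (n 0 z (n 0 z (n 0 z z)))))))))))))) (n 253 (n 0 z (n 0 z (n 0 z (n 0 z (n 0
 z (n 0 z (n 0 z (n 0 z (n 0 z (n 0 z (n 0 z (n 0 z (n 0 z (n 0 z z)))))))))))))) z)))))) (n 0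
 (n 0 z (n 9 (n 0 z (n 0 z (n 0 z (n 0 z (n 0 z (n 0 z (n 0 z z))))))) (n 9 (n 0 z (n 0 z (n 0 z
 (n 0 z (n 0 z (n 0 z (n 0 z z))))))) (n 5 (n 0 z (n 0 z (n 0 z (n 0 z (n 0 z (n 0 z (n 0 z (n 0
 z (n 0 z (n 0 z (n 0 z (n 0 z (n 0 z (n 0 z (n 0 z z))))))))))))))) (n 5 (n 0 z (n 0 z (n 0 z
 (n 0 z (n 0 z (n 0 z (n 0 z (n 0 z (n 0 z (n 0 z (n 0 z (n 0 z (n 0 z (n 0 z (n 0 z
 z))))))))))))))) z))))) (n 0 (n 15 (n 0 z (n 0 z (n 0 z (n 0 z (n 0 z (n 0 z (n 0 z z))))))) (n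
 15 (n 0 z (n 0 z (n 0 z (n 0 z (n 0 z (n 0 z (n 0 z z))))))) (n 13 (n 0 z (n 0 z z)) (n 13 (n 0
 z (n 0 z z)) z)))) (n 0 (n 0 z (n 1 (n 0 z (n 0 z (n 0 z (n 0 z z)))) (n 1 (n 0 z (n 0 z (n 0 z
 (n 0 z z)))) z))) (n 0 (n 25 (n 0 z (n 0 z (n 0 z (n 0 z (n 0 z z))))) (n 25 (n 0 z (n 0 z (n 0
 z (n 0 z (n 0 z z))))) z)) (n 0 (n 0 z z) (n 0 z z)))))))))))))))) (n 0 (n 1 (n 4331019 z (n
 6628123 z (n 6636051 z (n 4588 z (n 4588 z (n 4588 z z)))))) (n 1 (n 6628123 z (n 4588 z (n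
 6636051 z (n 4588 z (n 4588 z (n 4588 z z)))))) (n 1 (n 3278363 z (n 6628123 z (n 6636051 z (n
 3278363 z (n 3278363 z (n 3278363 z z)))))) (n 1 (n 4588 z (n 4 z (n 6636051 z (n 4588 z (n
 6628123 z (n 4588 z z)))))) (n 0 z (n 1 (n 4588 z (n 6628123 z (n 6636051 z (n 4588 z (n 4580 z
 (n 4588 z z)))))) z)))))) (n 0 z z)))) (n 0x3691b1b409 (n 0 (n 323 (n 0 z (n 0 z (n 0 z (n 0 z
 (n 6623299 z z))))) (n 317 (n 0 z (n 2 z (n 6623299 z (n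
 0x2ca8ca80037df82082082082086079f7e082086081f7e08618208208207e082081f8208208208208218200801 z
 z)))) (n 9 (n 0 z (n 0 z (n 0 z (n 6562059 z (n 0 z z))))) (n 3 (n 0 z (n 6567179 z (n 0 z (n 0
 z (n 0 z z))))) (n 1 (n 0 z (n 0 z (n 0 z (n 6562059 z (n 0 z (n 0 z (n 0 z (n 0 z (n 0 z
 z))))))))) (n 0 (n 10 z (n 0 z (n
 0x2c86c862037e082082086081f82079f8208208207e082086181f7df8207e08208208208218608207e18210801 z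
 (n 6623299 z (n 0 z (n 0 z (n 0 z z))))))) z)))))) (n 317 (n 0 (n 241 (n 0 z (n 0 z (n 0 z (n 0
 z (n 0 z (n 0 z (n 0 z z))))))) z) (n 0 z z)) (n 0 (n 0 z (n 1 (n 6562059 z (n 2588 z (n 2588 z
 (n 2588 z (n 2588 z (n 2588 z z)))))) (n 1 (n 6623299 z (n 6623299 z (n 6623299 z (n 6623299 z
 (n 6623299 z (n 6623299 z z)))))) (n 1 (n 2588 z (n 2588 z (n 2588 z (n 2588 z (n 6562059 z (n
 2588 z z)))))) z)))) (n 0 z z)))) (n 0xad95442daa1351db4329a81a6ca09c763640 (n 0 (n 323 (n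
 6623299 z (n 0 z (n 2 z (n 0 z (n 0 z (n 0 z (n 0 z (n 0 z (n 0 z (n 0 z z)))))))))) (n 317 (n
 0 z (n 0 z (n 0 z (n 0 z (n 6623299 z (n 0 z (n 0 z (n
 0x16c86c40a03016536504038332a329180c19509944c0e02ca8ca80030465365300380b29b21801c1190d90800e06ca6c64003808b808b7e8881948783805d9672a971817f89688581888b8990777c6e9a5b7c8b7989637581747c8888877c96788ba5817e4809
 z (n 0 z (n 0 z (n 0 z (n 0 z (n 0 z (n 0 z z)))))))))))))) (n 9 (n 0 z (n 6562059 z (n 0 z (n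
 0x6329298a00c114c594100604ca6a20807036545413018232a328181c1950d8c840e02ca8ca80030365365300381329b21801c0194d94400e06ca8a82007867d808785837e85847e836e8b878c7e79828372807e8a8487807b7f73886b83897881747a7f7d7d8b8b867c897881967f835809
 z (n 0 z (n 0 z (n 0 z (n 0 z (n 0 z (n 0 z (n 0 z z))))))))))) (n 123 (n 10 z (n 0 z (n 0 z (n
 18 z (n 0 z (n 0 z (n 26 z (n 0 z (n 0 z (n 2164283 z z)))))))))) (n 1 (n 6562059 z (n 0 z z))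
 (n 0 (n 34 z (n 0 z (n 0 z (n 0 z (n 6623299 z (n 42 z (n 0 z (n 50 z (n 0 z z))))))))) z))))))
 (n 1 (n 0 (n 645 (n 0 z (n 0 z (n 0 z (n 0 z (n 0 z (n 0 z (n 0 z z))))))) (n 645 (n 0 z (n 0 z
 (n 0 z (n 0 z (n 0 z (n 0 z (n 0 z z))))))) (n 645 (n 0 z (n 0 z (n 0 z (n 0 z (n 0 z (n 0 z (n
 0 z z))))))) (n 241 (n 0 z (n 0 z (n 0 z (n 0 z (n 0 z (n 0 z (n 0 z z))))))) (n 241 (n 0 z (n
 0 z (n 0 z (n 0 z (n 0 z (n 0 z (n 0 z z))))))) (n 241 (n 0 z (n 0 z (n 0 z (n 0 z (n 0 z (n 0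
 z (n 0 z z))))))) z)))))) (n 0 (n 0 z (n 0 z (n 653 (n 0 z (n 0 z (n 0 z (n 0 z (n 0 z (n 0 z
 (n 0 z (n 0 z (n 0 z (n 0 z (n 0 z z))))))))))) (n 653 (n 0 z (n 0 z (n 0 z (n 0 z (n 0 z (n 0
 z (n 0 z (n 0 z (n 0 z (n 0 z (n 0 z z))))))))))) (n 653 (n 0 z (n 0 z (n 0 z (n 0 z (n 0 z (n
 0 z (n 0 z (n 0 z (n 0 z (n 0 z (n 0 z z))))))))))) z))))) (n 0 (n 0 z (n 241 (n 0 z (n 0 z (n
 0 z (n 0 z (n 0 z (n 0 z (n 0 z (n 0 z (n 0 z z))))))))) (n 241 (n 0 z (n 0 z (n 0 z (n 0 z (n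
 0 z (n 0 z (n 0 z (n 0 z (n 0 z z))))))))) (n 241 (n 0 z (n 0 z (n 0 z (n 0 z (n 0 z (n 0 z (n
 0 z (n 0 z (n 0 z z))))))))) z)))) (n 0 (n 253 (n 0 z (n 0 z (n 0 z (n 0 z (n 0 z (n 0 z
 z)))))) (n 253 (n 0 z (n 0 z (n 0 z (n 0 z (n 0 z (n 0 z z)))))) (n 253 (n 0 z (n 0 z (n 0 z (n
 0 z (n 0 z (n 0 z z)))))) z))) (n 0 (n 0 z (n 0 z z)) (n 0 (n 0 z z) (n 0 z z))))))) (n 0 (n 1
 (n 6562059 z (n 6562059 z (n 6623299 z (n 6562059 z (n 6562059 z (n 6562059 z z)))))) (n 0 z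
 z)) (n 0 z z)))) (n 0x6c6ca21a550ceb68294359111660a53308291670a4c342261a40 (n 0 (n 453 (n
 3282443 z (n 2 z (n 0 z z))) (n 437 (n
 0x8ca8a804037e585e82579f7d58068457bd82180a79b7d28288408687e77ca80f7c37fd8187e28417ce8127ac8037e57e881d7de8527c08237c57d581a7d48108097b785a7d18088068088207e47f67f60811
 z (n 0 z (n 6627651 z (n 0 z (n 0 z (n 0 z (n 0 z (n 0 z (n 10 z (n 0 z (n 18 z z))))))))))) (n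
 436 (n 26 z (n 6627651 z (n 0 z (n 6627651 z (n 0 z (n 0 z (n 0 z (n 0 z (n 0 z (n 6627651 z
 z)))))))))) (n 3 (n 34 z (n 2164283 z (n 42 z z))) (n 1 (n 0 z (n 0 z (n 6554139 z (n 0 z (n 0
 z z))))) (n 0 (n 50 z (n 0 z (n 58 z (n 66 z (n 0 z (n 0 z (n 6627651 z (n 74 z z))))))))
 z)))))) (n 453 (n 0 (n 143 (n 0 z (n 0 z (n 0 z (n 0 z (n 0 z z))))) (n 143 (n 0 z (n 0 z (n 0
 z (n 0 z (n 0 z z))))) (n 135 (n 0 z (n 0 z (n 0 z (n 0 z (n 0 z (n 0 z (n 0 z (n 0 z (n 0 z (n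
 0 z (n 0 z (n 0 z (n 0 z (n 0 z (n 0 z (n 0 z (n 0 z z))))))))))))))))) (n 45 (n 0 z (n 0 z (n
 0 z (n 0 z z)))) (n 45 (n 0 z (n 7680355 z (n 0 z (n 0 z z)))) (n 101 (n 0 z (n 0 z (n 0 z (n 0
 z z)))) (n 101 (n 0 z (n 0 z (n 2 (n 0 z (n 0 z z)) (n 0 z z)))) (n 101 (n 0 z (n 0 z (n 0 z (n
 0 z z)))) (n 101 (n 0 z (n 0 z (n 0 z (n 0 z z)))) z))))))))) (n 0 (n 0 z (n 375 (n 0 z (n 0 z
 (n 0 z (n 0 z (n 0 z (n 0 z (n 0 z (n 0 z (n 0 z (n 0 z (n 0 z z))))))))))) (n 55 (n 0 z (n 0 z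
 (n 0 z (n 0 z z)))) (n 55 (n 0 z (n 0 z (n 7546443 z (n 0 z z)))) (n 793 (n 0 z (n 0 z (n 0 z
 (n 0 z (n 0 z z))))) (n 793 (n 0 z (n 0 z (n 0 z (n 0 z (n 0 z z))))) (n 793 (n 0 z (n 0 z (n 0
 z (n 0 z (n 0 z z))))) (n 793 (n 0 z (n 0 z (n 0 z (n 0 z (n 0 z z))))) z)))))))) (n 0 (n 381
 (n 0 z (n 0 z (n 0 z (n 0 z z)))) (n 469 (n 0 z (n 0 z (n 2 (n 0 z (n 1 z (n 1 z (n 1 z (n 1 z
 z))))) z))) (n 469 (n 2 (n 1 z (n 1 z (n 1 z (n 2 (n 0 z (n 0 (n 3508 z (n 3508 z z)) (n 0 (n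
 3508 z (n 3508 z z)) (n 0 z (n 0 z (n 0 (n 3508 z (n 7750531 z z)) z)))))) z)))) (n 0 z (n 0 z
 z))) (n 877 (n 2 (n 0 z (n 0 z (n 0 z z))) (n 0 z (n 0 z (n 0 z (n 0 z (n 0 z (n 0 z (n 0 z
 z)))))))) (n 877 (n 0 z (n 0 z (n 0 z (n 0 z (n 0 z (n 0 z (n 0 z (n 0 z z)))))))) (n 877 (n 0
 z (n 0 z (n 0 z (n 0 z (n 0 z (n 0 z (n 0 z (n 0 z z)))))))) (n 877 (n 0 z (n 0 z (n 0 z (n 0 z
 (n 0 z (n 0 z (n 0 z (n 0 z z)))))))) z))))))) (n 0 (n 299 (n 0 z (n 0 z (n 0 z (n 0 z (n 0 z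
 (n 0 z (n 0 z (n 0 z (n 0 z (n 0 z z)))))))))) (n 299 (n 0 z (n 0 z (n 0 z (n 0 z (n 0 z (n 0 z
 (n 0 z (n 0 z (n 0 z (n 0 z z)))))))))) (n 289 (n 0 z (n 0 z (n 0 z (n 0 z (n 0 z (n 0 z (n 0 z
 (n 0 z (n 0 z (n 0 z (n 0 z (n 0 z (n 0 z (n 0 z (n 0 z (n 0 z (n 0 z (n 0 z (n 0 z (n 0 z (n 0
 z z))))))))))))))))))))) (n 289 (n 0 z (n 0 z (n 0 z (n 0 z (n 2 (n 0 z (n 0 z z)) (n 0 z (n 0
 z (n 0 z (n 0 z (n 0 z (n 0 z (n 0 z (n 0 z (n 0 z (n 0 z (n 0 z (n 0 z (n 0 z (n 0 z (n 0 z (n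
 0 z z))))))))))))))))))))) (n 289 (n 0 z (n 0 z (n 0 z (n 0 z (n 0 z (n 0 z (n 0 z (n 0 z (n 0
 z (n 0 z (n 0 z (n 0 z (n 0 z (n 0 z (n 0 z (n 0 z (n 0 z (n 0 z (n 0 z (n 0 z (n 0 z
 z))))))))))))))))))))) (n 289 (n 0 z (n 0 z (n 0 z (n 0 z (n 0 z (n 0 z (n 0 z (n 0 z (n 0 z (n
 0 z (n 0 z (n 0 z (n 0 z (n 0 z (n 0 z (n 0 z (n 0 z (n 0 z (n 0 z (n 0 z (n 0 z
 z))))))))))))))))))))) z)))))) (n 0 (n 0 z (n 253 (n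
 0xeea8c824078247af7bc8518477fd7c78717ce7f38388657967ea73582b8837e283a8277d58127718508008707ff83f8467c18427f98247c87fe7ee7eb7af8258198317da81981780980c83a8027c18280811
 z (n
 0x865265140180f3aa320901c001a90800173000066400064c80005388001a6107d98dd87274b7947fa85375485383a70f7438d888c98d79e6c98647b37bf84a7ed91276d7d873080078877f85078e7d87ce8298217e581c8968257b27eb87f7bd7e97c082f7a48068347ce1191
 z (n 0 z (n 0 z (n 0 z (n 0 z (n 0 z (n 0 z (n 0 z (n 0 z (n 0 z z))))))))))) (n 253 (n 0 z (n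
 0 z (n 0 z (n 0 z (n 0 z (n 2 (n 0 z (n 0 z z)) (n 0 z (n 0 z (n 0 z (n 0 z (n 0 z z)))))))))))
 (n 253 (n 0 z (n 0 z (n 0 z (n 0 z (n 0 z (n 0 z (n 0 z (n 0 z (n 0 z (n 0 z (n 0 z
 z))))))))))) (n 253 (n 0 z (n 0 z (n 0 z (n 0 z (n 0 z (n 0 z (n 0 z (n 0 z (n 0 z (n 0 z (n 0
 z z))))))))))) z))))) (n 0 (n 13 (n 0 z (n 0 z (n 0 z (n 0 z (n 0 z (n 0 z (n 0 z (n 0 z (n 0 z
 (n 0 z (n 0 z (n 0 z (n 0 z (n 0 z z)))))))))))))) (n 13 (n 0 z (n 0 z (n 0 z (n 0 z (n 0 z (n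
 0 z (n 0 z (n 2 (n 0 z (n 0 z z)) (n 0 z (n 0 z (n 0 z (n 0 z (n 0 z (n 0 z z)))))))))))))) (n
 13 (n 0 z (n 0 z (n 0 z (n 0 z (n 0 z (n 0 z (n 0 z (n 0 z (n 0 z (n 0 z (n 0 z (n 0 z (n 0 z
 (n 0 z z)))))))))))))) (n 13 (n 0 z (n 0 z (n 0 z (n 0 z (n 0 z (n 0 z (n 0 z (n 0 z (n 0 z (n
 0 z (n 0 z (n 0 z (n 0 z (n 0 z z)))))))))))))) z)))) (n 0 (n 0 z (n 0 z (n 0 z z))) (n 0 (n 0
 z (n 0 z z)) (n 0 (n 0 z z) (n 0 z z)))))))))) (n 0 (n 1 (n 3282443 z (n 3282443 z (n 3282443 z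
 (n 3282443 z (n 3282443 z (n 3282443 z z)))))) (n 1 (n 5443683 z (n 12 z (n 3278411 z (n 3500 z
 (n 3500 z (n 3500 z z)))))) (n 0 z z))) (n 0 z z)))) (n
 0x6b14a2b715126d68463560b148641729a8514d60862318135880 (n 0 (n 453 (n 6623283 z (n 0 z (n 2 z
 (n 10 z (n 0 z (n 0 z (n 0 z z))))))) (n 451 (n 6623283 z (n 0 z (n
 0x1aca8ca60077027c38047b18997708717689227699f08348446d57fe7888ac7178c49377327bc7908f18a18287ec8af80994d7a57548137086aa85c6e990488a70289f90f7c68bc8547cb85c8b48b68330811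
 z (n
 0x196438028008008067fa8067fa8067f48068087f28027f281e7f07fc8048077d28218018107f27f68047ee80e8008007fc8118127ef80f7fa8088078048067f58087f77f77fa8007ef8087fb7ff0051
 z (n 18 z (n 6623283 z (n 0 z (n 0 z (n 0 z (n 6623283 z (n 0 z z))))))))))) (n 452 (n 3212843
 z (n 0 z (n 0 z (n 26 z (n 0 z (n 34 z z)))))) (n 3 (n 6566155 z (n 0 z (n 0 z z))) (n 1 (n
 6566155 z (n 0 z (n 0 z (n 42 z (n 0 z z))))) (n 0 (n 6623283 z (n 50 z (n 0 z (n 6623283 z (n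
 0x196108028008008067fa8067fa8067f48068087f28027f281e7f07fc8048077d28218018107f27f68047ee80e8008007fc8118127ef80f7fa8088078048067f58087f77f77fa8007ef8087fb7ff0051
 z (n 0 z (n 58 z (n 66 z (n 0 z (n 74 z z)))))))))) z)))))) (n 3 (n 0 (n 0 z (n 909 (n 0 z (n 0
 z (n 0 z (n 0 z (n 0 z (n 0 z (n 0 z (n 0 z (n 0 z z))))))))) (n 905 (n 0 z (n 0 z (n 0 z (n 0
 z (n 0 z (n 0 z (n 0 z (n 0 z (n 0 z z))))))))) (n 905 (n 0 z (n 0 z (n 0 z (n 7476795 z (n 0 z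
 (n 0 z (n 0 z (n 0 z (n 0 z z))))))))) (n 809 (n 0 z (n 0 z (n 0 z (n 0 z (n 0 z (n 0 z z))))))
 (n 881 (n 0 z (n 0 z (n 0 z (n 0 z (n 0 z (n 0 z z)))))) (n 881 (n 0 z (n 0 z (n 0 z (n 0 z (n
 0 z (n 0 z z)))))) (n 881 (n 0 z (n 0 z (n 0 z (n 0 z (n 0 z (n 0 z z)))))) (n 881 (n 0 z (n 0
 z (n 0 z (n 0 z (n 0 z (n 0 z z)))))) z))))))))) (n 0 (n 875 (n 0 z (n 0 z (n 0 z (n 0 z (n 0 z
 (n 0 z (n 0 z (n 0 z (n 0 z z))))))))) (n 873 (n 0 z (n 2 (n 0 z (n 1 z (n 1 z (n 1 z (n 1 z (n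
 1 z z)))))) (n 0 z (n 0 z (n 0 z (n 0 z (n 0 z (n 0 z (n 0 z z))))))))) (n 873 (n 0 z (n 0 z (n
 0 z (n 0 z (n 0 z (n 2 (n 1 z (n 1 z (n 1 z (n 2 (n 0 (n 2980 z (n 2980 z z)) (n 0 z (n 0 (n
 2980 z (n 7746179 z z)) (n 0 z (n 0 z (n 0 (n 2980 z (n 2980 z z)) z)))))) (n 1 z z))))) (n 0 z
 (n 0 z (n 0 z z))))))))) (n 729 (n 0 z (n 0 z (n 0 z (n 0 z z)))) (n 745 (n 0 z (n 0 z (n 0 z
 (n 0 z (n 0 z (n 0 z (n 0 z (n 0 z (n 0 z (n 0 z (n 0 z (n 0 z (n 0 z z))))))))))))) (n 745 (n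
 0 z (n 0 z (n 0 z (n 0 z (n 0 z (n 0 z (n 0 z (n 0 z (n 0 z (n 0 z (n 0 z (n 0 z (n 2 (n 0 z (n
 0 z z)) z))))))))))))) (n 745 (n 0 z (n 0 z (n 0 z (n 0 z (n 0 z (n 0 z (n 0 z (n 0 z (n 0 z (n
 0 z (n 0 z (n 0 z (n 0 z z))))))))))))) (n 745 (n 0 z (n 0 z (n 0 z (n 0 z (n 0 z (n 0 z (n 0 z
 (n 0 z (n 0 z (n 0 z (n 0 z (n 0 z (n 0 z z))))))))))))) z)))))))) (n 0 (n 901 (n 0 z (n 0 z (n
 0 z (n 0 z (n 0 z (n 0 z (n 0 z (n 0 z (n 0 z (n 0 z z)))))))))) (n 901 (n 0 z (n 0 z (n 0 z (n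
 0 z (n 0 z (n 0 z (n 0 z (n 0 z (n 0 z (n 0 z z)))))))))) (n 63 (n 0 z (n 0 z (n 0 z (n 0 z (n
 0 z (n 0 z (n 0 z (n 0 z (n 0 z (n 0 z z)))))))))) (n 61 (n 0 z (n 2 (n 0 z (n 0 z (n 0 z z)))
 (n 0 z (n 0 z (n 0 z z))))) (n 61 (n 0 z (n 0 z (n 0 z (n 0 z (n 0 z z))))) (n 61 (n 0 z (n 0 z
 (n 0 z (n 0 z (n 0 z z))))) (n 61 (n 0 z (n 0 z (n 0 z (n 0 z (n 0 z z))))) z))))))) (n 0 (n 0
 z (n 255 (n 0 z (n 0 z (n 0 z (n 0 z (n 0 z (n 0 z (n 0 z z))))))) (n 253 (n 0 z (n 0 z (n 0 z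
 (n 2 (n 0 z (n 0 z (n 0 z z))) (n 0 z (n 0 z (n 0 z z))))))) (n 253 (n 0 z (n 0 z (n 0 z (n 0 z
 (n 0 z (n 0 z (n 0 z z))))))) (n 253 (n 0 z (n 0 z (n 0 z (n 0 z (n 0 z (n 0 z (n 0 z z)))))))
 (n 253 (n 0 z (n 0 z (n 0 z (n 0 z (n 0 z (n 0 z (n 0 z z))))))) z)))))) (n 0 (n 261 (n 0 z (n
 0 z (n 0 z (n 0 z (n 0 z (n 6627443 z (n 0 z (n 0 z z)))))))) (n 257 (n 0 z (n 0 z (n 0 z (n 0
 z (n 0 z (n 0 z (n 2 (n 0 z (n 0 z (n 0 z z))) (n 0 z (n 0 z z))))))))) (n 257 (n 0 z (n 0 z (n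
 0 z (n 0 z (n 0 z (n 0 z (n 0 z (n 0 z (n 0 z z))))))))) (n 257 (n 0 z (n 0 z (n 0 z (n 0 z (n
 0 z (n 0 z (n 0 z (n 0 z (n 0 z z))))))))) (n 257 (n 0 z (n 0 z (n 0 z (n 0 z (n 0 z (n 0 z (n
 0 z (n 0 z (n 0 z z))))))))) z))))) (n 0 (n 1 (n 0 z (n 0 z (n 0 z (n 0 z (n 2 (n 0 z (n 0 z (n
 0 z z))) (n 0 z (n 0 z z))))))) (n 1 (n 0 z (n 0 z (n 0 z (n 0 z (n 0 z (n 0 z (n 0 z z)))))))
 (n 1 (n 0 z (n 0 z (n 0 z (n 0 z (n 0 z (n 0 z (n 0 z z))))))) (n 1 (n 0 z (n 0 z (n 0 z (n 0 z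
 (n 0 z (n 0 z (n 0 z z))))))) z)))) (n 0 (n 0 z (n 0 z (n 0 z z))) (n 0 (n 0 z (n 0 z z)) (n 0
 (n 0 z z) (n 0 z z)))))))))) (n 0 (n 1 (n 6566155 z (n 6623283 z (n 6566155 z (n 6566155 z (n
 6566155 z (n 6566155 z z)))))) (n 0 z (n 0 z z))) (n 0 z z)))) (n 0 (n 0 (n 593 (n 0 z (n
 6557731 z (n 0 z (n 0 z (n 0 z (n 0 z (n 0 z (n 0 z (n 0 z (n 0 z (n 0 z z))))))))))) (n 592 (n
 6557731 z (n 0 z (n 0 z z))) (n 9 (n 0 z (n 0 z (n 0 z (n 6497307 z (n 0 z (n 0 z (n 0 z (n 0 z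
 (n 0 z (n 0 z z)))))))))) (n 3 (n 0 z (n 0 z (n 6497307 z (n 0 z (n 0 z (n 0 z (n 0 z (n 0 z
 z)))))))) (n 1 (n 0 z (n 6557731 z (n 0 z (n 0 z (n 0 z (n 0 z (n 0 z z))))))) (n 0 (n 6635827
 z (n 0 z (n 0 z z))) z)))))) (n 592 z (n 0 (n 1 (n 6557731 z (n 6557731 z (n 6557731 z (n
 6557731 z (n 6557731 z (n 6557731 z z)))))) (n 0 z (n 0 z z))) (n 0 z z)))) (n
 0x536b423a4a83714886d596144e283545d112c5610a52865268125d411 (n 0 (n 441 (n 0 z (n 3282443 z z))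
 (n 555 (n 2 z (n 0 z (n 0 z (n 10 z (n 18 z (n 0 z (n 3278363 z (n 0 z (n 26 z z))))))))) (n 9
 (n 0 z (n 0 z (n 34 z (n 0 z (n 0 z (n 42 z (n 0 z (n 3212843 z (n 0 z (n 0 z (n 0 z
 z))))))))))) (n 3 (n 50 z (n 58 z (n 0 z (n 0 z (n 0 z (n 6636323 z z)))))) (n 1 (n 0 z (n 66 z
 (n 0 z (n 0 z (n 0 z (n 6636323 z (n 0 z (n
 0x6654531201801b29b29880c002318800551080b80e7c184c79489b8047e28427f779e84b83182480d79b7dc7e57df83d88681c7fe7707ce7e67978668067fc83b7c483773a7ef81f9448657497dd6c198d7308736e87cf77d86a8607ca1091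
 z (n 0 z z))))))))) (n 0 (n 0 z (n 0 z (n 74 z (n 0 z (n 82 z (n 0 z (n 6636323 z (n 0 z (n 0 z
 (n 6636323 z (n 0 z z))))))))))) z)))))) (n 441 (n 0 (n 0 z (n 0 z (n 0 z (n 1107 (n 0 z (n 0 z
 (n 0 z (n 0 z (n 0 z (n 0 z (n 0 z (n 0 z z)))))))) (n 1107 (n 0 z (n 0 z (n 0 z (n 0 z (n 0 z
 (n 2 (n 1 z (n 1 z (n 1 z (n 1 z (n 1 z z))))) (n 0 z (n 0 z z)))))))) (n 55 (n 0 z (n 0 z (n 0
 z (n 0 z (n 0 z (n 0 z (n 0 z z))))))) (n 55 (n 0 z (n 0 z (n 0 z (n 0 z (n 2 (n 1 z (n 1 z (n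
 2 (n 0 (n 8847899 z z) (n 0 z (n 0 (n 8847899 z (n 8734475 z z)) (n 0 z (n 0 (n 8847899 z z) (n
 0 z z)))))) z))) (n 0 z (n 0 z z))))))) (n 51 (n 0 z (n 0 z (n 0 z (n 0 z (n 0 z (n 0 z (n 0 z
 z))))))) (n 53 (n 0 z (n 0 z (n 0 z (n 0 z (n 0 z (n 0 z z)))))) (n 53 (n 0 z (n 0 z (n 0 z (n
 2 z (n 0 z (n 0 z z)))))) z)))))))))) (n 0 (n 0 z (n 0 z (n 31 (n 0 z (n 0 z (n 0 z (n 0 z (n 0
 z (n 0 z (n 0 z (n 0 z (n 0 z (n 0 z (n 0 z (n 0 z (n 0 z (n 0 z (n 0 z (n 0 z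
 z)))))))))))))))) (n 31 (n 0 z (n 0 z (n 0 z (n 0 z (n 0 z (n 2 (n 1 z (n 1 z (n 1 z (n 1 z (n
 1 z z))))) (n 0 z (n 0 z (n 0 z (n 0 z (n 0 z (n 0 z (n 0 z (n 0 z (n 0 z (n 0 z
 z)))))))))))))))) (n 7 (n 0 z (n 0 z (n 0 z (n 0 z (n 0 z (n 0 z (n 0 z z))))))) (n 7 (n 0 z (n
 0 z (n 0 z (n 2 (n 1 z (n 1 z (n 1 z z))) (n 0 z (n 0 z (n 0 z z))))))) (n 3 (n 0 z (n 0 z (n 0
 z (n 0 z (n 0 z (n 0 z (n 0 z (n 0 z (n 0 z (n 0 z z)))))))))) (n 5 (n 0 z (n 0 z (n 0 z (n 0 z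
 (n 0 z (n 0 z (n 0 z (n 0 z (n 0 z (n 0 z (n 0 z z))))))))))) (n 5 (n 0 z (n 0 z (n 0 z (n 0 z
 (n 0 z (n 0 z (n 0 z (n 0 z (n 0 z (n 0 z (n 0 z z))))))))))) z))))))))) (n 0 (n 0 z (n 1107 (n
 0 z (n 0 z (n 0 z (n 0 z (n 0 z (n 0 z (n 0 z (n 0 z (n 0 z z))))))))) (n 1107 (n 0 z (n 2 (n 1
 z (n 1 z (n 1 z (n 1 z (n 1 z z))))) (n 0 z (n 0 z (n 0 z (n 0 z (n 0 z (n 0 z (n 0 z
 z))))))))) (n 75 (n 0 z (n 0 z (n 0 z (n 0 z (n 0 z (n 0 z (n 0 z (n 0 z z)))))))) (n 75 (n 0 z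
 (n 0 z (n 0 z (n 0 z (n 2 (n 1 z (n 1 z (n 2 (n 0 (n 8872003 z z) (n 0 z (n 0 (n 8872003 z (n
 8872003 z z)) (n 0 z (n 0 (n 8872003 z z) (n 0 z z)))))) z))) (n 0 z (n 0 z (n 0 z z)))))))) (n
 63 (n 0 z (n 0 z (n 0 z (n 0 z z)))) (n 1105 (n 0 z (n 0 z (n 0 z (n 0 z (n 0 z (n 0 z (n 0 z
 z))))))) (n 1105 (n 0 z (n 0 z (n 0 z (n 0 z (n 0 z (n 2 z (n 0 z z))))))) z)))))))) (n 0 (n
 1119 (n 0 z (n 0 z (n 0 z (n 0 z (n 0 z z))))) (n 1119 (n 0 z (n 0 z (n 0 z (n 0 z (n 0 z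
 z))))) (n 81 (n 0 z (n 0 z (n 0 z (n 0 z (n 0 z z))))) (n 81 (n 2 (n 1 z (n 1 z (n 1 z z))) (n
 0 z (n 0 z (n 0 z (n 0 z z))))) (n 69 (n 0 z (n 0 z (n 0 z (n 0 z (n 7685691 z (n 0 z (n 0 z (n
 0 z (n 0 z z))))))))) (n 1117 (n 0 z (n 0 z (n 0 z (n 0 z (n 0 z (n 0 z (n 0 z (n 0 z (n 0 z (n
 0 z z)))))))))) (n 1117 (n 0 z (n 0 z (n 0 z (n 0 z (n 0 z (n 0 z (n 0 z (n 0 z (n 0 z (n 0 z
 z)))))))))) z))))))) (n 0 (n 0 z (n 27 (n 0 z (n 0 z (n 0 z (n 0 z (n 0 z (n 0 z (n 0 z (n 0 z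
 (n 0 z (n 0 z (n 0 z (n 0 z (n 0 z (n 0 z (n 0 z (n 0 z z)))))))))))))))) (n 27 (n 0 z (n 0 z
 (n 0 z (n 0 z (n 0 z (n 0 z (n 0 z (n 2 (n 1 z (n 1 z (n 2 (n 0 (n 8847899 z z) (n 0 z (n 0 (n
 8847899 z (n 8734475 z z)) (n 0 z (n 0 (n 8847899 z z) (n 0 z z)))))) z))) (n 0 z (n 0 z (n 0 z
 (n 0 z (n 0 z (n 0 z (n 0 z (n 0 z z)))))))))))))))) (n 15 (n 0 z (n 0 z (n 0 z (n 0 z (n 0 z
 (n 0 z (n 0 z (n 0 z (n 0 z (n 0 z (n 0 z z))))))))))) (n 17 (n 0 z (n 0 z (n 0 z (n 0 z (n 0 z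
 (n 0 z (n 0 z (n 0 z (n 0 z (n 0 z (n 0 z (n 0 z (n 0 z (n 0 z (n 0 z (n 0 z z))))))))))))))))
 (n 17 (n 0 z (n 0 z (n 0 z (n 0 z (n 2 z (n 0 z (n 0 z (n 0 z (n 0 z (n 0 z (n 0 z (n 0 z (n 0
 z (n 0 z (n 0 z (n 0 z z)))))))))))))))) z)))))) (n 0 (n 33 (n 0 z (n 2 (n 0 z (n 1 z (n 1 z (n
 1 z z)))) (n 0 z (n 0 z (n 0 z z))))) (n 33 (n 0 z (n 0 z (n 0 z (n 0 z (n 0 z z))))) (n 21 (n
 0 z (n 0 z (n 7685643 z (n 0 z (n 0 z (n 0 z (n 0 z (n 0 z (n 0 z z))))))))) (n 865 (n 0 z (n 0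
 z (n 0 z (n 0 z (n 0 z (n 0 z (n 0 z (n 7685643 z (n 0 z (n 0 z (n 0 z (n 0 z (n 0 z (n 0 z (n
 0 z (n 0 z z)))))))))))))))) (n 865 (n 0 z (n 0 z (n 0 z (n 0 z (n 0 z (n 0 z (n 0 z (n 0 z (n
 0 z (n 0 z (n 0 z (n 0 z (n 0 z (n 0 z (n 0 z (n 0 z z)))))))))))))))) z))))) (n 0 (n 0 z (n 51
 (n 0 z (n 7750403 z (n 0 z (n 0 z (n 0 z (n 0 z (n 0 z (n 0 z (n 0 z (n 0 z z)))))))))) (n 49
 (n 0 z (n 0 z (n 0 z (n 2 (n 0 z z) (n 0 z (n 0 z (n 0 z (n 0 z (n 0 z z))))))))) (n 49 (n 0 z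
 (n 2 z (n 0 z (n 0 z (n 0 z (n 0 z (n 0 z (n 0 z (n 0 z z))))))))) z)))) (n 0 (n 57 (n 0 z (n 0
 z (n 0 z (n 0 z (n 0 z (n 0 z z)))))) (n 5 (n 0 z (n 0 z (n 0 z (n 0 z (n 0 z (n 0 z (n 0 z (n
 0 z (n 0 z (n 0 z (n 0 z z))))))))))) (n 5 (n 0 z (n 0 z (n 0 z (n 0 z (n 0 z (n 0 z (n 0 z (n
 0 z (n 0 z (n 0 z (n 0 z z))))))))))) z))) (n 0 (n 1 (n 0 z (n 0 z (n 0 z (n 0 z (n 0 z (n 2 (n
 0 z z) (n 0 z (n 0 z (n 0 z z))))))))) (n 1 (n 0 z (n 2 z (n 0 z (n 0 z (n 0 z (n 0 z (n 0 z (n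
 0 z (n 0 z z))))))))) z)) (n 0 (n 0 z z) (n 0 z z))))))))))) (n 0 (n 0 z (n 1 (n 3282443 z (n
 3282443 z (n 3282443 z (n 3282443 z (n 3282443 z (n 3282443 z z)))))) z)) (n 0 z z)))) (n
 0xd69945ce5a1dbad05aaa9a2ecd4a0a44d0d237314a94844dce00a5240 (n 0 (n 333 (n 3282443 z (n 0 z (n
 0 z (n 0 z (n 0 z (n 0 z (n 0 z (n 2 z (n 0 z (n 10 z (n 0 z z))))))))))) (n 317 (n 0 z (n 0 z
 (n 6496515 z (n 18 z (n 26 z z))))) (n 9 (n 34 z (n 6496515 z (n 42 z (n 6496515 z (n 0 z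
 z))))) (n 27 (n 0 z (n 50 z (n 0 z (n 6496515 z z)))) (n 1 (n 6554395 z (n 0 z z)) (n 0 (n 58 z
 (n 0 z (n 0 z (n 0 z (n 0 z (n 0 z (n 66 z (n 2164315 z (n
 0x10c86c842078058477f98148278527f577b75b80881b7b47fb7ff7b37f77e27b781f82983077e7da82f8748358468967a183785a7ef74a6738ad8568376d96e98bf7708ef75e7e27ee80d8d676a78b8650811
 z (n
 0xa5951084c0604cca686420387c8258118fa79784277a7e17418317e27ee7717fe7ef8008597be83b8037a078a8518708578bf77582987b75b7d38997fa78e87c6738c17528808248518a07a57c887a85888d7da7cd8481011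
 z (n 0 z (n 74 z (n 0 z (n 82 z z)))))))))))))) z)))))) (n 1 (n 0 (n 0 z (n 515 (n 0 z (n 0 z
 (n 0 z (n 0 z (n 0 z (n 0 z (n 0 z z))))))) (n 515 (n 0 z (n 0 z (n 0 z (n 0 z (n 0 z (n 2 (n 1
 z (n 1 z (n 1 z (n 1 z (n 1 z (n 1 z (n 1 z z))))))) (n 0 z z))))))) (n 47 (n 0 z (n 0 z (n 0 z
 (n 0 z (n 0 z (n 7546443 z (n 0 z z))))))) (n 47 (n 0 z (n 0 z (n 0 z (n 0 z (n 0 z (n 0 z (n 0
 z z))))))) (n 59 (n 0 z (n 0 z (n 0 z (n 0 z (n 0 z (n 0 z (n 0 z (n 0 z (n 7546443 z (n 0 z (n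
 0 z z))))))))))) (n 53 (n 0 z (n 0 z (n 0 z (n 0 z (n 0 z (n 0 z (n 0 z (n 0 z (n 0 z (n 0 z
 z)))))))))) (n 53 (n 0 z (n 0 z (n 0 z (n 0 z (n 2 (n 0 z (n 0 z z)) (n 0 z (n 0 z (n 0 z (n 0
 z (n 0 z z)))))))))) (n 53 (n 0 z (n 0 z (n 0 z (n 0 z (n 0 z (n 0 z (n 0 z (n 0 z (n 2 (n 0 z
 z) (n 0 z z)))))))))) (n 53 (n 0 z (n 0 z (n 0 z (n 0 z (n 0 z (n 2 z (n 0 z (n 0 z (n 0 z (n 0
 z z)))))))))) z)))))))))) (n 0 (n 663 (n 0 z (n 0 z (n 0 z (n 0 z (n 0 z (n 0 z (n 0 z (n 0 z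
 (n 0 z (n 0 z (n 2 (n 0 z (n 1 z (n 2 (n 0 z (n 0 z (n 0 (n 8865035 z z) (n 0 (n 8865035 z z)
 (n 0 z (n 0 (n 8865035 z (n 8865035 z z)) z)))))) (n 1 z (n 2 (n 0 z (n 0 z (n 0 z (n 0 (n
 6498331 z z) (n 0 z (n 0 (n 2548 z (n 2548 z z)) z)))))) (n 1 z (n 2 (n 0 z (n 0 (n 8794435 z
 (n 8794435 z z)) (n 0 (n 8794435 z (n 8794435 z z)) (n 0 (n 8794435 z (n 8794435 z z)) (n 0 z
 (n 0 z z)))))) (n 1 z z)))))))) (n 0 z (n 0 z (n 0 z (n 0 z z))))))))))))))) (n 663 (n 0 z (n 0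
 z (n 0 z (n 0 z (n 0 z (n 0 z (n 0 z (n 0 z (n 0 z (n 0 z (n 0 z (n 0 z (n 0 z (n 0 z (n 0 z
 z))))))))))))))) (n 1239 (n 0 z (n 0 z (n 0 z (n 0 z (n 0 z (n 0 z (n 0 z (n 0 z (n 0 z
 z))))))))) (n 1239 (n 0 z (n 0 z (n 0 z (n 0 z (n 0 z (n 0 z (n 0 z (n 2 (n 1 z (n 2 (n 0 z (n
 0 z (n 0 z (n 0 (n 6498331 z z) (n 0 z (n 0 (n 2548 z (n 2548 z z)) z)))))) (n 1 z (n 2 (n 0 z
 (n 0 (n 8794435 z (n 8794435 z z)) (n 0 (n 8794435 z (n 8794435 z z)) (n 0 (n 8794435 z (n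
 8794435 z z)) (n 0 z (n 0 z z)))))) (n 1 z z))))) (n 0 z z))))))))) (n 665 (n 0 z (n 0 z (n 0 z
 (n 0 z (n 0 z (n 0 z (n 0 z (n 0 z (n 0 z (n 0 z z)))))))))) (n 637 (n 0 z (n 0 z (n 0 z (n 0 z
 z)))) (n 637 (n 0 z (n 0 z (n 0 z (n 0 z z)))) (n 637 (n 0 z (n 0 z (n 0 z (n 0 z z)))) (n 637
 (n 0 z (n 0 z (n 0 z (n 0 z z)))) z))))))))) (n 0 (n 0 z (n 103 (n 0 z (n 0 z (n 0 z (n 0 z (n
 0 z (n 0 z (n 0 z z))))))) (n 103 (n 0 z (n 0 z (n 0 z (n 0 z (n 0 z (n 0 z (n 0 z z))))))) (n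
 487 (n 0 z (n 0 z (n 0 z (n 0 z (n 0 z (n 0 z (n 0 z (n 0 z (n 0 z z))))))))) (n 485 (n 0 z (n
 0 z (n 0 z (n 0 z (n 2 (n 0 z (n 0 z (n 0 z z))) (n 0 z (n 0 z (n 0 z (n 0 z (n 0 z (n 0 z (n 0
 z (n 0 z (n 0 z (n 0 z (n 0 z (n 0 z z))))))))))))))))) (n 485 (n 0 z (n 0 z (n 0 z (n 0 z (n 0
 z (n 0 z (n 0 z (n 0 z (n 0 z (n 2 (n 0 z (n 0 z z)) (n 0 z (n 0 z (n 0 z (n 0 z (n 0 z (n 0 z
 (n 0 z z))))))))))))))))) (n 485 (n 0 z (n 0 z (n 0 z (n 0 z (n 0 z (n 0 z (n 0 z (n 0 z (n 0 z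
 (n 0 z (n 0 z (n 0 z (n 0 z (n 0 z (n 0 z (n 0 z (n 2 (n 0 z z) z))))))))))))))))) (n 485 (n 0
 z (n 0 z (n 0 z (n 0 z (n 0 z (n 0 z (n 0 z (n 0 z (n 0 z (n 0 z (n 2 z (n 0 z (n 0 z (n 0 z (n
 0 z (n 0 z (n 0 z z))))))))))))))))) z)))))))) (n 0 (n 1287 (n 0 z (n 2 (n 0 z (n 1 z (n 1 z (n
 1 z (n 1 z (n 1 z z)))))) (n 0 z z))) (n 1287 (n 0 z (n 0 z (n 2 (n 1 z (n 1 z (n 1 z (n 1 z (n
 1 z z))))) z))) (n 633 (n 0 z (n 0 z (n 7745859 z (n 0 z (n 0 z (n 0 z (n 0 z (n 0 z z))))))))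
 (n 505 (n 0 z (n 0 z (n 0 z z))) (n 505 (n 0 z (n 0 z (n 0 z z))) (n 505 (n 0 z (n 0 z (n 0 z
 z))) (n 505 (n 0 z (n 0 z (n 0 z z))) z))))))) (n 0 (n 0 z (n 661 (n 0 z (n 0 z (n 0 z (n 0 z
 (n 0 z (n 0 z (n 0 z (n 2 (n 1 z (n 1 z (n 1 z (n 1 z z)))) z)))))))) (n 13 (n 0 z (n 0 z (n 0
 z (n 0 z (n 0 z (n 0 z (n 0 z (n 0 z z)))))))) (n 13 (n 0 z (n 0 z (n 0 z (n 0 z (n 0 z (n 0 z
 (n 0 z (n 0 z z)))))))) (n 13 (n 0 z (n 0 z (n 0 z (n 0 z (n 0 z (n 0 z (n 0 z (n 0 z z))))))))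
 (n 13 (n 0 z (n 0 z (n 0 z (n 0 z (n 0 z (n 0 z (n 0 z (n 0 z z)))))))) z)))))) (n 0 (n 299 (n
 0 z (n 2 (n 1 z (n 1 z (n 1 z (n 1 z z)))) (n 0 z (n 0 z z)))) (n 241 (n 0 z (n 0 z (n 0 z (n 0
 z (n 0 z (n 0 z (n 0 z (n 0 z (n 0 z (n 0 z (n 0 z z))))))))))) (n 241 (n 0 z (n 0 z (n 0 z (n
 0 z (n 0 z (n 0 z (n 0 z (n 0 z (n 0 z (n 0 z (n 0 z z))))))))))) (n 241 (n 0 z (n 0 z (n 0 z
 (n 0 z (n 0 z (n 0 z (n 2 (n 0 z z) (n 0 z (n 0 z (n 0 z (n 0 z z))))))))))) (n 241 (n 0 z (n 0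
 z (n 0 z (n 0 z (n 0 z (n 0 z (n 0 z (n 0 z (n 0 z (n 0 z (n 2 z z))))))))))) z))))) (n 0 (n 53
 (n 0 z (n 0 z (n 0 z (n 0 z (n 0 z (n 0 z z)))))) (n 53 (n 0 z (n 0 z (n 0 z (n 0 z (n 0 z (n 0
 z z)))))) (n 53 (n 0 z (n 0 z (n 0 z (n 0 z (n 0 z (n 0 z z)))))) (n 53 (n 0 z (n 0 z (n 0 z (n
 0 z (n 0 z (n 0 z z)))))) z)))) (n 0 (n 0 z (n 0 z (n 0 z z))) (n 0 (n 0 z (n 0 z z)) (n 0 (n 0
 z z) (n 0 z z))))))))))) (n 0 (n 1 (n 6554395 z (n 6554395 z (n 6554395 z (n 6554395 z (n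
 6554395 z (n 6554395 z z)))))) (n 0 z z)) (n 0 z z)))) (n 0x6a296f560b58d052 (n 0 (n 323 (n
 6496339 z (n 0 z (n 0 z (n 0 z (n 0 z (n 0 z z)))))) (n 257 (n 0 z (n 3278363 z (n 0 z (n 0 z
 (n 0 z (n 0 z z)))))) (n 9 (n 6566419 z (n 0 z (n 0 z (n 6566419 z (n 0 z (n 2 z (n 10 z
 z))))))) (n 27 (n
 0x3194d44100e2cca8c80207877e80867e697a7b827b996c7a79797280848c78819a8f8c827e82ab8f8671738e698e617a718188837c7c72906c869891891009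
 z (n 6566419 z (n 0 z (n 0 z (n 6566419 z (n 0 z (n 0 z (n 6497563 z (n 18 z (n 0 z z))))))))))
 (n 1 (n 0 z (n 0 z (n 0 z (n 0 z (n 0 z (n 6566419 z z)))))) (n 0 (n 0 z (n 0 z (n 0 z (n 0 z
 (n 6624043 z z))))) z)))))) (n 0 (n 0 (n 0 z (n 295 (n 0 z (n 0 z (n 0 z (n 0 z (n 0 z (n 2 z
 z)))))) z)) (n 0 (n 247 (n 0 z (n 0 z (n 0 z (n 0 z (n 0 z (n 0 z z)))))) z) (n 0 z z))) (n 0
 (n 0 z (n 0 z (n 0 z (n 0 z (n 1 (n 6624043 z (n 6624043 z (n 6496339 z (n 6624043 z (n 6497563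
 z (n 6624043 z z)))))) z))))) (n 0 z z)))) (n
 0x5c5bba82db6454deb836b56365a1162d710cb2686593501ae2c0 (n 0 (n 527 (n 3282443 z (n 2 z (n 10 z
 (n 0 z z)))) (n 33 (n 18 z (n 3278363 z (n 0 z (n 0 z (n 26 z z))))) (n 197 (n 0 z (n 34 z (n 0
 z (n 42 z (n 3212843 z (n 0 z (n 0 z (n 0 z (n 50 z z))))))))) (n 3 (n 0 z (n
 0x1cca6a804077e47a681185f7c180f7a57ae7fb82783a7e880f7a97f78548267c08417e88017c98797e68a380a8127d07ff8577f083884283083d7bc7fe7d47fe76f7b78667cf81482978a7ef8228747ca0811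
 z (n 0 z (n
 0x1594d50080e00aca6a204038077cb8038277f28057d98127f580d8177f98078027ef81d80a7f87fe8007e77fe8017fb80a7f580380180780d80181e80180f7f47fc80b7fb8077f47ff80b7f88087df7eb7e580b8187ea1011
 z (n 58 z (n 0 z (n
 0x16ca8ca040382280b7fb7e480d7f78088067fc8057ed80f7f88198067f07f38027f68138078007f47f57fb7f180a7f97fd7fe7fb7eb7f381080c80e7f87f98038098007f180c7f481180080b80b7f78000811
 z (n
 0x28ca6a204077fc8028098097f28037fa7da7fd8098037fb7ff7f37f48118037f380d7fc7f77e38397fc85380780b7e37fb80e7f180b81a81d8287e77eb7e07fd7ca7db81f7ec7fa8217e781a81a8197f50811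
 z (n 0 z (n
 0x1d951940806010ca6a8040782b7dd7fa7f98127f97fc8097f780280880880382f7ec7fa8028007ea8027e080b8058027f57de8017fb80d7f97fc80380183581280a7fa80381180280f7ef7f37fc80480980a80f7e080b1011
 z (n 2164283 z (n 2164283 z (n 66 z z))))))))))))) (n 1 (n 6636299 z (n 0 z (n 0 z (n 0 z (n 0
 z z))))) (n 0 (n 6636299 z (n 0 z (n 0 z (n 0 z (n 74 z (n 0 z (n 0 z z))))))) z)))))) (n 527
 (n 0 (n 0 z (n 1197 (n 0 z (n 0 z (n 2 (n 0 z (n 2 (n 0 z (n 0 (n 8734491 z (n 8800091 z z)) (n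
 0 z (n 0 z (n 0 (n 4212 z z) (n 0 (n 8868707 z z) z)))))) (n 1 z (n 1 z (n 1 z (n 1 z (n 1 z
 z))))))) (n 0 z z)))) (n 1197 (n 0 z (n 0 z (n 0 z (n 0 z z)))) (n 1053 (n 0 z (n 0 z (n 0 z (n
 0 z (n 0 z (n 0 z z)))))) (n 1053 (n 0 z (n 0 z (n 0 z (n 0 z (n 0 z (n 0 z z)))))) (n 1053 (n
 0 z (n 0 z (n 0 z (n 0 z (n 0 z (n 0 z z)))))) (n 1049 (n 0 z (n 0 z (n 0 z (n 0 z (n 0 z (n 0
 z (n 0 z (n 0 z (n 0 z (n 0 z (n 0 z (n 0 z (n 0 z (n 0 z (n 0 z (n 0 z (n 0 z (n 0 z (n 0 z (n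
 2 (n 0 z (n 1 z z)) z)))))))))))))))))))) (n 1049 (n 0 z (n 0 z (n 0 z (n 0 z (n 0 z (n 0 z (n
 0 z (n 0 z (n 0 z (n 0 z (n 0 z (n 0 z (n 0 z (n 0 z (n 0 z (n 0 z (n 0 z (n 0 z (n 0 z (n 0 z
 z)))))))))))))))))))) (n 485 (n 0 z (n 0 z (n 0 z (n 0 z z)))) z))))))))) (n 0 (n 1007 (n 0 z
 (n 0 z (n 0 z (n 0 z z)))) (n 1007 (n 0 z (n 2 (n 2 (n 0 z (n 0 z (n 0 (n 3884 z (n 8803187 z
 z)) (n 0 z (n 0 (n 8734235 z (n 8734235 z z)) (n 0 (n 8865371 z (n 8803187 z z)) z)))))) (n 2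
 (n 0 z (n 0 z (n 0 z (n 0 z (n 0 z (n 0 z z)))))) (n 2 (n 0 z (n 0 (n 8852795 z z) (n 0 z (n 0
 (n 8852795 z (n 8852795 z z)) (n 0 z (n 0 z z)))))) (n 1 z (n 1 z (n 1 z z)))))) (n 0 z (n 0 z
 z)))) (n 971 (n 2 (n 0 z (n 0 z (n 2 (n 0 z (n 0 (n 8802627 z z) (n 0 z (n 0 z (n 0 (n 8802627
 z z) (n 0 (n 8802627 z (n 8802627 z z)) z)))))) (n 2 (n 0 z (n 0 (n 4068 z (n 4068 z z)) (n 0 z
 (n 0 (n 4068 z (n 4068 z z)) (n 0 (n 4068 z (n 4068 z z)) (n 0 z z)))))) (n 2 (n 0 z (n 0 (n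
 3860 z (n 3860 z z)) (n 0 z (n 0 (n 3860 z (n 3860 z z)) (n 0 (n 3860 z (n 3860 z z)) (n 0 z
 z)))))) z))))) (n 0 z (n 0 z (n 0 z (n 0 z (n 0 z (n 0 z (n 0 z (n 0 z (n 0 z z)))))))))) (n
 971 (n 0 z (n 0 z (n 2 (n 0 z (n 1 z (n 1 z (n 1 z z)))) (n 0 z (n 0 z (n 0 z (n 0 z (n 0 z (n
 0 z (n 0 z z)))))))))) (n 971 (n 0 z (n 0 z (n 0 z (n 0 z (n 0 z (n 0 z (n 0 z (n 0 z (n 0 z (n
 2 (n 1 z (n 1 z (n 1 z z))) z)))))))))) (n 1017 (n 0 z (n 0 z (n 0 z (n 0 z (n 0 z z))))) (n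
 1017 (n 0 z (n 0 z (n 2 (n 1 z z) (n 0 z (n 0 z z))))) (n 965 (n 2 z (n 0 z (n 0 z (n 0 z (n 0
 z (n 0 z (n 0 z (n 0 z (n 0 z z))))))))) z)))))))) (n 0 (n 0 z (n 417 (n 0 z (n 0 z (n 0 z (n 0
 z (n 2 (n 0 z (n 0 z (n 1 z (n 1 z (n 1 z z))))) (n 0 z (n 0 z (n 0 z (n 0 z z))))))))) (n 417
 (n 0 z (n 0 z (n 0 z (n 0 z (n 0 z (n 0 z (n 0 z (n 0 z (n 2 (n 0 z (n 1 z (n 1 z (n 1 z z))))
 z))))))))) (n 417 (n 0 z (n 0 z (n 0 z (n 2 (n 1 z (n 1 z (n 1 z z))) (n 0 z (n 0 z (n 0 z (n 0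
 z (n 0 z z))))))))) (n 1045 (n 0 z (n 0 z (n 0 z (n 0 z (n 0 z (n 0 z (n 0 z (n 0 z (n 0 z (n 0
 z (n 0 z (n 0 z (n 0 z z))))))))))))) (n 1045 (n 2 (n 1 z z) (n 0 z (n 0 z (n 0 z (n 0 z (n 0 z
 (n 0 z (n 0 z (n 0 z (n 0 z (n 0 z (n 0 z (n 0 z z))))))))))))) (n 361 (n 0 z (n 0 z (n 2 z (n
 0 z (n 0 z (n 0 z (n 0 z (n 0 z z)))))))) z))))))) (n 0 (n 1161 (n 0 z (n 0 z (n 0 z (n 0 z (n
 0 z z))))) (n 1161 (n 0 z (n 0 z (n 0 z (n 0 z (n 0 z z))))) (n 1161 (n 0 z (n 0 z (n 0 z (n 0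
 z (n 0 z z))))) (n 487 (n 0 z (n 0 z (n 0 z (n 0 z (n 2 (n 0 z (n 1 z z)) (n 0 z (n 0 z (n 0 z
 (n 0 z (n 0 z (n 0 z (n 0 z (n 0 z (n 0 z (n 0 z z))))))))))))))) (n 487 (n 0 z (n 0 z (n 0 z
 (n 0 z (n 0 z (n 0 z (n 0 z (n 0 z (n 0 z (n 0 z (n 0 z (n 0 z (n 0 z (n 0 z (n 0 z
 z))))))))))))))) (n 481 (n 0 z (n 0 z (n 0 z (n 0 z (n 0 z z))))) z)))))) (n 0 (n 0 z (n 0 z (n
 1045 (n 0 z (n 0 z (n 2 (n 0 z (n 2 (n 0 z (n 0 (n 1076 z (n 1076 z z)) (n 0 z (n 0 (n 1076 z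
 (n 1076 z z)) (n 0 (n 1076 z (n 1076 z z)) (n 0 z z)))))) z)) (n 0 z z)))) (n 1045 (n 0 z (n 0
 z (n 0 z (n 0 z z)))) (n 269 (n 0 z (n 0 z (n 0 z (n 0 z (n 0 z (n 0 z (n 0 z (n 0 z z))))))))
 z))))) (n 0 (n 0 z (n 1045 (n 0 z (n 0 z (n 0 z (n 2 (n 0 z (n 1 z z)) (n 0 z (n 0 z z)))))) (n
 1045 (n 0 z (n 0 z (n 0 z (n 0 z (n 0 z (n 0 z z)))))) (n 269 (n 0 z (n 0 z (n 0 z (n 0 z (n 0
 z (n 0 z z)))))) z)))) (n 0 (n 393 (n 0 z (n 0 z (n 0 z (n 0 z (n 0 z (n 2 (n 0 z (n 1 z z)) (n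
 0 z z))))))) (n 393 (n 0 z (n 0 z (n 0 z (n 0 z (n 0 z (n 0 z (n 0 z z))))))) (n 269 (n 0 z (n
 0 z (n 0 z (n 0 z (n 0 z (n 0 z (n 0 z (n 0 z (n 0 z (n 0 z z)))))))))) z))) (n 0 (n 0 z (n
 1033 (n 0 z (n 2 z (n 0 z (n 0 z (n 0 z (n 0 z (n 0 z (n 0 z (n 0 z (n 0 z (n 0 z (n 0 z (n 0 z
 (n 0 z (n 0 z (n 0 z (n 0 z z))))))))))))))))) z)) (n 0 (n 49 (n 0 z (n 0 z (n 0 z (n 0 z (n 0
 z (n 0 z (n 0 z (n 0 z (n 0 z (n 0 z (n 0 z (n 0 z (n 0 z (n 0 z z)))))))))))))) z) (n 0 z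
 z)))))))))) (n 0 (n 1 (n 3282443 z (n 6636299 z (n 3282443 z (n 3282443 z (n 3282443 z (n
 3282443 z z)))))) (n 1 (n 268 z (n 268 z (n 12 z (n 268 z (n 268 z (n 6636299 z z)))))) (n 1 (n
 6636299 z (n 268 z (n 1580 z (n 268 z (n 268 z (n 268 z z)))))) (n 0 z z)))) (n 0 z z))))
 z)))))))))), by decide +kernel⟩
theorem i10466 : ∃ t, chkR KT RW t 10466 10476 = true := ⟨(n
 0x6709a0a515b8195a80d8c90a27a11a2250896a4448948224a500 (n 0 (n 599 (n 3282443 z (n 0 z (n 0 z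
 (n 2 z z)))) (n 595 (n 3278363 z (n 10 z (n 0 z z))) (n 594 (n 0 z (n 3212843 z (n
 0x2aca6ca620385c78580b8597d57df7ac8098008117f28088027de8338757db79e75d83176c8708248448267f48057dd82785680382983e8527c67d979181a81a7c281581781980e8067b884480e7b07f30811
 z (n 18 z (n 26 z (n
 0x4c86c862078008017ff8028008028008008018008007ff8007ff8008018018008007ff7ff7fe8007ff8018017ff8017ff7ff8028008028018007ff8007fe8018018008017fe7fe8017ff8018007fe8010811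
 z (n 34 z z))))))) (n 3 (n 42 z (n
 0x2aca6a842077d48657d67da84a80282480382d7d07f57df8167c47f980280c7db8337a979e8aa7ee8807938727f98047ca8238047c483d83673e8417358998177e77c67f08028428717c17ea8328557cc0811
 z (n 50 z (n 0 z (n 2164283 z (n
 0x56200028c400109880008b1000006207748d87af7b289b8048377f68577a88437c67ff73f7b58048947a68e678a75598c76694d6a78f57fe80477f8447ff75f82f84968d88a6ac8ff82c8447b482281488d8ac7977a08728517930151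
 z (n 58 z (n 0 z z)))))))) (n 1 (n 0 z (n 2164299 z z)) (n 0 (n 0 z (n 66 z (n 0 z (n 2164315 z
 (n 0 z (n 74 z z)))))) z)))))) (n 1 (n 0 (n 191 (n 0 z (n 0 z (n 0 z (n 0 z (n 0 z (n 0 z (n 0
 z (n 0 z z)))))))) (n 189 (n 0 z (n 0 z (n 0 z (n 0 z (n 2 (n 0 z (n 0 z (n 1 z (n 1 z (n 2 (n
 0 z (n 0 z (n 0 z (n 0 z (n 0 z (n 0 z z)))))) (n 1 z (n 2 (n 0 (n 8594955 z z) (n 0 (n 692 z
 z) (n 0 (n 8804123 z (n 692 z z)) (n 0 z (n 0 z (n 0 z z)))))) z))))))) (n 0 z (n 0 z (n 0 z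
 z)))))))) (n 189 (n 0 z (n 0 z (n 0 z (n 0 z (n 0 z (n 0 z (n 0 z (n 0 z z)))))))) (n 189 (n 0
 z (n 0 z (n 0 z (n 0 z (n 0 z (n 0 z (n 0 z (n 2 (n 2 (n 0 z (n 0 z (n 0 (n 8785955 z z) (n 0 z
 (n 0 z (n 0 z z)))))) (n 2 (n 0 z (n 0 z (n 0 z (n 0 z (n 0 z (n 0 z z)))))) (n 2 (n 0 z (n 0 z
 (n 0 z (n 0 z (n 0 z (n 0 z z)))))) (n 1 z (n 2 (n 0 z (n 0 z (n 0 z (n 0 z (n 0 z (n 0 z
 z)))))) z))))) z)))))))) (n 233 (n 0 z (n 0 z (n 0 z (n 0 z (n 0 z (n 0 z (n 0 z (n 0 z (n 0 z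
 (n 0 z (n 0 z z))))))))))) (n 233 (n 0 z (n 0 z (n 0 z (n 0 z (n 0 z (n 0 z (n 0 z (n 2 (n 0 z
 (n 1 z (n 2 (n 0 z (n 0 z (n 0 (n 8787771 z (n 692 z z)) (n 0 z (n 0 z (n 0 (n 8787771 z z)
 z)))))) z))) (n 0 z (n 0 z (n 0 z z))))))))))) (n 233 (n 0 z (n 0 z (n 0 z (n 0 z (n 2 (n 1 z
 (n 2 (n 0 z (n 0 z (n 0 z (n 0 z (n 0 z (n 0 z z)))))) z)) (n 0 z (n 0 z (n 0 z (n 0 z (n 0 z
 (n 0 z z))))))))))) (n 173 (n 0 z (n 0 z (n 0 z (n 0 z (n 0 z (n 0 z z)))))) (n 173 (n 0 z (n 0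
 z (n 0 z (n 2 z (n 0 z (n 0 z z)))))) z))))))))) (n 0 (n 429 (n 0 z (n 0 z (n 7746051 z (n 0 z
 (n 0 z (n 0 z (n 0 z (n 0 z (n 0 z (n 0 z (n 0 z (n 0 z (n 0 z (n 0 z (n 0 z (n 0 z (n 0 z (n 0
 z (n 0 z (n 0 z (n 0 z (n 0 z (n 0 z (n 0 z (n 0 z (n 0 z (n 0 z z)))))))))))))))))))))))))))
 (n 429 (n 0 z (n 0 z (n 0 z (n 0 z (n 0 z (n 0 z (n 0 z (n 0 z (n 0 z (n 0 z (n 0 z (n 0 z (n 0
 z (n 0 z (n 0 z (n 0 z (n 0 z (n 0 z (n 0 z (n 0 z (n 0 z (n 0 z (n 0 z (n 0 z (n 0 z (n 0 z (n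
 0 z z))))))))))))))))))))))))))) (n 429 (n 0 z (n 0 z (n 0 z (n 0 z (n 0 z (n 0 z (n 0 z (n 0 z
 (n 0 z (n 0 z (n 0 z (n 0 z (n 0 z (n 2 (n 1 z (n 2 (n 0 z (n 0 z (n 0 z (n 0 z (n 0 z (n 0 z
 z)))))) (n 2 (n 0 z (n 0 z (n 0 z (n 0 z (n 0 z (n 0 z z)))))) (n 1 z (n 2 (n 0 z (n 0 z (n 0 z
 (n 0 z (n 0 z (n 0 z z)))))) z))))) (n 0 z (n 0 z (n 0 z (n 0 z (n 0 z (n 0 z (n 0 z (n 0 z (n
 0 z (n 0 z (n 0 z (n 0 z (n 0 z z))))))))))))))))))))))))))) (n 473 (n 0 z (n 0 z (n 0 z (n 0 z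
 (n 0 z (n 0 z (n 0 z (n 0 z (n 0 z (n 0 z (n 0 z (n 0 z (n 0 z (n 0 z (n 0 z (n 0 z (n 0 z (n 0
 z (n 0 z (n 0 z (n 0 z (n 0 z (n 0 z (n 0 z (n 0 z (n 0 z (n 0 z (n 0 z (n 0 z (n 0 z (n 0 z (n
 0 z (n 0 z z))))))))))))))))))))))))))))))))) (n 473 (n 0 z (n 0 z (n 0 z (n 0 z (n 0 z (n 0 z
 (n 0 z (n 0 z (n 0 z (n 0 z (n 0 z (n 0 z (n 0 z (n 0 z (n 7544931 z (n 0 z (n 0 z (n 0 z (n 0
 z (n 0 z (n 0 z (n 0 z (n 0 z (n 0 z (n 0 z (n 0 z (n 0 z (n 0 z (n 0 z (n 0 z (n 0 z (n 0 z (n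
 0 z z))))))))))))))))))))))))))))))))) (n 473 (n 0 z (n 0 z (n 0 z (n 0 z (n 0 z (n 0 z (n 0 z
 (n 0 z (n 0 z (n 0 z (n 0 z (n 0 z (n 0 z (n 0 z (n 0 z (n 0 z (n 2 (n 1 z (n 2 (n 0 (n 8594955
 z z) (n 0 (n 8593507 z z) (n 0 (n 1636 z (n 1636 z z)) (n 0 z (n 0 z (n 0 z z)))))) z)) (n 0 z
 (n 0 z (n 0 z (n 0 z (n 0 z (n 0 z (n 0 z (n 0 z (n 0 z (n 0 z (n 0 z (n 0 z (n 0 z (n 0 z (n 0
 z (n 0 z z))))))))))))))))))))))))))))))))) (n 409 (n 0 z (n 0 z (n 0 z (n 0 z (n 0 z (n 0 z (n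
 0 z z))))))) (n 409 (n 0 z (n 0 z (n 0 z (n 0 z (n 0 z (n 0 z (n 0 z z))))))) z)))))))) (n 0 (n
 0 z (n 0 z (n 7 (n 7746051 z (n 0 z (n 0 z (n 0 z (n 0 z (n 0 z (n 0 z z))))))) (n 7 (n 0 z (n
 0 z (n 0 z (n 0 z (n 0 z (n 0 z (n 0 z z))))))) (n 7 (n 0 z (n 0 z (n 0 z (n 0 z (n 0 z (n 0 z
 (n 0 z z))))))) (n 821 (n 0 z (n 0 z (n 0 z (n 0 z (n 7746051 z (n 0 z (n 0 z (n 0 z (n 0 z (n
 0 z (n 0 z z))))))))))) (n 821 (n 2 z (n 0 z (n 0 z (n 0 z (n 0 z (n 0 z (n 0 z (n 0 z (n 0 z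
 (n 0 z (n 0 z z))))))))))) z))))))) (n 0 (n 0 z (n 661 (n 0 z (n 0 z (n 0 z (n 0 z (n 0 z (n 0
 z (n 0 z (n 0 z (n 0 z (n 0 z (n 0 z z))))))))))) (n 661 (n 0 z (n 0 z (n 0 z (n 0 z (n 0 z (n
 0 z (n 0 z (n 0 z (n 2 (n 0 z (n 1 z (n 2 (n 0 z (n 0 z (n 0 (n 8787771 z (n 2596 z z)) (n 0 z
 (n 0 z (n 0 (n 8787771 z z) z)))))) z))) (n 0 z (n 0 z z))))))))))) (n 661 (n 0 z (n 0 z (n 0 z
 (n 2 (n 1 z (n 2 (n 0 z (n 0 z (n 0 z (n 0 z (n 0 z (n 0 z z)))))) z)) (n 0 z (n 0 z (n 0 z (n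
 0 z (n 0 z (n 0 z (n 0 z z))))))))))) (n 649 (n 0 z (n 0 z (n 0 z (n 0 z (n 0 z (n 0 z (n 0 z
 (n 0 z (n 0 z (n 0 z (n 0 z z))))))))))) (n 649 (n 2 z (n 0 z (n 0 z (n 0 z (n 0 z (n 0 z (n 0
 z (n 0 z (n 0 z (n 0 z (n 0 z z))))))))))) z)))))) (n 0 (n 1157 (n 0 z (n 0 z (n 0 z (n 0 z (n
 0 z (n 0 z (n 0 z (n 0 z (n 0 z (n 0 z (n 0 z (n 0 z (n 0 z (n 0 z (n 0 z (n 0 z (n 0 z (n 0 z
 (n 0 z (n 0 z (n 0 z (n 0 z (n 0 z (n 0 z (n 2 (n 0 z (n 0 z (n 1 z (n 2 (n 0 z (n 0 z (n 0 z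
 (n 0 z (n 0 z (n 0 z z)))))) z)))) (n 0 z (n 0 z (n 0 z (n 0 z (n 0 z (n 0 z (n 0 z
 z)))))))))))))))))))))))))))))))) (n 1157 (n 0 z (n 0 z (n 0 z (n 0 z (n 0 z (n 0 z (n 0 z (n 0
 z (n 0 z (n 0 z (n 0 z (n 0 z (n 0 z (n 0 z (n 0 z (n 0 z (n 0 z (n 0 z (n 0 z (n 0 z (n 0 z (n
 0 z (n 0 z (n 0 z (n 0 z (n 0 z (n 0 z (n 0 z (n 0 z (n 0 z (n 0 z (n 0 z
 z)))))))))))))))))))))))))))))))) (n 1157 (n 0 z (n 0 z (n 0 z (n 0 z (n 0 z (n 0 z (n 0 z (n 0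
 z (n 0 z (n 0 z (n 0 z (n 0 z (n 0 z (n 0 z (n 0 z (n 0 z (n 0 z (n 0 z (n 0 z (n 0 z (n 0 z (n
 0 z (n 0 z (n 0 z (n 0 z (n 0 z (n 0 z (n 0 z (n 0 z (n 0 z (n 0 z (n 0 z
 z)))))))))))))))))))))))))))))))) (n 821 (n 0 z (n 0 z (n 0 z (n 0 z (n 0 z (n 2 (n 0 z z) (n 0
 z (n 0 z (n 0 z (n 0 z z)))))))))) (n 821 (n 0 z (n 2 z (n 0 z (n 0 z (n 0 z (n 0 z (n 0 z (n 0
 z (n 0 z (n 0 z z)))))))))) z))))) (n 0 (n 0 z (n 0 z (n 1 (n 0 z (n 0 z (n 0 z (n 0 z (n 0 z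
 (n 0 z (n 0 z (n 0 z (n 0 z (n 0 z (n 0 z z))))))))))) (n 1 (n 0 z (n 0 z (n 0 z (n 0 z (n 0 z
 (n 0 z (n 0 z (n 0 z (n 0 z (n 0 z (n 2 z z))))))))))) z)))) (n 0 (n 0 z (n 1 (n 6496371 z (n 0
 z (n 0 z (n 0 z (n 0 z (n 0 z (n 0 z (n 0 z z)))))))) (n 1 (n 0 z (n 0 z (n 0 z (n 0 z (n 0 z
 (n 0 z (n 0 z (n 2 z z)))))))) z))) (n 0 (n 241 (n 2 (n 0 z z) (n 0 z (n 0 z (n 0 z (n 0 z (n 0
 z (n 0 z z))))))) (n 241 (n 0 z (n 0 z (n 0 z (n 0 z (n 0 z (n 0 z (n 2 z z))))))) z)) (n 0 (n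
 0 z z) (n 0 z z)))))))))) (n 0 (n 0 z (n 1 (n 2164299 z (n 2164299 z (n 2164299 z (n 2164299 z
 (n 2164299 z (n 2164299 z z)))))) z)) (n 0 z z)))) (n
 0x19d5d0526ada192e90e26c84d3858b132834946094ca4c0 (n 0 (n 347 (n 2 z (n 3282443 z (n 0 z (n 0 z
 (n 0 z z))))) (n 341 (n 0 z (n 0 z (n 3278363 z z))) (n 9 (n 3212843 z (n 10 z (n 18 z (n 26 z
 (n 0 z z))))) (n 125 (n 34 z (n 42 z (n 0 z (n 2164283 z (n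
 0x14ca8ca82078018307ab8017c480a8b378783e75a7288f87f481473c93e7c276881b75a8248868d58328999986e875b86198570473d9ab70073d70763d92a9956107cb89b86b8b992a7bb64a88b9e67820811
 z (n
 0x646208008037f380c8118067f08037f48157fe8088007f37d381980f7ed82c7b08547c581b7f27f383580b8167d580b81a80c7f57b77ff7ed82181a7c68007c17f28208148487e17d47f28687dd0051
 z (n 50 z (n
 0x12ca8ca80037f18677877e98017f988177181b7867b88627f37ff7e68827f97bd82f7668ad81284884182a8a97577a48118987a677c9376ef7ce79c7588bf86d6f57ca88983b8978227f869283b98d7c00811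
 z (n
 0xca8ca80037ff8018007fe8017ff8018008018008027ff7ff7ff8008008027ff8018007ff8007ff8008008008018008008008018008008008008007ff8008008008008008008008018008008008008000811
 z z))))))))) (n 1 (n 0 z (n 0 z (n 0 z (n 2164299 z (n 0 z (n 0 z (n 0 z z))))))) (n 0 (n 0 z
 (n 58 z (n 66 z (n 2164315 z (n 0 z z))))) z)))))) (n 341 (n 0 (n 171 (n 0 z (n 0 z (n 2 (n 0 z
 (n 0 z (n 1 z (n 1 z (n 2 (n 0 z (n 0 z (n 0 z (n 0 z (n 0 z (n 0 (n 8855819 z z) z)))))) (n 1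
 z (n 2 (n 0 z (n 0 z (n 0 z (n 0 z (n 0 (n 8726043 z z) (n 0 (n 692 z (n 8800043 z z)) z))))))
 z))))))) (n 0 z (n 0 z (n 0 z (n 0 z z))))))) (n 171 (n 0 z (n 0 z (n 0 z (n 0 z (n 0 z (n 0 z
 (n 0 z z))))))) (n 171 (n 0 z (n 0 z (n 0 z (n 0 z (n 0 z (n 2 (n 1 z (n 2 (n 0 z (n 0 z (n 0 z
 (n 0 z (n 0 z (n 0 z z)))))) (n 2 (n 0 z (n 0 z (n 0 z (n 0 z (n 0 z (n 0 z z)))))) (n 1 z (n 2
 (n 0 z (n 0 z (n 0 z (n 0 z (n 0 z (n 0 z z)))))) z))))) (n 0 z z))))))) (n 675 (n 0 z (n 0 z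
 (n 0 z (n 0 z (n 0 z (n 0 z (n 0 z (n 0 z (n 0 z (n 0 z (n 0 z (n 0 z z)))))))))))) (n 675 (n 2
 (n 0 z (n 1 z (n 2 (n 0 z (n 0 (n 692 z z) (n 0 (n 8594955 z z) (n 0 z (n 0 z (n 0 (n 692 z (n
 8804171 z z)) z)))))) z))) (n 0 z (n 0 z (n 0 z (n 0 z (n 0 z (n 0 z (n 0 z (n 0 z (n 0 z (n 0
 z (n 0 z z)))))))))))) (n 675 (n 0 z (n 0 z (n 0 z (n 0 z (n 0 z (n 0 z (n 0 z (n 0 z (n 2 (n 1
 z (n 2 (n 0 z (n 0 z (n 0 z (n 0 z (n 0 z (n 0 z z)))))) z)) (n 0 z (n 0 z (n 0 z z))))))))))))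
 (n 173 (n 0 z (n 0 z (n 0 z (n 0 z (n 0 z z))))) (n 173 (n 0 z (n 0 z (n 0 z (n 2 z (n 0 z
 z))))) z)))))))) (n 0 (n 0 z (n 0 z (n 539 (n 2 (n 0 z (n 0 z (n 1 z (n 2 (n 0 z (n 0 z (n 0 z
 (n 0 z (n 0 (n 5 z z) (n 0 (n 8726299 z (n 8865323 z z)) z)))))) z)))) (n 0 z (n 0 z (n 0 z (n
 0 z (n 0 z (n 0 z (n 0 z (n 0 z z))))))))) (n 539 (n 0 z (n 0 z (n 0 z (n 0 z (n 0 z (n 0 z (n
 0 z (n 0 z (n 0 z z))))))))) (n 539 (n 0 z (n 0 z (n 0 z (n 0 z (n 7741707 z (n 0 z (n 0 z (n 0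
 z (n 0 z z))))))))) (n 49 (n 6496371 z (n 0 z (n 0 z (n 0 z (n 0 z (n 0 z (n 0 z (n 0 z (n 0 z
 (n 0 z (n 0 z (n 0 z (n 0 z z))))))))))))) (n 49 (n 0 z (n 0 z (n 0 z (n 2 z (n 0 z (n 0 z (n 0
 z (n 0 z (n 0 z (n 0 z (n 0 z (n 0 z (n 0 z z))))))))))))) z))))))) (n 0 (n 0 z (n 627 (n 0 z
 (n 0 z (n 0 z (n 0 z (n 0 z (n 0 z (n 0 z (n 0 z (n 0 z (n 0 z (n 0 z z))))))))))) (n 627 (n 0
 z (n 0 z (n 0 z (n 0 z (n 0 z (n 0 z (n 7746051 z (n 0 z (n 0 z (n 0 z (n 0 z z))))))))))) (n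
 627 (n 0 z (n 0 z (n 0 z (n 0 z (n 0 z (n 2 (n 1 z (n 2 (n 0 z (n 0 z (n 0 z (n 0 z (n 0 z (n 0
 z z)))))) z)) (n 0 z (n 0 z (n 0 z (n 0 z (n 0 z z))))))))))) (n 649 (n 0 z (n 0 z (n 0 z (n 0
 z (n 0 z (n 0 z (n 0 z (n 0 z (n 0 z (n 0 z (n 0 z (n 0 z (n 0 z z))))))))))))) (n 649 (n 0 z
 (n 0 z (n 0 z (n 0 z (n 0 z (n 0 z (n 0 z (n 0 z (n 0 z (n 0 z (n 2 z (n 0 z (n 0 z
 z))))))))))))) z)))))) (n 0 (n 285 (n 2 (n 0 z (n 0 z (n 1 z (n 2 (n 0 z (n 0 z (n 0 z (n 0 z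
 (n 0 z (n 0 z z)))))) z)))) (n 0 z (n 0 z (n 0 z (n 0 z (n 0 z (n 0 z (n 0 z (n 0 z (n 0 z (n 0
 z (n 0 z (n 0 z (n 0 z (n 0 z (n 0 z (n 0 z (n 0 z (n 0 z (n 0 z (n 0 z (n 0 z
 z)))))))))))))))))))))) (n 285 (n 0 z (n 0 z (n 0 z (n 0 z (n 0 z (n 0 z (n 0 z (n 0 z (n 0 z
 (n 0 z (n 0 z (n 0 z (n 0 z (n 0 z (n 0 z (n 0 z (n 0 z (n 0 z (n 0 z (n 0 z (n 0 z (n 0 z
 z)))))))))))))))))))))) (n 285 (n 0 z (n 0 z (n 0 z (n 0 z (n 0 z (n 0 z (n 0 z (n 0 z (n 0 z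
 (n 0 z (n 0 z (n 0 z (n 0 z (n 0 z (n 0 z (n 0 z (n
 0x56ec8ec0a037e188980f77589c7c37db7df83e85287a6fb83d7d29386fa8088507e28778407637b37418116b58ba88579072e8a789969790e88589395c6b573291b7f87d278b79271083b95b78967389e0811
 z (n 0 z (n 0 z (n 0 z (n 0 z (n 0 z z)))))))))))))))))))))) (n 1081 (n 0 z (n 0 z (n 2 (n 0 z
 z) (n 0 z (n 0 z (n 0 z (n 0 z (n 0 z z)))))))) (n 1081 (n 0 z (n 0 z (n 0 z (n 0 z (n 2 z (n 0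
 z (n 0 z (n 0 z z)))))))) z))))) (n 0 (n 0 z (n 0 z (n 1 (n 0 z (n 0 z (n 0 z (n 0 z (n 0 z (n
 0 z (n 0 z (n 0 z (n 0 z (n 0 z (n 0 z (n 0 z (n 0 z z))))))))))))) (n 1 (n 0 z (n 0 z (n 0 z
 (n 0 z (n 0 z (n 0 z (n 2 z (n 0 z (n 0 z (n 0 z (n 0 z (n 0 z (n 0 z z))))))))))))) z)))) (n 0
 (n 0 z (n 1 (n 7746051 z (n 0 z (n 0 z (n 0 z (n 0 z (n 0 z (n 0 z (n 0 z (n 0 z (n 0 z
 z)))))))))) (n 1 (n 0 z (n 0 z (n 0 z (n 2 z (n 0 z (n 0 z (n 0 z (n 0 z (n 0 z (n 0 z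
 z)))))))))) z))) (n 0 (n 13 (n 2 (n 0 z z) (n 0 z (n 0 z (n 0 z (n 0 z (n 0 z (n 0 z (n 0 z (n
 0 z (n 0 z (n 0 z (n 0 z (n 0 z z))))))))))))) (n 13 (n 0 z (n 0 z (n 0 z (n 0 z (n 2 z (n 0 z
 (n 0 z (n 0 z (n 0 z (n 0 z (n 0 z (n 0 z (n 0 z z))))))))))))) z)) (n 0 (n 0 z z) (n 0 z
 z))))))))) (n 0 (n 0 z (n 0 z (n 1 (n 3278363 z (n 3278363 z (n 3278363 z (n 3278363 z (n
 3278363 z (n 3278363 z z)))))) z))) (n 0 z z)))) (n 0x1aa2a84deb706f59907ab (n 0 (n 455 (n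
 3282443 z (n 0 z (n 0 z (n 0 z (n 0 z (n 0 z (n 0 z (n 0 z (n 6489419 z (n 0 z (n 0 z
 z))))))))))) (n 454 (n 3278363 z (n 0 z (n 0 z z))) (n 9 (n 0 z (n 0 z (n 0 z (n 3212843 z (n 0
 z z))))) (n 3 (n 0 z (n 2164283 z (n 0 z (n 0 z (n 2 z z))))) (n 1 (n 0 z (n 0 z (n 2164299 z
 (n 10 z (n 0 z (n 0 z z)))))) (n 0 (n 0 z (n 18 z (n 2164315 z (n 0 z (n 0 z (n 26 z (n 0 z (n
 0 z z)))))))) z)))))) (n 454 (n 0 (n 9 (n 0 z (n 0 z (n 0 z (n 0 z (n 0 z z))))) (n 5 (n 0 z (n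
 0 z (n 0 z (n 0 z (n 0 z (n 0 z (n 0 z (n 0 z (n 0 z (n 0 z (n 0 z (n 0 z z)))))))))))) (n 5 (n
 0 z (n 0 z (n 0 z (n 0 z (n 0 z (n 0 z (n 0 z (n 0 z (n 0 z (n 0 z (n 0 z (n 0 z z))))))))))))
 z))) (n 0 (n 1 (n 0 z (n 0 z (n 0 z (n 0 z (n 0 z (n 0 z (n 0 z (n 0 z (n 0 z z))))))))) (n 1
 (n 0 z (n 0 z (n 0 z (n 0 z (n 0 z (n 0 z (n 0 z (n 2 z (n 0 z z))))))))) z)) (n 0 (n 0 z z) (n
 0 z z)))) (n 0 (n 1 (n 3278363 z (n 3278363 z (n 3278363 z (n 3278363 z (n 3278363 z (n 3278363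
 z z)))))) (n 0 z (n 0 z z))) (n 0 z z)))) (n 0xcb26832175090b88885b6b07123016919080d3840 (n 0
 (n 525 (n 0 z (n 0 z (n 0 z (n 0 z (n 0 z (n 3282443 z (n 0 z (n 2 z (n 0 z (n 0 z (n 10 z (n 0
 z (n 0 z (n 0 z (n 0 z (n 0 z (n 0 z (n 0 z (n 0 z (n 0 z z)))))))))))))))))))) (n 33 (n 0 z (n
 0 z (n 3278363 z (n 0 z (n 0 z (n 0 z z)))))) (n 197 (n 0 z (n 0 z (n 0 z (n 18 z (n 0 z (n 0 z
 (n 0 z (n 0 z (n 3212843 z (n 0 z (n 0 z (n 0 z (n 0 z (n 0 z (n 0 z (n 26 z (n 0 z (n 0 z (n 0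
 z z))))))))))))))))))) (n 3 (n 0 z (n 0 z (n 34 z (n 0 z (n 0 z (n 0 z (n 2164283 z z))))))) (n
 1 (n 6636043 z (n 42 z (n 0 z (n 0 z (n 0 z (n 0 z z)))))) (n 0 (n 50 z (n 0 z (n 6636043 z (n
 0 z (n 58 z (n
 0x1f16217f184587f7c277a7fb82f8a07f484583d7df79c7e28a37c287180185177884b7d17928737fa7ca7f97a180d80b7db8048237ea8067f97cf8117a978f81d7d68137957cf83e81987e86e7f30051
 z (n 0 z (n 0 z (n 0 z (n 6636043 z z)))))))))) z)))))) (n 33 (n 0 (n 0 z (n 395 (n 0 z (n 0 z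
 (n 0 z (n 0 z (n 0 z (n 0 z (n 0 z (n 0 z (n 0 z z))))))))) (n 395 (n 0 z (n 0 z (n 0 z (n 0 z
 (n 0 z (n 0 z (n 0 z (n 0 z (n 0 z z))))))))) (n 387 (n 0 z (n 0 z (n 0 z (n 0 z (n 0 z (n 0 z
 (n 0 z (n 0 z (n 0 z (n 0 z z)))))))))) (n 243 (n 0 z (n 0 z (n 0 z (n 0 z (n 0 z (n 0 z (n 0 z
 z))))))) (n 385 (n 0 z (n 0 z (n 0 z (n 0 z (n 0 z (n 0 z (n 0 z (n 0 z (n 0 z (n 0 z (n 0 z (n
 0 z (n 0 z z))))))))))))) (n 385 (n 7749651 z (n 0 z (n 0 z (n 0 z (n 0 z (n 0 z (n 0 z (n 0 z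
 (n 0 z (n 0 z (n 0 z (n 0 z (n 0 z z))))))))))))) z))))))) (n 0 (n 971 (n 0 z (n 0 z (n 0 z (n
 0 z (n 0 z (n 0 z (n 0 z (n 0 z (n 0 z (n 0 z (n 0 z (n 0 z z)))))))))))) (n 971 (n 0 z (n 0 z
 (n 0 z (n 0 z (n 0 z (n 0 z (n 0 z (n 0 z (n 0 z (n 0 z (n 0 z (n 2 (n 2 (n 0 z (n 0 z (n 0 z
 (n 0 z (n 0 (n 8798227 z z) (n 0 (n 8798227 z (n 8798227 z z)) z)))))) (n 2 (n 0 z (n 0 z (n 0
 z (n 0 z (n 0 z (n 0 z z)))))) (n 1 z (n 1 z z)))) z)))))))))))) (n 969 (n 0 z (n 0 z (n 0 z (n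
 0 z (n 0 z (n 0 z (n 0 z (n 0 z (n 0 z (n 0 z (n 0 z (n 0 z z)))))))))))) (n 37 (n 0 z (n 0 z
 (n 0 z (n 0 z (n 0 z (n 0 z (n 0 z (n 0 z z)))))))) (n 385 (n 0 z (n 0 z (n 0 z (n 0 z (n 0 z
 (n 0 z (n 0 z (n 0 z (n 0 z (n 0 z (n 0 z (n 0 z (n 0 z (n 0 z (n 0 z (n 0 z (n 0 z (n 0 z (n 0
 z (n 0 z (n 0 z (n 0 z (n 0 z (n 0 z (n 0 z (n 0 z (n 0 z (n 0 z (n 0 z (n 0 z (n 0 z (n 0 z (n
 0 z (n 0 z (n 0 z (n 0 z z)))))))))))))))))))))))))))))))))))) (n 385 (n 0 z (n 7749651 z (n 0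
 z (n 0 z (n 0 z (n 0 z (n 0 z (n 0 z (n 0 z (n 0 z (n 0 z (n 0 z (n 0 z (n 0 z (n 0 z (n 0 z (n
 0 z (n 0 z (n 0 z (n 0 z (n 0 z (n 0 z (n 0 z (n 0 z (n 0 z (n 0 z (n 0 z (n 0 z (n 0 z (n 0 z
 (n 0 z (n 0 z (n 0 z (n 0 z (n 0 z (n 0 z z)))))))))))))))))))))))))))))))))))) z)))))) (n 0 (n
 0 z (n 1077 (n 0 z (n 0 z (n 0 z (n 0 z (n 0 z (n 0 z (n 0 z (n 0 z z)))))))) (n 243 (n 0 z (n
 0 z (n 0 z (n 0 z (n 0 z (n 0 z (n 0 z (n 0 z (n 0 z (n 0 z (n 0 z (n 0 z (n 0 z (n 0 z (n 0 z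
 (n 0 z (n 0 z z))))))))))))))))) (n 313 (n 0 z (n 0 z (n 0 z (n 0 z (n 0 z (n 0 z (n 0 z (n 0 z
 (n 0 z z))))))))) (n 313 (n 0 z (n 0 z (n 0 z (n 0 z (n 0 z (n 0 z (n 0 z (n 0 z (n 0 z
 z))))))))) z))))) (n 0 (n 1049 (n 0 z (n 0 z (n 0 z (n 0 z (n 2 (n 2 (n 0 z (n 0 z (n 0 z (n 0
 z (n 0 (n 8863763 z z) (n 0 (n 8863763 z (n 8863763 z z)) z)))))) (n 1 z (n 1 z z))) (n 0 z (n
 0 z (n 0 z (n 0 z (n 0 z z)))))))))) (n 15 (n 0 z (n 0 z (n 0 z (n 0 z (n 0 z (n 0 z (n 0 z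
 z))))))) (n 385 (n 0 z (n 0 z (n 0 z (n 0 z (n 0 z (n 0 z (n 0 z (n 0 z (n 0 z (n 0 z (n 0 z (n
 0 z (n 0 z (n 0 z (n 0 z (n 0 z (n 0 z z))))))))))))))))) (n 385 (n 2 z (n 0 z (n 0 z (n 0 z (n
 0 z (n 0 z (n 0 z (n 0 z (n 0 z (n 0 z (n 0 z (n 0 z (n 0 z (n 0 z (n 0 z (n 0 z (n 0 z
 z))))))))))))))))) z)))) (n 0 (n 3 (n 0 z (n 0 z (n 0 z (n 0 z (n 0 z (n 0 z (n 0 z (n 0 z (n 0
 z (n 0 z (n 0 z z))))))))))) (n 409 (n 0 z (n 0 z (n 0 z (n 0 z (n 0 z (n 0 z (n 0 z (n 0 z (n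
 0 z (n 0 z (n 0 z (n 0 z z)))))))))))) (n 409 (n 0 z (n 0 z (n 0 z (n 0 z (n 0 z (n 0 z (n 0 z
 (n 0 z (n 0 z (n 0 z (n 0 z (n 0 z z)))))))))))) z))) (n 0 (n 1 (n 0 z (n 0 z (n 0 z (n 0 z (n
 0 z (n 0 z (n 0 z (n 0 z (n 0 z (n 0 z (n 0 z (n 0 z (n 0 z (n 0 z (n 0 z (n 0 z (n 0 z (n 0 z
 (n 0 z (n 0 z (n 0 z (n 0 z (n 0 z (n 0 z (n 0 z (n 0 z (n 0 z (n 0 z (n 0 z
 z))))))))))))))))))))))))))))) (n 1 (n 0 z (n 0 z (n 0 z (n 0 z (n 0 z (n 7749651 z (n 0 z (n 0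
 z (n 0 z (n 0 z (n 0 z (n 0 z (n 0 z (n 0 z (n 0 z (n 0 z (n 0 z (n 0 z (n 0 z (n 0 z (n 0 z (n
 0 z (n 0 z (n 0 z (n 0 z (n 0 z (n 0 z (n 0 z (n 0 z z))))))))))))))))))))))))))))) z)) (n 0 (n
 0 z z) (n 0 z z)))))))) (n 0 (n 0 z (n 0 z (n 1 (n 3278363 z (n 3278363 z (n 3278363 z (n
 3278363 z (n 3278363 z (n 3278363 z z)))))) (n 0 z (n 0 z (n 0 z z)))))) (n 0 z z)))) (n
 0x1a1126d1811 (n 0 (n 713 (n 0 z (n 3282443 z (n 0 z (n 0 z z)))) (n 35 (n 0 z (n 0 z (n 2 z (n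
 0 z (n 0 z (n 3278363 z z)))))) (n 129 (n 0 z (n 0 z (n 0 z (n 0 z (n 0 z (n 0 z (n 0 z (n 0 z
 (n 3212843 z (n 0 z (n 0 z (n 0 z z)))))))))))) (n 29 (n 10 z (n 0 z (n 0 z (n 0 z (n 0 z (n
 2164283 z (n 0 z (n 0 z (n 0 z z))))))))) (n 1 (n 6554139 z (n 0 z (n 0 z z))) (n 0 (n 0 z (n
 2164315 z (n 0 z z))) z)))))) (n 1 (n 0 (n 1165 (n 0 z (n 0 z (n 0 z (n 0 z (n 0 z z))))) z) (n
 0 z z)) (n 0 (n 1 (n 6554139 z (n 6554139 z (n 6554139 z (n 6554139 z (n 6554139 z (n 6554139 z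
 z)))))) (n 0 z (n 0 z z))) (n 0 z z)))) (n
 0x4464a0c45564699e7814a34094e2122cf508b88885988225c429 (n 0 (n 297 (n 3282443 z z) (n 291 (n 0
 z (n 2 z (n 0 z (n 0 z (n 0 z (n 10 z (n 0 z (n 18 z (n 0 z (n 0 z (n 3278363 z (n 0 z (n 26 z
 z))))))))))))) (n 135 (n 0 z (n 6497611 z (n 34 z (n 3212843 z (n 0 z (n 42 z (n 0 z (n 50 z
 z)))))))) (n 3 (n 0 z (n 0 z (n 58 z (n 0 z (n 0 z (n 2164283 z z)))))) (n 289 (n 0 z (n 0 z (n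
 2164299 z (n 0 z z)))) (n 0 (n 66 z (n 2164315 z (n 74 z z))) z)))))) (n 297 (n 0 (n 0 z (n 0 z
 (n 0 z (n 1293 (n 0 z (n 0 z (n 0 z (n 0 z (n 0 z (n 0 z (n 0 z (n 0 z (n 0 z (n 0 z (n 0 z (n
 0 z (n 0 z (n 0 z (n
 0x7d3aeca000fa71d94002d5cbb28005ab87657fddcd80070a8018537fda127fe83c7ffde48025987fd8fe8026b08001558022777fe7ad8000007ff423802e547ffe47800000800000800bdd800cd380030e7ffeab8000008000008000007fda8e7fe5387fee3e8014488000007ff5dc80116f7fe32e80176a8005de8016e17ffa7f8005817fe8407ff6398008fa8000e38000307ff3fd800b2d8002897ffd777ffcd880074b8001ec0119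
 z (n 0 z (n 0 z z))))))))))))))))) (n 1293 (n 0 z (n
 0xd96dd8000c914bb00015bc8760807aef7f9b407fe9d18020a28070277fa83d7fdf098020a27ffa9d7ffbaf7fb29f8012c98003668029187f5327803caa8000007ff9347fa0887fe3537ff7a97fcbad8000007fce288038a48067128077187fc7ea7fca408006cc80309d80130a8037707ffa6d8066dc7fbb4f80253f7fd3f58026ce801d7b8027607f756b804b517fb019804a3d7fea6180159f7fc44f7ff1b38011f200d9
 z (n 0 z (n 0 z (n 0 z (n 0 z (n 0 z (n 0 z (n 0 z (n 0 z (n 0 z (n 0 z (n 0 z (n 0 z (n 0 z (n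
 0 z (n 0 z z))))))))))))))))) (n 1293 (n 0 z (n 0 z (n 0 z (n 0 z (n 0 z (n 0 z (n 0 z (n 0 z
 (n 0 z (n 0 z (n 0 z (n 0 z (n 0 z (n 0 z (n 0 z (n 0 z (n 0 z z))))))))))))))))) (n 1289 (n 0
 z (n 0 z (n 0 z (n 0 z (n 0 z (n 2 (n 2 (n 0 (n 8864267 z z) (n 0 (n 8864267 z z) (n 0 z (n 0 z
 (n 0 (n 8864267 z (n 8864267 z z)) (n 0 z z)))))) (n 1 z z)) z)))))) (n 577 (n 0 z (n 2 (n 0 z
 z) (n 0 z (n 0 z (n 0 z (n 0 z (n 0 z z))))))) (n 577 (n 0 z (n 0 z (n 0 z (n 0 z (n 0 z (n 0 z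
 (n 2 z z))))))) z))))))))) (n 0 (n 0 z (n 0 z (n 1047 (n 0 z (n 0 z (n 0 z (n 0 z (n 0 z (n 0 z
 (n 0 z (n 0 z z)))))))) (n 1047 (n 0 z (n 0 z (n 0 z (n
 0x137faec8003daf1d90002d5dbb20005aba7647fd3808019948012ec7fc2407fe58780011c8024f37fb2d48048fb8002ec80307c7fed1480000080164e803c368000d2800000800000800bba8032057fd4ba802a74800000802d607fd2a07faa1e7fddd77fdc1a800dc08000007ff9208022de7fb988804aa67fe3308046f77fdfbc8020447fbfb580001c803fdb7ffa2f7ff3d3800258800aff8012bc7fed447ffea57ff60080054c0119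
 z (n 0 z (n 0 z (n 0 z (n 0 z z)))))))) (n 1047 (n 0 z (n 0 z (n 0 z (n 0 z (n 0 z (n 0 z (n
 6625035 z (n 0 z z)))))))) (n 1049 (n 0 z (n 0 z (n 0 z (n 0 z (n 0 z (n 0 z (n 0 z z))))))) (n
 577 (n 0 z (n 0 z (n 0 z (n 0 z (n 0 z (n 0 z (n 0 z (n 0 z (n 0 z (n 0 z z)))))))))) (n 577 (n
 0 z (n 0 z (n 0 z (n 0 z (n 0 z (n 0 z (n 0 z (n 0 z (n 0 z (n 0 z z)))))))))) z)))))))) (n 0
 (n 0 z (n 779 (n 0 z (n 0 z (n 0 z (n 0 z (n 0 z (n 0 z (n 0 z (n 0 z (n 0 z (n 0 z (n 0 z (n 0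
 z (n 0 z (n 0 z (n 0 z (n 0 z (n 0 z (n 0 z (n 0 z z))))))))))))))))))) (n 779 (n 0 z (n 0 z (n
 0 z (n 0 z (n 0 z (n 0 z (n 0 z (n 0 z (n 0 z (n 0 z (n 0 z (n 0 z (n 0 z (n 0 z (n 0 z (n 0 z
 (n 0 z (n 0 z (n 0 z z))))))))))))))))))) (n 779 (n 0 z (n 0 z (n 0 z (n 0 z (n 0 z (n 0 z (n 0
 z (n 0 z (n 0 z (n 0 z (n 2 (n 2 (n 0 z (n 0 z (n 0 z (n 0 z (n 0 z (n 0 z z)))))) (n 2 (n 0 z
 (n 0 z (n 0 z (n 0 z (n 0 z (n 0 z z)))))) (n 1 z z))) (n 0 z (n 0 z (n 0 z (n 0 z (n 0 z (n 0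
 z (n 0 z (n 0 z z))))))))))))))))))) (n 539 (n 0 z (n 0 z (n 0 z (n 0 z (n 0 z (n 0 z (n 0 z (n
 0 z (n 0 z z))))))))) (n 589 (n 0 z (n 0 z (n 0 z (n 0 z (n 0 z (n 0 z z)))))) (n 589 (n 0 z (n
 0 z (n 0 z (n 0 z (n 0 z (n 0 z z)))))) z))))))) (n 0 (n 271 (n 0 z (n 0 z (n 0 z (n 2 (n 0 z
 (n 0 z (n 1 z (n 2 (n 0 (n 2324 z z) (n 0 z (n 0 (n 2324 z z) (n 0 z (n 0 (n 2324 z (n 2324 z
 z)) (n 0 z z)))))) (n 1 z z))))) (n 0 z (n 0 z (n 0 z (n 0 z (n 0 z (n 0 z (n 0 z (n 0 z (n 0 z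
 (n 0 z (n 0 z (n 0 z z)))))))))))))))) (n 271 (n 0 z (n 0 z (n 0 z (n 0 z (n 0 z (n 0 z (n 0 z
 (n 2 (n 0 z (n 2 (n 0 z (n 0 z (n 0 z (n 0 z (n 0 z (n 0 z z)))))) (n 2 (n 0 z (n 0 z (n 0 z (n
 0 z (n 0 z (n 0 z z)))))) (n 2 (n 0 z (n 0 z (n 0 z (n 0 z (n 0 z (n 0 z z)))))) z)))) (n 0 z
 (n 0 z (n 0 z (n 0 z (n 0 z (n 0 z (n 0 z (n 0 z z)))))))))))))))) (n 271 (n 0 z (n 0 z (n 0 z
 (n 0 z (n 0 z (n 0 z (n 0 z (n 0 z (n 0 z (n 0 z (n 0 z (n 0 z (n 0 z (n 0 z (n 0 z (n 0 z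
 z)))))))))))))))) (n 7 (n 0 z (n 0 z (n 0 z (n 0 z z)))) (n 581 (n 6428427 z (n 0 z (n 0 z (n 0
 z (n 0 z z))))) (n 581 (n 0 z (n 0 z (n 0 z (n 0 z (n 6428475 z z))))) z)))))) (n 0 (n 0 z (n 0
 z (n 267 (n 0 z (n 0 z (n 0 z (n 0 z (n 0 z z))))) (n 269 (n 0 z (n 0 z (n 0 z (n 0 z (n 0 z (n
 0 z (n 0 z (n 0 z (n 0 z z))))))))) (n 269 (n 0 z (n 0 z (n 0 z (n 0 z (n 0 z (n 0 z (n 0 z (n
 0 z (n 0 z z))))))))) z))))) (n 0 (n 0 z (n 295 (n 0 z (n 0 z (n 0 z (n 0 z (n 0 z (n 0 z (n 0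
 z (n 0 z (n 0 z z))))))))) (n 481 (n 0 z (n 0 z (n 0 z (n 0 z (n 0 z (n 0 z (n 0 z (n 0 z (n 0
 z (n 0 z (n 0 z (n 0 z (n 0 z (n 0 z (n 0 z (n 0 z (n 0 z (n 0 z (n 0 z (n 0 z (n 0 z (n 0 z (n
 0 z (n 0 z (n 0 z z))))))))))))))))))))))))) (n 481 (n 0 z (n 0 z (n 0 z (n 0 z (n 0 z (n 0 z
 (n 0 z (n 0 z (n 0 z (n 6428475 z (n 0 z (n 0 z (n 0 z (n 0 z (n 0 z (n 0 z (n 0 z (n 0 z (n 0
 z (n 0 z (n 0 z (n 0 z (n 0 z (n 0 z (n 0 z z))))))))))))))))))))))))) z)))) (n 0 (n 295 (n 0 z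
 (n 2 (n 2 (n 0 z (n 0 z (n 0 z (n 0 z (n 0 z (n 0 z z)))))) (n 1 z z)) (n 0 z (n 0 z (n 0 z (n
 0 z (n 0 z (n 0 z (n 0 z (n 0 z (n 0 z z))))))))))) (n 293 (n 0 z (n 0 z (n 0 z (n 0 z (n 0 z
 (n 0 z (n 0 z (n 0 z (n 0 z (n 0 z (n 0 z z))))))))))) (n 293 (n 0 z (n 0 z (n 6428475 z (n 0 z
 (n 0 z (n 0 z (n 0 z (n 0 z (n 0 z (n 0 z (n 0 z z))))))))))) z))) (n 0 (n 5 (n 0 z (n 0 z (n 0
 z (n 0 z (n 0 z (n 0 z (n 0 z (n 0 z (n 0 z (n 0 z z)))))))))) (n 5 (n 0 z (n 0 z (n 0 z (n 0 z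
 (n 0 z (n 0 z (n 0 z (n 0 z (n 0 z (n 0 z z)))))))))) z)) (n 0 (n 0 z z) (n 0 z z)))))))))) (n
 0 (n 1 (n 3282443 z (n 3282443 z (n 3282443 z (n 3282443 z (n 3282443 z (n 3282443 z z)))))) z)
 (n 0 z z)))) (n 0x28b0a8a116a (n 0 (n 693 (n 3282443 z (n 0 z (n 0 z (n 0 z (n 0 z (n 0 z
 z)))))) (n 694 (n
 0x2c42860a07019498c10060329298200c164364020382ca8a80403219455008062b2a318100c264343020180a86ca40070150d9080060b21321000c664354200188c84c640038207608208a089e81e82086081f8a18607e08638e28218218a179f89e85f8a18df7e08608216801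
 z (n 0 z (n 0 z (n 3278363 z (n 0 z (n 0 z (n
 0x59498c1006032a321181c154364120384c62a604030594d0c08061328a18100c065465400186ca8c8600782082082082081f8207e07e08a08208a189e75f7e182181f8217e08218207df8228207a18224001
 z (n
 0x550d9048060321b20101c06536302018cca28604071195195000e1b21b21800c26526520018cca6c640038207e08208628618207a07a092286089e8de75d82279f8208218617a186176281f7df7627e34001
 z (n 0 z (n 0 z (n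
 0x118850c140e0b29aa1901c265363020180c86c860071590d9480060b29321000c165363200388c64c640038208208207a08608228a08a07dc8207a079a7618218228217a086185f85f89e86181f75f8624001
 z (n 0 z (n 0 z (n 0 z z)))))))))))))) (n 692 (n 3212843 z (n 0 z (n 0 z (n 0 z (n 2 z (n 0 z
 (n 0 z z))))))) (n 3 (n
 0xd9499450061b28b10200c165465420182ca8c8240315945500806032a288100c16425421018cc86a8400305909508006032a290801c164352100380c84a420078207a08208a089e81e8608207e08618607df8628e28217e18a17df81f85f8a089f7e08208206001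
 z (n 0 z (n 0 z (n 6488603 z (n 0 z (n 0 z (n
 0x94858c100e1b28b28100c165164020182c86820407055099004061321aa0081c064262010380ca4ca400382082082082081f8207e07e08a08208a189e75f7e182181f8217e08218207df8228207a18224001
 z (n
 0x194858c1006032a320900c164341020186ca4ca42031995194040e032a320080c265465400188ca4ca40078207e08208628618207a07a092286089e8de75d82279f8208218617a186176281f7df7627e34001
 z (n 0 z (n 0 z (n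
 0x1588590140e0b29328200c465465410180ca4ca420705951940406132a320080c464352100382c828420078208208207a08608228a08a07dc8207a079a7618218228217a086185f85f89e86181f75f8624001
 z (n 0 z (n 0 z (n 0 z z)))))))))))))) (n 1 (n 2164299 z (n 0 z (n 0 z (n 0 z (n 10 z (n 0 z (n
 0 z z))))))) (n 0 (n 6624315 z (n 0 z (n 0 z (n 0 z (n 0 z (n 0 z z)))))) z)))))) (n 693 (n 0
 (n 941 (n 0 z (n 0 z (n 0 z (n 0 z (n 0 z (n 0 z (n 0 z (n 0 z (n 0 z z))))))))) z) (n 0 z z))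
 (n 0 (n 1 (n 3282443 z (n 3282443 z (n 3282443 z (n 3282443 z (n 3282443 z (n 3282443 z z))))))
 (n 0 z (n 0 z (n 0 z (n 0 z (n 0 z z)))))) (n 0 z z)))) (n 0xf5211 (n 0 (n 347 (n 0 z (n 0 z (n
 3282443 z (n 0 z (n 0 z (n 0 z z)))))) (n 435 (n 0 z (n 0 z (n 2 z (n 0 z (n 3278363 z z)))))
 (n 433 (n 3212843 z (n 0 z (n 0 z (n 0 z (n 0 z z))))) (n 3 (n 0 z (n 0 z (n 2164283 z z))) (n
 1 (n 0 z (n 2164299 z (n 0 z z))) (n 0 (n 2164315 z (n 0 z z)) z)))))) (n 0 (n 0 z z) (n 0 (n 1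
 (n 2164315 z (n 2164315 z (n 2164315 z (n 2164315 z (n 2164315 z (n 2164315 z z)))))) (n 0 z
 z)) (n 0 z z)))) (n 0x168523 (n 0 (n 153 (n
 0x4ca6a8640391d7a38237db8e18a179f7a27e182082081e7a18648607a07a38a08a37a181e79e89d79e8600801 z
 (n 0 z (n
 0x4ca6ca640381e7e191e7de89e8a27de7df89f8227a07a279e8628df85f89e81e8e18208dd89f7df7de8a00801 z
 (n 3282443 z (n 0 z z))))) (n 39 (n 0 z (n 0 z (n 0 z (n 3278363 z z)))) (n 9 (n 3212843 z (n 0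
 z (n 0 z (n 0 z (n 0 z z))))) (n 27 (n 0 z (n 2164283 z (n 2 z (n 0 z (n 0 z (n 0 z z)))))) (n
 1 (n 6558507 z (n 0 z (n 0 z z))) (n 0 (n 0 z (n
 0x2a640898769a5b7da9a596185e7dc8598608a38627de7e199b9dc76471c92266795f75d91b7da9580041 z (n
 2164315 z (n 4327003 z (n 0 z (n
 0x36c862a64385f8217e17de8607e18217e089f7e07e086081f79e79f8228207e07df8a08227a18618608200081 z
 (n 0 z (n 0 z (n 0 z z))))))))) z)))))) (n 1 (n 0 z z) (n 0 (n 1 (n 6558507 z (n 6558507 z (n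
 6558507 z (n 6558507 z (n 6558507 z (n 6558507 z z)))))) (n 0 z (n 0 z z))) (n 0 z z)))) (n
 0x611d72310b71c840 (n 0 (n 159 (n 2 z (n 0 z (n 0 z (n 3282443 z z)))) (n 33 (n 0 z (n 0 z (n 0
 z (n 3278363 z z)))) (n 9 (n 0 z (n 0 z (n
 0xaca4a608077e28237e375d7207db8658e48a175f7de7a17638638a285b85d7d97df5df91e89f7608e37640801 z
 (n 0 z (n 0 z (n 5441067 z (n 3212843 z (n
 0xb184056c202a6106dd6a09246598e0798929a5c8dd65d89e7ea865923a1771e8df7989205686529686ea9ab72500c1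
 z z)))))))) (n 3 (n 2164283 z (n 10 z (n 0 z (n 0 z z)))) (n 1 (n 0 z (n 0 z (n 0 z (n 18 z (n
 2164299 z z))))) (n 0 (n 0 z (n 0 z (n 0 z (n 0 z (n 6624299 z (n 0 z (n 0 z (n 0 z (n 6624299
 z (n
 0xb184056c202a6106dd6a09246598e0798929a5c8dd65d89e7ea865923a1771e8df7989205686529686ea9ab72500c1
 z (n
 0xb188056c402a6206dd6a09246598e0798929a5c8dd65d89e7ea865923a1771e8df7989205686529686ea9ab72500c1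
 z z))))))))))) z)))))) (n 159 (n 0 (n 267 (n 0 z (n 0 z (n 0 z (n 0 z z)))) (n 243 (n 0 z (n 0
 z (n 0 z (n 0 z (n 0 z z))))) z)) (n 0 (n 339 (n 0 z (n 0 z z)) z) (n 0 z z))) (n 0 (n 1 (n 268
 z (n 4392475 z (n 268 z (n 5447779 z (n 268 z (n 268 z z)))))) (n 0 z (n 0 z (n 1 (n 3282443 z
 (n 3282443 z (n 3282443 z (n 3282443 z (n 3282443 z (n 3282443 z z)))))) z)))) (n 0 z z))))
 z)))))))))), by decide +kernel⟩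
theorem i10476 : ∃ t, chkR KT RW t 10476 10486 = true := ⟨(n 0x69a3418e3aee122 (n 0 (n 321 (n 0
 z (n 3282443 z z)) (n 255 (n 0 z (n 3278363 z (n 0 z (n 0 z z)))) (n 9 (n 2 z (n 3212843 z (n 0
 z (n 0 z z)))) (n 3 (n 0 z (n 2164283 z z)) (n 1 (n 0 z (n 0 z (n 0 z (n 2164299 z z)))) (n 0
 (n 10 z (n 0 z (n 0 z (n 18 z (n 0 z (n 0 z (n 0 z (n 6620219 z z)))))))) z)))))) (n 321 (n 0
 (n 17 (n 0 z (n 0 z (n 0 z (n 0 z z)))) (n 17 (n 0 z (n 0 z (n 0 z (n 0 z z)))) z)) (n 0 (n 0 z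
 z) (n 0 z z))) (n 0 (n 0 z (n 1 (n 3282443 z (n 3282443 z (n 3282443 z (n 3282443 z (n 3282443
 z (n 3282443 z z)))))) z)) (n 0 z z)))) (n 0x298a5 (n 0 (n 177 (n 3282443 z (n 0 z (n 0 z (n 0
 z z)))) (n 255 (n 0 z (n 3278363 z (n 0 z (n 0 z (n 0 z z))))) (n 129 (n 0 z (n 0 z (n 0 z (n
 6562587 z (n 0 z (n 0 z (n 0 z (n 0 z (n 0 z z))))))))) (n 27 (n 0 z (n 0 z (n 0 z (n 0 z (n 0
 z (n 2164283 z (n 0 z (n 0 z (n 0 z (n 0 z z)))))))))) (n 1 (n 0 z (n 0 z (n 0 z (n 0 z (n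
 6562587 z z))))) (n 0 (n 0 z (n 0 z (n 0 z (n 0 z (n 0 z (n 2 z (n
 0x436428076857a827b8d6d97ab8a8a76777a66887e6c7d877c9373787b8f907b76949a7789a77482837371838c854b76957684678e0049
 z (n 0 z (n 0 z (n 0 z (n 0 z (n 2164315 z z)))))))))))) z)))))) (n 177 (n 0 z z) (n 0 (n 1 (n
 3282443 z (n 3282443 z (n 3282443 z (n 3282443 z (n 3282443 z (n 3282443 z z)))))) (n 0 z (n 0
 z (n 0 z z)))) (n 0 z z)))) (n 0x1985dc346a30d9310753841cf47882965582596c128ba19 (n 0 (n 405 (n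
 0 z (n 0 z (n 3282443 z z))) (n 33 (n 0 z (n 2 z (n 3278363 z (n 10 z (n 0 z (n 18 z (n 0 z
 z))))))) (n 403 (n 3212843 z (n 26 z z)) (n 3 (n 2164283 z (n 0 z z)) (n 1 (n 34 z (n
 0x8ca8a60403857280847e8f728a74817a887d9282757a8d7e8e748b788977827b8d807e827d8577767f8388807a857e758b7c868078897c0809
 z (n 0 z (n 42 z (n 50 z (n 0 z (n 2164299 z (n 0 z (n
 0x4ca4ca420782817b867c8d7f80817d887e778a7d7278837f866a8f718178857d90817688808586787781808180878274957993737191820809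
 z (n 0 z (n 0 z (n 0 z (n
 0x2ca8a6040382807f8280808080807f8180808180808080808080808080807f80808081808080808080807f7f81808080808081808080800809
 z (n
 0x24ca8a2040389906c72849d7a847877837b64aa6d5c70907a8865a75a796c80939b675ba2748c7f617aa3946486ac7281bb50a6415ac3680809
 z (n 0 z (n 0 z (n 58 z z))))))))))))))))) (n 0 (n 0 z (n 0 z (n 0 z (n 0 z (n 0 z (n 66 z (n
 2164315 z (n 0 z (n 0 z (n 0 z z)))))))))) z)))))) (n 403 (n 0 (n 0 z (n 0 z (n 1359 (n 0 z (n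
 0 z (n 0 z z))) (n 1357 (n 0 z (n 0 z (n 0 z (n 0 z (n 0 z (n 2 (n 0 z (n 0 z (n 0 z (n 1 z
 z)))) z)))))) (n 1357 (n 0 z (n 0 z (n 0 z (n 0 z (n 0 z (n 0 z z)))))) (n 1357 (n 0 z (n 0 z
 (n 0 z (n 0 z (n 0 z (n 0 z z)))))) (n 1357 (n 0 z (n 0 z (n 0 z (n 0 z (n 0 z (n 0 z z))))))
 (n 61 (n 0 z (n 0 z (n 0 z (n 0 z (n 0 z (n 0 z (n 0 z (n 0 z (n 0 z (n 0 z (n 0 z (n 0 z (n 0
 z (n 0 z (n 0 z (n 0 z (n 0 z (n 0 z (n 0 z (n 0 z z)))))))))))))))))))) z)))))))) (n 0 (n 0 z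
 (n 271 (n 0 z (n 0 z (n 0 z (n 0 z (n 0 z z))))) (n 3 (n 0 z (n 0 z (n 0 z (n 0 z (n 0 z (n 0 z
 z)))))) (n 3 (n 0 z (n 0 z (n 0 z (n 0 z (n 0 z (n 0 z z)))))) (n 3 (n 0 z (n 0 z (n 0 z (n 0 z
 (n 0 z (n 0 z z)))))) (n 3 (n 0 z (n 0 z (n 0 z (n 0 z (n 0 z (n 2 (n 1 z z) z)))))) (n 5 (n 0
 z (n 0 z (n 0 z (n 0 z (n 0 z z))))) z))))))) (n 0 (n 271 (n 0 z (n 0 z (n 0 z z))) (n 51 (n 0
 z (n 0 z (n 0 z (n 0 z (n 0 z (n 0 z (n 0 z (n 0 z (n 0 z (n 0 z (n 0 z (n 0 z (n 0 z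
 z))))))))))))) (n 51 (n 0 z (n 0 z (n 0 z (n 0 z (n 0 z (n 0 z (n 0 z (n 0 z (n 0 z (n 0 z (n 0
 z (n 0 z (n 0 z z))))))))))))) (n 51 (n 0 z (n 0 z (n 0 z (n 0 z (n 0 z (n 0 z (n 0 z (n 0 z (n
 0 z (n 0 z (n 0 z (n 0 z (n 0 z z))))))))))))) (n 51 (n 0 z (n 0 z (n 0 z (n 0 z (n 0 z (n 0 z
 (n 0 z (n 0 z (n 0 z (n 0 z (n 0 z (n 0 z (n 0 z z))))))))))))) (n 5 (n 0 z (n 0 z (n 2 z (n 0
 z (n 0 z (n 0 z (n 0 z (n 0 z (n 0 z z))))))))) z)))))) (n 0 (n 303 (n 0 z (n 0 z (n 0 z (n 0 z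
 (n 0 z (n 0 z (n 0 z (n 0 z (n 0 z (n 0 z (n 0 z (n 0 z (n 0 z (n 0 z (n 0 z (n 0 z (n 0 z (n 0
 z (n 0 z (n 0 z (n 0 z (n 0 z (n 0 z (n 0 z (n 0 z (n 0 z (n 0 z (n 0 z (n 0 z (n 0 z (n 0 z (n
 0 z (n 0 z (n 0 z (n 0 z (n 0 z (n 0 z (n 0 z (n 0 z (n 0 z (n 0 z (n 0 z (n 0 z (n 0 z (n 0 z
 (n 0 z (n 0 z (n 0 z (n 0 z z))))))))))))))))))))))))))))))))))))))))))))))))) (n 303 (n 0 z (n
 0 z (n 0 z (n 0 z (n 0 z (n 0 z (n 0 z (n 0 z (n 0 z (n 0 z (n 0 z (n 0 z (n 0 z (n 0 z (n 0 z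
 (n 0 z (n 0 z (n 0 z (n 0 z (n 0 z (n 0 z (n 0 z (n 0 z (n 0 z (n 0 z (n 0 z (n 0 z (n 0 z (n 0
 z (n 0 z (n 0 z (n 0 z (n 0 z (n 0 z (n 0 z (n 0 z (n 0 z (n 0 z (n 0 z (n 0 z (n 0 z (n 0 z (n
 0 z (n 0 z (n 0 z (n 0 z (n 0 z (n 0 z (n 0 z
 z))))))))))))))))))))))))))))))))))))))))))))))))) (n 303 (n 0 z (n 0 z (n 0 z (n 0 z (n 0 z (n
 0 z (n 0 z (n 0 z (n 0 z (n 0 z (n 0 z (n 0 z (n 0 z (n 0 z (n 0 z (n 0 z (n 0 z (n 0 z (n 0 z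
 (n 0 z (n 0 z (n 0 z (n 0 z (n 0 z (n 0 z (n 0 z (n 0 z (n 0 z (n 0 z (n 0 z (n 0 z (n 0 z (n 0
 z (n 0 z (n 0 z (n 0 z (n 0 z (n 0 z (n 0 z (n 0 z (n 0 z (n 0 z (n 0 z (n 0 z (n 0 z (n 0 z (n
 0 z (n 0 z (n 0 z z))))))))))))))))))))))))))))))))))))))))))))))))) (n 303 (n 0 z (n 0 z (n 0
 z (n 0 z (n 0 z (n 0 z (n 0 z (n 0 z (n 0 z (n 0 z (n 0 z (n 0 z (n 0 z (n 0 z (n 0 z (n 0 z (n
 0 z (n 0 z (n 0 z (n 0 z (n 0 z (n 0 z (n 0 z (n 0 z (n 0 z (n 0 z (n 0 z (n 0 z (n 0 z (n 0 z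
 (n 0 z (n 0 z (n 0 z (n 0 z (n 2 (n 1 z z) (n 0 z (n 0 z (n 0 z (n 0 z (n 0 z (n 0 z (n 0 z (n
 0 z (n 0 z (n 0 z (n 0 z (n 0 z (n 0 z (n 0 z
 z))))))))))))))))))))))))))))))))))))))))))))))))) (n 301 (n 0 z (n 0 z (n 0 z (n 0 z (n 0 z
 z))))) z))))) (n 0 (n 0 z (n 0 z (n 0 z (n 1 (n 0 z (n 7754035 z (n 0 z (n 0 z (n 0 z z)))))
 z)))) (n 0 (n 0 z (n 0 z (n 1 (n 7750403 z (n 0 z (n 0 z z))) z))) (n 0 (n 0 z (n 25 (n 0 z (n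
 0 z (n 0 z (n 0 z (n 0 z (n 0 z (n 0 z (n 0 z (n 0 z (n 0 z (n 0 z (n 0 z (n 0 z (n 0 z (n 0 z
 (n 0 z (n 0 z (n 0 z (n 0 z (n 0 z (n 0 z (n 0 z (n 0 z (n 0 z (n 0 z (n 0 z (n 0 z (n 0 z (n 0
 z (n 0 z (n 0 z z))))))))))))))))))))))))))))))) z)) (n 0 (n 5 (n 0 z (n 0 z (n 0 z (n 0 z (n 0
 z (n 0 z z)))))) z) (n 0 z z))))))))) (n 0 (n 1 (n 3212843 z (n 3212843 z (n 3212843 z (n
 3212843 z (n 3212843 z (n 3212843 z z)))))) (n 1 (n 3244 z (n 3244 z (n 3244 z (n 3244 z (n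
 3244 z (n 3244 z z)))))) z)) (n 0 z z)))) (n 0x3364d21b96540b2e10ab6482dbaa90492c86663052e1621
 (n 0 (n 549 (n 0 z (n 3282443 z (n 0 z (n 0 z (n 0 z z))))) (n 317 (n 0 z (n 0 z (n 2 z (n 10 z
 (n 3278363 z (n 18 z (n 26 z (n 0 z (n 0 z z))))))))) (n 129 (n 0 z (n 3212843 z z)) (n 27 (n
 34 z (n 0 z (n 42 z (n 50 z (n 2164283 z (n 0 z z)))))) (n 1 (n 58 z (n 2164299 z z)) (n 0 (n
 0x10ca686200798689095847169a270897d8b7f7d7d7c7d768475a286708a7780797c7c897c778a787b837485807d6b6b94809966827f8b770809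
 z (n
 0x16ca686400764ae806e9e8ca689d98d9e848785a8877c96a48d873e5e4967704a84714d86856c9fb9957e867c886b77ae18ad848c736c7a0809
 z (n 2164315 z (n
 0x4c82c8060380808181807f80808080807f807f80817f80808080808080808080808080807f80808080808080807f7f80808080808080800809
 z (n 0 z (n 0 z (n 0 z (n 0 z (n
 0x4ca6864007837e8182827c7e818182827d808080827f8081808381817f7e7f81807f80817f807f7f808080828080808180827f808081800809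
 z (n 0 z (n 66 z (n 0 z (n 0 z (n 0 z z)))))))))))))) z)))))) (n 129 (n 0 (n 0 z (n 0 z (n 0 z
 (n 633 (n 0 z (n 0 z (n 0 z (n 0 z z)))) (n 633 (n 0 z (n 0 z (n 0 z (n 0 z z)))) (n 633 (n 0 z
 (n 0 z (n 0 z (n 2 (n 1 z (n 1 z z)) z)))) (n 495 (n 0 z (n 0 z (n 0 z (n 0 z (n 0 z (n 0 z
 z)))))) (n 509 (n 0 z (n 0 z (n 7754531 z (n 0 z (n 0 z z))))) z)))))))) (n 0 (n 0 z (n 0 z (n
 633 (n 0 z (n 2 (n 0 z (n 0 z (n 1 z (n 1 z z)))) z)) (n 633 (n 0 z (n 0 z z)) (n 633 (n 0 z (n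
 0 z z)) (n 501 (n 0 z (n 2 (n 1 z z) (n 0 z (n 0 z (n 0 z (n 0 z (n 0 z z))))))) (n 509 (n 0 z
 (n 0 z (n 0 z (n 0 z (n 0 z (n 0 z (n 0 z (n 0 z (n 0 z (n 0 z (n 0 z (n 0 z (n 0 z
 z))))))))))))) z))))))) (n 0 (n 0 z (n 405 (n 0 z (n 0 z (n 0 z (n 0 z (n 0 z (n 0 z (n 0 z (n
 0 z (n 0 z (n 0 z z)))))))))) (n 405 (n 0 z (n 0 z (n 0 z (n 0 z (n 0 z (n 0 z (n 0 z (n 0 z (n
 0 z (n 0 z z)))))))))) (n 405 (n 0 z (n 0 z (n 0 z (n 0 z (n 0 z (n 0 z (n 0 z (n 0 z (n 0 z (n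
 0 z z)))))))))) (n 537 (n 0 z (n 0 z (n 0 z (n 0 z (n 0 z z))))) (n 553 (n 0 z (n 0 z (n 0 z (n
 0 z (n 0 z (n 0 z (n 0 z (n 0 z (n 0 z (n 0 z (n 0 z (n 0 z (n 0 z (n 0 z (n 0 z (n 0 z
 z)))))))))))))))) z)))))) (n 0 (n 535 (n 0 z (n 0 z (n 0 z (n 0 z (n 0 z (n 0 z (n 0 z (n 0 z
 (n 0 z (n 0 z (n 0 z (n 0 z z)))))))))))) (n 535 (n 0 z (n 0 z (n 0 z (n 0 z (n 0 z (n 0 z (n 0
 z (n 0 z (n 0 z (n 0 z (n 0 z (n 0 z z)))))))))))) (n 535 (n 0 z (n 0 z (n 0 z (n 0 z (n 0 z (n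
 0 z (n 0 z (n 0 z (n 0 z (n 0 z (n 0 z (n 0 z z)))))))))))) (n 483 (n 0 z (n 0 z (n 0 z (n 0 z
 (n 0 z (n 0 z (n 0 z z))))))) (n 533 (n 0 z (n 7741699 z (n 0 z z))) z))))) (n 0 (n 0 z (n 0 z
 (n 51 (n 0 z (n 0 z (n 0 z (n 0 z (n 0 z z))))) (n 601 (n 0 z (n 0 z (n 0 z (n 0 z (n 0 z (n 0
 z (n 0 z (n 0 z (n 0 z (n 0 z (n 0 z (n 0 z z)))))))))))) z)))) (n 0 (n 0 z (n 51 (n 0 z (n 0 z
 (n 0 z (n 0 z z)))) (n 1081 (n 2 z (n 0 z (n 0 z (n 0 z (n 0 z (n 0 z (n 0 z (n 0 z (n 0 z (n 0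
 z (n 0 z (n 0 z (n 0 z (n 0 z (n 0 z (n 0 z (n 0 z z))))))))))))))))) z))) (n 0 (n 63 (n 0 z (n
 0 z (n 0 z (n 0 z (n 0 z (n 0 z z)))))) (n 581 (n 0 z (n 0 z (n 0 z (n 0 z (n 0 z (n 0 z (n 0 z
 (n 0 z (n 0 z (n 0 z (n 0 z (n 0 z (n 0 z (n 0 z (n 0 z (n 0 z (n 0 z (n 0 z (n 0 z (n 0 z (n 0
 z (n 0 z (n 0 z (n 0 z (n 0 z (n 0 z (n 0 z (n 0 z (n 0 z (n 0 z (n 0 z (n 0 z (n 0 z (n 0 z (n
 0 z (n 0 z (n 0 z (n 0 z (n 0 z (n 0 z (n 0 z (n 0 z (n 0 z (n 0 z (n 0 z (n 0 z (n 0 z (n 0 z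
 (n 0 z z))))))))))))))))))))))))))))))))))))))))))))))))) z)) (n 0 (n 1 (n 0 z (n 0 z (n 0 z (n
 0 z (n 0 z (n 0 z (n 0 z (n 0 z (n 0 z z))))))))) z) (n 0 z z))))))))) (n 0 (n 0 z (n 1 (n
 3212843 z (n 3212843 z (n 3212843 z (n 3212843 z (n 3212843 z (n 3212843 z z)))))) z)) (n 0 z
 z)))) (n 0x368a519a8a82625560a26b3112 (n 0 (n 443 (n 0 z (n 3282443 z (n 0 z (n 0 z (n 0 z (n 0
 z z)))))) (n 35 (n 3278363 z (n 0 z (n 0 z (n 0 z (n 0 z z))))) (n 9 (n 0 z (n 2 z (n 0 z (n 0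
 z (n 3212843 z z))))) (n 3 (n 0 z (n 10 z (n 2164283 z (n 0 z (n 0 z (n 0 z (n 0 z (n 0 z (n 0
 z z))))))))) (n 1 (n 0 z (n 0 z (n
 0x4ad84009530801296108197e17318b199e8008a56598797d3764b265db97b19e907ab6921853bc767972e58b7b95ec961662800ac773873176285f88b88170fb097d692e86c86f59680068b80e6f97598009c180000d1
 z (n 0 z (n
 0x8c84620a038008007ff8008018018007ff8007ff8018008018007fe7ff8008008008017ff8008007ff8008018038027fe8018018007fe8017ff8008007ff7fe8027ff8018008018008008008008008000811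
 z (n 0 z (n 2164299 z (n 0 z (n
 0x12eb1002596207f27c57e282e83c8007ca8257bd85676692a70690851088f9259867b08ff7ea7c85728586289237c48008cb7c57e289685f9227586ca95981e87d7506ae6957da7718747257da7429278260091
 z z))))))))) (n 0 (n 18 z (n 0 z (n 0 z (n
 0xec82c820037f68167b881587f80083c78081b7ee7c68cc78e8556738368958297fd9167b37cd7897ca7d38687738038af7dd7bc7c781e80a8367bf8bd7a886382380779d7fb7c47fb7ca7fd8038307fc0811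
 z (n 0 z (n 0 z (n
 0x4ad84009530801296108197e17318b199e8008a56598797d3764b265db97b19e907ab6921853bc767972e58b7b95ec961662800ac773873176285f88b88170fb097d692e86c86f59680068b80e6f97598009c180000d1
 z (n 0 z (n 0 z (n
 0x10ca46208077f78017e08128388048097d28018067db8777d183970282785781b7fb8957c77eb7c67e57e48397c97ff8527e97ea7e18258198137c486e7e183e7eb8107b38017cc80b7d87ff8018207ff0811
 z (n 26 z (n 2164315 z (n 34 z z))))))))))))) z)))))) (n 35 (n 0 (n 7 (n 0 z (n 0 z (n 0 z (n 0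
 z (n 0 z (n 0 z (n 0 z (n 0 z (n 0 z z))))))))) (n 13 (n 0 z (n 0 z (n 0 z (n 0 z z)))) (n 13
 (n 0 z (n 0 z (n 0 z (n 0 z z)))) (n 13 (n 0 z (n 0 z (n 0 z (n 0 z z)))) z)))) (n 0 (n 49 (n 0
 z (n 0 z (n 0 z (n 0 z (n 0 z (n 0 z (n 0 z (n 0 z (n 0 z z))))))))) (n 49 (n 0 z (n 0 z (n 0 z
 (n 0 z (n 0 z (n 0 z (n 0 z (n 0 z (n 0 z z))))))))) (n 49 (n 0 z (n 0 z (n 0 z (n 0 z (n 0 z
 (n 0 z (n 0 z (n 0 z (n 0 z z))))))))) z))) (n 0 (n 0 z (n 0 z z)) (n 0 (n 0 z z) (n 0 z z)))))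
 (n 0 (n 1 (n 3278363 z (n 3278363 z (n 3278363 z (n 3278363 z (n 3278363 z (n 3278363 z z))))))
 (n 0 z (n 0 z (n 0 z (n 0 z z))))) (n 0 z z)))) (n 0x8629703149a10a26607123022b4310126940 (n 0
 (n 177 (n 0 z (n 0 z (n
 0x1ec86c824078000017fffdd8000217ffdf280020d8002a080004180002c7ffd5c7ffd927ffc928001ac7fff527ffe537ffb2c7ffe447fff1b7ffba48003cb8001598007f58003998000d17fffac8000c780024a80019580045b8001ae80004080000f7ffa6f8004af7ff18e7ffb177ffb5d8009098001517fffcf7ffd837fff4f7ffc7b80070f8007ad8002347ffac47ffd867ffe068008da7ffafa0819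
 z (n 3282443 z (n 2 z (n 4400651 z (n 0 z (n 0 z (n 0 z (n 10 z (n 0 z z))))))))))) (n 249 (n 0
 z (n 3278363 z (n 0 z (n 0 z z)))) (n 129 (n 18 z (n 0 z (n 26 z (n 0 z (n 0 z (n 0 z (n 0 z (n
 0 z (n 34 z (n 0 z (n 3212843 z z))))))))))) (n 3 (n 0 z (n 0 z (n 0 z (n 0 z (n 0 z (n 0 z (n
 0 z (n 0 z (n 0 z (n 2164283 z (n 0 z z))))))))))) (n 1 (n 2164299 z (n 0 z (n 0 z (n 0 z (n 0
 z (n 0 z (n 0 z (n 42 z (n 0 z (n 0 z (n 0 z (n 0 z z)))))))))))) (n 0 (n 0 z (n 2164315 z (n 0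
 z (n 50 z (n 0 z (n 0 z (n 0 z z))))))) z)))))) (n 249 (n 0 (n 0 z (n 1167 (n 0 z (n 0 z (n 0 z
 (n 0 z (n 2 (n 0 z (n 0 z (n 1 z (n 1 z z)))) z))))) (n 1167 (n 0 z (n 0 z (n 0 z (n 0 z (n 0 z
 z))))) (n 1167 (n 0 z (n 0 z (n 0 z (n 0 z (n 0 z z))))) (n 357 (n 0 z (n 0 z (n 0 z (n 0 z (n
 0 z (n 0 z (n 0 z (n 0 z (n 0 z z))))))))) (n 353 (n 0 z (n 0 z (n 0 z (n 0 z (n 0 z (n 0 z (n
 0 z (n 0 z (n 0 z (n 0 z z)))))))))) z)))))) (n 0 (n 775 (n 0 z (n 7750163 z (n 0 z (n 0 z (n 0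
 z (n 0 z (n 0 z z))))))) (n 775 (n 0 z (n 0 z (n 0 z (n 0 z (n 0 z (n 0 z (n 0 z z))))))) (n
 775 (n 0 z (n 0 z (n 0 z (n 0 z (n 0 z (n 0 z (n 0 z z))))))) (n 771 (n 0 z (n 0 z (n 0 z (n 0
 z (n 0 z z))))) (n 769 (n 0 z (n 0 z (n 0 z (n 0 z (n 0 z (n 0 z (n 0 z z))))))) z))))) (n 0 (n
 0 z (n 0 z (n 3 (n 0 z (n 0 z (n 0 z (n 0 z (n 0 z (n 0 z (n 0 z (n 0 z (n 0 z (n 0 z
 z)))))))))) (n 53 (n 0 z (n 0 z (n 0 z (n 0 z (n 0 z (n 0 z (n 0 z (n 0 z (n 0 z (n 0 z (n 0 z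
 (n 0 z z)))))))))))) z)))) (n 0 (n 0 z (n 255 (n 0 z (n 0 z (n 0 z (n 0 z z)))) (n 257 (n 0 z
 (n 0 z (n 0 z (n 0 z (n 0 z (n 0 z (n 0 z (n 0 z (n 0 z (n 0 z z)))))))))) z))) (n 0 (n 783 (n
 0 z (n 0 z (n 0 z (n 0 z z)))) (n 781 (n 0 z (n 0 z (n 0 z (n 0 z (n 0 z (n 0 z (n 0 z (n 0 z
 (n 0 z (n 0 z z)))))))))) z)) (n 0 (n 797 (n 0 z (n 0 z (n 0 z (n 0 z (n 0 z (n 0 z (n 0 z (n 0
 z (n 0 z (n 0 z (n 0 z (n 0 z (n 0 z z))))))))))))) z) (n 0 z z))))))) (n 0 (n 0 z (n 1 (n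
 3278363 z (n 3278363 z (n 3278363 z (n 3278363 z (n 3278363 z (n 3278363 z z)))))) (n 0 z (n 0
 z z)))) (n 0 z z)))) (n 0xc3366610b7182cb9a86cb6454db345cb5c194e9c314cb08b4d826e6d812b240 (n 0
 (n 693 (n 3282443 z (n 2 z (n 10 z (n 0 z z)))) (n 691 (n 3278363 z (n 0 z (n 18 z (n 26 z (n 0
 z (n 0 z (n 0 z (n 34 z z)))))))) (n 692 (n 3212843 z (n 0 z (n 42 z (n 0 z (n 0 z (n 50 z (n 0
 z (n 0 z z)))))))) (n 3 (n 2164283 z (n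
 0x10ca8ca84037e87778087827f7a857982728b827f837a877c8281808977868075867c8a707b857d7d7e8c6f868a7f96798681708a8777760809
 z (n 58 z (n
 0x195194080602ca4c840037f807f80807f7f807f8080808180808181818080807f7f8080817f80807f8081808180807f808081808180808080808080801009
 z (n
 0x632a32a100c1194994840e12c84c840077ca66c8271838e72837a7887707c8d8e7a8d7f80856a8a74859d607c6e8b7288828a7a758d5879ab709275888d6c809b7a751809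
 z (n
 0x2195190800e08ca8c8200778b67e837581917a707d9a6287779094758b8e5d747484767fb150797c966d5eb15ea9924fa4ae666a9780839251a8ac60731009
 z (n
 0x595190080604ca8ca80037e8481807d7e8083827c7f798780847e847e817d83807e877c827f7e7d7b857f81847e88848377827f7c7e817b7d818082801009
 z (n 66 z z)))))))) (n 1 (n 2164299 z (n 0 z (n 0 z (n 0 z (n 0 z (n 74 z (n 0 z (n 0 z (n 0 z
 (n 0 z (n 0 z (n 0 z (n 0 z (n 0 z (n 0 z (n 0 z (n 0 z (n 0 z (n 82 z (n 90 z (n 0 z (n 0 z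
 z)))))))))))))))))))))) (n 0 (n 6620219 z z) z)))))) (n 0 (n 0 (n 0 z (n 1383 (n 0 z (n 0 z (n
 0 z (n 0 z (n 0 z (n 0 z (n 0 z (n 0 z (n 0 z (n 0 z (n 0 z (n 0 z (n 0 z (n 0 z (n 0 z
 z))))))))))))))) (n 1383 (n 0 z (n 0 z (n 2 (n 0 z (n 1 z (n 1 z (n 1 z (n 1 z (n 1 z (n 1 z (n
 1 z z)))))))) (n 0 z (n 0 z (n 0 z (n 0 z (n 0 z (n 0 z (n 0 z (n 0 z (n 0 z (n 0 z (n 0 z (n 0
 z z))))))))))))))) (n 1383 (n 0 z (n 0 z (n 0 z (n 0 z (n 0 z (n 0 z (n 0 z (n 0 z (n 0 z (n 0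
 z (n 0 z (n 0 z (n 0 z (n 0 z (n 0 z z))))))))))))))) (n 1385 (n 0 z (n 0 z (n 0 z (n 0 z (n 0
 z (n 0 z (n 0 z (n 0 z z)))))))) (n 1385 (n 0 z (n 0 z (n 0 z (n 0 z (n 0 z (n 0 z (n 0 z (n 0
 z z)))))))) (n 11 (n 2 (n 0 z (n 1 z (n 1 z (n 1 z z)))) (n 0 z (n 0 z (n 0 z (n 0 z (n 0 z (n
 0 z (n 0 z z)))))))) (n 11 (n 0 z (n 0 z (n 0 z (n 0 z (n 0 z (n 0 z (n 0 z (n 0 z z)))))))) (n
 3 (n 0 z (n 0 z (n 0 z (n 0 z (n 0 z (n 0 z (n 0 z (n 0 z (n 0 z (n 0 z (n 0 z z))))))))))) (n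
 3 (n 0 z (n 0 z (n 0 z (n 0 z (n 0 z (n 0 z (n 0 z (n 0 z (n 0 z (n 0 z (n 0 z z))))))))))) (n
 3 (n 0 z (n 0 z (n 0 z (n 0 z (n 0 z (n 0 z (n 0 z (n 0 z (n 0 z (n 0 z (n 0 z z)))))))))))
 z))))))))))) (n 0 (n 1383 (n 0 z (n 0 z (n 0 z (n 0 z (n 0 z (n 0 z (n 0 z z))))))) (n 1383 (n
 0 z (n 0 z (n 2 (n 0 z (n 1 z (n 1 z (n 1 z (n 1 z (n 1 z (n 1 z (n 1 z z)))))))) (n 0 z (n 0 z
 (n 0 z (n 0 z z))))))) (n 1383 (n 0 z (n 0 z (n 0 z (n 0 z (n 0 z (n 0 z (n 7545187 z z)))))))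
 (n 1385 (n 0 z (n 0 z (n 0 z (n 0 z (n 0 z (n 0 z (n 0 z z))))))) (n 1385 (n 0 z (n 0 z (n 0 z
 (n 0 z (n 0 z (n 0 z (n 0 z z))))))) (n 1405 (n 0 z (n 0 z (n 0 z (n 0 z (n 0 z (n 0 z (n 0 z
 (n 0 z (n 0 z z))))))))) (n 1405 (n 0 z (n 0 z (n 0 z (n 0 z (n 0 z (n 0 z (n 0 z (n 0 z (n 0 z
 z))))))))) (n 925 (n 0 z (n 0 z (n 0 z (n 7750427 z (n 0 z (n 0 z (n 0 z (n 0 z z)))))))) (n
 925 (n 0 z (n 0 z (n 0 z (n 0 z (n 0 z (n 0 z (n 0 z (n 0 z z)))))))) (n 925 (n 0 z (n 0 z (n 0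
 z (n 0 z (n 0 z (n 0 z (n 0 z (n 0 z z)))))))) z)))))))))) (n 0 (n 0 z (n 0 z (n 1433 (n
 7741699 z (n 0 z (n 0 z (n 0 z (n 0 z (n 0 z (n 0 z (n 0 z z)))))))) (n 1433 (n 0 z (n 0 z (n 0
 z (n 0 z (n 0 z (n 0 z (n 0 z (n 0 z z)))))))) (n 7 (n 0 z (n 0 z (n 0 z (n 0 z (n 0 z (n 0 z
 (n 2 (n 0 z (n 1 z (n 1 z (n 1 z z)))) (n 0 z (n 0 z (n 0 z (n 0 z (n 0 z (n 0 z (n 0 z (n 0 z
 (n 0 z (n 0 z (n 0 z (n 0 z (n 0 z z)))))))))))))))))))) (n 7 (n 0 z (n 0 z (n 0 z (n 0 z (n 0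
 z (n 0 z (n 0 z (n 0 z (n 0 z (n 0 z (n 0 z (n 0 z (n 0 z (n 0 z (n 0 z (n 0 z (n 0 z (n 0 z (n
 0 z (n 7741699 z z)))))))))))))))))))) (n 3 (n 0 z (n 0 z (n 0 z (n 0 z (n 0 z (n 0 z z))))))
 (n 3 (n 0 z (n 0 z (n 0 z (n 0 z (n 0 z (n 0 z z)))))) (n 3 (n 0 z (n 0 z (n 0 z (n 0 z (n 0 z
 (n 7741699 z z)))))) z))))))))) (n 0 (n 0 z (n 933 (n 0 z (n 0 z (n 0 z (n 0 z (n 0 z (n 0 z (n
 0 z (n 0 z (n 0 z z))))))))) (n 933 (n 0 z (n 0 z (n 0 z (n 0 z (n 0 z (n 0 z (n 0 z (n 0 z (n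
 0 z z))))))))) (n 55 (n 0 z (n 0 z (n 0 z (n 0 z (n 0 z (n 0 z (n 0 z (n 0 z (n 0 z (n 0 z (n 0
 z (n 0 z (n 0 z (n 0 z (n 0 z (n 0 z z)))))))))))))))) (n 55 (n 0 z (n 0 z (n 0 z (n 0 z (n 0 z
 (n 0 z (n 0 z (n 0 z (n 0 z (n 0 z (n 0 z (n 0 z (n 0 z (n 0 z (n 0 z (n 0 z z))))))))))))))))
 (n 805 (n 0 z (n 0 z (n 0 z (n 0 z (n 0 z (n 0 z (n 0 z (n 0 z (n 0 z (n 0 z (n 0 z (n 0 z (n 0
 z (n 0 z (n 0 z (n 0 z (n 0 z (n 0 z (n 0 z (n 0 z (n 0 z (n 0 z z)))))))))))))))))))))) (n 805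
 (n 2 (n 0 z z) (n 0 z (n 0 z (n 0 z (n 0 z (n 0 z (n 0 z (n 0 z (n 0 z (n 0 z (n 0 z (n 0 z (n
 0 z (n 0 z (n 0 z (n 0 z (n 0 z (n 0 z (n 0 z (n 0 z (n 0 z (n 0 z z)))))))))))))))))))))) (n
 805 (n 0 z (n 0 z (n 0 z (n 0 z (n 0 z (n 0 z (n 0 z (n 0 z (n 0 z (n 0 z (n 0 z (n 0 z (n 0 z
 (n 0 z (n 0 z (n 0 z (n 0 z (n 0 z (n 0 z (n 0 z (n 0 z (n 0 z z))))))))))))))))))))))
 z)))))))) (n 0 (n 933 (n 0 z (n 0 z (n 0 z (n 0 z z)))) (n 933 (n 0 z (n 0 z (n 0 z (n 0 z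
 z)))) (n 1405 (n 0 z (n 0 z (n 0 z (n 0 z z)))) (n 1405 (n 0 z (n 0 z (n 0 z (n 0 z z)))) (n
 925 (n 0 z (n 0 z (n 0 z (n 0 z (n 0 z (n 2 (n 0 z (n 0 z z)) (n 0 z (n 0 z (n 0 z (n 0 z
 z)))))))))) (n 925 (n 0 z (n 0 z (n 0 z (n 0 z (n 0 z (n 0 z (n 0 z (n 0 z (n 0 z (n 0 z
 z)))))))))) (n 925 (n 0 z (n 0 z (n 0 z (n 0 z (n 0 z (n 0 z (n 0 z (n 0 z (n 0 z (n 0 z
 z)))))))))) z))))))) (n 0 (n 0 z (n 7 (n 0 z (n 0 z (n 0 z (n 0 z (n 0 z (n 0 z z)))))) (n 7 (n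
 0 z (n 0 z (n 0 z (n 0 z (n 0 z (n 0 z z)))))) (n 3 (n 0 z (n 0 z (n 0 z (n 0 z (n 0 z (n 0 z
 (n 2 (n 0 z (n 0 z z)) (n 0 z (n 0 z (n 0 z (n 0 z (n 0 z (n 0 z (n 0 z (n 0 z (n 0 z (n 0 z (n
 0 z (n 0 z (n 0 z z)))))))))))))))))))) (n 3 (n 0 z (n 0 z (n 0 z (n 0 z (n 0 z (n 0 z (n 0 z
 (n 0 z (n 0 z (n 0 z (n 0 z (n 0 z (n 0 z (n 0 z (n 0 z (n 0 z (n 7754771 z (n 0 z (n 0 z (n 0
 z z)))))))))))))))))))) (n 3 (n 0 z (n 0 z (n 0 z (n 0 z (n 0 z (n 0 z (n 0 z (n 0 z (n 0 z (n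
 0 z (n 0 z (n 0 z (n 0 z (n 0 z (n 0 z (n 0 z (n 0 z (n 0 z (n 0 z (n 0 z z))))))))))))))))))))
 z)))))) (n 0 (n 1181 (n 0 z (n 0 z (n 0 z (n 0 z (n 0 z (n 0 z (n 0 z (n 0 z (n 0 z (n 0 z (n 0
 z (n 0 z (n 0 z z))))))))))))) (n 1181 (n 2 (n 1 z (n 2 (n 0 z (n 0 (n 8868883 z (n 8868883 z
 z)) (n 0 z (n 0 (n 8868883 z z) (n 0 z (n 0 z z)))))) (n 1 z z))) (n 0 z (n 0 z (n 0 z (n 0 z
 (n 0 z (n 0 z (n 0 z (n 0 z (n 0 z (n 0 z (n 0 z (n 0 z z))))))))))))) (n 925 (n 0 z (n 0 z (n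
 0 z (n 0 z (n 0 z (n 0 z (n 0 z (n 0 z (n 0 z (n 0 z (n 0 z (n 0 z (n 0 z (n 0 z (n 0 z (n 0 z
 (n 0 z z))))))))))))))))) (n 925 (n 0 z (n 0 z (n 0 z (n 0 z (n 0 z (n 0 z (n 0 z (n 0 z (n 0 z
 (n 0 z (n 0 z (n 0 z (n 0 z (n 0 z (n 0 z (n 0 z (n 0 z z))))))))))))))))) (n 925 (n 0 z (n 0 z
 (n 0 z (n 0 z (n 0 z (n 0 z (n 0 z (n 0 z (n 0 z (n 0 z (n 0 z (n 2 z (n 0 z (n 0 z (n 0 z (n 0
 z (n 0 z z))))))))))))))))) z))))) (n 0 (n 0 z (n 3 (n 0 z (n 0 z (n 0 z (n 0 z (n 0 z (n 0 z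
 (n 0 z (n 0 z (n 0 z (n 0 z (n 0 z (n 0 z (n 0 z (n 0 z z)))))))))))))) (n 3 (n 0 z (n 0 z (n 0
 z (n 0 z (n 0 z (n 0 z (n 0 z (n 0 z (n 0 z (n 0 z (n 0 z (n 0 z (n 0 z (n 2 (n 0 z z)
 z)))))))))))))) (n 3 (n 0 z (n 0 z (n 0 z (n 0 z (n 0 z (n 0 z (n 0 z (n 0 z (n 0 z (n 0 z (n 0
 z (n 0 z (n 2 z (n 0 z z)))))))))))))) z)))) (n 0 (n 3 (n 0 z (n 0 z (n 0 z (n 0 z (n 2 (n 0 z
 (n 0 z z)) (n 0 z (n 0 z z))))))) (n 3 (n 0 z (n 0 z (n 0 z (n 0 z (n 0 z (n 0 z (n 7754771 z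
 z))))))) (n 3 (n 0 z (n 0 z (n 0 z (n 0 z (n 0 z (n 0 z (n 0 z z))))))) z))) (n 0 (n 0 z (n 0 z
 z)) (n 0 (n 0 z z) (n 0 z z)))))))))))) (n 0 (n 1 (n 6620219 z (n 6620219 z (n 6620219 z (n
 6620219 z (n 6620219 z (n 6620219 z z)))))) z) (n 0 z z)))) (n
 0xb4c745659b45764a1d7240cb3202c992b0ca (n 0 (n 159 (n 0 z (n 0 z (n 0 z (n 0 z (n 0 z (n
 3282443 z (n 0 z (n 0 z z)))))))) (n 33 (n 0 z (n 0 z (n 3278363 z (n 0 z z)))) (n 9 (n 0 z (n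
 0 z (n 0 z (n 0 z (n 2 z (n 0 z (n 0 z (n 3212843 z z)))))))) (n 3 (n 2164283 z (n 0 z (n 0 z
 (n 0 z z)))) (n 1 (n 10 z (n
 0x2b6207e87fc7ff8097d581680581d7f47ff8047d183080c81180e80c7fe8097fc7fa7ff7e780080181a7e480a7e48017f97f27f67f980183580d7f27f38118098217f58067e07ff7ff8017f37fe0051
 z (n 18 z (n 26 z (n 34 z (n
 0x836537d17f07ff7e778b8198198527c48268107a385e84383a8368138078107f780a7e97b78087ef8167b57e57b680d7c37ee7db7db8148828337e67d683680785a83a8187c27e67d48387e97e30051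
 z (n
 0x5b6528027f48007fc7e58098038167eb80980c8047fc80080a7f980380280b7fc8067fb7ee8017fd7f67f17f37f17f17fe7ff80380a80c81080e8018078077f18187f58007fa7ff7f87ff8027fb0051
 z (n 0 z (n 2164299 z z))))))))) (n 0 (n 0 z (n 0 z (n 0 z (n 6619675 z (n 0 z (n
 0x636217da7f37ff7ec7a28148148427d081f80d7b584c83682f82b80f80680d7f88087ee7c58077f38127c47eb7c580a7cf7f27e27e380f8688297eb7de82b80584882e8137ce7ec7dc82d7ee7e80051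
 z (n 0 z (n 3278427 z (n
 0x3b6207e17fb7ff80b7ca81b8078257f17ff8057c483e80f8168118107fe80a7fb7f97fe7e18008028217de80c7dd8027f77ef7f47f78018428107ee7f081480a82a7f28087d87fd7ff8007ef7fe0051
 z (n 42 z (n 50 z (n 0 z (n 6619675 z (n 0 z z)))))))))))))) z)))))) (n 33 (n 0 (n 51 (n 0 z (n
 0 z (n 0 z (n 0 z (n 0 z (n 0 z (n 0 z (n 0 z (n 0 z z))))))))) (n 51 (n 0 z (n 0 z (n 0 z (n 0
 z (n 0 z (n 0 z (n 0 z (n 0 z (n 0 z z))))))))) (n 51 (n 0 z (n 0 z (n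
 0x3b7607e17fb7ff80b7ca81b8068247f27fe8057c483e80f81581180f7fe80c7fc7f97fe7e18008018217de80c7dc8017f77ef7f37f78018438107ee7ef81580b82a7f28087d97ff8008017f07ff0051
 z (n 0 z (n 0 z (n 0 z (n 0 z (n 0 z (n 0 z z))))))))) (n 51 (n 0 z (n 0 z (n 0 z (n 0 z (n 0 z
 (n 2 (n 2 (n 0 z (n 0 z (n 0 z (n 0 z (n 0 z (n 0 z z)))))) (n 1 z z)) (n 0 z (n 0 z (n 0 z
 z))))))))) (n 1 (n 0 z (n 0 z (n 0 z (n 0 z (n 0 z (n 0 z (n 0 z (n 0 z (n 0 z (n 0 z (n 0 z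
 z))))))))))) (n 1 (n 0 z (n 0 z (n 0 z (n 0 z (n 0 z (n 0 z (n 0 z (n 0 z (n 2 z (n 0 z (n 0 z
 z))))))))))) z)))))) (n 0 (n 0 z (n 0 z (n 0 z (n 25 (n 0 z (n 0 z (n 0 z (n 0 z (n 0 z (n 0 z
 (n 0 z (n 0 z (n 0 z (n 0 z (n 0 z (n 0 z (n 0 z (n 0 z (n 0 z (n 0 z (n 0 z (n 0 z (n 0 z (n 0
 z (n 0 z (n 0 z (n 0 z (n 0 z (n 0 z (n 0 z (n 0 z (n 0 z (n 0 z (n 0 z (n 0 z (n 0 z (n 0 z (n
 0 z (n 0 z (n 0 z (n 0 z (n 0 z (n 0 z (n 0 z (n 0 z (n 0 z (n 0 z (n 0 z (n 0 z (n 0 z (n 0 z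
 (n 0 z (n 0 z z))))))))))))))))))))))))))))))))))))))))))))))))) (n 25 (n 0 z (n 0 z (n 0 z (n
 0 z (n 0 z (n 0 z (n 0 z (n 0 z (n 0 z (n 0 z (n 0 z (n 0 z (n 0 z (n 0 z (n 0 z (n 0 z (n 0 z
 (n 0 z (n 0 z (n 0 z (n 0 z (n 0 z (n 0 z (n 0 z (n 0 z (n 0 z (n 0 z (n 0 z (n 0 z (n 0 z (n 0
 z (n 0 z (n 0 z (n 0 z (n 0 z (n 0 z (n 0 z (n 0 z (n 0 z (n 0 z (n 0 z (n 0 z (n 0 z (n 0 z (n
 0 z (n 0 z (n 0 z (n 0 z (n 0 z z))))))))))))))))))))))))))))))))))))))))))))))))) z))))) (n 0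
 (n 0 z (n 0 z (n 73 (n 0 z (n 0 z (n 0 z (n 0 z (n 0 z (n 0 z (n 0 z (n 0 z (n 0 z (n 0 z (n 0
 z (n 0 z (n 0 z (n 0 z (n 0 z (n 0 z (n 0 z (n 0 z (n 0 z (n 0 z (n 0 z (n 0 z (n 0 z (n 0 z (n
 0 z (n 0 z (n 0 z (n 0 z (n 0 z (n 0 z (n 0 z (n 0 z (n 0 z (n 0 z (n 0 z (n 0 z (n 0 z (n 0 z
 (n 0 z (n 0 z (n 0 z (n 0 z (n 0 z (n 0 z (n 0 z (n 0 z (n 0 z
 z))))))))))))))))))))))))))))))))))))))))))))))) (n 73 (n 0 z (n 0 z (n 0 z (n 0 z (n 0 z (n 0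
 z (n 0 z (n 0 z (n 0 z (n 0 z (n 0 z (n 0 z (n 0 z (n 0 z (n 0 z (n 0 z (n 0 z (n 0 z (n 0 z (n
 0 z (n 0 z (n 0 z (n 0 z (n 0 z (n 0 z (n 0 z (n 0 z (n 0 z (n 0 z (n 0 z (n 0 z (n 0 z (n 2 z
 (n 0 z (n 0 z (n 0 z (n 0 z (n 0 z (n 0 z (n 0 z (n 0 z (n 0 z (n 0 z (n 0 z (n 0 z (n 0 z (n 0
 z z))))))))))))))))))))))))))))))))))))))))))))))) z)))) (n 0 (n 0 z (n 1 (n 0 z (n 0 z (n 0 z
 (n 0 z (n 0 z (n 0 z (n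
 0xebb2b18901c01daa080025410046c4200c1500010b8800223109027f88027b99f270175c6d2879844807a045fd7517657b677a82d7d382e85c7da8fd8067d973f9267bd90e81d83489a8a48417d359477e88b8877537af6b984880e8e28177b77e98817db0991
 z (n 0 z (n 0 z (n
 0x4b7607d97fa7ff80e7bd82280882e7ee7fe8067b584d81381b8168137fe80e7f97f87fd7d98008028297d580f7d48027f57eb7f17f58028538147e97eb81a80d8347ef8097cf7fd7ff8017eb7fd0051
 z (n 0 z (n 0 z z)))))))))))) (n 1 (n 0 z (n 0 z (n 0 z (n 0 z (n 0 z (n 0 z (n 0 z (n 0 z (n 0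
 z (n 0 z (n 0 z (n
 0x2b7628017fa8007fe7f280480280b7f68058068027fe8008057fd8018018067fe8037fd7f78007ff7fb7f87fa7f87f87ff8008018058068098078018038047f780d7fb8007fd8007fc8008007fd0051
 z z)))))))))))) z))) (n 0 (n 1 (n 2 (n 0 z z) (n 0 z (n 0 z (n 0 z (n 0 z (n 0 z (n 0 z (n 0 z
 (n 0 z (n 0 z (n 0 z (n 0 z z)))))))))))) (n 1 (n 0 z (n 0 z (n 2 z (n 0 z (n 0 z (n 0 z (n 0 z
 (n 0 z (n 0 z (n 0 z (n 0 z (n 0 z z)))))))))))) z)) (n 0 (n 0 z z) (n 0 z z))))))) (n 0 (n 0 z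
 (n 0 z (n 1 (n 3278363 z (n 6619675 z (n 3278363 z (n 3278363 z (n 3278363 z (n 3278363 z
 z)))))) (n 0 z z)))) (n 0 z z)))) (n 0x61a6b309a594430ca0c266304ab19a0109d40 (n 0 (n 563 (n 0 z
 (n 0 z (n 3282443 z (n 0 z (n 0 z (n 6619675 z (n 0 z (n 0 z (n 2 z (n 0 z (n 10 z z)))))))))))
 (n 437 (n 3278363 z (n 0 z (n 0 z (n 0 z (n 0 z (n 0 z (n 0 z (n 0 z (n
 0x2ca8a804038f7e98887a70859d6d878e8067738177857e896f86777480826e808782779b77907485a2858281728898837a837f847382810809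
 z (n 0 z (n
 0x2ca8a804078081827f807f8080808080807f80808080807f808080818080808080828080808080817f80808080808080808080808080800809
 z z))))))))))) (n 436 (n 3212843 z (n 0 z (n 0 z (n 18 z (n 0 z (n 0 z (n 0 z (n 0 z z))))))))
 (n 3 (n 2164283 z (n 0 z (n 0 z (n 0 z z)))) (n 1 (n 0 z (n 26 z (n 2164299 z (n 34 z (n 42 z
 (n 50 z z)))))) (n 0 (n 0 z (n 0 z (n 0 z (n 0 z (n 0 z (n 0 z (n 6619675 z (n 0 z (n 0 z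
 z))))))))) z)))))) (n 3 (n 0 (n 0 z (n 753 (n 0 z (n 0 z (n 0 z (n 0 z (n 0 z (n 0 z (n 0 z (n
 0 z (n 2 (n 1 z (n 2 (n 0 z (n 0 z (n 0 (n 3028 z z) (n 0 z (n 0 z (n 0 z z)))))) (n 2 (n 0 z
 (n 0 z (n 0 z (n 0 z (n 0 z (n 0 z z)))))) (n 2 (n 0 z (n 0 z (n 0 z (n 0 z (n 0 z (n 0 z
 z)))))) z)))) (n 0 z (n 0 z (n 0 z (n 0 z (n 0 z (n 0 z (n 0 z (n 0 z (n 0 z
 z)))))))))))))))))) (n 757 (n 0 z (n 0 z (n 2 (n 0 z (n 0 z (n 0 z z))) (n 0 z (n 0 z z))))) (n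
 757 (n 0 z (n 0 z (n 0 z (n 0 z (n 0 z z))))) (n 757 (n 0 z (n 0 z (n 0 z (n 0 z (n 2 (n 0 z z)
 z))))) (n 757 (n 0 z (n 0 z (n 0 z (n 0 z (n 0 z z))))) z)))))) (n 0 (n 1107 (n 0 z (n 0 z (n 0
 z (n 0 z (n 0 z (n 0 z (n 0 z (n 0 z z)))))))) (n 303 (n 0 z (n 0 z (n 0 z (n 0 z (n 0 z (n 0 z
 (n 0 z (n 0 z (n 0 z (n 0 z (n 0 z (n 0 z (n 0 z (n 0 z (n 0 z (n 0 z (n 2 (n 0 z (n 0 z (n 0 z
 z))) (n 0 z (n 0 z (n 0 z (n 0 z (n 0 z z)))))))))))))))))))))) (n 303 (n 0 z (n 0 z (n 0 z (n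
 0 z (n 0 z (n 0 z (n 0 z (n 0 z (n 0 z (n 0 z (n 0 z (n 0 z (n 0 z (n 0 z (n 0 z (n 0 z (n 0 z
 (n 0 z (n 0 z (n 0 z (n 0 z (n 0 z z)))))))))))))))))))))) (n 303 (n 0 z (n 0 z (n 0 z (n 0 z
 (n 0 z (n 0 z (n 0 z (n 0 z (n 0 z (n 0 z (n 0 z (n 0 z (n 0 z (n 0 z (n 0 z (n 0 z (n 0 z (n 0
 z (n 0 z (n 0 z (n 0 z (n 0 z z)))))))))))))))))))))) (n 303 (n 0 z (n 0 z (n 0 z (n 0 z (n 0 z
 (n 0 z (n 0 z (n 0 z (n 0 z (n 0 z (n 0 z (n 0 z (n 0 z (n 0 z (n 0 z (n 0 z (n 0 z (n 0 z (n 0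
 z (n 0 z (n 0 z (n 0 z z)))))))))))))))))))))) z))))) (n 0 (n 15 (n 0 z (n 0 z (n 0 z (n 2 (n 0
 z (n 0 z (n 0 z z))) (n 0 z z))))) (n 15 (n 0 z (n 0 z (n 0 z (n 0 z (n 0 z z))))) (n 15 (n 0 z
 (n 0 z (n 0 z (n 0 z (n 0 z z))))) (n 15 (n 0 z (n 0 z (n 0 z (n 0 z (n 0 z z))))) z)))) (n 0
 (n 0 z (n 0 z (n 0 z z))) (n 0 (n 0 z (n 0 z z)) (n 0 (n 0 z z) (n 0 z z))))))) (n 0 (n 1 (n
 2164283 z (n 2164283 z (n 2164283 z (n 2164283 z (n 2164283 z (n 2164283 z z)))))) (n 0 z (n 0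
 z (n 0 z z)))) (n 0 z z)))) (n 0 (n 0 (n 449 (n 3282443 z (n 0 z (n 0 z (n 0 z (n 0 z z))))) (n
 435 (n 0 z (n 0 z (n 0 z (n 4326939 z (n 3278363 z (n 4392475 z (n
 0x8194548100624ca6a86403807d7f87857c807b8284817b8d787982895b8c7876937cb56f76807d897c8a778d7a9484698c86817a9c7573848776967b881009
 z (n 0 z z)))))))) (n 436 (n 0 z (n 0 z (n 0 z (n 0 z (n 6628123 z z))))) (n 3 (n 0 z (n 0 z (n
 0x1328b28200c0594944100e02ca8c82003807f81827f7d7f7f80808082817d8284807a817f7e8480837f7f7e7980857d7f808383807e8282807d81847e807c7d847f821809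
 z (n 6493483 z (n 6493483 z (n 4261435 z (n 0 z (n
 0x7d9454810060aca4ca4203806d7079a26e97619a6d78a17288458d7c78a492608e868f7269807ea559897d837a757f9d79748279b46394598873ad84901009
 z z)))))))) (n 1 (n 0 z (n 0 z (n 0 z (n 0 z (n 0 z (n 2164299 z (n 0 z z))))))) (n 0 (n 0 z (n
 6628123 z (n 0 z (n 0 z (n 0 z (n 0 z z)))))) z)))))) (n 449 z (n 0 (n 1 (n 3282443 z (n
 3282443 z (n 3282443 z (n 3282443 z (n 3282443 z (n 3282443 z z)))))) (n 0 z (n 0 z (n 0 z (n 0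
 z z))))) (n 0 z z)))) z)))))))))), by decide +kernel⟩
theorem i10486 : ∃ t, chkR KT RW t 10486 10496 = true := ⟨(n
 0x1d84d0ca4ae10c52866b8c4d2c61226308d929a1d50b09a (n 0 (n 471 (n 0 z (n 3282443 z (n 0 z (n 0 z
 z)))) (n 469 (n 3278363 z (n 0 z (n 0 z z))) (n 135 (n
 0x1046507df82d8047bb8157f08457d682e7d47cb7df83181d7f082a7d680d7fa8277dc81c80c7e38107e48127837e18237bc77e7e48408438497c28287fe81687c7ea8187ce79c84b7cc84379a82c0051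
 z (n 3212843 z (n 2 z (n 10 z (n 0 z z))))) (n 3 (n 0 z (n 2164283 z (n
 0x32ca8ca84037e58078137b48047d77f681f80e7f67a48007fd8347d98147c981f7f984276386681580683a7fa7f97808038227a17357eb85c8397f67588708877e08b07d07ec7c88028528138007c88370811
 z (n
 0x2ca8ca40078008028007fd8007ff7ff8008008017ff8018008008008008008008017ff8008008008008018008007ff7ff7ff8008008017ff7ff8018008008018008008007ff8007ff8008018008008000811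
 z (n 0 z (n 0 z z)))))) (n 1 (n
 0x1046327df82d8047bb8157f08457d682e7d47cb7df83181d7f082a7d680d7fa8277dc81c80c7e38107e48127837e18237bc77e7e48408438497c28287fe81687c7ea8187ce79c84b7cc84379a82c0051
 z (n 18 z (n 26 z (n 34 z (n 42 z (n
 0x8ca4ca42037f27fe80a7d87fa7e87fb81d7f78107f68057f58088218287e980183a82980f7f67c27fb8067d47e07a08188287b87b87e380482b81b80c80181880f84e80a8437b47988168048457ad81b0811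
 z (n 50 z (n 2164299 z z)))))))) (n 0 (n 0 z (n 58 z (n
 0x34ca88624078067e78137f87e37f07dc8367d880b7d68007f480e7e28057da8057f780a7a78458337f583281b7ef7d08058147cc7a081d8328107e579a8688827de8347c97e17f08427ff81d7e88188130811
 z (n 66 z (n 0 z (n
 0x4c82c806037ff7ff7ff7ff8017ff8008027ff8028018018007ff7fe8007ff8008017ff8008018008008007ff7fe7ff7ff7ff8008018018018018008018008008008007ff8008008008018008008008000811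
 z (n 2164315 z (n 0 z z)))))))) z)))))) (n 469 (n 0 (n 0 z (n 243 (n 0 z (n 0 z (n 2 (n 0 z (n
 0 z (n 0 z (n 0 z (n 2 (n 0 (n 2548 z (n 2548 z z)) (n 0 z (n 0 (n 2548 z (n 7743499 z z)) (n 0
 (n 7747675 z (n 2548 z z)) (n 0 z (n 0 z z)))))) (n 2 (n 0 z (n 0 z (n 0 z (n 0 z (n 0 z (n 0 z
 z)))))) z)))))) (n 0 z (n 0 z (n 0 z (n 0 z (n 0 z (n 0 z z))))))))) (n 243 (n 0 z (n 2 (n 0 z
 (n 0 z (n 0 z (n 1 z (n 2 (n 0 (n 8868107 z z) (n 0 (n 8868107 z z) (n 0 z (n 0 z (n 0 z (n 0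
 (n 8868107 z (n 8794739 z z)) z)))))) z))))) (n 0 z (n 0 z (n 0 z (n 0 z (n 0 z (n 0 z (n 0 z
 z))))))))) (n 243 (n 0 z (n 0 z (n 0 z (n 0 z (n 0 z (n 0 z (n 0 z (n 0 z (n 0 z z))))))))) (n
 243 (n 0 z (n 0 z (n 0 z (n 7742219 z (n 0 z (n 0 z (n 0 z (n 0 z (n 0 z z))))))))) (n 243 (n 0
 z (n 0 z (n 0 z (n 0 z (n 0 z (n 0 z (n 0 z (n 0 z (n 0 z z))))))))) (n 637 (n 6426739 z (n 0 z
 (n 0 z (n 0 z (n 0 z (n 0 z (n 0 z (n 0 z (n 0 z z))))))))) (n 637 (n 0 z (n 0 z (n 0 z (n 0 z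
 (n 0 z (n 0 z (n 0 z (n 0 z (n 0 z z))))))))) z)))))))) (n 0 (n 15 (n 0 z (n 0 z (n 0 z (n 0 z
 (n 0 z (n 0 z (n 0 z (n 0 z (n 0 z (n 0 z (n 0 z (n
 0x2ec2ec0a037fe8027ff7fc8007ff8018027fe8027ff8018017ff7ff8008008008017ff8008017ff8008008007ff7fe7ff7ff8008008008008008018008008017ff8008008008007ff8008008008008010811
 z (n 0 z (n 0 z (n 0 z (n 0 z (n 0 z (n 0 z (n 0 z (n 0 z (n 0 z z))))))))))))))))))))) (n 15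
 (n 0 z (n 0 z (n 0 z (n 0 z (n 0 z (n 0 z (n 0 z (n 0 z (n 2 (n 0 z (n 0 z (n 0 z (n 2 (n 0 (n
 8859683 z z) (n 0 z (n 0 z (n 0 z (n 0 (n 8859683 z z) (n 0 (n 8859683 z (n 8859683 z z))
 z)))))) (n 2 (n 0 z (n 0 z (n 0 z (n 0 z (n 0 z (n 0 z z)))))) z))))) (n 0 z (n 0 z (n 0 z (n 0
 z (n 0 z (n 0 z (n 0 z (n 0 z (n 0 z (n 0 z (n 0 z (n 0 z z))))))))))))))))))))) (n 15 (n 0 z
 (n 0 z (n 0 z (n 0 z (n 0 z (n 2 (n 0 z (n 0 z (n 2 (n 0 z (n 0 z (n 0 z (n 0 z (n 0 z (n 0 z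
 z)))))) (n 2 (n 0 (n 4276 z (n 4276 z z)) (n 0 (n 4276 z (n 4276 z z)) (n 0 z (n 0 (n 4276 z (n
 4276 z z)) (n 0 z (n 0 (n 4276 z (n 4276 z z)) z)))))) z)))) (n 0 z (n 0 z (n 0 z (n 0 z (n 0 z
 (n 0 z (n 0 z (n 0 z (n 0 z (n 0 z (n 0 z (n 0 z (n 0 z (n 0 z (n 0 z z))))))))))))))))))))) (n
 15 (n 0 z (n 0 z (n 0 z (n 0 z (n 0 z (n 0 z (n 0 z (n 0 z (n 0 z (n 0 z (n 0 z (n 0 z (n 0 z
 (n 0 z (n 0 z (n 0 z (n 0 z (n 0 z (n 0 z (n 0 z (n 0 z z))))))))))))))))))))) (n 15 (n 0 z (n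
 0 z (n 0 z (n 0 z (n 0 z (n 0 z (n 0 z (n 0 z (n 0 z (n 0 z (n 0 z (n 0 z (n 0 z (n 0 z (n 0 z
 (n 0 z (n 0 z (n 0 z (n 0 z (n 0 z (n 0 z z))))))))))))))))))))) (n 1069 (n 2 (n 0 z z) (n 0 z
 (n 0 z (n 0 z (n 0 z (n 0 z (n 0 z (n 0 z (n 0 z (n 0 z z)))))))))) (n 1069 (n 0 z (n 0 z (n 0
 z (n 7680099 z (n 0 z (n 0 z (n 0 z (n 0 z (n 0 z (n 0 z z)))))))))) z))))))) (n 0 (n 0 z (n 0
 z (n 0 z (n 0 z (n 649 (n 0 z (n 0 z (n 0 z (n 0 z (n 0 z (n 0 z (n 0 z (n 0 z (n 0 z (n 0 z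
 z)))))))))) (n 649 (n 0 z (n 2 z (n 0 z (n 0 z (n 0 z (n 0 z (n 0 z (n 0 z (n 0 z (n 0 z
 z)))))))))) z)))))) (n 0 (n 0 z (n 0 z (n 0 z (n 961 (n 0 z (n 0 z (n 0 z (n 0 z (n 0 z (n 0 z
 (n 0 z (n 0 z (n 0 z (n 0 z (n 0 z (n 0 z (n 0 z (n 0 z (n 0 z (n 0 z (n 0 z (n 0 z (n 0 z (n 0
 z (n 0 z (n 0 z (n 0 z (n 0 z (n 0 z (n 0 z z)))))))))))))))))))))))))) (n 961 (n 0 z (n 0 z (n
 0 z (n 0 z (n 0 z (n 0 z (n 0 z (n 0 z (n 0 z (n 0 z (n 0 z (n 0 z (n 0 z (n 0 z (n 0 z (n 0 z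
 (n 0 z (n 0 z (n 0 z (n 7753995 z (n 0 z (n 0 z (n 0 z (n 0 z (n 0 z (n 0 z
 z)))))))))))))))))))))))))) z))))) (n 0 (n 0 z (n 0 z (n 1 (n 0 z (n 0 z (n 0 z (n 0 z (n 0 z
 z))))) (n 1 (n 0 z (n 0 z (n 0 z (n 0 z (n 0 z z))))) z)))) (n 0 (n 0 z (n 629 (n 0 z (n 0 z (n
 2 (n 0 z z) (n 0 z (n 0 z (n 0 z (n 0 z (n 0 z (n 0 z (n 0 z (n 0 z (n 0 z (n 0 z
 z))))))))))))) (n 629 (n 0 z (n 2 z (n 0 z (n 0 z (n 0 z (n 0 z (n 0 z (n 0 z (n 0 z (n 0 z (n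
 0 z (n 0 z (n 0 z z))))))))))))) z))) (n 0 (n 629 (n 0 z (n 0 z (n 0 z (n 0 z (n 0 z (n 0 z (n
 0 z (n 2 (n 0 z z) (n 0 z (n 0 z (n 0 z (n 0 z (n 0 z (n 0 z (n 0 z (n 0 z (n 0 z (n 0 z (n 0 z
 (n 0 z (n 0 z (n 0 z (n 0 z (n 0 z (n 0 z (n 0 z (n 0 z (n 0 z (n 0 z (n 0 z (n 0 z (n 0 z (n 0
 z (n 0 z (n 0 z (n 0 z (n 0 z (n 0 z (n 0 z (n 0 z (n 0 z
 z))))))))))))))))))))))))))))))))))))))))) (n 629 (n 0 z (n 0 z (n 0 z (n 0 z (n 0 z (n 0 z (n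
 0 z (n 0 z (n 0 z (n 0 z (n 0 z (n 0 z (n 0 z (n 0 z (n 0 z (n 0 z (n 0 z (n 0 z (n 0 z (n 0 z
 (n 0 z (n 0 z (n 0 z (n 0 z (n 0 z (n 0 z (n 0 z (n 0 z (n 0 z (n 0 z (n 0 z (n 0 z (n 0 z (n 0
 z (n 0 z (n 0 z (n 0 z (n 0 z (n 0 z (n 0 z (n 0 z z)))))))))))))))))))))))))))))))))))))))))
 z)) (n 0 (n 0 z z) (n 0 z z))))))))) (n 0 (n 1 (n 3278363 z (n 3278363 z (n 3278363 z (n
 3278363 z (n 3278363 z (n 3278363 z z)))))) (n 0 z (n 0 z z))) (n 0 z z)))) (n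
 0x30adc946aa4424264706a9ca1351cc29 (n 0 (n 597 (n 6561843 z z) (n 581 (n 0 z (n 0 z (n 3278363
 z (n 6358075 z (n
 0x2a84ca26038208208208208208208208208218608208208208208208218208208207e08608207e18218200801 z
 (n
 0x265364320182a86c8240781f89e81e8228227de8a286169e8e081f7217a17e17e282079e8618e17a18228206a18a18211001
 z (n
 0x16c84c840038237e1756a207e08d98e562759d9db7da7646a381f7697e54d26628e04df7288636629a49a90801 z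
 (n 0x2a84ca260382081f81f7e08218208218208218618207e082082082182182182082082086081f7e18207a00801
 z (n
 0x6ca6c864038208a089b86282285e8627a26de85f81f7627e17d982972179e7e08a07217e38a06a38638620801 z
 (n 2 z (n 0 z (n
 0xaca2a806078227a08228618a18618627e081d82175f7de8207e17a18219237df81f82381e76086082181d0801 z
 z)))))))))))) (n 580 (n
 0x56ca02265081f81f82082182081e8e186175d7de7df7628647e57238a075e8219206e28648617228a08e00081 z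
 (n 0 z (n 0 z (n 0 z (n 0 z (n 0 z (n 0 z (n 0 z (n 6562571 z (n 0 z (n 10 z (n
 0x2ca6a862078217e08a081f85f7e181e85f89f8218618df82182082081f8a08207608e07de7e091e7de8200801 z
 (n 6566403 z (n 0 z (n 6566403 z (n 6566403 z (n 0 z (n 0 z (n
 0x56ca82265481f81f82082182081e8e186175d7de7df7628647e57238a075e8219206e28648617228a08e00081 z
 (n 0 z (n 0 z (n 0 z (n
 0x163165040382a86ca42038208207e08208618207e18217e082081f7e18208208618208208208217e086181f7e08208601001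
 z (n 18 z (n 6562571 z (n 0 z (n 0 z (n 0 z z)))))))))))))))))))))))))))) (n 3 (n 0 z (n
 6566403 z (n 0 z (n 0 z z)))) (n 1 (n 6566403 z (n 0 z (n 0 z (n 6562571 z (n 6566403 z (n 26 z
 (n 0x6ca6a6420781f81f81e7e28237e086189f7218e285f7207e17dd8247a17e181f8a082086185e6a28237e10801
 z (n
 0x4ca6a6420781f82179f8218a382081f8a07df82081e79e81f7de8237e086085c8608218e181f76482385f0801 z
 (n 0 z (n 0 z (n 0 z (n 0 z (n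
 0x318b10281c063261050386ca6ca04030594594080e0b29b29801c065252100380ca264200781c9567d97e296881a9ec9ee494a6679d5e175e8a072896389f8589638628676dd62495a81e3801
 z (n 6566403 z (n 34 z (n 0 z (n 0 z (n 0 z (n 6561843 z (n 6636307 z (n 0 z (n 0 z (n 42 z (n
 0 z (n 0 z z))))))))))))))))))))))))) (n 0 (n 0 z (n 6636307 z (n 0 z (n 0 z (n 0 z (n 0 z (n 0
 z (n 0 z (n 0 z z))))))))) z)))))) (n 597 (n 0 (n 1161 (n 0 z (n 0 z (n 0 z (n 0 z (n 0 z (n 0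
 z (n 0 z (n 0 z (n 0 z (n 0 z (n 0 z (n 0 z (n 0 z (n 0 z (n 0 z (n 0 z (n 0 z (n 0 z (n 0 z (n
 0 z (n 0 z (n 0 z (n
 0x176576530182ca6ca64078208208208208207e085f81f81f7e08218608208208208208608618218217e082181f8208201001
 z (n 0 z (n 0 z z))))))))))))))))))))))))) (n 1161 (n 0 z (n 0 z (n 0 z (n 0 z (n 0 z (n 0 z (n
 0 z (n 0 z (n 0 z (n 0 z (n 0 z (n 0 z (n 0 z (n 0 z (n 0 z (n 0 z (n 0 z (n 0 z (n 0 z (n 0 z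
 (n 0 z (n 0 z (n 0 z (n 0 z (n 0 z z))))))))))))))))))))))))) (n 117 (n 0 z (n 0 z (n 0 z (n 0
 z (n 0 z (n 0 z (n 0 z (n 0 z (n 0 z (n 0 z (n 0 z (n 0 z (n 0 z (n 0 z (n 0 z (n 0 z (n 0 z (n
 0 z z)))))))))))))))))) (n 117 (n 0 z (n 0 z (n 0 z (n 0 z (n 0 z (n 0 z (n 0 z (n 0 z (n 0 z
 (n 0 z (n 0 z (n 0 z (n 0 z (n 0 z (n 0 z (n 0 z (n 0 z (n 0 z z)))))))))))))))))) (n 117 (n 0
 z (n 0 z (n 0 z (n 0 z (n 0 z (n 0 z (n 0 z (n 0 z (n 0 z (n 0 z (n 0 z (n 0 z (n 0 z (n 0 z (n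
 0 z (n 0 z (n 0 z (n 0 z z)))))))))))))))))) z))))) (n 0 (n 0 z (n 243 (n 0 z (n 0 z (n 0 z (n
 0 z (n 0 z (n 0 z (n 0 z (n 0 z (n 0 z (n 0 z (n 0 z (n 0 z (n 0 z (n 0 z (n 0 z (n 0 z (n 0 z
 (n 0 z (n 0 z (n 0 z (n 0 z (n 0 z (n 0 z (n 0 z (n 0 z z))))))))))))))))))))))))) (n 243 (n 0
 z (n 0 z (n 0 z (n 0 z (n 0 z (n 0 z (n 0 z (n 0 z (n 0 z (n 0 z (n 0 z (n 0 z (n 0 z (n 0 z (n
 2 (n 0 z z) (n 0 z (n 0 z (n 0 z (n 0 z (n 0 z (n 0 z (n 0 z (n 0 z (n 0 z (n 0 z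
 z))))))))))))))))))))))))) (n 243 (n 0 z (n 0 z (n 0 z (n 0 z (n 0 z (n 0 z (n 0 z (n 0 z (n 0
 z (n 0 z (n 0 z (n 0 z (n 0 z (n 0 z (n 0 z (n 0 z (n 0 z (n 0 z (n 0 z (n 0 z (n 0 z (n 2 z (n
 0 z (n 0 z (n 0 z z))))))))))))))))))))))))) z)))) (n 0 (n 21 (n 0 z (n 0 z (n 0 z (n 0 z z))))
 (n 21 (n 0 z (n 0 z (n 0 z (n 0 z z)))) (n 21 (n 0 z (n 0 z (n 0 z (n 0 z z)))) z))) (n 0 (n 0
 z (n 0 z z)) (n 0 (n 0 z z) (n 0 z z)))))) (n 0 (n 1 (n 6561843 z (n 6566403 z (n 6561843 z (n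
 6561843 z (n 6561843 z (n 6561843 z z)))))) z) (n 0 z z)))) (n
 0x16ed283ae970d669846aca23aa41ae9290ea708ba3444d5c3868a1d4430eb80 (n 0x21d74 (n 153 (n 0 z (n 2
 z (n 6496275 z z))) (n 33 (n 10 z (n 0 z (n 6496515 z z))) (n 9 (n
 0x1eca8ca8603807d7f7e7d7f81718175848181807f7687757a887f80818880767c77827f8386817f838482817f7f837f928081857d80827b0809
 z (n 6627395 z (n 6496515 z (n 6496515 z (n 18 z (n 0 z (n 6496515 z z))))))) (n 243 (n 6636323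
 z (n 6496523 z (n 26 z (n 6636323 z (n 0 z (n 0 z (n 0 z (n 0 z (n 0 z (n 6496275 z (n 0 z (n 0
 z (n 0 z (n 34 z (n 0 z (n 42 z (n 0 z (n 0 z (n 0 z (n 0 z (n 0 z (n 0 z (n
 0x195195040600ca6a842077f80817e7f808080818081817f7e7f7f827e828080807f8180818080808180817f80807f80808080808180808180808080801009
 z (n 6496515 z (n 6496515 z (n 0 z (n 0 z z))))))))))))))))))))))))))) (n 1 (n 6636323 z (n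
 6636323 z (n 0 z (n 50 z (n 58 z (n 66 z (n 74 z z))))))) (n 0 (n 0 z (n 82 z (n 6627395 z (n
 6636323 z (n 6636323 z (n 90 z (n 0 z (n 0 z (n 0 z z))))))))) z)))))) (n 153 (n 0 (n 1003 (n 0
 z (n 0 z (n 0 z (n 0 z z)))) (n 999 (n 0 z (n 0 z (n 0 z (n 0 z (n 0 z (n 0 z (n 0 z z)))))))
 (n 1001 (n 0 z (n 0 z (n 0 z (n 0 z (n 0 z (n 0 z (n 0 z (n 0 z (n 0 z (n 0 z (n 0 z (n 0 z (n
 0 z (n 0 z (n 0 z (n 0 z (n 0 z (n 0 z (n 0 z (n 0 z (n 0 z (n 0 z (n 0 z (n 0 z (n 0 z (n 0 z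
 (n 0 z (n 2 (n 0 z (n 0 z (n 2 (n 0 z (n 0 z (n 0 z (n 0 z (n 0 z (n 0 z z)))))) (n 2 (n 0 z (n
 0 z (n 0 (n 8656747 z z) (n 0 z (n 0 z (n 0 z z)))))) (n 2 (n 0 z (n 0 z (n 0 z (n 0 z (n 0 z
 (n 0 z z)))))) (n 1 z (n 1 z (n 2 (n 0 z (n 0 z (n 0 z (n 0 z (n 0 z (n 0 z z)))))) z))))))))
 (n 0 z (n 0 z z)))))))))))))))))))))))))))))) (n 1001 (n 0 z (n 0 z (n 0 z (n 0 z (n 0 z (n 0 z
 (n 0 z (n 0 z (n 0 z (n 0 z (n 0 z (n 0 z (n 0 z (n 0 z (n 0 z (n 0 z (n 0 z (n 0 z (n 0 z (n 0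
 z (n 0 z (n 0 z (n 0 z (n 0 z (n 0 z (n 0 z (n 0 z (n 0 z (n 0 z (n 0 z
 z)))))))))))))))))))))))))))))) (n 1001 (n 0 z (n 0 z (n 0 z (n 0 z (n 0 z (n 0 z (n 0 z (n 0 z
 (n 0 z (n 0 z (n 0 z (n 0 z (n 0 z (n 0 z (n 0 z (n 0 z (n 0 z (n 0 z (n 0 z (n 0 z (n 0 z (n 2
 (n 2 (n 0 z (n 0 z (n 0 z (n 0 z (n 0 z (n 0 z z)))))) (n 1 z (n 2 (n 0 z (n 0 z (n 0 (n 1236 z
 (n 1236 z z)) (n 0 (n 1236 z z) (n 0 z (n 0 (n 1236 z z) z)))))) (n 2 (n 0 z (n 0 z (n 0 z (n 0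
 z (n 0 z (n 0 z z)))))) (n 1 z (n 2 (n 0 z (n 0 z (n 0 (n 1220 z z) (n 0 z (n 0 z (n 0 z
 z)))))) z)))))) (n 0 z (n 0 z (n 0 z (n 0 z (n 0 z (n 0 z (n 0 z (n 0 z
 z)))))))))))))))))))))))))))))) (n 309 (n 0 z (n 0 z (n 0 z (n 0 z (n 0 z z))))) (n 309 (n 0 z
 (n 2 (n 0 z (n 0 z (n 2 (n 0 z (n 0 z (n 0 z (n 0 z (n 0 z (n 0 z z)))))) (n 2 (n 0 z (n 0 z (n
 0 z (n 0 z (n 0 z (n 0 z z)))))) z)))) (n 0 z (n 0 z (n 0 z z))))) (n 309 (n 0 z (n 0 z (n 0 z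
 (n 0 z (n 0 z z))))) (n 309 (n 0 z (n 0 z (n 0 z (n 0 z (n 0 z z))))) (n 305 (n 0 z (n 0 z (n 0
 z (n 0 z (n 0 z (n 0 z z)))))) (n 305 (n 0 z (n 0 z (n 0 z (n 0 z (n 0 z (n 0 z z))))))
 z))))))))))) (n 0 (n 1019 (n 0 z (n 0 z (n 0 z (n 0 z (n 0 z (n 0 z (n 0 z (n 0 z (n 0 z (n 0 z
 z)))))))))) (n 513 (n 0 z (n 0 z (n 0 z (n 0 z (n 0 z (n 0 z (n 0 z (n 0 z (n 0 z (n 0 z (n 0 z
 (n 0 z (n 0 z (n 0 z (n 0 z (n 0 z (n 0 z (n 0 z z)))))))))))))))))) (n 513 (n 0 z (n 0 z (n 0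
 z (n 0 z (n 0 z (n 0 z (n 0 z (n 0 z (n 0 z (n 0 z (n 0 z (n 0 z (n 0 z (n 0 z (n 0 z (n 0 z (n
 0 z (n 0 z z)))))))))))))))))) (n 513 (n 2 (n 2 (n 0 z (n 0 z (n 0 z (n 0 z (n 0 z (n 0 z
 z)))))) (n 1 z (n 2 (n 0 z (n 0 z (n 0 (n 276 z (n 276 z z)) (n 0 z (n 0 z (n 0 (n 8586843 z z)
 z)))))) (n 2 (n 0 z (n 0 z (n 0 z (n 0 z (n 0 z (n 0 z z)))))) (n 1 z (n 2 (n 0 z (n 0 z (n 0
 (n 260 z z) (n 0 z (n 0 z (n 0 z z)))))) z)))))) (n 0 z (n 0 z (n 0 z (n 0 z (n 0 z (n 0 z (n 0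
 z (n 0 z (n 0 z (n 0 z (n 0 z (n 0 z (n 0 z (n 0 z (n 0 z (n 0 z (n 0 z z)))))))))))))))))) (n
 69 (n 0 z (n 0 z (n 0 z (n 0 z (n 0 z z))))) (n 69 (n 0 z (n 2 (n 0 z (n 0 z (n 2 (n 0 z (n 0 z
 (n 0 z (n 0 z (n 0 z (n 0 z z)))))) (n 2 (n 0 z (n 0 z (n 0 z (n 0 z (n 0 z (n 0 z z))))))
 z)))) (n 0 z (n 0 z (n 0 z z))))) (n 69 (n 0 z (n 0 z (n 0 z (n 0 z (n 0 z z))))) (n 69 (n 0 z
 (n 0 z (n 0 z (n 0 z (n 0 z z))))) (n 65 (n 0 z (n 0 z (n 0 z (n 0 z (n 0 z (n 0 z (n 0 z (n 0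
 z (n 0 z (n 0 z (n 0 z (n 0 z (n 0 z (n 0 z (n 0 z (n 0 z z)))))))))))))))) (n 65 (n 0 z (n 0 z
 (n 0 z (n 0 z (n 0 z (n 0 z (n 0 z (n 0 z (n 0 z (n 0 z (n 0 z (n 0 z (n 0 z (n 0 z (n 0 z (n 0
 z z)))))))))))))))) z)))))))))) (n 0 (n 1065 (n 0 z (n 0 z (n 0 z (n 0 z (n 0 z (n 0 z (n 2 (n
 0 z (n 0 z (n 1 z (n 2 (n 0 z (n 0 z (n 0 (n 8656747 z z) (n 0 z (n 0 z (n 0 z z)))))) (n 2 (n
 0 z (n 0 z (n 0 (n 8656747 z z) (n 0 z (n 0 z (n 0 z z)))))) (n 1 z (n 1 z (n 2 (n 0 z (n 0 z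
 (n 0 z (n 0 z (n 0 z (n 0 z z)))))) z)))))))) z))))))) (n 1065 (n 0 z (n 0 z (n 0 z (n 0 z (n 0
 z (n 0 z (n 0 z z))))))) (n 1065 (n 0 z (n 0 z (n 0 z (n 2 (n 2 (n 0 z (n 0 z (n 0 z (n 0 z (n
 0 z (n 0 z z)))))) (n 2 (n 0 z (n 0 z (n 0 (n 2164859 z (n 2164859 z z)) (n 0 z (n 0 z (n 0 (n
 2164859 z z) z)))))) (n 2 (n 0 z (n 0 z (n 0 (n 84 z (n 84 z z)) (n 0 (n 84 z z) (n 0 (n 84 z
 z) (n 0 z z)))))) (n 2 (n 0 z (n 0 z (n 0 z (n 0 z (n 0 z (n 0 z z)))))) (n 1 z (n 2 (n 0 z (n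
 0 z (n 0 z (n 0 z (n 0 z (n 0 z z)))))) z)))))) (n 0 z (n 0 z (n 0 z z))))))) (n 21 (n 0 z (n 0
 z (n 0 z (n 0 z (n 0 z (n 0 z (n 0 z (n 0 z (n 0 z (n 0 z (n 0 z (n 0 z (n 0 z (n 0 z (n 0 z (n
 0 z (n 0 z (n 0 z (n 0 z (n 0 z (n 0 z (n 0 z (n 0 z (n 0 z (n 0 z (n 0 z (n 0 z (n 0 z (n 0 z
 z))))))))))))))))))))))))))))) (n 21 (n 0 z (n 0 z (n 2 (n 0 z (n 0 z (n 2 (n 0 z (n 0 z (n 0 z
 (n 0 z (n 0 z (n 0 z z)))))) (n 2 (n 0 z (n 0 z (n 0 z (n 0 z (n 0 z (n 0 z z)))))) z)))) (n 0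
 z (n 0 z (n 0 z (n 0 z (n 0 z (n 0 z (n 0 z (n 0 z (n 0 z (n 0 z (n 0 z (n 0 z (n 0 z (n 0 z (n
 0 z (n 0 z (n 0 z (n 0 z (n 0 z (n 0 z (n 0 z (n 0 z (n 0 z (n 0 z (n 0 z (n 0 z
 z))))))))))))))))))))))))))))) (n 21 (n 0 z (n 0 z (n 0 z (n 0 z (n 0 z (n 0 z (n 0 z (n 0 z (n
 0 z (n 0 z (n 0 z (n 0 z (n 0 z (n 0 z (n 0 z (n 0 z (n 0 z (n 0 z (n 0 z (n 0 z (n 0 z (n 0 z
 (n 0 z (n 0 z (n 0 z (n 0 z (n 0 z (n 0 z (n 0 z z))))))))))))))))))))))))))))) (n 21 (n 0 z (n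
 0 z (n 0 z (n 0 z (n 0 z (n 0 z (n 0 z (n 0 z (n 0 z (n 0 z (n 0 z (n 0 z (n 0 z (n 0 z (n 0 z
 (n 0 z (n 0 z (n 0 z (n 0 z (n 0 z (n 0 z (n 0 z (n 0 z (n 0 z (n 0 z (n 0 z (n 0 z (n 0 z (n 0
 z z))))))))))))))))))))))))))))) (n 17 (n 0 z (n 0 z (n 0 z (n 0 z (n 0 z (n 0 z (n 0 z (n 0 z
 (n 0 z (n 0 z (n 0 z z))))))))))) (n 17 (n 0 z (n 0 z (n 0 z (n 2 z (n 0 z (n 0 z (n 0 z (n 0 z
 (n 0 z (n 0 z (n 0 z z))))))))))) z))))))))) (n 0 (n 0 z (n 0 z (n 489 (n 0 z (n 0 z (n 0 z (n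
 0 z (n 0 z (n 0 z (n 0 z z))))))) (n 489 (n 0 z (n 0 z (n 0 z (n 0 z (n 0 z (n 0 z (n 0 z
 z))))))) (n 489 (n 0 z (n 0 z (n 0 z (n 0 z (n 0 z (n 0 z (n 0 z z))))))) (n 489 (n 0 z (n 0 z
 (n 0 z (n 0 z (n 0 z (n 0 z (n 0 z z))))))) (n 485 (n 0 z (n 0 z (n 0 z (n 0 z (n 0 z (n 0 z (n
 0 z (n 0 z (n 0 z (n 0 z (n 0 z (n 0 z z)))))))))))) (n 485 (n 0 z (n 0 z (n 0 z (n 0 z (n 0 z
 (n 0 z (n 0 z (n 0 z (n 0 z (n 0 z (n 0 z (n 2 z z)))))))))))) z)))))))) (n 0 (n 0 z (n 489 (n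
 0 z (n 0 z (n 0 z (n 0 z (n 0 z (n 0 z (n 0 z (n 0 z (n 0 z (n 0 z (n 0 z (n 0 z (n 0 z (n 0 z
 (n 0 z z))))))))))))))) (n 489 (n 0 z (n 0 z (n 0 z (n 2 (n 0 z (n 0 z (n 2 (n 0 z (n 0 z (n 0
 z (n 0 z (n 0 z (n 0 z z)))))) (n 2 (n 0 z (n 0 z (n 0 z (n 0 z (n 0 z (n 0 z z)))))) z)))) (n
 0 z (n 0 z (n 0 z (n 0 z (n 0 z (n 0 z (n 0 z (n 0 z (n 0 z (n 0 z (n 0 z z))))))))))))))) (n
 489 (n 0 z (n 0 z (n 0 z (n 0 z (n 0 z (n 0 z (n 0 z (n 0 z (n 0 z (n 0 z (n 0 z (n 0 z (n 0 z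
 (n 0 z (n 0 z z))))))))))))))) (n 489 (n 0 z (n 0 z (n 0 z (n 0 z (n 0 z (n 0 z (n 0 z (n 0 z
 (n 0 z (n 0 z (n 0 z (n 0 z (n 0 z (n 0 z (n 0 z z))))))))))))))) (n 53 (n 0 z (n 0 z (n 0 z (n
 0 z (n 0 z (n 0 z (n 0 z (n 0 z (n 0 z (n 0 z (n 0 z (n 0 z z)))))))))))) (n 53 (n 0 z (n 0 z
 (n 0 z (n 0 z (n 0 z (n 2 z (n 0 z (n 0 z (n 0 z (n 0 z (n 0 z (n 0 z z)))))))))))) z))))))) (n
 0 (n 51 (n 0 z (n 0 z (n 0 z (n 0 z (n 0 z (n 0 z (n 0 z (n 0 z (n 0 z (n 2 (n 0 z (n 0 z (n 0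
 z (n 2 (n 0 z (n 0 z (n 0 z (n 0 z (n 0 z (n 0 z z)))))) (n 2 (n 0 z (n 0 z (n 0 z (n 0 z (n 0
 z (n 0 z z)))))) z))))) (n 0 z (n 0 z (n 0 z (n 0 z (n 0 z (n 0 z (n 0 z (n 0 z (n 0 z (n 0 z
 (n 0 z (n 0 z z)))))))))))))))))))))) (n 51 (n 0 z (n 0 z (n 0 z (n 0 z (n 0 z (n 0 z (n 0 z (n
 0 z (n 0 z (n 0 z (n 0 z (n 0 z (n 0 z (n 0 z (n 0 z (n 0 z (n 0 z (n 0 z (n 0 z (n 0 z (n 0 z
 (n 0 z z)))))))))))))))))))))) (n 51 (n 0 z (n 0 z (n 0 z (n 0 z (n 0 z (n 0 z (n 0 z (n 0 z (n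
 0 z (n 0 z (n 0 z (n 0 z (n 0 z (n 0 z (n 0 z (n 0 z (n 0 z (n 0 z (n 0 z (n 0 z (n 0 z (n 0 z
 z)))))))))))))))))))))) (n 51 (n 0 z (n 0 z (n 0 z (n 0 z (n 0 z (n 0 z (n 0 z (n 0 z (n 0 z (n
 0 z (n 0 z (n 0 z (n 0 z (n 0 z (n 0 z (n 0 z (n 0 z (n 0 z (n 0 z (n 0 z (n 0 z (n 0 z
 z)))))))))))))))))))))) (n 53 (n 2 (n 0 z z) (n 0 z (n 0 z (n 0 z (n 0 z (n 0 z (n 0 z (n 0 z
 (n 0 z (n 0 z (n 0 z z))))))))))) (n 53 (n 0 z (n 0 z (n 0 z (n 0 z (n 2 z (n 0 z (n 0 z (n 0 z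
 (n 0 z (n 0 z (n 0 z z))))))))))) z)))))) (n 0 (n 0 z (n 0 z (n 0 z (n 1 (n 0 z (n 0 z (n 0 z
 (n 0 z (n 0 z (n 0 z (n 0 z (n 0 z (n 0 z (n 0 z z)))))))))) (n 1 (n 0 z (n 0 z (n 0 z (n 0 z
 (n 0 z (n 0 z (n 0 z (n 0 z (n 0 z (n 0 z z)))))))))) z))))) (n 0 (n 0 z (n 0 z (n 1 (n 2 (n 0
 z z) (n 0 z (n 0 z (n 0 z (n 0 z (n 0 z (n 0 z (n 0 z (n 0 z z))))))))) (n 1 (n 0 z (n 0 z (n 2
 z (n 0 z (n 0 z (n 0 z (n 0 z (n 0 z (n 0 z z))))))))) z)))) (n 0 (n 0 z (n 241 (n 0 z (n 0 z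
 (n 0 z (n 0 z (n 0 z (n 0 z (n 0 z (n 0 z (n 0 z z))))))))) (n 241 (n 0 z (n 0 z (n 0 z (n 0 z
 (n 0 z (n 0 z (n 0 z (n 0 z (n 0 z z))))))))) z))) (n 0 (n 241 (n 0 z (n 0 z (n 0 z (n 0 z (n 0
 z (n 0 z (n 0 z (n 0 z (n 0 z (n 0 z z)))))))))) (n 241 (n 0 z (n 0 z (n 0 z (n 0 z (n 0 z (n 0
 z (n 0 z (n 0 z (n 0 z (n 0 z z)))))))))) z)) (n 0 (n 0 z z) (n 0 z z)))))))))))) (n 0 (n 0 z
 (n 1 (n 6496515 z (n 268 z (n 268 z (n 2 z (n 6558219 z (n 6496523 z z)))))) (n 1 (n 6496515 z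
 (n 6496275 z (n 6496275 z (n 6496275 z (n 6496275 z (n 6496275 z z)))))) z))) (n 0 (n
 0x344754348753 (n 0 (n 0 (n 7750923 z (n 7750923 z (n 7750923 z (n 7750923 z (n 7750923 z (n
 7750923 z z)))))) z) (n 0 (n 153 (n 0 z (n 1 (n 7734043 z (n 7734043 z (n 7734043 z (n 7734043
 z (n 7734043 z (n 7734043 z z)))))) (n 1 (n 7544851 z (n 7544851 z (n 7544851 z (n 7544851 z (n
 7544851 z (n 7544851 z z)))))) z))) (n 33 (n 1 (n 7750923 z (n 7750923 z (n 7750923 z (n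
 7750923 z (n 7750923 z (n 7750923 z z)))))) (n 0 z (n 1 (n 7545091 z (n 7545091 z (n 7545091 z
 (n 7545091 z (n 7545091 z (n 7545091 z z)))))) z))) (n 549 (n 1 (n 7545091 z (n 7544851 z (n
 7544851 z (n 7544851 z (n 7544851 z (n 7544851 z z)))))) (n 1 (n 7545091 z (n 7544851 z (n
 7544851 z (n 7544851 z (n 7544851 z (n 7544851 z z)))))) (n 1 (n 7545091 z (n 6492275 z (n
 7750923 z (n 7734043 z (n 7734043 z (n 7734043 z z)))))) (n 1 (n 7545091 z (n 7544851 z (n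
 7544851 z (n 7544851 z (n 7544851 z (n 7544851 z z)))))) (n 0 z (n 1 (n 7545091 z (n 7675971 z
 (n 7675971 z (n 7675971 z (n 7675971 z (n 7675971 z z)))))) (n 1 (n 7545091 z (n 4268 z (n 4268
 z (n 7545099 z (n 76 z (n 4268 z z)))))) z))))))) (n 556 (n 1 (n 7545091 z (n 7545091 z (n
 7545091 z (n 7545091 z (n 7545091 z (n 7545091 z z)))))) (n 1 (n 7545091 z (n 7545091 z (n
 7545091 z (n 7545091 z (n 7545091 z (n 7545091 z z)))))) (n 1 (n 7675971 z (n 7684899 z (n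
 7675971 z (n 7675971 z (n 7675971 z (n 7675971 z z)))))) (n 1 (n 4604 z (n 7684899 z (n 2 z (n
 4604 z (n 4604 z (n 4604 z z)))))) (n 0 z (n 1 (n 7545099 z (n 7684899 z (n 7545099 z (n
 7545099 z (n 7545099 z (n 6426739 z z)))))) (n 1 (n 4604 z (n 7684899 z (n 4604 z (n 2060 z (n
 7606795 z (n 4604 z z)))))) z))))))) (n 155 (n 1 (n 7545091 z (n 7684899 z (n 7684899 z (n
 7684899 z (n 7684899 z (n 7684899 z z)))))) (n 1 (n 7545091 z (n 10 z (n 7606795 z (n 284 z (n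
 7545099 z (n 284 z z)))))) (n 0 z (n 1 (n 7545091 z (n 7544851 z (n 7544851 z (n 7544851 z (n
 7544851 z (n 7544851 z z)))))) (n 1 (n 7545091 z (n 7684899 z (n 7684899 z (n 7684899 z (n
 7684899 z (n 7684899 z z)))))) z))))) (n 153 (n 0 z (n 0 z (n 1 (n 7545091 z (n 7675971 z (n
 7675971 z (n 7675971 z (n 7675971 z (n 7675971 z z)))))) (n 1 (n 7545091 z (n 7544851 z (n
 7544851 z (n 7544851 z (n 7544851 z (n 7544851 z z)))))) (n 1 (n 7545091 z (n 7684899 z (n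
 7684899 z (n 7684899 z (n 7684899 z (n 7684899 z z)))))) (n 1 (n 7545091 z (n 7684899 z (n
 7684899 z (n 7684899 z (n 7684899 z (n 7684899 z z)))))) z)))))) (n 153 (n 0 z (n 1 (n 7545091
 z (n 7734043 z (n 7734043 z (n 7750923 z (n 7606795 z (n 7545099 z z)))))) (n 1 (n 7545091 z (n
 7544851 z (n 7544851 z (n 7544851 z (n 7544851 z (n 7544851 z z)))))) z))) z))))))) (n 0 (n 0
 (n 0 z (n 0 z z)) (n 0 (n 0 z z) z)) (n 0 (n 525 (n 0 (n 0 z (n 0 z z)) (n 0 (n 0 z (n 0 z z))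
 (n 0 (n 0 z (n 0 z z)) (n 0 (n 0 z (n 0 z z)) z)))) (n 549 (n 0 (n 0 z (n 0 z z)) (n 0 (n 0 z
 (n 0 z z)) (n 0 (n 0 z (n 0 z z)) (n 0 (n 0 z (n 0 z z)) (n 0 (n 0 z (n 0 (n 8724547 z z) z))
 (n 0 (n 0 z (n 0 z z)) (n 0 (n 0 z (n 0 z z)) z))))))) (n 533 (n 0 (n 0 z (n 0 z z)) (n 0 (n 0
 z (n 0 z z)) (n 0 (n 0 z (n 0 z z)) (n 0 (n 0 z (n 0 z z)) (n 0 (n 0 z (n 0 z z)) (n 0 (n 0 z
 (n 0 z z)) (n 0 (n 0 z (n 0 z z)) (n 0 (n 0 z (n 0 z z)) (n 0 (n 0 z (n 0 z z)) (n 0 (n 0 z (n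
 0 z z)) z)))))))))) (n 575 (n 0 (n 0 z (n 0 z z)) (n 0 (n 0 z (n 0 z z)) (n 0 (n 0 z (n 0 z z))
 (n 0 (n 0 z (n 0 z z)) (n 0 (n 0 z (n 0 z z)) (n 0 (n 0 z (n 0 z z)) (n 0 (n 0 z (n 0 z z)) (n
 0 (n 0 z (n 0 z z)) (n 0 (n 0 z (n 0 z z)) (n 0 (n 0 (n 8783691 z (n
 0x21da1c540e010ed0ec207807f81818080808080807f8080817f817f8280808181808180808080807f80808080808080808080808080808080808080801009
 z z)) (n 0 z z)) (n 0 (n 0 z (n 0 (n 8724547 z z) z)) (n 0 (n 0 (n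
 0x21da1c540e030caeca207807f81828080808080807f8181807f817f8180808080808080808080808080807f80808080808080808080808080808080801009
 z (n
 0x21da1c540e030caeca207807f81818080808080807f80808180817f818180808080808080808080808080808080808080808080808080808080807f801009
 z z)) (n 0 (n
 0xd87680808080817f81818081808180807f8080818080817f80808080808080807f8180818080808080807f7f807f8080807f81800049
 z (n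
 0x50e6ec2a07817e7d8384818080838080818082808b867c837c7f7f7887807a7f7e848379877983807e827f827e7d827d80807a827f80840809
 z z)) z)) (n 0 (n 0 z (n 0 z z)) (n 0 (n 0 z (n 0 z z)) (n 0 (n 0 z (n 0 z z)) (n 0 (n 0 z (n 0
 (n 8733475 z (n 8733475 z z)) z)) (n 0 (n 0 (n 8724547 z (n 8724547 z z)) (n 0 (n 8724547 z (n
 8724547 z z)) z)) (n 0 (n 0 z (n 0 z z)) (n 0 (n 0 (n 8724547 z (n 8724547 z z)) (n 0 (n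
 8724547 z (n 8724547 z z)) z)) (n 0 (n 0 (n 8724547 z z) (n 0 z z)) (n 0 (n 0 z (n 0 z z)) (n 0
 (n 0 z (n 0 z z)) (n 0 (n 0 z (n 0 z z)) (n 0 (n 0 (n
 0x43ac3a880c02195d9440e010eb0a82077f808080808080808081817f7f7f817f8080808080807f80808280808081808081808080808080807f8080808080807f80801809
 z (n 0x43b438a81c0000021d61d44060000030caeca2071821 z z)) (n 0 z z)) (n 0 (n 0 z (n 0 z z)) (n
 0 (n 0 z (n 0 z z)) (n 0 (n 0 z (n 0 z z)) (n 0 (n 0 z (n 0 z z)) (n 0 (n 0 (n 8783691 z z) (n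
 0 z z)) (n 0 (n 0 z (n 0 z z)) z)))))))))))))))))))))))))))))) (n 257 (n 0 (n 0 z (n 0 z z)) (n
 0 (n 0 z (n 0 z z)) (n 0 (n 0 (n 8783691 z z) (n 0 z z)) (n 0 (n 0 z (n 0 (n 8593667 z z) z))
 (n 0 (n 0 z (n 0 (n 8593667 z (n 8593667 z z)) z)) (n 0 (n 0 z (n 0 (n 8593667 z z) z)) (n 0 (n
 0 z (n 0 (n 8783691 z z) z)) (n 0 (n 0 z (n 0 z z)) (n 0 (n 0 z (n 0 z z)) (n 0 (n 0 z (n 0 z
 z)) (n 0 (n 0 z (n 0 z z)) (n 0 (n 0 z (n 0 z z)) (n 0 (n 0 z (n 0 z z)) (n 0 (n 0 z (n 0 (n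
 0x10c6ec0a0380808081817f80818080818080818081808180808080808080807f8080808080808180808080808080817f808080808080800809
 z z) z)) (n 0 (n 0 z (n 0 z z)) (n 0 (n 0 z (n 0 z z)) (n 0 (n 0 z (n 0 z z)) (n 0 (n 0 z (n 0
 z z)) z)))))))))))))))))) (n 556 (n 0 (n 0 z (n 0 z z)) (n 0 (n 0 z (n 0 z z)) (n 0 (n 0 z (n 0
 z z)) (n 0 (n 0 z (n 0 z z)) (n 0 (n 0 z (n 0 z z)) (n 0 (n 0 z (n 0 z z)) (n 0 (n 0 z (n 0 z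
 z)) z))))))) (n 155 (n 0 (n 0 z (n 0 z z)) (n 0 (n 0 z (n 0 z z)) (n 0 (n 0 z (n 0 z z)) (n 0
 (n 0 z (n 0 z z)) (n 0 (n 0 z (n 0 z z)) z))))) (n 35 (n 0 (n 0 z (n 0 z z)) (n 0 (n 0 z (n 0 z
 z)) (n 0 (n 0 z (n 0 z z)) (n 0 (n 0 z (n 0 z z)) (n 0 (n 0 z (n 0 z z)) z))))) (n 11 (n 0 (n 0
 z (n 0 z z)) (n 0 (n 0 z (n 0 z z)) (n 0 (n 0 z (n 0 z z)) (n 0 (n 0 z (n 0 z z)) (n 0 (n 0 z
 (n 0 z z)) (n 0 (n 0 z (n 0 z z)) (n 0 (n 0 z (n 0 z z)) (n 0 (n 0 z (n 0 z z)) (n 0 (n 0 z (n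
 0 z z)) (n 0 (n 0 z (n 0 z z)) (n 0 (n 0 z (n 0 (n
 0x6195d94c0e010eb0ea20380808080808080808080808080818080808080808080808080808080808080808080808080808080808080808080808080801009
 z z) z)) (n 0 (n 0 z (n 0 z z)) (n 0 (n 0 z (n 0 (n 8593667 z (n 8593667 z z)) z)) (n 0 (n 0 (n
 0x21d61d4406030caeca20780808180807f808080808080807f8080808080808080808080808080808080808080808080808080808080808080807f80801009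
 z (n 0xc3b438a81c0000021d61d44060000010eb0ca2031821 z z)) (n 0 (n
 0x4ec70e2a0300873861501824193b0a80c1d8c9d85406030c70c0a03008658653018043ac32881c0614d94c40e050cb0ca00373968b2d7963a38783816b838071b0a8bf5585a3a2895cc080308e68777d5f8e65987b677f728374817f8f9c8061777074ab4809
 z (n
 0x61ce1c540600ec70c2a07807f8080817f80808181807f807e81808080808080808080808180808080808280808080808080807f8080808080808080801009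
 z z)) z)) (n 0 (n 0 z (n 0 z z)) (n 0 (n 0 z (n 0 z z)) (n 0 (n 0 z (n 0 z z)) (n 0 (n 0 z (n 0
 (n 8593667 z (n 8593667 z z)) z)) (n 0 (n 0 z (n 0 (n 8593675 z (n 8593675 z z)) z)) (n 0 (n 0
 (n
 0x5d8e18540e030eb0ea2037f807f80817f7f808181807f8080807f8180808080807f8080818080818080818080808080808080808080808080807f80801009
 z z) (n 0 z z)) (n 0 (n 0 z (n 0 z z)) (n 0 (n 0 z (n 0 z z)) (n 0 (n 0 z (n 0 z z)) (n 0 (n 0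
 z (n 0 z z)) (n 0 (n 0 z (n 0 z z)) (n 0 (n 0 z (n 0 z z)) (n 0 (n 0 z (n 0 (n 8593427 z z) z))
 (n 0 (n 0 z (n 0 (n
 0x30ed0ca603807f81818080808080807f8080818080808181808080808180808080808080808080808080808080808080808080808080800809
 z z) z)) (n 0 (n 0 z (n 0 (n 8593427 z (n 8593427 z z)) z)) z))))))))))))))))))))))))))))) (n
 245 (n 0 (n 0 z (n 0 z z)) (n 0 (n 0 z (n 0 z z)) (n 0 (n 0 z (n 0 z z)) (n 0 (n 0 z (n 0 z z))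
 (n 0 (n 0 z (n 0 z z)) (n 0 (n 0 z (n 0 z z)) (n 0 (n 0 z (n 0 z z)) (n 0 (n 0 z (n 0 z z)) (n
 0 (n 0 z (n 0 z z)) (n 0 (n 0 z (n 0 z z)) (n 0 (n 0 z (n 0 z z)) (n 0 (n 0 (n
 0x21d61d4406030caeca20780808180807f808080808080807f8080808080808080808080808080808080808080808080808080808080808080807f80801009
 z (n 0xc3b438a81c0000021d61d44060000010eb0ca2031821 z z)) (n 0 (n
 0x10e6e42a03018736215018043ab29081c0219618040e010cb0a020781808080807f808080808080808081808080808080808080808080808080807f8080808080808080818080808080808080802809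
 z (n 0x43b438a81c00000618dd8540e0000010eb0ea2031821 z z)) z)) (n 0 (n 0 z (n 0 z z)) (n 0 (n 0
 z (n 0 z z)) (n 0 (n 0 z (n 0 z z)) z))))))))))))))) (n 153 (n 0 (n 0 z (n 0 z z)) (n 0 (n 0 z
 (n 0 z z)) (n 0 (n 0 z (n 0 z z)) (n 0 (n 0 z (n 0 z z)) (n 0 (n 0 z (n 0 z z)) (n 0 (n 0 z (n
 0 z z)) z)))))) (n 33 (n 0 (n 0 z (n 0 z z)) (n 0 (n 0 z (n 0 z z)) (n 0 (n 0 z (n 0 z z)) (n 0
 (n 0 z (n 0 z z)) (n 0 (n 0 z (n 0 z z)) (n 0 (n 0 z (n 0 z z)) (n 0 (n 0 z (n 0 z z)) (n 0 (n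
 0 (n 8724547 z z) (n 0 z z)) (n 0 (n 0 (n
 0x10c70c6407817e818a7e8579857c7d828281857f7d7f857d7c7b83807c80807c867f7d827c7a7c80827e7b807c8181867f827d7a82808b0809
 z z) (n 0 z z)) (n 0 (n 0 (n
 0x2ec6c42a030286384320380421c21901c05d8e18080e00ca6ca620383758896738d7088787e80917c91787e7f8781856f7d7b7480817c867f838083717b77787f7a827f868f828c8780807d79852809
 z (n 8783691 z z)) (n 0 z z)) (n 0 (n 0 z (n 0 z z)) (n 0 (n 0 z (n 0 z z)) (n 0 (n 0 z (n 0 z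
 z)) (n 0 (n 0 z (n 0 z z)) (n 0 (n 0 z (n 0 (n 6563867 z z) z)) (n 0 (n 0 z (n 0 z z))
 z)))))))))))))))) (n 9 (n 0 (n 0 z (n 0 z z)) (n 0 (n 0 z (n 0 z z)) (n 0 (n 0 z (n 0 z z)) (n
 0 (n 0 z (n 0 z z)) (n 0 (n 0 z (n 0 z z)) (n 0 (n 0 z (n 0 z z)) (n 0 (n 0 z (n 0 z z)) (n 0
 (n 0 z (n 0 z z)) (n 0 (n 0 z (n 0 z z)) (n 0 (n 0 z (n 0 z z)) (n 0 (n 0 z (n 0 z z))
 z))))))))))) (n 27 (n 0 (n 0 z (n 0 z z)) (n 0 (n 0 z (n 0 z z)) (n 0 (n 0 z (n 0 z z)) (n 0 (n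
 0 z (n 0 z z)) (n 0 (n 0 z (n 0 z z)) (n 0 (n 0 z (n 0 z z)) (n 0 (n 0 z (n 0 z z)) (n 0 (n 0 z
 (n 0 z z)) (n 0 (n 0 z (n 0 z z)) (n 0 (n 0 z (n 0 z z)) (n 0 (n 0 z (n 0 z z)) (n 0 (n 0 z (n
 0 z z)) z)))))))))))) (n 1 (n 0 (n 0 z (n 0 z z)) (n 0 (n 0 z (n 0 z z)) (n 0 (n 0 z (n 0 z z))
 (n 0 (n 0 z (n 0 z z)) (n 0 (n 0 z (n 0 z z)) (n 0 (n 0 z (n 0 z z)) (n 0 (n 0 z (n 0 z z)) (n
 0 (n 0 (n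
 0xe650a2c030076362150380431430980c02195d8c806010c70c04037f81807f818080808081807f807f817f8180818080807f81808280808080808080818080808080807f808080807f7f8080812809
 z (n
 0x2e650a2c038080818180807f8180807f81808180817f81808080808180808080817f807f807f817f7f8080808080807f81807f808080810809
 z z)) (n 0 z z)) (n 0 (n 0 z (n 0 z z)) (n 0 (n 0 z (n 0 z z)) z)))))))))) (n 153 (n 0 (n 0 z
 (n 0 z z)) (n 0 (n 0 z (n 0 z z)) (n 0 (n 0 z (n 0 z z)) z))) (n 33 (n 0 (n 0 z (n 0 z z)) (n 0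
 (n 0 z (n 0 z z)) (n 0 (n 0 z (n 0 z z)) z))) (n 9 (n 0 (n 0 z (n 0 z z)) (n 0 (n 0 z (n 0 z
 z)) (n 0 (n 0 z (n 0 z z)) (n 0 (n 0 z (n 0 z z)) (n 0 (n 0 z (n 0 z z)) (n 0 (n 0 z (n 0 (n
 8724547 z z) z)) (n 0 (n 0 z (n 0 z z)) z))))))) (n 243 (n 0 (n 0 z (n 0 z z)) (n 0 (n 0 z (n 0
 z z)) (n 0 (n 0 z (n 0 z z)) (n 0 (n 0 z (n 0 z z)) (n 0 (n 0 (n
 0x30caea0207807f81818080808080807f80808180807f818080808080818080808080808080808080808080808080808080807f808080800809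
 z z) (n 0 z z)) (n 0 (n 0 z (n 0 z z)) (n 0 (n 0 z (n 0 (n 8733475 z z) z)) (n 0 (n 0 z (n 0 z
 z)) (n 0 (n 0 (n
 0x30e90a820780808180808080808080808080808080808080808080808080808080808080808080808080808080808080808080808080800809
 z z) (n 0 z z)) (n 0 (n 0 z (n 0 z z)) (n 0 (n 0 (n
 0x30caea0207807f81818080808080807f80808180807f818080808080818080808080808080808080808080808080808080807f808080810809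
 z (n 8783691 z z)) (n 0 z z)) (n 0 (n 0 z (n 0 z z)) (n 0 (n 0 (n
 0x1987482808182827e7f828181808080807f827f80817f8180808080817f8180807f817f818080808080807d807f80827f808080800049
 z (n 0x21d61d44060000030caea82071021 z z)) (n 0 z z)) (n 0 (n 0 z (n 0 z z)) (n 0 (n 0 z (n 0 z
 z)) (n 0 (n 0 z (n 0 z z)) (n 0 (n 0 z (n 0 (n 8593427 z z) z)) (n 0 (n 0 z (n 0 z z)) (n 0 (n
 0 z (n 0 (n 8593667 z (n 8593667 z z)) z)) (n 0 (n 0 z (n 0 (n 8593667 z z) z)) (n 0 (n 0 z (n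
 0 (n 8593667 z z) z)) (n 0 (n 0 z (n 0 (n 8593667 z z) z)) (n 0 (n 0 z (n 0 z z)) (n 0 (n 0 z
 (n 0 z z)) (n 0 (n 0 z (n 0 z z)) (n 0 (n 0 z (n 0 z z)) (n 0 (n 0 z (n 0 z z))
 z))))))))))))))))))))))))))) (n 1 (n 0 (n 0 z (n 0 z z)) (n 0 (n 0 z (n 0 z z)) (n 0 (n 0 z (n
 0 z z)) (n 0 (n 0 z (n 0 z z)) (n 0 (n 0 z (n 0 z z)) (n 0 (n 0 (n
 0x30e7020a0780808180807f80818080808181808080808080808080818080808080808080808080808080808080808080808080808080800809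
 z z) (n 0 z z)) (n 0 (n 0 z (n 0 z z)) z))))))) (n 0 (n 0 (n 0 z (n 0 (n 8733475 z z) z)) (n 0
 (n 0 z (n 0 z z)) (n 0 (n 0 z (n 0 z z)) (n 0 (n 0 z (n 0 z z)) (n 0 (n 0 z (n 0 z z)) (n 0 (n
 0 z (n 0 z z)) (n 0 (n 0 z (n 0 z z)) (n 0 (n 0 (n
 0x30e90e020780808181807f7f818080808080807f81808181808181808080808080808080808080807f7f8080807f80807f807f80807f800809
 z z) (n 0 z z)) (n 0 (n 0 (n
 0xc39c10201c021d21d080e010e90e020780808181807f808180808080817f80817f808181818181808080808080808080808080808080808080808080807f808080811809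
 z z) (n 0 z z)) z))))))))) z))))))))))))))))))))) z)))) z) z)))) (n
 0x6caca2544d1152a85aa970d5498528cc11aa658288c40a462a40 (n 0 (n 215 (n 3282443 z (n 2 z (n 0 z
 (n 0 z z)))) (n 35 (n 6627635 z z) (n 9 (n
 0x2ca4a6080381f82182082082086086085f7e17608207e08218218208218208208208218218207e08207e00801 z
 (n 0 z (n 10 z (n 0 z (n 0 z (n 0 z (n 0 z (n 0 z (n 0 z (n 0 z (n 18 z (n 6631955 z
 z)))))))))))) (n 3 (n 0 z (n 6631955 z z)) (n 1 (n 0 z (n 6558507 z (n 26 z (n 34 z (n 42 z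
 z))))) (n 0 (n 50 z (n 58 z (n 66 z (n
 0x8ca88624037de86272285f81f8a085f86086082076189f85e7e181f7e085f89f85f82182281f86181f8200801 z
 (n 6631955 z (n
 0x6ca88624038608606e289f7df7a17e081f89f8208a082082085e81f8a082281f7de8207e07618a085f7e00801 z
 (n 0x4c86c8040781e8a176285f85f82082081f8208208208208217e181f82082082082082186181f8207df8200801
 z (n 74 z z)))))))) z)))))) (n 35 (n 0 (n 43 (n 0 z (n 0 z (n 0 z (n 0 z (n 0 z (n 0 z (n 0 z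
 (n 0 z (n 0 z z))))))))) (n 43 (n 0 z (n 0 z (n 2 (n 2 (n 0 z (n 0 z (n 0 z (n 0 z (n 0 z (n 0
 z z)))))) (n 2 (n 0 z (n 0 z (n 0 z (n 0 z (n 0 z (n 0 z z)))))) (n 1 z (n 1 z (n 1 z (n 2 (n 0
 z (n 0 z (n 0 z (n 0 z (n 0 z (n 0 z z)))))) (n 1 z z))))))) (n 0 z (n 0 z (n 0 z (n 0 z (n 0 z
 (n 0 z z))))))))) (n 41 (n 0 z (n 0 z (n 0 z (n 0 z (n 0 z z))))) (n 41 (n 0 z (n 0 z (n 0 z (n
 0 z (n 0 z z))))) (n 41 (n 0 z (n 2 (n 1 z (n 1 z (n 1 z (n 1 z z)))) (n 0 z (n 0 z (n 0 z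
 z))))) (n 269 (n 0 z (n 0 z (n 0 z (n 2 (n 0 z (n 0 z (n 0 z z))) (n 0 z (n 0 z (n 0 z z)))))))
 (n 269 (n 0 z (n 0 z (n 0 z (n 0 z (n 0 z (n 0 z (n 0 z z))))))) (n 269 (n 0 z (n 0 z (n 0 z (n
 0 z (n 0 z (n 0 z (n 0 z z))))))) (n 269 (n 0 z (n 0 z (n 2 z (n 0 z (n 0 z (n 0 z (n 0 z
 z))))))) z))))))))) (n 0 (n 0 z (n 297 (n 0 z (n 0 z (n 0 z (n
 0x14c42e80a07a9e5a02d3a6da1e4a9a2e895dde7259a24616a06e26b5ae68627ea8566e888c464d2446a5a10801 z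
 (n 0 z (n 0 z (n 0 z (n 0 z (n 0 z (n 0 z (n 0 z (n 0 z (n 0 z (n 0 z (n 0 z (n 0 z (n 0 z (n 0
 z (n 0 z (n 0 z (n 0 z z))))))))))))))))))))) (n 297 (n 0 z (n 0 z (n 0 z (n 0 z (n 0 z (n 0 z
 (n 0 z (n 0 z (n 0 z (n 0 z (n 0 z (n 0 z (n 0 z (n 0 z (n 0 z (n 0 z (n 0 z (n 0 z (n 0 z (n 0
 z (n 0 z z))))))))))))))))))))) (n 297 (n 0 z (n 0 z (n 0 z (n 0 z (n 0 z (n 0 z (n 0 z (n 0 z
 (n 0 z (n 0 z (n 0 z (n 0 z (n 0 z (n 0 z (n 0 z (n 0 z (n 0 z (n 0 z (n 0 z (n 0 z (n 2 (n 1 z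
 (n 1 z (n 2 (n 0 z (n 0 z (n 0 z (n 0 z (n 0 z (n 0 z z)))))) (n 1 z z))))
 z))))))))))))))))))))) (n 293 (n 0 z (n 0 z (n 0 z (n 0 z (n 0 z (n 0 z (n 0 z (n 0 z z))))))))
 (n 293 (n 0 z (n 0 z (n 0 z (n 0 z (n 0 z (n 0 z (n 0 z (n 0 z z)))))))) (n 293 (n 0 z (n 0 z
 (n 0 z (n 0 z (n 0 z (n 2 (n 0 z z) (n 0 z (n 0 z z)))))))) (n 293 (n 0 z (n 0 z (n 0 z (n 0 z
 (n 0 z (n 0 z (n 0 z (n 2 z z)))))))) z)))))))) (n 0 (n 243 (n 0 z (n 0 z (n 0 z (n 0 z (n 2 (n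
 0 z (n 0 z (n 1 z (n 1 z (n 2 (n 0 z (n 0 z (n 0 z (n 0 z (n 0 z (n 0 z z)))))) (n 1 z z))))))
 (n 0 z (n 0 z z))))))) (n 243 (n 0 z (n 0 z (n 0 z (n 0 z (n 0 z (n 0 z (n 2 (n 0 z (n 1 z (n 1
 z (n 2 (n 0 z (n 0 z (n 0 z (n 0 z (n 0 z (n 0 z z)))))) (n 1 z z))))) z))))))) (n 243 (n 0 z
 (n 0 z (n 0 z (n 0 z (n 0 z (n 0 z (n 0 z z))))))) (n 245 (n 0 z (n 0 z (n 0 z (n 0 z (n 0 z (n
 0 z (n 0 z z))))))) (n 245 (n 0 z (n 0 z (n 0 z (n 0 z (n 0 z (n 0 z (n 0 z z))))))) (n 245 (n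
 0 z (n 0 z (n 0 z (n 2 (n 0 z z) (n 0 z (n 0 z (n 0 z z))))))) (n 245 (n 0 z (n 0 z (n 0 z (n 0
 z (n 0 z (n 0 z (n 2 z z))))))) z))))))) (n 0 (n 0 z (n 0 z (n 505 (n 0 z (n 0 z (n 0 z (n 0 z
 (n 0 z (n 0 z (n 0 z (n 0 z (n 0 z (n 0 z (n 0 z (n 0 z (n 0 z (n 0 z (n 0 z (n 2 (n 0 z (n 0 z
 (n 0 z z))) (n 0 z (n 0 z (n 0 z (n 0 z (n 0 z z))))))))))))))))))))) (n 505 (n 0 z (n 0 z (n 0
 z (n 0 z (n 0 z (n 0 z (n 0 z (n 0 z (n 0 z (n 0 z (n 0 z (n 0 z (n 0 z (n 0 z (n 0 z (n 0 z (n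
 0 z (n 0 z (n 0 z (n 0 z (n 0 z z))))))))))))))))))))) (n 505 (n 0 z (n 0 z (n 0 z (n 0 z (n 0
 z (n 0 z (n 0 z (n 0 z (n 0 z (n 0 z (n 0 z (n 0 z (n 0 z (n 0 z (n 0 z (n 0 z (n 0 z (n 0 z (n
 0 z (n 0 z (n 0 z z))))))))))))))))))))) (n 505 (n 0 z (n 0 z (n 0 z (n 0 z (n 0 z (n 0 z (n 0
 z (n 0 z (n 0 z (n 0 z (n 0 z (n 0 z (n 0 z (n 0 z (n 0 z (n 0 z (n 0 z (n 0 z (n 0 z (n 2 z (n
 0 z z))))))))))))))))))))) z)))))) (n 0 (n 0 z (n 157 (n 0 z (n 0 z (n 0 z (n 0 z (n 0 z (n 0 z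
 (n 0 z (n 0 z (n 0 z (n 0 z (n 0 z (n 0 z (n 0 z (n 0 z (n 0 z (n 0 z (n 0 z (n 0 z (n 0 z (n 0
 z (n 2 (n 0 z (n 0 z (n 0 z z))) (n 0 z (n 0 z (n 0 z (n 0 z (n 0 z z))))))))))))))))))))))))))
 (n 157 (n 0 z (n 0 z (n 0 z (n 0 z (n 0 z (n 0 z (n 0 z (n 0 z (n 0 z (n 0 z (n 0 z (n 0 z (n 0
 z (n 0 z (n 0 z (n 0 z (n 0 z (n 0 z (n 0 z (n 0 z (n 0 z (n 0 z (n 0 z (n 0 z (n 0 z (n 0 z
 z)))))))))))))))))))))))))) (n 157 (n 0 z (n 0 z (n 0 z (n 0 z (n 0 z (n 0 z (n 0 z (n 0 z (n 0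
 z (n 0 z (n 0 z (n 0 z (n 0 z (n 0 z (n 0 z (n 0 z (n 0 z (n 0 z (n 0 z (n 0 z (n 0 z (n 0 z (n
 0 z (n 0 z (n 0 z (n 0 z z)))))))))))))))))))))))))) (n 157 (n 0 z (n 0 z (n 0 z (n 0 z (n 0 z
 (n 0 z (n 0 z (n 0 z (n 0 z (n 0 z (n 0 z (n 0 z (n 0 z (n 0 z (n 0 z (n 0 z (n 0 z (n 0 z (n 0
 z (n 0 z (n 0 z (n 0 z (n 0 z (n 0 z (n 2 z (n 0 z z)))))))))))))))))))))))))) z))))) (n 0 (n 1
 (n 0 z (n 0 z (n 0 z (n 0 z (n 0 z (n 0 z (n 0 z (n 0 z (n 0 z z))))))))) (n 1 (n 0 z (n 0 z (n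
 0 z (n 0 z (n 0 z (n 2 (n 0 z (n 0 z z)) (n 0 z (n 0 z (n 0 z z))))))))) (n 1 (n 2 (n 0 z z) (n
 0 z (n 0 z (n 0 z (n 0 z (n 0 z (n 0 z (n 0 z (n 0 z z))))))))) (n 1 (n 0 z (n 0 z (n 0 z (n 0
 z (n 0 z (n 0 z (n 0 z (n 0 z (n 0 z z))))))))) z)))) (n 0 (n 0 z (n 0 z (n 0 z z))) (n 0 (n 0
 z (n 0 z z)) (n 0 (n 0 z z) (n 0 z z)))))))))) (n 0 (n 1 (n 6627635 z (n 6627635 z (n 6627635 z
 (n 6631955 z (n 6627635 z (n 6627635 z z)))))) z) (n 0 z z)))) (n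
 0x1a98a8d25570a8c984954d84a9e8118f682a5a5062da408ed25034da814c840 (n 0x3692a (n 153 (n 0 z (n 0
 z (n 2 z (n 0 z (n 0 z (n 0 z (n 3282443 z (n 0 z (n 10 z (n 18 z z)))))))))) (n 57 (n 6496515
 z (n 6496515 z (n 26 z z))) (n 51 (n 0 z (n 0 z (n 34 z (n 6496515 z (n 42 z z))))) (n 123 (n
 6496515 z (n 50 z (n 58 z z))) (n 1 (n 6635827 z (n 0 z (n 0 z (n 0 z (n 0 z (n 0 z (n 66 z (n
 74 z z)))))))) (n 0 (n 6635827 z (n 0 z (n 0 z (n 0 z (n 0 z (n 0 z (n 0 z (n 0 z (n 0 z (n 0 z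
 (n 0 z (n 0 z (n 0 z (n 0 z (n 82 z (n 0 z (n 90 z (n 6624315 z z)))))))))))))))))) z)))))) (n
 57 (n 0 (n 0 z (n 0 z (n 995 (n 0 z (n 0 z (n 0 z (n 0 z (n 0 z (n 0 z (n 0 z (n 0 z (n 0 z (n
 0 z (n 0 z (n 0 z (n 0 z (n 0 z (n 0 z z))))))))))))))) (n 151 (n 0 z (n 0 z (n 0 z (n 7741459
 z (n 0 z z))))) (n 151 (n 0 z (n 0 z (n 0 z (n 0 z (n 0 z z))))) (n 27 (n 0 z (n 0 z (n 0 z (n
 0 z (n 0 z (n 0 z (n 0 z (n 0 z (n 0 z (n 0 z (n 7741459 z (n 0 z (n 0 z (n 0 z z))))))))))))))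
 (n 27 (n 0 z (n 0 z (n 0 z (n 0 z (n 0 z (n 0 z (n 0 z (n 0 z (n 0 z (n 0 z (n 0 z (n 0 z (n 0
 z (n 0 z z)))))))))))))) (n 243 (n 0 z (n 0 z (n 0 z (n 0 z (n 0 z (n 0 z (n 0 z z))))))) (n
 243 (n 0 z (n 0 z (n 0 z (n 0 z (n 0 z (n 7741459 z (n 0 z z))))))) (n 25 (n 0 z (n 0 z (n 0 z
 (n 0 z (n 0 z (n 0 z (n 0 z (n 7734059 z (n 0 z (n 0 z (n 0 z (n 0 z (n 0 z (n 0 z (n 0 z (n 0
 z (n 0 z (n 0 z (n 0 z (n 0 z (n 0 z z))))))))))))))))))))) (n 25 (n 0 z (n 0 z (n 0 z (n 0 z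
 (n 0 z (n 0 z (n 0 z (n 0 z (n 0 z (n 0 z (n 0 z (n 0 z (n 0 z (n 0 z (n 0 z (n 0 z (n 0 z (n 0
 z (n 0 z (n 0 z (n 0 z z))))))))))))))))))))) z))))))))))) (n 0 (n 0 z (n 909 (n 0 z (n 0 z (n
 0 z (n 0 z (n 0 z (n 0 z (n 0 z (n 0 z (n 0 z (n 0 z (n 0 z (n 0 z (n 0 z (n 0 z (n 0 z (n 0 z
 (n 0 z (n 0 z (n 0 z z))))))))))))))))))) (n 1125 (n 0 z (n 0 z (n 2 (n 0 z (n 2 (n 0 z (n 0 z
 (n 0 z (n 0 z (n 0 z (n 0 z z)))))) (n 2 (n 0 z (n 0 z (n 0 z (n 0 z (n 0 z (n 0 z z)))))) (n 2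
 (n 0 z (n 0 z (n 0 z (n 0 z (n 0 z (n 0 z z)))))) (n 2 (n 0 z (n 0 z (n 0 z (n 0 z (n 0 z (n 0
 z z)))))) (n 2 (n 0 z (n 0 z (n 0 z (n 0 z (n 0 z (n 0 z z)))))) (n 2 (n 0 z (n 0 z (n 0 z (n 0
 z (n 0 z (n 0 z z)))))) z))))))) (n 0 z (n 0 z z))))) (n 1125 (n 0 z (n 0 z (n 0 z (n 0 z (n 0
 z z))))) (n 321 (n 0 z (n 0 z (n 2 (n 0 z (n 1 z (n 2 (n 0 z (n 0 z (n 0 z (n 0 z (n 0 z (n 0 z
 z)))))) (n 1 z (n 2 (n 0 z (n 0 z (n 0 z (n 0 z (n 0 z (n 0 z z)))))) z))))) (n 0 z (n 0 z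
 z))))) (n 321 (n 0 z (n 0 z (n 0 z (n 0 z (n 0 z z))))) (n 309 (n 0 z (n 0 z (n 0 z (n 0 z (n 0
 z (n 0 z z)))))) (n 309 (n 0 z (n 0 z (n 0 z (n 0 z (n 0 z (n 2 (n 2 (n 0 z (n 0 z (n 0 z (n 0
 z (n 0 z (n 0 z z)))))) (n 2 (n 0 z (n 0 z (n 0 z (n 0 z (n 0 z (n 0 z z)))))) z)) z)))))) (n
 305 (n 0 z (n 0 z (n 0 z (n 0 z (n 0 z z))))) (n 305 (n 0 z (n 0 z (n 0 z (n 0 z (n 0 z z)))))
 z)))))))))) (n 0 (n 909 (n 0 z (n 0 z (n 0 z (n 0 z (n 0 z (n 0 z (n 0 z (n 0 z (n 0 z (n 0 z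
 (n 0 z (n 0 z (n 0 z (n 0 z (n 0 z (n 0 z (n 0 z z))))))))))))))))) (n 885 (n 0 z (n 0 z (n 0 z
 (n 0 z (n 2 (n 0 z (n 2 (n 0 z (n 0 z (n 0 z (n 0 z (n 0 z (n 0 z z)))))) (n 2 (n 0 z (n 0 z (n
 0 z (n 0 z (n 0 z (n 0 z z)))))) (n 2 (n 0 z (n 0 z (n 0 z (n 0 z (n 0 z (n 0 z z)))))) (n 2 (n
 0 z (n 0 z (n 0 z (n 0 z (n 0 z (n 0 z z)))))) (n 2 (n 0 z (n 0 z (n 0 z (n 0 z (n 0 z (n 0 z
 z)))))) (n 2 (n 0 z (n 0 z (n 0 z (n 0 z (n 0 z (n 0 z z)))))) z))))))) z))))) (n 885 (n 0 z (n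
 0 z (n 0 z (n 0 z (n 0 z z))))) (n 315 (n 0 z (n 0 z (n 0 z (n 2 (n 0 z (n 1 z (n 2 (n 0 z (n 0
 z (n 0 z (n 0 z (n 0 z (n 0 z z)))))) (n 1 z (n 2 (n 0 z (n 0 z (n 0 z (n 0 z (n 0 z (n 0 z
 z)))))) z))))) z)))) (n 315 (n 0 z (n 0 z (n 0 z (n 0 z z)))) (n 303 (n 0 z (n 0 z (n 0 z (n 0
 z (n 0 z z))))) (n 303 (n 0 z (n 0 z (n 0 z (n 0 z (n 2 (n 2 (n 0 z (n 0 z (n 0 z (n 0 z (n 0 z
 (n 0 z z)))))) (n 2 (n 0 z (n 0 z (n 0 z (n 0 z (n 0 z (n 0 z z)))))) z)) z))))) (n 305 (n 0 z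
 (n 0 z (n 0 z (n 0 z (n 0 z (n 0 z (n 0 z (n 0 z (n 0 z (n 0 z (n 0 z (n 0 z (n 0 z (n 0 z (n 0
 z z))))))))))))))) (n 305 (n 0 z (n 0 z (n 0 z (n 0 z (n 0 z (n 0 z (n 0 z (n 0 z (n 0 z (n 0 z
 (n 0 z (n 0 z (n 0 z (n 0 z (n 0 z z))))))))))))))) z))))))))) (n 0 (n 753 (n 0 z (n 0 z (n 0 z
 (n 0 z (n 0 z (n 0 z (n 2 (n 0 z (n 1 z (n 2 (n 0 z (n 0 z (n 0 z (n 0 z (n 0 z (n 0 z z))))))
 (n 1 z (n 2 (n 0 z (n 0 z (n 0 z (n 0 z (n 0 z (n 0 z z)))))) (n 1 z (n 2 (n 0 z (n 0 z (n 0 z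
 (n 0 z (n 0 z (n 0 z z)))))) z))))))) z))))))) (n 753 (n 0 z (n 0 z (n 0 z (n 0 z (n 0 z (n 0 z
 (n 0 z z))))))) (n 55 (n 0 z (n 0 z (n 0 z (n 0 z (n 2 (n 0 z (n 1 z (n 1 z (n 1 z (n 1 z
 z))))) z))))) (n 55 (n 0 z (n 0 z (n 0 z (n 0 z (n 0 z z))))) (n 111 (n 0 z (n 0 z (n 0 z (n 0
 z (n 0 z (n 0 z (n 0 z (n 0 z z)))))))) (n 111 (n 0 z (n 0 z (n 0 z (n 0 z (n 0 z (n 0 z (n 0 z
 (n 2 (n 1 z (n 2 (n 0 z (n 0 z (n 0 z (n 0 z (n 0 z (n 0 z z)))))) z)) z)))))))) (n 109 (n 0 z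
 (n 0 z (n 0 z (n 0 z (n 0 z (n 0 z (n 0 z (n 0 z (n 0 z z))))))))) (n 109 (n 0 z (n 0 z (n 0 z
 (n 0 z (n 0 z (n 0 z (n 2 z (n 0 z (n 0 z z))))))))) z)))))))) (n 0 (n 0 z (n 247 (n 0 z (n 0 z
 (n 0 z (n 0 z (n 0 z (n 0 z (n 0 z z))))))) (n 247 (n 0 z (n 0 z (n 0 z (n 0 z (n 0 z (n 0 z (n
 2 (n 2 (n 0 z (n 0 z (n 0 z (n 0 z (n 0 z (n 0 z z)))))) (n 2 (n 0 z (n 0 z (n 0 z (n 0 z (n 0
 z (n 0 z z)))))) (n 2 (n 0 z (n 0 z (n 0 z (n 0 z (n 0 z (n 0 z z)))))) (n 2 (n 0 z (n 0 z (n 0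
 z (n 0 z (n 0 z (n 0 z z)))))) z)))) z))))))) (n 15 (n 0 z (n 0 z (n 0 z (n 0 z (n 0 z (n 0 z
 (n 0 z (n 0 z (n 0 z (n 0 z (n 0 z (n 0 z (n 0 z (n 2 (n 0 z (n 1 z (n 2 (n 0 z (n 0 z (n 0 z
 (n 0 z (n 0 z (n 0 z z)))))) z))) z)))))))))))))) (n 15 (n 0 z (n 0 z (n 0 z (n 0 z (n 0 z (n 0
 z (n 0 z (n 0 z (n 0 z (n 0 z (n 0 z (n 0 z (n 0 z (n 0 z z)))))))))))))) (n 13 (n 0 z (n 0 z
 (n 0 z (n 0 z (n 0 z (n 0 z (n 0 z (n 0 z (n 0 z (n 0 z (n 0 z (n 0 z (n 0 z (n 0 z (n 0 z (n 0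
 z (n 0 z (n 0 z (n 0 z (n 0 z (n 2 (n 0 z z) z))))))))))))))))))))) (n 13 (n 0 z (n 0 z (n 0 z
 (n 0 z (n 0 z (n 0 z (n 0 z (n 0 z (n 0 z (n 0 z (n 0 z (n 0 z (n 0 z (n 0 z (n 0 z (n 0 z (n 0
 z (n 0 z (n 0 z (n 2 z (n 0 z z))))))))))))))))))))) z))))))) (n 0 (n 267 (n 0 z (n 0 z (n 0 z
 (n 0 z (n 0 z (n 0 z (n 0 z (n 0 z (n 0 z (n 0 z (n 2 (n 0 z (n 1 z (n 2 (n 0 z (n 0 z (n 0 z
 (n 0 z (n 0 z (n 0 z z)))))) (n 1 z (n 2 (n 0 z (n 0 z (n 0 z (n 0 z (n 0 z (n 0 z z))))))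
 z))))) z))))))))))) (n 267 (n 0 z (n 0 z (n 0 z (n 0 z (n 0 z (n 0 z (n 0 z (n 0 z (n 0 z (n 0
 z (n 0 z z))))))))))) (n 99 (n 0 z (n 0 z (n 0 z (n 0 z (n 0 z (n 0 z (n 0 z (n 0 z (n 0 z (n 0
 z (n 0 z (n 0 z (n 0 z z))))))))))))) (n 99 (n 0 z (n 0 z (n 0 z (n 0 z (n 0 z (n 0 z (n 0 z (n
 0 z (n 0 z (n 0 z (n 0 z (n 0 z (n 2 (n 2 (n 0 z (n 0 z (n 0 z (n 0 z (n 0 z (n 0 z z)))))) (n
 2 (n 0 z (n 0 z (n 0 z (n 0 z (n 0 z (n 0 z z)))))) z)) z))))))))))))) (n 97 (n 0 z (n 0 z (n 0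
 z (n 0 z (n 0 z (n 0 z (n 0 z (n 0 z z)))))))) (n 97 (n 0 z (n 0 z (n 0 z (n 0 z (n 0 z (n 0 z
 (n 0 z (n 0 z z)))))))) z)))))) (n 0 (n 0 z (n 291 (n 0 z (n 0 z (n 0 z (n 0 z (n 2 (n 0 z (n 1
 z (n 1 z z))) z))))) (n 291 (n 0 z (n 0 z (n 0 z (n 0 z (n 0 z z))))) (n 289 (n 0 z (n 0 z (n 0
 z (n 0 z (n 0 z (n 0 z (n 0 z (n 0 z (n 0 z (n 0 z (n 0 z (n 0 z (n 0 z (n 0 z (n 0 z (n 0 z (n
 0 z (n 0 z (n 0 z (n 0 z (n 0 z (n 0 z (n 0 z (n 0 z (n 0 z (n 2 (n 0 z z)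
 z)))))))))))))))))))))))))) (n 289 (n 0 z (n 0 z (n 0 z (n 0 z (n 0 z (n 0 z (n 0 z (n 0 z (n 0
 z (n 0 z (n 0 z (n 0 z (n 0 z (n 0 z (n 0 z (n 0 z (n 0 z (n 0 z (n 0 z (n 0 z (n 0 z (n 0 z (n
 0 z (n 0 z (n 2 z (n 0 z z)))))))))))))))))))))))))) z))))) (n 0 (n 51 (n 0 z (n 0 z (n 0 z (n
 0 z z)))) (n 51 (n 0 z (n 0 z (n 0 z (n 2 (n 2 (n 0 z (n 0 z (n 0 z (n 0 z (n 0 z (n 0 z
 z)))))) (n 2 (n 0 z (n 0 z (n 0 z (n 0 z (n 0 z (n 0 z z)))))) z)) z)))) (n 49 (n 0 z (n 0 z (n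
 0 z (n 0 z (n 0 z (n 0 z (n 0 z (n 0 z (n 0 z (n 0 z (n 0 z (n 0 z (n 0 z (n 0 z (n 0 z (n 0 z
 (n 0 z (n 0 z z)))))))))))))))))) (n 49 (n 0 z (n 0 z (n 0 z (n 0 z (n 0 z (n 0 z (n 0 z (n 0 z
 (n 0 z (n 0 z (n 0 z (n 0 z (n 0 z (n 0 z (n 2 z (n 0 z (n 0 z (n 0 z z)))))))))))))))))) z))))
 (n 0 (n 0 z (n 1 (n 0 z (n 0 z (n 0 z (n 0 z (n 0 z (n 0 z (n 0 z (n 0 z (n 0 z (n 0 z (n 0 z
 (n 0 z (n 0 z (n 0 z (n 0 z (n 0 z (n 0 z (n 0 z (n 0 z (n 0 z (n 0 z (n 0 z (n 0 z (n 0 z (n 0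
 z (n 0 z z)))))))))))))))))))))))))) (n 1 (n 0 z (n 0 z (n 0 z (n 0 z (n 0 z (n 0 z (n 0 z (n 0
 z (n 0 z (n 0 z (n 0 z (n 0 z (n 0 z (n 0 z (n 0 z (n 0 z (n 0 z (n 0 z (n 0 z (n 0 z (n 0 z (n
 0 z (n 0 z (n 0 z (n 0 z (n 0 z z)))))))))))))))))))))))))) z))) (n 0 (n 293 (n 0 z (n 0 z (n 0
 z (n 0 z (n 0 z (n 0 z (n 2 (n 0 z z) (n 0 z (n 0 z (n 0 z (n 0 z (n 0 z (n 0 z (n 0 z (n 0 z
 (n 0 z (n 0 z (n 0 z (n 0 z (n 0 z (n 0 z (n 0 z (n 0 z z))))))))))))))))))))))) (n 293 (n 0 z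
 (n 0 z (n 0 z (n 0 z (n 0 z (n 0 z (n 0 z (n 0 z (n 0 z (n 0 z (n 0 z (n 2 z (n 0 z (n 0 z (n 0
 z (n 0 z (n 0 z (n 0 z (n 0 z (n 0 z (n 0 z (n 0 z (n 0 z z))))))))))))))))))))))) z)) (n 0 (n
 0 z z) (n 0 z z)))))))))))) (n 0 (n 1 (n 6496515 z (n 6496515 z (n 6496515 z (n 6496515 z (n
 6496515 z (n 6496515 z z)))))) (n 1 (n 6496515 z (n 6496515 z (n 6496515 z (n 6496515 z (n
 6496515 z (n 6496515 z z)))))) (n 1 (n 5445163 z (n 6627595 z (n 1228 z (n 6554395 z (n 2 z (n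
 6567195 z z)))))) z))) (n 0 (n 0xd85464da0463da5062 (n 0 (n 0 (n 7734059 z (n 7734059 z (n
 7734059 z (n 7734059 z (n 7734059 z (n 7734059 z z)))))) z) (n 0 (n 157 (n 1 (n 7680323 z (n
 7684403 z (n 7680323 z (n 7680323 z (n 7680323 z (n 7680323 z z)))))) (n 0 z (n 1 (n 3282699 z
 (n 7684403 z (n 4331275 z (n 4331275 z (n 4331275 z (n 4331275 z z)))))) (n 1 (n 4396811 z (n
 7684403 z (n 1228 z (n 5445419 z (n 1228 z (n 1228 z z)))))) z)))) (n 57 (n 1 (n 7545091 z (n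
 7545091 z (n 7545091 z (n 7545091 z (n 7545091 z (n 7545091 z z)))))) (n 1 (n 7545091 z (n
 7545091 z (n 7545091 z (n 7545091 z (n 7545091 z (n 7545091 z z)))))) (n 1 (n 7734059 z (n
 7734059 z (n 7734059 z (n 7734059 z (n 7734059 z (n 7734059 z z)))))) z))) (n 443 (n 1 (n
 7545091 z (n 4396811 z (n 4396811 z (n 4396811 z (n 4396811 z (n 4396811 z z)))))) (n 0 z (n 1
 (n 7545091 z (n 4396843 z (n 4396843 z (n 4396843 z (n 4396843 z (n 4396843 z z)))))) (n 0 z (n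
 1 (n 7545091 z (n 3020 z (n 3020 z (n 2 z (n 3020 z (n 3020 z z)))))) z))))) (n 123 (n 1 (n
 7545091 z (n 7545091 z (n 7545091 z (n 7545091 z (n 7545091 z (n 7545091 z z)))))) (n 1 (n 1276
 z (n 6559499 z (n 1276 z (n 6625067 z (n 1276 z (n 10 z z)))))) (n 1 (n 7746891 z (n 7746891 z
 (n 7746891 z (n 7681579 z (n 7746891 z (n 7746891 z z)))))) z))) (n 27 (n 1 (n 7545091 z (n
 7545091 z (n 7545091 z (n 7545091 z (n 7545091 z (n 7545091 z z)))))) (n 1 (n 7615771 z (n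
 7684403 z (n 7615771 z (n 7615771 z (n 7615771 z (n 7615771 z z)))))) (n 0 z (n 1 (n 7602971 z
 (n 7684403 z (n 1228 z (n 5445419 z (n 18 z (n 1228 z z)))))) z)))) (n 53 (n 1 (n 7684403 z (n
 7684403 z (n 7684403 z (n 7684403 z (n 7684403 z (n 7684403 z z)))))) (n 1 (n 4400907 z (n 1228
 z (n 1228 z (n 1228 z (n 7681579 z (n 1228 z z)))))) (n 1 (n 4331275 z (n 1228 z (n 1228 z (n
 1228 z (n 7734059 z (n 7681579 z z)))))) (n 1 (n 7545091 z (n 7545091 z (n 7545091 z (n 7545091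
 z (n 7545091 z (n 7545091 z z)))))) (n 0 z (n 1 (n 7545091 z (n 7545091 z (n 7545091 z (n
 7545091 z (n 7545091 z (n 7545091 z z)))))) (n 1 (n 1228 z (n 1228 z (n 1228 z (n 7734059 z (n
 1228 z (n 1228 z z)))))) (n 1 (n 7672891 z (n 7672891 z (n 7672891 z (n 7672891 z (n 7672891 z
 (n 6566515 z z)))))) z)))))))) (n 57 (n 1 (n 7545091 z (n 7545091 z (n 7545091 z (n 7545091 z
 (n 7545091 z (n 7545091 z z)))))) (n 1 (n 7545091 z (n 7545091 z (n 7545091 z (n 7545091 z (n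
 7545091 z (n 7545091 z z)))))) (n 1 (n 7734059 z (n 7676171 z (n 7734059 z (n 7602971 z (n
 7734059 z (n 7615771 z z)))))) z))) z))))))) (n 0 (n 0 (n 0 z (n 0 z (n 0 z z))) (n 0 (n 0 z (n
 0 z z)) (n 0 (n 0 z z) z))) (n 0 (n 455 (n 0 (n 0 z (n 0 z (n 0 z z))) (n 0 (n 0 z (n 0 z (n 0
 z z))) (n 0 (n 0 z (n 0 z (n 0 z z))) (n 0 (n 0 z (n 0 z (n 0 z z))) (n 0 (n 0 z (n 0 z (n 0 z
 z))) (n 0 (n 0 z (n 0 z (n 0 z z))) (n 0 (n 0 z (n 0 z (n 0 z z))) (n 0 (n 0 z (n 0 z (n 0 z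
 z))) (n 0 (n 0 z (n 0 z (n 0 z z))) (n 0 (n 0 z (n 0 z (n 0 z z))) (n 0 (n 0 z (n 0 z (n 0 z
 z))) (n 0 (n 0 z (n 0 z (n 0 z z))) (n 0 (n 0 z (n 0 z (n 0 z z))) (n 0 (n 0 z (n 0 z (n 0 z
 z))) (n 0 (n 0 z (n 0 z (n 0 z z))) (n 0 (n 0 z (n 0 z (n 0 z z))) (n 0 (n 0 z (n 0 z (n 0 z
 z))) z))))))))))))))))) (n 443 (n 0 (n 0 z (n 0 z (n 0 z z))) (n 0 (n 0 z (n 0 (n 8783691 z z)
 (n 0 z z))) (n 0 (n 0 z (n 0 z (n 0 z z))) (n 0 (n 0 z (n 0 z (n 0 z z))) (n 0 (n 0 z (n 0 z (n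
 0 z z))) z))))) (n 377 (n 0 (n 0 z (n 0 z (n 0 z z))) (n 0 (n 0 z (n 0 z (n 0 z z))) (n 0 (n 0
 z (n 0 z (n 0 z z))) (n 0 (n 0 z (n 0 z (n 0 z z))) (n 0 (n 0 z (n 0 z (n 0 z z))) (n 0 (n 0 z
 (n 0 z (n 0 z z))) (n 0 (n 0 z (n 0 z (n 0 z z))) z))))))) (n 159 (n 0 (n 0 z (n 0 z (n 0 z
 z))) (n 0 (n 0 z (n 0 (n 8855571 z z) (n 0 z z))) (n 0 (n 0 z (n 0 z (n 0 z z))) (n 0 (n 0 z (n
 0 z (n 0 z z))) z)))) (n 33 (n 0 (n 0 z (n 0 z (n 0 z z))) (n 0 (n 0 z (n 0 z (n 0 z z))) (n 0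
 (n 0 z (n 0 z (n 0 z z))) (n 0 (n 0 z (n 0 z (n 0 z z))) (n 0 (n 0 z (n 0 z (n 0 z z))) z)))))
 (n 135 (n 0 (n 0 z (n 0 (n 8795467 z z) (n 0 z z))) (n 0 (n 0 z (n 0 z (n 0 z z))) (n 0 (n 0 z
 (n 0 z (n 0 z z))) (n 0 (n 0 z (n 0 z (n 0 z z))) (n 0 (n 0 z (n 0 z (n 0 z z))) (n 0 (n 0 z (n
 0 z (n 0 z z))) (n 0 (n 0 z (n 0 z (n 0 z z))) (n 0 (n 0 z (n 0 z (n 0 z z))) (n 0 (n 0 z (n 0
 z (n 0 z z))) (n 0 (n 0 z (n 0 z (n 0 z z))) (n 0 (n 0 z (n 0 z (n 0 z z))) z))))))))))) (n 153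
 (n 0 (n 0 z (n 0 z (n 0 z z))) (n 0 (n 0 z (n 0 z (n 0 z z))) (n 0 (n 0 z (n 0 z (n 0 z z))) (n
 0 (n 0 z (n 0 z (n 0 z z))) (n 0 (n 0 z (n 0 z (n 0 z z))) z))))) (n 57 (n 0 (n 0 z (n 0 z (n 0
 z z))) (n 0 (n 0 z (n 0 z (n 0 z z))) (n 0 (n 0 z (n 0 z (n 0 z z))) (n 0 (n 0 z (n 0 z (n 0 z
 z))) (n 0 (n 0 z (n 0 z (n 0 z z))) (n 0 (n 0 z (n 0 z (n 0 z z))) (n 0 (n 0 z (n 0 z (n 0 z
 z))) (n 0 (n 0 z (n 0 z (n 0 z z))) z)))))))) (n 51 (n 0 (n 0 z (n 0 z (n 0 z z))) (n 0 (n 0 z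
 (n 0 z (n 0 z z))) (n 0 (n 0 z (n 0 z (n 0 z z))) (n 0 (n 0 z (n 0 z (n 0 z z))) (n 0 (n 0 z (n
 0 (n 8593667 z z) (n 0 z z))) (n 0 (n 0 z (n 0 z (n 0 z z))) (n 0 (n 0 z (n 0 z (n 0 z z))) (n
 0 (n 0 z (n 0 z (n 0 z z))) (n 0 (n 0 z (n 0 z (n 0 z z))) (n 0 (n 0 z (n 0 z (n 0 z z))) (n 0
 (n 0 z (n 0 z (n 0 z z))) (n 0 (n 0 z (n 0 z (n 0 z z))) (n 0 (n 0 z (n 0 z (n 0 z z)))
 z))))))))))))) (n 27 (n 0 (n 0 z (n 0 z (n 0 z z))) (n 0 (n 0 z (n 0 z (n 0 z z))) (n 0 (n 0 z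
 (n 0 (n 8593667 z (n 8593667 z z)) (n 0 z z))) (n 0 (n 0 z (n 0 z (n 0 z z))) z)))) (n 153 (n 0
 (n 0 z (n 0 z (n 0 z z))) (n 0 (n 0 z (n 0 z (n 0 z z))) (n 0 (n 0 z (n 0 z (n 0 z z))) (n 0 (n
 0 z (n 0 z (n 0 z z))) (n 0 (n 0 z (n 0 z (n 0 z z))) (n 0 (n 0 z (n 0 z (n 0 z z))) (n 0 (n 0
 z (n 0 z (n 0 z z))) (n 0 (n 0 z (n 0 z (n 0 z z))) (n 0 (n 0 z (n 0 z (n 0 z z))) (n 0 (n 0 z
 (n 0 z (n 0 z z))) (n 0 (n 0 z (n 0 z (n 0 z z))) (n 0 (n 0 z (n 0 z (n 0 z z))) (n 0 (n 0 z (n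
 0 z (n 0 z z))) (n 0 (n 0 z (n 0 z (n 0 z z))) (n 0 (n 0 z (n 0 z (n 0 z z))) z)))))))))))))))
 (n 59 (n 0 (n 0 z (n 0 z (n 0 z z))) (n 0 (n 0 z (n 0 z (n 0 z z))) (n 0 (n 0 z (n 0 z (n 0 z
 z))) (n 0 (n 0 z (n 0 z (n 0 z z))) (n 0 (n 0 z (n 0 z (n 0 z z))) (n 0 (n 0 z (n 0 z (n 0 z
 z))) (n 0 (n 0 z (n 0 z (n 0 z z))) (n 0 (n 0 z (n 0 z (n 0 z z))) (n 0 (n 0 z (n 0 z (n 0 z
 z))) z))))))))) (n 53 (n 0 (n 0 z (n 0 z (n 0 z z))) (n 0 (n 0 z (n 0 z (n 0 z z))) (n 0 (n 0 z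
 (n 0 z (n 0 z z))) (n 0 (n 0 z (n 0 z (n 0 z z))) (n 0 (n 0 z (n 0 z (n 0 z z))) (n 0 (n 0 z (n
 0 z (n 0 z z))) (n 0 (n 0 z (n 0 z (n 0 z z))) (n 0 (n 0 z (n 0 z (n 0 z z))) z)))))))) (n 29
 (n 0 (n 0 z (n 0 z (n 0 z z))) (n 0 (n 0 z (n 0 z (n 0 z z))) (n 0 (n 0 z (n 0 z (n 0 z z))) (n
 0 (n 0 z (n 0 z (n 0 z z))) (n 0 (n 0 z (n 0 z (n 0 z z))) (n 0 (n 0 z (n 0 z (n 0 z z))) (n 0
 (n 0 z (n 0 z (n 0 z z))) (n 0 (n 0 z (n 0 z (n 0 z z))) (n 0 (n 0 z (n 0 z (n 0 z z))) (n 0 (n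
 0 z (n 0 z (n 0 z z))) (n 0 (n 0 z (n 0 z (n 0 z z))) (n 0 (n 0 z (n 0 z (n 0 z z))) (n 0 (n 0
 z (n 0 z (n 0 z z))) (n 0 (n 0 z (n 0 z (n 0 z z))) (n 0 (n 0 z (n 0 z (n 0 z z))) (n 0 (n 0 z
 (n 0 z (n 0 z z))) (n 0 (n 0 z (n 0 z (n 0 z z))) (n 0 (n 0 z (n 0 z (n 0 z z)))
 z)))))))))))))))))) (n 1 (n 0 (n 0 z (n 0 z (n 0 z z))) (n 0 (n 0 z (n 0 z (n 0 z z))) (n 0 (n
 0 z (n 0 z (n 0 z z))) (n 0 (n 0 z (n 0 z (n 0 z z))) (n 0 (n 0 z (n 0 z (n 0 z z))) (n 0 (n 0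
 z (n 0 z (n 0 z z))) (n 0 (n 0 z (n 0 z (n 0 z z))) (n 0 (n 0 z (n 0 z (n 0 z z))) (n 0 (n 0 z
 (n 0 z (n 0 z z))) (n 0 (n 0 z (n 0 z (n 0 z z))) (n 0 (n 0 z (n 0 z (n 0 z z))) (n 0 (n 0 z (n
 0 z (n 0 z z))) (n 0 (n 0 z (n 0 z (n 0 z z))) (n 0 (n 0 z (n 0 z (n 0 z z))) (n 0 (n 0 z (n 0
 z (n 0 z z))) (n 0 (n 0 z (n 0 z (n 0 z z))) (n 0 (n 0 z (n 0 z (n 0 z z))) (n 0 (n 0 z (n 0 z
 (n 0 z z))) (n 0 (n 0 z (n 0 z (n 0 z z))) (n 0 (n 0 z (n 0 z (n 0 z z))) (n 0 (n 0 z (n 0 z (n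
 0 z z))) (n 0 (n 0 z (n 0 z (n 0 z z))) (n 0 (n 0 z (n 0 z (n 0 z z))) (n 0 (n 0 z (n 0 z (n 0
 z z))) (n 0 (n 0 z (n 0 z (n 0 z z))) (n 0 (n 0 z (n 0 z (n 0 z z)))
 z)))))))))))))))))))))))))) (n 153 (n 0 (n 0 z (n 0 z (n 0 z z))) (n 0 (n 0 z (n 0 z (n 0 z
 z))) (n 0 (n 0 z (n 0 z (n 0 z z))) (n 0 (n 0 z (n 0 z (n 0 z z))) (n 0 (n 0 z (n 0 z (n 0 z
 z))) (n 0 (n 0 z (n 0 z (n 0 z z))) (n 0 (n 0 z (n 0 z (n 0 z z))) (n 0 (n 0 z (n 0 z (n 0 z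
 z))) (n 0 (n 0 z (n 0 z (n 0 z z))) (n 0 (n 0 z (n 0 z (n 0 z z))) z)))))))))) (n 57 (n 0 (n 0
 z (n 0 z (n 0 z z))) (n 0 (n 0 z (n 0 z (n 0 z z))) (n 0 (n 0 z (n 0 z (n 0 z z))) z))) (n 51
 (n 0 (n 0 z (n 0 z (n 0 z z))) (n 0 (n 0 z (n 0 z (n 0 z z))) (n 0 (n 0 z (n 0 z (n 0 z z))) (n
 0 (n 0 z (n 0 z (n 0 z z))) (n 0 (n 0 z (n 0 z (n 0 z z))) z))))) (n 123 (n 0 (n 0 z (n 0 z (n
 0 z z))) (n 0 (n 0 z (n 0 z (n 0 z z))) (n 0 (n 0 z (n 0 z (n 0 z z))) z))) (n 1 (n 0 (n 0 z (n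
 0 z (n 0 z z))) (n 0 (n 0 z (n 0 z (n 0 z z))) (n 0 (n 0 z (n 0 z (n 0 z z))) (n 0 (n 0 z (n 0
 z (n 0 z z))) (n 0 (n 0 z (n 0 z (n 0 z z))) (n 0 (n 0 z (n 0 z (n 0 z z))) (n 0 (n 0 z (n 0 z
 (n 0 z z))) (n 0 (n 0 z (n 0 z (n 0 z z))) z)))))))) (n 0 (n 0 (n 0 z (n 0 z (n 0 z z))) (n 0
 (n 0 z (n 0 z (n 0 z z))) (n 0 (n 0 z (n 0 z (n 0 z z))) (n 0 (n 0 z (n 0 z (n 0 z z))) (n 0 (n
 0 z (n 0 z (n 0 z z))) (n 0 (n 0 z (n 0 z (n 0 z z))) (n 0 (n 0 z (n 0 z (n 0 z z))) (n 0 (n 0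
 z (n 0 z (n 0 z z))) (n 0 (n 0 z (n 0 z (n 0 z z))) (n 0 (n 0 z (n 0 z (n 0 z z))) (n 0 (n 0 z
 (n 0 z (n 0 z z))) (n 0 (n 0 z (n 0 z (n 0 z z))) (n 0 (n 0 z (n 0 z (n 0 z z))) (n 0 (n 0 z (n
 0 z (n 0 z z))) (n 0 (n 0 z (n 0 z (n 0 z z))) (n 0 (n 0 z (n 0 z (n 0 z z))) (n 0 (n 0 z (n 0
 z (n 0 z z))) (n 0 (n 0 z (n 0 z (n 0 z z))) z)))))))))))))))))) z))))))))))))))))))))) z))))
 z) z)))) (n 0xd4c74692bb85664c24ae6c256f682b5a5062da40ced25034da814c840 (n 0x3692b (n 153 (n 0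
 z (n 2 z (n 0 z (n 0 z (n 3282443 z (n 10 z (n 18 z z))))))) (n 57 (n 6496515 z (n 6496515 z (n
 26 z z))) (n 51 (n 0 z (n 0 z (n 34 z (n 6496515 z (n 42 z z))))) (n 123 (n 0 z (n 6496515 z (n
 0 z (n 0 z (n 50 z z))))) (n 1 (n 0 z (n 6635827 z (n 0 z (n 0 z (n 0 z (n 0 z (n 58 z (n 66 z
 z)))))))) (n 0 (n 0 z (n 6635827 z (n 0 z (n 0 z (n 0 z (n 0 z (n 0 z (n 0 z (n 0 z (n 0 z (n 0
 z (n 0 z (n 0 z (n 74 z (n 0 z (n 0 z (n 82 z (n 0 z (n 6624315 z z))))))))))))))))))) z))))))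
 (n 57 (n 0 (n 0 z (n 0 z (n 995 (n 0 z (n 0 z (n 0 z (n 0 z (n 0 z (n 0 z (n 0 z (n 0 z (n 0 z
 (n 0 z (n 0 z (n 0 z (n 0 z (n 0 z (n 0 z (n 0 z (n 0 z z))))))))))))))))) (n 151 (n 0 z (n 0 z
 (n 0 z (n 7741459 z (n 0 z z))))) (n 151 (n 0 z (n 0 z (n 0 z (n 0 z (n 0 z z))))) (n 27 (n 0 z
 (n 0 z (n 0 z (n 0 z (n 0 z (n 0 z (n 0 z z))))))) (n 243 (n 0 z (n 0 z (n 0 z (n 0 z z)))) (n
 243 (n 0 z (n 0 z (n 0 z (n 0 z z)))) (n 25 (n 0 z (n 0 z (n 7734059 z (n 0 z (n 0 z (n 0 z (n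
 0 z (n 0 z (n 0 z (n 0 z (n 0 z (n 0 z (n 0 z z))))))))))))) (n 25 (n 0 z (n 0 z (n 0 z (n 0 z
 (n 0 z (n 0 z (n 0 z (n 0 z (n 0 z (n 0 z (n 0 z (n 0 z (n 0 z z))))))))))))) z)))))))))) (n 0
 (n 0 z (n 909 (n 0 z (n 0 z (n 0 z (n 0 z (n 0 z (n 0 z (n 0 z (n 0 z (n 0 z (n 0 z (n 0 z
 z))))))))))) (n 1125 (n 0 z (n 0 z (n 2 (n 0 z (n 2 (n 0 z (n 0 z (n 0 z (n 0 z (n 0 z (n 0 z
 z)))))) (n 2 (n 0 z (n 0 z (n 0 z (n 0 z (n 0 z (n 0 z z)))))) (n 2 (n 0 z (n 0 z (n 0 z (n 0 z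
 (n 0 z (n 0 z z)))))) (n 2 (n 0 z (n 0 z (n 0 z (n 0 z (n 0 z (n 0 z z)))))) (n 2 (n 0 z (n 0 z
 (n 0 z (n 0 z (n 0 z (n 0 z z)))))) z)))))) (n 0 z (n 0 z (n 0 z (n 0 z (n 0 z z)))))))) (n
 1125 (n 0 z (n 0 z (n 0 z (n 0 z (n 0 z (n 0 z (n 0 z (n 0 z z)))))))) (n 321 (n 0 z (n 0 z (n
 0 z (n 0 z z)))) (n 309 (n 0 z (n 0 z (n 0 z z))) (n 309 (n 0 z (n 0 z (n 2 (n 2 (n 0 z (n 0 z
 (n 0 z (n 0 z (n 0 z (n 0 z z)))))) (n 2 (n 0 z (n 0 z (n 0 z (n 0 z (n 0 z (n 0 z z)))))) z))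
 z))) (n 305 (n 0 z (n 0 z (n 0 z (n 0 z (n 0 z z))))) (n 305 (n 0 z (n 0 z (n 0 z (n 0 z (n 0 z
 z))))) z))))))))) (n 0 (n 909 (n 0 z (n 0 z (n 0 z (n 0 z (n 0 z (n 0 z (n 0 z (n 0 z (n 0 z (n
 0 z (n 0 z (n 0 z z)))))))))))) (n 885 (n 0 z (n 0 z (n 0 z (n 0 z (n 0 z (n 0 z (n 2 (n 0 z (n
 2 (n 0 z (n 0 z (n 0 z (n 0 z (n 0 z (n 0 z z)))))) (n 2 (n 0 z (n 0 z (n 0 z (n 0 z (n 0 z (n
 0 z z)))))) (n 2 (n 0 z (n 0 z (n 0 z (n 0 z (n 0 z (n 0 z z)))))) (n 2 (n 0 z (n 0 z (n 0 z (n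
 0 z (n 0 z (n 0 z z)))))) (n 2 (n 0 z (n 0 z (n 0 z (n 0 z (n 0 z (n 0 z z)))))) z)))))) (n 0 z
 z)))))))) (n 885 (n 0 z (n 0 z (n 0 z (n 0 z (n 0 z (n 0 z (n 0 z (n 0 z z)))))))) (n 315 (n 0
 z (n 0 z (n 0 z z))) (n 303 (n 0 z (n 0 z (n 0 z z))) (n 303 (n 0 z (n 0 z (n 0 z z))) (n 305
 (n 0 z (n 0 z (n 0 z (n 0 z (n 0 z (n 0 z (n 0 z (n 0 z (n 0 z (n 0 z (n 0 z (n 0 z (n 0 z (n 0
 z (n 0 z (n 0 z (n 0 z z))))))))))))))))) (n 305 (n 0 z (n 0 z (n 0 z (n 0 z (n 0 z (n 0 z (n 0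
 z (n 0 z (n 0 z (n 0 z (n 0 z (n 0 z (n 0 z (n 0 z (n 0 z (n 0 z (n 0 z z)))))))))))))))))
 z)))))))) (n 0 (n 753 (n 0 z (n 0 z (n 0 z (n 0 z (n 0 z (n 0 z (n 2 (n 0 z (n 2 (n 0 z (n 0 z
 (n 0 z (n 0 z (n 0 z (n 0 z z)))))) (n 1 z (n 2 (n 0 z (n 0 z (n 0 z (n 0 z (n 0 z (n 0 z
 z)))))) (n 1 z (n 2 (n 0 z (n 0 z (n 0 z (n 0 z (n 0 z (n 0 z z)))))) z)))))) z))))))) (n 753
 (n 0 z (n 0 z (n 0 z (n 0 z (n 0 z (n 0 z (n 0 z z))))))) (n 55 (n 0 z (n 0 z (n 0 z (n 0 z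
 z)))) (n 111 (n 0 z (n 0 z (n 0 z (n 0 z (n 0 z (n 0 z (n 0 z z))))))) (n 111 (n 0 z (n 0 z (n
 0 z (n 0 z (n 0 z (n 0 z (n 2 (n 1 z (n 2 (n 0 z (n 0 z (n 0 z (n 0 z (n 0 z (n 0 z z)))))) z))
 z))))))) (n 109 (n 0 z (n 0 z (n 0 z (n 0 z (n 0 z (n 0 z (n 0 z (n 0 z (n 0 z z))))))))) (n
 109 (n 0 z (n 0 z (n 0 z (n 0 z (n 0 z (n 0 z (n 2 z (n 0 z (n 0 z z))))))))) z))))))) (n 0 (n
 0 z (n 247 (n 0 z (n 0 z (n 0 z (n 2 (n 2 (n 0 z (n 0 z (n 0 z (n 0 z (n 0 z (n 0 z z)))))) (n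
 2 (n 0 z (n 0 z (n 0 z (n 0 z (n 0 z (n 0 z z)))))) (n 2 (n 0 z (n 0 z (n 0 z (n 0 z (n 0 z (n
 0 z z)))))) (n 2 (n 0 z (n 0 z (n 0 z (n 0 z (n 0 z (n 0 z z)))))) z)))) z)))) (n 15 (n 0 z (n
 0 z (n 0 z (n 0 z (n 0 z (n 0 z (n 2 (n 0 z (n 1 z (n 2 (n 0 z (n 0 z (n 0 z (n 0 z (n 0 z (n 0
 z z)))))) z))) z))))))) (n 15 (n 0 z (n 0 z (n 0 z (n 0 z (n 0 z (n 0 z (n 0 z z))))))) (n 13
 (n 0 z (n 0 z (n 0 z (n 0 z (n 0 z (n 0 z (n 0 z (n 0 z (n 0 z (n 0 z (n 0 z (n 0 z (n 2 (n 0 z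
 z) z))))))))))))) (n 13 (n 0 z (n 0 z (n 0 z (n 0 z (n 0 z (n 0 z (n 0 z (n 0 z (n 0 z (n 0 z
 (n 0 z (n 2 z (n 0 z z))))))))))))) z)))))) (n 0 (n 267 (n 0 z (n 0 z (n 0 z (n 0 z (n 0 z (n 0
 z (n 0 z z))))))) (n 99 (n 0 z (n 0 z (n 0 z (n 0 z (n 0 z (n 0 z (n 0 z (n 0 z z)))))))) (n 99
 (n 0 z (n 0 z (n 0 z (n 0 z (n 0 z (n 0 z (n 0 z (n 2 (n 2 (n 0 z (n 0 z (n 0 z (n 0 z (n 0 z
 (n 0 z z)))))) (n 2 (n 0 z (n 0 z (n 0 z (n 0 z (n 0 z (n 0 z z)))))) z)) z)))))))) (n 97 (n 0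
 z (n 0 z (n 0 z (n 0 z (n 0 z (n 0 z (n 0 z (n 0 z (n 0 z z))))))))) (n 97 (n 0 z (n 0 z (n 0 z
 (n 0 z (n 0 z (n 0 z (n 0 z (n 0 z (n 0 z z))))))))) z))))) (n 0 (n 51 (n 0 z (n 0 z (n 0 z (n
 0 z (n 0 z z))))) (n 51 (n 0 z (n 0 z (n 0 z (n 0 z (n 2 (n 2 (n 0 z (n 0 z (n 0 z (n 0 z (n 0
 z (n 0 z z)))))) (n 2 (n 0 z (n 0 z (n 0 z (n 0 z (n 0 z (n 0 z z)))))) z)) z))))) (n 49 (n 0 z
 (n 0 z (n 0 z (n 0 z (n 0 z (n 0 z (n 0 z (n 0 z (n 0 z (n 0 z (n 0 z (n 0 z (n 0 z (n 0 z (n 0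
 z (n 0 z (n 0 z (n 0 z (n 0 z (n 0 z (n 0 z (n 0 z (n 0 z (n 0 z (n 0 z (n 0 z (n 0 z (n 0 z
 z)))))))))))))))))))))))))))) (n 49 (n 0 z (n 0 z (n 0 z (n 0 z (n 0 z (n 0 z (n 0 z (n 0 z (n
 0 z (n 0 z (n 0 z (n 0 z (n 0 z (n 0 z (n 0 z (n 0 z (n 0 z (n 0 z (n 0 z (n 0 z (n 0 z (n 0 z
 (n 0 z (n 2 z (n 0 z (n 0 z (n 0 z (n 0 z z)))))))))))))))))))))))))))) z)))) (n 0 (n 0 z (n 1
 (n 0 z (n 0 z (n 0 z (n 0 z (n 0 z (n 0 z (n 0 z (n 0 z (n 0 z (n 0 z (n 0 z (n 0 z (n 0 z (n 0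
 z (n 0 z (n 0 z (n 0 z (n 0 z z)))))))))))))))))) (n 1 (n 0 z (n 0 z (n 0 z (n 0 z (n 0 z (n 0
 z (n 0 z (n 0 z (n 0 z (n 0 z (n 0 z (n 0 z (n 0 z (n 0 z (n 0 z (n 0 z (n 0 z (n 0 z
 z)))))))))))))))))) z))) (n 0 (n 293 (n 0 z (n 0 z (n 0 z (n 0 z (n 0 z (n 2 (n 0 z z) (n 0 z
 (n 0 z (n 0 z (n 0 z (n 0 z (n 0 z (n 0 z (n 0 z (n 0 z (n 0 z (n 0 z (n 0 z
 z)))))))))))))))))) (n 293 (n 0 z (n 0 z (n 0 z (n 0 z (n 0 z (n 0 z (n 2 z (n 0 z (n 0 z (n 0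
 z (n 0 z (n 0 z (n 0 z (n 0 z (n 0 z (n 0 z (n 0 z (n 0 z z)))))))))))))))))) z)) (n 0 (n 0 z
 z) (n 0 z z))))))))))) (n 0 (n 1 (n 6496515 z (n 6496515 z (n 6496515 z (n 6496515 z (n 6496515
 z (n 6496515 z z)))))) (n 1 (n 6496515 z (n 6496515 z (n 6496515 z (n 6496515 z (n 6496515 z (n
 6496515 z z)))))) (n 1 (n 5445163 z (n 1228 z (n 6627595 z (n 6554395 z (n 2 z (n 6567195 z
 z)))))) z))) (n 0 (n 0xda5062 (n 0 (n 0 (n 7734059 z (n 7734059 z (n 7734059 z (n 7734059 z (n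
 7734059 z (n 7734059 z z)))))) z) (n 0 (n 157 (n 1 (n 7680323 z (n 7680323 z (n 7684403 z (n
 7680323 z (n 7680323 z (n 7680323 z z)))))) (n 1 (n 3282699 z (n 4331275 z (n 7684403 z (n
 4331275 z (n 4331275 z (n 4331275 z z)))))) (n 1 (n 4396811 z (n 1228 z (n 7684403 z (n 5445419
 z (n 1228 z (n 1228 z z)))))) z))) (n 57 (n 1 (n 7545091 z (n 7545091 z (n 7545091 z (n 7545091
 z (n 7545091 z (n 7545091 z z)))))) (n 1 (n 7545091 z (n 7545091 z (n 7545091 z (n 7545091 z (n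
 7545091 z (n 7545091 z z)))))) (n 1 (n 7734059 z (n 7734059 z (n 7734059 z (n 7734059 z (n
 7734059 z (n 7734059 z z)))))) z))) (n 51 (n 0 z (n 0 z (n 1 (n 3548 z (n 3548 z (n 6559499 z
 (n 6625067 z (n 3548 z (n 2 z z)))))) (n 1 (n 7545091 z (n 7545091 z (n 7545091 z (n 7545091 z
 (n 7545091 z (n 7545091 z z)))))) (n 1 (n 7746891 z (n 7746891 z (n 7746891 z (n 6633259 z (n
 7746891 z (n 7746891 z z)))))) z))))) (n 159 (n 1 (n 7545091 z (n 7680323 z (n 7680323 z (n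
 7680323 z (n 7680323 z (n 7680323 z z)))))) (n 1 (n 7545091 z (n 4331275 z (n 4331275 z (n
 4331275 z (n 4331275 z (n 4331275 z z)))))) (n 1 (n 7545091 z (n 268 z (n 268 z (n 988 z (n 268
 z (n 268 z z)))))) z))) (n 153 (n 1 (n 7545091 z (n 7684403 z (n 7684403 z (n 7684403 z (n
 7684403 z (n 7684403 z z)))))) (n 1 (n 7545091 z (n 3282699 z (n 3282699 z (n 3282699 z (n
 3282699 z (n 3282699 z z)))))) (n 0 z z))) (n 59 (n 1 (n 7545091 z (n 7545091 z (n 7545091 z (n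
 7545091 z (n 7545091 z (n 7545091 z z)))))) (n 1 (n 7545091 z (n 7545091 z (n 7545091 z (n
 7545091 z (n 7545091 z (n 7545091 z z)))))) (n 1 (n 7684403 z (n 7684403 z (n 7684403 z (n
 7684403 z (n 7684403 z (n 7684403 z z)))))) (n 0 z (n 0 z (n 1 (n 6493963 z (n 1228 z (n
 7676171 z (n 1228 z (n 428 z (n 1228 z z)))))) (n 1 (n 6428427 z (n 1228 z (n 7676171 z (n 1228
 z (n 7602971 z (n 1228 z z)))))) (n 1 (n 6493995 z (n 1228 z (n 1228 z (n 7602971 z (n 7676171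
 z (n 1228 z z)))))) (n 1 (n 7672891 z (n 7672891 z (n 7672891 z (n 7672891 z (n 7676171 z (n
 6566259 z z)))))) z))))))))) (n 57 (n 1 (n 7545091 z (n 7545091 z (n 7545091 z (n 7545091 z (n
 7545091 z (n 7545091 z z)))))) (n 1 (n 7545091 z (n 7545091 z (n 7545091 z (n 7545091 z (n
 7545091 z (n 7545091 z z)))))) (n 1 (n 7734059 z (n 7734059 z (n 7676171 z (n 7602971 z (n
 7734059 z (n 7615771 z z)))))) z))) z))))))) (n 0 (n 0 (n 0 z z) z) (n 0 (n 455 (n 0 (n 0 z z)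
 (n 0 (n 0 z z) (n 0 (n 0 z z) (n 0 (n 0 z z) (n 0 (n 0 z z) (n 0 (n 0 z z) (n 0 (n 0 z z) (n 0
 (n 0 z z) (n 0 (n 0 z z) (n 0 (n 0 z z) (n 0 (n 0 z z) (n 0 (n 0 z z) z)))))))))))) (n 443 (n 0
 (n 0 z z) (n 0 (n 0 z z) (n 0 (n 0 z z) (n 0 (n 0 z z) (n 0 (n 0 z z) (n 0 (n 0 z z) (n 0 (n 0
 z z) (n 0 (n 0 z z) z)))))))) (n 377 (n 0 (n 0 z z) (n 0 (n 0 z z) (n 0 (n 0 z z) (n 0 (n 0 z
 z) (n 0 (n 0 z z) (n 0 (n 0 z z) (n 0 (n 0 z z) z))))))) (n 159 (n 0 (n 0 z z) (n 0 (n 0 z z)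
 (n 0 (n 0 z z) z))) (n 33 (n 0 (n 0 z z) (n 0 (n 0 z z) (n 0 (n 0 z z) (n 0 (n 0 z z) z)))) (n
 135 (n 0 (n 0 z z) (n 0 (n 0 z z) (n 0 (n 0 z z) (n 0 (n 0 z z) (n 0 (n 0 z z) (n 0 (n 0 z z)
 (n 0 (n 0 z z) z))))))) (n 153 (n 0 (n 0 z z) (n 0 (n 0 z z) (n 0 (n 0 z z) z))) (n 57 (n 0 (n
 0 z z) (n 0 (n 0 z z) (n 0 (n 0 z z) (n 0 (n 0 z z) (n 0 (n 0 z z) (n 0 (n 0 z z) (n 0 (n 0 z
 z) z))))))) (n 51 (n 0 (n 0 z z) (n 0 (n 0 z z) (n 0 (n 0 z z) (n 0 (n 0 z z) (n 0 (n 0 z z) (n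
 0 (n 0 z z) (n 0 (n 0 z z) (n 0 (n 0 z z) z)))))))) (n 27 (n 0 (n 0 z z) (n 0 (n 0 z z) (n 0 (n
 0 z z) (n 0 (n 0 z z) (n 0 (n 0 z z) z))))) (n 153 (n 0 (n 0 z z) (n 0 (n 0 z z) (n 0 (n 0 z z)
 (n 0 (n 0 z z) (n 0 (n 0 z z) (n 0 (n 0 z z) (n 0 (n 0 z z) (n 0 (n 0 z z) (n 0 (n 0 z z) (n 0
 (n 0 z z) (n 0 (n 0 z z) (n 0 (n 0 z z) (n 0 (n 0 z z) (n 0 (n 0 z z) (n 0 (n 0 z z) (n 0 (n 0
 z z) (n 0 (n 0 z z) z))))))))))))))))) (n 59 (n 0 (n 0 z z) (n 0 (n 0 z z) (n 0 (n 0 z z) (n 0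
 (n 0 z z) (n 0 (n 0 z z) (n 0 (n 0 z z) (n 0 (n 0 z z) (n 0 (n 0 z z) (n 0 (n 0 z z) z)))))))))
 (n 53 (n 0 (n 0 z z) (n 0 (n 0 z z) (n 0 (n 0 z z) (n 0 (n 0 z z) (n 0 (n 0 z z) (n 0 (n 0 z z)
 (n 0 (n 0 z z) (n 0 (n 0 z z) (n 0 (n 0 z z) z))))))))) (n 29 (n 0 (n 0 z z) (n 0 (n 0 z z) (n
 0 (n 0 z z) (n 0 (n 0 z z) (n 0 (n 0 z z) (n 0 (n 0 z z) (n 0 (n 0 z z) (n 0 (n 0 z z) (n 0 (n
 0 z z) (n 0 (n 0 z z) (n 0 (n 0 z z) (n 0 (n 0 z z) (n 0 (n 0 z z) (n 0 (n 0 z z) (n 0 (n 0 z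
 z) (n 0 (n 0 z z) (n 0 (n 0 z z) (n 0 (n 0 z z) (n 0 (n 0 z z) (n 0 (n 0 z z) (n 0 (n 0 z z) (n
 0 (n 0 z z) (n 0 (n 0 z z) (n 0 (n 0 z z) (n 0 (n 0 z z) (n 0 (n 0 z z) (n 0 (n 0 z z) (n 0 (n
 0 z z) z)))))))))))))))))))))))))))) (n 1 (n 0 (n 0 z z) (n 0 (n 0 z z) (n 0 (n 0 z z) (n 0 (n
 0 z z) (n 0 (n 0 z z) (n 0 (n 0 z z) (n 0 (n 0 z z) (n 0 (n 0 z z) (n 0 (n 0 z z) (n 0 (n 0 z
 z) (n 0 (n 0 z z) (n 0 (n 0 z z) (n 0 (n 0 z z) (n 0 (n 0 z z) (n 0 (n 0 z z) (n 0 (n 0 z z) (n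
 0 (n 0 z z) (n 0 (n 0 z z) z)))))))))))))))))) (n 153 (n 0 (n 0 z z) (n 0 (n 0 z z) (n 0 (n 0 z
 z) (n 0 (n 0 z z) (n 0 (n 0 z z) (n 0 (n 0 z z) (n 0 (n 0 z z) z))))))) (n 57 (n 0 (n 0 z z) (n
 0 (n 0 z z) (n 0 (n 0 z z) z))) (n 51 (n 0 (n 0 z z) (n 0 (n 0 z z) (n 0 (n 0 z z) (n 0 (n 0 z
 z) (n 0 (n 0 z z) z))))) (n 123 (n 0 (n 0 z z) (n 0 (n 0 z z) (n 0 (n 0 z z) (n 0 (n 0 z z) (n
 0 (n 0 z z) z))))) (n 1 (n 0 (n 0 z z) (n 0 (n 0 z z) (n 0 (n 0 z z) (n 0 (n 0 z z) (n 0 (n 0 z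
 z) (n 0 (n 0 z z) (n 0 (n 0 z z) (n 0 (n 0 z z) z)))))))) (n 0 (n 0 (n 0 z z) (n 0 (n 0 z z) (n
 0 (n 0 z z) (n 0 (n 0 z z) (n 0 (n 0 z z) (n 0 (n 0 z z) (n 0 (n 0 z z) (n 0 (n 0 z z) (n 0 (n
 0 z z) (n 0 (n 0 z z) (n 0 (n 0 z z) (n 0 (n 0 z z) (n 0 (n 0 z z) (n 0 (n 0 z z) (n 0 (n 0 z
 z) (n 0 (n 0 z z) (n 0 (n 0 z z) (n 0 (n 0 z z) (n 0 (n 0 z z) z)))))))))))))))))))
 z))))))))))))))))))))) z)))) z) z)))) (n 0x6d25a2990d60c864c2b2dd1216e910a9a504ba6025c3700e9900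
 (n 0x1d321 (n 303 (n 2 z (n
 0x2ca8a8620779d81d92276182285e7de81e7618a17e18da9619228a475c71f8226228a071d82281e7e27de0801 z
 (n 10 z (n
 0x2ca8a8620779b81d96276082295c81d81d85f8e17e189e91f9637a47a06dc8635e276271d8218dd86379e0801 z
 (n 0 z (n 6565923 z (n 6565923 z (n 6554411 z (n 6554411 z (n 0 z (n 0 z z))))))))))) (n 411 (n
 18 z (n
 0x365152040384ca8ca800381d8608207a086086081f75f7a07e176089f7e28637e08207207a48227a179e82085d8218201001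
 z (n 26 z (n
 0x4ca8ca80037a38618207e18217a17a18207a17e07e081f81e81f8208207e47e37a191f8a08207a17e07e00801 z
 (n 0 z (n 0 z (n 6562131 z (n 6562131 z z)))))))) (n 9 (n 34 z (n 0 z (n 0 z (n 6561843 z z))))
 (n 3 (n 42 z (n 6565923 z (n 50 z z))) (n 1 (n 58 z (n 0 z (n 6565923 z (n 0 z (n 6562131 z
 z))))) (n 0 (n 0 z (n 66 z (n 0 z (n 0 z (n 0 z (n 6632491 z (n 74 z z))))))) z)))))) (n 3 (n 0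
 (n 0 z (n 739 (n 0 z (n 0 z (n 0 z (n 0 z (n 0 z (n 0 z (n 0 z z))))))) (n 739 (n 0 z (n 2 (n 2
 (n 0 z (n 0 z (n 0 z (n 0 z (n 0 z (n 0 z z)))))) (n 1 z (n 2 (n 0 z (n 0 z (n 0 z (n 0 z (n 0
 z (n 0 z z)))))) (n 1 z (n 2 (n 0 z (n 0 z (n 0 z (n 0 z (n 0 z (n 0 z z)))))) (n 1 z z))))))
 (n 0 z (n 0 z (n 0 z (n 0 z (n 0 z z))))))) (n 135 (n 0 z (n 0 z (n 0 z (n 0 z (n 0 z (n 0 z (n
 0 z (n 0 z (n 0 z (n 0 z (n 0 z (n 0 z (n 0 z (n 0 z (n 0 z z))))))))))))))) (n 627 (n 0 z (n 0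
 z (n 0 z (n 0 z (n 0 z (n 0 z (n 0 z (n 0 z (n 0 z (n 0 z (n 0 z (n 0 z (n 0 z (n 0 z
 z)))))))))))))) (n 627 (n 2 (n 1 z (n 2 (n 0 z (n 0 z (n 0 z (n 0 z (n 0 z (n 0 z z)))))) (n 2
 (n 0 z (n 0 z (n 0 z (n 0 z (n 0 z (n 0 z z)))))) z))) (n
 0x2ea8ca820779b81d96276082295c81d81d85f8e17e189e91f9637a47a06dc8635e276271d8218dd86379e0801 z
 (n 0 z (n 0 z (n 0 z (n 0 z (n 0 z (n 0 z (n 0 z (n 0 z (n 0 z (n 0 z (n 0 z (n 0 z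
 z)))))))))))))) (n 137 (n 0 z (n 0 z (n 0 z (n 0 z (n 0 z (n 0 z (n 0 z z))))))) (n 737 (n 0 z
 (n 0 z (n 0 z (n 0 z (n 0 z (n 0 z (n 0 z (n 0 z (n 0 z (n 0 z (n 0 z (n 0 z (n 0 z (n 0 z (n 0
 z (n 0 z (n 0 z z))))))))))))))))) (n 737 (n 0 z (n 0 z (n 0 z (n 0 z (n 0 z (n 0 z (n 0 z (n 0
 z (n 0 z (n 0 z (n 0 z (n 0 z (n 0 z (n 0 z (n 0 z (n 0 z (n 0 z z))))))))))))))))) z)))))))))
 (n 0 (n 751 (n 0 z (n 0 z (n 0 z (n 0 z (n 0 z (n 0 z (n 0 z z))))))) (n 751 (n 2 (n 2 (n 0 z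
 (n 0 z (n 0 z (n 0 z (n 0 z (n 0 z z)))))) (n 2 (n 0 z (n 0 z (n 0 z (n 0 z (n 0 z (n 0 z
 z)))))) (n 2 (n 0 z (n 0 z (n 0 z (n 0 z (n 0 z (n 0 z z)))))) (n 2 (n 0 z (n 0 z (n 0 z (n 0 z
 (n 0 z (n 0 z z)))))) (n 2 (n 0 z (n 0 z (n 0 z (n 0 z (n 0 z (n 0 z z)))))) (n 1 z z)))))) (n
 0 z (n 0 z (n 0 z (n 0 z (n 0 z (n 0 z z))))))) (n 753 (n 0 z (n 0 z (n 2 (n 1 z (n 1 z (n 1 z
 (n 2 (n 0 z (n 0 z (n 0 z (n 0 z (n 0 z (n 0 z z)))))) (n 1 z z))))) (n 0 z (n 0 z z))))) (n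
 1059 (n 0 z (n 0 z (n 0 z (n 0 z (n 0 z (n 0 z (n 0 z (n 0 z (n 0 z (n 0 z z)))))))))) (n 1059
 (n 2 (n 2 (n 0 z (n 0 z (n 0 z (n 0 z (n 0 z (n 0 z z)))))) (n 2 (n 0 z (n 0 z (n 0 z (n 0 z (n
 0 z (n 0 z z)))))) (n 1 z z))) (n 0 z (n 0 z (n 0 z (n 0 z (n 0 z (n 0 z (n 0 z (n 0 z (n 0 z
 z)))))))))) (n 137 (n 0 z (n 0 z (n 2 (n 1 z (n 1 z z)) (n 0 z (n 0 z z))))) (n 749 (n 0 z (n 0
 z (n 0 z (n 0 z (n 0 z z))))) (n 749 (n 0 z (n 0 z (n 0 z (n 0 z (n 0 z z))))) z)))))))) (n 0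
 (n 0 z (n 347 (n 0 z (n 0 z (n 0 z (n 0 z (n 0 z (n 0 z (n 0 z (n 0 z z)))))))) (n 11 (n 0 z (n
 0 z (n 0 z (n 0 z (n 0 z (n 0 z (n 0 z z))))))) (n 11 (n 0 z (n 0 z (n 0 z (n 0 z (n 2 (n 1 z
 (n 2 (n 0 z (n 0 z (n 0 z (n 0 z (n 0 z (n 0 z z)))))) (n 2 (n 0 z (n 0 z (n 0 z (n 0 z (n 0 z
 (n 0 z z)))))) z))) (n 0 z (n 0 z z))))))) (n 345 (n 0 z (n 0 z (n 0 z (n 0 z (n 0 z (n 0 z (n
 0 z (n 0 z (n 0 z z))))))))) (n 337 (n 0 z (n 0 z (n 0 z (n 0 z (n 0 z z))))) (n 337 (n 0 z (n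
 0 z (n 0 z (n 0 z (n 0 z z))))) z))))))) (n 0 (n 23 (n 0 z (n 2 (n 2 (n 0 z (n 0 z (n 0 z (n 0
 z (n 0 z (n 0 z z)))))) (n 2 (n 0 z (n 0 z (n 0 z (n 0 z (n 0 z (n 0 z z)))))) (n 2 (n 0 z (n 0
 z (n 0 z (n 0 z (n 0 z (n 0 z z)))))) (n 2 (n 0 z (n 0 z (n 0 z (n 0 z (n 0 z (n 0 z z)))))) (n
 2 (n 0 z (n 0 z (n 0 z (n 0 z (n 0 z (n 0 z z)))))) z))))) (n 0 z z))) (n 11 (n 0 z (n 2 (n 0 z
 (n 1 z (n 2 (n 0 z (n 0 z (n 0 z (n 0 z (n 0 z (n 0 z z)))))) (n 1 z z)))) (n 0 z z))) (n 11 (n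
 0 z (n 0 z (n 0 z z))) (n 15 (n 0 z (n 0 z (n 0 z (n 0 z (n 0 z (n 0 z (n 0 z (n 2 (n 1 z (n 1
 z z)) (n 0 z (n 0 z (n 0 z (n 0 z (n 0 z (n 0 z (n 0 z (n 0 z (n 0 z z))))))))))))))))) (n 13
 (n 0 z (n 0 z (n 0 z (n 0 z (n 0 z (n 0 z (n 0 z z))))))) (n 13 (n 0 z (n 0 z (n 0 z (n 0 z (n
 0 z (n 7754051 z (n 0 z z))))))) z)))))) (n 0 (n 59 (n 0 z (n 0 z (n 0 z (n 0 z z)))) (n 59 (n
 0 z (n 0 z (n 0 z (n 2 (n 1 z (n 2 (n 0 z (n 0 z (n 0 z (n 0 z (n 0 z (n 0 z z)))))) (n 2 (n 0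
 z (n 0 z (n 0 z (n 0 z (n 0 z (n 0 z z)))))) z))) z)))) (n 585 (n 0 z (n 0 z (n 0 z (n 0 z (n 0
 z (n 0 z z)))))) (n 493 (n 0 z (n 0 z (n 0 z (n 0 z (n 0 z (n 0 z (n 0 z z))))))) (n 493 (n 0 z
 (n 0 z (n 0 z (n 0 z (n 0 z (n 0 z (n 0 z z))))))) z))))) (n 0 (n 0 z (n 99 (n 0 z (n 0 z (n 0
 z (n 0 z (n 0 z (n 0 z (n 0 z z))))))) (n 97 (n 0 z (n 0 z (n 0 z (n 0 z z)))) (n 97 (n 0 z (n
 0 z (n 0 z (n 0 z z)))) z)))) (n 0 (n 15 (n 2 (n 2 (n 0 z (n 0 z (n 0 z (n 0 z (n 0 z (n 0 z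
 z)))))) (n 2 (n 0 z (n 0 z (n 0 z (n 0 z (n 0 z (n 0 z z)))))) z)) (n 0 z (n 0 z (n 0 z (n 0 z
 (n 0 z (n 0 z z))))))) (n 13 (n 0 z (n 0 z (n 0 z (n 0 z (n 0 z z))))) (n 13 (n 0 z (n 0 z (n 0
 z (n 0 z (n 0 z z))))) z))) (n 0 (n 985 (n 0 z (n 0 z (n 0 z (n 0 z (n 0 z (n 0 z (n 0 z (n 0 z
 (n 0 z (n 0 z (n 0 z (n 0 z (n 0 z z))))))))))))) (n 985 (n 0 z (n 0 z (n 7754267 z (n 0 z (n 0
 z (n 0 z (n 0 z (n 0 z (n 0 z (n 0 z (n 0 z (n 0 z (n 0 z z))))))))))))) z)) (n 0 (n 0 z z) (n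
 0 z z)))))))))) (n 0 (n 1 (n 2 z (n 3292 z (n 6561843 z (n 6554411 z (n 3278363 z (n 2428 z
 z)))))) (n 1 (n 6565923 z (n 6565923 z (n 6565923 z (n 6565923 z (n 6565923 z (n 6565923 z
 z)))))) (n 1 (n 2428 z (n 2428 z (n 6561843 z (n 2428 z (n 4392475 z (n 2428 z z)))))) z))) (n
 0 (n 0 (n 0 (n 0 (n 7742219 z (n 7742219 z (n 7742219 z (n 7742219 z (n 7742219 z (n 7742219 z
 z)))))) z) (n 0 (n 369 (n 1 (n 2428 z (n 2428 z (n 2428 z (n 2428 z (n 7472667 z (n 7754267 z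
 z)))))) (n 1 (n 7472667 z (n 2428 z (n 2428 z (n 2428 z (n 7754267 z (n 4396891 z z)))))) (n 1
 (n 2428 z (n 2428 z (n 2428 z (n 7754267 z (n 2428 z (n 2428 z z)))))) (n 1 (n 6496627 z (n
 7602987 z (n 7602987 z (n 7602987 z (n 7602987 z (n 7602987 z z)))))) (n 1 (n 7614499 z (n
 7614499 z (n 7614499 z (n 7614499 z (n 7614499 z (n 7614499 z z)))))) (n 1 (n 7610707 z (n
 7610707 z (n 7610707 z (n 7610707 z (n 7610707 z (n 7610707 z z)))))) (n 1 (n 7610707 z (n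
 7610707 z (n 7610707 z (n 7610707 z (n 7610707 z (n 7610707 z z)))))) z))))))) (n 168 (n 0 z (n
 0 z (n 1 (n 3278619 z (n 3278619 z (n 3278619 z (n 3278619 z (n 3278619 z (n 7610707 z z))))))
 (n 0 z (n 1 (n 7681067 z (n 7681067 z (n 7681067 z (n 7681067 z (n 7681067 z (n 7610707 z
 z)))))) z))))) (n 9 (n 1 (n 7742219 z (n 7742219 z (n 7742219 z (n 7742219 z (n 7742219 z (n
 7742219 z z)))))) (n 0 z (n 0 z (n 1 (n 7610419 z (n 7610419 z (n 7610419 z (n 7610419 z (n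
 7610419 z (n 7610419 z z)))))) z)))) (n 3 (n 1 (n 7754267 z (n 7754267 z (n 7754267 z (n
 7754267 z (n 7754267 z (n 7754267 z z)))))) (n 1 (n 7614499 z (n 7614499 z (n 7614499 z (n
 7614499 z (n 7614499 z (n 7614499 z z)))))) (n 1 (n 388 z (n 476 z (n 7472667 z (n 6555419 z (n
 2620 z (n 2620 z z)))))) z))) (n 1 (n 1 (n 7742219 z (n 7742219 z (n 7742219 z (n 7742219 z (n
 7742219 z (n 7742219 z z)))))) (n 0 z (n 1 (n 7614499 z (n 7614499 z (n 7614499 z (n 7614499 z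
 (n 7614499 z (n 7614499 z z)))))) (n 0 z (n 1 (n 7610707 z (n 7610707 z (n 7610707 z (n 7610707
 z (n 7610707 z (n 7610707 z z)))))) z))))) (n 97 (n 0 z (n 1 (n 7614499 z (n 7614499 z (n
 7614499 z (n 7614499 z (n 7614499 z (n 7614499 z z)))))) (n 0 z (n 1 (n 7754267 z (n 7754267 z
 (n 7610419 z (n 7754267 z (n 7742219 z (n 4399475 z z)))))) z)))) (n 3 (n 1 (n 7742219 z (n
 7754267 z (n 7610419 z (n 7754267 z (n 7754267 z (n 7754267 z z)))))) (n 1 (n 7614499 z (n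
 7614499 z (n 7614499 z (n 7614499 z (n 7614499 z (n 7614499 z z)))))) (n 1 (n 7742219 z (n 2428
 z (n 7610419 z (n 2428 z (n 4392731 z (n 2428 z z)))))) z))) z))))))) (n 0 z (n 0 (n 393 (n 0 z
 (n 0 z (n 0 z (n 0 z (n 0 z (n 0 z (n 0 z z))))))) (n 309 (n 0 z (n 0 z (n 0 z (n 0 z (n 0 z (n
 0 z (n 0 z (n 0 z (n 0 z (n 0 z (n 0 z (n 0 z (n 0 z (n 0 z (n 0 z z))))))))))))))) (n 293 (n 0
 z (n 0 z (n 0 z (n 0 z (n 0 z (n 0 z (n 0 z (n 0 z z)))))))) (n 327 (n 0 z (n 0 z (n 0 z (n 0 z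
 (n 0 z (n 0 z (n 0 z (n 0 z (n 0 z (n 0 z (n 0 z (n 0 z (n 0 z (n 0 z z)))))))))))))) (n 59 (n
 0 z (n 0 z (n 0 z (n 0 z (n 0 z (n 0 z (n 0 z z))))))) (n 53 (n 0 z (n 0 z (n 0 z (n 0 z z))))
 (n 575 (n 0 z (n 0 z (n 0 z (n 0 z (n 0 z (n 0 z (n 0 z z))))))) (n 557 (n 0 z (n 0 z (n 0 z (n
 0 z (n 0 z (n 0 z (n 0 z (n 0 z (n 0 z z))))))))) (n 556 (n 0 z (n 0 z (n 0 z (n 0 z (n 0 z (n
 0 z z)))))) (n 73 (n 0 z (n 0 z (n 0 z (n 0 z (n 0 z (n 0 z (n 0 z z))))))) (n 473 (n 0 z (n 0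
 z (n 0 z (n 0 z (n 0 z (n 0 z (n 0 z (n 0 z (n 0 z (n 0 z (n 0 z (n 0 z (n 0 z (n 0 z (n 0 z (n
 0 z (n 0 z z))))))))))))))))) (n 675 (n 0 z (n 0 z (n 0 z (n 0 z (n 0 z z))))) (n 613 (n 0 z (n
 0 z (n 0 z (n 0 z (n 0 z (n 0 z (n 0 z z))))))) (n 97 (n 0 z (n 0 z (n 0 z (n 0 z z)))) (n 612
 (n 0 z (n 0 z (n 0 z (n 0 z (n 0 z (n 0 z (n 0 z (n 0 z (n 0 z (n 0 z (n 0 z (n 0 z (n 0 z
 z))))))))))))) (n 303 (n 0 z (n 0 z (n 0 z (n 0 z (n 0 z (n 0 z (n 0 z (n 0 z (n 0 z (n 0 z (n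
 0 z z))))))))))) (n 411 (n 0 z (n 0 z (n 0 z (n 0 z (n 0 z (n 0 z (n 0 z (n 0 z z)))))))) (n 9
 (n 0 z (n 0 z (n 0 z (n 0 z z)))) (n 3 (n 0 z (n 0 z (n 0 z z))) (n 1 (n 0 z (n 0 z (n 0 z (n 0
 z (n 0 z z))))) (n 0 (n 0 z (n 0 z (n 0 z (n 0 z (n 0 z (n 0 z (n 0 z z)))))))
 z))))))))))))))))))))) z)))) z) z)))) (n 0x1056a4d288d5b826a6a14535621 (n 0 (n 351 (n 6492195 z
 (n 0 z (n 6492195 z (n 0 z (n 0 z (n 0 z z)))))) (n 349 (n 0 z (n 0 z (n 0 z (n 4392475 z (n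
 6492195 z (n
 0x9c6537f7487847a807a927e88807e81867e7581807f877e897766679070767373866d8d7392906b8e858874856a9489818f5e8f990049
 z (n
 0xcc86c864078c74818184807d79827f807c82837b8281807a7d87847e7e777b7c837d7d7e8d817d887b83857f85798878808e81838380850809
 z (n
 0x329328201c01951950c0604ca8c604077b89857a7e80818680847a7a8482818480807c897f7e7d837f827c7b7c7c7f7a83807f857a86817980807c767986808584821809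
 z (n
 0x232a320181c0995195000e02ca8c840038580837d7d80817e817e777b87817d837c807f85847f7d7f807e7e807d7c7f838080817f8684837e7f817f7a828280807e7f1809
 z (n 2 z (n 0 z (n
 0x646527f7885837c807c8b7e85807e81847e79808080857f857a6f708a767a7878847488778c8a748983867983728d8581896a89900049
 z z)))))))))))) (n 9 (n 6566403 z (n 6566403 z (n 6562571 z (n 6561843 z (n
 0xca8a8020780808080808080808080807f81807f807f808080807f8080807f8080808081818080807f81808080808180808080808080800809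
 z (n
 0x195194040602ca8c802077d82817d7f80828180827e8083807d7f7d807e83827e80807e807f817f7f81848082807d8380817f7f83817e8080808081811009
 z (n
 0x165365140380b28b28201c0194944100600ca8ca26030165464130380b2a320181c0195194400602ca6c820038285827f8180817f807f777e827f7f807e808182827d7f8184828180807e7f7f7d847b81847e847d827e877c79827f817d7c4009
 z (n 0 z (n 0 z (n 0 z (n 0 z (n 0 z (n 10 z (n 6628123 z (n 6561843 z (n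
 0x4ca8ca26038082807f81807f8181817d7f827e807e837f7f828280818080817f7e7e7d807f80827f808180827f8080827f7f81818280800809
 z (n 18 z (n 0 z (n 0 z (n 6628123 z (n 0 z (n 6562571 z (n 0 z (n 0 z (n 0 z (n 26 z (n 0 z (n
 0 z z)))))))))))))))))))))))))))) (n 3 (n 0 z (n 6566403 z (n 0 z (n 0 z (n 0 z (n 0 z (n 0 z
 (n 0 z (n 0 z (n 0 z z)))))))))) (n 1 (n 0 z (n
 0x42610807c827e7a8079867f877781848d7c7b79857c837f8a80807090777c77848274857687846a877c7f7a8a74908e838f78918b0049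
 z (n 6561843 z (n 34 z (n
 0x2ca6ca200381807f818080807f807f8080807f7f807f80807e828181807f818082808180828080807d827f80817f828181837f80807e800809
 z (n 6566403 z (n
 0x1a610807e817f7e807e8280827c8082857e7e7d827f817f84808079877c7e7c81817b827b838277837f807e847b878581867d87840049
 z (n 6566403 z (n 0 z (n 0 z (n
 0x42651807c827e7a8079867f877781848d7c7b79857c837f8a80807090777c77848274857687846a877c7f7a8a74908e838f78918b0049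
 z (n 6566403 z (n 0 z (n 6566403 z (n
 0xca6ca4207808180808080808080807e8081807f807f80808080808080808180807f81807f818080807f808080808080808081808080800809
 z (n 0 z (n 0 z (n 0 z (n 0 z (n 0 z (n 0 z (n
 0x4ca4ca260781837f828080808180847d8081827f827e817e7f7c8181817b847e807e86837c827f7f8377817f7d7f827c828083818185800809
 z (n 0 z (n 0 z (n 0 z (n 0 z (n 0 z (n 0 z (n 0 z z))))))))))))))))))))))))))))) (n 0 (n 0 z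
 (n
 0x42610807c827e7a8079867f877781848d7c7b79857c837f8a80807090777c77848274857687846a877c7f7a8a74908e838f78918b0049
 z (n 0 z (n 0 z (n 6628123 z (n 0 z (n 0 z z))))))) z)))))) (n 351 (n 0 (n 753 (n 0 z (n 0 z (n
 0 z (n 0 z (n 0 z (n 0 z (n 0 z (n 0 z (n 0 z (n 0 z (n 0 z (n 0 z (n 0 z (n 0 z (n 0 z (n 0 z
 (n 0 z (n 0 z z)))))))))))))))))) (n 753 (n 0 z (n 0 z (n 0 z (n 0 z (n 0 z (n 0 z (n 0 z (n 0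
 z (n 0 z (n 0 z (n 0 z (n 0 z (n 0 z (n 0 z (n 0 z (n 0 z (n 0 z (n 0 z z)))))))))))))))))) (n
 753 (n 0 z (n 0 z (n 0 z (n 0 z (n 0 z (n 0 z (n 0 z (n 0 z (n 0 z (n 0 z (n 0 z (n 0 z (n 0 z
 (n 0 z (n 0 z (n 0 z (n 0 z (n 0 z z)))))))))))))))))) (n 697 (n 0 z (n 0 z (n 0 z (n 0 z (n 0
 z (n 0 z (n 0 z (n 0 z (n 0 z (n 0 z (n 0 z (n 0 z (n 0 z (n 0 z (n 0 z (n 0 z (n 0 z (n 0 z (n
 0 z (n 0 z (n 0 z (n 0 z (n 0 z (n 0 z (n 0 z z))))))))))))))))))))))))) z)))) (n 0 (n 0 z (n 0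
 z (n 15 (n 0 z (n 0 z (n 0 z (n 0 z (n 0 z (n 0 z (n 0 z (n 0 z (n 0 z (n 0 z (n 0 z (n 0 z (n
 0 z (n 0 z (n 0 z (n 0 z (n 0 z (n 0 z (n 0 z (n 0 z (n 0 z (n 0 z (n 0 z (n 0 z (n 0 z
 z))))))))))))))))))))))))) z))) (n 0 (n 0 z (n 243 (n 0 z (n 2 z (n 0 z z))) z)) (n 0 (n 15 (n
 0 z (n 0 z (n 2 z (n 0 z (n 0 z (n 0 z (n 0 z z))))))) z) (n 0 z z))))) (n 0 (n 1 (n 6492195 z
 (n 6566403 z (n 6492195 z (n 6492195 z (n 6492195 z (n 6492195 z z)))))) (n 0 z (n 1 (n 6492195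
 z (n 6566403 z (n 6492195 z (n 6492195 z (n 6492195 z (n 6492195 z z)))))) (n 0 z (n 0 z (n 0 z
 z)))))) (n 0 z z)))) (n 0x1b4ae8d6c770d2b98384cd84aded856b6d033a4d40 (n 0 (n 183 (n 0 z (n
 3282443 z (n 0 z (n 0 z (n 0 z (n 0 z (n 2 z z))))))) (n 257 (n 0 z (n 6635811 z (n 0 z (n 0 z
 (n 0 z (n 0 z (n 0 z (n 6624299 z (n
 0x6c86c860038208608207a182081f8208608207df7e085d7e17e27df81f8217de81f81f89f86181f85f85f0801 z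
 (n 0 z (n
 0x4ca6ca400385f7e17de82079f8df82182282181f81f82082081f7dd85f8218208218a17e08a18218208600801 z
 (n 0 z (n 0 z (n
 0x6c86c8600376275d7a17608a29e18a58e28de8e18a681d6df7a176286086192375e8a281b6e29208df9200801 z
 (n 0 z (n 6627651 z (n 10 z z))))))))))))))))) (n 129 (n 0 z (n 6627651 z (n 0 z (n 18 z z))))
 (n 27 (n 0 z (n 0 z (n 2164283 z (n 0 z (n 26 z z))))) (n 1 (n 0 z (n 0 z (n 0 z (n 0 z (n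
 6635811 z (n 34 z (n 42 z z))))))) (n 0 (n 0 z (n 6635811 z (n
 0x6c86c8600376275d7a17608a29e18a58e28de8e18a681d6df7a176286086192375e8a281b6e29208df9200801 z
 (n 0 z (n 0 z (n 0 z (n 0 z (n 6624299 z (n 0 z (n 0 z (n 0 z (n 50 z (n 58 z z)))))))))))))
 z)))))) (n 129 (n 0 (n 1101 (n 0 z (n 0 z (n 0 z (n 0 z (n 0 z (n 0 z (n 0 z (n 0 z (n 0 z (n 0
 z (n 0 z (n 0 z z)))))))))))) (n 363 (n 0 z (n 0 z (n 0 z z))) (n 1077 (n 0 z (n 0 z (n 0 z (n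
 0 z (n 0 z (n 0 z (n 0 z (n 0 z z)))))))) (n 351 (n 0 z (n 0 z (n 2 (n 0 z (n 2 (n 0 z (n 0 z
 (n 0 z (n 0 z (n 0 z (n 0 z z)))))) (n 2 (n 0 z (n 0 z (n 0 z (n 0 z (n 0 z (n 0 z z)))))) z)))
 z))) (n 351 (n 0 z (n 0 z (n 0 z z))) (n 365 (n 0 z (n 0 z (n 0 z (n 0 z (n 0 z (n 0 z (n 0 z
 (n 0 z (n 0 z (n 0 z (n 0 z (n 0 z (n 0 z (n 0 z (n 0 z (n 0 z (n 0 z z))))))))))))))))) (n 365
 (n 0 z (n 0 z (n 0 z (n 0 z (n 0 z (n 0 z (n 0 z (n 0 z (n 0 z (n 0 z (n 0 z (n 0 z (n 0 z (n 0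
 z (n 0 z (n 0 z (n 0 z z))))))))))))))))) z))))))) (n 0 (n 1161 (n 0 z (n 0 z (n 0 z (n 0 z (n
 0 z (n 0 z (n 0 z (n 0 z (n 0 z (n 0 z (n 0 z (n 0 z (n 0 z (n 0 z z)))))))))))))) (n 513 (n 0
 z (n 0 z (n 0 z (n 0 z (n 0 z (n 0 z (n 0 z z))))))) (n 51 (n 0 z (n 0 z (n 0 z (n 0 z (n 0 z
 (n 0 z (n 0 z (n 0 z (n 0 z (n 0 z (n 0 z (n 0 z (n 0 z (n 0 z (n 2 (n 0 z (n 1 z (n 1 z z)))
 z))))))))))))))) (n 51 (n 0 z (n 0 z (n 0 z (n 0 z (n 0 z (n 0 z (n 0 z (n 0 z (n 0 z (n 0 z (n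
 0 z (n 0 z (n 0 z (n 0 z (n 0 z z))))))))))))))) (n 53 (n 0 z (n 0 z (n 0 z (n 2 (n 0 z z) (n 0
 z (n 0 z (n 0 z z))))))) (n 53 (n 0 z (n 0 z (n 0 z (n 0 z (n 0 z (n 0 z (n 0 z z)))))))
 z)))))) (n 0 (n 267 (n 0 z (n 0 z (n 0 z (n 0 z (n 0 z (n 0 z (n 0 z z))))))) (n 255 (n 0 z (n
 0 z (n 0 z (n 2 (n 0 z (n 2 (n 0 z (n 0 z (n 0 z (n 0 z (n 0 z (n 0 z z)))))) (n 1 z z))) z))))
 (n 255 (n 0 z (n 0 z (n 0 z (n 0 z z)))) (n 257 (n 2 (n 0 z z) (n 0 z (n 0 z (n 0 z (n 0 z (n 0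
 z (n 0 z z))))))) (n 257 (n 0 z (n 0 z (n 0 z (n 0 z (n 0 z (n 0 z (n 0 z z))))))) z))))) (n 0
 (n 51 (n 0 z (n 0 z (n 0 z (n 0 z (n 0 z (n 0 z (n 2 (n 0 z (n 1 z (n 1 z z))) (n 0 z z))))))))
 (n 51 (n 0 z (n 0 z (n 0 z (n 0 z (n 0 z (n 0 z (n 0 z (n 0 z z)))))))) (n 49 (n 0 z (n 0 z (n
 0 z (n 0 z (n 0 z (n 0 z (n 0 z (n 0 z (n 0 z z))))))))) (n 49 (n 0 z (n 0 z (n 0 z (n 0 z (n 0
 z (n 0 z (n 0 z (n 0 z (n 0 z z))))))))) z)))) (n 0 (n 0 z (n 389 (n 0 z (n 0 z (n 0 z (n 0 z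
 (n 0 z (n 0 z (n 2 (n 0 z z) (n 0 z (n 0 z (n 0 z (n 0 z (n 0 z (n 0 z (n 0 z (n 0 z (n 0 z (n
 0 z (n 0 z z)))))))))))))))))) (n 389 (n 0 z (n 0 z (n 0 z (n 0 z (n 0 z (n 2 z (n 0 z (n 0 z
 (n 0 z (n 0 z (n 0 z (n 0 z (n 0 z (n 0 z (n 0 z (n 0 z (n 0 z (n 0 z z)))))))))))))))))) z)))
 (n 0 (n 53 (n 0 z (n 0 z (n 0 z (n 0 z (n 0 z (n 0 z z)))))) (n 53 (n 0 z (n 0 z (n 0 z (n 0 z
 (n 0 z (n 0 z z)))))) z)) (n 0 (n 0 z z) (n 0 z z)))))))) (n 0 (n 0 z (n 1 (n 6627651 z (n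
 6627651 z (n 6635811 z (n 6627651 z (n 6627651 z (n 6627651 z z)))))) (n 0 z (n 1 (n 1468 z (n
 1468 z (n 6635811 z (n 1468 z (n 6554139 z (n 5517923 z z)))))) z)))) (n 0 z z)))) (n
 0x1b4ae8d6c770d2b983894d84adea224f6c2b5ab092db40ce935036d28152880 (n 0x36d2b (n 183 (n
 0xaa42c8060781827e807e80817d7e83808383827e82827f807f827e81827e7e84817b7e81807f7f807a7d807c81828181857e85817d7f800809
 z (n
 0x65509940c0e32a42ca06077584827b6f82996f5f905e6f778a828594898a81877297907d6660667c648469849474739087787a8670898b8e9886737b821009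
 z (n 6554139 z (n 4400651 z (n 3282443 z (n 0 z (n
 0xd951948c0602c84ca26030165264130380329b29901c0590d90c80e00ca4ca4207817f828480817f7e7f818084838082807e7f7e827c858582807e847f7c82807f7d827f7f80807a81807f7d83818183817e803009
 z (n 2 z (n 10 z (n 18 z z)))))))))) (n 257 (n 6635811 z (n 6635811 z (n 0 z (n
 0x2c86c86007808080808080808080808080808080808080808080818080818080808080808080807f80808180808080808080807f8080800809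
 z (n 6624299 z (n 0 z (n
 0x4ca6ca4003817f7f817e7e80807f7f827f818180828081807f807f81808080807f7f7d807f8081808080818181808082818181808080810809
 z (n 0 z (n
 0x5951940c0e06ca6a860077e8180807f807f80818082808282808281818182828282817f7f7f81808080808081827f80818080807e7e80817f818181801009
 z (n 0 z (n 0 z (n
 0x6c86c860037d837f7f7d807d818684878282848283817f828282867f7c7a8080837f827f81808284847e7d83827e7d7d80827d8581847f0809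
 z (n
 0x6c86c860037d837f7f7d807d818684878282848283817f828282867f7c7a8080837f827f81808284847e7d83827e7d7d80827d8581847f0809
 z (n 6627651 z (n 26 z z))))))))))))))) (n 129 (n 0 z (n 6627651 z (n 0 z (n 0 z (n 34 z (n 42
 z z)))))) (n 27 (n 0 z (n 0 z (n 2164283 z (n 50 z (n 58 z z))))) (n 1 (n 0 z (n 0 z (n 6635811
 z (n 0 z (n 0 z (n 66 z (n 0 z (n 0 z (n 74 z z))))))))) (n 0 (n
 0x84ca68620077f81757d787f7e8c8a7d9c828e82897f8882688c7d84747679797e8777888083787d918b788588897f767b838b757f7f897f0809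
 z (n 0 z (n 6635811 z (n 0 z (n
 0x4c86c860037e827f7f7d807e818483868282838182827f828282847f7d7b807f827f827f81818183837f7d82827e7d7d80827e8481847f0809
 z (n 0 z (n 0 z (n 0 z (n 0 z (n 0 z (n 0 z (n 6624299 z (n 82 z (n 90 z z))))))))))))))
 z)))))) (n 27 (n 0 (n 0 z (n 0 z (n 175 (n 0 z (n 0 z (n 0 z z))) (n 19 (n 0 z (n 0 z (n 0 z (n
 0 z (n 7745555 z z))))) (n 19 (n 0 z (n 0 z (n 0 z (n 0 z (n 0 z z))))) (n 147 (n 0 z (n 0 z (n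
 7745555 z (n 0 z (n 0 z z))))) (n 147 (n 0 z (n 0 z (n 0 z (n 0 z (n 0 z z))))) (n 255 (n 0 z
 (n 0 z (n 7745555 z (n 0 z z)))) (n 255 (n 0 z (n 0 z (n 0 z (n 0 z z)))) (n 17 (n 0 z (n 0 z
 (n 0 z (n 0 z (n 0 z (n 0 z (n 0 z (n 0 z (n 0 z (n 0 z (n 0 z (n 0 z z)))))))))))) (n 17 (n 0
 z (n 0 z (n 0 z (n 0 z (n 0 z (n 0 z (n 0 z (n 0 z (n 0 z (n 0 z (n 0 z (n 0 z z))))))))))))
 z))))))))))) (n 0 (n 0 z (n 1101 (n 0 z (n 0 z (n 0 z (n 0 z (n 0 z (n 0 z (n 0 z (n 0 z (n 0 z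
 (n 0 z (n 0 z z))))))))))) (n 369 (n 0 z (n 0 z (n 2 (n 0 z (n 2 (n 0 z (n 0 z (n 0 z (n 0 z (n
 0 z (n 0 z z)))))) (n 2 (n 0 z (n 0 z (n 0 z (n 0 z (n 0 z (n 0 z z)))))) (n 2 (n 0 z (n 0 z (n
 0 z (n 0 z (n 0 z (n 0 z z)))))) (n 2 (n 0 z (n 0 z (n 0 z (n 0 z (n 0 z (n 0 z z)))))) (n 2 (n
 0 z (n 0 z (n 0 z (n 0 z (n 0 z (n 0 z z)))))) (n 2 (n 0 z (n 0 z (n 0 z (n 0 z (n 0 z (n 0 z
 z)))))) z))))))) (n 0 z z)))) (n 369 (n 0 z (n 0 z (n 0 z (n 0 z z)))) (n 645 (n 0 z (n 0 z (n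
 0 z (n 2 (n 0 z (n 2 (n 0 z (n 0 z (n 0 z (n 0 z (n 0 z (n 0 z z)))))) (n 2 (n 0 z (n 0 z (n 0
 z (n 0 z (n 0 z (n 0 z z)))))) (n 2 (n 0 z (n 0 z (n 0 z (n 0 z (n 0 z (n 0 z z)))))) (n 2 (n 0
 z (n 0 z (n 0 z (n 0 z (n 0 z (n 0 z z)))))) z))))) (n 0 z (n 0 z (n 0 z (n 0 z z)))))))) (n
 645 (n 0 z (n 0 z (n 0 z (n 0 z (n 0 z (n 0 z (n 0 z (n 0 z z)))))))) (n 357 (n 0 z (n 0 z (n 0
 z (n 0 z z)))) (n 357 (n 0 z (n 0 z (n 0 z (n 0 z z)))) (n 365 (n 0 z (n 0 z (n 0 z (n 0 z (n 0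
 z z))))) (n 365 (n 0 z (n 0 z (n 0 z (n 0 z (n 0 z z))))) z)))))))))) (n 0 (n 1101 (n 0 z (n 0
 z (n 0 z (n 0 z (n 0 z (n 0 z (n 0 z (n 0 z (n 0 z (n 0 z (n 0 z (n 0 z z)))))))))))) (n 363 (n
 0 z (n 0 z (n 0 z (n 0 z z)))) (n 363 (n 0 z (n 0 z (n 0 z (n 0 z z)))) (n 1077 (n 0 z (n 0 z
 (n 0 z (n 0 z (n 0 z (n 0 z (n 0 z (n 2 (n 0 z (n 2 (n 0 z (n 0 z (n 0 z (n 0 z (n 0 z (n 0 z
 z)))))) (n 2 (n 0 z (n 0 z (n 0 z (n 0 z (n 0 z (n 0 z z)))))) (n 2 (n 0 z (n 0 z (n 0 z (n 0 z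
 (n 0 z (n 0 z z)))))) (n 2 (n 0 z (n 0 z (n 0 z (n 0 z (n 0 z (n 0 z z)))))) z))))) z))))))))
 (n 1077 (n 0 z (n 0 z (n 0 z (n 0 z (n 0 z (n 0 z (n 0 z (n 0 z z)))))))) (n 351 (n 0 z (n 0 z
 (n 0 z (n 0 z (n 2 (n 0 z (n 2 (n 0 z (n 0 z (n 0 z (n 0 z (n 0 z (n 0 z z)))))) (n 2 (n 0 z (n
 0 z (n 0 z (n 0 z (n 0 z (n 0 z z)))))) z))) z))))) (n 351 (n 0 z (n 0 z (n 0 z (n 0 z (n 0 z
 z))))) (n 365 (n 0 z (n 0 z (n 0 z (n 0 z (n 0 z (n 0 z (n 0 z (n 0 z (n 0 z (n 0 z (n 0 z (n 0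
 z (n 0 z (n 0 z (n 0 z z))))))))))))))) (n 365 (n 0 z (n 0 z (n 0 z (n 0 z (n 0 z (n 0 z (n 0 z
 (n 0 z (n 0 z (n 0 z (n 0 z (n 0 z (n 0 z (n 0 z (n 0 z z))))))))))))))) z))))))))) (n 0 (n
 1161 (n 0 z (n 2 (n 0 z (n 2 (n 0 z (n 0 z (n 0 z (n 0 z (n 0 z (n 0 z z)))))) (n 1 z (n 1 z (n
 1 z (n 2 (n 0 z (n 0 z (n 0 z (n 0 z (n 0 z (n 0 z z)))))) (n 1 z z))))))) (n 0 z (n 0 z (n 0 z
 (n 0 z (n 0 z (n 0 z (n 0 z (n 0 z (n 0 z (n 0 z (n 0 z (n 0 z z)))))))))))))) (n 1161 (n 0 z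
 (n 0 z (n 0 z (n 0 z (n 0 z (n 0 z (n 0 z (n 0 z (n 0 z (n 0 z (n 0 z (n 0 z (n 0 z (n 0 z
 z)))))))))))))) (n 513 (n 0 z (n 2 (n 0 z (n 2 (n 0 z (n 0 z (n 0 z (n 0 z (n 0 z (n 0 z
 z)))))) (n 2 (n 0 z (n 0 z (n 0 z (n 0 z (n 0 z (n 0 z z)))))) (n 2 (n 0 z (n 0 z (n 0 z (n 0 z
 (n 0 z (n 0 z z)))))) (n 2 (n 0 z (n 0 z (n 0 z (n 0 z (n 0 z (n 0 z z)))))) z))))) (n 0 z (n 0
 z (n 0 z (n 0 z (n 0 z z))))))) (n 513 (n 0 z (n 0 z (n 0 z (n 0 z (n 0 z (n 0 z (n 0 z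
 z))))))) (n 51 (n 0 z (n 0 z (n 0 z (n 0 z (n 0 z (n 0 z (n 0 z (n 0 z (n 0 z (n 0 z (n 0 z (n
 2 (n 0 z (n 1 z (n 1 z z))) (n 0 z z))))))))))))) (n 51 (n 0 z (n 0 z (n 0 z (n 0 z (n 0 z (n 0
 z (n 0 z (n 0 z (n 0 z (n 0 z (n 0 z (n 0 z (n 0 z z))))))))))))) (n 53 (n 0 z (n 0 z (n 0 z (n
 2 (n 0 z z) (n 0 z (n 0 z (n 0 z z))))))) (n 53 (n 0 z (n 0 z (n 0 z (n 0 z (n 0 z (n 0 z (n 0
 z z))))))) z)))))))) (n 0 (n 0 z (n 247 (n 0 z (n 0 z (n 0 z (n 0 z z)))) (n 247 (n 0 z (n 0 z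
 (n 0 z (n 2 (n 1 z (n 2 (n 0 z (n 0 z (n 0 z (n 0 z (n 0 z (n 0 z z)))))) (n 1 z (n 2 (n 0 z (n
 0 z (n 0 z (n 0 z (n 0 z (n 0 z z)))))) z)))) z)))) (n 291 (n 0 z (n 0 z (n 0 z (n 0 z z)))) (n
 291 (n 0 z (n 0 z (n 0 z (n 2 (n 1 z (n 2 (n 0 z (n 0 z (n 0 z (n 0 z (n 0 z (n 0 z z)))))) z))
 z)))) (n 289 (n 0 z (n 0 z (n 0 z (n 0 z (n 0 z (n 0 z (n 0 z (n 0 z (n 0 z (n 0 z (n 0 z (n 0
 z (n 0 z (n 0 z (n 0 z (n 2 (n 0 z z) (n 0 z z))))))))))))))))) (n 289 (n 0 z (n 0 z (n 0 z (n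
 0 z (n 0 z (n 0 z (n 0 z (n 0 z (n 0 z (n 0 z (n 0 z (n 0 z (n 0 z (n 0 z (n 0 z (n 0 z (n 2 z
 z))))))))))))))))) z))))))) (n 0 (n 267 (n 0 z (n 0 z (n 0 z (n 0 z (n 0 z (n 2 (n 0 z (n 2 (n
 0 z (n 0 z (n 0 z (n 0 z (n 0 z (n 0 z z)))))) (n 2 (n 0 z (n 0 z (n 0 z (n 0 z (n 0 z (n 0 z
 z)))))) (n 2 (n 0 z (n 0 z (n 0 z (n 0 z (n 0 z (n 0 z z)))))) (n 2 (n 0 z (n 0 z (n 0 z (n 0 z
 (n 0 z (n 0 z z)))))) z))))) (n 0 z (n 0 z z)))))))) (n 267 (n 0 z (n 0 z (n 0 z (n 0 z (n 0 z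
 (n 0 z (n 0 z (n 0 z z)))))))) (n 255 (n 0 z (n 0 z (n 0 z (n 0 z (n 0 z (n 2 (n 0 z (n 2 (n 0
 z (n 0 z (n 0 z (n 0 z (n 0 z (n 0 z z)))))) (n 1 z z))) z)))))) (n 255 (n 0 z (n 0 z (n 0 z (n
 0 z (n 0 z (n 0 z z)))))) (n 257 (n 2 (n 0 z z) (n 0 z (n 0 z (n 0 z (n 0 z (n 0 z (n 0 z
 z))))))) (n 257 (n 0 z (n 0 z (n 0 z (n 0 z (n 0 z (n 0 z (n 0 z z))))))) z)))))) (n 0 (n 0 z
 (n 15 (n 0 z (n 0 z (n 0 z (n 0 z (n 0 z z))))) (n 15 (n 0 z (n 0 z (n 0 z (n 2 (n 2 (n 0 z (n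
 0 z (n 0 z (n 0 z (n 0 z (n 0 z z)))))) (n 2 (n 0 z (n 0 z (n 0 z (n 0 z (n 0 z (n 0 z z))))))
 z)) (n 0 z z))))) (n 13 (n 0 z (n 0 z (n 0 z (n 0 z (n 0 z (n 0 z (n 0 z (n 0 z (n 0 z (n 0 z
 (n 2 (n 0 z z) (n 0 z z)))))))))))) (n 13 (n 0 z (n 0 z (n 0 z (n 0 z (n 0 z (n 0 z (n 0 z (n 2
 z (n 0 z (n 0 z (n 0 z (n 0 z z)))))))))))) z))))) (n 0 (n 51 (n 0 z (n 0 z (n 0 z (n 0 z (n 0
 z (n 0 z (n 0 z (n 0 z (n 0 z (n 2 (n 0 z (n 1 z (n 1 z z))) (n 0 z z))))))))))) (n 51 (n 0 z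
 (n 0 z (n 0 z (n 0 z (n 0 z (n 0 z (n 0 z (n 0 z (n 0 z (n 0 z (n 0 z z))))))))))) (n 49 (n 0 z
 (n 0 z (n 0 z (n 0 z (n 0 z (n 0 z (n 0 z (n 0 z (n 0 z z))))))))) (n 49 (n 0 z (n 0 z (n 0 z
 (n 0 z (n 0 z (n 0 z (n 0 z (n 0 z (n 0 z z))))))))) z)))) (n 0 (n 0 z (n 389 (n 0 z (n 0 z (n
 0 z (n 0 z (n 0 z (n 0 z (n 0 z (n 0 z (n 0 z (n 2 (n 0 z z) (n 0 z (n 0 z (n 0 z (n 0 z (n 0 z
 (n 0 z (n 0 z (n 0 z z)))))))))))))))))) (n 389 (n 0 z (n 0 z (n 0 z (n 0 z (n 0 z (n 0 z (n 0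
 z (n 2 z (n 0 z (n 0 z (n 0 z (n 0 z (n 0 z (n 0 z (n 0 z (n 0 z (n 0 z (n 0 z
 z)))))))))))))))))) z))) (n 0 (n 53 (n 0 z (n 0 z (n 0 z (n 0 z (n 0 z (n 0 z (n 0 z (n 0 z
 z)))))))) (n 53 (n 0 z (n 0 z (n 0 z (n 0 z (n 0 z (n 0 z (n 0 z (n 0 z z)))))))) z)) (n 0 (n 0
 z z) (n 0 z z)))))))))))) (n 0 (n 0 z (n 0 z (n 1 (n 2164283 z (n 2164283 z (n 2164283 z (n
 6558475 z (n 2164283 z (n 2164283 z z)))))) (n 1 (n 1468 z (n 6558475 z (n 1468 z (n 1468 z (n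
 1468 z (n 1468 z z)))))) (n 1 (n 1468 z (n 1468 z (n 6558475 z (n 1468 z (n 1468 z (n 2 z
 z)))))) z))))) (n 0 (n 0x9a88939ab092 (n 0 (n 0 (n 7734331 z (n 7734331 z (n 7734331 z (n
 7734331 z (n 7734331 z (n 7684963 z z)))))) z) (n 0 (n 184 (n 1 (n 4396811 z (n 3282699 z (n
 7684387 z (n 4396811 z (n 4396811 z (n 4396811 z z)))))) (n 1 (n 7676227 z (n 7676227 z (n
 7684387 z (n 7676227 z (n 7676227 z (n 7676227 z z)))))) (n 1 (n 1468 z (n 7602715 z (n 7684387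
 z (n 1468 z (n 7672875 z (n 1468 z z)))))) (n 0 z z)))) (n 256 (n 1 (n 4412 z (n 4412 z (n 4412
 z (n 4412 z (n 7607051 z (n 7734331 z z)))))) (n 1 (n 4412 z (n 7607051 z (n 4412 z (n 4412 z
 (n 6489899 z (n 5449579 z z)))))) (n 1 (n 4412 z (n 4412 z (n 4412 z (n 7607051 z (n 4412 z (n
 4412 z z)))))) (n 1 (n 7672875 z (n 4399219 z (n 7672875 z (n 7672875 z (n 7672875 z (n 7672875
 z z)))))) (n 1 (n 7684387 z (n 7684387 z (n 7684387 z (n 7684387 z (n 7684387 z (n 7684387 z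
 z)))))) (n 1 (n 7684963 z (n 7684963 z (n 7684963 z (n 7684963 z (n 7684963 z (n 7684963 z
 z)))))) (n 1 (n 7684963 z (n 7684963 z (n 7684963 z (n 7684963 z (n 7684963 z (n 7684963 z
 z)))))) z))))))) (n 185 (n 1 (n 4396811 z (n 4396811 z (n 4396811 z (n 7607051 z (n 4396811 z
 (n 4396811 z z)))))) (n 1 (n 7676227 z (n 7676227 z (n 7676227 z (n 7676227 z (n 7676227 z (n
 7676227 z z)))))) (n 1 (n 1036 z (n 2 z (n 7607051 z (n 5310267 z (n 4652 z (n 4652 z z))))))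
 (n 0 z z)))) (n 27 (n 0 z (n 0 z (n 1 (n 2164539 z (n 2164539 z (n 6559499 z (n 2164539 z (n
 2164539 z (n 7684963 z z)))))) (n 1 (n 2588 z (n 2588 z (n 2588 z (n 10 z (n 2588 z (n 7684963
 z z)))))) (n 1 (n 7742795 z (n 7742795 z (n 7742795 z (n 7742795 z (n 7742795 z (n 7684963 z
 z)))))) z))))) (n 179 (n 0 z (n 1 (n 3282699 z (n 3282699 z (n 3282699 z (n 7607051 z (n
 3282699 z (n 3282699 z z)))))) (n 0 z (n 1 (n 7684387 z (n 7684387 z (n 7684387 z (n 7684387 z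
 (n 7684387 z (n 7684387 z z)))))) z)))) (n 183 (n 1 (n 3282699 z (n 3282699 z (n 3282699 z (n
 7607051 z (n 3282699 z (n 3282699 z z)))))) (n 0 z (n 1 (n 7684387 z (n 7684387 z (n 7684387 z
 (n 7684387 z (n 7684387 z (n 7684387 z z)))))) (n 0 z (n 1 (n 7684963 z (n 7684963 z (n 7684963
 z (n 7684963 z (n 7684963 z (n 7684963 z z)))))) z))))) (n 27 (n 0 z (n 0 z (n 1 (n 2164539 z
 (n 2164539 z (n 2164539 z (n 7607051 z (n 2164539 z (n 2164539 z z)))))) (n 1 (n 1468 z (n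
 7607051 z (n 1468 z (n 1468 z (n 7734331 z (n 5449579 z z)))))) (n 1 (n 7742795 z (n 7742795 z
 (n 7607051 z (n 7742795 z (n 7742795 z (n 7734331 z z)))))) z))))) z))))))) (n 0 (n 0 (n 0 z (n
 0 z z)) (n 0 (n 0 z z) z)) (n 0 (n 551 (n 0 (n 0 z (n 0 z z)) (n 0 (n 0 z (n 0 z z)) (n 0 (n 0
 z (n 0 z z)) (n 0 (n 0 z (n 0 z z)) (n 0 (n 0 z (n 0 z z)) (n 0 (n 0 z (n 0 z z)) (n 0 (n 0 z
 (n 0 z z)) (n 0 (n 0 z (n 0 z z)) (n 0 (n 0 z (n 0 z z)) (n 0 (n 0 z (n 0 z z)) (n 0 (n 0 z (n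
 0 z z)) z))))))))))) (n 185 (n 0 (n 0 z (n 0 z z)) (n 0 (n 0 z (n 0 z z)) (n 0 (n 0 z (n 0 z
 z)) (n 0 (n 0 z (n 0 z z)) z)))) (n 581 (n 0 (n 0 z (n 0 z z)) (n 0 (n 0 z (n 0 z z)) (n 0 (n 0
 z (n 0 z z)) (n 0 (n 0 z (n 0 z z)) (n 0 (n 0 z (n 0 z z)) (n 0 (n 0 z (n 0 z z)) (n 0 (n 0 z
 (n 0 z z)) (n 0 (n 0 z (n 0 z z)) (n 0 (n 0 z (n 0 z z)) (n 0 (n 0 z (n 0 z z)) (n 0 (n 0 z (n
 0 z z)) (n 0 (n 0 z (n 0 z z)) (n 0 (n 0 z (n 0 z z)) (n 0 (n 0 z (n 0 z z)) z)))))))))))))) (n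
 323 (n 0 (n 0 z (n 0 z z)) (n 0 (n 0 z (n 0 z z)) (n 0 (n 0 z (n 0 z z)) (n 0 (n 0 z (n 0 z z))
 (n 0 (n 0 z (n 0 z z)) (n 0 (n 0 z (n 0 z z)) (n 0 (n 0 z (n 0 z z)) (n 0 (n 0 z (n 0 z z))
 z)))))))) (n 257 (n 0 (n 0 z (n 0 z z)) (n 0 (n 0 z (n 0 z z)) (n 0 (n 0 z (n 0 z z)) (n 0 (n 0
 z (n 0 z z)) (n 0 (n 0 z (n 0 z z)) (n 0 (n 0 z (n 0 z z)) (n 0 (n 0 z (n 0 z z)) z))))))) (n
 135 (n 0 (n 0 z (n 0 z z)) (n 0 (n 0 z (n 0 z z)) (n 0 (n 0 z (n 0 z z)) (n 0 (n 0 z (n 0 z z))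
 (n 0 (n 0 z (n 0 z z)) (n 0 (n 0 z (n 0 z z)) (n 0 (n 0 z (n 0 z z)) (n 0 (n 0 z (n 0 z z))
 z)))))))) (n 179 (n 0 (n 0 z (n 0 z z)) (n 0 (n 0 z (n 0 z z)) (n 0 (n 0 z (n 0 z z)) (n 0 (n 0
 z (n 0 z z)) z)))) (n 39 (n 0 (n 0 z (n 0 z z)) (n 0 (n 0 z (n 0 z z)) (n 0 (n 0 z (n 0 z z))
 (n 0 (n 0 z (n 0 z z)) (n 0 (n 0 z (n 0 z z)) (n 0 (n 0 z (n 0 z z)) (n 0 (n 0 z (n 0 z z)) (n
 0 (n 0 z (n 0 z z)) (n 0 (n 0 z (n 0 z z)) (n 0 (n 0 z (n 0 z z)) (n 0 (n 0 z (n 0 z z)) (n 0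
 (n 0 z (n 0 z z)) (n 0 (n 0 z (n 0 z z)) z))))))))))))) (n 129 (n 0 (n 0 z (n 0 z z)) (n 0 (n 0
 z (n 0 z z)) (n 0 (n 0 z (n 0 z z)) (n 0 (n 0 z (n 0 z z)) (n 0 (n 0 z (n 0 z z)) (n 0 (n 0 z
 (n 0 z z)) z)))))) (n 27 (n 0 (n 0 z (n 0 z z)) (n 0 (n 0 z (n 0 z z)) (n 0 (n 0 z (n 0 z z))
 (n 0 (n 0 z (n 0 z z)) (n 0 (n 0 z (n 0 z z)) (n 0 (n 0 z (n 0 z z)) (n 0 (n 0 z (n 0 z z)) (n
 0 (n 0 z (n 0 z z)) (n 0 (n 0 z (n 0 z z)) (n 0 (n 0 z (n 0 z z)) (n 0 (n 0 z (n 0 z z))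
 z))))))))))) (n 183 (n 0 (n 0 z (n 0 z z)) (n 0 (n 0 z (n 0 z z)) (n 0 (n 0 z (n 0 z z)) (n 0
 (n 0 z (n 0 z z)) (n 0 (n 0 z (n 0 z z)) z))))) (n 47 (n 0 (n 0 z (n 0 z z)) (n 0 (n 0 z (n 0 z
 z)) (n 0 (n 0 z (n 0 z z)) (n 0 (n 0 z (n 0 z z)) (n 0 (n 0 z (n 0 z z)) (n 0 (n 0 z (n 0 z z))
 (n 0 (n 0 z (n 0 z z)) z))))))) (n 129 (n 0 (n 0 z (n 0 z z)) (n 0 (n 0 z (n 0 z z)) (n 0 (n 0
 z (n 0 z z)) (n 0 (n 0 z (n 0 z z)) (n 0 (n 0 z (n 0 z z)) (n 0 (n 0 z (n 0 z z)) (n 0 (n 0 z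
 (n 0 z z)) z))))))) (n 29 (n 0 (n 0 z (n 0 z z)) (n 0 (n 0 z (n 0 z z)) (n 0 (n 0 z (n 0 z z))
 (n 0 (n 0 z (n 0 z z)) (n 0 (n 0 z (n 0 z z)) (n 0 (n 0 z (n 0 z z)) (n 0 (n 0 z (n 0 z z)) (n
 0 (n 0 z (n 0 z z)) (n 0 (n 0 z (n 0 z z)) z))))))))) (n 28 (n 0 (n 0 z (n 0 z z)) (n 0 (n 0 z
 (n 0 z z)) (n 0 (n 0 z (n 0 z z)) (n 0 (n 0 z (n 0 z z)) (n 0 (n 0 z (n 0 z z)) (n 0 (n 0 z (n
 0 z z)) (n 0 (n 0 z (n 0 z z)) (n 0 (n 0 z (n 0 z z)) z)))))))) (n 183 (n 0 (n 0 z (n 0 z z))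
 (n 0 (n 0 z (n 0 z z)) (n 0 (n 0 z (n 0 z z)) (n 0 (n 0 z (n 0 z z)) (n 0 (n 0 z (n 0 z z)) (n
 0 (n 0 z (n 0 z z)) (n 0 (n 0 z (n 0 z z)) (n 0 (n 0 z (n 0 z z)) (n 0 (n 0 z (n 0 z z)) (n 0
 (n 0 z (n 0 z z)) z)))))))))) (n 257 (n 0 (n 0 z (n 0 z z)) (n 0 (n 0 z (n 0 z z)) (n 0 (n 0 z
 (n 0 z z)) (n 0 (n 0 z (n 0 z z)) (n 0 (n 0 z (n 0 z z)) (n 0 (n 0 z (n 0 z z)) (n 0 (n 0 z (n
 0 z z)) (n 0 (n 0 z (n 0 z z)) (n 0 (n 0 z (n 0 z z)) (n 0 (n 0 z (n 0 z z)) (n 0 (n 0 z (n 0 z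
 z)) (n 0 (n 0 z (n 0 z z)) (n 0 (n 0 z (n 0 z z)) (n 0 (n 0 z (n 0 z z)) (n 0 (n 0 z (n 0 z z))
 z))))))))))))))) (n 129 (n 0 (n 0 z (n 0 z z)) (n 0 (n 0 z (n 0 z z)) (n 0 (n 0 z (n 0 z z)) (n
 0 (n 0 z (n 0 z z)) (n 0 (n 0 z (n 0 z z)) (n 0 (n 0 z (n 0 z z)) z)))))) (n 27 (n 0 (n 0 z (n
 0 z z)) (n 0 (n 0 z (n 0 z z)) (n 0 (n 0 z (n 0 z z)) (n 0 (n 0 z (n 0 z z)) (n 0 (n 0 z (n 0 z
 z)) z))))) (n 1 (n 0 (n 0 z (n 0 z z)) (n 0 (n 0 z (n 0 z z)) (n 0 (n 0 z (n 0 z z)) (n 0 (n 0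
 z (n 0 z z)) (n 0 (n 0 z (n 0 z z)) (n 0 (n 0 z (n 0 z z)) (n 0 (n 0 z (n 0 z z)) (n 0 (n 0 z
 (n 0 z z)) (n 0 (n 0 z (n 0 z z)) z))))))))) (n 0 (n 0 (n 0 z (n 0 z z)) (n 0 (n 0 z (n 0 z z))
 (n 0 (n 0 z (n 0 z z)) (n 0 (n 0 z (n 0 z z)) (n 0 (n 0 z (n 0 z z)) (n 0 (n 0 z (n 0 z z)) (n
 0 (n 0 z (n 0 z z)) (n 0 (n 0 z (n 0 z z)) (n 0 (n 0 z (n 0 z z)) (n 0 (n 0 z (n 0 z z)) (n 0
 (n 0 z (n 0 z z)) (n 0 (n 0 z (n 0 z z)) (n 0 (n 0 z (n 0 z z)) (n 0 (n 0 z (n 0 z z))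
 z)))))))))))))) z))))))))))))))))))))) z)))) z) z)))) z)))))))))), by decide +kernel⟩
theorem i10496 : ∃ t, chkR KT RW t 10496 10506 = true := ⟨(n
 0x70936b0497b40caae0255708263a6815c240 (n 0 (n 309 (n 2 z (n
 0xca8ca82037e08608207df82082081f8608208207a08618208608207df8208207a08208a08208208208200801 z (n
 10 z (n
 0x54c99410060990b28200c16545421038aca8c6420389e8616e075d8217dc8a38a07e28268a089a8a17de6e382082282282289c8e779f7a27608a02001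
 z (n 0 z (n 0 z (n 6631459 z (n 6631459 z (n 6619947 z (n 6619947 z (n 0 z (n 0 z z))))))))))))
 (n 293 (n 18 z (n
 0x165153040380ca8ca800379f86176189e86089f7e18218617e17e07de8218218207df82082182086085f86081f81f8201001
 z (n 3278363 z (n 4400667 z (n 0 z (n 0 z (n 0 z (n
 0xca8ca80037a08a07a17e07e08207e17e186086081f8208207e17a081f81f8207e08208618208607e08200801 z
 z)))))))) (n 9 (n 6627379 z (n 26 z (n 34 z z))) (n 3 (n 6631459 z (n 42 z (n 0 z z))) (n 1 (n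
 0 z (n 0 z (n 0 z (n 0 z (n 0 z (n 0 z (n 6563131 z z))))))) (n 0 (n 0 z (n 0 z (n 0 z (n 0 z
 (n 0 z (n 0 z (n 0 z (n 50 z (n
 0x2ca88642037df8a07a07e08a085b85c89f81e8648617df8a089d7a385e76286386081f8627a07627e08600801 z
 (n 0 z (n
 0xcca88602039216df85e8e78e36e28e381e7208218e285e7e07dd6e29228218a092281c7df7a07627e28610801 z
 (n 0 z (n 0 z (n
 0xcc84c8420396651ab9b8a26e05f456d5e58246558a1a968eb3efd935deb566cea5fb20793a60a1589f7a10801 z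
 (n 0 z (n 6631459 z (n 6619947 z z))))))))))))))))) z)))))) (n 9 (n 0 (n 0 z (n 503 (n 0 z (n 0
 z (n 0 z (n 0 z (n 0 z (n 0 z (n 0 z z))))))) (n 31 (n 0 z (n 0 z (n 0 z (n 0 z z)))) (n 31 (n
 0 z (n 0 z (n 0 z (n 2 (n 1 z (n 1 z z)) z)))) (n 55 (n 0 z (n 0 z (n 0 z (n 0 z (n 0 z (n 0 z
 (n 0 z z))))))) (n 53 (n 0 z (n 0 z (n 0 z (n 0 z (n 0 z (n 0 z (n 0 z (n 0 z (n 0 z z)))))))))
 z)))))) (n 0 (n 523 (n 0 z (n 0 z (n 0 z (n 0 z (n 0 z (n 0 z (n 0 z z))))))) (n 971 (n 0 z (n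
 0 z (n 0 z (n 0 z (n 0 z (n 0 z (n 0 z (n 0 z (n 0 z (n 0 z (n 0 z z))))))))))) (n 971 (n 0 z
 (n 0 z (n 0 z (n 0 z (n 0 z (n 0 z (n 0 z (n 0 z (n 2 (n 2 (n 0 z (n 0 z (n 0 z (n 0 z (n 0 z
 (n 0 z z)))))) (n 2 (n 0 z (n 0 z (n 0 z (n 0 z (n 0 z (n 0 z z)))))) z)) (n 0 z (n 0 z
 z))))))))))) (n 525 (n 2 (n 1 z z) (n 0 z (n 0 z (n 0 z (n 0 z (n 0 z (n 0 z z))))))) (n 77 (n
 0 z (n 2 z (n 0 z (n 0 z (n 0 z (n 0 z (n 0 z (n 0 z (n 0 z (n 0 z (n 0 z (n 0 z (n 0 z (n 0 z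
 (n 0 z (n 0 z (n 0 z (n 0 z z)))))))))))))))))) z))))) (n 0 (n 19 (n 0 z (n 0 z (n 0 z (n 0 z
 (n 0 z (n 0 z (n 0 z z))))))) (n 19 (n 0 z (n 0 z (n 0 z (n 0 z (n 0 z (n 0 z (n 2 (n 1 z (n 1
 z z)) z))))))) (n 295 (n 0 z (n 0 z (n 0 z (n 0 z (n 0 z (n 0 z (n 0 z (n 0 z z)))))))) (n 293
 (n 0 z (n 0 z (n 0 z (n 0 z (n 0 z (n 0 z (n 0 z (n 0 z (n 0 z z))))))))) z)))) (n 0 (n 0 z (n
 535 (n 0 z (n 0 z (n 0 z (n 0 z (n 0 z z))))) (n 533 (n 0 z (n 0 z (n 0 z (n 0 z (n 0 z (n 0 z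
 (n 0 z (n 0 z (n 0 z (n 0 z (n 0 z (n 0 z (n 0 z (n 0 z (n 0 z (n 0 z (n 0 z (n 0 z (n 0 z (n 0
 z (n 0 z (n 0 z (n 0 z (n 0 z (n 0 z (n 0 z (n 0 z (n 0 z z)))))))))))))))))))))))))))) z))) (n
 0 (n 7 (n 0 z (n 0 z (n 2 (n 1 z z) z))) (n 49 (n 2 z (n 0 z (n 0 z (n 0 z (n 0 z (n 0 z (n 0 z
 z))))))) z)) (n 0 (n 721 (n 0 z (n 0 z (n 0 z (n 0 z (n 0 z (n 0 z (n 0 z (n 0 z (n 0 z (n 0 z
 (n 0 z (n 0 z (n 0 z (n 0 z (n 0 z (n 0 z (n 0 z (n 0 z z)))))))))))))))))) z) (n 0 z z)))))))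
 (n 0 (n 1 (n 6627379 z (n 6627379 z (n 6631459 z (n 6627379 z (n 6627379 z (n 6627379 z z))))))
 (n 1 (n 12 z (n 2476 z (n 6631459 z (n 6619947 z (n 2476 z (n 2476 z z)))))) (n 1 (n 2476 z (n
 2476 z (n 6631459 z (n 5375515 z (n 2476 z (n 2476 z z)))))) z))) (n 0 z z)))) (n
 0x3892b84daca224a56124f681a55c092da508d710463aa815c480 (n 0x2b892 (n 309 (n
 0xca8ca820781807f80808081818080808080817f808080808082807f7f80807f808080818180808080828080807e8080808080808080800809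
 z (n 2 z (n
 0x2ca8a8420380817f7f837f81807e7f80837f827f8181817f7c7f8180827e817e82827e7f82827e7e7e7f808081807f8381827e82817e800809
 z (n 10 z (n 0 z (n 0 z (n 0 z (n 6631459 z (n 6619947 z (n 6619947 z (n 0 z (n 0 z
 z)))))))))))) (n 293 (n
 0x54c994500600ca8ca800782827f80827f7d80817f7e80817f807f7f808180818281808080807e827f807d8181807f8181807f7f807f817f80808081801009
 z (n 18 z (n 0 z (n 3278363 z (n 0 z (n 0 z (n 0 z (n 26 z z)))))))) (n 9 (n 6627379 z (n 0 z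
 (n 34 z (n 0 z (n 42 z z))))) (n 3 (n 6631459 z (n 50 z (n 0 z (n 0 z z)))) (n 1 (n
 0x119514c040606ca8a6200789817881887b7d837f8478858383807b7a847a81857e85788386807d837d807f848081828782807f7d7e807d7f7d817f837f1009
 z (n
 0x199514c840e0cca8a6020385887c82828079817d7e7e8084817d7d7e7d8080847e8181828084797c8087828680837e81877f757d8280807f857f8483821009
 z (n
 0xcca2ca20078581827d817b7d84827e7980887c817c7c7b7e857d897f898186847a857d847b82827c8489847f7c7d827d826a87858a81800809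
 z (n
 0xc42c420077f8180817f81808180807f80818081807f81807e817f827f807f80807f8081818080817f7f807f8181807f8081817f7e81800809
 z (n 0 z (n 0 z (n
 0x10063250b701803192859804018c9424c00000a6840882807e80808081828180808080807f807f7f81807f7f7f808181808180817f7f807f8082827e7e827f7e7f807f807f8082802009
 z (n 58 z (n 66 z (n 6563131 z z)))))))))) (n 0 (n 6631459 z (n 0 z (n 0 z (n
 0x2ca886420781817e80828081807e807f857f847e8180827f7c7f7f81817e807e83827d7f82837e7f7d7f8080817f7e8280837e81807f800809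
 z (n 74 z (n 0 z (n
 0xeca8860203888379818180838882807887858a817d7882817f897c857a80817e7772828b898183887f838880767d7f7e8185847e85837f0809
 z (n 0 z (n
 0x2642ca080783827e8080807f8480807e828382807e7d7e8181828181807f7f817b798285848081848082867f7b7f817e8080837e8282810809
 z (n 0 z (n 0 z (n
 0x10c84c84203898a7176937681867c80719b729173857e85747381848b7485936894a26c727b9673776e92808d807b6e8a7e827384827f820809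
 z (n
 0x4c84c8420383837b7d877d80827f807b897c857c827f817c7c8281847c828678878b797c7f877c7d7a8680857f7e7a837f807c82827f810809
 z (n 6631459 z (n 6619947 z z))))))))))))))) z)))))) (n 3 (n 0 (n 0 z (n 503 (n 0 z (n 0 z (n 0
 z (n 0 z (n 0 z (n 0 z (n 0 z z))))))) (n 503 (n 0 z (n 0 z (n 0 z (n 0 z (n 0 z (n 0 z (n 2 (n
 2 (n 0 z (n 0 z (n 0 z (n 0 z (n 0 z (n 0 z z)))))) (n 2 (n 0 z (n 0 z (n 0 z (n 0 z (n 0 z (n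
 0 z z)))))) (n 2 (n 0 z (n 0 z (n 0 z (n 0 z (n 0 z (n 0 z z)))))) (n 2 (n 0 z (n 0 z (n 0 z (n
 0 z (n 0 z (n 0 z z)))))) (n 1 z (n 2 (n 0 z (n 0 z (n 0 z (n 0 z (n 0 z (n 0 z z)))))) z))))))
 z))))))) (n 31 (n 0 z (n 0 z (n 0 z (n 0 z z)))) (n 31 (n 0 z (n 0 z (n 0 z (n 2 (n 1 z (n 2 (n
 0 z (n 0 z (n 0 z (n 0 z (n 0 z (n 0 z z)))))) (n 1 z (n 1 z z)))) z)))) (n 55 (n 0 z (n 0 z (n
 0 z (n 0 z (n 0 z (n 0 z (n 0 z z))))))) (n 51 (n 0 z (n 0 z (n 0 z z))) (n 51 (n 0 z (n 0 z (n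
 0 z z))) (n 53 (n 0 z (n 0 z (n 0 z (n 0 z (n 0 z (n 0 z (n 0 z (n 0 z z)))))))) z))))))))) (n
 0 (n 523 (n 0 z (n 0 z (n 0 z (n 0 z (n 0 z (n 0 z (n 0 z z))))))) (n 523 (n 0 z (n 0 z (n 0 z
 (n 0 z (n 0 z (n 2 (n 2 (n 0 z (n 0 z (n 0 z (n 0 z (n 0 z (n 0 z z)))))) (n 1 z (n 2 (n 0 z (n
 0 z (n 0 z (n 0 z (n 0 z (n 0 z z)))))) (n 2 (n 0 z (n 0 z (n 0 z (n 0 z (n 0 z (n 0 z z))))))
 (n 1 z (n 2 (n 0 z (n 0 z (n 0 z (n 0 z (n 0 z (n 0 z z)))))) z)))))) (n 0 z z))))))) (n 971 (n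
 0 z (n 0 z (n 0 z (n 0 z (n 0 z (n 0 z (n 0 z (n 0 z (n 0 z (n 0 z (n 0 z z))))))))))) (n 971
 (n 0 z (n 0 z (n 0 z (n 0 z (n 0 z (n 0 z (n 0 z (n 0 z (n 2 (n 2 (n 0 z (n 0 z (n 0 z (n 0 z
 (n 0 z (n 0 z z)))))) (n 2 (n 0 z (n 0 z (n 0 z (n 0 z (n 0 z (n 0 z z)))))) (n 1 z (n 2 (n 0 z
 (n 0 z (n 0 z (n 0 z (n 0 z (n 0 z z)))))) z)))) (n 0 z (n 0 z z))))))))))) (n 525 (n 2 (n 1 z
 (n 1 z (n 1 z z))) (n 0 z (n 0 z (n 0 z (n 0 z (n 0 z (n 0 z z))))))) (n 521 (n 0 z (n 0 z (n 0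
 z (n 0 z (n 0 z (n 0 z (n 0 z (n 0 z (n 0 z (n 0 z (n 0 z (n 0 z (n 0 z (n 0 z (n 0 z
 z))))))))))))))) (n 521 (n 0 z (n 0 z (n 0 z (n 0 z (n 0 z (n 0 z (n 0 z (n 0 z (n 0 z (n 0 z
 (n 0 z (n 0 z (n 0 z (n 0 z (n 0 z z))))))))))))))) (n 77 (n 0 z (n 0 z (n 2 z (n 0 z (n 0 z (n
 0 z (n 0 z (n 0 z (n 0 z (n 0 z (n 0 z z))))))))))) z)))))))) (n 0 (n 0 z (n 19 (n 0 z (n 0 z
 (n 0 z (n 0 z (n 0 z (n 0 z (n 0 z (n 0 z z)))))))) (n 19 (n 0 z (n 0 z (n 0 z (n 0 z (n 0 z (n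
 0 z (n 0 z (n 2 (n 1 z (n 2 (n 0 z (n 0 z (n 0 z (n 0 z (n 0 z (n 0 z z)))))) (n 1 z (n 1 z
 z)))) z)))))))) (n 295 (n 0 z (n 0 z (n 0 z (n 0 z (n 0 z (n 0 z (n 0 z (n 0 z (n 0 z (n 0 z (n
 0 z z))))))))))) (n 291 (n 0 z (n 0 z (n 0 z (n 0 z (n 0 z z))))) (n 291 (n 0 z (n 0 z (n 0 z
 (n 0 z (n 0 z z))))) (n 293 (n 0 z (n 0 z (n 0 z (n 0 z (n 0 z (n 0 z (n 0 z (n 0 z (n 0 z
 z))))))))) z))))))) (n 0 (n 23 (n 2 (n 0 z (n 2 (n 0 z (n 0 z (n 0 z (n 0 z (n 0 z (n 0 z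
 z)))))) (n 2 (n 0 z (n 0 z (n 0 z (n 0 z (n 0 z (n 0 z z)))))) (n 1 z (n 2 (n 0 z (n 0 z (n 0 z
 (n 0 z (n 0 z (n 0 z z)))))) z))))) (n 0 z (n 0 z (n 0 z z)))) (n 23 (n 0 z (n 0 z (n 0 z (n 0
 z z)))) (n 11 (n 0 z (n 2 (n 2 (n 0 z (n 0 z (n 0 z (n 0 z (n 0 z (n 0 z z)))))) (n 2 (n 0 z (n
 0 z (n 0 z (n 0 z (n 0 z (n 0 z z)))))) (n 1 z z))) (n 0 z (n 0 z z)))) (n 15 (n 0 z (n 0 z (n
 0 z (n 0 z (n 0 z (n 0 z (n 0 z (n 0 z (n 0 z (n 0 z z)))))))))) (n 15 (n 0 z (n 0 z (n 0 z (n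
 0 z (n 0 z (n 0 z (n 0 z (n 0 z (n 0 z (n 7749971 z z)))))))))) (n 13 (n 2 z (n 0 z (n 0 z (n 0
 z (n 0 z z))))) z)))))) (n 0 (n 0 z (n 535 (n 0 z (n 0 z (n 0 z (n 0 z z)))) (n 51 (n 0 z (n 0
 z (n 0 z (n 0 z z)))) (n 51 (n 0 z (n 0 z (n 0 z (n 0 z z)))) (n 533 (n 0 z (n 0 z (n 0 z (n 0
 z (n 0 z (n 0 z (n 0 z (n 0 z (n 0 z (n 0 z (n 0 z (n 0 z (n 0 z (n 0 z (n 0 z (n 0 z (n 0 z (n
 0 z (n 0 z (n 0 z (n 0 z (n 0 z z)))))))))))))))))))))) z))))) (n 0 (n 7 (n 0 z (n 0 z (n 2 (n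
 1 z (n 1 z (n 1 z z))) z))) (n 51 (n 0 z (n 2 (n 0 z (n 1 z z)) (n 0 z (n 0 z z)))) (n 51 (n 0
 z (n 0 z (n 0 z (n 0 z z)))) (n 49 (n 2 z (n 0 z (n 0 z (n 0 z (n 0 z (n 0 z z)))))) z)))) (n 0
 (n 723 (n 0 z (n 0 z (n 0 z (n 0 z (n 0 z z))))) (n 723 (n 0 z (n 0 z (n 0 z (n 0 z (n 0 z
 z))))) (n 721 (n 0 z (n 0 z (n 0 z (n 0 z (n 0 z (n 0 z (n 0 z (n 0 z (n 0 z (n 0 z (n 0 z (n 0
 z (n 0 z (n 0 z (n 0 z (n 0 z (n 0 z z))))))))))))))))) z))) (n 0 (n 0 z (n 961 (n 0 z (n 0 z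
 (n 0 z (n 0 z (n 0 z (n 0 z (n 0 z (n 0 z (n 0 z (n 0 z (n 0 z (n 0 z z)))))))))))) z)) (n 0 (n
 1 (n 0 z (n 0 z (n 0 z (n 0 z (n 0 z z))))) z) (n 0 z z)))))))))) (n 0 (n 1 (n 6631459 z (n
 6631459 z (n 6631459 z (n 6631459 z (n 6631459 z (n 6631459 z z)))))) (n 1 (n 2476 z (n 3280995
 z (n 6627379 z (n 2 z (n 6563131 z (n 2476 z z)))))) (n 0 z (n 0 z z)))) (n 0 (n 0x9b40d2 (n 0
 (n 0 (n 7746059 z (n 7475299 z (n 7746059 z (n 7746059 z (n 7746059 z (n 7746059 z z)))))) z)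
 (n 0 (n 25 (n 1 (n 7475299 z (n 7475299 z (n 7475299 z (n 7475299 z (n 7475299 z (n 7475299 z
 z)))))) (n 1 (n 7680035 z (n 7680035 z (n 7680035 z (n 7680035 z (n 7680035 z (n 7680035 z
 z)))))) (n 1 (n 7750171 z (n 7750171 z (n 7750171 z (n 7750171 z (n 7750171 z (n 7750171 z
 z)))))) z))) (n 145 (n 0 z (n 0 z (n 0 z (n 1 (n 7475299 z (n 7475299 z (n 7475299 z (n 7475299
 z (n 7475299 z (n 7475299 z z)))))) (n 1 (n 7611707 z (n 7611707 z (n 7611707 z (n 5515035 z (n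
 7611707 z (n 7611707 z z)))))) z))))) (n 279 (n 1 (n 7675955 z (n 7675955 z (n 7675955 z (n
 7675955 z (n 7675955 z (n 7675955 z z)))))) (n 1 (n 7475299 z (n 7475299 z (n 7475299 z (n
 7475299 z (n 7475299 z (n 7475299 z z)))))) (n 1 (n 7675955 z (n 7675955 z (n 7675955 z (n
 7675955 z (n 7675955 z (n 7675955 z z)))))) (n 1 (n 268 z (n 2 z (n 6555451 z (n 7673355 z (n
 268 z (n 7546123 z z)))))) z)))) (n 387 (n 1 (n 7475299 z (n 7475299 z (n 7680035 z (n 7475299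
 z (n 7475299 z (n 7475299 z z)))))) (n 1 (n 7546123 z (n 7546123 z (n 7680035 z (n 7546123 z (n
 7546123 z (n 7546123 z z)))))) (n 0 z (n 1 (n 3340 z (n 7746059 z (n 7680035 z (n 5375771 z (n
 28 z (n 3340 z z)))))) z)))) (n 537 (n 1 (n 7475299 z (n 7475299 z (n 7475299 z (n 7475299 z (n
 7475299 z (n 7475299 z z)))))) (n 1 (n 7680035 z (n 7680035 z (n 7680035 z (n 7680035 z (n
 7680035 z (n 7680035 z z)))))) (n 1 (n 7750171 z (n 7750171 z (n 7673355 z (n 7746059 z (n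
 7750171 z (n 7546123 z z)))))) z))) (n 659 (n 1 (n 7475299 z (n 7475299 z (n 7475299 z (n
 7475299 z (n 7475299 z (n 7475299 z z)))))) (n 1 (n 7680035 z (n 7680035 z (n 7680035 z (n
 7680035 z (n 7680035 z (n 7680035 z z)))))) (n 1 (n 7680035 z (n 7680035 z (n 7680035 z (n
 7680035 z (n 7680035 z (n 7680035 z z)))))) (n 0 z (n 1 (n 5228 z (n 7746059 z (n 7673355 z (n
 5228 z (n 5228 z (n 5228 z z)))))) (n 1 (n 5228 z (n 4261739 z (n 7673355 z (n 5228 z (n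
 7746059 z (n 5228 z z)))))) (n 1 (n 5228 z (n 4327195 z (n 5228 z (n 7746059 z (n 7673355 z (n
 4804 z z)))))) (n 1 (n 7668523 z (n 7668523 z (n 7668523 z (n 7668523 z (n 7673355 z (n 4399219
 z z)))))) z)))))))) (n 3 (n 1 (n 7680035 z (n 7680035 z (n 7680035 z (n 7680035 z (n 7680035 z
 (n 7680035 z z)))))) (n 1 (n 7746059 z (n 3281011 z (n 7675955 z (n 7746059 z (n 7746059 z (n
 7746059 z z)))))) (n 0 z (n 0 z z)))) z))))))) (n 0 (n 0 (n 0 z z) z) (n 0 (n 275 (n 0 (n 0 z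
 z) (n 0 (n 0 z z) (n 0 (n 0 z z) (n 0 (n 0 z z) (n 0 (n 0 z z) (n 0 (n 0 z z) (n 0 (n 0 z z)
 z))))))) (n 279 (n 0 (n 0 z z) (n 0 (n 0 z z) (n 0 (n 0 z z) (n 0 (n 0 z z) z)))) (n 33 (n 0 (n
 0 z z) (n 0 (n 0 z z) (n 0 (n 0 z z) (n 0 (n 0 z z) (n 0 (n 0 z z) (n 0 (n 0 z z) (n 0 (n 0 z
 z) (n 0 (n 0 z z) z)))))))) (n 417 (n 0 (n 0 z z) (n 0 (n 0 z z) (n 0 (n 0 z z) (n 0 (n 0 z z)
 (n 0 (n 0 z z) (n 0 (n 0 z z) (n 0 (n 0 z z) z))))))) (n 411 (n 0 (n 0 z z) (n 0 (n 0 z z) (n 0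
 (n 0 z z) (n 0 (n 0 z z) (n 0 (n 0 z z) (n 0 (n 0 z z) (n 0 (n 0 (n 8794635 z (n 8794635 z z))
 z) (n 0 (n 0 z z) (n 0 (n 0 z z) (n 0 (n 0 z z) (n 0 (n 0 z z) z))))))))))) (n 387 (n 0 (n 0 z
 z) (n 0 (n 0 z z) (n 0 (n 0 z z) (n 0 (n 0 z z) z)))) (n 537 (n 0 (n 0 z z) (n 0 (n 0 z z) (n 0
 (n 0 z z) z))) (n 531 (n 0 (n 0 z z) (n 0 (n 0 z z) (n 0 (n 0 z z) (n 0 (n 0 z z) (n 0 (n 0 z
 z) z))))) (n 75 (n 0 (n 0 z z) (n 0 (n 0 z z) (n 0 (n 0 z z) (n 0 (n 0 z z) z)))) (n 481 (n 0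
 (n 0 z z) (n 0 (n 0 z z) (n 0 (n 0 z z) (n 0 (n 0 z z) (n 0 (n 0 z z) z))))) (n 659 (n 0 (n 0 z
 z) (n 0 (n 0 z z) (n 0 (n 0 z z) (n 0 (n 0 z z) (n 0 (n 0 z z) (n 0 (n 0 z z) (n 0 (n 0 z z) (n
 0 (n 0 z z) z)))))))) (n 653 (n 0 (n 0 z z) (n 0 (n 0 z z) (n 0 (n 0 z z) (n 0 (n 0 z z) (n 0
 (n 0 z z) (n 0 (n 0 z z) (n 0 (n 0 z z) (n 0 (n 0 z z) (n 0 (n 0 z z) z))))))))) (n 629 (n 0 (n
 0 z z) (n 0 (n 0 z z) (n 0 (n 0 z z) (n 0 (n 0 z z) (n 0 (n 0 z z) (n 0 (n 0 z z) (n 0 (n 0 z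
 z) (n 0 (n 0 z z) (n 0 (n 0 z z) (n 0 (n 0 z z) (n 0 (n 0 (n 8721931 z (n 8721931 z z)) z) (n 0
 (n 0 z z) (n 0 (n 0 z z) (n 0 (n 0 z z) (n 0 (n 0 z z) (n 0 (n 0 z z) (n 0 (n 0 z z) (n 0 (n 0
 z z) (n 0 (n 0 z z) (n 0 (n 0 z z) (n 0 (n 0 z z) (n 0 (n 0 z z) z)))))))))))))))))))))) (n 601
 (n 0 (n 0 z z) (n 0 (n 0 z z) (n 0 (n 0 z z) (n 0 (n 0 z z) (n 0 (n 0 (n 8794635 z (n 8794635 z
 z)) z) (n 0 (n 0 z z) (n 0 (n 0 z z) (n 0 (n 0 z z) (n 0 (n 0 z z) (n 0 (n 0 z z) (n 0 (n 0 z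
 z) (n 0 (n 0 z z) (n 0 (n 0 z z) (n 0 (n 0 (n 8868675 z z) z) (n 0 (n 0 z z) (n 0 (n 0 z z) (n
 0 (n 0 z z) z))))))))))))))))) (n 600 (n 0 (n 0 z z) (n 0 (n 0 z z) (n 0 (n 0 z z) (n 0 (n 0 z
 z) (n 0 (n 0 z z) (n 0 (n 0 z z) (n 0 (n 0 z z) (n 0 (n 0 z z) (n 0 (n 0 z z) (n 0 (n 0 z z) (n
 0 (n 0 z z) (n 0 (n 0 z z) z)))))))))))) (n 309 (n 0 (n 0 z z) (n 0 (n 0 z z) (n 0 (n 0 z z) (n
 0 (n 0 z z) (n 0 (n 0 z z) (n 0 (n 0 z z) (n 0 (n 0 z z) (n 0 (n 0 z z) (n 0 (n 0 z z) (n 0 (n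
 0 z z) (n 0 (n 0 z z) (n 0 (n 0 z z) z)))))))))))) (n 293 (n 0 (n 0 z z) (n 0 (n 0 z z) (n 0 (n
 0 z z) (n 0 (n 0 z z) (n 0 (n 0 z z) (n 0 (n 0 z z) (n 0 (n 0 z z) (n 0 (n 0 z z) z)))))))) (n
 9 (n 0 (n 0 z z) (n 0 (n 0 z z) (n 0 (n 0 z z) (n 0 (n 0 z z) (n 0 (n 0 z z) z))))) (n 3 (n 0
 (n 0 z z) (n 0 (n 0 z z) (n 0 (n 0 z z) (n 0 (n 0 z z) z)))) (n 1 (n 0 (n 0 z z) (n 0 (n 0 (n
 8794635 z z) z) (n 0 (n 0 z z) (n 0 (n 0 z z) (n 0 (n 0 z z) (n 0 (n 0 z z) (n 0 (n 0 z z) (n 0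
 (n 0 z z) (n 0 (n 0 z z) (n 0 (n 0 z z) z)))))))))) (n 0 (n 0 (n 0 z z) (n 0 (n 0 z z) (n 0 (n
 0 z z) (n 0 (n 0 z z) (n 0 (n 0 z z) (n 0 (n 0 z z) (n 0 (n 0 z z) (n 0 (n 0 z z) (n 0 (n 0 (n
 8718107 z z) z) (n 0 (n 0 z z) (n 0 (n 0 z z) (n 0 (n 0 z z) (n 0 (n 0 z z) (n 0 (n 0 z z) (n 0
 (n 0 z z) z))))))))))))))) z))))))))))))))))))))) z)))) z) z)))) (n
 0xd6c7467a5bb312ad58255cc5ca96413b3d00 (n 0 (n 183 (n 0 z (n 0 z (n 0 z (n 0 z (n 0 z (n 0 z (n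
 0 z (n 6620219 z (n
 0xeca8ca86038a182082079f85a79e8238a07e175e79f81d7df82082081c7e08618208208e181f8207e08600801 z
 (n 0 z (n 6554139 z (n 0 z (n 0 z (n 6635571 z (n 0 z (n 0 z (n 2 z z))))))))))))))))) (n 255
 (n 6558475 z (n 0 z (n 10 z (n 0 z (n 0 z z))))) (n 171 (n 18 z (n 3212843 z (n 26 z (n 34 z
 z)))) (n 3 (n 6631491 z (n 0 z (n 0 z (n 0 z z)))) (n 1 (n 0 z (n 6635571 z (n 0 z (n 0 z z))))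
 (n 0 (n 0 z (n 0 z (n 6635571 z (n 0 z (n 0 z (n 0 z (n 0 z (n 42 z (n 0 z (n 0 z (n 0 z (n 50
 z (n 6620219 z z))))))))))))) z)))))) (n 171 (n 0 (n 1089 (n 0 z (n 0 z (n 0 z (n 0 z (n 0 z (n
 0 z (n 0 z (n 0 z (n 0 z (n 0 z (n 0 z (n 0 z (n 0 z (n 0 z z)))))))))))))) (n 775 (n 0 z (n 0
 z (n 0 z (n 2 (n 0 z (n 0 z (n 1 z (n 1 z z)))) (n 0 z (n 0 z (n 0 z z))))))) (n 775 (n 0 z (n
 0 z (n 0 z (n 0 z (n 0 z (n 0 z (n 7741523 z z))))))) (n 775 (n 0 z (n 0 z (n 0 z (n 0 z (n 0 z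
 (n 0 z (n 0 z z))))))) (n 365 (n 0 z (n 0 z (n 0 z (n 0 z (n 0 z (n 0 z (n 0 z z))))))) (n 365
 (n 2 z (n 0 z (n 0 z (n 0 z (n 0 z (n 0 z (n 0 z z))))))) z)))))) (n 0 (n 391 (n 0 z (n 0 z (n
 0 z (n 0 z z)))) (n 391 (n 0 z (n 7741699 z (n 0 z (n 0 z z)))) (n 391 (n 0 z (n 0 z (n 0 z (n
 0 z z)))) (n 293 (n 0 z (n 0 z (n 0 z (n 0 z (n 0 z (n 0 z (n 0 z (n 0 z (n 0 z (n 0 z (n 0 z
 (n 0 z (n 0 z (n 0 z (n 0 z (n 0 z (n 0 z (n 0 z z)))))))))))))))))) (n 293 (n 0 z (n 0 z (n 0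
 z (n 0 z (n 0 z (n 0 z (n 0 z (n 0 z (n 0 z (n 0 z (n 0 z (n 0 z (n 0 z (n 0 z (n 0 z (n 0 z (n
 0 z (n 0 z z)))))))))))))))))) z))))) (n 0 (n 0 z (n 0 z (n 341 (n 2 (n 0 z z) (n 0 z (n 0 z (n
 0 z (n 0 z (n 0 z (n 0 z z))))))) (n 341 (n 0 z (n 0 z (n 0 z (n 0 z (n 0 z (n 0 z (n 2 z
 z))))))) z)))) (n 0 (n 0 z (n 289 (n 0 z (n 0 z (n 0 z (n 0 z (n 0 z (n 0 z (n 0 z (n 0 z (n 0
 z (n 0 z (n 0 z (n 0 z (n 2 (n 0 z z) (n 0 z (n 0 z (n 0 z (n 0 z (n 0 z z)))))))))))))))))) (n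
 289 (n 0 z (n 0 z (n 0 z (n 0 z (n 0 z (n 0 z (n 0 z (n 0 z (n 0 z (n 0 z (n 0 z (n 0 z (n 0 z
 (n 0 z (n 0 z (n 2 z (n 0 z (n 0 z z)))))))))))))))))) z))) (n 0 (n 341 (n 0 z (n 0 z (n 0 z (n
 0 z (n 0 z (n 0 z (n 0 z (n 0 z (n 0 z z))))))))) (n 341 (n 0 z (n 0 z (n 0 z (n 0 z (n 0 z (n
 0 z (n 0 z (n 0 z (n 0 z z))))))))) z)) (n 0 (n 0 z z) (n 0 z z))))))) (n 0 (n 1 (n 1468 z (n
 1468 z (n 1468 z (n 1468 z (n 6554139 z (n 2164315 z z)))))) (n 1 (n 3212843 z (n 3212843 z (n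
 6554139 z (n 3212843 z (n 3212843 z (n 3212843 z z)))))) (n 1 (n 5379595 z (n 1468 z (n 1468 z
 (n 1468 z (n 1468 z (n 1468 z z)))))) (n 1 (n 1468 z (n 1468 z (n 1468 z (n 6554139 z (n 1468 z
 (n 2044 z z)))))) z)))) (n 0 z z)))) (n 0x6d5eb864ec22a6a14134cd62a4550d2 (n 0 (n 153 (n 0 z (n
 6496275 z (n 0 z z))) (n 33 (n 0 z (n 0 z (n 0 z (n 0 z (n 0 z (n 0 z (n 0 z (n 0 z (n 0 z (n
 6496515 z z)))))))))) (n 9 (n 2 z (n 0 z (n 10 z (n 6496523 z (n 6496515 z z))))) (n 243 (n 0 z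
 (n 6496515 z (n 18 z (n
 0x2ca6a4280391f7df7de75f7a462582571e8227277e395e81d82285e85b8e285c85f8df95f85f7267dc7620801 z
 (n 0 z (n 0 z (n 0 z (n 0 z (n 0 z (n 0 z (n 0 z (n 0 z (n 0 z (n 0 z (n
 0xca8ca020786081f81f7e07e17628617e08207a382189f81e82185f81e8a181f82086085e81f7e181f7a10801 z (n
 6496523 z (n 6496515 z z))))))))))))))))) (n 1 (n 26 z (n 2164299 z (n 0 z (n 34 z z)))) (n 0
 (n 0 z (n 0 z (n 0 z (n 0 z (n 6619931 z (n 0 z (n 42 z z))))))) z)))))) (n 153 (n 0 (n 0 z (n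
 681 (n 0 z (n 0 z (n 0 z (n 0 z (n 0 z (n 0 z (n 0 z z))))))) (n 15 (n 0 z (n 0 z (n 0 z (n 0 z
 (n 0 z (n 0 z (n 0 z z))))))) (n 15 (n 0 z (n 0 z (n 0 z (n 0 z (n 0 z (n 2 (n 1 z z) (n 0 z
 z))))))) (n 13 (n 0 z (n 0 z (n 0 z z))) z))))) (n 0 (n 681 (n 0 z (n 0 z (n 0 z (n 0 z (n 0 z
 (n 2 (n 1 z (n 1 z (n 2 (n 0 z (n 0 z (n 0 z (n 0 z (n 0 z (n 0 z z)))))) z))) (n 0 z z)))))))
 (n 99 (n 0 z (n 0 z (n 0 z (n 0 z (n 0 z (n 0 z (n 0 z z))))))) (n 99 (n 0 z (n 0 z (n 0 z (n 0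
 z (n 0 z (n 0 z (n 2 (n 1 z z) z))))))) (n 97 (n 0 z (n 0 z (n 0 z (n 0 z (n 0 z (n 0 z (n 0 z
 (n 0 z (n 0 z (n 0 z (n 0 z (n 0 z (n 0 z (n 0 z z)))))))))))))) z)))) (n 0 (n 51 (n 0 z (n 0 z
 (n 0 z (n 0 z (n 0 z (n 0 z (n 0 z (n 0 z z)))))))) (n 51 (n 0 z (n 0 z (n 0 z (n 0 z (n 0 z (n
 7750435 z (n 0 z (n 0 z z)))))))) (n 481 (n 0 z (n 0 z (n 0 z (n 0 z (n 0 z z))))) z))) (n 0 (n
 0 z (n 1 (n 0 z (n 0 z (n 0 z (n 0 z (n 0 z z))))) z)) (n 0 (n 241 (n 0 z (n 0 z (n 0 z (n 0 z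
 (n 7754803 z (n 0 z (n 0 z z))))))) z) (n 0 z z)))))) (n 0 (n 0 z (n 1 (n 6496515 z (n 6496275
 z (n 6496275 z (n 6496275 z (n 6496275 z (n 6496275 z z)))))) (n 0 z z))) (n 0 z z)))) (n
 0xdacd70ce5943b1c22b8e161c6cd82b45d11a (n 0 (n 153 (n 0 z (n 6496275 z (n 0 z z))) (n 33 (n 0 z
 (n 0 z (n 6496515 z z))) (n 9 (n
 0x2ca6a208038608e079f7de8216a47e17208207e689f96081f8207e081f8207e08607e08208217a18217e00801 z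
 (n 2 z (n
 0x2ca8a806038208e17608208207237e175f8207e585f8a18208207df7df8607e082082185f8217e18217e00801 z
 (n 10 z (n
 0x2ca8a826038208a17a085f8208227a085f8208227e17e08218207e18217a081f81f8207e18208608208200801 z
 (n 0 z (n 0 z (n 0 z (n 0 z (n 0 z (n 0 z (n 6496515 z (n 0 z (n 0 z (n 0 z (n 0 z (n 0 z (n 0
 z (n 0 z (n 0 z (n 6496523 z (n 6496523 z (n 6496515 z (n 6496515 z (n 6496515 z (n 6496515 z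
 (n 0 z (n 0 z (n 0 z z))))))))))))))))))))))))))))) (n 243 (n 0 z (n
 0x2ca6a208038608e079f7de8216a47e17208207e689f96081f8207e081f8207e08607e08208217a18217e00801 z
 (n 18 z (n
 0xca6a428038608208207e08207a18217e08207e27e186081f82082081f86081f82086089f81f82181f8200801 z (n
 0 z (n 0 z (n 0 z (n 0 z (n 0 z (n 0 z (n 0 z (n 0 z (n 0 z (n 6496515 z (n 0 z (n 6496515 z (n
 0 z (n 0 z (n 0 z (n 0 z (n 6496523 z (n 0 z (n 0 z (n 0 z (n 0 z (n 0 z (n 0 z (n 6496515 z (n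
 6496515 z z))))))))))))))))))))))))))))) (n 1 (n
 0x165452130380ca6ca640789f8607e179f7e17a17e275e8228257a185f81f82179f81c7e28227e08608df81e7a381f7a11001
 z (n 26 z (n 3212875 z (n 2164299 z (n 0 z (n 34 z (n
 0xca6ca640789e8617a07627a27e082081f8217a176289e81f8217df86082286081f86181f85f82289d7610801 z (n
 42 z z)))))))) (n 0 (n 0 z (n 0 z (n 0 z (n 0 z (n 6619931 z (n 50 z z)))))) z)))))) (n 153 (n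
 0 (n 0 z (n 681 (n 0 z (n 0 z (n 0 z (n 0 z (n 0 z (n 0 z (n 0 z z))))))) (n 15 (n 0 z (n 0 z
 (n 0 z (n 0 z (n 0 z (n 0 z (n 0 z (n 0 z z)))))))) (n 15 (n 0 z (n 0 z (n 0 z (n 0 z (n 0 z (n
 2 (n 0 z (n 2 (n 0 z (n 0 z (n 0 z (n 0 z (n 0 z (n 0 z z)))))) z)) (n 0 z (n 0 z z)))))))) (n
 15 (n 0 z (n 0 z (n 0 z (n 0 z (n 0 z (n 0 z (n 2 (n 1 z z) (n 0 z z)))))))) (n 13 (n 0 z (n 0
 z (n 0 z (n 0 z z)))) z)))))) (n 0 (n 681 (n 0 z (n 0 z (n 0 z (n 0 z (n 0 z (n 0 z (n 0 z (n 0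
 z (n 0 z (n 0 z (n 0 z (n 0 z (n 0 z (n 0 z (n 0 z (n 0 z (n 2 (n 1 z (n 1 z (n 1 z (n 2 (n 0 z
 (n 0 z (n 0 z (n 0 z (n 0 z (n 0 z z)))))) z)))) (n 0 z (n 0 z (n 0 z (n 0 z
 z))))))))))))))))))))) (n 99 (n 0 z (n 0 z (n 0 z (n 0 z (n 0 z (n 0 z (n 0 z (n 0 z z))))))))
 (n 99 (n 0 z (n 0 z (n 0 z (n 0 z (n 2 (n 0 z (n 2 (n 0 z (n 0 z (n 0 z (n 0 z (n 0 z (n 0 z
 z)))))) z)) (n 0 z (n 0 z (n 0 z z)))))))) (n 99 (n 0 z (n 0 z (n 0 z (n 0 z (n 0 z (n 0 z (n 0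
 z (n 2 (n 1 z z) z)))))))) (n 97 (n 0 z (n 0 z (n 0 z (n 0 z (n 0 z (n 0 z (n 0 z (n 0 z (n 0 z
 (n 0 z (n 0 z (n 0 z (n 0 z (n 0 z (n 0 z (n 0 z (n 0 z (n 0 z (n 0 z (n 0 z (n 0 z (n 0 z (n 0
 z (n 0 z (n 0 z (n 0 z (n 0 z (n 0 z (n 0 z (n 0 z (n 0 z z)))))))))))))))))))))))))))))))
 z))))) (n 0 (n 51 (n 0 z (n 0 z (n 0 z (n 0 z (n 0 z (n 0 z (n 0 z (n 0 z (n 0 z (n 0 z
 z)))))))))) (n 51 (n 0 z (n 0 z (n 0 z (n 0 z (n 0 z (n 2 (n 0 z (n 2 (n 0 z (n 0 z (n 0 z (n 0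
 z (n 0 z (n 0 z z)))))) z)) (n 0 z (n 0 z (n 0 z (n 0 z z)))))))))) (n 51 (n 0 z (n 0 z (n 0 z
 (n 0 z (n 0 z (n 0 z (n 7750435 z (n 0 z (n 0 z (n 0 z z)))))))))) (n 481 (n 0 z (n 0 z (n 0 z
 (n 0 z (n 0 z (n 0 z (n 0 z (n 0 z z)))))))) z)))) (n 0 (n 0 z (n 0 z (n 1 (n 0 z (n 0 z (n 0 z
 (n 0 z (n 0 z z))))) z))) (n 0 (n 0 z (n 13 (n 0 z (n 0 z (n 0 z (n 0 z (n 0 z z))))) z)) (n 0
 (n 241 (n 0 z (n 0 z (n 0 z (n 0 z (n 7754803 z (n 0 z z)))))) z) (n 0 z z))))))) (n 0 (n 0 z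
 (n 1 (n 6496515 z (n 6496275 z (n 6496275 z (n 6496275 z (n 6496275 z (n 6496275 z z)))))) (n 0
 z z))) (n 0 z z)))) (n 0x6d66b8672c42b8e261c6d582b49d11a (n 0 (n 153 (n 0 z (n 6496275 z (n 0 z
 z))) (n 33 (n 0 z (n 0 z (n 0 z (n 6496515 z z)))) (n 9 (n
 0x2d6308e07df7a17a37607e37628608217de76485e81e8218dd81f8248597e08e181c8618a18197620041 z (n 2 z
 (n 0x256108e08207e07a27607e27618608217de7a385f81f8208dd81f82385a7e18a181d82186281a7620041 z (n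
 10 z (n 0 z (n 0 z (n 0 z (n 0 z (n 0 z (n 0 z (n 0 z (n 0 z (n 6496515 z (n 6496523 z (n
 6496523 z (n 6496515 z (n 0 z z))))))))))))))))) (n 243 (n
 0x6d61085f7dd79f8e16e37268a15da827823724a2081e81e7de71e6e591c79e89f9a285f72b7db6a50041 z (n 0 z
 (n 18 z (n
 0xca6a428038608208207e08207a18217e08207e27e186081f82181f85f86181f82086085f81f7e181f7e00801 z (n
 0 z (n 6496515 z (n 0 z (n 0 z (n 0 z (n 0 z (n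
 0x5564085f81e7e08a076276586165a8258227629a081e81e7de79f7248dd79f85f9618607687dc7230041 z (n 0 z
 (n 0 z (n 0 z (n 6496523 z (n 0 z (n 0 z (n 6496515 z z)))))))))))))))))) (n 1 (n 26 z (n
 2164299 z (n 0 z (n 34 z z)))) (n 0 (n 0 z (n 0 z (n 0 z (n 6619931 z (n 42 z z))))) z)))))) (n
 153 (n 0 (n 0 z (n 681 (n 0 z (n 0 z (n 0 z (n 0 z (n 0 z (n 0 z (n 0 z z))))))) (n 15 (n 0 z
 (n 0 z (n 0 z (n 0 z (n 0 z (n 0 z (n 0 z z))))))) (n 15 (n 0 z (n 0 z (n 0 z (n 0 z (n 0 z (n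
 2 (n 1 z z) (n 0 z z))))))) (n 13 (n 0 z (n 0 z (n 0 z (n 0 z z)))) z))))) (n 0 (n 681 (n 0 z
 (n 0 z (n 0 z (n 0 z (n 0 z (n 0 z (n 0 z (n 2 (n 1 z (n 1 z (n 2 (n 0 z (n 0 z (n 0 z (n 0 z
 (n 0 z (n 0 z z)))))) z))) (n 0 z (n 0 z (n 0 z (n 0 z (n 0 z z))))))))))))) (n 99 (n 0 z (n 0
 z (n 0 z (n 0 z (n 0 z (n 0 z (n 0 z z))))))) (n 99 (n 0 z (n 0 z (n 0 z (n 0 z (n 0 z (n 0 z
 (n 2 (n 1 z z) z))))))) (n 97 (n 0 z (n 0 z (n 0 z (n 0 z (n 0 z (n 0 z (n 0 z (n 0 z (n 0 z (n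
 0 z (n 0 z (n 0 z (n 0 z (n 0 z (n 0 z (n 0 z (n 0 z (n 0 z (n 0 z (n 0 z z))))))))))))))))))))
 z)))) (n 0 (n 51 (n 0 z (n 0 z (n 0 z (n 0 z (n 0 z (n 0 z (n 0 z (n 0 z (n 0 z z))))))))) (n
 51 (n 0 z (n 0 z (n 0 z (n 0 z (n 0 z (n 0 z (n 7750435 z (n 0 z (n 0 z z))))))))) (n 481 (n 0
 z (n 0 z (n 0 z (n 0 z (n 0 z (n 0 z (n 0 z (n 0 z z)))))))) z))) (n 0 (n 0 z (n 1 (n 0 z (n 0
 z (n 0 z (n 0 z (n 0 z z))))) z)) (n 0 (n 241 (n 0 z (n 0 z (n 0 z (n 7754803 z (n 0 z z)))))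
 z) (n 0 z z)))))) (n 0 (n 0 z (n 1 (n 6496275 z (n 6496515 z (n 6496275 z (n 6496275 z (n
 6496275 z (n 6496275 z z)))))) (n 0 z z))) (n 0 z z)))) (n 0x3566519d72ecc38b6744373c29 (n 0 (n
 153 (n 0 z (n 0 z (n 3282443 z (n 0 z (n 0 z z))))) (n 57 (n 2 z (n 0 z (n 6496515 z (n 10 z
 z)))) (n 51 (n 6496515 z (n 0 z (n 0 z (n 6496515 z (n 18 z z))))) (n 27 (n 0 z (n 0 z (n 0 z
 (n 6496515 z (n 0 z (n 0 z z)))))) (n 1 (n 6636083 z (n 0 z (n 0 z z))) (n 0 (n 0 z (n 0 z (n 0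
 z (n 0 z (n 0 z (n 6636083 z (n 0 z (n 0 z (n 0 z (n 0 z (n 0 z (n 0 z (n 26 z (n
 0xc84c8420782085f81f81f86081f8607e17e07e282081f8208607e085f82182182082082182081f8208200801 z (n
 0 z (n 34 z (n 0 z (n 6628411 z z)))))))))))))))))) z)))))) (n 1 (n 0 (n 0 z (n 123 (n 0 z (n 0
 z (n 0 z (n 0 z (n 0 z (n 0 z (n 0 z (n 0 z (n 0 z (n 0 z (n 0 z (n 0 z (n 0 z (n 0 z (n 0 z (n
 2 (n 1 z (n 2 (n 0 z (n 0 z (n 0 z (n 0 z (n 0 z (n 0 z z)))))) z)) (n 0 z (n 0 z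
 z)))))))))))))))))) (n 113 (n 2 (n 0 z z) (n 0 z (n 0 z (n 0 z (n 0 z (n 0 z (n 0 z z))))))) (n
 113 (n 0 z (n 0 z (n 0 z (n 0 z (n 0 z (n 0 z (n 2 z z))))))) z)))) (n 0 (n 727 (n 0 z (n 0 z
 (n 0 z (n 0 z (n 0 z (n 0 z (n 0 z z))))))) (n 113 (n 0 z (n 0 z (n 0 z (n 0 z (n 0 z (n 0 z (n
 0 z (n 0 z (n 0 z z))))))))) (n 113 (n 0 z (n 0 z (n 0 z (n 0 z (n 0 z (n 0 z (n 0 z (n 0 z (n
 0 z z))))))))) z))) (n 0 (n 101 (n 0 z (n 0 z (n 0 z (n 0 z (n 0 z (n 0 z (n 0 z (n 0 z (n 0 z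
 z))))))))) (n 101 (n 0 z (n 0 z (n 0 z (n 2 z (n 0 z (n 0 z (n 0 z (n 0 z (n 0 z z))))))))) z))
 (n 0 (n 0 z z) (n 0 z z))))) (n 0 (n 1 (n 6636083 z (n 6636083 z (n 6636083 z (n 6636083 z (n
 6636083 z (n 6636083 z z)))))) (n 0 z (n 0 z z))) (n 0 z z)))) (n 0x22a4e16126ce61545d09a (n 0
 (n 155 (n 0 z (n 0 z (n 6496275 z z))) (n 33 (n 0 z (n 0 z (n 0 z (n 0 z (n 6496515 z z))))) (n
 9 (n 2 z (n 0 z (n 10 z (n 0 z (n 0 z (n 6496523 z (n 6496515 z z))))))) (n 243 (n 18 z (n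
 6565971 z (n 6496515 z z))) (n 121 (n 26 z (n 0 z (n 0 z (n 6565971 z z)))) (n 0 (n 0 z (n 0 z
 (n 0 z (n 0 z (n 0 z (n 0 z (n 6624011 z z))))))) z)))))) (n 155 (n 0 (n 0 z (n 687 (n 0 z (n 0
 z (n 0 z (n 0 z (n 0 z (n 0 z z)))))) (n 255 (n 0 z (n 0 z (n 0 z (n 0 z (n 0 z (n 0 z (n 0 z
 z))))))) z))) (n 0 (n 687 (n 0 z (n 2 (n 1 z z) (n 0 z z))) (n 339 (n 0 z (n 0 z (n 0 z (n 0 z
 (n 0 z (n 0 z (n 0 z z))))))) z)) (n 0 (n 291 (n 0 z (n 0 z (n 0 z (n 0 z (n 0 z (n 0 z (n 0 z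
 (n 0 z z)))))))) z) (n 0 z z)))) (n 0 (n 0 z (n 0 z (n 1 (n 6496515 z (n 6496275 z (n 6496275 z
 (n 6496275 z (n 6496275 z (n 6496275 z z)))))) z))) (n 0 z z)))) (n
 0x2875c8456e4303719d03a8ca1c465621 (n 0 (n 155 (n 0 z (n 0 z (n 0 z (n 6496275 z z)))) (n 33 (n
 2 z (n 0 z (n 0 z (n 6496515 z z)))) (n 9 (n
 0x2ca8a8260365f8e26a08e38619e081c8227a17e58618608227a289f85c92186276282085e85f7a182085f0801 z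
 (n 10 z (n
 0x2ca8a8260359d8df5e28a386296381b7657218288a18a182086291e89c8e37df82179f85e8217e08618de0801 z
 (n 18 z (n 0 z (n 0 z (n 0 z (n
 0x2ca8a8060381f8617e082082085e8208a08207e082082082082082082089f81f82082089f8208208208200801 z
 (n 0 z (n 0 z (n 0 z (n 0 z (n 0 z (n 0 z (n 0 z (n 0 z (n 0 z (n
 0x65465430384ca8a8060376096471f7e38daa247227dd71c6e2a5a6e78257627609ddc646a08da71e81c6667da6227a51001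
 z (n 0 z (n 0 z (n 0 z (n 0 z (n 0 z (n 0 z (n 0 z (n 0 z (n 0 z (n 0 z (n 0 z (n 0 z (n
 6496523 z (n 6496523 z (n 6496515 z (n 6496515 z (n 6496515 z (n 6496515 z
 z)))))))))))))))))))))))))))))))))))) (n 243 (n 26 z (n 6565971 z (n 6496515 z (n 6496515 z
 z)))) (n 121 (n
 0x2ca8a426038218a285f85f7e085d86181e82181e8607a081f8207a07e37df8a282082081f85e81f7e08200801 z
 (n 34 z (n
 0x2ca6ca640779d89e7e18217e08a085f7e18208a182182181f7df7e081f8a08617e181f8df7df8618208600801 z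
 (n 0 z (n 0 z (n 42 z (n 6565971 z (n 6565971 z z)))))))) (n 0 (n 0 z (n 0 z (n 0 z (n 0 z (n 0
 z (n 6624011 z z)))))) z)))))) (n 155 (n 0 (n 103 (n 0 z (n 0 z (n 0 z (n 0 z (n 0 z (n 0 z (n
 0 z (n 0 z (n 0 z (n 0 z (n 0 z (n 0 z (n 0 z (n 0 z (n 0 z (n 0 z (n 0 z (n 0 z (n 0 z (n 0 z
 (n 0 z (n 0 z (n 0 z (n 0 z (n 0 z (n 0 z (n 0 z (n 0 z (n 0 z (n 0 z (n 0 z (n 0 z
 z)))))))))))))))))))))))))))))))) (n 103 (n 0 z (n 0 z (n 0 z (n 0 z (n 0 z (n 0 z (n 0 z (n 0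
 z (n 0 z (n 0 z (n 0 z (n 0 z (n 0 z (n 0 z (n 0 z (n 0 z (n 0 z (n 0 z (n 0 z (n 0 z (n 0 z (n
 0 z (n 0 z (n 0 z (n 0 z (n 0 z (n 0 z (n 0 z (n 0 z (n 0 z (n 0 z (n 0 z
 z)))))))))))))))))))))))))))))))) (n 487 (n 0 z (n 0 z (n 0 z (n 0 z (n 0 z (n 0 z (n 0 z (n 0
 z (n 0 z z))))))))) (n 63 (n 0 z (n 0 z (n 0 z (n 0 z (n 0 z (n 0 z (n 0 z (n 0 z (n 0 z (n 0 z
 (n 0 z (n 0 z (n 0 z (n 0 z (n 0 z z))))))))))))))) (n 63 (n 0 z (n 0 z (n 0 z (n 0 z (n 0 z (n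
 0 z (n 0 z (n 0 z (n 0 z (n 0 z (n 0 z (n 0 z (n 0 z (n 0 z (n 0 z z))))))))))))))) z))))) (n 0
 (n 0 z (n 687 (n 0 z (n 0 z (n 0 z (n 0 z (n 0 z (n 0 z z)))))) (n 255 (n 0 z (n 0 z (n 0 z (n
 0 z (n 0 z (n 0 z (n 0 z (n 0 z z)))))))) (n 255 (n 0 z (n 0 z (n 0 z (n 0 z (n 0 z (n 2 z (n 0
 z (n 0 z z)))))))) z)))) (n 0 (n 687 (n 0 z (n 2 (n 1 z (n 1 z z)) (n 0 z z))) (n 339 (n 0 z (n
 0 z (n 0 z (n 0 z (n 0 z (n 0 z (n 0 z (n 0 z z)))))))) (n 339 (n 0 z (n 0 z (n 0 z (n 0 z (n 2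
 z (n 0 z (n 0 z (n 0 z z)))))))) z))) (n 0 (n 291 (n 0 z (n 0 z (n 0 z (n 0 z (n 0 z (n 0 z (n
 0 z (n 0 z (n 0 z (n 0 z z)))))))))) (n 291 (n 0 z (n 0 z (n 0 z (n 0 z (n 0 z (n 2 z (n 0 z (n
 0 z (n 0 z (n 0 z z)))))))))) z)) (n 0 (n 0 z z) (n 0 z z)))))) (n 0 (n 0 z (n 0 z (n 0 z (n 1
 (n 6496515 z (n 6496275 z (n 6496275 z (n 6496275 z (n 6496275 z (n 6496275 z z)))))) z)))) (n
 0 z z)))) (n 0xd11746513b842d4c144e6c226f64135b2819ca108eca2032d3010a280 (n 0x36513 (n 153 (n 0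
 z (n 2 z (n 3282443 z (n 0 z (n 10 z (n 18 z z)))))) (n 57 (n
 0xc86c8640382082082081f8218607e082089f81f8207e082081f8217e08208208208208208208208218200801 z (n
 0xca8ca800382182286085f7df8607df8208df7de8a181f82179f81f7e182182086189f7e386085f8217e10801 z (n
 0 z (n
 0x2ca6ca08038a47e199b85c89d8207df72591e7a08217e086289b7a18217e475e81f8df7e28e389f8607a00801 z
 (n 6496515 z (n
 0x6ca8ca640779c99f89f89f72091c81f82289d7a28227e081c91f8218257218228de7a279f7a085c8208a00801 z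
 (n 26 z (n 6496515 z (n
 0xca8ca860382082082081f8218607e082089f81f8207e082081f8217e08208208208208208208208218200801 z (n
 34 z z)))))))))) (n 51 (n
 0x2b61081c81e95c8206e195e85c7a57dc86296376271b95f8228a581f8a37de86581e8dd7dd6e17df0041 z (n 0 z
 (n 0 z (n 6496515 z (n
 0x1b651630403806b29b20080c09d94950040e47eca6c8600700d651651001806b29b20801c03401585024401a006c2812201b86406728c827f499037d832069873b84a6367c879c76a82c751b9b86d7a87f96b088885e7f280e98e89db2fac770f7706216b98007508008287de8d489e90ba146e97bd845ab9ab77ce80687e96670075d80884887f7c84111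
 z (n 0x2b64081c81e95c8206e195e85c7a57dc86296376271b95f8228a581f8a37de86581e8dd7dd6e17df0041 z
 (n 6636083 z (n
 0x4364379a85a99e85f79e99d85d7a479e8e49627e0757a5d82282471e8e47de7e68de8db89c6a38a00041 z (n
 6496515 z (n 0 z (n
 0xeca8ca20036a38b2d5385d7e576384c3a289f6d59a19a17e7d978949dda627db8a199c4a1a5d86465d7620801 z
 (n
 0x594944100e0b29b29881c165465010182ca8ca2007acf95e89e8e08a0b5d66a9287207b17dd5dd81a81aa266e839a8e581e82179e8a076079d7a22001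
 z (n 6496515 z (n 42 z z)))))))))))))) (n 27 (n 6496515 z (n 0 z (n 0 z (n 0 z (n 0 z (n 50 z
 z)))))) (n 1 (n 6636083 z (n 0 z (n 0 z (n 58 z (n 66 z z))))) (n 0 (n
 0x2b61081c81e95c8206e195e85c7a57dc86296376271b95f8228a581f8a37de86581e8dd7dd6e17df0041 z (n 0 z
 (n 0 z (n 2164315 z (n
 0x10c86c804037a78a185f8e56de8db89c4a8a176db6228e88a6ae156496172279f89e52086489f9a08a39640801 z
 (n 0 z (n
 0xec84c206037e28a8b1781b7a185f8db2a999769d9a28df8eab9d69f99d8e875e81ea1e71f9237a085c7a30801 z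
 (n 0x6c86c602077da8a08208a08a08a07a082491e8227a17a086081c82472271e8608208217a28208a07a08200801
 z (n 6636083 z (n 6636083 z (n 6636083 z (n 6636083 z (n 0 z (n 0 z (n 6632003 z (n 0 z (n
 0x4362079a85a99e85f79e99d85d7a479e8e49627e0757a5d82282471e8e47de7e68de8db89c6a38a00041 z (n
 0x1b62075b89d7e081f82091f7df96179f96392375f71975e9e17e479d8e081d9227de89d79a6a17df0041 z (n 0 z
 (n 0 z (n
 0x4363079a85a99e85f79e99d85d7a479e8e49627e0757a5d82282471e8e47de7e68de8db89c6a38a00041 z (n 0 z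
 (n 0 z (n
 0x2362081c81f91d82072091e85d7e47dd8219237a275c95e8228648208627df86481f89e7de7218200041 z (n 0 z
 (n 0 z (n
 0x2c84c826038a47e199b85c89d8207df72591e7a08217e086289b7a18217e475e81f8df7e28e389f8607a00801 z
 (n 0xac64c208077e48a272089e76089c89b6e4a197197218668249635648e175f76085d5df7e58de9a08229230801
 z (n 0 z (n 0 z (n 0 z (n 0 z (n
 0x165442030184c86c864036a07a18df89e8668df81c7e089f85e89c7e081f8a07a08686e575f7e18dd7dd91e91786489c1001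
 z (n 6628411 z (n 0 z (n 0 z (n
 0xc86c8640382082082081f8218607e082089f81f8207e082081f8217e08208208208208208208208218200801 z (n
 74 z (n
 0xac84c8420779888f5d86de8659e08df8aa5999eba2581c6949616a4ba569f99e6df82775b85c5d665c85d0801 z
 (n 0x6c86c8240385d8a57a081f7a18a07a082591d8627df7a086081c82476072086086082082281f8a075f8a00801
 z (n 0 z (n 0 z (n 82 z (n 0 z (n 6628411 z (n 6628411 z (n 0 z
 z))))))))))))))))))))))))))))))))))))))))))))))) z)))))) (n 1 (n 0 (n 0 z (n 0 z (n 163 (n 0 z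
 (n 0 z (n 0 z (n 0 z (n 0 z (n 0 z (n 0 z (n 7737379 z (n 0 z (n 0 z z)))))))))) (n 163 (n 0 z
 (n 0 z (n 0 z (n 0 z (n 0 z (n 0 z (n 0 z (n 0 z (n 0 z (n 0 z z)))))))))) (n 171 (n 0 z (n 0 z
 (n 0 z (n 0 z (n 0 z (n 0 z (n 0 z (n 0 z (n 0 z (n 0 z (n 0 z (n 0 z (n 0 z (n 0 z (n 0 z (n 0
 z (n 0 z (n 0 z (n 0 z (n 0 z (n 0 z (n 0 z (n 0 z (n 0 z (n 0 z (n 0 z (n 0 z (n 0 z (n
 7734043 z (n 7734043 z (n 0 z (n 0 z z)))))))))))))))))))))))))))))))) (n 487 (n 0 z (n 0 z (n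
 0 z (n 0 z (n 0 z (n 0 z (n 0 z (n 0 z (n 0 z (n 0 z (n 0 z (n 0 z (n 0 z (n 0 z (n 0 z (n 0 z
 z)))))))))))))))) (n 483 (n 0 z (n 0 z (n 0 z (n 0 z z)))) (n 483 (n 0 z (n 0 z (n 0 z (n 0 z
 z)))) (n 485 (n 0 z (n 0 z (n 0 z (n 0 z (n 0 z (n 7734043 z (n 7734043 z (n 0 z (n 0 z (n 0 z
 (n 0 z (n 0 z (n 0 z (n 0 z (n 0 z (n 0 z (n 0 z (n 0 z (n 0 z (n 0 z (n 0 z (n 0 z (n 0 z (n 0
 z (n 0 z (n 0 z (n 0 z (n 0 z (n 0 z (n 0 z (n 0 z (n 0 z (n 0 z (n 0 z (n 0 z (n 0 z (n 0 z (n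
 0 z (n 0 z (n 0 z (n 0 z (n 0 z (n 0 z (n 0 z (n 0 z (n 0 z
 z)))))))))))))))))))))))))))))))))))))))))))))) (n 485 (n 0 z (n 0 z (n 0 z (n 0 z (n 0 z (n 0
 z (n 0 z (n 0 z (n 0 z (n 0 z (n 0 z (n 0 z (n 0 z (n 0 z (n 0 z (n 0 z (n 0 z (n 0 z (n 0 z (n
 0 z (n 0 z (n 0 z (n 0 z (n
 0x2b76181c81e95c8206e195e85c7a57dc86296376271b95f8228a581f8a37de86581e8dd7dd6e17df0041 z (n 0 z
 (n 0 z (n 0 z (n 0 z (n 0 z (n 0 z (n 0 z (n 0 z (n 0 z (n 0 z (n 0 z (n 0 z (n 0 z (n 0 z (n 0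
 z (n 0 z (n 0 z (n 0 z (n 0 z (n 0 z (n 0 z (n 0 z
 z)))))))))))))))))))))))))))))))))))))))))))))) z)))))))))) (n 0 (n 0 z (n 979 (n 0 z (n 0 z (n
 0 z (n 2 (n 0 z (n 2 (n 0 z (n 0 z (n 0 z (n 0 z (n 0 (n 8872275 z z) (n 0 z z)))))) (n 2 (n 0
 z (n 0 z (n 0 z (n 0 z (n 0 z (n 0 z z)))))) (n 2 (n 0 z (n 0 z (n 0 z (n 0 z (n 0 z (n 0 z
 z)))))) (n 2 (n 0 z (n 0 z (n 0 z (n 0 z (n 0 z (n 0 z z)))))) (n 2 (n 0 z (n 0 z (n 0 z (n 0 z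
 (n 0 z (n 0 z z)))))) (n 2 (n 0 z (n 0 z (n 0 z (n 0 z (n 0 z (n 0 z z)))))) z))))))) z)))) (n
 979 (n 0 z (n 0 z (n 0 z (n 0 z z)))) (n 801 (n 0 z (n 0 z (n 0 z (n 0 z (n 0 z (n 0 z (n 0 z
 (n 0 z (n 0 z (n 0 z (n 0 z (n 0 z (n 0 z (n 0 z (n 0 z (n 0 z (n 0 z z))))))))))))))))) (n 555
 (n 0 z (n 0 z (n 0 z (n 0 z (n 0 z (n 0 z (n 0 z (n 0 z z)))))))) (n 303 (n 0 z (n 0 z (n 0 z
 z))) (n 303 (n 0 z (n 0 z (n 2 (n 2 (n 0 z (n 0 z (n 0 z (n 0 z (n 0 z (n 0 z z)))))) (n 2 (n 0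
 z (n 0 z (n 0 z (n 0 z (n 0 z (n 0 z z)))))) z)) z))) (n 305 (n 0 z (n 0 z (n 0 z (n 0 z (n 0 z
 (n 0 z (n 0 z (n 0 z (n 0 z (n 0 z (n 0 z (n 0 z (n 0 z z))))))))))))) (n 305 (n 0 z (n 0 z (n
 0 z (n 0 z (n 0 z (n 0 z (n 0 z (n 0 z (n 0 z (n 0 z (n 0 z (n 0 z (n 0 z z)))))))))))))
 z))))))))) (n 0 (n 739 (n 0 z (n 0 z (n 2 (n 0 z (n 2 (n 0 z (n 0 z (n 0 z (n 0 z (n 0 (n
 8872275 z z) (n 0 z z)))))) (n 2 (n 0 z (n 0 z (n 0 z (n 0 z (n 0 z (n 0 z z)))))) (n 2 (n 0 z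
 (n 0 z (n 0 z (n 0 z (n 0 z (n 0 z z)))))) (n 2 (n 0 z (n 0 z (n 0 z (n 0 z (n 0 z (n 0 z
 z)))))) (n 2 (n 0 z (n 0 z (n 0 z (n 0 z (n 0 z (n 0 z z)))))) (n 2 (n 0 z (n 0 z (n 0 z (n 0 z
 (n 0 z (n 0 z z)))))) z))))))) (n 0 z z)))) (n 739 (n 0 z (n 0 z (n 0 z (n 0 z z)))) (n 775 (n
 0 z (n 0 z (n 0 z (n 0 z (n 0 z (n 0 z (n 0 z (n 0 z (n 0 z (n 0 z (n 0 z (n 0 z (n 0 z (n 0 z
 (n 0 z (n 0 z (n 0 z z))))))))))))))))) (n 295 (n 0 z (n 0 z (n 0 z (n 0 z z)))) (n 303 (n 0 z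
 (n 0 z (n 0 z (n 0 z (n 0 z (n 0 z z)))))) (n 303 (n 0 z (n 0 z (n 0 z (n 0 z (n 0 z (n 0 z
 z)))))) (n 301 (n 0 z (n 0 z (n 0 z (n 0 z (n 0 z (n 0 z (n 0 z (n 0 z (n 0 z (n 0 z (n 0 z (n
 0 z (n 0 z (n 0 z (n 0 z (n 0 z (n 0 z (n 0 z (n 0 z (n 0 z (n 0 z (n 0 z (n 0 z (n 0 z (n 0 z
 (n 0 z (n 0 z (n 0 z (n 0 z (n 0 z (n 0 z (n 0 z z)))))))))))))))))))))))))))))))) (n 301 (n 0
 z (n 0 z (n 0 z (n 0 z (n 0 z (n 0 z (n 0 z (n 0 z (n 0 z (n 0 z (n 0 z (n 0 z (n 0 z (n 0 z (n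
 0 z (n 0 z (n 0 z (n 0 z (n 0 z (n 0 z (n 0 z (n 0 z (n 0 z (n 0 z (n 0 z (n 0 z (n 0 z (n 0 z
 (n 0 z (n 0 z (n 0 z (n 0 z z)))))))))))))))))))))))))))))))) z)))))))) (n 0 (n 0 z (n 123 (n 0
 z (n 0 z (n 0 z (n 0 z (n 0 z (n 0 z (n 0 z (n 0 z (n 0 z (n 0 z (n 0 z (n 0 z (n 0 z (n 0 z (n
 0 z (n 0 z (n 0 z (n 0 z (n 0 z (n 0 z (n 0 z (n 0 z (n 0 z (n 0 z (n 0 z (n 0 z (n 0 z (n 0 z
 (n 0 z (n 0 z (n 0 z (n 2 (n 2 (n 0 z (n 0 z (n 0 z (n 0 z (n 0 z (n 0 z z)))))) (n 2 (n 0 z (n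
 0 z (n 0 z (n 0 z (n 0 (n 8872275 z z) (n 0 z z)))))) (n 2 (n 0 z (n 0 z (n 0 z (n 0 z (n 0 z
 (n 0 z z)))))) (n 2 (n 0 z (n 0 z (n 0 z (n 0 z (n 0 (n 8848155 z z) (n 0 z z)))))) (n 2 (n 0 z
 (n 0 z (n 0 z (n 0 z (n 0 z (n 0 z z)))))) z))))) z)))))))))))))))))))))))))))))))) (n 487 (n 0
 z (n 0 z (n 0 z (n 2 (n 2 (n 0 z (n 0 z (n 0 z (n 0 z (n 0 z (n 0 z z)))))) (n 2 (n 0 z (n 0 z
 (n 0 z (n 0 z (n 0 z (n 0 z z)))))) (n 2 (n 0 z (n 0 z (n 0 z (n 0 z (n 0 z (n 0 z z)))))) (n 2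
 (n 0 z (n 0 z (n 0 z (n 0 z (n 0 z (n 0 z z)))))) z)))) z)))) (n 483 (n 0 z (n 0 z (n 0 z (n 0
 z (n 0 z (n 0 z (n 0 z (n 0 z (n 0 z (n 0 z (n 0 z (n 2 (n 0 z (n 2 (n 0 z (n 0 z (n 0 z (n 0 z
 (n 0 z (n 0 z z)))))) (n 2 (n 0 z (n 0 z (n 0 z (n 0 z (n 0 z (n 0 z z)))))) z))) (n 0 z (n 0 z
 (n 0 z (n 0 z z)))))))))))))))) (n 483 (n 0 z (n 0 z (n 0 z (n 0 z (n 0 z (n 0 z (n 0 z (n 0 z
 (n 0 z (n 0 z (n 0 z (n 0 z (n 0 z (n 0 z (n 0 z (n 0 z z)))))))))))))))) (n 481 (n 0 z (n 0 z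
 (n 0 z (n 0 z (n 0 z (n 0 z (n 0 z (n 0 z (n 0 z (n 0 z (n 0 z (n 0 z (n 0 z (n 0 z (n 0 z (n 0
 z (n 0 z (n 0 z (n 0 z (n 0 z (n 0 z (n 0 z (n 0 z (n 0 z (n 0 z (n 0 z (n 0 z (n 0 z (n 0 z (n
 0 z (n 0 z (n 0 z (n 0 z (n 0 z (n 0 z (n 0 z (n 0 z (n 2 (n 0 z z) (n 0 z (n 0 z (n 0 z (n 0 z
 (n 0 z (n 0 z (n 0 z (n 0 z z)))))))))))))))))))))))))))))))))))))))))))))) (n 481 (n 0 z (n 0
 z (n 0 z (n 0 z (n 0 z (n 0 z (n 0 z (n 0 z (n 0 z (n 0 z (n 0 z (n 0 z (n 0 z (n 0 z (n 0 z (n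
 0 z (n 0 z (n 0 z (n 0 z (n 0 z (n 0 z (n 0 z (n 0 z (n 0 z (n 0 z (n 0 z (n 0 z (n 0 z (n 0 z
 (n 0 z (n 0 z (n 0 z (n 0 z (n 0 z (n 0 z (n 0 z (n 0 z (n 0 z (n 0 z (n 0 z (n 2 z (n 0 z (n 0
 z (n 0 z (n 0 z (n 0 z z)))))))))))))))))))))))))))))))))))))))))))))) z))))))) (n 0 (n 727 (n
 0 z (n 0 z (n 0 z (n 0 z (n 0 z (n 0 z (n 0 z (n 0 z (n 0 z (n 0 z (n 0 z (n 0 z z))))))))))))
 (n 75 (n 0 z (n 0 z (n 0 z (n 0 z (n 0 z (n 0 z (n 0 z z))))))) (n 111 (n 0 z (n 0 z (n 0 z (n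
 0 z (n 0 z (n 0 z (n 0 z z))))))) (n 111 (n 0 z (n 0 z (n 0 z (n 0 z (n 0 z (n 0 z (n 2 (n 2 (n
 0 z (n 0 z (n 0 z (n 0 z (n 0 z (n 0 z z)))))) (n 2 (n 0 z (n 0 z (n 0 z (n 0 z (n 0 z (n 0 z
 z)))))) z)) z))))))) (n 113 (n 0 z (n 0 z (n 0 z (n 0 z (n 0 z (n 0 z (n 0 z (n 0 z (n 0 z (n 0
 z (n 0 z (n 0 z z)))))))))))) (n 113 (n 0 z (n 0 z (n 0 z (n 0 z (n 0 z (n 0 z (n 0 z (n 0 z (n
 0 z (n 0 z (n 0 z (n 0 z z)))))))))))) z)))))) (n 0 (n 247 (n 0 z (n 0 z (n 0 z (n 0 z (n 0 z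
 (n 0 z (n 0 z (n 0 z z)))))))) (n 99 (n 0 z (n 0 z (n 0 z (n 0 z (n 0 z (n 0 z (n 0 z (n 0 z (n
 0 z (n 0 z (n 0 z (n 0 z (n 0 z (n 0 z z)))))))))))))) (n 99 (n 0 z (n 0 z (n 0 z (n 0 z (n 0 z
 (n 0 z (n 0 z (n 0 z (n 0 z (n 0 z (n 0 z (n 0 z (n 0 z (n 2 (n 2 (n 0 z (n 0 z (n 0 z (n 0 z
 (n 0 (n 8782619 z z) (n 0 z z)))))) (n 2 (n 0 z (n 0 z (n 0 z (n 0 z (n 0 z (n 0 z z)))))) z))
 z)))))))))))))) (n 101 (n 0 z (n 0 z (n 0 z (n 0 z (n 0 z (n 0 z (n 0 z (n 0 z (n 0 z (n 0 z (n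
 0 z z))))))))))) (n 101 (n 0 z (n 0 z (n 0 z (n 2 z (n 0 z (n 0 z (n 0 z (n 0 z (n 0 z (n 0 z
 (n 0 z z))))))))))) z))))) (n 0 (n 243 (n 0 z (n 0 z (n 0 z (n 0 z (n 0 z z))))) (n 243 (n 0 z
 (n 0 z (n 0 z (n 2 (n 2 (n 0 z (n 0 z (n 0 z (n 0 z (n 0 z (n 0 z z)))))) (n 2 (n 0 z (n 0 z (n
 0 z (n 0 z (n 0 z (n 0 z z)))))) z)) (n 0 z z))))) (n 53 (n 0 z (n 0 z (n 0 z (n 0 z (n 0 z (n
 0 z (n 0 z (n 0 z (n 0 z (n 0 z (n 0 z (n 0 z (n 0 z (n 0 z (n 0 z (n 0 z (n 0 z (n 0 z (n 0 z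
 (n 0 z (n 0 z (n 0 z (n 0 z (n 0 z (n 0 z z))))))))))))))))))))))))) (n 53 (n 0 z (n 0 z (n 0 z
 (n 0 z (n 0 z (n 0 z (n 0 z (n 2 z (n 0 z (n 0 z (n 0 z (n 0 z (n 0 z (n 0 z (n 0 z (n 0 z (n 0
 z (n 0 z (n 0 z (n 0 z (n 0 z (n 0 z (n 0 z (n 0 z (n 0 z z))))))))))))))))))))))))) z)))) (n 0
 (n 0 z (n 1 (n 0 z (n 0 z (n 0 z (n 0 z (n 0 z (n 0 z (n 0 z (n 0 z (n 0 z (n 0 z (n 0 z (n 0 z
 (n 0 z (n 0 z (n 0 z (n 0 z (n 0 z (n 0 z (n 0 z (n 0 z (n 0 z (n 0 z (n 0 z (n 0 z (n 0 z (n 0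
 z (n 0 z (n 0 z (n 0 z (n 0 z (n 0 z (n 0 z (n 0 z (n 0 z (n 0 z (n 0 z (n 0 z (n 0 z (n 0 z (n
 0 z (n 0 z (n 0 z (n 0 z (n 0 z (n 0 z (n 0 z (n 0 z (n 0 z (n 0 z (n 0 z (n 0 z (n 0 z (n 0 z
 (n 0 z (n 0 z (n 0 z z)))))))))))))))))))))))))))))))))))))))))))))))))))))))) (n 1 (n 0 z (n 0
 z (n 0 z (n 0 z (n 0 z (n 0 z (n 0 z (n 0 z (n 0 z (n 0 z (n 0 z (n 0 z (n 0 z (n 0 z (n 0 z (n
 0 z (n 0 z (n 0 z (n 0 z (n 0 z (n 0 z (n 0 z (n 0 z (n 0 z (n 0 z (n 0 z (n 0 z (n 0 z (n 0 z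
 (n 0 z (n 0 z (n 0 z (n 0 z (n 0 z (n 0 z (n 0 z (n 0 z (n 0 z (n 0 z (n 0 z (n 0 z (n 0 z (n 0
 z (n 0 z (n 0 z (n 0 z (n 0 z (n 0 z (n 0 z (n 0 z (n 0 z (n 0 z (n 0 z (n 0 z (n 0 z (n 0 z
 z)))))))))))))))))))))))))))))))))))))))))))))))))))))))) z))) (n 0 (n 1 (n 0 z (n 0 z (n 0 z
 (n 0 z (n 0 z (n 0 z (n 0 z (n 0 z (n 0 z (n 0 z (n 0 z (n 0 z (n 0 z (n 0 z (n 0 z (n 0 z (n 0
 z (n 0 z (n 0 z (n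
 0x17627613018ac86ea24037e07dd6a06de9268a479f7248188e685a7618627247a8924a5d85a91989e75472089285c91a1001
 z (n 0 z (n 0 z (n 0 z (n 0 z (n 0 z (n 0 z (n 0 z (n 0 z (n 0 z (n 0 z (n 0 z (n 0 z (n 2 (n 0
 z z) (n 0 z (n 0 z (n 0 z (n 0 z (n 0 z (n 0 z (n 0 z (n 0 z (n 0 z (n 0 z (n 0 z (n 0 z (n 0 z
 (n 0 z (n 0 z (n 0 z z))))))))))))))))))))))))))))))))))))))))))))))))) (n 1 (n 0 z (n 0 z (n 0
 z (n 0 z (n 0 z (n 0 z (n 0 z (n 0 z (n 0 z (n 0 z (n 0 z (n 0 z (n 2 z (n 0 z (n 0 z (n 0 z (n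
 0 z (n 0 z (n 0 z (n 0 z (n 0 z (n 0 z (n 0 z (n 0 z (n 0 z (n 0 z (n 0 z (n 0 z (n 0 z (n 0 z
 (n 0 z (n 0 z (n 0 z (n 0 z (n 0 z (n 0 z (n 0 z (n 0 z (n 0 z (n 0 z (n 0 z (n 0 z (n 0 z (n 0
 z (n 0 z (n 0 z (n 0 z (n 0 z (n 0 z z))))))))))))))))))))))))))))))))))))))))))))))))) z)) (n
 0 (n 0 z z) (n 0 z z))))))))))) (n 0 (n 1 (n 6636083 z (n 6636083 z (n 6636083 z (n 6636083 z
 (n 6636083 z (n 6636083 z z)))))) (n 0 z (n 0 z (n 1 (n 1228 z (n 6628411 z (n 6632003 z (n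
 5518875 z (n 1228 z (n 2 z z)))))) (n 1 (n 1228 z (n 1228 z (n 6632003 z (n 5514779 z (n 1228 z
 (n 1228 z z)))))) z))))) (n 0 (n 0xd94211 (n 0 (n 0 (n 7734043 z (n 7734043 z (n 7734043 z (n
 7734043 z (n 7734043 z (n 7734043 z z)))))) z) (n 0 (n 369 (n 0 z (n 1 (n 3282699 z (n 4400907
 z (n 4400907 z (n 4400907 z (n 4400907 z (n 4400907 z z)))))) (n 1 (n 4331275 z (n 1228 z (n
 1228 z (n 7734043 z (n 1228 z (n 7681563 z z)))))) (n 1 (n 4400923 z (n 7734043 z (n 4400923 z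
 (n 4400923 z (n 4400923 z (n 4400923 z z)))))) z)))) (n 393 (n 0 z (n 1 (n 7545091 z (n 4400907
 z (n 4400907 z (n 4400907 z (n 4400907 z (n 4400907 z z)))))) (n 1 (n 7545091 z (n 2 z (n 460 z
 (n 460 z (n 460 z (n 460 z z)))))) (n 1 (n 7545091 z (n 4400923 z (n 4400923 z (n 4400923 z (n
 4400923 z (n 4400923 z z)))))) z)))) (n 123 (n 1 (n 7676987 z (n 7746891 z (n 7684659 z (n
 7746891 z (n 7734043 z (n 7746891 z z)))))) (n 1 (n 7681563 z (n 7681563 z (n 7684659 z (n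
 7734043 z (n 7681563 z (n 7681563 z z)))))) (n 1 (n
 0x2b71081c81e95c8206e195e85c7a57dc86296376271b95f8228a581f8a37de86581e8dd7dd6e17df0041 z (n
 7676987 z (n 7684659 z (n 3148 z (n 7734043 z (n 3148 z z)))))) (n 1 (n 7545091 z (n 7545091 z
 (n 7545091 z (n 7545091 z (n 7545091 z (n 7545091 z z)))))) (n 1 (n 7545091 z (n 7545091 z (n
 7545091 z (n 7545091 z (n 7545091 z (n 7545091 z z)))))) (n 1 (n 7545091 z (n 7545091 z (n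
 7545091 z (n 7545091 z (n 7545091 z (n 7545091 z z)))))) (n 1 (n 3148 z (n 7676987 z (n 7684659
 z (n 3148 z (n 3148 z (n 3148 z z)))))) (n 1 (n 7545091 z (n 7545091 z (n 7545091 z (n 7545091
 z (n 7545091 z (n 7545091 z z)))))) z)))))))) (n 153 (n 0 z (n 1 (n 7545091 z (n 7680579 z (n
 7680579 z (n 7680579 z (n 7680579 z (n 7680579 z z)))))) (n 1 (n 7545091 z (n 4331275 z (n
 4331275 z (n 4331275 z (n 4331275 z (n 4331275 z z)))))) (n 1 (n 7545091 z (n 220 z (n 316 z (n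
 316 z (n 316 z (n 316 z z)))))) z)))) (n 123 (n 1 (n 7545091 z (n 7545091 z (n 7545091 z (n
 7545091 z (n 7545091 z (n 7545091 z z)))))) (n 0 z (n 1 (n 7615787 z (n 7615787 z (n 7684659 z
 (n 7734043 z (n 7615787 z (n 7615787 z z)))))) (n 1 (n 7602987 z (n 5449499 z (n 7684659 z (n
 1228 z (n 1228 z (n 1228 z z)))))) (n 0 z z))))) (n 51 (n 1 (n 6498075 z (n 7602987 z (n 1244 z
 (n 4401003 z (n 1244 z (n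
 0x4ecac824037a08a27a08608218237dd7e085f85e8208a082189d8df7e086185e8618207607e07a08218600801 z
 z)))))) (n 1 (n 6498075 z (n 7602987 z (n 1244 z (n 4401003 z (n 1244 z (n
 0x19519508060bb23b0900c176464120380ec8ec820779c8a481e81e8208207a28249208227a479e89e81c9207a271e79e89e8a082092081e8207a02001
 z z)))))) (n 1 (n 6498059 z (n 1244 z (n 1244 z (n 1244 z (n
 0x3372079b85b95e85f79e95e85e76479e8a392382079a9de82282475f8a381e7e589e8dc89c6e28a00041 z (n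
 1244 z z)))))) (n 1 (n 6428427 z (n 1244 z (n 1244 z (n 7602987 z (n 1244 z (n 1244 z z))))))
 (n 1 (n 7545091 z (n 7545091 z (n 7545091 z (n 7545091 z (n 7545091 z (n 7545091 z z)))))) (n 0
 z (n 1 (n 4400907 z (n 1244 z (n 1244 z (n
 0x2b71081c81e95c8206e195e85c7a57dc86296376271b95f8228a581f8a37de86581e8dd7dd6e17df0041 z (n
 1244 z (n 1244 z z)))))) (n 1 (n 7545091 z (n 7545091 z (n 7545091 z (n 7545091 z (n 7545091 z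
 (n 7545091 z z)))))) (n 0 z (n 1 (n 7684659 z (n 7684659 z (n 7684659 z (n 7684659 z (n 7684659
 z (n 7684659 z z)))))) (n 1 (n 7676987 z (n 7676987 z (n 7676987 z (n 7676987 z (n 7676987 z (n
 6566515 z z)))))) z))))))))))) (n 1 (n 1 (n 7684659 z (n 7684659 z (n 7684659 z (n 7684659 z (n
 7684659 z (n 7684659 z z)))))) (n 0 z (n 0 z (n 1 (n 7734043 z (n 7734043 z (n 7680579 z (n
 7734043 z (n 7734043 z (n 7734043 z z)))))) (n 1 (n 1228 z (n 1228 z (n 7680579 z (n 5515035 z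
 (n 1228 z (n 7746891 z z)))))) z))))) z))))))) (n 0 (n 0 (n 0 z z) z) (n 0 (n 393 (n 0 (n 0 z
 z) (n 0 (n 0 z z) (n 0 (n 0 z z) (n 0 (n 0 z z) z)))) (n 393 (n 0 (n 0 z z) (n 0 (n 0 z z) (n 0
 (n 0 z z) (n 0 (n 0 z z) (n 0 (n 0 z z) (n 0 (n 0 z z) (n 0 (n 0 (n
 0x2b87481c81e95c8206e195e85c7a57dc86296376271b95f8228a581f8a37de86581e8dd7dd6e17df0041 z z) z)
 (n 0 (n 0 (n 8783691 z z) z) (n 0 (n 0 z z) (n 0 (n 0 z z) (n 0 (n 0 z z) (n 0 (n 0 z z) (n 0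
 (n 0 z z) (n 0 (n 0 (n 8733235 z (n 8733235 z z)) z) (n 0 (n 0 (n 8729155 z z) z) (n 0 (n 0 z
 z) (n 0 (n 0 z z) z))))))))))))))))) (n 369 (n 0 (n 0 z z) (n 0 (n 0 z z) (n 0 (n 0 z z) (n 0
 (n 0 z z) (n 0 (n 0 z z) (n 0 (n 0 z z) (n 0 (n 0 z z) (n 0 (n 0 z z) (n 0 (n 0 z z) (n 0 (n 0
 z z) (n 0 (n 0 z z) (n 0 (n 0 z z) z)))))))))))) (n 153 (n 0 (n 0 z z) (n 0 (n 0 z z) (n 0 (n 0
 z z) (n 0 (n 0 z z) z)))) (n 39 (n 0 (n 0 z z) (n 0 (n 0 z z) (n 0 (n 0 z z) (n 0 (n 0 z z) (n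
 0 (n 0 z z) (n 0 (n 0 z z) (n 0 (n 0 z z) z))))))) (n 129 (n 0 (n 0 z z) (n 0 (n 0 z z) (n 0 (n
 0 z z) (n 0 (n 0 z z) (n 0 (n 0 z z) (n 0 (n 0 z z) (n 0 (n 0 z z) (n 0 (n 0 z z) z)))))))) (n
 153 (n 0 (n 0 z z) (n 0 (n 0 z z) (n 0 (n 0 z z) (n 0 (n 0 z z) (n 0 (n 0 z z) (n 0 (n 0 z z)
 z)))))) (n 57 (n 0 (n 0 z z) (n 0 (n 0 z z) (n 0 (n 0 z z) (n 0 (n 0 z z) (n 0 (n 0 z z) (n 0
 (n 0 z z) (n 0 (n 0 z z) z))))))) (n 51 (n 0 (n 0 z z) (n 0 (n 0 z z) (n 0 (n 0 z z) (n 0 (n 0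
 z z) (n 0 (n 0 z z) (n 0 (n 0 z z) (n 0 (n 0 z z) (n 0 (n 0 z z) (n 0 (n 0 z z) (n 0 (n 0 z z)
 (n 0 (n 0 z z) (n 0 (n 0 z z) (n 0 (n 0 z z) (n 0 (n 0 z z) z)))))))))))))) (n 123 (n 0 (n 0 z
 z) (n 0 (n 0 z z) (n 0 (n 0 z z) (n 0 (n 0 z z) (n 0 (n 0 z z) z))))) (n 155 (n 0 (n 0 z z) (n
 0 (n 0 z z) (n 0 (n 0 (n 8851491 z z) z) (n 0 (n 0 z z) (n 0 (n 0 z z) (n 0 (n 0 z z) (n 0 (n 0
 z z) (n 0 (n 0 z z) (n 0 (n 0 (n 8868963 z (n 8868963 z z)) z) (n 0 (n 0 z z) (n 0 (n 0 z z) (n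
 0 (n 0 (n 8733235 z (n 8733235 z z)) z) (n 0 (n 0 (n 8733235 z z) z) (n 0 (n 0 (n 8729155 z (n
 8729155 z z)) z) (n 0 (n 0 (n 8733235 z z) z) (n 0 (n 0 z z) (n 0 (n 0 z z) (n 0 (n 0 z z) (n 0
 (n 0 z z) (n 0 (n 0 (n 8730139 z z) z) (n 0 (n 0 (n 8733235 z z) z) (n 0 (n 0 (n
 0x2387281c81f91d82176191e85d7e479d8629227a275c91e8228a481f8637de86481e89d7de7218200041 z (n
 8726299 z z)) z) (n 0 (n 0 z z) (n 0 (n 0 (n 8733235 z z) z) (n 0 (n 0 z z) (n 0 (n 0 z z) (n 0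
 (n 0 z z) (n 0 (n 0 z z) (n 0 (n 0 z z) (n 0 (n 0 (n 8726299 z z) z) (n 0 (n 0 z z) (n 0 (n 0 z
 z) z)))))))))))))))))))))))))))))))) (n 57 (n 0 (n 0 z z) (n 0 (n 0 z z) (n 0 (n 0 z z) (n 0 (n
 0 z z) (n 0 (n 0 z z) (n 0 (n 0 z z) (n 0 (n 0 (n 8593667 z z) z) (n 0 (n 0 z z) (n 0 (n 0 z z)
 (n 0 (n 0 z z) (n 0 (n 0 z z) (n 0 (n 0 z z) z)))))))))))) (n 51 (n 0 (n 0 z z) (n 0 (n 0 z z)
 (n 0 (n 0 z z) (n 0 (n 0 z z) (n 0 (n 0 z z) (n 0 (n 0 z z) (n 0 (n 0 z z) (n 0 (n 0 z z) (n 0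
 (n 0 z z) (n 0 (n 0 z z) (n 0 (n 0 z z) z))))))))))) (n 27 (n 0 (n 0 z z) (n 0 (n 0 z z) (n 0
 (n 0 z z) (n 0 (n 0 z z) (n 0 (n 0 z z) (n 0 (n 0 z z) (n 0 (n 0 z z) (n 0 (n 0 z z) (n 0 (n 0
 z z) (n 0 (n 0 z z) (n 0 (n 0 z z) (n 0 (n 0 z z) (n 0 (n 0 z z) (n 0 (n 0 z z) (n 0 (n 0 (n
 8593667 z z) z) (n 0 (n 0 z z) (n 0 (n 0 z z) (n 0 (n 0 z z) (n 0 (n 0 (n 8851491 z (n 8851491
 z z)) z) (n 0 (n 0 z z) (n 0 (n 0 (n 8868963 z (n 8868963 z z)) z) (n 0 (n 0 z z) (n 0 (n 0 z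
 z) (n 0 (n 0 z z) (n 0 (n 0 z z) z))))))))))))))))))))))))) (n 1 (n 0 (n 0 z z) (n 0 (n 0 z z)
 (n 0 (n 0 z z) (n 0 (n 0 z z) (n 0 (n 0 (n 8733235 z (n 8733235 z z)) z) (n 0 (n 0 z z) (n 0 (n
 0 z z) (n 0 (n 0 z z) (n 0 (n 0 z z) (n 0 (n 0 z z) (n 0 (n 0 z z) (n 0 (n 0 z z) (n 0 (n 0 z
 z) (n 0 (n 0 (n 8733235 z (n 8733235 z z)) z) (n 0 (n 0 z z) (n 0 (n 0 z z) (n 0 (n 0 z z) (n 0
 (n 0 z z) (n 0 (n 0 (n 8726299 z (n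
 0x2b81081c81e95c8206e195e85c7a57dc86296376271b95f8228a581f8a37de86581e8dd7dd6e17df0041 z z)) z)
 (n 0 (n 0 (n 8730139 z (n 8730139 z z)) z) (n 0 (n 0 (n 8730139 z z) z) (n 0 (n 0 z z) (n 0 (n
 0 z z) (n 0 (n 0 z z) (n 0 (n 0 z z) (n 0 (n 0 z z) (n 0 (n 0 z z) (n 0 (n 0 z z) (n 0 (n 0 z
 z) (n 0 (n 0 z z) (n 0 (n 0 z z) (n 0 (n 0 z z) (n 0 (n 0 (n 8730139 z (n 8660747 z z)) z) (n 0
 (n 0 z z) (n 0 (n 0 z z) (n 0 (n 0 z z) (n 0 (n 0 z z) (n 0 (n 0 z z) (n 0 (n 0 z z) (n 0 (n 0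
 (n 0x4381079a85a99e85f79e99d85d7a479e8e49627e0757a5d82282471e8e47de7e68de8db89c6a38a00041 z (n
 0x1b87275b89d7e081f82091f7df96179f96392375f71975e9e17e479d8e081d9227de89d79a6a17df0041 z z)) z)
 (n 0 (n 0 z z) (n 0 (n 0 (n 8868963 z (n 8868963 z z)) z) (n 0 (n 0 z z) (n 0 (n 0 z z) (n 0 (n
 0 z z) (n 0 (n 0 (n 8733235 z (n 8733235 z z)) z) (n 0 (n 0 z z) (n 0 (n 0 z z) (n 0 (n 0 z z)
 (n 0 (n 0 z z) (n 0 (n 0 z z) (n 0 (n 0 z z) (n 0 (n 0 z z) (n 0 (n 0 z z) (n 0 (n 0 z z) (n 0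
 (n 0 z z) z)))))))))))))))))))))))))))))))))))))))))))))))))))))))) (n 153 (n 0 (n 0 z z) (n 0
 (n 0 z z) (n 0 (n 0 z z) (n 0 (n 0 z z) (n 0 (n 0 z z) (n 0 (n 0 z z) z)))))) (n 57 (n 0 (n 0 z
 z) (n 0 (n 0 z z) (n 0 (n 0 z z) (n 0 (n 0 z z) (n 0 (n 0 z z) (n 0 (n 0 z z) (n 0 (n 0 z z) (n
 0 (n 0 z z) (n 0 (n 0 z z) (n 0 (n 0 z z) z)))))))))) (n 51 (n 0 (n 0 (n 8726299 z z) z) (n 0
 (n 0 z z) (n 0 (n 0 z z) (n 0 (n 0 z z) (n 0 (n 0 z z) (n 0 (n 0 z z) (n 0 (n 0 (n 8733235 z z)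
 z) (n 0 (n 0 z z) (n 0 (n 0 (n 8593667 z z) z) (n 0 (n 0 z z) (n 0 (n 0 z z) (n 0 (n 0 (n
 8872275 z z) z) (n 0 (n 0 z z) (n 0 (n 0 z z) z)))))))))))))) (n 27 (n 0 (n 0 z z) (n 0 (n 0 z
 z) (n 0 (n 0 z z) (n 0 (n 0 z z) (n 0 (n 0 z z) (n 0 (n 0 z z) z)))))) (n 1 (n 0 (n 0 z z) (n 0
 (n 0 z z) (n 0 (n 0 (n 8851491 z (n 8851491 z z)) z) (n 0 (n 0 z z) (n 0 (n 0 z z) z))))) (n 0
 (n 0 (n 0 z z) (n 0 (n 0 z z) (n 0 (n 0 (n 8733235 z z) z) (n 0 (n 0 z z) (n 0 (n 0 z z) (n 0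
 (n 0 (n 8726299 z z) z) (n 0 (n 0 z z) (n 0 (n 0 z z) (n 0 (n 0 z z) (n 0 (n 0 z z) (n 0 (n 0 z
 z) (n 0 (n 0 z z) (n 0 (n 0 z z) (n 0 (n 0 (n 8729155 z (n 8729155 z z)) z) (n 0 (n 0 z z) (n 0
 (n 0 (n 8729155 z (n 8729155 z z)) z) (n 0 (n 0 z z) (n 0 (n 0 z z) (n 0 (n 0 z z) (n 0 (n 0 z
 z) (n 0 (n 0 z z) (n 0 (n 0 z z) (n 0 (n 0 z z) (n 0 (n 0 z z) (n 0 (n 0 z z) (n 0 (n 0 z z) (n
 0 (n 0 z z) (n 0 (n 0 z z) (n 0 (n 0 z z) (n 0 (n 0 z z) (n 0 (n 0 (n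
 0x138727dc81e7a08207e18e081f96175e8a28e27df75a7e092086281e8a18608637de85e79d76081f0041 z (n
 8726299 z z)) z) (n 0 (n 0 (n 8733235 z (n 8733235 z z)) z) (n 0 (n 0 z z) (n 0 (n 0 z z) (n 0
 (n 0 z z) (n 0 (n 0 z z) (n 0 (n 0 z z) (n 0 (n 0 z z) (n 0 (n 0 z z) (n 0 (n 0 z z) (n 0 (n 0
 z z) (n 0 (n 0 (n 8733235 z (n 8733235 z z)) z) (n 0 (n 0 z z) (n 0 (n 0 z z) (n 0 (n 0 z z) (n
 0 (n 0 z z) (n 0 (n 0 z z) z)))))))))))))))))))))))))))))))))))))))))))))))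
 z))))))))))))))))))))) z)))) z) z)))) z)))))))))), by decide +kernel⟩
theorem i10506 : ∃ t, chkR KT RW t 10506 10516 = true := ⟨(n
 0xd9bb45649a296cd40b663c2a2d50d96a90ca79d04aa582533700a96c0 (n 0x152d9 (n 303 (n 0 z (n 0 z (n
 0 z (n 0 z (n
 0x565465410184ca8a842078e18247a07dc89e6646df81c8e18218228667217dd8578e589e75da606a296179c76581c7a11001
 z (n 0 z (n 2 z (n 0 z (n 10 z (n 0 z (n 0 z (n 0 z (n 6565923 z (n 6565923 z (n 6554411 z (n 0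
 z z)))))))))))))))) (n 411 (n 18 z (n 26 z (n 0 z (n 6562131 z z)))) (n 9 (n 6497291 z (n
 0xaca8a8020379d8e28a18dd7dfaea520358c9f9207a182471d8a781699c7db8a08e666379c7a0a5f8628e00801 z
 (n 0 z (n 34 z (n 0 z (n 6561843 z (n 6561843 z z))))))) (n 3 (n 0 z (n 0 z (n 0 z (n 42 z (n
 6565923 z (n 50 z (n 0 z (n 0 z z)))))))) (n 1 (n 6561843 z (n 58 z (n
 0x6ca8a4020782082086186082082185e85f79f7e08e08617de8a381e8e179f81f8227a082182075f72079e0801 z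
 (n 0 z (n
 0x665265210186ca8a642038288a781f89f7df5a16a0a5f52271c7a38df8dc7ddba06a09a076291d8e189f75f62891b9e31001
 z (n 6565923 z (n 6565923 z (n 0 z (n 6562131 z z))))))))) (n 0 (n 0 z (n 0 z (n 66 z (n 0 z (n
 74 z (n 6632491 z (n 82 z z))))))) z)))))) (n 411 (n 0 (n 0 z (n 739 (n 0 z (n 0 z (n 0 z (n 0
 z (n 0 z (n 0 z (n 0 z (n 0 z (n 0 z (n 0 z z)))))))))) (n 739 (n 0 z (n 0 z (n 2 (n 2 (n 0 z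
 (n 0 z (n 0 z (n 0 z (n 0 z (n 0 z z)))))) (n 2 (n 0 z (n 0 z (n 0 z (n 0 z (n 0 z (n 0 z
 z)))))) (n 2 (n 0 z (n 0 z (n 0 z (n 0 z (n 0 z (n 0 z z)))))) (n 2 (n 0 z (n 0 z (n 0 z (n 0
 (n 8802843 z z) (n 0 z (n 0 z z)))))) (n 2 (n 0 z (n 0 z (n 0 z (n 0 z (n 0 z (n 0 z z)))))) (n
 2 (n 0 z (n 0 z (n 0 z (n 0 z (n 0 z (n 0 z z)))))) (n 2 (n 0 z (n 0 z (n 0 z (n 0 (n 8868163 z
 z) (n 0 z (n 0 z z)))))) z))))))) (n 0 z (n 0 z (n 0 z (n 0 z (n 0 z (n 0 z (n 0 z z))))))))))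
 (n 135 (n 0 z (n 0 z (n 0 z (n 0 z (n 0 z (n 0 z (n 0 z (n 0 z (n 0 z (n 0 z (n 0 z (n 0 z
 z)))))))))))) (n 627 (n 0 z (n 0 z (n 0 z (n 0 z (n 0 z (n 0 z (n 0 z (n 0 z (n 0 z (n 0 z (n 0
 z (n 0 z (n 0 z (n 0 z (n 0 z (n 0 z z)))))))))))))))) (n 627 (n 0 z (n 2 (n 2 (n 0 z (n 0 z (n
 0 z (n 0 (n 8802843 z z) (n 0 z (n 0 z z)))))) (n 2 (n 0 z (n 0 z (n 0 z (n 0 z (n 0 z (n 0 z
 z)))))) (n 2 (n 0 z (n 0 z (n 0 z (n 0 z (n 0 z (n 0 z z)))))) (n 2 (n 0 z (n 0 z (n 0 z (n 0 z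
 (n 0 z (n 0 z z)))))) z)))) (n 0 z (n 0 z (n 0 z (n 0 z (n 0 z (n 0 z (n 0 z (n 0 z (n 0 z (n 0
 z (n 0 z (n 0 z (n 0 z (n 0 z z)))))))))))))))) (n 137 (n 0 z (n 0 z (n 0 z (n 0 z (n 0 z (n 0
 z (n 0 z (n 0 z z)))))))) (n 737 (n 0 z (n 0 z (n 0 z (n 0 z (n 0 z (n 0 z (n 0 z (n 0 z (n 0 z
 (n 0 z (n 0 z (n 0 z (n 0 z (n 0 z z)))))))))))))) (n 737 (n 0 z (n 0 z (n 0 z (n 0 z (n 0 z (n
 0 z (n 0 z (n 0 z (n 0 z (n 0 z (n 0 z (n 0 z (n 0 z (n 0 z z)))))))))))))) (n 737 (n 0 z (n 0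
 z (n 0 z (n 0 z (n 0 z (n 0 z (n 0 z (n 0 z (n 7754267 z (n 0 z (n 0 z (n 0 z (n 0 z (n 0 z
 z)))))))))))))) z)))))))))) (n 0 (n 751 (n 0 z (n 0 z (n 0 z (n 0 z (n 0 z (n 0 z (n 0 z (n 0 z
 (n 0 z (n 0 z z)))))))))) (n 751 (n 0 z (n 2 (n 2 (n 0 z (n 0 z (n 0 z (n 0 z (n 0 z (n 0 z
 z)))))) (n 2 (n 0 z (n 0 z (n 0 z (n 0 z (n 0 z (n 0 z z)))))) (n 2 (n 0 z (n 0 z (n 0 z (n 0 z
 (n 0 z (n 0 z z)))))) (n 2 (n 0 z (n 0 z (n 0 z (n 0 z (n 0 z (n 0 z z)))))) (n 2 (n 0 z (n 0 z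
 (n 0 z (n 0 z (n 0 z (n 0 z z)))))) (n 2 (n 0 z (n 0 z (n 0 z (n 0 z (n 0 z (n 0 z z)))))) (n 1
 z z))))))) (n 0 z (n 0 z (n 0 z (n 0 z (n 0 z (n 0 z (n 0 z (n 0 z z)))))))))) (n 753 (n 0 z (n
 0 z (n 0 z (n 2 (n 1 z (n 1 z (n 1 z (n 2 (n 0 z (n 0 z (n 0 z (n 0 z (n 0 z (n 0 z z)))))) (n
 2 (n 0 z (n 0 z (n 0 z (n 0 z (n 0 z (n 0 z z)))))) (n 2 (n 0 z (n 0 z (n 0 z (n 0 (n 8730475 z
 z) (n 0 z (n 0 z z)))))) z)))))) (n 0 z (n 0 z (n 0 z z))))))) (n 1059 (n 0 z (n 0 z (n 0 z (n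
 0 z (n 0 z (n 0 z (n 0 z (n 0 z (n 0 z (n 0 z (n 0 z (n 0 z (n 0 z (n 0 z (n 0 z
 z))))))))))))))) (n 1059 (n 0 z (n 0 z (n 2 (n 2 (n 0 z (n 0 z (n 0 z (n 0 z (n 0 z (n 0 z
 z)))))) (n 2 (n 0 z (n 0 z (n 0 z (n 0 z (n 0 z (n 0 z z)))))) (n 2 (n 0 z (n 0 z (n 0 z (n 0 z
 (n 0 z (n 0 z z)))))) (n 1 z z)))) (n 0 z (n 0 z (n 0 z (n 0 z (n 0 z (n 0 z (n 0 z (n 0 z (n 0
 z (n 0 z (n 0 z (n 0 z z))))))))))))))) (n 137 (n 0 z (n 0 z (n 0 z (n 2 (n 2 (n 0 z (n 0 z (n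
 0 z (n 0 (n 8856331 z z) (n 0 z (n 0 z z)))))) (n 2 (n 0 z (n 0 z (n 0 z (n 0 (n 8868379 z z)
 (n 0 z (n 0 z z)))))) (n 1 z z))) (n 0 z (n 0 z (n 0 z z))))))) (n 749 (n 0 z (n 0 z (n 0 z (n
 0 z (n 0 z (n 0 z (n 0 z (n 0 z (n 0 z z))))))))) (n 749 (n 0 z (n 0 z (n 0 z (n 0 z (n 0 z (n
 0 z (n 0 z (n 0 z (n 0 z z))))))))) (n 749 (n 0 z (n 0 z (n 0 z (n 0 z (n 0 z (n 0 z (n 0 z (n
 0 z (n 0 z z))))))))) z))))))))) (n 0 (n 0 z (n 347 (n 0 z (n 0 z (n 0 z (n 0 z (n 0 z (n 0 z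
 (n 0 z (n 0 z (n 0 z z))))))))) (n 7 (n 0 z (n 0 z (n 0 z (n 0 z (n 0 z (n 0 z (n 0 z z)))))))
 (n 7 (n 0 z (n 0 z (n 2 (n 2 (n 0 z (n 0 z (n 0 z (n 0 (n 8872195 z z) (n 0 z (n 0 z z)))))) (n
 2 (n 0 z (n 0 z (n 0 z (n 0 z (n 0 z (n 0 z z)))))) (n 2 (n 0 z (n 0 z (n 0 z (n 0 z (n 0 z (n
 0 z z)))))) (n 2 (n 0 z (n 0 z (n 0 z (n 0 z (n 0 z (n 0 z z)))))) z)))) (n 0 z (n 0 z (n 0 z
 (n 0 z z))))))) (n 345 (n 0 z (n 0 z (n 0 z (n 0 z (n 0 z (n 0 z (n 0 z (n 0 z (n 0 z (n 0 z (n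
 0 z z))))))))))) (n 337 (n 0 z (n 0 z (n 0 z (n 0 z (n 0 z z))))) (n 337 (n 0 z (n 0 z (n 0 z
 (n 0 z (n 0 z z))))) (n 337 (n 0 z (n 0 z (n 0 z (n 0 z (n 0 z z))))) z)))))))) (n 0 (n 19 (n 2
 (n 2 (n 0 z (n 0 z (n 0 z (n 0 z (n 0 z (n 0 z z)))))) (n 2 (n 0 z (n 0 z (n 0 z (n 0 z (n 0 z
 (n 0 z z)))))) (n 2 (n 0 z (n 0 z (n 0 z (n 0 z (n 0 z (n 0 z z)))))) (n 2 (n 0 z (n 0 z (n 0 z
 (n 0 z (n 0 z (n 0 z z)))))) (n 2 (n 0 z (n 0 z (n 0 z (n 0 z (n 0 z (n 0 z z)))))) (n 2 (n 0 z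
 (n 0 z (n 0 z (n 0 z (n 0 z (n 0 z z)))))) z)))))) (n 0 z (n 0 z (n 0 z z)))) (n 7 (n 2 (n 0 z
 (n 2 (n 0 z (n 0 z (n 0 z (n 0 (n 8872195 z z) (n 0 z (n 0 z z)))))) (n 2 (n 0 z (n 0 z (n 0 z
 (n 0 z (n 0 z (n 0 z z)))))) (n 2 (n 0 z (n 0 z (n 0 z (n 0 z (n 0 z (n 0 z z)))))) (n 2 (n 0 z
 (n 0 z (n 0 z (n 0 (n 8802627 z z) (n 0 z (n 0 z z)))))) z))))) (n 0 z (n 0 z z))) (n 7 (n 0 z
 (n 0 z (n 0 z z))) (n 15 (n 0 z (n 0 z (n 0 z (n 0 z (n 2 (n 2 (n 0 z (n 0 z (n 0 z (n 0 (n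
 8872195 z z) (n 0 z (n 0 z z)))))) (n 2 (n 0 z (n 0 z (n 0 z (n 0 (n 8872195 z z) (n 0 z (n 0 z
 z)))))) (n 2 (n 0 z (n 0 z (n 0 z (n 0 (n 8802627 z z) (n 0 z (n 0 z z)))))) z))) (n 0 z (n 0 z
 (n 0 z (n 0 z (n 0 z (n 0 z (n 0 z (n 0 z (n 0 z z)))))))))))))) (n 13 (n 0 z (n 0 z (n 0 z (n
 0 z (n 2 (n 0 z (n 0 z z)) (n 0 z (n 0 z z))))))) (n 13 (n 0 z (n 0 z (n 2 (n 0 z z) (n 0 z (n
 0 z (n 0 z (n 0 z z))))))) (n 13 (n 0 z (n 0 z (n 0 z (n 0 z (n 0 z (n 7754051 z (n 0 z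
 z))))))) z))))))) (n 0 (n 55 (n 0 z (n 0 z (n 0 z (n 0 z (n 0 z (n 0 z (n 0 z z))))))) (n 55 (n
 0 z (n 0 z (n 2 (n 2 (n 0 z (n 0 z (n 0 z (n 0 (n 8872195 z z) (n 0 z (n 0 z z)))))) (n 2 (n 0
 z (n 0 z (n 0 z (n 0 z (n 0 z (n 0 z z)))))) (n 2 (n 0 z (n 0 z (n 0 z (n 0 z (n 0 z (n 0 z
 z)))))) (n 2 (n 0 z (n 0 z (n 0 z (n 0 z (n 0 z (n 0 z z)))))) z)))) (n 0 z (n 0 z (n 0 z (n 0
 z z))))))) (n 585 (n 0 z (n 0 z (n 0 z (n 0 z (n 0 z (n 0 z (n 0 z z))))))) (n 493 (n 0 z (n 0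
 z (n 0 z (n 0 z (n 0 z (n 0 z (n 0 z (n 0 z (n 0 z (n 0 z (n 0 z (n 0 z z)))))))))))) (n 493 (n
 0 z (n 0 z (n 0 z (n 0 z (n 0 z (n 0 z (n 0 z (n 0 z (n 0 z (n 0 z (n 0 z (n 0 z z))))))))))))
 (n 493 (n 0 z (n 0 z (n 0 z (n 0 z (n 0 z (n 0 z (n 0 z (n 0 z (n 0 z (n 0 z (n 0 z (n 0 z
 z)))))))))))) z)))))) (n 0 (n 0 z (n 99 (n 0 z (n 0 z (n 0 z (n 0 z (n 0 z (n 0 z (n 0 z (n 0 z
 (n 0 z (n 0 z (n 0 z (n 0 z z)))))))))))) (n 97 (n 0 z (n 0 z (n 0 z (n 0 z (n 0 z (n 0 z (n 0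
 z (n 0 z (n 0 z z))))))))) (n 97 (n 0 z (n 0 z (n 0 z (n 0 z (n 0 z (n 0 z (n 0 z (n 0 z (n 0 z
 z))))))))) (n 97 (n 0 z (n 0 z (n 0 z (n 0 z (n 0 z (n 0 z (n 0 z (n 0 z (n 0 z z)))))))))
 z))))) (n 0 (n 15 (n 0 z (n 2 (n 2 (n 0 z (n 0 z (n 0 z (n 0 z (n 0 z (n 0 z z)))))) (n 2 (n 0
 z (n 0 z (n 0 z (n 0 (n 8872195 z z) (n 0 z (n 0 z z)))))) (n 2 (n 0 z (n 0 z (n 0 z (n 0 z (n
 0 z (n 0 z z)))))) z))) (n 0 z (n 0 z (n 0 z (n 0 z (n 0 z (n 0 z (n 0 z z))))))))) (n 13 (n 0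
 z (n 0 z (n 0 z (n 0 z (n 0 z z))))) (n 13 (n 2 (n 0 z z) (n 0 z (n 0 z (n 0 z (n 0 z z))))) (n
 13 (n 0 z (n 0 z (n 0 z (n 0 z (n 0 z z))))) z)))) (n 0 (n 985 (n 0 z (n 0 z (n 0 z (n 0 z (n 0
 z (n 0 z (n 0 z (n 0 z (n 0 z (n 0 z (n 0 z (n 0 z (n 0 z (n 0 z (n 0 z (n 0 z (n 0 z (n 0 z (n
 0 z (n 0 z (n 0 z (n 0 z z)))))))))))))))))))))) (n 985 (n 0 z (n 0 z (n 0 z (n 0 z (n 0 z (n 0
 z (n 0 z (n 0 z (n 0 z (n 0 z (n 0 z (n 0 z (n 0 z (n 0 z (n 0 z (n 0 z (n 0 z (n 0 z (n 0 z (n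
 0 z (n 0 z (n 0 z z)))))))))))))))))))))) (n 985 (n 0 z (n 0 z (n 0 z (n 0 z (n 0 z (n 0 z (n 0
 z (n 0 z (n 0 z (n 0 z (n 0 z (n 7754267 z (n 0 z (n 0 z (n 0 z (n 0 z (n 0 z (n 0 z (n 0 z (n
 0 z (n 0 z (n 0 z z)))))))))))))))))))))) z))) (n 0 (n 0 z (n 0 z z)) (n 0 (n 0 z z) (n 0 z
 z))))))))))) (n 0 (n 1 (n 2428 z (n 2428 z (n 2 z (n 2428 z (n 2428 z (n 2428 z z)))))) (n 1 (n
 2428 z (n 2428 z (n 2428 z (n 2428 z (n 2428 z (n 4396635 z z)))))) (n 0 z (n 1 (n 6562131 z (n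
 6562131 z (n 6562131 z (n 6562131 z (n 6562131 z (n 6562131 z z)))))) z)))) (n 0 (n 0x2f3a09 (n
 0 (n 0 (n 7742219 z (n 7742219 z (n 7742219 z (n 7742219 z (n 7742219 z (n 7742219 z z)))))) z)
 (n 0 (n 68 (n 1 (n 7614499 z (n 7614499 z (n 7614499 z (n 7614499 z (n 7614499 z (n 7614499 z
 z)))))) (n 1 (n 2428 z (n 2428 z (n 2428 z (n 5510923 z (n 7681067 z (n 2428 z z)))))) (n 1 (n
 6566515 z (n 7602987 z (n 7602987 z (n 6637323 z (n 7602987 z (n 7602987 z z)))))) (n 1 (n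
 7610707 z (n 7610707 z (n 7610707 z (n 7610707 z (n 7610707 z (n 7610707 z z)))))) (n 1 (n 2428
 z (n 2428 z (n 2428 z (n 2428 z (n 2428 z (n 7681067 z z)))))) (n 1 (n 7614499 z (n 7614499 z
 (n 7614499 z (n 7614499 z (n 7614499 z (n 7614499 z z)))))) (n 1 (n 2428 z (n 2428 z (n 7681067
 z (n 2428 z (n 4401003 z (n 6563611 z z)))))) (n 1 (n 2428 z (n 2428 z (n 2956 z (n 2428 z (n
 7681067 z (n 6559579 z z)))))) z)))))))) (n 411 (n 1 (n 7742219 z (n 7742219 z (n 7742219 z (n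
 7742219 z (n 7742219 z (n 7742219 z z)))))) (n 1 (n 2 z (n 6567771 z (n 6555419 z (n 3148 z (n
 3148 z (n 3148 z z)))))) (n 0 z (n 1 (n 7610707 z (n 7610707 z (n 7610707 z (n 7610707 z (n
 7610707 z (n 7610707 z z)))))) z)))) (n 9 (n 1 (n 7545867 z (n 7545867 z (n 7545867 z (n
 7545867 z (n 7545867 z (n 7545867 z z)))))) (n 1 (n 2476 z (n 2476 z (n 2476 z (n 7472667 z (n
 2476 z (n 2476 z z)))))) (n 0 z (n 1 (n 7742219 z (n 7742219 z (n 7742219 z (n 7742219 z (n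
 7742219 z (n 7742219 z z)))))) (n 0 z (n 1 (n 7610419 z (n 7610419 z (n 7610419 z (n 7610419 z
 (n 7610419 z (n 7610419 z z)))))) (n 1 (n 7610419 z (n 7610419 z (n 7610419 z (n 7610419 z (n
 7610419 z (n 7610419 z z)))))) z))))))) (n 57 (n 0 z (n 1 (n 7614499 z (n 7614499 z (n 7614499
 z (n 7614499 z (n 7614499 z (n 7614499 z z)))))) (n 1 (n 7472667 z (n 388 z (n 2620 z (n 2620 z
 (n 7754267 z (n 2620 z z)))))) (n 0 z (n 0 z (n 0 z (n 1 (n 7610707 z (n 7610707 z (n 7610707 z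
 (n 7610707 z (n 7610707 z (n 7610707 z z)))))) z))))))) (n 556 (n 1 (n 7754267 z (n 7614499 z
 (n 4604 z (n 7602987 z (n
 0x975465310188ea8a642036e29a375f91b8606d86addeb16c6d97198518dc79ce655d8a278626e08a45d7827720896a211001
 z (n 4604 z z)))))) (n 1 (n 4604 z (n 7614499 z (n 7602987 z (n 4604 z (n 4604 z (n 4604 z
 z)))))) (n 1 (n 7610707 z (n 7614499 z (n 7610707 z (n 7610707 z (n 7610707 z (n 7610707 z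
 z)))))) (n 1 (n 7610419 z (n 7614499 z (n 7610419 z (n 7610419 z (n 7610419 z (n 7610419 z
 z)))))) (n 1 (n 7602987 z (n 7614499 z (n 5449579 z (n 4604 z (n
 0x6ea8a4020782082086186082082185e85f79f7e08e08617de8a381e8e179f81f8227a082182075f72079e0801 z
 (n 7754267 z z)))))) (n 1 (n 7610419 z (n 7614499 z (n 7610419 z (n 7610419 z (n 7610419 z (n
 7610419 z z)))))) (n 1 (n 7610419 z (n 7614499 z (n 7610419 z (n 7610419 z (n 7610419 z (n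
 7610419 z z)))))) z))))))) (n 675 (n 0 z (n 0 z (n 1 (n 3278619 z (n 3278619 z (n 7754267 z (n
 3278619 z (n 3278619 z (n 3278619 z z)))))) (n 1 (n 7472667 z (n 3788 z (n 3788 z (n 3788 z (n
 7754267 z (n 4396891 z z)))))) (n 1 (n 7681067 z (n 7472667 z (n 7681067 z (n 7681067 z (n
 7681067 z (n 7754267 z z)))))) z))))) (n 411 (n 1 (n 7742219 z (n 7742219 z (n 7742219 z (n
 7742219 z (n 7742219 z (n 7742219 z z)))))) (n 1 (n 2428 z (n 2428 z (n 2428 z (n 2428 z (n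
 7754267 z (n 4396891 z z)))))) (n 0 z (n 1 (n 7610707 z (n 7610707 z (n 7610707 z (n 7610707 z
 (n 7610707 z (n 7610707 z z)))))) z)))) z))))))) (n 0 (n 0 (n 0 z z) z) (n 0 (n 393 (n 0 (n 0 z
 z) (n 0 (n 0 z z) (n 0 (n 0 z z) (n 0 (n 0 z z) (n 0 (n 0 z z) (n 0 (n 0 z z) (n 0 (n 0 z z) (n
 0 (n 0 z z) (n 0 (n 0 z z) (n 0 (n 0 z z) z)))))))))) (n 309 (n 0 (n 0 z z) (n 0 (n 0 z z) (n 0
 (n 0 z z) (n 0 (n 0 z z) (n 0 (n 0 z z) (n 0 (n 0 z z) (n 0 (n 0 z z) (n 0 (n 0 z z) (n 0 (n 0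
 (n 8659283 z (n 8659283 z z)) z) (n 0 (n 0 z z) (n 0 (n 0 z z) (n 0 (n 0 z z) z)))))))))))) (n
 293 (n 0 (n 0 z z) (n 0 (n 0 z z) (n 0 (n 0 z z) (n 0 (n 0 z z) (n 0 (n 0 z z) (n 0 (n 0 z z)
 (n 0 (n 0 z z) (n 0 (n 0 z z) (n 0 (n 0 z z) z))))))))) (n 327 (n 0 (n 0 (n 8663075 z (n
 8663075 z z)) z) (n 0 (n 0 z z) (n 0 (n 0 z z) (n 0 (n 0 z z) (n 0 (n 0 z z) (n 0 (n 0 z z) (n
 0 (n 0 (n 8859747 z (n 8859747 z z)) z) (n 0 (n 0 (n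
 0x1d8748218218607e07e17e086081f81f7e08208a08608608608207e17e08207e18608208218208600041 z (n
 0x8548541018400b0ce56a7e182182181f7e08208608207a08208208df82086185e8608208607e089f8208207df8207e01001
 z z)) z) (n 0 (n 0 z z) (n 0 (n 0 z z) (n 0 (n 0 z z) (n 0 (n 0 z z) (n 0 (n 0 z z) (n 0 (n 0 z
 z) (n 0 (n 0 z z) (n 0 (n 0 z z) z)))))))))))))))) (n 57 (n 0 (n 0 z z) (n 0 (n 0 z z) (n 0 (n
 0 z z) (n 0 (n 0 z z) (n 0 (n 0 z z) (n 0 (n 0 z z) (n 0 (n 0 z z) z))))))) (n 51 (n 0 (n 0 z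
 z) (n 0 (n 0 z z) (n 0 (n 0 z z) (n 0 (n 0 z z) (n 0 (n 0 z z) (n 0 (n 0 z z) (n 0 (n 0 z z)
 z))))))) (n 575 (n 0 (n 0 z z) (n 0 (n 0 z z) (n 0 (n 0 z z) (n 0 (n 0 z z) (n 0 (n 0 z z) (n 0
 (n 0 z z) (n 0 (n 0 z z) (n 0 (n 0 z z) z)))))))) (n 557 (n 0 (n 0 z z) (n 0 (n 0 z z) (n 0 (n
 0 z z) (n 0 (n 0 z z) (n 0 (n 0 z z) (n 0 (n 0 z z) (n 0 (n 0 z z) (n 0 (n 0 z z) (n 0 (n 0 z
 z) (n 0 (n 0 z z) (n 0 (n 0 z z) z))))))))))) (n 556 (n 0 (n 0 z z) (n 0 (n 0 z z) (n 0 (n 0 z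
 z) (n 0 (n 0 z z) (n 0 (n 0 z z) (n 0 (n 0 z z) (n 0 (n 0 z z) z))))))) (n 73 (n 0 (n 0 z z) (n
 0 (n 0 z z) (n 0 (n 0 z z) (n 0 (n 0 z z) (n 0 (n 0 (n 8872195 z z) z) (n 0 (n 0 (n 8872195 z
 (n 8872195 z z)) z) (n 0 (n 0 z z) (n 0 (n 0 z z) (n 0 (n 0 z z) (n 0 (n 0 z z) (n 0 (n 0 z z)
 (n 0 (n 0 z z) z)))))))))))) (n 473 (n 0 (n 0 (n 8663075 z z) z) (n 0 (n 0 z z) (n 0 (n 0 z z)
 (n 0 (n 0 z z) (n 0 (n 0 z z) (n 0 (n 0 z z) (n 0 (n 0 z z) (n 0 (n 0 z z) (n 0 (n 0 z z) (n 0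
 (n 0 z z) (n 0 (n 0 z z) (n 0 (n 0 (n 8663075 z z) z) (n 0 (n 0 z z) (n 0 (n 0 z z)
 z)))))))))))))) (n 675 (n 0 (n 0 z z) (n 0 (n 0 z z) (n 0 (n 0 z z) (n 0 (n 0 z z) (n 0 (n 0 z
 z) z))))) (n 613 (n 0 (n 0 (n 8872195 z z) z) (n 0 (n 0 z z) (n 0 (n 0 z z) (n 0 (n 0 z z) (n 0
 (n 0 z z) (n 0 (n 0 z z) (n 0 (n 0 z z) (n 0 (n 0 z z) (n 0 (n 0 z z) (n 0 (n 0 z z) (n 0 (n 0
 (n 8868163 z z) z) (n 0 (n 0 z z) z)))))))))))) (n 97 (n 0 (n 0 (n 8872195 z z) z) (n 0 (n 0 z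
 z) (n 0 (n 0 z z) (n 0 (n 0 z z) (n 0 (n 0 (n 8872195 z (n 8872195 z z)) z) (n 0 (n 0 z z) (n 0
 (n 0 z z) (n 0 (n 0 z z) (n 0 (n 0 z z) z))))))))) (n 612 (n 0 (n 0 z z) (n 0 (n 0 z z) (n 0 (n
 0 z z) (n 0 (n 0 z z) (n 0 (n 0 z z) (n 0 (n 0 z z) (n 0 (n 0 z z) (n 0 (n 0 z z) (n 0 (n 0 z
 z) (n 0 (n 0 z z) (n 0 (n 0 z z) (n 0 (n 0 z z) (n 0 (n 0 z z) (n 0 (n 0 z z) (n 0 (n 0 z z) (n
 0 (n 0 z z) (n 0 (n 0 z z) (n 0 (n 0 z z) (n 0 (n 0 z z) (n 0 (n 0 z z) (n 0 (n 0 z z) (n 0 (n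
 0 z z) z)))))))))))))))))))))) (n 303 (n 0 (n 0 (n 8804155 z (n
 0x4ea30a08077e082082182082082082082086082082081f8207e18208608208208207e08218608208208200801 z
 z)) z) (n 0 (n 0 (n 8658995 z (n 8658995 z z)) z) (n 0 (n 0 z z) (n 0 (n 0 z z) (n 0 (n 0 z z)
 (n 0 (n 0 z z) (n 0 (n 0 z z) (n 0 (n 0 (n 8663075 z (n 8663075 z z)) z) (n 0 (n 0 z z) (n 0 (n
 0 (n 8663075 z (n 8663075 z z)) z) (n 0 (n 0 z z) (n 0 (n 0 (n 8663075 z (n 8663075 z z)) z) (n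
 0 (n 0 z z) (n 0 (n 0 z z) (n 0 (n 0 z z) (n 0 (n 0 z z) z)))))))))))))))) (n 411 (n 0 (n 0 z
 z) (n 0 (n 0 z z) (n 0 (n 0 z z) (n 0 (n 0 z z) z)))) (n 9 (n 0 (n 0 z z) (n 0 (n 0 z z) (n 0
 (n 0 z z) (n 0 (n 0 z z) (n 0 (n 0 z z) (n 0 (n 0 z z) (n 0 (n 0 z z) z))))))) (n 3 (n 0 (n 0 z
 z) (n 0 (n 0 (n 8664923 z (n 0xea30a08030821 z z)) z) (n 0 (n 0 z z) (n 0 (n 0 z z) (n 0 (n 0 z
 z) (n 0 (n 0 z z) (n 0 (n 0 z z) (n 0 (n 0 z z) z)))))))) (n 1 (n 0 (n 0 z z) (n 0 (n 0 z z) (n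
 0 (n 0 z z) (n 0 (n 0 z z) (n 0 (n 0 z z) (n 0 (n 0 (n 8663075 z z) z) (n 0 (n 0 z z) (n 0 (n 0
 z z) (n 0 (n 0 z z) z))))))))) (n 0 (n 0 (n 0 z z) (n 0 (n 0 z z) (n 0 (n 0 z z) (n 0 (n 0 z z)
 (n 0 (n 0 z z) (n 0 (n 0 z z) (n 0 (n 0 z z) z))))))) z))))))))))))))))))))) z)))) z) z)))) (n
 0x994b41d74b86b34835d241529211746889ab870d143a884cc8530eb80 (n 0x21d74 (n 153 (n 0 z (n 2 z (n
 6496275 z z))) (n 33 (n 10 z (n 18 z (n 6496515 z (n 0 z z)))) (n 9 (n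
 0x36ca8ca860380808d796c7d83558c6180797c80777f9f6467a8787c9288807b7f7193738c8d7e828f7b8b7c797d808f6a7a7e896d71919a0809
 z (n 6627395 z (n 0 z (n 6496515 z (n 26 z (n 0 z (n 6496515 z z))))))) (n 243 (n
 0x32ca8ca820380797a797f7f83668a6c8d807e808a66958a719a7b7e8871805e81828a697995747f7c819c708f827e9779838b8b917180910809
 z (n 6496523 z (n 34 z (n
 0xcca2ca20077f8288967588758d7a787e4b9880a8847082748371897e7c806484776186876892727a8f79788280867585857e7989847a830809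
 z (n 0 z (n 0 z (n 0 z (n 0 z (n 0 z (n 6496275 z (n 0 z (n 0 z (n 0 z (n 42 z (n 0 z (n
 0xcca8ca42077f82798b7f817a897b7b806d8d808e8175857d788086817b807d807e6a838870957578937580818389768a837e7e86847a800809
 z (n 0 z (n 0 z (n 0 z (n 0 z (n 0 z (n 0 z (n
 0x595195040602ca6a842077e81817c7f7f7f7f817f82817c7c807e847e847f817f7f828081807e807f7f83807d807e837e808280828081807f808180801009
 z (n 0 z (n 6496515 z (n 0 z (n 0 z z))))))))))))))))))))))))))) (n 1 (n 6558219 z (n 0 z (n 50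
 z (n 0 z (n 58 z (n 0 z (n 0 z (n 66 z z)))))))) (n 0 (n 74 z (n 6627395 z (n 82 z (n 0 z (n 0
 z z))))) z)))))) (n 153 (n 0 (n 1003 (n 0 z (n 0 z (n 2 (n 0 z (n 2 (n 0 z (n 0 z (n 0 (n
 8873267 z z) (n 0 z (n 0 z (n 0 z z)))))) (n 2 (n 0 z (n 0 z (n 0 z (n 0 z (n 0 z (n 0 z
 z)))))) (n 2 (n 0 z (n 0 z (n 0 z (n 0 z (n 0 z (n 0 z z)))))) (n 2 (n 0 z (n 0 z (n 0 z (n 0 z
 (n 0 z (n 0 z z)))))) (n 2 (n 0 z (n 0 z (n 0 z (n 0 z (n 0 z (n 0 z z)))))) (n 2 (n 0 z (n 0 z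
 (n 0 z (n 0 z (n 0 z (n 0 z z)))))) (n 2 (n 0 z (n 0 z (n 0 z (n 0 z (n 0 z (n 0 z z)))))) (n 2
 (n 0 z (n 0 z (n 0 z (n 0 z (n 0 z (n 0 z z)))))) z))))))))) z))) (n 1003 (n 0 z (n 0 z (n 0 z
 z))) (n 999 (n 0 z (n 0 z (n 0 z (n 0 z (n 0 z (n 0 z (n 0 z z))))))) (n 1001 (n 0 z (n 0 z (n
 0 z (n 0 z (n 0 z (n 0 z (n 0 z (n 0 z (n 0 z (n 0 z (n 0 z (n 0 z (n 0 z (n 0 z (n 0 z (n 0 z
 (n 0 z (n 0 z (n 0 z (n 0 z (n 0 z (n 0 z (n 0 z (n 0 z (n 0 z (n 0 z (n 0 z (n 2 (n 0 z (n 2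
 (n 0 z (n 0 z (n 0 (n 8656747 z z) (n 0 z (n 0 z (n 0 z z)))))) (n 2 (n 0 z (n 0 z (n 0 z (n 0
 z (n 0 z (n 0 z z)))))) (n 2 (n 0 z (n 0 z (n 0 z (n 0 z (n 0 z (n 0 z z)))))) (n 1 z (n 2 (n 0
 z (n 0 z (n 0 z (n 0 z (n 0 z (n 0 z z)))))) z)))))) (n 0 z (n 0 z
 z)))))))))))))))))))))))))))))) (n 1001 (n 0 z (n 0 z (n 0 z (n 0 z (n 0 z (n 0 z (n 0 z (n 0 z
 (n 0 z (n 0 z (n 0 z (n 0 z (n 0 z (n 0 z (n 0 z (n 0 z (n 0 z (n 0 z (n 0 z (n 0 z (n 0 z (n 0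
 z (n 0 z (n 0 z (n 0 z (n 0 z (n 0 z (n 0 z (n 0 z (n 0 z z)))))))))))))))))))))))))))))) (n
 309 (n 0 z (n 0 z (n 0 z z))) (n 309 (n 0 z (n 0 z (n 0 z z))) (n 309 (n 0 z (n 0 z (n 0 z z)))
 (n 305 (n 0 z (n 0 z (n 0 z (n 0 z (n 0 z (n 0 z (n 0 z z))))))) (n 305 (n 0 z (n 0 z (n 0 z (n
 0 z (n 0 z (n 0 z (n 2 z z))))))) z)))))))))) (n 0 (n 0 z (n 1287 (n 0 z (n 0 z (n 0 z (n 0 z
 (n 0 z (n 0 z (n 2 (n 2 (n 0 z (n 0 z (n 0 z (n 0 z (n 0 z (n 0 z z)))))) (n 2 (n 0 z (n 0 z (n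
 0 (n 8865035 z z) (n 0 z (n 0 z (n 0 z z)))))) (n 2 (n 0 z (n 0 z (n 0 z (n 0 z (n 0 z (n 0 z
 z)))))) (n 2 (n 0 z (n 0 z (n 0 z (n 0 z (n 0 z (n 0 z z)))))) (n 2 (n 0 z (n 0 z (n 0 (n
 8873267 z z) (n 0 z (n 0 z (n 0 z z)))))) (n 2 (n 0 z (n 0 z (n 0 (n 8873267 z z) (n 0 z (n 0 z
 (n 0 z z)))))) (n 2 (n 0 z (n 0 z (n 0 z (n 0 z (n 0 z (n 0 z z)))))) z))))))) z))))))) (n 513
 (n 0 z (n 0 z (n 0 z (n 0 z (n 0 z (n 0 z (n 0 z (n 0 z (n 0 z (n 0 z (n 0 z (n 0 z (n 0 z (n 2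
 (n 0 z (n 1 z (n 2 (n 0 z (n 0 z (n 0 z (n 0 z (n 0 z (n 0 z z)))))) (n 2 (n 0 z (n 0 z (n 0 z
 (n 0 z (n 0 z (n 0 z z)))))) (n 2 (n 0 z (n 0 z (n 0 z (n 0 z (n 0 z (n 0 z z)))))) (n 2 (n 0 z
 (n 0 z (n 0 z (n 0 z (n 0 z (n 0 z z)))))) z)))))) (n 0 z (n 0 z (n 0 z (n 0 z (n 0 z (n 0 z (n
 0 z z))))))))))))))))))))) (n 513 (n 0 z (n 0 z (n 0 z (n 0 z (n 0 z (n 0 z (n 0 z (n 0 z (n 0
 z (n 0 z (n 0 z (n 0 z (n 0 z (n 0 z (n 0 z (n 0 z (n 0 z (n 2 (n 2 (n 0 z (n 0 z (n 0 z (n 0 z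
 (n 0 z (n 0 z z)))))) (n 2 (n 0 z (n 0 z (n 0 z (n 0 z (n 0 z (n 0 z z)))))) (n 2 (n 0 z (n 0 z
 (n 0 z (n 0 z (n 0 z (n 0 z z)))))) (n 2 (n 0 z (n 0 z (n 0 z (n 0 z (n 0 z (n 0 z z)))))) (n 2
 (n 0 z (n 0 z (n 0 z (n 0 z (n 0 z (n 0 z z)))))) z))))) (n 0 z (n 0 z (n 0 z
 z))))))))))))))))))))) (n 69 (n 0 z (n 0 z (n 0 z (n 0 z (n 0 z (n 0 z z)))))) (n 69 (n 0 z (n
 0 z (n 0 z (n 0 z (n 0 z (n 0 z z)))))) (n 69 (n 0 z (n 0 z (n 0 z (n 2 (n 2 (n 0 z (n 0 z (n 0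
 z (n 0 z (n 0 z (n 0 z z)))))) (n 2 (n 0 z (n 0 z (n 0 z (n 0 z (n 0 z (n 0 z z)))))) z)) (n 0
 z (n 0 z z)))))) (n 65 (n 0 z (n 0 z (n 0 z (n 0 z (n 0 z (n 0 z (n 2 (n 0 z z) (n 0 z
 z)))))))) (n 65 (n 0 z (n 0 z (n 0 z (n 0 z (n 0 z (n 0 z (n 0 z (n 0 z z)))))))) z))))))))) (n
 0 (n 1019 (n 0 z (n 0 z (n 0 z (n 0 z (n 0 z (n 0 z (n 0 z (n 0 z (n 0 z (n 0 z z)))))))))) (n
 513 (n 0 z (n 0 z (n 0 z (n 0 z (n 0 z (n 0 z (n 0 z (n 0 z (n 0 z (n 0 z (n 0 z (n 0 z (n 0 z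
 (n 0 z (n 0 z (n 0 z (n 0 z (n 0 z z)))))))))))))))))) (n 513 (n 0 z (n 0 z (n 0 z (n 0 z (n 0
 z (n 0 z (n 0 z (n 0 z (n 0 z (n 0 z (n 0 z (n 0 z (n 0 z (n 0 z (n 0 z (n 0 z (n 0 z (n 0 z
 z)))))))))))))))))) (n 69 (n 0 z (n 0 z (n 0 z z))) (n 69 (n 0 z (n 0 z (n 0 z z))) (n 69 (n 0
 z (n 0 z (n 0 z z))) (n 65 (n 0 z (n 0 z (n 0 z (n 0 z (n 0 z (n 0 z (n 0 z (n 0 z (n 0 z (n 0
 z (n 0 z (n 0 z (n 0 z (n 0 z z)))))))))))))) (n 65 (n 0 z (n 0 z (n 0 z (n 0 z (n 0 z (n 0 z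
 (n 0 z (n 0 z (n 0 z (n 0 z (n 0 z (n 0 z (n 0 z (n 2 z z)))))))))))))) z)))))))) (n 0 (n 1065
 (n 0 z (n 0 z (n 0 z (n 0 z (n 0 z (n 0 z (n 2 (n 0 z (n 1 z (n 2 (n 0 z (n 0 z (n 0 (n 8799499
 z z) (n 0 z (n 0 z (n 0 z z)))))) (n 2 (n 0 z (n 0 z (n 0 (n 8799499 z z) (n 0 z (n 0 z (n 0 z
 z)))))) (n 1 z (n 2 (n 0 z (n 0 z (n 0 (n 8656747 z z) (n 0 z (n 0 z (n 0 z z)))))) z))))))
 z))))))) (n 1065 (n 0 z (n 0 z (n 0 z (n 0 z (n 0 z (n 0 z (n 0 z z))))))) (n 21 (n 0 z (n 0 z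
 (n 0 z (n 0 z (n 0 z (n 0 z (n 0 z (n 0 z (n 0 z (n 0 z (n 0 z (n 0 z (n 0 z (n 0 z (n 0 z (n 0
 z (n 0 z (n 0 z (n 0 z (n 0 z (n 0 z (n 0 z (n 0 z (n 0 z (n 0 z (n 0 z (n 0 z (n 0 z (n 0 z
 z))))))))))))))))))))))))))))) (n 21 (n 0 z (n 0 z (n 0 z (n 0 z (n 0 z (n 0 z (n 0 z (n 0 z (n
 0 z (n 0 z (n 0 z (n 0 z (n 0 z (n 0 z (n 0 z (n 0 z (n 0 z (n 0 z (n 0 z (n 0 z (n 0 z (n 0 z
 (n 0 z (n 0 z (n 0 z (n 0 z (n 0 z (n 0 z (n 0 z z))))))))))))))))))))))))))))) (n 21 (n 0 z (n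
 0 z (n 0 z (n 0 z (n 0 z (n 0 z (n 0 z (n 0 z (n 0 z (n 0 z (n 0 z (n 0 z (n 0 z (n 0 z (n 0 z
 (n 0 z (n 0 z (n 0 z (n 0 z (n 0 z (n 0 z (n 0 z (n 0 z (n 0 z (n 0 z (n 0 z (n 0 z (n 0 z (n 0
 z z))))))))))))))))))))))))))))) (n 17 (n 0 z (n 0 z (n 0 z (n 0 z (n 0 z (n 0 z (n 0 z (n 0 z
 (n 0 z (n 0 z (n 0 z z))))))))))) (n 17 (n 0 z (n 0 z (n 0 z (n 0 z (n 0 z (n 0 z (n 0 z (n 0 z
 (n 0 z (n 2 z (n 0 z z))))))))))) z))))))) (n 0 (n 0 z (n 489 (n 0 z (n 0 z (n 0 z (n 0 z (n 0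
 z (n 0 z (n 0 z z))))))) (n 489 (n 0 z (n 0 z (n 0 z (n 0 z (n 0 z (n 0 z (n 0 z z))))))) (n
 489 (n 0 z (n 0 z (n 0 z (n 0 z (n 0 z (n 0 z (n 0 z z))))))) (n 485 (n 0 z (n 0 z (n 0 z (n 0
 z (n 0 z (n 0 z (n 0 z (n 0 z (n 0 z (n 0 z (n 0 z (n 0 z z)))))))))))) (n 485 (n 0 z (n 0 z (n
 0 z (n 0 z (n 0 z (n 0 z (n 0 z (n 2 z (n 0 z (n 0 z (n 0 z (n 0 z z)))))))))))) z)))))) (n 0
 (n 489 (n 0 z (n 0 z (n 0 z (n 0 z (n 0 z (n 0 z (n 0 z (n 0 z (n 0 z (n 0 z (n 0 z (n 0 z (n 0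
 z (n 0 z (n 0 z z))))))))))))))) (n 489 (n 0 z (n 0 z (n 0 z (n 0 z (n 0 z (n 0 z (n 0 z (n 0 z
 (n 0 z (n 0 z (n 0 z (n 0 z (n 0 z (n 0 z (n 0 z z))))))))))))))) (n 489 (n 0 z (n 0 z (n 0 z
 (n 0 z (n 0 z (n 0 z (n 0 z (n 0 z (n 0 z (n 0 z (n 0 z (n 0 z (n 0 z (n 0 z (n 0 z
 z))))))))))))))) (n 53 (n 0 z (n 0 z (n 0 z (n 0 z (n 0 z (n 0 z (n 0 z (n 0 z (n 0 z (n 0 z (n
 0 z (n 0 z z)))))))))))) (n 53 (n 0 z (n 0 z (n 0 z (n 0 z (n 0 z (n 0 z (n 0 z (n 0 z (n 2 z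
 (n 0 z (n 0 z (n 0 z z)))))))))))) z))))) (n 0 (n 0 z (n 0 z (n 241 (n 0 z (n 0 z (n 0 z (n 0 z
 (n 0 z z))))) (n 241 (n 0 z (n 7754787 z (n 0 z (n 0 z (n 0 z z))))) z)))) (n 0 (n 0 z (n 1 (n
 0 z (n 0 z (n 0 z (n 0 z (n 0 z (n 0 z (n 0 z (n 0 z z)))))))) (n 1 (n 0 z (n 0 z (n 0 z (n 0 z
 (n 0 z (n 0 z (n 2 z (n 0 z z)))))))) z))) (n 0 (n 241 (n 0 z (n 0 z (n 0 z (n 0 z (n 0 z (n 0
 z (n 0 z (n 0 z z)))))))) (n 241 (n 0 z (n 0 z (n 2 z (n 0 z (n 0 z (n 0 z (n 0 z (n 0 z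
 z)))))))) z)) (n 0 (n 0 z z) (n 0 z z))))))))))) (n 0 (n 0 z (n 1 (n 6496515 z (n 268 z (n 268
 z (n 2 z (n 6558219 z (n 6496523 z z)))))) (n 1 (n 6496515 z (n 6496275 z (n 6496275 z (n
 6496275 z (n 6496275 z (n 6496275 z z)))))) z))) (n 0 (n 0xc2652d (n 0 (n 0 (n 7750923 z (n
 7750923 z (n 7750923 z (n 7750923 z (n 7750923 z (n 7750923 z z)))))) z) (n 0 (n 153 (n 0 z (n
 1 (n 7734043 z (n 7734043 z (n 7734043 z (n 7734043 z (n 7734043 z (n 7734043 z z)))))) (n 1 (n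
 7544851 z (n 7544851 z (n 7544851 z (n 7544851 z (n 7544851 z (n 7544851 z z)))))) z))) (n 525
 (n 1 (n 7545091 z (n 7675971 z (n 7675971 z (n 7675971 z (n 7675971 z (n 7675971 z z)))))) (n 1
 (n 7545091 z (n 4400923 z (n 4400923 z (n 4400923 z (n 7750923 z (n 4400923 z z)))))) (n 1 (n
 7545091 z (n 7606795 z (n 268 z (n 3278683 z (n 276 z (n 268 z z)))))) z))) (n 549 (n 1 (n
 7545091 z (n 7544851 z (n 7544851 z (n 7544851 z (n 7544851 z (n 7544851 z z)))))) (n 1 (n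
 7545091 z (n 7544851 z (n 7544851 z (n 7544851 z (n 7544851 z (n 7544851 z z)))))) (n 1 (n
 7545091 z (n 6492275 z (n 7750923 z (n 7734043 z (n 7734043 z (n 7734043 z z)))))) (n 1 (n
 7545091 z (n 7544851 z (n 7544851 z (n 7544851 z (n 7544851 z (n 7544851 z z)))))) (n 0 z (n 1
 (n 7545091 z (n 7675971 z (n 7675971 z (n 7675971 z (n 7675971 z (n 7675971 z z)))))) (n 1 (n
 7545091 z (n 4268 z (n 4268 z (n 7545099 z (n 76 z (n 4268 z z)))))) z))))))) (n 556 (n 1 (n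
 7545091 z (n 7545091 z (n 7545091 z (n 7545091 z (n 7545091 z (n 7545091 z z)))))) (n 1 (n
 7545091 z (n 7545091 z (n 7545091 z (n 7545091 z (n 7545091 z (n 7545091 z z)))))) (n 1 (n
 7675971 z (n 7675971 z (n 7675971 z (n 7675971 z (n 7675971 z (n 7675971 z z)))))) (n 1 (n 4604
 z (n 7606795 z (n
 0x5d8d88140e02ecaea420380837e8b8482778d757e7e7b8280877f77847f72848c7e80808585827a8488708d757e8a7182807f8d748f847e8282837b7d1009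
 z (n 4604 z (n 4604 z (n 4604 z z)))))) (n 0 z (n 1 (n 7545099 z (n 7545099 z (n 7545099 z (n
 7545099 z (n 7545099 z (n 6426739 z z)))))) (n 1 (n 4604 z (n 6629195 z (n 4604 z (n 2060 z (n
 7606795 z (n 4604 z z)))))) z))))))) (n 155 (n 1 (n 7545091 z (n 7606795 z (n 3282763 z (n
 7545099 z (n 3282763 z (n 3282763 z z)))))) (n 1 (n 7545091 z (n 7544851 z (n 7544851 z (n
 7544851 z (n 7544851 z (n 7544851 z z)))))) (n 1 (n 7545091 z (n 7606795 z (n 284 z (n 7545099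
 z (n 284 z (n 284 z z)))))) z))) (n 0 (n 1 (n 7734043 z (n 7734043 z (n 7734043 z (n 7734043 z
 (n 7734043 z (n 7734043 z z)))))) (n 1 (n 7675971 z (n 7675971 z (n 7675971 z (n 7675971 z (n
 7675971 z (n 7675971 z z)))))) (n 1 (n 6428491 z (n 1228 z (n 1228 z (n 6498139 z (n 1228 z (n
 2 z z)))))) (n 0 z (n 0 z z))))) (n 153 (n 0 z (n 1 (n 7545091 z (n 7734043 z (n 7734043 z (n
 7750923 z (n 7606795 z (n 7545099 z z)))))) (n 1 (n 7545091 z (n 7544851 z (n 7544851 z (n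
 7544851 z (n 7544851 z (n 7544851 z z)))))) z))) z))))))) (n 0 (n 0 (n 0 z z) z) (n 0 (n 525 (n
 0 (n 0 z z) (n 0 (n 0 z z) (n 0 (n 0 z z) z))) (n 549 (n 0 (n 0 z z) (n 0 (n 0 z z) (n 0 (n 0
 (n 8782619 z z) z) (n 0 (n 0 z z) (n 0 (n 0 z z) (n 0 (n 0 z z) (n 0 (n 0 z z) z))))))) (n 533
 (n 0 (n 0 z z) (n 0 (n 0 z z) (n 0 (n 0 z z) (n 0 (n 0 z z) (n 0 (n 0 z z) (n 0 (n 0 z z) (n 0
 (n 0 z z) (n 0 (n 0 z z) (n 0 (n 0 z z) (n 0 (n 0 z z) z)))))))))) (n 575 (n 0 (n 0 z z) (n 0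
 (n 0 z z) (n 0 (n 0 z z) (n 0 (n 0 z z) (n 0 (n 0 z z) (n 0 (n 0 z z) (n 0 (n 0 z z) (n 0 (n 0
 z z) (n 0 (n 0 z z) (n 0 (n 0 z z) (n 0 (n 0 z z) (n 0 (n 0 z z) (n 0 (n 0 z z) (n 0 (n 0 z z)
 (n 0 (n 0 z z) (n 0 (n 0 (n 8868899 z (n 8868899 z z)) z) (n 0 (n 0 z z) (n 0 (n 0 z z) (n 0 (n
 0 z z) (n 0 (n 0 z z) (n 0 (n 0 z z) (n 0 (n 0 z z) (n 0 (n 0 z z) (n 0 (n 0 z z) (n 0 (n 0 z
 z) (n 0 (n 0 z z) (n 0 (n 0 z z) (n 0 (n 0 z z) (n 0 (n 0 z z) (n 0 (n 0 (n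
 0x30e6e42c03807f8181808080808080808180807f81808181808080808080808080808080808080808080808080808180808180808080800809
 z z) z) z)))))))))))))))))))))))))))))) (n 257 (n 0 (n 0 z z) (n 0 (n 0 z z) (n 0 (n 0 z z) (n
 0 (n 0 z z) (n 0 (n 0 (n 8593667 z (n 8593667 z z)) z) (n 0 (n 0 (n 8593667 z z) z) (n 0 (n 0 z
 z) (n 0 (n 0 z z) (n 0 (n 0 (n 8860003 z (n 8860003 z z)) z) (n 0 (n 0 (n 8860003 z z) z) (n 0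
 (n 0 z z) (n 0 (n 0 z z) (n 0 (n 0 z z) (n 0 (n 0 z z) (n 0 (n 0 z z) (n 0 (n 0 z z) (n 0 (n 0
 z z) (n 0 (n 0 z z) z)))))))))))))))))) (n 556 (n 0 (n 0 z z) (n 0 (n 0 z z) (n 0 (n 0 z z) (n
 0 (n 0 z z) (n 0 (n 0 z z) (n 0 (n 0 z z) (n 0 (n 0 z z) z))))))) (n 155 (n 0 (n 0 z z) (n 0 (n
 0 z z) (n 0 (n 0 z z) z))) (n 35 (n 0 (n 0 z z) (n 0 (n 0 z z) (n 0 (n 0 z z) z))) (n 11 (n 0
 (n 0 z z) (n 0 (n 0 z z) (n 0 (n 0 z z) (n 0 (n 0 z z) (n 0 (n 0 z z) (n 0 (n 0 (n 8593667 z (n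
 8593667 z z)) z) (n 0 (n 0 z z) (n 0 (n 0 (n 8593667 z z) z) (n 0 (n 0 (n
 0x30ecec260780808080808080808080808080828082808180808080808080808080808080807f80808080808080808280808080808080800809
 z z) z) (n 0 (n 0 z z) (n 0 (n 0 z z) (n 0 (n 0 (n 8593667 z (n 8593667 z z)) z) (n 0 (n 0 (n
 8593667 z (n 8593667 z z)) z) (n 0 (n 0 z z) (n 0 (n 0 (n 8593667 z z) z) (n 0 (n 0 z z) (n 0
 (n 0 (n 8593675 z z) z) (n 0 (n 0 (n 8593667 z (n 8593667 z z)) z) (n 0 (n 0 (n 8593675 z (n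
 8593675 z z)) z) (n 0 (n 0 z z) (n 0 (n 0 z z) (n 0 (n 0 z z) (n 0 (n 0 z z) (n 0 (n 0 z z) (n
 0 (n 0 z z) (n 0 (n 0 z z) (n 0 (n 0 z z) (n 0 (n 0 z z) (n 0 (n 0 z z)
 z))))))))))))))))))))))))))))) (n 245 (n 0 (n 0 z z) (n 0 (n 0 z z) (n 0 (n 0 z z) (n 0 (n 0 z
 z) (n 0 (n 0 z z) (n 0 (n 0 z z) (n 0 (n 0 z z) (n 0 (n 0 (n 8593667 z z) z) (n 0 (n 0 (n
 8593667 z z) z) (n 0 (n 0 (n 8593667 z (n 8593667 z z)) z) (n 0 (n 0 z z) (n 0 (n 0 z z) (n 0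
 (n 0 z z) (n 0 (n 0 z z) (n 0 (n 0 (n 8593667 z z) z) z))))))))))))))) (n 153 (n 0 (n 0 (n
 8454955 z (n 8454955 z z)) z) (n 0 (n 0 z z) (n 0 (n 0 z z) (n 0 (n 0 z z) (n 0 (n 0 z z) (n 0
 (n 0 z z) (n 0 (n 0 z z) z))))))) (n 33 (n 0 (n 0 z z) (n 0 (n 0 (n 8593667 z z) z) (n 0 (n 0 z
 z) (n 0 (n 0 z z) (n 0 (n 0 z z) (n 0 (n 0 z z) (n 0 (n 0 z z) (n 0 (n 0 z z) (n 0 (n 0 z z) (n
 0 (n 0 z z) (n 0 (n 0 z z) (n 0 (n 0 z z) (n 0 (n 0 z z) (n 0 (n 0 z z) z)))))))))))))) (n 9 (n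
 0 (n 0 z z) (n 0 (n 0 z z) (n 0 (n 0 z z) (n 0 (n 0 z z) (n 0 (n 0 z z) (n 0 (n 0 z z) (n 0 (n
 0 z z) (n 0 (n 0 z z) (n 0 (n 0 z z) (n 0 (n 0 z z) (n 0 (n 0 z z) z))))))))))) (n 27 (n 0 (n 0
 z z) (n 0 (n 0 z z) (n 0 (n 0 z z) (n 0 (n 0 (n 8593667 z z) z) (n 0 (n 0 z z) (n 0 (n 0 z z)
 (n 0 (n 0 z z) (n 0 (n 0 z z) (n 0 (n 0 z z) (n 0 (n 0 z z) (n 0 (n 0 z z) (n 0 (n 0 z z)
 z)))))))))))) (n 1 (n 0 (n 0 z z) (n 0 (n 0 z z) (n 0 (n 0 z z) (n 0 (n 0 z z) (n 0 (n 0 z z)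
 (n 0 (n 0 z z) (n 0 (n 0 z z) (n 0 (n 0 z z) z)))))))) (n 153 (n 0 (n 0 z z) (n 0 (n 0 z z) (n
 0 (n 0 z z) z))) (n 33 (n 0 (n 0 z z) (n 0 (n 0 z z) (n 0 (n 0 z z) (n 0 (n 0 (n 8454955 z (n
 8454955 z z)) z) z)))) (n 9 (n 0 (n 0 z z) (n 0 (n 0 z z) (n 0 (n 0 z z) (n 0 (n 0 (n 8593667 z
 z) z) (n 0 (n 0 z z) (n 0 (n 0 z z) (n 0 (n 0 z z) z))))))) (n 243 (n 0 (n 0 z z) (n 0 (n 0 z
 z) (n 0 (n 0 z z) (n 0 (n 0 z z) (n 0 (n 0 z z) (n 0 (n 0 z z) (n 0 (n 0 z z) (n 0 (n 0 z z) (n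
 0 (n 0 z z) (n 0 (n 0 z z) (n 0 (n 0 z z) (n 0 (n 0 (n 8800027 z (n 8525643 z z)) z) (n 0 (n 0
 z z) (n 0 (n 0 z z) (n 0 (n 0 z z) (n 0 (n 0 z z) (n 0 (n 0 z z) (n 0 (n 0 z z) (n 0 (n 0 (n
 8593667 z (n 8593667 z z)) z) (n 0 (n 0 (n 8593667 z z) z) (n 0 (n 0 z z) (n 0 (n 0 (n 8593667
 z z) z) (n 0 (n 0 z z) (n 0 (n 0 z z) (n 0 (n 0 z z) (n 0 (n 0 z z) (n 0 (n 0 z z)
 z))))))))))))))))))))))))))) (n 1 (n 0 (n 0 z z) (n 0 (n 0 z z) (n 0 (n 0 z z) (n 0 (n 0 z z)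
 (n 0 (n 0 z z) (n 0 (n 0 z z) (n 0 (n 0 z z) (n 0 (n 0 z z) z)))))))) (n 0 (n 0 (n 0 z z) (n 0
 (n 0 z z) (n 0 (n 0 z z) (n 0 (n 0 z z) (n 0 (n 0 z z) z))))) z))))))))))))))))))))) z)))) z)
 z)))) (n 0x4d74a254a583296115290c0946740aa328514390a4ca84265480 (n 0xca94 (n 155 (n 0 z (n
 0xaca8a846037486817e85838a7a807e927a7f787d817a807e797a7f787e8088807d7f877c8c807d78807985867a7a85808a7f857a7d877d0809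
 z (n 6496275 z (n 2 z (n 0 z (n 6496275 z (n 6357803 z z))))))) (n 33 (n 10 z (n 0 z (n 0 z (n
 0 z (n 0 z (n 0 z (n 18 z (n 6496515 z z)))))))) (n 9 (n 26 z (n
 0x2ca8a8260787837d838a807e7b7f7c778082837d7c8184807d7c7f7f81807f807f807e7c84807d8180837d827f7e7d807f817f808281800809
 z (n 34 z (n
 0x2ca8a8260787847d808d817f787e7a7c7d81848078818683777f7f7a7e807e7f7f7c7f7b867f7b8481837d837f817e7e7c81807e8180810809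
 z (n 0 z (n 0 z (n 0 z (n
 0x5951950c0e00ca8a80603817d82817e807f808180817e8080808180807f8081808181807f818080807f80837f7f7f7f808081807f81808080808080801009
 z (n 0 z (n 0 z (n 0 z (n 0 z (n 0 z (n 0 z (n 0 z (n 0 z (n 0 z (n
 0x28ca8a82607a97c60d7807b89b2689418afb27f8cb59d8d78e8496ccf7680974474cc6458277b4bcdb7638170a15e86907283ba8a777ba10809
 z (n 0 z (n 0 z (n 0 z (n 0 z (n 0 z (n 0 z (n 0 z (n 0 z (n 0 z (n 0 z (n 0 z (n 0 z (n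
 6496523 z (n 6496523 z (n 6496515 z (n 6496515 z (n 6496515 z (n 0 z
 z)))))))))))))))))))))))))))))))))))) (n 243 (n 42 z (n
 0x2ca6a408078080807f807f807f8180827d808082807e807e7d82828081807e827e7f827f8381807f7e7e827f807f828081817f7f81817f0809
 z (n
 0x994d44100e0aca8ca800783758a83777e7e808582947b798e777b927f799b7e8d7482807c7882837d7c7881857d78887e867a7e7e858380797d7784801009
 z (n 6496275 z (n 6565971 z (n 6496515 z (n 6496515 z z))))))) (n 121 (n 50 z (n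
 0x2ca8a406038282808285837e7c7e7b817e7f827c7d8286837a7d7e7b7c80867f7f7c7f7b827e7d7f818180838082827d817f827e8180800809
 z (n 58 z (n 0 z (n 0 z (n
 0x2ca6ca64037f837e828281827d817e7d82817f7e7e7e827e817d7e827e80867c8282807f7e847f8580817d818280817e7f7c8080847d7f0809
 z (n 6565971 z (n 0 z z)))))))) (n 0 (n 0 z (n 0 z (n 66 z (n 0 z (n 74 z (n 0 z (n 0 z (n
 6624011 z z)))))))) z)))))) (n 155 (n 0 (n 215 (n 0 z (n 0 z (n 0 z (n 0 z (n 0 z (n 0 z (n 0 z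
 z))))))) (n 215 (n 0 z (n 0 z (n 0 z (n 0 z (n 0 z (n 2 (n 2 (n 0 z (n 0 z (n 0 z (n 0 z (n 0 z
 (n 0 z z)))))) (n 2 (n 0 z (n 0 z (n 0 z (n 0 z (n 0 z (n 0 z z)))))) (n 2 (n 0 z (n 0 z (n 0
 (n 8872995 z z) (n 0 z (n 0 z (n 0 z z)))))) (n 2 (n 0 z (n 0 z (n 0 z (n 0 z (n 0 z (n 0 z
 z)))))) (n 2 (n 0 z (n 0 z (n 0 z (n 0 z (n 0 z (n 0 z z)))))) (n 2 (n 0 z (n 0 z (n 0 z (n 0 z
 (n 0 z (n 0 z z)))))) (n 2 (n 0 z (n 0 z (n 0 z (n 0 z (n 0 z (n 0 z z)))))) z))))))) (n 0 z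
 z))))))) (n 203 (n 0 z (n 0 z (n 0 z (n 0 z (n 0 z (n 0 z (n 0 z (n 0 z (n 0 z (n 0 z (n 0 z (n
 0 z (n 0 z z))))))))))))) (n 203 (n 0 z (n 0 z (n 0 z (n 0 z (n 0 z (n 0 z (n 0 z (n 0 z (n 0 z
 (n 0 z (n 0 z (n 2 (n 1 z (n 1 z (n 2 (n 0 z (n 0 z (n 0 z (n 0 z (n 0 z (n 0 z z)))))) (n 2 (n
 0 z (n 0 z (n 0 z (n 0 z (n 0 z (n 0 z z)))))) (n 2 (n 0 z (n 0 z (n 0 (n 8722283 z z) (n 0 z
 (n 0 z (n 0 z z)))))) z))))) (n 0 z z))))))))))))) (n 535 (n 0 z (n 0 z (n 0 z (n 0 z (n 0 z (n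
 0 z (n 0 z (n 0 z (n 0 z (n 0 z (n 0 z z))))))))))) (n 303 (n 0 z (n 0 z (n 0 z (n 0 z (n 0 z
 (n 0 z (n 0 z (n 0 z (n 0 z (n 0 z (n 0 z (n 0 z (n 0 z (n 0 z z)))))))))))))) (n 303 (n 0 z (n
 0 z (n 0 z (n 0 z (n 2 (n 2 (n 0 z (n 0 z (n 0 z (n 0 z (n 0 z (n 0 z z)))))) (n 2 (n 0 z (n 0
 z (n 0 z (n 0 z (n 0 z (n 0 z z)))))) z)) (n 0 z (n 0 z (n 0 z (n 0 z (n 0 z (n 0 z (n 0 z (n 0
 z (n 0 z z)))))))))))))) (n 301 (n 0 z (n 0 z (n 0 z (n 0 z (n 0 z (n 0 z (n 0 z (n 0 z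
 z)))))))) (n 301 (n 0 z (n 0 z (n 0 z (n 0 z (n 0 z (n 0 z (n 0 z (n 0 z z)))))))) z)))))))))
 (n 0 (n 0 z (n 103 (n 0 z (n 0 z (n 0 z (n 0 z (n 0 z (n 0 z (n 0 z (n 0 z (n 0 z (n 0 z (n 0 z
 (n 0 z (n 0 z (n 0 z (n 0 z (n 0 z (n 0 z (n 0 z (n 0 z (n 0 z (n 0 z (n 0 z (n 0 z (n 0 z (n 0
 z (n 0 z (n 0 z (n 0 z (n 0 z (n 0 z (n 0 z (n 0 z z)))))))))))))))))))))))))))))))) (n 103 (n
 0 z (n 0 z (n 0 z (n 0 z (n 0 z (n 0 z (n 0 z (n 0 z (n 0 z (n 0 z (n 0 z (n 0 z (n 0 z (n 0 z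
 (n 0 z (n 0 z (n 0 z (n 0 z (n 0 z (n 0 z (n 0 z (n 0 z (n 0 z (n 0 z (n 0 z (n 0 z (n 0 z (n 0
 z (n 0 z (n 0 z (n 0 z (n 0 z z)))))))))))))))))))))))))))))))) (n 487 (n 0 z (n 0 z (n 0 z (n
 0 z (n 0 z (n 0 z (n 0 z (n 0 z (n 0 z (n 0 z z)))))))))) (n 63 (n 0 z (n 0 z (n 0 z (n 0 z (n
 0 z (n 0 z (n 0 z z))))))) (n 63 (n 0 z (n 0 z (n 0 z (n 0 z (n 0 z (n 2 (n 2 (n 0 z (n 0 z (n
 0 z (n 0 z (n 0 z (n 0 z z)))))) (n 2 (n 0 z (n 0 z (n 0 (n 8868915 z z) (n 0 z (n 0 z (n 0 z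
 z)))))) z)) (n 0 z z))))))) (n 61 (n 0 z (n 0 z (n 0 z (n 0 z (n 0 z (n 0 z (n 0 z (n 0 z (n 0
 z (n 0 z (n 0 z z))))))))))) (n 61 (n 0 z (n 0 z (n 0 z (n 0 z (n 0 z (n 0 z (n 0 z (n 0 z (n 0
 z (n 0 z (n 0 z z))))))))))) z)))))))) (n 0 (n 1019 (n 0 z (n 0 z (n 0 z (n 0 z (n 0 z (n 0 z
 (n 0 z (n 0 z (n 0 z (n 0 z (n 0 z (n 0 z (n 0 z (n 0 z (n 0 z (n 0 z (n 0 z (n 0 z (n 0 z (n 0
 z (n 0 z (n 0 z (n 0 z (n 0 z (n 0 z (n 0 z (n 0 z (n 0 z (n 2 (n 0 z (n 2 (n 0 z (n 0 z (n 0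
 (n 8868875 z z) (n 0 z (n 0 z (n 0 z z)))))) (n 2 (n 0 z (n 0 z (n 0 z (n 0 z (n 0 z (n 0 z
 z)))))) (n 2 (n 0 z (n 0 z (n 0 z (n 0 z (n 0 z (n 0 z z)))))) (n 2 (n 0 z (n 0 z (n 0 z (n 0 z
 (n 0 z (n 0 z z)))))) (n 2 (n 0 z (n 0 z (n 0 z (n 0 z (n 0 z (n 0 z z)))))) z)))))) (n
 0x2ea8ca860787847d808d817f787e7a7c7d81848078818683777f7f7a7e807e7f7f7c7f7b867f7b8481837d837f817e7e7c81807e8180810809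
 z (n 0 z z))))))))))))))))))))))))))))))) (n 1019 (n 0 z (n 0 z (n 0 z (n 0 z (n 0 z (n 0 z (n
 0 z (n 0 z (n 0 z (n 0 z (n 0 z (n 0 z (n 0 z (n 0 z (n 0 z (n 0 z (n 2 (n 2 (n 0 z (n 0 z (n 0
 z (n 0 z (n 0 z (n 0 z z)))))) (n 2 (n 0 z (n 0 z (n 0 z (n 0 z (n 0 z (n 0 z z)))))) (n 2 (n 0
 z (n 0 z (n 0 z (n 0 z (n 0 z (n 0 z z)))))) (n 2 (n 0 z (n 0 z (n 0 z (n 0 z (n 0 z (n 0 z
 z)))))) (n 1 z z))))) (n 0 z (n 0 z (n 0 z (n 0 z (n 0 z (n 0 z (n 0 z (n 0 z (n 0 z (n 0 z (n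
 0 z (n 0 z (n 0 z (n 0 z z))))))))))))))))))))))))))))))) (n 1023 (n 2 (n 2 (n 0 z (n 0 z (n 0
 (n 8872995 z z) (n 0 z (n 0 z (n 0 z z)))))) (n 2 (n 0 z (n 0 z (n 0 z (n 0 z (n 0 z (n 0 z
 z)))))) (n 2 (n 0 z (n 0 z (n 0 z (n 0 z (n 0 z (n 0 z z)))))) (n 2 (n 0 z (n 0 z (n 0 z (n 0 z
 (n 0 z (n 0 z z)))))) z)))) (n 0 z (n 0 z (n 0 z (n 0 z (n 0 z (n 0 z z))))))) (n 63 (n 2 (n 0
 z (n 2 (n 0 z (n 0 z (n 0 z (n 0 z (n 0 z (n 0 z z)))))) (n 2 (n 0 z (n 0 z (n 0 z (n 0 z (n 0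
 z (n 0 z z)))))) z))) (n 0 z (n 0 z z))) (n 63 (n 0 z (n 0 z (n 0 z z))) (n 65 (n 0 z (n 0 z (n
 0 z (n 0 z (n 0 z (n 0 z z)))))) (n 65 (n 0 z (n 0 z (n 0 z (n 0 z (n 0 z (n 0 z z))))))
 z))))))) (n 0 (n 0 z (n 687 (n 0 z (n 0 z (n 0 z (n 0 z (n 0 z (n 0 z (n 0 z z))))))) (n 255 (n
 0 z (n 0 z (n 0 z (n 0 z (n 0 z (n 0 z (n 0 z (n 0 z (n 0 z (n 0 z (n 0 z z))))))))))) (n 255
 (n 0 z (n 0 z (n 2 (n 2 (n 0 z (n 0 z (n 0 z (n 0 z (n 0 z (n 0 z z)))))) (n 2 (n 0 z (n 0 z (n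
 0 (n 8868915 z z) (n 0 z (n 0 z (n 0 z z)))))) z)) (n 0 z (n 0 z (n 0 z (n 0 z (n 0 z (n 0 z (n
 0 z (n 0 z z))))))))))) (n 253 (n 0 z (n 0 z (n 0 z (n 0 z (n 0 z (n 0 z (n 0 z (n 0 z (n 0 z
 (n 0 z (n 0 z (n 0 z (n 0 z (n 0 z (n 0 z z))))))))))))))) (n 253 (n 0 z (n 0 z (n 0 z (n 0 z
 (n 0 z (n 0 z (n 0 z (n 0 z (n 0 z (n 0 z (n 0 z (n 0 z (n 0 z (n 0 z (n 0 z z)))))))))))))))
 z)))))) (n 0 (n 687 (n 0 z (n 0 z (n 2 (n 1 z (n 2 (n 0 z (n 0 z (n 0 (n 8722283 z z) (n 0 z (n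
 0 z (n 0 z z)))))) (n 2 (n 0 z (n 0 z (n 0 (n 8868875 z z) (n 0 z (n 0 z (n 0 z z)))))) (n 1 z
 z)))) (n 0 z (n 0 z z))))) (n 339 (n 0 z (n 0 z (n 0 z (n 0 z (n 0 z (n 0 z (n 0 z (n 0 z (n 0
 z (n 0 z (n 0 z z))))))))))) (n 339 (n 0 z (n 0 z (n 0 z (n 2 (n 2 (n 0 z (n 0 z (n 0 z (n 0 z
 (n 0 z (n 0 z z)))))) (n 1 z z)) (n 0 z (n 0 z (n 0 z (n 0 z (n 0 z (n 0 z (n 0 z z)))))))))))
 (n 337 (n 0 z (n 0 z (n 0 z (n 0 z (n 0 z (n 0 z (n 0 z z))))))) (n 337 (n 0 z (n 0 z (n 0 z (n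
 0 z (n 0 z (n 0 z (n 0 z z))))))) z))))) (n 0 (n 291 (n 0 z (n 0 z (n 0 z (n 0 z (n 0 z (n 0 z
 (n 0 z (n 0 z (n 0 z (n 0 z (n 0 z (n 0 z z)))))))))))) (n 291 (n 0 z (n 0 z (n 0 z (n 0 z (n 2
 (n 2 (n 0 z (n 0 z (n 0 (n 8872995 z z) (n 0 z (n 0 z (n 0 z z)))))) (n 2 (n 0 z (n 0 z (n 0 (n
 8868915 z z) (n 0 z (n 0 z (n 0 z z)))))) z)) (n 0 z (n 0 z (n 0 z (n 0 z (n 0 z (n 0 z (n 0 z
 z)))))))))))) (n 529 (n 0 z (n 0 z (n 0 z (n 0 z (n 0 z (n 0 z (n 0 z (n 0 z (n 0 z (n 0 z (n 0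
 z (n 0 z (n 0 z (n 0 z (n 0 z (n 0 z (n 0 z (n 0 z (n 0 z (n 0 z (n 0 z (n 0 z (n 0 z
 z))))))))))))))))))))))) (n 529 (n 0 z (n 0 z (n 0 z (n 0 z (n 0 z (n 0 z (n 0 z (n 0 z (n 0 z
 (n 0 z (n 0 z (n 0 z (n 0 z (n 0 z (n 0 z (n 0 z (n 0 z (n 0 z (n 0 z (n 0 z (n 0 z (n 0 z (n 0
 z z))))))))))))))))))))))) z)))) (n 0 (n 0 z (n 241 (n 0 z (n 0 z (n 0 z (n 0 z (n 0 z z)))))
 (n 241 (n 0 z (n 0 z (n 0 z (n 0 z (n 0 z z))))) z))) (n 0 (n 241 (n 0 z (n 0 z (n 0 z (n 0 z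
 (n 0 z (n 0 z (n 0 z (n 0 z z)))))))) (n 241 (n 0 z (n 0 z (n 0 z (n 0 z (n 0 z (n 0 z (n 0 z
 (n 7754803 z z)))))))) z)) (n 0 (n 0 z z) (n 0 z z)))))))))) (n 0 (n 0 z (n 1 (n 6496515 z (n
 6496523 z (n 268 z (n 268 z (n 6624011 z (n 268 z z)))))) (n 1 (n 6496515 z (n 6496275 z (n
 6496275 z (n 6496275 z (n 6496275 z (n 6496275 z z)))))) (n 1 (n 6496515 z (n 6496523 z (n 268
 z (n 2 z (n 6624011 z (n 268 z z)))))) (n 0 z (n 1 (n 6496515 z (n 6496275 z (n 6496275 z (n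
 6496275 z (n 6496275 z (n 6496275 z z)))))) (n 1 (n 6496515 z (n 6496523 z (n 6624011 z (n
 6357803 z (n 6357803 z (n 6357803 z z)))))) z))))))) (n 0 (n 0 (n 0 (n 0 (n 7754763 z (n
 7754763 z (n 7754763 z (n 7754763 z (n 7754763 z (n 7754763 z z)))))) z) (n 0 (n 155 (n 0 z (n
 1 (n 860 z (n 860 z (n 7472715 z (n 860 z (n 860 z (n 860 z z)))))) (n 1 (n 7544851 z (n
 7544851 z (n 7544851 z (n 7544851 z (n 7544851 z (n 7544851 z z)))))) (n 1 (n 7733787 z (n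
 7733787 z (n 7733787 z (n 7733787 z (n 7733787 z (n 7733787 z z)))))) (n 0 z (n 1 (n 7544851 z
 (n 7544851 z (n 7544851 z (n 7544851 z (n 7544851 z (n 7544851 z z)))))) (n 1 (n 7406379 z (n
 7406379 z (n 7406379 z (n 7406379 z (n 7406379 z (n 7406379 z z)))))) z))))))) (n 227 (n 1 (n
 7545091 z (n 7614547 z (n 7614547 z (n 7614547 z (n 7614547 z (n 7614547 z z)))))) (n 1 (n
 7545091 z (n 4400923 z (n 4400923 z (n 4400923 z (n 7754763 z (n 4400923 z z)))))) (n 0 z (n 1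
 (n 7545091 z (n 7672587 z (n 268 z (n 268 z (n 7754763 z (n 268 z z)))))) (n 0 z (n 1 (n
 7545091 z (n 268 z (n 268 z (n 3278667 z (n 244 z (n 7672587 z z)))))) (n 0 z z))))))) (n 343
 (n 1 (n 7545099 z (n 6492275 z (n 7545099 z (n 7545099 z (n 7545099 z (n 7545099 z z)))))) (n 1
 (n 7614547 z (n 7614547 z (n 7614547 z (n 7614547 z (n 7614547 z (n 7614547 z z)))))) (n 1 (n
 7545091 z (n 7545091 z (n 7545091 z (n 7545091 z (n 7545091 z (n 7545091 z z)))))) (n 1 (n 2780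
 z (n 2780 z (n 2780 z (n 2780 z (n 7672587 z (n 2780 z z)))))) (n 1 (n 2780 z (n 2780 z (n 2780
 z (n 2780 z (n 2780 z (n 7672587 z z)))))) (n 1 (n 7545091 z (n 7545091 z (n 7545091 z (n
 7545091 z (n 7545091 z (n 7545091 z z)))))) (n 1 (n 2780 z (n 2780 z (n 2780 z (n 460 z (n
 7672587 z (n 6567771 z z)))))) z))))))) (n 463 (n 1 (n 7545099 z (n 6426739 z (n 7545099 z (n
 7545099 z (n 7545099 z (n 7545099 z z)))))) (n 1 (n 7614547 z (n 7614547 z (n 7614547 z (n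
 7614547 z (n 7614547 z (n 7614547 z z)))))) (n 1 (n 7545091 z (n 7545091 z (n 7545091 z (n
 7545091 z (n 7545091 z (n 7545091 z z)))))) (n 1 (n 2188 z (n 2188 z (n 7733787 z (n 2188 z (n
 2188 z (n 2188 z z)))))) (n 1 (n 2188 z (n 2188 z (n 2188 z (n 2188 z (n 7733787 z (n 2188 z
 z)))))) (n 1 (n 7545091 z (n 7545091 z (n 7545091 z (n 7545091 z (n 7545091 z (n 7545091 z
 z)))))) (n 1 (n 2188 z (n 7733787 z (n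
 0x2ea6a408078080807f807f807f8180827d808082807e807e7d82828081807e827e7f827f8381807f7e7e827f807f828081817f7f81817f0809
 z (n 2188 z (n 6563675 z (n 2188 z z)))))) z))))))) (n 120 (n 1 (n 7672587 z (n 7672587 z (n
 7672587 z (n 7672587 z (n 7672587 z (n 7614547 z z)))))) (n 0 z (n 1 (n 2164555 z (n 2164555 z
 (n 2164555 z (n 2164555 z (n 2164555 z (n 7614547 z z)))))) (n 0 z (n 0 z z))))) (n 121 (n 1 (n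
 7672587 z (n 7672587 z (n 7672587 z (n 7672587 z (n 7672587 z (n 7672587 z z)))))) (n 0 z (n 1
 (n 2164555 z (n 2164555 z (n 2164555 z (n 7754763 z (n 2164555 z (n 2164555 z z)))))) (n 0 z (n
 0 z z))))) (n 155 (n 0 z (n 1 (n 7545091 z (n 7545099 z (n 7754763 z (n 3213163 z (n 7672587 z
 (n 268 z z)))))) (n 1 (n 7545091 z (n 7544851 z (n 7544851 z (n 7544851 z (n 7544851 z (n
 7544851 z z)))))) (n 1 (n 7545091 z (n 7545099 z (n 7733787 z (n 7754763 z (n 7672587 z (n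
 7733787 z z)))))) (n 0 z (n 1 (n 7545091 z (n 7544851 z (n 7544851 z (n 7544851 z (n 7544851 z
 (n 7544851 z z)))))) (n 1 (n 7545091 z (n 7545099 z (n 7672587 z (n 7406379 z (n 7406379 z (n
 7754763 z z)))))) z))))))) z))))))) (n 0 z (n 0 (n 227 (n 0 z (n 0 z (n 0 z (n 0 z (n 0 z (n 0
 z (n 0 z z))))))) (n 347 (n 0 z (n 0 z (n 0 z (n 0 z (n 0 z (n 0 z (n 0 z (n 0 z (n 0 z (n 0 z
 (n 0 z (n 0 z (n 0 z z))))))))))))) (n 57 (n 0 z (n 0 z (n 0 z (n 0 z (n 0 z (n 0 z (n 0 z (n 0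
 z (n 0 z (n 0 z (n 0 z (n 0 z (n 0 z (n 0 z (n 0 z (n 0 z (n 0 z (n 0 z (n 0 z (n 0 z (n 0 z (n
 0 z (n 0 z (n 0 z (n 0 z (n 0 z (n 0 z (n 0 z (n 0 z (n 0 z (n 0 z (n 0 z
 z)))))))))))))))))))))))))))))))) (n 273 (n 0 z (n 0 z (n 0 z (n 0 z (n 0 z (n 0 z (n 0 z (n 0
 z (n 0 z (n 0 z (n 0 z z))))))))))) (n 249 (n 0 z (n 0 z (n 0 z (n 0 z (n 0 z (n 0 z (n 0 z (n
 0 z (n 0 z (n 0 z z)))))))))) (n 463 (n 0 z (n 0 z (n 0 z (n 0 z (n 0 z (n 0 z (n 0 z z)))))))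
 (n 153 (n 0 z (n 0 z (n 0 z (n 0 z (n 0 z (n 0 z (n 0 z (n 0 z (n 0 z (n 0 z (n 0 z (n 0 z (n 0
 z (n 0 z z)))))))))))))) (n 33 (n 0 z (n 0 z (n 0 z (n 0 z (n 0 z (n 0 z (n 0 z z))))))) (n 129
 (n 0 z (n 0 z (n 0 z (n 0 z (n 0 z (n 0 z (n 0 z (n 0 z (n 0 z (n 0 z (n 0 z z))))))))))) (n
 147 (n 0 z (n 0 z (n 0 z (n 0 z (n 0 z (n 0 z (n 0 z (n 0 z (n 0 z (n 0 z (n 0 z (n 0 z
 z)))))))))))) (n 155 (n 0 z (n 0 z (n 0 z (n 0 z (n 0 z (n 0 z (n 0 z (n 0 z z)))))))) (n 35 (n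
 0 z (n 0 z (n 0 z (n 0 z (n 0 z (n 0 z (n 0 z (n 0 z (n 0 z (n 0 z (n 0 z z))))))))))) (n 131
 (n 0 z (n 0 z (n 0 z (n 0 z (n 0 z (n 0 z (n 0 z (n 0 z (n 0 z (n 0 z (n 0 z (n 0 z (n 0 z (n 0
 z (n 0 z z))))))))))))))) (n 269 (n 0 z (n 0 z (n 0 z (n 0 z (n 0 z (n 0 z (n 0 z (n 0 z (n 0 z
 (n 0 z (n 0 z (n 0 z (n 0 z (n 0 z (n 0 z (n 0 z (n 0 z (n 0 z (n 0 z (n 0 z (n 0 z (n 0 z (n 0
 z z))))))))))))))))))))))) (n 121 (n 0 z (n 0 z (n 0 z (n 0 z (n 0 z z))))) (n 155 (n 0 z (n 0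
 z (n 0 z (n 0 z (n 0 z (n 0 z (n 0 z z))))))) (n 33 (n 0 z (n 0 z (n 0 z (n 0 z (n 0 z (n 0 z
 (n 0 z (n 0 z z)))))))) (n 9 (n 0 z (n 0 z (n 0 z (n 0 z (n 0 z (n 0 z (n 0 z (n 0 z (n 0 z (n
 0 z (n 0 z (n 0 z (n 0 z (n 0 z (n 0 z (n 0 z (n 0 z (n 0 z (n 0 z (n 0 z (n 0 z (n 0 z (n 0 z
 (n 0 z (n 0 z (n 0 z (n 0 z (n 0 z (n 0 z (n 0 z (n 0 z (n 0 z (n 0 z (n 0 z (n 0 z (n 0 z
 z)))))))))))))))))))))))))))))))))))) (n 243 (n 0 z (n 0 z (n 0 z (n 0 z (n 0 z (n 0 z (n 0 z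
 z))))))) (n 121 (n 0 z (n 0 z (n 0 z (n 0 z (n 0 z (n 0 z (n 0 z (n 0 z z)))))))) (n 0 (n 0 z
 (n 0 z (n 0 z (n 0 z (n 0 z (n 0 z (n 0 z (n 0 z z)))))))) z))))))))))))))))))))) z)))) z)
 z)))) (n 0x348d519672e0b39304c99b0ce3d907165908765843b2cc0 (n 0x3659c (n 183 (n
 0xeca6a824038e17629a475d6e079f7e086191b7a08a192185c7a2b1c6e07dd7de5e39a08ad95b8df9284a50801 z
 (n 0 z (n
 0x6ca4c8420782081f7228237e08a08608618a081f8a08208218a07208627df8218607a08228208608208200801 z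
 (n 0 z (n 6620219 z (n
 0x2ca6a864038608208208218208207df8208608208208208208208208208208208208608208208208208210801 z
 (n 6554139 z (n
 0x5b64191d7df82291e91e8228648df95d8a49169e689d8e37db81d292c6b7a88e186fa5491e2e2b200041 z (n 0 z
 (n 0 z (n 0 z (n 0 z (n 0 z (n 0 z (n 6631491 z (n 6631491 z (n
 0x336437de7a07e18a08df85e8238a286186385a86182089d86185f75e9637e27607de8228605e2adf0041 z (n 0 z
 (n 0 z (n 0 z (n 6635571 z (n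
 0x336317de7a07e18a08df85e8238a286186385a86182089d86185f75e9637e27607de8228605e2adf0041 z (n
 0x6ca4ca26077dd82079e7e081f91c8a07e582282286086086185f8a08217df8218218207e081f8617e18600801 z
 (n 0 z (n
 0x336537de7a07e18a08df85e8238a286186385a86182089d86185f75e9637e27607de8228605e2adf0041 z (n 0 z
 (n 0 z (n 6635571 z (n
 0x6ca4ca42038ea5a89e585a7e38e87639a562082185d7e48274eb96071c816b2282689d6b28555da5e08de0801 z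
 (n
 0x52165030380ca8ca42078217e08608228208208df8208208228208208219206e08a07a08227a08207dd82286181e7a01001
 z (n
 0x165465420186ca8ca640772482392182276191c89d7636e07de8a08207df8208208228228208208207e081e7207a08201001
 z (n 2 z z)))))))))))))))))))))))))))))))) (n 255 (n 0 z (n 6558475 z (n 0 z (n 0 z (n 10 z (n
 18 z z)))))) (n 171 (n
 0x2c86c860038217a082086082082182086182082182082081f8207e08218208208218208218608208218200801 z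
 (n 0x2ca8ca82038646e08a085d82075f8209207df81d81f82385e75e8627a18218a37a18608a289c7217228600801
 z (n 0 z (n 3212843 z (n
 0x2ca8ca860386276082085f89e75f8a09207df81f81f82185e7e07e08217a18238217e08a281e7a17208e00801 z
 (n 0x2ca6ca08038217df86082082082182086081f8207e082181f8208208207df8218218207e18207e07e08600801
 z (n 3212843 z (n 0 z (n
 0xca8ca86038217e082085f86082182086082082181f8208208208208208208208208608208208208208200801 z (n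
 26 z z)))))))))) (n 3 (n 6631491 z (n 0 z (n 0 z (n 34 z z)))) (n 1 (n 0 z (n
 0x336207de7a07e18a08df85e8238a286186385a86182089d86185f75e9637e27607de8228605e2adf0041 z (n 0 z
 (n 0 z (n 0 z (n 0 z (n 0 z (n 6635571 z (n 0 z (n 0 z (n 42 z (n 50 z (n 0 z (n 0 z (n 0 z (n
 0 z z)))))))))))))))) (n 0 (n 0 z (n
 0x2b6437de7de71f8e391f7dc8238a392182385d8617df8da8e289f8218a28a07a17d97a385f72291f0041 z (n 0 z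
 (n 0xcca48206077237a38217e28a099e7e07626e68216e371a76495e91d8a29a769b8dc6647597297e2a636210801
 z (n 0 z (n
 0xaca48206076e17237e27e082099f7e07a37258216e275a76489c961862ae669a81c72275866a7a49a26610801 z
 (n 0x6c84c6420782081f7228237e08a08608618a081f8a08208218a07208627df8218607a08228208608208200801
 z (n 0 z (n 0 z (n 6635571 z (n 6635571 z (n 6635571 z (n 6635571 z (n 0 z (n 0 z (n 0 z (n
 0x5b62091d7df82291e91e8228648df95d8a49169e689d8e37db81d292c6b7a88e186fa5491e2e2b200041 z (n 0 z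
 (n 0x336107de7a07e18a08df85e8238a286186385a86182089d86185f75e9637e27607de8228605e2adf0041 z (n
 0 z (n 0 z (n
 0x336307de7a07e18a08df85e8238a286186385a86182089d86185f75e9637e27607de8228605e2adf0041 z (n
 0x2b6307de7de71f8e391f7dc8238a392182385d8617df8da8e289f8218a28a07a17d97a385f72291f0041 z (n
 0x5b61091d7df82291e91e8228648df95d8a49169e689d8e37db81d292c6b7a88e186fa5491e2e2b200041 z (n 0 z
 (n 0 z (n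
 0x336207de7a07e18a08df85e8238a286186385a86182089d86185f75e9637e27607de8228605e2adf0041 z (n
 0x2c86c8600382279f86085e85f7a08618217df85f8a085f7e07e07e08207e07e28227e08a281f7a17208e00801 z
 (n 2164315 z (n 0 z (n
 0x2c86c864038646e08a085d82075f8209207df81d81f82385e75e8627a18218a37a18608a289c7217228600801 z
 (n 0 z (n 6620219 z (n 0 z (n
 0x2c86c860038217a08208608607e18218608207e08608208208207e08208208208208608208208208218200801 z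
 (n 0 z (n 0 z (n 58 z (n 0 z (n 0 z (n 66 z (n 0 z (n 0 z (n 6620219 z (n 0 z (n 0 z
 z)))))))))))))))))))))))))))))))))))))))))))))) z)))))) (n 3 (n 0 (n 1089 (n 0 z (n 0 z (n 0 z
 (n 0 z (n 0 z (n 0 z (n 0 z (n 0 z (n 0 z (n 0 z (n 0 z (n 0 z (n 0 z (n 0 z (n 0 z (n 0 z (n 0
 z z))))))))))))))))) (n 1089 (n 0 z (n 0 z (n 0 z (n 0 z (n 0 z (n 0 z (n 0 z (n 0 z (n 0 z (n
 0 z (n 0 z (n 0 z (n 0 z (n 0 z (n 0 z (n 0 z (n 0 z z))))))))))))))))) (n 775 (n 0 z (n 0 z (n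
 0 z (n 0 z (n 0 z (n 0 z (n 0 z (n 0 z (n 0 z (n 0 z (n 0 z (n 0 z z)))))))))))) (n 1029 (n 0 z
 (n 0 z (n 0 z (n 0 z (n 0 z (n 0 z (n 0 z (n 0 z (n 0 z (n 0 z (n 0 z (n 0 z (n 0 z (n 0 z (n 0
 z z))))))))))))))) (n 777 (n 0 z (n 0 z (n 0 z (n 0 z (n 0 z (n 0 z (n 2 (n 0 z (n 1 z (n 2 (n
 0 z (n 0 z (n 0 z (n 0 z (n 0 (n 8730475 z z) (n 0 z z)))))) z))) (n 0 z (n 0 z (n 0 z (n 0 z
 (n 0 z z)))))))))))) (n 777 (n 0 z (n 0 z (n 0 z (n 0 z (n 0 z (n 0 z (n 0 z (n 0 z (n 0 z (n 0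
 z (n 0 z (n 0 z z)))))))))))) (n 365 (n 0 z (n 0 z (n 0 z (n 0 z (n 0 z (n 0 z (n 0 z (n 0 z (n
 0 z (n 0 z (n 0 z z))))))))))) (n 365 (n 0 z (n 2 z (n 0 z (n 0 z (n 0 z (n 0 z (n 0 z (n 0 z
 (n 0 z (n 0 z (n 0 z z))))))))))) z)))))))) (n 0 (n 0 z (n 775 (n 0 z (n 0 z (n 0 z (n 0 z
 z)))) (n 507 (n 0 z (n 0 z (n 0 z z))) (n 63 (n 0 z (n 0 z (n 0 z (n 0 z (n 0 z (n 0 z (n 0 z
 (n 0 z z)))))))) (n 63 (n 0 z (n 0 z (n 0 z (n 0 z (n 0 z (n 0 z (n 0 z (n 0 z z)))))))) (n 509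
 (n 0 z (n 0 z (n 0 z (n 0 z (n 0 z (n 0 z (n 0 z (n 0 z (n 0 z (n 0 z (n 0 z (n 0 z (n 0 z
 z))))))))))))) (n 509 (n 0 z (n 0 z (n 0 z (n 0 z (n 0 z (n 0 z (n 0 z (n 0 z (n 0 z (n 0 z (n
 0 z (n 0 z (n 0 z z))))))))))))) z))))))) (n 0 (n 1015 (n 0 z (n 0 z (n 0 z (n 0 z z)))) (n 507
 (n 0 z (n 0 z (n 0 z (n 0 z (n 0 z (n 0 z z)))))) (n 483 (n 0 z (n 0 z (n 0 z (n 2 (n 0 z (n 2
 (n 0 z (n 0 z (n 0 z (n 0 z (n 0 z (n 0 z z)))))) (n 2 (n 0 z (n 0 z (n 0 z (n 0 z (n 0 z (n 0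
 z z)))))) z))) z)))) (n 483 (n 0 z (n 0 z (n 0 z (n 0 z z)))) (n 505 (n 0 z (n 0 z (n 0 z (n 0
 z (n 0 z (n 0 z (n 0 z (n 0 z (n 0 z (n 0 z (n 0 z (n 0 z (n 0 z (n 0 z (n 0 z (n 0 z (n 0 z (n
 0 z (n 0 z (n 0 z (n 0 z (n 0 z (n 0 z (n 0 z (n 0 z (n 0 z (n 0 z (n 0 z (n 0 z (n 0 z (n 0 z
 (n 0 z z)))))))))))))))))))))))))))))))) (n 505 (n 0 z (n 0 z (n 0 z (n 0 z (n 0 z (n 0 z (n 0
 z (n 0 z (n 0 z (n 0 z (n 0 z (n 0 z (n 0 z (n 0 z (n 0 z (n 0 z (n 0 z (n 0 z (n 0 z (n 0 z (n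
 0 z (n 0 z (n 0 z (n 0 z (n 0 z (n 0 z (n 0 z (n 0 z (n 0 z (n 0 z (n 0 z (n 0 z
 z)))))))))))))))))))))))))))))))) z)))))) (n 0 (n 267 (n 0 z (n 0 z (n 0 z (n 0 z (n 0 z (n 0 z
 (n 0 z z))))))) (n 339 (n 0 z (n 0 z (n 0 z (n 0 z (n 2 (n 0 z (n 2 (n 0 z (n 0 z (n 0 z (n 0 z
 (n 0 (n 8730475 z z) (n 0 z z)))))) (n 2 (n 0 z (n 0 z (n 0 z (n 0 z (n 0 z (n 0 z z)))))) z)))
 (n 0 z (n 0 z z))))))) (n 339 (n 0 z (n 0 z (n 0 z (n 0 z (n 0 z (n 0 z (n 0 z z))))))) (n 341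
 (n 0 z (n 0 z (n 0 z (n 0 z (n 0 z (n 0 z (n 0 z (n 0 z (n 0 z (n 0 z (n 0 z (n 0 z
 z)))))))))))) (n 341 (n 0 z (n 0 z (n 0 z (n 0 z (n 0 z (n 0 z (n 0 z (n 0 z (n 0 z (n 0 z (n 0
 z (n 0 z z)))))))))))) z))))) (n 0 (n 3 (n 0 z (n 0 z (n 0 z (n 0 z (n 0 z (n 0 z (n 2 (n 0 z
 (n 2 (n 0 z (n 0 z (n 0 z (n 0 z (n 0 (n 8786987 z z) (n 0 z z)))))) (n 2 (n 0 z (n 0 z (n 0 z
 (n 0 z (n 0 z (n 0 z z)))))) z))) z))))))) (n 3 (n 0 z (n 0 z (n 0 z (n 0 z (n 0 z (n 0 z (n 0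
 z z))))))) (n 5 (n 0 z (n 0 z (n 0 z (n 0 z (n 0 z (n 0 z (n 0 z (n 0 z (n 0 z (n 0 z (n 0 z (n
 0 z (n 0 z (n 0 z z)))))))))))))) (n 5 (n 0 z (n 0 z (n 0 z (n 0 z (n 2 z (n 0 z (n 0 z (n 0 z
 (n 0 z (n 0 z (n 0 z (n 0 z (n 0 z (n 0 z z)))))))))))))) z)))) (n 0 (n 0 z (n 389 (n 0 z (n 0
 z (n 0 z (n 0 z (n 0 z (n 0 z (n 0 z (n 0 z (n 0 z (n 0 z (n 0 z (n 0 z (n 0 z (n 0 z (n 0 z (n
 0 z (n 0 z (n 0 z (n 0 z (n 0 z (n 0 z (n 0 z (n 0 z (n 0 z (n 0 z (n 0 z (n 0 z (n 0 z (n 0 z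
 (n 0 z (n 0 z (n 0 z (n 2 (n 0 z z) (n 0 z (n 0 z (n 0 z (n 0 z (n 0 z (n 0 z (n 0 z (n 0 z (n
 0 z (n 0 z (n 0 z (n 0 z (n 0 z (n 0 z (n 0 z (n 0 z
 z))))))))))))))))))))))))))))))))))))))))))))))))) (n 389 (n 0 z (n 0 z (n 0 z (n 0 z (n 0 z (n
 0 z (n 0 z (n 0 z (n 0 z (n 0 z (n 0 z (n 0 z (n 2 z (n 0 z (n 0 z (n 0 z (n 0 z (n 0 z (n 0 z
 (n 0 z (n 0 z (n 0 z (n 0 z (n 0 z (n 0 z (n 0 z (n 0 z (n 0 z (n 0 z (n 0 z (n 0 z (n 0 z (n 0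
 z (n 0 z (n 0 z (n 0 z (n 0 z (n 0 z (n 0 z (n 0 z (n 0 z (n 0 z (n 0 z (n 0 z (n 0 z (n 0 z (n
 0 z (n 0 z (n 0 z z))))))))))))))))))))))))))))))))))))))))))))))))) z))) (n 0 (n 1 (n 0 z (n 0
 z (n 0 z (n 0 z (n 0 z (n 0 z (n 0 z (n 0 z (n 0 z (n 0 z (n 0 z z))))))))))) (n 1 (n 0 z (n 0
 z (n 0 z (n 0 z (n 0 z (n 0 z (n 0 z (n 0 z (n 0 z (n 0 z (n 0 z z))))))))))) z)) (n 0 (n 0 z
 z) (n 0 z z))))))))) (n 0 (n 1 (n 6631491 z (n 6631491 z (n 6635571 z (n 6631491 z (n 6631491 z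
 (n 6631491 z z)))))) (n 0 z (n 0 z (n 1 (n 1468 z (n 2 z (n 6635571 z (n 6558475 z (n 1468 z (n
 5517923 z z)))))) z)))) (n 0 (n 0 (n 0 (n 0 (n 7738411 z (n 7738411 z (n 7738411 z (n 7738411 z
 (n 7738411 z (n 7684707 z z)))))) z) (n 0 (n 182 (n 1 (n 6631795 z (n 1468 z (n 1468 z (n
 7746891 z (n 1468 z (n 1468 z z)))))) (n 1 (n 1468 z (n 1468 z (n 1468 z (n 1468 z (n 1468 z (n
 7746891 z z)))))) (n 1 (n 1468 z (n 1468 z (n 1468 z (n 6633243 z (n 1468 z (n 5379947 z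
 z)))))) (n 1 (n 7684147 z (n 7684147 z (n 7684147 z (n 7684147 z (n 7684147 z (n 7684147 z
 z)))))) (n 1 (n 7602715 z (n 7602715 z (n 7602715 z (n 7602715 z (n 7602715 z (n 7602715 z
 z)))))) (n 1 (n 5517683 z (n 7668795 z (n 7668795 z (n 7668795 z (n 6625035 z (n 7668795 z
 z)))))) (n 1 (n
 0x176576420182ecaca840782179f8607e28208a08a08628207e18607e08618208608217e08208218208208208208208201001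
 z (n 7746891 z (n 1468 z (n 5519131 z (n 1468 z (n 5510955 z z)))))) (n 1 (n
 0x1d95950806000000ca8ca04071021 z (n 7746891 z (n 1468 z (n 5519131 z (n 1468 z (n 5510955 z
 z)))))) (n 1 (n 7684707 z (n 7684707 z (n 7684707 z (n 7684707 z (n 7684707 z (n 7684707 z
 z)))))) (n 1 (n 7684707 z (n 7684707 z (n 7684707 z (n 7684707 z (n 7684707 z (n 7684707 z
 z)))))) (n 1 (n 7684147 z (n 7684147 z (n 7684147 z (n 7684147 z (n 7684147 z (n 7684147 z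
 z)))))) z))))))))))) (n 253 (n 1 (n 7680067 z (n 7680067 z (n 7684147 z (n 7680067 z (n 7680067
 z (n 7680067 z z)))))) (n 1 (n 7607051 z (n 4327195 z (n 7684147 z (n 4327195 z (n 4327195 z (n
 4327195 z z)))))) (n 1 (n 7607051 z (n 4364 z (n 7684147 z (n 5441323 z (n 4364 z (n 4364 z
 z)))))) z))) (n 411 (n 0 z (n 1 (n 7607051 z (n 7607051 z (n 7607051 z (n 7607051 z (n 7607051
 z (n 7607051 z z)))))) (n 1 (n 7684707 z (n 7684707 z (n 7684707 z (n 7684707 z (n 7684707 z (n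
 7684707 z z)))))) (n 1 (n 1372 z (n 5310251 z (n 5445483 z (n 3148 z (n 3148 z (n 3148 z
 z)))))) z)))) (n 255 (n 1 (n 7680067 z (n 7680067 z (n 7680067 z (n 7680067 z (n 7680067 z (n
 7680067 z z)))))) (n 1 (n 4327195 z (n 7602715 z (n 4327195 z (n 4327195 z (n 4327195 z (n
 4327195 z z)))))) (n 1 (n 28 z (n 5310251 z (n 7602715 z (n 4124 z (n 4124 z (n 4124 z z))))))
 z))) (n 171 (n 0 z (n 0 z (n 1 (n 7684147 z (n 7684147 z (n 7684147 z (n 7684147 z (n 7684147 z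
 (n 7684147 z z)))))) (n 0 z (n 1 (n 7602715 z (n 3212 z (n 268 z (n 6428475 z (n 3212 z (n
 5449579 z z)))))) (n 0 z (n 1 (n 7684707 z (n 7684707 z (n 7684707 z (n 7684707 z (n 7684707 z
 (n 7684707 z z)))))) z))))))) (n 183 (n 1 (n 6492275 z (n
 0x2372089f8207e189f89f8218218608de86189c8e286086181e81e5da9e47e38608268dc89f6219600041 z (n
 2044 z (n 2044 z (n 2044 z (n 2044 z z)))))) (n 1 (n 2044 z (n 2044 z (n 2044 z (n 7607051 z (n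
 2044 z (n 2044 z z)))))) (n 1 (n 7607051 z (n 2044 z (n 2044 z (n 2164587 z (n
 0x337107de7a07e18a08df85e8238a286186385a86182089d86185f75e9637e27607de8228605e2adf0041 z (n
 2044 z z)))))) (n 1 (n 7684147 z (n 7684147 z (n 7684147 z (n 7684147 z (n 7684147 z (n 7684147
 z z)))))) (n 1 (n 7602715 z (n 7602715 z (n 7602715 z (n 7607051 z (n 7602715 z (n 7602715 z
 z)))))) (n 1 (n 4395123 z (n 7668795 z (n 7668795 z (n 7668795 z (n 7668795 z (n 7668795 z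
 z)))))) (n 1 (n 7607051 z (n 2044 z (n 2044 z (n 2044 z (n 2044 z (n 2044 z z)))))) (n 1 (n
 7607051 z (n 2044 z (n 2044 z (n 2044 z (n 2044 z (n 2044 z z)))))) (n 1 (n 7684707 z (n
 7684707 z (n 7684707 z (n 7684707 z (n 7684707 z (n 7684707 z z)))))) (n 1 (n 7684707 z (n
 7684707 z (n 7684707 z (n 7684707 z (n 7684707 z (n 7684707 z z)))))) (n 1 (n 7684147 z (n
 7684147 z (n 7684147 z (n 7684147 z (n 7684147 z (n 7684147 z z)))))) z))))))))))) (n 3 (n 1 (n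
 7680067 z (n 7680067 z (n 7684147 z (n 7680067 z (n 7680067 z (n 7680067 z z)))))) (n 0 z (n 0
 z (n 1 (n 7738411 z (n 7738411 z (n 7684147 z (n 7607051 z (n 7738411 z (n 5517939 z z))))))
 z)))) z))))))) (n 0 z (n 0 (n 545 (n 0 z (n 0 z (n 0 z (n 0 z (n 0 z (n 0 z (n 0 z (n 0 z (n 0
 z (n 0 z (n 0 z (n 0 z (n 0 z (n 0 z (n 0 z (n 0 z (n 0 z z))))))))))))))))) (n 393 (n 0 z (n 0
 z (n 0 z (n 0 z (n 0 z (n 0 z (n 0 z (n 0 z (n 0 z (n 0 z (n 0 z (n 0 z z)))))))))))) (n 411 (n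
 0 z (n 0 z (n 0 z (n 0 z z)))) (n 515 (n 0 z (n 0 z (n 0 z (n 0 z (n 0 z (n 0 z (n 0 z (n 0 z
 (n 0 z (n 0 z (n 0 z (n 0 z (n 0 z (n 0 z (n 0 z z))))))))))))))) (n 255 (n 0 z (n 0 z (n 0 z
 z))) (n 135 (n 0 z (n 0 z (n 0 z (n 0 z (n 0 z (n 0 z (n 0 z z))))))) (n 401 (n 0 z (n 0 z (n 0
 z (n 0 z (n 0 z (n 0 z (n 0 z (n 0 z (n 0 z (n 0 z (n 0 z (n 0 z z)))))))))))) (n 33 (n 0 z (n
 0 z (n 0 z (n 0 z (n 0 z (n 0 z (n 0 z (n 0 z z)))))))) (n 171 (n 0 z (n 0 z (n 0 z (n 0 z (n 0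
 z (n 0 z (n 0 z z))))))) (n 3 (n 0 z (n 0 z (n 0 z (n 0 z (n 0 z (n 0 z (n 0 z z))))))) (n 183
 (n 0 z (n 0 z (n 0 z (n 0 z (n 0 z (n 0 z (n 0 z (n 0 z (n 0 z (n 0 z (n 0 z z))))))))))) (n
 255 (n 0 z (n 0 z (n 0 z (n 0 z (n 0 z (n 0 z (n 0 z (n 0 z (n 0 z (n 0 z (n 0 z (n 0 z (n 0 z
 z))))))))))))) (n 171 (n 0 z (n 0 z (n 0 z (n 0 z (n 0 z (n 0 z (n 0 z (n 0 z (n 0 z (n 0 z (n
 0 z (n 0 z z)))))))))))) (n 3 (n 0 z (n 0 z (n 0 z (n 0 z (n 0 z (n 0 z (n 0 z (n 0 z (n 0 z (n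
 0 z (n 0 z (n 0 z (n 0 z (n 0 z z)))))))))))))) (n 1 (n 0 z (n 0 z (n 0 z (n 0 z (n 0 z (n 0 z
 (n 0 z (n 0 z (n 0 z (n 0 z (n 0 z z))))))))))) (n 183 (n 0 z (n 0 z (n 0 z (n 0 z (n 0 z (n 0
 z (n 0 z (n 0 z (n 0 z (n 0 z (n 0 z (n 0 z (n 0 z (n 0 z (n 0 z (n 0 z (n 0 z (n 0 z (n 0 z (n
 0 z (n 0 z (n 0 z (n 0 z (n 0 z (n 0 z (n 0 z (n 0 z (n 0 z (n 0 z (n 0 z (n 0 z (n 0 z
 z)))))))))))))))))))))))))))))))) (n 255 (n 0 z (n 0 z (n 0 z (n 0 z (n 0 z (n 0 z z)))))) (n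
 171 (n 0 z (n 0 z (n 0 z (n 0 z (n 0 z (n 0 z (n 0 z (n 0 z (n 0 z (n 0 z z)))))))))) (n 3 (n 0
 z (n 0 z (n 0 z (n 0 z z)))) (n 1 (n 0 z (n 0 z (n 0 z (n 0 z (n 0 z (n 0 z (n 0 z (n 0 z (n 0
 z (n 0 z (n 0 z (n 0 z (n 0 z (n 0 z (n 0 z (n 0 z z)))))))))))))))) (n 0 (n 0 z (n 0 z (n 0 z
 (n 0 z (n 0 z (n 0 z (n 0 z (n 0 z (n 0 z (n 0 z (n 0 z (n 0 z (n 0 z (n 0 z (n 0 z (n 0 z (n 0
 z (n 0 z (n 0 z (n 0 z (n 0 z (n 0 z (n 0 z (n 0 z (n 0 z (n 0 z (n 0 z (n 0 z (n 0 z (n 0 z (n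
 0 z (n 0 z (n 0 z (n 0 z (n 0 z (n 0 z (n 0 z (n 0 z (n 0 z (n 0 z (n 0 z (n 0 z (n 0 z (n 0 z
 (n 0 z (n 0 z z)))))))))))))))))))))))))))))))))))))))))))))) z))))))))))))))))))))) z)))) z)
 z)))) (n 0x1324d819266434cf2c0b51304a89904a8c8872d08113240 (n 0 (n 297 (n 0 z (n 2 z (n 10 z (n
 3282443 z z)))) (n 249 (n
 0x1d46207f08727e285e82e7f081581b80682e7a283781c7d47f87c278e7d27ab8317fa8857a586b7f782481d7b483c83281279586383e7dc85b85e7ab7d87fa7ec78180f8267027ee84a8947dd7dd0051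
 z (n 0 z (n 0 z (n 0 z (n 6624299 z (n 18 z (n 0 z (n 0 z (n
 0x8ca2a806078048057fc8028058017f77fe7fc7fb7f280a8028077fe8057f78038027f280280180b7f98057ff8097fc8018047fd7f88028037fd7fb8028028028017fe7f78048047ff7f58088038007ff0811
 z (n
 0x2ca6ca60078047ff8008028007ff7fd7ff8018008007fc8008018068007fc8007fe7fe8048038017ff8017fe8018008048028018038008018008008017fd7ff8027ff8007ff8008017fe8037ff8007ff0811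
 z (n 26 z (n
 0x2746427ef8727ce87b8387ed83582780084777d82583d7cd7e779f7677d278381f7e889b7b288380c83883d79782183481175d8618587c68868537b77bf7f37e976682f8456c27ee87a8e37cd7d20051
 z (n 0 z (n 0 z (n 0 z (n 6635811 z (n 6635811 z z))))))))))))))))) (n 9 (n 0 z (n 6627651 z (n
 34 z (n 42 z z)))) (n 3 (n 0 z (n 0 z (n 0 z (n 0 z (n 50 z (n 2164283 z z)))))) (n 1 (n 0 z (n
 0 z (n 6635811 z (n 0 z (n 58 z (n 0 z z)))))) (n 0 (n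
 0x12ca68642078028067fd8038057ff7fb7ff7fe7ff7f68068047fe7fe7fd7f68037fe7fa7fb8048098008047fd8087f88048017fa7f88038037fe7ff7fe8017fd8007fb7fb8038057f57f880a80e7ff7fd0811
 z (n 0 z (n
 0x6ca28406078008018008008008008038008008008007fd8027ff8027fe8008017fe8018028008008008008008008007fc7fe8008008008008008037fd8008008017fd8008008008018037fe8008007ff0811
 z (n 0 z (n 66 z (n 6624299 z (n 6628107 z (n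
 0x1d46207f08727e285e82e7f081581b80682e7a283781c7d47f87c278e7d27ab8317fa8857a586b7f782481d7b483c83281279586383e7dc85b85e7ab7d87fa7ec78180f8267027ee84a8947dd7dd0051
 z (n 0 z (n 0 z (n 0 z (n 0 z (n 0 z (n 0 z (n 6635811 z (n 6635811 z (n
 0x2746217ef8727ce87b8387ed83582780084777d82583d7cd7e779f7677d278381f7e889b7b288380c83883d79782183481175d8618587c68868537b77bf7f37e976682f8456c27ee87a8e37cd7d20051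
 z (n 0 z (n 0 z (n 0 z (n 0 z (n
 0x2746107ef8727ce87b8387ed83582780084777d82583d7cd7e779f7677d278381f7e889b7b288380c83883d79782183481175d8618587c68868537b77bf7f37e976682f8456c27ee87a8e37cd7d20051
 z (n
 0xaca68602037ff8097fd7fb8087ff8008057ff8017f08088038037f67fd7f58057fa7fb8008028117f480480980a8017fd8048017ff8027fb8017fa7fe8037fa8018057fd8017ff8038007fd8058008010811
 z (n 0 z (n
 0x2746417ef8727ce87b8387ed83582780084777d82583d7cd7e779f7677d278381f7e889b7b288380c83883d79782183481175d8618587c68868537b77bf7f37e976682f8456c27ee87a8e37cd7d20051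
 z (n 0 z (n 0 z (n 6635811 z (n
 0xaca68602038038087fb7fe8098017fb8037ff7ff7f88058038007fb7fd7f88007fa7f77fd8048097fd8047ff8077fd8038047fd8038077fe7fe7fd8077fd7fe7fe8037f87ff8017fb7ff8038088018010811
 z (n
 0x2c86c860078047ff8008028007ff7fd7ff8018008007fc8008018068007fc8007fe7fe8048038017ff8017fe8018008048028018038008018008008017fd7ff8027ff8007ff8008017fe8037ff8007ff0811
 z (n
 0x2c84c826078018017ff7ff8018008008007ff8007ff8028007ff7ff8008007ff8008008008008018018008008017ff8028007ff8008018008007fe8008008008008008008018008017ff8018008008000811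
 z (n 6624299 z z)))))))))))))))))))))))))))))))) z)))))) (n 297 (n 0 (n 0 z (n 499 (n 0 z (n 0
 z (n 0 z (n 0 z (n 0 z (n 0 z (n 0 z (n 0 z (n 0 z (n 0 z (n 0 z (n 0 z z)))))))))))) (n 499 (n
 0 z (n 0 z (n 0 z (n 0 z (n 0 z (n 0 z (n 0 z (n 0 z (n 0 z (n 0 z (n 0 z (n 0 z z))))))))))))
 (n 31 (n 0 z (n 0 z (n 0 z (n 0 z (n 0 z (n 0 z (n 0 z z))))))) (n 31 (n 0 z (n 0 z (n 0 z (n 0
 z (n 0 z (n 0 z (n 2 (n 1 z (n 2 (n 0 z (n 0 z (n 0 z (n 0 z (n 0 (n 8871955 z z) (n 0 z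
 z)))))) (n 1 z z))) z))))))) (n 55 (n 0 z (n 0 z (n 0 z (n 0 z (n 0 z (n 0 z (n 0 z (n 0 z (n 0
 z (n 0 z z)))))))))) (n 51 (n 0 z (n 0 z (n 0 z (n 0 z (n 0 z (n 0 z (n 0 z z))))))) (n 53 (n 0
 z (n 0 z (n 0 z (n 0 z (n 0 z (n 0 z (n 0 z (n 0 z (n 0 z (n 0 z (n 0 z (n 0 z z))))))))))))
 z)))))))) (n 0 (n 983 (n 0 z (n 0 z (n 0 z (n 2 (n 0 z (n 2 (n 0 z (n 0 z (n 0 z (n 0 z (n 0 z
 (n 0 z z)))))) (n 2 (n 0 z (n 0 z (n 0 z (n 0 z (n 0 (n 8803379 z z) (n 0 z z)))))) (n 1 z (n 2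
 (n 0 z (n 0 z (n 0 z (n 0 z (n 0 z (n 0 z z)))))) (n 2 (n 0 z (n 0 z (n 0 z (n 0 z (n 0 z (n 0
 z z)))))) z)))))) (n 0 z (n 0 z (n 0 z (n 0 z (n 0 z (n 0 z (n 0 z (n 0 z (n 0 z (n 0 z (n 0 z
 (n 0 z (n 0 z z))))))))))))))))) (n 983 (n 0 z (n 0 z (n 0 z (n 0 z (n 0 z (n 2 (n 2 (n 0 z (n
 0 z (n 0 z (n 0 z (n 0 z (n 0 z z)))))) (n 2 (n 0 z (n 0 z (n 0 z (n 0 z (n 0 z (n 0 z z))))))
 (n 2 (n 0 z (n 0 z (n 0 z (n 0 z (n 0 (n 8794195 z z) (n 0 z z)))))) (n 2 (n 0 z (n 0 z (n 0 z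
 (n 0 z (n 0 z (n 0 z z)))))) (n 2 (n 0 z (n 0 z (n 0 z (n 0 z (n 0 z (n 0 z z)))))) z))))) (n 0
 z (n 0 z (n 0 z (n 0 z (n 0 z (n 0 z (n 0 z (n 0 z (n 0 z (n 0 z (n 0 z z))))))))))))))))) (n
 31 (n 0 z (n 2 (n 0 z (n 2 (n 0 z (n 0 z (n 0 z (n 0 z (n 0 (n 8794195 z z) (n 0 z z)))))) (n 2
 (n 0 z (n 0 z (n 0 z (n 0 z (n 0 z (n 0 z z)))))) (n 2 (n 0 z (n 0 z (n 0 z (n 0 z (n 0 z (n 0
 z z)))))) z)))) (n 0 z z))) (n 31 (n 0 z (n 0 z (n 0 z z))) (n 27 (n 0 z (n 0 z (n 0 z (n 0 z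
 (n 0 z (n 7745619 z z)))))) (n 243 (n 0 z (n 0 z (n 0 z (n 0 z (n 2 (n 2 (n 0 z (n 0 z (n 0 z
 (n 0 z (n 0 (n 8871955 z z) (n 0 z z)))))) z) (n 0 z (n 0 z (n 0 z z)))))))) (n 25 (n 0 z (n 0
 z (n 0 z (n 2 z (n 0 z (n 0 z (n 0 z (n 0 z (n 0 z (n 0 z (n 0 z (n 0 z (n 0 z z)))))))))))))
 z))))))) (n 0 (n 0 z (n 1293 (n 0 z (n 0 z (n 0 z (n 0 z (n 0 z (n 0 z (n 0 z (n 0 z (n 0 z (n
 0 z (n 0 z (n 0 z (n 0 z (n 0 z (n 0 z (n 0 z (n 0 z (n 0 z (n 0 z z))))))))))))))))))) (n 1293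
 (n 0 z (n 0 z (n 0 z (n 0 z (n 0 z (n 0 z (n 0 z (n 0 z (n 0 z (n 0 z (n 2 (n 1 z (n 2 (n 0 z
 (n 0 z (n 0 z (n 0 z (n 0 z (n 0 z z)))))) (n 2 (n 0 z (n 0 z (n 0 z (n 0 z (n 0 z (n 0 z
 z)))))) z))) (n 0 z (n 0 z (n 0 z (n 0 z (n 0 z (n 0 z (n 0 z (n 0 z z))))))))))))))))))) (n
 327 (n 0 z (n 0 z (n 0 z (n 0 z (n 0 z (n 0 z (n 0 z (n 0 z (n 0 z (n 0 z (n 0 z (n 0 z (n 0 z
 (n 0 z (n 0 z (n 0 z (n 0 z (n 0 z (n 0 z (n 0 z (n 0 z (n 0 z z)))))))))))))))))))))) (n 543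
 (n 0 z (n 0 z (n 0 z (n 2 (n 1 z z) (n 0 z (n 0 z (n 0 z (n 0 z (n 0 z (n 0 z (n 0 z
 z))))))))))) (n 541 (n 0 z (n 0 z (n 0 z (n 0 z (n 0 z (n 0 z (n 0 z (n 0 z (n 2 z (n 0 z (n 0
 z (n 0 z (n 0 z (n 0 z (n 0 z (n 0 z (n 0 z (n 0 z (n 0 z (n 0 z (n 0 z (n 0 z (n 0 z (n 0 z (n
 0 z z))))))))))))))))))))))))) z)))))) (n 0 (n 19 (n 0 z (n 0 z (n 0 z (n 0 z (n 0 z (n 0 z (n
 0 z (n 0 z z)))))))) (n 19 (n 0 z (n 0 z (n 0 z (n 0 z (n 0 z (n 0 z (n 2 (n 1 z (n 2 (n 0 z (n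
 0 z (n 0 z (n 0 z (n 0 (n 8794635 z z) (n 0 z z)))))) (n 1 z z))) (n 0 z z)))))))) (n 295 (n 0
 z (n 0 z (n 0 z (n 0 z (n 0 z (n 0 z (n 0 z (n 0 z (n 0 z (n 0 z (n 7746059 z (n 7746059 z (n 0
 z (n 0 z z)))))))))))))) (n 291 (n 0 z (n 0 z (n 0 z (n 0 z (n 0 z (n 0 z (n 0 z (n 0 z (n 0 z
 (n 0 z (n 0 z (n 0 z (n 0 z (n 0 z z)))))))))))))) (n 293 (n 0 z (n 0 z (n 0 z (n 0 z (n 0 z (n
 0 z (n 0 z (n 0 z (n 0 z (n 0 z (n 0 z z))))))))))) z))))) (n 0 (n 0 z (n 535 (n 0 z (n 0 z (n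
 0 z (n 0 z (n 0 z (n 0 z z)))))) (n 51 (n 0 z (n 0 z (n 0 z (n 0 z (n 0 z z))))) (n 533 (n 0 z
 (n 0 z (n 0 z (n 0 z (n 0 z (n 0 z (n 0 z (n 0 z (n 0 z (n 0 z (n 0 z (n 0 z (n 0 z (n 0 z (n 0
 z (n 0 z (n 0 z (n 0 z (n 0 z (n 0 z (n 0 z (n 0 z (n 0 z (n 0 z (n 0 z
 z))))))))))))))))))))))))) z)))) (n 0 (n 295 (n 0 z (n 0 z (n 0 z (n 0 z z)))) (n 243 (n 0 z (n
 0 z (n 0 z (n 0 z (n 0 z (n 2 (n 1 z z) (n 0 z z))))))) (n 293 (n 0 z (n 2 z (n 0 z (n 0 z (n 0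
 z (n 0 z (n 0 z (n 0 z z)))))))) z))) (n 0 (n 3 (n 0 z (n 0 z (n 0 z z))) (n 5 (n 0 z (n 0 z (n
 0 z (n 0 z (n 0 z (n 7746059 z (n 7746059 z (n 0 z (n 0 z (n 0 z (n 0 z (n 0 z (n 0 z
 z))))))))))))) z)) (n 0 (n 961 (n 0 z (n 0 z (n 0 z (n 0 z (n 0 z (n 0 z (n 0 z (n 0 z (n 0 z
 (n 0 z (n 0 z (n 0 z (n 0 z (n 0 z (n 0 z (n 0 z (n 0 z (n 0 z (n 0 z (n 0 z (n 0 z (n 0 z (n 0
 z (n 0 z (n 0 z (n 0 z (n 0 z (n 0 z (n 0 z (n 0 z (n 0 z (n 0 z (n 0 z (n 0 z (n 0 z (n 0 z (n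
 0 z (n 0 z (n 0 z (n 0 z (n 0 z (n 0 z (n 0 z (n 0 z (n 0 z (n 0 z (n 0 z (n 0 z (n 0 z (n 0 z
 (n 0 z (n 0 z (n 0 z (n 0 z (n 0 z (n 0 z
 z)))))))))))))))))))))))))))))))))))))))))))))))))))))))) z) (n 0 z z))))))))) (n 0 (n 0 z (n 1
 (n 28 z (n 1996 z (n 6628107 z (n 1996 z (n 1996 z (n 1996 z z)))))) (n 1 (n 1996 z (n 1996 z
 (n 1996 z (n 1996 z (n 1996 z (n 6628107 z z)))))) (n 1 (n 3282443 z (n 6628107 z (n 3282443 z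
 (n 3282443 z (n 3282443 z (n 3282443 z z)))))) z)))) (n 0 z z)))) (n
 0x2b24d14b66a0c93150497b308a558252ac8253a680ab240 (n 0x15649 (n 303 (n
 0x2ca8a8620780827f808181808080817a858083807d7d857f83827f837b827f807e8379807e7f827f7d8181847e807f81807c847e817d7e0809
 z (n 0 z (n 0 z (n 0 z (n 0 z (n 0 z (n 0 z (n 2 z (n 10 z (n 0 z (n 6565923 z (n 6565923 z (n
 6554411 z (n
 0x4ca8ca82038a81757d7d7f8175837b877d7e79828386767b8082837a847f91798a798b827f88758386827970837f89807f84787c8584820809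
 z (n 0 z z))))))))))))))) (n 291 (n 18 z (n 3278363 z (n 0 z (n 0 z z)))) (n 9 (n 26 z (n
 6561843 z (n 34 z z))) (n 3 (n 42 z (n 0 z (n 6565923 z (n 0 z z)))) (n 1 (n 6565923 z (n 0 z
 (n 6565923 z (n 0 z (n 50 z (n 0 z (n
 0x2ca8a602077f847d7f818280827f827b838383857d7b827e828180827e827c7f7f7f7f80837f81817f7f7d837f827f7f817e847e7e817f0809
 z (n
 0xeca8a602078482777a7d847e807f81787f928989896f767986867f7e7a847f797e6e9b7f7e8188848a7b78837f80837c8382787d78857e0809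
 z (n
 0x4ca6ca62038a81757d7d7f8175837b877d7e79828386767b8082837a847f91798a798b827f88758386827970837f89807f84787c8584820809
 z (n
 0x20ca6ca4203a17c64757b877c6c966e74ab578879838987697d908182698eb65495af65827a9b667d509b6c68807f9e8281698e6a9871770809
 z (n 0 z (n 6565923 z (n 6565923 z (n 6554411 z z)))))))))))))) (n 0 (n 0 z (n 0 z (n 58 z (n 0
 z (n 66 z (n 0 z (n 6628411 z z))))))) z)))))) (n 9 (n 0 (n 0 z (n 499 (n 0 z (n 0 z (n 0 z (n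
 0 z (n 0 z (n 0 z (n 0 z (n 0 z (n 0 z (n 0 z z)))))))))) (n 43 (n 0 z (n 0 z (n 0 z (n 0 z (n
 0 z (n 0 z (n 0 z (n 0 z z)))))))) (n 43 (n 0 z (n 0 z (n 0 z (n 0 z (n 0 z (n 0 z (n 0 z (n 2
 (n 2 (n 0 z (n 0 z (n 0 z (n 0 (n 8802843 z z) (n 0 z (n 0 z z)))))) (n 1 z (n 2 (n 0 z (n 0 z
 (n 0 z (n 0 (n 8802843 z z) (n 0 z (n 0 z z)))))) (n 2 (n 0 z (n 0 z (n 0 z (n 0 z (n 0 z (n 0
 z z)))))) z)))) z)))))))) (n 59 (n 0 z (n 0 z (n 0 z (n 0 z (n 0 z (n 0 z (n 0 z (n 0 z (n 0 z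
 (n 0 z (n 0 z (n 0 z z)))))))))))) (n 57 (n 0 z (n 0 z (n 0 z (n 0 z (n 0 z (n 0 z (n 0 z (n 0
 z (n 0 z z))))))))) (n 49 (n 0 z (n 0 z (n 0 z (n 0 z (n 0 z (n 0 z (n 0 z z))))))) (n 49 (n 0
 z (n 0 z (n 0 z (n 0 z (n 0 z (n 0 z (n 0 z z))))))) z)))))))) (n 0 (n 511 (n 0 z (n 0 z (n 0 z
 (n 0 z (n 0 z (n 0 z (n 0 z (n 0 z (n 0 z (n 0 z z)))))))))) (n 1211 (n 0 z (n 0 z (n 0 z (n 0
 z (n 0 z (n 0 z (n 0 z (n 0 z (n 0 z (n 0 z (n 0 z (n 0 z (n 0 z (n 0 z z)))))))))))))) (n 1211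
 (n 0 z (n 0 z (n 0 z (n 0 z (n 0 z (n 0 z (n 0 z (n 0 z (n 0 z (n 0 z (n 0 z (n 2 (n 2 (n 0 z
 (n 0 z (n 0 z (n 0 z (n 0 z (n 0 z z)))))) (n 2 (n 0 z (n 0 z (n 0 z (n 0 z (n 0 z (n 0 z
 z)))))) (n 2 (n 0 z (n 0 z (n 0 z (n 0 z (n 0 z (n 0 z z)))))) (n 2 (n 0 z (n 0 z (n 0 z (n 0 z
 (n 0 z (n 0 z z)))))) z)))) (n 0 z (n 0 z z)))))))))))))) (n 513 (n 2 (n 1 z (n 1 z (n 1 z z)))
 (n 0 z (n 0 z (n 0 z (n 0 z (n 0 z (n 0 z (n 0 z z)))))))) (n 89 (n 0 z (n 0 z (n 2 (n 1 z (n 1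
 z z)) (n 0 z (n 0 z (n 0 z (n 0 z (n 0 z (n 0 z z))))))))) (n 509 (n 0 z (n 0 z (n 0 z (n 0 z
 (n 0 z (n 0 z (n 0 z (n 0 z (n 0 z (n 0 z (n 0 z (n 0 z (n 0 z (n 0 z z)))))))))))))) (n 509 (n
 0 z (n 0 z (n 0 z (n 0 z (n 0 z (n 0 z (n 0 z (n 0 z (n 0 z (n 0 z (n 0 z (n 0 z (n 0 z (n 0 z
 z)))))))))))))) z))))))) (n 0 (n 19 (n 0 z (n 0 z (n 0 z (n 0 z (n 0 z (n 0 z (n 0 z z)))))))
 (n 19 (n 0 z (n 0 z (n 0 z (n 0 z (n 0 z (n 0 z (n 2 (n 2 (n 0 z (n 0 z (n 0 z (n 0 (n 8872195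
 z z) (n 0 z (n 0 z z)))))) (n 1 z (n 2 (n 0 z (n 0 z (n 0 z (n 0 (n 8872195 z z) (n 0 z (n 0 z
 z)))))) (n 2 (n 0 z (n 0 z (n 0 z (n 0 z (n 0 z (n 0 z z)))))) z)))) z))))))) (n 299 (n 0 z (n
 0 z (n 0 z (n 0 z (n 0 z (n 0 z (n 0 z (n 0 z (n 0 z z))))))))) (n 297 (n 0 z (n 0 z (n 0 z (n
 0 z (n 0 z (n 0 z (n 0 z (n 0 z (n 0 z (n 0 z (n 0 z z))))))))))) (n 289 (n 0 z (n 0 z (n 0 z
 (n 0 z (n 0 z z))))) (n 289 (n 0 z (n 0 z (n 0 z (n 0 z (n 0 z z))))) z)))))) (n 0 (n 0 z (n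
 539 (n 0 z (n 0 z (n 0 z (n 0 z z)))) (n 537 (n 0 z (n 0 z (n 0 z (n 0 z (n 0 z (n 0 z (n 0 z
 (n 0 z (n 0 z (n 0 z (n 0 z (n 0 z (n 0 z (n 0 z (n 0 z (n 0 z (n 0 z (n 0 z (n 0 z
 z))))))))))))))))))) (n 49 (n 0 z (n 0 z (n 0 z (n 0 z (n 0 z z))))) (n 49 (n 0 z (n 0 z (n 0 z
 (n 0 z (n 0 z z))))) z))))) (n 0 (n 7 (n 0 z (n 2 (n 1 z (n 2 (n 0 z (n 0 z (n 0 z (n 0 z (n 0
 z (n 0 z z)))))) (n 2 (n 0 z (n 0 z (n 0 z (n 0 (n 8872195 z z) (n 0 z (n 0 z z)))))) z))) (n 0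
 z (n 0 z z)))) (n 51 (n 0 z (n 2 (n 1 z (n 1 z z)) (n 0 z (n 0 z (n 0 z (n 0 z (n 0 z (n 0 z (n
 0 z z))))))))) (n 49 (n 2 (n 0 z z) (n 0 z (n 0 z (n 0 z (n 0 z z))))) (n 49 (n 0 z (n 0 z (n 0
 z (n 0 z (n 0 z z))))) z)))) (n 0 (n 723 (n 0 z (n 0 z (n 0 z (n 0 z (n 0 z (n 0 z (n 0 z (n 0
 z (n 0 z (n 0 z (n 0 z (n 0 z (n 0 z (n 0 z (n 0 z (n 0 z (n 0 z (n 0 z (n 0 z (n 0 z (n 0 z (n
 0 z (n 0 z (n 0 z (n 0 z z))))))))))))))))))))))))) (n 721 (n 0 z (n 0 z (n 0 z (n 0 z (n 0 z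
 (n 0 z (n 0 z (n 0 z z)))))))) (n 721 (n 0 z (n 0 z (n 0 z (n 0 z (n 0 z (n 0 z (n 0 z (n 0 z
 z)))))))) z))) (n 0 (n 961 (n 0 z (n 0 z (n 0 z (n 0 z (n 0 z (n 0 z (n 0 z (n 0 z (n 0 z (n 0
 z (n 0 z (n 0 z (n 0 z (n 0 z (n 0 z (n 0 z (n 0 z (n 0 z (n 0 z (n 0 z (n 0 z
 z))))))))))))))))))))) (n 961 (n 0 z (n 0 z (n 0 z (n 0 z (n 0 z (n 0 z (n 0 z (n 0 z (n 0 z (n
 0 z (n 0 z (n 0 z (n 0 z (n 0 z (n 0 z (n 0 z (n 0 z (n 0 z (n 0 z (n 0 z (n 0 z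
 z))))))))))))))))))))) z)) (n 0 (n 0 z z) (n 0 z z))))))))) (n 0 (n 1 (n 2 z (n 6565923 z (n
 6554411 z (n 2428 z (n 2428 z (n 2428 z z)))))) (n 1 (n 6561843 z (n 6565923 z (n 6561843 z (n
 6561843 z (n 6561843 z (n 6561843 z z)))))) (n 1 (n 2428 z (n 6565923 z (n 4326939 z (n 2428 z
 (n 2428 z (n 2428 z z)))))) z))) (n 0 (n 0 (n 0 (n 0 (n 7475299 z (n 7746059 z (n 7746059 z (n
 7746059 z (n 7746059 z (n 7746059 z z)))))) z) (n 0 (n 24 (n 1 (n 7614499 z (n 7614499 z (n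
 7614499 z (n 7614499 z (n 7614499 z (n 7614499 z z)))))) (n 1 (n 7475299 z (n 7475299 z (n
 7475299 z (n 7475299 z (n 7475299 z (n 7475299 z z)))))) (n 1 (n 7614499 z (n 7614499 z (n
 7614499 z (n 7614499 z (n 7614499 z (n 7614499 z z)))))) (n 0 z (n 0 z (n 1 (n 7614499 z (n
 7614499 z (n 7614499 z (n 7614499 z (n 7614499 z (n 7614499 z z)))))) (n 1 (n 7754267 z (n
 7754267 z (n 7754267 z (n 7754267 z (n 7754267 z (n 7754267 z z)))))) z))))))) (n 291 (n 1 (n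
 7475299 z (n 7746059 z (n 7746059 z (n 7746059 z (n 7746059 z (n 7746059 z z)))))) (n 1 (n
 7475299 z (n 3278619 z (n 3278619 z (n 3278619 z (n 3278619 z (n 3278619 z z)))))) (n 0 z (n 0
 z z)))) (n 9 (n 1 (n 7475299 z (n 3213163 z (n 3213163 z (n 3213163 z (n 3213163 z (n 3213163 z
 z)))))) (n 1 (n 7610419 z (n 7610419 z (n 7610419 z (n 7610419 z (n 7610419 z (n 7610419 z
 z)))))) (n 1 (n 7475299 z (n 2284 z (n 196 z (n 2284 z (n 2284 z (n 2284 z z)))))) z))) (n 389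
 (n 1 (n 7475299 z (n 7614499 z (n 7475299 z (n 7475299 z (n 7475299 z (n 7475299 z z)))))) (n 1
 (n 7545867 z (n 7614499 z (n 7545867 z (n 7545867 z (n 7545867 z (n 7545867 z z)))))) (n 0 z (n
 1 (n 7746059 z (n 7614499 z (n 4327195 z (n 3356 z (n 28 z (n 3356 z z)))))) z)))) (n 539 (n 1
 (n 7475299 z (n 7475299 z (n 7475299 z (n 7475299 z (n 7475299 z (n 7475299 z z)))))) (n 1 (n
 7614499 z (n 7614499 z (n 7614499 z (n 7614499 z (n 7614499 z (n 7614499 z z)))))) (n 1 (n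
 7614499 z (n 7614499 z (n 7614499 z (n 7614499 z (n 7614499 z (n 7614499 z z)))))) (n 0 z (n 1
 (n 7475299 z (n 7475299 z (n 7475299 z (n 7475299 z (n 7475299 z (n 7475299 z z)))))) (n 1 (n
 7746059 z (n 4268 z (n 4268 z (n
 0x2ea8a602077f847d7f818280827f827b838383857d7b827e828180827e827c7f7f7f7f80837f81817f7f7d837f827f7f817e847e7e817f0809
 z (n 4268 z (n 4268 z z)))))) (n 1 (n 5310315 z (n 4268 z (n 4268 z (n 4268 z (n 7746059 z (n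
 4268 z z)))))) (n 1 (n 5375771 z (n 4268 z (n 7746059 z (n 6358859 z (n 3278683 z (n
 0x4ea6ea62038a81757d7d7f8175837b877d7e79828386767b8082837a847f91798a798b827f88758386827970837f89807f84787c8584820809
 z z)))))) (n 1 (n 7602987 z (n 7602987 z (n 7602987 z (n 7602987 z (n 7602987 z (n 5447795 z
 z)))))) z))))))))) (n 651 (n 0 z (n 0 z (n 1 (n 3213163 z (n 5260 z (n 5260 z (n 5260 z (n
 7754267 z (n 5260 z z)))))) (n 1 (n 7475299 z (n 7475299 z (n 7475299 z (n 7475299 z (n 7475299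
 z (n 7475299 z z)))))) (n 1 (n 7676987 z (n 7676987 z (n 7754267 z (n 7676987 z (n 7676987 z (n
 7676987 z z)))))) z))))) (n 9 (n 1 (n 7746059 z (n 7614499 z (n 7602987 z (n 3213163 z (n
 3213163 z (n 3213163 z z)))))) (n 1 (n 7610419 z (n 7614499 z (n 7610419 z (n 7610419 z (n
 7610419 z (n 7610419 z z)))))) (n 1 (n 7746059 z (n 7614499 z (n 4327195 z (n 2428 z (n 2428 z
 (n 2428 z z)))))) z))) z))))))) (n 0 z (n 0 (n 273 (n 0 z (n 0 z (n 0 z (n 0 z (n 0 z (n 0 z (n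
 0 z (n 0 z (n 0 z (n 0 z z)))))))))) (n 285 (n 0 z (n 0 z (n 0 z (n 0 z (n 0 z (n 0 z (n 0 z (n
 0 z z)))))))) (n 33 (n 0 z (n 0 z (n 0 z (n 0 z (n 0 z (n 0 z (n 0 z z))))))) (n 419 (n 0 z (n
 0 z (n 0 z (n 0 z (n 0 z (n 0 z (n 0 z (n 0 z (n 0 z (n 0 z (n 0 z (n 0 z z)))))))))))) (n 413
 (n 0 z (n 0 z (n 0 z (n 0 z (n 0 z (n 0 z (n 0 z (n 0 z (n 0 z z))))))))) (n 389 (n 0 z (n 0 z
 (n 0 z (n 0 z z)))) (n 539 (n 0 z (n 0 z (n 0 z (n 0 z (n 0 z (n 0 z (n 0 z (n 0 z (n 0 z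
 z))))))))) (n 533 (n 0 z (n 0 z (n 0 z (n 0 z (n 0 z (n 0 z (n 0 z (n 0 z (n 0 z (n 0 z (n 0 z
 z))))))))))) (n 509 (n 0 z (n 0 z (n 0 z (n 0 z (n 0 z (n 0 z (n 0 z (n 0 z (n 0 z (n 0 z (n 0
 z (n 0 z (n 0 z (n 0 z (n 0 z (n 0 z (n 0 z (n 0 z (n 0 z z))))))))))))))))))) (n 481 (n 0 z (n
 0 z (n 0 z (n 0 z (n 0 z (n 0 z (n 0 z (n 0 z (n 0 z (n 0 z (n 0 z (n 0 z (n 0 z (n 0 z (n 0 z
 (n 0 z (n 0 z (n 0 z (n 0 z (n 0 z (n 0 z (n 0 z (n 0 z (n 0 z (n 0 z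
 z))))))))))))))))))))))))) (n 657 (n 0 z (n 0 z (n 0 z (n 0 z (n 0 z (n 0 z (n 0 z z))))))) (n
 651 (n 0 z (n 0 z (n 0 z (n 0 z (n 0 z z))))) (n 99 (n 0 z (n 0 z (n 0 z (n 0 z (n 0 z z)))))
 (n 601 (n 0 z (n 0 z (n 0 z (n 0 z (n 0 z (n 0 z (n 0 z (n 0 z z)))))))) (n 600 (n 0 z (n 0 z
 (n 0 z (n 0 z (n 0 z (n 0 z (n 0 z (n 0 z (n 0 z (n 0 z (n 0 z (n 0 z (n 0 z (n 0 z (n 0 z (n 0
 z (n 0 z (n 0 z (n 0 z (n 0 z (n 0 z z))))))))))))))))))))) (n 303 (n 0 z (n 0 z (n 0 z (n 0 z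
 (n 0 z (n 0 z (n 0 z (n 0 z (n 0 z (n 0 z (n 0 z (n 0 z (n 0 z (n 0 z (n 0 z z)))))))))))))))
 (n 291 (n 0 z (n 0 z (n 0 z (n 0 z z)))) (n 9 (n 0 z (n 0 z (n 0 z z))) (n 3 (n 0 z (n 0 z (n 0
 z (n 0 z z)))) (n 1 (n 0 z (n 0 z (n 0 z (n 0 z (n 0 z (n 0 z (n 0 z (n 0 z (n 0 z (n 0 z (n 0
 z (n 0 z (n 0 z (n 0 z z)))))))))))))) (n 0 (n 0 z (n 0 z (n 0 z (n 0 z (n 0 z (n 0 z (n 0 z
 z))))))) z))))))))))))))))))))) z)))) z) z)))) (n 0x75d2c1acd311747489abc70d163a884ac8438eb80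
 (n 0 (n 153 (n 0 z (n 0 z (n 0 z (n 0 z (n 0 z (n 6496275 z (n 0 z (n 0 z (n 0 z (n 2 z (n 0 z
 z))))))))))) (n 33 (n 10 z (n 0 z (n 0 z (n 0 z (n 0 z (n 6496515 z (n 18 z (n 0 z z)))))))) (n
 9 (n 0 z (n 6496523 z (n 0 z (n
 0x2ca8c8060382255e79f7a575f8f08206a289f7e88a56e182045d65f8d585f76176082191e8617e18e17620801 z
 (n 0 z (n 0 z (n 6496515 z (n 6496515 z (n 0 z (n 0 z (n 0 z (n 0 z (n 26 z (n 6496275 z (n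
 6496275 z z))))))))))))))) (n 243 (n 0 z (n 6496523 z (n 0 z (n
 0x8ca6a208038217db79f8a15a27a57a069b86162d7237ac81789c9d59a36628de5dd8649db7267f08d76e10801 z
 (n 0 z (n 0 z (n 0 z (n 0 z (n 0 z (n 0 z (n 34 z (n 0 z (n 0 z (n
 0x2ca6a4280781f8208208208208228207e082082081f82081f82089f8207de8e07e18a08208207a08208200801 z
 (n 42 z (n 0 z (n 0 z (n
 0xca8ca82037e08208208208218df7de81e8207e08208208207e185f8218218608207e17e08208207e081f0801 z (n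
 0 z (n 0 z (n 6496515 z (n 6496515 z (n 0 z z))))))))))))))))))))))) (n 121 (n 0 z (n 0 z (n
 6558219 z (n 0 z (n 50 z (n 0 z (n 0 z (n 0 z z)))))))) (n 0 (n 58 z (n 0 z (n 2164315 z (n 0 z
 (n 0 z z))))) z)))))) (n 0 (n 0 (n 983 (n 0 z (n 0 z (n 0 z (n 0 z (n 0 z (n 2 (n 0 z (n 1 z (n
 2 (n 0 z (n 0 z (n 0 z (n 0 z (n 0 z (n 0 z z)))))) (n 2 (n 0 z (n 0 z (n 0 (n 8799515 z z) (n
 0 z (n 0 z (n 0 z z)))))) (n 2 (n 0 z (n 0 z (n 0 z (n 0 z (n 0 z (n 0 z z)))))) (n 2 (n 0 z (n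
 0 z (n 0 (n 8873267 z z) (n 0 z (n 0 z (n 0 z z)))))) z)))))) (n 0 z z))))))) (n 983 (n 0 z (n
 0 z (n 0 z (n 0 z (n 0 z (n 0 z (n 0 z z))))))) (n 369 (n 0 z (n 0 z (n 0 z (n 0 z (n 0 z (n 0
 z (n 0 z (n 0 z (n 0 z (n 0 z (n 0 z (n 0 z (n 0 z (n 0 z (n 0 z (n 0 z (n 0 z (n 0 z (n 0 z (n
 0 z (n 0 z (n 0 z (n 0 z (n 0 z (n 0 z (n 0 z (n 0 z (n 0 z (n 0 z (n 0 z (n 0 z (n 0 z
 z)))))))))))))))))))))))))))))))) (n 561 (n 2 (n 0 z (n 1 z (n 1 z z))) (n 0 z (n 0 z (n 0 z (n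
 0 z (n 0 z (n 0 z (n 0 z (n 0 z (n 0 z z)))))))))) (n 561 (n 0 z (n 0 z (n 0 z (n 0 z (n 0 z (n
 0 z (n 0 z (n 0 z (n 0 z (n 0 z z)))))))))) (n 309 (n 0 z (n 0 z (n 0 z (n 0 z (n 0 z (n 0 z (n
 0 z (n 0 z z)))))))) (n 305 (n 0 z (n 0 z (n 0 z (n 0 z (n 0 z (n 0 z (n 0 z z))))))) z)))))))
 (n 0 (n 0 z (n 471 (n 0 z (n 0 z (n 0 z (n 0 z (n 0 z (n 0 z (n 2 (n 2 (n 0 z (n 0 z (n 0 (n
 8587115 z z) (n 0 z (n 0 z (n 0 z z)))))) (n 1 z (n 1 z (n 1 z z)))) z))))))) (n 507 (n 0 z (n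
 0 z (n 0 z (n 0 z (n 0 z (n 0 z (n 0 z (n 0 z (n 0 z (n 0 z (n 0 z (n 0 z (n 0 z (n 2 (n 0 z (n
 2 (n 0 z (n 0 z (n 0 z (n 0 z (n 0 z (n 0 z z)))))) (n 2 (n 0 z (n 0 z (n 0 z (n 0 z (n 0 z (n
 0 z z)))))) z))) (n 0 z (n 0 z (n 0 z (n 0 z (n 0 z (n 0 z (n 0 z z))))))))))))))))))))) (n 507
 (n 0 z (n 0 z (n 0 z (n 0 z (n 0 z (n 0 z (n 0 z (n 0 z (n 0 z (n 0 z (n 0 z (n 0 z (n 0 z (n 0
 z (n 0 z (n 0 z (n 0 z (n 2 (n 2 (n 0 z (n 0 z (n 0 (n 8865051 z z) (n 0 z (n 0 z (n 0 z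
 z)))))) (n 2 (n 0 z (n 0 z (n 0 (n 2164859 z z) (n 0 z (n 0 z (n 0 z z)))))) z)) (n 0 z (n 0 z
 (n 0 z z))))))))))))))))))))) (n 63 (n 0 z (n 0 z (n 0 z (n 2 (n 2 (n 0 z (n 0 z (n 0 z (n 0 z
 (n 0 z (n 0 z z)))))) z) (n 0 z (n 0 z z)))))) (n 65 (n 0 z (n 2 z (n 0 z (n 0 z z)))) z))))))
 (n 0 (n 1019 (n 0 z (n 0 z (n 0 z (n 0 z (n 0 z (n 0 z (n 0 z (n 0 z (n 0 z (n 0 z (n 0 z (n 0
 z (n 0 z z))))))))))))) (n 513 (n 0 z (n 0 z (n 0 z (n 0 z (n 0 z (n 0 z (n 0 z (n 0 z (n 0 z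
 (n 0 z (n 0 z z))))))))))) (n 513 (n 0 z (n 0 z (n 0 z (n 0 z (n 0 z (n 0 z (n 0 z (n 0 z (n 0
 z (n 0 z (n 0 z z))))))))))) (n 63 (n 0 z (n 0 z (n 0 z (n 0 z (n 0 z (n 0 z (n 0 z z))))))) (n
 65 (n 0 z (n 0 z (n 0 z (n 0 z (n 0 z (n 0 z (n 0 z (n 0 z (n 0 z (n 0 z (n 0 z (n 0 z (n 0 z
 (n 0 z z)))))))))))))) z))))) (n 0 (n 1059 (n 0 z (n 0 z (n 0 z (n 0 z (n 2 (n 0 z (n 1 z (n 1
 z z))) (n 0 z (n 0 z z))))))) (n 1059 (n 0 z (n 0 z (n 0 z (n 0 z (n 0 z (n 0 z (n 0 z z)))))))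
 (n 261 (n 0 z (n 0 z (n 0 z (n 0 z (n 0 z (n 0 z (n 0 z (n 0 z (n 0 z (n 0 z (n 0 z (n 0 z (n 0
 z (n 0 z (n 0 z (n 0 z (n 0 z (n 0 z (n 0 z (n 0 z (n 0 z (n 0 z (n 0 z (n 0 z (n 0 z (n 0 z (n
 0 z (n 0 z (n 0 z (n 0 z (n 0 z (n 0 z (n 0 z (n 0 z (n 0 z (n 0 z
 z)))))))))))))))))))))))))))))))))))) (n 17 (n 0 z (n 0 z (n 0 z (n 0 z (n 0 z (n 0 z (n 0 z (n
 0 z (n 0 z (n 0 z (n 0 z z))))))))))) z)))) (n 0 (n 0 z (n 537 (n 0 z (n 0 z (n 0 z (n 0 z (n 0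
 z (n 0 z (n 0 z (n 0 z (n 0 z (n 0 z (n 0 z (n 0 z (n 0 z (n 0 z (n 0 z (n 0 z
 z)))))))))))))))) (n 485 (n 0 z (n 0 z (n 0 z (n 0 z (n 0 z (n 0 z (n 0 z (n 0 z (n 0 z (n 0 z
 (n 0 z (n 0 z z)))))))))))) z))) (n 0 (n 537 (n 0 z (n 0 z (n 0 z (n 0 z (n 0 z (n 0 z (n 0 z
 z))))))) (n 53 (n 0 z (n 0 z (n 0 z (n 0 z (n 0 z (n 0 z (n 0 z (n 0 z (n 0 z (n 0 z (n 0 z (n
 0 z z)))))))))))) z)) (n 0 (n 241 (n 0 z (n 0 z (n 0 z (n 0 z (n 0 z (n 0 z (n 0 z (n 0 z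
 z)))))))) z) (n 0 z z)))))))) (n 0 (n 1 (n 6427979 z (n 1228 z (n 1228 z (n 1228 z (n 1228 z (n
 972 z z)))))) (n 0 z (n 1 (n 2164315 z (n 2164315 z (n 2164315 z (n 6427979 z (n 2164315 z (n
 2164315 z z)))))) (n 0 z (n 0 z z))))) (n 0 z z)))) (n 0x115450a0a266c1522a8891550471ca0055500
 (n 0 (n 153 (n 2 z (n 6496275 z (n 10 z z))) (n 33 (n 18 z (n 0 z (n 6496515 z z))) (n 9 (n 26
 z (n
 0x2ca6a208077de75f7e37a28209dc89ea5d81e89a7626a181c81c7e27a18a27a08a279f8e07a28227e08600801 z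
 (n 34 z (n
 0x2ca8a8060779f75e86182186099d89f9a281e85d6a172181d81c8a17e08628208a17a08e07e07e08218200801 z
 (n 0x2ca8a826037a085e81f92089f92075d92081e8e48606a282181f89f81f79f86085e8637a28a67e47dc85e0801
 z (n 0 z (n 0 z (n 0 z (n 0 z (n 0 z (n 0 z (n 6496515 z (n 0 z (n 0 z (n 0 z (n 0 z (n 0 z (n
 0 z (n 0 z (n 0 z (n 6496523 z (n 6496523 z (n 6496515 z (n 6496515 z (n 6496515 z (n 0 z (n 0
 z (n 0 z (n 0 z z))))))))))))))))))))))))))))) (n 243 (n 0 z (n 42 z (n 0 z (n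
 0x2ca6a4080786085f8608608208de7608a481e81e85f7a28208218637e281d86081f8217a38a06dd8a379f0801 z
 (n 0 z (n 0 z (n 6496515 z (n 0 z (n 0 z (n 0 z (n 0 z (n 0 z (n 6496523 z (n 6496515 z (n
 6496515 z z))))))))))))))) (n 1 (n 50 z (n
 0x6ca8a406077a071e92189c81f8a289e7dc81e89e86076581e81c92072279f7a07e08228628e27e28636e00801 z
 (n 2164299 z (n 0 z (n 0 z (n
 0x2ca6ca640382379f85e91f95f7628208a181a81ea1d7e582581f7e786089c8dc7a071f7667a18d976791e0801 z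
 (n 0 z (n 0 z z)))))))) (n 0 (n 0 z (n 0 z (n 0 z (n 0 z (n 6619931 z (n 0 z (n 0 z (n 0 z
 z)))))))) z)))))) (n 153 (n 0 (n 0 z (n 235 (n 0 z (n 0 z (n 0 z z))) (n 231 (n 0 z (n 0 z (n 0
 z (n 0 z (n 0 z (n 0 z (n 0 z z))))))) (n 231 (n 0 z (n 0 z (n 0 z (n 0 z (n 0 z (n 0 z (n 0 z
 z))))))) (n 233 (n 0 z (n 0 z (n 0 z (n 0 z (n 0 z (n 0 z (n 0 z (n 0 z (n 0 z (n 0 z (n 0 z (n
 0 z (n 0 z (n 0 z (n 0 z (n 0 z (n 0 z (n 0 z (n 0 z (n 0 z (n 0 z (n 0 z (n 0 z (n 0 z (n 0 z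
 (n 0 z (n 0 z (n 0 z (n 0 z (n 0 z z)))))))))))))))))))))))))))))) (n 303 (n 0 z (n 0 z (n 0 z
 (n 0 z (n 0 z (n 0 z (n 0 z z))))))) z)))))) (n 0 (n 983 (n 0 z (n 0 z (n 2 (n 2 (n 0 z (n 0 z
 (n 0 (n 8868875 z z) (n 0 z (n 0 z (n 0 z z)))))) (n 2 (n 0 z (n 0 z (n 0 z (n 0 z (n 0 z (n 0
 z z)))))) (n 1 z (n 2 (n 0 z (n 0 z (n 0 (n 8872995 z z) (n 0 z (n 0 z (n 0 z z)))))) z)))) (n
 0 z z)))) (n 155 (n 0 z (n 0 z (n 0 z (n 0 z (n 0 z (n 0 z (n 0 z (n 0 z (n 0 z (n 0 z (n 0 z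
 (n 0 z (n 0 z (n 0 z (n 0 z (n 0 z (n 0 z (n 0 z (n 0 z (n 0 z (n 0 z (n 0 z (n 0 z (n 0 z (n 0
 z (n 0 z (n 0 z (n 0 z (n 2 (n 0 z (n 1 z (n 2 (n 0 z (n 0 z (n 0 (n 3213435 z z) (n 0 z (n 0 z
 (n 0 z z)))))) z))) (n 0 z (n 0 z z))))))))))))))))))))))))))))))) (n 155 (n 0 z (n 0 z (n 0 z
 (n 0 z (n 0 z (n 0 z (n 0 z (n 0 z (n 0 z (n 0 z (n 0 z (n 0 z (n 0 z (n 0 z (n 0 z (n 0 z (n 2
 (n 2 (n 0 z (n 0 z (n 0 z (n 0 z (n 0 z (n 0 z z)))))) (n 2 (n 0 z (n 0 z (n 0 z (n 0 z (n 0 z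
 (n 0 z z)))))) z)) (n 0 z (n 0 z (n 0 z (n 0 z (n 0 z (n 0 z (n 0 z (n 0 z (n 0 z (n 0 z (n 0 z
 (n 0 z (n 0 z (n 0 z z))))))))))))))))))))))))))))))) (n 159 (n 2 (n 1 z z) (n 0 z (n 0 z (n 0
 z (n 0 z (n 0 z (n 0 z z))))))) (n 303 (n 2 z (n 0 z (n 0 z (n 0 z (n 0 z (n 0 z (n 0 z (n 0 z
 z)))))))) z))))) (n 0 (n 443 (n 0 z (n 0 z (n 0 z (n 0 z (n 0 z (n 0 z (n 0 z (n 0 z (n 0 z (n
 0 z z)))))))))) (n 443 (n 0 z (n 0 z (n 0 z (n 0 z (n 0 z (n 0 z (n 2 (n 1 z (n 1 z z)) (n 0 z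
 (n 0 z (n 0 z z)))))))))) (n 487 (n 0 z (n 0 z (n 0 z (n 0 z (n 0 z (n 0 z (n 0 z (n 0 z (n 0 z
 (n 0 z (n 0 z (n 0 z (n 0 z (n 0 z (n 0 z (n 0 z (n 0 z (n 0 z z)))))))))))))))))) (n 63 (n 0 z
 (n 0 z (n 0 z (n 0 z (n 0 z (n 0 z (n 0 z (n 0 z (n 0 z (n 0 z (n 0 z (n 0 z (n 0 z (n 0 z
 z)))))))))))))) z)))) (n 0 (n 0 z (n 681 (n 0 z (n 0 z (n 0 z (n 0 z (n 0 z (n 0 z (n 0 z
 z))))))) (n 15 (n 0 z (n 0 z (n 0 z (n 0 z (n 0 z (n 0 z (n 0 z (n 0 z (n 0 z (n 0 z (n 0 z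
 z))))))))))) z))) (n 0 (n 681 (n 0 z (n 0 z (n 0 z (n 0 z (n 0 z (n 0 z (n 0 z (n 0 z (n 0 z (n
 0 z (n 0 z (n 2 (n 1 z z) (n 0 z z))))))))))))) (n 99 (n 0 z (n 0 z (n 0 z (n 0 z (n 0 z (n 0 z
 (n 0 z (n 0 z (n 0 z (n 0 z (n 0 z z))))))))))) z)) (n 0 (n 51 (n 0 z (n 0 z (n 0 z (n 0 z (n 0
 z (n 0 z (n 0 z (n 0 z (n 0 z (n 0 z (n 0 z (n 0 z z)))))))))))) z) (n 0 z z))))))) (n 0 (n 1
 (n 6496515 z (n 4 z (n 268 z (n 6496523 z (n 268 z (n 268 z z)))))) (n 1 (n 6496515 z (n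
 6496275 z (n 6496275 z (n 6496275 z (n 6496275 z (n 6496275 z z)))))) (n 1 (n 6496515 z (n 268
 z (n 268 z (n 6496523 z (n 268 z (n 268 z z)))))) z))) (n 0 z z)))) (n
 0xb8b3510c972e0ca45025229826c44128a640 (n 0 (n 177 (n 0 z (n 0 z (n 2 z (n 0 z (n 6492227 z (n
 0 z z)))))) (n 581 (n 10 z (n 6492227 z (n 18 z (n 0 z z)))) (n 129 (n 0 z (n 26 z (n 0 z (n 34
 z (n 0 z (n 3212843 z z)))))) (n 3 (n 0 z (n 42 z (n 0 z (n 0 z (n 0 z (n 6636291 z (n 0 z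
 z))))))) (n 1 (n 0 z (n 6636291 z (n 0 z (n 0 z (n 0 z z))))) (n 0 (n 0 z (n 6636291 z (n
 6636291 z (n 50 z z)))) z)))))) (n 581 (n 0 (n 1007 (n 0 z (n 0 z (n 0 z (n 0 z z)))) (n 1007
 (n 0 z (n 0 z (n 0 z (n 0 z z)))) (n 259 (n 0 z (n 0 z (n 0 z (n 0 z (n 0 z (n 0 z (n 0 z (n 0
 z (n 0 z (n 0 z (n 0 z (n 0 z (n 0 z (n 0 z (n 0 z (n 0 z (n 0 z z))))))))))))))))) (n 259 (n 0
 z (n 0 z (n 0 z (n 0 z (n 0 z (n 0 z (n 0 z (n 0 z (n 0 z (n 0 z (n 0 z (n 0 z (n 0 z (n 0 z (n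
 0 z (n 0 z (n 0 z z))))))))))))))))) (n 997 (n 0 z (n 0 z (n 0 z (n 0 z (n 0 z (n 0 z z))))))
 (n 253 (n 0 z (n 0 z (n 0 z (n 0 z (n 0 z (n 0 z z)))))) z)))))) (n 0 (n 0 z (n 259 (n 0 z (n
 7741699 z (n 0 z (n 0 z (n 0 z (n 0 z z)))))) (n 259 (n 0 z (n 0 z (n 0 z (n 0 z (n 0 z (n 0 z
 z)))))) (n 7 (n 7741699 z (n 0 z (n 0 z (n 0 z (n 0 z (n 0 z z)))))) (n 241 (n 0 z (n 0 z (n 0
 z (n 0 z (n 0 z (n 0 z (n 0 z (n 0 z (n 0 z (n 0 z (n 0 z (n 0 z (n 0 z (n 0 z (n 7741699 z (n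
 0 z (n 0 z (n 0 z z)))))))))))))))))) z))))) (n 0 (n 1047 (n 0 z (n 0 z (n 0 z z))) (n 1047 (n
 0 z (n 0 z (n 0 z z))) (n 1045 (n 0 z (n 0 z (n 0 z (n 0 z (n 0 z z))))) (n 269 (n 0 z (n 0 z
 (n 0 z (n 0 z (n 0 z (n 0 z z)))))) z)))) (n 0 (n 0 z (n 487 (n 0 z (n 0 z (n 0 z (n 0 z (n 0 z
 (n 0 z (n 0 z (n 0 z (n 0 z (n 0 z (n 0 z (n 0 z z)))))))))))) (n 289 (n 0 z (n 0 z (n 0 z (n 0
 z (n 0 z (n 0 z (n 0 z (n 0 z (n 0 z (n 0 z (n 0 z (n 0 z (n 0 z (n 0 z (n 0 z (n 0 z (n 0 z (n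
 0 z (n 0 z (n 0 z (n 0 z (n 0 z (n 0 z (n 0 z (n 0 z (n 0 z (n 0 z (n 0 z (n 0 z (n 0 z (n 0 z
 z))))))))))))))))))))))))))))))) z))) (n 0 (n 7 (n 0 z (n 0 z (n 0 z (n 0 z (n 0 z z))))) (n
 253 (n 0 z (n 0 z (n 0 z (n 0 z (n 0 z z))))) z)) (n 0 (n 13 (n 0 z (n 0 z (n 0 z (n 0 z (n 0 z
 (n 0 z (n 0 z (n 0 z (n 0 z (n 0 z z)))))))))) z) (n 0 z z))))))) (n 0 (n 1 (n 1420 z (n 1420 z
 (n 1420 z (n 1420 z (n 1420 z (n 1420 z z)))))) (n 1 (n 6492227 z (n 6492227 z (n 6492227 z (n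
 6492227 z (n 6492227 z (n 6492227 z z)))))) (n 1 (n 12 z (n 1420 z (n 1420 z (n 1420 z (n 1420
 z (n 1420 z z)))))) (n 0 z z)))) (n 0 z z)))) (n 0xebae83947585ab84575c6428d974568bac325d740 (n
 0 (n 279 (n 2 z (n 6557731 z z)) (n 33 (n 0 z (n 10 z (n 0 z (n 0 z (n 0 z (n 0 z (n 0 z (n
 6496515 z (n 0 z (n 0 z z)))))))))) (n 9 (n 18 z (n 0 z (n 0 z (n 6496515 z z)))) (n 243 (n
 6496515 z (n 0 z (n 26 z (n 6496515 z z)))) (n 1 (n 0 z (n 34 z (n 42 z (n 6557731 z z)))) (n 0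
 (n 50 z (n 0 z (n 0 z (n 0 z (n 0 z (n 58 z (n 0 z (n 0 z (n 0 z (n 6619947 z z))))))))))
 z)))))) (n 279 (n 0 (n 631 (n 0 z (n 0 z (n 0 z (n 0 z (n 0 z (n 0 z (n 0 z z))))))) (n 237 (n
 0 z (n 0 z (n 0 z (n 0 z (n 0 z (n 0 z (n 0 z (n 0 z z)))))))) (n 639 (n 0 z (n 0 z (n 0 z (n 0
 z (n 0 z (n 0 z (n 0 z (n 0 z (n 0 z (n 0 z (n 0 z (n 0 z (n 0 z z))))))))))))) (n 303 (n 0 z
 (n 0 z (n 0 z z))) (n 303 (n 0 z (n 0 z (n 0 z z))) (n 557 (n 0 z (n 0 z (n 0 z (n 0 z (n 0 z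
 (n 0 z (n 0 z (n 0 z (n 0 z z))))))))) (n 557 (n 0 z (n 0 z (n 0 z (n 0 z (n 0 z (n 0 z (n 0 z
 (n 0 z (n 0 z z))))))))) z))))))) (n 0 (n 443 (n 0 z (n 0 z (n 0 z (n 0 z (n 0 z (n 0 z (n 0 z
 z))))))) (n 507 (n 0 z (n 0 z (n 0 z (n 0 z (n 0 z (n 0 z z)))))) (n 63 (n 0 z (n 0 z (n 0 z (n
 0 z (n 0 z z))))) (n 63 (n 0 z (n 7754755 z (n 0 z (n 0 z (n 0 z z))))) (n 509 (n 0 z (n 0 z (n
 0 z (n 0 z (n 0 z z))))) (n 509 (n 0 z (n 0 z (n 0 z (n 0 z (n 0 z z))))) z)))))) (n 0 (n 27 (n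
 0 z (n 0 z (n 0 z (n 0 z (n 0 z (n 0 z (n 0 z (n 0 z (n 0 z (n 0 z (n 0 z (n 0 z (n 0 z (n 0 z
 (n 0 z (n 0 z (n 0 z (n 0 z (n 0 z (n 0 z z)))))))))))))))))))) (n 105 (n 0 z (n 0 z (n 0 z (n
 0 z (n 0 z (n 0 z (n 0 z (n 0 z z)))))))) (n 105 (n 0 z (n 0 z (n 0 z (n 0 z (n 0 z (n 0 z (n 0
 z (n 0 z z)))))))) (n 17 (n 0 z (n 0 z (n 0 z (n 0 z (n 0 z (n 0 z z)))))) (n 17 (n 0 z (n 0 z
 (n 0 z (n 0 z (n 0 z (n 0 z z)))))) z))))) (n 0 (n 483 (n 0 z (n 0 z (n 0 z (n 0 z (n 0 z (n 0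
 z (n 0 z (n 0 z (n 0 z (n 0 z (n 0 z (n 0 z (n 0 z (n 0 z (n 0 z (n 0 z (n 0 z (n 0 z
 z)))))))))))))))))) (n 483 (n 0 z (n 0 z (n 0 z (n 0 z (n 0 z (n 0 z (n 0 z (n 0 z (n 0 z (n 0
 z (n 0 z (n 0 z (n 0 z (n 0 z (n 0 z (n 0 z (n 0 z (n 0 z z)))))))))))))))))) (n 485 (n 0 z (n
 0 z (n 0 z (n 0 z (n 0 z (n 0 z (n 0 z (n 0 z (n 0 z (n 0 z (n 0 z (n 0 z z)))))))))))) (n 485
 (n 0 z (n 0 z (n 0 z (n 0 z (n 0 z (n 0 z (n 0 z (n 0 z (n 0 z (n 0 z (n 0 z (n 0 z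
 z)))))))))))) z)))) (n 0 (n 0 z (n 1 (n 0 z (n 0 z (n 0 z z))) (n 1 (n 0 z (n 0 z (n 0 z z)))
 z))) (n 0 (n 1 (n 0 z (n 0 z (n 0 z (n 0 z (n 0 z (n 0 z (n 0 z (n 0 z (n 0 z (n 0 z (n 0 z (n
 0 z z)))))))))))) (n 1 (n 0 z (n 0 z (n 0 z (n 0 z (n 0 z (n 0 z (n 0 z (n 7754755 z (n 0 z (n
 0 z (n 0 z (n 0 z z)))))))))))) z)) (n 0 (n 0 z z) (n 0 z z)))))))) (n 0 (n 1 (n 6496515 z (n
 268 z (n 1948 z (n 268 z (n 6562059 z (n 268 z z)))))) (n 1 (n 6496515 z (n 6557731 z (n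
 6557731 z (n 6557731 z (n 6557731 z (n 6557731 z z)))))) z)) (n 0 z z)))) z)))))))))),
 by decide +kernel⟩
theorem i10516 : ∃ t, chkR KT RW t 10516 10526 = true := ⟨(n
 0x1ad4b84cec61dce30a27085ab8c889b38c08c2e88719980ca880 (n 0 (n 201 (n 0 z (n 0 z (n 6561811 z
 (n 2 z (n 0 z (n 0 z (n 10 z (n 0 z z)))))))) (n 59 (n 6496515 z (n 18 z (n 0 z (n 6496515 z (n
 26 z z))))) (n 9 (n
 0x2ca8ca800380807f7e847e81808280808080807f8080808080817f7f80808082807f8080808080808180807f808080807f8080808081800809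
 z (n
 0x59494c100604ca8c8600789987871a06c8a6a90796c7f7b9155948978668c7090897988a78493717795777f79758879837d828d7f8a7a92758577797f1009
 z (n 0 z (n
 0x2ca6ca080380827f818080807f7f81808080808080808080808080808080808080808080808080808080808081808080808080808180810809
 z (n 0 z (n 0 z (n 0 z (n 0 z (n
 0x19494c10060cca8c860078973848e7882798977818586767d76808585847b807a79857978887c897e7b847d7f817e838382847a817e7f7b807f8484801009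
 z (n 0 z (n 6496515 z (n 0 z (n 0 z (n 0 z z)))))))))))))) (n 123 (n 6496515 z (n 0 z (n 34 z
 (n 0 z z)))) (n 1 (n 0 z (n 42 z (n 50 z (n 58 z (n 6554411 z (n 6561811 z (n 66 z z))))))) (n
 0 (n 74 z (n 0 z (n 0 z (n 0 z (n 0 z (n 0 z (n 0 z (n 0 z (n 0 z (n 0 z (n 0 z (n 0 z (n
 0x2c86c8640381807e8081808080808081817f7f8080807f807d7f817f807f80818080817f8182807f818081808181817f7f7f80808180800809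
 z (n 2164315 z (n 0 z (n 0 z (n
 0x8c86c864037f927b758f7b89758b79787e7d8678867c7c7d7f7887888181917f897884867a82797b85777d7b80857b7c79857d858487840809
 z (n 0 z (n 0 z (n 0 z (n 0 z (n 0 z (n 0 z (n 0 z (n 0 z (n 0 z (n 0 z (n 0 z (n 0 z (n 0 z (n
 0 z z))))))))))))))))))))))))))))))) z)))))) (n 123 (n 0 (n 0 z (n 923 (n 0 z (n 0 z (n 0 z (n
 0 z (n 0 z (n 0 z (n 0 z z))))))) (n 923 (n 0 z (n 0 z (n 0 z (n 0 z (n 0 z (n 2 (n 1 z (n 1 z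
 (n 1 z (n 1 z (n 1 z (n 1 z z)))))) (n 0 z z))))))) (n 1011 (n 0 z (n 0 z (n 0 z (n 0 z (n 0 z
 (n 0 z z)))))) (n 913 (n 0 z (n 0 z (n 0 z (n 0 z (n 0 z (n 0 z (n 0 z (n 0 z (n 0 z (n 0 z (n
 0 z (n 0 z (n 0 z (n 0 z (n 0 z (n 0 z (n 0 z (n 0 z (n 0 z (n 0 z (n 0 z
 z))))))))))))))))))))) (n 913 (n 0 z (n 0 z (n 0 z (n 0 z (n 0 z (n 0 z (n 0 z (n 0 z (n 0 z (n
 0 z (n 0 z (n 0 z (n 0 z (n 0 z (n 0 z (n 0 z (n 0 z (n 0 z (n 0 z (n 0 z (n 0 z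
 z))))))))))))))))))))) (n 913 (n 0 z (n 0 z (n 0 z (n 0 z (n 0 z (n 0 z (n 0 z (n 0 z (n 0 z (n
 0 z (n 0 z (n 0 z (n 0 z (n 0 z (n 0 z (n 0 z (n 0 z (n 0 z (n 0 z (n 0 z (n 0 z
 z))))))))))))))))))))) (n 913 (n 0 z (n 0 z (n 0 z (n 0 z (n 0 z (n 0 z (n 0 z (n 0 z (n 0 z (n
 0 z (n 0 z (n 0 z (n 0 z (n 0 z (n 0 z (n 0 z (n 0 z (n 0 z (n 2 (n 1 z z) (n 0 z (n 0 z
 z))))))))))))))))))))) (n 1009 (n 0 z (n 0 z (n 0 z (n 0 z (n 0 z (n 0 z (n 0 z (n 0 z (n 0 z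
 (n 0 z (n 0 z (n 0 z (n 0 z (n 0 z (n 0 z (n 0 z (n 0 z (n 0 z (n 0 z (n 0 z (n 0 z (n 0 z (n 0
 z (n 0 z (n 0 z (n 0 z (n 0 z (n 0 z (n 0 z (n 0 z (n 0 z (n 0 z (n 0 z (n 0 z (n 0 z (n 0 z (n
 0 z (n 0 z (n 0 z (n 0 z (n 0 z (n 0 z (n 0 z (n 0 z (n 0 z (n 0 z
 z)))))))))))))))))))))))))))))))))))))))))))))) z))))))))) (n 0 (n 991 (n 0 z (n 0 z (n 0 z (n
 0 z (n 0 z (n 0 z (n 0 z (n 0 z (n 0 z (n 0 z (n 0 z (n 0 z (n 0 z z))))))))))))) (n 991 (n 0 z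
 (n 0 z (n 0 z (n 0 z (n 0 z (n 0 z (n 0 z (n 0 z (n 0 z (n 0 z (n 0 z (n 0 z (n 0 z
 z))))))))))))) (n 399 (n 0 z (n 0 z (n 0 z (n 2 (n 1 z (n 1 z (n 1 z (n 1 z (n 1 z z))))) (n 0
 z z))))) (n 303 (n 0 z (n 0 z (n 0 z (n 0 z (n 0 z (n 0 z (n 0 z (n 0 z z)))))))) (n 303 (n 0 z
 (n 0 z (n 0 z (n 2 (n 0 z (n 0 z (n 1 z z))) (n 0 z (n 0 z (n 0 z (n 0 z z)))))))) (n 303 (n 0
 z (n 0 z (n 0 z (n 0 z (n 0 z (n 0 z (n 0 z (n 0 z z)))))))) (n 303 (n 0 z (n 0 z (n 0 z (n 0 z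
 (n 0 z (n 0 z (n 0 z (n 0 z z)))))))) (n 401 (n 0 z (n 0 z (n 0 z (n 0 z (n 0 z (n 0 z z))))))
 z)))))))) (n 0 (n 0 z (n 81 (n 0 z (n 0 z (n 0 z (n 0 z (n 0 z (n 0 z (n 0 z z))))))) (n 761 (n
 0 z (n 0 z (n 0 z (n 0 z (n 0 z (n 0 z (n 0 z (n 0 z (n 0 z (n 0 z z)))))))))) (n 761 (n 0 z (n
 0 z (n 0 z (n 0 z (n 0 z (n 0 z (n 0 z (n 0 z (n 0 z (n 0 z z)))))))))) (n 761 (n 0 z (n 0 z (n
 0 z (n 0 z (n 0 z (n 0 z (n 0 z (n 0 z (n 0 z (n 0 z z)))))))))) (n 761 (n 0 z (n 0 z (n 0 z (n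
 0 z (n 0 z (n 0 z (n 0 z (n 0 z (n 0 z (n 0 z z)))))))))) (n 113 (n 0 z (n 0 z (n 0 z (n 0 z (n
 0 z (n 0 z z)))))) z))))))) (n 0 (n 435 (n 2 (n 1 z (n 1 z (n 1 z (n 1 z (n 1 z z))))) (n 0 z
 (n 0 z (n 0 z (n 0 z (n 0 z z)))))) (n 805 (n 0 z (n 0 z (n 0 z (n 0 z (n 0 z (n 0 z (n 0 z
 z))))))) (n 805 (n 0 z (n 0 z (n 0 z (n 0 z (n 2 (n 0 z (n 0 z (n 1 z z))) (n 0 z (n 0 z
 z))))))) (n 805 (n 0 z (n 0 z (n 0 z (n 0 z (n 0 z (n 2 (n 0 z (n 1 z z)) (n 0 z z))))))) (n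
 805 (n 0 z (n 0 z (n 0 z (n 0 z (n 0 z (n 0 z (n 0 z z))))))) (n 721 (n 0 z (n 0 z (n 0 z (n 0
 z z)))) z)))))) (n 0 (n 243 (n 0 z (n 0 z (n 0 z (n 0 z (n 7754755 z (n 0 z (n 0 z (n 0 z (n 0
 z (n 0 z (n 0 z (n 0 z (n 0 z (n 0 z (n 0 z (n 0 z (n 0 z (n 0 z z)))))))))))))))))) (n 243 (n
 0 z (n 0 z (n 0 z (n 0 z (n 0 z (n 0 z (n 0 z (n 0 z (n 0 z (n 0 z (n 0 z (n 0 z (n 0 z (n 0 z
 (n 0 z (n 0 z (n 0 z (n 0 z z)))))))))))))))))) (n 243 (n 0 z (n 0 z (n 0 z (n 0 z (n 0 z (n 0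
 z (n 0 z (n 0 z (n 0 z (n 0 z (n 0 z (n 0 z (n 0 z (n 0 z (n 0 z (n 0 z (n 0 z (n 0 z
 z)))))))))))))))))) (n 243 (n 0 z (n 0 z (n 0 z (n 0 z (n 0 z (n 0 z (n 0 z (n 0 z (n 0 z (n 0
 z (n 0 z (n 0 z (n 0 z (n 0 z (n 0 z (n 2 (n 1 z z) (n 0 z (n 0 z z)))))))))))))))))) (n 245 (n
 0 z (n 0 z (n 0 z (n 0 z (n 0 z (n 0 z (n 0 z (n 0 z (n 0 z (n 0 z (n 0 z (n 0 z z))))))))))))
 z))))) (n 0 (n 0 z (n 0 z (n 0 z (n 1 (n 0 z (n 0 z (n 0 z (n 0 z (n 0 z (n 0 z (n 0 z (n 0 z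
 (n 0 z (n 0 z (n 0 z (n 0 z z)))))))))))) z)))) (n 0 (n 0 z (n 0 z (n 1 (n 0 z (n 0 z (n 0 z (n
 0 z (n 0 z (n 0 z (n 0 z (n 0 z (n 0 z (n 0 z (n 0 z (n 0 z (n 0 z (n 0 z (n 0 z (n 0 z (n 0 z
 (n 0 z (n 0 z (n 0 z (n 0 z (n 0 z (n 0 z (n 0 z (n 0 z (n 0 z (n 0 z (n 0 z (n 0 z (n 0 z (n 0
 z (n 0 z (n 0 z (n 0 z (n 0 z (n 0 z (n 0 z (n 0 z (n 0 z (n 0 z (n 0 z (n 0 z (n 0 z (n 0 z (n
 0 z (n 0 z (n 0 z (n 0 z (n 0 z (n 0 z (n 0 z (n 0 z (n 0 z (n 0 z (n 0 z (n 0 z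
 z)))))))))))))))))))))))))))))))))))))))))))))))))))))))) z))) (n 0 (n 0 z (n 1 (n 0 z (n 0 z
 (n 0 z (n 0 z (n 0 z z))))) z)) (n 0 (n 1 (n 0 z (n 0 z (n 0 z (n 0 z (n 0 z z))))) z) (n 0 z
 z)))))))))) (n 0 (n 1 (n 6496515 z (n 6496515 z (n 6496515 z (n 6496515 z (n 6496515 z (n
 6496515 z z)))))) (n 0 z (n 1 (n 1612 z (n 476 z (n 1612 z (n 6554411 z (n 1612 z (n 1612 z
 z)))))) (n 0 z z)))) (n 0 z z)))) (n 0x6c8ba1dce5a314e52356cc133749c19a4ea04251013328062980 (n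
 0 (n 441 (n 2 z (n 10 z (n 6496339 z (n 18 z (n 26 z (n 6488603 z z)))))) (n 375 (n 0 z (n 0 z
 (n 6496515 z (n 34 z z)))) (n 373 (n 0 z (n 0 z (n 0 z (n 0 z (n 0 z (n 6496515 z (n 0 z (n 0 z
 (n 0 z (n 0 z z)))))))))) (n 3 (n 42 z (n 6496515 z (n 50 z (n 0 z (n 0 z z))))) (n 25 (n 0 z
 (n 0 z (n 0 z (n 0 z (n 0 z (n 0 z (n 0 z (n 0 z (n 58 z (n 0 z (n 0 z (n 2164299 z (n 0 z (n 0
 z (n 0 z (n 0 z z)))))))))))))))) (n 0 (n 0 z (n 66 z (n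
 0x10c84c8420383817d7d8b8081808982807f807c9280658285887f87757b72887a809a757b83778476867e8c7f7a767d88837e80857888800809
 z (n 0 z (n 6627635 z (n 0 z (n
 0x38ca88402037c8581888c8b8a72759b7c7f828e7f777b7697a77c696d8c5d8468899d80805580727f846b79a358806d848f827185809d8c0809
 z (n 0 z (n 6627635 z (n
 0x8c86c862037f8579748a7f90768682867f7e7e827c867d7f6f87738a857a7f7f827f828288847883808787787e77827f7f7d808083897f0809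
 z (n
 0x12c86c8620378857f84857e977d83889080747a9c6b8f747d74796d7c9c82837490818191897f6483847b72677b6bab7f7d7b748e8876830809
 z (n 74 z z)))))))))))) z)))))) (n 375 (n 0 (n 0 z (n 0 z (n 0 z (n 223 (n 0 z (n 0 z (n 2 (n 1
 z (n 1 z (n 1 z (n 1 z (n 1 z z))))) (n 0 z (n 0 z (n 0 z (n 0 z (n 0 z (n 0 z z))))))))) (n
 321 (n 0 z (n 0 z (n 0 z (n 0 z (n 0 z (n 0 z (n 0 z (n 0 z (n 0 z (n 0 z (n 0 z (n 0 z (n 0 z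
 (n 0 z (n 0 z (n 0 z (n 0 z (n 0 z (n 0 z (n 0 z (n 0 z (n 0 z z)))))))))))))))))))))) (n 321
 (n 0 z (n 0 z (n 0 z (n 0 z (n 0 z (n 0 z (n 0 z (n 0 z (n 0 z (n 0 z (n 0 z (n 0 z (n 0 z (n 0
 z (n 0 z (n 0 z (n 0 z (n 0 z (n 2 (n 1 z (n 1 z (n 1 z z))) (n 0 z (n 0 z (n 0 z
 z)))))))))))))))))))))) (n 221 (n 0 z (n 0 z (n 0 z (n 0 z (n 0 z (n 0 z (n 0 z (n 0 z (n 0 z
 (n 0 z (n 0 z (n 0 z (n 0 z z))))))))))))) (n 865 (n 0 z (n 0 z (n 0 z z))) (n 865 (n 0 z (n 0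
 z (n 0 z z))) z))))))))) (n 0 (n 0 z (n 0 z (n 755 (n 0 z (n 0 z (n 0 z (n 7749683 z z)))) (n
 321 (n 0 z (n 0 z (n 0 z (n 0 z (n 0 z z))))) (n 321 (n 0 z (n 0 z (n 0 z (n 0 z (n 0 z z)))))
 (n 137 (n 0 z (n 0 z (n 0 z (n 0 z (n 0 z (n 0 z z)))))) (n 865 (n 0 z (n 0 z (n 0 z (n 0 z (n
 0 z z))))) (n 865 (n 0 z (n 0 z (n 0 z (n 0 z (n 0 z z))))) z)))))))) (n 0 (n 0 z (n 127 (n 0 z
 (n 0 z (n 0 z (n 0 z (n 0 z (n 0 z (n 0 z (n 0 z (n 0 z (n 0 z (n 0 z (n 0 z (n 0 z (n 0 z (n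
 7749683 z (n 0 z (n 0 z (n 0 z z)))))))))))))))))) (n 247 (n 0 z (n 0 z (n 0 z (n 0 z (n 0 z (n
 0 z z)))))) (n 247 (n 0 z (n 0 z (n 0 z (n 0 z (n 0 z (n 0 z z)))))) (n 243 (n 0 z (n 0 z (n 0
 z (n 0 z (n 0 z (n 0 z (n 0 z (n 0 z (n 0 z z))))))))) (n 121 (n 0 z (n 0 z (n 0 z (n 0 z (n 0
 z (n 0 z (n 0 z (n 0 z (n 2 (n 0 z z) (n 0 z (n 0 z (n 0 z z)))))))))))) (n 121 (n 0 z (n 0 z
 (n 0 z (n 0 z (n 0 z (n 0 z (n 0 z (n 0 z (n 0 z (n 0 z (n 0 z (n 0 z z)))))))))))) z))))))) (n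
 0 (n 871 (n 0 z (n 0 z (n 0 z (n 0 z (n 0 z (n 0 z (n 0 z (n 0 z (n 0 z (n 0 z (n 0 z (n 0 z (n
 0 z (n 0 z (n 0 z (n 0 z (n 0 z (n 0 z (n 0 z (n 0 z z)))))))))))))))))))) (n 321 (n 0 z (n 0 z
 (n 0 z (n 0 z (n 0 z (n 0 z (n 0 z (n 2 (n 0 z (n 1 z (n 1 z (n 1 z z)))) (n 0 z (n 0 z (n 0 z
 (n 0 z z)))))))))))) (n 321 (n 0 z (n 0 z (n 0 z (n 0 z (n 0 z (n 0 z (n 0 z (n 0 z (n 0 z (n 0
 z (n 0 z (n 0 z z)))))))))))) (n 549 (n 0 z (n 0 z (n 0 z (n 0 z (n 0 z (n 0 z (n 0 z z)))))))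
 (n 865 (n 0 z (n 0 z (n 0 z (n 0 z (n 0 z (n 0 z (n 0 z (n 2 (n 0 z z) z)))))))) (n 865 (n 0 z
 (n 0 z (n 0 z (n 0 z (n 0 z (n 0 z (n 0 z (n 0 z z)))))))) z)))))) (n 0 (n 1011 (n 2 (n 0 z (n
 1 z (n 1 z (n 1 z z)))) (n 0 z (n 0 z (n 0 z (n 0 z (n 0 z z)))))) (n 1011 (n 0 z (n 0 z (n 0 z
 (n 0 z (n 0 z (n 0 z z)))))) (n 111 (n 0 z (n 0 z (n 0 z (n 0 z (n 0 z z))))) (n 877 (n 0 z (n
 0 z (n 0 z (n 0 z (n 0 z (n 0 z (n 2 (n 0 z z) z))))))) (n 877 (n 0 z (n 0 z (n 0 z (n 0 z (n 0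
 z (n 0 z (n 0 z z))))))) z))))) (n 0 (n 0 z (n 57 (n 0 z (n 0 z (n 0 z (n 0 z (n 0 z (n 0 z (n
 0 z (n 0 z z)))))))) (n 5 (n 0 z (n 0 z (n 0 z (n 0 z (n 0 z (n 0 z (n 0 z (n 0 z (n 0 z (n 0 z
 (n 0 z (n 0 z (n 0 z (n 0 z z)))))))))))))) (n 5 (n 0 z (n 0 z (n 0 z (n 0 z (n 0 z (n 0 z (n 0
 z (n 0 z (n 0 z (n 0 z (n 0 z (n 0 z (n 0 z (n 0 z z)))))))))))))) z)))) (n 0 (n 57 (n 0 z (n 0
 z (n 0 z (n 0 z (n 0 z (n 0 z (n 0 z z))))))) (n 5 (n 0 z (n 0 z (n 0 z (n 0 z (n 0 z (n 2 (n 0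
 z z) (n 0 z z))))))) (n 5 (n 0 z (n 0 z (n 0 z (n 0 z (n 0 z (n 0 z (n 0 z z))))))) z))) (n 0
 (n 533 (n 0 z (n 0 z (n 0 z (n 0 z (n 0 z (n 0 z (n 0 z (n 0 z (n 0 z (n 0 z z)))))))))) (n 533
 (n 0 z (n 0 z (n 0 z (n 0 z (n 0 z (n 0 z (n 0 z (n 0 z (n 0 z (n 0 z z)))))))))) z)) (n 0 (n 0
 z z) (n 0 z z)))))))))) (n 0 (n 0 z (n 0 z (n 1 (n 6496515 z (n 6496515 z (n 6496515 z (n
 6496515 z (n 6496515 z (n 6496515 z z)))))) (n 1 (n 3532 z (n 3532 z (n 3532 z (n 3532 z (n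
 2988 z (n 6488603 z z)))))) z)))) (n 0 z z)))) (n
 0x15828bad904d86865ccc52e5d4026a60594b0237a015b280 (n 0 (n 591 (n
 0x246437b7c757b7a7e817c80848384837d8277818785857f7e867c837a7c8578798b7e7d84807b818081827e87828683858179817e0049
 z (n 6426691 z (n
 0x4c86c86403808180807c807f817f817f8080818280818081808080808080807f7f7e7f7f7f8081817f808080808081818080808180817f0809
 z (n
 0x594d0c480e00ca4ca4203848e75807f83837a81817e85848682888177807f7c7f7f82807d7b817c7c85837a82817c7e7f80807f857f848080837e837c1009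
 z (n 0 z (n
 0x246317b7c757b7a7e817c80848384837d8277818785857f7e867c837a7c8578798b7e7d84807b818081827e87828683858179817e0049
 z (n 0 z (n 6426691 z (n 0 z (n 0 z (n 0 z (n 2 z (n 0 z (n 0 z (n 0 z (n 10 z (n 0 z (n 0 z (n
 6426691 z (n 0 z (n 6554139 z (n 18 z (n 26 z (n 34 z (n 0 z (n 0 z (n 0 z (n 0 z (n
 0x2c64c82a07808180807e81817f7f8180818083808181808081807f8180807e7f7f7e7f807f7f80817f80807f808080808281818080817f0809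
 z (n 6426691 z (n 0 z (n 0 z (n 0 z (n 0 z (n 0 z (n 0 z (n 0 z (n 0 z (n 0 z (n 0 z (n 0 z (n
 0 z (n 0 z (n 0 z (n 6554139 z (n 0 z z)))))))))))))))))))))))))))))))))))))))))))))) (n 39 (n
 6426691 z (n 6426691 z (n 0 z (n 6426691 z (n 0 z (n 42 z (n 6426691 z (n
 0x39951950c0e1ac86c8600391b54c84a18396598d717e998e8f6fa271657f826d757f7b79756e7f7171a68f66888473747a878679917a9b7f91876d897a1009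
 z (n 50 z (n 58 z (n
 0xcc86c8600389a264838783877288827e8c8a8d80a27f64817c707f7e837e807382777c898b728581797a8180817a8b7b887d7b837d86790809
 z z))))))))))) (n 129 (n 6426691 z (n 6426691 z (n 0 z (n 0 z (n 0 z z))))) (n 27 (n 0 z (n 0 z
 (n 0 z (n 0 z (n 0 z (n 2164283 z (n 66 z (n 0 z (n 0 z (n 0 z (n 0 z z))))))))))) (n 1 (n
 6635787 z (n 6554139 z (n 0 z (n 0 z (n
 0x1485900c0e00ca6c624030064353120380329a88100c019498c840600c84a642078081807f808080808080808080827f818180818080808080807f807f7f8080808080807f808080808080808080808080807f3009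
 z (n 0 z (n 0 z z))))))) (n 0 (n 6635787 z (n 0 z (n 0 z (n 0 z (n 0 z (n 0 z (n 0 z (n 0 z
 z)))))))) z)))))) (n 129 (n 0 (n 0 z (n 0 z (n 0 z (n 0 z (n 1179 (n 0 z (n 0 z (n 0 z (n 0 z
 (n 0 z (n 0 z (n 0 z (n 0 z (n 0 z (n 2 (n 0 z (n 0 z (n 2 (n 0 z (n 0 z (n 0 z (n 0 z (n 0 z
 (n 0 z z)))))) z))) (n 0 z z))))))))))) (n 1179 (n 0 z (n 2 (n 0 z (n 1 z z)) (n 0 z (n 0 z (n
 0 z (n 0 z (n 0 z (n 0 z (n 0 z (n 0 z (n 0 z z))))))))))) (n 1179 (n 0 z (n 0 z (n 0 z (n 0 z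
 (n 0 z (n 0 z (n 0 z (n 0 z (n 0 z (n 0 z (n 0 z z))))))))))) (n 487 (n 0 z (n 0 z (n 0 z (n 0
 z (n 0 z (n 0 z (n 0 z (n 0 z (n 0 z (n 0 z (n 0 z (n 0 z (n 0 z z))))))))))))) z)))))))) (n 0
 (n 0 z (n 0 z (n 0 z (n 1179 (n 0 z (n 0 z (n 0 z (n 0 z (n 0 z (n 0 z (n 0 z (n 0 z (n 0 z (n
 0 z (n 0 z (n 0 z (n 0 z (n 0 z (n 0 z (n 0 z z)))))))))))))))) (n 1179 (n 0 z (n 0 z (n 2 (n 0
 z (n 2 (n 0 z (n 0 z (n 0 z (n 0 z (n 0 z (n 0 z z)))))) z)) (n 0 z (n 0 z (n 0 z (n 0 z (n 0 z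
 (n 0 z (n 0 z (n 0 z (n 0 z (n 0 z (n 0 z (n 0 z (n 0 z z)))))))))))))))) (n 1179 (n 0 z (n 0 z
 (n 0 z (n 0 z (n 0 z (n 0 z (n 0 z (n 0 z (n 0 z (n 0 z (n 0 z (n 0 z (n 0 z (n 0 z (n 0 z (n 0
 z z)))))))))))))))) (n 1181 (n 0 z (n 0 z (n 0 z (n 0 z (n 0 z (n 0 z (n 0 z (n 0 z (n 0 z (n 0
 z (n 0 z (n 0 z (n 0 z (n 0 z (n 0 z (n 0 z (n 0 z (n 0 z (n 0 z (n 0 z (n 0 z (n 0 z (n 0 z (n
 0 z (n 0 z z))))))))))))))))))))))))) z))))))) (n 0 (n 0 z (n 0 z (n 1185 (n 0 z (n 0 z (n 0 z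
 (n 0 z (n 0 z (n 0 z (n 0 z (n 0 z (n 0 z (n 0 z (n 0 z (n 0 z (n 0 z (n 0 z (n 2 (n 0 z (n 0 z
 (n 2 (n 0 z (n 0 z (n 0 z (n 0 z (n 0 z (n 0 z z)))))) z))) (n 0 z (n 0 z (n 0 z (n 0 z (n 0 z
 (n 0 z (n 0 z (n 0 z z))))))))))))))))))))))) (n 1185 (n 0 z (n 0 z (n 0 z (n 0 z (n 0 z (n 0 z
 (n 0 z (n 0 z (n 0 z (n 0 z (n 0 z (n 0 z (n 0 z (n 0 z (n 0 z (n 0 z (n 0 z (n 0 z (n 0 z (n 0
 z (n 0 z (n 0 z (n 0 z z))))))))))))))))))))))) (n 1185 (n 2 (n 1 z z) (n 0 z (n 0 z (n 0 z (n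
 0 z (n 0 z (n 0 z (n 0 z (n 0 z (n 0 z (n 0 z (n 0 z (n 0 z (n 0 z (n 0 z (n 0 z (n 0 z (n 0 z
 (n 0 z (n 0 z (n 0 z (n 0 z (n 0 z z))))))))))))))))))))))) (n 487 (n 0 z (n 0 z (n 0 z (n 0 z
 (n 0 z (n 0 z (n 0 z (n 0 z (n 0 z (n 0 z (n 0 z (n 0 z (n 0 z (n 0 z (n 0 z (n 0 z (n 0 z (n 0
 z (n 0 z (n 0 z (n 0 z (n 0 z (n 6358827 z (n 0 z (n 0 z (n 0 z (n 0 z (n 0 z (n 0 z (n 0 z (n
 0 z (n 0 z (n 0 z (n 0 z (n 0 z (n 0 z (n 0 z (n 0 z (n 0 z (n 0 z (n 0 z (n 0 z (n 0 z (n 0 z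
 (n 0 z (n 0 z z)))))))))))))))))))))))))))))))))))))))))))))) z)))))) (n 0 (n 0 z (n 1003 (n 0
 z (n 0 z (n 0 z (n 0 z (n 0 z (n 0 z (n 0 z (n 0 z (n 0 z (n 0 z (n 2 (n 0 z (n 0 z (n 1 z z)))
 (n 0 z (n 0 z z))))))))))))) (n 1003 (n 0 z (n 0 z (n 2 (n 0 z (n 1 z z)) (n 0 z (n 0 z (n 0 z
 (n 0 z (n 0 z (n 0 z (n 0 z (n 0 z (n 0 z (n 0 z z))))))))))))) (n 1003 (n 0 z (n 0 z (n 0 z (n
 2 (n 1 z z) (n 0 z (n 0 z (n 0 z (n 0 z (n 0 z (n 0 z (n 0 z (n 0 z (n 0 z z))))))))))))) (n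
 1001 (n 0 z (n 0 z (n 2 z (n 0 z (n 0 z (n 0 z (n 0 z (n 0 z (n 0 z (n 0 z (n 0 z (n 0 z (n 0 z
 (n 0 z (n 0 z (n 0 z (n 0 z (n 0 z (n 0 z (n 0 z (n 0 z (n 0 z (n 0 z (n 0 z (n 0 z (n 0 z
 z)))))))))))))))))))))))))) z))))) (n 0 (n 1185 (n 0 z (n 0 z (n 0 z (n 0 z (n 0 z (n 0 z (n 0
 z (n 0 z z)))))))) (n 1185 (n 0 z (n 0 z (n 0 z (n 0 z (n 0 z (n 0 z (n 0 z (n 0 z z)))))))) (n
 1185 (n 0 z (n 0 z (n 0 z (n 0 z (n 0 z (n 0 z (n 0 z (n 0 z z)))))))) (n 1181 (n 0 z (n 0 z (n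
 0 z (n 0 z (n 0 z (n 0 z (n 0 z z))))))) z)))) (n 0 (n 0 z (n 0 z (n 513 (n 0 z (n 0 z (n 0 z
 (n 0 z (n 0 z (n 2 z (n 0 z (n 0 z (n 0 z z))))))))) z))) (n 0 (n 0 z (n 513 (n 0 z (n 0 z (n 0
 z (n 0 z (n 0 z (n 0 z (n 6358827 z (n 0 z (n 0 z z))))))))) z)) (n 0 (n 487 (n 0 z (n 0 z (n 0
 z (n 0 z (n 0 z (n 0 z (n 0 z (n 0 z (n 0 z (n 0 z z)))))))))) z) (n 0 z z))))))))) (n 0 (n 1
 (n 6426691 z (n 6426691 z (n 6426691 z (n 6426691 z (n 6426691 z (n 6426691 z z)))))) (n 1 (n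
 6426691 z (n 6426691 z (n 6426691 z (n 6426691 z (n 6426691 z (n 6426691 z z)))))) (n 0 z (n 0
 z (n 0 z z))))) (n 0 z z)))) (n 0x522e8cd1b47ab211 (n 0 (n 153 (n 0 z (n 3282443 z (n 0 z z)))
 (n 59 (n 6496515 z (n 0 z (n 0 z (n 0 z (n 0 z (n 0 z (n 0 z (n 0 z (n 6496515 z (n 0 z (n 2 z
 (n 0 z (n 0 z (n 0 z (n 0 z z))))))))))))))) (n 53 (n 6496515 z (n 0 z (n 0 z z))) (n 27 (n 10
 z (n 6496515 z (n 0 z (n 18 z (n 6567195 z (n 0 z (n 0 z (n 0 z (n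
 0xca8a842030595190040e032a2a0080c164354010380ca8a840078207e186185f7a17657e17617e08207df8a07de82189e82082181f8607e18217df8208608612801
 z (n 0 z z)))))))))) (n 1 (n 6558219 z (n 0 z (n 0 z (n 0 z (n 0 z z))))) (n 0 (n 0 z (n 0 z (n
 6631747 z (n 0 z (n 0 z z))))) z)))))) (n 153 (n 0 (n 487 (n 0 z (n 0 z (n 0 z (n 0 z (n 0 z (n
 0 z (n 0 z (n 0 z (n 0 z (n 0 z (n 0 z z))))))))))) (n 487 (n 0 z (n 0 z (n 0 z (n 0 z (n 0 z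
 (n 0 z (n 0 z (n 0 z (n 0 z (n 0 z (n 0 z z))))))))))) z)) (n 0 (n 0 z z) (n 0 z z))) (n 0 (n 0
 z (n 1 (n 6496515 z (n 3282443 z (n 3282443 z (n 3282443 z (n 3282443 z (n 3282443 z z)))))) (n
 0 z z))) (n 0 z z)))) (n 0x1e2dd064cee10b518933841d1c644cd9c234e1d442cc819 (n 0 (n 153 (n 0 z
 (n 3282443 z (n 0 z z))) (n 59 (n 0 z (n 0 z (n 2 z (n 10 z (n 0 z (n 6496515 z (n 6496515 z (n
 0 z (n 0 z z))))))))) (n 53 (n 0 z (n 0 z (n 6496515 z (n 0 z (n 0 z z))))) (n 27 (n 0 z (n 0 z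
 (n 18 z (n 0 z (n 0 z (n 6496515 z (n 26 z z))))))) (n 1 (n 34 z (n 0 z (n 0 z (n 42 z (n 0 z
 (n 0 z (n 0 z (n 6558219 z (n 0 z (n 0 z (n 50 z (n 0 z z)))))))))))) (n 0 (n 58 z (n 66 z (n
 6631747 z z))) z)))))) (n 153 (n 0 (n 0 z (n 75 (n 2 (n 0 z (n 1 z (n 1 z (n 2 (n 0 z (n 0 (n
 468 z (n 468 z z)) (n 0 z (n 0 (n 8860259 z (n 8860259 z z)) (n 0 (n 468 z (n 468 z z)) (n 0 z
 z)))))) (n 2 (n 0 z (n 0 (n 8803331 z (n 8803331 z z)) (n 0 z (n 0 z (n 0 (n 8803331 z (n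
 8803331 z z)) (n 0 (n 8803331 z (n 8803331 z z)) z)))))) (n 1 z z)))))) (n 0 z (n 0 z (n 0 z (n
 0 z (n 0 z z)))))) (n 75 (n 0 z (n 0 z (n 0 z (n 0 z (n 0 z (n 0 z z)))))) (n 117 (n 0 z (n 0 z
 (n 0 z (n 0 z z)))) (n 117 (n 0 z (n 0 z (n 0 z (n 0 z z)))) (n 117 (n 0 z (n 0 z (n 0 z (n 0 z
 z)))) (n 65 (n 0 z (n 0 z (n 0 z (n 0 z (n 0 z z))))) (n 65 (n 0 z (n 0 z (n 7754755 z (n 0 z
 (n 0 z z))))) z)))))))) (n 0 (n 81 (n 0 z (n 0 z (n 0 z (n 0 z (n 0 z (n 0 z (n 0 z z))))))) (n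
 81 (n 0 z (n 0 z (n 0 z (n 0 z (n 0 z (n 0 z (n 0 z z))))))) (n 117 (n 0 z (n 0 z z)) (n 117 (n
 0 z (n 0 z z)) (n 117 (n 0 z (n 0 z z)) (n 65 (n 0 z (n 0 z (n 0 z (n 0 z (n 0 z (n 0 z (n 0 z
 (n 0 z (n 0 z (n 0 z (n 0 z (n 0 z (n 0 z z))))))))))))) (n 65 (n 0 z (n 0 z (n 0 z (n 0 z (n 0
 z (n 0 z (n 0 z (n 0 z (n 0 z (n 0 z (n 0 z (n 0 z (n 0 z z))))))))))))) z))))))) (n 0 (n 0 z
 (n 3 (n 0 z (n 0 z (n 0 z (n 0 z (n 0 z (n 0 z (n 0 z z))))))) (n 3 (n 2 (n 0 z (n 2 (n 0 (n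
 8868867 z (n 8868867 z z)) (n 0 z (n 0 z (n 0 (n 8868867 z (n 8868867 z z)) (n 0 (n 8868867 z
 (n 8868867 z z)) (n 0 (n 8868867 z (n 8868867 z z)) z)))))) (n 1 z z))) (n 0 z (n 0 z (n 0 z (n
 0 z (n 0 z (n 0 z z))))))) (n 3 (n 0 z (n 0 z (n 0 z (n 0 z (n 0 z (n 0 z (n 2 (n 2 (n 0 z (n 0
 z (n 0 z (n 0 z (n 0 z (n 0 z z)))))) (n 1 z z)) z))))))) (n 1 (n 2 (n 0 z z) (n 0 z (n 0 z (n
 0 z (n 0 z z))))) (n 1 (n 0 z (n 0 z (n 0 z (n 0 z (n 0 z z))))) z)))))) (n 0 (n 51 (n 0 z (n 0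
 z (n 0 z (n 0 z (n 0 z (n 0 z (n 0 z (n 0 z (n 0 z (n 0 z (n 0 z (n 0 z (n 0 z (n 0 z (n 0 z (n
 0 z (n 0 z (n 0 z (n 0 z (n 0 z z)))))))))))))))))))) (n 51 (n 0 z (n 0 z (n 0 z (n 0 z (n 0 z
 (n 0 z (n 0 z (n 0 z (n 0 z (n 0 z (n 0 z (n 0 z (n 0 z (n 0 z (n 0 z (n 0 z (n 0 z (n 0 z (n 0
 z (n 0 z z)))))))))))))))))))) (n 51 (n 0 z (n 0 z (n 0 z (n 0 z (n 0 z (n 0 z (n 0 z (n 0 z (n
 0 z (n 0 z (n 0 z (n 0 z (n 0 z (n 0 z (n 0 z (n 0 z (n 0 z (n 0 z (n 0 z (n 0 z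
 z)))))))))))))))))))) (n 53 (n 0 z (n 0 z (n 0 z (n 0 z (n 0 z (n 0 z (n 0 z (n 0 z z))))))))
 (n 53 (n 0 z (n 0 z (n 0 z (n 0 z (n 0 z (n 0 z (n 0 z (n 0 z z)))))))) z))))) (n 0 (n 0 z (n 0
 z (n 1 (n 0 z (n 0 z (n 0 z (n 0 z (n 0 z (n 0 z (n 0 z z))))))) (n 1 (n 0 z (n 0 z (n 0 z (n 0
 z (n 0 z (n 0 z (n 0 z z))))))) z)))) (n 0 (n 0 z (n 1 (n 0 z (n 0 z (n 0 z (n 0 z z)))) (n 1
 (n 0 z (n 0 z (n 0 z (n 0 z z)))) z))) (n 0 (n 1 (n 0 z (n 0 z (n 0 z (n 0 z (n 0 z (n 0 z (n 0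
 z (n 0 z (n 0 z (n 0 z (n 0 z (n 0 z (n 0 z (n 0 z (n 0 z (n 0 z (n 0 z (n 0 z (n 0 z (n 0 z (n
 0 z (n 0 z (n 0 z (n 0 z (n 0 z (n 0 z (n 0 z (n 0 z (n 0 z (n 0 z (n 0 z (n 0 z (n 0 z (n 0 z
 (n 0 z (n 0 z (n 0 z (n 0 z (n 0 z (n 0 z (n 0 z (n 0 z (n 0 z (n 0 z (n 0 z (n 0 z (n 0 z (n 0
 z (n 0 z z))))))))))))))))))))))))))))))))))))))))))))))))) (n 1 (n 0 z (n 0 z (n 0 z (n 0 z (n
 0 z (n 0 z (n 0 z (n 0 z (n 0 z (n 0 z (n 0 z (n 0 z (n 0 z (n 0 z (n 0 z (n 0 z (n 0 z (n 0 z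
 (n 0 z (n 0 z (n 0 z (n 0 z (n 0 z (n 0 z (n 0 z (n 0 z (n 0 z (n 0 z (n 0 z (n 0 z (n 0 z (n 0
 z (n 0 z (n 0 z (n 0 z (n 0 z (n 0 z (n 0 z (n 0 z (n 0 z (n 0 z (n 0 z (n 0 z (n 0 z (n 0 z (n
 0 z (n 0 z (n 0 z (n 0 z z))))))))))))))))))))))))))))))))))))))))))))))))) z)) (n 0 (n 0 z z)
 (n 0 z z))))))))) (n 0 (n 0 z (n 1 (n 6496515 z (n 3282443 z (n 3282443 z (n 3282443 z (n
 3282443 z (n 3282443 z z)))))) (n 0 z z))) (n 0 z z)))) (n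
 0x86575832b9466a4a232638256ea8094e115a548b1386066a8c12e1940 (n 0x1c32b (n 351 (n 0 z (n 6492195
 z (n 0 z (n 2 z z)))) (n 349 (n 10 z (n 6492195 z (n 18 z z))) (n 9 (n 6566403 z (n 6627379 z
 (n 26 z (n 34 z (n 6566403 z (n 6566403 z (n 42 z z))))))) (n 3 (n 6566403 z (n 0 z (n 50 z (n
 0 z (n 0 z (n 0 z (n 0 z (n 0 z (n 0 z (n 0 z (n 0 z (n 0 z (n 0 z z))))))))))))) (n 348 (n 58
 z (n
 0x165265130380ca8a642038de7e38207608607a08618627607e28208608607e086081e85f8207217e07df82185f81e81f1001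
 z (n 0 z (n 0 z (n 0 z (n 0 z (n 0 z (n 0 z (n 0 z (n 66 z (n 0 z (n 6566403 z (n 0 z (n 0 z (n
 0x12ca2c406035a081e9a09e57dbb1e85f6d899595796b7dbcdc6d79d861a7e49a6a9f91eca895c71f7f67230801 z
 (n 0 z (n 6566403 z (n 0 z (n 0 z (n 74 z (n 0 z (n 0 z (n 0 z (n 0 z (n 0 z (n 0 z (n
 0x2ca2ca20078a081f8207df85f7208a28a076281e81e8a08217df7e179f85f8206e28208df8208a085f8210801 z
 (n 0 z (n 0 z (n 0 z (n 0 z (n 0 z z)))))))))))))))))))))))))))))))) (n 0 (n 0 z (n 0 z (n 0 z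
 (n 0 z (n 82 z (n 0 z (n 0 z (n 0 z (n 0 z (n 0 z (n 0 z (n 0 z (n 0 z (n 0 z (n 0 z (n 6627379
 z z)))))))))))))))) z)))))) (n 349 (n 0 (n 1323 (n 0 z (n 0 z (n 0 z (n 0 z (n 0 z (n 0 z (n 0
 z (n 0 z (n 0 z (n 0 z (n 0 z (n 0 z (n 0 z z))))))))))))) (n 1323 (n 0 z (n 0 z (n 0 z (n 0 z
 (n 0 z (n 0 z (n 0 z (n 0 z (n 0 z (n 0 z (n 0 z (n 0 z (n 0 z z))))))))))))) (n 765 (n 0 z (n
 0 z (n 0 z (n 0 z (n 0 z (n 0 z (n 0 z (n 0 z (n 0 z (n 0 z (n 0 z (n 0 z (n 2 (n 0 z (n 0 z (n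
 2 (n 0 z (n 0 z (n 0 z (n 0 z (n 0 z (n 0 z z)))))) (n 2 (n 0 z (n 0 z (n 0 z (n 0 z (n 0 z (n
 0 z z)))))) (n 2 (n 0 z (n 0 z (n 0 z (n 0 z (n 0 z (n 0 z z)))))) (n 2 (n 0 z (n 0 z (n 0 z (n
 0 z (n 0 z (n 0 z z)))))) (n 2 (n 0 z (n 0 z (n 0 z (n 0 z (n 0 z (n 0 z z)))))) z))))))) (n 0
 z (n 0 z (n 0 z z)))))))))))))))) (n 765 (n 0 z (n 0 z (n 0 z (n 0 z (n 0 z (n 0 z (n 0 z (n 0
 z (n 0 z (n 0 z (n 0 z (n 0 z (n 0 z (n 0 z (n 0 z (n 0 z z)))))))))))))))) (n 765 (n 0 z (n 0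
 z (n 2 (n 2 (n 0 z (n 0 z (n 0 z (n 0 z (n 0 z (n 0 z z)))))) (n 2 (n 0 z (n 0 z (n 0 z (n 0 z
 (n 0 z (n 0 z z)))))) (n 2 (n 0 z (n 0 z (n 0 z (n 0 z (n 0 z (n 0 z z)))))) (n 2 (n 0 z (n 0 z
 (n 0 z (n 0 z (n 0 z (n 0 z z)))))) (n 2 (n 0 z (n 0 z (n 0 z (n 0 z (n 0 z (n 0 z z))))))
 z))))) (n 0 z (n 0 z (n 0 z (n 0 z (n 0 z (n 0 z (n 0 z (n 0 z (n 0 z (n 0 z (n 0 z (n 0 z (n 0
 z z)))))))))))))))) (n 687 (n 0 z (n 0 z (n 0 z (n 0 z (n 0 z (n 0 z (n 0 z (n 0 z (n 0 z (n 0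
 z (n 0 z (n 0 z z)))))))))))) (n 701 (n 0 z (n 0 z (n 0 z (n 0 z (n 0 z (n 0 z (n 0 z (n 0 z (n
 2 (n 0 z (n 0 z (n 2 (n 0 z (n 0 z (n 0 z (n 0 z (n 0 z (n 0 z z)))))) z))) (n 0 z (n 0 z
 z))))))))))) (n 701 (n 0 z (n 0 z (n 0 z (n 0 z (n 0 z (n 0 z (n 0 z (n 0 z (n 0 z (n 0 z (n 0
 z z))))))))))) (n 701 (n 0 z (n 0 z (n 0 z (n 0 z (n 0 z (n 0 z (n 0 z (n 0 z (n 0 z (n 0 z (n
 0 z z))))))))))) (n 737 (n 0 z (n 0 z (n 0 z (n 0 z z)))) z)))))))))) (n 0 (n 0 z (n 31 (n 0 z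
 (n 0 z (n 0 z (n 0 z (n 0 z (n 0 z (n 0 z z))))))) (n 31 (n 0 z (n 2 (n 0 z (n 1 z (n 2 (n 0 z
 (n 0 z (n 0 z (n 0 z (n 0 z (n 0 (n 3278955 z z) z)))))) (n 1 z (n 1 z (n 2 (n 0 z (n 0 z (n 0
 z (n 0 z (n 0 z (n 0 z z)))))) z)))))) (n 0 z (n 0 z (n 0 z (n 0 z (n 0 z z))))))) (n 31 (n 0 z
 (n 0 z (n 0 z (n 0 z (n 0 z (n 0 z (n 0 z z))))))) (n 27 (n 0 z (n 0 z (n 0 z (n 2 (n 2 (n 0 z
 (n 0 z (n 0 z (n 0 z (n 0 z (n 0 z z)))))) (n 1 z (n 1 z (n 2 (n 0 z (n 0 z (n 0 z (n 0 z (n 0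
 z (n 0 (n 8848427 z z) z)))))) z)))) (n 0 z (n 0 z (n 0 z (n 0 z (n 0 z (n 0 z z)))))))))) (n
 697 (n 0 z (n 0 z (n 0 z (n 0 z (n 0 z (n 0 z (n 0 z (n 0 z (n 0 z (n 0 z (n 0 z (n 0 z (n 0 z
 z))))))))))))) (n 697 (n 0 z (n 0 z (n 0 z (n 0 z (n 0 z (n 0 z (n 2 (n 0 z (n 1 z z)) (n 0 z
 (n 0 z (n 0 z (n 0 z (n 0 z (n 0 z z))))))))))))) (n 697 (n 0 z (n 0 z (n 0 z (n 0 z (n 0 z (n
 0 z (n 0 z (n 0 z (n 0 z (n 0 z (n 2 (n 2 (n 0 z (n 0 z (n 0 z (n 0 z (n 0 z (n 0 z z)))))) z)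
 (n 0 z (n 0 z z))))))))))))) (n 25 (n 0 z (n 0 z (n 2 z (n 0 z (n 0 z (n 0 z (n 0 z (n 0 z (n 0
 z (n 0 z z)))))))))) z))))))))) (n 0 (n 779 (n 0 z (n 0 z (n 0 z (n 0 z (n 0 z (n 0 z (n 2 (n 0
 z (n 0 z (n 2 (n 0 z (n 0 z (n 0 z (n 0 z (n 0 z (n 0 (n 8795403 z z) z)))))) (n 2 (n 0 z (n 0
 z (n 0 z (n 0 z (n 0 z (n 0 z z)))))) (n 2 (n 0 (n 8804155 z z) (n 0 z (n 0 z (n 0 (n 8804155 z
 z) (n 0 z (n 0 (n 2788 z (n 2788 z z)) z)))))) (n 2 (n 0 z (n 0 z (n 0 z (n 0 z (n 0 z (n 0 (n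
 8795403 z z) z)))))) (n 2 (n 0 z (n 0 z (n 0 z (n 0 z (n 0 z (n 0 z z)))))) z))))))) z)))))))
 (n 779 (n 0 z (n 0 z (n 0 z (n 0 z (n 0 z (n 0 z (n 0 z z))))))) (n 779 (n 0 z (n 0 z (n 2 (n 2
 (n 0 z (n 0 z (n 0 z (n 0 z (n 0 z (n 0 (n 8795403 z z) z)))))) (n 2 (n 0 z (n 0 z (n 0 z (n 0
 z (n 0 z (n 0 z z)))))) (n 2 (n 0 (n 2788 z z) (n 0 z (n 0 z (n 0 (n 2788 z z) (n 0 z (n 0 (n
 2788 z (n 8656651 z z)) z)))))) (n 2 (n 0 z (n 0 z (n 0 z (n 0 z (n 0 z (n 0 (n 8795403 z z)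
 z)))))) (n 2 (n 0 z (n 0 z (n 0 z (n 0 z (n 0 z (n 0 z z)))))) z))))) (n 0 z (n 0 z (n 0 z (n 0
 z z))))))) (n 675 (n 0 z (n 0 z (n 0 z (n 0 z (n 0 z (n 0 z (n 0 z (n 0 z (n 0 z (n 0 z
 z)))))))))) (n 697 (n 0 z (n 0 z (n 0 z (n 0 z (n 0 z (n 0 z (n 2 (n 0 z (n 0 z (n 2 (n 0 z (n
 0 z (n 0 z (n 0 z (n 0 z (n 0 z z)))))) z))) (n 0 z (n 0 z (n 0 z (n 0 z (n 0 z (n 0 z (n 0 z
 (n 0 z (n 0 z (n 0 z (n 0 z (n 0 z (n 0 z (n 0 z (n 0 z (n 0 z (n 0 z (n 0 z (n 0 z (n 0 z (n 0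
 z (n 0 z z))))))))))))))))))))))))))))) (n 697 (n 0 z (n 0 z (n 0 z (n 0 z (n 0 z (n 0 z (n 0 z
 (n 0 z (n 0 z (n 0 z (n 0 z (n 0 z (n 0 z (n 0 z (n 0 z (n 0 z (n 0 z (n 0 z (n 0 z (n 0 z (n 0
 z (n 0 z (n 0 z (n 0 z (n 0 z (n 0 z (n 0 z (n 0 z (n 0 z z))))))))))))))))))))))))))))) (n 697
 (n 0 z (n 0 z (n 0 z (n 0 z (n 0 z (n 0 z (n 0 z (n 0 z (n 0 z (n 0 z (n 0 z (n 0 z (n 0 z (n 0
 z (n 0 z (n 0 z (n 0 z (n 0 z (n 0 z (n 0 z (n 0 z (n 0 z (n 0 z (n 0 z (n 0 z (n 0 z (n 0 z (n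
 0 z (n 0 z z))))))))))))))))))))))))))))) (n 769 (n 0 z (n 0 z (n 0 z (n 0 z (n 0 z (n 0 z (n 0
 z (n 0 z z)))))))) z)))))))) (n 0 (n 0 z (n 0 z (n 33 (n 0 z (n 2 (n 2 (n 0 z (n 0 z (n 0 z (n
 0 z (n 0 z (n 0 z z)))))) (n 2 (n 0 z (n 0 z (n 0 z (n 0 (n 3412 z z) (n 0 (n 3412 z z) (n 0 (n
 3412 z (n 3412 z z)) z)))))) (n 2 (n 0 z (n 0 z (n 0 z (n 0 z (n 0 z (n 0 z z)))))) (n 2 (n 0 z
 (n 0 z (n 0 z (n 0 z (n 0 z (n 0 z z)))))) z)))) (n 0 z (n 0 z (n 0 z (n 0 z z)))))) (n 853 (n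
 0 z (n
 0x9d4dc4180e08ec6ec0a070065465410181bb2329881c11d5194c40e00ec8ca0203848a7f7b7a807e8289806b6d8c94788c758b6f777e879175908a8f67728e746e7d7d7d847c7a6d767977828ba28498868e883009
 z (n 0 z (n 0 z (n 0 z (n 0 z (n 0 z (n 0 z (n 0 z (n 0 z z)))))))))) (n 853 (n 0 z (n 0 z (n 0
 z (n 0 z (n 0 z (n 0 z (n 0 z (n 0 z (n 0 z (n 0 z z)))))))))) (n 853 (n 0 z (n 0 z (n 0 z (n 0
 z (n 0 z (n 0 z (n 2 (n 2 (n 0 z (n 0 z (n 0 z (n 0 z (n 0 z (n 0 z z)))))) z) (n 0 z (n 0 z (n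
 0 z z)))))))))) (n 17 (n 2 z (n 0 z (n 0 z (n 0 z (n 0 z (n 0 z (n 0 z (n 0 z (n 0 z (n 0 z (n
 0 z (n 0 z z)))))))))))) z))))))) (n 0 (n 0 z (n 33 (n 0 z (n 0 z (n 0 z (n 0 z (n 0 z (n 0 z
 (n 0 z (n 0 z (n 0 z (n 0 z (n 0 z (n 0 z (n 0 z (n 0 z (n 0 z (n 0 z z)))))))))))))))) (n 825
 (n 0 z (n 2 (n 0 z (n 0 z (n 2 (n 0 z (n 0 z (n 0 z (n 0 z (n 0 z (n 0 z z)))))) z))) (n 0 z (n
 0 z (n 0 z (n 0 z (n 0 z (n 0 z (n 0 z (n 0 z (n 0 z (n 0 z (n 0 z z))))))))))))) (n 825 (n 0 z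
 (n 0 z (n 0 z (n 0 z (n 0 z (n 0 z (n 0 z (n 0 z (n 0 z (n 0 z (n 0 z (n 0 z (n 0 z
 z))))))))))))) (n 825 (n 0 z (n 0 z (n 0 z (n 0 z (n 0 z (n 0 z (n 0 z (n 0 z (n 0 z (n 0 z (n
 0 z (n 0 z (n 0 z z))))))))))))) (n 17 (n 0 z (n 0 z (n 0 z (n 0 z (n 0 z (n 0 z (n 0 z (n 0 z
 (n 0 z (n 0 z (n 0 z (n 0 z (n 0 z z))))))))))))) z)))))) (n 0 (n 55 (n 0 z (n 0 z (n 2 (n 2 (n
 0 z (n 0 z (n 0 z (n 0 z (n 0 z (n 0 z z)))))) (n 2 (n 0 z (n 0 z (n 0 z (n 0 (n 8656395 z z)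
 (n 0 (n 12 z z) (n 0 (n 12 z (n 8783707 z z)) z)))))) (n 2 (n 0 z (n 0 z (n 0 z (n 0 z (n 0 z
 (n 0 z z)))))) (n 2 (n 0 z (n 0 z (n 0 z (n 0 z (n 0 z (n 0 z z)))))) z)))) (n 0 z (n 0 z
 z))))) (n 3 (n 0 z (n 0 z (n 0 z (n 0 z (n 0 z (n 0 z (n 0 z (n 0 z (n 0 z (n 0 z (n 0 z (n 0 z
 (n 0 z z))))))))))))) (n 3 (n 0 z (n 0 z (n 0 z (n 0 z (n 0 z (n 0 z (n 2 (n 0 z (n 2 (n 0 (n
 212 z z) (n 0 z (n 0 z (n 0 (n 212 z z) (n 0 z (n 0 (n 212 z (n 212 z z)) z)))))) z)) (n 0 z (n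
 0 z (n 0 z (n 0 z (n 0 z (n 0 z z))))))))))))) (n 3 (n 0 z (n 0 z (n 0 z (n 2 (n 2 (n 0 z (n 0
 z (n 0 z (n 0 z (n 0 z (n 0 z z)))))) z) (n 0 z (n 0 z (n 0 z (n 0 z (n 0 z (n 0 z (n 0 z (n 0
 z (n 0 z z))))))))))))) (n 53 (n 2 z (n 0 z (n 0 z (n 0 z (n 0 z (n 0 z (n 0 z (n 0 z (n 0 z (n
 0 z (n 0 z (n 0 z (n 0 z (n 0 z (n 0 z (n 0 z (n 0 z (n 0 z (n 0 z (n 0 z (n 0 z (n 0 z (n 0 z
 (n 0 z (n 0 z (n 0 z (n 0 z (n 0 z z)))))))))))))))))))))))))))) z))))) (n 0 (n 9 (n 0 z (n 0 z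
 (n 0 z (n 0 z (n 0 z (n 2 (n 0 z (n 0 z (n 2 (n 0 z (n 0 z (n 0 z (n 0 z (n 0 z (n 0 z z))))))
 z))) (n 0 z (n 0 z (n 0 z z))))))))) (n 9 (n 0 z (n 0 z (n 0 z (n 0 z (n 0 z (n 0 z (n 0 z (n 0
 z (n 0xecaeca0037e07e08208208208a08208208208208208208208208208208208208207e08208208208208210801
 z z))))))))) (n 9 (n 0 z (n 0 z (n 0 z (n 0 z (n 0 z (n 0 z (n 0 z (n 0 z (n 0 z z))))))))) (n
 5 (n 0 z (n 0 z (n 0 z (n 0 z (n 0 z (n 0 z z)))))) z)))) (n 0 (n 0 z (n 0 z (n 25 (n 2 z (n 0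
 z (n 0 z (n 0 z (n 0 z (n 0 z (n 0 z (n 0 z (n 0 z (n 0 z (n 0 z (n 0 z (n 0 z (n 0 z (n 0 z (n
 0 z (n 0 z (n 0 z (n 0 z (n 0 z (n 0 z (n 0 z (n 0 z (n 0 z (n 0 z (n 0 z
 z)))))))))))))))))))))))))) z))) (n 0 (n 0 z (n 1 (n 0 z (n 0 z (n 0 z (n 0 z z)))) z)) (n 0 (n
 1 (n 0 z (n 0 z (n 0 z (n 0 z (n 0 z (n 0 z (n 0 z (n 0 z (n 0 z (n 0 z (n 0 z (n 0 z (n 0 z
 z))))))))))))) z) (n 0 z z))))))))))) (n 0 (n 1 (n 2812 z (n 2812 z (n 2812 z (n 6562587 z (n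
 2812 z (n 2812 z z)))))) (n 1 (n 6492195 z (n 6492195 z (n 6492195 z (n 6492195 z (n 6492195 z
 (n 6492195 z z)))))) (n 1 (n 6562587 z (n 2812 z (n 2812 z (n 2812 z (n 2 z (n 2812 z z))))))
 z))) (n 0 (n 0xb4464c2a9162b5404a (n 0 (n 0 (n 7746827 z (n 7746827 z (n 7746827 z (n 7746827 z
 (n 7746827 z (n 7746827 z z)))))) z) (n 0 (n 351 (n 0 z (n 1 (n 7540771 z (n 7540771 z (n
 7540771 z (n 7540771 z (n 7540771 z (n 7540771 z z)))))) (n 0 z (n 1 (n 7734315 z (n 7734315 z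
 (n 7734315 z (n 7734315 z (n 7734315 z (n 7734315 z z)))))) z)))) (n 349 (n 1 (n 5308 z (n 5308
 z (n 5308 z (n 5308 z (n 5308 z (n 5308 z z)))))) (n 1 (n 7540771 z (n 7540771 z (n 7540771 z
 (n 7540771 z (n 7540771 z (n 7540771 z z)))))) (n 1 (n 7746827 z (n 7746827 z (n 7746827 z (n
 7746827 z (n 7746827 z (n 7746827 z z)))))) z))) (n 413 (n 1 (n 7614979 z (n 7614979 z (n
 7614979 z (n 7614979 z (n 7614979 z (n 7614979 z z)))))) (n 1 (n 7614979 z (n 7614979 z (n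
 7614979 z (n 7614979 z (n 7614979 z (n 7614979 z z)))))) (n 1 (n 2 z (n 3452 z (n 3452 z (n
 7611163 z (n 3452 z (n 3452 z z)))))) (n 1 (n 4392731 z (n 4392731 z (n 7611163 z (n 4392731 z
 (n 4392731 z (n 4392731 z z)))))) (n 1 (n 7675955 z (n 7675955 z (n 7675955 z (n 7675955 z (n
 7675955 z (n 7675955 z z)))))) (n 1 (n 7614979 z (n 7614979 z (n 7614979 z (n 7614979 z (n
 7614979 z (n 7614979 z z)))))) (n 1 (n 7611163 z (n 3452 z (n 6625083 z (n 3452 z (n 10 z (n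
 3452 z z)))))) z))))))) (n 2 (n 1 (n 7614979 z (n 7614979 z (n 7614979 z (n 7614979 z (n
 7614979 z (n 7614979 z z)))))) (n 1 (n 7614979 z (n 7614979 z (n 7614979 z (n 7614979 z (n
 7614979 z (n 7614979 z z)))))) (n 0 z (n 1 (n 2764 z (n 2764 z (n 7746827 z (n 2764 z (n 2764 z
 (n 2764 z z)))))) (n 1 (n 2164571 z (n 2164571 z (n 7746827 z (n 2164571 z (n 2164571 z (n
 2164571 z z)))))) (n 0 z z)))))) (n 5 (n 1 (n 7614979 z (n 7614979 z (n 7614979 z (n 7614979 z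
 (n 7614979 z (n 7614979 z z)))))) (n 1 (n 2812 z (n 7675955 z (n 2812 z (n 2812 z (n 2812 z (n
 7611163 z z)))))) (n 0 z (n 1 (n 7614979 z (n 7614979 z (n 7614979 z (n 7614979 z (n 7614979 z
 (n 7614979 z z)))))) (n 1 (n 7540771 z (n 7540771 z (n 7540771 z (n 7540771 z (n 7540771 z (n
 7540771 z z)))))) (n 1 (n 7611163 z (n 7675955 z (n 6489883 z (n 18 z (n 2812 z (n 2812 z
 z)))))) (n 1 (n 7540771 z (n 7540771 z (n 7540771 z (n 7540771 z (n 7540771 z (n 7540771 z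
 z)))))) (n 0 z (n 1 (n 2812 z (n 7675955 z (n 2812 z (n 2812 z (n 2812 z (n 2812 z z))))))
 z))))))))) (n 473 (n 1 (n 7540771 z (n 7614979 z (n 7540771 z (n 7540771 z (n 7540771 z (n
 7540771 z z)))))) (n 1 (n 7675955 z (n 7614979 z (n 7675955 z (n 7675955 z (n 7675955 z (n
 7675955 z z)))))) (n 0 z (n 0 z z)))) (n 349 (n 1 (n 2812 z (n 2812 z (n 2812 z (n 7611163 z (n
 2812 z (n 2812 z z)))))) (n 1 (n 7540771 z (n 7540771 z (n 7540771 z (n 7540771 z (n 7540771 z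
 (n 7540771 z z)))))) (n 1 (n 7746827 z (n 7746827 z (n 7746827 z (n 7746827 z (n 7746827 z (n
 7746827 z z)))))) z))) z))))))) (n 0 (n 0 (n 0 z (n 0 z (n 0 z z))) (n 0 (n 0 z (n 0 z z)) (n 0
 (n 0 z z) z))) (n 0 (n 663 (n 0 (n 0 z (n 0 z (n 0 z z))) (n 0 (n 0 z (n 0 z (n 0 z z))) (n 0
 (n 0 z (n 0 z (n 0 z z))) (n 0 (n 0 z (n 0 z (n 0 z z))) (n 0 (n 0 z (n 0 z (n 0 z z))) (n 0 (n
 0 z (n 0 z (n 0 z z))) (n 0 (n 0 z (n 0 z (n 0 z z))) (n 0 (n 0 z (n 0 z (n 0 z z))) (n 0 (n 0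
 z (n 0 z (n 0 z z))) (n 0 (n 0 z (n 0 z (n 0 z z))) (n 0 (n 0 z (n 0 z (n 0 z z))) (n 0 (n 0 z
 (n 0 z (n 0 z z))) (n 0 (n 0 (n
 0x943a0261d0130c40485286081f8208608207a08227e182281f7e081f82181f8217e181f82186182081f7e181f8a085f0101
 z (n
 0x987684350180432c32a01c061da14d0060b0eb0a6803908378908d8066896b8a9559878a8583847188557a7a8489897c6f957e8c7a857a80768898a1797e95887b6c748b70968b812009
 z z)) (n 0 (n 7612507 z (n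
 0x10eb0ca8037e07e08208208218e081f81f81f8608207e081f8218208608208608208208208208208208200801 z
 z)) (n 0 (n
 0x87687650382ec90c0a038208208208208218208208208208608207e08208208208208208208208208208208208608201001
 z (n
 0x43b43b281c1764860501810ed0ec40786082186081f8217e18218217e08208207df82082082081f7e08208208218208218208608201801
 z z)) z))) z))))))))))))) (n 431 (n 0 (n 0 z (n 0 z (n 0 z z))) (n 0 (n 0 z (n 0 z (n 0 z z)))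
 (n 0 (n 0 z (n 0 z (n 0 z z))) (n 0 (n 0 (n 7608331 z (n 8848987 z z)) (n 0 (n
 0xa87681f8208208208207df86186182082082082085f8208207e08208207e081f81f7e18208608210041 z (n
 0x30ed0c2a038208208208208208208608207e08208208208208208208208208208208208208208208208200801 z
 z)) (n 0 (n 8848987 z (n 8848987 z z)) z))) (n 0 (n 0 z (n 0 z (n 0 z z))) (n 0 (n 0 z (n 0 z
 (n 0 z z))) (n 0 (n 0 z (n 0 z (n 0 z z))) (n 0 (n 0 z (n 0 z (n 0 z z))) (n 0 (n 0 z (n 0 z (n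
 0 z z))) (n 0 (n 0 z (n 0 z (n 0 z z))) (n 0 (n 0 z (n 0 z (n 0 z z))) (n 0 (n 0 z (n 0 z (n 0
 z z))) (n 0 (n 0 z (n 0 z (n 0 z z))) (n 0 (n 0 z (n 0 z (n 0 z z))) (n 0 (n 0 z (n 0 z (n 0 z
 z))) (n 0 (n 0 z (n 0 z (n 0 (n 8724531 z (n 8724531 z z)) z))) z)))))))))))))))) (n 413 (n 0
 (n 0 z (n 0 z (n 0 z z))) (n 0 (n 0 z (n 0 z (n 0 z z))) (n 0 (n 0 z (n 0 z (n 0 z z))) (n 0 (n
 0 z (n 0 z (n 0 z z))) (n 0 (n 0 z (n 0 z (n 0 z z))) (n 0 (n 0 z (n 0 z (n 0 z z))) (n 0 (n 0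
 z (n 0 z (n 0 z z))) z))))))) (n 345 (n 0 (n 0 z (n 0 z (n 0 z z))) (n 0 (n 0 z (n 0 z (n 0 z
 z))) (n 0 (n 0 z (n 0 z (n 0 z z))) (n 0 (n 0 z (n 0 z (n 0 z z))) (n 0 (n 0 z (n 0 z (n 0 z
 z))) (n 0 (n 0 z (n 0 z (n 0 z z))) (n 0 (n 0 z (n 0 z (n 0 z z))) (n 0 (n 0 z (n 0 z (n 0 z
 z))) (n 0 (n 0 z (n 0 z (n 0 z z))) (n 0 (n 0 z (n 0 z (n 0 z z))) (n 0 (n 0 z (n 0 z (n 0 z
 z))) (n 0 (n 0 z (n 0 z (n 0 z z))) z)))))))))))) (n 339 (n 0 (n 0 z (n 0 z (n 0 z z))) (n 0 (n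
 0 z (n 0 z (n 0 z z))) (n 0 (n 0 (n 8848987 z (n 8656651 z z)) (n 0 (n
 0xa87681f8208207e08217e08618618208208208208607e082182082082082181f81f8218208208600041 z (n
 0x30ed0c8a038208208208208207e08608208208208208208208208208208208208208208208208208208200801 z
 z)) (n 0 (n 8848987 z (n 8848987 z z)) z))) (n 0 (n 0 z (n 0 z (n 0 z z))) (n 0 (n 0 z (n 0 z
 (n 0 z z))) (n 0 (n 0 z (n 0 z (n 0 z z))) (n 0 (n 0 z (n 0 z (n 0 z z))) (n 0 (n 0 z (n 0 z (n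
 0 z z))) (n 0 (n 0 z (n 0 z (n 0 z z))) (n 0 (n 0 z (n 0 z (n 0 z z))) z)))))))))) (n 17 (n 0
 (n 0 z (n 0 z (n 0 z z))) (n 0 (n 0 z (n 0 z (n 0 z z))) (n 0 (n 0 z (n 0 z (n 0 z z))) (n 0 (n
 0 (n 0x1287181f8208208208207a08618618208207e081f8607e082082082082082082081f7e08208208600041 z
 (n 0x30e90c82078208208208208208208608207e08208208208208208208208208208208208208208208208200801
 z z)) (n 0 (n 8860699 z (n 8860699 z z)) (n 0 (n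
 0x1287181f8208208208207a08618218208207e08208608208217e08208207e082081f8218208608200041 z (n
 0x30ecec2a0781f8218208208208208208208208208208208208208208208208208208208208208208208210801 z
 z)) z))) (n 0 (n 0 z (n 0 z (n 0 z z))) (n 0 (n 0 z (n 0 z (n 0 z z))) (n 0 (n 0 z (n 0 z (n 0
 z z))) (n 0 (n 0 z (n 0 z (n 0 z z))) (n 0 (n 0 z (n 0 z (n 0 z z))) (n 0 (n 0 z (n 0 z (n 0 z
 z))) (n 0 (n 0 z (n 0 z (n 0 z z))) (n 0 (n 0 z (n 0 z (n 0 z z))) (n 0 (n 0 z (n 0 z (n 0 z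
 z))) (n 0 (n 0 z (n 0 z (n 0 z z))) (n 0 (n 0 z (n 0 z (n 0 z z))) (n 0 (n 0 z (n 0 z (n 0 (n
 8663555 z (n 8663555 z z)) z))) z)))))))))))))))) (n 351 (n 0 (n 0 z (n 0 z (n 0 z z))) (n 0 (n
 0 z (n 0 z (n 0 z z))) (n 0 (n 0 z (n 0 z (n 0 z z))) (n 0 (n 0 z (n 0 z (n 0 z z))) (n 0 (n 0
 z (n 0 z (n 0 z z))) (n 0 (n 0 z (n 0 z (n 0 z z))) (n 0 (n 0 z (n 0 z (n 0 z z))) (n 0 (n 0 z
 (n 0 z (n 0 z z))) (n 0 (n 0 z (n 0 z (n 0 z z))) (n 0 (n 0 z (n 0 z (n 0 z z))) (n 0 (n 0 z (n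
 0 z (n 0 z z))) z))))))))))) (n 349 (n 0 (n 0 z (n 0 z (n 0 z z))) (n 0 (n 0 z (n 0 z (n 0 z
 z))) (n 0 (n 0 z (n 0 z (n 0 z z))) (n 0 (n 0 z (n 0 z (n 0 z z))) (n 0 (n 0 (n 8656651 z z) (n
 0 (n 0x50ea028738208207e08208207a08618208207df7e085f86082082182082082085f82085e81f85f85f8a00081
 z z) (n 0 (n
 0x30e4ea0c078208208208208208607e082082182082082082082082082082082082082082082081f8208200801 z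
 z) z))) (n 0 (n 0 z (n 0 z (n 0 z z))) (n 0 (n 0 z (n 0 z (n 0 z z))) (n 0 (n 0 z (n 0 z (n 0 z
 z))) (n 0 (n 0 z (n 0 z (n 0 z z))) (n 0 (n 0 z (n 0 z (n 0 z z))) (n 0 (n 0 z (n 0 z (n 0 z
 z))) (n 0 (n 0 z (n 0 z (n 0 z z))) (n 0 (n 0 z (n 0 z (n 0 z z))) (n 0 (n 0 (n 8589347 z z) (n
 0 (n 8589347 z z) (n 0 (n 8589347 z z) z))) (n 0 (n 0 (n 8848987 z (n 8848987 z z)) (n 0 (n
 0x1287681f8208208208207a08618218208207e08208608208217e08208207e082081f8218208608200041 z (n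
 0x30ed0c0a038208208208208207e08208208208208208208208208208208208208208208208208208208210801 z
 z)) (n 0 (n 8848987 z (n 8848987 z z)) z))) (n 0 (n 0 z (n 0 z (n 0 (n 8663555 z z) z))) (n 0
 (n 0 z (n 0 z (n 0 z z))) (n 0 (n 0 z (n 0 z (n 0 z z))) (n 0 (n 0 z (n 0 z (n 0 z z))) (n 0 (n
 0 (n 0x6105d418060000010ed0eca031021 z z) (n 0 (n 8591211 z z) (n 0 z z))) (n 0 (n 0 z (n 0 z
 (n 0 z z))) (n 0 (n 0 z (n 0 z (n 0 (n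
 0x30eb0e0c078607e17e082185f8218238237e17e07df7df86275f8217a08e07e08218207de7e185f85f8a00801 z
 z) z))) (n 0 (n 0 z (n 0 z (n 0 z z))) (n 0 (n 0 z (n 0 z (n 0 z z))) (n 0 (n 0 z (n 0 z (n 0 z
 z))) (n 0 (n 0 z (n 0 z (n 0 (n 8589347 z z) z))) (n 0 (n 0 (n
 0x10cb0ca0037e082086082082089f7e08208208208207e082082082085f8208607e082081f8208208218210801 z
 z) (n 0 (n 8591211 z z) (n 0 z z))) (n 0 (n 0 z (n 0 z (n 0 z z))) (n 0 (n 0 (n 8589347 z (n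
 8589347 z z)) (n 0 (n 8589347 z (n 8589347 z z)) (n 0 (n 8589347 z (n 8589347 z z)) z)))
 z))))))))))))))))))))))))))))) (n 436 (n 0 (n 0 z (n 0 z (n 0 z z))) (n 0 (n 0 z (n 0 z (n 0 z
 z))) (n 0 (n 0 z (n 0 z (n 0 z z))) (n 0 (n 0 z (n 0 z (n 0 z z))) (n 0 (n 0 z (n 0 z (n 0 z
 z))) (n 0 (n 0 z (n 0 z (n 0 z z))) (n 0 (n 0 z (n 0 z (n 0 z z))) (n 0 (n 0 z (n 0 z (n 0 z
 z))) (n 0 (n 0 z (n 0 z (n 0 z z))) (n 0 (n 0 z (n 0 z (n 0 z z))) (n 0 (n 0 z (n 0 z (n 0 z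
 z))) (n 0 (n 0 z (n 0 z (n 0 z z))) (n 0 (n 0 z (n 0 z (n 0 z z))) z))))))))))))) (n 5 (n 0 (n
 0 z (n 0 z (n 0 z z))) (n 0 (n 0 z (n 0 z (n 0 z z))) (n 0 (n 0 z (n 0 z (n 0 z z))) (n 0 (n 0
 z (n 0 z (n 0 z z))) (n 0 (n 0 z (n 0 z (n 0 z z))) (n 0 (n 0 z (n 0 z (n 0 z z))) (n 0 (n 0 z
 (n 0 z (n 0 z z))) (n 0 (n 0 z (n 0 z (n 0 (n 8663555 z z) z))) (n 0 (n 0 z (n 0 z (n 0 z z)))
 z))))))))) (n 473 (n 0 (n 0 z (n 0 z (n 0 z z))) (n 0 (n 0 (n 8724531 z z) (n 0 (n 8724531 z z)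
 (n 0 (n 8724531 z z) z))) (n 0 (n 0 z (n 0 z (n 0 z z))) (n 0 (n 0 z (n 0 z (n 0 z z))) z))))
 (n 459 (n 0 (n 0 z (n 0 z (n 0 z z))) (n 0 (n 0 (n 4393083 z z) (n 0 (n 8591211 z z) (n 0 (n
 3278971 z z) z))) (n 0 (n 0 z (n 0 z (n 0 z z))) (n 0 (n 0 z (n 0 z (n 0 z z))) (n 0 (n 0 z (n
 0 z (n 0 z z))) (n 0 (n 0 z (n 0 z (n 0 z z))) (n 0 (n 0 z (n 0 z (n 0 z z))) (n 0 (n 0 z (n 0
 z (n 0 z z))) z)))))))) (n 9 (n 0 (n 0 z (n 0 z (n 0 z z))) (n 0 (n 0 z (n 0 z (n 0 z z))) (n 0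
 (n 0 z (n 0 z (n 0 z z))) (n 0 (n 0 z (n 0 z (n 0 z z))) (n 0 (n 0 z (n 0 z (n 0 z z))) (n 0 (n
 0 z (n 0 z (n 0 z z))) (n 0 (n 0 z (n 0 z (n 0 z z))) (n 0 (n 0 z (n 0 z (n 0 z z))) (n 0 (n 0
 z (n 0 z (n 0 z z))) (n 0 (n 0 z (n 0 z (n 0 z z))) (n 0 (n 0 z (n 0 z (n 0 z z))) (n 0 (n 0 z
 (n 0 z (n 0 z z))) (n 0 (n 0 z (n 0 z (n 0 z z))) z))))))))))))) (n 3 (n 0 (n 0 z (n 0 z (n 0 z
 z))) (n 0 (n 0 z (n 0 z (n 0 z z))) (n 0 (n 0 (n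
 0x1865762401810e50c28078208208208208207e08208208208208208208208208208208208208208208208208208208211001
 z (n 8656651 z z)) (n 0 (n
 0x2195c850060438c38200c1751750403810e90e82037e085f8208207e18207e086082082082082082086082081f8208208208208208208208208202001
 z (n 0x1d8768e07618a06627a482479e86082189b85c8217677a482086291d81c7a775e7e27dd9207e195f0041 z
 z)) (n 0 (n
 0xa87181f8208208208207e08618208207e082081f8607e082082082082182182081f7e081f8608200041 z (n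
 0x2742850603810a8c842078608208208207e07df8208208208208208208208208208208208208208208208208208208201001
 z z)) z))) (n 0 (n 0 (n
 0xa8748208208208208207a08618608218207e08208208208207e08208208208208207e081f8208200041 z z) (n 0
 (n
 0x876876103810ed0e82078617e086082081f7a182082081f8608607e08617e08208608218208218208608217e08608611001
 z z) (n 0 z z))) (n 0 (n 0 (n 2164827 z z) (n 0 (n 2164827 z z) (n 0 z z))) (n 0 (n 0 z (n 0 z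
 (n 0 (n 0x128718208208208208207a08618618208208208208608208207e081f82082082085f7e08208608200041
 z z) z))) z)))))) (n 1 (n 0 (n 0 z (n 0 z (n 0 z z))) (n 0 (n 0 z (n 0 z (n 0 z z))) (n 0 (n 0
 z (n 0 z (n 0 z z))) (n 0 (n 0 z (n 0 z (n 0 z z))) (n 0 (n 0 z (n 0 z (n 0 z z))) (n 0 (n 0 z
 (n 0 z (n 0 z z))) (n 0 (n 0 z (n 0 z (n 0 z z))) (n 0 (n 0 z (n 0 z (n 0 z z))) (n 0 (n 0 z (n
 0 z (n 0 z z))) (n 0 (n 0 z (n 0 z (n 0 z z))) (n 0 (n 0 z (n 0 z (n 0 z z))) (n 0 (n 0 z (n 0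
 z (n 0 z z))) (n 0 (n 0 z (n 0 z (n 0 z z))) z))))))))))))) (n 351 (n 0 (n 0 z (n 0 z (n 0 z
 z))) (n 0 (n 0 z (n 0 z (n 0 z z))) (n 0 (n 0 z (n 0 z (n 0 z z))) (n 0 (n 0 z (n 0 z (n 0 z
 z))) z)))) (n 349 (n 0 (n 0 z (n 0 z (n 0 z z))) (n 0 (n 0 z (n 0 z (n 0 z z))) (n 0 (n 0 z (n
 0 z (n 0 z z))) z))) (n 9 (n 0 (n 0 z (n 0 z (n 0 z z))) (n 0 (n 0 z (n 0 z (n 0 z z))) (n 0 (n
 0 z (n 0 z (n 0 z z))) (n 0 (n 0 z (n 0 z (n 0 z z))) (n 0 (n 0 z (n 0 z (n 0 z z))) (n 0 (n 0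
 z (n 0 z (n 0 z z))) (n 0 (n 0 z (n 0 z (n 0 z z))) z))))))) (n 3 (n 0 (n 0 z (n 0 z (n 0 z
 z))) (n 0 (n 0 z (n 0 z (n 0 z z))) (n 0 (n 0 z (n 0 z (n 0 z z))) (n 0 (n 0 z (n 0 z (n 0 z
 z))) (n 0 (n 0 z (n 0 z (n 0 z z))) (n 0 (n 0 z (n 0 z (n 0 z z))) (n 0 (n 0 z (n 0 z (n 0 z
 z))) (n 0 (n 0 z (n 0 z (n 0 z z))) (n 0 (n 0 z (n 0 z (n 0 z z))) (n 0 (n 0 z (n 0 z (n 0 z
 z))) (n 0 (n 0 z (n 0 z (n 0 z z))) (n 0 (n 0 z (n 0 z (n 0 z z))) (n 0 (n 0 (n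
 0x50e90e0a03021d61d50060432ba9201c2853751401830a90a84079216a38a066176395a89e72485f89775b7a46629246668e59987dc8a86e071c6dfa2281ca232801
 z (n 8656651 z z)) (n 0 (n
 0x30eb0a280385f8208208208207e08608208208208208208208208208208208208208208208208208208200801 z
 (n 0x10eb0a28038607e08208208207e18618218208208207e082079f8207e08608208208207df7e08208208210801
 z z)) (n 0 (n 8783643 z (n
 0xb87482050380329328a01c0a1461410060b0a90a84071175486120382bb2bb0901c11951950406010a90a800375a16f9182809a817e686978928d9b844e8d7d7e6274736b8a8983858c7d8965a77f73b5776f859376596c95585d93778e844009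
 z z)) z))) z))))))))))))) (n 348 (n 0 (n 0 z (n 0 z (n 0 z z))) (n 0 (n 0 z (n 0 z (n 0 (n
 8855819 z z) z))) (n 0 (n 0 z (n 0 z (n 0 z z))) (n 0 (n 0 z (n 0 z (n 0 z z))) (n 0 (n 0 (n
 0xa43884e1c4650e2188717e279d7e085e8a082089a81f75895e86489f8e395f762a1d81c86389e72081d7a38969de8200101
 z (n 0xd8718a07a18a079f8208227e07df82081e8207df7627e482086089f7e07a48228217e07e071f85f0041 z
 z)) (n 0 (n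
 0x10e70e62078208208208208207a186082082082082082082082082081f8217e08208208208208208218200801 z
 (n 0x2e630c0a038208208208208208208208208208208207e08208208208208208208208208208208208208200801
 z z)) (n 0 z z))) (n 0 (n 0 z (n 0 z (n 0 z z))) (n 0 (n 0 (n
 0x1287081f8208208208207e086186082082082181f8608208207e181f82082086081f7e082081f8200041 z z) (n
 0 (n
 0xc39c29881c0854753103810cae642078617e18208208207e08617e182081f8207df8217df8207df8607e18218208207e185f8208201801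
 z z) (n 0 (n
 0x28708208208208208208208218208208207e08208608208217e18208208208208607e08208208600041 z z) z)))
 (n 0 (n 0 z (n 0 z (n 0 z z))) (n 0 (n 0 z (n 0 z (n 0 (n 8663555 z z) z))) (n 0 (n 0 z (n 0 z
 (n 0 z z))) (n 0 (n 0 z (n 0 z (n 0 z z))) (n 0 (n 0 z (n 0 z (n 0 z z))) (n 0 (n 0 (n 8855819
 z z) (n 0 (n 5380171 z z) (n 0 z z))) (n 0 (n 0 z (n 0 z (n 0 z z))) (n 0 (n 0 z (n 0 z (n 0 z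
 z))) (n 0 (n 0 (n 5380171 z (n 8783643 z z)) (n 0 (n 5380171 z (n 5380171 z z)) (n 0 (n 5380171
 z (n 5380171 z z)) z))) (n 0 (n 0 z (n 0 z (n 0 z z))) (n 0 (n 0 z (n 0 z (n 0 z z))) (n 0 (n 0
 z (n 0 z (n 0 z z))) (n 0 (n 0 z (n 0 z (n 0 z z))) (n 0 (n 0 (n 5449803 z z) (n 0 (n 5449803 z
 z) (n 0 z z))) (n 0 (n 0 z (n 0 z (n 0 z z))) (n 0 (n 0 z (n 0 z (n 0 z z))) (n 0 (n 0 (n
 0x128708208208208208207a08618618208208208208608208207e081f82082082085f7e08208608200041 z (n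
 8783643 z z)) (n 0 (n 7673963 z (n
 0x10eb0ea0037e17e08208207e081e86082182082082186185f82082081f8207e08217df7df8208608608210801 z
 z)) (n 0 z z))) (n 0 (n 0 z (n 0 z (n 0 z z))) (n 0 (n 0 z (n 0 z (n 0 z z))) (n 0 (n 0 (n
 8795403 z z) (n 0 (n 8795403 z z) (n 0 z z))) (n 0 (n 0 z (n 0 z (n 0 z z))) (n 0 (n 0 (n
 8783643 z z) (n 0 (n
 0x1287581f8208208208207a08618218207e08208208608208217e081f8207e18208208218208208200041 z z) (n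
 0 z z))) (n 0 (n 0 z (n 0 z (n 0 z z))) (n 0 (n 0 z (n 0 z (n 0 z z))) (n 0 (n 0 (n 8855819 z
 (n 8855819 z z)) (n 0 (n
 0xd8738a07a18a079f8208227e07df82081e8207df7627e482086089f7e07a48228217e07e071f85f0041 z (n
 8804155 z z)) (n 0 (n 8855819 z (n 8855819 z z)) z))) z)))))))))))))))))))))))))))))))) (n 0 (n
 0 (n 0 z (n 0 z (n 0 z z))) (n 0 (n 0 (n 8724531 z (n 8724531 z z)) (n 0 (n 8724531 z (n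
 8724531 z z)) (n 0 (n 8724531 z (n 8724531 z z)) z))) (n 0 (n 0 (n
 0xa43804e1c0650e0188707e279d7e085e8a082089a81f75895e86489f8e395f762a1d81c86389e72081d7a38969de8200101
 z (n 8656651 z z)) (n 0 (n 8860699 z (n 8860699 z z)) (n 0 z z))) (n 0 (n 0 (n 8855819 z (n
 8855819 z z)) (n 0 (n
 0xa87381f8208208208207e086186082082082082085f82082181f8208218208208208218208608200041 z (n
 0x30e8e8620781f8208208208208208208207e082082082082082082082082081f8208208208208208208210801 z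
 z)) (n 0 (n 8855819 z (n 8855819 z z)) z))) (n 0 (n 0 z (n 0 z (n 0 z z))) (n 0 (n 0 z (n 0 z
 (n 0 z z))) (n 0 (n 0 z (n 0 z (n 0 z z))) (n 0 (n 0 z (n 0 z (n 0 z z))) (n 0 (n 0 (n
 0x10870862037e08208208208208a07df8208208608207e08208208208208208208208208208208208218200801 z
 (n 8783643 z z)) (n 0 (n
 0x1287381f8208208208207e08618208608207e08208608208217e18208208218207e07a18608208600041 z (n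
 0x10e50628030821 z z)) (n 0 (n
 0x10870862037e08208208208208a07e08208208208207a08208208208208208208208208208208208208200801 z
 (n 0x10870862037e08208208207e08a07e082086082082081f8608208208208208208208208218208207e08200801
 z z)) z))) (n 0 (n 0 z (n 0 z (n 0 z z))) (n 0 (n 0 z (n 0 z (n 0 z z))) (n 0 (n 0 z (n 0 z (n
 0 z z))) (n 0 (n 0 z (n 0 z (n 0 z z))) (n 0 (n 0 (n 8724531 z z) (n 0 (n 8724531 z z) (n 0 z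
 z))) (n 0 (n 0 z (n 0 z (n 0 z z))) (n 0 (n 0 (n 8724531 z z) (n 0 (n 8724531 z z) (n 0 (n
 8724531 z z) z))) z)))))))))))))))) z))))))))))))))))))))) z)))) z) z)))) (n
 0x58c9a2b2e511d6a87357412e2b032e4958714ac88592e012b2c0 (n 0 (n 455 (n 6492195 z (n 2 z (n
 6627379 z (n 10 z (n 0 z (n 0 z (n 0 z z))))))) (n 451 (n 0 z (n 0 z (n 18 z (n 0 z (n 6492195
 z (n 0 z (n 0 z (n 0 z (n 0 z (n 0 z z)))))))))) (n 450 (n 6627379 z (n 0 z (n 0 z (n 26 z (n 0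
 z (n 0 z (n 0 z (n 0 z (n 0 z (n 0 z z)))))))))) (n 3 (n 0 z (n 6492195 z (n 0 z (n 0 z (n 0 z
 (n 0 z (n 0 z (n 0 z (n 0 z (n 0 z (n 0 z (n 0 z z)))))))))))) (n 1 (n 2164299 z (n 0 z (n 34 z
 z))) (n 0 (n 42 z (n 6627379 z (n 6627379 z (n 6627379 z (n 0 z (n 6627379 z (n 50 z (n 6627379
 z (n 58 z (n 0 z (n 66 z (n 74 z (n
 0xec84c840038b597bc13dc06a787874a08d728c89488b7977b471a36e9a6d607fac916f82844186719877974191a9889b9a648d50bc8a770809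
 z z))))))))))))) z)))))) (n 1 (n 0 (n 0 z (n 909 (n 0 z (n 0 z (n 0 z (n 0 z (n 0 z (n 0 z (n 0
 z (n 0 z (n 0 z (n 0 z z)))))))))) (n 901 (n 0 z (n 0 z (n 0 z (n 0 z (n 0 z (n 0 z (n 0 z
 z))))))) (n 495 (n 0 z (n 0 z (n 0 z (n 0 z (n 0 z (n 0 z (n 0 z z))))))) (n 493 (n 2 (n 0 z (n
 0 z (n 0 z (n 0 z z)))) (n 0 z (n 0 z (n 0 z (n 0 z (n 0 z (n 0 z (n 0 z (n 0 z (n 0 z (n 0 z
 (n 0 z z)))))))))))) (n 493 (n 0 z (n 0 z (n 0 z (n 0 z (n 0 z (n 0 z (n 0 z (n 0 z (n 0 z (n 0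
 z (n 0 z (n 0 z z)))))))))))) (n 493 (n 0 z (n 0 z (n 0 z (n 0 z (n 0 z (n 0 z (n 0 z (n 0 z (n
 0 z (n 0 z (n 0 z (n 0 z z)))))))))))) (n 493 (n 0 z (n 0 z (n 0 z (n 0 z (n 0 z (n 0 z (n 0 z
 (n 0 z (n 0 z (n 0 z (n 0 z (n 0 z z)))))))))))) (n 493 (n 0 z (n 0 z (n 0 z (n 0 z (n 0 z (n 0
 z (n 0 z (n 0 z (n 2 z (n 0 z (n 0 z (n 0 z z)))))))))))) z))))))))) (n 0 (n 875 (n 2 (n 2 (n 0
 z (n 0 z (n 0 z (n 0 z (n 0 z (n 0 z z)))))) (n 2 (n 0 z (n 0 z (n 0 z (n 0 z (n 0 z (n 0 z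
 z)))))) (n 2 (n 0 z (n 0 z (n 0 z (n 0 z (n 0 z (n 0 z z)))))) (n 2 (n 0 z (n 0 z (n 0 z (n 0 z
 (n 0 z (n 0 z z)))))) (n 2 (n 0 z (n 0 z (n 0 z (n 0 z (n 0 z (n 0 z z)))))) (n 2 (n 0 z (n 0 z
 (n 0 z (n 0 z (n 0 z (n 0 z z)))))) (n 2 (n 0 z (n 0 z (n 0 z (n 0 z (n 0 z (n 0 z z))))))
 z))))))) (n 0 z (n 0 z (n 0 z (n 0 z (n 0 z (n 0 z (n 0 z (n 0 z (n 0 z (n 0 z (n 0 z (n 0 z (n
 0 z (n 0 z (n 0 z (n 0 z (n 0 z (n 0 z (n 0 z (n 0 z (n 0 z (n 0 z (n 0 z (n 0 z (n 0 z (n 0 z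
 (n 0 z z)))))))))))))))))))))))))))) (n 873 (n 0 z (n 0 z (n 2 (n 1 z (n 2 (n 0 z (n 0 z (n 0 z
 (n 0 z (n 0 z (n 0 (n 8803387 z z) z)))))) (n 1 z (n 1 z (n 1 z (n 2 (n 0 z (n 0 z (n 0 z (n 0
 z (n 0 z (n 0 z z)))))) z)))))) (n 0 z (n 0 z z))))) (n 741 (n 0 z (n 0 z (n 0 z (n 2 (n 1 z (n
 1 z (n 1 z (n 1 z (n 2 (n 0 z (n 0 z (n 0 z (n 0 z (n 0 z (n 0 (n 2996 z z) z)))))) z))))) (n 0
 z (n 0 z (n 0 z z))))))) (n 749 (n 0 z (n 0 z (n 0 z (n 0 z (n 0 z (n 0 z (n 0 z (n 0 z (n 0 z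
 (n 0 z (n 0 z (n 0 z (n 0 z z))))))))))))) (n 749 (n 0 z (n 0 z (n 0 z (n 0 z (n 0 z (n 0 z (n
 2 (n 0 z (n 0 z (n 0 z z))) (n 0 z (n 0 z (n 0 z (n 0 z (n 0 z (n 0 z z))))))))))))) (n 749 (n
 0 z (n 0 z (n 0 z (n 0 z (n 0 z (n 0 z (n 0 z (n 0 z (n 0 z (n 0 z (n 0 z (n 0 z (n 0 z
 z))))))))))))) (n 749 (n 0 z (n 0 z (n 0 z (n 2 (n 0 z z) (n 0 z (n 0 z (n 0 z (n 0 z (n 0 z (n
 0 z (n 0 z (n 0 z (n 0 z z))))))))))))) (n 749 (n 0 z (n 0 z (n 0 z (n 0 z (n 0 z (n 0 z (n 0 z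
 (n 0 z (n 0 z (n 0 z (n 0 z (n 0 z (n 0 z z))))))))))))) z)))))))) (n 0 (n 901 (n 0 z (n 0 z (n
 0 z (n 0 z (n 0 z (n 0 z z)))))) (n 543 (n 0 z (n 0 z (n 0 z (n 0 z (n 0 z (n 0 z (n 0 z (n 0 z
 z)))))))) (n 869 (n 0 z (n 0 z (n 0 z (n 0 z (n 0 z (n 0 z (n 0 z (n 0 z (n 0 z (n 0 z (n 0 z
 (n 0 z (n 0 z (n 0 z (n 0 z (n 0 z (n 0 z (n 0 z (n 0 z (n 0 z (n 0 z (n 0 z (n 2 (n 0 z (n 0 z
 (n 0 z (n 0 z z)))) (n 0 z (n 0 z (n 0 z (n 0 z (n 0 z (n 0 z (n 0 z (n 0 z (n 0 z (n 0 z (n 0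
 z (n 0 z (n 0 z (n 0 z (n 0 z (n 0 z (n 0 z (n 0 z (n 0 z (n 0 z (n 0 z (n 0 z (n 0 z
 z)))))))))))))))))))))))))))))))))))))))))))))) (n 869 (n 0 z (n 0 z (n 0 z (n 0 z (n 0 z (n 0
 z (n 0 z (n 0 z (n 0 z (n 0 z (n 0 z (n 0 z (n 0 z (n 0 z (n 0 z (n 0 z (n 0 z (n 0 z (n 0 z (n
 0 z (n 0 z (n 0 z (n 0 z (n 0 z (n 0 z (n 0 z (n 0 z (n 0 z (n 0 z (n 0 z (n 0 z (n 0 z (n 0 z
 (n 0 z (n 0 z (n 0 z (n 0 z (n 0 z (n 0 z (n 0 z (n 0 z (n 0 z (n 0 z (n 0 z (n 0 z (n 0 z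
 z)))))))))))))))))))))))))))))))))))))))))))))) (n 869 (n 0 z (n 0 z (n 0 z (n 0 z (n 0 z (n 0
 z (n 0 z (n 0 z (n 0 z (n 0 z (n 0 z (n 0 z (n 0 z (n 0 z (n 0 z (n 0 z (n 0 z (n 0 z (n 0 z (n
 0 z (n 0 z (n 0 z (n 0 z (n 0 z (n 0 z (n 0 z (n 0 z (n 0 z (n 0 z (n 0 z (n 0 z (n 0 z (n 0 z
 (n 0 z (n 0 z (n 0 z (n 0 z (n 0 z (n 0 z (n 0 z (n 0 z (n 0 z (n 0 z (n 0 z (n 0 z (n 0 z
 z)))))))))))))))))))))))))))))))))))))))))))))) (n 869 (n 0 z (n 0 z (n 0 z (n 0 z (n 0 z (n 0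
 z (n 0 z (n 0 z (n 0 z (n 0 z (n 0 z (n 0 z (n 0 z (n 0 z (n 0 z (n 0 z (n 0 z (n 0 z (n 0 z (n
 0 z (n 0 z (n 0 z (n 0 z (n 0 z (n 0 z (n 0 z (n 0 z (n 0 z (n 0 z (n 0 z (n 0 z (n 0 z (n 0 z
 (n 0 z (n 0 z (n 0 z (n 0 z (n 0 z (n 0 z (n 0 z (n 0 z (n 0 z (n 0 z (n 0 z (n 0 z (n 0 z
 z)))))))))))))))))))))))))))))))))))))))))))))) (n 869 (n 0 z (n 0 z (n 0 z (n 0 z (n 0 z (n 0
 z (n 0 z (n 0 z (n 0 z (n 0 z (n 0 z (n 0 z (n 0 z (n 0 z (n 0 z (n 0 z (n 0 z (n 0 z (n 0 z (n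
 0 z (n 0 z (n 2 z (n 0 z (n 0 z (n 0 z (n 0 z (n 0 z (n 0 z (n 0 z (n 0 z (n 0 z (n 0 z (n 0 z
 (n 0 z (n 0 z (n 0 z (n 0 z (n 0 z (n 0 z (n 0 z (n 0 z (n 0 z (n 0 z (n 0 z (n 0 z (n 0 z
 z)))))))))))))))))))))))))))))))))))))))))))))) z))))))) (n 0 (n 15 (n 0 z (n 0 z (n 0 z (n 0 z
 (n 0 z (n 0 z (n 0 z (n 0 z (n 0 z (n 0 z z)))))))))) (n 865 (n 0 z (n 0 z (n 0 z (n 0 z (n 0 z
 (n 0 z (n 2 (n 0 z (n 0 z (n 0 z (n 0 z z)))) (n 0 z (n 0 z (n 0 z (n 0 z z))))))))))) (n 865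
 (n 0 z (n 0 z (n 0 z (n 0 z (n 0 z (n 0 z (n 0 z (n 0 z (n 0 z (n
 0xe82e60c03807f80807f808180818080817f81807f7f827f8180817f7f7f7e7f8083807d818080807e80818281808180807e80808180800809
 z (n 0 z z))))))))))) (n 865 (n 0 z (n 0 z (n 0 z (n 0 z (n 0 z (n 0 z (n 0 z (n 7742235 z (n 0
 z (n 0 z (n 0 z z))))))))))) (n 865 (n 0 z (n 0 z (n 0 z (n 0 z (n 0 z (n 0 z (n 0 z (n 0 z (n
 0 z (n 0 z (n 0 z z))))))))))) (n 865 (n 0 z (n 0 z (n 0 z (n 0 z (n 0 z (n 2 z (n 0 z (n 0 z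
 (n 0 z (n 0 z (n 0 z z))))))))))) z)))))) (n 0 (n 1 (n 0 z (n 0 z (n 0 z (n 0 z (n 0 z (n 2 (n
 0 z (n 0 z (n 0 z (n 0 z z)))) (n 0 z (n 0 z (n 0 z (n 0 z (n 0 z (n 0 z (n 0 z (n
 0x35bb103a76284878a7a768071946a7e7b788487728b80798271927b87788a758b7878917e8e80747d6d8b777e816e868188846e9586847b0089
 z (n 0 z (n 0 z (n 0 z (n 0 z (n 0 z (n 0 z (n 0 z (n 0 z (n 0 z (n 0 z (n 0 z (n 0 z (n 0 z (n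
 0 z (n 0 z z))))))))))))))))))))))))))))) (n 1 (n 0 z (n 0 z (n 0 z (n 0 z (n 0 z (n 0 z (n 0 z
 (n 0 z (n 0 z (n 0 z (n 0 z (n 0 z (n 0 z (n 0 z (n 0 z (n 0 z (n 0 z (n 0 z (n 0 z (n 0 z (n 0
 z (n 0 z (n 0 z (n 0 z (n 0 z (n 0 z (n 0 z (n 0 z (n 0 z z))))))))))))))))))))))))))))) (n 1
 (n 0 z (n 0 z (n 0 z (n 0 z (n 0 z (n 0 z (n 0 z (n 0 z (n 0 z (n 0 z (n 0 z (n 0 z (n 0 z (n 0
 z (n 0 z (n 0 z (n 0 z (n 0 z (n 0 z (n 0 z (n 0 z (n 0 z (n 0 z (n 0 z (n 0 z (n 0 z (n 0 z (n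
 0 z (n 0 z z))))))))))))))))))))))))))))) (n 1 (n 0 z (n 0 z (n 0 z (n 0 z (n 0 z (n 0 z (n 0 z
 (n 0 z (n 0 z (n 0 z (n 0 z (n 0 z (n 0 z (n 0 z (n 0 z (n 0 z (n 0 z (n 0 z (n 0 z (n 0 z (n 0
 z (n 0 z (n 0 z (n 0 z (n 0 z (n 0 z (n 0 z (n 0 z (n 0 z z))))))))))))))))))))))))))))) (n 1
 (n 0 z (n 0 z (n 0 z (n 0 z (n 0 z (n 0 z (n 0 z (n 0 z (n 0 z (n 0 z (n 2 z (n 0 z (n 0 z (n 0
 z (n 0 z (n 0 z (n 0 z (n 0 z (n 0 z (n 0 z (n 0 z (n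
 0x35bb083a76184878a7a768071946a7e7b788487728b80798271927b87788a758b7878917e8e80747d6d8b777e816e868188846e9586847b0089
 z (n 0 z (n 0 z (n 0 z (n 0 z (n 0 z (n 0 z (n 0 z z))))))))))))))))))))))))))))) z))))) (n 0
 (n 0 z (n 0 z (n 0 z (n 0 z z)))) (n 0 (n 0 z (n 0 z (n 0 z z))) (n 0 (n 0 z (n 0 z z)) (n 0 (n
 0 z z) (n 0 z z)))))))))) (n 0 (n 1 (n 2164299 z (n 2164299 z (n 2164299 z (n 2164299 z (n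
 2164299 z (n 2164299 z z)))))) (n 0 z (n 1 (n 3644 z (n 3644 z (n 3644 z (n 3644 z (n 28 z (n
 3644 z z)))))) z))) (n 0 z z)))) (n 0xc6175a20a599a3197108c460a6ea580e6300 (n 0 (n 177 (n 0 z
 (n 0 z (n 0 z (n 0 z (n 0 z (n 0 z (n 2 z (n 0 z (n 0 z (n 0 z (n 10 z (n 0 z (n 6561843 z
 z))))))))))))) (n 249 (n 0 z (n 0 z (n 0 z (n 0 z (n 0 z (n 0 z (n 0 z (n 0 z (n 18 z (n 0 z (n
 0 z (n 0 z (n 26 z (n 0 z (n 0 z (n 0 z (n 0 z (n 34 z (n 3278363 z (n 0 z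
 z)))))))))))))))))))) (n 171 (n 0 z (n
 0x2ca6a6200781f8207df8608208208208208218207e08218208208208208208208208208208208208207e10801 z
 (n 0xeca6a86007845dd46cead79637db79f95885899ba5d8718a08e76e39e551d85e52251b7df9a392b721c1d0801
 z (n 0 z (n 6561843 z (n 42 z (n 0 z (n 6561843 z (n
 0x6ca6a6200781f7e07df86082082082086082181f8208228608218218208208208208208608207e08208210801 z
 (n 0 z (n 0 z (n 0 z (n 0 z (n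
 0x64365010380c86ca20038217df79f86082082081f8618217df7df86186186082081f8208207e08207e08607e18208201001
 z (n 6561843 z z))))))))))))))) (n 27 (n 0 z (n 0 z (n 6636323 z (n 0 z z)))) (n 1 (n 6636323 z
 (n 0 z z)) (n 0 (n 0 z (n 0 z (n 6636323 z (n 0 z (n 0 z (n 0 z (n 0 z (n 50 z (n 0 z
 z))))))))) z)))))) (n 1 (n 0 (n 0 z (n 527 (n 0 z (n 0 z (n 0 z (n 0 z (n 0 z (n 0 z z)))))) (n
 527 (n 0 z (n 0 z (n 0 z (n 0 z (n 0 z (n 0 z z)))))) (n 527 (n 0 z (n 0 z (n 0 z (n 0 z (n 0 z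
 (n 0 z z)))))) (n 1401 (n 0 z (n 2 (n 1 z z) (n 0 z (n 0 z (n 0 z (n 0 z (n 0 z (n 0 z (n 0 z
 (n 0 z (n 0 z (n 0 z (n 0 z (n 0 z (n 0 z (n 0 z (n 0 z (n 0 z (n 0 z (n 0 z (n 0 z (n 0 z
 z)))))))))))))))))))))) (n 353 (n 0 z (n 0 z (n 0 z (n 0 z (n 0 z (n 0 z (n 0 z (n 0 z (n 0 z
 z))))))))) z)))))) (n 0 (n 1185 (n 0 z (n 0 z (n 0 z (n 0 z (n 0 z (n 0 z (n 0 z z))))))) (n
 1185 (n 0 z (n 0 z (n 0 z (n 0 z (n 0 z (n 0 z (n 0 z z))))))) (n 1185 (n 0 z (n 0 z (n 0 z (n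
 0 z (n 0 z (n 0 z (n 0 z z))))))) (n 795 (n 0 z (n 0 z (n 0 z (n 0 z (n 0 z (n 0 z (n 0 z (n 0
 z (n 0 z (n 0 z (n 2 (n 1 z z) (n 0 z z)))))))))))) (n 481 (n 0 z (n 0 z (n 0 z (n 0 z (n 0 z
 (n 0 z (n 2 z z))))))) z))))) (n 0 (n 0 z (n 0 z (n 369 (n 0 z (n 0 z (n 0 z (n 0 z (n 0 z (n 0
 z (n 0 z (n 0 z (n 0 z (n 0 z (n 0 z (n 0 z (n 0 z (n 0 z (n 0 z (n 0 z (n 0 z
 z))))))))))))))))) (n 365 (n 0 z (n 0 z (n 2 z (n 0 z (n 0 z (n 0 z z)))))) z)))) (n 0 (n 0 z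
 (n 1193 (n 0 z (n 0 z (n 0 z (n 0 z (n 0 z (n 0 z (n 0 z (n 0 z z)))))))) (n 481 (n 0 z (n 0 z
 (n 0 z (n 0 z (n 0 z (n 0 z z)))))) z))) (n 0 (n 795 (n 0 z (n 0 z (n 0 z (n 0 z (n 0 z (n 0 z
 (n 0 z (n 0 z (n 0 z (n 0 z (n 0 z (n 0 z (n 0 z (n 0 z (n 0 z z))))))))))))))) (n 797 (n 0 z
 (n 0 z (n 0 z (n 0 z (n 0 z (n 0 z (n 0 z (n 0 z (n 0 z (n 0 z (n 0 z (n 0 z (n 0 z (n 0 z (n 0
 z (n 0 z (n 0 z (n 0 z (n 0 z (n 0 z z)))))))))))))))))))) z)) (n 0 (n 301 (n 0 z (n 0 z (n 0 z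
 (n 0 z (n 0 z (n 0 z (n 0 z (n 0 z (n 0 z (n 0 z (n 0 z z))))))))))) z) (n 0 z z))))))) (n 0 (n
 1 (n 6636323 z (n 6636323 z (n 6636323 z (n 6636323 z (n 6636323 z (n 6636323 z z)))))) (n 0 z
 z)) (n 0 z z)))) (n 0x65aba2445d60e8e621e8ca0e26cd15a (n 0 (n 279 (n 0 z (n 6557731 z z)) (n
 255 (n 0 z (n 6496515 z z)) (n 9 (n 0 z (n 0 z (n 0 z (n 2 z (n 6496515 z z))))) (n 243 (n 10 z
 (n 6496515 z (n 0 z (n 0 z (n 18 z z))))) (n 1 (n 0 z (n 26 z (n 6557731 z (n 0 z (n 0 z z)))))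
 (n 0 (n
 0x8b6207ff7f08017df7ec7f87f07f681e80280b8078028188028078017fa80b7fb7fb7f88038027f47da7ec7fa7fc80180480f81481d8077de81381980c80082b7e38057e77fd7f57f18007ff7f00051
 z (n 0xc86c642078207e28218207a182081d82082081f89f8208618208207e085d7df81e8207637e18228608200801
 z (n 0 z (n 0 z (n
 0x8c86c642078218229218267277216176e18e371f79d5e486d81e8a27217da75e8d87203e971e6a2b228220801 z
 (n 0x2ca886020385e82082182085f7df7e27a282076082181e8a081f8227e082081f85f82085f8207e18218200801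
 z (n
 0x2c86c862037a475b89f8df7e47a381c71d91f75f95e86182582171d89e89a85e8a176066781f7e18a181e0801 z
 (n 0x8c86c8620362194e899a14cd79178a67ee8589215656615d67d76ec7638f0764927a20d8dadb70e62a8190801
 z (n 0 z (n 0 z (n
 0x2c86c862037e081f86089e89e81f7df7e286085e85f7e082281c7e375f8218208218208208607e07a27e10801 z
 (n 2164315 z (n 34 z (n 0 z (n 0 z (n 0 z (n 0 z (n 0 z (n 0 z (n
 0x6c84c8260371e6d371b8dcaa48a671e92681e79a85b82481a55c9a3865b6478f92096082485c6638e08990801 z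
 (n 0 z (n 0 z (n
 0x1cc84c826037fe81a7ef80180e8088068067ed80b7f38047ff7ec7fe7f68018067fb7fb8157fb8047fa80b8218018017fd8007fc7f47f27f07fb7ff7f67f77f18007d58267f68057f182080c7fb7fd8090811
 z (n
 0x2c86c8620372079979d91d8a282281d8a281f81d99e8a181e71e7e182091f81b86182076585e7a37e185e0801 z
 (n 0x2c86c8620372079979d91d8a282281d8a281f81d99e8a181e71e7e182091f81b86182076585e7a37e185e0801
 z (n 0 z (n 0 z (n 0 z (n 0 z (n 0 z (n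
 0xc86c8620379f85b82085f89e7df82186086275f7e27a279b7dc7e272199e8df9217e085f89d7dc8a57610801 z (n
 0x42ca88206077ec7e68127d77fc83d7fd7c98187c27f07f780383a7f07cd8368397b78017eb81d7b987e7c57ad7e17d880380c78f7f28cb79389680384c81e8078008137da8017e78427738648667648290811
 z (n
 0x10c84c826037f67fd8037de7fc7f28087f58107fd8048007f98118018148037fe7f980d7e97fd7e78127f17f67f27eb8018117f980980e81680280480a80d8088008137e98137ee7f87de7fb8138027f90811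
 z (n
 0x4c86c802038ed65fc25ad97de66a6da250be352e7a262287baa95939187149f18215e03228609d7b655a50801 z
 (n 42 z (n 0 z (n 0 z (n 0 z (n 3282523 z (n
 0x8c86c8620355690571b895ba399e7a892f85eadd69662b4d358f7f04a2aef9d796faa0c1989551972971d0801 z
 (n 0 z (n 0 z (n 0 z (n 0 z (n 0 z (n
 0xc86c862037e07dc8a185e8607e17e075e8e27a281f7e17e181f79f79f89e8e08a18207e181e81f8a27610801 z (n
 0 z (n 0 z (n
 0x4c86c862037e285d9a57e081d65f85e515b27898b9e7dc6ec95d49b617993b27aa86a079f85a8de82956a0801 z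
 z))))))))))))))))))))))))))))))))))))))))))))))))) z)))))) (n 279 (n 0 (n 27 (n 2 (n 0 z (n 1 z
 (n 1 z (n 1 z z)))) (n 0 z (n 0 z (n 0 z (n 0 z (n 0 z (n 0 z z))))))) (n 27 (n 0 z (n 0 z (n 0
 z (n 0 z (n 0 z (n 0 z (n 2 (n 1 z (n 1 z (n 1 z z))) z))))))) (n 105 (n 0 z (n 0 z (n 0 z (n 0
 z (n 0 z (n 0 z z)))))) (n 17 (n 0 z (n 0 z (n 0 z (n 0 z (n 0 z z))))) (n 17 (n 0 z (n 0 z (n
 0 z (n 0 z (n 0 z z))))) z))))) (n 0 (n 0 z (n 51 (n 2 (n 1 z (n 2 (n 0 z (n 0 (n 1940 z z) (n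
 0 z (n 0 (n 6424699 z z) (n 0 (n 1940 z (n 1940 z z)) (n 0 z z)))))) z)) (n 0 z (n 0 z (n 0 z
 (n 0 z (n 0 z (n 0 z z))))))) (n 485 (n 0 z (n 0 z (n 0 z (n 0 z (n 0 z (n 0 z (n 0 z (n 0 z (n
 0 z (n 0 z (n 0 z (n 0 z (n 0 z (n 0 z (n 0 z (n 0 z (n 0 z (n 0 z (n 0 z (n 0 z (n 0 z (n 0 z
 (n 0 z (n 0 z (n 0 z (n 0 z (n 0 z (n 0 z (n 0 z (n 0 z (n 0 z (n 0 z (n 0 z (n 0 z (n 0 z (n 0
 z (n 0 z (n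
 0x8ea8c862078198007f782d8078037f380e7ec8037fd8027f97e87ff80f8037f17f37f180e7f380580981182f7fc8078118088027ef8107da7fe8027f77f07f48007cb81c7f58207fc7fa8197fc8057fb0811
 z (n 0 z (n 0 z (n 0 z (n 0 z (n 0 z (n 0 z (n 0 z (n 0 z (n 0 z (n 0 z (n
 0x4ea8c86207b5e73b8e566455b91f7148278d76da91d8a6a2e863a6781e98f7de6947603e872fa5da1e95f0801 z
 (n 0 z (n 0 z (n 0 z (n 0 z (n 0 z (n 0 z (n 0 z
 z)))))))))))))))))))))))))))))))))))))))))))))))))))))))) (n 485 (n 0 z (n 0 z (n 0 z (n 0 z (n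
 0 z (n 0 z (n 0 z (n 0 z (n 0 z (n 0 z (n 0 z (n 0 z (n 0 z (n 0 z (n 0 z (n 0 z (n 0 z (n 0 z
 (n 0 z (n 0 z (n 0 z (n 0 z (n 0 z (n 0 z (n 0 z (n 0 z (n 0 z (n 0 z (n 0 z (n 0 z (n 0 z (n 0
 z (n 0 z (n 0 z (n 0 z (n 0 z (n 0 z (n 0 z (n 0 z (n 0 z (n 0 z (n 0 z (n 0 z (n 0 z (n 0 z (n
 0 z (n 0 z (n 0 z (n 0 z (n 0 z (n 0 z (n 0 z (n 0 z (n 0 z (n 0 z (n 0 z
 z)))))))))))))))))))))))))))))))))))))))))))))))))))))))) z)))) (n 0 (n 483 (n 0 z (n 0 z (n 0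
 z (n 0 z (n 0 z (n 0 z (n 0 z (n 0 z (n 0 z (n 0 z (n 0 z (n 0 z (n 0 z (n 0 z z))))))))))))))
 (n 485 (n 0 z (n 0 z (n 0 z (n 0 z (n 0 z (n 0 z (n 0 z z))))))) (n 485 (n 0 z (n 0 z (n 0 z (n
 0 z (n 0 z (n 0 z (n 0 z z))))))) z))) (n 0 (n 1 (n 0 z (n 0 z (n 0 z (n 0 z (n 0 z (n 0 z (n 0
 z z))))))) (n 1 (n 0 z (n 2 z (n 0 z (n 0 z (n 0 z (n 0 z (n 0 z z))))))) z)) (n 0 (n 0 z z) (n
 0 z z)))))) (n 0 (n 0 z (n 1 (n 6496515 z (n 6557731 z (n 6557731 z (n 6557731 z (n 6557731 z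
 (n 6557731 z z)))))) z)) (n 0 z z)))) (n 0x19a8ee0d473215c7b3500 (n 0 (n 153 (n 0 z (n 3282443
 z (n 0 z (n 0 z (n 0 z (n 0 z (n 0 z (n 2 z z)))))))) (n 59 (n 6496515 z (n 0 z (n 0 z (n 0 z
 (n 0 z (n 0 z (n 0 z (n 0 z (n 0 z (n 0 z (n 0 z (n 0 z (n 0 z z))))))))))))) (n 53 (n 0 z (n
 6496515 z (n 0 z z))) (n 3 (n 6496515 z (n 0 z (n 0 z (n 0 z (n 0 z (n 0 z (n 10 z (n 0 z
 z)))))))) (n 49 (n 0 z (n 0 z (n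
 0xc64a642038208208208207e08208208208208208608208617e18207e181e7df89f7e07e28207e08618200801 z (n
 6566419 z (n 18 z (n 6566419 z (n 0 z z))))))) (n 0 (n 0 z (n 0 z (n 6627635 z (n
 0xc648642038208208208207e08208208208208208608208617e18207e181e7df89f7e07e28207e08618200801 z (n
 6627635 z (n 26 z (n 0 z z))))))) z)))))) (n 53 (n 0 (n 321 (n 0 z (n 0 z (n 0 z (n 0 z (n 0 z
 (n 0 z (n 0 z (n 0 z (n 0 z (n 0 z (n 0 z (n 0 z z)))))))))))) (n 789 (n 0 z (n 0 z (n 0 z (n 0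
 z (n 0 z (n 0 z (n 0 z (n 0 z z)))))))) (n 589 (n 0 z (n 0 z (n 0 z (n 0 z (n 0 z (n 0 z (n 0 z
 (n 0 z z)))))))) z))) (n 0 (n 9 (n 0 z (n 0 z (n 0 z (n 0 z (n 0 z (n 0 z (n 0 z (n 0 z (n 0 z
 (n 0 z (n 0 z (n 0 z z)))))))))))) (n 5 (n 0 z (n 0 z (n 0 z (n 0 z (n 0 z (n 0 z (n 0 z (n 0 z
 (n 0 z (n 0 z (n 0 z (n 0 z z)))))))))))) z)) (n 0 (n 61 (n 0 z (n 0 z (n 0 z (n 0 z (n 0 z (n
 0 z (n 0 z z))))))) z) (n 0 z z)))) (n 0 (n 0 z (n 1 (n 6496515 z (n 6496515 z (n 6496515 z (n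
 6496515 z (n 6496515 z (n 6496515 z z)))))) (n 0 z z))) (n 0 z z)))) z)))))))))),
 by decide +kernel⟩
theorem i10526 : ∃ t, chkR KT RW t 10526 10536 = true := ⟨(n 0x5553a13755 (n 0 (n 153 (n
 0x1b29b29200c00194d945006002a64ca2803000654654303801b29328981c019505940c06004ca8ca8203003653642103801b212a1081c00aa1000094208078058037f78027fd8038027ff7fa7fd8028027fe7fc8047fd7f780680b7fc8168028107ea8017f58037fe7fa8018067fb7f57fa8098057fb7f08187fe7fd8057fd80b80480080d7fd7f84891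
 z (n 0 z (n 0 z (n 3282443 z (n 0 z (n
 0x1aca8a8260300364254130380032a32a101c00595150c40e002ca8a842037fc7fc80f8047fa7f77f08018097f97ff8058027ff8088057f27f980a8087f88198048007f78047df7ff7f97f28067fe8097fa7fb7fa8098007e680a7f780a8037f581480e8088008048042811
 z (n 0 z (n
 0xd8c994500e00eca6a428030023216504038002a1328180c00d94d50c80e004c86c8240700065465410380032a2a1881c025909908406002ca88642037f87fa80a8057f97fb7ec8008137dc81c8027fc7e77fe80b8067f78168087f08267f48167e47f27e581080c7f580f7ff7f17fe7e58078087fb7e88178128038117eb7ec8047f58057fd7fe5011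
 z (n
 0x6653652401800b29b28a00c02195194c80e006ca6a824077d77f683381a7ec7e37da7ff8277d68148148037ef7f781480e7f383182d7fa8267f17fe7f782177e7f48177d080b7b37ec7f47c981081c7fe8038107ee8278217db8318057f77c980e7fd2011
 z z))))))))) (n 375 (n 0 z (n 0 z (n 0 z (n 6496515 z (n 0 z (n 0 z z)))))) (n 51 (n 0 z (n 0 z
 (n 0 z (n 6496515 z (n 0 z (n 0 z z)))))) (n 245 (n 6496515 z (n 0 z (n 0 z (n 0 z (n
 0x280231285780140118941bc00a008c4a15601300462508b010802312835804c01189412c00a008c4a14a00900462506700d002312812807c01189428c03e008c4a0c67ea7e67f281a8407da7e380780985a80282b8067f27da7e77f57f982781781a7e88007e780a8328317857f27ed7857ea80e7ff83b80c7e97d280a82d7dd7f37d286d80b82a7d87d28338325811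
 z (n 0 z (n
 0x2ca2ca0807000654654203800b2a328901c009951904806002c82ca0407000654542101800b21328081c00d8c950400e008c42c420037fc8018078037fc7fc7f87fe80a7f18068058017f88028077fb7fe8078037f880c8068067f28017ed80b8037fa8037fc8037ff7f97fc8077fe7fe80d8008058077f88007ff7fd7fc7fe8004811
 z (n
 0x265465410180432a328080c00195195000e016ca6a820077f680080d8097fc7fb7f67f78097f580480d7fe7f77fe8048047fa7ff80f7fc8068057ff7ff8117f18027f17f780d7ed80f80b7f87ff80080d8097f77f18168128028048038097f37fe8012011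
 z z)))))))) (n 1 (n 0 z (n 0 z (n 0 z (n 0 z (n 0 z (n 2164299 z (n 0 z z))))))) (n 0 (n 0 z (n
 2 z (n 0 z (n
 0x2d90d90480600ac82c604077f77ff80b8018077f98088097fe8187f28067fa8027fc7f88057fc81281180c7f98027f780b80b7de7f081a7f77e27ea7ed7f57fa80080b7f78137ff8027f67f38008228017f17f680a8031011
 z (n 10 z (n 0 z (n 0 z (n 0 z (n 0 z (n 4327003 z (n 0 z (n 0 z (n 2164315 z z)))))))))))))
 z)))))) (n 375 (n 0 (n 0 z z) (n 0 z z)) (n 0 (n 0 z (n 0 z (n 0 z (n 1 (n 6496515 z (n 6496515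
 z (n 6496515 z (n 6496515 z (n 6496515 z (n 6496515 z z)))))) (n 0 z (n 0 z z)))))) (n 0 z
 z)))) (n 0xc2a2a209d9130ec7526c0 (n 0 (n 275 (n 0 z (n 2 z (n 0 z (n 0 z (n
 0x4c6318017f98008047fa8058057fd8067fb7fc8007fe8047fa8057fb8087ff7f58018007fe7fe7fd7f78037fc8027f27ff8007ff8027ff8038067ff7f48088067f48027fc7f48078008067fc8030051
 z (n
 0xfc63182b7018988f57048397d98c078581a86d76d7ff79376497f81f7c28956e08937367578407ba8c47bd7357939686f48308016d18928818cd7946af88d7e77ea8a27b873977f7a798d82a7d70051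
 z (n 0 z (n 6627379 z (n 0 z (n 0 z z)))))))))) (n 251 (n 0 z (n 0 z (n 0 z (n 0 z (n 0 z (n 0
 z (n 0 z (n 3278363 z z)))))))) (n 9 (n 0 z (n 6627379 z (n 6627379 z (n 0 z (n
 0x646318027f88008047f98058067fd8087fa7fc8017fd8047f88067fa80a7ff7f28018017fe7ff7fb7f58047fb8017ef7ff8008008027fe8028067ff7f180b8087f18037fb7f28088008087fb8030051
 z (n 0 z (n 0 z (n 0 z z)))))))) (n 3 (n 10 z (n 2164283 z (n 0 z (n 0 z (n 0 z z))))) (n 1 (n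
 18 z (n 0 z (n 0 z (n 0 z (n 0 z (n 0 z (n 2164299 z (n 26 z (n 0 z z))))))))) (n 0 (n 0 z (n 0
 z (n 0 z (n 6627379 z (n 0 z (n 0 z z)))))) z)))))) (n 3 (n 0 (n 539 (n 0 z (n 0 z (n 0 z (n 0
 z (n 0 z (n 7754531 z (n 0 z (n 0 z (n 0 z (n 0 z (n 0 z (n 0 z (n 0 z (n 0 z (n 0 z (n 0 z (n
 0 z (n 0 z (n 0 z (n 0 z (n 0 z (n 0 z (n 0 z (n 0 z z)))))))))))))))))))))))) (n 531 (n 0 z (n
 0 z (n 0 z (n 0 z z)))) (n 531 (n 0 z (n 0 z (n 0 z (n 0 z z)))) z))) (n 0 (n 3 (n 0 z (n 0 z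
 (n 0 z (n 0 z (n 0 z (n 0 z (n 0 z (n 0 z (n 0 z (n 0 z (n 0 z (n 0 z z)))))))))))) (n 3 (n 0 z
 (n 0 z (n 0 z (n 0 z (n 0 z (n 0 z (n 0 z (n 0 z (n 0 z (n 0 z (n 0 z (n 0 z z)))))))))))) z))
 (n 0 (n 0 z z) (n 0 z z)))) (n 0 (n 1 (n 2204 z (n 2204 z (n 6627379 z (n 2204 z (n 2204 z (n
 2204 z z)))))) (n 1 (n 2164283 z (n 2164283 z (n 6627379 z (n 2164283 z (n 2164283 z (n 2164283
 z z)))))) (n 0 z (n 0 z (n 0 z z))))) (n 0 z z)))) (n 0x34b7706e28852dc4416d960a6dc64228d2c0 (n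
 0 (n 153 (n 2 z (n 0 z (n 0 z (n 0 z (n 3282443 z (n 0 z (n 0 z (n 0 z z)))))))) (n 33 (n 0 z
 (n 0 z (n 0 z (n 0 z (n 0 z (n 0 z (n 0 z (n 10 z (n 0 z (n 0 z (n 6496515 z (n 0 z (n 0 z (n 0
 z (n 0 z (n 0 z (n 0 z (n 0 z (n 0 z (n 0 z z)))))))))))))))))))) (n 9 (n
 0xdb29b29880c02595150c40e01ac86a862077e282f8187c684a80784582f87b7b17f780780a7fe7af7e77f97e97c07387b082a81483c7b87a18aa7738038377ae87a8628fe82b80c75a7fc86286581c70e7ac80a7b68097c783778881b1811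
 z (n 0 z (n 0 z (n 6496515 z (n 0 z (n 0 z z)))))) (n 243 (n
 0x16ca6a208038007fe7fd8007f87fd7fd8017fc8027f781c7ef8007fc80c8067fd80381c8008097f77f780480a8068008067f380f7f98057ff8017f68197f68027fe7fe8037fb8057fb7f87ff7f38008030811
 z (n 18 z (n
 0xd94d485006002c86a804038007fc8008008007ff7ff8008008028037fd8008007fd8028008007ff7ff7ff8018017fe8007ff8018017ff8018018008028008007fe8017ff8008018057ff8017fe8008038007fe7ff8001011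
 z (n 26 z (n 0 z (n 0 z (n
 0xeca6a408078008088018008028007fa8037f78067ff7f58018008008028097ff8098008077f87f880280480a7fe8118078007ff8027ff7e97f37fd81b7ff7f27f77f98108068058067f580a8028107fa0811
 z (n 0 z (n 0 z (n 0 z (n
 0x1595150040e000ca4ca40038008008008008008007ff8028008018017f48068008008007fe8007fe7fc7ff8008017fe7ff7ff7fc8027fb8017fe7fc8027fe8008017ff7fd8028038047ff7ff7ff7fd8028007ff8028001011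
 z (n 0 z (n 0 z (n 0 z (n
 0xdb21001a6428008018017fc7fc7fe8008038007fd7fc7fd7ff8047ff8068017ff7ff7f88018068027fb7ff7f78097f78017fb80280480280e7fd7fd8017fd8088058037f57fb8057fb7ff7fd7fa7f98020091
 z (n 0 z (n 0 z (n 0 z (n 0 z (n
 0x5b10800a6218008038007fe8048008017ff8027fe7fd7ff8018027fe8007fe8007ff7ff8018018017ff7ff8008058008018018007fe8038008008008007ff8008018017fe7fe8027fc8007fe8017ff8000091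
 z (n 6496515 z (n 0 z (n 0 z (n 0 z (n 0 z (n
 0x2ca4ca28037fe7fd8038007fc8008008068018018047fc7fd7fc8028038047fd8048007f880b7f98037f57fc80d7fb8008028008097ff8117fe8007f480080d80a8027fc7f58087fc8007fb7fd7f38020811
 z (n 6496515 z (n
 0xdb29001a6528008018017fc7fc7fe8008038007fd7fc7fd7ff8047ff8068017ff7ff7f88018068027fb7ff7f78097f78017fb80280480280e7fd7fd8017fd8088058037f57fb8057fb7ff7fd7fa7f98020091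
 z (n 0 z (n
 0x4ca8ca82037fb7fa8027fc7f27fe80280b8018018077fa7f77fa80b80c8077f88067f97f18147f78027f17ef8137f38017fc8058157fb82b8008007f07fb8178188047f47ed8097fd7fc8007f47e18070811
 z (n 0 z (n 6496515 z (n 0 z (n 6496515 z (n
 0xdb20001a6408008018017fc7fc7fe8008038007fd7fc7fd7ff8047ff8068017ff7ff7f88018068027fb7ff7f78097f78017fb80280480280e7fd7fd8017fd8088058037f57fb8057fb7ff7fd7fa7f98020091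
 z (n 5379643 z z)))))))))))))))))))))))))))))))))))) (n 1 (n 34 z (n 0 z (n 0 z (n 0 z (n 0 z
 (n 0 z (n 2164299 z (n 0 z (n 0 z (n 0 z (n 0 z (n 42 z z)))))))))))) (n 0 (n 50 z (n 0 z (n 0
 z (n 0 z (n 2164315 z (n 0 z (n 0 z (n 0 z (n 0 z (n 0 z (n 0 z (n 0 z z)))))))))))) z)))))) (n
 9 (n 0 (n 83 (n 0 z (n 0 z (n 0 z (n 0 z (n 0 z (n 0 z z)))))) (n 81 (n 0 z (n 0 z (n 0 z (n 0
 z (n 0 z (n 7737379 z (n 0 z (n 0 z (n 0 z (n 0 z (n 0 z (n 0 z (n 0 z (n 0 z (n 0 z (n 0 z (n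
 0 z (n 0 z (n 0 z (n 0 z (n 0 z (n 0 z (n 0 z (n 0 z (n 0 z (n 0 z (n 0 z (n 0 z (n 0 z
 z))))))))))))))))))))))))))))) (n 81 (n 0 z (n 0 z (n 0 z (n 0 z (n 0 z (n 0 z (n 0 z (n 0 z (n
 0 z (n 0 z (n 0 z (n 0 z (n 0 z (n 0 z (n 0 z (n 0 z (n 0 z (n 0 z (n 0 z (n 0 z (n 0 z (n 0 z
 (n 0 z (n 0 z (n 0 z (n 0 z (n 0 z (n 0 z (n 0 z z))))))))))))))))))))))))))))) (n 489 (n 0 z
 (n 0 z (n 0 z (n 0 z (n 0 z (n 0 z (n 0 z (n 0 z (n 0 z (n 0 z (n 0 z (n 0 z (n 0 z (n 0 z (n 0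
 z (n 0 z (n 0 z z))))))))))))))))) (n 489 (n 0 z (n 0 z (n 0 z (n 0 z (n 0 z (n 0 z (n 0 z (n 0
 z (n 0 z (n 0 z (n 0 z (n 0 z (n 0 z (n 0 z (n 0 z (n 0 z (n 0 z z))))))))))))))))) (n 73 (n 0
 z (n 0 z (n 0 z (n 0 z (n 0 z (n 0 z (n 0 z (n 0 z (n 0 z (n 0 z (n 0 z z))))))))))) z)))))) (n
 0 (n 487 (n 7737379 z (n 0 z (n 0 z (n 0 z (n 0 z (n 0 z (n 0 z (n 0 z (n 0 z (n 0 z (n 0 z (n
 0 z (n 0 z z))))))))))))) (n 487 (n 0 z (n 0 z (n 0 z (n 0 z (n 0 z (n 0 z (n 0 z (n 0 z (n 0 z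
 (n 0 z (n 0 z (n 0 z (n 0 z z))))))))))))) (n 483 (n 0 z (n 0 z (n 0 z (n 0 z (n 0 z (n 0 z (n
 0 z (n 0 z (n 0 z z))))))))) (n 483 (n 0 z (n 0 z (n 0 z (n 0 z (n 0 z (n 0 z (n 0 z (n 0 z (n
 0 z z))))))))) (n 485 (n 0 z (n 0 z (n 0 z (n 0 z (n 0 z (n 0 z (n 0 z (n 0 z (n 0 z (n 0 z
 z)))))))))) z))))) (n 0 (n 0 z (n 531 (n 0 z (n 0 z (n 0 z (n 0 z (n 0 z (n 0 z (n 0 z (n 0 z
 (n 0 z (n 0 z z)))))))))) (n 531 (n 0 z (n 0 z (n 0 z (n 0 z (n 0 z (n 0 z (n 0 z (n 0 z (n 0 z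
 (n 0 z z)))))))))) (n 529 (n 0 z (n 0 z (n 0 z (n 0 z (n 0 z (n 0 z (n 0 z (n 0 z (n 0 z (n 0 z
 (n 0 z (n 0 z (n 0 z (n 0 z (n 0 z (n 0 z (n 0 z (n 0 z (n 0 z (n 0 z (n 0 z (n 0 z (n 0 z (n 0
 z (n 0 z (n 0 z (n 0 z (n 0 z (n 0 z (n 0 z (n 0 z (n 0 z (n 0 z (n 0 z (n 0 z (n 0 z (n 0 z (n
 0 z (n 0 z (n 0 z (n 0 z (n 0 z (n 0 z (n 0 z (n 0 z (n 0 z (n 0 z
 z))))))))))))))))))))))))))))))))))))))))))))))) z)))) (n 0 (n 531 (n 0 z (n 0 z (n 0 z (n 0 z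
 (n 0 z (n 0 z (n 0 z (n 0 z (n 0 z z))))))))) (n 531 (n 0 z (n 0 z (n 0 z (n 0 z (n 0 z (n 0 z
 (n 0 z (n 0 z (n 0 z z))))))))) (n 481 (n 0 z (n 0 z (n 0 z (n 0 z (n 0 z (n 0 z (n 0 z (n 0 z
 (n 0 z (n 0 z (n 0 z (n 0 z z)))))))))))) z))) (n 0 (n 0 z (n 1 (n 0 z (n 0 z (n 0 z (n 0 z (n
 0 z (n 0 z (n 0 z (n 0 z z)))))))) z)) (n 0 (n 1 (n 0 z (n 0 z (n 0 z (n 0 z (n 0 z (n 0 z (n 0
 z (n 0 z (n 0 z (n 0 z (n 0 z (n 0 z (n 0 z (n 0 z (n 0 z (n 0 z (n 0 z (n 0 z (n 0 z (n 0 z (n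
 2 z (n 0 z (n 0 z (n 0 z (n 0 z (n 0 z (n 0 z (n 0 z (n 0 z (n 0 z (n 0 z (n 0 z (n 0 z (n 0 z
 (n 0 z (n 0 z (n 0 z (n 0 z (n 0 z (n 0 z (n 0 z (n 0 z (n 0 z (n 0 z (n 0 z (n 0 z (n 0 z
 z))))))))))))))))))))))))))))))))))))))))))))))) z) (n 0 z z))))))) (n 0 (n 1 (n 1228 z (n
 3278411 z (n 1228 z (n 1228 z (n 1228 z (n 1228 z z)))))) (n 0 z (n 0 z (n 1 (n 6496515 z (n
 6496515 z (n 6496515 z (n 6496515 z (n 6496515 z (n 6496515 z z)))))) (n 0 z (n 0 z z)))))) (n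
 0 z z)))) (n 0x310b478d580 (n 0 (n 695 (n 3282443 z (n 0 z (n 0 z (n 0 z (n 0 z (n 0 z (n 0 z
 (n 2 z z)))))))) (n 381 (n 0 z (n 0 z (n 0 z (n 0 z (n 0 z (n 0 z (n 0 z (n 0 z (n 0 z (n
 0x2ca8c8640786082082082081f8207e082089f8208207e082081f7a28208208208208208217e08208218210801 z
 (n 0xca8c864078208207e08208208607df82085f7e08207e08208207e28208208208208618207e18608208200801 z
 (n 0xca4ca08038608208208208208217e08208608208207e08208207e27e182082082082081f7e08208208200801 z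
 (n 6496515 z (n 6496515 z (n
 0x4ca2a4080781f8e08208207e08607a081f8607a37a08218208208df7e17647e089e7e281f7e08608607e00801 z
 (n 0xc86c864038208208218208208217e082085f82082082082081f8217e08208208608208207e08208218200801 z
 (n 0 z (n
 0xc86c864038608208218608208207e082085f7e082082082082082182082081f82082086081f8208208210801 z (n
 0 z (n 0 z (n
 0xc86c864038608208208208208207e082085f82082082082081f7e27e08208208208608608208208218200801 z (n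
 0xca8c804078208a08208208208217e082185f82181f82082081f8227e17df82081e8218208208208218200801 z
 z)))))))))))))))))))))) (n 53 (n 0 z (n 0 z (n 6496515 z (n 0 z z)))) (n 27 (n 6496515 z (n 0 z
 (n 0 z (n 0 z (n 0 z (n 0 z (n 0 z (n 0 z (n 10 z z))))))))) (n 1 (n 6567179 z (n 0 z (n 0 z (n
 0 z (n 0 z z))))) (n 0 (n 0 z (n 3278427 z (n 2164315 z (n 0 z (n 0 z (n 0 z (n 4331099 z (n 0
 z (n 0xc86c862038608208208208208217e082089f8208208208208208227e08208208208208207e081f8218200801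
 z (n 0 z (n
 0x2c86c8420781e8617e181f82089e81f81e8a07a189e82081d8217a08237a37a485f7a379f81e85d9218200801 z
 (n 0 z (n 0 z (n
 0x64264130180ca886420782082082082082082082082085f8208208208208207a18208208208208208208208208218211001
 z (n 0 z (n
 0xc84c8260386086082082081f82082082085f7e082082082081f7e27e18208208208608207e081f8208610801 z (n
 0xc86c864038208208208208208207e082085f8208208208208208227e08208208208218608208208218200801 z (n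
 0xc86c8620385f8208208208208607e082089f7e082081f8608207a27e182182081f8207e17e08608228600801 z (n
 0 z (n 0 z (n 0 z (n
 0xc86c864038208208208608208207e082085f8208208218208208217e08208208208208207e08608218210801 z (n
 0 z (n 0 z (n
 0xc82c806038208608208208208207e082189f8208207e082081f8217e08208208208218207e081f8218200801 z
 z))))))))))))))))))))))))) z)))))) (n 53 (n 0 (n 165 (n 0 z (n 0 z (n 0 z (n 0 z (n 0 z (n 0 z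
 (n 0 z (n 0 z (n 0 z z))))))))) z) (n 0 z z)) (n 0 (n 0 z (n 0 z (n 1 (n 6496515 z (n 6496515 z
 (n 6496515 z (n 6496515 z (n 6496515 z (n 6496515 z z)))))) (n 0 z z)))) (n 0 z z)))) (n
 0x6d93af2580 (n 0 (n 671 (n 3282443 z (n 6492243 z (n
 0x1321321080c15310829621807e807e7f8080818380807f7e817f80817f807f80807f7f8080807f7f8081817d7f817b7f81808081817f7e81808081807f0889
 z (n 0 z (n 0 z (n
 0x2ca6a6420780808080808180808080808081808080807f80808080808080817e807f8080808180807f8080808080807f8080808080807f0809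
 z (n 0 z (n 2 z (n
 0xb29b29880c1194d50c40e26c86c64203817581887e80827b8c826f818b828c7b86807a877ea27d7f73857e81837a7e887c80737b81927f817c82887689817f82757b1809
 z z))))))))) (n 667 (n 0 z (n 0 z (n 0 z (n 6492243 z z)))) (n 9 (n 0 z (n 6628107 z (n 0 z (n
 0 z z)))) (n 666 (n 0 z (n 6492243 z (n 0 z (n 0 z (n 0 z (n 0 z (n 0 z (n 6492243 z (n 0 z (n
 0 z (n 0 z (n 0 z (n 0 z (n 0 z (n 0 z (n 0 z (n 0 z z))))))))))))))))) (n 1 (n 0 z (n 0 z (n 0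
 z (n 0 z (n 2164299 z (n 0 z (n 0 z (n 0 z (n 0 z (n 0 z (n 0 z (n 0 z (n 0 z (n 0 z (n 0 z
 z))))))))))))))) (n 0 (n
 0x2b21b19081c1590d0c840e04ca6840203827e7c7f7e7f7c818282807f82807f7f857e8181827a867f83837c7e757d878282838175807a7e7f7f807e7d877f7f86807c1809
 z (n 0 z (n
 0x3d90d8c840e00ca686420780817e7e808280808380847e82817d7f848085837f84897f7b8473806f7b8a8b878181787f7d7c81827f7a7689767d857d741009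
 z (n 0 z (n
 0x321321080c04b1080862180818080817f807f80808080808081807f81808080808180808180808080808080807f80817f807f808180817f80808080810889
 z (n 0 z (n 3282523 z (n 6628107 z (n 6628107 z (n 6628107 z (n 0 z (n 0 z (n
 0x31905900c0604c86c802037282807c7f847c897c86857e7e8080837784838882837e827f7f877e84837c7781818282817c827b7f7e828b7983877d87891009
 z (n 10 z z)))))))))))))) z)))))) (n 667 (n 0 (n 577 (n 0 z (n 0 z (n 0 z (n 0 z (n 0 z (n 0 z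
 (n 0 z (n 0 z (n 0 z (n 0 z (n 0 z (n 0 z (n 0 z (n 0 z (n 0 z z))))))))))))))) z) (n 0 z z))
 (n 0 (n 0 z (n 0 z (n 0 z (n 1 (n 6492243 z (n 6492243 z (n 6492243 z (n 6492243 z (n 6492243 z
 (n 6492243 z z)))))) z)))) (n 0 z z)))) (n 0xcaa19 (n 0 (n 153 (n
 0x2ca8a842077e17e182282181f71e9618607a08a28608218248227e181d9a18218a081f7e17e279f86085e0801 z
 (n 0 z (n
 0x2ca8a842078207e18208228207e08a18608208617e07e285f7a081f7df81f7627e08207e089f7e086085f0801 z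
 (n 0 z (n 0 z (n 0 z (n 6554411 z (n 0 z (n 0 z (n 0 z (n 3282443 z (n 4331019 z (n 0 z
 z))))))))))))) (n 57 (n 0 z (n 0 z (n 0 z (n 2 z (n 0 z (n 0 z (n 6496515 z z))))))) (n 51 (n 0
 z (n 0 z (n 0 z (n 0 z (n 6496515 z (n 0 z (n 0 z (n 0 z (n 0 z (n 0 z (n 0 z (n
 0x2ca8ca82038207a08208208218227a082082085f82082086172089f79f8a086082082082081f8208208200801 z
 (n 0 z (n 0 z (n 0 z (n 0 z (n 6496515 z (n 0 z (n 0 z z))))))))))))))))))) (n 27 (n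
 0x2ca8a842077e17e182282181f71e9618607a08a28608218248227e181d9a18218a081f7e17e279f86085e0801 z
 (n 0 z (n 6496515 z (n 4331067 z (n 0 z (n 0 z (n 0 z (n 6496515 z (n 0 z (n 0 z (n 0 z (n 0 z
 (n 0 z (n
 0x2ca8a842078207e18208228207e08a18608208617e07e285f7a081f7df81f7627e08207e089f7e086085f0801 z
 (n 6496515 z (n 0 z z)))))))))))))))) (n 1 (n 0 z (n 0 z (n 6554411 z z))) (n 0 (n 0 z (n 0 z
 (n 0 z (n 0 z (n 0 z (n 0 z (n 0 z (n 0 z (n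
 0x2c86c8640382176092081e82081f82076082081e8208208208208607e086082082082081e8208208208200801 z
 (n 0 z (n 0 z (n 0 z (n 0 z (n 0 z (n
 0x2c86c864038207a08df7df8208208208608207e08208608617e08607e08608208208a08208208218208210801 z
 (n 0 z (n 2164315 z (n 0 z (n 0 z (n 0 z (n
 0x2c86c8640382176092081e82081f82076082081e8208208208208607e086082082082081e8208208208200801 z
 (n 0x4c86c8240382175f91f81e8217e27e17e181f85e8207e081f7a082179f8df82182086281f8207e08218200801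
 z (n 0 z (n 0 z (n
 0x2c86c8640382176092081e82081f82076082081e8208208208208607e086082082082081e8208208208200801 z
 (n 0x2c84c806037a27e091e81e82182081f8228208208df82082081e8207a08207e07a08a281e89f82181f8200801
 z z)))))))))))))))))))))))))) z)))))) (n 1 (n 0 z z) (n 0 (n 0 z (n 0 z (n 1 (n 6554411 z (n
 6554411 z (n 6554411 z (n 6554411 z (n 6554411 z (n 6554411 z z)))))) z))) (n 0 z z)))) (n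
 0x6ce5a356a519eb6e19cb18aa39b072b6c28ded84ab6cc53b6700 (n 0x36ce5 (n 153 (n 0 z (n 6619931 z (n
 3282443 z (n 0 z (n 2 z z))))) (n 33 (n 0 z (n 0 z (n 0 z (n 0 z (n 6496515 z (n 10 z z))))))
 (n 51 (n 6496515 z (n 6496515 z (n 0 z (n 18 z z)))) (n 27 (n 0 z (n 26 z (n 6496515 z (n 34 z
 z)))) (n 1 (n 6554411 z (n 42 z (n 0 z (n 50 z z)))) (n 0 (n 0 z (n 0 z (n 0 z (n 6623755 z (n
 0 z (n 0 z (n 0 z (n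
 0x4c86c8640376281d8a17e48a089e82085f81f85b89e89d8607e286179c8dd8a389d76485e89e7e281d9200801 z
 (n 0x5362071b82386071c7e686581f7e28218e47de85f7dd7de79f9218627dc8a391b8e672081d7a465d0041 z (n
 0 z (n 0 z (n 6619931 z (n 58 z (n 0 z (n 0 z (n 66 z (n 74 z z))))))))))))))))) z)))))) (n 51
 (n 0 (n 1185 (n 0 z (n 0 z (n 0 z (n 0 z (n 0 z (n 0 z (n 0 z (n 0 z (n 0 z (n 0 z (n 0 z (n 0
 z (n 0 z (n 0 z z)))))))))))))) (n 795 (n 0 z (n 0 z (n 0 z (n 0 z (n 0 z (n 0 z (n 0 z (n 0 z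
 (n 0 z (n 0 z z)))))))))) (n 535 (n 2 (n 0 z (n 1 z (n 1 z (n 1 z (n 1 z (n 1 z z)))))) (n 0 z
 (n 0 z (n 0 z z)))) (n 535 (n 0 z (n 0 z (n 0 z (n 0 z z)))) (n 531 (n 0 z (n 2 (n 0 z (n 2 (n
 0 z (n 0 z (n 0 z (n 0 z (n 0 z (n 0 z z)))))) (n 2 (n 0 z (n 0 z (n 0 z (n 0 z (n 0 z (n 0 z
 z)))))) (n 2 (n 0 z (n 0 z (n 0 z (n 0 z (n 0 z (n 0 z z)))))) z)))) (n 0 z (n 0 z (n 0 z
 z))))) (n 531 (n 0 z (n 0 z (n 0 z (n 0 z (n 0 z z))))) (n 529 (n 0 z (n 0 z (n 0 z (n 0 z (n 0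
 z (n 0 z (n 0 z z))))))) (n 529 (n 0 z (n 0 z (n 0 z (n 0 z (n 0 z (n 0 z (n 2 (n 0 z z)
 z))))))) (n 529 (n 0 z (n 0 z (n 0 z (n 0 z (n 0 z (n 0 z (n 0 z z))))))) z))))))))) (n 0 (n
 129 (n 0 z (n 0 z (n 0 z (n 0 z z)))) (n 75 (n 0 z (n 0 z (n 2 (n 0 z (n 1 z (n 1 z (n 1 z (n 2
 (n 0 z (n 0 z (n 0 z (n 0 z (n 0 z (n 0 z z)))))) (n 1 z z)))))) (n 0 z (n 0 z (n 0 z (n 0 z (n
 0 z z)))))))) (n 75 (n 0 z (n 0 z (n 0 z (n 0 z (n 0 z (n 0 z (n 0 z (n 0 z z)))))))) (n 63 (n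
 0 z (n 2 (n 0 z (n 2 (n 0 z (n 0 z (n 0 z (n 0 z (n 0 z (n 0 z z)))))) (n 2 (n 0 z (n 0 z (n 0
 z (n 0 z (n 0 z (n 0 z z)))))) (n 2 (n 0 z (n 0 z (n 0 z (n 0 z (n 0 z (n 0 z z)))))) z)))) (n
 0 z (n 0 z (n 0 z (n 0 z z)))))) (n 63 (n 0 z (n 0 z (n 0 z (n 0 z (n 0 z (n 0 z z)))))) (n 65
 (n 0 z (n 0 z (n 0 z (n 0 z (n 0 z (n 0 z (n 0 z z))))))) (n 65 (n 2 (n 0 z z) (n 0 z (n 0 z (n
 0 z (n 0 z (n 0 z (n 0 z z))))))) (n 65 (n 0 z (n 0 z (n 0 z (n 0 z (n 0 z (n 0 z (n 0 z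
 z))))))) z)))))))) (n 0 (n 27 (n 0 z (n 0 z (n 0 z (n 0 z (n 0 z z))))) (n 27 (n 0 z (n 0 z (n
 0 z (n 0 z (n 0 z z))))) (n 15 (n 0 z (n 0 z (n 0 z z))) (n 15 (n 0 z (n 0 z (n 0 z z))) (n 101
 (n 0 z (n 0 z (n 0 z (n 0 z (n 0 z (n 0 z z)))))) (n 101 (n 0 z (n 0 z (n 2 (n 0 z z) (n 0 z (n
 0 z (n 0 z z)))))) (n 101 (n 0 z (n 0 z (n 0 z (n 0 z (n 0 z (n 0 z z)))))) z))))))) (n 0 (n 0
 z (n 483 (n 0 z (n 0 z (n 0 z (n 0 z (n 0 z z))))) (n 483 (n 0 z (n 0 z (n 0 z (n 2 (n 2 (n 0 z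
 (n 0 z (n 0 z (n 0 z (n 0 z (n 0 z z)))))) (n 1 z (n 1 z z))) (n 0 z z))))) (n 481 (n 0 z (n 0
 z (n 0 z (n 0 z (n 0 z (n 0 z (n 0 z (n 0 z (n 0 z (n 0 z (n 0 z (n 0 z z)))))))))))) (n 481 (n
 0 z (n 0 z (n 0 z (n 0 z (n 0 z (n 0 z (n 0 z (n 0 z (n 0 z (n 0 z (n 2 (n 0 z z) (n 0 z
 z)))))))))))) (n 481 (n 0 z (n 0 z (n 0 z (n 0 z (n 0 z (n 0 z (n 0 z (n 2 z (n 0 z (n 0 z (n 0
 z (n 0 z z)))))))))))) z)))))) (n 0 (n 531 (n 2 (n 0 z (n 2 (n 0 z (n 0 z (n 0 z (n 0 z (n 0 z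
 (n 0 z z)))))) (n 2 (n 0 z (n 0 z (n 0 z (n 0 z (n 0 z (n 0 z z)))))) (n 2 (n 0 z (n 0 z (n 0 z
 (n 0 z (n 0 z (n 0 z z)))))) z)))) (n 0 z (n 0 z (n 0 z z)))) (n 531 (n 0 z (n 0 z (n 0 z (n 0
 z z)))) (n 529 (n 0 z (n 0 z (n 0 z (n 0 z (n 0 z (n 0 z (n 0 z (n 0 z (n 0 z (n 0 z (n 0 z (n
 0 z (n 0 z (n 0 z (n 0 z (n 0 z (n 0 z (n 0 z (n 0 z (n 0 z (n 0 z (n 0 z
 z)))))))))))))))))))))) (n 529 (n 0 z (n 0 z (n 0 z (n 0 z (n 0 z (n 0 z (n 0 z (n 0 z (n 0 z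
 (n 0 z (n 0 z (n 0 z (n 0 z (n 0 z (n 0 z (n 0 z (n 0 z (n 0 z (n 0 z (n 2 (n 0 z z) (n 0 z (n
 0 z z)))))))))))))))))))))) (n 529 (n 0 z (n 0 z (n 0 z (n 0 z (n 0 z (n 0 z (n 0 z (n 0 z (n 0
 z (n 0 z (n 0 z (n 0 z (n 0 z (n 0 z (n 0 z (n 0 z (n 0 z (n 0 z (n 0 z (n 0 z (n 0 z (n 0 z
 z)))))))))))))))))))))) z))))) (n 0 (n 0 z (n 1 (n 0 z (n 0 z (n 0 z (n 0 z (n 0 z (n 0 z (n 0
 z (n 0 z (n 0 z (n 0 z (n 0 z (n 0 z (n 0 z (n 0 z (n 0 z (n 0 z (n 0 z (n 0 z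
 z)))))))))))))))))) (n 1 (n 0 z (n 0 z (n 0 z (n 0 z (n 0 z (n 0 z (n 0 z (n 0 z (n 0 z (n 2 (n
 0 z z) (n 0 z (n 0 z (n 0 z (n 0 z (n 0 z (n 0 z (n 0 z (n 0 z z)))))))))))))))))) (n 1 (n 0 z
 (n 0 z (n 0 z (n 0 z (n 0 z (n 0 z (n 0 z (n 2 z (n 0 z (n 0 z (n 0 z (n 0 z (n 0 z (n 0 z (n 0
 z (n 0 z (n 0 z (n 0 z z)))))))))))))))))) z)))) (n 0 (n 1 (n 0 z (n 0 z (n 0 z (n 0 z (n 0 z
 (n 0 z (n 0 z z))))))) (n 1 (n 2 (n 0 z z) (n 0 z (n 0 z (n 0 z (n 0 z (n 0 z (n 0 z z)))))))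
 (n 1 (n 0 z (n 0 z (n 0 z (n 0 z (n 0 z (n 0 z (n 0 z z))))))) z))) (n 0 (n 0 z (n 0 z z)) (n 0
 (n 0 z z) (n 0 z z)))))))))) (n 0 (n 1 (n 6496515 z (n 6496515 z (n 6496515 z (n 6496515 z (n
 6496515 z (n 6496515 z z)))))) (n 1 (n 6496515 z (n 6496515 z (n 6496515 z (n 6496515 z (n
 6496515 z (n 6496515 z z)))))) (n 0 z (n 1 (n 1228 z (n 1228 z (n 2 z (n 1228 z (n 6623755 z (n
 5517923 z z)))))) z)))) (n 0 (n 0x6356a5 (n 0 (n 0 (n 7745875 z (n 7745875 z (n 7745875 z (n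
 7745875 z (n 7745875 z (n 7745875 z z)))))) z) (n 0 (n 267 (n 1 (n 1228 z (n 4400907 z (n
 6498075 z (n 7668507 z (n 1228 z (n 1228 z z)))))) (n 1 (n 1228 z (n 6498059 z (n 7668507 z (n
 1228 z (n 1228 z (n 1228 z z)))))) (n 1 (n 4331275 z (n 3282699 z (n 4331275 z (n 4331275 z (n
 4331275 z (n 4331275 z z)))))) (n 1 (n 7745875 z (n 7745875 z (n 7745875 z (n 7745875 z (n
 7745875 z (n 7745875 z z)))))) z)))) (n 64 (n 1 (n 7545091 z (n 7545091 z (n 7545091 z (n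
 7545091 z (n 7545091 z (n 7545091 z z)))))) (n 1 (n 268 z (n 268 z (n 5513331 z (n 5375819 z (n
 7602987 z (n 4748 z z)))))) (n 1 (n 7545091 z (n 7545091 z (n 7545091 z (n 7545091 z (n 7545091
 z (n 7545091 z z)))))) (n 0 z z)))) (n 7 (n 0 z (n 1 (n 7684963 z (n 7684963 z (n 7684963 z (n
 7684963 z (n 7684963 z (n 7684963 z z)))))) (n 1 (n 7545091 z (n 7545091 z (n 7545091 z (n
 7545091 z (n 7545091 z (n 7545091 z z)))))) z))) (n 273 (n 1 (n 316 z (n 7545091 z (n 124 z (n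
 316 z (n 316 z (n 316 z z)))))) (n 1 (n 316 z (n 7545091 z (n 316 z (n 316 z (n 316 z (n 316 z
 z)))))) (n 1 (n 4331275 z (n 7545091 z (n 4331275 z (n 4331275 z (n 4331275 z (n 4331275 z
 z)))))) (n 1 (n 7745875 z (n 7545091 z (n 7745875 z (n 7745875 z (n 7745875 z (n 7745875 z
 z)))))) z)))) (n 9 (n 0 z (n 1 (n 7684963 z (n 7684963 z (n 7684963 z (n 7684963 z (n 7684963 z
 (n 7684963 z z)))))) (n 1 (n 7545091 z (n 7545091 z (n 7545091 z (n 7545091 z (n 7545091 z (n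
 7545091 z z)))))) z))) (n 51 (n 1 (n 7545091 z (n 7545091 z (n 7545091 z (n 7545091 z (n
 7545091 z (n 7545091 z z)))))) (n 0 z (n 1 (n 2284 z (n 2284 z (n 2 z (n 7672331 z (n 7602987 z
 (n 2284 z z)))))) (n 0 z (n 1 (n 7684963 z (n 7684963 z (n 7684963 z (n 7684963 z (n 7684963 z
 (n 7684963 z z)))))) (n 1 (n 7684963 z (n 7684963 z (n 7684963 z (n 7684963 z (n 7684963 z (n
 7684963 z z)))))) z)))))) (n 51 (n 1 (n 7545091 z (n 7545091 z (n 7545091 z (n 7545091 z (n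
 7545091 z (n 7545091 z z)))))) (n 1 (n 7545091 z (n 7545091 z (n 7545091 z (n 7545091 z (n
 7545091 z (n 7545091 z z)))))) (n 0 z (n 1 (n 7745875 z (n 7745875 z (n 7745875 z (n 7745875 z
 (n 7745875 z (n 7745875 z z)))))) z)))) z))))))) (n 0 (n 0 (n 0 z z) z) (n 0 (n 593 (n 0 (n 0 z
 z) (n 0 (n 0 z z) (n 0 (n 0 z z) (n 0 (n 0 z z) (n 0 (n 0 z z) (n 0 (n 0 z z) (n 0 (n 0 z z) (n
 0 (n 0 z z) (n 0 (n 0 z z) (n 0 (n 0 z z) (n 0 (n 0 z z) (n 0 (n 0 z z) (n 0 (n 0 z z) (n 0 (n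
 0 z z) z)))))))))))))) (n 399 (n 0 (n 0 z z) (n 0 (n 0 z z) (n 0 (n 0 z z) (n 0 (n 0 z z) (n 0
 (n 0 z z) (n 0 (n 0 z z) (n 0 (n 0 z z) (n 0 (n 0 z z) (n 0 (n 0 z z) (n 0 (n 0 z z)
 z)))))))))) (n 65 (n 0 (n 0 z z) (n 0 (n 0 z z) (n 0 (n 0 z z) (n 0 (n 0 z z) z)))) (n 273 (n 0
 (n 0 z z) (n 0 (n 0 z z) (n 0 (n 0 z z) (n 0 (n 0 z z) z)))) (n 39 (n 0 (n 0 z z) (n 0 (n 0 z
 z) (n 0 (n 0 z z) (n 0 (n 0 z z) (n 0 (n 0 z z) (n 0 (n 0 z z) (n 0 (n 0 z z) (n 0 (n 0 z z)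
 z)))))))) (n 15 (n 0 (n 0 z z) (n 0 (n 0 z z) (n 0 (n 0 z z) (n 0 (n 0 z z) (n 0 (n 0 z z)
 z))))) (n 279 (n 0 (n 0 z z) (n 0 (n 0 z z) (n 0 (n 0 z z) (n 0 (n 0 z z) (n 0 (n 0 z z) z)))))
 (n 33 (n 0 (n 0 z z) (n 0 (n 0 z z) (n 0 (n 0 z z) (n 0 (n 0 z z) (n 0 (n 0 z z) (n 0 (n 0 z z)
 z)))))) (n 9 (n 0 (n 0 z z) (n 0 (n 0 z z) (n 0 (n 0 z z) z))) (n 267 (n 0 (n 0 z z) (n 0 (n 0
 z z) (n 0 (n 0 z z) (n 0 (n 0 z z) z)))) (n 285 (n 0 (n 0 z z) (n 0 (n 0 z z) (n 0 (n 0 z z) (n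
 0 (n 0 z z) (n 0 (n 0 z z) (n 0 (n 0 z z) (n 0 (n 0 z z) z))))))) (n 33 (n 0 (n 0 z z) (n 0 (n
 0 z z) (n 0 (n 0 z z) (n 0 (n 0 z z) (n 0 (n 0 z z) (n 0 (n 0 z z) (n 0 (n 0 z z) z))))))) (n
 51 (n 0 (n 0 z z) (n 0 (n 0 z z) (n 0 (n 0 z z) (n 0 (n 0 z z) (n 0 (n 0 z z) (n 0 (n 0 z z)
 z)))))) (n 269 (n 0 (n 0 z z) (n 0 (n 0 z z) (n 0 (n 0 z z) (n 0 (n 0 z z) (n 0 (n 0 z z) (n 0
 (n 0 z z) (n 0 (n 0 z z) (n 0 (n 0 z z) (n 0 (n 0 z z) (n 0 (n 0 z z) (n 0 (n 0 z z) (n 0 (n 0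
 z z) (n 0 (n 0 z z) (n 0 (n 0 z z) (n 0 (n 0 z z) (n 0 (n 0 z z) (n 0 (n 0 z z) (n 0 (n 0 z z)
 (n 0 (n 0 z z) (n 0 (n 0 z z) (n 0 (n 0 z z) (n 0 (n 0 z z) z)))))))))))))))))))))) (n 1 (n 0
 (n 0 z z) (n 0 (n 0 z z) (n 0 (n 0 z z) (n 0 (n 0 z z) (n 0 (n 0 z z) (n 0 (n 0 z z) (n 0 (n 0
 z z) z))))))) (n 153 (n 0 (n 0 z z) (n 0 (n 0 z z) (n 0 (n 0 z z) (n 0 (n 0 z z) (n 0 (n 0 z z)
 z))))) (n 33 (n 0 (n 0 z z) (n 0 (n 0 z z) (n 0 (n 0 z z) (n 0 (n 0 z z) (n 0 (n 0 z z) (n 0 (n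
 0 z z) z)))))) (n 51 (n 0 (n 0 z z) (n 0 (n 0 z z) (n 0 (n 0 z z) (n 0 (n 0 z z) z)))) (n 27 (n
 0 (n 0 z z) (n 0 (n 0 z z) (n 0 (n 0 z z) (n 0 (n 0 z z) z)))) (n 1 (n 0 (n 0 z z) (n 0 (n 0 z
 z) (n 0 (n 0 z z) (n 0 (n 0 z z) z)))) (n 0 (n 0 (n 0 z z) (n 0 (n 0 z z) (n 0 (n 0 z z) (n 0
 (n 0 z z) (n 0 (n 0 z z) (n 0 (n 0 z z) (n 0 (n 0 z z) (n 0 (n 0 z z) (n 0 (n 0 z z) (n 0 (n 0
 z z) (n 0 (n 0 z z) (n 0 (n 0 z z) (n 0 (n 0 z z) (n 0 (n 0 z z) (n 0 (n 0 z z) (n 0 (n 0 z z)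
 (n 0 (n 0 z z) z))))))))))))))))) z))))))))))))))))))))) z)))) z) z)))) (n
 0x8b26c0cb3202c991064b58389c4412964224b261188b04c4590213100d1d00 (n 0x222c9 (n 153 (n
 0x4ca8ca840380807e8080808081807f808080808080808080808080808081808180817f808080807f8080808080808080808080808080800809
 z (n 0 z (n 0 z (n 2 z (n 0 z (n 6619675 z (n 0 z (n 0 z (n 10 z (n
 0x6ca8a82403818080808180807e808183817b818180817f7e807f807f7f807e817f85827f827f81817d7f8082807f7f7f80807f808180800809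
 z (n 0 z (n 18 z (n 3282443 z (n
 0x4ca4ca28038284817d807f7f7e817d82807d83837b7e847d827e827d7c7a7d828285838185817c7e7e797d867e827b877e807b81867d820809
 z (n
 0x2ca8ca82037f82817e8080817e7f7f82817c8181807f807f80807f807f817e81808481818282807f7e7e7f837d807d82807f7e818280800809
 z (n 0 z (n 3282443 z z))))))))))))))))) (n 35 (n 26 z (n 6562131 z (n 34 z z))) (n 9 (n 0 z (n
 0 z (n 0 z (n 42 z (n 50 z (n 0 z (n 0 z (n 0 z (n 0 z (n 0 z (n 6562131 z (n 0 z z))))))))))))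
 (n 3 (n 6632475 z (n 58 z (n 66 z z))) (n 1 (n 0 z (n 74 z (n 82 z (n 0 z (n 6562131 z (n
 6562131 z z)))))) (n 0 (n 6632475 z (n 0 z (n 0 z (n 90 z (n 0xca88604030821 z (n
 0xca88604030821 z (n 6632475 z (n
 0x265132040183319308201c0590d90c80644ca88624071d6436402018232a218101c6990cc4080e10ca88642030243263010180b21b21801c2590d90800e02c86c640034265443200180321a19001c0d90d90400e10c84c620037b616e89b0556da2b691d56082b3766b6f9a727c97a965a67c814da159757581b9928570809d6ba38f7218734f828870678d8009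
 z (n 0 z (n 0 z (n 6619675 z (n 6619675 z (n
 0x4ca8862403817f837f7f7e817f8280847f7d8381817e807c7f7e7e807f807d818182808384828080807d80827f7d7f80807e8081807f800809
 z (n 6619675 z z)))))))))))))) z)))))) (n 35 (n 0 (n 0 z (n 0 z (n 767 (n 0 z (n 0 z (n 0 z (n
 0 z (n 2 (n 0 z (n 1 z (n 1 z (n 2 (n 0 z (n 0 z (n 0 z (n 0 z (n 0 z (n 0 z z)))))) (n 2 (n 0
 z (n 0 z (n 0 z (n 0 z (n 0 z (n 0 z z)))))) (n 2 (n 0 z (n 0 z (n 0 z (n 0 z (n 0 z (n 0 z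
 z)))))) (n 2 (n 0 z (n 0 z (n 0 z (n 0 z (n 0 z (n 0 z z)))))) (n 1 z z)))))))) (n 0 z (n 0 z
 (n 0 z (n 0 z z))))))))) (n 767 (n 0 z (n 0 z (n 0 z (n 0 z (n 0 z (n 2 (n 1 z (n 2 (n 0 z (n 0
 z (n 0 z (n 0 z (n 0 z (n 0 z z)))))) (n 1 z (n 2 (n 0 z (n 0 z (n 0 z (n 0 z (n 0 z (n 0 z
 z)))))) (n 2 (n 0 z (n 0 z (n 0 z (n 0 z (n 0 z (n 0 z z)))))) (n 2 (n 0 z (n 0 z (n 0 z (n 0 z
 (n 0 z (n 0 z z)))))) (n 2 (n 0 z (n 0 z (n 0 z (n 0 z (n 0 z (n 0 z z)))))) z))))))) (n 0 z (n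
 0 z (n 0 z z))))))))) (n 765 (n 0 z (n 0 z (n 0 z (n 0 z (n 0 z (n 0 z (n 2 (n 0 z (n 1 z (n 1
 z (n 2 (n 0 z (n 0 z (n 0 z (n 0 z (n 0 z (n 0 z z)))))) (n 2 (n 0 z (n 0 z (n 0 z (n 0 z (n 0
 z (n 0 z z)))))) (n 2 (n 0 z (n 0 z (n 0 z (n 0 z (n 0 z (n 0 z z)))))) z)))))) (n 0 z (n 0 z
 (n 0 z (n 0 z (n 0 z z)))))))))))) (n 765 (n 2 (n 2 (n 0 z (n 0 z (n 0 z (n 0 z (n 0 z (n 0 z
 z)))))) (n 1 z (n 1 z (n 2 (n 0 z (n 0 z (n 0 z (n 0 z (n 0 z (n 0 z z)))))) (n 1 z z))))) (n 0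
 z (n 0 z (n 0 z (n 0 z (n 0 z (n 0 z (n 0 z (n 0 z (n 0 z (n 0 z (n 0 z z)))))))))))) (n 969 (n
 0 z (n 0 z (n 0 z (n 2 (n 0 z (n 2 (n 0 z (n 0 z (n 0 z (n 0 z (n 0 z (n 0 z z)))))) (n 2 (n 0
 z (n 0 z (n 0 z (n 0 z (n 0 z (n 0 z z)))))) (n 2 (n 0 z (n 0 z (n 0 z (n 0 z (n 0 z (n 0 z
 z)))))) z)))) (n 0 z (n 0 z (n 0 z (n 0 z (n 0 z (n 0 z (n 0 z (n 0 z (n 0 z (n 0 z (n 0 z (n 0
 z z)))))))))))))))) (n 969 (n 0 z (n 0 z (n 0 z (n 0 z (n 0 z (n 2 (n 2 (n 0 z (n 0 z (n 0 z (n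
 0 z (n 0 z (n 0 z z)))))) (n 2 (n 0 z (n 0 z (n 0 z (n 0 z (n 0 z (n 0 z z)))))) (n 1 z z))) (n
 0 z (n 0 z (n 0 z (n 0 z (n 0 z (n 0 z (n 0 z (n 0 z (n 0 z (n 0 z z)))))))))))))))) (n 757 (n
 0 z (n 0 z (n 0 z (n 2 (n 0 z (n 1 z z)) (n 0 z (n 0 z (n 0 z (n 0 z z)))))))) (n 757 (n 0 z (n
 2 (n 2 (n 0 z (n 0 z (n 0 z (n 0 z (n 0 z (n 0 z z)))))) z) (n 0 z (n 0 z (n 0 z (n 0 z (n 0 z
 (n 0 z z)))))))) (n 121 (n 0 z (n 0 z (n 0 z (n 2 z (n 0 z (n 0 z (n 0 z (n 0 z (n 0 z (n 0 z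
 (n 0 z (n 0 z (n 0 z z))))))))))))) z))))))))))) (n 0 (n 0 z (n 131 (n 0 z (n 0 z (n 0 z z)))
 (n 131 (n 0 z (n 0 z (n 0 z z))) (n 123 (n 0 z (n
 0x2ea4ca280780808180808080808080808080808080808080808080808080808180808080807f80808080808080808080808080807f80800809
 z (n 0 z (n 0 z (n 0 z (n 0 z (n 0 z (n 0 z (n 0 z (n 0 z (n 0 z (n 0 z z)))))))))))) (n 123 (n
 0 z (n 0 z (n 0 z (n 0 z (n 0 z (n 0 z (n 0 z (n 0 z (n 0 z (n 0 z (n 0 z (n 0 z z))))))))))))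
 (n 147 (n 0 z (n 0 z (n 0 z (n 0 z (n 0 z z))))) (n 147 (n 0 z (n 0 z (n 0 z (n 0 z (n 0 z
 z))))) (n 105 (n 0 z (n 0 z (n 0 z (n 0 z (n 0 z (n 0 z (n 0 z (n 0 z z)))))))) (n 105 (n 0 z
 (n 0 z (n 0 z (n 0 z (n 0 z (n 0 z (n 0 z (n 0 z z)))))))) (n 121 (n 0 z (n 0 z (n 0 z (n 0 z
 (n 0 z (n 0 z (n 0 z z))))))) z)))))))))) (n 0 (n 127 (n 0 z (n 0 z (n 0 z (n 0 z (n 0 z (n 0 z
 (n 0 z (n 0 z (n 0 z (n 0 z (n 0 z (n 0 z z)))))))))))) (n 127 (n 0 z (n 0 z (n 0 z (n 0 z (n 2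
 (n 1 z (n 1 z (n 1 z (n 1 z (n 2 (n 0 z (n 0 z (n 0 z (n 0 z (n 0 z (n 0 z z)))))) (n 1 z (n 1
 z z))))))) (n 0 z (n 0 z (n 0 z (n 0 z (n 0 z (n 0 z (n 0 z z)))))))))))) (n 103 (n 0 z (n 0 z
 (n 2 (n 0 z (n 1 z (n 2 (n 0 z (n 0 z (n 0 z (n 0 z (n 0 z (n 0 z z)))))) (n 2 (n 0 z (n 0 z (n
 0 z (n 0 z (n 0 z (n 0 z z)))))) (n 2 (n 0 z (n 0 z (n 0 z (n 0 z (n 0 z (n 0 z z)))))) (n 1 z
 z)))))) (n 0 z (n 0 z (n 0 z (n 0 z (n 0 z (n 0 z (n 0 z (n 0 z (n 0 z z)))))))))))) (n 103 (n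
 0 z (n 0 z (n 0 z (n 0 z (n 0 z (n 0 z (n 0 z (n 0 z (n 0 z (n 0 z (n 0 z (n 0 z z))))))))))))
 (n 27 (n 0 z (n 0 z (n 2 (n 0 z (n 2 (n 0 z (n 0 z (n 0 z (n 0 z (n 0 z (n 0 z z)))))) (n 2 (n
 0 z (n 0 z (n 0 z (n 0 z (n 0 z (n 0 z z)))))) (n 2 (n 0 z (n 0 z (n 0 z (n 0 z (n 0 z (n 0 z
 z)))))) z)))) (n 0 z (n 0 z (n 0 z (n 0 z (n 0 z (n 0 z z))))))))) (n 27 (n 0 z (n 0 z (n 0 z
 (n 0 z (n 0 z (n 0 z (n 0 z (n 0 z (n 0 z z))))))))) (n 15 (n 0 z (n 0 z (n 0 z (n 0 z (n 0 z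
 (n 0 z (n 0 z (n 0 z z)))))))) (n 15 (n 0 z (n 0 z (n 0 z (n 0 z (n 0 z (n 0 z (n 0 z (n 0 z
 z)))))))) (n 17 (n 0 z (n 0 z (n 0 z (n 0 z (n 0 z (n 0 z (n 0 z (n 0 z (n 0 z (n 0 z (n 0 z (n
 0 z z)))))))))))) z))))))))) (n 0 (n 0 z (n 343 (n 0 z (n 0 z (n 2 (n 0 z (n 1 z (n 2 (n 0 z (n
 0 z (n 0 z (n 0 z (n 0 z (n 0 z z)))))) (n 2 (n 0 z (n 0 z (n 0 z (n 0 z (n 0 z (n 0 z z))))))
 (n 2 (n 0 z (n 0 z (n 0 z (n 0 z (n 0 z (n 0 z z)))))) (n 1 z z)))))) (n 0 z (n 0 z (n 0 z (n 0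
 z (n 0 z (n 0 z (n 0 z z)))))))))) (n 343 (n 0 z (n 0 z (n 0 z (n 0 z (n 0 z (n 0 z (n 0 z (n 0
 z (n 0 z (n 0 z z)))))))))) (n 7 (n 0 z (n 2 (n 0 z (n 2 (n 0 z (n 0 z (n 0 z (n 0 z (n 0 z (n
 0 z z)))))) (n 2 (n 0 z (n 0 z (n 0 z (n 0 z (n 0 z (n 0 z z)))))) (n 2 (n 0 z (n 0 z (n 0 z (n
 0 z (n 0 z (n 0 z z)))))) z)))) (n 0 z z))) (n 7 (n 0 z (n 0 z (n 0 z z))) (n 255 (n 0 z (n 0 z
 (n 0 z (n 0 z (n 0 z (n 0 z (n 0 z (n 0 z (n 0 z (n 0 z z)))))))))) (n 255 (n 0 z (n 0 z (n 0 z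
 (n 0 z (n 0 z (n 0 z (n 0 z (n 0 z (n 0 z (n 0 z z)))))))))) (n 341 (n 0 z (n 0 z (n 0 z (n 0 z
 (n 0 z (n 0 z (n 0 z (n 0 z (n 0 z (n 0 z (n 0 z (n 0 z (n 0 z z))))))))))))) z)))))))) (n 0 (n
 779 (n 0 z (n 0 z (n 0 z (n 0 z z)))) (n 779 (n 2 (n 1 z (n 1 z (n 1 z (n 2 (n 0 z (n 0 z (n 0
 z (n 0 z (n 0 z (n 0 z z)))))) (n 1 z z))))) (n 0 z (n 0 z (n 0 z z)))) (n 59 (n 0 z (n 0 z (n
 0 z (n 0 z (n 0 z z))))) (n 59 (n 0 z (n 2 (n 2 (n 0 z (n 0 z (n 0 z (n 0 z (n 0 z (n 0 z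
 z)))))) (n 1 z (n 1 z z))) (n 0 z (n 0 z (n 0 z z))))) (n 51 (n 0 z (n 0 z (n 0 z (n 0 z (n 2
 (n 0 z (n 1 z z)) (n 0 z (n 0 z (n 0 z (n 0 z (n 0 z (n 0 z z))))))))))) (n 51 (n 0 z (n 0 z (n
 0 z (n 0 z (n 0 z (n 0 z (n 0 z (n 2 (n 1 z z) (n 0 z (n 0 z (n 0 z z))))))))))) (n 49 (n 0 z
 (n 0 z (n 2 z (n 0 z (n 0 z (n 0 z (n 0 z (n 0 z (n 0 z (n 0 z (n 0 z z))))))))))) z))))))) (n
 0 (n 0 z (n 7 (n 0 z (n 0 z (n 0 z (n 0 z z)))) (n 7 (n 0 z (n 0 z (n 2 (n 2 (n 0 z (n 0 z (n 0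
 z (n 0 z (n 0 z (n 0 z z)))))) (n 2 (n 0 z (n 0 z (n 0 z (n 0 z (n 0 z (n 0 z z)))))) (n 1 z
 z))) (n 0 z z)))) (n 15 (n 0 z (n 0 z (n 0 z (n 0 z (n 0 z (n 0 z (n 0 z (n 2 (n 0 z (n 1 z z))
 (n 0 z (n 0 z (n 0 z z))))))))))) (n 15 (n 0 z (n 0 z (n 0 z (n 0 z (n 2 (n 1 z z) (n 0 z (n 0
 z (n 0 z (n 0 z (n 0 z (n 0 z z))))))))))) (n 13 (n 0 z (n 0 z (n 0 z (n 0 z (n 2 z (n 0 z (n 0
 z (n 0 z (n 0 z (n 0 z (n 0 z (n 0 z (n 0 z (n 0 z (n 0 z (n 0 z (n 0 z (n 0 z (n 0 z (n 0 z (n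
 0 z (n 0 z (n 0 z (n 0 z (n 0 z (n 0 z (n 0 z (n 0 z (n 0 z (n 0 z (n 0 z (n 0 z
 z)))))))))))))))))))))))))))))))) z)))))) (n 0 (n 535 (n 0 z (n 0 z (n 0 z (n 2 (n 0 z (n 2 (n
 0 z (n 0 z (n 0 z (n 0 z (n 0 z (n 0 z z)))))) (n 2 (n 0 z (n 0 z (n 0 z (n 0 z (n 0 z (n 0 z
 z)))))) (n 1 z z)))) (n 0 z z))))) (n 535 (n 0 z (n 0 z (n 0 z (n 0 z (n 0 z z))))) (n 483 (n 0
 z (n 0 z (n 0 z (n 0 z (n 0 z (n 0 z (n 0 z (n 0 z z)))))))) (n 483 (n 0 z (n 0 z (n 0 z (n 0 z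
 (n 0 z (n 0 z (n 0 z (n 0 z z)))))))) (n 481 (n 0 z (n 0 z (n 0 z (n 0 z (n 0 z (n 0 z (n 0 z
 (n 0 z (n 0 z (n 0 z (n 0 z (n 0 z (n 0 z (n 0 z (n 0 z (n 0 z (n 0 z (n 0 z (n 0 z (n 0 z (n 0
 z (n 0 z (n 0 z (n 0 z (n 0 z (n 0 z (n 0 z (n 0 z (n 0 z (n 0 z (n 0 z (n 0 z (n 0 z (n 0 z (n
 0 z (n 0 z (n 0 z (n 0 z (n 0 z (n 0 z (n 0 z (n 0 z (n 0 z (n 0 z (n 0 z (n 0 z (n 0 z
 z))))))))))))))))))))))))))))))))))))))))))))))) z))))) (n 0 (n 0 z (n 51 (n 0 z (n 0 z (n 2 (n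
 0 z (n 1 z z)) (n 0 z (n 0 z (n 0 z z)))))) (n 51 (n 0 z (n 2 (n 1 z z) (n 0 z (n 0 z (n 0 z (n
 0 z z)))))) (n 49 (n 0 z (n 2 z (n 0 z (n 0 z (n 0 z (n 0 z (n 0 z (n 0 z (n 0 z (n 0 z (n 0 z
 z))))))))))) z)))) (n 0 (n 15 (n 0 z (n 0 z (n 0 z (n 0 z (n 0 z (n 0 z z)))))) (n 15 (n 0 z (n
 0 z (n 0 z (n 0 z (n 0 z (n 0 z z)))))) (n 13 (n 0 z (n 0 z (n 0 z (n 0 z (n 0 z (n 0 z (n 0 z
 (n 0 z (n 0 z (n 0 z (n 0 z (n 0 z z)))))))))))) z))) (n 0 (n 0 z (n 25 (n 0 z (n 0 z (n 0 z (n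
 0 z (n 0 z (n 0 z (n 0 z (n 0 z (n 0 z (n 0 z (n 0 z (n 0 z (n 0 z (n 0 z (n 0 z (n 0 z (n 0 z
 (n 0 z (n 0 z (n 0 z (n 0 z (n 0 z (n 0 z (n 0 z (n 0 z (n 0 z (n 0 z (n 0 z (n 0 z (n 0 z (n 0
 z (n 0 z (n 0 z (n 0 z (n 0 z (n 0 z (n 0 z (n 0 z (n 0 z (n 0 z (n 0 z (n 0 z (n 0 z (n 0 z (n
 0 z (n 0 z (n 0 z (n 0 z (n 0 z z))))))))))))))))))))))))))))))))))))))))))))))))) z)) (n 0 (n
 73 (n 0 z (n 0 z (n 0 z (n 0 z (n 0 z (n 0 z (n 0 z (n 0 z (n 0 z (n 0 z (n 0 z (n 0 z (n 0 z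
 (n 0 z (n 0 z (n 0 z (n 0 z (n 0 z (n 0 z (n 0 z (n 0 z (n 0 z (n 0 z (n 0 z (n 0 z (n 0 z (n 0
 z (n 0 z (n 0 z (n 0 z (n 0 z (n 0 z (n 0 z (n 0 z (n 0 z (n 0 z (n 0 z (n 0 z (n 0 z (n 0 z (n
 0 z (n 0 z (n 0 z (n 0 z (n 0 z (n 0 z (n 0 z z)))))))))))))))))))))))))))))))))))))))))))))))
 z) (n 0 z z)))))))))))) (n 0 (n 1 (n 2 z (n 6632475 z (n 6619675 z (n 1228 z (n 1228 z (n 1228
 z z)))))) (n 1 (n 6562131 z (n 6562131 z (n 6562131 z (n 6562131 z (n 6562131 z (n 6562131 z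
 z)))))) (n 1 (n 1228 z (n 5443683 z (n 6619675 z (n 1228 z (n 1228 z (n 6632475 z z)))))) z)))
 (n 0 (n 0x6b07136b21126b26114d1d00 (n 0 (n 0 (n 7741699 z (n 7741699 z (n 7741699 z (n 7741699
 z (n 7741699 z (n 7741699 z z)))))) z) (n 0 (n 7 (n 1 (n 7472459 z (n 1228 z (n 1228 z (n
 0x6ea8ca84077d798980807f7e7d8280867d797e7b84807a7e827c7c838186767f80887a7e8b8486807b8184858380837a7d787e867f7e820809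
 z (n 7681051 z (n 1228 z z)))))) (n 1 (n 7540835 z (n 7540835 z (n 7540835 z (n 7540835 z (n
 7540835 z (n 7540835 z z)))))) (n 1 (n 1228 z (n 1228 z (n 7472459 z (n 1228 z (n 1228 z (n
 7681051 z z)))))) (n 1 (n 1228 z (n 2 z (n 7472459 z (n 7681051 z (n 1228 z (n 1228 z z))))))
 (n 1 (n 7540835 z (n 7540835 z (n 7540835 z (n 7540835 z (n 7540835 z (n 7540835 z z)))))) (n 1
 (n 7540835 z (n 7540835 z (n 7540835 z (n 7540835 z (n 7540835 z (n 7540835 z z)))))) (n 1 (n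
 7610707 z (n 7610707 z (n 7610707 z (n 7610707 z (n 7610707 z (n 7610707 z z)))))) (n 1 (n
 7610707 z (n 7610707 z (n 7610707 z (n 7610707 z (n 7610707 z (n 7610707 z z)))))) z)))))))) (n
 35 (n 1 (n 7741699 z (n 7741699 z (n 7741699 z (n 7741699 z (n 7741699 z (n 7741699 z z))))))
 (n 1 (n 7741699 z (n 7741699 z (n 7741699 z (n 7741699 z (n 7741699 z (n 7741699 z z)))))) (n 1
 (n 7540835 z (n 6631539 z (n 10 z (n 6567771 z (n 1468 z (n 1468 z z)))))) z))) (n 267 (n 1 (n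
 7540835 z (n 7540835 z (n 7540835 z (n 7540835 z (n 7540835 z (n 7540835 z z)))))) (n 0 z (n 0
 z (n 1 (n 2380 z (n 18 z (n 2380 z (n 7750427 z (n 2380 z (n 2380 z z)))))) (n 1 (n 7741699 z
 (n 7741699 z (n 7741699 z (n 7741699 z (n 7741699 z (n 7741699 z z)))))) z))))) (n 57 (n 1 (n
 7540835 z (n 7540835 z (n 7540835 z (n 7540835 z (n 7540835 z (n 7540835 z z)))))) (n 1 (n 3196
 z (n 6559531 z (n 7668251 z (n 26 z (n 3196 z (n 7681051 z z)))))) (n 1 (n 7741699 z (n 7741699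
 z (n 7741699 z (n 7741699 z (n 7741699 z (n 7741699 z z)))))) z))) (n 13 (n 1 (n 4156 z (n 4156
 z (n 4156 z (n 7750427 z (n 4156 z (n 4156 z z)))))) (n 1 (n 7540835 z (n 7540835 z (n 7540835
 z (n 7540835 z (n 7540835 z (n 7540835 z z)))))) (n 0 z (n 0 z (n 0 z (n 1 (n 7610707 z (n
 7610707 z (n 7610707 z (n 7610707 z (n 7610707 z (n 7610707 z z)))))) z)))))) (n 641 (n 1 (n
 7741699 z (n 7540835 z (n 7540835 z (n 7540835 z (n 7540835 z (n 7540835 z z)))))) (n 1 (n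
 7741699 z (n 7540835 z (n 7540835 z (n 7540835 z (n 7540835 z (n 7540835 z z)))))) (n 1 (n
 7741699 z (n 7668251 z (n 7668251 z (n 7673355 z (n 7668251 z (n 7668251 z z)))))) (n 1 (n
 7741699 z (n 5420 z (n 7673355 z (n 5420 z (n 5420 z (n 5420 z z)))))) (n 1 (n 7741699 z (n
 7540835 z (n 7540835 z (n 7540835 z (n 7540835 z (n 7540835 z z)))))) (n 1 (n 7741699 z (n
 7673355 z (n 5420 z (n 5420 z (n 5420 z (n 5420 z z)))))) (n 0 z (n 1 (n 7741699 z (n 7673355 z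
 (n 5420 z (n 6424395 z (n 0xea88604030821 z (n 5420 z z)))))) (n 1 (n 7741699 z (n 7681051 z (n
 7681051 z (n 7673355 z (n 7681051 z (n 7681051 z z)))))) (n 1 (n 7741699 z (n 7681051 z (n
 7681051 z (n 7673355 z (n 7681051 z (n 7681051 z z)))))) (n 1 (n 7741699 z (n 5420 z (n 7673355
 z (n 5420 z (n 5420 z (n 5420 z z)))))) (n 1 (n 7741699 z (n 7668251 z (n 7668251 z (n 7673355
 z (n 7668251 z (n 4329587 z z)))))) z)))))))))))) (n 35 (n 1 (n 7741699 z (n 7741699 z (n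
 7741699 z (n 7741699 z (n 7741699 z (n 7741699 z z)))))) (n 1 (n 7741699 z (n 7741699 z (n
 7741699 z (n 7741699 z (n 7741699 z (n 7741699 z z)))))) (n 1 (n 1228 z (n 5443699 z (n 7668251
 z (n 1228 z (n 1228 z (n 7681051 z z)))))) z))) z))))))) (n 0 (n 0 (n 0 z (n 0 z (n 0 z (n 0 z
 z)))) (n 0 (n 0 z (n 0 z (n 0 z z))) (n 0 (n 0 z (n 0 z z)) (n 0 (n 0 z z) z)))) (n 0 (n 183 (n
 0 (n 0 z (n 0 z (n 0 z (n 0 z z)))) (n 0 (n 0 z (n 0 (n 8800043 z z) (n 0 z (n 0 z z)))) (n 0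
 (n 0 z (n 0 z (n 0 z (n 0 z z)))) (n 0 (n 0 z (n 0 z (n 0 z (n 0 z z)))) (n 0 (n 0 z (n 0 z (n
 0 z (n 0 z z)))) (n 0 (n 0 z (n 0 z (n 0 z (n 0 z z)))) (n 0 (n 0 z (n 0 z (n 0 z (n 0 z z))))
 (n 0 (n 0 z (n 0 z (n 0 z (n 0 z z)))) (n 0 (n 0 z (n 0 z (n 0 z (n 0 z z)))) (n 0 (n 0 z (n 0
 z (n 0 z (n 0 z z)))) (n 0 (n 0 z (n 0 z (n 0 z (n 0 z z)))) (n 0 (n 0 z (n 0 z (n 0 z (n 0 z
 z)))) z)))))))))))) (n 297 (n 0 (n 0 z (n 0 z (n 0 z (n 0 z z)))) (n 0 (n 0 z (n 0 z (n 0 z (n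
 0 z z)))) (n 0 (n 0 z (n 0 z (n 0 z (n 0 z z)))) (n 0 (n 0 z (n 0 z (n 0 z (n 0 z z)))) (n 0 (n
 0 z (n 0 z (n 0 z (n 0 z z)))) (n 0 (n 0 z (n 0 z (n 0 z (n 0 z z)))) (n 0 (n 0 z (n 0 z (n 0 z
 (n 0 z z)))) (n 0 (n 0 z (n 0 z (n 0 z (n 0 z z)))) (n 0 (n 0 z (n 0 z (n 0 z (n 0 z z)))) (n 0
 (n 0 z (n 0 z (n 0 z (n 0 z z)))) (n 0 (n 0 z (n 0 z (n 0 z (n 0 z z)))) (n 0 (n 0 z (n 0 z (n
 0 z (n 0 z z)))) z)))))))))))) (n 291 (n 0 (n 0 z (n 0 z (n 0 z (n 0 z z)))) (n 0 (n 0 z (n 0 z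
 (n 0 z (n 0 z z)))) (n 0 (n 0 z (n 0 z (n 0 z (n 0 z z)))) (n 0 (n 0 z (n 0 z (n 0 z (n 0 z
 z)))) (n 0 (n 0 z (n 0 z (n 0 z (n 0 z z)))) (n 0 (n 0 z (n 0 z (n 0 z (n 0 z z)))) (n 0 (n 0 z
 (n 0 z (n 0 z (n 0 z z)))) (n 0 (n 0 z (n 0 z (n 0 z (n 0 z z)))) (n 0 (n 0 z (n 0 z (n 0 z (n
 0 z z)))) (n 0 (n 0 z (n 0 z (n 0 z (n 0 z z)))) z)))))))))) (n 399 (n 0 (n 0 z (n 0 z (n 0 z
 (n 0 z z)))) (n 0 (n 0 z (n 0 z (n 0 z (n 0 z z)))) (n 0 (n 0 z (n 0 z (n 0 z (n 0 z z)))) (n 0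
 (n 0 z (n 0 z (n 0 z (n 0 z z)))) (n 0 (n 0 z (n 0 z (n 0 z (n 0 z z)))) (n 0 (n 0 z (n 0 z (n
 0 z (n 0 z z)))) (n 0 (n 0 z (n 0 z (n 0 z (n 0 z z)))) (n 0 (n 0 z (n 0 z (n 0 z (n 0 z z))))
 (n 0 (n 0 z (n 0 z (n 0 z (n 0 z z)))) z))))))))) (n 57 (n 0 (n 0 z (n 0 z (n 0 z (n 0 z z))))
 (n 0 (n 0 z (n 0 z (n 0 z (n 0 z z)))) (n 0 (n 0 z (n 0 z (n 0 z (n 0 z z)))) z))) (n 387 (n 0
 (n 0 z (n 0 z (n 0 z (n 0 z z)))) (n 0 (n 0 z (n 0 z (n 0 z (n 0 z z)))) (n 0 (n 0 z (n 0 z (n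
 0 z (n 0 z z)))) (n 0 (n 0 z (n 0 z (n 0 z (n 0 z z)))) (n 0 (n 0 z (n 0 z (n 0 z (n 0 z z))))
 z))))) (n 519 (n 0 (n 0 z (n 0 z (n 0 z (n 0 z z)))) (n 0 (n 0 z (n 0 z (n 0 z (n 0 z z)))) (n
 0 (n 0 z (n 0 z (n 0 z (n 0 z z)))) (n 0 (n 0 z (n 0 z (n 0 z (n 0 z z)))) (n 0 (n 0 z (n 0 z
 (n 0 z (n 0 z z)))) (n 0 (n 0 z (n 0 z (n 0 z (n 0 z z)))) (n 0 (n 0 z (n 0 z (n 0 z (n 0 z
 z)))) (n 0 (n 0 z (n 0 z (n 0 z (n 0 z z)))) z)))))))) (n 495 (n 0 (n 0 z (n 0 z (n 0 z (n 0 z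
 z)))) (n 0 (n 0 z (n 0 z (n 0 z (n 0 z z)))) (n 0 (n 0 z (n 0 z (n 0 z (n 0 z z)))) (n 0 (n 0 z
 (n 0 z (n 0 z (n 0 z z)))) (n 0 (n 0 z (n 0 z (n 0 z (n 0 z z)))) (n 0 (n 0 z (n 0 z (n 0 z (n
 0 z z)))) (n 0 (n 0 z (n 0 z (n 0 z (n 0 z z)))) (n 0 (n 0 z (n 0 z (n 0 z (n 0 z z)))) (n 0 (n
 0 z (n 0 (n 8659283 z z) (n 0 z (n 0 z z)))) (n 0 (n 0 z (n 0 z (n 0 z (n 0 z z)))) z))))))))))
 (n 483 (n 0 (n 0 z (n 0 z (n 0 z (n 0 z z)))) (n 0 (n 0 z (n 0 z (n 0 z (n 0 z z)))) (n 0 (n 0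
 z (n 0 z (n 0 z (n 0 z z)))) (n 0 (n 0 z (n 0 z (n 0 z (n 0 z z)))) (n 0 (n 0 z (n 0 (n 8790275
 z z) (n 0 z (n 0 z z)))) (n 0 (n 0 z (n 0 z (n 0 z (n 0 z z)))) (n 0 (n 0 z (n 0 z (n 0 z (n 0
 z z)))) (n 0 (n 0 z (n 0 z (n 0 z (n 0 z z)))) z)))))))) (n 13 (n 0 (n 0 z (n 0 z (n 0 z (n 0 z
 z)))) (n 0 (n 0 z (n 0 z (n 0 z (n 0 z z)))) (n 0 (n 0 z (n 0 z (n 0 z (n 0 z z)))) (n 0 (n 0 z
 (n 0 z (n 0 z (n 0 z z)))) (n 0 (n 0 z (n 0 z (n 0 z (n 0 z z)))) (n 0 (n 0 z (n 0 z (n 0 z (n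
 0 z z)))) z)))))) (n 641 (n 0 (n 0 z (n 0 z (n 0 z (n 0 z z)))) (n 0 (n 0 z (n 0 z (n 0 z (n 0
 z z)))) (n 0 (n 0 z (n 0 z (n 0 z (n 0 z z)))) (n 0 (n 0 z (n 0 z (n 0 z (n 0 z z)))) (n 0 (n 0
 z (n 0 z (n 0 z (n 0 z z)))) (n 0 (n 0 z (n 0 z (n 0 z (n 0 z z)))) (n 0 (n 0 z (n 0 z (n 0 z
 (n 0 z z)))) (n 0 (n 0 z (n 0 z (n 0 z (n 0 z z)))) (n 0 (n 0 z (n 0 z (n 0 z (n 0 z z)))) (n 0
 (n 0 z (n 0 z (n 0 z (n 0 z z)))) (n 0 (n 0 z (n 0 z (n 0 z (n 0 z z)))) (n 0 (n 0 z (n 0 z (n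
 0 z (n 0 z z)))) z)))))))))))) (n 677 (n 0 (n 0 z (n 0 z (n 0 z (n 0 z z)))) (n 0 (n 0 z (n 0 z
 (n 0 z (n 0 z z)))) (n 0 (n 0 z (n 0 z (n 0 z (n 0 z z)))) (n 0 (n 0 z (n 0 z (n 0 z (n 0 z
 z)))) (n 0 (n 0 z (n 0 z (n 0 z (n 0 z z)))) (n 0 (n 0 z (n 0 z (n 0 z (n 0 z z)))) (n 0 (n 0 z
 (n 0 z (n 0 z (n 0 z z)))) (n 0 (n 0 z (n 0 (n 8800043 z z) (n 0 z (n 0 z z)))) (n 0 (n 0 z (n
 0 z (n 0 z (n 0 z z)))) (n 0 (n 0 z (n 0 z (n 0 z (n 0 z z)))) (n 0 (n 0 z (n 0 z (n 0 z (n 0 z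
 z)))) (n 0 (n 0 z (n 0 z (n 0 z (n 0 z z)))) (n 0 (n 0 z (n 0 z (n 0 z (n 0 z z))))
 z))))))))))))) (n 603 (n 0 (n 0 z (n 0 z (n 0 z (n 0 z z)))) (n 0 (n 0 z (n 0 z (n 0 z (n 0 z
 z)))) (n 0 (n 0 z (n 0 z (n 0 z (n 0 z z)))) (n 0 (n 0 z (n 0 z (n 0 z (n 0 z z)))) (n 0 (n 0 z
 (n 0 z (n 0 z (n 0 z z)))) (n 0 (n 0 z (n 0 z (n 0 z (n 0 z z)))) (n 0 (n 0 z (n 0 z (n 0 z (n
 0 z z)))) (n 0 (n 0 z (n 0 z (n 0 z (n 0 z z)))) (n 0 (n 0 z (n 0 z (n 0 z (n 0 z z)))) (n 0 (n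
 0 z (n 0 z (n 0 z (n 0 z z)))) (n 0 (n 0 z (n 0 z (n 0 z (n 0 z z)))) (n 0 (n 0 z (n 0 z (n 0 z
 (n 0 z z)))) (n 0 (n 0 z (n 0 z (n 0 z (n 0 z z)))) (n 0 (n 0 z (n 0 z (n 0 z (n 0 z z)))) (n 0
 (n 0 z (n 0 z (n 0 z (n 0 z z)))) (n 0 (n 0 z (n 0 z (n 0 z (n 0 z z)))) (n 0 (n 0 z (n 0 z (n
 0 z (n 0 z z)))) (n 0 (n 0 z (n 0 z (n 0 z (n 0 z z)))) (n 0 (n 0 z (n 0 z (n 0 z (n 0 z z))))
 (n 0 (n 0 z (n 0 z (n 0 z (n 0 z z)))) (n 0 (n 0 z (n 0 z (n 0 z (n 0 z z)))) (n 0 (n 0 z (n 0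
 z (n 0 z (n 0 z z)))) (n 0 (n 0 z (n 0 z (n 0 z (n 0 z z)))) (n 0 (n 0 z (n 0 z (n 0 z (n 0 z
 z)))) (n 0 (n 0 z (n 0 z (n 0 z (n 0 z z)))) (n 0 (n 0 z (n 0 z (n 0 z (n 0 z z)))) (n 0 (n 0 z
 (n 0 z (n 0 z (n 0 z z)))) (n 0 (n 0 z (n 0 z (n 0 z (n 0 z z)))) (n 0 (n 0 z (n 0 z (n 0 z (n
 0 z z)))) (n 0 (n 0 z (n 0 z (n 0 z (n 0 z z)))) (n 0 (n 0 z (n 0 (n 8867891 z z) (n 0 z (n 0 z
 z)))) (n 0 (n 0 z (n 0 z (n 0 z (n 0 z z)))) (n 0 (n 0 z (n 0 z (n 0 z (n 0 z z)))) (n 0 (n 0 z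
 (n 0 z (n 0 z (n 0 z z)))) (n 0 (n 0 z (n 0 z (n 0 z (n 0 z z)))) (n 0 (n 0 z (n 0 (n 8728691 z
 (n 8721931 z z)) (n 0 z (n 0 z z)))) (n 0 (n 0 z (n 0 z (n 0 z (n 0 z z)))) (n 0 (n 0 z (n 0 z
 (n 0 z (n 0 z z)))) (n 0 (n 0 z (n 0 z (n 0 z (n 0 z z)))) (n 0 (n 0 z (n 0 z (n 0 z (n 0 z
 z)))) (n 0 (n 0 z (n 0 z (n 0 z (n 0 z z)))) (n 0 (n 0 z (n 0 z (n 0 z (n 0 z z)))) (n 0 (n 0 z
 (n 0 z (n 0 z (n 0 z z)))) (n 0 (n 0 z (n 0 z (n 0 z (n 0 z z)))) (n 0 (n 0 z (n 0 z (n 0 z (n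
 0 z z)))) (n 0 (n 0 z (n 0 z (n 0 z (n 0 z z)))) (n 0 (n 0 z (n 0 z (n 0 z (n 0 z z))))
 z))))))))))))))))))))))))))))))))))))))))))))))) (n 19 (n 0 (n 0 z (n 0 z (n 0 z (n 0 z z))))
 (n 0 (n 0 z (n 0 z (n 0 z (n 0 z z)))) (n 0 (n 0 z (n 0 z (n 0 z (n 0 z z)))) (n 0 (n 0 z (n 0
 z (n 0 z (n 0 z z)))) (n 0 (n 0 z (n 0 z (n 0 z (n 0 z z)))) (n 0 (n 0 z (n 0 z (n 0 z (n 0 z
 z)))) (n 0 (n 0 z (n 0 z (n 0 z (n 0 z z)))) (n 0 (n 0 z (n 0 z (n 0 z (n 0 z z)))) (n 0 (n 0 z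
 (n 0 z (n 0 z (n 0 z z)))) (n 0 (n 0 z (n 0 z (n 0 z (n 0 z z)))) (n 0 (n 0 z (n 0 z (n 0 z (n
 0 z z)))) (n 0 (n 0 z (n 0 z (n 0 z (n 0 z z)))) z)))))))))))) (n 18 (n 0 (n 0 z (n 0 z (n 0 z
 (n 0 z z)))) (n 0 (n 0 z (n 0 z (n 0 z (n 0 z z)))) (n 0 (n 0 z (n 0 z (n 0 z (n 0 z z)))) (n 0
 (n 0 z (n 0 z (n 0 z (n 0 z z)))) (n 0 (n 0 z (n 0 z (n 0 z (n 0 z z)))) (n 0 (n 0 z (n 0 z (n
 0 z (n 0 z z)))) (n 0 (n 0 z (n 0 z (n 0 z (n 0 z z)))) (n 0 (n 0 z (n 0 z (n 0 z (n 0 z z))))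
 (n 0 (n 0 z (n 0 z (n 0 z (n 0 z z)))) (n 0 (n 0 z (n 0 (n
 0x21da1d8806030e70e04038080808080808080808081807f8080808080808080817f807f8080808080808180807f80808080807f80807f7f80808081801009
 z z) (n 0 z (n 0 z z)))) (n 0 (n 0 z (n 0 z (n 0 z (n 0 z z)))) (n 0 (n 0 z (n 0 z (n 0 z (n 0
 z z)))) (n 0 (n 0 z (n 0 z (n 0 z (n 0 z z)))) (n 0 (n 0 z (n 0 z (n 0 z (n 0 z z)))) (n 0 (n 0
 z (n 0 z (n 0 z (n 0 z z)))) (n 0 (n 0 z (n 0 z (n 0 z (n 0 z z)))) (n 0 (n 0 z (n 0 z (n 0 z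
 (n 0 z z)))) (n 0 (n 0 z (n 0 z (n 0 z (n 0 z z)))) (n 0 (n 0 z (n 0 z (n 0 z (n 0 z z)))) (n 0
 (n 0 z (n 0 z (n 0 z (n 0 z z)))) (n 0 (n 0 z (n 0 (n 8799003 z (n 8799003 z z)) (n 0 z (n 0 z
 z)))) (n 0 (n 0 z (n 0 (n 8718139 z z) (n 0 z (n 0 z z)))) (n 0 (n 0 z (n 0 z (n 0 z (n 0 z
 z)))) (n 0 (n 0 z (n 0 z (n 0 z (n 0 z z)))) (n 0 (n 0 z (n 0 z (n 0 z (n 0 z z)))) (n 0 (n 0 z
 (n 0 z (n 0 z (n 0 z z)))) (n 0 (n 0 z (n 0 z (n 0 z (n 0 z z)))) (n 0 (n 0 z (n 0 z (n 0 z (n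
 0 z z)))) (n 0 (n 0 z (n 0 z (n 0 z (n 0 z z)))) (n 0 (n 0 z (n 0 z (n 0 z (n 0 z z)))) (n 0 (n
 0 z (n 0 z (n 0 z (n 0 z z)))) (n 0 (n 0 z (n 0 z (n 0 z (n 0 z z)))) (n 0 (n 0 z (n 0 z (n 0 z
 (n 0 z z)))) (n 0 (n 0 z (n 0 z (n 0 z (n 0 z z)))) (n 0 (n 0 z (n 0 z (n 0 z (n 0 z z)))) (n 0
 (n 0 z (n 0 z (n 0 z (n 0 z z)))) (n 0 (n 0 z (n 0 z (n 0 z (n 0 z z)))) (n 0 (n 0 z (n 0 z (n
 0 z (n 0 z z)))) (n 0 (n 0 z (n 0 z (n 0 z (n 0 z z)))) (n 0 (n 0 z (n 0 z (n 0 z (n 0 z z))))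
 (n 0 (n 0 z (n 0 z (n 0 z (n 0 z z)))) (n 0 (n 0 z (n 0 z (n 0 z (n 0 z z)))) (n 0 (n 0 z (n 0
 z (n 0 z (n 0 z z)))) (n 0 (n 0 z (n 0 z (n 0 z (n 0 z z)))) (n 0 (n 0 z (n 0 (n 8728691 z (n
 8721931 z z)) (n 0 z (n 0 z z)))) (n 0 (n 0 z (n 0 z (n 0 z (n 0 z z)))) (n 0 (n 0 z (n 0 z (n
 0 z (n 0 z z)))) (n 0 (n 0 z (n 0 z (n 0 z (n 0 z z)))) (n 0 (n 0 z (n 0 z (n 0 z (n 0 z z))))
 z))))))))))))))))))))))))))))))))))))))))))))))))) (n 153 (n 0 (n 0 z (n 0 z (n 0 z (n 0 z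
 z)))) (n 0 (n 0 z (n 0 z (n 0 z (n 0 z z)))) (n 0 (n 0 z (n 0 z (n 0 z (n 0 z z)))) (n 0 (n 0 z
 (n 0 z (n 0 z (n 0 z z)))) (n 0 (n 0 z (n 0 z (n 0 z (n 0 z z)))) (n 0 (n 0 z (n 0 z (n 0 z (n
 0 z z)))) (n 0 (n 0 z (n 0 z (n 0 z (n 0 z z)))) (n 0 (n 0 z (n 0 z (n 0 z (n 0 z z)))) (n 0 (n
 0 z (n 0 z (n 0 z (n 0 z z)))) (n 0 (n 0 z (n 0 z (n 0 z (n 0 z z)))) (n 0 (n 0 z (n 0 z (n 0 z
 (n 0 z z)))) (n 0 (n 0 z (n 0 z (n 0 z (n 0 z z)))) (n 0 (n 0 z (n 0 z (n 0 z (n 0 z z)))) (n 0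
 (n 0 z (n 0 z (n 0 z (n 0 z z)))) (n 0 (n 0 z (n 0 z (n 0 z (n 0 z z)))) (n 0 (n 0 z (n 0 z (n
 0 z (n 0 z z)))) (n 0 (n 0 z (n 0 z (n 0 z (n 0 z z)))) z))))))))))))))))) (n 35 (n 0 (n 0 z (n
 0 z (n 0 z (n 0 z z)))) (n 0 (n 0 z (n 0 z (n 0 z (n 0 z z)))) (n 0 (n 0 z (n 0 z (n 0 z (n 0 z
 z)))) z))) (n 9 (n 0 (n 0 z (n 0 z (n 0 z (n 0 z z)))) (n 0 (n 0 z (n 0 z (n 0 z (n 0 z z))))
 (n 0 (n 0 z (n 0 z (n 0 z (n 0 z z)))) (n 0 (n 0 z (n 0 z (n 0 z (n 0 z z)))) (n 0 (n 0 z (n 0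
 z (n 0 z (n 0 z z)))) (n 0 (n 0 z (n 0 z (n 0 z (n 0 z z)))) (n 0 (n 0 z (n 0 z (n 0 z (n 0 z
 z)))) (n 0 (n 0 z (n 0 z (n 0 z (n 0 z z)))) (n 0 (n 0 z (n 0 z (n 0 z (n 0 z z)))) (n 0 (n 0 z
 (n 0 z (n 0 z (n 0 z z)))) (n 0 (n 0 z (n 0 z (n 0 z (n 0 z z)))) (n 0 (n 0 z (n 0 z (n 0 z (n
 0 z z)))) z)))))))))))) (n 3 (n 0 (n 0 z (n 0 z (n 0 z (n 0 z z)))) (n 0 (n 0 z (n 0 z (n 0 z
 (n 0 z z)))) (n 0 (n 0 z (n 0 z (n 0 z (n 0 z z)))) z))) (n 1 (n 0 (n 0 z (n 0 z (n 0 z (n 0 z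
 z)))) (n 0 (n 0 z (n 0 z (n 0 z (n 0 z z)))) (n 0 (n 0 z (n 0 z (n 0 z (n 0 z z)))) (n 0 (n 0 z
 (n 0 z (n 0 z (n 0 z z)))) (n 0 (n 0 z (n 0 z (n 0 z (n 0 z z)))) (n 0 (n 0 z (n 0 z (n 0 z (n
 0 z z)))) z)))))) (n 0 (n 0 (n 0 z (n 0 z (n 0 z (n 0 z z)))) (n 0 (n 0 z (n 0 z (n 0 z (n 0 z
 z)))) (n 0 (n 0 z (n 0 z (n 0 z (n 0 z z)))) (n 0 (n 0 z (n 0 z (n 0 z (n 0 z z)))) (n 0 (n 0 z
 (n 0 z (n 0 z (n 0 z z)))) (n 0 (n 0 z (n 0 z (n 0 z (n 0 z z)))) (n 0 (n 0 z (n 0 z (n 0 z (n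
 0 z z)))) (n 0 (n 0 z (n 0 z (n 0 z (n 0 z z)))) (n 0 (n 0 z (n 0 z (n 0 z (n 0 z z)))) (n 0 (n
 0 z (n 0 z (n 0 z (n 0 z z)))) (n 0 (n 0 z (n 0 z (n 0 z (n 0 z z)))) (n 0 (n 0 z (n 0 z (n 0 z
 (n 0 z z)))) (n 0 (n 0 z (n 0 z (n 0 z (n 0 z z)))) (n 0 (n 0 z (n 0 z (n 0 z (n 0 z z))))
 z)))))))))))))) z))))))))))))))))))))) z)))) z) z)))) (n
 0xd93b46a5aa3375514d8ab0dd51e0ea6f31524c8ad1a4449e6c22f3740 (n 0x1e6ea (n 153 (n 0 z (n 2 z (n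
 3282443 z z))) (n 57 (n 0 z (n 0 z (n 10 z (n 0 z (n 0 z (n 6496515 z (n 0 z z))))))) (n 51 (n
 18 z (n 26 z (n 6496515 z (n 34 z (n 0 z (n
 0x4ca4a2080779f85d7df85f8228647a281f8607e281f7a081e85f89f8e276185e71f91e85f8a17df81f7df0801 z
 (n 0 z (n 6496515 z (n 6562131 z z))))))))) (n 123 (n 6496515 z (n 42 z z)) (n 1 (n 50 z (n 0 z
 (n 0 z (n 6562131 z (n 0 z z))))) (n 0 (n 0 z (n 0 z (n 0 z (n 0 z (n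
 0x2ca886240781e7e08a086185f86381f82176085c82186081f7e18227a186075f8a17e281f7de7e07e28600801 z
 (n 0x4ca88624077dd7df8a28a185e8a381f82079f85b82186085f7628637628e07df8e076185e7df7df8628a10801
 z (n 6632475 z (n 0 z (n 0 z (n
 0x696208197e195e75f8a37e481e8246df71a8a681e8558288a17257a361d7e282885d79966071f7de0041 z (n 0 z
 (n 58 z (n 0 z (n 0 z (n 0 z (n 0 z (n 0 z (n 66 z (n 6619675 z (n 74 z (n 82 z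
 z))))))))))))))))))))) z)))))) (n 123 (n 0 (n 891 (n 0 z (n 0 z (n 0 z (n 0 z z)))) (n 795 (n 2
 (n 0 z (n 0 z (n 2 (n 0 z (n 0 z (n 0 z (n 0 z (n 0 z (n 0 z z)))))) (n 1 z (n 2 (n 0 z (n 0 z
 (n 0 z (n 0 z (n 0 z (n 0 z z)))))) (n 2 (n 0 z (n 0 z (n 0 z (n 0 z (n 0 z (n 0 z z)))))) (n 2
 (n 0 z (n 0 z (n 0 z (n 0 z (n 0 z (n 0 z z)))))) (n 2 (n 0 z (n 0 z (n 0 z (n 0 z (n 0 z (n 0
 z z)))))) z)))))))) (n 0 z (n 0 z (n 0 z (n 0 z (n 0 z (n 0 z (n 0 z (n 0 z (n 0 z (n 0 z (n 0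
 z (n 0 z (n 0 z (n 0 z z))))))))))))))) (n 795 (n 0 z (n 0 z (n 0 z (n 0 z (n 0 z (n 0 z (n 0 z
 (n 0 z (n 2 (n 0 z (n 1 z (n 1 z (n 2 (n 0 z (n 0 z (n 0 z (n 0 (n 1220 z z) (n 0 z (n 0 z
 z)))))) (n 1 z (n 1 z (n 1 z z))))))) (n 0 z (n 0 z (n 0 z (n 0 z (n 0 z (n 0 z
 z))))))))))))))) (n 795 (n 0 z (n 0 z (n 0 z (n 0 z (n 0 z (n 0 z (n 0 z (n 0 z (n 0 z (n 0 z
 (n 0 z (n 0 z (n 0 z (n 0 z (n 0 z z))))))))))))))) (n 315 (n 0 z (n 0 z (n 0 z (n 0 z z)))) (n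
 303 (n 0 z (n 0 z (n 0 z (n 0 z (n 0 z z))))) (n 305 (n 0 z (n 0 z (n 0 z (n 0 z (n 0 z (n 0 z
 (n 2 (n 0 z (n 0 z (n 0 z z))) (n 0 z (n 0 z (n 0 z (n 0 z (n 0 z (n 0 z (n 0 z z))))))))))))))
 (n 305 (n 0 z (n 0 z (n 0 z (n 0 z (n 0 z (n 0 z (n 0 z (n 0 z (n 0 z (n 0 z (n 0 z (n 0 z (n 0
 z (n 0 z z)))))))))))))) (n 305 (n 0 z (n 0 z (n 0 z (n 0 z (n 0 z (n 0 z (n 0 z (n 0 z (n 0 z
 (n 0 z (n 0 z (n 0 z (n 0 z (n 0 z z)))))))))))))) (n 305 (n 0 z (n 0 z (n 0 z (n 0 z (n 0 z (n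
 0 z (n 0 z (n 0 z (n 0 z (n 0 z (n 0 z (n 0 z (n 0 z (n 7677499 z z)))))))))))))) z))))))))))
 (n 0 (n 747 (n 2 (n 0 z (n 0 z (n 2 (n 0 z (n 0 z (n 0 z (n 0 (n 8795435 z z) (n 0 z (n 0 z
 z)))))) (n 1 z (n 2 (n 0 (n 8726075 z z) (n 0 (n 3213435 z z) (n 0 z (n 0 (n 3213435 z (n
 8795915 z z)) (n 0 z (n 0 z z)))))) (n 2 (n 0 z (n 0 z (n 0 z (n 0 (n 8802867 z z) (n 0 z (n 0
 z z)))))) (n 2 (n 0 z (n 0 z (n 0 z (n 0 z (n 0 z (n 0 z z)))))) (n 2 (n 0 z (n 0 z (n 0 z (n 0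
 z (n 0 z (n 0 z z)))))) z)))))))) (n 0 z (n 0 z (n 0 z (n 0 z (n 0 z (n 0 z (n 0 z z)))))))) (n
 747 (n 0 z (n 0 z (n 0 z (n 0 z (n 0 z (n 0 z (n 0 z (n 0 z z)))))))) (n 747 (n 0 z (n 0 z (n 0
 z (n 0 z (n 0 z (n 0 z (n 0 z (n 0 z z)))))))) (n 55 (n 0 z (n 0 z (n 0 z (n 0 z (n 0 z (n 0 z
 (n 0 z z))))))) (n 111 (n 0 z (n 0 z (n 0 z (n 0 z (n 0 z (n 0 z z)))))) (n 109 (n 0 z (n 0 z
 (n 0 z (n 0 z (n 0 z (n 2 (n 0 z (n 0 z (n 0 z z))) (n 0 z (n 0 z (n 0 z z))))))))) (n 109 (n 0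
 z (n 0 z (n 0 z (n 0 z (n 0 z (n 0 z (n 0 z (n 0 z (n 0 z z))))))))) (n 109 (n 0 z (n 0 z (n 0
 z (n 0 z (n 0 z (n 0 z (n 2 (n 0 z z) (n 0 z (n 0 z z))))))))) (n 109 (n 0 z (n 0 z (n 0 z (n 0
 z (n 0 z (n 0 z (n 0 z (n 0 z (n 7677499 z z))))))))) z))))))))) (n 0 (n 0 z (n 0 z (n 267 (n 0
 z (n 0 z (n 0 z (n 2 (n 2 (n 0 z (n 0 z (n 0 z (n 0 (n 8860971 z z) (n 0 z (n 0 z z)))))) (n 2
 (n 0 (n 3213419 z z) (n 0 (n 8861195 z z) (n 0 z (n 0 (n 8726331 z (n 3213419 z z)) (n 0 z (n 0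
 z z)))))) (n 2 (n 0 z (n 0 z (n 0 z (n 0 z (n 0 z (n 0 z z)))))) (n 2 (n 0 z (n 0 z (n 0 z (n 0
 z (n 0 z (n 0 z z)))))) (n 2 (n 0 z (n 0 z (n 0 z (n 0 z (n 0 z (n 0 z z)))))) z))))) (n 0 z (n
 0 z z)))))) (n 735 (n 0 z (n 2 (n 2 (n 0 z (n 0 z (n 0 z (n 0 z (n 0 z (n 0 z z)))))) (n 2 (n 0
 z (n 0 z (n 0 z (n 0 (n 8868403 z z) (n 0 z (n 0 z z)))))) (n 2 (n 0 z (n 0 z (n 0 z (n 0 z (n
 0 z (n 0 z z)))))) (n 2 (n 0 z (n 0 z (n 0 z (n 0 z (n 0 z (n 0 z z)))))) z)))) (n 0 z (n 0 z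
 (n 0 z (n 0 z (n 0 z z))))))) (n 733 (n 0 z (n 0 z (n 0 z (n 0 z (n 0 z (n 0 z (n 0 z (n 0 z (n
 0 z (n 0 z (n 0 z z))))))))))) (n 733 (n 0 z (n 0 z (n 0 z (n 0 z (n 0 z (n 0 z (n 0 z (n 0 z
 (n 0 z (n 2 (n 0 z (n 0 z z)) (n 0 z z))))))))))) (n 733 (n 0 z (n 0 z (n 0 z (n 0 z (n 0 z (n
 0 z (n 0 z (n 0 z (n
 0x10c64ea08037966e1b6496191bb687de8a361e8158647a38127e5a6966c863759a206e27d97a175f8a38a10801 z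
 (n 0 z (n 0 z z))))))))))) (n 733 (n 0 z (n 0 z (n 0 z (n 0 z (n 0 z (n 0 z (n 0 z (n 0 z (n 0
 z (n 0 z (n 0 z z))))))))))) z)))))))) (n 0 (n 0 z (n 267 (n 0 z (n 0 z (n 0 z (n 0 z (n 0 z (n
 0 z (n 0 z z))))))) (n 99 (n 0 z (n 0 z (n 0 z (n 0 z (n 0 z (n 0 z (n 0 z (n 0 z z)))))))) (n
 97 (n 0 z (n 0 z (n 0 z (n 0 z (n 0 z (n 0 z (n 0 z (n 0 z (n 0 z (n 0 z (n 0 z (n 0 z (n 2 (n
 0 z (n 0 z (n 0 z z))) (n 0 z (n 0 z (n 0 z (n 0 z (n 0 z (n 0 z (n 0 z (n 0 z (n 0 z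
 z)))))))))))))))))))))) (n 97 (n 0 z (n 0 z (n 0 z (n 0 z (n 0 z (n 0 z (n 0 z (n 0 z (n 0 z (n
 0 z (n 0 z (n 0 z (n 0 z (n 0 z (n 0 z (n 0 z (n 0 z (n 0 z (n 0 z (n 0 z (n 2 (n 0 z (n 0 z
 z)) (n 0 z z)))))))))))))))))))))) (n 97 (n 0 z (n 0 z (n 0 z (n 0 z (n 0 z (n 0 z (n 0 z (n 0
 z (n 0 z (n 0 z (n 0 z (n 0 z (n 0 z (n 0 z (n 0 z (n 0 z (n 0 z (n 0 z (n 0 z (n 0 z (n 0 z (n
 2 (n 0 z z) z)))))))))))))))))))))) (n 97 (n 0 z (n 0 z (n 0 z (n 0 z (n 0 z (n 0 z (n 0 z (n 0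
 z (n 0 z (n 0 z (n 0 z (n 0 z (n 0 z (n 0 z (n 0 z (n 0 z (n 0 z (n 0 z (n 0 z (n 0 z (n 0 z (n
 0 z z)))))))))))))))))))))) z))))))) (n 0 (n 267 (n 0 z (n 0 z (n 0 z (n 0 z (n 0 z (n 0 z (n 0
 z z))))))) (n 99 (n 0 z (n 0 z (n 0 z (n 0 z (n 0 z (n 0 z (n 0 z (n 0 z z)))))))) (n 97 (n 0 z
 (n 0 z (n 0 z (n 0 z (n 0 z (n 2 (n 0 z (n 0 z (n 0 z z))) (n 0 z (n 0 z (n 0 z (n 0 z (n 0 z
 z))))))))))) (n 97 (n 0 z (n 0 z (n 0 z (n 0 z (n 0 z (n 0 z (n 0 z (n 0 z (n 0 z (n 0 z (n 0 z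
 z))))))))))) (n 97 (n 0 z (n 0 z (n 0 z (n 0 z (n 0 z (n 0 z (n 0 z (n 0 z (n 0 z (n 0 z (n 0 z
 z))))))))))) (n 97 (n 0 z (n 0 z (n 0 z (n 0 z (n 0 z (n 0 z (n 0 z (n 0 z (n 0 z (n 0 z (n 2 z
 z))))))))))) z)))))) (n 0 (n 51 (n 0 z (n 0 z (n 0 z z))) (n 49 (n 0 z (n 0 z (n 0 z (n 0 z (n
 0 z (n 0 z (n 0 z (n 0 z (n 0 z (n 0 z (n 0 z (n 0 z (n 0 z (n 2 (n 0 z (n 0 z (n 0 z z))) (n 0
 z (n 0 z (n 0 z (n 0 z (n 0 z z))))))))))))))))))) (n 49 (n 0 z (n 0 z (n 0 z (n 0 z (n 0 z (n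
 0 z (n 0 z (n 0 z (n 0 z (n 0 z (n 0 z (n 0 z (n 0 z (n 0 z (n 0 z (n 0 z (n 0 z (n 0 z (n 0 z
 z))))))))))))))))))) (n 49 (n 0 z (n 0 z (n 0 z (n 0 z (n 0 z (n 0 z (n 0 z (n 0 z (n 0 z (n 0
 z (n 0 z (n 0 z (n 0 z (n 0 z (n 0 z (n 2 (n 0 z z) (n 0 z (n 0 z (n 0 z z)))))))))))))))))))
 (n 49 (n 0 z (n 0 z (n 0 z (n 0 z (n 0 z (n 0 z (n 0 z (n 0 z (n 0 z (n 0 z (n 0 z (n 0 z (n 0
 z (n 0 z (n 0 z (n 0 z (n 0 z (n 0 z (n 7677499 z z))))))))))))))))))) z))))) (n 0 (n 1 (n 0 z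
 (n 2 (n 0 z (n 0 z (n 0 z z))) (n 0 z (n 0 z (n 0 z (n 0 z (n 0 z (n 0 z (n 0 z (n 0 z (n 0 z
 (n 0 z (n 0 z (n 0 z (n 0 z (n 0 z (n 0 z (n 0 z (n 0 z (n 0 z (n 0 z (n 0 z (n 0 z (n 0 z (n 0
 z z))))))))))))))))))))))))) (n 1 (n 0 z (n 0 z (n 0 z (n 0 z (n 0 z (n 0 z (n 0 z (n 0 z (n 0
 z (n 0 z (n 0 z (n 0 z (n 0 z (n 0 z (n 0 z (n 0 z (n 0 z (n 0 z (n 0 z (n 0 z (n 0 z (n 0 z (n
 0 z (n 0 z (n 0 z z))))))))))))))))))))))))) (n 1 (n 0 z (n 0 z (n 0 z (n 0 z (n 0 z (n 0 z (n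
 0 z (n 0 z (n 0 z (n 0 z (n 0 z (n 0 z (n 0 z (n 0 z (n 0 z (n 0 z (n 0 z (n 0 z (n 0 z (n 0 z
 (n 0 z (n 0 z (n 0 z (n 0 z (n 0 z z))))))))))))))))))))))))) (n 1 (n 0 z (n 0 z (n 0 z (n 0 z
 (n 0 z (n 0 z (n 0 z (n 0 z (n 0 z (n 0 z (n 0 z (n 0 z (n 0 z (n 0 z (n 0 z (n 0 z (n 0 z (n 0
 z (n 0 z (n 0 z (n 0 z (n 0 z (n 0 z (n 0 z (n 7677499 z z))))))))))))))))))))))))) z)))) (n 0
 (n 0 z (n 0 z (n 0 z z))) (n 0 (n 0 z (n 0 z z)) (n 0 (n 0 z z) (n 0 z z))))))))))) (n 0 (n 1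
 (n 6496515 z (n 6496515 z (n 6496515 z (n 6496515 z (n 6496515 z (n 6496515 z z)))))) (n 1 (n
 1228 z (n 1228 z (n 2 z (n 1228 z (n 6554395 z (n 1228 z z)))))) z)) (n 0 (n 0x429b15469112 (n
 0 (n 0 (n 7754291 z (n 7754291 z (n 7754291 z (n 7754291 z (n 7754291 z (n 7754291 z z)))))) z)
 (n 0 (n 153 (n 0 z (n 1 (n 7754291 z (n 7754291 z (n 7754291 z (n 7754291 z (n 7754291 z (n
 7754291 z z)))))) (n 1 (n 6496627 z (n 3282699 z (n 7680611 z (n 3282699 z (n 3282699 z (n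
 3282699 z z)))))) z))) (n 447 (n 1 (n 7545091 z (n 460 z (n 460 z (n 460 z (n 460 z (n 460 z
 z)))))) (n 1 (n 7545091 z (n 4400907 z (n 4400907 z (n 4400907 z (n 4400907 z (n 4400907 z
 z)))))) (n 0 z (n 1 (n 7545091 z (n 7610707 z (n 7610707 z (n 7610707 z (n 7610707 z (n 7610707
 z z)))))) z)))) (n 133 (n 1 (n 2 z (n 7677499 z (n 7754291 z (n 7602971 z (n 3196 z (n 3196 z
 z)))))) (n 0 z (n 1 (n 7545091 z (n 7545091 z (n 7545091 z (n 7545091 z (n 7545091 z (n 7545091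
 z z)))))) (n 1 (n 7545091 z (n 7545091 z (n 7545091 z (n 7545091 z (n 7545091 z (n 7545091 z
 z)))))) (n 1 (n 7545091 z (n 7545091 z (n 7545091 z (n 7545091 z (n 7545091 z (n 7545091 z
 z)))))) (n 1 (n 7610707 z (n 7610707 z (n 7754291 z (n 7610707 z (n 7610707 z (n 7610707 z
 z)))))) (n 1 (n 7545091 z (n 7545091 z (n 7545091 z (n 7545091 z (n 7545091 z (n 7545091 z
 z)))))) z))))))) (n 123 (n 1 (n 7545091 z (n 7545091 z (n 7545091 z (n 7545091 z (n 7545091 z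
 (n 7545091 z z)))))) (n 1 (n 7746859 z (n 7746859 z (n 7680611 z (n 7746859 z (n 7746859 z (n
 7746859 z z)))))) z)) (n 27 (n 1 (n 7545091 z (n 7545091 z (n 7545091 z (n 7545091 z (n 7545091
 z (n 7545091 z z)))))) (n 0 z (n 1 (n 7610707 z (n 7610707 z (n 7754291 z (n 7610707 z (n
 7610707 z (n 7610707 z z)))))) z))) (n 59 (n 1 (n 7545091 z (n 7545091 z (n 7545091 z (n
 7545091 z (n 7545091 z (n 7545091 z z)))))) (n 1 (n 7545091 z (n 7545091 z (n 7545091 z (n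
 7545091 z (n 7545091 z (n 7545091 z z)))))) (n 1 (n 1228 z (n 7602971 z (n 1228 z (n 1228 z (n
 0x2ea8c824037de7de86186189f86482081e7a085e82182081f7a18227e08a08208607e085e7e081e8218200801 z
 (n 7668251 z z)))))) (n 0 z (n 1 (n 7545091 z (n 7545091 z (n 7545091 z (n 7545091 z (n 7545091
 z (n 7545091 z z)))))) (n 1 (n 6493963 z (n 1228 z (n 1228 z (n 10 z (n 7668251 z (n 1228 z
 z)))))) (n 1 (n 6428427 z (n 1228 z (n 1228 z (n 1228 z (n 7602971 z (n 7681051 z z)))))) (n 1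
 (n 7754291 z (n 7754291 z (n 7754291 z (n 7754291 z (n 7754291 z (n 7754291 z z)))))) (n 1 (n
 7677499 z (n 7668251 z (n 7677499 z (n 7677499 z (n 7677499 z (n 6566259 z z)))))) z)))))))))
 (n 123 (n 1 (n 7545091 z (n 7545091 z (n 7545091 z (n 7545091 z (n 7545091 z (n 7545091 z
 z)))))) (n 1 (n 7746859 z (n 7746859 z (n 7754291 z (n 7746859 z (n 7602971 z (n 7746859 z
 z)))))) z)) z))))))) (n 0 (n 0 (n 0 z (n 0 z z)) (n 0 (n 0 z z) z)) (n 0 (n 447 (n 0 (n 0 z (n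
 0 z z)) (n 0 (n 0 z (n 0 z z)) (n 0 (n 0 z (n 0 z z)) (n 0 (n 0 z (n 0 z z)) z)))) (n 399 (n 0
 (n 0 (n 8873275 z z) (n 0 z z)) (n 0 (n 0 z (n 0 (n 8729187 z z) z)) (n 0 (n 0 z (n 0 (n
 8729187 z z) z)) (n 0 (n 0 (n 8729187 z z) (n 0 z z)) (n 0 (n 0 z (n 0 z z)) (n 0 (n 0 (n
 8873275 z (n 8873275 z z)) (n 0 z z)) (n 0 (n 0 (n
 0x50a4a628037df81f7df85f8208228218208207e18608217df7e085f8637a081e7e08a185f7e07df7e18200801 z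
 (n 0x30caeca8077e082085f8208608618208617e085f82082082081f8608607df85f7e082085f8207df8208200801
 z z)) (n 0 z z)) (n 0 (n 0 z (n 0 z z)) (n 0 (n 0 z (n 0 z z)) (n 0 (n 0 (n 8726075 z (n
 8726075 z z)) (n 0 (n 8726075 z (n 8726075 z z)) z)) (n 0 (n 0 (n 8651547 z z) (n 0 z z)) (n 0
 (n 0 z (n 0 z z)) (n 0 (n 0 z (n 0 z z)) (n 0 (n 0 z (n 0 z z)) (n 0 (n 0 (n 8802867 z (n
 8802867 z z)) (n 0 z z)) z))))))))))))))) (n 375 (n 0 (n 0 z (n 0 z z)) (n 0 (n 0 z (n 0 z z))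
 (n 0 (n 0 z (n 0 z z)) (n 0 (n 0 z (n 0 z z)) (n 0 (n 0 z (n 0 z z)) (n 0 (n 0 z (n 0 z z)) (n
 0 (n 0 z (n 0 z z)) (n 0 (n 0 z (n 0 z z)) z)))))))) (n 159 (n 0 (n 0 z (n 0 z z)) (n 0 (n 0 z
 (n 0 z z)) (n 0 (n 0 (n
 0x30caeca8078208208208208208208608208208208208208208208208208208208208208208208208208200801 z
 (n 0x158768a185f7e07a18217e07e281e8207a086081e8627e07617de7df8628207e28a17e08a17e18600041 z z))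
 (n 0 (n 0x1d87285f81f82079f82186082181f7df7e08208208217e086182079f8607e07e181e8617e08217e00041
 z (n
 0x1865651403870a4ca28037df79f91e81f8618e17e08a375f7dc7a37e081b82285f86475e71c7a28e481e81d6e176279f1001
 z z)) z)) (n 0 (n 0 z (n 0 z z)) z)))) (n 33 (n 0 (n 0 z (n 0 z z)) (n 0 (n 0 z (n 0 z z)) (n 0
 (n 0 z (n 0 z z)) (n 0 (n 0 z (n 0 (n 8593667 z z) z)) (n 0 (n 0 z (n 0 z z)) (n 0 (n 0 z (n 0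
 z z)) (n 0 (n 0 z (n 0 z z)) z))))))) (n 135 (n 0 (n 0 (n 4262011 z z) (n 0 z z)) (n 0 (n 0 z
 (n 0 z z)) (n 0 (n 0 z (n 0 z z)) (n 0 (n 0 z (n 0 z z)) (n 0 (n 0 z (n 0 z z)) (n 0 (n 0 z (n
 0 z z)) (n 0 (n 0 z (n 0 z z)) z))))))) (n 153 (n 0 (n 0 (n 8873275 z z) (n 0 z z)) (n 0 (n 0 z
 (n 0 z z)) (n 0 (n 0 z (n 0 z z)) (n 0 (n 0 z (n 0 z z)) (n 0 (n 0 z (n 0 z z)) z))))) (n 57 (n
 0 (n 0 (n 8795915 z z) (n 0 z z)) (n 0 (n 0 z (n 0 z z)) (n 0 (n 0 z (n 0 z z)) (n 0 (n 0 z (n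
 0 z z)) (n 0 (n 0 z (n 0 z z)) (n 0 (n 0 z (n 0 z z)) z)))))) (n 51 (n 0 (n 0 z (n 0 (n 3213435
 z z) z)) (n 0 (n 0 z (n 0 z z)) (n 0 (n 0 z (n 0 z z)) (n 0 (n 0 z (n 0 z z)) (n 0 (n 0 z (n 0
 z z)) (n 0 (n 0 z (n 0 z z)) (n 0 (n 0 z (n 0 z z)) (n 0 (n 0 z (n 0 z z)) z)))))))) (n 27 (n 0
 (n 0 z (n 0 z z)) (n 0 (n 0 z (n 0 z z)) (n 0 (n 0 z (n 0 z z)) z))) (n 153 (n 0 (n 0 z (n 0 (n
 8651547 z z) z)) (n 0 (n 0 z (n 0 z z)) (n 0 (n 0 z (n 0 z z)) (n 0 (n 0 z (n 0 z z)) (n 0 (n 0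
 z (n 0 z z)) (n 0 (n 0 z (n 0 z z)) (n 0 (n 0 z (n 0 z z)) (n 0 (n 0 z (n 0 z z)) (n 0 (n 0 z
 (n 0 z z)) (n 0 (n 0 z (n 0 z z)) (n 0 (n 0 (n 8729627 z (n 8729627 z z)) (n 0 z z)) (n 0 (n 0
 z (n 0 z z)) (n 0 (n 0 z (n 0 z z)) (n 0 (n 0 z (n 0 z z)) z)))))))))))))) (n 59 (n 0 (n 0 z (n
 0 z z)) (n 0 (n 0 z (n 0 z z)) (n 0 (n 0 z (n 0 z z)) (n 0 (n 0 z (n 0 z z)) (n 0 (n 0 z (n 0 z
 z)) (n 0 (n 0 z (n 0 z z)) (n 0 (n 0 z (n 0 z z)) (n 0 (n 0 z (n 0 z z)) (n 0 (n 0 z (n 0 z z))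
 z))))))))) (n 53 (n 0 (n 0 z (n 0 z z)) (n 0 (n 0 z (n 0 z z)) (n 0 (n 0 z (n 0 z z)) (n 0 (n 0
 z (n 0 z z)) (n 0 (n 0 z (n 0 z z)) (n 0 (n 0 (n 3213435 z z) (n 0 z z)) (n 0 (n 0 z (n 0 z z))
 (n 0 (n 0 z (n 0 z z)) (n 0 (n 0 z (n 0 z z)) (n 0 (n 0 z (n 0 z z)) (n 0 (n 0 z (n 0 z z))
 z))))))))))) (n 29 (n 0 (n 0 (n 0xe850a2c070821 z z) (n 0 z z)) (n 0 (n 0 z (n 0 z z)) (n 0 (n
 0 z (n 0 z z)) (n 0 (n 0 z (n 0 z z)) (n 0 (n 0 (n 8593667 z (n 8593667 z z)) (n 0 z z)) (n 0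
 (n 0 z (n 0 z z)) (n 0 (n 0 z (n 0 z z)) (n 0 (n 0 (n 8593667 z z) (n 0 z z)) (n 0 (n 0 z (n 0
 z z)) (n 0 (n 0 z (n 0 (n 8593667 z (n 8593667 z z)) z)) (n 0 (n 0 z (n 0 z z)) (n 0 (n 0 z (n
 0 z z)) (n 0 (n 0 (n 8593667 z z) (n 0 z z)) (n 0 (n 0 z (n 0 (n 8868907 z z) z)) (n 0 (n 0 z
 (n 0 z z)) (n 0 (n 0 z (n 0 z z)) (n 0 (n 0 z (n 0 z z)) (n 0 (n 0 z (n 0 z z)) (n 0 (n 0 z (n
 0 z z)) z))))))))))))))))))) (n 1 (n 0 (n 0 z (n 0 z z)) (n 0 (n 0 (n 3213435 z z) (n 0 z z))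
 (n 0 (n 0 z (n 0 z z)) (n 0 (n 0 z (n 0 z z)) (n 0 (n 0 z (n 0 z z)) (n 0 (n 0 z (n 0 z z)) (n
 0 (n 0 z (n 0 z z)) (n 0 (n 0 z (n 0 z z)) (n 0 (n 0 z (n 0 z z)) (n 0 (n 0 z (n 0 z z)) (n 0
 (n 0 z (n 0 z z)) (n 0 (n 0 z (n 0 z z)) (n 0 (n 0 z (n 0 z z)) (n 0 (n 0 z (n 0 z z)) (n 0 (n
 0 z (n 0 z z)) (n 0 (n 0 z (n 0 z z)) (n 0 (n 0 z (n 0 z z)) (n 0 (n 0 z (n 0 z z)) (n 0 (n 0
 (n 8802867 z (n 8802867 z z)) (n 0 z z)) (n 0 (n 0 z (n 0 z z)) (n 0 (n 0 z (n 0 z z)) (n 0 (n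
 0 z (n 0 z z)) (n 0 (n 0 z (n 0 z z)) (n 0 (n 0 z (n 0 z z)) (n 0 (n 0 z (n 0 z z))
 z))))))))))))))))))))))))) (n 153 (n 0 (n 0 z (n 0 z z)) (n 0 (n 0 z (n 0 z z)) (n 0 (n 0 z (n
 0 z z)) z))) (n 57 (n 0 (n 0 z (n 0 z z)) (n 0 (n 0 z (n 0 z z)) (n 0 (n 0 z (n 0 z z)) (n 0 (n
 0 (n 8795435 z z) (n 0 z z)) (n 0 (n 0 z (n 0 z z)) (n 0 (n 0 z (n 0 z z)) (n 0 (n 0 z (n 0 z
 z)) z))))))) (n 51 (n 0 (n 0 (n 8873275 z z) (n 0 z z)) (n 0 (n 0 z (n 0 z z)) (n 0 (n 0 z (n 0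
 z z)) (n 0 (n 0 z (n 0 z z)) (n 0 (n 0 z (n 0 (n 7616539 z z) z)) (n 0 (n 0 z (n 0 z z)) (n 0
 (n 0 z (n 0 z z)) (n 0 (n 0 z (n 0 z z)) (n 0 (n 0 z (n 0 z z)) z))))))))) (n 123 (n 0 (n 0 z
 (n 0 z z)) (n 0 (n 0 z (n 0 z z)) z)) (n 1 (n 0 (n 0 z (n 0 z z)) (n 0 (n 0 (n 8802867 z (n
 8802867 z z)) (n 0 (n 8802867 z (n 8802867 z z)) z)) (n 0 (n 0 (n 8802867 z z) (n 0 (n 8802867
 z z) z)) (n 0 (n 0 z (n 0 z z)) (n 0 (n 0 z (n 0 z z)) z))))) (n 0 (n 0 (n 0 (n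
 0x1d87485f81f82079f82186082181f7df7e08208208217e086182079f8607e07e181e8617e08217e00041 z (n
 0x30cae648078608607e17e08207df7e18208207e08208608218207e081f7e08608208218207e08208208200801 z
 z)) (n 0 z z)) (n 0 (n 0 (n
 0xd8218a085f7df7a18217e07e17df8207df86081f86181e7a07de82082181f7e18617df8218218210041 z (n
 0x158218a185f7e07a18217e07e281e8207a086081e8627e07617de7df8628207e28a17e08a17e18600041 z z)) (n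
 0 z z)) (n 0 (n 0 z (n 0 z z)) (n 0 (n 0 (n
 0x818328577e099d7208a482581e82565e7198e881d8128698a16e776459d7a382a81c7565e16df7dd0041 z (n
 0x4183285b8208de7608a282281f82375e79b8a481f8198658617a37e269f7e282581e79c7207a07de0041 z z)) (n
 0 z z)) (n 0 (n 0 z (n 0 z z)) (n 0 (n 0 z (n 0 z z)) (n 0 (n 0 z (n 0 (n 8729627 z z) z)) (n 0
 (n 0 z (n 0 z z)) (n 0 (n 0 z (n 0 z z)) (n 0 (n 0 z (n 0 z z)) (n 0 (n 0 z (n 0 z z)) (n 0 (n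
 0 z (n 0 z z)) (n 0 (n 0 z (n 0 z z)) (n 0 (n 0 z (n 0 z z)) (n 0 (n 0 (n 8716827 z (n 8716827
 z z)) (n 0 z z)) (n 0 (n 0 z (n 0 z z)) (n 0 (n 0 z (n 0 z z)) (n 0 (n 0 z (n 0 z z)) (n 0 (n 0
 z (n 0 z z)) (n 0 (n 0 z (n 0 z z)) (n 0 (n 0 z (n 0 z z)) z)))))))))))))))))))))
 z))))))))))))))))))))) z)))) z) z)))) (n 0x2064992b04a3489952e066564130bc29 (n 0 (n 467 (n
 6561875 z (n 0 z (n 0 z z))) (n 33 (n 0 z (n 0 z (n 0 z (n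
 0xca8ca84077df82086082082181f85e7e085f82182082081f8607e08618208208208207df8208208208200801 z (n
 0xca8ca84077df82086082082181f85e7e085f82182082081f8607e08618208208208207df8208208208200801 z (n
 0 z (n 0 z (n 0 z (n 0 z (n 0 z (n 0 z (n 0 z (n 0 z (n 0 z (n 0 z (n 0 z (n 0 z (n 0 z (n 0 z
 (n 0 z (n
 0x6ca8a8640382081f7df82285e81e8e18207e18a08617a07e28627e082081d8a386289d86282475d8628610801 z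
 (n 2 z (n 0 z (n 0 z (n
 0x6ca8a8640382181d9207e379f7df85f79e7e189f8207a18258227a48208608618a189c82472275e8628a00801 z
 (n 10 z (n
 0x6ca8a8040382081f7df82285e81e8e18207e18a08617a07e28627e082081d8a386289d86282475d8628610801 z
 (n 18 z (n 6624299 z (n 5375515 z (n 4392475 z (n 3278363 z z))))))))))))))))))))))))))))))))
 (n 129 (n 26 z (n 6566419 z (n
 0x165251040182ca8ca800781f85f82085f82085f86081f82182185f7e082086182082081f8208207e086086081f8208201001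
 z (n 0 z (n 6566419 z (n 34 z (n 6561875 z (n 6561875 z (n 6566419 z z))))))))) (n 3 (n 6566419
 z (n 0 z (n 0 z (n 0 z z)))) (n 1 (n 0 z (n
 0x265453020184ca8a2040385f89d85e82082081e8218a082282082182179d99f8608a18dc8a18a389a8a082375d8218e01001
 z (n
 0x14ca8a624037df7a289e8a08a17de85e7e185e7e189f8a28a065b7627df7e16dc8606258608dd7a76e395b0801 z
 (n 0 z (n 6566419 z (n
 0x1565082082082081f86081f8208218208208208208208207a18208208208208208218207e18218200041 z (n 0 z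
 (n 0 z (n 42 z (n 0 z (n 0 z (n 0 z (n 0 z (n
 0xca4ca40078208608208208208208208208208208208208208208208208208208208208208208208208200801 z (n
 6566419 z z))))))))))))))) (n 0 (n 0 z (n 0 z (n 0 z (n 0 z (n 6632459 z z))))) z)))))) (n 467
 (n 0 (n 0 z (n 0 z (n 933 (n 0 z (n 0 z (n 0 z (n 0 z (n 0 z (n 2 (n 0 z (n 1 z z)) z)))))) (n
 933 (n 0 z (n 0 z (n 0 z (n 0 z (n 0 z (n 0 z z)))))) (n 925 (n 2 z (n 0 z (n 0 z (n 0 z (n 0 z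
 z))))) z))))) (n 0 (n 0 z (n 927 (n 0 z (n 0 z (n 0 z (n 2 (n 0 z (n 1 z z)) (n 0 z (n 0 z
 z)))))) (n 927 (n 0 z (n 0 z (n 0 z (n 0 z (n 0 z (n 0 z z)))))) (n 243 (n 0 z (n 0 z (n 0 z (n
 0 z (n 0 z (n 0 z (n 0 z (n 0 z z)))))))) z)))) (n 0 (n 411 (n 0 z (n 0 z (n 0 z (n 0 z (n 0 z
 (n 0 z (n 0 z (n 0 z (n 0 z z))))))))) (n 411 (n 0 z (n 0 z (n 0 z (n 0 z (n 2 (n 1 z z) (n 0 z
 (n 0 z (n 0 z (n 0 z z))))))))) (n 51 (n 0 z (n 0 z (n 6428427 z (n 0 z z)))) z))) (n 0 (n 0 z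
 (n 857 (n 0 z (n 0 z (n 0 z (n 0 z (n 0 z (n 0 z (n 0 z (n 0 z z)))))))) z)) (n 0 (n 531 (n 0 z
 (n 0 z (n 0 z (n 0 z (n 0 z (n 0 z (n 0 z (n 0 z (n 0 z (n 0 z z)))))))))) z) (n 0 z z)))))) (n
 0 (n 1 (n 6561875 z (n 6561875 z (n 6561875 z (n 6561875 z (n 6561875 z (n 6561875 z z)))))) (n
 0 z (n 0 z z))) (n 0 z z)))) z)))))))))), by decide +kernel⟩

theorem g7_55 : RgOk KT RW [10436, 10446, 10456, 10466, 10476, 10486, 10496, 10506, 10516, 10526, 10536] := ⟨i10436, ⟨i10446, ⟨i10456, ⟨i10466, ⟨i10476, ⟨i10486, ⟨i10496, ⟨i10506, ⟨i10516, ⟨i10526, True.intro⟩⟩⟩⟩⟩⟩⟩⟩⟩⟩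

end Pool.Agent.Lib.EPS9
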