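import Pool.Agent.Lib.MP_c7e7f6_eps.Core4
import Pool.Agent.Lib.MP_c7e7f6_eps.KtAll

/-!
Extensions of the words from number 10536 on.
-/

set_option autoImplicit false

namespace Pool.Agent.Lib.EPS9

open Tr

theorem i10536 : ∃ t, chkR KT RW t 10536 10540 = true := ⟨(n
 0x1612a866b94196bb41b1c62146112d7086e2848b5b260ad13286496c224cb40 (n 0x996b (n 153 (n 2 z (n 0
 z (n 6557747 z (n 0 z z)))) (n 33 (n 10 z (n 18 z (n 0 z (n 6557747 z (n 0 z (n 0 z (n 0 z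
 z))))))) (n 9 (n 0 z (n 26 z (n 0 z (n 0 z (n 6496523 z (n 0 z (n 0 z (n 0 z z)))))))) (n 3 (n
 34 z (n 0 z (n 0 z (n 0 z (n 0 z (n 6631491 z (n 6631491 z (n 0 z (n 0 z z))))))))) (n 1 (n 42
 z (n 50 z (n 6557747 z (n 0 z (n 58 z (n 66 z z)))))) (n 0 (n 74 z (n
 0x15a610887f7a74837e897c79685c9d658d808c77996fa5785a6d9496629b8283559a886d6389ad99805a96946db559624b8c93976e0049
 z (n 6631491 z (n 6631491 z (n 0 z (n 0 z (n 6631491 z (n 0 z (n 0 z (n 0 z (n 82 z (n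
 0x112621867f7b76837f877c7c6c63986a8a7f8a7994739d7961708f92689683825d9586716987a5948062929070aa6168558a8f92720049
 z (n 0 z (n 0 z (n 0 z (n 0 z (n
 0xec86c8640372f550d5b9d9b5956966162416c8797ed3e05aa617d1e4cca24c223a0ed87e0a1e9987dc66c0801 z
 (n 0 z (n
 0x2c86c864037a27df85e85f8607e181f8608208208608618617e08208208208207e08608218208208208200801 z
 (n 90 z (n
 0x4c84c806037a179f8608608617a379e8627a085f8608218207a08e081f81f8208208a082186079f8208200801 z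
 (n 0xc86c864037e179f8218608607e37df8207e081f8608208207a08a07df89f81f82089f7e08607e08218200801 z
 (n 0x6c86c8640376a75e81f8a382462782395c69e7a68687a571c79c96665a6e17634a09a285fa268607646df0801
 z (n 0 z (n 0 z (n
 0xc86c864037e27df81f8608a17e17e08617e08208a081f8217df8627de81e7e08208608208a17df7e181f0801 z
 z)))))))))))))))))))))))))) z)))))) (n 153 (n 0 (n 191 (n 0 z (n 0 z (n 2 (n 0 z (n 1 z (n 1 z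
 (n 1 z (n 1 z (n 1 z (n 1 z (n 1 z (n 1 z (n 1 z z)))))))))) (n 0 z (n 0 z (n 0 z (n 0 z
 z))))))) (n 191 (n 0 z (n 0 z (n 0 z (n 0 z (n 0 z (n 0 z (n 0 z z))))))) (n 189 (n 0 z (n 0 z
 (n 0 z (n 0 z (n 0 z (n 0 z z)))))) (n 181 (n 0 z (n 0 z (n 0 z (n 0 z (n 0 z (n 0 z (n 0 z (n
 0 z (n 0 z (n 0 z (n 0 z (n 0 z (n 0 z (n 0 z z)))))))))))))) (n 303 (n 2 (n 0 z (n 0 z (n 0 z
 (n 2 (n 0 z (n 0 z (n 0 z (n 0 z (n 0 z (n 0 z z)))))) (n 2 (n 0 z (n 0 z (n 0 z (n 0 z (n 0 z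
 (n 0 z z)))))) (n 1 z z)))))) (n 0 z (n 0 z (n 0 z (n 0 z (n 0 z (n 0 z z))))))) (n 303 (n 0 z
 (n 0 z (n 0 z (n 0 z (n 0 z (n 0 z (n 0 z z))))))) (n 303 (n 0 z (n 0 z (n 2 (n 0 z (n 2 (n 0 z
 (n 0 z (n 0 z (n 0 z (n 0 z (n 0 z z)))))) (n 2 (n 0 z (n 0 z (n 0 z (n 0 z (n 0 z (n 0 z
 z)))))) (n 1 z z)))) (n 0 z (n 0 z (n 0 z (n 0 z z))))))) (n 303 (n 0 z (n 0 z (n 0 z (n 0 z (n
 0 z (n 0 z (n 2 (n 2 (n 0 z (n 0 z (n 0 z (n 0 z (n 0 z (n 0 z z)))))) (n 2 (n 0 z (n 0 z (n 0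
 z (n 0 z (n 0 z (n 0 z z)))))) (n 2 (n 0 z (n 0 z (n 0 z (n 0 z (n 0 z (n 0 (n 8782363 z z)
 z)))))) z))) z))))))) (n 305 (n 0 z (n 0 z (n 0 z (n 0 z (n 0 z (n 0 z (n 0 z (n 0 z z))))))))
 (n 305 (n 0 z (n 0 z (n 0 z (n 0 z (n 2 (n 0 z z) (n 0 z (n 0 z (n 0 z z)))))))) (n 305 (n 0 z
 (n 0 z (n 0 z (n 0 z (n 0 z (n 0 z (n 0 z (n 0 z z)))))))) z))))))))))) (n 0 (n 0 z (n 423 (n 0
 z (n 0 z (n 0 z (n 0 z (n 2 (n 1 z (n 1 z (n 1 z (n 1 z (n 1 z (n 1 z (n 1 z (n 1 z z))))))))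
 (n 0 z (n 0 z (n 0 z z)))))))) (n 421 (n 0 z (n 0 z (n 0 z (n 0 z (n 0 z (n 0 z (n 0 z (n 0 z
 (n 0 z (n 0 z (n 0 z (n 0 z (n 2 (n 1 z (n 1 z (n 1 z (n 1 z (n 1 z (n 1 z (n 1 z z))))))) (n 0
 z (n 0 z (n 0 z (n 0 z (n 0 z z)))))))))))))))))) (n 51 (n 0 z (n 0 z (n 0 z (n 0 z (n 0 z (n 0
 z (n 0 z (n 0 z (n 0 z (n 0 z (n 0 z (n 0 z z)))))))))))) (n 51 (n 2 (n 0 z (n 0 z (n 2 (n 0 z
 (n 0 z (n 0 z (n 0 z (n 0 z (n 0 z z)))))) (n 2 (n 0 z (n 0 z (n 0 z (n 0 z (n 0 z (n 0 (n 4052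
 z z) z)))))) (n 1 z z))))) (n 0 z (n 0 z (n 0 z (n 0 z (n 0 z (n 0 z (n 0 z (n 0 z (n 0 z (n 0
 z (n 0 z z)))))))))))) (n 51 (n 0 z (n 0 z (n 0 z (n 0 z (n 0 z (n 2 (n 0 z (n 1 z (n 1 z (n 1
 z z)))) (n 0 z (n 0 z (n 0 z (n 0 z (n 0 z (n 0 z z)))))))))))) (n 51 (n 0 z (n 0 z (n 0 z (n 0
 z (n 0 z (n 0 z (n 0 z (n 0 z (n 2 (n 2 (n 0 z (n 0 z (n 0 z (n 0 z (n 0 z (n 0 z z)))))) (n 2
 (n 0 z (n 0 z (n 0 z (n 0 z (n 0 z (n 0 z z)))))) (n 2 (n 0 z (n 0 z (n 0 z (n 0 z (n 0 z (n 0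
 z z)))))) z))) (n 0 z (n 0 z (n 0 z z)))))))))))) (n 1013 (n 0 z (n 0 z (n 0 z (n 0 z (n 0 z (n
 0 z (n 0 z (n 0 z (n 0 z (n 0 z (n 2 (n 0 z (n 0 z z)) (n 0 z (n 0 z (n 0 z (n 0 z (n 0 z (n 0
 z (n 0 z (n 0 z (n 0 z (n 0 z (n 0 z (n 0 z (n 0 z (n 0 z (n 0 z (n 0 z (n 0 z (n 0 z
 z))))))))))))))))))))))))))))) (n 1013 (n 0 z (n 0 z (n 0 z (n 0 z (n 0 z (n 0 z (n 2 (n 0 z z)
 (n 0 z (n 0 z (n 0 z (n 0 z (n 0 z (n 0 z (n 0 z (n 0 z (n 0 z (n 0 z (n 0 z (n 0 z (n 0 z (n 0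
 z (n 0 z (n 0 z (n 0 z (n 0 z (n 0 z (n 0 z (n 0 z (n 0 z z))))))))))))))))))))))))))))) (n
 1013 (n 0 z (n 0 z (n 0 z (n 0 z (n 0 z (n 0 z (n 0 z (n 0 z (n 0 z (n 0 z (n 0 z (n 0 z (n 0 z
 (n 0 z (n 0 z (n 0 z (n 0 z (n 0 z (n 0 z (n 0 z (n 0 z (n 0 z (n 0 z (n 0 z (n 0 z (n 0 z (n 0
 z (n 0 z (n 0 z z))))))))))))))))))))))))))))) z)))))))))) (n 0 (n 423 (n 0 z (n 0 z (n 0 z (n
 0 z (n 0 z (n 0 z (n 0 z (n 0 z (n 0 z (n 0 z z)))))))))) (n 421 (n 0 z (n 0 z (n 0 z (n 0 z (n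
 0 z (n 0 z (n 0 z (n 0 z (n 0 z (n 0 z (n 0 z (n 0 z (n 0 z (n 0 z (n 0 z (n 0 z
 z)))))))))))))))) (n 63 (n 2 (n 0 z (n 0 z (n 0 z (n 2 (n 0 z (n 0 z (n 0 z (n 0 z (n 0 z (n 0
 z z)))))) (n 2 (n 0 z (n 0 z (n 0 z (n 0 z (n 0 z (n 0 (n 260 z z) z)))))) (n 1 z z)))))) (n 0
 z (n 0 z (n 0 z (n 0 z (n 0 z (n 0 z (n 0 z (n 0 z z))))))))) (n 63 (n 0 z (n 0 z (n 0 z (n 0 z
 (n 0 z (n 0 z (n 0 z (n 0 z (n 0 z z))))))))) (n 63 (n 0 z (n 0 z (n 0 z (n 0 z (n 0 z (n 0 z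
 (n 0 z (n 0 z (n 0 z z))))))))) (n 63 (n 0 z (n 0 z (n 0 z (n 0 z (n 0 z (n 2 (n 2 (n 0 z (n 0
 z (n 0 z (n 0 z (n 0 z (n 0 z z)))))) (n 2 (n 0 z (n 0 z (n 0 z (n 0 z (n 0 z (n 0 z z)))))) (n
 2 (n 0 z (n 0 z (n 0 z (n 0 z (n 0 z (n 0 z z)))))) z))) (n 0 z (n 0 z (n 0 z z))))))))) (n 65
 (n 0 z (n 0 z (n 0 z (n 0 z (n 0 z (n 0 z (n 0 z (n 0 z (n 0 z (n 0 z (n 0 z (n 0 z (n 0 z (n 0
 z (n 0 z (n 0 z (n 0 z (n 0 z (n 0 z (n 0 z (n 0 z (n 0 z (n 0 z (n 0 z (n 0 z (n 0 z (n 0 z (n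
 0 z (n 0 z (n 0 z (n 0 z (n 0 z (n 0 z (n 0 z (n 0 z (n 0 z (n 0 z (n 0 z (n 0 z (n 0 z (n 0 z
 (n 0 z (n 0 z (n 0 z (n 0 z (n 0 z z)))))))))))))))))))))))))))))))))))))))))))))) (n 65 (n 0 z
 (n 0 z (n 0 z (n 0 z (n 0 z (n 0 z (n 0 z (n 0 z (n 0 z (n 0 z (n 0 z (n 0 z (n 0 z (n 0 z (n 0
 z (n 0 z (n 0 z (n 0 z (n 0 z (n 0 z (n 0 z (n 2 (n 0 z z) (n 0 z (n 0 z (n 0 z (n 0 z (n 0 z
 (n 0 z (n 0 z (n 0 z (n 0 z (n 0 z (n 0 z (n 0 z (n 0 z (n 0 z (n 0 z (n 0 z (n 0 z (n 0 z (n 0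
 z (n 0 z (n 0 z (n 0 z (n 0 z (n 0 z z)))))))))))))))))))))))))))))))))))))))))))))) (n 65 (n 0
 z (n 0 z (n 0 z (n 0 z (n 0 z (n 0 z (n 0 z (n 0 z (n 0 z (n 0 z (n 0 z (n 0 z (n 0 z (n 0 z (n
 0 z (n 0 z (n 0 z (n 0 z (n 0 z (n 0 z (n 0 z (n 0 z (n 0 z (n 0 z (n 0 z (n 0 z (n 0 z (n 0 z
 (n 0 z (n 0 z (n 0 z (n 0 z (n 0 z (n 0 z (n 0 z (n 0 z (n 0 z (n 0 z (n 0 z (n 0 z (n 0 z (n 0
 z (n 0 z (n 0 z (n 0 z (n 0 z z)))))))))))))))))))))))))))))))))))))))))))))) z))))))))) (n 0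
 (n 661 (n 0 z (n 0 z (n 0 z (n 0 z (n 0 z (n 0 z (n 0 z (n 0 z (n 0 z (n 0 z (n 0 z (n 0 z (n 0
 z (n 0 z (n 0 z (n 0 z (n 0 z (n 0 z z)))))))))))))))))) (n 15 (n 0 z (n 2 (n 0 z (n 0 z (n 0 z
 (n 2 (n 0 z (n 0 z (n 0 z (n 0 z (n 0 z (n 0 z z)))))) (n 2 (n 0 z (n 0 z (n 0 z (n 0 z (n 0 z
 (n 0 (n 68 z z) z)))))) (n 1 z z)))))) (n 0 z (n 0 z (n 0 z (n 0 z (n 0 z (n 0 z (n 0 z (n 0 z
 (n 0 z (n 0 z (n 0 z (n 0 z z)))))))))))))) (n 15 (n 0 z (n 0 z (n 0 z (n 0 z (n 0 z (n 0 z (n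
 0 z (n 0 z (n 0 z (n 0 z (n 0 z (n 0 z (n 0 z (n 0 z z)))))))))))))) (n 15 (n 0 z (n 0 z (n 0 z
 (n 0 z (n 0 z (n 0 z (n 0 z (n 0 z (n 0 z (n 0 z (n 0 z (n 0 z (n 0 z (n 0 z z)))))))))))))) (n
 15 (n 0 z (n 0 z (n 0 z (n 0 z (n 0 z (n 0 z (n 0 z (n 2 (n 2 (n 0 z (n 0 z (n 0 z (n 0 z (n 0
 z (n 0 z z)))))) (n 2 (n 0 z (n 0 z (n 0 z (n 0 z (n 0 z (n 0 z z)))))) (n 2 (n 0 z (n 0 z (n 0
 z (n 0 z (n 0 z (n 0 z z)))))) z))) (n 0 z (n 0 z (n 0 z (n 0 z (n 0 z (n 0 z z))))))))))))))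
 (n 17 (n 0 z (n 0 z (n 0 z (n 0 z (n 0 z (n 0 z (n 0 z (n 0 z (n 0 z (n 0 z (n 0 z (n 0 z (n 0
 z z))))))))))))) (n 17 (n 0 z (n 0 z (n 0 z (n 0 z (n 0 z (n 0 z (n 0 z (n 0 z (n 0 z (n 0 z (n
 2 (n 0 z z) (n 0 z (n 0 z z))))))))))))) (n 17 (n 0 z (n 0 z (n 0 z (n 0 z (n 0 z (n 0 z (n 0 z
 (n 0 z (n 0 z (n 0 z (n 0 z (n 0 z (n 0 z z))))))))))))) z)))))))) (n 0 (n 51 (n 2 (n 0 z (n 0
 z (n 0 z (n 2 (n 0 z (n 0 z (n 0 z (n 0 z (n 0 z (n 0 z z)))))) (n 2 (n 0 z (n 0 z (n 0 z (n 0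
 z (n 0 z (n 0 (n 20 z z) z)))))) (n 1 z z)))))) (n 0 z (n 0 z (n 0 z (n 0 z (n 0 z (n 0 z (n 0
 z z)))))))) (n 51 (n 0 z (n 0 z (n 0 z (n 0 z (n 0 z (n 0 z (n 0 z (n 0 z z)))))))) (n 51 (n 0
 z (n 0 z (n 0 z (n 0 z (n 0 z (n 0 z (n 0 z (n 0 z z)))))))) (n 51 (n 0 z (n 0 z (n 0 z (n 0 z
 (n 0 z (n 0 z (n 2 (n 2 (n 0 z (n 0 z (n 0 z (n 0 z (n 0 z (n 0 (n 8873251 z z) z)))))) (n 2 (n
 0 z (n 0 z (n 0 z (n 0 z (n 0 z (n 0 z z)))))) (n 2 (n 0 z (n 0 z (n 0 z (n 0 z (n 0 z (n 0 (n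
 8782363 z z) z)))))) z))) (n 0 z z)))))))) (n 5 (n 0 z (n 0 z (n 0 z (n 0 z (n 0 z (n 0 z (n 0
 z (n 0 z (n 0 z (n 0 z z)))))))))) (n 5 (n 0 z (n 0 z (n 0 z (n 0 z (n 0 z (n 0 z (n 0 z (n 2
 (n 0 z z) (n 0 z (n 0 z z)))))))))) (n 5 (n 0 z (n 0 z (n 0 z (n 0 z (n 0 z (n 0 z (n 0 z (n 0
 z (n 0 z (n 0 z z)))))))))) z))))))) (n 0 (n 0 z (n 0 z (n 0 z (n 1 (n 2 (n 0 z (n 0 z z)) (n 0
 z (n 0 z (n 0 z (n 0 z (n 0 z (n 0 z (n 0 z (n 0 z (n 0 z (n 0 z (n 0 z (n 0 z (n 0 z (n 0 z (n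
 0 z (n 0 z (n 0 z (n 0 z (n 0 z (n 0 z (n 0 z (n 0 z (n 0 z (n 0 z (n 0 z (n 0 z (n 0 z
 z)))))))))))))))))))))))))))) (n 1 (n 0 z (n 0 z (n 0 z (n 0 z (n 0 z (n 0 z (n 0 z (n 0 z (n 0
 z (n 0 z (n 0 z (n 0 z (n 0 z (n 0 z (n 0 z (n 0 z (n 2 (n 0 z z) (n 0 z (n 0 z (n 0 z (n 0 z
 (n 0 z (n 0 z (n 0 z (n 0 z (n 0 z (n 0 z (n 0 z z)))))))))))))))))))))))))))) (n 1 (n 0 z (n 0
 z (n 0 z (n 0 z (n 0 z (n 0 z (n 0 z (n 0 z (n 0 z (n 0 z (n 0 z (n 0 z (n 0 z (n 0 z (n 0 z (n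
 0 z (n 0 z (n 0 z (n 0 z (n 0 z (n 7750403 z (n 0 z (n 0 z (n 0 z (n 0 z (n 0 z (n 0 z (n 0 z
 z)))))))))))))))))))))))))))) z)))))) (n 0 (n 0 z (n 0 z (n 1 (n 0 z (n 0 z (n 0 z (n 0 z (n 0
 z (n 0 z (n 0 z (n 0 z (n 0 z (n 0 z (n 0 z (n 0 z (n 0 z z))))))))))))) (n 1 (n 0 z (n 0 z (n
 0 z (n 0 z (n 0 z (n 0 z (n 2 (n 0 z z) (n 0 z (n 0 z (n 0 z (n 0 z (n 0 z (n 0 z
 z))))))))))))) (n 1 (n 0 z (n 0 z (n 0 z (n 0 z (n 0 z (n 0 z (n 0 z (n 0 z (n 0 z (n 0 z (n 0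
 z (n 0 z (n 0 z z))))))))))))) z))))) (n 0 (n 0 z (n 53 (n 0 z (n 0 z (n 0 z (n 0 z (n 0 z (n 0
 z (n 0 z (n 2 (n 0 z (n 0 z z)) (n 0 z (n 0 z (n 0 z (n 0 z (n 0 z (n 0 z z)))))))))))))) (n 53
 (n 0 z (n 2 (n 0 z z) (n 0 z (n 0 z (n 0 z (n 0 z (n 0 z (n 0 z (n 0 z (n 0 z (n 0 z (n 0 z (n
 0 z (n 0 z z)))))))))))))) (n 53 (n 0 z (n 0 z (n 0 z (n 0 z (n 0 z (n 0 z (n 0 z (n 0 z (n 0 z
 (n 0 z (n 0 z (n 0 z (n 0 z (n 0 z z)))))))))))))) z)))) (n 0 (n 1 (n 0 z (n 0 z (n 2 (n 0 z (n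
 0 z z)) (n 0 z (n 0 z (n 0 z (n 0 z (n 0 z (n 0 z (n 0 z z)))))))))) (n 1 (n 0 z (n 0 z (n 0 z
 (n 0 z (n 0 z (n 0 z (n 0 z (n 0 z (n 0 z (n 0 z z)))))))))) (n 1 (n 0 z (n 0 z (n 0 z (n 0 z
 (n 0 z (n 0 z (n 0 z (n 0 z (n 0 z (n 2 z z)))))))))) z))) (n 0 (n 0 z (n 0 z z)) (n 0 (n 0 z
 z) (n 0 z z)))))))))))) (n 0 (n 1 (n 268 z (n 268 z (n 2 z (n 268 z (n 6496523 z (n 268 z
 z)))))) (n 0 z (n 1 (n 6557747 z (n 6557747 z (n 6557747 z (n 6557747 z (n 6557747 z (n 6557747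
 z z)))))) (n 0 z z)))) (n 0 (n 0xa19ae5741b1c24371424b611 (n 0 (n 0 (n 7733787 z (n 7733787 z
 (n 7733787 z (n 7733787 z (n 7733787 z (n 7733787 z z)))))) z) (n 0 (n 153 (n 1 (n 7733787 z (n
 7733787 z (n 7733787 z (n 7733787 z (n 7733787 z (n 7733787 z z)))))) (n 0 z (n 1 (n 7606323 z
 (n 7606323 z (n 7606323 z (n 7606323 z (n 7606323 z (n 7606323 z z)))))) (n 0 z z)))) (n 215 (n
 1 (n 7606323 z (n 7606323 z (n 7606323 z (n 7606323 z (n 7606323 z (n 7606323 z z)))))) (n 1 (n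
 7606323 z (n 7606323 z (n 7606323 z (n 7606323 z (n 7606323 z (n 7606323 z z)))))) (n 1 (n
 6635635 z (n 2 z (n 5506923 z (n 268 z (n 268 z (n 268 z z)))))) (n 0 z (n 1 (n 7680067 z (n
 7680067 z (n 7680067 z (n 7680067 z (n 7680067 z (n 7680067 z z)))))) (n 0 z (n 0 z z))))))) (n
 335 (n 1 (n 7606323 z (n 7606323 z (n 7606323 z (n 7606323 z (n 7606323 z (n 7606323 z z))))))
 (n 1 (n 7545099 z (n 4396843 z (n 4396843 z (n 4396843 z (n 4396843 z (n 4396843 z z)))))) (n 0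
 z (n 1 (n 7680067 z (n 7680067 z (n 7680067 z (n 7680067 z (n 7680067 z (n 7680067 z z)))))) (n
 1 (n 6635635 z (n 76 z (n 5506923 z (n 7545099 z (n 2652 z (n 2652 z z)))))) (n 0 z z)))))) (n
 25 (n 1 (n 3628 z (n 7680067 z (n 3628 z (n 3628 z (n 3628 z (n 3628 z z)))))) (n 1 (n 2164555
 z (n 7680067 z (n 2164555 z (n 2164555 z (n 2164555 z (n 2164555 z z)))))) (n 0 z (n 1 (n
 4261739 z (n 7680067 z (n 3628 z (n 3612 z (n 3628 z (n 3628 z z)))))) (n 0 z (n 1 (n 3628 z (n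
 7680067 z (n 3628 z (n 3628 z (n 3628 z (n 3628 z z)))))) (n 1 (n 4327275 z (n 7680067 z (n
 3628 z (n 3628 z (n 3628 z (n 3628 z z)))))) (n 1 (n 7545099 z (n 7680067 z (n 7545099 z (n
 7545099 z (n 7545099 z (n 7545099 z z)))))) z)))))))) (n 1 (n 1 (n 10 z (n 1228 z (n 1228 z (n
 6424379 z (n 1228 z (n 1228 z z)))))) (n 1 (n 7733787 z (n 7733787 z (n 7733787 z (n 7733787 z
 (n 7733787 z (n 7733787 z z)))))) (n 1 (n 7606323 z (n 7606323 z (n 7606323 z (n 7606323 z (n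
 7606323 z (n 7606323 z z)))))) (n 0 z (n 1 (n 1228 z (n 1228 z (n 1228 z (n 268 z (n 6424347 z
 (n 1228 z z)))))) (n 1 (n 1228 z (n 1228 z (n 18 z (n 1228 z (n 1228 z (n 1228 z z))))))
 z)))))) (n 153 (n 1 (n 7680067 z (n 7680067 z (n 7680067 z (n 7680067 z (n 7680067 z (n 7680067
 z z)))))) (n 1 (n 7680067 z (n 7680067 z (n 7680067 z (n 7680067 z (n 7680067 z (n 7680067 z
 z)))))) (n 1 (n 7606323 z (n 7606323 z (n 7606323 z (n 7606323 z (n 7606323 z (n 7606323 z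
 z)))))) (n 1 (n 268 z (n 268 z (n
 0xee86e8640372f550d5b9d9b5956966162416c8797ed3e05aa617d1e4cca24c223a0ed87e0a1e9987dc66c0801 z
 (n 268 z (n 7545099 z (n 268 z z)))))) (n 1 (n 6555419 z (n 268 z (n 7545099 z (n 26 z (n 268 z
 (n 268 z z)))))) (n 1 (n 268 z (n 268 z (n 268 z (n
 0xec6ec60037e17df8608608608217df8217e08208608208218208617df81f8208208608208617df7e18200801 z (n
 6557811 z (n 268 z z)))))) (n 1 (n 268 z (n 7545099 z (n 268 z (n 76 z (n 268 z (n 268 z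
 z)))))) (n 0 z z)))))))) (n 153 (n 1 (n 7733787 z (n 7733787 z (n 7733787 z (n 7733787 z (n
 7545099 z (n 7733787 z z)))))) (n 0 z (n 1 (n 7606323 z (n 7606323 z (n 7606323 z (n 7606323 z
 (n 7606323 z (n 7606323 z z)))))) (n 0 z z)))) z))))))) (n 0 (n 0 (n 0 z (n 0 z (n 0 z (n 0 z
 z)))) (n 0 (n 0 z (n 0 z (n 0 z z))) (n 0 (n 0 z (n 0 z z)) (n 0 (n 0 z z) z)))) (n 0 (n 215 (n
 0 (n 0 z (n 0 z (n 0 z (n 0 z z)))) (n 0 (n 0 z (n 0 (n 8654899 z z) (n 0 z (n 0 z z)))) (n 0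
 (n 0 z (n 0 z (n 0 z (n 0 z z)))) (n 0 (n 0 (n 8521531 z z) (n 0 z (n 0 z (n 0 z z)))) (n 0 (n
 0 z (n 0 z (n 0 z (n 0 z z)))) (n 0 (n 0 z (n 0 (n 8728643 z z) (n 0 z (n 0 z z)))) (n 0 (n 0 z
 (n 0 z (n 0 z (n 0 z z)))) z))))))) (n 335 (n 0 (n 0 z (n 0 z (n 0 z (n 0 z z)))) (n 0 (n 0 z
 (n 0 z (n 0 z (n 0 z z)))) (n 0 (n 0 (n
 0x10a4e8260782082182082082082082082082082082082081f7e089f8208208208208208208208208208600801 z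
 z) (n 0 z (n 0 z (n 0 z z)))) (n 0 (n 0 z (n 0 z (n 0 z (n 0 z z)))) (n 0 (n 0 z (n 0 z (n 0 z
 (n 0 z z)))) (n 0 (n 0 z (n 0 z (n 0 z (n 0 z z)))) z)))))) (n 331 (n 0 (n 0 z (n 0 (n 8654899
 z z) (n 0 z (n 0 z z)))) (n 0 (n 0 (n 8654899 z z) (n 0 z (n 0 z (n 0 z z)))) (n 0 (n 0 z (n 0
 z (n 0 z (n 0 z z)))) (n 0 (n 0 z (n 0 z (n 0 z (n 0 z z)))) (n 0 (n 0 z (n 0 z (n 0 z (n 0 z
 z)))) (n 0 (n 0 (n 8864515 z (n 8864515 z z)) (n 0 z (n 0 z (n 0 z z)))) (n 0 (n 0 z (n 0 z (n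
 0 z (n 0 z z)))) (n 0 (n 0 z (n 0 z (n 0 z (n 0 z z)))) (n 0 (n 0 z (n 0 z (n 0 z (n 0 z z))))
 (n 0 (n 0 (n 8783691 z (n 8857179 z z)) (n 0 (n 8857179 z (n 8857179 z z)) (n 0 z (n 0 z z))))
 z)))))))))) (n 453 (n 0 (n 0 z (n 0 z (n 0 z (n 0 z z)))) (n 0 (n 0 z (n 0 z (n 0 z (n 0 z
 z)))) (n 0 (n 0 z (n 0 z (n 0 z (n 0 z z)))) (n 0 (n 0 z (n 0 z (n 0 z (n 0 z z)))) (n 0 (n 0 z
 (n 0 z (n 0 z (n 0 z z)))) (n 0 (n 0 z (n 0 z (n 0 z (n 0 z z)))) (n 0 (n 0 z (n 0 z (n 0 z (n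
 0 z z)))) (n 0 (n 0 z (n 0 z (n 0 z (n 0 z z)))) (n 0 (n 0 z (n 0 z (n 0 z (n 0 z z)))) (n 0 (n
 0 z (n 0 z (n 0 z (n 0 z z)))) (n 0 (n 0 z (n 0 z (n 0 z (n 0 z z)))) (n 0 (n 0 z (n 0 (n
 0x2287681e8217e27e08207e27a079f8617e17a082086082081e86185f7df82082081f7df82085f8600041 z z) (n
 0 z (n 0 z z)))) (n 0 (n 0 z (n 0 (n
 0x2287681e8217e27e08207e27a079f8617e17a082086082081e86185f7df82082081f7df82085f8600041 z z) (n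
 0 z (n 0 z z)))) (n 0 (n 0 z (n 0 z (n 0 z (n 0 z z)))) z)))))))))))))) (n 451 (n 0 (n 0 z (n 0
 z (n 0 z (n 0 z z)))) (n 0 (n 0 z (n 0 z (n 0 (n 4327451 z z) (n 0 (n 8855907 z z) z)))) (n 0
 (n 0 z (n 0 (n 8864515 z (n 8864515 z z)) (n 0 (n 8860243 z (n 8860243 z z)) (n 0 (n 7669819 z
 (n 8521563 z z)) z)))) (n 0 (n 0 z (n 0 z (n 0 z (n 0 z z)))) (n 0 (n 0 z (n 0 z (n 0 z (n 0 z
 z)))) (n 0 (n 0 z (n 0 z (n 0 z (n 0 z z)))) (n 0 (n 0 z (n 0 z (n 0 z (n 0 z z)))) (n 0 (n 0 z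
 (n 0 (n 8864515 z z) (n 0 (n 8873251 z z) (n 0 (n 8873251 z z) z)))) (n 0 (n 0 z (n 0 z (n 0 z
 (n 0 z z)))) (n 0 (n 0 z (n 0 z (n 0 z (n 0 z z)))) (n 0 (n 0 z (n 0 z (n 0 z (n 0 z z)))) (n 0
 (n 0 z (n 0 (n
 0x2287681e8217e27e08207e27a079f8617e17a082086082081e86185f7df82082081f7df82085f8600041 z z) (n
 0 z (n 0 z z)))) (n 0 (n 0 z (n 0 z (n 0 (n
 0x1a84081f8218217e18207a17e18207e17e18217e082081f86081f85f8208608207e082081f8208600041 z z) (n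
 0 (n 0x1a84081f8218217e18207a17e18207e17e18217e082081f86081f85f8208608207e082081f8208600041 z
 z) z)))) (n 0 (n 0 z (n 0 z (n 0 z (n 0 z z)))) (n 0 (n 0 z (n 0 z (n 0 z (n 0 z z)))) (n 0 (n
 0 z (n 0 (n
 0x1a85481f8218217e18207a17e18207e17e18217e082081f86081f85f8208608207e082081f8208600041 z (n
 8783691 z z)) (n 0 (n
 0x1487581d822a608229a1bd38157a58dea0f99d81872d62589e81fc97959b20a1361f56589d719a250041 z (n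
 0x1a85481f8218217e18207a17e18207e17e18217e082081f86081f85f8208608207e082081f8208600041 z z)) (n
 0 (n 8521563 z (n
 0x1a85481f8218217e18207a17e18207e17e18217e082081f86081f85f8208608207e082081f8208600041 z z))
 z)))) z)))))))))))))))) (n 450 (n 0 (n 0 z (n 0 z (n 0 z (n 0 z z)))) (n 0 (n 0 z (n 0 z (n 0 z
 (n 0 z z)))) (n 0 (n 0 z (n 0 z (n 0 z (n 0 z z)))) (n 0 (n 0 z (n 0 z (n 0 z (n 0 z z)))) (n 0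
 (n 0 z (n 0 (n 8864515 z z) (n 0 z (n 0 z z)))) (n 0 (n 0 z (n 0 (n 8593675 z z) (n 0 z (n 0 z
 z)))) (n 0 (n 0 z (n 0 z (n 0 z (n 0 z z)))) (n 0 (n 0 z (n 0 z (n 0 z (n 0 z z)))) (n 0 (n 0 z
 (n 0 z (n 0 z (n 0 z z)))) (n 0 (n 0 z (n 0 z (n 0 z (n 0 z z)))) (n 0 (n 0 z (n 0 z (n 0 z (n
 0 z z)))) (n 0 (n 0 z (n 0 z (n 0 z (n 0 z z)))) (n 0 (n 0 z (n 0 z (n 0 z (n 0 z z)))) (n 0 (n
 0 z (n 0 z (n 0 z (n 0 z z)))) (n 0 (n 0 z (n 0 z (n 0 z (n 0 z z)))) (n 0 (n 0 z (n 0 z (n 0 z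
 (n 0 z z)))) (n 0 (n 0 z (n 0 z (n 0 z (n 0 z z)))) (n 0 (n 0 z (n 0 z (n 0 z (n 0 z z))))
 z)))))))))))))))))) (n 153 (n 0 (n 0 z (n 0 z (n 0 z (n 0 z z)))) (n 0 (n 0 z (n 0 z (n 0 z (n
 0 z z)))) (n 0 (n 0 z (n 0 z (n 0 z (n 0 z z)))) (n 0 (n 0 z (n 0 z (n 0 z (n 0 z z)))) (n 0 (n
 0 z (n 0 z (n 0 z (n 0 z z)))) (n 0 (n 0 z (n 0 z (n 0 z (n 0 z z)))) (n 0 (n 0 z (n 0 z (n 0 z
 (n 0 z z)))) z))))))) (n 33 (n 0 (n 0 z (n 0 z (n 0 z (n 0 z z)))) (n 0 (n 0 z (n 0 z (n 0 z (n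
 0 z z)))) (n 0 (n 0 z (n 0 z (n 0 z (n 0 z z)))) (n 0 (n 0 z (n 0 z (n 0 z (n 0 z z)))) (n 0 (n
 0 z (n 0 z (n 0 z (n 0 z z)))) (n 0 (n 0 z (n 0 z (n 0 z (n 0 z z)))) (n 0 (n 0 z (n 0 (n
 8864515 z z) (n 0 (n 8860243 z z) (n 0 (n
 0x10eb0c46038607dea638a69e399799d7237da89595b7576a27e28227daa9ba209a085c69d72075c7219210801 z
 z) z)))) (n 0 (n 0 z (n 0 z (n 0 z (n 0 z z)))) (n 0 (n 0 z (n 0 z (n 0 (n 8654899 z z) (n 0 (n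
 8654899 z z) z)))) z))))))))) (n 9 (n 0 (n 0 z (n 0 z (n 0 z (n 0 z z)))) (n 0 (n 0 z (n 0 z (n
 0 z (n 0 z z)))) (n 0 (n 0 z (n 0 (n
 0x15487580947879867295847f946b946f8f7f83858874a5917b57aa688e7d7881838281727499d355808d545a4fa57f9651837486b90049
 z (n 0x4c8758207a099d8e8a66a1971a6e79609139de65a6b15dd8247dca5d92286095b59d7e199d79d7e20041 z
 z)) (n 0 z (n 0 z z)))) (n 0 (n 0 z (n 0 z (n 0 z (n 0 z z)))) (n 0 (n 0 z (n 0 z (n 0 z (n 0 z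
 z)))) (n 0 (n 0 z (n 0 z (n 0 z (n 0 z z)))) (n 0 (n 0 (n
 0x10cb0a62078208217e08608608217df86281f82082082082081f86081f8208208208207e28207df8218200801 z
 (n 0x1a87681f8218217e18207a17e18207e17e18217e082081f86081f85f8208608207e082081f8208600041 z z))
 (n 0 (n 7407707 z (n
 0x10cb0a62078208217e08608608217df86281f82082082082081f86081f8208208208207e28207df8218200801 z
 z)) (n 0 z (n 0 z z)))) (n 0 (n 0 z (n 0 z (n 0 z (n 0 z z)))) (n 0 (n 0 z (n 0 z (n 0 z (n 0 z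
 z)))) (n 0 (n 0 z (n 0 z (n 0 z (n 0 z z)))) (n 0 (n 0 (n 8521531 z z) (n 0 z (n 0 z (n 0 z
 z)))) (n 0 (n 0 z (n 0 z (n 0 z (n 0 z z)))) (n 0 (n 0 (n 8654899 z (n 8654899 z z)) (n 0 z (n
 0 z (n 0 z z)))) (n 0 (n 0 (n
 0x2287581e8217e27e08207e27a079f8617e17a082086082081e86185f7df82082081f7df82085f8600041 z (n
 8521531 z z)) (n 0 z (n 0 z (n 0 z z)))) z)))))))))))))) (n 27 (n 0 (n 0 z (n 0 z (n 0 z (n 0 z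
 z)))) (n 0 (n 0 z (n 0 z (n 0 z (n 0 z z)))) (n 0 (n 0 z (n 0 z (n 0 z (n 0 z z)))) (n 0 (n 0 z
 (n 0 z (n 0 z (n 0 z z)))) (n 0 (n 0 z (n 0 z (n 0 z (n 0 z z)))) (n 0 (n 0 z (n 0 z (n 0 z (n
 0 z z)))) (n 0 (n 0 z (n 0 z (n 0 z (n 0 z z)))) (n 0 (n 0 z (n 0 z (n 0 z (n 0 z z))))
 z)))))))) (n 153 (n 0 (n 0 z (n 0 (n 8728643 z z) (n 0 (n 8873251 z z) (n 0 (n 8873251 z z)
 z)))) (n 0 (n 0 z (n 0 z (n 0 z (n 0 z z)))) (n 0 (n 0 z (n 0 z (n 0 z (n 0 z z)))) (n 0 (n 0 z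
 (n 0 z (n 0 z (n 0 z z)))) (n 0 (n 0 z (n 0 z (n 0 z (n 0 z z)))) (n 0 (n 0 z (n 0 z (n 0 z (n
 0 z z)))) (n 0 (n 0 z (n 0 (n
 0xda873857f7c78827f867d7c7069936f8880887a9075987a68738d8e6c928182659085746d869d9080688e8c74a1676c5e888c8f750049
 z z) (n 0 z (n 0 z z)))) (n 0 (n 0 (n
 0x1b28768a7f7871847d8b7b786153a55e90808f75a06baf765067999c5aa283834aa189695c8cb99f80519b9a68c14f5b3d8f989c6a0049
 z (n 8783691 z z)) (n 0 z (n 0 z (n 0 z z)))) z)))))))) (n 33 (n 0 (n 0 z (n 0 z (n 0 z (n 0 z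
 z)))) (n 0 (n 0 z (n 0 z (n 0 z (n 0 z z)))) (n 0 (n 0 z (n 0 z (n 0 z (n 0 z z)))) (n 0 (n 0 z
 (n 0 z (n 0 z (n 0 z z)))) (n 0 (n 0 z (n 0 (n 8728643 z (n 8728643 z z)) (n 0 z (n 0 z z))))
 (n 0 (n 0 z (n 0 (n 8868963 z (n 8868963 z z)) (n 0 z (n 0 z z)))) (n 0 (n 0 z (n 0 (n 8868963
 z (n 8868963 z z)) (n 0 z (n 0 z z)))) (n 0 (n 0 z (n 0 z (n 0 z (n 0 z z)))) (n 0 (n 0 z (n 0
 z (n 0 z (n 0 z z)))) (n 0 (n 0 z (n 0 z (n 0 z (n 0 z z)))) (n 0 (n 0 z (n 0 (n 8728643 z z)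
 (n 0 (n 8728643 z z) (n 0 (n 8728643 z z) z)))) (n 0 (n 0 z (n 0 z (n 0 z (n 0 z z)))) (n 0 (n
 0 z (n 0 z (n 0 z (n 0 z z)))) (n 0 (n 0 (n 8728643 z z) (n 0 z (n 0 z (n 0 z z)))) (n 0 (n 0 z
 (n 0 z (n 0 (n
 0x30e5060c037e17e08608208607e181e81f7e08208608618618218218208208207e08608217e08208208210801 z
 z) (n 0 (n
 0x439438300c0876876201810e90e64078217e182081f82082282082181f82082082082081f8608208608208208208208208208208201801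
 z z) z)))) (n 0 (n 0 (n 8521531 z z) (n 0 z (n 0 z (n 0 z z)))) (n 0 (n 0 z (n 0 z (n 0 (n
 0xa87382082082082081f8207e082082182082082186182081f82081f7df8208207df8208208208600041 z (n
 8521579 z z)) (n 0 (n
 0xa8738208208208208208207e082082182082082086082081f82081f8208208207df8208208208600041 z (n
 0x11287386807b77827e877d7c6c63986a8a80897995739e7861719093689682825d9586716988a5948061929171aa6168558a9092720049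
 z z)) z)))) (n 0 (n 0 z (n 0 (n 8654899 z z) (n 0 z (n 0 z z)))) (n 0 (n 0 z (n 0 z (n 0 z (n 0
 z z)))) (n 0 (n 0 z (n 0 (n 8864515 z z) (n 0 z (n 0 z z)))) (n 0 (n 0 z (n 0 z (n 0 z (n 0 z
 z)))) (n 0 (n 0 z (n 0 z (n 0 z (n 0 z z)))) (n 0 (n 0 z (n 0 z (n 0 z (n 0 z z)))) (n 0 (n 0 z
 (n 0 z (n 0 z (n 0 z z)))) (n 0 (n 0 z (n 0 z (n 0 z (n 0 z z)))) (n 0 (n 0 z (n 0 (n 8864515 z
 (n 8864515 z z)) (n 0 (n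
 0x2287381e8217e27e08207e27a079f8617e17a082086082081e86185f7df82082081f7df82085f8600041 z (n
 8521579 z z)) (n 0 (n 8855907 z (n 8855907 z z)) z)))) (n 0 (n 0 (n 8864515 z (n 8864515 z z))
 (n 0 (n 8864515 z (n 8864515 z z)) (n 0 z (n 0 z z)))) (n 0 (n 0 (n
 0x10c70864038217e082081e8607a37a07e08218218208208627e08a081e85f81f86085f8208208208208200801 z
 (n 8521531 z z)) (n 0 (n
 0x2c876807b7f8491807f848c829c68816c7d8a857b905f8c7a8071789a6f8a857c807ea26e897198808f676f7d6b89857b78728f890049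
 z (n
 0x10c70864038217e082081e8607a37a07e08218218208208627e08a081e85f81f86085f8208208208208200801 z
 z)) (n 0 (n
 0x152873887f7a74837e897b7a675c9e648d818c77996fa578596d9497629c8383569a886d6289ad99805a96946db55a624b8c94966f0049
 z (n 8521579 z z)) (n 0 (n 8855907 z (n 8855907 z z)) z)))) (n 0 (n 0 z (n 0 (n
 0x1b28738a7f7871847d8b7b786153a55e90808f75a06baf765067999c5aa283834aa189695c8cb99f80519b9a68c14f5b3d8f989c6a0049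
 z z) (n 0 z (n 0 z z)))) (n 0 (n 0 z (n 0 z (n 0 z (n 0 z z)))) (n 0 (n 0 z (n 0 z (n 0 z (n 0
 z z)))) (n 0 (n 0 (n 8654899 z z) (n 0 z (n 0 z (n 0 z z)))) (n 0 (n 0 (n 8654899 z (n 8654899
 z z)) (n 0 z (n 0 z (n 0 z z)))) (n 0 (n 0 z (n 0 z (n 0 (n 8654899 z z) (n 0 (n 8654899 z z)
 z)))) (n 0 (n 0 z (n 0 z (n 0 z (n 0 z z)))) (n 0 (n 0 z (n 0 z (n 0 z (n 0 z z)))) (n 0 (n 0 z
 (n 0 z (n 0 z (n 0 z z)))) (n 0 (n 0 z (n 0 (n 8864515 z z) (n 0 z (n 0 z z)))) (n 0 (n 0 z (n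
 0 (n
 0x15482080947879867295847f946b946f8f7f83858874a5917b57aa688e7d7881838281727499d355808d545a4fa57f9651837486b90049
 z z) (n 0 z (n 0 z z)))) (n 0 (n 0 z (n 0 z (n 0 z (n 0 z z)))) (n 0 (n 0 z (n 0 z (n 0 z (n 0
 z z)))) (n 0 (n 0 z (n 0 (n 8864515 z (n 8864515 z z)) (n 0 (n
 0x2c872807b7f8491807f848c829c68816c7d8a857b905f8c7a8071789a6f8a857c807ea26e897198808f676f7d6b89857b78728f890049
 z (n
 0xd50803984099a7207a48159165f55af4169aa4b529981ec13a648908ee3a785f9a05f4a6c70d760c176a00081 z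
 z)) (n 0 (n
 0x2487281c7e3b617e3a62dcd8107a891cb45a5b8146b44e791d81ef129d4ce0b0c49d3e891c695b270041 z (n
 0xd50803984099a7207a48159165f55af4169aa4b529981ec13a648908ee3a785f9a05f4a6c70d760c176a00081 z
 z)) z)))) (n 0 (n 0 z (n 0 (n
 0x1287681f8217e18208208217e07e08607e17e082086082081f82181f82082082082081f8208608600041 z (n
 0x15482080947879867295847f946b946f8f7f83858874a5917b57aa688e7d7881838281727499d355808d545a4fa57f9651837486b90049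
 z z)) (n 0 (n
 0x1487281d822a607e29a1b938567a589ea0f99d81872c62589e81fc97959b20a1361e56589e719a240041 z (n
 0x15482080947879867295847f946b946f8f7f83858874a5917b57aa688e7d7881838281727499d355808d545a4fa57f9651837486b90049
 z z)) (n 0 (n
 0x2487281b7e3ba17e3a62dcc85076891cb05a5b8536b54a891d81eed29d4ca0b0c49e42791d695b270041 z (n
 0x15482080947879867295847f946b946f8f7f83858874a5917b57aa688e7d7881838281727499d355808d545a4fa57f9651837486b90049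
 z z)) z)))) (n 0 (n 0 (n
 0x10c50c06037e17df81f85f8a18227df8208208218618618217e08217e08207df7e08208218208608208210801 z
 (n 8783691 z z)) (n 0 (n
 0xa8768208208208208208207e082082182082082086082081f82081f8208208207df8208208208600041 z (n
 0x2287681e8217e27e08207e27a079f8617e17a082086082081e86185f7df82082081f7df82085f8600041 z z)) (n
 0 z (n 0 z z)))) (n 0 (n 0 (n
 0x10ed0c46078207e182186086082081f8217a08208a07de8207df8a07df85f8218608607e086079f7e181f0801 z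
 (n 7750531 z z)) (n 0 z (n 0 z (n 0 z z)))) (n 0 (n 0 z (n 0 z (n 0 z (n 0 z z))))
 z)))))))))))))))))))))))))))))))))))))))))))))) (n 9 (n 0 (n 0 z (n 0 z (n 0 z (n 0 z z)))) (n
 0 (n 0 z (n 0 z (n 0 z (n 0 z z)))) (n 0 (n 0 z (n 0 (n 8728643 z z) (n 0 z (n 0 z z)))) (n 0
 (n 0 z (n 0 z (n 0 z (n 0 z z)))) (n 0 (n 0 z (n 0 z (n 0 z (n 0 z z)))) (n 0 (n 0 z (n 0 z (n
 0 z (n 0 z z)))) (n 0 (n 0 (n 8521531 z z) (n 0 z (n 0 z (n 0 z z)))) (n 0 (n 0 z (n 0 z (n 0 z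
 (n 0 z z)))) (n 0 (n 0 z (n 0 z (n 0 z (n 0 z z)))) (n 0 (n 0 z (n 0 z (n 0 z (n 0 z z)))) (n 0
 (n 0 z (n 0 z (n 0 z (n 0 z z)))) (n 0 (n 0 z (n 0 z (n 0 z (n 0 z z)))) (n 0 (n 0 (n 8521531 z
 z) (n 0 z (n 0 z (n 0 z z)))) z))))))))))))) (n 3 (n 0 (n 0 z (n 0 z (n 0 z (n 0 z z)))) (n 0
 (n 0 z (n 0 z (n 0 z (n 0 z z)))) (n 0 (n 0 z (n 0 z (n 0 z (n 0 z z)))) (n 0 (n 0 z (n 0 z (n
 0 z (n 0 z z)))) (n 0 (n 0 z (n 0 z (n 0 z (n 0 z z)))) (n 0 (n 0 z (n 0 z (n 0 z (n 0 z z))))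
 (n 0 (n 0 z (n 0 z (n 0 z (n 0 z z)))) (n 0 (n 0 z (n 0 z (n 0 z (n 0 z z)))) (n 0 (n 0 (n
 8593675 z z) (n 0 z (n 0 z (n 0 z z)))) (n 0 (n 0 z (n 0 z (n 0 z (n 0 z z)))) z)))))))))) (n 1
 (n 0 (n 0 z (n 0 z (n 0 z (n 0 z z)))) (n 0 (n 0 z (n 0 z (n 0 z (n 0 z z)))) (n 0 (n 0 z (n 0
 z (n 0 z (n 0 z z)))) (n 0 (n 0 z (n 0 z (n 0 z (n 0 z z)))) (n 0 (n 0 (n 8521531 z z) (n 0 z
 (n 0 z (n 0 z z)))) (n 0 (n 0 z (n 0 z (n 0 z (n 0 z z)))) (n 0 (n 0 z (n 0 z (n 0 z (n 0 z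
 z)))) (n 0 (n 0 z (n 0 z (n 0 z (n 0 z z)))) (n 0 (n 0 z (n 0 z (n 0 (n 8654899 z z) (n 0 (n
 8654899 z z) z)))) (n 0 (n 0 z (n 0 (n 8654899 z z) (n 0 z (n 0 z z)))) (n 0 (n 0 z (n 0 z (n 0
 z (n 0 z z)))) (n 0 (n 0 (n
 0x10c50c06038217df85f8618a17e27e08607a08608a08208217a08a17de85f8207e08608208217df7e181f0801 z
 (n 0x10ed0c46078207e182186086082081f8217a08208a07de8207df8a07df85f8218608607e086079f7e181f0801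
 z z)) (n 0 (n
 0xa8768208208208208208207e082082182082082086082081f82081f8208208207df8208208208600041 z (n
 0x1287681f8217e17e081f7e17e07e08217e17e182086082081f8218207e082082082081f81f81f8600041 z z)) (n
 0 z (n 0 z z)))) (n 0 (n 0 (n
 0x70c50c060376d61991e8de9224b46aa81e3e47366e68a39dd6e2b5d754625798560a2b9eb9226e58236970801 z
 (n 0x10ed0c46078207e182186086082081f8217a08208a07de8207df8a07df85f8218608607e086079f7e181f0801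
 z z)) (n 0 (n
 0xa87682082082082082082082082082082082182082082081f82081e8208208208208208208208600041 z (n
 0x2287681e8217e27e08207e27a079f8617e17a082086082081e86185f7df82082081f7df82085f8600041 z z)) (n
 0 z (n 0 z z)))) z))))))))))))) (n 153 (n 0 (n 0 z (n 0 z (n 0 z (n 0 z z)))) (n 0 (n 0 z (n 0
 z (n 0 z (n 0 z z)))) (n 0 (n 0 z (n 0 z (n 0 z (n 0 z z)))) (n 0 (n 0 z (n 0 z (n 0 z (n 0 z
 z)))) z)))) (n 33 (n 0 (n 0 z (n 0 z (n 0 z (n 0 z z)))) (n 0 (n 0 z (n 0 z (n 0 z (n 0 z z))))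
 (n 0 (n 0 z (n 0 z (n 0 z (n 0 z z)))) (n 0 (n 0 z (n 0 z (n 0 z (n 0 z z)))) (n 0 (n 0 z (n 0
 (n
 0x152873887f7a74837e897c7a675c9e658c808c779970a578596c9496619c8383559a886e638aae99805a96956db459624b8d93976f0049
 z z) (n 0 z (n 0 z z)))) (n 0 (n 0 z (n 0 z (n 0 z (n 0 z z)))) (n 0 (n 0 z (n 0 z (n 0 z (n 0
 z z)))) z))))))) (n 9 (n 0 (n 0 z (n 0 z (n 0 z (n 0 z z)))) (n 0 (n 0 z (n 0 z (n 0 z (n 0 z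
 z)))) (n 0 (n 0 z (n 0 z (n 0 z (n 0 z z)))) (n 0 (n 0 z (n 0 z (n 0 z (n 0 z z)))) (n 0 (n 0 z
 (n 0 z (n 0 z (n 0 z z)))) (n 0 (n 0 z (n 0 (n
 0x1b28738a7f7871847d8b7b786153a55e90808f75a06baf765067999c5aa283834aa189695c8cb99f80519b9a68c14f5b3d8f989c6a0049
 z z) (n 0 z (n 0 z z)))) (n 0 (n 0 z (n 0 z (n 0 z (n 0 z z)))) (n 0 (n 0 (n 8593675 z (n
 8593675 z z)) (n 0 z (n 0 z (n 0 z z)))) z)))))))) (n 3 (n 0 (n 0 z (n 0 z (n 0 z (n 0 z z))))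
 (n 0 (n 0 z (n 0 z (n 0 z (n 0 z z)))) (n 0 (n 0 z (n 0 z (n 0 z (n 0 z z)))) (n 0 (n 0 z (n 0
 z (n 0 z (n 0 z z)))) (n 0 (n 0 z (n 0 z (n 0 z (n 0 z z)))) (n 0 (n 0 z (n 0 z (n 0 z (n 0 z
 z)))) (n 0 (n 0 z (n 0 z (n 0 z (n 0 z z)))) (n 0 (n 0 z (n 0 z (n 0 z (n 0 z z)))) (n 0 (n 0
 (n
 0x1b28748a7f7871847d8b7b786153a55e90808f75a06baf765067999c5aa283834aa189695c8cb99f80519b9a68c14f5b3d8f989c6a0049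
 z z) (n 0 z (n 0 z (n 0 z z)))) z))))))))) (n 1 (n 0 (n 0 z (n 0 z (n 0 z (n 0 z z)))) (n 0 (n
 0 z (n 0 z (n 0 z (n 0 z z)))) (n 0 (n 0 z (n 0 z (n 0 z (n 0 z z)))) (n 0 (n 0 z (n 0 z (n 0 z
 (n 0 z z)))) (n 0 (n 0 z (n 0 z (n 0 z (n 0 z z)))) (n 0 (n 0 z (n 0 z (n 0 z (n 0 z z))))
 z)))))) (n 0 (n 0 (n 0 z (n 0 z (n 0 z (n 0 z z)))) (n 0 (n 0 z (n 0 (n 8782363 z (n 8782363 z
 z)) (n 0 z (n 0 z z)))) (n 0 (n 0 z (n 0 z (n 0 z (n 0 z z)))) (n 0 (n 0 z (n 0 (n 8728643 z z)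
 (n 0 z (n 0 z z)))) (n 0 (n 0 z (n 0 z (n 0 z (n 0 z z)))) (n 0 (n 0 z (n 0 z (n 0 z (n 0 z
 z)))) (n 0 (n 0 (n 8728643 z z) (n 0 z (n 0 z (n 0 z z)))) (n 0 (n 0 (n 8728643 z (n 8728643 z
 z)) (n 0 z (n 0 z (n 0 z z)))) (n 0 (n 0 (n 8728643 z (n 8728643 z z)) (n 0 (n 8728643 z (n
 8728643 z z)) (n 0 (n 8728643 z (n 8728643 z z)) (n 0 (n 8728643 z (n 8728643 z z)) z)))) (n 0
 (n 0 (n 8728643 z (n 8728643 z z)) (n 0 z (n 0 z (n 0 z z)))) (n 0 (n 0 z (n 0 z (n 0 z (n 0 z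
 z)))) (n 0 (n 0 z (n 0 (n
 0x15a821877f7a74837e897c7b685c9e658d808c77996fa6775a6c9497619c8283559a886d638bae98805a96946db559624b8d94966f0049
 z z) (n 0 z (n 0 z z)))) (n 0 (n 0 z (n 0 z (n 0 (n 8782363 z (n 8782363 z z)) (n 0 (n 8782363
 z (n 8782363 z z)) z)))) (n 0 (n 0 (n
 0x112810867f7c76837e877c7b6c63976a8a808a7995739d7960719092689682815e9586716888a5948061929071aa6168558a8f92720049
 z (n 8521531 z z)) (n 0 (n 7477339 z (n 8783691 z z)) (n 0 (n 8873251 z (n 8873251 z z)) (n 0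
 (n 8873251 z (n 8873251 z z)) z)))) (n 0 (n 0 (n 2164827 z (n 8783691 z z)) (n 0 z (n 0 z (n 0
 z z)))) (n 0 (n 0 (n 8782363 z (n 8782363 z z)) (n 0 z (n 0 z (n 0 z z)))) (n 0 (n 0 z (n 0 z
 (n 0 z (n 0 z z)))) (n 0 (n 0 z (n 0 z (n 0 z (n 0 z z)))) (n 0 (n 0 z (n 0 z (n 0 z (n 0 z
 z)))) (n 0 (n 0 z (n 0 z (n 0 z (n 0 z z)))) (n 0 (n 0 (n 8521531 z z) (n 0 z (n 0 z (n 0 z
 z)))) (n 0 (n 0 z (n 0 z (n 0 z (n 0 z z)))) (n 0 (n 0 z (n 0 z (n 0 z (n 0 z z)))) (n 0 (n 0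
 (n 0x1287481f82182182081f8217e07df8217e17e082086086081f82181f81f8208208207e082081f8610041 z (n
 8521531 z z)) (n 0 z (n 0 z (n 0 z z)))) (n 0 (n 0 z (n 0 z (n 0 z (n 0 z z)))) (n 0 (n 0 z (n
 0 z (n 0 z (n 0 z z)))) z)))))))))))))))))))))))))) z))))))))))))))))))))) z)))) z) z)))) (n
 0x19c6a89927444c9a0a85d6324e30a171910b6ca05a6540c97a3019508094640 (n 0x1950b (n 587 (n 6496339
 z (n 0 z (n 0 z (n 6496339 z (n 0 z (n 2 z (n 0 z (n 0 z (n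
 0xeca6ca6407867d7e89738877aa68906b7d967f758c737f816d85798c7d81757276867977897e986f898883867f9c8483675b93839f6a840809
 z (n
 0xeca6a864078147c48068227bf80a7e681f7eb80c82e7e280480c84283f7ef7da7fd7f77f17ff7dd7f67fe7d97e179f7f68837b48537dc8467e481d7db7dc81a81f7ff8158567f87f27997f786a7db7d60811
 z (n 0 z (n 10 z (n 0 z (n
 0x8ca6a864037f7f817e81817f818081807f80817f8080808080808080808080807f81818080807f7f808080808080808080807f807f807f0809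
 z (n 18 z (n 0 z (n
 0x18ca6a624038247987f780e7bf7f87e08357f781b8257c383383884e86f7c47d27e17e97d980e7fc7cb8017957c87737f68a37978647f08727c48367d97ea8368178548008847bf7ce77c7f289e7c07cf0811
 z z))))))))))))))))) (n 33 (n 0 z (n 26 z (n 0 z (n 3278363 z z)))) (n 129 (n 0 z (n 34 z (n 0
 z (n 0 z (n 0 z (n 0 z (n 6496339 z (n 6496339 z z)))))))) (n 3 (n 0 z (n 42 z (n 0 z (n 0 z (n
 0 z (n 0 z (n 6636323 z (n 0 z (n 0 z z))))))))) (n 1 (n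
 0x2ca6a60407808080817f81808080808080808080808080808080808080807f817f80808080807f808080808080808080808080808080800809
 z (n 6636323 z (n 50 z (n 0 z (n 58 z z))))) (n 0 (n 66 z (n 0 z (n 0 z (n
 0xcca6860407787f7d8382827d6a8b818f82787d8978818283847c7c7f80808880807f8581837e74897c797d7f856d8d818d916e808081780809
 z (n 6636323 z (n 74 z (n 82 z (n 90 z z)))))))) z)))))) (n 33 (n 0 (n 0 z (n 0 z (n 1007 (n 0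
 z (n 0 z (n 0 z (n 0 z (n 0 z (n 0 z (n 0 z (n 0 z (n 0 z (n 0 z (n 2 (n 2 (n 0 z (n 0 z (n 0 z
 (n 0 z (n 0 (n 4393083 z z) (n 0 z z)))))) (n 2 (n 0 z (n 0 z (n 0 z (n 0 z (n 0 z (n 0 z
 z)))))) (n 2 (n 0 z (n 0 z (n 0 z (n 0 z (n 0 z (n 0 z z)))))) (n 2 (n 0 z (n 0 z (n 0 z (n 0 z
 (n 0 (n 972 z z) (n 0 z z)))))) (n 2 (n 0 z (n 0 z (n 0 z (n 0 z (n 0 z (n 0 z z)))))) (n 2 (n
 0 z (n 0 z (n 0 z (n 0 z (n 0 z (n 0 z z)))))) (n 2 (n 0 z (n 0 z (n 0 z (n 0 z (n 0 z (n 0 z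
 z)))))) (n 2 (n 0 z (n 0 z (n 0 z (n 0 z (n 0 z (n 0 z z)))))) z)))))))) (n 0 z (n 0 z (n 0 z
 (n 0 z z))))))))))))))) (n 35 (n 0 z (n 0 z (n 0 z (n 0 z (n 2 (n 1 z (n 2 (n 0 z (n 0 z (n 0 z
 (n 0 z (n 0 (n 8871955 z z) (n 0 z z)))))) (n 1 z (n 2 (n 0 z (n 0 z (n 0 z (n 0 z (n 0 (n
 8871955 z z) (n 0 z z)))))) (n 2 (n 0 z (n 0 z (n 0 z (n 0 z (n 0 (n 8871955 z z) (n 0 z
 z)))))) (n 2 (n 0 z (n 0 z (n 0 z (n 0 z (n 0 z (n 0 z z)))))) (n 2 (n 0 z (n 0 z (n 0 z (n 0 z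
 (n 0 z (n 0 z z)))))) z))))))) (n 0 z (n 0 z (n 0 z (n 0 z (n 0 z (n 0 z (n 0 z (n 0 z (n 0 z
 (n 0 z (n 0 z (n 0 z (n 0 z (n 0 z (n 0 z (n 0 z (n 0 z (n 0 z (n 0 z (n 0 z (n 0 z (n 0 z (n 0
 z (n 0 z (n 0 z (n 0 z (n 0 z z)))))))))))))))))))))))))))))))) (n 33 (n 0 z (n 0 z (n 0 z (n 0
 z (n 0 z (n 2 (n 2 (n 0 z (n 0 z (n 0 z (n 0 z (n 0 z (n 0 z z)))))) (n 2 (n 0 z (n 0 z (n 0 z
 (n 0 z (n 0 z (n 0 z z)))))) (n 2 (n 0 z (n 0 z (n 0 z (n 0 z (n 0 z (n 0 z z)))))) (n 2 (n 0 z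
 (n 0 z (n 0 z (n 0 z (n 0 z (n 0 z z)))))) (n 2 (n 0 z (n 0 z (n 0 z (n 0 z (n 0 z (n 0 z
 z)))))) (n 2 (n 0 z (n 0 z (n 0 z (n 0 z (n 0 z (n 0 z z)))))) z)))))) (n 0 z (n 0 z (n 0 z (n
 0 z (n 0 z z))))))))))) (n 243 (n 0 z (n 0 z (n 0 z (n 0 z (n 0 z (n 2 (n 0 z (n 2 (n 0 z (n 0
 z (n 0 z (n 0 z (n 0 z (n 0 z z)))))) (n 2 (n 0 z (n 0 z (n 0 z (n 0 z (n 0 z (n 0 z z)))))) (n
 2 (n 0 z (n 0 z (n 0 z (n 0 z (n 0 z (n 0 z z)))))) (n 2 (n 0 z (n 0 z (n 0 z (n 0 z (n 0 z (n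
 0 z z)))))) z))))) (n 0 z (n 0 z (n 0 z (n 0 z (n 0 z (n 0 z z)))))))))))) (n 243 (n 0 z (n 0 z
 (n 0 z (n 0 z (n 0 z (n 0 z (n 2 (n 2 (n 0 z (n 0 z (n 0 z (n 0 z (n 0 z (n 0 z z)))))) (n 2 (n
 0 z (n 0 z (n 0 z (n 0 z (n 0 z (n 0 z z)))))) (n 1 z (n 1 z z)))) (n 0 z (n 0 z (n 0 z (n 0 z
 (n 0 z z)))))))))))) (n 245 (n 0 z (n 0 z (n 2 (n 0 z (n 0 z (n 0 z z))) (n 0 z (n 0 z (n 0 z
 (n 0 z (n 0 z (n 0 z (n 0 z (n 0 z (n 0 z z)))))))))))) (n 245 (n 0 z (n 0 z (n 0 z (n 0 z (n 0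
 z (n 0 z (n 0 z (n 0 z (n 0 z (n 0 z (n 0 z (n 0 z z)))))))))))) (n 245 (n 0 z (n 0 z (n 0 z (n
 0 z (n 0 z (n 0 z (n 0 z (n 0 z (n 0 z (n 0 z (n 0 z (n 2 (n 0 z z) z)))))))))))) (n 245 (n 0 z
 (n 0 z (n 0 z (n 0 z (n 2 z (n 0 z (n 0 z (n 0 z (n 0 z (n 0 z (n 0 z (n 0 z z))))))))))))
 z))))))))))) (n 0 (n 0 z (n 179 (n 0 z (n 0 z (n 0 z (n 0 z (n 0 z (n 0 z (n 0 z (n 0 z (n 0 z
 z))))))))) (n 151 (n 0 z (n 0 z (n 0 z (n 0 z (n 0 z (n 0 z (n 0 z (n 0 z (n 0 z (n 0 z (n 0 z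
 (n 0 z z)))))))))))) (n 153 (n 0 z (n 0 z (n 0 z (n 0 z (n 0 z (n 0 z (n 0 z (n 0 z z))))))))
 (n 21 (n 0 z (n 0 z (n 0 z (n 0 z (n 0 z (n 0 z (n 0 z (n 0 z (n 0 z (n 0 z (n 0 z (n 0 z
 z)))))))))))) (n 21 (n 0 z (n 0 z (n 0 z (n 0 z (n 2 (n 2 (n 0 z (n 0 z (n 0 z (n 0 z (n 0 z (n
 0 z z)))))) (n 2 (n 0 z (n 0 z (n 0 z (n 0 z (n 0 z (n 0 z z)))))) (n 1 z (n 1 z z)))) (n 0 z
 (n 0 z (n 0 z (n 0 z (n 0 z (n 0 z (n 0 z z)))))))))))) (n 29 (n 0 z (n 0 z (n 0 z (n 0 z (n 0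
 z (n 0 z (n 0 z (n 0 z (n 0 z (n 0 z (n 0 z (n 0 z z)))))))))))) (n 29 (n 0 z (n 0 z (n 0 z (n
 2 (n 0 z (n 0 z z)) (n 0 z (n 0 z (n 0 z (n 0 z (n 0 z (n 0 z (n 0 z (n 0 z z)))))))))))) (n 29
 (n 0 z (n 0 z (n 2 (n 0 z z) (n 0 z (n 0 z (n 0 z (n 0 z (n 0 z (n 0 z (n 0 z (n 0 z (n 0 z
 z)))))))))))) (n 29 (n 0 z (n 0 z (n 0 z (n 0 z (n 0 z (n 0 z (n 2 z (n 0 z (n 0 z (n 0 z (n 0
 z (n 0 z z)))))))))))) z)))))))))) (n 0 (n 1243 (n 0 z (n 0 z (n 0 z (n 0 z (n 0 z z))))) (n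
 1239 (n 0 z (n 0 z (n 0 z (n 0 z (n 0 z (n 0 z (n 0 z (n 0 z z)))))))) (n 1237 (n 0 z (n 0 z (n
 0 z (n 0 z (n 0 z (n 0 z (n 0 z (n 0 z (n 0 z (n 0 z (n 0 z (n 0 z (n 0 z z))))))))))))) (n 193
 (n 0 z (n 0 z (n 0 z (n 0 z (n 0 z (n 0 z (n 0 z (n 0 z z)))))))) (n 193 (n 0 z (n 0 z (n 0 z
 (n 0 z (n 0 z (n 0 z (n 0 z (n 0 z z)))))))) (n 293 (n 0 z (n 0 z (n 0 z (n 0 z (n 0 z (n 0 z
 (n 0 z z))))))) (n 293 (n 0 z (n 2 (n 0 z (n 0 z z)) (n 0 z (n 0 z (n 0 z (n 0 z (n 0 z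
 z))))))) (n 293 (n 0 z (n 0 z (n 0 z (n 0 z (n 0 z (n 0 z (n 7754291 z z))))))) (n 293 (n 0 z
 (n 0 z (n 0 z (n 0 z (n 0 z (n 0 z (n 0 z z))))))) z))))))))) (n 0 (n 417 (n 0 z (n 0 z (n 0 z
 (n 0 z (n 0 z (n 0 z (n 0 z (n 0 z (n 0 z (n 0 z (n 0 z (n 0 z (n 0 z (n 0 z (n 0 z (n 0 z
 z)))))))))))))))) (n 1045 (n 0 z (n 0 z (n 0 z (n 0 z (n 0 z (n 0 z (n 0 z (n 0 z (n 0 z (n 0 z
 z)))))))))) (n 51 (n 0 z (n 0 z (n 0 z (n 0 z (n 0 z (n 0 z (n 0 z (n 0 z z)))))))) (n 51 (n 0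
 z (n 0 z (n 2 (n 1 z (n 1 z (n 1 z (n 1 z z)))) (n 0 z (n 0 z (n 0 z (n 0 z (n 0 z z)))))))) (n
 409 (n 0 z (n 0 z (n 0 z (n 0 z (n 0 z (n 0 z (n 0 z z))))))) (n 409 (n 0 z (n 0 z (n 0 z (n 2
 (n 0 z (n 0 z z)) (n 0 z (n 0 z (n 0 z z))))))) (n 409 (n 0 z (n 0 z (n 2 (n 0 z z) (n 0 z (n 0
 z (n 0 z (n 0 z z))))))) (n 409 (n 0 z (n 0 z (n 0 z (n 0 z (n 0 z (n 0 z (n 0 z z)))))))
 z)))))))) (n 0 (n 555 (n 0 z (n 0 z (n 0 z (n 0 z (n 0 z (n 0 z (n 0 z (n 0 z (n 0 z (n 0 z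
 z)))))))))) (n 291 (n 0 z (n 0 z (n 0 z (n 0 z (n 0 z (n 0 z (n 0 z (n 0 z (n 0 z (n 0 z (n 0 z
 (n 0 z (n 0 z (n 0 z z)))))))))))))) (n 291 (n 0 z (n 0 z (n 0 z (n 0 z (n 0 z (n 0 z (n 2 (n 1
 z (n 1 z (n 1 z (n 1 z z)))) (n
 0x2ca4ea26078080807e80807f80807f817f80817f80808081808181807f807f817f807f807f807f7f808080818080808181817f808080800809
 z (n 0 z (n 0 z (n 0 z (n 0 z (n 0 z (n 0 z z)))))))))))))) (n 557 (n 0 z (n 0 z (n 0 z (n 0 z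
 (n 0 z (n 0 z (n 0 z (n 0 z (n 0 z (n 0 z z)))))))))) (n 557 (n 2 (n 0 z (n 0 z z)) (n 0 z (n 0
 z (n 0 z (n 0 z (n 0 z (n 0 z (n 0 z (n 0 z (n 0 z z)))))))))) (n 557 (n 0 z (n 0 z (n 0 z (n 0
 z (n 0 z (n 2 (n 0 z z) (n 0 z (n 0 z (n 0 z (n 0 z z)))))))))) (n 557 (n 0 z (n 0 z (n 0 z (n
 0 z (n 0 z (n 0 z (n 0 z (n 0 z (n 0 z (n 0 z z)))))))))) z))))))) (n 0 (n 3 (n 0 z (n 0 z (n 0
 z (n 0 z (n 0 z (n 0 z z)))))) (n 3 (n 0 z (n 2 (n 1 z (n 1 z (n 1 z (n 1 z z)))) (n 0 z (n 0 z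
 (n 0 z (n 0 z z)))))) (n 1 (n 0 z (n 0 z (n 0 z (n 0 z (n 0 z (n 0 z (n 0 z (n 0 z (n 0 z (n 0
 z (n 0 z (n 0 z (n 0 z z))))))))))))) (n 1 (n 0 z (n 0 z (n 0 z (n 0 z (n 0 z (n 0 z (n 0 z (n
 2 (n 0 z (n 0 z z)) (n 0 z (n 0 z (n 0 z (n 0 z (n 0 z z))))))))))))) (n 1 (n 0 z (n 0 z (n 0 z
 (n 0 z (n 0 z (n 0 z (n 0 z (n 0 z (n 0 z (n 2 (n 0 z z) (n 0 z (n 0 z (n 0 z z))))))))))))) (n
 1 (n 0 z (n 0 z (n 0 z (n 0 z (n 0 z (n 0 z (n 0 z (n 0 z (n 0 z (n 0 z (n 0 z (n 2 z (n 0 z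
 z))))))))))))) z)))))) (n 0 (n 0 z (n 5 (n 0 z (n 0 z (n 0 z (n 0 z (n 0 z (n 0 z (n 0 z (n 0 z
 (n 0 z (n 0 z (n 0 z z))))))))))) (n 5 (n 0 z (n 2 (n 0 z (n 0 z z)) (n 0 z (n 0 z (n 0 z (n 0
 z (n 0 z (n 0 z (n 0 z (n 0 z (n 0 z z))))))))))) (n 5 (n 0 z (n 0 z (n 0 z (n 0 z (n 0 z (n 0
 z (n 2 (n 0 z z) (n 0 z (n 0 z (n 0 z (n 0 z z))))))))))) (n 5 (n 0 z (n 0 z (n 0 z (n 0 z (n 0
 z (n 0 z (n 0 z (n 0 z (n 0 z (n 0 z (n 0 z z))))))))))) z))))) (n 0 (n 5 (n 0 z (n 2 (n 0 z (n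
 0 z (n 0 z z))) (n 0 z (n 0 z (n 0 z (n 0 z (n 0 z (n 0 z (n 0 z (n 0 z (n 0 z (n 0 z (n 0 z (n
 0 z z)))))))))))))) (n 5 (n 0 z (n 0 z (n 2 (n 0 z (n 0 z z)) (n 0 z (n 0 z (n 0 z (n 0 z (n 0
 z (n 0 z (n 0 z (n 0 z (n 0 z (n 0 z (n 0 z z)))))))))))))) (n 5 (n 0 z (n 0 z (n 0 z (n 0 z (n
 0 z (n 0 z (n 0 z (n 0 z (n 0 z (n 0 z (n 0 z (n 0 z (n 0 z (n 0 z z)))))))))))))) (n 5 (n 0 z
 (n 0 z (n 0 z (n 0 z (n 2 z (n 0 z (n 0 z (n 0 z (n 0 z (n 0 z (n 0 z (n 0 z (n 0 z (n 0 z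
 z)))))))))))))) z)))) (n 0 (n 0 z (n 0 z (n 0 z z))) (n 0 (n 0 z (n 0 z z)) (n 0 (n 0 z z) (n 0
 z z)))))))))))) (n 0 (n 0 z (n 1 (n 2 z (n 4700 z (n 4700 z (n 4700 z (n 4700 z (n 4700 z
 z)))))) (n 0 z (n 1 (n 3278363 z (n 3278363 z (n 3278363 z (n 3278363 z (n 3278363 z (n 3278363
 z z)))))) z)))) (n 0 (n 0x42264d62649d6c649c294640 (n 0 (n 0 (n 7746587 z (n 7746587 z (n
 7746587 z (n 7746587 z (n 7746587 z (n 7746587 z z)))))) z) (n 0 (n 76 (n 1 (n 7544915 z (n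
 7544915 z (n 7544915 z (n 7544915 z (n 7544915 z (n 7544915 z z)))))) (n 1 (n 4700 z (n 7476283
 z (n 6633291 z (n 2 z (n 4700 z (n 4700 z z)))))) (n 1 (n 4700 z (n 4700 z (n 4700 z (n 4700 z
 (n 4700 z (n 7476283 z z)))))) (n 1 (n 7544915 z (n 7544915 z (n 7544915 z (n 7544915 z (n
 7544915 z (n 7544915 z z)))))) (n 1 (n 6636403 z (n 4401003 z (n 4700 z (n 4700 z (n 4700 z (n
 4700 z z)))))) (n 1 (n 6636403 z (n 4700 z (n 4700 z (n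
 0x18ea6a624038247987f780e7bf7f87e08357f781b8257c383383884e86f7c47d27e17e97d980e7fc7cb8017957c87737f68a37978647f08727c48367d97ea8368178548008847bf7ce77c7f289e7c07cf0811
 z (n 4700 z (n 4700 z z)))))) (n 1 (n 7684899 z (n 7684899 z (n 7684899 z (n 7684899 z (n
 7684899 z (n 7684899 z z)))))) (n 1 (n 7684899 z (n 7684899 z (n 7684899 z (n 7684899 z (n
 7684899 z (n 7684899 z z)))))) z)))))))) (n 33 (n 0 z (n 1 (n 3278699 z (n 3278699 z (n 3278699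
 z (n 3278699 z (n 3278699 z (n 3278699 z z)))))) (n 0 z (n 1 (n 3278619 z (n 3278619 z (n
 3278619 z (n 3278619 z (n 3278619 z (n 3278619 z z)))))) z)))) (n 129 (n 0 z (n 1 (n 7746587 z
 (n 7746587 z (n 7746587 z (n 7746587 z (n 7746587 z (n 7746587 z z)))))) (n 0 z (n 0 z (n 0 z
 (n 0 z (n 1 (n 7544915 z (n 7544915 z (n 7544915 z (n 7544915 z (n 7544915 z (n 7544915 z
 z)))))) (n 1 (n 7544915 z (n 7544915 z (n 7544915 z (n 7544915 z (n 7544915 z (n 7544915 z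
 z)))))) z)))))))) (n 1 (n 1 (n 7684899 z (n 7684899 z (n 7684899 z (n 7684899 z (n 7684899 z (n
 7684899 z z)))))) (n 1 (n 5506923 z (n 7746587 z (n 6635635 z (n 3548 z (n 3548 z (n 3548 z
 z)))))) (n 0 z (n 1 (n 7544915 z (n 7544915 z (n 7544915 z (n 7544915 z (n 7544915 z (n 7544915
 z z)))))) (n 1 (n 7684899 z (n 7684899 z (n 7684899 z (n 7684899 z (n 7684899 z (n 7684899 z
 z)))))) (n 0 z z)))))) (n 1 (n 1 (n 6358859 z (n 4172 z (n 4172 z (n 4172 z (n 4172 z (n 4172 z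
 z)))))) (n 1 (n 7684899 z (n 7684899 z (n 7684899 z (n 7684899 z (n 7684899 z (n 7684899 z
 z)))))) (n 1 (n 2164587 z (n 2164587 z (n 2164587 z (n 2164587 z (n 2164587 z (n 2164587 z
 z)))))) (n 0 z (n 1 (n 4172 z (n 4172 z (n 10 z (n 6493995 z (n 4172 z (n 4172 z z)))))) z)))))
 (n 715 (n 0 z (n 1 (n 3278619 z (n 3278619 z (n 7746587 z (n 3278619 z (n 3278619 z (n 3278619
 z z)))))) (n 1 (n 5180 z (n 18 z (n 5180 z (n 7746587 z (n 5180 z (n 5180 z z)))))) (n 1 (n 26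
 z (n 5180 z (n 5180 z (n 7746587 z (n 5180 z (n 5180 z z)))))) (n 0 z (n 0 z (n 1 (n 7684899 z
 (n 7684899 z (n 7684899 z (n 7684899 z (n 7684899 z (n 7684899 z z)))))) z))))))) (n 33 (n 0 z
 (n 1 (n 7746587 z (n 3278699 z (n 3278699 z (n 3278699 z (n 3278699 z (n 3278699 z z)))))) (n 0
 z (n 1 (n 3278619 z (n 3278619 z (n 7746587 z (n 3278619 z (n 3278619 z (n 3278619 z z))))))
 z)))) z))))))) (n 0 (n 0 (n 0 z (n 0 z (n 0 z (n 0 z z)))) (n 0 (n 0 z (n 0 z (n 0 z z))) (n 0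
 (n 0 z (n 0 z z)) (n 0 (n 0 z z) z)))) (n 0 (n 209 (n 0 (n 0 z (n 0 z (n 0 z (n 0 z z)))) (n 0
 (n 0 z (n 0 z (n 0 z (n 0 z z)))) (n 0 (n 0 z (n 0 z (n 0 z (n 0 z z)))) (n 0 (n 0 z (n 0 z (n
 0 z (n 0 z z)))) (n 0 (n 0 z (n 0 z (n 0 z (n 0 z z)))) (n 0 (n 0 z (n 0 z (n 0 z (n 0 z z))))
 (n 0 (n 0 z (n 0 z (n 0 z (n 0 z z)))) (n 0 (n 0 z (n 0 (n 8591147 z z) (n 0 z (n 0 z z)))) (n
 0 (n 0 z (n 0 (n 8591147 z z) (n 0 z (n 0 z z)))) z))))))))) (n 321 (n 0 (n 0 z (n 0 z (n 0 z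
 (n 0 z z)))) (n 0 (n 0 z (n 0 z (n 0 z (n 0 z z)))) (n 0 (n 0 z (n 0 z (n 0 z (n 0 z z)))) (n 0
 (n 0 z (n 0 z (n 0 z (n 0 z z)))) (n 0 (n 0 z (n 0 z (n 0 z (n 0 z z)))) (n 0 (n 0 z (n 0 z (n
 0 z (n 0 z z)))) (n 0 (n 0 z (n 0 z (n 0 (n 8795995 z z) (n 0 z z)))) (n 0 (n 0 z (n 0 z (n 0 z
 (n 0 z z)))) (n 0 (n 0 z (n 0 z (n 0 z (n 0 z z)))) (n 0 (n 0 z (n 0 z (n 0 z (n 0 z z)))) (n 0
 (n 0 z (n 0 z (n 0 z (n 0 z z)))) (n 0 (n 0 z (n 0 z (n 0 z (n 0 z z)))) z)))))))))))) (n 328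
 (n 0 (n 0 z (n 0 z (n 0 z (n 0 z z)))) (n 0 (n 0 z (n 0 z (n 0 z (n 0 z z)))) (n 0 (n 0 z (n 0
 z (n 0 z (n 0 z z)))) (n 0 (n 0 z (n 0 (n 8868403 z (n 8868403 z z)) (n 0 (n 8868403 z (n
 8868403 z z)) (n 0 z z)))) (n 0 (n 0 z (n 0 z (n 0 z (n 0 z z)))) (n 0 (n 0 z (n 0 z (n 0 z (n
 0 z z)))) (n 0 (n 0 z (n 0 z (n 0 z (n 0 z z)))) (n 0 (n 0 z (n 0 z (n 0 z (n 0 z z)))) (n 0 (n
 0 z (n 0 z (n 0 z (n 0 z z)))) (n 0 (n 0 z (n 0 z (n 0 z (n 0 z z)))) (n 0 (n 0 z (n 0 z (n 0 z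
 (n 0 z z)))) (n 0 (n 0 z (n 0 z (n 0 (n 8868403 z z) (n 0 z z)))) (n 0 (n 0 z (n 0 (n 8868403 z
 z) (n 0 z (n 0 z z)))) (n 0 (n 0 z (n 0 z (n 0 z (n 0 z z)))) (n 0 (n 0 z (n 0 z (n 0 z (n 0 z
 z)))) (n 0 (n 0 z (n 0 z (n 0 z (n 0 z z)))) z)))))))))))))))) (n 443 (n 0 (n 0 (n 8871955 z z)
 (n 0 z (n 0 (n 8593491 z z) (n 0 (n 8871955 z z) z)))) (n 0 (n 0 z (n 0 z (n 0 z (n 0 z z))))
 (n 0 (n 0 z (n 0 z (n 0 (n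
 0x2ea9086407808080818080808181808080807f7f7f808080808080808080808080808080808080808080808080808080808080808080810809
 z z) (n 0 z z)))) (n 0 (n 0 z (n 0 z (n 0 z (n 0 z z)))) (n 0 (n 0 z (n 0 z (n 0 z (n 0 z z))))
 (n 0 (n 0 z (n 0 z (n 0 z (n 0 z z)))) (n 0 (n 0 (n 8733475 z z) (n 0 z (n 0 z (n 0 (n 8733475
 z z) z)))) (n 0 (n 0 z (n 0 z (n 0 z (n 0 z z)))) z)))))))) (n 571 (n 0 (n 0 z (n 0 z (n 0 z (n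
 0 z z)))) (n 0 (n 0 z (n 0 z (n 0 z (n 0 z z)))) (n 0 (n 0 z (n 0 z (n 0 (n
 0xf585282279e80883e78e8167b98597be8308277e180e80085984b7f37cc7ff7ec7f08037e57ef8017c47d876e7e98a379d8567e48757d281a7ec7d182f81a81e80c8747c97c179a7fb8947a47e10051
 z z) (n 0 z z)))) (n 0 (n 0 z (n 0 z (n 0 z (n 0 z z)))) (n 0 (n 0 z (n 0 z (n 0 z (n 0 z z))))
 (n 0 (n 0 z (n 0 z (n 0 z (n 0 z z)))) (n 0 (n 0 z (n 0 (n 8795995 z (n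
 0x2ea90a640781808080808080808080808080808080808080808080808080808080808080808080808080808080808080808080808080800809
 z z)) (n 0 z (n 0 z z)))) (n 0 (n 0 z (n 0 z (n 0 (n 8591147 z (n
 0xea9086407807f8081808180808080808080808080808080808080808080808080808080808080808180808080808080808080808080800809
 z z)) (n 0 z z)))) (n 0 (n 0 z (n 0 z (n 0 z (n 0 z z)))) (n 0 (n 0 z (n 0 z (n 0 z (n 0 z
 z)))) z)))))))))) (n 397 (n 0 (n 0 z (n 0 z (n 0 z (n 0 z z)))) (n 0 (n 0 z (n 0 z (n 0 z (n 0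
 z z)))) (n 0 (n 0 z (n 0 z (n 0 z (n 0 z z)))) (n 0 (n 0 z (n 0 (n 8795163 z z) (n 0 z (n 0 z
 z)))) (n 0 (n 0 z (n 0 z (n 0 (n 6359099 z z) (n 0 z z)))) (n 0 (n 0 z (n 0 z (n 0 z (n 0 z
 z)))) (n 0 (n 0 z (n 0 z (n 0 z (n 0 z z)))) (n 0 (n 0 z (n 0 z (n 0 z (n 0 z z)))) (n 0 (n 0 z
 (n 0 z (n 0 z (n 0 z z)))) (n 0 (n 0 z (n 0 z (n 0 z (n 0 z z)))) z)))))))))) (n 521 (n 0 (n 0
 z (n 0 z (n 0 z (n 0 z z)))) (n 0 (n 0 (n 8871955 z (n 8871955 z z)) (n 0 z (n 0 z (n 0 (n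
 8871955 z (n 8871955 z z)) z)))) (n 0 (n 0 z (n 0 z (n 0 z (n 0 z z)))) (n 0 (n 0 (n
 0x2161c4042438813b8717cf81c7d17b187b7ef83e76f8847e98387ef7d782f7eb7ed8068287dd85f77c82d7f47d980a81e8378078077d482a79480a8018277e781b7dd80f81583475d82c7c984d7ca7df7ad8437cd00d1
 z z) (n 0 z (n 0 z (n 0 (n
 0x2161c4042438813b8717cf81c7d17b187b7ef83e76f8847e98387ef7d782f7eb7ed8068287dd85f77c82d7f47d980a81e8378078077d482a79480a8018277e781b7dd80f81583475d82c7c984d7ca7df7ad8437cd00d1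
 z z) z)))) (n 0 (n 0 z (n 0 z (n 0 z (n 0 z z)))) (n 0 (n 0 z (n 0 z (n 0 z (n 0 z z)))) (n 0
 (n 0 z (n 0 z (n 0 z (n 0 z z)))) (n 0 (n 0 z (n 0 z (n 0 z (n 0 z z)))) (n 0 (n 0 z (n 0 (n
 0x30a6ea640781808080808180808080808080808080808080808080808080808080808080808080808080808080808080808080808080800809
 z z) (n 0 z (n 0 z z)))) (n 0 (n 0 z (n 0 z (n 0 z (n 0 z z)))) (n 0 (n 0 z (n 0 z (n 0 z (n 0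
 z z)))) (n 0 (n 0 z (n 0 z (n 0 z (n 0 z z)))) z)))))))))))) (n 39 (n 0 (n 0 z (n 0 z (n 0 z (n
 0 z z)))) (n 0 (n 0 z (n 0 z (n 0 (n 8733475 z z) (n 0 z z)))) (n 0 (n 0 z (n 0 z (n 0 z (n 0 z
 z)))) (n 0 (n 0 z (n 0 (n 8733475 z z) (n 0 z (n 0 z z)))) (n 0 (n 0 z (n 0 z (n 0 z (n 0 z
 z)))) (n 0 (n 0 z (n 0 z (n 0 z (n 0 z z)))) (n 0 (n 0 z (n 0 z (n 0 z (n 0 z z)))) (n 0 (n 0
 (n
 0x1961d803643b00fb8767d98167da7c18637f283178b86a7ee82d7f27df8257f07f18058207e584c7978237f67e180881782c8058057dd8227aa80880381f7ec8167e480c81182977d8237d483d7d57e57bd8357d700d1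
 z z) (n 0 z (n 0 z (n 0 (n 6498427 z z) z)))) z)))))))) (n 195 (n 0 (n 0 z (n 0 z (n 0 z (n 0 z
 z)))) (n 0 (n 0 z (n 0 (n
 0x30a4ea06078180808080808080808080808080808080808080808080808080807f8080808080808080808080808080808080808080807f0809
 z z) (n 0 z (n 0 z z)))) (n 0 (n 0 z (n 0 z (n 0 (n 5310539 z z) (n 0 z z)))) (n 0 (n 0 (n
 8864099 z z) (n 0 z (n 0 z (n 0 (n 3213387 z z) z)))) (n 0 (n 0 z (n 0 z (n 0 z (n 0 z z)))) (n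
 0 (n 0 z (n 0 z (n 0 z (n 0 z z)))) (n 0 (n 0 z (n 0 z (n 0 z (n 0 z z)))) (n 0 (n 0 z (n 0 z
 (n 0 z (n 0 z z)))) (n 0 (n 0 z (n 0 z (n 0 z (n 0 z z)))) (n 0 (n 0 z (n 0 z (n 0 z (n 0 z
 z)))) (n 0 (n 0 z (n 0 z (n 0 z (n 0 z z)))) (n 0 (n 0 z (n 0 z (n 0 z (n 0 z z)))) (n 0 (n 0 z
 (n 0 z (n 0 z (n 0 z z)))) (n 0 (n 0 z (n 0 z (n 0 z (n 0 z z)))) z)))))))))))))) (n 3 (n 0 (n
 0 z (n 0 z (n 0 (n 8733475 z z) (n 0 z z)))) (n 0 (n 0 z (n 0 z (n 0 z (n 0 z z)))) (n 0 (n 0 z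
 (n 0 (n
 0xad87695798d8678897aa16c6e4787a67f5f816f8b8166a8819277716a6ba883507f70887e52a287ad6b6f9f7d666365c3947977b00049
 z (n
 0x2ecb0a6403817f8080808080808080807f80818080808080808080808080808080808080808080808080808080808080808080808081800809
 z z)) (n 0 (n
 0x30cb0a24038180808080818080818080807f80807f80808080807f7f8080808080808180808080818080808080808080808080808080800809
 z (n
 0x9d872964286a7378e53b9569f996c8881bab0775f7f7376826f75805a662371e840b76ecb629073629e909387ca5d573e7cdf456d0049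
 z z)) (n 0 z z)))) (n 0 (n 0 z (n 0 z (n 0 z (n 0 z z)))) (n 0 (n 0 z (n 0 z (n 0 z (n 0 z
 z)))) (n 0 (n 0 z (n 0 z (n 0 (n 8593491 z z) (n 0 z z)))) z)))))) (n 647 (n 0 (n 0 z (n 0 z (n
 0 z (n 0 z z)))) (n 0 (n 0 z (n 0 z (n 0 z (n 0 z z)))) (n 0 (n 0 z (n 0 z (n 0 z (n 0 z z))))
 (n 0 (n 0 z (n 0 z (n 0 z (n 0 z z)))) (n 0 (n 0 z (n 0 z (n 0 z (n 0 z z)))) (n 0 (n 0 z (n 0
 z (n 0 z (n 0 z z)))) (n 0 (n 0 z (n 0 z (n 0 z (n 0 z z)))) (n 0 (n 0 z (n 0 z (n 0 z (n 0 z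
 z)))) (n 0 (n 0 z (n 0 z (n 0 z (n 0 z z)))) (n 0 (n 0 z (n 0 z (n 0 z (n 0 z z)))) (n 0 (n 0 z
 (n 0 z (n 0 (n 8733475 z z) (n 0 z z)))) (n 0 (n 0 z (n 0 z (n 0 z (n 0 z z)))) z))))))))))))
 (n 715 (n 0 (n 0 z (n 0 z (n 0 z (n 0 z z)))) (n 0 (n 0 z (n 0 z (n 0 z (n 0 z z)))) (n 0 (n 0
 z (n 0 z (n 0 z (n 0 z z)))) (n 0 (n 0 z (n 0 z (n 0 z (n 0 z z)))) (n 0 (n 0 z (n 0 z (n 0 z
 (n 0 z z)))) (n 0 (n 0 z (n 0 z (n 0 z (n 0 z z)))) (n 0 (n 0 z (n 0 z (n 0 z (n 0 z z))))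
 z))))))) (n 646 (n 0 (n 0 z (n 0 z (n 0 z (n 0 z z)))) (n 0 (n 0 z (n 0 z (n 0 z (n 0 z z))))
 (n 0 (n 0 z (n 0 z (n 0 z (n 0 z z)))) (n 0 (n 0 z (n 0 z (n 0 z (n 0 z z)))) (n 0 (n 0 z (n 0
 z (n 0 z (n 0 z z)))) (n 0 (n 0 z (n 0 z (n 0 z (n 0 z z)))) (n 0 (n 0 z (n 0 z (n 0 z (n 0 z
 z)))) (n 0 (n 0 z (n 0 z (n 0 z (n 0 z z)))) (n 0 (n 0 z (n 0 z (n 0 z (n 0 z z)))) (n 0 (n 0 z
 (n 0 z (n 0 z (n 0 z z)))) z)))))))))) (n 5 (n 0 (n 0 (n 8804171 z (n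
 0x30a6e804078080808080808080808080808080808080808080808080808080807f808080808080808080808080808080808080808080800809
 z z)) (n 0 z (n 0 (n
 0x61d21d000e0150e90840038227d97fd8287a87f17cd8cb7a08577bb7d384480d7e88567ed7f57f77bc7e68048057eb7fe7ba7b679680b8067b782e80089979d84681c7fe83880b88180584078e7698218098a17838071011
 z (n 7739451 z z)) (n 0 (n
 0x2ac3804c87081747a886b7875958394926c7881899a83837f8065816f6d80767555858c6d8d819e768d7e6e9a8f8b80a85d756677a8706b0089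
 z (n
 0x5086e804038180808080807e808080808080807f81807f807f80808080807f818080808180817f7f807e80808080808080808080807f800809
 z z)) z)))) (n 0 (n 0 z (n 0 z (n 0 z (n 0 z z)))) (n 0 (n 0 z (n 0 z (n 0 z (n 0 z z)))) (n 0
 (n 0 z (n 0 z (n 0 z (n 0 z z)))) (n 0 (n 0 (n 8864099 z z) (n 0 z (n 0 z (n 0 (n
 0x2161c4042438813b8717cf81c7d17b187b7ef83e76f8847e98387ef7d782f7eb7ed8068287dd85f77c82d7f47d980a81e8378078077d482a79480a8018277e781b7dd80f81583475d82c7c984d7ca7df7ad8437cd00d1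
 z z) z)))) (n 0 (n 0 z (n 0 z (n 0 z (n 0 z z)))) (n 0 (n 0 z (n 0 z (n 0 z (n 0 z z)))) (n 0
 (n 0 z (n 0 z (n 0 z (n 0 z z)))) (n 0 (n 0 z (n 0 z (n 0 z (n 0 z z)))) (n 0 (n 0 z (n 0 z (n
 0 z (n 0 z z)))) (n 0 (n 0 z (n 0 z (n 0 z (n 0 z z)))) (n 0 (n 0 z (n 0 z (n 0 z (n 0 z z))))
 (n 0 (n 0 (n
 0x30a6e80407808080808080808081808080808080808080808080808080807f8080808080808080808080808080808080808080808080800809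
 z z) (n 0 z (n 0 z (n 0 (n 8591211 z z) z)))) z))))))))))))) (n 4 (n 0 (n 0 z (n 0 z (n 0 z (n
 0 z z)))) (n 0 (n 0 z (n 0 z (n 0 z (n 0 z z)))) (n 0 (n 0 (n 8733475 z z) (n 0 z (n 0 z (n 0
 (n 8733475 z z) z)))) (n 0 (n 0 z (n 0 z (n 0 z (n 0 z z)))) (n 0 (n 0 z (n 0 z (n 0 (n
 0x30e70e60078180808180818180808080808180808080807f807f7f80808180808081808080808080818080808081807f807f80808080800809
 z (n 7739451 z z)) (n 0 z z)))) (n 0 (n 0 z (n 0 z (n 0 z (n 0 z z)))) (n 0 (n 0 z (n 0 z (n 0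
 z (n 0 z z)))) (n 0 (n 0 z (n 0 z (n 0 z (n 0 z z)))) (n 0 (n 0 z (n 0 z (n 0 z (n 0 z z)))) (n
 0 (n 0 (n
 0x50e70e640781818180807f80818180817f807f80808080818081818081807f80817f80817e808080807f8080807f8080818081808180800809
 z z) (n 0 z (n 0 (n 8868403 z z) (n 0 (n 8855811 z z) z)))) (n 0 (n 0 z (n 0 z (n 0 z (n 0 z
 z)))) z))))))))))) (n 587 (n 0 (n 0 z (n 0 (n 8593491 z z) (n 0 z (n 0 z z)))) (n 0 (n 0 z (n 0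
 z (n 0 z (n 0 z z)))) (n 0 (n 0 (n
 0xad83295798d8678897aa16c6e4787a67f5f816f8b8166a8819277716a6ba883507f70887e52a287ad6b6f9f7d666365c3947977b00049
 z z) (n 0 z (n 0 z (n 0 (n
 0xad83295798d8678897aa16c6e4787a67f5f816f8b8166a8819277716a6ba883507f70887e52a287ad6b6f9f7d666365c3947977b00049
 z z) z)))) (n 0 (n 0 z (n 0 z (n 0 z (n 0 z z)))) (n 0 (n 0 z (n 0 z (n 0 z (n 0 z z)))) (n 0
 (n 0 z (n 0 z (n 0 z (n 0 z z)))) (n 0 (n 0 z (n 0 z (n 0 z (n 0 z z)))) (n 0 (n 0 (n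
 0x758528d7b88847b867c9573755b85987f6a817587816f99808c7a7772739982627f76857e6396859c7275947e706e6fab8e7b7b9f0049
 z z) (n 0 z (n 0 z (n 0 (n
 0xad85295798d8678897aa16c6e4787a67f5f816f8b8166a8819277716a6ba883507f70887e52a287ad6b6f9f7d666365c3947977b00049
 z z) z)))) (n 0 (n 0 z (n 0 z (n 0 z (n 0 z z)))) (n 0 (n 0 z (n 0 z (n 0 z (n 0 z z)))) (n 0
 (n 0 z (n 0 z (n 0 z (n 0 z z)))) (n 0 (n 0 z (n 0 z (n 0 z (n 0 z z)))) (n 0 (n 0 z (n 0 z (n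
 0 z (n 0 z z)))) (n 0 (n 0 z (n 0 z (n 0 z (n 0 z z)))) (n 0 (n 0 z (n 0 z (n 0 z (n 0 z z))))
 (n 0 (n 0 z (n 0 (n 8795163 z z) (n 0 z (n 0 z z)))) (n 0 (n 0 z (n 0 z (n 0 z (n 0 z z))))
 z))))))))))))))))) (n 33 (n 0 (n 0 z (n 0 z (n 0 z (n 0 z z)))) (n 0 (n 0 z (n 0 z (n 0 z (n 0
 z z)))) (n 0 (n 0 z (n 0 z (n 0 z (n 0 z z)))) (n 0 (n 0 z (n 0 z (n 0 z (n 0 z z)))) z)))) (n
 129 (n 0 (n 0 z (n 0 z (n 0 z (n 0 z z)))) (n 0 (n 0 z (n 0 z (n 0 z (n 0 z z)))) (n 0 (n 0 z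
 (n 0 z (n 0 z (n 0 z z)))) (n 0 (n 0 z (n 0 (n 8524859 z z) (n 0 z (n 0 z z)))) (n 0 (n 0 z (n
 0 (n 8795995 z z) (n 0 z (n 0 z z)))) (n 0 (n 0 z (n 0 z (n 0 z (n 0 z z)))) (n 0 (n 0 z (n 0 z
 (n 0 z (n 0 z z)))) (n 0 (n 0 z (n 0 z (n 0 z (n 0 z z)))) z)))))))) (n 3 (n 0 (n 0 z (n 0 z (n
 0 z (n 0 z z)))) (n 0 (n 0 z (n 0 z (n 0 z (n 0 z z)))) (n 0 (n 0 z (n 0 z (n 0 z (n 0 z z))))
 (n 0 (n 0 z (n 0 z (n 0 z (n 0 z z)))) (n 0 (n 0 (n 8795163 z (n 8591115 z z)) (n 0 z (n 0 (n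
 8795163 z (n 8795163 z z)) (n 0 (n 8795163 z (n 8795163 z z)) z)))) (n 0 (n 0 z (n 0 z (n 0 z
 (n 0 z z)))) (n 0 (n 0 z (n 0 z (n 0 z (n 0 z z)))) (n 0 (n 0 z (n 0 z (n 0 z (n 0 z z)))) (n 0
 (n 0 z (n 0 z (n 0 z (n 0 z z)))) z))))))))) (n 1 (n 0 (n 0 z (n 0 z (n 0 z (n 0 z z)))) (n 0
 (n 0 z (n 0 z (n 0 z (n 0 z z)))) (n 0 (n 0 z (n 0 z (n 0 z (n 0 z z)))) (n 0 (n 0 z (n 0 z (n
 0 z (n 0 z z)))) (n 0 (n 0 z (n 0 z (n 0 z (n 0 z z)))) z))))) (n 0 (n 0 (n 0 z (n 0 z (n 0 z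
 (n 0 z z)))) (n 0 (n 0 z (n 0 z (n 0 z (n 0 z z)))) (n 0 (n 0 z (n 0 z (n 0 z (n 0 z z)))) (n 0
 (n 0 z (n 0 z (n 0 z (n 0 z z)))) (n 0 (n 0 z (n 0 z (n 0 z (n 0 z z)))) (n 0 (n 0 z (n 0 z (n
 0 z (n 0 z z)))) (n 0 (n 0 z (n 0 z (n 0 z (n 0 z z)))) (n 0 (n 0 z (n 0 z (n 0 z (n 0 z z))))
 z)))))))) z))))))))))))))))))))) z)))) z) z)))) (n
 0x1a9268363570b1a9468ecc4469cc092f1a1a491a1185508e360471b18135240 (n 0x31b1a (n 467 (n 3282443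
 z (n 2 z (n 10 z z))) (n 461 (n 0 z (n 0 z (n 0 z (n 3278363 z (n 4326939 z (n 0 z (n 0 z (n 0
 z (n 0 z (n 0 z (n 0 z (n 0 z (n 0 z (n 0 z (n 0 z (n 0 z (n 0 z (n 0 z (n 0 z (n 0 z (n 18 z
 (n 0x6ca8a804078a17e28617dd7628207a192275e79f7a08e37df7db96282586479a76389d92189e85f8e17e00801
 z (n 0 z (n 0 z (n 6427963 z (n 6427963 z (n 26 z (n
 0x6ca8a864078a17e28617dd7628207a192275e79f7a08e37df7db96282586479a76389d92189e85f8e17e00801 z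
 (n 34 z (n
 0xca8ca84038207e17e081f81f8607e08218208207a18218217e08a07e08217df81f8618608218208608200801 z (n
 0xca8ca84038207e17e081f81f8607e08218208207a18218217e08a07e08217df81f8618608218208608200801 z (n
 0 z z)))))))))))))))))))))))))))))))) (n 463 (n 6631955 z (n 42 z (n 6423611 z (n 0 z (n 0 z (n
 6631955 z (n 0 z (n 6427963 z z)))))))) (n 3 (n 6631955 z (n 0 z (n 6631955 z (n 0 z (n 50 z (n
 58 z z)))))) (n 1 (n 0 z (n 0 z (n 0 z (n 6636323 z (n 66 z (n 0 z (n 6636323 z (n 0 z (n 74 z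
 z))))))))) (n 0 (n 6631955 z (n 82 z (n 0 z (n 6631955 z (n 90 z z))))) z)))))) (n 467 (n 0 (n
 0 z (n 1355 (n 0 z (n 0 z (n 0 z (n 0 z (n 0 z (n 0 z (n 0 z (n 0 z (n 0 z (n 0 z (n 0 z (n 0 z
 (n 0 z (n 0 z (n 0 z (n 0 z (n 2 (n 0 z (n 0 z (n 2 (n 0 z (n 0 z (n 0 z (n 0 z (n 0 z (n 0 z
 z)))))) (n 1 z (n 2 (n 0 z (n 0 z (n 0 z (n 0 z (n 0 z (n 0 z z)))))) (n 2 (n 0 z (n 0 z (n 0 z
 (n 0 z (n 0 z (n 0 z z)))))) (n 2 (n 0 z (n 0 z (n 0 z (n 0 z (n 0 z (n 0 z z)))))) (n 2 (n 0 z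
 (n 0 z (n 0 z (n 0 z (n 0 z (n 0 z z)))))) (n 1 z z))))))))) (n 0 z (n 0 z (n 0 z (n 0 z (n 0 z
 (n 0 z (n 0 z (n 0 z (n 0 z (n 0 z (n 0 z (n 0 z (n 0 z (n 0 z z)))))))))))))))))))))))))))))))
 (n 1355 (n 0 z (n 0 z (n 0 z (n 0 z (n 0 z (n 0 z (n 0 z (n 0 z (n 0 z (n 0 z (n 0 z (n 0 z (n
 0 z (n 0 z (n 0 z (n 0 z (n 0 z (n 0 z (n 0 z (n 0 z (n 0 z (n 0 z (n 0 z (n 0 z (n 0 z (n 0 z
 (n 0 z (n 0 z (n 2 (n 0 z (n 2 (n 0 z (n 0 z (n 0 z (n 0 z (n 0 z (n 0 z z)))))) (n 1 z (n 2 (n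
 0 z (n 0 z (n 0 z (n 0 z (n 0 z (n 0 z z)))))) (n 2 (n 0 z (n 0 z (n 0 z (n 0 z (n 0 z (n 0 z
 z)))))) (n 2 (n 0 z (n 0 z (n 0 z (n 0 z (n 0 z (n 0 z z)))))) (n 2 (n 0 z (n 0 z (n 0 z (n 0 z
 (n 0 z (n 0 z z)))))) (n 1 z z)))))))) (n 0 z (n 0 z z))))))))))))))))))))))))))))))) (n 1355
 (n 0 z (n 0 z (n 0 z (n 0 z (n 0 z (n 0 z (n 0 z (n 0 z (n 0 z (n 0 z (n 0 z (n 0 z (n 0 z (n 0
 z (n 0 z (n 0 z (n 0 z (n 0 z (n 0 z (n 0 z (n 0 z (n 0 z (n 0 z (n 0 z (n 0 z (n 0 z (n 0 z (n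
 0 z (n 0 z (n 0 z (n 2 (n 2 (n 0 (n 5436 z z) (n 0 (n 8525323 z z) (n 0 (n 5436 z (n 8732787 z
 z)) (n 0 z (n 0 z (n 0 z z)))))) (n 1 z (n 2 (n 0 (n 44 z z) (n 0 (n 8525323 z z) (n 0 (n 44 z
 (n 8732787 z z)) (n 0 z (n 0 z (n 0 z z)))))) (n 2 (n 0 z (n 0 z (n 0 z (n 0 z (n 0 z (n 0 z
 z)))))) (n 2 (n 0 z (n 0 z (n 0 z (n 0 z (n 0 z (n 0 z z)))))) (n 2 (n 0 z (n 0 z (n 0 z (n 0 z
 (n 0 z (n 0 z z)))))) (n 1 z z))))))) z))))))))))))))))))))))))))))))) (n 1359 (n 0 z (n 2 (n 1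
 z (n 2 (n 0 z (n 0 z (n 0 z (n 0 z (n 0 z (n 0 z z)))))) (n 2 (n 0 z (n 0 z (n 0 (n 36 z (n 36
 z z)) (n 0 z (n 0 (n 8525323 z z) (n 0 (n 36 z z) z)))))) (n 2 (n 0 z (n 0 z (n 0 z (n 0 z (n 0
 z (n 0 z z)))))) (n 2 (n 0 z (n 0 z (n 0 z (n 0 z (n 0 z (n 0 z z)))))) (n 1 z z)))))) (n 0 z
 (n 0 z (n 0 z (n 0 z (n 0 z z))))))) (n 11 (n 0 z (n 0 z (n 0 z (n 0 z (n 0 z (n 0 z (n 0 z (n
 0 z z)))))))) (n 11 (n 0 z (n 0 z (n 2 (n 2 (n 0 z (n 0 z (n 0 z (n 0 z (n 0 z (n 0 z z))))))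
 (n 2 (n 0 z (n 0 z (n 0 z (n 0 z (n 0 z (n 0 z z)))))) (n 2 (n 0 z (n 0 z (n 0 z (n 0 z (n 0 z
 (n 0 z z)))))) (n 1 z z)))) (n 0 z (n 0 z (n 0 z (n 0 z (n 0 z z)))))))) (n 9 (n 0 z (n 0 z (n
 0 z (n 0 z (n 0 z (n 0 z (n 0 z (n 0 z (n 2 (n 0 z (n 2 (n 0 z (n 0 z (n 0 z (n 0 z (n 0 z (n 0
 z z)))))) (n 2 (n 0 z (n 0 z (n 0 (n 8802883 z z) (n 0 z (n 0 z (n 0 z z)))))) z))) z)))))))))
 (n 9 (n 0 z (n 0 z (n 0 z (n 0 z (n 2 (n 2 (n 0 z (n 0 z (n 0 z (n 0 z (n 0 z (n 0 z z)))))) (n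
 2 (n 0 z (n 0 z (n 0 (n 8802883 z z) (n 0 z (n 0 z (n 0 z z)))))) z)) (n 0 z (n 0 z (n 0 z (n 0
 z z))))))))) (n 1 (n 0 z (n 2 (n 0 z z) (n 0 z (n 0 z (n 0 z z))))) (n 1 (n 0 z (n 0 z (n 0 z
 (n 0 z (n 0 z z))))) z))))))))))) (n 0 (n 991 (n 0 z (n 0 z (n 0 z (n 0 z (n 0 z (n 0 z (n 0 z
 (n 0 z (n 0 z (n 0 z (n 0 z (n 0 z (n 0 z (n 0 z (n 0 z (n 0 z (n 0 z (n 0 z (n 0 z (n 0 z (n 0
 z (n 0 z (n 0 z (n 0 z (n 0 z (n 0 z (n 0 z (n 0 z (n 0 z (n 0 z (n 0 z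
 z))))))))))))))))))))))))))))))) (n 991 (n 0 z (n 0 z (n 0 z (n 0 z (n 0 z (n 0 z (n 0 z (n 0 z
 (n 0 z (n 0 z (n 0 z (n 0 z (n 0 z (n 0 z (n 0 z (n 0 z (n 0 z (n 0 z (n 0 z (n 0 z (n 0 z (n 0
 z (n 0 z (n 0 z (n 0 z (n 2 (n 0 z (n 2 (n 0 z (n 0 z (n 0 z (n 0 z (n 0 z (n 0 z z)))))) (n 1
 z (n 2 (n 0 z (n 0 z (n 0 z (n 0 z (n 0 z (n 0 z z)))))) (n 2 (n 0 z (n 0 z (n 0 z (n 0 z (n 0
 z (n 0 z z)))))) (n 2 (n 0 z (n 0 z (n 0 z (n 0 z (n 0 z (n 0 z z)))))) (n 2 (n 0 z (n 0 z (n 0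
 z (n 0 z (n 0 z (n 0 z z)))))) (n 1 z z)))))))) (n 0 z (n 0 z (n 0 z (n 0 z (n 0 z
 z))))))))))))))))))))))))))))))) (n 991 (n 0 z (n 0 z (n 0 z (n 0 z (n 6635635 z (n 0 z (n 0 z
 (n 0 z (n 0 z (n 0 z (n 0 z (n 0 z (n 0 z (n 0 z (n 0 z (n 0 z (n 0 z (n 0 z (n 0 z (n 0 z (n 0
 z (n 0 z (n 0 z (n 0 z (n 0 z (n 0 z (n 0 z (n 0 z (n 0 z (n 0 z (n 0 z
 z))))))))))))))))))))))))))))))) (n 933 (n 0 z (n 0 z (n 0 z (n 0 z (n 0 z (n 0 z (n 0 z (n 0 z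
 z)))))))) (n 147 (n 0 z (n 0 z (n 0 z (n 2 (n 0 z (n 2 (n 0 z (n 0 z (n 0 z (n 0 z (n 0 z (n 0
 z z)))))) (n 2 (n 0 (n 8798803 z z) (n 0 z (n 0 (n 8798803 z (n 8798803 z z)) (n 0 z (n 0 z (n
 0 (n 8798803 z z) z)))))) (n 2 (n 0 z (n 0 z (n 0 (n 8652587 z (n 3283051 z z)) (n 0 (n 3283051
 z z) (n 0 z (n 0 (n 3283051 z z) z)))))) (n 1 z z))))) (n 0 z (n 0 z (n 0 z z))))))) (n 147 (n
 0 z (n 0 z (n 0 z (n 0 z (n 0 z (n 0 z (n 0 z z))))))) (n 925 (n 0 z (n 0 z (n 0 z (n 0 z z))))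
 (n 925 (n 0 z (n 0 z (n 0 z (n 0 z z)))) (n 145 (n 0 z (n 0 z (n 0 z (n 0 z z)))) (n 145 (n 0 z
 (n 0 z (n 0 z (n 2 z z)))) z)))))))))) (n 0 (n 0 z (n 0 z (n 391 (n 0 z (n 0 z (n 0 z (n 0 z (n
 0 z (n 0 z z)))))) (n 55 (n 0 z (n 0 z (n 0 z (n 0 z (n 0 z (n 2 (n 0 z (n 2 (n 0 z (n 0 z (n 0
 z (n 0 z (n 0 z (n 0 z z)))))) (n 2 (n 0 z (n 0 z (n 0 z (n 0 z (n 0 z (n 0 z z)))))) (n 2 (n 0
 z (n 0 z (n 0 z (n 0 z (n 0 z (n 0 z z)))))) (n 1 z z))))) z)))))) (n 55 (n 0 z (n 0 z (n 0 z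
 (n 0 z (n 0 z (n 0 z z)))))) (n 51 (n 0 z (n 0 z (n 0 z (n 0 z (n 0 z (n 0 z (n 0 z z))))))) (n
 51 (n 0 z (n 0 z (n 0 z (n 0 z (n 0 z (n 0 z (n 0 z z))))))) (n 53 (n 0 z (n 0 z (n 0 z (n 0 z
 (n 0 z (n 0 z (n 0 z z))))))) (n 53 (n 0 z (n 0 z (n 0 z (n 0 z (n 2 z (n 0 z (n 0 z z)))))))
 z))))))))) (n 0 (n 0 z (n 411 (n 0 z (n 0 z (n 0 z (n 0 z (n 0 z (n 0 z (n 2 (n 1 z (n 2 (n 0
 (n 8864339 z z) (n 0 (n 8864339 z z) (n 0 (n 8864339 z (n 8864339 z z)) (n 0 z (n 0 z (n 0 z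
 z)))))) (n 2 (n 0 z (n 0 z (n 0 z (n 0 z (n 0 z (n 0 z z)))))) (n 2 (n 0 z (n 0 z (n 0 z (n 0 z
 (n 0 z (n 0 z z)))))) (n 2 (n 0 z (n 0 z (n 0 z (n 0 z (n 0 z (n 0 z z)))))) (n 1 z z))))))
 z))))))) (n 393 (n 2 (n 0 z (n 2 (n 0 z (n 0 z (n 0 z (n 0 z (n 0 z (n 0 z z)))))) (n 2 (n 0 z
 (n 0 z (n 0 z (n 0 z (n 0 z (n 0 z z)))))) (n 2 (n 0 z (n 0 z (n 0 (n 1556 z z) (n 0 z (n 0 z
 (n 0 z z)))))) (n 1 z z))))) (n 0 z (n 0 z (n 0 z (n 0 z (n 0 z (n 0 z (n 0 z (n 0 z (n 0 z (n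
 0 z (n 0 z (n 0 z z))))))))))))) (n 393 (n 0 z (n 0 z (n 0 z (n 0 z (n 0 z (n 0 z (n 0 z (n 0 z
 (n 0 z (n 0 z (n 0 z (n 2 (n 2 (n 0 z (n 0 z (n 0 z (n 0 z (n 0 z (n 0 z z)))))) (n 2 (n 0 z (n
 0 z (n 0 z (n 0 z (n 0 z (n 0 z z)))))) (n 2 (n 0 (n 2164859 z z) (n 0 (n 2164859 z z) (n 0 (n
 8804171 z (n 2164859 z z)) (n 0 z (n 0 z (n 0 z z)))))) (n 1 z z)))) (n 0 z z))))))))))))) (n
 925 (n 0 z (n 0 z (n 0 z (n 0 z (n 0 z (n 0 z (n 0 z z))))))) (n 925 (n 0 z (n 0 z (n 0 z (n 2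
 (n 2 (n 0 z (n 0 z (n 0 z (n 0 z (n 0 z (n 0 z z)))))) (n 2 (n 0 z (n 0 z (n 0 z (n 0 z (n 0 z
 (n 0 z z)))))) z)) (n 0 z (n 0 z (n 0 z z))))))) (n 389 (n 0 z (n 0 z (n 0 z (n 0 z (n 0 z (n 0
 z (n 2 (n 0 z z) (n 0 z (n 0 z (n 0 z z)))))))))) (n 389 (n 2 z (n 0 z (n 0 z (n 0 z (n 0 z (n
 0 z (n 0 z (n 0 z (n 0 z (n 0 z z)))))))))) z)))))))) (n 0 (n 807 (n 0 z (n 0 z (n 0 z z))) (n
 55 (n 0 z (n 0 z (n 0 z (n 0 z (n 2 (n 0 z (n 2 (n 0 z (n 0 z (n 0 z (n 0 z (n 0 z (n 0 z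
 z)))))) (n 2 (n 0 (n 3220 z z) (n 0 (n 8732771 z z) (n 0 (n 8523891 z (n 8525579 z z)) (n 0 z
 (n 0 z (n 0 z z)))))) (n 2 (n 0 z (n 0 z (n 0 (n 8652587 z (n 1364 z z)) (n 0 (n 1364 z z) (n 0
 z (n 0 (n 1364 z z) z)))))) (n 1 z z))))) z))))) (n 55 (n 0 z (n 0 z (n 0 z (n 0 z (n 0 z
 z))))) (n 805 (n 0 z (n 0 z (n 0 z (n 0 z (n 0 z (n 0 z z)))))) (n 805 (n 0 z (n 0 z (n 0 z (n
 0 z (n 7684195 z (n 0 z z)))))) (n 341 (n 0 z (n 0 z (n 0 z (n 0 z (n 0 z (n 7684195 z (n 0 z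
 (n 0 z (n 0 z (n 0 z z)))))))))) (n 341 (n 0 z (n 2 z (n 0 z (n 0 z (n 0 z (n 0 z (n 0 z (n 0 z
 (n 0 z (n 0 z z)))))))))) z))))))) (n 0 (n 7 (n 0 z (n 0 z (n 0 z (n 0 z (n 0 z (n 0 z (n 0 z
 (n 2 (n 0 z (n 2 (n 0 (n 3700 z z) (n 0 z (n 0 (n 8523891 z (n 3700 z z)) (n 0 z (n 0 z (n 0 (n
 3700 z z) z)))))) (n 2 (n 0 z (n 0 z (n 0 z (n 0 z (n 0 z (n 0 z z)))))) (n 2 (n 0 z (n 0 z (n
 0 z (n 0 z (n 0 z (n 0 z z)))))) (n 1 z z))))) (n 0 z z))))))))) (n 7 (n 0 z (n 0 z (n 0 z (n 0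
 z (n 0 z (n 0 z (n 0 z (n 0 z (n 0 z z))))))))) (n 925 (n 0 z (n 0 z (n 0 z (n 0 z z)))) (n 925
 (n 0 z (n 0 z (n 0 z (n 0 z z)))) (n 1 (n 0 z (n 0 z (n 0 z (n 0 z (n 0 z (n 0 z (n 0 z (n 0 z
 (n 0 z (n 0 z (n 0 z (n 0 z (n 0 z z))))))))))))) (n 1 (n 0 z (n 0 z (n 0 z (n 0 z (n 0 z (n 0
 z (n 0 z (n 0 z (n 0 z (n 0 z (n 2 z (n 0 z (n 0 z z))))))))))))) z)))))) (n 0 (n 0 z (n 723 (n
 0 z (n 0 z (n 0 z (n 0 z (n 2 (n 0 z (n 2 (n 0 z (n 0 z (n 0 z (n 0 z (n 0 z (n 0 z z)))))) (n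
 1 z z))) (n 0 z (n 0 z z))))))) (n 723 (n 0 z (n 0 z (n 0 z (n 0 z (n 0 z (n 2 (n 2 (n 0 z (n 0
 z (n 0 z (n 0 z (n 0 z (n 0 z z)))))) (n 1 z z)) (n 0 z z))))))) (n 97 (n 2 (n 0 z z) (n 0 z (n
 0 z (n 0 z (n 0 z (n 0 z (n 0 z (n 0 z (n 0 z (n 0 z z)))))))))) (n 97 (n 0 z (n 0 z (n 0 z (n
 0 z (n 0 z (n 0 z (n 0 z (n 0 z (n 0 z (n 0 z z)))))))))) z))))) (n 0 (n 3 (n 0 z (n 0 z (n 0 z
 (n 0 z (n 0 z (n 0 z z)))))) (n 3 (n 0 z (n 0 z (n 0 z (n 0 z (n 0 z (n 0 z z)))))) (n 1 (n 0 z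
 (n 0 z (n 0 z (n 0 z (n 0 z (n 0 z (n 0 z (n 0 z (n 0 z (n 0 z (n 0 z (n 0 z (n 0 z (n 0 z
 z)))))))))))))) (n 1 (n 0 z (n 0 z (n 0 z (n 0 z (n 0 z (n 0 z (n 0 z (n 0 z (n 0 z (n 0 z (n 0
 z (n 2 z (n 0 z (n 0 z z)))))))))))))) z)))) (n 0 (n 0 z (n 1 (n 0 z (n 0 z (n 0 z (n 0 z (n 0
 z (n 0 z z)))))) (n 1 (n 0 z (n 0 z (n 0 z (n 2 z (n 0 z (n 0 z z)))))) z))) (n 0 (n 5 (n 0 z
 (n 0 z (n 0 z (n 0 z (n 0 z (n 0 z z)))))) (n 5 (n 0 z (n 0 z (n 0 z (n 0 z (n 0 z (n 2 z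
 z)))))) z)) (n 0 (n 0 z z) (n 0 z z)))))))))))) (n 0 (n 1 (n 3282443 z (n 3282443 z (n 3282443
 z (n 3282443 z (n 3282443 z (n 3282443 z z)))))) (n 1 (n 3692 z (n 3692 z (n 3692 z (n 3692 z
 (n 3692 z (n 3692 z z)))))) (n 1 (n 3692 z (n 2 z (n 3708 z (n 3692 z (n 3692 z (n 3692 z
 z)))))) z))) (n 0 (n 0xa3524db3024b30aa11b35240 (n 0 (n 0 (n 7750227 z (n 7750227 z (n 7750227
 z (n 7750227 z (n 7750227 z (n 7750227 z z)))))) z) (n 0 (n 467 (n 1 (n 3282699 z (n 3282699 z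
 (n 3282699 z (n 3282699 z (n 3282699 z (n 3282699 z z)))))) (n 1 (n 3964 z (n 6428427 z (n 3964
 z (n 3964 z (n 2 z (n 3964 z z)))))) (n 1 (n 7750227 z (n 7750227 z (n 7750227 z (n 7750227 z
 (n 7750227 z (n 7750227 z z)))))) z))) (n 195 (n 0 z (n 1 (n 4392731 z (n 3278619 z (n 4392731
 z (n 4392731 z (n 4392731 z (n 7684899 z z)))))) (n 0 z (n 0 z (n 1 (n 4156 z (n 4156 z (n 4156
 z (n 7607595 z (n 10 z (n 7684899 z z)))))) (n 1 (n 7750227 z (n 7750227 z (n 7750227 z (n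
 7750227 z (n 7750227 z (n 7684899 z z)))))) z)))))) (n 462 (n 1 (n 7680531 z (n 7680531 z (n
 7680531 z (n 7680531 z (n 7680531 z (n 7680531 z z)))))) (n 1 (n 7750227 z (n 7750227 z (n
 7750227 z (n 7750227 z (n 7750227 z (n 7750227 z z)))))) (n 0 z (n 1 (n 7680531 z (n 7680531 z
 (n 7680531 z (n 7680531 z (n 7680531 z (n 7680531 z z)))))) z)))) (n 33 (n 1 (n 7684899 z (n
 7680531 z (n 7684899 z (n 7684899 z (n 7684899 z (n 7684899 z z)))))) (n 1 (n 3532 z (n 7680531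
 z (n 2164587 z (n 3532 z (n 3532 z (n 3532 z z)))))) (n 1 (n 4327195 z (n 7680531 z (n 4327195
 z (n 4327195 z (n 4327195 z (n 4327195 z z)))))) (n 1 (n 3532 z (n 7680531 z (n 3532 z (n 3532
 z (n 3532 z (n 3532 z z)))))) (n 1 (n 3532 z (n 7680531 z (n 4261739 z (n 3532 z (n 3532 z (n
 3532 z z)))))) (n 1 (n 18 z (n 7680531 z (n 3532 z (n 3532 z (n 3532 z (n 3532 z z))))))
 z)))))) (n 467 (n 1 (n 3282699 z (n 3282699 z (n 3282699 z (n 3282699 z (n 3282699 z (n 3282699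
 z z)))))) (n 1 (n 316 z (n 316 z (n 316 z (n 316 z (n 316 z (n 316 z z)))))) (n 0 z (n 1 (n
 7684899 z (n 7684899 z (n 7684899 z (n 7684899 z (n 7684899 z (n 7684899 z z)))))) z)))) (n 705
 (n 1 (n 7680531 z (n 7680531 z (n 7680531 z (n 7680531 z (n 7680531 z (n 7680531 z z)))))) (n 1
 (n 7680531 z (n 7680531 z (n 7680531 z (n 7680531 z (n 7680531 z (n 7680531 z z)))))) (n 1 (n
 3282699 z (n 3282699 z (n 3282699 z (n 3282699 z (n 3282699 z (n 3282699 z z)))))) (n 1 (n 26 z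
 (n 380 z (n 380 z (n 380 z (n 380 z (n 380 z z)))))) z)))) (n 467 (n 1 (n 3282699 z (n 3282699
 z (n 3282699 z (n 3282699 z (n 3282699 z (n 3282699 z z)))))) (n 1 (n 3692 z (n 3692 z (n 3692
 z (n 3692 z (n 3692 z (n 3692 z z)))))) (n 1 (n 7750227 z (n 7750227 z (n 7750227 z (n 7750227
 z (n 7750227 z (n 7750227 z z)))))) z))) z))))))) (n 0 (n 0 (n 0 z (n 0 z (n 0 z (n 0 z z))))
 (n 0 (n 0 z (n 0 z (n 0 z z))) (n 0 (n 0 z (n 0 z z)) (n 0 (n 0 z z) z)))) (n 0 (n 519 (n 0 (n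
 0 z (n 0 z (n 0 z (n 0 z z)))) (n 0 (n 0 z (n 0 z (n 0 z (n 0 z z)))) (n 0 (n 0 z (n 0 z (n 0 z
 (n 0 z z)))) (n 0 (n 0 z (n 0 (n
 0x765854201830a8ea840781f8608208208208208208208208208208208208208208208208208208208208208208208201001
 z (n 0x1587381f82082081f7e08608207e086186086081f82185f7df81f81e82182179f7e07e28208207e10041 z
 z)) (n 0 (n
 0x42a329901c0843843203810a8a864038208207df86086082182082182181f7e082081f7df81f8208a18608208207e07e18208208201801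
 z (n
 0x30a8ea840786086082082082182082082082182081f8608208208208208208208208208208208208208200801 z
 z)) (n 0 (n
 0x42a329901c0843843203810a8a864038208207df86086082182082182181f7e082081f7df81f8208a18608208207e07e18208208201801
 z (n
 0x2ea90864038208608208208208208208208208208208208208208208208208208208208208208208208200801 z
 z)) z)))) (n 0 (n 0 z (n 0 z (n 0 z (n 0 z z)))) (n 0 (n 0 z (n 0 z (n 0 z (n 0 (n 8652587 z (n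
 0x2ea908640381f8608208208218208207e08208208208208208208208208208208208208208208208208200801 z
 z)) z)))) (n 0 (n 0 z (n 0 (n
 0x1583281f82082081f7e08608207e086186086081f82185f7df81f81e82182179f7e07e28208207e10041 z z) (n
 0 z (n 0 z z)))) (n 0 (n 0 z (n 0 z (n 0 z (n 0 z z)))) (n 0 (n 0 z (n 0 z (n 0 z (n 0 z z))))
 (n 0 (n 0 z (n 0 (n 8656171 z (n 7751691 z z)) (n 0 (n 8656171 z (n 8656171 z z)) (n 0 z z))))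
 (n 0 (n 0 z (n 0 z (n 0 z (n 0 z z)))) (n 0 (n 0 z (n 0 (n 8520763 z z) (n 0 z (n 0 z z)))) (n
 0 (n 0 z (n 0 z (n 0 z (n 0 z z)))) (n 0 (n 0 z (n 0 z (n 0 z (n 0 z z)))) (n 0 (n 0 z (n 0 z
 (n 0 z (n 0 z z)))) (n 0 (n 0 z (n 0 z (n 0 z (n 0 z z)))) (n 0 (n 0 z (n 0 z (n 0 z (n 0 z
 z)))) (n 0 (n 0 z (n 0 z (n 0 z (n 0 z z)))) (n 0 (n 0 z (n 0 (n 6633595 z z) (n 0 z (n 0 z
 z)))) (n 0 (n 0 z (n 0 z (n 0 z (n 0 z z)))) (n 0 (n 0 z (n 0 (n 8520763 z (n 8520763 z z)) (n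
 0 z (n 0 z z)))) (n 0 (n 0 z (n 0 (n
 0x30a90a840381f81f79f8218a082182082082181f7e08207df7df7de86086082181f8217df7e181f7e081f0801 z
 z) (n 0 z (n 0 z z)))) (n 0 (n 0 z (n 0 (n 8652651 z (n
 0x765854201830a8ea840781f8608208208208208208208208207e182081f8208208208208208208208208218208208201001
 z z)) (n 0 (n
 0x1854754203810a8a864078208208208208218208208208208208208208208208208208208208208208208208208208201001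
 z (n
 0x30a8ea840786086082082082182082082082082081f8608208208208208208208208208208208208208200801 z
 z)) (n 0 z z)))) (n 0 (n 0 z (n 0 z (n 0 z (n 0 z z)))) (n 0 (n 0 (n
 0x2d8768618218218208207e17de8207a08607df7dd81e85f75e89c7df81f7de7a281e7a081e81e81f0041 z (n
 0x358647e089f7df8228627a17df8a08207e186081d8608e079f85d86081f85f82289f7a48a189e81f0041 z z)) (n
 0 (n 8652651 z (n
 0x358647e089f7df8228627a17df8a08207e186081d8608e079f85d86081f85f82289f7a48a189e81f0041 z z)) (n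
 0 (n 0x358647e089f7df8228627a17df8a08207e186081d8608e079f85d86081f85f82289f7a48a189e81f0041 z
 (n 0x358647e089f7df8228627a17df8a08207e186081d8608e079f85d86081f85f82289f7a48a189e81f0041 z z))
 (n 0 (n 0x358647e089f7df8228627a17df8a08207e186081d8608e079f85d86081f85f82289f7a48a189e81f0041
 z (n 0x358647e089f7df8228627a17df8a08207e186081d8608e079f85d86081f85f82289f7a48a189e81f0041 z
 z)) z)))) (n 0 (n 0 z (n 0 z (n 0 z (n 0 z z)))) (n 0 (n 0 z (n 0 z (n 0 z (n 0 z z)))) (n 0 (n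
 0 z (n 0 z (n 0 z (n 0 z z)))) (n 0 (n 0 z (n 0 z (n 0 z (n 0 z z)))) (n 0 (n 0 z (n 0 z (n 0
 (n 4401163 z z) (n 0 z z)))) (n 0 (n 0 z (n 0 z (n 0 z (n 0 z z))))
 z))))))))))))))))))))))))))))))) (n 467 (n 0 (n 0 z (n 0 z (n 0 z (n 0 z z)))) (n 0 (n 0 z (n 0
 z (n 0 z (n 0 z z)))) (n 0 (n 0 z (n 0 z (n 0 z (n 0 z z)))) (n 0 (n 0 z (n 0 (n
 0x30a4ea28078208208208208207e082082082086082082085f8207e082085f82081f8207e08208208208200801 z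
 (n 0x1587381f82082081f7e08608207e086186086081f82185f7df81f81e82182179f7e07e28208207e10041 z z))
 (n 0 (n
 0x30c4e82a038208208208208208208208208218208208208608207e082082082182082082082082082081f0801 z
 (n 0x30eb0ea8078208608207df7e081e8607e086186189f81f8208607e081f81f82185f8217e08208208208210801
 z z)) (n 0 (n
 0x3064ea280382082082082082082082082082082081f8208608207e08208208208208208208208208608200801 z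
 (n 0x2ea908460382082082082082081f82082082182186082082082081f82082082082082082081f81f8208200801
 z z)) z)))) (n 0 (n 0 z (n 0 z (n 0 z (n 0 z z)))) (n 0 (n 0 z (n 0 z (n 0 z (n 0 z z)))) (n 0
 (n 0 z (n 0 z (n 0 z (n 0 z z)))) (n 0 (n 0 z (n 0 z (n 0 z (n 0 z z)))) z)))))))) (n 315 (n 0
 (n 0 z (n 0 z (n 0 z (n 0 z z)))) (n 0 (n 0 z (n 0 z (n 0 z (n 0 z z)))) (n 0 (n 0 z (n 0 z (n
 0 (n
 0x1753852403810a4ea080381f81f7df8208608218208608208207e082081f8208208208608208208218207e18208208201001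
 z z) (n 0 (n
 0x60c9d410060429298201c076584230180ea90846078208207e082082082182082082181f7e08208208208208208608208208208207e18208208202001
 z z) z)))) (n 0 (n 0 z (n 0 z (n 0 z (n 0 (n 8525579 z (n
 0x3084e8060781f81f7e08608607e082082082081f7df82082082082081f8608208208208208208208208200801 z
 z)) z)))) (n 0 (n 0 z (n 0 z (n 0 z (n 0 z z)))) (n 0 (n 0 z (n 0 z (n 0 z (n 0 z z)))) z))))))
 (n 441 (n 0 (n 0 z (n 0 z (n 0 z (n 0 z z)))) (n 0 (n 0 z (n 0 z (n 0 z (n 0 z z)))) (n 0 (n 0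
 z (n 0 z (n 0 z (n 0 z z)))) (n 0 (n 0 z (n 0 z (n 0 z (n 0 z z)))) (n 0 (n 0 z (n 0 z (n 0 z
 (n 0 z z)))) (n 0 (n 0 z (n 0 z (n 0 z (n 0 z z)))) (n 0 (n 0 z (n 0 z (n 0 z (n 0 z z))))
 z))))))) (n 33 (n 0 (n 0 z (n 0 z (n 0 z (n 0 z z)))) (n 0 (n 0 z (n 0 z (n 0 z (n 0 z z)))) (n
 0 (n 0 z (n 0 z (n 0 z (n 0 z z)))) (n 0 (n 0 z (n 0 z (n 0 z (n 0 z z)))) (n 0 (n 0 z (n 0 z
 (n 0 z (n 0 z z)))) (n 0 (n 0 z (n 0 z (n 0 z (n 0 z z)))) z)))))) (n 9 (n 0 (n 0 z (n 0 z (n 0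
 z (n 0 z z)))) (n 0 (n 0 z (n 0 z (n 0 z (n 0 z z)))) (n 0 (n 0 z (n 0 z (n 0 z (n 0 z z)))) (n
 0 (n 0 z (n 0 z (n 0 z (n 0 z z)))) (n 0 (n 0 z (n 0 z (n 0 z (n 0 z z)))) (n 0 (n 0 z (n 0 z
 (n 0 z (n 0 z z)))) (n 0 (n 0 z (n 0 z (n 0 z (n 0 z z)))) (n 0 (n 0 z (n 0 z (n 0 z (n 0 z
 z)))) (n 0 (n 0 z (n 0 z (n 0 z (n 0 z z)))) z))))))))) (n 467 (n 0 (n 0 z (n 0 z (n 0 z (n 0 z
 z)))) (n 0 (n 0 z (n 0 z (n 0 z (n 0 z z)))) (n 0 (n 0 z (n 0 z (n 0 z (n 0 z z)))) (n 0 (n 0 z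
 (n 0 z (n 0 z (n 0 z z)))) z)))) (n 39 (n 0 (n 0 z (n 0 z (n 0 z (n 0 z z)))) (n 0 (n 0 z (n 0
 z (n 0 z (n 0 z z)))) (n 0 (n 0 z (n 0 z (n 0 (n 8855811 z z) (n 0 (n 8855811 z z) z)))) (n 0
 (n 0 z (n 0 z (n 0 z (n 0 z z)))) (n 0 (n 0 z (n 0 z (n 0 z (n 0 z z)))) (n 0 (n 0 z (n 0 z (n
 0 z (n 0 z z)))) (n 0 (n 0 z (n 0 z (n 0 z (n 0 z z)))) z))))))) (n 463 (n 0 (n 0 z (n 0 z (n 0
 z (n 0 z z)))) (n 0 (n 0 z (n 0 z (n 0 z (n 0 z z)))) (n 0 (n 0 z (n 0 z (n 0 z (n 0 (n 8525579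
 z (n
 0x176584230381084ec060781f81f8218207e081f82082082086081f8208208608208208208208208208208208208208201001
 z z)) z)))) (n 0 (n 0 z (n 0 z (n 0 z (n 0 z z)))) z)))) (n 3 (n 0 (n 0 z (n 0 z (n 0 z (n 0 z
 z)))) (n 0 (n 0 z (n 0 z (n 0 z (n 0 z z)))) (n 0 (n 0 z (n 0 z (n 0 z (n 0 z z)))) (n 0 (n 0 z
 (n 0 z (n 0 z (n 0 z z)))) (n 0 (n 0 z (n 0 z (n 0 z (n 0 z z)))) (n 0 (n 0 z (n 0 z (n 0 z (n
 0 z z)))) z)))))) (n 705 (n 0 (n 0 z (n 0 z (n 0 z (n 0 z z)))) (n 0 (n 0 z (n 0 z (n 0 z (n 0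
 z z)))) (n 0 (n 0 z (n 0 z (n 0 z (n 0 z z)))) (n 0 (n 0 z (n 0 z (n 0 z (n 0 z z)))) z)))) (n
 47 (n 0 (n 0 z (n 0 z (n 0 z (n 0 z z)))) (n 0 (n 0 z (n 0 z (n 0 z (n 0 z z)))) (n 0 (n 0 z (n
 0 z (n 0 z (n 0 z z)))) (n 0 (n 0 z (n 0 z (n 0 z (n 0 z z)))) (n 0 (n 0 z (n 0 z (n 0 z (n 0 z
 z)))) (n 0 (n 0 z (n 0 z (n 0 z (n 0 z z)))) (n 0 (n 0 z (n 0 z (n 0 z (n 0 z z)))) z))))))) (n
 21 (n 0 (n 0 z (n 0 z (n 0 z (n 0 z z)))) (n 0 (n 0 z (n 0 z (n 0 z (n 0 z z)))) (n 0 (n 0 z (n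
 0 z (n 0 z (n 0 z z)))) (n 0 (n 0 z (n 0 z (n 0 z (n 0 z z)))) (n 0 (n 0 (n
 0x8586402438a0e1c5050e28187192385f79f75c8a8562699a5e79e7df8607588e1bd979da1682689981c81f9596668de91879d0141
 z z) (n 0 z (n 0 z (n 0 z z)))) (n 0 (n 0 z (n 0 z (n 0 z (n 0 (n 8525579 z (n
 0x3084e8060781f81f7e08608607e082082082081f7df82082082082081f8608208208208208208208208200801 z
 z)) z)))) (n 0 (n 0 z (n 0 z (n 0 z (n 0 z z)))) (n 0 (n 0 z (n 0 z (n 0 z (n 0 (n 8855811 z z)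
 z)))) (n 0 (n 0 z (n 0 z (n 0 z (n 0 z z)))) (n 0 (n 0 z (n 0 z (n 0 z (n 0 z z)))) (n 0 (n 0 z
 (n 0 z (n 0 z (n 0 z z)))) (n 0 (n 0 z (n 0 z (n 0 z (n 0 z z)))) (n 0 (n 0 z (n 0 z (n 0 z (n
 0 (n 8868419 z z) z)))) z))))))))))))) (n 5 (n 0 (n 0 z (n 0 z (n 0 z (n 0 z z)))) (n 0 (n 0 z
 (n 0 z (n 0 (n 8733475 z z) (n 0 z z)))) (n 0 (n 0 z (n 0 z (n 0 z (n 0 z z)))) (n 0 (n 0 z (n
 0 z (n 0 z (n 0 z z)))) (n 0 (n 0 z (n 0 z (n 0 z (n 0 z z)))) (n 0 (n 0 z (n 0 z (n 0 z (n 0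
 (n 8525579 z z) z)))) (n 0 (n 0 z (n 0 z (n 0 z (n 0 (n 8652587 z (n
 0xd87181f82082082082082082082082182082082082081f7df8208608208208207e07e18208208200041 z z))
 z)))) (n 0 (n 0 z (n 0 z (n 0 z (n 0 z z)))) (n 0 (n 0 z (n 0 z (n 0 z (n 0 z z)))) (n 0 (n 0 z
 (n 0 z (n 0 z (n 0 z z)))) (n 0 (n 0 z (n 0 z (n 0 z (n 0 z z)))) (n 0 (n 0 z (n 0 z (n 0 z (n
 0 z z)))) (n 0 (n 0 z (n 0 z (n 0 z (n 0 z z)))) (n 0 (n 0 z (n 0 z (n 0 z (n 0 z z))))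
 z)))))))))))))) (n 4 (n 0 (n 0 z (n 0 z (n 0 z (n 0 z z)))) (n 0 (n 0 z (n 0 z (n 0 z (n 0 z
 z)))) (n 0 (n 0 z (n 0 z (n 0 z (n 0 z z)))) (n 0 (n 0 z (n 0 z (n 0 z (n 0 z z)))) (n 0 (n 0 z
 (n 0 z (n 0 z (n 0 z z)))) (n 0 (n 0 z (n 0 z (n 0 z (n 0 z z)))) z)))))) (n 467 (n 0 (n 0 z (n
 0 z (n 0 z (n 0 z z)))) (n 0 (n 0 z (n 0 z (n 0 z (n 0 z z)))) (n 0 (n 0 z (n 0 z (n 0 (n
 8798803 z z) (n 0 (n 8798803 z z) z)))) z))) (n 461 (n 0 (n 0 z (n 0 z (n 0 z (n 0 z z)))) (n 0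
 (n 0 z (n 0 (n 3278875 z (n 3278875 z z)) (n 0 (n 8855811 z (n 8855811 z z)) (n 0 (n 8855811 z
 (n 8855811 z z)) z)))) (n 0 (n 0 z (n 0 (n 3278875 z z) (n 0 z (n 0 z z)))) (n 0 (n 0 z (n 0 z
 (n 0 z (n 0 z z)))) (n 0 (n 0 z (n 0 z (n 0 z (n 0 (n 8855811 z (n 8855811 z z)) z)))) (n 0 (n
 0 z (n 0 z (n 0 z (n 0 (n 8855811 z (n 8855811 z z)) z)))) (n 0 (n 0 z (n 0 (n
 0x1852850401810a8a804078208608208208208218208607e08207e08617e082086082182081f7e08207e082181f7e08201001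
 z (n
 0x30a8ea840781f8608208208208208208208208208208208208208208208208208208208208208208208200801 z
 z)) (n 0 z (n 0 z z)))) (n 0 (n 0 z (n 0 z (n 0 z (n 0 z z)))) (n 0 (n 0 z (n 0 z (n 0 z (n 0 z
 z)))) (n 0 (n 0 z (n 0 (n
 0x30a8ea84078208608208208208208208208208208208208208208208208208208208208208208208208200801 z
 (n 0x1587381f82082081f7e08608207e086186086081f82185f7df81f81e82182179f7e07e28208207e10041 z z))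
 (n 0 (n 8525579 z (n
 0x1587081f82082081f7e08608207e086186086081f82185f7df81f81e82182179f7e07e28208207e10041 z z)) (n
 0 (n 8525579 z (n
 0x1587081f82082081f7e08608207e086186086081f82185f7df81f81e82182179f7e07e28208207e10041 z z))
 z)))) (n 0 (n 0 z (n 0 (n 8864523 z z) (n 0 z (n 0 z z)))) (n 0 (n 0 z (n 0 (n 8656171 z (n
 8656171 z z)) (n 0 (n 8855811 z (n 8855811 z z)) (n 0 z z)))) (n 0 (n 0 z (n 0 (n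
 0xc2a3a9901c0854743201810a8a8040781f8608208208218207e08208208207e18617e082082082082081f8208218208218208208201801
 z z) (n 0 z (n 0 z z)))) (n 0 (n 0 z (n 0 z (n 0 z (n 0 z z)))) (n 0 (n 0 z (n 0 z (n 0 z (n 0
 z z)))) (n 0 (n 0 z (n 0 z (n 0 z (n 0 z z)))) (n 0 (n 0 z (n 0 (n
 0xd87481f82082082082082082082082182082082082081f7df8208608208208207e07e18208208200041 z (n
 0x30a8ea840782086082082082081f82082082082081f8208208208208208208208208208208208208208200801 z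
 z)) (n 0 (n 8868419 z (n 8868419 z z)) (n 0 (n 8868419 z (n 8868419 z z)) z)))) (n 0 (n 0 z (n
 0 z (n 0 z (n 0 z z)))) (n 0 (n 0 z (n 0 z (n 0 (n 8868419 z (n 8868419 z z)) (n 0 z z)))) (n 0
 (n 0 z (n 0 z (n 0 z (n 0 z z)))) (n 0 (n 0 z (n 0 z (n 0 z (n 0 z z)))) (n 0 (n 0 z (n 0 z (n
 0 (n 8798803 z z) (n 0 (n 8798803 z z) z)))) (n 0 (n 0 z (n 0 (n 8656171 z z) (n 0 z (n 0 z
 z)))) (n 0 (n 0 z (n 0 z (n 0 z (n 0 z z)))) (n 0 (n 0 z (n 0 z (n 0 z (n 0 z z)))) (n 0 (n 0 z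
 (n 0 z (n 0 z (n 0 z z)))) (n 0 (n 0 z (n 0 z (n 0 z (n 0 z z)))) (n 0 (n 0 z (n 0 z (n 0 (n
 0x185454320382ca8a824038218208207e08208208208208208208208208208208208208608208208208208208208208201001
 z (n
 0x10a8ea84078208608208208208208208208208208208608208208208208208208208208208208208208200801 z
 z)) (n 0 (n 8652587 z (n
 0x2ea908640381f8608208208208208207e08208208208208208208208208208208208208208208208208200801 z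
 z)) z)))) (n 0 (n 0 z (n 0 z (n 0 z (n 0 z z)))) (n 0 (n 0 z (n 0 z (n 0 z (n 0 z z)))) (n 0 (n
 0 z (n 0 z (n 0 z (n 0 (n 8652587 z (n
 0x2ea908640381f8608208208218208207e08208208208208208208208208208208208208208208208208200801 z
 z)) z)))) (n 0 (n 0 z (n 0 z (n 0 z (n 0 z z)))) z)))))))))))))))))))))))))))))))) (n 463 (n 0
 (n 0 z (n 0 z (n 0 z (n 0 z z)))) (n 0 (n 0 z (n 0 z (n 0 z (n 0 (n 8798803 z z) z)))) (n 0 (n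
 0 z (n 0 z (n 0 z (n 0 z z)))) (n 0 (n 0 z (n 0 z (n 0 z (n 0 z z)))) (n 0 (n 0 z (n 0 z (n 0 z
 (n 0 (n 8525579 z (n
 0x8585302438a0e1c5050e28187192385f79f75c8a8562699a5e79e7df8607588e1bd979da1682689981c81f9596668de91879d0141
 z z)) z)))) (n 0 (n 0 z (n 0 z (n 0 z (n 0 z z)))) (n 0 (n 0 z (n 0 (n 8798803 z z) (n 0 z (n 0
 z z)))) (n 0 (n 0 z (n 0 z (n 0 z (n 0 z z)))) z)))))))) (n 3 (n 0 (n 0 z (n 0 z (n 0 z (n 0 z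
 z)))) (n 0 (n 0 (n 8868419 z z) (n 0 z (n 0 z (n 0 z z)))) (n 0 (n 0 z (n 0 z (n 0 z (n 0 z
 z)))) (n 0 (n 0 z (n 0 z (n 0 z (n 0 z z)))) (n 0 (n 0 z (n 0 z (n 0 z (n 0 z z)))) (n 0 (n 0 z
 (n 0 z (n 0 (n 8798803 z z) (n 0 z z)))) z)))))) (n 1 (n 0 (n 0 (n
 0x358107e089f7df8228627a17df8a08207e186081d8608e079f85d86081f85f82289f7a48a189e81f0041 z z) (n
 0 (n 0x358107e089f7df8228627a17df8a08207e186081d8608e079f85d86081f85f82289f7a48a189e81f0041 z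
 z) (n 0 z (n 0 z z)))) (n 0 (n 0 (n
 0x2d8728618218218208207e17de8207a08607df7dd81e85f75e89c7df81f7de7a281e7a081e81e81f0041 z (n
 0x30eb0ea40782086082081e8208208208208208208208208208208208208208208218208208608208208200801 z
 z)) (n 0 z (n 0 (n 8523891 z (n 7544963 z z)) (n 0 (n
 0x86275030381084ea0607019515048060c2a298901c0865530201810a8a604078208608208208208208207e08618208208208208607df82081f82082081f8208208208207e03001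
 z (n
 0x30e70e600379f8208208208618208207e18207a08607e07df8207a081f8208207df7a179f8218208208200801 z
 z)) z)))) (n 0 (n 0 z (n 0 z (n 0 z (n 0 z z)))) (n 0 (n 0 z (n 0 z (n 0 z (n 0 z z)))) (n 0 (n
 0 z (n 0 z (n 0 z (n 0 z z)))) (n 0 (n 0 z (n 0 z (n 0 z (n 0 (n 8855811 z z) z)))) (n 0 (n 0 z
 (n 0 z (n 0 z (n 0 z z)))) (n 0 (n 0 (n 8798803 z (n 8798803 z z)) (n 0 z (n 0 (n 8855811 z (n
 8855811 z z)) (n 0 (n 8855811 z (n 8855811 z z)) z)))) (n 0 (n 0 z (n 0 z (n 0 z (n 0 z z))))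
 z))))))))) (n 0 (n 0 (n 0 z (n 0 z (n 0 z (n 0 z z)))) (n 0 (n 0 z (n 0 z (n 0 z (n 0 z z))))
 (n 0 (n 0 z (n 0 (n
 0x30a8e8640381f8208208208208208208208208208208208208208208208207e08208208208218208208200801 z
 (n 0x1587081f81f8207df7e08208207e086182082085f8218607df81f81f8208207a081f7e08208208210041 z z))
 (n 0 z (n 0 z z)))) (n 0 (n 0 z (n 0 z (n 0 z (n 0 z z)))) (n 0 (n 0 z (n 0 z (n 0 z (n 0 z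
 z)))) z))))) z))))))))))))))))))))) z)))) z) z)))) (n
 0x2d4e51622e8aa274376cac54e46216a3a138da05a6ed0e276a10b508453ac42ed4c0 (n 0x1da9c (n 153 (n 2 z
 (n 0 z (n 6557779 z (n 6557779 z z)))) (n 33 (n 10 z (n 0 z (n 18 z (n 26 z (n 0 z (n 0 z (n
 6496515 z (n 6557779 z (n 0 z z))))))))) (n 51 (n 0 z (n 0 z (n 34 z (n 6496515 z z)))) (n 27
 (n 42 z (n 50 z (n 0 z (n 6496515 z z)))) (n 1 (n 0 z (n 58 z (n 66 z (n 0 z (n 6557779 z (n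
 6557779 z z)))))) (n 0 (n
 0x2561082592072271b9dd826820812a249238189259566d699951e66d6e089d85e9a17618279e38620041 z (n 0 z
 (n 0 z (n
 0x1361081c75d8a08617618267e352a91b7a186181f7e78a65e79a099691e91d7607dd89f91975e8e10041 z (n
 0x24ca8860203807484808080728b7e8290887d8086729c878e917b7c55927d67806e757d729a999e7668aa7c7d75956b8282768e967d847c0809
 z (n 0 z (n
 0x2b6437d96d899f9a67dd8658653b08966d16f3ad57269aa46bae2d989d9ae26a18d3a1a8145228600041 z (n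
 3278427 z (n 74 z (n 0 z (n
 0x1b62081969c9208626e286a7a43ef9d87a08a381e7ea8aa4abaa0a919dd9dc6e079c89e9d46dc8e00041 z (n
 0x2b6317d969899f9a67dd8658a43718567116f3ad56e79aa4abae2d589d9ae26a28d3a1a8145628a00041 z (n 0 z
 (n 0 z (n
 0x1b63081969c9208626e286a7a43ef9d87a08a381e7ea8aa4abaa0a919dd9dc6e079c89e9d46dc8e00041 z (n 0 z
 (n
 0xf36207f9689829d7381728d72795d8e7e8b6e70957c84856d7f758f759c6d896c7a7ca1d368607881c7527f8a99893ea88a9269800049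
 z (n 0x136208207de86181f89e86086275f8df81f7e086181f86279f8618a081e7e086085f8608608618200041 z
 (n 0 z (n 0 z (n 6627595 z (n 0 z (n 0 z (n
 0x336327d76569df9e87dc8668a62748946cd6b7b927299ec3aeba3ed6a57ba262290fa598114a38a00041 z (n 0 z
 (n 0 z (n 82 z (n 6627595 z (n 0 z (n 0 z (n 0 z (n 0 z (n 90 z (n 98 z (n 0 z (n 0 z (n
 6627595 z (n
 0x336407d76569df9e87dc8668a62748946cd6b7b927299ec3aeba3ed6a57ba262290fa598114a38a00041 z (n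
 6627595 z (n
 0x2b6327d96d895f9a77dd8258a53b18966d16f3ad572796a46bae2d999d9ae26a28d39da8545638a00041 z (n 0 z
 (n 0 z (n
 0x336407d76569df9e87dc8668a62748946cd6b7b927299ec3aeba3ed6a57ba262290fa598114a38a00041 z (n 0 z
 (n 0x336317d76569df9e87dc8668a62748946cd6b7b927299ec3aeba3ed6a57ba262290fa598114a38a00041 z (n
 0x336328073797987808f927a8381858086669a8372715f78988e6b7c8c868c6c948c84ab6d8f739980777c7a6a8f737b71678783800049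
 z (n 0 z z))))))))))))))))))))))))))))))))))))))))))))))) z)))))) (n 153 (n 0 (n 95 (n 0 z (n 0
 z (n 0 z (n 0 z (n 0 z (n 0 z (n 0 z (n 0 z z)))))))) (n 95 (n 0 z (n 0 z (n 2 (n 0 z (n 1 z (n
 1 z (n 1 z (n 1 z (n 1 z (n 1 z (n 2 (n 0 z (n 0 z (n 0 z (n 0 z (n 0 z (n 0 (n 2116 z z)
 z)))))) (n 2 (n 0 z (n 0 z (n 0 z (n 0 z (n 0 z (n 0 z z)))))) (n 2 (n 0 z (n 0 z (n 0 z (n 0 z
 (n 0 z (n 0 (n 8791099 z z) z)))))) z)))))))))) (n 0 z (n 0 z (n 0 z (n 0 z (n 0 z z)))))))) (n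
 95 (n 0 z (n 0 z (n 0 z (n 0 z (n 0 z (n 0 z (n 0 z (n 0 z z)))))))) (n 795 (n 0 z (n 0 z (n 0
 z (n 0 z (n 0 z (n 0 z (n 0 z (n 0 z (n 0 z z))))))))) (n 535 (n 0 z (n
 0xbb7648078788098747b867d7d7a798c8084a85f76857c86907e77777c978c7f969982988b7a6894868c6b7d7d8d815685767b77880049
 z (n 2 (n 0 z (n 1 z (n 1 z (n 1 z (n 1 z (n 1 z (n 1 z z))))))) (n 0 z (n 0 z (n 0 z (n 0 z (n
 0 z (n 0 z (n 0 z (n 0 z (n 0 z (n 0 z z))))))))))))) (n 535 (n 0 z (n 0 z (n 0 z (n 0 z (n 0 z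
 (n 0 z (n 0 z (n 0 z (n 0 z (n 0 z (n 0 z (n 0 z (n 0 z z))))))))))))) (n 531 (n 0 z (n 0 z (n
 0 z (n 2 (n 0 z (n 1 z (n 1 z (n 1 z (n 1 z z))))) (n 0 z (n 0 z (n 0 z (n 0 z (n 0 z
 z))))))))) (n 531 (n 0 z (n 0 z (n 0 z (n 0 z (n 0 z (n 0 z (n 0 z (n 0 z (n 0 z z))))))))) (n
 529 (n 0 z (n 0 z (n 0 z (n 0 z (n 0 z (n 0 z (n 0 z (n 0 z (n 0 z (n 0 z (n 0 z (n 0 z
 z)))))))))))) (n 529 (n 0 z (n 0 z (n 0 z (n 0 z (n 0 z (n 2 (n 0 z (n 0 z z)) (n 0 z (n 0 z (n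
 0 z (n 0 z (n 0 z (n 0 z z)))))))))))) (n 529 (n 0 z (n 0 z (n 0 z (n 0 z (n 0 z (n 0 z (n 0 z
 (n 2 (n 0 z z) (n 0 z (n 0 z (n 0 z (n 0 z z)))))))))))) (n 529 (n 0 z (n 0 z (n 0 z (n 0 z (n
 0 z (n 0 z (n 0 z (n 0 z (n 0 z (n 0 z (n 0 z (n 0 z z)))))))))))) z)))))))))))) (n 0 (n 0 z (n
 0 z (n 123 (n 0 z (n 0 z (n 0 z (n 0 z (n 2 (n 1 z (n 1 z (n 1 z (n 1 z (n 1 z (n 2 (n 0 z (n 0
 z (n 0 z (n 0 z (n 0 z (n 0 (n 8587115 z z) z)))))) (n 2 (n 0 z (n 0 z (n 0 z (n 0 z (n 0 z (n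
 0 (n 8587115 z z) z)))))) (n 1 z z)))))))) (n 0 z (n 0 z (n 0 z (n 0 z z))))))))) (n 75 (n 0 z
 (n 0 z (n 0 z (n 2 (n 0 z (n 1 z (n 1 z (n 1 z (n 2 (n 0 z (n 0 z (n 0 z (n 0 z (n 0 z (n 0 (n
 1925 z z) z)))))) (n 2 (n 0 z (n 0 z (n 0 z (n 0 z (n 0 z (n 0 (n 260 z z) z)))))) (n 2 (n 0 z
 (n 0 z (n 0 z (n 0 z (n 0 z (n 0 z z)))))) z))))))) (n 0 z (n 0 z (n 0 z (n 0 z (n 0 z (n 0 z
 (n 0 z (n 0 z z)))))))))))) (n 75 (n 0 z (n 0 z (n 0 z (n 0 z (n 0 z (n 0 z (n 0 z (n 0 z (n 0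
 z (n 0 z (n 0 z (n 0 z z)))))))))))) (n 63 (n 0 z (n 0 z (n 0 z (n 0 z (n 0 z (n 0 z (n 0 z (n
 0 z (n 0 z (n 0 z (n 0 z (n 0 z (n 0 z (n 0 z (n 0 z (n 0 z z)))))))))))))))) (n 63 (n 0 z (n 0
 z (n 0 z (n 0 z (n 0 z (n 0 z (n 0 z (n 0 z (n 0 z (n 0 z (n 0 z (n 0 z (n 0 z (n 0 z (n 0 z (n
 0 z z)))))))))))))))) (n 65 (n 0 z (n 0 z (n 0 z (n 0 z (n 0 z (n 0 z (n 0 z (n 0 z (n 0 z (n 0
 z z)))))))))) (n 65 (n 0 z (n 0 z (n 0 z (n 0 z (n 0 z (n 0 z (n 0 z (n 0 z (n 2 (n 0 z (n 0 z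
 z)) (n 0 z z)))))))))) (n 65 (n 0 z (n 0 z (n 0 z (n 0 z (n 0 z (n 2 (n 0 z z) (n 0 z (n 0 z (n
 0 z (n 0 z z)))))))))) (n 65 (n 0 z (n 2 z (n 0 z (n 0 z (n 0 z (n 0 z (n 0 z (n 0 z (n 0 z (n
 0 z z)))))))))) z))))))))))) (n 0 (n 0 z (n 123 (n 0 z (n 0 z (n 2 (n 1 z (n 1 z (n 1 z (n 1 z
 (n 1 z (n 2 (n 0 z (n 0 z (n 0 z (n 0 z (n 0 z (n 0 z z)))))) (n 2 (n 0 z (n 0 z (n 0 z (n 0 z
 (n 0 z (n 0 z z)))))) (n 2 (n 0 z (n 0 z (n 0 z (n 0 z (n 0 z (n 0 z z)))))) z)))))))) (n 0 z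
 (n 0 z (n 0 z (n 0 z (n 0 z (n 0 z (n 0 z (n 0 z z))))))))))) (n 535 (n 0 z (n 0 z (n 0 z (n 0
 z (n 0 z (n 0 z (n 0 z (n 0 z (n 0 z (n 0 z (n 0 z (n 0 z (n 0 z (n 0 z (n 0 z z)))))))))))))))
 (n 535 (n 0 z (n 0 z (n 0 z (n 0 z (n 2 (n 1 z (n 1 z (n 1 z (n 2 (n 0 z (n 0 z (n 0 z (n 0 z
 (n 0 z (n 0 z z)))))) (n 2 (n 0 z (n 0 z (n 0 z (n 0 z (n 0 z (n 0 z z)))))) (n 2 (n 0 z (n 0 z
 (n 0 z (n 0 z (n 0 z (n 0 z z)))))) z)))))) (n 0 z (n 0 z (n 0 z (n 0 z (n 0 z (n 0 z (n 0 z (n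
 0 z (n 0 z (n 0 z z))))))))))))))) (n 483 (n 0 z (n 0 z (n 0 z (n 0 z (n 0 z (n 0 z (n 0 z (n 0
 z (n 0 z (n 0 z (n 0 z z))))))))))) (n 483 (n 0 z (n 0 z (n 2 (n 1 z (n 2 (n 0 z (n 0 z (n 0 z
 (n 0 z (n 0 z (n 0 z z)))))) (n 2 (n 0 z (n 0 z (n 0 z (n 0 z (n 0 z (n 0 z z)))))) (n 2 (n 0 z
 (n 0 z (n 0 z (n 0 z (n 0 z (n 0 z z)))))) z)))) (n 0 z (n 0 z (n 0 z (n 0 z (n 0 z (n 0 z (n 0
 z (n 0 z z))))))))))) (n 481 (n 0 z (n 0 z (n 0 z (n 0 z (n 0 z (n 0 z (n 0 z (n 0 z (n 0 z (n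
 2 (n 0 z (n 0 z (n 0 z z))) (n 0 z (n 0 z (n 0 z (n 0 z (n 0 z (n 0 z (n 0 z (n 0 z (n 0 z (n 0
 z (n 0 z (n 0 z (n 0 z (n 0 z (n 0 z (n 0 z (n 0 z (n 0 z (n 0 z (n 0 z (n 0 z (n 0 z (n 0 z (n
 0 z (n 0 z (n 0 z (n 0 z (n 0 z (n 0 z (n 0 z (n 0 z (n 0 z (n 0 z (n 0 z (n 0 z (n 0 z
 z)))))))))))))))))))))))))))))))))))))))))))))) (n 481 (n 0 z (n 0 z (n 0 z (n 0 z (n 0 z (n 0
 z (n 0 z (n 0 z (n 0 z (n 0 z (n 0 z (n 0 z (n 0 z (n 0 z (n 0 z (n 0 z (n 0 z (n 0 z (n 0 z (n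
 0 z (n 0 z (n 0 z (n 0 z (n 0 z (n 0 z (n 0 z (n 0 z (n 2 (n 0 z (n 0 z z)) (n 0 z (n 0 z (n 0
 z (n 0 z (n 0 z (n 0 z (n 0 z (n 0 z (n 0 z (n 0 z (n 0 z (n 0 z (n 0 z (n 0 z (n 0 z (n 0 z (n
 0 z (n 0 z z)))))))))))))))))))))))))))))))))))))))))))))) (n 481 (n 0 z (n 0 z (n 0 z (n 0 z
 (n 0 z (n 0 z (n 0 z (n 0 z (n 0 z (n 0 z (n 0 z (n 0 z (n 0 z (n 0 z (n 0 z (n 0 z (n 0 z (n 0
 z (n 0 z (n 0 z (n 0 z (n 0 z (n 0 z (n 0 z (n 0 z (n 0 z (n 0 z (n 0 z (n 0 z (n 0 z (n 2 (n 0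
 z z) (n 0 z (n 0 z (n 0 z (n 0 z (n 0 z (n 0 z (n 0 z (n 0 z (n 0 z (n 0 z (n 0 z (n 0 z (n 0 z
 (n 0 z (n 0 z z)))))))))))))))))))))))))))))))))))))))))))))) (n 481 (n 0 z (n 0 z (n 0 z (n 0
 z (n 0 z (n 0 z (n 0 z (n 0 z (n 0 z (n 0 z (n 0 z (n 0 z (n 0 z (n 0 z (n 0 z (n 0 z (n 0 z (n
 0 z (n 0 z (n 0 z (n 0 z (n 0 z (n 0 z (n 0 z (n 0 z (n 0 z (n 0 z (n 0 z (n 0 z (n 0 z (n 0 z
 (n 0 z (n 2 z (n 0 z (n 0 z (n 0 z (n 0 z (n 0 z (n 0 z (n 0 z (n 0 z (n 0 z (n 0 z (n 0 z (n 0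
 z (n 0 z z)))))))))))))))))))))))))))))))))))))))))))))) z)))))))))) (n 0 (n 123 (n 0 z (n 0 z
 (n 0 z (n 0 z (n 0 z (n 0 z (n 0 z z))))))) (n 75 (n 0 z (n 0 z (n 0 z (n 0 z (n 0 z (n 2 (n 0
 z (n 1 z (n 1 z (n 1 z (n 2 (n 0 z (n 0 z (n 0 z (n 0 z (n 0 z (n 0 (n 260 z z) z)))))) (n 2 (n
 0 z (n 0 z (n 0 z (n 0 z (n 0 z (n 0 z z)))))) (n 2 (n 0 z (n 0 z (n 0 z (n 0 z (n 0 z (n 0 (n
 8791099 z z) z)))))) z))))))) (n 0 z (n 0 z (n 0 z (n 0 z (n 0 z (n 0 z (n 0 z z)))))))))))))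
 (n 75 (n 0 z (n 0 z (n 0 z (n 0 z (n 0 z (n 0 z (n 0 z (n 0 z (n 0 z (n 0 z (n 0 z (n 0 z (n 0
 z z))))))))))))) (n 63 (n 2 (n 0 z (n 1 z (n 2 (n 0 z (n 0 z (n 0 z (n 0 z (n 0 z (n 0 z
 z)))))) (n 2 (n 0 z (n 0 z (n 0 z (n 0 z (n 0 z (n 0 z z)))))) (n 2 (n 0 z (n 0 z (n 0 z (n 0 z
 (n 0 z (n 0 z z)))))) z))))) (n 0 z (n 0 z (n 0 z (n 0 z (n 0 z (n 0 z (n 0 z (n 0 z (n 0 z (n
 0 z (n 0 z (n 0 z (n 0 z z)))))))))))))) (n 63 (n 0 z (n 0 z (n 0 z (n 0 z (n 0 z (n 0 z (n 0 z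
 (n 0 z (n 0 z (n 0 z (n 0 z (n 0 z (n 0 z (n 0 z z)))))))))))))) (n 65 (n 0 z (n 0 z (n 0 z (n
 0 z (n 0 z (n 0 z (n 0 z (n 0 z (n 0 z (n 0 z (n 0 z z))))))))))) (n 65 (n 0 z (n 0 z (n 0 z (n
 0 z (n 0 z (n 0 z (n 0 z (n 0 z (n 2 (n 0 z (n 0 z z)) (n 0 z (n 0 z z))))))))))) (n 65 (n 2 (n
 0 z z) (n 0 z (n 0 z (n 0 z (n 0 z (n 0 z (n 0 z (n 0 z (n 0 z (n 0 z (n 0 z z))))))))))) (n 65
 (n 0 z (n 0 z (n 0 z (n 0 z (n 0 z (n 0 z (n 0 z (n 0 z (n 0 z (n 0 z (n 0 z z)))))))))))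
 z))))))))) (n 0 (n 27 (n 2 (n 0 z (n 1 z (n 1 z (n 1 z (n 1 z (n 1 z (n 1 z z))))))) (n 0 z (n
 0 z z))) (n 27 (n 0 z (n 0 z (n 0 z z))) (n 15 (n 0 z (n 2 (n 0 z (n 1 z (n 1 z (n 1 z (n 1 z
 z))))) (n 0 z (n 0 z (n 0 z (n 0 z z)))))) (n 15 (n 0 z (n 0 z (n 0 z (n 0 z (n 0 z (n 0 z
 z)))))) (n 101 (n 0 z (n 0 z (n 0 z (n 0 z (n 0 z (n 0 z (n 0 z (n 0 z (n 0 z (n 0 z (n 0 z (n
 0 z z)))))))))))) (n 101 (n 0 z (n 0 z (n 0 z (n 0 z (n 0 z (n 0 z (n 0 z (n 2 (n 0 z (n 0 z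
 z)) (n 0 z (n 0 z (n 0 z (n 0 z z)))))))))))) (n 101 (n 0 z (n 0 z (n 2 (n 0 z z) (n 0 z (n 0 z
 (n 0 z (n 0 z (n 0 z (n 0 z (n 0 z (n 0 z (n 0 z z)))))))))))) (n 101 (n 0 z (n 0 z (n 0 z (n 0
 z (n 0 z (n 0 z (n 0 z (n 0 z (n 0 z (n 0 z (n 0 z (n 0 z z)))))))))))) z)))))))) (n 0 (n 0 z
 (n 483 (n 0 z (n 0 z (n 0 z (n 0 z (n 0 z (n 0 z (n 0 z (n 0 z z)))))))) (n 483 (n 2 (n 1 z (n
 1 z (n 1 z (n 1 z z)))) (n 0 z (n 0 z (n 0 z (n 0 z (n 0 z (n 0 z (n 0 z z)))))))) (n 481 (n 0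
 z (n 0 z (n 0 z (n 0 z (n 0 z (n 0 z (n 0 z (n 0 z (n 0 z (n 0 z (n 0 z (n 0 z (n 0 z (n 0 z (n
 0 z (n 2 (n 0 z (n 0 z (n 0 z z))) (n 0 z (n 0 z (n 0 z (n 0 z (n 0 z (n 0 z (n 0 z (n 0 z (n 0
 z (n 0 z (n 0 z (n 0 z (n 0 z (n 0 z (n 0 z (n 0 z (n 0 z (n 0 z (n 0 z (n 0 z (n 0 z (n 0 z (n
 0 z (n 0 z (n 0 z (n 0 z (n 0 z (n 0 z (n 0 z (n 0 z (n 0 z (n 0 z (n 0 z (n 0 z (n 0 z (n 0 z
 (n 0 z (n 0 z (n 0 z (n 0 z z)))))))))))))))))))))))))))))))))))))))))))))))))))))))) (n 481 (n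
 0 z (n 0 z (n 0 z (n 0 z (n 0 z (n 0 z (n 0 z (n 0 z (n 0 z (n 0 z (n 0 z (n 0 z (n 0 z (n 0 z
 (n 0 z (n 0 z (n 0 z (n 0 z (n 0 z (n 0 z (n 0 z (n 0 z (n 0 z (n 0 z (n 0 z (n 0 z (n 0 z (n 0
 z (n 0 z (n 0 z (n 0 z (n 0 z (n 0 z (n 0 z (n 0 z (n 0 z (n 0 z (n 0 z (n 2 (n 0 z (n 0 z z))
 (n 0 z (n 0 z (n 0 z (n 0 z (n 0 z (n 0 z (n 0 z (n 0 z (n 0 z (n 0 z (n 0 z (n 0 z (n 0 z (n 0
 z (n 0 z (n 0 z (n 0 z z)))))))))))))))))))))))))))))))))))))))))))))))))))))))) (n 481 (n 0 z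
 (n 0 z (n 0 z (n 0 z (n 0 z (n 0 z (n 0 z (n 0 z (n 0 z (n 0 z (n 0 z (n 0 z (n 0 z (n 0 z (n 0
 z (n 0 z (n 0 z (n 0 z (n 0 z (n 0 z (n 0 z (n 0 z (n 0 z (n 0 z (n 0 z (n 0 z (n 0 z (n 0 z (n
 0 z (n 0 z (n 0 z (n 0 z (n 0 z (n 0 z (n 0 z (n 0 z (n 0 z (n 2 (n 0 z z) (n 0 z (n 0 z (n 0 z
 (n 0 z (n 0 z (n 0 z (n 0 z (n 0 z (n 0 z (n 0 z (n 0 z (n 0 z (n 0 z (n 0 z (n 0 z (n 0 z (n 0
 z (n 0 z z)))))))))))))))))))))))))))))))))))))))))))))))))))))))) (n 481 (n 0 z (n 0 z (n 0 z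
 (n 0 z (n 0 z (n 0 z (n 0 z (n 0 z (n 0 z (n 0 z (n 0 z (n 0 z (n 0 z (n 0 z (n 0 z (n 0 z (n 0
 z (n 0 z (n 0 z (n 0 z (n 0 z (n 0 z (n 0 z (n 0 z (n 0 z (n 0 z (n 0 z (n 0 z (n 0 z (n 0 z (n
 0 z (n 0 z (n 0 z (n 0 z (n 2 z (n 0 z (n 0 z (n 0 z (n 0 z (n 0 z (n 0 z (n 0 z (n 0 z (n 0 z
 (n 0 z (n 0 z (n 0 z (n 0 z (n 0 z (n 0 z (n 0 z (n 0 z (n 0 z (n 0 z (n 0 z (n 0 z
 z)))))))))))))))))))))))))))))))))))))))))))))))))))))))) z))))))) (n 0 (n 531 (n 2 (n 0 z (n 1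
 z (n 1 z (n 1 z (n 1 z z))))) (n 0 z (n 0 z (n 0 z (n 0 z (n 0 z (n 0 z (n 0 z z)))))))) (n 531
 (n 0 z (n 0 z (n 0 z (n 0 z (n 0 z (n 0 z (n 0 z (n 0 z z)))))))) (n 529 (n 0 z (n 0 z (n 0 z
 (n 0 z (n 0 z (n 0 z (n 0 z (n 0 z (n 0 z (n 0 z (n 0 z (n 0 z (n 0 z (n 0 z (n 0 z (n 0 z (n 0
 z (n 0 z (n 0 z (n 0 z (n 0 z (n 0 z (n 0 z z))))))))))))))))))))))) (n 529 (n 0 z (n 0 z (n 0
 z (n 0 z (n 0 z (n 0 z (n 0 z (n 0 z (n 0 z (n 0 z (n 0 z (n 0 z (n 0 z (n 0 z (n 0 z (n 0 z (n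
 2 (n 0 z (n 0 z z)) (n 0 z (n 0 z (n 0 z (n 0 z (n 0 z (n 0 z z))))))))))))))))))))))) (n 529
 (n 0 z (n 0 z (n 0 z (n 0 z (n 0 z (n 0 z (n 0 z (n 0 z (n 0 z (n 0 z (n 0 z (n 0 z (n 2 (n 0 z
 z) (n 0 z (n 0 z (n 0 z (n 0 z (n 0 z (n 0 z (n 0 z (n 0 z (n 0 z (n 0 z
 z))))))))))))))))))))))) (n 529 (n 0 z (n 0 z (n 0 z (n 0 z (n 0 z (n 0 z (n 0 z (n 0 z (n 0 z
 (n 0 z (n 0 z (n 0 z (n 0 z (n 0 z (n 0 z (n 0 z (n 0 z (n 0 z (n 0 z (n 0 z (n 0 z (n 0 z (n 0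
 z z))))))))))))))))))))))) z)))))) (n 0 (n 0 z (n 1 (n 0 z (n 0 z (n 0 z (n 0 z (n 0 z (n 0 z
 (n 0 z (n 0 z (n 0 z (n 0 z (n 0 z (n 0 z (n 0 z (n 0 z (n 0 z (n 0 z (n 0 z (n 0 z (n 0 z (n 0
 z (n 0 z (n 0 z (n 0 z (n 2 (n 0 z (n 0 z (n 0 z z))) (n 0 z (n 0 z (n 0 z (n 0 z (n 0 z (n 0 z
 (n 0 z (n 0 z (n 0 z (n 0 z (n 0 z (n 0 z (n 0 z (n 0 z (n 0 z (n 0 z (n 0 z (n 0 z (n 0 z (n 0
 z (n 0 z (n 0 z (n 0 z (n 0 z (n 0 z z))))))))))))))))))))))))))))))))))))))))))))))))) (n 1 (n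
 0 z (n 0 z (n 0 z (n 0 z (n 0 z (n 0 z (n 0 z (n 0 z (n 0 z (n 0 z (n 0 z (n 0 z (n 0 z (n 0 z
 (n 0 z (n 0 z (n 0 z (n 0 z (n 0 z (n 2 (n 0 z (n 0 z z)) (n 0 z (n 0 z (n 0 z (n 0 z (n 0 z (n
 0 z (n 0 z (n 0 z (n 0 z (n 0 z (n 0 z (n 0 z (n
 0x337607d76569df9e87dc8668a62748946cd6b7b927299ec3aeba3ed6a57ba262290fa598114a38a00041 z (n 0 z
 (n 0 z (n 0 z (n 0 z (n 0 z (n 0 z (n 0 z (n 0 z (n 0 z (n 0 z (n 0 z (n 0 z (n 0 z (n 0 z (n 0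
 z (n 0 z z))))))))))))))))))))))))))))))))))))))))))))))))) (n 1 (n 0 z (n 0 z (n 0 z (n 0 z (n
 0 z (n 0 z (n 0 z (n 0 z (n 0 z (n 0 z (n 0 z (n 0 z (n 2 (n 0 z z) (n 0 z (n 0 z (n 0 z (n 0 z
 (n 0 z (n 0 z (n 0 z (n 0 z (n 0 z (n 0 z (n 0 z (n 0 z (n 0 z (n 0 z (n 0 z (n 0 z (n 0 z (n 0
 z (n 0 z (n 0 z (n 0 z (n 0 z (n 0 z (n 0 z (n 0 z (n 0 z (n 0 z (n 0 z (n 0 z (n 0 z (n 0 z (n
 0 z (n 0 z (n 0 z (n 0 z (n 0 z z))))))))))))))))))))))))))))))))))))))))))))))))) (n 1 (n 0 z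
 (n 0 z (n 0 z (n 0 z (n 0 z (n 0 z (n 2 z (n 0 z (n 0 z (n 0 z (n 0 z (n 0 z (n 0 z (n 0 z (n 0
 z (n 0 z (n 0 z (n 0 z (n 0 z (n 0 z (n 0 z (n 0 z (n 0 z (n 0 z (n 0 z (n 0 z (n 0 z (n 0 z (n
 0 z (n 0 z (n 0 z (n 0 z (n 0 z (n 0 z (n 0 z (n 0 z (n 0 z (n 0 z (n 0 z (n 0 z (n 0 z (n 0 z
 (n 0 z (n 0 z (n 0 z (n 0 z (n 0 z (n 0 z (n 0 z
 z))))))))))))))))))))))))))))))))))))))))))))))))) z))))) (n 0 (n 1 (n 0 z (n 0 z (n 0 z (n 0 z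
 (n 0 z (n 0 z (n 0 z (n 0 z (n 0 z z))))))))) (n 1 (n 0 z (n 0 z (n 0 z (n 0 z (n 0 z (n 2 (n 0
 z (n 0 z z)) (n 0 z (n 0 z (n 0 z z))))))))) (n 1 (n 2 (n 0 z z) (n 0 z (n 0 z (n 0 z (n 0 z (n
 0 z (n 0 z (n 0 z (n 0 z z))))))))) (n 1 (n 0 z (n 0 z (n 0 z (n 0 z (n 0 z (n 0 z (n 0 z (n 0
 z (n 0 z z))))))))) z)))) (n 0 (n 0 z (n 0 z (n 0 z z))) (n 0 (n 0 z (n 0 z z)) (n 0 (n 0 z z)
 (n 0 z z))))))))))))) (n 0 (n 1 (n 6496515 z (n 268 z (n 6627595 z (n 2 z (n 268 z (n 268 z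
 z)))))) (n 0 z (n 1 (n 6496515 z (n 6557779 z (n 6557779 z (n 6557779 z (n 6557779 z (n 6557779
 z z)))))) (n 1 (n 6496515 z (n 6557779 z (n 6557779 z (n 6557779 z (n 6557779 z (n 6557779 z
 z)))))) z)))) (n 0 (n 0xa2a89d42c45d6c42d46d02d36d4211 (n 0 (n 0 (n 7742523 z (n 7742523 z (n
 7742523 z (n 7742523 z (n 7742523 z (n 7742523 z z)))))) z) (n 0 (n 153 (n 1 (n 7742523 z (n
 7742523 z (n 7742523 z (n 7742523 z (n 7742523 z (n 7742523 z z)))))) (n 0 z (n 1 (n 7606355 z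
 (n 7606355 z (n 7606355 z (n 7606355 z (n 7606355 z (n 7606355 z z)))))) (n 1 (n 7606355 z (n
 7606355 z (n 7606355 z (n 7606355 z (n 7606355 z (n 7606355 z z)))))) z)))) (n 61 (n 0 z (n 0 z
 (n 1 (n 1340 z (n 3278699 z (n 1340 z (n 1340 z (n 7602987 z (n 1340 z z)))))) (n 1 (n 2 z (n
 1340 z (n 1340 z (n 7602987 z (n 1340 z (n 1340 z z)))))) (n 1 (n 7545091 z (n 7545091 z (n
 7545091 z (n 7545091 z (n 7545091 z (n 7545091 z z)))))) (n 1 (n 7606355 z (n 7606355 z (n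
 7606355 z (n 7606355 z (n 7606355 z (n 7606355 z z)))))) (n 1 (n 7545091 z (n 7545091 z (n
 7545091 z (n 7545091 z (n 7545091 z (n 7545091 z z)))))) z))))))) (n 13 (n 1 (n 3196 z (n
 7742523 z (n 6631795 z (n 3196 z (n 5445483 z (n 3196 z z)))))) (n 1 (n 7545091 z (n 7545091 z
 (n 7545091 z (n 7545091 z (n 7545091 z (n 7545091 z z)))))) (n 1 (n 7545091 z (n 7545091 z (n
 7545091 z (n 7545091 z (n 7545091 z (n 7545091 z z)))))) z))) (n 15 (n 1 (n 10 z (n 5379947 z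
 (n 6627699 z (n 2188 z (n 2188 z (n 2188 z z)))))) (n 1 (n 7545091 z (n 7545091 z (n 7545091 z
 (n 7545091 z (n 7545091 z (n 7545091 z z)))))) (n 1 (n 7545091 z (n 7545091 z (n 7545091 z (n
 7545091 z (n 7545091 z (n 7545091 z z)))))) z))) (n 9 (n 0 z (n 1 (n 18 z (n 5379947 z (n
 6627699 z (n 7602987 z (n 2236 z (n 2236 z z)))))) (n 1 (n 7545091 z (n 7545091 z (n 7545091 z
 (n 7545091 z (n 7545091 z (n 7545091 z z)))))) (n 1 (n 7606355 z (n 7606355 z (n 7606355 z (n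
 7606355 z (n 7606355 z (n 7606355 z z)))))) (n 1 (n 7606355 z (n 7606355 z (n 7606355 z (n
 7606355 z (n 7606355 z (n 7606355 z z)))))) (n 0 z z)))))) (n 1 (n 1 (n 2284 z (n 2284 z (n
 6559531 z (n 7742523 z (n 26 z (n 2284 z z)))))) (n 1 (n 3278683 z (n 3278683 z (n 3278683 z (n
 3278683 z (n 3278683 z (n 7742523 z z)))))) (n 1 (n 2284 z (n 2284 z (n 2284 z (n 6563611 z (n
 2284 z (n 2284 z z)))))) (n 1 (n 7676171 z (n 7676171 z (n 7676171 z (n 7676171 z (n 7676171 z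
 (n 7676171 z z)))))) (n 0 z (n 1 (n 2284 z (n 7742523 z (n 6559547 z (n 2284 z (n 34 z (n 2284
 z z)))))) (n 1 (n 7602987 z (n 7602987 z (n 7602987 z (n 7602987 z (n 7602987 z (n 7602987 z
 z)))))) (n 1 (n 2284 z (n
 0xeea2c60803806e7780808079a266807f7780806a9c857283857cb56f7e699e90a5578ea7819e8a7b707a8d9778817e8c7f73706b7f6e870809
 z (n 2284 z (n 2284 z (n 6566259 z (n 2284 z z)))))) (n 1 (n 7602987 z (n 7602987 z (n 7602987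
 z (n 7602987 z (n 6566515 z (n 7602987 z z)))))) z))))))))) (n 153 (n 1 (n 7545091 z (n 7742523
 z (n 7676171 z (n 7742523 z (n 7742523 z (n 7742523 z z)))))) (n 0 z (n 1 (n 7545091 z (n
 7606355 z (n 7606355 z (n 7606355 z (n 7606355 z (n 7606355 z z)))))) (n 1 (n 7545091 z (n
 7606355 z (n 7606355 z (n 7606355 z (n 7606355 z (n 7606355 z z)))))) z)))) z))))))) (n 0 (n 0
 (n 0 z (n 0 z (n 0 z (n 0 z (n 0 z z))))) (n 0 (n 0 z (n 0 z (n 0 z (n 0 z z)))) (n 0 (n 0 z (n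
 0 z (n 0 z z))) (n 0 (n 0 z (n 0 z z)) (n 0 (n 0 z z) z))))) (n 0 (n 167 (n 0 (n 0 z (n 0 z (n
 0 z (n 0 z (n 0 z z))))) (n 0 (n 0 z (n 0 z (n 0 z (n 0 z (n 0 z z))))) (n 0 (n 0 z (n 0 z (n 0
 z (n 0 z (n 0 z z))))) (n 0 (n 0 z (n 0 z (n 0 z (n 0 z (n 0 z z))))) (n 0 (n 0 z (n 0 (n
 8865371 z (n 8865371 z z)) (n 0 z (n 0 z (n 0 (n
 0xbb8748078788098747b867d7d7a798c8084a85f76857c86907e77777c978c7f969982988b7a6894868c6b7d7d8d815685767b77880049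
 z (n
 0x30eb0c860381f8608207e07e082085f82086082082086081f81f81f86082082082082086086082181f8200801 z
 z)) z))))) (n 0 (n 0 z (n 0 z (n 0 z (n 0 z (n 0 z z))))) (n 0 (n 0 z (n 0 z (n 0 z (n 0 z (n 0
 z z))))) (n 0 (n 0 z (n 0 z (n 0 z (n 0 z (n 0 z z))))) z)))))))) (n 399 (n 0 (n 0 z (n 0 z (n
 0 z (n 0 z (n 0 z z))))) (n 0 (n 0 z (n 0 z (n 0 z (n 0 z (n 0 z z))))) (n 0 (n 0 z (n 0 z (n 0
 z (n 0 z (n 0 z z))))) (n 0 (n 0 z (n 0 z (n 0 z (n 0 z (n 0 z z))))) (n 0 (n 0 z (n 0 z (n 0 z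
 (n 0 z (n 0 z z))))) (n 0 (n 0 z (n 0 z (n 0 z (n 0 z (n 0 z z))))) (n 0 (n 0 z (n 0 z (n 0 z
 (n 0 z (n 0 z z))))) (n 0 (n 0 z (n 0 z (n 0 z (n 0 z (n 0 z z))))) (n 0 (n 0 z (n 0 z (n 0 z
 (n 0 z (n 0 z z))))) z))))))))) (n 63 (n 0 (n 0 z (n 0 z (n 0 z (n 0 z (n 0 z z))))) (n 0 (n 0
 z (n 0 z (n 0 z (n 0 z (n 0 z z))))) (n 0 (n 0 z (n 0 z (n 0 z (n 0 z (n 0 z z))))) (n 0 (n 0 z
 (n 0 z (n 0 z (n 0 z (n 0 z z))))) (n 0 (n 0 z (n 0 z (n 0 z (n 0 z (n 0 z z))))) (n 0 (n 0 z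
 (n 0 z (n 0 z (n 0 z (n 0 z z))))) (n 0 (n 0 z (n 0 z (n 0 z (n 0 z (n 0 z z))))) z))))))) (n
 273 (n 0 (n 0 (n 8791835 z z) (n 0 z (n 0 z (n 0 z (n 0 z z))))) (n 0 (n 0 z (n 0 z (n 0 z (n 0
 z (n 0 z z))))) (n 0 (n 0 z (n 0 z (n 0 z (n 0 z (n 0 z z))))) (n 0 (n 0 z (n 0 z (n 0 z (n 0 z
 (n 0 z z))))) (n 0 (n 0 z (n 0 (n
 0x338767d76569df9e87dc8668a62748946cd6b7b927299ec3aeba3ed6a57ba262290fa598114a38a00041 z z) (n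
 0 z (n 0 z (n 0 z z))))) (n 0 (n 0 z (n 0 z (n 0 z (n 0 z (n 0 z z))))) (n 0 (n 0 (n 8654931 z
 (n 8654931 z z)) (n 0 z (n 0 z (n 0 (n 8654931 z (n 8654931 z z)) (n 0 z z))))) (n 0 (n 0 z (n
 0 z (n 0 z (n 0 z (n 0 z z))))) (n 0 (n 0 z (n 0 z (n 0 z (n 0 z (n 0 z z))))) (n 0 (n 0 (n
 5511227 z z) (n 0 z (n 0 z (n 0 z (n 0 z z))))) (n 0 (n 0 z (n 0 z (n 0 z (n 0 (n 4331579 z z)
 (n 0 z z))))) (n 0 (n 0 z (n 0 z (n 0 z (n 0 z (n 0 (n 8864611 z z) z))))) (n 0 (n 0 z (n 0 z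
 (n 0 z (n 0 z (n 0 z z))))) z))))))))))))) (n 39 (n 0 (n 0 z (n 0 z (n 0 z (n 0 z (n 0 z z)))))
 (n 0 (n 0 z (n 0 (n 8868875 z (n 8868875 z z)) (n 0 (n
 0xb8708207de86081e85f8208627e089f81f8208a085e8617e081f86081e7e086086082085f8208200041 z (n
 0xf38757f9689829d7381728d72795d8e7e8b6e70957c84856d7f758f759c6d896c7a7ca1d368607881c7527f8a99893ea88a9269800049
 z z)) (n 0 z (n 0 z z))))) (n 0 (n 0 z (n 0 z (n 0 z (n 0 z (n 0 z z))))) (n 0 (n 0 z (n 0 z (n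
 0 z (n 0 z (n 0 z z))))) (n 0 (n 0 (n 8660747 z z) (n 0 z (n 0 z (n 0 z (n 0 z z))))) (n 0 (n 0
 z (n 0 z (n 0 z (n 0 z (n 0 z z))))) (n 0 (n 0 z (n 0 z (n 0 z (n 0 z (n 0 z z))))) (n 0 (n 0 z
 (n 0 z (n 0 z (n 0 z (n 0 z z))))) (n 0 (n 0 z (n 0 z (n 0 z (n 0 z (n 0 z z))))) (n 0 (n 0 z
 (n 0 z (n 0 z (n 0 z (n 0 z z))))) (n 0 (n 0 z (n 0 z (n 0 z (n 0 z (n 0 z z))))) (n 0 (n 0 z
 (n 0 z (n 0 z (n 0 (n 8593667 z z) (n 0 z z))))) (n 0 (n 0 z (n 0 z (n 0 z (n 0 z (n 0 z z)))))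
 z))))))))))))) (n 15 (n 0 (n 0 z (n 0 z (n 0 z (n 0 z (n 0 z z))))) (n 0 (n 0 z (n 0 z (n 0 z
 (n 0 z (n 0 z z))))) (n 0 (n 0 z (n 0 z (n 0 z (n 0 z (n 0 (n 8593667 z z) z))))) z))) (n 279
 (n 0 (n 0 z (n 0 z (n 0 z (n 0 z (n 0 z z))))) (n 0 (n 0 z (n 0 z (n 0 z (n 0 z (n 0 z z)))))
 (n 0 (n 0 z (n 0 z (n 0 z (n 0 z (n 0 z z))))) (n 0 (n 0 z (n 0 z (n 0 z (n 0 z (n 0 z z)))))
 (n 0 (n 0 z (n 0 z (n 0 z (n 0 z (n 0 z z))))) (n 0 (n 0 z (n 0 z (n 0 z (n 0 z (n 0 z z)))))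
 (n 0 (n 0 z (n 0 z (n 0 z (n 0 z (n 0 z z))))) (n 0 (n 0 z (n 0 z (n 0 z (n 0 z (n 0 z z)))))
 (n 0 (n 0 z (n 0 z (n 0 z (n 0 z (n 0 z z))))) z))))))))) (n 33 (n 0 (n 0 z (n 0 z (n 0 z (n 0
 z (n 0 z z))))) (n 0 (n 0 (n
 0x1387081f7dd86181d85f8208637a089f81f85f8e085e8627e185f85f81d7df86186082081f8208200041 z (n
 0x1387081f7dd8a181c8de8228637a181e82086095d89c8a282185e8a081d8208a091e81f81e82085f0041 z z)) (n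
 0 z (n 0 z (n 0 (n
 0x1b8708207dc8a181e89e85f8a469f91f7df7df86281e8627608228a181c7de8a085e85f8207e18200041 z (n
 0x338707d76569df9e87dc8668a62748946cd6b7b927299ec3aeba3ed6a57ba262290fa598114a38a00041 z z)) (n
 0 z z))))) (n 0 (n 0 z (n 0 z (n 0 z (n 0 z (n 0 z z))))) (n 0 (n 0 z (n 0 z (n 0 z (n 0 z (n 0
 z z))))) (n 0 (n 0 z (n 0 z (n 0 z (n 0 z (n 0 z z))))) (n 0 (n 0 z (n 0 z (n 0 z (n 0 z (n 0 z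
 z))))) (n 0 (n 0 z (n 0 z (n 0 z (n 0 z (n 0 z z))))) (n 0 (n 0 z (n 0 z (n 0 z (n 0 z (n 0 z
 z))))) (n 0 (n 0 z (n 0 z (n 0 z (n 0 z (n 0 z z))))) (n 0 (n 0 z (n 0 z (n 0 z (n 0 z (n 0 z
 z))))) (n 0 (n 0 z (n 0 z (n 0 z (n 0 z (n 0 z z))))) (n 0 (n 0 z (n 0 z (n 0 z (n 0 z (n 0 z
 z))))) (n 0 (n 0 z (n 0 (n
 0x1b8758207dc8a181e89e85f8a469f91f7df7df86281e8627608228a181c7de8a085e85f8207e18200041 z (n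
 0x338757d76569df9e87dc8668a62748946cd6b7b927299ec3aeba3ed6a57ba262290fa598114a38a00041 z z)) (n
 0 (n 0x1b8758207dc8a181f89e85f8a46df8df7df7df86281e86176082286081d7de8a085f81f8207e18200041 z
 (n 8722283 z z)) (n 0 z (n 0 z z))))) (n 0 (n 0 z (n 0 z (n 0 z (n 0 z (n 0 z z)))))
 z)))))))))))))) (n 9 (n 0 (n 0 z (n 0 z (n 0 z (n 0 z (n 0 z z))))) (n 0 (n 0 z (n 0 z (n 0 z
 (n 0 z (n 0 z z))))) (n 0 (n 0 z (n 0 z (n 0 z (n 0 z (n 0 z z))))) (n 0 (n 0 z (n 0 z (n 0 z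
 (n 0 z (n 0 z z))))) (n 0 (n 0 z (n 0 z (n 0 z (n 0 z (n 0 z z))))) (n 0 (n 0 z (n 0 z (n 0 z
 (n 0 z (n 0 (n 8660827 z z) z))))) z)))))) (n 267 (n 0 (n 0 z (n 0 z (n 0 z (n 0 z (n 0 z
 z))))) (n 0 (n 0 z (n 0 z (n 0 z (n 0 z (n 0 z z))))) (n 0 (n 0 (n 8654931 z z) (n 0 z (n 0 z
 (n 0 z (n 0 z z))))) (n 0 (n 0 z (n 0 z (n 0 z (n 0 z (n 0 z z))))) (n 0 (n 0 z (n 0 z (n 0 z
 (n 0 z (n 0 z z))))) (n 0 (n 0 z (n 0 z (n 0 z (n 0 z (n 0 (n 8654931 z z) z))))) (n 0 (n 0 (n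
 8654931 z (n 8654931 z z)) (n 0 z (n 0 z (n 0 z (n 0 z z))))) (n 0 (n 0 z (n 0 z (n 0 z (n 0 z
 (n 0 (n 8593667 z z) z))))) z)))))))) (n 285 (n 0 (n 0 z (n 0 z (n 0 z (n 0 z (n 0 z z))))) (n
 0 (n 0 z (n 0 z (n 0 z (n 0 z (n 0 z z))))) (n 0 (n 0 z (n 0 z (n 0 z (n 0 z (n 0 z z))))) (n 0
 (n 0 z (n 0 z (n 0 z (n 0 z (n 0 z z))))) (n 0 (n 0 z (n 0 z (n 0 z (n 0 z (n 0 z z))))) (n 0
 (n 0 z (n 0 z (n 0 z (n 0 z (n 0 z z))))) (n 0 (n 0 z (n 0 z (n 0 z (n 0 z (n 0 z z))))) (n 0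
 (n 0 z (n 0 z (n 0 z (n 0 z (n 0 z z))))) (n 0 (n 0 z (n 0 z (n 0 z (n 0 z (n 0 z z))))) (n 0
 (n 0 z (n 0 z (n 0 z (n 0 z (n 0 z z))))) (n 0 (n 0 z (n 0 z (n 0 z (n 0 z (n 0 z z))))) (n 0
 (n 0 z (n 0 z (n 0 z (n 0 z (n 0 z z))))) z)))))))))))) (n 33 (n 0 (n 0 z (n 0 z (n 0 z (n 0 z
 (n 0 z z))))) (n 0 (n 0 z (n 0 z (n 0 z (n 0 z (n 0 z z))))) (n 0 (n 0 z (n 0 z (n 0 z (n 0 z
 (n 0 z z))))) (n 0 (n 0 z (n 0 z (n 0 z (n 0 z (n 0 z z))))) (n 0 (n 0 z (n 0 z (n 0 z (n 0 z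
 (n 0 z z))))) (n 0 (n 0 z (n 0 z (n 0 z (n 0 z (n 0 (n 8787771 z z) z))))) (n 0 (n 0 z (n 0 z
 (n 0 z (n 0 z (n 0 z z))))) (n 0 (n 0 z (n 0 z (n 0 z (n 0 z (n 0 z z))))) (n 0 (n 0 z (n 0 z
 (n 0 z (n 0 z (n 0 z z))))) (n 0 (n 0 z (n 0 (n 8868875 z z) (n 0 z (n 0 z (n 0 z z))))) (n 0
 (n 0 z (n 0 z (n 0 z (n 0 z (n 0 z z))))) z))))))))))) (n 51 (n 0 (n 0 z (n 0 z (n 0 z (n 0 z
 (n 0 z z))))) (n 0 (n 0 z (n 0 z (n 0 z (n 0 z (n 0 z z))))) (n 0 (n 0 z (n 0 z (n 0 z (n 0 z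
 (n 0 z z))))) (n 0 (n 0 z (n 0 z (n 0 z (n 0 z (n 0 z z))))) (n 0 (n 0 z (n 0 z (n 0 z (n 0 z
 (n 0 z z))))) (n 0 (n 0 z (n 0 z (n 0 z (n 0 z (n 0 z z))))) (n 0 (n 0 z (n 0 z (n 0 z (n 0 z
 (n 0 z z))))) (n 0 (n 0 z (n 0 z (n 0 z (n 0 z (n 0 z z))))) (n 0 (n 0 z (n 0 z (n 0 z (n 0 (n
 8593667 z z) (n 0 z z))))) (n 0 (n 0 z (n 0 z (n 0 z (n 0 z (n 0 z z))))) (n 0 (n 0 z (n 0 (n
 8868875 z z) (n 0 z (n 0 z (n 0 z z))))) (n 0 (n 0 z (n 0 z (n 0 z (n 0 z (n 0 z z)))))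
 z)))))))))))) (n 269 (n 0 (n 0 z (n 0 z (n 0 z (n 0 z (n 0 z z))))) (n 0 (n 0 z (n 0 z (n 0 z
 (n 0 z (n 0 z z))))) (n 0 (n 0 z (n 0 z (n 0 z (n 0 z (n 0 z z))))) (n 0 (n 0 z (n 0 z (n 0 z
 (n 0 z (n 0 z z))))) (n 0 (n 0 z (n 0 z (n 0 z (n 0 z (n 0 z z))))) (n 0 (n 0 z (n 0 z (n 0 z
 (n 0 z (n 0 z z))))) (n 0 (n 0 z (n 0 z (n 0 z (n 0 z (n 0 z z))))) (n 0 (n 0 z (n 0 z (n 0 z
 (n 0 (n 8724747 z z) (n 0 z z))))) (n 0 (n 0 (n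
 0x1387681f7dd86181f89e8608637208df7e07e086181f8617a182186181d81e8608608208208218210041 z (n
 0x2b87681969999f9a77dd8258a43b08966d16f2ad57279aa46bae2dd89d8b226618d39da8145228a00041 z z)) (n
 0 z (n 0 z (n 0 (n
 0x587186082182082082082082181f85f7e186086085f82082082081f8207e082182082085f8208200041 z (n
 0x1387181f7de86181d85f8208627e089f82085f8df85d8617e181f86081e81f86086086081f8208200041 z z)) (n
 0 z z))))) (n 0 (n 0 z (n 0 z (n 0 z (n 0 z (n 0 z z))))) (n 0 (n 0 z (n 0 z (n 0 z (n 0 z (n 0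
 z z))))) (n 0 (n 0 z (n 0 z (n 0 (n 8722283 z z) (n 0 z (n 0 z z))))) (n 0 (n 0 z (n 0 z (n 0 z
 (n 0 z (n 0 z z))))) (n 0 (n 0 z (n 0 z (n 0 z (n 0 z (n 0 z z))))) (n 0 (n 0 z (n 0 z (n 0 z
 (n 0 z (n 0 z z))))) (n 0 (n 0 z (n 0 z (n 0 (n 8724747 z (n 8724747 z z)) (n 0 z (n 0 (n
 8873283 z (n 8873283 z z)) z))))) (n 0 (n 0 z (n 0 z (n 0 z (n 0 z (n 0 z z))))) (n 0 (n 0 z (n
 0 z (n 0 (n 8724747 z z) (n 0 z (n 0 z z))))) (n 0 (n 0 z (n 0 z (n 0 z (n 0 (n 6424699 z z) (n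
 0 z z))))) (n 0 (n 0 z (n 0 z (n 0 z (n 0 z (n 0 (n 6428763 z (n 6428763 z z)) z))))) (n 0 (n 0
 z (n 0 z (n 0 z (n 0 z (n 0 z z))))) (n 0 (n 0 z (n 0 z (n 0 z (n 0 z (n 0 z z))))) (n 0 (n 0 z
 (n 0 z (n 0 z (n 0 z (n 0 z z))))) z))))))))))))))))))))))) (n 1 (n 0 (n 0 z (n 0 z (n 0 z (n 0
 z (n 0 z z))))) (n 0 (n 0 z (n 0 z (n 0 z (n 0 z (n 0 z z))))) (n 0 (n 0 z (n 0 z (n 0 z (n 0 z
 (n 0 z z))))) (n 0 (n 0 z (n 0 z (n 0 z (n 0 z (n 0 z z))))) (n 0 (n 0 z (n 0 z (n 0 z (n 0 z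
 (n 0 z z))))) (n 0 (n 0 z (n 0 z (n 0 z (n 0 z (n 0 z z))))) (n 0 (n 0 z (n 0 z (n 0 z (n 0 z
 (n 0 z z))))) (n 0 (n 0 z (n 0 z (n 0 z (n 0 z (n 0 z z))))) (n 0 (n 0 z (n 0 z (n 0 z (n 0 z
 (n 0 z z))))) z))))))))) (n 153 (n 0 (n 0 z (n 0 z (n 0 z (n 0 z (n 0 z z))))) (n 0 (n 0 z (n 0
 z (n 0 (n 8873243 z (n 8873243 z z)) (n 0 z (n 0 (n 7676291 z (n 8791099 z z)) z))))) (n 0 (n 0
 z (n 0 z (n 0 z (n 0 z (n 0 z z))))) (n 0 (n 0 z (n 0 z (n 0 z (n 0 z (n 0 z z))))) z)))) (n 33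
 (n 0 (n 0 z (n 0 z (n 0 z (n 0 z (n 0 z z))))) (n 0 (n 0 z (n 0 z (n 0 z (n 0 z (n 0 z z)))))
 (n 0 (n 0 z (n 0 z (n 0 z (n 0 z (n 0 z z))))) (n 0 (n 0 z (n 0 z (n 0 z (n 0 z (n 0 z z)))))
 (n 0 (n 0 z (n 0 z (n 0 z (n 0 z (n 0 z z))))) (n 0 (n 0 z (n 0 z (n 0 z (n 0 z (n 0 z z)))))
 (n 0 (n 0 z (n 0 z (n 0 z (n 0 z (n 0 z z))))) (n 0 (n 0 z (n 0 z (n 0 z (n 0 z (n 0 z z)))))
 (n 0 (n 0 z (n 0 (n 8868875 z z) (n 0 z (n 0 z (n 0 z z))))) z))))))))) (n 51 (n 0 (n 0 z (n 0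
 z (n 0 z (n 0 z (n 0 z z))))) (n 0 (n 0 z (n 0 z (n 0 z (n 0 z (n 0 z z))))) (n 0 (n 0 z (n 0 z
 (n 0 z (n 0 z (n 0 z z))))) (n 0 (n 0 z (n 0 z (n 0 z (n 0 z (n 0 z z))))) z)))) (n 27 (n 0 (n
 0 z (n 0 z (n 0 z (n 0 z (n 0 z z))))) (n 0 (n 0 z (n 0 z (n 0 z (n 0 z (n 0 z z))))) (n 0 (n 0
 z (n 0 z (n 0 z (n 0 z (n 0 (n 2164843 z z) z))))) (n 0 (n 0 z (n 0 z (n 0 z (n 0 z (n 0 (n
 8593667 z z) z))))) z)))) (n 1 (n 0 (n 0 z (n 0 z (n 0 z (n 0 z (n 0 z z))))) (n 0 (n 0 z (n 0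
 z (n 0 z (n 0 z (n 0 z z))))) (n 0 (n 0 z (n 0 z (n 0 z (n 0 z (n 0 z z))))) (n 0 (n 0 z (n 0 z
 (n 0 z (n 0 z (n 0 z z))))) (n 0 (n 0 z (n 0 z (n 0 z (n 0 z (n 0 z z))))) (n 0 (n 0 z (n 0 z
 (n 0 z (n 0 z (n 0 z z))))) z)))))) (n 0 (n 0 (n 0 z (n 0 z (n 0 z (n 0 z (n 0 z z))))) (n 0 (n
 0 z (n 0 (n 8868875 z z) (n 0 z (n 0 z (n 0 z z))))) (n 0 (n 0 z (n 0 z (n 0 z (n 0 (n 8787755
 z z) (n 0 z z))))) (n 0 (n 0 z (n 0 z (n 0 z (n 0 z (n 0 z z))))) (n 0 (n 0 z (n 0 z (n 0 z (n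
 0 z (n 0 z z))))) (n 0 (n 0 z (n 0 z (n 0 z (n 0 (n
 0x1b8308207dc8a185f89e8208646de91f7df7e086185e8a17608218a081d81e8a085e85f8207e18200041 z z) (n
 0 z z))))) (n 0 (n 0 z (n 0 z (n 0 z (n 0 z (n 0 z z))))) (n 0 (n 0 z (n 0 (n 3278939 z (n
 8660747 z z)) (n 0 z (n 0 z (n 0 (n 8848155 z (n 8848155 z z)) z))))) (n 0 (n 0 z (n 0 z (n 0 z
 (n 0 z (n 0 z z))))) (n 0 (n 0 z (n 0 z (n 0 z (n 0 z (n 0 z z))))) (n 0 (n 0 z (n 0 z (n 0 z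
 (n 0 z (n 0 z z))))) (n 0 (n 0 z (n 0 z (n 0 z (n 0 z (n 0 (n 8791099 z (n 7616555 z z)) z)))))
 (n 0 (n 0 z (n 0 z (n 0 z (n 0 z (n 0 (n
 0x1387181f7dd8a181c8de8228637a181e82086095d89c8a282185e8a081d8208a091e81f81e82085f0041 z (n
 8787771 z z)) z))))) (n 0 (n 0 (n
 0x587286082182082082082082181f85f7e186086085f82082082081f8207e082182082085f8208200041 z (n
 0x1387282079d86181c85e8218637608df81f85f92185d8627a185f85f81d7df8a086082085f8208200041 z z)) (n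
 0 z (n 0 z (n 0 (n
 0x587186082182082082082082181f85f7e186086085f82082082081f8207e082182082085f8208200041 z (n
 0x1387182079d86181c85e8218637608df81f85f92185d8627a185f85f81d7df8a086082085f8208200041 z z)) (n
 0 z z))))) (n 0 (n 0 z (n 0 z (n 0 z (n 0 z (n 0 z z))))) (n 0 (n 0 (n
 0x587282082082082082082182081f86082082086181e8207e082082182081f82081f8608207e08200041 z (n
 0x1d8728248e072275c95e8258208149a38e48198e491871895a5df6aa72089d85e9617617e69a28620041 z z)) (n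
 0 z (n 0 z (n 0 (n
 0x587186082182082082082082181f85f7e186086085f82082082081f8207e082182082085f8208200041 z (n
 0x138718207de86181d81f8208627a089f82081f8e185e8617e081f85f81e7df8a08608608608208200041 z z)) (n
 0 z z))))) (n 0 (n 0 z (n 0 z (n 0 z (n 0 z (n 0 z z))))) (n 0 (n 0 z (n 0 z (n 0 z (n 0 z (n 0
 z z))))) (n 0 (n 0 z (n 0 z (n 0 z (n 0 z (n 0 (n
 0x1387181f7dd8a181c8de8228637a181e82086095d89c8a282185e8a081d8208a091e81f81e82085f0041 z (n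
 0x2b8317d96d999f9667dd8648a53b08567116f3ad57279aa4abae2d999d9ae26a18d29da7d45628a00041 z z))
 z))))) (n 0 (n 0 z (n 0 z (n 0 (n 8791099 z (n 8791099 z z)) (n 0 z (n 0 (n 8791099 z (n
 8791099 z z)) z))))) (n 0 (n 0 z (n 0 z (n 0 z (n 0 z (n 0 z z))))) (n 0 (n 0 z (n 0 (n
 0x587286082182082082082082181f85f7e186086085f82082082081f8207e082182082085f8208200041 z (n
 0x1387282079d86181c85e8218637608df81f85f92185d8627a185f85f81d7df8a086082085f8208200041 z z)) (n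
 0 (n 0x587286082182082082082082181f85f7e186086085f82082082081f8207e082182082085f8208200041 z (n
 0x1b87281969c9208626e286a7a43ef9d87a08a381e7ea8aa4abaa0a919dd9dc6e079c89e9d46dc8e00041 z z)) (n
 0 z (n 0 z z))))) (n 0 (n 0 z (n 0 z (n 0 z (n 0 z (n 0 z z))))) (n 0 (n 0 z (n 0 z (n 0 z (n 0
 z (n 0 z z))))) (n 0 (n 0 z (n 0 z (n 0 z (n 0 z (n 0 z z))))) (n 0 (n 0 z (n 0 (n
 0xb8718207de86181f85f82086275f89f81f82086181f8607a082186081e81f86085f81f8207e08200041 z (n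
 0x338717d76569df9e87dc8668a62748946cd6b7b927299ec3aeba3ed6a57ba262290fa598114a38a00041 z z)) (n
 0 (n 0x138718207dd86181f89e85f8636df91f7df7e086281f86179f8218a181d7de8a085f85f8208228200041 z
 (n 0x50a88602038dd7608208227207e07a38e775c75f92581e76082676799f95991d81d8627e185f75c5df7a20801
 z z)) (n 0 z (n 0 z z))))) (n 0 (n 0 z (n 0 z (n 0 z (n 0 z (n 0 z z))))) (n 0 (n 0 z (n 0 z (n
 0 z (n 0 z (n 0 z z))))) (n 0 (n 0 z (n 0 z (n 0 z (n 0 z (n 0 z z))))) (n 0 (n 0 z (n 0 (n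
 0x1383281d79d8a08a381f82286366685c7997a895b7e28a46a5921a5d8dd9617a185a8de85b6e181f0041 z z) (n
 0 z (n 0 z (n 0 z z))))) (n 0 (n 0 (n 8868875 z (n 8868875 z z)) (n 0 (n 8868875 z (n 8868875 z
 z)) (n 0 (n
 0x587286082182082082082082181f85f7e186086085f82082082081f8207e082182082085f8208200041 z (n
 0x1387282079d82181d85f8218637a089f81f81f8e185e8217e185f81f81e81f86086082085f7e181f0041 z z)) (n
 0 (n 8873283 z (n 8873283 z z)) (n 0 z z))))) (n 0 (n 0 (n 8868875 z (n 8868875 z z)) (n 0 z (n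
 0 z (n 0 (n 8873283 z (n 8873283 z z)) (n 0 z z))))) (n 0 (n 0 z (n 0 z (n 0 z (n 0 z (n 0 z
 z))))) (n 0 (n 0 z (n 0 z (n 0 z (n 0 z (n 0 z z))))) (n 0 (n 0 z (n 0 z (n 0 z (n 0 z (n 0 z
 z))))) (n 0 (n 0 z (n 0 z (n 0 z (n 0 z (n 0 z z))))) (n 0 (n 0 z (n 0 z (n 0 z (n 0 z (n 0 z
 z))))) (n 0 (n 0 z (n 0 z (n 0 z (n 0 z (n 0 z z))))) (n 0 (n 0 z (n 0 z (n 0 z (n 0 z (n 0 z
 z))))) (n 0 (n 0 z (n 0 (n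
 0xb8728207de86081e81f8208627e086081f8208a081e86182086085f81e7e086082081f85f8208200041 z (n
 8791835 z z)) (n 0 z (n 0 z (n 0 (n 8787771 z (n
 0x338327d76569df9e87dc8668a62748946cd6b7b927299ec3aeba3ed6a57ba262290fa598114a38a00041 z z))
 z))))) (n 0 (n 0 z (n 0 z (n 0 z (n 0 z (n 0 z z))))) (n 0 (n 0 (n 8724747 z (n 8724747 z z))
 (n 0 z (n 0 z (n 0 (n 8724747 z (n 8724747 z z)) (n 0 z z))))) (n 0 (n 0 z (n 0 z (n 0 z (n 0 z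
 (n 0 z z))))) (n 0 (n 0 z (n 0 (n 8724747 z (n 8724747 z z)) (n 0 (n 8724747 z (n 8724747 z z))
 (n 0 z (n 0 z z))))) (n 0 (n 0 z (n 0 z (n 0 z (n 0 z (n 0 (n 8791099 z (n 8791099 z z)) z)))))
 (n 0 (n 0 z (n 0 z (n 0 z (n 0 z (n 0 (n 8791099 z (n 8791099 z z)) z))))) (n 0 (n 0 z (n 0 z
 (n 0 (n 8791835 z (n 8791099 z z)) (n 0 z (n 0 (n 8791099 z (n 8791099 z z)) z)))))
 z))))))))))))))))))))))))))))))))))))))))))))))) z))))))))))))))))))))) z)))) z) z)))) z)))),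
 by decide +kernel⟩
theorem i10540 : ∃ t, chkR KT RW t 10540 10550 = true := ⟨(n
 0x2c28d14c4a88759483128a844b34449e2254e116266909234c08987084d310061d40 (n 0xd312 (n 155 (n 0 z
 (n 6635571 z (n 0 z (n 2 z (n 0 z (n 6635571 z (n 10 z z))))))) (n 33 (n 18 z (n 26 z (n 0 z (n
 0 z (n 6627651 z z))))) (n 9 (n 0 z (n 34 z (n 0 z (n 0 z (n 6627651 z z))))) (n 125 (n 42 z (n
 0x2ca8a8040781f85e8208608208608217e086082082086081f86081f8218218208218208207e08608208600801 z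
 (n 50 z (n
 0x2ca8a8040781f81f7e08a185f8a18608208608208207e07de8207df8228218218618218207e08608208600801 z
 (n 0 z (n 0 z (n 0 z (n 2164283 z (n 0 z (n 0 z (n 0 z (n 0 z (n 0 z (n 0 z (n 0 z (n 0 z (n 0
 z (n 5310011 z (n 0 z (n 0 z (n 0 z (n 0 z (n 0 z (n 0 z (n 0 z (n 0 z (n 0 z (n 0 z (n 0 z (n
 0 z (n 58 z (n
 0x2ca8a8240781f81f7e08a185f8a18608208608208207e07de8207df8228218218618218207e08608208600801 z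
 (n 66 z (n 0 z (n
 0x2ca8ca84037a17de85f89e86089f81f8608a082182082181f8207e08217e08208618607e17e085f7e18600801 z
 (n 0 z z)))))))))))))))))))))))))))))))))))) (n 1 (n 74 z (n 0 z (n 0 z (n 0 z (n 6635571 z (n
 0 z (n 6635571 z (n 0 z z)))))))) (n 0 (n
 0x3eca88624078027f481581e7d78057f682f7df8067f37bd83e80e7f480c80e7f07e882b8137ed7ed80a80a7e38087ef7c08027f88068337ce8017fe81c7fc80d7e57fd7e380c8147eb7ee81c80d8077ff0811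
 z (n 6635571 z (n 0 z (n 0 z (n 82 z (n 0 z (n 0 z (n 90 z (n 98 z (n
 0xcc84c826037fa7fd82281f7bd82180f7ef7e77ed7f58018048077d181580d7f57dc8397da7fb7fb7fd80982e7e87f47da81c7ea8067ef8227f07e37fb80980a7ed7da8347e581b80b7dc81f81e8087fd0811
 z (n 6635571 z z))))))))))) z)))))) (n 33 (n 0 (n 0 z (n 143 (n 0 z (n 0 z (n 0 z (n 0 z (n 0 z
 (n 0 z (n 0 z (n 0 z z)))))))) (n 143 (n 0 z (n 0 z (n 0 z (n 0 z (n 0 z (n 0 z (n 0 z (n 2 (n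
 1 z (n 1 z (n 1 z (n 1 z (n 1 z (n 1 z (n 1 z (n 1 z (n 1 z z))))))))) z)))))))) (n 141 (n 0 z
 (n 0 z (n 0 z (n 2 (n 1 z (n 1 z (n 1 z (n 1 z (n 1 z (n 1 z (n 1 z (n 1 z z)))))))) (n 0 z (n
 0 z z)))))) (n 1209 (n 0 z (n 0 z (n 0 z (n 0 z (n 0 z (n 0 z (n 0 z (n 0 z (n 0 z (n 0 z (n 0
 z (n 0 z (n 0 z (n 0 z (n 0 z (n 0 z (n 0 z (n 0 z (n 0 z (n 0 z (n 0 z (n 0 z (n 0 z (n 0 z (n
 0 z (n 0 z (n 0 z (n 0 z (n 2 (n 0 z (n 0 z (n 0 z (n 2 (n 0 z (n 0 z (n 0 (n 532 z z) (n 0 z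
 (n 0 z (n 0 z z)))))) (n 2 (n 0 z (n 0 z (n 0 z (n 0 z (n 0 z (n 0 z z)))))) (n 2 (n 0 z (n 0 z
 (n 0 z (n 0 z (n 0 z (n 0 z z)))))) (n 2 (n 0 z (n 0 z (n 0 z (n 0 z (n 0 z (n 0 z z))))))
 z))))))) (n
 0x2ea8ca840781f81f7e08a185f8a18608208608208207e07de8207df8228218218618218207e08608208600801 z
 (n 0 z z))))))))))))))))))))))))))))))) (n 1209 (n 0 z (n 0 z (n 0 z (n 0 z (n 0 z (n 0 z (n 0
 z (n 0 z (n 0 z (n 0 z (n 0 z (n 0 z (n 0 z (n 0 z (n 0 z (n 0 z (n 2 (n 0 z (n 0 z (n 2 (n 0 z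
 (n 0 z (n 0 z (n 0 z (n 0 z (n 0 z z)))))) (n 2 (n 0 z (n 0 z (n 0 z (n 0 z (n 0 z (n 0 z
 z)))))) (n 2 (n 0 z (n 0 z (n 0 z (n 0 z (n 0 z (n 0 z z)))))) (n 2 (n 0 z (n 0 z (n 0 z (n 0 z
 (n 0 z (n 0 z z)))))) z)))))) (n 0 z (n 0 z (n 0 z (n 0 z (n 0 z (n 0 z (n 0 z (n 0 z (n 0 z (n
 0 z (n 0 z (n 0 z (n 0 z (n 0 z z))))))))))))))))))))))))))))))) (n 1209 (n 0 z (n 0 z (n 0 z
 (n 0 z (n 0 z (n 0 z (n 0 z (n 0 z (n 0 z (n 0 z (n 0 z (n 0 z (n 0 z (n 0 z (n 0 z (n 0 z (n 0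
 z (n 0 z (n 0 z (n 0 z (n 0 z (n 0 z (n 0 z (n 0 z (n 0 z (n 2 (n 0 z (n 1 z (n 2 (n 0 z (n 0 z
 (n 0 z (n 0 z (n 0 z (n 0 z z)))))) (n 2 (n 0 z (n 0 z (n 0 z (n 0 z (n 0 z (n 0 z z)))))) (n 1
 z z))))) (n 0 z (n 0 z (n 0 z (n 0 z (n 0 z z))))))))))))))))))))))))))))))) (n 1209 (n 0 z (n
 0 z (n 0 z (n 0 z (n 2 (n 1 z (n 2 (n 0 z (n 0 z (n 0 z (n 0 z (n 0 z (n 0 z z)))))) (n 1 z (n
 1 z z)))) (n 0 z (n 0 z (n 0 z (n 0 z (n 0 z (n 0 z (n 0 z (n 0 z (n 0 z (n 0 z (n 0 z (n 0 z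
 (n 0 z (n 0 z (n 0 z (n 0 z (n 0 z (n 0 z (n 0 z (n 0 z (n 0 z (n 0 z (n 0 z (n 0 z (n 0 z (n 0
 z z))))))))))))))))))))))))))))))) (n 133 (n 2 (n 1 z (n 1 z (n 1 z z))) (n 0 z (n 0 z (n 0 z
 z)))) (n 745 (n 0 z (n 0 z (n 0 z (n 0 z (n 0 z (n 0 z (n 0 z z))))))) (n 745 (n 0 z (n 0 z (n
 0 z (n 0 z (n 2 (n 0 z z) (n 0 z (n 0 z z))))))) (n 745 (n 0 z (n 0 z (n 0 z (n 0 z (n 0 z (n 0
 z (n 0 z z))))))) z)))))))))))) (n 0 (n 139 (n 0 z (n 0 z (n 0 z (n 0 z (n 2 (n 0 z (n 1 z (n 1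
 z (n 1 z (n 1 z (n 1 z (n 1 z (n 1 z (n 1 z (n 1 z z)))))))))) (n 0 z z)))))) (n 139 (n 0 z (n
 0 z (n 0 z (n 0 z (n 0 z (n 0 z z)))))) (n 135 (n 0 z (n 0 z (n 0 z (n 0 z (n 0 z (n 0 z
 z)))))) (n 195 (n 0 z (n 2 (n 0 z (n 0 z (n 0 z (n 1 z (n 2 (n 0 z (n 0 z (n 0 z (n 0 z (n 0 z
 (n 0 z z)))))) (n 2 (n 0 z (n 0 z (n 0 (n 3283051 z z) (n 0 z (n 0 z (n 0 z z)))))) (n 2 (n 0 z
 (n 0 z (n 0 (n 388 z z) (n 0 z (n 0 z (n 0 z z)))))) z))))))) (n 0 z (n 0 z (n 0 z (n 0 z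
 z)))))) (n 195 (n 2 (n 0 z (n 0 z (n 2 (n 0 z (n 0 z (n 0 (n 3283051 z z) (n 0 z (n 0 z (n 0 z
 z)))))) (n 2 (n 0 z (n 0 z (n 0 z (n 0 z (n 0 z (n 0 z z)))))) (n 2 (n 0 z (n 0 z (n 0 z (n 0 z
 (n 0 z (n 0 z z)))))) (n 2 (n 0 z (n 0 z (n 0 z (n 0 z (n 0 z (n 0 z z)))))) z)))))) (n 0 z (n
 0 z (n 0 z (n 0 z (n 0 z z)))))) (n 195 (n 0 z (n 0 z (n 0 z (n 0 z (n 0 z (n 0 z z)))))) (n
 195 (n 0 z (n 0 z (n 0 z (n 0 z (n 0 z (n 0 z z)))))) (n 133 (n 0 z (n 0 z (n 0 z (n 0 z (n 0 z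
 (n 0 z (n 0 z (n 0 z (n 0 z (n 0 z (n 0 z (n 0 z (n 0 z (n 0 z z)))))))))))))) (n 97 (n 0 z (n
 0 z (n 0 z (n 0 z (n 0 z (n 0 z (n 0 z (n 2 (n 0 z (n 0 z z)) (n 0 z z))))))))) (n 97 (n 0 z (n
 0 z (n 0 z (n 0 z (n 0 z (n 0 z (n 0 z (n 0 z (n 0 z z))))))))) (n 97 (n 0 z (n 0 z (n 0 z (n 0
 z (n 0 z (n 0 z (n 0 z (n 0 z (n 0 z z))))))))) z))))))))))) (n 0 (n 0 z (n 375 (n 0 z (n 2 (n
 1 z (n 1 z (n 1 z (n 1 z (n 1 z (n 1 z (n 1 z (n 1 z z)))))))) (n 0 z z))) (n 441 (n 0 z (n 0 z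
 (n 0 z (n 0 z (n 0 z (n 0 z (n 0 z (n 0 z (n 0 z (n 0 z (n 0 z (n 0 z (n 0 z (n 0 z (n 0 z (n 0
 z (n 0 z (n 0 z (n 0 z (n 0 z (n 0 z (n 0 z (n 0 z (n 0 z (n 0 z (n 0 z (n 2 (n 0 z (n 0 z (n 0
 z (n 1 z (n 2 (n 0 z (n 0 z (n 0 (n 8803363 z z) (n 0 z (n 0 z (n 0 z z)))))) (n 2 (n 0 z (n 0
 z (n 0 z (n 0 z (n 0 z (n 0 z z)))))) (n 2 (n 0 z (n 0 z (n 0 (n 3092 z z) (n 0 z (n 0 z (n 0 z
 z)))))) z))))))) (n 0 z (n 0 z (n 0 z (n 0 z (n 0 z z)))))))))))))))))))))))))))))))) (n 441 (n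
 0 z (n 0 z (n 0 z (n 0 z (n 0 z (n 0 z (n 0 z (n 0 z (n 0 z (n 0 z (n 0 z (n 0 z (n 0 z (n 0 z
 (n 0 z (n 0 z (n 0 z (n 0 z (n 0 z (n 0 z (n 2 (n 0 z (n 0 z (n 2 (n 0 z (n 0 z (n 0 z (n 0 z
 (n 0 z (n 0 z z)))))) (n 2 (n 0 z (n 0 z (n 0 z (n 0 z (n 0 z (n 0 z z)))))) (n 2 (n 0 z (n 0 z
 (n 0 z (n 0 z (n 0 z (n 0 z z)))))) (n 2 (n 0 z (n 0 z (n 0 z (n 0 z (n 0 z (n 0 z z))))))
 z)))))) (n 0 z (n 0 z (n 0 z (n 0 z (n 0 z (n 0 z (n 0 z (n 0 z (n 0 z (n 0 z (n 0 z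
 z)))))))))))))))))))))))))))))))) (n 441 (n 0 z (n 0 z (n 0 z (n 0 z (n 0 z (n 0 z (n 0 z (n 0
 z (n 0 z (n 0 z (n 0 z (n 0 z (n 0 z (n 0 z (n 0 z (n 0 z (n 0 z (n 0 z (n 0 z (n 0 z (n 0 z (n
 0 z (n 0 z (n 0 z (n 2 (n 0 z (n 1 z (n 2 (n 0 z (n 0 z (n 0 (n 8803363 z z) (n 0 z (n 0 z (n 0
 z z)))))) (n 2 (n 0 z (n 0 z (n 0 (n 8855819 z z) (n 0 z (n 0 z (n 0 z z)))))) (n 1 z z))))) (n
 0 z (n 0 z (n 0 z (n 0 z (n 0 z (n 0 z (n 0 z z)))))))))))))))))))))))))))))))) (n 441 (n 0 z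
 (n 0 z (n 0 z (n 0 z (n 0 z (n 0 z (n 0 z (n 0 z (n 0 z (n 0 z (n 0 z (n 0 z (n 0 z (n 0 z (n 0
 z (n 0 z (n 0 z (n 0 z (n 0 z (n 0 z (n 0 z (n 0 z (n 0 z (n 0 z (n 0 z (n 0 z (n 0 z (n 0 z (n
 0 z (n 0 z (n 0 z (n 0 z z)))))))))))))))))))))))))))))))) (n 373 (n 0 z (n 0 z (n 0 z (n 2 (n
 1 z (n 1 z (n 1 z z))) (n 0 z (n 0 z z)))))) (n 773 (n 0 z (n 0 z (n 0 z (n 0 z (n 0 z (n 0 z
 (n 0 z (n 0 z (n 0 z (n 0 z z)))))))))) (n 773 (n 0 z (n 0 z (n 0 z (n 0 z (n 0 z (n 0 z (n 2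
 (n 0 z z) (n 0 z (n 0 z (n 0 z z)))))))))) (n 773 (n 2 z (n 0 z (n 0 z (n 0 z (n 0 z (n 0 z (n
 0 z (n 0 z (n 0 z (n 0 z z)))))))))) z)))))))))) (n 0 (n 375 (n 0 z (n 0 z (n 0 z (n 0 z z))))
 (n 55 (n 0 z (n 0 z (n 0 z (n 0 z (n 0 z (n 0 z (n 0 z (n 0 z (n 0 z (n 2 (n 0 z (n 0 z (n 0 z
 (n 1 z (n 2 (n 0 z (n 0 z (n 0 z (n 0 z (n 0 z (n 0 z z)))))) (n 2 (n 0 z (n 0 z (n 0 (n
 8872707 z z) (n 0 z (n 0 z (n 0 z z)))))) (n 2 (n 0 z (n 0 z (n 0 (n 3092 z z) (n 0 z (n 0 z (n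
 0 z z)))))) z))))))) (n 0 z (n 0 z (n 0 z z))))))))))))) (n 55 (n 0 z (n 0 z (n 0 z (n 0 z (n 0
 z (n 0 z (n 0 z (n 0 z (n 0 z (n 0 z (n 0 z (n 0 z (n 2 (n 0 z (n 0 z (n 2 (n 0 z (n 0 z (n 0
 (n 8872707 z z) (n 0 z (n 0 z (n 0 z z)))))) (n 2 (n 0 z (n 0 z (n 0 z (n 0 z (n 0 z (n 0 z
 z)))))) (n 2 (n 0 z (n 0 z (n 0 z (n 0 z (n 0 z (n 0 z z)))))) (n 2 (n 0 z (n 0 z (n 0 z (n 0 z
 (n 0 z (n 0 z z)))))) z)))))) z))))))))))))) (n 55 (n 0 z (n 0 z (n 0 z (n 0 z (n 0 z (n 0 z (n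
 0 z (n 0 z (n 0 z (n 0 z (n 0 z (n 0 z (n 0 z z))))))))))))) (n 55 (n 0 z (n 0 z (n 0 z (n 0 z
 (n 0 z (n 0 z (n 0 z (n 0 z (n 0 z (n 0 z (n 0 z (n 0 z (n 0 z z))))))))))))) (n 373 (n 0 z (n
 0 z (n 0 z (n 0 z (n 0 z (n 0 z (n 0 z (n 0 z (n 0 z (n 0 z (n 0 z (n 0 z (n 0 z (n 0 z (n 0 z
 (n 0 z z)))))))))))))))) (n 773 (n 0 z (n 0 z (n 0 z (n 0 z (n 0 z (n 0 z (n 0 z (n 0 z (n 2 (n
 0 z (n 0 z z)) (n 0 z (n 0 z z))))))))))) (n 773 (n 0 z (n 0 z (n 0 z (n 0 z (n 0 z (n 0 z (n 0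
 z (n 0 z (n 0 z (n 0 z (n 0 z z))))))))))) (n 773 (n 0 z (n 0 z (n 0 z (n 0 z (n 0 z (n 0 z (n
 0 z (n 0 z (n 0 z (n 0 z (n 0 z z))))))))))) z))))))))) (n 0 (n 251 (n 2 (n 0 z (n 0 z (n 0 z
 (n 1 z (n 2 (n 0 z (n 0 z (n 0 z (n 0 z (n 0 z (n 0 z z)))))) (n 1 z (n 1 z z))))))) (n 0 z (n
 0 z (n 0 z (n 0 z (n 0 z (n 0 z z))))))) (n 251 (n 0 z (n 0 z (n 2 (n 0 z (n 0 z (n 1 z (n 2 (n
 0 z (n 0 z (n 0 z (n 0 z (n 0 z (n 0 z z)))))) (n 2 (n 0 z (n 0 z (n 0 z (n 0 z (n 0 z (n 0 z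
 z)))))) (n 2 (n 0 z (n 0 z (n 0 z (n 0 z (n 0 z (n 0 z z)))))) z)))))) (n 0 z (n 0 z (n 0 z (n
 0 z z))))))) (n 251 (n 0 z (n 0 z (n 0 z (n 0 z (n 0 z (n 0 z (n 0 z z))))))) (n 251 (n 0 z (n
 0 z (n 0 z (n 0 z (n 0 z (n 0 z (n 0 z z))))))) (n 613 (n 0 z (n 0 z (n 0 z (n 0 z (n 0 z (n 0
 z (n 0 z z))))))) (n 1 (n 0 z (n 0 z (n 0 z (n 2 (n 0 z (n 0 z z)) (n 0 z (n 0 z (n 0 z
 z))))))) (n 1 (n 0 z (n 0 z (n 0 z (n 0 z (n 0 z (n 0 z (n 0 z z))))))) (n 1 (n 0 z (n 0 z (n 0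
 z (n 0 z (n 2 z (n 0 z (n 0 z z))))))) z)))))))) (n 0 (n 0 z (n 0 z (n 0 z (n 3 (n 0 z (n 2 (n
 2 (n 0 z (n 0 z (n 0 z (n 0 z (n 0 z (n 0 z z)))))) (n 1 z (n 1 z z))) (n 0 z (n 0 z (n 0 z (n
 0 z (n 0 z (n 0 z (n 0 z (n 0 z (n 0 z (n 0 z (n 0 z (n 0 z (n 0 z z))))))))))))))) (n 1 (n 0 z
 (n 0 z (n 2 (n 0 z (n 0 z z)) (n 0 z (n 0 z (n 0 z (n 0 z (n 0 z (n 0 z (n 0 z (n 0 z
 z))))))))))) (n 1 (n 0 z (n 0 z (n 0 z (n 0 z (n 0 z (n 0 z (n 2 (n 0 z z) (n 0 z (n 0 z (n 0 z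
 (n 0 z z))))))))))) (n 1 (n 0 z (n 0 z (n 0 z (n 0 z (n 0 z (n 0 z (n 0 z (n 2 z (n 0 z (n 0 z
 (n 0 z z))))))))))) z))))))) (n 0 (n 0 z (n 0 z (n 51 (n 2 (n 2 (n 0 z (n 0 z (n 0 z (n 0 z (n
 0 z (n 0 z z)))))) (n 2 (n 0 z (n 0 z (n 0 (n 8872707 z z) (n 0 z (n 0 z (n 0 z z)))))) (n 2 (n
 0 z (n 0 z (n 0 (n 8521579 z z) (n 0 z (n 0 z (n 0 z z)))))) z))) (n 0 z (n 0 z (n 0 z (n 0 z
 (n 0 z (n 0 z z))))))) (n 49 (n 0 z (n 0 z (n 0 z (n 2 (n 0 z (n 0 z z)) (n 0 z (n 0 z (n 0 z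
 (n 0 z (n 0 z (n 0 z (n 0 z z))))))))))) (n 49 (n 0 z (n 0 z (n 0 z (n 0 z (n 0 z (n 0 z (n 0 z
 (n 0 z (n 2 (n 0 z z) (n 0 z (n 0 z z))))))))))) (n 49 (n 0 z (n 0 z (n 0 z (n 0 z (n 2 z (n 0
 z (n 0 z (n 0 z (n 0 z (n 0 z (n 0 z z))))))))))) z)))))) (n 0 (n 0 z (n 243 (n 0 z (n 0 z (n 0
 z (n 0 z (n 0 z (n 0 z (n 0 z (n 0 z (n 0 z (n 0 z (n 0 z (n 0 z z)))))))))))) (n 1 (n 0 z (n 0
 z (n 0 z (n 0 z (n 2 (n 0 z (n 0 z z)) (n 0 z (n 0 z (n 0 z z)))))))) (n 1 (n 0 z (n 0 z (n 0 z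
 (n 0 z (n 0 z (n 0 z (n 0 z (n 0 z z)))))))) (n 1 (n 0 z (n 0 z (n 0 z (n 0 z (n 0 z (n 2 z (n
 0 z (n 0 z z)))))))) z))))) (n 0 (n 255 (n 0 z (n 0 z (n 0 z (n 0 z (n 0 z (n 0 z (n 0 z
 z))))))) (n 13 (n 0 z (n 0 z (n 0 z (n 0 z (n 2 (n 0 z (n 0 z z)) (n
 0x4ec8ec840376181f82089e85f8de81f7e086082081f86181f8a08207e18208207e18607e28208607a189f0801 z
 (n 0 z (n 0 z (n 0 z (n 0 z z)))))))))) (n 13 (n 0 z (n 0 z (n 0 z (n 0 z (n 0 z (n 0 z (n 0 z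
 (n 0 z (n 0 z (n 0 z z)))))))))) (n 13 (n 0 z (n 0 z (n 0 z (n 0 z (n 0 z (n 0 z (n 0 z (n 0 z
 (n 0 z (n 0 z z)))))))))) z)))) (n 0 (n 5 (n 2 (n 0 z (n 0 z z)) (n 0 z (n 0 z (n 0 z (n 0 z (n
 0 z (n 0 z (n 0 z (n 0 z (n 0 z (n 0 z z))))))))))) (n 5 (n 0 z (n 0 z (n 0 z (n 0 z (n 0 z (n
 0 z (n 0 z (n 0 z (n 0 z (n 0 z (n 0 z z))))))))))) (n 5 (n 0 z (n 0 z (n 0 z (n 0 z (n 0 z (n
 0 z (n 0 z (n 0 z (n 0 z (n 0 z (n 0 z z))))))))))) z))) (n 0 (n 0 z (n 0 z z)) (n 0 (n 0 z z)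
 (n 0 z z))))))))))))) (n 0 (n 1 (n 1244 z (n 1244 z (n 1244 z (n 1244 z (n 76 z (n 6554139 z
 z)))))) (n 1 (n 1244 z (n 2 z (n 1244 z (n 6554139 z (n 1244 z (n 1244 z z)))))) (n 0 z (n 0 z
 (n 1 (n 6627651 z (n 6627651 z (n 6627651 z (n 6627651 z (n 6627651 z (n 6627651 z z))))))
 z))))) (n 0 (n 0x221d65508b13988953261c21261d40 (n 0 (n 0 (n 7741707 z (n 7741707 z (n 7741707
 z (n 7741707 z (n 7741707 z (n 7741707 z z)))))) z) (n 0 (n 69 (n 0 z (n 0 z (n 1 (n 7684147 z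
 (n 7684147 z (n 7684147 z (n 7684147 z (n 7684147 z (n 7684147 z z)))))) (n 0 z (n 1 (n 6631795
 z (n 5445483 z (n 1244 z (n 6428507 z (n 2 z (n 7602715 z z)))))) (n 1 (n 7676227 z (n 7676227
 z (n 7676227 z (n 7676227 z (n 7676227 z (n 7676227 z z)))))) z)))))) (n 187 (n 1 (n 6632051 z
 (n 1516 z (n 1516 z (n 5449579 z (n 1516 z (n 10 z z)))))) (n 0 z (n 1 (n 7676227 z (n 7676227
 z (n 7676227 z (n 7676227 z (n 7676227 z (n 7676227 z z)))))) (n 1 (n 7676227 z (n 7676227 z (n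
 7676227 z (n 7676227 z (n 7676227 z (n 7676227 z z)))))) z)))) (n 307 (n 1 (n 6631795 z (n
 5445483 z (n 2476 z (n 7741707 z (n 76 z (n 2476 z z)))))) (n 0 z (n 1 (n 7676227 z (n 7676227
 z (n 7676227 z (n 7676227 z (n 7676227 z (n 7676227 z z)))))) (n 1 (n 7676227 z (n 7676227 z (n
 7676227 z (n 7676227 z (n 7676227 z (n 7676227 z z)))))) z)))) (n 465 (n 1 (n 6620971 z (n 18 z
 (n 268 z (n 268 z (n 7741707 z (n 268 z z)))))) (n 1 (n 6620955 z (n 26 z (n 268 z (n 7741707 z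
 (n 268 z (n 268 z z)))))) (n 1 (n 4331323 z (n 2164539 z (n 7741707 z (n 4331323 z (n 4331323 z
 (n 4331323 z z)))))) (n 1 (n 7602715 z (n 6426739 z (n 7602715 z (n 7602715 z (n 7602715 z (n
 7602715 z z)))))) (n 1 (n 7741707 z (n 4331275 z (n 4331275 z (n 4331275 z (n 4331275 z (n
 4331275 z z)))))) (n 1 (n 268 z (n 268 z (n 268 z (n 1052 z (n 7741707 z (n 268 z z))))))
 z)))))) (n 570 (n 1 (n 7741707 z (n 7741707 z (n 7741707 z (n 7741707 z (n 7741707 z (n 7741707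
 z z)))))) (n 0 z (n 1 (n 4588 z (n 7602715 z (n 4588 z (n 4588 z (n 4588 z (n 4588 z z)))))) (n
 0 z (n 0 z (n 1 (n 7684147 z (n 7684147 z (n 7684147 z (n 7684147 z (n 7684147 z (n 7684147 z
 z)))))) (n 0 z z))))))) (n 21 (n 1 (n 5452 z (n 5452 z (n 5452 z (n 7602715 z (n 5452 z (n 5452
 z z)))))) (n 1 (n 7684147 z (n 7684147 z (n 7684147 z (n 7684147 z (n 7684147 z (n 7684147 z
 z)))))) (n 0 z (n 1 (n 5452 z (n 5452 z (n 5452 z (n 5452 z (n 7602715 z (n 34 z z)))))) (n 1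
 (n 5452 z (n 7602715 z (n 5452 z (n 4331371 z (n 5452 z (n 5452 z z)))))) (n 1 (n 7684147 z (n
 7684147 z (n 7684147 z (n 7684147 z (n 7684147 z (n 7684147 z z)))))) (n 1 (n 7676227 z (n
 7676227 z (n 7676227 z (n 7676227 z (n 7676227 z (n 7676227 z z)))))) z))))))) (n 33 (n 1 (n
 1244 z (n 5445483 z (n 1244 z (n 7741707 z (n 76 z (n 7602715 z z)))))) (n 1 (n 3278699 z (n
 7741707 z (n 3278699 z (n 7602715 z (n 3278699 z (n 3278699 z z)))))) (n 0 z (n 0 z (n 1 (n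
 7676227 z (n 7676227 z (n 7676227 z (n 7676227 z (n 7676227 z (n 7676227 z z)))))) z)))))
 z))))))) (n 0 (n 0 (n 0 z (n 0 z (n 0 z (n 0 z (n 0 z z))))) (n 0 (n 0 z (n 0 z (n 0 z (n 0 z
 z)))) (n 0 (n 0 z (n 0 z (n 0 z z))) (n 0 (n 0 z (n 0 z z)) (n 0 (n 0 z z) z))))) (n 0 (n 189
 (n 0 (n 0 z (n 0 z (n 0 z (n 0 z (n 0 z z))))) (n 0 (n 0 z (n 0 z (n 0 z (n 0 (n
 0x166c3180418637fe8107d680889c8038478127b58277e984980281e7647a77e48497c577a8cb7f38547937e88518207907cf8097c587f82d7ad8a97bd8408147ea8487b384d7f77f47d681f7cb8767907fd0091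
 z z) (n 0 z z))))) (n 0 (n 0 z (n 0 z (n 0 z (n 0 z (n 0 z z))))) (n 0 (n 0 z (n 0 z (n 0 z (n
 0 (n 8732723 z z) (n 0 z z))))) (n 0 (n 0 z (n 0 z (n 0 z (n 0 z (n 0 z z))))) (n 0 (n 0 z (n 0
 z (n 0 z (n 0 (n 8724803 z z) (n 0 z z))))) z)))))) (n 309 (n 0 (n 0 z (n 0 z (n 0 z (n 0 z (n
 0 z z))))) (n 0 (n 0 z (n 0 z (n 0 z (n 0 z (n 0 z z))))) (n 0 (n 0 z (n 0 z (n 0 z (n 0 z (n 0
 z z))))) (n 0 (n 0 z (n 0 z (n 0 z (n 0 z (n 0 z z))))) (n 0 (n 0 z (n 0 z (n 0 z (n 0 z (n 0 z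
 z))))) (n 0 (n 0 z (n 0 z (n 0 z (n 0 z (n 0 z z))))) z)))))) (n 307 (n 0 (n 0 z (n 0 z (n 0 z
 (n 0 z (n 0 z z))))) (n 0 (n 0 z (n 0 z (n 0 z (n 0 (n 8724803 z z) (n 0 z z))))) (n 0 (n 0 z
 (n 0 z (n 0 z (n 0 (n 8724803 z z) (n 0 z z))))) (n 0 (n 0 z (n 0 z (n 0 z (n 0 z (n 0 z z)))))
 z)))) (n 465 (n 0 (n 0 z (n 0 z (n 0 z (n 0 z (n 0 z z))))) (n 0 (n 0 z (n 0 z (n 0 z (n 0 z (n
 0 z z))))) (n 0 (n 0 z (n 0 z (n 0 z (n 0 z (n 0 z z))))) (n 0 (n 0 z (n 0 z (n 0 z (n 0 z (n 0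
 z z))))) (n 0 (n 0 z (n 0 z (n 0 z (n 0 z (n 0 z z))))) (n 0 (n 0 z (n 0 z (n 0 z (n 0 z (n 0 z
 z))))) z)))))) (n 33 (n 0 (n 0 z (n 0 z (n 0 z (n 0 z (n 0 z z))))) (n 0 (n 0 z (n 0 z (n 0 z
 (n 0 z (n 0 z z))))) (n 0 (n 0 z (n 0 z (n 0 z (n 0 (n 6629435 z (n 6629435 z z)) (n 0 z z)))))
 (n 0 (n 0 z (n 0 z (n 0 (n
 0x7d8208608ab6a3ad17dc7346e15a671c4e375c96482d6e296777255b8585a47e927b72395f99d7a20041 z z) (n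
 0 z (n 0 z z))))) (n 0 (n 0 z (n 0 z (n 0 z (n 0 z (n 0 z z))))) (n 0 (n 0 (n 8868899 z z) (n 0
 z (n 0 z (n 0 z (n 0 z z))))) (n 0 (n 0 z (n 0 z (n 0 z (n 0 z (n 0 z z))))) (n 0 (n 0 z (n 0 z
 (n 0 z (n 0 z (n 0 z z))))) (n 0 (n 0 (n 8868899 z (n 8868899 z z)) (n 0 z (n 0 z (n 0 (n
 8851555 z (n 8851555 z z)) (n 0 z z))))) (n 0 (n 0 z (n 0 z (n 0 z (n 0 z (n 0 z z))))) (n 0 (n
 0 z (n 0 z (n 0 z (n 0 (n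
 0x10eb0a84078208208208208208608208208208208208208208208208208208208208208207e08208208200801 z
 z) (n 0 z z))))) (n 0 (n 0 z (n 0 z (n 0 z (n 0 z (n 0 z z))))) (n 0 (n 0 z (n 0 z (n 0 z (n 0
 z (n 0 z z))))) z))))))))))))) (n 131 (n 0 (n 0 z (n 0 z (n 0 z (n 0 z (n 0 z z))))) (n 0 (n 0
 z (n 0 z (n 0 z (n 0 z (n 0 z z))))) (n 0 (n 0 z (n 0 z (n 0 z (n 0 z (n 0 z z))))) (n 0 (n 0 z
 (n 0 z (n 0 z (n 0 z (n 0 z z))))) (n 0 (n 0 z (n 0 z (n 0 z (n 0 z (n 0 z z))))) (n 0 (n 0 z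
 (n 0 z (n 0 (n 8724803 z z) (n 0 z (n 0 z z))))) (n 0 (n 0 z (n 0 z (n 0 z (n 0 z (n 0 z z)))))
 z))))))) (n 573 (n 0 (n 0 z (n 0 z (n 0 z (n 0 z (n 0 z z))))) (n 0 (n 0 z (n 0 z (n 0 z (n 0
 (n
 0x1658658007fa8138128257f78068187f080f7f87f68148077bf7f97ef8107ea7f18228018207e17f383f7f07e77f28067e58048027ca83581d80782a7e280e7ec85380b7ff7e47f37ff82c7ff7ff0051
 z z) (n 0 z z))))) (n 0 (n 0 z (n 0 z (n 0 z (n 0 z (n 0 z z))))) (n 0 (n 0 z (n 0 z (n 0 z (n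
 0 z (n 0 z z))))) (n 0 (n 0 z (n 0 z (n 0 z (n 0 (n
 0x30eb0ea4037a182085e81f82085f81f8208618618208618208608217df81f7e07e08207e18208208218600801 z
 z) (n 0 z z))))) (n 0 (n 0 z (n 0 z (n 0 z (n 0 (n
 0x30a8ea64038608208208208207e08208208208208208208208208208208208208208208608208208208200801 z
 z) (n 0 z z))))) (n 0 (n 0 z (n 0 z (n 0 z (n 0 (n 8851555 z (n 8851555 z z)) (n 0 z z))))) (n
 0 (n 0 z (n 0 z (n 0 z (n 0 (n 8851555 z z) (n 0 z z))))) (n 0 (n 0 z (n 0 z (n 0 z (n 0 z (n 0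
 z z))))) (n 0 (n 0 z (n 0 z (n 0 z (n 0 z (n 0 z z))))) (n 0 (n 0 z (n 0 z (n 0 z (n 0 z (n 0 z
 z))))) (n 0 (n 0 z (n 0 z (n 0 z (n 0 z (n 0 z z))))) (n 0 (n 0 z (n 0 z (n 0 z (n 0 z (n 0 z
 z))))) (n 0 (n 0 z (n 0 z (n 0 z (n 0 z (n 0 z z))))) z)))))))))))))) (n 571 (n 0 (n 0 z (n 0 z
 (n 0 (n 3278875 z z) (n 0 z (n 0 z z))))) (n 0 (n 0 z (n 0 z (n 0 z (n 0 z (n 0 z z))))) (n 0
 (n 0 z (n 0 z (n 0 z (n 0 z (n 0 z z))))) (n 0 (n 0 z (n 0 z (n 0 (n 8872707 z (n 8872707 z z))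
 (n 0 z (n 0 (n 8868707 z (n 8868707 z z)) z))))) (n 0 (n 0 z (n 0 z (n 0 z (n 0 z (n 0 (n
 8791899 z z) z))))) (n 0 (n 0 z (n 0 z (n 0 z (n 0 z (n 0 z z))))) (n 0 (n 0 z (n 0 z (n 0 z (n
 0 z (n 0 z z))))) (n 0 (n 0 z (n 0 z (n 0 z (n 0 z (n 0 z z))))) (n 0 (n 0 z (n 0 z (n 0 z (n 0
 z (n 0 z z))))) (n 0 (n 0 z (n 0 (n
 0xdd8638007fc80c80b8177fa80380f7f680a7fb7fa80d8047d77fc7f580a7f37f68168008167ec7f88287f67f07f88047ef8028017dd82281380481b7ed8097f48358077fe7ee7f77ff81c8007ff0051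
 z (n
 0x1658638007fa8138128257f78068187f080f7f87f68148077bf7f97ef8107ea7f18228018207e17f383f7f07e77f28067e58048027ca83581d80782a7e280e7ec85380b7ff7e47f37ff82c7ff7ff0051
 z z)) (n 0 z (n 0 z (n 0 z z))))) (n 0 (n 0 z (n 0 (n 8730475 z z) (n 0 z (n 0 z (n 0 z z)))))
 (n 0 (n 0 z (n 0 z (n 0 z (n 0 z (n 0 z z))))) (n 0 (n 0 z (n 0 z (n 0 z (n 0 z (n 0 z z)))))
 (n 0 (n 0 z (n 0 z (n 0 z (n 0 z (n 0 z z))))) (n 0 (n 0 z (n 0 z (n 0 z (n 0 z (n 0 (n 8868899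
 z z) z))))) (n 0 (n 0 z (n 0 z (n 0 z (n 0 z (n 0 z z))))) z)))))))))))))))) (n 570 (n 0 (n 0 z
 (n 0 z (n 0 z (n 0 z (n 0 z z))))) (n 0 (n 0 z (n 0 z (n 0 z (n 0 z (n 0 z z))))) (n 0 (n 0 z
 (n 0 z (n 0 z (n 0 z (n 0 z z))))) (n 0 (n 0 z (n 0 z (n 0 z (n 0 z (n 0 z z))))) (n 0 (n 0 z
 (n 0 z (n 0 z (n 0 z (n 0 z z))))) (n 0 (n 0 z (n 0 z (n 0 z (n 0 z (n 0 z z))))) (n 0 (n 0 z
 (n 0 z (n 0 z (n 0 z (n 0 z z))))) z))))))) (n 123 (n 0 (n 0 z (n 0 z (n 0 z (n 0 z (n 0 z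
 z))))) (n 0 (n 0 z (n 0 z (n 0 z (n 0 z (n 0 z z))))) (n 0 (n 0 z (n 0 z (n 0 z (n 0 z (n 0 z
 z))))) (n 0 (n 0 z (n 0 z (n 0 z (n 0 z (n 0 z z))))) (n 0 (n 0 z (n 0 z (n 0 z (n 0 z (n 0 z
 z))))) (n 0 (n 0 z (n 0 z (n 0 z (n 0 z (n 0 z z))))) (n 0 (n 0 z (n 0 z (n 0 z (n 0 z (n 0 z
 z))))) (n 0 (n 0 z (n 0 z (n 0 z (n 0 z (n 0 z z))))) (n 0 (n 0 z (n 0 z (n 0 z (n 0 z (n 0 z
 z))))) (n 0 (n 0 z (n 0 z (n 0 z (n 0 z (n 0 z z))))) (n 0 (n 0 z (n 0 z (n 0 z (n 0 z (n 0 z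
 z))))) (n 0 (n 0 z (n 0 z (n 0 z (n 0 z (n 0 z z))))) z)))))))))))) (n 681 (n 0 (n 0 z (n 0 z
 (n 0 z (n 0 z (n 0 z z))))) (n 0 (n 0 z (n 0 z (n 0 z (n 0 z (n 0 z z))))) (n 0 (n 0 (n 8730475
 z (n
 0x1658738007fa8138128257f78068187f080f7f87f68148077bf7f97ef8107ea7f18228018207e17f383f7f07e77f28067e58048027ca83581d80782a7e280e7ec85380b7ff7e47f37ff82c7ff7ff0051
 z z)) (n 0 (n 0xec90a84030821 z (n
 0x1658738007fa8138128257f78068187f080f7f87f68148077bf7f97ef8107ea7f18228018207e17f383f7f07e77f28067e58048027ca83581d80782a7e280e7ec85380b7ff7e47f37ff82c7ff7ff0051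
 z z)) (n 0 z (n 0 z (n 0 z z))))) (n 0 (n 0 z (n 0 z (n 0 z (n 0 z (n 0 z z))))) (n 0 (n 0 z (n
 0 z (n 0 z (n 0 z (n 0 z z))))) (n 0 (n 0 z (n 0 z (n 0 z (n 0 z (n 0 z z))))) (n 0 (n 0 z (n 0
 (n 0xec90a84030821 z (n 8521547 z z)) (n 0 z (n 0 (n
 0x7d8748608ab6a3ad17dc7346e15a671c4e375c96482d6e296777255b8585a47e927b72395f99d7a20041 z (n
 0xec90a840782086086081f82081f8208207e08208208608208608207e07e081f8218608217e08208208600801 z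
 z)) (n 0 z z))))) (n 0 (n 0 z (n 0 z (n 0 z (n 0 z (n 0 z z))))) (n 0 (n 0 z (n 0 z (n 0 z (n 0
 z (n 0 z z))))) z))))))))) (n 461 (n 0 (n 0 z (n 0 z (n 0 (n 8724803 z z) (n 0 z (n 0 z z)))))
 (n 0 (n 0 z (n 0 z (n 0 z (n 0 z (n 0 z z))))) (n 0 (n 0 z (n 0 z (n 0 (n
 0x166c3a00418747fe8107d680889c8038478127b58277e984980281e7647a77e48497c577a8cb7f38547937e88518207907cf8097c587f82d7ad8a97bd8408147ea8487b384d7f77f47d681f7cb8767907fd0091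
 z (n 8804139 z z)) (n 0 (n 7735339 z (n
 0x1d87081f8a18607a07e08208207e07e082082086081f8608617e07e08207e27e08608208208208600041 z z)) (n
 0 (n
 0x30e8ec840386082086081f82081f82082082082082082082086082082082081f8218208218218208208200801 z
 (n 0x30e8ec840385f82085f8208218208208208608218208608208208207e086181f8218208207e08208208200801
 z z)) z))))) (n 0 (n 0 z (n 0 z (n 0 z (n 0 z (n 0 z z))))) (n 0 (n 0 z (n 0 z (n 0 z (n 0 z (n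
 0 z z))))) (n 0 (n 0 z (n 0 (n 8521547 z (n
 0x50e90e84037a182086085f82085f7df82081f82082082282082082082182082082081f7e18608208208600801 z
 z)) (n 0 z (n 0 (n
 0x30c90c84037a185f8a081e82085f7e081f7e08208208608208608607e17e081f8218607e182081f8208600801 z
 (n 0xec90a840782086086085e82081f8208208208218208608208618618207e081f82181f82182081f8208600801 z
 z)) (n 0 z z))))) (n 0 (n 0 z (n 0 z (n 0 z (n 0 z (n 0 z z))))) (n 0 (n 0 z (n 0 z (n 0 z (n 0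
 z (n 0 z z))))) (n 0 (n 0 z (n 0 z (n 0 z (n 0 z (n 0 z z))))) (n 0 (n 0 z (n 0 z (n 0 z (n 0 z
 (n 0 z z))))) (n 0 (n 0 z (n 0 z (n 0 z (n 0 z (n 0 z z))))) z))))))))))) (n 21 (n 0 (n 0 z (n
 0 z (n 0 z (n 0 z (n 0 z z))))) (n 0 (n 0 z (n 0 z (n 0 z (n 0 z (n 0 z z))))) (n 0 (n 0 z (n 0
 z (n 0 (n
 0x166c3a00418747fe8107d680889c8038478127b58277e984980281e7647a77e48497c577a8cb7f38547937e88518207907cf8097c587f82d7ad8a97bd8408147ea8487b384d7f77f47d681f7cb8767907fd0091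
 z (n
 0x90a4ec280781f86281f7e18607208de7e08608a285e8a182089d89f7de7df7a17e281f8a181f8618218610801 z
 z)) (n 0 (n 7735339 z (n
 0x1d87081f8a18607a07e08208207e07e082082086081f8608617e07e08207e27e08608208208208600041 z z)) (n
 0 (n
 0x30e4ec280382082082081f82081f8208208208208218208208208208208208208208208208208208208200801 z
 (n 0x30e4ec280382082086081f82082082082082082082086081f82082082082081f8218208208208208208200801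
 z z)) z))))) (n 0 (n 0 z (n 0 z (n 0 z (n 0 z (n 0 z z))))) (n 0 (n 0 z (n 0 z (n 0 z (n 0 z (n
 0 z z))))) (n 0 (n 0 z (n 0 z (n 0 z (n 0 z (n 0 z z))))) (n 0 (n 0 z (n 0 z (n 0 z (n 0 z (n 0
 z z))))) z))))))) (n 5 (n 0 (n 0 z (n 0 z (n 0 z (n 0 z (n 0 z z))))) (n 0 (n 0 z (n 0 z (n 0 z
 (n 0 z (n 0 z z))))) (n 0 (n 0 z (n 0 z (n 0 z (n 0 z (n 0 z z))))) (n 0 (n 0 (n
 0xec90a84038208208208208207e18208208208208208208208208208208208208208208208207e08208200801 z z)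
 (n 0 z (n 0 z (n 0 z (n 0 z z))))) (n 0 (n 0 z (n 0 z (n 0 z (n 0 z (n 0 z z))))) (n 0 (n 0 z
 (n 0 z (n 0 z (n 0 z (n 0 z z))))) (n 0 (n 0 z (n 0 z (n 0 z (n 0 (n 8804123 z z) (n 0 z z)))))
 (n 0 (n 0 z (n 0 z (n 0 z (n 0 z (n 0 z z))))) z)))))))) (n 4 (n 0 (n 0 z (n 0 z (n 0 z (n 0 z
 (n 0 z z))))) (n 0 (n 0 z (n 0 z (n 0 z (n 0 z (n 0 z z))))) (n 0 (n 0 z (n 0 z (n 0 z (n 0 z
 (n 0 z z))))) (n 0 (n 0 z (n 0 z (n 0 z (n 0 z (n 0 z z))))) (n 0 (n 0 z (n 0 z (n 0 z (n 0 z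
 (n 0 z z))))) (n 0 (n 0 z (n 0 z (n 0 z (n 0 z (n 0 z z))))) (n 0 (n 0 z (n 0 z (n 0 z (n 0 z
 (n 0 z z))))) (n 0 (n 0 z (n 0 z (n 0 z (n 0 z (n 0 z z))))) (n 0 (n 0 z (n 0 z (n 0 z (n 0 z
 (n 0 z z))))) (n 0 (n 0 z (n 0 z (n 0 z (n 0 z (n 0 z z))))) (n 0 (n 0 z (n 0 z (n 0 z (n 0 z
 (n 0 z z))))) z))))))))))) (n 155 (n 0 (n 0 z (n 0 z (n 0 z (n 0 z (n 0 z z))))) (n 0 (n 0 z (n
 0 z (n 0 z (n 0 z (n 0 z z))))) (n 0 (n 0 z (n 0 z (n 0 z (n 0 z (n 0 z z))))) (n 0 (n 0 z (n 0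
 z (n 0 z (n 0 z (n 0 z z))))) (n 0 (n 0 z (n 0 z (n 0 z (n 0 z (n 0 z z))))) (n 0 (n 0 z (n 0 z
 (n 0 z (n 0 z (n 0 z z))))) (n 0 (n 0 z (n 0 z (n 0 z (n 0 z (n 0 z z))))) z))))))) (n 33 (n 0
 (n 0 z (n 0 z (n 0 z (n 0 z (n 0 z z))))) (n 0 (n 0 z (n 0 z (n 0 z (n 0 z (n 0 z z))))) (n 0
 (n 0 z (n 0 z (n 0 z (n 0 (n 4401259 z z) (n 0 z z))))) (n 0 (n 0 z (n 0 z (n 0 z (n 0 (n
 0x1658208007fa8138128257f78068187f080f7f87f68148077bf7f97ef8107ea7f18228018207e17f383f7f07e77f28067e58048027ca83581d80782a7e280e7ec85380b7ff7e47f37ff82c7ff7ff0051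
 z z) (n 0 z z))))) (n 0 (n 0 z (n 0 z (n 0 z (n 0 (n 8724803 z z) (n 0 z z))))) z))))) (n 9 (n
 0 (n 0 z (n 0 z (n 0 z (n 0 z (n 0 z z))))) (n 0 (n 0 z (n 0 z (n 0 z (n 0 z (n 0 z z))))) (n 0
 (n 0 z (n 0 z (n 0 z (n 0 z (n 0 z z))))) (n 0 (n 0 z (n 0 z (n 0 z (n 0 z (n 0 z z))))) (n 0
 (n 0 z (n 0 z (n 0 z (n 0 z (n 0 z z))))) z))))) (n 125 (n 0 (n 0 z (n 0 z (n 0 z (n 0 z (n 0 z
 z))))) (n 0 (n 0 z (n 0 z (n 0 z (n 0 z (n 0 z z))))) (n 0 (n 0 z (n 0 z (n 0 z (n 0 z (n 0 z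
 z))))) (n 0 (n 0 z (n 0 z (n 0 z (n 0 z (n 0 z z))))) (n 0 (n 0 z (n 0 z (n 0 z (n 0 z (n 0 z
 z))))) (n 0 (n 0 z (n 0 z (n 0 z (n 0 z (n 0 (n 8860683 z z) z))))) (n 0 (n 0 z (n 0 z (n 0 z
 (n 0 z (n 0 z z))))) (n 0 (n 0 z (n 0 z (n 0 z (n 0 z (n 0 z z))))) (n 0 (n 0 z (n 0 z (n 0 (n
 0x166c1000418207fe8107d680889c8038478127b58277e984980281e7647a77e48497c577a8cb7f38547937e88518207907cf8097c587f82d7ad8a97bd8408147ea8487b384d7f77f47d681f7cb8767907fd0091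
 z (n 0x1d87081f8a18607a07e08208207e07e082082086081f8608617e07e08207e27e08608208208208600041 z
 z)) (n 0 z (n 0 (n
 0x166c1000418207fe8107d680889c8038478127b58277e984980281e7647a77e48497c577a8cb7f38547937e88518207907cf8097c587f82d7ad8a97bd8408147ea8487b384d7f77f47d681f7cb8767907fd0091
 z (n
 0x166c1000418207fe8107d680889c8038478127b58277e984980281e7647a77e48497c577a8cb7f38547937e88518207907cf8097c587f82d7ad8a97bd8408147ea8487b384d7f77f47d681f7cb8767907fd0091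
 z z)) z))))) (n 0 (n 0 z (n 0 z (n 0 (n 8804139 z z) (n 0 z (n 0 (n
 0x166c1000418207fe8107d680889c8038478127b58277e984980281e7647a77e48497c577a8cb7f38547937e88518207907cf8097c587f82d7ad8a97bd8408147ea8487b384d7f77f47d681f7cb8767907fd0091
 z z) z))))) (n 0 (n 0 z (n 0 z (n 0 z (n 0 z (n 0 (n
 0x7d8208608ab6a3ad17dc7346e15a671c4e375c96482d6e296777255b8585a47e927b72395f99d7a20041 z z)
 z))))) (n 0 (n 0 (n 4261947 z z) (n 0 z (n 0 (n 8872707 z z) (n 0 z (n 0 z z))))) (n 0 (n 0 z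
 (n 0 z (n 0 z (n 0 z (n 0 z z))))) (n 0 (n 0 z (n 0 z (n 0 (n 8864339 z z) (n 0 z (n 0 (n
 0x166c0800418107fe8107d680889c8038478127b58277e984980281e7647a77e48497c577a8cb7f38547937e88518207907cf8097c587f82d7ad8a97bd8408147ea8487b384d7f77f47d681f7cb8767907fd0091
 z z) z))))) (n 0 (n 0 z (n 0 z (n 0 z (n 0 (n
 0x7d8108608ab6a3ad17dc7346e15a671c4e375c96482d6e296777255b8585a47e927b72395f99d7a20041 z z) (n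
 0 z z))))) (n 0 (n 0 (n
 0x1658758007fa8138128257f78068187f080f7f87f68148077bf7f97ef8107ea7f18228018207e17f383f7f07e77f28067e58048027ca83581d80782a7e280e7ec85380b7ff7e47f37ff82c7ff7ff0051
 z z) (n 0 z (n 0 z (n 0 z (n 0 z z))))) (n 0 (n 0 z (n 0 z (n 0 (n
 0x166c1000418207fe8107d680889c8038478127b58277e984980281e7647a77e48497c577a8cb7f38547937e88518207907cf8097c587f82d7ad8a97bd8408147ea8487b384d7f77f47d681f7cb8767907fd0091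
 z (n 0x1d87081f8a18607a07e08208207e07e082082086081f8608617e07e08207e27e08608208208208600041 z
 z)) (n 0 z (n 0 (n
 0x166c1000418207fe8107d680889c8038478127b58277e984980281e7647a77e48497c577a8cb7f38547937e88518207907cf8097c587f82d7ad8a97bd8408147ea8487b384d7f77f47d681f7cb8767907fd0091
 z (n
 0x166c1000418207fe8107d680889c8038478127b58277e984980281e7647a77e48497c577a8cb7f38547937e88518207907cf8097c587f82d7ad8a97bd8408147ea8487b384d7f77f47d681f7cb8767907fd0091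
 z z)) z))))) (n 0 (n 0 (n 5310523 z (n 5310523 z z)) (n 0 (n 5310523 z (n 5310523 z z)) (n 0 (n
 8872707 z (n 8872707 z z)) (n 0 z (n 0 (n 5310523 z (n 5310523 z z)) z))))) (n 0 (n 0 z (n 0 z
 (n 0 z (n 0 (n 5380155 z (n 5380155 z z)) (n 0 z z))))) (n 0 (n 0 (n 2164795 z (n 2164795 z z))
 (n 0 (n 2164795 z (n 2164795 z z)) (n 0 z (n 0 z (n 0 z z))))) (n 0 (n 0 z (n 0 z (n 0 z (n 0 z
 (n 0 z z))))) (n 0 (n 0 z (n 0 z (n 0 z (n 0 z (n 0 z z))))) (n 0 (n 0 z (n 0 z (n 0 (n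
 0x166c1000418207fe8107d680889c8038478127b58277e984980281e7647a77e48497c577a8cb7f38547937e88518207907cf8097c587f82d7ad8a97bd8408147ea8487b384d7f77f47d681f7cb8767907fd0091
 z (n
 0x166c1000418207fe8107d680889c8038478127b58277e984980281e7647a77e48497c577a8cb7f38547937e88518207907cf8097c587f82d7ad8a97bd8408147ea8487b384d7f77f47d681f7cb8767907fd0091
 z z)) (n 0 (n
 0x166c1000418207fe8107d680889c8038478127b58277e984980281e7647a77e48497c577a8cb7f38547937e88518207907cf8097c587f82d7ad8a97bd8408147ea8487b384d7f77f47d681f7cb8767907fd0091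
 z (n 0x1d87081f8a18607a07e08208207e07e082082086081f8608617e07e08207e27e08608208208208600041 z
 z)) (n 0 (n
 0xb6c1000198207ff8087eb80485080282480a7d98147f48258018107b07d27f18267e27bb8687fa82b7c87f382a8107c67e78057e18418177d68577de82180a7f58257d98277fb7fa7ea8107e583d7c67ff0091
 z (n 8791899 z z)) z))))) (n 0 (n 0 z (n 0 z (n 0 z (n 0 (n
 0x166c0800418107fe8107d680889c8038478127b58277e984980281e7647a77e48497c577a8cb7f38547937e88518207907cf8097c587f82d7ad8a97bd8408147ea8487b384d7f77f47d681f7cb8767907fd0091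
 z (n
 0x166c0800418107fe8107d680889c8038478127b58277e984980281e7647a77e48497c577a8cb7f38547937e88518207907cf8097c587f82d7ad8a97bd8408147ea8487b384d7f77f47d681f7cb8767907fd0091
 z z)) (n 0 z z))))) (n 0 (n 0 z (n 0 z (n 0 (n 8864339 z (n 8864339 z z)) (n 0 (n
 0x166c0800418107fe8107d680889c8038478127b58277e984980281e7647a77e48497c577a8cb7f38547937e88518207907cf8097c587f82d7ad8a97bd8408147ea8487b384d7f77f47d681f7cb8767907fd0091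
 z (n 0x1d87081f8a18607a07e08208207e07e082082086081f8608617e07e08207e27e08608208208208600041 z
 z)) (n 0 (n
 0x166c0800418107fe8107d680889c8038478127b58277e984980281e7647a77e48497c577a8cb7f38547937e88518207907cf8097c587f82d7ad8a97bd8408147ea8487b384d7f77f47d681f7cb8767907fd0091
 z (n 7669803 z z)) z))))) (n 0 (n 0 z (n 0 z (n 0 (n 8804139 z z) (n 0 z (n 0 (n
 0x166c1000418207fe8107d680889c8038478127b58277e984980281e7647a77e48497c577a8cb7f38547937e88518207907cf8097c587f82d7ad8a97bd8408147ea8487b384d7f77f47d681f7cb8767907fd0091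
 z z) z))))) (n 0 (n 0 z (n 0 z (n 0 z (n 0 z (n 0 (n
 0x4d8208208677229d67de76d7616a475e62279e9238297618e57ab65d85b6a27e547176291f91e7e00041 z z)
 z))))) (n 0 (n 0 (n 5310523 z z) (n 0 z (n 0 (n 8872707 z z) (n 0 z (n 0 z z))))) (n 0 (n 0 z
 (n 0 z (n 0 (n
 0x7d8748608ab6a3ad17dc7346e15a671c4e375c96482d6e296777255b8585a47e927b72395f99d7a20041 z (n
 0x166c1000418207fe8107d680889c8038478127b58277e984980281e7647a77e48497c577a8cb7f38547937e88518207907cf8097c587f82d7ad8a97bd8408147ea8487b384d7f77f47d681f7cb8767907fd0091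
 z z)) (n 0 (n
 0x166c1000418207fe8107d680889c8038478127b58277e984980281e7647a77e48497c577a8cb7f38547937e88518207907cf8097c587f82d7ad8a97bd8408147ea8487b384d7f77f47d681f7cb8767907fd0091
 z (n 0x1d87081f8a18607a07e08208207e07e082082086081f8608617e07e08207e27e08608208208208600041 z
 z)) (n 0 (n
 0x166c1000418207fe8107d680889c8038478127b58277e984980281e7647a77e48497c577a8cb7f38547937e88518207907cf8097c587f82d7ad8a97bd8408147ea8487b384d7f77f47d681f7cb8767907fd0091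
 z (n 8521547 z z)) z))))) (n 0 (n 0 (n 8790283 z (n 8790283 z z)) (n 0 (n 8790283 z (n 8790283
 z z)) (n 0 (n 8872707 z (n 8872707 z z)) (n 0 z (n 0 (n 8790283 z (n 8790283 z z)) z))))) (n 0
 (n 0 z (n 0 z (n 0 z (n 0 z (n 0 z z))))) (n 0 (n 0 z (n 0 z (n 0 z (n 0 (n 8790283 z (n
 8790283 z z)) (n 0 z z))))) (n 0 (n 0 z (n 0 z (n 0 z (n 0 z (n 0 z z))))) (n 0 (n 0 z (n 0 z
 (n 0 z (n 0 z (n 0 z z))))) (n 0 (n 0 z (n 0 z (n 0 z (n 0 z (n 0 z z))))) (n 0 (n 0 z (n 0 z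
 (n 0 z (n 0 (n 8790283 z (n 8790283 z z)) (n 0 z z))))) z))))))))))))))))))))))))))))))))))))
 (n 1 (n 0 (n 0 z (n 0 z (n 0 z (n 0 z (n 0 z z))))) (n 0 (n 0 z (n 0 z (n 0 z (n 0 z (n 0 z
 z))))) (n 0 (n 0 (n 8791899 z z) (n 0 z (n 0 z (n 0 (n
 0x10eb0ea4037e082082081f8208a08208208208208208208208208208208208208218208218218208208200801 z
 z) (n 0 z z))))) (n 0 (n 0 z (n 0 z (n 0 z (n 0 z (n 0 z z))))) (n 0 (n 0 z (n 0 z (n 0 z (n 0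
 z (n 0 z z))))) (n 0 (n 0 z (n 0 z (n 0 z (n 0 z (n 0 z z))))) (n 0 (n 0 z (n 0 z (n 0 z (n 0 z
 (n 0 z z))))) (n 0 (n 0 z (n 0 z (n 0 z (n 0 z (n 0 (n 8868899 z z) z))))) z)))))))) (n 0 (n 0
 (n 0 z (n 0 z (n 0 z (n 0 z (n 0 z z))))) (n 0 (n 0 z (n 0 z (n 0 z (n 0 z (n 0 z z))))) (n 0
 (n 0 z (n 0 z (n 0 z (n 0 z (n 0 z z))))) (n 0 (n 0 z (n 0 z (n 0 z (n 0 z (n 0 z z))))) (n 0
 (n 0 z (n 0 z (n 0 z (n 0 z (n 0 z z))))) (n 0 (n 0 z (n 0 z (n 0 (n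
 0x7d8748608ab6a3ad17dc7346e15a671c4e375c96482d6e296777255b8585a47e927b72395f99d7a20041 z (n
 8804139 z z)) (n 0 (n
 0x166c0800418107fe8107d680889c8038478127b58277e984980281e7647a77e48497c577a8cb7f38547937e88518207907cf8097c587f82d7ad8a97bd8408147ea8487b384d7f77f47d681f7cb8767907fd0091
 z (n 0x1d87081f8a18607a07e08208207e07e082082086081f8608617e07e08207e27e08608208208208600041 z
 z)) (n 0 (n
 0x166c0800418107fe8107d680889c8038478127b58277e984980281e7647a77e48497c577a8cb7f38547937e88518207907cf8097c587f82d7ad8a97bd8408147ea8487b384d7f77f47d681f7cb8767907fd0091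
 z (n 8521547 z z)) z))))) (n 0 (n 0 z (n 0 z (n 0 z (n 0 z (n 0 z z))))) (n 0 (n 0 z (n 0 z (n
 0 z (n 0 z (n 0 z z))))) (n 0 (n 0 z (n 0 z (n 0 z (n 0 z (n 0 z z))))) (n 0 (n 0 z (n 0 z (n 0
 z (n 0 z (n 0 z z))))) (n 0 (n 0 z (n 0 z (n 0 z (n 0 z (n 0 z z))))) z)))))))))))
 z))))))))))))))))))))) z)))) z) z)))) (n 0x288c994231ca8695d4192d4d50194a80 (n 0 (n 275 (n 0 z
 (n 0 z (n 0 z (n 2 z (n 10 z (n 6492195 z (n 0 z z))))))) (n 251 (n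
 0x5ac604c63079e9a186392179a7617e38e66208e1b1882d79c76392469d65a62062282179e9dfa9eb9c8280081 z
 (n 0xca8a8060789e8218207e08607e179f82182186082081f8608208207e07e07e18207e08208208208618210801 z
 (n 0x4aca0346508da8a38a18a07dc7247e671a66b7dfa9c8d77dd76899285e75d61e8aa91c89d8628e67559e20081
 z (n 0xca8a8060785f8207e08208207e279f8208608608207e08607e082081f8608208208208208208208208200801
 z (n 6492195 z (n 0 z (n 0 z (n 0 z (n 0 z (n 0 z (n 0 z (n 0 z (n 0 z (n 0 z (n 6492195 z (n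
 0x4ac84346428da8a38a18a07dc7247e671a66b7dfa9c8d77dd76899285e75d61e8aa91c89d8628e67559e20081 z
 (n 0xca8a8060789d8218208208607e279f8608608a082081f8607e08207e08207e08208208208218208208600801 z
 (n 6492195 z (n 0 z z))))))))))))))))))) (n 9 (n 0 z (n 0 z (n 0 z (n 0 z (n 0 z (n 0 z (n 0 z
 (n 0 z (n 6632003 z z))))))))) (n 123 (n 18 z (n 26 z (n 6636307 z (n 0 z z)))) (n 1 (n 6636307
 z (n 0 z (n 0 z (n 34 z (n 42 z (n 6636307 z (n 0 z z))))))) (n 0 (n 0 z (n 0 z (n 0 z (n 0 z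
 (n 0 z (n 0 z (n 0 z (n 6636307 z (n 0 z z))))))))) z)))))) (n 123 (n 0 (n 0 z (n 27 (n 0 z (n
 0 z (n 0 z z))) (n 27 (n 0 z (n 0 z (n 0 z z))) (n 549 (n 0 z (n 0 z (n 0 z (n 0 z (n 0 z
 z))))) (n 549 (n 0 z (n 0 z (n 0 z (n 0 z (n 0 z z))))) z))))) (n 0 (n 45 (n 0 z (n 0 z (n 0 z
 (n 0 z (n 0 z z))))) (n 45 (n 0 z (n 0 z (n 0 z (n 0 z (n 0 z z))))) (n 549 (n 0 z (n 0 z (n 0
 z (n 0 z (n 0 z (n 0 z (n 0 z (n 0 z (n 0 z (n 0 z (n 0 z z))))))))))) (n 549 (n 0 z (n 0 z (n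
 0 z (n 0 z (n 0 z (n 0 z (n 0 z (n 0 z (n 0 z (n 0 z (n 0 z z))))))))))) z)))) (n 0 (n 0 z (n
 255 (n 0 z (n 0 z (n 0 z (n 0 z (n 0 z (n 0 z (n 2 (n 0 z z) (n 0 z (n 0 z (n 0 z (n 0 z (n 0 z
 (n 0 z z))))))))))))) (n 255 (n 0 z (n 0 z (n 0 z (n 0 z (n 0 z (n 0 z (n 0 z (n 0 z (n 0 z (n
 0 z (n 0 z (n 0 z (n 0 z z))))))))))))) z))) (n 0 (n 249 (n 0 z (n 0 z (n 0 z (n 0 z (n 0 z (n
 0 z z)))))) (n 249 (n 0 z (n 0 z (n 0 z (n 2 z (n 0 z (n 0 z z)))))) z)) (n 0 (n 0 z z) (n 0 z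
 z)))))) (n 0 (n 1 (n 2204 z (n 5445131 z (n 6554411 z (n 2204 z (n 6559035 z (n 2204 z z))))))
 (n 1 (n 2204 z (n 6624315 z (n 2204 z (n 2204 z (n 6559035 z (n 6554411 z z)))))) (n 1 (n
 6636307 z (n 6636307 z (n 6636307 z (n 6636307 z (n 6636307 z (n 6636307 z z)))))) (n 0 z z))))
 (n 0 z z)))) (n 0x66aba32addcb07543838a1d44266629 (n 0 (n 153 (n 0 z (n 0 z (n 0 z (n 0 z (n 0
 z (n 0 z (n 0 z (n 0 z (n 0 z (n 0 z (n 6627395 z (n 0 z (n 0 z (n 0 z (n 0 z (n 0 z (n 0 z (n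
 0 z z)))))))))))))))))) (n 33 (n 2 z (n 0 z (n 0 z (n 10 z (n 0 z (n 0 z (n 0 z (n 6496515 z (n
 6496515 z z))))))))) (n 9 (n 0 z (n 0 z (n 0 z (n 6496515 z (n 18 z (n 0 z (n 26 z (n 0 z
 z)))))))) (n 3 (n 0 z (n 0 z (n 0 z (n 0 z (n 0 z (n 6496515 z z)))))) (n 25 (n 0 z (n 0 z (n
 6566419 z (n 0 z (n 0 z z))))) (n 0 (n 0 z (n 6627395 z (n 0 z (n 0 z (n 34 z (n 42 z z))))))
 z)))))) (n 25 (n 0 (n 0 z (n 1287 (n 0 z (n 0 z (n 0 z (n 2 (n 0 z (n 2 (n 0 z (n 0 z (n 0 z (n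
 0 z (n 0 z (n 0 z z)))))) (n 2 (n 0 z (n 0 z (n 0 z (n 0 z (n 0 z (n 0 z z)))))) z))) z)))) (n
 1287 (n 0 z (n 0 z (n 0 z (n 0 z z)))) (n 65 (n 0 z (n 0 z (n 0 z (n 0 z (n 0 z (n 0 z (n 0 z
 (n 0 z (n 0 z (n 0 z (n 0 z z))))))))))) (n 65 (n 0 z (n 0 z (n 0 z (n 0 z (n 0 z (n 0 z (n 0 z
 (n 0 z (n 0 z (n 0 z (n 0 z z))))))))))) z))))) (n 0 (n 1019 (n 0 z (n 0 z (n 0 z (n 0 z (n 0 z
 (n 0 z (n 0 z (n 0 z (n 0 z z))))))))) (n 1019 (n 0 z (n 0 z (n 0 z (n 0 z (n 0 z (n 0 z (n 0 z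
 (n 2 (n 2 (n 0 z (n 0 z (n 0 z (n 0 z (n 0 z (n 0 z z)))))) (n 2 (n 0 z (n 0 z (n 0 z (n 0 z (n
 0 z (n 0 z z)))))) z)) (n 0 z z))))))))) (n 65 (n 0 z (n 0 z (n 0 z (n 0 z (n 0 z (n 0 z (n 0 z
 (n 0 z (n 0 z (n 0 z (n 0 z z))))))))))) (n 65 (n 0 z (n 0 z (n 0 z (n 0 z (n 0 z (n 0 z (n 0 z
 (n 0 z (n 0 z (n 0 z (n 0 z z))))))))))) z)))) (n 0 (n 0 z (n 17 (n 0 z (n 0 z (n 0 z (n 0 z (n
 0 z (n 0 z (n 0 z (n 0 z (n 0 z (n 0 z (n 0 z z))))))))))) (n 17 (n 0 z (n 0 z (n 0 z (n 0 z (n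
 0 z (n 0 z (n 0 z (n 0 z (n 0 z (n 0 z (n 0 z z))))))))))) z))) (n 0 (n 17 (n 0 z (n 0 z (n 0 z
 (n 0 z (n 0 z (n 0 z (n 0 z (n 0 z (n 0 z (n 0 z (n 0 z (n 0 z (n 0 z (n 0 z (n 0 z (n 0 z (n 0
 z (n 0 z (n 0 z (n 0 z z)))))))))))))))))))) (n 17 (n 0 z (n 0 z (n 0 z (n 0 z (n 0 z (n 0 z (n
 0 z (n 0 z (n 0 z (n 0 z (n 0 z (n 0 z (n 0 z (n 0 z (n 0 z (n 0 z (n 0 z (n 0 z (n 0 z (n 0 z
 z)))))))))))))))))))) z)) (n 0 (n 0 z z) (n 0 z z)))))) (n 0 (n 0 z (n 0 z (n 1 (n 6566419 z (n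
 6566419 z (n 6566419 z (n 6566419 z (n 6566419 z (n 6566419 z z)))))) (n 0 z (n 0 z z))))) (n 0
 z z)))) (n 0x2a24d61126306cb1d0496ea04a360753a8824c4c225ba19 (n 0 (n 189 (n 0 z (n 0 z (n
 3282443 z (n 0 z (n 0 z (n 0 z (n 0 z (n 0 z (n 0 z (n 0 z (n 0 z (n 0 z (n 0 z (n 0 z (n 0 z
 z))))))))))))))) (n 33 (n 2 z (n 0 z (n 10 z (n 0 z (n 0 z (n 3278363 z (n 18 z (n
 0x3d18c081b180f2630797b80b174996287a189b57d6f687e859463ab7e56736d897e85797a839178688fa0b2965c71ab8e79866e64898a8e6e569900c9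
 z z)))))))) (n 131 (n 6631955 z (n 0 z (n 0 z (n 26 z (n 34 z (n 6631955 z (n 0 z z))))))) (n 3
 (n 6631955 z (n 6631955 z (n 0 z (n 0 z (n 6631955 z (n 42 z (n 0 z (n 0 z (n 0 z z))))))))) (n
 1 (n
 0x2c6328d78808e78887a8183777088809277847f7f65976b9b80747f817b7c7c847f827c87717e7b88897c808485907c816d7e83790049
 z (n 0 z (n 50 z (n 0 z (n 58 z (n 0 z (n 0 z (n 6559019 z (n 0 z (n 0 z z)))))))))) (n 0 (n 0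
 z (n 6631955 z (n 6631955 z (n 0 z (n 0 z (n 66 z (n 6631955 z (n 0 z (n 0 z z))))))))) z))))))
 (n 131 (n 0 (n 0 z (n 0 z (n 1275 (n 0 z (n 0 z (n 0 z (n 0 z (n 0 z (n 0 z (n 0 z (n 0 z (n 0
 z (n 2 (n 0 z (n 1 z (n 2 (n 0 z (n 0 z (n 0 z (n 0 z (n 0 z (n 0 (n 8803363 z z) z)))))) (n 2
 (n 0 z (n 0 z (n 0 z (n 0 z (n 0 z (n 0 (n 5092 z z) z)))))) (n 2 (n 0 z (n 0 z (n 0 z (n 0 z
 (n 0 z (n 0 (n 8868419 z z) z)))))) z))))) (n 0 z (n 0 z z)))))))))))) (n 1275 (n 0 z (n 0 z (n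
 0 z (n 0 z (n 0 z (n 0 z (n 0 z (n 0 z (n 0 z (n 0 z (n 0 z (n 0 z z)))))))))))) (n 441 (n 0 z
 (n 0 z (n 0 z (n 0 z (n 0 z (n 0 z (n 0 z (n 0 z (n 0 z (n 0 z (n 0 z (n 0 z (n 0 z (n 0 z (n 0
 z z))))))))))))))) (n 1273 (n 0 z (n 0 z (n 0 z (n 0 z (n 7754787 z (n 0 z (n 0 z (n 0 z (n 0 z
 z))))))))) (n 1273 (n 0 z (n 0 z (n 0 z (n 0 z (n 0 z (n 0 z (n 0 z (n 0 z (n 0 z z))))))))) (n
 61 (n 0 z (n 0 z (n 0 z (n 0 z (n 0 z (n 2 z z)))))) z)))))))) (n 0 (n 0 z (n 459 (n 0 z (n 0 z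
 (n 0 z (n 0 z (n 0 z (n 0 z (n 0 z (n 0 z (n 0 z z))))))))) (n 459 (n 0 z (n 0 z (n 0 z (n 0 z
 (n 7754035 z (n 0 z (n 0 z (n 0 z (n 0 z z))))))))) (n 55 (n 0 z (n 0 z (n 0 z (n 0 z (n 0 z (n
 0 z (n 0 z (n 0 z (n 0 z (n 6428427 z (n 0 z (n 0 z (n 0 z (n 0 z (n 0 z (n 0 z (n 0 z (n 0 z
 (n 0 z (n 0 z (n 0 z (n 0 z (n 0 z z))))))))))))))))))))))) (n 457 (n 0 z (n 0 z (n 0 z (n 0 z
 (n 0 z (n 0 z (n 0 z (n 0 z (n 7616027 z (n 0 z z)))))))))) (n 457 (n 7754035 z (n 0 z (n 0 z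
 (n 0 z (n 0 z (n 0 z (n 0 z (n 0 z (n 0 z (n 0 z z)))))))))) (n 49 (n 0 z (n 0 z (n 0 z (n 0 z
 (n 0 z (n 0 z (n 7754035 z (n 0 z z)))))))) z))))))) (n 0 (n 263 (n 0 z (n 0 z (n 0 z (n 0 z (n
 7754307 z (n 0 z z)))))) (n 263 (n 0 z (n 0 z (n 0 z (n 0 z (n 0 z (n 0 z z)))))) (n 251 (n 0 z
 (n 0 z (n 0 z (n 0 z (n 0 z (n 0 z (n 0 z (n 0 z (n 0 z (n 0 z (n 0 z (n 0 z (n 0 z (n 0 z (n 0
 z (n 0 z (n 0 z (n 0 z (n 0 z (n 0 z (n 0 z (n 0 z z)))))))))))))))))))))) (n 243 (n 0 z (n 0 z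
 (n 0 z (n 7616091 z (n 0 z (n 0 z (n 0 z (n 0 z (n 0 z (n 0 z (n 0 z (n 0 z (n 0 z
 z))))))))))))) (n 243 (n 0 z (n 0 z (n 0 z (n 0 z (n 0 z (n 0 z (n 0 z (n 0 z (n 0 z (n 0 z (n
 0 z (n 0 z (n 0 z z))))))))))))) (n 241 (n 0 z (n 0 z (n 0 z (n 0 z (n 0 z (n 0 z (n 0 z (n 0 z
 (n 0 z (n 0 z (n 0 z (n 0 z (n 0 z (n 0 z (n 0 z z))))))))))))))) z)))))) (n 0 (n 0 z (n 1311
 (n 0 z (n 0 z (n 0 z (n 7754307 z (n 0 z (n 0 z (n 0 z (n 0 z (n 0 z (n 0 z z)))))))))) (n 261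
 (n 0 z (n 0 z (n 0 z (n 0 z (n 0 z (n 0 z (n 0 z (n 0 z (n 0 z (n 0 z (n 0 z (n 0 z (n 0 z (n 0
 z (n 0 z (n 0 z (n 0 z (n 0 z (n 0 z (n 0 z (n 0 z (n 7616043 z (n 0 z (n 0 z (n 0 z (n 0 z (n
 0 z (n 0 z (n 0 z (n 0 z (n 0 z (n 0 z (n 0 z (n 0 z (n 0 z (n 0 z (n 0 z (n 0 z (n 0 z (n 0 z
 (n 0 z (n 0 z (n 0 z (n 0 z (n 0 z (n 0 z z)))))))))))))))))))))))))))))))))))))))))))))) (n
 261 (n 0 z (n 0 z (n 0 z (n 0 z (n 0 z (n 0 z (n 0 z (n 0 z (n 0 z (n 0 z (n 0 z (n 0 z (n 0 z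
 (n 0 z (n 0 z (n 0 z (n 0 z (n 0 z (n 0 z (n 0 z (n 0 z (n 0 z (n 6428427 z (n 0 z (n 0 z (n 0
 z (n 0 z (n 0 z (n 0 z (n 0 z (n 0 z (n 0 z (n 0 z (n 0 z (n 0 z (n 0 z (n 0 z (n 0 z (n 0 z (n
 0 z (n 0 z (n 0 z (n 0 z (n 0 z (n 0 z (n 0 z z))))))))))))))))))))))))))))))))))))))))))))))
 (n 253 (n 0 z (n 0 z (n 0 z (n 0 z (n 0 z (n 0 z (n 0 z (n 7754307 z z)))))))) z))))) (n 0 (n
 299 (n 0 z (n 0 z (n 0 z (n 0 z (n 0 z (n 0 z (n 0 z (n 0 z (n 0 z z))))))))) (n 291 (n 0 z (n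
 0 z (n 0 z (n 0 z (n 0 z (n 0 z (n 0 z (n 0 z (n 0 z (n 0 z (n 7616091 z (n 0 z (n 0 z (n 0 z
 (n 0 z (n 0 z (n 0 z (n 0 z (n 0 z (n 0 z (n 0 z (n 0 z (n 0 z (n 0 z (n 0 z (n 0 z
 z)))))))))))))))))))))))))) (n 291 (n 0 z (n 0 z (n 0 z (n 0 z (n 0 z (n 0 z (n 0 z (n 0 z (n 0
 z (n 0 z (n 0 z (n 0 z (n 0 z (n 0 z (n 0 z (n 0 z (n 0 z (n 0 z (n 0 z (n 0 z (n 0 z (n 0 z (n
 0 z (n 0 z (n 0 z (n 0 z z)))))))))))))))))))))))))) (n 289 (n 0 z (n 0 z (n 0 z (n 0 z (n 0 z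
 (n 0 z (n 0 z (n 0 z (n 0 z (n 0 z (n 0 z (n 0 z (n 0 z z))))))))))))) z)))) (n 0 (n 723 (n 0 z
 (n 0 z (n 0 z (n 2 (n 0 z (n 1 z z)) (n 0 z (n 0 z (n 0 z (n 0 z (n 0 z (n 0 z z)))))))))) (n
 723 (n 0 z (n 0 z (n 0 z (n 0 z (n 0 z (n 0 z (n 0 z (n 0 z (n 0 z (n 0 z z)))))))))) (n 97 (n
 0 z (n 0 z (n 0 z (n 0 z (n 0 z (n 0 z (n 0 z (n 0 z z)))))))) z))) (n 0 (n 0 z (n 1 (n 0 z (n
 0 z (n 0 z (n 0 z (n 0 z (n 6567771 z (n 0 z (n 0 z (n 0 z (n 0 z (n 0 z (n 0 z (n 0 z (n 0 z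
 (n 0 z (n 0 z z)))))))))))))))) z)) (n 0 (n 961 (n 0 z (n 0 z (n 0 z (n 0 z (n 0 z (n 0 z (n 0
 z (n 0 z (n 0 z (n 0 z (n 0 z (n 0 z (n 0 z (n 0 z z)))))))))))))) z) (n 0 z z))))))))) (n 0 (n
 1 (n 6631955 z (n 6631955 z (n 6631955 z (n 6631955 z (n 6631955 z (n 6631955 z z)))))) (n 0 z
 (n 0 z (n 1 (n 6559019 z (n 1516 z (n 1516 z (n 1516 z (n 1516 z (n 1516 z z)))))) (n 1 (n 1516
 z (n 3278363 z (n 6559019 z (n 1516 z (n 4400731 z (n 1516 z z)))))) (n 1 (n 6631955 z (n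
 6631955 z (n 6631955 z (n 6631955 z (n 6631955 z (n 6631955 z z)))))) (n 0 z z))))))) (n 0 z
 z)))) (n 0x6d3370cd49834cc4132a66c32a943559b40988b04b85100c3a819b4c0 (n 0 (n 155 (n 0 z (n
 0xca8a82403808081808180817e8080807f7f8080808080808081808180807f8180828080808080807f7f818080808180808080808080800809
 z (n 2 z (n 10 z (n 18 z (n 0 z (n 3282443 z (n 0 z z)))))))) (n 33 (n 6627651 z (n
 0x8ca8a80407807e8884847a7e7d8a8082797d7d7e838084847e8181807e7a867e81807b7c7b798385857d8c8388818380767c827e7c79850809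
 z (n 0 z (n 0 z (n 26 z (n 6627651 z (n 34 z z))))))) (n 9 (n 6627651 z (n 6627651 z (n 0 z (n
 0 z (n 42 z (n 0 z (n 50 z (n 0 z (n 0 z (n 6627651 z (n 0 z z))))))))))) (n 125 (n
 0x1736b1000012e96208000a180015d8007118002a38003aa7ffa228002f48004ed8000b98002ea7fffdb7ff18e8004ff7fff828004a98001c07ff9117fffd57ffe467fff937ffeb38003777fffec8000fd7ffd757ffb237ff8d28001167ffe6480000580050c8000d38006297ff728800538800155800b9f7ffc867ff9527ff8eb8001677ffdc97ffaa47ff9797ffae380064c8002657ff73f8009a28006260099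
 z (n
 0x4ca8a80407807e847f8180837d817f837e7c817f808080807f81818180807e8280827f808280807f7e818181817f817e80827f7f8080800809
 z (n
 0x1736b0800012e96108000a180015d8007118002a38003aa7ffa228002f48004ed8000b98002ea7fffdb7ff18e8004ff7fff828004a98001c07ff9117fffd57ffe467fff937ffeb38003777fffec8000fd7ffd757ffb237ff8d28001167ffe6480000580050c8000d38006297ff728800538800155800b9f7ffc867ff9527ff8eb8001677ffdc97ffaa47ff9797ffae380064c8002657ff73f8009a28006260099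
 z (n
 0x4ca8a80407807e817e80808280827f827f8081807f81807f8180807f7f807e8080807f808281817f818180808180807f80827f808081800809
 z (n 0 z (n 0 z (n 0 z (n 0 z (n 0 z (n 0 z (n 0 z (n 0 z (n 0 z (n 0 z (n 0 z (n 0 z (n 0 z (n
 2164283 z (n 0 z (n 0 z (n 0 z (n 0 z (n 0 z (n 0 z (n 0 z (n 0 z (n 0 z (n 0 z (n 0 z (n 0 z
 (n
 0x1736b2800012e96508000a180015d8007118002a38003aa7ffa228002f48004ed8000b98002ea7fffdb7ff18e8004ff7fff828004a98001c07ff9117fffd57ffe467fff937ffeb38003777fffec8000fd7ffd757ffb237ff8d28001167ffe6480000580050c8000d38006297ff728800538800155800b9f7ffc867ff9527ff8eb8001677ffdc97ffaa47ff9797ffae380064c8002657ff73f8009a28006260099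
 z (n
 0x2ca8a82407807f817e80808180817f827f80807f7f8180808080807f7f807f81807f7f8082808180808180808080817f80817f808081800809
 z (n
 0x8d652817a947b787d6d8b82817c787e9071887f86797972717e6c878580828b78767d70837580809b7c7c9773837f7a84838095810049
 z (n 0 z (n
 0x1aca4ca080377889474806f838185857d5e85836b848c8e7f8884857a7a70887e7b7c7674796c8a828e7d918a86877a88767f87847d78890809
 z (n 0 z z)))))))))))))))))))))))))))))))))))) (n 1 (n 58 z (n 0 z (n 0 z (n 0 z (n 0 z (n 66 z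
 (n 6554139 z (n 0 z (n 74 z z))))))))) (n 0 (n 82 z (n 6627651 z (n 6627651 z (n 0 z (n 0 z (n
 6627651 z z)))))) z)))))) (n 0 (n 0 (n 0 z (n 0 z (n 67 (n 0 z (n 0 z (n 0 z (n 0 z (n 0 z (n 0
 z (n 0 z (n 0 z (n 0 z (n 0 z (n 0 z (n 7607867 z (n 0 z (n 0 z (n 0 z (n 0 z (n 0 z
 z))))))))))))))))) (n 67 (n 0 z (n 0 z (n 0 z (n 0 z (n 0 z (n 0 z (n 0 z (n 0 z (n 0 z (n 0 z
 (n 0 z (n 0 z (n 0 z (n 0 z (n 0 z (n 0 z (n 0 z z))))))))))))))))) (n 927 (n 0 z (n 0 z (n 0 z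
 (n 0 z (n 0 z (n 0 z (n 0 z z))))))) (n 927 (n 0 z (n 0 z (n 0 z (n 0 z (n 0 z (n 0 z (n 0 z
 z))))))) (n 531 (n 0 z (n 0 z (n 0 z (n 0 z (n 0 z (n 0 z (n 0 z (n 0 z (n 0 z (n 0 z (n 0 z (n
 0 z (n 0 z z))))))))))))) (n 531 (n 0 z (n 0 z (n 0 z (n 0 z (n 0 z (n 0 z (n 0 z (n 0 z (n 0 z
 (n 0 z (n 0 z (n 0 z (n 0 z z))))))))))))) (n 531 (n 0 z (n 0 z (n 0 z (n 0 z (n 0 z (n 0 z (n
 0 z (n 0 z (n 0 z (n 0 z (n 0 z (n 0 z (n 7750227 z z))))))))))))) (n 529 (n 0 z (n 0 z (n 0 z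
 (n 0 z (n 0 z (n 0 z (n 0 z (n 0 z z)))))))) z)))))))))) (n 0 (n 0 z (n 143 (n 0 z (n 0 z (n 2
 (n 0 z (n 2 (n 0 z (n 0 z (n 0 z (n 0 z (n 0 z (n 0 z z)))))) (n 2 (n 0 z (n 0 (n 8855811 z z)
 (n 0 z (n 0 z (n 0 (n 8855811 z (n 8855811 z z)) (n 0 z z)))))) (n 2 (n 0 z (n 0 z (n 0 z (n 0
 z (n 0 z (n 0 z z)))))) (n 2 (n 0 z (n 0 z (n 0 (n 8855811 z z) (n 0 z (n 0 (n 8855811 z (n
 8855811 z z)) (n 0 (n 8855811 z z) z)))))) (n 2 (n 0 (n 532 z z) (n 0 z (n 0 z (n 0 z (n 0 (n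
 532 z (n 532 z z)) (n 0 (n 532 z z) z)))))) (n 2 (n 0 z (n 0 z (n 0 z (n 0 (n 8855811 z z) (n 0
 (n 8855811 z (n 8855811 z z)) (n 0 (n 8855811 z z) z)))))) z))))))) (n 0 z (n 0 z z))))) (n 143
 (n 0 z (n 0 z (n 0 z (n 0 z (n 0 z z))))) (n 141 (n 0 z (n 0 z (n 0 z z))) (n 141 (n 0 z (n 0 z
 (n 0 z z))) (n 133 (n 2 (n 0 z (n 0 z (n 2 (n 0 (n 6559803 z z) (n 0 z (n 0 (n 6566275 z z) (n
 0 z (n 0 (n 8591115 z (n 7614851 z z)) (n 0 z z)))))) z))) (n 0 z (n 0 z (n 0 z (n 0 z z)))))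
 (n 133 (n 0 z (n 0 z (n 0 z (n 0 z (n 0 z z))))) (n 133 (n 0 z (n 0 z (n 0 z (n 0 z (n 0 z
 z))))) (n 745 (n 0 z (n 0 z (n 0 z (n 0 z (n 0 z (n 0 z (n 0 z (n 0 z (n 0 z (n 0 z (n 0 z
 z))))))))))) z))))))))) (n 0 (n 767 (n 0 z (n 0 z (n 0 z (n 0 z (n 0 z (n 7607819 z (n 0 z (n 0
 z (n 0 z (n 0 z (n 0 z (n 0 z z)))))))))))) (n 767 (n 0 z (n 0 z (n 0 z (n 0 z (n 6620971 z (n
 0 z (n 0 z (n 0 z (n 0 z (n 0 z (n 0 z (n 0 z z)))))))))))) (n 107 (n 0 z (n 0 z (n 0 z (n 0 z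
 (n 0 z (n 0 z (n 0 z (n 0 z (n 0 z (n 0 z (n 0 z (n 0 z (n 0 z (n 0 z z)))))))))))))) (n 107 (n
 0 z (n 0 z (n 0 z (n 0 z (n 0 z (n 0 z (n 6620971 z (n 0 z (n 0 z (n 0 z (n 0 z (n 0 z (n 0 z
 (n 0 z z)))))))))))))) (n 243 (n 0 z (n 7741459 z (n 0 z (n 0 z (n 0 z (n 0 z (n 0 z (n 0 z (n
 0 z (n 0 z (n 0 z z))))))))))) (n 243 (n 0 z (n 0 z (n 0 z (n 0 z (n 0 z (n 0 z (n 6620971 z (n
 0 z (n 0 z (n 0 z (n 0 z z))))))))))) (n 243 (n 0 z (n 0 z (n 0 z (n 0 z (n 0 z (n 0 z (n 0 z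
 (n 0 z (n 0 z (n 0 z (n 7607819 z z))))))))))) (n 241 (n 0 z (n 2 z (n 0 z (n 0 z (n 0 z (n 0 z
 z)))))) z)))))))) (n 0 (n 0 z (n 343 (n 0 z (n 0 z (n 0 z (n 0 z (n 0 z (n 0 z (n 0 z (n 0 z (n
 0 z (n 0 z (n 0 z (n 0 z (n 0 z (n 0 z (n 0 z z))))))))))))))) (n 343 (n 0 z (n 0 z (n 0 z (n 0
 z (n 0 z (n 0 z (n 0 z (n 0 z (n 0 z (n 0 z (n 0 z (n 0 z (n 0 z (n 7741699 z (n 0 z
 z))))))))))))))) (n 255 (n 0 z (n 0 z (n 2 (n 0 z (n 0 z (n 1 z z))) (n 0 z (n 0 z (n 0 z (n 0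
 z (n 0 z (n 0 z (n 0 z (n 0 z (n 0 z (n 0 z (n 0 z (n 0 z (n 0 z (n 0 z (n 0 z (n 0 z (n 0 z (n
 0 z (n 0 z (n 0 z z))))))))))))))))))))))) (n 255 (n 0 z (n 0 z (n 0 z (n 0 z (n 0 z (n 0 z (n
 0 z (n 0 z (n 0 z (n 0 z (n 0 z (n 0 z (n 0 z (n 0 z (n 0 z (n 0 z (n 0 z (n 0 z (n 0 z (n
 7741699 z (n 0 z (n 0 z (n 0 z z))))))))))))))))))))))) (n 255 (n 0 z (n 0 z (n 0 z (n 0 z (n 0
 z (n 0 z (n 0 z (n 0 z (n 0 z (n 0 z (n 0 z (n 0 z (n 0 z (n 0 z (n 0 z (n 0 z (n 0 z (n 0 z (n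
 0 z (n 0 z (n 0 z (n 0 z (n 0 z z))))))))))))))))))))))) (n 341 (n 7741699 z (n 0 z (n 0 z (n 0
 z (n 0 z (n 0 z (n 0 z (n 0 z (n 0 z (n 0 z (n 0 z (n 0 z (n 0 z z))))))))))))) z))))))) (n 0
 (n 19 (n 0 z (n 0 z (n 0 z (n 0 z (n 0 z (n 0 z (n 0 z (n 0 z z)))))))) (n 19 (n 0 z (n 0 z (n
 0 z (n 0 z (n 0 z (n 0 z (n 0 z (n 0 z z)))))))) (n 3 (n 0 z (n 0 z (n 0 z (n 0 z (n 0 z (n 0 z
 (n 0 z (n 0 z (n 0 z (n 0 z (n 0 z z))))))))))) (n 3 (n 0 z (n 0 z (n 0 z (n 0 z (n 0 z (n 0 z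
 (n 0 z (n 0 z (n 0 z (n 0 z (n 0 z z))))))))))) (n 3 (n 0 z (n 0 z (n 0 z (n 0 z (n 0 z (n 0 z
 (n 0 z (n 0 z (n 0 z (n 0 z (n 7750227 z z))))))))))) (n 1 (n 0 z (n 0 z (n 0 z (n 0 z (n 0 z
 (n 0 z (n 0 z (n 0 z (n 0 z (n 0 z (n 0 z (n 0 z (n 0 z (n 0 z z)))))))))))))) z)))))) (n 0 (n
 0 z (n 21 (n 0 z (n 0 z (n 0 z (n 0 z z)))) (n 21 (n 0 z (n 0 z (n 0 z (n 0 z z)))) (n 21 (n 0
 z (n 0 z (n 0 z (n 0 z z)))) (n 17 (n 0 z (n 0 z (n 0 z (n 0 z (n 0 z (n 0 z (n 0 z (n 0 z (n 0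
 z (n 0 z (n 0 z (n 0 z (n 0 z (n 0 z (n 0 z (n 0 z z)))))))))))))))) z))))) (n 0 (n 3 (n 0 z (n
 2 (n 0 z (n 0 z (n 1 z z))) (n 0 z (n 0 z (n 0 z (n 0 z (n 0 z (n 0 z z)))))))) (n 3 (n 0 z (n
 0 z (n 0 z (n 0 z (n 0 z (n 0 z (n 0 z (n 0 z z)))))))) (n 3 (n 0 z (n 0 z (n 0 z (n 0 z (n 0 z
 (n 0 z (n 0 z (n 7750227 z z)))))))) (n 49 (n 0 z (n 0 z (n 0 z (n 0 z (n 0 z (n 0 z (n 0 z (n
 0 z (n 0 z (n 0 z (n 0 z z))))))))))) z)))) (n 0 (n 0 z (n 0 z (n 245 (n 0 z (n 0 z (n 0 z (n 0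
 z (n 0 z (n 0 z (n 0 z (n 0 z (n 0 z (n 0 z (n 0 z (n 0 z (n 0 z (n 0 z (n 0 z (n 0 z (n 0 z (n
 0 z (n 0 z (n 0 z (n 0 z (n 0 z (n 0 z (n 0 z (n 0 z (n 0 z (n 0 z (n 0 z (n 0 z (n 0 z (n 0 z
 (n 0 z (n 0 z (n 0 z (n 0 z (n 0 z (n 0 z (n 0 z (n 0 z (n 0 z (n 0 z (n 0 z (n 0 z (n 0 z (n 0
 z (n 0 z (n 0 z (n 0 z (n 0 z (n 0 z (n 0 z (n 0 z (n 0 z (n 0 z (n 0 z (n 0 z
 z)))))))))))))))))))))))))))))))))))))))))))))))))))))))) z))) (n 0 (n 0 z (n 53 (n 0 z (n 0 z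
 (n 0 z (n 0 z (n 0 z (n 0 z (n 0 z (n 0 z (n 0 z (n 0 z (n 0 z (n 0 z (n 0 z (n 0 z (n 0 z (n 0
 z (n 0 z (n 0 z (n 0 z (n 0 z (n 0 z (n 0 z (n 0 z (n 0 z (n 0 z (n 0 z (n 0 z (n 0 z (n 0 z (n
 0 z (n 0 z (n 0 z (n 0 z (n 0 z (n 0 z (n 0 z (n 0 z (n 0 z (n 0 z (n 0 z (n 0 z (n 0 z (n 0 z
 (n 0 z (n 0 z (n 0 z (n 0 z z))))))))))))))))))))))))))))))))))))))))))))))) z)) (n 0 (n 293 (n
 0 z (n 0 z (n 0 z (n 0 z (n 0 z (n 0 z (n 0 z (n 6559547 z (n 0 z (n 0 z (n 0 z (n 0 z (n 0 z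
 (n 0 z (n 0 z (n 0 z (n 0 z (n 0 z (n 0 z (n 0 z (n 0 z (n 0 z (n 0 z (n 0 z (n 0 z
 z))))))))))))))))))))))))) z) (n 0 z z))))))))))) (n 0 (n 1 (n 1244 z (n 5510715 z (n 5517667 z
 (n 5441051 z (n 1244 z (n 1004 z z)))))) (n 1 (n 6627651 z (n 6627651 z (n 6627651 z (n 6627651
 z (n 6627651 z (n 6627651 z z)))))) (n 1 (n 6627651 z (n 6627651 z (n 6627651 z (n 6627651 z (n
 6627651 z (n 6627651 z z)))))) (n 0 z (n 0 z (n 1 (n 6627651 z (n 6627651 z (n 6627651 z (n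
 6627651 z (n 6627651 z (n 6627651 z z)))))) z)))))) (n 0 z z)))) (n
 0xd22ae15e92a10b72024b8c229b41b8ce2442618314cc14c69045a2c42d16c0 (n 0 (n 473 (n 0 z (n 6557747
 z (n 2 z z))) (n 469 (n 10 z (n
 0x65465400182ca8a840078218608208218208a07e18207e082082182082081f82081f8208218208208208208208208201001
 z (n 18 z (n 26 z (n 6557747 z (n 34 z (n 42 z (n 0 z (n 0 z (n 0 z (n 0 z z))))))))))) (n 129
 (n 0 z (n 0 z (n 0 z (n 0 z (n 0 z (n 0 z (n 0 z (n 6627395 z (n 0 z (n 0 z (n 0 z (n 0 z (n 0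
 z (n 0 z (n 0 z (n 0 z (n 0 z z))))))))))))))))) (n 3 (n 6632459 z (n 50 z (n 58 z (n 66 z (n
 74 z z))))) (n 1 (n 0 z (n 0 z (n 0 z (n 0 z (n 0 z (n 6557747 z (n 6557747 z (n 0 z (n 0 z (n
 0 z (n 0 z (n 82 z z)))))))))))) (n 0 (n
 0x2ca88620038208608207e081f8617e08208207df8208208608208208208207e08208208208208208208600801 z
 (n 90 z (n 6627395 z (n 6627395 z (n 0 z (n 0 z (n 0 z z))))))) z)))))) (n 473 (n 0 (n 763 (n 0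
 z (n 0 z (n 0 z (n 0 z (n 0 z (n 0 z (n 0 z (n 0 z (n 0 z (n 0 z (n 0 z z))))))))))) (n 763 (n
 0 z (n 2 (n 0 z (n 0 z (n 0 z (n 1 z (n 2 (n 0 z (n 0 z (n 0 z (n 0 z (n 0 z (n 0 (n 8859683 z
 z) z)))))) (n 2 (n 0 z (n 0 z (n 0 z (n 0 z (n 0 z (n 0 z z)))))) (n 2 (n 0 z (n 0 z (n 0 z (n
 0 z (n 0 z (n 0 z z)))))) (n 2 (n 0 z (n 0 (n 8802595 z (n 8802595 z z)) (n 0 (n 8802595 z (n
 8802595 z z)) (n 0 (n 8802595 z (n 8802595 z z)) (n 0 z (n 0 z z)))))) (n 1 z z))))))))) (n 0 z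
 (n 0 z (n 0 z (n 0 z (n 0 z (n 0 z (n 0 z (n 0 z (n 0 z z))))))))))) (n 763 (n 0 z (n 0 z (n 2
 (n 0 z (n 0 z (n 1 z (n 2 (n 0 z (n 0 z (n 0 z (n 0 z (n 0 z (n 0 z z)))))) (n 2 (n 0 z (n 0 z
 (n 0 z (n 0 z (n 0 z (n 0 (n 588 z z) z)))))) (n 2 (n 0 z (n 0 z (n 0 z (n 0 z (n 0 z (n 0 z
 z)))))) (n 2 (n 0 z (n 0 z (n 0 (n 8802595 z (n 8802595 z z)) (n 0 (n 8802595 z (n 8802595 z
 z)) (n 0 (n 8802595 z (n 8802595 z z)) (n 0 z z)))))) (n 2 (n 0 z (n 0 z (n 0 z (n 0 z (n 0 z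
 (n 0 z z)))))) z)))))))) (n 0 z (n 0 z (n 0 z (n 0 z (n 0 z (n 0 z (n 0 z (n 0 z z)))))))))))
 (n 763 (n 0 z (n 0 z (n 0 z (n 0 z (n 0 z (n 0 z (n 2 (n 0 z (n 2 (n 0 (n 8802595 z z) (n 0 (n
 8802595 z z) (n 0 z (n 0 z (n 0 z (n 0 (n 8802595 z (n 8802595 z z)) z)))))) (n 2 (n 0 z (n 0 z
 (n 0 z (n 0 z (n 0 z (n 0 z z)))))) (n 1 z (n 2 (n 0 z (n 0 z (n 0 z (n 0 z (n 0 z (n 0 z
 z)))))) (n 2 (n 0 z (n 0 z (n 0 z (n 0 z (n 0 z (n 0 z z)))))) (n 2 (n 0 z (n 0 z (n 0 z (n 0 z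
 (n 0 z (n 0 z z)))))) z))))))) (n 0 z (n 0 z (n 0 z (n 0 z z))))))))))) (n 763 (n 0 z (n 0 z (n
 0 z (n 0 z (n 0 z (n 0 z (n 0 z (n 0 z (n 0 z (n 0 z (n 0 z z))))))))))) (n 147 (n 0 z (n 0 z
 (n 0 z (n 0 z (n 0 z (n 0 z z)))))) (n 147 (n 0 z (n 0 z (n 2 (n 0 z (n 0 z (n 2 (n 0 z (n 0 z
 (n 0 z (n 0 z (n 0 z (n 0 z z)))))) (n 2 (n 0 z (n 0 z (n 0 z (n 0 z (n 0 z (n 0 (n 8859683 z
 z) z)))))) z)))) (n 0 z (n 0 z (n 0 z z)))))) (n 147 (n 0 z (n 2 (n 0 z (n 2 (n 0 (n 8802595 z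
 (n 8802595 z z)) (n 0 z (n 0 (n 8802595 z (n 8802595 z z)) (n 0 (n 8802595 z (n 8802595 z z))
 (n 0 z (n 0 z z)))))) (n 2 (n 0 z (n 0 z (n 0 z (n 0 z (n 0 z (n 0 z z)))))) z))) (n 0 z (n 0 z
 (n 0 z (n 0 z z)))))) (n 147 (n 0 z (n 0 z (n 0 z (n 0 z (n 0 z (n 2 (n 2 (n 0 z (n 0 z (n 0 (n
 8802595 z (n 8802595 z z)) (n 0 (n 8802595 z (n 8802595 z z)) (n 0 (n 8802595 z (n 8802595 z
 z)) (n 0 z z)))))) (n 2 (n 0 z (n 0 z (n 0 z (n 0 z (n 0 z (n 0 z z)))))) z)) z)))))) (n 761 (n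
 0 z (n 0 z (n 0 z (n 0 z (n 0 z (n 0 z (n 0 z (n 0 z (n 0 z (n 0 z (n 0 z z))))))))))) (n 737
 (n 0 z (n 2 z (n 6496371 z (n 0 z (n 0 z (n 0 z (n 0 z (n 0 z (n 0 z (n 0 z (n 0 z (n 0 z (n 0
 z (n 0 z (n 0 z (n 0 z (n 0 z (n 0 z (n 0 z (n 0 z (n 0 z (n 0 z (n 0 z (n 0 z (n 0 z
 z))))))))))))))))))))))))) z))))))))))) (n 0 (n 0 z (n 0 z (n 0 z (n 0 z (n 491 (n 0 z (n 0 z
 (n 0 z (n 0 z (n 0 z (n 0 z (n 0 z (n 0 z (n 0 z (n 0 z (n 0 z (n 0 z (n 0 z (n 0 z (n 0 z (n 0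
 z (n 0 z z))))))))))))))))) (n 491 (n 0 z (n 0 z (n 0 z (n 2 (n 0 z (n 0 z (n 2 (n 0 z (n 0 z
 (n 0 z (n 0 z (n 0 z (n 0 z z)))))) (n 2 (n 0 z (n 0 z (n 0 z (n 0 z (n 0 z (n 0 z z))))))
 z)))) (n 0 z (n 0 z (n 0 z (n 0 z (n 0 z (n 0 z (n 0 z (n 0 z (n 0 z (n 0 z (n 0 z (n 0 z (n 0
 z z))))))))))))))))) (n 491 (n 0 z (n 0 z (n 0 z (n 0 z (n 0 z (n 0 z (n 0 z (n 0 z (n 0 z (n 2
 (n 0 z (n 2 (n 0 (n 8802595 z (n 8802595 z z)) (n 0 z (n 0 (n 8802595 z (n 8802595 z z)) (n 0 z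
 (n 0 (n 8802595 z (n 8802595 z z)) (n 0 z z)))))) (n 2 (n 0 z (n 0 z (n 0 z (n 0 z (n 0 z (n 0
 z z)))))) z))) (n 0 z (n 0 z (n 0 z (n 0 z (n 0 z (n 0 z (n 0 z z))))))))))))))))) (n 491 (n 0
 z (n 0 z (n 0 z (n 0 z (n 0 z (n 0 z (n 0 z (n 0 z (n 0 z (n 0 z (n 0 z (n 0 z (n 0 z (n 0 z (n
 0 z (n 0 z (n 0 z z))))))))))))))))) (n 809 (n 0 z (n 0 z (n 0 z (n 0 z (n 0 z (n 0 z (n 0 z (n
 0 z (n 0 z z))))))))) (n 785 (n 0 z (n 0 z (n 2 z (n 0 z (n 0 z (n 0 z (n 0 z (n 0 z (n 0 z (n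
 0 z (n 0 z (n 0 z (n 0 z (n 0 z z)))))))))))))) z)))))))))) (n 0 (n 0 z (n 0 z (n 0 z (n 539 (n
 2 (n 0 z (n 0 z (n 0 z (n 2 (n 0 (n 8868131 z (n 8868131 z z)) (n 0 z (n 0 (n 8868131 z (n
 8868131 z z)) (n 0 (n 8868131 z (n 8868131 z z)) (n 0 z (n 0 (n 8868131 z (n 8868131 z z))
 z)))))) (n 1 z z))))) (n 0 z (n 0 z (n 0 z (n 0 z (n 0 z (n 0 z (n 0 z (n 0 z (n 0 z (n 0 z (n
 0 z (n 0 z z))))))))))))) (n 539 (n 0 z (n 0 z (n 0 z (n 0 z (n 0 z (n 0 z (n 0 z (n 0 z (n 0 z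
 (n 0 z (n 0 z (n 0 z (n 0 z z))))))))))))) (n 539 (n 0 z (n 0 z (n 0 z (n 0 z (n 0 z (n 0 z (n
 0 z (n 0 z (n 0 z (n 0 z (n 0 z (n 0 z (n 0 z z))))))))))))) (n 539 (n 0 z (n 0 z (n 2 (n 2 (n
 0 z (n 0 (n 8593507 z (n 8593507 z z)) (n 0 z (n 0 (n 6428763 z (n 6428763 z z)) (n 0 (n
 8722187 z (n 7477339 z z)) (n 0 z z)))))) (n 1 z z)) (n 0 z (n 0 z (n 0 z (n 0 z (n 0 z (n 0 z
 (n 0 z (n 0 z (n 0 z (n 0 z z))))))))))))) (n 941 (n 0 z (n 0 z (n 0 z (n 0 z (n 0 z (n 0 z (n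
 0 z (n 0 z (n 0 z (n 0 z (n 0 z (n 0 z z)))))))))))) (n 301 (n 0 z (n 0 z (n 0 z (n 0 z (n 0 z
 (n 0 z (n 0 z (n 0 z z)))))))) z))))))))) (n 0 (n 0 z (n 0 z (n 1269 (n 0 z (n 0 z (n 0 z (n 0
 z (n 0 z (n 2 (n 0 z (n 0 z (n 0 z (n 2 (n 0 (n 8868131 z (n 8868131 z z)) (n 0 (n 8868131 z (n
 8868131 z z)) (n 0 (n 8868131 z (n 8868131 z z)) (n 0 (n 8868131 z (n 8868131 z z)) (n 0 z (n 0
 z z)))))) (n 2 (n 0 z (n 0 z (n 0 z (n 0 z (n 0 z (n 0 z z)))))) z))))) (n 0 z (n 0 z (n 0 z (n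
 0 z (n 0 z (n 0 z (n 0 z z))))))))))))) (n 1269 (n 0 z (n 0 z (n 0 z (n 0 z (n 0 z (n 0 z (n 0
 z (n 0 z (n 0 z (n 0 z (n 0 z (n 0 z (n 0 z z))))))))))))) (n 1269 (n 0 z (n 0 z (n 0 z (n 0 z
 (n 0 z (n 0 z (n 0 z (n 0 z (n 0 z (n 0 z (n 0 z (n 0 z (n 0 z z))))))))))))) (n 1269 (n 2 (n 2
 (n 0 (n 7677979 z (n 3716 z z)) (n 0 (n 6428763 z (n 6428763 z z)) (n 0 (n 7677979 z (n 3716 z
 z)) (n 0 z (n 0 z (n 0 z z)))))) (n 2 (n 0 z (n 0 z (n 0 z (n 0 z (n 0 z (n 0 z z)))))) z)) (n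
 0 z (n 0 z (n 0 z (n 0 z (n 0 z (n 0 z (n 0 z (n 0 z (n 0 z (n 0 z (n 0 z (n 0 z z)))))))))))))
 (n 929 (n 0 z (n 0 z (n 0 z (n 0 z (n 0 z (n 0 z (n 0 z (n 0 z (n 0 z z))))))))) (n 785 (n 2 z
 (n 0 z (n 0 z (n 0 z (n 0 z (n 0 z (n 0 z (n 0 z z)))))))) z)))))))) (n 0 (n 0 z (n 1269 (n 2
 (n 0 z (n 0 z (n 0 z (n 2 (n 0 z (n 0 z (n 0 z (n 0 z (n 0 z (n 0 z z)))))) (n 2 (n 0 z (n 0 (n
 6496387 z z) (n 0 z (n 0 (n 6490155 z z) (n 0 z (n 0 (n 7544963 z (n 6428683 z z)) z))))))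
 z))))) (n 0 z z)) (n 1269 (n 0 z (n 0 z z)) (n 1269 (n 0 z (n 0 z z)) (n 1269 (n 0 z (n 0 z z))
 (n 929 (n 0 z (n 0 z (n 0 z (n 0 z (n 0 z (n 0 z (n 0 z (n 0 z z)))))))) (n 785 (n 0 z (n 0 z
 (n 0 z (n 0 z (n 0 z (n 0 z (n 0 z z))))))) z))))))) (n 0 (n 327 (n 0 z (n 0 z (n 0 z (n 0 z (n
 0 z z))))) (n 327 (n 0 z (n 2 (n 0 z (n 0 z (n 2 (n 0 z (n 0 z (n 0 z (n 0 z (n 0 z (n 0 z
 z)))))) (n 2 (n 0 (n 8859683 z z) (n 0 (n 8859683 z z) (n 0 z (n 0 z (n 0 z (n 0 (n 8859683 z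
 (n 8859683 z z)) z)))))) z)))) (n 0 z (n 0 z (n 0 z z))))) (n 327 (n 0 z (n 0 z (n 0 z (n 0 z
 (n 0 z z))))) (n 327 (n 0 z (n 0 z (n 0 z (n 0 z (n 0 z z))))) (n 377 (n 0 z (n 0 z (n 2 (n 2
 (n 0 z (n 0 z (n 0 z (n 0 z (n 0 z (n 0 z z)))))) z) (n 0 z (n 0 z (n 0 z (n 0 z (n 0 z (n 0 z
 (n 0 z (n 0 z (n 0 z z)))))))))))) (n 301 (n 0 z (n 0 z (n 2 z (n 0 z (n 0 z (n 0 z (n 0 z
 z))))))) z)))))) (n 0 (n 0 z (n 0 z (n 0 z (n 3 (n 0 z (n 0 z (n 0 z (n 0 z (n 0 z (n 0 z (n 0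
 z z))))))) (n 1 (n 0 z (n 0 z (n 0 z (n 2 z (n 0 z (n 0 z (n 0 z (n 0 z (n 0 z (n 0 z (n 0 z (n
 0 z z)))))))))))) z))))) (n 0 (n 0 z (n 0 z (n 339 (n 0 z (n 0 z (n 0 z (n 0 z (n 0 z (n 0 z
 z)))))) (n 337 (n 0 z (n 0 z (n 0 z (n 0 z (n 0 z (n 0 z (n 0 z (n 0 z (n 0 z (n 0 z (n 0 z (n
 0 z (n 0 z (n 0 z (n 0 z z))))))))))))))) z)))) (n 0 (n 0 z (n 723 (n 0 z (n 0 z (n 0 z (n 0 z
 (n 0 z (n 0 z (n 0 z (n 0 z (n 0 z (n 0 z (n 0 z (n 0 z z)))))))))))) (n 721 (n 0 z (n 0 z (n 0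
 z (n 0 z (n 0 z (n 0 z (n 0 z z))))))) z))) (n 0 (n 255 (n 0 z (n 0 z (n 0 z (n 0 z z)))) (n
 253 (n 0 z (n 2 z (n 0 z (n 0 z (n 0 z (n 0 z (n 0 z (n 0 z z)))))))) z)) (n 0 (n 1 (n 0 z (n 0
 z (n 0 z (n 0 z (n 0 z (n 0 z (n 2 z (n 0 z (n 0 z (n 0 z (n 0 z z))))))))))) z) (n 0 z
 z)))))))))))) (n 0 (n 0 z (n 1 (n 6557747 z (n 6557747 z (n 6557747 z (n 6557747 z (n 6557747 z
 (n 6557747 z z)))))) (n 1 (n 3756 z (n 6632459 z (n 5378147 z (n 1036 z (n 3278427 z (n 3756 z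
 z)))))) z))) (n 0 z z)))) (n 0x16d9a8b2e94588ba2b7150944ed16592885a94289c61b8a548269d6c238bd00
 (n 0 (n 153 (n 6623299 z (n 0 z (n 0 z (n 6623299 z (n 0 z (n 2 z (n 0 z (n 0 z z)))))))) (n 57
 (n 0 z (n 0 z (n 0 z (n 10 z (n 0 z (n 6496515 z z)))))) (n 51 (n 18 z (n
 0x6ca6ca08038057fe7fd80c7fe8007f98077fd7fb8037fa80080080080e7f97ff8018027ea80c7f58067fa8008047fe8008038038097fc8097f28048017fb7f78078097fc80280f7f77fe7f98068077f80811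
 z (n 0 z (n 6496515 z (n 0 z z))))) (n 3 (n 0 z (n 0 z (n 0 z (n 0 z (n 0 z (n 6496515 z (n 0 z
 (n 0 z (n 0 z (n 0 z (n 0 z (n 0 z z)))))))))))) (n 1 (n 26 z (n 0 z (n 6562059 z (n 0 z (n 0 z
 (n 0 z (n 0 z (n 34 z (n 0 z (n 42 z (n 0 z (n 50 z z)))))))))))) (n 0 (n 58 z (n 0 z (n
 6623299 z (n 0 z (n 66 z (n 0 z (n 74 z (n 82 z (n 90 z (n 0 z (n
 0xaca88624038008057ff7ff8077fb8087ff7fd7fc7fc7f880480080080a7f67fc7f480a7fc80a7fd7ff7fe8078067fb8008078038067fa8067fd80d7f87f880480b7ea8038078117fb7ee80580c7f77f60811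
 z (n 0 z z)))))))))))) z)))))) (n 51 (n 0 (n 995 (n 0 z (n 0 z (n 0 z (n 0 z z)))) (n 987 (n 0
 z (n 0 z (n 0 z (n 0 z (n 0 z (n 0 z (n 2 (n 2 (n 0 z (n 0 z (n 0 z (n 0 z (n 0 z (n 0 z
 z)))))) (n 2 (n 0 (n 8864051 z (n 8864051 z z)) (n 0 (n 8864051 z (n 8864051 z z)) (n 0 z (n 0
 (n 8864051 z (n 8864051 z z)) (n 0 z (n 0 z z)))))) (n 2 (n 0 (n 8663411 z (n 8730155 z z)) (n
 0 (n 1212 z (n 8663411 z z)) (n 0 z (n 0 (n 6629403 z (n 6629403 z z)) (n 0 z (n 0 z z)))))) (n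
 2 (n 0 (n 8848155 z (n 8848155 z z)) (n 0 z (n 0 z (n 0 (n 8848155 z (n 7680387 z z)) (n 0 (n
 6631811 z (n 6631811 z z)) (n 0 z z)))))) (n 2 (n 0 (n 8864051 z (n 8864051 z z)) (n 0 z (n 0 z
 (n 0 (n 8864051 z (n 8864051 z z)) (n 0 (n 8864051 z (n 8864051 z z)) (n 0 (n 8864051 z (n
 8864051 z z)) z)))))) (n 2 (n 0 z (n 0 z (n 0 z (n 0 z (n 0 z (n 0 z z)))))) (n 2 (n 0 (n
 8663411 z (n 8656699 z z)) (n 0 (n 8730395 z (n 8663411 z z)) (n 0 z (n 0 (n 8730395 z (n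
 8656699 z z)) (n 0 z (n 0 z z)))))) (n 2 (n 0 z (n 0 z (n 0 z (n 0 z (n 0 z (n 0 z z)))))) (n 2
 (n 0 z (n 0 z (n 0 z (n 0 z (n 0 z (n 0 z z)))))) z))))))))) (n 0 z (n 0 z (n 0 z (n 0 z
 z))))))))))) (n 303 (n 0 z (n 0 z (n 0 z (n 0 z z)))) (n 303 (n 0 z (n 0 z (n 0 z (n 0 z z))))
 (n 303 (n 0 z (n 0 z (n 0 z (n 0 z z)))) (n 303 (n 0 z (n 0 z (n 0 z (n 0 z z)))) (n 985 (n 0 z
 (n 0 z (n 0 z (n 0 z (n 0 z (n 0 z (n 0 z (n 0 z (n 0 z (n 0 z (n 0 z (n 0 z z)))))))))))) (n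
 985 (n 0 z (n 0 z (n 0 z (n 0 z (n 0 z (n 0 z (n 0 z (n 0 z (n 0 z (n 0 z (n 0 z (n 0 z
 z)))))))))))) (n 985 (n 0 z (n 0 z (n 0 z (n 0 z (n 0 z (n 0 z (n 0 z (n 0 z (n 0 z (n 0 z (n 0
 z (n 0 z z)))))))))))) (n 985 (n 0 z (n 0 z (n 0 z (n 0 z (n 0 z (n 0 z (n 0 z (n 0 z (n 0 z (n
 0 z (n 0 z (n 0 z z)))))))))))) (n 985 (n 0 z (n 0 z (n 0 z (n 0 z (n 0 z (n 0 z (n 0 z (n 0 z
 (n 0 z (n 0 z (n 0 z (n 0 z z)))))))))))) z))))))))))) (n 0 (n 103 (n 0 z (n 0 z (n 0 z (n 0 z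
 (n 0 z (n 0 z (n 0 z (n 0 z (n 0 z (n 0 z (n 0 z (n 2 (n 1 z (n 2 (n 0 z (n 0 z (n 0 z (n 0 z
 (n 0 z (n 0 (n 8864051 z z) z)))))) (n 2 (n 0 z (n 0 z (n 0 z (n 0 z (n 0 z (n 0 z z)))))) (n 2
 (n 0 z (n 0 z (n 0 z (n 0 z (n 0 z (n 0 z z)))))) (n 1 z (n 2 (n 0 z (n 0 z (n 0 z (n 0 z (n 0
 z (n 0 (n 8802867 z z) z)))))) (n 2 (n 0 z (n 0 z (n 0 z (n 0 z (n 0 z (n 0 z z)))))) (n 2 (n 0
 z (n 0 z (n 0 z (n 0 z (n 0 z (n 0 z z)))))) (n 2 (n 0 z (n 0 (n 8782635 z z) (n 0 (n 8729187 z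
 z) (n 0 z (n 0 z (n 0 (n 8663411 z (n 8782635 z z)) z)))))) z))))))))) (n
 0x8ec0062dd800c13b001717608187e78167e88037ff7cf7fe82082e7ec80e7fc7f48177eb8167e87ed80a7d97fb81380b7ff7ed7fe8018008247e97de8027ee80d7dc81380d7e77e383c8047ea7bd80e8067f78028058090111
 z (n 0 z (n 0 z (n 0 z (n 0 z (n 0 z (n 0 z (n 0 z (n 0 z (n 0 z (n 0 z (n 0 z (n 0 z
 z))))))))))))))))))))))))) (n 111 (n 0 z (n 0 z (n 0 z (n 0 z (n 0 z (n 0 z (n 0 z (n 0 z (n 0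
 z (n 0 z (n 0 z z))))))))))) (n 111 (n 0 z (n 0 z (n 0 z (n 0 z (n 0 z (n 0 z (n 2 (n 0 z (n 0
 z (n 2 (n 0 z (n 0 z (n 0 z (n 0 z (n 0 z (n 0 (n 8864051 z z) z)))))) (n 2 (n 0 z (n 0 z (n 0
 z (n 0 z (n 0 z (n 0 z z)))))) (n 2 (n 0 z (n 0 z (n 0 z (n 0 z (n 0 z (n 0 z z)))))) (n 2 (n 0
 z (n 0 z (n 0 z (n 0 (n 8730395 z z) (n 0 (n 8730395 z z) (n 0 (n 436 z (n 8795979 z z))
 z)))))) (n 2 (n 0 z (n 0 z (n 0 (n 8729187 z z) (n 0 (n 8782635 z z) (n 0 z (n 0 (n 8782635 z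
 (n 8730395 z z)) z)))))) z))))))) (n 0 z (n 0 z (n 0 z (n 0 z z))))))))))) (n 111 (n 0 z (n 0 z
 (n 2 (n 0 z (n 2 (n 0 z (n 0 z (n 0 z (n 0 z (n 0 z (n 0 (n 436 z z) z)))))) (n 2 (n 0 z (n 0 z
 (n 0 z (n 0 z (n 0 z (n 0 z z)))))) (n 2 (n 0 z (n 0 z (n 0 z (n 0 z (n 0 z (n 0 z z)))))) (n 2
 (n 0 z (n 0 z (n 0 z (n 0 z (n 0 z (n 0 z z)))))) (n 2 (n 0 z (n 0 z (n 0 z (n 0 z (n 0 z (n 0
 z z)))))) z)))))) (n 0 z (n 0 z (n 0 z (n 0 z (n 0 z (n 0 z (n 0 z (n 0 z z))))))))))) (n 111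
 (n 0 z (n 0 z (n 0 z (n 2 (n 2 (n 0 z (n 0 z (n 0 z (n 0 z (n 0 z (n 0 z z)))))) (n 2 (n 0 z (n
 0 z (n 0 z (n 0 z (n 0 z (n 0 z z)))))) (n 2 (n 0 z (n 0 z (n 0 z (n 0 z (n 0 z (n 0 z z))))))
 (n 1 z (n 1 z z))))) (n 0 z (n 0 z (n 0 z (n 0 z (n 0 z (n 0 z (n 0 z z))))))))))) (n 109 (n 2
 (n 0 z (n 0 z (n 0 z (n 0 z z)))) (n 0 z (n 0 z (n 0 z (n 0 z (n 0 z (n 0 z (n 0 z (n 0 z (n 0
 z (n 0 z z))))))))))) (n 109 (n 0 z (n 0 z (n 0 z (n 0 z (n 0 z (n 0 z (n 0 z (n 0 z (n 0 z (n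
 0 z (n 0 z z))))))))))) (n 109 (n 0 z (n 0 z (n 0 z (n 0 z (n 0 z (n 0 z (n 0 z (n 0 z (n 2 (n
 0 z (n 0 z z)) (n 0 z (n 0 z z))))))))))) (n 109 (n 0 z (n 0 z (n 0 z (n 0 z (n 0 z (n 0 z (n 0
 z (n 2 (n 0 z z) (n 0 z (n 0 z (n 0 z z))))))))))) (n 109 (n 0 z (n 0 z (n 0 z (n 0 z (n 0 z (n
 0 z (n 0 z (n 0 z (n 0 z (n 0 z (n 0 z z))))))))))) z)))))))))) (n 0 (n 99 (n 0 z (n 0 z (n 0 z
 (n 0 z (n 2 (n 0 z (n 0 z (n 0 z (n 1 z (n 2 (n 0 z (n 0 z (n 0 z (n 0 z (n 0 z (n 0 (n 8868403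
 z z) z)))))) (n 2 (n 0 z (n 0 z (n 0 z (n 0 z (n 0 z (n 0 z z)))))) (n 2 (n 0 z (n 0 z (n 0 z
 (n 0 z (n 0 z (n 0 z z)))))) (n 2 (n 0 z (n 0 z (n 0 z (n 0 z (n 0 z (n 0 z z)))))) z))))))))
 (n 0 z (n 0 z (n 0 z (n 0 z (n 0 z (n 0 z (n 0 z (n 0 z (n 0 z (n 0 z z))))))))))))))) (n 99 (n
 0 z (n 0 z (n 0 z (n 0 z (n 0 z (n 0 z (n 0 z (n 0 z (n 0 z (n 0 z (n 0 z (n 0 z (n 0 z (n 0 z
 (n 0 z z))))))))))))))) (n 99 (n 0 z (n 0 z (n 0 z (n 0 z (n 0 z (n 0 z (n 0 z (n 0 z (n 0 z (n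
 2 (n 0 z (n 1 z (n 2 (n 0 z (n 0 z (n 0 z (n 0 z (n 0 z (n 0 z z)))))) (n 2 (n 0 z (n 0 z (n 0
 z (n 0 z (n 0 z (n 0 z z)))))) (n 2 (n 0 z (n 0 z (n 0 z (n 0 (n 8726299 z z) (n 0 (n 8726299 z
 z) (n 0 (n 8730139 z (n 8730139 z z)) z)))))) (n 2 (n 0 z (n 0 (n 8663395 z z) (n 0 z (n 0 (n
 8730139 z z) (n 0 z (n 0 (n 388 z (n 8726299 z z)) z)))))) z)))))) (n 0 z (n 0 z (n 0 z (n 0 z
 (n 0 z z))))))))))))))) (n 99 (n 0 z (n 0 z (n 0 z (n 0 z (n 0 z (n 0 z (n 0 z (n 0 z (n 0 z (n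
 0 z (n 0 z (n 0 z (n 0 z (n 0 z (n 0 z z))))))))))))))) (n 97 (n 0 z (n 0 z (n 0 z (n 0 z (n 0
 z (n 0 z (n 0 z (n 0 z (n 0 z (n 0 z (n 0 z (n 0 z (n 0 z (n 0 z z)))))))))))))) (n 97 (n 0 z
 (n 0 z (n 0 z (n 0 z (n 0 z (n 0 z (n 0 z (n 0 z (n 0 z (n 2 (n 0 z (n 0 z (n 0 z z))) (n 0 z
 (n 0 z (n 0 z (n 0 z z)))))))))))))) (n 97 (n 0 z (n 0 z (n 0 z (n 0 z (n 0 z (n 0 z (n 2 (n 0
 z (n 0 z z)) (n 0 z (n 0 z (n 0 z (n 0 z (n 0 z (n 0 z (n 0 z z)))))))))))))) (n 97 (n 0 z (n 0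
 z (n 0 z (n 0 z (n 0 z (n 0 z (n 0 z (n 0 z (n 0 z (n 0 z (n 0 z (n 0 z (n 0 z (n 0 z
 z)))))))))))))) (n 97 (n 0 z (n 0 z (n 0 z (n 0 z (n 0 z (n 0 z (n 0 z (n 2 z (n 0 z (n 0 z (n
 0 z (n 0 z (n 0 z (n 0 z z)))))))))))))) z))))))))) (n 0 (n 0 z (n 0 z (n 0 z (n 1 (n 0 z (n 0
 z (n 0 z (n 0 z (n 0 z (n 0 z (n 0 z (n 0 z (n 0 z (n 0 z (n 0 z (n 0 z (n 0 z (n 0 z (n 0 z (n
 0 z (n 0 z (n 0 z (n 0 z (n 0 z (n 0 z (n 0 z (n 0 z (n 0 z (n 0 z (n 0 z (n 2 (n 0 z (n 0 z (n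
 0 z (n 0 z z)))) (n 0 z (n 0 z (n 0 z (n 0 z (n 0 z (n 0 z (n 0 z (n 0 z (n 0 z (n 0 z (n
 0x8ec003edd800793b000e976080f7f080d7f18028007e07fe81481e7f38097fe7f880f7f280f7f17f48067e77fd80d8068007f47fe8018008177f17ea8017f48097ea80c8087f07ee8268027f37d680a8047fa8018038050111
 z (n 0 z (n 0 z (n 0 z (n 0 z (n 0 z (n 0 z (n 0 z (n 0 z (n 0 z
 z))))))))))))))))))))))))))))))))))))))))))))))) (n 1 (n 0 z (n 0 z (n 0 z (n 0 z (n 0 z (n 0 z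
 (n 0 z (n 0 z (n 0 z (n 0 z (n 0 z (n 0 z (n 0 z (n 0 z (n 0 z (n 0 z (n 0 z (n 0 z (n 0 z (n 0
 z (n 0 z (n 0 z (n 0 z (n 0 z (n 0 z (n 0 z (n 0 z (n 0 z (n 0 z (n 0 z (n 0 z (n 0 z (n 0 z (n
 0 z (n 0 z (n 0 z (n 0 z (n 0 z (n 0 z (n 0 z (n 0 z (n 0 z (n 0 z (n 0 z (n 0 z (n 0 z (n 0 z
 z))))))))))))))))))))))))))))))))))))))))))))))) (n 1 (n 0 z (n 0 z (n 0 z (n 0 z (n 0 z (n 0 z
 (n 0 z (n 0 z (n 0 z (n 0 z (n 0 z (n 0 z (n 0 z (n 0 z (n 0 z (n 0 z (n 0 z (n 0 z (n 0 z (n 0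
 z (n 0 z (n 0 z (n 0 z (n 0 z (n 0 z (n 0 z (n 0 z (n 0 z (n 0 z (n 0 z (n 0 z (n 0 z (n 2 (n 0
 z (n 0 z z)) (n 0 z (n 0 z (n 0 z (n 0 z (n 0 z (n 0 z (n 0 z (n 0 z (n 0 z (n
 0x18ec00c0dd8017d3b002e17608307cf82a7d28077fd7a07fc83e85a7da81b7f97e982c7d682a7d27db8147b47f68258157fe7db7fc8028008457d47be8027dd81a7bb8248197d07c88768087d677e81a80c7ee80280a8110111
 z (n 0 z (n 0 z (n 0 z (n 0 z z))))))))))))))))))))))))))))))))))))))))))))))) (n 1 (n 0 z (n 0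
 z (n 0 z (n 2 (n 0 z z) (n 0 z (n 0 z (n 0 z (n 0 z (n 0 z (n 0 z (n 0 z (n 0 z (n 0 z (n 0 z
 (n 0 z (n 0 z (n 0 z (n 0 z (n 0 z (n 0 z (n 0 z (n 0 z (n 0 z (n 0 z (n 0 z (n 0 z (n 0 z (n 0
 z (n 0 z (n 0 z (n 0 z (n 0 z (n 0 z (n 0 z (n 0 z (n 0 z (n 0 z (n 0 z (n 0 z (n 0 z (n 0 z (n
 0 z (n 0 z (n 0 z (n 0 z (n 0 z (n 0 z z))))))))))))))))))))))))))))))))))))))))))))))) (n 1 (n
 0 z (n 0 z (n 0 z (n 0 z (n 0 z (n 0 z (n 0 z (n 0 z (n 0 z (n 0 z (n 0 z (n 0 z (n 0 z (n 0 z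
 (n 0 z (n 0 z (n 0 z (n 0 z (n 0 z (n 0 z (n 0 z (n 0 z (n 0 z (n 0 z (n 0 z (n 0 z (n 0 z (n 0
 z (n 0 z (n 0 z (n 0 z (n 0 z (n 0 z (n 0 z (n 0 z (n 0 z (n 0 z (n 0 z (n 0 z (n 0 z (n 0 z (n
 0 z (n 0 z (n 0 z (n 0 z (n 0 z (n 0 z z)))))))))))))))))))))))))))))))))))))))))))))))
 z)))))))) (n 0 (n 0 z (n 0 z (n 1 (n 0 z (n 0 z (n 0 z (n 0 z (n 0 z (n 0 z (n 0 z (n 0 z (n 0
 z (n 0 z (n 0 z (n 0 z (n 0 z (n 0 z (n 0 z (n 0 z (n 0 z (n 0 z (n 0 z (n 0 z (n 0 z (n 0 z (n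
 0 z (n 0 z (n 0 z (n 0 z (n 0 z (n 0 z (n 0 z (n 0 z (n 0 z (n 0 z (n 0 z (n 0 z (n 0 z (n 0 z
 (n 0 z (n 0 z (n 0 z (n 0 z (n 0 z (n 0 z (n 0 z (n 0 z (n 0 z (n 0 z (n 0 z (n 0 z (n 0 z (n 0
 z (n 0 z (n 0 z (n 0 z (n 0 z (n 0 z (n 0 z
 z)))))))))))))))))))))))))))))))))))))))))))))))))))))))) (n 1 (n 0 z (n 0 z (n 0 z (n 0 z (n 0
 z (n 0 z (n 0 z (n 0 z (n 0 z (n 0 z (n 0 z (n 0 z (n 0 z (n 0 z (n 0 z (n 0 z (n 0 z (n 0 z (n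
 0 z (n 0 z (n 0 z (n 0 z (n 0 z (n 0 z (n 0 z (n 0 z (n 0 z (n 0 z (n 0 z (n 0 z (n 0 z (n 0 z
 (n 0 z (n 0 z (n 2 (n 0 z (n 0 z (n 0 z z))) (n 0 z (n 0 z (n 0 z (n 0 z (n 0 z (n 0 z (n 0 z
 (n 0 z (n
 0x8ec0062dd800c53b001797608187e78167e88047ff7cf7fe81f82e7ec80e7fc7f48167eb8167e87ed80a7d97fb81480b7ff7ed7ff8018008247e97df8017ee80e7dc81280c7e87e483c8047eb7bd80e8067f78018048090111
 z (n 0 z (n 0 z (n 0 z (n 0 z (n 0 z (n 0 z (n 0 z (n 0 z (n 0 z (n 0 z (n 0 z (n 0 z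
 z)))))))))))))))))))))))))))))))))))))))))))))))))))))))) (n 1 (n 0 z (n 0 z (n 0 z (n 0 z (n 0
 z (n 0 z (n 0 z (n 0 z (n 0 z (n 0 z (n 0 z (n 0 z (n 0 z (n 0 z (n 0 z (n 0 z (n 0 z (n 0 z (n
 0 z (n 0 z (n 0 z (n 0 z (n 0 z (n 0 z (n 0 z (n 0 z (n 0 z (n 0 z (n 0 z (n 0 z (n 0 z (n 0 z
 (n 0 z (n 0 z (n 0 z (n 0 z (n 0 z (n 0 z (n 0 z (n 0 z (n 0 z (n 0 z (n 0 z (n 0 z (n 0 z (n 0
 z (n 0 z (n 0 z (n 0 z (n 0 z (n 0 z (n 0 z (n 0 z (n 0 z (n 0 z (n 0 z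
 z)))))))))))))))))))))))))))))))))))))))))))))))))))))))) (n 1 (n 0 z (n 0 z (n 0 z (n 0 z (n 0
 z (n 0 z (n 0 z (n 0 z (n 0 z (n 0 z (n 0 z (n 0 z (n 0 z (n 0 z (n 0 z (n 0 z (n 0 z (n 0 z (n
 0 z (n 0 z (n 0 z (n 0 z (n 0 z (n 0 z (n 0 z (n 0 z (n 0 z (n 0 z (n 0 z (n 0 z (n 0 z (n 0 z
 (n 0 z (n 0 z (n 0 z (n 0 z (n 0 z (n 0 z (n 0 z (n 0 z (n 0 z (n 0 z (n 0 z (n 0 z (n 0 z (n 0
 z (n 0 z (n 0 z (n 0 z (n 0 z (n 0 z (n 0 z (n 0 z (n 0 z (n 0 z (n 0 z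
 z)))))))))))))))))))))))))))))))))))))))))))))))))))))))) (n 1 (n 0 z (n 0 z (n 0 z (n 0 z (n 0
 z (n 0 z (n 0 z (n 0 z (n 0 z (n 0 z (n 0 z (n 0 z (n 0 z (n 0 z (n 0 z (n 0 z (n 2 z (n 0 z (n
 0 z (n 0 z (n 0 z (n 0 z (n 0 z (n 0 z (n 0 z (n 0 z (n 0 z (n 0 z (n 0 z (n 0 z (n 0 z (n 0 z
 (n 0 z (n 0 z (n 0 z (n 0 z (n 0 z (n 0 z (n 0 z (n 0 z (n 0 z (n 0 z (n 0 z (n 0 z (n 0 z (n 0
 z (n 0 z (n 0 z (n 0 z (n 0 z (n 0 z (n 0 z (n 0 z (n 0 z (n 0 z (n 0 z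
 z)))))))))))))))))))))))))))))))))))))))))))))))))))))))) z))))))) (n 0 (n 0 z (n 1 (n 0 z (n 0
 z (n 0 z (n 0 z (n 0 z (n 0 z (n 0 z (n 0 z (n 0 z (n 0 z (n 0 z (n 0 z (n 0 z (n 0 z (n 0 z (n
 0 z (n 0 z (n 0 z (n 0 z (n 2 (n 0 z (n 0 z (n 0 z (n 0 z z)))) (n 0 z (n 0 z (n 0 z (n 0 z (n
 0 z (n 0 z (n 0 z (n 0 z (n 0 z (n 0 z (n 0 z (n 0 z (n
 0x8ec0062dd800c13b001717608187e78157e88037ff7cf7fe82082e7ec80f7fc7f48177eb8167e97ed8097d97fb81380b7ff7ed7fe8018008237e97df8017ee80e7dd81280d7e67e483c8047eb7bd80e8067f78028058090111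
 z (n 0 z (n 0 z (n 0 z (n 0 z (n 0 z (n 0 z (n 0 z (n 0 z (n 0 z (n 0 z (n 0 z (n 0 z (n 0 z (n
 0 z (n 0 z (n 0 z z))))))))))))))))))))))))))))))))))))))))))))))))) (n 1 (n 0 z (n 0 z (n 0 z
 (n 0 z (n 0 z (n 0 z (n 0 z (n 0 z (n 0 z (n 0 z (n 0 z (n 0 z (n 0 z (n 0 z (n 0 z (n 0 z (n 0
 z (n 0 z (n 0 z (n 0 z (n 0 z (n 0 z (n 0 z (n 0 z (n 0 z (n 0 z (n 0 z (n 0 z (n 0 z (n 0 z (n
 0 z (n 0 z (n 0 z (n 0 z (n 0 z (n 0 z (n 0 z (n 0 z (n 0 z (n 0 z (n 0 z (n 0 z (n 0 z (n 0 z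
 (n 0 z (n 0 z (n 0 z (n 0 z (n 0 z z))))))))))))))))))))))))))))))))))))))))))))))))) (n 1 (n 0
 z (n 0 z (n 0 z (n 0 z (n 0 z (n 0 z (n 0 z (n 0 z (n 0 z (n 0 z (n 0 z (n 0 z (n 2 (n 0 z (n 0
 z z)) (n 0 z (n 0 z (n 0 z (n 0 z (n 0 z (n 0 z (n 0 z (n 0 z (n 0 z (n 0 z (n 0 z (n 0 z (n 0
 z (n 0 z (n 0 z (n 0 z (n 0 z (n 0 z (n 0 z (n 0 z (n 0 z (n 0 z (n 0 z (n 0 z (n 0 z (n 0 z (n
 0 z (n 0 z (n 0 z (n 0 z (n 0 z (n 0 z (n 0 z (n 0 z (n 0 z (n 0 z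
 z))))))))))))))))))))))))))))))))))))))))))))))))) (n 1 (n 0 z (n 0 z (n 0 z (n 0 z (n 0 z (n 0
 z (n 0 z (n 0 z (n 0 z (n 0 z (n 0 z (n 0 z (n 0 z (n 0 z (n 0 z (n 0 z (n 0 z (n 0 z (n 0 z (n
 0 z (n 0 z (n 0 z (n 0 z (n 0 z (n 0 z (n 0 z (n 0 z (n 0 z (n 0 z (n 0 z (n 0 z (n 0 z (n 0 z
 (n 0 z (n 0 z (n 0 z (n 0 z (n 0 z (n 0 z (n 0 z (n 0 z (n 0 z (n 0 z (n 0 z (n 0 z (n 0 z (n 0
 z (n 0 z (n 0 z z))))))))))))))))))))))))))))))))))))))))))))))))) (n 1 (n 0 z (n 0 z (n 0 z (n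
 0 z (n 0 z (n 0 z (n 0 z (n 0 z (n 0 z (n 0 z (n 0 z (n 0 z (n 0 z (n 0 z (n 0 z (n 0 z (n 0 z
 (n 0 z (n 0 z (n 0 z (n 0 z (n 0 z (n 0 z (n 0 z (n 0 z (n 0 z (n 0 z (n 0 z (n 0 z (n 0 z (n 0
 z (n 0 z (n 0 z (n 0 z (n 0 z (n 0 z (n 0 z (n 0 z (n 0 z (n 0 z (n 0 z (n 0 z (n 0 z (n 0 z (n
 0 z (n 0 z (n 0 z (n 0 z (n 0 z z))))))))))))))))))))))))))))))))))))))))))))))))) z)))))) (n 0
 (n 1 (n 0 z (n 0 z (n 0 z (n 0 z (n 0 z (n 0 z (n 0 z z))))))) (n 1 (n 2 (n 0 z (n 0 z (n 0 z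
 z))) (n 0 z (n 0 z (n 0 z (n 0 z (n 0 z (n 0 z z))))))) (n 1 (n 0 z (n 0 z (n 0 z (n 0 z (n 0 z
 (n 0 z (n
 0x4ec6ec64037fc8047fd7fd8007fd8018067f88078027fc8027fb7fc80e7f680c7fd8007ea8007f97fa7f18038008008007fb80380a80080b7fb7fe8097f88028067f67fc8018068017f77ff8068007f40811
 z z))))))) (n 1 (n 0 z (n 0 z (n 0 z (n 0 z (n 0 z (n 0 z (n 0 z z))))))) (n 1 (n 0 z (n 0 z (n
 0 z (n 0 z (n 0 z (n 0 z (n 0 z z))))))) z))))) (n 0 (n 0 z (n 0 z (n 0 z (n 0 z z)))) (n 0 (n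
 0 z (n 0 z (n 0 z z))) (n 0 (n 0 z (n 0 z z)) (n 0 (n 0 z z) (n 0 z z)))))))))))) (n 0 (n 1 (n
 5449243 z (n 4399459 z (n 4331067 z (n 1228 z (n 1228 z (n 1228 z z)))))) (n 1 (n 1228 z (n
 1228 z (n 1228 z (n 1228 z (n 1228 z (n 1228 z z)))))) (n 0 z (n 1 (n 6496515 z (n 6496515 z (n
 6496515 z (n 6496515 z (n 6496515 z (n 6496515 z z)))))) (n 0 z z))))) (n 0 z z)))) (n
 0x6963a156e50898ed16a71877588196474445bac229d70135a540 (n 0 (n 327 (n 0 z (n 6492227 z (n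
 0x1eca8ca86070001af653531203800077c64200048f6c840001de99080018bcb2100029f86428000e17ffade8001b08003537ff88b80007a7ffd978004227ffc4b7ffe558000008000008000108000e48001317ffebb7fff788002717ffc178004d67ffdd28001977ffce87ffde78004347ffc188000107fff688000107ffea88000007ffdfb80000a7ffd9e80000e8000e08005257fff2b7ffeef7fff597ffc0280096a7ffc0a8001a97ffcfa7ffd1e8004db8002f57ffd9580065b1159
 z (n
 0x494c594100e08ca8a86203894d90a6519e5a7a547a8668857f6985898284ac847a6c65a98e7ba85fa98286775f658a9257985f48e849a88a3dc574868f1009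
 z (n 2 z z))))) (n 325 (n 10 z (n 6492227 z (n 6492227 z (n 0 z z)))) (n 9 (n 0 z (n 18 z (n 0
 z (n 0 z (n 6562571 z (n 0 z z)))))) (n 3 (n 0 z (n 0 z (n 0 z (n 6492227 z (n 26 z (n 0 z (n 0
 z z))))))) (n 1 (n 6562571 z (n 34 z (n 42 z (n
 0x1194994040e06ca4ca200388707e89848172817b7d8080818178887e7f81917e73797d9884848384827f758a7a74847b70897567a26c927980947985811009
 z (n
 0x46ca8a642078000017ffffe7fffff7fffd08000827fffdc7fffd57ffffa80000580000e8000018000007ffffe8000177fffa17fffd180000d80003a80004b7fffe38000557fffe17ffff37fffe07fffed80000d8000148000207ffff07fffdd80001380003880000680004b7fffcb8000017fffa97fffff8000657fffc580002280000b80000a80000c7ffffc7fffe380001580002780000c7fffe20819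
 z (n 50 z (n
 0x2b65083847b7b8e787e7d83807a8680827a837f817f81817d80808683837a837e7d7b8680817e7b7e857e7e7e80857f87817e82820049
 z (n 6562571 z (n
 0xd3650859272759f707e82897b659b80886b787090707a8485965e977589738d607d877e84846f9a7e877c9b5fa1686d8c6c8e817f0049
 z (n 0 z (n
 0xd652651303800006b29b29880c0000a54c9940406000002ca4a602030000558c200000aad840000154b0800002a861080000e7fff6280003a8000787ffeae80005580000e8000427fffb87fffaa80000e80000e7ffff280000480002e8000028000487fffdd7fff638000a07fff6980003f7fff9080000480004f7fff9a7ffff97fffb17fffeb80001f80000f7fff9a80002b7fff718000398000158000e77fffa27fff8a80000e7fff938000ff7fffa880002d7fffd17fffa38000878000647ffff48000742119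
 z z))))))))))) (n 0 (n 3212891 z (n 0 z (n 0 z (n 0 z (n 0 z (n 0 z (n 0 z (n 0 z (n 58 z (n 0
 z (n 66 z (n
 0x4b632837a7f8672837f8b7c7b7a86808477857d806c8e788181679c74887883727f7d7d757c7eab757680847e8d766c817f877d820049
 z (n 0 z (n 0 z (n
 0x4b621837a7f8672837f8b7c7b7a86808477857d806c8e788181679c74887883727f7d7d757c7eab757680847e8d766c817f877d820049
 z (n
 0x32d8c051318089630886a83934b9979986d82808080829b8b80685d9376757f6eb27a8089808b7d807e64657fae7068806da87f7b6b888980738100c9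
 z (n 0 z (n 0 z (n
 0x2b64283847b7b8e787e7d83807a8680827a837f817f81817d80808683837a837e7d7b8680817e7b7e857e7e7e80857f87817e82820049
 z (n 0 z (n 0 z (n 0 z (n 2164315 z (n 74 z (n
 0xd3641859272759f707e82897b659b80886b787090707a8485965e977589738d607d877e84846f9a7e877c9b5fa1686d8c6c8e817f0049
 z (n 0 z (n 0 z (n 0 z z)))))))))))))))))))))))))))) z)))))) (n 325 (n 0 (n 631 (n 0 z (n 0 z
 (n 2 (n 2 (n 0 z (n 0 z (n 0 z (n 0 z (n 0 z (n 0 z z)))))) (n 2 (n 0 z (n 0 z (n 0 z (n 0 z (n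
 0 z (n 0 z z)))))) (n 2 (n 0 z (n 0 z (n 0 z (n 0 z (n 0 z (n 0 (n 2316 z z) z)))))) (n 2 (n 0
 (n 8783643 z z) (n 0 z (n 0 z (n 0 z (n 0 z (n 0 (n 2316 z (n 8783643 z z)) z)))))) (n 1 z (n 2
 (n 0 z (n 0 z (n 0 z (n 0 z (n 0 z (n 0 z z)))))) (n 2 (n 0 z (n 0 z (n 0 z (n 0 z (n 0 z (n 0
 z z)))))) (n 2 (n 0 (n 2516 z z) (n 0 z (n 0 z (n 0 z (n 0 z (n 0 (n 2516 z (n 2516 z z))
 z)))))) z)))))))) (n 0 z (n 0 z (n 0 z (n 0 z (n 0 z (n 0 z (n 0 z (n 0 z z))))))))))) (n 129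
 (n 2 (n 2 (n 0 z (n 0 z (n 0 z (n 0 z (n 0 z (n 0 z z)))))) (n 2 (n 0 z (n 0 z (n 0 z (n 0 z (n
 0 z (n 0 z z)))))) (n 2 (n 0 (n 8783643 z z) (n 0 z (n 0 z (n 0 z (n 0 z (n 0 (n 2316 z (n
 8783643 z z)) z)))))) (n 1 z (n 2 (n 0 z (n 0 z (n 0 z (n 0 z (n 0 z (n 0 z z)))))) (n 2 (n 0 z
 (n 0 z (n 0 z (n 0 z (n 0 z (n 0 z z)))))) (n 2 (n 0 z (n 0 z (n 0 z (n 0 z (n 0 z (n 0 z
 z)))))) z))))))) (n 0 z (n 0 z (n 0 z (n 0 z (n 0 z (n 0 z (n 0 z (n 0 z (n 0 z (n 0 z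
 z))))))))))) (n 627 (n 0 z (n 2 (n 1 z (n 2 (n 0 z (n 0 z (n 0 z (n 0 z (n 0 z (n 0 z z))))))
 (n 1 z (n 2 (n 0 z (n 0 z (n 0 z (n 0 z (n 0 z (n 0 z z)))))) (n 2 (n 0 z (n 0 z (n 0 z (n 0 z
 (n 0 z (n 0 z z)))))) (n 2 (n 0 (n 2516 z z) (n 0 z (n 0 z (n 0 z (n 0 z (n 0 (n 2516 z (n 2516
 z z)) z)))))) z)))))) (n 0 z (n 0 z (n 0 z (n 0 z (n 0 z (n 0 z z)))))))) (n 579 (n 0 z (n 0 z
 (n 2 (n 0 z (n 0 z (n 2 (n 0 z (n 0 z (n 0 z (n 0 z (n 0 z (n 0 z z)))))) (n 1 z (n 1 z z)))))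
 (n 0 z (n 0 z (n 0 z (n 0 z (n 0 z (n 0 z (n 0 z (n 0 z (n 0 z (n 0 z z))))))))))))) (n 579 (n
 0 z (n 0 z (n 0 z (n 2 (n 0 z (n 2 (n 0 z (n 0 z (n 0 z (n 0 z (n 0 z (n 0 z z)))))) (n 2 (n 0
 z (n 0 z (n 0 z (n 0 z (n 0 z (n 0 z z)))))) (n 2 (n 0 (n 2516 z (n 2516 z z)) (n 0 z (n 0 z (n
 0 z (n 0 z (n 0 (n 2516 z z) z)))))) z)))) (n 0 z (n 0 z (n 0 z (n 0 z (n 0 z (n 0 z (n 0 z (n
 0 z (n 0 z z))))))))))))) (n 579 (n 0 z (n 0 z (n 0 z (n 0 z (n 0 z (n 0 z (n 0 z (n 0 z (n 0 z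
 (n 0 z (n 0 z (n 0 z (n 0 z z))))))))))))) (n 629 (n 0 z (n 0 z (n 0 z (n 0 z (n 0 z (n 0 z (n
 0 z (n 0 z (n 0 z (n 0 z (n 0 z (n 0 z (n 0 z (n 0 z (n 0 z (n 0 z (n 0 z (n 0 z (n 0 z (n 0 z
 (n 0 z (n 0 z (n 0 z (n 0 z (n 0 z z))))))))))))))))))))))))) (n 629 (n 0 z (n 0 z (n 0 z (n 0
 z (n 0 z (n 0 z (n 2 (n 0 z z) (n
 0x4b762837a7f8672837f8b7c7b7a86808477857d806c8e788181679c74887883727f7d7d757c7eab757680847e8d766c817f877d820049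
 z (n 0 z (n 0 z (n 0 z (n 0 z (n 0 z (n 0 z (n 0 z (n 0 z (n 0 z (n 0 z (n 0 z (n 0 z (n 0 z (n
 0 z (n 0 z (n 0 z (n 0 z z))))))))))))))))))))))))) (n 629 (n 0 z (n 0 z (n 0 z (n 0 z (n 0 z
 (n 0 z (n 0 z (n 0 z (n 0 z (n 0 z (n 0 z (n 0 z (n 0 z (n 0 z (n 0 z (n 0 z (n 0 z (n 0 z (n 0
 z (n 0 z (n 0 z (n 0 z (n 0 z (n 0 z (n 0 z z))))))))))))))))))))))))) z))))))))) (n 0 (n 23 (n
 0 z (n 0 z (n 0 z (n 0 z (n 0 z (n 0 z (n 0 z (n 0 z (n 0 z z))))))))) (n 11 (n 0 z (n 0 z (n 0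
 z (n 0 z (n 0 z z))))) (n 15 (n 0 z (n 0 z (n 0 z (n 0 z (n 2 (n 0 z (n 0 z (n 1 z (n 1 z (n 1
 z z))))) (n 0 z (n 0 z (n 0 z (n 0 z (n 0 z (n 0 z (n 0 z (n 0 z (n 0 z (n 0 z (n 0 z (n 0 z (n
 0 z (n 0 z (n 0 z (n 0 z (n 0 z (n 0 z (n 0 z (n 0 z (n 0 z (n 0 z (n 0 z
 z)))))))))))))))))))))))))))) (n 15 (n 0 z (n 0 z (n 0 z (n 0 z (n 0 z (n
 0x51d91881406000016ecaeca40780001e7fffa28000118000427fffb48000327fffc38000127fffc77ffff78000018000007ffffe8000177fffe47fffed80000580001c7fffe48000588000137ffff77fffd67fffac80004a7fffe17ffff78000187ffff78000217fffe87ffffc7fffea7fffef7fffd18000158000547fffcd80001e7fffe97fffc68000827fffbf80000f7fffdd7fffb980003d8000057ffff280000d1019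
 z (n
 0x6376392687a9266817f7f8170748d7f8d699b857157a85e817b6cad8389718575825b9454927cc36069845e9c6a906f8e8f658b950049
 z (n 0 z (n 0 z (n 0 z (n 0 z (n 0 z (n 0 z (n 0 z (n 0 z (n 0 z (n 0 z (n 0 z (n 0 z (n 0 z (n
 0 z (n 0 z (n 0 z (n 0 z (n 0 z (n 0 z (n 0 z (n 0 z z)))))))))))))))))))))))))))) (n 15 (n 0 z
 (n 0 z (n 0 z (n 0 z (n 0 z (n 0 z (n 0 z (n 0 z (n 0 z (n 0 z (n 0 z (n 0 z (n 0 z (n 0 z (n 0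
 z (n 2 (n 2 (n 0 z (n 0 z (n 0 z (n 0 z (n 0 z (n 0 z z)))))) (n 2 (n 0 z (n 0 z (n 0 z (n 0 z
 (n 0 z (n 0 z z)))))) (n 2 (n 0 (n 52 z z) (n 0 z (n 0 z (n 0 z (n 0 z (n 0 (n 52 z (n 52 z z))
 z)))))) z))) (n 0 z (n 0 z (n 0 z (n 0 z (n 0 z (n 0 z (n 0 z (n 0 z (n 0 z (n 0 z (n 0 z (n 0
 z z)))))))))))))))))))))))))))) (n 13 (n 2 (n 0 z (n 0 z z)) (n 0 z (n 0 z (n 0 z (n 0 z (n 0 z
 (n 0 z (n 0 z (n 0 z (n 0 z z)))))))))) (n 13 (n 0 z (n 0 z (n 2 (n 0 z z) (n 0 z (n 0 z (n 0 z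
 (n 0 z (n 0 z (n 0 z (n 0 z z)))))))))) (n 13 (n 0 z (n 0 z (n 0 z (n 0 z (n 0 z (n 0 z (n 0 z
 (n 0 z (n 0 z (n 0 z z)))))))))) z)))))))) (n 0 (n 59 (n 0 z (n 0 z (n 0 z (n 0 z (n 0 z (n 0 z
 (n 0 z (n 0 z (n 0 z (n 0 z (n 0 z (n 0 z (n 0 z z))))))))))))) (n 51 (n 0 z (n 2 (n 0 z (n 0 z
 (n 1 z (n 1 z (n 1 z z))))) (n 0 z (n 0 z (n 0 z (n 0 z (n 0 z (n 0 z (n 0 z (n 0 z (n 0 z (n 0
 z z)))))))))))) (n 51 (n 0 z (n 0 z (n 0 z (n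
 0xc63174050380000c3a0b18281c000015d95d9440e000006ea8ca620780000b7fffc58000128000377fff9d8000337fffdf80001a7fffbd7ffff28000087ffff080000a8000087fffcb7fffeb7ffff980002a7fffea8000438000098000067fffd47fffa080003a7fffc180002d7ffffb7fffc88000107ffffd8000037fffcd7ffff57fffe480000e8000827fffdb8000067fffdf7ffff28000437fffeb8000047fffd77fffa88000348000177fffed80001f2019
 z (n 0 z (n 0 z (n 0 z (n 0 z (n 0 z (n 0 z (n 0 z (n 0 z z)))))))))))) (n 51 (n 0 z (n 0 z (n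
 0 z (n 0 z (n 0 z (n 0 z (n 0 z (n 2 (n 2 (n 0 z (n 0 z (n 0 z (n 0 z (n 0 z (n 0 z z)))))) (n
 2 (n 0 z (n 0 z (n 0 z (n 0 z (n 0 z (n 0 z z)))))) (n 2 (n 0 z (n 0 z (n 0 z (n 0 z (n 0 z (n
 0 z z)))))) z))) (n 0 z (n 0 z (n 0 z (n 0 z z)))))))))))) (n 49 (n 2 (n 0 z (n 0 z z)) (n 0 z
 (n 0 z (n 0 z (n 0 z (n 0 z (n 0 z (n 0 z z)))))))) (n 49 (n 0 z (n 2 (n 0 z z) (n 0 z (n 0 z
 (n 0 z (n 0 z (n 0 z (n 0 z z)))))))) (n 49 (n 0 z (n 0 z (n 0 z (n 0 z (n 0 z (n 0 z (n 0 z (n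
 0 z z)))))))) z))))))) (n 0 (n 15 (n 0 z (n 2 (n 0 z (n 0 z (n 1 z (n 1 z (n 1 z z))))) (n 0 z
 (n 0 z (n 0 z (n 0 z (n 0 z (n 0 z (n 0 z (n 0 z (n 0 z (n 0 z z)))))))))))) (n 15 (n 0 z (n 0
 z (n 0 z (n
 0x21d0588140e14ecaeca407933d8daa45a55e885f7c808081887a70839474b589766653ac697a8e7a90737478726490b5608e7150d3448f6f69a56b7c8d1009
 z (n 0 z (n 0 z (n 0 z (n 0 z (n 0 z (n 0 z (n 0 z (n 0 z z)))))))))))) (n 15 (n 0 z (n 0 z (n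
 0 z (n 0 z (n 0 z (n 0 z (n 0 z (n 2 (n 2 (n 0 z (n 0 z (n 0 z (n 0 z (n 0 z (n 0 z z)))))) (n
 2 (n 0 z (n 0 z (n 0 z (n 0 z (n 0 z (n 0 z z)))))) (n 2 (n 0 (n 52 z z) (n 0 z (n 0 z (n 0 z
 (n 0 z (n 0 (n 52 z (n 52 z z)) z)))))) z))) (n 0 z (n 0 z (n 0 z (n 0 z z)))))))))))) (n 13 (n
 0 z (n 0 z (n 0 z (n 0 z (n 0 z (n 0 z (n 0 z z))))))) (n 13 (n 0 z (n 2 (n 0 z z) (n 0 z (n 0
 z (n 0 z (n 0 z (n 0 z z))))))) (n 13 (n 0 z (n 0 z (n 0 z (n 0 z (n 0 z (n 0 z (n 0 z z)))))))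
 z)))))) (n 0 (n 0 z (n 0 z (n 1 (n 2 (n 0 z (n 0 z z)) (n 0 z (n 0 z (n 0 z (n 0 z (n 0 z (n 0
 z (n 0 z (n 0 z (n 0 z z)))))))))) (n 1 (n 0 z (n 0 z (n 0 z (n 0 z (n 0 z (n 0 z (n 0 z (n 0 z
 (n 7754755 z (n 0 z z)))))))))) (n 1 (n 0 z (n 0 z (n 0 z (n 0 z (n 0 z (n 0 z (n 0 z (n 0 z (n
 0 z (n 0 z z)))))))))) z))))) (n 0 (n 0 z (n 1 (n 0 z (n 0 z (n 0 z (n 0 z (n 0 z (n 0 z (n 0 z
 (n 0 z (n 0 z (n 0 z (n 0 z z))))))))))) (n 1 (n 0 z (n 0 z (n 0 z (n 0 z (n 0 z (n 0 z (n 0 z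
 (n 0 z (n 0 z (n 0 z (n 0 z z))))))))))) (n 1 (n 0 z (n 0 z (n 0 z (n 0 z (n 0 z (n 0 z (n 0 z
 (n 0 z (n 2 z (n 0 z (n 0 z z))))))))))) z)))) (n 0 (n 1 (n 0 z (n 0 z (n 0 z (n 0 z (n 0 z (n
 0 z (n 0 z (n 0 z (n 0 z (n 0 z (n 0 z (n 0 z z)))))))))))) (n 1 (n 0 z (n 0 z (n 0 z (n 0 z (n
 0 z (n 0 z (n 0 z (n 0 z (n 7680611 z (n 0 z (n 0 z (n 0 z z)))))))))))) (n 1 (n 0 z (n 0 z (n
 2 z (n 0 z (n 0 z (n 0 z (n 0 z (n 0 z (n 0 z (n 0 z (n 0 z (n 0 z z)))))))))))) z))) (n 0 (n 0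
 z (n 0 z z)) (n 0 (n 0 z z) (n 0 z z)))))))))) (n 0 (n 1 (n 2620 z (n 2620 z (n 2620 z (n 2620
 z (n 2620 z (n 2620 z z)))))) (n 1 (n 6492227 z (n 6492227 z (n 6492227 z (n 6492227 z (n
 6492227 z (n 6492227 z z)))))) (n 1 (n 6492227 z (n 6492227 z (n 6492227 z (n 6492227 z (n
 6492227 z (n 6492227 z z)))))) (n 0 z z)))) (n 0 z z)))) (n
 0x6112636092ca21e58c0f26d02562f06614c22da209 (n 0 (n 477 (n 0 z (n 0 z (n 3282443 z (n 0 z (n 0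
 z z))))) (n 475 (n 2 z (n 3278363 z (n 10 z (n 18 z z)))) (n 476 (n
 0x4263081f72086281e6a476289a82279d8a47e389e8e17217218218a57229587a489d85b7e779f7dc0041 z (n 26
 z (n 0 z (n 0 z (n 6566419 z (n 0 z (n 0 z (n
 0x6a61081f6a08a37dc5e66e28d782379b9267a691d9226a26a18628e86e3a1572791b85a7eb6df7590041 z (n
 6566419 z (n 0 z (n 0 z (n 0 z (n
 0x2ca4a2080381f82082081f8208208208208208208208208208208208228208208208208208208208208200801 z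
 (n 0x3a65481f7218627dd6e376189b82279e8a37e389f8a17617608618a476291a7a389d85e82579f7dc0041 z (n
 0 z (n 0 z (n 0 z (n 0 z (n 34 z (n 42 z (n 0 z z))))))))))))))))))))) (n 3 (n 6566419 z (n 0 z
 (n 50 z (n 0 z z)))) (n 1 (n 0 z (n 0 z (n 0 z (n 58 z (n 6566419 z (n 0 z (n 0 z z))))))) (n 0
 (n 0 z (n 2164315 z (n 0 z (n 0 z (n 0 z z))))) z)))))) (n 475 (n 0 (n 0 z (n 0 z (n 933 (n 0 z
 (n 0 z (n 0 z (n 0 z (n 0 z (n 0 z (n 0 z (n 0 z z)))))))) (n 933 (n 0 z (n 0 z (n 0 z (n 0 z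
 (n 0 z (n 0 z (n 2 (n 0 z (n 1 z (n 1 z z))) (n 0 z z)))))))) (n 933 (n 0 z (n 0 z (n 0 z (n 0
 z (n 0 z (n 0 z (n 0 z (n 2 (n 1 z (n 1 z z)) z)))))))) (n 247 (n 0 z (n 0 z (n 0 z (n 0 z (n 0
 z (n 0 z (n 0 z (n 0 z (n 0 z (n 0 z (n 0 z z))))))))))) (n 243 (n 0 z (n 0 z (n 0 z (n 0 z (n
 0 z (n 0 z (n 0 z z))))))) z))))))) (n 0 (n 0 z (n 411 (n 0 z (n 0 z (n 0 z (n 7749939 z (n 0 z
 (n 0 z (n 0 z (n 0 z z)))))))) (n 411 (n 0 z (n 0 z (n 0 z (n 0 z (n 0 z (n 0 z (n 0 z (n 0 z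
 z)))))))) (n 411 (n 0 z (n 0 z (n 0 z (n 0 z (n 0 z (n 0 z (n 0 z (n 0 z z)))))))) (n 55 (n 0 z
 (n 6428427 z (n 0 z z))) (n 51 (n 0 z (n 7749939 z (n 0 z (n 0 z z)))) z)))))) (n 0 (n 953 (n 0
 z (n 0 z (n 0 z (n 0 z (n 0 z (n 0 z z)))))) (n 953 (n 0 z (n 0 z (n 0 z (n 0 z (n 7741523 z (n
 0 z z)))))) (n 953 (n 0 z (n 0 z (n 0 z (n 0 z (n 0 z (n 2 (n 1 z (n 1 z z)) z)))))) (n 393 (n
 0 z (n 0 z (n 0 z (n 0 z (n 0 z (n 0 z (n 0 z (n 0 z (n 0 z (n 0 z (n 0 z (n 0 z (n 0 z (n 0 z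
 (n 0 z z))))))))))))))) (n 63 (n 0 z (n 0 z (n 0 z (n 0 z (n 0 z (n 0 z (n 0 z (n 0 z (n 0 z (n
 0 z (n 0 z (n 2 z (n 0 z (n 0 z z)))))))))))))) z))))) (n 0 (n 0 z (n 0 z (n 295 (n 0 z (n 0 z
 (n 0 z (n 0 z (n 0 z (n 0 z (n 0 z (n 0 z (n 0 z (n 0 z (n 0 z (n 0 z (n 0 z (n 0 z (n 0 z (n 0
 z (n 0 z (n 0 z z)))))))))))))))))) (n 531 (n 0 z (n 0 z (n 0 z (n 0 z (n 0 z (n 0 z (n 0 z (n
 0 z z)))))))) z)))) (n 0 (n 0 z (n 1077 (n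
 0x376565400382ecaca200781e8df79e8217a17e181f82182086185f8a17e076181f81d8df8218207e182085f8617e18201001
 z (n 6428427 z (n 0 z (n 0 z (n 0 z (n 0 z (n 0 z (n 0 z z)))))))) (n 255 (n 0 z (n 0 z (n 0 z
 (n 0 z (n 0 z (n 6428427 z (n 0 z (n 0 z z)))))))) z))) (n 0 (n 713 (n 0 z (n 0 z (n 0 z (n 0 z
 z)))) (n 857 (n 0 z (n 0 z (n 0 z (n 0 z (n 0 z (n 0 z (n 0 z z))))))) z)) (n 0 (n 723 (n 0 z
 (n 0 z (n 0 z (n 0 z z)))) z) (n 0 z z)))))))) (n 0 (n 1 (n 3820 z (n 6566419 z (n 3820 z (n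
 3820 z (n 3820 z (n 3820 z z)))))) (n 1 (n 3278363 z (n 6566419 z (n 3278363 z (n 3278363 z (n
 3278363 z (n 3278363 z z)))))) (n 1 (n 3820 z (n 6566419 z (n 3820 z (n 3820 z (n 3820 z (n
 3820 z z)))))) (n 1 (n 5445131 z (n 6566419 z (n 3820 z (n 3820 z (n 3820 z (n 3820 z z))))))
 z)))) (n 0 z z)))) (n 0xc35d661ae9305538c52d4432b262aa02d4500b6540 (n 0 (n 159 (n 6561811 z (n
 6561811 z (n 2 z (n 0 z (n 6561811 z (n 10 z (n 18 z (n 6554411 z (n 6554411 z z))))))))) (n 33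
 (n 0 z (n 6496515 z (n 0 z (n 0 z z)))) (n 9 (n 0 z (n 6496515 z (n 0 z z))) (n 147 (n 0 z (n 0
 z (n 0 z (n 0 z (n 0 z (n 0 z (n 6496515 z z))))))) (n 1 (n 6561811 z (n 26 z (n 34 z (n 0 z (n
 6561811 z (n
 0x3d949940c060aca8a206030265365320181329b29881c1194d94c00e1eca6ca20037581818060a082918f82818683868d7b876d6f88618e80697d878b768b6a727d84558f895e7f649386829f988285908c8b823009
 z (n 42 z (n 6554411 z (n 50 z (n 58 z z)))))))))) (n 0 (n 0 z (n 0 z (n 0 z (n 0 z (n 0 z (n 0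
 z (n 0 z (n 0 z (n 0 z (n 0 z (n 0 z (n 0 z (n 0 z (n 6624267 z (n 0 z (n 0 z (n 0 z (n 0 z (n
 0 z (n 0 z (n 0 z (n 0 z (n 0 z (n 0 z (n 0 z z))))))))))))))))))))))))) z)))))) (n 9 (n 0 (n 0
 z (n 0 z (n 565 (n 0 z (n 0 z (n 0 z (n 0 z (n 0 z (n 0 z (n 0 z (n 0 z (n 0 z (n 0 z
 z)))))))))) (n 565 (n 0 z (n 0 z (n 0 z (n 2 (n 0 z (n 0 z (n 0 z z))) (n 0 z (n 0 z (n 0 z (n
 0 z (n 0 z (n 0 z z)))))))))) (n 565 (n 0 z (n 0 z (n 0 z (n 0 z (n 0 z (n 0 z (n 0 z (n 0 z (n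
 0 z (n 0 z z)))))))))) (n 565 (n 0 z (n 0 z (n 0 z (n 0 z (n 0 z (n 0 z (n 0 z (n 0 z (n 2 (n 0
 z z) (n 0 z z)))))))))) (n 565 (n 0 z (n 0 z (n 0 z (n 0 z (n 0 z (n 0 z (n 0 z (n 0 z (n 2 z
 (n 0 z z)))))))))) z))))))) (n 0 (n 0 z (n 537 (n 0 z (n 0 z (n 0 z (n 0 z (n 0 z (n 0 z (n 0 z
 (n 0 z (n 0 z (n 0 z (n 0 z z))))))))))) (n 537 (n 0 z (n 0 z (n 0 z (n 0 z (n 0 z (n 0 z (n 0
 z (n 7737379 z (n 0 z (n 0 z (n 0 z z))))))))))) (n 537 (n 7734043 z (n 7734043 z (n 0 z (n 0 z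
 (n 0 z (n 0 z (n 0 z (n 0 z (n 0 z (n 0 z (n 0 z z))))))))))) (n 537 (n 0 z (n 0 z (n 0 z (n 0
 z (n 0 z (n 0 z (n 0 z (n 0 z (n 0 z (n 0 z (n 7734043 z z))))))))))) (n 537 (n 0 z (n 0 z (n 0
 z (n 0 z (n 0 z (n 0 z (n 0 z (n 0 z (n 0 z (n 0 z (n 7734043 z z))))))))))) z)))))) (n 0 (n
 303 (n 0 z (n 0 z (n 0 z (n 0 z (n 0 z (n 0 z (n 0 z (n 0 z (n 0 z (n 0 z z)))))))))) (n 303 (n
 0 z (n 0 z (n 2 (n 0 z (n 0 z (n 0 z z))) (n 0 z (n 0 z (n 0 z (n 0 z (n 0 z (n 0 z (n 0 z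
 z)))))))))) (n 303 (n 0 z (n 0 z (n 0 z (n 0 z (n 0 z (n 0 z (n 0 z (n 0 z (n 0 z (n 0 z
 z)))))))))) (n 303 (n 0 z (n 0 z (n 0 z (n 0 z (n 0 z (n 0 z (n 0 z (n 0 z (n 0 z (n 0 z
 z)))))))))) (n 303 (n 0 z (n 0 z (n 0 z (n 0 z (n 0 z (n 0 z (n 0 z (n 0 z (n 0 z (n 0 z
 z)))))))))) z))))) (n 0 (n 0 z (n 0 z (n 0 z (n 0 z z)))) (n 0 (n 0 z (n 0 z (n 0 z z))) (n 0
 (n 0 z (n 0 z z)) (n 0 (n 0 z z) (n 0 z z)))))))) (n 0 (n 0 z (n 1 (n 6496515 z (n 6496515 z (n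
 6496515 z (n 6496515 z (n 6496515 z (n 6496515 z z)))))) (n 0 z z))) (n 0 z z)))) z)))))))))),
 by decide +kernel⟩
theorem i10550 : ∃ t, chkR KT RW t 10550 10560 = true := ⟨(n
 0x2c165d2346f123453404a370ad128448bb8525b2c0 (n 0 (n 573 (n 6561875 z (n 2 z (n 0 z (n 0 z (n 0
 z z))))) (n 437 (n 0 z (n 3278363 z (n 10 z z))) (n 9 (n 18 z (n 26 z (n 0 z (n 0 z (n 6561875
 z (n 34 z (n 42 z z))))))) (n 29 (n 0 z (n 0 z (n 0 z (n 2164283 z (n 50 z (n 58 z z)))))) (n 1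
 (n 0 z (n 0 z (n 0 z (n 6561875 z (n 0 z z))))) (n 0 (n 0 z (n 2164315 z (n 0 z (n 0 z (n 0 z
 z))))) z)))))) (n 437 (n 0 (n 215 (n 0 z (n 0 z (n 7753795 z (n 0 z (n 0 z z))))) (n 237 (n 0 z
 (n 0 z (n 0 z (n 2 (n 0 z (n 0 z (n 0 z (n 1 z (n 1 z z))))) (n 0 z (n 0 z z)))))) (n 237 (n 0
 z (n 0 z (n 0 z (n 0 z (n 2 (n 0 z (n 0 z (n 1 z (n 1 z z)))) (n 0 z z)))))) (n 237 (n 2 (n 0 z
 (n 1 z (n 1 z z))) (n 0 z (n 0 z (n 0 z (n 0 z (n 0 z z)))))) (n 237 (n 0 z (n 0 z (n 0 z (n 0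
 z (n 0 z (n 2 (n 1 z (n 1 z z)) z)))))) (n 87 (n 0 z (n 0 z (n 0 z (n 2 (n 0 z z) (n 0 z (n 0 z
 (n 0 z (n 0 z (n 0 z z))))))))) (n 87 (n 0 z (n 0 z (n 0 z (n 0 z (n 0 z (n 0 z (n 0 z (n 0 z
 (n 0 z z))))))))) z))))))) (n 0 (n 873 (n 0 z (n 2 (n 0 z (n 0 z (n 0 z (n 2 (n 0 (n 8794227 z
 (n 5140 z z)) (n 0 (n 6559867 z (n 6559867 z z)) (n 0 (n 8794227 z (n 8865291 z z)) (n 0 z (n 0
 (n 5140 z (n 5140 z z)) (n 0 z z)))))) (n 1 z z))))) (n 0 z (n 0 z (n 0 z (n 0 z z)))))) (n 873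
 (n 0 z (n 0 z (n 0 z (n 0 z (n 0 z (n 0 z z)))))) (n 873 (n 0 z (n 0 z (n 0 z (n 0 z (n 0 z (n
 0 z z)))))) (n 873 (n 0 z (n 0 z (n 0 z (n 0 z (n 0 z (n 2 (n 2 (n 0 (n 5140 z z) (n 0 (n 5140
 z (n 5140 z z)) (n 0 (n 5140 z z) (n 0 z (n 0 z (n 0 z z)))))) (n 1 z z)) z)))))) (n 1285 (n 0
 z (n 0 z (n 0 z (n 0 z (n 0 z (n 0 z (n 0 z (n 0 z (n 0 z (n 0 z (n 0 z (n 0 z (n 0 z (n 0 z (n
 0 z (n 0 z (n 0 z (n 2 (n 0 z z) (n 0 z (n 0 z z)))))))))))))))))))) (n 1285 (n 0 z (n 0 z (n 0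
 z (n 0 z (n 0 z (n 0 z (n 0 z (n 0 z (n 0 z (n 0 z (n 0 z (n 0 z (n 0 z (n 0 z (n 0 z (n 0 z (n
 0 z (n 0 z (n 0 z (n 0 z z)))))))))))))))))))) z)))))) (n 0 (n 0 z (n 0 z (n 0 z (n 661 (n 0 z
 (n 0 z (n 0 z (n 0 z (n 0 z (n 0 z (n 0 z (n 0 z z)))))))) (n 661 (n 0 z (n 0 z (n 0 z (n 0 z
 (n 0 z (n 0 z (n 0 z (n 0 z z)))))))) z))))) (n 0 (n 0 z (n 0 z (n 1305 (n 0 z (n 0 z (n 0 z (n
 0 z (n 0 z (n 0 z (n 0 z z))))))) (n 1305 (n 0 z (n 0 z (n 0 z (n 0 z (n 0 z (n 0 z (n 0 z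
 z))))))) z)))) (n 0 (n 0 z (n 59 (n 0 z (n 0 z (n 0 z (n 0 z (n 0 z (n 0 z (n 0 z (n 0 z (n 0 z
 (n 0 z (n 0 z (n 0 z (n 0 z (n 0 z (n 0 z (n 0 z (n 0 z (n 0 z (n 0 z (n 0 z
 z)))))))))))))))))))) (n 59 (n 0 z (n 0 z (n 0 z (n 0 z (n 0 z (n 0 z (n 7741699 z (n 0 z (n 0
 z (n 0 z (n 0 z (n 0 z (n 0 z (n 0 z (n 0 z (n 0 z (n 0 z (n 0 z (n 0 z (n 0 z
 z)))))))))))))))))))) z))) (n 0 (n 1065 (n 0 z (n 0 z (n 0 z (n 0 z (n 0 z (n 0 z (n 0 z (n 0 z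
 (n 0 z (n 0 z (n 0 z (n 0 z (n 0 z z))))))))))))) (n 1065 (n 0 z (n 0 z (n 0 z (n 0 z (n 0 z (n
 0 z (n 0 z (n 0 z (n 0 z (n 0 z (n 0 z (n 0 z (n 0 z z))))))))))))) z)) (n 0 (n 0 z z) (n 0 z
 z)))))))) (n 0 (n 0 z (n 1 (n 3278363 z (n 6554139 z (n 3278363 z (n 3278363 z (n 3278363 z (n
 3278363 z z)))))) (n 1 (n 4588 z (n 4588 z (n 4588 z (n 4588 z (n 4588 z (n 6554139 z z))))))
 z))) (n 0 z z)))) (n 0x2d975088b998733b856dc40a6dc19c64b05a (n 0 (n 159 (n 0 z (n 0 z (n 0 z (n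
 3282443 z (n 0 z (n 0 z (n 0 z z))))))) (n 33 (n 0 z (n
 0x4ca6a60407808080807f81817f818180807e7f80808180807f7f80817f807f808180817f808081817f8181818080808180807e7e8180800809
 z (n
 0x12ca6a8640786857c74918084826e768d8076827695986a7f5ea2757d8b846f817a7f7c78848d828c7a7e859582835fa17c7d85916a66970809
 z (n 0 z (n
 0xca6ca64037f81807f80818080808080807f808080817f807f80808180807f7f817f827f808080807f818080817f8080807f80808180800809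
 z (n 6496515 z (n 0 z (n 0 z (n 6496515 z (n 0 z (n 0 z (n 0 z (n 0 z (n
 0x1909940c0602ca6c84007807f81807d83817e8081807f7f808181837e807f7f81817f807e7d837c857e81807f80818280807f7f8081807f7f818081811009
 z (n 0 z z))))))))))))))) (n 9 (n 2 z (n 0 z (n 0 z (n 0 z (n 6496515 z (n 0 z (n 0 z (n 0 z (n
 0 z (n 0 z z)))))))))) (n 147 (n 10 z (n 18 z (n 0 z (n 0 z (n 26 z (n 34 z (n 6496515 z
 z))))))) (n 1 (n 2164299 z (n 42 z (n 0 z (n 0 z (n 0 z (n 0 z z)))))) (n 0 (n 50 z (n 2164315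
 z (n 0 z (n 0 z (n 0 z (n 0 z (n 0 z (n 0 z (n 0 z (n 0 z (n 0 z z))))))))))) z)))))) (n 1 (n 0
 (n 665 (n 0 z (n 0 z (n 0 z (n 0 z (n 2 (n 0 z (n 0 z (n 0 z (n 1 z (n 1 z z))))) (n 0 z (n 0 z
 z))))))) (n 665 (n 0 z (n 0 z (n 2 (n 0 z (n 0 z (n 1 z (n 1 z z)))) (n 0 z (n 0 z (n 0 z (n 0
 z z))))))) (n 665 (n 0 z (n 0 z (n 0 z (n 2 (n 0 z (n 1 z (n 1 z z))) (n 0 z (n 0 z (n 0 z
 z))))))) (n 665 (n 0 z (n 0 z (n 0 z (n 0 z (n 0 z (n 0 z (n 2 (n 1 z (n 1 z z)) z))))))) (n 15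
 (n 0 z (n 7741459 z (n 0 z (n 0 z (n 0 z z))))) (n 13 (n 0 z (n 0 z (n 0 z (n 0 z (n 0 z (n 0 z
 (n 0 z (n 0 z (n 0 z (n 0 z (n 0 z (n 0 z (n 0 z (n 0 z (n 0 z (n 0 z (n 0 z z)))))))))))))))))
 z)))))) (n 0 (n 0 z (n 0 z (n 0 z (n 243 (n 0 z (n 0 z (n 2 (n 1 z z) (n 0 z (n 0 z (n 0 z (n 0
 z (n 0 z (n 0 z (n 0 z (n 0 z (n 0 z (n 0 z (n 0 z (n 0 z (n 0 z (n 0 z (n 0 z (n 0 z (n 0 z
 z)))))))))))))))))))) (n 293 (n 0 z (n 0 z (n 0 z (n 0 z (n 0 z (n 0 z (n 0 z (n 0 z (n 0 z (n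
 0 z (n 0 z (n 0 z (n 0 z (n 0 z z)))))))))))))) z))))) (n 0 (n 0 z (n 0 z (n 531 (n 0 z (n 0 z
 (n 0 z (n 0 z (n 0 z z))))) (n 529 (n 0 z (n 0 z (n 0 z (n 0 z (n 0 z (n 0 z (n 0 z (n 0 z (n 0
 z (n 0 z (n 0 z (n 0 z (n 0 z (n 0 z (n 0 z (n 0 z (n 0 z (n 0 z (n 0 z (n 0 z (n 0 z (n 0 z (n
 0 z (n 0 z (n 0 z (n 0 z (n 0 z (n 0 z (n 0 z (n 0 z (n 0 z (n 0 z (n 0 z (n 0 z (n 0 z (n 0 z
 (n 0 z (n 0 z (n 0 z (n 0 z (n 0 z (n 0 z (n 0 z (n 0 z (n 0 z (n 0 z (n 0 z (n 0 z (n 0 z (n 0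
 z (n 0 z (n 0 z (n 0 z (n 0 z (n 0 z (n 0 z
 z)))))))))))))))))))))))))))))))))))))))))))))))))))))))) z)))) (n 0 (n 0 z (n 243 (n 0 z (n 0
 z (n 0 z (n 0 z (n 0 z (n 0 z (n 0 z z))))))) (n 293 (n 0 z (n 0 z (n 0 z (n 0 z (n 0 z z)))))
 z))) (n 0 (n 531 (n 0 z (n 0 z (n 0 z (n 0 z (n 0 z (n 0 z (n 0 z (n 0 z (n 0 z (n 0 z (n 0 z
 (n 0 z (n 0 z (n 0 z z)))))))))))))) (n 293 (n 0 z (n 0 z (n 0 z (n 0 z (n 0 z (n 0 z (n 0 z (n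
 0 z (n 0 z (n 0 z (n 0 z (n 0 z (n 7750435 z (n 0 z (n 0 z (n 0 z (n 0 z (n 0 z
 z)))))))))))))))))) z)) (n 0 (n 293 (n 0 z (n 0 z (n 0 z (n 0 z (n 0 z (n 0 z (n 0 z (n 0 z (n
 0 z (n 0 z (n 0 z (n 0 z (n 0 z (n 0 z (n 0 z (n 0 z (n 0 z (n 0 z (n 0 z (n 0 z (n 0 z (n 0 z
 (n 0 z (n 0 z (n 0 z (n 0 z (n 0 z (n 0 z (n 0 z (n 0 z (n 0 z (n 0 z (n 0 z (n 0 z (n 0 z (n 0
 z (n 0 z (n 0 z (n 0 z (n 0 z (n 0 z (n 0 z (n 0 z (n 0 z (n 0 z (n 0 z (n 0 z (n 0 z (n 0 z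
 z))))))))))))))))))))))))))))))))))))))))))))))))) z) (n 0 z z))))))) (n 0 (n 1 (n 2164299 z (n
 2164299 z (n 2164299 z (n 2164299 z (n 6427707 z (n 2164299 z z)))))) (n 1 (n 1276 z (n 1276 z
 (n 1276 z (n 6427707 z (n 1276 z (n 1276 z z)))))) (n 0 z (n 0 z (n 0 z (n 0 z z)))))) (n 0 z
 z)))) (n 0xc91d2146a3436ad619c68891b290692c7084a50228c900 (n 0 (n 179 (n 2 z (n
 0x15b21802a6438038008038028007fd8007fe8027f38068007f97fd7fc8047fc80b80e8037fe8067f980180080f8008008008008007fc7fb7fa7f67f78038058007f480680e7fd8077f780f7f980080a8020091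
 z (n
 0x15b18802a6318038008038028007fd8007fe8027f38068007f97fd7fc8047fc80b80e8037fe8067f980180080f8008008008008007fc7fb7fa7f67f78038058007f480680e7fd8077f780f7f980080a8020091
 z (n 0 z (n 0 z (n 0 z (n 0 z (n 0 z (n
 0x632a32a181c03194d94c80e020ca8a864077ff7d58467e27e680181d84a80677f8857348717aa85d85979d7e698d78d80f7e78168767be82c82b82081c80480f81470d7ce7da8797bd8137838697f189282f8d47c483979781d83c7901811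
 z (n 6557779 z (n
 0x15b21802a6438038008038028007fd8007fe8027f38068007f97fd7fc8047fc80b80e8037fe8067f980180080f8008008008008007fc7fb7fa7f67f78038058007f480680e7fd8077f780f7f980080a8020091
 z (n 0 z (n
 0x16d8c402d31880596318007fa8057f68007f980080a8097f58077f37ee7ec8028097fe8188228038208007e87fe7fa80f8007fc8007f88008017fd7f77d47f281181380c7d280c8118047ed7e68147fe80281181600d1
 z (n
 0x6ca4ca2807001654654203800b2a329900c00195190c806006ca6a864038008028238137fd7f18038007f27c28397db7f77eb8068087e782b8687ea7f78187e08247fc84f80b8197fb7f68067fc7c17b67fc7e37fd8137e47fb7fb8678038617da8567b97fd8327db2811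
 z z)))))))))))))) (n 39 (n 0 z (n 10 z (n 0 z (n 0 z (n 18 z (n 0 z (n 6557779 z z))))))) (n
 129 (n 26 z (n 0 z (n 0 z (n 0 z (n 3212843 z (n 0 z (n 0 z (n 0 z z)))))))) (n 27 (n 0 z (n 34
 z (n 42 z (n 50 z (n 2164283 z (n 0 z z)))))) (n 127 (n 0 z (n 58 z (n 0 z (n 6557779 z z))))
 (n 0 (n 66 z (n 0 z (n 2164315 z (n 0 z (n 0 z (n 0 z z)))))) z)))))) (n 127 (n 0 (n 187 (n 0 z
 (n 0 z (n 0 z (n 0 z (n 0 z (n 0 z (n 0 z (n 0 z (n 0 z (n 2 (n 0 z (n 1 z (n 1 z (n 1 z (n 1 z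
 (n 1 z (n 1 z z))))))) (n 0 z (n 0 z (n 0 z (n 0 z z)))))))))))))) (n 187 (n 0 z (n 0 z (n 0 z
 (n 0 z (n 0 z (n 0 z (n 0 z (n 0 z (n 0 z (n 0 z (n 0 z (n 0 z (n 0 z (n 0 z z)))))))))))))) (n
 183 (n 0 z (n 2 (n 1 z (n 1 z (n 1 z (n 1 z (n 1 z z))))) (n 0 z (n 0 z (n 0 z (n 0 z (n 0 z
 z))))))) (n 185 (n 0 z (n 0 z (n 0 z (n 0 z (n 0 z (n 0 z (n 0 z (n 0 z (n 0 z z))))))))) (n
 185 (n 0 z (n 0 z (n 0 z (n 0 z (n 0 z (n 0 z (n 2 (n 0 z (n 1 z (n 1 z z))) (n 0 z (n 0 z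
 z))))))))) (n 185 (n 0 z (n 0 z (n 0 z (n 0 z (n 0 z (n 0 z (n 0 z (n 0 z (n 7733787 z
 z))))))))) (n 357 (n 2 (n 1 z z) (n 0 z (n 0 z (n 0 z (n 0 z (n 0 z (n 0 z (n 0 z (n 0 z
 z))))))))) (n 349 (n 0 z (n 0 z (n 0 z (n 0 z (n 0 z (n 0 z (n 0 z z))))))) z)))))))) (n 0 (n 0
 z (n 459 (n 0 z (n 0 z (n 0 z (n 0 z (n 0 z (n 0 z z)))))) (n 75 (n 0 z (n 2 (n 0 z (n 0 z (n 1
 z (n 1 z z)))) (n 0 z (n 0 z (n 0 z (n 0 z (n 0 z (n 0 z (n 0 z (n 0 z z)))))))))) (n 75 (n 0 z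
 (n 0 z (n 0 z (n 2 (n 0 z (n 1 z (n 1 z z))) (n 0 z (n 0 z (n 0 z (n 0 z (n 0 z (n 0 z
 z)))))))))) (n 75 (n 0 z (n 0 z (n 0 z (n 0 z (n 0 z (n 7614563 z (n 0 z (n 0 z (n 0 z (n 0 z
 z)))))))))) (n 457 (n 0 z (n 0 z (n 0 z (n 0 z (n 0 z (n 0 z (n 0 z (n 0 z (n 0 z (n 0 z
 z)))))))))) (n 73 (n 0 z (n 0 z (n 0 z (n 0 z (n 2 z (n 0 z z)))))) z))))))) (n 0 (n 375 (n 0 z
 (n 0 z (n 0 z (n 0 z (n 0 z (n 0 z z)))))) (n 81 (n 0 z (n 0 z (n 0 z (n 0 z (n 0 z (n 0 z (n 0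
 z (n 0 z (n 0 z (n 0 z (n 0 z (n 0 z (n 0 z z))))))))))))) (n 81 (n 0 z (n 0 z (n 0 z (n 0 z (n
 0 z (n 0 z (n 0 z (n 0 z (n 0 z (n 0 z (n 0 z (n 0 z (n 0 z z))))))))))))) (n 81 (n 0 z (n 0 z
 (n 0 z (n 0 z (n 0 z (n 0 z (n 0 z (n 0 z (n 0 z (n 0 z (n 0 z (n 0 z (n 2 (n 2 (n 0 z (n 0 (n
 1492 z z) (n 0 z (n 0 (n 7747595 z z) (n 0 (n 1492 z (n 1492 z z)) (n 0 z z)))))) (n 1 z z))
 z))))))))))))) (n 373 (n 0 z (n 0 z (n 0 z (n 0 z (n 0 z (n 0 z (n 0 z (n 0 z (n 0 z (n 0 z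
 z)))))))))) (n 77 (n 0 z (n 0 z (n 0 z (n 0 z (n 0 z (n 0 z (n 0 z (n 0 z (n 0 z (n 0 z (n 0 z
 (n 0 z (n 0 z (n 0 z (n 0 z (n 0 z z)))))))))))))))) z)))))) (n 0 (n 7 (n 0 z (n 0 z (n 0 z (n
 0 z (n 0 z (n 0 z (n 0 z (n 0 z (n 2 (n 0 z (n 0 z (n 1 z (n 1 z z)))) (n 0 z (n 0 z (n 0 z (n
 0 z (n 0 z (n 0 z (n 0 z (n 0 z (n 0 z (n 0 z (n 0 z (n 0 z (n 0 z (n 0 z (n 0 z (n 0 z (n 0 z
 (n 0 z (n 0 z z)))))))))))))))))))))))))))) (n 7 (n 0 z (n 0 z (n 0 z (n 0 z (n 0 z (n 0 z (n 0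
 z (n 0 z (n 0 z (n 0 z (n 0 z (n 2 (n 0 z (n 1 z (n 1 z z))) (n 0 z (n 0 z (n 0 z (n 0 z (n 0 z
 (n 0 z (n 0 z (n 0 z (n 0 z (n 0 z (n 0 z (n 0 z (n 0 z (n 0 z (n 0 z (n 0 z
 z)))))))))))))))))))))))))))) (n 7 (n 0 z (n 0 z (n 0 z (n 0 z (n 0 z (n 0 z (n 0 z (n 0 z (n 0
 z (n 0 z (n 0 z (n 0 z (n 0 z (n 0 z (n 7614563 z (n 0 z (n 0 z (n 0 z (n 0 z (n 0 z (n 0 z (n
 0 z (n 0 z (n 0 z (n 0 z (n 0 z (n 0 z (n 0 z z)))))))))))))))))))))))))))) (n 339 (n 0 z (n 0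
 z (n 0 z (n 0 z (n 0 z (n 0 z (n 0 z (n 0 z (n 0 z (n 0 z (n 0 z (n 0 z z)))))))))))) (n 253 (n
 0 z (n 0 z (n 0 z (n 0 z (n 0 z (n 0 z (n 0 z (n 0 z z)))))))) z))))) (n 0 (n 0 z (n 0 z (n 3
 (n 0 z (n 0 z z)) (n 53 (n 0 z (n 0 z (n 0 z (n 0 z (n 0 z (n 0 z (n 0 z (n 0 z (n 0 z
 z))))))))) z)))) (n 0 (n 0 z (n 3 (n 2 (n 1 z z) (n 0 z (n 0 z z))) (n 53 (n 0 z (n 0 z (n 0 z
 (n 0 z (n 0 z (n 0 z (n 0 z (n 0 z (n 0 z (n 0 z (n 0 z z))))))))))) z))) (n 0 (n 9 (n 2 (n 1 z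
 z) (n 0 z (n 0 z z))) (n 53 (n 0 z (n 0 z (n 0 z (n 0 z (n 0 z (n 0 z (n 0 z (n 0 z (n 0 z (n 0
 z (n 0 z z))))))))))) z)) (n 0 (n 1 (n 0 z (n 0 z (n 2 z (n 0 z (n 0 z (n 0 z (n 0 z (n 0 z (n
 0 z (n 0 z z)))))))))) z) (n 0 z z))))))))) (n 0 (n 0 z (n 1 (n 1436 z (n 1436 z (n 1436 z (n
 1436 z (n 4326971 z (n 1436 z z)))))) (n 0 z (n 1 (n 6557779 z (n 6557779 z (n 6557779 z (n
 6557779 z (n 6557779 z (n 6557779 z z)))))) z)))) (n 0 z z)))) (n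
 0xb52742364a8576440c8e6c1c8dc09166871335089652101d5680e1480 (n 0 (n 153 (n
 0x265365140180d290b28200c065951950c0e02eca8a8240381a8018068107e77d880f8288177e279b7e882885c77e8208068567cf8347bc8327fe7cb80d8388077d57cd7c780578e81c80b80683f8228177de8068387d883b7e57d67fe7e48008307ec2011
 z (n 0 z (n 0 z (n 2 z (n
 0x2ca8a864078017fe8018007ff8007fe8028008008008008007ff8008007ff8007ff8008018007ff7ff8008008008007ff7ff8008018017ff7ff8008008008008018008008018007ff8007ff8017ff7ff0811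
 z (n 0 z (n 10 z (n 0 z (n 6496339 z (n 0 z (n 0 z (n 18 z (n
 0x5d9514c480e006ca8ca82037fc8017f780b7ec8458168267bf7c48028137fe7fc8467aa7f981a8187e684d80180681a80a80f8008347f17ea80e7ed8147d88087fc80b8177f08038047dd80d86883a8668177df81e8021011
 z (n 0 z (n
 0x321318a81c00190d88540e000ca6ca48038018017f88067fd81c80c81f7e17e580180280580a8217dc7f28148097eb81f8067ff8068038107fb81a7f48028057fe80c7f77f68057fc8097fe7fe8077df80f83581583880c7f480b8001811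
 z z))))))))))))))) (n 35 (n 0 z (n 3278363 z (n 0 z (n 0 z (n 0 z (n 0 z z)))))) (n 9 (n 26 z
 (n 0 z (n 6496339 z (n 0 z (n 0 z (n 0 z (n 0 z (n 0 z (n 0 z z))))))))) (n 3 (n 34 z (n 0 z (n
 0 z (n 0 z (n 0 z (n 42 z (n 6496339 z (n 0 z (n 0 z (n 0 z (n 0 z (n 0 z (n 50 z
 z))))))))))))) (n 1 (n 58 z (n 66 z (n 0 z (n 0 z (n 0 z (n 0 z (n 2164299 z (n
 0x61b2900326528007e880c8087fc81b7ed7f87f38028128007f77f08038037f77f080880c7fd7fd8048077fc7f780880d8058058008047fb7f68037f77ff7fe8027ff80a80a7f381080080f8098027f48060091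
 z z)))))))) (n 0 (n
 0x1b6208008007ff8008018018028047fd8018008008018028047fc7fd8038007fe8038018008007fe8027ff8037fe8028018018027ff7fe8017ff7ff8007ff7fc7fc8008048018048007fd8038000051
 z (n 74 z (n
 0x61b1080326218007e880c8087fc81b7ed7f87f38028128007f77f08038037f77f080880c7fd7fd8048077fc7f780880d8058058008047fb7f68037f77ff7fe8027ff80a80a7f381080080f8098027f48060091
 z (n
 0x2b21319081c0358c98c840e094c64c8020780d8017ef80678983b8208427e97c27de7f982983e7f67c284585e7f18247b88508207d480884f7c28047cf7bb7ef7ba82b8597e180d7dd8538577c67ff81b7a58478a385285b7d580582d1811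
 z (n 0 z (n
 0x6c86c804078008007ff7fe8087fd8088077fe7fe8008008018047ff7fb7fb8017ff8028028017fb80080280a8018067fa8028038037fe8017fb8077fe7f67ff8088047f880b8027f87fe7ff8067fc7fa0811
 z (n
 0x1b6108008007ff8008018018028047fd8018008008018028047fc7fd8038007fe8038018008007fe8027ff8037fe8028018018027ff7fe8017ff7ff8007ff7fc7fc8008048018048007fd8038000051
 z (n 82 z (n
 0xbd905900c0e110c86c20407013641641001823321b18801c0319098c400e01018c405da1880055100020a2000c104002c9080070210871818803715a34466805640aeda0078988a76f899437b5288b72664fa2c5157a074f72b83288874d6fa8be8627c08967cc87a7ef7ee8a663c86f7fd7b98e48504865c64937728cc7327d129d1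
 z (n
 0x446408088007f37f88227e38087f480f80a8028107fc80b7e380b8047fc7f88107f47ff7f880480580b7fe7fd8037fe8078058047f88088038037f57fb8018097f48037f87ef8088047fa7fa8060051
 z (n 2164315 z (n
 0x1b6208008007ff8008018018028047fd8018008008018028047fc7fd8038007fe8038018008007fe8027ff8037fe8028018018027ff7fe8017ff7ff8007ff7fc7fc8008048018048007fd8038000051
 z z)))))))))))) z)))))) (n 35 (n 0 (n 0 z (n 0 z (n 107 (n 0 z (n 0 z (n 0 z (n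
 0x1b7658008007ff8008018018028047fd8018008008018028047fc7fd8038007fe8038018008007fe8027ff8037fe8028018018027ff7fe8017ff7ff8007ff7fc7fc8008048018048007fd8038000051
 z (n 0 z (n 0 z (n 0 z z))))))) (n 59 (n 0 z (n 0 z (n 0 z (n 0 z (n 0 z (n 0 z (n 0 z (n 0 z
 (n 0 z (n 0 z (n 0 z (n 0 z (n 0 z (n 0 z (n
 0x1b7658008007ff8008018018028047fd8018008008018028047fc7fd8038007fe8038018008007fe8027ff8037fe8028018018027ff7fe8017ff7ff8007ff7fc7fc8008048018048007fd8038000051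
 z (n 0 z (n 0 z (n 0 z (n 0 z (n 0 z (n 0 z (n 0 z z)))))))))))))))))))))) (n 59 (n 0 z (n 0 z
 (n 0 z (n 0 z (n 0 z (n 0 z (n 0 z (n 0 z (n 0 z (n 0 z (n 0 z (n 0 z (n 0 z (n 0 z (n 0 z (n 0
 z (n 0 z (n 0 z (n 0 z (n 0 z (n 0 z (n 0 z z)))))))))))))))))))))) (n 59 (n 0 z (n 0 z (n 0 z
 (n 0 z (n 0 z (n 0 z (n 0 z (n 0 z (n 0 z (n 0 z (n 0 z (n 0 z (n 0 z (n 0 z (n 0 z (n 0 z (n 0
 z (n 0 z (n 0 z (n 0 z (n 0 z (n 2 (n 1 z (n 1 z (n 1 z (n 2 (n 0 (n 8782363 z (n 8782363 z z))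
 (n 0 (n 8782363 z (n 8782363 z z)) (n 0 (n 8782363 z (n 8782363 z z)) (n 0 z (n 0 z (n 0 (n
 8782363 z (n 8782363 z z)) z)))))) z)))) z)))))))))))))))))))))) (n 99 (n 0 z (n 0 z (n 0 z (n
 0 z (n 0 z (n 7733787 z (n 0 z (n 0 z (n 0 z (n 0 z (n 0 z (n 0 z (n 0 z (n 0 z (n 0 z (n 0 z
 (n 0 z (n 0 z (n 0 z (n 0 z (n 0 z (n 0 z (n 0 z (n 0 z (n 0 z z))))))))))))))))))))))))) (n 99
 (n 0 z (n 0 z (n 0 z (n 0 z (n 0 z (n 0 z (n 0 z (n 0 z (n 0 z (n 0 z (n 0 z (n 0 z (n 0 z (n 0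
 z (n 0 z (n 0 z (n 0 z (n 0 z (n 0 z (n 0 z (n 0 z (n 0 z (n 0 z (n 0 z (n 0 z
 z))))))))))))))))))))))))) (n 97 (n 0 z (n 0 z (n 0 z (n 0 z (n 0 z (n 0 z (n 0 z (n 0 z (n 0 z
 (n 0 z (n 0 z (n 0 z (n 0 z (n 0 z (n 0 z (n 0 z (n 0 z (n 0 z (n 0 z (n 0 z (n 0 z (n 0 z (n 0
 z (n 0 z (n 0 z (n 0 z (n 0 z (n 0 z z)))))))))))))))))))))))))))) (n 97 (n 0 z (n 0 z (n 0 z
 (n 0 z (n 0 z (n 0 z (n 0 z (n 0 z (n 0 z (n 0 z (n 0 z (n 0 z (n 0 z (n 0 z (n 7733787 z (n 0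
 z (n 0 z (n 0 z (n 0 z (n 0 z (n 0 z (n 0 z (n 0 z (n 0 z (n 0 z (n 0 z (n 0 z (n 0 z
 z)))))))))))))))))))))))))))) z)))))))))) (n 0 (n 0 z (n 135 (n 0 z (n 0 z (n 0 z (n 0 z (n 0 z
 (n 0 z (n 0 z (n 2 (n 2 (n 0 z (n 0 z (n 0 z (n 0 z (n 0 z (n 0 z z)))))) (n 2 (n 0 z (n 0 z (n
 0 z (n 0 z (n 0 z (n 0 (n 8782363 z z) z)))))) (n 2 (n 0 (n 8794227 z (n 7669835 z z)) (n 0 (n
 7604315 z (n 1284 z z)) (n 0 z (n 0 z (n 0 (n 8659299 z (n 8659299 z z)) (n 0 (n 8794227 z (n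
 7669835 z z)) z)))))) (n 2 (n 0 z (n 0 z (n 0 z (n 0 z (n 0 z (n 0 (n 8782363 z z) z)))))) (n 1
 z (n 1 z (n 1 z z))))))) z)))))))) (n 321 (n 2 (n 0 z (n 0 z (n 2 (n 0 z (n 0 z (n 0 z (n 0 z
 (n 0 z (n 0 z z)))))) (n 1 z (n 2 (n 0 z (n 0 z (n 0 z (n 0 z (n 0 z (n 0 (n 1220 z z) z))))))
 (n 1 z z)))))) (n 0 z (n 0 z (n 0 z (n 0 z (n 0 z z)))))) (n 321 (n 0 z (n 0 z (n 0 z (n
 7733787 z (n 0 z (n 0 z z)))))) (n 321 (n 0 z (n 0 z (n 0 z (n 0 z (n 0 z (n 0 z z)))))) (n 133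
 (n 0 z (n 0 z (n 0 z (n 0 z (n 0 z (n 0 z (n 0 z (n 0 z (n 0 z (n 7733787 z (n 0 z (n 0 z (n 0
 z (n 0 z (n 0 z (n 0 z (n 0 z z))))))))))))))))) (n 133 (n 0 z (n 0 z (n 0 z (n 0 z (n 0 z (n 0
 z (n 7610723 z (n 0 z (n 0 z (n 0 z (n 0 z (n 0 z (n 0 z (n 0 z (n 0 z (n 0 z (n 0 z
 z))))))))))))))))) (n 305 (n 0 z (n 2 (n 0 z z) (n 0 z (n 0 z (n 0 z (n 0 z (n 0 z (n 0 z (n 0
 z (n 0 z (n 0 z (n 0 z (n 0 z (n 0 z (n 0 z (n 0 z (n 0 z z))))))))))))))))) (n 305 (n 0 z (n 0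
 z (n 0 z (n 0 z (n 0 z (n 0 z (n 0 z (n 0 z (n 0 z (n 0 z (n 0 z (n 0 z (n 0 z (n 0 z (n 0 z (n
 0 z (n 0 z z))))))))))))))))) z))))))))) (n 0 (n 31 (n 0 z (n 0 z (n 0 z (n 0 z (n 0 z (n 0 z
 (n 0 z z))))))) (n 27 (n 0 z (n 0 z (n 0 z (n 0 z (n 0 z (n 0 z z)))))) (n 27 (n 0 z (n 0 z (n
 0 z (n 0 z (n 0 z (n 0 z z)))))) (n 27 (n 0 z (n 0 z (n 0 z (n 0 z (n 0 z (n 0 z z)))))) (n 243
 (n 0 z (n 0 z (n 0 z (n 0 z z)))) (n 243 (n 0 z (n 0 z (n 0 z (n 0 z z)))) (n 25 (n 0 z (n 0 z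
 (n 0 z (n 0 z (n 0 z (n 0 z (n 0 z (n 0 z (n 0 z (n 0 z (n 0 z (n 0 z (n 0 z (n 0 z (n 0 z (n 0
 z (n 0 z (n 0 z (n 0 z (n 0 z (n 0 z (n 0 z (n 0 z (n 0 z (n 0 z z))))))))))))))))))))))))) (n
 25 (n 0 z (n 0 z (n 0 z (n 0 z (n 0 z (n 0 z (n 0 z (n 0 z (n 0 z (n 0 z (n 0 z (n 2 z (n 0 z
 (n 0 z (n 0 z (n 0 z (n 0 z (n 0 z (n 0 z (n 0 z (n 0 z (n 0 z (n 0 z (n 0 z (n 0 z
 z))))))))))))))))))))))))) z)))))))) (n 0 (n 7 (n 0 z (n 0 z (n 0 z (n 0 z (n 0 z z))))) (n 7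
 (n 0 z (n 0 z (n 0 z (n 0 z (n 0 z z))))) (n 7 (n 0 z (n 0 z (n 0 z (n 0 z (n 0 z z))))) (n 15
 (n 2 (n 0 z (n 1 z (n 2 (n 0 z (n 0 z (n 0 z (n 0 z (n 0 z (n 0 z z)))))) z))) (n 0 z (n 0 z (n
 0 z (n 0 z (n 0 z (n 0 z (n 0 z (n 0 z (n 0 z z)))))))))) (n 15 (n 0 z (n 0 z (n 2 (n 1 z (n 2
 (n 0 z (n 0 z (n 0 z (n 0 z (n 0 z (n 0 z z)))))) z)) (n 0 z (n 0 z (n 0 z (n 0 z (n 0 z (n 0 z
 (n 0 z z)))))))))) (n 13 (n 0 z (n 0 z (n 0 z (n 0 z (n 2 (n 0 z z) (n 0 z (n 0 z (n 0 z (n 0 z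
 (n 0 z (n 0 z (n 0 z (n 0 z (n 0 z (n 0 z (n 0 z (n 0 z (n 0 z (n 0 z (n 0 z (n 0 z (n 0 z (n 0
 z (n 0 z (n 0 z (n 0 z (n 0 z (n 0 z z)))))))))))))))))))))))))))) (n 13 (n 0 z (n 0 z (n 0 z
 (n 0 z (n 0 z (n 0 z (n 0 z (n 0 z (n 0 z (n 0 z (n 0 z (n 0 z (n 0 z (n 0 z (n 0 z (n 2 z (n 0
 z (n 0 z (n 0 z (n 0 z (n 0 z (n 0 z (n 0 z (n 0 z (n 0 z (n 0 z (n 0 z (n 0 z
 z)))))))))))))))))))))))))))) z))))))) (n 0 (n 0 z (n 0 z (n 51 (n 0 z (n 0 z (n 0 z (n 0 z (n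
 0 z (n 0 z (n 0 z z))))))) (n 51 (n 0 z (n 2 (n 1 z (n 2 (n 0 z (n 0 z (n 0 z (n 0 z (n 0 z (n
 0 z z)))))) z)) (n 0 z (n 0 z (n 0 z (n 0 z (n 0 z z))))))) (n 49 (n 0 z (n 2 (n 0 z z) (n 0 z
 (n 0 z (n 0 z (n 0 z (n 0 z (n 0 z (n 0 z (n 0 z (n 0 z (n 0 z z)))))))))))) (n 49 (n 0 z (n 0
 z (n 0 z (n 0 z (n 0 z (n 0 z (n 0 z (n 2 z (n 0 z (n 0 z (n 0 z (n 0 z z)))))))))))) z))))))
 (n 0 (n 0 z (n 111 (n 0 z (n 0 z z)) (n 111 (n 0 z (n 0 z z)) (n 13 (n 0 z (n 0 z z)) (n 13 (n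
 0 z (n 0 z z)) z))))) (n 0 (n 51 (n 0 z (n 0 z (n 0 z (n 0 z (n 0 z (n 0 z (n 0 z (n 0 z (n 0 z
 (n 0 z (n 0 z (n 0 z (n 0 z (n 0 z (n 0 z (n 0 z z)))))))))))))))) (n 51 (n 0 z (n 0 z (n 0 z
 (n 0 z (n 0 z (n 0 z (n 0 z (n 0 z (n 0 z (n 0 z (n 0 z (n 0 z (n 0 z (n 0 z (n 0 z (n 0 z
 z)))))))))))))))) (n 49 (n 0 z (n 0 z (n 0 z (n 0 z (n 0 z (n 0 z (n 0 z (n 0 z (n 0 z (n 0 z
 z)))))))))) (n 49 (n 0 z (n 0 z (n 0 z (n 0 z (n 0 z (n 0 z (n 0 z (n 0 z (n 0 z (n 0 z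
 z)))))))))) z)))) (n 0 (n 0 z (n 1 (n 0 z (n 0 z (n 0 z (n 0 z (n 0 z (n 0 z (n 0 z (n 0 z (n 0
 z z))))))))) (n 1 (n 0 z (n 0 z (n 0 z (n 0 z (n 0 z (n 0 z (n 0 z (n 0 z (n 0 z z)))))))))
 z))) (n 0 (n 1 (n 0 z (n 0 z (n 0 z (n 0 z (n 0 z (n 0 z (n 0 z (n 0 z (n 0 z (n 7754755 z (n 0
 z (n 0 z z)))))))))))) (n 1 (n 0 z (n 0 z (n 0 z (n 0 z (n 0 z (n 0 z (n 0 z (n 2 z (n 0 z (n 0
 z (n 0 z (n 0 z z)))))))))))) z)) (n 0 (n 0 z z) (n 0 z z))))))))))) (n 0 (n 0 z (n 1 (n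
 3278363 z (n 3278363 z (n 3278363 z (n 3278363 z (n 3278363 z (n 3278363 z z)))))) (n 0 z (n 0
 z (n 0 z (n 0 z z)))))) (n 0 z z)))) (n 0x16cf58367a4433ce2c1e516c318da04ba98254501316cc0 (n
 0x22d9e (n 641 (n 6635539 z (n 0 z (n 2 z z))) (n 255 (n 0 z (n 0 z (n 0 z (n 0 z (n 0 z (n 0 z
 (n 0 z (n 10 z (n
 0x2c8686040782086182081f8218207e08208208208618607e082082086086085f8208208208208208208600801 z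
 (n 6624267 z (n 0 z (n 0 z (n 0 z (n 0 z (n 0 z (n 0 z (n 18 z (n 0 z (n 0 z (n 0 z (n 26 z (n
 0 z (n 34 z (n 0 z (n 0 z (n 0 z z)))))))))))))))))))))))))) (n 637 (n 42 z (n 3212843 z z)) (n
 3 (n 2164283 z (n 50 z z)) (n 1 (n 0 z (n 0 z (n 0 z (n 0 z (n 0 z (n 0 z (n 58 z (n 0 z (n
 6635539 z (n 0 z (n 0 z z))))))))))) (n 0 (n 0 z (n 0 z (n 66 z (n 6635539 z (n 0 z z)))))
 z)))))) (n 637 (n 0 (n 187 (n 0 z (n 0 z (n 0 z (n 0 z (n 0 z (n 0 z (n 0 z (n 0 z (n 0 z (n 0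
 z (n 0 z (n 0 z (n 0 z (n 0 z (n 0 z (n 0 z (n 0 z (n 0 z (n 0 z (n 0 z (n 0 z (n 0 z (n 0 z
 z))))))))))))))))))))))) (n 187 (n 0 z (n 0 z (n 0 z (n 0 z (n 0 z (n 0 z (n 0 z (n 0 z (n 0 z
 (n 0 z (n 0 z (n 0 z (n 0 z (n 0 z (n 0 z (n 0 z (n 0 z (n 0 z (n 0 z (n 0 z (n 0 z (n 0 z (n 0
 z z))))))))))))))))))))))) (n 187 (n 0 z (n 0 z (n 0 z (n 0 z (n 0 z (n 0 z (n 0 z (n 0 z (n 0
 z (n 0 z (n 0 z (n 0 z (n 0 z (n 0 z (n 0 z (n 0 z (n 0 z (n 0 z (n 0 z (n 0 z (n 0 z (n 0 z (n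
 0 z z))))))))))))))))))))))) (n 187 (n 0 z (n 0 z (n 0 z (n 0 z (n 0 z (n 0 z (n 0 z (n 0 z (n
 0 z (n 0 z (n 0 z (n 0 z (n 0 z (n 0 z (n 0 z (n 0 z (n 0 z (n 0 z (n 0 z (n 0 z (n 0 z (n 0 z
 (n 0 z z))))))))))))))))))))))) (n 1275 (n 0 z (n 0 z (n 0 z (n 0 z (n 0 z (n 0 z (n 0 z (n 0 z
 (n 0 z (n 0 z (n 0 z z))))))))))) (n 1011 (n 0 z (n 0 z (n 0 z (n 0 z (n 0 z z))))) (n 1273 (n
 0 z (n 0 z (n 0 z (n 0 z (n 0 z (n 0 z (n 0 z z))))))) (n 1009 (n 0 z (n 0 z (n 0 z (n 0 z (n 0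
 z (n 0 z (n 0 z z))))))) z)))))))) (n 0 (n 0 z (n 0 z (n 0 z (n 263 (n 0 z (n 0 z (n 0 z (n 0 z
 (n 0 z (n 0 z (n 0 z (n 0 z (n 0 z (n 0 z (n 0 z (n 0 z (n 0 z (n 0 z (n 0 z z)))))))))))))))
 (n 11 (n 0 z (n 0 z (n 0 z (n 0 z (n 0 z (n 0 z (n 0 z (n 0 z (n 0 z (n 0 z (n 0 z (n 0 z
 z)))))))))))) (n 261 (n 0 z (n 0 z (n 0 z (n 0 z (n 0 z (n 2 (n 1 z z) (n 0 z z))))))) (n 253
 (n 0 z (n 0 z (n 2 z (n 0 z (n 0 z (n 0 z (n 0 z z))))))) z))))))) (n 0 (n 0 z (n 0 z (n 263 (n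
 0 z (n 0 z (n 0 z (n 0 z (n 0 z (n 0 z (n 0 z z))))))) (n 11 (n 0 z (n 0 z (n 0 z (n 0 z (n 0 z
 (n 0 z (n 0 z z))))))) (n 3 (n 0 z (n 0 z (n 0 z (n 0 z (n 0 z (n 0 z (n 0 z (n 0 z (n 0 z (n 0
 z z)))))))))) (n 1 (n 0 z (n 0 z (n 0 z (n 0 z (n 0 z (n 0 z z)))))) z)))))) (n 0 (n 0 z (n 259
 (n 0 z (n 0 z (n 0 z (n 0 z (n 0 z (n 0 z (n 0 z (n 0 z z)))))))) (n 247 (n 0 z (n 0 z (n 0 z
 (n 0 z (n 0 z (n 0 z z)))))) (n 243 (n 0 z (n 0 z (n 0 z (n 0 z (n 0 z (n 0 z (n 0 z z)))))))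
 (n 241 (n 0 z (n 0 z (n 0 z (n 0 z z)))) z))))) (n 0 (n 915 (n 0 z (n 0 z (n 0 z (n 0 z (n 0 z
 (n 0 z (n 0 z (n 0 z (n 0 z (n 0 z (n 0 z (n 0 z (n 0 z (n 0 z (n 0 z (n 0 z (n 0 z (n 0 z (n 0
 z (n 0 z (n 0 z (n 0 z (n 0 z (n 0 z (n 0 z (n 0 z z)))))))))))))))))))))))))) (n 425 (n 0 z (n
 0 z (n 0 z (n 0 z (n 0 z (n 0 z (n 0 z (n 0 z (n 0 z (n 0 z (n 0 z (n 0 z (n 0 z (n 0 z (n 0 z
 (n 0 z (n 0 z (n 0 z (n 0 z (n 0 z (n 0 z (n 0 z (n 0 z (n 0 z (n 0 z (n 0 z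
 z)))))))))))))))))))))))))) (n 913 (n 0 z (n 0 z (n 0 z (n 0 z (n 0 z (n 0 z (n 0 z (n 0 z (n 0
 z (n 0 z (n 0 z (n 0 z (n 0 z (n 0 z (n 0 z (n 0 z (n 0 z (n 0 z (n 0 z (n 0 z (n 0 z (n 0 z (n
 0 z z))))))))))))))))))))))) (n 509 (n 0 z (n 0 z (n 0 z (n 0 z (n 0 z (n 0 z (n 0 z (n 0 z (n
 0 z (n 0 z (n 0 z (n 0 z (n 0 z (n 0 z (n 0 z (n 0 z (n 0 z (n 0 z (n 0 z (n 0 z (n 0 z (n 0 z
 (n 0 z z))))))))))))))))))))))) z)))) (n 0 (n 1029 (n 0 z (n 0 z z)) (n 1277 (n 0 z (n 0 z (n 0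
 z (n 0 z (n 0 z z))))) (n 1021 (n 0 z (n 0 z (n 0 z z))) z))) (n 0 (n 9 (n 0 z (n 0 z (n 0 z
 z))) (n 1037 (n 0 z (n 0 z (n 0 z (n 0 z (n 0 z (n 0 z (n 0 z (n 0 z (n 0 z (n 0 z (n 0 z
 z))))))))))) z)) (n 0 (n 1 (n 0 z (n 0 z (n 0 z (n 0 z (n 0 z (n 0 z (n 0 z z))))))) z) (n 0 z
 z))))))))) (n 0 (n 1 (n 5132 z (n 5132 z (n 5132 z (n 5132 z (n 5132 z (n 2 z z)))))) (n 1 (n
 3212843 z (n 3212843 z (n 3212843 z (n 3212843 z (n 3212843 z (n 3212843 z z)))))) z)) (n 0 (n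
 0 (n 0 (n 0 (n 7746067 z (n 7746067 z (n 7746067 z (n 7746067 z (n 7746067 z (n 7746067 z
 z)))))) z) (n 0 (n 641 (n 1 (n 7684115 z (n 7684115 z (n 7684115 z (n 7684115 z (n 7684115 z (n
 7684115 z z)))))) (n 0 z (n 1 (n 7746067 z (n 7746067 z (n 7746067 z (n 7746067 z (n 7746067 z
 (n 7746067 z z)))))) z))) (n 213 (n 0 z (n 0 z (n 0 z (n 1 (n 4400923 z (n 7672843 z (n 6496371
 z (n 4400923 z (n 4400923 z (n 4400923 z z)))))) (n 0 z (n 0 z (n 0 z (n 0 z (n 1 (n 7544931 z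
 (n 7544931 z (n 7544931 z (n 7544931 z (n 7544931 z (n 7544931 z z)))))) (n 0 z (n 0 z (n 0 z
 (n 0 z (n 0 z (n 0 z (n 0 z (n 1 (n 7607563 z (n 7672843 z (n 2044 z (n 2044 z (n 2044 z (n
 2044 z z)))))) (n 1 (n 2044 z (n 7672843 z (n 7607563 z (n 2044 z (n 2044 z (n 2044 z z))))))
 (n 1 (n 7672843 z (n 2044 z (n 2044 z (n 7607563 z (n 2044 z (n 2044 z z)))))) (n 0 z (n 1 (n
 2044 z (n 2044 z (n 7672843 z (n 7607563 z (n 2044 z (n 2044 z z)))))) (n 0 z (n 1 (n 7672843 z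
 (n 7607563 z (n 7738155 z (n 7738155 z (n 7738155 z (n 7738155 z z))))))
 z))))))))))))))))))))))) (n 637 (n 1 (n 7746067 z (n 7746067 z (n 7746067 z (n 7746067 z (n
 7746067 z (n 7746067 z z)))))) (n 1 (n 7746067 z (n 7746067 z (n 7746067 z (n 7746067 z (n
 7746067 z (n 7746067 z z)))))) z)) (n 520 (n 1 (n 7746067 z (n 7746067 z (n 7746067 z (n
 7746067 z (n 7746067 z (n 7746067 z z)))))) (n 1 (n 7746067 z (n 7746067 z (n 7746067 z (n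
 7746067 z (n 7746067 z (n 7746067 z z)))))) z)) (n 5 (n 1 (n 7684115 z (n 7684115 z (n 7684115
 z (n 7684115 z (n 7684115 z (n 7684115 z z)))))) (n 0 z (n 1 (n 7746067 z (n 7746067 z (n
 7746067 z (n 7746067 z (n 7746067 z (n 7746067 z z)))))) z))) (n 523 (n 1 (n 7684115 z (n
 7684115 z (n 7684115 z (n 7684115 z (n 7684115 z (n 7684115 z z)))))) (n 0 z (n 1 (n 7746067 z
 (n 7746067 z (n 7746067 z (n 7746067 z (n 7746067 z (n 7746067 z z)))))) z))) (n 637 (n 1 (n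
 7746067 z (n 7746067 z (n 7746067 z (n 7746067 z (n 7746067 z (n 7746067 z z)))))) (n 1 (n
 7746067 z (n 7746067 z (n 7746067 z (n 7746067 z (n 7746067 z (n 7746067 z z)))))) z)) z)))))))
 (n 0 z (n 0 (n 213 (n 0 z (n 0 z (n 0 z (n 0 z (n 0 z (n 0 z (n 0 z (n 0 z (n 0 z (n 0 z (n 0 z
 (n 0 z (n 0 z (n 0 z (n 0 z (n 0 z (n 0 z (n 0 z (n 0 z (n 0 z (n 0 z (n 0 z (n 0 z
 z))))))))))))))))))))))) (n 639 (n 0 z (n 0 z (n 0 z (n 0 z (n 0 z (n 0 z (n 0 z (n 0 z (n 0 z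
 (n 0 z (n 0 z z))))))))))) (n 459 (n 0 z (n 0 z (n 0 z (n 0 z (n 0 z (n 0 z (n 0 z (n 0 z (n 0
 z (n 0 z (n 0 z (n 0 z (n 0 z (n 0 z (n 0 z (n 0 z (n 0 z (n 0 z (n 0 z (n 0 z (n 0 z (n 0 z (n
 0 z (n 0 z (n 0 z (n 0 z z)))))))))))))))))))))))))) (n 519 (n 0 z (n 0 z (n 0 z (n 0 z (n 0 z
 z))))) (n 454 (n 0 z (n 0 z (n 0 z (n 0 z (n 0 z (n 0 z (n 0 z (n 0 z (n 0 z (n 0 z (n 0 z (n 0
 z (n 0 z (n 0 z (n 0 z (n 0 z (n 0 z (n 0 z (n 0 z (n 0 z (n 0 z (n 0 z (n 0 z (n 0 z (n 0 z (n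
 0 z z)))))))))))))))))))))))))) (n 520 (n 0 z (n 0 z z)) (n 641 (n 0 z (n 0 z (n 0 z (n 0 z (n
 0 z (n 0 z (n 0 z z))))))) (n 461 (n 0 z (n 0 z (n 0 z (n 0 z (n 0 z (n 0 z (n 0 z (n 0 z (n 0
 z (n 0 z (n 0 z (n 0 z (n 0 z (n 0 z (n 0 z (n 0 z (n 0 z (n 0 z (n 0 z (n 0 z (n 0 z (n 0 z (n
 0 z z))))))))))))))))))))))) (n 640 (n 0 z (n 0 z (n 0 z (n 0 z (n 0 z z))))) (n 5 (n 0 z (n 0
 z (n 0 z z))) (n 525 (n 0 z (n 0 z (n 0 z (n 0 z (n 0 z (n 0 z (n 0 z z))))))) (n 255 (n 0 z (n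
 0 z (n 0 z (n 0 z (n 0 z (n 0 z (n 0 z (n 0 z (n 0 z (n 0 z (n 0 z (n 0 z (n 0 z (n 0 z (n 0 z
 (n 0 z (n 0 z (n 0 z (n 0 z (n 0 z (n 0 z (n 0 z (n 0 z z))))))))))))))))))))))) (n 523 (n 0 z
 (n 0 z (n 0 z z))) (n 524 (n 0 z (n 0 z (n 0 z (n 0 z (n 0 z (n 0 z (n 0 z (n 0 z (n 0 z (n 0 z
 (n 0 z z))))))))))) (n 1 (n 0 z (n 0 z (n 0 z (n 0 z (n 0 z (n 0 z (n 0 z z))))))) (n 641 (n 0
 z (n 0 z (n 0 z z))) (n 255 (n 0 z (n 0 z (n 0 z (n 0 z (n 0 z (n 0 z (n 0 z (n 0 z (n 0 z (n 0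
 z (n 0 z (n 0 z (n 0 z (n 0 z (n 0 z (n 0 z (n 0 z (n 0 z (n 0 z (n 0 z (n 0 z (n 0 z (n 0 z (n
 0 z (n 0 z (n 0 z z)))))))))))))))))))))))))) (n 637 (n 0 z (n 0 z z)) (n 3 (n 0 z (n 0 z z))
 (n 1 (n 0 z (n 0 z (n 0 z (n 0 z (n 0 z (n 0 z (n 0 z (n 0 z (n 0 z (n 0 z (n 0 z z)))))))))))
 (n 0 (n 0 z (n 0 z (n 0 z (n 0 z (n 0 z z))))) z))))))))))))))))))))) z)))) z) z)))) (n
 0x16c268a915418acb04564842b1c3058a188430c540 (n 0x218ac (n 471 (n 0 z (n 2 z (n 0 z (n 3282443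
 z z)))) (n 469 (n 10 z (n 0 z (n 0 z (n 0 z (n 0 z (n 6635811 z (n 0 z (n 0 z z)))))))) (n 9 (n
 0 z (n 0 z (n 0 z (n 0 z (n 0 z (n 0 z (n 6628379 z (n 0 z (n 0 z (n 0 z (n 0 z (n 0 z (n 0 z
 (n 18 z (n 0 z (n 0 z (n 0 z (n 0 z (n 0 z (n 0 z (n 0 z (n 0 z (n 0 z (n 0 z
 z)))))))))))))))))))))))) (n 3 (n 0 z (n 2164283 z (n 0 z (n 26 z z)))) (n 1 (n 0 z (n 0 z (n 0
 z (n 0 z (n 0 z (n 34 z (n 0 z (n 0 z (n 0 z (n 0 z (n 0 z (n 6635811 z z)))))))))))) (n 0 (n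
 42 z (n 0 z (n 0 z (n 6635811 z (n 0 z (n 0 z (n 50 z (n 58 z (n 0 z (n 6635811 z (n 0 z
 z))))))))))) z)))))) (n 471 (n 0 (n 939 (n 0 z (n 0 z (n 0 z (n 0 z (n 0 z (n 0 z (n 0 z (n 0 z
 (n 0 z (n 0 z (n 0 z (n 0 z z)))))))))))) (n 915 (n 0 z (n 0 z (n 0 z (n 0 z (n 0 z (n 0 z (n 0
 z (n 0 z (n 0 z (n 0 z (n 0 z (n 0 z (n 0 z (n 0 z (n 0 z (n 0 z (n 0 z (n 0 z (n 0 z (n 0 z (n
 0 z (n 0 z (n 0 z (n 0 z z)))))))))))))))))))))))) (n 165 (n 0 z (n 0 z (n 0 z (n 0 z z)))) (n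
 937 (n 0 z (n 0 z (n 0 z (n 0 z (n 0 z (n 0 z (n 0 z (n 0 z (n 0 z (n 0 z (n 0 z z)))))))))))
 (n 161 (n 0 z (n 0 z (n 0 z (n 0 z (n 0 z (n 0 z (n 0 z (n 0 z z)))))))) (n 161 (n 0 z (n 0 z
 (n 0 z (n 0 z (n 0 z (n 0 z (n 0 z (n 0 z z)))))))) (n 161 (n 0 z (n 0 z (n 0 z (n 0 z (n 0 z
 (n 0 z (n 0 z (n 0 z z)))))))) z))))))) (n 0 (n 391 (n 0 z (n 0 z (n 0 z (n 0 z (n 0 z (n 0 z
 (n 0 z (n 0 z (n 0 z (n 0 z (n 0 z (n 0 z (n 0 z z))))))))))))) (n 399 (n 0 z (n 0 z (n 0 z (n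
 0 z (n 0 z (n 0 z (n 0 z (n 0 z (n 0 z (n 0 z (n 0 z z))))))))))) (n 941 (n 0 z (n 0 z (n 0 z
 (n 0 z (n 0 z (n 0 z (n 0 z (n 0 z z)))))))) (n 397 (n 0 z (n 0 z (n 0 z (n 0 z (n 0 z (n 0 z
 (n 0 z (n 0 z z)))))))) (n 397 (n 0 z (n 0 z (n 0 z (n 0 z (n 0 z (n 0 z (n 0 z (n 0 z
 z)))))))) (n 397 (n 0 z (n 0 z (n 0 z (n 0 z (n 0 z (n 0 z (n 0 z (n 0 z z)))))))) z)))))) (n 0
 (n 633 (n 0 z (n 0 z (n 0 z (n 0 z (n 0 z (n 0 z (n 0 z (n 0 z (n 0 z (n 0 z (n 0 z (n 0 z (n 0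
 z (n 0 z (n 0 z (n 0 z (n 0 z (n 0 z (n 0 z (n 0 z (n 0 z (n 0 z (n 0 z (n 0 z
 z)))))))))))))))))))))))) (n 937 (n 0 z (n 0 z (n 0 z (n 0 z (n 0 z (n 0 z (n 0 z (n 0 z (n 0 z
 (n 0 z (n 0 z (n 0 z (n 0 z z))))))))))))) (n 13 (n 0 z (n 0 z (n 0 z (n 0 z (n 0 z (n 0 z (n 0
 z (n 0 z (n 0 z (n 0 z (n 0 z (n 0 z (n 0 z z))))))))))))) (n 13 (n 0 z (n 0 z (n 0 z (n 0 z (n
 0 z (n 0 z (n 0 z (n 0 z (n 0 z (n 0 z (n 0 z (n 0 z (n 0 z z))))))))))))) (n 13 (n 0 z (n 0 z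
 (n 0 z (n 0 z (n 0 z (n 0 z (n 0 z (n 0 z (n 0 z (n 0 z (n 0 z (n 0 z (n 0 z z)))))))))))))
 z))))) (n 0 (n 3 (n 0 z (n 0 z (n 0 z (n 0 z (n 0 z (n 0 z (n 0 z (n 0 z z)))))))) (n 889 (n 0
 z (n 0 z (n 0 z (n 0 z (n 0 z (n 0 z (n 0 z (n 0 z (n 0 z (n 0 z (n 0 z (n 0 z z)))))))))))) (n
 889 (n 0 z (n 0 z (n 0 z (n 0 z (n 0 z (n 0 z (n 0 z (n 0 z (n 0 z (n 0 z (n 0 z (n 0 z
 z)))))))))))) (n 889 (n 0 z (n 0 z (n 0 z (n 0 z (n 0 z (n 0 z (n 0 z (n 0 z (n 0 z (n 0 z (n 0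
 z (n 0 z z)))))))))))) z)))) (n 0 (n 1 (n 0 z (n 0 z (n 0 z (n 0 z (n 0 z (n 0 z (n 0 z (n 0 z
 z)))))))) (n 1 (n 0 z (n 0 z (n 0 z (n 0 z (n 0 z (n 0 z (n 0 z (n 0 z z)))))))) (n 1 (n 0 z (n
 0 z (n 0 z (n 0 z (n 0 z (n 0 z (n 0 z (n 0 z z)))))))) z))) (n 0 (n 0 z (n 0 z z)) (n 0 (n 0 z
 z) (n 0 z z)))))))) (n 0 (n 0 z (n 1 (n 3756 z (n 3756 z (n 3756 z (n 2 z (n 3756 z (n 3756 z
 z)))))) (n 0 z (n 1 (n 3282443 z (n 3282443 z (n 3282443 z (n 3282443 z (n 3282443 z (n 3282443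
 z z)))))) z)))) (n 0 (n 0 (n 0 (n 0 (n 7750403 z (n 7750403 z (n 7750403 z (n 7750403 z (n
 7750403 z (n 7750403 z z)))))) z) (n 0 (n 471 (n 0 z (n 1 (n 7745571 z (n 7745571 z (n 7745571
 z (n 7745571 z (n 7745571 z (n 7745571 z z)))))) (n 0 z (n 1 (n 7745571 z (n 7745571 z (n
 7745571 z (n 7745571 z (n 7745571 z (n 7745571 z z)))))) z)))) (n 469 (n 1 (n 7750403 z (n
 7750403 z (n 7750403 z (n 7750403 z (n 7750403 z (n 7750403 z z)))))) (n 0 z (n 0 z (n 0 z (n 0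
 z (n 1 (n 7684387 z (n 7684387 z (n 7684387 z (n 7684387 z (n 7684387 z (n 7684387 z z)))))) (n
 0 z (n 0 z z)))))))) (n 315 (n 0 z (n 0 z (n 0 z (n 0 z (n 0 z (n 0 z (n 1 (n 7742219 z (n
 6492275 z (n 7742219 z (n 7742219 z (n 7742219 z (n 7742219 z z)))))) (n 0 z (n 0 z (n 0 z (n 0
 z (n 0 z (n 1 (n 7737395 z (n 7737395 z (n 7737395 z (n 7737395 z (n 7737395 z (n 7737395 z
 z)))))) z))))))))))))) (n 449 (n 0 z (n 1 (n 7745571 z (n 7745571 z (n 7745571 z (n 7750403 z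
 (n 7745571 z (n 7745571 z z)))))) (n 0 z (n 1 (n 7745571 z (n 7745571 z (n 7745571 z (n 7750403
 z (n 7745571 z (n 7745571 z z)))))) z)))) (n 472 (n 1 (n 7684387 z (n 7684387 z (n 7684387 z (n
 7684387 z (n 7684387 z (n 7684387 z z)))))) (n 1 (n 7750403 z (n 7750403 z (n 7750403 z (n
 7750403 z (n 7750403 z (n 7750403 z z)))))) (n 0 z (n 0 z (n 1 (n 3788 z (n 7611675 z (n 3788 z
 (n 3788 z (n 3788 z (n 3213147 z z)))))) (n 0 z (n 0 z (n 0 z z)))))))) (n 713 (n 1 (n 7745571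
 z (n 7745571 z (n 7745571 z (n 7750403 z (n 7745571 z (n 7745571 z z)))))) (n 0 z (n 0 z (n 0 z
 (n 0 z (n 1 (n 7684387 z (n 7684387 z (n 7684387 z (n 7750403 z (n 7684387 z (n 7684387 z
 z)))))) (n 0 z (n 0 z z)))))))) (n 471 (n 0 z (n 1 (n 7745571 z (n 7745571 z (n 7745571 z (n
 7750403 z (n 7745571 z (n 7745571 z z)))))) (n 0 z (n 1 (n 7745571 z (n 7745571 z (n 7745571 z
 (n 7750403 z (n 7745571 z (n 7745571 z z)))))) z)))) z))))))) (n 0 z (n 0 (n 471 (n 0 z (n 0 z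
 (n 0 z (n 0 z (n 0 z (n 0 z (n 0 z (n 0 z (n 0 z (n 0 z (n 0 z (n 0 z z)))))))))))) (n 471 (n 0
 z (n 0 z (n 0 z (n 0 z (n 0 z (n 0 z (n 0 z (n 0 z (n 0 z (n 0 z (n 0 z (n 0 z (n 0 z (n 0 z (n
 0 z (n 0 z (n 0 z (n 0 z (n 0 z (n 0 z (n 0 z (n 0 z (n 0 z (n 0 z z)))))))))))))))))))))))) (n
 315 (n 0 z (n 0 z (n 0 z (n 0 z (n 0 z (n 0 z (n 0 z (n 0 z (n 0 z (n 0 z (n 0 z (n 0 z (n 0 z
 z))))))))))))) (n 449 (n 0 z (n 0 z (n 0 z (n 0 z z)))) (n 445 (n 0 z (n 0 z (n 0 z (n 0 z (n 0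
 z (n 0 z (n 0 z (n 0 z (n 0 z (n 0 z (n 0 z z))))))))))) (n 436 (n 0 z (n 0 z (n 0 z (n 0 z (n
 0 z (n 0 z (n 0 z (n 0 z (n 0 z (n 0 z (n 0 z (n 0 z (n 0 z (n 0 z (n 0 z (n 0 z (n 0 z (n 0 z
 (n 0 z (n 0 z (n 0 z (n 0 z (n 0 z (n 0 z z)))))))))))))))))))))))) (n 473 (n 0 z (n 0 z (n 0 z
 (n 0 z (n 0 z (n 0 z (n 0 z (n 0 z (n 0 z (n 0 z (n 0 z z))))))))))) (n 472 (n 0 z (n 0 z (n 0
 z (n 0 z (n 0 z (n 0 z (n 0 z (n 0 z z)))))))) (n 474 (n 0 z (n 0 z (n 0 z (n 0 z (n 0 z (n 0 z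
 (n 0 z (n 0 z (n 0 z (n 0 z (n 0 z (n 0 z (n 0 z z))))))))))))) (n 3 (n 0 z (n 0 z (n 0 z (n 0
 z (n 0 z (n 0 z (n 0 z (n 0 z z)))))))) (n 713 (n 0 z (n 0 z (n 0 z (n 0 z (n 0 z (n 0 z (n 0 z
 (n 0 z z)))))))) (n 709 (n 0 z (n 0 z (n 0 z (n 0 z (n 0 z (n 0 z (n 0 z (n 0 z z)))))))) (n 11
 (n 0 z (n 0 z (n 0 z (n 0 z (n 0 z (n 0 z (n 0 z (n 0 z (n 0 z (n 0 z (n 0 z (n 0 z (n 0 z
 z))))))))))))) (n 708 (n 0 z (n 0 z (n 0 z (n 0 z (n 0 z (n 0 z (n 0 z (n 0 z (n 0 z (n 0 z (n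
 0 z (n 0 z z)))))))))))) (n 1 (n 0 z (n 0 z (n 0 z (n 0 z (n 0 z (n 0 z (n 0 z (n 0 z z))))))))
 (n 471 (n 0 z (n 0 z (n 0 z (n 0 z z)))) (n 469 (n 0 z (n 0 z (n 0 z (n 0 z (n 0 z (n 0 z (n 0
 z (n 0 z z)))))))) (n 9 (n 0 z (n 0 z (n 0 z (n 0 z (n 0 z (n 0 z (n 0 z (n 0 z (n 0 z (n 0 z
 (n 0 z (n 0 z (n 0 z (n 0 z (n 0 z (n 0 z (n 0 z (n 0 z (n 0 z (n 0 z (n 0 z (n 0 z (n 0 z (n 0
 z z)))))))))))))))))))))))) (n 3 (n 0 z (n 0 z (n 0 z (n 0 z z)))) (n 1 (n 0 z (n 0 z (n 0 z (n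
 0 z (n 0 z (n 0 z (n 0 z (n 0 z (n 0 z (n 0 z (n 0 z (n 0 z z)))))))))))) (n 0 (n 0 z (n 0 z (n
 0 z (n 0 z (n 0 z (n 0 z (n 0 z (n 0 z (n 0 z (n 0 z (n 0 z z))))))))))) z)))))))))))))))))))))
 z)))) z) z)))) (n 0x32576892b903ae4860d1530568c22454c819 (n 0 (n 477 (n 3282443 z (n 0 z (n 0 z
 (n 0 z z)))) (n 475 (n 3278363 z (n
 0x484a1951950c0e00b5aeca8ca4607000b9f543651201803413aa1b20900c023cfd9494c8006005f9e00684c16a00eedf6a62011e7e94c40c8b34a988149c6853180000080242a8026db7fe30b7db66e811ba67fd04a82bdb78109d37f84887d68fd8202be7fc2a682ff347ea2047e76a080cae08181397d5d5d7f6c2b802bc37f85957f6f6e7e172783c83c805c9a7fdbd07fd060800bd07f35208000007eef3381ed6f81533a7f5f3b7f3e437f21f280000080d4a07e93748106b07e2fb07ee6248101fd7edc64816d2280e9077f6df07fe2ac81e99f3119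
 z (n
 0x4c86c86003807e7f8180817d807f8082807e80847e807f83818181807e7e7d8080808080807d847e837f80808280817e82827d7f8180810809
 z (n
 0x8806c82640a070321174326105018032dbb29318201c03638d9494c100e00a546ca2a6080700803365152040383ea50aa1308180c01355d95195080e00aa26ca8a86403002e67641540203805987b21b21800c0a6ff55098c400603a01e000c8656200459b0045230b70022cd800a9185880b99fea98812da3c5311041a76a6217162e94c45f3f3ca9887c4038531800000820bdd8b53a78377c17a1e6276713482c98580ef7a791e0783d64b7e736581db60815cf281da53724abe78503f89b4c08780a681ff1782df2f7fafc17b3b6d7b110888a2cf7e0eee87607c83bca0801c147b062075437082727c7cb6437ce9d5755a9a837a1c88c3dd76bf728000007f3bec83dcdc89e9fd7c49fa7d359d80223a7e92648fccc886c92f7bcf807d209489954c7999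
 z (n 0 z (n
 0xd6c86c40a07000023653652401800242b28aa0181c00002d94d90c80600011ea86ca24030000d7543631201800017b21b28100c0009bd94d9008060001a8c64c64007000203532641001800023aa1b10801c00026ea9880004dc5310009716a6200089e94c400434ca98800692853180000080017f8005878002a77ffcf47ffbff80016b8001db7ffe448001e87ffd8b8002e080001280009b7ff8368000ab80062480048c7ffd1b8002c28003897ffcc67ffc598006838002cc8008b18000008000008001207fff288000007ff9e37fffb37ffae38002a78000c17ff7728000008000907ffecb8005347ffd1180041b7fffef7ffac280074f8004667fff707ffadc8003ff5999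
 z (n 0 z (n
 0x531509840c06000022a86ca240700002f654650201800005b2a320100c00007594550080e000046ca8c604030000476436420018000432a1318800c00008ea98800011c5310001af6a6200035e94c4000b9ca988000ad85318000008000498000528000708000027fff8680001b7fff167ffed17ffff67fffdc8000818000118000aa7ffffc7fff6c8000247ffff28000517fff077fff937fff957fffea80005a8000098000547fffd08000128000008000008000007fffbf80001d7ffeee8000198000b47fff6f8000008000008000cc80007d7fffb47fff1b80003f8000978000547fff648000008000928000894199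
 z (n 2 z (n 0 z z)))))))))) (n 474 (n
 0x32a32a180c04b18808631808080808080807f7f818180807f808080808181817f80817f808080808080807f7f8180808080808081817f80807f8080800889
 z (n
 0xaca4a6280380818f7b866e816a7b8f7e74807c848d7a8384968c748a8270818080808080866e7b8482808080888a8e877479817f807a800809
 z (n 3212843 z (n
 0x1320b18281c019458c100600ca4a6080380818580817a817b7f85807c7d807f8584818087847c7f807c84808080817f81797d7f827e8080828584837b7b8482817a851809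
 z (n 0 z (n 5445163 z (n 0 z (n 0 z (n 0 z (n 0 z (n 0 z (n
 0x595195040e02ca2ca20038082867d857782757c877d798083848678837d8a887b887b7c8180807f818081777a83837f807f868688867a7b827e827c801009
 z (n 0 z (n 0 z (n 0 z (n
 0x1329b29881c1594d0c040e04ca2ca20030b6a620a94c45ca9888853180838a7e7e77837d7c8577808284787e868779868b7a838385888080807a807a79778484788080838b81877b748e828076861909
 z (n 0 z (n 0 z (n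
 0x65163040180b28a98200c0595190040602ca8a802038084907a8c688368778d7d71778385907f847b9894768a797b887f817f818086647486877e807f8f8c948b6d79847c8177852009
 z (n 0 z (n 10 z (n 18 z (n
 0x994944100600ca8a802038082857c86777f727c887e78808085877982818a877b887f7a8180807d848183777c838180807f85848a857a7d7d7d827e7d1009
 z (n
 0xd95194c40e02c86c86203808997848c5f856372997c677c7d819a7b8a7eab946b8a7f6b957f7c81807f7d656e8c8b7580818e9196986a6f8987876f841009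
 z (n 0 z (n 0 z (n 0 z (n 0 z (n 26 z (n 6423611 z (n 0 z (n 0 z (n 0 z (n 0 z (n 0 z (n 0 z (n
 0 z (n 0 z (n 0 z (n 0 z (n 0 z (n 0 z (n 0 z (n 0 z (n
 0x3318b20280c0195190040e14ca8c8200780848b7d8f6d8467728d8b5685878e8f827981a18d72827b777c86797b86808d5a7a869389807b908d9a7c6a6e868189768e1809
 z (n 0 z z)))))))))))))))))))))))))))))))))))))))))))))) (n 3 (n 2164283 z (n 0 z (n 0 z (n 0 z
 (n 0 z z))))) (n 1 (n 6554139 z (n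
 0x36423105018332a188101c1d8c994040614a64c60203808391729c61834b6e968562817691956592859b95719e7d617b8080807f80905b698986818076998ba193697f7d6c8177752009
 z (n
 0x232a298901c0594994840e08ca8a60203808185807d7e808180847b7d80847f83807f7e87847c7f7f8083847e7e83817f7c8381817e80817e86827f7d758585817a881809
 z (n 6554139 z (n 34 z (n
 0x194994040620ca2c6200380858b76986685557495886280779397618f889e93799d77647e7f7e7e83818f627886858680808f859c90697e7c708076791009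
 z (n 42 z z))))))) (n 0 (n 50 z (n 0 z (n 0 z (n 0 z (n 2164315 z (n 0 z (n
 0xd90d90840e06ca886420780817b8084837d7c807f847d827984798084837b8282807c7f8080807880808384887b81808081807e7c798585807f79837e1009
 z (n
 0x5b29208180c0000d5950840c0600000ac64c642070000e9653430101800038b29210081c00002d8c98c4006000046002a4611a00013d6a620001ea94c40009eca988000c2853180000080003680009d7fffbe7fffce7fff7c8000368000157fffed8000087ffe7e80005680005180019a7fff427fff8e7fff5e80013e7ffe2c8000618000e07fffc38000fd7ffe228001e88001028000367fffca7fff2e7fffdc8000007fff567fffd07fff0880006e80007e7fff828000007fffe280005f80004c80000280009280000b7fffe080004e7fffcf80002a7fffda7fffb83919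
 z (n 0 z (n 0 z (n 0 z (n 0 z (n
 0x14b28990200c00017d94c84100e000052c82c8060300002964364320380003eb21b18900c0001dd9058c080e00002ec86c20407000137642642101800025319319081c0009a594d0c040e000040c82c820070006836c420009be988400341cb10800413862180000080013f8004c17fff3780006e7ffaf38001317ffe1b7ffdd78002877ffc377fff2680016b8001997ffbf27fffcf8002be8003427ffd3d80038f8005787ffd518000a480026d8001ba8004298000b47fff4c7ffffa7ffc887fff137ffd8a7ffb5d7ffa4880024780021e7ffb328000007fff4c80022b8005b48001ce8004f87ffdc77ffa7080073b8001218000b47ffa908002935919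
 z (n 0 z (n
 0x2c84c806038081807f807e817f7f8180807e80828180807f807f80808080817e808280808081817f7f81808280807f807f7e81808080800809
 z z))))))))))))))) z)))))) (n 477 (n 0 (n 1015 (n 0 z (n 0 z (n 2 (n 0 z (n 0 z (n 1 z (n 1 z
 (n 1 z z))))) (n 0 z (n 0 z (n 0 z (n 0 z (n 0 z (n 0 z (n 0 z (n 0 z (n 0 z (n 0 z (n 0 z (n 0
 z (n 0 z (n 0 z (n 0 z (n 0 z (n 0 z (n 0 z (n 0 z (n 0 z (n 0 z (n 0 z (n 0 z (n 0 z (n 0 z (n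
 0 z (n 0 z (n 0 z (n 0 z (n 0 z (n 0 z (n 0 z (n 0 z (n 0 z (n 0 z (n 0 z (n 0 z (n 0 z (n 0 z
 (n 0 z (n 0 z (n 0 z (n 0 z z)))))))))))))))))))))))))))))))))))))))))))))) (n 1015 (n 0 z (n 0
 z (n 0 z (n 0 z (n 0 z (n 0 z (n 0 z (n 0 z (n 0 z (n 0 z (n 0 z (n 0 z (n 0 z (n 0 z (n 0 z (n
 0 z (n 0 z (n 0 z (n 0 z (n 0 z (n 0 z (n 0 z (n 0 z (n 0 z (n 0 z (n 0 z (n 0 z (n 0 z (n 0 z
 (n 0 z (n 0 z (n 0 z (n 0 z (n 0 z (n 0 z (n 0 z (n 0 z (n 0 z (n 0 z (n 0 z (n 0 z (n 0 z (n 0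
 z (n 0 z (n 0 z (n 0 z z)))))))))))))))))))))))))))))))))))))))))))))) (n 1015 (n 0 z (n 0 z (n
 0 z (n 0 z (n 0 z (n 0 z (n 0 z (n 0 z (n 0 z (n 0 z (n 0 z (n 0 z (n 0 z (n 0 z (n 0 z (n 0 z
 (n 0 z (n 0 z (n 0 z (n 0 z (n 2 (n 1 z (n 1 z (n 1 z z))) (n 0 z (n 0 z (n 0 z (n 0 z (n 0 z
 (n 0 z (n 0 z (n 0 z (n 0 z (n 0 z (n 0 z (n 0 z (n 0 z (n 0 z (n 0 z (n 0 z (n 0 z (n 0 z (n 0
 z (n 0 z (n 0 z (n 0 z (n 0 z (n 0 z (n 0 z z)))))))))))))))))))))))))))))))))))))))))))))) (n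
 63 (n 0 z (n 0 z (n 0 z (n 0 z (n 0 z (n 0 z (n 0 z (n 0 z z)))))))) (n 63 (n 0 z (n 0 z (n 0 z
 (n 0 z (n 0 z (n 0 z (n 0 z (n 0 z z)))))))) (n 1013 (n 0 z (n 0 z (n 0 z (n 0 z (n 0 z (n 0 z
 (n 0 z (n 0 z (n 0 z (n 0 z (n 0 z (n 0 z (n 0 z (n 0 z (n 0 z (n 0 z (n 0 z (n 0 z (n 0 z (n 0
 z (n 0 z (n 0 z (n 0 z (n 0 z (n 0 z (n 0 z (n 0 z (n 0 z z)))))))))))))))))))))))))))) z))))))
 (n 0 (n 0 z (n 0 z (n 853 (n 0 z (n 2 (n 0 z (n 1 z z)) (n 0 z (n 0 z (n 0 z (n 0 z z)))))) (n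
 853 (n 0 z (n 0 z (n 0 z (n 0 z (n 0 z (n 0 z z)))))) (n 17 (n 0 z (n 0 z (n 0 z (n 0 z (n 0 z
 (n 0 z (n 0 z (n 0 z (n 0 z (n 0 z (n 0 z (n 0 z (n 0 z (n 0 z (n 0 z (n 0 z (n 0 z (n 0 z (n 2
 z (n 0 z (n 0 z (n 0 z (n 0 z (n 0 z (n 0 z (n 0 z (n 0 z (n 0 z z))))))))))))))))))))))))))))
 z))))) (n 0 (n 0 z (n 15 (n 0 z (n 0 z (n 0 z (n 0 z (n 0 z (n 0 z (n 0 z (n 0 z (n 0 z (n 0 z
 (n 0 z (n 0 z (n 0 z (n 0 z (n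
 0x4ea2e60c0700761760501803293a8980c01d9594040e02ecaeca00380817e7f837e817a7d82807f817b827f7c83817e8280857f7b837c83817f7f7f847d817f7c808781807e838084827a7a837e2809
 z (n 0 z (n 0 z (n 0 z (n 0 z (n 0 z (n 0 z (n 0 z (n 0 z z))))))))))))))))))))))) (n 15 (n 0 z
 (n 0 z (n 0 z (n 0 z (n 0 z (n 0 z (n 0 z (n 0 z (n 0 z (n 0 z (n 0 z (n 0 z (n 0 z (n 0 z (n 0
 z (n 0 z (n 0 z (n 0 z (n 0 z (n 0 z (n 0 z (n 0 z (n 0 z z))))))))))))))))))))))) (n 17 (n 0 z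
 (n 0 z (n 0 z (n 0 z (n 0 z (n 0 z (n 0 z (n 0 z (n 0 z (n 0 z (n 0 z (n 0 z (n 0 z (n 0 z (n 0
 z (n 0 z (n 0 z (n 0 z (n 0 z (n 0 z (n 0 z (n 0 z (n 0 z (n 0 z (n 0 z (n 0 z (n 0 z (n 0 z (n
 0 z (n 0 z (n 0 z (n 0 z (n 0 z (n 0 z (n 0 z (n 0 z (n 0 z (n 0 z (n 0 z (n 0 z (n 0 z (n 0 z
 (n 0 z (n 0 z (n 0 z (n 0 z z)))))))))))))))))))))))))))))))))))))))))))))) z)))) (n 0 (n 21 (n
 0 z (n 0 z (n 0 z (n 0 z (n 0 z z))))) (n 21 (n 0 z (n 0 z (n 0 z (n 0 z (n 0 z z))))) (n 17 (n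
 2 z (n 0 z (n 0 z (n 0 z (n 0 z (n 0 z (n 0 z (n 0 z (n 0 z (n 0 z z)))))))))) z))) (n 0 (n 0 z
 (n 1 (n 0 z (n 0 z (n 0 z (n 0 z (n 0 z (n 0 z (n 0 z (n 0 z (n 0 z (n 0 z (n 0 z (n 0 z (n 0 z
 (n 0 z (n 0 z (n 0 z (n 0 z (n 0 z (n 0 z (n 0 z (n 0 z (n 0 z (n 0 z (n 0 z (n 0 z (n 0 z (n 0
 z (n 0 z (n 0 z (n
 0x5d8dd8c80602ecac6240780807c7e7f80817c7c8082897e77827b7d8184757c83848379847d817b8380818b82807c7c80867d7f777c858b80797c88801009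
 z (n 0 z (n 0 z (n 0 z (n 0 z (n 0 z z))))))))))))))))))))))))))))))))))) z)) (n 0 (n 1 (n 0 z
 (n 0 z (n 0 z (n 0 z (n 0 z (n 0 z (n 0 z (n 0 z (n 0 z (n 0 z (n 0 z (n 0 z (n 0 z (n 0 z (n 0
 z (n 0 z (n 0 z (n 0 z (n 0 z (n 0 z (n 0 z (n 0 z (n 0 z (n 0 z (n 0 z (n 0 z (n 0 z (n 0 z (n
 0 z (n 0 z (n 0 z (n 0 z (n 0 z (n 0 z (n 0 z (n 0 z z)))))))))))))))))))))))))))))))))))) z)
 (n 0 z z))))))) (n 0 (n 1 (n 3282443 z (n 3282443 z (n 3282443 z (n 3282443 z (n 3282443 z (n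
 3282443 z z)))))) (n 0 z (n 0 z (n 0 z z)))) (n 0 z z)))) (n
 0x99474192bb066a4224526d426a322c4a1122 (n 0 (n 155 (n 0 z (n 3282443 z (n 0 z (n 0 z z)))) (n
 33 (n 0 z (n 0 z (n 3278363 z (n 0 z z)))) (n 9 (n
 0x6c84620a070765253140183b29288200c05951950c0602c84a82603827c7b828e7e808283877c81847f737a7c827d85857c7e7c7d897f847f7f81828079858481807f8881897f7674877c84777c2809
 z (n 0 z (n
 0x595b29298a01c019c9d909500c0e036f56c86c8020700f0ed641641003800561b21b18801c00bd2d90d4c400e002777594419361e328818983a6510326c30ca212552ed4841b2b2d29084b1879521800000800b2c8211c97f934284161880611f816b167f3fa58329dc7ecaed800000782d7e81d1e281d2937a8f35833e5182eac280599e7dd6a98111177f79b78077267b8c5a810473817c2e8000008935c47f57e07b651e83ca6581620e85510b7f395c81d56680d08882ae1e8463678000007b516280eb097f3b8e831f0f806d49800d827880db83f0ae82f5d880b75d7bfa4680fe5c31d9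
 z (n 0 z (n
 0x12d9494c50060000c4ca8ca8603000033654651301800007b20aa0180c00009d95150c40e00010758c400055db1880004196310000236a4200001e94840002e4a9080011a852180003a7fffb47ffd968000268002d880015b7fffae8000398001d98003047fffd88002488000f780002c7ffc637fff8d7fff7f7ffe927fffcc7ffe937ffff17ffde87fffc77ffe9d7ffe788000008000247fffec8000147fffcf8000c67ffec48000f38000ea8003c28000fb7ffed28000007fffb880026e7fffee80009b7ffedc7ffec27ffdc78000487ffe5e8000d77ffdc07fff3b29d9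
 z (n
 0x6ca4a62803807d79808883807f7e857f88837f727d7e7b817e857c8080818982887e80837d827c8d827d807f8a7e81807b7b827b7f787c0809
 z (n 2 z (n
 0x594944100e00ca8ca8007817e817f807f818081808080807f80808080818080808080807e8080808080808080808080808080808080808080808080801009
 z (n 0 z (n 0 z (n 0 z (n 0 z (n 0 z (n 0 z (n 0 z (n
 0x4ca6c20803096525104018032a328081c1190d90400e12ca2c82003808a5e7eb589846c64947d8288875f71837c7f929d6d7e8680888288788283877857998d8380719f78a07e636c916f8770752809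
 z (n 10 z (n 0 z (n 0 z (n 0 z (n 0 z (n
 0x6ca2ca200780807e8187837f807981807c83807f767a898088828181828082808b807e857f7f75808582807d827c87807a80837f807f7c0809
 z (n 6423611 z (n 0 z (n 3212843 z (n 0 z (n 0 z (n
 0x1cca4a628070965365040180b29298201c099519504062cc84a8020781716189a18f688b689f808d928062696a81908da06d8b767a7d817b788b807581798f9c7e80829b9a8071615e8e6a876a752809
 z (n 6423611 z (n 6423611 z (n 18 z (n 6423611 z z)))))))))))))))))))))))))))))))) (n 3 (n 0 z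
 (n 0 z (n 2164283 z (n 0 z z)))) (n 1 (n
 0x594948040e02d4840ca9081852180807f80848080808281807e82807d817f80807f807f807f8080827e7f818280808081837f807f818081807f7d8080817d8008c9
 z (n
 0x4c84620a0380827e7f867f80807f837e808182798180807f81817e7f807f847f82807f807f807c83807f8081828085817d7d827f817c800809
 z (n 26 z (n
 0x6c84620a0380807e808181807e7e80808181807d7f817f807f837f8181818181817e8081807f7e828180807e838081807e80817e817e7f0809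
 z (n 0 z (n 0 z (n 0 z (n
 0x199514c080600ca4c6200380817c8879887d7f757f8080837e81817f7e827f84808481838980877e838276837980877a807f8280797e80827d7e7c81801009
 z (n 0 z (n 0 z (n
 0xcca6c60403808579857f7f778273877d8d82807c8579818380867f8381818d798a8281826a8675868273808382817a877c82837d7b7c810809
 z (n 0 z (n
 0x8eca6ca24070000e7654531203800007b2a298100c00030d9054c080e00010eca862040700004f652652103800003b19319080c00029d94d48400e00013eca4a42007000d636a42000dde9484003a1ca9080086385218000008000047fff807fff30800afc8003128000048001538005cd8004b27ffffc7ff7a480051a8002587ff2db8002cc80032f7ffcc67ffe8c7fff1f7fff837ffc937ffb177fff0f80002b8000ec8011fc7ff89c7ff5f68006908007a07ffeee7ffed68003f38005d0800a5580029a8000007ff5f680041b7fff2180009e7ffa9d7ffe157fee2980038c7ffee98005607ff7628002ff4919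
 z (n 34 z (n 6554139 z (n 0 z (n 0 z (n 6554139 z (n 6554139 z (n 0 z (n 0 z (n 0 z (n
 0x14ca6ca64070865453020381329b29880c0594d8c040e06ca6ca60078c6b93a05595688a7768856a7d718e888f768a7b7c8d7f7b949d868d708880747f7f708a7e807872866a80948d718a79918e2809
 z (n
 0x2ca8a60407808080817f817f807f808080808080808080808080808080808180817f80817f807f808080807f80808080808080808080800809
 z (n 0 z (n 0 z (n 0 z (n 0 z (n 0 z (n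
 0xca6ca64037f82807f80808180808080807f8080808180808080808080808080808080808080807f8080808080808080808080808080800809
 z (n 0 z (n 0 z (n 0 z (n
 0x21b20a90181c0003cd94d94c806000076c86a624070001b96526521018000ebb29b18081c0000bd94cc804060002b6ca4ca40030001e7aa420003cf1484000d1da9080045b85210002e7ac40000aded8800025ecb1000034986207fff0c7ffda87ff4ee7ffd22800ce48000967ffd3a800005800079800b68800224800cd48001ca80016e7ff11c7fff668000527ffcca8002e67ffc8e8006777ff69b7fffc57ffc307ffde57ffec48001607ffa007fffe87ffe9c80020c7ff9768001017ffc95800c378003dc7ffc948000007ffd0c800ae58003948003b37fff467ff8c37ff6a380025e7ff82e8004307ff67b7fffb43a19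
 z (n 0 z z))))))))))))))))))))))))))))))))))) (n 0 (n 42 z (n 0 z (n 0 z (n 0 z (n 0 z (n 0 z
 (n
 0x6c84c8260380827e80817e7f7f7f817f7f817f837f81807e82817f817f807f7e7e827d7f80807f8181808081818180807e80817f8080820809
 z (n 50 z (n 0 z (n 0 z (n 0 z (n 0 z (n 2164315 z (n 0 z (n
 0x2c86c864037e847f7e827f827e808080807f80807f81818080827f808080808180817f807f7f7f7f81808080808080807f8080808180800809
 z z))))))))))))))) z)))))) (n 155 (n 0 (n 0 z (n 0 z (n 613 (n 0 z (n 0 z (n 0 z (n 0 z (n 0 z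
 (n 0 z (n 0 z (n 0 z (n 0 z (n 0 z (n 0 z (n 7606371 z (n 0 z (n 0 z (n 0 z (n 0 z (n 0 z (n 0
 z (n 0 z (n 0 z (n 0 z (n 0 z (n 0 z (n 0 z (n 0 z (n 0 z (n 0 z (n 0 z (n 0 z (n 0 z (n 0 z (n
 0 z (n 0 z (n 0 z (n 0 z (n 0 z (n 0 z (n 0 z (n 0 z (n 0 z (n 0 z (n 0 z (n 0 z (n 0 z (n 0 z
 (n 0 z (n 0 z (n 0 z (n 0 z (n 0 z (n 0 z z)))))))))))))))))))))))))))))))))))))))))))))))))))
 (n 613 (n 0 z (n 0 z (n 0 z (n 0 z (n 0 z (n 0 z (n 0 z (n 0 z (n 0 z (n 0 z (n 0 z (n 0 z (n 0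
 z (n 0 z (n 0 z (n 0 z (n 0 z (n 0 z (n 0 z (n 0 z (n 0 z (n 0 z (n 0 z (n 0 z (n 0 z (n 0 z (n
 0 z (n 0 z (n 0 z (n 0 z (n 0 z (n 0 z (n 0 z (n 0 z (n 0 z (n 0 z (n 0 z (n 0 z (n 0 z (n 0 z
 (n 0 z (n 0 z (n 0 z (n 0 z (n 0 z (n 0 z (n 0 z (n 0 z (n 0 z (n 0 z (n 0 z
 z))))))))))))))))))))))))))))))))))))))))))))))))))) (n 17 (n 0 z (n 0 z (n 0 z (n 0 z (n 0 z
 (n 0 z (n 0 z (n 0 z (n 0 z (n 0 z (n 0 z (n 0 z (n 0 z (n 0 z (n 0 z (n 0 z (n 0 z (n 0 z (n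
 0x477317406018001213b1bb1881c0018bdd4d908406001006ec6ec0207000eef642750101800023ba9b18080c000519d8dd8c0060001aeecac860030060536e20006b069c4001b09cb88003b0187108000008007507ff8737ff13c804c808014497fff1c801380802c01802a5b7fed467fc6648039328016217f8fc6801304800dc37fea747ff8077ff6907ffaf57fe55f7fe39a7ffad87ff9238012ba8077487fd5307fa4f58028998034877fedfb8000f5801ef780385a804b3b8018508000007fba158028177ffba680173f7fdd667ff0457f82a58022077ff3db8028517fb51e800c484119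
 z (n 0 z (n 0 z (n 0 z (n 0 z (n 0 z (n 0 z (n 0 z (n 0 z (n 0 z z))))))))))))))))))))))))))))
 (n 17 (n 0 z (n 0 z (n 0 z (n 0 z (n 0 z (n 0 z (n 0 z (n 0 z (n 0 z (n 0 z (n 0 z (n 0 z (n 0
 z (n 0 z (n 0 z (n 0 z (n 0 z (n 0 z (n 0 z (n 0 z (n 0 z (n 0 z (n 0 z (n 0 z (n 0 z (n 0 z (n
 0 z (n 0 z z)))))))))))))))))))))))))))) z)))))) (n 0 (n 0 z (n 21 (n 0 z (n 0 z (n 0 z (n 0 z
 (n 0 z (n 0 z (n 0 z (n 0 z (n 0 z (n 0 z (n 0 z (n 0 z (n 0 z (n 0 z (n 0 z (n 0 z (n 0 z (n 0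
 z (n 0 z (n 0 z (n 0 z (n 0 z (n 0 z (n 0 z (n 0 z (n 0 z (n 0 z (n 0 z (n 0 z
 z))))))))))))))))))))))))))))) (n 21 (n 0 z (n 0 z (n 0 z (n 0 z (n 0 z (n 0 z (n 0 z (n 0 z (n
 0 z (n 0 z (n 0 z (n 0 z (n 0 z (n 0 z (n 0 z (n 0 z (n 0 z (n 0 z (n 0 z (n 0 z (n 0 z (n 0 z
 (n 0 z (n 0 z (n 0 z (n 0 z (n 0 z (n 0 z (n 0 z z))))))))))))))))))))))))))))) (n 841 (n 0 z
 (n 0 z (n 0 z (n 0 z (n 0 z (n 0 z (n 0 z (n 0 z (n 0 z (n 0 z (n 0 z (n 0 z (n 0 z (n 0 z (n 0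
 z (n 0 z (n 0 z (n 0 z (n 0 z (n 0 z (n 0 z (n 2 (n 0 z z) (n 0 z (n 0 z (n 0 z (n 0 z (n 0 z
 (n 0 z (n 0 z (n 0 z (n 0 z (n 0 z (n 0 z (n 0 z (n 0 z (n 0 z (n 0 z (n 0 z (n 0 z (n 0 z (n 0
 z (n 0 z (n 0 z (n 0 z (n 0 z (n 0 z z)))))))))))))))))))))))))))))))))))))))))))))) (n 841 (n
 0 z (n 0 z (n 0 z (n 0 z (n 0 z (n 0 z (n 0 z (n 0 z (n 0 z (n 0 z (n 0 z (n 0 z (n 0 z (n 0 z
 (n 0 z (n 0 z (n 0 z (n 0 z (n 0 z (n 0 z (n 0 z (n 0 z (n 0 z (n 0 z (n 0 z (n 0 z (n 0 z (n 0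
 z (n 0 z (n 0 z (n 0 z (n 0 z (n 0 z (n 0 z (n 0 z (n 0 z (n 0 z (n 0 z (n 0 z (n 0 z (n 0 z (n
 0 z (n 0 z (n 0 z (n 0 z (n 0 z z)))))))))))))))))))))))))))))))))))))))))))))) z))))) (n 0 (n
 243 (n 0 z (n 0 z (n 0 z (n 0 z (n 0 z (n 0 z z)))))) (n 243 (n 0 z (n 0 z (n 0 z (n 0 z (n 2
 (n 2 (n 0 (n 68 z (n 68 z z)) (n 0 (n 68 z (n 68 z z)) (n 0 (n 68 z (n 68 z z)) (n 0 z (n 0 z
 (n 0 (n 68 z (n 68 z z)) z)))))) (n 2 (n 0 (n 68 z z) (n 0 z (n 0 z (n 0 z (n 0 (n 68 z (n 68 z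
 z)) (n 0 z z)))))) z)) (n 0 z z)))))) (n 17 (n 0 z (n 0 z (n 0 z (n 0 z (n 0 z (n 0 z z))))))
 (n 17 (n 2 z (n 0 z (n 0 z (n 0 z (n 0 z (n 0 z z)))))) z)))) (n 0 (n 0 z (n 1 (n 0 z (n 0 z (n
 0 z (n 0 z (n 0 z (n 0 z (n 0 z (n 0 z (n 0 z (n 0 z (n 0 z (n 0 z (n 0 z (n 0 z
 z)))))))))))))) (n 1 (n 0 z (n 0 z (n 0 z (n 0 z (n 0 z (n 0 z (n 0 z (n 0 z (n 0 z (n 0 z (n 0
 z (n 0 z (n 0 z (n 0 z z)))))))))))))) z))) (n 0 (n 293 (n 0 z (n 0 z (n 0 z (n 0 z (n 0 z (n 0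
 z (n 0 z (n 0 z (n 0 z (n 0 z (n 0 z (n 0 z (n 0 z (n 0 z (n 0 z (n 0 z (n 0 z (n 0 z (n 0 z (n
 0 z (n 0 z (n 0 z (n 0 z (n 0 z (n 0 z z))))))))))))))))))))))))) (n 293 (n 0 z (n 0 z (n 0 z
 (n 0 z (n 0 z (n 0 z (n 0 z (n 0 z (n 0 z (n 0 z (n 0 z (n 0 z (n 0 z (n 0 z (n 0 z (n 0 z (n 0
 z (n 0 z (n 0 z (n 0 z (n 0 z (n 0 z (n 0 z (n 0 z (n 2 z z))))))))))))))))))))))))) z)) (n 0
 (n 0 z z) (n 0 z z))))))) (n 0 (n 0 z (n 1 (n 3282443 z (n 3282443 z (n 3282443 z (n 3282443 z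
 (n 3282443 z (n 3282443 z z)))))) (n 0 z (n 0 z z)))) (n 0 z z)))) (n 0 (n 0 (n 683 (n 3282443
 z (n 0 z (n 0 z (n 0 z z)))) (n 35 (n 6624267 z (n 0 z (n 0 z (n 0 z z)))) (n 137 (n 0 z (n
 3212843 z (n 0 z (n 0 z (n 0 z (n
 0xca8ca800381f7e082082082086082082082082082082082082082082082082082082081f8208608208200801 z
 z)))))) (n 136 (n 0 z (n 0 z (n 0 z (n 6488603 z (n 0 z (n 0 z (n 0 z z))))))) (n 1 (n 0 z (n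
 2164299 z (n 0 z (n 0 z (n 0 z z))))) (n 0 (n 0 z (n 0 z (n 0 z (n 6624267 z (n 0 z z)))))
 z)))))) (n 683 z (n 0 (n 1 (n 3282443 z (n 3282443 z (n 3282443 z (n 6624267 z (n 3282443 z (n
 3282443 z z)))))) (n 0 z (n 0 z (n 0 z z)))) (n 0 z z)))) (n 0x2209c6e0713 (n 0 (n 591 (n
 3282443 z (n 0 z (n 0 z (n 0 z (n 0 z z))))) (n 589 (n 3278363 z (n
 0x3a6000a6c5220001d300264508900011f80028a05740006bc0190c81bc00047e00c86414200005600143209100059f800082106000023ea90800047c521000aaf6a4200179294840006bca908006c285217ffde58000718000dc8000a68001987fff067fff5a8002f08000ce8000bc7ffe757ffc7e80029d8000da7ff9018003b17ffd457ffb6e7fff267ffe808001517ffc208005de8003458003677ffd587fff128001be800a5f8004d48004bc8001cc7ffd6a7ffc5f7ffde88003e77ffb538002a98000f47fffc68003398001e37ffd7a8000c57ffd9a8002bc7ffbab8008ee7ffe6a8003e53999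
 z (n 0 z (n 0 z (n 0 z (n 0 z (n 0 z (n 0 z (n 0 z (n 0 z (n 0 z z))))))))))) (n 9 (n 0 z (n
 0x3a600086c3220001af00153606f00011f800a9b050800074c01945022400047e000a2815d00005600143209100059f800082106000023ea90800047c521000aaf6a4200179294840006bca908006c285217ffde58000718000dc8000a68001987fff067fff5a8002f08000ce8000bc7ffe757ffc7e80029d8000da7ff9018003b17ffd457ffb6e7fff267ffe808001517ffc208005de8003458003677ffd587fff128001be800a5f8004d48004bc8001cc7ffd6a7ffc5f7ffde88003e77ffb538002a98000f47fffc68003398001e37ffd7a8000c57ffd9a8002bc7ffbab8008ee7ffe6a8003e53999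
 z (n 0 z (n 0 z (n 6562059 z (n 0 z (n 0 z (n 0 z (n 0 z (n 0 z (n 0 z z))))))))))) (n 243 (n 0
 z (n 2 z (n 10 z (n 0 z (n 0 z (n 2164283 z z)))))) (n 1 (n 0 z (n 0 z (n 6562059 z (n 0 z (n 0
 z (n 0 z (n 0 z (n 0 z (n 0 z z))))))))) (n 0 (n 2164315 z (n
 0x6ca88206078000008000007ffffe7ffffe8000008000008000028000008000008000008000028000057ffffc7fffff7ffffd8000008000048000037ffffd8000027fffff8000017ffffe7fffff7ffffe8000058000037fffff8000008000007ffffd7ffffd8000018000008000018000058000007fffff7fffff8000038000007ffffe7fffff8000017fffff8000018000008000017ffffe8000040819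
 z (n 0 z (n 0 z (n 0 z (n
 0x2ca8820607000000643643101800000b29a18081c00000190d90c00e000002c86c820078000038000018000027fffff7ffffd8000048000017ffffe7fffff7ffffc8000027ffffd7fffff7ffffc8000007ffffc8000048000008000028000028000008000027ffffb8000027ffffe8000018000018000017ffffe8000007fffff8000028000028000028000007ffffc8000007fffff8000028000007fffff7ffffe7ffffc7fffff8000057fffff8000038000027ffffd7ffffd2819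
 z (n 0 z (n 0 z z)))))))) z)))))) (n 591 (n 0 (n 0 z z) (n 0 z z)) (n 0 (n 1 (n 6562059 z (n
 3282443 z (n 3282443 z (n 3282443 z (n 3282443 z (n 3282443 z z)))))) (n 0 z (n 0 z (n 0 z (n 0
 z z))))) (n 0 z z)))) z)))))))))), by decide +kernel⟩
theorem i10560 : ∃ t, chkR KT RW t 10560 10569 = true := ⟨(n
 0x88c542889ac444c68225b501293c134d4440 (n 0 (n 321 (n 2 z (n 0 z (n 0 z (n 0 z (n 3282443 z (n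
 0 z (n 0 z (n 0 z z)))))))) (n 33 (n 3278363 z (n 0 z z)) (n 9 (n
 0x2ca8a80607817f7f7a837f827e847e81817e827c8080827d827d817c817d83827f7e83807f807e7f837d807d827f808180827f817f81820809
 z (n
 0x4ca8a80607847a7b7c8184827b887a7f8c7d81797a7e7e79817d85787f798d7a847d917e7c8a7a797c817585827d7f7e867a7d7c7f7b820809
 z (n 0 z (n
 0x6ca8a8060782827e808180817b81807d8280827e827f807e827d807f7e7f7f8180817e817f83807f8083817f80817e7e818080807e847f0809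
 z (n 10 z (n
 0xca8a80607817f80808080807f817f80817f807f81818080817f808080808080808080807f8080808080808080808080808080808080810809
 z (n 18 z (n
 0x4ca8a826037e7f807d827f7f7c7f8182847e7f7f8080807e857d7e80837e8080808280807e80827e7e827f80817e7d817e7f81828080810809
 z (n 0 z (n 0 z (n
 0x5b29b28201c7d951500c0640ca88206075d7e726885898c85a078a979837b7b747e6e80687f9a865a8f9f7e876cb5837a8b64827d6c6c7c7b848c8491698c687b78931809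
 z (n
 0xca8a82607817f80808080807f817f80817f807f81818080817f808080808080808080807f8080808080808080808080808080808080810809
 z (n 0 z (n
 0x2ca8ca86037e827d7d847f817f8181808180808080808081807f8080808080808080807f808180808080808080808081808080808180810809
 z (n 4396587 z (n 3212843 z (n 0 z (n 0 z (n
 0x2ca6ca280380817f7f827f807f81807f8380807f8080808280807e818080817d8081817e7f818280808080818181817f7f7f81808080810809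
 z (n 0 z z)))))))))))))))))))) (n 3 (n 0 z (n
 0x6ca6a4280781837f8281807e7e82817e81807e827f817f81817c8182817f7f8081807e817e7f81817d817e827f8480817d8082807f7d820809
 z (n 26 z (n
 0x4ca8ca84078182817e81807f7e81817d81818181817f7f7e817f808380817f80808081807d8281807f7f807f7f8080807f7f81817f82800809
 z (n 0 z (n 2164283 z (n 0 z (n 0 z z)))))))) (n 7 (n 34 z (n 0 z (n 2164299 z z))) (n 0 (n 42
 z (n 50 z (n 2164315 z (n 0 z z)))) z)))))) (n 33 (n 0 (n 283 (n 0 z (n 0 z (n 0 z (n 0 z (n 0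
 z (n 0 z (n 0 z (n 0 z (n 0 z (n 0 z (n 0 z (n 0 z (n 0 z (n 0 z (n 0 z (n 0 z (n 0 z (n 0 z (n
 0 z (n 0 z z)))))))))))))))))))) (n 283 (n 0 z (n 0 z (n 0 z (n 0 z (n 0 z (n 0 z (n 0 z (n 0 z
 (n 0 z (n 0 z (n 0 z (n 0 z (n 0 z (n 0 z (n 0 z (n 0 z (n 0 z (n 0 z (n 0 z (n 0 z
 z)))))))))))))))))))) (n 7 (n 0 z (n 0 z (n 0 z (n 0 z z)))) (n 277 (n 0 z (n 0 z (n 0 z z)))
 (n 5 (n 0 z (n 0 z (n 0 z (n 0 z (n 0 z (n 0 z (n 0 z (n 0 z (n 0 z (n 0 z (n 0 z (n 0 z (n 0 z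
 (n 0 z (n 0 z (n 0 z (n 0 z (n 0 z (n 0 z (n 0 z (n 0 z (n 0 z (n 0 z (n 0 z (n 0 z (n 0 z (n 0
 z (n 0 z z)))))))))))))))))))))))))))) (n 5 (n 0 z (n 0 z (n 0 z (n 0 z (n
 0x2ea8c826038080807f8080817f817f7f817f807f80808180807f807f80808180808080808080808080808080807f8080808080807f80800809
 z (n 0 z (n 0 z (n 0 z (n 0 z (n 0 z (n 0 z (n 0 z (n 0 z (n 0 z (n 0 z (n 0 z (n 0 z (n 0 z (n
 0 z (n 0 z (n 0 z (n 0 z (n 0 z (n 0 z (n 0 z (n 0 z (n 0 z (n 0 z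
 z)))))))))))))))))))))))))))) z)))))) (n 0 (n 0 z (n 251 (n 0 z (n 0 z (n
 0xea6ca08038080808080808180808080808080808080807f8080808080808080808080808180808080808080807f8080808080808080800809
 z (n 2 (n 1 z (n 1 z (n 1 z z))) (n 0 z (n 0 z (n 0 z (n 0 z (n 0 z (n 0 z (n 0 z (n 0 z (n 0 z
 (n 0 z (n 0 z (n 0 z (n 0 z (n 0 z (n 0 z (n 0 z (n 0 z (n 0 z (n 0 z (n 0 z (n 0 z (n 0 z (n 0
 z (n 0 z z)))))))))))))))))))))))))))) (n 249 (n 0 z (n 2 (n 1 z (n 1 z z)) (n 0 z (n 0 z z))))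
 (n 13 (n 2 (n 0 z z) (n 0 z (n 0 z z))) (n 13 (n 0 z (n 2 z (n 0 z z))) z))))) (n 0 (n 487 (n 0
 z (n 0 z (n 0 z (n 0 z (n 0 z (n 0 z (n 0 z (n 0 z (n 0 z (n 0 z (n 0 z (n 0 z (n 0 z (n 0 z (n
 0 z (n 0 z (n 0 z (n 0 z (n 0 z (n 0 z (n 0 z (n 0 z (n 0 z z))))))))))))))))))))))) (n 297 (n
 0 z (n 0 z (n 0 z (n 0 z (n 0 z (n 0 z (n 0 z (n 0 z (n 0 z (n 0 z (n 0 z (n 0 z (n 0 z (n 0 z
 (n 0 z (n 0 z (n 0 z (n 0 z (n 0 z (n 0 z (n 0 z (n 0 z (n 0 z z))))))))))))))))))))))) (n 1 (n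
 0 z (n 0 z (n 0 z (n 0 z (n 0 z (n 0 z (n 0 z (n 0 z (n 0 z (n 0 z (n 0 z (n 0 z (n 0 z (n 0 z
 (n 0 z (n 0 z (n 0 z (n 0 z (n 0 z (n 0 z (n 0 z (n 0 z (n 0 z z))))))))))))))))))))))) (n 1 (n
 0 z (n 0 z (n 0 z (n 0 z (n 0 z (n 0 z (n 0 z (n 0 z (n 0 z (n 0 z (n
 0x2ea8c826038080807f8080817f817f7f817f807f80808180807f807f80808180808080808080808080808080807f8080808080807f80800809
 z (n 0 z (n 0 z (n 0 z (n 0 z (n 0 z (n 0 z (n 0 z (n 0 z (n 0 z (n 0 z (n 0 z (n 0 z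
 z))))))))))))))))))))))) z)))) (n 0 (n 723 (n 0 z (n 0 z (n 0 z (n 0 z (n 0 z (n 0 z (n 0 z (n
 0 z (n 0 z z))))))))) (n 721 (n 0 z (n 0 z (n 0 z (n 0 z (n 0 z (n 0 z (n 0 z (n 0 z (n 0 z (n
 0 z (n 0 z (n 0 z (n 0 z (n 0 z (n 0 z (n 0 z (n 0 z (n 0 z (n 0 z (n 0 z (n 0 z (n 0 z (n 0 z
 (n 0 z (n 0 z (n 0 z z)))))))))))))))))))))))))) (n 721 (n 0 z (n 0 z (n 0 z (n 0 z (n 0 z (n 0
 z (n 0 z (n 0 z (n 0 z (n 0 z (n 0 z (n 0 z (n 0 z (n 0 z (n 0 z (n 0 z (n 0 z (n 0 z (n 0 z (n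
 0 z (n 0 z (n 0 z (n 0 z (n 0 z (n 0 z (n 0 z z)))))))))))))))))))))))))) z))) (n 0 (n 145 (n 0
 z (n 0 z (n 0 z (n 0 z (n 0 z (n 0 z (n 0 z (n 0 z (n 0 z (n 0 z (n 0 z (n 0 z (n 0 z (n 0 z (n
 0 z (n 0 z (n 0 z (n 0 z (n 0 z (n 0 z (n 0 z (n 0 z (n 0 z (n 0 z (n 0 z (n 0 z (n 0 z (n 0 z
 z)))))))))))))))))))))))))))) (n 145 (n 0 z (n 0 z (n 0 z (n 0 z (n 0 z (n 0 z (n 0 z (n 0 z (n
 0 z (n 0 z (n 0 z (n 0 z (n 0 z (n 0 z (n 0 z (n 0 z (n 0 z (n 0 z (n 0 z (n 0 z (n 0 z (n 0 z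
 (n 0 z (n 0 z (n 0 z (n 0 z (n 0 z (n 0 z z)))))))))))))))))))))))))))) z)) (n 0 (n 0 z z) (n 0
 z z))))))) (n 0 (n 1 (n 3278363 z (n 3278363 z (n 3278363 z (n 3278363 z (n 3278363 z (n
 3278363 z z)))))) (n 0 z z)) (n 0 z z)))) (n 0x280c2d4c4124b480 (n 0 (n 399 (n 0 z (n 2 z (n 0
 z (n 0 z (n 3282443 z z))))) (n 581 (n 10 z (n 6558475 z (n 0 z z))) (n 129 (n 0 z (n 3212843 z
 (n 0 z z))) (n 3 (n 18 z (n 0 z (n 0 z (n 0 z (n 2164283 z z))))) (n 1 (n 6558475 z (n 0 z z))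
 (n 0 (n 2164315 z (n 0 z (n 0 z z))) z)))))) (n 1 (n 0 (n 1007 (n 0 z (n 0 z (n 0 z z))) (n 181
 (n 0 z (n 0 z (n 0 z (n 0 z (n 0 z (n 0 z (n 0 z (n 0 z (n 0 z (n 0 z (n 0 z (n 0 z (n 0 z (n 0
 z (n 0 z (n 0 z z)))))))))))))))) z)) (n 0 (n 251 (n 0 z (n 0 z (n 0 z (n 0 z (n 0 z (n 0 z (n
 0 z (n 0 z (n 0 z z))))))))) z) (n 0 z z))) (n 0 (n 1 (n 6558475 z (n 6558475 z (n 6558475 z (n
 6558475 z (n 6558475 z (n 6558475 z z)))))) (n 0 z z)) (n 0 z z)))) (n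
 0x1a58e8b6a742864a83b644098e4ac22a46442ea540 (n 0 (n 471 (n 0 z (n 3282443 z (n
 0x172d95195080e000082008a261660000830025130b7000020801289859800020eb29800b83c65300216b6ca6002ebe994c00855cb2980057f86537ffa767ff714800a007ffe0e7fdbe7800b8b8000bd8019357fdd8f8006df7fff7c7ffef8800692800a42801e127ff4317fef5e800e1e80101e7fda3c80425c7fea417ffafa7fe611800a507fd20f7ff46a7ff08f8018a07ffa237fea6a80204b7ff5137ff8ef7fff717ff16c802fec7fe401800ebb8006927ffcc780104c8013da7fff577fc8768003967ff9598020e77ff6487ffcd62199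
 z (n
 0x1618c994500e01ca82ca040382d8127ca84b88b7a97a67918627e28008008007c97d68a780f7cc7f187d7358917d48287b58a28347e67dd86080d7e07e880d7d28187b78c07df7f48297c583b7d088f7af7fd80780d80e1011
 z (n 2 z z))))) (n 469 (n 3278363 z (n 10 z (n 0 z (n 0 z z)))) (n 9 (n 3212843 z (n 18 z (n 0
 z (n 0 z (n 0 z z))))) (n 3 (n 6631947 z (n 0 z (n 0 z (n 0 z (n 0 z (n 0 z (n 0 z (n 0 z (n 0
 z z))))))))) (n 1 (n 26 z (n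
 0x2b29329081c00d95148040600eca8a420078088038027fb8137f18027e081a7e47f47fe80180f7ea8117fc7ff8008077e980d8058087fc81b8147fb7f180d80e7d58098067f58117db8147f77fe80a7f27f580f80c80a8047fc7f98101811
 z (n 34 z (n 0 z (n 0 z (n 0 z (n 0 z (n 0 z (n 2164299 z (n
 0x2d94d94480e01cca8a642077f381a8057f781180c7e880480580080e7f38007e18257e48027f482c7e57f77fd7f881e7f081a80981c7f380980e7bd7fb7ec8038157d981e7eb80780f8127e38037f88057f67f97f98031011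
 z z)))))))))) (n 0 (n 6631947 z (n 0 z (n 6631947 z (n
 0x1a654432001801802289859801400944c2dc000004a2616680b7ea8007fc8257f68047d883b7d87fb7f58048127cf80b7fc8027ff8057d38157f98147fb81f81b8087f580b80b7d781e81b7e48167bd8177f67fc7fc7db7d081a81e8168157e17f48142011
 z (n 42 z (n
 0x4321b21880c00990990840606aca88620038268907928728c57f470d7f080085280080080075c83b7ef81c7bc82c83e72483d7e587d7aa8fe7fe8637c681a8697547ce7a481d83478088579b7fb83b8487e87ee84a7bf7ed80c80a7ec1811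
 z (n
 0x596218068347e68238057d47c48037c08268008007fa7da83883e8007e780081e8068048068067fd8147f57d97ee81c80980e7c97b88177eb82f80b7dd80382c83886d7e57f57e27f585e8217f70051
 z (n 0 z (n 0 z (n 0 z (n 0 z (n 0 z (n
 0x1531801696308198427dd84980e86a7608537718998007fb7ea7ac8cb76f7d98008287bc84579d81680e8077de7ac8518767e77e87f87a978f85e7a585d7b680580181b8a480e7d677f7ca7e88348177a80091
 z (n
 0x2190990840607cca88640078018177f382b8377b37d27e080d7f48008008007d37fd8688087dd7f98497bb8188028107f385482d7e37f582381d7dc7e67d97e48097e68367dd7f681c7eb84f7f783d7d880a82d80d8161011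
 z (n
 0x9d90d90c40e018c86c860037d97648737b57a07f28cb7e586d78e80080380089975584f7f58277bb7e08297c180379087f7868477c58278077c887083588d7b77ec81b7778528027b775d7c082d81981e83d7a57e98221011
 z (n 50 z (n
 0xd310004162080681f7ef8188038047d280f7d18288007fd7fd7e78367fe7fb7f88067fe8117e98018017fb8007ed80080f8067fe8067df7d58197f28227fc7f78028158338287f27d57ed7f282b8087f20091
 z (n 0 z (n 0 z (n
 0x9320004964080480f7f880b80180c7e580e7e88168007fd7fe7ee8247ee7fe7fa8027fc8047f68058038028027ee80b80b7fb7fd8007f07e880d7f580e7fd7fb80380981b80d7f67f37f57fd8118077f50091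
 z (n 0 z (n 6631947 z (n 0 z (n 0 z (n 0 z (n 58 z (n 0 z (n 0 z z))))))))))))))))))))))))))))
 z)))))) (n 469 (n 0 (n 919 (n 0 z (n 0 z (n 0 z (n 0 z (n 0 z (n 0 z (n 0 z (n 0 z (n 0 z (n 0
 z (n 0 z z))))))))))) (n 915 (n 0 z (n 0 z (n 0 z (n 0 z (n 0 z (n 2 (n 2 (n 0 z (n 0 z (n 0 z
 (n 0 z (n 0 z (n 0 z z)))))) (n 1 z (n 2 (n 0 z (n 0 z (n 0 z (n 0 z (n 0 z (n 0 (n 2308 z z)
 z)))))) (n 1 z (n 2 (n 0 z (n 0 z (n 0 z (n 0 z (n 0 z (n 0 z z)))))) z))))) (n 0 z z))))))) (n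
 917 (n 0 z (n 0 z (n 0 z (n 0 z (n 0 z (n 0 z (n 0 z (n 0 z (n 0 z (n 0 z (n 0 z z)))))))))))
 (n 917 (n 0 z (n 0 z (n 0 z (n 0 z (n 0 z (n 2 (n 1 z (n 1 z (n 1 z z))) (n 0 z (n 0 z (n 0 z
 (n 0 z (n 0 z z))))))))))) (n 577 (n 0 z (n 0 z (n 2 (n 0 z (n 0 z z)) (n 0 z (n 0 z (n 0 z (n
 0 z (n 0 z (n 0 z (n 0 z (n 0 z z))))))))))) (n 577 (n 0 z (n 0 z (n 0 z (n 0 z (n 0 z (n 0 z
 (n 0 z (n 0 z (n 0 z (n 0 z (n 0 z z))))))))))) (n 577 (n 0 z (n 0 z (n 0 z (n 0 z (n 0 z (n 0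
 z (n 0 z (n 0 z (n 0 z (n 0 z (n 0 z z))))))))))) z))))))) (n 0 (n 915 (n 0 z (n 0 z (n 0 z (n
 0 z z)))) (n 543 (n 0 z (n 0 z (n 0 z (n 0 z (n 0 z (n 0 z (n 0 z (n 0 z (n 0 z (n 0 z (n 0 z
 (n 0 z (n 0 z (n 0 z (n 0 z (n 0 z (n 0 z (n 0 z (n 0 z (n 0 z (n 0 z (n 0 z (n 0 z (n 0 z (n 0
 z (n 0 z (n 0 z (n 0 z z)))))))))))))))))))))))))))) (n 543 (n 0 z (n 0 z (n 0 z (n 0 z (n 0 z
 (n 0 z (n 0 z (n 0 z (n 0 z (n 0 z (n 0 z (n 0 z (n 0 z (n 0 z (n 0 z (n 0 z (n 0 z (n 0 z (n 0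
 z (n 0 z (n 0 z (n 0 z (n 0 z (n 0 z (n 0 z (n 0 z (n 0 z (n 0 z z))))))))))))))))))))))))))))
 (n 541 (n 0 z (n 0 z (n 0 z (n 0 z (n 0 z (n 7754755 z (n 0 z (n 0 z (n 0 z (n 0 z (n 0 z (n 0
 z (n 0 z (n 0 z (n 0 z (n 0 z (n 0 z (n 0 z (n 0 z (n 0 z (n 0 z (n 0 z (n 0 z (n 0 z (n 0 z
 z))))))))))))))))))))))))) (n 541 (n 0 z (n 0 z (n 0 z (n 0 z (n 0 z (n 0 z (n 0 z (n 0 z (n 0
 z (n 0 z (n 0 z (n 0 z (n 2 (n 0 z z) (n 0 z (n 0 z (n 0 z (n 0 z (n 0 z (n 0 z (n 0 z (n 0 z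
 (n 0 z (n 0 z (n 0 z (n 0 z z))))))))))))))))))))))))) (n 541 (n 0 z (n 0 z (n 0 z (n 0 z (n 0
 z (n 0 z (n 0 z (n 0 z (n 0 z (n 0 z (n 0 z (n 0 z (n 0 z (n 0 z (n 0 z (n 0 z (n 0 z (n 0 z (n
 0 z (n 0 z (n 0 z (n 0 z (n 0 z (n 0 z (n 0 z z))))))))))))))))))))))))) z)))))) (n 0 (n 51 (n
 0 z (n 0 z (n 0 z (n 0 z (n 0 z (n 0 z (n 0 z z))))))) (n 51 (n 0 z (n 2 (n 1 z (n 1 z (n 2 (n
 0 (n 5 z z) (n 0 z (n 0 z (n 0 z (n 0 z (n 0 (n 196 z (n 196 z z)) z)))))) z))) (n 0 z (n 0 z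
 (n 0 z (n 0 z (n 0 z z))))))) (n 49 (n 0 z (n 2 (n 0 z (n 0 z z)) (n 0 z (n 0 z (n 0 z (n 0 z
 (n 0 z (n 0 z (n 0 z (n 0 z (n 0 z (n 0 z z)))))))))))) (n 49 (n 0 z (n 0 z (n 0 z (n 0 z (n 0
 z (n 0 z (n 0 z (n 2 (n 0 z z) (n 0 z (n 0 z (n 0 z (n 0 z z)))))))))))) (n 49 (n 0 z (n 0 z (n
 0 z (n 0 z (n 0 z (n 0 z (n 0 z (n 0 z (n 0 z (n 0 z (n 0 z (n
 0x1a6ca6ca08030000df7636104038003eec760000c196ec0000fba9d80002e5cbb00001dc87608000647ffb3e8001fd8000ae7ff47c8007d17fff5280093d7ff4178004228000008000d47fff2c800341800d1f7ff43e7ff88c80077c8007747ff3538019457ff6dc7ffeb67ff8008003857fee8b7ff8777ffe56800e557ff9c77ff8988005357ffdc87ffdc78001e47ff6c780107f7ff5dc8007e17ffe527ffcd080073680026c80001e7febf080030e7ffe7a8008f87ffdac7ffd6c1159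
 z z)))))))))))) z))))) (n 0 (n 0 z (n 1081 (n 0 z (n 0 z (n 0 z (n 0 z (n 0 z (n 0 z (n 2 (n 0
 z (n 0 z z)) (n 0 z (n 0 z (n 0 z (n 0 z (n 0 z z)))))))))))) (n 1081 (n 0 z (n 0 z (n 0 z (n 0
 z (n 0 z (n 0 z (n 0 z (n 0 z (n 0 z (n 0 z (n 0 z (n 0 z z)))))))))))) (n 1081 (n 0 z (n 0 z
 (n 0 z (n 0 z (n 0 z (n 0 z (n 0 z (n 0 z (n 0 z (n 0 z (n 0 z (n 0 z z)))))))))))) z)))) (n 0
 (n 1 (n 0 z (n 0 z (n 0 z (n 0 z (n 0 z (n 0 z (n 0 z (n 0 z (n 0 z (n 0 z (n 0 z z)))))))))))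
 (n 1 (n 0 z (n 0 z (n 0 z (n 0 z (n 0 z (n 6566515 z (n 0 z (n 0 z (n 0 z (n 0 z (n 0 z
 z))))))))))) (n 1 (n 0 z (n 0 z (n 0 z (n 0 z (n 0 z (n 0 z (n 0 z (n 0 z (n 0 z (n 0 z (n 0 z
 z))))))))))) z))) (n 0 (n 0 z (n 0 z z)) (n 0 (n 0 z z) (n 0 z z)))))))) (n 0 (n 1 (n 3278363 z
 (n 3278363 z (n 3278363 z (n 3278363 z (n 3278363 z (n 3278363 z z)))))) (n 1 (n 5510667 z (n
 3772 z (n 3772 z (n 5509219 z (n 3772 z (n 3772 z z)))))) (n 0 z (n 0 z z)))) (n 0 z z)))) (n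
 0xd9ab464caa2a9550f14e84d33586998d30ca69a04aa5824d5022d34c0 (n 0 (n 279 (n 0 z (n 2 z (n 0 z (n
 3282443 z z)))) (n 255 (n 10 z (n 0 z (n 18 z (n 26 z (n
 0xa65365240394ca8ca640382392156e8e17a059ba674da69a7e285a76379b6e27257227e692591f82085d71c75f8217e01001
 z (n 6562131 z (n 6562131 z z))))))) (n 9 (n 0 z (n 0 z (n 34 z (n 0 z (n 0 z (n 6562131 z (n 0
 z z))))))) (n 243 (n 0 z (n 2164283 z z)) (n 1 (n 42 z (n 0 z (n 6562131 z z))) (n 0 (n 0 z (n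
 0 z (n 50 z (n 0 z (n 0 z (n
 0xaca886420786082382181f81f7628a17e27a08207e189f79f85f85d7e18618208638607df86179f8207e10801 z
 (n 0x8ca886420786082382081f8207628617e27a082082089f7e086085d8218618208628607df8617df81f7e10801
 z (n 0 z (n 58 z (n 0 z (n 0 z (n 0 z (n 0 z (n 66 z (n 0 z (n 74 z (n 6619675 z (n 0 z (n 82 z
 z))))))))))))))))))) z)))))) (n 243 (n 0 (n 79 (n 2 (n 0 z (n 0 z (n 1 z (n 1 z (n 1 z (n 2 (n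
 0 z (n 0 z (n 0 z (n 0 (n 2132 z z) (n 0 z (n 0 z z)))))) (n 2 (n 0 z (n 0 z (n 0 (n 8728931 z
 z) (n 0 (n 3278971 z (n 3278971 z z)) (n 0 (n 3278971 z z) (n 0 z z)))))) (n 2 (n 0 z (n 0 z (n
 0 z (n 0 (n 2132 z z) (n 0 z (n 0 z z)))))) (n 2 (n 0 z (n 0 z (n 0 z (n 0 z (n 0 z (n 0 z
 z)))))) z))))))))) (n 0 z (n 0 z (n 0 z (n 0 z (n 0 z (n 0 z (n 0 z (n 0 z (n 0 z (n 0 z (n 0 z
 (n 0 z (n 0 z (n 0 z z))))))))))))))) (n 79 (n 0 z (n 0 z (n 0 z (n 0 z (n 0 z (n 0 z (n 0 z (n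
 7673403 z (n 0 z (n 0 z (n 0 z (n 0 z (n 0 z (n 0 z (n 0 z z))))))))))))))) (n 79 (n 0 z (n 0 z
 (n 0 z (n 0 z (n 0 z (n 0 z (n 0 z (n 0 z (n 0 z (n 0 z (n 0 z (n 0 z (n 0 z (n 0 z (n 0 z
 z))))))))))))))) (n 151 (n 0 z (n 0 z (n 0 z (n 0 z z)))) (n 531 (n 0 z (n 0 z (n 0 z (n 0 z (n
 0 z z))))) (n 533 (n 0 z (n 0 z (n 0 z (n 0 z (n 0 z (n 0 z (n 0 z (n 0 z (n 0 z (n 0 z (n 0 z
 (n 0 z (n 0 z (n 0 z z)))))))))))))) (n 533 (n 0 z (n 0 z (n 0 z (n 0 z (n 0 z (n 0 z (n 0 z (n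
 0 z (n 0 z (n 0 z (n 0 z (n 0 z (n 0 z (n 0 z z)))))))))))))) (n 533 (n 0 z (n 0 z (n 0 z (n 0
 z (n 0 z (n 0 z (n 2 (n 0 z (n 0 z z)) (n 0 z (n 0 z (n 0 z (n 0 z (n 0 z (n 0 z (n 0 z
 z)))))))))))))) (n 533 (n 0 z (n 0 z (n 0 z (n 0 z (n 0 z (n 0 z (n 0 z (n 0 z (n 0 z (n 0 z (n
 0 z (n 0 z (n 0 z (n 0 z z)))))))))))))) (n 533 (n 0 z (n 0 z (n 0 z (n 0 z (n 0 z (n 0 z (n 0
 z (n 0 z (n 0 z (n 0 z (n 0 z (n 0 z (n 0 z (n 7673403 z z)))))))))))))) z)))))))))) (n 0 (n 0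
 z (n 0 z (n 459 (n 0 z (n 2 (n 1 z (n 1 z (n 2 (n 0 z (n 0 z (n 0 z (n 0 (n 2020 z z) (n 0 z (n
 0 z z)))))) (n 2 (n 0 z (n 0 z (n 0 z (n 0 z (n 0 z (n 0 z z)))))) (n 2 (n 0 z (n 0 z (n 0 z (n
 0 z (n 0 z (n 0 z z)))))) (n 2 (n 0 z (n 0 z (n 0 z (n 0 z (n 0 z (n 0 z z)))))) z)))))) (n 0 z
 (n 0 z (n 0 z (n 0 z (n 0 z (n 0 z (n 0 z z))))))))) (n 457 (n 2 (n 1 z (n 2 (n 0 z (n 0 z (n 0
 z (n 0 (n 2020 z z) (n 0 z (n 0 z z)))))) (n 2 (n 0 z (n 0 z (n 0 z (n 0 z (n 0 z (n 0 z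
 z)))))) (n 2 (n 0 z (n 0 z (n 0 z (n 0 z (n 0 z (n 0 z z)))))) (n 2 (n 0 z (n 0 z (n 0 z (n 0 z
 (n 0 z (n 0 z z)))))) z))))) (n 0 z (n 0 z (n 0 z (n 0 z (n 0 z z)))))) (n 505 (n 0 z (n 2 (n 0
 z (n 0 z (n 0 z (n 0 z z)))) (n 0 z (n 0 z (n 0 z (n 0 z (n 0 z z))))))) (n 505 (n 0 z (n 0 z
 (n 0 z (n 0 z (n 0 z (n 0 z (n 2 (n 0 z (n 0 z (n 0 z z))) z))))))) (n 505 (n 0 z (n 0 z (n 0 z
 (n 0 z (n 0 z (n 0 z (n 0 z z))))))) (n 505 (n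
 0x6ec8ec86037626a089e82181f7e085e8207638a18a07e18a17de8a17dd7df7a181d8207df89f8a47e08e10801 z
 (n 0 z (n 0 z (n 0 z (n 0 z (n 0 z (n 0 z z))))))) (n 505 (n 0 z (n 0 z (n 0 z (n 0 z (n 0 z (n
 0 z (n 0 z z))))))) z))))))))) (n 0 (n 0 z (n 347 (n 0 z (n 7741699 z (n 0 z (n 0 z (n 0 z (n 0
 z (n 0 z (n 0 z (n 0 z z))))))))) (n 345 (n 0 z (n 7741699 z (n 0 z (n 0 z (n 0 z (n 0 z (n 0 z
 z))))))) (n 253 (n 0 z (n 7741699 z (n 0 z (n 0 z (n 0 z (n 0 z (n 0 z (n 0 z z)))))))) (n 253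
 (n 0 z (n 0 z (n 0 z (n 0 z (n 0 z (n 0 z (n 0 z (n 0 z z)))))))) (n 253 (n 0 z (n 0 z (n 0 z
 (n 0 z (n 0 z (n 0 z (n 0 z (n 0 z z)))))))) (n 253 (n 0 z (n 0 z (n 0 z (n 0 z (n 0 z (n 2 (n
 0 z z) (n 0 z (n 0 z z)))))))) (n 253 (n 0 z (n 0 z (n 0 z (n 0 z (n 0 z (n 0 z (n 0 z (n 0 z
 z)))))))) z)))))))) (n 0 (n 271 (n 0 z (n 0 z (n 0 z (n 0 z (n 0 z (n 0 z (n 0 z (n 0 z
 z)))))))) (n 3 (n 0 z (n 0 z (n 0 z (n 0 z (n 0 z (n 0 z (n 0 z (n 0 z z)))))))) (n 1 (n 0 z (n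
 0 z (n 0 z (n 0 z (n 0 z (n 0 z (n 0 z (n 0 z (n 0 z (n 0 z (n 0 z z))))))))))) (n 1 (n 0 z (n
 0 z (n 0 z (n 2 (n 0 z (n 0 z (n 0 z z))) (n 0 z (n 0 z (n 0 z (n 0 z (n 0 z (n 0 z (n 0 z
 z))))))))))) (n 1 (n 0 z (n 0 z (n 0 z (n 0 z (n 0 z (n 2 (n 0 z (n 0 z z)) (n 0 z (n 0 z (n 0
 z (n 0 z (n 0 z z))))))))))) (n 1 (n 0 z (n 0 z (n 0 z (n 0 z (n 0 z (n 0 z (n 0 z (n 0 z (n 0
 z (n 0 z (n 0 z z))))))))))) (n 1 (n 0 z (n 0 z (n 0 z (n 0 z (n 0 z (n 0 z (n 0 z (n 0 z (n 0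
 z (n 0 z (n 2 z z))))))))))) z))))))) (n 0 (n 51 (n 0 z (n 0 z (n 0 z (n 0 z (n 0 z (n 0 z
 z)))))) (n 49 (n 0 z (n 0 z (n 0 z (n 0 z (n 0 z (n 0 z (n 0 z (n 0 z (n 0 z z))))))))) (n 49
 (n 0 z (n 0 z (n 0 z (n 0 z (n 0 z (n 0 z (n 0 z (n 0 z (n 0 z z))))))))) (n 49 (n 0 z (n 0 z
 (n 0 z (n 0 z (n 0 z (n 2 (n 0 z (n 0 z z)) (n 0 z (n 0 z (n 0 z z))))))))) (n 49 (n 0 z (n 0 z
 (n 0 z (n 0 z (n 0 z (n 0 z (n 2 (n 0 z z) (n 0 z (n 0 z z))))))))) (n 49 (n 0 z (n 0 z (n 0 z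
 (n 0 z (n 0 z (n 0 z (n 0 z (n 0 z (n 7673403 z z))))))))) z)))))) (n 0 (n 53 (n 0 z (n 0 z (n
 0 z (n 0 z (n 0 z (n 0 z (n 0 z (n 0 z (n 0 z (n 0 z (n 0 z (n 0 z (n 0 z (n 0 z (n 0 z (n 0 z
 (n 0 z (n 0 z (n 0 z (n 0 z (n 0 z (n 0 z (n 0 z (n 0 z (n 0 z z))))))))))))))))))))))))) (n 53
 (n 0 z (n 0 z (n 0 z (n 0 z (n 0 z (n 0 z (n 0 z (n 0 z (n 0 z (n 0 z (n 0 z (n 0 z (n 0 z (n 0
 z (n 0 z (n 0 z (n 0 z (n 0 z (n 0 z (n 0 z (n 0 z (n 2 (n 0 z (n 0 z (n 0 z z))) (n 0 z (n 0 z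
 (n 0 z z))))))))))))))))))))))))) (n 53 (n 0 z (n 2 (n 0 z (n 0 z z)) (n 0 z (n 0 z (n 0 z (n 0
 z (n 0 z (n 0 z (n 0 z (n 0 z (n 0 z (n 0 z (n 0 z (n 0 z (n 0 z (n 0 z (n 0 z (n 0 z (n 0 z (n
 0 z (n 0 z (n 0 z (n 0 z (n 0 z (n 0 z z))))))))))))))))))))))))) (n 53 (n 0 z (n 0 z (n 0 z (n
 0 z (n 0 z (n 0 z (n 0 z (n 0 z (n 0 z (n 0 z (n 0 z (n 0 z (n 0 z (n 0 z (n 0 z (n 0 z (n 0 z
 (n 0 z (n 0 z (n 0 z (n 0 z (n 0 z (n 0 z (n 0 z (n 0 z z))))))))))))))))))))))))) (n 53 (n 0 z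
 (n 0 z (n 0 z (n 0 z (n 0 z (n 0 z (n 0 z (n 0 z (n 0 z (n 0 z (n 0 z (n 0 z (n 0 z (n 0 z (n 0
 z (n 0 z (n 0 z (n 0 z (n 0 z (n 0 z (n 0 z (n 0 z (n 0 z (n 0 z (n 7673403 z
 z))))))))))))))))))))))))) z))))) (n 0 (n 0 z (n 0 z (n 0 z (n 0 z z)))) (n 0 (n 0 z (n 0 z (n
 0 z z))) (n 0 (n 0 z (n 0 z z)) (n 0 (n 0 z z) (n 0 z z))))))))))) (n 0 (n 0 z (n 1 (n 2164283
 z (n 2164283 z (n 2164283 z (n 2164283 z (n 2164283 z (n 2164283 z z)))))) z)) (n 0 z z)))) (n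
 0x1b4768ce2744c9ca1c7158238a47044a38c22ea811 (n 0 (n 279 (n 0 z (n 0 z (n 3282443 z z))) (n 255
 (n 0 z (n 2 z (n 10 z (n 6562131 z (n 6562131 z z))))) (n 9 (n 0 z (n 18 z (n 0 z (n 6562131 z
 (n 0 z z))))) (n 243 (n 0 z (n 2164283 z z)) (n 1 (n 0 z (n 26 z (n 0 z (n 0 z (n 6562131 z
 z))))) (n 0 (n 0 z (n 0 z (n
 0x1643643103a0ca88642077609a86eb9dd91d5d691e55881c85e81959f85e7e18608247e39e08de7a07dd81d8a27e381f1001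
 z (n 0 z (n 0 z (n 0 z (n
 0x56544103018ac8686020376395e75b7e182086182095e8a29e18a18637207de81c81d6a37608a182082485e8e381f7a31001
 z (n 34 z (n 0 z (n
 0xaca886420786082382181f81f7628a17e27a08207e189f79f85f85d7e18618208638607df86179f8207e10801 z
 (n 6619675 z (n 42 z (n 0 z (n 0 z (n
 0x10ca886420386096176381e81e8607e285f8db82179f7a079c89d81f8228a19628637a076176195c8617e20801 z
 (n 0 z (n
 0x32a210980c165443210182ca88602038208627a285f89f79d8a07dd7e185f7de7607df8207e07e089e8e185d82081e7e189f8208211801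
 z (n 0 z (n 6619675 z (n 50 z (n 6619675 z (n 58 z z)))))))))))))))))))))) z)))))) (n 243 (n 0
 (n 0 z (n 347 (n 7741699 z (n 0 z (n 0 z (n 0 z (n 0 z (n 0 z z)))))) (n 345 (n 0 z (n 7741699
 z (n 0 z (n 0 z (n 0 z (n 0 z (n 0 z (n 0 z z)))))))) (n 253 (n 7741699 z (n 0 z (n 0 z (n 0 z
 (n 0 z z))))) (n 253 (n 0 z (n 0 z (n 0 z (n 0 z (n 0 z z))))) (n 253 (n 0 z (n 0 z (n 2 (n 0 z
 z) (n 0 z (n 0 z z))))) (n 253 (n 0 z (n 0 z (n 0 z (n 2 z (n 0 z z))))) z))))))) (n 0 (n 271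
 (n 0 z (n 0 z (n 0 z (n 0 z (n 0 z (n 0 z (n 0 z z))))))) (n 3 (n 0 z (n 0 z (n 0 z (n 0 z (n 0
 z z))))) (n 1 (n 0 z (n 0 z (n 0 z (n 0 z (n 0 z (n 0 z (n 0 z (n 0 z (n 0 z z))))))))) (n 1 (n
 0 z (n 0 z (n 0 z (n 2 (n 0 z (n 0 z z)) (n 0 z (n 0 z (n 0 z (n 0 z (n 0 z z))))))))) (n 1 (n
 0 z (n 0 z (n 0 z (n 0 z (n 0 z (n 0 z (n 0 z (n 0 z (n 0 z z))))))))) (n 1 (n 0 z (n 0 z (n 0
 z (n 0 z (n 0 z (n 0 z (n 0 z (n 0 z (n 2 z z))))))))) z)))))) (n 0 (n 51 (n 0 z (n 0 z (n 0 z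
 (n 0 z z)))) (n 49 (n 0 z (n 0 z (n 0 z (n 0 z (n 0 z (n 0 z (n 0 z (n 0 z z)))))))) (n 49 (n 0
 z (n 0 z (n 0 z (n 0 z (n 0 z (n 0 z (n 0 z (n 0 z z)))))))) (n 49 (n 0 z (n 0 z (n 0 z (n 0 z
 (n 0 z (n 2 (n 0 z z) (n 0 z (n 0 z z)))))))) (n 49 (n 0 z (n 0 z (n 0 z (n 0 z (n 0 z (n 0 z
 (n 0 z (n 7673403 z z)))))))) z))))) (n 0 (n 53 (n 0 z (n 0 z (n 0 z (n 0 z (n 0 z (n 0 z (n 0
 z (n 0 z (n 0 z (n 0 z (n 0 z (n 0 z (n 0 z (n 0 z (n 0 z (n 0 z (n 0 z z))))))))))))))))) (n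
 53 (n 0 z (n 0 z (n 0 z (n 0 z (n 0 z (n 0 z (n 0 z (n 0 z (n 0 z (n 0 z (n 0 z (n 0 z (n 0 z
 (n 0 z (n 0 z (n 2 (n 0 z (n 0 z z)) (n 0 z z))))))))))))))))) (n 53 (n 0 z (n 0 z (n 0 z (n 0
 z (n 0 z (n 0 z (n 0 z (n 0 z (n 0 z (n 0 z (n 0 z (n 0 z (n 0 z (n 0 z (n 0 z (n 0 z (n 0 z
 z))))))))))))))))) (n 53 (n 0 z (n 0 z (n 0 z (n 0 z (n 0 z (n 0 z (n 0 z (n 0 z (n 0 z (n 0 z
 (n 0 z (n 0 z (n 0 z (n 0 z (n 0 z (n 0 z (n 7673403 z z))))))))))))))))) z)))) (n 0 (n 0 z (n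
 0 z (n 0 z z))) (n 0 (n 0 z (n 0 z z)) (n 0 (n 0 z z) (n 0 z z)))))))) (n 0 (n 0 z (n 1 (n
 2164283 z (n 2164283 z (n 2164283 z (n 2164283 z (n 2164283 z (n 2164283 z z)))))) z)) (n 0 z
 z)))) (n 0x105ce4216ba42338e66c42cb819 (n 0 (n 465 (n 0 z (n 3282443 z (n 0 z z))) (n 33 (n
 4326939 z (n 0 z (n 0 z (n 0 z (n 2 z (n 3278363 z (n 4392475 z (n 0 z (n 0 z (n 0 z (n 10 z (n
 0 z (n 0 z (n 0 z (n 0 z (n 6358075 z (n 0 z (n 0 z (n 0 z (n 0 z z)))))))))))))))))))) (n 129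
 (n 0 z (n 0 z (n 6566419 z (n 4392491 z (n 0 z (n 0 z z)))))) (n 3 (n 6566419 z (n 0 z (n 0 z
 (n 18 z (n 0 z (n 0 z (n 0 z (n 0 z (n 0 z z))))))))) (n 1 (n 0 z (n 26 z (n 34 z (n 6566419 z
 (n 0 z (n 0 z (n 0 z z))))))) (n 0 (n 0 z (n 6624299 z (n 0 z z))) z)))))) (n 465 (n 0 (n 0 z
 (n 393 (n 0 z (n 0 z (n 0 z (n 0 z (n 0 z (n 0 z (n 0 z (n 0 z (n 0 z (n 0 z (n 0 z (n 0 z (n 0
 z (n 0 z (n 0 z (n 2 (n 2 (n 0 z (n 0 (n 3700 z (n 3700 z z)) (n 0 z (n 0 (n 3700 z (n 3700 z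
 z)) (n 0 (n 37 z (n 37 z z)) (n 0 z z)))))) (n 1 z z)) (n 0 z (n 0 z (n 0 z (n 0 z
 z)))))))))))))))))))) (n 925 (n 0 z (n 0 z (n 0 z (n 0 z (n 0 z (n 0 z (n 0 z (n 0 z (n 0 z (n
 0 z (n 0 z (n 0 z (n 0 z (n 0 z (n 0 z (n 0 z (n 0 z (n 0 z (n 0 z (n 0 z (n 0 z (n 2 (n 0 z z)
 z)))))))))))))))))))))) (n 925 (n 0 z (n 0 z (n 0 z (n 0 z (n 0 z (n 0 z (n 0 z (n 0 z (n 0 z
 (n 0 z (n 0 z (n 0 z (n 0 z (n 0 z (n 0 z (n 0 z (n 0 z (n 0 z (n 2 z (n 0 z (n 0 z (n 0 z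
 z)))))))))))))))))))))) z)))) (n 0 (n 487 (n 0 z (n 0 z (n 0 z (n 0 z (n 0 z (n 0 z (n 0 z (n 0
 z (n 0 z (n 0 z (n 0 z (n 0 z (n 0 z (n 0 z (n 0 z (n 0 z (n 0 z (n 0 z z)))))))))))))))))) (n
 495 (n
 0x176576500382ca8ca80037e08208208208208218607e08208208208208207e182082082082082082081f8208208208201001
 z (n 0 z (n 0 z (n 0 z (n 0 z (n 0 z (n 0 z (n 0 z (n 0 z (n 0 z (n 0 z (n 0 z (n 0 z
 z))))))))))))) (n 495 (n 0 z (n 0 z (n 0 z (n 0 z (n 0 z (n 0 z (n 0 z (n 0 z (n 0 z (n 0 z (n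
 0 z (n 0 z (n 0 z z))))))))))))) z))) (n 0 (n 9 (n 0 z (n 0 z (n 0 z (n 0 z (n 0 z (n 2 (n 0 z
 z) z)))))) (n 9 (n 0 z (n 0 z (n 0 z (n 0 z (n 0 z (n 0 z z)))))) z)) (n 0 (n 0 z z) (n 0 z
 z))))) (n 0 (n 0 z (n 1 (n 3282443 z (n 3282443 z (n 3282443 z (n 3282443 z (n 3282443 z (n
 3282443 z z)))))) (n 0 z z))) (n 0 z z)))) (n 0x1d49d08a6ac768c51a4428d2c0 (n 0 (n 549 (n 0 z
 (n 6492243 z (n 0 z (n 0 z (n 2 z (n 0 z (n 0 z (n 0 z z)))))))) (n 317 (n 0 z (n 0 z (n 0 z (n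
 0 z (n 0 z (n 0 z (n 0 z (n 6492243 z (n 0 z (n 10 z (n 18 z (n 0 z (n 0 z (n 0 z (n 0 z (n 0 z
 z)))))))))))))))) (n 9 (n 6627595 z (n 0 z (n 0 z z))) (n 3 (n 0 z (n 0 z (n 0 z (n 0 z (n 0 z
 (n 6492243 z (n 0 z z))))))) (n 1 (n 0 z (n 6636315 z (n 0 z (n 0 z (n 0 z z))))) (n 0 (n 0 z
 (n 0 z (n 0 z (n 0 z (n 0 z (n 0 z (n 0 z (n 26 z (n 0 z (n 0 z (n 0 z (n 0 z (n 6627595 z (n 0
 z (n 0 z (n 34 z (n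
 0xc86c862078608208208208207e082181f7e182082082081f82081f8608208208208208208208208208200801 z (n
 0 z (n 0 z (n 0 z (n 0 z (n 0 z (n 0 z (n 0 z (n
 0xa61085f8218208208207e082181f82082082082182082081f8208208208208207e08208208208600041 z (n
 6627595 z (n 0 z (n 0 z (n
 0x564264130188c84c206030190d90c40e0319190081c143265100386ca66420078637607e079e7e199f75f76481d79e9236e271f7218678a281e86372482285b71d6df7e38233001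
 z (n 0 z (n 0 z (n 0 z (n 0 z (n 0 z (n 0 z (n 6627595 z (n 0 z (n 0 z (n 0 z (n
 0xa64185f82081f8608607e08218208208607e082182082081f8208208208208208208208208208600041 z (n 0 z
 z))))))))))))))))))))))))))))))))))))))))) z)))))) (n 9 (n 0 (n 983 (n 0 z (n 0 z (n 0 z (n 0 z
 (n 0 z (n 0 z (n 0 z (n 0 z (n 0 z (n 0 z (n 0 z (n 0 z (n 0 z z))))))))))))) (n 983 (n 0 z (n
 0 z (n 0 z (n 0 z (n 0 z (n 0 z (n 0 z (n 2 (n 2 (n 0 z (n 0 z (n 0 z (n 0 z (n 0 z (n 0 z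
 z)))))) (n 2 (n 0 z (n 0 z (n 0 z (n 0 z (n 0 z (n 0 z z)))))) z)) (n 0 z (n 0 z (n 0 z (n 0 z
 (n 0 z z))))))))))))) (n 505 (n 0 z (n 0 z (n 2 (n 0 z z) (n 0 z (n 0 z (n 0 z (n 0 z (n 0 z (n
 0 z (n 0 z (n 0 z (n 0 z (n 0 z (n 0 z (n 0 z (n 0 z (n 0 z (n 0 z (n 0 z (n 0 z (n 0 z (n 0 z
 (n 0 z (n 0 z (n 0 z (n 0 z (n 0 z (n 0 z (n 0 z (n 0 z (n 0 z (n 0 z (n 0 z (n 0 z (n 0 z (n 0
 z z)))))))))))))))))))))))))))))))))))) (n 505 (n 0 z (n 0 z (n 0 z (n 0 z (n 0 z (n 0 z (n 0 z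
 (n 0 z (n 0 z (n 0 z (n 0 z (n 0 z (n 0 z (n 0 z (n 0 z (n 0 z (n 0 z (n 0 z (n 0 z (n 0 z (n 0
 z (n 0 z (n 0 z (n 0 z (n 0 z (n 0 z (n 0 z (n 0 z (n 0 z (n 0 z (n 0 z (n 0 z (n 0 z (n 0 z (n
 0 z (n 0 z z)))))))))))))))))))))))))))))))))))) z)))) (n 0 (n 0 z (n 637 (n 2 (n 0 z z) (n 0 z
 (n 0 z (n 0 z (n 0 z (n 0 z (n 0 z (n 0 z (n 0 z (n 0 z (n 0 z (n 0 z (n 0 z z))))))))))))) (n
 637 (n 0 z (n 0 z (n 0 z (n 0 z (n 0 z (n 0 z (n 0 z (n 0 z (n 0 z (n 0 z (n 0 z (n 0 z (n 0 z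
 z))))))))))))) z))) (n 0 (n 629 (n 0 z (n 2 (n 0 z z) (n 0 z (n 0 z (n 0 z (n 0 z z)))))) (n
 629 (n 0 z (n 0 z (n 0 z (n 0 z (n 0 z (n 0 z z)))))) z)) (n 0 (n 0 z z) (n 0 z z))))) (n 0 (n
 1 (n 6627595 z (n 6627595 z (n 6627595 z (n 6627595 z (n 6627595 z (n 6627595 z z)))))) (n 0 z
 (n 0 z z))) (n 0 z z)))) (n
 0x3629d19a66899a9414caac66a46132a32194d982e4ca0522f07539988594c22ca640 (n 0x194ca (n 153 (n 0 z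
 (n 2 z (n 0 z (n 0 z (n 0 z (n 0 z (n 6496339 z (n 0 z z)))))))) (n 33 (n 10 z (n 0 z (n 18 z
 (n 0 z (n 6623755 z (n 0 z (n 0 z z))))))) (n 9 (n
 0x4cca4a2060780583a7f98038228327ad7f88e47fe7fe7f08027c280e8048cf72883a8e37c285e7c67bf7fd86d7ff8577f293e8077be80582981081881a7bf7f180e7d88d26de84977d6c57d78f17727a30811
 z (n
 0x135840e8c204361082099d99aa627dd71b7e4b9c4a980bbe2bcf9157567595ef8bb5e78a2d575cc96892965183000c1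
 z (n 26 z (n 34 z (n 42 z (n
 0xcca4a826037e87dea6ca5d95f42182155385d61f51ac1ea3186f6a986289c9246618a17ac1677db86465f0801 z
 (n 0xaca4a826078e47dd9644e29a471f81f7e0a9182f92e8d67e76a79766549dc99f89ea9e8684287d07266220801
 z (n 0 z (n 0 z (n 6496339 z (n 6496339 z (n 6496339 z (n 6496339 z z))))))))))))) (n 123 (n 50
 z (n 0 z (n 6496339 z (n 0 z z)))) (n 1 (n 2164299 z (n 58 z (n 0 z (n 0 z (n 66 z z))))) (n 0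
 (n 74 z (n
 0x4ca68624078637dd8a39df6e0760823a533e9688b90b1f91c8e38158e981e89c5e5821617660abc88c9ea0801 z
 (n 6623755 z (n
 0x1cca4820603818d7e7d8a8c7b7a9c7f7979847491748d65838d7385837f818d859279ad8380838385806a7b818174a24a8f74687c956d7b0809
 z (n 0 z (n 0 z (n 0 z (n 6623755 z (n 0 z (n 0 z (n 6623755 z (n 0 z (n
 0x20c86c80403817f788e907c5e8182878e8a77736e81936f9a9491a26b717c8c6c848c916b7c91817c7c9f699a6d73677d9d8886737584970809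
 z (n 82 z (n
 0xaca686240785f7e08a186086085d8a37607e07df7df7e082086182182279f86181f82281f7e07e182081f0801 z
 (n 0 z (n 0 z (n
 0x990d90c80616ca68624038182807e7f838181907d7a7481827e959b6f7f9a6b8b7a767c82868175a384736f8c7c9e8f8175878f9f7b79583d75ad676d1009
 z (n 0 z (n 0 z (n 0 z (n 0 z (n 90 z (n 6623755 z (n 0 z (n 0 z (n 0 z (n 0 z (n 0 z (n
 0x2c86c864037e17df8608208208607e08207e086082082082085f82182082081f8208208208208208208200801 z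
 (n 0 z (n 0 z (n 0 z (n 98 z (n 0 z z))))))))))))))))))))))))))))))))))) z)))))) (n 123 (n 0 (n
 179 (n 0 z (n 0 z (n 0 z (n 0 z (n 0 z (n 0 z (n 0 z (n 0 z (n 0 z (n 0 z (n 0 z (n 0 z (n 0 z
 (n 0 z (n 0 z (n 0 z z)))))))))))))))) (n 179 (n 0 z (n 0 z (n 0 z (n 0 z (n 0 z (n 0 z (n 2 (n
 1 z (n 1 z (n 1 z (n 1 z (n 1 z (n 1 z (n 1 z (n 1 z (n 1 z (n 1 z z)))))))))) (n 0 z (n 0 z (n
 0 z (n 0 z (n 0 z (n 0 z (n 0 z (n 0 z (n 0 z z)))))))))))))))) (n 151 (n 0 z (n 0 z (n 0 z (n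
 0 z (n 0 z (n 0 z (n 0 z (n 0 z (n 0 z (n 0 z (n 0 z (n 0 z z)))))))))))) (n 151 (n 0 z (n 0 z
 (n 0 z (n 0 z (n 0 z (n 0 z (n 0 z (n 0 z (n 0 z (n 0 z (n 0 z (n 0 z z)))))))))))) (n 151 (n 0
 z (n 0 z (n 0 z (n 2 (n 1 z (n 1 z (n 1 z (n 1 z (n 2 (n 0 (n 116 z z) (n 0 z (n 0 z (n 0 (n
 8590859 z z) (n 0 (n 116 z (n 116 z z)) (n 0 z z)))))) (n 1 z (n 2 (n 0 z (n 0 (n 116 z z) (n 0
 z (n 0 (n 69 z z) (n 0 (n 116 z (n 116 z z)) (n 0 z z)))))) z))))))) (n 0 z (n 0 z (n 0 z (n 0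
 z (n 0 z (n 0 z (n 0 z (n 0 z z)))))))))))) (n 27 (n 0 z (n 0 z (n 0 z (n 0 z (n 0 z (n 0 z (n
 0 z (n 0 z (n 0 z (n 0 z z)))))))))) (n 243 (n 0 z (n 0 z (n 0 z (n 0 z (n 0 z (n 0 z (n 0 z (n
 0 z (n 0 z (n 0 z (n 0 z (n 0 z (n 0 z (n 0 z z)))))))))))))) (n 243 (n 0 z (n 0 z (n 0 z (n 0
 z (n 0 z (n 0 z (n 2 (n 1 z (n 1 z (n 1 z (n 1 z z)))) (n 7542283 z (n 0 z (n 0 z (n 0 z (n 0 z
 (n 0 z (n 0 z z)))))))))))))) (n 29 (n 0 z (n 0 z (n 0 z (n 0 z (n 0 z (n 0 z (n 0 z (n 0 z (n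
 0 z (n 0 z z)))))))))) (n 29 (n 0 z (n 0 z (n 0 z (n 0 z (n 0 z (n 2 (n 0 z (n 0 z z)) (n 0 z
 (n 0 z (n 0 z (n 0 z z)))))))))) (n 29 (n 0 z (n 0 z (n 0 z (n 0 z (n 0 z (n 0 z (n 0 z (n 0 z
 (n 0 z (n 0 z z)))))))))) (n 29 (n 0 z (n 2 z (n 0 z (n 0 z (n 0 z (n 0 z (n 0 z (n 0 z (n 0 z
 (n 0 z z)))))))))) z)))))))))))) (n 0 (n 0 z (n 411 (n 0 z (n 0 z (n 0 z (n 0 z (n 0 z (n 0 z
 (n 0 z (n 0 z (n 0 z (n 0 z (n 0 z z))))))))))) (n 411 (n 0 z (n 0 z (n 0 z (n 0 z (n 0 z (n 0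
 z (n 0 z (n 0 z (n 0 z (n 0 z (n 0 z z))))))))))) (n 411 (n 0 z (n 0 z (n 2 (n 1 z (n 1 z (n 1
 z (n 2 (n 0 z (n 0 z (n 0 z (n 0 (n 8803083 z z) (n 0 (n 8803083 z (n 8803083 z z)) (n 0 (n
 8803083 z z) z)))))) (n 2 (n 0 z (n 0 z (n 0 z (n 0 z (n 0 z (n 0 z z)))))) (n 1 z (n 2 (n 0 (n
 1636 z z) (n 0 z (n 0 z (n 0 z (n 0 (n 8795947 z (n 1636 z z)) (n 0 (n 1636 z z) z))))))
 z))))))) (n 0 z (n 0 z (n 0 z (n 0 z (n 0 z (n 0 z (n 0 z (n 0 z z))))))))))) (n 1045 (n 0 z (n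
 0 z (n 0 z (n 0 z (n 0 z (n 0 z (n 0 z (n 0 z (n 0 z z))))))))) (n 51 (n 0 z (n 0 z (n 0 z (n 0
 z (n 0 z (n 0 z (n 0 z z))))))) (n 51 (n 0 z (n 2 (n 1 z (n 1 z (n 1 z (n 1 z z)))) (n 0 z (n 0
 z (n 0 z (n 0 z (n 0 z z))))))) (n 409 (n 0 z (n 0 z (n 0 z (n 0 z (n 0 z (n 0 z (n 0 z (n 0 z
 (n 0 z (n 0 z (n 0 z (n 0 z (n 0 z (n 0 z (n 0 z (n 0 z (n 0 z (n 0 z (n 0 z (n 0 z (n 0 z (n 0
 z (n 0 z (n 0 z (n 0 z (n 0 z (n 0 z (n 0 z (n 0 z (n 0 z (n 0 z (n 0 z (n 0 z (n 0 z (n 0 z (n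
 0 z (n 0 z (n 0 z (n 0 z (n 0 z (n 0 z (n 0 z (n 0 z (n 0 z (n 0 z (n 0 z
 z)))))))))))))))))))))))))))))))))))))))))))))) (n 409 (n 0 z (n 0 z (n 0 z (n 0 z (n 0 z (n 0
 z (n 0 z (n 0 z (n 0 z (n 0 z (n 0 z (n 0 z (n 0 z (n 0 z (n 0 z (n 2 (n 0 z (n 0 z z)) (n 0 z
 (n 0 z (n 0 z (n 0 z (n 0 z (n 0 z (n 0 z (n 0 z (n 0 z (n 0 z (n 0 z (n 0 z (n 0 z (n 0 z (n 0
 z (n 0 z (n 0 z (n 0 z (n 0 z (n 0 z (n 0 z (n 0 z (n 0 z (n 0 z (n 0 z (n 0 z (n 0 z (n 0 z (n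
 0 z (n 0 z z)))))))))))))))))))))))))))))))))))))))))))))) (n 409 (n 0 z (n 0 z (n 0 z (n 0 z
 (n 0 z (n 0 z (n 0 z (n 0 z (n 0 z (n 0 z (n 0 z (n 0 z (n 0 z (n 0 z (n 0 z (n 0 z (n 0 z (n 0
 z (n 0 z (n 0 z (n 0 z (n 0 z (n 0 z (n 0 z (n 0 z (n 0 z (n 0 z (n 0 z (n 0 z (n 0 z (n 0 z (n
 0 z (n 0 z (n 0 z (n 0 z (n 0 z (n 0 z (n 0 z (n 0 z (n 0 z (n 0 z (n 0 z (n 0 z (n 0 z (n 0 z
 (n 0 z z)))))))))))))))))))))))))))))))))))))))))))))) (n 409 (n 0 z (n 0 z (n 0 z (n 0 z (n 0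
 z (n 2 z (n 0 z (n 0 z (n 0 z (n 0 z (n 0 z (n 0 z (n 0 z (n 0 z (n 0 z (n 0 z (n 0 z (n 0 z (n
 0 z (n 0 z (n 0 z (n 0 z (n 0 z (n 0 z (n 0 z (n 0 z (n 0 z (n 0 z (n 0 z (n 0 z (n 0 z (n 0 z
 (n 0 z (n 0 z (n 0 z (n 0 z (n 0 z (n 0 z (n 0 z (n 0 z (n 0 z (n 0 z (n 0 z (n 0 z (n 0 z (n 0
 z z)))))))))))))))))))))))))))))))))))))))))))))) z))))))))))) (n 0 (n 1413 (n 0 z (n 0 z (n 0
 z (n 0 z (n 0 z (n 0 z (n 0 z (n 0 z (n 0 z (n 0 z (n 0 z (n 0 z (n 0 z (n 0 z (n 0 z (n 0 z (n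
 0 z (n 0 z (n 0 z z))))))))))))))))))) (n 1413 (n 0 z (n 0 z (n 0 z (n 0 z (n 0 z (n 2 (n 0 z
 (n 1 z (n 1 z (n 1 z (n 2 (n 0 z (n 0 z (n 0 z (n 0 z (n 0 (n 8855571 z z) (n 0 z z)))))) (n 2
 (n 0 z (n 0 z (n 0 z (n 0 z (n 0 z (n 0 z z)))))) (n 1 z (n 2 (n 0 z (n 0 z (n 0 z (n 0 z (n 0
 z (n 0 z z)))))) z)))))))) (n 0 z (n 0 z (n 0 z (n 0 z (n 0 z (n 0 z (n 0 z (n 0 z (n 0 z (n 0
 z (n 0 z (n 0 z (n 0 z z))))))))))))))))))) (n 1413 (n 0 z (n 0 z (n 0 z (n 0 z (n 0 z (n 0 z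
 (n 0 z (n 0 z (n 0 z (n 0 z (n 0 z (n 0 z (n 0 z (n 0 z (n 0 z (n 0 z (n 0 z (n 0 z (n 0 z
 z))))))))))))))))))) (n 487 (n 0 z (n 0 z (n 0 z (n 2 (n 1 z (n 1 z (n 1 z (n 1 z (n 1 z (n 1 z
 z)))))) (n 0 z (n 0 z (n 0 z (n 0 z z)))))))) (n 63 (n 0 z (n 2 (n 0 z (n 1 z (n 1 z (n 1 z (n
 1 z z))))) (n 0 z (n 0 z z)))) (n 63 (n 0 z (n 0 z (n 0 z (n 0 z z)))) (n 61 (n 0 z (n 2 (n 0 z
 (n 0 z (n 0 z z))) (n 0 z (n 0 z (n 0 z (n 0 z (n 0 z (n 0 z (n 0 z (n 0 z (n 0 z (n 0 z (n 0 z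
 (n 0 z z)))))))))))))) (n 61 (n 0 z (n 0 z (n 0 z (n 0 z (n 0 z (n 0 z (n 0 z (n 0 z (n 0 z (n
 0 z (n 0 z (n 0 z (n 0 z (n 0 z z)))))))))))))) (n 61 (n 0 z (n 0 z (n 0 z (n 0 z (n 0 z (n 0 z
 (n 0 z (n 0 z (n 0 z (n 0 z (n 0 z (n 0 z (n 0 z (n 2 (n 0 z z) z)))))))))))))) (n 61 (n 0 z (n
 0 z (n 0 z (n 0 z (n 0 z (n 0 z (n 0 z (n 0 z (n 0 z (n 0 z (n 0 z (n 0 z (n 2 z (n 0 z
 z)))))))))))))) z)))))))))) (n 0 (n 0 z (n 0 z (n 1337 (n 0 z (n 0 z (n 0 z (n 0 z z)))) (n 15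
 (n 0 z (n 0 z (n 0 z (n 0 z (n 0 z (n 0 z (n 0 z (n 0 z (n 0 z (n 0 z z)))))))))) (n 15 (n 0 z
 (n 0 z (n 0 z (n 0 z (n 0 z (n 2 (n 2 (n 0 z (n 0 (n 8795163 z z) (n 0 z (n 0 z (n 0 (n 6494219
 z (n 6494219 z z)) (n 0 (n 8795163 z z) z)))))) (n 2 (n 0 z (n 0 z (n 0 z (n 0 (n 8873267 z z)
 (n 0 (n 8873267 z (n 8873267 z z)) (n 0 (n 8873267 z z) z)))))) (n 1 z (n 2 (n 0 z (n 0 (n
 8873267 z z) (n 0 z (n 0 (n 8873267 z z) (n 0 (n 8873267 z (n 8873267 z z)) (n 0 z z))))))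
 z)))) (n 0 z (n 0 z (n 0 z (n 0 z z)))))))))) (n 17 (n 0 z (n 0 z (n 0 z (n 0 z (n 0 z (n 0 z
 (n 0 z (n 0 z (n 0 z (n 0 z (n 0 z (n 0 z z)))))))))))) (n 17 (n 0 z (n 2 (n 0 z (n 0 z z)) (n
 0 z (n 0 z (n 0 z (n 0 z (n 0 z (n 0 z (n 0 z (n 0 z (n 0 z (n 0 z z)))))))))))) (n 17 (n 0 z
 (n 0 z (n 0 z (n 0 z (n 0 z (n 0 z (n 0 z (n 0 z (n 0 z (n 0 z (n 0 z (n 0 z z)))))))))))) (n
 17 (n 0 z (n 0 z (n 0 z (n 0 z (n 0 z (n 0 z (n 0 z (n 2 z (n 0 z (n 0 z (n 0 z (n 0 z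
 z)))))))))))) z))))))))) (n 0 (n 0 z (n 295 (n 0 z (n 0 z (n 0 z (n 0 z (n 0 z (n 0 z (n 0 z (n
 0 z (n 0 z (n 0 z (n 0 z z))))))))))) (n 291 (n 0 z (n 0 z (n 0 z (n 0 z (n 0 z (n 0 z (n 0 z
 (n 0 z (n 0 z (n 0 z (n 0 z (n 0 z (n 0 z (n 0 z z)))))))))))))) (n 291 (n 0 z (n 0 z (n 0 z (n
 0 z (n 2 (n 1 z (n 2 (n 0 z (n 0 z (n 0 z (n 0 z (n 0 z (n 0 z z)))))) (n 1 z (n 2 (n 0 z (n 0
 z (n 0 z (n 0 z (n 0 z (n 0 z z)))))) z)))) (n 0 z (n 0 z (n 0 z (n 0 z (n 0 z (n 0 z (n 0 z (n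
 0 z (n 0 z z)))))))))))))) (n 293 (n 0 z (n 0 z (n 0 z (n 0 z (n 0 z (n 0 z (n 0 z (n 0 z (n 0
 z (n 0 z (n 0 z (n 0 z (n 0 z (n 0 z (n 0 z (n 0 z (n 0 z (n 0 z (n 0 z (n 0 z (n 0 z (n 0 z (n
 0 z (n 0 z (n 0 z (n 0 z (n 0 z (n 0 z (n 0 z (n 0 z (n 0 z (n 0 z (n 0 z (n 0 z (n 0 z (n 0 z
 (n 0 z (n 0 z (n 0 z (n 0 z (n 0 z (n 0 z (n 0 z (n 0 z (n 0 z (n 0 z
 z)))))))))))))))))))))))))))))))))))))))))))))) (n 293 (n 0 z (n 0 z (n 0 z (n 0 z (n 0 z (n 0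
 z (n 0 z (n 0 z (n 0 z (n 0 z (n 0 z (n 0 z (n 0 z (n 0 z (n 0 z (n 0 z (n 0 z (n 0 z (n 0 z (n
 0 z (n 0 z (n 0 z (n 0 z (n 0 z (n 0 z (n 0 z (n 0 z (n 0 z (n 0 z (n 0 z (n 0 z (n 0 z (n 0 z
 (n 0 z (n 0 z (n 0 z (n 0 z (n 0 z (n 0 z (n 0 z (n 2 (n 0 z (n 0 z z)) (n 0 z (n 0 z (n 0 z (n
 0 z (n 0 z z)))))))))))))))))))))))))))))))))))))))))))))) (n 293 (n 0 z (n 0 z (n 0 z (n 0 z
 (n 0 z (n 0 z (n 0 z (n 0 z (n 0 z (n 0 z (n 0 z (n 0 z (n 0 z (n 0 z (n 0 z (n 0 z (n 0 z (n 0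
 z (n 0 z (n 0 z (n 0 z (n 0 z (n 0 z (n 0 z (n 0 z (n 0 z (n 0 z (n 0 z (n 0 z (n 0 z (n 0 z (n
 0 z (n 0 z (n 0 z (n 0 z (n 0 z (n 0 z (n 0 z (n 0 z (n 0 z (n 0 z (n 0 z (n 0 z (n 0 z (n 0 z
 (n 0 z z)))))))))))))))))))))))))))))))))))))))))))))) (n 293 (n 0 z (n 0 z (n 0 z (n 0 z (n 0
 z (n 0 z (n 0 z (n 0 z (n 0 z (n 0 z (n 0 z (n 0 z (n 0 z (n 0 z (n 0 z (n 0 z (n 0 z (n 0 z (n
 0 z (n 0 z (n 0 z (n 0 z (n 0 z (n 0 z (n 0 z (n 0 z (n 0 z (n 0 z (n 0 z (n 0 z (n 0 z (n 0 z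
 (n 0 z (n 0 z (n 0 z (n 0 z (n 0 z (n 0 z (n 0 z (n 0 z (n 0 z (n 0 z (n 0 z (n 2 z (n 0 z (n 0
 z z)))))))))))))))))))))))))))))))))))))))))))))) z)))))))) (n 0 (n 1097 (n 0 z (n 2 (n 1 z (n
 1 z (n 1 z (n 2 (n 0 (n 68 z z) (n 0 z (n 0 z (n 0 (n 68 z z) (n 0 (n 68 z (n 68 z z)) (n 0 z
 z)))))) (n 1 z (n 2 (n 0 z (n 0 (n 68 z z) (n 0 z (n 0 (n 68 z z) (n 0 (n 68 z (n 68 z z)) (n 0
 z z)))))) z)))))) (n 0 z (n 0 z (n 0 z (n 0 z (n 0 z z))))))) (n 21 (n 0 z (n 0 z (n 0 z (n 0 z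
 (n 0 z (n 0 z (n 0 z (n 0 z (n 0 z (n 0 z (n 0 z (n 0 z (n 0 z (n 2 (n 0 z (n 2 (n 0 z (n 0 z
 (n 0 z (n 0 (n 8855571 z z) (n 0 (n 8855571 z (n 8855571 z z)) (n 0 (n 8855571 z z) z)))))) (n
 2 (n 0 z (n 0 z (n 0 z (n 0 z (n 0 z (n 0 z z)))))) (n 1 z (n 2 (n 0 (n 8861227 z z) (n 0 z (n
 0 z (n 0 z (n 0 (n 7743515 z (n 68 z z)) (n 0 (n 68 z z) z)))))) z))))) (n 0 z (n 0 z (n 0 z
 z))))))))))))))))) (n 21 (n 0 z (n 0 z (n 0 z (n 0 z (n 0 z (n 0 z (n 0 z (n 0 z (n 0 z (n 0 z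
 (n 0 z (n 0 z (n 0 z (n 0 z (n 0 z (n 0 z (n 0 z z))))))))))))))))) (n 17 (n 0 z (n 2 (n 0 z (n
 0 z (n 0 z z))) (n 0 z (n 0 z z)))) (n 17 (n 0 z (n 0 z (n 0 z (n 0 z z)))) (n 17 (n 0 z (n 0 z
 (n 0 z (n 0 z z)))) (n 17 (n 0 z (n 0 z (n 0 z (n 0 z z)))) z))))))) (n 0 (n 243 (n 0 z (n 0 z
 (n 0 z (n 0 z (n 0 z (n 0 z (n 0 z (n 0 z (n 0 z (n 0 z (n 0 z (n 0 z (n 0 z z))))))))))))) (n
 243 (n 0 z (n 0 z (n 2 (n 1 z (n 1 z (n 1 z (n 1 z z)))) (n 0 z (n 0 z (n 0 z (n 0 z (n 0 z (n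
 0 z (n 0 z (n 0 z (n 0 z (n 0 z z))))))))))))) (n 241 (n 0 z (n 0 z (n 0 z (n 0 z (n 0 z (n 0 z
 (n 0 z (n 0 z (n 0 z (n 0 z z)))))))))) (n 241 (n 0 z (n 0 z (n 0 z (n 0 z (n 0 z (n 2 (n 0 z
 (n 0 z z)) (n 0 z (n 0 z (n 0 z (n 0 z z)))))))))) (n 241 (n 0 z (n 0 z (n 0 z (n 0 z (n 0 z (n
 0 z (n 0 z (n 0 z (n 0 z (n 0 z z)))))))))) (n 241 (n 0 z (n 0 z (n 0 z (n 0 z (n 0 z (n 0 z (n
 2 z (n 0 z (n 0 z (n 0 z z)))))))))) z)))))) (n 0 (n 0 z (n 245 (n 0 z (n 0 z (n 0 z (n 0 z (n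
 0 z (n 0 z (n 0 z (n 0 z (n 0 z (n 0 z (n 0 z (n 0 z (n 0 z (n 0 z (n 0 z (n 0 z (n 0 z (n 0 z
 (n 0 z (n 0 z (n 0 z (n 0 z (n 0 z (n 0 z (n 0 z (n 0 z (n 0 z (n 0 z (n 0 z (n 0 z (n 0 z (n 0
 z (n 0 z (n 0 z (n 0 z (n 0 z (n 0 z (n 0 z (n 0 z (n 0 z (n 0 z (n 0 z (n 0 z (n 0 z (n 0 z (n
 0 z (n 0 z (n 0 z (n 0 z (n 0 z (n 0 z (n 0 z (n 0 z (n 0 z (n 0 z (n 0 z
 z)))))))))))))))))))))))))))))))))))))))))))))))))))))))) (n 245 (n 0 z (n 0 z (n 0 z (n 0 z (n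
 0 z (n 0 z (n 0 z (n 0 z (n 0 z (n 0 z (n 0 z (n 0 z (n 0 z (n 0 z (n 0 z (n 0 z (n 0 z (n 0 z
 (n 0 z (n 0 z (n 0 z (n 0 z (n 0 z (n 0 z (n 0 z (n 0 z (n 0 z (n 0 z (n 0 z (n 0 z (n 0 z (n 0
 z (n 0 z (n 0 z (n 0 z (n 0 z (n 0 z (n 0 z (n 0 z (n 0 z (n 0 z (n 0 z (n 0 z (n 2 (n 0 z (n 0
 z z)) (n 0 z (n 0 z (n 0 z (n 0 z (n 0 z (n 0 z (n 0 z (n 0 z (n 0 z (n 0 z (n 0 z (n 0 z
 z)))))))))))))))))))))))))))))))))))))))))))))))))))))))) (n 245 (n 0 z (n 0 z (n 0 z (n 0 z (n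
 0 z (n 0 z (n 0 z (n 0 z (n 0 z (n 0 z (n 0 z (n 0 z (n 0 z (n 0 z (n 0 z (n 0 z (n 0 z (n 0 z
 (n 0 z (n 0 z (n 0 z (n 0 z (n 0 z (n 0 z (n 0 z (n 0 z (n 0 z (n 0 z (n 0 z (n 0 z (n 0 z (n 0
 z (n 0 z (n 0 z (n 0 z (n 0 z (n 0 z (n 0 z (n 0 z (n 0 z (n 0 z (n 0 z (n 0 z (n 0 z (n 0 z (n
 0 z (n 0 z (n 0 z (n 0 z (n 0 z (n 0 z (n 0 z (n 0 z (n 0 z (n 0 z (n 0 z
 z)))))))))))))))))))))))))))))))))))))))))))))))))))))))) (n 245 (n 0 z (n 0 z (n 0 z (n 0 z (n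
 0 z (n 0 z (n 0 z (n 0 z (n 0 z (n 0 z (n 0 z (n 0 z (n 0 z (n 0 z (n 0 z (n 0 z (n 0 z (n 0 z
 (n 0 z (n 0 z (n 0 z (n 0 z (n 0 z (n 0 z (n 0 z (n 0 z (n 0 z (n 0 z (n 0 z (n 0 z (n 0 z (n 0
 z (n 0 z (n 0 z (n 0 z (n 0 z (n 0 z (n 0 z (n 0 z (n 0 z (n 0 z (n 0 z (n 0 z (n 0 z (n 0 z (n
 0 z (n 0 z (n 0 z (n 2 z (n 0 z (n 0 z (n 0 z (n 0 z (n 0 z (n 0 z (n 0 z
 z)))))))))))))))))))))))))))))))))))))))))))))))))))))))) z))))) (n 0 (n 293 (n 2 (n 0 z (n 0 z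
 (n 0 z z))) (n 0 z (n 0 z (n 0 z (n 0 z (n 0 z (n 0 z (n 0 z (n 0 z (n 0 z (n 0 z (n 0 z (n 0 z
 (n 0 z (n 0 z (n 0 z (n 0 z (n 0 z (n 0 z (n 0 z (n 0 z (n 0 z (n 0 z (n 0 z (n 0 z
 z))))))))))))))))))))))))) (n 293 (n 0 z (n 0 z (n 0 z (n 0 z (n 0 z (n 0 z (n 0 z (n 0 z (n 0
 z (n 0 z (n 0 z (n 0 z (n 0 z (n 0 z (n 0 z (n 0 z (n 0 z (n 0 z (n 0 z (n 0 z (n 0 z (n 0 z (n
 0 z (n 0 z (n 0 z z))))))))))))))))))))))))) (n 293 (n 0 z (n 0 z (n 0 z (n 0 z (n 0 z (n 0 z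
 (n 0 z (n 2 (n 0 z z) (n 0 z (n 0 z (n 0 z (n 0 z (n 0 z (n 0 z (n 0 z (n 0 z (n 0 z (n 0 z (n
 0 z (n 0 z (n 0 z (n 0 z (n 0 z (n 0 z (n 0 z z))))))))))))))))))))))))) (n 293 (n 0 z (n 0 z
 (n 0 z (n 0 z (n 0 z (n 0 z (n 0 z (n 0 z (n 0 z (n 0 z (n 0 z (n 0 z (n 0 z (n 0 z (n 0 z (n 0
 z (n 0 z (n 0 z (n 0 z (n 2 z (n 0 z (n 0 z (n 0 z (n 0 z (n 0 z z)))))))))))))))))))))))))
 z)))) (n 0 (n 0 z (n 0 z (n 0 z z))) (n 0 (n 0 z (n 0 z z)) (n 0 (n 0 z z) (n 0 z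
 z))))))))))))) (n 0 (n 1 (n 1228 z (n 2 z (n 1228 z (n 1228 z (n 1228 z (n 1228 z z)))))) (n 0
 z (n 1 (n 6496339 z (n 6496339 z (n 6496339 z (n 6496339 z (n 6496339 z (n 6496339 z z)))))) (n
 0 z z)))) (n 0 (n 0x6266a583629d6c66a46cc1726e6621 (n 0 (n 0 (n 7741459 z (n 7741459 z (n
 7741459 z (n 7741459 z (n 7741459 z (n 7741459 z z)))))) z) (n 0 (n 153 (n 0 z (n 1 (n 7741459
 z (n 7741459 z (n 7741459 z (n 7741459 z (n 7741459 z (n 7741459 z z)))))) (n 0 z (n 0 z (n 0 z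
 (n 0 z (n 1 (n 7741459 z (n 7741459 z (n 7741459 z (n 7741459 z (n 7741459 z (n 7741459 z
 z)))))) (n 0 z z)))))))) (n 33 (n 1 (n 7754507 z (n 7754507 z (n 7754507 z (n 7754507 z (n
 7754507 z (n 7754507 z z)))))) (n 0 z (n 1 (n 1676 z (n 1676 z (n 2 z (n 7542283 z (n 1676 z (n
 1676 z z)))))) (n 0 z (n 1 (n 7672331 z (n 7672331 z (n 7672331 z (n 7672331 z (n 7672331 z (n
 7672331 z z)))))) (n 0 z (n 0 z z))))))) (n 325 (n 1 (n 7741459 z (n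
 0x155c40e8e20437108209dd99aa627dd71b7e4b9c4aa80bbe2b8e8d57967595ef87c6278a2d565cc9699696117f000c1
 z (n 2572 z (n 2572 z (n 2572 z (n 2572 z z)))))) (n 1 (n 7741459 z (n 2572 z (n 2572 z (n
 7746587 z (n 2572 z (n 2572 z z)))))) (n 1 (n 7741459 z (n 2572 z (n 2572 z (n 6358875 z (n 10
 z (n 2572 z z)))))) (n 1 (n 7741459 z (n 7542283 z (n 7542283 z (n 7542283 z (n 7542283 z (n
 7542283 z z)))))) (n 1 (n 7741459 z (n 7542283 z (n 7542283 z (n 7542283 z (n 7542283 z (n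
 7542283 z z)))))) (n 1 (n 7741459 z (n 2572 z (n 76 z (n 2572 z (n 2572 z (n 2572 z z)))))) (n
 1 (n 7741459 z (n 2572 z (n 2572 z (n 76 z (n 2572 z (n 2572 z z)))))) (n 1 (n 7741459 z (n
 2572 z (n 2572 z (n 76 z (n 2572 z (n 2572 z z)))))) (n 1 (n 7741459 z (n 7544915 z (n 7544915
 z (n 7544915 z (n 7544915 z (n 7544915 z z)))))) (n 1 (n 7741459 z (n 7544915 z (n 7544915 z (n
 7544915 z (n 7544915 z (n 7544915 z z)))))) (n 1 (n 7741459 z (n 7544915 z (n 7544915 z (n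
 7544915 z (n 7544915 z (n 7544915 z z)))))) z))))))))))) (n 123 (n 1 (n 7741459 z (n 7741459 z
 (n 7741459 z (n 7741459 z (n 7741459 z (n 7741459 z z)))))) (n 0 z (n 1 (n 7544915 z (n 7544915
 z (n 7544915 z (n 7544915 z (n 7544915 z (n 7544915 z z)))))) (n 0 z z)))) (n 1 (n 1 (n 2164555
 z (n 2164555 z (n 2164555 z (n 7542283 z (n 2164555 z (n 2164555 z z)))))) (n 1 (n 7741459 z (n
 7741459 z (n 7741459 z (n 7741459 z (n 7741459 z (n 7741459 z z)))))) (n 0 z (n 0 z (n 1 (n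
 1612 z (n 1612 z (n 18 z (n 7542283 z (n 1612 z (n 1612 z z)))))) z))))) (n 647 (n 1 (n 7741459
 z (n 7741459 z (n 7741459 z (n 7741459 z (n 7741459 z (n 7741459 z z)))))) (n 1 (n 7672331 z (n
 5724 z (n 26 z (n 7542283 z (n 5724 z (n 7754507 z z)))))) (n 1 (n 7741459 z (n 7741459 z (n
 7741459 z (n 7741459 z (n 7741459 z (n 7741459 z z)))))) (n 1 (n 5724 z (n 7672331 z (n 5724 z
 (n 5724 z (n 7542283 z (n 7754507 z z)))))) (n 1 (n 7741459 z (n 7741459 z (n 7741459 z (n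
 7741459 z (n 7741459 z (n 7741459 z z)))))) (n 1 (n 5724 z (n 5724 z (n 7672331 z (n 34 z (n
 5724 z (n 7754507 z z)))))) (n 1 (n 7542283 z (n 5724 z (n 5724 z (n 7672331 z (n 5724 z (n
 5724 z z)))))) (n 1 (n 5724 z (n 7754507 z (n 5724 z (n 1772 z (n 5724 z (n 7672331 z z))))))
 (n 1 (n 3282779 z (n 3282779 z (n 7542283 z (n 3282779 z (n 3282779 z (n 7672331 z z)))))) (n 0
 z z)))))))))) (n 123 (n 1 (n 7741459 z (n 7741459 z (n 7741459 z (n 7741459 z (n 7741459 z (n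
 7741459 z z)))))) (n 0 z (n 1 (n 7544915 z (n 7544915 z (n 7544915 z (n 7544915 z (n 7544915 z
 (n 7544915 z z)))))) (n 0 z z)))) z))))))) (n 0 (n 0 (n 0 z (n 0 z (n 0 z (n 0 z (n 0 z z)))))
 (n 0 (n 0 z (n 0 z (n 0 z (n 0 z z)))) (n 0 (n 0 z (n 0 z (n 0 z z))) (n 0 (n 0 z (n 0 z z)) (n
 0 (n 0 z z) z))))) (n 0 (n 209 (n 0 (n 0 z (n 0 z (n 0 z (n 0 z (n 0 z z))))) (n 0 (n 0 z (n 0
 z (n 0 z (n 0 z (n 0 z z))))) (n 0 (n 0 z (n 0 z (n 0 z (n 0 z (n 0 z z))))) (n 0 (n 0 z (n 0 z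
 (n 0 z (n 0 z (n 0 z z))))) (n 0 (n 0 z (n 0 z (n 0 z (n 0 z (n 0 z z))))) (n 0 (n 0 z (n 0 z
 (n 0 z (n 0 z (n 0 z z))))) (n 0 (n 0 z (n 0 z (n 0 z (n 0 z (n 0 z z))))) (n 0 (n 0 z (n 0 z
 (n 0 z (n 0 z (n 0 z z))))) (n 0 (n 0 z (n 0 z (n 0 z (n 0 z (n 0 z z))))) (n 0 (n 0 z (n 0 (n
 0x2b0e81c87482085f8608608208208218208207e082086081f89f82086186181e7e089e8618208608208600081 z
 z) (n 0 z (n 0 z (n 0 z z))))) (n 0 (n 0 z (n 0 z (n 0 z (n 0 z (n 0 z z))))) (n 0 (n 0 z (n 0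
 z (n 0 z (n 0 z (n 0 z z))))) (n 0 (n 0 z (n 0 z (n 0 z (n 0 z (n 0 z z))))) (n 0 (n 0 (n
 0x30a70a640382279f82181f81f85e8217df7e07e081f8218608207df82182081f82082082082085f8208600801 z
 z) (n 0 (n
 0x30a70a640382279f82181f81f85e8217df7e07e081f8218608207df82182081f82082082082085f8208600801 z
 (n 8783707 z z)) (n 0 (n
 0x30a70a640382279f82181f81f85e8217df7e07e081f8218608207df82182081f82082082082085f8208600801 z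
 z) (n 0 z (n 0 z z))))) (n 0 (n 0 z (n 0 z (n 0 z (n 0 z (n 0 z z))))) (n 0 (n 0 z (n 0 z (n 0
 z (n 0 z (n 0 z z))))) z)))))))))))))))) (n 321 (n 0 (n 0 z (n 0 z (n 0 z (n 0 z (n 0 z z)))))
 (n 0 (n 0 z (n 0 (n 8790035 z z) (n 0 z (n 0 z (n 0 z z))))) (n 0 (n 0 z (n 0 z (n 0 z (n 0 z
 (n 0 z z))))) (n 0 (n 0 z (n 0 z (n 0 z (n 0 z (n 0 z z))))) (n 0 (n 0 z (n 0 z (n 0 z (n 0 z
 (n 0 z z))))) (n 0 (n 0 z (n 0 z (n 0 z (n 0 z (n 0 z z))))) (n 0 (n 0 z (n 0 z (n 0 z (n 0 z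
 (n 0 z z))))) (n 0 (n 0 z (n 0 z (n 0 z (n 0 z (n 0 z z))))) (n 0 (n 0 z (n 0 z (n 0 z (n 0 z
 (n 0 z z))))) (n 0 (n 0 z (n 0 z (n 0 z (n 0 z (n 0 z z))))) (n 0 (n 0 z (n 0 (n 8790035 z (n
 8790035 z z)) (n 0 z (n 0 z (n 0 z z))))) (n 0 (n 0 z (n 0 z (n 0 z (n 0 z (n 0 z z)))))
 z)))))))))))) (n 325 (n 0 (n 0 z (n 0 z (n 0 z (n 0 z (n 0 (n
 0x136180f90c05386082099d99aaa27dd71b7e4b9c4aa7cbc22bce8d579575a5ef8bb626862d9754c96892965183000c1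
 z z) z))))) (n 0 (n 0 z (n 0 z (n 0 z (n 0 z (n 0 z z))))) (n 0 (n 0 z (n 0 z (n 0 z (n 0 z (n
 0 z z))))) (n 0 (n 0 z (n 0 z (n 0 z (n 0 z (n 0 z z))))) (n 0 (n 0 (n 8590859 z z) (n 0 z (n 0
 (n 8590859 z z) (n 0 z (n 0 z z))))) (n 0 (n 0 z (n 0 z (n 0 z (n 0 z (n 0 z z))))) (n 0 (n 0 z
 (n 0 z (n 0 z (n 0 z (n 0 z z))))) (n 0 (n 0 z (n 0 (n
 0x70a70a600795c8e5b196247a47277a05df7217e3aed90f86665fa6156586c762adac5b5ca9afa2b65576d0801 z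
 (n 7616619 z z)) (n 0 (n
 0x30a4ea060381f82182182082086182086081f86082081f8218208208208208208208208208208208208200801 z
 z) (n 0 z (n 0 z z))))) (n 0 (n 0 z (n 0 (n 8593491 z (n 8593491 z z)) (n 0 z (n 0 z (n 0 z
 z))))) (n 0 (n 0 z (n 0 (n 8593491 z z) (n 0 z (n 0 z (n 0 z z))))) (n 0 (n 0 z (n 0 z (n 0 z
 (n 0 z (n 0 z z))))) z))))))))))) (n 399 (n 0 (n 0 z (n 0 z (n 0 z (n 0 z (n 0 z z))))) (n 0 (n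
 0 z (n 0 z (n 0 z (n 0 z (n 0 z z))))) (n 0 (n 0 z (n 0 z (n 0 z (n 0 z (n 0 z z))))) (n 0 (n 0
 z (n 0 (n 8795163 z (n 8795163 z z)) (n 0 (n 8795163 z z) (n 0 z (n 0 z z))))) (n 0 (n 0 z (n 0
 (n 6428731 z (n 6428731 z z)) (n 0 z (n 0 z (n 0 (n 6428731 z z) z))))) (n 0 (n 0 z (n 0 z (n 0
 z (n 0 z (n 0 z z))))) (n 0 (n 0 z (n 0 z (n 0 z (n 0 z (n 0 z z))))) (n 0 (n 0 z (n 0 z (n 0 z
 (n 0 z (n 0 z z))))) (n 0 (n 0 z (n 0 z (n 0 z (n 0 z (n 0 z z))))) (n 0 (n 0 z (n 0 z (n 0 z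
 (n 0 z (n 0 z z))))) z)))))))))) (n 571 (n 0 (n 0 z (n 0 z (n 0 z (n 0 z (n 0 z z))))) (n 0 (n
 0 z (n 0 (n 8593491 z z) (n 0 z (n 0 z (n 0 z z))))) (n 0 (n 0 z (n 0 z (n 0 z (n 0 z (n 0 (n
 8868451 z (n 8868451 z z)) z))))) (n 0 (n 0 z (n 0 z (n 0 z (n 0 z (n 0 z z))))) (n 0 (n 0 z (n
 0 (n 8590859 z (n 8590859 z z)) (n 0 z (n 0 z (n 0 (n 8590859 z z) z))))) (n 0 (n 0 z (n 0 z (n
 0 z (n 0 z (n 0 z z))))) (n 0 (n 0 z (n 0 (n 8593491 z (n 8593491 z z)) (n 0 z (n 0 z (n 0 z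
 z))))) (n 0 (n 0 z (n 0 (n
 0xa482082857f80938b78879b817e887f7b8a557878817b8b868f788396979873959c8c82737d66837a5f80687d4a808d898c878d7c0049
 z (n 8795947 z z)) (n 0 z (n 0 z (n 0 z z))))) (n 0 (n 0 z (n 0 z (n 0 (n 8593491 z z) (n 0 z
 (n 0 z z))))) z))))))))) (n 171 (n 0 (n 0 z (n 0 z (n 0 z (n 0 z (n 0 (n
 0xf6040b90203381082095d95b9e27dd75c823add527810b22ad38d779879a66c876665862c586109278a86d482d00c1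
 z z) z))))) (n 0 (n 0 z (n 0 z (n 0 z (n 0 z (n 0 z z))))) (n 0 (n 0 z (n 0 z (n 0 z (n 0 (n
 0x30e30e08078608208208218207e182081f82081f8207e18218217df8608608208208208208207e082081f0801 z
 z) (n 0 z z))))) (n 0 (n 0 z (n 0 z (n 0 z (n 0 z (n 0 z z))))) (n 0 (n 0 z (n 0 z (n 0 z (n 0
 z (n 0 (n 8868451 z (n 8868451 z z)) z))))) (n 0 (n 0 z (n 0 z (n 0 z (n 0 z (n 0 z z))))) (n 0
 (n 0 z (n 0 z (n 0 z (n 0 z (n 0 z z))))) (n 0 (n 0 z (n 0 (n 8593491 z (n 8593491 z z)) (n 0 z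
 (n 0 z (n 0 z z))))) (n 0 (n 0 z (n 0 (n 8593491 z z) (n 0 z (n 0 z (n 0 z z))))) (n 0 (n 0 z
 (n 0 z (n 0 z (n 0 (n 8790035 z z) (n 0 z z))))) (n 0 (n 0 z (n 0 z (n 0 z (n 0 z (n 0 z z)))))
 z))))))))))) (n 201 (n 0 (n 0 (n 8790035 z z) (n 0 (n 8790035 z (n 8790035 z z)) (n 0 (n
 8790035 z z) (n 0 z (n 0 z z))))) (n 0 (n 0 z (n 0 (n 8783707 z (n
 0x4ea50a060381e82085f7e07e08638208217df8e08208208217e17e181f86082181f8218208207e07e08200801 z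
 z)) (n 0 (n
 0x30a6ea640785f85f8618208208218218208208207df8208208608208208218607df8618208208208208200801 z
 z) (n 0 z (n 0 z z))))) (n 0 (n 0 z (n 0 (n 5380171 z (n 5380171 z z)) (n 0 z (n 0 z (n 0 (n
 5380171 z z) z))))) (n 0 (n 0 z (n 0 z (n 0 z (n 0 (n 3283019 z z) (n 0 z z))))) (n 0 (n 0 z (n
 0 (n 5380171 z (n 5380171 z z)) (n 0 z (n 0 z (n 0 z z))))) (n 0 (n 0 z (n 0 z (n 0 z (n 0 z (n
 0 z z))))) (n 0 (n 0 z (n 0 z (n 0 z (n 0 z (n 0 z z))))) (n 0 (n 0 z (n 0 z (n 0 z (n 0 z (n 0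
 z z))))) (n 0 (n 0 z (n 0 z (n 0 z (n 0 z (n 0 z z))))) (n 0 (n 0 (n 8790035 z z) (n 0 (n
 8790035 z (n 8790035 z z)) (n 0 (n 8790035 z z) (n 0 z (n 0 z z))))) (n 0 (n 0 z (n 0 z (n 0 z
 (n 0 z (n 0 (n 8790035 z z) z))))) (n 0 (n 0 z (n 0 (n 8593491 z (n 8593491 z z)) (n 0 z (n 0 z
 (n 0 z z))))) (n 0 (n 0 z (n 0 (n 8790035 z z) (n 0 z (n 0 z (n 0 z z))))) (n 0 (n 0 z (n 0 z
 (n 0 z (n 0 z (n 0 z z))))) z)))))))))))))) (n 39 (n 0 (n 0 z (n 0 (n 3278923 z (n 3278923 z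
 z)) (n 0 z (n 0 z (n 0 z z))))) (n 0 (n 0 z (n 0 z (n 0 z (n 0 z (n 0 z z))))) (n 0 (n 0 z (n 0
 z (n 0 z (n 0 z (n 0 z z))))) (n 0 (n 0 z (n 0 z (n 0 z (n 0 z (n 0 (n
 0xf0a70a0407837d80777d798a7a7e806e75889a7cab84846f7a60769473836f7a73778e7879919581876c8fa377a9a59770453d6fa75c6a0809
 z z) z))))) (n 0 (n 0 z (n 0 z (n 0 z (n 0 z (n 0 z z))))) (n 0 (n 0 z (n 0 (n 8590859 z (n
 8590859 z z)) (n 0 (n 8590859 z z) (n 0 z (n 0 z z))))) (n 0 (n 0 z (n 0 z (n 0 z (n 0 z (n 0 z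
 z))))) z))))))) (n 195 (n 0 (n 0 (n
 0x1960404a4080538108080877c88798b827f7c7b7a7f85917b6e8c7f669382936a85737d737d78759382a3758882829b747467868a858b786d809400c9
 z z) (n 0 (n
 0x136040e90204b81082099d99aa617dc71b7e3b5d4a980bbe2bcf9157957595ef8bb626862d9758c96892a69183000c1
 z (n
 0xf6040b90203381082095d95ba2181d75c823add567810b21ad28d779879b62c8766a5862c986109278e76d47ec00c1
 z z)) (n 0 (n
 0x136040e90204b81082099c9daaa17dd71b7e4b9c46980cbe2bce9157957595ee8bc627862d5758c96892969082f00c1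
 z z) (n 0 z (n 0 z z))))) (n 0 (n 0 z (n 0 z (n 0 z (n 0 z (n 0 z z))))) (n 0 (n 0 z (n 0 z (n
 0 z (n 0 z (n 0 z z))))) (n 0 (n 0 z (n 0 z (n 0 z (n 0 z (n 0 z z))))) (n 0 (n 0 z (n 0 z (n 0
 z (n 0 z (n 0 z z))))) (n 0 (n 0 z (n 0 z (n 0 z (n 0 z (n 0 z z))))) (n 0 (n 0 (n
 0x30a4ea060381f82182182082086182086081f86082081f8218208208208208208208208208208208208200801 z
 z) (n 0 z (n 0 (n
 0x30a4ea060381f82182182082086182086081f86082081f8218208208208208208208208208208208208200801 z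
 z) (n 0 z (n 0 z z))))) (n 0 (n 0 z (n 0 (n 8868451 z (n 8868451 z z)) (n 0 z (n 0 z (n 0 (n
 8868451 z z) z))))) (n 0 (n 0 z (n 0 z (n 0 z (n 0 z (n 0 (n 8790035 z z) z))))) (n 0 (n 0 z (n
 0 (n 8593491 z (n 8593491 z z)) (n 0 z (n 0 z (n 0 z z))))) (n 0 (n 0 z (n 0 (n 8593491 z (n
 8593491 z z)) (n 0 z (n 0 z (n 0 z z))))) (n 0 (n 0 z (n 0 (n 8593491 z z) (n 0 z (n 0 z (n 0 z
 z))))) (n 0 (n 0 z (n 0 z (n 0 z (n 0 z (n 0 z z))))) (n 0 (n 0 z (n 0 z (n 0 z (n 0 z (n 0 z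
 z))))) z)))))))))))))) (n 123 (n 0 (n 0 z (n 0 (n 2164811 z (n 2164811 z z)) (n 0 z (n 0 z (n 0
 z z))))) (n 0 (n 0 z (n 0 z (n 0 z (n 0 (n
 0x136040e90204381082099c99aa617dd71b7e4b5c4a980cc21bcf9157967585ef8bb6278a2d9658c96996a6517f000c1
 z z) (n 0 z z))))) (n 0 (n 0 z (n 0 z (n 0 z (n 0 z (n 0 z z))))) (n 0 (n 0 z (n 0 z (n 0 z (n
 0 z (n 0 z z))))) (n 0 (n 0 z (n 0 (n 7407707 z (n 7754115 z z)) (n 0 z (n 0 z (n 0 z z))))) (n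
 0 (n 0 z (n 0 z (n 0 z (n 0 z (n 0 z z))))) (n 0 (n 0 z (n 0 z (n 0 z (n 0 z (n 0 z z))))) (n 0
 (n 0 z (n 0 (n 8593491 z (n 8593491 z z)) (n 0 z (n 0 z (n 0 z z))))) (n 0 (n 0 z (n 0 z (n 0 z
 (n 0 z (n 0 z z))))) (n 0 (n 0 (n 8593491 z z) (n 0 z (n 0 z (n 0 z (n 0 z z))))) (n 0 (n 0 z
 (n 0 z (n 0 z (n 0 z (n 0 z z))))) (n 0 (n 0 (n 8593491 z (n 8593491 z z)) (n 0 z (n 0 z (n 0 z
 (n 0 z z))))) (n 0 (n 0 (n 8593491 z z) (n 0 (n 8593491 z (n 8593491 z z)) (n 0 z (n 0 z (n 0 z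
 z))))) z))))))))))))) (n 647 (n 0 (n 0 z (n 0 (n 8790035 z z) (n 0 z (n 0 z (n 0 z z))))) (n 0
 (n 0 z (n 0 z (n 0 z (n 0 z (n 0 z z))))) (n 0 (n 0 z (n 0 z (n 0 z (n 0 z (n 0 z z))))) (n 0
 (n 0 z (n 0 (n
 0x258748217a08628608607e281f7de82181f7de7e17e391e7dd8618208228218618218207df81f7df0041 z (n
 0x30e90e260382081f8608208208208218208208208208208208208208208208208208208208208208208200801 z
 z)) (n 0 z (n 0 z (n 0 z z))))) (n 0 (n 0 z (n 0 z (n 0 z (n 0 z (n 0 z z))))) (n 0 (n 0 z (n 0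
 z (n 0 z (n 0 z (n 0 z z))))) (n 0 (n 0 z (n 0 (n
 0x2b0e81c87482085f8608608208208218208207e082086081f89f82086186181e7e089e8618208608208600081 z
 z) (n 0 z (n 0 z (n 0 z z))))) (n 0 (n 0 z (n 0 z (n 0 z (n 0 z (n 0 z z))))) (n 0 (n 0 z (n 0
 z (n 0 z (n 0 z (n 0 z z))))) (n 0 (n 0 z (n 0 (n 0xec50a06030821 z (n 8795947 z z)) (n 0 z (n
 0 z (n 0 z z))))) z)))))))))) (n 715 (n 0 (n 0 z (n 0 z (n 0 z (n 0 z (n 0 z z))))) (n 0 (n 0 z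
 (n 0 z (n 0 z (n 0 z (n 0 z z))))) (n 0 (n 0 z (n 0 (n 8720907 z z) (n 0 z (n 0 z (n 0 z z)))))
 (n 0 (n 0 (n
 0x4ec70a64038218217e185f82081f82181f8207e181f82182082089f86182081f82081f8608208208218600801 z
 (n 8726379 z z)) (n 0 z (n 0 (n
 0x2ec70a640382182082085f8607df8218208207e081f82081f82086082181f8208208208608208218208600801 z
 (n 0x4ec90a460785f7e18627df82085f7df81e7e081f7e07e082082181e8618217e082186086086081f8208200801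
 z z)) (n 0 z (n 0 z z))))) (n 0 (n 0 z (n 0 z (n 0 z (n 0 z (n 0 z z))))) (n 0 (n 0 z (n 0 (n
 0x30e90e600785f82182082081f7e281f8608608208208207e17e081f8608207e08218208208208207e08200801 z
 z) (n 0 z (n 0 z (n 0 z z))))) (n 0 (n 0 z (n 0 z (n 0 z (n 0 z (n 0 z z))))) (n 0 (n 0 z (n 0
 (n 8803083 z z) (n 0 z (n 0 z (n 0 z z))))) (n 0 (n 0 z (n 0 (n 8868451 z z) (n 0 z (n 0 z (n 0
 z z))))) (n 0 (n 0 z (n 0 z (n 0 z (n 0 z (n 0 z z))))) (n 0 (n 0 z (n 0 z (n 0 (n 8720907 z (n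
 8720907 z z)) (n 0 z (n 0 z z))))) (n 0 (n 0 z (n 0 z (n 0 z (n 0 (n
 0x50e90e80037e375e82179f8608607e089f7df81f7e082181f7e081e86082182086081f86182085f7e08610801 z
 z) (n 0 z z))))) (n 0 (n 0 z (n 0 z (n 0 z (n 0 z (n 0 z z))))) (n 0 (n 0 z (n 0 z (n 0 z (n 0
 z (n 0 z z))))) (n 0 (n 0 z (n 0 z (n 0 z (n 0 (n 8720907 z (n 8720907 z z)) (n 0 z z))))) (n 0
 (n 0 z (n 0 z (n 0 z (n 0 z (n 0 z z))))) (n 0 (n 0 z (n 0 z (n 0 z (n 0 (n 8590859 z (n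
 8590859 z z)) (n 0 z z))))) (n 0 (n 0 z (n 0 z (n 0 z (n 0 z (n 0 z z))))) (n 0 (n 0 z (n 0 (n
 0xd487082867f81998d7688a2817e8a7f7a8d4a7777827a8e879277839b9d9d709ba38f826f7d5f8479567f617c3c81908b8f89907b0049
 z (n 8734571 z z)) (n 0 z (n 0 z (n 0 (n
 0x30e90e460785f85f8a082082081f8208207e082082082081f8608608218208607e08618208208208208200801 z
 z) z))))) (n 0 (n 0 z (n 0 z (n 0 z (n 0 z (n 0 z z))))) (n 0 (n 0 z (n 0 z (n 0 z (n 0 z (n 0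
 z z))))) (n 0 (n 0 z (n 0 z (n 0 z (n 0 z (n 0 (n
 0x258738217a08628608607e281f7de82181f7de7e17e391e7dd8618208228218618218207df81f7df0041 z (n
 0x30e908640385f85f8618208208208218207df8217df82081f8608608218208607df8618208208208208200801 z
 z)) z))))) (n 0 (n 0 z (n 0 z (n 0 z (n 0 (n
 0x30e8e846078208218208208207e18608207e07e08208608208208608218208208208607e08208208208200801 z
 z) (n 0 (n
 0x30a686040382081f86081f82181f82081f8208607df82081f8617df8618218207e08608607e082082081f0801 z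
 z) z))))) (n 0 (n 0 z (n 0 z (n 0 z (n 0 z (n 0 z z))))) (n 0 (n 0 z (n 0 z (n 0 z (n 0 z (n 0
 z z))))) (n 0 (n 0 z (n 0 z (n 0 (n 8803083 z z) (n 0 z (n 0 z z))))) (n 0 (n 0 z (n 0 (n
 8803083 z (n 8803083 z z)) (n 0 z (n 0 z (n 0 z z))))) (n 0 (n 0 z (n 0 z (n 0 z (n 0 (n
 8803083 z z) (n 0 z z))))) (n 0 (n 0 z (n 0 z (n 0 z (n 0 z (n 0 z z))))) (n 0 (n 0 z (n 0 z (n
 0 z (n 0 z (n 0 z z))))) (n 0 (n 0 z (n 0 z (n 0 z (n 0 z (n 0 z z))))) (n 0 (n 0 z (n 0 z (n 0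
 z (n 0 z (n 0 z z))))) (n 0 (n 0 z (n 0 z (n 0 z (n 0 z (n 0 z z))))) (n 0 (n 0 z (n 0 (n
 7750531 z (n 7612507 z z)) (n 0 z (n 0 z (n 0 z z))))) (n 0 (n 0 z (n 0 z (n 0 z (n 0 z (n 0 z
 z))))) (n 0 (n 0 z (n 0 z (n 0 z (n 0 z (n 0 z z))))) (n 0 (n 0 z (n 0 z (n 0 z (n 0 z (n 0 z
 z))))) (n 0 (n 0 z (n 0 (n 8734571 z (n 8795947 z z)) (n 0 z (n 0 z (n 0 z z))))) (n 0 (n 0 z
 (n 0 z (n 0 z (n 0 (n
 0x30e8e8460782182082086081f7e08608207e17e08207e08217e082086082081f8208208208208208208200801 z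
 z) (n 0 z z))))) (n 0 (n 0 z (n 0 z (n 0 z (n 0 z (n 0 z z))))) (n 0 (n 0 z (n 0 z (n 0 z (n 0
 z (n 0 z z))))) (n 0 (n 0 z (n 0 (n 8720907 z (n 8720907 z z)) (n 0 z (n 0 z (n 0 z z))))) (n 0
 (n 0 z (n 0 (n 8868451 z (n 8868451 z z)) (n 0 z (n 0 z (n 0 z z))))) (n 0 (n 0 z (n 0 (n
 8868451 z (n 8868451 z z)) (n 0 z (n 0 z (n 0 z z))))) (n 0 (n 0 z (n 0 (n 8868451 z z) (n 0 z
 (n 0 z (n 0 z z))))) (n 0 (n 0 z (n 0 (n 8720907 z z) (n 0 z (n 0 z (n 0 z z)))))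
 z)))))))))))))))))))))))))))))))))))))))))))))) (n 221 (n 0 (n 0 (n 8726379 z z) (n 0 (n
 0x10c83183887e809e91738aaa827e8d7f79903d747481799289967384a3a3a56ba1ac93836b7c5784774b7f5a7c2d81958e928b947a0049
 z (n
 0x6c83181847f808c877b8591817e867f7d86647b7c807d8783897b828e8f8f788d928781787f6f827c6b80717e5e8088868885887d0049
 z z)) (n 0 z (n 0 z (n 0 z z))))) (n 0 (n 0 z (n 0 (n 8734571 z (n
 0x14c843838a7e80a595718db5827d907f76942d71718277968b9b7084abadad67a9b79884667c4c85753f7e507b18829a92968d99790049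
 z z)) (n 0 z (n 0 z (n 0 z z))))) (n 0 (n 0 z (n 0 z (n 0 z (n 0 z (n 0 z z))))) (n 0 (n 0 (n
 8803083 z z) (n 0 z (n 0 (n 8803083 z z) (n 0 z (n 0 z z))))) (n 0 (n 0 z (n 0 z (n 0 z (n 0 z
 (n 0 z z))))) (n 0 (n 0 z (n 0 z (n 0 z (n 0 z (n 0 z z))))) (n 0 (n 0 z (n 0 z (n 0 z (n 0 z
 (n 0 z z))))) (n 0 (n 0 z (n 0 z (n 0 z (n 0 z (n 0 z z))))) (n 0 (n 0 z (n 0 z (n 0 z (n 0 z
 (n 0 z z))))) (n 0 (n 0 z (n 0 z (n 0 z (n 0 z (n 0 z z))))) (n 0 (n 0 z (n 0 z (n 0 z (n 0 z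
 (n 0 z z))))) (n 0 (n 0 z (n 0 z (n 0 z (n 0 z (n 0 z z))))) (n 0 (n 0 z (n 0 z (n 0 z (n 0 z
 (n 0 z z))))) (n 0 (n 0 z (n 0 (n
 0x13587484917d817d9691819281758381859d656a856b66865e9d887e929e8185959e7e866a84814794627f67a63e7291928b7d847f0049
 z (n
 0x3063080e078208208208208207e181f8608208208207e08208208208208208218208208208208208208200801 z
 z)) (n 0 z (n 0 z (n 0 z z))))) (n 0 (n 0 z (n 0 z (n 0 z (n 0 z (n 0 z z))))) (n 0 (n 0 z (n 0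
 z (n 0 z (n 0 (n 8803083 z (n 8803083 z z)) (n 0 z z))))) (n 0 (n 0 (n
 0xd6040890202b8108208dd91d9a17de75d823a5d5e6813aa1a5589979a79c6aa8716e4861b9a6948e48a57167ea00c1
 z z) (n 0 (n
 0x136040e90204381082099d99aa627dd71b7e4b9c4aa7cbbe2bce9157567595ef87b6278a2d5658c9a796965183000c1
 z (n
 0xf6040b90203381082095d95ba2081d75c823add567810b22b128d779779a66c8b6665861c586509268a76d482d00c1
 z z)) (n 0 (n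
 0xd6040990202b81082091d95c9e17de75d823a1d5e6813aa2a558997da79c6aa8716a4861b9a6939258a66d782900c1
 z z) (n 0 z (n 0 z z))))) (n 0 (n 0 z (n 0 z (n 0 z (n 0 z (n 0 z z))))) (n 0 (n 0 z (n 0 (n
 8868451 z (n 8868451 z z)) (n 0 z (n 0 z (n 0 z z))))) (n 0 (n 0 z (n 0 (n
 0x30ed0ec00785f86086082082086082181f8208208208208208208208208608207e08608208207a08208200801 z
 (n
 0x10c87483887f809f91748aaa827e8c7f798f3d757482799188967384a3a3a46ba1ab93836b7c5684764b7f5a7c2d81968d928a95790049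
 z z)) (n 0 z (n 0 z (n 0 z z))))) (n 0 (n 0 (n 8726379 z z) (n 0 z (n 0 z (n 0 z (n 0 z z)))))
 (n 0 (n 0 z (n 0 z (n 0 z (n 0 z (n 0 (n 8790035 z z) z))))) (n 0 (n 0 z (n 0 z (n 0 z (n 0 z
 (n 0 z z))))) (n 0 (n 0 z (n 0 z (n 0 z (n 0 z (n 0 z z))))) (n 0 (n 0 z (n 0 z (n 0 z (n 0 z
 (n 0 z z))))) (n 0 (n 0 (n 8803083 z (n 8803083 z z)) (n 0 z (n 0 z (n 0 z (n 0 z z))))) (n 0
 (n 0 z (n 0 z (n 0 z (n 0 (n 8803083 z (n 8803083 z z)) (n 0 (n 8803083 z (n 8803083 z z))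
 z))))) (n 0 (n 0 z (n 0 z (n 0 z (n 0 z (n 0 (n 8868451 z (n 8868451 z z)) z))))) (n 0 (n 0 z
 (n 0 z (n 0 z (n 0 z (n 0 z z))))) (n 0 (n 0 z (n 0 z (n 0 z (n 0 (n
 0x10e90e820789f8608208208207e082181f82082082082086082181f8608208207e08208608208208208200801 z
 (n 0x30ed0e86037e18208608208208208208208208208208208208208208208208208208208208208208208200801
 z z)) (n 0 z z))))) (n 0 (n 0 z (n 0 (n 8868451 z (n 8868451 z z)) (n 0 z (n 0 z (n 0 (n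
 8868451 z z) z))))) (n 0 (n 0 (n
 0x30e90e80038218208208208208607e18207e082082082082085f8218208208208208208208208208208200801 z
 (n 0x30e90e80038218208618208208607e18207e082082082082085f8217e08208208208208208208208208200801
 z z)) (n 0 z (n 0 z (n 0 z (n 0 z z))))) (n 0 (n 0 z (n 0 z (n 0 z (n 0 z (n 0 (n
 0x50e90e80037a37df7e17e081f81f81f85f7e08df8218207e17df81f85f8a07de81f85e8a18208608218200801 z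
 (n 0x30e70e08038217e082082082082082082082082082082082082082082082082082082082082082081f8210801
 z z)) z))))) (n 0 (n 0 z (n 0 z (n 0 z (n 0 z (n 0 z z))))) (n 0 (n 0 z (n 0 z (n 0 z (n 0 z (n
 0 z z))))) (n 0 (n 0 z (n 0 (n 8803083 z z) (n 0 z (n 0 z (n 0 z z))))) (n 0 (n 0 z (n 0 (n
 0xa386381858088979c6c7f8e81858e73587e3e87638f8ba390738180a1819f8f88868a81827a71817085714c6247acabad81608aa50049
 z (n 8734571 z z)) (n 0 z (n 0 z (n 0 z z))))) (n 0 (n 0 z (n 0 z (n 0 z (n 0 z (n 0 z z)))))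
 (n 0 (n 0 z (n 0 (n
 0x50e70e600786182086182181f7a185f85f7e181f7e07a082282079e8608a07e18208218608207df82081f0801 z
 (n 8734571 z z)) (n 0 z (n 0 z (n 0 z z))))) (n 0 (n 0 z (n 0 (n 8803083 z (n 8803083 z z)) (n
 0 z (n 0 z (n 0 z z))))) (n 0 (n 0 z (n 0 z (n 0 z (n 0 z (n 0 z z))))) (n 0 (n 0 z (n 0 (n
 0x1ed874859b7d817ca19c829d816e848188ac565e896059894bae8d7d9caf8287a1af7c885e8482289f518059bd186a9b9c917b877f0049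
 z (n 8734571 z z)) (n 0 z (n 0 z (n 0 z z))))) (n 0 (n 0 z (n 0 z (n 0 z (n 0 z (n 0 z z)))))
 (n 0 (n 0 z (n 0 z (n 0 z (n 0 z (n 0 z z))))) (n 0 (n 0 z (n 0 (n 7407691 z (n
 0x30e90e260382081f8608208208208218208208208208208208208208208208208208208208208208208200801 z
 z)) (n 0 z (n 0 z (n 0 z z))))) (n 0 (n 0 (n 8726379 z z) (n 0 z (n 0 z (n 0 z (n 0 z z)))))
 z)))))))))))))))))))))))))))))))))))))))))))))) (n 125 (n 0 (n 0 z (n 0 z (n 0 z (n 0 z (n 0 z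
 z))))) (n 0 (n 0 z (n 0 z (n 0 z (n 0 z (n 0 z z))))) (n 0 (n 0 z (n 0 z (n 0 z (n 0 z (n 0 z
 z))))) (n 0 (n 0 z (n 0 z (n 0 z (n 0 z (n 0 z z))))) (n 0 (n 0 z (n 0 (n 8720907 z (n 8720907
 z z)) (n 0 z (n 0 z (n 0 z z))))) (n 0 (n 0 z (n 0 z (n 0 z (n 0 z (n 0 z z))))) (n 0 (n 0 z (n
 0 z (n 0 z (n 0 z (n 0 z z))))) (n 0 (n 0 z (n 0 z (n 0 z (n 0 z (n 0 z z))))) (n 0 (n 0 z (n 0
 z (n 0 z (n 0 z (n 0 z z))))) (n 0 (n 0 z (n 0 z (n 0 z (n 0 z (n 0 z z))))) z)))))))))) (n 124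
 (n 0 (n 0 z (n 0 (n 8734571 z (n 8795947 z z)) (n 0 z (n 0 z (n 0 z z))))) (n 0 (n 0 (n
 0x50a6e624078607e18218217e08218207de82081f8a07e08227e179f8608607a185f82085f8207a07e181f0801 z
 z) (n 0 z (n 0 (n
 0x70a6e624078607e27e18217e08218207de82081f85f7e18627e179f8608a07a181f82085f8207a07e181f0801 z
 z) (n 0 z (n 0 z z))))) (n 0 (n 0 z (n 0 z (n 0 z (n 0 z (n 0 z z))))) (n 0 (n 0 z (n 0 z (n 0
 z (n 0 z (n 0 z z))))) (n 0 (n 0 z (n 0 z (n 0 z (n 0 z (n 0 z z))))) (n 0 (n 0 z (n 0 z (n 0 z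
 (n 0 z (n 0 z z))))) (n 0 (n 0 z (n 0 z (n 0 z (n 0 z (n 0 z z))))) (n 0 (n 0 z (n 0 z (n 0 z
 (n 0 z (n 0 z z))))) (n 0 (n 0 z (n 0 z (n 0 z (n 0 z (n 0 z z))))) (n 0 (n 0 z (n 0 (n
 0x1a481080480d7fe80082f81a7ed8108428037fc8147fe7f48197987ee7ed8037f581c80d8227ec8068368378397e183484581d8057df7fa7bf8067f17ae7fe7c57f977e80282181681c81181f7f60051
 z z) (n 0 z (n 0 z (n 0 z z))))) (n 0 (n 0 z (n 0 z (n 0 z (n 0 z (n 0 z z))))) (n 0 (n 0 z (n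
 0 z (n 0 z (n 0 z (n 0 z z))))) (n 0 (n 0 z (n 0 z (n 0 z (n 0 z (n 0 z z))))) (n 0 (n 0 z (n 0
 z (n 0 z (n 0 (n
 0x258728217a08628608607e281f7de82181f7de7e17e391e7dd8618208228218618218207df81f7df0041 z (n
 0x30630c0e0782085f8608608607de8618207e082181f82081f8608217e182085f8208608207e08208208200801 z
 z)) (n 0 z z))))) (n 0 (n 0 z (n 0 z (n 0 z (n 0 z (n 0 z z))))) (n 0 (n 0 z (n 0 z (n 0 z (n 0
 z (n 0 z z))))) (n 0 (n 0 z (n 0 z (n 0 z (n 0 z (n 0 z z))))) (n 0 (n 0 z (n 0 z (n 0 z (n 0 z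
 (n 0 z z))))) (n 0 (n 0 z (n 0 z (n 0 z (n 0 z (n 0 z z))))) (n 0 (n 0 z (n 0 z (n 0 z (n 0 (n
 8803083 z (n 8803083 z z)) (n 0 z z))))) (n 0 (n 0 z (n 0 z (n 0 z (n 0 (n 8803083 z z) (n 0 z
 z))))) (n 0 (n 0 z (n 0 (n 7538763 z (n 8795947 z z)) (n 0 z (n 0 z (n 0 z z))))) (n 0 (n 0 z
 (n 0 (n
 0x10ed0ec00785f8218208208207e182085f8208208207e08217e281f85f82082182082081f8a07e08208200801 z
 z) (n 0 z (n 0 z (n 0 z z))))) (n 0 (n 0 (n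
 0x96040590201b8108208df8de8e081e79e82295e6a47d79e099985c7dc7dd72686b762861a5c7188a386479982700c1
 z z) (n 0 (n 8734571 z (n
 0x1960404a4080538108080877c88798b827f7c7b7a7f85917b6e8c7f669382936a85737d737d78759382a3758882829b747467868a858b786d809400c9
 z z)) (n 0 z (n 0 z (n 0 z z))))) (n 0 (n 0 z (n 0 z (n 0 z (n 0 z (n 0 z z))))) (n 0 (n 0 z (n
 0 z (n 0 z (n 0 z (n 0 z z))))) (n 0 (n 0 (n
 0x1a487280480d7fe80082f81a7ed8108428037fc8147fe7f48197987ee7ed8037f581c80d8227ec8068368378397e183484581d8057df7fa7bf8067f17ae7fe7c57f977e80282181681c81181f7f60051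
 z (n
 0x30ed0e64038218208208208208207e082182082082082082081f81f8208208208a08208208208208208200801 z
 z)) (n 0 z (n 0 z (n 0 z (n 0 z z))))) (n 0 (n 0 z (n 0 (n
 0x1a487080480d7fe80082f81a7ed8108428037fc8147fe7f48197987ee7ed8037f581c80d8227ec8068368378397e183484581d8057df7fa7bf8067f17ae7fe7c57f977e80282181681c81181f7f60051
 z (n 8795947 z z)) (n 0 z (n 0 z (n 0 z z))))) (n 0 (n 0 (n 8803083 z (n 8803083 z z)) (n 0 z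
 (n 0 z (n 0 z (n 0 z z))))) (n 0 (n 0 (n 8803083 z z) (n 0 z (n 0 z (n 0 z (n 0 z z))))) (n 0
 (n 0 (n 8853035 z z) (n 0 (n
 0x30ed0ec0078de8218217e08207e182181e82081f85f7e17e28227de8a08607a07e085f85f8207df8218200801 z
 (n 7741827 z z)) (n 0 z (n 0 z (n 0 z z))))) (n 0 (n 0 z (n 0 z (n 0 z (n 0 z (n 0 z z))))) (n
 0 (n 0 z (n 0 z (n 0 z (n 0 z (n 0 z z))))) (n 0 (n 0 z (n 0 z (n 0 z (n 0 z (n 0 z z))))) (n 0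
 (n 0 z (n 0 z (n 0 z (n 0 z (n 0 z z))))) (n 0 (n 0 z (n 0 z (n 0 z (n 0 z (n 0 z z))))) (n 0
 (n 0 z (n 0 z (n 0 z (n 0 z (n 0 z z))))) (n 0 (n 0 z (n 0 (n
 0x2ec50a06038608208208208208208208208208208208208208208208208208208208208208208208208200801 z
 (n 8734571 z z)) (n 0 z (n 0 z (n 0 z z))))) (n 0 (n 0 z (n 0 z (n 0 z (n 0 z (n 0 (n
 0x10ed0ec60785f8618207e082082082082082086082082082182182082082082082082082082081e8208200801 z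
 (n 0x30e70e64037e181f82082081f85f82182082082082082082082081f82086082082082085f82081f8208200801
 z z)) z))))) (n 0 (n 0 z (n 0 z (n 0 z (n 0 (n 8720907 z (n 8720907 z z)) (n 0 z z))))) (n 0 (n
 0 (n 8720907 z (n 8720907 z z)) (n 0 z (n 0 z (n 0 z (n 0 z z))))) (n 0 (n 0 z (n 0 z (n 0 z (n
 0 z (n 0 z z))))) (n 0 (n 0 z (n 0 (n
 0x10c82183887f809e91748baa827e8c7f78903d747482799288967384a3a4a46ba1ac93836b7c5784774c7f597c2c81968e928b94790049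
 z (n 8795947 z z)) (n 0 z (n 0 z (n 0 z z))))) (n 0 (n 0 z (n 0 z (n 0 z (n 0 z (n 0 z z)))))
 (n 0 (n 0 z (n 0 z (n 0 z (n 0 z (n 0 z z))))) (n 0 (n 0 z (n 0 z (n 0 z (n 0 (n 8720907 z (n
 8720907 z z)) (n 0 z z))))) (n 0 (n 0 z (n 0 (n 8868451 z (n 8868451 z z)) (n 0 z (n 0 z (n 0 z
 z))))) (n 0 (n 0 z (n 0 (n 8868451 z z) (n 0 z (n 0 z (n 0 z z))))) (n 0 (n 0 z (n 0 z (n 0 z
 (n 0 z (n 0 z z))))) (n 0 (n 0 z (n 0 z (n 0 z (n 0 z (n 0 z z))))) (n 0 (n 0 z (n 0 (n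
 0x30e70e620785f86086082082082082081f8208208208208208617df86086185f7e08618208208208208200801 z
 (n 8795947 z z)) (n 0 z (n 0 z (n 0 z z))))) (n 0 (n 0 z (n 0 (n 7542875 z (n 7741827 z z)) (n
 0 z (n 0 z (n 0 z z))))) (n 0 (n 0 (n 8720907 z (n 8720907 z z)) (n 0 z (n 0 z (n 0 z (n 0 z
 z))))) (n 0 (n 0 (n 8720907 z z) (n 0 (n 8720907 z (n 7544963 z z)) (n 0 z (n 0 z (n 0 z z)))))
 (n 0 (n 0 z (n 0 z (n 0 z (n 0 z (n 0 z z))))) (n 0 (n 0 z (n 0 (n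
 0x1a487680480d7fe80082f81a7ed8108428037fc8147fe7f48197987ee7ed8037f581c80d8227ec8068368378397e183484581d8057df7fa7bf8067f17ae7fe7c57f977e80282181681c81181f7f60051
 z (n 8734571 z z)) (n 0 z (n 0 z (n 0 z z)))))
 z)))))))))))))))))))))))))))))))))))))))))))))))))))))))) (n 153 (n 0 (n 0 z (n 0 z (n 0 z (n 0
 z (n 0 z z))))) (n 0 (n 0 z (n 0 z (n 0 z (n 0 z (n 0 z z))))) (n 0 (n 0 (n
 0x30650e2a078607e082085f8207e082181f82082082082081f82082086182082081f82082082081f8208200801 z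
 z) (n 0 (n
 0x30a70a640382279f82181f81f85e8217df7e07e081f8218608207df82182081f82082082082085f8208600801 z
 (n 7616619 z z)) (n 0 z (n 0 z (n 0 z z))))) (n 0 (n 0 (n
 0x30650e2a078607e082085f8207e082181f82082082082081f82082086182082081f82082082081f8208200801 z
 z) (n 0 z (n 0 (n
 0x30650e2a078607e082085f8207e082181f82082082082081f82082086182082081f82082082081f8208200801 z
 z) (n 0 z (n 0 z z))))) (n 0 (n 0 z (n 0 z (n 0 z (n 0 z (n 0 (n 8790035 z z) z))))) (n 0 (n 0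
 (n 8790035 z z) (n 0 (n 8790035 z (n 8790035 z z)) (n 0 (n 8790035 z z) (n 0 z (n 0 z z))))) (n
 0 (n 0 z (n 0 z (n 0 z (n 0 z (n 0 z z))))) (n 0 (n 0 z (n 0 z (n 0 z (n 0 z (n 0 z z)))))
 z)))))))) (n 33 (n 0 (n 0 z (n 0 z (n 0 z (n 0 z (n 0 z z))))) (n 0 (n 0 z (n 0 z (n 0 z (n 0 z
 (n 0 z z))))) (n 0 (n 0 z (n 0 z (n 0 z (n 0 z (n 0 z z))))) (n 0 (n 0 z (n 0 z (n 0 z (n 0 z
 (n 0 z z))))) (n 0 (n 0 z (n 0 z (n 0 z (n 0 z (n 0 z z))))) (n 0 (n 0 z (n 0 (n 5515291 z z)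
 (n 0 z (n 0 z (n 0 z z))))) (n 0 (n 0 z (n 0 z (n 0 z (n 0 z (n 0 z z))))) z))))))) (n 9 (n 0
 (n 0 z (n 0 (n 8803083 z z) (n 0 z (n 0 z (n 0 z z))))) (n 0 (n 0 (n
 0x1960404a4080538108080877c88798b827f7c7b7a7f85917b6e8c7f669382936a85737d737d78759382a3758882829b747467868a858b786d809400c9
 z z) (n 0 (n
 0x156040e90204381082099d99aa617dc71b7e4b9d4aa7cbbe2b8f8d57967595ef8bb627862d5658c9a892869183000c1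
 z (n
 0x1960404a4080538108080877c88798b827f7c7b7a7f85917b6e8c7f669382936a85737d737d78759382a3758882829b747467868a858b786d809400c9
 z z)) (n 0 (n
 0xb6040990202b81082091f91c9617de79d823a5e5e67d3aa1a5589979a7dc6a98716e4861b9a6939258666d67ea00c1
 z z) (n 0 z (n 0 z z))))) (n 0 (n 0 z (n 0 z (n 0 z (n 0 (n 8795163 z z) (n 0 z z))))) (n 0 (n
 0 z (n 0 z (n 0 z (n 0 z (n 0 z z))))) (n 0 (n 0 z (n 0 (n 3213435 z (n 3213435 z z)) (n 0 z (n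
 0 z (n 0 z z))))) (n 0 (n 0 z (n 0 z (n 0 z (n 0 z (n 0 z z))))) (n 0 (n 0 z (n 0 z (n 0 z (n 0
 z (n 0 (n 8790035 z z) z))))) (n 0 (n 0 (n 8795995 z z) (n 0 (n
 0x18d87384957d817d9b9781968172838186a35e658767618856a58a7e96a682869aa57e8764838239995b8060b12c6f96978e7c867f0049
 z (n 7608411 z z)) (n 0 z (n 0 z (n 0 z z))))) (n 0 (n 0 z (n 0 z (n 0 z (n 0 z (n 0 z z)))))
 (n 0 (n 0 z (n 0 z (n 0 z (n 0 (n 8593491 z z) (n 0 z z))))) (n 0 (n 0 z (n 0 z (n 0 z (n 0 z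
 (n 0 z z))))) (n 0 (n 0 (n 8790035 z z) (n 0 (n 8790035 z (n 8790035 z z)) (n 0 z (n 0 z (n 0 z
 z))))) (n 0 (n 0 z (n 0 (n 8593491 z z) (n 0 z (n 0 z (n 0 z z))))) z))))))))))))) (n 123 (n 0
 (n 0 z (n 0 z (n 0 z (n 0 z (n 0 z z))))) (n 0 (n 0 z (n 0 z (n 0 z (n 0 z (n 0 z z))))) (n 0
 (n 0 z (n 0 z (n 0 z (n 0 z (n 0 z z))))) (n 0 (n 0 z (n 0 (n 8593491 z z) (n 0 z (n 0 z (n 0 z
 z))))) z)))) (n 1 (n 0 (n 0 z (n 0 z (n 0 z (n 0 z (n 0 z z))))) (n 0 (n 0 z (n 0 z (n 0 z (n 0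
 z (n 0 z z))))) (n 0 (n 0 z (n 0 z (n 0 z (n 0 (n 8790035 z z) (n 0 z z))))) (n 0 (n 0 z (n 0 z
 (n 0 z (n 0 z (n 0 z z))))) (n 0 (n 0 z (n 0 z (n 0 z (n 0 z (n 0 z z))))) z))))) (n 0 (n 0 (n
 0 z (n 0 z (n 0 z (n 0 z (n 0 z z))))) (n 0 (n 0 z (n 0 z (n 0 z (n 0 z (n 0 z z))))) (n 0 (n 0
 z (n 0 z (n 0 z (n 0 z (n 0 z z))))) (n 0 (n 0 z (n 0 z (n 0 z (n 0 z (n 0 z z))))) (n 0 (n 0 z
 (n 0 z (n 0 (n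
 0x190e60b87381f8218617e08208217e081f86081f8208208208207e182082082082082082082081f8208200081 z
 (n 0x30a4e8260381e8a18608217de8627e081f7e185e7e17e08218628208208207e07a08208608607e07e18200801
 z z)) (n 0 z (n 0 z z))))) (n 0 (n 0 z (n 0 z (n 0 z (n 0 z (n 0 z z))))) (n 0 (n 0 z (n 0 z (n
 0 z (n 0 z (n 0 z z))))) (n 0 (n 0 z (n 0 z (n 0 z (n 0 z (n 0 z z))))) (n 0 (n 0 z (n 0 (n
 8720907 z (n 7544963 z z)) (n 0 (n 8720907 z z) (n 0 z (n 0 z z))))) (n 0 (n 0 z (n 0 z (n 0 z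
 (n 0 z (n 0 z z))))) (n 0 (n 0 z (n 0 z (n 0 z (n 0 (n 8720907 z (n 8720907 z z)) (n 0 z z)))))
 (n 0 (n 0 z (n 0 (n 8720907 z (n 8720907 z z)) (n 0 z (n 0 (n 8720907 z z) (n 0 z z))))) (n 0
 (n 0 (n
 0x30a6e864038608218208208208208208208208208208208218207e08208208208208208208208208208200801 z
 z) (n 0 (n
 0xfd873838d7e817e918e818f8077838085966a6f85706c856597877e8e98818491997f846e8281539067806b9f4a758f8d897e847f0049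
 z (n
 0x183184070180e850a26038608208218608207df8217e081f82082082082082082082082081f8208608208208207e08201001
 z z)) (n 0 z (n 0 z (n 0 z z))))) (n 0 (n 0 z (n 0 z (n 0 z (n 0 z (n 0 z z))))) (n 0 (n 0 z (n
 0 z (n 0 z (n 0 z (n 0 z z))))) (n 0 (n 0 z (n 0 z (n 0 z (n 0 (n
 0x258738217a08628608607e281f7de82181f7de7e17e391e7dd8618208228218618218207df81f7df0041 z (n
 0x1a481080480d7fe80082f81a7ed8108428037fc8147fe7f48197987ee7ed8037f581c80d8227ec8068368378397e183484581d8057df7fa7bf8067f17ae7fe7c57f977e80282181681c81181f7f60051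
 z z)) (n 0 z z))))) (n 0 (n 0 z (n 0 z (n 0 z (n 0 z (n 0 z z))))) (n 0 (n 0 (n 8790035 z (n
 8790035 z z)) (n 0 z (n 0 (n 8790035 z (n 8790035 z z)) (n 0 (n 8790035 z (n 8790035 z z)) (n 0
 (n 8790035 z (n 8790035 z z)) z))))) (n 0 (n 0 z (n 0 z (n 0 z (n 0 z (n 0 z z))))) (n 0 (n 0 z
 (n 0 z (n 0 z (n 0 z (n 0 z z))))) (n 0 (n 0 z (n 0 z (n 0 z (n 0 z (n 0 z z))))) (n 0 (n 0 z
 (n 0 (n 8795163 z (n 7610755 z z)) (n 0 (n 8795163 z z) (n 0 z (n 0 z z))))) (n 0 (n 0 z (n 0 z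
 (n 0 z (n 0 z (n 0 z z))))) (n 0 (n 0 z (n 0 z (n 0 z (n 0 z (n 0 z z))))) (n 0 (n 0 z (n 0 (n
 7538715 z z) (n 0 z (n 0 z (n 0 z z))))) (n 0 (n 0 z (n 0 (n 8795163 z (n 8795163 z z)) (n 0 z
 (n 0 (n 8795163 z z) (n 0 z z))))) (n 0 (n 0 z (n 0 z (n 0 z (n 0 z (n 0 z z))))) (n 0 (n 0 z
 (n 0 z (n 0 z (n 0 z (n 0 z z))))) (n 0 (n 0 z (n 0 z (n 0 z (n 0 z (n 0 z z))))) (n 0 (n 0 z
 (n 0 (n 0x258748217a08628608607e281f7de82181f7de7e17e391e7dd8618208228218618218207df81f7df0041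
 z (n 8795947 z z)) (n 0 z (n 0 z (n 0 z z))))) (n 0 (n 0 z (n 0 (n 8790035 z (n 8790035 z z))
 (n 0 (n 8790035 z z) (n 0 z (n 0 z z))))) (n 0 (n 0 z (n 0 (n 8795947 z (n
 0x1a487480480d7fe80082f81a7ed8108428037fc8147fe7f48197987ee7ed8037f581c80d8227ec8068368378397e183484581d8057df7fa7bf8067f17ae7fe7c57f977e80282181681c81181f7f60051
 z z)) (n 0 (n
 0x30a6e8640781d8608df7e185f8a28227a27a085f7df8608608de8637a182185d7a08a27a07e07e07e08200801 z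
 z) (n 0 z (n 0 z z))))) (n 0 (n 0 z (n 0 (n
 0x190e80b87481f8218617e08208217e081f86081f8208208208207e182082082082082082082081f8208200081 z
 (n 0x2e850a06038208208208208207e18208608208208208208208208208608208208208208208208208208200801
 z z)) (n 0 z (n 0 z (n 0 z z))))) (n 0 (n 0 z (n 0 (n
 0x3063080e0785f8608208208208208208208208208207e08218208208208208208208208208208208208200801 z
 z) (n 0 z (n 0 z (n 0 z z))))) (n 0 (n 0 z (n 0 z (n 0 z (n 0 z (n 0 z z)))))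
 z))))))))))))))))))))))))))))))))))) z))))))))))))))))))))) z)))) z) z)))) (n
 0x352550cdae847594836b94869374145981c4cb16b6611122c8ad185844b343259b40 (n 0xb36b (n 153 (n 2 z
 (n 0 z (n 0 z (n 0 z (n 6635571 z (n 0 z z)))))) (n 33 (n 10 z (n 18 z (n 0 z (n 3278363 z (n 0
 z (n 0 z z)))))) (n 9 (n 26 z (n 34 z (n 0 z (n 3212843 z z)))) (n 3 (n 42 z (n 0 z (n 50 z (n
 0x2ca8a8040781e85f8208208208607e082182082182082081f81f8208218208208208208208208208218200801 z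
 (n 0 z (n 0 z (n 0 z (n 2164283 z (n 0 z (n 0 z (n 0 z (n 0 z (n 0 z (n 0 z (n 0 z (n 0 z (n 0
 z (n 0 z (n 0 z (n 0 z (n 0 z (n 58 z (n 0 z (n 0 z (n 0 z (n
 0xca8a8240781f85f8208208208617e082181f82182082081f81f8608218208208208208208208208218200801 z (n
 66 z (n 0 z (n 0 z (n 0 z (n
 0x12c6208075806ab57d7ba884638aa1828d798579807982ab778e7c8e808770817f815f997a938e609e8a8e667b8c907b839a94587a0049
 z z))))))))))))))))))))))))))))))) (n 1 (n 74 z (n 0 z (n 0 z (n 0 z (n 0 z (n 0 z (n 6635571 z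
 (n 0 z (n 0 z z))))))))) (n 0 (n 6635571 z (n 82 z (n 6635571 z (n 90 z (n 0 z (n 6635571 z (n
 0xac86c864037c7b827067837279599d926c7b82ab787d7e89729f648175837b727d8d807b707d7f93977795857a7c907f776f797687897f0809
 z (n 0xc86c864037e17de86085f8208617e086082086081f7e081f81f8a07e08208208208208208207e08218200801
 z (n
 0x8c86c862037207e139e7555f2a1a75dc6072099d71175e7dd69f8a07db726ba566492396584e6618636210801 z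
 (n 98 z (n
 0xc86c862037e081f8208208208607e08608208608207e081f81f8208208208608208208208208208218200801 z (n
 0xec82c806037a7e80743e87706548b98461818da77e7e7884788762747b7f7f738580827e816e928c906c978a758a8e7d6b7c7b7f877f860809
 z (n 0 z z))))))))))))) z)))))) (n 9 (n 0 (n 143 (n 0 z (n 0 z (n 0 z (n 0 z (n 0 z (n 0 z (n 0
 z (n 0 z (n 0 z (n 0 z z)))))))))) (n 143 (n 0 z (n 0 z (n 0 z (n 2 (n 1 z (n 1 z (n 1 z (n 1 z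
 (n 1 z (n 1 z (n 1 z (n 1 z (n 1 z (n 1 z z)))))))))) (n 0 z (n 0 z (n 0 z (n 0 z (n 0 z (n 0 z
 z)))))))))) (n 141 (n 0 z (n 0 z (n 0 z (n 0 z (n 0 z (n 0 z (n 0 z (n 0 z (n 0 z (n 0 z (n 0 z
 z))))))))))) (n 141 (n 0 z (n 0 z (n 0 z (n 0 z (n 0 z (n 0 z (n 0 z (n 0 z (n 0 z (n 0 z (n 2
 (n 1 z (n 1 z (n 1 z (n 1 z (n 1 z (n 1 z (n 1 z (n 1 z z)))))))) z))))))))))) (n 233 (n 0 z (n
 0 z (n 0 z (n 0 z (n 0 z (n 0 z (n 0 z (n 0 z (n 0 z (n 0 z (n 0 z (n 0 z z)))))))))))) (n 233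
 (n 0 z (n 0 z (n 0 z (n 0 z (n 0 z (n 0 z (n 0 z (n 0 z (n 0 z (n 0 z (n 0 z (n 2 (n 0 z (n 0 z
 (n 1 z (n 2 (n 0 z (n 0 z (n 0 z (n 0 (n 2980 z z) (n 0 (n 2980 z z) (n 0 (n 2980 z (n 2980 z
 z)) z)))))) (n 2 (n 0 z (n 0 z (n 0 z (n 0 z (n 0 z (n 0 (n 8803363 z z) z)))))) (n 1 z z))))))
 z)))))))))))) (n 233 (n 0 z (n 0 z (n 0 z (n 0 z (n 0 z (n 0 z (n 0 z (n 0 z (n 0 z (n 0 z (n 0
 z (n 0 z z)))))))))))) (n 233 (n 0 z (n 0 z (n 0 z (n 2 (n 1 z (n 2 (n 0 (n 5 z z) (n 0 z (n 0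
 z (n 0 z (n 0 (n 2980 z z) (n 0 (n 2980 z (n 2980 z z)) z)))))) (n 2 (n 0 z (n 0 z (n 0 z (n 0
 z (n 0 z (n 0 (n 8803363 z z) z)))))) (n 2 (n 0 z (n 0 z (n 0 (n 8782363 z z) (n 0 (n 8782363 z
 z) (n 0 z (n 0 (n 8782363 z (n 8782363 z z)) z)))))) z)))) (n 0 z (n 0 z (n 0 z (n 0 z (n 0 z
 (n 0 z (n 0 z (n 0 z z)))))))))))) (n 133 (n 0 z (n 0 z (n 0 z (n 0 z (n 0 z (n 0 z (n 0 z (n 0
 z (n 0 z (n 0 z (n 0 z (n 0 z (n 0 z (n 0 z z)))))))))))))) (n 745 (n 0 z (n 0 z (n 0 z (n 0 z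
 (n 0 z (n 0 z (n 0 z (n 0 z (n 2 (n 0 z (n 0 z z)) z))))))))) (n 745 (n 0 z (n 0 z (n 0 z (n 0
 z (n 0 z (n 0 z (n 0 z (n 0 z (n 0 z z))))))))) (n 745 (n 0 z (n 0 z (n 0 z (n 0 z (n 0 z (n 0
 z (n 0 z (n 0 z (n 0 z z))))))))) z)))))))))))) (n 0 (n 0 z (n 375 (n 0 z (n 0 z (n 0 z (n 0 z
 (n 0 z (n 0 z z)))))) (n 375 (n 0 z (n 0 z (n 0 z (n 2 (n 1 z (n 1 z (n 1 z (n 1 z (n 1 z (n 1
 z (n 1 z (n 1 z z)))))))) (n 0 z (n 0 z z)))))) (n 441 (n 0 z (n 0 z (n 0 z (n 0 z (n 0 z (n 0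
 z (n 0 z (n 0 z (n 0 z (n 0 z (n 0 z (n 0 z (n 0 z (n 0 z (n 0 z z))))))))))))))) (n 441 (n 0 z
 (n 0 z (n 0 z (n 0 z (n 2 (n 0 z (n 0 z (n 1 z (n 2 (n 0 z (n 0 z (n 0 z (n 0 z (n 0 z (n 0 z
 z)))))) (n 2 (n 0 z (n 0 z (n 0 z (n 0 z (n 0 z (n 0 (n 8803363 z z) z)))))) (n 1 z z)))))) (n
 0 z (n 0 z (n 0 z (n 0 z (n 0 z (n 0 z (n 0 z (n 0 z (n 0 z (n 0 z z))))))))))))))) (n 441 (n 0
 z (n 0 z (n 0 z (n 0 z (n 0 z (n 0 z (n 0 z (n 0 z (n 0 z (n 0 z (n 0 z (n 0 z (n 0 z (n 0 z (n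
 0 z z))))))))))))))) (n 441 (n 0 z (n 0 z (n 0 z (n 2 (n 2 (n 0 z (n 0 z (n 0 z (n 0 z (n 0 z
 (n 0 (n 8803363 z z) z)))))) (n 2 (n 0 z (n 0 z (n 0 z (n 0 z (n 0 z (n 0 z z)))))) (n 2 (n 0 z
 (n 0 z (n 0 z (n 0 z (n 0 z (n 0 z z)))))) (n 2 (n 0 z (n 0 (n 3092 z z) (n 0 z (n 0 z (n 0 (n
 3092 z z) (n 0 (n 7477259 z (n 8521291 z z)) z)))))) z)))) (n 0 z (n 0 z (n 0 z (n 0 z (n 0 z
 (n 0 z (n 0 z (n 0 z (n 0 z (n 0 z (n 0 z z))))))))))))))) (n 373 (n 0 z (n 0 z (n 0 z (n 0 z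
 (n 0 z (n 0 z (n 0 z (n 0 z (n 0 z (n 0 z (n 0 z (n 0 z (n 0 z (n 0 z (n 0 z (n 0 z
 z)))))))))))))))) (n 773 (n 0 z (n 0 z (n 0 z (n 0 z (n 0 z (n 0 z (n 0 z (n 0 z (n 0 z (n 0 z
 (n 2 (n 0 z (n 0 z z)) (n 0 z z)))))))))))) (n 773 (n 0 z (n 0 z (n 0 z (n 0 z (n 0 z (n 0 z (n
 0 z (n 0 z (n 0 z (n 0 z (n 0 z (n 0 z z)))))))))))) (n 773 (n 0 z (n 0 z (n 0 z (n 0 z (n 0 z
 (n 0 z (n 0 z (n 0 z (n 0 z (n 0 z (n 0 z (n 0 z z)))))))))))) z))))))))))) (n 0 (n 375 (n 0 z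
 (n 0 z (n 0 z (n 2 (n 0 z (n 1 z (n 1 z (n 1 z (n 1 z (n 1 z (n 1 z (n 1 z (n 1 z z))))))))) (n
 0 z (n 0 z (n 0 z (n 0 z (n 0 z (n 0 z (n 0 z (n 0 z (n 0 z (n 0 z (n 0 z (n 0 z (n 0 z (n 0 z
 z)))))))))))))))))) (n 375 (n 0 z (n 0 z (n 0 z (n 0 z (n 0 z (n 0 z (n 0 z (n 0 z (n 0 z (n 0
 z (n 0 z (n 0 z (n 0 z (n 0 z (n 0 z (n 0 z (n 0 z (n 0 z z)))))))))))))))))) (n 55 (n 2 (n 0 z
 (n 0 z (n 0 z (n 1 z (n 2 (n 0 z (n 0 z (n 0 z (n 0 z (n 0 z (n 0 z z)))))) (n 1 z (n 1 z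
 z))))))) (n 0 z (n 0 z (n 0 z (n 0 z (n 0 z (n 0 z (n 0 z (n 0 z (n 0 z (n 0 z (n 0 z (n 0 z (n
 0 z (n 0 z (n 0 z (n 0 z (n 0 z (n 0 z (n 0 z (n 0 z (n 0 z (n 0 z z))))))))))))))))))))))) (n
 55 (n 0 z (n 0 z (n 0 z (n 0 z (n 0 z (n 0 z (n 0 z (n 0 z (n 0 z (n 0 z (n 0 z (n 0 z (n 0 z
 (n 0 z (n 0 z (n 0 z (n 0 z (n 0 z (n 0 z (n 0 z (n 0 z (n 0 z (n 0 z z)))))))))))))))))))))))
 (n 55 (n 0 z (n 0 z (n 0 z (n 0 z (n 0 z (n 0 z (n 0 z (n 0 z (n 0 z (n 2 (n 0 z (n 1 z (n 2 (n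
 0 z (n 0 z (n 0 z (n 0 (n 8652587 z z) (n 0 (n 8865307 z z) (n 0 (n 8791819 z (n 8521499 z z))
 z)))))) (n 2 (n 0 z (n 0 z (n 0 z (n 0 z (n 0 z (n 0 z z)))))) (n 1 z z))))) (n 0 z (n 0 z (n 0
 z (n 0 z (n 0 z (n 0 z (n 0 z (n 0 z (n 0 z (n 0 z (n 0 z (n 0 z (n 0 z
 z))))))))))))))))))))))) (n 55 (n 0 z (n 0 z (n 0 z (n 0 z (n 0 z (n 0 z (n 0 z (n 0 z (n 0 z
 (n 0 z (n 0 z (n 0 z (n 0 z (n 0 z (n 0 z (n 2 (n 2 (n 0 z (n 0 z (n 0 z (n 0 z (n 0 z (n 0 z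
 z)))))) (n 2 (n 0 z (n 0 z (n 0 z (n 0 z (n 0 z (n 0 z z)))))) (n 2 (n 0 z (n 0 z (n 0 z (n 0 z
 (n 0 z (n 0 z z)))))) (n 2 (n 0 z (n 0 z (n 0 (n 8872707 z z) (n 0 z (n 0 (n 8872707 z z) (n 0
 (n 8872707 z (n 8872707 z z)) z)))))) z)))) (n 0 z (n 0 z (n 0 z (n 0 z (n 0 z (n 0 z (n 0 z
 z))))))))))))))))))))))) (n 373 (n 0 z (n 0 z (n 0 z (n 0 z (n 0 z (n 0 z (n 0 z (n 0 z (n 0 z
 (n 0 z (n 0 z (n 0 z (n 2 (n 1 z (n 1 z (n 1 z z))) (n 0 z (n 0 z (n 0 z (n 0 z (n 0 z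
 z)))))))))))))))))) (n 773 (n 0 z (n 0 z (n 0 z (n 0 z (n 0 z (n 0 z (n 0 z (n 0 z (n 0 z (n 0
 z (n 0 z z))))))))))) (n 773 (n 0 z (n 0 z (n 0 z (n 0 z (n 0 z (n 0 z (n 0 z (n 0 z (n 0 z (n
 2 (n 0 z z) (n 0 z z))))))))))) (n 773 (n 2 z (n 0 z (n 0 z (n 0 z (n 0 z (n 0 z (n 0 z (n 0 z
 (n 0 z (n 0 z (n 0 z z))))))))))) z)))))))))) (n 0 (n 0 z (n 27 (n 0 z (n 0 z (n 0 z (n 0 z (n
 0 z (n 0 z (n 0 z (n 0 z (n 0 z (n 0 z (n 0 z (n 0 z (n 0 z (n 0 z (n 0 z (n 0 z (n 0 z (n 0 z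
 (n 0 z (n 0 z (n 0 z (n 0 z (n 0 z (n 0 z (n 0 z (n 0 z (n 0 z (n 0 z (n 0 z (n 0 z (n 0 z (n 0
 z z)))))))))))))))))))))))))))))))) (n 27 (n 0 z (n 2 (n 0 z (n 0 z (n 1 z (n 2 (n 0 z (n 0 z
 (n 0 z (n 0 z (n 0 z (n 0 z z)))))) (n 2 (n 0 z (n 0 z (n 0 z (n 0 z (n 0 z (n 0 (n 8795147 z
 z) z)))))) (n 1 z z)))))) (n 0 z (n 0 z (n 0 z (n 0 z (n 0 z (n 0 z (n 0 z (n 0 z (n 0 z (n 0 z
 (n 0 z (n 0 z (n 0 z (n 0 z (n 0 z (n 0 z (n 0 z (n 0 z (n 0 z (n 0 z (n 0 z (n 0 z (n 0 z (n 0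
 z (n 0 z (n 0 z (n 0 z (n 0 z (n 0 z (n 0 z z)))))))))))))))))))))))))))))))) (n 27 (n 0 z (n 0
 z (n 0 z (n 0 z (n 0 z (n 0 z (n 0 z (n 0 z (n 0 z (n 0 z (n 0 z (n 0 z (n 0 z (n 0 z (n 0 z (n
 0 z (n 0 z (n 0 z (n 0 z (n 0 z (n 0 z (n 0 z (n 0 z (n 0 z (n 0 z (n 0 z (n 0 z (n 0 z (n 0 z
 (n 0 z (n 0 z (n 0 z z)))))))))))))))))))))))))))))))) (n 27 (n 0 z (n 0 z (n 0 z (n 0 z (n 0 z
 (n 0 z (n 0 z (n 0 z (n 0 z (n 0 z (n 0 z (n 0 z (n 0 z (n 0 z (n 0 z (n 0 z (n 0 z (n 0 z (n 0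
 z (n 0 z (n 0 z (n 0 z (n 0 z (n 2 (n 2 (n 0 z (n 0 z (n 0 z (n 0 z (n 0 z (n 0 (n 3213419 z z)
 z)))))) (n 2 (n 0 z (n 0 z (n 0 z (n 0 z (n 0 z (n 0 z z)))))) (n 2 (n 0 z (n 0 z (n 0 z (n 0 z
 (n 0 z (n 0 z z)))))) (n 2 (n 0 z (n 0 (n 3284 z z) (n 0 z (n 0 z (n 0 (n 3284 z z) (n 0 (n
 7477259 z (n 3284 z z)) z)))))) z)))) (n 0 z (n 0 z (n 0 z (n 0 z (n 0 z (n 0 z (n 0 z (n 0 z
 z)))))))))))))))))))))))))))))))) (n 613 (n 0 z (n 0 z (n 0 z (n 0 z (n 0 z (n 0 z (n 0 z (n 0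
 z (n 0 z (n 0 z (n 0 z (n 0 z (n 0 z (n 0 z (n 0 z (n 0 z (n 0 z (n 0 z z)))))))))))))))))) (n
 821 (n 0 z (n 0 z (n 0 z (n 0 z (n 0 z (n 0 z (n 0 z (n 0 z (n 2 (n 0 z (n 0 z z)) (n 0 z (n 0
 z (n 0 z (n 0 z z))))))))))))) (n 821 (n 0 z (n 0 z (n 0 z (n 0 z (n 0 z (n 0 z (n 0 z (n 0 z
 (n 0 z (n 0 z (n 0 z (n 0 z (n 0 z z))))))))))))) (n 821 (n 0 z (n 0 z (n 0 z (n 0 z (n 0 z (n
 0 z (n 0 z (n 0 z (n 0 z (n 0 z (n 0 z (n 0 z (n 0 z z))))))))))))) z))))))))) (n 0 (n 7 (n 2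
 (n 0 z (n 0 z (n 0 z (n 1 z (n 2 (n 0 z (n 0 z (n 0 z (n 0 (n 3284 z z) (n 0 (n 3284 z z) (n 0
 (n 3284 z (n 3284 z z)) z)))))) (n 2 (n 0 z (n 0 z (n 0 z (n 0 z (n 0 z (n 0 (n 8868899 z z)
 z)))))) (n 1 z z))))))) (n 0 z (n 0 z (n 0 z (n 0 z (n 0 z (n 0 z (n 0 z z)))))))) (n 7 (n 0 z
 (n 0 z (n 0 z (n 0 z (n 0 z (n 0 z (n 0 z (n 0 z z)))))))) (n 7 (n 0 z (n 0 z (n 0 z (n 2 (n 0
 z (n 1 z (n 2 (n 0 z (n 0 z (n 0 (n 8652587 z z) (n 0 z (n 0 z (n 0 (n 3284 z (n 8652587 z z))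
 z)))))) (n 2 (n 0 z (n 0 z (n 0 z (n 0 z (n 0 z (n 0 z z)))))) (n 1 z z))))) (n 0 z (n 0 z (n 0
 z (n 0 z z)))))))) (n 7 (n 0 z (n 0 z (n 0 z (n 0 z (n 2 (n 2 (n 0 z (n 0 z (n 0 z (n 0 z (n 0
 z (n 0 z z)))))) (n 2 (n 0 (n 3284 z z) (n 0 (n 3284 z z) (n 0 z (n 0 z (n 0 z (n 0 (n 3284 z
 (n 3284 z z)) z)))))) (n 2 (n 0 z (n 0 z (n 0 z (n 0 z (n 0 z (n 0 z z)))))) (n 2 (n 0 z (n 0 z
 (n 0 z (n 0 (n 8872707 z z) (n 0 (n 8872707 z z) (n 0 (n 8872707 z (n 8872707 z z)) z))))))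
 z)))) (n 0 z (n 0 z (n 0 z z)))))))) (n 613 (n 0 z (n 0 z (n 0 z (n 0 z (n 0 z (n 0 z (n 0 z (n
 2 (n 1 z (n 1 z (n 1 z z))) (n 0 z z))))))))) (n 821 (n 0 z (n 0 z (n 0 z (n 0 z (n 0 z (n 0 z
 (n 0 z (n 0 z (n 0 z (n 0 z (n 0 z (n 0 z (n 0 z (n 0 z (n 0 z (n 0 z (n 0 z (n 0 z (n 0 z (n 0
 z (n 0 z (n 0 z (n 0 z (n 0 z (n 0 z (n 0 z (n 0 z (n 0 z (n 0 z (n 0 z (n 0 z (n 0 z (n 0 z (n
 0 z (n 0 z (n 0 z (n 0 z (n 0 z (n 0 z (n 0 z (n 0 z z)))))))))))))))))))))))))))))))))))))))))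
 (n 821 (n 0 z (n 0 z (n 0 z (n 0 z (n 0 z (n 0 z (n 0 z (n 0 z (n 0 z (n 0 z (n 0 z (n 0 z (n 0
 z (n 0 z (n 0 z (n 0 z (n 0 z (n 0 z (n 0 z (n 0 z (n 0 z (n 0 z (n 0 z (n 0 z (n 0 z (n 2 (n 0
 z z) (n 0 z (n 0 z (n 0 z (n 0 z (n 0 z (n 0 z (n 0 z (n 0 z (n 0 z (n 0 z (n 0 z (n 0 z (n 0 z
 (n 0 z (n 0 z z))))))))))))))))))))))))))))))))))))))))) (n 821 (n 0 z (n 0 z (n 0 z (n 0 z (n
 0 z (n 0 z (n 0 z (n 0 z (n 0 z (n 0 z (n 0 z (n 0 z (n 0 z (n 0 z (n 0 z (n 0 z (n 0 z (n 0 z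
 (n 0 z (n 0 z (n 0 z (n 0 z (n 0 z (n 0 z (n 0 z (n 0 z (n 0 z (n 0 z (n 0 z (n 0 z (n 0 z (n 0
 z (n 0 z (n 0 z (n 0 z (n 0 z (n 0 z (n 0 z (n 0 z (n 0 z (n 0 z
 z))))))))))))))))))))))))))))))))))))))))) z)))))))) (n 0 (n 0 z (n 0 z (n 0 z (n 51 (n 0 z (n
 0 z (n 0 z (n 0 z (n 0 z (n 0 z (n 0 z (n 0 z z)))))))) (n 5 (n 0 z (n 2 (n 0 z (n 0 z z)) (n 0
 z (n 0 z (n 0 z (n 0 z (n 0 z (n 0 z (n 0 z (n 0 z (n 0 z (n 0 z (n 0 z (n 0 z (n 0 z (n 0 z (n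
 0 z z))))))))))))))))) (n 5 (n 0 z (n 0 z (n 0 z (n 0 z (n 0 z (n 0 z (n 0 z (n 0 z (n 0 z (n 0
 z (n 0 z (n 0 z (n 0 z (n 0 z (n 0 z (n 0 z (n 0 z z))))))))))))))))) (n 5 (n 0 z (n 0 z (n 0 z
 (n 0 z (n 0 z (n 0 z (n 0 z (n 0 z (n 0 z (n 0 z (n 0 z (n 0 z (n 0 z (n 0 z (n 0 z (n 0 z (n 0
 z z))))))))))))))))) z))))))) (n 0 (n 0 z (n 0 z (n 51 (n 2 (n 2 (n 0 z (n 0 z (n 0 z (n 0 (n
 196 z z) (n 0 (n 196 z z) (n 0 (n 196 z (n 196 z z)) z)))))) (n 2 (n 0 z (n 0 z (n 0 z (n 0 z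
 (n 0 z (n 0 (n 8868899 z z) z)))))) (n 1 z z))) (n 0 z (n 0 z (n 0 z (n 0 z (n 0 z (n 0 z
 z))))))) (n 49 (n 0 z (n 0 z (n 0 z (n 0 z (n 0 z (n 0 z (n 0 z (n 0 z (n 0 z (n 0 z (n 0 z (n
 0 z (n 0 z (n 0 z (n 0 z (n 0 z (n 0 z (n 0 z (n 0 z (n 0 z (n 0 z (n 0 z (n 0 z (n 0 z (n 0 z
 (n 0 z (n 0 z (n 0 z (n 0 z (n 0 z (n 0 z (n 0 z (n 0 z (n 0 z (n 0 z (n 0 z
 z)))))))))))))))))))))))))))))))))))) (n 49 (n 0 z (n 0 z (n 0 z (n 0 z (n 0 z (n 0 z (n 0 z (n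
 0 z (n 0 z (n 0 z (n 2 (n 0 z z) (n 0 z (n 0 z (n 0 z (n 0 z (n 0 z (n 0 z (n 0 z (n 0 z (n 0 z
 (n 0 z (n 0 z (n 0 z (n 0 z (n 0 z (n 0 z (n 0 z (n 0 z (n 0 z (n 0 z (n 0 z (n 0 z (n 0 z (n 0
 z (n 0 z (n 0 z z)))))))))))))))))))))))))))))))))))) (n 49 (n 0 z (n 0 z (n 0 z (n 0 z (n 0 z
 (n 0 z (n 0 z (n 0 z (n 0 z (n 0 z (n 0 z (n 0 z (n 0 z (n 0 z (n 0 z (n 0 z (n 0 z (n 0 z (n 0
 z (n 0 z (n 0 z (n 0 z (n 0 z (n 0 z (n 0 z (n 0 z (n 0 z (n 0 z (n 0 z (n 0 z (n 0 z (n 2 z (n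
 0 z (n 0 z (n 0 z (n 0 z z)))))))))))))))))))))))))))))))))))) z)))))) (n 0 (n 0 z (n 63 (n 0 z
 (n 0 z (n 0 z (n 0 z (n 0 z (n 0 z (n 0 z (n 0 z (n 0 z (n 0 z (n 0 z (n 0 z z)))))))))))) (n
 49 (n 0 z (n 0 z (n 0 z (n 0 z (n 0 z (n 0 z (n 0 z (n 0 z z)))))))) (n 49 (n 0 z (n 0 z (n 0 z
 (n 0 z (n 0 z (n 0 z (n 0 z (n 0 z z)))))))) (n 49 (n 0 z (n 0 z (n 0 z (n 0 z (n 0 z (n 0 z (n
 0 z (n 0 z z)))))))) z))))) (n 0 (n 3 (n 0 z (n 2 (n 2 (n 0 (n 4 z z) (n 0 z (n 0 z (n 0 z (n 0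
 (n 4 z z) (n 0 (n 4 z (n 4 z z)) z)))))) (n 2 (n 0 z (n 0 z (n 0 z (n 0 z (n 0 z (n 0 (n
 8868899 z z) z)))))) (n 2 (n 0 z (n 0 z (n 0 (n 8847899 z z) (n 0 (n 8847899 z z) (n 0 z (n 0
 (n 7477259 z (n 8847899 z z)) z)))))) z))) (n 0 z (n 0 z (n 0 z (n 0 z z)))))) (n 1 (n 0 z (n 0
 z (n 0 z (n 0 z (n 0 z (n 0 z (n 0 z (n 0 z (n 0 z (n 0 z z)))))))))) (n 1 (n 0 z (n 0 z (n 2
 (n 0 z z) (n 0 z (n 0 z (n 0 z (n 0 z (n 0 z (n 0 z (n 0 z z)))))))))) (n 1 (n 0 z (n 0 z (n 0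
 z (n 0 z (n 0 z (n 0 z (n 0 z (n 0 z (n 0 z (n 2 z z)))))))))) z)))) (n 0 (n 1 (n 2 (n 0 z (n 0
 z z)) (n 0 z (n 0 z (n 0 z (n 0 z (n 0 z (n 0 z (n 0 z (n 0 z (n 0 z z)))))))))) (n 1 (n 0 z (n
 0 z (n 0 z (n 0 z (n 0 z (n 0 z (n 0 z (n 0 z (n 0 z (n 0 z z)))))))))) (n 1 (n 0 z (n 0 z (n 0
 z (n 0 z (n 0 z (n 0 z (n 0 z (n 0 z (n 0 z (n 0 z z)))))))))) z))) (n 0 (n 0 z (n 0 z z)) (n 0
 (n 0 z z) (n 0 z z))))))))))))) (n 0 (n 1 (n 1228 z (n 1228 z (n 1228 z (n 1228 z (n 2 z (n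
 1228 z z)))))) (n 1 (n 1228 z (n 1228 z (n 1228 z (n 1228 z (n 1228 z (n 1228 z z)))))) (n 0 z
 (n 1 (n 3212843 z (n 3212843 z (n 3212843 z (n 3212843 z (n 3212843 z (n 3212843 z z))))))
 z)))) (n 0 (n 0x211d65948693260713261112261611 (n 0 (n 0 (n 7754787 z (n 7754787 z (n 7754787 z
 (n 7754787 z (n 7754787 z (n 7754787 z z)))))) z) (n 0 (n 153 (n 1 (n 7754787 z (n 7754787 z (n
 7754787 z (n 7754787 z (n 7754787 z (n 7754787 z z)))))) (n 0 z (n 0 z (n 0 z (n 1 (n 7684147 z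
 (n 7684147 z (n 7684147 z (n 7684147 z (n 7684147 z (n 7684147 z z)))))) (n 0 z z)))))) (n 33
 (n 1 (n 7754787 z (n 7754787 z (n 7754787 z (n 7754787 z (n 7754787 z (n 7754787 z z)))))) (n 1
 (n 2 z (n 1532 z (n 1532 z (n 7472715 z (n 1532 z (n 1532 z z)))))) (n 0 z (n 1 (n 3278619 z (n
 3278619 z (n 3278619 z (n 3278619 z (n 3278619 z (n 3278619 z z)))))) (n 0 z (n 0 z z)))))) (n
 9 (n 1 (n 7746571 z (n 7746571 z (n 7746571 z (n 7746571 z (n 7746571 z (n 7746571 z z)))))) (n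
 1 (n 10 z (n 2492 z (n 2492 z (n 7472715 z (n 2492 z (n 2492 z z)))))) (n 0 z (n 1 (n 3213099 z
 (n 3213099 z (n 3213099 z (n 3213099 z (n 3213099 z (n 3213099 z z)))))) z)))) (n 25 (n 1 (n
 7546187 z (n 7746571 z (n 3836 z (n 18 z (n 3836 z (n 3836 z z)))))) (n 1 (n 2164539 z (n
 7746571 z (n 2164539 z (n 2164539 z (n 2164539 z (n 2164539 z z)))))) (n 0 z (n 1 (n 3836 z (n
 5515067 z (n 7746571 z (n 3836 z (n 3836 z (n 3836 z z)))))) (n 0 z (n 1 (n 3836 z (n 3836 z (n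
 3836 z (n 7746571 z (n 7472715 z (n 3836 z z)))))) (n 1 (n 7754787 z (n 7754787 z (n 7754787 z
 (n 7754787 z (n 7754787 z (n 7754787 z z)))))) (n 1 (n 26 z (n 7746571 z (n 3836 z (n 7472715 z
 (n 7546187 z (n 3836 z z)))))) z)))))))) (n 27 (n 1 (n 4588 z (n 7684147 z (n 4588 z (n 4588 z
 (n 4588 z (n 4588 z z)))))) (n 1 (n 2164539 z (n 7684147 z (n 2164539 z (n 2164539 z (n 2164539
 z (n 2164539 z z)))))) (n 0 z (n 1 (n 3213163 z (n 7684147 z (n 4588 z (n 4572 z (n 4588 z (n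
 4588 z z)))))) (n 0 z (n 1 (n 4588 z (n 7684147 z (n 4588 z (n 4588 z (n 4588 z (n 4588 z
 z)))))) (n 1 (n 7754787 z (n 7754787 z (n 7754787 z (n 7754787 z (n 7754787 z (n 7754787 z
 z)))))) (n 1 (n 4588 z (n 7684147 z (n 4588 z (n 4588 z (n 4588 z (n 4588 z z)))))) z))))))))
 (n 477 (n 1 (n 7684147 z (n 7684147 z (n 7684147 z (n 7684147 z (n 7684147 z (n 7684147 z
 z)))))) (n 1 (n 7684147 z (n 7684147 z (n 7684147 z (n 7684147 z (n 7684147 z (n 7684147 z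
 z)))))) (n 1 (n 3692 z (n
 0x6ec8ec82037648144606593b68d46a9be07e081895355e75979da207a07a78ac5ad9599dc8984616a68610801 z
 (n 3692 z (n 3692 z (n 3692 z (n 7746571 z z)))))) (n 1 (n 7684147 z (n 7684147 z (n 7684147 z
 (n 7684147 z (n 7684147 z (n 7684147 z z)))))) (n 1 (n 3692 z (n 3692 z (n 3692 z (n
 0xec4ec280382081f8608208208607e08218208208207e081f81f8a07e18208208208208208207e08218200801 z (n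
 6492275 z (n 7746571 z z)))))) (n 1 (n 7754787 z (n 7754787 z (n 7754787 z (n 7754787 z (n
 7754787 z (n 7754787 z z)))))) (n 1 (n 7754787 z (n 7754787 z (n 7754787 z (n 7754787 z (n
 7754787 z (n 7754787 z z)))))) (n 0 z (n 1 (n 3692 z (n 7746571 z (n 3213163 z (n 34 z (n 3692
 z (n 3692 z z)))))) z))))))))) (n 9 (n 1 (n 7746571 z (n 7746571 z (n 7746571 z (n 7746571 z (n
 7754787 z (n 7746571 z z)))))) (n 1 (n 1228 z (n 1228 z (n 1228 z (n 7733787 z (n 7754787 z (n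
 1228 z z)))))) (n 0 z (n 1 (n 7733787 z (n 3213099 z (n 3213099 z (n 3213099 z (n 7754787 z (n
 3213099 z z)))))) z)))) z))))))) (n 0 (n 0 (n 0 z (n 0 z (n 0 z (n 0 z (n 0 z z))))) (n 0 (n 0
 z (n 0 z (n 0 z (n 0 z z)))) (n 0 (n 0 z (n 0 z (n 0 z z))) (n 0 (n 0 z (n 0 z z)) (n 0 (n 0 z
 z) z))))) (n 0 (n 191 (n 0 (n 0 z (n 0 z (n 0 z (n 0 z (n 0 z z))))) (n 0 (n 0 z (n 0 z (n 0 z
 (n 0 z (n 0 (n 4401179 z (n 4401179 z z)) z))))) (n 0 (n 0 z (n 0 z (n 0 z (n 0 z (n 0 z z)))))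
 (n 0 (n 0 z (n 0 z (n 0 z (n 0 z (n 0 z z))))) (n 0 (n 0 z (n 0 z (n 0 z (n 0 z (n 0 z z)))))
 (n 0 (n 0 z (n 0 z (n 0 z (n 0 z (n 0 (n 7678011 z (n 7746179 z z)) z))))) (n 0 (n 0 z (n 0 (n
 8732723 z z) (n 0 z (n 0 z (n 0 (n 8732723 z (n 8732723 z z)) z))))) (n 0 (n 0 z (n 0 (n
 8521291 z z) (n 0 (n 8521291 z z) (n 0 (n 8864339 z z) (n 0 z z))))) (n 0 (n 0 (n 8521291 z z)
 (n 0 z (n 0 z (n 0 z (n 0 (n 8521291 z (n 8521291 z z)) z))))) (n 0 (n 0 z (n 0 z (n 0 z (n 0 z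
 (n 0 (n 8732723 z (n 8732723 z z)) z))))) z)))))))))) (n 311 (n 0 (n 0 z (n 0 z (n 0 z (n 0 z
 (n 0 (n 8732723 z (n 8732723 z z)) z))))) (n 0 (n 0 z (n 0 z (n 0 z (n 0 z (n 0 z z))))) (n 0
 (n 0 z (n 0 z (n 0 z (n 0 z (n 0 z z))))) (n 0 (n 0 z (n 0 z (n 0 z (n 0 z (n 0 (n 8732723 z z)
 z))))) (n 0 (n 0 z (n 0 z (n 0 z (n 0 z (n 0 z z))))) (n 0 (n 0 z (n 0 z (n 0 z (n 0 z (n 0 z
 z))))) (n 0 (n 0 z (n 0 z (n 0 z (n 0 z (n 0 (n 8732723 z z) z))))) (n 0 (n 0 z (n 0 z (n 0 z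
 (n 0 z (n 0 z z))))) (n 0 (n 0 z (n 0 z (n 0 z (n 0 z (n 0 z z))))) (n 0 (n 0 (n 8732723 z z)
 (n 0 z (n 0 z (n 0 z (n 0 z z))))) (n 0 (n 0 z (n 0 z (n 0 z (n 0 z (n 0 z z))))) z)))))))))))
 (n 307 (n 0 (n 0 z (n 0 z (n 0 (n
 0x30a4ca080781e89e89f89f7e08e07e08218217e282086079e81e8a07e17e086086281f76081f8617e18610801 z
 z) (n 0 z (n 0 z z))))) (n 0 (n 0 (n 8521291 z z) (n 0 z (n 0 z (n 0 z (n 0 (n 8521291 z (n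
 8521291 z z)) z))))) (n 0 (n 0 z (n 0 z (n 0 z (n 0 z (n 0 (n 4392987 z (n 4392987 z z)) z)))))
 (n 0 (n 0 z (n 0 z (n 0 z (n 0 z (n 0 z z))))) (n 0 (n 0 z (n 0 z (n 0 z (n 0 z (n 0 z z)))))
 (n 0 (n 0 (n
 0x30a4ea080785f82082082082082082082082082082082081f81f8208208208208208208208208208208200801 z
 z) (n 0 z (n 0 z (n 0 z (n 0 (n
 0x1c87381f8a17e07e182082082082082082182082081f81f8208208228208207df7de8208208628210041 z (n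
 0x10c90a800382081f86081f8208607e086181f8208607e081f81f8618208208608208218207e17e08218200801 z
 z)) z))))) z)))))) (n 479 (n 0 (n 0 z (n 0 z (n 0 z (n 0 z (n 0 z z))))) (n 0 (n 0 z (n 0 z (n
 0 z (n 0 z (n 0 z z))))) (n 0 (n 0 z (n 0 z (n 0 z (n 0 z (n 0 z z))))) (n 0 (n 0 z (n 0 z (n 0
 z (n 0 z (n 0 z z))))) (n 0 (n 0 z (n 0 z (n 0 z (n 0 z (n 0 z z))))) (n 0 (n 0 z (n 0 z (n 0 z
 (n 0 z (n 0 (n 8868707 z z) z))))) (n 0 (n 0 z (n 0 z (n 0 z (n 0 z (n 0 z z))))) (n 0 (n 0 z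
 (n 0 z (n 0 z (n 0 z (n 0 z z))))) (n 0 (n 0 z (n 0 z (n 0 z (n 0 z (n 0 z z))))) (n 0 (n 0 z
 (n 0 z (n 0 z (n 0 z (n 0 z z))))) (n 0 (n 0 z (n 0 z (n 0 z (n 0 z (n 0 z z))))) (n 0 (n 0 z
 (n 0 z (n 0 z (n 0 z (n 0 z z))))) z)))))))))))) (n 461 (n 0 (n 0 z (n 0 z (n 0 z (n 0 z (n 0 z
 z))))) (n 0 (n 0 z (n 0 z (n 0 z (n 0 z (n 0 (n
 0x2487681f8217a081f82182282082085f7e17e082086081f7a282182082081f8217a082182182281f0041 z z)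
 z))))) (n 0 (n 0 z (n 0 z (n 0 z (n 0 z (n 0 z z))))) (n 0 (n 0 z (n 0 z (n 0 z (n 0 z (n 0 z
 z))))) (n 0 (n 0 z (n 0 z (n 0 z (n 0 z (n 0 z z))))) (n 0 (n 0 z (n 0 (n
 0x10c90a840381f8208608608208607e082181f8208207e081f7df8a08218208208208208207e07e08208200801 z
 z) (n 0 z (n 0 z (n 0 (n
 0x1487681f85f82081f8208608208208208208208207df81f8208208218218617df81f8207a08228200041 z (n
 8591211 z z)) z))))) (n 0 (n 0 z (n 0 z (n 0 z (n 0 z (n 0 z z))))) (n 0 (n 0 z (n 0 z (n 0 z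
 (n 0 z (n 0 (n 8868707 z z) z))))) (n 0 (n 0 (n 8795147 z z) (n 0 z (n 0 z (n 0 z (n 0 (n
 8795147 z (n 8795147 z z)) z))))) (n 0 (n 0 z (n 0 z (n 0 (n
 0xc87582082082085f82082182082085f82186082081f81f7e18208208208208207e08208208218200041 z z) (n 0
 z (n 0 (n 8591211 z (n
 0x12c8658075806ab57d7ba884638aa1828d798579807982ab778e7c8e808770817f815f997a938e609e8a8e667b8c907b839a94587a0049
 z z)) z))))) (n 0 (n 0 z (n 0 z (n 0 z (n 0 z (n 0 z z))))) (n 0 (n 0 z (n 0 z (n 0 z (n 0 z (n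
 0 (n 8783707 z (n
 0x1487481f8617e07e082082082082082082082082081f81f82082182182086081f81f8208208618210041 z z))
 z))))) (n 0 (n 0 z (n 0 z (n 0 z (n 0 z (n 0 (n 8868707 z (n 8868707 z z)) z))))) (n 0 (n 0 z
 (n 0 z (n 0 z (n 0 z (n 0 (n 8868707 z (n 8868707 z z)) z))))) (n 0 (n 0 z (n 0 z (n 0 z (n 0 z
 (n 0 z z))))) z))))))))))))))) (n 15 (n 0 (n 0 z (n 0 z (n 0 z (n 0 z (n 0 z z))))) (n 0 (n 0 z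
 (n 0 z (n 0 z (n 0 z (n 0 z z))))) (n 0 (n 0 z (n 0 z (n 0 z (n 0 z (n 0 z z))))) (n 0 (n 0 z
 (n 0 z (n 0 z (n 0 (n
 0xc87482082082086082082182082085f82086082081f8207e18218207e08208207df8208208218600041 z (n
 0x30a4a2080785f81f82086082082182082185f82181f82081e81e8207e07e082082086082181f8208218200801 z
 z)) (n 0 z z))))) (n 0 (n 0 z (n 0 z (n 0 (n
 0x12c8658075806ab57d7ba884638aa1828d798579807982ab778e7c8e808770817f815f997a938e609e8a8e667b8c907b839a94587a0049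
 z (n 0x1c87581f89f86082081f8607e082182082082082081f7de86082082182186179f7de81f7e18228210041 z
 z)) (n 0 (n
 0xc87482082082085f82082182082085f82186082081f81f7e18208208208208207e08208208218200041 z (n
 0xf48658077806eab7d7ca18369889a828b7b847a807a81a3798b7d8b808673817f8165937c8f8b6798888b6b7b8a8d7c839590607b0049
 z z)) (n 0 z z))))) (n 0 (n 0 z (n 0 z (n 0 z (n 0 z (n 0 z z))))) (n 0 (n 0 z (n 0 z (n 0 z (n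
 0 z (n 0 z z))))) (n 0 (n 0 z (n 0 z (n 0 z (n 0 z (n 0 (n 8868707 z z) z))))) (n 0 (n 0 z (n 0
 z (n 0 z (n 0 z (n 0 (n 8868707 z z) z))))) (n 0 (n 0 z (n 0 z (n 0 z (n 0 z (n 0 (n 8868707 z
 z) z))))) (n 0 (n 0 z (n 0 z (n 0 z (n 0 z (n 0 (n
 0x2487681f8217a081f82182282082085f7e17e082086081f7a282182082081f8217a082182182281f0041 z z)
 z))))) (n 0 (n 0 z (n 0 z (n 0 z (n 0 z (n 0 (n
 0x2487681f8217a081f82182282082085f7e17e082086081f7a282182082081f8217a082182182281f0041 z z)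
 z))))) (n 0 (n 0 (n 5310523 z z) (n 0 z (n 0 z (n 0 z (n 0 (n 5310523 z (n 7753859 z z)) z)))))
 (n 0 (n 0 z (n 0 z (n 0 z (n 0 z (n 0 z z))))) (n 0 (n 0 z (n 0 z (n 0 z (n 0 z (n 0 z z)))))
 (n 0 (n 0 z (n 0 z (n 0 z (n 0 z (n 0 z z))))) (n 0 (n 0 z (n 0 z (n 0 z (n 0 z (n 0 (n
 0x2487481f8217a081f82182282082085f7e17e082086081f7a282182082081f8217a082182182281f0041 z z)
 z))))) (n 0 (n 0 z (n 0 z (n 0 z (n 0 z (n 0 z z))))) (n 0 (n 0 z (n 0 z (n 0 z (n 0 z (n 0 z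
 z))))) (n 0 (n 0 z (n 0 z (n 0 z (n 0 z (n 0 (n 7407675 z (n 7754115 z z)) z))))) (n 0 (n 0 z
 (n 0 z (n 0 z (n 0 z (n 0 z z))))) (n 0 (n 0 z (n 0 z (n 0 (n
 0xbc8768178807d828576767e7b87748a8081888374826ca06994768f8f798069997e7d7a6a8c707f89708065a28f83857190a073780049
 z z) (n 0 z (n 0 (n 7755787 z (n
 0x1c87481f8a17e07e182082082082082082182082081f81f8208208228208207df7de8208208628210041 z z))
 z))))) (n 0 (n 0 z (n 0 z (n 0 z (n 0 z (n 0 z z))))) (n 0 (n 0 z (n 0 z (n 0 z (n 0 z (n 0 (n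
 0x2487481f8217a081f82182282082085f7e17e082086081f7a282182082081f8217a082182182281f0041 z z)
 z))))) (n 0 (n 0 z (n 0 z (n 0 z (n 0 z (n 0 z z))))) (n 0 (n 0 z (n 0 z (n 0 z (n 0 z (n 0 (n
 0x2487481f8217a081f82182282082085f7e17e082086081f7a282182082081f8217a082182182281f0041 z (n
 8783707 z z)) z))))) (n 0 (n 0 (n
 0x30a4ec280785f8208208208208208208208208208208208208208208208208208208208208208208208200801 z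
 z) (n 0 z (n 0 z (n 0 z (n 0 (n
 0x2487481f8217a081f82182282082085f7e17e082086081f7a282182082081f8217a082182182281f0041 z (n
 8783707 z z)) z))))) (n 0 (n 0 z (n 0 z (n 0 z (n 0 z (n 0 z z))))) (n 0 (n 0 (n 8857179 z z)
 (n 0 z (n 0 z (n 0 z (n 0 (n
 0x1c87681f8a17e07e182082082082082082182082081f81f8208208228208207df7de8208208628210041 z (n
 0x10eb0c280385f85f8208208208617e086081f7e18208208208208608217e08208208207e08208208208200801 z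
 z)) z))))) (n 0 (n 0 z (n 0 z (n 0 (n
 0x30eb0a82038208207e082082082086081f8608208208208208207e08208208208208208208208608208200801 z
 (n 0xf0a4ea28078647d2b55bcca9e8675e666ab9a52522f998857605cb23f14ea65f899920ba3794ea74689250801
 z z)) (n 0 z (n 0 z z))))) (n 0 (n 0 z (n 0 z (n 0 z (n 0 z (n 0 z z))))) (n 0 (n 0 z (n 0 z (n
 0 z (n 0 z (n 0 z z))))) z)))))))))))))))))))))))))))))))) (n 573 (n 0 (n 0 z (n 0 z (n 0 z (n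
 0 z (n 0 z z))))) (n 0 (n 0 z (n 0 z (n 0 z (n 0 z (n 0 z z))))) (n 0 (n 0 z (n 0 z (n 0 z (n 0
 z (n 0 z z))))) (n 0 (n 0 z (n 0 z (n 0 z (n 0 z (n 0 z z))))) (n 0 (n 0 z (n 0 z (n 0 z (n 0 z
 (n 0 z z))))) (n 0 (n 0 z (n 0 z (n 0 z (n 0 z (n 0 (n 8732723 z (n 8732723 z z)) z))))) (n 0
 (n 0 z (n 0 z (n 0 z (n 0 z (n 0 z z))))) (n 0 (n 0 z (n 0 z (n 0 z (n 0 z (n 0 z z))))) (n 0
 (n 0 z (n 0 z (n 0 z (n 0 z (n 0 z z))))) (n 0 (n 0 z (n 0 z (n 0 z (n 0 z (n 0 (n 8803363 z z)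
 z))))) (n 0 (n 0 z (n 0 z (n 0 z (n 0 z (n 0 z z))))) (n 0 (n 0 z (n 0 z (n 0 z (n 0 z (n 0 z
 z))))) (n 0 (n 0 z (n 0 z (n 0 z (n 0 z (n 0 (n 8783707 z (n
 0x1487381f85f86082081f8607e08218208208607e082081f8208208208218207df81f8227617e18610041 z z))
 z))))) (n 0 (n 0 z (n 0 z (n 0 z (n 0 z (n 0 (n 7673931 z (n
 0x1c85381f8a17e07e182082082082082082182082081f81f8208208228208207df7de8208208628210041 z z))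
 z))))) z)))))))))))))) (n 571 (n 0 (n 0 z (n 0 z (n 0 z (n 0 z (n 0 z z))))) (n 0 (n 0 z (n 0 z
 (n 0 z (n 0 (n 3278875 z z) (n 0 z z))))) (n 0 (n 0 z (n 0 z (n 0 z (n 0 (n 8864339 z (n
 8864339 z z)) (n 0 z z))))) (n 0 (n 0 z (n 0 z (n 0 z (n 0 z (n 0 (n 8732723 z z) z))))) (n 0
 (n 0 z (n 0 z (n 0 z (n 0 z (n 0 (n 8732723 z (n 8732723 z z)) z))))) (n 0 (n 0 z (n 0 z (n 0 z
 (n 0 z (n 0 z z))))) (n 0 (n 0 z (n 0 z (n 0 z (n 0 z (n 0 z z))))) (n 0 (n 0 (n 8803363 z z)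
 (n 0 (n 8803363 z z) (n 0 z (n 0 (n 8803363 z z) (n 0 (n 8803363 z (n 8803363 z z)) z))))) (n 0
 (n 0 z (n 0 z (n 0 z (n 0 z (n 0 (n 8803363 z z) z))))) (n 0 (n 0 (n 8803363 z z) (n 0 (n
 8803363 z z) (n 0 z (n 0 z (n 0 (n 8803363 z (n 8803363 z z)) z))))) (n 0 (n 0 z (n 0 z (n 0 (n
 8803363 z z) (n 0 z (n 0 z z))))) (n 0 (n 0 z (n 0 z (n 0 z (n 0 z (n 0 (n 7669835 z (n
 0x1c85381f8a17e07e182082082082082082182082081f81f8208208228208207df7de8208208628210041 z z))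
 z))))) (n 0 (n 0 z (n 0 z (n 0 z (n 0 (n
 0x1c83081f8a17e07e182082082082082082182082081f81f8208208228208207df7de8208208628210041 z z) (n
 0 z z))))) (n 0 (n 0 z (n 0 z (n 0 z (n 0 z (n 0 (n 8732723 z (n 8732723 z z)) z))))) (n 0 (n 0
 z (n 0 z (n 0 z (n 0 z (n 0 (n 8732723 z (n 8732723 z z)) z))))) (n 0 (n 0 z (n 0 z (n 0 z (n 0
 (n 0x1487581f85f82082081f8608208218208208217e07df81f8208218218218217df7df81f7e08228210041 z (n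
 0x1c85381f8a17e07e182082082082082082182082081f81f8208208228208207df7de8208208628210041 z z)) (n
 0 z z))))) z)))))))))))))))) (n 570 (n 0 (n 0 z (n 0 z (n 0 z (n 0 z (n 0 z z))))) (n 0 (n 0 z
 (n 0 z (n 0 z (n 0 z (n 0 z z))))) (n 0 (n 0 z (n 0 z (n 0 z (n 0 z (n 0 z z))))) (n 0 (n 0 z
 (n 0 z (n 0 z (n 0 z (n 0 z z))))) (n 0 (n 0 z (n 0 z (n 0 z (n 0 z (n 0 z z))))) (n 0 (n 0 z
 (n 0 (n
 0xbc8738178807d828576767e7b87748a8081888374826ca06994768f8f798069997e7d7a6a8c707f89708065a28f83857190a073780049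
 z z) (n 0 (n
 0x30ed0ec20785f8607e082086082086082086082181f8208208207e08207e08208208207e08208208218200801 z
 z) (n 0 z (n 0 (n
 0xec876818485789d748d85797b81757c858284877f7e79a278856e8d8081718180817e7d9370808a82817c6a71768b878e7f6e8b850049
 z (n 7540867 z z)) z))))) (n 0 (n 0 z (n 0 z (n 0 z (n 0 z (n 0 z z))))) (n 0 (n 0 z (n 0 z (n
 0 z (n 0 z (n 0 z z))))) (n 0 (n 0 z (n 0 z (n 0 z (n 0 z (n 0 z z))))) (n 0 (n 0 z (n 0 z (n 0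
 z (n 0 z (n 0 (n 5310539 z z) z))))) (n 0 (n 0 z (n 0 z (n 0 z (n 0 z (n 0 z z))))) (n 0 (n 0 z
 (n 0 z (n 0 z (n 0 z (n 0 z z))))) (n 0 (n 0 (n
 0xbc8738178807d828576767e7b87748a8081888374826ca06994768f8f798069997e7d7a6a8c707f89708065a28f83857190a073780049
 z z) (n 0 z (n 0 (n
 0x30ed0ec20785f8607e082085f82086082086082182082082081f7df8608208208208207e07e08208208200801 z
 z) (n 0 z (n 0 (n
 0xbc876864919e16aa46dc81676486499f79bed98d2ae185482085e7af4e0a2285d39462996a812a620041 z (n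
 7737475 z z)) z))))) (n 0 (n 0 z (n 0 (n
 0xbc8738178807d828576767e7b87748a8081888374826ca06994768f8f798069997e7d7a6a8c707f89708065a28f83857190a073780049
 z z) (n 0 z (n 0 z (n 0 (n
 0xec876818586789d748d857a7b81747c858284877f7e78a278856e8d808271817f817e7d9370808a83807c6a71778b878d806f8b840049
 z (n 7682075 z z)) z))))) (n 0 (n 0 z (n 0 z (n 0 z (n 0 z (n 0 z z))))) (n 0 (n 0 (n
 0xbc8738178807d828576767e7b87748a8081888374826ca06994768f8f798069997e7d7a6a8c707f89708065a28f83857190a073780049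
 z z) (n 0 (n
 0xbc8738178807d828576767e7b87748a8081888374826ca06994768f8f798069997e7d7a6a8c707f89708065a28f83857190a073780049
 z z) (n 0 z (n 0 z (n 0 (n 8800059 z (n 8591211 z z)) z))))) (n 0 (n 0 (n 8783675 z (n
 0x30a30a06037a281d71d7dd76785f7e19237a189e7d77a281e85e8a085e7a89a062589f8df95771e9617210801 z
 z)) (n 0 (n
 0x2487581f8217a081f82182282082085f7e17e082086081f7a282182082081f8217a082182182281f0041 z (n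
 0xbc8758178807d828576767e7b87748a8081888374826ca06994768f8f798069997e7d7a6a8c707f89708065a28f83857190a073780049
 z z)) (n 0 (n
 0xc87582082082085f82082182082085f82186082081f81f7e18208208208208207e08208208218200041 z (n
 8783675 z z)) (n 0 z (n 0 z z))))) (n 0 (n 0 z (n 0 z (n 0 z (n 0 z (n 0 z z)))))
 z)))))))))))))))))) (n 27 (n 0 (n 0 z (n 0 z (n 0 z (n 0 z (n 0 z z))))) (n 0 (n 0 z (n 0 z (n
 0 z (n 0 z (n 0 z z))))) (n 0 (n 0 z (n 0 z (n 0 z (n 0 z (n 0 z z))))) (n 0 (n 0 z (n 0 z (n 0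
 z (n 0 z (n 0 z z))))) (n 0 (n 0 z (n 0 z (n 0 z (n 0 z (n 0 z z))))) (n 0 (n 0 z (n 0 z (n 0 z
 (n 0 z (n 0 (n
 0x10ed0ec2038208207e08208208217e08208208218207e08207e08a07e082082081f8618208207e082081f0801 z
 z) z))))) (n 0 (n 0 z (n 0 z (n 0 z (n 0 z (n 0 (n 8803363 z z) z))))) (n 0 (n 0 z (n 0 z (n 0
 z (n 0 z (n 0 z z))))) z)))))))) (n 477 (n 0 (n 0 z (n 0 z (n 0 z (n 0 z (n 0 z z))))) (n 0 (n
 0 z (n 0 z (n 0 z (n 0 z (n 0 (n 8732723 z z) z))))) (n 0 (n 0 z (n 0 z (n 0 z (n 0 z (n 0 z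
 z))))) (n 0 (n 0 z (n 0 z (n 0 z (n 0 z (n 0 z z))))) (n 0 (n 0 z (n 0 z (n 0 (n
 0x30c50e28038208208208208208207e08218208208207e082081f8208608208208208208208207e08208200801 z
 z) (n 0 z (n 0 z z))))) (n 0 (n 0 z (n 0 z (n 0 z (n 0 z (n 0 z z))))) (n 0 (n 0 z (n 0 z (n 0
 z (n 0 (n 8803363 z z) (n 0 z z))))) (n 0 (n 0 z (n 0 z (n 0 (n
 0x30c90c240381d89e86089f7e08e27a08618207a37df82181d7df8e07e27e181f8218207a181f8617e18200801 z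
 z) (n 0 z (n 0 z z))))) (n 0 (n 0 z (n 0 z (n 0 z (n 0 (n
 0x2487481f8217a081f82182282082085f7e17e082086081f7a282182082081f8217a082182182281f0041 z z) (n
 0 z z))))) z))))))))) (n 461 (n 0 (n 0 z (n 0 z (n 0 z (n 0 z (n 0 z z))))) (n 0 (n 0 z (n 0 z
 (n 0 z (n 0 z (n 0 (n 8732723 z z) z))))) (n 0 (n 0 z (n 0 (n 8730475 z z) (n 0 z (n 0 z (n 0 z
 z))))) (n 0 (n 0 z (n 0 z (n 0 z (n 0 z (n 0 z z))))) (n 0 (n 0 z (n 0 z (n 0 z (n 0 z (n 0 z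
 z))))) (n 0 (n 0 z (n 0 z (n 0 z (n 0 z (n 0 z z))))) (n 0 (n 0 (n
 0x10c90c840382081f8208208208617e18208208208207e081f81f8a07e08208208208208208207e08217e00801 z
 z) (n 0 (n
 0x10c90c840382081f8208208208617e18208208208207e081f81f8a07e08208208208208208207e08217e00801 z
 z) (n 0 z (n 0 z (n 0 (n
 0x10c90c840382081f8208208208617e18208208208207e081f81f8a07e08208208208208208207e08217e00801 z
 (n 0x10c90c840382081f8208208208617e18208208208207e081f81f8a07e08208208208208208207e08217e00801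
 z z)) z))))) (n 0 (n 0 (n
 0xbc8768178807d828576767e7b87748a8081888374826ca06994768f8f798069997e7d7a6a8c707f89708065a28f83857190a073780049
 z z) (n 0 (n
 0xbc8768178807d828576767e7b87748a8081888374826ca06994768f8f798069997e7d7a6a8c707f89708065a28f83857190a073780049
 z z) (n 0 z (n 0 z (n 0 z z))))) (n 0 (n 0 z (n 0 z (n 0 z (n 0 z (n 0 z z))))) (n 0 (n 0 z (n
 0 z (n 0 z (n 0 z (n 0 z z))))) (n 0 (n 0 z (n 0 z (n 0 z (n 0 z (n 0 z z))))) (n 0 (n 0 z (n 0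
 z (n 0 z (n 0 z (n 0 (n 8732723 z (n 8732723 z z)) z))))) z)))))))))))) (n 460 (n 0 (n 0 z (n 0
 z (n 0 z (n 0 z (n 0 z z))))) (n 0 (n 0 z (n 0 z (n 0 z (n 0 z (n 0 z z))))) (n 0 (n 0 z (n 0 z
 (n 0 z (n 0 z (n 0 (n 8732723 z z) z))))) (n 0 (n 0 z (n 0 z (n 0 z (n 0 z (n 0 z z))))) (n 0
 (n 0 z (n 0 z (n 0 z (n 0 z (n 0 z z))))) (n 0 (n 0 z (n 0 z (n 0 z (n 0 z (n 0 z z))))) (n 0
 (n 0 z (n 0 (n 8732723 z z) (n 0 z (n 0 z (n 0 (n 8732723 z (n 8732723 z z)) z))))) (n 0 (n 0 z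
 (n 0 z (n 0 z (n 0 z (n 0 z z))))) (n 0 (n 0 z (n 0 z (n 0 z (n 0 z (n 0 z z))))) (n 0 (n 0 (n
 0xbc8768178807d828576767e7b87748a8081888374826ca06994768f8f798069997e7d7a6a8c707f89708065a28f83857190a073780049
 z z) (n 0 z (n 0 z (n 0 z (n 0 (n 7407723 z (n
 0x10c90c82037e181e86085f8208a07a08608608208207e081e81e8a07e082182185f8208208207e08228200801 z
 z)) z))))) (n 0 (n 0 z (n 0 z (n 0 (n
 0x30e90c820382082086081f8208207e08208208208208208208208208208208208208208208208208208200801 z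
 z) (n 0 z (n 0 z z))))) (n 0 (n 0 (n 8732723 z z) (n 0 (n 8732723 z z) (n 0 z (n 0 (n 8732723 z
 z) (n 0 z z))))) (n 0 (n 0 z (n 0 z (n 0 z (n 0 z (n 0 (n 8732723 z (n 8732723 z z)) z)))))
 z))))))))))))) (n 3 (n 0 (n 0 z (n 0 z (n 0 z (n 0 z (n 0 z z))))) (n 0 (n 0 z (n 0 z (n 0 z (n
 0 z (n 0 (n 8868707 z (n 8868707 z z)) z))))) (n 0 (n 0 z (n 0 z (n 0 z (n 0 z (n 0 z z))))) (n
 0 (n 0 z (n 0 z (n 0 (n 8803363 z z) (n 0 z (n 0 z z))))) (n 0 (n 0 z (n 0 z (n 0 z (n 0 z (n 0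
 z z))))) (n 0 (n 0 z (n 0 z (n 0 z (n 0 z (n 0 z z))))) (n 0 (n 0 z (n 0 z (n 0 z (n 0 z (n 0 z
 z))))) (n 0 (n 0 z (n 0 z (n 0 z (n 0 z (n 0 (n
 0x2487281f8217a081f82182282082085f7e17e082086081f7a282182082081f8217a082182182281f0041 z (n
 0x12c8218075806ab57d7ba884638aa1828d798579807982ab778e7c8e808770817f815f997a938e609e8a8e667b8c907b839a94587a0049
 z z)) z))))) (n 0 (n 0 z (n 0 z (n 0 z (n 0 z (n 0 (n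
 0x1c87281f8217e081f7e182182082185f8227e082086081e7e28207e082081f8207a08208218a285f0041 z (n
 0xec821818485789d748d847a7b81747c858285877e7e79a278846e8d808171817f817e7d9270808a83807c6a72768b878d7f6e8b850049
 z z)) z))))) (n 0 (n 0 (n
 0x30c50e28038208208208208208207e08218208208207e082081f8208608208208208208208207e08208200801 z
 z) (n 0 (n
 0x30e90c820382082086081f8208207e08208208208208208208208208208208208208208208208208208200801 z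
 z) (n 0 z (n 0 z (n 0 (n
 0x10c50c280382081f8608207e08607e086181f82082082081f81f8a08207e082081f8208207e18208218210801 z
 (n 0x10c50c28038208208208608208617e086081f8208207e081f81f8a08218208218208208208217df8218200801
 z z)) z))))) (n 0 (n 0 z (n 0 z (n 0 z (n 0 z (n 0 (n
 0x1487681f8217a07df7e182182082185f82182082081f81f7e182082081f8608217e08207e182181f0041 z (n
 0xed052581f8607e07e18208208208208208208208208208208208207e18208208208218207a08218200801 z z))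
 z))))) (n 0 (n 0 z (n 0 z (n 0 z (n 0 z (n 0 (n
 0x12c8218075806ab57d7ba884638aa1828d798579807982ab778e7c8e808770817f815f997a938e609e8a8e667b8c907b839a94587a0049
 z (n
 0x12c8218075806ab57d7ba884638aa1828d798579807982ab778e7c8e808770817f815f997a938e609e8a8e667b8c907b839a94587a0049
 z z)) z))))) (n 0 (n 0 z (n 0 z (n 0 z (n 0 z (n 0 z z))))) (n 0 (n 0 z (n 0 z (n 0 z (n 0 z (n
 0 (n 0x2487681f8217a081f82182282082085f7e17e082086081f7a282182082081f8217a082182182281f0041 z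
 (n
 0xb0c90c84037c7b827067837279599d926c7b82ab787d7e89729f648175837b727d8d807b707d7f93977795857a7c907f776f797687897f0809
 z z)) z))))) (n 0 (n 0 z (n 0 z (n 0 z (n 0 z (n 0 z z))))) (n 0 (n 0 z (n 0 z (n 0 z (n 0 z (n
 0 (n 0x2487681f8217a081f82182282082085f7e17e082086081f7a282182082081f8217a082182182281f0041 z
 (n
 0x12c8108075806ab57d7ba884638aa1828d798579807982ab778e7c8e808770817f815f997a938e609e8a8e667b8c907b839a94587a0049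
 z z)) z))))) (n 0 (n 0 z (n 0 z (n 0 z (n 0 z (n 0 z z))))) z))))))))))))))))) (n 1 (n 0 (n 0 z
 (n 0 z (n 0 z (n 0 z (n 0 z z))))) (n 0 (n 0 z (n 0 z (n 0 z (n 0 z (n 0 (n 8803363 z (n
 8803363 z z)) z))))) (n 0 (n 0 z (n 0 z (n 0 z (n 0 z (n 0 z z))))) (n 0 (n 0 z (n 0 z (n 0 z
 (n 0 z (n 0 z z))))) (n 0 (n 0 z (n 0 z (n 0 z (n 0 z (n 0 z z))))) (n 0 (n 0 z (n 0 z (n 0 z
 (n 0 z (n 0 z z))))) (n 0 (n 0 z (n 0 z (n 0 z (n 0 z (n 0 z z))))) (n 0 (n 0 z (n 0 z (n 0 z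
 (n 0 z (n 0 (n 8803363 z z) z))))) (n 0 (n 0 z (n 0 z (n 0 (n
 0x10c50c42038208207e08208208217e082082082181f7e08608208a07e08208208208208208207e08218200801 z
 z) (n 0 z (n 0 z z))))) (n 0 (n 0 z (n 0 z (n 0 z (n 0 z (n 0 z z))))) z)))))))))) (n 153 (n 0
 (n 0 z (n 0 z (n 0 z (n 0 z (n 0 z z))))) (n 0 (n 0 z (n 0 z (n 0 z (n 0 z (n 0 z z))))) (n 0
 (n 0 z (n 0 (n 8732723 z z) (n 0 z (n 0 z (n 0 (n 8732723 z (n 8732723 z z)) z))))) (n 0 (n 0 z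
 (n 0 z (n 0 z (n 0 z (n 0 z z))))) (n 0 (n 0 z (n 0 z (n 0 z (n 0 z (n 0 z z))))) (n 0 (n 0 z
 (n 0 z (n 0 z (n 0 z (n 0 (n 8732723 z z) z))))) z)))))) (n 33 (n 0 (n 0 z (n 0 z (n 0 z (n 0 z
 (n 0 z z))))) (n 0 (n 0 z (n 0 z (n 0 z (n 0 z (n 0 z z))))) (n 0 (n 0 z (n 0 z (n 0 (n
 0x12c8208075806ab57d7ba884638aa1828d798579807982ab778e7c8e808770817f815f997a938e609e8a8e667b8c907b839a94587a0049
 z z) (n 0 (n 8864339 z z) (n 0 z z))))) (n 0 (n 0 z (n 0 z (n 0 z (n 0 z (n 0 z z))))) (n 0 (n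
 0 z (n 0 z (n 0 z (n 0 z (n 0 z z))))) (n 0 (n 0 z (n 0 z (n 0 z (n 0 (n
 0x74870807d809c4a8582596da287548765988181768b7d5e8b7082707d6481718f82aa70687783ad507a8377985e7d8fa54f69997f0049
 z z) (n 0 z z))))) z)))))) (n 9 (n 0 (n 0 z (n 0 z (n 0 z (n 0 z (n 0 z z))))) (n 0 (n 0 z (n 0
 z (n 0 z (n 0 z (n 0 z z))))) (n 0 (n 0 z (n 0 z (n 0 z (n 0 z (n 0 z z))))) (n 0 (n 0 z (n 0 z
 (n 0 z (n 0 z (n 0 z z))))) z)))) (n 3 (n 0 (n 0 z (n 0 z (n 0 z (n 0 z (n 0 z z))))) (n 0 (n 0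
 z (n 0 z (n 0 z (n 0 z (n 0 z z))))) (n 0 (n 0 z (n 0 z (n 0 z (n 0 z (n 0 z z))))) (n 0 (n 0 z
 (n 0 z (n 0 z (n 0 z (n 0 z z))))) (n 0 (n 0 z (n 0 z (n 0 z (n 0 z (n 0 z z))))) (n 0 (n 0 z
 (n 0 z (n 0 z (n 0 z (n 0 z z))))) (n 0 (n 0 z (n 0 z (n 0 z (n 0 z (n 0 z z))))) (n 0 (n 0 z
 (n 0 z (n 0 z (n 0 z (n 0 z z))))) (n 0 (n 0 z (n 0 z (n 0 z (n 0 z (n 0 z z))))) (n 0 (n 0 z
 (n 0 z (n 0 z (n 0 z (n 0 z z))))) (n 0 (n 0 z (n 0 z (n 0 z (n 0 z (n 0 z z))))) (n 0 (n 0 z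
 (n 0 z (n 0 z (n 0 z (n 0 z z))))) (n 0 (n 0 z (n 0 z (n 0 z (n 0 z (n 0 z z))))) (n 0 (n 0 z
 (n 0 z (n 0 z (n 0 z (n 0 z z))))) (n 0 (n 0 (n 5310523 z z) (n 0 z (n 0 z (n 0 z (n 0 (n
 5310523 z (n 7676035 z z)) z))))) (n 0 (n 0 z (n 0 (n
 0x1c87581f8217a081f82186281f86085f8217df82086081f7e28208208208208207a08217e18228200041 z z) (n
 0 z (n 0 z (n 0 (n 7669819 z (n 7676035 z z)) z))))) (n 0 (n 0 z (n 0 z (n 0 z (n 0 z (n 0 z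
 z))))) (n 0 (n 0 z (n 0 z (n 0 z (n 0 z (n 0 z z))))) (n 0 (n 0 z (n 0 z (n 0 z (n 0 z (n 0 z
 z))))) (n 0 (n 0 z (n 0 z (n 0 z (n 0 z (n 0 (n 8782363 z z) z))))) (n 0 (n 0 z (n 0 z (n 0 z
 (n 0 z (n 0 (n 8782363 z z) z))))) (n 0 (n 0 z (n 0 z (n 0 z (n 0 z (n 0 z z))))) (n 0 (n 0 z
 (n 0 z (n 0 z (n 0 z (n 0 z z))))) (n 0 (n 0 z (n 0 z (n 0 z (n 0 z (n 0 z z))))) (n 0 (n 0 z
 (n 0 z (n 0 z (n 0 z (n 0 z z))))) (n 0 (n 0 z (n 0 z (n 0 (n 8782363 z (n 8782363 z z)) (n 0 z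
 (n 0 z z))))) (n 0 (n 0 z (n 0 z (n 0 z (n 0 z (n 0 (n
 0x2487481f8217a081f82182282082085f7e17e082086081f7a282182082081f8217a082182182281f0041 z z)
 z))))) (n 0 (n 0 z (n 0 z (n 0 z (n 0 z (n 0 (n 8795147 z (n 8795147 z z)) z))))) (n 0 (n 0 (n
 8795147 z z) (n 0 z (n 0 z (n 0 z (n 0 (n 8795147 z (n 7606403 z z)) z))))) (n 0 (n 0 z (n 0 z
 (n 0 z (n 0 z (n 0 z z))))) (n 0 (n 0 z (n 0 z (n 0 z (n 0 (n 8855819 z z) (n 0 z z)))))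
 z))))))))))))))))))))))))))))))) (n 1 (n 0 (n 0 z (n 0 z (n 0 z (n 0 z (n 0 z z))))) (n 0 (n 0
 z (n 0 z (n 0 z (n 0 z (n 0 z z))))) (n 0 (n 0 z (n 0 z (n 0 z (n 0 z (n 0 z z))))) (n 0 (n 0 z
 (n 0 (n 8783675 z z) (n 0 z (n 0 z (n 0 (n
 0xc87382082082085f82082182082085f82186082081f81f7e18208208208208207e08208208218200041 z (n
 0x30c8ea64038208208208208208208208208208208208208208207e08208208208208208208208208208600801 z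
 z)) z))))) (n 0 (n 0 (n 8783675 z z) (n 0 z (n 0 (n 8783675 z z) (n 0 z (n 0 z z))))) (n 0 (n 0
 z (n 0 z (n 0 z (n 0 z (n 0 z z))))) (n 0 (n 0 z (n 0 z (n 0 z (n 0 z (n 0 z z))))) (n 0 (n 0
 (n 8732723 z z) (n 0 z (n 0 z (n 0 z (n 0 (n 8732723 z (n 8732723 z z)) z))))) (n 0 (n 0 (n
 8803363 z z) (n 0 z (n 0 z (n 0 z (n 0 (n 8803363 z (n 8803363 z z)) z))))) z))))))))) (n 0 (n
 0 (n 0 z (n 0 z (n 0 z (n 0 z (n 0 (n 8732723 z z) z))))) (n 0 (n 0 z (n 0 z (n 0 z (n 0 z (n 0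
 (n 2164859 z (n 2164859 z z)) z))))) (n 0 (n 0 z (n 0 z (n 0 z (n 0 z (n 0 z z))))) (n 0 (n 0 z
 (n 0 z (n 0 z (n 0 z (n 0 z z))))) (n 0 (n 0 (n
 0x30e90864078217e086082082082082082081f8208208208208208208608208208208208208208208208200801 z
 (n 0x10e90e84038217df86081f7e08608208217df86082082081f81f8617e082082082082082082181f7e28200801
 z z)) (n 0 (n
 0x2487381f8217a081f82182282082085f7e17e082086081f7a282182082081f8217a082182182281f0041 z (n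
 0xbc8738178807d828576767e7b87748a8081888374826ca06994768f8f798069997e7d7a6a8c707f89708065a28f83857190a073780049
 z z)) (n 0 (n
 0x1c87081f8a17e07e182082082082082082182082081f81f8208208228208207df7de8208208628210041 z (n
 0x30a8e8640785f82082082082082082082082082082082081f81f8208208208208208208208208208208200801 z
 z)) (n 0 z (n 0 z z))))) (n 0 (n 0 z (n 0 (n 8803363 z z) (n 0 z (n 0 z (n 0 (n 8803363 z (n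
 8803363 z z)) z))))) (n 0 (n 0 z (n 0 z (n 0 z (n 0 z (n 0 z z))))) (n 0 (n 0 z (n 0 z (n 0 (n
 8803363 z z) (n 0 z (n 0 z z))))) (n 0 (n 0 (n
 0x1248708007f980084477e80c8067a17d18548127918127bd83c8028007e981c7f87ad81a7d88057d87f97bb8027db8258058687d77c77e980886f78a7f18057e983a7ad7fa8258597897c983d7fc0051
 z z) (n 0 z (n 0 z (n 0 z (n 0 z z))))) (n 0 (n 0 z (n 0 z (n 0 z (n 0 (n 8782363 z z) (n 0 z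
 z))))) (n 0 (n 0 (n
 0x10650e280382081f86081f8208607e082185f82082082081e81f8208208208208208208208207e07e18200801 z
 z) (n 0 (n
 0x10e90e820382082086081f7e08207e08208208208208208208208617e08208208208208208208208218200801 z
 z) (n 0 z (n 0 z (n 0 (n
 0x30e70e640785f8608208208207e08208208607e082082182081f8208208208208208208208208208208600801 z
 (n 0x10e50628037e085f8208608208617e086181f82082082181f81f8a18207e08608208208218207df8218200801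
 z z)) z))))) (n 0 (n 0 (n 8782363 z (n 8782363 z z)) (n 0 z (n 0 z (n 0 z (n 0 z z))))) (n 0 (n
 0 (n
 0xbc8738178807d828576767e7b87748a8081888374826ca06994768f8f798069997e7d7a6a8c707f89708065a28f83857190a073780049
 z (n
 0x10e90e84038217e086081f7e082079f8618208208207e081f8208208208208208208218208207e08218200801 z
 z)) (n 0 (n
 0x30e50628038208608208208208607e082181f82082082081f81f86182082082082082082082081f8218200801 z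
 (n 0x30e30e080382082086081f7e08617e082181f82082082081f81f8618208208208208208208208207e18210801
 z z)) (n 0 z (n 0 z (n 0 z z))))) z))))))))))))) z))))))))))))))))))))) z)))) z) z))))
 z))))))))), by decide +kernel⟩
theorem i10569 : ∃ t, chkR KT RW t 10569 10579 = true := ⟨(n
 0x6cf5a3355d0f67683aa948cf58452dc383d59d86a8aa1b476629 (n 0 (n 201 (n 0 z (n 0 z (n 0 z (n
 3282443 z (n 0 z (n 0 z (n 0 z z))))))) (n 33 (n 0 z (n 2 z (n 6496515 z (n 0 z z)))) (n 9 (n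
 10 z (n 18 z (n 6496515 z (n 0 z z)))) (n 3 (n 26 z (n 0 z (n 0 z (n 0 z (n 0 z (n 0 z (n 0 z
 (n 6496515 z (n 0 z z))))))))) (n 25 (n 0 z (n 34 z (n 42 z (n 0 z (n 2164299 z z))))) (n 0 (n
 50 z (n 0 z (n 58 z (n 6624267 z (n 0 z (n 0 z (n 0 z (n 0 z (n 66 z (n 74 z z))))))))))
 z)))))) (n 33 (n 0 (n 129 (n 2 (n 0 z (n 1 z (n 1 z (n 1 z (n 2 (n 0 z (n 0 (n 260 z (n 260 z
 z)) (n 0 z (n 0 z (n 0 (n 260 z (n 260 z z)) (n 0 (n 260 z (n 260 z z)) z)))))) (n 1 z (n 1 z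
 (n 1 z z)))))))) (n 0 z (n 0 z (n 0 z z)))) (n 129 (n 0 z (n 0 z (n 0 z (n 0 z z)))) (n 1263 (n
 0 z (n 0 z (n 0 z (n 0 z z)))) (n 69 (n 0 z (n 0 z (n 0 z (n 0 z (n 0 z (n 0 z (n 2 (n 0 z (n 1
 z (n 1 z (n 1 z (n 1 z z))))) (n 0 z (n 0 z (n 0 z (n 0 z (n 0 z (n 0 z (n 0 z (n 0 z (n 0 z (n
 0 z (n 0 z (n 0 z (n 0 z z)))))))))))))))))))) (n 69 (n 0 z (n 0 z (n 0 z (n 0 z (n 0 z (n 0 z
 (n 0 z (n 0 z (n 0 z (n 0 z (n 0 z (n 0 z (n 0 z (n 0 z (n 0 z (n 0 z (n 0 z (n 0 z (n 0 z (n 0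
 z z)))))))))))))))))))) (n 65 (n 0 z (n 0 z (n 0 z (n 0 z (n 0 z (n 0 z z)))))) (n 65 (n 0 z (n
 0 z (n 0 z (n 0 z (n 0 z (n 0 z z)))))) (n 65 (n 0 z (n 0 z (n 0 z (n 0 z (n 2 (n 0 z z) (n 0 z
 z)))))) (n 65 (n 0 z (n 0 z (n 0 z (n 0 z (n 0 z (n 0 z z)))))) z))))))))) (n 0 (n 0 z (n 387
 (n 0 z (n 0 z (n 2 (n 1 z (n 1 z (n 2 (n 0 z (n 0 (n 1076 z (n 1076 z z)) (n 0 z (n 0 z (n 0 (n
 1076 z (n 1076 z z)) (n 0 (n 1076 z (n 1076 z z)) z)))))) (n 1 z (n 1 z (n 1 z z)))))) (n 0 z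
 (n 0 z (n 0 z (n 0 z (n 0 z z)))))))) (n 15 (n 0 z (n 0 z (n 0 z (n 0 z (n 0 z (n 0 z (n 0 z (n
 0 z (n 0 z (n 0 z (n 0 z (n 0 z (n 0 z z))))))))))))) (n 15 (n 2 (n 2 (n 0 z (n 0 (n 1076 z (n
 1076 z z)) (n 0 z (n 0 z (n 0 (n 1076 z (n 1076 z z)) (n 0 (n 1076 z (n 1076 z z)) z)))))) (n 1
 z (n 1 z (n 1 z z)))) (n 0 z (n 0 z (n 0 z (n 0 z (n 0 z (n 0 z (n 0 z (n 0 z (n 0 z (n 0 z (n
 0 z (n 0 z z))))))))))))) (n 269 (n 0 z (n 0 z (n 0 z (n 0 z (n 0 z (n 0 z (n 0 z (n 0 z (n 0 z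
 z))))))))) (n 269 (n 0 z (n 0 z (n 0 z (n 0 z (n 0 z (n 0 z (n 0 z (n 0 z (n 2 (n 0 z (n 0 z
 z)) z))))))))) (n 269 (n 0 z (n 0 z (n 0 z (n 0 z (n 0 z (n 0 z (n 0 z (n 0 z (n 0 z z)))))))))
 (n 269 (n 0 z (n 0 z (n 0 z (n 2 z (n 0 z (n 0 z (n 0 z (n 0 z (n 0 z z))))))))) z)))))))) (n 0
 (n 273 (n 0 z (n 0 z (n 0 z (n 0 z (n 0 z (n 0 z (n 0 z (n 0 z z)))))))) (n 21 (n 0 z (n 0 z (n
 2 (n 0 z (n 2 (n 0 z (n 0 (n 68 z (n 68 z z)) (n 0 z (n 0 (n 68 z (n 68 z z)) (n 0 (n 68 z (n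
 68 z z)) (n 0 (n 8663395 z (n 8663395 z z)) z)))))) (n 1 z (n 1 z (n 1 z z))))) (n 0 z (n 0 z
 (n 0 z (n 0 z (n 0 z (n 0 z (n 0 z z)))))))))) (n 21 (n 0 z (n 0 z (n 0 z (n 0 z (n 0 z (n 0 z
 (n 0 z (n 0 z (n 0 z (n 0 z z)))))))))) (n 17 (n 0 z (n 0 z (n 0 z (n 0 z (n 0 z (n 0 z z))))))
 (n 17 (n 0 z (n 0 z (n 0 z (n 0 z (n 0 z (n 0 z z)))))) (n 17 (n 0 z (n 0 z (n 0 z (n 0 z (n 2
 (n 0 z z) (n 0 z z)))))) (n 17 (n 0 z (n 0 z (n 0 z (n 0 z (n 0 z (n 0 z z)))))) z))))))) (n 0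
 (n 57 (n 0 z (n 0 z (n 0 z (n 0 z (n 0 z (n 2 (n 0 z (n 1 z (n 1 z (n 1 z (n 1 z z))))) (n 0 z
 (n 0 z (n 0 z (n 0 z (n 0 z (n 0 z (n 0 z (n 0 z (n 0 z (n 0 z (n 0 z (n 0 z (n 0 z (n 0 z (n 0
 z (n 0 z z)))))))))))))))))))))) (n 57 (n 0 z (n 0 z (n 0 z (n 0 z (n 0 z (n 0 z (n 0 z (n 0 z
 (n 0 z (n 0 z (n 0 z (n 0 z (n 0 z (n 0 z (n 0 z (n 0 z (n 0 z (n 0 z (n 0 z (n 0 z (n 0 z (n 0
 z z)))))))))))))))))))))) (n 5 (n 0 z (n 0 z (n 0 z (n 0 z (n 0 z (n 0 z z)))))) (n 5 (n 0 z (n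
 0 z (n 0 z (n 0 z (n 0 z (n 0 z z)))))) (n 5 (n 0 z (n 0 z (n 2 (n 0 z z) (n 0 z (n 0 z (n 0 z
 z)))))) (n 5 (n 0 z (n 0 z (n 0 z (n 0 z (n 0 z (n 0 z z)))))) z)))))) (n 0 (n 0 z (n 49 (n 0 z
 (n 0 z (n 0 z (n 2 (n 0 z (n 0 z (n 0 z z))) (n 0 z (n 0 z (n 0 z (n 0 z (n 0 z (n 0 z
 z)))))))))) (n 49 (n 0 z (n 0 z (n 0 z (n 0 z (n 0 z (n 0 z (n 0 z (n 0 z (n 0 z (n 2 (n 0 z (n
 0 z z)) z)))))))))) (n 49 (n 0 z (n 0 z (n 0 z (n 0 z (n 0 z (n 0 z (n 0 z (n 0 z (n 0 z (n 0 z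
 z)))))))))) (n 49 (n 0 z (n 0 z (n 2 z (n 0 z (n 0 z (n 0 z (n 0 z (n 0 z (n 0 z (n 0 z
 z)))))))))) z))))) (n 0 (n 49 (n 0 z (n 0 z (n 0 z (n 0 z (n 0 z (n 0 z (n 0 z z))))))) (n 49
 (n 0 z (n 0 z (n 0 z (n 0 z (n 0 z (n 0 z (n 0 z z))))))) (n 49 (n 0 z (n 0 z (n 0 z (n 2 (n 0
 z z) (n 0 z (n 0 z (n 0 z z))))))) (n 49 (n 0 z (n 0 z (n 0 z (n 0 z (n 0 z (n 0 z (n 0 z
 z))))))) z)))) (n 0 (n 0 z (n 0 z (n 0 z z))) (n 0 (n 0 z (n 0 z z)) (n 0 (n 0 z z) (n 0 z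
 z)))))))))) (n 0 (n 0 z (n 1 (n 1612 z (n 1612 z (n 6488603 z (n 1612 z (n 1612 z (n 1612 z
 z)))))) (n 1 (n 6496515 z (n 6496515 z (n 6496515 z (n 6496515 z (n 6496515 z (n 6496515 z
 z)))))) (n 0 z z)))) (n 0 z z)))) (n 0x2a95d13332e0a57206628a6062 (n 0 (n 347 (n 3282443 z (n 0
 z (n 0 z (n 0 z (n 0 z z))))) (n 57 (n 0 z (n 6496515 z (n 0 z (n 0 z z)))) (n 137 (n 0 z (n 0
 z (n 0 z (n 6496515 z (n 0 z (n 0 z (n 0 z (n 2 z (n 0 z z))))))))) (n 133 (n 0 z (n 0 z (n 0 z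
 (n 6496515 z (n 0 z (n 0 z (n 0 z z))))))) (n 25 (n 10 z (n 0 z (n 0 z (n 0 z (n 2164299 z (n 0
 z (n 0 z (n 0 z (n 18 z (n 0 z (n 0 z z))))))))))) (n 0 (n 0 z (n 0 z (n 0 z (n 26 z (n 0 z (n
 34 z (n 2164315 z (n 0 z (n 0 z (n 0 z (n 0 z z))))))))))) z)))))) (n 57 (n 0 (n 297 (n 0 z (n
 0 z (n 0 z (n 0 z (n 0 z (n 0 z (n 0 z (n 0 z z)))))))) (n 297 (n 0 z (n 0 z (n 0 z (n 0 z (n 0
 z (n 0 z (n 0 z (n 0 z z)))))))) (n 265 (n 0 z (n 0 z (n 0 z (n 0 z (n 0 z (n 0 z (n 0 z (n 0 z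
 (n 0 z (n 0 z (n 0 z z))))))))))) (n 265 (n 0 z (n 0 z (n 0 z (n 0 z (n 0 z (n 0 z (n 0 z (n 0
 z (n 0 z (n 0 z (n 0 z z))))))))))) z)))) (n 0 (n 0 z (n 49 (n 0 z (n 0 z (n 0 z (n 0 z (n 0 z
 (n 0 z (n 2 (n 0 z z) (n 0 z (n 0 z (n 0 z (n 0 z z))))))))))) (n 49 (n 0 z (n 0 z (n 0 z (n 0
 z (n 0 z (n 0 z (n 0 z (n 0 z (n 0 z (n 0 z (n 0 z z))))))))))) z))) (n 0 (n 49 (n 0 z (n 0 z
 (n 0 z (n 0 z (n 0 z z))))) (n 49 (n 0 z (n 0 z (n 0 z (n 0 z (n 0 z z))))) z)) (n 0 (n 0 z z)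
 (n 0 z z))))) (n 0 (n 0 z (n 1 (n 6496515 z (n 6496515 z (n 6496515 z (n 6496515 z (n 6496515 z
 (n 6496515 z z)))))) (n 0 z (n 0 z z)))) (n 0 z z)))) (n
 0x18e928c6354459da1985d80c2e46216d2998114240 (n 0 (n 585 (n 0 z (n 6496339 z (n 2 z (n 10 z (n
 0 z (n 0 z z)))))) (n 33 (n 0 z (n 0 z (n 3278363 z (n 0 z z)))) (n 129 (n 0 z (n 0 z (n
 0xc86c8600785f7df86181f82086086081f7e08218208208217e18208208208617e181f8227a18208218200801 z (n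
 0 z (n 6427707 z (n 6566419 z (n 0 z (n 0 z (n 0 z (n 6566419 z (n 0 z z))))))))))) (n 3 (n 0 z
 (n 6566419 z (n 0 z (n 0 z (n 18 z (n 0 z (n 6566419 z z))))))) (n 1 (n 6566419 z (n 0 z (n 0 z
 (n 26 z (n 0 z z))))) (n 0 (n 6636043 z (n 0 z (n 34 z (n 42 z (n 50 z (n 58 z (n 0 z z)))))))
 z)))))) (n 33 (n 0 (n 0 z (n 7 (n 0 z (n 0 z (n 0 z (n 0 z (n 0 z (n 0 z (n 0 z (n 0 z (n 0 z
 (n 0 z z)))))))))) (n 3 (n 0 z (n 0 z (n 0 z (n 0 z (n 0 z (n 0 z z)))))) (n 5 (n 0 z (n 0 z (n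
 0 z (n 0 z (n 0 z (n 0 z (n 0 z z))))))) (n 5 (n 0 z (n 0 z (n 0 z (n 0 z (n 0 z (n 0 z (n 0 z
 z))))))) (n 5 (n 0 z (n 0 z (n 0 z (n 0 z (n 0 z (n 0 z (n 0 z z))))))) (n 5 (n 2 z (n 0 z (n 0
 z (n 0 z (n 0 z (n 0 z (n 0 z z))))))) z))))))) (n 0 (n 1153 (n 0 z (n 0 z (n 0 z (n 0 z (n 0 z
 (n 0 z (n 0 z z))))))) (n 351 (n 0 z (n 0 z (n 0 z (n 0 z (n 0 z (n
 0x165353120182ea6a6040782182082182082082182082081f82082082081f85f8217e081f82082082082082081f8208201001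
 z (n 0 z (n 0 z (n 0 z (n 0 z z)))))))))) (n 1009 (n 0 z (n 0 z (n 0 z (n 0 z (n 0 z (n 0 z
 z)))))) (n 1009 (n 0 z (n 0 z (n 0 z (n 0 z (n 0 z (n 0 z z)))))) (n 1009 (n 0 z (n 0 z (n 0 z
 (n 0 z (n 0 z (n 0 z z)))))) (n 1009 (n 0 z (n 0 z (n 0 z (n 0 z (n 0 z (n 0 z z)))))) z))))))
 (n 0 (n 3 (n 0 z (n 0 z (n 0 z (n 0 z z)))) (n 1 (n 0 z (n 0 z (n 0 z (n 0 z (n 0 z (n 0 z (n 0
 z (n 0 z (n 0 z (n 0 z z)))))))))) (n 1 (n 0 z (n 0 z (n 0 z (n 0 z (n 0 z (n 0 z (n 0 z (n 0 z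
 (n 0 z (n 0 z z)))))))))) (n 1 (n 0 z (n 0 z (n 0 z (n 0 z (n 0 z (n 0 z (n 0 z (n 0 z (n 0 z
 (n 0 z z)))))))))) (n 1 (n 0 z (n 0 z (n 0 z (n 0 z (n 0 z (n 0 z (n 0 z (n 0 z (n 0 z (n 0 z
 z)))))))))) z))))) (n 0 (n 1 (n 0 z (n 0 z (n 0 z (n 0 z (n 0 z (n 0 z (n 0 z (n 0 z (n 0 z (n
 0 z (n 0 z (n 0 z (n 0 z z))))))))))))) (n 1 (n 0 z (n 0 z (n 0 z (n 0 z (n 0 z (n 0 z (n 0 z
 (n 0 z (n 0 z (n 0 z (n 0 z (n 0 z (n 0 z z))))))))))))) (n 1 (n 0 z (n 0 z (n 0 z (n 0 z (n 0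
 z (n 0 z (n 0 z (n 0 z (n 0 z (n 0 z (n 0 z (n 0 z (n 0 z z))))))))))))) (n 1 (n 0 z (n 0 z (n
 2 z (n 0 z (n 0 z (n 0 z (n 0 z (n 0 z (n 0 z (n 0 z (n 0 z (n 0 z (n 0 z z))))))))))))) z))))
 (n 0 (n 0 z (n 0 z (n 0 z z))) (n 0 (n 0 z (n 0 z z)) (n 0 (n 0 z z) (n 0 z z)))))))) (n 0 (n 0
 z (n 0 z (n 1 (n 3278363 z (n 6566419 z (n 3278363 z (n 3278363 z (n 3278363 z (n 3278363 z
 z)))))) (n 0 z z)))) (n 0 z z)))) (n 0x14c66b06971d1196ca0ea748653a60273a4239d240 (n 0 (n 207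
 (n 0 z (n 0 z (n 0 z (n 0 z (n 0 z (n 0 z (n 0 z (n 0 z (n 6557779 z (n 0 z (n 2 z z)))))))))))
 (n 461 (n 10 z (n 6557779 z (n 6624267 z (n 18 z z)))) (n 135 (n 26 z (n 34 z (n 0 z (n 0 z (n
 3212843 z z))))) (n 3 (n 6631691 z (n 0 z (n 42 z (n 0 z (n 0 z z))))) (n 1 (n 0 z (n 0 z (n 0
 z (n 50 z (n 0 z (n 0 z (n 6557779 z z))))))) (n 0 (n 0 z (n 0 z (n
 0x506107f837e847d8280827e817a788780887d5e837d7a897f8c5f87827e807a7e868085897b857b7c90817f7d7e797586617d8e820049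
 z (n 0 z (n 0 z (n 0 z (n 0 z (n 58 z (n 6631691 z (n 6624267 z (n 0 z z))))))))))) z)))))) (n
 461 (n 0 (n 79 (n 0 z (n 0 z (n 0 z z))) (n 79 (n 0 z (n 0 z (n 0 z z))) (n 391 (n 0 z (n 0 z
 (n 0 z (n 0 z (n 2 (n 0 z (n 1 z (n 1 z (n 1 z z)))) (n 0 z (n 0 z (n 0 z z)))))))) (n 391 (n 0
 z (n 0 z (n 0 z (n 0 z (n 0 z (n 0 z (n 0 z (n 0 z z)))))))) (n 7 (n 0 z (n 0 z (n 0 z (n 0 z
 (n 0 z (n 0 z z)))))) (n 3 (n 0 z (n 0 z (n 0 z (n 0 z z)))) (n 5 (n 0 z (n 0 z (n 0 z (n 0 z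
 z)))) z))))))) (n 0 (n 0 z (n 921 (n 0 z (n 0 z (n 0 z (n 0 z (n 0 z (n 2 (n 0 z (n 1 z (n 1 z
 (n 1 z z)))) (n 0 z z))))))) (n 921 (n 0 z (n 0 z (n 0 z (n 0 z (n 0 z (n 0 z (n 0 z z)))))))
 (n 535 (n 0 z (n 2 (n 1 z (n 1 z z)) (n 0 z z))) (n 483 (n 0 z (n 0 z (n 0 z (n 0 z z)))) (n
 481 (n 0 z (n 0 z (n 0 z (n 0 z z)))) z)))))) (n 0 (n 347 (n 0 z (n 0 z (n 0 z (n 0 z (n 0 z (n
 0 z (n 0 z (n 0 z (n 0 z (n 0 z (n 0 z z))))))))))) (n 347 (n 0 z (n 0 z (n 0 z (n 0 z (n 0 z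
 (n 0 z (n 0 z (n 0 z (n 0 z (n 0 z (n 0 z z))))))))))) (n 7 (n 0 z (n 0 z (n 0 z (n 0 z z))))
 (n 345 (n 0 z (n 0 z (n 0 z (n 0 z (n 0 z (n 0 z z)))))) (n 253 (n 0 z (n 0 z (n 0 z (n 0 z (n
 0 z (n 0 z (n 0 z (n 0 z (n 0 z (n 0 z z)))))))))) z))))) (n 0 (n 0 z (n 7 (n 0 z (n 0 z (n 0 z
 (n 0 z z)))) (n 495 (n 0 z (n 0 z (n 0 z (n 0 z (n 0 z z))))) (n 493 (n 0 z (n 0 z (n 0 z (n 0
 z (n 0 z (n 0 z (n 0 z (n 0 z (n 0 z (n 0 z (n 0 z (n 0 z (n 0 z (n 0 z (n 0 z (n 0 z (n 0 z (n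
 0 z (n 0 z (n 0 z (n 0 z z))))))))))))))))))))) z)))) (n 0 (n 1023 (n 0 z (n 0 z (n 0 z (n 0 z
 z)))) (n 255 (n 0 z (n 0 z (n 0 z (n 0 z z)))) (n 1025 (n 0 z (n 0 z (n 0 z (n 0 z (n 0 z
 z))))) z))) (n 0 (n 3 (n 0 z (n 0 z z)) (n 1 (n 0 z (n 0 z (n 0 z (n 0 z (n 0 z (n 0 z (n 0 z
 (n 0 z (n 0 z (n 0 z (n 0 z (n 0 z (n 0 z (n 0 z (n 0 z (n 0 z (n 0 z z))))))))))))))))) z)) (n
 0 (n 1 (n 0 z (n 0 z (n 0 z (n 0 z (n 0 z (n 0 z (n 0 z (n 0 z (n 0 z (n 0 z z)))))))))) z) (n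
 0 z z)))))))) (n 0 (n 1 (n 1084 z (n 6631691 z (n 1660 z (n 1660 z (n 1660 z (n 1660 z z))))))
 (n 1 (n 6557779 z (n 6557779 z (n 6557779 z (n 6557779 z (n 6557779 z (n 6557779 z z)))))) (n 1
 (n 4395107 z (n 6624267 z (n 6624267 z (n 6624267 z (n 6624267 z (n 6624267 z z)))))) (n 1 (n
 6631691 z (n 4261419 z (n 1660 z (n 1660 z (n 4396635 z (n 1660 z z)))))) z)))) (n 0 z z)))) (n
 0x8e2370711901b1484589c2444a1342261500 (n 0 (n 479 (n 0 z (n 6635571 z (n 0 z (n 0 z (n 0 z (n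
 2 z (n 0 z (n 0 z (n 0 z (n 0 z z)))))))))) (n 57 (n 0 z (n 0 z (n 10 z (n 0 z (n 0 z (n
 3278363 z z)))))) (n 9 (n 0 z (n 0 z (n 18 z (n 3212843 z (n 0 z (n 0 z z)))))) (n 3 (n 0 z (n
 0 z (n 6567179 z (n 6567179 z (n 0 z (n 0 z (n 0 z (n 26 z (n 0 z z))))))))) (n 1 (n 0 z (n 34
 z (n 6635571 z (n 6567179 z (n 0 z (n 0 z (n 0 z (n 42 z (n 0 z z))))))))) (n 0 (n 0 z (n 0 z
 (n 6635571 z (n 50 z (n 0 z (n 0 z (n 0 z z))))))) z)))))) (n 57 (n 0 (n 139 (n 0 z (n 0 z (n 0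
 z (n 0 z (n 0 z (n 0 z (n 0 z (n 0 z (n 0 z (n 0 z z)))))))))) (n 141 (n 0 z (n 0 z (n 0 z (n 0
 z (n 0 z (n 0 z z)))))) (n 213 (n 0 z (n 0 z (n 0 z (n 0 z (n 0 z (n 0 z (n 0 z (n 0 z (n 0 z
 z))))))))) (n 137 (n 0 z (n 0 z (n 0 z (n 0 z (n 0 z (n 0 z (n 0 z (n 0 z (n 0 z (n 0 z (n 0 z
 (n 0 z (n 0 z z))))))))))))) (n 137 (n 0 z (n 0 z (n 0 z (n 0 z (n 0 z (n 0 z (n 0 z (n 0 z (n
 0 z (n 0 z (n 0 z (n 0 z (n 0 z z))))))))))))) (n 113 (n 0 z (n 0 z (n 0 z (n 0 z (n 0 z (n 0 z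
 (n 0 z (n 0 z z)))))))) z)))))) (n 0 (n 363 (n 0 z (n 0 z (n 0 z (n 0 z (n 0 z (n 0 z (n 0 z
 z))))))) (n 393 (n 0 z (n 0 z (n 0 z (n 0 z (n 0 z (n 0 z (n 0 z (n 0 z (n 0 z (n 0 z
 z)))))))))) (n 777 (n 0 z (n 0 z (n 0 z (n 0 z (n 0 z (n 0 z (n 0 z z))))))) (n 777 (n 0 z (n 0
 z (n 0 z (n 2 (n 1 z z) (n 0 z (n 0 z (n 0 z z))))))) (n 361 (n 0 z (n 0 z (n 0 z (n 0 z (n 0 z
 z))))) z))))) (n 0 (n 633 (n 0 z (n 0 z (n 0 z (n 0 z (n 0 z z))))) (n 825 (n 0 z (n 0 z (n 0 z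
 (n 0 z (n 0 z (n 0 z (n 0 z z))))))) (n 825 (n 0 z (n 0 z (n 0 z (n 2 (n 1 z z) (n 0 z (n 0 z
 (n 0 z z))))))) (n 601 (n 0 z (n 2 z (n 0 z (n 0 z (n 0 z (n 0 z (n 0 z (n 0 z (n 0 z (n 0 z
 z)))))))))) z)))) (n 0 (n 3 (n 0 z (n 0 z (n 0 z (n 0 z (n 0 z (n 0 z (n 0 z (n 0 z (n 0 z (n 0
 z z)))))))))) (n 3 (n 0 z (n 0 z (n 0 z (n 0 z (n 0 z (n 0 z (n 0 z (n 0 z (n 0 z (n 0 z
 z)))))))))) (n 1 (n 0 z (n 0 z (n 0 z (n 0 z (n 0 z (n 0 z (n 0 z (n 0 z (n 0 z (n 0 z (n 0 z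
 z))))))))))) z))) (n 0 (n 0 z (n 1 (n 0 z (n 0 z (n 0 z (n 0 z (n 0 z (n 0 z z)))))) z)) (n 0
 (n 25 (n 0 z (n 0 z (n 0 z (n 0 z (n 0 z (n 0 z (n 0 z (n 0 z (n 0 z z))))))))) z) (n 0 z
 z))))))) (n 0 (n 0 z (n 0 z (n 1 (n 3836 z (n 5309995 z (n 3836 z (n 3836 z (n 3836 z (n 3836 z
 z)))))) (n 0 z (n 0 z (n 1 (n 3278363 z (n 3278363 z (n 3278363 z (n 3278363 z (n 3278363 z (n
 3278363 z z)))))) z)))))) (n 0 z z)))) (n 0x42b64 (n 0 (n 323 (n 0 z (n 0 z (n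
 0x6a6517ec7ca7bd7a27c47e883487f8747c982b87b8067eb8278798328197e17c67dd82f7ee7d67f87a17b97bc8398147c58068388257f983582d7ca8258147ab7d17cc8828518507b77b085581d0051
 z (n 0 z (n 0 z (n 6561875 z (n 0 z (n 0 z (n 0 z (n 0 z z)))))))))) (n 255 (n 0 z (n 0 z (n 0
 z (n 0 z (n 0 z (n 3278363 z z)))))) (n 9 (n 0 z (n 0 z (n 0 z (n 0 z (n 6561875 z (n 0 z (n 0
 z z))))))) (n 253 (n 0 z (n 2164283 z z)) (n 1 (n 2 z (n 0 z (n 0 z (n 6561875 z (n 0 z z)))))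
 (n 0 (n 0 z (n 0 z (n 0 z (n 6628363 z (n 0 z (n 0 z (n 0 z (n 0 z z)))))))) z)))))) (n 253 (n
 0 z z) (n 0 (n 0 z (n 1 (n 2164283 z (n 2164283 z (n 2164283 z (n 2164283 z (n 2164283 z (n
 2164283 z z)))))) z)) (n 0 z z)))) (n 0x3594a1944d81146405131c62351904a71a0cc650261398119440 (n
 0 (n 573 (n 6426707 z (n
 0x18ca4a84203837a7e8c7a8281837f7f808a7d7b6a8690808083788581827d8d828a817a8b887a857c7c82807e8387807c8185867e7084800809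
 z (n
 0x4ab2189c6437787867c6f858e8f757a8c81916e8670817f9372947c8e80827481949a6b877e7a6a7e7a6d8ca263867d8b7c7d9f8f6b86900089
 z (n 2 z (n 6619675 z (n
 0x2ca4ca420381807f817f7f817f7f807e827f81817f7f8181817f8081827f818080808081807f8081808080818080818080807f80807f800809
 z (n 6426707 z (n 10 z z)))))))) (n 571 (n 0 z (n 18 z (n 0 z (n 26 z (n 0 z (n 6426707 z (n 0
 z (n 0 z (n 0 z (n 6426707 z z)))))))))) (n 572 (n 34 z (n 6426707 z (n 0 z (n 42 z (n 0 z (n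
 6426707 z (n 0 z (n 0 z (n 0 z z))))))))) (n 3 (n 2164283 z (n 0 z (n 0 z z))) (n 1 (n 2164299
 z (n 0 z (n 50 z (n 0 z (n 58 z (n 0 z (n 0 z z))))))) (n 0 (n 0 z (n 6619675 z (n 66 z (n
 0x4d6427f7c8b7f7e7f82877f80827e7c7786808086857d8e7d7c7d7e87856c6e778681807f7f8589816a7f6c8b8a847f947f81817d0049
 z (n 74 z (n
 0x4d6207f7c8b7f7e7f82877f80827e7c7786808086857d8e7d7c7d7e87856c6e778681807f7f8589816a7f6c8b8a847f947f81817d0049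
 z (n 0 z z))))))) z)))))) (n 3 (n 0 (n 0 z (n 875 (n 0 z (n 0 z (n 0 z (n 0 z (n 0 z (n 0 z (n
 0 z (n 0 z z)))))))) (n 875 (n 0 z (n 0 z (n 0 z (n 0 z (n 0 z (n 0 z (n 0 z (n 0 z z))))))))
 (n 103 (n 0 z (n 0 z (n 0 z (n 0 z (n 0 z (n 0 z (n 0 z (n 0 z (n 0 z (n 0 z (n 0 z
 z))))))))))) (n 103 (n 0 z (n 0 z (n 0 z (n 0 z (n 0 z (n 0 z (n 0 z (n 0 z (n 0 z (n 0 z (n 0
 z z))))))))))) (n 15 (n 0 z (n 0 z (n 0 z (n 0 z (n 0 z (n 0 z (n 0 z (n 0 z (n 0 z (n 0 z (n 0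
 z z))))))))))) (n 15 (n 0 z (n 0 z (n 0 z (n 0 z (n 0 z (n 0 z (n 0 z (n 0 z (n 0 z (n 0 z (n 0
 z z))))))))))) (n 13 (n 0 z (n 0 z (n 0 z (n 0 z (n 0 z (n 0 z (n 0 z (n 0 z (n 0 z (n 0 z (n 0
 z (n 0 z (n 0 z z))))))))))))) (n 13 (n 0 z (n 0 z (n 0 z (n 0 z (n 2 z (n 0 z (n 0 z (n 0 z (n
 0 z (n 0 z (n 0 z (n 0 z (n 0 z z))))))))))))) z))))))))) (n 0 (n 1115 (n 0 z (n 0 z (n 0 z (n
 0 z (n 0 z z))))) (n 1115 (n 0 z (n 0 z (n 0 z (n 0 z (n 0 z z))))) (n 747 (n 0 z (n 0 z (n 0 z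
 (n 0 z (n 0 z (n 0 z (n 0 z (n 0 z (n 7546443 z (n 0 z (n 0 z (n 0 z (n 0 z (n 0 z (n 0 z (n 0
 z (n 0 z (n 0 z (n 0 z (n 0 z (n 0 z (n 0 z (n 0 z (n 0 z (n 0 z z))))))))))))))))))))))))) (n
 747 (n 0 z (n 0 z (n 0 z (n 0 z (n 0 z (n 0 z (n 2 (n 2 (n 0 z (n 0 (n 7682155 z z) (n 0 z (n 0
 z (n 0 (n 2916 z (n 7682155 z z)) (n 0 z z)))))) (n 2 (n 0 (n 2916 z z) (n 0 z (n 0 (n 6490139
 z z) (n 0 z (n 0 (n 2916 z (n 8728691 z z)) (n 0 z z)))))) (n 1 z (n 2 (n 0 z (n 0 z (n 0 z (n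
 0 (n 8803363 z z) (n 0 (n 8803363 z (n 8803363 z z)) (n 0 (n 8803363 z z) z)))))) z)))) (n 0 z
 (n 0 z (n 0 z (n 0 z (n 0 z (n 0 z (n 0 z (n 0 z (n 0 z (n 0 z (n 0 z (n 0 z (n 0 z (n 0 z (n 0
 z (n 0 z (n 0 z (n 0 z z))))))))))))))))))))))))) (n 729 (n 0 z (n 0 z (n 0 z (n 0 z (n 0 z (n
 0 z (n 0 z (n 0 z (n 0 z (n 0 z (n 0 z (n 0 z z)))))))))))) (n 729 (n 0 z (n 0 z (n 0 z (n 0 z
 (n 0 z (n 0 z (n 0 z (n 0 z (n 0 z (n 0 z (n 0 z (n 0 z z)))))))))))) (n 745 (n 0 z (n 0 z (n 0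
 z (n 0 z (n 0 z (n 0 z z)))))) (n 745 (n 0 z (n 7754787 z (n 0 z (n 0 z (n 0 z (n 0 z z))))))
 z)))))))) (n 0 (n 0 z (n 795 (n 0 z (n 0 z (n 0 z (n 0 z (n 0 z (n 0 z (n 0 z (n 0 z (n 0 z (n
 0 z z)))))))))) (n 795 (n 0 z (n 0 z (n 0 z (n 0 z (n 0 z (n 0 z (n 0 z (n 0 z (n 0 z (n 0 z
 z)))))))))) (n 3 (n 0 z (n 0 z (n 0 z (n 0 z (n 0 z (n 0 z z)))))) (n 3 (n 0 z (n 0 z (n 0 z (n
 0 z (n 0 z (n 0 z z)))))) (n 1 (n 0 z (n 0 z (n 0 z (n 0 z (n 0 z (n 0 z (n 0 z (n 0 z (n 0 z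
 (n 0 z (n 0 z (n 0 z (n 0 z z))))))))))))) (n 1 (n 0 z (n 0 z (n 0 z (n 0 z (n 0 z (n 0 z (n 2
 z (n 0 z (n 0 z (n 0 z (n 0 z (n 0 z (n 0 z z))))))))))))) z))))))) (n 0 (n 1145 (n 0 z (n 0 z
 (n 0 z (n 0 z (n 0 z (n 0 z (n 0 z (n 0 z (n 0 z (n 0 z (n 0 z (n 0 z z)))))))))))) (n 1145 (n
 0 z (n 0 z (n 0 z (n 0 z (n 0 z (n 0 z (n 0 z (n 0 z (n 0 z (n 0 z (n 0 z (n 0 z z))))))))))))
 (n 483 (n 0 z (n 0 z (n 2 (n 0 z (n 1 z (n 2 (n 0 z (n 0 z (n 0 z (n 0 z (n 0 z (n 0 z z))))))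
 z))) (n 0 z (n 0 z (n 0 z (n 0 z (n 0 z z)))))))) (n 483 (n 0 z (n 0 z (n 0 z (n 2 (n 1 z (n 2
 (n 0 z (n 0 z (n 0 z (n 0 z (n 0 z (n 0 z z)))))) z)) (n 0 z (n 0 z (n 0 z (n 0 z z)))))))) (n
 481 (n 0 z (n 2 (n 0 z z) (n 0 z (n 0 z z)))) (n 481 (n 0 z (n 0 z (n 0 z (n 2 z z)))) z))))))
 (n 0 (n 0 z (n 531 (n 0 z (n 0 z (n 0 z (n 0 z (n 0 z (n 0 z (n 0 z (n 0 z (n 0 z (n 0 z (n 0 z
 (n 0 z (n 0 z z))))))))))))) (n 531 (n 0 z (n 0 z (n 0 z (n 0 z (n 0 z (n 0 z (n 0 z (n 0 z (n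
 0 z (n 0 z (n 0 z (n 0 z (n 0 z z))))))))))))) (n 529 (n 0 z (n 0 z (n 0 z (n 0 z (n 0 z (n 0 z
 (n 0 z (n 0 z (n 0 z (n 0 z z)))))))))) (n 529 (n 0 z (n 0 z (n 2 z (n 0 z (n 0 z (n 0 z (n 0 z
 (n 0 z (n 0 z (n 0 z z)))))))))) z))))) (n 0 (n 255 (n 0 z (n 0 z (n 0 z (n 2 (n 0 z (n 1 z (n
 2 (n 0 z (n 0 z (n 0 z (n 0 z (n 0 z (n 0 z z)))))) z))) (n 0 z (n 0 z (n 0 z (n 0 z z))))))))
 (n 255 (n 0 z (n 0 z (n 2 (n 1 z (n 2 (n 0 z (n 0 z (n 0 z (n 0 z (n 0 z (n 0 z z)))))) z)) (n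
 0 z (n 0 z (n 0 z (n 0 z (n 0 z z)))))))) (n 253 (n 0 z (n 0 z (n 0 z (n 0 z (n 0 z (n 0 z (n 0
 z (n 0 z (n 0 z (n 0 z (n 2 (n 0 z z) (n 0 z (n 0 z (n 0 z (n 0 z (n 0 z (n 0 z (n 0 z (n 0 z
 (n 0 z (n 0 z (n 0 z (n 0 z (n 0 z (n 0 z (n 0 z (n 0 z (n 0 z (n 0 z
 z))))))))))))))))))))))))))))) (n 253 (n 0 z (n 0 z (n 0 z (n 0 z (n 0 z (n 0 z (n 0 z (n 0 z
 (n 0 z (n 0 z (n 0 z (n 0 z (n 2 z (n 0 z (n 0 z (n 0 z (n 0 z (n 0 z (n 0 z (n 0 z (n 0 z (n 0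
 z (n 0 z (n 0 z (n 0 z (n 0 z (n 0 z (n 0 z (n 0 z z))))))))))))))))))))))))))))) z)))) (n 0 (n
 0 z (n 1013 (n 0 z (n 0 z (n 0 z (n 0 z (n 0 z (n 0 z (n 0 z (n 0 z (n 0 z (n 0 z (n 0 z (n 0 z
 (n 0 z (n 0 z (n 0 z (n 0 z (n 0 z (n 0 z (n 0 z (n 0 z (n 0 z (n 0 z (n 0 z (n 0 z (n 0 z (n 0
 z (n 0 z (n 0 z (n 0 z (n 0 z (n 0 z (n 0 z (n 0 z (n 0 z (n 0 z (n 0 z (n 0 z (n 0 z (n 0 z (n
 0 z (n 0 z (n 0 z (n 0 z (n 0 z (n 0 z (n 0 z (n 0 z (n 0 z (n 0 z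
 z))))))))))))))))))))))))))))))))))))))))))))))))) (n 1013 (n 0 z (n 0 z (n 0 z (n 0 z (n 0 z
 (n 0 z (n 0 z (n 0 z (n 0 z (n 0 z (n 0 z (n 0 z (n 0 z (n 0 z (n 0 z (n 0 z (n 0 z (n 0 z (n 0
 z (n 0 z (n 0 z (n 0 z (n 0 z (n 0 z (n 0 z (n 0 z (n 0 z (n 0 z (n 0 z (n 0 z (n 0 z (n 0 z (n
 2 z (n 0 z (n 0 z (n 0 z (n 0 z (n 0 z (n 0 z (n 0 z (n 0 z (n 0 z (n 0 z (n 0 z (n 0 z (n 0 z
 (n 0 z (n 0 z (n 0 z z))))))))))))))))))))))))))))))))))))))))))))))))) z))) (n 0 (n 157 (n 0 z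
 (n 0 z (n 0 z (n 0 z (n 0 z (n 0 z (n 0 z (n 0 z (n 0 z (n 0 z (n 0 z (n 0 z (n 0 z (n 0 z (n 0
 z (n 0 z (n 0 z (n 0 z (n 0 z (n 0 z (n 0 z (n 0 z (n 0 z (n 0 z (n 0 z (n 0 z (n 0 z (n 0 z (n
 0 z (n 0 z (n 0 z (n 0 z (n 0 z (n 0 z (n 0 z (n 0 z (n 0 z (n 0 z (n 0 z (n 0 z (n 0 z (n 0 z
 (n 0 z (n 0 z (n 0 z (n 0 z (n 0 z (n 0 z (n 0 z (n 0 z (n 0 z (n 0 z (n 0 z (n 0 z (n 0 z (n 0
 z z)))))))))))))))))))))))))))))))))))))))))))))))))))))))) (n 157 (n 0 z (n 0 z (n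
 0x26ea4c8420381806e7ca3857651827976709e8965a75e62888f66859c7b83729ca4b6b87a757a677e71698db16eac435f674c3d96777f8b0809
 z (n
 0xeea4c842078b72808a72867e857485848b76797f718f7f7878907c83857f8688877d7696987d8781748d7b7384668d658680937b697d820809
 z (n 0 z (n 0 z (n 0 z (n 0 z (n 0 z (n 0 z (n 0 z (n 0 z (n 0 z (n 0 z (n 0 z (n 0 z (n 0 z (n
 0 z (n 0 z (n 0 z (n 0 z (n 0 z (n 0 z (n 0 z (n 0 z (n 0 z (n 0 z (n 0 z (n 0 z (n 0 z (n 0 z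
 (n 0 z (n 0 z (n 0 z (n 0 z (n 0 z (n 0 z (n 0 z (n 0 z (n 0 z (n 0 z (n 0 z (n 0 z (n 0 z (n 0
 z (n 0 z (n 0 z (n 0 z (n 0 z (n 0 z (n 0 z (n 0 z (n 0 z (n 0 z (n 0 z (n 0 z
 z)))))))))))))))))))))))))))))))))))))))))))))))))))))))) z)) (n 0 (n 0 z z) (n 0 z z))))))))))
 (n 0 (n 1 (n 2164283 z (n 2164283 z (n 2164283 z (n 2164283 z (n 2164283 z (n 2164283 z z))))))
 (n 0 z (n 0 z z))) (n 0 z z)))) (n 0x5763a1db2d82126116cb23049658b2ba88951744a8bb45253819 (n 0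
 (n 563 (n 0 z (n 3282443 z (n 0 z z))) (n 571 (n 3278363 z (n 0 z (n 2 z (n 10 z (n 0 z z)))))
 (n 562 (n 6566419 z (n 6566419 z (n 0 z (n 6566419 z (n 0 z (n
 0xc82c60a038017ff8017ff8007fe7ff8008008008008008008008018018008008018008008008008008007fe8037fc8008008007ff8008008008008008008008008008008008017ff8008008007ff8000811
 z (n 0 z (n
 0x18ca4a806038017fb7ed7ce8357d77d380283a8388208037e883f7e681d7ed8178358357c77cf7bd7f77f378f82b7c78207cd81a7e57d683e80482f8507cb7b18488cc7ad8327b474c8187b382f7da7c40811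
 z (n 18 z (n 6427707 z (n 26 z z))))))))))) (n 3 (n 6566419 z (n 34 z (n 0 z (n 6566419 z (n 42
 z (n 0 z z)))))) (n 1 (n 0 z (n 6566419 z (n 0 z (n 0 z (n 0 z (n 50 z (n 6566419 z (n 0 z (n 0
 z (n 0 z (n 58 z z))))))))))) (n 0 (n 0 z (n 2164315 z (n 0 z (n 66 z (n 0 z (n 0 z (n 74 z (n
 0 z z)))))))) z)))))) (n 563 (n 0 (n 0 z (n 477 (n 0 z (n 0 z (n 0 z (n 0 z (n 0 z (n 2 (n 0 z
 (n 2 (n 0 z (n 0 z (n 0 z (n 0 z (n 0 z (n 0 z z)))))) (n 1 z (n 2 (n 0 z (n 0 z (n 0 z (n 0 z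
 (n 0 z (n 0 z z)))))) (n 1 z (n 2 (n 0 z (n 0 z (n 0 z (n 0 z (n 0 z (n 0 z z)))))) (n 2 (n 0 z
 (n 0 z (n 0 z (n 0 z (n 0 z (n 0 z z)))))) z))))))) (n 0 z (n 0 z (n 0 z z))))))))) (n 477 (n 0
 z (n 0 z (n 0 z (n 0 z (n 7754051 z (n 0 z (n 0 z (n 0 z (n 0 z z))))))))) (n 469 (n 0 z (n 0 z
 (n 0 z (n 0 z (n 0 z (n 0 z (n 0 z (n 0 z (n 0 z (n 0 z (n 0 z (n 2 (n 0 z (n 2 (n 0 z (n 0 z
 (n 0 z (n 0 z (n 0 z (n 0 z z)))))) (n 1 z (n 2 (n 0 z (n 0 z (n 0 z (n 0 z (n 0 z (n 0 z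
 z)))))) (n 2 (n 0 z (n 0 z (n 0 z (n 0 z (n 0 z (n 0 z z)))))) z))))) (n 0 z (n 0 z
 z)))))))))))))) (n 469 (n 0 z (n 2 (n 2 (n 0 z (n 0 z (n 0 z (n 0 z (n 0 z (n 0 z z)))))) (n 1
 z (n 2 (n 0 z (n 0 z (n 0 z (n 0 z (n 0 z (n 0 z z)))))) (n 2 (n 0 z (n 0 z (n 0 z (n 0 z (n 0
 z (n 0 z z)))))) z)))) (n 0 z (n 0 z (n 0 z (n 0 z (n 0 z (n 0 z (n 0 z (n 0 z (n 0 z (n 0 z (n
 0 z (n 0 z z)))))))))))))) (n 457 (n 0 z (n 0 z (n 0 z (n 0 z (n 0 z (n 0 z (n 0 z (n 0 z (n 0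
 z (n 0 z (n 0 z (n 0 z (n 0 z (n 0 z (n 0 z (n 0 z (n 0 z (n 0 z (n 0 z (n 0 z (n 0 z (n 0 z (n
 0 z (n 0 z (n 0 z (n 0 z (n 0 z (n 2 (n 0 z (n 1 z (n 2 (n 0 z (n 0 z (n 0 z (n 0 z (n 0 z (n 0
 z z)))))) z))) (n 0 z (n 0 z (n 0 z (n 0 z z)))))))))))))))))))))))))))))))) (n 457 (n 0 z (n 2
 (n 2 (n 0 z (n 0 z (n 0 z (n 0 z (n 0 z (n 0 z z)))))) (n 2 (n 0 z (n 0 z (n 0 z (n 0 z (n 0 z
 (n 0 z z)))))) z)) (n 6428427 z (n 0 z (n 0 z (n 0 z (n 0 z (n 0 z (n 0 z (n 0 z (n 0 z (n 0 z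
 (n 0 z (n 0 z (n 0 z (n 0 z (n 0 z (n 0 z (n 0 z (n 0 z (n 0 z (n 0 z (n 0 z (n 0 z (n 0 z (n 0
 z (n 0 z (n 0 z (n 0 z (n 0 z (n 0 z (n 0 z z)))))))))))))))))))))))))))))))) (n 1117 (n 0 z (n
 0 z (n 0 z (n 0 z (n 2 (n 0 z z) (n 0 z (n 0 z (n 0 z (n 0 z z))))))))) (n 1117 (n 0 z (n 0 z
 (n 0 z (n
 0x19d4d90c806004ec6ec60038027f481d8028007df7e38577e980181e7e08037e580782480d7f58377bc8207f07d880a7ff7ac83e7c08337f87fc8227e08497fd8037ed7ff8278138417988407d67d980383d8127c18091011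
 z (n 0 z (n 0 z (n 0 z (n 0 z (n 0 z z))))))))) z))))))))) (n 0 (n 1293 (n 0 z (n 0 z (n 0 z (n
 0 z (n 0 z (n 0 z (n 0 z (n 0 z (n 0 z (n 0 z z)))))))))) (n 1293 (n 0 z (n 0 z (n 0 z (n 0 z
 (n 0 z (n 0 z (n 0 z (n 0 z (n 0 z (n 0 z z)))))))))) (n 1285 (n 0 z (n 0 z (n 0 z (n 0 z (n 0
 z (n 0 z (n 0 z z))))))) (n 1285 (n 2 (n 1 z (n 1 z (n 1 z (n 1 z z)))) (n 0 z (n 0 z (n 0 z (n
 0 z (n 0 z (n 0 z z))))))) (n 63 (n 0 z (n 0 z (n 0 z (n 0 z (n 0 z (n 0 z (n 0 z (n 0 z (n 0 z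
 (n 0 z (n 0 z (n 0 z z)))))))))))) (n 63 (n 0 z (n 0 z (n 0 z (n 0 z (n 0 z (n 0 z (n 0 z (n 0
 z (n 0 z (n 0 z (n 0 z (n 2 (n 1 z (n 2 (n 0 z (n 0 z (n 0 z (n 0 z (n 0 z (n 0 (n 8799011 z z)
 z)))))) z)) z)))))))))))) (n 865 (n 0 z (n 0 z (n 0 z (n 0 z (n 0 z (n 0 z (n 0 z (n 0 z (n 0 z
 (n 0 z (n 0 z (n 0 z (n 0 z (n 0 z (n 0 z (n 0 z (n 0 z (n 0 z (n 0 z (n 0 z (n 0 z
 z))))))))))))))))))))) (n 865 (n 0 z (n 0 z (n 0 z (n 0 z (n 0 z (n 0 z (n 0 z (n 0 z (n 0 z (n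
 0 z (n 0 z (n 0 z (n 0 z (n 0 z (n 0 z (n 0 z (n 0 z (n 0 z (n 0 z (n 0 z (n 0 z
 z))))))))))))))))))))) z)))))))) (n 0 (n 0 z (n 1337 (n 0 z (n 0 z (n 0 z (n 0 z (n 0 z (n 0 z
 (n 0 z (n 0 z z)))))))) (n 1337 (n 0 z (n 0 z (n 0 z (n 0 z (n 0 z (n 0 z (n 0 z (n 0 z
 z)))))))) (n 261 (n 0 z (n 0 z (n 0 z (n 0 z (n 0 z (n 0 z (n 0 z (n 0 z (n 0 z z))))))))) (n
 261 (n 0 z (n 0 z (n 0 z (n 0 z (n 0 z (n 0 z (n 0 z (n 0 z (n 0 z z))))))))) (n 877 (n 0 z (n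
 0 z (n 0 z (n 0 z (n 0 z (n 0 z (n 0 z (n 0 z (n 0 z z))))))))) (n 877 (n 0 z (n 0 z (n 0 z (n
 0 z (n 0 z (n 0 z (n 0 z (n 0 z (n 0 z z))))))))) z))))))) (n 0 (n 273 (n 0 z (n 0 z (n 0 z (n
 0 z (n 0 z (n 0 z z)))))) (n 273 (n 0 z (n 0 z (n 0 z (n 0 z (n 0 z (n 0 z z)))))) (n 261 (n 0
 z (n 0 z (n 0 z (n 0 z (n 0 z (n 0 z (n 0 z (n 0 z (n 0 z (n 0 z (n 0 z (n 0 z (n 0 z (n 0 z (n
 0 z (n 0 z (n 0 z (n 0 z (n 0 z (n 0 z (n 0 z (n 0 z (n 0 z z))))))))))))))))))))))) (n 261 (n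
 0 z (n 0 z (n 0 z (n 0 z (n 0 z (n 0 z (n 0 z (n 0 z (n 0 z (n 0 z (n 0 z (n 0 z (n 0 z (n 0 z
 (n 0 z (n 0 z (n 0 z (n 0 z (n 0 z (n 0 z (n 0 z (n 2 (n 2 (n 0 z (n 0 z (n 0 (n 7407723 z z)
 (n 0 z (n 0 z (n 0 (n 3572 z (n 7407723 z z)) z)))))) (n 2 (n 0 (n 6424635 z z) (n 0 z (n 0 z
 (n 0 z (n 0 (n 3572 z z) (n 0 (n 8523891 z (n 3572 z z)) z)))))) z)) (n 0 z
 z))))))))))))))))))))))) (n 893 (n 0 z (n 0 z (n 0 z (n 0 z (n 0 z (n 0 z (n 0 z (n 0 z (n 0 z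
 (n 0 z (n 0 z (n 0 z (n 0 z (n 0 z (n 0 z (n 0 z (n 0 z (n 0 z z)))))))))))))))))) (n 893 (n 0
 z (n 0 z (n 0 z (n 0 z (n 0 z (n 0 z (n 0 z (n 0 z (n 0 z (n 0 z (n 0 z (n 0 z (n 0 z (n 0 z (n
 0 z (n 0 z (n 0 z (n 0 z z)))))))))))))))))) z)))))) (n 0 (n 0 z (n 9 (n 0 z (n 0 z (n 0 z (n 0
 z (n 0 z (n 0 z (n 0 z (n 0 z (n 0 z (n 0 z (n 0 z (n 0 z (n 0 z (n 0 z z)))))))))))))) (n 9 (n
 0 z (n 0 z (n 0 z (n 0 z (n 0 z (n 0 z (n 0 z (n 0 z (n 0 z (n 0 z (n 0 z (n 0 z (n 0 z (n 0 z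
 z)))))))))))))) (n 5 (n 0 z (n 0 z (n 0 z (n 0 z (n 0 z (n 0 z (n 0 z z))))))) (n 5 (n 0 z (n 0
 z (n 0 z (n 0 z (n 0 z (n 0 z (n 0 z z))))))) z))))) (n 0 (n 723 (n 0 z (n 0 z (n 0 z (n 0 z (n
 0 z (n 0 z (n 0 z (n 0 z (n 0 z (n 0 z (n 0 z (n 0 z z)))))))))))) (n 723 (n 0 z (n 0 z (n 0 z
 (n 0 z (n 0 z (n 0 z (n 0 z (n 0 z (n 0 z (n 0 z (n 0 z (n 0 z z)))))))))))) (n 721 (n 0 z (n 0
 z (n 0 z (n 2 (n 0 z z) (n 0 z (n 0 z (n 0 z (n 0 z (n 0 z (n 0 z z)))))))))) (n 721 (n 0 z (n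
 0 z (n 0 z (n 0 z (n 0 z (n 0 z (n 2 z (n 0 z (n 0 z (n 0 z z)))))))))) z)))) (n 0 (n 0 z (n 1
 (n 0 z (n 0 z (n 0 z (n 0 z (n 0 z (n 0 z (n 0 z (n 0 z (n 0 z (n 0 z z)))))))))) (n 1 (n 0 z
 (n 0 z (n 0 z (n 0 z (n 0 z (n 0 z (n 0 z (n 0 z (n 0 z (n 0 z z)))))))))) z))) (n 0 (n 145 (n
 0 z (n 0 z (n 0 z (n 0 z (n 0 z (n 0 z (n 2 (n 0 z z) (n 0 z (n 0 z (n 0 z z)))))))))) (n 145
 (n 0 z (n 0 z (n 0 z (n 2 z (n 0 z (n 0 z (n 0 z (n 0 z (n 0 z (n 0 z z)))))))))) z)) (n 0 (n 0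
 z z) (n 0 z z)))))))))) (n 0 (n 0 z (n 1 (n 3282443 z (n 3282443 z (n 3282443 z (n 3282443 z (n
 3282443 z (n 3282443 z z)))))) (n 0 z z))) (n 0 z z)))) (n
 0x2d71515d9684993604c98c48d488325b6234f421451204a8482944982624c80dc8c0 (n 0x224c9 (n 399 (n 0 z
 (n 0 z (n 2 z (n 10 z (n 6492243 z (n 0 z (n 0 z (n 0 z (n 0 z (n 0 z (n 0 z z))))))))))) (n 33
 (n 0 z (n
 0x4cca6a604037cb7e880081c7d983a8287f37b17f88467f87f17c18187987f284185277e8707d584b82a7ed8427db84e8187e17da8208227848067fd7bc86b8417db78a86c79d81f8578357fc80582982b0811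
 z (n 18 z (n 6492243 z (n 6492243 z z))))) (n 171 (n 26 z (n 0 z (n 34 z (n 42 z (n 3212843 z
 (n 0 z (n 0 z z))))))) (n 3 (n 0 z (n 50 z (n 58 z (n 6492243 z (n 6492243 z (n 0 z z)))))) (n
 1 (n 0 z (n 0 z (n 2164299 z (n 66 z (n 74 z (n 0 z (n 0 z (n 0 z z)))))))) (n 0 (n 82 z (n
 0xdb6218267e180082b8007ee7ce80482d7ff7bc82381f83f7e282b7e27e17e788e75d82e7c28397f77fd7e57dd8388297f37e47d187e7fa7ce7d87a080282084d7b98137ec7fd8338307c67d380b0051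
 z (n 6624011 z (n 0 z (n 6624011 z (n 90 z (n
 0x6b6108157f08008098007eb7ed8028487fb7c181282383c7ea8307e87dd7ea85f75d8117ee8308037f77f37d782082c7fa7f97ea8927fa7bf7cd7a780581a8437857f37ce84483d8557c07e18220051
 z (n 0 z (n 98 z (n
 0xac86c86007887f808e89797c748c7e76858e8177877874799b7685757c808d7f7983888380658486818f6d6c96867d8b7d6590776d7b7d0809
 z (n 0 z z))))))))))) z)))))) (n 33 (n 0 (n 0 z (n 1115 (n 0 z (n 0 z (n 0 z (n 2 (n 2 (n 0 z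
 (n 0 z (n 0 z (n 0 z (n 0 z (n 0 (n 3180 z z) z)))))) (n 2 (n 0 z (n 0 z (n 0 z (n 0 z (n 0 z
 (n 0 z z)))))) (n 2 (n 0 z (n 0 z (n 0 (n 8733027 z z) (n 0 (n 6625323 z z) (n 0 z (n 0 (n
 7673899 z (n 3180 z z)) z)))))) (n 1 z (n 2 (n 0 z (n 0 z (n 0 z (n 0 z (n 0 z (n 0 (n 8855811
 z z) z)))))) (n 1 z (n 2 (n 0 z (n 0 z (n 0 z (n 0 z (n 0 z (n 0 (n 8855811 z z) z)))))) (n 2
 (n 0 z (n 0 z (n 0 z (n 0 z (n 0 z (n 0 (n 8855811 z z) z)))))) (n 2 (n 0 z (n 0 z (n 0 z (n 0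
 z (n 0 z (n 0 (n 5 z z) z)))))) (n 2 (n 0 z (n 0 z (n 0 z (n 0 z (n 0 z (n 0 z z))))))
 z)))))))))) (n 7673419 z (n 0 z (n 0 z (n 0 z (n 0 z (n 0 z (n 0 z (n 0 z (n 0 z (n 0 z (n 0 z
 z))))))))))))))) (n 795 (n 0 z (n 0 z (n 2 (n 0 z (n 0 z (n 1 z (n 2 (n 0 z (n 0 z (n 0 z (n 0
 z (n 0 z (n 0 (n 8859667 z z) z)))))) (n 2 (n 0 z (n 0 z (n 0 z (n 0 z (n 0 z (n 0 (n 8799515 z
 z) z)))))) (n 2 (n 0 z (n 0 z (n 0 z (n 0 z (n 0 z (n 0 (n 8859667 z z) z)))))) (n 2 (n 0 z (n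
 0 z (n 0 z (n 0 z (n 0 z (n 0 (n 8859667 z z) z)))))) (n 2 (n 0 z (n 0 z (n 0 z (n 0 z (n 0 z
 (n 0 z z)))))) (n 2 (n 0 z (n 0 z (n 0 z (n 0 z (n 0 z (n 0 z z)))))) z))))))))) (n 0 z (n 0 z
 (n 0 z (n 0 z (n 0 z (n 0 z z))))))))) (n 795 (n 0 z (n 2 (n 0 z (n 1 z (n 2 (n 0 z (n 0 z (n 0
 z (n 0 z (n 0 z (n 0 (n 8855811 z z) z)))))) (n 2 (n 0 z (n 0 z (n 0 z (n 0 z (n 0 z (n 0 (n
 8799515 z z) z)))))) (n 2 (n 0 z (n 0 z (n 0 z (n 0 z (n 0 z (n 0 (n 8855811 z z) z)))))) (n 2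
 (n 0 z (n 0 z (n 0 z (n 0 z (n 0 z (n 0 (n 8855811 z z) z)))))) (n 2 (n 0 z (n 0 z (n 0 z (n 0
 z (n 0 z (n 0 z z)))))) (n 2 (n 0 z (n 0 z (n 0 z (n 0 z (n 0 z (n 0 z z)))))) z)))))))) (n 0 z
 (n 0 z (n 0 z (n 0 z (n 0 z (n 0 z (n 0 z z))))))))) (n 795 (n 0 z (n 0 z (n 0 z (n 0 z (n 0 z
 (n 0 z (n 0 z (n 0 z (n 2 (n 1 z (n 2 (n 0 z (n 0 z (n 0 (n 8733027 z z) (n 0 (n 6559803 z z)
 (n 0 z (n 0 (n 8722219 z (n 1180 z z)) z)))))) (n 1 z (n 2 (n 0 z (n 0 z (n 0 (n 8733027 z z)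
 (n 0 (n 1404 z z) (n 0 z (n 0 (n 8722219 z (n 1404 z z)) z)))))) (n 2 (n 0 z (n 0 z (n 0 z (n 0
 z (n 0 z (n 0 z z)))))) (n 1 z (n 2 (n 0 z (n 0 z (n 0 z (n 0 z (n 0 z (n 0 z z)))))) z)))))))
 z))))))))) (n 295 (n 0 z (n 0 z (n 0 z (n 0 z (n 0 z (n 0 z (n 0 z (n 0 z (n 0 z (n 0 z
 z)))))))))) (n 295 (n 0 z (n 2 (n 1 z (n 1 z (n 1 z (n 1 z (n 2 (n 0 z (n 0 z (n 0 z (n 0 z (n
 0 z (n 0 z z)))))) z))))) (n 0 z (n 0 z (n 0 z (n 0 z (n 0 z (n 0 z (n 0 z (n 0 z z))))))))))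
 (n 351 (n 0 z (n 0 z (n 0 z (n 0 z z)))) (n 351 (n 0 z (n 0 z (n 2 (n 1 z (n 1 z (n 2 (n 0 z (n
 0 z (n 0 z (n 0 z (n 0 z (n 0 z z)))))) z))) (n 0 z z)))) (n 797 (n 0 z (n 2 (n 0 z (n 0 z z))
 (n 0 z (n 0 z (n 0 z (n 0 z (n 0 z (n 0 z (n 0 z (n 0 z (n 0 z (n 0 z (n 0 z (n 0 z (n 0 z (n 0
 z (n 0 z (n 0 z (n 0 z (n 0 z (n 0 z (n 0 z (n 0 z (n 0 z (n 0 z z))))))))))))))))))))))))) (n
 797 (n 0 z (n 0 z (n 0 z (n 0 z (n 0 z (n 0 z (n 0 z (n 0 z (n 0 z (n 0 z (n 0 z (n 0 z (n 0 z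
 (n 0 z (n 0 z (n 0 z (n 0 z (n 0 z (n 0 z (n 0 z (n 0 z (n 2 (n 0 z z) (n 0 z (n 0 z (n 0 z
 z))))))))))))))))))))))))) (n 797 (n 0 z (n 0 z (n 0 z (n 0 z (n 0 z (n 0 z (n 0 z (n 0 z (n 0
 z (n 0 z (n 0 z (n 0 z (n 0 z (n 0 z (n 0 z (n 0 z (n 0 z (n 0 z (n 0 z (n 0 z (n 0 z (n 0 z (n
 0 z (n 0 z (n 0 z z))))))))))))))))))))))))) z)))))))))))) (n 0 (n 127 (n 0 z (n 0 z (n 0 z (n
 0 z (n 0 z (n 0 z (n 0 z (n 0 z (n 0 z (n 0 z (n 0 z (n 0 z (n 0 z (n 0 z (n 0 z (n 0 z (n 0 z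
 (n 0 z (n 0 z (n 0 z (n 0 z (n 0 z z)))))))))))))))))))))) (n 259 (n 0 z (n 0 z (n 0 z (n 0 z
 (n 0 z (n 0 z (n 0 z z))))))) (n 259 (n 0 z (n 0 z (n 0 z (n 0 z (n 0 z (n 0 z (n 0 z z)))))))
 (n 259 (n 0 z (n 0 z (n 0 z (n 0 z (n 0 z (n 0 z (n 0 z z))))))) (n 27 (n 0 z (n 0 z (n 0 z (n
 2 (n 0 z (n 1 z (n 2 (n 0 z (n 0 z (n 0 z (n 0 z (n 0 z (n 0 (n 8794131 z z) z)))))) (n 1 z (n
 2 (n 0 z (n 0 z (n 0 z (n 0 z (n 0 z (n 0 z z)))))) (n 2 (n 0 z (n 0 z (n 0 z (n 0 z (n 0 z (n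
 0 z z)))))) z)))))) (n 0 z (n 0 z (n 0 z (n 0 z (n 0 z z))))))))) (n 27 (n 0 z (n 0 z (n 0 z (n
 0 z (n 0 z (n 0 z (n 0 z (n 0 z (n 0 z z))))))))) (n 255 (n 0 z (n 2 (n 0 z (n 2 (n 0 z (n 0 z
 (n 0 z (n 0 z (n 0 z (n 0 z z)))))) (n 2 (n 0 z (n 0 z (n 0 z (n 0 z (n 0 z (n 0 z z)))))) (n 2
 (n 0 z (n 0 z (n 0 z (n 0 z (n 0 z (n 0 z z)))))) z)))) (n 0 z (n 0 z (n 0 z (n 0 z (n 0 z (n 0
 z z)))))))) (n 255 (n 0 z (n 0 z (n 0 z (n 0 z (n 0 z (n 0 z (n 0 z (n 0 z z)))))))) (n 253 (n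
 0 z (n 0 z (n 0 z (n 0 z (n 0 z (n 0 z (n 0 z (n 0 z (n 0 z (n 0 z (n 0 z (n 0 z (n 0 z (n 0 z
 z)))))))))))))) (n 253 (n 0 z (n 0 z (n 0 z (n 0 z (n 0 z (n 0 z (n 0 z (n 0 z (n 0 z (n 0 z (n
 6561907 z (n 0 z (n 0 z (n 0 z z)))))))))))))) (n 253 (n 0 z (n 0 z (n 0 z (n 0 z (n 0 z (n 0 z
 (n 0 z (n 0 z (n 0 z (n 2 z (n 0 z (n 0 z (n 0 z (n 0 z z)))))))))))))) z))))))))))) (n 0 (n
 259 (n 0 z (n 0 z (n 0 z (n 0 z (n 0 z (n 0 z (n 0 z (n 0 z (n 0 z (n 0 z (n 0 z z)))))))))))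
 (n 259 (n 0 z (n 0 z (n 0 z (n 0 z (n 0 z (n 0 z (n 0 z (n 0 z (n 0 z (n 0 z (n 0 z
 z))))))))))) (n 259 (n 0 z (n 0 z (n 0 z (n 0 z (n 0 z (n 0 z (n 0 z (n 0 z (n 0 z (n 0 z (n 0
 z z))))))))))) (n 7 (n 2 (n 0 z (n 1 z (n 2 (n 0 z (n 0 z (n 0 z (n 0 z (n 0 z (n 0 (n 8790275
 z z) z)))))) (n 1 z (n 2 (n 0 z (n 0 z (n 0 z (n 0 z (n 0 z (n 0 z z)))))) (n 2 (n 0 z (n 0 z
 (n 0 z (n 0 z (n 0 z (n 0 z z)))))) z)))))) (n 0 z (n 0 z (n 0 z (n 0 z (n 0 z (n 0 z (n 0 z (n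
 0 z (n 0 z (n 0 z (n 0 z (n 0 z (n 0 z z)))))))))))))) (n 7 (n 0 z (n 0 z (n 0 z (n 0 z (n 0 z
 (n 0 z (n 0 z (n 0 z (n 0 z (n 0 z (n 0 z (n 0 z (n 0 z (n 0 z z)))))))))))))) (n 3 (n 0 z (n 0
 z (n 2 (n 0 z (n 2 (n 0 z (n 0 z (n 0 z (n 0 z (n 0 z (n 0 z z)))))) (n 2 (n 0 z (n 0 z (n 0 z
 (n 0 z (n 0 z (n 0 z z)))))) (n 2 (n 0 z (n 0 z (n 0 z (n 0 z (n 0 z (n 0 z z)))))) z)))) (n 0
 z (n 0 z (n 0 z (n 0 z z))))))) (n 3 (n 0 z (n 0 z (n 0 z (n 0 z (n 0 z (n 0 z (n 0 z z)))))))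
 (n 1 (n 0 z (n 0 z (n 0 z (n 0 z (n 0 z (n 0 z (n 0 z (n 0 z z)))))))) (n 1 (n 0 z (n 0 z (n 0
 z (n 0 z (n 0 z (n 0 z (n 0 z (n 0 z z)))))))) (n 1 (n 0 z (n 0 z (n 0 z (n 0 z (n 0 z (n 2 z
 (n 0 z (n 0 z z)))))))) z)))))))))) (n 0 (n 0 z (n 0 z (n 295 (n 2 (n 0 z (n 2 (n 0 z (n 0 z (n
 0 z (n 0 z (n 0 z (n 0 z z)))))) (n 2 (n 0 z (n 0 z (n 0 z (n 0 z (n 0 z (n 0 (n 8794131 z z)
 z)))))) (n 1 z (n 2 (n 0 z (n 0 z (n 0 z (n 0 z (n 0 z (n 0 z z)))))) (n 2 (n 0 z (n 0 z (n 0 z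
 (n 0 z (n 0 z (n 0 z z)))))) z)))))) (n 0 z (n 0 z (n 0 z (n 0 z (n 0 z z)))))) (n 295 (n 0 z
 (n 0 z (n 0 z (n 0 z (n 0 z (n 0 z z)))))) (n 303 (n 2 (n 0 z (n 2 (n 0 z (n 0 z (n 0 z (n 0 z
 (n 0 z (n 0 (n 8794131 z z) z)))))) (n 2 (n 0 z (n 0 z (n 0 z (n 0 z (n 0 z (n 0 z z)))))) (n 2
 (n 0 z (n 0 z (n 0 z (n 0 z (n 0 z (n 0 z z)))))) z)))) (n 0 z (n 0 z z))) (n 303 (n 0 z (n 0 z
 (n 0 z z))) (n 593 (n 0 z (n 0 z (n 0 z (n 0 z (n 0 z (n 0 z (n 0 z (n 0 z (n 0 z (n 0 z (n 0 z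
 (n 0 z (n 0 z (n 0 z (n 0 z (n 0 z (n 0 z (n 0 z (n 0 z (n 0 z (n 0 z (n 0 z (n 0 z (n 0 z (n 0
 z (n 0 z (n 0 z (n 0 z (n 0 z (n 0 z (n 0 z (n 0 z (n 0 z (n 0 z (n 0 z (n 0 z (n 0 z (n 0 z (n
 0 z (n 0 z (n 0 z (n 0 z (n 0 z (n 0 z (n 0 z (n 0 z (n 0 z (n 0 z (n 0 z
 z))))))))))))))))))))))))))))))))))))))))))))))))) (n 593 (n 0 z (n 0 z (n 0 z (n 0 z (n 0 z (n
 0 z (n 0 z (n 0 z (n 0 z (n 0 z (n 0 z (n 0 z (n 0 z (n 0 z (n 0 z (n 0 z (n 0 z (n 0 z (n 0 z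
 (n 0 z (n 0 z (n 0 z (n 0 z (n 0 z (n 0 z (n 0 z (n 0 z (n 0 z (n 0 z (n 0 z (n 0 z (n 0 z (n 0
 z (n 0 z (n 0 z (n 0 z (n 0 z (n 0 z (n 0 z (n 0 z (n 0 z (n 0 z (n 0 z (n 0 z (n 0 z (n 0 z (n
 0 z (n 0 z (n 0 z z))))))))))))))))))))))))))))))))))))))))))))))))) (n 593 (n 0 z (n
 0x44c84ea060381280b8007f38007fd8157d68367fe7bf7db8168468338437d67c67c975d8027d386a82982d8258047fa7df8368027fb7e07ef82680a79a86b7e28208067dc8127b88a07e08107d68237f90811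
 z (n 0 z (n 0 z (n 0 z (n 0 z (n 0 z (n 0 z (n 0 z (n 0 z (n 0 z (n 0 z (n 0 z (n 0 z (n 0 z (n
 0 z (n 0 z (n 0 z (n 0 z (n 0 z (n 0 z (n 0 z (n 0 z (n 0 z (n 0 z (n 0 z (n 0 z (n 0 z (n 0 z
 (n 0 z (n 0 z (n 0 z (n 0 z (n 0 z (n 0 z (n 0 z (n 0 z (n 0 z (n 0 z (n 0 z (n 0 z (n 0 z (n 0
 z (n 0 z (n 0 z (n 0 z (n 0 z (n 0 z (n 0 z z)))))))))))))))))))))))))))))))))))))))))))))))))
 z))))))))) (n 0 (n 0 z (n 535 (n 2 (n 0 z (n 2 (n 0 z (n 0 z (n 0 z (n 0 z (n 0 z (n 0 z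
 z)))))) (n 2 (n 0 z (n 0 z (n 0 z (n 0 z (n 0 z (n 0 (n 8790275 z z) z)))))) (n 1 z (n 2 (n 0 z
 (n 0 z (n 0 z (n 0 z (n 0 z (n 0 z z)))))) (n 2 (n 0 z (n 0 z (n 0 z (n 0 z (n 0 z (n 0 z
 z)))))) z)))))) (n 0 z (n 0 z (n 0 z (n 0 z (n 0 z (n 0 z (n 0 z z)))))))) (n 535 (n 0 z (n 0 z
 (n 0 z (n 0 z (n 0 z (n 0 z (n 0 z (n 0 z z)))))))) (n 291 (n 0 z (n 2 (n 0 z (n 2 (n 0 z (n 0
 z (n 0 z (n 0 z (n 0 z (n 0 (n 8790275 z z) z)))))) (n 2 (n 0 z (n 0 z (n 0 z (n 0 z (n 0 z (n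
 0 z z)))))) (n 2 (n 0 z (n 0 z (n 0 z (n 0 z (n 0 z (n 0 z z)))))) z)))) (n 0 z z))) (n 291 (n
 0 z (n 0 z (n 0 z z))) (n 289 (n 0 z (n 0 z (n 0 z (n 0 z (n 0 z (n 0 z (n 0 z (n 0 z (n 0 z (n
 0 z (n 0 z (n 0 z (n 0 z (n 0 z (n 0 z (n 0 z (n 0 z (n 0 z (n 0 z (n 0 z (n 0 z (n 0 z (n 0 z
 (n 0 z (n 0 z (n 0 z (n 0 z (n 0 z (n 0 z (n 0 z (n 0 z (n 0 z (n 0 z (n 0 z (n 0 z (n 0 z (n 0
 z (n 0 z (n 0 z (n 0 z (n 0 z (n 0 z (n 0 z (n 0 z (n 0 z (n 0 z (n 0 z (n 0 z (n 0 z (n 0 z (n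
 0 z (n 0 z (n 0 z (n 0 z (n 0 z (n 0 z
 z)))))))))))))))))))))))))))))))))))))))))))))))))))))))) (n 289 (n 0 z (n 0 z (n 0 z (n 0 z (n
 0 z (n 0 z (n 0 z (n 0 z (n 0 z (n 0 z (n 0 z (n 0 z (n 0 z (n 0 z (n 0 z (n 0 z (n 0 z (n 0 z
 (n 0 z (n 0 z (n 0 z (n 0 z (n 0 z (n 0 z (n 0 z (n 0 z (n 0 z (n 0 z (n 0 z (n 0 z (n 0 z (n 0
 z (n 0 z (n 0 z (n 0 z (n 6561907 z (n 0 z (n 0 z (n 0 z (n 0 z (n 0 z (n 0 z (n 0 z (n 0 z (n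
 0 z (n 0 z (n 0 z (n 0 z (n 0 z (n 0 z (n 0 z (n 0 z (n 0 z (n 0 z (n 0 z (n 0 z
 z)))))))))))))))))))))))))))))))))))))))))))))))))))))))) (n 289 (n 0 z (n 0 z (n 0 z (n 0 z (n
 0 z (n 0 z (n 0 z (n 0 z (n 0 z (n 0 z (n 0 z (n 0 z (n 0 z (n 0 z (n 0 z (n 0 z (n 0 z (n 0 z
 (n 0 z (n 0 z (n 0 z (n 0 z (n 0 z (n 0 z (n 0 z (n 0 z (n 0 z (n 0 z (n 0 z (n 0 z (n 0 z (n 0
 z (n 0 z (n 0 z (n 0 z (n 0 z (n 0 z (n 0 z (n 2 z (n 0 z (n 0 z (n 0 z (n 0 z (n 0 z (n 0 z (n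
 0 z (n 0 z (n 0 z (n 0 z (n 0 z (n 0 z (n 0 z (n 0 z (n 0 z (n 0 z (n 0 z
 z)))))))))))))))))))))))))))))))))))))))))))))))))))))))) z)))))))) (n 0 (n 247 (n 0 z (n 2 (n
 0 z (n 2 (n 0 z (n 0 (n 8865051 z z) (n 0 z (n 0 z (n 0 (n 8865051 z z) (n 0 (n 8865051 z (n
 8865051 z z)) z)))))) (n 2 (n 0 z (n 0 z (n 0 z (n 0 z (n 0 z (n 0 z z)))))) (n 2 (n 0 z (n 0 z
 (n 0 z (n 0 z (n 0 z (n 0 z z)))))) (n 2 (n 0 (n 3140 z z) (n 0 (n 3140 z z) (n 0 z (n 0 z (n 0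
 z (n 0 (n 3140 z (n 3140 z z)) z)))))) (n 2 (n 0 z (n 0 z (n 0 (n 8721963 z z) (n 0 z (n 0 (n
 3140 z z) (n 0 (n 8733043 z (n 8722251 z z)) z)))))) z)))))) (n 0 z (n 0 z z)))) (n 247 (n 0 z
 (n 0 z (n 0 z (n 0 z z)))) (n 783 (n 0 z (n 0 z (n 2 (n 0 z (n 2 (n 0 z (n 0 z (n 0 z (n 0 z (n
 0 z (n 0 z z)))))) (n 2 (n 0 (n 3140 z z) (n 0 (n 3140 z z) (n 0 z (n 0 z (n 0 z (n 0 (n 3140 z
 (n 3140 z z)) z)))))) (n 2 (n 0 z (n 0 z (n 0 z (n 0 (n 3140 z z) (n 0 (n 3140 z z) (n 0 (n 21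
 z (n 8722251 z z)) z)))))) z)))) (n 0 z (n 0 z (n 0 z (n 0 z (n 0 z z)))))))) (n 783 (n 0 z (n
 0 z (n 0 z (n 0 z (n 0 z (n 0 z (n 0 z (n 0 z z)))))))) (n 785 (n
 0x357618a827d7d807d6a8e85847a817c858884807d84975a93669b74697a748c8a7d7191b5776f5e719176a5557a7586988b73728e0049
 z (n 0 z (n 0 z (n 0 z (n 0 z (n 0 z (n 0 z (n 0 z (n 0 z (n 0 z (n 0 z (n 0 z (n 0 z (n 0 z (n
 0 z (n 0 z (n 0 z (n 0 z (n 0 z (n 0 z (n 0 z (n 0 z (n 0 z (n 0 z (n 0 z (n 0 z (n 0 z (n 0 z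
 (n 0 z z))))))))))))))))))))))))))))) (n 785 (n 0 z (n 0 z (n 0 z (n 0 z (n 0 z (n 0 z (n 0 z
 (n 0 z (n 0 z (n 0 z (n 0 z (n 0 z (n 0 z (n 0 z (n 0 z (n 0 z (n 0 z (n 0 z (n 0 z (n 0 z (n 0
 z (n 0 z (n 0 z (n 0 z (n 0 z (n 0 z (n 0 z (n 0 z (n 0 z z))))))))))))))))))))))))))))) (n 785
 (n 0 z (n 0 z (n 0 z (n 0 z (n 0 z (n 0 z (n
 0xdb7608267e180082b8007ee7ce80482d7ff7bc82381f83f7e282b7e27e17e788e75d82e7c28397f77fd7e57dd8388297f37e47d187e7fa7ce7d87a080282084d7b98137ec7fd8338307c67d380b0051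
 z (n 0 z (n 0 z (n 0 z (n 0 z (n 0 z (n 0 z (n 0 z (n 0 z (n 0 z (n 0 z (n 0 z (n 0 z (n 0 z (n
 0 z (n 0 z (n 0 z (n 0 z (n 0 z (n 0 z (n 0 z (n 0 z (n 0 z z)))))))))))))))))))))))))))))
 z))))))) (n 0 (n 0 z (n 3 (n 0 z (n 0 z (n 0 z (n 0 z (n 0 z (n 0 z z)))))) (n 3 (n 0 z (n 0 z
 (n 2 (n 1 z (n 2 (n 0 z (n 0 z (n 0 z (n 0 z (n 0 z (n 0 (n 1557 z z) z)))))) (n 2 (n 0 z (n 0
 z (n 0 z (n 0 z (n 0 z (n 0 z z)))))) z))) (n 0 z (n 0 z (n 0 z z)))))) (n 1 (n 2 (n 0 z (n 0 z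
 z)) (n 0 z (n 0 z (n 0 z (n 0 z (n 0 z (n 0 z (n 0 z (n 0 z (n 0 z (n 0 z (n 0 z z))))))))))))
 (n 1 (n 0 z (n 0 z (n 0 z (n 0 z (n 0 z (n 0 z (n 0 z (n 0 z (n 2 (n 0 z z) (n 0 z (n 0 z (n 0
 z z)))))))))))) (n 1 (n 0 z (n 0 z (n 0 z (n 0 z (n 0 z (n 0 z (n 0 z (n 0 z (n 0 z (n 0 z (n 0
 z (n 0 z z)))))))))))) z)))))) (n 0 (n 15 (n 0 z (n 2 (n 0 z (n 2 (n 0 z (n 0 z (n 0 z (n 0 z
 (n 0 z (n 0 (n 8790275 z z) z)))))) (n 2 (n 0 z (n 0 z (n 0 z (n 0 z (n 0 z (n 0 z z)))))) (n 2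
 (n 0 z (n 0 z (n 0 z (n 0 z (n 0 z (n 0 z z)))))) z)))) (n 0 z (n 0 z (n 0 z (n 0 z z)))))) (n
 15 (n 0 z (n 0 z (n 0 z (n 0 z (n 0 z (n 0 z z)))))) (n 13 (n 0 z (n 0 z (n 0 z (n 0 z (n 0 z
 (n 0 z (n 0 z (n 0 z (n 0 z z))))))))) (n 13 (n 0 z (n 0 z (n 0 z (n 0 z (n 0 z (n 0 z (n 0 z
 (n 0 z (n 0 z z))))))))) (n 13 (n 0 z (n 0 z (n 0 z (n 0 z (n 0 z (n 0 z (n 2 z (n 0 z (n 0 z
 z))))))))) z))))) (n 0 (n 0 z (n 5 (n 0 z (n 0 z (n 0 z (n 0 z (n 0 z (n 2 (n 0 z (n 0 z z)) (n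
 0 z (n 0 z (n 0 z (n 0 z (n 0 z (n 0 z (n 0 z (n 0 z (n 0 z (n 0 z (n 0 z (n 0 z (n 0 z (n 0 z
 (n 0 z (n 0 z (n 0 z (n 0 z (n 0 z (n 0 z (n 0 z (n 0 z (n 0 z z)))))))))))))))))))))))))))))
 (n 5 (n 0 z (n 0 z (n 0 z (n 0 z (n 0 z (n 0 z (n 0 z (n 0 z (n 0 z (n 0 z (n 2 (n 0 z z) (n 0
 z (n 0 z (n 0 z (n 0 z (n 0 z (n 0 z (n 0 z (n 0 z (n 0 z (n 0 z (n 0 z (n 0 z (n 0 z (n 0 z (n
 0 z (n 0 z (n 0 z (n 0 z z))))))))))))))))))))))))))))) (n 5 (n 0 z (n 0 z (n 0 z (n 0 z (n 0 z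
 (n 0 z (n 0 z (n 0 z (n 0 z (n 0 z (n 0 z (n 0 z (n 0 z (n 0 z (n 0 z (n 0 z (n 0 z (n 0 z (n 0
 z (n 0 z (n 0 z (n 0 z (n 0 z (n 0 z (n 0 z (n 0 z (n 0 z (n 0 z (n 0 z
 z))))))))))))))))))))))))))))) z)))) (n 0 (n 389 (n 0 z (n 0 z (n 0 z (n 0 z (n 0 z (n 0 z (n 0
 z (n 0 z (n 0 z (n 0 z (n 0 z (n 0 z (n 0 z (n 0 z (n 0 z (n 0 z (n 0 z (n 0 z (n 0 z (n 0 z (n
 0 z (n 0 z (n 0 z (n 0 z (n 0 z (n 0 z (n 0 z (n 0 z (n 0 z (n 0 z (n 0 z (n 0 z (n 0 z (n 0 z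
 (n 0 z (n 0 z (n 0 z (n 0 z (n 0 z (n 0 z (n 0 z (n 0 z (n 0 z (n 0 z (n 0 z (n 0 z (n 0 z (n 0
 z (n 0 z z))))))))))))))))))))))))))))))))))))))))))))))))) (n 389 (n 0 z (n 0 z (n 0 z (n 0 z
 (n 0 z (n 0 z (n 0 z (n 0 z (n 0 z (n 0 z (n 0 z (n 0 z (n 0 z (n 0 z (n 0 z (n 0 z (n 0 z (n 0
 z (n 0 z (n 0 z (n 0 z (n 0 z (n 0 z (n 6561907 z (n 0 z (n 0 z (n 0 z (n 0 z (n 0 z (n 0 z (n
 0 z (n 0 z (n 0 z (n 0 z (n 0 z (n 0 z (n 0 z (n 0 z (n 0 z (n 0 z (n 0 z (n 0 z (n 0 z (n 0 z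
 (n 0 z (n 0 z (n 0 z (n 0 z (n 0 z z))))))))))))))))))))))))))))))))))))))))))))))))) (n 389 (n
 0 z (n 0 z (n 0 z (n 0 z (n 0 z (n 0 z (n 2 z (n 0 z (n 0 z (n 0 z (n 0 z (n 0 z (n 0 z (n 0 z
 (n 0 z (n 0 z (n 0 z (n 0 z (n 0 z (n 0 z (n 0 z (n 0 z (n 0 z (n 0 z (n 0 z (n 0 z (n 0 z (n 0
 z (n 0 z (n 0 z (n 0 z (n 0 z (n 0 z (n 0 z (n 0 z (n 0 z (n 0 z (n 0 z (n 0 z (n 0 z (n 0 z (n
 0 z (n 0 z (n 0 z (n 0 z (n 0 z (n 0 z (n 0 z (n 0 z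
 z))))))))))))))))))))))))))))))))))))))))))))))))) z))) (n 0 (n 0 z (n 0 z z)) (n 0 (n 0 z z)
 (n 0 z z))))))))))))) (n 0 (n 0 z (n 1 (n 3196 z (n 3196 z (n 3196 z (n 3196 z (n 3196 z (n
 3196 z z)))))) (n 1 (n 2 z (n 3196 z (n 3196 z (n 3196 z (n 3196 z (n 3196 z z)))))) (n 1 (n
 6492243 z (n 6492243 z (n 6492243 z (n 6492243 z (n 6492243 z (n 6492243 z z)))))) (n 1 (n
 6492243 z (n 6492243 z (n 6492243 z (n 6492243 z (n 6492243 z (n 6492243 z z)))))) z))))) (n 0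
 (n 0x62d7152c48d42d88d32dc8c0 (n 0 (n 0 (n 7741699 z (n 7741699 z (n 7741699 z (n 7741699 z (n
 7741699 z (n 7741699 z z)))))) z) (n 0 (n 129 (n 1 (n 3196 z (n 6563611 z (n 5513587 z (n 2 z
 (n 5379915 z (n 3196 z z)))))) (n 0 z (n 1 (n 7745555 z (n 7745555 z (n 7745555 z (n 7745555 z
 (n 7745555 z (n 7745555 z z)))))) (n 0 z (n 1 (n 7540819 z (n 7540819 z (n 7540819 z (n 7540819
 z (n 7540819 z (n 7540819 z z)))))) (n 0 z (n 1 (n 4396843 z (n 4396843 z (n 4396843 z (n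
 4396843 z (n 4396843 z (n 4396843 z z)))))) z))))))) (n 33 (n 0 z (n 1 (n 7607867 z (n 1468 z
 (n 1468 z (n 1468 z (n 1468 z (n 1468 z z)))))) (n 1 (n 7741699 z (n 7741699 z (n 7741699 z (n
 7741699 z (n 7741699 z (n 7741699 z z)))))) (n 1 (n 7741699 z (n 7741699 z (n 7741699 z (n
 7741699 z (n 7741699 z (n 7741699 z z)))))) (n 1 (n 7540819 z (n 7540819 z (n 7540819 z (n
 7540819 z (n 7540819 z (n 7540819 z z)))))) z))))) (n 145 (n 1 (n 7607867 z (n 7607867 z (n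
 7607867 z (n 7607867 z (n 7607867 z (n 7607867 z z)))))) (n 1 (n 1228 z (n 1228 z (n 1996 z (n
 1228 z (n 1228 z (n 1228 z z)))))) (n 1 (n 7741699 z (n 7741699 z (n 7741699 z (n 7741699 z (n
 7741699 z (n 7741699 z z)))))) z))) (n 3 (n 0 z (n 1 (n 10 z (n 6625099 z (n 6635891 z (n 3196
 z (n 3196 z (n 3196 z z)))))) (n 1 (n 7741699 z (n 7741699 z (n 7741699 z (n 7741699 z (n
 7741699 z (n 7741699 z z)))))) (n 1 (n 7745555 z (n 7745555 z (n 7745555 z (n 7745555 z (n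
 7745555 z (n 7745555 z z)))))) (n 1 (n 7540819 z (n 7540819 z (n 7540819 z (n 7540819 z (n
 7540819 z (n 7540819 z z)))))) (n 0 z z)))))) (n 195 (n 1 (n 7607867 z (n 7607867 z (n 7607867
 z (n 7607867 z (n 7607867 z (n 7607867 z z)))))) (n 1 (n 1660 z (n 1660 z (n 1660 z (n 18 z (n
 5379915 z (n 1660 z z)))))) (n 1 (n 7741699 z (n 7741699 z (n 7741699 z (n 7741699 z (n 7741699
 z (n 7741699 z z)))))) z))) (n 105 (n 1 (n 7745555 z (n 6424411 z (n 6424411 z (n 6424411 z (n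
 7753995 z (n 6424411 z z)))))) (n 1 (n 7741699 z (n 7741699 z (n 7741699 z (n 7741699 z (n
 7741699 z (n 7741699 z z)))))) (n 1 (n 7745555 z (n 7672587 z (n 7672587 z (n 7672587 z (n
 7753995 z (n 7672587 z z)))))) (n 1 (n 7741699 z (n 7741699 z (n 7741699 z (n 7741699 z (n
 7741699 z (n 7741699 z z)))))) (n 1 (n 7745555 z (n 1852 z (n 1852 z (n
 0x6b7108157f08008098007eb7ed8028487fb7c181282383c7ea8307e87dd7ea85f75d8117ee8308037f77f37d782082c7fa7f97ea8927fa7bf7cd7a780581a8437857f37ce84483d8557c07e18220051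
 z (n 6562163 z (n 7753995 z z)))))) (n 1 (n 7745555 z (n 7753995 z (n 1852 z (n 26 z (n 1852 z
 (n 1852 z z)))))) (n 1 (n 7745555 z (n 1852 z (n 2164555 z (n 7753995 z (n
 0xdb7638267e180082b8007ee7ce80482d7ff7bc82381f83f7e282b7e27e17e788e75d82e7c28397f77fd7e57dd8388297f37e47d187e7fa7ce7d87a080282084d7b98137ec7fd8338307c67d380b0051
 z (n 1852 z z)))))) (n 1 (n 7745555 z (n 7753995 z (n 1852 z (n 1756 z (n 6494043 z (n 1852 z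
 z)))))) z)))))))) (n 33 (n 0 z (n 1 (n 7745555 z (n 7753995 z (n 3196 z (n 3196 z (n 3196 z (n
 3196 z z)))))) (n 1 (n 7741699 z (n 7741699 z (n 7741699 z (n 7741699 z (n 7741699 z (n 7741699
 z z)))))) (n 1 (n 7741699 z (n 7741699 z (n 7741699 z (n 7741699 z (n 7741699 z (n 7741699 z
 z)))))) (n 1 (n 7745555 z (n 7540819 z (n 7540819 z (n 7540819 z (n 7540819 z (n 7540819 z
 z)))))) z))))) z))))))) (n 0 (n 0 (n 0 z (n 0 z (n 0 z (n 0 z z)))) (n 0 (n 0 z (n 0 z (n 0 z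
 z))) (n 0 (n 0 z (n 0 z z)) (n 0 (n 0 z z) z)))) (n 0 (n 183 (n 0 (n 0 z (n 0 z (n 0 z (n 0 z
 z)))) (n 0 (n 0 z (n 0 z (n 0 z (n 0 z z)))) (n 0 (n 0 z (n 0 z (n 0 z (n 0 z z)))) (n 0 (n 0 z
 (n 0 z (n 0 z (n 0 z z)))) (n 0 (n 0 z (n 0 z (n 0 z (n 0 z z)))) (n 0 (n 0 z (n 0 z (n 0 z (n
 0 z z)))) (n 0 (n 0 z (n 0 z (n 0 z (n 0 z z)))) (n 0 (n 0 z (n 0 z (n 0 z (n 0 z z)))) (n 0 (n
 0 z (n 0 z (n 0 z (n 0 z z)))) (n 0 (n 0 (n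
 0x3d87680807c7782819f7c9081727c8291978a75708246836589ab7e7b7c7e8d967da37981846e608b7c8a73586a64c3a19a5d8f970049
 z (n 8722251 z z)) (n 0 (n
 0x3d87680807c7782819f7c9081727c8291978a75708246836589ab7e7b7c7e8d967da37981846e608b7c8a73586a64c3a19a5d8f970049
 z (n 8722251 z z)) (n 0 z (n 0 (n
 0x2b872877e808282766e8288807c8382827684888181ab628f6087786e7f70837b807679a67e7e87647b899d6d8b7e5e8f7f7471810049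
 z (n
 0x5b8729474808b807964848982608e8ca06e907b726fc3429a5ba27b6a7872908c7c6e70af7c79725a7c87a8639878788590766c7f0049
 z z)) z)))) (n 0 (n 0 z (n 0 z (n 0 z (n 0 z z)))) (n 0 (n 0 (n
 0x5b8749474808b807964848982608e8ca06e907b726fc3429a5ba27b6a7872908c7c6e70af7c79725a7c87a8639878788590766c7f0049
 z z) (n 0 z (n 0 z (n 0 z z)))) (n 0 (n 0 z (n 0 z (n 0 z (n 0 z z)))) (n 0 (n 0 z (n 0 z (n 0
 z (n 0 z z)))) (n 0 (n 0 z (n 0 z (n 0 z (n 0 z z)))) (n 0 (n 0 z (n 0 z (n 0 z (n 0 z z)))) (n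
 0 (n 0 z (n 0 z (n 0 z (n 0 z z)))) (n 0 (n 0 z (n 0 z (n 0 z (n 0 z z)))) (n 0 (n 0 z (n 0 z
 (n 0 z (n 0 z z)))) (n 0 (n 0 z (n 0 z (n 0 z (n 0 z z)))) (n 0 (n 0 z (n 0 z (n 0 z (n 0 z
 z)))) (n 0 (n 0 (n
 0x3d87680807c7782819f7c9081727c8291978a75708246836589ab7e7b7c7e8d967da37981846e608b7c8a73586a64c3a19a5d8f970049
 z (n 8722251 z z)) (n 0 z (n 0 z (n 0 z z)))) z)))))))))))))))))))))) (n 153 (n 0 (n 0 z (n 0 z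
 (n 0 z (n 0 z z)))) (n 0 (n 0 z (n 0 z (n 0 z (n 0 z z)))) (n 0 (n 0 z (n 0 z (n 0 z (n 0 z
 z)))) (n 0 (n 0 z (n 0 z (n 0 z (n 0 z z)))) (n 0 (n 0 z (n 0 z (n 0 z (n 0 z z)))) (n 0 (n 0 z
 (n 0 z (n 0 (n 8794131 z z) (n 0 z z)))) (n 0 (n 0 z (n 0 z (n 0 z (n 0 z z)))) z))))))) (n 249
 (n 0 (n 0 z (n 0 z (n 0 z (n 0 z z)))) (n 0 (n 0 z (n 0 z (n 0 z (n 0 z z)))) (n 0 (n 0 z (n 0
 z (n 0 z (n 0 z z)))) (n 0 (n 0 z (n 0 z (n 0 z (n 0 z z)))) (n 0 (n 0 z (n 0 z (n 0 z (n 0 z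
 z)))) (n 0 (n 0 z (n 0 z (n 0 z (n 0 z z)))) (n 0 (n 0 z (n 0 z (n 0 z (n 0 (n 8790275 z z)
 z)))) (n 0 (n 0 z (n 0 z (n 0 (n
 0x6b8738157f08008098007eb7ed8028487fb7c181282383c7ea8307e87dd7ea85f75d8117ee8308037f77f37d782082c7fa7f97ea8927fa7bf7cd7a780581a8437857f37ce84483d8557c07e18220051
 z z) (n 0 z z)))) (n 0 (n 0 z (n 0 z (n 0 z (n 0 z z)))) (n 0 (n 0 (n
 0x30a90a6003807f81807e7f7f817f80817e8180807f82817f7f80808081818082807f7f80807f8181808080817f7f8080818181808080810809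
 z z) (n 0 (n
 0x30a90a6003807e81807e7f7e817f80807e81807f7f81827f8080808081817f82807f7f81807f8181808081807f7f7f80808181808080810809
 z z) (n 0 z (n 0 z z)))) (n 0 (n 0 (n 8790275 z z) (n 0 z (n 0 z (n 0 z z)))) z))))))))))) (n
 399 (n 0 (n 0 z (n 0 z (n 0 z (n 0 z z)))) (n 0 (n 0 z (n 0 z (n 0 z (n 0 z z)))) (n 0 (n 0 z
 (n 0 z (n 0 z (n 0 z z)))) (n 0 (n 0 z (n 0 z (n 0 z (n 0 z z)))) (n 0 (n 0 z (n 0 z (n 0 z (n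
 0 z z)))) (n 0 (n 0 z (n 0 z (n 0 z (n 0 z z)))) (n 0 (n 0 z (n 0 z (n 0 z (n 0 z z)))) (n 0 (n
 0 z (n 0 z (n 0 z (n 0 z z)))) (n 0 (n 0 z (n 0 z (n 0 z (n 0 z z)))) z))))))))) (n 57 (n 0 (n
 0 z (n 0 z (n 0 z (n 0 z z)))) (n 0 (n 0 (n
 0x3d87680807c7782819f7c9081727c8291978a75708246836589ab7e7b7c7e8d967da37981846e608b7c8a73586a64c3a19a5d8f970049
 z (n 8722251 z z)) (n 0 (n
 0x1587089817f7b8578748288827984778a7d84858481936d8c6593766a7e738b847c76829b7e787677857e9b6b87777a8b807d77820049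
 z (n 8722251 z z)) (n 0 z (n 0 (n
 0x1587089817f7b8578748288827984778a7d84858481936d8c6593766a7e738b847c76829b7e787677857e9b6b87777a8b807d77820049
 z (n
 0x9b8708a7f80858e6e55a1758195968a6f82747f6f70dc2aab569c873e7b79aa7f858c81e8585c61249d69a5478d8f58a0b75e549b0049
 z z)) z)))) (n 0 (n 0 z (n 0 z (n 0 z (n 0 z z)))) (n 0 (n 0 z (n 0 z (n 0 z (n 0 z z)))) (n 0
 (n 0 z (n 0 z (n 0 z (n 0 z z)))) (n 0 (n 0 z (n 0 z (n 0 z (n 0 z z)))) (n 0 (n 0 z (n 0 z (n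
 0 z (n 0 z z)))) (n 0 (n 0 z (n 0 z (n 0 z (n 0 z z)))) (n 0 (n 0 z (n 0 z (n 0 z (n 0 z z))))
 (n 0 (n 0 (n 8868163 z z) (n 0 (n 8868163 z z) (n 0 z (n 0 z z)))) (n 0 (n 0 z (n 0 (n 8868163
 z z) (n 0 z (n 0 z z)))) (n 0 (n 0 (n 8790275 z z) (n 0 (n 8790275 z z) (n 0 z (n 0 z z)))) (n
 0 (n 0 z (n 0 z (n 0 z (n 0 z z)))) (n 0 (n 0 z (n 0 z (n 0 z (n 0 z z)))) z)))))))))))))) (n
 387 (n 0 (n 0 z (n 0 z (n 0 z (n 0 z z)))) (n 0 (n 0 z (n 0 z (n 0 z (n 0 z z)))) (n 0 (n 0 z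
 (n 0 z (n 0 z (n 0 z z)))) (n 0 (n 0 (n 8868163 z z) (n 0 (n 8868163 z z) (n 0 z (n 0 z z))))
 (n 0 (n 0 z (n 0 z (n 0 z (n 0 z z)))) (n 0 (n 0 z (n 0 z (n 0 z (n 0 z z)))) (n 0 (n 0 (n
 8589395 z (n 8589395 z z)) (n 0 (n 8589395 z (n 8589395 z z)) (n 0 z (n 0 z z)))) (n 0 (n 0 z
 (n 0 (n 8790275 z z) (n 0 z (n 0 z z)))) z)))))))) (n 207 (n 0 (n 0 z (n 0 z (n 0 z (n 0 z
 z)))) (n 0 (n 0 z (n 0 z (n 0 z (n 0 z z)))) (n 0 (n 0 z (n 0 z (n 0 z (n 0 z z)))) (n 0 (n 0 z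
 (n 0 z (n 0 z (n 0 z z)))) (n 0 (n 0 z (n 0 z (n 0 z (n 0 z z)))) (n 0 (n 0 z (n 0 z (n 0 z (n
 0 z z)))) (n 0 (n 0 z (n 0 z (n 0 z (n 0 z z)))) (n 0 (n 0 z (n 0 z (n 0 z (n 0 (n 8794131 z z)
 z)))) z)))))))) (n 81 (n 0 (n 0 z (n 0 z (n 0 z (n 0 z z)))) (n 0 (n 0 z (n 0 z (n 0 z (n 0 z
 z)))) (n 0 (n 0 z (n 0 z (n 0 z (n 0 z z)))) (n 0 (n 0 z (n 0 z (n 0 z (n 0 z z)))) (n 0 (n 0 z
 (n 0 z (n 0 z (n 0 z z)))) (n 0 (n 0 z (n 0 z (n 0 z (n 0 z z)))) (n 0 (n 0 z (n 0 z (n 0 z (n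
 0 z z)))) z))))))) (n 195 (n 0 (n 0 z (n 0 z (n 0 z (n 0 z z)))) (n 0 (n 0 z (n 0 z (n 0 z (n 0
 z z)))) (n 0 (n 0 (n 8790275 z z) (n 0 (n 8790275 z z) (n 0 z (n 0 z z)))) z))) (n 13 (n 0 (n 0
 z (n 0 z (n 0 z (n 0 z z)))) (n 0 (n 0 z (n 0 z (n 0 z (n 0 z z)))) (n 0 (n 0 z (n 0 z (n 0 z
 (n 0 z z)))) (n 0 (n 0 z (n 0 z (n 0 z (n 0 z z)))) (n 0 (n 0 z (n 0 z (n 0 z (n 0 z z)))) (n 0
 (n 0 z (n 0 z (n 0 z (n 0 z z)))) z)))))) (n 231 (n 0 (n 0 z (n 0 (n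
 0x2b874877e808282766e8288807c8382827684888181ab628f6087786e7f70837b807679a67e7e87647b899d6d8b7e5e8f7f7471810049
 z z) (n 0 z (n 0 z z)))) (n 0 (n 0 z (n 0 z (n 0 z (n 0 z z)))) (n 0 (n 0 z (n 0 z (n 0 z (n 0
 z z)))) (n 0 (n 0 z (n 0 z (n 0 z (n 0 z z)))) (n 0 (n 0 z (n 0 z (n 0 z (n 0 z z)))) (n 0 (n 0
 z (n 0 z (n 0 z (n 0 z z)))) (n 0 (n 0 z (n 0 z (n 0 z (n 0 z z)))) (n 0 (n 0 z (n 0 z (n 0 z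
 (n 0 z z)))) (n 0 (n 0 z (n 0 z (n 0 z (n 0 z z)))) (n 0 (n 0 z (n 0 z (n 0 z (n 0 z z)))) (n 0
 (n 0 z (n 0 z (n 0 z (n 0 z z)))) (n 0 (n 0 z (n 0 z (n 0 z (n 0 z z)))) (n 0 (n 0 z (n 0 z (n
 0 z (n 0 z z)))) (n 0 (n 0 (n 8722251 z z) (n 0 z (n 0 z (n 0 z z)))) z)))))))))))))) (n 105 (n
 0 (n 0 z (n 0 z (n 0 z (n 0 z z)))) (n 0 (n 0 z (n 0 z (n 0 z (n 0 z z)))) (n 0 (n 0 z (n 0 z
 (n 0 z (n 0 z z)))) (n 0 (n 0 z (n 0 z (n 0 z (n 0 z z)))) (n 0 (n 0 (n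
 0x1138308277e580080b8027c67b481d82d7f67cd8288248337a88557fd7eb7b58fe7158567bb7eb81b7b37e179181380c7f07c47e28c07d381483f7777ef81988b78e8577fd7767fb8348037c77f00051
 z z) (n 0 (n
 0x1138308277e580080b8027c67b481d82d7f67cd8288248337a88557fd7eb7b58fe7158567bb7eb81b7b37e179181380c7f07c47e28c07d381483f7777ef81988b78e8577fd7767fb8348037c77f00051
 z z) (n 0 z (n 0 z z)))) (n 0 (n 0 z (n 0 z (n 0 z (n 0 z z)))) (n 0 (n 0 z (n 0 z (n 0 z (n 0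
 z z)))) (n 0 (n 0 z (n 0 z (n 0 z (n 0 z z)))) z)))))))) (n 219 (n 0 (n 0 (n
 0x2b860877e808282766e8288807c8382827684888181ab628f6087786e7f70837b807679a67e7e87647b899d6d8b7e5e8f7f7471810049
 z z) (n 0 z (n 0 z (n 0 z z)))) (n 0 (n 0 z (n 0 z (n 0 z (n 0 z z)))) (n 0 (n 0 z (n 0 z (n 0
 z (n 0 z z)))) (n 0 (n 0 z (n 0 z (n 0 z (n 0 z z)))) (n 0 (n 0 z (n 0 z (n 0 z (n 0 (n
 0xdb8308207eb8008098027d17c38178247f87d782081c8287ba8447fe7ef7c48cb7448457c87ef8167c37e77a780f8097f37d07e88997db8108327927f281486f7a58467fe7927fd8298027d27f40051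
 z z) z)))) (n 0 (n 0 z (n 0 z (n 0 z (n 0 z z)))) (n 0 (n 0 z (n 0 z (n 0 z (n 0 z z)))) (n 0
 (n 0 z (n 0 z (n 0 z (n 0 z z)))) (n 0 (n 0 z (n 0 z (n 0 z (n 0 z z)))) (n 0 (n 0 z (n 0 z (n
 0 z (n 0 z z)))) (n 0 (n 0 z (n 0 z (n 0 z (n 0 z z)))) (n 0 (n 0 z (n 0 z (n 0 (n
 0x2b810877e808282766e8288807c8382827684888181ab628f6087786e7f70837b807679a67e7e87647b899d6d8b7e5e8f7f7471810049
 z z) (n 0 z z)))) (n 0 (n 0 z (n 0 z (n 0 z (n 0 z z)))) (n 0 (n 0 z (n 0 z (n 0 z (n 0 z z))))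
 (n 0 (n 0 z (n 0 z (n 0 z (n 0 z z)))) (n 0 (n 0 z (n 0 z (n 0 z (n 0 z z)))) (n 0 (n 0 z (n 0
 z (n 0 z (n 0 z z)))) (n 0 (n 0 z (n 0 z (n 0 z (n 0 z z)))) (n 0 (n 0 z (n 0 z (n 0 z (n 0 (n
 8802571 z z) z)))) (n 0 (n 0 z (n 0 z (n 0 z (n 0 z z)))) (n 0 (n 0 z (n 0 z (n 0 z (n 0 (n
 0x2b861877e808282766e8288807c8382827684888181ab628f6087786e7f70837b807679a67e7e87647b899d6d8b7e5e8f7f7471810049
 z (n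
 0x2b861877e808282766e8288807c8382827684888181ab628f6087786e7f70837b807679a67e7e87647b899d6d8b7e5e8f7f7471810049
 z z)) z)))) (n 0 (n 0 (n 8868163 z (n 8868163 z z)) (n 0 z (n 0 z (n 0 z z)))) (n 0 (n 0 z (n 0
 z (n 0 z (n 0 z z)))) (n 0 (n 0 z (n 0 z (n 0 z (n 0 z z)))) (n 0 (n 0 z (n 0 z (n 0 z (n 0 z
 z)))) (n 0 (n 0 z (n 0 z (n 0 z (n 0 z z)))) (n 0 (n 0 z (n 0 z (n 0 z (n 0 z z)))) (n 0 (n 0
 (n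
 0x2b876877e808282766e8288807c8382827684888181ab628f6087786e7f70837b807679a67e7e87647b899d6d8b7e5e8f7f7471810049
 z z) (n 0 z (n 0 z (n 0 z z)))) (n 0 (n 0 z (n 0 z (n 0 z (n 0 z z)))) (n 0 (n 0 (n 8733043 z
 (n 8722251 z z)) (n 0 z (n 0 z (n 0 z z)))) (n 0 (n 0 z (n 0 z (n 0 z (n 0 z z)))) (n 0 (n 0 z
 (n 0 z (n 0 z (n 0 z z)))) (n 0 (n 0 z (n 0 z (n 0 z (n 0 (n
 0x2b810877e808282766e8288807c8382827684888181ab628f6087786e7f70837b807679a67e7e87647b899d6d8b7e5e8f7f7471810049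
 z z) z)))) (n 0 (n 0 z (n 0 z (n 0 z (n 0 z z)))) (n 0 (n 0 z (n 0 z (n 0 z (n 0 z z)))) (n 0
 (n 0 z (n 0 z (n 0 z (n 0 z z)))) (n 0 (n 0 z (n 0 z (n 0 z (n 0 z z)))) (n 0 (n 0 z (n 0 z (n
 0 z (n 0 z z)))) (n 0 (n 0 z (n 0 z (n 0 z (n 0 z z)))) (n 0 (n 0 z (n 0 z (n 0 z (n 0 z z))))
 (n 0 (n 0 z (n 0 z (n 0 z (n 0 z z)))) (n 0 (n 0 z (n 0 z (n 0 z (n 0 (n
 0x63843867f80838975659479808d8e87758178807576bb499b659284567d7c9a7f838782c266696c459271985b87896794a36b64920049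
 z z) z)))) (n 0 (n 0 z (n 0 (n
 0x1587089817f7b8578748288827984778a7d84858481936d8c6593766a7e738b847c76829b7e787677857e9b6b87777a8b807d77820049
 z (n
 0x2b810877e808282766e8288807c8382827684888181ab628f6087786e7f70837b807679a67e7e87647b899d6d8b7e5e8f7f7471810049
 z z)) (n 0 z (n 0 (n
 0x2b810877e808282766e8288807c8382827684888181ab628f6087786e7f70837b807679a67e7e87647b899d6d8b7e5e8f7f7471810049
 z (n 7542859 z z)) z)))) (n 0 (n 0 z (n 0 z (n 0 z (n 0 z z)))) (n 0 (n 0 z (n 0 z (n 0 z (n 0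
 z z)))) (n 0 (n 0 z (n 0 z (n 0 z (n 0 z z)))) (n 0 (n 0 (n
 0xd876827f7f7b817f8d7d8c8075807e8f86887b7b816b78757f997d7b7c7a8b8d798c7d8883746c8484858368756fa2928d6f858c0049
 z (n 8800027 z z)) (n 0 z (n 0 z (n 0 z z)))) (n 0 (n 0 z (n 0 z (n 0 z (n 0 z z)))) (n 0 (n 0
 (n 8790275 z z) (n 0 (n 8790275 z z) (n 0 z (n 0 z z)))) (n 0 (n 0 z (n 0 z (n 0 z (n 0 z z))))
 (n 0 (n 0 (n 8721163 z z) (n 0 z (n 0 z (n 0 z z)))) (n 0 (n 0 (n 8802571 z z) (n 0 z (n 0 z (n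
 0 z z)))) (n 0 (n 0 z (n 0 z (n 0 z (n 0 z z)))) (n 0 (n 0 z (n 0 z (n 0 z (n 0 z z)))) (n 0 (n
 0 (n
 0x2b874877e808282766e8288807c8382827684888181ab628f6087786e7f70837b807679a67e7e87647b899d6d8b7e5e8f7f7471810049
 z (n 8800027 z z)) (n 0 (n
 0x2b874877e808282766e8288807c8382827684888181ab628f6087786e7f70837b807679a67e7e87647b899d6d8b7e5e8f7f7471810049
 z (n
 0x5b8309474808b807964848982608e8ca06e907b726fc3429a5ba27b6a7872908c7c6e70af7c79725a7c87a8639878788590766c7f0049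
 z z)) (n 0 z (n 0 z z)))) (n 0 (n 0 (n
 0x2b874877e808282766e8288807c8382827684888181ab628f6087786e7f70837b807679a67e7e87647b899d6d8b7e5e8f7f7471810049
 z (n
 0x1138308277e580080b8027c67b481d82d7f67cd8288248337a88557fd7eb7b58fe7158567bb7eb81b7b37e179181380c7f07c47e28c07d381483f7777ef81988b78e8577fd7767fb8348037c77f00051
 z z)) (n 0 z (n 0 z (n 0 z z)))) z)))))))))))))))))))))))))))))))))))))))))))))))))))))))) (n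
 19 (n 0 (n 0 z (n 0 z (n 0 z (n 0 z z)))) (n 0 (n 0 z (n 0 z (n 0 z (n 0 z z)))) (n 0 (n 0 z (n
 0 z (n 0 z (n 0 z z)))) (n 0 (n 0 z (n 0 z (n 0 z (n 0 z z)))) (n 0 (n 0 z (n 0 z (n 0 z (n 0 z
 z)))) (n 0 (n 0 z (n 0 z (n 0 z (n 0 z z)))) (n 0 (n 0 z (n 0 z (n 0 z (n 0 z z)))) (n 0 (n 0 z
 (n 0 z (n 0 z (n 0 z z)))) (n 0 (n 0 z (n 0 z (n 0 z (n 0 z z)))) z))))))))) (n 218 (n 0 (n 0 z
 (n 0 z (n 0 z (n 0 z z)))) (n 0 (n 0 z (n 0 z (n 0 z (n 0 z z)))) (n 0 (n 0 z (n 0 z (n 0 z (n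
 0 z z)))) (n 0 (n 0 z (n 0 z (n 0 z (n 0 z z)))) (n 0 (n 0 (n 8733043 z (n 8802571 z z)) (n 0 z
 (n 0 z (n 0 z z)))) (n 0 (n 0 z (n 0 z (n 0 z (n 0 z z)))) (n 0 (n 0 z (n 0 z (n 0 z (n 0 z
 z)))) (n 0 (n 0 z (n 0 z (n 0 z (n 0 z z)))) (n 0 (n 0 z (n 0 z (n 0 z (n 0 z z)))) (n 0 (n 0 z
 (n 0 z (n 0 z (n 0 z z)))) (n 0 (n 0 z (n 0 z (n 0 z (n 0 z z)))) (n 0 (n 0 z (n 0 z (n 0 z (n
 0 z z)))) (n 0 (n 0 z (n 0 z (n 0 z (n 0 z z)))) (n 0 (n 0 z (n 0 z (n 0 z (n 0 z z)))) (n 0 (n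
 0 z (n 0 z (n 0 z (n 0 z z)))) (n 0 (n 0 (n
 0x538768117f38008078007ef7f180283a7fb7ce80f81c8307ef8267ec7e47ee84c77f80d7f18278037f87f57e081a8247fb7fa7ee8747fb7cd7d77b980481683579d7f67d88368308447cd7e781b0051
 z z) (n 0 z (n 0 z (n 0 z z)))) (n 0 (n 0 (n
 0x338768b78808580757681a57d6089929e7599746e74b02d897698827b796b90967d7d75cb7d5f6653828ea2417a66a39fac5f70910049
 z z) (n 0 z (n 0 z (n 0 z z)))) (n 0 (n 0 z (n 0 z (n 0 z (n 0 z z)))) (n 0 (n 0 z (n 0 z (n 0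
 z (n 0 z z)))) (n 0 (n 0 z (n 0 z (n 0 z (n 0 z z)))) (n 0 (n 0 z (n 0 z (n 0 z (n 0 z z)))) (n
 0 (n 0 z (n 0 z (n 0 z (n 0 (n 3283019 z z) z)))) (n 0 (n 0 z (n 0 z (n 0 z (n 0 z z)))) (n 0
 (n 0 z (n 0 z (n 0 z (n 0 z z)))) (n 0 (n 0 z (n 0 z (n 0 z (n 0 z z)))) (n 0 (n 0 z (n 0 z (n
 0 z (n 0 (n
 0x1587089817f7b8578748288827984778a7d84858481936d8c6593766a7e738b847c76829b7e787677857e9b6b87777a8b807d77820049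
 z (n
 0x2b810877e808282766e8288807c8382827684888181ab628f6087786e7f70837b807679a67e7e87647b899d6d8b7e5e8f7f7471810049
 z z)) z)))) (n 0 (n 0 z (n 0 z (n 0 z (n 0 z z)))) (n 0 (n 0 (n 8733043 z (n 8800027 z z)) (n 0
 z (n 0 z (n 0 z z)))) (n 0 (n 0 z (n 0 z (n 0 z (n 0 z z)))) (n 0 (n 0 z (n 0 z (n 0 z (n 0 z
 z)))) (n 0 (n 0 z (n 0 z (n 0 z (n 0 z z)))) (n 0 (n 0 (n 6424667 z z) (n 0 z (n 0 z (n 0 z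
 z)))) (n 0 (n 0 z (n 0 (n 8656443 z z) (n 0 z (n 0 z z)))) (n 0 (n 0 z (n 0 z (n 0 z (n 0 z
 z)))) (n 0 (n 0 z (n 0 (n
 0x1587089817f7b8578748288827984778a7d84858481936d8c6593766a7e738b847c76829b7e787677857e9b6b87777a8b807d77820049
 z (n
 0x2b810877e808282766e8288807c8382827684888181ab628f6087786e7f70837b807679a67e7e87647b899d6d8b7e5e8f7f7471810049
 z z)) (n 0 z (n 0 (n
 0x2b810877e808282766e8288807c8382827684888181ab628f6087786e7f70837b807679a67e7e87647b899d6d8b7e5e8f7f7471810049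
 z (n 7542859 z z)) z)))) (n 0 (n 0 z (n 0 z (n 0 z (n 0 z z)))) (n 0 (n 0 z (n 0 z (n 0 z (n 0
 z z)))) (n 0 (n 0 z (n 0 z (n 0 z (n 0 z z)))) (n 0 (n 0 (n
 0xd876827f7f7b817f8d7d8c8075807e8f86887b7b816b78757f997d7b7c7a8b8d798c7d8883746c8484858368756fa2928d6f858c0049
 z (n 8800027 z z)) (n 0 z (n 0 z (n 0 z z)))) (n 0 (n 0 z (n 0 z (n 0 z (n 0 z z)))) (n 0 (n 0
 (n
 0x1587689817f7b8578748288827984778a7d84858481936d8c6593766a7e738b847c76829b7e787677857e9b6b87777a8b807d77820049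
 z z) (n 0 z (n 0 z (n 0 z z)))) (n 0 (n 0 z (n 0 z (n 0 z (n 0 z z)))) (n 0 (n 0 z (n 0 z (n 0
 z (n 0 z z)))) (n 0 (n 0 z (n 0 z (n 0 z (n 0 z z)))) (n 0 (n 0 (n 8802571 z z) (n 0 (n 8802571
 z z) (n 0 z (n 0 z z)))) (n 0 (n 0 z (n 0 z (n 0 z (n 0 z z)))) (n 0 (n 0 (n
 0x2b820877e808282766e8288807c8382827684888181ab628f6087786e7f70837b807679a67e7e87647b899d6d8b7e5e8f7f7471810049
 z (n 8800027 z z)) (n 0 (n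
 0x2b820877e808282766e8288807c8382827684888181ab628f6087786e7f70837b807679a67e7e87647b899d6d8b7e5e8f7f7471810049
 z (n
 0x2b820877e808282766e8288807c8382827684888181ab628f6087786e7f70837b807679a67e7e87647b899d6d8b7e5e8f7f7471810049
 z z)) (n 0 z (n 0 z z)))) (n 0 (n 0 z (n 0 z (n 0 z (n 0 z z)))) (n 0 (n 0 (n
 0x2b8638b7a8086807d718285817087869077887d7977a3618d6d917e757c7a89867e7777997f7c796c7e8394728d7b7c83897c757f0049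
 z (n
 0x4386391778089807a6a838781678b899a728d7c7572b64f95629b7c6f7a758d897d7273a67d7b74627d85a069937a79848e7870800049
 z z)) (n 0 z (n 0 z (n 0 z z)))) z))))))))))))))))))))))))))))))))))))))))))))))))) (n 399 (n 0
 (n 0 z (n 0 z (n 0 z (n 0 z z)))) (n 0 (n 0 z (n 0 z (n 0 z (n 0 z z)))) (n 0 (n 0 z (n 0 z (n
 0 z (n 0 z z)))) (n 0 (n 0 z (n 0 z (n 0 z (n 0 z z)))) (n 0 (n 0 z (n 0 z (n 0 z (n 0 z z))))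
 (n 0 (n 0 z (n 0 z (n 0 z (n 0 z z)))) (n 0 (n 0 z (n 0 z (n 0 z (n 0 z z)))) (n 0 (n 0 z (n 0
 z (n 0 z (n 0 z z)))) (n 0 (n 0 z (n 0 z (n 0 z (n 0 z z)))) (n 0 (n 0 z (n 0 z (n 0 (n 8794131
 z z) (n 0 z z)))) (n 0 (n 0 z (n 0 z (n 0 z (n 0 z z)))) z))))))))))) (n 33 (n 0 (n 0 z (n 0 z
 (n 0 z (n 0 z z)))) (n 0 (n 0 z (n 0 z (n 0 z (n 0 z z)))) (n 0 (n 0 z (n 0 z (n 0 z (n 0 z
 z)))) (n 0 (n 0 z (n 0 z (n 0 z (n 0 z z)))) (n 0 (n 0 z (n 0 z (n 0 z (n 0 z z)))) z))))) (n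
 171 (n 0 (n 0 z (n 0 z (n 0 z (n 0 z z)))) (n 0 (n 0 (n
 0x2b874877e808282766e8288807c8382827684888181ab628f6087786e7f70837b807679a67e7e87647b899d6d8b7e5e8f7f7471810049
 z z) (n 0 z (n 0 z (n 0 z z)))) (n 0 (n 0 z (n 0 z (n 0 z (n 0 z z)))) (n 0 (n 0 z (n 0 z (n 0
 z (n 0 z z)))) (n 0 (n 0 z (n 0 z (n 0 z (n 0 z z)))) (n 0 (n 0 z (n 0 z (n 0 z (n 0 z z)))) (n
 0 (n 0 z (n 0 z (n 0 z (n 0 z z)))) z))))))) (n 3 (n 0 (n 0 z (n 0 z (n 0 z (n 0 z z)))) (n 0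
 (n 0 z (n 0 z (n 0 z (n 0 z z)))) (n 0 (n 0 z (n 0 z (n 0 z (n 0 z z)))) (n 0 (n 0 z (n 0 z (n
 0 z (n 0 z z)))) (n 0 (n 0 z (n 0 z (n 0 z (n 0 z z)))) (n 0 (n 0 z (n 0 z (n 0 z (n 0 z z))))
 z)))))) (n 1 (n 0 (n 0 z (n 0 z (n 0 z (n 0 z z)))) (n 0 (n 0 z (n 0 z (n 0 z (n 0 z z)))) (n 0
 (n 0 z (n 0 z (n 0 z (n 0 z z)))) (n 0 (n 0 z (n 0 z (n 0 z (n 0 z z)))) (n 0 (n 0 z (n 0 z (n
 0 z (n 0 z z)))) (n 0 (n 0 z (n 0 z (n 0 z (n 0 z z)))) (n 0 (n 0 z (n 0 (n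
 0x2b875877e808282766e8288807c8382827684888181ab628f6087786e7f70837b807679a67e7e87647b899d6d8b7e5e8f7f7471810049
 z (n
 0x2b8758b7a8086807c728285817087859177897d7977a2618d6d917e757c7889867e7878997e7c796c7f8394728c7c7c82897b75800049
 z z)) (n 0 z (n 0 (n
 0x1138308277e580080b8027c67b481d82d7f67cd8288248337a88557fd7eb7b58fe7158567bb7eb81b7b37e179181380c7f07c47e28c07d381483f7777ef81988b78e8577fd7767fb8348037c77f00051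
 z (n
 0x1138308277e580080b8027c67b481d82d7f67cd8288248337a88557fd7eb7b58fe7158567bb7eb81b7b37e179181380c7f07c47e28c07d381483f7777ef81988b78e8577fd7767fb8348037c77f00051
 z z)) z)))) (n 0 (n 0 (n
 0x2b875877e808282766e8288807c8382827684888181ab628f6087786e7f70837b807679a67e7e87647b899d6d8b7e5e8f7f7471810049
 z (n 7473211 z z)) (n 0 z (n 0 z (n 0 z z)))) z)))))))) (n 0 (n 0 (n 0 z (n 0 z (n 0 z (n 0 z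
 z)))) (n 0 (n 0 z (n 0 z (n 0 z (n 0 z z)))) (n 0 (n 0 (n 8868163 z z) (n 0 (n 8868163 z z) (n
 0 z (n 0 z z)))) (n 0 (n 0 z (n 0 z (n 0 z (n 0 z z)))) (n 0 (n 0 z (n 0 z (n 0 z (n 0 z z))))
 (n 0 (n 0 z (n 0 z (n 0 z (n 0 z z)))) (n 0 (n 0 z (n 0 z (n 0 z (n 0 z z)))) (n 0 (n 0 z (n 0
 z (n 0 z (n 0 z z)))) (n 0 (n 0 z (n 0 z (n 0 z (n 0 z z)))) (n 0 (n 0 z (n 0 z (n 0 z (n 0 z
 z)))) (n 0 (n 0 (n 8733043 z (n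
 0x270e70e64070248c800001840000188000221084a7d18008178007eb82080786c7f377e83682387d81788d79779979c81175d7e58018348198107d87af84b87e7ec8267be8568017c67ba7f47fa83583578a8027a088a80f8577c18168160911
 z z)) (n 0 z (n 0 z (n 0 z z)))) z))))))))))) z))))))))))))))))))))) z)))) z) z)))) (n
 0x1692688759703ac90524cb8475cc35cf422c5a1c2188d08a2a84743a812d240 (n 0 (n 587 (n 3282443 z (n 2
 z (n 0 z (n 10 z z)))) (n 33 (n 6427979 z (n 18 z (n 3278363 z (n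
 0x21d6548337a082888177479280280b8d37ce8087cf81e85175f95d8aa7c87d98ad67381f75f8238147d389470074b7c087887872a90f81f8bb8a578972a85580281473f8487697d684e83f7b98240051
 z (n 0 z (n 26 z (n 34 z z))))))) (n 583 (n 6636051 z (n 42 z (n 0 z (n 6636051 z z)))) (n 3 (n
 0 z (n 0 z (n 0 z (n 50 z (n 58 z (n 0 z (n 0 z (n 0 z (n 2164283 z z))))))))) (n 1 (n 6636051
 z (n 0 z (n 6636051 z (n 66 z (n 0 z (n 74 z z)))))) (n 0 (n 6636051 z (n 0 z (n 0 z (n 0 z (n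
 82 z (n 90 z z)))))) z)))))) (n 587 (n 0 (n 0 z (n 503 (n 0 z (n 0 z (n 0 z (n 0 z (n 0 z (n 2
 (n 0 z (n 0 z (n 2 (n 0 (n 5628 z z) (n 0 (n 5628 z z) (n 0 (n 5628 z (n 8728691 z z)) (n 0 z
 (n 0 z (n 0 z z)))))) (n 2 (n 0 z (n 0 z (n 0 z (n 0 z (n 0 z (n 0 z z)))))) (n 2 (n 0 z (n 0
 (n 4181 z (n 4181 z z)) (n 0 z (n 0 (n 8728691 z (n 44 z z)) (n 0 (n 8525323 z (n 8525323 z z))
 (n 0 (n 8728691 z (n 44 z z)) z)))))) (n 1 z (n 2 (n 0 (n 36 z z) (n 0 (n 36 z z) (n 0 (n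
 7473227 z (n 8728691 z z)) (n 0 z (n 0 z (n 0 z z)))))) (n 2 (n 0 (n 20 z z) (n 0 (n 20 z z) (n
 0 (n 7473227 z (n 8728691 z z)) (n 0 z (n 0 z (n 0 z z)))))) (n 1 z z))))))))) (n 0 z (n 0 z (n
 0 z (n 0 z (n 0 z (n 0 z (n 0 z (n 0 z (n 0 z (n 0 z (n 0 z (n 0 z (n 0 z (n 0 z (n 0 z (n 0 z
 (n 0 z (n 0 z (n 0 z (n 0 z z)))))))))))))))))))))))))) (n 503 (n 0 z (n 0 z (n 0 z (n 0 z (n 0
 z (n 0 z (n 0 z (n 0 z (n 0 z (n 0 z (n 0 z (n 0 z (n 0 z (n 0 z (n 0 z (n 0 z (n 0 z (n 0 z (n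
 0 z (n 0 z (n 0 z (n 0 z (n 0 z (n 0 z (n 0 z (n 0 z z)))))))))))))))))))))))))) (n 503 (n 0 z
 (n 0 z (n 0 z (n 0 z (n 0 z (n 0 z (n 0 z (n 0 z (n 0 z (n 0 z (n 0 z (n 0 z (n 0 z (n 0 z (n 0
 z (n 0 z (n 0 z (n 0 z (n 0 z (n 0 z (n 0 z (n 0 z (n 0 z (n 0 z (n 0 z (n 2 (n 2 (n 0 z (n 0 z
 (n 0 z (n 0 z (n 0 z (n 0 z z)))))) (n 1 z (n 2 (n 0 z (n 0 z (n 0 z (n 0 z (n 0 z (n 0 z
 z)))))) (n 1 z (n 2 (n 0 z (n 0 z (n 0 (n 8868899 z z) (n 0 z (n 0 z (n 0 z z)))))) (n 2 (n 0 z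
 (n 0 z (n 0 z (n 0 z (n 0 z (n 0 z z)))))) (n 1 z z))))))) z)))))))))))))))))))))))))) (n 1407
 (n 0 z (n 2 (n 2 (n 0 z (n 0 z (n 0 z (n 0 z (n 0 z (n 0 z z)))))) (n 2 (n 0 z (n 0 z (n 0 z (n
 0 z (n 0 z (n 0 z z)))))) (n 1 z (n 2 (n 0 z (n 0 z (n 0 z (n 0 z (n 0 z (n 0 z z)))))) (n 2 (n
 0 z (n 0 z (n 0 z (n 0 z (n 0 z (n 0 z z)))))) (n 1 z z)))))) (n 0 z z))) (n 11 (n 0 z (n 0 z
 (n 0 z (n 0 z (n 0 z (n 0 z (n 0 z (n 0 z (n 0 z z))))))))) (n 11 (n 0 z (n 0 z (n 0 z (n 0 z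
 (n 0 z (n 0 z (n 0 z (n 0 z (n 2 (n 2 (n 0 z (n 0 (n 8782363 z z) (n 0 (n 8782363 z (n 8782363
 z z)) (n 0 (n 8782363 z z) (n 0 z (n 0 z z)))))) (n 2 (n 0 z (n 0 z (n 0 z (n 0 z (n 0 z (n 0 z
 z)))))) (n 2 (n 0 z (n 0 z (n 0 z (n 0 z (n 0 z (n 0 z z)))))) (n 1 z z)))) z))))))))) (n 9 (n
 0 z (n 0 z (n 0 z (n 0 z (n 0 z (n 0 z z)))))) (n 9 (n 0 z (n 0 z (n 2 (n 2 (n 0 z (n 0 z (n 0
 z (n 0 z (n 0 z (n 0 z z)))))) (n 1 z z)) (n 0 z (n 0 z (n 0 z z)))))) (n 5 (n 2 (n 0 z z) (n 0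
 z (n 0 z (n 0 z z)))) (n 5 (n 0 z (n 0 z (n 0 z (n 0 z z)))) z))))))))))) (n 0 (n 127 (n 0 z (n
 0 z (n 0 z (n 0 z (n 6631539 z (n 0 z (n 0 z (n 0 z (n 0 z (n 0 z (n 0 z (n 0 z (n 0 z (n 0 z
 (n 0 z (n 0 z (n 0 z (n 0 z (n 0 z (n 0 z (n 0 z (n 0 z (n 0 z (n 0 z (n 0 z (n 0 z (n 0 z (n 0
 z (n 0 z (n 0 z (n 0 z z))))))))))))))))))))))))))))))) (n 127 (n 0 z (n 0 z (n 0 z (n 0 z (n 0
 z (n 0 z (n 0 z (n 0 z (n 0 z (n 0 z (n 0 z (n 0 z (n 0 z (n 0 z (n 0 z (n 0 z (n 0 z (n 0 z (n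
 0 z (n 0 z (n 0 z (n 0 z (n 0 z (n 0 z (n 0 z (n 2 (n 0 z (n 2 (n 0 z (n 0 z (n 0 z (n 0 z (n 0
 z (n 0 z z)))))) (n 2 (n 0 z (n 0 z (n 0 z (n 0 z (n 0 z (n 0 z z)))))) (n 2 (n 0 z (n 0 z (n 0
 z (n 0 z (n 0 z (n 0 z z)))))) (n 1 z (n 2 (n 0 z (n 0 z (n 0 z (n 0 z (n 0 z (n 0 z z)))))) (n
 2 (n 0 z (n 0 z (n 0 z (n 0 z (n 0 z (n 0 z z)))))) (n 1 z z)))))))) (n 0 z (n 0 z (n 0 z (n 0
 z (n 0 z z))))))))))))))))))))))))))))))) (n 127 (n 0 z (n 0 z (n 0 z (n 0 z (n 0 z (n 0 z (n 0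
 z (n 0 z (n 0 z (n 0 z (n 0 z (n 0 z (n 0 z (n 0 z (n 0 z (n 0 z (n 0 z (n 0 z (n 0 z (n 0 z (n
 0 z (n 0 z (n 0 z (n 0 z (n 0 z (n 0 z (n 0 z (n 0 z (n 0 z (n 0 z (n 0 z
 z))))))))))))))))))))))))))))))) (n 1167 (n 0 z (n 0 z (n 0 z (n 0 z (n 0 z (n 0 z (n 0 z (n 0
 z z)))))))) (n 1165 (n 0 z (n 0 z (n 0 z z))) (n 1165 (n 0 z (n 0 z (n 0 z z))) (n 723 (n 0 z
 (n 0 z (n 0 z (n 2 (n 0 z (n 2 (n 0 z (n 0 z (n 0 (n 8803363 z z) (n 0 z (n 0 z (n 0 z z))))))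
 (n 1 z z))) (n 0 z (n 0 z (n 0 z z))))))) (n 723 (n 0 z (n 0 z (n 0 z (n 0 z (n 0 z (n 0 z (n 0
 z z))))))) (n 721 (n 0 z (n 0 z (n 0 z (n 0 z z)))) (n 721 (n 0 z (n 0 z (n 0 z (n 2 z z))))
 z)))))))))) (n 0 (n 0 z (n 0 z (n 1047 (n 0 z (n 0 z (n 0 z z))) (n 1045 (n 0 z (n 0 z (n 0 z
 (n 0 z (n 0 z (n 0 z z)))))) (n 1045 (n 0 z (n 0 z (n 0 z (n 0 z (n 0 z (n 0 z z)))))) (n 63 (n
 0 z (n 0 z (n 0 z (n 2 (n 0 z (n 2 (n 0 z (n 0 z (n 0 (n 8525579 z (n 244 z z)) (n 0 (n 244 z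
 z) (n 0 (n 244 z z) (n 0 z z)))))) (n 1 z z))) z)))) (n 63 (n 0 z (n 0 z (n 0 z (n 0 z z)))) (n
 61 (n 0 z (n 0 z (n 0 z (n 0 z (n 0 z (n 0 z (n 0 z (n 0 z (n 0 z (n 0 z (n 0 z (n 0 z (n 0 z
 (n 0 z (n 0 z (n 0 z (n 0 z (n 0 z (n 0 z (n 0 z (n 7680099 z (n 0 z (n 0 z (n 0 z (n 0 z (n 0
 z (n 0 z (n 0 z (n 0 z (n 0 z z)))))))))))))))))))))))))))))) (n 61 (n 0 z (n 0 z (n 0 z (n 0 z
 (n 0 z (n 0 z (n 0 z (n 0 z (n 0 z (n 0 z (n 0 z (n 0 z (n 0 z (n 0 z (n 0 z (n 0 z (n 0 z (n 0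
 z (n 0 z (n 0 z (n 0 z (n 2 z (n 0 z (n 0 z (n 0 z (n 0 z (n 0 z (n 0 z (n 0 z (n 0 z
 z)))))))))))))))))))))))))))))) z))))))))) (n 0 (n 0 z (n 343 (n 0 z (n 0 z (n 0 z (n 0 z (n 0
 z (n 2 (n 2 (n 0 z (n 0 z (n 0 z (n 0 z (n 0 z (n 0 z z)))))) (n 2 (n 0 z (n 0 z (n 0 z (n 0 z
 (n 0 z (n 0 z z)))))) (n 1 z (n 2 (n 0 z (n 0 z (n 0 z (n 0 z (n 0 z (n 0 z z)))))) (n 2 (n 0 z
 (n 0 z (n 0 z (n 0 z (n 0 z (n 0 z z)))))) (n 1 z z)))))) (n 0 z z))))))) (n 1165 (n 0 z (n 0 z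
 (n 0 z (n 0 z (n 0 z (n 0 z (n 0 z z))))))) (n 1165 (n 0 z (n 0 z (n 0 z (n 0 z (n 0 z (n 0 z
 (n 0 z z))))))) (n 771 (n 0 z (n 0 z (n 0 z (n 0 z (n 0 z (n 0 z (n 0 z z))))))) (n 771 (n 0 z
 (n 0 z (n 0 z (n 0 z (n 0 z (n 0 z (n 2 (n 2 (n 0 z (n 0 z (n 0 z (n 0 z (n 0 z (n 0 z z))))))
 (n 1 z z)) z))))))) (n 341 (n 0 z (n 0 z (n 0 z (n 0 z (n 0 z (n 0 z (n 0 z (n 0 z (n 2 (n 0 z
 z) (n 0 z (n 0 z z))))))))))) (n 341 (n 0 z (n 0 z (n 0 z (n 0 z (n 0 z (n 0 z (n 0 z (n 0 z (n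
 0 z (n 0 z (n 0 z z))))))))))) z)))))))) (n 0 (n 775 (n 0 z (n 0 z (n 0 z (n 0 z (n 0 z (n 0 z
 z)))))) (n 1153 (n 0 z (n 0 z (n 0 z (n 0 z (n 0 z (n 0 z (n 0 z (n 0 z (n 0 z (n 0 z (n 0 z (n
 0 z (n 0 z (n 0 z (n 0 z (n 0 z (n 0 z (n 0 z (n 0 z (n 0 z (n 0 z (n 0 z (n 0 z (n 0 z (n 0 z
 (n 0 z (n 0 z (n 0 z (n 0 z (n 0 z (n 0 z (n 0 z z)))))))))))))))))))))))))))))))) (n 1153 (n 0
 z (n 0 z (n 0 z (n 0 z (n 0 z (n 0 z (n 0 z (n 0 z (n 0 z (n 0 z (n 0 z (n 0 z (n 0 z (n 0 z (n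
 0 z (n 0 z (n 0 z (n 0 z (n 0 z (n 0 z (n 0 z (n 0 z (n 0 z (n 0 z (n 0 z (n 0 z (n 0 z (n 0 z
 (n 0 z (n 0 z (n 0 z (n 0 z z)))))))))))))))))))))))))))))))) (n 63 (n 0 z (n 0 z (n 0 z (n 0 z
 (n 0 z (n 2 (n 0 z (n 1 z (n 1 z z))) z)))))) (n 63 (n 0 z (n 0 z (n 0 z (n 0 z (n 0 z (n 0 z
 z)))))) (n 61 (n 0 z (n 0 z (n 0 z (n 0 z (n 0 z (n 0 z (n 0 z z))))))) (n 61 (n 0 z (n 0 z (n
 0 z (n 0 z (n 2 z (n 0 z (n 0 z z))))))) z))))))) (n 0 (n 1165 (n 0 z (n 0 z (n 0 z (n 0 z (n 0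
 z (n 0 z (n 0 z (n 0 z z)))))))) (n 1165 (n 0 z (n 0 z (n 0 z (n 0 z (n 0 z (n 0 z (n 0 z (n 0
 z z)))))))) (n 15 (n 0 z (n 0 z (n 0 z (n 0 z (n 0 z (n 0 z (n 0 z (n 2 (n 0 z (n 2 (n 0 z (n 0
 z (n 0 (n 3213419 z z) (n 0 z (n 0 z (n 0 z z)))))) (n 1 z z))) (n 0 z z))))))))) (n 15 (n 0 z
 (n 0 z (n 0 z (n 0 z (n 0 z (n 0 z (n 0 z (n 0 z (n 0 z z))))))))) (n 17 (n 0 z (n 0 z (n 0 z
 (n 0 z (n 0 z (n 0 z (n 0 z (n 0 z (n 0 z (n 0 z (n 0 z (n 0 z (n 0 z z))))))))))))) (n 17 (n 0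
 z (n 0 z (n 0 z (n 0 z (n 0 z (n 0 z (n 0 z (n 0 z (n 0 z (n 0 z (n 2 z (n 0 z (n 0 z
 z))))))))))))) z)))))) (n 0 (n 0 z (n 9 (n 0 z (n 0 z (n 0 z (n 2 (n 0 z (n 2 (n 0 z (n 0 z (n
 0 z (n 0 z (n 0 z (n 0 z z)))))) (n 1 z z))) (n 0 z z))))) (n 9 (n 0 z (n 0 z (n 0 z (n 0 z (n
 0 z z))))) (n 5 (n 0 z (n 0 z (n 0 z (n 0 z (n 0 z (n 0 z (n 0 z (n 0 z z)))))))) (n 5 (n 0 z
 (n 0 z (n 0 z (n 0 z (n 0 z (n 0 z (n 0 z (n 2 z z)))))))) z))))) (n 0 (n 9 (n 0 z (n 0 z (n 2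
 (n 0 z (n 2 (n 0 z (n 0 z (n 0 z (n 0 z (n 0 z (n 0 z z)))))) (n 1 z z))) (n 0 z z)))) (n 9 (n
 0 z (n 0 z (n 0 z (n 0 z z)))) (n 5 (n 0 z (n 0 z (n 0 z (n 0 z (n 0 z (n 0 z z)))))) (n 5 (n 0
 z (n 0 z (n 0 z (n 2 z (n 0 z (n 0 z z)))))) z)))) (n 0 (n 0 z (n 145 (n 2 (n 0 z z) (n 0 z (n
 0 z (n 0 z (n 0 z (n 0 z (n 0 z (n 0 z (n 0 z z))))))))) (n 145 (n 0 z (n 0 z (n 0 z (n 0 z (n
 0 z (n 0 z (n 0 z (n 0 z (n 0 z z))))))))) z))) (n 0 (n 1 (n 0 z (n 0 z (n 0 z (n 0 z (n 0 z (n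
 0 z (n 0 z (n 0 z (n 0 z (n 0 z (n 0 z (n 0 z (n 0 z (n 0 z z)))))))))))))) (n 1 (n 0 z (n 0 z
 (n 0 z (n 0 z (n 0 z (n 0 z (n 0 z (n 0 z (n 0 z (n 0 z (n 0 z (n 2 z (n 0 z (n 0 z
 z)))))))))))))) z)) (n 0 (n 0 z z) (n 0 z z)))))))))))) (n 0 (n 1 (n 3282443 z (n 3282443 z (n
 3282443 z (n 3282443 z (n 3282443 z (n 3282443 z z)))))) (n 1 (n 268 z (n 268 z (n 268 z (n 268
 z (n 268 z (n 268 z z)))))) (n 0 z (n 1 (n 268 z (n 268 z (n 268 z (n 28 z (n 268 z (n 268 z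
 z)))))) z)))) (n 0 z z)))) z)))))))))), by decide +kernel⟩
theorem i10579 : ∃ t, chkR KT RW t 10579 10589 = true := ⟨(n 0x16b868aabb692e01aaac0 (n 0 (n 329
 (n 3282443 z (n 2 z (n 0 z (n 10 z (n 0 z (n 0 z z)))))) (n 315 (n 0 z (n 0 z (n 0 z (n 0 z (n
 6631715 z (n 0 z z)))))) (n 171 (n 6628123 z (n 0 z (n 0 z z))) (n 27 (n 0 z (n 0 z (n 6631715
 z (n 0 z (n 0 z z))))) (n 1 (n 2164299 z (n 0 z (n 0 z z))) (n 0 (n 0 z (n 0 z (n 0 z (n 0 z (n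
 0 z (n 0 z (n 6631715 z (n 0 z (n 6631715 z (n 0 z (n 0 z (n 18 z (n 26 z (n 0 z (n 0 z (n
 0x64164030180c86c624070990d8c80060321b20800c064164100388c8686200382576086181e82181d8607208207df81f85f8628217df8208de8db71d7a28e385f7e275e79e3001
 z (n 0 z (n 0 z (n 0 z (n
 0xb20b20181c364364010182c64c820037d48a675daa586289d89c81c79c85d69f7e08188a0ba695a89f81b92875a85889f7a27de8df1801
 z z)))))))))))))))))))) z)))))) (n 171 (n 0 (n 0 z (n 781 (n 0 z (n 0 z (n 0 z (n 0 z (n 0 z (n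
 0 z z)))))) (n 781 (n 0 z (n 0 z (n 0 z (n 0 z (n 0 z (n 0 z z)))))) z))) (n 0 (n 173 (n 0 z (n
 0 z (n 0 z (n 0 z (n 0 z (n 0 z (n 2 (n 0 z z) (n 0 z (n 0 z (n 0 z (n 0 z (n 0 z (n 0 z (n 0 z
 (n 0 z (n 0 z (n 0 z (n 0 z (n 0 z (n 0 z z)))))))))))))))))))) (n 173 (n 0 z (n 0 z (n 0 z (n
 0 z (n 0 z (n 0 z (n 0 z (n 0 z (n 0 z (n 0 z (n 0 z (n 0 z (n 0 z (n 0 z (n 0 z (n 0 z (n 0 z
 (n 0 z (n 0 z (n 0 z z)))))))))))))))))))) z)) (n 0 (n 0 z z) (n 0 z z)))) (n 0 (n 1 (n 6628123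
 z (n 6631715 z (n 6628123 z (n 6628123 z (n 6628123 z (n 6628123 z z)))))) (n 0 z (n 0 z z)))
 (n 0 z z)))) (n 0x2e4a00aca80 (n 0 (n 153 (n 0 z (n 0 z (n 2 z (n 0 z (n 0 z (n 6426675 z (n 0
 z (n 0 z (n 10 z (n 0 z z)))))))))) (n 33 (n 0 z (n 0 z (n 0 z (n 0 z (n 4326939 z (n 6426675 z
 (n 0 z (n 0 z (n 0 z (n 0 z (n 0 z (n 0 z (n 0 z (n 0 z z)))))))))))))) (n 129 (n 0 z (n 0 z (n
 0 z (n 0 z (n 0 z (n 0 z (n 0 z (n 6426675 z z)))))))) (n 3 (n 0 z (n 4326971 z (n 6636307 z (n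
 0 z (n 0 z (n 0 z (n 0 z (n 0 z (n 0 z (n 0 z (n 0 z (n 0 z z)))))))))))) (n 1 (n 0 z (n 0 z (n
 0 z (n 6636307 z z)))) (n 0 (n 0 z (n 0 z (n 0 z (n 0 z (n 0 z (n 0 z (n 0 z (n 0 z (n 0 z (n
 6636307 z z)))))))))) z)))))) (n 1 (n 0 (n 0 z z) (n 0 z z)) (n 0 (n 0 z (n 0 z (n 0 z (n 1 (n
 6636307 z (n 6636307 z (n 6636307 z (n 6636307 z (n 6636307 z (n 6636307 z z)))))) z)))) (n 0 z
 z)))) (n 0xa6c7552234a9a19 (n 0 (n 179 (n 0 z (n 0 z (n 6627395 z (n 0 z (n 0 z (n 0 z z))))))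
 (n 33 (n 2 z (n 0 z (n 6496515 z (n 0 z (n 0 z z))))) (n 51 (n 10 z (n 6496515 z (n 0 z (n
 6496515 z (n 0 z z))))) (n 27 (n 6496515 z (n
 0x2ca8a802077df86082086181f82081f8218208218617e182182082082181f81f81e82082085f81f7e18200801 z
 (n 0 z (n 0 z (n 0 z z))))) (n 7 (n 2164299 z (n 0 z (n 0 z (n 0 z z)))) (n 0 (n 6627395 z (n 0
 z (n 0 z (n 18 z (n 0 z (n 0 z z)))))) z)))))) (n 7 (n 0 (n 779 (n 0 z (n 0 z (n 0 z (n 0 z (n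
 0 z z))))) (n 109 (n 0 z (n 0 z (n 0 z (n 0 z (n 0 z (n 0 z (n 0 z (n 0 z z)))))))) z)) (n 0 (n
 97 (n 0 z (n 0 z (n 0 z (n 0 z (n 0 z (n 0 z (n 0 z (n 0 z (n 0 z (n 0 z (n 0 z (n 0 z (n 0 z
 (n 0 z z)))))))))))))) z) (n 0 z z))) (n 0 (n 1 (n 2164299 z (n 2164299 z (n 6627395 z (n
 2164299 z (n 2164299 z (n 2164299 z z)))))) (n 0 z (n 0 z (n 0 z z)))) (n 0 z z)))) (n
 0xd68d0642ae15a3185ae98868b6852d98328f1a1158d609 (n 0 (n 179 (n 0 z (n 0 z (n 0 z (n 6627379 z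
 (n 0 z z))))) (n 33 (n 0 z (n 0 z (n 3278363 z (n 0 z (n 2 z z))))) (n 129 (n 6628123 z (n 0 z
 (n 0 z (n 0 z (n 0 z (n 10 z (n 6636051 z z))))))) (n 3 (n 18 z (n 26 z (n 0 z (n 0 z (n
 6493483 z (n 34 z z)))))) (n 1 (n 0 z (n 42 z (n 0 z (n 0 z (n 0 z (n 50 z (n 6636051 z
 z))))))) (n 0 (n 58 z (n 66 z (n 0 z (n 0 z (n 0 z (n 0 z (n 0 z (n 6636051 z (n 6628123 z (n 0
 z z)))))))))) z)))))) (n 179 (n 0 (n 271 (n 0 z (n 0 z (n 0 z (n 0 z (n 0 z (n 0 z (n 0 z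
 z))))))) (n 7 (n 2 (n 0 z (n 0 z (n 1 z (n 1 z (n 2 (n 0 z (n 0 z (n 0 z (n 0 (n 7746179 z (n
 8717867 z z)) (n 0 (n 20 z (n 20 z z)) (n 0 (n 8787771 z (n 20 z z)) z)))))) (n 1 z z)))))) (n
 0 z (n 0 z (n 0 z (n 0 z (n 0 z z)))))) (n 7 (n 0 z (n 0 z (n 2 (n 0 z (n 1 z (n 1 z (n 1 z (n
 1 z z))))) (n 0 z (n 0 z (n 0 z z)))))) (n 7 (n 0 z (n 0 z (n 0 z (n 0 z (n 0 z (n 0 z z))))))
 (n 51 (n 0 z (n 0 z (n 0 z (n 0 z (n 0 z (n 0 z (n 0 z z))))))) (n 51 (n 0 z (n 0 z (n 0 z (n 0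
 z (n 0 z (n 0 z (n 0 z z))))))) (n 5 (n 0 z (n 0 z (n 0 z (n 0 z (n 0 z (n 0 z (n 0 z z)))))))
 (n 5 (n 0 z (n 0 z (n 0 z (n 0 z (n 0 z (n 0 z (n 0 z z))))))) z)))))))) (n 0 (n 55 (n 2 (n 0 z
 (n 0 z (n 2 (n 0 (n 12 z z) (n 0 z (n 0 z (n 0 (n 12 z (n 12 z z)) (n 0 (n 12 z z) (n 0 z
 z)))))) (n 2 (n 0 (n 8790275 z z) (n 0 z (n 0 z (n 0 (n 8790275 z (n 8790275 z z)) (n 0 z (n 0
 (n 8790275 z z) z)))))) (n 2 (n 0 z (n 0 z (n 0 z (n 0 z (n 0 z (n 0 z z)))))) (n 2 (n 0 z (n 0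
 z (n 0 z (n 0 (n 8790275 z (n 8790275 z z)) (n 0 (n 8790275 z z) (n 0 (n 8790275 z z) z))))))
 z)))))) (n 0 z (n 0 z (n 0 z (n 0 z (n 0 z z)))))) (n 55 (n 0 z (n 0 z (n 0 z (n 0 z (n 0 z (n
 0 z z)))))) (n 55 (n 0 z (n 0 z (n 0 z (n 0 z (n 0 z (n 0 z z)))))) (n 3 (n 0 z (n 0 z (n 0 z
 (n 0 z (n 0 z (n 0 z (n 0 z (n 0 z (n 0 z (n 0 z (n 0 z (n 0 z (n 0 z (n 0 z z)))))))))))))) (n
 3 (n 0 z (n 0 z (n 0 z (n 0 z (n 0 z (n 0 z (n 0 z (n 0 z (n 0 z (n 0 z (n 0 z (n 0 z (n 0 z (n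
 0 z z)))))))))))))) (n 53 (n 0 z (n 0 z (n 0 z (n 0 z (n 0 z (n 0 z (n 0 z z))))))) (n 53 (n 0
 z (n 0 z (n 0 z (n 0 z (n 0 z (n 0 z (n 0 z z))))))) z))))))) (n 0 (n 0 z (n 0 z (n 3 (n 0 z (n
 0 z (n 0 z (n 0 z (n 0 z (n 0 z (n 0 z (n 0 z (n 0 z (n 2 (n 0 z (n 2 (n 0 z (n 0 z (n 0 z (n 0
 z (n 0 z (n 0 z z)))))) (n 1 z z))) (n 0 z (n 0 z (n 0 z (n 0 z (n 0 z (n 0 z (n 0 z (n 0 z (n
 0 z (n 0 z z)))))))))))))))))))) (n 3 (n 0 z (n 0 z (n 0 z (n 0 z (n 0 z (n 0 z (n 0 z (n 0 z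
 (n 0 z (n 0 z (n 0 z (n 0 z (n 0 z (n 0 z (n 0 z (n 0 z (n 0 z (n 0 z (n 0 z (n 2 (n 2 (n 0 z
 (n 0 z (n 0 z (n 0 z (n 0 z (n 0 z z)))))) (n 1 z z)) z)))))))))))))))))))) (n 5 (n 0 z (n 0 z
 (n 0 z (n 0 z z)))) (n 5 (n 0 z (n 0 z (n 0 z (n 0 z z)))) z)))))) (n 0 (n 0 z (n 255 (n 0 z (n
 0 z (n 0 z (n 7745875 z (n 0 z (n 0 z (n 0 z z))))))) (n 255 (n 0 z (n 0 z (n 0 z (n 0 z (n 0 z
 (n 2 (n 1 z (n 1 z z)) (n 0 z z))))))) (n 253 (n 0 z (n 0 z (n 0 z (n 0 z (n 0 z (n 0 z (n 0 z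
 (n 0 z (n 0 z z))))))))) (n 253 (n 0 z (n 0 z (n 0 z (n 0 z (n 0 z (n 0 z (n 0 z (n 0 z (n 0 z
 z))))))))) z))))) (n 0 (n 15 (n 0 z (n 0 z (n 0 z (n 0 z (n 0 z (n 0 z (n 0 z z))))))) (n 15 (n
 0 z (n 0 z (n 0 z (n 0 z (n 0 z (n 0 z (n 0 z z))))))) (n 97 (n 0 z (n 0 z (n 0 z (n 0 z (n 0 z
 (n 0 z (n 0 z (n 0 z (n 0 z (n 0 z z)))))))))) (n 97 (n 0 z (n 0 z (n 0 z (n 0 z (n 0 z (n 0 z
 (n 0 z (n 0 z (n 0 z (n 0 z z)))))))))) z)))) (n 0 (n 0 z (n 1 (n 0 z (n 0 z (n 0 z (n 0 z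
 z)))) (n 1 (n 0 z (n 0 z (n 0 z (n 0 z z)))) z))) (n 0 (n 25 (n 0 z (n 0 z (n 0 z (n 0 z (n 0 z
 z))))) (n 25 (n 0 z (n 0 z (n 0 z (n 0 z (n 0 z z))))) z)) (n 0 (n 0 z z) (n 0 z z))))))))) (n
 0 (n 0 z (n 0 z (n 0 z (n 1 (n 6627379 z (n 6627379 z (n 6627379 z (n 6627379 z (n 6627379 z (n
 6627379 z z)))))) (n 0 z z))))) (n 0 z z)))) (n 0x1ac05a (n 0 (n 153 (n 0 z (n 0 z (n 0 z (n 0
 z (n 0 z (n 0 z (n 3282443 z (n 0 z (n 0 z z))))))))) (n 81 (n 0 z (n 3278363 z (n 0 z (n 0 z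
 z)))) (n 9 (n 0 z (n 0 z (n
 0xc56544f1e6552809b57e09ddba49c8082b37b3e94cc91a1586683631c80189fc24c857b59778a9b95538bac77a95748894ed0a6500049
 z (n 0 z (n 0 z (n 6566403 z (n 2 z (n 0 z z)))))))) (n 3 (n 0 z (n 6566403 z (n 0 z z))) (n 7
 (n 0 z (n 0 z (n 0 z (n 0 z (n 0 z (n 0 z (n 6566403 z (n 0 z (n 0 z (n 0 z z)))))))))) (n 0 (n
 2164315 z (n 0 z (n 0 z (n 0 z (n 0 z z))))) z)))))) (n 3 (n 0 z z) (n 0 (n 0 z (n 1 (n 6566403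
 z (n 6566403 z (n 6566403 z (n 6566403 z (n 6566403 z (n 6566403 z z)))))) (n 0 z z))) (n 0 z
 z)))) (n 0xada3506d18604cb (n 0 (n 177 (n 0 z (n 3282443 z (n 0 z z))) (n 257 (n 3278363 z (n 0
 z (n 0 z z))) (n 129 (n 0 z (n 3212843 z (n 0 z (n 0 z z)))) (n 27 (n 2 z (n 0 z (n 0 z (n 0 z
 (n 0 z (n 0 z (n 0 z (n 6636291 z (n 0 z z))))))))) (n 1 (n 10 z (n 0 z (n 0 z (n 0 z (n 0 z (n
 6636291 z z)))))) (n 0 (n 0 z (n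
 0x2c42c806077e181f8208607e081f89e8de7df89d89e86181f7a28608208208217a28a07e27a27e07e07df0801 z
 (n 0 z (n 0 z (n 0 z (n 18 z (n 6636291 z (n 0 z (n 0 z (n 0 z (n 0 z (n 6636291 z
 z)))))))))))) z)))))) (n 177 (n 0 (n 111 (n 0 z (n 0 z (n 0 z (n 0 z (n 0 z (n 0 z (n 0 z (n 0
 z (n 0 z (n 0 z z)))))))))) (n 61 (n 0 z (n 0 z (n 0 z (n 0 z (n 0 z (n 0 z (n 0 z z))))))) z))
 (n 0 (n 25 (n 0 z (n 0 z (n 0 z (n 0 z (n 0 z (n 0 z (n 0 z (n 0 z (n 0 z (n 0 z z)))))))))) z)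
 (n 0 z z))) (n 0 (n 0 z (n 1 (n 3282443 z (n 3282443 z (n 6636291 z (n 3282443 z (n 3282443 z
 (n 3282443 z z)))))) (n 0 z z))) (n 0 z z)))) (n
 0x18acb8c3a9c23552322a6d9c2e48b0522f05168686597432cba80 (n 0 (n 587 (n 3282443 z (n 0 z (n 0 z
 (n 0 z (n 0 z (n 0 z (n 2 z (n 0 z (n 0 z z))))))))) (n 57 (n 0 z (n 0 z (n 10 z (n 6496515 z
 (n 0 z (n 6496515 z (n 0 z (n 0 z (n 0 z (n 18 z z)))))))))) (n 9 (n 26 z (n 34 z (n 0 z (n 42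
 z (n 0 z (n 6496515 z z)))))) (n 3 (n 0 z (n
 0x665465420182ca8a8400786569a8de6a37a071da686df8e092099d76089f9206236d995c8e889b6a481d81f7a082475f1001
 z (n 50 z (n 6636307 z (n 6636307 z (n
 0x165464020180ca4ca40037a081c82086081f8608a17e17e08607df86181e7df79f85f7e185f8607e07e081f8e185e8611001
 z (n
 0x6ca8ca04037a08dc85f89f8a08208208228208a07dd82279f7dc7a086076385b7e189d79f75f9a385f9200801 z
 (n 6496515 z z)))))))) (n 1 (n 6636307 z (n 58 z (n 0 z (n 66 z (n 74 z (n 0 z (n 6636307 z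
 z))))))) (n 0 (n 0 z (n 6636307 z z)) z)))))) (n 0 (n 0 (n 1007 (n 0 z (n 0 z (n 0 z (n 0 z (n
 0 z (n 0 z (n 0 z z))))))) (n 1007 (n 0 z (n 0 z (n 0 z (n 0 z (n 0 z (n 2 (n 2 (n 0 z (n 0 (n
 8730139 z (n 8730139 z z)) (n 0 z (n 0 z (n 0 (n 7739435 z (n 3996 z z)) (n 0 (n 3996 z (n 3996
 z z)) z)))))) (n 1 z (n 2 (n 0 z (n 0 (n 2909 z z) (n 0 z (n 0 (n 7686251 z (n 3996 z z)) (n 0
 z (n 0 z z)))))) (n 1 z (n 2 (n 0 (n 6621259 z (n 6621259 z z)) (n 0 z (n 0 (n 972 z (n 7747675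
 z z)) (n 0 z (n 0 (n 8590891 z (n 8590891 z z)) (n 0 (n 972 z (n 972 z z)) z)))))) (n 1 z (n 1
 z z))))))) (n 0 z z))))))) (n 999 (n 0 z (n 0 z (n 0 z (n 0 z (n 0 z (n 0 z (n 0 z z))))))) (n
 999 (n 0 z (n 0 z (n 0 z (n 0 z (n 0 z (n 0 z (n 0 z z))))))) (n 999 (n 0 z (n 0 z (n 0 z (n 0
 z (n 0 z (n 2 (n 1 z (n 2 (n 0 (n 6621259 z z) (n 0 z (n 0 (n 972 z z) (n 0 (n 7669835 z (n 972
 z z)) (n 0 z (n 0 z z)))))) (n 1 z (n 1 z z)))) (n 0 z z))))))) (n 997 (n 0 z (n 0 z (n 0 z (n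
 0 z z)))) (n 243 (n 0 z (n 0 z (n 0 z (n 0 z (n 0 z (n 0 z z)))))) (n 243 (n 0 z (n 0 z (n 0 z
 (n 0 z (n 0 z (n 0 z z)))))) (n 243 (n 0 z (n 0 z (n 0 z (n 0 z (n 0 z (n 0 z z))))))
 z))))))))) (n 0 (n 0 z (n 1047 (n 0 z (n 0 z (n 0 z (n 0 z (n 0 z (n 0 z z)))))) (n 1047 (n 0 z
 (n 0 z (n 0 z (n 0 z (n 0 z (n 0 z z)))))) (n 1047 (n 0 z (n 0 z (n 0 z (n 0 z (n 0 z (n 2 (n 1
 z (n 2 (n 0 z (n 0 (n 8730139 z z) (n 0 z (n 0 (n 444 z (n 8734571 z z)) (n 0 z (n 0 z z))))))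
 (n 1 z (n 1 z z)))) z)))))) (n 1045 (n 0 z (n 0 z (n 0 z (n 0 z (n 0 z (n 0 z (n 0 z (n 0 z (n
 0 z (n 0 z (n 0 z (n 0 z (n 0 z (n 0 z (n 0 z z))))))))))))))) (n 111 (n 0 z (n 0 z (n 0 z (n 0
 z (n 0 z (n 0 z (n 0 z z))))))) (n 111 (n 0 z (n 0 z (n 0 z (n 0 z (n 0 z (n 0 z (n 0 z
 z))))))) (n 111 (n 0 z (n 0 z (n 0 z (n 0 z (n 0 z (n 0 z (n 0 z z))))))) z)))))))) (n 0 (n 727
 (n 0 z (n 0 z (n 0 z (n 0 z (n 0 z (n 0 z (n 0 z (n 0 z z)))))))) (n 727 (n 0 z (n 0 z (n 0 z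
 (n 0 z (n 0 z (n 0 z (n 0 z (n 0 z z)))))))) (n 727 (n 0 z (n 0 z (n 0 z (n 0 z (n 0 z (n 0 z
 (n 0 z (n 0 z z)))))))) (n 55 (n 2 (n 2 (n 0 (n 444 z (n 444 z z)) (n 0 z (n 0 (n 444 z (n 444
 z z)) (n 0 z (n 0 (n 7669835 z (n 444 z z)) (n 0 (n 7669835 z (n 7747675 z z)) z)))))) (n 1 z
 (n 1 z z))) (n 0 z (n 0 z (n 0 z z)))) (n 111 (n 0 z (n 0 z (n 0 z (n 0 z (n 0 z (n 0 z z))))))
 (n 111 (n 0 z (n 0 z (n 2 (n 0 z z) (n 0 z (n 0 z (n 0 z z)))))) (n 111 (n 0 z (n 0 z (n 0 z (n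
 0 z (n 2 z (n 0 z z)))))) z))))))) (n 0 (n 0 z (n 0 z (n 1337 (n 0 z (n 0 z (n 0 z (n 0 z (n 0
 z (n 0 z (n 0 z (n 0 z z)))))))) (n 15 (n 0 z (n 0 z (n 0 z (n 0 z (n 0 z (n 0 z (n 0 z (n 0 z
 (n 0 z (n 0 z (n 0 z (n 0 z (n 0 z (n 0 z (n 0 z (n 0 z (n 0 z (n 0 z (n 0 z (n 0 z
 z)))))))))))))))))))) (n 15 (n 0 z (n 0 z (n 0 z (n 0 z (n 0 z (n 0 z (n 0 z (n 0 z (n 0 z (n 0
 z (n 0 z (n 0 z (n 0 z (n 0 z (n 0 z (n 0 z (n 0 z (n 0 z (n 0 z (n 0 z z))))))))))))))))))))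
 (n 15 (n 0 z (n 0 z (n 0 z (n 0 z (n 0 z (n 0 z (n 2 z (n 0 z (n 0 z (n 0 z (n 0 z (n 0 z (n 0
 z (n 0 z (n 0 z (n 0 z (n 0 z (n 0 z (n 0 z (n 0 z z)))))))))))))))))))) z)))))) (n 0 (n 0 z (n
 1097 (n 0 z (n 0 z (n 0 z (n 0 z (n 0 z (n 0 z (n 0 z (n 0 z (n 0 z (n 0 z (n 0 z (n 0 z (n 0 z
 (n 0 z (n 0 z (n 0 z (n 0 z z))))))))))))))))) (n 243 (n 0 z (n 0 z (n 0 z (n 0 z (n 0 z (n 0 z
 (n 0 z z))))))) (n 243 (n 0 z (n 0 z (n 0 z (n 0 z (n 0 z (n 0 z (n 0 z z))))))) (n 243 (n 0 z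
 (n 0 z (n 0 z (n 0 z (n 6627443 z (n 0 z (n 0 z z))))))) z))))) (n 0 (n 1181 (n 0 z (n 0 z (n 0
 z (n 0 z (n 0 z (n 0 z (n 0 z (n 0 z (n 0 z (n 0 z (n 0 z (n 0 z (n 0 z z))))))))))))) (n 21 (n
 0 z (n 0 z (n 0 z (n 0 z (n 0 z (n 2 (n 0 z (n 0 z z)) (n 0 z z))))))) (n 21 (n 0 z (n 2 (n 0 z
 z) (n 0 z (n 0 z (n 0 z (n 0 z (n 0 z z))))))) (n 21 (n 0 z (n 0 z (n 0 z (n 0 z (n 0 z (n 0 z
 (n 2 z z))))))) z)))) (n 0 (n 3 (n 0 z (n 0 z (n 0 z (n 0 z (n 0 z (n 0 z (n 0 z (n 0 z (n 0 z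
 (n 0 z (n 0 z (n 0 z (n 0 z (n 0 z z)))))))))))))) (n 3 (n 0 z (n 0 z (n 0 z (n 0 z (n 0 z (n 0
 z (n 0 z (n 0 z (n 0 z (n 0 z (n 0 z (n 0 z (n 0 z (n 0 z z)))))))))))))) (n 3 (n 0 z (n 0 z (n
 0 z (n 0 z (n 0 z (n 0 z (n 0 z (n 0 z (n 0 z (n 0 z (n 0 z (n 0 z (n 0 z (n 0 z
 z)))))))))))))) z))) (n 0 (n 0 z (n 0 z z)) (n 0 (n 0 z z) (n 0 z z)))))))))) (n 0 (n 0 z (n 1
 (n 6636307 z (n 6636307 z (n 6636307 z (n 6636307 z (n 6636307 z (n 6636307 z z)))))) z)) (n 0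
 z z)))) (n 0 (n 0 (n 177 (n 0 z (n 6627395 z (n 0 z z))) (n 39 (n 0 z (n 0 z (n 6496595 z (n 0
 z z)))) (n 129 (n 0 z (n 6627395 z (n 0 z z))) (n 27 (n 0 z (n 6496595 z (n 0 z z))) (n 1 (n
 2164299 z (n 0 z (n 0 z z))) (n 0 (n 6627395 z (n 0 z (n 0 z z))) z)))))) (n 177 z (n 0 (n 0 z
 (n 1 (n 6627395 z (n 6627395 z (n 6627395 z (n 6627395 z (n 6627395 z (n 6627395 z z)))))) (n 0
 z z))) (n 0 z z)))) (n 0x83314 (n 0 (n 333 (n 0 z (n 3282443 z (n 0 z (n 0 z (n 0 z z))))) (n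
 317 (n 0 z (n 0 z (n 3278363 z (n 0 z (n 0 z z))))) (n 9 (n 0 z (n 0 z (n 0 z (n 0 z (n 6566483
 z (n 0 z (n 0 z z))))))) (n 253 (n 0 z (n 0 z (n 0 z (n 0 z (n 6566483 z (n 0 z (n 0 z (n 0 z
 z)))))))) (n 1 (n 2 z (n 6566483 z (n 0 z z))) (n 0 (n 0 z (n 0 z (n 0 z (n 2164315 z (n 0 z (n
 0 z z)))))) z)))))) (n 1 (n 0 z z) (n 0 (n 1 (n 2668 z (n 2668 z (n 2668 z (n 4400651 z (n 2668
 z (n 2668 z z)))))) (n 1 (n 6566483 z (n 6566483 z (n 6566483 z (n 6566483 z (n 6566483 z (n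
 6566483 z z)))))) (n 0 z z))) (n 0 z z)))) (n 0x1616eb10b70b42345a500 (n 0 (n 453 (n 0 z (n
 3282443 z (n 2 z (n 0 z (n 0 z (n 0 z (n 0 z (n 0 z z)))))))) (n 437 (n 0 z (n 0 z (n 3278363 z
 (n 0 z (n 0 z (n 0 z (n
 0xca8ca840381f8207e08608208217e07e181f8218207df81e81e8617e182181f82082082082081f8218200801 z (n
 0 z (n 0 z (n 0 z (n 0 z (n 0 z z)))))))))))) (n 436 (n 6566403 z (n 0 z (n 0 z (n 0 z (n 0 z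
 (n 10 z (n 0 z (n
 0x926108258cf8db923e507ac7a46d682375389f54c9d9ca684da2b7ec55eb187284d65bb81c792dd40041 z (n 0 z
 z))))))))) (n 3 (n 0 z (n 6566403 z (n 0 z (n 0 z (n 0 z z))))) (n 1 (n 6566403 z (n 18 z (n 0
 z (n 0 z (n 0 z (n 0 z z)))))) (n 0 (n 0 z (n 0 z (n 0 z (n 6620203 z (n 0 z (n 0 z (n 0 z (n
 26 z (n 0 z (n 0 z (n 0 z z))))))))))) z)))))) (n 3 (n 0 (n 225 (n 0 z (n 0 z (n 0 z (n 0 z (n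
 0 z (n 0 z (n 0 z (n 0 z (n 0 z (n 0 z z)))))))))) (n 221 (n 2 (n 1 z z) (n 0 z (n 0 z (n 0 z
 (n 0 z (n 0 z z)))))) (n 865 (n 0 z (n 0 z (n 0 z (n 0 z (n 0 z (n 0 z (n 0 z (n 0 z (n 0 z
 z))))))))) z))) (n 0 (n 697 (n 0 z (n 0 z (n 0 z (n 0 z z)))) (n 869 (n 0 z (n 0 z (n 2 z (n 0
 z (n 0 z (n 0 z (n 0 z (n 0 z (n 0 z z))))))))) z)) (n 0 (n 1 (n 0 z (n 0 z (n 0 z (n 0 z (n 0
 z (n 0 z (n 0 z (n 0 z (n 0 z z))))))))) z) (n 0 z z)))) (n 0 (n 0 z (n 1 (n 6566403 z (n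
 6566403 z (n 6566403 z (n 6566403 z (n 6566403 z (n 6566403 z z)))))) (n 0 z (n 0 z (n 0 z
 z))))) (n 0 z z)))) z)))))))))), by decide +kernel⟩

theorem g7_56 : RgOk KT RW [10536, 10540, 10550, 10560, 10569, 10579, 10589] := ⟨i10536, ⟨i10540, ⟨i10550, ⟨i10560, ⟨i10569, ⟨i10579, True.intro⟩⟩⟩⟩⟩⟩

end Pool.Agent.Lib.EPS9
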