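import Pool.Agent.Lib.MP_c7e7f6_eps.Core4
import Pool.Agent.Lib.MP_c7e7f6_eps.KtAll

/-!
Extensions of the words from number 10658 on.
-/

set_option autoImplicit false

namespace Pool.Agent.Lib.EPS9

open Tr

theorem i10658 : ∃ t, chkR KT RW t 10658 10666 = true := ⟨(n
 0x692ba2531d0eb32bc256dc0636f48197290cc79d01ca600f4940 (n 0 (n 279 (n 2 z (n 10 z (n 6619931 z
 (n 18 z (n 3282443 z z))))) (n 33 (n 26 z (n 0 z (n 34 z (n 6496515 z z)))) (n 9 (n 0 z (n 0 z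
 (n 6496515 z z))) (n 267 (n 0 z (n 42 z (n 50 z (n 0 z (n 6496515 z z))))) (n 1 (n 0 z (n 0 z
 (n 0 z (n 6566227 z z)))) (n 0 (n 0 z (n 58 z (n 66 z (n 0 z (n 0 z (n 0 z (n 6619931 z (n 74 z
 (n 6623755 z z))))))))) z)))))) (n 9 (n 0 (n 0 z (n 0 z (n 211 (n 0 z (n 0 z (n 0 z (n 0 z (n 2
 (n 0 z (n 1 z (n 2 (n 0 z (n 0 z (n 0 z (n 0 z (n 0 z (n 0 z z)))))) (n 2 (n 0 z (n 0 z (n 0 z
 (n 0 z (n 0 z (n 0 z z)))))) (n 2 (n 0 z (n 0 z (n 0 z (n 0 z (n 0 z (n 0 z z)))))) (n 2 (n 0 z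
 (n 0 z (n 0 z (n 0 z (n 0 z (n 0 z z)))))) z)))))) (n 0 z (n 0 z (n 0 z (n 0 z (n 0 z (n 0 z (n
 0 z (n 0 z (n 0 z z)))))))))))))) (n 211 (n 0 z (n 0 z (n 0 z (n 0 z (n 0 z (n 0 z (n 0 z (n 0
 z (n 0 z (n 0 z (n 0 z (n 0 z (n 0 z (n 0 z z)))))))))))))) (n 555 (n 2 (n 0 z (n 1 z (n 1 z (n
 1 z z)))) (n 0 z (n 0 z (n 0 z z)))) (n 555 (n 0 z (n 0 z (n 0 z (n 0 z z)))) (n 557 (n 0 z (n
 0 z (n 0 z (n 0 z (n 0 z (n 0 z (n 2 (n 0 z (n 0 z z)) z))))))) (n 557 (n 0 z (n 0 z (n 0 z (n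
 0 z (n 0 z (n 0 z (n 0 z z))))))) (n 557 (n 0 z (n 0 z (n 0 z (n 0 z (n 0 z (n 0 z (n 0 z
 z))))))) z))))))))) (n 0 (n 0 z (n 511 (n 0 z (n 0 z (n 0 z (n 0 z (n 0 z (n 0 z (n 0 z (n 0 z
 (n 0 z (n 0 z (n 0 z (n 0 z (n 0 z (n 0 z (n 0 z z))))))))))))))) (n 511 (n 0 z (n 0 z (n 2 (n
 1 z (n 1 z (n 1 z (n 1 z (n 1 z z))))) (n 0 z (n 0 z (n 0 z (n 0 z (n 0 z (n 0 z (n 0 z (n 0 z
 (n 0 z (n 0 z (n 0 z (n 0 z z))))))))))))))) (n 487 (n 0 z (n 0 z (n 0 z (n 0 z (n 0 z (n 0 z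
 (n 0 z z))))))) (n 487 (n 2 (n 2 (n 0 z (n 0 z (n 0 z (n 0 z (n 0 z (n 0 z z)))))) (n 2 (n 0 z
 (n 0 z (n 0 z (n 0 z (n 0 z (n 0 z z)))))) (n 2 (n 0 z (n 0 z (n 0 z (n 0 z (n 0 z (n 0 z
 z)))))) z))) (n 0 z (n 0 z (n 0 z (n 0 z (n 0 z (n 0 z z))))))) (n 533 (n 0 z (n 0 z (n 0 z (n
 0 z (n 0 z (n 2 (n 0 z (n 0 z z)) (n 0 z (n 0 z (n 0 z z))))))))) (n 533 (n 0 z (n 0 z (n 0 z
 (n 0 z (n 0 z (n 0 z (n 0 z (n 0 z (n 0 z z))))))))) (n 533 (n 0 z (n 0 z (n 0 z (n 0 z (n 0 z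
 (n 0 z (n 0 z (n 0 z (n 0 z z))))))))) z)))))))) (n 0 (n 83 (n 0 z (n 0 z (n 0 z (n 0 z (n 0 z
 (n 0 z (n 0 z (n 2 (n 0 z (n 1 z (n 2 (n 0 z (n 0 z (n 0 z (n 0 z (n 0 z (n 0 z z)))))) (n 1 z
 (n 2 (n 0 z (n 0 z (n 0 z (n 0 z (n 0 z (n 0 z z)))))) (n 2 (n 0 z (n 0 z (n 0 z (n 0 z (n 0 z
 (n 0 z z)))))) z)))))) (n 0 z (n 0 z (n 0 z z))))))))))) (n 83 (n 0 z (n 0 z (n 0 z (n 0 z (n 0
 z (n 0 z (n 0 z (n 0 z (n 0 z (n 0 z (n 0 z z))))))))))) (n 555 (n 2 (n 0 z (n 1 z (n 2 (n 0 z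
 (n 0 z (n 0 z (n 0 z (n 0 z (n 0 z z)))))) (n 2 (n 0 z (n 0 z (n 0 z (n 0 z (n 0 z (n 0 z
 z)))))) z)))) (n 0 z (n 0 z (n 0 z (n 0 z z))))) (n 555 (n 0 z (n 0 z (n 0 z (n 0 z (n 0 z
 z))))) (n 553 (n 0 z (n 0 z (n 0 z (n 0 z (n 2 (n 0 z (n 0 z z)) (n 0 z (n 0 z z))))))) (n 553
 (n 0 z (n 0 z (n 2 (n 0 z z) (n 0 z (n 0 z (n 0 z (n 0 z z))))))) (n 553 (n 2 z (n 0 z (n 0 z
 (n 0 z (n 0 z (n 0 z (n 0 z z))))))) z))))))) (n 0 (n 0 z (n 535 (n 0 z (n 0 z (n 0 z (n 0 z (n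
 0 z (n 0 z (n 0 z (n 0 z z)))))))) (n 535 (n 0 z (n 0 z (n 2 (n 1 z (n 2 (n 0 z (n 0 z (n 0 z
 (n 0 z (n 0 z (n 0 z z)))))) (n 2 (n 0 z (n 0 z (n 0 z (n 0 z (n 0 z (n 0 z z)))))) z))) (n 0 z
 (n 0 z (n 0 z (n 0 z (n 0 z z)))))))) (n 533 (n 0 z (n 0 z (n 0 z (n 0 z (n 0 z (n 0 z z))))))
 (n 533 (n 0 z (n 0 z (n 0 z (n 0 z (n 0 z (n 0 z z)))))) (n 533 (n 0 z (n 0 z (n 0 z (n 0 z (n
 2 z (n 0 z z)))))) z)))))) (n 0 (n 55 (n 0 z (n 0 z (n 0 z (n 2 (n 0 z (n 1 z (n 1 z (n 1 z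
 z)))) (n 0 z (n 0 z (n 0 z z))))))) (n 55 (n 0 z (n 0 z (n 0 z (n 0 z (n 0 z (n 0 z (n 0 z
 z))))))) (n 61 (n 2 (n 0 z (n 0 z z)) (n 0 z (n 0 z (n 0 z (n 0 z (n 0 z (n 0 z z))))))) (n 61
 (n 0 z (n 2 (n 0 z z) (n 0 z (n 0 z (n 0 z (n 0 z (n 0 z z))))))) (n 61 (n 0 z (n 0 z (n 0 z (n
 0 z (n 0 z (n 0 z (n 0 z z))))))) z))))) (n 0 (n 0 z (n 481 (n 0 z (n 0 z (n 0 z (n 0 z (n 0 z
 (n 0 z (n 0 z (n 0 z (n 0 z (n 0 z (n 0 z (n 0 z (n 0 z (n 0 z (n 0 z (n 0 z (n 0 z (n 0 z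
 z)))))))))))))))))) (n 481 (n 0 z (n 0 z (n 0 z (n 0 z (n 0 z (n 0 z (n 0 z (n 0 z (n 0 z (n 0
 z (n 0 z (n 0 z (n 0 z (n 0 z (n 0 z (n 0 z (n 0 z (n 0 z z)))))))))))))))))) (n 481 (n 0 z (n
 0 z (n 0 z (n 0 z (n 0 z (n 0 z (n 0 z (n 0 z (n 0 z (n 0 z (n 0 z (n 0 z (n 2 z (n 0 z (n 0 z
 (n 0 z (n 0 z (n 0 z z)))))))))))))))))) z)))) (n 0 (n 533 (n 0 z (n 0 z (n 0 z (n 0 z (n 0 z
 (n 0 z (n 0 z (n 0 z (n 0 z (n 0 z (n 0 z (n 0 z (n 0 z (n 0 z (n 0 z (n 0 z (n 0 z (n 0 z (n 0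
 z (n 0 z (n 0 z (n 0 z (n 0 z (n 2 (n 0 z (n 0 z z)) (n 0 z (n 0 z (n 0 z (n 0 z
 z)))))))))))))))))))))))))))) (n 533 (n 0 z (n 0 z (n 0 z (n 0 z (n 0 z (n 0 z (n 2 (n 0 z z)
 (n 0 z (n 0 z (n 0 z (n 0 z (n 0 z (n 0 z (n 0 z (n 0 z (n 0 z (n 0 z (n 0 z (n 0 z (n 0 z (n 0
 z (n 0 z (n 0 z (n 0 z (n 0 z (n 0 z (n 0 z (n 0 z z)))))))))))))))))))))))))))) (n 533 (n 0 z
 (n 0 z (n 0 z (n 0 z (n 0 z (n 0 z (n 0 z (n 0 z (n 0 z (n 0 z (n 0 z (n 0 z (n 0 z (n 0 z (n 0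
 z (n 0 z (n 0 z (n 0 z (n 0 z (n 0 z (n 0 z (n 0 z (n 0 z (n 0 z (n 0 z (n 0 z (n 0 z (n 0 z
 z)))))))))))))))))))))))))))) z))) (n 0 (n 0 z (n 0 z z)) (n 0 (n 0 z z) (n 0 z z)))))))))) (n
 0 (n 0 z (n 0 z (n 1 (n 6496515 z (n 6496515 z (n 6496515 z (n 6496515 z (n 6496515 z (n
 6496515 z z)))))) z))) (n 0 z z)))) (n
 0x1a4ae8954743ad4ac551c784adb8146de82b4f481972a0cc79d01caa00f4940 (n 0 (n 279 (n 2 z (n 10 z (n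
 6619931 z (n 18 z (n 3282443 z z))))) (n 33 (n 0 z (n 26 z (n 34 z (n 0 z (n 0 z (n 6496515 z
 z)))))) (n 9 (n 0 z (n 42 z (n 6496515 z z))) (n 267 (n 50 z (n 58 z (n 0 z (n 6496515 z z))))
 (n 1 (n 0 z (n 66 z (n 0 z (n 6566227 z z)))) (n 0 (n 74 z (n 82 z (n 0 z (n 0 z (n 6619931 z
 (n 90 z (n 6623755 z z))))))) z)))))) (n 9 (n 0 (n 0 z (n 0 z (n 211 (n 0 z (n 0 z (n 0 z (n 0
 z (n 0 z (n 2 (n 0 z (n 2 (n 0 z (n 0 z (n 0 z (n 0 z (n 0 z (n 0 z z)))))) (n 1 z (n 2 (n 0 z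
 (n 0 z (n 0 z (n 0 z (n 0 z (n 0 z z)))))) (n 2 (n 0 z (n 0 z (n 0 z (n 0 z (n 0 z (n 0 z
 z)))))) (n 2 (n 0 z (n 0 z (n 0 z (n 0 z (n 0 z (n 0 z z)))))) (n 2 (n 0 z (n 0 z (n 0 z (n 0 z
 (n 0 z (n 0 z z)))))) (n 2 (n 0 z (n 0 z (n 0 z (n 0 z (n 0 z (n 0 z z)))))) z)))))))) (n 0 z
 (n 0 z (n 0 z (n 0 z (n 0 z (n 0 z (n 0 z (n 0 z z)))))))))))))) (n 211 (n 0 z (n 0 z (n 0 z (n
 0 z (n 0 z (n 0 z (n 0 z (n 0 z (n 0 z (n 0 z (n 0 z (n 0 z (n 0 z (n 0 z z)))))))))))))) (n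
 775 (n 0 z (n 0 z (n 0 z (n 0 z (n 0 z (n 0 z (n 0 z (n 0 z (n 0 z (n 0 z z)))))))))) (n 555 (n
 2 (n 0 z (n 1 z (n 1 z (n 1 z (n 1 z z))))) (n 0 z (n 0 z (n 0 z z)))) (n 555 (n 0 z (n 0 z (n
 0 z (n 0 z z)))) (n 303 (n 0 z (n 0 z (n 0 z (n 0 z (n 0 z z))))) (n 557 (n 0 z (n 0 z (n 0 z
 (n 0 z (n 0 z (n 0 z (n 2 (n 0 z (n 0 z z)) z))))))) (n 557 (n 0 z (n 0 z (n 0 z (n 0 z (n 0 z
 (n 0 z (n 0 z z))))))) (n 557 (n 0 z (n 0 z (n 0 z (n 0 z (n 0 z (n 0 z (n 0 z z)))))))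
 z))))))))))) (n 0 (n 0 z (n 511 (n 0 z (n 0 z (n 0 z (n 0 z (n 0 z (n 0 z (n 0 z (n 0 z (n 0 z
 (n 0 z (n 0 z (n 0 z (n 0 z z))))))))))))) (n 511 (n 0 z (n 0 z (n 0 z (n 0 z (n 2 (n 1 z (n 1
 z (n 1 z (n 1 z (n 1 z (n 1 z (n 1 z z))))))) (n 0 z (n 0 z (n 0 z (n 0 z (n 0 z (n 0 z (n 0 z
 (n 0 z z))))))))))))) (n 343 (n 0 z (n 0 z (n 0 z (n 0 z (n 0 z (n 0 z (n 0 z (n 0 z (n 0 z (n
 0 z (n 0 z (n 0 z (n 0 z (n 0 z z)))))))))))))) (n 487 (n 0 z (n 0 z (n 0 z (n 0 z (n 0 z (n 0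
 z (n 0 z z))))))) (n 487 (n 2 (n 2 (n 0 z (n 0 z (n 0 z (n 0 z (n 0 z (n 0 z z)))))) (n 2 (n 0
 z (n 0 z (n 0 z (n 0 z (n 0 z (n 0 z z)))))) (n 2 (n 0 z (n 0 z (n 0 z (n 0 z (n 0 z (n 0 z
 z)))))) (n 2 (n 0 z (n 0 z (n 0 z (n 0 z (n 0 z (n 0 z z)))))) z)))) (n 0 z (n 0 z (n 0 z (n 0
 z (n 0 z (n 0 z z))))))) (n 531 (n 0 z (n 0 z (n 0 z (n 0 z z)))) (n 533 (n 0 z (n 0 z (n 0 z
 (n 0 z (n 2 (n 0 z (n 0 z z)) (n 0 z (n 0 z (n 0 z z)))))))) (n 533 (n 0 z (n 0 z (n 0 z (n 0 z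
 (n 0 z (n 0 z (n 0 z (n 0 z z)))))))) (n 533 (n 0 z (n 0 z (n 0 z (n 0 z (n 0 z (n 0 z (n 0 z
 (n 0 z z)))))))) z)))))))))) (n 0 (n 83 (n 0 z (n 0 z (n 0 z (n 0 z (n 0 z (n 0 z (n 0 z (n 0 z
 (n 2 (n 0 z (n 2 (n 0 z (n 0 z (n 0 z (n 0 z (n 0 z (n 0 z z)))))) (n 1 z (n 2 (n 0 z (n 0 z (n
 0 z (n 0 z (n 0 z (n 0 z z)))))) (n 1 z (n 1 z (n 2 (n 0 z (n 0 z (n 0 z (n 0 z (n 0 z (n 0 z
 z)))))) (n 2 (n 0 z (n 0 z (n 0 z (n 0 z (n 0 z (n 0 z z)))))) z)))))))) (n 0 z (n 0 z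
 z))))))))))) (n 83 (n 0 z (n 0 z (n 0 z (n 0 z (n 0 z (n 0 z (n 0 z (n 0 z (n 0 z (n 0 z (n 0 z
 z))))))))))) (n 971 (n 2 (n 2 (n 0 z (n 0 z (n 0 z (n 0 z (n 0 z (n 0 z z)))))) (n 1 z (n 1 z
 (n 1 z (n 2 (n 0 z (n 0 z (n 0 z (n 0 z (n 0 z (n 0 z z)))))) (n 2 (n 0 z (n 0 z (n 0 z (n 0 z
 (n 0 z (n 0 z z)))))) z)))))) (n 0 z (n 0 z (n 0 z (n 0 z (n 0 z (n 0 z (n 0 z (n 0 z (n 0 z
 z)))))))))) (n 555 (n 2 (n 0 z (n 1 z (n 1 z (n 2 (n 0 z (n 0 z (n 0 z (n 0 z (n 0 z (n 0 z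
 z)))))) (n 2 (n 0 z (n 0 z (n 0 z (n 0 z (n 0 z (n 0 z z)))))) z))))) (n 0 z (n 0 z (n 0 z (n 0
 z z))))) (n 555 (n 0 z (n 0 z (n 0 z (n 0 z (n 0 z z))))) (n 303 (n 0 z (n 2 (n 1 z (n 2 (n 0 z
 (n 0 z (n 0 z (n 0 z (n 0 z (n 0 z z)))))) (n 2 (n 0 z (n 0 z (n 0 z (n 0 z (n 0 z (n 0 z
 z)))))) z))) (n 0 z (n 0 z (n 0 z z))))) (n 553 (n 0 z (n 0 z (n 0 z (n 0 z (n 2 (n 0 z (n 0 z
 z)) (n 0 z (n 0 z z))))))) (n 553 (n 0 z (n 0 z (n 2 (n 0 z z) (n 0 z (n 0 z (n 0 z (n 0 z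
 z))))))) (n 553 (n 2 z (n 0 z (n 0 z (n 0 z (n 0 z (n 0 z (n 0 z z))))))) z))))))))) (n 0 (n 0
 z (n 107 (n 0 z (n 0 z (n 0 z (n 0 z z)))) (n 535 (n 0 z (n 0 z (n 0 z (n 0 z (n 0 z (n 0 z (n
 0 z (n 0 z (n 0 z (n 0 z (n 0 z z))))))))))) (n 535 (n 0 z (n 0 z (n 0 z (n 0 z (n 2 (n 1 z (n
 1 z (n 2 (n 0 z (n 0 z (n 0 z (n 0 z (n 0 z (n 0 z z)))))) (n 2 (n 0 z (n 0 z (n 0 z (n 0 z (n
 0 z (n 0 z z)))))) z)))) (n 0 z (n 0 z (n 0 z (n 0 z (n 0 z (n 0 z z))))))))))) (n 483 (n 0 z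
 (n 0 z (n 0 z (n 0 z (n 0 z (n 0 z (n 0 z (n 0 z (n 0 z z))))))))) (n 533 (n 0 z (n 0 z (n 0 z
 (n 0 z (n 0 z (n 0 z (n 0 z (n 0 z z)))))))) (n 533 (n 0 z (n 0 z (n 0 z (n 0 z (n 0 z (n 0 z
 (n 0 z (n 0 z z)))))))) (n 533 (n 0 z (n 0 z (n 0 z (n 0 z (n 0 z (n 2 z (n 0 z (n 0 z
 z)))))))) z)))))))) (n 0 (n 107 (n 0 z (n 0 z (n 0 z (n 0 z z)))) (n 55 (n 0 z (n 0 z (n 2 (n 0
 z (n 1 z (n 1 z (n 1 z (n 1 z z))))) (n 0 z (n 0 z (n 0 z (n 0 z (n 0 z z)))))))) (n 55 (n 0 z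
 (n 0 z (n 0 z (n 0 z (n 0 z (n 0 z (n 0 z (n 0 z z)))))))) (n 63 (n 0 z (n 0 z (n 0 z (n 0 z (n
 0 z (n 0 z z)))))) (n 61 (n 2 (n 0 z (n 0 z z)) (n 0 z (n 0 z (n 0 z (n 0 z (n 0 z (n 0 z
 z))))))) (n 61 (n 0 z (n 2 (n 0 z z) (n 0 z (n 0 z (n 0 z (n 0 z (n 0 z z))))))) (n 61 (n 0 z
 (n 0 z (n 0 z (n 0 z (n 0 z (n 0 z (n 0 z z))))))) z))))))) (n 0 (n 7 (n 0 z (n 0 z (n 0 z (n 0
 z (n 0 z z))))) (n 7 (n 0 z (n 0 z (n 0 z (n 0 z (n 0 z z))))) (n 99 (n 0 z (n 0 z (n 0 z (n 0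
 z z)))) (n 97 (n 0 z (n 0 z (n 2 (n 0 z (n 0 z z)) (n 0 z (n 0 z (n 0 z z)))))) (n 97 (n 0 z (n
 0 z (n 0 z (n 0 z (n 0 z (n 0 z z)))))) (n 97 (n 0 z (n 0 z (n 0 z (n 0 z (n 0 z (n 0 z z))))))
 z)))))) (n 0 (n 0 z (n 483 (n 0 z (n 0 z (n 0 z (n 0 z (n 0 z z))))) (n 481 (n 0 z (n 0 z (n 0
 z (n 0 z (n 0 z (n 0 z (n 0 z (n 0 z (n 0 z (n 0 z (n 0 z (n 0 z (n 0 z (n 0 z (n 0 z (n 0 z (n
 0 z z))))))))))))))))) (n 481 (n 0 z (n 0 z (n 0 z (n 0 z (n 0 z (n 0 z (n 0 z (n 0 z (n 0 z (n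
 0 z (n 0 z (n 0 z (n 0 z (n 0 z (n 0 z (n 0 z (n 0 z z))))))))))))))))) (n 481 (n 0 z (n 0 z (n
 0 z (n 0 z (n 0 z (n 0 z (n 0 z (n 0 z (n 0 z (n 0 z (n 0 z (n 2 z (n 0 z (n 0 z (n 0 z (n 0 z
 (n 0 z z))))))))))))))))) z))))) (n 0 (n 51 (n 0 z (n 2 (n 1 z (n 2 (n 0 z (n 0 z (n 0 z (n 0 z
 (n 0 z (n 0 z z)))))) (n 2 (n 0 z (n 0 z (n 0 z (n 0 z (n 0 z (n 0 z z)))))) z))) (n 0 z (n 0 z
 z)))) (n 533 (n 0 z (n 0 z (n 0 z (n 0 z (n 0 z (n 0 z (n 0 z (n 0 z (n 0 z (n 0 z (n 0 z (n 0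
 z (n 0 z (n 0 z (n 0 z (n 0 z (n 0 z (n 0 z (n 0 z (n 2 (n 0 z (n 0 z z)) (n 0 z (n 0 z
 z)))))))))))))))))))))) (n 533 (n 0 z (n 0 z (n 0 z (n 0 z (n 0 z (n 0 z (n 0 z (n 2 (n 0 z z)
 (n 0 z (n 0 z (n 0 z (n 0 z (n 0 z (n 0 z (n 0 z (n 0 z (n 0 z (n 0 z (n 0 z (n 0 z (n 0 z (n 0
 z z)))))))))))))))))))))) (n 533 (n 0 z (n 0 z (n 0 z (n 0 z (n 0 z (n 0 z (n 0 z (n 0 z (n 0 z
 (n 0 z (n 0 z (n 0 z (n 0 z (n 0 z (n 0 z (n 0 z (n 0 z (n 0 z (n 0 z (n 0 z (n 0 z (n 0 z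
 z)))))))))))))))))))))) z)))) (n 0 (n 1 (n 0 z (n 0 z (n 0 z (n 0 z (n 0 z (n 0 z (n 0 z (n 0 z
 (n 0 z (n 2 (n 0 z (n 0 z z)) (n 0 z (n 0 z (n 0 z (n 0 z (n 0 z (n 0 z (n 0 z (n 0 z
 z)))))))))))))))))) (n 1 (n 0 z (n 0 z (n 0 z (n 0 z (n 0 z (n 0 z (n 0 z (n 0 z (n 0 z (n 0 z
 (n 0 z (n 0 z (n 0 z (n 0 z (n 0 z (n 0 z (n 0 z (n 0 z z)))))))))))))))))) (n 1 (n 0 z (n 0 z
 (n 0 z (n 0 z (n 0 z (n 0 z (n 0 z (n 0 z (n 0 z (n 0 z (n 0 z (n 0 z (n 0 z (n 0 z (n 0 z (n 0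
 z (n 0 z (n 0 z z)))))))))))))))))) z))) (n 0 (n 0 z (n 0 z z)) (n 0 (n 0 z z) (n 0 z
 z)))))))))))) (n 0 (n 0 z (n 1 (n 2236 z (n 2236 z (n 6623755 z (n 12 z (n 2236 z (n 2236 z
 z)))))) (n 1 (n 6496515 z (n 6496515 z (n 6496515 z (n 6496515 z (n 6496515 z (n 6496515 z
 z)))))) z))) (n 0 z z)))) (n 0x6513a1c2d50a22ebc226da08b6f209a6a02d3ca201a88809e8c0 (n 0 (n 153
 (n 0x2ca8a8460381f7e189f79f8a082085e8217a08208608208218608608228208207e08207e08217e07e08200801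
 z (n
 0x98c424962191d6a86e58da85b7a68128da6266a09e189f7a2b9f7e379b9a18de8567687de9a695d9256a00081 z
 (n 2 z (n 6619947 z (n 10 z (n 18 z (n
 0x6ca8ca46078207de7df8218608a182286479f89e8207e081f7208618228207a07e18618a48607e081f8200801 z
 (n 5379595 z (n 3282443 z z))))))))) (n 33 (n 0 z (n 0 z (n 0 z (n 0 z (n 0 z (n 6496515 z (n 0
 z z))))))) (n 9 (n 0 z (n 0 z (n 26 z (n 0 z (n 0 z (n 34 z (n 6496515 z z))))))) (n 267 (n 42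
 z (n 0 z (n 50 z (n 6496515 z (n 0 z z))))) (n 1 (n 0 z (n 0 z (n 6566483 z z))) (n 0 (n
 0x98c604963091d6a86e58da85b7a68128da6266a09e189f7a2b9f7e379b9a18de8567687de9a695d9256a00081 z
 (n 58 z (n 3212891 z (n 66 z (n
 0x98c204961091d6a86e58da85b7a68128da6266a09e189f7a2b9f7e379b9a18de8567687de9a695d9256a00081 z
 (n 6619947 z (n
 0x98c424962191d6a86e58da85b7a68128da6266a09e189f7a2b9f7e379b9a18de8567687de9a695d9256a00081 z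
 (n 74 z (n 6619947 z (n
 0xec86c820077e07dc79f8228a08e08238e86de91b8207df81e61e8a186486071f7e28e192981f7a085e81f0801 z
 (n 4392539 z (n 6619947 z z)))))))))))) z)))))) (n 1 (n 0 (n 0 z (n 0 z (n 203 (n 0 z (n 0 z (n
 0 z (n 0 z (n 0 z (n 0 z (n 0 z (n 0 z (n 0 z (n 0 z (n 0 z (n 2 (n 0 z (n 2 (n 0 z (n 0 z (n 0
 z (n 0 z (n 0 (n 8855571 z z) (n 0 z z)))))) (n 2 (n 0 z (n 0 z (n 0 z (n 0 z (n 0 z (n 0 z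
 z)))))) (n 2 (n 0 z (n 0 z (n 0 z (n 0 z (n 0 z (n 0 z z)))))) (n 2 (n 0 z (n 0 z (n 0 z (n 0 z
 (n 0 z (n 0 z z)))))) (n 2 (n 0 z (n 0 z (n 0 z (n 0 z (n 0 z (n 0 z z)))))) z)))))) (n 0 z (n
 0 z (n 0 z (n 0 z (n 0 z z))))))))))))))))) (n 203 (n 0 z (n 0 z (n 0 z (n 0 z (n 0 z (n 0 z (n
 0 z (n 0 z (n 0 z (n 0 z (n 0 z (n 0 z (n 0 z (n 0 z (n 0 z (n 0 z (n 0 z z))))))))))))))))) (n
 555 (n 0 z (n 0 z (n 0 z (n 2 (n 0 z (n 2 (n 0 z (n 0 z (n 0 z (n 0 z (n 0 z (n 0 z z)))))) (n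
 2 (n 0 z (n 0 z (n 0 z (n 0 z (n 0 (n 1157 z z) (n 0 z z)))))) (n 2 (n 0 z (n 0 z (n 0 z (n 0 z
 (n 0 z (n 0 z z)))))) z)))) (n 0 z (n 0 z (n 0 z (n 0 z (n 0 z (n 0 z (n 0 z (n 0 z (n 0 z
 z))))))))))))) (n 555 (n 0 z (n 0 z (n 0 z (n 0 z (n 0 z (n 0 z (n 0 z (n 0 z (n 0 z (n 0 z (n
 0 z (n 0 z (n 0 z z))))))))))))) (n 305 (n 2 (n 0 z (n 0 z z)) (n 0 z (n 0 z (n 0 z (n 0 z (n 0
 z (n 0 z (n 0 z (n 0 z (n 0 z (n 0 z (n 0 z z)))))))))))) (n 305 (n 0 z (n 0 z (n 0 z (n 0 z (n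
 0 z (n 0 z (n 0 z (n 2 (n 0 z z) (n 0 z (n 0 z (n
 0x6ec8ec860785a8268605a08226e28988235a07207e48627e1a5c8a09608a57de7df7a271f7e172485e7a10801 z
 (n 0 z z)))))))))))) (n 305 (n 0 z (n 0 z (n 0 z (n 0 z (n 0 z (n 0 z (n 2 z (n 0 z (n 0 z (n 0
 z (n 0 z (n 0 z z)))))))))))) z))))))))) (n 0 (n 0 z (n 35 (n 0 z (n 0 z (n 0 z (n 0 z (n 0 z
 (n 0 z (n 0 z (n 0 z (n 0 z (n 0 z (n 0 z (n 0 z z)))))))))))) (n 35 (n 0 z (n 0 z (n 0 z (n 0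
 z (n 2 (n 1 z (n 2 (n 0 z (n 0 z (n 0 z (n 0 z (n 0 (n 8868675 z z) (n 0 z z)))))) (n 2 (n 0 z
 (n 0 z (n 0 z (n 0 z (n 0 (n 8790035 z z) (n 0 z z)))))) (n 2 (n 0 z (n 0 z (n 0 z (n 0 z (n 0
 (n 1156 z z) (n 0 z z)))))) (n 2 (n 0 z (n 0 z (n 0 z (n 0 z (n 0 (n 8868675 z z) (n 0 z
 z)))))) z))))) (n 0 z (n 0 z (n 0 z (n 0 z (n 0 z (n 0 z (n 0 z z)))))))))))) (n 247 (n 0 z (n
 0 z (n 0 z (n 0 z (n 0 z (n 0 z (n 0 z (n 0 z (n 0 z (n 0 z (n 0 z (n 0 z (n 0 z (n 0 z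
 z)))))))))))))) (n 247 (n 0 z (n 0 z (n 0 z (n 0 z (n 2 (n 2 (n 0 z (n 0 z (n 0 z (n 0 z (n 0 z
 (n 0 z z)))))) (n 2 (n 0 z (n 0 z (n 0 z (n 0 z (n 0 z (n 0 z z)))))) (n 2 (n 0 z (n 0 z (n 0 z
 (n 0 z (n 0 z (n 0 z z)))))) z))) (n 0 z (n 0 z (n 0 z (n 0 z (n 0 z (n 0 z (n 0 z (n 0 z (n 0
 z z)))))))))))))) (n 289 (n 0 z (n 0 z (n 0 z (n 0 z (n 0 z (n 0 z (n 0 z (n 0 z (n 0 z (n 0 z
 (n 0 z z))))))))))) (n 289 (n 0 z (n 0 z (n 2 (n 0 z z) (n 0 z (n 0 z (n 0 z (n 0 z (n 0 z (n 0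
 z (n 0 z (n 0 z z))))))))))) (n 289 (n 0 z (n 0 z (n 0 z (n 0 z (n 0 z (n 0 z (n 0 z (n 0 z (n
 0 z (n 0 z (n 0 z z))))))))))) z)))))))) (n 0 (n 23 (n 0 z (n 0 z (n 0 z (n 0 z (n 2 (n 0 z (n
 2 (n 0 z (n 0 z (n 0 z (n 0 z (n 0 (n 8855571 z z) (n 0 z z)))))) (n 2 (n 0 z (n 0 z (n 0 z (n
 0 z (n 0 z (n 0 z z)))))) (n 2 (n 0 z (n 0 z (n 0 z (n 0 z (n 0 z (n 0 z z)))))) (n 2 (n 0 z (n
 0 z (n 0 z (n 0 z (n 0 z (n 0 z z)))))) (n 2 (n 0 z (n 0 z (n 0 z (n 0 z (n 0 z (n 0 z z))))))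
 z)))))) (n 0 z (n 0 z (n 0 z (n 0 z (n 0 z (n 0 z (n 0 z (n 0 z (n 0 z (n 0 z z)))))))))))))))
 (n 23 (n 0 z (n 0 z (n 0 z (n 0 z (n 0 z (n 0 z (n 0 z (n 0 z (n 0 z (n 0 z (n 0 z (n 0 z (n 0
 z (n 0 z (n 0 z z))))))))))))))) (n 555 (n 0 z (n 0 z (n 0 z (n 0 z (n 2 (n 0 z (n 2 (n 0 z (n
 0 z (n 0 z (n 0 z (n 0 (n 8855571 z z) (n 0 z z)))))) (n 2 (n 0 z (n 0 z (n 0 z (n 0 z (n 0 (n
 1204 z z) (n 0 z z)))))) (n 2 (n 0 z (n 0 z (n 0 z (n 0 z (n 0 (n 8803139 z z) (n 0 z z))))))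
 z)))) (n 0 z (n 0 z (n 0 z z)))))))) (n 555 (n 0 z (n 0 z (n 0 z (n 0 z (n 0 z (n 0 z (n 0 z (n
 0 z z)))))))) (n 301 (n 0 z (n 0 z (n 0 z (n 0 z (n 0 z (n 0 z (n 0 z (n 0 z (n 0 z (n 0 z (n 0
 z z))))))))))) (n 301 (n 0 z (n 0 z (n 2 (n 0 z z) (n 0 z (n 0 z (n 0 z (n 0 z (n 0 z (n 0 z (n
 0 z (n 0 z z))))))))))) (n 301 (n 0 z (n 0 z (n 0 z (n 0 z (n 0 z (n 0 z (n 0 z (n 0 z (n 0 z
 (n 0 z (n 0 z z))))))))))) z))))))) (n 0 (n 0 z (n 295 (n 0 z (n 0 z (n 0 z (n 0 z (n 0 z (n 0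
 z (n 0 z z))))))) (n 295 (n 0 z (n 0 z (n 2 (n 2 (n 0 z (n 0 z (n 0 z (n 0 z (n 0 z (n 0 z
 z)))))) (n 1 z (n 2 (n 0 z (n 0 z (n 0 z (n 0 z (n 0 z (n 0 z z)))))) z))) (n 0 z (n 0 z (n 0 z
 (n 0 z z))))))) (n 13 (n 0 z (n 0 z (n 0 z (n 0 z (n 0 z (n 0 z (n 0 z (n 0 z (n 0 z (n 0 z (n
 0 z z))))))))))) (n 13 (n 0 z (n 0 z (n 0 z (n 0 z (n 0 z (n 0 z (n 0 z (n 0 z (n 0 z (n 0 z (n
 0 z z))))))))))) (n 13 (n 0 z (n 0 z (n 0 z (n 0 z (n 0 z (n 0 z (n 2 z (n 0 z (n 0 z (n 0 z (n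
 0 z z))))))))))) z)))))) (n 0 (n 247 (n 0 z (n 0 z (n 2 (n 0 z (n 1 z (n 1 z (n 1 z z)))) (n 0
 z (n 0 z (n 0 z (n 0 z z))))))) (n 247 (n 0 z (n 0 z (n 0 z (n 0 z (n 0 z (n 0 z (n 0 z
 z))))))) (n 13 (n 0 z (n 2 (n 0 z (n 0 z z)) (n 0 z (n 0 z (n 0 z (n 0 z (n 0 z (n 0 z (n 0 z
 (n 0 z (n 0 z (n 0 z (n 0 z (n 0 z z)))))))))))))) (n 13 (n 0 z (n 0 z (n 0 z (n 0 z (n 2 (n 0
 z z) (n 0 z (n 0 z (n 0 z (n 0 z (n 0 z (n 0 z (n 0 z (n 0 z (n 0 z z)))))))))))))) (n 13 (n 0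
 z (n 0 z (n 0 z (n 0 z (n 0 z (n 0 z (n 0 z (n 0 z (n 0 z (n 0 z (n 0 z (n 0 z (n 0 z (n 0 z
 z)))))))))))))) z))))) (n 0 (n 0 z (n 289 (n 0 z (n 0 z (n 0 z (n 0 z (n 0 z (n 0 z (n 0 z (n 0
 z (n 0 z (n 0 z (n 0 z (n 0 z (n 0 z (n 0 z (n 0 z (n 0 z (n 0 z (n 0 z (n 0 z (n 0 z (n 0 z (n
 0 z (n 0 z (n 0 z (n 0 z (n 0 z (n 0 z (n 0 z (n 0 z (n 0 z (n 0 z (n 0 z (n 0 z (n 0 z (n 0 z
 (n 0 z (n 0 z (n 0 z (n 0 z (n 0 z (n 0 z (n 0 z (n 0 z (n 0 z (n 0 z (n 0 z (n 0 z (n 0 z (n 0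
 z (n 0 z (n 0 z (n 0 z (n 0 z (n 0 z (n 0 z (n 0 z
 z)))))))))))))))))))))))))))))))))))))))))))))))))))))))) (n 289 (n 0 z (n 0 z (n 0 z (n 0 z (n
 0 z (n 0 z (n 0 z (n 0 z (n 0 z (n 0 z (n 0 z (n 0 z (n 0 z (n 0 z (n 0 z (n 0 z (n 0 z (n 0 z
 (n 0 z (n 0 z (n 0 z (n 0 z (n 0 z (n 0 z (n 0 z (n 0 z (n 0 z (n 0 z (n 0 z (n 0 z (n 0 z (n 0
 z (n 0 z (n 0 z (n 0 z (n 0 z (n 0 z (n 0 z (n 0 z (n 0 z (n 0 z (n 0 z (n 0 z (n 0 z (n 0 z (n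
 0 z (n 0 z (n 0 z (n 0 z (n 0 z (n 0 z (n 0 z (n 0 z (n 0 z (n 0 z (n 0 z
 z)))))))))))))))))))))))))))))))))))))))))))))))))))))))) (n 289 (n 0 z (n 0 z (n 0 z (n 0 z (n
 0 z (n 0 z (n 0 z (n 0 z (n 0 z (n 0 z (n 0 z (n 0 z (n 0 z (n 0 z (n 0 z (n 0 z (n 0 z (n 0 z
 (n 0 z (n 0 z (n 0 z (n 0 z (n 0 z (n 0 z (n 0 z (n 0 z (n 0 z (n 0 z (n 0 z (n 0 z (n 0 z (n 0
 z (n 0 z (n 0 z (n 0 z (n 0 z (n 0 z (n 0 z (n 0 z (n 0 z (n 0 z (n 0 z (n 0 z (n 2 z (n 0 z (n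
 0 z (n 0 z (n 0 z (n 0 z (n 0 z (n 0 z (n 0 z (n 0 z (n 0 z (n 0 z (n 0 z
 z)))))))))))))))))))))))))))))))))))))))))))))))))))))))) z)))) (n 0 (n 241 (n 2 (n 0 z (n 0 z
 z)) (n 0 z (n 0 z (n 0 z (n 0 z (n 0 z (n 0 z (n 0 z (n 0 z (n 0 z (n 0 z (n 0 z (n 0 z (n 0 z
 (n 0 z (n 0 z (n 0 z (n 0 z (n 0 z (n 0 z (n 0 z (n 0 z (n 0 z (n 0 z (n 0 z
 z))))))))))))))))))))))))) (n 241 (n 0 z (n 0 z (n 0 z (n 0 z (n 0 z (n 0 z (n 0 z (n 2 (n 0 z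
 z) (n 0 z (n 0 z (n 0 z (n 0 z (n 0 z (n 0 z (n 0 z (n 0 z (n 0 z (n 0 z (n 0 z (n 0 z (n 0 z
 (n 0 z (n 0 z (n 0 z (n 0 z z))))))))))))))))))))))))) (n 241 (n 0 z (n 0 z (n 0 z (n 0 z (n 0
 z (n 0 z (n 0 z (n 0 z (n 0 z (n 0 z (n 0 z (n 0 z (n 0 z (n 0 z (n 0 z (n 0 z (n 0 z (n 0 z (n
 0 z (n 0 z (n 0 z (n 0 z (n 0 z (n 0 z (n 0 z z))))))))))))))))))))))))) z))) (n 0 (n 0 z (n 0
 z z)) (n 0 (n 0 z z) (n 0 z z)))))))))) (n 0 (n 0 z (n 0 z (n 1 (n 6566483 z (n 6566483 z (n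
 6566483 z (n 6566483 z (n 6566483 z (n 6566483 z z)))))) z))) (n 0 z z)))) (n
 0xaa8e84d33606999502d388265b41c4e620955c08a4d08944c32a26813134c0 (n 0x22699 (n 153 (n 2 z (n
 3282443 z z)) (n 33 (n 0 z (n 0 z (n 10 z (n 6631747 z (n 0 z (n 0 z (n 0 z z))))))) (n 11 (n
 18 z (n
 0xca8a862078607e18607e27df8208a086082185f8218207e17e182081f89f82281f86085f8607e08207e00801 z (n
 26 z (n 34 z (n 0 z (n 3212843 z (n 42 z (n 0 z (n 0 z (n 0 z (n 0 z z))))))))))) (n 27 (n 0 z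
 (n 0 z (n 0 z (n 6631747 z (n 0 z (n 0 z (n 0 z (n 50 z (n 0 z (n 6631747 z (n 0 z (n 0 z (n 58
 z (n 0 z (n 66 z (n 0 z (n 0 z (n 0 z z)))))))))))))))))) (n 1 (n 0 z (n 0 z (n 74 z (n 0 z (n
 6558219 z (n 0 z (n 0 z (n 0 z z)))))))) (n 0 (n 82 z (n 90 z (n 0 z (n 6631747 z (n 6631747 z
 (n
 0x6c86c864037fe80c7f97ee82b7ed80c7f680c7fc8017fa8008057f97f98058008018087dd8227ff8087f87fe8267fd8027fc81080380580a7fc8027fb7f57f77fd7fb7f57fb8068078008118057f08080811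
 z (n 0 z z))))))) z)))))) (n 153 (n 0 (n 79 (n 0 z (n 0 z (n 0 z (n 0 z (n 0 z (n 0 z (n 0 z (n
 0 z z)))))))) (n 915 (n 0 z (n 0 z (n 0 z (n 0 z (n 0 z (n 0 z (n 0 z (n 0 z (n 0 z (n 0 z (n 0
 z (n 0 z (n 0 z (n 0 z (n 0 z (n 0 z (n 0 z z))))))))))))))))) (n 915 (n 0 z (n 0 z (n 0 z (n 2
 (n 0 z (n 0 z (n 1 z (n 1 z (n 1 z (n 2 (n 0 z (n 0 z (n 0 z (n 0 z (n 0 z (n 0 (n 8799003 z z)
 z)))))) (n 1 z (n 1 z z)))))))) (n 0 z (n 0 z (n 0 z (n 0 z (n 0 z (n 0 z (n 0 z (n 0 z (n 0 z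
 (n 0 z (n 0 z (n 0 z (n 0 z z))))))))))))))))) (n 915 (n 0 z (n 2 (n 0 z (n 2 (n 0 z (n 0 z (n
 0 z (n 0 z (n 0 z (n 0 z z)))))) (n 2 (n 0 z (n 0 z (n 0 z (n 0 z (n 0 z (n 0 z z)))))) (n 2 (n
 0 z (n 0 z (n 0 z (n 0 z (n 0 z (n 0 z z)))))) (n 2 (n 0 z (n 0 z (n 0 z (n 0 z (n 0 z (n 0 z
 z)))))) (n 2 (n 0 z (n 0 z (n 0 z (n 0 z (n 0 z (n 0 z z)))))) (n 2 (n 0 z (n 0 z (n 0 z (n 0 z
 (n 0 z (n 0 z z)))))) z))))))) (n 0 z (n 0 z (n 0 z (n 0 z (n 0 z (n 0 z (n 0 z (n 0 z (n 0 z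
 (n 0 z (n 0 z (n 0 z (n 0 z (n 0 z (n 0 z z))))))))))))))))) (n 915 (n 0 z (n 0 z (n 0 z (n 0 z
 (n 0 z (n 0 z (n 0 z (n 0 z (n 0 z (n 0 z (n 0 z (n 0 z (n 0 z (n 0 z (n 0 z (n 0 z (n 0 z
 z))))))))))))))))) (n 535 (n 0 z (n 0 z (n 0 z (n 0 z (n 0 z (n 0 z (n 0 z z))))))) (n 535 (n 0
 z (n 0 z (n 0 z (n 0 z (n 0 z (n 0 z (n 0 z z))))))) (n 535 (n 0 z (n 0 z (n 0 z (n 0 z (n 0 z
 (n 0 z (n 0 z z))))))) (n 531 (n 0 z (n 0 z (n 0 z (n 0 z (n 0 z z))))) (n 529 (n 0 z (n 0 z (n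
 0 z (n 0 z (n 0 z (n 0 z (n 0 z (n 0 z (n 0 z z))))))))) (n 529 (n 2 z (n 0 z (n 0 z (n 0 z (n
 0 z (n 0 z (n 0 z (n 0 z (n 0 z z))))))))) z))))))))))) (n 0 (n 19 (n 0 z (n 0 z (n 0 z (n 0 z
 (n 0 z (n 0 z (n 0 z (n 0 z (n 0 z (n 0 z (n 0 z (n 0 z (n 0 z (n 0 z z)))))))))))))) (n 19 (n
 0 z (n 0 z (n 2 (n 0 z (n 0 z (n 1 z (n 1 z (n 1 z (n 2 (n 0 z (n 0 z (n 0 z (n 0 z (n 0 z (n 0
 (n 8790275 z z) z)))))) (n 1 z (n 1 z z)))))))) (n 0 z (n 0 z (n 0 z (n 0 z (n 0 z (n 0 z (n 0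
 z (n 0 z (n 0 z (n 0 z (n 0 z z)))))))))))))) (n 19 (n 0 z (n 0 z (n 0 z (n 0 z (n 0 z (n 0 z
 (n 0 z (n 0 z (n 7741699 z (n 0 z (n 0 z (n 0 z (n 0 z (n 0 z z)))))))))))))) (n 19 (n 0 z (n 0
 z (n 0 z (n 0 z (n 0 z (n 0 z (n 0 z (n 0 z (n 0 z (n 0 z (n 0 z (n 0 z (n 0 z (n 0 z
 z)))))))))))))) (n 7 (n 0 z (n 0 z (n 0 z (n 0 z (n 0 z (n 0 z (n 0 z (n 0 z z)))))))) (n 7 (n
 0 z (n 0 z (n 0 z (n 0 z (n 0 z (n 0 z (n 0 z (n 0 z z)))))))) (n 7 (n 0 z (n 0 z (n 0 z (n 0 z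
 (n 0 z (n 0 z (n 0 z (n 0 z z)))))))) (n 3 (n 0 z (n 0 z (n 0 z (n 0 z (n 0 z (n 0 z (n 0 z (n
 0 z (n 0 z (n 0 z (n 0 z (n 0 z (n 0 z z))))))))))))) (n 1 (n 0 z (n 0 z (n 0 z (n 0 z (n 0 z
 (n 0 z (n 0 z (n 0 z (n 0 z (n 0 z (n 0 z (n 0 z (n 0 z (n 0 z z)))))))))))))) (n 1 (n 0 z (n 0
 z (n 0 z (n 2 z (n 0 z (n 0 z (n 0 z (n 0 z (n 0 z (n 0 z (n 0 z (n 0 z (n 0 z (n 0 z
 z)))))))))))))) z)))))))))) (n 0 (n 0 z (n 0 z (n 0 z (n 55 (n 0 z (n 0 z (n 0 z (n 0 z (n 0 z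
 (n 0 z (n 0 z (n 0 z z)))))))) (n 55 (n 0 z (n 0 z (n 0 z (n 0 z (n 0 z (n 0 z (n 0 z (n 0 z
 z)))))))) (n 55 (n 0 z (n 0 z (n 0 z (n 0 z (n 0 z (n 0 z (n 0 z (n 0 z z)))))))) (n 51 (n 0 z
 (n 0 z (n 0 z (n 0 z (n 0 z (n 0 z (n 0 z (n 0 z (n 0 z z))))))))) (n 49 (n 0 z (n 0 z (n 0 z
 (n 0 z (n 0 z (n 0 z (n 0 z (n 0 z (n 0 z (n 0 z (n 0 z z))))))))))) (n 49 (n 2 z (n 0 z (n 0 z
 (n 0 z (n 0 z (n 0 z (n 0 z (n 0 z (n 0 z (n 0 z (n 0 z z))))))))))) z))))))))) (n 0 (n 0 z (n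
 0 z (n 11 (n 0 z (n 0 z (n 0 z (n 0 z (n 0 z (n 0 z z)))))) (n 11 (n 0 z (n 2 (n 0 z (n 2 (n 0
 z (n 0 z (n 0 z (n 0 z (n 0 z (n 0 (n 8855811 z z) z)))))) (n 1 z (n 1 z z)))) (n 0 z (n 0 z (n
 0 z (n 0 z z)))))) (n 11 (n 0 z (n 0 z (n 0 z (n 0 z (n 0 z (n 0 z z)))))) (n 15 (n 0 z (n 0 z
 (n 0 z (n 2 (n 2 (n 0 z (n 0 z (n 0 z (n 0 z (n 0 z (n 0 z z)))))) (n 2 (n 0 z (n 0 z (n 0 z (n
 0 z (n 0 z (n 0 z z)))))) z)) (n 0 z (n 0 z (n 0 z (n 0 z (n 0 z (n 0 z (n 0 z (n 0 z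
 z)))))))))))) (n 13 (n 2 (n 0 z z) (n 0 z (n 0 z (n 0 z (n 0 z (n 0 z (n 0 z (n 0 z (n 0 z (n 0
 z (n 0 z z))))))))))) (n 13 (n 0 z (n 0 z (n 0 z (n 0 z (n 0 z (n 0 z (n 0 z (n 0 z (n 0 z (n 0
 z (n 0 z z))))))))))) z)))))))) (n 0 (n 0 z (n 55 (n 0 z (n 0 z (n 0 z (n 0 z (n 0 z (n 0 z
 z)))))) (n 55 (n 0 z (n 0 z (n 7741699 z (n 0 z (n 0 z (n 0 z z)))))) (n 55 (n 0 z (n 0 z (n 0
 z (n 0 z (n 0 z (n 0 z z)))))) (n 3 (n 0 z (n 0 z (n 7741699 z (n 0 z (n 0 z (n 0 z (n 0 z (n 0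
 z (n 0 z z))))))))) (n 1 (n 7741699 z (n 0 z (n 0 z (n 0 z (n 0 z (n 0 z (n 0 z (n 0 z (n 0 z
 (n 0 z (n 0 z (n 0 z z)))))))))))) (n 1 (n 0 z (n 0 z (n 2 z (n 0 z (n 0 z (n 0 z (n 0 z (n 0 z
 (n 0 z (n 0 z (n 0 z (n 0 z z)))))))))))) z))))))) (n 0 (n 59 (n 0 z (n 0 z (n 0 z (n 0 z (n 0
 z (n 0 z (n 0 z (n 0 z (n 0 z (n 0 z (n 0 z (n 0 z (n 0 z (n 0 z (n 0 z (n 0 z (n 0 z (n 0 z
 z)))))))))))))))))) (n 59 (n 0 z (n 0 z (n 0 z (n 0 z (n 0 z (n 0 z (n 0 z (n 0 z (n 0 z (n 0 z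
 (n 0 z (n 0 z (n 0 z (n 0 z (n 0 z (n 0 z (n 0 z (n 0 z z)))))))))))))))))) (n 59 (n 0 z (n 0 z
 (n 0 z (n 2 (n 2 (n 0 z (n 0 (n 8790275 z z) (n 0 z (n 0 z (n 0 (n 8790275 z z) (n 0 (n 8790275
 z (n 8790275 z z)) z)))))) (n 2 (n 0 z (n 0 (n 8790275 z z) (n 0 z (n 0 (n 8790275 z z) (n 0 z
 (n 0 (n 8790275 z (n 8790275 z z)) z)))))) (n 2 (n 0 z (n 0 z (n 0 z (n 0 z (n 0 z (n 0 z
 z)))))) z))) (n 0 z (n 0 z (n 0 z (n 0 z (n 0 z (n 0 z (n 0 z (n 0 z (n 0 z (n 0 z (n 0 z (n 0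
 z (n 0 z (n 0 z z)))))))))))))))))) (n 483 (n 0 z (n 0 z (n 0 z (n 0 z (n 0 z (n 0 z (n 0 z (n
 0 z (n 0 z (n 0 z (n 0 z (n 0 z z)))))))))))) (n 481 (n 0 z (n 0 z (n 0 z (n 0 z (n 0 z (n 0 z
 z)))))) (n 481 (n 0 z (n 0 z (n 0 z (n 0 z (n 0 z (n 0 z z)))))) z)))))) (n 0 (n 0 z (n 0 z (n
 51 (n 0 z (n 0 z (n 0 z (n 0 z (n 0 z (n 0 z (n 0 z (n 0 z z)))))))) (n 49 (n 0 z (n 0 z (n 0 z
 (n 0 z (n 0 z (n 0 z (n 0 z (n 0 z z)))))))) (n 49 (n 0 z (n 0 z (n 0 z (n 0 z (n 0 z (n 0 z (n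
 0 z (n 0 z z)))))))) z))))) (n 0 (n 0 z (n 51 (n 0 z (n 0 z (n 0 z (n 0 z (n 0 z (n 0 z z))))))
 (n 49 (n 0 z (n 0 z (n 0 z (n 0 z (n 0 z (n 0 z (n 0 z (n 0 z (n 0 z (n 0 z (n 0 z (n 0 z
 z)))))))))))) (n 49 (n 2 z (n 0 z (n 0 z (n 0 z (n 0 z (n 0 z (n 0 z (n 0 z (n 0 z (n 0 z (n 0
 z (n 0 z z)))))))))))) z)))) (n 0 (n 483 (n 0 z (n 0 z (n 0 z (n 0 z (n 0 z (n 0 z z)))))) (n
 481 (n 0 z (n 0 z (n 0 z (n 0 z (n 0 z (n 0 z (n 0 z (n 0 z (n 0 z (n 0 z (n 0 z (n 0 z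
 z)))))))))))) (n 481 (n 0 z (n 0 z (n 0 z (n 0 z (n 0 z (n 0 z (n 0 z (n 0 z (n 0 z (n 0 z (n 0
 z (n 0 z z)))))))))))) z))) (n 0 (n 53 (n 0 z (n 0 z (n 0 z (n 0 z (n 0 z (n 0 z (n 0 z (n 0 z
 (n 0 z (n 0 z (n 0 z (n 0 z (n 0 z (n 0 z (n 0 z (n 0 z (n 0 z (n 0 z (n 0 z (n 0 z (n 0 z (n 0
 z (n 0 z (n 0 z (n 0 z (n 0 z (n 0 z (n 0 z (n 0 z (n 0 z (n 0 z (n 0 z (n 0 z (n 0 z (n 0 z (n
 0 z (n 0 z (n 0 z (n 0 z (n 0 z (n 0 z (n 0 z (n 0 z (n 0 z (n 0 z (n 0 z (n 0 z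
 z))))))))))))))))))))))))))))))))))))))))))))))) (n 53 (n 0 z (n 0 z (n 0 z (n 0 z (n 0 z (n 0
 z (n 0 z (n 0 z (n 0 z (n 0 z (n 0 z (n 0 z (n 0 z (n 0 z (n 0 z (n 0 z (n 0 z (n 0 z (n 0 z (n
 0 z (n 0 z (n 0 z (n 0 z (n 0 z (n 0 z (n 0 z (n 2 z (n 0 z (n 0 z (n 0 z (n 0 z (n 0 z (n 0 z
 (n 0 z (n 0 z (n 0 z (n 0 z (n 0 z (n 0 z (n 0 z (n 0 z (n 0 z (n 0 z (n 0 z (n 0 z (n 0 z (n 0
 z z))))))))))))))))))))))))))))))))))))))))))))))) z)) (n 0 (n 0 z z) (n 0 z z)))))))))))) (n 0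
 (n 1 (n 2 z (n 6558219 z (n 268 z (n 268 z (n 268 z (n 268 z z)))))) (n 1 (n 6558219 z (n
 3282443 z (n 3282443 z (n 3282443 z (n 3282443 z (n 3282443 z z)))))) z)) (n 0 (n
 0x41551d29a112 (n 0 (n 0 (n 7741699 z (n 7741699 z (n 7741699 z (n 7741699 z (n 7741699 z (n
 7741699 z z)))))) z) (n 0 (n 153 (n 1 (n 7750427 z (n 7750427 z (n 7750427 z (n 7750427 z (n
 7750427 z (n 7750427 z z)))))) (n 1 (n 3282699 z (n 3282699 z (n 3282699 z (n 3282699 z (n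
 3282699 z (n 3282699 z z)))))) z)) (n 33 (n 0 z (n 0 z (n 1 (n 7741699 z (n 7741699 z (n
 7741699 z (n 7741699 z (n 7741699 z (n 7741699 z z)))))) (n 1 (n 7741699 z (n 7741699 z (n
 7741699 z (n 7741699 z (n 7741699 z (n 7741699 z z)))))) (n 0 z (n 0 z (n 0 z z))))))) (n 27 (n
 1 (n 3772 z (n 2 z (n 3772 z (n 7750427 z (n 3772 z (n 3772 z z)))))) (n 1 (n 7680323 z (n
 7680323 z (n 7680323 z (n 7680323 z (n 7680323 z (n 7680323 z z)))))) (n 0 z (n 0 z (n 0 z (n 1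
 (n 7741699 z (n 7741699 z (n 7741699 z (n 7741699 z (n 7741699 z (n 7741699 z z)))))) (n 1 (n
 3772 z (n 3772 z (n 3772 z (n 7750427 z (n
 0xea8a862078607e18607e27df8208a086082185f8218207e17e182081f89f82281f86085f8607e08207e00801 z (n
 3772 z z)))))) (n 1 (n 7741699 z (n 7741699 z (n 7741699 z (n 7741699 z (n 7741699 z (n 7741699
 z z)))))) z)))))))) (n 25 (n 0 z (n 1 (n 7538203 z (n 7538203 z (n 7538203 z (n 7538203 z (n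
 7680323 z (n 7538203 z z)))))) (n 0 z (n 0 z (n 0 z (n 1 (n 7606795 z (n 7606795 z (n 7606795 z
 (n 7606795 z (n 7680323 z (n 7606795 z z)))))) z)))))) (n 279 (n 0 z (n 0 z (n 1 (n 7741699 z
 (n 3282699 z (n 3282699 z (n 3282699 z (n 3282699 z (n 3282699 z z)))))) (n 1 (n 7741699 z (n
 7750427 z (n 7750427 z (n 7606795 z (n 5443699 z (n 7750427 z z)))))) (n 0 z z))))) (n 0 (n 1
 (n 7741699 z (n 7741699 z (n 7741699 z (n 7741699 z (n 7741699 z (n 7741699 z z)))))) (n 1 (n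
 2284 z (n 10 z (n 2284 z (n 7538203 z (n 2284 z (n 2284 z z)))))) (n 0 z (n 1 (n 7680323 z (n
 7680323 z (n 7680323 z (n 7680323 z (n 7680323 z (n 7680323 z z)))))) (n 1 (n 7680323 z (n
 7680323 z (n 7680323 z (n 7680323 z (n 7680323 z (n 7680323 z z)))))) (n 1 (n 6493963 z (n 2284
 z (n 2284 z (n 2284 z (n 2284 z (n 2284 z z)))))) (n 0 z z))))))) (n 153 (n 1 (n 7741699 z (n
 7606795 z (n 7750427 z (n 7750427 z (n 7750427 z (n 7750427 z z)))))) (n 1 (n 7741699 z (n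
 3282699 z (n 3282699 z (n 3282699 z (n 3282699 z (n 3282699 z z)))))) z)) z))))))) (n 0 (n 0 (n
 0 z (n 0 z z)) (n 0 (n 0 z z) z)) (n 0 (n 159 (n 0 (n 0 z (n 0 z z)) (n 0 (n 0 z (n 0 z z)) (n
 0 (n 0 z (n 0 z z)) (n 0 (n 0 z (n 0 z z)) (n 0 (n 0 z (n 0 z z)) (n 0 (n 0 z (n 0 z z)) (n 0
 (n 0 z (n 0 z z)) (n 0 (n 0 z (n 0 z z)) z)))))))) (n 471 (n 0 (n 0 z (n 0 z z)) (n 0 (n 0 z (n
 0 z z)) (n 0 (n 0 z (n 0 z z)) (n 0 (n 0 z (n 0 z z)) (n 0 (n 0 z (n 0 (n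
 0x2b90e8014e1d002543a000187400010e80009d88025a900005320009664000a4c8000cb08000121080183e80a76c91376d8447c48618087e272382f85f73b7d183382680287b72e8e980c7d37f482b93e7f57f777a8997e880d8727db84182f7c97e87aa7d57f07c58007fd7ff8948277668450311
 z z) z)) (n 0 (n 0 z (n 0 z z)) (n 0 (n 0 z (n 0 z z)) (n 0 (n 0 z (n 0 z z)) (n 0 (n 0 z (n 0
 z z)) (n 0 (n 0 z (n 0 z z)) (n 0 (n 0 z (n 0 z z)) (n 0 (n 0 z (n 0 z z)) (n 0 (n 0 (n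
 0x2487586181fa9a7e06e37dc86471d8e182372c7df75fb9f81f9de81f7a27e07dd7a18a489f9256a20041 z z) (n
 0 (n
 0x5721d8029c3b004a87600130ec00021d80013b1004b520000a640012cc80010990001161080183e80a76c91376d8447c48618087e272482f85f73b7d183382680287b72e8e880c7d47f482c93e7f67f67798997e880e8727da84182f7c97e87aa7d57f07c67ff7fc7ff89582776784502d1
 z z) z)) (n 0 (n 0 (n 8867891 z z) (n 0 z z)) (n 0 (n 0 z (n 0 z z)) (n 0 (n 0 z (n 0 z z)) (n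
 0 (n 0 z (n 0 z z)) z))))))))))))))))) (n 33 (n 0 (n 0 z (n 0 z z)) (n 0 (n 0 z (n 0 z z)) (n 0
 (n 0 z (n 0 z z)) (n 0 (n 0 z (n 0 (n 8728899 z z) z)) (n 0 (n 0 z (n 0 z z)) (n 0 (n 0 z (n 0
 (n 8795979 z z) z)) (n 0 (n 0 z (n 0 z z)) (n 0 (n 0 (n
 0xc87082082082082081f82182082082082082182081f8608218208207e07e08218608208207e18200041 z (n
 0x30a2ea080786082085f7e08607e086086082185f8208207e182082181f8208217e08208608208208218210801 z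
 z)) (n 0 (n
 0x2487085f82376076381f8ad6e0ae25209a28df75b89b89976876286385c7608a499991e7df7a081f0041 z (n
 0x10a2a6080781f8208207e27e182086082082082082082082082082081f86082182082085f8208208208200801 z
 z)) z)) (n 0 (n 0 z (n 0 z z)) (n 0 (n 0 z (n 0 z z)) (n 0 (n 0 z (n 0 z z)) (n 0 (n 0 z (n 0 z
 z)) (n 0 (n 0 z (n 0 z z)) (n 0 (n 0 z (n 0 z z)) z)))))))))))))) (n 273 (n 0 (n 0 z (n 0 z z))
 (n 0 (n 0 z (n 0 z z)) (n 0 (n 0 z (n 0 z z)) (n 0 (n 0 z (n 0 z z)) (n 0 (n 0 (n 8586779 z z)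
 (n 0 (n 8586779 z z) z)) (n 0 (n 0 z (n 0 z z)) (n 0 (n 0 z (n 0 z z)) z))))))) (n 57 (n 0 (n 0
 z (n 0 z z)) (n 0 (n 0 z (n 0 z z)) (n 0 (n 0 z (n 0 z z)) (n 0 (n 0 z (n 0 z z)) (n 0 (n 0 z
 (n 0 z z)) (n 0 (n 0 z (n 0 z z)) (n 0 (n 0 z (n 0 z z)) (n 0 (n 0 (n 8790275 z (n 8790275 z
 z)) (n 0 z z)) z)))))))) (n 51 (n 0 (n 0 z (n 0 z z)) (n 0 (n 0 z (n 0 z z)) (n 0 (n 0 (n
 8860939 z z) (n 0 z z)) (n 0 (n 0 z (n 0 z z)) (n 0 (n 0 z (n 0 (n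
 0x148748618209dc7e17227de82379e8618217a77df7dfa5f81f91f81f7e17e07de79f8638208e37210041 z z) z))
 (n 0 (n 0 z (n 0 z z)) (n 0 (n 0 z (n 0 z z)) (n 0 (n 0 z (n 0 (n 8790275 z z) z)) z)))))))) (n
 279 (n 0 (n 0 z (n 0 z z)) (n 0 (n 0 z (n 0 z z)) (n 0 (n 0 z (n 0 z z)) (n 0 (n 0 z (n 0 z z))
 (n 0 (n 0 (n 8718139 z z) (n 0 z z)) z))))) (n 81 (n 0 (n 0 z (n 0 z z)) (n 0 (n 0 z (n 0 z z))
 (n 0 (n 0 z (n 0 z z)) (n 0 (n 0 z (n 0 z z)) (n 0 (n 0 (n 8867891 z (n 8867891 z z)) (n 0 (n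
 8848939 z (n 7682059 z z)) z)) (n 0 (n 0 z (n 0 z z)) (n 0 (n 0 z (n 0 z z)) (n 0 (n 0 z (n 0 z
 z)) (n 0 (n 0 z (n 0 (n 8798835 z (n 7682075 z z)) z)) (n 0 (n 0 z (n 0 z z)) (n 0 (n 0 z (n 0
 z z)) (n 0 (n 0 z (n 0 (n 8798835 z (n
 0xb0a60ad214c055c29809285300230a6002214c0013b10093520000a640024cc8002899000316108028798136dea156e288478b8be80d7c665385e8ba6817a086384d8028eb6649c981b7a97e684da6c7df7ea7049257d18188e77bd87c85d78d7d875d7ac7d378e8037fe7fd91b84a6d48830311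
 z z)) z)) (n 0 (n 0 z (n 0 z z)) z))))))))))))) (n 75 (n 0 (n 0 z (n 0 z z)) (n 0 (n 0 (n
 0x2ecb0a820381f82081f8208208208608218208208208208208208208208208208208208208208208208200801 z
 z) (n 0 z z)) (n 0 (n 0 z (n 0 z z)) (n 0 (n 0 z (n 0 z z)) (n 0 (n 0 z (n 0 z z)) (n 0 (n 0 z
 (n 0 z z)) (n 0 (n 0 z (n 0 (n 8790275 z z) z)) (n 0 (n 0 (n
 0x10a8ca62038607e08608218207e086186082082082081f82082082081f8608227e08208607e08207e08200801 z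
 z) (n 0 z z)) (n 0 (n 0 z (n 0 (n 8864355 z z) z)) z))))))))) (n 27 (n 0 (n 0 z (n 0 z z)) (n 0
 (n 0 z (n 0 z z)) (n 0 (n 0 z (n 0 z z)) (n 0 (n 0 (n 8860939 z (n 8860939 z z)) (n 0 (n
 8660843 z (n
 0xb0c40892188041c31007a86200230c400221880013b1000532000f664000e4c80039c08002161080286080f71a9aa71b8697a489780d7d16aa8498956ca7b784e83c8038be6bb9698137b97ee8459f07ef7ea7338f07d98168b87c286584b7a87de7797bc7e77a67ff7f77fd8e583d70e86a0311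
 z z)) z)) (n 0 (n 0 z (n 0 z z)) (n 0 (n 0 z (n 0 z z)) z)))))) (n 285 (n 0 (n 0 z (n 0 z z))
 (n 0 (n 0 z (n 0 z z)) (n 0 (n 0 z (n 0 z z)) (n 0 (n 0 (n 8867891 z z) (n 0 z z)) (n 0 (n 0 z
 (n 0 z z)) (n 0 (n 0 (n 8728899 z (n 8728899 z z)) (n 0 (n 8728899 z (n 8728899 z z)) z)) (n 0
 (n 0 z (n 0 z z)) (n 0 (n 0 z (n 0 z z)) (n 0 (n 0 z (n 0 z z)) z))))))))) (n 105 (n 0 (n 0 z
 (n 0 z z)) (n 0 (n 0 z (n 0 z z)) (n 0 (n 0 z (n 0 z z)) (n 0 (n 0 z (n 0 z z)) (n 0 (n 0 z (n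
 0 z z)) (n 0 (n 0 z (n 0 z z)) (n 0 (n 0 z (n 0 z z)) (n 0 (n 0 z (n 0 z z)) (n 0 (n 0 z (n 0 z
 z)) (n 0 (n 0 z (n 0 z z)) (n 0 (n 0 z (n 0 z z)) (n 0 (n 0 z (n 0 (n 8848939 z z) z)) (n 0 (n
 0 (n 8867891 z z) (n 0 z z)) (n 0 (n 0 z (n 0 z z)) z)))))))))))))) (n 99 (n 0 (n 0 z (n 0 z
 z)) (n 0 (n 0 z (n 0 z z)) (n 0 (n 0 z (n 0 z z)) (n 0 (n 0 z (n 0 z z)) (n 0 (n 0 z (n 0 z z))
 (n 0 (n 0 (n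
 0x2c87685f82472076381f8b1660b634609a291f71a89a8986ea7238a485b7218a59978de82076085f0041 z z) (n
 0 (n
 0x587604390ec01ee1d803d43b001187600110ec0009d88002990007b320007264001ce040014b08000121080186080f7199ab71b8697a389780d7d16aa8498936d17b684e83b8038c06b996a8137bb7ee8429f07ef7ef72f8f07da8168b07c68668497ac7da77a7bd7e77a68007fb7fd8e783c71186b0351
 z z) z)) (n 0 (n 0 z (n 0 z z)) (n 0 (n 0 z (n 0 z z)) (n 0 (n 0 z (n 0 z z)) (n 0 (n 0 z (n 0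
 z z)) (n 0 (n 0 z (n 0 z z)) z))))))))))) (n 29 (n 0 (n 0 z (n 0 z z)) (n 0 (n 0 z (n 0 z z))
 (n 0 (n 0 z (n 0 (n
 0xb0ec06d21d8031c3b005a87600130ec00021d80013b1000532000b664000a4c8002dc08002161080184d80c7489567488547b687980a7db6ee83b87570e7c583e83080289a6fa92280f7c87f183498d7f37f27598c07e281288e7d185183a7bc7e27947ca7ec7b77ff7fc7fe8b98307418560311
 z z) z)) (n 0 (n 0 (n
 0x10ed0e820381f7e085f7e182082181f86186181f82181f8218208208208607e18208218608208208208200801 z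
 z) (n 0 z z)) (n 0 (n 0 z (n 0 z z)) (n 0 (n 0 z (n 0 z z)) (n 0 (n 0 z (n 0 z z)) (n 0 (n 0 (n
 8728899 z z) (n 0 z z)) (n 0 (n 0 z (n 0 z z)) (n 0 (n 0 (n 8728899 z (n 8728899 z z)) (n 0 z
 z)) (n 0 (n 0 (n
 0x2487086181fa9a7e06e37dc86471d8e182372c7df75fb9f81f9de81f7a27e07dd7a18a489f9256a20041 z z) (n
 0 z z)) (n 0 (n 0 (n
 0xe487000670e000ca1c0000c3800008700066a4000adc4000cb8800096108018278077a18af7a182b7da83f8057ec77081f83f77e7e382281980184d7788968087e37f881d8cb7f97fa7a98627f080884a7e882a81f7de7f17c97e47f67da8007fd7ff86081979d82d0251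
 z z) (n 0 z z)) z)))))))))))) (n 28 (n 0 (n 0 z (n 0 z z)) (n 0 (n 0 z (n 0 z z)) (n 0 (n 0 z
 (n 0 z z)) (n 0 (n 0 z (n 0 z z)) (n 0 (n 0 z (n 0 z z)) (n 0 (n 0 z (n 0 z z)) (n 0 (n 0 z (n
 0 z z)) (n 0 (n 0 (n 8867891 z (n 8867891 z z)) (n 0 (n 8848939 z (n 8848939 z z)) z)) (n 0 (n
 0 z (n 0 z z)) (n 0 (n 0 z (n 0 z z)) (n 0 (n 0 z (n 0 z z)) (n 0 (n 0 (n 8728691 z (n 8795915
 z z)) (n 0 (n 8798835 z (n 7747611 z z)) z)) (n 0 (n 0 z (n 0 (n 8798835 z (n 8660843 z z)) z))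
 (n 0 (n 0 z (n 0 (n 8798835 z (n 8660843 z z)) z)) (n 0 (n 0 z (n 0 z z)) (n 0 (n 0 z (n 0 (n
 8798835 z (n 8848939 z z)) z)) (n 0 (n 0 z (n 0 z z)) (n 0 (n 0 (n
 0xc87682082082082081f82182082082085f8207e08208608208208208207e08608208208208218200041 z z) (n 0
 z z)) (n 0 (n 0 z (n 0 (n 8798835 z (n
 0x7486089c5aacdf65c4a997659f8a2321ae7cda5d68669ef7dba5e89c6e35ef92283689651f7e05a20041 z z))
 z)) (n 0 (n 0 (n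
 0x148708607e086082081f8208618607e08208607df8208208218208208217e08208208208218207e10041 z (n
 8795915 z z)) (n 0 (n
 0xc8728208208208208208218207e082082082081f81f8208218208207e07e082086181f8207e18200041 z (n
 0xb0e405b21c8029c39004a87200130e400021c80013b1004b520000a640012cc80014990001961080183e80a76a91276c8447c48638077e171f8328627347d083682980187672b8ed8107d27f282a93e7ee7f777d8967e780a8787de8418327c57ed7ad7d47ea7c48017ff7ff8918277648430311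
 z z)) z)) (n 0 (n 0 z (n 0 z z)) (n 0 (n 0 (n 8728691 z (n 8718139 z z)) (n 0 z z)) (n 0 (n 0 z
 (n 0 z z)) (n 0 (n 0 z (n 0 z z)) (n 0 (n 0 z (n 0 z z)) (n 0 (n 0 (n 8728691 z (n 8718139 z
 z)) (n 0 z z)) (n 0 (n 0 z (n 0 z z)) (n 0 (n 0 z (n 0 z z)) (n 0 (n 0 z (n 0 z z)) (n 0 (n 0
 (n 6490187 z z) (n 0 z z)) (n 0 (n 0 (n
 0x2486085f7e08607e181f8208a18608208208607df82085f8628208208207e08208618208217e17e10041 z (n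
 8795915 z z)) (n 0 (n 8864355 z (n 8864355 z z)) z)) (n 0 (n 0 z (n 0 (n 8798835 z (n
 0x7486089c5aacdf65c4a997659f8a2321ae7cda5d68669ef7dba5e89c6e35ef92283689651f7e05a20041 z z))
 z)) (n 0 (n 0 z (n 0 z z)) (n 0 (n 0 z (n 0 z z)) (n 0 (n 0 z (n 0 z z)) (n 0 (n 0 z (n 0 (n
 8655371 z z) z)) (n 0 (n 0 z (n 0 z z)) (n 0 (n 0 z (n 0 z z)) (n 0 (n 0 z (n 0 z z)) (n 0 (n 0
 (n 8799003 z (n 8799003 z z)) (n 0 (n 8864355 z (n 8864355 z z)) z)) (n 0 (n 0 z (n 0 z z)) (n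
 0 (n 0 z (n 0 (n 8798835 z (n 8655371 z z)) z)) (n 0 (n 0 (n 8718139 z z) (n 0 z z)) (n 0 (n 0
 (n 8728691 z (n 8655371 z z)) (n 0 z z)) (n 0 (n 0 (n
 0xc87682082082082081f82182082082085f8207e08208608208208208207e08608208208208218200041 z (n
 0x2c87685f82472076381f8b1660b634609a291f71a89a8986ea7238a485b7218a59978de82076085f0041 z z)) (n
 0 (n
 0x9d880924188043831007506200060c4000418803b520000b02000ee040010c0800116108018328087888db78a8377d08508057e774c82884f75c7d982b82180085e7548be80e7db7f58218fe7f27f97978787ec8078607e58348287cf7f27be7dd7ee7d08017ff7ff87381f78483502d1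
 z (n
 0x4ec400160c40b64188053831009506200260c4000418804b520000b020012e040014c08001161080183e80a76a91276c8447c48638077e17208318627357cf83582a80187672b8ed8107d27f282a93e7ee7f777d8967e780a8777de8418317c47ec7ad7d47e97c58018007ff8918277658430311
 z z)) z)) (n 0 (n 0 z (n 0 (n 8798835 z (n
 0x7481089c5aacdf65c4a997659f8a2321ae7cda5d68669ef7dba5e89c6e35ef92283689651f7e05a20041 z z))
 z)) (n 0 (n 0 (n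
 0xc87682082082082081f82182082082085f8207e08208608208208208207e08608208208208218200041 z (n
 8795915 z z)) (n 0 (n
 0x1c87681f8218207e182082182182086081f86181f8208a082182081f8207e08218607e08217e27e00041 z (n
 0x587602c90ec014e1d802543b000987600010ec0009d88025a900005320009664000a4c80001308001161080183e80a76b91376c8447c58628087e27218308617367d183582780287872c8ea80e7d37f482d93e7f67f77788997e780d8727db8428307c97e87aa7d47f17c58007fc7ff8948297668450351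
 z z)) z)) z))))))))))))))))))))))))))))))))))))))))))))))) (n 153 (n 0 (n 0 z (n 0 z z)) (n 0
 (n 0 z (n 0 z z)) z)) (n 33 (n 0 (n 0 z (n 0 z z)) (n 0 (n 0 z (n 0 z z)) (n 0 (n 0 z (n 0 z
 z)) (n 0 (n 0 z (n 0 z z)) (n 0 (n 0 z (n 0 z z)) (n 0 (n 0 z (n 0 z z)) (n 0 (n 0 (n 8790275 z
 (n 8790275 z z)) (n 0 z z)) z))))))) (n 11 (n 0 (n 0 z (n 0 z z)) (n 0 (n 0 z (n 0 (n 3213435 z
 z) z)) (n 0 (n 0 z (n 0 z z)) (n 0 (n 0 z (n 0 z z)) (n 0 (n 0 (n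
 0xc87581f8208207e18208218208208208207e18208208608218208208208208608617e08208228200041 z z) (n 0
 z z)) (n 0 (n 0 z (n 0 (n 8790275 z z) z)) (n 0 (n 0 z (n 0 z z)) (n 0 (n 0 z (n 0 z z)) (n 0
 (n 0 z (n 0 z z)) (n 0 (n 0 z (n 0 z z)) (n 0 (n 0 z (n 0 z z)) z))))))))))) (n 27 (n 0 (n 0 z
 (n 0 z z)) (n 0 (n 0 z (n 0 z z)) (n 0 (n 0 z (n 0 z z)) (n 0 (n 0 z (n 0 z z)) (n 0 (n 0 z (n
 0 z z)) (n 0 (n 0 z (n 0 z z)) (n 0 (n 0 z (n 0 z z)) (n 0 (n 0 z (n 0 z z)) (n 0 (n 0 z (n 0 z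
 z)) (n 0 (n 0 z (n 0 z z)) (n 0 (n 0 z (n 0 z z)) (n 0 (n 0 (n 2164795 z z) (n 0 (n 2164795 z
 z) z)) (n 0 (n 0 z (n 0 z z)) (n 0 (n 0 z (n 0 z z)) (n 0 (n 0 z (n 0 z z)) (n 0 (n 0 z (n 0 z
 z)) (n 0 (n 0 z (n 0 z z)) (n 0 (n 0 z (n 0 z z)) z)))))))))))))))))) (n 1 (n 0 (n 0 z (n 0 z
 z)) (n 0 (n 0 z (n 0 z z)) (n 0 (n 0 z (n 0 z z)) (n 0 (n 0 z (n 0 z z)) (n 0 (n 0 z (n 0 z z))
 (n 0 (n 0 (n 8655371 z z) (n 0 z z)) (n 0 (n 0 z (n 0 z z)) (n 0 (n 0 z (n 0 z z)) z)))))))) (n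
 0 (n 0 (n 0 z (n 0 z z)) (n 0 (n 0 z (n 0 z z)) (n 0 (n 0 z (n 0 z z)) (n 0 (n 0 (n 8867891 z
 z) (n 0 z z)) (n 0 (n 0 z (n 0 z z)) (n 0 (n 0 z (n 0 z z)) (n 0 (n 0 z (n 0 (n 8795979 z z)
 z)) z))))))) z))))))))))))))))))))) z)))) z) z)))) (n
 0xb6cd4588ba2b7150944ea0dc52a0ca6d08d3558892ad84533022ab700 (n 0 (n 153 (n 0 z (n 0 z (n 0 z (n
 2 z (n 0 z (n 0 z (n 3282443 z z))))))) (n 57 (n 10 z (n 18 z (n 0 z (n 0 z (n 0 z (n 6496515 z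
 (n
 0xca8ca84038008007ff8008008008008008008008018027ff8008008018007ff8018008007ff7ff8008007ff8008008028008008018008008008008008008008018018008008007fd8007ff8008008000811
 z (n 6496515 z z)))))))) (n 51 (n 0 z (n 0 z (n 0 z (n 26 z (n 6496515 z (n 0 z (n 0 z (n 0 z
 z)))))))) (n 3 (n 0 z (n 0 z (n 0 z (n 0 z (n 0 z (n 0 z (n 0 z (n 34 z (n 0 z (n 6496515 z (n
 0 z (n 0 z (n 6496515 z (n 0 z (n 42 z (n 0 z (n 0 z (n 0 z z)))))))))))))))))) (n 1 (n 0 z (n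
 50 z (n 0 z (n 0 z (n 0 z (n 6562059 z z)))))) (n 0 (n 58 z (n 0 z (n 0 z (n 0 z (n 66 z (n 0 z
 (n 74 z (n 2164315 z (n 82 z (n 0 z (n
 0x8ca88624038008057ff7f68017fe7ff7f87fe8067f980d7ff8138017f47f981a7f08058107fb7fe7eb7fc8058027f880780b7de8028028047fc8037fd7fb81080e7ec8047fe80b8037fb7fe80f7fd7fb0811
 z (n 0 z z)))))))))))) z)))))) (n 1 (n 0 (n 223 (n 0 z (n 0 z (n 0 z (n 2 (n 0 z (n 2 (n 0 z (n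
 0 z (n 0 z (n 0 z (n 0 z (n 0 z z)))))) (n 2 (n 0 z (n 0 z (n 0 z (n 0 z (n 0 z (n 0 (n 2140 z
 z) z)))))) (n 2 (n 0 z (n 0 z (n 0 z (n 0 z (n 0 z (n 0 z z)))))) (n 2 (n 0 z (n 0 z (n 0 z (n
 0 z (n 0 z (n 0 (n 8782635 z z) z)))))) (n 1 z (n 2 (n 0 z (n 0 z (n 0 z (n 0 z (n 0 z (n 0 z
 z)))))) (n 2 (n 0 z (n 0 z (n 0 z (n 0 z (n 0 z (n 0 z z)))))) (n 2 (n 0 z (n 0 z (n 0 z (n 0
 (n 8802883 z z) (n 0 (n 8802883 z z) (n 0 (n 8802883 z (n 8802883 z z)) z)))))) z))))))))) (n 0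
 z (n 0 z (n 0 z (n 0 z (n 0 z (n 0 z (n 0 z (n 0 z (n 0 z (n 0 z (n 0 z (n 0 z (n 0 z
 z))))))))))))))))) (n 223 (n 0 z (n 0 z (n 0 z (n 0 z (n 0 z (n 0 z (n 0 z (n 0 z (n 0 z (n 0 z
 (n 0 z (n 0 z (n 0 z (n 0 z (n 0 z (n 0 z (n 0 z z))))))))))))))))) (n 795 (n 0 z (n 0 z (n 0 z
 (n 0 z (n 0 z (n 0 z (n 0 z (n 0 z z)))))))) (n 535 (n 0 z (n 0 z z)) (n 535 (n 0 z (n 0 z z))
 (n 303 (n 0 z (n 0 z (n 0 z (n 0 z (n 0 z z))))) (n 301 (n 2 (n 0 z (n 0 z (n 0 z z))) (n 0 z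
 (n 0 z (n 0 z (n 0 z (n 0 z (n 0 z (n 0 z (n 0 z z))))))))) (n 301 (n 0 z (n 0 z (n 0 z (n 0 z
 (n 0 z (n 0 z (n 0 z (n 0 z (n 0 z z))))))))) (n 301 (n 0 z (n 0 z (n 0 z (n 0 z (n 7754307 z
 (n 0 z (n 0 z (n 0 z (n 0 z z))))))))) (n 301 (n 0 z (n 0 z (n 0 z (n 0 z (n 0 z (n 0 z (n 0 z
 (n 0 z (n 0 z z))))))))) z)))))))))) (n 0 (n 0 z (n 775 (n 0 z (n 0 z (n 0 z (n 2 (n 1 z (n 1 z
 (n 1 z (n 1 z (n 2 (n 0 z (n 0 z (n 0 z (n 0 z (n 0 z (n 0 z z)))))) (n 2 (n 0 z (n 0 z (n 0 z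
 (n 0 z (n 0 z (n 0 (n 8868419 z z) z)))))) (n 2 (n 0 z (n 0 z (n 0 z (n 0 z (n 0 z (n 0 z
 z)))))) z))))))) (n 0 z (n 0 z (n 0 z (n 0 z (n 0 z (n 0 z (n 0 z (n 0 z (n 0 z (n 0 z
 z)))))))))))))) (n 59 (n 0 z (n 0 z (n 0 z (n 0 z (n 0 z (n 0 z z)))))) (n 59 (n 0 z (n 0 z (n
 0 z (n 0 z (n 0 z (n 0 z z)))))) (n 723 (n 0 z (n 0 z (n 2 (n 1 z (n 2 (n 0 z (n 0 z (n 0 z (n
 0 z (n 0 z (n 0 (n 8848171 z z) z)))))) (n 2 (n 0 z (n 0 z (n 0 z (n 0 z (n 0 z (n 0 (n 8718187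
 z z) z)))))) (n 2 (n 0 z (n 0 (n 8867939 z z) (n 0 z (n 0 (n 8848171 z z) (n 0 z (n 0 (n
 8802419 z (n 8861195 z z)) z)))))) z)))) (n 0 z (n 0 z (n 0 z (n 0 z (n 0 z (n 0 z (n 0 z (n 0
 z (n 0 z (n 0 z (n 0 z (n 0 z (n 0 z z)))))))))))))))) (n 773 (n 0 z (n 0 z (n 0 z (n 0 z (n 0
 z (n 0 z (n 0 z (n 0 z z)))))))) (n 773 (n 0 z (n 0 z (n 0 z (n 2 (n 0 z (n 0 z z)) (n 0 z (n 0
 z (n 0 z (n 0 z z)))))))) (n 773 (n 0 z (n 2 (n 0 z z) (n 0 z (n 0 z (n 0 z (n 0 z (n 0 z (n 0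
 z z)))))))) (n 773 (n 0 z (n 0 z (n 0 z (n 0 z (n 0 z (n 0 z (n 0 z (n 0 z z)))))))) z)))))))))
 (n 0 (n 103 (n 0 z (n 0 z (n 0 z (n 0 z (n 0 z (n 0 z (n 0 z (n 0 z (n 0 z (n 0 z (n 0 z (n 0 z
 (n 0 z (n 0 z z)))))))))))))) (n 59 (n 0 z (n 0 z (n 0 z (n 0 z (n 0 z (n 0 z (n 0 z (n 0 z (n
 0 z (n 0 z (n 0 z z))))))))))) (n 59 (n 0 z (n 0 z (n 0 z (n 0 z (n 0 z (n 0 z (n 0 z (n 0 z (n
 0 z (n 0 z (n 0 z z))))))))))) (n 111 (n 0 z (n 0 z (n 0 z (n 0 z (n 0 z (n 0 z (n 0 z (n 0 z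
 (n 0 z z))))))))) (n 109 (n 2 (n 0 z (n 0 z (n 0 z z))) (n 0 z (n 0 z (n 0 z (n 0 z (n 0 z (n 0
 z (n 0 z (n 0 z (n 0 z (n 0 z z))))))))))) (n 109 (n 0 z (n 0 z (n 0 z (n 0 z (n 0 z (n 0 z (n
 0 z (n 0 z (n 0 z (n 0 z (n 0 z z))))))))))) (n 109 (n 0 z (n 0 z (n 0 z (n 0 z (n 0 z (n 0 z
 (n 0 z (n 0 z (n 7754307 z (n 0 z (n 0 z z))))))))))) (n 109 (n 0 z (n 0 z (n 0 z (n 0 z (n 0 z
 (n 0 z (n 0 z (n 0 z (n 0 z (n 0 z (n 0 z z))))))))))) z)))))))) (n 0 (n 7 (n 0 z (n 0 z (n 0 z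
 (n 0 z (n 0 z (n 0 z (n 0 z z))))))) (n 7 (n 0 z (n 0 z (n 0 z (n 0 z (n 0 z (n 0 z (n 0 z
 z))))))) (n 99 (n 0 z (n 0 z (n 0 z (n 0 z (n 0 z (n 0 z (n 0 z (n 0 z (n 0 z (n 0 z (n 0 z (n
 0 z (n 0 z z))))))))))))) (n 97 (n 0 z (n 0 z (n 0 z (n 2 (n 0 z (n 0 z (n 0 z z))) (n 0 z (n 0
 z (n 0 z (n 0 z (n 0 z (n 0 z (n 0 z (n 0 z (n 0 z (n 0 z z)))))))))))))) (n 97 (n 0 z (n 0 z
 (n 0 z (n 0 z (n 0 z (n 0 z (n 0 z (n 0 z (n 0 z (n 0 z (n 0 z (n 0 z (n 0 z (n 0 z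
 z)))))))))))))) (n 97 (n 0 z (n 0 z (n 0 z (n 0 z (n 0 z (n 0 z (n 0 z (n 0 z (n 0 z (n 0 z (n
 7754307 z (n 0 z (n 0 z (n 0 z z)))))))))))))) (n 97 (n 0 z (n 0 z (n 0 z (n 0 z (n 0 z (n 0 z
 (n 0 z (n 0 z (n 0 z (n 0 z (n 0 z (n 0 z (n 0 z (n 0 z z)))))))))))))) z))))))) (n 0 (n 0 z (n
 3 (n 0 z (n 0 z (n 0 z (n 0 z (n 0 z (n 0 z (n 0 z (n 0 z z)))))))) (n 1 (n 0 z (n 0 z (n 0 z
 (n 0 z (n 0 z (n 0 z (n 0 z (n 0 z z)))))))) (n 1 (n 0 z (n 0 z (n 0 z (n 0 z (n 0 z (n 0 z (n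
 0 z (n 0 z z)))))))) (n 1 (n 0 z (n 0 z (n 0 z (n 0 z (n 0 z (n 0 z (n 0 z (n 0 z z)))))))) (n
 1 (n 0 z (n 0 z (n 0 z (n 0 z (n 0 z (n 0 z (n 0 z (n 0 z z)))))))) z)))))) (n 0 (n 243 (n 0 z
 (n 0 z (n 0 z (n 0 z (n 0 z (n 0 z z)))))) (n 241 (n 0 z (n 0 z (n 0 z (n 0 z (n 0 z (n 0 z (n
 0 z (n 0 z (n 0 z (n 0 z (n 0 z (n 0 z z)))))))))))) (n 241 (n 0 z (n 0 z (n 0 z (n 0 z (n 0 z
 (n 0 z (n 0 z (n 0 z (n 0 z (n 0 z (n 0 z (n 0 z z)))))))))))) (n 241 (n 0 z (n 0 z (n 0 z (n 0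
 z (n 0 z (n 0 z (n 0 z (n 0 z (n 0 z (n 0 z (n 0 z (n 0 z z)))))))))))) (n 241 (n 0 z (n 0 z (n
 0 z (n 0 z (n 0 z (n 0 z (n 0 z (n 2 z (n 0 z (n 0 z (n 0 z (n 0 z z)))))))))))) z))))) (n 0 (n
 1 (n 0 z (n 0 z (n 0 z (n 0 z (n 0 z (n 0 z (n 0 z (n 0 z (n 0 z (n 0 z (n 0 z (n 0 z (n 0 z (n
 0 z (n 0 z (n 0 z (n 0 z (n 0 z (n 0 z (n 0 z (n 0 z (n 0 z (n 0 z (n 0 z (n 0 z (n 0 z (n 2 (n
 0 z (n 0 z (n 0 z z))) (n 0 z (n 0 z (n 0 z (n 0 z (n 0 z (n 0 z (n 0 z (n 0 z (n 0 z (n 0 z (n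
 0x631d80075bb0001a76080c7e28008137e18097ed7ff7cf8278247de80c7cc8927e08047727e88cc85c81580a7dc85b7817f38567cf81a8887507ea8267d78987af81385e7be7c97fb7cd8287f97eb7ee76f80480900d1
 z (n 0 z (n 0 z (n 0 z (n 0 z (n 0 z (n 0 z (n 0 z (n 0 z (n 0 z
 z))))))))))))))))))))))))))))))))))))))))))))))) (n 1 (n 0 z (n 0 z (n 0 z (n 0 z (n 0 z (n 0 z
 (n 0 z (n 0 z (n 0 z (n 0 z (n 0 z (n 0 z (n 0 z (n 0 z (n 0 z (n 0 z (n 0 z (n 0 z (n 0 z (n 0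
 z (n 0 z (n 0 z (n 0 z (n 0 z (n 0 z (n 0 z (n 0 z (n 0 z (n 0 z (n 0 z (n 0 z (n 0 z (n 0 z (n
 0 z (n 0 z (n 0 z (n 0 z (n 0 z (n 0 z (n 0 z (n 0 z (n 0 z (n 0 z (n 0 z (n 0 z (n 0 z (n 0 z
 z))))))))))))))))))))))))))))))))))))))))))))))) (n 1 (n 0 z (n 0 z (n 0 z (n 0 z (n 0 z (n 0 z
 (n 0 z (n 0 z (n 0 z (n 0 z (n 0 z (n 0 z (n 0 z (n 0 z (n 0 z (n 0 z (n 0 z (n 0 z (n 0 z (n 0
 z (n 0 z (n 0 z (n 0 z (n 0 z (n 0 z (n 0 z (n 0 z (n 0 z (n 0 z (n 0 z (n 0 z (n 0 z (n 2 (n 0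
 z z) (n 0 z (n 0 z (n 0 z (n 0 z (n 0 z (n 0 z (n 0 z (n 0 z (n 0 z (n
 0x7b1d80095bb0002a7608107da8008177da80b7e87fe7c483082d7d480f7bf8b77d880574f7e28fe87381b80c7d38727617ef86c7c38218aa7257e482f7cd8be79c8188757ad7bb7fa7c08317f77e57e974880580b00d1
 z (n 0 z (n 0 z (n 0 z (n 0 z z))))))))))))))))))))))))))))))))))))))))))))))) (n 1 (n 0 z (n 0
 z (n 0 z (n 0 z (n 0 z (n 0 z (n 0 z (n 0 z (n 0 z (n 0 z (n 0 z (n 0 z (n 0 z (n 0 z (n 0 z (n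
 0 z (n 0 z (n 0 z (n 0 z (n 0 z (n 0 z (n 0 z (n 0 z (n 0 z (n 0 z (n 0 z (n 0 z (n 0 z (n 0 z
 (n 0 z (n 0 z (n 0 z (n 0 z (n 0 z (n 0 z (n 0 z (n 0 z (n 0 z (n 0 z (n 0 z (n 0 z (n 0 z (n 0
 z (n 0 z (n 0 z (n 0 z (n 0 z z))))))))))))))))))))))))))))))))))))))))))))))) z)))) (n 0 (n 0
 z (n 0 z (n 0 z z))) (n 0 (n 0 z (n 0 z z)) (n 0 (n 0 z z) (n 0 z z))))))))))) (n 0 (n 0 z (n 1
 (n 1228 z (n 6423883 z (n 1228 z (n 1228 z (n 28 z (n 1228 z z)))))) (n 0 z (n 0 z (n 0 z (n 1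
 (n 6562059 z (n 6562059 z (n 6562059 z (n 6562059 z (n 6562059 z (n 6562059 z z)))))) z))))))
 (n 0 z z)))) (n 0xa16a84dc56885a8c3714a8169b41c4ea81a4d3112aa108b4d846a8580d3700 (n 0xaa169a6e2
 (n 153 (n 0 z (n 2 z (n 6554395 z (n 3282443 z (n 10 z z))))) (n 59 (n 0 z (n 18 z (n 0 z (n 26
 z (n 0 z (n 6496515 z (n 0 z z))))))) (n 53 (n 34 z (n 42 z (n 6496515 z (n 6496515 z (n
 0xca8ca82037e07e081f8218df76379d82385e69d92382082179f7e17e191f75f8607a37db89c85e8218a10801 z (n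
 0 z z)))))) (n 27 (n 0 z (n 0 z (n 0 z (n 0 z (n 0 z (n 0 z (n 0 z (n 50 z (n 0 z (n 6496515 z
 (n 0 z (n 0 z (n 0 z (n 0 z (n 58 z (n 0 z (n 0 z (n 0 z z)))))))))))))))))) (n 1 (n 66 z (n 0
 z (n 0 z (n 0 z (n 0 z (n 0 z (n 0 z (n 6554395 z (n 0 z (n 74 z (n 0 z (n 6558219 z
 z)))))))))))) (n 0 (n 82 z (n 90 z (n 0 z (n 0 z (n 6631747 z (n 6631747 z (n
 0x4c86c8640376075e7dd8618e17a275d86189e65b82b7666de7a085d86291b71e7e27247db91e96085f8630801 z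
 z))))))) z)))))) (n 153 (n 0 (n 0 z (n 163 (n 0 z (n 0 z (n 0 z (n 0 z (n 0 z (n 0 z z)))))) (n
 163 (n 0 z (n 0 z (n 0 z (n 0 z (n 0 z (n 2 (n 2 (n 0 z (n 0 z (n 0 z (n 0 z (n 0 z (n 0 z
 z)))))) (n 2 (n 0 z (n 0 z (n 0 z (n 0 z (n 0 z (n 0 z z)))))) (n 2 (n 0 z (n 0 z (n 0 z (n 0 z
 (n 0 z (n 0 z z)))))) (n 2 (n 0 z (n 0 z (n 0 z (n 0 z (n 0 z (n 0 z z)))))) (n 2 (n 0 z (n 0 z
 (n 0 z (n 0 z (n 0 z (n 0 z z)))))) (n 2 (n 0 z (n 0 z (n 0 z (n 0 z (n 0 z (n 0 z z)))))) (n 2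
 (n 0 z (n 0 z (n 0 z (n 0 z (n 0 z (n 0 z z)))))) (n 2 (n 0 z (n 0 z (n 0 z (n 0 z (n 0 z (n 0
 z z)))))) z)))))))) z)))))) (n 779 (n 0 z (n 0 z (n 0 z (n 0 z (n 0 z (n 0 z (n 0 z (n 0 z (n 0
 z (n 0 z (n 0 z (n 0 z (n 0 z (n 0 z (n 0 z (n 0 z (n 0 z z))))))))))))))))) (n 779 (n 0 z (n 0
 z (n 0 z (n 0 z (n 0 z (n 0 z (n 0 z (n 0 z (n 0 z (n 0 z (n 0 z (n 0 z (n 0 z (n 0 z (n 0 z (n
 0 z (n 0 z z))))))))))))))))) (n 535 (n 0 z (n 0 z (n 0 z (n 0 z (n 0 z (n 0 z (n 0 z (n 0 z (n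
 0 z z))))))))) (n 535 (n 0 z (n 0 z (n 0 z (n 0 z (n 0 z (n 0 z (n 0 z (n 0 z (n 2 (n 1 z (n 2
 (n 0 z (n 0 z (n 0 z (n 0 z (n 0 z (n 0 z z)))))) (n 2 (n 0 z (n 0 z (n 0 z (n 0 z (n 0 z (n 0
 z z)))))) (n 2 (n 0 z (n 0 z (n 0 z (n 0 z (n 0 z (n 0 z z)))))) z)))) z))))))))) (n 303 (n 0 z
 (n 0 z (n 0 z (n 0 z (n 0 z (n 0 z (n 0 z z))))))) (n 303 (n 0 z (n 0 z (n 0 z (n 0 z (n 0 z (n
 0 z (n 0 z z))))))) (n 301 (n 0 z (n 0 z (n 0 z (n 0 z (n 0 z (n 0 z (n 0 z (n 0 z (n 0 z (n 0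
 z (n 0 z (n 0 z z)))))))))))) (n 301 (n 0 z (n 0 z (n 0 z (n 0 z (n 0 z (n 0 z (n 0 z (n 0 z (n
 0 z (n 0 z (n 0 z (n 0 z z)))))))))))) z))))))))))) (n 0 (n 79 (n 2 (n 0 z (n 2 (n 0 z (n 0 z
 (n 0 z (n 0 z (n 0 z (n 0 z z)))))) (n 2 (n 0 z (n 0 z (n 0 z (n 0 z (n 0 z (n 0 z z)))))) (n 2
 (n 0 z (n 0 z (n 0 z (n 0 z (n 0 z (n 0 z z)))))) (n 2 (n 0 z (n 0 z (n 0 z (n 0 z (n 0 z (n 0
 z z)))))) (n 1 z (n 2 (n 0 z (n 0 z (n 0 z (n 0 z (n 0 z (n 0 z z)))))) (n 2 (n 0 z (n 0 z (n 0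
 z (n 0 z (n 0 z (n 0 z z)))))) (n 2 (n 0 z (n 0 z (n 0 z (n 0 z (n 0 z (n 0 z z))))))
 z))))))))) (n 0 z (n 0 z (n 0 z (n 0 z z))))) (n 79 (n 0 z (n 0 z (n 0 z (n 0 z (n 0 z z)))))
 (n 347 (n 0 z (n 0 z (n 0 z (n 0 z (n 0 z (n 0 z (n 0 z (n 0 z (n 0 z (n 0 z (n 0 z (n 0 z (n 0
 z z))))))))))))) (n 347 (n 0 z (n 0 z (n 0 z (n 0 z (n 0 z (n 0 z (n 0 z (n 0 z (n 0 z (n 0 z
 (n 0 z (n 0 z (n 0 z z))))))))))))) (n 487 (n 0 z (n 2 (n 0 z (n 2 (n 0 z (n 0 z (n 0 z (n 0 z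
 (n 0 z (n 0 z z)))))) (n 2 (n 0 z (n 0 z (n 0 z (n 0 z (n 0 z (n 0 z z)))))) (n 2 (n 0 z (n 0 z
 (n 0 z (n 0 z (n 0 z (n 0 z z)))))) (n 2 (n 0 z (n 0 z (n 0 z (n 0 z (n 0 z (n 0 z z))))))
 z))))) (n 0 z (n 0 z (n 0 z z))))) (n 487 (n 0 z (n 0 z (n 0 z (n 0 z (n 0 z z))))) (n 531 (n 0
 z (n 0 z (n 0 z (n 0 z z)))) (n 531 (n 0 z (n 0 z (n 0 z (n 0 z z)))) (n 529 (n 0 z (n 0 z (n 0
 z (n 0 z (n 0 z (n 0 z (n 0 z (n 0 z z)))))))) (n 529 (n 0 z (n 0 z (n 0 z (n 0 z (n 0 z (n 0 z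
 (n 0 z (n 0 z z)))))))) z)))))))))) (n 0 (n 0 z (n 107 (n 0 z (n 0 z (n 0 z (n 0 z (n 0 z (n 0
 z (n 0 z (n 0 z (n 0 z z))))))))) (n 107 (n 2 (n 1 z (n 2 (n 0 z (n 0 z (n 0 z (n 0 z (n 0 z (n
 0 (n 8864083 z z) z)))))) (n 1 z (n 2 (n 0 z (n 0 z (n 0 z (n 0 z (n 0 z (n 0 z z)))))) (n 1 z
 (n 2 (n 0 z (n 0 z (n 0 z (n 0 z (n 0 z (n 0 z z)))))) z)))))) (n 0 z (n 0 z (n 0 z (n 0 z (n 0
 z (n 0 z (n 0 z (n 0 z z))))))))) (n 55 (n 0 z (n 0 z (n 0 z (n 0 z (n 0 z (n 0 z (n 0 z (n 0 z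
 (n 0 z (n 0 z (n 0 z z))))))))))) (n 55 (n 0 z (n 0 z (n 0 z (n 0 z (n 0 z (n 0 z (n 2 (n 1 z
 (n 2 (n 0 z (n 0 z (n 0 z (n 0 z (n 0 z (n 0 z z)))))) (n 1 z (n 2 (n 0 z (n 0 z (n 0 z (n 0 z
 (n 0 z (n 0 (n 8851491 z z) z)))))) z)))) (n 0 z (n 0 z (n 0 z (n 0 z z))))))))))) (n 111 (n 0
 z (n 0 z (n 0 z (n 0 z (n 0 z (n 0 z (n 0 z (n 0 z (n 0 z (n 0 z (n 0 z z))))))))))) (n 111 (n
 0 z (n 0 z (n 2 (n 2 (n 0 z (n 0 z (n 0 z (n 0 z (n 0 z (n 0 z z)))))) (n 2 (n 0 z (n 0 z (n 0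
 z (n 0 z (n 0 z (n 0 z z)))))) z)) (n 0 z (n 0 z (n 0 z (n 0 z (n 0 z (n 0 z (n 0 z (n 0 z
 z))))))))))) (n 61 (n 0 z (n 0 z (n 0 z (n 0 z (n 0 z (n 0 z (n 0 z (n 0 z (n 0 z z))))))))) (n
 61 (n 2 z (n 0 z (n 0 z (n 0 z (n 0 z (n 0 z (n 0 z (n 0 z (n 0 z z))))))))) z))))))))) (n 0 (n
 107 (n 2 (n 0 z (n 2 (n 0 z (n 0 z (n 0 z (n 0 z (n 0 z (n 0 z z)))))) (n 2 (n 0 z (n 0 z (n 0
 z (n 0 z (n 0 z (n 0 z z)))))) (n 2 (n 0 z (n 0 z (n 0 z (n 0 z (n 0 z (n 0 z z)))))) (n 2 (n 0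
 z (n 0 z (n 0 z (n 0 z (n 0 z (n 0 z z)))))) (n 2 (n 0 z (n 0 z (n 0 z (n 0 z (n 0 z (n 0 z
 z)))))) (n 2 (n 0 z (n 0 z (n 0 z (n 0 z (n 0 z (n 0 z z)))))) z))))))) (n 0 z (n 0 z (n 0 z (n
 0 z (n 0 z (n 0 z (n 0 z z)))))))) (n 107 (n 0 z (n 0 z (n 0 z (n 0 z (n 0 z (n 0 z (n 0 z (n 0
 z z)))))))) (n 535 (n 0 z (n 0 z (n 2 (n 0 z (n 2 (n 0 z (n 0 z (n 0 z (n 0 z (n 0 z (n 0 z
 z)))))) (n 2 (n 0 z (n 0 z (n 0 z (n 0 z (n 0 z (n 0 z z)))))) (n 2 (n 0 z (n 0 z (n 0 z (n 0 z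
 (n 0 z (n 0 z z)))))) (n 2 (n 0 z (n 0 z (n 0 z (n 0 z (n 0 z (n 0 z z)))))) z))))) (n 0 z (n 0
 z (n 0 z (n 0 z z))))))) (n 535 (n 0 z (n 0 z (n 0 z (n 0 z (n 0 z (n 0 z (n 0 z z))))))) (n
 483 (n 0 z (n 0 z (n 0 z (n 2 (n 0 z (n 2 (n 0 z (n 0 z (n 0 z (n 0 z (n 0 z (n 0 z z)))))) (n
 2 (n 0 z (n 0 z (n 0 z (n 0 z (n 0 z (n 0 z z)))))) z))) (n 0 z (n 0 z (n 0 z (n 0 z (n 0 z (n
 0 z (n 0 z z))))))))))) (n 483 (n 0 z (n 0 z (n 0 z (n 0 z (n 0 z (n 0 z (n 0 z (n 0 z (n 0 z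
 (n 0 z (n 0 z z))))))))))) (n 481 (n 0 z (n 0 z (n 2 (n 0 z z) (n 0 z (n 0 z (n 0 z (n 0 z (n 0
 z (n 0 z (n 0 z (n 0 z (n 0 z (n 0 z (n 0 z (n 0 z (n 0 z z)))))))))))))))) (n 481 (n 0 z (n 0
 z (n 0 z (n 0 z (n 0 z (n 0 z (n 0 z (n 0 z (n 0 z (n 0 z (n 0 z (n 0 z (n 0 z (n 0 z (n 0 z (n
 0 z z)))))))))))))))) z)))))))) (n 0 (n 0 z (n 7 (n 0 z (n 0 z (n 0 z (n 0 z (n 0 z (n 0 z
 z)))))) (n 7 (n 0 z (n 0 z (n 0 z (n 2 (n 2 (n 0 z (n 0 z (n 0 z (n 0 z (n 0 z (n 0 z z))))))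
 (n 2 (n 0 z (n 0 z (n 0 z (n 0 z (n 0 z (n 0 z z)))))) (n 2 (n 0 z (n 0 z (n 0 z (n 0 z (n 0 z
 (n 0 z z)))))) (n 2 (n 0 z (n 0 z (n 0 z (n 0 z (n 0 z (n 0 z z)))))) z)))) (n 0 z (n 0 z
 z)))))) (n 99 (n 0 z (n 0 z (n 0 z (n 0 z (n 0 z (n 0 z (n 0 z (n 0 z (n 0 z (n 0 z (n 0 z (n 0
 z z)))))))))))) (n 99 (n 0 z (n 0 z (n 0 z (n 0 z (n 0 z (n 0 z (n 0 z (n 0 z (n 0 z (n 0 z (n
 0 z (n 0 z z)))))))))))) (n 97 (n 0 z (n 0 z (n 0 z (n 0 z (n 0 z (n 0 z (n 0 z (n 0 z (n 0 z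
 z))))))))) (n 97 (n 0 z (n 0 z (n 0 z (n 0 z (n 0 z (n 0 z (n 0 z (n 0 z (n 0 z z)))))))))
 z))))))) (n 0 (n 7 (n 0 z (n 0 z (n 2 (n 0 z (n 2 (n 0 z (n 0 z (n 0 z (n 0 z (n 0 z (n 0 (n
 8860971 z z) z)))))) (n 2 (n 0 z (n 0 z (n 0 z (n 0 z (n 0 z (n 0 z z)))))) (n 2 (n 0 z (n 0 z
 (n 0 z (n 0 z (n 0 z (n 0 (n 8872971 z z) z)))))) (n 2 (n 0 z (n 0 z (n 0 z (n 0 z (n 0 z (n 0
 z z)))))) z))))) (n 0 z (n 0 z (n 0 z (n 0 z (n 0 z (n 0 z (n 0 z (n 0 z z))))))))))) (n 7 (n 0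
 z (n 0 z (n 0 z (n 0 z (n 0 z (n 0 z (n 0 z (n 0 z (n 0 z (n 0 z (n 0 z z))))))))))) (n 15 (n 0
 z (n 0 z (n 0 z (n 0 z (n 0 z (n 0 z (n 0 z (n 0 z (n 0 z (n 0 z (n 0 z (n 0 z z)))))))))))) (n
 15 (n 0 z (n 0 z (n 0 z (n 0 z (n 0 z (n 0 z (n 0 z (n 0 z (n 0 z (n 0 z (n 0 z (n 0 z
 z)))))))))))) (n 13 (n 0 z (n 0 z (n 0 z (n 0 z (n 0 z (n 0 z (n 0 z (n 0 z (n 0 z z)))))))))
 (n 13 (n 0 z (n 0 z (n 0 z (n 0 z (n 0 z (n 0 z (n 0 z (n 0 z (n 0 z z))))))))) z)))))) (n 0 (n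
 0 z (n 51 (n 0 z (n 0 z (n 0 z (n 0 z (n 0 z (n 0 z (n 0 z (n 0 z z)))))))) (n 51 (n 0 z (n 0 z
 (n 0 z (n 2 (n 2 (n 0 z (n 0 z (n 0 z (n 0 z (n 0 z (n 0 z z)))))) (n 2 (n 0 z (n 0 z (n 0 z (n
 0 z (n 0 z (n 0 z z)))))) z)) (n 0 z (n 0 z (n 0 z (n 0 z z)))))))) (n 49 (n 0 z (n 0 z (n 0 z
 (n 0 z (n 0 z (n 0 z (n 0 z (n 0 z z)))))))) (n 49 (n 2 z (n 0 z (n 0 z (n 0 z (n 0 z (n 0 z (n
 0 z (n 0 z z)))))))) z))))) (n 0 (n 483 (n 2 (n 0 z (n 2 (n 0 z (n 0 z (n 0 z (n 0 z (n 0 z (n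
 0 z z)))))) (n 2 (n 0 z (n 0 z (n 0 z (n 0 z (n 0 z (n 0 z z)))))) z))) (n 0 z (n 0 z (n 0 z (n
 0 z (n 0 z z)))))) (n 483 (n 0 z (n 0 z (n 0 z (n 0 z (n 0 z (n 0 z z)))))) (n 481 (n 2 (n 0 z
 z) (n 0 z (n 0 z (n 0 z (n 0 z (n 0 z (n 0 z (n 0 z (n 0 z (n 0 z (n 0 z (n 0 z z))))))))))))
 (n 481 (n 0 z (n 0 z (n 0 z (n 0 z (n 0 z (n 0 z (n 0 z (n 0 z (n 0 z (n 0 z (n 0 z (n 0 z
 z)))))))))))) z)))) (n 0 (n 0 z (n 1 (n 0 z (n 0 z (n 0 z (n 0 z (n 0 z (n 0 z (n 0 z (n 0 z (n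
 0 z (n 0 z (n 0 z (n 0 z (n 0 z (n 0 z (n 0 z (n 0 z (n 0 z (n 0 z (n 0 z (n 0 z (n 0 z (n 0 z
 (n 0 z (n 0 z (n 0 z (n 0 z (n 0 z (n 0 z (n 0 z (n 0 z (n 0 z (n 0 z (n 0 z (n 0 z (n 0 z (n 0
 z (n 0 z (n 0 z (n 0 z (n 0 z (n 0 z (n 0 z (n 0 z (n 0 z (n 0 z (n 0 z (n 0 z
 z))))))))))))))))))))))))))))))))))))))))))))))) (n 1 (n 0 z (n 0 z (n 0 z (n 0 z (n 0 z (n 0 z
 (n 0 z (n 0 z (n 0 z (n 0 z (n 0 z (n 0 z (n 0 z (n 0 z (n 0 z (n 0 z (n 0 z (n 0 z (n 0 z (n 0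
 z (n 0 z (n 0 z (n 0 z (n 0 z (n 0 z (n 0 z (n 0 z (n 0 z (n 0 z (n 0 z (n 0 z (n 0 z (n 0 z (n
 0 z (n 0 z (n 0 z (n 0 z (n 0 z (n 0 z (n 0 z (n 0 z (n 0 z (n 0 z (n 0 z (n 0 z (n 0 z (n 0 z
 z))))))))))))))))))))))))))))))))))))))))))))))) z))) (n 0 (n 1 (n 0 z (n 0 z (n 0 z (n 0 z (n
 0 z (n 0 z (n 0 z (n 0 z (n 0 z (n 0 z (n 0 z (n 0 z (n 0 z (n 0 z (n 0 z (n 0 z (n 0 z (n 0 z
 (n 0 z (n 0 z (n 0 z (n 0 z (n 0 z (n 0 z (n 0 z (n 0 z (n 0 z (n 0 z (n 0 z (n 0 z (n 0 z (n 0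
 z (n 0 z (n 0 z (n 0 z (n 0 z (n 0 z (n 0 z (n 0 z (n 0 z (n 0 z (n 0 z (n 0 z (n 0 z (n 0 z (n
 0 z (n 0 z (n 0 z (n 0 z z))))))))))))))))))))))))))))))))))))))))))))))))) (n 1 (n 0 z (n 0 z
 (n 0 z (n 0 z (n 0 z (n 0 z (n 0 z (n 0 z (n 0 z (n 0 z (n 0 z (n 0 z (n 0 z (n 0 z (n 0 z (n 0
 z (n 0 z (n 0 z (n 0 z (n 0 z (n 0 z (n 0 z (n 0 z (n 0 z (n 0 z (n 0 z (n 0 z (n 0 z (n 0 z (n
 0 z (n 0 z (n 0 z (n 0 z (n 0 z (n 0 z (n 0 z (n 0 z (n 0 z (n 0 z (n 0 z (n 0 z (n 0 z (n 0 z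
 (n 0 z (n 0 z (n 0 z (n 0 z (n 0 z (n 0 z z)))))))))))))))))))))))))))))))))))))))))))))))))
 z)) (n 0 (n 0 z z) (n 0 z z)))))))))))) (n 0 (n 0 z (n 1 (n 6496515 z (n 2 z (n 5447779 z (n
 476 z (n 476 z (n 476 z z)))))) (n 1 (n 6496515 z (n 6554395 z (n 6554395 z (n 6554395 z (n
 6554395 z (n 6554395 z z)))))) (n 1 (n 6496515 z (n 3282443 z (n 3282443 z (n 3282443 z (n
 3282443 z (n 3282443 z z)))))) (n 1 (n 6496515 z (n 10 z (n 476 z (n 476 z (n 476 z (n 476 z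
 z)))))) z))))) (n 0 (n 0x1542d65502d3554211 (n 0 (n 0 (n 7754291 z (n 7754291 z (n 7754291 z (n
 7754291 z (n 7754291 z (n 7754291 z z)))))) (n 0 (n 5188 z (n 24900 z (n 7680611 z (n 6629147 z
 (n 5188 z (n 5188 z z)))))) z)) (n 0 (n 153 (n 0 z (n 1 (n 7754291 z (n 7754291 z (n 7754291 z
 (n 7754291 z (n 7754291 z (n 7754291 z z)))))) (n 1 (n 7602971 z (n 6629131 z (n 7680611 z (n
 7602971 z (n 7602971 z (n 7602971 z z)))))) (n 1 (n 6496627 z (n 3282699 z (n 7680611 z (n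
 3282699 z (n 3282699 z (n 3282699 z z)))))) (n 1 (n 652 z (n 3116 z (n 7680611 z (n 6629147 z
 (n 652 z (n 652 z z)))))) z))))) (n 201 (n 1 (n 7545091 z (n 476 z (n 476 z (n 7606795 z (n 476
 z (n 476 z z)))))) (n 1 (n 7545091 z (n 4400907 z (n 4400907 z (n 4400907 z (n 4400907 z (n
 4400907 z z)))))) (n 1 (n 7545091 z (n 476 z (n 476 z (n 476 z (n 476 z (n 476 z z)))))) (n 1
 (n 7545091 z (n 7680323 z (n 7680323 z (n 7680323 z (n 7680323 z (n 7680323 z z)))))) (n 0 z (n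
 1 (n 7545091 z (n 2 z (n 476 z (n 6621003 z (n 476 z (n 476 z z)))))) z)))))) (n 53 (n 1 (n
 7754291 z (n 7754291 z (n 7754291 z (n 7754291 z (n 7754291 z (n 7754291 z z)))))) (n 1 (n 3164
 z (n 3164 z (n 7680611 z (n 7677499 z (n 3164 z (n 3164 z z)))))) (n 1 (n 7545091 z (n 7545091
 z (n 7545091 z (n 7545091 z (n 7545091 z (n 7545091 z z)))))) (n 1 (n 7545091 z (n 7545091 z (n
 7545091 z (n 7545091 z (n 7545091 z (n 7545091 z z)))))) (n 1 (n 7677499 z (n 3164 z (n 7680611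
 z (n 476 z (n 3164 z (n 3164 z z)))))) (n 0 z z)))))) (n 9 (n 0 z (n 1 (n 7545091 z (n 7545091
 z (n 7545091 z (n 7545091 z (n 7545091 z (n 7545091 z z)))))) (n 1 (n 7545091 z (n 7545091 z (n
 7545091 z (n 7545091 z (n 7545091 z (n 7545091 z z)))))) (n 1 (n 10 z (n 6561907 z (n 4327275 z
 (n 6629195 z (n 7746859 z (n 2188 z z)))))) (n 1 (n 7545091 z (n 7545091 z (n 7545091 z (n
 7545091 z (n 7545091 z (n 7545091 z z)))))) (n 0 z z)))))) (n 153 (n 0 z (n 1 (n 7545091 z (n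
 7602971 z (n 7602971 z (n 7602971 z (n 7602971 z (n 7602971 z z)))))) (n 0 z (n 1 (n 7545091 z
 (n 3282699 z (n 3282699 z (n 3282699 z (n 3282699 z (n 3282699 z z)))))) (n 1 (n 7545091 z (n
 7602971 z (n 7602971 z (n 7606795 z (n 5443699 z (n 7602971 z z)))))) (n 1 (n 7545091 z (n
 7602971 z (n 7602971 z (n 7606795 z (n 7602971 z (n 7602971 z z)))))) (n 0 z z))))))) (n 0 (n 1
 (n 7754291 z (n 7754291 z (n 7754291 z (n 7754291 z (n 7754291 z (n 7754291 z z)))))) (n 1 (n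
 1244 z (n 1244 z (n 7680611 z (n 7677499 z (n 1244 z (n 1244 z z)))))) (n 0 z (n 0 z (n 1 (n
 7754291 z (n 7754291 z (n 7754291 z (n 7754291 z (n 7754291 z (n 7754291 z z)))))) (n 1 (n
 7680323 z (n 7680323 z (n 7680323 z (n 7680323 z (n 7680323 z (n 7680323 z z)))))) (n 1 (n 1244
 z (n 1244 z (n 7680611 z (n 7677499 z (n
 0x2c64ea28077a275f8df9a081d76b7e292089e61d7e67e181f86479f8e1a9d6a282172381c8637df85f8200801 z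
 (n 1244 z z)))))) z))))))) (n 153 (n 0 z (n 1 (n 7545091 z (n 7754291 z (n 7754291 z (n 7754291
 z (n 7754291 z (n 7754291 z z)))))) (n 1 (n 7545091 z (n 7602971 z (n 7602971 z (n 7602971 z (n
 7602971 z (n 7602971 z z)))))) (n 1 (n 7545091 z (n 3282699 z (n 3282699 z (n 3282699 z (n
 3282699 z (n 3282699 z z)))))) (n 1 (n 7545091 z (n 18 z (n 476 z (n 476 z (n 476 z (n 476 z
 z)))))) z))))) z))))))) (n 0 (n 0 (n 0 z (n 0 z (n 0 z z))) (n 0 (n 0 z (n 0 z z)) (n 0 (n 0 z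
 z) z))) (n 0 (n 201 (n 0 (n 0 z (n 0 z (n 0 z z))) (n 0 (n 0 z (n 0 z (n 0 z z))) (n 0 (n 0 z
 (n 0 z (n 0 z z))) (n 0 (n 0 z (n 0 z (n 0 z z))) (n 0 (n 0 z (n 0 z (n 0 z z))) (n 0 (n 0 z (n
 0 z (n 0 z z))) z)))))) (n 395 (n 0 (n 0 z (n 0 z (n 0 z z))) (n 0 (n 0 z (n 0 z (n 0 z z))) (n
 0 (n 0 z (n 0 z (n 0 z z))) (n 0 (n 0 z (n 0 z (n 0 z z))) (n 0 (n 0 z (n 0 z (n 0 z z))) (n 0
 (n 0 z (n 0 z (n 0 z z))) (n 0 (n 0 z (n 0 z (n 0 z z))) (n 0 (n 0 z (n 0 z (n 0 z z))) (n 0 (n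
 0 z (n 0 z (n 0 z z))) (n 0 (n 0 z (n 0 z (n 0 z z))) (n 0 (n 0 z (n 0 z (n 0 z z))) (n 0 (n 0
 z (n 0 z (n 0 z z))) (n 0 (n 0 z (n 0 z (n 0 z z))) (n 0 (n 0 z (n 0 z (n 0 z z))) (n 0 (n 0 z
 (n 0 z (n 0 z z))) (n 0 (n 0 z (n 0 z (n 0 z z))) (n 0 (n 0 z (n 0 z (n 0 z z)))
 z))))))))))))))))) (n 59 (n 0 (n 0 z (n 0 z (n 0 z z))) (n 0 (n 0 z (n 0 z (n 0 z z))) (n 0 (n
 0 z (n 0 z (n 0 z z))) (n 0 (n 0 z (n 0 z (n 0 z z))) (n 0 (n 0 z (n 0 z (n 0 z z))) (n 0 (n 0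
 z (n 0 (n 8728899 z (n 8728899 z z)) (n 0 z z))) (n 0 (n 0 z (n 0 z (n 0 z z))) (n 0 (n 0 z (n
 0 z (n 0 z z))) (n 0 (n 0 z (n 0 z (n 0 z z))) z))))))))) (n 273 (n 0 (n 0 z (n 0 z (n 0 z z)))
 (n 0 (n 0 z (n 0 z (n 0 z z))) (n 0 (n 0 z (n 0 z (n 0 z z))) (n 0 (n 0 z (n 0 z (n 0 z z))) (n
 0 (n 0 z (n 0 z (n 0 z z))) (n 0 (n 0 z (n 0 z (n 0 z z))) (n 0 (n 0 z (n 0 z (n 0 z z))) (n 0
 (n 0 z (n 0 z (n 0 z z))) (n 0 (n 0 z (n 0 z (n 0 z z))) z))))))))) (n 33 (n 0 (n 0 z (n 0 z (n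
 0 z z))) (n 0 (n 0 z (n 0 z (n 0 z z))) (n 0 (n 0 z (n 0 z (n 0 z z))) (n 0 (n 0 z (n 0 z (n 0
 z z))) (n 0 (n 0 z (n 0 z (n 0 z z))) (n 0 (n 0 z (n 0 z (n 0 z z))) (n 0 (n 0 z (n 0 z (n 0 z
 z))) (n 0 (n 0 z (n 0 z (n 0 z z))) (n 0 (n 0 z (n 0 z (n 0 z z))) (n 0 (n 0 z (n 0 z (n 0 z
 z))) (n 0 (n 0 z (n 0 z (n 0 z z))) z))))))))))) (n 9 (n 0 (n 0 z (n 0 z (n 0 z z))) (n 0 (n 0
 z (n 0 z (n 0 z z))) (n 0 (n 0 z (n 0 z (n 0 z z))) (n 0 (n 0 z (n 0 z (n 0 z z))) (n 0 (n 0 z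
 (n 0 z (n 0 z z))) (n 0 (n 0 z (n 0 z (n 0 z z))) z)))))) (n 153 (n 0 (n 0 z (n 0 z (n 0 z z)))
 (n 0 (n 0 z (n 0 z (n 0 z z))) (n 0 (n 0 z (n 0 z (n 0 z z))) (n 0 (n 0 z (n 0 z (n 0 z z))) (n
 0 (n 0 z (n 0 z (n 0 z z))) (n 0 (n 0 z (n 0 z (n 0 z z))) (n 0 (n 0 z (n 0 z (n 0 z z)))
 z))))))) (n 57 (n 0 (n 0 z (n 0 z (n 0 z z))) (n 0 (n 0 z (n 0 z (n 0 z z))) (n 0 (n 0 z (n 0 z
 (n 0 z z))) (n 0 (n 0 z (n 0 z (n 0 z z))) (n 0 (n 0 z (n 0 z (n 0 z z))) (n 0 (n 0 z (n 0 z (n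
 0 z z))) (n 0 (n 0 z (n 0 z (n 0 z z))) (n 0 (n 0 z (n 0 z (n 0 z z))) (n 0 (n 0 z (n 0 z (n 0
 z z))) (n 0 (n 0 z (n 0 z (n 0 z z))) (n 0 (n 0 z (n 0 z (n 0 z z))) z))))))))))) (n 51 (n 0 (n
 0 z (n 0 z (n 0 z z))) (n 0 (n 0 z (n 0 z (n 0 z z))) (n 0 (n 0 z (n 0 z (n 0 z z))) (n 0 (n 0
 z (n 0 (n 8729187 z z) (n 0 z z))) (n 0 (n 0 z (n 0 z (n 0 z z))) (n 0 (n 0 z (n 0 z (n 0 z
 z))) (n 0 (n 0 z (n 0 z (n 0 z z))) (n 0 (n 0 z (n 0 z (n 0 z z))) (n 0 (n 0 z (n 0 z (n 0 z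
 z))) (n 0 (n 0 z (n 0 (n 8593667 z z) (n 0 z z))) (n 0 (n 0 z (n 0 z (n 0 z z))) (n 0 (n 0 z (n
 0 z (n 0 z z))) z)))))))))))) (n 27 (n 0 (n 0 z (n 0 z (n 0 z z))) (n 0 (n 0 z (n 0 z (n 0 z
 z))) (n 0 (n 0 z (n 0 z (n 0 z z))) (n 0 (n 0 z (n 0 z (n 0 z z))) (n 0 (n 0 z (n 0 z (n 0 z
 z))) (n 0 (n 0 z (n 0 z (n 0 z z))) (n 0 (n 0 z (n 0 z (n 0 z z))) (n 0 (n 0 z (n 0 z (n 0 z
 z))) z)))))))) (n 155 (n 0 (n 0 z (n 0 z (n 0 z z))) (n 0 (n 0 z (n 0 z (n 0 z z))) (n 0 (n 0 z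
 (n 0 (n 8863843 z z) (n 0 z z))) (n 0 (n 0 z (n 0 z (n 0 z z))) (n 0 (n 0 z (n 0 z (n 0 z z)))
 (n 0 (n 0 z (n 0 z (n 0 z z))) (n 0 (n 0 z (n 0 (n 8802867 z z) (n 0 z z))) (n 0 (n 0 z (n 0 z
 (n 0 z z))) (n 0 (n 0 z (n 0 z (n 0 z z))) (n 0 (n 0 z (n 0 z (n 0 z z))) (n 0 (n 0 z (n 0 z (n
 0 z z))) (n 0 (n 0 z (n 0 z (n 0 z z))) z)))))))))))) (n 35 (n 0 (n 0 z (n 0 z (n 0 z z))) (n 0
 (n 0 z (n 0 z (n 0 z z))) (n 0 (n 0 z (n 0 z (n 0 z z))) (n 0 (n 0 z (n 0 z (n 0 z z))) (n 0 (n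
 0 z (n 0 z (n 0 z z))) (n 0 (n 0 z (n 0 z (n 0 z z))) (n 0 (n 0 z (n 0 z (n 0 z z))) (n 0 (n 0
 z (n 0 z (n 0 z z))) (n 0 (n 0 z (n 0 z (n 0 z z))) z))))))))) (n 53 (n 0 (n 0 z (n 0 z (n 0 z
 z))) (n 0 (n 0 z (n 0 z (n 0 z z))) (n 0 (n 0 z (n 0 z (n 0 z z))) (n 0 (n 0 z (n 0 z (n 0 z
 z))) (n 0 (n 0 z (n 0 z (n 0 z z))) (n 0 (n 0 z (n 0 z (n 0 z z))) (n 0 (n 0 z (n 0 z (n 0 z
 z))) (n 0 (n 0 z (n 0 z (n 0 z z))) (n 0 (n 0 z (n 0 z (n 0 z z))) z))))))))) (n 29 (n 0 (n 0 z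
 (n 0 z (n 0 z z))) (n 0 (n 0 z (n 0 z (n 0 z z))) (n 0 (n 0 z (n 0 z (n 0 z z))) (n 0 (n 0 z (n
 0 z (n 0 z z))) (n 0 (n 0 z (n 0 z (n 0 z z))) (n 0 (n 0 z (n 0 z (n 0 z z))) (n 0 (n 0 z (n 0
 z (n 0 z z))) (n 0 (n 0 z (n 0 z (n 0 z z))) z)))))))) (n 1 (n 0 (n 0 z (n 0 z (n 0 z z))) (n 0
 (n 0 z (n 0 z (n 0 z z))) (n 0 (n 0 z (n 0 (n 8802867 z z) (n 0 z z))) (n 0 (n 0 z (n 0 z (n 0
 z z))) (n 0 (n 0 z (n 0 z (n 0 z z))) (n 0 (n 0 z (n 0 (n 8863843 z z) (n 0 z z))) (n 0 (n 0 z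
 (n 0 z (n 0 z z))) (n 0 (n 0 z (n 0 z (n 0 z z))) (n 0 (n 0 z (n 0 z (n 0 z z))) (n 0 (n 0 z (n
 0 z (n 0 z z))) (n 0 (n 0 z (n 0 z (n 0 z z))) (n 0 (n 0 z (n 0 z (n 0 z z))) (n 0 (n 0 z (n 0
 z (n 0 z z))) (n 0 (n 0 z (n 0 (n 8729187 z (n 8729187 z z)) (n 0 z z))) (n 0 (n 0 z (n 0 z (n
 0 z z))) (n 0 (n 0 z (n 0 (n 8729187 z (n 8729187 z z)) (n 0 z z))) (n 0 (n 0 z (n 0 z (n 0 z
 z))) (n 0 (n 0 z (n 0 z (n 0 z z))) (n 0 (n 0 z (n 0 z (n 0 z z))) (n 0 (n 0 z (n 0 z (n 0 z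
 z))) (n 0 (n 0 z (n 0 z (n 0 z z))) (n 0 (n 0 z (n 0 z (n 0 z z))) (n 0 (n 0 z (n 0 z (n 0 z
 z))) (n 0 (n 0 z (n 0 z (n 0 z z))) (n 0 (n 0 z (n 0 z (n 0 z z))) (n 0 (n 0 z (n 0 z (n 0 z
 z))) (n 0 (n 0 z (n 0 z (n 0 z z))) (n 0 (n 0 z (n 0 z (n 0 z z))) (n 0 (n 0 z (n 0 z (n 0 z
 z))) (n 0 (n 0 z (n 0 z (n 0 z z))) (n 0 (n 0 z (n 0 (n 8798323 z (n 8791819 z z)) (n 0 z z)))
 (n 0 (n 0 z (n 0 (n 8802867 z (n 8802867 z z)) (n 0 z z))) (n 0 (n 0 z (n 0 z (n 0 z z))) (n 0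
 (n 0 z (n 0 z (n 0 z z))) (n 0 (n 0 z (n 0 z (n 0 z z))) (n 0 (n 0 z (n 0 (n
 0x2c8728207d87a096285e62475e65b9e152577662a5db89e7e07e0a6155e76066389f75b7a98218250041 z z) (n
 0 z z))) (n 0 (n 0 z (n 0 z (n 0 z z))) (n 0 (n 0 z (n 0 z (n 0 z z))) (n 0 (n 0 z (n 0 z (n 0
 z z))) (n 0 (n 0 z (n 0 z (n 0 z z))) (n 0 (n 0 z (n 0 z (n 0 z z))) (n 0 (n 0 z (n 0 (n
 8802867 z (n 8802867 z z)) (n 0 z z))) (n 0 (n 0 z (n 0 z (n 0 z z))) (n 0 (n 0 z (n 0 z (n 0 z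
 z))) (n 0 (n 0 z (n 0 z (n 0 z z))) (n 0 (n 0 z (n 0 z (n 0 z z))) (n 0 (n 0 z (n 0 z (n 0 z
 z))) z))))))))))))))))))))))))))))))))))))))))))))))) (n 153 (n 0 (n 0 z (n 0 z (n 0 z z))) (n
 0 (n 0 z (n 0 z (n 0 z z))) (n 0 (n 0 z (n 0 z (n 0 z z))) (n 0 (n 0 z (n 0 z (n 0 z z))) (n 0
 (n 0 z (n 0 z (n 0 z z))) z))))) (n 59 (n 0 (n 0 z (n 0 z (n 0 z z))) (n 0 (n 0 z (n 0 z (n 0 z
 z))) (n 0 (n 0 z (n 0 z (n 0 z z))) (n 0 (n 0 z (n 0 z (n 0 z z))) (n 0 (n 0 z (n 0 z (n 0 z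
 z))) (n 0 (n 0 z (n 0 z (n 0 z z))) (n 0 (n 0 z (n 0 z (n 0 z z))) z))))))) (n 53 (n 0 (n 0 z
 (n 0 z (n 0 z z))) (n 0 (n 0 z (n 0 z (n 0 z z))) (n 0 (n 0 z (n 0 z (n 0 z z))) (n 0 (n 0 z (n
 0 z (n 0 z z))) (n 0 (n 0 z (n 0 z (n 0 z z))) (n 0 (n 0 z (n 0 z (n 0 z z))) z)))))) (n 27 (n
 0 (n 0 z (n 0 z (n 0 z z))) (n 0 (n 0 z (n 0 z (n 0 z z))) (n 0 (n 0 z (n 0 z (n 0 z z))) (n 0
 (n 0 z (n 0 z (n 0 z z))) (n 0 (n 0 z (n 0 z (n 0 z z))) (n 0 (n 0 z (n 0 z (n 0 z z))) (n 0 (n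
 0 z (n 0 z (n 0 z z))) (n 0 (n 0 z (n 0 z (n 0 z z))) (n 0 (n 0 z (n 0 z (n 0 z z))) (n 0 (n 0
 z (n 0 z (n 0 z z))) (n 0 (n 0 z (n 0 z (n 0 z z))) (n 0 (n 0 z (n 0 z (n 0 z z))) (n 0 (n 0 z
 (n 0 z (n 0 z z))) (n 0 (n 0 z (n 0 z (n 0 z z))) (n 0 (n 0 z (n 0 z (n 0 z z))) (n 0 (n 0 z (n
 0 z (n 0 z z))) (n 0 (n 0 z (n 0 (n 8851491 z z) (n 0 z z))) (n 0 (n 0 z (n 0 (n 8851491 z z)
 (n 0 z z))) z)))))))))))))))))) (n 1 (n 0 (n 0 z (n 0 z (n 0 z z))) (n 0 (n 0 z (n 0 z (n 0 z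
 z))) (n 0 (n 0 z (n 0 z (n 0 z z))) (n 0 (n 0 z (n 0 z (n 0 z z))) (n 0 (n 0 z (n 0 z (n 0 z
 z))) (n 0 (n 0 z (n 0 z (n 0 z z))) (n 0 (n 0 z (n 0 z (n 0 z z))) (n 0 (n 0 z (n 0 z (n 0 z
 z))) (n 0 (n 0 z (n 0 z (n 0 z z))) (n 0 (n 0 z (n 0 z (n 0 z z))) (n 0 (n 0 z (n 0 z (n 0 z
 z))) (n 0 (n 0 z (n 0 z (n 0 z z))) z)))))))))))) (n 0 (n 0 (n 0 z (n 0 z (n 0 z z))) (n 0 (n 0
 z (n 0 z (n 0 z z))) (n 0 (n 0 z (n 0 z (n 0 z z))) (n 0 (n 0 z (n 0 z (n 0 z z))) (n 0 (n 0 z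
 (n 0 z (n 0 z z))) (n 0 (n 0 z (n 0 z (n 0 z z))) (n 0 (n 0 z (n 0 z (n 0 z z))) z)))))))
 z))))))))))))))))))))) z)))) (n 0xd37164d07134d3611 (n 0 (n 0 (n 7737379 z (n 7737379 z (n
 7737379 z (n 7737379 z (n 7737379 z (n 7737379 z z)))))) z) (n 0 (n 265 (n 1 (n 7737379 z (n
 7737379 z (n 7737379 z (n 7737379 z (n 7737379 z (n 7737379 z z)))))) (n 1 (n 7737379 z (n
 7737379 z (n 7737379 z (n 7737379 z (n 7737379 z (n 7737379 z z)))))) (n 1 (n 7749971 z (n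
 7749971 z (n 7749971 z (n 7749971 z (n 7680323 z (n 7749971 z z)))))) (n 1 (n 7749971 z (n
 7749971 z (n 7749971 z (n 7749971 z (n 7680323 z (n 7749971 z z)))))) z)))) (n 159 (n 1 (n
 7545091 z (n 2 z (n 5447795 z (n 476 z (n 476 z (n 476 z z)))))) (n 1 (n 7545091 z (n 7737379 z
 (n 7737379 z (n 7737379 z (n 7737379 z (n 7737379 z z)))))) (n 0 z (n 1 (n 7545091 z (n 7737379
 z (n 7737379 z (n 7737379 z (n 7737379 z (n 7737379 z z)))))) (n 1 (n 7545091 z (n 7737379 z (n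
 7737379 z (n 7737379 z (n 7737379 z (n 7737379 z z)))))) z))))) (n 53 (n 1 (n 1436 z (n 1436 z
 (n 1436 z (n 7677467 z (n 1436 z (n 1436 z z)))))) (n 1 (n 7749971 z (n 7749971 z (n 7749971 z
 (n 7749971 z (n 7749971 z (n 7749971 z z)))))) (n 1 (n 7545091 z (n 7545091 z (n 7545091 z (n
 7545091 z (n 7545091 z (n 7545091 z z)))))) (n 1 (n 7545091 z (n 7545091 z (n 7545091 z (n
 7545091 z (n 7545091 z (n 7545091 z z)))))) (n 1 (n 1436 z (n 1436 z (n 1436 z (n 7677467 z (n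
 0xea8ca82078217df7e08e291c6e181e7e086065c9267df7e076082082195e7617e07e371a81d82081e8630801 z (n
 1436 z z)))))) (n 0 z z)))))) (n 297 (n 0 z (n 1 (n 7545091 z (n 10 z (n 7606795 z (n 2332 z (n
 2332 z (n 2332 z z)))))) (n 1 (n 7545091 z (n 7680323 z (n 7680323 z (n 7680323 z (n 7680323 z
 (n 7680323 z z)))))) (n 1 (n 7545091 z (n 7737379 z (n 7737379 z (n 7737379 z (n 7737379 z (n
 7737379 z z)))))) (n 1 (n 7545091 z (n 7737379 z (n 7737379 z (n 7737379 z (n 7737379 z (n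
 7737379 z z)))))) z))))) (n 279 (n 1 (n 7545091 z (n 7737379 z (n 7737379 z (n 7737379 z (n
 7737379 z (n 7737379 z z)))))) (n 1 (n 7545091 z (n 7737379 z (n 7737379 z (n 7737379 z (n
 7737379 z (n 7737379 z z)))))) (n 1 (n 7545091 z (n 7749971 z (n 7749971 z (n 7749971 z (n
 7749971 z (n 7749971 z z)))))) (n 1 (n 7545091 z (n 7749971 z (n 7749971 z (n 7749971 z (n
 7749971 z (n 7749971 z z)))))) z)))) (n 0 (n 1 (n 2284 z (n 2284 z (n 2284 z (n 7677467 z (n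
 2284 z (n 2284 z z)))))) (n 1 (n 7737379 z (n 7737379 z (n 7737379 z (n 7737379 z (n 7737379 z
 (n 7737379 z z)))))) (n 0 z (n 0 z (n 1 (n 7680323 z (n 7680323 z (n 7680323 z (n 7680323 z (n
 7680323 z (n 7680323 z z)))))) (n 1 (n 7680323 z (n 7680323 z (n 7680323 z (n 7680323 z (n
 7680323 z (n 7680323 z z)))))) (n 1 (n 7677467 z (n 2284 z (n 2284 z (n
 0x76474230382ea8c862038e17e07a17e291b69e7e27df8a45dd86b7a06e175c7e27609216e08a082275989f89d72381f1001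
 z (n 2284 z (n 2284 z z)))))) z))))))) (n 153 (n 0 z (n 1 (n 7545091 z (n 18 z (n 5447795 z (n
 476 z (n 476 z (n 476 z z)))))) (n 1 (n 7545091 z (n 7737379 z (n 7737379 z (n 7737379 z (n
 7737379 z (n 7737379 z z)))))) (n 1 (n 7545091 z (n 7737379 z (n 7737379 z (n 7737379 z (n
 7737379 z (n 7737379 z z)))))) (n 1 (n 7545091 z (n 7737379 z (n 7737379 z (n 7737379 z (n
 7737379 z (n 7737379 z z)))))) z))))) z))))))) (n 0 (n 0 (n 0 z (n 0 z (n 0 z z))) (n 0 (n 0 z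
 (n 0 z z)) (n 0 (n 0 z z) z))) (n 0 (n 159 (n 0 (n 0 z (n 0 z (n 0 z z))) (n 0 (n 0 z (n 0 z (n
 0 z z))) (n 0 (n 0 z (n 0 z (n 0 z z))) (n 0 (n 0 z (n 0 z (n 0 z z))) (n 0 (n 0 z (n 0 z (n 0
 z z))) z))))) (n 179 (n 0 (n 0 z (n 0 z (n 0 z z))) (n 0 (n 0 z (n 0 z (n 0 z z))) (n 0 (n 0 z
 (n 0 z (n 0 z z))) (n 0 (n 0 z (n 0 z (n 0 z z))) (n 0 (n 0 z (n 0 z (n 0 z z))) (n 0 (n 0 z (n
 0 z (n 0 z z))) (n 0 (n 0 z (n 0 z (n 0 z z))) (n 0 (n 0 z (n 0 z (n 0 z z))) (n 0 (n 0 z (n 0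
 z (n 0 z z))) (n 0 (n 0 z (n 0 z (n 0 z z))) (n 0 (n 0 z (n 0 z (n 0 z z))) (n 0 (n 0 z (n 0 z
 (n 0 z z))) (n 0 (n 0 z (n 0 z (n 0 z z))) z))))))))))))) (n 59 (n 0 (n 0 z (n 0 z (n 0 z z)))
 (n 0 (n 0 z (n 0 z (n 0 z z))) (n 0 (n 0 z (n 0 z (n 0 z z))) (n 0 (n 0 z (n 0 z (n 0 z z))) (n
 0 (n 0 z (n 0 z (n 0 z z))) (n 0 (n 0 z (n 0 z (n 0 z z))) (n 0 (n 0 z (n 0 z (n 0 z z))) (n 0
 (n 0 z (n 0 z (n 0 z z))) z)))))))) (n 297 (n 0 (n 0 z (n 0 z (n 0 z z))) (n 0 (n 0 z (n 0 z (n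
 0 z z))) (n 0 (n 0 z (n 0 z (n 0 z z))) (n 0 (n 0 z (n 0 z (n 0 z z))) (n 0 (n 0 z (n 0 z (n 0
 z z))) z))))) (n 291 (n 0 (n 0 z (n 0 z (n 0 z z))) (n 0 (n 0 z (n 0 z (n 0 z z))) (n 0 (n 0 z
 (n 0 z (n 0 z z))) (n 0 (n 0 z (n 0 z (n 0 z z))) (n 0 (n 0 z (n 0 z (n 0 z z))) (n 0 (n 0 z (n
 0 z (n 0 z z))) (n 0 (n 0 (n 8593667 z (n 8593667 z z)) (n 0 z (n 0 z z))) z))))))) (n 9 (n 0
 (n 0 z (n 0 z (n 0 z z))) (n 0 (n 0 z (n 0 z (n 0 z z))) (n 0 (n 0 z (n 0 z (n 0 z z))) (n 0 (n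
 0 z (n 0 z (n 0 z z))) (n 0 (n 0 z (n 0 z (n 0 z z))) (n 0 (n 0 z (n 0 z (n 0 z z))) (n 0 (n 0
 z (n 0 z (n 0 z z))) (n 0 (n 0 z (n 0 z (n 0 z z))) (n 0 (n 0 z (n 0 z (n 0 z z))) (n 0 (n 0 z
 (n 0 z (n 0 z z))) (n 0 (n 0 z (n 0 z (n 0 z z))) z))))))))))) (n 279 (n 0 (n 0 z (n 0 z (n 0 z
 z))) (n 0 (n 0 z (n 0 z (n 0 z z))) (n 0 (n 0 z (n 0 z (n 0 z z))) (n 0 (n 0 z (n 0 z (n 0 z
 z))) z)))) (n 255 (n 0 (n 0 z (n 0 z (n 0 z z))) (n 0 (n 0 z (n 0 z (n 0 z z))) (n 0 (n 0 z (n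
 0 z (n 0 z z))) (n 0 (n 0 z (n 0 z (n 0 z z))) (n 0 (n 0 z (n 0 z (n 0 z z))) (n 0 (n 0 z (n 0
 z (n 0 z z))) (n 0 (n 0 z (n 0 z (n 0 z z))) (n 0 (n 0 z (n 0 z (n 0 z z))) (n 0 (n 0 z (n 0 z
 (n 0 z z))) (n 0 (n 0 z (n 0 z (n 0 z z))) (n 0 (n 0 z (n 0 z (n 0 z z))) z))))))))))) (n 9 (n
 0 (n 0 z (n 0 z (n 0 z z))) (n 0 (n 0 z (n 0 z (n 0 z z))) (n 0 (n 0 z (n 0 z (n 0 z z))) (n 0
 (n 0 (n 8857099 z z) (n 0 z (n 0 z z))) (n 0 (n 0 z (n 0 z (n 0 z z))) (n 0 (n 0 z (n 0 z (n 0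
 z z))) (n 0 (n 0 z (n 0 z (n 0 z z))) (n 0 (n 0 z (n 0 z (n 0 z z))) (n 0 (n 0 (n 8593667 z z)
 (n 0 z (n 0 z z))) (n 0 (n 0 z (n 0 z (n 0 z z))) (n 0 (n 0 z (n 0 z (n 0 z z))) (n 0 (n 0 z (n
 0 z (n 0 z z))) z)))))))))))) (n 243 (n 0 (n 0 z (n 0 z (n 0 z z))) (n 0 (n 0 z (n 0 z (n 0 z
 z))) (n 0 (n 0 z (n 0 z (n 0 z z))) (n 0 (n 0 z (n 0 z (n 0 z z))) (n 0 (n 0 z (n 0 z (n 0 z
 z))) (n 0 (n 0 z (n 0 z (n 0 z z))) z)))))) (n 285 (n 0 (n 0 z (n 0 z (n 0 z z))) (n 0 (n 0 z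
 (n 0 z (n 0 z z))) (n 0 (n 0 z (n 0 z (n 0 z z))) (n 0 (n 0 z (n 0 z (n 0 z z))) (n 0 (n 0 z (n
 0 z (n 0 z z))) (n 0 (n 0 (n 8868403 z z) (n 0 z (n 0 z z))) (n 0 (n 0 z (n 0 z (n 0 z z))) (n
 0 (n 0 z (n 0 z (n 0 z z))) z)))))))) (n 261 (n 0 (n 0 z (n 0 z (n 0 z z))) (n 0 (n 0 z (n 0 z
 (n 0 z z))) (n 0 (n 0 z (n 0 z (n 0 z z))) (n 0 (n 0 z (n 0 z (n 0 z z))) (n 0 (n 0 z (n 0 z (n
 0 z z))) (n 0 (n 0 z (n 0 z (n 0 z z))) (n 0 (n 0 z (n 0 z (n 0 z z))) (n 0 (n 0 z (n 0 z (n 0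
 z z))) (n 0 (n 0 z (n 0 z (n 0 z z))) (n 0 (n 0 z (n 0 z (n 0 z z))) (n 0 (n 0 z (n 0 z (n 0 z
 z))) (n 0 (n 0 (n
 0x148707e081c7e28a191b62681b82671c5e18e69208e089d7eb75d91a65f7df72099a99f55f8667210041 z z) (n
 0 z (n 0 z z))) (n 0 (n 0 z (n 0 z (n 0 z z))) (n 0 (n 0 z (n 0 z (n 0 z z))) (n 0 (n 0 z (n 0
 z (n 0 z z))) (n 0 (n 0 z (n 0 z (n 0 z z))) z)))))))))))))))) (n 11 (n 0 (n 0 z (n 0 z (n 0 z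
 z))) (n 0 (n 0 z (n 0 z (n 0 z z))) (n 0 (n 0 z (n 0 z (n 0 z z))) (n 0 (n 0 z (n 0 z (n 0 z
 z))) (n 0 (n 0 z (n 0 z (n 0 z z))) (n 0 (n 0 z (n 0 z (n 0 z z))) (n 0 (n 0 z (n 0 z (n 0 z
 z))) (n 0 (n 0 z (n 0 z (n 0 z z))) (n 0 (n 0 z (n 0 z (n 0 z z))) z))))))))) (n 245 (n 0 (n 0
 z (n 0 z (n 0 z z))) (n 0 (n 0 z (n 0 z (n 0 z z))) (n 0 (n 0 z (n 0 z (n 0 z z))) (n 0 (n 0 z
 (n 0 z (n 0 z z))) (n 0 (n 0 z (n 0 z (n 0 z z))) (n 0 (n 0 z (n 0 z (n 0 z z))) (n 0 (n 0 z (n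
 0 z (n 0 z z))) (n 0 (n 0 z (n 0 z (n 0 z z))) (n 0 (n 0 z (n 0 z (n 0 z z))) (n 0 (n 0 z (n 0
 z (n 0 z z))) (n 0 (n 0 z (n 0 z (n 0 z z))) (n 0 (n 0 z (n 0 z (n 0 z z))) z)))))))))))) (n 1
 (n 0 (n 0 z (n 0 z (n 0 z z))) (n 0 (n 0 z (n 0 z (n 0 z z))) (n 0 (n 0 z (n 0 z (n 0 z z))) (n
 0 (n 0 z (n 0 z (n 0 z z))) (n 0 (n 0 z (n 0 z (n 0 z z))) (n 0 (n 0 z (n 0 z (n 0 z z))) (n 0
 (n 0 z (n 0 z (n 0 z z))) (n 0 (n 0 z (n 0 z (n 0 z z))) (n 0 (n 0 z (n 0 z (n 0 z z))) (n 0 (n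
 0 (n 8726331 z z) (n 0 z (n 0 z z))) (n 0 (n 0 z (n 0 z (n 0 z z))) (n 0 (n 0 z (n 0 z (n 0 z
 z))) (n 0 (n 0 z (n 0 z (n 0 z z))) (n 0 (n 0 z (n 0 z (n 0 z z))) (n 0 (n 0 z (n 0 z (n 0 z
 z))) (n 0 (n 0 z (n 0 z (n 0 z z))) (n 0 (n 0 z (n 0 z (n 0 z z))) (n 0 (n 0 z (n 0 z (n 0 z
 z))) (n 0 (n 0 z (n 0 z (n 0 z z))) (n 0 (n 0 z (n 0 z (n 0 z z))) (n 0 (n 0 z (n 0 z (n 0 z
 z))) (n 0 (n 0 z (n 0 z (n 0 z z))) (n 0 (n 0 z (n 0 z (n 0 z z))) (n 0 (n 0 z (n 0 z (n 0 z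
 z))) (n 0 (n 0 z (n 0 z (n 0 z z))) (n 0 (n 0 (n 8868403 z (n 8868403 z z)) (n 0 z (n 0 z z)))
 (n 0 (n 0 z (n 0 z (n 0 z z))) (n 0 (n 0 z (n 0 z (n 0 z z))) (n 0 (n 0 z (n 0 z (n 0 z z))) (n
 0 (n 0 z (n 0 z (n 0 z z))) (n 0 (n 0 z (n 0 z (n 0 z z))) (n 0 (n 0 z (n 0 z (n 0 z z))) (n 0
 (n 0 z (n 0 z (n 0 z z))) (n 0 (n 0 z (n 0 z (n 0 z z))) (n 0 (n 0 (n 8798323 z (n 8729203 z
 z)) (n 0 z (n 0 z z))) (n 0 (n 0 z (n 0 z (n 0 z z))) (n 0 (n 0 z (n 0 z (n 0 z z))) (n 0 (n 0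
 z (n 0 z (n 0 z z))) (n 0 (n 0 z (n 0 z (n 0 z z))) (n 0 (n 0 z (n 0 z (n 0 z z))) (n 0 (n 0 z
 (n 0 z (n 0 z z))) (n 0 (n 0 z (n 0 z (n 0 z z))) (n 0 (n 0 z (n 0 z (n 0 z z))) (n 0 (n 0 z (n
 0 z (n 0 z z))) (n 0 (n 0 (n 8655371 z z) (n 0 z (n 0 z z))) (n 0 (n 0 z (n 0 z (n 0 z z))) (n
 0 (n 0 z (n 0 z (n 0 z z))) (n 0 (n 0 z (n 0 z (n 0 z z))) (n 0 (n 0 z (n 0 z (n 0 z z)))
 z))))))))))))))))))))))))))))))))))))))))))))))))) (n 153 (n 0 (n 0 z (n 0 z (n 0 z z))) (n 0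
 (n 0 z (n 0 z (n 0 z z))) (n 0 (n 0 z (n 0 z (n 0 z z))) (n 0 (n 0 z (n 0 z (n 0 z z))) (n 0 (n
 0 z (n 0 z (n 0 z z))) z))))) (n 59 (n 0 (n 0 z (n 0 z (n 0 z z))) (n 0 (n 0 z (n 0 z (n 0 z
 z))) (n 0 (n 0 z (n 0 z (n 0 z z))) (n 0 (n 0 z (n 0 z (n 0 z z))) (n 0 (n 0 z (n 0 z (n 0 z
 z))) (n 0 (n 0 z (n 0 z (n 0 z z))) (n 0 (n 0 z (n 0 z (n 0 z z))) z))))))) (n 53 (n 0 (n 0 z
 (n 0 z (n 0 z z))) (n 0 (n 0 z (n 0 z (n 0 z z))) (n 0 (n 0 z (n 0 z (n 0 z z))) (n 0 (n 0 z (n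
 0 z (n 0 z z))) (n 0 (n 0 z (n 0 z (n 0 z z))) (n 0 (n 0 z (n 0 z (n 0 z z))) z)))))) (n 27 (n
 0 (n 0 z (n 0 z (n 0 z z))) (n 0 (n 0 z (n 0 z (n 0 z z))) (n 0 (n 0 z (n 0 z (n 0 z z))) (n 0
 (n 0 z (n 0 z (n 0 z z))) (n 0 (n 0 z (n 0 z (n 0 z z))) (n 0 (n 0 z (n 0 z (n 0 z z))) (n 0 (n
 0 z (n 0 z (n 0 z z))) (n 0 (n 0 z (n 0 z (n 0 z z))) (n 0 (n 0 z (n 0 z (n 0 z z))) (n 0 (n 0
 z (n 0 z (n 0 z z))) (n 0 (n 0 z (n 0 z (n 0 z z))) (n 0 (n 0 z (n 0 z (n 0 z z))) (n 0 (n 0 z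
 (n 0 z (n 0 z z))) (n 0 (n 0 z (n 0 z (n 0 z z))) (n 0 (n 0 z (n 0 z (n 0 z z))) (n 0 (n 0 z (n
 0 z (n 0 z z))) (n 0 (n 0 (n 8785955 z z) (n 0 z (n 0 z z))) (n 0 (n 0 (n 8785955 z z) (n 0 z
 (n 0 z z))) z)))))))))))))))))) (n 1 (n 0 (n 0 z (n 0 z (n 0 z z))) (n 0 (n 0 z (n 0 z (n 0 z
 z))) (n 0 (n 0 z (n 0 z (n 0 z z))) (n 0 (n 0 z (n 0 z (n 0 z z))) (n 0 (n 0 z (n 0 z (n 0 z
 z))) (n 0 (n 0 z (n 0 z (n 0 z z))) (n 0 (n 0 z (n 0 z (n 0 z z))) (n 0 (n 0 z (n 0 z (n 0 z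
 z))) (n 0 (n 0 z (n 0 z (n 0 z z))) (n 0 (n 0 z (n 0 z (n 0 z z))) (n 0 (n 0 z (n 0 z (n 0 z
 z))) (n 0 (n 0 z (n 0 z (n 0 z z))) z)))))))))))) (n 0 (n 0 (n 0 z (n 0 z (n 0 z z))) (n 0 (n 0
 z (n 0 z (n 0 z z))) (n 0 (n 0 z (n 0 z (n 0 z z))) (n 0 (n 0 z (n 0 z (n 0 z z))) (n 0 (n 0 z
 (n 0 z (n 0 z z))) (n 0 (n 0 z (n 0 z (n 0 z z))) (n 0 (n 0 z (n 0 z (n 0 z z))) z)))))))
 z))))))))))))))))))))) z)))) z)) z)))) (n 0x2548d6112638092d90ac65851b710251a8388b62345b419 (n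
 0 (n 153 (n 0 z (n 0 z (n 0 z (n 0 z (n 0 z (n 0 z (n 0 z (n 0 z (n 0 z (n 0 z (n 6557779 z (n
 0 z (n 0 z (n 0 z z)))))))))))))) (n 255 (n 2 z (n 0 z (n 6557779 z (n 0 z z)))) (n 129 (n 10 z
 (n 18 z (n 26 z (n 6628379 z (n
 0x4b18c001db18003a6308047c082b8097b87fd81e8477c180c80480980b7c48347be8098287d57a889580882e7ba7f27f67eb83c81d7ca7ff8728307ad79f7c18a385b7ed7b17a17d88358098117f57ce7da88f7e400d1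
 z (n 0 z (n 0 z z))))))) (n 27 (n 34 z (n
 0x4b188401db10803a6218047c082b8097b87fd81e8477c180c80480980b7c48347be8098287d57a889580882e7ba7f27f67eb83c81d7ca7ff8728307ad79f7c18a385b7ed7b17a17d88358098117f57ce7da88f7e400d1
 z (n 42 z (n 50 z (n 2164283 z (n 0 z (n 0 z (n 0 z (n 0 z (n 0 z z)))))))))) (n 1 (n
 0x3d1884015b10802a6218037cd8228087c77fe8198397ce8098048078097d08297cb8068207de7b98778068257c87f57f87ef8308177d57ff85b8277bd7b27ce8828497f17c17b57e082a80780d7f77d87e18727ea00d1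
 z (n 58 z (n 0 z (n 6557779 z (n 0 z (n 6557779 z (n 0 z (n 0 z (n 0 z (n 0 z (n 0 z
 z))))))))))) (n 0 (n 0 z (n 0 z (n 0 z (n 0 z (n 0 z (n 0 z (n 0 z (n 0 z (n 0 z (n 66 z (n
 6628379 z (n 0 z (n 0 z (n 0 z z)))))))))))))) z)))))) (n 255 (n 0 (n 459 (n 0 z (n 0 z (n 0 z
 (n 0 z (n 0 z (n 0 z z)))))) (n 459 (n 0 z (n 0 z (n 0 z (n 0 z (n 0 z (n 2 (n 0 z (n 2 (n 0 z
 (n 0 z (n 0 z (n 0 z (n 0 z (n 0 z z)))))) (n 2 (n 0 z (n 0 z (n 0 z (n 0 z (n 0 z (n 0 z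
 z)))))) (n 2 (n 0 z (n 0 z (n 0 z (n 0 z (n 0 z (n 0 z z)))))) (n 2 (n 0 z (n 0 z (n 0 z (n 0 z
 (n 0 z (n 0 (n 1932 z z) z)))))) (n 2 (n 0 z (n 0 z (n 0 z (n 0 z (n 0 z (n 0 z z)))))) z))))))
 z)))))) (n 459 (n 0 z (n 2 (n 2 (n 0 z (n 0 z (n 0 z (n 0 z (n 0 z (n 0 (n 8798979 z z) z))))))
 (n 2 (n 0 z (n 0 z (n 0 z (n 0 z (n 0 z (n 0 z z)))))) (n 2 (n 0 z (n 0 z (n 0 z (n 0 z (n 0 z
 (n 0 (n 8855811 z z) z)))))) (n 1 z (n 2 (n 0 z (n 0 z (n 0 z (n 0 z (n 0 z (n 0 z z))))))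
 z))))) (n 0 z (n 0 z (n 0 z (n 0 z z)))))) (n 487 (n 0 z (n 0 z (n 0 z (n 0 z (n 0 z (n 0 z (n
 0 z (n 0 z (n 0 z (n 0 z (n 0 z (n 0 z z)))))))))))) (n 487 (n 0 z (n 0 z (n 0 z (n 0 z (n
 7749923 z (n 0 z (n 0 z (n 0 z (n 0 z (n 0 z (n 0 z (n 0 z z)))))))))))) (n 487 (n 0 z (n 0 z
 (n 0 z (n 0 z (n 0 z (n 2 (n 1 z (n 2 (n 0 z (n 0 z (n 0 z (n 0 z (n 0 z (n 0 z z)))))) z)) (n
 0 z (n 0 z (n 0 z (n 0 z (n 0 z (n 0 z z)))))))))))) (n 483 (n 0 z (n 0 z (n 0 z (n 0 z (n 0 z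
 (n 0 z (n 0 z (n 0 z (n 0 z (n 0 z (n 6426739 z (n 2 (n 2 (n 0 z (n 0 z (n 0 z (n 0 z (n 0 z (n
 0 (n 8855811 z z) z)))))) z) (n 0 z (n 0 z (n 0 z (n 0 z (n 0 z (n 0 z (n 0 z (n 0 z (n 0 z (n
 0 z (n 0 z (n 0 z (n 0 z (n 0 z (n 0 z (n 0 z (n 0 z z))))))))))))))))))))))))))))) (n 485 (n 0
 z (n 0 z (n 0 z (n 0 z (n 0 z (n 0 z (n 0 z (n 0 z z)))))))) z)))))))) (n 0 (n 0 z (n 0 z (n 7
 (n 0 z (n 0 z (n 0 z (n 0 z (n 0 z (n 0 z (n 0 z (n 0 z (n 0 z (n 0 z (n 0 z (n 0 z (n 0 z (n 0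
 z (n 0 z z))))))))))))))) (n 7 (n 0 z (n 0 z (n 0 z (n 2 (n 0 z (n 2 (n 0 z (n 0 z (n 0 z (n 0
 z (n 0 z (n 0 z z)))))) (n 2 (n 0 z (n 0 z (n 0 z (n 0 z (n 0 z (n 0 z z)))))) z))) (n 0 z (n 0
 z (n 0 z (n 0 z (n 0 z (n 0 z (n 0 z (n 0 z (n 0 z (n 0 z (n 0 z z))))))))))))))) (n 7 (n 0 z
 (n 0 z (n 0 z (n 0 z (n 2 (n 1 z (n 2 (n 0 z (n 0 z (n 0 z (n 0 z (n 0 z (n 0 z z)))))) z)) (n
 0 z (n 0 z (n 0 z (n 0 z (n 0 z (n 0 z (n 0 z (n 0 z (n 0 z (n 0 z z))))))))))))))) (n 255 (n 0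
 z (n 2 (n 2 (n 0 z (n 0 z (n 0 z (n 0 z (n 0 z (n 0 z z)))))) z) (n 0 z (n 0 z (n 0 z (n 0 z (n
 0 z (n 0 z (n 0 z z))))))))) (n 253 (n 0 z (n 0 z (n 0 z (n 0 z (n 0 z (n 0 z (n 0 z (n 0 z (n
 0 z (n 0 z (n 0 z (n 0 z z)))))))))))) z))))))) (n 0 (n 0 z (n 247 (n 0 z (n 0 z (n 0 z (n 0 z
 (n 0 z (n 0 z (n 0 z (n 0 z (n 0 z (n 0 z (n 0 z (n 0 z (n 0 z (n 0 z (n 0 z (n 0 z (n 0 z (n 0
 z (n 0 z (n 0 z (n 0 z z))))))))))))))))))))) (n 247 (n 0 z (n 0 z (n 0 z (n 0 z (n 0 z (n 2 (n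
 0 z (n 2 (n 0 z (n 0 z (n 0 z (n 0 z (n 0 z (n 0 z z)))))) (n 2 (n 0 z (n 0 z (n 0 z (n 0 z (n
 0 z (n 0 z z)))))) z))) (n 0 z (n 0 z (n 0 z (n 0 z (n 0 z (n 0 z (n 0 z (n 0 z (n 0 z (n 0 z
 (n 0 z (n 0 z (n 0 z (n 0 z (n 0 z z))))))))))))))))))))) (n 247 (n 0 z (n 0 z (n 0 z (n 0 z (n
 0 z (n 0 z (n 0 z (n 0 z (n 2 (n 1 z (n 2 (n 0 z (n 0 z (n 0 z (n 0 z (n 0 z (n 0 z z)))))) z))
 (n 0 z (n 0 z (n 0 z (n 0 z (n 0 z (n 0 z (n 0 z (n 0 z (n 0 z (n 0 z (n 0 z (n 0 z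
 z))))))))))))))))))))) (n 255 (n 0 z (n 0 z (n 2 (n 2 (n 0 z (n 0 z (n 0 z (n 0 z (n 0 z (n 0
 (n 8855811 z z) z)))))) z) (n 0 z (n 0 z (n 0 z (n 0 z (n 0 z z)))))))) (n 253 (n 0 z (n 0 z (n
 0 z (n 0 z (n 0 z (n 0 z z)))))) z)))))) (n 0 (n 55 (n 2 (n 0 z (n 0 z (n 2 (n 0 z (n 0 z (n 0
 z (n 0 z (n 0 z (n 0 (n 8790275 z z) z)))))) (n 2 (n 0 z (n 0 z (n 0 z (n 0 z (n 0 z (n 0 z
 z)))))) z)))) (n 0 z (n 0 z (n 0 z (n 0 z (n 0 z (n 0 z (n 0 z (n 0 z (n 0 z (n 0 z (n 0 z (n 0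
 z (n 0 z (n 0 z (n 0 z (n 0 z (n 0 z (n 0 z (n 0 z (n 0 z (n 0 z z)))))))))))))))))))))) (n 55
 (n 0 z (n 0 z (n 0 z (n 0 z (n 0 z (n 0 z (n 0 z (n 0 z (n 0 z (n 0 z (n 0 z (n 0 z (n 0 z (n 0
 z (n 0 z (n 0 z (n 0 z (n 0 z (n 0 z (n 0 z (n 0 z (n 0 z z)))))))))))))))))))))) (n 55 (n 0 z
 (n 0 z (n 0 z (n 0 z (n 0 z (n 0 z (n 0 z (n 0 z (n 0 z (n 0 z (n 0 z (n 0 z (n 0 z (n 0 z (n 0
 z (n 0 z (n 0 z (n 0 z (n 0 z (n 0 z (n 0 z (n 0 z z)))))))))))))))))))))) (n 531 (n 0 z (n 0 z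
 (n 0 z (n 0 z (n 0 z (n 0 z (n 0 z (n 0 z (n 0 z (n 0 z (n 0 z (n 0 z (n 0 z z))))))))))))) (n
 529 (n 0 z (n 0 z (n 0 z (n 0 z (n 0 z (n 0 z (n 0 z (n 0 z (n 0 z (n 0 z (n 0 z (n 0 z (n 0 z
 z))))))))))))) z))))) (n 0 (n 0 z (n 0 z (n 51 (n 0 z (n 0 z (n 0 z (n 0 z (n 0 z (n 2 (n 2 (n
 0 z (n 0 z (n 0 z (n 0 z (n 0 z (n 0 z z)))))) z) (n 0 z (n 0 z (n 0 z (n 0 z (n 0 z (n 0 z (n
 0 z (n 0 z (n 0 z (n 0 z z)))))))))))))))) (n 49 (n 0 z (n 0 z (n 0 z (n 0 z (n 0 z (n 0 z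
 z)))))) z)))) (n 0 (n 0 z (n 51 (n 0 z (n 0 z (n 2 (n 2 (n 0 z (n 0 z (n 0 z (n 0 z (n 0 z (n 0
 z z)))))) z) (n 0 z (n 0 z (n 0 z (n 0 z z))))))) (n 53 (n 0 z (n 0 z (n 0 z (n 0 z (n 0 z (n 0
 z (n 0 z (n 0 z z)))))))) z))) (n 0 (n 735 (n 0 z (n 0 z (n 0 z (n 0 z (n 0 z (n 0 z (n 0 z (n
 0 z z)))))))) (n 109 (n 0 z (n 0 z (n 0 z (n 0 z (n 0 z (n 0 z (n 0 z (n 0 z (n 0 z (n 0 z
 z)))))))))) z)) (n 0 (n 961 (n 0 z (n 0 z (n 0 z (n 0 z (n 0 z (n 0 z (n 0 z (n 0 z (n 0 z (n 0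
 z (n 0 z (n 0 z (n 0 z (n 0 z z)))))))))))))) z) (n 0 z z))))))))) (n 0 (n 1 (n 4396555 z (n
 1228 z (n 4395107 z (n 1228 z (n 2164299 z (n 1228 z z)))))) (n 0 z (n 1 (n 6557779 z (n
 6557779 z (n 6557779 z (n 6557779 z (n 6557779 z (n 6557779 z z)))))) (n 0 z z)))) (n 0 z z))))
 (n 0x688ba337150944ee10b5305138c3714c904d3cd84717a006a940 (n 0 (n 153 (n 2 z (n 3282443 z (n 0
 z (n 10 z (n 0 z z))))) (n 57 (n 0 z (n 0 z (n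
 0x6ca8a8040778888f728580847e8682816f81717b74837885818d7884838180a282807b92795e8286827c84747e6f8476808a76847e80810809
 z (n 0 z (n 0 z (n 18 z (n 6496515 z (n 0 z (n 0 z (n 6496515 z z)))))))))) (n 51 (n 0 z (n
 0x2ca4a62803817d7f7e80807781818681847f827f7c807e817f79837d867e7e7581807f76868b827a80847c86828a7f7b7d7c7d7f837c810809
 z (n 0 z (n 0 z (n 0 z (n 6496515 z (n 0 z (n 26 z (n 6496515 z z))))))))) (n 3 (n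
 0x2ac403ad8806d3100c16208f80629f7b8483885570639c8da87eaa7ea772836b8c706d84906178808571779f866581818499689770a88d709c788292730109
 z (n
 0x4ca4a208077b83817c81808381827f7d8181807f7e8483817c827b817e82817f81807d807e818181848281827f7a8182817f7f84827f800809
 z (n
 0x2ac203ad8406d3080c16108f80629f7b8483885570639c8da87eaa7ea772836b8c706d84906178808571779f866581818499689770a88d709c788292730109
 z (n
 0x2ca8a804077d82827d81808380817f7f7e817e7f7e8381817f837d807f81808480807f827f7c81818380817f807b818081807e83817f800809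
 z (n
 0x2ac403ad8806d3100c16208f80629f7b8483885570639c8da87eaa7ea772836b8c706d84906178808571779f866581818499689770a88d709c788292730109
 z (n 0 z (n 0 z (n 0 z (n 0 z (n 0 z (n 0 z (n 6496515 z (n 0 z (n 0 z (n 0 z (n 0 z (n 0 z (n
 0 z (n 0 z (n 0 z (n
 0x1ac822ed904593208a16418c8068997c8382865e7369968ba07ea17e9f76826f8a7470848d687a8083747998856a818183946d9273a08a73967b828e760109
 z (n
 0xcca8a82407728da268848186819082825f7f67786a8773887f9d6e83818381c380807b9f753e81867c7e866a775b8c7183876989867e7f0809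
 z (n 6496515 z (n 0 z (n 0 z (n 0 z (n 0 z (n 0 z (n 0 z z))))))))))))))))))))))))))))) (n 1 (n
 0x6ca8a604077e7c8289857f8576817c867c8279817c7c8289857a89848e767a8a8180848380767988807a847486877f7c828d8b7a748d830809
 z (n 0 z (n 34 z (n 2164299 z (n 0 z (n 42 z (n 0 z (n 0 z (n 50 z (n 0 z (n 0 z (n 0 z (n 0 z
 z))))))))))))) (n 0 (n 58 z (n 0 z (n 0 z (n 0 z (n 0 z (n 0 z (n 6619675 z (n 0 z (n 0 z (n 0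
 z (n 0 z (n 0 z (n 66 z (n 74 z (n 0 z z))))))))))))))) z)))))) (n 153 (n 0 (n 0 z (n 223 (n 0
 z (n 0 z (n 0 z (n 0 z (n 0 z (n 0 z (n 2 (n 2 (n 0 (n 8798515 z (n 8798515 z z)) (n 0 (n
 8798515 z (n 8798515 z z)) (n 0 (n 8798515 z (n 8798515 z z)) (n 0 z (n 0 z (n 0 z z)))))) (n 2
 (n 0 (n 8868403 z (n 8868403 z z)) (n 0 (n 8868403 z (n 8868403 z z)) (n 0 z (n 0 (n 8868403 z
 (n 8868403 z z)) (n 0 z (n 0 z z)))))) (n 2 (n 0 z (n 0 z (n 0 z (n 0 z (n 0 z (n 0 z z))))))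
 (n 2 (n 0 z (n 0 z (n 0 z (n 0 z (n 0 z (n 0 z z)))))) (n 2 (n 0 (n 8798515 z (n 8798515 z z))
 (n 0 (n 8798515 z (n 8798515 z z)) (n 0 (n 8798515 z (n 8798515 z z)) (n 0 z (n 0 z (n 0 z
 z)))))) (n 2 (n 0 z (n 0 z (n 0 z (n 0 z (n 0 z (n 0 z z)))))) (n 2 (n 0 z (n 0 z (n 0 z (n 0 z
 (n 0 z (n 0 z z)))))) z))))))) (n 0 z (n 0 z (n 0 z (n 0 z z))))))))))) (n 225 (n 0 z (n 0 z (n
 0 z (n 0 z z)))) (n 221 (n 0 z (n 0 z (n 0 z (n 0 z (n 0 z (n 0 z (n 0 z (n 0 z (n 0 z (n 0 z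
 (n 0 z (n 0 z (n 0 z (n 0 z (n 0 z (n 0 z z)))))))))))))))) (n 221 (n 0 z (n 0 z (n 0 z (n 0 z
 (n 0 z (n 0 z (n 0 z (n 0 z (n 0 z (n 0 z (n 0 z (n 0 z (n 0 z (n 0 z (n 0 z (n 0 z
 z)))))))))))))))) (n 221 (n 0 z (n 0 z (n 0 z (n 0 z (n 0 z (n 0 z (n 0 z (n 0 z (n 0 z (n 0 z
 (n 0 z (n 0 z (n 0 z (n 0 z (n 0 z (n 0 z z)))))))))))))))) (n 301 (n 0 z (n 0 z (n 0 z (n 0 z
 z)))) (n 301 (n 0 z (n 0 z (n 0 z (n 0 z z)))) (n 301 (n 0 z (n 0 z (n 0 z (n 0 z z))))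
 z))))))))) (n 0 (n 995 (n 0 z (n 0 z (n 0 z (n 0 z (n 0 z z))))) (n 993 (n 0 z (n 0 z (n 0 z (n
 0 z (n 0 z (n 0 z (n 0 z (n 0 z (n 0 z (n 0 z (n 0 z z))))))))))) (n 303 (n 0 z (n 0 z (n 0 z
 (n 0 z (n 0 z z))))) (n 303 (n 0 z (n 0 z (n 0 z (n 0 z (n 0 z z))))) (n 303 (n 0 z (n 0 z (n 0
 z (n 0 z (n 0 z z))))) (n 301 (n 0 z (n 0 z (n 0 z (n 0 z (n 0 z (n 0 z (n 0 z (n 0 z (n 0 z (n
 0 z (n 0 z (n 0 z (n 0 z (n 0 z (n 0 z (n 0 z z)))))))))))))))) (n 301 (n 0 z (n 0 z (n 0 z (n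
 0 z (n 0 z (n 0 z (n 0 z (n 0 z (n 0 z (n 0 z (n 0 z (n 0 z (n 0 z (n 0 z (n 0 z (n 0 z
 z)))))))))))))))) (n 301 (n 0 z (n 0 z (n 0 z (n 0 z (n 0 z (n 0 z (n 0 z (n 0 z (n 0 z (n 0 z
 (n 0 z (n 0 z (n 0 z (n 0 z (n 0 z (n 0 z z)))))))))))))))) z)))))))) (n 0 (n 103 (n 0 z (n 0 z
 (n 0 z (n 0 z (n 0 z (n 0 z (n 0 z (n 0 z (n 0 z (n 0 z (n 0 z (n 0 z (n 0 z (n 0 z (n 0 z (n 0
 z (n 0 z (n 0 z (n 0 z (n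
 0xea4ca28037d828b7a7e817c82828380757e7c7f7a837d827e877d827e817f8f82807e87816f807f7e837f787f77857a82807683857f7f0809
 z (n 2 (n 1 z (n 1 z (n 2 (n 0 z (n 0 z (n 0 z (n 0 z (n 0 z (n 0 z z)))))) (n 1 z (n 1 z (n 2
 (n 0 z (n 0 z (n 0 z (n 0 z (n 0 z (n 0 z z)))))) z)))))) (n 0 z z)))))))))))))))))))))) (n 111
 (n 0 z (n 0 z (n 0 z (n 0 z (n 0 z (n 0 z (n 0 z (n 0 z (n 0 z (n 0 z (n 0 z z))))))))))) (n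
 111 (n 0 z (n 0 z (n 0 z (n 0 z (n 0 z (n 0 z (n 0 z (n 0 z (n 0 z (n 0 z (n 2 (n 0 z (n 2 (n 0
 z (n 0 z (n 0 z (n 0 z (n 0 (n 8864051 z z) (n 0 z z)))))) (n 2 (n 0 z (n 0 z (n 0 z (n 0 z (n
 0 (n 8802867 z z) (n 0 z z)))))) (n 2 (n 0 z (n 0 z (n 0 z (n 0 z (n 0 z (n 0 z z)))))) z))))
 z))))))))))) (n 111 (n 0 z (n 0 z (n 0 z (n 0 z (n 0 z (n 0 z (n 0 z (n 2 (n 2 (n 0 z (n 0 z (n
 0 z (n 0 z (n 0 z (n 0 z z)))))) (n 2 (n 0 z (n 0 z (n 0 z (n 0 z (n 0 z (n 0 z z)))))) (n 2 (n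
 0 z (n 0 z (n 0 z (n 0 z (n 0 z (n 0 z z)))))) z))) (n 0 z (n 0 z (n 0 z z))))))))))) (n 109 (n
 0 z (n 0 z (n 2 (n 0 z (n 0 z z)) (n 0 z (n 0 z (n 0 z (n 0 z (n 0 z (n 0 z (n 0 z (n 0 z (n 0
 z z)))))))))))) (n 109 (n 0 z (n 0 z (n 0 z (n 0 z (n 0 z (n 0 z (n 0 z (n 0 z (n 0 z (n 0 z (n
 0 z (n 0 z z)))))))))))) (n 109 (n 0 z (n 0 z (n 0 z (n 0 z (n 0 z (n 0 z (n 0 z (n 0 z (n 0 z
 (n 0 z (n 0 z (n 2 z z)))))))))))) z))))))) (n 0 (n 99 (n 0 z (n 0 z (n 0 z (n 0 z (n 2 (n 0 z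
 (n 0 z (n 1 z (n 2 (n 0 z (n 0 z (n 0 z (n 0 z (n 0 (n 8868403 z z) (n 0 z z)))))) (n 2 (n 0 z
 (n 0 z (n 0 z (n 0 z (n 0 z (n 0 z z)))))) z))))) (n 0 z (n 0 z (n 0 z (n 0 z (n 0 z (n 0 z (n
 0 z (n 0 z (n 0 z z)))))))))))))) (n 99 (n 0 z (n 0 z (n 0 z (n 0 z (n 0 z (n 0 z (n 0 z (n 0 z
 (n 0 z (n 0 z (n 0 z (n 0 z (n 0 z (n 0 z z)))))))))))))) (n 99 (n 0 z (n 0 z (n 0 z (n 0 z (n
 0 z (n 0 z (n 0 z (n 0 z (n 0 z (n 0 z (n 0 z (n 0 z (n 0 z (n 7741779 z z)))))))))))))) (n 97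
 (n 0 z (n 0 z (n 0 z (n 0 z (n 0 z (n 0 z (n 0 z (n 0 z z)))))))) (n 97 (n 0 z (n 0 z (n 0 z (n
 0 z (n 0 z (n 0 z (n 0 z (n 2 (n 0 z z) z)))))))) (n 97 (n 0 z (n 0 z (n 0 z (n 0 z (n 2 z (n 0
 z (n 0 z (n 0 z z)))))))) z)))))) (n 0 (n 0 z (n 0 z (n 1 (n 0 z (n 0 z (n 0 z (n 0 z (n 0 z (n
 0 z (n 0 z (n 0 z (n 0 z (n 0 z (n 0 z (n 0 z (n 0 z (n 0 z (n 0 z (n 0 z (n 0 z (n 0 z (n 0 z
 (n 0 z (n 0 z (n 0 z (n 0 z (n 0 z (n 0 z (n 0 z (n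
 0x8ec6ec64037e8785707c8b877f777d8475806f817c856b8184918675847e85998680809b72677c7680768c756e84757c768282817482850809
 z (n 0 z (n 0 z (n 0 z (n 0 z (n 0 z (n 0 z (n 0 z (n 0 z (n 0 z (n 0 z (n 2 (n 0 z (n 0 z z))
 (n 0 z (n 0 z (n 0 z (n 0 z (n 0 z (n 0 z (n 0 z (n 0 z (n 0 z
 z))))))))))))))))))))))))))))))))))))))))))))))) (n 1 (n 0 z (n 0 z (n 0 z (n 0 z (n 0 z (n 0 z
 (n 0 z (n 0 z (n 0 z (n 0 z (n 0 z (n 0 z (n 0 z (n 0 z (n 0 z (n 0 z (n 0 z (n 0 z (n 0 z (n 0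
 z (n 0 z (n 0 z (n 0 z (n 0 z (n 0 z (n 0 z (n 0 z (n 0 z (n 0 z (n 0 z (n 0 z (n 0 z (n 0 z (n
 0 z (n 0 z (n 0 z (n 0 z (n 0 z (n 0 z (n 0 z (n 0 z (n 0 z (n 0 z (n 0 z (n 0 z (n 0 z (n 0 z
 z))))))))))))))))))))))))))))))))))))))))))))))) (n 1 (n 0 z (n 0 z (n 0 z (n 0 z (n 0 z (n 0 z
 (n 0 z (n 0 z (n 0 z (n 0 z (n 0 z (n 0 z (n 0 z (n 0 z (n 0 z (n 0 z (n 0 z (n 0 z (n 0 z (n 0
 z (n 0 z (n 0 z (n 0 z (n 0 z (n 0 z (n 0 z (n 0 z (n 0 z (n 0 z (n 0 z (n 0 z (n 0 z (n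
 0x14ec6ec64037b8e8a6177968d7f6f7a886b805e837889568287a28c69887c8bb18b8080b56350776d806c976c5c876a7a6c8384816a848a0809
 z (n 0 z (n 0 z (n 0 z (n 0 z (n 0 z (n 0 z (n 0 z (n 0 z (n 0 z (n 2 z (n 0 z (n 0 z (n 0 z (n
 0 z z))))))))))))))))))))))))))))))))))))))))))))))) z))))) (n 0 (n 0 z (n 1 (n 0 z (n 0 z (n 0
 z (n 0 z (n 0 z (n 0 z (n 0 z (n 0 z (n 0 z (n 0 z (n 0 z (n 0 z (n 0 z (n 0 z (n 0 z (n 0 z (n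
 0 z (n 0 z (n 0 z (n 0 z (n 0 z (n 0 z (n 0 z (n 0 z (n 0 z (n 0 z (n 0 z (n 0 z (n 0 z (n 0 z
 (n 0 z (n 0 z (n 0 z (n 0 z (n 0 z (n 0 z (n 0 z (n 0 z (n 0 z (n 0 z (n 0 z (n 0 z (n 0 z (n 0
 z (n 0 z (n 0 z (n 0 z (n 0 z (n 0 z (n 0 z (n 0 z (n 0 z (n 0 z (n 0 z (n 0 z (n 0 z
 z)))))))))))))))))))))))))))))))))))))))))))))))))))))))) (n 1 (n 0 z (n 0 z (n 0 z (n 0 z (n 0
 z (n 0 z (n 0 z (n 0 z (n 0 z (n 0 z (n 0 z (n 0 z (n 0 z (n 0 z (n 0 z (n 0 z (n 0 z (n 0 z (n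
 0 z (n 0 z (n 0 z (n 0 z (n 0 z (n 0 z (n 0 z (n 0 z (n 0 z (n 0 z (n 0 z (n 0 z (n 0 z (n 0 z
 (n 0 z (n 0 z (n
 0x14ec6ec64037b8e8a6177968d7f6f7a886b805e837889568287a28c69887c8bb18b8080b56350776d806c976c5c876a7a6c8384816a848a0809
 z (n 0 z (n 0 z (n 0 z (n 0 z (n 0 z (n 0 z (n 0 z (n 0 z (n 2 (n 0 z z) (n 0 z (n 0 z (n 0 z
 (n 0 z (n 0 z (n 0 z (n 0 z (n 0 z (n 0 z (n 0 z (n 0 z (n 0 z
 z)))))))))))))))))))))))))))))))))))))))))))))))))))))))) (n 1 (n 0 z (n 0 z (n 0 z (n 0 z (n 0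
 z (n 0 z (n 0 z (n 0 z (n 0 z (n 0 z (n 0 z (n 0 z (n 0 z (n 0 z (n 0 z (n 0 z (n 0 z (n 0 z (n
 0 z (n 0 z (n 0 z (n 0 z (n 0 z (n 0 z (n 0 z (n 0 z (n 0 z (n 0 z (n 0 z (n 0 z (n 0 z (n 0 z
 (n 0 z (n 0 z (n 0 z (n 0 z (n 0 z (n 0 z (n 0 z (n 0 z (n 0 z (n 0 z (n 0 z (n 0 z (n 0 z (n 0
 z (n 0 z (n 0 z (n 0 z (n 0 z (n 0 z (n 0 z (n 0 z (n 0 z (n 0 z (n 0 z
 z)))))))))))))))))))))))))))))))))))))))))))))))))))))))) z)))) (n 0 (n 1 (n 0 z (n 0 z (n 0 z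
 (n 0 z (n 0 z (n 0 z (n 0 z (n 0 z (n 0 z (n 0 z (n 0 z (n 0 z (n 0 z (n 0 z (n 0 z (n 0 z (n 0
 z (n 0 z (n 0 z (n
 0x2ecac6420780808280807f7c808282807d807f817f7f8081807f8080817e7f8180808080807f7f818080807e827d837d807f7e7f817f800809
 z (n 0 z (n 0 z (n 0 z (n 0 z (n 0 z (n 0 z (n 0 z (n 0 z (n 0 z (n 0 z (n 0 z (n 0 z (n 2 (n 0
 z (n 0 z z)) (n 0 z (n 0 z (n 0 z (n 0 z (n 0 z (n 0 z (n 0 z (n 0 z (n 0 z (n 0 z (n 0 z (n 0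
 z (n 0 z (n 0 z (n 0 z (n 0 z z))))))))))))))))))))))))))))))))))))))))))))))))) (n 1 (n 0 z (n
 0 z (n 0 z (n 0 z (n 0 z (n 0 z (n 0 z (n 0 z (n 0 z (n 0 z (n 0 z (n 0 z (n 0 z (n 0 z (n 0 z
 (n 0 z (n 0 z (n 0 z (n 0 z (n 0 z (n 0 z (n 0 z (n 0 z (n 0 z (n 0 z (n 0 z (n 0 z (n 0 z (n 0
 z (n 0 z (n 0 z (n 0 z (n 0 z (n 0 z (n 0 z (n 0 z (n 0 z (n 0 z (n 0 z (n 0 z (n 0 z (n 0 z (n
 0 z (n 0 z (n 0 z (n 0 z (n 0 z (n 0 z (n 0 z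
 z))))))))))))))))))))))))))))))))))))))))))))))))) (n 1 (n 0 z (n 0 z (n 0 z (n 0 z (n 0 z (n 0
 z (n 0 z (n 0 z (n 0 z (n 0 z (n 0 z (n 0 z (n 2 z (n 0 z (n 0 z (n 0 z (n 0 z (n 0 z (n 0 z (n
 0 z (n 0 z (n 0 z (n 0 z (n 0 z (n 0 z (n 0 z (n 0 z (n 0 z (n 0 z (n 0 z (n 0 z (n 0 z (n 0 z
 (n 0 z (n 0 z (n 0 z (n 0 z (n 0 z (n 0 z (n 0 z (n 0 z (n 0 z (n 0 z (n 0 z (n 0 z (n 0 z (n 0
 z (n 0 z (n 0 z z))))))))))))))))))))))))))))))))))))))))))))))))) z))) (n 0 (n 0 z (n 0 z z))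
 (n 0 (n 0 z z) (n 0 z z)))))))))) (n 0 (n 1 (n 6496515 z (n 460 z (n 460 z (n 3212875 z (n 460
 z (n 460 z z)))))) (n 1 (n 6496515 z (n 3282443 z (n 3282443 z (n 3282443 z (n 3282443 z (n
 3282443 z z)))))) (n 0 z (n 1 (n 6496515 z (n 460 z (n 460 z (n 3278427 z (n 460 z (n 460 z
 z)))))) (n 0 z z))))) (n 0 z z)))) z)))))))), by decide +kernel⟩
theorem i10666 : ∃ t, chkR KT RW t 10666 10673 = true := ⟨(n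
 0xd0d77086b98c440da1a04c8c00e5a8061880 (n 0 (n 201 (n 0 z (n 2 z (n 0 z (n 10 z (n
 0x5b29b29201c2d4c994100616c86ca2407036546412018132a2a0901c1590d50480600ca8a624038f7d69a38b8073677b807c997f6d56809b8088a1828071788684787d74807767907485a28887847f838580808080707e927e3809
 z (n 6357803 z (n 0 z (n 0 z (n 0 z (n 0 z (n 0 z (n 0 z (n 3282443 z (n 0 z (n 0 z (n 0 z (n 0
 z (n 0 z (n 0 z (n 0 z (n 18 z (n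
 0x1595194c80e0aca8c864030565364320182321b21901c0995195040e00ca6ca62078186867e80807b7f808074867c8279808a808b798080827a808a7f847b80886f8080837f80838080857980808680817e7f803009
 z (n 0 z (n 0 z (n 0 z (n 0 z (n 26 z (n 34 z (n 0 z (n 0 z z)))))))))))))))))))))))))))))) (n
 59 (n 6496515 z (n 0 z (n 0 z (n 0 z (n 0 z z))))) (n 53 (n 0 z (n 0 z (n 0 z (n 0 z (n 6496515
 z (n 0 z (n 0 z (n 0 z (n 0 z (n 0 z (n 0 z (n 0 z (n 0 z (n 0 z z)))))))))))))) (n 3 (n 0 z (n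
 6496515 z (n 0 z (n 0 z (n 0 z (n 0 z (n 0 z (n 0 z (n 0 z (n 0 z (n 0 z (n 0 z (n 0 z
 z))))))))))))) (n 49 (n 42 z (n 0 z (n 2164299 z z))) (n 0 (n 2164315 z (n 0 z (n 50 z z)))
 z)))))) (n 49 (n 0 (n 0 z (n 0 z (n 0 z (n 0 z (n 757 (n 0 z (n 2 (n 1 z z) (n 0 z (n 0 z (n 0
 z (n 0 z (n 0 z (n 0 z (n 0 z (n 0 z (n 0 z (n 0 z (n 0 z (n 0 z (n 0 z (n 0 z (n 0 z (n 0 z (n
 0 z (n 0 z (n 0 z (n 0 z (n 0 z (n 0 z (n 0 z (n 0 z (n 0 z z))))))))))))))))))))))))))) (n 721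
 (n 0 z (n 0 z (n 0 z (n 0 z (n 0 z (n 0 z (n 0 z (n 0 z (n 0 z (n 0 z (n 0 z (n 2 z (n 0 z (n 0
 z (n 0 z (n 0 z (n 0 z (n 0 z z)))))))))))))))))) z)))))) (n 0 (n 0 z (n 0 z (n 0 z (n 1345 (n
 0 z (n 0 z (n 0 z z))) (n 401 (n 0 z (n 0 z (n 0 z (n 0 z z)))) z))))) (n 0 (n 0 z (n 0 z (n
 495 (n 0 z (n 0 z (n 0 z (n 0 z (n 0 z (n 0 z (n 0 z (n 0 z (n 0 z (n 0 z (n 0 z (n 0 z (n 0 z
 (n 0 z (n 2 (n 1 z z) (n 0 z (n 0 z (n 0 z z)))))))))))))))))) (n 493 (n 0 z (n 0 z (n 0 z (n 0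
 z (n 0 z (n 0 z (n 0 z (n 0 z (n 0 z (n 0 z (n 2 z z))))))))))) z)))) (n 0 (n 0 z (n 929 (n 0 z
 (n 0 z (n 0 z (n 0 z (n 0 z (n 0 z (n 0 z (n 0 z (n 0 z (n 0 z (n 0 z (n 0 z (n 0 z (n 0 z (n 0
 z (n 0 z (n 0 z (n 0 z (n 0 z (n 0 z (n 0 z (n 0 z (n 0 z (n 0 z (n 0 z (n 0 z (n 0 z (n 0 z (n
 0 z (n 0 z z)))))))))))))))))))))))))))))) (n 493 (n 0 z (n 0 z (n 0 z (n 0 z (n 0 z (n 0 z (n
 0 z (n 0 z (n 0 z (n 0 z (n 0 z (n 0 z (n 0 z (n 0 z (n 0 z (n 0 z (n 0 z (n 0 z (n 0 z (n 0 z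
 (n 0 z (n 0 z (n 0 z (n 0 z (n 0 z (n 0 z (n 0 z (n 0 z (n 0 z (n 0 z
 z)))))))))))))))))))))))))))))) z))) (n 0 (n 243 (n 0 z (n 0 z (n 0 z (n 0 z (n 0 z (n 0 z (n 0
 z (n 0 z (n 2 (n 1 z z) (n 0 z (n 0 z z))))))))))) (n 265 (n 0 z (n 0 z (n 0 z (n 0 z (n 0 z (n
 0 z (n 0 z (n 0 z (n 0 z (n 0 z (n 0 z (n 0 z (n 0 z (n 2 z (n 0 z (n 0 z (n 0 z (n 0 z (n 0 z
 (n 0 z (n 0 z (n 0 z (n 0 z (n 0 z (n 0 z (n 0 z (n 0 z z))))))))))))))))))))))))))) z)) (n 0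
 (n 61 (n 0 z (n 0 z (n 0 z z))) z) (n 0 z z))))))) (n 0 (n 1 (n 1612 z (n 1612 z (n 1612 z (n
 1612 z (n 1612 z (n 476 z z)))))) (n 0 z (n 1 (n 2164299 z (n 2164299 z (n 2164299 z (n 2164299
 z (n 2164299 z (n 2164299 z z)))))) z))) (n 0 z z)))) (n 0x43cec6442de9082597032cb840 (n 0 (n
 405 (n 2 z (n 0 z (n 3282443 z (n 0 z (n 0 z z))))) (n 33 (n 3278363 z (n 0 z (n 0 z (n 0 z (n
 10 z (n 0 z (n 6559019 z (n 0 z (n 0 z (n 0 z (n 0 z (n 0 z (n 0 z (n 0 z (n 0 z (n 18 z (n 0 z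
 (n 0 z (n 0 z (n 0 z z)))))))))))))))))))) (n 403 (n 0 z (n 6636051 z (n 0 z (n 0 z (n 0 z
 z))))) (n 3 (n 2164283 z (n 0 z (n 26 z (n 0 z (n 0 z z))))) (n 1 (n
 0x8ca8a204077e385e7618228227e579d85e8e375f79d7dd72085d8a176091e7df85f91e9217e385c85f8220801 z
 (n 34 z (n 0 z (n 6636051 z (n 6559019 z (n 0 z (n 0 z (n 0 z (n 6636051 z (n 0 z (n 0 z (n 0 z
 (n 0 z (n
 0xcca86204078238217a181f82182371e8a08a17a181e81e7a085f9207e18df79f8217e189f7e189e7de8610801 z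
 (n 0 z (n 0 z (n
 0x4ca8a604037e18607e181f8208207a08208607e081f82086082086082082086082082182082086081f8200801 z
 z))))))))))))))))) (n 0 (n 0 z (n 0 z (n 0 z (n 6636051 z (n 0 z (n 0 z (n 0 z z))))))) z))))))
 (n 405 (n 0 (n 919 (n 0 z (n 0 z (n 0 z (n 0 z (n 0 z (n 0 z (n 0 z (n 0 z (n 0 z (n 0 z (n 0 z
 (n 0 z (n 0 z (n 0 z (n 0 z (n 0 z (n 0 z (n 0 z (n 0 z (n 0 z z)))))))))))))))))))) (n 919 (n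
 0 z (n 0 z (n 0 z (n 0 z (n 0 z (n 0 z (n 0 z (n 0 z (n 0 z (n 0 z (n 0 z (n 0 z (n 0 z (n 0 z
 (n 0 z (n 0 z (n 0 z (n 0 z (n 0 z (n 0 z z)))))))))))))))))))) (n 33 (n 0 z (n 0 z (n 0 z (n 0
 z (n 0 z z))))) (n 805 (n 0 z (n 0 z (n 0 z (n 0 z (n 0 z (n 0 z (n 0 z z))))))) z)))) (n 0 (n
 0 z (n 393 (n 0 z (n 0 z (n 0 z (n 0 z (n 0 z (n 0 z (n 0 z (n 0 z (n 0 z (n 0 z (n 0 z (n 0 z
 (n 0 z (n 0 z (n 0 z (n 0 z (n 0 z (n 0 z (n 0 z (n 0 z z)))))))))))))))))))) (n 925 (n 0 z (n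
 0 z (n 0 z (n 0 z (n 0 z (n 0 z (n 0 z (n 0 z (n 0 z (n 0 z (n 0 z (n 0 z (n 0 z (n 0 z (n 0 z
 (n 0 z (n 0 z (n 0 z (n 0 z (n 0 z (n 0 z (n 0 z z)))))))))))))))))))))) z))) (n 0 (n 7 (n 0 z
 (n 0 z (n 0 z (n 0 z (n 0 z (n 0 z (n 0 z (n 0 z (n 0 z (n 0 z (n 0 z (n 0 z (n 0 z (n 0 z (n 0
 z (n 0 z (n 0 z (n 0 z (n 0 z (n 0 z (n 0 z (n 0 z (n 0 z (n 0 z (n 0 z (n 0 z (n 0 z (n 0 z (n
 0 z (n 0 z (n 0 z z))))))))))))))))))))))))))))))) (n 51 (n 0 z (n 0 z (n 0 z (n 0 z (n 0 z (n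
 0 z (n 0 z (n 0 z (n 0 z (n 0 z z)))))))))) z)) (n 0 (n 3 (n 0 z (n 0 z (n 0 z (n 0 z (n 0 z
 z))))) z) (n 0 z z))))) (n 0 (n 1 (n 268 z (n 268 z (n 3228 z (n 268 z (n 268 z (n 268 z
 z)))))) (n 0 z (n 1 (n 3282443 z (n 3282443 z (n 3282443 z (n 3282443 z (n 3282443 z (n 3282443
 z z)))))) (n 0 z (n 0 z z))))) (n 0 z z)))) (n 0xaa27685138b049bb444db4134ed5100a5500 (n 0 (n
 285 (n 3282443 z (n 2 z (n 10 z z))) (n 39 (n 3278363 z (n 0 z (n 0 z z))) (n 9 (n 6496523 z (n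
 0 z (n 0 z (n 0 z z)))) (n 269 (n
 0x2ca6a4280782382081f8218217df81f89f8608a08607a382081e7df81f7df8e18607a07e081f8e07df8200801 z
 (n 18 z (n
 0x4c82c40a0782179e85f81e7a286285f89c89f8a09608a37e266176181c8e089f7218df8278e18a18237dd0801 z
 (n 0x4ca8c8420782192075f7df89c85b75f8a09208e08217e18e486179e81f71e7e08de7e28a17e18e185c8630801
 z (n 0 z (n 4331067 z (n 0 z (n 6496523 z (n 0 z (n 0 z (n 6496523 z (n 0 z (n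
 0x2ca6a208078217df8218618208a081e81e8de89e8e07a37df7e081e82081f8238607e07e082089f75f8200801 z
 (n 6496523 z (n
 0x2ca4ca28037eb59ba20a9991b79f8de6d999f7637647a48a19215d882581e7a6a1b62775e6a19a28da9250801 z
 (n 0 z (n 26 z (n 0 z (n 34 z (n 0 z (n 0 z (n 0 z (n
 0x165352140180ca8a8420782376282186282282185e81f81f81f76086186179e7de81f8a186386185f7a18607de7a275f1001
 z z))))))))))))))))))))))) (n 121 (n 0 z (n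
 0x165451030182c84a206070594d94c4060329b18081c065365300380ca6c640037dc8627a47a07db9da85d79c91d9a27657628e18a469e82371e72389c7a286172392291a8a53001
 z (n 0xca2ca200781e8628607a07e091e81e8208208e08e27e17df8618a08207df8217df8208608608207e08200801
 z (n 0 z (n 0 z (n 42 z (n 2164299 z (n 0 z (n
 0xb19308281c265451030180ca6c6240381c8e37de6e4868a1c79d92185f99c95d89a79f71a8a981aa6689e69fa599e09df65e7ec71a1801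
 z z))))))))) (n 0 (n
 0x6c86c6240782171e9628d88dca5d85b75a95da2396476871c9e766182685b7227a16a589b6219669599230801 z
 (n 0x2c86c8640789f7e38217607e085e81f8a08208208a386082181e81f81e85d8207e07e28228608638207e00801
 z (n
 0x2328990201c165442130386c84c84207898beb4a345b756b116d7aeca19b98aa38e479aae486d81c76165c6da7e5c5b6e1722ad5b291801
 z (n 0 z (n 0 z (n 0 z (n 0 z (n
 0x2c86c6240782081f82185e81e85e82192085d91f8a182481d8227a282081e89e7a07e289f7e18628de8210801 z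
 (n 0 z (n 0 z (n 0 z (n
 0x8c868624078238237a189579a95e81a89d91e920aa28eb7e086972582175f71f6dd7a19e37e192495a9660801 z
 (n 0xc84c8420781e8628607a07e091e81e8208208e08e27e17df8618a08207df8217df8208608608207e08200801 z
 (n 0x6c86c8240789e8238217e082089f8227a18207e082082081f82082082081f8608208208228208a08208200801
 z (n 0 z (n 0 z (n 4261467 z (n 0 z (n 50 z (n 0 z (n
 0x136420d32104d4c426c801a6408198e28de6de8a0ada75d8a185fa5c95d8dc91e89e92581c7e275b79e99ca5d95c75f7a471d0141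
 z (n 2164315 z (n
 0x2c86c8040789f8238207a082081f82086082082082082082081f8208208208208208208208208608208200801 z
 (n 0 z (n
 0x2c86c8640789f7e38217e18608217e079f8617e086281e86285f89e81f81e7e181f7e18608608228208200801 z
 (n 0 z (n 0 z (n
 0xc86c864037e17df86085f82086081f81f85f8a08208218208208208208208208208208208208208208200801 z
 z)))))))))))))))))))))))))))) z)))))) (n 285 (n 0 (n 0 z (n 567 (n 0 z (n 0 z (n 0 z (n 0 z (n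
 2 (n 0 z (n 0 z (n 1 z (n 1 z z)))) (n 0 z (n 0 z (n 0 z (n 0 z (n 0 z (n 0 z (n 0 z (n 0 z (n
 0 z (n 0 z (n 0 z (n 0 z (n 0 z (n 0 z (n 0 z (n 0 z (n 0 z (n 0 z (n 0 z (n 0 z
 z))))))))))))))))))))))))) (n 567 (n 0 z (n 0 z (n 0 z (n 0 z (n 0 z (n 0 z (n 0 z (n 0 z (n 0
 z (n 0 z (n 0 z (n 0 z (n 0 z (n 0 z (n
 0x75365240380ecaec280301d89d8500e0bb2ba8a00c053165040380ca8ca860381a9656e466085e99881c9228dba1c8a08217dd91d7e68209246a285d85f95a82175e8e17623001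
 z (n 0 z (n 0 z (n 0 z (n 0 z (n 0 z (n 0 z (n 0 z (n 0 z (n 0 z (n 0 z
 z))))))))))))))))))))))))) (n 567 (n 0 z (n 0 z (n 0 z (n 0 z (n 0 z (n 0 z (n 0 z (n 0 z (n 0
 z (n 0 z (n 0 z (n 0 z (n 0 z (n 0 z (n 0 z (n 0 z (n 0 z (n 0 z (n 0 z (n 0 z (n 0 z (n 0 z (n
 0 z (n 0 z (n 0 z z))))))))))))))))))))))))) (n 565 (n 0 z (n 0 z (n 0 z (n 0 z z)))) (n 301 (n
 0 z (n 0 z (n 0 z (n 0 z (n 0 z (n 0 z (n 0 z (n 0 z (n 0 z (n 0 z (n 0 z (n 0 z (n 0 z (n 0 z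
 (n
 0x176276140184ecac84603799a6565d6617e299d69aa23862a9ca1b89d8a671e8e78197a185a6e09db9e2a1e75f76275e1001
 z (n 0 z (n 0 z (n 0 z (n 0 z (n 0 z (n 0 z (n 0 z (n 0 z (n 0 z (n 0 z
 z))))))))))))))))))))))))) z)))))) (n 0 (n 573 (n 0 z (n 0 z (n 0 z (n 0 z (n 0 z (n 0 z (n 0 z
 (n 0 z (n 0 z (n 0 z (n 0 z (n 0 z (n 0 z (n 0 z (n 0 z (n 0 z (n 0 z (n 0 z (n 0 z (n 0 z
 z)))))))))))))))))))) (n 573 (n 0 z (n 0 z (n 0 z (n 0 z (n 0 z (n 0 z (n 0 z (n 0 z (n 0 z (n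
 0 z (n 0 z (n 0 z (n 0 z (n 0 z (n 0 z (n 0 z (n 0 z (n 0 z (n 0 z (n 0 z z))))))))))))))))))))
 (n 573 (n 0 z (n 0 z (n 0 z (n 0 z (n 0 z (n 0 z (n 0 z (n 0 z (n 0 z (n 0 z (n 0 z (n 0 z (n 0
 z (n 0 z (n 0 z (n 0 z (n 0 z (n 0 z (n 0 z (n 0 z z)))))))))))))))))))) (n 303 (n 0 z (n 0 z
 (n 0 z (n 0 z z)))) (n 301 (n 0 z (n 0 z (n 0 z (n 0 z (n 0 z (n 0 z (n 0 z (n 0 z (n 0 z (n 0
 z (n 0 z (n 0 z (n 0 z (n 0 z (n 0 z (n 0 z (n 0 z (n 0 z (n 0 z (n 0 z (n 0 z (n 0 z (n 0 z (n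
 0 z (n 0 z (n 0 z (n 0 z (n 0 z z)))))))))))))))))))))))))))) z))))) (n 0 (n 0 z (n 0 z (n 483
 (n 0 z (n 0 z (n 0 z (n 0 z (n 0 z (n 0 z (n 0 z (n 0 z (n 0 z (n 0 z (n 0 z (n 0 z (n 0 z (n 0
 z (n 0 z (n 0 z (n 0 z (n 0 z (n 0 z (n 0 z (n 0 z (n 2 (n 1 z z) (n 0 z (n 0 z (n 0 z (n 0 z
 (n 0 z (n 0 z z)))))))))))))))))))))))))))) (n 49 (n 0 z (n 0 z (n 0 z (n 0 z (n 0 z (n 0 z (n
 0 z (n 0 z (n 0 z (n 0 z (n 0 z (n 0 z (n 0 z (n 0 z (n 0 z (n 0 z (n 0 z (n 0 z (n 0 z (n 0 z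
 (n 2 z (n 0 z (n 0 z (n 0 z (n 0 z (n 0 z z)))))))))))))))))))))))))) z)))) (n 0 (n 0 z (n 243
 (n 0 z (n 0 z (n 0 z (n 0 z (n 0 z (n 0 z (n 0 z (n 0 z (n 0 z (n 0 z (n 0 z (n 0 z (n 0 z (n 0
 z (n 0 z (n 0 z (n 0 z (n 0 z (n 0 z (n 0 z (n 0 z (n 0 z (n 0 z z))))))))))))))))))))))) (n 53
 (n 0 z (n 0 z (n 0 z (n 0 z (n 0 z (n 0 z (n 0 z (n 0 z (n 0 z (n 0 z (n 0 z (n 0 z (n 0 z (n 0
 z (n 0 z (n 0 z (n 0 z (n 0 z (n 0 z (n 0 z (n 0 z (n 0 z (n 0 z z))))))))))))))))))))))) z)))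
 (n 0 (n 531 (n 0 z (n 0 z (n 0 z (n 0 z (n 0 z (n 0 z (n 0 z (n 0 z (n 0 z (n 0 z (n 0 z (n 0 z
 (n 0 z (n 0 z (n 0 z (n 0 z (n 0 z (n 0 z (n 2 (n 1 z z) (n 0 z (n 0 z (n 0 z (n 0 z (n 0 z (n
 0 z (n 0 z z)))))))))))))))))))))))))) (n 529 (n 0 z (n 0 z (n 0 z (n 0 z (n 0 z (n 0 z (n 2 z
 (n 0 z (n 0 z z))))))))) z)) (n 0 (n 241 (n 0 z (n 0 z (n 0 z (n 0 z (n 0 z (n 0 z (n 0 z (n 0
 z (n 0 z (n 0 z (n 0 z (n 0 z (n 0 z (n 0 z (n 0 z (n 0 z (n 0 z (n 0 z (n 0 z (n 0 z (n 0 z (n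
 0 z (n 0 z (n 0 z (n 0 z (n 0 z z)))))))))))))))))))))))))) z) (n 0 z z))))))) (n 0 (n 1 (n
 6496523 z (n 3282443 z (n 3282443 z (n 3282443 z (n 3282443 z (n 3282443 z z)))))) (n 1 (n 316
 z (n 316 z (n 316 z (n 6496523 z (n 316 z (n 316 z z)))))) (n 1 (n 316 z (n 6496523 z (n 316 z
 (n 316 z (n 316 z (n 316 z z)))))) z))) (n 0 z z)))) (n
 0x94325c2134d10e274b1623086942834a661256304a (n 0 (n 477 (n 3282443 z (n 0 z (n 0 z (n 0 z (n 0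
 z z))))) (n 461 (n 0 z (n 0 z (n 3278363 z (n 0 z (n 0 z (n 0 z (n 0 z (n 0 z (n 0 z z)))))))))
 (n 460 (n 2 z (n
 0x8c6417df8607c17be86c80285977a8517ba7ac8528017eb7878177ea7f27928a478783f8217f08488927ed8108078068057b67d77f181b81e8147c77ba8128377e27fe7ff80a8107e27e68288060051
 z (n 3212843 z (n 10 z (n 18 z (n 26 z (n
 0xca8ca82038018007ff8008008008008008008008008008008008008008008008008008008008008008008007fe8008018007ff7ff8008008018018008008008008008008008008008008008008008010811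
 z (n
 0xca8c862078008008008008007ff7ff8018008008007ff8008018008008018018017ff7ff8018008008008007ff7fe8008007ff7ff8008018018017ff8008018008017fe7ff8018018017ff8008008010811
 z (n 34 z (n
 0x946437e08617c17bd86d80285977a8517ba7ac8528017eb7868177ea7f27938a378783f8227ef8478927ee8108068078057b67d77f081b81e8147c87ba8138387e17fe7ff80b8107e27e68278060051
 z (n
 0x46ca8a8020775e8fe7a675c8b57ff8b975c8627b77ec7ec8267b677f83c8577c981788b77682679481a8488c47ff7f879b8417f37ec7888047ff86584078b7af8218197fa7e68288078147d87d484e8000811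
 z (n 0 z z)))))))))))) (n 3 (n 6632459 z (n
 0xe46207cd89779e7988aa80388c72f87e79477d8808017df7428247de7ea7558fe7428628357e68708e47e381980b80b80878d7c07e882982e81f7a879281e8577d17fc7ff8118197d17d883e80a0051
 z (n 42 z (n 0 z (n 50 z (n 58 z (n 0 z z))))))) (n 1 (n 2164299 z (n 0 z (n 0 z z))) (n 0 (n 0
 z (n 0 z (n 6632459 z (n 0 z (n 0 z z))))) z)))))) (n 1 (n 0 (n 0 z (n 0 z (n 0 z (n 0 z (n 55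
 (n 0 z (n 0 z (n 0 z (n 0 z (n 0 z (n 0 z (n 0 z (n 0 z (n 0 z (n 0 z (n 0 z (n 0 z (n 0 z (n 0
 z (n 0 z (n 0 z (n 0 z z))))))))))))))))) (n 55 (n 0 z (n 0 z (n 0 z (n 0 z (n 2 (n 0 z z) (n 0
 z (n 0 z (n 0 z (n 0 z (n 0 z (n 0 z (n 0 z (n 0 z (n 0 z (n 0 z (n 0 z (n 0 z
 z))))))))))))))))) (n 55 (n 0 z (n 0 z (n 0 z (n 0 z (n 0 z (n 0 z (n 0 z (n 0 z (n 0 z (n 0 z
 (n 0 z (n 0 z (n 0 z (n 0 z (n 0 z (n 0 z (n 0 z z))))))))))))))))) z))))))) (n 0 (n 0 z (n 0 z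
 (n 0 z (n 11 (n 7746051 z (n 0 z (n 0 z (n 0 z (n 0 z (n 0 z (n 0 z z))))))) (n 11 (n 0 z (n
 7746051 z (n 0 z (n 0 z (n 0 z (n 0 z (n 0 z z))))))) (n 11 (n 0 z (n 0 z (n 0 z (n 0 z (n 0 z
 (n 0 z (n 0 z z))))))) z)))))) (n 0 (n 0 z (n 0 z (n 7 (n 0 z (n 0 z (n 7746051 z (n 0 z (n 0 z
 (n 0 z (n 0 z (n 0 z (n 0 z (n 0 z (n 0 z z))))))))))) (n 7 (n 0 z (n 0 z (n 0 z (n 0 z (n 0 z
 (n 0 z (n 0 z (n 0 z (n 0 z (n 0 z (n 0 z z))))))))))) (n 7 (n 0 z (n 0 z (n 0 z (n 2 z (n 0 z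
 (n 0 z (n 0 z (n 0 z (n 0 z (n 0 z (n 0 z z))))))))))) z))))) (n 0 (n 0 z (n 11 (n 7746051 z (n
 0 z (n 0 z (n 0 z (n 0 z (n 0 z (n 0 z (n 0 z (n 0 z (n 0 z (n 0 z z))))))))))) (n 11 (n 0 z (n
 0 z (n 0 z (n 0 z (n 0 z (n 0 z (n 0 z (n 0 z (n 0 z (n 0 z (n 0 z z))))))))))) (n 11 (n 0 z (n
 0 z (n 0 z (n 0 z (n 0 z (n 0 z (n 2 z (n 0 z (n 0 z (n 0 z (n 0 z z))))))))))) z)))) (n 0 (n
 1065 (n 0 z (n 0 z (n 0 z (n 0 z (n 0 z (n 0 z (n 0 z (n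
 0xb47657d78797b17ac88880286f7588657aa7978678017e676881d7e57ee7778cc76884e82b7eb85a8b67e98148088098067a37cd7ed8218258197b97a88188457da7fd80080d8147da7e08328070051
 z (n 0 z (n 0 z (n 0 z (n 0 z (n 0 z (n 0 z (n 0 z z))))))))))))))) (n 1065 (n 0 z (n 0 z (n 0
 z (n 0 z (n 2 (n 0 z z) (n 0 z (n 0 z (n 0 z (n 0 z (n 0 z (n 0 z (n 0 z (n 0 z (n 0 z (n 0 z
 z))))))))))))))) (n 1065 (n
 0x25d95d94406008ecaca820782d7a782387d7ae7fc7b383a7d881887279680181084c7f08487fd8b873f8727357c882b82c7dd7eb7f87cf8167f180f7be7f87eb83c7978478307a17a786b8208048317e881f8108288141011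
 z (n 0 z (n 0 z (n 0 z (n 0 z (n 0 z (n 0 z (n 0 z (n 0 z (n 0 z (n 0 z (n 0 z (n 0 z (n 0 z (n
 0 z z))))))))))))))) z))) (n 0 (n 0 z (n 0 z z)) (n 0 (n 0 z z) (n 0 z z)))))))) (n 0 (n 1 (n
 2164299 z (n 2164299 z (n 6632459 z (n 2164299 z (n 2164299 z (n 2164299 z z)))))) (n 0 z (n 0
 z z))) (n 0 z z)))) (n 0x12b15c0e96407591035a8449542158a52144e1174650b13 (n 0 (n 153 (n 0 z (n
 0 z (n 0 z (n 3282443 z z)))) (n 39 (n 0 z (n 3278363 z z)) (n 9 (n 0 z (n 0 z (n 0 z (n 0 z (n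
 0 z (n 6496523 z z)))))) (n 27 (n
 0xeca6a82403807f7f7f847b837b887e8e68867e8591708a827c619980797675976e6992808780b5509a65a489698f547d929676707797780809
 z (n 2 z (n 0 z (n 0 z (n 10 z (n 0 z (n 0 z (n 18 z (n 6496523 z (n 6496523 z (n 0 z
 z))))))))))) (n 1 (n 26 z (n 34 z (n 42 z (n 2164299 z (n 50 z (n
 0x4ca6ca620785857f749a699679aa7a6e5c798c899158b75f7672a6983d7b969d62639d808a7dc163887a9d8e7657636292936c6c748f760809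
 z (n 0 z (n 58 z z)))))))) (n 0 (n 66 z (n 6619675 z (n 0 z (n 0 z (n 0 z (n 0 z (n 0 z (n 0 z
 z)))))))) z)))))) (n 39 (n 0 (n 0 z (n 0 z (n 3 (n 0 z (n 0 z (n 0 z (n 0 z (n 0 z (n 0 z (n 0
 z (n 0 z (n 0 z (n 0 z (n 0 z z))))))))))) (n 3 (n 0 z (n 0 z (n 0 z (n 0 z (n 0 z (n 0 z (n 0
 z (n 0 z (n 0 z (n 0 z (n 0 z z))))))))))) (n 3 (n 7750403 z (n 0 z (n 0 z (n 0 z (n 0 z (n 0 z
 (n 0 z (n 0 z (n 0 z (n 0 z (n 0 z z))))))))))) (n 3 (n 0 z (n 0 z (n 2 (n 0 z (n 1 z z)) (n 0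
 z (n 0 z (n 0 z (n 0 z (n 0 z (n 0 z (n 0 z (n 0 z z))))))))))) (n 3 (n 0 z (n 0 z (n 0 z (n 0
 z (n 0 z (n 0 z (n 0 z (n 0 z (n 0 z (n 2 (n 1 z z) (n 0 z z))))))))))) (n 53 (n 0 z (n 0 z (n
 0 z (n 0 z (n 0 z (n 0 z (n 0 z (n 0 z (n 0 z (n 0 z (n 0 z (n 0 z (n 0 z (n 0 z (n 0 z (n 0 z
 (n 0 z (n 0 z (n 0 z (n 0 z (n 0 z (n 0 z (n 0 z (n 0 z (n 0 z (n 0 z (n 0 z (n 0 z (n 0 z (n 0
 z (n 0 z (n 0 z (n 0 z z))))))))))))))))))))))))))))))))) z)))))))) (n 0 (n 0 z (n 51 (n 0 z (n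
 0 z (n 2 (n 0 z (n 0 z (n 0 z (n 0 z (n 1 z z))))) (n 0 z (n 0 z (n 0 z (n 0 z (n 0 z (n 0 z (n
 0 z (n 0 z (n 0 z (n 0 z (n 0 z (n 0 z (n 0 z (n 0 z (n 0 z (n 0 z (n 0 z (n 0 z (n 0 z (n 0 z
 (n 0 z (n 0 z (n 0 z (n 0 z (n 0 z (n 0 z z))))))))))))))))))))))))))))) (n 51 (n 2 (n 0 z (n 0
 z (n 0 z (n 1 z z)))) (n 0 z (n 0 z (n 0 z (n 0 z (n 0 z (n 0 z (n 0 z (n 0 z (n 0 z (n 0 z (n
 0 z (n 0 z (n 0 z (n 0 z (n 0 z (n 0 z (n 0 z (n 0 z (n 0 z (n 0 z (n 0 z (n 0 z (n 0 z (n 0 z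
 (n 0 z (n 0 z (n 0 z (n 0 z z))))))))))))))))))))))))))))) (n 51 (n 0 z (n 0 z (n 0 z (n 0 z (n
 0 z (n 0 z (n 0 z (n 0 z (n 0 z (n 0 z (n 0 z (n 0 z (n 0 z (n 0 z (n 0 z (n 0 z (n 0 z (n 0 z
 (n 0 z (n 0 z (n 0 z (n 0 z (n 0 z (n 0 z (n 0 z (n 0 z (n 0 z (n 0 z (n 0 z
 z))))))))))))))))))))))))))))) (n 51 (n 0 z (n 0 z (n 0 z (n 0 z (n 0 z (n 0 z (n 0 z (n 0 z (n
 0 z (n 0 z (n 0 z (n 0 z (n 0 z (n 0 z (n 0 z (n 0 z (n 0 z (n 0 z (n 0 z (n 0 z (n 0 z (n 0 z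
 (n 0 z (n 0 z (n 0 z (n 0 z (n 0 z (n 0 z (n 0 z z))))))))))))))))))))))))))))) (n 51 (n 0 z (n
 0 z (n 0 z (n 0 z (n 0 z (n 0 z (n 0 z (n 0 z (n 0 z (n 0 z (n 0 z (n 0 z (n 0 z (n 0 z (n 0 z
 (n 0 z (n 0 z (n 0 z (n 0 z (n 0 z (n 0 z (n 0 z (n 0 z (n 0 z (n 0 z (n 0 z (n 0 z (n 0 z (n 0
 z z))))))))))))))))))))))))))))) (n 53 (n 0 z (n 0 z (n 0 z (n 0 z (n 0 z (n 2 z (n 0 z (n 0 z
 (n 0 z (n 0 z z)))))))))) z))))))) (n 0 (n 51 (n 0 z (n 7750403 z (n 0 z (n 0 z (n 0 z (n 0 z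
 (n 0 z (n 0 z z)))))))) (n 51 (n 7750403 z (n 0 z (n 0 z (n 0 z (n 0 z (n 0 z (n 0 z (n 0 z
 z)))))))) (n 51 (n 0 z (n 0 z (n 0 z (n 7750403 z (n 0 z (n 0 z (n 0 z (n 0 z z)))))))) (n 51
 (n 0 z (n 0 z (n 0 z (n 0 z (n 0 z (n 0 z (n 0 z (n 0 z z)))))))) (n 51 (n 0 z (n 0 z (n 0 z (n
 0 z (n 0 z (n 0 z (n 0 z (n 0 z z)))))))) (n 49 (n 0 z (n 0 z (n 0 z (n 7750403 z (n 0 z (n 0 z
 (n 0 z (n 0 z (n 0 z (n 0 z (n 0 z z))))))))))) z)))))) (n 0 (n 0 z (n 0 z (n 0 z (n 0 z (n 1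
 (n 0 z (n 0 z (n 0 z (n 0 z (n 0 z (n 0 z (n 0 z (n 0 z (n 0 z (n 0 z (n 0 z (n 0 z (n 0 z (n 0
 z (n 0 z (n 0 z (n 0 z (n 0 z (n 0 z (n 0 z (n 0 z (n 0 z (n 0 z (n 0 z (n 0 z (n 0 z (n 0 z
 z))))))))))))))))))))))))))) z))))) (n 0 (n 0 z (n 0 z (n 0 z (n 1 (n 0 z (n 0 z (n 0 z (n 0 z
 (n 0 z (n 0 z (n 0 z (n 0 z (n 0 z (n 0 z (n 0 z (n 0 z (n 0 z (n 0 z (n 0 z (n 0 z (n 0 z (n 0
 z (n 0 z (n 0 z (n 0 z (n 0 z (n 0 z z))))))))))))))))))))))) z)))) (n 0 (n 0 z (n 0 z (n 1 (n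
 0 z (n 7750403 z (n 0 z (n 0 z (n 0 z (n 0 z (n 0 z (n 0 z (n 0 z (n 0 z (n 0 z z)))))))))))
 z))) (n 0 (n 0 z (n 1 (n 0 z (n 0 z (n 6566003 z (n 0 z (n 0 z (n 0 z (n 0 z (n 0 z (n 0 z (n 0
 z (n 0 z (n 0 z z)))))))))))) z)) (n 0 (n 241 (n 0 z (n 0 z (n 0 z (n 0 z (n 2 z (n 0 z (n 0 z
 (n 0 z (n 0 z (n 0 z (n 0 z (n 0 z z)))))))))))) z) (n 0 z z))))))))) (n 0 (n 0 z (n 1 (n
 6496523 z (n 3278363 z (n 3278363 z (n 3278363 z (n 3278363 z (n 3278363 z z)))))) z)) (n 0 z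
 z)))) (n 0x2449a11d75811266c168e50b571024bd089944812a222e511c312b4189310862441312240 (n 0x22449
 (n 599 (n 2 z (n 0 z (n 3282443 z (n 0 z (n 0 z (n 0 z z)))))) (n 598 (n 10 z (n 3278363 z (n
 18 z (n 26 z (n 34 z z))))) (n 129 (n 0 z (n 0 z (n 0 z (n 42 z (n 50 z (n 3212843 z (n 58 z
 z))))))) (n 27 (n 66 z (n 74 z (n 2164283 z (n 82 z z)))) (n 1 (n 2164299 z (n 0 z (n 0 z (n 0
 z (n 0 z (n 0 z (n 90 z z))))))) (n 0 (n 6624043 z (n 98 z (n 106 z (n 0 z (n 0 z z)))))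
 z)))))) (n 27 (n 0 (n 79 (n 0 z (n 0 z (n 0 z (n 0 z (n 0 z (n 0 z (n 0 z (n 0 z (n 0 z (n 0 z
 (n 0 z (n 0 z (n 0 z (n 0 z (n 0 z (n 0 z (n 0 z (n 0 z (n 0 z (n 0 z (n 0 z (n 0 z (n 0 z (n 0
 z (n 0 z (n 0 z (n 0 z z))))))))))))))))))))))))))) (n 79 (n 0 z (n 2 (n 0 z (n 0 z (n 1 z (n 1
 z (n 1 z (n 1 z (n 1 z (n 2 (n 0 z (n 0 z (n 0 (n 220 z z) (n 0 z (n 0 z (n 0 z z)))))) (n 1 z
 (n 1 z (n 1 z z))))))))))) (n 0 z (n 0 z (n 0 z (n 0 z (n 0 z (n 0 z (n 0 z (n 0 z (n 0 z (n 0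
 z (n 0 z (n 0 z (n 0 z (n 0 z (n 0 z (n 0 z (n 0 z (n 0 z (n 0 z (n 0 z (n 0 z (n 0 z (n 0 z (n
 0 z (n 0 z z))))))))))))))))))))))))))) (n 79 (n 0 z (n 0 z (n 0 z (n 0 z (n 0 z (n 0 z (n 0 z
 (n 0 z (n 0 z (n 0 z (n 0 z (n 0 z (n 0 z (n 0 z (n 0 z (n 0 z (n 0 z (n 0 z (n 0 z (n 0 z (n 0
 z (n 0 z (n 0 z (n 0 z (n 0 z (n 0 z (n 0 z z))))))))))))))))))))))))))) (n 79 (n 0 z (n 0 z (n
 0 z (n 0 z (n 0 z (n 0 z (n 0 z (n 0 z (n 0 z (n 0 z (n 0 z (n 0 z (n 0 z (n 0 z (n 0 z (n 0 z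
 (n 2 (n 2 (n 0 z (n 0 z (n 0 z (n 0 z (n 0 z (n 0 z z)))))) (n 1 z (n 2 (n 0 z (n 0 z (n 0 z (n
 0 z (n 0 z (n 0 z z)))))) (n 1 z (n 2 (n 0 z (n 0 z (n 0 z (n 0 z (n 0 z (n 0 z z)))))) (n 2 (n
 0 z (n 0 z (n 0 z (n 0 z (n 0 z (n 0 z z)))))) (n 1 z (n 2 (n 0 z (n 0 z (n 0 z (n 0 z (n 0 z
 (n 0 z z)))))) (n 1 z z))))))))) (n 0 z (n 0 z (n 0 z (n 0 z (n 0 z (n 0 z (n 0 z (n 0 z (n 0 z
 (n 0 z z))))))))))))))))))))))))))) (n 19 (n 0 z (n 0 z (n 0 z (n 0 z (n 2 (n 0 z (n 0 z (n 1 z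
 (n 2 (n 0 z (n 0 z (n 0 z (n 0 z (n 0 z (n 0 z z)))))) (n 2 (n 0 z (n 0 z (n 0 z (n 0 z (n 0 z
 (n 0 z z)))))) (n 1 z (n 2 (n 0 z (n 0 z (n 0 z (n 0 z (n 0 z (n 0 z z)))))) (n 1 z z))))))))
 (n 0 z (n 0 z (n 0 z (n 0 z (n 0 z (n 0 z z))))))))))) (n 19 (n 0 z (n 0 z (n 0 z (n 0 z (n 0 z
 (n 0 z (n 0 z (n 0 z (n 0 z (n 0 z (n 0 z z))))))))))) (n 19 (n 0 z (n 0 z (n 0 z (n 0 z (n 0 z
 (n 0 z (n 0 z (n 0 z (n 2 (n 1 z (n 2 (n 0 z (n 0 z (n 0 z (n 0 z (n 0 z (n 0 z z)))))) (n 2 (n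
 0 z (n 0 z (n 0 z (n 0 z (n 0 z (n 0 z z)))))) (n 1 z (n 2 (n 0 z (n 0 z (n 0 z (n 0 z (n 0 z
 (n 0 z z)))))) (n 1 z z)))))) (n 0 z (n 0 z z))))))))))) (n 55 (n 0 z (n 0 z (n 0 z (n 0 z (n 0
 z (n 0 z (n 0 z (n 0 z (n 0 z (n 0 z (n 0 z (n 0 z (n 0 z (n 0 z z)))))))))))))) (n 55 (n 0 z
 (n 0 z (n 0 z (n 0 z (n 0 z (n 0 z (n 0 z (n 0 z (n 2 (n 0 z (n 1 z (n 2 (n 0 z (n 0 z (n 0 z
 (n 0 z (n 0 z (n 0 z z)))))) (n 1 z z)))) (n 0 z (n 0 z (n 0 z (n 0 z (n 0 z z)))))))))))))) (n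
 55 (n 0 z (n 0 z (n 0 z (n 0 z (n 0 z (n 0 z (n 0 z (n 0 z (n 0 z (n 0 z (n 0 z (n 0 z (n 0 z
 (n 2 (n 2 (n 0 z (n 0 z (n 0 z (n 0 z (n 0 z (n 0 z z)))))) (n 2 (n 0 z (n 0 z (n 0 z (n 0 z (n
 0 z (n 0 z z)))))) (n 1 z z))) z)))))))))))))) (n 3 (n 0 z (n 0 z (n 0 z (n 0 z (n 0 z z)))))
 (n 1 (n 0 z (n 0 z (n 2 (n 0 z z) (n 0 z (n 0 z (n 0 z z)))))) (n 1 (n 0 z (n 0 z (n 0 z (n 0 z
 (n 0 z (n 0 z z)))))) z))))))))))))) (n 0 (n 0 z (n 0 z (n 0 z (n 259 (n 0 z (n 0 z (n 0 z (n 0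
 z (n 0 z (n 0 z (n 0 z (n 0 z (n 0 z (n 0 z (n 0 z (n 0 z (n 0 z (n 0 z (n 0 z (n 0 z (n 0 z (n
 0 z (n 0 z (n 0 z (n 2 (n 0 z (n 0 z (n 1 z (n 2 (n 0 z (n 0 z (n 0 z (n 0 z (n 0 z (n 0 z
 z)))))) (n 2 (n 0 z (n 0 z (n 0 z (n 0 z (n 0 z (n 0 z z)))))) (n 1 z (n 2 (n 0 z (n 0 z (n 0 z
 (n 0 z (n 0 z (n 0 z z)))))) (n 1 z z)))))))) (n 0 z (n 0 z (n 0 z (n 0 z (n 0 z (n 0 z (n 0 z
 (n 0 z (n 0 z z)))))))))))))))))))))))))))))) (n 259 (n 0 z (n 0 z (n 0 z (n 0 z (n 0 z (n 0 z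
 (n 0 z (n 0 z (n 0 z (n 0 z (n 0 z (n 0 z (n 0 z (n 0 z (n 0 z (n 0 z (n 0 z (n 0 z (n 0 z (n 0
 z (n 0 z (n 0 z (n 0 z (n 0 z (n 0 z (n 0 z (n 0 z (n 0 z (n 0 z (n 0 z
 z)))))))))))))))))))))))))))))) (n 259 (n 0 z (n 0 z (n 0 z (n 0 z (n 0 z (n 0 z (n 0 z (n 0 z
 (n 0 z (n 0 z (n 0 z (n 0 z (n 0 z (n 0 z (n 0 z (n 0 z (n 0 z (n 0 z (n 0 z (n 0 z (n 0 z (n 0
 z (n 0 z (n 0 z (n 0 z (n 0 z (n 2 (n 1 z (n 2 (n 0 z (n 0 z (n 0 z (n 0 z (n 0 z (n 0 z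
 z)))))) (n 2 (n 0 z (n 0 z (n 0 z (n 0 z (n 0 z (n 0 z z)))))) (n 1 z (n 2 (n 0 z (n 0 z (n 0 z
 (n 0 z (n 0 z (n 0 z z)))))) (n 1 z z)))))) (n 0 z (n 0 z (n 0 z
 z)))))))))))))))))))))))))))))) (n 295 (n 0 z (n 0 z (n 0 z (n 0 z (n 0 z (n 0 z (n 0 z (n 0 z
 (n 0 z (n 0 z z)))))))))) (n 295 (n 0 z (n 0 z (n 0 z (n 0 z (n 2 (n 0 z (n 1 z (n 2 (n 0 z (n
 0 z (n 0 z (n 0 z (n 0 z (n 0 z z)))))) (n 1 z z)))) (n 0 z (n 0 z (n 0 z (n 0 z (n 0 z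
 z)))))))))) (n 295 (n 0 z (n 0 z (n 0 z (n 0 z (n 0 z (n 0 z (n 0 z (n 0 z (n 0 z (n 2 (n 2 (n
 0 z (n 0 z (n 0 z (n 0 z (n 0 z (n 0 z z)))))) (n 2 (n 0 z (n 0 z (n 0 z (n 0 z (n 0 z (n 0 z
 z)))))) (n 1 z z))) z)))))))))) (n 243 (n 0 z (n 0 z (n 0 z (n 0 z (n 0 z (n 0 z (n 0 z (n 0 z
 (n 0 z (n 0 z (n 0 z (n 0 z (n 0 z (n 0 z (n 0 z (n 0 z z)))))))))))))))) (n 293 (n 2 (n 0 z z)
 (n 0 z (n 0 z (n 0 z (n 0 z (n 0 z (n 0 z (n 0 z (n 0 z (n 0 z (n 0 z (n 0 z (n 0 z (n 0 z (n 0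
 z (n 0 z (n 0 z (n 0 z (n 0 z (n 0 z (n 0 z (n 0 z (n 0 z (n 0 z (n 0 z (n 0 z (n 0 z (n 0 z (n
 0 z (n 0 z (n 0 z (n 0 z (n 0 z z))))))))))))))))))))))))))))))))) (n 293 (n 0 z (n 0 z (n 0 z
 (n 0 z (n 0 z (n 0 z (n 0 z (n 0 z (n 0 z (n 0 z (n 0 z (n 0 z (n 0 z (n 0 z (n 0 z (n 0 z (n 0
 z (n 0 z (n 0 z (n 0 z (n 0 z (n 0 z (n 0 z (n 0 z (n 0 z (n 0 z (n 0 z (n 0 z (n 0 z (n 0 z (n
 0 z (n 0 z (n 0 z z))))))))))))))))))))))))))))))))) z)))))))))))) (n 0 (n 0 z (n 0 z (n 1053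
 (n 0 z (n 0 z (n 0 z (n 0 z (n 0 z (n 0 z (n 0 z (n 0 z (n 0 z (n 0 z (n 0 z (n 0 z (n 0 z (n 0
 z (n 0 z z))))))))))))))) (n 1053 (n 0 z (n 2 (n 0 z (n 1 z (n 1 z (n 2 (n 0 z (n 0 z (n 0 (n
 1700 z z) (n 0 z (n 0 z (n 0 z z)))))) (n 1 z (n 1 z (n 1 z z))))))) (n 0 z (n 0 z (n 0 z (n 0
 z (n 0 z (n 0 z (n 0 z (n 0 z (n 0 z (n 0 z (n 0 z (n 0 z (n 0 z z))))))))))))))) (n 1053 (n 0
 z (n 0 z (n 0 z (n 0 z (n 0 z (n 0 z (n 0 z (n 0 z (n 0 z (n 0 z (n 0 z (n 0 z (n 2 (n 1 z (n 2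
 (n 0 z (n 0 z (n 0 z (n 0 z (n 0 z (n 0 z z)))))) (n 2 (n 0 z (n 0 z (n 0 (n 8851539 z z) (n 0
 z (n 0 z (n 0 z z)))))) (n 1 z (n 2 (n 0 z (n 0 z (n 0 z (n 0 z (n 0 z (n 0 z z)))))) (n 1 z
 z)))))) (n 0 z (n 0 z z))))))))))))))) (n 425 (n 2 (n 0 z (n 0 z (n 1 z (n 1 z (n 1 z z))))) (n
 0 z (n 0 z (n 0 z (n 0 z (n 0 z (n 0 z (n 0 z (n 0 z (n 0 z z)))))))))) (n 425 (n 0 z (n 0 z (n
 0 z (n 0 z (n 0 z (n 2 (n 0 z (n 1 z (n 2 (n 0 z (n 0 z (n 0 z (n 0 z (n 0 z (n 0 z z)))))) (n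
 1 z z)))) (n 0 z (n 0 z (n 0 z (n 0 z z)))))))))) (n 425 (n 0 z (n 0 z (n 0 z (n 2 (n 2 (n 0 z
 (n 0 z (n 0 (n 8521579 z z) (n 0 z (n 0 z (n 0 z z)))))) (n 2 (n 0 z (n 0 z (n 0 z (n 0 z (n 0
 z (n 0 z z)))))) (n 2 (n 0 z (n 0 z (n 0 (n 8521579 z z) (n 0 z (n 0 z (n 0 z z)))))) z))) (n 0
 z (n 0 z (n 0 z (n 0 z (n 0 z (n 0 z z)))))))))) (n 483 (n 0 z (n 0 z (n 0 z (n 0 z (n 0 z (n 0
 z (n 0 z (n 0 z (n 0 z (n 0 z (n 0 z (n 2 (n 1 z (n 1 z z)) (n 0 z z))))))))))))) (n 401 (n 0 z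
 (n 0 z (n 0 z (n 0 z (n 0 z (n 0 z (n 0 z (n 0 z (n 0 z (n 2 (n 0 z z) (n 0 z (n 0 z (n 0 z
 z))))))))))))) (n 401 (n 2 z (n 0 z (n 0 z (n 0 z (n 0 z (n 0 z (n 0 z (n 0 z (n 0 z (n 0 z (n
 0 z (n 0 z (n 0 z z))))))))))))) z))))))))))) (n 0 (n 0 z (n 1413 (n 0 z (n 0 z (n 0 z (n 0 z
 (n 2 (n 0 z (n 0 z (n 2 (n 0 z (n 0 z (n 0 z (n 0 z (n 0 z (n 0 z z)))))) (n 2 (n 0 z (n 0 z (n
 0 z (n 0 z (n 0 z (n 0 z z)))))) (n 1 z (n 2 (n 0 z (n 0 z (n 0 z (n 0 z (n 0 z (n 0 z z))))))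
 (n 2 (n 0 z (n 0 z (n 0 z (n 0 z (n 0 z (n 0 z z)))))) (n 2 (n 0 z (n 0 z (n 0 (n 8872771 z z)
 (n 0 z (n 0 z (n 0 z z)))))) z)))))))) z))))) (n 1413 (n 2 (n 0 z (n 1 z (n 2 (n 0 z (n 0 z (n
 0 z (n 0 z (n 0 z (n 0 z z)))))) (n 2 (n 0 z (n 0 z (n 0 z (n 0 z (n 0 z (n 0 z z)))))) (n 1 z
 (n 2 (n 0 z (n 0 z (n 0 z (n 0 z (n 0 z (n 0 z z)))))) (n 1 z z))))))) (n 0 z (n 0 z (n 0 z (n
 0 z z))))) (n 1413 (n 0 z (n 0 z (n 0 z (n 0 z (n 0 z z))))) (n 1409 (n 0 z (n 0 z (n 0 z (n 0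
 z z)))) (n 1409 (n 0 z (n 0 z (n 2 (n 0 z (n 2 (n 0 z (n 0 z (n 0 z (n 0 z (n 0 z (n 0 z
 z)))))) (n 2 (n 0 z (n 0 z (n 0 z (n 0 z (n 0 z (n 0 z z)))))) (n 2 (n 0 z (n 0 z (n 0 (n 2020
 z z) (n 0 z (n 0 z (n 0 z z)))))) z)))) (n 0 z z)))) (n 1409 (n 0 z (n 0 z (n 0 z (n 0 z z))))
 (n 63 (n 0 z (n 0 z (n 0 z (n 0 z (n 0 z (n 0 z (n 0 z (n 0 z (n 0 z (n 0 z (n 0 z (n 0 z (n 0
 z (n 0 z (n 0 z (n 0 z (n 0 z (n 0 z (n 0 z (n 0 z (n 0 z (n 0 z (n 0 z (n 0 z (n 0 z (n 0 z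
 z)))))))))))))))))))))))))) (n 505 (n 2 (n 0 z z) (n 0 z (n 0 z (n 0 z z)))) (n 505 (n 0 z (n 0
 z (n 0 z (n 0 z z)))) z)))))))))) (n 0 (n 369 (n 0 z (n 0 z (n 0 z (n 0 z (n 0 z (n 0 z (n 0 z
 z))))))) (n 369 (n 2 (n 0 z (n 1 z (n 2 (n 0 z (n 0 z (n 0 z (n 0 z (n 0 z (n 0 z z)))))) (n 2
 (n 0 z (n 0 z (n 0 z (n 0 z (n 0 z (n 0 z z)))))) (n 1 z (n 2 (n 0 z (n 0 z (n 0 z (n 0 z (n 0
 z (n 0 z z)))))) (n 1 z z))))))) (n 0 z (n 0 z (n 0 z (n 0 z (n 0 z (n 0 z z))))))) (n 369 (n 0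
 z (n 0 z (n 0 z (n 0 z (n 0 z (n 0 z (n 2 (n 1 z (n 2 (n 0 z (n 0 z (n 0 z (n 0 z (n 0 z (n 0 z
 z)))))) (n 1 z (n 1 z (n 2 (n 0 z (n 0 z (n 0 z (n 0 z (n 0 z (n 0 z z)))))) (n 1 z z))))))
 z))))))) (n 1169 (n 2 (n 0 z (n 0 z (n 1 z (n 2 (n 0 z (n 0 z (n 0 z (n 0 z (n 0 z (n 0 z
 z)))))) (n 1 z z))))) (n 0 z (n 0 z (n 0 z (n 0 z (n 0 z (n 0 z z))))))) (n 1169 (n 0 z (n 0 z
 (n 0 z (n 0 z (n 0 z (n 0 z (n 0 z z))))))) (n 1169 (n 0 z (n 0 z (n 0 z (n 0 z (n 0 z (n 0 z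
 (n 0 z z))))))) (n 373 (n 2 (n 2 (n 0 z (n 0 z (n 0 z (n 0 z (n 0 z (n 0 z z)))))) (n 1 z z))
 (n 0 z (n 0 z (n 0 z (n 0 z (n 0 z (n 0 z (n 0 z (n 0 z (n 0 z (n 0 z (n 0 z (n 0 z (n 0 z (n 0
 z (n 0 z (n 0 z (n 0 z (n 0 z (n 0 z (n 0 z (n 0 z (n 0 z (n 0 z (n 0 z (n 0 z
 z)))))))))))))))))))))))))) (n 793 (n 0 z (n 0 z (n 0 z (n 0 z (n 0 z (n 0 z (n 0 z (n 0 z
 z)))))))) (n 793 (n 2 z (n 0 z (n 0 z (n 0 z (n 0 z (n 0 z (n 0 z (n 0 z z)))))))) z)))))))))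
 (n 0 (n 0 z (n 0 z (n 1181 (n 2 (n 0 z (n 0 z (n 1 z (n 2 (n 0 z (n 0 z (n 0 z (n 0 z (n 0 z (n
 0 z z)))))) (n 1 z z))))) (n 0 z (n 0 z (n 0 z (n 0 z (n 0 z (n 0 z z))))))) (n 1181 (n 0 z (n
 0 z (n 0 z (n 0 z (n 0 z (n 0 z (n 0 z z))))))) (n 1181 (n 0 z (n 0 z (n 0 z (n 0 z (n 0 z (n 0
 z (n 0 z z))))))) (n 255 (n 0 z (n 0 z (n 2 (n 2 (n 0 z (n 0 z (n 0 z (n 0 z (n 0 z (n 0 z
 z)))))) (n 1 z z)) (n 0 z (n 0 z z))))) (n 845 (n 0 z (n 0 z (n 0 z (n 0 z (n 0 z (n 0 z (n 0 z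
 z))))))) (n 845 (n 2 z (n 0 z (n 0 z (n 0 z (n 0 z (n 0 z (n 0 z z))))))) z)))))))) (n 0 (n 0 z
 (n 535 (n 0 z (n 0 z (n 0 z (n 0 z (n 0 z (n 0 z (n 0 z (n 0 z (n 0 z (n 0 z (n 0 z
 z))))))))))) (n 535 (n 0 z (n 0 z (n 0 z (n 2 (n 0 z (n 1 z (n 2 (n 0 z (n 0 z (n 0 z (n 0 z (n
 0 z (n 0 z z)))))) (n 1 z z)))) (n 0 z (n 0 z (n 0 z (n 0 z (n 0 z (n 0 z (n 0 z z)))))))))))
 (n 535 (n 0 z (n 0 z (n 0 z (n 0 z (n 0 z (n 0 z (n 0 z (n 0 z (n 0 z (n 0 z (n 2 (n 2 (n 0 z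
 (n 0 z (n 0 z (n 0 z (n 0 z (n 0 z z)))))) (n 2 (n 0 z (n 0 z (n 0 z (n 0 z (n 0 z (n 0 z
 z)))))) (n 1 z z))) z))))))))))) (n 531 (n 0 z (n 0 z (n 0 z (n 0 z (n 0 z (n 0 z (n 0 z (n 0 z
 z)))))))) (n 529 (n 0 z (n 0 z (n 2 (n 0 z z) (n 0 z (n 0 z (n 0 z (n 0 z (n 0 z (n 0 z (n 0 z
 (n 0 z (n 0 z (n 0 z (n 0 z (n 0 z (n 0 z (n 0 z (n 0 z (n 0 z (n 0 z (n 0 z (n 0 z (n 0 z (n 0
 z (n 0 z (n 0 z (n 0 z z))))))))))))))))))))))))))) (n 529 (n 0 z (n 0 z (n 0 z (n 0 z (n 0 z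
 (n 0 z (n 0 z (n 0 z (n 0 z (n 0 z (n 0 z (n 0 z (n 0 z (n 0 z (n 0 z (n 0 z (n 0 z (n 0 z (n 0
 z (n 0 z (n 0 z (n 0 z (n 0 z (n 0 z (n 0 z (n 0 z (n 0 z z))))))))))))))))))))))))))) z)))))))
 (n 0 (n 267 (n 0 z (n 0 z (n 0 z (n 0 z (n 0 z (n 0 z (n 0 z (n 0 z (n 0 z (n 0 z (n 0 z (n 0 z
 (n 0 z (n 0 z (n 0 z (n 0 z (n 0 z (n 0 z (n 0 z (n 0 z (n 0 z (n 0 z (n 0 z (n 0 z (n 2 (n 0 z
 (n 0 z (n 1 z (n 2 (n 0 z (n 0 z (n 0 z (n 0 z (n 0 z (n 0 z z)))))) (n 1 z z))))) (n 0 z (n 0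
 z (n 0 z (n 0 z (n 0 z (n 0 z (n 0 z z)))))))))))))))))))))))))))))))) (n 267 (n 0 z (n 0 z (n
 0 z (n 0 z (n 0 z (n 0 z (n 0 z (n 0 z (n 0 z (n 0 z (n 0 z (n 0 z (n 0 z (n 0 z (n 0 z (n 0 z
 (n 0 z (n 0 z (n 0 z (n 0 z (n 0 z (n 0 z (n 0 z (n 0 z (n 0 z (n 0 z (n 0 z (n 0 z (n 0 z (n 0
 z (n 0 z (n 0 z z)))))))))))))))))))))))))))))))) (n 267 (n 0 z (n 0 z (n 0 z (n 0 z (n 0 z (n
 0 z (n 0 z (n 0 z (n 0 z (n 0 z (n 0 z (n 0 z (n 0 z (n 0 z (n 0 z (n 0 z (n 0 z (n 0 z (n 0 z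
 (n 0 z (n 0 z (n 0 z (n 0 z (n 0 z (n 0 z (n 0 z (n 0 z (n 0 z (n 0 z (n 0 z (n 0 z (n 0 z
 z)))))))))))))))))))))))))))))))) (n 831 (n 0 z (n 0 z (n 0 z (n 0 z (n 2 (n 2 (n 0 z (n 0 z (n
 0 z (n 0 z (n 0 z (n 0 z z)))))) (n 1 z z)) (n 0 z z)))))) (n 833 (n 0 z (n 0 z (n 0 z (n 0 z
 (n 0 z (n 0 z (n 2 (n 0 z z) z))))))) (n 833 (n 2 z (n 0 z (n 0 z (n 0 z (n 0 z (n 0 z (n 0 z
 z))))))) z)))))) (n 0 (n 0 z (n 0 z (n 735 (n 0 z (n 0 z (n 0 z (n 0 z (n 0 z (n 0 z (n 0 z (n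
 0 z (n 0 z (n 0 z z)))))))))) (n 733 (n 0 z (n 0 z (n 2 (n 0 z z) (n 0 z (n 0 z (n 0 z (n 0 z
 (n 0 z (n 0 z z))))))))) (n 733 (n 0 z (n 0 z (n 0 z (n 0 z (n 0 z (n 0 z (n 0 z (n 0 z (n 0 z
 z))))))))) z))))) (n 0 (n 0 z (n 51 (n 0 z (n 0 z (n 0 z (n 2 (n 2 (n 0 z (n 0 z (n 0 z (n 0 z
 (n 0 z (n 0 z z)))))) (n 1 z z)) (n 0 z z))))) (n 49 (n 0 z (n 0 z (n 0 z (n 0 z z)))) (n 49 (n
 0 z (n 0 z (n 2 z (n 0 z z)))) z)))) (n 0 (n 51 (n 0 z (n 0 z (n 0 z (n 0 z (n 0 z (n 0 z (n 0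
 z (n 2 (n 2 (n 0 z (n 0 z (n 0 z (n 0 z (n 0 z (n 0 z z)))))) (n 1 z z)) z)))))))) (n 49 (n 0 z
 (n 0 z (n 0 z (n 0 z (n 0 z (n 0 z z)))))) (n 49 (n 0 z (n 0 z (n 0 z (n 2 z (n 0 z (n 0 z
 z)))))) z))) (n 0 (n 961 (n 0 z (n 2 (n 0 z z) (n 0 z (n 0 z (n 0 z (n 0 z (n 0 z (n 0 z (n 0 z
 z))))))))) (n 961 (n 0 z (n 0 z (n 0 z (n 0 z (n 0 z (n 0 z (n 0 z (n 0 z (n 0 z z))))))))) z))
 (n 0 (n 0 z z) (n 0 z z)))))))))))))) (n 0 (n 1 (n 3280995 z (n 2 z (n 4796 z (n 3282443 z (n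
 4796 z (n 4796 z z)))))) (n 1 (n 4796 z (n 6624043 z (n 4796 z (n 4796 z (n 4796 z (n 4796 z
 z)))))) (n 1 (n 2164283 z (n 2164283 z (n 2164283 z (n 2164283 z (n 6624043 z (n 2164283 z
 z)))))) (n 1 (n 4796 z (n 5449243 z (n 4796 z (n 4796 z (n 4796 z (n 5517667 z z)))))) z)))) (n
 0 (n 0x811d75bb05a39285abba1132911172911c3144c421 (n 0 (n 0 (n 7741699 z (n 7741699 z (n
 7741699 z (n 7741699 z (n 7741699 z (n 7741699 z z)))))) z) (n 0 (n 1 (n 1 (n 7749939 z (n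
 7749939 z (n 7749939 z (n 7749939 z (n 7749939 z (n 7749939 z z)))))) (n 0 z (n 1 (n 4796 z (n
 4796 z (n 4796 z (n 4796 z (n 4796 z (n 4796 z z)))))) (n 0 z (n 1 (n 7475299 z (n 7475299 z (n
 7475299 z (n 7475299 z (n 7475299 z (n 7475299 z z)))))) z))))) (n 598 (n 1 (n 7741699 z (n
 7741699 z (n 7741699 z (n 7741699 z (n 7741699 z (n 7741699 z z)))))) (n 1 (n 7741699 z (n
 7741699 z (n 7741699 z (n 7741699 z (n 7741699 z (n 7741699 z z)))))) (n 1 (n 7475299 z (n 2 z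
 (n 1276 z (n 7476747 z (n 1276 z (n 1276 z z)))))) (n 1 (n 7475299 z (n 1276 z (n 1276 z (n
 1276 z (n 1276 z (n 7476747 z z)))))) (n 1 (n 7475299 z (n 1276 z (n 1276 z (n 10 z (n 1276 z
 (n 7476747 z z)))))) z))))) (n 129 (n 0 z (n 0 z (n 0 z (n 1 (n 7475299 z (n 2188 z (n 2188 z
 (n 18 z (n 7538203 z (n 7476747 z z)))))) (n 1 (n 7741699 z (n 7741699 z (n 7741699 z (n
 7741699 z (n 7741699 z (n 7741699 z z)))))) (n 1 (n 7741699 z (n 7741699 z (n 7741699 z (n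
 7741699 z (n 7741699 z (n 7741699 z z)))))) (n 1 (n 7475299 z (n 2188 z (n 2188 z (n 7538203 z
 (n 26 z (n 7476747 z z)))))) z))))))) (n 27 (n 1 (n 7741699 z (n 7741699 z (n 7741699 z (n
 7741699 z (n 7741699 z (n 7741699 z z)))))) (n 1 (n 7475299 z (n 3340 z (n 3340 z (n 34 z (n
 7476747 z (n 7538203 z z)))))) (n 1 (n 7475299 z (n 7538203 z (n 2164539 z (n 7476747 z (n
 2164539 z (n 2164539 z z)))))) (n 1 (n 7475299 z (n 3340 z (n 3340 z (n 7476747 z (n 42 z (n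
 6635891 z z)))))) z)))) (n 513 (n 1 (n 7741699 z (n 7749939 z (n 7749939 z (n 7749939 z (n
 7749939 z (n 7749939 z z)))))) (n 0 z (n 1 (n 7741699 z (n 7476747 z (n 7753995 z (n 3916 z (n
 3916 z (n 3916 z z)))))) (n 0 z (n 1 (n 7741699 z (n 7475299 z (n 7475299 z (n 7475299 z (n
 7475299 z (n 7475299 z z)))))) z))))) (n 0 (n 1 (n 7475299 z (n 7753995 z (n 7753995 z (n
 7753995 z (n 7753995 z (n 7753995 z z)))))) (n 1 (n 7475299 z (n 5068 z (n 5068 z (n 50 z (n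
 7538203 z (n 7476747 z z)))))) (n 1 (n 7741699 z (n 7741699 z (n 7741699 z (n 7741699 z (n
 7741699 z (n 7741699 z z)))))) (n 0 z (n 0 z z))))) (n 27 (n 1 (n 7741699 z (n 7741699 z (n
 7741699 z (n 7741699 z (n 7741699 z (n 7741699 z z)))))) (n 1 (n 4796 z (n 7749939 z (n 4796 z
 (n 4796 z (n 4796 z (n 4796 z z)))))) (n 1 (n 2164539 z (n 7749939 z (n 2164539 z (n 2164539 z
 (n 7672619 z (n 2164539 z z)))))) (n 1 (n 4796 z (n 7749939 z (n 4796 z (n 4796 z (n 4796 z (n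
 5517683 z z)))))) z)))) z))))))) (n 0 (n 0 (n 0 z (n 0 z (n 0 z (n 0 z (n 0 z (n 0 z (n 0 z
 z))))))) (n 0 (n 0 z (n 0 z (n 0 z (n 0 z (n 0 z (n 0 z z)))))) (n 0 (n 0 z (n 0 z (n 0 z (n 0
 z (n 0 z z))))) (n 0 (n 0 z (n 0 z (n 0 z (n 0 z z)))) (n 0 (n 0 z (n 0 z (n 0 z z))) (n 0 (n 0
 z (n 0 z z)) (n 0 (n 0 z z) z))))))) (n 0 (n 159 (n 0 (n 0 z (n 0 z (n 0 z (n 0 z (n 0 (n
 0x14e108454210698427b9279867c9280837c90867082757f99937e7a877e816580739e807e607e8577676190b59b9d5981809aa675686b7b96817000c9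
 z z) (n 0 z (n 0 z z))))))) (n 0 (n 0 z (n 0 z (n 0 z (n 0 z (n 0 z (n 0 z (n 0 z z))))))) (n 0
 (n 0 z (n 0 (n 8872771 z z) (n 0 (n 8872771 z z) (n 0 z (n 0 z (n 0 z (n 0 z z))))))) (n 0 (n 0
 z (n 0 z (n 0 z (n 0 z (n 0 z (n 0 z (n 0 z z))))))) (n 0 (n 0 z (n 0 (n 8721195 z z) (n 0 z (n
 0 z (n 0 z (n 0 (n 8721195 z z) (n 0 (n 8721195 z z) z))))))) (n 0 (n 0 z (n 0 z (n 0 z (n 0 z
 (n 0 z (n 0 z (n 0 z z))))))) (n 0 (n 0 z (n 0 z (n 0 z (n 0 z (n 0 z (n 0 z (n 0 z z))))))) (n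
 0 (n 0 z (n 0 z (n 0 z (n 0 z (n 0 z (n 0 z (n 0 z z))))))) (n 0 (n 0 z (n 0 z (n 0 z (n 0 z (n
 0 z (n 0 z (n 0 z z))))))) (n 0 (n 0 z (n 0 z (n 0 (n
 0xd87382082082082082086082081f7df7e18208208217df81f8608208208608208218207df8218200041 z (n
 8783707 z z)) (n 0 z (n 0 (n 8787803 z (n 0x10cb084e070821 z z)) (n 0 z (n 0 (n
 0xd87382082082082082086082081f7df7e18208208217df81f8608208208608208218207df8218200041 z (n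
 8783707 z z)) z))))))) (n 0 (n 0 z (n 0 (n 8798515 z z) (n 0 (n 8798515 z z) (n 0 z (n 0 z (n 0
 z (n 0 z z))))))) (n 0 (n 0 z (n 0 z (n 0 (n 8798515 z z) (n 0 z (n 0 (n 8798515 z z) (n 0 z (n
 0 (n 8798515 z z) z))))))) (n 0 (n 0 z (n 0 (n
 0x2e650e0a038208208208208208208218208208607df8208218208208208208208208608208208208208200801 z
 (n 0x2ea50a060382082082082082082082082082082082082082082082082081f8208208208208208208208200801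
 z z)) (n 0 (n
 0x2ea50a06038208208208208208208208208208607e082082081f8208208208208208208208208208208200801 z
 (n 0xea50a060382081f8208208208208208208208607df8218208208208208208208208208208208208208200801 z
 z)) (n 0 z (n 0 (n
 0xf0cb0a4603748f7e7e77909d7c708a8f6b8a727797955d727f7d6f6e8e839f818562908fa84b2d91a6a57f44965acab693835b7fb1a3530809
 z (n
 0x2ea70a24077e082082186082082182081f8207e08208208207df82182182082082082082082081f7e081f0801 z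
 z)) (n 0 (n
 0x14e1d04543a0698747b9279867c9280837c90867082757f99937e7a877e816580739e807e607e8577676190b59b9d5981809aa675686b7b96817000c9
 z (n
 0x90ed0eca0376887b80818186786e7d83827f836f838a818585817e7e8a818c798b7f7487837a5a847d8874788679ab90957b877c9887710809
 z z)) (n 0 (n
 0x30e70e640782186086282081f82082081f7df8218207e082181f8208608218208208208208208208218200801 z
 (n 0x4ea508060385f85f85e8617e081f8227a182189e7df8608217e17de8208208208208208207df81f7a08610801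
 z z)) z))))))) (n 0 (n 0 z (n 0 z (n 0 z (n 0 z (n 0 z (n 0 z (n 0 z z))))))) (n 0 (n 0 z (n 0
 (n 8783707 z z) (n 0 (n 8783707 z z) (n 0 z (n 0 z (n 0 z (n 0 z z))))))) (n 0 (n 0 z (n 0 (n
 0x4587261e7a291f7da71ea277de7926628a4960ae28d17969dc9709648d18589de6278667a073185a0041 z (n
 0x2dd8627d78017fd79e86777183d79f8a57d87fc83c8487ec8237567947f181c80686e7e88db82381a7bc7a77f98758337e07e98cb87381f70279e7cd8a47b27e07267327bb8228347dd7718358720051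
 z z)) (n 0 (n
 0x4587361e7a291f7da71ea277de7926628a4960ae28d17969dc9709648d18589de6278667a073185a0041 z (n
 0x47d8627bf8037fc76789f72285f7689017c17f985e8707e08376f67577e982c8098ab7dc9578388287977767f48b784f7cf7db93d8b28316737667b19007857cf6ab6c07948358527cb7218528b20051
 z z)) (n 0 z (n 0 z (n 0 z (n 0 z z))))))) (n 0 (n 0 z (n 0 z (n 0 z (n 0 z (n 0 z (n 0 z (n 0
 z z))))))) (n 0 (n 0 z (n 0 z (n 0 z (n 0 z (n 0 z (n 0 z (n 0 z z))))))) (n 0 (n 0 z (n 0 (n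
 8734571 z z) (n 0 (n 8734571 z z) (n 0 z (n 0 z (n 0 z (n 0 z z))))))) (n 0 (n 0 z (n 0 z (n 0
 z (n 0 z (n 0 z (n 0 z (n 0 z z))))))) (n 0 (n 0 z (n 0 z (n 0 z (n 0 z (n 0 z (n 0 z (n 0 z
 z))))))) (n 0 (n 0 z (n 0 z (n 0 z (n 0 z (n 0 z (n 0 z (n 0 z z))))))) (n 0 (n 0 z (n 0 z (n 0
 z (n 0 z (n 0 (n 8523875 z (n 8523875 z z)) (n 0 (n 8851539 z (n 8851539 z z)) (n 0 z z)))))))
 (n 0 (n 0 z (n 0 z (n 0 z (n 0 z (n 0 z (n 0 z (n 0 z z))))))) (n 0 (n 0 z (n 0 z (n 0 z (n 0 z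
 (n 0 z (n 0 z (n 0 z z))))))) (n 0 (n 0 z (n 0 z (n 0 z (n 0 z (n 0 z (n 0 z (n 0 z z))))))) (n
 0 (n 0 z (n 0 z (n 0 z (n 0 z (n 0 z (n 0 z (n 0 z z))))))) z))))))))))))))))))))))))))) (n 273
 (n 0 (n 0 z (n 0 z (n 0 z (n 0 z (n 0 (n 0xea70a42070821 z z) (n 0 z (n 0 z z))))))) (n 0 (n 0
 z (n 0 z (n 0 z (n 0 z (n 0 z (n 0 z (n 0 z z))))))) (n 0 (n 0 z (n 0 z (n 0 z (n 0 z (n 0 z (n
 0 z (n 0 z z))))))) (n 0 (n 0 z (n 0 z (n 0 z (n 0 z (n 0 z (n 0 z (n 0 z z))))))) (n 0 (n 0 z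
 (n 0 z (n 0 z (n 0 z (n 0 z (n 0 z (n 0 z z))))))) (n 0 (n 0 z (n 0 z (n 0 z (n 0 z (n 0 z (n 0
 z (n 0 z z))))))) (n 0 (n 0 z (n 0 (n 8523875 z z) (n 0 z (n 0 (n 8523875 z z) (n 0 z (n 0 z (n
 0 z z))))))) (n 0 (n 0 z (n 0 z (n 0 z (n 0 z (n 0 z (n 0 z (n 0 z z))))))) (n 0 (n 0 z (n 0 z
 (n 0 z (n 0 z (n 0 z (n 0 z (n 0 z z))))))) (n 0 (n 0 z (n 0 z (n 0 z (n 0 z (n 0 z (n 0 z (n 0
 z z))))))) (n 0 (n 0 z (n 0 z (n 0 z (n 0 z (n 0 z (n 0 z (n 0 z z))))))) z))))))))))) (n 249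
 (n 0 (n 0 z (n 0 z (n 0 z (n 0 z (n 0 z (n 0 z (n 0 z z))))))) (n 0 (n 0 z (n 0 z (n 0 z (n 0 z
 (n 0 z (n 0 z (n 0 z z))))))) (n 0 (n 0 z (n 0 z (n 0 z (n 0 z (n 0 z (n 0 z (n 0 z z))))))) (n
 0 (n 0 z (n 0 z (n 0 z (n 0 z (n 0 z (n 0 z (n 0 z z))))))) (n 0 (n 0 z (n 0 z (n 0 z (n 0 z (n
 0 z (n 0 z (n 0 z z))))))) (n 0 (n 0 z (n 0 z (n 0 z (n 0 z (n 0 z (n 0 z (n 0 z z))))))) (n 0
 (n 0 z (n 0 z (n 0 z (n 0 (n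
 0x30eaea60078208208218208208208208208208208208208208208208208208208208208208208208208200801 z
 z) (n 0 z (n 0 z (n 0 z z))))))) (n 0 (n 0 z (n 0 z (n 0 z (n 0 z (n 0 z (n 0 z (n 0 z z)))))))
 (n 0 (n 0 z (n 0 (n 0x10e90a60070821 z z) (n 0 z (n 0 z (n 0 z (n 0 z (n 0 (n
 0x30eb0860078208208208208208208208608208208a08208208208208208208208208208208208208208200801 z
 z) z))))))) (n 0 (n 0 z (n 0 (n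
 0x3d87376175e9d771a91d56c8635909a09699619ea8216df91b913c6089075489d91b5e27e27a58e60041 z (n
 8783707 z z)) (n 0 z (n 0 z (n 0 z (n 0 z (n 0 (n
 0x3d87376175e9d771a91d56c8635909a09699619ea8216df91b913c6089075489d91b5e27e27a58e60041 z (n
 8783707 z z)) z))))))) (n 0 (n 0 z (n 0 (n
 0x14e1cc454398698737b9279867c9280837c90867082757f99937e7a877e816580739e807e607e8577676190b59b9d5981809aa675686b7b96817000c9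
 z z) (n 0 (n
 0x10e1cc394398518737c8e7b857d8f80837d8d847481777f94907e7b857e806a807599817f667e84786c678daa9697608180949e776d6f7c92817400c9
 z z) (n 0 z (n 0 z (n 0 z (n 0 z z))))))) (n 0 (n 0 z (n 0 (n
 0xd87382082082082082086082081f7df7e18208208217df81f8608208208608208218207df8218200041 z (n
 8783707 z z)) (n 0 (n
 0xd87382082082082082086082081f7df7e18208208217df81f8608208208608208218207df8218200041 z (n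
 8783707 z z)) (n 0 z (n 0 z (n 0 z (n 0 z z))))))) (n 0 (n 0 z (n 0 z (n 0 z (n 0 z (n 0 z (n 0
 z (n 0 z z))))))) (n 0 (n 0 z (n 0 z (n 0 z (n 0 z (n 0 (n 8787803 z (n
 0x2dd8547d78017fd79e86677183d79f8a57d87fc83c8487ec8237567947f181c80686e7e88db8238197bd7a77f88758337e17e88cb87281f70279e7cd8a47b17e17267337bb8228357dd7708348730051
 z z)) (n 0 (n
 0x4587461e7a291f7da71ea277de7926628a4960ae28d17969dc9709648d18589de6278667a073185a0041 z (n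
 0x47d8547bf8037fc76789f72285f7689017c17f985e8707e08376f67577e982c8098ab7dc9578388287977767f48b784f7cf7db93d8b28316737667b19007857cf6ab6c07948358527cb7218528b20051
 z z)) (n 0 z z))))))) (n 0 (n 0 z (n 0 z (n 0 z (n 0 (n 8523875 z z) (n 0 z (n 0 z (n 0 z
 z))))))) (n 0 (n 0 z (n 0 (n 8872771 z (n 8872771 z z)) (n 0 (n 8872771 z (n 8872771 z z)) (n 0
 (n 8523875 z (n 8523875 z z)) (n 0 z (n 0 z (n 0 (n 8872771 z (n 8872771 z z)) z))))))) (n 0 (n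
 0 z (n 0 z (n 0 (n
 0x3d87376175e9d771a91d56c8635909a09699619ea8216df91b913c6089075489d91b5e27e27a58e60041 z (n
 8734571 z z)) (n 0 z (n 0 (n 7616555 z (n
 0x30e90e800382082082082081e8208208208208208218208208208208208208208208208208208208208200801 z
 z)) (n 0 z (n 0 z z))))))) (n 0 (n 0 z (n 0 z (n 0 z (n 0 z (n 0 z (n 0 z (n 0 z z))))))) (n 0
 (n 0 z (n 0 (n
 0xd87382082082082082086082081f7df7e18208208217df81f8608208208608208218207df8218200041 z (n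
 8734571 z z)) (n 0 (n
 0xd87382082082082082086082081f7df7e18208208217df81f8608208208608208218207df8218200041 z (n
 8734571 z z)) (n 0 z (n 0 z (n 0 z (n 0 z z))))))) (n 0 (n 0 z (n 0 z (n 0 z (n 0 z (n 0 z (n 0
 z (n 0 z z))))))) (n 0 (n 0 z (n 0 z (n 0 z (n 0 z (n 0 z (n 0 z (n 0 z z))))))) (n 0 (n 0 z (n
 0 z (n 0 z (n 0 z (n 0 z (n 0 (n 8790275 z z) (n 0 z z))))))) (n 0 (n 0 z (n 0 z (n 0 z (n 0 z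
 (n 0 z (n 0 z (n 0 z z))))))) (n 0 (n 0 (n 8525323 z (n 8525323 z z)) (n 0 z (n 0 z (n 0 z (n 0
 z (n 0 z (n 0 z z))))))) (n 0 (n 0 z (n 0 z (n 0 z (n 0 z (n 0 z (n 0 z (n 0 z z))))))) (n 0 (n
 0 z (n 0 z (n 0 z (n 0 z (n 0 (n
 0x30eb0e800382082082082081f8208208208208208208208208208208218218208208208208208208208210801 z
 z) (n 0 z (n 0 z z))))))) (n 0 (n 0 z (n 0 z (n 0 z (n 0 z (n 0 z (n 0 z (n 0 z z))))))) (n 0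
 (n 0 z (n 0 z (n 0 z (n 0 z (n 0 z (n 0 z (n 0 z z))))))) (n 0 (n 0 z (n 0 z (n 0 z (n 0 z (n 0
 z (n 0 (n 8851539 z z) (n 0 z z))))))) (n 0 (n 0 (n
 0x14e1d04543a0698747b9279867c9280837c90867082757f99937e7a877e816580739e807e607e8577676190b59b9d5981809aa675686b7b96817000c9
 z z) (n 0 z (n 0 z (n 0 z (n 0 z (n 0 z (n 0 z z))))))) z)))))))))))))))))))))))))))))) (n 417
 (n 0 (n 0 z (n 0 z (n 0 z (n 0 z (n 0 z (n 0 z (n 0 z z))))))) (n 0 (n 0 z (n 0 (n 8872771 z z)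
 (n 0 (n 8872771 z z) (n 0 z (n 0 z (n 0 z (n 0 z z))))))) (n 0 (n 0 z (n 0 z (n 0 z (n 0 z (n 0
 z (n 0 z (n 0 z z))))))) (n 0 (n 0 z (n 0 z (n 0 z (n 0 z (n 0 z (n 0 z (n 0 z z))))))) (n 0 (n
 0 z (n 0 (n 8734571 z z) (n 0 z (n 0 z (n 0 z (n 0 z (n 0 (n
 0xd0e50e420371877e798769726a946e758a72867480b986939d7a877c9a7f8070677a6a813dbb90985f9d6e7d68bf697781779d6f8682a20809
 z z) z))))))) (n 0 (n 0 z (n 0 (n 8782363 z z) (n 0 z (n 0 (n 8782363 z z) (n 0 z (n 0 z (n 0 z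
 z))))))) (n 0 (n 0 z (n 0 (n
 0x2e43060a078608207df82082081f8208218208608208618208607df8608208208208207e08208208208200801 z
 (n 0x2e43060a078608207de82082081f86086182086082082182182081f8608208207df8208208208218208600801
 z z)) (n 0 (n 8783707 z (n
 0x90e90e820378837b7d8a6f747785786e957e936d71859e8f8d82848e897d7d727f8c667e5cb69e8b5c667ba26f9b60678087ab76677c950809
 z z)) (n 0 (n
 0x2e43060a0782082082082082082082082082082082082082082081f8208208208208208208208208208210801 z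
 (n 8734491 z z)) (n 0 z (n 0 (n
 0x14e1d04543a0698747b9279867c9280837c90867082757f99937e7a877e816580739e807e607e8577676190b59b9d5981809aa675686b7b96817000c9
 z (n
 0x30e90e820385f82085e7df7e082082182282086085f82082082181f8208218208208208208208208208200801 z
 z)) (n 0 (n
 0x30eb0842038208208207e082081f8608208208608208208208208208218208208208208208208208208200801 z
 (n
 0xb0e90e82037685797b8d6b72748776699b7d99686e86a692908285918c7c7b6f7e8f5f7d54c3a58e53607aaa6ba258618089b674607a9b0809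
 z z)) z))))))) (n 0 (n 0 z (n 0 (n 8783707 z z) (n 0 z (n 0 z (n 0 z (n 0 z (n 0 (n 8783707 z
 z) z))))))) (n 0 (n 0 z (n 0 z (n 0 z (n 0 z (n 0 z (n 0 z (n 0 z z))))))) (n 0 (n 0 z (n 0 z
 (n 0 z (n 0 z (n 0 z (n 0 z (n 0 z z))))))) (n 0 (n 0 z (n 0 z (n 0 z (n 0 z (n 0 z (n 0 z (n 0
 z z))))))) (n 0 (n 0 z (n 0 z (n 0 z (n 0 z (n 0 z (n 0 z (n 0 z z))))))) (n 0 (n 0 z (n 0 z (n
 0 z (n 0 z (n 0 z (n 0 z (n 0 z z))))))) (n 0 (n 0 z (n 0 z (n 0 z (n 0 z (n 0 z (n 0 z (n 0 z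
 z))))))) z)))))))))))))) (n 411 (n 0 (n 0 z (n 0 z (n 0 z (n 0 z (n 0 z (n 0 z (n 0 z z)))))))
 (n 0 (n 0 z (n 0 z (n 0 z (n 0 z (n 0 z (n 0 z (n 0 z z))))))) (n 0 (n 0 z (n 0 (n 8783707 z z)
 (n 0 z (n 0 z (n 0 z (n 0 z (n 0 (n 8783707 z z) z))))))) (n 0 (n 0 z (n 0 z (n 0 z (n 0 z (n 0
 z (n 0 z (n 0 z z))))))) (n 0 (n 0 z (n 0 z (n 0 z (n 0 z (n 0 z (n 0 z (n 0 z z))))))) (n 0 (n
 0 z (n 0 z (n 0 z (n 0 z (n 0 z (n 0 z (n 0 z z))))))) (n 0 (n 0 z (n 0 z (n 0 z (n 0 z (n 0 z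
 (n 0 z (n 0 z z))))))) (n 0 (n 0 z (n 0 (n 8525323 z (n 8525323 z z)) (n 0 z (n 0 (n 8525323 z
 (n 8525323 z z)) (n 0 z (n 0 z (n 0 (n 8525323 z (n 8525323 z z)) z))))))) (n 0 (n 0 z (n 0 z
 (n 0 z (n 0 z (n 0 z (n 0 z (n 0 z z))))))) (n 0 (n 0 z (n 0 z (n 0 z (n 0 z (n 0 z (n 0 z (n 0
 z z))))))) z)))))))))) (n 387 (n 0 (n 0 z (n 0 z (n 0 z (n 0 (n 8734491 z z) (n 0 z (n 0 (n
 8726299 z z) (n 0 z z))))))) (n 0 (n 0 z (n 0 z (n 0 z (n 0 (n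
 0x30eaea200782082082082082081f8608208208208208208208208208208208208208208208208208208200801 z
 z) (n 0 z (n 0 z (n 0 z z))))))) (n 0 (n 0 z (n 0 z (n 0 z (n 0 z (n 0 z (n 0 z (n 0 z z)))))))
 (n 0 (n 0 z (n 0 z (n 0 z (n 0 z (n 0 z (n 0 z (n 0 z z))))))) (n 0 (n 0 z (n 0 z (n 0 z (n 0 z
 (n 0 z (n 0 z (n 0 z z))))))) (n 0 (n 0 z (n 0 z (n 0 z (n 0 z (n 0 z (n 0 (n 8523875 z z) (n 0
 z z))))))) (n 0 (n 0 z (n 0 z (n 0 z (n 0 z (n 0 z (n 0 z (n 0 z z))))))) (n 0 (n 0 z (n 0 z (n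
 0 z (n 0 z (n 0 z (n 0 (n 8790275 z z) (n 0 z z))))))) (n 0 (n 0 z (n 0 z (n 0 z (n 0 z (n 0 z
 (n 0 z (n 0 z z))))))) (n 0 (n 0 z (n 0 z (n 0 z (n 0 z (n 0 z (n 0 z (n 0 z z))))))) (n 0 (n 0
 z (n 0 z (n 0 z (n 0 z (n 0 z (n 0 z (n 0 z z))))))) z))))))))))) (n 513 (n 0 (n 0 z (n 0 z (n
 0 z (n 0 (n 8798515 z z) (n 0 z (n 0 z (n 0 z z))))))) (n 0 (n 0 z (n 0 z (n 0 z (n 0 z (n 0 z
 (n 0 z (n 0 z z))))))) (n 0 (n 0 z (n 0 z (n 0 z (n 0 (n 8734491 z z) (n 0 z (n 0 z (n 0 z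
 z))))))) (n 0 (n 0 z (n 0 (n
 0x50eb0ea40381f7e081f8207df82182082282082082082082082081f82082082082082082086082081f8200801 z
 (n
 0xb5873817a7e7f8a717981958372958d798662737d89879d80938c767d72798b867f69a59587727a90826b844b636d737c6f7890910049
 z z)) (n 0 z (n 0 (n 8734491 z (n
 0x3d87376175e9d771a91d56c8635909a09699619ea8216df91b913c6089075489d91b5e27e27a58e60041 z z)) (n
 0 z (n 0 z (n 0 (n
 0x70a50a420378847f7c847479758a777a8579837a809c848a8e7e837e8d7f8078737d74815e9e888c708f777e74a0747c817c8f778281920809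
 z (n 0x3d87376175e9d771a91d56c8635909a09699619ea8216df91b913c6089075489d91b5e27e27a58e60041 z
 z)) z))))))) (n 0 (n 0 z (n 0 z (n 0 z (n 0 z (n 0 z (n 0 z (n 0 z z))))))) z))))) (n 489 (n 0
 (n 0 z (n 0 z (n 0 z (n 0 (n 8798515 z z) (n 0 z (n 0 (n 8798515 z z) (n 0 z z))))))) (n 0 (n 0
 z (n 0 z (n 0 z (n 0 z (n 0 z (n 0 z (n 0 z z))))))) (n 0 (n 0 z (n 0 z (n 0 z (n 0 z (n 0 z (n
 0 z (n 0 z z))))))) (n 0 (n 0 z (n 0 z (n 0 z (n 0 z (n 0 z (n 0 z (n 0 z z))))))) (n 0 (n 0 z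
 (n 0 z (n 0 z (n 0 (n
 0x14e1d44543a8698757b9279867c9280837c90867082757f99937e7a877e816580739e807e607e8577676190b59b9d5981809aa675686b7b96817000c9
 z z) (n 0 z (n 0 z (n 0 (n
 0x30a6ca600789f81f81f7e07e08608617e08218a081f8207e082181f7e082081f8208607e082081f8208200801 z
 z) z))))))) (n 0 (n 0 z (n 0 z (n 0 z (n 0 z (n 0 z (n 0 z (n 0 z z))))))) (n 0 (n 0 z (n 0 z
 (n 0 z (n 0 z (n 0 z (n 0 z (n 0 z z))))))) (n 0 (n 0 z (n 0 z (n 0 z (n 0 z (n 0 z (n 0 z (n 0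
 z z))))))) (n 0 (n 0 z (n 0 z (n 0 z (n 0 z (n 0 (n 8523875 z (n 8523875 z z)) (n 0 (n 8523875
 z (n 8523875 z z)) (n 0 z z))))))) (n 0 (n 0 z (n 0 z (n 0 z (n 0 z (n 0 z (n 0 (n 8523875 z z)
 (n 0 z z))))))) (n 0 (n 0 z (n 0 z (n 0 z (n 0 z (n 0 z (n 0 z (n 0 z z))))))) (n 0 (n 0 z (n 0
 (n 8783707 z z) (n 0 z (n 0 z (n 0 z (n 0 z (n 0 (n 8783707 z z) z))))))) (n 0 (n 0 z (n 0 (n
 0x4587261e7a291f7da71ea277de7926628a4960ae28d17969dc9709648d18589de6278667a073185a0041 z (n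
 0x8d820817b7f7f88747a81918275918b7a8568757e878697809089787d757a89847f6e9e9185757b8d826f83566a70757d73798c8e0049
 z z)) (n 0 z (n 0 (n
 0xb5820817a7e7f8a717981958372958d798662737d89879d80938c767d72798b867f69a59587727a90826b844b636d737c6f7890910049
 z (n
 0xb5820817a7e7f8a717981958372958d798662737d89879d80938c767d72798b867f69a59587727a90826b844b636d737c6f7890910049
 z z)) (n 0 z (n 0 z (n 0 (n
 0x4587261e7a291f7da71ea277de7926628a4960ae28d17969dc9709648d18589de6278667a073185a0041 z (n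
 0xb5820817a7e7f8a717981958372958d798662737d89879d80938c767d72798b867f69a59587727a90826b844b636d737c6f7890910049
 z z)) z))))))) (n 0 (n 0 z (n 0 z (n 0 z (n 0 z (n 0 z (n 0 z (n 0 z z))))))) (n 0 (n 0 z (n 0
 z (n 0 z (n 0 z (n 0 z (n 0 z (n 0 z z))))))) (n 0 (n 0 z (n 0 z (n 0 z (n 0 z (n 0 (n 8790275
 z z) (n 0 (n 8790275 z z) (n 0 z z))))))) z)))))))))))))))) (n 507 (n 0 (n 0 z (n 0 z (n 0 z (n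
 0 z (n 0 z (n 0 z (n 0 z z))))))) (n 0 (n 0 z (n 0 z (n 0 z (n 0 z (n 0 z (n 0 z (n 0 z
 z))))))) (n 0 (n 0 z (n 0 z (n 0 z (n 0 (n 8734491 z z) (n 0 z (n 0 (n 8726299 z z) (n 0 z
 z))))))) (n 0 (n 0 z (n 0 (n
 0x30eaea60078218208218208208207e086081f8208207e086082082186082082082082082082082082081f0801 z
 z) (n 0 z (n 0 z (n 0 z (n 0 (n
 0x50ed0e2a038e085f85c7e17a07de8a282382089f8208608218227df81f82181f7df8207e08208208208200801 z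
 z) (n 0 z z))))))) (n 0 (n 0 z (n 0 z (n 0 z (n 0 z (n 0 z (n 0 z (n 0 z z))))))) (n 0 (n 0 z
 (n 0 z (n 0 z (n 0 z (n 0 z (n 0 z (n 0 z z))))))) (n 0 (n 0 z (n 0 z (n 0 z (n 0 z (n 0 z (n 0
 (n 8790275 z z) (n 0 z z))))))) (n 0 (n 0 z (n 0 z (n 0 z (n 0 z (n 0 z (n 0 z (n 0 z z)))))))
 z)))))))) (n 487 (n 0 (n 0 z (n 0 (n 2164811 z z) (n 0 z (n 0 z (n 0 z (n 0 z (n 0 (n 2164811 z
 z) z))))))) (n 0 (n 0 z (n 0 z (n 0 z (n 0 z (n 0 z (n 0 z (n 0 z z))))))) (n 0 (n 0 z (n 0 (n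
 7678027 z (n
 0x30eaeca00385f81f81f8207e085f8627e08608608208208207e082082082081f8208208208208207e08200801 z
 z)) (n 0 z (n 0 (n 7678027 z (n 8734491 z z)) (n 0 z (n 0 z (n 0 (n 7678027 z (n
 0x30e50e420385f81f85c82079f8a08627e18218a086082185e7e081e82086186081f8207e186081f8208200801 z
 z)) z))))))) (n 0 (n 0 z (n 0 (n
 0x30eb0ea00382082081f82081f82082082282086082082082082081f8208208208208208208208208208200801 z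
 z) (n 0 z (n 0 z (n 0 z (n 0 z (n 0 (n
 0x50e50e420366076661f6dc31d7229e63dab998b17237b381e8987d7ad860aaa989262cc32be53e672a71e0801 z
 z) z))))))) (n 0 (n 0 z (n 0 z (n 0 z (n 0 z (n 0 z (n 0 z (n 0 z z))))))) (n 0 (n 0 z (n 0 z
 (n 0 z (n 0 z (n 0 z (n 0 z (n 0 z z))))))) (n 0 (n 0 z (n 0 z (n 0 z (n 0 z (n 0 z (n 0 z (n 0
 z z))))))) (n 0 (n 0 z (n 0 z (n 0 z (n 0 (n 8586779 z (n 8586779 z z)) (n 0 z (n 0 z (n 0 (n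
 8586779 z (n 8586779 z z)) z))))))) (n 0 (n 0 z (n 0 z (n 0 z (n 0 z (n 0 z (n 0 z (n 0 z
 z))))))) (n 0 (n 0 (n
 0x14e1d44543a8698757b9279867c9280837c90867082757f99937e7a877e816580739e807e607e8577676190b59b9d5981809aa675686b7b96817000c9
 z z) (n 0 z (n 0 z (n 0 z (n 0 z (n 0 z (n 0 z z))))))) z)))))))))) (n 633 (n 0 (n 0 z (n 0 z
 (n 0 z (n 0 z (n 0 z (n 0 z (n 0 z z))))))) (n 0 (n 0 z (n 0 z (n 0 z (n 0 z (n 0 z (n 0 z (n 0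
 z z))))))) (n 0 (n 0 z (n 0 z (n 0 z (n 0 z (n 0 z (n 0 z (n 0 z z))))))) (n 0 (n 0 z (n 0 z (n
 0 z (n 0 z (n 0 z (n 0 z (n 0 z z))))))) (n 0 (n 0 z (n 0 z (n 0 (n 8734571 z z) (n 0 z (n 0 z
 (n 0 z (n 0 (n
 0x14e188454310698627b9279867c9280837c90867082757f99937e7a877e816580739e807e607e8577676190b59b9d5981809aa675686b7b96817000c9
 z z) z))))))) (n 0 (n 0 z (n 0 z (n 0 z (n 0 z (n 0 z (n 0 z (n 0 z z))))))) z)))))) (n 653 (n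
 0 (n 0 z (n 0 z (n 0 z (n 0 z (n 0 z (n 0 z (n 0 z z))))))) (n 0 (n 0 z (n 0 z (n 0 z (n 0 z (n
 0 (n 8523875 z (n 8523875 z z)) (n 0 (n 8523875 z (n 8523875 z z)) (n 0 z z))))))) (n 0 (n 0 z
 (n 0 z (n 0 (n 8734571 z z) (n 0 z (n 0 (n
 0x14e188454310698627b9279867c9280837c90867082757f99937e7a877e816580739e807e607e8577676190b59b9d5981809aa675686b7b96817000c9
 z z) (n 0 z (n 0 (n
 0x14e188454310698627b9279867c9280837c90867082757f99937e7a877e816580739e807e607e8577676190b59b9d5981809aa675686b7b96817000c9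
 z z) z))))))) (n 0 (n 0 z (n 0 z (n 0 z (n 0 z (n 0 z (n 0 z (n 0 z z))))))) (n 0 (n 0 z (n 0 z
 (n 0 z (n 0 z (n 0 z (n 0 z (n 0 z z))))))) (n 0 (n 0 z (n 0 z (n 0 z (n 0 z (n 0 z (n 0 z (n 0
 z z))))))) (n 0 (n 0 z (n 0 (n 8798515 z (n 8798515 z z)) (n 0 z (n 0 z (n 0 z (n 0 (n 8798515
 z (n 8798515 z z)) (n 0 (n 8798515 z (n 8798515 z z)) z))))))) (n 0 (n 0 z (n 0 z (n 0 z (n 0 z
 (n 0 z (n 0 z (n 0 z z))))))) (n 0 (n 0 z (n 0 z (n 0 z (n 0 z (n 0 z (n 0 z (n 0 z z))))))) (n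
 0 (n 0 z (n 0 z (n 0 z (n 0 z (n 0 z (n 0 z (n 0 z z))))))) (n 0 (n 0 z (n 0 (n 8790275 z (n
 8790275 z z)) (n 0 (n 8790275 z (n 8790275 z z)) (n 0 z (n 0 (n 8790275 z (n 8790275 z z)) (n 0
 (n 8790275 z (n 8790275 z z)) (n 0 (n 8790275 z (n 8790275 z z)) z))))))) (n 0 (n 0 z (n 0 z (n
 0 z (n 0 z (n 0 z (n 0 z (n 0 z z))))))) (n 0 (n 0 (n 8783675 z z) (n 0 z (n 0 z (n 0 z (n 0 z
 (n 0 z (n 0 z z))))))) (n 0 (n 0 (n 8525323 z z) (n 0 z (n 0 z (n 0 z (n 0 z (n 0 z (n 0 z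
 z))))))) (n 0 (n 0 z (n 0 z (n 0 z (n 0 z (n 0 z (n 0 z (n 0 z z))))))) (n 0 (n 0 z (n 0 (n
 8790275 z z) (n 0 (n 8790275 z z) (n 0 z (n 0 z (n 0 z (n 0 z z))))))) (n 0 (n 0 z (n 0 z (n 0
 z (n 0 z (n 0 z (n 0 z (n 0 z z))))))) (n 0 (n 0 z (n 0 z (n 0 z (n 0 (n
 0x47d8207bf8037fc76789f72285f7689017c17f985e8707e08376f67577e982c8098ab7dc9578388287977767f48b784f7cf7db93d8b28316737667b19007857cf6ab6c07948358527cb7218528b20051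
 z z) (n 0 z (n 0 (n
 0x47d8207bf8037fc76789f72285f7689017c17f985e8707e08376f67577e982c8098ab7dc9578388287977767f48b784f7cf7db93d8b28316737667b19007857cf6ab6c07948358527cb7218528b20051
 z z) (n 0 z z))))))) (n 0 (n 0 z (n 0 z (n 0 (n 8790275 z z) (n 0 z (n 0 z (n 0 z (n 0 (n
 8790275 z z) z))))))) (n 0 (n 0 z (n 0 z (n 0 z (n 0 z (n 0 (n 8721195 z z) (n 0 z (n 0 z
 z))))))) (n 0 (n 0 z (n 0 z (n 0 z (n 0 z (n 0 (n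
 0x47d8207bf8037fc76789f72285f7689017c17f985e8707e08376f67577e982c8098ab7dc9578388287977767f48b784f7cf7db93d8b28316737667b19007857cf6ab6c07948358527cb7218528b20051
 z z) (n 0 (n
 0x2dd8207d68027fd79e86677283d79f8a57d87fc83c8487eb8237567937f181c80686e7e88db8248197bd7a77f88758337e17e88cb87281f70279d7cd8a47b17e07257337bb8228347de76f8358720051
 z z) (n 0 z z))))))) (n 0 (n 0 z (n 0 z (n 0 z (n 0 z (n 0 z (n 0 z (n 0 z z))))))) (n 0 (n 0 z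
 (n 0 z (n 0 z (n 0 z (n 0 z (n 0 z (n 0 z z))))))) (n 0 (n 0 z (n 0 (n
 0x4587261e7a291f7da71ea277de7926628a4960ae28d17969dc9709648d18589de6278667a073185a0041 z (n
 0xb5820817a7e7f8a717981958372958d798662737d89879d80938c767d72798b867f69a59587727a90826b844b636d737c6f7890910049
 z z)) (n 0 (n
 0x4587361e7a291f7da71ea277de7926628a4960ae28d17969dc9709648d18589de6278667a073185a0041 z (n
 0xb5820817a7e7f8a717981958372958d798662737d89879d80938c767d72798b867f69a59587727a90826b844b636d737c6f7890910049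
 z z)) (n 0 z (n 0 z (n 0 z (n 0 z z))))))) (n 0 (n 0 z (n 0 z (n 0 z (n 0 z (n 0 z (n 0 z (n 0
 z z))))))) (n 0 (n 0 z (n 0 (n 8525323 z (n 8525323 z z)) (n 0 (n 8525323 z (n 8525323 z z)) (n
 0 z (n 0 z (n 0 z (n 0 z z))))))) (n 0 (n 0 z (n 0 (n 8734571 z z) (n 0 (n 8734571 z z) (n 0 z
 (n 0 z (n 0 z (n 0 z z))))))) (n 0 (n 0 z (n 0 z (n 0 z (n 0 z (n 0 z (n 0 z (n 0 z z))))))) (n
 0 (n 0 z (n 0 z (n 0 (n 8525323 z (n 8525323 z z)) (n 0 z (n 0 (n 8525323 z (n 8525323 z z)) (n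
 0 z (n 0 (n 8525323 z (n 8525323 z z)) z))))))) (n 0 (n 0 z (n 0 z (n 0 z (n 0 z (n 0 z (n 0 z
 (n 0 z z))))))) (n 0 (n 0 z (n 0 z (n 0 z (n 0 z (n 0 z (n 0 z (n 0 z z))))))) (n 0 (n 0 z (n 0
 (n 8790275 z z) (n 0 z (n 0 z (n 0 z (n 0 z (n 0 (n 8790275 z z) z))))))) (n 0 (n 0 z (n 0 z (n
 0 z (n 0 z (n 0 z (n 0 z (n 0 z z))))))) z))))))))))))))))))))))))))))))))) (n 627 (n 0 (n 0 z
 (n 0 z (n 0 z (n 0 z (n 0 z (n 0 (n 8726299 z z) (n 0 z z))))))) (n 0 (n 0 z (n 0 z (n 0 z (n 0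
 z (n 0 z (n 0 z (n 0 z z))))))) (n 0 (n 0 z (n 0 z (n 0 z (n 0 z (n 0 z (n 0 z (n 0 z z)))))))
 (n 0 (n 0 z (n 0 (n 8872771 z z) (n 0 z (n 0 z (n 0 z (n 0 (n
 0x30e90e820385f82085e7df7e082082182282086089f86082082181f82082182082082081f82082081f8200801 z
 z) (n 0 z z))))))) (n 0 (n 0 z (n 0 z (n 0 z (n 0 z (n 0 z (n 0 z (n 0 z z))))))) (n 0 (n 0 z
 (n 0 z (n 0 z (n 0 z (n 0 (n
 0x14e184454308698617b9279867c9280837c90867082757f99937e7a877e816580739e807e607e8577676190b59b9d5981809aa675686b7b96817000c9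
 z z) (n 0 z (n 0 z z))))))) (n 0 (n 0 z (n 0 z (n 0 (n 8872771 z z) (n 0 z (n 0 (n
 0x30e90e820382082081f82081f8218208617e08218218208207e081f8208208208208208208208208208200801 z
 z) (n 0 z (n 0 (n 8872771 z z) z))))))) (n 0 (n 0 z (n 0 z (n 0 z (n 0 z (n 0 z (n 0 z (n 0 z
 z))))))) (n 0 (n 0 z (n 0 z (n 0 z (n 0 z (n 0 z (n 0 z (n 0 z z))))))) (n 0 (n 0 z (n 0 z (n 0
 z (n 0 z (n 0 z (n 0 (n 8790275 z z) (n 0 z z))))))) (n 0 (n 0 (n 8804171 z (n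
 0x14e184454308698617b9279867c9280837c90867082757f99937e7a877e816580739e807e607e8577676190b59b9d5981809aa675686b7b96817000c9
 z z)) (n 0 z (n 0 z (n 0 z (n 0 z (n 0 z (n 0 z z))))))) (n 0 (n 0 (n
 0x14e184454308698617b9279867c9280837c90867082757f99937e7a877e816580739e807e607e8577676190b59b9d5981809aa675686b7b96817000c9
 z (n 8783675 z z)) (n 0 z (n 0 z (n 0 z (n 0 z (n 0 z (n 0 z z))))))) (n 0 (n 0 (n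
 0x14e184454308698617b9279867c9280837c90867082757f99937e7a877e816580739e807e607e8577676190b59b9d5981809aa675686b7b96817000c9
 z (n
 0x14e184454308698617b9279867c9280837c90867082757f99937e7a877e816580739e807e607e8577676190b59b9d5981809aa675686b7b96817000c9
 z z)) (n 0 z (n 0 z (n 0 z (n 0 z (n 0 z (n 0 z z))))))) (n 0 (n 0 z (n 0 z (n 0 z (n 0 z (n 0
 z (n 0 z (n 0 z z))))))) (n 0 (n 0 (n
 0x14e184454308698617b9279867c9280837c90867082757f99937e7a877e816580739e807e607e8577676190b59b9d5981809aa675686b7b96817000c9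
 z z) (n 0 z (n 0 z (n 0 z (n 0 z (n 0 z (n 0 z z))))))) (n 0 (n 0 z (n 0 (n 8734571 z z) (n 0 z
 (n 0 (n
 0x24d8737df8017fe7b185278e8317b38837e07fd83083a7f081c7787a97f48178058587ed8af81d8147c97ba7fa85e8297e67ed8a285b8197357b17d78847c17e775175c7c981b82a7e478e82a85b0051
 z z) (n 0 z (n 0 z (n 0 z z))))))) (n 0 (n 0 z (n 0 z (n 0 (n 8790275 z z) (n 0 z (n 0 z (n 0 z
 (n 0 (n 8790275 z z) z))))))) (n 0 (n 0 z (n 0 z (n 0 z (n 0 z (n 0 z (n 0 z (n 0 z z))))))) (n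
 0 (n 0 z (n 0 (n
 0x8d861807b7f7f88747a81908375908b7b8568757e87869780908a787d747b89857f6d9f9086747c8c816f84576971757c72798d8e0049
 z (n 8734571 z z)) (n 0 (n
 0xb5861817a7e7f8a717981958372958d798662737d89879d80938c767d72798b867f69a59587727a90826b844b636d737c6f7890910049
 z (n 8734571 z z)) (n 0 z (n 0 z (n 0 z (n 0 z z))))))) (n 0 (n 0 z (n 0 (n 8525323 z z) (n 0
 (n 8525323 z z) (n 0 z (n 0 z (n 0 z (n 0 z z))))))) (n 0 (n 0 z (n 0 (n 8734571 z z) (n 0 (n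
 8734571 z z) (n 0 z (n 0 z (n 0 z (n 0 z z))))))) (n 0 (n 0 z (n 0 (n
 0xb5861817a7e7f8a717981958372958d798662737d89879d80938c767d72798b867f69a59587727a90826b844b636d737c6f7890910049
 z z) (n 0 (n
 0xb5861817a7e7f8a717981958372958d798662737d89879d80938c767d72798b867f69a59587727a90826b844b636d737c6f7890910049
 z z) (n 0 z (n 0 z (n 0 z (n 0 z z))))))) (n 0 (n 0 z (n 0 z (n 0 z (n 0 z (n 0 z (n 0 z (n 0 z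
 z))))))) (n 0 (n 0 z (n 0 z (n 0 z (n 0 z (n 0 z (n 0 z (n 0 z z))))))) (n 0 (n 0 z (n 0 z (n 0
 z (n 0 z (n 0 (n 8790275 z z) (n 0 z (n 0 z z))))))) (n 0 (n 0 z (n 0 z (n 0 z (n 0 z (n 0 (n
 0x30eaec820382082082082086082086082082082082082082082081e8208208208208208208208208208200801 z
 z) (n 0 z (n 0 z z))))))) (n 0 (n 0 z (n 0 z (n 0 z (n 0 z (n 0 z (n 0 z (n 0 z z)))))))
 z))))))))))))))))))))))))))) (n 607 (n 0 (n 0 z (n 0 z (n 0 z (n 0 z (n 0 z (n 0 z (n 0 z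
 z))))))) (n 0 (n 0 z (n 0 z (n 0 z (n 0 z (n 0 z (n 0 z (n 0 z z))))))) (n 0 (n 0 z (n 0 z (n 0
 z (n 0 z (n 0 z (n 0 z (n 0 z z))))))) (n 0 (n 0 z (n 0 z (n 0 z (n 0 z (n 0 (n
 0x14e188454310698627b9279867c9280837c90867082757f99937e7a877e816580739e807e607e8577676190b59b9d5981809aa675686b7b96817000c9
 z z) (n 0 z (n 0 z z))))))) (n 0 (n 0 z (n 0 z (n 0 z (n 0 z (n 0 z (n 0 z (n 0 z z))))))) (n 0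
 (n 0 z (n 0 z (n 0 z (n 0 z (n 0 z (n 0 z (n 0 z z))))))) (n 0 (n 0 z (n 0 z (n 0 z (n 0 z (n 0
 z (n 0 z (n 0 z z))))))) (n 0 (n 0 z (n 0 z (n 0 z (n 0 z (n 0 z (n 0 z (n 0 z z))))))) (n 0 (n
 0 z (n 0 z (n 0 z (n 0 z (n 0 z (n 0 z (n 0 z z))))))) z))))))))) (n 600 (n 0 (n 0 z (n 0 z (n
 0 (n 8734571 z z) (n 0 z (n 0 z (n 0 z (n 0 (n
 0x14e188454310698627b9279867c9280837c90867082757f99937e7a877e816580739e807e607e8577676190b59b9d5981809aa675686b7b96817000c9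
 z z) z))))))) (n 0 (n 0 z (n 0 z (n 0 z (n 0 z (n 0 z (n 0 z (n 0 z z))))))) (n 0 (n 0 z (n 0
 (n 8798515 z z) (n 0 z (n 0 z (n 0 z (n 0 z (n 0 (n 8798515 z z) z))))))) (n 0 (n 0 z (n 0 z (n
 0 z (n 0 z (n 0 z (n 0 z (n 0 z z))))))) (n 0 (n 0 z (n 0 z (n 0 z (n 0 z (n 0 z (n 0 z (n 0 z
 z))))))) (n 0 (n 0 z (n 0 z (n 0 z (n 0 z (n 0 z (n 0 z (n 0 z z))))))) (n 0 (n 0 z (n 0 z (n 0
 z (n 0 z (n 0 z (n 0 z (n 0 z z))))))) (n 0 (n 0 z (n 0 z (n 0 z (n 0 z (n 0 z (n 0 z (n 0 z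
 z))))))) (n 0 (n 0 z (n 0 z (n 0 z (n 0 z (n 0 z (n 0 z (n 0 z z))))))) z))))))))) (n 599 (n 0
 (n 0 z (n 0 z (n 0 z (n 0 z (n 0 z (n 0 z (n 0 z z))))))) (n 0 (n 0 z (n 0 z (n 0 z (n 0 z (n 0
 z (n 0 z (n 0 z z))))))) (n 0 (n 0 z (n 0 z (n 0 z (n 0 z (n 0 z (n 0 z (n 0 z z))))))) (n 0 (n
 0 z (n 0 z (n 0 z (n 0 z (n 0 z (n 0 z (n 0 z z))))))) (n 0 (n 0 z (n 0 z (n 0 z (n 0 z (n 0 z
 (n 0 z (n 0 z z))))))) (n 0 (n 0 z (n 0 z (n 0 z (n 0 z (n 0 z (n 0 (n 8782363 z z) (n 0 z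
 z))))))) z)))))) (n 598 (n 0 (n 0 z (n 0 z (n 0 z (n 0 z (n 0 z (n 0 z (n 0 z z))))))) (n 0 (n
 0 z (n 0 z (n 0 z (n 0 z (n 0 z (n 0 z (n 0 z z))))))) (n 0 (n 0 z (n 0 z (n 0 z (n 0 z (n 0 z
 (n 0 z (n 0 z z))))))) (n 0 (n 0 z (n 0 z (n 0 z (n 0 z (n 0 z (n 0 z (n 0 z z))))))) (n 0 (n 0
 z (n 0 z (n 0 z (n 0 z (n 0 z (n 0 z (n 0 z z))))))) z))))) (n 129 (n 0 (n 0 z (n 0 z (n 0 z (n
 0 z (n 0 z (n 0 (n 8726299 z z) (n 0 z z))))))) (n 0 (n 0 z (n 0 (n 8872771 z z) (n 0 z (n 0 z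
 (n 0 z (n 0 (n
 0x30e90e820385f82085e7df7e082082182282086089f86082082181f82082182082082081f82082081f8200801 z
 z) (n 0 z z))))))) (n 0 (n 0 z (n 0 z (n 0 z (n 0 z (n 0 z (n 0 z (n 0 z z))))))) (n 0 (n 0 z
 (n 0 z (n 0 z (n 0 z (n 0 z (n 0 z (n 0 z z))))))) (n 0 (n 0 z (n 0 z (n 0 z (n 0 z (n 0 z (n 0
 z (n 0 z z))))))) (n 0 (n 0 z (n 0 (n 8790275 z z) (n 0 z (n 0 (n 8790275 z z) (n 0 z (n 0 z (n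
 0 z z))))))) (n 0 (n 0 z (n 0 z (n 0 z (n 0 z (n 0 z (n 0 z (n 0 z z))))))) z))))))) (n 27 (n 0
 (n 0 z (n 0 z (n 0 z (n 0 z (n 0 z (n 0 z (n 0 z z))))))) (n 0 (n 0 z (n 0 z (n 0 z (n 0 z (n 0
 z (n 0 z (n 0 z z))))))) (n 0 (n 0 z (n 0 z (n 0 z (n 0 z (n 0 z (n 0 z (n 0 z z))))))) (n 0 (n
 0 z (n 0 z (n 0 z (n 0 z (n 0 z (n 0 z (n 0 z z))))))) z)))) (n 1 (n 0 (n 0 z (n 0 (n 8798515 z
 z) (n 0 z (n 0 z (n 0 z (n 0 z (n 0 (n 8798515 z z) z))))))) (n 0 (n 0 z (n 0 (n 8782363 z (n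
 8782363 z z)) (n 0 (n 8782363 z (n 8782363 z z)) (n 0 (n 8782363 z (n 8782363 z z)) (n 0 z (n 0
 z (n 0 (n 8782363 z (n 8782363 z z)) z))))))) (n 0 (n 0 z (n 0 z (n 0 z (n 0 z (n 0 z (n 0 z (n
 0 (n 8802571 z z) z))))))) (n 0 (n 0 z (n 0 z (n 0 z (n 0 z (n 0 z (n 0 z (n 0 z z))))))) (n 0
 (n 0 z (n 0 z (n 0 z (n 0 (n 8798515 z (n 8798515 z z)) (n 0 z (n 0 z (n 0 z z))))))) (n 0 (n 0
 z (n 0 z (n 0 z (n 0 (n 8782363 z (n 8782363 z z)) (n 0 z (n 0 z (n 0 z z))))))) (n 0 (n 0 z (n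
 0 z (n 0 z (n 0 z (n 0 z (n 0 z (n 0 z z))))))) z))))))) (n 0 (n 0 (n 0 z (n 0 z (n 0 z (n 0 z
 (n 0 z (n 0 z (n 0 z z))))))) (n 0 (n 0 z (n 0 z (n 0 z (n 0 z (n 0 z (n 0 z (n 0 z z))))))) (n
 0 (n 0 z (n 0 z (n 0 z (n 0 z (n 0 z (n 0 z (n 0 z z))))))) (n 0 (n 0 z (n 0 z (n 0 (n 8872771
 z z) (n 0 z (n 0 z (n 0 z (n 0 (n 8872771 z z) z))))))) (n 0 (n 0 z (n 0 z (n 0 z (n 0 z (n 0 z
 (n 0 z (n 0 z z))))))) z))))) z))))))))))))))))))))) z)))) z) z)))) (n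
 0x5adaa1d3150d146d1215282898c56d474369bb4349dac228d2192e908d4d064ba600ed6c0 (n 0x1dada (n 333
 (n 0 z (n 0 z (n 0 z (n 3282443 z (n 0 z (n 2 z (n 10 z (n 0 z z)))))))) (n 257 (n 0 z (n
 3278363 z (n 0 z (n 18 z (n 0 z (n 26 z (n 34 z (n 42 z z)))))))) (n 129 (n 0 z (n 3212843 z (n
 50 z z))) (n 27 (n 0 z (n 58 z (n 0 z (n 2164283 z z)))) (n 1 (n 0 z (n 0 z (n 0 z (n 0 z (n 0
 z (n 66 z (n 0 z (n 2164299 z (n 74 z (n 82 z z)))))))))) (n 0 (n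
 0x2c86c6420386085f81f8607e07e08227a07e17e086081f7df85f8608207e07a08218208208607e08208200801 z
 (n 90 z (n 98 z (n
 0x20ca884260781aa6155c4d7921ba25207618e4bad5e482061a59c91c94a59da23a5b85cc6475c51d81f8e80801 z
 (n 2164315 z (n
 0x28c60236308a48e06927e3a5e81b7a36e4bab6e27a169686d71e59ab9b45c8e4c4e4de767a6181e8227610081 z
 (n 106 z (n
 0x8364089859581745c6b7c8b7d76867c80689381926c93707a92847cab5b7f6b769a6b5e738b8f8d60737e9286a8787f6e7e9380780049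
 z z)))))))) z)))))) (n 129 (n 0 (n 0 z (n 663 (n 0 z (n 0 z (n 0 z (n 0 z (n 2 (n 0 z (n 0 z (n
 0 z (n 1 z (n 1 z (n 1 z (n 1 z (n 1 z (n 1 z (n 1 z (n 1 z z))))))))))) (n 0 z (n 0 z (n 0 z
 (n 0 z (n 0 z (n 0 z (n 0 z (n 0 z (n 0 z (n 0 z z))))))))))))))) (n 663 (n 0 z (n 0 z (n 0 z
 (n 0 z (n 0 z (n 0 z (n 0 z (n 0 z (n 0 z (n 2 (n 0 z (n 0 z (n 1 z (n 1 z (n 1 z (n 2 (n 0 z
 (n 0 z (n 0 z (n 0 z (n 0 z (n 0 z z)))))) (n 2 (n 0 z (n 0 z (n 0 z (n 0 z (n 0 z (n 0 z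
 z)))))) (n 2 (n 0 z (n 0 z (n 0 z (n 0 z (n 0 z (n 0 z z)))))) (n 2 (n 0 z (n 0 z (n 0 z (n 0 z
 (n 0 z (n 0 z z)))))) (n 1 z z)))))))))) (n 0 z (n 0 z (n 0 z (n 0 z (n 0 z z))))))))))))))) (n
 663 (n 0 z (n 0 z (n 0 z (n 0 z (n 0 z (n 0 z (n 0 z (n 0 z (n 0 z (n 0 z (n 0 z (n 0 z (n 0 z
 (n 0 z (n 0 z z))))))))))))))) (n 663 (n 0 z (n 0 z (n 0 z (n 0 z (n 0 z (n 0 z (n 0 z (n 0 z
 (n 0 z (n 0 z (n 0 z (n 0 z (n 0 z (n 0 z (n 0 z z))))))))))))))) (n 343 (n 0 z (n 0 z (n 0 z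
 (n 0 z z)))) (n 661 (n 0 z (n 0 z (n 0 z (n 0 z (n 0 z (n 0 z (n 0 z z))))))) (n 351 (n 0 z (n
 0 z (n 0 z (n 0 z (n 0 z (n 0 z (n 0 z (n 0 z (n 0 z (n 0 z z)))))))))) (n 351 (n 0 z (n 0 z (n
 0 z (n 0 z (n 0 z (n 0 z (n 2 (n 0 z (n 2 (n 0 z (n 0 z (n 0 z (n 0 z (n 0 z (n 0 z z)))))) (n
 2 (n 0 z (n 0 z (n 0 z (n 0 z (n 0 z (n 0 z z)))))) (n 1 z z)))) (n 0 z (n 0 z (n 0 z
 z)))))))))) (n 351 (n 0 z (n 0 z (n 0 z (n 2 (n 2 (n 0 z (n 0 z (n 0 z (n 0 z (n 0 z (n 0 z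
 z)))))) (n 2 (n 0 z (n 0 z (n 0 z (n 0 z (n 0 z (n 0 z z)))))) (n 1 z z))) (n 0 z (n 0 z (n 0 z
 (n 0 z (n 0 z (n 0 z z)))))))))) (n 349 (n 0 z (n 0 z (n 0 z (n 2 (n 0 z (n 0 z z)) (n 0 z (n 0
 z (n 0 z (n 0 z (n 0 z (n 0 z (n 0 z (n 0 z (n 0 z (n 0 z (n 0 z (n 0 z (n 0 z
 z))))))))))))))))) (n 349 (n 0 z (n 2 (n 0 z z) (n 0 z (n 0 z (n 0 z (n 0 z (n 0 z (n 0 z (n 0
 z (n 0 z (n 0 z (n 0 z (n 0 z (n 0 z (n 0 z (n 0 z (n 0 z z))))))))))))))))) (n 349 (n 0 z (n 0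
 z (n 0 z (n 0 z (n 0 z (n 0 z (n 0 z (n 0 z (n 0 z (n 0 z (n 0 z (n 0 z (n 0 z (n 0 z (n 0 z (n
 0 z (n 0 z z))))))))))))))))) z))))))))))))) (n 0 (n 95 (n 0 z (n 2 (n 0 z (n 0 z (n 0 z (n 2
 (n 0 z (n 0 z (n 0 z (n 0 z (n 0 z (n 0 (n 924 z z) z)))))) (n 1 z (n 1 z (n 2 (n 0 z (n 0 z (n
 0 z (n 0 z (n 0 z (n 0 z z)))))) (n 2 (n 0 z (n 0 z (n 0 z (n 0 z (n 0 z (n 0 z z)))))) (n 2 (n
 0 z (n 0 z (n 0 z (n 0 z (n 0 z (n 0 z z)))))) (n 2 (n 0 z (n 0 z (n 0 z (n 0 z (n 0 z (n 0 z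
 z)))))) (n 2 (n 0 z (n 0 z (n 0 z (n 0 z (n 0 z (n 0 (n 2020 z z) z)))))) z))))))))))) (n 0 z
 (n 0 z (n 0 z (n 0 z (n 0 z z))))))) (n 95 (n 0 z (n 0 z (n 0 z (n 0 z (n 0 z (n 0 z (n 0 z
 z))))))) (n 95 (n 0 z (n 0 z (n 0 z (n 0 z (n 2 (n 0 z (n 2 (n 0 z (n 0 z (n 0 z (n 0 z (n 0 z
 (n 0 z z)))))) (n 2 (n 0 z (n 0 z (n 0 z (n 0 z (n 0 z (n 0 (n 8595307 z z) z)))))) (n 2 (n 0 z
 (n 0 z (n 0 z (n 0 z (n 0 z (n 0 (n 8873011 z z) z)))))) (n 1 z (n 2 (n 0 z (n 0 z (n 0 z (n 0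
 z (n 0 z (n 0 (n 8595307 z z) z)))))) (n 1 z (n 2 (n 0 z (n 0 z (n 0 z (n 0 z (n 0 z (n 0 z
 z)))))) (n 2 (n 0 z (n 0 z (n 0 z (n 0 z (n 0 z (n 0 z z)))))) z))))))))) (n 0 z (n 0 z
 z))))))) (n 95 (n 0 z (n 0 z (n 0 z (n 0 z (n 0 z (n 2 (n 1 z (n 1 z (n 1 z (n 2 (n 0 z (n 0 z
 (n 0 z (n 0 z (n 0 z (n 0 z z)))))) (n 2 (n 0 z (n 0 z (n 0 z (n 0 z (n 0 z (n 0 z z)))))) (n 2
 (n 0 z (n 0 z (n 0 z (n 0 z (n 0 z (n 0 z z)))))) (n 2 (n 0 z (n 0 z (n 0 z (n 0 z (n 0 z (n 0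
 z z)))))) (n 1 z z)))))))) (n 0 z z))))))) (n 231 (n 0 z (n 2 (n 1 z (n 1 z (n 2 (n 0 z (n 0 z
 (n 0 z (n 0 z (n 0 z (n 0 z z)))))) (n 2 (n 0 z (n 0 z (n 0 z (n 0 z (n 0 z (n 0 z z)))))) (n 2
 (n 0 z (n 0 z (n 0 z (n 0 z (n 0 z (n 0 z z)))))) (n 2 (n 0 z (n 0 z (n 0 z (n 0 z (n 0 z (n 0
 z z)))))) (n 1 z z))))))) z)) (n 93 (n 0 z (n 0 z (n 2 (n 1 z (n 2 (n 0 z (n 0 z (n 0 z (n 0 z
 (n 0 z (n 0 z z)))))) (n 2 (n 0 z (n 0 z (n 0 z (n 0 z (n 0 z (n 0 z z)))))) (n 2 (n 0 z (n 0 z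
 (n 0 z (n 0 z (n 0 z (n 0 z z)))))) (n 2 (n 0 z (n 0 z (n 0 z (n 0 z (n 0 z (n 0 z z)))))) (n 1
 z z)))))) (n 0 z (n 0 z (n 0 z (n 0 z (n 0 z (n 0 z z))))))))) (n 85 (n 0 z (n 0 z (n 0 z (n 0
 z (n 0 z (n 0 z (n 0 z (n 0 z (n 0 z (n 0 z (n 2 (n 0 z (n 0 z (n 2 (n 0 z (n 0 z (n 0 z (n 0 z
 (n 0 z (n 0 z z)))))) (n 2 (n 0 z (n 0 z (n 0 z (n 0 z (n 0 z (n 0 z z)))))) (n 1 z z))))) (n 0
 z (n 0 z (n 0 z (n 0 z (n 0 z z)))))))))))))))) (n 85 (n 0 z (n 0 z (n 0 z (n 0 z (n 0 z (n 0 z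
 (n 0 z (n 0 z (n 0 z (n 0 z (n 0 z (n 0 z (n 0 z (n 0 z (n 0 z (n 0 z z)))))))))))))))) (n 85
 (n 0 z (n 0 z (n 0 z (n 0 z (n 0 z (n 0 z (n 0 z (n 0 z (n 0 z (n 0 z (n 0 z (n 0 z (n 0 z (n 0
 z (n 0 z (n 0 z z)))))))))))))))) (n 505 (n 2 (n 0 z (n 0 z z)) (n 0 z (n 0 z (n 0 z (n 0 z (n
 0 z (n 0 z (n 0 z (n 0 z (n 0 z (n 0 z z))))))))))) (n 505 (n 0 z (n 0 z (n 0 z (n 0 z (n 0 z
 (n 0 z (n 0 z (n 0 z (n 0 z (n 0 z (n 0 z z))))))))))) (n 505 (n 0 z (n 0 z (n 0 z (n 0 z (n 2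
 z (n 0 z (n 0 z (n 0 z (n 0 z (n 0 z (n 0 z z))))))))))) z)))))))))))) (n 0 (n 0 z (n 0 z (n 0
 z (n 391 (n 0 z (n 0 z (n 0 z (n 0 z (n 0 z (n 0 z (n 2 (n 1 z (n 1 z (n 2 (n 0 z (n 0 z (n 0 z
 (n 0 z (n 0 z (n 0 (n 1956 z z) z)))))) (n 1 z (n 1 z (n 1 z (n 1 z z))))))) (n 0 z (n 0 z (n 0
 z (n 0 z (n 0 z (n 0 z (n 0 z (n 0 z z))))))))))))))) (n 487 (n 0 z (n 0 z (n 0 z (n 0 z (n 0 z
 (n 0 z (n 2 (n 1 z (n 2 (n 0 z (n 0 z (n 0 z (n 0 z (n 0 z (n 0 (n 1956 z z) z)))))) (n 1 z (n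
 1 z (n 1 z (n 1 z z)))))) (n
 0x357607e9a896f98608972ab6d7d77808d6f8d7a8c747974758b7e7e887a7e837b8d867887827a7b777788986f9e6a7972848980790049
 z (n 0 z (n 0 z (n 0 z (n 0 z (n 0 z (n 0 z (n 0 z (n 0 z (n 0 z (n 0 z (n 0 z (n 0 z (n 0 z (n
 0 z (n 0 z (n 0 z (n 0 z z))))))))))))))))))))))))) (n 489 (n 0 z (n 0 z (n 0 z (n 0 z (n 0 z
 (n 2 (n 0 z (n 0 z (n 1 z (n 1 z (n 1 z z))))) (n 0 z z))))))) (n 489 (n 2 (n 0 z (n 2 (n 0 z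
 (n 0 z (n 0 z (n 0 z (n 0 z (n 0 (n 8855811 z z) z)))))) (n 2 (n 0 z (n 0 z (n 0 z (n 0 z (n 0
 z (n 0 z z)))))) (n 2 (n 0 z (n 0 z (n 0 z (n 0 z (n 0 z (n 0 z z)))))) z)))) (n 0 z (n 0 z (n
 0 z (n 0 z (n 0 z (n 0 z z))))))) (n 489 (n 0 z (n 0 z (n 2 (n 2 (n 0 z (n 0 z (n 0 z (n 0 z (n
 0 z (n 0 z z)))))) (n 2 (n 0 z (n 0 z (n 0 z (n 0 z (n 0 z (n 0 z z)))))) (n 1 z z))) (n 0 z (n
 0 z (n 0 z (n 0 z z))))))) (n 485 (n 0 z (n 0 z (n 2 (n 0 z (n 0 z z)) (n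
 0x26ea8c826037c6e7d7e6b88898d76896b859a80487dc37b6994859265886e978c8c597e964c6a7d6cc18b93528a55ac7a917a80877d78770809
 z (n 0 z (n 0 z (n 0 z (n 0 z (n 0 z (n 0 z (n 0 z (n 0 z (n 0 z (n 0 z (n 0 z (n 0 z (n 0 z (n
 0 z (n 0 z (n 0 z (n 0 z (n 0 z (n 0 z (n 0 z (n 0 z (n 0 z (n 0 z (n 0 z
 z)))))))))))))))))))))))))))) (n 485 (n 0 z (n 0 z (n 0 z (n 0 z (n 0 z (n 0 z (n 0 z (n 0 z (n
 0 z (n 0 z (n 0 z (n 0 z (n 0 z (n 0 z (n 0 z (n 0 z (n 0 z (n 0 z (n 0 z (n 0 z (n 0 z (n 0 z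
 (n 0 z (n 0 z (n 0 z (n 0 z (n 0 z (n 0 z z)))))))))))))))))))))))))))) (n 485 (n 0 z (n 0 z (n
 0 z (n 0 z (n 0 z (n 0 z (n 0 z (n 0 z (n 0 z (n 0 z (n 0 z (n 0 z (n 0 z (n 0 z (n 0 z (n 2 z
 (n
 0x357607e9a896f98608972ab6d7d77808d6f8d7a8c747974758b7e7e887a7e837b8d867887827a7b777788986f9e6a7972848980790049
 z (n 0 z (n 0 z (n 0 z (n 0 z (n 0 z (n 0 z (n 0 z (n 0 z (n 0 z (n 0 z (n 0 z
 z)))))))))))))))))))))))))))) z))))))))))) (n 0 (n 0 z (n 0 z (n 443 (n 0 z (n 0 z (n 0 z (n 0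
 z (n 2 (n 1 z (n 1 z (n 2 (n 0 z (n 0 z (n 0 z (n 0 z (n 0 z (n 0 z z)))))) (n 2 (n 0 z (n 0 z
 (n 0 z (n 0 z (n 0 z (n 0 z z)))))) (n 2 (n 0 z (n 0 z (n 0 z (n 0 z (n 0 z (n 0 z z)))))) (n 2
 (n 0 z (n 0 z (n 0 z (n 0 z (n 0 z (n 0 z z)))))) (n 1 z z))))))) z))))) (n 535 (n 0 z (n 0 z
 (n 0 z (n 0 z (n 0 z (n 0 z (n 0 z (n 0 z (n 2 (n 1 z (n 2 (n 0 z (n 0 z (n 0 z (n 0 z (n 0 z
 (n 0 z z)))))) (n 2 (n 0 z (n 0 z (n 0 z (n 0 z (n 0 z (n 0 z z)))))) (n 2 (n 0 z (n 0 z (n 0 z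
 (n 0 z (n 0 z (n 0 (n 2132 z z) z)))))) (n 2 (n 0 z (n 0 z (n 0 z (n 0 z (n 0 z (n 0 z z))))))
 (n 1 z z)))))) (n 0 z (n 0 z (n 0 z (n 0 z (n 0 z (n 0 z (n 0 z (n 0 z (n 0 z (n 0 z (n 0 z (n
 0 z (n 0 z (n 0 z (n 0 z (n 0 z (n 0 z (n 0 z (n 0 z (n 0 z z))))))))))))))))))))))))))))) (n
 537 (n 0 z (n 0 z (n 0 z (n 0 z (n 0 z (n 0 z (n 0 z (n 2 (n 0 z (n 0 z (n 2 (n 0 z (n 0 z (n 0
 z (n 0 z (n 0 z (n 0 (n 8587115 z z) z)))))) (n 2 (n 0 z (n 0 z (n 0 z (n 0 z (n 0 z (n 0 z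
 z)))))) (n 1 z z))))) (n 0 z (n 0 z (n 0 z z))))))))))) (n 537 (n 0 z (n 0 z (n 0 z (n 0 z (n 0
 z (n 0 z (n 0 z (n 0 z (n 0 z (n 0 z (n 0 z z))))))))))) (n 537 (n 0 z (n 0 z (n 0 z (n 0 z (n
 0 z (n 0 z (n 0 z (n 0 z (n 0 z (n 0 z (n 0 z z))))))))))) (n 533 (n 2 (n 0 z (n 0 z z)) (n 0 z
 (n 0 z (n 0 z (n 0 z (n 0 z (n 0 z (n 0 z (n 0 z (n 0 z (n 0 z (n 0 z z)))))))))))) (n 533 (n 0
 z (n 0 z (n 0 z (n 0 z (n 0 z (n 0 z (n 0 z (n 0 z (n 0 z (n 0 z (n 0 z (n 0 z z)))))))))))) (n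
 533 (n 0 z (n 0 z (n 0 z (n 0 z (n 0 z (n 0 z (n 0 z (n 2 z (n 0 z (n 0 z (n 0 z (n 0 z
 z)))))))))))) z)))))))))) (n 0 (n 0 z (n 423 (n 0 z (n 0 z (n 0 z (n 0 z z)))) (n 321 (n 0 z (n
 0 z (n 0 z (n 0 z (n 0 z (n 0 z (n 0 z (n 0 z (n 0 z (n 0 z (n 0 z (n 0 z (n 0 z (n 0 z (n 0 z
 (n 0 z (n 0 z (n 0 z (n 0 z (n 0 z (n 0 z (n 0 z (n 0 z (n 0 z (n 0 z (n 0 z (n 0 z (n 0 z (n 0
 z z))))))))))))))))))))))))))))) (n 537 (n 0 z (n 0 z (n 0 z (n 0 z (n 0 z (n 0 z (n 0 z (n 0 z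
 (n 0 z (n 0 z z)))))))))) (n 537 (n 0 z (n 0 z (n 0 z (n 0 z (n 0 z (n 0 z (n 0 z (n 0 z (n 0 z
 (n 0 z z)))))))))) (n 537 (n 0 z (n 0 z (n 0 z (n 0 z (n 0 z (n 0 z (n 0 z (n 2 (n 2 (n 0 z (n
 0 z (n 0 z (n 0 z (n 0 z (n 0 z z)))))) (n 2 (n 0 z (n 0 z (n 0 z (n 0 z (n 0 z (n 0 z z))))))
 (n 2 (n 0 z (n 0 z (n 0 z (n 0 z (n 0 z (n 0 z z)))))) z))) (n 0 z (n 0 z z)))))))))) (n 313 (n
 0 z (n 0 z (n 0 z (n 0 z (n 0 z (n 0 z z)))))) (n 313 (n 0 z (n 0 z (n 2 (n 0 z z) (n 0 z (n 0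
 z (n 0 z z)))))) (n 313 (n 0 z (n 0 z (n 0 z (n 2 z (n 0 z (n 0 z z)))))) z))))))))) (n 0 (n
 283 (n 0 z (n 0 z (n 0 z (n 0 z (n 0 z (n 0 z (n 0 z (n 0 z (n 0 z (n 0 z (n 0 z z)))))))))))
 (n 55 (n 0 z (n 0 z (n 0 z (n 0 z (n 0 z (n 0 z (n 0 z (n 0 z (n 0 z (n 0 z (n 0 z (n 0 z (n 0
 z (n 0 z (n 0 z (n 0 z (n 0 z (n 0 z (n 0 z (n 0 z (n 0 z (n 0 z (n 0 z (n 0 z (n 0 z
 z))))))))))))))))))))))))) (n 51 (n 0 z (n 0 z (n 0 z (n 0 z (n 0 z (n 0 z (n 0 z z))))))) (n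
 51 (n 0 z (n 0 z (n 0 z (n 2 (n 0 z (n 2 (n 0 z (n 0 z (n 0 z (n 0 z (n 0 z (n 0 z z)))))) (n 2
 (n 0 z (n 0 z (n 0 z (n 0 z (n 0 z (n 0 z z)))))) (n 2 (n 0 z (n 0 z (n 0 z (n 0 z (n 0 z (n 0
 z z)))))) z)))) (n 0 z (n 0 z (n 0 z z))))))) (n 51 (n 0 z (n 0 z (n 0 z (n 0 z (n 0 z (n 0 z
 (n 2 (n 2 (n 0 z (n 0 z (n 0 z (n 0 z (n 0 z (n 0 z z)))))) (n 2 (n 0 z (n 0 z (n 0 z (n 0 z (n
 0 z (n 0 z z)))))) (n 1 z z))) z))))))) (n 49 (n 0 z (n 0 z (n 0 z (n 0 z (n 0 z (n 0 z (n 2 (n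
 0 z (n 0 z z)) (n 0 z (n 0 z (n 0 z (n 0 z (n 0 z (n 0 z (n 0 z (n 0 z (n 0 z (n 0 z (n 0 z (n
 0 z (n 0 z z)))))))))))))))))))) (n 49 (n 0 z (n 0 z (n 0 z (n 0 z (n 0 z (n 0 z (n 0 z (n 2 (n
 0 z z) (n 0 z (n 0 z (n 0 z (n 0 z (n 0 z (n 0 z (n 0 z (n 0 z (n 0 z (n 0 z (n 0 z (n 0 z
 z)))))))))))))))))))) (n 49 (n 0 z (n 0 z (n 0 z (n 0 z (n 0 z (n 0 z (n 0 z (n 0 z (n 0 z (n 0
 z (n 0 z (n 0 z (n 0 z (n 0 z (n 0 z (n 0 z (n 0 z (n 0 z (n 0 z (n 0 z z))))))))))))))))))))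
 z)))))))) (n 0 (n 11 (n 0 z (n 0 z (n 0 z (n 0 z (n 0 z z))))) (n 3 (n 0 z (n 0 z (n 0 z (n 0 z
 (n 0 z (n 0 z (n 0 z (n 0 z (n 0 z z))))))))) (n 3 (n 0 z (n 0 z (n 0 z (n 0 z (n 0 z (n 0 z (n
 2 (n 0 z (n 2 (n 0 z (n 0 z (n 0 z (n 0 z (n 0 z (n 0 z z)))))) (n 2 (n 0 z (n 0 z (n 0 z (n 0
 z (n 0 z (n 0 z z)))))) (n 2 (n 0 z (n 0 z (n 0 z (n 0 z (n 0 z (n 0 z z)))))) z)))) (n 0 z (n
 0 z z))))))))) (n 3 (n 0 z (n 0 z (n 0 z (n 0 z (n 0 z (n 0 z (n 0 z (n 0 z (n 2 (n 2 (n 0 z (n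
 0 z (n 0 z (n 0 z (n 0 z (n 0 z z)))))) (n 2 (n 0 z (n 0 z (n 0 z (n 0 z (n 0 z (n 0 z z))))))
 (n 1 z z))) z))))))))) (n 1 (n 0 z (n 0 z (n 0 z (n 2 (n 0 z (n 0 z z)) (n 0 z (n 0 z (n 0 z (n
 0 z (n 0 z (n 0 z (n 0 z (n 0 z (n 0 z (n 0 z z)))))))))))))) (n 1 (n 0 z (n 0 z (n 0 z (n 0 z
 (n 2 (n 0 z z) (n 0 z (n 0 z (n 0 z (n 0 z (n 0 z (n 0 z (n 0 z (n 0 z (n 0 z z))))))))))))))
 (n 1 (n 0 z (n 0 z (n 0 z (n 0 z (n 0 z (n 0 z (n 0 z (n 0 z (n 0 z (n 0 z (n 0 z (n 0 z (n 0 z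
 (n 0 z z)))))))))))))) z))))))) (n 0 (n 51 (n 0 z (n 0 z (n 0 z (n 0 z (n 0 z (n 0 z (n 0 z (n
 0 z (n 0 z (n 0 z z)))))))))) (n 51 (n 0 z (n 0 z (n 0 z (n 0 z (n 2 (n 0 z (n 2 (n 0 z (n 0 z
 (n 0 z (n 0 z (n 0 z (n 0 z z)))))) (n 2 (n 0 z (n 0 z (n 0 z (n 0 z (n 0 z (n 0 z z)))))) (n 2
 (n 0 z (n 0 z (n 0 z (n 0 z (n 0 z (n 0 z z)))))) z)))) (n 0 z (n 0 z (n 0 z (n 0 z (n 0 z
 z)))))))))) (n 51 (n 0 z (n 0 z (n 0 z (n 2 (n 2 (n 0 z (n 0 z (n 0 z (n 0 z (n 0 z (n 0 z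
 z)))))) (n 2 (n 0 z (n 0 z (n 0 z (n 0 z (n 0 z (n 0 z z)))))) (n 1 z z))) (n 0 z (n 0 z (n 0 z
 (n 0 z (n 0 z (n 0 z z)))))))))) (n 49 (n 0 z (n 0 z (n 2 (n 0 z (n 0 z z)) (n 0 z (n 0 z (n 0
 z (n 0 z (n 0 z (n 0 z (n 0 z (n 0 z z))))))))))) (n 49 (n 0 z (n 2 (n 0 z z) (n 0 z (n 0 z (n
 0 z (n 0 z (n 0 z (n 0 z (n 0 z (n 0 z (n 0 z z))))))))))) (n 49 (n 0 z (n 0 z (n 0 z (n 0 z (n
 0 z (n 0 z (n 0 z (n 0 z (n 0 z (n 0 z (n 0 z z))))))))))) z)))))) (n 0 (n 0 z (n 0 z (n 5 (n 0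
 z (n 2 (n 0 z (n 0 z z)) (n 0 z (n 0 z (n 0 z (n 0 z (n 0 z (n 0 z (n 0 z (n 0 z (n 0 z (n 0 z
 z)))))))))))) (n 5 (n 0 z (n 0 z (n 0 z (n 0 z (n 0 z (n 2 (n 0 z z) (n 0 z (n 0 z (n 0 z (n 0
 z (n 0 z (n 0 z z)))))))))))) (n 5 (n 0 z (n 0 z (n 0 z (n 0 z (n 0 z (n 0 z (n 0 z (n 0 z (n 0
 z (n 0 z (n 0 z (n 0 z z)))))))))))) z))))) (n 0 (n 0 z (n 1013 (n 0 z (n 0 z (n 0 z (n 0 z (n
 0 z (n 0 z (n 0 z (n 0 z (n 0 z (n 0 z (n 0 z (n 0 z (n 0 z (n 0 z (n 0 z (n 0 z (n 0 z (n 0 z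
 (n 0 z (n 0 z (n 0 z (n 0 z (n 0 z (n 0 z (n 0 z (n 0 z (n 0 z (n 0 z (n 0 z (n 0 z (n 0 z (n 0
 z (n 0 z (n 0 z (n 0 z (n 0 z (n 0 z (n 0 z (n 0 z (n 0 z (n 0 z (n 0 z (n 0 z (n 0 z (n 0 z (n
 0 z (n 0 z (n 0 z (n 0 z z))))))))))))))))))))))))))))))))))))))))))))))))) (n 1013 (n 0 z (n 0
 z (n 0 z (n 0 z (n 0 z (n 0 z (n 0 z (n 0 z (n 0 z (n 0 z (n 0 z (n 0 z (n 0 z (n 0 z (n 0 z (n
 0 z (n 0 z (n 0 z (n 0 z (n 0 z (n 0 z (n 0 z (n 0 z (n 0 z (n 0 z (n 0 z (n 0 z (n 0 z (n 0 z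
 (n 0 z (n 0 z (n 0 z (n 0 z (n 0 z (n 0 z (n 0 z (n 0 z (n 0 z (n 0 z (n 0 z (n 0 z (n 0 z (n 0
 z (n 0 z (n 0 z (n 0 z (n 0 z (n 0 z (n 0 z z)))))))))))))))))))))))))))))))))))))))))))))))))
 (n 1013 (n 0 z (n 0 z (n 0 z (n 0 z (n 0 z (n 0 z (n 2 z (n 0 z (n 0 z (n 0 z (n 0 z (n 0 z (n
 0 z (n 0 z (n 0 z (n 0 z (n 0 z (n 0 z (n 0 z (n 0 z (n 0 z (n 0 z (n 0 z (n 0 z (n 0 z (n 0 z
 (n 0 z (n 0 z (n 0 z (n 0 z (n 0 z (n 0 z (n 0 z (n 0 z (n 0 z (n 0 z (n 0 z (n 0 z (n 0 z (n 0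
 z (n 0 z (n 0 z (n 0 z (n 0 z (n 0 z (n 0 z (n 0 z (n 0 z (n 0 z
 z))))))))))))))))))))))))))))))))))))))))))))))))) z)))) (n 0 (n 269 (n
 0x3576081d8e08617e285f7a68e056091d7238d99a37a782561f9d79a176576271f81e75f79b99f7e20041 z (n 0 z
 (n 0 z (n 0 z (n 0 z (n 0 z (n 0 z (n 0 z (n 0 z (n 0 z (n 0 z (n 0 z (n 0 z (n 0 z (n 0 z (n 0
 z (n 0 z (n 0 z (n 0 z (n 0 z (n 0 z (n 0 z (n 0 z (n 0 z (n 0 z (n 0 z (n 0 z (n 0 z (n 0 z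
 z))))))))))))))))))))))))))))) (n 269 (n 0 z (n 0 z (n 0 z (n 0 z (n 0 z (n 0 z (n 0 z (n 0 z
 (n 0 z (n 0 z (n 0 z (n 0 z (n 0 z (n 0 z (n 0 z (n 0 z (n 0 z (n 0 z (n 0 z (n 0 z (n 0 z (n 0
 z (n 0 z (n 0 z (n 0 z (n 0 z (n 0 z (n 0 z (n 0 z z))))))))))))))))))))))))))))) (n 269 (n 0 z
 (n 0 z (n 0 z (n 0 z (n 0 z (n 0 z (n 0 z (n 0 z (n 2 z (n 0 z (n 0 z (n 0 z (n 0 z (n 0 z (n 0
 z (n 0 z (n 0 z (n 0 z (n 0 z (n 0 z (n 0 z (n 0 z (n 0 z (n 0 z (n 0 z (n 0 z (n 0 z (n 0 z (n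
 0 z z))))))))))))))))))))))))))))) z))) (n 0 (n 0 z (n 0 z z)) (n 0 (n 0 z z) (n 0 z
 z)))))))))))))) (n 0 (n 0 z (n 1 (n 3212843 z (n 3212843 z (n 3212843 z (n 3212843 z (n 3212843
 z (n 3212843 z z)))))) (n 1 (n 2668 z (n 2668 z (n 2 z (n 2668 z (n 2668 z (n 2668 z z))))))
 z))) (n 0 (n 0x41d31581a28d54485494144cb5341945d21145d300 (n 0 (n 0 (n 7754019 z (n 7754019 z
 (n 7754019 z (n 7754019 z (n 7754019 z (n 7754019 z z)))))) z) (n 0 (n 171 (n 1 (n 2 z (n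
 7673387 z (n 7754019 z (n 7733787 z (n 2668 z (n 2668 z z)))))) (n 1 (n 7676259 z (n 7676259 z
 (n 7754019 z (n 7676259 z (n 7676259 z (n 7676259 z z)))))) (n 1 (n 3282699 z (n 4396811 z (n
 7754019 z (n 4396811 z (n 4396811 z (n 4396811 z z)))))) (n 0 z z)))) (n 25 (n 1 (n 7406923 z
 (n 2668 z (n 10 z (n 6563595 z (n 7745859 z (n 2668 z z)))))) (n 1 (n 2668 z (n 7406923 z (n
 2668 z (n 4392795 z (n 7745859 z (n 2668 z z)))))) (n 1 (n 3278667 z (n 3278667 z (n 3278667 z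
 (n 7406923 z (n 7745859 z (n 3278667 z z)))))) (n 1 (n 2668 z (n 2668 z (n 2668 z (n 2668 z (n
 7745859 z (n 2668 z z)))))) (n 1 (n 7754019 z (n 7754019 z (n 7754019 z (n 7754019 z (n 7754019
 z (n 7754019 z z)))))) (n 1 (n 2668 z (n 18 z (n 2668 z (n 2668 z (n 7745859 z (n 2668 z
 z)))))) (n 1 (n 2668 z (n 2668 z (n 2668 z (n 2668 z (n 7745859 z (n 2668 z z)))))) z))))))) (n
 129 (n 0 z (n 1 (n 7742747 z (n 7742747 z (n 7676259 z (n 7742747 z (n 7742747 z (n 7742747 z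
 z)))))) (n 1 (n 7745859 z (n 7745859 z (n 7745859 z (n 7745859 z (n 7745859 z (n 7745859 z
 z)))))) z))) (n 27 (n 0 z (n 1 (n 7754019 z (n 7754019 z (n 7754019 z (n 7754019 z (n 7754019 z
 (n 7754019 z z)))))) (n 0 z (n 1 (n 7745859 z (n 7745859 z (n 7745859 z (n 7745859 z (n 7745859
 z (n 7745859 z z)))))) z)))) (n 39 (n 1 (n 6428427 z (n 7611931 z (n 3213163 z (n 124 z (n 1420
 z (n 1420 z z)))))) (n 1 (n 7611931 z (n 7742747 z (n 1420 z (n 7733787 z (n 3213147 z (n 1420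
 z z)))))) (n 1 (n 3278667 z (n 7733787 z (n 3278667 z (n 7742747 z (n 7611931 z (n 3278667 z
 z)))))) (n 1 (n 26 z (n 7733787 z (n 1420 z (n 7611931 z (n 7742747 z (n 1420 z z)))))) (n 1 (n
 7754019 z (n 7754019 z (n 7754019 z (n 7754019 z (n 7754019 z (n 7754019 z z)))))) (n 1 (n 1420
 z (n 7733787 z (n 1420 z (n 1420 z (n 7742747 z (n 1420 z z)))))) (n 1 (n 34 z (n 7611931 z (n
 1420 z (n 7733787 z (n 7742747 z (n 1420 z z)))))) z))))))) (n 0 (n 1 (n 1436 z (n 1436 z (n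
 7676259 z (n 7673387 z (n 1436 z (n 7611931 z z)))))) (n 1 (n 7673387 z (n 7611931 z (n 7676259
 z (n 42 z (n 1436 z (n 1436 z z)))))) (n 1 (n 7673387 z (n 50 z (n 7676259 z (n 7611931 z (n
 1436 z (n 1436 z z)))))) (n 1 (n 6492275 z (n 6559499 z (n 7676259 z (n
 0xbdd51908c0e1aca6ca62037f68707e7c7c725c6f7aadb75a7f2d9cd36782b6647c76ab8889926c8273686ab66f9d518d7e8f86c2a8879651895d9e79751009
 z (n 1436 z (n 1436 z z)))))) (n 1 (n 7754019 z (n 7754019 z (n 7754019 z (n 7754019 z (n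
 7754019 z (n 7754019 z z)))))) (n 1 (n 7745859 z (n 7745859 z (n 7745859 z (n 7745859 z (n
 7745859 z (n 7745859 z z)))))) (n 1 (n 7754019 z (n 7754019 z (n 7754019 z (n 7754019 z (n
 7754019 z (n 7754019 z z)))))) (n 1 (n 7611931 z (n
 0x8374089859581745c6b7c8b7d76867c80689381926c93707a92847cab5b7f6b769a6b5e738b8f8d60737e9286a8787f6e7e9380780049
 z (n 7676259 z (n 7673387 z (n 1436 z (n 1436 z z)))))) z)))))))) (n 129 (n 0 z (n 1 (n 7742747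
 z (n 7742747 z (n 7754019 z (n 7742747 z (n 7742747 z (n 7742747 z z)))))) (n 1 (n 7745859 z (n
 7745859 z (n 7754019 z (n 7745859 z (n 7745859 z (n 7745859 z z)))))) z))) z))))))) (n 0 (n 0
 (n 0 z (n 0 z (n 0 z (n 0 z (n 0 z (n 0 z (n 0 z z))))))) (n 0 (n 0 z (n 0 z (n 0 z (n 0 z (n 0
 z (n 0 z z)))))) (n 0 (n 0 z (n 0 z (n 0 z (n 0 z (n 0 z z))))) (n 0 (n 0 z (n 0 z (n 0 z (n 0
 z z)))) (n 0 (n 0 z (n 0 z (n 0 z z))) (n 0 (n 0 z (n 0 z z)) (n 0 (n 0 z z) z))))))) (n 0 (n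
 333 (n 0 (n 0 z (n 0 z (n 0 z (n 0 z (n 0 z (n 0 z (n 0 z z))))))) (n 0 (n 0 z (n 0 z (n 0 z (n
 0 z (n 0 z (n 0 z (n 0 z z))))))) (n 0 (n 0 z (n 0 z (n 0 z (n 0 z (n 0 z (n 0 z (n 0 z
 z))))))) (n 0 (n 0 z (n 0 z (n 0 z (n 0 z (n 0 z (n 0 z (n 0 z z))))))) (n 0 (n 0 z (n 0 z (n 0
 z (n 0 z (n 0 z (n 0 z (n 0 z z))))))) (n 0 (n 0 z (n 0 z (n 0 z (n 0 z (n 0 z (n 0 z (n 0 z
 z))))))) (n 0 (n 0 (n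
 0x58758608208608208607e082282081f7e182082082082086082082081f8207e08208208207df8600041 z (n
 0x587582181f85f82085f8208227e08207e081f82082081f86082086081e7e07e181f86081f81f8600041 z z)) (n
 0 (n 0x148758227a086189e7e091d7239e07e081c89f91b95b9dd9a07ab8a289589f85f8607e285e8627620041 z
 (n 7678011 z z)) (n 0 z (n 0 (n
 0xb0eb0ca60372b99e910718d55a0f95f7ad6a57d941aa2475e59f85c96d7639557d68e1d9cb5551876985d0801 z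
 (n
 0x48748536038b0c8ca86037a76e39936a2c9888dc10da27dd7d56dd7657d475ba65a2456292461e3ed699c999d4a647591001
 z z)) (n 0 (n
 0x587682181f85f82085f8208227e08207e081f82082081f86082086081e7e07e181f86081f81f8600041 z (n
 0x3874832503830cb0ca60385e92869b5de7df9635a86269267eb61e75f7ee71e89d81a799a1581b863a669626dd6a68df1001
 z z)) (n 0 (n 7678011 z (n
 0x10eb0c860782086082086086081f8217e185f7df81f85f82186182082082182082182086181f81f8207e10801 z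
 z)) (n 0 (n
 0x587682181f85f82085f8208227e08207e081f82082081f86082086081e7e07e181f86081f81f8600041 z (n
 8587115 z z)) z))))))) (n 0 (n 0 z (n 0 z (n 0 z (n 0 z (n 0 z (n 0 z (n 0 z z))))))) (n 0 (n 0
 z (n 0 z (n 0 z (n 0 z (n 0 z (n 0 z (n 0 z z))))))) (n 0 (n 0 z (n 0 z (n 0 z (n 0 z (n 0 z (n
 0 z (n 0 z z))))))) (n 0 (n 0 z (n 0 z (n 0 z (n 0 z (n 0 z (n 0 z (n 0 z z))))))) (n 0 (n 0 z
 (n 0 z (n 0 z (n 0 z (n 0 z (n 0 z (n 0 z z))))))) (n 0 (n 0 z (n 0 z (n 0 z (n 0 z (n 0 z (n 0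
 z (n 0 z z))))))) (n 0 (n 0 z (n 0 z (n 0 z (n 0 z (n 0 z (n 0 z (n 0 z z))))))) (n 0 (n 0 z (n
 0 z (n 0 z (n 0 z (n 0 z (n 0 z (n 0 z z))))))) z))))))))))))))) (n 177 (n 0 (n 0 z (n 0 z (n 0
 z (n 0 z (n 0 z (n 0 z (n 0 z z))))))) (n 0 (n 0 z (n 0 z (n 0 z (n 0 z (n 0 z (n 0 z (n 0 z
 z))))))) (n 0 (n 0 z (n 0 z (n 0 z (n 0 z (n 0 z (n 0 z (n 0 z z))))))) (n 0 (n 0 (n 8455499 z
 (n 8455499 z z)) (n 0 z (n 0 z (n 0 z (n 0 (n 8455499 z (n 8455499 z z)) (n 0 z (n 0 (n 8455499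
 z (n 8455499 z z)) z))))))) z)))) (n 261 (n 0 (n 0 z (n 0 z (n 0 z (n 0 z (n 0 z (n 0 z (n 0 z
 z))))))) (n 0 (n 0 z (n 0 z (n 0 z (n 0 z (n 0 z (n 0 z (n 0 z z))))))) (n 0 (n 0 z (n 0 z (n 0
 z (n 0 z (n 0 z (n 0 z (n 0 z z))))))) (n 0 (n 0 z (n 0 z (n 0 z (n 0 z (n 0 z (n 0 z (n 0 z
 z))))))) (n 0 (n 0 z (n 0 z (n 0 z (n 0 z (n 0 z (n 0 z (n 0 z z))))))) (n 0 (n 0 z (n 0 z (n 0
 z (n 0 z (n 0 z (n 0 z (n 0 z z))))))) (n 0 (n 0 z (n 0 z (n 0 z (n 0 z (n 0 z (n 0 z (n 0 z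
 z))))))) (n 0 (n 0 z (n 0 z (n 0 z (n 0 z (n 0 z (n 0 z (n 0 z z))))))) (n 0 (n 0 z (n 0 z (n 0
 z (n 0 z (n 0 z (n 0 z (n 0 z z))))))) (n 0 (n 0 z (n 0 z (n 0 z (n 0 (n 8455499 z (n 8455499 z
 z)) (n 0 (n 8455499 z (n 8455499 z z)) (n 0 z (n 0 z z))))))) (n 0 (n 0 (n 7669835 z (n 8791819
 z z)) (n 0 z (n 0 z (n 0 z (n 0 z (n 0 (n 7669835 z (n
 0x8387389859581745c6b7c8b7d76867c80689381926c93707a92847cab5b7f6b769a6b5e738b8f8d60737e9286a8787f6e7e9380780049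
 z z)) (n 0 z z))))))) z))))))))))) (n 335 (n 0 (n 0 z (n 0 z (n 0 z (n 0 z (n 0 z (n 0 z (n 0 z
 z))))))) (n 0 (n 0 z (n 0 z (n 0 z (n 0 z (n 0 z (n 0 z (n 0 z z))))))) (n 0 (n 0 (n 8794435 z
 z) (n 0 (n 8794435 z z) (n 0 z (n 0 z (n 0 z (n 0 z (n 0 z z))))))) (n 0 (n 0 z (n 0 z (n 0 z
 (n 0 z (n 0 z (n 0 z (n 0 z z))))))) (n 0 (n 0 (n 8873259 z z) (n 0 (n 8873259 z z) (n 0 z (n 0
 z (n 0 z (n 0 z (n 0 z z))))))) (n 0 (n 0 z (n 0 z (n 0 z (n 0 z (n 0 z (n 0 z (n 0 z z)))))))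
 (n 0 (n 0 z (n 0 z (n 0 z (n 0 z (n 0 z (n 0 z (n 0 z z))))))) z))))))) (n 33 (n 0 (n 0 z (n 0
 z (n 0 z (n 0 z (n 0 z (n 0 z (n 0 z z))))))) (n 0 (n 0 z (n 0 z (n 0 z (n 0 z (n 0 z (n 0 z (n
 0 z z))))))) (n 0 (n 0 z (n 0 z (n 0 z (n 0 z (n 0 z (n 0 z (n 0 z z))))))) (n 0 (n 0 z (n 0 z
 (n 0 z (n 0 z (n 0 z (n 0 (n 8794435 z z) (n 0 z z))))))) (n 0 (n 0 z (n 0 z (n 0 z (n 0 z (n 0
 z (n 0 z (n 0 z z))))))) (n 0 (n 0 z (n 0 z (n 0 z (n 0 z (n 0 z (n 0 z (n 0 z z))))))) (n 0 (n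
 0 z (n 0 z (n 0 z (n 0 z (n 0 (n
 0x358707e9a896f98608972ab6d7d77808d6f8d7a8c747974758b7e7e887a7e837b8d867887827a7b777788986f9e6a7972848980790049
 z (n
 0x290a4238528a48e06927e3a5e81b7a36e4bab6e27a169686d71e59ab9b45c8e4c4e4de767a6181e8227610081 z
 z)) (n 0 z (n 0 (n
 0x587282181f85f82085f8208227e08207e081f82082081f86082086081e7e07e181f86081f81f8600041 z (n
 0x148728227a086189e7e091d7239e07e081c89f91b95b9dd9a07ab8a289589f85f8607e285e8627620041 z z))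
 z))))))) (n 0 (n 0 z (n 0 (n 8455499 z (n 8455499 z z)) (n 0 z (n 0 (n 8455499 z (n 8455499 z
 z)) (n 0 (n 8455499 z (n 8787723 z z)) (n 0 (n 8455499 z (n 8455499 z z)) (n 0 z z))))))) (n 0
 (n 0 z (n 0 z (n 0 z (n 0 z (n 0 (n
 0x8387089859581745c6b7c8b7d76867c80689381926c93707a92847cab5b7f6b769a6b5e738b8f8d60737e9286a8787f6e7e9380780049
 z (n
 0x10eb0ea00785f8207e08208207e08617e08607a082089f85f8208208208208208208208618208208208200801 z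
 z)) (n 0 z (n 0 (n 7755851 z (n 8587115 z z)) z))))))) (n 0 (n 0 (n 8802595 z z) (n 0 z (n 0 z
 (n 0 z (n 0 z (n 0 z (n 0 (n 8802595 z z) z))))))) (n 0 (n 0 z (n 0 z (n 0 z (n 0 (n 8802595 z
 z) (n 0 (n 8802595 z z) (n 0 z (n 0 z z))))))) (n 0 (n 0 z (n 0 z (n 0 z (n 0 z (n 0 z (n 0 z
 (n 0 z z))))))) (n 0 (n 0 (n
 0x587282181f85f82085f8208227e08207e081f82082081f86082086081e7e07e181f86081f81f8600041 z z) (n 0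
 z (n 0 z (n 0 z (n 0 z (n 0 (n
 0x587282181f85f82085f8208227e08207e081f82082081f86082086081e7e07e181f86081f81f8600041 z z) (n 0
 z z))))))) (n 0 (n 0 z (n 0 z (n 0 z (n 0 z (n 0 z (n 0 z (n 0 z z))))))) (n 0 (n 0 z (n 0 z (n
 0 z (n 0 z (n 0 z (n 0 z (n 0 z z))))))) (n 0 (n 0 (n 8873259 z z) (n 0 (n 8873259 z z) (n 0 z
 (n 0 z (n 0 z (n 0 z (n 0 z z))))))) (n 0 (n 0 z (n 0 z (n 0 z (n 0 (n 8802595 z (n 8802595 z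
 z)) (n 0 (n 8802595 z (n 8802595 z z)) (n 0 z (n 0 z z))))))) (n 0 (n 0 z (n 0 z (n 0 z (n 0 z
 (n 0 z (n 0 z (n 0 z z))))))) (n 0 (n 0 z (n 0 (n 8791819 z (n
 0x1587582186089e82191e81f8267618607607de7e17a18608e285f8a181d79e7a37df8a079d85f8df0041 z z)) (n
 0 z (n 0 z (n 0 z (n 0 (n
 0x158606ed851a91a1ad9771b9a53dfa6b49f71f8da822764653ba3662825b1656299aad56de8de85e0041 z (n
 0x25860789581688f698c76a2727a788a87657e8e916a7f7b7f857780837c87756c96847785808893716f8388769170787c857d807d0049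
 z z)) (n 0 z z))))))) (n 0 (n 0 (n 7604315 z (n
 0x587582181f85f82085f8208227e08207e081f82082081f86082086081e7e07e181f86081f81f8600041 z z)) (n
 0 (n 0x1587582186089e82191e81f8267618607607de7e17a18608e285f8a181d79e7a37df8a079d85f8df0041 z
 (n 7610499 z z)) (n 0 z (n 0 (n
 0x8386089859581745c6b7c8b7d76867c80689381926c93707a92847cab5b7f6b769a6b5e738b8f8d60737e9286a8787f6e7e9380780049
 z (n 7604315 z z)) (n 0 z (n 0 (n 7678011 z (n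
 0x8386089859581745c6b7c8b7d76867c80689381926c93707a92847cab5b7f6b769a6b5e738b8f8d60737e9286a8787f6e7e9380780049
 z z)) (n 0 (n
 0x587682181f85f82085f8208227e08207e081f82082081f86082086081e7e07e181f86081f81f8600041 z (n
 8587115 z z)) z))))))) (n 0 (n 0 z (n 0 z (n 0 z (n 0 (n 8855811 z z) (n 0 (n 8802595 z z) (n 0
 z (n 0 z z))))))) (n 0 (n 0 z (n 0 z (n 0 z (n 0 (n 8794435 z z) (n 0 z (n 0 (n 8794435 z z) (n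
 0 z z))))))) (n 0 (n 0 z (n 0 z (n 0 z (n 0 z (n 0 z (n 0 (n 8794435 z (n 8794435 z z)) (n 0 z
 z))))))) (n 0 (n 0 z (n 0 z (n 0 z (n 0 z (n 0 z (n 0 z (n 0 z z))))))) (n 0 (n 0 (n 8802595 z
 (n 8802595 z z)) (n 0 (n 8802595 z (n 8802595 z z)) (n 0 z (n 0 z (n 0 z (n 0 (n 8802595 z (n
 8802595 z z)) (n 0 z z))))))) z))))))))))))))))))))))))) (n 11 (n 0 (n 0 z (n 0 z (n 0 z (n 0 z
 (n 0 z (n 0 z (n 0 z z))))))) (n 0 (n 0 z (n 0 z (n 0 z (n 0 z (n 0 z (n 0 (n 8587035 z z) (n 0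
 z z))))))) (n 0 (n 0 z (n 0 z (n 0 z (n 0 z (n 0 z (n 0 (n 8794435 z z) (n 0 z z))))))) (n 0 (n
 0 z (n 0 z (n 0 z (n 0 z (n 0 z (n 0 z (n 0 z z))))))) (n 0 (n 0 z (n 0 z (n 0 z (n 0 z (n 0 z
 (n 0 z (n 0 z z))))))) z))))) (n 177 (n 0 (n 0 z (n 0 z (n 0 z (n 0 z (n 0 z (n 0 z (n 0 z
 z))))))) (n 0 (n 0 z (n 0 z (n 0 z (n 0 z (n 0 z (n 0 z (n 0 z z))))))) (n 0 (n 0 z (n 0 z (n 0
 z (n 0 z (n 0 z (n 0 z (n 0 z z))))))) (n 0 (n 0 z (n 0 z (n 0 z (n 0 z (n 0 z (n 0 z (n 0 z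
 z))))))) (n 0 (n 0 z (n 0 z (n 0 z (n 0 z (n 0 z (n 0 z (n 0 z z))))))) (n 0 (n 0 z (n 0 z (n 0
 z (n 0 z (n 0 z (n 0 z (n 0 z z))))))) (n 0 (n 0 z (n 0 z (n 0 z (n 0 z (n 0 z (n 0 z (n 0 z
 z))))))) (n 0 (n 0 z (n 0 z (n 0 z (n 0 z (n 0 z (n 0 z (n 0 z z))))))) (n 0 (n 0 z (n 0 z (n 0
 z (n 0 z (n 0 (n
 0x875875301810a70a640782581f89a8dea5c85b8227e38e479d79e7db82089e8629226e185e8d96e189f99d7dc8e27a01001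
 z (n 7542875 z z)) (n 0 z (n 0 (n
 0x1587282186089e82191e81f8267618607607de7e17a18608e285f8a181d79e7a37df8a079d85f8df0041 z (n
 0x1875862303810a70a62038207e182185e8208a17e08218208a27a17a17e17df82181f86081e8218208217e08208207e01001
 z z)) z))))))) (n 0 (n 0 z (n 0 (n
 0x1587582186089e82191e81f8267618607607de7e17a18608e285f8a181d79e7a37df8a079d85f8df0041 z (n
 7678011 z z)) (n 0 z (n 0 (n
 0xd0ed0c6a077f83717e7b7f867f838168859a7277878f7384867d896c937782757c789b834e738078b5777f6a867e7b8f7f8f7d8b757f7b0809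
 z (n 8718107 z z)) (n 0 (n
 0x587682181f85f82085f8208227e08207e081f82082081f86082086081e7e07e181f86081f81f8600041 z (n
 0x130ed0c6a07805b7b947abf778940968a98866c956c50559f898b8191af706b8b8c857f5e99d28f656471a8b76475872caa69997e7879980809
 z z)) (n 0 (n
 0x110c70c2a03778382808e827b7f90778a76866e90775d7d847c78779a7d8570738e875f88aa92837b62948195718c696a76788281778c8f0809
 z (n
 0xd0c8ec460781f72179f8e699f8568e0ae2a609169604da7cfa19aea9245e385fa9946569e9db81d9a169e0801 z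
 z)) (n 0 z z))))))) z)))))))))) (n 39 (n 0 (n 0 z (n 0 z (n 0 z (n 0 z (n 0 z (n 0 z (n 0 z
 z))))))) (n 0 (n 0 z (n 0 z (n 0 z (n 0 z (n 0 z (n 0 z (n 0 z z))))))) (n 0 (n 0 z (n 0 z (n 0
 z (n 0 z (n 0 z (n 0 z (n 0 z z))))))) (n 0 (n 0 z (n 0 z (n 0 z (n 0 z (n 0 z (n 0 z (n 0 z
 z))))))) (n 0 (n 0 z (n 0 z (n 0 z (n 0 z (n 0 z (n 0 z (n 0 z z))))))) (n 0 (n 0 z (n 0 z (n 0
 z (n 0 z (n 0 z (n 0 z (n 0 z z))))))) (n 0 (n 0 z (n 0 z (n 0 z (n 0 z (n 0 z (n 0 z (n 0 z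
 z))))))) z))))))) (n 15 (n 0 (n 0 z (n 0 z (n 0 z (n 0 z (n 0 z (n 0 z (n 0 z z))))))) (n 0 (n
 0 z (n 0 z (n 0 z (n 0 z (n 0 z (n 0 z (n 0 z z))))))) (n 0 (n 0 z (n 0 z (n 0 z (n 0 z (n 0 z
 (n 0 z (n 0 z z))))))) (n 0 (n 0 z (n 0 z (n 0 z (n 0 z (n 0 z (n 0 z (n 0 z z))))))) (n 0 (n 0
 z (n 0 z (n 0 z (n 0 z (n 0 z (n 0 z (n 0 z z))))))) (n 0 (n 0 z (n 0 z (n 0 z (n 0 z (n 0 z (n
 0 z (n 0 z z))))))) (n 0 (n 0 z (n 0 z (n 0 z (n 0 z (n 0 z (n 0 z (n 0 z z))))))) (n 0 (n 0 z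
 (n 0 z (n 0 z (n 0 z (n 0 z (n 0 z (n 0 z z))))))) (n 0 (n 0 z (n 0 z (n 0 z (n 0 z (n 0 z (n 0
 z (n 0 z z))))))) z))))))))) (n 27 (n 0 (n 0 (n
 0x587582181f85f82085f8208227e08207e081f82082081f86082086081e7e07e181f86081f81f8600041 z z) (n 0
 (n 0x587582181f85f82085f8208227e08207e081f82082081f86082086081e7e07e181f86081f81f8600041 z z)
 (n 0 z (n 0 z (n 0 z (n 0 z (n 0 z z))))))) (n 0 (n 0 z (n 0 z (n 0 z (n 0 z (n 0 z (n 0 z (n 0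
 z z))))))) (n 0 (n 0 (n 8660507 z (n 8791819 z z)) (n 0 z (n 0 z (n 0 z (n 0 z (n 0 (n 8660507
 z (n 8660507 z z)) (n 0 z z))))))) (n 0 (n 0 z (n 0 z (n 0 z (n 0 z (n 0 z (n 0 z (n 0 z
 z))))))) (n 0 (n 0 z (n 0 z (n 0 z (n 0 z (n 0 z (n 0 z (n 0 z z))))))) (n 0 (n 0 z (n 0 z (n 0
 z (n 0 z (n 0 z (n 0 z (n 0 z z))))))) (n 0 (n 0 z (n 0 z (n 0 z (n 0 z (n 0 z (n 0 z (n 0 z
 z))))))) (n 0 (n 0 z (n 0 z (n 0 (n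
 0xd87082086085f8218de8208247a18607a07df7e17e18608a181f86181e7a07e27df8607de82089f0041 z z) (n 0
 z (n 0 z (n 0 z (n 0 z z))))))) (n 0 (n 0 (n 2164795 z z) (n 0 (n 2164795 z z) (n 0 z (n 0 z (n
 0 z (n 0 z (n 0 z z))))))) (n 0 (n 0 (n
 0x358607e9a896f98608972ab6d7d77808d6f8d7a8c747974758b7e7e887a7e837b8d867887827a7b777788986f9e6a7972848980790049
 z (n 7669819 z z)) (n 0 (n
 0x587582181f85f82085f8208227e08207e081f82082081f86082086081e7e07e181f86081f81f8600041 z (n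
 7669819 z z)) (n 0 z (n 0 z (n 0 z (n 0 (n 7669819 z (n 8587035 z z)) (n 0 z z)))))))
 z)))))))))) (n 179 (n 0 (n 0 z (n 0 z (n 0 z (n 0 z (n 0 z (n 0 z (n 0 z z))))))) (n 0 (n 0 z
 (n 0 z (n 0 z (n 0 z (n 0 z (n 0 z (n 0 z z))))))) (n 0 (n 0 z (n 0 z (n 0 z (n 0 z (n 0 z (n 0
 z (n 0 z z))))))) (n 0 (n 0 z (n 0 z (n 0 z (n 0 z (n 0 z (n 0 z (n 0 z z))))))) (n 0 (n 0 z (n
 0 (n 8587115 z z) (n 0 z (n 0 z (n 0 z (n 0 (n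
 0x148728227a086189e7e091d7239e07e081c89f91b95b9dd9a07ab8a289589f85f8607e285e8627620041 z z) (n
 0 z z))))))) (n 0 (n 0 z (n 0 z (n 0 z (n 0 z (n 0 z (n 0 z (n 0 z z))))))) (n 0 (n 0 z (n 0 z
 (n 0 z (n 0 z (n 0 z (n 0 z (n 0 z z))))))) (n 0 (n 0 z (n 0 z (n 0 z (n 0 z (n 0 z (n 0 z (n 0
 z z))))))) (n 0 (n 0 z (n 0 z (n 0 z (n 0 (n 8802595 z z) (n 0 z (n 0 z (n 0 z z))))))) (n 0 (n
 0 z (n 0 z (n 0 z (n 0 z (n 0 z (n 0 z (n 0 z z))))))) (n 0 (n 0 z (n 0 z (n 0 z (n 0 z (n 0 z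
 (n 0 z (n 0 z z))))))) (n 0 (n 0 z (n 0 z (n 0 z (n 0 z (n 0 (n 8802595 z z) (n 0 z (n 0 z
 z))))))) (n 0 (n 0 z (n 0 z (n 0 z (n 0 z (n 0 z (n 0 z (n 0 z z))))))) (n 0 (n 0 z (n 0 z (n 0
 z (n 0 z (n 0 z (n 0 z (n 0 z z))))))) (n 0 (n 0 z (n 0 z (n 0 z (n 0 z (n 0 z (n 0 z (n 0 z
 z))))))) (n 0 (n 0 z (n 0 z (n 0 z (n 0 z (n 0 (n 8724835 z z) (n 0 z (n 0 z z))))))) (n 0 (n 0
 (n 0x587682181f85f82085f8208227e08207e081f82082081f86082086081e7e07e181f86081f81f8600041 z (n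
 0x290c2238618a48e06927e3a5e81b7a36e4bab6e27a169686d71e59ab9b45c8e4c4e4de767a6181e8227610081 z
 z)) (n 0 (n
 0x587682181f85f82085f8208227e08207e081f82082081f86082086081e7e07e181f86081f81f8600041 z (n
 0x25876789581688f698c76a2727a788a87657e8e916a7f7b7f857780837c87756c96847785808893716f8388769170787c857d807d0049
 z z)) (n 0 z (n 0 (n 8718107 z (n
 0xd87381f8608208608608607e07e08a07e082085f8208608218207e08208208208208207df8208600041 z z)) (n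
 0 (n
 0x358767e9a896f98608972ab6d7d77808d6f8d7a8c747974758b7e7e887a7e837b8d867887827a7b777788986f9e6a7972848980790049
 z (n
 0x7d87180756f80718d8b937c856e7e987c6e80b5717d7a8c88628b77738d7e77958565818373a2917a5c8a5e897788818291707c7f0049
 z z)) (n 0 z (n 0 (n
 0x25876789581688f698c76a2727a788a87657e8e916a7f7b7f857780837c87756c96847785808893716f8388769170787c857d807d0049
 z (n
 0x290c2238618a48e06927e3a5e81b7a36e4bab6e27a169686d71e59ab9b45c8e4c4e4de767a6181e8227610081 z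
 z)) z))))))) z))))))))))))))))) (n 45 (n 0 (n 0 z (n 0 z (n 0 z (n 0 z (n 0 z (n 0 z (n 0 z
 z))))))) (n 0 (n 0 z (n 0 z (n 0 z (n 0 z (n 0 z (n 0 z (n 0 z z))))))) (n 0 (n 0 (n
 0x358767e9a896f98608972ab6d7d77808d6f8d7a8c747974758b7e7e887a7e837b8d867887827a7b777788986f9e6a7972848980790049
 z (n 8791819 z z)) (n 0 z (n 0 z (n 0 z (n 0 (n
 0x8387689859581745c6b7c8b7d76867c80689381926c93707a92847cab5b7f6b769a6b5e738b8f8d60737e9286a8787f6e7e9380780049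
 z (n 8787723 z z)) (n 0 z (n 0 (n
 0x358767e9a896f98608972ab6d7d77808d6f8d7a8c747974758b7e7e887a7e837b8d867887827a7b777788986f9e6a7972848980790049
 z (n 8791819 z z)) z))))))) (n 0 (n 0 z (n 0 z (n 0 z (n 0 z (n 0 z (n 0 z (n 0 z z))))))) (n 0
 (n 0 z (n 0 z (n 0 z (n 0 z (n 0 z (n 0 z (n 0 z z))))))) (n 0 (n 0 z (n 0 z (n 0 z (n 0 z (n 0
 z (n 0 z (n 0 z z))))))) (n 0 (n 0 z (n 0 z (n 0 z (n 0 z (n 0 z (n 0 z (n 0 z z))))))) (n 0 (n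
 0 z (n 0 z (n 0 z (n 0 z (n 0 z (n 0 z (n 0 z z))))))) (n 0 (n 0 (n 8721963 z z) (n 0 z (n 0 z
 (n 0 z (n 0 z (n 0 z (n 0 z z))))))) (n 0 (n 0 z (n 0 z (n 0 z (n 0 (n
 0x8387289859581745c6b7c8b7d76867c80689381926c93707a92847cab5b7f6b769a6b5e738b8f8d60737e9286a8787f6e7e9380780049
 z z) (n 0 z (n 0 (n
 0x148728227a086189e7e091d7239e07e081c89f91b95b9dd9a07ab8a289589f85f8607e285e8627620041 z z) (n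
 0 z z))))))) (n 0 (n 0 z (n 0 z (n 0 z (n 0 z (n 0 z (n 0 z (n 0 z z))))))) (n 0 (n 0 (n
 0x148728227a086189e7e091d7239e07e081c89f91b95b9dd9a07ab8a289589f85f8607e285e8627620041 z z) (n
 0 z (n 0 z (n 0 z (n 0 z (n 0 (n
 0x25873789581688f698c76a2727a788a87657e8e916a7f7b7f857780837c87756c96847785808893716f8388769170787c857d807d0049
 z z) (n 0 z z))))))) (n 0 (n 0 z (n 0 z (n 0 z (n 0 z (n 0 z (n 0 z (n 0 z z))))))) (n 0 (n 0 z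
 (n 0 z (n 0 z (n 0 (n 8802595 z z) (n 0 z (n 0 z (n 0 z z))))))) (n 0 (n 0 z (n 0 z (n 0 z (n 0
 z (n 0 z (n 0 z (n 0 z z))))))) (n 0 (n 0 z (n 0 z (n 0 z (n 0 z (n 0 z (n 0 z (n 0 z z)))))))
 (n 0 (n 0 (n 8721963 z z) (n 0 (n 8721963 z z) (n 0 z (n 0 z (n 0 z (n 0 z (n 0 z z))))))) (n 0
 (n 0 z (n 0 z (n 0 z (n 0 z (n 0 (n 8724835 z z) (n 0 z (n 0 z z))))))) (n 0 (n 0 z (n 0 z (n 0
 z (n 0 z (n 0 z (n 0 z (n 0 z z))))))) (n 0 (n 0 (n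
 0x7d86280756f80718d8b937c856e7e987c6e80b5717d7a8c88628b77738d7e77958565818373a2917a5c8a5e897788818291707c7f0049
 z (n 0x3587681d8e08617e285f7a68e056091d7238d99a37a782561f9d79a176576271f81e75f79b99f7e20041 z
 z)) (n 0 z (n 0 z (n 0 z (n 0 (n 8787723 z (n 7538779 z z)) (n 0 z (n 0 (n
 0x7d86280756f80718d8b937c856e7e987c6e80b5717d7a8c88628b77738d7e77958565818373a2917a5c8a5e897788818291707c7f0049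
 z (n 0x2d87681d8a08617e285f7a58a05e091e7628da9637a68246a199996076476171f81e75f7dc9607e10041 z
 z)) z))))))) z)))))))))))))))))))) (n 21 (n 0 (n 0 z (n 0 z (n 0 z (n 0 z (n 0 z (n 0 z (n 0 z
 z))))))) (n 0 (n 0 z (n 0 z (n 0 z (n 0 z (n 0 z (n 0 z (n 0 z z))))))) (n 0 (n 0 z (n 0 z (n 0
 z (n 0 z (n 0 z (n 0 z (n 0 z z))))))) (n 0 (n 0 z (n 0 z (n 0 z (n 0 z (n 0 z (n 0 z (n 0 z
 z))))))) (n 0 (n 0 z (n 0 z (n 0 z (n 0 z (n 0 z (n 0 z (n 0 z z))))))) (n 0 (n 0 z (n 0 z (n 0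
 z (n 0 z (n 0 z (n 0 z (n 0 z z))))))) (n 0 (n 0 (n
 0x8386089859581745c6b7c8b7d76867c80689381926c93707a92847cab5b7f6b769a6b5e738b8f8d60737e9286a8787f6e7e9380780049
 z z) (n 0 z (n 0 z (n 0 z (n 0 z (n 0 (n
 0x25873789581688f698c76a2727a788a87657e8e916a7f7b7f857780837c87756c96847785808893716f8388769170787c857d807d0049
 z z) (n 0 z z))))))) (n 0 (n 0 z (n 0 (n 8724835 z z) (n 0 z (n 0 z (n 0 z (n 0 (n 8724835 z z)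
 (n 0 z z))))))) (n 0 (n 0 z (n 0 z (n 0 z (n 0 z (n 0 z (n 0 z (n 0 z z))))))) (n 0 (n 0 z (n 0
 z (n 0 z (n 0 z (n 0 (n
 0x58718608208608208607e082282081f7e182082082082086082082081f8207e08208208207df8600041 z z) (n 0
 z (n 0 z z))))))) (n 0 (n 0 z (n 0 z (n 0 z (n 0 z (n 0 z (n 0 z (n 0 z z))))))) (n 0 (n 0 z (n
 0 z (n 0 z (n 0 z (n 0 z (n 0 z (n 0 z z))))))) (n 0 (n 0 z (n 0 z (n 0 z (n 0 (n 8724835 z z)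
 (n 0 z (n 0 z (n 0 z z))))))) (n 0 (n 0 z (n 0 z (n 0 z (n 0 z (n 0 z (n 0 (n
 0x8387189859581745c6b7c8b7d76867c80689381926c93707a92847cab5b7f6b769a6b5e738b8f8d60737e9286a8787f6e7e9380780049
 z z) (n 0 z z))))))) z)))))))))))))) (n 29 (n 0 (n 0 z (n 0 z (n 0 z (n 0 z (n 0 z (n 0 z (n 0
 z z))))))) (n 0 (n 0 z (n 0 z (n 0 z (n 0 z (n 0 z (n 0 z (n 0 z z))))))) (n 0 (n 0 z (n 0 z (n
 0 z (n 0 z (n 0 z (n 0 z (n 0 z z))))))) (n 0 (n 0 z (n 0 z (n 0 z (n 0 (n 8718107 z z) (n 0 z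
 (n 0 (n 8587035 z z) (n 0 z z))))))) (n 0 (n 0 z (n 0 z (n 0 z (n 0 z (n 0 z (n 0 z (n 0 z
 z))))))) (n 0 (n 0 z (n 0 z (n 0 z (n 0 (n 8802595 z z) (n 0 z (n 0 z (n 0 z z))))))) (n 0 (n 0
 z (n 0 z (n 0 z (n 0 z (n 0 z (n 0 z (n 0 z z))))))) (n 0 (n 0 z (n 0 z (n 0 z (n 0 z (n 0 z (n
 0 z (n 0 z z))))))) (n 0 (n 0 z (n 0 z (n 0 z (n 0 z (n 0 z (n 0 z (n 0 z z))))))) (n 0 (n 0 z
 (n 0 z (n 0 z (n 0 z (n 0 z (n 0 z (n 0 z z))))))) (n 0 (n 0 z (n 0 z (n 0 z (n 0 z (n 0 z (n 0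
 z (n 0 z z))))))) z))))))))))) (n 4 (n 0 (n 0 z (n 0 z (n 0 z (n 0 z (n 0 z (n 0 z (n 0 z
 z))))))) (n 0 (n 0 z (n 0 z (n 0 z (n 0 z (n 0 z (n 0 z (n 0 z z))))))) (n 0 (n 0 z (n 0 z (n 0
 z (n 0 z (n 0 z (n 0 z (n 0 z z))))))) (n 0 (n 0 z (n 0 z (n 0 z (n 0 z (n 0 z (n 0 z (n 0 z
 z))))))) (n 0 (n 0 z (n 0 z (n 0 z (n 0 z (n 0 z (n 0 z (n 0 z z))))))) (n 0 (n 0 z (n 0 z (n 0
 z (n 0 z (n 0 z (n 0 z (n 0 z z))))))) (n 0 (n 0 z (n 0 z (n 0 z (n 0 z (n 0 z (n 0 z (n 0 z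
 z))))))) (n 0 (n 0 z (n 0 z (n 0 z (n 0 (n 8724835 z z) (n 0 z (n 0 z (n 0 z z))))))) (n 0 (n 0
 z (n 0 z (n 0 z (n 0 z (n 0 z (n 0 z (n 0 z z))))))) (n 0 (n 0 z (n 0 z (n 0 z (n 0 z (n 0 z (n
 0 (n
 0x8387189859581745c6b7c8b7d76867c80689381926c93707a92847cab5b7f6b769a6b5e738b8f8d60737e9286a8787f6e7e9380780049
 z z) (n 0 z z))))))) (n 0 (n 0 z (n 0 z (n 0 z (n 0 z (n 0 z (n 0 z (n 0 z z))))))) (n 0 (n 0 z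
 (n 0 z (n 0 z (n 0 (n 8802595 z z) (n 0 z (n 0 z (n 0 z z))))))) z)))))))))))) (n 333 (n 0 (n 0
 z (n 0 z (n 0 z (n 0 z (n 0 z (n 0 z (n 0 z z))))))) (n 0 (n 0 z (n 0 z (n 0 z (n 0 z (n 0 z (n
 0 z (n 0 z z))))))) (n 0 (n 0 (n 8782363 z z) (n 0 z (n 0 z (n 0 z (n 0 z (n 0 z (n 0 (n
 8782363 z z) z))))))) (n 0 (n 0 z (n 0 z (n 0 z (n 0 z (n 0 z (n 0 z (n 0 z z))))))) (n 0 (n 0
 z (n 0 z (n 0 z (n 0 z (n 0 z (n 0 z (n 0 z z))))))) (n 0 (n 0 z (n 0 z (n 0 z (n 0 z (n 0 z (n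
 0 z (n 0 z z))))))) (n 0 (n 0 z (n 0 z (n 0 z (n 0 z (n 0 z (n 0 z (n 0 z z))))))) (n 0 (n 0 z
 (n 0 z (n 0 z (n 0 z (n 0 z (n 0 z (n 0 z z))))))) z)))))))) (n 257 (n 0 (n 0 z (n 0 z (n 0 z
 (n 0 z (n 0 z (n 0 z (n 0 z z))))))) (n 0 (n 0 z (n 0 z (n 0 z (n 0 z (n 0 z (n 0 z (n 0 z
 z))))))) (n 0 (n 0 (n
 0x148728227a086189e7e091d7239e07e081c89f91b95b9dd9a07ab8a289589f85f8607e285e8627620041 z z) (n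
 0 z (n 0 z (n 0 z (n 0 z (n 0 (n
 0x1d8736af84db0da58f156daa262dfaed3e06df919822765610ca3623825bd44e29d9b9269d91d85e0041 z z) (n
 0 z z))))))) (n 0 (n 0 z (n 0 z (n 0 z (n 0 z (n 0 z (n 0 z (n 0 z z))))))) (n 0 (n 0 z (n 0 z
 (n 0 z (n 0 z (n 0 z (n 0 z (n 0 z z))))))) (n 0 (n 0 z (n 0 z (n 0 z (n 0 z (n 0 z (n 0 z (n 0
 z z))))))) (n 0 (n 0 z (n 0 z (n 0 z (n 0 z (n 0 z (n 0 z (n 0 z z))))))) (n 0 (n 0 z (n 0 z (n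
 0 z (n 0 z (n 0 z (n 0 z (n 0 z z))))))) z)))))))) (n 129 (n 0 (n 0 z (n 0 z (n 0 z (n 0 z (n 0
 z (n 0 z (n 0 z z))))))) (n 0 (n 0 z (n 0 z (n 0 z (n 0 z (n 0 z (n 0 z (n 0 z z))))))) (n 0 (n
 0 z (n 0 z (n 0 z (n 0 z (n 0 z (n 0 z (n 0 z z))))))) z))) (n 27 (n 0 (n 0 z (n 0 z (n 0 z (n
 0 z (n 0 z (n 0 z (n 0 z z))))))) (n 0 (n 0 z (n 0 z (n 0 z (n 0 z (n 0 z (n 0 z (n 0 z
 z))))))) (n 0 (n 0 z (n 0 z (n 0 z (n 0 z (n 0 z (n 0 z (n 0 z z))))))) (n 0 (n 0 (n 8794435 z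
 z) (n 0 (n 8794435 z z) (n 0 z (n 0 z (n 0 z (n 0 z (n 0 z z))))))) z)))) (n 1 (n 0 (n 0 z (n 0
 z (n 0 z (n 0 z (n 0 z (n 0 z (n 0 z z))))))) (n 0 (n 0 z (n 0 z (n 0 z (n 0 z (n 0 z (n 0 z (n
 0 z z))))))) (n 0 (n 0 z (n 0 z (n 0 z (n 0 z (n 0 z (n 0 z (n 0 z z))))))) (n 0 (n 0 z (n 0 z
 (n 0 z (n 0 z (n 0 z (n 0 z (n 0 z z))))))) (n 0 (n 0 z (n 0 z (n 0 z (n 0 z (n 0 z (n 0 z (n 0
 z z))))))) (n 0 (n 0 z (n 0 z (n 0 z (n 0 z (n 0 z (n 0 z (n 0 z z))))))) (n 0 (n 0 z (n 0 z (n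
 0 z (n 0 z (n 0 z (n 0 z (n 0 z z))))))) (n 0 (n 0 z (n 0 z (n 0 z (n 0 z (n 0 z (n 0 z (n 0 z
 z))))))) (n 0 (n 0 z (n 0 z (n 0 z (n 0 z (n 0 z (n 0 z (n 0 z z))))))) (n 0 (n 0 z (n 0 z (n 0
 z (n 0 z (n 0 z (n 0 z (n 0 z z))))))) z)))))))))) (n 0 (n 0 (n 0 (n 8873011 z z) (n 0 (n
 8873011 z z) (n 0 z (n 0 z (n 0 z (n 0 z (n 0 z z))))))) (n 0 (n 0 z (n 0 z (n 0 z (n 0 z (n 0
 z (n 0 z (n 0 z z))))))) (n 0 (n 0 z (n 0 z (n 0 z (n 0 z (n 0 z (n 0 z (n 0 z z))))))) (n 0 (n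
 0 z (n 0 z (n 0 z (n 0 z (n 0 z (n 0 z (n 0 z z))))))) (n 0 (n 0 z (n 0 (n 8802595 z z) (n 0 z
 (n 0 z (n 0 z (n 0 (n 8802595 z z) (n 0 z z))))))) (n 0 (n 0 z (n 0 z (n 0 z (n 0 z (n 0 z (n 0
 z (n 0 z z))))))) (n 0 (n 0 z (n 0 z (n 0 z (n 0 z (n 0 z (n 0 z (n 0 z z))))))) (n 0 (n 0 z (n
 0 z (n 0 z (n 0 z (n 0 z (n 0 z (n 0 z z))))))) z)))))))) z))))))))))))))))))))) z)))) z) z))))
 z))))))), by decide +kernel⟩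
theorem i10673 : ∃ t, chkR KT RW t 10673 10677 = true := ⟨(n
 0x186564c16b6514a320a89902a544355262b5029288095c80 (n 0 (n 561 (n 2 z (n 0 z (n 3282443 z (n 10
 z (n 18 z z))))) (n 435 (n 0 z (n 0 z (n 3278363 z (n 0 z (n 0 z (n 0 z z)))))) (n 137 (n 0 z
 (n 0 z (n 0 z (n 3212843 z (n 0 z (n 0 z (n 0 z (n 0 z z)))))))) (n 3 (n 0 z (n 0 z (n 6488603
 z z))) (n 1 (n 26 z (n 34 z (n 42 z (n 2164299 z (n 0 z (n 50 z (n 58 z (n 66 z z)))))))) (n 0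
 (n 0 z (n 0 z (n 0 z (n 0 z (n 0 z (n 6624043 z z)))))) z)))))) (n 3 (n 0 (n 0 z (n 0 z (n 281
 (n 0 z (n 0 z (n 0 z (n 0 z (n 0 z (n 0 z (n 0 z (n 0 z (n 0 z (n 0 z (n 0 z (n 0 z (n 0 z (n 0
 z (n 0 z (n 0 z (n 0 z z))))))))))))))))) (n 281 (n 0 z (n 0 z (n 0 z (n 0 z (n 0 z (n 0 z (n 0
 z (n 0 z (n 0 z (n 0 z (n 0 z (n 0 z (n 0 z (n 7685659 z (n 0 z (n 0 z (n 0 z
 z))))))))))))))))) (n 281 (n 0 z (n 0 z (n 2 (n 0 z (n 0 z (n 0 z z))) (n 0 z (n 0 z (n 0 z (n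
 0 z (n 0 z (n 0 z (n 0 z (n 0 z (n 0 z (n 0 z (n 0 z (n 0 z (n 0 z (n 0 z z))))))))))))))))) (n
 281 (n 0 z (n 0 z (n 0 z (n 0 z (n 0 z (n 0 z (n 0 z (n 0 z (n 0 z (n 0 z (n 0 z (n 0 z (n 0 z
 (n 0 z (n 0 z (n 0 z (n 0 z z))))))))))))))))) (n 281 (n 0 z (n 0 z (n 0 z (n 0 z (n 0 z (n 0 z
 (n 0 z (n 0 z (n 0 z (n 0 z (n 0 z (n 0 z (n 0 z (n 0 z (n 0 z (n 0 z (n 0 z z)))))))))))))))))
 (n 281 (n 0 z (n 0 z (n 0 z (n 0 z (n 0 z (n 0 z (n 0 z (n 0 z (n 0 z (n 0 z (n 0 z (n 0 z (n 0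
 z (n 0 z (n 0 z (n 0 z (n 0 z z))))))))))))))))) z)))))))) (n 0 (n 0 z (n 15 (n 0 z (n 0 z (n 0
 z (n 0 z (n 0 z (n 0 z (n 0 z (n 0 z z)))))))) (n 15 (n 0 z (n 0 z (n 7614819 z (n 0 z (n 0 z
 (n 0 z (n 0 z (n 0 z z)))))))) (n 15 (n 0 z (n 2 (n 0 z (n 0 z (n 0 z z))) (n 0 z (n 0 z (n 0 z
 (n 0 z (n 0 z (n 0 z z)))))))) (n 15 (n 0 z (n 0 z (n 0 z (n 7749715 z (n 0 z (n 0 z (n 0 z (n
 0 z z)))))))) (n 15 (n 0 z (n 0 z (n 0 z (n 0 z (n 0 z (n 0 z (n 0 z (n 2 (n 0 z z) z))))))))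
 (n 15 (n 0 z (n 0 z (n 0 z (n 0 z (n 0 z (n 0 z (n 2 z (n 0 z z)))))))) z))))))) (n 0 (n 723 (n
 0 z (n 0 z (n 0 z (n 0 z (n 0 z (n 0 z (n 0 z (n 0 z (n 0 z (n 0 z (n 0 z (n 0 z (n 0 z (n 0 z
 (n 0 z (n 0 z (n 0 z (n 0 z (n 0 z (n 0 z (n 0 z (n 0 z z)))))))))))))))))))))) (n 723 (n 0 z
 (n 0 z (n 0 z (n 0 z (n 0 z (n 0 z (n 0 z (n 0 z (n 0 z (n 0 z (n 0 z (n 0 z (n 7685691 z (n 0
 z (n 0 z (n 0 z (n 0 z (n 0 z (n 0 z (n 0 z (n 0 z (n 0 z z)))))))))))))))))))))) (n 723 (n 0 z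
 (n 0 z (n 0 z (n 0 z (n 0 z (n 0 z (n 2 (n 0 z (n 0 z (n 0 z z))) (n 0 z (n 0 z (n 0 z (n 0 z
 (n 0 z (n 0 z (n 0 z (n 0 z (n 0 z (n 0 z (n 0 z (n 0 z (n 0 z (n 0 z (n 0 z
 z)))))))))))))))))))))) (n 723 (n 0 z (n 0 z (n 0 z (n 0 z (n 0 z (n 0 z (n 0 z (n 0 z (n 0 z
 (n 0 z (n 0 z (n 0 z (n 0 z (n 0 z (n 0 z (n 0 z (n 0 z (n 0 z (n 0 z (n 0 z (n 0 z (n 0 z
 z)))))))))))))))))))))) (n 723 (n 0 z (n 0 z (n 0 z (n 0 z (n 0 z (n 0 z (n 0 z (n 0 z (n 0 z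
 (n 0 z (n 0 z (n 0 z (n 0 z (n 0 z (n 0 z (n 0 z (n 0 z (n 0 z (n 0 z (n 0 z (n 0 z (n 0 z
 z)))))))))))))))))))))) (n 723 (n 0 z (n 0 z (n 0 z (n 0 z (n 0 z (n 0 z (n 0 z (n 0 z (n 0 z
 (n 0 z (n 0 z (n 0 z (n 0 z (n 0 z (n 0 z (n 0 z (n 0 z (n 0 z (n 0 z (n 0 z (n 0 z (n 0 z
 z)))))))))))))))))))))) z)))))) (n 0 (n 0 z (n 0 z (n 0 z (n 0 z (n 0 z z))))) (n 0 (n 0 z (n 0
 z (n 0 z (n 0 z z)))) (n 0 (n 0 z (n 0 z (n 0 z z))) (n 0 (n 0 z (n 0 z z)) (n 0 (n 0 z z) (n 0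
 z z))))))))) (n 0 (n 0 z (n 0 z (n 1 (n 6488603 z (n 6488603 z (n 6488603 z (n 6488603 z (n
 6488603 z (n 6488603 z z)))))) z))) (n 0 z z)))) (n
 0x2d51d15592890a343889a1a8550ac4ed155928851882314 (n 0 (n 471 (n 0 z (n 0 z (n 3282443 z (n 0 z
 (n 0 z z))))) (n 35 (n 3278363 z (n 0 z z)) (n 9 (n 0 z (n 0 z (n 0 z (n 0 z (n 3212843 z (n 0
 z (n 0 z (n 0 z z)))))))) (n 3 (n 0 z (n 0 z (n 6488603 z (n 0 z (n 0 z (n 0 z (n 0 z (n 0 z (n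
 0 z (n 0 z (n 0 z (n 0 z (n 0 z (n 0 z z)))))))))))))) (n 25 (n 2 z (n 0 z (n
 0x1a6208007fc7ff7fa80d80e7fc7ed8137f48008008027fe7fc7fc8017f77f580e7fc80880d7f48007f58188137f580180980b7fc80b7ef7ed8137fe7f67ff80e7e47fd8017fd7fc7fd7f88088000051
 z (n 10 z (n 0 z (n 18 z (n
 0x1a6508007fc7ff7fa80d80e7fc7ed8137f48008008027fe7fc7fc8017f77f580e7fc80880d7f48007f58188137f580180980b7fc80b7ef7ed8137fe7f67ff80e7e47fd8017fd7fc7fd7f88088000051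
 z (n 6558507 z (n
 0x2a6528007fa80080c7f77fe8028038037fd8008008038057f67eb7ff8277f57fe7fb81b8087ea7f280b8027f57ee7ee7f980c8148028127f38188078048007d37de7ef80483580c7e27f680b8000051
 z z))))))))) (n 0 (n 26 z (n 34 z (n 42 z (n
 0x3931080b26208007db7fc8078288117d07c78217e37ff8008177f181c7f57dc7da7fe8128197e983e7f181b7b582282b82c7eb81b80a7de80b7c87df8237ed7de81483b8078168007ad7e78367fb8017fe0091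
 z (n
 0x24c86c864038008028007d98067ca82380b8068317ff8017ff83180a8357e07dc7f27e08097ea7fa7fd8017bb81775e80e82d7ba83683082382e7d47f57e081d80b7e57c485b7ce84f7c47f38597ce7ec0811
 z (n
 0x1a6208007fc7ff7fa80d80e7fc7ed8137f48008008027fe7fc7fc8017f77f580e7fc80880d7f48007f58188137f580180980b7fc80b7ef7ed8137fe7f67ff80e7e47fd8017fd7fc7fd7f88088000051
 z (n 50 z (n 58 z (n 66 z (n
 0x2a6408007fa80080c7f77fe8028038037fd8008008038057f67eb7ff8277f57fe7fb81b8087ea7f280b8027f57ee7ee7f980c8148028127f38188078048007d37de7ef80483580c7e27f680b8000051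
 z (n 2164315 z z))))))))))) z)))))) (n 35 (n 0 (n 0 z (n 0 z (n 505 (n 0 z (n 0 z (n 0 z (n 0 z
 (n 0 z (n 0 z (n 0 z (n 0 z (n 0 z (n 0 z (n 0 z (n 0 z (n 0 z (n 0 z (n 0 z (n 0 z (n 0 z (n 0
 z (n 0 z (n 0 z (n 0 z (n 0 z (n 0 z (n 0 z (n 0 z (n 0 z (n 0 z (n 7669307 z (n 0 z (n 0 z (n
 0 z (n 0 z (n 0 z (n 0 z (n 0 z (n 0 z (n 0 z (n 0 z (n 0 z (n 0 z (n 0 z (n 0 z (n 0 z (n 0 z
 (n 0 z (n 0 z z)))))))))))))))))))))))))))))))))))))))))))))) (n 505 (n 0 z (n 0 z (n 0 z (n 0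
 z (n 0 z (n 0 z (n 0 z (n 0 z (n 0 z (n 0 z (n 0 z (n 0 z (n 0 z (n 0 z (n 0 z (n 0 z (n 0 z (n
 0 z (n 0 z (n 0 z (n 0 z (n 0 z (n 0 z (n 0 z (n 0 z (n 0 z (n 0 z (n 0 z (n 0 z (n 0 z (n 0 z
 (n 0 z (n 0 z (n 0 z (n 0 z (n 0 z (n 0 z (n 0 z (n 0 z (n 0 z (n 0 z (n 0 z (n 0 z (n 0 z (n 0
 z (n 0 z z)))))))))))))))))))))))))))))))))))))))))))))) (n 505 (n 0 z (n 0 z (n 0 z (n 0 z (n
 0 z (n 0 z (n 0 z (n 0 z (n 0 z (n 0 z (n 0 z (n 0 z (n 0 z (n 0 z (n 0 z (n 0 z (n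
 0x157608007fe8017f78058137fd7ef80d7f68038007fe7fa7fd80280b7ed7fc8117fd8048047fb8017f481a8147ef80480b8017fb8067ed7f780b8007f37fc8187ec8028007f57fa7fe7fc8068000051
 z (n 0 z (n 0 z (n 0 z (n 0 z (n 0 z (n 0 z (n 0 z (n 0 z (n 0 z (n 0 z (n 0 z (n 0 z (n 0 z (n
 0 z (n 0 z (n 0 z (n 0 z (n 0 z (n 0 z (n 0 z (n 0 z (n 0 z (n 0 z (n 0 z (n 0 z (n 0 z (n 0 z
 (n 0 z (n 0 z z)))))))))))))))))))))))))))))))))))))))))))))) (n 505 (n 0 z (n 0 z (n 0 z (n 0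
 z (n 0 z (n 0 z (n 0 z (n 0 z (n 0 z (n 0 z (n 0 z (n 0 z (n 0 z (n 0 z (n 0 z (n 0 z (n 0 z (n
 0 z (n 0 z (n 0 z (n 0 z (n 0 z (n 0 z (n 0 z (n 0 z (n 0 z (n 0 z (n 0 z (n 0 z (n 0 z (n 0 z
 (n 0 z (n 0 z (n 0 z (n 0 z (n 0 z (n 0 z (n 0 z (n 0 z (n 0 z (n 0 z (n 0 z (n 0 z (n 0 z (n 0
 z (n 0 z z)))))))))))))))))))))))))))))))))))))))))))))) (n 505 (n 0 z (n 0 z (n 0 z (n 0 z (n
 0 z (n 0 z (n 0 z (n 0 z (n 0 z (n 0 z (n 0 z (n 0 z (n 0 z (n 0 z (n 0 z (n 0 z (n 0 z (n 0 z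
 (n 0 z (n 0 z (n 0 z (n 0 z (n 0 z (n 0 z (n 0 z (n 0 z (n 0 z (n 0 z (n 0 z (n 0 z (n 0 z (n 0
 z (n 0 z (n 0 z (n 0 z (n 0 z (n 0 z (n 0 z (n 0 z (n 0 z (n 0 z (n 0 z (n 0 z (n 0 z (n 0 z (n
 0 z z)))))))))))))))))))))))))))))))))))))))))))))) (n 505 (n 0 z (n 0 z (n 0 z (n 0 z (n 0 z
 (n 0 z (n 0 z (n 0 z (n 0 z (n 0 z (n 0 z (n 0 z (n 0 z (n 0 z (n 0 z (n 0 z (n 0 z (n 0 z (n 0
 z (n 0 z (n 0 z (n 0 z (n 0 z (n 0 z (n 0 z (n 0 z (n 0 z (n 0 z (n 0 z (n 0 z (n 2 z (n 0 z (n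
 0 z (n 0 z (n 0 z (n 0 z (n 0 z (n 0 z (n 0 z (n 0 z (n 0 z (n 0 z (n 0 z (n 0 z (n 0 z (n 0 z
 z)))))))))))))))))))))))))))))))))))))))))))))) z)))))))) (n 0 (n 0 z (n 157 (n 0 z (n 0 z (n 0
 z (n 0 z (n 0 z (n 0 z (n 0 z (n 0 z (n 0 z (n 0 z (n 0 z (n 0 z (n 0 z (n 0 z (n 0 z (n 0 z (n
 0 z (n 0 z (n 0 z (n 0 z (n 0 z (n 0 z (n 0 z (n 0 z (n 0 z (n 0 z (n 7669275 z (n 0 z (n 0 z
 (n 0 z (n 0 z (n 0 z (n 0 z (n 0 z (n 0 z (n 0 z (n 0 z (n 0 z (n 0 z (n 0 z (n 0 z (n 0 z (n 0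
 z (n 0 z (n 0 z (n 0 z (n 0 z z))))))))))))))))))))))))))))))))))))))))))))))) (n 157 (n
 6498139 z (n 0 z (n 0 z (n 0 z (n 0 z (n 0 z (n 0 z (n 0 z (n 0 z (n 0 z (n 0 z (n 0 z (n 0 z
 (n 0 z (n 0 z (n 0 z (n 0 z (n 0 z (n 0 z (n 0 z (n 0 z (n 0 z (n 0 z (n 0 z (n 0 z (n 0 z (n 0
 z (n 0 z (n 0 z (n 0 z (n 0 z (n 0 z (n 0 z (n 0 z (n 0 z (n 0 z (n 0 z (n 0 z (n 0 z (n 0 z (n
 0 z (n 0 z (n 0 z (n 0 z (n 0 z (n 0 z (n 0 z z)))))))))))))))))))))))))))))))))))))))))))))))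
 (n 157 (n 0 z (n 0 z (n 0 z (n 0 z (n 0 z (n 0 z (n 0 z (n 0 z (n 0 z (n 0 z (n 0 z (n 0 z (n 0
 z (n 0 z (n 0 z (n 0 z (n 0 z (n 0 z (n 0 z (n 0 z (n 0 z (n 0 z (n 0 z (n 0 z (n 0 z (n 0 z (n
 0 z (n 0 z (n 0 z (n 0 z (n 0 z (n 0 z (n 0 z (n 0 z (n 0 z (n 0 z (n 0 z (n 0 z (n 0 z (n 0 z
 (n 0 z (n 0 z (n 0 z (n 0 z (n 0 z (n 0 z (n 0 z
 z))))))))))))))))))))))))))))))))))))))))))))))) (n 157 (n 0 z (n 0 z (n 0 z (n 0 z (n 0 z (n 0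
 z (n 0 z (n 0 z (n 0 z (n 0 z (n 0 z (n 0 z (n 0 z (n 0 z (n 0 z (n 0 z (n 0 z (n 0 z (n 0 z (n
 0 z (n 0 z (n 0 z (n 0 z (n 0 z (n 0 z (n 0 z (n 0 z (n 0 z (n 0 z (n 0 z (n 0 z (n 0 z (n 0 z
 (n 0 z (n 0 z (n 0 z (n 0 z (n 0 z (n 0 z (n 0 z (n 0 z (n 0 z (n 0 z (n 0 z (n 0 z (n 0 z (n 0
 z z))))))))))))))))))))))))))))))))))))))))))))))) (n 157 (n 0 z (n 0 z (n 0 z (n
 0x1a7608007fc7ff7fa80d80e7fc7ed8137f48008008027fe7fc7fc8017f77f580e7fc80880d7f48007f58188137f580180980b7fc80b7ef7ed8137fe7f67ff80e7e47fd8017fd7fc7fd7f88088000051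
 z (n 0 z (n 0 z (n 0 z (n 0 z (n 0 z (n 0 z (n 0 z (n 0 z (n 0 z (n 0 z (n 0 z (n 0 z (n 0 z (n
 0 z (n 0 z (n 0 z (n 0 z (n 0 z (n 0 z (n 0 z (n 0 z (n 0 z (n 0 z (n 0 z (n 0 z (n 0 z (n 0 z
 (n 0 z (n 0 z (n 0 z (n 0 z (n 0 z (n 0 z (n 0 z (n 0 z (n 0 z (n 0 z (n 0 z (n 0 z (n 0 z (n 0
 z (n 0 z (n 0 z z))))))))))))))))))))))))))))))))))))))))))))))) (n 157 (n 0 z (n 0 z (n 0 z (n
 0 z (n 0 z (n 0 z (n 0 z (n 0 z (n 0 z (n 0 z (n 0 z (n 0 z (n 0 z (n 0 z (n 0 z (n 0 z (n 0 z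
 (n 0 z (n 0 z (n 0 z (n 0 z (n 0 z (n 0 z (n 0 z (n 0 z (n 0 z (n 0 z (n 0 z (n 0 z (n 0 z (n 0
 z (n 0 z (n 2 z (n 0 z (n 0 z (n 0 z (n 0 z (n 0 z (n 0 z (n 0 z (n 0 z (n 0 z (n 0 z (n 0 z (n
 0 z (n 0 z (n 0 z z))))))))))))))))))))))))))))))))))))))))))))))) z))))))) (n 0 (n 49 (n 0 z
 (n 0 z (n 0 z (n 0 z (n 0 z (n 0 z (n 0 z (n 0 z (n 7680355 z (n 0 z (n 0 z z))))))))))) (n 49
 (n 0 z (n 0 z (n 0 z (n 0 z (n 0 z (n 0 z (n 0 z (n 0 z (n 0 z (n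
 0x1a7608007fc7ff8087fa7fe8018018027ff8008008028037f97f28008197f97ff7fc8128057f27f78078017f97f47f57fc80780d80180b7f88108048028007e37ea7f58028238087ec7f98078000051
 z (n 0 z z))))))))))) (n 49 (n 0 z (n 0 z (n 0 z (n 0 z (n 0 z (n 0 z (n 2 (n 0 z (n 0 z (n 0 z
 z))) (n 0 z (n 0 z (n 0 z (n 0 z z))))))))))) (n 49 (n 0 z (n 0 z (n 2 (n 0 z (n 0 z z)) (n 0 z
 (n 0 z (n 0 z (n 0 z (n 0 z (n 0 z (n 0 z (n 0 z z))))))))))) (n 49 (n 0 z (n 0 z (n 0 z (n 0 z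
 (n 0 z (n 0 z (n 0 z (n 0 z (n 0 z (n 0 z (n 7754755 z z))))))))))) (n 49 (n 2 z (n 0 z (n 0 z
 (n 0 z (n 0 z (n 0 z (n 0 z (n 0 z (n 0 z (n 0 z (n 0 z z))))))))))) z)))))) (n 0 (n 0 z (n 0 z
 (n 0 z (n 0 z (n 0 z z))))) (n 0 (n 0 z (n 0 z (n 0 z (n 0 z z)))) (n 0 (n 0 z (n 0 z (n 0 z
 z))) (n 0 (n 0 z (n 0 z z)) (n 0 (n 0 z z) (n 0 z z))))))))) (n 0 (n 1 (n 3278363 z (n 3278363
 z (n 6488603 z (n 3278363 z (n 3278363 z (n 3278363 z z)))))) (n 0 z z)) (n 0 z z)))) (n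
 0x14d8e86c936892b94324cac125d6c12a9a26469a194550caa5846b64135b240 (n 0x2b649 (n 467 (n 2 z (n
 3282443 z (n 0 z (n 0 z z)))) (n 461 (n 10 z (n 3278363 z (n 0 z (n 18 z (n 26 z (n 34 z (n 0 z
 (n 0 z z)))))))) (n 129 (n 0 z (n 0 z (n 0 z (n 0 z (n 0 z (n 0 z (n 0 z (n 6566419 z (n 0 z (n
 0 z (n 0 z (n 0 z (n 0 z (n 0 z (n 0 z (n
 0x2ca2ca08038207e08608218207e181f82082081f8608208207e08208208607e08207e081f8218218608200801 z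
 (n
 0x20ca2ca0803809b747f917295758b565c8982745b819988619068957b918e8e8a7e716c8d8287635c8f9b6466938b7e9e8a7d7d868382740809
 z (n 0 z (n 0 z (n 0 z (n 0 z (n 0 z (n 0 z (n 0 z (n 42 z (n 50 z (n 0 z (n 0 z (n
 0xca8ca80038207e08208208208218208208208208208208208208208208608208208208208208208208200801 z (n
 0 z (n 0 z (n 0 z (n 0 z (n 0 z (n 0 z (n
 0x1c26518008107ff7f77d381681880b7ce80b7ff7e98237fe8627fb77e7fa8427cd8457f98008018027f37d17fe80582c7e87f88177ec81c8117ba80a8307fd7d781b7f17eb7fd8167fa7e380a7fb0051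
 z (n 0 z (n 0 z (n 0 z (n 6566419 z (n 0 z z))))))))))))))))))))))))))))))))))))))))) (n 3 (n 0
 z (n 6566419 z (n 0 z (n 0 z (n 0 z (n 58 z (n 0 z (n 6566419 z (n 0 z z))))))))) (n 1 (n
 0xeac607a63081976c8238a661c3e59d535aaa14b27ab4697706dd9df71f2de475b102bb6e4adb66f7a431d0081 z
 (n 0 z (n
 0xeac407a62081976c8238a661c3e59d535aaa14b27ab4697706dd9df71f2de475b102bb6e4adb66f7a431d0081 z
 (n 0 z (n 6566419 z (n 0 z (n 0 z (n 66 z (n 74 z z))))))))) (n 0 (n 0 z (n 0 z (n 0 z (n 82 z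
 (n 0 z (n 0 z (n 2164315 z (n 90 z (n 0 z (n 0 z (n 0 z (n 0 z (n 0 z (n 0 z (n 0 z (n 0 z (n 0
 z (n 0 z z)))))))))))))))))) z)))))) (n 467 (n 0 (n 951 (n 0 z (n 0 z (n 0 z (n 0 z (n 0 z (n 0
 z (n 0 z (n 0 z (n 0 z (n 0 z (n 0 z (n 0 z (n 0 z (n 0 z (n 0 z (n 0 z (n 0 z (n 0 z (n 0 z (n
 0 z (n 0 z (n 0 z (n 0 z (n 0 z (n 0 z (n 0 z (n 0 z (n 0 z (n 0 z (n 0 z (n 0 z (n 0 z
 z)))))))))))))))))))))))))))))))) (n 951 (n 0 z (n 0 z (n 0 z (n 0 z (n 0 z (n 0 z (n 0 z (n 0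
 z (n 0 z (n 0 z (n 0 z (n 0 z (n 0 z (n 0 z (n 0 z (n 0 z (n 0 z (n 0 z (n 0 z (n 0 z (n 0 z (n
 0 z (n 0 z (n 0 z (n 0 z (n 0 z (n 0 z (n 0 z (n 0 z (n 0 z (n 0 z (n 0 z
 z)))))))))))))))))))))))))))))))) (n 951 (n 0 z (n 0 z (n 0 z (n 0 z (n 0 z (n 0 z (n 0 z (n 0
 z (n 0 z (n 0 z (n 0 z (n 0 z (n 0 z (n 0 z (n 0 z (n 0 z (n 0 z (n 0 z (n 0 z (n 0 z (n 0 z (n
 0 z (n 0 z (n 2 (n 0 z (n 2 (n 0 z (n 0 z (n 0 z (n 0 z (n 0 z (n 0 z z)))))) (n 2 (n 0 z (n 0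
 z (n 0 z (n 0 z (n 0 z (n 0 (n 8787003 z z) z)))))) (n 1 z (n 1 z (n 2 (n 0 z (n 0 z (n 0 z (n
 0 z (n 0 z (n 0 z z)))))) (n 1 z (n 2 (n 0 z (n 0 z (n 0 z (n 0 z (n 0 z (n 0 z z))))))
 z)))))))) (n 0 z (n 0 z (n 0 z (n 0 z (n 0 z (n 0 z (n 0 z (n 0 z
 z)))))))))))))))))))))))))))))))) (n 951 (n 0 z (n 0 z (n 0 z (n 0 z (n 0 z (n 0 z (n 0 z (n 0
 z (n 0 z (n 0 z (n 0 z (n 0 z (n 0 z (n 0 z (n 0 z (n 0 z (n 0 z (n 0 z (n 0 z (n 0 z (n 0 z (n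
 0 z (n 0 z (n 0 z (n 0 z (n 0 z (n 0 z (n 2 (n 2 (n 0 z (n 0 z (n 0 (n 1036 z z) (n 0 (n 1036 z
 z) (n 0 z (n 0 (n 8525323 z (n 8525323 z z)) z)))))) (n 1 z (n 1 z (n 1 z (n 2 (n 0 z (n 0 z (n
 0 z (n 0 z (n 0 z (n 0 z z)))))) (n 1 z (n 2 (n 0 z (n 0 z (n 0 z (n 0 z (n 0 z (n 0 (n 8852523
 z z) z)))))) z))))))) (n 0 z (n 0 z (n 0 z (n 0 z z)))))))))))))))))))))))))))))))) (n 259 (n 0
 z (n 0 z (n 0 z (n 0 z (n 0 z (n 0 z (n 0 z (n 2 (n 0 z (n 1 z (n 1 z (n 2 (n 0 z (n 0 z (n 0 z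
 (n 0 (n 8865339 z z) (n 0 (n 1045 z z) (n 0 (n 12 z (n 8803187 z z)) z)))))) (n 1 z (n 2 (n 0
 (n 8865339 z z) (n 0 z (n 0 z (n 0 z (n 0 (n 1029 z z) (n 0 (n 4 z (n 8803187 z z)) z))))))
 z)))))) (n 0 z (n 0 z (n 0 z (n 0 z (n 0 z z))))))))))))) (n 259 (n 0 z (n 0 z (n 0 z (n 0 z (n
 0 z (n 0 z (n 0 z (n 0 z (n 0 z (n 0 z (n 0 z (n 0 z (n 0 z z))))))))))))) (n 7 (n 0 z (n 0 z
 (n 0 z (n 0 z (n 0 z (n 0 z (n 0 z (n 0 z (n 0 z (n 0 z (n 0 z z))))))))))) (n 3 (n 0 z (n 0 z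
 (n 0 z (n 0 z (n 0 z (n 0 z (n 0 z (n 0 z (n 0 z (n 0 z (n 0 z (n 0 z (n 0 z (n 0 z (n 0 z (n 0
 z (n 0 z (n 0 z z)))))))))))))))))) (n 3 (n 0 z (n 0 z (n 0 z (n 0 z (n 0 z (n 0 z (n 0 z (n 0
 z (n 0 z (n 0 z (n 0 z (n 0 z (n 0 z (n 0 z (n 2 (n 2 (n 0 z (n 0 z (n 0 z (n 0 z (n 0 z (n 0
 (n 8782363 z z) z)))))) (n 2 (n 0 z (n 0 z (n 0 z (n 0 z (n 0 z (n 0 z z)))))) z)) (n 0 z (n 0
 z (n 0 z z)))))))))))))))))) (n 1 (n 0 z (n 0 z (n 0 z (n 0 z (n 0 z (n 0 z z)))))) (n 1 (n 0 z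
 (n 0 z (n 0 z (n 0 z (n 2 z (n 0 z z)))))) z))))))))))) (n 0 (n 0 z (n 0 z (n 0 z (n 19 (n 0 z
 (n 0 z (n 0 z (n 0 z (n 0 z (n 0 z (n 0 z (n 0 z (n 0 z (n 0 z (n 0 z (n 0 z (n 0 z (n 0 z (n 0
 z (n 2 (n 0 z (n 1 z (n 1 z (n 2 (n 0 z (n 0 z (n 0 z (n 0 (n 8865339 z z) (n 0 (n 1045 z z) (n
 0 (n 12 z (n 8803187 z z)) z)))))) (n 1 z (n 2 (n 0 (n 8865339 z z) (n 0 z (n 0 z (n 0 z (n 0
 (n 1029 z z) (n 0 (n 4 z (n 8803187 z z)) z)))))) z)))))) (n 0 z (n 0 z (n 0 z (n 0 z (n 0 z (n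
 0 z (n 0 z (n 0 z (n 0 z (n 0 z (n 0 z (n 0 z (n 0 z z))))))))))))))))))))))))))))) (n 19 (n 0
 z (n 0 z (n 0 z (n 0 z (n 0 z (n 0 z (n 0 z (n 0 z (n 0 z (n 0 z (n 0 z (n 0 z (n 0 z (n 0 z (n
 0 z (n 0 z (n 0 z (n 0 z (n 0 z (n 0 z (n 0 z (n 0 z (n 0 z (n 0 z (n 0 z (n 0 z (n 0 z (n 0 z
 (n 0 z z))))))))))))))))))))))))))))) (n 247 (n 0 z (n 0 z (n 0 z (n 0 z (n 0 z (n 0 z (n 0 z
 (n 0 z (n 0 z (n 0 z (n 0 z (n 0 z (n 0 z (n 0 z (n 0 z (n 0 z (n 0 z (n 0 z (n 0 z (n 0 z (n 0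
 z (n 0 z (n 0 z (n 0 z (n 0 z (n 0 z (n 0 z (n 0 z (n 0 z z))))))))))))))))))))))))))))) (n 3
 (n 0 z (n 0 z (n 0 z (n 0 z (n 0 z (n 0 z (n 0 z z))))))) (n 3 (n 0 z (n 0 z (n 0 z (n 0 z (n 0
 z (n 0 z (n 2 (n 2 (n 0 z (n 0 z (n 0 z (n 0 z (n 0 z (n 0 (n 8790275 z z) z)))))) (n 2 (n 0 z
 (n 0 z (n 0 z (n 0 z (n 0 z (n 0 z z)))))) z)) z))))))) (n 1 (n 0 z (n 0 z (n 0 z (n 0 z (n 0 z
 (n 0 z (n 0 z (n 0 z (n 0 z (n 0 z (n 0 z (n 0 z (n 0 z (n 0 z (n 0 z (n 0 z (n 0 z (n 0 z (n 0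
 z (n 0 z (n 0 z (n 0 z (n 0 z (n 0 z (n 0 z (n 0 z (n 0 z (n 0 z (n 0 z (n 0 z (n 0 z (n 0 z (n
 0 z (n 0 z (n 0 z z))))))))))))))))))))))))))))))))))) (n 1 (n 0 z (n 0 z (n 0 z (n 0 z (n 0 z
 (n 0 z (n 0 z (n 0 z (n 0 z (n 0 z (n 0 z (n 0 z (n 0 z (n 0 z (n 2 z (n 0 z (n 0 z (n 0 z (n 0
 z (n 0 z (n 0 z (n 0 z (n 0 z (n 0 z (n 0 z (n 0 z (n 0 z (n 0 z (n 0 z (n 0 z (n 0 z (n 0 z (n
 0 z (n 0 z (n 0 z z))))))))))))))))))))))))))))))))))) z)))))))))) (n 0 (n 0 z (n 0 z (n 807 (n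
 0 z (n 0 z (n 0 z (n 0 z (n 0 z (n 0 z (n 0 z (n 0 z z)))))))) (n 807 (n 0 z (n 0 z (n 0 z (n 0
 z (n 0 z (n 0 z (n 0 z (n 0 z z)))))))) (n 55 (n 0 z (n 0 z (n 0 z (n 0 z (n 0 z z))))) (n 805
 (n 0 z (n 0 z (n 0 z (n 0 z (n 0 z (n 0 z (n 0 z (n 0 z (n 0 z z))))))))) (n 805 (n 0 z (n 0 z
 (n 0 z (n 0 z (n 2 (n 2 (n 0 z (n 0 z (n 0 z (n 0 z (n 0 z (n 0 z z)))))) (n 2 (n 0 z (n 0 z (n
 0 z (n 0 z (n 0 z (n 0 z z)))))) z)) (n 0 z (n 0 z (n 0 z (n 0 z z))))))))) (n 337 (n 0 z (n 0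
 z (n 0 z (n 0 z (n 0 z (n 0 z (n 0 z (n 0 z (n 0 z z))))))))) (n 337 (n 0 z (n 0 z (n 0 z (n 0
 z (n 0 z (n 0 z (n 2 z (n 0 z (n 0 z z))))))))) z))))))))) (n 0 (n 0 z (n 927 (n 0 z (n 0 z (n
 0 z (n 0 z (n 0 z (n 0 z (n 0 z (n 0 z (n 0 z (n 0 z (n 0 z (n 0 z (n 0 z (n 0 z (n 0 z (n 0 z
 (n 0 z (n 0 z (n 0 z (n 0 z (n 0 z (n 0 z (n 0 z (n 0 z (n 0 z (n 0 z (n 0 z (n 0 z (n 0 z (n 0
 z (n 0 z (n 0 z (n 0 z (n 0 z (n 0 z (n 0 z (n 0 z (n 0 z (n 0 z (n 0 z (n 0 z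
 z))))))))))))))))))))))))))))))))))))))))) (n 927 (n 0 z (n 0 z (n 0 z (n 0 z (n 0 z (n 0 z (n
 0 z (n 0 z (n 0 z (n 0 z (n 0 z (n 0 z (n 0 z (n 0 z (n 0 z (n 0 z (n 0 z (n 0 z (n 0 z (n 0 z
 (n 0 z (n 0 z (n 0 z (n 0 z (n 0 z (n 0 z (n 0 z (n 0 z (n 0 z (n 0 z (n 0 z (n 0 z (n 0 z (n 0
 z (n 0 z (n 0 z (n 0 z (n 0 z (n 0 z (n 0 z (n 0 z z)))))))))))))))))))))))))))))))))))))))))
 (n 421 (n 0 z (n 0 z (n 0 z (n 0 z (n 0 z (n 0 z (n 0 z z))))))) (n 925 (n 2 (n 0 z (n 1 z (n 2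
 (n 0 z (n 0 z (n 0 z (n 0 z (n 0 z (n 0 z z)))))) z))) (n 0 z (n 0 z (n 0 z (n 0 z (n 0 z (n 0
 z (n 0 z (n 0 z (n 0 z z)))))))))) (n 925 (n 0 z (n 0 z (n 0 z (n 0 z (n 0 z (n 0 z (n 0 z (n 0
 z (n 0 z (n 0 z z)))))))))) (n 409 (n 0 z (n 0 z (n 0 z (n 0 z (n 0 z (n 0 z (n 0 z (n 0 z
 z)))))))) (n 409 (n 0 z (n 0 z (n 0 z (n 0 z (n 2 z (n 0 z (n 0 z (n 0 z z)))))))) z)))))))) (n
 0 (n 807 (n 0 z (n 0 z (n 0 z (n 0 z (n 0 z (n 0 z (n 0 z (n 0 z (n 0 z (n 0 z (n 0 z (n 0 z (n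
 0 z (n 0 z (n 0 z (n 0 z (n 0 z (n 0 z (n 0 z (n 0 z (n 0 z (n 0 z (n 0 z (n 0 z (n 0 z (n 0 z
 (n 0 z (n 0 z (n 0 z (n 0 z (n 0 z (n 0 z (n 0 z (n 0 z (n 0 z (n 0 z
 z)))))))))))))))))))))))))))))))))))) (n 807 (n 0 z (n 0 z (n 0 z (n 0 z (n 0 z (n 0 z (n 0 z
 (n 0 z (n 0 z (n 0 z (n 2 (n 1 z (n 1 z (n 2 (n 0 z (n 0 z (n 0 z (n 0 z (n 0 z (n 0 z z))))))
 (n 1 z (n 2 (n 0 z (n 0 z (n 0 z (n 0 z (n 0 z (n 0 (n 8786987 z z) z)))))) z))))) (n 0 z (n 0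
 z (n 0 z (n 0 z (n 0 z (n 0 z (n 0 z (n 0 z (n 0 z (n 0 z (n 0 z (n 0 z (n 0 z (n 0 z (n 0 z (n
 0 z (n 0 z (n 0 z (n 0 z (n 0 z (n 0 z (n 0 z (n 0 z (n 0 z (n 0 z
 z)))))))))))))))))))))))))))))))))))) (n 441 (n 2 (n 1 z (n 2 (n 0 z (n 0 z (n 0 z (n 0 z (n 0
 z (n 0 (n 3220 z z) z)))))) (n 1 z (n 1 z z)))) (n 0 z (n 0 z (n 0 z (n 0 z (n 0 z (n 0 z (n 0
 z (n 0 z (n 0 z (n 0 z (n 0 z (n 0 z (n 0 z (n 0 z (n 0 z (n 0 z (n 0 z (n 0 z (n 0 z (n 0 z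
 z))))))))))))))))))))) (n 805 (n 2 (n 0 z (n 1 z (n 1 z z))) (n 0 z (n 0 z (n 0 z (n 0 z (n 0 z
 (n 0 z z))))))) (n 805 (n 0 z (n 0 z (n 0 z (n 0 z (n 2 (n 2 (n 0 z (n 0 z (n 0 z (n 0 z (n 0 z
 (n 0 (n 3092 z z) z)))))) (n 2 (n 0 z (n 0 z (n 0 z (n 0 z (n 0 z (n 0 z z)))))) z)) (n 0 z (n
 0 z z))))))) (n 773 (n 2 (n 0 z z) (n 0 z (n 0 z (n 0 z (n 0 z (n 0 z (n 0 z (n 0 z (n 0 z (n 0
 z (n 0 z (n 0 z (n 0 z (n 0 z (n 0 z (n 0 z (n 0 z (n 0 z (n 0 z (n 0 z (n 0 z (n 0 z (n 0 z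
 z))))))))))))))))))))))) (n 773 (n 0 z (n 0 z (n 0 z (n 0 z (n 0 z (n 0 z (n 0 z (n 0 z (n 0 z
 (n 0 z (n 0 z (n 0 z (n 0 z (n 0 z (n 0 z (n 0 z (n 0 z (n 0 z (n 0 z (n 0 z (n 0 z (n 0 z (n 0
 z z))))))))))))))))))))))) z))))))) (n 0 (n 0 z (n 273 (n 0 z (n 0 z (n 0 z (n 0 z (n 0 z (n 2
 (n 1 z (n 2 (n 0 z (n 0 z (n 0 z (n 0 z (n 0 z (n 0 z z)))))) (n 1 z (n 2 (n 0 z (n 0 (n 1028 z
 z) (n 0 (n 1028 z z) (n 0 z (n 0 z (n 0 (n 1028 z (n 8525579 z z)) z)))))) z)))) (n 0 z (n 0 z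
 z)))))))) (n 261 (n 0 z (n 0 z (n 0 z (n 2 (n 0 z (n 1 z (n 2 (n 0 z (n 0 (n 1028 z z) (n 0 (n
 1028 z z) (n 0 z (n 0 z (n 0 (n 1028 z (n 8525579 z z)) z)))))) z))) (n 0 z (n 0 z z)))))) (n
 261 (n 0 z (n 0 z (n 0 z (n 0 z (n 0 z (n 0 z z)))))) (n 257 (n 0 z (n 0 z (n 0 z (n 0 z (n 0 z
 (n 0 z (n 2 (n 0 z z) (n 0 z (n 0 z (n 0 z z)))))))))) (n 257 (n 0 z (n 0 z (n 0 z (n 0 z (n 0
 z (n 0 z (n 0 z (n 0 z (n 0 z (n 0 z z)))))))))) z)))))) (n 0 (n 295 (n 0 z (n 0 z (n 0 z (n 0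
 z (n 0 z (n 0 z (n 0 z (n 0 z (n 0 z (n 0 z (n 0 z (n 0 z (n 0 z (n 0 z (n 0 z (n 0 z (n 0 z (n
 0 z (n 0 z (n 0 z (n 0 z (n 0 z (n 0 z (n 0 z (n 0 z (n 0 z (n 0 z (n 0 z (n 0 z (n 0 z (n 0 z
 (n 0 z (n 0 z (n 0 z (n 0 z (n 0 z z)))))))))))))))))))))))))))))))))))) (n 243 (n 0 z (n 0 z
 (n 0 z (n 0 z (n 0 z (n 0 z (n 0 z (n 0 z (n 0 z (n 0 z z)))))))))) (n 243 (n 0 z (n 0 z (n 0 z
 (n 0 z (n 0 z (n 0 z (n 0 z (n 2 (n 2 (n 0 z (n 0 z (n 0 z (n 0 z (n 0 z (n 0 (n 8790275 z z)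
 z)))))) (n 2 (n 0 z (n 0 z (n 0 z (n 0 z (n 0 z (n 0 z z)))))) z)) (n 0 z (n 0 z z)))))))))) (n
 241 (n 0 z (n 0 z (n 0 z (n 0 z (n 0 z (n 0 z (n 0 z (n 0 z (n 0 z (n 0 z (n 0 z (n 0 z (n 0 z
 (n 0 z (n 0 z (n 0 z (n 0 z (n 0 z (n 0 z (n 0 z (n 0 z (n 0 z (n 0 z (n 0 z (n 0 z (n 0 z (n 0
 z (n 0 z z)))))))))))))))))))))))))))) (n 241 (n 0 z (n 0 z (n 0 z (n 0 z (n 0 z (n 0 z (n 0 z
 (n 0 z (n 0 z (n 0 z (n 0 z (n 0 z (n 0 z (n 0 z (n 0 z (n 0 z (n 2 z (n 0 z (n 0 z (n 0 z (n 0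
 z (n 0 z (n 0 z (n 0 z (n 0 z (n 0 z (n 0 z (n 0 z z)))))))))))))))))))))))))))) z))))) (n 0 (n
 99 (n 0 z (n 0 z (n 0 z (n 0 z (n 0 z (n 0 z (n 0 z (n 0 z (n 0 z (n 0 z (n 0 z (n 0 z
 z)))))))))))) (n 99 (n 0 z (n 0 z (n 0 z (n 0 z (n 0 z (n 0 z (n 0 z (n 0 z (n 0 z (n 0 z (n 2
 (n 1 z (n 2 (n 0 z (n 0 z (n 0 z (n 0 z (n 0 z (n 0 z z)))))) z)) (n 0 z z)))))))))))) (n 721
 (n 0 z (n 0 z (n 0 z (n 0 z (n 0 z (n 0 z (n 0 z (n 0 z (n 0 z (n 0 z z)))))))))) (n 721 (n 0 z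
 (n 0 z (n 0 z (n 0 z (n 0 z (n 0 z (n 2 z (n 0 z (n 0 z (n 0 z z)))))))))) z)))) (n 0 (n 0 z (n
 145 (n 0 z (n 0 z (n 0 z (n 0 z (n 0 z (n 0 z (n 0 z (n 0 z (n 0 z (n 0 z (n 0 z (n 0 z (n 0 z
 (n 0 z z)))))))))))))) (n 145 (n 2 z (n 0 z (n 0 z (n 0 z (n 0 z (n 0 z (n 0 z (n 0 z (n 0 z (n
 0 z (n 0 z (n 0 z (n 0 z (n 0 z z)))))))))))))) z))) (n 0 (n 1 (n 0 z (n 0 z (n 0 z (n 2 (n 0 z
 z) (n 0 z (n 0 z (n 0 z (n 0 z z)))))))) (n 1 (n 0 z (n 0 z (n 0 z (n 0 z (n 0 z (n 0 z (n 0 z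
 (n 0 z z)))))))) z)) (n 0 (n 0 z z) (n 0 z z)))))))))))) (n 0 (n 1 (n 2 z (n 3692 z (n 3692 z
 (n 3692 z (n 3692 z (n 3692 z z)))))) (n 1 (n 3282443 z (n 3282443 z (n 3282443 z (n 3282443 z
 (n 3282443 z (n 3282443 z z)))))) (n 0 z (n 0 z z)))) (n 0 (n 0xa29b1db4495cb4d132a69a19 (n 0
 (n 0 (n 7741699 z (n 7741699 z (n 7741699 z (n 7741699 z (n 7741699 z (n 7741699 z z)))))) z)
 (n 0 (n 467 (n 1 (n 7475299 z (n 7733787 z (n 7733787 z (n 7733787 z (n 7733787 z (n 7733787 z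
 z)))))) (n 1 (n 7475299 z (n 3282699 z (n 3282699 z (n 3282699 z (n 3282699 z (n 3282699 z
 z)))))) (n 0 z (n 0 z z)))) (n 1 (n 1 (n 7738427 z (n 3820 z (n 3820 z (n 6567771 z (n 2 z (n
 3820 z z)))))) (n 1 (n 76 z (n 7738427 z (n 3820 z (n 3820 z (n 3820 z (n 3820 z z)))))) (n 1
 (n 7741699 z (n 7741699 z (n 7741699 z (n 7741699 z (n 7741699 z (n 7741699 z z)))))) (n 0 z (n
 1 (n 3278667 z (n 3278667 z (n 7738427 z (n 3278667 z (n 3278667 z (n 3278667 z z)))))) (n 1 (n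
 3820 z (n 3820 z (n 7738427 z (n 3820 z (n 3820 z (n 3820 z z)))))) (n 1 (n 3820 z (n 3820 z (n
 3820 z (n 7738427 z (n 3820 z (n 3820 z z)))))) z))))))) (n 121 (n 1 (n 7614995 z (n 7614995 z
 (n 7614995 z (n 7614995 z (n 7614995 z (n 7614995 z z)))))) (n 1 (n 1228 z (n 5519131 z (n 1228
 z (n 1228 z (n 1228 z (n
 0x364376250186ecaea08071dd45d410060bb2b28201c065465420188c86a8640382655fa9d95b91e7ec81e76475fa14b1589e6e481f6e68d3c5979e56585789d96372475f7a63001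
 z z)))))) (n 1 (n 7476747 z (n 7476747 z (n 7476747 z (n 7476747 z (n 7476747 z (n 7476747 z
 z)))))) (n 1 (n 7741699 z (n 7741699 z (n 7741699 z (n 7741699 z (n 7741699 z (n 7741699 z
 z)))))) (n 1 (n 7614995 z (n 7614995 z (n 7614995 z (n 7614995 z (n 7614995 z (n 7614995 z
 z)))))) (n 1 (n 1228 z (n 1228 z (n 7738427 z (n 1228 z (n 1228 z (n 1036 z z)))))) (n 1 (n
 7475299 z (n 7475299 z (n 7475299 z (n 7475299 z (n 7475299 z (n 7475299 z z)))))) (n 1 (n 1228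
 z (n 1228 z (n 1228 z (n 7738427 z (n 6635891 z (n
 0xea8ea80038207e08208208208218208208208208208208208208208208608208208208208208208208200801 z
 z)))))) (n 1 (n 10 z (n 1228 z (n 1228 z (n 1228 z (n 6636403 z (n 1228 z z)))))) (n 1 (n
 7741699 z (n 7741699 z (n 7741699 z (n 7741699 z (n 7741699 z (n 7741699 z z)))))) z))))))))))
 (n 3 (n 0 z (n 1 (n 7614995 z (n 7614995 z (n 7614995 z (n 7614995 z (n 7614995 z (n 7614995 z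
 z)))))) (n 0 z (n 0 z (n 0 z (n 1 (n 7741699 z (n 7741699 z (n 7741699 z (n 7741699 z (n
 7741699 z (n 7741699 z z)))))) (n 0 z (n 1 (n 7614995 z (n 7614995 z (n 7614995 z (n 7614995 z
 (n 7614995 z (n 7614995 z z)))))) (n 0 z z))))))))) (n 81 (n 1 (n 4108 z (n 7614995 z (n
 7745803 z (n 1084 z (n 7733787 z (n 4108 z z)))))) (n 1 (n 4108 z (n 7614995 z (n 7745803 z (n
 4108 z (n 7733787 z (n 4108 z z)))))) (n 1 (n 7741699 z (n 7741699 z (n 7741699 z (n 7741699 z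
 (n 7741699 z (n 7741699 z z)))))) (n 0 z (n 1 (n 3278667 z (n 7614995 z (n 3278667 z (n 7745803
 z (n 7733787 z (n 3278667 z z)))))) (n 1 (n 5445483 z (n 7614995 z (n 4108 z (n 4108 z (n 4108
 z (n 4108 z z)))))) (n 1 (n 4108 z (n 7614995 z (n 7745803 z (n 7733787 z (n 18 z (n 4108 z
 z)))))) z))))))) (n 633 (n 0 z (n 0 z (n 1 (n 7741699 z (n 3282779 z (n 7745803 z (n 2164571 z
 (n 7476747 z (n 3282779 z z)))))) (n 1 (n 7741699 z (n 7475299 z (n 7475299 z (n 7475299 z (n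
 7475299 z (n 7475299 z z)))))) (n 1 (n 7741699 z (n 844 z (n 26 z (n 7745803 z (n 6561907 z (n
 844 z z)))))) (n 0 z z)))))) (n 467 (n 1 (n 7741699 z (n 7733787 z (n 7733787 z (n 7733787 z (n
 7733787 z (n 7733787 z z)))))) (n 1 (n 7741699 z (n 3282699 z (n 3282699 z (n 3282699 z (n
 3282699 z (n 3282699 z z)))))) (n 0 z (n 0 z z)))) z))))))) (n 0 (n 0 (n 0 z (n 0 z (n 0 z (n 0
 z z)))) (n 0 (n 0 z (n 0 z (n 0 z z))) (n 0 (n 0 z (n 0 z z)) (n 0 (n 0 z z) z)))) (n 0 (n 477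
 (n 0 (n 0 z (n 0 z (n 0 z (n 0 z z)))) (n 0 (n 0 z (n 0 z (n 0 z (n 0 z z)))) (n 0 (n 0 z (n 0
 z (n 0 z (n 0 z z)))) (n 0 (n 0 z (n 0 z (n 0 z (n 0 z z)))) (n 0 (n 0 z (n 0 z (n 0 z (n 0 (n
 0x31d86280417fb47f80727f807f67cc9d842aa08a84799e88604b9e57a67f40e87e619a8279a4768a747d924eb0926c48c96a7b638c0049
 z (n 8798835 z z)) z)))) (n 0 (n 0 z (n 0 z (n 0 z (n 0 z z)))) (n 0 (n 0 z (n 0 z (n 0 z (n 0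
 z z)))) (n 0 (n 0 z (n 0 z (n 0 z (n 0 z z)))) (n 0 (n 0 z (n 0 z (n 0 z (n 0 z z)))) (n 0 (n 0
 z (n 0 z (n 0 z (n 0 z z)))) (n 0 (n 0 z (n 0 z (n 0 z (n 0 z z)))) (n 0 (n 0 z (n 0 (n
 0xd50a45985281482a2a952f4a76ddad3d935a8968a595a46998584ab75c66d93341c62d7226da6e06697da0081 z
 z) (n 0 z (n 0 z z)))) (n 0 (n 0 (n 5449755 z z) (n 0 z (n 0 z (n 0 z z)))) (n 0 (n 0 z (n 0 z
 (n 0 z (n 0 z z)))) (n 0 (n 0 z (n 0 z (n 0 z (n 0 z z)))) (n 0 (n 0 z (n 0 z (n 0 z (n 0 z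
 z)))) (n 0 (n 0 z (n 0 z (n 0 z (n 0 z z)))) (n 0 (n 0 z (n 0 z (n 0 z (n 0 z z)))) (n 0 (n 0 z
 (n 0 z (n 0 z (n 0 z z)))) (n 0 (n 0 z (n 0 z (n 0 z (n 0 z z)))) (n 0 (n 0 z (n 0 z (n 0 z (n
 0 z z)))) (n 0 (n 0 z (n 0 (n
 0x31d87480417fb47f80727f807f67cc9d842aa08a84799e88604b9e57a67f40e87e619a8279a4768a747d924eb0926c48c96a7b638c0049
 z (n 8803187 z z)) (n 0 (n 8852267 z z) (n 0 (n 8795995 z z) z)))) (n 0 (n 0 z (n 0 z (n 0 z (n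
 0 z z)))) (n 0 (n 0 z (n 0 z (n 0 z (n 0 z z)))) (n 0 (n 0 z (n 0 z (n 0 z (n 0 z z)))) (n 0 (n
 0 z (n 0 z (n 0 z (n 0 z z)))) (n 0 (n 0 (n
 0x1c28738008107ff7f77d381681880b7ce80b7ff7e98237fe8627fb77e7fa8427cd8457f98008018027f37d17fe80582c7e87f88177ec81c8117ba80a8307fd7d781b7f17eb7fd8167fa7e380a7fb0051
 z z) (n 0 z (n 0 z (n 0 z z)))) (n 0 (n 0 z (n 0 z (n 0 z (n 0 z z)))) (n 0 (n 0 (n 8848939 z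
 z) (n 0 z (n 0 z (n 0 z z)))) (n 0 (n 0 z (n 0 z (n 0 (n
 0x30eb0ca40781f8608208208208208208208208208208208208208208208208208208208208208208208200801 z
 (n 0x10ed0e4a038207e08208208208208208208208208208208208208208208208208208218208208208208200801
 z z)) (n 0 (n
 0x30eb0864078208608208208208208208208208208208208208208207e08208208208208208208208208200801 z
 (n 8798835 z z)) z)))) (n 0 (n 0 z (n 0 z (n 0 (n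
 0x30ed0e64078208208208608207a181f8608208618207e08218207e181f8208218208208208218208208200801 z
 z) (n 0 z z)))) (n 0 (n 0 z (n 0 z (n 0 z (n 0 z z)))) z)))))))))))))))))))))))))))))))) (n 153
 (n 0 (n 0 z (n 0 z (n 0 z (n 0 z z)))) (n 0 (n 0 z (n 0 z (n 0 z (n 0 z z)))) (n 0 (n 0 z (n 0
 (n 8663571 z z) (n 0 z (n 0 z z)))) (n 0 (n 0 z (n 0 z (n 0 z (n 0 z z)))) (n 0 (n 0 z (n 0 z
 (n 0 z (n 0 z z)))) (n 0 (n 0 z (n 0 z (n 0 z (n 0 z z)))) (n 0 (n 0 z (n 0 (n 8663571 z (n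
 8663571 z z)) (n 0 z (n 0 z z)))) (n 0 (n 0 z (n 0 z (n 0 z (n 0 z z)))) (n 0 (n 0 z (n 0 z (n
 0 z (n 0 z z)))) (n 0 (n 0 (n
 0x1c28738008107ff7f77d381681880b7ce80b7ff7e98237fe8627fb77e7fa8427cd8457f98008018027f37d17fe80582c7e87f88177ec81c8117ba80a8307fd7d781b7f17eb7fd8167fa7e380a7fb0051
 z z) (n 0 z (n 0 z (n 0 z z)))) (n 0 (n 0 z (n 0 (n
 0x128748208217a082081f7e085e8208218228617e082179e8207de8608a27e08217e081f8208208200041 z (n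
 0x1c28748008107ff7f77d381681880b7ce80b7ff7e98237fe8627fb77e7fa8427cd8457f98008018027f37d17fe80582c7e87f88177ec81c8117ba80a8307fd7d781b7f17eb7fd8167fa7e380a7fb0051
 z z)) (n 0 (n 8848923 z z) (n 0 (n
 0x43a438b00c0876876401810e90e86078207e082082086082185f8208208208207e082086082081f8608208208208208208208208201801
 z z) z)))) (n 0 (n 0 (n 8663571 z z) (n 0 (n 8663571 z (n 8663571 z z)) (n 0 z (n 0 z z)))) (n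
 0 (n 0 z (n 0 (n 8663571 z (n 8663571 z z)) (n 0 z (n 0 z z)))) z))))))))))))) (n 33 (n 0 (n 0
 z (n 0 z (n 0 z (n 0 z z)))) (n 0 (n 0 z (n 0 z (n 0 z (n 0 z z)))) (n 0 (n 0 z (n 0 z (n 0 (n
 8525323 z (n 8525323 z z)) (n 0 (n 8525323 z (n 8525323 z z)) z)))) (n 0 (n 0 z (n 0 z (n 0 z
 (n 0 z z)))) (n 0 (n 0 z (n 0 z (n 0 z (n 0 z z)))) (n 0 (n 0 z (n 0 z (n 0 z (n 0 z z)))) (n 0
 (n 0 (n 8787003 z z) (n 0 z (n 0 z (n 0 z z)))) (n 0 (n 0 (n 8525323 z (n 8798835 z z)) (n 0 z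
 (n 0 z (n 0 z z)))) (n 0 (n 0 z (n 0 z (n 0 z (n 0 z z)))) (n 0 (n 0 (n 8861259 z (n 8798835 z
 z)) (n 0 z (n 0 z (n 0 z z)))) (n 0 (n 0 z (n 0 z (n 0 z (n 0 z z)))) (n 0 (n 0 z (n 0 z (n 0 z
 (n 0 z z)))) (n 0 (n 0 z (n 0 z (n 0 z (n 0 z z)))) (n 0 (n 0 (n 8525323 z (n 8798835 z z)) (n
 0 z (n 0 (n 8525323 z (n 8802675 z z)) (n 0 (n 8525323 z (n 8525323 z z)) z)))) (n 0 (n 0 z (n
 0 (n 8790275 z (n 8790275 z z)) (n 0 z (n 0 z z)))) (n 0 (n 0 z (n 0 z (n 0 (n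
 0x30ed0e0a038207e08208208208208608208208208208208208208208608608208208208208208208208200801 z
 z) (n 0 z z)))) (n 0 (n 0 (n
 0x1c28738008107ff7f77d381681880b7ce80b7ff7e98237fe8627fb77e7fa8427cd8457f98008018027f37d17fe80582c7e87f88177ec81c8117ba80a8307fd7d781b7f17eb7fd8167fa7e380a7fb0051
 z z) (n 0 z (n 0 z (n 0 z z)))) (n 0 (n 0 (n
 0x876876401830e4ea08078208208208208208218208208208208208208208208208208208208208208208208208208201001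
 z z) (n 0 (n
 0x1287482082279f82181f7e085e8217e18218607a082179f82181e86082179f7e17e081f8218208200041 z (n
 8803187 z z)) (n 0 z (n 0 z z)))) (n 0 (n 0 z (n 0 (n
 0x876763501830ece60a0781f8207e08208607e181f8608208608208208618208207e08208208208208208218208207e01001
 z (n 8803187 z z)) (n 0 z (n 0 z z)))) (n 0 (n 0 z (n 0 z (n 0 z (n 0 z z)))) (n 0 (n 0 (n
 8795995 z z) (n 0 z (n 0 z (n 0 z z)))) (n 0 (n 0 z (n 0 z (n 0 z (n 0 z z)))) (n 0 (n 0 z (n 0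
 z (n 0 z (n 0 z z)))) (n 0 (n 0 z (n 0 (n
 0x1fd87480587fa27f80777f808070b19282499486837c93856b5e9366997f57c27f6c91817c987a86787f8b60a08b735dae727d6e880049
 z (n 8803187 z z)) (n 0 z (n 0 z z)))) (n 0 (n 0 z (n 0 z (n 0 (n 8790275 z z) (n 0 z z)))) (n
 0 (n 0 z (n 0 (n 8523875 z (n 8523875 z z)) (n 0 z (n 0 z z)))) (n 0 (n 0 z (n 0 z (n 0 z (n 0
 z z)))) (n 0 (n 0 (n 8525323 z (n 8798835 z z)) (n 0 z (n 0 z (n 0 z z)))) (n 0 (n 0 (n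
 0x1c28758008107ff7f77d381681880b7ce80b7ff7e98237fe8627fb77e7fa8427cd8457f98008018027f37d17fe80582c7e87f88177ec81c8117ba80a8307fd7d781b7f17eb7fd8167fa7e380a7fb0051
 z (n 8798835 z z)) (n 0 z (n 0 z (n 0 z z)))) z))))))))))))))))))))))))))))) (n 393 (n 0 (n 0 z
 (n 0 (n 8663571 z (n 8663571 z z)) (n 0 z (n 0 z z)))) (n 0 (n 0 z (n 0 z (n 0 z (n 0 z z))))
 (n 0 (n 0 z (n 0 z (n 0 z (n 0 z z)))) (n 0 (n 0 z (n 0 (n 8663571 z z) (n 0 z (n 0 z z)))) (n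
 0 (n 0 z (n 0 z (n 0 z (n 0 z z)))) (n 0 (n 0 z (n 0 z (n 0 z (n 0 z z)))) (n 0 (n 0 z (n 0 z
 (n 0 z (n 0 z z)))) (n 0 (n 0 z (n 0 z (n 0 z (n 0 z z)))) (n 0 (n 0 z (n 0 z (n 0 z (n 0 z
 z)))) (n 0 (n 0 (n 8663571 z z) (n 0 z (n 0 z (n 0 z z)))) (n 0 (n 0 z (n 0 z (n 0 z (n 0 z
 z)))) z))))))))))) (n 369 (n 0 (n 0 z (n 0 z (n 0 z (n 0 z z)))) (n 0 (n 0 z (n 0 z (n 0 z (n 0
 z z)))) (n 0 (n 0 z (n 0 (n 8525323 z z) (n 0 z (n 0 z z)))) (n 0 (n 0 z (n 0 z (n 0 z (n 0 z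
 z)))) (n 0 (n 0 z (n 0 z (n 0 z (n 0 z z)))) (n 0 (n 0 z (n 0 z (n 0 z (n 0 z z)))) (n 0 (n 0 z
 (n 0 z (n 0 z (n 0 z z)))) (n 0 (n 0 z (n 0 z (n 0 z (n 0 z z)))) (n 0 (n 0 z (n 0 (n 8790275 z
 z) (n 0 z (n 0 z z)))) (n 0 (n 0 z (n 0 z (n 0 z (n 0 z z)))) (n 0 (n 0 (n 8848939 z z) (n 0 z
 (n 0 z (n 0 z z)))) (n 0 (n 0 z (n 0 z (n 0 z (n 0 z z)))) (n 0 (n 0 z (n 0 z (n 0 z (n 0 z
 z)))) (n 0 (n 0 z (n 0 z (n 0 z (n 0 z z)))) (n 0 (n 0 z (n 0 z (n 0 z (n 0 z z)))) (n 0 (n 0 z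
 (n 0 z (n 0 z (n 0 z z)))) (n 0 (n 0 z (n 0 z (n 0 z (n 0 z z)))) (n 0 (n 0 z (n 0 z (n 0 z (n
 0 z z)))) (n 0 (n 0 z (n 0 z (n 0 z (n 0 z z)))) (n 0 (n 0 z (n 0 (n 8523875 z z) (n 0 z (n 0 z
 z)))) (n 0 (n 0 z (n 0 z (n 0 z (n 0 z z)))) (n 0 (n 0 z (n 0 z (n 0 z (n 0 z z)))) (n 0 (n 0
 (n 8861259 z z) (n 0 z (n 0 z (n 0 z z)))) (n 0 (n 0 z (n 0 z (n 0 z (n 0 z z)))) (n 0 (n 0 z
 (n 0 z (n 0 z (n 0 z z)))) (n 0 (n 0 z (n 0 (n 8523875 z (n 8523875 z z)) (n 0 z (n 0 z z))))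
 (n 0 (n 0 z (n 0 (n
 0xeb0ec7a87681976c8238a661c3e59d535aaa14b27ab4697706dd9df71f2de475b102bb6e4adb66f7a431d0081 z
 (n
 0x43b3a0281c086575240182ea50a08078217a181f79e81f82189e8628218618607e085f8207e079e8a08207df8207e18208218608211801
 z z)) (n 0 z (n 0 z z)))) (n 0 (n 0 z (n 0 z (n 0 z (n 0 z z)))) (n 0 (n 0 z (n 0 z (n 0 (n
 8790275 z (n 8790275 z z)) (n 0 z z)))) z))))))))))))))))))))))))))))) (n 171 (n 0 (n 0 z (n 0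
 (n 8663571 z z) (n 0 z (n 0 z z)))) (n 0 (n 0 z (n 0 z (n 0 z (n 0 z z)))) (n 0 (n 0 z (n 0 z
 (n 0 z (n 0 z z)))) (n 0 (n 0 z (n 0 z (n 0 z (n 0 z z)))) (n 0 (n 0 (n 8525323 z (n 8798835 z
 z)) (n 0 z (n 0 z (n 0 z z)))) (n 0 (n 0 (n 8525323 z (n 8798835 z z)) (n 0 z (n 0 z (n 0 z
 z)))) (n 0 (n 0 z (n 0 z (n 0 z (n 0 z z)))) (n 0 (n 0 z (n 0 z (n 0 z (n 0 z z)))) (n 0 (n 0
 (n 8525323 z (n 8525323 z z)) (n 0 z (n 0 z (n 0 z z)))) (n 0 (n 0 (n 8794379 z (n 8794379 z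
 z)) (n 0 z (n 0 z (n 0 z z)))) (n 0 (n 0 z (n 0 (n 8525323 z z) (n 0 z (n 0 z z)))) (n 0 (n 0 z
 (n 0 (n
 0x1c28618008107ff7f77d381681880b7ce80b7ff7e98237fe8627fb77e7fa8427cd8457f98008018027f37d17fe80582c7e87f88177ec81c8117ba80a8307fd7d781b7f17eb7fd8167fa7e380a7fb0051
 z (n 8803187 z z)) (n 0 z (n 0 (n
 0x1c28618008107ff7f77d381681880b7ce80b7ff7e98237fe8627fb77e7fa8427cd8457f98008018027f37d17fe80582c7e87f88177ec81c8117ba80a8307fd7d781b7f17eb7fd8167fa7e380a7fb0051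
 z z) z)))) (n 0 (n 0 (n 8525323 z (n 8525323 z z)) (n 0 z (n 0 z (n 0 (n 8525323 z (n 8525323 z
 z)) z)))) (n 0 (n 0 (n 8525323 z (n 8798835 z z)) (n 0 z (n 0 z (n 0 z z)))) (n 0 (n 0 z (n 0 z
 (n 0 z (n 0 z z)))) (n 0 (n 0 z (n 0 z (n 0 z (n 0 z z)))) (n 0 (n 0 z (n 0 z (n 0 z (n 0 z
 z)))) (n 0 (n 0 (n 8525323 z (n 8798835 z z)) (n 0 z (n 0 z (n 0 z z)))) (n 0 (n 0 z (n 0 (n
 8790275 z (n 8790275 z z)) (n 0 z (n 0 z z)))) (n 0 (n 0 z (n 0 (n 4262011 z (n 4262011 z z))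
 (n 0 z (n 0 (n
 0x43a438b00c087487060181064ea080382182282081f81f76281e82182086285f7e08218208217de85f8208208608208208208208601801
 z z) z)))) (n 0 (n 0 z (n 0 z (n 0 z (n 0 z z)))) (n 0 (n 0 (n 8525323 z (n 8525323 z z)) (n 0
 z (n 0 z (n 0 z z)))) (n 0 (n 0 z (n 0 (n 8790275 z (n 8790275 z z)) (n 0 z (n 0 z z)))) (n 0
 (n 0 z (n 0 z (n 0 z (n 0 z z)))) (n 0 (n 0 z (n 0 (n 8790275 z (n 8790275 z z)) (n 0 z (n 0 (n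
 8790275 z z) z)))) (n 0 (n 0 z (n 0 (n
 0x1c28748008107ff7f77d381681880b7ce80b7ff7e98237fe8627fb77e7fa8427cd8457f98008018027f37d17fe80582c7e87f88177ec81c8117ba80a8307fd7d781b7f17eb7fd8167fa7e380a7fb0051
 z (n 0x10ed080a030821 z z)) (n 0 z (n 0 (n
 0x43a438b00c087687640183064ea08078208208208208207e08208208208208208208208208208208208208208208208208208208201801
 z z) z)))) (n 0 (n 0 z (n 0 z (n 0 z (n 0 z z)))) (n 0 (n 0 (n 8663571 z z) (n 0 z (n 0 z (n 0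
 z z)))) (n 0 (n 0 (n
 0x128758208217a082081f7e085e8208218228617e082179e8207de8608a27e08217e081f8208208200041 z (n
 0x1c28758008107ff7f77d381681880b7ce80b7ff7e98237fe8627fb77e7fa8427cd8457f98008018027f37d17fe80582c7e87f88177ec81c8117ba80a8307fd7d781b7f17eb7fd8167fa7e380a7fb0051
 z z)) (n 0 z (n 0 z (n 0 z z)))) (n 0 (n 0 (n 8861259 z z) (n 0 z (n 0 z (n 0 z z)))) (n 0 (n 0
 z (n 0 (n 8794379 z (n 8803187 z z)) (n 0 z (n 0 z z)))) (n 0 (n 0 z (n 0 z (n 0 z (n 0 z z))))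
 (n 0 (n 0 z (n 0 z (n 0 z (n 0 z z)))) (n 0 (n 0 z (n 0 z (n 0 z (n 0 z z)))) (n 0 (n 0 z (n 0
 z (n 0 z (n 0 z z)))) (n 0 (n 0 (n 8525323 z (n 8525323 z z)) (n 0 z (n 0 z (n 0 z z))))
 z)))))))))))))))))))))))))))))))))))) (n 513 (n 0 (n 0 z (n 0 z (n 0 z (n 0 z z)))) (n 0 (n 0 z
 (n 0 z (n 0 z (n 0 z z)))) (n 0 (n 0 z (n 0 z (n 0 z (n 0 z z)))) (n 0 (n 0 z (n 0 z (n 0 z (n
 0 z z)))) (n 0 (n 0 z (n 0 z (n 0 z (n 0 z z)))) (n 0 (n 0 z (n 0 (n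
 0x186476150180ec3080a078208208208208207a08607e08208608608208208208208208208208608208208208208208201001
 z (n 7680387 z z)) (n 0 (n
 0x30eb0e64038207e08208208207e185f8608208208207e08208607e081f8608208608208208208218208200801 z
 z) (n 0 (n
 0x1c28738008107ff7f77d381681880b7ce80b7ff7e98237fe8627fb77e7fa8427cd8457f98008018027f37d17fe80582c7e87f88177ec81c8117ba80a8307fd7d781b7f17eb7fd8167fa7e380a7fb0051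
 z z) z)))) (n 0 (n 0 z (n 0 z (n 0 z (n 0 z z)))) (n 0 (n 0 z (n 0 z (n 0 z (n 0 z z)))) (n 0
 (n 0 z (n 0 z (n 0 z (n 0 z z)))) (n 0 (n 0 z (n 0 z (n 0 z (n 0 z z)))) (n 0 (n 0 z (n 0 (n
 8782363 z z) (n 0 z (n 0 z z)))) (n 0 (n 0 z (n 0 z (n 0 z (n 0 z z)))) (n 0 (n 0 (n
 0x3b2bb1200c1875875203850a8ea24078208e27a07e07df7a181e8218218228617e086275f82179e7e18628207a182185f8228218211801
 z z) (n 0 (n 8865339 z (n 8803187 z z)) (n 0 z (n 0 (n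
 0x43ac18900c0874731203830e506420382072082285d8207e37df85f7e08618207e08207df8218218607e08207e182182182081f7df1801
 z z) z)))) (n 0 (n 0 z (n 0 (n
 0xbb1c38281c076284050380ea4ca080381f8607e08208607e081f82082086081f82082082082081f82082082082082081f8208208201801
 z (n
 0x30eb0e6c038218208208208208208208208208208208208208208208208208208208208208208208208200801 z
 z)) (n 0 z (n 0 z z)))) (n 0 (n 0 z (n 0 z (n 0 z (n 0 z z)))) (n 0 (n 0 (n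
 0xc3b43a900c0875873201810e8ec64078208207e081f8208208208208208208208208208608207e08208208208208208208208208211801
 z z) (n 0 (n
 0xa1d9d8d40e0431c39281c076284050380ea4ca080381f8607e08208607e07df82082086186082082185f82081f8207e08208217e08208208208202001
 z (n 8803187 z z)) (n 0 z (n 0 z z)))) (n 0 (n 0 (n
 0x30eb0ca4078208608208208208208208208208208208208208208208208208208208208208208208208200801 z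
 (n 8798835 z z)) (n 0 z (n 0 (n 8848923 z (n 8802675 z z)) (n 0 (n
 0x1b0e61a8738208217e08a179d76081c79f8a18238a26a482381f8217df75e6e389b7647a18a17e485f7600081 z
 (n
 0x1875831201810e8e624038208607e08208208608208208208208208208208208207e08208208208208208208208208201001
 z z)) z)))) (n 0 (n 0 z (n 0 z (n 0 z (n 0 z z)))) z)))))))))))))))))) (n 81 (n 0 (n 0 z (n 0 z
 (n 0 z (n 0 z z)))) (n 0 (n 0 z (n 0 z (n 0 z (n 0 z z)))) (n 0 (n 0 z (n 0 z (n 0 z (n 0 z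
 z)))) (n 0 (n 0 z (n 0 z (n 0 z (n 0 z z)))) (n 0 (n 0 z (n 0 z (n 0 z (n 0 z z)))) (n 0 (n 0 z
 (n 0 z (n 0 z (n 0 z z)))) (n 0 (n 0 z (n 0 z (n 0 z (n 0 z z)))) z))))))) (n 135 (n 0 (n 0 z
 (n 0 z (n 0 z (n 0 z z)))) (n 0 (n 0 z (n 0 z (n 0 z (n 0 z z)))) (n 0 (n 0 z (n 0 z (n 0 z (n
 0 z z)))) (n 0 (n 0 z (n 0 (n 8790275 z z) (n 0 z (n 0 z z)))) (n 0 (n 0 z (n 0 z (n 0 z (n 0 z
 z)))) (n 0 (n 0 z (n 0 z (n 0 z (n 0 z z)))) (n 0 (n 0 z (n 0 z (n 0 z (n 0 z z)))) (n 0 (n 0 z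
 (n 0 (n
 0x30ed0e0a038207e08208208208208608208208208208208208208208608608208208208208208208208200801 z
 z) (n 0 z (n 0 z z)))) (n 0 (n 0 z (n 0 (n 8865339 z (n 8865339 z z)) (n 0 (n
 0x30ed0e0a038207e08208208208208608208208208208208208208208608608208208208208208208208200801 z
 z) (n 0 (n
 0x3b2988401c0873871601810ed0ec00782082082081f7df82085e8207e08217e07e085f85f7e08217e08228207e17e18607e18608201801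
 z z) z)))) (n 0 (n 0 z (n 0 z (n 0 z (n 0 z z)))) z)))))))))) (n 73 (n 0 (n 0 z (n 0 z (n 0 z
 (n 0 z z)))) (n 0 (n 0 z (n 0 z (n 0 z (n 0 z z)))) (n 0 (n 0 z (n 0 z (n 0 z (n 0 z z)))) (n 0
 (n 0 z (n 0 z (n 0 z (n 0 z z)))) (n 0 (n 0 z (n 0 z (n 0 z (n 0 z z)))) (n 0 (n 0 z (n 0 (n
 7673867 z z) (n 0 z (n 0 z z)))) (n 0 (n 0 z (n 0 z (n 0 z (n 0 z z)))) (n 0 (n 0 z (n 0 z (n 0
 z (n 0 z z)))) (n 0 (n 0 (n 8848939 z (n 8798835 z z)) (n 0 z (n 0 (n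
 0x1876821501830eaea24038208208208208207e181f8618208218607e08217e08208208208208207e08208208208208201001
 z (n 8802675 z z)) (n 0 (n 8848939 z (n 8848939 z z)) z)))) (n 0 (n 0 z (n 0 z (n 0 z (n 0 z
 z)))) (n 0 (n 0 z (n 0 (n
 0x30ed0e0a038207e08208208208208608208208208208208208208208608608208208208208208208208200801 z
 z) (n 0 z (n 0 z z)))) (n 0 (n 0 z (n 0 z (n 0 z (n 0 z z)))) z)))))))))))) (n 633 (n 0 (n 0 z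
 (n 0 (n 8865339 z (n 8865339 z z)) (n 0 z (n 0 (n
 0x1875643201810e8e824078208208207df7e082081f8208208218208208208208208208208218207e08208208208608211001
 z z) z)))) (n 0 (n 0 (n 8861259 z z) (n 0 z (n 0 z (n 0 z z)))) (n 0 (n 0 z (n 0 (n 3283035 z
 (n 8803187 z z)) (n 0 z (n 0 z z)))) (n 0 (n 0 z (n 0 z (n 0 z (n 0 z z)))) (n 0 (n 0 z (n 0 z
 (n 0 z (n 0 z z)))) (n 0 (n 0 (n
 0x30e90864078207e08208208208218608208208208208208208208208208608208208208208208208208200801 z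
 z) (n 0 z (n 0 (n 8848923 z z) (n 0 z z)))) z)))))) (n 105 (n 0 (n 0 z (n 0 z (n 0 z (n 0 z
 z)))) (n 0 (n 0 z (n 0 z (n 0 z (n 0 z z)))) (n 0 (n 0 z (n 0 z (n 0 z (n 0 z z)))) (n 0 (n 0 z
 (n 0 z (n 0 z (n 0 z z)))) (n 0 (n 0 (n 8525323 z z) (n 0 (n 8525323 z (n 8803187 z z)) (n 0 z
 (n 0 z z)))) (n 0 (n 0 (n 8525323 z z) (n 0 z (n 0 z (n 0 z z)))) (n 0 (n 0 z (n 0 z (n 0 z (n
 0 z z)))) (n 0 (n 0 z (n 0 z (n 0 z (n 0 z z)))) (n 0 (n 0 z (n 0 z (n 0 z (n 0 z z)))) (n 0 (n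
 0 (n 8525323 z z) (n 0 z (n 0 z (n 0 z z)))) (n 0 (n 0 z (n 0 (n 7743563 z (n 8803187 z z)) (n
 0 z (n 0 z z)))) (n 0 (n 0 z (n 0 z (n 0 z (n 0 z z)))) (n 0 (n 0 z (n 0 (n 3278939 z (n
 3278939 z z)) (n 0 (n 3278939 z z) (n 0 (n 3278939 z z) z)))) (n 0 (n 0 z (n 0 z (n 0 z (n 0 z
 z)))) (n 0 (n 0 z (n 0 z (n 0 z (n 0 z z)))) (n 0 (n 0 z (n 0 (n
 0x16a860808d80795c92938957887f6e9d7ecf7c187bb457b87a808182765c7f84a36c799270968e4888a67d5f9674707d927c68887e0049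
 z (n
 0x1c28608008107ff7f77d381681880b7ce80b7ff7e98237fe8627fb77e7fa8427cd8457f98008018027f37d17fe80582c7e87f88177ec81c8117ba80a8307fd7d781b7f17eb7fd8167fa7e380a7fb0051
 z z)) (n 0 z (n 0 (n 8852523 z z) z)))) (n 0 (n 0 z (n 0 z (n 0 z (n 0 z z)))) (n 0 (n 0 z (n 0
 z (n 0 z (n 0 z z)))) (n 0 (n 0 z (n 0 (n
 0xa8748208227e082081f7e085e8207e08218207e08217e082181e81f8217e07e17e081f8218208200041 z (n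
 0x10e90e80078208a08208208208208208208208208208208208208208208208208208208208208217e08200801 z
 z)) (n 0 z (n 0 z z)))) (n 0 (n 0 z (n 0 z (n 0 z (n 0 z z)))) (n 0 (n 0 z (n 0 z (n 0 z (n 0 z
 z)))) (n 0 (n 0 z (n 0 z (n 0 z (n 0 z z)))) (n 0 (n 0 z (n 0 z (n 0 z (n 0 z z)))) (n 0 (n 0
 (n
 0x122873808a807a638e8f8760877f71967ebe7d2c7caa5fad7b80808179637f829d717b8e73928a54869e7e659177737e8e7c6d877e0049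
 z z) (n 0 z (n 0 z (n 0 z z)))) (n 0 (n 0 z (n 0 (n 8790275 z (n 8790275 z z)) (n 0 (n 8790275
 z z) (n 0 (n 8790275 z z) z)))) (n 0 (n 0 z (n 0 z (n 0 z (n 0 z z)))) (n 0 (n 0 z (n 0 z (n 0
 z (n 0 z z)))) (n 0 (n 0 z (n 0 z (n 0 (n 8790275 z z) (n 0 z z)))) (n 0 (n 0 z (n 0 z (n 0 z
 (n 0 z z)))) (n 0 (n 0 z (n 0 (n
 0x1287482082279f82181f7e085e8217e18218607a082179f82181e86082179f7e17e081f8218208200041 z (n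
 0x876864303830c90e46078208208208208208218208208208208208208208208208208208208208208208208208208201001
 z z)) (n 0 z (n 0 z z)))) (n 0 (n 0 z (n 0 z (n 0 z (n 0 z z)))) (n 0 (n 0 z (n 0 (n 8525323 z
 (n 8803187 z z)) (n 0 z (n 0 z z)))) (n 0 (n 0 z (n 0 z (n 0 z (n 0 z z)))) (n 0 (n 0 z (n 0 z
 (n 0 z (n 0 z z)))) (n 0 (n 0 z (n 0 z (n 0 z (n 0 z z)))) z)))))))))))))))))))))))))))))))))))
 (n 141 (n 0 (n 0 z (n 0 (n 8525323 z z) (n 0 z (n 0 z z)))) (n 0 (n 0 z (n 0 z (n 0 (n 8525323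
 z (n 8525323 z z)) (n 0 (n 8525323 z (n 8525323 z z)) z)))) (n 0 (n 0 z (n 0 (n 8865339 z (n
 8865339 z z)) (n 0 z (n 0 (n
 0xb21c10b81c0873871603830e90e0c038208237e08207de7e185e82082182282179f8217de81f7de8de86181e8a27a282086082079f1801
 z z) z)))) (n 0 (n 0 z (n 0 z (n 0 z (n 0 z z)))) (n 0 (n 0 z (n 0 (n
 0x1875743601810eae60c0381f7e082081f8608228208207e08608207e08207a08218208617e08207df8208208208208601001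
 z (n
 0xc3b3b2180c087687030180ecaeca0078218208608207e07e181f8208218208207e08607e07e08208a08208207df8208208208608211801
 z z)) (n 0 z (n 0 z z)))) (n 0 (n 0 z (n 0 z (n 0 z (n 0 z z)))) (n 0 (n 0 (n 8525323 z (n
 8525323 z z)) (n 0 z (n 0 z (n 0 z z)))) (n 0 (n 0 z (n 0 z (n 0 z (n 0 z z)))) (n 0 (n 0 z (n
 0 z (n 0 z (n 0 z z)))) (n 0 (n 0 z (n 0 z (n 0 z (n 0 z z)))) (n 0 (n 0 (n 8525323 z (n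
 8525323 z z)) (n 0 z (n 0 z (n 0 (n 8525323 z (n 8798835 z z)) z)))) (n 0 (n 0 (n 8861259 z z)
 (n 0 z (n 0 z (n 0 z z)))) (n 0 (n 0 z (n 0 (n 3213403 z z) (n 0 z (n 0 z z)))) (n 0 (n 0 z (n
 0 (n 3213403 z (n 8803187 z z)) (n 0 (n 3213403 z z) (n 0 (n 3213403 z z) z)))) (n 0 (n 0 z (n
 0 (n
 0x8b0e64a87381c7a78228a46dd5a395951c9e15ec7e85a57ab71e96075f4de5eda154b27639dd6ea7e24de0081 z
 (n
 0xc31c20381c0874873601810ed0e800782085f82082082082081f8208208208208208218218217e08208208207e08208208208608201801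
 z z)) (n 0 z (n 0 z z)))) (n 0 (n 0 (n 8525323 z (n 8525323 z z)) (n 0 z (n 0 (n 8525323 z (n
 8802675 z z)) (n 0 (n 8525323 z (n 8798835 z z)) z)))) (n 0 (n 0 z (n 0 (n
 0x43a439b00c0873871601830e90e0c038218217e085f85f76181f8218208218207e082181f8207df85f82081f8618208208607e081f1801
 z z) (n 0 z (n 0 z z)))) (n 0 (n 0 z (n 0 (n 8790275 z z) (n 0 z (n 0 z z)))) (n 0 (n 0 z (n 0
 z (n 0 z (n 0 z z)))) (n 0 (n 0 z (n 0 (n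
 0x1b0e81a8748208217e08a179d76081c79f8a18238a26a482381f8217df75e6e389b7647a18a17e485f7600081 z
 (n 8803187 z z)) (n 0 z (n 0 z z)))) (n 0 (n 0 z (n 0 z (n 0 z (n 0 z z)))) (n 0 (n 0 z (n 0 z
 (n 0 z (n 0 z z)))) (n 0 (n 0 z (n 0 z (n 0 (n
 0x5b0e65287381f81e8208e081f89f8db7e379c9dda1f6a182481e8e17dc81d7a57606e26e37df7e895a6a50081 z
 (n
 0x1c28608008107ff7f77d381681880b7ce80b7ff7e98237fe8627fb77e7fa8427cd8457f98008018027f37d17fe80582c7e87f88177ec81c8117ba80a8307fd7d781b7f17eb7fd8167fa7e380a7fb0051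
 z z)) (n 0 (n 8861259 z (n 8861259 z z)) z)))) (n 0 (n 0 z (n 0 (n 8790275 z (n 8790275 z z))
 (n 0 z (n 0 z z)))) (n 0 (n 0 z (n 0 z (n 0 z (n 0 z z)))) (n 0 (n 0 z (n 0 z (n 0 z (n 0 z
 z)))) (n 0 (n 0 z (n 0 z (n 0 z (n 0 z z)))) (n 0 (n 0 (n
 0x87687640182ecaeca4078208208208208207e08208208208208208208208207e08208208208208218208208218208211001
 z z) (n 0 (n
 0x1287482082279f82181f7e085e8217e18218607a082179f82181e86082179f7e17e081f8218208200041 z (n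
 8803187 z z)) (n 0 z (n 0 z z)))) z)))))))))))))))))))))))))))) (n 601 (n 0 (n 0 z (n 0 z (n 0
 z (n 0 z z)))) (n 0 (n 0 z (n 0 z (n 0 z (n 0 z z)))) (n 0 (n 0 z (n 0 z (n 0 z (n 0 z z)))) (n
 0 (n 0 z (n 0 z (n 0 z (n 0 z z)))) (n 0 (n 0 (n 8861259 z z) (n 0 z (n 0 z (n 0 z z)))) (n 0
 (n 0 z (n 0 (n 2164827 z (n 2164827 z z)) (n 0 z (n 0 z z)))) (n 0 (n 0 z (n 0 (n
 0x43a438b00c1874870601830e6e80c038217e27e086082072185d85f7e08a28207608237df82179f81e7e285f8a282285f8207df81f1801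
 z z) (n 0 z (n 0 z z)))) (n 0 (n 0 z (n 0 z (n 0 z (n 0 z z)))) (n 0 (n 0 z (n 0 z (n 0 z (n 0
 z z)))) (n 0 (n 0 (n 0x21da1c90060000030eae408071021 z z) (n 0 (n
 0x1287482082279f82181f7e085e8217e18218607a082179f82181e86082179f7e17e081f8218208200041 z (n
 8803187 z z)) (n 0 z (n 0 z z)))) z)))))))))) (n 96 (n 0 (n 0 z (n 0 (n
 0x432988381c0854732603830c8e4260382082085f7e07e086085f8208217e17e07e081f89f7e081f82082181f8207e18208208608201801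
 z z) (n 0 z (n 0 z z)))) (n 0 (n 0 z (n 0 (n 2164827 z (n 8803187 z z)) (n 0 z (n 0 z z)))) (n
 0 (n 0 z (n 0 z (n 0 (n
 0x4b0e64287381f81f8208a081f89f89c7e279d99d99f6e182381e8e17dd81e7a479f7227627df7e691c6e40081 z
 (n
 0x1c28208008107ff7f77d381681880b7ce80b7ff7e98237fe8627fb77e7fa8427cd8457f98008018027f37d17fe80582c7e87f88177ec81c8117ba80a8307fd7d781b7f17eb7fd8167fa7e380a7fb0051
 z z)) (n 0 (n 8848939 z (n 8848939 z z)) z)))) (n 0 (n 0 z (n 0 z (n 0 z (n 0 z z)))) (n 0 (n 0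
 z (n 0 z (n 0 z (n 0 z z)))) (n 0 (n 0 z (n 0 z (n 0 z (n 0 z z)))) (n 0 (n 0 z (n 0 z (n 0 z
 (n 0 z z)))) (n 0 (n 0 z (n 0 z (n 0 z (n 0 z z)))) (n 0 (n 0 (n
 0x122810808a807a638e8f8760877f72967ebf7c2d7caa60ad7b80818277637f849c707b8e73928a53879f7e659176737e8e7d6d867d0049
 z (n
 0x1c28108008107ff7f77d381681880b7ce80b7ff7e98237fe8627fb77e7fa8427cd8457f98008018027f37d17fe80582c7e87f88177ec81c8117ba80a8307fd7d781b7f17eb7fd8167fa7e380a7fb0051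
 z z)) (n 0 z (n 0 (n 8848923 z (n 8848923 z z)) (n 0 (n
 0x3b0e63287381f81f8208a082085f89d7e27de95e9607207e381e8a17de81e7a37e07617627e08258dd7230081 z
 (n
 0x1c28108008107ff7f77d381681880b7ce80b7ff7e98237fe8627fb77e7fa8427cd8457f98008018027f37d17fe80582c7e87f88177ec81c8117ba80a8307fd7d781b7f17eb7fd8167fa7e380a7fb0051
 z z)) z)))) (n 0 (n 0 z (n 0 z (n 0 z (n 0 z z)))) (n 0 (n 0 (n
 0x2c39c39301c3764754203870a8e62407816a556594f35ecad4726da56dba199db82788bc9d4ddb2f5bb5d975b5636176aa72789f8a41801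
 z z) (n 0 (n 8865339 z (n 8803187 z z)) (n 0 z (n 0 z z)))) (n 0 (n 0 z (n 0 z (n 0 z (n 0 z
 z)))) (n 0 (n 0 z (n 0 z (n 0 z (n 0 z z)))) (n 0 (n 0 (n
 0x754654203850ed0e640381f7e07e181f7e08608608208207e082082082085f82186082082082086082082082081e8201001
 z z) (n 0 (n 7743563 z (n 8803187 z z)) (n 0 z (n 0 z z)))) z)))))))))))))) (n 467 (n 0 (n 0 z
 (n 0 z (n 0 z (n 0 z z)))) (n 0 (n 0 z (n 0 z (n 0 z (n 0 z z)))) (n 0 (n 0 z (n 0 z (n 0 z (n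
 0 z z)))) (n 0 (n 0 z (n 0 z (n 0 z (n 0 z z)))) z)))) (n 461 (n 0 (n 0 z (n 0 z (n 0 z (n 0 z
 z)))) (n 0 (n 0 z (n 0 z (n 0 z (n 0 z z)))) (n 0 (n 0 z (n 0 z (n 0 z (n 0 z z)))) (n 0 (n 0 z
 (n 0 z (n 0 z (n 0 z z)))) (n 0 (n 0 z (n 0 z (n 0 z (n 0 z z)))) (n 0 (n 0 z (n 0 z (n 0 z (n
 0 z z)))) (n 0 (n 0 z (n 0 z (n 0 z (n 0 z z)))) (n 0 (n 0 z (n 0 z (n 0 z (n 0 z z))))
 z)))))))) (n 129 (n 0 (n 0 z (n 0 z (n 0 z (n 0 z z)))) (n 0 (n 0 z (n 0 (n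
 0xd50605983081482a2a952f4a76ddad3d935a8968a595a46998584ab75c66d93341c62d7226da6e06697da0081 z
 (n 8803187 z z)) (n 0 z (n 0 z z)))) (n 0 (n 0 z (n 0 (n
 0x31d85380417fb47f80727f807f67cc9d842aa08a84799e88604b9e57a67f40e87e619a8279a4768a747d924eb0926c48c96a7b638c0049
 z (n 8803187 z z)) (n 0 z (n 0 z z)))) (n 0 (n 0 z (n 0 (n
 0x874874003830eaea800781f8608208208208208208208208208208208607e08208208208208208208208208208208201001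
 z (n 8803187 z z)) (n 0 z (n 0 z z)))) (n 0 (n 0 z (n 0 (n 8794379 z (n 8794379 z z)) (n 0 z (n
 0 z z)))) (n 0 (n 0 z (n 0 z (n 0 z (n 0 z z)))) (n 0 (n 0 z (n 0 z (n 0 z (n 0 (n
 0x31d85380417fb47f80727f807f67cc9d842aa08a84799e88604b9e57a67f40e87e619a8279a4768a747d924eb0926c48c96a7b638c0049
 z (n 8798835 z z)) z)))) (n 0 (n 0 z (n 0 z (n 0 z (n 0 z z)))) (n 0 (n 0 z (n 0 z (n 0 z (n 0
 z z)))) (n 0 (n 0 (n 8794379 z (n 8798835 z z)) (n 0 z (n 0 z (n 0 z z)))) (n 0 (n 0 z (n 0 z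
 (n 0 z (n 0 z z)))) (n 0 (n 0 (n 8794379 z z) (n 0 z (n 0 z (n 0 z z)))) (n 0 (n 0 z (n 0 z (n
 0 z (n 0 z z)))) (n 0 (n 0 z (n 0 z (n 0 z (n 0 z z)))) (n 0 (n 0 (n
 0x122875808a807a638e8f8760878071977ebf7d2d7cab60ac7c80818177637f839d717a8e74918b53869e7e679176727d8f7d6d867d0049
 z z) (n 0 z (n 0 z (n 0 z z)))) (n 0 (n 0 z (n 0 z (n 0 z (n 0 z z)))) (n 0 (n 0 (n
 0x128738208217a082081f7e085e8208218228617e082179e8207de8608a27e08217e081f8208208200041 z z) (n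
 0 z (n 0 z (n 0 z z)))) (n 0 (n 0 z (n 0 z (n 0 z (n 0 z z)))) (n 0 (n 0 z (n 0 (n 3213435 z (n
 3213435 z z)) (n 0 z (n 0 z z)))) (n 0 (n 0 z (n 0 (n
 0x43b388280c1765754001810eb0a200781f8608208208207e081f8208208608208208208208208208208208218208208208208208201801
 z (n 8803187 z z)) (n 0 z (n 0 z z)))) (n 0 (n 0 (n
 0x10a90a80038217e082081f7e07e181f82082082182082082085f7e081f8608208208208208208208208200801 z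
 z) (n 0 (n
 0x31d87480417fb47f80727f807f67cc9d842aa08a84799e88604b9e57a67f40e87e619a8279a4768a747d924eb0926c48c96a7b638c0049
 z (n 8803187 z z)) (n 0 z (n 0 z z)))) (n 0 (n 0 z (n 0 z (n 0 z (n 0 z z)))) (n 0 (n 0 z (n 0
 (n 8790275 z (n 8790275 z z)) (n 0 z (n 0 z z)))) (n 0 (n 0 z (n 0 z (n 0 z (n 0 z z)))) (n 0
 (n 0 z (n 0 (n 3213435 z (n 3213435 z z)) (n 0 z (n 0 (n
 0x60850c1c0e14193a8200c175464320180c86a864038208218207e07e07e085f8218208618207e08208207e081f86082081f81f8208208218208212001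
 z z) z)))) (n 0 (n 0 z (n 0 z (n 0 z (n 0 z z)))) (n 0 (n 0 z (n 0 (n 8790275 z (n 8790275 z
 z)) (n 0 z (n 0 (n 8790275 z z) z)))) (n 0 (n 0 z (n 0 (n
 0x128748208217df8218207e185f8617e086185f7df8217e082085f85e8217e07e07608208208208200041 z (n
 0x874874003810eaea800781f8a082081f82081f82082082082181f8208218208208208208208208208218208208208201001
 z z)) (n 0 z (n 0 z z)))) (n 0 (n 0 (n
 0x10a90a80038207e08208208208218208208208208208208208208208208608208208208208208208208200801 z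
 z) (n 0 (n
 0x1287482082279f82181f7e085e8217e18218607a082179f82181e86082179f7e17e081f8218208200041 z (n
 8803187 z z)) (n 0 z (n 0 z z)))) (n 0 (n 0 z (n 0 (n 8663571 z (n 8663571 z z)) (n 0 z (n 0 z
 z)))) (n 0 (n 0 z (n 0 (n
 0x31d87480417fb47f80727f807f67cc9d842aa08a84799e88604b9e57a67f40e87e619a8279a4768a747d924eb0926c48c96a7b638c0049
 z (n
 0x5b0e85287481f81e8208e081f89f8db7e379c9dda1f6a182481e8e17dc81d7a57606e26e37df7e895a6a50081 z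
 z)) (n 0 z (n 0 (n 8795995 z z) z)))) (n 0 (n 0 z (n 0 z (n 0 z (n 0 z z)))) (n 0 (n 0 z (n 0
 (n
 0x42a42a000c0875851003810eaea200781f7e08208208208218208208208208208208208207e08208608208208208208208218208601801
 z (n 8803187 z z)) (n 0 z (n 0 z z)))) (n 0 (n 0 z (n 0 z (n 0 z (n 0 z z)))) (n 0 (n 0 z (n 0
 z (n 0 z (n 0 z z)))) (n 0 (n 0 z (n 0 z (n 0 (n 8790275 z z) (n 0 z z)))) (n 0 (n 0 z (n 0 z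
 (n 0 z (n 0 z z)))) (n 0 (n 0 z (n 0 z (n 0 z (n 0 z z)))) (n 0 (n 0 z (n 0 z (n 0 z (n 0 z
 z)))) (n 0 (n 0 z (n 0 (n 8790275 z (n 8790275 z z)) (n 0 z (n 0 z z)))) (n 0 (n 0 (n
 0x122875808a807b638e8f8760878071977fbf7d2d7cab5fac7b81818277637e849c707a8e73918b54869e7e669177737e8e7d6d867d0049
 z (n 8798835 z z)) (n 0 z (n 0 z (n 0 z z)))) z))))))))))))))))))))))))))))))))))))))))) (n 3
 (n 0 (n 0 z (n 0 (n 8663571 z (n 8663571 z z)) (n 0 z (n 0 z z)))) (n 0 (n 0 z (n 0 z (n 0 z (n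
 0 z z)))) (n 0 (n 0 z (n 0 (n 8794379 z z) (n 0 z (n 0 z z)))) (n 0 (n 0 z (n 0 z (n 0 z (n 0 z
 z)))) (n 0 (n 0 z (n 0 z (n 0 z (n 0 z z)))) (n 0 (n 0 z (n 0 z (n 0 z (n 0 z z)))) (n 0 (n 0 z
 (n 0 z (n 0 z (n 0 z z)))) (n 0 (n 0 (n 8663571 z z) (n 0 z (n 0 z (n 0 z z)))) (n 0 (n 0 z (n
 0 z (n 0 (n 8790275 z (n 8790275 z z)) (n 0 z z)))) z))))))))) (n 1 (n 0 (n 0 z (n 0 z (n 0 (n
 8794379 z z) (n 0 z z)))) (n 0 (n 0 z (n 0 z (n 0 z (n 0 z z)))) (n 0 (n 0 z (n 0 (n 7542795 z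
 z) (n 0 z (n 0 z z)))) (n 0 (n 0 z (n 0 z (n 0 z (n 0 z z)))) (n 0 (n 0 z (n 0 z (n 0 z (n 0 z
 z)))) (n 0 (n 0 z (n 0 z (n 0 z (n 0 z z)))) (n 0 (n 0 z (n 0 z (n 0 z (n 0 z z)))) (n 0 (n 0 z
 (n 0 z (n 0 z (n 0 z z)))) (n 0 (n 0 z (n 0 z (n 0 z (n 0 z z)))) z))))))))) (n 0 (n 0 (n 0 z
 (n 0 z (n 0 z (n 0 (n
 0x1c28108008107ff7f77d381681880b7ce80b7ff7e98237fe8627fb77e7fa8427cd8457f98008018027f37d17fe80582c7e87f88177ec81c8117ba80a8307fd7d781b7f17eb7fd8167fa7e380a7fb0051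
 z (n 8798835 z z)) z)))) (n 0 (n 0 z (n 0 z (n 0 z (n 0 z z)))) (n 0 (n 0 z (n 0 z (n 0 z (n 0
 z z)))) (n 0 (n 0 z (n 0 z (n 0 z (n 0 z z)))) (n 0 (n 0 (n
 0x1732850401810e90e84038207a086081f82082185f8208208208208208208608208208208208208208208208208208201001
 z z) (n 0 (n
 0x27d874804d7faa7f81757f7f806cbd97833b9a87837b9886675698609e7f4dd37f6695827b9c7987767e8f59a68d7054ba6f7b69890049
 z (n 8803187 z z)) (n 0 z (n 0 z z)))) (n 0 (n 0 (n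
 0x1c28738008107ff7f77d381681880b7ce80b7ff7e98237fe8627fb77e7fa8427cd8457f98008018027f37d17fe80582c7e87f88177ec81c8117ba80a8307fd7d781b7f17eb7fd8167fa7e380a7fb0051
 z (n 8798835 z z)) (n 0 z (n 0 z (n 0 z z)))) (n 0 (n 0 z (n 0 (n 2164827 z (n 8803187 z z)) (n
 0 (n 2164827 z z) (n 0 (n 2164827 z z) z)))) (n 0 (n 0 z (n 0 (n
 0x172143080382e650c08078227e182081f79f7a085e8208208618207e082281e7df81e81f82281f8218208a08208208201001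
 z z) (n 0 z (n 0 z z)))) (n 0 (n 0 z (n 0 (n
 0x1b0e81a8748208217e08a179d76081c79f8a18238a26a482381f8217df75e6e389b7647a18a17e485f7600081 z
 (n 8803187 z z)) (n 0 z (n 0 z z)))) (n 0 (n 0 z (n 0 (n 8794379 z (n 8794379 z z)) (n 0 z (n 0
 z z)))) (n 0 (n 0 (n
 0x439438200c0754754203830e90e80038207e07a08208207e185f8608208208207e082089f7e081f8608208208208218208208208201801
 z z) (n 0 (n
 0x1b0e81a8748208217e08a179d76081c79f8a18238a26a482381f8217df75e6e389b7647a18a17e485f7600081 z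
 (n 8803187 z z)) (n 0 z (n 0 z z)))) (n 0 (n 0 z (n 0 z (n 0 z (n 0 z z)))) (n 0 (n 0 z (n 0 z
 (n 0 z (n 0 z z)))) (n 0 (n 0 (n 8782363 z z) (n 0 z (n 0 z (n 0 z z)))) (n 0 (n 0 z (n 0 z (n
 0 z (n 0 z z)))) (n 0 (n 0 z (n 0 (n 8782363 z (n 8803187 z z)) (n 0 z (n 0 z z)))) (n 0 (n 0 z
 (n 0 (n 0x1287482082279f82181f7e085e8217e18218607a082179f82181e86082179f7e17e081f8218208200041
 z (n 0xe650a08030821 z z)) (n 0 z (n 0 z z)))) (n 0 (n 0 z (n 0 z (n 0 z (n 0 z z))))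
 z)))))))))))))))))) z))))))))))))))))))))) z)))) z) z)))) (n
 0x1b3468cb17434c9a0b4d58132630d351909a6cb0d28690cb2d04495200cb4c0 (n 0x1969a (n 719 (n 0 z (n
 6426707 z (n 0 z (n 0 z (n 0 z (n 0 z (n 0 z (n 2 z (n 0 z (n 10 z z)))))))))) (n 718 (n
 0xca86ca24078147a2c5a9976e581f79d856a1a764a1c4e5760a5d4a7c6c5db96965a6e961f8a18a788f6620801 z
 (n 0 z (n 0 z (n 0 z (n 6426707 z (n 18 z (n 0 z (n
 0x6ca4ca400781f8637e091982281d8dd82189f6a67e185f8609206e09227628668a16e276479d7df8607a00801 z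
 (n 0 z (n 26 z (n 6426707 z (n 0 z (n
 0x2eca2a60407805a7f6cbd728c7160898a7b75758b559963846d989070a37e7293737281bda78e5e946d5f809c768568a18c89c1702d76750809
 z (n 0 z (n 0 z (n 0 z (n
 0x2ca2a6040781f86182085f81f82082082082082082082082181f82082182082082082086082086081f8200801 z
 (n 0 z (n 0 z z))))))))))))))))))) (n 129 (n 0 z (n 0 z (n 0 z (n 34 z (n 0 z (n 0 z (n 6426707
 z (n 0 z z)))))))) (n 3 (n 42 z (n 0 z (n 2164283 z (n 0 z (n 0 z (n 0 z (n 0 z z))))))) (n 1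
 (n 2164299 z (n 50 z (n 0 z (n 58 z z)))) (n 0 (n
 0x34ca484020781d7a291e89f8e49e17a282199a85a99682585d85f79dbe54dd87075846c6a6a607e6b9d59d0801 z
 (n 66 z (n
 0x4ca286040382185f82086281e82082281f7e079f81f8218207e085f85f7e182082082181f8a07e08208200801 z
 (n 0 z (n 0 z (n 0 z (n 0 z (n 0 z (n 2164315 z (n 0 z (n 74 z (n 0 z (n 82 z (n 90 z
 z)))))))))))))) z)))))) (n 1 (n 0 (n 0 z (n 167 (n 0 z (n 0 z (n 0 z (n 0 z (n 0 z (n 0 z (n 0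
 z (n 0 z (n 0 z (n 0 z (n 0 z (n 0 z z)))))))))))) (n 167 (n 0 z (n 0 z (n 0 z (n 0 z (n 0 z (n
 0 z (n 0 z (n 0 z (n 2 (n 1 z (n 1 z (n 1 z (n 2 (n 0 z (n 0 (n 8721979 z z) (n 0 z (n 0 z (n 0
 (n 204 z (n 204 z z)) (n 0 (n 204 z z) z)))))) (n 1 z (n 1 z (n 2 (n 0 (n 644 z z) (n 0 z (n 0
 z (n 0 z (n 0 (n 8798835 z (n 644 z z)) (n 0 (n 644 z z) z)))))) (n 2 (n 0 (n 644 z z) (n 0 z
 (n 0 z (n 0 z (n 0 (n 8798835 z (n 644 z z)) (n 0 (n 8721979 z z) z)))))) z)))))))) (n 0 z (n 0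
 z (n 0 z z)))))))))))) (n 1005 (n 0 z (n 0 z (n 0 z (n 0 z (n 0 z (n 0 z (n 0 z (n 0 z (n 0 z
 (n 0 z (n 0 z (n 0 z z)))))))))))) (n 165 (n 0 z (n 0 z (n 0 z (n 0 z (n 0 z (n 0 z (n 0 z (n 0
 z (n 0 z (n 0 z (n 0 z (n 0 z (n 0 z (n 0 z (n 0 z (n 0 z z)))))))))))))))) (n 51 (n 0 z (n 0 z
 (n 0 z (n 0 z (n 0 z (n 0 z (n 0 z z))))))) (n 51 (n 0 z (n 0 z (n 0 z (n 2 (n 1 z (n 1 z (n 2
 (n 0 z (n 0 z (n 0 z (n 0 z (n 0 z (n 0 z z)))))) (n 2 (n 0 z (n 0 z (n 0 z (n 0 z (n 0 z (n 0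
 z z)))))) z)))) (n 0 z (n 0 z (n 0 z z))))))) (n 161 (n 0 z (n 0 z (n 0 z (n 0 z (n 0 z (n 0 z
 (n 0 z (n 0 z (n 0 z (n 0 z (n 0 z (n 0 z (n 0 z (n 0 z (n 0 z (n 0 z z)))))))))))))))) (n 161
 (n 2 (n 0 z (n 0 z z)) (n 7673403 z (n 0 z (n 0 z (n 0 z (n 0 z (n 0 z (n 0 z (n 0 z (n 0 z (n
 0 z (n 0 z (n 0 z (n 0 z (n 0 z (n 0 z z)))))))))))))))) (n 161 (n 0 z (n 0 z (n 0 z (n 2 (n 0
 z z) (n 0 z (n 0 z (n 0 z (n 0 z (n 0 z (n 0 z (n 0 z (n 0 z (n 0 z (n 0 z (n 0 z (n 0 z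
 z)))))))))))))))) (n 161 (n 0 z (n 0 z (n 0 z (n 0 z (n 0 z (n 0 z (n 0 z (n 0 z (n 0 z (n 0 z
 (n 0 z (n 0 z (n 0 z (n 0 z (n 0 z (n 0 z z)))))))))))))))) z))))))))))) (n 0 (n 239 (n 0 z (n
 2 (n 0 z (n 2 (n 0 z (n 0 z (n 0 z (n 0 z (n 0 z (n 0 z z)))))) (n 2 (n 0 z (n 0 z (n 0 z (n 0
 z (n 0 z (n 0 z z)))))) (n 2 (n 0 z (n 0 z (n 0 z (n 0 z (n 0 (n 8868147 z z) (n 0 z z)))))) (n
 2 (n 0 z (n 0 z (n 0 z (n 0 z (n 0 z (n 0 z z)))))) (n 2 (n 0 z (n 0 z (n 0 z (n 0 z (n 0 z (n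
 0 z z)))))) (n 2 (n 0 z (n 0 z (n 0 z (n 0 z (n 0 z (n 0 z z)))))) (n 2 (n 0 z (n 0 z (n 0 z (n
 0 z (n 0 z (n 0 z z)))))) (n 2 (n 0 z (n 0 z (n 0 z (n 0 z (n 0 z (n 0 z z)))))) z))))))))) (n
 0 z (n 0 z (n 0 z (n 0 z (n 0 z (n 0 z (n 0 z (n 0 z (n 0 z z))))))))))) (n 239 (n 0 z (n 0 z
 (n 0 z (n 0 z (n 0 z (n 0 z (n 0 z (n 0 z (n 0 z (n 0 z (n 0 z z))))))))))) (n 237 (n 0 z (n 0
 z (n 2 (n 2 (n 0 z (n 0 z (n 0 z (n 0 z (n 0 z (n 0 z z)))))) (n 1 z (n 2 (n 0 z (n 0 z (n 0 z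
 (n 0 z (n 0 z (n 0 z z)))))) (n 2 (n 0 z (n 0 z (n 0 z (n 0 z (n 0 z (n 0 z z)))))) (n 2 (n 0 z
 (n 0 z (n 0 z (n 0 z (n 0 (n 692 z z) (n 0 z z)))))) (n 2 (n 0 z (n 0 z (n 0 z (n 0 z (n 0 z (n
 0 z z)))))) (n 2 (n 0 z (n 0 z (n 0 z (n 0 z (n 0 z (n 0 z z)))))) z))))))) (n 0 z (n 0 z (n 0
 z (n 0 z (n 0 z (n 0 z z))))))))) (n 185 (n 0 z (n 0 z (n 0 z (n 0 z (n 2 (n 2 (n 0 z (n 0 z (n
 0 z (n 0 z (n 0 (n 8868363 z z) (n 0 z z)))))) (n 2 (n 0 z (n 0 z (n 0 z (n 0 z (n 0 z (n 0 z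
 z)))))) (n 2 (n 0 z (n 0 z (n 0 z (n 0 z (n 0 z (n 0 z z)))))) (n 2 (n 0 z (n 0 z (n 0 z (n 0 z
 (n 0 z (n 0 z z)))))) (n 2 (n 0 z (n 0 z (n 0 z (n 0 z (n 0 z (n 0 z z)))))) (n 2 (n 0 z (n 0 z
 (n 0 z (n 0 z (n 0 z (n 0 z z)))))) z)))))) (n 0 z (n 0 z (n 0 z z)))))))) (n 217 (n 2 (n 0 z
 (n 2 (n 0 z (n 0 z (n 0 z (n 0 z (n 0 (n 8868147 z z) (n 0 z z)))))) (n 2 (n 0 z (n 0 z (n 0 z
 (n 0 z (n 0 z (n 0 z z)))))) (n 2 (n 0 z (n 0 z (n 0 z (n 0 z (n 0 z (n 0 z z)))))) (n 2 (n 0 z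
 (n 0 z (n 0 z (n 0 z (n 0 z (n 0 z z)))))) z))))) (n 0 z (n 0 z (n 0 z (n 0 z z))))) (n 217 (n
 0 z (n 0 z (n 0 z (n 0 z (n 0 z z))))) (n 173 (n 0 z (n 0 z (n 0 z (n 0 z (n 0 z (n 0 z (n 0 z
 (n 0 z (n 0 z (n 0 z (n 2 (n 0 z (n 0 z (n 0 z z))) (n 0 z (n 0 z (n 0 z z)))))))))))))) (n 173
 (n 0 z (n 2 (n 0 z (n 0 z z)) (n 0 z (n 0 z (n 0 z (n 0 z (n 0 z (n 0 z (n 0 z (n 0 z (n 0 z (n
 0 z (n 0 z (n 0 z z)))))))))))))) (n 173 (n 0 z (n 0 z (n 0 z (n 0 z (n 0 z (n 0 z (n 0 z (n 0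
 z (n 0 z (n 0 z (n 0 z (n 0 z (n 0 z (n 0 z z)))))))))))))) (n 173 (n 0 z (n 0 z (n 0 z (n 0 z
 (n 0 z (n 0 z (n 0 z (n 0 z (n 2 z (n 0 z (n 0 z (n 0 z (n 0 z (n 0 z z))))))))))))))
 z)))))))))) (n 0 (n 0 z (n 1047 (n 0 z (n 0 z (n 0 z (n 0 z (n 0 z (n 0 z (n 0 z (n 0 z (n 0 z
 (n 0 z (n 0 z (n 0 z (n 0 z (n 0 z (n 0 z (n 0 z (n 0 z (n 0 z (n 0 z (n 0 z (n 0 z (n 0 z
 z)))))))))))))))))))))) (n 399 (n 0 z (n 0 z (n 0 z (n 0 z (n 0 z (n 0 z (n 0 z (n 0 z (n 0 z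
 (n 0 z (n 0 z z))))))))))) (n 243 (n 0 z (n 0 z (n 0 z (n 0 z (n 0 z (n 0 z (n 0 z (n 0 z (n 0
 z (n 0 z (n 0 z (n 0 z (n 0 z (n 0 z (n 0 z (n 0 z (n 0 z z))))))))))))))))) (n 243 (n 0 z (n 0
 z (n 0 z (n 0 z (n 0 z (n 0 z (n 0 z (n 0 z (n 0 z (n 0 z (n 2 (n 2 (n 0 z (n 0 z (n 0 z (n 0 z
 (n 0 (n 8802611 z z) (n 0 z z)))))) (n 2 (n 0 z (n 0 z (n 0 z (n 0 z (n 0 (n 8868107 z z) (n 0
 z z)))))) (n 2 (n 0 z (n 0 z (n 0 z (n 0 z (n 0 z (n 0 z z)))))) (n 2 (n 0 z (n 0 z (n 0 z (n 0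
 z (n 0 z (n 0 z z)))))) z)))) (n 0 z (n 0 z (n 0 z (n 0 z (n 0 z (n 0 z z))))))))))))))))) (n
 397 (n 0 z (n 0 z (n 0 z (n 0 z (n 0 z (n 0 z (n 0 z (n 0 z (n 0 z (n 0 z (n 0 z (n 0 z (n 0 z
 (n 0 z (n 0 z (n 0 z (n 0 z (n 0 z (n 0 z (n 0 z (n 0 z (n 0 z (n 0 z (n 0 z (n 0 z
 z))))))))))))))))))))))))) (n 397 (n 0 z (n 0 z (n 0 z (n 0 z (n 0 z (n 0 z (n 0 z (n 0 z (n 2
 (n 0 z (n 0 z z)) (n
 0xcea4c8060782186072089d7df8217e17de8217df86082186186185f8a07e286182086089f8a07e085e7df0801 z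
 (n 0 z (n 0 z (n 0 z (n 0 z (n 0 z (n 0 z (n 0 z (n 0 z (n 0 z (n 0 z (n 0 z (n 0 z (n 0 z (n 0
 z (n 0 z z))))))))))))))))))))))))) (n 397 (n 0 z (n 0 z (n 0 z (n 0 z (n 0 z (n 0 z (n 0 z (n
 0 z (n 0 z (n 0 z (n 0 z (n 0 z (n 0 z (n 0 z (n 0 z (n 0 z (n 0 z (n 0 z (n 0 z (n 0 z (n 0 z
 (n 0 z (n 0 z (n 0 z (n 0 z z))))))))))))))))))))))))) (n 397 (n 0 z (n 0 z (n 0 z (n 0 z (n 0
 z (n 0 z (n 0 z (n 0 z (n 0 z (n 0 z (n 0 z (n 0 z (n 0 z (n 0 z (n 0 z (n 0 z (n 0 z (n 0 z (n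
 0 z (n 0 z (n 0 z (n 0 z (n 0 z (n 0 z (n 0 z z))))))))))))))))))))))))) z))))))))) (n 0 (n
 1047 (n 0 z (n 0 z (n 0 z (n 0 z (n 0 z (n 0 z (n 0 z (n 0 z (n 0 z (n 0 z (n 2 (n 1 z (n 1 z
 (n 2 (n 0 z (n 0 (n 2148 z z) (n 0 z (n 0 z (n 0 (n 8722235 z (n 2148 z z)) (n 0 (n 2148 z z)
 z)))))) (n 1 z (n 1 z (n 2 (n 0 (n 8864355 z z) (n 0 z (n 0 z (n 0 z (n 0 (n 1252 z (n 8783659
 z z)) (n 0 (n 1252 z z) z)))))) (n 2 (n 0 (n 8864355 z z) (n 0 z (n 0 z (n 0 z (n 0 (n 1252 z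
 (n 8722235 z z)) (n 0 (n 1252 z z) z)))))) z))))))) (n 0 z (n 0 z (n 0 z z)))))))))))))) (n 315
 (n 0 z (n 2 (n 1 z (n 2 (n 0 (n 8864355 z z) (n 0 z (n 0 (n 2148 z z) (n 0 z (n 0 (n 2148 z (n
 8783659 z z)) (n 0 z z)))))) (n 2 (n 0 (n 8864355 z z) (n 0 (n 8868363 z z) (n 0 z (n 0 z (n 0
 (n 8868363 z (n 8868363 z z)) (n 0 z z)))))) (n 2 (n 0 z (n 0 (n 1252 z z) (n 0 z (n 0 (n 1252
 z z) (n 0 (n 8722235 z (n 1252 z z)) (n 0 z z)))))) (n 2 (n 0 z (n 0 z (n 0 z (n 0 z (n 0 z (n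
 0 z z)))))) (n 2 (n 0 z (n 0 z (n 0 z (n 0 z (n 0 z (n 0 z z)))))) z)))))) (n 0 z (n 0 z (n 0 z
 (n 0 z (n 0 z (n 0 z z)))))))) (n 537 (n 0 z (n 0 z (n 0 z (n 0 z (n 0 z (n 0 z (n 0 z (n 0 z
 (n 0 z (n 0 z (n 0 z (n 0 z (n 0 z (n 2 (n 0 z (n 1 z (n 1 z (n 2 (n 0 z (n 0 z (n 0 z (n 0 z
 (n 0 z (n 0 z z)))))) (n 2 (n 0 z (n 0 z (n 0 z (n 0 z (n 0 z (n 0 z z)))))) z))))) (n 0 z (n 0
 z (n 0 z z))))))))))))))))) (n 537 (n 0 z (n 0 z (n 0 z (n 0 z (n 0 z (n 0 z (n 0 z (n 0 z (n 0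
 z (n 0 z (n 0 z (n 0 z (n 0 z (n 0 z (n 0 z (n 0 z (n 0 z z))))))))))))))))) (n 313 (n 0 z (n 0
 z (n 2 (n 0 z (n 0 z (n 0 z z))) (n 0 z (n 0 z (n 0 z z)))))) (n 313 (n 0 z (n 0 z (n 0 z (n 0
 z (n 0 z (n 0 z z)))))) (n 313 (n 0 z (n 0 z (n 0 z (n 0 z (n 0 z (n 0 z z)))))) (n 313 (n 0 z
 (n 0 z (n 0 z (n 0 z (n 0 z (n 0 z z)))))) z)))))))) (n 0 (n 1093 (n 0 z (n 0 z (n 0 z (n 0 z
 (n 0 z (n 0 z (n 0 z (n 0 z (n 0 z z))))))))) (n 3 (n 0 z (n 0 z (n 0 z (n 0 z (n 0 z (n 0 z (n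
 0 z (n 0 z z)))))))) (n 3 (n 0 z (n 0 z (n 0 z (n 2 (n 1 z (n 1 z (n 2 (n 0 z (n 0 z (n 0 z (n
 0 z (n 0 z (n 0 z z)))))) (n 2 (n 0 z (n 0 z (n 0 z (n 0 z (n 0 z (n 0 z z)))))) z)))) (n 0 z
 (n 0 z (n 0 z (n 0 z z)))))))) (n 1 (n 0 z (n 0 z (n 0 z (n 0 z (n 0 z (n 0 z (n 0 z (n 0 z (n
 0 z (n 0 z (n 0 z (n 0 z (n 0 z (n 0 z (n 0 z (n 0 z (n 0 z (n 0 z (n 0 z (n 0 z (n 0 z (n 0 z
 (n 0 z (n 0 z (n 0 z (n 0 z (n 0 z (n 0 z (n 0 z z))))))))))))))))))))))))))))) (n 1 (n 0 z (n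
 0 z (n 0 z (n 0 z (n 0 z (n 0 z (n 0 z (n 0 z (n 0 z (n 0 z (n 2 (n 0 z (n 0 z z)) (n 7673403 z
 (n 0 z (n 0 z (n 0 z (n 0 z (n 0 z (n 0 z (n 0 z (n 0 z (n 0 z (n 0 z (n 0 z (n 0 z (n 0 z (n 0
 z (n 0 z (n 0 z (n 0 z z))))))))))))))))))))))))))))) (n 1 (n 0 z (n 0 z (n 0 z (n 0 z (n 0 z
 (n 0 z (n 0 z (n 0 z (n 0 z (n 0 z (n 0 z (n 0 z (n 0 z (n 0 z (n 0 z (n 0 z (n 0 z (n 0 z (n 0
 z (n 0 z (n 0 z (n 0 z (n 0 z (n 0 z (n 0 z (n 0 z (n 0 z (n 0 z (n 0 z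
 z))))))))))))))))))))))))))))) (n 1 (n 0 z (n 0 z (n 0 z (n 0 z (n 0 z (n 0 z (n 0 z (n 0 z (n
 0 z (n 0 z (n 0 z (n 0 z (n 0 z (n 0 z (n 0 z (n 0 z (n 0 z (n 0 z (n 0 z (n 0 z (n 0 z (n 0 z
 (n 0 z (n 0 z (n 0 z (n 0 z (n 0 z (n 0 z (n 0 z z))))))))))))))))))))))))))))) z))))))) (n 0
 (n 15 (n 0 z (n 0 z (n 0 z (n 0 z (n 0 z (n 0 z (n 0 z z))))))) (n 15 (n 0 z (n 0 z (n 0 z (n 0
 z (n 2 (n 2 (n 0 z (n 0 z (n 0 z (n 0 z (n 0 (n 8802827 z z) (n 0 z z)))))) (n 2 (n 0 z (n 0 z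
 (n 0 z (n 0 z (n 0 (n 8868107 z z) (n 0 z z)))))) (n 2 (n 0 z (n 0 z (n 0 z (n 0 z (n 0 z (n 0
 z z)))))) (n 2 (n 0 z (n 0 z (n 0 z (n 0 z (n 0 z (n 0 z z)))))) z)))) (n 0 z (n 0 z z)))))))
 (n 889 (n 0 z (n 0 z (n 0 z (n 0 z (n 0 z (n 0 z (n 0 z (n 0 z (n 0 z (n 0 z (n 0 z (n 0 z (n 0
 z (n 0 z (n 0 z (n 0 z (n 0 z (n 0 z (n 0 z (n 0 z (n 0 z (n 0 z (n 0 z (n 0 z (n 0 z (n 0 z (n
 0 z (n 0 z (n 0 z (n 0 z (n 0 z (n 0 z (n 0 z (n 0 z (n 0 z (n 0 z (n 0 z (n 0 z (n 0 z (n 0 z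
 (n 0 z (n 0 z (n 0 z (n 0 z (n 0 z (n 0 z z)))))))))))))))))))))))))))))))))))))))))))))) (n
 889 (n 2 (n 0 z (n 0 z z)) (n 7673403 z (n 0 z (n 0 z (n 0 z (n 0 z (n 0 z (n 0 z (n 0 z (n 0 z
 (n 0 z (n 0 z (n 0 z (n 0 z (n 0 z (n 0 z (n 0 z (n 0 z (n 0 z (n 0 z (n 0 z (n 0 z (n 0 z (n 0
 z (n 0 z (n 0 z (n 0 z (n 0 z (n 0 z (n 0 z (n 0 z (n 0 z (n 0 z (n 0 z (n 0 z (n 0 z (n 0 z (n
 0 z (n 0 z (n 0 z (n 0 z (n 0 z (n 0 z (n 0 z (n 0 z (n 0 z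
 z)))))))))))))))))))))))))))))))))))))))))))))) (n 889 (n 0 z (n 0 z (n 0 z (n 0 z (n 0 z (n 2
 (n 0 z z) (n 0 z (n 0 z (n 0 z (n 0 z (n 0 z (n 0 z (n 0 z (n 0 z (n 0 z (n 0 z (n 0 z (n 0 z
 (n 0 z (n 0 z (n 0 z (n 0 z (n 0 z (n 0 z (n 0 z (n 0 z (n 0 z (n 0 z (n 0 z (n 0 z (n 0 z (n 0
 z (n 0 z (n 0 z (n 0 z (n 0 z (n 0 z (n 0 z (n 0 z (n 0 z (n 0 z (n 0 z (n 0 z (n 0 z (n 0 z (n
 0 z z)))))))))))))))))))))))))))))))))))))))))))))) (n 889 (n 0 z (n 0 z (n 0 z (n 0 z (n 0 z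
 (n 0 z (n 0 z (n 0 z (n 0 z (n 0 z (n 0 z (n 0 z (n 0 z (n 0 z (n 0 z (n 0 z (n 0 z (n 0 z (n 0
 z (n 0 z (n 0 z (n 0 z (n 0 z (n 0 z (n 0 z (n 0 z (n 0 z (n 0 z (n 0 z (n 0 z (n 0 z (n 0 z (n
 0 z (n 0 z (n 0 z (n 0 z (n 0 z (n 0 z (n 0 z (n 0 z (n 0 z (n 0 z (n 0 z (n 0 z (n 0 z (n 0 z
 z)))))))))))))))))))))))))))))))))))))))))))))) z)))))) (n 0 (n 0 z (n 25 (n 0 z (n 0 z (n 0 z
 (n 0 z (n 0 z (n 0 z (n 0 z (n 0 z (n 0 z (n 0 z (n 0 z (n 0 z (n 0 z (n 0 z (n 0 z (n 0 z (n 0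
 z (n 0 z (n 0 z (n 0 z (n 0 z (n 0 z (n 0 z (n 0 z (n 0 z (n 0 z (n 0 z (n 0 z (n 0 z (n 0 z (n
 0 z (n 0 z z)))))))))))))))))))))))))))))))) (n 25 (n 0 z (n 0 z (n 0 z (n 0 z (n 2 (n 0 z (n 0
 z z)) (n 7673403 z (n 0 z (n 0 z (n 0 z (n 0 z (n 0 z (n 0 z (n 0 z (n 0 z (n 0 z (n 0 z (n 0 z
 (n 0 z (n 0 z (n 0 z (n 0 z (n 0 z (n 0 z (n 0 z (n 0 z (n 0 z (n 0 z (n 0 z (n 0 z (n 0 z (n 0
 z (n 0 z z)))))))))))))))))))))))))))))))) (n 25 (n 0 z (n 0 z (n 0 z (n 0 z (n 0 z (n 0 z (n 0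
 z (n 0 z (n 0 z (n 0 z (n 0 z (n 0 z (n 0 z (n 0 z (n 0 z (n 0 z (n 0 z (n 0 z (n 0 z (n 0 z (n
 0 z (n 0 z (n 0 z (n 0 z (n 0 z (n 0 z (n 0 z (n 0 z (n 0 z (n 0 z (n 0 z (n 0 z
 z)))))))))))))))))))))))))))))))) (n 25 (n 0 z (n 0 z (n 0 z (n 0 z (n 0 z (n 0 z (n 0 z (n 0 z
 (n 0 z (n 0 z (n 0 z (n 0 z (n 0 z (n 0 z (n 0 z (n 0 z (n 0 z (n 0 z (n 0 z (n 0 z (n 0 z (n 0
 z (n 0 z (n 0 z (n 0 z (n 0 z (n 0 z (n 0 z (n 0 z (n 0 z (n 0 z (n 0 z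
 z)))))))))))))))))))))))))))))))) z))))) (n 0 (n 1013 (n 2 (n 0 z (n 0 z (n 0 z z))) (n
 0xec86ea420381f75f89e59f8278618e191e79e8608687657606a689d8db9e18a47a581d8a28a165679c69d0801 z
 (n 0 z (n 0 z (n 0 z (n 0 z (n 0 z (n 0 z (n 0 z (n 0 z (n 0 z (n 0 z (n 0 z (n 0 z (n 0 z (n 0
 z (n 0 z (n 0 z (n 0 z (n 0 z (n 0 z (n 0 z (n 0 z (n 0 z (n 0 z z))))))))))))))))))))))))) (n
 1013 (n 0 z (n 0 z (n 0 z (n 0 z (n 0 z (n 0 z (n 0 z (n 0 z (n 0 z (n 0 z (n 0 z (n 0 z (n 0 z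
 (n 0 z (n 0 z (n 0 z (n 0 z (n 0 z (n 0 z (n 0 z (n 0 z (n 0 z (n 0 z (n 0 z (n 0 z
 z))))))))))))))))))))))))) (n 1013 (n 0 z (n 0 z (n 0 z (n 0 z (n 0 z (n 0 z (n 0 z (n 0 z (n 0
 z (n 0 z (n 0 z (n 0 z (n 0 z (n 0 z (n 0 z (n 0 z (n 0 z (n 0 z (n 0 z (n 2 (n 0 z z) (n 0 z
 (n 0 z (n 0 z (n 0 z (n 0 z z))))))))))))))))))))))))) (n 1013 (n 0 z (n 0 z (n 0 z (n 0 z (n 0
 z (n 0 z (n 0 z (n 2 z (n 0 z (n 0 z (n 0 z (n 0 z (n 0 z (n 0 z (n 0 z (n 0 z (n 0 z (n 0 z (n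
 0 z (n 0 z (n 0 z (n 0 z (n 0 z (n 0 z (n 0 z z))))))))))))))))))))))))) z)))) (n 0 (n 0 z (n 0
 z (n 0 z z))) (n 0 (n 0 z (n 0 z z)) (n 0 (n 0 z z) (n 0 z z)))))))))))) (n 0 (n 1 (n 2164299 z
 (n 2164299 z (n 2164299 z (n 2164299 z (n 2164299 z (n 2164299 z z)))))) (n 1 (n 2 z (n 5756 z
 (n 5517667 z (n 5510715 z (n 5756 z (n 5756 z z)))))) (n 0 z (n 1 (n 5756 z (n 5756 z (n 5756 z
 (n 5756 z (n 5756 z (n 5756 z z)))))) z)))) (n 0 (n 0x21a64d30264c30d21924a900 (n 0 (n 0 (n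
 7754035 z (n 7754035 z (n 7754035 z (n 7754035 z (n 7754035 z (n 7754035 z z)))))) z) (n 0 (n
 25 (n 1 (n 2 z (n 5756 z (n 5756 z (n 5756 z (n 5756 z (n 5756 z z)))))) (n 1 (n 3282763 z (n
 3282763 z (n 3282763 z (n 3282763 z (n 3282763 z (n 3282763 z z)))))) (n 1 (n 5756 z (n 5756 z
 (n 5756 z (n 6559499 z (n 5756 z (n 5756 z z)))))) (n 1 (n 5756 z (n 5756 z (n 5756 z (n 5756 z
 (n 5756 z (n 5756 z z)))))) (n 1 (n 5756 z (n 5756 z (n 5756 z (n 5756 z (n 5756 z (n 5756 z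
 z)))))) (n 1 (n 7475283 z (n 7475283 z (n 7475283 z (n 7475283 z (n 7475283 z (n 7475283 z
 z)))))) (n 1 (n 7475283 z (n 7475283 z (n 7475283 z (n 7475283 z (n 7475283 z (n 7475283 z
 z)))))) z))))))) (n 199 (n 1 (n 6636403 z (n 4188 z (n 7754035 z (n 1628 z (n 1628 z (n 1628 z
 z)))))) (n 1 (n 7680355 z (n 7680355 z (n 7754035 z (n 7680355 z (n 7680355 z (n 7680355 z
 z)))))) (n 1 (n 7680355 z (n 7680355 z (n 7754035 z (n 7680355 z (n 7680355 z (n 7680355 z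
 z)))))) (n 1 (n 7673403 z (n 1628 z (n 7754035 z (n 7742779 z (n 1628 z (n 1628 z z)))))) (n 1
 (n 0x6ea4ea400781f8637e091982281d8dd82189f6a67e185f8609206e09227628668a16e276479d7df8607a00801
 z (n 7673403 z (n 7754035 z (n 6567691 z (n 1628 z (n 6489899 z z)))))) (n 1 (n 6566515 z (n
 1628 z (n 7754035 z (n 7742779 z (n 10 z (n 1628 z z)))))) (n 1 (n 1628 z (n 7673403 z (n
 7754035 z (n 6498059 z (n 1628 z (n 5748 z z)))))) (n 1 (n 1628 z (n 7673403 z (n 7754035 z (n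
 6498059 z (n 1628 z (n 5748 z z)))))) (n 1 (n 7475283 z (n 7475283 z (n 7754035 z (n 7475283 z
 (n 7475283 z (n 7475283 z z)))))) (n 1 (n 7475283 z (n 7475283 z (n 7754035 z (n 7475283 z (n
 7475283 z (n 7475283 z z)))))) (n 1 (n 7475283 z (n 7475283 z (n 7754035 z (n 7475283 z (n
 7475283 z (n 7475283 z z)))))) z))))))))))) (n 129 (n 0 z (n 0 z (n 0 z (n 1 (n 7754035 z (n
 7754035 z (n 7754035 z (n 7754035 z (n 7754035 z (n 7754035 z z)))))) (n 0 z (n 0 z (n 1 (n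
 7475283 z (n 7475283 z (n 7475283 z (n 7475283 z (n 7475283 z (n 7475283 z z)))))) (n 0 z
 z)))))))) (n 3 (n 1 (n 7754251 z (n 7754251 z (n 7680355 z (n 7754251 z (n 7754251 z (n 7754251
 z z)))))) (n 0 z (n 1 (n 7746843 z (n 7746843 z (n 7680355 z (n 7746843 z (n 7746843 z (n
 7746843 z z)))))) (n 0 z (n 0 z (n 0 z (n 0 z z))))))) (n 1 (n 1 (n 2164555 z (n 2164555 z (n
 7680355 z (n 7673403 z (n 2164555 z (n 2164555 z z)))))) (n 1 (n 7754035 z (n 7754035 z (n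
 7754035 z (n 7754035 z (n 7754035 z (n 7754035 z z)))))) (n 0 z (n 1 (n 18 z (n 7673403 z (n
 7680355 z (n 4300 z (n 4300 z (n 4300 z z)))))) z)))) (n 0 (n 1 (n 7754251 z (n 7754251 z (n
 7680355 z (n 6426739 z (n 7754251 z (n 7754251 z z)))))) (n 1 (n 7754035 z (n 7754035 z (n
 7754035 z (n 7754035 z (n 7754035 z (n 7754035 z z)))))) (n 1 (n
 0x4ea286040382185f82086281e82082281f7e079f81f8218207e085f85f7e182082082181f8a07e08208200801 z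
 (n 5708 z (n 7680355 z (n 5708 z (n 7673403 z (n 5708 z z)))))) (n 0 z (n 0 z (n 0 z (n 0 z (n
 0 z (n 1 (n 7754035 z (n 7754035 z (n 7754035 z (n 7754035 z (n 7754035 z (n 7754035 z z))))))
 (n 0 z (n 1 (n 26 z (n 7673403 z (n 7680355 z (n 5708 z (n 5708 z (n 5708 z z)))))) (n 0 z (n 1
 (n 5708 z (n 7673403 z (n 7680355 z (n 5676 z (n 5708 z (n 5708 z z)))))) (n 1 (n 5708 z (n
 5708 z (n 7680355 z (n 5708 z (n 5708 z (n 7673403 z z)))))) z)))))))))))))) (n 1 (n 1 (n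
 2164555 z (n 2164555 z (n 2164555 z (n 2164555 z (n 2164555 z (n 2164555 z z)))))) (n 1 (n
 7754035 z (n 7754035 z (n 7754035 z (n 7754035 z (n 7754035 z (n 7754035 z z)))))) (n 0 z (n 1
 (n 5756 z (n 5756 z (n 5756 z (n 5756 z (n 5756 z (n 5756 z z)))))) z)))) z))))))) (n 0 (n 0 (n
 0 z (n 0 z (n 0 z (n 0 z z)))) (n 0 (n 0 z (n 0 z (n 0 z z))) (n 0 (n 0 z (n 0 z z)) (n 0 (n 0
 z z) z)))) (n 0 (n 203 (n 0 (n 0 z (n 0 z (n 0 z (n 0 z z)))) (n 0 (n 0 z (n 0 (n 7751691 z (n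
 0x150eb0a6403806b7e88817c846f768c757799897389698c677d7984a26e8b8c7d7f7c7e75877e848a8b729086788a878887848b777b81810809
 z z)) (n 0 z (n 0 z z)))) (n 0 (n 0 z (n 0 (n
 0x361d0190e81b8748208208208608208208207e08208608207e18218208a08208207e081f81f81f86082086082000c1
 z z) (n 0 z (n 0 z z)))) (n 0 (n 0 z (n 0 z (n 0 z (n 0 z z)))) (n 0 (n 0 z (n 0 z (n 0 z (n 0
 z z)))) (n 0 (n 0 z (n 0 (n 8848939 z (n 8848939 z z)) (n 0 (n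
 0x361d8190ec1b8768208208208608208208207e08208608207e18218208a08208207e081f81f81f86082086082000c1
 z z) (n 0 z z)))) (n 0 (n 0 z (n 0 z (n 0 z (n 0 z z)))) (n 0 (n 0 (n 8728931 z z) (n 0 z (n 0
 z (n 0 z z)))) (n 0 (n 0 (n
 0x361d0190e81b8748208208208608208208207e08208608207e18218208a08208207e081f81f81f86082086082000c1
 z z) (n 0 (n 8848939 z (n 8848939 z z)) (n 0 (n
 0x361d8190ec1b8768208208208608208208207e08208608207e18218208a08208207e081f81f81f86082086082000c1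
 z z) (n 0 z z)))) (n 0 (n 0 z (n 0 z (n 0 z (n 0 z z)))) (n 0 (n 0 z (n 0 z (n 0 z (n 0 z z))))
 (n 0 (n 0 z (n 0 z (n 0 z (n 0 z z)))) z)))))))))))) (n 551 (n 0 (n 0 z (n 0 z (n 0 z (n 0 z
 z)))) (n 0 (n 0 z (n 0 z (n 0 z (n 0 z z)))) (n 0 (n 0 z (n 0 z (n 0 z (n 0 (n 8786035 z (n
 0x110a90a8203806b7172ab7184746d8d7e6e837f916786847f6286888487767e77857d7d97a19b6e8d7d688d9c768274958894947c617a770809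
 z z)) z)))) (n 0 (n 0 z (n 0 z (n 0 z (n 0 z z)))) (n 0 (n 0 z (n 0 (n
 0x361d0190e81b8748208208208608208208207e08208608207e18218208a08208207e081f81f81f86082086082000c1
 z z) (n 0 z (n 0 z z)))) (n 0 (n 0 z (n 0 z (n 0 z (n 0 z z)))) (n 0 (n 0 z (n 0 z (n 0 z (n 0
 z z)))) (n 0 (n 0 z (n 0 z (n 0 z (n 0 z z)))) (n 0 (n 0 z (n 0 z (n 0 z (n 0 z z)))) (n 0 (n 0
 (n 8803443 z (n
 0xd6c3a0ec874807d876894777c9876826b81837d8b6852a16c7489828b678184867f7b81967c9776754e627fa461866693799aa8876a9b740089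
 z z)) (n 0 z (n 0 (n 8786035 z (n
 0x150a70a62038198a76a06a271b86e51181ead69267ae46b61f61daa1713ada598965a9ac5d8e45e155b95f0801 z
 z)) (n 0 (n
 0x1961c4990e29387181b8649a18db6df95f595957a1aadf76936f71d81c89cb64a5980e91aa5e99c9a1b3760da1500c1
 z (n
 0xd2c3b0ec876807c876994777c9975836c80837d8c6952a16d7589828b688184867e7b80957c9776744d627fa4628566937a9aa9876a9b740089
 z z)) z)))) (n 0 (n 0 z (n 0 z (n 0 z (n 0 z z)))) (n 0 (n 0 z (n 0 z (n 0 z (n 0 z z))))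
 z)))))))))))) (n 547 (n 0 (n 0 z (n 0 z (n 0 z (n 0 z z)))) (n 0 (n 0 z (n 0 z (n 0 z (n 0 (n
 8857099 z z) z)))) (n 0 (n 0 z (n 0 (n 8721979 z z) (n 0 z (n 0 z z)))) (n 0 (n 0 z (n 0 (n
 0x1961d0990e89387481b8649a18db6df95f595957a1aadf76936f71d81c89cb64a5980e91aa5e99c9a1b3760da1500c1
 z z) (n 0 z (n 0 z z)))) (n 0 (n 0 z (n 0 (n
 0x4e43a0b3874807d7e7d7f7f817d7b84798189a26e8c788c76767a798b7c7b917b798f7b738e7a85879a6e8c828885808c8b758979827d840089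
 z (n
 0x30eb08600381f86182086082082081f8208207e082082086082086082082082082082082082082082081f0801 z
 z)) (n 0 z (n 0 z z)))) (n 0 (n 0 z (n 0 z (n 0 z (n 0 z z)))) (n 0 (n 0 z (n 0 z (n 0 z (n 0 z
 z)))) (n 0 (n 0 z (n 0 z (n 0 z (n 0 z z)))) (n 0 (n 0 z (n 0 z (n 0 z (n 0 z z)))) (n 0 (n 0 z
 (n 0 (n
 0x4e4318b3863807d7e7d7f7f817d7b84798189a26e8c788c76767a798b7c7b917b798f7b738e7a85879a6e8c828885808c8b758979827d840089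
 z (n 7749763 z z)) (n 0 z (n 0 (n 8857099 z z) z)))) (n 0 (n 0 (n 8728931 z (n 8728931 z z)) (n
 0 z (n 0 (n 8728931 z (n 8728931 z z)) (n 0 z z)))) (n 0 (n 0 z (n 0 (n
 0x196180990c09386081b8649a18db6df95f595957a1aadf76936f71d81c89cb64a5980e91aa5e99c9a1b3760da1500c1
 z (n
 0xa43a156180a90c0638608217e386291d81e86365895bb199296a93ab7dc91d85aa1c95d71d8db89d8dc8a37eb75989c0101
 z z)) (n 0 (n
 0x361d8190ec1b8768208208208608208208207e08208608207e18218208a08208207e081f81f81f86082086082000c1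
 z z) (n 0 z z)))) (n 0 (n 0 (n 8802611 z (n 8802611 z z)) (n 0 z (n 0 z (n 0 z z)))) (n 0 (n 0
 z (n 0 z (n 0 z (n 0 z z)))) (n 0 (n 0 z (n 0 z (n 0 (n 8786035 z (n 8857099 z z)) (n 0 (n
 8857099 z (n 8857099 z z)) z)))) (n 0 (n 0 z (n 0 z (n 0 (n 8791355 z (n 8791355 z z)) (n 0 (n
 8791355 z (n 8791355 z z)) z)))) (n 0 (n 0 z (n 0 (n 4393083 z (n 4393083 z z)) (n 0 (n
 0x361d8190ec1b8768208208208608208208207e08208608207e18218208a08208207e081f81f81f86082086082000c1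
 z z) (n 0 z z)))) (n 0 (n 0 z (n 0 z (n 0 (n 8786035 z (n
 0x1961c0990e09387081b8649a18db6df95f595957a1aadf76936f71d81c89cb64a5980e91aa5e99c9a1b3760da1500c1
 z z)) (n 0 z z)))) (n 0 (n 0 z (n 0 z (n 0 z (n 0 z z)))) (n 0 (n 0 z (n 0 z (n 0 z (n 0 z
 z)))) (n 0 (n 0 z (n 0 z (n 0 z (n 0 z z)))) (n 0 (n 0 z (n 0 z (n 0 z (n 0 z z))))
 z)))))))))))))))))))))) (n 449 (n 0 (n 0 z (n 0 z (n 0 z (n 0 z z)))) (n 0 (n 0 z (n 0 z (n 0 z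
 (n 0 z z)))) (n 0 (n 0 z (n 0 z (n 0 z (n 0 z z)))) (n 0 (n 0 z (n 0 z (n 0 z (n 0 z z)))) (n 0
 (n 0 z (n 0 z (n 0 z (n 0 z z)))) (n 0 (n 0 z (n 0 z (n 0 z (n 0 z z)))) (n 0 (n 0 z (n 0 z (n
 0 z (n 0 z z)))) (n 0 (n 0 z (n 0 z (n 0 z (n 0 z z)))) (n 0 (n 0 z (n 0 z (n 0 z (n 0 z z))))
 (n 0 (n 0 z (n 0 z (n 0 z (n 0 z z)))) (n 0 (n 0 z (n 0 z (n 0 z (n 0 z z)))) (n 0 (n 0 z (n 0
 z (n 0 z (n 0 z z)))) (n 0 (n 0 z (n 0 z (n 0 z (n 0 z z)))) (n 0 (n 0 z (n 0 (n 8798835 z (n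
 6637691 z z)) (n 0 z (n 0 (n
 0x161d8090ec0b8768208208208208208208208208208208207e082082082082082082082082082082085f82082000c1
 z z) z)))) (n 0 (n 0 z (n 0 z (n 0 z (n 0 z z)))) (n 0 (n 0 z (n 0 z (n 0 z (n 0 z z))))
 z)))))))))))))))) (n 445 (n 0 (n 0 (n 8861275 z z) (n 0 (n
 0x196180990c09386081b8649a18db6df95f595957a1aadf76936f71d81c89cb64a5980e91aa5e99c9a1b3760da1500c1
 z (n 0x2d87482371aae18227df8a179b95681d79f82576381e92171daa09dd79a6a291a79a82276189c7a00041 z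
 z)) (n 0 (n
 0x361d8190ec1b8768208208208608208208207e08208608207e18218208a08208207e081f81f81f86082086082000c1
 z z) (n 0 z z)))) (n 0 (n 0 z (n 0 z (n 0 z (n 0 z z)))) (n 0 (n 0 z (n 0 z (n 0 z (n 0 z z))))
 (n 0 (n 0 z (n 0 z (n 0 z (n 0 z z)))) (n 0 (n 0 (n
 0x1961d8990ec9387681b8649a18db6df95f595957a1aadf76936f71d81c89cb64a5980e91aa5e99c9a1b3760da1500c1
 z z) (n 0 (n 7751691 z (n
 0x70a50a400781f8637e091982281d8dd82189f6a67e185f8609206e09227628668a16e276479d7df8607a00801 z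
 z)) (n 0 z (n 0 (n 8857099 z z) z)))) (n 0 (n 0 z (n 0 z (n 0 z (n 0 z z)))) (n 0 (n 0 z (n 0 z
 (n 0 z (n 0 z z)))) (n 0 (n 0 z (n 0 z (n 0 z (n 0 (n
 0x1961d8990ec9387681b8649a18db6df95f595957a1aadf76936f71d81c89cb64a5980e91aa5e99c9a1b3760da1500c1
 z z) z)))) (n 0 (n 0 z (n 0 (n 8523859 z (n 8523859 z z)) (n 0 z (n 0 z z)))) (n 0 (n 0 z (n 0
 (n 8523859 z z) (n 0 z (n 0 z z)))) (n 0 (n 0 z (n 0 z (n 0 z (n 0 z z)))) z))))))))))) (n 570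
 (n 0 (n 0 z (n 0 z (n 0 z (n 0 z z)))) (n 0 (n 0 z (n 0 z (n 0 z (n 0 z z)))) (n 0 (n 0 (n
 8728931 z (n 8728931 z z)) (n 0 z (n 0 (n 8728931 z (n 8728931 z z)) (n 0 z z)))) (n 0 (n 0 z
 (n 0 z (n 0 z (n 0 z z)))) (n 0 (n 0 z (n 0 (n 4261931 z (n 4261931 z z)) (n 0 (n 8857099 z z)
 (n 0 z z)))) (n 0 (n 0 z (n 0 z (n 0 z (n 0 z z)))) (n 0 (n 0 z (n 0 z (n 0 z (n 0 z z)))) (n 0
 (n 0 z (n 0 z (n 0 z (n 0 z z)))) (n 0 (n 0 z (n 0 z (n 0 z (n 0 (n 8523859 z z) z))))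
 z))))))))) (n 537 (n 0 (n 0 z (n 0 z (n 0 z (n 0 z z)))) (n 0 (n 0 z (n 0 (n 8798835 z (n
 3283019 z z)) (n 0 z (n 0 z z)))) (n 0 (n 0 z (n 0 (n 8798835 z (n 7739403 z z)) (n 0 z (n 0 (n
 0x361c4190e21b8718208208208608208208207e08208608207e18218208a08208207e081f81f81f86082086082000c1
 z z) z)))) (n 0 (n 0 z (n 0 (n
 0x361d8190ec1b8768208208208608208208207e08208608207e18218208a08208207e081f81f81f86082086082000c1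
 z z) (n 0 z (n 0 z z)))) (n 0 (n 0 z (n 0 (n 8798835 z (n 8848939 z z)) (n 0 z (n 0 (n
 0x361d8190ec1b8768208208208608208208207e08208608207e18218208a08208207e081f81f81f86082086082000c1
 z z) z)))) (n 0 (n 0 z (n 0 z (n 0 z (n 0 z z)))) (n 0 (n 0 z (n 0 z (n 0 z (n 0 z z))))
 z))))))) (n 489 (n 0 (n 0 z (n 0 (n 8798835 z (n
 0x196180990c09386081b8649a18db6df95f595957a1aadf76936f71d81c89cb64a5980e91aa5e99c9a1b3760da1500c1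
 z z)) (n 0 z (n 0 (n
 0x361d8190ec1b8768208208208608208208207e08208608207e18218208a08208207e081f81f81f86082086082000c1
 z z) z)))) (n 0 (n 0 z (n 0 z (n 0 z (n 0 (n 8721979 z z) z)))) (n 0 (n 0 z (n 0 (n 8802611 z
 (n 8802611 z z)) (n 0 z (n 0 z z)))) (n 0 (n 0 z (n 0 z (n 0 z (n 0 (n 8786035 z (n
 0x10b87082776c423a52adecaa61b4e37a3bd16e34aa5ee861b1b7ab66c7a1ae25685e57a79198e261b0041 z z))
 z)))) (n 0 (n 0 z (n 0 (n 8721979 z z) (n 0 z (n 0 z z)))) (n 0 (n 0 z (n 0 (n 3278923 z z) (n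
 0 z (n 0 z z)))) (n 0 (n 0 z (n 0 z (n 0 z (n 0 z z)))) (n 0 (n 0 z (n 0 z (n 0 z (n 0 z z))))
 (n 0 (n 0 z (n 0 z (n 0 z (n 0 z z)))) (n 0 (n 0 z (n 0 z (n 0 z (n 0 (n 8857099 z z) z)))) (n
 0 (n 0 z (n 0 (n
 0x361d8190ec1b8768208208208608208208207e08208608207e18218208a08208207e081f81f81f86082086082000c1
 z z) (n 0 z (n 0 z z)))) (n 0 (n 0 z (n 0 (n 8848939 z (n 8848939 z z)) (n 0 (n
 0x361d8190ec1b8768208208208608208208207e08208608207e18218208a08208207e081f81f81f86082086082000c1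
 z z) (n 0 z z)))) (n 0 (n 0 z (n 0 (n 8798835 z (n
 0x106c1812c830807b896399747b9f73846681847b906246a968718b828d628185877e7a819b7b9d7472405b7fac5a86619777a1b38965a1710089
 z z)) (n 0 z (n 0 (n
 0x361c0190e01b8708208208208608208208207e08208608207e18218208a08208207e081f81f81f86082086082000c1
 z z) z)))) (n 0 (n 0 z (n 0 z (n 0 (n 8728931 z (n 8728931 z z)) (n 0 z z)))) (n 0 (n 0 z (n 0
 z (n 0 z (n 0 z z)))) (n 0 (n 0 (n 8802611 z z) (n 0 z (n 0 z (n 0 z z)))) (n 0 (n 0 z (n 0 z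
 (n 0 z (n 0 z z)))) z))))))))))))))))) (n 15 (n 0 (n 0 z (n 0 z (n 0 z (n 0 z z)))) (n 0 (n 0 z
 (n 0 (n 3213387 z (n 3213387 z z)) (n 0 z (n 0 z z)))) (n 0 (n 0 z (n 0 z (n 0 z (n 0 z z))))
 (n 0 (n 0 z (n 0 (n
 0x361d8190ec1b8768208208208608208208207e08208608207e18218208a08208207e081f81f81f86082086082000c1
 z z) (n 0 z (n 0 z z)))) (n 0 (n 0 z (n 0 (n
 0x30eb0a600381f86182086082082081f82082082081f8208208208208208208608208208208218208208600801 z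
 (n 0x30eb0a600381f86182086082082081f8208207e081f8208208208208208208208208208207e18208208200801
 z z)) (n 0 z (n 0 z z)))) (n 0 (n 0 z (n 0 z (n 0 z (n 0 z z)))) (n 0 (n 0 z (n 0 z (n 0 z (n 0
 z z)))) (n 0 (n 0 z (n 0 z (n 0 z (n 0 z z)))) z)))))))) (n 13 (n 0 (n 0 z (n 0 (n 8798835 z (n
 2164811 z z)) (n 0 z (n 0 z z)))) (n 0 (n 0 z (n 0 z (n 0 z (n 0 z z)))) (n 0 (n 0 z (n 0 z (n
 0 z (n 0 z z)))) (n 0 (n 0 z (n 0 (n 8848939 z (n 8848939 z z)) (n 0 (n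
 0x561d8190ec1b8768208208208608208208208208208608207e08218608608208207e081f85f7df8218a086082000c1
 z z) (n 0 z z)))) (n 0 (n 0 z (n 0 z (n 0 z (n 0 z z)))) (n 0 (n 0 z (n 0 z (n 0 z (n 0 (n
 8857099 z z) z)))) (n 0 (n 0 z (n 0 z (n 0 z (n 0 z z)))) z))))))) (n 713 (n 0 (n 0 z (n 0 z (n
 0 z (n 0 z z)))) (n 0 (n 0 z (n 0 z (n 0 z (n 0 z z)))) (n 0 (n 0 z (n 0 z (n 0 z (n 0 (n
 8786035 z (n
 0x4c870a24078208617a08208208a17e17e082181f81f86082186085f8207e185f7e18208208218608208210801 z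
 z)) z)))) (n 0 (n 0 z (n 0 z (n 0 z (n 0 z z)))) (n 0 (n 0 z (n 0 z (n 0 z (n 0 z z)))) (n 0 (n
 0 z (n 0 z (n 0 z (n 0 z z)))) (n 0 (n 0 z (n 0 (n 8848939 z z) (n 0 z (n 0 z z)))) (n 0 (n 0 z
 (n 0 z (n 0 z (n 0 (n 8861211 z z) z)))) (n 0 (n 0 z (n 0 (n 8721979 z z) (n 0 z (n 0 z z))))
 (n 0 (n 0 z (n 0 z (n 0 z (n 0 (n
 0x1961cc990e69387381b8649a18db6df95f595957a1aadf76936f71d81c89cb64a5980e91aa5e99c9a1b3760da1500c1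
 z z) z)))) (n 0 (n 0 z (n 0 z (n 0 z (n 0 z z)))) (n 0 (n 0 (n 8802611 z (n 8802611 z z)) (n 0
 z (n 0 z (n 0 z z)))) (n 0 (n 0 z (n 0 z (n 0 (n 8786035 z (n
 0x1c21c20900c0a10e10840e190650642038077797c947c827c7a7b9f816a6c8873a26f936b8c79629d77707e857f7c949288758d807b7e7d867980838982878a73777d1809
 z z)) (n 0 (n
 0x14ac3b174876807a8a5ba0727aa66f846081857b935b37b4626d8d8391598186897d7981a279a4716e315280b85089599e76aabf8b5dab6e0089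
 z (n 0x2d87682371aae18227df8a179b95681d79f82576381e92171daa09dd79a6a291a79a82276189c7a00041 z
 z)) z)))) (n 0 (n 0 z (n 0 z (n 0 z (n 0 z z)))) (n 0 (n 0 z (n 0 z (n 0 z (n 0 z z)))) (n 0 (n
 0 z (n 0 z (n 0 z (n 0 z z)))) z)))))))))))))))) (n 709 (n 0 (n 0 z (n 0 z (n 0 z (n 0 z z))))
 (n 0 (n 0 z (n 0 z (n 0 z (n 0 (n 8857099 z z) z)))) (n 0 (n 0 z (n 0 z (n 0 z (n 0 (n 8857099
 z z) z)))) (n 0 (n 0 z (n 0 z (n 0 (n 8857099 z (n 8857099 z z)) (n 0 (n 8857099 z (n 8857099 z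
 z)) z)))) (n 0 (n 0 z (n 0 (n 8798835 z (n
 0x1961c8990e49387281b8649a18db6df95f595957a1aadf76936f71d81c89cb64a5980e91aa5e99c9a1b3760da1500c1
 z z)) (n 0 (n
 0xd61cc590e65b87381c86396089d79f8df69991a95c9e07a652979d81d89ea6295c8148dc99e8de921a2e6d395900c1
 z z) (n 0 z z)))) (n 0 (n 0 z (n 0 z (n 0 (n 8786035 z (n 8802827 z z)) (n 0 z z)))) (n 0 (n 0
 (n 8728931 z (n 8728931 z z)) (n 0 z (n 0 z (n 0 z z)))) (n 0 (n 0 z (n 0 z (n 0 z (n 0 z z))))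
 (n 0 (n 0 z (n 0 z (n 0 z (n 0 z z)))) (n 0 (n 0 z (n 0 z (n 0 z (n 0 z z)))) (n 0 (n 0 z (n 0
 z (n 0 z (n 0 z z)))) (n 0 (n 0 z (n 0 (n 8798835 z (n
 0x196180990c09386081b8649a18db6df95f595957a1aadf76936f71d81c89cb64a5980e91aa5e99c9a1b3760da1500c1
 z z)) (n 0 z (n 0 (n
 0x361d8190ec1b8768208208208608208208207e08208608207e18218208a08208207e081f81f81f86082086082000c1
 z z) z)))) (n 0 (n 0 (n 8802611 z z) (n 0 z (n 0 z (n 0 z z)))) (n 0 (n 0 z (n 0 z (n 0 z (n 0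
 z z)))) (n 0 (n 0 z (n 0 z (n 0 z (n 0 z z)))) (n 0 (n 0 z (n 0 (n 8798835 z (n 8802827 z z))
 (n 0 z (n 0 (n 8802827 z z) z)))) (n 0 (n 0 z (n 0 (n 8728931 z (n 8728931 z z)) (n 0 (n
 8728931 z z) (n 0 z z)))) (n 0 (n 0 (n
 0x361d0190e81b8748208208208608208208207e08208608207e18218208a08208207e081f81f81f86082086082000c1
 z z) (n 0 z (n 0 z (n 0 z z)))) (n 0 (n 0 z (n 0 (n 4393083 z (n 4393083 z z)) (n 0 (n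
 0x361d8190ec1b8768208208208608208208207e08208608207e18218208a08208207e081f81f81f86082086082000c1
 z z) (n 0 z z)))) (n 0 (n 0 z (n 0 z (n 0 z (n 0 (n 8786035 z (n
 0x1961c0990e09387081b8649a18db6df95f595957a1aadf76936f71d81c89cb64a5980e91aa5e99c9a1b3760da1500c1
 z z)) z)))) (n 0 (n 0 z (n 0 z (n 0 z (n 0 (n 8786035 z (n
 0x8b8708247a662295999fa6671e6627e1a197616656e78619de7e67267e09a16e47237e389c86271d0041 z z))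
 z)))) (n 0 (n 0 z (n 0 (n 8728931 z (n 8728931 z z)) (n 0 z (n 0 z z)))) (n 0 (n 0 z (n 0 z (n
 0 z (n 0 z z)))) (n 0 (n 0 z (n 0 z (n 0 z (n 0 z z)))) (n 0 (n 0 z (n 0 z (n 0 z (n 0 (n
 0x1961d8990ec9387681b8649a18db6df95f595957a1aadf76936f71d81c89cb64a5980e91aa5e99c9a1b3760da1500c1
 z z) z)))) z))))))))))))))))))))))))) (n 21 (n 0 (n 0 z (n 0 z (n 0 z (n 0 z z)))) (n 0 (n 0 z
 (n 0 z (n 0 z (n 0 z z)))) (n 0 (n 0 z (n 0 z (n 0 z (n 0 z z)))) (n 0 (n 0 (n 8803443 z (n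
 0x70a48602078208617e186079f7e07e57e182186475d79e82191e8207df7a08a47dd82391d7e47238227e30801 z
 z)) (n 0 z (n 0 (n
 0x1961c4990e29387181b8649a18db6df95f595957a1aadf76936f71d81c89cb64a5980e91aa5e99c9a1b3760da1500c1
 z (n
 0x19ec3b1d487680798d52a86e78b06c8557818679985225c05a6a9184955082888c7d7582ab77ad6d691d467fc6458b4fa474b4cf8d55b5690089
 z z)) (n 0 z z)))) (n 0 (n 0 z (n 0 (n 4393083 z (n 4393083 z z)) (n 0 z (n 0 z z)))) (n 0 (n 0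
 z (n 0 z (n 0 z (n 0 z z)))) (n 0 (n 0 z (n 0 z (n 0 z (n 0 z z)))) (n 0 (n 0 z (n 0 z (n 0 z
 (n 0 z z)))) (n 0 (n 0 z (n 0 z (n 0 z (n 0 z z)))) (n 0 (n 0 z (n 0 z (n 0 z (n 0 z z)))) (n 0
 (n 0 z (n 0 z (n 0 z (n 0 z z)))) (n 0 (n 0 z (n 0 (n 8721979 z z) (n 0 z (n 0 z z)))) (n 0 (n
 0 z (n 0 z (n 0 z (n 0 z z)))) (n 0 (n 0 z (n 0 (n 7616523 z (n 7407707 z z)) (n 0 z (n 0 z
 z)))) (n 0 (n 0 z (n 0 z (n 0 z (n 0 z z)))) (n 0 (n 0 z (n 0 z (n 0 z (n 0 z z)))) (n 0 (n 0 z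
 (n 0 z (n 0 z (n 0 z z)))) (n 0 (n 0 z (n 0 z (n 0 z (n 0 z z)))) (n 0 (n 0 z (n 0 z (n 0 z (n
 0 z z)))) (n 0 (n 0 z (n 0 z (n 0 z (n 0 z z)))) (n 0 (n 0 z (n 0 z (n 0 z (n 0 z z)))) (n 0 (n
 0 z (n 0 z (n 0 z (n 0 (n 8857099 z z) z)))) (n 0 (n 0 z (n 0 z (n 0 z (n 0 z z)))) (n 0 (n 0 z
 (n 0 z (n 0 z (n 0 z z)))) (n 0 (n 0 z (n 0 (n 8798835 z (n
 0x4e43a0b3874807d7e7d7f7f817d7b84798189a26e8c788c76767a798b7c7b917b798f7b738e7a85879a6e8c828885808c8b758979827d840089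
 z z)) (n 0 z (n 0 z z)))) (n 0 (n 0 z (n 0 z (n 0 z (n 0 (n 8786035 z (n 8721979 z z)) z)))) (n
 0 (n 0 z (n 0 z (n 0 z (n 0 z z)))) (n 0 (n 0 z (n 0 z (n 0 z (n 0 (n 8868107 z z) z)))) (n 0
 (n 0 z (n 0 z (n 0 z (n 0 z z)))) z))))))))))))))))))))))))))))) (n 708 (n 0 (n 0 z (n 0 z (n 0
 z (n 0 z z)))) (n 0 (n 0 z (n 0 z (n 0 z (n 0 z z)))) (n 0 (n 0 z (n 0 z (n 0 z (n 0 z z)))) (n
 0 (n 0 z (n 0 z (n 0 z (n 0 (n 8786035 z (n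
 0x50a4c842078208617e08608208208627e07e08a085f8217e082086086082086081f82085f86181f81f7e00801 z
 z)) z)))) (n 0 (n 0 z (n 0 z (n 0 z (n 0 z z)))) (n 0 (n 0 z (n 0 z (n 0 z (n 0 z z)))) (n 0 (n
 0 z (n 0 z (n 0 z (n 0 z z)))) (n 0 (n 0 z (n 0 z (n 0 z (n 0 z z)))) (n 0 (n 0 z (n 0 z (n 0 z
 (n 0 z z)))) (n 0 (n 0 z (n 0 z (n 0 z (n 0 z z)))) (n 0 (n 0 z (n 0 z (n 0 z (n 0 (n 8786035 z
 (n 8868107 z z)) z)))) (n 0 (n 0 z (n 0 z (n 0 z (n 0 z z)))) (n 0 (n 0 z (n 0 z (n 0 z (n 0 z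
 z)))) (n 0 (n 0 z (n 0 z (n 0 z (n 0 z z)))) (n 0 (n 0 z (n 0 z (n 0 z (n 0 z z)))) (n 0 (n 0 z
 (n 0 z (n 0 z (n 0 z z)))) (n 0 (n 0 z (n 0 z (n 0 z (n 0 z z)))) (n 0 (n 0 z (n 0 z (n 0 z (n
 0 z z)))) (n 0 (n 0 z (n 0 (n
 0x1961c8990e49387281b8649a18db6df95f595957a1aadf76936f71d81c89cb64a5980e91aa5e99c9a1b3760da1500c1
 z (n
 0x30a484020382082082085f82082081f8208208218208208208608208208208608208208208208208208200801 z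
 z)) (n 0 (n
 0x1961d8990ec9387681b8649a18db6df95f595957a1aadf76936f71d81c89cb64a5980e91aa5e99c9a1b3760da1500c1
 z z) (n 0 z z)))) (n 0 (n 0 z (n 0 z (n 0 z (n 0 z z)))) (n 0 (n 0 z (n 0 z (n 0 z (n 0 z z))))
 (n 0 (n 0 (n
 0x30a4e8420381f86182085f8208208208208208208208208208208208208208208208208208208208208200801 z
 (n 0x30a4e8420381f86182086082082082081f8208208208208208208208208208208208208208208608208200801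
 z z)) (n 0 z (n 0 (n 8786035 z (n
 0x1b0a4e84203824a256629d88954657d979b76067656699ea239dd7e67dd55c55e8d3726a596df8288e1a5d0801 z
 z)) (n 0 z z)))) (n 0 (n 0 z (n 0 (n 6555771 z (n 6555771 z z)) (n 0 (n
 0x361d8190ec1b8768208208208608208208207e08208608207e18218208a08208207e081f81f81f86082086082000c1
 z z) (n 0 z z)))) (n 0 (n 0 z (n 0 z (n 0 z (n 0 z z)))) (n 0 (n 0 z (n 0 z (n 0 z (n 0 z z))))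
 (n 0 (n 0 z (n 0 z (n 0 z (n 0 (n 8802827 z z) z)))) (n 0 (n 0 z (n 0 z (n 0 z (n 0 z z)))) (n
 0 (n 0 z (n 0 z (n 0 z (n 0 z z)))) (n 0 (n 0 z (n 0 (n 7604283 z z) (n 0 z (n 0 z z)))) (n 0
 (n 0 z (n 0 z (n 0 z (n 0 z z)))) (n 0 (n 0 z (n 0 z (n 0 z (n 0 z z)))) (n 0 (n 0 z (n 0 z (n
 0 z (n 0 z z)))) (n 0 (n 0 z (n 0 z (n 0 z (n 0 z z)))) (n 0 (n 0 z (n 0 z (n 0 z (n 0 z z))))
 (n 0 (n 0 z (n 0 z (n 0 z (n 0 z z)))) (n 0 (n 0 z (n 0 z (n 0 z (n 0 z z)))) (n 0 (n 0 z (n 0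
 z (n 0 z (n 0 z z)))) (n 0 (n 0 z (n 0 z (n 0 z (n 0 z z)))) (n 0 (n 0 z (n 0 z (n 0 z (n 0 z
 z)))) (n 0 (n 0 z (n 0 z (n 0 z (n 0 z z)))) (n 0 (n 0 z (n 0 z (n 0 z (n 0 z z)))) (n 0 (n 0 z
 (n 0 z (n 0 z (n 0 z z)))) (n 0 (n 0 z (n 0 (n 8728931 z (n 8728931 z z)) (n 0 z (n 0 z z))))
 (n 0 (n 0 z (n 0 z (n 0 z (n 0 z z)))) (n 0 (n 0 z (n 0 z (n 0 z (n 0 z z)))) (n 0 (n 0 z (n 0
 (n 8802827 z z) (n 0 z (n 0 z z)))) z)))))))))))))))))))))))))))))))))))))))))))))) (n 18 (n 0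
 (n 0 z (n 0 z (n 0 z (n 0 z z)))) (n 0 (n 0 z (n 0 z (n 0 z (n 0 z z)))) (n 0 (n 0 z (n 0 (n
 8798835 z (n 7739403 z z)) (n 0 z (n 0 z z)))) (n 0 (n 0 z (n 0 (n 7737475 z (n
 0x90a6e6040381b85da9a99c7e19a1619992c167e2a1c4ab81cae169fdaa71d9276996675db9a16aa9935e10801 z
 z)) (n 0 (n 8868107 z z) (n 0 z z)))) (n 0 (n 0 z (n 0 z (n 0 z (n 0 z z)))) (n 0 (n 0 z (n 0
 (n 8721979 z z) (n 0 z (n 0 z z)))) (n 0 (n 0 z (n 0 (n 8802827 z z) (n 0 z (n 0 z z)))) (n 0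
 (n 0 z (n 0 (n
 0x196180990c09386081b8649a18db6df95f595957a1aadf76936f71d81c89cb64a5980e91aa5e99c9a1b3760da1500c1
 z (n
 0x643b116180890c05b8608208238618de81f8a269a91ca9a8e87264a97dd8dd85b9dd91e79e8dc89e8de8a37a879b89d0101
 z z)) (n 0 z (n 0 z z)))) (n 0 (n 0 z (n 0 z (n 0 z (n 0 (n 8786035 z (n 8868107 z z)) z)))) (n
 0 (n 0 (n 8802611 z (n 8802611 z z)) (n 0 z (n 0 (n 8802611 z (n 8802611 z z)) (n 0 z z)))) (n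
 0 (n 0 z (n 0 z (n 0 z (n 0 z z)))) (n 0 (n 0 z (n 0 z (n 0 z (n 0 z z)))) (n 0 (n 0 z (n 0 z
 (n 0 z (n 0 z z)))) (n 0 (n 0 z (n 0 z (n 0 z (n 0 z z)))) (n 0 (n 0 z (n 0 z (n 0 z (n 0 z
 z)))) (n 0 (n 0 z (n 0 z (n 0 z (n 0 z z)))) (n 0 (n 0 (n 2164811 z z) (n 0 (n 2164811 z (n
 2164811 z z)) (n 0 (n 2164811 z z) (n 0 z z)))) (n 0 (n 0 z (n 0 z (n 0 z (n 0 z z)))) (n 0 (n
 0 z (n 0 (n 8798835 z (n 8848939 z z)) (n 0 z (n 0 (n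
 0x361d8190ec1b8768208208208608208208207e08208608207e18218208a08208207e081f81f81f86082086082000c1
 z z) z)))) (n 0 (n 0 z (n 0 (n 8798835 z (n 8802827 z z)) (n 0 z (n 0 z z)))) (n 0 (n 0 (n
 8728931 z z) (n 0 z (n 0 z (n 0 z z)))) (n 0 (n 0 z (n 0 z (n 0 (n 8786035 z (n
 0x1961c4990e29387181b8649a18db6df95f595957a1aadf76936f71d81c89cb64a5980e91aa5e99c9a1b3760da1500c1
 z z)) (n 0 z z)))) (n 0 (n 0 z (n 0 z (n 0 z (n 0 z z)))) (n 0 (n 0 z (n 0 (n 8728931 z (n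
 8728931 z z)) (n 0 (n 8728931 z z) (n 0 z z)))) (n 0 (n 0 (n
 0x70e70e240381f82282085f8608608208207e081f8208a082082082081f7e085f7e181f8218208207df8210801 z
 z) (n 0 z (n 0 z (n 0 (n 8868107 z z) z)))) (n 0 (n 0 z (n 0 z (n 0 z (n 0 z z)))) (n 0 (n 0 z
 (n 0 z (n 0 z (n 0 (n 8786035 z (n 8721979 z z)) z)))) (n 0 (n 0 z (n 0 z (n 0 z (n 0 z z))))
 (n 0 (n 0 z (n 0 z (n 0 z (n 0 z z)))) (n 0 (n 0 z (n 0 z (n 0 z (n 0 (n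
 0x1961d8990ec9387681b8649a18db6df95f595957a1aadf76936f71d81c89cb64a5980e91aa5e99c9a1b3760da1500c1
 z z) z)))) (n 0 (n 0 z (n 0 z (n 0 z (n 0 z z)))) (n 0 (n 0 z (n 0 z (n 0 z (n 0 z z))))
 z)))))))))))))))))))))))))))))))) (n 719 (n 0 (n 0 z (n 0 (n 8802611 z z) (n 0 z (n 0 z z))))
 (n 0 (n 0 z (n 0 z (n 0 z (n 0 z z)))) (n 0 (n 0 z (n 0 (n 8798835 z (n
 0x30a4a8420781d8627df89f82182081f8208207e181f82082086085f8207e186182182081f8608208208200801 z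
 z)) (n 0 z (n 0 z z)))) (n 0 (n 0 z (n 0 z (n 0 z (n 0 z z)))) (n 0 (n 0 z (n 0 (n 8802611 z z)
 (n 0 z (n 0 z z)))) (n 0 (n 0 z (n 0 z (n 0 z (n 0 z z)))) (n 0 (n 0 z (n 0 z (n 0 z (n 0 z
 z)))) (n 0 (n 0 z (n 0 z (n 0 z (n 0 z z)))) (n 0 (n 0 z (n 0 z (n 0 z (n 0 z z)))) (n 0 (n 0 z
 (n 0 z (n 0 z (n 0 z z)))) z)))))))))) (n 718 (n 0 (n 0 z (n 0 (n 8798835 z (n 8802827 z z)) (n
 0 z (n 0 (n 8802827 z z) z)))) (n 0 (n 0 z (n 0 z (n 0 z (n 0 z z)))) (n 0 (n 0 (n 8802611 z z)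
 (n 0 z (n 0 z (n 0 z z)))) (n 0 (n 0 (n
 0x2ac399521ccc70e6148308217e386291d81e86365895bb199296a93ab7dc91d85aa1c95d71d8db89d8dc8a37eb75989c0101
 z z) (n 0 z (n 0 z (n 0 (n
 0x361c0190e01b8708208208208608208208207e08208608207e18218208a08208207e081f81f81f86082086082000c1
 z z) z)))) (n 0 (n 0 z (n 0 (n 8802611 z (n 8802611 z z)) (n 0 z (n 0 z z)))) (n 0 (n 0 z (n 0
 z (n 0 z (n 0 z z)))) (n 0 (n 0 z (n 0 (n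
 0x30a4ea060381f8627e081f8607e081f81f82182181f7e082182085f82182086081f7e07df85f8208608200801 z
 (n 0x50a70a64078208218217a07a181f86082082286181f7e186186085f8208208607df7e07de7e08618608600801
 z z)) (n 0 z (n 0 z z)))) (n 0 (n 0 z (n 0 (n
 0x30eb0a640381d8627df85e8217df85e8208207e082082086086085f8208208a08607e08608608217df7e00801 z
 (n 0x70a50a400781f8637e091982281d8dd82189f6a67e185f8609206e09227628668a16e276479d7df8607a00801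
 z z)) (n 0 z (n 0 z z)))) (n 0 (n 0 z (n 0 z (n 0 z (n 0 (n 8786035 z (n
 0x4a870a240781c8637df85d7a37dd89e8618207e281f7e08218218208217a08a185f7e186185f7e07df81f0801 z
 z)) z)))) (n 0 (n 0 z (n 0 (n 3278971 z (n 3278971 z z)) (n 0 (n
 0x30e50e0a0782082182082086082086081f8218207e082182182082082082082081f82082082082081f8200801 z
 z) (n 0 z z)))) (n 0 (n 0 z (n 0 z (n 0 z (n 0 z z)))) (n 0 (n 0 z (n 0 (n 8798835 z (n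
 0x196150990a89385481b8649a18db6df95f595957a1aadf76936f71d81c89cb64a5980e91aa5e99c9a1b3760da1500c1
 z z)) (n 0 z (n 0 z z)))) (n 0 (n 0 z (n 0 z (n 0 z (n 0 z z)))) (n 0 (n 0 z (n 0 (n 8798835 z
 (n 8791355 z z)) (n 0 z (n 0 (n 8791355 z z) z)))) (n 0 (n 0 z (n 0 (n 8798835 z (n
 0x130a70a040381b61ae1c6a04aba605dda8ca188598e74ad69c96361eee4b979d84a2b1c919ae57f464671b0801 z
 z)) (n 0 z (n 0 z z)))) (n 0 (n 0 z (n 0 z (n 0 z (n 0 (n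
 0x30e70e64078208607e086082186082082082082082082082186086086082082082182082085f8218207e00801 z
 z) z)))) (n 0 (n 0 z (n 0 (n 8798835 z (n
 0x30a2a6040781f86182085f81f82082082082082082082082181f82082182082082082086082086081f8200801 z
 z)) (n 0 z (n 0 (n
 0x30e70e640781f8a18208608218208208208208218208208218608208218208208208208208208608207e00801 z
 z) z)))) (n 0 (n 0 z (n 0 z (n 0 z (n 0 (n 8786035 z (n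
 0x1961c0990e09387081b8649a18db6df95f595957a1aadf76936f71d81c89cb64a5980e91aa5e99c9a1b3760da1500c1
 z z)) z)))) (n 0 (n 0 z (n 0 (n 8791355 z (n 8791355 z z)) (n 0 z (n 0 z z))))
 z))))))))))))))))))) (n 129 (n 0 (n 0 z (n 0 z (n 0 z (n 0 z z)))) (n 0 (n 0 z (n 0 z (n 0 z (n
 0 z z)))) (n 0 (n 0 z (n 0 z (n 0 z (n 0 (n 8786035 z (n
 0xd38708257aa4e29d5a1fba865c5627e3b1472256862d861a9c7e86e97e1a625e66647e68da8a269c0041 z z))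
 z)))) (n 0 (n 0 z (n 0 z (n 0 z (n 0 z z)))) (n 0 (n 0 z (n 0 (n
 0x70eb0ea60782091f81e9a186191f7988dd9976aa8dc660a9dba15a0b5e6a28667d75e35dd71e52499d7620801 z
 (n 0x7064e82a0381f8a28208618607e08207e07e081f8207e081f86081f8618208218208207df85f86081f81f0801
 z z)) (n 0 (n 8868107 z z) (n 0 z z)))) (n 0 (n 0 z (n 0 z (n 0 z (n 0 z z)))) (n 0 (n 0 z (n 0
 z (n 0 z (n 0 z z)))) (n 0 (n 0 z (n 0 z (n 0 z (n 0 z z)))) z)))))))) (n 3 (n 0 (n 0 z (n 0 z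
 (n 0 z (n 0 z z)))) (n 0 (n 0 z (n 0 z (n 0 z (n 0 z z)))) (n 0 (n 0 z (n 0 z (n 0 z (n 0 z
 z)))) (n 0 (n 0 z (n 0 z (n 0 z (n 0 z z)))) (n 0 (n 0 z (n 0 z (n 0 z (n 0 z z)))) (n 0 (n 0 z
 (n 0 (n
 0x30a6ea240782081f8208218208218218207e08207e08208217e08208208207e08208208608608208208200801 z
 z) (n 0 z (n 0 z z)))) (n 0 (n 0 (n
 0x30a4ea42078208208208208208208208208208208208208208208208208208208208208208218207e08200801 z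
 z) (n 0 z (n 0 z (n 0 z z)))) z))))))) (n 1 (n 0 (n 0 (n 2164811 z z) (n 0 (n 8798835 z (n
 2164811 z z)) (n 0 (n 2164811 z z) (n 0 z z)))) (n 0 (n 0 z (n 0 z (n 0 z (n 0 z z)))) (n 0 (n
 0 z (n 0 (n 8798835 z (n
 0x30a6ea240381d8a27de85e8217df86082082082185f82182181f8608217e08a085f82085f8608207de7e00801 z
 z)) (n 0 z (n 0 (n
 0x361c4190e21b8718208208208608208208207e08208608207e18218208a08208207e081f81f81f86082086082000c1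
 z z) z)))) (n 0 (n 0 z (n 0 (n
 0x30e50e0a0782082182082086082086081f8218207e082182182082082082082081f82082082082081f8200801 z
 z) (n 0 z (n 0 z z)))) z)))) (n 0 (n 0 (n 0 z (n 0 (n 8802827 z z) (n 0 z (n 0 z z)))) (n 0 (n
 0 z (n 0 z (n 0 z (n 0 z z)))) (n 0 (n 0 z (n 0 z (n 0 (n 8786035 z (n
 0x1961c4990e29387181b8649a18db6df95f595957a1aadf76936f71d81c89cb64a5980e91aa5e99c9a1b3760da1500c1
 z z)) (n 0 z z)))) (n 0 (n 0 z (n 0 z (n 0 z (n 0 z z)))) (n 0 (n 0 z (n 0 z (n 0 z (n 0 z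
 z)))) (n 0 (n 0 z (n 0 (n 8798835 z (n
 0x1961c8990e49387281b8649a18db6df95f595957a1aadf76936f71d81c89cb64a5980e91aa5e99c9a1b3760da1500c1
 z z)) (n 0 (n
 0x1961c4990e29387181b8649a18db6df95f595957a1aadf76936f71d81c89cb64a5980e91aa5e99c9a1b3760da1500c1
 z z) (n 0 z z)))) (n 0 (n 0 z (n 0 z (n 0 z (n 0 z z)))) (n 0 (n 0 z (n 0 z (n 0 z (n 0 z z))))
 (n 0 (n 0 z (n 0 z (n 0 z (n 0 z z)))) (n 0 (n 0 z (n 0 z (n 0 z (n 0 z z)))) (n 0 (n 0 z (n 0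
 z (n 0 z (n 0 z z)))) (n 0 (n 0 z (n 0 z (n 0 (n
 0x2b0a4e8060781a521c21b915a4a139d67d78e065e6a8a65759a2355cd31bd9a185aaad44dd860baf64d8da0801 z
 (n 0x4e870a24078208207e07e08217a27df82082082086085f8217e08208217e07a17e08218208208607e08200801
 z z)) (n 0 (n
 0xd2c388ec871807c876895777c9875826c80847c8b6852a16d7489828b688084867f7b81967c9776744d6280a362866693799ba7876a9b740089
 z (n 0x2d87182371aae18227df8a179b95681d79f82576381e92171daa09dd79a6a291a79a82276189c7a00041 z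
 z)) z)))) (n 0 (n 0 z (n 0 z (n 0 z (n 0 z z)))) (n 0 (n 0 z (n 0 z (n 0 z (n 0 z z))))
 z)))))))))))))) z))))))))))))))))))))) z)))) z) z)))) z)))), by decide +kernel⟩
theorem i10677 : ∃ t, chkR KT RW t 10677 10687 = true := ⟨(n
 0xd92742c63a132cd48165961c4d261945a11249904969845e5b00932c0 (n 0 (n 153 (n
 0x2c86a64207807f80818080807f7f807e8181808080807f807f807e808180808080807f818080808080807f8181818080808180807f80800809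
 z (n 0 z (n 0 z (n 0 z (n 0 z (n 2 z (n 0 z (n
 0x2ca8ca82037f808081817f81808080808180817e80807f807f8080808080808080817f817f808080817f808080808082808080808080800809
 z (n 0 z (n
 0xcc86a862077e7f817d7f8182817f7f7c82827f7d7e7f8082847e827f86807f827e82817e807f7f7e818182817e818082827d847f817f810809
 z (n 10 z (n 0 z (n 3282443 z (n 0 z (n 0 z (n 0 z (n 3282443 z (n 0 z (n 0 z
 z))))))))))))))))))) (n 33 (n 18 z (n 26 z (n 0 z (n 3278363 z z)))) (n 9 (n 0 z (n 34 z (n 0 z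
 (n 42 z (n 3212843 z z))))) (n 27 (n 50 z (n 58 z (n 2164283 z (n 0 z z)))) (n 1 (n 0 z (n 0 z
 (n 2164299 z z))) (n 0 (n 0 z (n 66 z (n 3282523 z (n 2164315 z (n 74 z (n
 0x4c86c8620787797f87837e7e77837d758b8c818183797e7c7e7e78858a798679747f7d768c7a926a7f7879828274877091737e94816e8e0809
 z (n 0 z (n
 0xec86864203917b7e9586837c7d936f6c8f8b886f8979796e77757d997f7b8b766b82756f9c83a756608a68867f5e6c58988b71aa817b980809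
 z (n
 0x2c86c80207817f8181808081807f7f7e8181827f807f80807f807f7f8080808080817f8180808180817f8080817f80808080808080807f0809
 z (n
 0x2c86c80207807e8181808081807f807e8181817f7f7f808080807f7f8080808080817f818080817f817f808081808080808080808080800809
 z (n 82 z z))))))))))) z)))))) (n 1 (n 0 (n 0 z (n 83 (n 0 z (n 0 z (n 0 z (n 0 z (n 0 z (n 0 z
 (n 0 z (n 0 z (n 2 (n 0 z (n 1 z (n 1 z (n 1 z (n 1 z (n 1 z (n 2 (n 0 z (n 0 z (n 0 z (n 0 z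
 (n 0 (n 292 z z) (n 0 z z)))))) (n 1 z z)))))))) (n
 0x2ca4e82607817f80808080818080807f807f817f8080808080808080807f808080818081807f8080818181808180817f7f8080808081800809
 z (n 0 z (n 0 z (n 0 z (n 0 z (n 0 z (n 0 z (n 0 z (n 0 z (n 0 z (n 0 z (n 0 z (n 0 z (n 0 z (n
 0 z (n 0 z z))))))))))))))))))))))))) (n 83 (n 0 z (n 0 z (n 0 z (n 0 z (n 0 z (n 0 z (n 0 z (n
 0 z (n 0 z (n 0 z (n 0 z (n 0 z (n 0 z (n 0 z (n 0 z (n 0 z (n 0 z (n 0 z (n 0 z (n 0 z (n 0 z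
 (n 0 z (n 0 z (n 0 z (n 0 z z))))))))))))))))))))))))) (n 237 (n 0 z (n 0 z (n 0 z (n 0 z (n 0
 z (n 0 z (n 0 z (n 0 z (n 0 z (n 0 z (n 2 (n 0 z (n 1 z (n 1 z (n 1 z (n 2 (n 0 z (n 0 z (n 0 z
 (n 0 z (n 0 z (n 0 z z)))))) (n 1 z z)))))) (n 0 z (n 0 z (n 0 z (n 0 z (n 0 z (n 0 z
 z))))))))))))))))) (n 237 (n 0 z (n 0 z (n 0 z (n 0 z (n 0 z (n 0 z (n 0 z (n 0 z (n 0 z (n 0 z
 (n 0 z (n 0 z (n 0 z (n 0 z (n 0 z (n 0 z (n 0 z z))))))))))))))))) (n 81 (n 0 z (n 0 z (n 0 z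
 (n 2 (n 0 z (n 1 z (n 2 (n 0 z (n 0 z (n 0 z (n 0 z (n 0 z (n 0 z z)))))) (n 2 (n 0 z (n 0 z (n
 0 z (n 0 z (n 0 z (n 0 z z)))))) z)))) (n 0 z (n 0 z (n 0 z (n 0 z (n 0 z (n 0 z (n 0 z
 z))))))))))) (n 81 (n 0 z (n 0 z (n 0 z (n 0 z (n 0 z (n 0 z (n 0 z (n 0 z (n 0 z (n 0 z (n 0 z
 z))))))))))) (n 73 (n 0 z (n 0 z (n 0 z (n 0 z (n 0 z (n 0 z (n 0 z (n 0 z (n 0 z (n 0 z (n 0 z
 (n 0 z z)))))))))))) (n 73 (n 0 z (n 0 z (n 0 z (n 0 z (n 0 z (n 0 z (n 0 z (n 0 z (n 0 z (n 0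
 z (n 0 z (n 2 (n 0 z z) z)))))))))))) (n 73 (n 0 z (n 0 z (n 0 z (n 0 z (n 0 z (n 0 z (n 0 z (n
 0 z (n 0 z (n 2 z (n 0 z (n 0 z z)))))))))))) z)))))))))) (n 0 (n 1179 (n 0 z (n 0 z (n 0 z (n
 0 z (n 0 z (n 2 (n 0 z (n 1 z (n 1 z (n 2 (n 0 z (n 0 z (n 0 z (n 0 z (n 0 (n 8873003 z z) (n 0
 z z)))))) (n 1 z (n 2 (n 0 z (n 0 z (n 0 z (n 0 z (n 0 (n 1220 z z) (n 0 z z)))))) (n 2 (n 0 z
 (n 0 z (n 0 z (n 0 z (n 0 (n 1220 z z) (n 0 z z)))))) (n 1 z z)))))))) (n 0 z (n 0 z (n 0 z (n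
 0 z (n 0 z (n 0 z (n 0 z (n 0 z (n 0 z (n 0 z (n 0 z (n 0 z (n 0 z z))))))))))))))))))) (n 1179
 (n 0 z (n 0 z (n 0 z (n 0 z (n 0 z (n 0 z (n 0 z (n 0 z (n 0 z (n 0 z (n 0 z (n 0 z (n 0 z (n 0
 z (n 0 z (n 0 z (n 0 z (n 0 z (n 0 z z))))))))))))))))))) (n 135 (n 0 z (n 0 z (n 0 z (n 0 z (n
 0 z (n 2 (n 0 z (n 2 (n 0 z (n 0 z (n 0 z (n 0 z (n 0 z (n 0 z z)))))) (n 1 z (n 2 (n 0 z (n 0
 z (n 0 z (n 0 z (n 0 z (n 0 z z)))))) (n 2 (n 0 z (n 0 z (n 0 z (n 0 z (n 0 (n 1220 z z) (n 0 z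
 z)))))) (n 1 z z)))))) (n 0 z (n 0 z (n 0 z (n 0 z (n 0 z (n 0 z (n 0 z (n 0 z (n 0 z (n 0 z
 z)))))))))))))))) (n 135 (n 0 z (n 0 z (n 0 z (n 0 z (n 0 z (n 0 z (n 0 z (n 0 z (n 0 z (n 0 z
 (n 0 z (n 0 z (n 0 z (n 0 z (n 0 z (n 0 z z)))))))))))))))) (n 1177 (n 0 z (n 0 z (n 0 z (n 0 z
 (n 0 z (n 0 z (n 0 z (n 2 (n 0 z (n 2 (n 0 z (n 0 z (n 0 z (n 0 z (n 0 z (n 0 z z)))))) (n 2 (n
 0 z (n 0 z (n 0 z (n 0 z (n 0 z (n 0 z z)))))) (n 1 z z)))) (n 0 z (n 0 z (n 0 z (n 0 z (n 0 z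
 (n 0 z (n 0 z (n 0 z z)))))))))))))))) (n 1177 (n 0 z (n 0 z (n 0 z (n 0 z (n 0 z (n 2 (n 2 (n
 0 z (n 0 z (n 0 z (n 0 z (n 0 z (n 0 z z)))))) (n 2 (n 0 z (n 0 z (n 0 z (n 0 z (n 0 z (n 0 z
 z)))))) (n 1 z z))) (n 0 z (n 0 z (n 0 z (n 0 z (n 0 z (n 0 z (n 0 z (n 0 z (n 0 z (n 0 z
 z)))))))))))))))) (n 305 (n 0 z (n 0 z (n 0 z (n 0 z (n 0 z (n 0 z (n 0 z (n 2 (n 0 z (n 0 z
 z)) (n 0 z (n 0 z (n 0 z (n 0 z (n 0 z (n 0 z (n 0 z (n 0 z z)))))))))))))))) (n 305 (n 0 z (n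
 0 z (n 0 z (n 0 z (n 0 z (n 0 z (n 0 z (n 0 z (n 0 z (n 0 z (n 0 z (n 0 z (n 0 z (n 0 z (n 0 z
 (n 0 z z)))))))))))))))) (n 305 (n 0 z (n 0 z (n 0 z (n 0 z (n 0 z (n 0 z (n 0 z (n 0 z (n 0 z
 (n 0 z (n 0 z (n 0 z (n 0 z (n 0 z (n 0 z (n 0 z z)))))))))))))))) z))))))))) (n 0 (n 0 z (n
 1293 (n 0 z (n 0 z (n 0 z (n 0 z (n 0 z (n 0 z z)))))) (n 1293 (n 2 (n 1 z (n 1 z (n 1 z (n 2
 (n 0 z (n 0 z (n 0 z (n 0 z (n 0 (n 196 z z) (n 0 z z)))))) (n 1 z z))))) (n 0 z (n 0 z (n 0 z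
 (n 0 z (n 0 z z)))))) (n 1289 (n 0 z (n 0 z (n 0 z (n 0 z (n 0 z (n 0 z (n 0 z (n 0 z (n 0 z (n
 0 z (n 0 z (n 0 z (n 0 z (n 0 z (n 0 z (n 0 z (n 0 z (n 0 z (n 0 z (n 0 z (n 0 z (n 0 z (n 0 z
 (n 0 z (n 0 z (n 0 z (n 0 z (n 0 z z)))))))))))))))))))))))))))) (n 1289 (n 2 (n 1 z (n 2 (n 0
 z (n 0 z (n 0 z (n 0 z (n 0 (n 196 z z) (n 0 z z)))))) (n 1 z z))) (n 0 z (n 0 z (n 0 z (n 0 z
 (n 0 z (n 0 z (n 0 z (n 0 z (n 0 z (n 0 z (n 0 z (n 0 z (n 0 z (n 0 z (n 0 z (n 0 z (n 0 z (n 0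
 z (n 0 z (n 0 z (n 0 z (n 0 z (n 0 z (n 0 z (n 0 z (n 0 z (n 0 z z))))))))))))))))))))))))))))
 (n 49 (n 0 z (n 0 z (n 0 z (n 0 z (n 2 (n 0 z (n 0 z z)) (n
 0x4ea4c82607817e8080808081808081808080817e80808180808080807f7e7f8180818080807f818082808180817f817f7f808081807e810809
 z (n 0 z (n 0 z (n 0 z (n 0 z (n 0 z (n 0 z (n 0 z (n 0 z (n 0 z (n 0 z (n 0 z (n 0 z (n 0 z (n
 0 z (n 0 z (n 0 z (n 0 z (n 0 z (n 0 z (n 0 z (n 0 z (n 0 z (n 0 z (n 0 z (n 0 z (n 0 z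
 z)))))))))))))))))))))))))))))))) (n 49 (n 0 z (n 0 z (n 0 z (n 0 z (n 0 z (n 0 z (n 0 z (n 0 z
 (n 0 z (n 0 z (n 0 z (n 0 z (n 0 z (n 0 z (n 0 z (n 0 z (n 0 z (n 0 z (n 0 z (n 0 z (n 0 z (n 0
 z (n 0 z (n 0 z (n 0 z (n 0 z (n 0 z (n 0 z (n 0 z (n 0 z (n 0 z (n 0 z
 z)))))))))))))))))))))))))))))))) (n 49 (n 0 z (n 0 z (n 0 z (n 0 z (n 0 z (n 0 z (n 0 z (n 0 z
 (n 0 z (n 0 z (n 0 z (n 0 z (n 0 z (n 0 z (n 0 z (n 0 z (n 0 z (n 0 z (n 0 z (n 0 z (n 0 z (n 0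
 z (n 0 z (n 0 z (n 0 z (n 0 z (n 0 z (n 0 z (n 0 z (n 0 z (n
 0x2ec8e84603817f8081807f80807f807f80818180807f81808180807f80807f8080817f8080808080817f7f80807f8080808080808080810809
 z (n 2 z z)))))))))))))))))))))))))))))))) z)))))))) (n 0 (n 19 (n 2 (n 0 z (n 1 z (n 1 z (n 1
 z (n 2 (n 0 z (n 0 z (n 0 z (n 0 z (n 0 (n 1172 z z) (n 0 z z)))))) (n 1 z z)))))) (n 0 z (n 0
 z (n 0 z (n 0 z (n 0 z z)))))) (n 19 (n 0 z (n 0 z (n 0 z (n 0 z (n 0 z (n 0 z z)))))) (n 295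
 (n 2 (n 0 z (n 1 z (n 2 (n 0 z (n 0 z (n 0 z (n 0 z (n 0 z (n 0 z z)))))) (n 2 (n 0 z (n 0 z (n
 0 z (n 0 z (n 0 z (n 0 z z)))))) z)))) (n 0 z (n 0 z (n 0 z (n 0 z (n 0 z (n 0 z (n 0 z (n 0 z
 (n 0 z z)))))))))) (n 295 (n 0 z (n 0 z (n 0 z (n 0 z (n 0 z (n 0 z (n 0 z (n 0 z (n 0 z (n 0 z
 z)))))))))) (n 293 (n 0 z (n 0 z (n 0 z (n 0 z (n 0 z (n 0 z (n 0 z (n 0 z (n 0 z (n 0 z (n 0 z
 (n 0 z (n 0 z (n 0 z (n 0 z (n 0 z (n 0 z (n 0 z (n 0 z (n 0 z (n 0 z (n 0 z (n 0 z (n 0 z (n 0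
 z z))))))))))))))))))))))))) (n 293 (n 0 z (n 0 z (n 0 z (n 0 z (n 0 z (n 0 z (n 0 z (n 0 z (n
 0 z (n 0 z (n 0 z (n 0 z (n 0 z (n 0 z (n 0 z (n 0 z (n 0 z (n 0 z (n 0 z (n 2 (n 0 z z) (n 0 z
 (n 0 z (n 0 z (n 0 z (n 0 z z))))))))))))))))))))))))) (n 293 (n 0 z (n 0 z (n 0 z (n 0 z (n 0
 z (n 0 z (n 0 z (n 0 z (n 0 z (n 0 z (n 0 z (n 0 z (n 0 z (n 0 z (n 0 z (n 0 z (n 0 z (n 0 z (n
 0 z (n 0 z (n 0 z (n 0 z (n 0 z (n 0 z (n 2 z z))))))))))))))))))))))))) z))))))) (n 0 (n 0 z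
 (n 1333 (n 0 z (n 0 z (n 0 z (n 0 z (n 0 z (n 0 z (n 0 z z))))))) (n 1333 (n 0 z (n 2 (n 1 z (n
 2 (n 0 z (n 0 z (n 0 z (n 0 z (n 0 (n 52 z z) (n 0 z z)))))) (n 1 z z))) (n 0 z (n 0 z (n 0 z
 (n 0 z (n 0 z z))))))) (n 13 (n 0 z (n 0 z (n 2 (n 0 z (n 0 z z)) (n 0 z (n 0 z (n 0 z (n 0 z
 (n 0 z (n 0 z (n 0 z (n 0 z z))))))))))) (n 13 (n 0 z (n 0 z (n 0 z (n 0 z (n 0 z (n 0 z (n 0 z
 (n 0 z (n 0 z (n 0 z (n 0 z z))))))))))) (n 13 (n 0 z (n 0 z (n 0 z (n 0 z (n 0 z (n 0 z (n 0 z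
 (n 0 z (n 0 z (n 0 z (n 2 z z))))))))))) z)))))) (n 0 (n 55 (n 2 (n 0 z (n 1 z (n 2 (n 0 z (n 0
 z (n 0 z (n 0 z (n 0 z (n 0 z z)))))) (n 2 (n 0 z (n 0 z (n 0 z (n 0 z (n 0 z (n 0 z z))))))
 z)))) (n 0 z (n 0 z (n 0 z (n 0 z (n 0 z (n 0 z (n 0 z (n 0 z (n 0 z (n 0 z (n 0 z (n 0 z
 z))))))))))))) (n 55 (n 0 z (n 0 z (n 0 z (n 0 z (n 0 z (n 0 z (n 0 z (n 0 z (n 0 z (n 0 z (n 0
 z (n 0 z (n 0 z z))))))))))))) (n 49 (n 0 z (n 0 z (n 0 z (n 0 z (n 0 z (n 0 z (n 0 z (n 0 z (n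
 0 z (n 0 z (n 0 z (n 0 z z)))))))))))) (n 49 (n 0 z (n 0 z (n 2 (n 0 z z) (n 0 z (n 0 z (n 0 z
 (n 0 z (n 0 z (n 0 z (n 0 z (n 0 z (n 0 z z)))))))))))) (n 49 (n 0 z (n 0 z (n 0 z (n 0 z (n 0
 z (n 0 z (n 0 z (n 0 z (n 0 z (n 0 z (n 0 z (n 2 z z)))))))))))) z))))) (n 0 (n 0 z (n 49 (n 0
 z (n 0 z (n 0 z (n 2 (n 0 z (n 0 z z)) (n 0 z (n 0 z (n 0 z (n 0 z (n 0 z (n 0 z (n 0 z (n 0 z
 (n 0 z (n 0 z z)))))))))))))) (n 49 (n 0 z (n 0 z (n 0 z (n 0 z (n 0 z (n 0 z (n 0 z (n 0 z (n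
 0 z (n 0 z (n 0 z (n 0 z (n 0 z (n 0 z z)))))))))))))) (n 49 (n 0 z (n 0 z (n 0 z (n 0 z (n 0 z
 (n 0 z (n 0 z (n 0 z (n 0 z (n 0 z (n 0 z (n 0 z (n 0 z (n 2 z z)))))))))))))) z)))) (n 0 (n 61
 (n 0 z (n 0 z (n 0 z (n 0 z (n 0 z (n 0 z (n 0 z (n 0 z (n 0 z (n 0 z (n 0 z (n 0 z
 z)))))))))))) (n 61 (n 0 z (n 2 (n 0 z z) (n 0 z (n 0 z (n 0 z (n 0 z (n 0 z (n 0 z (n 0 z (n 0
 z (n 0 z (n 0 z z)))))))))))) (n 61 (n 0 z (n 0 z (n 0 z (n 0 z (n 0 z (n 0 z (n 0 z (n 2 z (n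
 0 z (n 0 z (n 0 z (n 0 z z)))))))))))) z))) (n 0 (n 0 z (n 0 z z)) (n 0 (n 0 z z) (n 0 z
 z))))))))))) (n 0 (n 0 z (n 0 z (n 1 (n 2164299 z (n 2164299 z (n 2164299 z (n 2164299 z (n
 2164299 z (n 2164299 z z)))))) z))) (n 0 z z)))) (n 0x154aee0ac71415d6ae0e2 (n 0 (n 237 (n
 6635539 z (n 0 z (n 0 z (n 0 z (n 0 z z))))) (n 57 (n 6496515 z (n 0 z (n 0 z (n 0 z (n 0 z
 z))))) (n 137 (n 6496515 z (n 0 z (n 0 z (n 0 z (n 0 z (n 0 z (n 0 z (n 0 z (n 2 z (n 0 z (n 0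
 z z))))))))))) (n 136 (n 0 z (n 0 z (n 0 z (n 6496515 z (n 0 z (n 10 z (n 0 z (n 0 z (n 0 z (n
 0 z (n 0 z z))))))))))) (n 1 (n 6635539 z (n 0 z (n 0 z (n 0 z (n 0 z (n 0 z (n 0 z (n 0 z (n
 18 z (n 0 z (n 0 z z))))))))))) (n 0 (n 0 z (n 0 z (n 0 z (n 6635539 z (n 0 z (n 26 z (n 0 z (n
 0 z (n 0 z (n 0 z (n 0 z z))))))))))) z)))))) (n 237 (n 0 (n 273 (n 0 z (n 0 z (n 0 z (n 0 z (n
 0 z z))))) (n 433 (n 0 z (n 0 z (n 0 z (n 0 z (n 0 z (n 0 z (n 0 z (n 0 z z)))))))) (n 265 (n 0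
 z (n 0 z (n 0 z (n 0 z (n 0 z (n 0 z (n 0 z (n 0 z (n 0 z z))))))))) z))) (n 0 (n 9 (n 0 z (n 0
 z (n 0 z (n 0 z (n 0 z z))))) (n 265 (n 0 z (n 0 z (n 0 z (n 0 z (n 0 z (n 0 z (n 0 z (n 0 z (n
 0 z z))))))))) z)) (n 0 (n 1 (n 0 z (n 0 z (n 0 z (n 0 z (n 0 z z))))) z) (n 0 z z)))) (n 0 (n
 1 (n 6496515 z (n 6635539 z (n 6635539 z (n 6635539 z (n 6635539 z (n 6635539 z z)))))) (n 0 z
 (n 0 z (n 0 z (n 0 z z))))) (n 0 z z)))) (n 0xc1cce319a91ecc4393819 (n 0 (n 357 (n 6635555 z (n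
 0 z (n 0 z (n 0 z (n 0 z (n 0 z (n 0 z (n 0 z z)))))))) (n 317 (n 6496515 z (n 2 z (n 0 z (n 0
 z (n 0 z (n 0 z (n 0 z (n 0 z (n 10 z (n 0 z (n 0 z z))))))))))) (n 51 (n 6496515 z (n 0 z (n 0
 z (n 0 z (n 0 z (n 0 z (n 0 z (n 0 z z)))))))) (n 316 (n 0 z (n 0 z (n 6496515 z (n 0 z (n 0 z
 (n 0 z z)))))) (n 1 (n 6635555 z (n 18 z (n 0 z (n 0 z (n 0 z (n 0 z (n 0 z (n 0 z (n 26 z (n 0
 z (n 0 z z))))))))))) (n 0 (n 0 z (n 0 z (n 6635555 z (n 0 z (n 0 z (n 0 z z)))))) z)))))) (n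
 316 (n 0 (n 0 z (n 69 (n 0 z (n 0 z (n 0 z (n 0 z (n 0 z (n 0 z (n 0 z (n 0 z z)))))))) (n 69
 (n 0 z (n 0 z (n 0 z (n 0 z (n 0 z (n 0 z (n 0 z (n 0 z z)))))))) z))) (n 0 (n 521 (n 0 z (n 0
 z (n 0 z (n 0 z (n 0 z (n 0 z (n 0 z (n 0 z z)))))))) (n 521 (n 0 z (n 0 z (n 0 z (n 0 z (n 0 z
 (n 0 z (n 0 z (n 0 z z)))))))) z)) (n 0 (n 0 z z) (n 0 z z)))) (n 0 (n 0 z (n 0 z (n 1 (n
 6496515 z (n 6496515 z (n 6496515 z (n 6496515 z (n 6496515 z (n 6496515 z z)))))) (n 0 z (n 0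
 z (n 0 z z)))))) (n 0 z z)))) (n 0xa19d68e162 (n 0 (n 179 (n 0 z (n 0 z (n 6426691 z (n 0 z (n
 0 z z))))) (n 33 (n 0 z (n 0 z (n 6426691 z (n 0 z (n 0 z (n 0 z z)))))) (n 129 (n 2 z (n 0 z
 (n 0 z (n 0 z (n 0 z (n 0 z (n 0 z (n 0 z (n 6426691 z (n 6426691 z (n 0 z (n 0 z (n 0 z (n 0 z
 z)))))))))))))) (n 3 (n 10 z (n 0 z (n 0 z (n 0 z (n 2164283 z (n 4261435 z (n 0 z (n 0 z (n 0
 z (n 0 z (n 0 z z))))))))))) (n 127 (n 6554139 z (n 0 z (n 0 z (n 0 z z)))) (n 0 (n 6624011 z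
 (n 0 z (n 0 z (n 0 z (n 0 z (n 0 z z)))))) z)))))) (n 127 (n 0 (n 1181 (n 0 z (n 0 z (n 0 z (n
 0 z (n 0 z (n 0 z (n 0 z (n 0 z (n
 0x74274210384e86c84203059518c040e0329b29800c075365200382e84e8400781e81f7e17a68de81f89f7e09217dd79c8219de7e47df8208e286581d7a185a7208e195d8613001
 z (n 0x527648e48a08a1892a1c8e37997a47df7627a995b61b6a26a379f79c7217e17e1af69ed6e27b0b540041 z
 (n 0 z (n 0 z (n 0 z (n 0 z z)))))))))))))) z) (n 0 z z)) (n 0 (n 1 (n 6554139 z (n 6554139 z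
 (n 6426691 z (n 6554139 z (n 6554139 z (n 6554139 z z)))))) (n 0 z (n 0 z (n 0 z z)))) (n 0 z
 z)))) (n 0xa19d68e162 (n 0 (n 179 (n 0 z (n 0 z (n 0 z (n 6426691 z (n 0 z (n 0 z z)))))) (n 33
 (n 0 z (n 6426691 z (n 0 z (n 0 z z)))) (n 129 (n 2 z (n 0 z (n 0 z (n 0 z (n 0 z (n 0 z (n 0 z
 (n 0 z (n 0 z (n 6426691 z (n 0 z (n 0 z (n 0 z (n 0 z z)))))))))))))) (n 3 (n 10 z (n 0 z (n 0
 z (n 0 z (n 0 z (n 2164283 z (n 0 z (n 0 z (n 0 z (n 0 z (n 0 z z))))))))))) (n 127 (n 6554139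
 z (n 0 z (n 0 z (n 0 z (n 0 z z))))) (n 0 (n 6624011 z (n 0 z (n 0 z z))) z)))))) (n 0 (n 0 (n
 1181 (n 0 z (n 0 z (n 0 z (n 0 z (n 0 z (n 0 z (n 0 z (n 0 z (n 0 z (n
 0x1d45d0080e03a13a1081c174364210180ca6ca600301d09d0800e0329398800c165463100180ea6c4200385f82082082086086086082082082082081f8208208208207e08208208208207e08208208204001
 z (n 0 z (n 0 z (n 0 z (n 0 z z)))))))))))))) z) (n 0 z z)) (n 0 (n 1 (n 6624011 z (n 6624011 z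
 (n 6624011 z (n 6624011 z (n 6624011 z (n 6624011 z z)))))) (n 0 z (n 0 z z))) (n 0 z z)))) (n
 0xd4445e6294cb0526c90ea (n 0 (n 207 (n 0 z (n 6557779 z (n 0 z (n 0 z z)))) (n 472 (n 6624267 z
 (n 6562099 z (n 0 z (n 0 z (n 0 z (n 0 z (n 0 z (n 0 z (n 0 z (n 6557779 z z)))))))))) (n 195
 (n 2 z (n 6562099 z (n 0 z (n 0 z (n 0 z z))))) (n 3 (n 6488603 z (n 10 z (n 18 z (n 26 z z))))
 (n 25 (n 0 z (n 0 z (n 0 z (n 6562099 z (n 0 z (n 0 z z)))))) (n 0 (n 0 z (n 0 z (n 6624267 z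
 (n 0 z (n 0 z z))))) z)))))) (n 207 (n 0 (n 1023 (n 2 (n 0 z (n 0 z z)) (n 0 z (n 0 z (n 0 z
 z)))) (n 1023 (n 0 z (n 0 z (n 0 z (n 0 z z)))) (n 1023 (n 0 z (n 0 z (n 0 z (n 0 z z)))) z)))
 (n 0 (n 0 z (n 0 z z)) (n 0 (n 0 z z) (n 0 z z)))) (n 0 (n 0 z (n 1 (n 6557779 z (n 6557779 z
 (n 6557779 z (n 6557779 z (n 6557779 z (n 6557779 z z)))))) (n 0 z (n 0 z z)))) (n 0 z z)))) (n
 0xd6b743259b012cc8c165c6432a32413192c0 (n 0x23259 (n 329 (n 6561843 z (n 2 z (n 0 z (n 0 z (n 0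
 z z))))) (n 315 (n 6631715 z (n 0 z (n 10 z (n 0 z (n 6631715 z (n 0 z z)))))) (n 9 (n 6561843
 z (n 0 z (n 18 z (n 0 z z)))) (n 3 (n 26 z (n 0 z (n 6631715 z (n 0 z (n 0 z (n 0 z z)))))) (n
 1 (n 6561843 z (n 34 z z)) (n 0 (n 42 z (n 6631715 z (n 0 z (n 6631715 z (n 0 z (n 0 z (n 0 z
 (n 50 z z)))))))) z)))))) (n 1 (n 0 (n 67 (n 0 z (n 0 z (n 0 z (n 0 z (n 0 z z))))) (n 123 (n 0
 z (n 0 z (n 0 z (n 0 z (n 0 z z))))) (n 507 (n 0 z (n 0 z (n 0 z (n 0 z (n 0 z (n 0 z z))))))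
 (n 63 (n 0 z (n 0 z (n 0 z (n 0 z (n 0 z z))))) (n 65 (n 0 z (n 0 z (n 0 z (n 0 z (n 0 z (n 0 z
 (n 0 z (n 0 z z)))))))) (n 65 (n 0 z (n 0 z (n 2 z (n 0 z (n 0 z (n 0 z (n 0 z (n 0 z z))))))))
 z)))))) (n 0 (n 343 (n 0 z (n 0 z (n 0 z (n 0 z (n 0 z (n 0 z (n 0 z z))))))) (n 295 (n 0 z (n
 0 z (n 0 z (n 0 z (n 0 z (n 0 z (n 0 z (n 0 z (n 0 z (n 0 z (n 0 z z))))))))))) (n 291 (n 0 z
 (n 0 z (n 0 z (n 0 z (n 0 z z))))) (n 289 (n 0 z (n 0 z (n 0 z (n 0 z (n 0 z (n 0 z (n 0 z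
 z))))))) (n 289 (n 0 z (n 0 z (n 0 z (n 0 z (n 0 z (n 0 z (n 0 z z))))))) z))))) (n 0 (n 55 (n
 0 z (n 0 z (n 0 z (n 0 z (n 0 z z))))) (n 495 (n 0 z (n 0 z (n 0 z (n 0 z (n 0 z (n 0 z (n 0 z
 z))))))) (n 493 (n 0 z (n 0 z (n 0 z (n 0 z (n 0 z (n 0 z z)))))) (n 493 (n 0 z (n 0 z (n 0 z
 (n 0 z (n 0 z (n 0 z z)))))) z)))) (n 0 (n 735 (n 0 z (n 0 z (n 0 z z))) (n 733 (n 0 z (n 0 z
 (n 0 z (n 0 z z)))) (n 733 (n 0 z (n 0 z (n 0 z (n 0 z z)))) z))) (n 0 (n 977 (n 0 z (n 0 z (n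
 0 z (n 0 z (n 0 z (n 0 z (n 0 z (n 0 z (n 0 z (n 0 z z)))))))))) (n 977 (n 2 z (n 0 z (n 0 z (n
 0 z (n 0 z (n 0 z (n 0 z (n 0 z (n 0 z (n 0 z z)))))))))) z)) (n 0 (n 0 z z) (n 0 z z))))))) (n
 0 (n 1 (n 6561843 z (n 6561843 z (n 6561843 z (n 6561843 z (n 6561843 z (n 6561843 z z)))))) (n
 1 (n 4399203 z (n 2636 z (n 2 z (n 2636 z (n 2636 z (n 2636 z z)))))) z)) (n 0 (n 0 (n 0 (n 0
 (n 7754563 z (n 7754563 z (n 7754563 z (n 7754563 z (n 7754563 z (n 7754563 z z)))))) z) (n 0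
 (n 329 (n 1 (n 7610419 z (n 7610419 z (n 7610419 z (n 7610419 z (n 7610419 z (n 7610419 z
 z)))))) (n 1 (n 7754563 z (n 7754563 z (n 7754563 z (n 7754563 z (n 7754563 z (n 7754563 z
 z)))))) (n 0 z (n 0 z (n 0 z z))))) (n 153 (n 1 (n 2524 z (n 7545867 z (n 2524 z (n 7746059 z
 (n 7754507 z (n 2524 z z)))))) (n 1 (n 7610419 z (n 7610419 z (n 7610419 z (n 7610419 z (n
 7610419 z (n 7610419 z z)))))) (n 1 (n 7680291 z (n 7680291 z (n 7680291 z (n 7680291 z (n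
 7680291 z (n 7680291 z z)))))) (n 0 z (n 0 z z))))) (n 9 (n 1 (n 7610419 z (n 7610419 z (n
 7610419 z (n 7610419 z (n 7610419 z (n 7610419 z z)))))) (n 0 z (n 1 (n 7754563 z (n 7754563 z
 (n 7754563 z (n 7754563 z (n 7754563 z (n 7754563 z z)))))) (n 0 z z)))) (n 367 (n 1 (n 2164555
 z (n 7681067 z (n 7754563 z (n 7545867 z (n 2164555 z (n 2164555 z z)))))) (n 1 (n 7680291 z (n
 7680291 z (n 7680291 z (n 7680291 z (n 7680291 z (n 7680291 z z)))))) (n 0 z z))) (n 1 (n 1 (n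
 7610419 z (n 7610419 z (n 7610419 z (n 7610419 z (n 7610419 z (n 7610419 z z)))))) (n 1 (n
 7544931 z (n 7746059 z (n 7746059 z (n 7746059 z (n 7746059 z (n 7746059 z z)))))) z)) (n 607
 (n 0 z (n 1 (n 7680291 z (n 7680291 z (n 7680291 z (n 7680291 z (n 7680291 z (n 7680291 z
 z)))))) (n 1 (n 7680291 z (n 7680291 z (n 7680291 z (n 7680291 z (n 7680291 z (n 7680291 z
 z)))))) (n 0 z z)))) (n 1 (n 1 (n 7610419 z (n 7610419 z (n 7610419 z (n 7610419 z (n 7610419 z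
 (n 7610419 z z)))))) (n 1 (n 4399219 z (n 7746059 z (n 7754563 z (n 7746059 z (n 7746059 z (n
 7746059 z z)))))) z)) z))))))) (n 0 z (n 0 (n 153 (n 0 z (n 0 z (n 0 z (n 0 z (n 0 z z))))) (n
 303 (n 0 z (n 0 z (n 0 z (n 0 z (n 0 z z))))) (n 291 (n 0 z (n 0 z (n 0 z (n 0 z (n 0 z (n 0 z
 (n 0 z z))))))) (n 303 (n 0 z (n 0 z (n 0 z (n 0 z (n 0 z (n 0 z z)))))) (n 411 (n 0 z (n 0 z
 (n 0 z (n 0 z (n 0 z (n 0 z (n 0 z (n 0 z (n 0 z (n 0 z (n 0 z z))))))))))) (n 51 (n 0 z (n 0 z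
 (n 0 z (n 0 z (n 0 z z))))) (n 543 (n 0 z (n 0 z (n 0 z (n 0 z (n 0 z z))))) (n 531 (n 0 z (n 0
 z (n 0 z (n 0 z (n 0 z z))))) (n 493 (n 0 z (n 0 z (n 0 z (n 0 z (n 0 z (n 0 z (n 0 z z)))))))
 (n 487 (n 0 z (n 0 z (n 0 z z))) (n 665 (n 0 z (n 0 z (n 0 z (n 0 z (n 0 z (n 0 z (n 0 z (n 0 z
 z)))))))) (n 651 (n 0 z (n 0 z (n 0 z (n 0 z (n 0 z (n 0 z (n 0 z z))))))) (n 613 (n 0 z (n 0 z
 (n 0 z (n 0 z (n 0 z (n 0 z z)))))) (n 607 (n 0 z (n 0 z (n 0 z (n 0 z z)))) (n 608 (n 0 z (n 0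
 z (n 0 z (n 0 z (n 0 z (n 0 z (n 0 z (n 0 z (n 0 z (n 0 z z)))))))))) (n 329 (n 0 z (n 0 z (n 0
 z (n 0 z (n 0 z z))))) (n 315 (n 0 z (n 0 z (n 0 z (n 0 z (n 0 z (n 0 z z)))))) (n 9 (n 0 z (n
 0 z (n 0 z (n 0 z z)))) (n 3 (n 0 z (n 0 z (n 0 z (n 0 z (n 0 z (n 0 z z)))))) (n 1 (n 0 z (n 0
 z z)) (n 0 (n 0 z (n 0 z (n 0 z (n 0 z (n 0 z (n 0 z (n 0 z (n 0 z z))))))))
 z))))))))))))))))))))) z)))) z) z)))) (n 0x79a95a0b4694211 (n 0 (n 321 (n 0 z (n 0 z (n 3282443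
 z z))) (n 33 (n 0 z (n 2 z (n 0 z (n 0 z (n 0 z (n 0 z (n 0 z (n 6496515 z z)))))))) (n 53 (n
 6496515 z (n 0 z (n 0 z (n 0 z (n 0 z z))))) (n 27 (n 0 z (n 0 z (n 0 z (n 0 z (n 0 z (n 10 z
 (n 6496515 z z))))))) (n 7 (n 0 z (n 0 z (n 0 z (n 0 z (n 2164299 z z))))) (n 0 (n 0 z (n 18 z
 (n 0 z (n 0 z (n 0 z (n 0 z (n 0 z (n 0 z (n 2164315 z (n 0 z (n 0 z z))))))))))) z)))))) (n
 321 (n 0 (n 535 (n 0 z (n 0 z (n 0 z (n 0 z (n 0 z z))))) (n 533 (n 0 z (n 0 z (n 0 z (n 0 z (n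
 0 z (n 0 z (n 0 z (n 0 z (n 2 z (n 0 z (n 0 z z))))))))))) z)) (n 0 (n 53 (n 0 z (n 0 z (n 0 z
 (n 0 z (n 0 z (n 0 z (n 0 z z))))))) z) (n 0 z z))) (n 0 (n 0 z (n 0 z (n 1 (n 6496515 z (n
 3282443 z (n 3282443 z (n 3282443 z (n 3282443 z (n 3282443 z z)))))) z))) (n 0 z z)))) (n
 0x4cf5b52940 (n 0 (n 395 (n 0 z (n 0 z (n 2 z (n 0 z (n 0 z (n 0 z (n 0 z (n 0 z (n 6561875 z
 (n 0 z z)))))))))) (n 315 (n 0 z (n 3278363 z (n 0 z z))) (n 173 (n 6636083 z (n 0 z (n 0 z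
 z))) (n 27 (n 6632491 z (n 0 z (n 0 z (n 0 z z)))) (n 1 (n 0 z (n 0 z (n 0 z (n 0 z (n 0 z (n
 6636083 z (n 0 z z))))))) (n 0 (n 0 z (n 0 z (n 0 z (n 0 z (n 10 z (n 0 z (n 6636083 z (n 0 z
 (n 0 z (n 0 z z)))))))))) z)))))) (n 315 (n 0 (n 173 (n 0 z (n 0 z (n 0 z (n 0 z (n 0 z (n 0 z
 (n 2 z (n 0 z (n 0 z (n 0 z z)))))))))) z) (n 0 z z)) (n 0 (n 0 z (n 1 (n 3278363 z (n 3278363
 z (n 3278363 z (n 3278363 z (n 3278363 z (n 3278363 z z)))))) (n 0 z z))) (n 0 z z)))) (n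
 0x2e72d05aaa92154d422a44b152d290892d0474a4804b540 (n 0 (n 321 (n 0 z (n 2 z (n 0 z (n 0 z (n 0
 z (n 6496339 z (n 10 z z))))))) (n 255 (n 0 z (n 18 z (n 6496515 z (n 26 z z)))) (n 51 (n 34 z
 (n 0 z (n 42 z (n 6496515 z (n 0 z z))))) (n 27 (n 50 z (n 0 z (n 0 z (n 0 z (n 0 z (n 6496515
 z (n 0 z z))))))) (n 1 (n 0 z (n 0 z (n 0 z (n 6554395 z (n 0 z (n 0 z (n 0 z (n 0 z (n 0 z
 z))))))))) (n 0 (n 58 z (n 0 z (n 0 z (n 0 z (n 0 z (n 0 z (n 6619947 z (n 0 z (n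
 0x194d0c480e02c86c8420781827f7e81817f8080807f808080817f808080808080817f80807f808080807f808080808181808081817f807f80808081801009
 z (n
 0x4994d0c480e26c86c842079d796b6d637cd17f9c8b6198817f642981999d8ae87180538bbf60817d7f6777677a9979aa6d94863e9b596d5198a88261961009
 z (n 0 z (n 66 z (n 0 z (n 6619947 z z)))))))))))))) z)))))) (n 255 (n 0 (n 0 z (n 983 (n 0 z
 (n 0 z (n 0 z (n 0 z (n 0 z (n 0 z (n 0 z (n 0 z (n 0 z (n 0 z (n 0 z z))))))))))) (n 983 (n 0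
 z (n 0 z (n 0 z (n 0 z (n 0 z (n 0 z (n 2 (n 1 z (n 1 z (n 1 z (n 1 z (n 1 z z))))) (n 0 z (n 0
 z (n 0 z (n 0 z z))))))))))) (n 189 (n 0 z (n 0 z (n 0 z (n 0 z (n 0 z z))))) (n 189 (n 0 z (n
 0 z (n 0 z (n 2 (n 1 z (n 1 z (n 1 z z))) (n 0 z z))))) (n 981 (n 0 z (n 0 z (n 0 z (n 0 z (n 0
 z (n 0 z (n 0 z (n 0 z (n 0 z (n 0 z (n 0 z (n 0 z (n 0 z (n 0 z z)))))))))))))) (n 1057 (n 0 z
 (n 0 z (n 0 z (n 0 z z)))) (n 1057 (n 0 z (n 0 z (n 0 z (n 0 z z)))) z)))))))) (n 0 (n 631 (n 2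
 (n 0 z (n 1 z (n 1 z (n 1 z (n 1 z (n 1 z z)))))) (n 0 z (n 0 z (n 0 z z)))) (n 631 (n 0 z (n 0
 z (n 0 z (n 0 z z)))) (n 259 (n 0 z (n 0 z (n 0 z (n 0 z (n 0 z (n 0 z (n 0 z (n 0 z (n 0 z
 z))))))))) (n 259 (n 0 z (n 0 z (n 0 z (n 0 z (n 0 z (n 0 z (n 0 z (n 0 z (n 0 z z))))))))) (n
 55 (n 0 z (n 0 z (n 0 z (n 0 z (n 0 z z))))) (n 53 (n 0 z (n 0 z (n 0 z (n 0 z (n 0 z (n 0 z (n
 0 z (n 0 z (n 0 z (n 0 z z)))))))))) (n 53 (n 0 z (n 0 z (n 0 z (n 0 z (n 0 z (n 0 z (n 0 z (n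
 0 z (n 2 z (n 0 z z)))))))))) z))))))) (n 0 (n 0 z (n 423 (n 0 z (n 0 z (n 0 z (n 0 z (n 0 z (n
 0 z (n 0 z (n 0 z z)))))))) (n 423 (n 2 (n 1 z (n 1 z (n 1 z z))) (n 0 z (n 0 z (n 0 z (n 0 z
 (n 0 z (n 0 z (n 0 z z)))))))) (n 1071 (n 0 z (n 0 z (n 0 z (n 0 z (n 0 z z))))) (n 1069 (n 0 z
 (n 0 z (n 0 z (n 0 z (n 0 z (n 0 z (n 0 z (n 0 z (n 0 z (n 0 z (n 0 z (n 0 z (n 0 z (n 0 z (n 0
 z (n 0 z (n 0 z (n 0 z (n 0 z (n 0 z (n 0 z z))))))))))))))))))))) (n 1069 (n 0 z (n 0 z (n 0 z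
 (n 0 z (n 0 z (n 0 z (n 0 z (n 0 z (n 0 z (n 0 z (n 0 z (n 0 z (n 0 z (n 0 z (n 0 z (n 0 z (n 0
 z (n 0 z (n 0 z (n 0 z (n 0 z z))))))))))))))))))))) z)))))) (n 0 (n 103 (n 0 z (n 0 z (n 0 z
 z))) (n 103 (n 0 z (n 0 z (n 0 z z))) (n 487 (n 0 z (n 0 z z)) (n 485 (n 0 z (n 0 z (n 0 z (n 0
 z (n 2 (n 0 z z) (n 0 z (n 0 z (n 0 z (n 0 z (n 0 z (n 0 z (n 0 z (n 0 z (n 0 z (n 0 z (n 0 z
 (n 0 z z))))))))))))))))) (n 485 (n 0 z (n 0 z (n 0 z (n 0 z (n 0 z (n 0 z (n 0 z (n 0 z (n 0 z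
 (n 0 z (n 0 z (n 0 z (n 0 z (n 0 z (n 0 z (n 0 z (n 2 z z))))))))))))))))) z))))) (n 0 (n 0 z
 (n 661 (n 0 z (n 0 z (n 0 z (n 0 z (n 0 z (n 0 z (n 0 z (n 0 z z)))))))) (n 97 (n 0 z (n 0 z (n
 0 z (n 0 z (n 0 z (n 0 z (n 0 z (n 0 z z)))))))) (n 97 (n 0 z (n 0 z (n 0 z (n 0 z (n 0 z (n 0
 z (n 0 z (n 0 z z)))))))) z)))) (n 0 (n 7 (n 0 z (n 0 z (n 0 z (n 0 z (n 0 z (n 0 z (n 0 z
 z))))))) (n 733 (n 0 z (n 0 z (n 2 (n 0 z z) (n 0 z (n 0 z (n 0 z (n 0 z (n 0 z (n 0 z (n 0 z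
 (n 0 z z))))))))))) (n 733 (n 0 z (n 0 z (n 0 z (n 0 z (n 0 z (n 0 z (n 0 z (n 0 z (n 0 z (n 0
 z (n 0 z z))))))))))) z))) (n 0 (n 49 (n 0 z (n 0 z (n 0 z (n 0 z (n 0 z (n 0 z (n 0 z (n 0 z
 (n 0 z (n 0 z z)))))))))) (n 49 (n 0 z (n 0 z (n 0 z (n 0 z (n 0 z (n 0 z (n 0 z (n 0 z (n 0 z
 (n 0 z z)))))))))) z)) (n 0 (n 0 z z) (n 0 z z))))))))) (n 0 (n 0 z (n 1 (n 2572 z (n 2572 z (n
 6554395 z (n 2572 z (n 12 z (n 2572 z z)))))) (n 1 (n 6496515 z (n 6496515 z (n 6496515 z (n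
 6496515 z (n 6496515 z (n 6496515 z z)))))) (n 1 (n 412 z (n 2572 z (n 2572 z (n 2572 z (n
 6554395 z (n 2572 z z)))))) z)))) (n 0 z z)))) z)))))))))), by decide +kernel⟩
theorem i10687 : ∃ t, chkR KT RW t 10687 10697 = true := ⟨(n
 0x14dad08e92e07492059d990d23c88914883ab238426b411 (n 0 (n 441 (n 0 z (n 0 z (n 0 z (n 3282443 z
 (n 0 z z))))) (n 435 (n 2 z (n 0 z (n 0 z (n 3278363 z (n 6427963 z (n 0 z (n 0 z (n 0 z (n 10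
 z z))))))))) (n 9 (n 0 z (n 0 z (n 0 z (n 0 z (n 0 z (n 18 z (n 0 z (n 6631955 z (n 0 z (n 0 z
 (n 0 z (n 0 z (n 0 z (n 0 z (n 26 z (n 0 z z)))))))))))))))) (n 3 (n 0 z (n 0 z (n 6631955 z (n
 0 z (n 0 z (n 6631955 z (n 0 z (n 34 z (n
 0x36c201a61082082082089f82082082082082082081f82182191c91d82082492091c82282172281ea207220081 z
 (n 0x36c401a62082082082089f82082082082082082081f82182191c91d82082492091c82282172281ea207220081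
 z z)))))))))) (n 1 (n 0 z (n 0 z (n 6636323 z (n 42 z (n 6636323 z (n 50 z (n 0 z z))))))) (n 0
 (n 0 z (n 0 z (n 58 z (n 0 z (n 66 z (n 0 z (n 0 z (n 0 z (n 0 z (n 6631955 z (n 0 z
 z))))))))))) z)))))) (n 441 (n 0 (n 0 z (n 867 (n 0 z (n 0 z (n 0 z (n 0 z (n 0 z (n 2 (n 0 z
 (n 1 z (n 1 z (n 1 z (n 1 z (n 1 z z)))))) (n 0 z (n 0 z z)))))))) (n 867 (n 0 z (n 0 z (n 0 z
 (n 0 z (n 0 z (n 0 z (n 0 z (n 0 z z)))))))) (n 55 (n 0 z (n 0 z (n 0 z (n 0 z (n 0 z (n 0 z (n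
 0 z z))))))) (n 51 (n 0 z (n 0 z (n 0 z (n 0 z (n 2 (n 0 z (n 1 z (n 1 z z))) (n 0 z (n 0 z
 z))))))) (n 51 (n 0 z (n 0 z (n 0 z (n 0 z (n 0 z (n 0 z (n 0 z z))))))) (n 49 (n 0 z (n 0 z (n
 0 z (n 0 z (n 0 z (n 0 z z)))))) (n 49 (n 0 z (n 0 z (n 0 z (n 0 z (n 0 z (n 0 z z))))))
 z)))))))) (n 0 (n 879 (n 0 z (n 0 z (n 0 z (n 0 z (n 0 z z))))) (n 879 (n 0 z (n 0 z (n 0 z (n
 0 z (n 0 z z))))) (n 81 (n 0 z (n 0 z (n 0 z (n 0 z (n 0 z (n 0 z (n 0 z (n 0 z (n 0 z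
 z))))))))) (n 69 (n 2 (n 0 z (n 1 z (n 1 z z))) (n 0 z (n 0 z (n 0 z (n 0 z z))))) (n 69 (n 0 z
 (n 0 z (n 0 z (n 0 z (n 0 z z))))) (n 877 (n 0 z (n 0 z (n 0 z (n 0 z (n 0 z (n 0 z (n 0 z (n 0
 z (n 0 z (n 0 z z)))))))))) (n 877 (n 0 z (n 0 z (n 0 z (n 0 z (n 0 z (n 0 z (n 0 z (n 0 z (n 0
 z (n 2 z z)))))))))) z))))))) (n 0 (n 0 z (n 33 (n 0 z (n 0 z (n 0 z z))) (n 261 (n 0 z (n 0 z
 (n 0 z (n 0 z (n 0 z (n 0 z (n 0 z z))))))) (n 261 (n 0 z (n 2 (n 1 z (n 1 z z)) (n 0 z (n 0 z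
 (n 0 z (n 0 z (n 0 z z))))))) (n 865 (n 0 z (n 0 z (n 0 z (n 0 z (n 0 z (n 0 z (n 0 z (n 0 z (n
 0 z (n 0 z (n 0 z (n 0 z (n 0 z (n 0 z (n 0 z (n 0 z z)))))))))))))))) (n 865 (n 0 z (n 0 z (n
 0 z (n 0 z (n 0 z (n 0 z (n 0 z (n 0 z (n 0 z (n 0 z (n 0 z (n 0 z (n 0 z (n 0 z (n 0 z (n 0 z
 z)))))))))))))))) z)))))) (n 0 (n 33 (n 0 z (n 0 z (n 0 z (n 0 z (n 0 z (n 0 z (n 0 z (n 0 z
 z)))))))) (n 261 (n 0 z (n 2 (n 0 z (n 1 z (n 1 z z))) (n 0 z (n 0 z (n 0 z (n 0 z (n 0 z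
 z))))))) (n 261 (n 0 z (n 0 z (n 0 z (n 0 z (n 0 z (n 0 z (n 0 z z))))))) (n 889 (n 0 z (n 0 z
 (n 0 z (n 0 z (n 0 z (n 0 z (n 0 z (n 0 z (n 0 z (n 0 z (n 0 z z))))))))))) (n 889 (n 0 z (n 0
 z (n 0 z (n 0 z (n 0 z (n 0 z (n 0 z (n 0 z (n 0 z (n 2 z (n 0 z z))))))))))) z))))) (n 0 (n 9
 (n 0 z (n 0 z (n 0 z (n 0 z (n 0 z (n 0 z z)))))) (n 9 (n 0 z (n 0 z (n 0 z (n 0 z (n 0 z (n 0
 z z)))))) (n 5 (n 0 z (n 0 z (n 0 z (n 0 z (n 0 z (n 0 z (n 0 z (n 0 z (n 0 z (n 0 z (n 0 z (n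
 0 z (n 0 z z))))))))))))) (n 5 (n 0 z (n 0 z (n 0 z (n 0 z (n 0 z (n 0 z (n 0 z (n 0 z (n 0 z
 (n 0 z (n 0 z (n 0 z (n 0 z z))))))))))))) z)))) (n 0 (n 0 z (n 1 (n 0 z (n 0 z (n 0 z (n 0 z
 (n 0 z z))))) (n 1 (n 0 z (n 0 z (n 0 z (n 0 z (n 0 z z))))) z))) (n 0 (n 1 (n 0 z (n 0 z (n 0
 z (n 0 z (n 0 z (n 0 z (n 0 z (n 0 z (n 0 z (n 0 z z)))))))))) (n 1 (n 0 z (n 0 z (n 0 z (n 0 z
 (n 0 z (n 0 z (n 2 z (n 0 z (n 0 z (n 0 z z)))))))))) z)) (n 0 (n 0 z z) (n 0 z z))))))))) (n 0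
 (n 0 z (n 0 z (n 0 z (n 1 (n 3282443 z (n 3282443 z (n 3282443 z (n 3282443 z (n 3282443 z (n
 3282443 z z)))))) (n 0 z z))))) (n 0 z z)))) (n 0xc0b4630a97350d16e8d736452dea422b52c12caa19 (n
 0 (n 587 (n 3282443 z (n 0 z (n 0 z (n 0 z z)))) (n 33 (n 2 z (n 3278363 z (n 10 z (n 0 z z))))
 (n 583 (n 18 z (n 0 z (n 0 z (n 6631955 z z)))) (n 3 (n
 0x16ca6a8040383c7d47e47e27b481882985e80a79c7cc83f80f8e18907bf78f8137107607e68578ae7d28487697387f08b18318008fe88f8787537527ad81e88679b7c97ae8008808237d281d80c83b7c00811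
 z (n 0 z (n 6631955 z (n 0 z (n 0 z (n 0 z (n 26 z (n 0 z (n 6631955 z (n 34 z (n 0 z (n 0 z (n
 0 z (n 0 z (n 0 z (n 0 z (n 6631955 z (n 0 z (n 0 z (n 42 z z)))))))))))))))))))) (n 1 (n
 2164299 z (n 50 z (n 0 z (n 0 z (n 0 z (n 58 z z)))))) (n 0 (n 0 z (n 6631955 z (n 0 z (n 0 z
 z)))) z)))))) (n 587 (n 0 (n 0 z (n 1053 (n 2 (n 1 z (n 2 (n 0 z (n 0 z (n 0 z (n 0 z (n 0 z (n
 0 z z)))))) (n 2 (n 0 z (n 0 z (n 0 z (n 0 (n 8855811 z (n 8855811 z z)) (n 0 (n 8855811 z z)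
 (n 0 (n 8855811 z z) z)))))) (n 1 z (n 1 z z))))) (n 0 z (n 0 z (n 0 z (n 0 z z))))) (n 1045 (n
 0 z (n 0 z (n 0 z (n 0 z (n 0 z (n 0 z (n 0 z (n 0 z (n 0 z (n 0 z (n 0 z (n 0 z (n 0 z (n 0 z
 (n 0 z z))))))))))))))) (n 1045 (n 0 z (n 0 z (n 0 z (n 0 z (n 0 z (n 0 z (n 0 z (n 0 z (n 0 z
 (n 0 z (n 0 z (n 0 z (n 0 z (n 0 z (n 0 z z))))))))))))))) (n 1045 (n 0 z (n 0 z (n 0 z (n 0 z
 (n 2 (n 1 z (n 1 z z)) (n 0 z (n 0 z (n 0 z (n 0 z (n 0 z (n 0 z (n 0 z (n 0 z (n 0 z (n 0 z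
 z))))))))))))))) (n 51 (n 0 z (n 0 z (n 0 z (n 0 z (n 0 z z))))) (n 51 (n 0 z (n 0 z (n 0 z (n
 0 z (n 2 z z))))) z))))))) (n 0 (n 259 (n 0 z (n 0 z (n 0 z (n 0 z (n 0 z (n 0 z (n 0 z (n 0 z
 z)))))))) (n 7 (n 0 z (n 0 z (n 2 (n 0 z (n 0 z (n 1 z (n 1 z z)))) (n 0 z (n 0 z (n 0 z (n 0 z
 (n 0 z (n 0 z (n 0 z z)))))))))) (n 7 (n 0 z (n 0 z (n 0 z (n 0 z (n 0 z (n 0 z (n 0 z (n 0 z
 (n 0 z (n 0 z z)))))))))) (n 7 (n 0 z (n 0 z (n 0 z (n 0 z (n 0 z (n 0 z (n 0 z (n 0 z (n 0 z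
 (n 0 z z)))))))))) (n 3 (n 0 z (n 0 z (n 2 (n 0 z z) (n 0 z (n 0 z (n 0 z z)))))) (n 3 (n 0 z
 (n 0 z (n 0 z (n 0 z (n 0 z (n 0 z z)))))) z)))))) (n 0 (n 7 (n 0 z (n 0 z (n 0 z (n 0 z (n 0 z
 (n 2 (n 0 z (n 0 z (n 1 z (n 1 z z)))) (n 0 z (n 0 z (n 0 z (n 0 z (n 0 z (n 0 z (n 0 z (n 0 z
 (n 0 z (n 0 z (n 0 z (n 0 z (n 0 z (n 0 z (n 0 z (n 0 z z)))))))))))))))))))))) (n 7 (n 0 z (n
 0 z (n 0 z (n 0 z (n 0 z (n 0 z (n 0 z (n 0 z (n 0 z (n 0 z (n 0 z (n 0 z (n 0 z (n 0 z (n 0 z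
 (n 0 z (n 0 z (n 0 z (n 0 z (n 0 z (n 0 z (n 0 z z)))))))))))))))))))))) (n 7 (n 0 z (n 0 z (n
 0 z (n 0 z (n 0 z (n 0 z (n 0 z (n 0 z (n 0 z (n 0 z (n 0 z (n 0 z (n 0 z (n 0 z (n 0 z (n 0 z
 (n 0 z (n 0 z (n 0 z (n 0 z (n 0 z (n 0 z z)))))))))))))))))))))) (n 51 (n 0 z (n 0 z (n 0 z (n
 0 z (n 0 z (n 0 z z)))))) (n 51 (n 0 z (n 0 z (n 0 z (n 0 z (n 0 z (n 0 z z)))))) z))))) (n 0
 (n 0 z (n 0 z (n 255 (n 0 z (n 0 z (n 0 z (n 0 z (n 0 z (n 0 z (n 0 z z))))))) (n 255 (n 0 z (n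
 0 z (n 0 z (n 0 z (n 0 z (n 2 z (n 0 z z))))))) z)))) (n 0 (n 0 z (n 9 (n 0 z (n 0 z (n 0 z (n
 0 z (n 0 z (n 0 z (n 2 (n 0 z z) z))))))) (n 9 (n 0 z (n 0 z (n 0 z (n 0 z (n 0 z (n 0 z (n 0 z
 z))))))) z))) (n 0 (n 15 (n 0 z (n 0 z (n 0 z (n 0 z (n 2 (n 0 z z) (n 0 z (n 0 z z))))))) (n
 15 (n 0 z (n 0 z (n 0 z (n 0 z (n 0 z (n 0 z (n 0 z z))))))) z)) (n 0 (n 0 z z) (n 0 z
 z)))))))) (n 0 (n 1 (n 3282443 z (n 3282443 z (n 3282443 z (n 3282443 z (n 3282443 z (n 3282443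
 z z)))))) (n 0 z (n 0 z (n 0 z z)))) (n 0 z z)))) (n 0x6a6ba335550cd4a96424b3a42259a11 (n 0 (n
 201 (n 0 z (n 6557779 z (n 0 z z))) (n 57 (n 2 z (n 6496515 z (n 6496515 z (n 10 z z)))) (n 9
 (n 0 z (n 18 z (n 0 z (n 6496515 z z)))) (n 3 (n 0 z (n 0 z (n 6496515 z (n 0 z (n 0 z z)))))
 (n 1 (n 0 z (n 6557779 z z)) (n 0 (n 0 z (n 0 z (n 0 z (n 0 z (n 26 z (n 0 z (n 0 z (n 0 z (n 0
 z (n 6632003 z (n 6632003 z (n 0 z (n 0 z (n 0 z (n 34 z (n 0 z (n 42 z z)))))))))))))))))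
 z)))))) (n 1 (n 0 (n 0 z (n 779 (n 0 z (n 0 z (n 0 z (n 0 z (n 0 z (n 0 z (n 0 z (n 0 z (n 0 z
 (n 0 z (n 0 z z))))))))))) (n 721 (n 0 z (n 0 z (n 0 z (n 0 z (n 0 z (n 0 z (n 0 z (n 0 z (n 0
 z (n 0 z z)))))))))) (n 721 (n 0 z (n 0 z (n 0 z (n 0 z (n 0 z (n 0 z (n 0 z (n 0 z (n 0 z (n 0
 z z)))))))))) (n 721 (n 0 z (n 0 z (n 0 z (n 0 z (n 0 z (n 0 z (n 0 z (n 0 z (n 0 z (n 0 z
 z)))))))))) z))))) (n 0 (n 103 (n 0 z (n 2 (n 1 z (n 2 (n 0 z (n 0 z (n 0 z (n 0 (n 8652651 z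
 (n 1924 z z)) (n 0 z (n 0 (n 6494299 z z) z)))))) (n 1 z z))) (n 0 z (n 0 z (n 0 z (n 0 z (n 0
 z z))))))) (n 481 (n 0 z (n 0 z (n 0 z (n 0 z (n 0 z (n 0 z (n 0 z (n 0 z (n 0 z (n 0 z
 z)))))))))) (n 481 (n 0 z (n 0 z (n 0 z (n 0 z (n 0 z (n 0 z (n 0 z (n 0 z (n 0 z (n 0 z
 z)))))))))) (n 481 (n 0 z (n 0 z (n 0 z (n 0 z (n 0 z (n 0 z (n 0 z (n 0 z (n 2 z (n 0 z
 z)))))))))) z)))) (n 0 (n 733 (n 0 z (n 0 z (n 0 z (n 0 z (n 0 z (n 0 z (n 0 z (n 0 z (n 0 z (n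
 0 z (n 0 z (n 0 z (n 0 z (n 0 z (n 0 z (n 0 z (n 0 z (n 0 z (n 0 z (n 0 z (n 0 z
 z))))))))))))))))))))) (n 733 (n 0 z (n 0 z (n 0 z (n 0 z (n 0 z (n 0 z (n 0 z (n 0 z (n 0 z (n
 0 z (n 0 z (n 0 z (n 0 z (n 0 z (n 0 z (n 0 z (n 0 z (n 0 z (n 0 z (n 0 z (n 0 z
 z))))))))))))))))))))) (n 733 (n 0 z (n 0 z (n 0 z (n 0 z (n 0 z (n 0 z (n 0 z (n 0 z (n 0 z (n
 0 z (n 0 z (n 0 z (n 0 z (n 0 z (n 0 z (n 0 z (n 0 z (n 0 z (n 0 z (n 0 z (n 0 z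
 z))))))))))))))))))))) z))) (n 0 (n 0 z (n 0 z z)) (n 0 (n 0 z z) (n 0 z z)))))) (n 0 (n 0 z (n
 1 (n 6557779 z (n 6557779 z (n 6557779 z (n 6557779 z (n 6632003 z (n 6557779 z z)))))) z)) (n
 0 z z)))) (n 0x63a4b310d2588916cd02616822b1c21 (n 0 (n 405 (n 0 z (n 0 z (n 6623283 z (n 0 z (n
 0 z (n 0 z z)))))) (n 33 (n 6623283 z (n 0 z (n 0 z (n 0 z (n 0 z (n 2 z (n 6623283 z (n 10 z
 (n 0 z (n 18 z z)))))))))) (n 129 (n 6627395 z (n 26 z (n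
 0x14ca4a208037607629a095985e79b7df7638a19e35d75f185e69e8a171e6688e47a271a6235f05edc215710801 z
 (n 34 z (n 0 z (n 0 z (n 6566419 z z))))))) (n 3 (n 6566419 z (n 0 z z)) (n 1 (n 0 z (n 0 z (n
 0 z (n 6566419 z (n 0 z z))))) (n 0 (n 0 z (n 0 z (n
 0x3c6101db080e984072c203861089d7a48229e36e05a196d8236239db9d85aa62071c9a272556c72b51c7ac6685e462992222c0141
 z (n 6623283 z (n 0 z (n 42 z (n 0 z z))))))) z)))))) (n 3 (n 0 (n 0 z (n 0 z (n 807 (n 0 z (n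
 0 z (n 0 z (n 0 z (n 0 z (n 0 z (n 0 z (n 0 z (n 0 z (n 0 z z)))))))))) (n 807 (n 0 z (n 0 z (n
 0 z (n 0 z (n 0 z (n 0 z (n 0 z (n 0 z (n 0 z (n 0 z z)))))))))) (n 65 (n 0 z (n 0 z (n 0 z (n
 0 z (n 0 z z))))) z))))) (n 0 (n 0 z (n 391 (n 0 z (n 0 z (n 0 z (n 0 z (n 0 z (n 0 z (n 0 z (n
 0 z z)))))))) (n 391 (n 0 z (n 0 z (n 0 z (n 0 z (n 2 (n 1 z z) (n 0 z (n 0 z (n 0 z z))))))))
 (n 49 (n 0 z (n 0 z (n 0 z (n 0 z (n 0 z (n 0 z (n 0 z z))))))) z)))) (n 0 (n 19 (n 0 z (n 0 z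
 (n 0 z (n 0 z (n 0 z z))))) (n 19 (n 0 z (n 0 z (n 0 z (n 0 z (n 0 z z))))) (n 1 (n 0 z (n 0 z
 (n 0 z (n 0 z (n 0 z (n 0 z z)))))) z))) (n 0 (n 0 z (n 257 (n 0 z (n 0 z (n 0 z (n 0 z (n 0 z
 (n 0 z (n 0 z z))))))) z)) (n 0 (n 13 (n 0 z (n 0 z (n 0 z (n 0 z (n 0 z (n 0 z (n 0 z (n 0 z
 (n 0 z (n 0 z (n 0 z (n 0 z (n 0 z (n 0 z (n 2 z (n 0 z z)))))))))))))))) z) (n 0 z z)))))) (n
 0 (n 1 (n 6566419 z (n 6566419 z (n 6566419 z (n 6566419 z (n 6566419 z (n 6566419 z z)))))) (n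
 0 z z)) (n 0 z z)))) (n 0x585ba1c65d0dc4ed70169a60a49b09a (n 0 (n 153 (n 0 z (n 0 z (n 0 z (n 0
 z (n 0 z (n 0 z (n 3282443 z (n 0 z z)))))))) (n 57 (n 0 z (n 0 z (n 0 z (n 0 z (n 0 z (n 0 z
 (n 6496515 z (n 0 z (n 0 z z))))))))) (n 9 (n 2 z (n 10 z (n 18 z (n 6496515 z (n
 0x2ca8ca86037a27df91f8218608208217a082181f81f7e182089e8217a186085f7de86185f8607a18607e10801 z
 z))))) (n 3 (n 0 z (n 0 z (n 0 z (n 0 z (n 0 z (n 0 z (n 6496515 z (n 0 z (n 0 z (n 0 z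
 z)))))))))) (n 1 (n 0 z (n 0 z (n 0 z (n 0 z (n 6554411 z (n 0 z z)))))) (n 0 (n 26 z (n 34 z
 (n 2164315 z (n 42 z (n 0 z z))))) z)))))) (n 9 (n 0 (n 0 z (n 0 z (n 13 (n 0 z (n 0 z (n 0 z
 (n 0 z (n 0 z z))))) (n 13 (n 0 z (n 0 z (n 0 z (n 0 z (n 0 z z))))) (n 13 (n 0 z (n 0 z (n 2 z
 (n 0 z (n 0 z z))))) z))))) (n 0 (n 0 z (n 241 (n 0 z (n 0 z (n 0 z (n 0 z z)))) (n 241 (n 0 z
 (n 6561907 z (n 0 z (n 0 z z)))) (n 241 (n 0 z (n 0 z (n 0 z (n 0 z z)))) z)))) (n 0 (n 241 (n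
 0 z (n 0 z (n 0 z (n 0 z (n 0 z (n 0 z z)))))) (n 241 (n 0 z (n 0 z (n 0 z (n 0 z (n 0 z (n 0 z
 z)))))) (n 241 (n 0 z (n 0 z (n 0 z (n 2 z (n 0 z (n 0 z z)))))) z))) (n 0 (n 0 z (n 0 z z)) (n
 0 (n 0 z z) (n 0 z z)))))) (n 0 (n 1 (n 1228 z (n 6488603 z (n 4399203 z (n 1228 z (n 1228 z (n
 1228 z z)))))) (n 1 (n 6488603 z (n 1228 z (n 6554411 z (n 1228 z (n 1228 z (n 1228 z z))))))
 (n 1 (n 5379595 z (n 1228 z (n 1228 z (n 6554411 z (n 1228 z (n 1228 z z)))))) (n 1 (n 6496515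
 z (n 6496515 z (n 6496515 z (n 6496515 z (n 6496515 z (n 6496515 z z)))))) (n 1 (n 1228 z (n
 1228 z (n 6488603 z (n 6554411 z (n 1228 z (n 1228 z z)))))) z))))) (n 0 z z)))) (n
 0x1ac66829176108b658aab8502d1642aa1483259a80 (n 0 (n 177 (n 0 z (n 2 z (n 0 z (n 0 z (n 0 z (n
 0 z (n 6631491 z z))))))) (n 255 (n 0 z (n 0 z (n 0 z (n 0 z (n 0 z (n 0 z (n 10 z (n 6558475 z
 (n 0 z z))))))))) (n 171 (n 18 z (n 26 z (n 0 z (n 3212843 z z)))) (n 27 (n 34 z (n 6631491 z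
 (n 42 z z))) (n 1 (n 0 z (n 0 z (n 0 z (n 0 z (n 6558475 z z))))) (n 0 (n 50 z (n 0 z (n 0 z (n
 0 z (n 6631491 z (n 6631491 z (n 0 z (n 0 z (n 58 z (n 0 z z)))))))))) z)))))) (n 27 (n 0 (n
 143 (n 0 z (n 0 z (n 0 z (n 0 z (n 0 z z))))) (n 731 (n 0 z (n 0 z (n 0 z (n 0 z (n 0 z (n 0 z
 (n 0 z (n 0 z (n 0 z (n 0 z (n 0 z z))))))))))) (n 731 (n 0 z (n 0 z (n 0 z (n 0 z (n 0 z (n 0
 z (n 0 z (n 0 z (n 0 z (n 0 z (n 0 z z))))))))))) (n 201 (n 0 z (n 0 z (n 0 z (n 0 z (n 0 z (n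
 0 z (n 0 z z))))))) (n 201 (n 0 z (n 0 z (n 2 (n 1 z (n 1 z z)) (n 0 z (n 0 z (n 0 z (n 0 z
 z))))))) (n 769 (n 0 z (n 0 z (n 0 z (n 0 z z)))) (n 769 (n 0 z (n 0 z (n 0 z (n 0 z z))))
 z))))))) (n 0 (n 411 (n 2 (n 0 z (n 1 z (n 1 z (n 1 z (n 2 (n 0 z (n 0 (n 6490155 z (n 6490155
 z z)) (n 0 (n 1604 z (n 8656683 z z)) (n 0 (n 1604 z (n 8656683 z z)) (n 0 z (n 0 z z))))))
 z))))) (n 0 z (n 0 z (n 0 z z)))) (n 411 (n 0 z (n 0 z (n 0 z (n 0 z z)))) (n 399 (n 2 (n 0 z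
 (n 2 (n 0 z (n 0 z (n 0 z (n 0 (n 3278955 z z) (n 0 z (n 0 (n 3278955 z (n 3278955 z z))
 z)))))) (n 2 (n 0 z (n 0 (n 6490155 z (n 6490155 z z)) (n 0 (n 1604 z (n 8656683 z z)) (n 0 (n
 1604 z (n 8656683 z z)) (n 0 z (n 0 z z)))))) z))) (n 0 z (n 0 z (n 0 z (n 0 z (n 0 z (n 0 z (n
 0 z (n 0 z (n 0 z (n 0 z (n 0 z (n 0 z (n 0 z (n 0 z z))))))))))))))) (n 399 (n 0 z (n 0 z (n 0
 z (n 0 z (n 0 z (n 0 z (n 0 z (n 0 z (n 0 z (n 0 z (n 0 z (n 0 z (n 0 z (n 0 z (n 0 z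
 z))))))))))))))) (n 401 (n 0 z (n 0 z (n 0 z (n 0 z (n 0 z (n 0 z (n 0 z (n 0 z (n 0 z (n 0 z
 z)))))))))) (n 401 (n 0 z (n 0 z (n 0 z (n 0 z (n 0 z (n 0 z (n 0 z (n 0 z (n 0 z (n 0 z
 z)))))))))) z)))))) (n 0 (n 0 z (n 693 (n 0 z (n 0 z (n 0 z (n 0 z z)))) (n 693 (n 0 z (n 0 z
 (n 2 (n 1 z (n 1 z z)) (n 0 z z)))) (n 781 (n 0 z (n 0 z (n 0 z (n 0 z (n 0 z (n 0 z (n 0 z (n
 0 z (n 0 z (n 0 z z)))))))))) (n 781 (n 0 z (n 0 z (n 0 z (n 0 z (n 0 z (n 0 z (n 0 z (n 0 z (n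
 0 z (n 0 z z)))))))))) z))))) (n 0 (n 295 (n 2 (n 0 z (n 1 z (n 1 z z))) (n 0 z (n 0 z (n 0 z
 z)))) (n 295 (n 0 z (n 0 z (n 0 z (n 0 z z)))) (n 301 (n 0 z (n 0 z (n 0 z (n 0 z (n 0 z (n 0 z
 (n 0 z (n 0 z (n 0 z (n 0 z (n 0 z (n 0 z (n 0 z (n 0 z (n 0 z (n 0 z (n 0 z z)))))))))))))))))
 (n 301 (n 0 z (n 0 z (n 0 z (n 0 z (n 0 z (n 0 z (n 0 z (n 0 z (n 0 z (n 0 z (n 0 z (n 0 z (n 0
 z (n 0 z (n 0 z (n 0 z (n 0 z z))))))))))))))))) z)))) (n 0 (n 0 z (n 1 (n 2 (n 0 z z) (n 0 z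
 (n 0 z (n 0 z z)))) (n 1 (n 0 z (n 0 z (n 0 z (n 0 z z)))) z))) (n 0 (n 1 (n 0 z (n 0 z (n 0 z
 (n 0 z (n 0 z (n 0 z (n 0 z (n 0 z (n 0 z (n 0 z (n 0 z (n 0 z (n 0 z (n 0 z (n 0 z (n 0 z (n 0
 z (n 0 z (n 0 z (n 0 z (n 0 z z))))))))))))))))))))) (n 1 (n 0 z (n 0 z (n 0 z (n 0 z (n 0 z (n
 0 z (n 0 z (n 0 z (n 0 z (n 0 z (n 0 z (n 0 z (n 0 z (n 0 z (n 0 z (n 0 z (n 0 z (n 0 z (n 0 z
 (n 0 z (n 0 z z))))))))))))))))))))) z)) (n 0 (n 0 z z) (n 0 z z)))))))) (n 0 (n 1 (n 2044 z (n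
 1420 z (n 1420 z (n 1420 z (n 6558475 z (n 1420 z z)))))) (n 1 (n 6631491 z (n 6631491 z (n
 6631491 z (n 6631491 z (n 6631491 z (n 6631491 z z)))))) (n 1 (n 1420 z (n 1420 z (n 6558475 z
 (n 1420 z (n 1420 z (n 1420 z z)))))) z))) (n 0 z z)))) (n
 0x6ed2e1223211b466055bca04543468b290130dc21 (n 0 (n 299 (n 0 z (n 3282443 z (n 0 z z))) (n 413
 (n 2 z (n 10 z (n
 0x28a64ca28037293826f8f807c9c7e83808b876c5a7a807d81428390918079ae9d8f85807771c36883567792b3677652798e9a7c717994780809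
 z (n 3278363 z (n 0 z (n 0 z (n 0 z z))))))) (n 9 (n 0 z (n 18 z (n 6566403 z (n 26 z z)))) (n
 3 (n 34 z (n 0 z (n 6566403 z (n 0 z (n 6566403 z (n 0 z (n 0 z (n 42 z (n 0 z (n 0 z
 z)))))))))) (n 289 (n 0 z (n 0 z (n 0 z (n 0 z (n 0 z (n 6566403 z (n 0 z (n 0 z (n 0 z (n 0 z
 (n 0 z (n 0 z (n 0 z (n 0 z (n 50 z (n 0 z z)))))))))))))))) (n 0 (n 58 z (n 0 z (n 0 z (n 0 z
 (n 6620203 z (n 0 z (n 0 z (n 0 z (n 0 z (n 0 z (n 0 z (n 0 z (n 0 z (n 0 z (n 0 z (n 0 z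
 z)))))))))))))))) z)))))) (n 299 (n 0 (n 0 z (n 1015 (n 0 z (n 0 z (n 0 z (n 0 z (n 0 z (n 0 z
 (n 0 z (n 0 z z)))))))) (n 1015 (n 0 z (n 0 z (n 0 z (n 0 z (n 0 z (n 0 z (n 2 (n 1 z (n 1 z (n
 1 z (n 2 (n 0 (n 3278955 z z) (n 0 z (n 0 (n 3278955 z (n 8718107 z z)) (n 0 z (n 0 z (n 0 (n
 3278955 z z) z)))))) z)))) (n 0 z z)))))))) (n 1017 (n 0 z (n 0 z (n 0 z (n 0 z (n 0 z (n 0 z
 (n 0 z (n 0 z (n 0 z (n 0 z z)))))))))) (n 1017 (n 0 z (n 0 z (n 0 z (n 0 z (n 0 z (n 0 z (n 0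
 z (n 0 z (n 0 z (n 0 z z)))))))))) (n 825 (n 0 z (n 0 z (n 0 z (n 0 z (n 0 z (n 0 z (n 0 z (n 0
 z (n 0 z (n 0 z z)))))))))) (n 821 (n 0 z (n 0 z (n 0 z (n 0 z (n 0 z (n 0 z (n 0 z (n 0 z
 z)))))))) z))))))) (n 0 (n 31 (n 0 z (n 0 z (n 0 z (n 2 (n 0 z (n 1 z (n 1 z (n 1 z (n 1 z
 z))))) (n 0 z (n 0 z (n 0 z (n 0 z (n 0 z z))))))))) (n 31 (n 0 z (n 0 z (n 0 z (n 0 z (n 0 z
 (n 0 z (n 0 z (n 0 z (n 0 z z))))))))) (n 27 (n 0 z (n 0 z (n 0 z (n 0 z (n 0 z (n 0 z (n 0 z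
 (n 0 z (n 0 z (n 0 z z)))))))))) (n 27 (n 0 z (n 0 z (n 0 z (n 0 z (n 0 z (n 0 z (n 0 z (n 0 z
 (n 0 z (n 0 z z)))))))))) (n 825 (n 0 z (n 0 z (n 0 z (n 0 z (n 0 z (n 0 z (n 0 z z))))))) (n
 29 (n 0 z (n 0 z (n 0 z (n 0 z (n 0 z (n 2 z z)))))) z)))))) (n 0 (n 0 z (n 1065 (n 0 z (n 0 z
 (n 0 z (n 0 z (n 0 z z))))) (n 1065 (n 0 z (n 0 z (n 0 z (n 0 z (n 0 z z))))) (n 15 (n 0 z (n 0
 z (n 0 z (n 0 z (n 2 (n 1 z z) z))))) (n 17 (n 0 z (n 0 z (n 0 z (n 0 z (n 0 z (n 0 z (n 0 z (n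
 0 z (n 0 z (n 0 z (n 0 z (n 0 z (n 0 z (n 0 z (n 0 z (n 0 z z)))))))))))))))) z))))) (n 0 (n 55
 (n 0 z (n 0 z (n 0 z (n 0 z (n 0 z z))))) (n 55 (n 0 z (n 0 z (n 0 z (n 2 (n 1 z (n 2 (n 0 z (n
 0 z (n 0 (n 2164859 z (n 2164859 z z)) (n 0 z (n 0 (n 2164859 z z) (n 0 z z)))))) z)) (n 0 z
 z))))) (n 3 (n 0 z (n 0 z (n 0 z (n 0 z (n 0 z (n 0 z (n 0 z (n 0 z (n 0 z (n 0 z (n 0 z
 z))))))))))) (n 53 (n 0 z (n 0 z (n 0 z (n 0 z (n 0 z (n 2 z (n 0 z (n 0 z (n 0 z z)))))))))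
 z)))) (n 0 (n 0 z (n 3 (n 0 z (n 0 z (n 0 z (n 0 z (n 0 z (n 0 z (n 0 z (n 0 z z)))))))) (n 5
 (n 0 z (n 0 z (n 0 z (n 0 z (n 0 z (n 0 z (n 0 z z))))))) z))) (n 0 (n 3 (n 0 z (n 0 z (n 0 z
 (n 0 z (n 0 z (n 0 z (n 0 z (n 0 z (n 0 z z))))))))) (n 5 (n 0 z (n 0 z (n 0 z (n 0 z (n 0 z (n
 0 z (n 0 z (n 0 z (n 0 z (n 0 z (n 0 z z))))))))))) z)) (n 0 (n 25 (n 0 z (n 0 z (n 0 z (n 0 z
 (n 0 z (n 0 z (n 0 z (n 0 z (n 0 z (n 0 z (n 0 z z))))))))))) z) (n 0 z z)))))))) (n 0 (n 0 z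
 (n 1 (n 3282443 z (n 6566403 z (n 3282443 z (n 3282443 z (n 3282443 z (n 3282443 z z)))))) (n 0
 z z))) (n 0 z z)))) (n 0x3319acc211 (n 0 (n 599 (n 6635571 z (n 0 z (n 0 z (n 0 z (n 0 z z)))))
 (n 598 (n 3278363 z (n 2 z (n 0 z (n 0 z (n 0 z (n 0 z (n 0 z z))))))) (n 594 (n 0 z (n 3212843
 z (n 0 z (n 0 z (n 0 z (n 0 z z)))))) (n 3 (n 0 z (n 0 z (n 0 z (n 2164283 z (n 2164283 z (n 0
 z (n 0 z (n 0 z (n 0 z z))))))))) (n 1 (n 6635571 z (n 0 z (n 0 z (n 0 z (n 0 z z))))) (n 0 (n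
 6635571 z (n 10 z (n 0 z (n 0 z (n 0 z (n 0 z (n 0 z (n 0 z z)))))))) z)))))) (n 599 (n 0 (n
 313 (n 0 z (n 0 z (n 0 z (n 0 z (n 0 z z))))) z) (n 0 z z)) (n 0 (n 1 (n 6635571 z (n 6635571 z
 (n 6635571 z (n 6635571 z (n 6635571 z (n 6635571 z z)))))) (n 0 z (n 0 z (n 0 z (n 0 z z)))))
 (n 0 z z)))) (n 0x275aa0a8d5d03b1ba348d911a6ca0d2 (n 0 (n 573 (n 0 z (n 3282443 z (n 0 z (n 0 z
 (n 0 z z))))) (n 557 (n 0 z (n 6627635 z (n 0 z (n 0 z (n 0 z (n 0 z z)))))) (n 556 (n 2 z (n 0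
 z (n 6566403 z (n 0 z (n 0 z (n 0 z (n 0 z z))))))) (n 3 (n
 0x6526504038b32a32a101c1195190480612ca2ca04030164164020384329a88100c1594d0408060cca4ca42031765264210189329a90081c2194d08040e0eca2a8200380a953a38ba880565061a69b72b2777a7ba382696665618a89a6699f749d8eb591703d656b807f60b399796176a68d76819c6009
 z (n 0 z (n 10 z (n 18 z (n 6566403 z (n 0 z (n 0 z (n
 0x586108082807e80808080807f84807f7f808081817e807d807d8a7e8080807f818082817f807e8283808380817f8380807b7e78830049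
 z (n 6566403 z (n 26 z z)))))))))) (n 1 (n 0 z (n 6566403 z (n 0 z z))) (n 0 (n 34 z (n 42 z (n
 0 z (n 6627635 z (n 0 z (n 0 z z)))))) z)))))) (n 1 (n 0 (n 633 (n 0 z (n 0 z (n 0 z (n 0 z (n
 0 z (n 0 z (n 0 z z))))))) (n 633 (n 0 z (n 0 z (n 0 z (n 2 (n 0 z (n 1 z (n 1 z z))) (n 0 z (n
 0 z (n 0 z z))))))) (n 633 (n 0 z (n 0 z (n 0 z (n 0 z (n 0 z (n 0 z (n 0 z z))))))) (n 1081 (n
 0 z (n 0 z (n 0 z (n 0 z (n 0 z (n 0 z (n 0 z z))))))) (n 1081 (n 0 z (n 0 z (n 0 z (n 0 z (n 0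
 z (n 0 z (n 0 z z))))))) z))))) (n 0 (n 0 z (n 0 z (n 13 (n 0 z (n 0 z (n 0 z (n 0 z (n 0 z (n
 0 z (n 0 z z))))))) (n 13 (n 0 z (n 0 z (n 0 z (n 0 z (n 0 z (n 0 z (n 0 z z))))))) z)))) (n 0
 (n 0 z (n 5 (n 0 z (n 0 z (n 0 z (n 0 z z)))) (n 5 (n 0 z (n 0 z (n 0 z (n 0 z z)))) z))) (n 0
 (n 5 (n 0 z (n 0 z (n 0 z (n 2 (n 0 z z) (n 0 z (n 0 z (n 0 z z))))))) (n 5 (n 0 z (n 0 z (n 0
 z (n 0 z (n 0 z (n 0 z (n 0 z z))))))) z)) (n 0 (n 0 z z) (n 0 z z)))))) (n 0 (n 0 z (n 1 (n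
 6566403 z (n 6566403 z (n 6566403 z (n 6566403 z (n 6566403 z (n 6566403 z z)))))) (n 0 z z)))
 (n 0 z z)))) (n 0 (n 0 (n 323 (n 0 z (n 3282443 z (n 0 z (n 0 z (n 0 z (n 0 z (n 0 z (n 0 z (n
 0 z (n 0 z (n 0 z (n 0 z (n 0 z (n 0 z (n 0 z (n 0 z (n 0 z (n 0 z (n 0 z (n 0 z (n 0 z (n 0 z
 z)))))))))))))))))))))) (n 317 (n 0 z (n 0 z (n 3278363 z (n 0 z (n 0 z (n 0 z (n 0 z (n 0 z (n
 0 z (n 0 z (n 0 z z))))))))))) (n 129 (n 6566419 z (n 0 z (n 0 z (n 0 z (n 0 z (n 0 z z))))))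
 (n 27 (n 0 z (n 0 z (n 0 z (n 0 z (n 0 z (n 0 z (n 0 z (n 0 z (n 6566419 z z))))))))) (n 1 (n 0
 z (n 0 z (n 0 z (n 6566419 z (n 0 z (n 0 z (n 0 z (n 0 z z)))))))) (n 0 (n 0 z (n 2164315 z (n
 0 z (n 0 z (n 0 z (n 0 z (n 0 z (n 0 z z)))))))) z)))))) (n 129 z (n 0 (n 1 (n 6566419 z (n
 6566419 z (n 6566419 z (n 6566419 z (n 6566419 z (n 6566419 z z)))))) (n 0 z (n 0 z (n 0 z (n 0
 z (n 0 z z)))))) (n 0 z z)))) z)))))))))), by decide +kernel⟩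
theorem i10697 : ∃ t, chkR KT RW t 10697 10707 = true := ⟨(n
 0xb51581a8a40625210a270b11285a08ac7084a54330b500 (n 0x216a2 (n 153 (n 0 z (n 0 z (n 0 z (n 0 z
 (n 0 z (n 2 z (n 6627395 z z))))))) (n 33 (n 10 z (n 0 z (n 0 z (n 0 z (n 0 z (n 18 z (n 0 z (n
 26 z (n 0 z (n 3278363 z z)))))))))) (n 9 (n 0 z (n 34 z (n 0 z (n 0 z (n 6627395 z z))))) (n
 27 (n 0 z (n 0 z (n 6567179 z (n 42 z (n 0 z (n 0 z z)))))) (n 1 (n 0 z (n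
 0xcca4ca4207989c8ba39244697f58884b5c9b8585cd7773828fb06f708f8697992d83b863838c588171ac736a877b6cab7c70798b947f820809
 z (n 2164299 z (n
 0x4c620096c4012988024b100486207589846788688a80a680a18d6469a84e8977818e6c80679c80455a9aa768a28b80aa807f79808380777b5b808580808080800149
 z (n 50 z (n 0 z (n
 0x4c610096c2012984024b080486107589846788688a80a680a18d6469a84e8977818e6c80679c80455a9aa768a28b80aa807f79808380777b5b808580808080800149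
 z (n 58 z (n 6567179 z (n
 0x8ca2ca0407858885868470797e767f71708d8380947f7e83878e817c857f87846a81936f7f87767e80887f81837f7b8782777d83877b820809
 z (n
 0x8c42c60a037a808671906f88869787998b636b9e557e78788a6e7e6a987e567197976c9d8f7ea3817c797e8b8577815e7c8084867b77840809
 z z))))))))))) (n 0 (n 66 z (n 6627395 z (n 0 z (n 0 z (n 0 z (n 0 z z)))))) z)))))) (n 9 (n 0
 (n 163 (n 2 (n 0 z (n 0 z (n 1 z (n 1 z (n 1 z (n 1 z (n 1 z z))))))) (n 0 z (n 0 z (n 0 z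
 z)))) (n 163 (n 0 z (n 0 z (n 0 z (n 0 z z)))) (n 163 (n 0 z (n 0 z (n 0 z (n 0 z z)))) (n 177
 (n 0 z (n 0 z (n 0 z (n 0 z (n 0 z (n 0 z z)))))) (n 165 (n 0 z (n 0 z (n 0 z (n 0 z (n 0 z (n
 0 z (n 0 z (n 0 z (n 0 z z))))))))) (n 483 (n 0 z (n 0 z (n 0 z (n 0 z (n 0 z (n 0 z (n 0 z (n
 0 z (n 0 z (n 0 z z)))))))))) (n 483 (n 0 z (n 0 z (n 0 z (n 0 z (n 0 z (n 0 z (n 0 z (n 0 z (n
 0 z (n 0 z z)))))))))) (n 161 (n 0 z (n 0 z (n 0 z (n 0 z (n 0 z z))))) z)))))))) (n 0 (n 0 z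
 (n 0 z (n 465 (n 0 z (n 0 z (n 0 z (n 0 z (n 0 z (n 0 z (n 0 z z))))))) (n 469 (n 2 (n 1 z (n 1
 z (n 1 z z))) (n 0 z (n 0 z (n 0 z z)))) (n 457 (n 0 z (n 0 z (n 0 z (n 2 (n 0 z (n 1 z z)) (n
 0 z (n 0 z (n 0 z (n 0 z z)))))))) (n 457 (n 0 z (n 0 z (n 0 z (n 0 z (n 0 z (n 0 z (n 0 z (n 0
 z z)))))))) (n 61 (n 0 z (n 0 z (n 0 z (n 0 z (n 0 z (n 0 z (n 0 z (n 0 z z)))))))) z))))))) (n
 0 (n 0 z (n 807 (n 0 z (n 0 z (n 0 z (n 0 z (n 0 z (n 0 z (n 0 z (n 0 z (n 0 z (n 0 z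
 z)))))))))) (n 75 (n 0 z (n 0 z (n 0 z (n 0 z (n 0 z (n 0 z (n 0 z (n 0 z z)))))))) (n 805 (n 0
 z (n 0 z (n 0 z (n 0 z (n 0 z (n 0 z (n 0 z (n 0 z (n 0 z (n 0 z (n 0 z z))))))))))) (n 805 (n
 0 z (n 0 z (n 0 z (n 0 z (n 0 z (n 0 z (n 0 z (n 0 z (n 0 z (n 0 z (n 0 z z))))))))))) (n 65 (n
 0 z (n 0 z (n 0 z (n 0 z (n 0 z z))))) z)))))) (n 0 (n 391 (n 0 z (n 0 z (n 0 z (n 0 z (n 0 z
 (n 0 z (n 0 z (n 0 z z)))))))) (n 55 (n 0 z (n 0 z (n 0 z (n 0 z (n 0 z (n 0 z (n 0 z (n 0 z (n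
 0 z z))))))))) (n 51 (n 0 z (n 2 (n 0 z (n 1 z z)) (n 0 z (n 0 z (n 0 z (n 0 z (n 0 z (n 0 z (n
 0 z z))))))))) (n 51 (n 0 z (n 0 z (n 0 z (n 0 z (n 0 z (n 0 z (n 0 z (n 0 z (n 0 z z)))))))))
 (n 49 (n 0 z (n 0 z (n 0 z (n 0 z (n 0 z (n 0 z (n 0 z z))))))) z))))) (n 0 (n 633 (n 0 z (n 0
 z (n 0 z (n 0 z (n 0 z z))))) (n 15 (n 0 z (n 0 z (n 0 z (n 0 z z)))) (n 15 (n 0 z (n 0 z (n 0
 z (n 0 z z)))) (n 13 (n 0 z (n 0 z (n 0 z (n 0 z (n 0 z (n 0 z (n 0 z (n 0 z (n 0 z (n 0 z (n 0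
 z (n 0 z (n 0 z (n 0 z (n 0 z (n 0 z z)))))))))))))))) z)))) (n 0 (n 51 (n 0 z (n 0 z (n 0 z (n
 0 z (n 0 z z))))) (n 51 (n 0 z (n 0 z (n 0 z (n 0 z (n 0 z z))))) (n 49 (n 0 z (n 0 z (n 0 z (n
 0 z (n 0 z (n 0 z (n 0 z (n 0 z (n 0 z (n 0 z z)))))))))) z))) (n 0 (n 0 z (n 5 (n 0 z (n 0 z
 (n 0 z (n 0 z (n 0 z (n 0 z (n 0 z (n 0 z (n 0 z (n 0 z (n 0 z z))))))))))) z)) (n 0 (n 53 (n 0
 z (n 0 z (n 0 z (n 0 z (n 0 z (n 0 z (n 0 z (n 0 z (n 0 z z))))))))) z) (n 0 z z))))))))) (n 0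
 (n 0 z (n 1 (n 1228 z (n 2 z (n 1228 z (n 6619675 z (n 1228 z (n 1228 z z)))))) (n 0 z (n 0 z
 (n 1 (n 6627395 z (n 6627395 z (n 6627395 z (n 6627395 z (n 6627395 z (n 6627395 z z))))))
 z))))) (n 0 (n 0 (n 0 (n 0 (n 7750155 z (n 7750155 z (n 7750155 z (n 7750155 z (n 7750155 z (n
 7750155 z z)))))) z) (n 0 (n 81 (n 1 (n 6493963 z (n 6566259 z (n 1228 z (n 1228 z (n 7668251 z
 (n 1228 z z)))))) (n 1 (n 7675971 z (n 7675971 z (n 7675971 z (n 7675971 z (n 7675971 z (n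
 7675971 z z)))))) (n 1 (n 4400923 z (n 7668251 z (n 4400923 z (n 7546395 z (n 4400923 z (n
 4400923 z z)))))) (n 0 z z)))) (n 201 (n 1 (n 7615755 z (n 6566003 z (n 1564 z (n 268 z (n
 7750155 z (n 268 z z)))))) (n 1 (n 7675971 z (n 7675971 z (n 7675971 z (n 7675971 z (n 7675971
 z (n 7675971 z z)))))) (n 1 (n 3278619 z (n 7750155 z (n 4400923 z (n 4400923 z (n 4400923 z (n
 7615755 z z)))))) (n 0 z z)))) (n 7 (n 0 z (n 1 (n 7615755 z (n 7615755 z (n 7615755 z (n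
 7675971 z (n 7615755 z (n 7615755 z z)))))) (n 0 z (n 1 (n 7546395 z (n 7546395 z (n 7546395 z
 (n 7675971 z (n 7546395 z (n 7546395 z z)))))) z)))) (n 436 (n 1 (n 3596 z (n 7750155 z (n 3596
 z (n 3596 z (n 3596 z (n 3596 z z)))))) (n 1 (n 7675971 z (n 7675971 z (n 7675971 z (n 7675971
 z (n 7675971 z (n 7675971 z z)))))) (n 1 (n 7615755 z (n 7750155 z (n 7615755 z (n 7615755 z (n
 7615755 z (n 7615755 z z)))))) (n 0 z (n 1 (n 7615755 z (n 5513331 z (n 7615755 z (n 7615755 z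
 (n 7615755 z (n 7615755 z z)))))) z))))) (n 9 (n 0 z (n 1 (n 7615755 z (n 7615755 z (n 7615755
 z (n 7750155 z (n 7615755 z (n 7615755 z z)))))) (n 0 z (n 1 (n 7750155 z (n 7668251 z (n
 7546395 z (n 7546395 z (n 7546395 z (n 7546395 z z)))))) z)))) (n 713 (n 1 (n 7675971 z (n
 7675971 z (n 7675971 z (n 7675971 z (n 7675971 z (n 7675971 z z)))))) (n 0 z (n 0 z (n 1 (n
 7675971 z (n 7675971 z (n 7675971 z (n 7675971 z (n 7675971 z (n 7675971 z z)))))) (n 0 z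
 z))))) (n 9 (n 0 z (n 1 (n 3213163 z (n 7750155 z (n 3213163 z (n 7668251 z (n 3213163 z (n
 3213163 z z)))))) (n 0 z (n 0 z (n 1 (n 7675971 z (n 7675971 z (n 7675971 z (n 7675971 z (n
 7675971 z (n 7675971 z z)))))) z))))) z))))))) (n 0 z (n 0 (n 201 (n 0 z (n 0 z (n 0 z (n 0 z
 z)))) (n 329 (n 0 z (n 0 z (n 0 z (n 0 z (n 0 z (n 0 z z)))))) (n 315 (n 0 z (n 0 z (n 0 z (n 0
 z (n 0 z (n 0 z (n 0 z (n 0 z z)))))))) (n 449 (n 0 z (n 0 z (n 0 z (n 0 z (n 0 z (n 0 z (n 0 z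
 (n 0 z (n 0 z z))))))))) (n 33 (n 0 z (n 0 z (n 0 z (n 0 z (n 0 z (n 0 z (n 0 z (n 0 z (n 0 z
 z))))))))) (n 436 (n 0 z (n 0 z (n 0 z (n 0 z (n 0 z z))))) (n 321 (n 0 z (n 0 z (n 0 z (n 0 z
 (n 0 z (n 0 z (n 0 z (n 0 z (n 0 z (n 0 z z)))))))))) (n 39 (n 0 z (n 0 z (n 0 z (n 0 z (n 0 z
 (n 0 z (n 0 z (n 0 z (n 0 z z))))))))) (n 9 (n 0 z (n 0 z (n 0 z (n 0 z z)))) (n 27 (n 0 z (n 0
 z (n 0 z (n 0 z (n 0 z z))))) (n 713 (n 0 z (n 0 z (n 0 z (n 0 z (n 0 z z))))) (n 45 (n 0 z (n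
 0 z (n 0 z (n 0 z (n 0 z (n 0 z (n 0 z z))))))) (n 11 (n 0 z (n 0 z (n 0 z (n 0 z (n 0 z (n 0 z
 (n 0 z (n 0 z (n 0 z (n 0 z (n 0 z (n 0 z (n 0 z (n 0 z (n 0 z (n 0 z z)))))))))))))))) (n 29
 (n 0 z (n 0 z (n 0 z (n 0 z (n 0 z (n 0 z (n 0 z (n 0 z (n 0 z (n 0 z z)))))))))) (n 28 (n 0 z
 (n 0 z (n 0 z (n 0 z (n 0 z (n 0 z (n 0 z (n 0 z (n 0 z z))))))))) (n 153 (n 0 z (n 0 z (n 0 z
 (n 0 z (n 0 z (n 0 z (n 0 z z))))))) (n 33 (n 0 z (n 0 z (n 0 z (n 0 z (n 0 z (n 0 z (n 0 z (n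
 0 z (n 0 z (n 0 z z)))))))))) (n 9 (n 0 z (n 0 z (n 0 z (n 0 z (n 0 z z))))) (n 27 (n 0 z (n 0
 z (n 0 z (n 0 z (n 0 z (n 0 z z)))))) (n 1 (n 0 z (n 0 z (n 0 z (n 0 z (n 0 z (n 0 z (n 0 z (n
 0 z (n 0 z (n 0 z (n 0 z z))))))))))) (n 0 (n 0 z (n 0 z (n 0 z (n 0 z (n 0 z (n 0 z z))))))
 z))))))))))))))))))))) z)))) z) z)))) (n 0xd35dc29ae519cb1835298835bc68ad634865da4818d340 (n
 0x31a6b (n 225 (n 0 z (n 2 z (n 3282443 z (n 0 z (n 0 z (n 10 z (n 0 z z))))))) (n 33 (n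
 6496515 z (n 0 z (n 0 z (n 0 z (n 0 z (n 18 z (n 0 z z))))))) (n 51 (n 0 z (n 0 z (n 0 z (n
 6496515 z (n 26 z z))))) (n 27 (n 6496515 z (n 0 z (n 34 z z))) (n 1 (n 0 z (n 0 z (n 0 z (n 0
 z (n 42 z (n 0 z (n 0 z (n 0 z (n 0 z (n 0 z (n 50 z (n 0 z (n 0 z (n 0 z (n 2164299 z (n 0 z
 (n 58 z z))))))))))))))))) (n 0 (n 0 z (n 66 z (n 0 z (n 0 z (n 0 z (n 0 z (n 6619947 z (n 0 z
 (n 0 z z))))))))) z)))))) (n 27 (n 0 (n 0 z (n 163 (n 0 z (n 0 z (n 0 z z))) (n 987 (n 0 z (n 0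
 z (n 0 z z))) (n 75 (n 0 z (n 0 z (n 0 z (n 0 z z)))) (n 449 (n 0 z (n 0 z (n 0 z (n 0 z z))))
 (n 449 (n 0 z (n 0 z (n 0 z (n 0 z z)))) (n 449 (n 0 z (n 0 z (n 0 z (n 0 z z)))) (n 73 (n 0 z
 (n 0 z (n 0 z (n 0 z z)))) z)))))))) (n 0 (n 511 (n 0 z (n 0 z (n 0 z (n 0 z (n 0 z (n 0 z (n 0
 z z))))))) (n 283 (n 0 z (n 0 z (n 0 z (n 0 z (n 0 z z))))) (n 11 (n 0 z (n 0 z (n 0 z (n 0 z
 (n 0 z (n 0 z (n 0 z (n 0 z (n 0 z (n 0 z (n 0 z (n 0 z (n 0 z (n 0 z z)))))))))))))) (n 9 (n 0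
 z (n 0 z (n 0 z (n 0 z (n 0 z (n 0 z (n 0 z (n 0 z (n 0 z (n 0 z (n 0 z z))))))))))) (n 9 (n 0
 z (n 0 z (n 0 z (n 0 z (n 0 z (n 0 z (n 0 z (n 0 z (n 0 z (n 0 z (n 2 (n 0 z (n 1 z z))
 z))))))))))) (n 9 (n 0 z (n 0 z (n 0 z (n 0 z (n 0 z (n 0 z (n 2 (n 1 z z) (n 0 z (n 0 z (n 0 z
 (n 0 z z))))))))))) (n 53 (n 0 z (n 0 z (n 0 z (n 0 z z)))) z))))))) (n 0 (n 123 (n 0 z (n 0 z
 (n 0 z (n 0 z (n 0 z (n 0 z (n 0 z (n 0 z (n 0 z (n 0 z (n 0 z (n 0 z (n 0 z (n 0 z (n 0 z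
 z))))))))))))))) (n 315 (n 0 z (n 0 z (n 0 z (n 0 z (n 0 z (n 0 z (n 0 z z))))))) (n 483 (n 0 z
 (n 0 z (n 0 z (n 0 z z)))) (n 483 (n 0 z (n 0 z (n 0 z (n 0 z z)))) (n 483 (n 0 z (n 0 z (n 0 z
 (n 0 z z)))) (n 313 (n 0 z (n 0 z (n 0 z (n 0 z (n 0 z (n 0 z (n 0 z (n 0 z (n 0 z (n 0 z (n 0
 z (n 0 z (n 0 z (n 0 z (n 0 z (n 0 z (n 0 z (n 0 z (n 0 z (n 0 z (n 0 z z)))))))))))))))))))))
 z)))))) (n 0 (n 285 (n 0 z (n 0 z (n 0 z (n 0 z (n 0 z z))))) (n 15 (n 0 z (n 0 z (n 0 z z)))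
 (n 15 (n 0 z (n 0 z (n 0 z z))) (n 15 (n 0 z (n 0 z (n 0 z z))) (n 101 (n 0 z (n 0 z (n 0 z (n
 0 z (n 0 z (n 0 z (n 0 z (n 0 z z)))))))) z))))) (n 0 (n 51 (n 0 z (n 0 z (n 0 z (n 0 z (n 0 z
 (n 0 z z)))))) (n 51 (n 0 z (n 0 z (n 0 z (n 0 z (n 2 (n 0 z (n 1 z z)) (n 0 z z)))))) (n 51 (n
 0 z (n 0 z (n 0 z (n 0 z (n 0 z (n 0 z z)))))) (n 53 (n 0 z (n 0 z (n 0 z (n 0 z (n 0 z (n 0 z
 (n 0 z (n 0 z (n 0 z (n 0 z z)))))))))) z)))) (n 0 (n 0 z (n 0 z (n 1 (n 0 z (n 0 z (n 0 z (n 0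
 z (n 0 z (n 0 z (n 0 z (n 0 z (n 0 z (n 0 z (n 0 z (n 0 z (n 0 z (n 0 z (n 0 z (n 0 z (n 0 z (n
 0 z (n 0 z z))))))))))))))))))) z))) (n 0 (n 0 z (n 1 (n 0 z (n 2 z (n 0 z (n 0 z z)))) z)) (n
 0 (n 1 (n 0 z (n 0 z (n 0 z (n 0 z (n 0 z (n 0 z (n 0 z (n 0 z (n 0 z (n 0 z (n 0 z (n 0 z (n 0
 z (n 0 z z)))))))))))))) z) (n 0 z z))))))))) (n 0 (n 1 (n 6496515 z (n 6496515 z (n 6496515 z
 (n 6496515 z (n 6496515 z (n 6496515 z z)))))) (n 0 z (n 1 (n 6619947 z (n 1804 z (n 5445195 z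
 (n 1804 z (n 2 z (n 1804 z z)))))) z))) (n 0 (n 0 (n 0 (n 0 (n 7734043 z (n 7734043 z (n
 7734043 z (n 7734043 z (n 7734043 z (n 7734043 z z)))))) z) (n 0 (n 81 (n 1 (n 4400923 z (n
 4400923 z (n 7734043 z (n 4400923 z (n 7545883 z (n 4400923 z z)))))) (n 0 z (n 1 (n 3282699 z
 (n 4400907 z (n 4400907 z (n 4400907 z (n 4400907 z (n 4400907 z z)))))) z))) (n 201 (n 1 (n
 7545091 z (n 4400923 z (n 4400923 z (n 4400923 z (n 4400923 z (n 4400923 z z)))))) (n 0 z (n 1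
 (n 7545091 z (n 4400907 z (n 4400907 z (n 4400907 z (n 4400907 z (n 4400907 z z)))))) z))) (n
 543 (n 1 (n 7545091 z (n 4396811 z (n 4396811 z (n 4396811 z (n 4396811 z (n 4396811 z z))))))
 (n 1 (n 7545091 z (n 508 z (n 508 z (n 508 z (n 508 z (n 508 z z)))))) (n 1 (n 7545091 z (n
 7545883 z (n 7545883 z (n 7545883 z (n 7545883 z (n 7545883 z z)))))) z))) (n 27 (n 1 (n
 7545091 z (n 7545091 z (n 7545091 z (n 7545091 z (n 7545091 z (n 7545091 z z)))))) (n 0 z (n 1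
 (n 7673419 z (n 2164587 z (n 2164587 z (n 2164587 z (n 2164587 z (n 2164587 z z)))))) z))) (n 9
 (n 1 (n 220 z (n 1804 z (n 1804 z (n 1804 z (n 7668523 z (n 1804 z z)))))) (n 1 (n 7545091 z (n
 7545091 z (n 7545091 z (n 7545091 z (n 7545091 z (n 7545091 z z)))))) (n 1 (n 3213131 z (n
 2164555 z (n 7668523 z (n 3213131 z (n 3213131 z (n 3213131 z z)))))) z))) (n 669 (n 1 (n
 7545091 z (n 3282699 z (n 3282699 z (n 3282699 z (n 3282699 z (n 3282699 z z)))))) (n 1 (n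
 7545091 z (n 7668523 z (n 7668523 z (n 7668523 z (n 7668523 z (n 7668523 z z)))))) (n 1 (n
 7545091 z (n 7668523 z (n 7668523 z (n 7668523 z (n 7668523 z (n 7668523 z z)))))) (n 0 z z))))
 (n 27 (n 1 (n 7545091 z (n 7545091 z (n 7545091 z (n 7545091 z (n 7545091 z (n 7545091 z
 z)))))) (n 0 z (n 1 (n 7668523 z (n 2164587 z (n 5445451 z (n 2164587 z (n 7734043 z (n 2164587
 z z)))))) z))) z))))))) (n 0 z (n 0 (n 201 (n 0 z (n 0 z (n 0 z z))) (n 543 (n 0 z (n 0 z (n 0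
 z z))) (n 63 (n 0 z (n 0 z (n 0 z (n 0 z (n 0 z (n 0 z (n 0 z (n 0 z (n 0 z (n 0 z (n 0 z (n 0
 z (n 0 z (n 0 z (n 0 z z))))))))))))))) (n 423 (n 0 z (n 0 z (n 0 z (n 0 z z)))) (n 421 (n 0 z
 (n 0 z (n 0 z (n 0 z (n 0 z (n 0 z (n 0 z z))))))) (n 143 (n 0 z (n 0 z (n 0 z (n 0 z (n 0 z
 z))))) (n 225 (n 0 z (n 0 z (n 0 z (n 0 z z)))) (n 255 (n 0 z (n 0 z (n 0 z (n 0 z z)))) (n 9
 (n 0 z (n 0 z (n 0 z z))) (n 27 (n 0 z (n 0 z (n 0 z (n 0 z (n 0 z (n 0 z z)))))) (n 669 (n 0 z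
 (n 0 z (n 0 z (n 0 z z)))) (n 667 (n 0 z (n 0 z (n 0 z (n 0 z (n 0 z (n 0 z (n 0 z (n 0 z (n 0
 z (n 0 z (n 0 z (n 0 z (n 0 z (n 0 z (n 0 z (n 0 z (n 0 z (n 0 z (n 0 z (n 0 z (n 0 z
 z))))))))))))))))))))) (n 51 (n 0 z (n 0 z (n 0 z (n 0 z (n 0 z (n 0 z (n 0 z (n 0 z z))))))))
 (n 27 (n 0 z (n 0 z (n 0 z (n 0 z (n 0 z (n 0 z (n 0 z (n 0 z (n 0 z (n 0 z z)))))))))) (n 1 (n
 0 z (n 0 z (n 0 z (n 0 z (n 0 z (n 0 z (n 0 z (n 0 z (n 0 z (n 0 z (n 0 z (n 0 z (n 0 z (n 0 z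
 z)))))))))))))) (n 225 (n 0 z (n 0 z (n 0 z (n 0 z (n 0 z (n 0 z (n 0 z z))))))) (n 33 (n 0 z
 (n 0 z (n 0 z (n 0 z (n 0 z (n 0 z (n 0 z z))))))) (n 51 (n 0 z (n 0 z (n 0 z (n 0 z (n 0 z
 z))))) (n 27 (n 0 z (n 0 z (n 0 z z))) (n 1 (n 0 z (n 0 z (n 0 z (n 0 z (n 0 z (n 0 z (n 0 z (n
 0 z (n 0 z (n 0 z (n 0 z (n 0 z (n 0 z (n 0 z (n 0 z (n 0 z (n 0 z z))))))))))))))))) (n 0 (n 0
 z (n 0 z (n 0 z (n 0 z (n 0 z (n 0 z (n 0 z (n 0 z (n 0 z z))))))))) z)))))))))))))))))))))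
 z)))) z) z)))) (n 0x58d3a91611 (n 0 (n 443 (n 6623299 z (n 0 z (n 0 z (n 0 z (n 0 z (n 0 z (n 0
 z (n 0 z z)))))))) (n 437 (n 0 z (n 6623299 z (n 2 z (n 0 z (n 0 z z))))) (n 9 (n
 0x2ca4a208078217e07de82082089f8a08218628207e082081f86175f8608a081f82085f8207e08207e07a10801 z
 (n 0 z (n 0 z (n
 0x2ca4a6280382182081e8607e08608608208617e08218218208608208218218208208208208217e08208200801 z
 (n 0 z (n 0 z (n 3212843 z (n 0 z (n 0 z (n 0 z z)))))))))) (n 3 (n 0 z (n 6566155 z (n 0 z (n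
 0 z (n 0 z z))))) (n 1 (n 6566155 z (n 0 z (n 0 z z))) (n 0 (n
 0xcc84c8420389f66381c7a386185d91f8a17e07617a279e81f7a18dc8617e079981b7de8a17228a08217e20801 z
 (n 0 z (n 6623299 z (n 10 z (n 0 z (n 0 z z)))))) z)))))) (n 1 (n 0 (n 793 (n 0 z (n 0 z (n 2 z
 (n 0 z (n 0 z (n 0 z z)))))) z) (n 0 z z)) (n 0 (n 1 (n 6566155 z (n 6566155 z (n 6623299 z (n
 6566155 z (n 6566155 z (n 6566155 z z)))))) (n 0 z (n 0 z z))) (n 0 z z)))) (n 0x184ec89a11a (n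
 0 (n 345 (n 3282443 z (n 0 z (n 0 z z))) (n 435 (n 0 z (n 3278363 z (n 0 z (n 0 z z)))) (n 433
 (n 6566403 z (n 0 z (n 0 z (n 2 z (n 0 z (n 0 z (n 0 z (n 0 z (n 0 z (n 0 z z)))))))))) (n 3 (n
 0 z (n 0 z (n 0 z (n 0 z (n 0 z (n 6566403 z (n 0 z (n 6566403 z (n 0 z z))))))))) (n 1 (n 0 z
 (n 0 z (n 10 z (n 0 z (n 0 z (n 6566403 z (n 0 z (n 0 z (n 0 z z))))))))) (n 0 (n 0 z (n 0 z (n
 0 z (n 0 z (n 0 z (n 0 z (n 0 z (n 6636307 z (n 0 z (n 0 z (n 0 z z))))))))))) z)))))) (n 345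
 (n 0 (n 21 (n 0 z (n 0 z (n 0 z (n 0 z (n 0 z (n 0 z (n 0 z (n 0 z (n 0 z z))))))))) z) (n 0 z
 z)) (n 0 (n 1 (n 6627595 z (n 6566403 z (n 3282443 z (n 3282443 z (n 3282443 z (n 3282443 z
 z)))))) (n 0 z (n 0 z z))) (n 0 z z)))) (n 0xcc2e8463570d34919819 (n 0 (n 573 (n 0 z (n 6623283
 z (n 0 z (n 0 z (n 0 z (n 0 z (n 0 z (n 0 z z)))))))) (n 571 (n 0 z (n 6623283 z (n 0 z (n 0 z
 (n 2 z (n 0 z (n 0 z z))))))) (n 570 (n 3212843 z (n 0 z (n 0 z z))) (n 3 (n 0 z (n 0 z (n 0 z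
 (n 6566155 z (n 0 z (n 0 z (n 0 z (n 0 z (n 0 z z))))))))) (n 1 (n 0 z (n 0 z (n 6566155 z (n 0
 z (n 0 z (n 0 z (n 0 z (n 0 z (n 0 z (n 0 z (n 0 z (n 0 z (n 0 z (n 10 z z)))))))))))))) (n 0
 (n 6623283 z (n 18 z (n 0 z (n 0 z (n 26 z (n 0 z (n
 0xd90590080e00c82c82003797d7e76827a7f80838393867a887e7d8382857e8989928a86757d71807e83857c80858584847b80827a817a967f7f6f87831009
 z (n
 0x963261040180b2a208100c0d90d90840e06c84c842030264363210383b21b20081c0990990040600ca48602030163243010382321320801c198c990400e10c84842003847d698275867c727f82b5a3789a9580877383858090a68c8d4d7b4b897e8b8187849694848a747a78827d76a673805889846009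
 z (n 0 z (n
 0xb19308200c2990d8c480604c86c804077d7c727b747f82768a84a2917a8986808982837f8583978889607f627681888081828a868887797a7e808476a0817b648a811809
 z z)))))))))) z)))))) (n 570 (n 0 (n 777 (n 0 z (n 0 z (n 0 z (n 0 z (n 0 z (n 0 z (n 0 z (n 0
 z (n 0 z z))))))))) (n 793 (n 0 z (n 0 z (n 0 z (n 0 z (n 0 z (n 0 z (n 0 z (n 0 z (n 0 z (n 0
 z (n 0 z z))))))))))) (n 793 (n 0 z (n 0 z (n 0 z (n 0 z (n 0 z (n 0 z (n 0 z (n 0 z (n 0 z (n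
 0 z (n 0 z z))))))))))) z))) (n 0 (n 1 (n 0 z (n 0 z (n 0 z (n 0 z (n 0 z (n 0 z (n 0 z (n 0 z
 (n 0 z z))))))))) (n 1 (n 0 z (n 0 z (n 0 z (n 0 z (n 0 z (n 0 z (n 0 z (n 0 z (n 0 z
 z))))))))) z)) (n 0 (n 0 z z) (n 0 z z)))) (n 0 (n 1 (n 3212843 z (n 3212843 z (n 3212843 z (n
 3212843 z (n 3212843 z (n 3212843 z z)))))) (n 0 z (n 0 z z))) (n 0 z z)))) (n 0 (n 0 (n 599 (n
 6557747 z (n 0 z (n 0 z (n 0 z (n 0 z z))))) (n 595 (n 0 z (n 0 z (n 6557747 z (n 0 z (n 0 z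
 z))))) (n 9 (n 0 z (n 0 z (n 3212843 z (n 0 z (n 0 z (n 0 z (n 0 z z))))))) (n 29 (n 2164283 z
 (n 0 z (n 0 z (n 0 z (n 0 z (n 0 z (n 0 z (n 0 z (n 0 z z))))))))) (n 1 (n 6557747 z (n 0 z (n
 0 z (n 0 z (n 0 z z))))) (n 0 (n 2164315 z (n 0 z (n 0 z (n 0 z (n 0 z z))))) z)))))) (n 599 z
 (n 0 (n 1 (n 6557747 z (n 6557747 z (n 6557747 z (n 6557747 z (n 6557747 z (n 6557747 z z))))))
 (n 0 z (n 0 z (n 0 z (n 0 z z))))) (n 0 z z)))) (n 0x289aa8289c (n 0 (n 179 (n 0 z (n 0 z (n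
 6496339 z (n 0 z (n 0 z z))))) (n 33 (n 0 z (n 0 z (n 6496579 z (n 0 z (n 0 z z))))) (n 131 (n
 0 z (n 6496579 z (n 0 z (n 0 z (n 0 z (n 0 z (n 0 z (n 0 z (n 0 z (n 0 z z)))))))))) (n 3 (n 0
 z (n 6496579 z (n 0 z (n 0 z (n 0 z (n 0 z (n 0 z (n 0 z (n 0 z (n 0 z z)))))))))) (n 127 (n 2
 z (n 0 z (n 0 z (n 0 z (n 0 z (n 6554139 z (n 0 z z))))))) (n 0 (n 10 z (n 0 z (n 0 z (n 0 z (n
 0 z (n 6624011 z (n 0 z z))))))) z)))))) (n 179 (n 0 (n 253 (n 0 z (n 0 z (n 0 z (n 0 z (n 0 z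
 (n 0 z (n 0 z z))))))) z) (n 0 z z)) (n 0 (n 0 z (n 0 z (n 1 (n 6496339 z (n 6496339 z (n
 6496339 z (n 6496339 z (n 6496339 z (n 6496339 z z)))))) (n 0 z (n 0 z z))))) (n 0 z z)))) (n
 0x454bb8431440c2a52c448c58430a409 (n 0 (n 453 (n 3282443 z (n 0 z (n 0 z (n 0 z z)))) (n 451 (n
 2 z (n 0 z (n 3278363 z (n 0 z (n 0 z (n 0 z (n 0 z (n 0 z (n 10 z (n 0 z (n 0 z z)))))))))))
 (n 450 (n 0 z (n 3212843 z (n 0 z (n 18 z (n 0 z (n 0 z (n 0 z (n 0 z (n 0 z (n 0 z z))))))))))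
 (n 3 (n 2164283 z (n 0 z (n 0 z (n 0 z z)))) (n 1 (n 26 z (n 0 z (n 6554139 z (n 0 z (n 0 z (n
 0 z (n 0 z (n 0 z (n 34 z (n 0 z (n 0 z z))))))))))) (n 0 (n 0 z (n 2164315 z (n 0 z (n 42 z (n
 0 z (n 0 z (n 0 z (n 0 z (n 0 z (n 0 z z)))))))))) z)))))) (n 453 (n 0 (n 0 z (n 1035 (n 0 z (n
 0 z (n 0 z (n 0 z (n 0 z (n 0 z (n 0 z (n 0 z (n 0 z (n 0 z (n 0 z (n 0 z z)))))))))))) (n 3 (n
 0 z (n
 0x276576520186ea8ca240781b66085f81c8207657e081c72581c9e096062371f7e689b6ab52b51a3f071b89f8a07617de1001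
 z (n 0 z (n 0 z (n 0 z (n 0 z (n 0 z (n 0 z (n 0 z (n 0 z z)))))))))) (n 3 (n 0 z (n 0 z (n 0 z
 (n 0 z (n 0 z (n 0 z (n 0 z (n 0 z (n 0 z (n 0 z z)))))))))) (n 1 (n 0 z (n 0 z (n 0 z (n 0 z
 (n 0 z (n 0 z (n 0 z (n 0 z (n 0 z (n 0 z (n 0 z (n 0 z (n 0 z z))))))))))))) z))))) (n 0 (n
 1365 (n 0 z (n 0 z (n 0 z (n 0 z (n 0 z (n 0 z (n 0 z (n 0 z (n 0 z (n 0 z z)))))))))) (n 1357
 (n 0 z (n 0 z (n 0 z (n 0 z (n 0 z (n 0 z (n 0 z z))))))) (n 1357 (n 0 z (n 0 z (n 0 z (n 0 z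
 (n 0 z (n 0 z (n 0 z z))))))) (n 865 (n 0 z (n 0 z (n 0 z (n 0 z (n 0 z (n 0 z (n 0 z (n 0 z (n
 0 z z))))))))) z)))) (n 0 (n 15 (n 0 z (n 0 z (n 0 z (n 0 z (n 0 z (n 0 z z)))))) (n 15 (n 0 z
 (n 0 z (n 0 z (n 0 z (n 0 z (n 0 z z)))))) (n 1129 (n 0 z (n 0 z (n 0 z (n 0 z (n 0 z (n 0 z (n
 0 z (n 0 z (n 0 z (n 0 z (n 0 z z))))))))))) z))) (n 0 (n 0 z (n 389 (n 0 z (n 0 z (n 0 z (n 0
 z (n 0 z (n 0 z (n 0 z (n 0 z (n 0 z (n 0 z (n 0 z (n 0 z z)))))))))))) z)) (n 0 (n 505 (n 0 z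
 (n 0 z (n 0 z (n 0 z (n 0 z (n 0 z (n 0 z (n 0 z (n 0 z (n 0 z z)))))))))) z) (n 0 z z)))))) (n
 0 (n 1 (n 3282443 z (n 3282443 z (n 3282443 z (n 3282443 z (n 3282443 z (n 3282443 z z)))))) (n
 0 z (n 0 z (n 0 z z)))) (n 0 z z)))) (n 0 (n 0 (n 161 (n 0 z (n 0 z (n 3282443 z (n 0 z z))))
 (n 255 (n 0 z (n 0 z (n 0 z (n 0 z (n 3278363 z (n 0 z (n 0 z (n 0 z z)))))))) (n 137 (n 0 z (n
 0 z (n 0 z (n 0 z (n 3212843 z z))))) (n 3 (n 0 z (n 0 z (n 0 z (n 0 z (n 0 z (n 0 z (n 0 z (n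
 0 z (n 0 z (n 0 z (n 2164283 z z))))))))))) (n 1 (n 0 z (n 0 z (n 0 z (n 0 z (n 0 z (n 0 z (n 0
 z (n 6554139 z (n 0 z (n 0 z (n 0 z (n 0 z (n 0 z (n 0 z (n 0 z (n 0 z (n 0 z (n 0 z (n 0 z (n
 0 z (n 0 z z))))))))))))))))))))) (n 0 (n 0 z (n 2164315 z (n 0 z (n 0 z (n 0 z (n 0 z (n 0 z
 (n 0 z z)))))))) z)))))) (n 161 z (n 0 (n 0 z (n 0 z (n 1 (n 3282443 z (n 3282443 z (n 3282443
 z (n 3282443 z (n 3282443 z (n 3282443 z z)))))) (n 0 z z)))) (n 0 z z)))) (n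
 0x5c6ba0945da1d2e405172108b6e90628482d52884612832e9a40 (n 0 (n 467 (n 0 z (n 3282443 z (n 0 z
 (n 0 z (n 0 z (n 2 z (n 0 z z))))))) (n 255 (n 10 z (n 18 z (n 3278363 z z))) (n 466 (n 3212843
 z (n 0 z (n 26 z (n 34 z z)))) (n 27 (n 6631947 z (n 0 z (n 42 z z))) (n 1 (n 50 z (n 6558507 z
 (n 58 z (n 0 z z)))) (n 0 (n 66 z (n 6631947 z (n 74 z (n 0 z z)))) z)))))) (n 255 (n 0 (n 767
 (n 0 z (n 0 z (n 0 z (n 0 z (n 0 z z))))) (n 767 (n 2 (n 1 z (n 1 z (n 1 z (n 1 z (n 1 z (n 1 z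
 (n 1 z z))))))) (n 0 z (n 0 z (n 0 z (n 0 z z))))) (n 107 (n 0 z (n 0 z (n 0 z (n 0 z (n 0 z (n
 0 z (n 0 z (n 0 z (n 0 z (n 0 z (n 0 z z))))))))))) (n 107 (n 0 z (n 0 z (n 0 z (n 0 z (n 0 z
 (n 0 z (n 0 z (n 0 z (n 0 z (n 0 z (n 0 z z))))))))))) (n 247 (n 0 z (n 0 z (n 0 z (n 0 z (n 0
 z (n 0 z (n 0 z z))))))) (n 105 (n 0 z (n 0 z (n 0 z (n 0 z (n 0 z (n 0 z (n 0 z (n 0 z (n 0 z
 (n 0 z (n 0 z (n 0 z (n 0 z (n 0 z z)))))))))))))) (n 105 (n 0 z (n 0 z (n 0 z (n 0 z (n 0 z (n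
 0 z (n 0 z (n 0 z (n 0 z (n 0 z (n 0 z (n 0 z (n 0 z (n 0 z z)))))))))))))) (n 13 (n 0 z (n 0 z
 (n 0 z (n 0 z z)))) (n 13 (n 0 z (n 7753795 z (n 0 z (n 0 z z)))) z))))))))) (n 0 (n 0 z (n 363
 (n 0 z (n 0 z (n 0 z z))) (n 363 (n 2 (n 1 z (n 1 z (n 1 z (n 1 z (n 1 z z))))) (n 0 z (n 0 z
 z))) (n 399 (n 0 z (n 0 z (n 0 z (n 0 z (n 0 z (n 0 z (n 0 z (n 0 z (n 0 z (n 0 z (n 0 z (n 0 z
 (n 0 z (n 0 z (n 0 z z))))))))))))))) (n 809 (n 0 z (n 0 z (n 0 z (n 0 z (n 0 z z))))) (n 809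
 (n 0 z (n 0 z (n 0 z (n 0 z (n 0 z z))))) (n 413 (n 0 z (n 0 z (n 0 z (n 0 z (n 0 z (n 0 z (n 0
 z (n 0 z z)))))))) (n 413 (n 0 z (n 0 z (n 2 z (n 0 z (n 0 z (n 0 z (n 0 z (n 0 z z))))))))
 z)))))))) (n 0 (n 411 (n 0 z (n 0 z (n 0 z (n 0 z (n 0 z (n 0 z (n 0 z (n 0 z (n 0 z (n 0 z (n
 0 z z))))))))))) (n 411 (n 0 z (n 0 z (n 0 z (n 0 z (n 0 z (n 0 z (n 0 z (n 0 z (n 0 z (n 0 z
 (n 0 z z))))))))))) (n 535 (n 0 z (n 0 z (n 0 z (n 0 z (n 0 z (n 0 z z)))))) (n 531 (n 0 z (n 0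
 z (n 0 z (n 0 z z)))) (n 531 (n 0 z (n 7749971 z (n 0 z (n 0 z z)))) (n 533 (n 0 z (n 0 z (n 0
 z (n 0 z z)))) (n 533 (n 0 z (n 0 z (n 0 z (n 0 z z)))) z))))))) (n 0 (n 0 z (n 295 (n 0 z (n 0
 z (n 0 z (n 0 z z)))) (n 543 (n 0 z (n 0 z (n 0 z (n 0 z (n 0 z (n 0 z z)))))) (n 543 (n 0 z (n
 0 z (n 0 z (n 0 z (n 0 z (n 0 z z)))))) (n 593 (n 0 z (n 0 z (n 0 z (n 0 z (n 0 z (n 0 z (n 0 z
 (n 0 z (n 0 z (n 0 z (n 0 z (n 0 z (n 0 z (n 0 z z)))))))))))))) (n 593 (n 0 z (n 0 z (n 0 z (n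
 0 z (n 0 z (n 0 z (n 0 z (n 0 z (n 0 z (n 0 z (n 0 z (n 0 z (n 0 z (n 0 z z))))))))))))))
 z)))))) (n 0 (n 295 (n 0 z (n 2 (n 1 z (n 1 z (n 1 z (n 1 z z)))) (n 0 z (n 0 z z)))) (n 597 (n
 0 z (n 0 z (n 0 z (n 0 z (n 0 z (n 0 z z)))))) (n 597 (n 0 z (n 0 z (n 0 z (n 0 z (n 0 z (n 0 z
 z)))))) (n 541 (n 0 z (n 0 z (n 0 z (n 0 z (n 0 z (n 0 z (n 0 z (n 0 z (n 0 z (n 0 z
 z)))))))))) (n 541 (n 0 z (n 0 z (n 0 z (n 0 z (n 0 z (n 0 z (n 0 z (n 0 z (n 0 z (n 0 z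
 z)))))))))) z))))) (n 0 (n 3 (n 0 z (n 0 z (n 0 z (n 0 z (n 0 z (n 0 z (n 0 z z))))))) (n 3 (n
 0 z (n 0 z (n 0 z (n 0 z (n 0 z (n 0 z (n 0 z z))))))) (n 1 (n 0 z (n 0 z (n 0 z (n 0 z (n 0 z
 (n 0 z (n 0 z (n 0 z (n 0 z (n 0 z (n 0 z (n 0 z (n 0 z (n 0 z (n 0 z (n 0 z (n 0 z (n 0 z (n 0
 z (n 0 z (n 0 z z))))))))))))))))))))) (n 1 (n 0 z (n 0 z (n 0 z (n 0 z (n 0 z (n 0 z (n 0 z (n
 0 z (n 0 z (n 0 z (n 0 z (n 0 z (n 0 z (n 7754779 z (n 0 z (n 0 z (n 0 z (n 0 z (n 0 z (n 0 z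
 (n 0 z z))))))))))))))))))))) z)))) (n 0 (n 0 z (n 1037 (n 0 z (n 0 z (n 0 z (n 0 z (n 0 z (n 0
 z (n 0 z (n 0 z (n 0 z (n 0 z z)))))))))) (n 1037 (n 2 z (n 0 z (n 0 z (n 0 z (n 0 z (n 0 z (n
 0 z (n 0 z (n 0 z (n 0 z z)))))))))) z))) (n 0 (n 5 (n 0 z (n 0 z (n 0 z (n 0 z z)))) (n 5 (n 0
 z (n 0 z (n 0 z (n 0 z z)))) z)) (n 0 (n 0 z z) (n 0 z z)))))))))) (n 0 (n 1 (n 3740 z (n 3740
 z (n 3740 z (n 3740 z (n 3740 z (n 3740 z z)))))) (n 1 (n 3740 z (n 3740 z (n 3740 z (n 3740 z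
 (n 3740 z (n 3740 z z)))))) (n 1 (n 3278363 z (n 3278363 z (n 3278363 z (n 3278363 z (n 3278363
 z (n 3278363 z z)))))) z))) (n 0 z z)))) z)))))))))), by decide +kernel⟩
theorem i10707 : ∃ t, chkR KT RW t 10707 10716 = true := ⟨(n
 0x53a4a169a580e9220635210a2729122868894a708653a0111440 (n 0 (n 177 (n 0 z (n 6619675 z (n 0 z
 (n 0 z (n 2 z (n 10 z (n 3282443 z (n 0 z (n 0 z (n 0 z z)))))))))) (n 39 (n 0 z (n 18 z (n 0 z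
 (n 3278363 z z)))) (n 9 (n 0 z (n 26 z (n 0 z (n 34 z (n 0 z (n 0 z (n 0 z (n 3212843 z (n 0 z
 z))))))))) (n 27 (n 0 z (n
 0x3621640503800b2a329081c00594994840e006ca2c4200782a7db7da7d584279d85175c8678267d686d7bb7dd78085c8667de7cd86b7357ef8068af7e486e7e77fa7ef7d981a8207e984585e7bd7b07db81b81f83b80c8067cf8c68598027a07cd8162011
 z (n
 0x21951904806008ca4ca420786c7af77578a8a771f8b467e8d387378f9057887a96c68f48fd7817989236107d27eb9c27b08c47eb7b87987cb84385c7af88a8f278e75979e81885687d83383477a9c28b980974077283a1011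
 z (n
 0x5b08000a6107fd8038048037fb8077fa80e7f97fd8037f680480380b7f97f88048047f680f8027ff7f18027f98018018018017ff7fe8007f97f88038068048007fd7fa8018018047f27fc7fe8058047fe0091
 z (n 42 z (n 0 z (n
 0x5b10000a6207fd8038048037fb8077fa80e7f97fd8037f680480380b7f97f88048047f680f8027ff7f18027f98018018018017ff7fe8007f97f88038068048007fd7fa8018018047f27fc7fe8058047fe0091
 z (n 2164283 z (n 0 z (n
 0x994d50480e004ca8ca42078008008018008018007ff7ff8008017ff7ff8018017ff8008008008017ff8007ff8017ff8008018018017ff7ff8017fe7ff7fe8018017ff8017ff8008017fe8018008028007ff7ff8018001011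
 z (n
 0x5951944806002ca6a824038018008008008008008008007ff8007ff8008008017ff8018008008008008008008017ff8008018008007ff7ff8018008008008008008008008008008018008018008018008007ff8008001011
 z z))))))))))) (n 1 (n 50 z (n 6558507 z (n 0 z (n 58 z (n 0 z z))))) (n 0 (n 0 z (n 6619675 z
 (n 0 z (n 66 z (n 0 z (n 74 z (n 0 z (n 0 z (n 0 z z))))))))) z)))))) (n 39 (n 0 (n 0 z (n 127
 (n 0 z (n 0 z (n 0 z (n 0 z z)))) (n 103 (n 0 z (n 0 z (n 0 z (n 0 z (n 0 z (n 0 z (n 0 z (n 0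
 z (n 0 z (n 0 z (n 0 z (n 0 z (n 0 z z))))))))))))) (n 103 (n 0 z (n 0 z (n 0 z (n 0 z (n 0 z
 (n 0 z (n 0 z (n 0 z (n 0 z (n 0 z (n 0 z (n 0 z (n 0 z z))))))))))))) (n 7 (n 0 z (n 0 z (n 0
 z (n 0 z (n 0 z (n 0 z (n 0 z z))))))) (n 15 (n 0 z (n 0 z (n 0 z (n 0 z (n 0 z (n 0 z (n 0 z
 (n 0 z (n 0 z z))))))))) (n 15 (n 0 z (n 0 z (n 0 z (n 0 z (n 0 z (n 0 z (n 0 z (n 0 z (n 0 z
 z))))))))) (n 13 (n 0 z (n 7753795 z (n 0 z (n 0 z (n 0 z (n 0 z (n 0 z (n 0 z (n 0 z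
 z))))))))) (n 13 (n 0 z (n 0 z (n 0 z (n 0 z (n 0 z (n 0 z (n 0 z (n 0 z (n 0 z z)))))))))
 z))))))))) (n 0 (n 755 (n 0 z (n 0 z (n 0 z (n 0 z (n 0 z (n 0 z z)))))) (n 727 (n 0 z (n 0 z
 (n 0 z (n 0 z z)))) (n 727 (n 0 z (n 0 z (n 0 z (n 0 z z)))) (n 555 (n 0 z (n 0 z (n 0 z (n 0 z
 (n 0 z (n 0 z (n 0 z z))))))) (n 729 (n 0 z (n 0 z (n 0 z (n 0 z (n 0 z (n 0 z (n 2 (n 0 z (n 1
 z (n 1 z z))) (n 0 z (n 0 z z))))))))) (n 729 (n 0 z (n 0 z (n 0 z (n 0 z (n 0 z (n 0 z (n 0 z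
 (n 0 z (n 0 z z))))))))) (n 725 (n 0 z (n 0 z (n 0 z (n 0 z (n 0 z z))))) (n 725 (n 0 z (n 0 z
 (n 0 z (n 0 z (n 0 z z))))) z)))))))) (n 0 (n 775 (n 0 z (n 0 z (n 0 z (n 0 z (n 2 (n 0 z (n 1
 z (n 1 z (n 1 z (n 1 z (n 1 z z)))))) (n 0 z (n 0 z (n 0 z z)))))))) (n 775 (n 0 z (n 0 z (n 0
 z (n 0 z (n 0 z (n 0 z (n 0 z (n 0 z z)))))))) (n 75 (n 0 z (n 0 z (n 0 z (n 0 z (n 0 z z)))))
 (n 777 (n 0 z (n 0 z (n 0 z (n 0 z (n 7750923 z z))))) (n 777 (n 0 z (n 0 z (n 0 z (n 0 z (n 0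
 z z))))) (n 77 (n 0 z (n 0 z (n 0 z (n 0 z (n 0 z (n 0 z (n 0 z (n 0 z (n 0 z (n 0 z (n 0 z (n
 0 z (n 0 z (n 0 z (n 0 z (n 0 z z)))))))))))))))) (n 77 (n 0 z (n 0 z (n 0 z (n 0 z (n 0 z (n 0
 z (n 0 z (n 0 z (n 0 z (n 0 z (n 0 z (n 0 z (n 0 z (n 0 z (n 0 z (n 0 z z))))))))))))))))
 z))))))) (n 0 (n 0 z (n 1065 (n 0 z (n 0 z (n 0 z (n 0 z (n 0 z (n 0 z (n 0 z z))))))) (n 15 (n
 0 z (n 0 z (n 0 z (n 0 z (n 0 z (n 0 z (n 0 z (n 0 z (n 0 z (n 0 z z)))))))))) (n 15 (n 0 z (n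
 0 z (n 0 z (n 0 z (n 0 z (n 0 z (n 0 z (n 0 z (n 0 z (n 0 z z)))))))))) (n 17 (n 0 z (n 0 z (n
 0 z (n 0 z (n 0 z (n 0 z z)))))) (n 17 (n 0 z (n 0 z (n 0 z (n 0 z (n 0 z (n 2 z z))))))
 z)))))) (n 0 (n 27 (n 0 z (n 0 z (n 0 z (n 0 z (n 0 z (n 0 z (n 0 z (n 0 z (n 0 z (n 0 z
 z)))))))))) (n 15 (n 0 z (n 0 z (n 0 z (n 0 z (n 0 z (n 0 z (n 0 z (n 0 z (n 0 z z))))))))) (n
 15 (n 0 z (n 0 z (n 0 z (n 0 z (n 0 z (n 0 z (n 0 z (n 0 z (n 0 z z))))))))) (n 17 (n 0 z (n 0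
 z (n 0 z (n 0 z (n 0 z (n 0 z (n 0 z z))))))) (n 17 (n 0 z (n 0 z (n 0 z (n 0 z (n 0 z (n 0 z
 (n 0 z z))))))) z))))) (n 0 (n 51 (n 0 z (n 7750403 z (n 0 z (n 0 z (n 0 z z))))) (n 51 (n 0 z
 (n 0 z (n 0 z (n 0 z (n 0 z z))))) (n 49 (n 0 z (n 0 z (n 2 (n 0 z z) (n 0 z (n 0 z (n 0 z (n 0
 z (n 0 z (n 0 z (n 0 z (n 0 z z))))))))))) (n 49 (n 0 z (n 0 z (n 0 z (n 0 z (n 0 z (n 0 z (n 0
 z (n 0 z (n 0 z (n 0 z (n 0 z z))))))))))) z)))) (n 0 (n 0 z (n 1 (n 0 z (n 0 z (n 0 z (n 0 z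
 (n 0 z (n 0 z (n 0 z (n 0 z (n 0 z (n 0 z (n 0 z z))))))))))) (n 1 (n 0 z (n 0 z (n 2 z (n 0 z
 (n 0 z (n 0 z (n 0 z (n 0 z (n 0 z (n 0 z (n 0 z z))))))))))) z))) (n 0 (n 1 (n 0 z (n 0 z (n 0
 z (n 0 z (n 0 z (n 0 z (n 0 z (n 0 z (n 0 z (n 0 z z)))))))))) (n 1 (n 0 z (n 0 z (n 0 z (n 0 z
 (n 0 z (n 0 z (n 0 z (n 0 z (n 0 z (n 0 z z)))))))))) z)) (n 0 (n 0 z z) (n 0 z z)))))))))) (n
 0 (n 0 z (n 1 (n 1420 z (n 1420 z (n 1420 z (n 220 z (n 1420 z (n 6619675 z z)))))) (n 0 z (n 1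
 (n 3278363 z (n 6619675 z (n 3278363 z (n 3278363 z (n 3278363 z (n 3278363 z z)))))) z)))) (n
 0 z z)))) (n 0x1c6cda2366561b2f581b55c0ca4d869571825ad0524c219 (n 0 (n 177 (n 3282443 z (n 0 z
 (n 0 z (n 0 z (n 0 z (n 0 z z)))))) (n 255 (n 2 z (n 10 z (n 3278363 z (n 18 z (n 0 z (n 0 z
 z)))))) (n 129 (n 26 z (n 3212843 z (n 34 z (n 0 z (n 42 z z))))) (n 27 (n 0 z (n 0 z (n 0 z (n
 0 z (n 0 z (n 50 z (n 2164283 z (n 0 z (n 0 z (n 0 z (n 0 z z))))))))))) (n 1 (n 2164299 z (n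
 58 z (n 0 z z))) (n 0 (n 0 z (n 66 z (n 2164315 z (n 0 z z)))) z)))))) (n 1 (n 0 (n 0 z (n 0 z
 (n 423 (n 0 z (n 7684707 z (n 0 z (n 0 z (n 0 z (n 0 z (n 0 z z))))))) (n 423 (n 0 z (n 0 z (n
 0 z (n 0 z (n 0 z (n 0 z (n 0 z z))))))) (n 423 (n 0 z (n 0 z (n 0 z (n 0 z (n 0 z (n 0 z (n 0
 z z))))))) (n 321 (n 0 z (n 0 z (n 0 z (n 0 z (n 0 z (n 0 z (n 0 z (n 0 z (n 0 z (n 0 z
 z)))))))))) (n 537 (n 0 z (n 0 z (n 0 z (n 0 z (n 0 z (n 0 z z)))))) (n 313 (n 0 z (n 0 z z))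
 z)))))))) (n 0 (n 0 z (n 1047 (n 0 z (n 0 z (n 0 z (n 0 z z)))) (n 1047 (n 0 z (n 0 z (n 0 z (n
 0 z z)))) (n 1047 (n 0 z (n 0 z (n 0 z (n 0 z z)))) (n 513 (n 0 z (n 0 z (n 0 z (n 2 (n 1 z (n
 1 z z)) (n 0 z (n 0 z (n 0 z (n 0 z z)))))))) (n 501 (n 0 z (n 0 z (n 0 z (n 0 z (n 0 z (n 0 z
 (n 0 z (n 0 z (n 2 (n 1 z z) (n 0 z z)))))))))) (n 509 (n 0 z (n 0 z (n 0 z (n 0 z (n 0 z (n 0
 z (n 0 z (n 0 z (n 0 z (n 0 z (n 0 z (n 0 z (n 0 z (n 0 z z)))))))))))))) z))))))) (n 0 (n 31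
 (n 0 z (n 0 z (n 0 z (n 0 z (n 0 z z))))) (n 31 (n 0 z (n 0 z (n 0 z (n 0 z (n 0 z z))))) (n 31
 (n 0 z (n 0 z (n 0 z (n 0 z (n 0 z z))))) (n 55 (n 0 z (n 0 z (n 0 z (n 0 z (n 0 z z))))) (n 51
 (n 0 z (n 0 z (n 0 z (n 0 z (n 0 z z))))) (n 53 (n 0 z (n 0 z (n 0 z (n 0 z (n 0 z (n 0 z (n 0
 z (n 0 z z)))))))) z)))))) (n 0 (n 0 z (n 0 z (n 7 (n 0 z (n 0 z (n 0 z (n 0 z (n 0 z (n 0 z (n
 0 z (n 0 z z)))))))) (n 255 (n 0 z (n 0 z (n 0 z (n 0 z z)))) (n 253 (n 0 z (n 0 z (n 0 z (n 0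
 z (n 0 z z))))) z))))) (n 0 (n 0 z (n 55 (n 0 z (n 0 z (n 0 z (n 0 z (n 0 z (n 0 z (n 0 z
 z))))))) (n 3 (n 0 z (n 0 z (n 0 z (n 0 z (n 0 z (n 0 z (n 0 z z))))))) (n 1 (n 0 z (n 0 z (n 0
 z (n 0 z (n 0 z (n 0 z z)))))) z)))) (n 0 (n 7 (n 0 z (n 0 z (n 0 z (n 0 z (n 0 z (n 0 z (n 0 z
 (n 2 (n 1 z (n 1 z z)) (n 0 z (n 0 z z)))))))))) (n 255 (n 0 z (n 0 z (n 0 z (n 0 z (n 0 z
 z))))) (n 253 (n 2 z (n 0 z (n 0 z (n 0 z (n 0 z z))))) z))) (n 0 (n 51 (n 0 z (n 0 z (n 0 z (n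
 0 z (n 0 z z))))) (n 49 (n 0 z (n 0 z (n 0 z (n 0 z (n 0 z (n 0 z (n 0 z z))))))) z)) (n 0 (n 5
 (n 0 z (n 0 z (n 0 z (n 0 z (n 0 z (n 0 z (n 0 z (n 0 z (n 0 z (n 0 z z)))))))))) z) (n 0 z
 z))))))))) (n 0 (n 1 (n 2164299 z (n 2164299 z (n 2164299 z (n 2164299 z (n 2164299 z (n
 2164299 z z)))))) (n 1 (n 1420 z (n 1420 z (n 1420 z (n 5506587 z (n 5514811 z (n 1420 z
 z)))))) (n 0 z z))) (n 0 z z)))) (n 0 (n 0 (n 159 (n 0 z (n 0 z (n 3282443 z (n 0 z (n 0 z (n 0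
 z z)))))) (n 33 (n 0 z (n 0 z (n 0 z (n 3278363 z (n 0 z (n 0 z (n 0 z (n 0 z z)))))))) (n 9 (n
 0 z (n 0 z (n
 0xcca4a608078638e169f8a37a08217e07a38637e17607dd7a07a176581c75d81e85f85f9e389d91d81c7a10801 z
 (n 0x4ca8ca82078e29ee8a86983e071b860a367e38d97948a46e1a278b3ada5586d43db492b6c7e046465971f0801
 z (n 0 z (n 0 z (n 0 z (n 0 z (n 5441067 z (n 3212843 z (n
 0xad84054c20296106dd6a09246598e0798929a5c8dd65d89e7ea865923a1771e8df7989205686529686ea9ab72500c1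
 z (n 0 z (n
 0x26ca46208078e8bb8ba76dd3a071e71f9bb52599f7d772462cb675f785c45755039c5d3e72bde56375b3a40801 z
 (n 3212843 z z)))))))))))))) (n 3 (n 2164283 z (n 0 z (n 0 z (n 0 z (n 0 z (n 0 z (n 0 z
 z))))))) (n 1 (n 0 z (n 0 z (n 2164299 z (n 0 z (n 0 z (n 0 z z)))))) (n 0 (n 0 z (n 0 z (n 0 z
 (n 6624299 z (n 0 z (n
 0x4c86c860078e29ee8a86983e071b860a367e38d97948a46e1a278b3ada5586d43db492b6c7e046465971f0801 z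
 (n 0 z (n 6624299 z (n 3212891 z (n
 0xad84054c20296106dd6a09246598e0798929a5c8dd65d89e7ea865923a1771e8df7989205686529686ea9ab72500c1
 z (n
 0xad88054c40296206dd6a09246598e0798929a5c8dd65d89e7ea865923a1771e8df7989205686529686ea9ab72500c1
 z (n 0 z (n 0 z (n 0 z z)))))))))))))) z)))))) (n 159 z (n 0 (n 0 z (n 0 z (n 1 (n 3282443 z (n
 3282443 z (n 3282443 z (n 3282443 z (n 3282443 z (n 3282443 z z)))))) (n 0 z (n 0 z (n 0 z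
 z)))))) (n 0 z z)))) (n 0xe90d2 (n 0 (n 693 (n 0 z (n 3282443 z (n 0 z (n 0 z (n
 0x1a6528218207a185e81f86282181f8207df7df7a289f8a17e07a189f82182182281f81f86085e79f0041 z (n
 0x3264382182076285d81e8a48217df7e07de79e7638de8e27e07218de8637e382481f81f8a089b7600041 z (n 0 z
 (n 0 z (n 0 z (n 0 z z)))))))))) (n 461 (n 3278363 z (n 0 z (n
 0x3264382182076285d81e8a48217df7e07de79e7638de8e27e07218de8637e382481f81f8a089b7600041 z (n 0 z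
 (n 0 z z))))) (n 9 (n 0 z (n 0 z (n 0 z (n 0 z (n 2 z (n 0 z (n 6562059 z (n 0 z (n 6562059 z
 z))))))))) (n 3 (n 0 z (n 2164283 z (n 0 z (n 0 z (n 0 z (n 0 z z)))))) (n 1 (n 0 z (n 6562059
 z (n 0 z (n 0 z (n 0 z (n 0 z (n 0 z (n 0 z z)))))))) (n 0 (n 6624315 z (n 0 z (n 0 z (n 0 z (n
 0 z (n 0 z z)))))) z)))))) (n 461 (n 0 z z) (n 0 (n 1 (n 6562059 z (n 3278363 z (n 3278363 z (n
 3278363 z (n 3278363 z (n 3278363 z z)))))) (n 0 z (n 1 (n 5548 z (n 5548 z (n 6562059 z (n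
 5548 z (n 76 z (n 5548 z z)))))) (n 0 z (n 0 z z))))) (n 0 z z)))) (n
 0x1b0c9698a9b24679b34149b2094d9640 (n 0 (n 525 (n 0 z (n 2 z (n 3282443 z (n 0 z z)))) (n 33 (n
 0 z (n 0 z (n 3278363 z (n 0 z (n 0 z (n 0 z z)))))) (n 523 (n 10 z (n 0 z (n 3212843 z (n 18 z
 (n 0 z (n 0 z z)))))) (n 3 (n 26 z (n
 0x6ca6a80403768a82837581839c788a8c6a81739b79748488559b757b78827b777b827d7e8696878a857d808681766b83757d85707a8d7f0809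
 z (n 0 z (n 34 z (n 42 z (n 0 z (n 0 z (n 0 z (n 0 z (n 0 z (n 0 z (n 0 z (n 0 z (n
 0x18ca6a204037a86788b8179788986867e818d7588807786866a92748976818e717e7d7c8b79957a897e86807b7d7471857480797a778c770809
 z (n 0 z (n 0 z (n 2164283 z z))))))))))))))))) (n 1 (n 2164299 z (n 0 z (n 0 z (n 0 z (n
 0x8ca6ca6407827e8083748a80817e7f7d88767f807c888881956a946f7c7a797f888c748479768f718583848b8188836e897882877f6e800809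
 z (n 0 z (n 0 z (n 0 z (n 0 z (n 0 z (n 0 z (n 0 z (n 0 z (n
 0x994d4c480e02ca6ca60077f7f82827e80808080828380807d827f7e80807f81837f7f80807e80827f80817e807e8180827f7e80827f817e8180807f821009
 z (n
 0x5905480c0602ca6a624078e6e798a7e8678766e7a789e63866f8a968976c351ae64797b877c8c8e79856a707d66818588967f8f9b6fa76f86818563791009
 z z))))))))))))))) (n 0 (n 0 z (n 2164315 z (n 0 z (n 0 z (n 0 z (n 0 z z)))))) z)))))) (n 525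
 (n 0 (n 1047 (n 0 z (n 0 z (n 0 z (n 0 z (n 0 z z))))) (n 1047 (n 0 z (n 0 z (n 0 z (n 0 z (n 0
 z z))))) (n 1045 (n 0 z (n 0 z (n 0 z z))) (n 1045 (n 0 z (n 0 z (n 0 z z))) (n 1045 (n 0 z (n
 0 z (n 0 z z))) z))))) (n 0 (n 0 z (n 295 (n 0 z (n 0 z (n 0 z (n 0 z (n 0 z (n 0 z (n 0 z (n 0
 z (n 0 z (n 0 z (n 0 z (n 0 z z)))))))))))) (n 295 (n 0 z (n 0 z (n 0 z (n 0 z (n 0 z (n 0 z (n
 0 z (n 0 z (n 0 z (n 0 z (n 0 z (n 0 z z)))))))))))) (n 295 (n 0 z (n 0 z (n 0 z (n 0 z (n 0 z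
 (n 0 z (n 0 z (n 0 z (n 0 z (n 0 z (n 0 z (n 0 z z)))))))))))) z)))) (n 0 (n 315 (n 0 z (n 0 z
 (n 0 z (n 0 z (n 0 z (n 0 z (n 0 z (n 0 z (n 0 z (n 0 z (n 0 z (n 0 z (n 0 z (n 0 z (n 0 z (n 0
 z (n 0 z (n 0 z (n 0 z (n 0 z (n 0 z (n 0 z (n 0 z (n 0 z (n 0 z (n 0 z (n 0 z (n 0 z (n 0 z (n
 0 z (n 0 z (n 0 z (n 0 z (n 0 z (n 0 z (n 0 z (n 0 z (n 0 z (n 0 z (n 0 z (n 0 z (n 0 z (n 0 z
 (n 0 z (n 0 z (n 0 z (n 0 z (n 0 z (n 0 z z))))))))))))))))))))))))))))))))))))))))))))))))) (n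
 315 (n 0 z (n 0 z (n 0 z (n 0 z (n 0 z (n 0 z (n 0 z (n 0 z (n 0 z (n 0 z (n 0 z (n 0 z (n 0 z
 (n 0 z (n 0 z (n 0 z (n 0 z (n 0 z (n 0 z (n 0 z (n 0 z (n 0 z (n 0 z (n 0 z (n 0 z (n 0 z (n 0
 z (n 0 z (n 0 z (n 0 z (n 0 z (n 0 z (n 0 z (n 0 z (n 0 z (n 0 z (n 0 z (n 0 z (n 0 z (n 0 z (n
 0 z (n 0 z (n 0 z (n 0 z (n 0 z (n 0 z (n 0 z (n 0 z (n 0 z
 z))))))))))))))))))))))))))))))))))))))))))))))))) (n 315 (n 0 z (n 0 z (n 0 z (n 0 z (n 0 z (n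
 0 z (n 0 z (n 0 z (n 0 z (n 0 z (n 0 z (n 0 z (n 0 z (n 0 z (n 0 z (n 0 z (n 0 z (n 0 z (n 0 z
 (n 0 z (n 0 z (n 0 z (n 0 z (n 0 z (n 0 z (n 0 z (n 0 z (n 0 z (n 0 z (n 0 z (n 0 z (n 0 z (n 0
 z (n 0 z (n 0 z (n 0 z (n 0 z (n 0 z (n 0 z (n 0 z (n 0 z (n 0 z (n 0 z (n 0 z (n 0 z (n 0 z (n
 0 z (n 0 z (n 0 z z))))))))))))))))))))))))))))))))))))))))))))))))) z))) (n 0 (n 0 z (n 0 z
 z)) (n 0 (n 0 z z) (n 0 z z)))))) (n 0 (n 0 z (n 1 (n 268 z (n 268 z (n 5513315 z (n 268 z (n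
 268 z (n 268 z z)))))) (n 1 (n 3282443 z (n 3282443 z (n 3282443 z (n 3282443 z (n 3282443 z (n
 3282443 z z)))))) (n 0 z z)))) (n 0 z z)))) (n 0x1964d05c8eb64129b2c12d9640 (n 0 (n 593 (n 2 z
 (n 0 z (n 3282443 z (n 0 z (n 0 z (n 0 z (n 0 z (n 0 z z)))))))) (n 39 (n 0 z (n 0 z (n 0 z (n
 10 z (n 0 z (n 3278363 z (n 0 z z))))))) (n 129 (n 18 z (n 0 z (n 3212843 z z))) (n 27 (n
 0x2c84c842037fe8028008008018008008007ff7ff8008008007ff8008007ff8008017ff8018007ff8008008018008007fe8008018008017ff8008008008008017ff7ff8008018008017ff8008008027ff0811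
 z (n
 0x22ca6a204037bd7fd81580f7ef8147d18117e17fa7cf7c183b7d781d8177c67ea7d783779b80681c8027fe7f181b7e07af8248217db8827db8357c780a7c885080182083c7de81985e7da81a8177c88100811
 z (n 0 z (n 0 z (n 0 z (n 0 z (n 0 z (n 0 z (n 2164283 z (n 0 z (n
 0x10ca6a2040780a8097f37f78017f881380b80a7fa80280a7fe8128067ff8058047fd7f580f7eb7f97ee8067f37f87f18018038078127fc8197f28148027fa7f77f67fb7e580e7f17f98007f581181b7fe0811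
 z (n 0 z (n 0 z z))))))))))))) (n 1 (n 2164299 z (n 0 z z)) (n 0 (n 0 z (n 0 z (n 26 z (n
 2164315 z (n 0 z (n 34 z (n 0 z (n 0 z (n 0 z z))))))))) z)))))) (n 1 (n 0 (n 1159 (n 0 z (n 0
 z (n 0 z (n 0 z (n 0 z (n 0 z (n 0 z z))))))) (n 107 (n 0 z (n 0 z (n 0 z (n 0 z (n 0 z (n 0 z
 (n 0 z (n 0 z z)))))))) (n 13 (n 0 z (n 0 z (n 0 z (n 0 z (n 0 z (n 0 z z)))))) (n 13 (n 0 z (n
 0 z (n 0 z (n 0 z (n 0 z (n 0 z z)))))) z)))) (n 0 (n 259 (n 0 z (n 0 z (n 0 z (n 0 z (n 0 z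
 z))))) (n 1 (n 0 z (n 0 z (n 0 z (n 0 z (n 0 z z))))) (n 1 (n 0 z (n 0 z (n 0 z (n 0 z (n 0 z
 z))))) z))) (n 0 (n 529 (n 0 z (n 0 z (n 0 z z))) (n 529 (n 0 z (n 0 z (n 0 z z))) z)) (n 0 (n
 0 z z) (n 0 z z))))) (n 0 (n 1 (n 2164299 z (n 2164299 z (n 2164299 z (n 2164299 z (n 2164299 z
 (n 2164299 z z)))))) (n 0 z z)) (n 0 z z)))) (n
 0x52c9a1e49d0b3d284cb360cf48c32cc68165ec814b28094d30ca8b310b4c824c4c22d32c0 (n 0x1a659 (n 321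
 (n 2 z (n 3282443 z z)) (n 255 (n 10 z (n 18 z (n 26 z (n 3278363 z z)))) (n 9 (n 0 z (n 0 z (n
 0 z (n 0 z (n 34 z (n
 0x8ca8a8620781867579837f8f8791867e88857d746a7a80855b9c6aab61928f6f95967b83738f6f9079827e7b848182845b7e8c9a946c8a0809
 z (n 0 z (n 0 z (n 3212843 z (n 0 z (n 42 z (n 50 z z)))))))))))) (n 27 (n 0 z (n 0 z (n 0 z (n
 0 z (n 0 z (n 58 z (n 0 z (n 0 z (n 0 z (n 2164283 z (n 0 z z))))))))))) (n 1 (n 0 z (n 0 z (n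
 66 z (n 0 z (n 74 z (n 0 z (n 0 z (n 0 z (n 2164299 z z))))))))) (n 0 (n 82 z (n 0 z (n 90 z (n
 0 z (n 98 z (n 106 z (n 0 z (n 0 z (n 0 z (n
 0x5ab1009c6208584738d6f926d85497591a4738695778f798399d3887560867d638db4907d866058668ca16878844fc498bf394072b7855e0089
 z (n 2164315 z (n
 0xd909904c0e14c82c406037e8b9176856d7a7e768a687b809a8eab5b8686928c65926f8f8784598ba76c5b5a6c919969737d8b8e8db57f685497c37a691009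
 z (n 4327003 z z))))))))))))) z)))))) (n 321 (n 0 (n 511 (n 2 (n 0 z (n 0 z (n 1 z (n 2 (n 0 z
 (n 0 z (n 0 z (n 0 z (n 0 (n 604 z z) (n 0 z z)))))) (n 2 (n 0 z (n 0 z (n 0 z (n 0 z (n 0 z (n
 0 z z)))))) (n 1 z (n 1 z (n 2 (n 0 z (n 0 z (n 0 z (n 0 z (n 0 z (n 0 z z)))))) (n 1 z (n 2 (n
 0 z (n 0 z (n 0 z (n 0 z (n 0 z (n 0 z z)))))) (n 1 z (n 1 z z)))))))))))) (n 0 z (n 0 z (n 0 z
 (n 0 z (n 0 z (n 0 z (n 0 z z)))))))) (n 511 (n 0 z (n 0 z (n 0 z (n 0 z (n 0 z (n 0 z (n 0 z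
 (n 0 z z)))))))) (n 511 (n 0 z (n 0 z (n 0 z (n 0 z (n 0 z (n 0 z (n 2 (n 1 z (n 2 (n 0 z (n 0
 z (n 0 z (n 0 z (n 0 z (n 0 z z)))))) (n 2 (n 0 z (n 0 z (n 0 z (n 0 z (n 0 z (n 0 z z)))))) (n
 1 z (n 1 z (n 2 (n 0 z (n 0 z (n 0 z (n 0 z (n 0 (n 3278971 z z) (n 0 z z)))))) (n 1 z (n 2 (n
 0 z (n 0 z (n 0 z (n 0 z (n 0 z (n 0 z z)))))) (n 1 z (n 2 (n 0 z (n 0 (n 8795979 z z) (n 0 z
 (n 0 (n 8795979 z z) (n 0 (n 8857163 z (n 8857163 z z)) (n 0 z z)))))) z)))))))))) (n 0 z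
 z)))))))) (n 151 (n 0 z (n 0 z (n 0 z (n 0 z (n 0 z (n 0 z (n 0 z z))))))) (n 151 (n 0 z (n 0 z
 (n 0 z (n 0 z (n 0 z (n 0 z (n 2 (n 0 z (n 1 z (n 1 z (n 2 (n 0 z (n 0 z (n 0 z (n 0 z (n 0 z
 (n 0 z z)))))) (n 1 z (n 2 (n 0 z (n 0 z (n 0 z (n 0 z (n 0 z (n 0 z z)))))) (n 2 (n 0 z (n 0 z
 (n 0 z (n 0 z (n 0 (n 2020 z z) (n 0 z z)))))) (n 1 z z)))))))) z))))))) (n 151 (n 0 z (n 0 z
 (n 0 z (n 0 z (n 0 z (n 2 (n 2 (n 0 z (n 0 z (n 0 z (n 0 z (n 0 (n 8798243 z z) (n 0 z z))))))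
 (n 1 z (n 2 (n 0 z (n 0 z (n 0 z (n 0 z (n 0 z (n 0 z z)))))) (n 2 (n 0 z (n 0 z (n 0 z (n 0 z
 (n 0 (n 8798243 z z) (n 0 z z)))))) (n 2 (n 0 z (n 0 z (n 0 z (n 0 z (n 0 z (n 0 z z)))))) (n 2
 (n 0 z (n 0 z (n 0 z (n 0 z (n 0 (n 2020 z z) (n 0 z z)))))) (n 2 (n 0 z (n 0 (n 2020 z z) (n 0
 z (n 0 z (n 0 (n 2020 z (n 2020 z z)) (n 0 (n 2020 z z) z)))))) z))))))) (n 0 z z))))))) (n 507
 (n 0 z (n 0 z (n 0 z (n 0 z (n 0 z (n 0 z (n 0 z (n 0 z (n 0 z (n 0 z (n 0 z z))))))))))) (n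
 483 (n 0 z (n 0 z (n 0 z (n 0 z (n 0 z (n 0 z (n 0 z (n 0 z (n 0 z (n 0 z (n 0 z (n 0 z
 z)))))))))))) (n 483 (n 0 z (n 0 z (n 0 z (n 0 z (n 0 z (n 0 z (n 0 z (n 2 (n 1 z (n 2 (n 0 z
 (n 0 z (n 0 z (n 0 z (n 0 (n 8872731 z z) (n 0 z z)))))) (n 1 z (n 2 (n 0 z (n 0 z (n 0 z (n 0
 (n 8872731 z z) (n 0 (n 8872731 z (n 8872731 z z)) (n 0 (n 8872731 z z) z)))))) z)))) (n 0 z (n
 0 z (n 0 z (n 0 z z)))))))))))) (n 505 (n 0 z (n 0 z (n 0 z (n 0 z (n 0 z (n 0 z (n 0 z (n 0 z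
 (n 0 z (n 0 z (n 0 z (n 0 z (n 0 z (n 0 z z)))))))))))))) (n 505 (n 0 z (n 0 z (n 0 z (n 0 z (n
 0 z (n 0 z (n 0 z (n 0 z (n 0 z (n 0 z (n 0 z (n 0 z (n 0 z (n 2 (n 0 z (n 0 z z))
 z)))))))))))))) (n 505 (n 0 z (n 0 z (n 0 z (n 0 z (n 0 z (n 0 z (n 0 z (n 0 z (n 0 z (n 0 z (n
 0 z (n 0 z (n 0 z (n 0 z z)))))))))))))) (n 505 (n 0 z (n 0 z (n 0 z (n 0 z (n 0 z (n 0 z (n 0
 z (n 0 z (n 0 z (n 0 z (n 0 z (n 0 z (n 0 z (n 0 z z)))))))))))))) z))))))))))))) (n 0 (n 0 z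
 (n 0 z (n 459 (n 0 z (n 0 z (n 2 (n 0 z (n 0 z (n 1 z (n 1 z (n 2 (n 0 z (n 0 z (n 0 z (n 0 z
 (n 0 z (n 0 z z)))))) (n 1 z (n 2 (n 0 z (n 0 z (n 0 z (n 0 z (n 0 z (n 0 z z)))))) (n 1 z (n 1
 z z))))))))) (n 0 z (n 0 z (n 0 z (n 0 z (n 0 z (n 0 z (n 0 z (n 0 z z))))))))))) (n 459 (n 0 z
 (n 0 z (n 0 z (n
 0x2dcc9905406038ea6ca28077fa7e38617ba80379b7f78368127f87a47d87e286a7dd8cb7da8237d78567c27dd80b7fc85084e7fb73c7e48a97a07b97b28497ee81873f7e684d7de8587f38807d88167c988289e79480f1011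
 z (n
 0x5abb009c7608584738d6f926d85497591a4738695778f798399d3887560867d638db4907d866058668ca16878844fc498bf394072b7855e0089
 z (n 0 z (n 0 z (n 0 z (n 0 z (n 0 z (n 0 z z))))))))))) (n 459 (n 0 z (n 0 z (n 0 z (n 0 z (n
 0 z (n 0 z (n 0 z (n 0 z (n
 0x6ecaea68077d7e767e858481678d608c8a8179727d9d7e749970ab7690787a828c7c76888390815e6c94947e6c7f836ca384896266987f0809
 z (n 0 z (n 0 z z))))))))))) (n 507 (n 0 z (n 0 z (n 2 (n 1 z (n 2 (n 0 z (n 0 z (n 0 z (n 0 z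
 (n 0 z (n 0 z z)))))) (n 1 z (n 2 (n 0 z (n 0 z (n 0 z (n 0 z (n 0 z (n 0 z z)))))) (n 1 z (n 1
 z z)))))) (n 0 z (n 0 z (n 0 z (n 0 z z))))))) (n 457 (n 2 (n 0 z (n 1 z (n 2 (n 0 z (n 0 z (n
 0 z (n 0 z (n 0 z (n 0 z z)))))) (n 1 z (n 1 z z))))) (n 6625083 z (n 0 z (n 0 z (n 0 z (n 0 z
 (n 0 z (n 0 z (n 0 z (n 0 z (n 0 z (n 0 z (n 0 z (n 0 z (n 0 z (n 0 z (n 0 z (n 0 z (n 0 z (n 0
 z (n 0 z (n 0 z (n 0 z (n 0 z (n 0 z (n 0 z (n 0 z (n 0 z (n 0 z (n 0 z (n 0 z (n 0 z (n 0 z (n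
 0 z (n 0 z (n 0 z (n 0 z (n 0 z (n 0 z (n 0 z (n 0 z (n 0 z (n 0 z (n 0 z (n 0 z (n 0 z
 z)))))))))))))))))))))))))))))))))))))))))))))) (n 457 (n 0 z (n 0 z (n 0 z (n 0 z (n 0 z (n 0
 z (n 0 z (n 0 z (n 0 z (n 0 z (n 0 z (n 0 z (n 0 z (n 0 z (n 0 z (n 2 (n 2 (n 0 z (n 0 z (n 0 z
 (n 0 z (n 0 z (n 0 z z)))))) (n 2 (n 0 z (n 0 z (n 0 z (n 0 z (n 0 z (n 0 z z)))))) (n 2 (n 0 z
 (n 0 z (n 0 z (n 0 z (n 0 z (n 0 z z)))))) (n 2 (n 0 (n 6492291 z z) (n 0 z (n 0 (n 5 z z) (n 0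
 z (n 0 (n 7540867 z (n 2020 z z)) (n 0 z z)))))) z)))) (n 0 z (n 0 z (n 0 z (n 0 z (n 0 z (n 0
 z (n 0 z (n 0 z (n 0 z (n 0 z (n 0 z (n 0 z (n 0 z (n 0 z (n 0 z (n 0 z (n 0 z (n 0 z (n 0 z (n
 0 z (n 0 z (n 0 z (n 0 z (n 0 z (n 0 z (n 0 z (n 0 z (n 0 z (n 0 z (n 0 z
 z)))))))))))))))))))))))))))))))))))))))))))))) (n 505 (n 0 z (n 0 z (n 2 (n 0 z (n 0 z (n 0 z
 z))) (n 0 z (n 0 z (n 0 z (n 0 z (n 0 z z)))))))) (n 505 (n 0 z (n 0 z (n 0 z (n 0 z (n 0 z (n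
 0 z (n 0 z (n 0 z z)))))))) (n 505 (n 0 z (n 0 z (n 0 z (n 0 z (n 0 z (n 0 z (n 0 z (n 2 (n 0 z
 z) z)))))))) (n 505 (n 0 z (n 2 z (n 0 z (n 0 z (n 0 z (n 0 z (n 0 z (n 0 z z))))))))
 z)))))))))))) (n 0 (n 0 z (n 271 (n 0 z (n 0 z (n 0 z (n 0 z (n 0 z (n 0 z (n 0 z (n 0 z (n 0 z
 (n 0 z (n 0 z (n 0 z z)))))))))))) (n 271 (n 0 z (n 0 z (n 0 z (n 0 z (n 0 z (n 0 z (n 0 z (n 0
 z (n 0 z (n 0 z (n 0 z (n 7741699 z z)))))))))))) (n 271 (n 0 z (n 0 z (n 0 z (n 0 z (n 0 z (n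
 0 z (n 0 z (n 0 z (n 0 z (n 2 (n 2 (n 0 z (n 0 z (n 0 z (n 0 z (n 0 (n 8790275 z z) (n 0 z
 z)))))) (n 1 z (n 2 (n 0 z (n 0 z (n 0 z (n 0 z (n 0 z (n 0 z z)))))) (n 2 (n 0 z (n 0 z (n 0 z
 (n 0 z (n 0 (n 8790275 z z) (n 0 z z)))))) (n 2 (n 0 z (n 0 z (n 0 z (n 0 z (n 0 z (n 0 z
 z)))))) (n 2 (n 0 z (n 0 z (n 0 z (n 0 z (n 0 z (n 0 z z)))))) (n 1 z z))))))) (n 0 z (n 0 z
 z)))))))))))) (n 535 (n 0 z (n 0 z (n 0 z (n 0 z (n 0 z (n 0 z (n 0 z (n 0 z (n 0 z z)))))))))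
 (n 3 (n 0 z (n 0 z (n 0 z (n 0 z (n 0 z (n 0 z (n 0 z (n 0 z (n 0 z (n 0 z (n 0 z (n 0 z (n 0 z
 (n 0 z (n 0 z (n 0 z (n 0 z (n 0 z (n 0 z (n 0 z (n 0 z (n 0 z (n 0 z (n 0 z (n 0 z (n 0 z (n 0
 z (n 0 z (n 0 z (n 0 z (n 0 z (n 0 z (n 0 z (n 0 z (n 0 z z)))))))))))))))))))))))))))))))))))
 (n 3 (n 0 z (n 0 z (n 0 z (n 0 z (n 0 z (n 0 z (n 0 z (n 0 z (n 0 z (n 0 z (n 0 z (n 0 z (n 0 z
 (n 2 (n 2 (n 0 z (n 0 z (n 0 z (n 0 z (n 0 z (n 0 z z)))))) (n 2 (n 0 z (n 0 z (n 0 z (n 0 z (n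
 0 z (n 0 z z)))))) (n 2 (n 0 z (n 0 z (n 0 z (n 0 z (n 0 z (n 0 z z)))))) (n 2 (n 0 z (n 0 z (n
 0 z (n 0 (n 8790275 z z) (n 0 (n 8790275 z (n 8790275 z z)) (n 0 (n 8790275 z z) z)))))) z))))
 (n 0 z (n 0 z (n 0 z (n 0 z (n 0 z (n 0 z (n 0 z (n 0 z (n 0 z (n 0 z (n 0 z (n 0 z (n 0 z (n 0
 z (n 0 z (n 0 z (n 0 z (n 0 z (n 0 z (n 0 z (n 0 z z))))))))))))))))))))))))))))))))))) (n 533
 (n 0 z (n 0 z (n 0 z (n 0 z (n 0 z (n 0 z (n 0 z (n 0 z (n 0 z (n 0 z (n 0 z (n 0 z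
 z)))))))))))) (n 533 (n 0 z (n 0 z (n 0 z (n 0 z (n 0 z (n 0 z (n 0 z (n 2 (n 0 z (n 0 z z)) (n
 0 z (n 0 z (n 0 z (n 0 z z)))))))))))) (n 533 (n 0 z (n 0 z (n 0 z (n 0 z (n 0 z (n 0 z (n 0 z
 (n 0 z (n 2 (n 0 z z) (n 0 z (n 0 z (n 0 z z)))))))))))) (n 533 (n 7741699 z (n 0 z (n 0 z (n 0
 z (n 0 z (n 0 z (n 0 z (n 0 z (n 0 z (n 0 z (n 0 z (n 0 z z)))))))))))) z))))))))))) (n 0 (n
 765 (n 0 z (n 0 z (n 0 z (n 0 z (n 0 z (n 2 (n 0 z (n 0 z (n 1 z (n 1 z (n 2 (n 0 z (n 0 z (n 0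
 z (n 0 z (n 0 (n 3278955 z z) (n 0 z z)))))) (n 1 z (n 2 (n 0 z (n 0 z (n 0 z (n 0 z (n 0 z (n
 0 z z)))))) (n 1 z (n 2 (n 0 z (n 0 (n 8855811 z z) (n 0 z (n 0 (n 8855811 z z) (n 0 (n 8855811
 z (n 8855811 z z)) (n 0 z z)))))) z))))))))) (n 0 z (n 0 z (n 0 z (n 0 z (n 0 z (n 0 z (n 0 z
 (n 0 z (n 0 z (n 0 z (n 0 z (n 0 z (n 0 z z))))))))))))))))))) (n 765 (n 0 z (n 0 z (n 0 z (n 0
 z (n 0 z (n 0 z (n 0 z (n 0 z (n 0 z (n 0 z (n 0 z (n 0 z (n 0 z (n 0 z (n 0 z (n 0 z (n 0 z (n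
 0 z (n 0 z z))))))))))))))))))) (n 765 (n 0 z (n 0 z (n 0 z (n 0 z (n 0 z (n 0 z (n 0 z (n 0 z
 (n 0 z (n 0 z (n 0 z (n 0 z (n 0 z (n 0 z (n 0 z (n 0 z (n 0 z (n 0 z (n 0 z
 z))))))))))))))))))) (n 627 (n 0 z (n 0 z (n 2 (n 1 z (n 2 (n 0 z (n 0 z (n 0 z (n 0 z (n 0 z
 (n 0 z z)))))) (n 2 (n 0 z (n 0 z (n 0 z (n 0 z (n 0 (n 8855811 z z) (n 0 z z)))))) (n 2 (n 0 z
 (n 0 z (n 0 z (n 0 z (n 0 z (n 0 z z)))))) (n 2 (n 0 z (n 0 z (n 0 z (n 0 z (n 0 z (n 0 z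
 z)))))) (n 2 (n 0 z (n 0 (n 8855811 z z) (n 0 z (n 0 (n 8855811 z z) (n 0 (n 8855811 z (n
 8855811 z z)) (n 0 z z)))))) z)))))) (n 0 z (n 0 z (n 0 z z)))))) (n 63 (n 0 z (n 0 z (n 0 z (n
 0 z (n 0 z (n 0 z (n 0 z (n 0 z (n 0 z (n 0 z (n 2 (n 0 z (n 1 z (n 2 (n 0 z (n 0 z (n 0 z (n 0
 z (n 0 z (n 0 z z)))))) (n 1 z (n 1 z z))))) (n 0 z (n 0 z (n 0 z z)))))))))))))) (n 63 (n 0 z
 (n 0 z (n 0 z (n 0 z (n 0 z (n 0 z (n 0 z (n 0 z (n 0 z (n 0 z (n 0 z (n 0 z (n 0 z (n 0 z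
 z)))))))))))))) (n 625 (n 0 z (n 2 (n 0 z (n 0 z (n 0 z z))) (n 0 z (n 0 z (n 0 z (n 0 z (n 0 z
 (n 0 z z)))))))) (n 625 (n 0 z (n 0 z (n 0 z (n 0 z (n 0 z (n 0 z (n 0 z (n 0 z z)))))))) (n
 625 (n 0 z (n 0 z (n 0 z (n 0 z (n 0 z (n 0 z (n 0 z (n 2 (n 0 z z) z)))))))) (n 625 (n 2 z (n
 0 z (n 0 z (n 0 z (n 0 z (n 0 z (n 0 z (n 0 z z)))))))) z)))))))))) (n 0 (n 0 z (n 0 z (n 55 (n
 0 z (n 0 z (n 0 z (n 0 z (n 0 z (n 0 z (n 0 z (n 0 z (n 0 z (n 0 z (n 0 z (n 0 z (n 0 z (n 0 z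
 z)))))))))))))) (n 51 (n 0 z (n 0 z (n 0 z (n 0 z (n 0 z (n 0 z (n 0 z (n 0 z (n 0 z (n 0 z (n
 0 z z))))))))))) (n 51 (n 0 z (n 2 (n 1 z (n 2 (n 0 z (n 0 z (n 0 z (n 0 z (n 0 (n 8872731 z z)
 (n 0 z z)))))) (n 1 z (n 2 (n 0 z (n 0 z (n 0 z (n 0 (n 8790275 z z) (n 0 (n 8790275 z (n
 8790275 z z)) (n 0 (n 8790275 z z) z)))))) z)))) (n 0 z (n 0 z (n 0 z (n 0 z (n 0 z (n 0 z (n 0
 z (n 0 z (n 0 z z))))))))))) (n 49 (n 0 z (n 0 z (n 0 z (n 0 z (n 0 z (n 0 z (n 0 z (n 0 z (n 0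
 z (n 0 z (n 0 z (n 0 z z)))))))))))) (n 49 (n 0 z (n 0 z (n 2 (n 0 z (n 0 z z)) (n 0 z (n 0 z
 (n 0 z (n 0 z (n 0 z (n 0 z (n 0 z (n 0 z (n 0 z z)))))))))))) (n 49 (n 0 z (n 0 z (n 0 z (n 0
 z (n 0 z (n 0 z (n 0 z (n 0 z (n 0 z (n 0 z (n 0 z (n 0 z z)))))))))))) (n 49 (n 0 z (n 0 z (n
 0 z (n 0 z (n 0 z (n 0 z (n 0 z (n 0 z (n 0 z (n 0 z (n 0 z (n 0 z z)))))))))))) z))))))))) (n
 0 (n 0 z (n 487 (n 0 z (n 7741699 z (n 0 z (n 0 z (n 0 z z))))) (n 3 (n 7741699 z (n 0 z (n 0 z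
 (n 0 z (n 0 z (n 0 z z)))))) (n 3 (n 0 z (n 0 z (n 0 z (n 0 z (n 0 z (n 0 z z)))))) (n 1 (n
 7741699 z (n 0 z (n 0 z (n 0 z (n 0 z (n 0 z (n 0 z (n 0 z (n 0 z (n 0 z (n 0 z (n 0 z (n 0 z
 (n 0 z (n 0 z (n 0 z (n 0 z (n 0 z (n 0 z (n 0 z (n 0 z (n 0 z (n 0 z (n 0 z (n 0 z
 z))))))))))))))))))))))))) (n 1 (n 0 z (n 0 z (n 0 z (n 0 z (n
 0x176476430186ea8c862077a08218208608607218a182072182085e89f8607e085e8208217a08618208208607a07de8201001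
 z (n
 0xdd91d90c0e02ea8c86203827a857b7b80797c7c6e7e86768b7e908f8470a07e9a6982827c7e76808f7b8a79876777877d8b73769382a3776c768c84761009
 z (n 0 z (n 0 z (n 0 z (n 0 z (n 0 z (n 0 z (n 0 z (n 0 z (n 0 z (n 0 z (n 0 z (n 0 z (n 0 z (n
 0 z (n 0 z (n 0 z (n 0 z (n 0 z (n 0 z z))))))))))))))))))))))))) (n 1 (n 0 z (n 0 z (n 0 z (n
 0 z (n 0 z (n 0 z (n 0 z (n 2 (n 0 z z) (n 0 z (n 0 z (n 0 z (n 0 z (n 0 z (n 0 z (n 0 z (n 0 z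
 (n 0 z (n 0 z (n 0 z (n 0 z (n 0 z (n 0 z (n 0 z (n 0 z (n 0 z z))))))))))))))))))))))))) (n 1
 (n 0 z (n 0 z (n 0 z (n 0 z (n 0 z (n 0 z (n 0 z (n 0 z (n 0 z (n 0 z (n 0 z (n 0 z (n 0 z (n 0
 z (n 0 z (n 0 z (n 0 z (n 0 z (n 0 z (n 0 z (n 0 z (n 0 z (n 0 z (n 0 z (n 0 z
 z))))))))))))))))))))))))) z)))))))) (n 0 (n 247 (n 0 z (n 0 z (n 2 (n 1 z (n 2 (n 0 z (n 0 z
 (n 0 z (n 0 z (n 0 z (n 0 z z)))))) (n 2 (n 0 z (n 0 z (n 0 z (n 0 z (n 0 (n 8855811 z z) (n 0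
 z z)))))) (n 2 (n 0 z (n 0 z (n 0 z (n 0 z (n 0 z (n 0 z z)))))) (n 2 (n 0 z (n 0 z (n 0 z (n 0
 z (n 0 z (n 0 z z)))))) (n 1 z z)))))) (n 0 z (n 0 z z))))) (n 243 (n 0 z (n 2 (n 0 z (n 1 z (n
 2 (n 0 z (n 0 z (n 0 z (n 0 z (n 0 z (n 0 z z)))))) (n 2 (n 0 z (n 0 z (n 0 z (n 0 z (n 0 z (n
 0 z z)))))) (n 1 z z))))) (n 0 z (n 0 z (n 0 z (n 0 z z)))))) (n 243 (n 0 z (n 0 z (n 0 z (n 0
 z (n 0 z (n 0 z z)))))) (n 241 (n 0 z (n 2 (n 0 z (n 0 z (n 0 z z))) (n 0 z (n 0 z (n 0 z (n 0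
 z (n 0 z (n 0 z (n 0 z (n 0 z (n 0 z (n 0 z (n 0 z (n 0 z z)))))))))))))) (n 241 (n 0 z (n 0 z
 (n 0 z (n 0 z (n 0 z (n 0 z (n 0 z (n 0 z (n 0 z (n 0 z (n 0 z (n 0 z (n 0 z (n 0 z
 z)))))))))))))) (n 241 (n 0 z (n 0 z (n 0 z (n 0 z (n 2 (n 0 z z) (n 0 z (n 0 z (n 0 z (n 0 z
 (n 0 z (n 0 z (n 0 z (n 0 z (n 0 z z)))))))))))))) (n 241 (n 0 z (n 0 z (n 0 z (n 0 z (n 0 z (n
 0 z (n 0 z (n 0 z (n 0 z (n 0 z (n 0 z (n 0 z (n 0 z (n 0 z z)))))))))))))) z))))))) (n 0 (n 63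
 (n 0 z (n 0 z (n 0 z (n 0 z (n 0 z (n 0 z (n 0 z (n 0 z (n 0 z z))))))))) (n 63 (n 0 z (n 0 z
 (n 2 (n 2 (n 0 z (n 0 z (n 0 z (n 0 z (n 0 z (n 0 z z)))))) (n 2 (n 0 z (n 0 z (n 0 z (n 0 z (n
 0 z (n 0 z z)))))) (n 2 (n 0 z (n 0 z (n 0 z (n 0 z (n 0 z (n 0 z z)))))) (n 2 (n 0 z (n 0 z (n
 0 z (n 0 (n 8790275 z z) (n 0 (n 8790275 z (n 8790275 z z)) (n 0 (n 8790275 z z) z)))))) z))))
 (n 0 z (n 0 z (n 0 z (n 0 z (n 0 z (n 0 z z))))))))) (n 581 (n 0 z (n 0 z (n 0 z (n 0 z (n 0 z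
 (n 0 z (n 0 z (n 0 z (n 0 z (n 0 z (n 0 z (n 0 z (n 0 z (n 0 z (n 0 z (n 0 z (n 0 z (n 0 z (n 0
 z (n 0 z (n 0 z (n 0 z (n 0 z (n 0 z (n 0 z (n 0 z (n 0 z (n 0 z (n 0 z (n 0 z (n 0 z (n 0 z (n
 0 z (n 0 z (n 0 z (n 0 z (n 0 z (n 0 z (n 0 z (n 0 z (n 0 z (n 0 z (n 0 z (n 0 z (n 0 z (n 0 z
 (n 0 z (n 0 z (n 0 z z))))))))))))))))))))))))))))))))))))))))))))))))) (n 581 (n 0 z (n 0 z (n
 0 z (n 0 z (n 0 z (n 0 z (n 0 z (n 0 z (n 0 z (n 0 z (n 0 z (n 0 z (n 0 z (n 0 z (n 0 z (n 0 z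
 (n 0 z (n 0 z (n 0 z (n 0 z (n 0 z (n 0 z (n 0 z (n 0 z (n 0 z (n 0 z (n 0 z (n 0 z (n 0 z (n 0
 z (n 0 z (n 0 z (n 2 (n 0 z (n 0 z z)) (n 0 z (n 0 z (n 0 z (n 0 z (n 0 z (n 0 z (n 0 z (n 0 z
 (n 0 z (n 0 z (n 0 z (n 0 z (n 0 z (n 0 z (n 0 z (n 0 z
 z))))))))))))))))))))))))))))))))))))))))))))))))) (n 581 (n 0 z (n 0 z (n 0 z (n 0 z (n 0 z (n
 0 z (n 0 z (n 0 z (n 0 z (n 0 z (n 0 z (n 0 z (n 0 z (n 0 z (n 0 z (n 0 z (n 0 z (n 0 z (n 0 z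
 (n 0 z (n 0 z (n 0 z (n 0 z (n 0 z (n 0 z (n 0 z (n 0 z (n 0 z (n 0 z (n 0 z (n 0 z (n 0 z (n 0
 z (n 0 z (n 0 z (n 0 z (n 0 z (n 0 z (n 0 z (n 0 z (n 0 z (n 0 z (n 0 z (n 0 z (n 0 z (n 0 z (n
 0 z (n 0 z (n 0 z z))))))))))))))))))))))))))))))))))))))))))))))))) (n 581 (n 0 z (n 0 z (n 0
 z (n 0 z (n 0 z (n 0 z (n 0 z (n 0 z (n 0 z (n 0 z (n 0 z (n 0 z (n 0 z (n 0 z (n 0 z (n 0 z (n
 0 z (n 0 z (n 0 z (n 0 z (n 0 z (n 0 z (n 0 z (n 0 z (n 0 z (n 0 z (n 0 z (n 0 z (n 0 z (n 0 z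
 (n 0 z (n 0 z (n 0 z (n 0 z (n 0 z (n 0 z (n 0 z (n 0 z (n 0 z (n 0 z (n 0 z (n 0 z (n 0 z (n 0
 z (n 0 z (n 0 z (n 0 z (n 0 z (n 0 z z))))))))))))))))))))))))))))))))))))))))))))))))) z))))))
 (n 0 (n 0 z (n 73 (n 0 z (n 0 z (n 0 z (n 0 z (n 0 z (n 0 z (n 0 z (n 0 z (n 0 z (n 0 z (n 0 z
 (n 0 z (n 0 z (n 0 z (n 0 z (n 0 z (n 0 z (n 0 z (n 0 z (n 0 z (n 0 z (n 0 z (n 0 z (n 0 z (n 0
 z (n 0 z (n 0 z (n 0 z (n 0 z (n 0 z (n 0 z (n 0 z (n 0 z (n 0 z (n 0 z (n 0 z (n 0 z (n 0 z (n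
 0 z (n 0 z (n 0 z (n 0 z (n 0 z (n 0 z (n 0 z (n 0 z (n 0 z
 z))))))))))))))))))))))))))))))))))))))))))))))) (n 73 (n 0 z (n 0 z (n 0 z (n 0 z (n 0 z (n 0
 z (n 0 z (n 0 z (n 0 z (n 0 z (n 0 z (n 0 z (n 0 z (n 0 z (n 0 z (n 0 z (n 0 z (n 0 z (n 0 z (n
 0 z (n 0 z (n 0 z (n 0 z (n 0 z (n 0 z (n 0 z (n 0 z (n 0 z (n 0 z (n 0 z (n 0 z (n 0 z (n 0 z
 (n 0 z (n 0 z (n 0 z (n 0 z (n 0 z (n 0 z (n 0 z (n 0 z (n 0 z (n 0 z (n 0 z (n 2 (n 0 z (n 0 z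
 z)) (n 0 z (n 0 z z))))))))))))))))))))))))))))))))))))))))))))))) (n 73 (n 0 z (n 0 z (n 0 z
 (n 0 z (n 0 z (n 0 z (n 0 z (n 0 z (n 0 z (n 0 z (n 0 z (n 0 z (n 0 z (n 0 z (n 0 z (n 0 z (n 0
 z (n 0 z (n 0 z (n 0 z (n 0 z (n 0 z (n 0 z (n 0 z (n 0 z (n 0 z (n 0 z (n 0 z (n 0 z (n 0 z (n
 0 z (n 0 z (n 0 z (n 0 z (n 0 z (n 0 z (n 0 z (n 2 (n 0 z z) (n 0 z (n 0 z (n 0 z (n 0 z (n 0 z
 (n 0 z (n 0 z (n 0 z (n 0 z z))))))))))))))))))))))))))))))))))))))))))))))) (n 73 (n 0 z (n 0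
 z (n 0 z (n 0 z (n 0 z (n 0 z (n 0 z (n 0 z (n 0 z (n 0 z (n 0 z (n 0 z (n 0 z (n 0 z (n 0 z (n
 0 z (n 0 z (n 0 z (n 0 z (n 0 z (n 0 z (n 0 z (n 0 z (n 0 z (n 0 z (n 0 z (n 0 z (n 0 z (n 0 z
 (n 0 z (n 0 z (n 0 z (n 0 z (n 0 z (n 0 z (n 0 z (n 0 z (n 0 z (n 0 z (n 0 z (n 0 z (n 0 z (n 0
 z (n 0 z (n 0 z (n 0 z (n 0 z z))))))))))))))))))))))))))))))))))))))))))))))) z))))) (n 0 (n 1
 (n 0 z (n 2 (n 0 z (n 0 z (n 0 z z))) (n 0 z (n 0 z (n 0 z (n 0 z (n 0 z (n 0 z (n 0 z (n 0 z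
 (n 0 z z))))))))))) (n 1 (n 0 z (n 0 z (n 0 z (n 0 z (n 0 z (n 0 z (n 0 z (n 0 z (n 0 z (n 0 z
 (n 0 z z))))))))))) (n 1 (n 0 z (n 0 z (n 0 z (n 0 z (n 0 z (n 0 z (n 0 z (n 0 z (n 0 z (n 0 z
 (n 2 (n 0 z z) z))))))))))) (n 1 (n 0 z (n 0 z (n 0 z (n 0 z (n 0 z (n 0 z (n 0 z (n 2 z (n 0 z
 (n 0 z (n 0 z z))))))))))) z)))) (n 0 (n 0 z (n 0 z (n 0 z z))) (n 0 (n 0 z (n 0 z z)) (n 0 (n
 0 z z) (n 0 z z)))))))))))))) (n 0 (n 1 (n 2 z (n 5310011 z (n 5443683 z (n 2044 z (n 2044 z (n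
 2044 z z)))))) (n 1 (n 3282443 z (n 3282443 z (n 3282443 z (n 3282443 z (n 3282443 z (n 3282443
 z z)))))) z)) (n 0 (n 0x4167a55067a49b2052516621262611 (n 0 (n 0 (n 7741699 z (n 7741699 z (n
 7741699 z (n 7741699 z (n 7741699 z (n 7741699 z z)))))) z) (n 0 (n 321 (n 1 (n 7749667 z (n
 7749667 z (n 7749667 z (n 7749667 z (n 7749667 z (n 7749667 z z)))))) (n 1 (n 7749667 z (n
 7749667 z (n 7749667 z (n 7749667 z (n 7749667 z (n 7749667 z z)))))) z)) (n 255 (n 1 (n 2 z (n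
 7673403 z (n 7680355 z (n 2236 z (n 2236 z (n 2236 z z)))))) (n 1 (n 7741699 z (n 7741699 z (n
 7741699 z (n 7741699 z (n 7741699 z (n 7741699 z z)))))) (n 1 (n 2236 z (n 10 z (n 7680355 z (n
 2236 z (n 2236 z (n 7673403 z z)))))) (n 1 (n 7741699 z (n 7741699 z (n 7741699 z (n 7741699 z
 (n 7741699 z (n 7741699 z z)))))) z)))) (n 321 (n 1 (n 7741699 z (n 76 z (n 2044 z (n 2044 z (n
 2044 z (n 2044 z z)))))) (n 1 (n 7741699 z (n 2044 z (n 2044 z (n 2044 z (n 2044 z (n 2044 z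
 z)))))) (n 1 (n 7741699 z (n 2044 z (n 2044 z (n 2044 z (n 2044 z (n 2044 z z)))))) (n 1 (n
 7741699 z (n 4396811 z (n 4396811 z (n 4396811 z (n 4396811 z (n 4396811 z z)))))) (n 1 (n
 7741699 z (n 4396843 z (n 4396843 z (n 4396843 z (n 4396843 z (n 4396843 z z)))))) (n 1 (n
 7741699 z (n 18 z (n 2044 z (n 2044 z (n 2044 z (n 2044 z z)))))) (n 1 (n 7741699 z (n 2044 z
 (n 6621003 z (n 2044 z (n 2044 z (n 2044 z z)))))) z))))))) (n 291 (n 1 (n 7746843 z (n 2428 z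
 (n 2428 z (n 412 z (n 2428 z (n 2428 z z)))))) (n 0 z (n 0 z (n 0 z (n 1 (n 7680355 z (n
 7680355 z (n 7680355 z (n 7680355 z (n 7680355 z (n 7680355 z z)))))) (n 1 (n 2428 z (n 7538203
 z (n 2428 z (n 7746843 z (n 2428 z (n 2428 z z)))))) (n 0 z (n 0 z (n 1 (n 7741699 z (n 7741699
 z (n 7741699 z (n 7741699 z (n 7741699 z (n 7741699 z z)))))) z))))))))) (n 37 (n 1 (n 7680355
 z (n 7680355 z (n 7754035 z (n 7680355 z (n 7680355 z (n 7680355 z z)))))) (n 0 z (n 1 (n 2572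
 z (n 7673403 z (n 7754035 z (n 7750971 z (n 2572 z (n 26 z z)))))) (n 0 z (n 0 z (n 0 z (n 0 z
 (n 1 (n 7749667 z (n 7749667 z (n 7749667 z (n 7749667 z (n 7749667 z (n 7749667 z z)))))) (n 0
 z z))))))))) (n 341 (n 1 (n 7741699 z (n 7741699 z (n 7741699 z (n 7741699 z (n 7741699 z (n
 7741699 z z)))))) (n 1 (n 6493963 z (n 2860 z (n 2860 z (n 2860 z (n 2860 z (n 2860 z z))))))
 (n 1 (n 2724 z (n 2860 z (n 4261691 z (n 7538203 z (n 2860 z (n 4331355 z z)))))) (n 1 (n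
 7741699 z (n 7741699 z (n 7741699 z (n 7741699 z (n 7741699 z (n 7741699 z z)))))) (n 1 (n
 7754035 z (n 7754035 z (n 7754035 z (n 7754035 z (n 7754035 z (n 7754035 z z)))))) (n 1 (n
 6559499 z (n 6493995 z (n 4329587 z (n 2860 z (n 4 z (n 2860 z z)))))) (n 1 (n 2860 z (n 2860 z
 (n 4331323 z (n 2860 z (n 7538203 z (n 2860 z z)))))) (n 1 (n 2860 z (n 7538203 z (n 2860 z (n
 6494027 z (n 2860 z (n 34 z z)))))) (n 1 (n 2860 z (n 2860 z (n 2860 z (n 7538203 z (n 2860 z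
 (n 2860 z z)))))) (n 1 (n 7673403 z (n 7673403 z (n 7673403 z (n 7673403 z (n 7673403 z (n
 6566259 z z)))))) (n 1 (n 7673403 z (n 7673403 z (n 7673403 z (n 7673403 z (n 7673403 z (n
 6566259 z z)))))) (n 0 z z)))))))))))) (n 321 (n 1 (n 7741699 z (n 7749667 z (n 7749667 z (n
 7749667 z (n 7749667 z (n 7749667 z z)))))) (n 1 (n 7741699 z (n 7749667 z (n 7749667 z (n
 7749667 z (n 7749667 z (n 7749667 z z)))))) z)) z))))))) (n 0 (n 0 (n 0 z (n 0 z (n 0 z (n 0 z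
 (n 0 z z))))) (n 0 (n 0 z (n 0 z (n 0 z (n 0 z z)))) (n 0 (n 0 z (n 0 z (n 0 z z))) (n 0 (n 0 z
 (n 0 z z)) (n 0 (n 0 z z) z))))) (n 0 (n 279 (n 0 (n 0 z (n 0 z (n 0 z (n 0 z (n 0 z z))))) (n
 0 (n 0 z (n 0 z (n 0 z (n 0 z (n 0 z z))))) (n 0 (n 0 z (n 0 z (n 0 z (n 0 z (n 0 z z))))) (n 0
 (n 0 z (n 0 z (n 0 z (n 0 z (n 0 z z))))) (n 0 (n 0 z (n 0 z (n 0 z (n 0 z (n 0 z z))))) (n 0
 (n 0 z (n 0 z (n 0 z (n 0 z (n 0 z z))))) (n 0 (n 0 z (n 0 z (n 0 z (n 0 z (n 0 z z))))) (n 0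
 (n 0 z (n 0 z (n 0 z (n 0 z (n 0 z z))))) z)))))))) (n 321 (n 0 (n 0 z (n 0 z (n 0 z (n 0 z (n
 0 z z))))) (n 0 (n 0 z (n 0 z (n 0 z (n 0 z (n 0 z z))))) (n 0 (n 0 z (n 0 z (n 0 z (n 0 z (n 0
 z z))))) (n 0 (n 0 z (n 0 z (n 0 z (n 0 z (n 0 z z))))) (n 0 (n 0 z (n 0 z (n 0 z (n 0 z (n 0 z
 z))))) (n 0 (n 0 z (n 0 z (n 0 z (n 0 z (n 0 z z))))) (n 0 (n 0 z (n 0 z (n 0 z (n 0 z (n 0 z
 z))))) z))))))) (n 255 (n 0 (n 0 z (n 0 z (n 0 z (n 0 z (n 0 z z))))) (n 0 (n 0 z (n 0 z (n 0 z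
 (n 0 z (n 0 z z))))) (n 0 (n 0 z (n 0 z (n 0 z (n 0 z (n 0 z z))))) (n 0 (n 0 z (n 0 z (n 0 z
 (n 0 z (n 0 z z))))) (n 0 (n 0 z (n 0 z (n 0 z (n 0 z (n 0 z z))))) (n 0 (n 0 z (n 0 (n 8857163
 z z) (n 0 z (n 0 (n
 0x5ac3b09c8768584738d6f926d85497591a4738695778f798399d3887560867d638db4907d866058668ca16878844fc498bf394072b7855e0089
 z z) (n 0 z z))))) (n 0 (n 0 z (n 0 z (n 0 z (n 0 z (n 0 z z))))) (n 0 (n 0 z (n 0 z (n 0 z (n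
 0 z (n 0 z z))))) (n 0 (n 0 z (n 0 (n 8790275 z z) (n 0 z (n 0 (n 8790275 z z) (n 0 z z))))) (n
 0 (n 0 z (n 0 z (n 0 z (n 0 z (n 0 z z))))) (n 0 (n 0 z (n 0 z (n 0 z (n 0 z (n 0 z z))))) (n 0
 (n 0 z (n 0 z (n 0 z (n 0 z (n 0 z z))))) z)))))))))))) (n 303 (n 0 (n 0 z (n 0 z (n 0 z (n 0 z
 (n 0 z z))))) (n 0 (n 0 z (n 0 z (n 0 z (n 0 z (n 0 z z))))) (n 0 (n 0 z (n 0 z (n 0 z (n 0 z
 (n 0 z z))))) (n 0 (n 0 z (n 0 z (n 0 z (n 0 z (n 0 z z))))) (n 0 (n 0 z (n 0 z (n 0 (n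
 0x30eaea280785f8208208208208208207e07e07e08208608208208208208207e08208208208608207e07e00801 z
 z) (n 0 z (n 0 z z))))) (n 0 (n 0 z (n 0 z (n 0 z (n 0 z (n 0 z z))))) (n 0 (n 0 z (n 0 z (n 0
 z (n 0 z (n 0 z z))))) (n 0 (n 0 z (n 0 z (n 0 z (n 0 z (n 0 z z))))) (n 0 (n 0 (n 7612507 z (n
 0x3ac3a83b8757a778e708271757f78817174849d8ca869867c8588638f829d7c7a62799d707b847f8b6c646c927487987d788477a58355980089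
 z z)) (n 0 z (n 0 z (n 0 z (n 0 (n
 0x10e90e82078a08218608208208208217e08217e082082082082081f8208608208208208208218208208200801 z
 (n 8795979 z z)) z))))) (n 0 (n 0 z (n 0 z (n 0 z (n 0 z (n 0 z z))))) (n 0 (n 0 z (n 0 z (n 0
 z (n 0 z (n 0 z z))))) z))))))))))) (n 291 (n 0 (n 0 z (n 0 z (n 0 z (n 0 z (n 0 z z))))) (n 0
 (n 0 z (n 0 z (n 0 z (n 0 z (n 0 z z))))) (n 0 (n 0 z (n 0 z (n 0 z (n 0 z (n 0 z z))))) (n 0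
 (n 0 z (n 0 z (n 0 z (n 0 z (n 0 z z))))) (n 0 (n 0 z (n 0 z (n 0 z (n 0 z (n 0 z z))))) (n 0
 (n 0 z (n 0 z (n 0 z (n 0 z (n 0 z z))))) (n 0 (n 0 z (n 0 z (n 0 z (n 0 z (n 0 z z))))) (n 0
 (n 0 z (n 0 z (n 0 z (n 0 z (n 0 z z))))) (n 0 (n 0 z (n 0 z (n 0 z (n 0 z (n 0 z z)))))
 z))))))))) (n 51 (n 0 (n 0 z (n 0 z (n 0 z (n 0 z (n 0 z z))))) (n 0 (n 0 z (n 0 z (n 0 z (n 0
 z (n 0 z z))))) (n 0 (n 0 z (n 0 (n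
 0x1dc3b06d8547f76996a83617c866e936d74789b85c865817ba972698583969289497eb16b674fa277982d7da574a680bb897757a6bc66700089
 z z) (n 0 z (n 0 z (n 0 (n
 0x1dc3b06d8547f76996a83617c866e936d74789b85c865817ba972698583969289497eb16b674fa277982d7da574a680bb897757a6bc66700089
 z z) z))))) (n 0 (n 0 z (n 0 z (n 0 (n
 0x30eaea280781f8208608208208208607e07e07e182082081f8208208218208208208208208208208208200801 z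
 z) (n 0 z (n 0 z z))))) (n 0 (n 0 z (n 0 z (n 0 z (n 0 z (n 0 z z))))) (n 0 (n 0 z (n 0 z (n 0
 z (n 0 z (n 0 z z))))) (n 0 (n 0 z (n 0 z (n 0 z (n 0 z (n 0 z z))))) (n 0 (n 0 z (n 0 z (n 0 z
 (n 0 z (n 0 z z))))) (n 0 (n 0 z (n 0 z (n 0 z (n 0 z (n 0 z z))))) (n 0 (n 0 z (n 0 z (n 0 z
 (n 0 z (n 0 z z))))) (n 0 (n 0 z (n 0 (n 8790275 z z) (n 0 z (n 0 z (n 0 (n 8790275 z z) z)))))
 (n 0 (n 0 z (n 0 z (n 0 z (n 0 (n 8728931 z z) (n 0 (n 8728931 z z) z))))) (n 0 (n 0 z (n 0 z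
 (n 0 z (n 0 z (n 0 z z))))) (n 0 (n 0 z (n 0 z (n 0 z (n 0 z (n 0 z z))))) z)))))))))))))) (n
 321 (n 0 (n 0 z (n 0 z (n 0 z (n 0 z (n 0 z z))))) (n 0 (n 0 z (n 0 z (n 0 z (n 0 z (n 0 z
 z))))) (n 0 (n 0 (n
 0x4ac398848738483768a728f718455778d9c768590788c7a8293c3877866857d698baa8d7e8567606b899a6d7a8359b693b3474d75ac83660089
 z (n
 0x4b8737a838e6c8170877f906e70787f997ba27f8872936d85877c9483816885967575788f71785f7e986c928290868177a2a268850049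
 z z)) (n 0 z (n 0 z (n 0 z (n 0 z z))))) (n 0 (n 0 z (n 0 z (n 0 z (n 0 z (n 0 z z))))) (n 0 (n
 0 z (n 0 z (n 0 z (n 0 z (n 0 z z))))) (n 0 (n 0 z (n 0 z (n 0 z (n 0 z (n 0 z z))))) (n 0 (n 0
 (n
 0x5ac3b09c8768584738d6f926d85497591a4738695778f798399d3887560867d638db4907d866058668ca16878844fc498bf394072b7855e0089
 z z) (n 0 z (n 0 z (n 0 z (n 0 z z))))) (n 0 (n 0 z (n 0 z (n 0 z (n 0 z (n 0 z z))))) (n 0 (n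
 0 (n 8861275 z (n 8861275 z z)) (n 0 z (n 0 z (n 0 z (n 0 z z))))) (n 0 (n 0 z (n 0 (n 8798243
 z (n 8798243 z z)) (n 0 z (n 0 (n 8798243 z (n 8798243 z z)) (n 0 z z))))) (n 0 (n 0 z (n 0 z
 (n 0 z (n 0 z (n 0 z z))))) (n 0 (n 0 z (n 0 z (n 0 z (n 0 z (n 0 z z))))) z)))))))))))) (n 81
 (n 0 (n 0 z (n 0 z (n 0 z (n 0 z (n 0 z z))))) (n 0 (n 0 z (n 0 z (n 0 z (n 0 z (n 0 z z)))))
 (n 0 (n 0 z (n 0 z (n 0 z (n 0 z (n 0 z z))))) (n 0 (n 0 z (n 0 z (n 0 z (n 0 z (n 0 z z)))))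
 (n 0 (n 0 z (n 0 z (n 0 z (n 0 z (n 0 (n 8799547 z (n 8799547 z z)) z))))) (n 0 (n 0 (n 8802611
 z (n 8802611 z z)) (n 0 z (n 0 z (n 0 z (n 0 (n 8802611 z (n 8802611 z z)) z))))) (n 0 (n 0 z
 (n 0 z (n 0 z (n 0 z (n 0 z z))))) (n 0 (n 0 z (n 0 z (n 0 z (n 0 z (n 0 z z))))) (n 0 (n 0 z
 (n 0 z (n 0 z (n 0 z (n 0 (n
 0x10e70e640382082082082082082179f82086086086082082181f82081f82081f8208208208208207e08200801 z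
 z) z))))) (n 0 (n 0 (n
 0x90a70a64037298d385199b7995e28ad8ee7646a3859d53ba57cb9ad6d46648e155ca5f965c5c6d8bf351f0801 z
 (n
 0x2ec3a8338757b798b73827477807a81747784978aa06e847d8486688c81977c7c687a97747c837f897069708e7686937e7984799e835e940089
 z z)) (n 0 z (n 0 z (n 0 z (n 0 (n
 0x8d8737b728280807e7455725d8c81888a90b07c7c7ebe6aa5869c7d76837a8b9a7d5d708a4d845fac8e5aa29185c75f685b82a16a0049
 z (n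
 0x5082ea06038df8228607a27df8218226e08de76086381e82282081f8218207e08208228a08a082079f7a10801 z
 z)) z))))) (n 0 (n 0 z (n 0 z (n 0 (n 8728931 z (n 8728931 z z)) (n 0 z (n 0 z z))))) (n 0 (n 0
 (n 0x30e70a640381f86082081f82086279f7e182086085f86082181f82082082081f8208208208208608208200801
 z z) (n 0 z (n 0 (n
 0x2e65082a078608208208208207e08617e07e07e08208608208208208208208208208208208208208208200801 z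
 z) (n 0 z (n 0 z z))))) (n 0 (n 0 (n
 0x5ac3989c8738584738d6f926d85497591a4738695778f798399d3887560867d638db4907d866058668ca16878844fc498bf394072b7855e0089
 z z) (n 0 z (n 0 z (n 0 z (n 0 z z))))) (n 0 (n 0 z (n 0 z (n 0 z (n 0 z (n 0 z z))))) (n 0 (n
 0 z (n 0 z (n 0 z (n 0 z (n 0 z z))))) (n 0 (n 0 z (n 0 z (n 0 (n 8652603 z (n 8591115 z z)) (n
 0 (n
 0x1b0e61387382081f82085f82081f8218207e081f8608607e081f89f81f8208208208218607e07e08217e00081 z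
 (n
 0x3ac3003b8607a778e708271757f78817174849d8ca869867c8588638f829d7c7a62799d707b847f8b6c646c927487987d788477a58355980089
 z z)) (n 0 (n
 0x1b0e60b87382181f82085f8617df8618607a081f85f86081f82081f81f8218208218208607e082081f7e00081 z
 (n
 0x3ac3003b8607a778e708271757f78817174849d8ca869867c8588638f829d7c7a62799d707b847f8b6c646c927487987d788477a58355980089
 z z)) z))))) (n 0 (n 0 z (n 0 z (n 0 z (n 0 z (n 0 z z))))) (n 0 (n 0 z (n 0 (n 8798243 z (n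
 8798243 z z)) (n 0 (n 8798243 z (n 8798243 z z)) (n 0 z (n 0 (n 8798243 z (n 8798243 z z))
 z))))) (n 0 (n 0 z (n 0 z (n 0 z (n 0 z (n 0 z z))))) (n 0 (n 0 z (n 0 z (n 0 z (n 0 z (n 0 z
 z))))) (n 0 (n 0 z (n 0 z (n 0 z (n 0 z (n 0 z z))))) (n 0 (n 0 z (n 0 z (n 0 z (n 0 z (n 0 (n
 0x10ed0ec6078608208607e08208208217e08217e082082082082081f82082082086082081f8208208208200801 z
 z) z))))) (n 0 (n 0 z (n 0 z (n 0 z (n 0 z (n 0 z z))))) (n 0 (n 0 z (n 0 z (n 0 z (n 0 z (n 0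
 z z))))) (n 0 (n 0 z (n 0 z (n 0 z (n 0 z (n 0 z z))))) (n 0 (n 0 (n 8802611 z z) (n 0 z (n 0
 (n 8802611 z z) (n 0 z (n 0 z z))))) (n 0 (n 0 z (n 0 z (n 0 z (n 0 z (n 0 z z))))) (n 0 (n 0 z
 (n 0 z (n 0 z (n 0 z (n 0 z z))))) (n 0 (n 0 z (n 0 z (n 0 z (n 0 z (n 0 z z))))) (n 0 (n 0 (n
 0x30a70a640382182082085f8208607df82085f8208608608208207e182082081f8208208218208208208200801 z
 z) (n 0 z (n 0 z (n 0 (n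
 0x875875201830eb0a640382082082082082082082082086085f82082082081f82081f8208208208208208208208208201001
 z z) (n 0 z z))))) (n 0 (n 0 z (n 0 z (n 0 z (n 0 z (n 0 z z))))) (n 0 (n 0 z (n 0 z (n 0 z (n
 0 z (n 0 z z))))) (n 0 (n 0 z (n 0 z (n 0 z (n 0 z (n 0 z z))))) (n 0 (n 0 z (n 0 z (n 0 z (n 0
 z (n 0 z z))))) (n 0 (n 0 z (n 0 z (n 0 z (n 0 z (n 0 z z)))))
 z))))))))))))))))))))))))))))))))))) (n 75 (n 0 (n 0 z (n 0 (n 6621307 z (n 6621307 z z)) (n 0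
 z (n 0 z (n 0 z z))))) (n 0 (n 0 z (n 0 z (n 0 z (n 0 z (n 0 z z))))) (n 0 (n 0 z (n 0 z (n 0 z
 (n 0 z (n 0 z z))))) (n 0 (n 0 z (n 0 (n
 0x30ed0ec6078a081f8208208208218217e082082182082082081f8208208208208208208208218208208200801 z
 (n 0x10c70e2a030821 z z)) (n 0 z (n 0 z (n 0 z z))))) (n 0 (n 0 z (n 0 z (n 0 z (n 0 z (n 0 z
 z))))) (n 0 (n 0 z (n 0 z (n 0 z (n 0 z (n 0 z z))))) (n 0 (n 0 (n 8799547 z (n 8799547 z z))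
 (n 0 (n 8799547 z (n 8799547 z z)) (n 0 z (n 0 z (n 0 z z))))) (n 0 (n 0 z (n 0 z (n 0 z (n 0 z
 (n 0 z z))))) (n 0 (n 0 z (n 0 z (n 0 z (n 0 z (n 0 z z))))) (n 0 (n 0 z (n 0 z (n 0 z (n 0 z
 (n 0 z z))))) (n 0 (n 0 z (n 0 z (n 0 z (n 0 z (n 0 z z))))) z))))))))))) (n 37 (n 0 (n 0 z (n
 0 z (n 0 z (n 0 z (n 0 z z))))) (n 0 (n 0 z (n 0 z (n 0 z (n 0 z (n 0 z z))))) (n 0 (n 0 z (n 0
 z (n 0 z (n 0 z (n 0 z z))))) (n 0 (n 0 (n 8861275 z (n 7754371 z z)) (n 0 z (n 0 z (n 0 z (n 0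
 z z))))) (n 0 (n 0 (n
 0x3ac3003b8607a778e708271757f78817174849d8ca869867c8588638f829d7c7a62799d707b847f8b6c646c927487987d788477a58355980089
 z (n
 0x3ac3003b8607a778e708271757f78817174849d8ca869867c8588638f829d7c7a62799d707b847f8b6c646c927487987d788477a58355980089
 z z)) (n 0 z (n 0 z (n 0 z (n 0 (n
 0x3ac3003b8607a778e708271757f78817174849d8ca869867c8588638f829d7c7a62799d707b847f8b6c646c927487987d788477a58355980089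
 z (n
 0x3ac3003b8607a778e708271757f78817174849d8ca869867c8588638f829d7c7a62799d707b847f8b6c646c927487987d788477a58355980089
 z z)) z))))) (n 0 (n 0 z (n 0 z (n 0 z (n 0 z (n 0 z z))))) (n 0 (n 0 z (n 0 z (n 0 z (n 0 z (n
 0 z z))))) (n 0 (n 0 z (n 0 z (n 0 z (n 0 z (n 0 z z))))) (n 0 (n 0 z (n 0 z (n 0 z (n 0 z (n 0
 z z))))) z))))))))) (n 357 (n 0 (n 0 z (n 0 z (n 0 (n 8721979 z z) (n 0 z (n 0 z z))))) (n 0 (n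
 0 z (n 0 z (n 0 z (n 0 z (n 0 z z))))) (n 0 (n 0 (n
 0x36c3203b8627f76996a83617c866e936d74789b85c865817ba972698583969289497eb16b674fa277982d7da574a680bb897757a6bc66700089
 z z) (n 0 z (n 0 z (n 0 z (n 0 z z))))) (n 0 (n 0 z (n 0 z (n 0 z (n 0 z (n 0 z z))))) (n 0 (n
 0 z (n 0 z (n 0 z (n 0 z (n 0 z z))))) (n 0 (n 0 (n
 0x5ac1089c8218584738d6f926d85497591a4738695778f798399d3887560867d638db4907d866058668ca16878844fc498bf394072b7855e0089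
 z z) (n 0 z (n 0 z (n 0 z (n 0 z z))))) (n 0 (n 0 z (n 0 z (n 0 (n 8802611 z z) (n 0 z (n 0 z
 z))))) (n 0 (n 0 z (n 0 z (n 0 z (n 0 z (n 0 z z))))) (n 0 (n 0 z (n 0 z (n 0 z (n 0 z (n 0 z
 z))))) (n 0 (n 0 z (n 0 (n 8798243 z z) (n 0 z (n 0 (n 8798243 z z) (n 0 z z))))) (n 0 (n 0 z
 (n 0 z (n 0 z (n 0 z (n 0 z z))))) (n 0 (n 0 z (n 0 z (n 0 z (n 0 z (n 0 (n 8721979 z z) z)))))
 (n 0 (n 0 z (n 0 z (n 0 z (n 0 z (n 0 z z))))) (n 0 (n 0 z (n 0 z (n 0 z (n 0 z (n 0 z z)))))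
 z)))))))))))))) (n 341 (n 0 (n 0 z (n 0 z (n 0 z (n 0 z (n 0 z z))))) (n 0 (n 0 z (n 0 z (n 0 z
 (n 0 z (n 0 z z))))) (n 0 (n 0 z (n 0 z (n 0 z (n 0 z (n 0 z z))))) (n 0 (n 0 z (n 0 z (n 0 z
 (n 0 z (n 0 z z))))) (n 0 (n 0 z (n 0 z (n 0 z (n 0 z (n 0 z z))))) (n 0 (n 0 z (n 0 z (n 0 z
 (n 0 z (n 0 z z))))) (n 0 (n 0 (n
 0xf0e90e8603769e756a9673915d8a797b8f8475866e6c80928a9e8ca85f7a967c86958385546b6c778f8a957b86858f9c95636b5d9e9c5c0809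
 z z) (n 0 z (n 0 z (n 0 (n
 0x30e70e640382182082085f8208607df82085f8208608608208207e182082081f8208208218208208208200801 z
 z) (n 0 z z))))) (n 0 (n 0 z (n 0 z (n 0 z (n 0 z (n 0 z z))))) (n 0 (n 0 z (n 0 z (n 0 z (n 0
 z (n 0 z z))))) (n 0 (n 0 z (n 0 z (n 0 z (n 0 z (n 0 z z))))) (n 0 (n 0 z (n 0 z (n 0 z (n 0
 (n 8721979 z z) (n 0 z z))))) (n 0 (n 0 z (n 0 z (n 0 z (n 0 (n
 0x10e70e640382082082089f85f8617df86082086081f82082085f7e18208208208208208217e18208208200801 z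
 z) (n 0 z z))))) z)))))))))))) (n 99 (n 0 (n 0 z (n 0 z (n 0 z (n 0 z (n 0 z z))))) (n 0 (n 0 z
 (n 0 z (n 0 z (n 0 z (n 0 z z))))) (n 0 (n 0 z (n 0 z (n 0 z (n 0 z (n 0 z z))))) (n 0 (n 0 z
 (n 0 z (n 0 z (n 0 z (n 0 z z))))) (n 0 (n 0 z (n 0 z (n 0 z (n 0 z (n 0 z z))))) (n 0 (n 0 z
 (n 0 z (n 0 z (n 0 z (n 0 z z))))) (n 0 (n 0 z (n 0 z (n 0 z (n 0 z (n 0 z z))))) (n 0 (n 0 z
 (n 0 z (n 0 z (n 0 z (n 0 z z))))) (n 0 (n 0 z (n 0 z (n 0 z (n 0 z (n 0 z z))))) (n 0 (n 0 z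
 (n 0 z (n 0 z (n 0 z (n 0 z z))))) (n 0 (n 0 z (n 0 z (n 0 z (n 0 z (n 0 z z))))) (n 0 (n 0 z
 (n 0 z (n 0 z (n 0 z (n 0 z z))))) z)))))))))))) (n 340 (n 0 (n 0 (n
 0x5ac1009c8208584738d6f926d85497591a4738695778f798399d3887560867d638db4907d866058668ca16878844fc498bf394072b7855e0089
 z z) (n 0 z (n 0 z (n 0 z (n 0 z z))))) (n 0 (n 0 z (n 0 (n 8857163 z (n 8857163 z z)) (n 0 z
 (n 0 z (n 0 z z))))) (n 0 (n 0 z (n 0 z (n 0 z (n 0 z (n 0 z z))))) (n 0 (n 0 (n 4327515 z (n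
 4327515 z z)) (n 0 z (n 0 z (n 0 z (n 0 z z))))) (n 0 (n 0 z (n 0 z (n 0 z (n 0 z (n 0 z z)))))
 (n 0 (n 0 z (n 0 z (n 0 z (n 0 z (n 0 z z))))) (n 0 (n 0 z (n 0 z (n 0 z (n 0 z (n 0 z z)))))
 (n 0 (n 0 z (n 0 z (n 0 z (n 0 z (n 0 z z))))) (n 0 (n 0 z (n 0 z (n 0 z (n 0 z (n 0 z z)))))
 (n 0 (n 0 z (n 0 z (n 0 (n 8868675 z (n 8868675 z z)) (n 0 z (n 0 z z))))) (n 0 (n 0 (n 7608379
 z (n 8795915 z z)) (n 0 z (n 0 z (n 0 (n 4327515 z (n 7608379 z z)) (n 0 z z))))) (n 0 (n 0 z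
 (n 0 z (n 0 z (n 0 z (n 0 z z))))) (n 0 (n 0 z (n 0 z (n 0 z (n 0 z (n 0 z z))))) (n 0 (n 0 z
 (n 0 z (n 0 z (n 0 z (n 0 z z))))) (n 0 (n 0 z (n 0 z (n 0 z (n 0 z (n 0 z z))))) (n 0 (n 0 (n
 8586779 z z) (n 0 z (n 0 z (n 0 (n 8586779 z z) (n 0 z z))))) (n 0 (n 0 z (n 0 z (n 0 z (n 0 (n
 8586779 z z) (n 0 z z))))) (n 0 (n 0 (n 4327515 z (n 4327515 z z)) (n 0 z (n 0 z (n 0 (n
 4327515 z (n 4327515 z z)) (n 0 z z))))) (n 0 (n 0 z (n 0 z (n 0 z (n 0 (n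
 0x10ed0ec2078a08218608208208208217e08217e082082082082081f8218208208208208208218208208200801 z
 (n 8795979 z z)) (n 0 z z))))) (n 0 (n 0 z (n 0 (n 8857163 z z) (n 0 z (n 0 z (n 0 z z))))) (n
 0 (n 0 (n 8586779 z (n 7737475 z z)) (n 0 z (n 0 z (n 0 z (n 0 z z))))) (n 0 (n 0 (n
 0x3ac3103b8627a778e708271757f78817174849d8ca869867c8588638f829d7c7a62799d707b847f8b6c646c927487987d788477a58355980089
 z (n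
 0x2ec310338627b798b73827477807980747783978aa06e857d8487698c81977d7c687b97747c847f897069708e7685937d7a84799e825e950089
 z z)) (n 0 z (n 0 z (n 0 z (n 0 (n 8795979 z (n
 0x3ac3103b8627a778e708271757f78817174849d8ca869867c8588638f829d7c7a62799d707b847f8b6c646c927487987d788477a58355980089
 z z)) z))))) (n 0 (n 0 z (n 0 z (n 0 z (n 0 z (n 0 z z))))) (n 0 (n 0 (n 8586779 z (n 8586779 z
 z)) (n 0 z (n 0 z (n 0 z (n 0 z z))))) (n 0 (n 0 (n 8586779 z (n 8586779 z z)) (n 0 z (n 0 z (n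
 0 (n 8586779 z (n 8586779 z z)) (n 0 z z))))) (n 0 (n 0 z (n 0 z (n 0 (n
 0x2ec100338207b798b73827477807a81747783978aa16d847d8486698b82977d7c697b98737c837f897069708e7685917e7a84799e835f940089
 z z) (n 0 z (n 0 z z))))) (n 0 (n 0 z (n 0 (n
 0x50a6ec280785f82089f7e08218217e172189f7a082085f86282085f82086081f8608218608218607e08200801 z
 z) (n 0 z (n 0 z (n 0 z z))))) (n 0 (n 0 z (n 0 z (n 0 z (n 0 z (n 0 z z))))) (n 0 (n 0 (n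
 0x46c3b0748768483768a728f718455778d9d758590788c7a8294c3877766857d698baa8c7d8567606b899a6d7a8359b493b2474d74ac84650089
 z (n
 0x4b8767a838e6c8170877f906e70787f997ba27f8872936d85877c9483816885967575788f71785f7e986c928290868177a2a268850049
 z z)) (n 0 (n 7735371 z (n
 0x2e14dc410060d0e90e8003768a6980828e8b4696409799897e7e749b807da180bb94797c706da8a2768a73947145629fa6865885a464c4617f587aa1731009
 z z)) (n 0 z (n 0 z (n 0 z z))))) (n 0 (n 0 (n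
 0x1dc3b06d8647f76996a83617c866e936d74789b85c865817ba972698583969289497eb16b674fa277982d7da574a680bb897757a6bc66700089
 z z) (n 0 z (n 0 z (n 0 z (n 0 z z))))) (n 0 (n 0 (n 4327515 z (n 4327515 z z)) (n 0 z (n 0 z
 (n 0 (n 4327515 z (n 4327515 z z)) (n 0 z z))))) (n 0 (n 0 z (n 0 z (n 0 z (n 0 z (n 0 z z)))))
 (n 0 (n 0 z (n 0 z (n 0 z (n 0 z (n 0 z z))))) (n 0 (n 0 z (n 0 z (n 0 z (n 0 z (n 0 z z)))))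
 (n 0 (n 0 (n
 0x3ac1003b8207a778e708271757f78817174849d8ca869867c8588638f829d7c7a62799d707b847f8b6c646c927487987d788477a58355980089
 z z) (n 0 z (n 0 z (n 0 z (n 0 (n 4331643 z z) z))))) (n 0 (n 0 z (n 0 z (n 0 z (n 0 z (n 0 z
 z))))) (n 0 (n 0 z (n 0 z (n 0 z (n 0 z (n 0 z z))))) (n 0 (n 0 z (n 0 z (n 0 z (n 0 z (n 0 z
 z))))) (n 0 (n 0 z (n 0 z (n 0 z (n 0 (n 8586779 z z) (n 0 z z))))) (n 0 (n 0 z (n 0 z (n 0 z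
 (n 0 z (n 0 z z))))) (n 0 (n 0 z (n 0 z (n 0 z (n 0 z (n 0 z z))))) (n 0 (n 0 z (n 0 z (n 0 z
 (n 0 (n 8586779 z z) (n 0 z z))))) (n 0 (n 0 (n
 0x9b0202381071ba158966606e15998f2a3a46376394da62cdd74d6f359d8dfa13393ad98ef79a8dbe221700081 z
 z) (n 0 z (n 0 z (n 0 z (n 0 z z))))) (n 0 (n 0 (n 8728931 z (n 8728931 z z)) (n 0 z (n 0 z (n
 0 (n 8728931 z (n 8728931 z z)) (n 0 z z))))) (n 0 (n 0 z (n 0 z (n 0 z (n 0 z (n 0 z z))))) (n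
 0 (n 0 z (n 0 z (n 0 z (n 0 z (n 0 z z))))) (n 0 (n 0 z (n 0 z (n 0 z (n 0 z (n 0 z z))))) (n 0
 (n 0 z (n 0 z (n 0 z (n 0 z (n 0 z z))))) (n 0 (n 0 z (n 0 z (n 0 z (n 0 (n 8728931 z z) (n 0 z
 z))))) z))))))))))))))))))))))))))))))))))))))))))))))))) (n 42 (n 0 (n 0 z (n 0 z (n 0 z (n 0
 z (n 0 z z))))) (n 0 (n 0 z (n 0 z (n 0 z (n 0 z (n 0 z z))))) (n 0 (n 0 z (n 0 z (n 0 z (n 0 z
 (n 0 z z))))) (n 0 (n 0 z (n 0 z (n 0 z (n 0 z (n 0 z z))))) (n 0 (n 0 z (n 0 (n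
 0x30e70e640789f7df8607e08207e18227608617a086081f8208208208218208208608218208208207e07e00801 z
 (n 7473243 z z)) (n 0 z (n 0 z (n 0 z z))))) (n 0 (n 0 z (n 0 z (n 0 z (n 0 z (n 0 z z))))) (n
 0 (n 0 z (n 0 z (n 0 z (n 0 z (n 0 z z))))) (n 0 (n 0 z (n 0 z (n 0 z (n 0 z (n 0 z z))))) (n 0
 (n 0 z (n 0 z (n 0 z (n 0 z (n 0 z z))))) (n 0 (n 0 z (n 0 z (n 0 z (n 0 z (n 0 z z))))) (n 0
 (n 0 z (n 0 z (n 0 z (n 0 z (n 0 z z))))) (n 0 (n 0 z (n 0 z (n 0 z (n 0 z (n 0 z z))))) (n 0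
 (n 0 z (n 0 z (n 0 z (n 0 (n 8802611 z z) (n 0 z z))))) (n 0 (n 0 (n 8802611 z (n 8802611 z z))
 (n 0 z (n 0 (n 8802611 z (n 8802611 z z)) (n 0 (n 8802611 z (n 8802611 z z)) (n 0 (n 8802611 z
 (n 8802611 z z)) z))))) (n 0 (n 0 z (n 0 z (n 0 z (n 0 z (n 0 z z))))) (n 0 (n 0 (n 8802611 z
 (n 8802611 z z)) (n 0 z (n 0 (n 8802611 z (n 8802611 z z)) (n 0 (n 8802611 z (n 8802611 z z))
 (n 0 (n 8802611 z (n 8802611 z z)) z))))) (n 0 (n 0 z (n 0 (n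
 0x1854761301810e70e64038208208208208208208208208207e08208208208208208208208208208208208208208208201001
 z z) (n 0 z (n 0 (n 0x10eaec62030821 z z) (n 0 z z))))) (n 0 (n 0 z (n 0 z (n 0 z (n 0 z (n 0 z
 z))))) (n 0 (n 0 z (n 0 z (n 0 z (n 0 (n
 0x1872871301810eae6420782082082082082082082081f8208208208208208208208208208208208208208208208208201001
 z z) (n 0 z z))))) (n 0 (n 0 z (n 0 z (n 0 z (n 0 z (n 0 z z))))) (n 0 (n 0 z (n 0 z (n 0 z (n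
 0 z (n 0 z z))))) (n 0 (n 0 z (n 0 z (n 0 z (n 0 (n
 0x10ed0ec6078a08218608208208208217e08217e082082082082081f8218208208208208208218208208200801 z
 (n 0x30e70e62037e082086085f85f8207df85f86085f81f82082081f8218208218208208208218208208217e00801
 z z)) (n 0 z z))))) (n 0 (n 0 z (n 0 z (n 0 z (n 0 z (n 0 z z))))) (n 0 (n 0 z (n 0 z (n 0 z (n
 0 z (n 0 z z))))) (n 0 (n 0 (n 8728931 z (n 8728931 z z)) (n 0 z (n 0 z (n 0 (n 8728931 z (n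
 8728931 z z)) (n 0 z z))))) (n 0 (n 0 z (n 0 z (n 0 z (n 0 (n
 0x30eaec620386081f8208208207e18217e08207e082085f82086082082082081f8608208208208208208200801 z
 (n 0x10e70e62037e181f82086085f82082081f8a085f85f7e082081f82081f8218208208208217e07e08207e00801
 z z)) (n 0 z z))))) (n 0 (n 0 z (n 0 (n
 0x30e70e64036e391691999d99b65b8a27697627255a39249239566e475c86675d56395b95a89f9649606e40801 z
 z) (n 0 z (n 0 z (n 0 z z))))) (n 0 (n 0 z (n 0 (n 8721979 z (n 8721979 z z)) (n 0 z (n 0 z (n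
 0 z z))))) (n 0 (n 0 z (n 0 z (n 0 z (n 0 z (n 0 z z))))) (n 0 (n 0 (n 7473243 z (n
 0x3ac3b03b8767a778e708271757f78817174849d8ca869867c8588638f829d7c7a62799d707b847f8b6c646c927487987d788477a58355980089
 z z)) (n 0 z (n 0 z (n 0 z (n 0 z z))))) (n 0 (n 0 (n
 0x1b0ec0b87682181f82085f8617df8618607a081f85f86081f82081f81f8218208218208607e082081f7e00081 z
 (n 0x5b0ec1b87675c9998596e076069b8ac9715e37a28d49a2b1e79476c69e8a09585189db8e979c89dbe142a0081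
 z z)) (n 0 z (n 0 z (n 0 z (n 0 (n
 0x36c1083b8107f76996a83617c866e936d74789b85c865817ba972698583969289497eb16b674fa277982d7da574a680bb897757a6bc66700089
 z (n
 0x36c1083b8107f76996a83617c866e936d74789b85c865817ba972698583969289497eb16b674fa277982d7da574a680bb897757a6bc66700089
 z z)) z))))) (n 0 (n 0 (n
 0x4b8767a838e6c8170877f906e70787f997ba27f8872936d85877c9483816885967575788f71785f7e986c928290868177a2a268850049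
 z (n
 0x30e70e64037e082082081f82082182082181f82081f8a081f81f8208208208208608208208208208208200801 z
 z)) (n 0 z (n 0 (n
 0x2872861303810e50c06077e181e81f85e86086081f82085f81f85f8608218207e08208208208218218218208207e17e01001
 z (n
 0x3ac3883b8717a778e708271757f78817174849d8ca869867c8588638f829d7c7a62799d707b847f8b6c646c927487987d788477a58355980089
 z z)) (n 0 (n
 0x4b8767a838e6c8170877f906e70787f997ba27f8872936d85877c9483816885967575788f71785f7e986c928290868177a2a268850049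
 z (n
 0x30eae642078608208608208208208218208207e08208208208208208208208208208208208208208207e00801 z
 z)) (n 0 (n
 0x4b8767a838e6c8170877f906e70787f997ba27f8872936d85877c9483816885967575788f71785f7e986c928290868177a2a268850049
 z (n
 0x8d8767b728280807e7455725d8c81888a90b07c7c7ebe6aa5869c7d76837a8b9a7d5d708a4d845fac8e5aa29185c75f685b82a16a0049
 z z)) z))))) (n 0 (n 0 z (n 0 z (n 0 z (n 0 z (n 0 z z))))) (n 0 (n 0 (n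
 0x5ac3b09c8768584738d6f926d85497591a4738695778f798399d3887560867d638db4907d866058668ca16878844fc498bf394072b7855e0089
 z (n
 0x4b8767a838e6c8170877f906e70787f997ba27f8872936d85877c9483816885967575788f71785f7e986c928290868177a2a268850049
 z z)) (n 0 (n 6424699 z (n 6424699 z z)) (n 0 z (n 0 z (n 0 z z))))) (n 0 (n 0 (n 8728931 z (n
 8728931 z z)) (n 0 z (n 0 z (n 0 (n 8728931 z (n 8728931 z z)) (n 0 z z))))) (n 0 (n 0 z (n 0 z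
 (n 0 z (n 0 z (n 0 z z))))) (n 0 (n 0 z (n 0 z (n 0 z (n 0 z (n 0 z z))))) (n 0 (n 0 z (n 0 z
 (n 0 z (n 0 z (n 0 z z))))) (n 0 (n 0 z (n 0 z (n 0 z (n 0 z (n 0 z z))))) (n 0 (n 0 z (n 0 z
 (n 0 z (n 0 z (n 0 z z))))) (n 0 (n 0 z (n 0 z (n 0 z (n 0 z (n 0 z z))))) (n 0 (n 0 (n 8721979
 z (n 8721979 z z)) (n 0 z (n 0 (n 8721979 z (n 8721979 z z)) (n 0 (n 8721979 z (n 8721979 z z))
 (n 0 (n 8721979 z (n 8721979 z z)) z))))) (n 0 (n 0 z (n 0 z (n 0 z (n 0 z (n 0 z z))))) (n 0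
 (n 0 z (n 0 z (n 0 z (n 0 (n 8721979 z (n 8721979 z z)) (n 0 z z))))) (n 0 (n 0 z (n 0 z (n 0 z
 (n 0 z (n 0 z z))))) (n 0 (n 0 z (n 0 z (n 0 z (n 0 (n 8728931 z z) (n 0 z z))))) (n 0 (n 0 z
 (n 0 z (n 0 z (n 0 z (n 0 z z))))) z))))))))))))))))))))))))))))))))))))))))))))))) (n 321 (n 0
 (n 0 z (n 0 z (n 0 z (n 0 z (n 0 z z))))) (n 0 (n 0 z (n 0 z (n 0 z (n 0 z (n 0 z z))))) z)) (n
 255 (n 0 (n 0 z (n 0 z (n 0 z (n 0 z (n 0 z z))))) (n 0 (n 0 z (n 0 z (n 0 z (n 0 z (n 0 z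
 z))))) (n 0 (n 0 z (n 0 z (n 0 z (n 0 z (n 0 z z))))) (n 0 (n 0 z (n 0 z (n 0 z (n 0 z (n 0 z
 z))))) z)))) (n 9 (n 0 (n 0 z (n 0 (n 8790275 z z) (n 0 z (n 0 (n 8790275 z z) (n 0 z z))))) (n
 0 (n 0 z (n 0 z (n 0 z (n 0 z (n 0 z z))))) (n 0 (n 0 z (n 0 z (n 0 (n 8868675 z z) (n 0 (n
 8799547 z z) (n 0 (n 8799547 z z) z))))) (n 0 (n 0 z (n 0 z (n 0 z (n 0 z (n 0 z z))))) (n 0 (n
 0 z (n 0 z (n 0 z (n 0 z (n 0 z z))))) (n 0 (n 0 z (n 0 z (n 0 z (n 0 z (n 0 z z))))) (n 0 (n 0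
 z (n 0 z (n 0 (n 8790275 z z) (n 0 z (n 0 z z))))) (n 0 (n 0 z (n 0 (n 8790275 z z) (n 0 z (n 0
 (n 8790275 z z) (n 0 z z))))) (n 0 (n 0 z (n 0 z (n 0 z (n 0 z (n 0 z z))))) (n 0 (n 0 z (n 0 z
 (n 0 z (n 0 z (n 0 z z))))) (n 0 (n 0 z (n 0 z (n 0 z (n 0 z (n 0 z z))))) (n 0 (n 0 z (n 0 z
 (n 0 z (n 0 z (n 0 z z))))) z)))))))))))) (n 27 (n 0 (n 0 z (n 0 z (n 0 z (n 0 z (n 0 z z)))))
 (n 0 (n 0 z (n 0 z (n 0 z (n 0 z (n 0 z z))))) (n 0 (n 0 z (n 0 z (n 0 z (n 0 z (n 0 z z)))))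
 (n 0 (n 0 z (n 0 z (n 0 z (n 0 z (n 0 z z))))) (n 0 (n 0 z (n 0 (n 8790275 z z) (n 0 (n 8790275
 z z) (n 0 z (n 0 (n 8790275 z z) z))))) (n 0 (n 0 z (n 0 z (n 0 z (n 0 z (n 0 z z))))) (n 0 (n
 0 z (n 0 z (n 0 (n
 0x30eaea280782081f8208208218208217e082082082082081f82085f8208207e082082082082082081f8200801 z
 z) (n 0 z (n 0 z z))))) (n 0 (n 0 z (n 0 z (n 0 z (n 0 z (n 0 z z))))) (n 0 (n 0 z (n 0 z (n 0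
 z (n 0 z (n 0 z z))))) (n 0 (n 0 z (n 0 z (n 0 z (n 0 z (n 0 z z))))) (n 0 (n 0 (n 8795915 z z)
 (n 0 z (n 0 z (n 0 z (n 0 z z))))) z))))))))))) (n 1 (n 0 (n 0 z (n 0 z (n 0 z (n 0 z (n 0 z
 z))))) (n 0 (n 0 z (n 0 z (n 0 z (n 0 z (n 0 z z))))) (n 0 (n 0 z (n 0 z (n 0 z (n 0 z (n 0 z
 z))))) (n 0 (n 0 z (n 0 z (n 0 z (n 0 z (n 0 z z))))) (n 0 (n 0 z (n 0 z (n 0 z (n 0 z (n 0 z
 z))))) (n 0 (n 0 z (n 0 z (n 0 z (n 0 z (n 0 z z))))) (n 0 (n 0 z (n 0 z (n 0 z (n 0 z (n 0 z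
 z))))) (n 0 (n 0 z (n 0 z (n 0 z (n 0 z (n 0 z z))))) (n 0 (n 0 z (n 0 z (n 0 z (n 0 z (n 0 z
 z))))) z))))))))) (n 0 (n 0 (n 0 z (n 0 z (n 0 z (n 0 z (n 0 z z))))) (n 0 (n 0 z (n 0 z (n 0 z
 (n 0 z (n 0 z z))))) (n 0 (n 0 z (n 0 z (n 0 z (n 0 z (n 0 z z))))) (n 0 (n 0 z (n 0 z (n 0 z
 (n 0 z (n 0 z z))))) (n 0 (n 0 z (n 0 z (n 0 z (n 0 z (n 0 z z))))) (n 0 (n 0 z (n 0 z (n 0 z
 (n 0 z (n 0 z z))))) (n 0 (n 0 (n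
 0x30a8e8260785f8208208208208208208208207e08208208208208208208208208208208208208208208200801 z
 (n
 0x8d8737b728280807e7455725d8c81888a90b07c7c7ebe6aa5869c7d76837a8b9a7d5d708a4d845fac8e5aa29185c75f685b82a16a0049
 z z)) (n 0 (n
 0x8d8737b728280807e7455725d8c81888a90b07c7c7ebe6aa5869c7d76837a8b9a7d5d708a4d845fac8e5aa29185c75f685b82a16a0049
 z (n
 0x1874874301890a8e826077607de86091f85f7df85e8a075f7de8608a28a07e08207e08208217a18228218207e17a07df1001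
 z z)) (n 0 z (n 0 z (n 0 z z))))) (n 0 (n 0 z (n 0 z (n 0 (n 8802611 z (n 8802611 z z)) (n 0 z
 (n 0 z z))))) (n 0 (n 0 z (n 0 z (n 0 (n 8868675 z (n 8868675 z z)) (n 0 (n
 0xb0e61387382082082085f85f81f8618207e082082082082082082081f8218218208218207e07e08207e00081 z (n
 8795979 z z)) (n 0 (n
 0x1b0e60b87382181f82085f8617df8618607a081f85f86081f82081f81f8218208218208607e082081f7e00081 z
 (n 8795979 z z)) z))))) (n 0 (n 0 z (n 0 z (n 0 z (n 0 z (n 0 z z))))) (n 0 (n 0 z (n 0 z (n 0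
 z (n 0 (n 8802611 z z) (n 0 z z))))) (n 0 (n 0 z (n 0 z (n 0 z (n 0 z (n 0 z z))))) (n 0 (n 0 z
 (n 0 z (n 0 z (n 0 z (n 0 z z))))) z))))))))))))) z))))))))))))))))))))) z)))) z) z)))) (n
 0x5754a2b24d0d54ed0c932d049660513b582518c448b82b56b20964b089ba8a4c68236b240 (n 0x2d649 (n 441
 (n 3282443 z (n 2 z z)) (n 435 (n 10 z (n 18 z (n 26 z (n 34 z (n 3278363 z (n 5518875 z (n 0 z
 (n 0xca8ca84038608208208208208617e18208208208207e08608208a07e082082082081f8208208208208200801 z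
 (n 0 z (n 0 z z)))))))))) (n 9 (n 42 z (n 50 z (n 3212843 z (n 58 z (n 0 z (n 0 z z)))))) (n 3
 (n 66 z (n 2164283 z (n 74 z z))) (n 1 (n 0 z (n 0 z (n 0 z (n 0 z (n 2164299 z (n 82 z (n 0 z
 z))))))) (n 0 (n
 0x346307a0a237609a189b91789bc5a7609a39646da7d8a1c8e271969f9ea7609a76e67ac799a2c51d0041 z (n 0 z
 (n 0 z (n 0 z (n 0 z (n
 0x3c64279faa46e09e189a955899d977609e59a5699816a9b92269761fa2c76096966876e796aae49d0041 z (n 0 z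
 (n 0 z (n 90 z (n 0 z (n 0 z (n
 0x346207a0a2372096189b91789bc597619a39246da818a1c8e171965f9aa7609276e77ab799a2b55d0041 z (n 98
 z (n 106 z (n 2164315 z (n 0 z (n 0 z (n 0 z z)))))))))))))))))) z)))))) (n 441 (n 0 (n 71 (n 0
 z (n 0 z (n 0 z (n 0 z (n 0 z (n 0 z (n 0 z (n 0 z (n 0 z (n 0 z (n 0 z (n 0 z (n 0 z (n 2 (n 0
 z (n 0 z (n 0 z (n 2 (n 0 z (n 0 z (n 0 z (n 0 z (n 0 z (n 0 z z)))))) (n 2 (n 0 z (n 0 z (n 0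
 z (n 0 z (n 0 z (n 0 z z)))))) (n 2 (n 0 z (n 0 z (n 0 z (n 0 z (n 0 z (n 0 (n 8802883 z z)
 z)))))) (n 2 (n 0 z (n 0 z (n 0 z (n 0 z (n 0 z (n 0 z z)))))) (n 1 z (n 1 z (n 2 (n 0 z (n 0 z
 (n 0 z (n 0 z (n 0 z (n 0 z z)))))) (n 1 z (n 2 (n 0 z (n 0 z (n 0 z (n 0 z (n 0 z (n 0 z
 z)))))) z)))))))))))) (n 0 z (n 0 z (n 0 z (n 0 z (n 0 z (n 0 z (n 0 z z)))))))))))))))))))))
 (n 71 (n 0 z (n 0 z (n 0 z (n 0 z (n 0 z (n 0 z (n 0 z (n 0 z (n 0 z (n 0 z (n 0 z (n 0 z (n 0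
 z (n 0 z (n 0 z (n 0 z (n 0 z (n 0 z (n 0 z (n 0 z (n 0 z z))))))))))))))))))))) (n 71 (n 0 z
 (n 0 z (n 0 z (n 0 z (n 0 z (n 0 z (n 0 z (n 0 z (n 0 z (n 0 z (n 0 z (n 0 z (n 0 z (n 0 z (n 0
 z (n 0 z (n 0 z (n 0 z (n 0 z (n 0 z (n 0 z z))))))))))))))))))))) (n 71 (n 0 z (n 0 z (n 0 z
 (n 0 z (n 0 z (n 0 z (n 0 z (n 0 z (n 0 z (n 0 z (n 0 z (n 0 z (n 0 z (n 0 z (n 0 z (n 0 z (n 0
 z (n 0 z (n 0 z (n 0 z (n 0 z z))))))))))))))))))))) (n 259 (n 2 (n 0 z (n 0 z (n 2 (n 0 z (n 0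
 z (n 0 z (n 0 z (n 0 z (n 0 z z)))))) (n 1 z (n 1 z (n 2 (n 0 z (n 0 z (n 0 z (n 0 z (n 0 z (n
 0 (n 4 z z) z)))))) (n 1 z (n 1 z z)))))))) (n 0 z (n 0 z (n 0 z (n 0 z (n 0 z (n 0 z z)))))))
 (n 259 (n 0 z (n 2 (n 0 z (n 2 (n 0 z (n 0 z (n 0 z (n 0 z (n 0 z (n 0 z z)))))) (n 1 z (n 1 z
 (n 2 (n 0 z (n 0 z (n 0 z (n 0 z (n 0 z (n 0 z z)))))) (n 1 z (n 2 (n 0 z (n 0 z (n 0 z (n 0 z
 (n 0 z (n 0 z z)))))) z))))))) (n 0 z (n 0 z (n 0 z (n 0 z (n 0 z z))))))) (n 259 (n 0 z (n 0 z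
 (n 0 z (n 0 z (n 0 z (n 0 z (n 0 z z))))))) (n 59 (n 0 z (n 0 z (n 2 (n 0 z (n 1 z (n 2 (n 0 z
 (n 0 z (n 0 z (n 0 z (n 0 z (n 0 z z)))))) (n 1 z (n 2 (n 0 z (n 0 z (n 0 z (n 0 z (n 0 z (n 0
 z z)))))) z))))) (n 0 z (n 0 z z))))) (n 59 (n 0 z (n 0 z (n 0 z (n 0 z (n 0 z z))))) (n 3 (n 0
 z (n 0 z (n 0 z (n 0 z z)))) (n 1 (n 0 z (n 0 z (n 0 z (n 0 z (n 0 z (n 0 z (n 2 (n 0 z (n 0 z
 z)) (n 0 z (n 0 z (n 0 z (n 0 z (n 0 z (n 0 z (n 0 z (n 0 z (n 0 z z)))))))))))))))) (n 1 (n 0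
 z (n 0 z (n 0 z (n 0 z (n 0 z (n 0 z (n 0 z (n 0 z (n 0 z (n 0 z (n 0 z (n 0 z (n 0 z (n 0 z (n
 0 z (n 0 z z)))))))))))))))) (n 1 (n 0 z (n 0 z (n 0 z (n 0 z (n 0 z (n 0 z (n 0 z (n 0 z (n
 7754307 z (n 0 z (n 0 z (n 0 z (n 0 z (n 0 z (n 0 z (n 0 z z)))))))))))))))) z))))))))))))) (n
 0 (n 0 z (n 0 z (n 0 z (n 867 (n 0 z (n 0 z (n 0 z (n 0 z (n 0 z (n 0 z (n 0 z (n 0 z z))))))))
 (n 867 (n 0 z (n 0 z (n 0 z (n 0 z (n 0 z (n 0 z (n 0 z (n 0 z z)))))))) (n 867 (n 0 z (n 0 z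
 (n 0 z (n 0 z (n 2 (n 2 (n 0 z (n 0 z (n 0 z (n 0 z (n 0 z (n 0 z z)))))) (n 1 z (n 1 z (n 2 (n
 0 z (n 0 z (n 0 z (n 0 z (n 0 z (n 0 z z)))))) (n 1 z (n 2 (n 0 z (n 0 z (n 0 z (n 0 z (n 0 z
 (n 0 z z)))))) z)))))) (n 0 z (n 0 z (n 0 z z)))))))) (n 491 (n 0 z (n 0 z (n 0 z (n 0 z (n 0 z
 (n 0 z (n 0 z (n 0 z (n 0 z z))))))))) (n 491 (n 0 z (n 0 z (n 0 z (n 0 z (n 0 z (n 0 z (n 2 (n
 1 z (n 2 (n 0 z (n 0 z (n 0 z (n 0 z (n 0 z (n 0 z z)))))) (n 1 z (n 2 (n 0 z (n 0 z (n 0 z (n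
 0 z (n 0 z (n 0 z z)))))) z)))) (n 0 z (n 0 z z))))))))) (n 51 (n 0 z (n 0 z (n 0 z (n 0 z (n 0
 z (n 0 z (n 0 z (n 0 z (n 0 z (n 2 (n 2 (n 0 z (n 0 z (n 0 z (n 0 z (n 0 z (n 0 z z)))))) (n 1
 z (n 2 (n 0 z (n 0 z (n 0 z (n 0 z (n 0 z (n 0 z z)))))) z))) (n 0 z z))))))))))) (n 49 (n 0 z
 (n 0 z (n 0 z (n
 0x10ec8ec840367b1835b99749a6e9c6484608a89c36955959386b388746d805c8280967c61547d5a8c85826f819779a374a35791768b79860809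
 z (n 0 z (n 0 z (n 0 z (n 0 z (n 0 z (n 0 z z)))))))))) (n 49 (n 0 z (n 0 z (n 0 z (n 0 z (n 0
 z (n 0 z (n 2 (n 0 z z) (n 0 z (n 0 z (n 0 z z)))))))))) (n 49 (n 0 z (n 0 z (n 0 z (n 0 z (n 0
 z (n 0 z (n 0 z (n
 0xec8ec840382081f8208208208217e08208208218208208207e08a07df82081f8208608218208208208200801 z (n
 0 z (n 0 z z)))))))))) z)))))))))))) (n 0 (n 0 z (n 0 z (n 873 (n 2 (n 0 z (n 0 z (n 2 (n 0 (n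
 8865371 z z) (n 0 z (n 0 z (n 0 z (n 0 (n 8659043 z z) (n 0 (n 2100 z (n 7612443 z z)) z))))))
 (n 1 z (n 1 z (n 2 (n 0 (n 8872971 z z) (n 0 z (n 0 (n 8872971 z z) (n 0 z (n 0 z (n 0 (n
 8872971 z (n 8872971 z z)) z)))))) (n 1 z (n 1 z z)))))))) (n 0 z (n 0 z (n 0 z (n 0 z (n 0 z
 (n 0 z z))))))) (n 873 (n 0 z (n 2 (n 0 z (n 2 (n 0 z (n 0 z (n 0 z (n 0 z (n 0 z (n 0 z
 z)))))) (n 1 z (n 2 (n 0 z (n 0 (n 276 z z) (n 0 z (n 0 (n 276 z z) (n 0 z (n 0 (n 7477259 z (n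
 276 z z)) z)))))) (n 2 (n 0 z (n 0 z (n 0 z (n 0 z (n 0 z (n 0 z z)))))) (n 2 (n 0 z (n 0 (n
 8802883 z z) (n 0 z (n 0 (n 8802883 z z) (n 0 z (n 0 (n 8802883 z (n 8802883 z z)) z)))))) (n 2
 (n 0 z (n 0 (n 8802883 z z) (n 0 z (n 0 (n 8802883 z z) (n 0 z (n 0 (n 8802883 z (n 8802883 z
 z)) z)))))) z))))))) (n 0 z (n 0 z (n 0 z (n 0 z (n 0 z z))))))) (n 873 (n 0 z (n 0 z (n 0 z (n
 0 z (n 0 z (n 0 z (n 0 z z))))))) (n 525 (n 0 z (n 0 z (n 0 z (n 2 (n 0 z (n 2 (n 0 z (n 0 z (n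
 0 (n 8872459 z z) (n 0 z (n 0 z (n 0 (n 8872459 z (n 8872459 z z)) z)))))) (n 2 (n 0 (n 3476 z
 z) (n 0 z (n 0 z (n 0 (n 3476 z z) (n 0 z (n 0 (n 3476 z (n 7473227 z z)) z)))))) (n 2 (n 0 z
 (n 0 z (n 0 (n 8802883 z z) (n 0 z (n 0 z (n 0 (n 8802883 z (n 8802883 z z)) z)))))) (n 2 (n 0
 z (n 0 z (n 0 (n 8802883 z z) (n 0 z (n 0 z (n 0 (n 8802883 z (n 8802883 z z)) z)))))) z)))))
 (n 0 z (n 0 z (n 0 z (n 0 z (n 0 z (n 0 z (n 0 z (n 0 z (n 0 z (n 0 z (n 0 z (n 0 z (n 0 z (n 0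
 z (n 0 z (n 0 z (n 0 z z))))))))))))))))))))) (n 525 (n 0 z (n 0 z (n 0 z (n 0 z (n 0 z (n 0 z
 (n 0 z (n 0 z (n 0 z (n 0 z (n 0 z (n 0 z (n 0 z (n 0 z (n 0 z (n 0 z (n 0 z (n 0 z (n 0 z (n 0
 z (n 0 z z))))))))))))))))))))) (n 69 (n 0 z (n 0 z (n 0 z (n 0 z (n 0 z z))))) (n 869 (n 0 z
 (n 0 z (n 0 z (n 0 z (n 0 z (n 0 z (n 0 z z))))))) (n 869 (n 0 z (n 0 z (n 0 z (n 0 z (n 0 z (n
 0 z (n 0 z z))))))) (n 869 (n 0 z (n 0 z (n 0 z (n 0 z (n 0 z (n 0 z (n 0 z z)))))))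
 z))))))))))) (n 0 (n 0 z (n 363 (n 0 z (n 2 (n 0 z (n 0 z (n 2 (n 0 z (n 0 z (n 0 z (n 0 z (n 0
 z (n 0 z z)))))) (n 1 z (n 1 z (n 2 (n 0 z (n 0 z (n 0 z (n 0 z (n 0 z (n 0 (n 1444 z z)
 z)))))) (n 1 z (n 2 (n 0 z (n 0 z (n 0 z (n 0 z (n 0 z (n 0 z z)))))) z)))))))) (n 0 z (n 0 z
 (n 0 z (n 0 z (n 0 z (n 0 z (n 0 z (n 0 z (n 0 z (n 0 z (n 0 z z))))))))))))) (n 363 (n 2 (n 0
 z (n 1 z (n 1 z (n 1 z (n 2 (n 0 z (n 0 z (n 0 z (n 0 z (n 0 z (n 0 (n 1444 z z) z)))))) (n 1 z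
 (n 2 (n 0 z (n 0 z (n 0 z (n 0 z (n 0 z (n 0 z z)))))) z))))))) (n 0 z (n 0 z (n 0 z (n 0 z (n
 0 z (n 0 z (n 0 z (n 0 z (n 0 z (n 0 z (n 0 z (n 0 z z))))))))))))) (n 363 (n 0 z (n 0 z (n 0 z
 (n 0 z (n 0 z (n 0 z (n 2 (n 2 (n 0 z (n 0 z (n 0 z (n 0 z (n 0 z (n 0 z z)))))) (n 1 z (n 1 z
 (n 2 (n 0 z (n 0 z (n 0 z (n 0 z (n 0 z (n 0 z z)))))) (n 1 z (n 2 (n 0 z (n 0 z (n 0 z (n 0 z
 (n 0 z (n 0 z z)))))) z)))))) (n 0 z (n 0 z (n 0 z (n 0 z (n 0 z (n 0 z z))))))))))))) (n 387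
 (n 2 (n 0 z (n 1 z (n 1 z (n 1 z (n 2 (n 0 z (n 0 z (n 0 z (n 0 z (n 0 z (n 0 z z)))))) z)))))
 (n 0 z (n 0 z (n 0 z (n 0 z (n 0 z (n 0 z (n 0 z (n 0 z (n 0 z (n 0 z z))))))))))) (n 387 (n 0
 z (n 0 z (n 0 z (n 0 z (n 0 z (n 2 (n 1 z (n 2 (n 0 z (n 0 z (n 0 z (n 0 z (n 0 z (n 0 z
 z)))))) (n 1 z (n 2 (n 0 z (n 0 z (n 0 z (n 0 z (n 0 z (n 0 z z)))))) z)))) (n 0 z (n 0 z (n 0
 z (n 0 z (n 0 z z))))))))))) (n 339 (n 0 z (n 0 z (n 0 z (n 0 z (n 0 z (n 0 z (n 0 z (n 0 z (n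
 0 z z))))))))) (n 361 (n 0 z (n 0 z (n 0 z (n 0 z (n 0 z (n 2 (n 0 z (n 0 z z)) (n 0 z (n 0 z
 (n 0 z (n 0 z z)))))))))) (n 361 (n 0 z (n 0 z (n 0 z (n 0 z (n 0 z (n 0 z (n 0 z (n 0 z (n 0 z
 (n 0 z z)))))))))) (n 361 (n 0 z (n 0 z (n 0 z (n 0 z (n 0 z (n 0 z (n 0 z (n 2 z (n 0 z (n 0 z
 z)))))))))) z)))))))))) (n 0 (n 19 (n 2 (n 0 z (n 0 z (n 2 (n 0 z (n 0 z (n 0 z (n 0 z (n 0 z
 (n 0 z z)))))) (n 1 z (n 1 z (n 2 (n 0 z (n 0 z (n 0 z (n 0 z (n 0 z (n 0 (n 4 z z) z)))))) (n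
 1 z (n 1 z z)))))))) (n 0 z (n 0 z (n 0 z (n 0 z (n 0 z (n 0 z (n 0 z (n 0 z (n 0 z (n 0 z
 z))))))))))) (n 19 (n 0 z (n 2 (n 0 z (n 2 (n 0 z (n 0 z (n 0 z (n 0 z (n 0 z (n 0 z z)))))) (n
 1 z (n 1 z (n 2 (n 0 z (n 0 z (n 0 z (n 0 z (n 0 z (n 0 z z)))))) (n 1 z (n 2 (n 0 z (n 0 z (n
 0 z (n 0 z (n 0 z (n 0 z z)))))) z))))))) (n 0 z (n 0 z (n 0 z (n 0 z (n 0 z (n 0 z (n 0 z (n 0
 z (n 0 z z))))))))))) (n 19 (n 0 z (n 0 z (n 0 z (n 0 z (n 0 z (n 0 z (n 0 z (n 0 z (n 0 z (n 0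
 z (n 0 z z))))))))))) (n 491 (n 0 z (n 0 z (n 0 z (n 0 z (n 0 z (n 0 z (n 0 z (n 0 z (n 0 z (n
 2 (n 0 z (n 1 z (n 2 (n 0 z (n 0 z (n 0 z (n 0 z (n 0 z (n 0 z z)))))) (n 1 z (n 2 (n 0 z (n 0
 z (n 0 z (n 0 z (n 0 z (n 0 z z)))))) z))))) (n 0 z (n 0 z (n 0 z (n 0 z (n 0 z (n 0 z (n 0 z
 (n 0 z (n 0 z (n 0 z (n 0 z (n 0 z z)))))))))))))))))))))) (n 491 (n 0 z (n 0 z (n 0 z (n 0 z
 (n 0 z (n 0 z (n 0 z (n 0 z (n 0 z (n 0 z (n 0 z (n 0 z (n 0 z (n 0 z (n 0 z (n 0 z (n 0 z (n 0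
 z (n 0 z (n 0 z (n 0 z (n 0 z z)))))))))))))))))))))) (n 3 (n 0 z (n 0 z (n 0 z (n 0 z (n 0 z
 (n 0 z (n 0 z (n 0 z (n 0 z z))))))))) (n 1 (n 0 z (n 0 z (n 2 (n 0 z (n 0 z z)) (n 0 z (n 0 z
 (n 0 z (n 0 z (n 0 z (n 0 z (n 0 z z)))))))))) (n 1 (n 0 z (n 0 z (n 0 z (n 0 z (n 0 z (n 0 z
 (n 0 z (n 0 z (n 0 z (n 0 z z)))))))))) (n 1 (n 0 z (n 0 z (n 0 z (n 0 z (n 0 z (n 0 z (n 0 z
 (n 7754307 z (n 0 z (n 0 z z)))))))))) z))))))))) (n 0 (n 0 z (n 0 z (n 27 (n 0 z (n 2 (n 0 z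
 (n 1 z (n 2 (n 0 z (n 0 z (n 0 z (n 0 z (n 0 z (n 0 z z)))))) (n 1 z (n 2 (n 0 z (n 0 z (n 0 z
 (n 0 z (n 0 z (n 0 z z)))))) z))))) (n 0 z (n 0 z (n 0 z (n 0 z (n 0 z (n 0 z (n 0 z (n 0 z (n
 0 z (n 0 z (n 0 z (n 0 z (n 0 z (n 0 z (n 0 z (n 0 z (n 0 z (n 0 z (n 0 z (n 0 z (n 0 z (n 0 z
 (n 0 z (n 0 z (n 0 z (n 0 z (n 0 z (n 0 z (n 0 z (n 0 z z)))))))))))))))))))))))))))))))) (n 27
 (n 0 z (n 0 z (n 0 z (n 0 z (n 0 z (n 0 z (n 0 z (n 0 z (n 0 z (n 0 z (n 0 z (n 0 z (n 0 z (n 0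
 z (n 0 z (n 0 z (n 0 z (n 0 z (n 0 z (n 0 z (n 0 z (n 0 z (n 0 z (n 0 z (n 0 z (n 0 z (n 0 z (n
 2 (n 1 z (n 2 (n 0 z (n 0 z (n 0 z (n 0 z (n 0 z (n 0 (n 389 z z) z)))))) (n 1 z (n 1 z z))))
 (n 0 z (n 0 z (n 0 z (n 0 z z)))))))))))))))))))))))))))))))) (n 15 (n 0 z (n 0 z (n 0 z (n 0 z
 (n 0 z (n 0 z (n 0 z (n 0 z (n 0 z (n 0 z (n 0 z (n 2 (n 2 (n 0 z (n 0 z (n 0 z (n 0 z (n 0 z
 (n 0 z z)))))) (n 1 z (n 2 (n 0 z (n 0 z (n 0 z (n 0 z (n 0 z (n 0 (n 581 z z) z)))))) z))) (n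
 0 z (n 0 z z)))))))))))))) (n 17 (n 0 z (n 0 z (n 0 z (n 0 z (n 0 z (n 0 z (n
 0x2ec2ec08038607e182085f8208617e18217df82182075f82079f86181f81f7df82089f8228207df8208200801 z
 (n 0 z (n 0 z z))))))))) (n 17 (n 0 z (n 0 z (n 0 z (n 0 z (n 0 z (n 2 (n 0 z z) (n 0 z (n 0 z
 (n 0 z z))))))))) (n 17 (n 0 z (n 0 z (n 0 z (n 0 z (n 0 z (n 0 z (n 0 z (n 0 z (n
 0xea8c8420789f86086082186085f7e17e27e07e182075e81f85f8617e17617e18607e07e085f7df8618200801 z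
 z))))))))) z)))))))) (n 0 (n 0 z (n 7 (n 0 z (n 0 z (n 0 z (n 0 z (n 0 z (n 0 z (n 0 z (n 0 z
 z)))))))) (n 7 (n 0 z (n 0 z (n 0 z (n 0 z (n 0 z (n 2 (n 1 z (n 2 (n 0 z (n 0 z (n 0 z (n 0 z
 (n 0 z (n 0 z z)))))) (n 1 z (n 2 (n 0 z (n 0 z (n 0 z (n 0 z (n 0 z (n 0 z z)))))) z)))) (n 0
 z (n 0 z z)))))))) (n 15 (n 0 z (n 0 z (n 0 z (n 0 z (n 0 z (n 0 z (n 2 (n 2 (n 0 z (n 0 z (n 0
 z (n 0 z (n 0 z (n 0 z z)))))) (n 1 z (n 2 (n 0 z (n 0 z (n 0 z (n 0 z (n 0 z (n 0 z z))))))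
 z))) (n 0 z (n 0 z (n 0 z z)))))))))) (n 13 (n 0 z (n 0 z (n 0 z (n 0 z (n 0 z (n 0 z (n 0 z (n
 0 z (n 0 z (n 0 z (n 0 z (n 0 z (n 0 z (n 0 z (n 0 z (n
 0x4ec2ec08038227e082085e8208227e18607e082186086082176082081f85f8208218607e182085f86085f0801 z
 (n 0xcec8ec82036e475db5685eae399f61aa61b92c6386342a5a085286d69975c72781f8ee6eb72e80bc7635d0801
 z (n 0 z (n 0 z (n 0 z (n 0 z (n 0 z (n 0 z (n 0 z (n 0 z (n 0 z (n 0 z (n 0 z (n 0 z (n 0 z (n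
 0 z (n 0 z (n 0 z (n 0 z (n 0 z (n 0 z (n 0 z (n 0 z (n 0 z (n 0 z (n 0 z
 z))))))))))))))))))))))))))))))))))))))))) (n 13 (n 0 z (n 0 z (n 0 z (n 0 z (n 0 z (n 0 z (n 0
 z (n 0 z (n 0 z (n 0 z (n 0 z (n 0 z (n 0 z (n 0 z (n 0 z (n 0 z (n 0 z (n 0 z (n 0 z (n 0 z (n
 0 z (n 0 z (n 0 z (n 0 z (n 0 z (n 2 (n 0 z z) (n 0 z (n 0 z (n 0 z (n 0 z (n 0 z (n 0 z (n 0 z
 (n 0 z (n 0 z (n 0 z (n 0 z (n 0 z (n 0 z (n 0 z (n 0 z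
 z))))))))))))))))))))))))))))))))))))))))) (n 13 (n 0 z (n 0 z (n 0 z (n 0 z (n 0 z (n 0 z (n 0
 z (n 0 z (n 0 z (n 0 z (n 0 z (n 0 z (n 0 z (n 0 z (n 0 z (n 0 z (n 0 z (n 0 z (n 0 z (n 0 z (n
 0 z (n 0 z (n 0 z (n 0 z (n 0 z (n 0 z (n 0 z (n 0 z (n 0 z (n 0 z (n 0 z (n 0 z (n 0 z (n 0 z
 (n 0 z (n 0 z (n 0 z (n 0 z (n 0 z (n 0 z (n 0 z z)))))))))))))))))))))))))))))))))))))))))
 z))))))) (n 0 (n 7 (n 0 z (n 0 z (n 2 (n 0 z (n 1 z (n 2 (n 0 z (n 0 z (n 0 z (n 0 z (n 0 z (n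
 0 z z)))))) (n 1 z (n 2 (n 0 z (n 0 z (n 0 z (n 0 z (n 0 z (n 0 z z)))))) z))))) (n 0 z (n 0 z
 (n 0 z (n 0 z (n 0 z (n 0 z (n 0 z (n 0 z (n 0 z (n 0 z (n 0 z (n 0 z (n 0 z (n 0 z (n 0 z (n 0
 z (n 0 z (n 0 z (n 0 z (n 0 z (n 0 z (n 0 z (n 0 z (n 0 z (n 0 z (n 0 z (n 0 z (n 0 z
 z))))))))))))))))))))))))))))))) (n 7 (n 0 z (n 0 z (n 0 z (n 0 z (n 0 z (n 0 z (n 0 z (n 0 z
 (n 0 z (n 0 z (n 0 z (n 0 z (n 0 z (n 0 z (n 0 z (n 0 z (n 0 z (n 0 z (n 0 z (n 0 z (n 0 z (n 0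
 z (n 0 z (n 0 z (n 0 z (n 0 z (n 0 z (n 0 z (n 0 z (n 0 z (n 0 z
 z))))))))))))))))))))))))))))))) (n 3 (n 0 z (n 0 z (n 0 z (n 0 z (n 0 z (n 0 z z)))))) (n 1 (n
 0 z (n 2 (n 0 z (n 0 z z)) (n 0 z (n 0 z (n 0 z (n 0 z (n 0 z (n 0 z (n 0 z (n 0 z z))))))))))
 (n 1 (n 0 z (n 0 z (n 0 z (n 0 z (n 0 z (n 0 z (n 0 z (n 0 z (n 0 z (n 0 z z)))))))))) (n 1 (n
 0 z (n 0 z (n 0 z (n 0 z (n 0 z (n 7754307 z (n 0 z (n 0 z (n 0 z (n 0 z z)))))))))) z)))))) (n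
 0 (n 0 z (n 51 (n 0 z (n 0 z (n 0 z (n 0 z (n 0 z (n 0 z (n 0 z (n 2 (n 2 (n 0 z (n 0 z (n 0 z
 (n 0 z (n 0 z (n 0 z z)))))) (n 1 z (n 2 (n 0 z (n 0 z (n 0 z (n 0 z (n 0 z (n 0 z z)))))) z)))
 (n 0 z z))))))))) (n 49 (n 0 z (n 0 z (n 0 z (n 0 z (n 0 z (n 0 z (n 0 z (n 0 z z)))))))) (n 49
 (n 0 z (n 0 z (n 0 z (n 2 (n 0 z z) (n 0 z (n 0 z (n 0 z (n 0 z z)))))))) (n 49 (n 0 z (n 0 z
 (n 0 z (n 0 z (n 0 z (n 0 z (n 0 z (n 0 z z)))))))) z))))) (n 0 (n 111 (n 0 z (n 0 z (n 0 z (n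
 0 z (n 0 z (n 0 z (n 0 z (n 0 z (n 0 z (n 0 z (n 0 z (n 0 z z)))))))))))) (n 97 (n 0 z (n 2 (n
 0 z (n 0 z z)) (n 0 z (n 0 z (n 0 z (n 0 z (n 0 z (n 0 z z)))))))) (n 97 (n 0 z (n 0 z (n 0 z
 (n 0 z (n 0 z (n 0 z (n 0 z (n 0 z z)))))))) (n 97 (n 0 z (n 0 z (n 0 z (n 0 z (n 7754307 z (n
 0 z (n 0 z (n 0 z z)))))))) z)))) (n 0 (n 145 (n 0 z (n 0 z (n 0 z (n 2 (n 0 z (n 0 z z)) (n 0
 z (n 0 z (n 0 z (n 0 z (n 0 z (n 0 z (n 0 z (n 0 z (n 0 z (n 0 z z)))))))))))))) (n 145 (n 0 z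
 (n 0 z (n 0 z (n 0 z (n 0 z (n 0 z (n 0 z (n 0 z (n 0 z (n 0 z (n 0 z (n 0 z (n 0 z (n 0 z
 z)))))))))))))) (n 145 (n 0 z (n 0 z (n 0 z (n 0 z (n 0 z (n 2 z (n 0 z (n 0 z (n 0 z (n 0 z (n
 0 z (n 0 z (n 0 z (n 0 z z)))))))))))))) z))) (n 0 (n 0 z (n 0 z z)) (n 0 (n 0 z z) (n 0 z
 z)))))))))))))) (n 0 (n 1 (n 3282443 z (n 3282443 z (n 3282443 z (n 3282443 z (n 3282443 z (n
 3282443 z z)))))) (n 1 (n 2 z (n 3484 z (n 3484 z (n 3484 z (n 3484 z (n 3484 z z)))))) z)) (n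
 0 (n 0x81aa9d660513663112a5c15a663411 (n 0 (n 0 (n 7741699 z (n 7741699 z (n 7741699 z (n
 7741699 z (n 7741699 z (n 7741699 z z)))))) z) (n 0 (n 441 (n 1 (n 7475299 z (n 3282699 z (n
 3282699 z (n 3282699 z (n 3282699 z (n 3282699 z z)))))) (n 1 (n 7754307 z (n 7754307 z (n
 7754307 z (n 7754307 z (n 7754307 z (n 7754307 z z)))))) z)) (n 1 (n 1 (n 6555451 z (n 1244 z
 (n 1244 z (n 2 z (n 7754307 z (n 1244 z z)))))) (n 1 (n 1244 z (n 1244 z (n 1244 z (n 1244 z (n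
 7754307 z (n 1244 z z)))))) (n 1 (n 7476747 z (n 7476747 z (n 7476747 z (n 7476747 z (n 7754307
 z (n 7476747 z z)))))) (n 1 (n 7750483 z (n 7750483 z (n 7750483 z (n 7750483 z (n 7754307 z (n
 7750483 z z)))))) (n 1 (n 7750483 z (n 7750483 z (n 7750483 z (n 7750483 z (n 7754307 z (n
 7750483 z z)))))) (n 1 (n 7741699 z (n 7741699 z (n 7741699 z (n 7741699 z (n 7741699 z (n
 7741699 z z)))))) (n 1 (n 7476747 z (n 6566003 z (n 7476747 z (n 7476747 z (n 7754307 z (n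
 7476747 z z)))))) (n 1 (n 1244 z (n 1244 z (n
 0xecaea48078608208208208208617e18208208208207e081f8208a07e082082082086082082081f8208200801 z (n
 5519131 z (n 7754307 z (n 1244 z z)))))) (n 0 z z))))))))) (n 9 (n 1 (n 7475299 z (n 1228 z (n
 7476747 z (n 1228 z (n 10 z (n 1228 z z)))))) (n 1 (n 7475299 z (n 7476747 z (n 18 z (n 1228 z
 (n 1228 z (n 1228 z z)))))) (n 1 (n 7741699 z (n 7741699 z (n 7741699 z (n 7741699 z (n 7741699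
 z (n 7741699 z z)))))) (n 1 (n 7741699 z (n 7741699 z (n 7741699 z (n 7741699 z (n 7741699 z (n
 7741699 z z)))))) (n 0 z (n 0 z z)))))) (n 3 (n 1 (n 7475299 z (n 7476747 z (n 26 z (n 3356 z
 (n 3356 z (n 3356 z z)))))) (n 1 (n 7750483 z (n 7750483 z (n 7750483 z (n 7750483 z (n 7750483
 z (n 7750483 z z)))))) (n 1 (n 7741699 z (n 7741699 z (n 7741699 z (n 7741699 z (n 7741699 z (n
 7741699 z z)))))) z))) (n 513 (n 1 (n 7741699 z (n 652 z (n 652 z (n 652 z (n 7745803 z (n 652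
 z z)))))) (n 1 (n 7741699 z (n 7475299 z (n 7475299 z (n 7475299 z (n 7475299 z (n 7475299 z
 z)))))) (n 1 (n 7741699 z (n 7750483 z (n 7750483 z (n 7750483 z (n 7750483 z (n 7750483 z
 z)))))) (n 0 z z)))) (n 97 (n 1 (n 7745803 z (n 7745803 z (n 7745803 z (n 7745803 z (n 7745803
 z (n 7745803 z z)))))) (n 1 (n 3278667 z (n 34 z (n 5068 z (n 5068 z (n 5068 z (n 5068 z
 z)))))) (n 1 (n 5068 z (n 4400923 z (n 5068 z (n 5068 z (n 5068 z (n 5068 z z)))))) (n 1 (n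
 7754307 z (n 7754307 z (n 7754307 z (n 7754307 z (n 7754307 z (n 7754307 z z)))))) (n 1 (n
 7754307 z (n 7754307 z (n 7754307 z (n 7754307 z (n 7754307 z (n 7754307 z z)))))) (n 1 (n 5068
 z (n 5068 z (n 5068 z (n 5068 z (n 5068 z (n 5068 z z)))))) (n 1 (n 5068 z (n 5068 z (n 5068 z
 (n 5068 z (n 5068 z (n 5068 z z)))))) (n 0 z z)))))))) (n 441 (n 1 (n 7741699 z (n 3282699 z (n
 3282699 z (n 3282699 z (n 3282699 z (n 3282699 z z)))))) (n 1 (n 7741699 z (n 7754307 z (n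
 7754307 z (n 7754307 z (n 7754307 z (n 7754307 z z)))))) z)) z))))))) (n 0 (n 0 (n 0 z (n 0 z
 (n 0 z (n 0 z (n 0 z z))))) (n 0 (n 0 z (n 0 z (n 0 z (n 0 z z)))) (n 0 (n 0 z (n 0 z (n 0 z
 z))) (n 0 (n 0 z (n 0 z z)) (n 0 (n 0 z z) z))))) (n 0 (n 155 (n 0 (n 0 z (n 0 z (n 0 z (n 0 z
 (n 0 z z))))) (n 0 (n 0 z (n 0 z (n 0 z (n 0 z (n 0 z z))))) (n 0 (n 0 z (n 0 (n
 0xc48757c70658fa6845f7f7f9a6db46ea7189ec15187976b80808976a0817a699e9d6d9061827abc6b659da5579688992f989c7c670049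
 z z) (n 0 z (n 0 z (n 0 z z))))) (n 0 (n 0 z (n 0 z (n 0 z (n 0 z (n 0 z z))))) (n 0 (n 0 z (n
 0 z (n 0 z (n 0 (n
 0x10caeca80785f8608208208208608208208208218207e08208208208208208208208208208208218208200801 z
 z) (n 0 z z))))) (n 0 (n 0 z (n 0 z (n 0 z (n 0 z (n 0 z z))))) (n 0 (n 0 z (n 0 z (n 0 z (n 0
 z (n 0 z z))))) (n 0 (n 0 z (n 0 z (n 0 z (n 0 z (n 0 z z))))) (n 0 (n 0 z (n 0 z (n 0 z (n 0 z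
 (n 0 z z))))) (n 0 (n 0 z (n 0 (n
 0x848439e079d8df72381f86282595c7e0a5aadc95796166a82081684f865a206a3a268226d9b2f5dd0041 z z) (n
 0 z (n 0 z (n 0 z z))))) (n 0 (n 0 z (n 0 z (n 0 z (n 0 z (n 0 z z))))) (n 0 (n 0 z (n 0 (n
 0x10cb0a48078608208208208208617e18208208208207e081f8208a07e082082082086082082081f8208200801 z
 z) (n 0 z (n 0 z (n 0 z z))))) (n 0 (n 0 z (n 0 z (n 0 z (n 0 z (n 0 z z))))) (n 0 (n 0 z (n 0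
 z (n 0 z (n 0 z (n 0 z z))))) (n 0 (n 0 z (n 0 (n
 0x8484377928f75807e9a73856b8e5a8b6dc36c64909186968e7f6f836f897c857d706b6280879b678d8f8567aa729c68957f896b860049
 z z) (n 0 z (n 0 (n
 0x8484377928f75807e9a73856b8e5a8b6dc36c64909186968e7f6f836f897c857d706b6280879b678d8f8567aa729c68957f896b860049
 z z) (n 0 z z))))) (n 0 (n 0 z (n 0 z (n 0 z (n 0 (n 8523875 z z) (n 0 z z))))) (n 0 (n 0 z (n
 0 z (n 0 z (n 0 z (n 0 z z))))) (n 0 (n 0 z (n 0 z (n 0 z (n 0 z (n 0 z z))))) (n 0 (n 0 z (n 0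
 (n 8783691 z z) (n 0 z (n 0 z (n 0 z z))))) (n 0 (n 0 z (n 0 (n
 0x1487585f8617e082081f81f8618217e08207e17e081f81f7e17e179f7e186082082186081e85f8200041 z (n
 0x30cb0e48078608208208208208607e08207e08208207e081f7df8208208208208208208207e08208208200801 z
 z)) (n 0 z (n 0 z (n 0 z z))))) (n 0 (n 0 z (n 0 (n
 0x1348757f97e67d681883c8067cd7ff8008287e28517e483d75e82e8657b680b8247e08007ff8107ef8318017f67dc82f82e7e481a7cf8037f685d7df7d582e83a7c082280c82878282682b7fa7da0051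
 z (n
 0x30cb0e48078608608208208208207e08207e08208208208208208208208208208208208207e08208208200801 z
 z)) (n 0 z (n 0 z (n 0 z z))))) z))))))))))))))))))))) (n 153 (n 0 (n 0 z (n 0 z (n 0 z (n 0 z
 (n 0 z z))))) (n 0 (n 0 z (n 0 z (n 0 z (n 0 z (n 0 z z))))) (n 0 (n 0 z (n 0 z (n 0 z (n 0 z
 (n 0 z z))))) (n 0 (n 0 z (n 0 z (n 0 z (n 0 z (n 0 z z))))) (n 0 (n 0 z (n 0 (n 7682059 z (n
 8848923 z z)) (n 0 z (n 0 (n 7682059 z (n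
 0xa4831659c8a829c7e89618c66864ea0909e7b5180a791979c6d5d6a8497636c9670554a5b91b78a8881ac6fbd6db23d83597f82870049
 z z)) (n 0 z z))))) (n 0 (n 0 z (n 0 (n 8848923 z (n 8848923 z z)) (n 0 (n 8783675 z (n
 0x848439e079d8df72381f86282595c7e0a5aadc95796166a82081684f865a206a3a268226d9b2f5dd0041 z z)) (n
 0 z (n 0 z z))))) (n 0 (n 0 z (n 0 z (n 0 z (n 0 z (n 0 z z))))) z))))))) (n 33 (n 0 (n 0 z (n
 0 z (n 0 z (n 0 z (n 0 z z))))) (n 0 (n 0 z (n 0 z (n 0 z (n 0 z (n 0 z z))))) (n 0 (n 0 z (n 0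
 z (n 0 z (n 0 z (n 0 z z))))) (n 0 (n 0 z (n 0 z (n 0 z (n 0 z (n 0 z z))))) (n 0 (n 0 z (n 0
 (n
 0xc48747c70658fa6845e7f809a6db46ea7189ec15187966b80808a75a0817a699e9d6e9060827abb6b659ea55896889a2f989c7c680049
 z z) (n 0 z (n 0 (n
 0x30caeca80785f8608208208208608207e082082082082085f8208208208208208208208208208208208200801 z
 z) (n 0 z z))))) (n 0 (n 0 z (n 0 z (n 0 z (n 0 z (n 0 z z))))) (n 0 (n 0 z (n 0 z (n 0 z (n 0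
 z (n 0 z z))))) (n 0 (n 0 z (n 0 z (n 0 z (n 0 z (n 0 z z))))) (n 0 (n 0 z (n 0 z (n 0 z (n 0
 (n 8525323 z z) (n 0 z z))))) (n 0 (n 0 z (n 0 z (n 0 z (n 0 z (n 0 z z))))) (n 0 (n 0 z (n 0 z
 (n 0 (n 8802883 z z) (n 0 (n 8802883 z z) (n 0 z z))))) z))))))))))) (n 419 (n 0 (n 0 z (n 0 z
 (n 0 z (n 0 z (n 0 z z))))) (n 0 (n 0 z (n 0 z (n 0 z (n 0 z (n 0 z z))))) (n 0 (n 0 z (n 0 z
 (n 0 z (n 0 z (n 0 z z))))) (n 0 (n 0 z (n 0 z (n 0 z (n 0 z (n 0 z z))))) (n 0 (n 0 z (n 0 (n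
 0xa4821659c8a829c7e89618c66864ea0909e7b5180a791979c6d5d6a8497636c9670554a5b91b78a8881ac6fbd6db23d83597f82870049
 z (n
 0xa4821659c8a829c7e89618c66864ea0909e7b5180a791979c6d5d6a8497636c9670554a5b91b78a8881ac6fbd6db23d83597f82870049
 z z)) (n 0 z (n 0 (n
 0xa4821659c8a829c7e89618c66864ea0909e7b5180a791979c6d5d6a8497636c9670554a5b91b78a8881ac6fbd6db23d83597f82870049
 z (n
 0xa4821659c8a829c7e89618c66864ea0909e7b5180a791979c6d5d6a8497636c9670554a5b91b78a8881ac6fbd6db23d83597f82870049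
 z z)) (n 0 z z))))) z))))) (n 251 (n 0 (n 0 z (n 0 z (n 0 z (n 0 z (n 0 z z))))) (n 0 (n 0 z (n
 0 z (n 0 (n
 0x30caeca80785f8608208208208608207e082082082082085f8208208208208208208208208208208208200801 z
 z) (n 0 (n
 0x30caeca80785f8608208208208608207e082082082082085f8208208208208208208208208208208208200801 z
 z) (n 0 z z))))) (n 0 (n 0 z (n 0 z (n 0 z (n 0 z (n 0 z z))))) (n 0 (n 0 z (n 0 z (n 0 z (n 0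
 z (n 0 z z))))) (n 0 (n 0 (n 8790275 z z) (n 0 (n 8790275 z z) (n 0 z (n 0 z (n 0 z z))))) (n 0
 (n 0 z (n 0 z (n 0 z (n 0 (n 8790275 z z) (n 0 z z))))) (n 0 (n 0 (n 8790275 z z) (n 0 z (n 0 z
 (n 0 z (n 0 z z))))) (n 0 (n 0 z (n 0 (n 8790275 z z) (n 0 z (n 0 z (n 0 z z))))) (n 0 (n 0 z
 (n 0 z (n 0 z (n 0 z (n 0 z z))))) (n 0 (n 0 z (n 0 z (n 0 z (n 0 z (n 0 z z))))) (n 0 (n 0 z
 (n 0 z (n 0 z (n 0 z (n 0 z z))))) (n 0 (n 0 z (n 0 z (n 0 z (n 0 z (n 0 z z))))) (n 0 (n 0 z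
 (n 0 z (n 0 z (n 0 z (n 0 z z))))) (n 0 (n 0 z (n 0 z (n 0 z (n 0 z (n 0 z z))))) (n 0 (n 0 z
 (n 0 (n 8525323 z z) (n 0 z (n 0 z (n 0 (n 8525323 z z) z))))) (n 0 (n 0 (n
 0x1487285f8617e082081f81f8618217e08207e17e081f81f7e17e179f7e186082082186081e85f8200041 z z) (n
 0 (n 8783691 z z) (n 0 z (n 0 z (n 0 z z))))) (n 0 (n 0 (n 8525323 z z) (n 0 z (n 0 z (n 0 z (n
 0 z z))))) (n 0 (n 0 z (n 0 z (n 0 z (n 0 z (n 0 z z))))) (n 0 (n 0 z (n 0 (n 8525323 z z) (n 0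
 z (n 0 (n 8525323 z z) (n 0 z z))))) (n 0 (n 0 (n
 0x1487285f8617e082081f81f8618217e08207e17e081f81f7e17e179f7e186082082186081e85f8200041 z z) (n
 0 z (n 0 z (n 0 z (n 0 z z))))) (n 0 (n 0 z (n 0 z (n 0 z (n 0 z (n 0 z z))))) (n 0 (n 0 (n
 8523875 z (n 8523875 z z)) (n 0 (n 8523875 z (n 8523875 z z)) (n 0 z (n 0 z (n 0 z z)))))
 z)))))))))))))))))))))) (n 9 (n 0 (n 0 z (n 0 z (n 0 z (n 0 z (n 0 z z))))) (n 0 (n 0 z (n 0 z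
 (n 0 z (n 0 z (n 0 z z))))) (n 0 (n 0 z (n 0 z (n 0 z (n 0 z (n 0 z z))))) (n 0 (n 0 z (n 0 z
 (n 0 z (n 0 z (n 0 z z))))) (n 0 (n 0 z (n 0 z (n 0 z (n 0 z (n 0 z z))))) (n 0 (n 0 z (n 0 z
 (n 0 z (n 0 z (n 0 z z))))) (n 0 (n 0 z (n 0 z (n 0 z (n 0 z (n 0 z z))))) (n 0 (n 0 z (n 0 z
 (n 0 z (n 0 z (n 0 z z))))) (n 0 (n 0 z (n 0 z (n 0 z (n 0 z (n 0 z z))))) (n 0 (n 0 z (n 0 z
 (n 0 z (n 0 z (n 0 z z))))) (n 0 (n 0 z (n 0 z (n 0 z (n 0 z (n 0 z z))))) (n 0 (n 0 z (n 0 z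
 (n 0 z (n 0 z (n 0 z z))))) (n 0 (n 0 z (n 0 z (n 0 z (n 0 z (n 0 z z))))) (n 0 (n 0 z (n 0 z
 (n 0 z (n 0 z (n 0 z z))))) (n 0 (n 0 (n 8525323 z z) (n 0 z (n 0 z (n 0 z (n 0 z z))))) (n 0
 (n 0 z (n 0 z (n 0 z (n 0 (n 8525323 z z) (n 0 z z))))) (n 0 (n 0 z (n 0 z (n 0 z (n 0 z (n 0 z
 z))))) (n 0 (n 0 z (n 0 z (n 0 z (n 0 z (n 0 z z))))) (n 0 (n 0 z (n 0 z (n 0 z (n 0 z (n 0 z
 z))))) (n 0 (n 0 z (n 0 z (n 0 z (n 0 z (n 0 z z))))) (n 0 (n 0 z (n 0 z (n 0 z (n 0 z (n 0 z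
 z))))) (n 0 (n 0 z (n 0 z (n 0 z (n 0 z (n 0 z z))))) (n 0 (n 0 z (n 0 z (n 0 z (n 0 z (n 0 z
 z))))) (n 0 (n 0 z (n 0 z (n 0 z (n 0 z (n 0 z z))))) (n 0 (n 0 z (n 0 z (n 0 z (n 0 z (n 0 z
 z))))) (n 0 (n 0 z (n 0 (n 8848923 z (n 8848923 z z)) (n 0 (n
 0x10caca280789f8607e08217e08607e18207e08218207df8208208608207e07e08208208208208208608200801 z
 (n 0x10caeca80789f85f7e08218208607e18207e07e282079e8207e08607e07df7e086182082181f7e08218200801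
 z z)) (n 0 (n
 0x10caca280789f8607e08217e08607e18207e08218207df8208208608207e07e08208208208208208608200801 z
 (n 0x10caeca80789e8608208208208607e18207e07e282079e8207e08607e07df7e08608608218207e08607e00801
 z z)) (n 0 z z))))) (n 0 (n 0 z (n 0 z (n 0 z (n 0 z (n 0 z z))))) (n 0 (n 0 (n
 0xa4870659c8a829c7e89618c66864ea0909e7b5180a791979c6d5d6a8497636c9670554a5b91b78a8881ac6fbd6db23d83597f82870049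
 z z) (n 0 (n
 0x848619e079d8df72381f86282595c7e0a5aadc95796166a82081684f865a206a3a268226d9b2f5dd0041 z z) (n
 0 z (n 0 z (n 0 z z))))) (n 0 (n 0 (n 8794379 z z) (n 0 z (n 0 z (n 0 z (n 0 z z))))) (n 0 (n 0
 z (n 0 z (n 0 z (n 0 z (n 0 z z))))) (n 0 (n 0 z (n 0 z (n 0 z (n 0 z (n 0 (n 8790275 z z)
 z))))) z))))))))))))))))))))))))))))))) (n 513 (n 0 (n 0 z (n 0 z (n 0 z (n 0 z (n 0 z z)))))
 (n 0 (n 0 z (n 0 z (n 0 z (n 0 z (n 0 z z))))) (n 0 (n 0 z (n 0 z (n 0 z (n 0 z (n 0 z z)))))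
 (n 0 (n 0 z (n 0 z (n 0 z (n 0 z (n 0 z z))))) z)))) (n 81 (n 0 (n 0 z (n 0 z (n 0 z (n 0 z (n
 0 z z))))) (n 0 (n 0 z (n 0 z (n 0 z (n 0 z (n 0 z z))))) (n 0 (n 0 z (n 0 z (n 0 z (n 0 z (n 0
 (n 8525323 z z) z))))) (n 0 (n 0 z (n 0 z (n 0 z (n 0 z (n 0 z z))))) (n 0 (n 0 z (n 0 z (n 0 z
 (n 0 z (n 0 z z))))) (n 0 (n 0 z (n 0 z (n 0 z (n 0 z (n 0 (n 8790275 z z) z))))) (n 0 (n 0 (n
 8525323 z z) (n 0 z (n 0 z (n 0 z (n 0 z z))))) (n 0 (n 0 z (n 0 (n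
 0x30cb0ca6038208208208208208607a18617e08218208208207df8207e08608208208608217e181f8208200801 z
 z) (n 0 z (n 0 z (n 0 z z))))) (n 0 (n 0 z (n 0 (n
 0x1487585f8617e082081f81f8618217e08207e17e081f81f7e17e179f7e186082082186081e85f8200041 z (n
 0x10cb0ca60382082186081f8208607e28217e08218207df85f7a08a07e086082082085f82082081f8608210801 z
 z)) (n 0 z (n 0 z (n 0 z z))))) z))))))))) (n 15 (n 0 (n 0 z (n 0 z (n 0 z (n 0 z (n 0 z z)))))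
 (n 0 (n 0 z (n 0 z (n 0 z (n 0 z (n 0 z z))))) (n 0 (n 0 z (n 0 z (n 0 z (n 0 z (n 0 z z)))))
 (n 0 (n 0 z (n 0 z (n 0 z (n 0 z (n 0 z z))))) (n 0 (n 0 z (n 0 z (n 0 z (n 0 z (n 0 z z)))))
 (n 0 (n 0 z (n 0 z (n 0 z (n 0 z (n 0 z z))))) z)))))) (n 79 (n 0 (n 0 z (n 0 z (n 0 z (n 0 z
 (n 0 z z))))) (n 0 (n 0 z (n 0 z (n 0 z (n 0 z (n 0 z z))))) (n 0 (n 0 z (n 0 z (n 0 z (n 0 z
 (n 0 z z))))) (n 0 (n 0 z (n 0 z (n 0 z (n 0 z (n 0 z z))))) (n 0 (n 0 z (n 0 z (n 0 z (n 0 z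
 (n 0 z z))))) (n 0 (n 0 z (n 0 z (n 0 z (n 0 z (n 0 z z))))) (n 0 (n 0 z (n 0 z (n 0 z (n 0 z
 (n 0 z z))))) (n 0 (n 0 z (n 0 z (n 0 z (n 0 z (n 0 z z))))) (n 0 (n 0 z (n 0 (n 8848923 z (n
 8848923 z z)) (n 0 (n 7407707 z (n
 0x50cb0a420781f86181f82082182182282379d7e181f7e17dd7de9e37217a181e8218627e189f79c8627e00801 z
 z)) (n 0 (n 7407707 z (n
 0x50cb0a420781f86181f82082182086182279d8618207617dc79e9e37217607de8608617a285f79c8627e10801 z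
 z)) (n 0 z z))))) (n 0 (n 0 z (n 0 z (n 0 z (n 0 z (n 0 z z))))) (n 0 (n 0 z (n 0 z (n 0 z (n 0
 z (n 0 z z))))) (n 0 (n 0 z (n 0 (n 8794379 z (n 8794379 z z)) (n 0 z (n 0 z (n 0 z z)))))
 z)))))))))))) (n 633 (n 0 (n 0 z (n 0 z (n 0 z (n 0 z (n 0 z z))))) (n 0 (n 0 z (n 0 z (n 0 z
 (n 0 z (n 0 (n
 0x1487385f8617e082081f81f8618217e08207e17e081f81f7e17e179f7e186082082186081e85f8200041 z z)
 z))))) (n 0 (n 0 (n 8783675 z (n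
 0xa4831659c8a829c7e89618c66864ea0909e7b5180a791979c6d5d6a8497636c9670554a5b91b78a8881ac6fbd6db23d83597f82870049
 z z)) (n 0 z (n 0 z (n 0 (n 8783675 z (n
 0xa4831659c8a829c7e89618c66864ea0909e7b5180a791979c6d5d6a8497636c9670554a5b91b78a8881ac6fbd6db23d83597f82870049
 z z)) (n 0 (n 8851507 z (n 8851507 z z)) z))))) (n 0 (n 0 z (n 0 z (n 0 z (n 0 z (n 0 z z)))))
 (n 0 (n 0 z (n 0 z (n 0 z (n 0 (n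
 0xa4821659c8a829c7e89618c66864ea0909e7b5180a791979c6d5d6a8497636c9670554a5b91b78a8881ac6fbd6db23d83597f82870049
 z z) (n 0 z z))))) (n 0 (n 0 z (n 0 z (n 0 z (n 0 z (n 0 z z))))) (n 0 (n 0 z (n 0 z (n 0 z (n
 0 z (n 0 z z))))) (n 0 (n 0 z (n 0 z (n 0 z (n 0 z (n 0 (n 8860179 z z) z))))) (n 0 (n 0 z (n 0
 z (n 0 z (n 0 z (n 0 z z))))) (n 0 (n 0 z (n 0 z (n 0 z (n 0 z (n 0 z z))))) (n 0 (n 0 (n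
 8802883 z z) (n 0 z (n 0 (n 8802883 z z) (n 0 z (n 0 z z))))) (n 0 (n 0 z (n 0 z (n 0 z (n 0 z
 (n 0 z z))))) (n 0 (n 0 z (n 0 z (n 0 z (n 0 z (n 0 (n 8523875 z z) z))))) (n 0 (n 0 (n 8523875
 z z) (n 0 z (n 0 z (n 0 (n 8523875 z z) (n 0 z z))))) (n 0 (n 0 z (n 0 z (n 0 z (n 0 z (n 0 z
 z))))) (n 0 (n 0 (n
 0x3c82179faa46e09e189a955899d977609e59a5699816a9b92269761fa2c76096966876e796aae49d0041 z (n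
 8660763 z z)) (n 0 z (n 0 z (n 0 (n
 0x3c82179faa46e09e189a955899d977609e59a5699816a9b92269761fa2c76096966876e796aae49d0041 z (n
 8660763 z z)) (n 0 (n
 0x1c87289e8a17e07e28208208228207a186282179e85d7e089f7e07de8608a089f82182081f8e08200041 z (n
 0x3c82179faa46e09e189a955899d977609e59a5699816a9b92269761fa2c76096966876e796aae49d0041 z z))
 z))))) z)))))))))))))))) (n 105 (n 0 (n 0 z (n 0 z (n 0 z (n 0 z (n 0 z z))))) (n 0 (n 0 z (n 0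
 z (n 0 z (n 0 z (n 0 z z))))) (n 0 (n 0 z (n 0 z (n 0 z (n 0 z (n 0 z z))))) (n 0 (n 0 z (n 0 z
 (n 0 z (n 0 z (n 0 z z))))) (n 0 (n 0 z (n 0 z (n 0 z (n 0 z (n 0 z z))))) (n 0 (n 0 z (n 0 z
 (n 0 z (n 0 z (n 0 z z))))) (n 0 (n 0 z (n 0 z (n 0 z (n 0 z (n 0 z z))))) (n 0 (n 0 z (n 0 z
 (n 0 z (n 0 z (n 0 z z))))) (n 0 (n 0 z (n 0 z (n 0 (n 8802883 z z) (n 0 (n 8802883 z z) (n 0 z
 z))))) (n 0 (n 0 z (n 0 z (n 0 z (n 0 z (n 0 z z))))) z)))))))))) (n 21 (n 0 (n 0 z (n 0 z (n 0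
 z (n 0 z (n 0 z z))))) (n 0 (n 0 z (n 0 z (n 0 z (n 0 z (n 0 z z))))) (n 0 (n 0 z (n 0 z (n 0 z
 (n 0 z (n 0 z z))))) (n 0 (n 0 z (n 0 z (n 0 z (n 0 z (n 0 z z))))) (n 0 (n 0 z (n 0 z (n 0 z
 (n 0 z (n 0 z z))))) (n 0 (n 0 z (n 0 z (n 0 z (n 0 z (n 0 z z))))) (n 0 (n 0 z (n 0 z (n 0 z
 (n 0 z (n 0 z z))))) (n 0 (n 0 z (n 0 z (n 0 z (n 0 z (n 0 z z))))) (n 0 (n 0 z (n 0 z (n 0 (n
 8802883 z z) (n 0 (n 8802883 z z) (n 0 z z))))) (n 0 (n 0 z (n 0 z (n 0 z (n 0 z (n 0 z z)))))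
 z)))))))))) (n 97 (n 0 (n 0 z (n 0 z (n 0 z (n 0 z (n 0 z z))))) (n 0 (n 0 z (n 0 z (n 0 z (n 0
 z (n 0 z z))))) (n 0 (n 0 z (n 0 z (n 0 z (n 0 z (n 0 z z))))) (n 0 (n 0 z (n 0 z (n 0 z (n 0 z
 (n 0 z z))))) (n 0 (n 0 z (n 0 z (n 0 z (n 0 z (n 0 z z))))) (n 0 (n 0 z (n 0 (n 8783691 z z)
 (n 0 z (n 0 z (n 0 z z))))) (n 0 (n 0 z (n 0 z (n 0 z (n 0 z (n 0 z z))))) (n 0 (n 0 z (n 0 z
 (n 0 z (n 0 z (n 0 z z))))) z)))))))) (n 96 (n 0 (n 0 z (n 0 z (n 0 z (n 0 z (n 0 z z))))) (n 0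
 (n 0 z (n 0 z (n 0 z (n 0 z (n 0 z z))))) (n 0 (n 0 z (n 0 (n 8652331 z (n 8652331 z z)) (n 0
 (n 8652331 z (n 8652331 z z)) (n 0 z (n 0 z z))))) (n 0 (n 0 z (n 0 z (n 0 z (n 0 z (n 0 z
 z))))) (n 0 (n 0 z (n 0 z (n 0 z (n 0 z (n 0 z z))))) (n 0 (n 0 z (n 0 z (n 0 z (n 0 z (n 0 z
 z))))) (n 0 (n 0 z (n 0 z (n 0 z (n 0 z (n 0 z z))))) (n 0 (n 0 z (n 0 z (n 0 z (n 0 z (n 0 z
 z))))) (n 0 (n 0 z (n 0 z (n 0 (n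
 0xc48107c70658fa7845e7f809a6db46ea8189ec05187976b817f8a76a0817a699e9d6e90618279bc6b659da55894889a2f989c7d680049
 z (n 8783675 z z)) (n 0 z (n 0 z z))))) (n 0 (n 0 z (n 0 z (n 0 z (n 0 z (n 0 z z))))) (n 0 (n
 0 z (n 0 z (n 0 z (n 0 z (n 0 z z))))) (n 0 (n 0 z (n 0 z (n 0 z (n 0 z (n 0 z z))))) (n 0 (n 0
 z (n 0 (n
 0x10ed0ec60382082086081f8608218208207df8208208208207a08617df85f8207e085f7e182081f8208200801 z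
 z) (n 0 z (n 0 z (n 0 z z))))) (n 0 (n 0 z (n 0 z (n 0 z (n 0 z (n 0 z z))))) z))))))))))))))
 (n 441 (n 0 (n 0 z (n 0 z (n 0 z (n 0 z (n 0 z z))))) (n 0 (n 0 z (n 0 z (n 0 z (n 0 z (n 0 z
 z))))) z)) (n 435 (n 0 (n 0 z (n 0 z (n 0 z (n 0 z (n 0 z z))))) (n 0 (n 0 z (n 0 z (n 0 z (n 0
 z (n 0 z z))))) (n 0 (n 0 z (n 0 z (n 0 z (n 0 z (n 0 z z))))) (n 0 (n 0 z (n 0 z (n 0 z (n 0 z
 (n 0 z z))))) (n 0 (n 0 z (n 0 z (n 0 z (n 0 (n 8790275 z z) (n 0 z z))))) (n 0 (n 0 z (n 0 z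
 (n 0 z (n 0 z (n 0 z z))))) (n 0 (n 0 z (n 0 z (n 0 z (n 0 (n
 0xa4870659c8a829c7e89618c66864ea0909e7b5180a791979c6d5d6a8497636c9670554a5b91b78a8881ac6fbd6db23d83597f82870049
 z z) (n 0 z z))))) (n 0 (n 0 z (n 0 z (n 0 z (n 0 z (n 0 z z))))) (n 0 (n 0 z (n 0 z (n 0 z (n
 0 z (n 0 z z))))) (n 0 (n 0 (n 8783675 z (n
 0x10caa408038de8607e08218208217e181f7e07e286079f82082189f82079f7e18608207e18207e08a08200801 z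
 z)) (n 0 z (n 0 z (n 0 (n 8783675 z (n
 0x10caa408038de8607e08218208217e181f7e07e286079f82082189f82079f7e18608207e18207e08a08200801 z
 z)) (n 0 (n 8851507 z (n 8851507 z z)) z))))) z)))))))))) (n 9 (n 0 (n 0 z (n 0 z (n 0 z (n 0 z
 (n 0 z z))))) (n 0 (n 0 z (n 0 z (n 0 z (n 0 z (n 0 z z))))) (n 0 (n 0 z (n 0 z (n 0 z (n 0 z
 (n 0 z z))))) (n 0 (n 0 z (n 0 z (n 0 z (n 0 z (n 0 z z))))) (n 0 (n 0 (n 8783675 z (n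
 0xa4831659c8a829c7e89618c66864ea0909e7b5180a791979c6d5d6a8497636c9670554a5b91b78a8881ac6fbd6db23d83597f82870049
 z z)) (n 0 z (n 0 z (n 0 (n 8783675 z (n
 0xa4831659c8a829c7e89618c66864ea0909e7b5180a791979c6d5d6a8497636c9670554a5b91b78a8881ac6fbd6db23d83597f82870049
 z z)) (n 0 (n 8851507 z (n 8851507 z z)) z))))) (n 0 (n 0 z (n 0 z (n 0 z (n 0 (n 8794379 z (n
 8794379 z z)) (n 0 z z))))) z)))))) (n 3 (n 0 (n 0 z (n 0 z (n 0 z (n 0 z (n 0 z z))))) (n 0 (n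
 0 z (n 0 z (n 0 z (n 0 z (n 0 z z))))) (n 0 (n 0 z (n 0 z (n 0 z (n 0 z (n 0 z z))))) z))) (n 1
 (n 0 (n 0 z (n 0 z (n 0 z (n 0 z (n 0 z z))))) (n 0 (n 0 z (n 0 z (n 0 z (n 0 z (n 0 z z)))))
 (n 0 (n 0 z (n 0 z (n 0 z (n 0 z (n 0 z z))))) (n 0 (n 0 z (n 0 z (n 0 z (n 0 z (n 0 z z)))))
 (n 0 (n 0 z (n 0 z (n 0 z (n 0 z (n 0 z z))))) (n 0 (n 0 z (n 0 z (n 0 z (n 0 z (n 0 z z)))))
 (n 0 (n 0 z (n 0 z (n 0 z (n 0 z (n 0 z z))))) z))))))) (n 0 (n 0 (n 0 z (n 0 z (n 0 z (n 0 z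
 (n 0 z z))))) (n 0 (n 0 z (n 0 z (n 0 z (n 0 z (n 0 z z))))) (n 0 (n 0 z (n 0 z (n 0 z (n 0 z
 (n 0 z z))))) (n 0 (n 0 (n 8794379 z z) (n 0 z (n 0 z (n 0 (n 8794379 z z) (n 0 (n 8851507 z z)
 z))))) (n 0 (n 0 (n
 0xa4821659c8a829c7e89618c66864ea0909e7b5180a791979c6d5d6a8497636c9670554a5b91b78a8881ac6fbd6db23d83597f82870049
 z z) (n 0 (n
 0xa4821659c8a829c7e89618c66864ea0909e7b5180a791979c6d5d6a8497636c9670554a5b91b78a8881ac6fbd6db23d83597f82870049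
 z z) (n 0 z (n 0 z (n 0 z z))))) (n 0 (n 0 z (n 0 z (n 0 z (n 0 z (n 0 z z))))) (n 0 (n 0 z (n
 0 z (n 0 z (n 0 z (n 0 z z))))) (n 0 (n 0 z (n 0 (n 2164827 z z) (n 0 z (n 0 z (n 0 z z))))) (n
 0 (n 0 z (n 0 z (n 0 z (n 0 z (n 0 z z))))) (n 0 (n 0 z (n 0 z (n 0 z (n 0 z (n 0 z z))))) (n 0
 (n 0 z (n 0 z (n 0 z (n 0 z (n 0 z z))))) (n 0 (n 0 z (n 0 z (n 0 z (n 0 z (n 0 z z))))) (n 0
 (n 0 z (n 0 z (n 0 z (n 0 z (n 0 z z))))) (n 0 (n 0 z (n 0 z (n 0 z (n 0 z (n 0 z z))))) (n 0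
 (n 0 z (n 0 z (n 0 z (n 0 z (n 0 z z))))) (n 0 (n 0 z (n 0 (n 2164827 z (n 8783691 z z)) (n 0 z
 (n 0 z (n 0 z z))))) (n 0 (n 0 z (n 0 (n 8783691 z z) (n 0 z (n 0 z (n 0 z z))))) (n 0 (n 0 z
 (n 0 (n 7407707 z (n
 0x10e90e820386082082081f8608207e082181f8208208208607e08617a085f8208208608207e081f8208200801 z
 z)) (n 0 z (n 0 z (n 0 z z))))) z)))))))))))))))))) z))))))))))))))))))))) z)))) z) z)))) (n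
 0x1518a82aa54846291068b683699a0c4cd4224a2209 (n 0 (n 663 (n 0 z (n 0 z (n 0 z (n 0 z (n 0 z (n
 3282443 z (n 0 z z))))))) (n 261 (n 0 z (n 0 z (n 0 z (n 0 z (n 2 z (n 3278363 z (n 0 z (n 0 z
 (n 0 z (n 0 z z)))))))))) (n 9 (n 10 z (n 0 z (n 0 z (n 0 z (n 6497547 z (n 0 z z)))))) (n 3 (n
 0 z (n 18 z (n 0 z (n 0 z (n 26 z (n 6497547 z (n 34 z (n
 0x12ca8ca8207ac607bad539d76725d70589276b25793818891788f8e649081854b9691697f886e57566c7d6b88739688938184958a5284880809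
 z (n 0 z z))))))))) (n 1 (n 42 z (n 0 z (n 0 z (n 2164299 z (n 0 z z))))) (n 0 (n 50 z (n 58 z
 (n 2164315 z (n 0 z z)))) z)))))) (n 0 (n 0 (n 263 (n 0 z (n 0 z (n 0 z (n 0 z z)))) (n 299 (n
 0 z (n 0 z (n 0 z (n 0 z (n 0 z (n 0 z (n 0 z (n 0 z (n 0 z z))))))))) (n 299 (n 0 z (n 0 z (n
 0 z (n 0 z (n 0 z (n 0 z (n 0 z (n 0 z (n 0 z z))))))))) (n 299 (n 0 z (n 0 z (n 0 z (n 0 z (n
 0 z (n 0 z (n 0 z (n 0 z (n 0 z z))))))))) (n 297 (n 0 z (n 0 z (n 0 z (n 0 z (n 0 z (n 0 z (n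
 0 z (n 0 z (n 0 z z))))))))) (n 241 (n 0 z (n 0 z (n 0 z (n 0 z (n 0 z (n 0 z (n 0 z (n 0 z (n
 0 z (n 0 z (n 0 z (n 0 z (n 0 z z))))))))))))) (n 241 (n 0 z (n 0 z (n 0 z (n 0 z (n 0 z (n 0 z
 (n 0 z (n 0 z (n 0 z (n 0 z (n 0 z (n 0 z (n 0 z z))))))))))))) z))))))) (n 0 (n 7 (n 0 z (n 0
 z (n 0 z (n 0 z (n 0 z z))))) (n 7 (n 0 z (n 0 z (n 0 z (n 0 z (n 0 z z))))) (n 7 (n 0 z (n 0 z
 (n 0 z (n 0 z (n 7542347 z z))))) (n 697 (n 0 z (n 0 z (n 0 z (n 0 z (n 0 z (n 0 z (n 0 z (n 0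
 z (n 0 z (n 0 z (n 0 z (n 0 z (n 0 z (n 0 z (n 0 z (n 0 z z)))))))))))))))) (n 1 (n 0 z (n 0 z
 (n 0 z (n 0 z (n 0 z (n 0 z (n 0 z (n 0 z z)))))))) (n 1 (n 0 z (n 0 z (n 0 z (n 0 z (n 0 z (n
 0 z (n 0 z (n 0 z z)))))))) z)))))) (n 0 (n 0 z (n 0 z (n 853 (n 0 z (n 0 z (n 0 z (n 0 z (n 0
 z (n 0 z (n 0 z (n 0 z (n 0 z (n 0 z z)))))))))) (n 817 (n 2 (n 0 z z) (n 0 z (n 0 z (n 0 z (n
 0 z (n 0 z (n 0 z (n 0 z (n 0 z z))))))))) (n 817 (n 0 z (n 0 z (n 0 z (n 0 z (n 0 z (n 0 z (n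
 0 z (n 0 z (n 0 z z))))))))) z))))) (n 0 (n 0 z (n 15 (n 0 z (n 0 z (n 0 z (n 0 z z)))) (n 13
 (n 0 z (n 0 z (n 0 z (n 0 z z)))) (n 13 (n 0 z (n 0 z (n 0 z (n 0 z z)))) z)))) (n 0 (n 99 (n
 6494027 z (n 0 z (n 0 z (n 0 z (n 0 z (n 0 z (n 0 z (n 0 z (n 0 z (n 0 z (n 0 z (n 0 z (n 0 z
 z))))))))))))) (n 97 (n 0 z (n 0 z (n 0 z (n 0 z (n 0 z (n 0 z (n 0 z (n 0 z (n 0 z (n 0 z
 z)))))))))) (n 97 (n 0 z (n 0 z (n 0 z (n 0 z (n 0 z (n 0 z (n 0 z (n 0 z (n 0 z (n 0 z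
 z)))))))))) z))) (n 0 (n 1061 (n 0 z (n 0 z (n 0 z (n 0 z (n 0 z (n 0 z (n 0 z z))))))) (n 1061
 (n 0 z (n 0 z (n 0 z (n 0 z (n 0 z (n 0 z (n 0 z z))))))) z)) (n 0 (n 0 z z) (n 0 z z))))))))
 (n 0 (n 1 (n 5308 z (n 5443683 z (n 5308 z (n 5308 z (n 5308 z (n 5308 z z)))))) (n 1 (n 5308 z
 (n 6497547 z (n 5308 z (n 5308 z (n 5308 z (n 5445195 z z)))))) (n 1 (n 2164315 z (n 2164315 z
 (n 2164315 z (n 6497547 z (n 2164315 z (n 2164315 z z)))))) (n 0 z z)))) (n 0 z z))))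
 z))))))))), by decide +kernel⟩

theorem g7_58 : RgOk KT RW [10658, 10666, 10673, 10677, 10687, 10697, 10707, 10716] := ⟨i10658, ⟨i10666, ⟨i10673, ⟨i10677, ⟨i10687, ⟨i10697, ⟨i10707, True.intro⟩⟩⟩⟩⟩⟩⟩

end Pool.Agent.Lib.EPS9
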