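import Pool.Agent.Lib.MP_c7e7f6_eps.Core4
import Pool.Agent.Lib.MP_c7e7f6_eps.KtAll

/-!
Extensions of the words from number 10716 on.
-/

set_option autoImplicit false

namespace Pool.Agent.Lib.EPS9

open Tr

theorem i10716 : ∃ t, chkR KT RW t 10716 10726 = true := ⟨(n
 0xadc3433adb688ebb4385dac42ad6c135d640 (n 0 (n 519 (n 3282443 z (n 0 z (n 2 z (n 0 z z)))) (n
 261 (n 3278363 z (n 0 z (n 0 z (n 0 z (n 10 z z))))) (n 517 (n 3212843 z (n 0 z (n 0 z (n 0 z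
 (n 0 z (n 18 z (n 0 z z))))))) (n 3 (n 0 z (n 0 z (n 0 z (n 26 z (n 34 z (n 2164283 z z))))))
 (n 1 (n 0 z (n 0 z (n 2164299 z z))) (n 0 (n 42 z (n 0 z (n 0 z (n 0 z (n 50 z (n 0 z (n 0 z (n
 0 z (n 0 z (n 6628411 z z)))))))))) z)))))) (n 1 (n 0 (n 1111 (n 0 z (n 0 z (n 0 z z))) (n 1035
 (n 0 z (n 0 z (n 0 z (n 0 z (n 0 z (n 0 z z)))))) (n 267 (n 0 z (n 0 z (n 0 z (n 0 z (n 0 z (n
 0 z (n 0 z (n 0 z z)))))))) (n 267 (n 0 z (n 0 z (n 0 z (n 0 z (n 0 z (n 0 z (n 0 z (n 0 z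
 z)))))))) (n 1033 (n 0 z (n 0 z (n 0 z (n 0 z z)))) (n 1033 (n 0 z (n 0 z (n 0 z (n 0 z z))))
 z)))))) (n 0 (n 19 (n 0 z (n 0 z (n 0 z (n 0 z (n 0 z (n 0 z (n 0 z (n 0 z (n 0 z (n 0 z (n 0 z
 (n 0 z (n 0 z (n 0 z (n 0 z z))))))))))))))) (n 55 (n 0 z (n 0 z (n 0 z z))) (n 55 (n 0 z (n 0
 z (n 0 z z))) (n 1 (n 0 z (n 0 z (n 7669275 z (n 0 z (n 0 z (n 0 z (n 0 z (n 0 z z)))))))) (n 1
 (n 0 z (n 0 z (n 0 z (n 0 z (n 0 z (n 0 z (n 0 z (n 0 z z)))))))) z))))) (n 0 (n 267 (n 0 z (n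
 0 z (n 0 z (n 0 z z)))) (n 267 (n 0 z (n 0 z (n 0 z (n 0 z z)))) (n 1033 (n 0 z (n 0 z (n 0 z
 (n 0 z (n 0 z (n 0 z (n 0 z (n 0 z (n 0 z (n 0 z (n 0 z (n 0 z (n 0 z (n 7669275 z (n 0 z (n 0
 z (n 0 z (n 0 z (n 0 z (n 0 z (n 0 z z))))))))))))))))))))) (n 1033 (n 0 z (n 0 z (n 0 z (n 0 z
 (n 0 z (n 0 z (n 0 z (n 0 z (n 0 z (n 0 z (n 0 z (n 0 z (n 0 z (n 0 z (n 0 z (n 0 z (n 0 z (n 0
 z (n 0 z (n 0 z (n 0 z z))))))))))))))))))))) z)))) (n 0 (n 0 z (n 49 (n 0 z (n 0 z (n 0 z (n 0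
 z (n 0 z (n 0 z (n 0 z (n 0 z (n 0 z (n 0 z (n 0 z (n 0 z (n 0 z (n 0 z z)))))))))))))) (n 49
 (n 0 z (n 0 z (n 0 z (n 0 z (n 0 z (n 0 z (n 0 z (n 0 z (n 0 z (n 0 z (n 0 z (n 0 z (n 0 z (n 0
 z z)))))))))))))) z))) (n 0 (n 5 (n 0 z (n 0 z (n 0 z (n 0 z (n 0 z (n 0 z (n 0 z (n 0 z (n 0 z
 (n 0 z (n 0 z z))))))))))) (n 5 (n 0 z (n 0 z (n 0 z (n 0 z (n 0 z (n 0 z (n 0 z (n 0 z (n 0 z
 (n 0 z (n 2 z z))))))))))) z)) (n 0 (n 0 z z) (n 0 z z))))))) (n 0 (n 0 z (n 0 z (n 1 (n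
 6628411 z (n 2164299 z (n 2164299 z (n 2164299 z (n 2164299 z (n 2164299 z z)))))) z))) (n 0 z
 z)))) (n 0x4e76b073b1919d6c86534434db270a593980cb640 (n 0 (n 587 (n 3282443 z (n 2 z (n 0 z (n
 0 z (n 10 z z))))) (n 595 (n 3278363 z (n 0 z (n 18 z (n 0 z z)))) (n 129 (n 0 z (n 0 z (n 0 z
 (n 0 z (n 3212843 z z))))) (n 3 (n 0 z (n 26 z (n 34 z (n 0 z (n 42 z (n 0 z (n 0 z (n 0 z (n
 0x4aca6a2040787262b7fda7c93c61e6d97178648748be9c26e77de391c008757f379dace55a7147267fc80fca991d4cc5bcc7167069673a68bb4185b89c57164baf9851959c1380b8d12e681adeb65e5810811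
 z (n 0 z (n 0 z (n 0 z (n 0 z (n 2164283 z (n 0 z z))))))))))))))) (n 1 (n 6636315 z (n 50 z (n
 0 z z))) (n 0 (n 58 z (n 0 z (n 6636315 z (n 0 z (n 0 z z))))) z)))))) (n 1 (n 0 (n 0 z (n 1007
 (n 0 z (n 0 z (n 0 z (n 0 z (n 0 z (n 2 (n 1 z (n 1 z (n 1 z (n 1 z (n 1 z z))))) z)))))) (n
 153 (n 0 z (n 0 z (n 0 z (n 0 z (n 0 z (n 0 z (n 0 z z))))))) (n 153 (n 0 z (n 0 z (n 0 z (n 0
 z (n 0 z (n 0 z (n 0 z z))))))) (n 153 (n 0 z (n 0 z (n 0 z (n 0 z (n 0 z (n 2 (n 1 z (n 1 z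
 z)) (n 0 z z))))))) (n 255 (n 0 z (n 0 z (n 0 z (n 0 z (n 0 z (n 0 z (n 0 z (n 0 z z)))))))) (n
 29 (n 0 z (n 0 z (n 0 z (n 0 z (n 0 z (n 0 z (n 0 z (n 0 z (n 0 z (n 0 z z)))))))))) z)))))))
 (n 0 (n 1007 (n 0 z (n 0 z (n 0 z (n 0 z (n 0 z (n 0 z z)))))) (n 997 (n 0 z (n 0 z (n 2 (n 0 z
 (n 0 z (n 1 z (n 1 z z)))) (n 0 z (n 0 z (n 0 z (n 0 z z))))))) (n 997 (n 0 z (n 2 (n 0 z (n 1
 z (n 1 z z))) (n 0 z (n 0 z (n 0 z (n 0 z (n 0 z z))))))) (n 997 (n 0 z (n 0 z (n 0 z (n 0 z (n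
 0 z (n 0 z (n 0 z z))))))) (n 729 (n 0 z (n 0 z (n 0 z z))) (n 121 (n 0 z (n 0 z (n 0 z (n 0 z
 (n 0 z (n 0 z z)))))) z)))))) (n 0 (n 1045 (n 0 z (n 0 z (n 0 z (n 0 z (n 0 z (n 0 z (n 0 z (n
 0 z (n 0 z (n 0 z z)))))))))) (n 1045 (n 0 z (n 0 z (n 0 z (n 2 (n 0 z (n 1 z (n 1 z z))) (n 0
 z (n 0 z (n 0 z (n 0 z (n 0 z (n 0 z z)))))))))) (n 1045 (n 0 z (n 0 z (n 0 z (n 0 z (n 0 z (n
 0 z (n 0 z (n 0 z (n 0 z (n 0 z z)))))))))) (n 373 (n 0 z (n 0 z (n 0 z (n 0 z z)))) (n 409 (n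
 0 z (n 0 z (n 0 z (n 0 z (n 0 z (n 0 z (n 0 z (n 0 z z)))))))) z))))) (n 0 (n 0 z (n 0 z (n 3
 (n 0 z (n 0 z (n 2 (n 1 z z) (n 0 z z)))) (n 1 (n 0 z (n 0 z (n 0 z (n 0 z (n 0 z (n 0 z (n 0 z
 (n 0 z z)))))))) z)))) (n 0 (n 0 z (n 255 (n 0 z (n 0 z (n 2 (n 1 z z) (n 0 z (n 0 z (n 0 z
 z)))))) (n 253 (n 2 z (n 0 z (n 0 z (n 0 z (n 0 z (n 0 z (n 0 z (n 0 z (n 0 z (n 0 z (n 0 z (n
 0 z (n 0 z (n 0 z z)))))))))))))) z))) (n 0 (n 3 (n 0 z (n 0 z (n 0 z (n 0 z (n 0 z (n 0 z (n 0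
 z z))))))) (n 5 (n 0 z (n 0 z (n 0 z (n 0 z (n 0 z (n 0 z z)))))) z)) (n 0 (n 1 (n 0 z (n 0 z
 (n 0 z (n 0 z (n 0 z (n 0 z (n 0 z (n 0 z (n 0 z (n 0 z (n 0 z (n 0 z (n 0 z (n 0 z (n 0 z (n 0
 z (n 0 z (n 0 z (n 0 z (n 0 z z)))))))))))))))))))) z) (n 0 z z)))))))) (n 0 (n 1 (n 6636315 z
 (n 6636315 z (n 6636315 z (n 6636315 z (n 6636315 z (n 6636315 z z)))))) (n 1 (n 1036 z (n 4700
 z (n 4700 z (n 4700 z (n 4700 z (n 4700 z z)))))) (n 0 z z))) (n 0 z z)))) (n 0x361536a848b (n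
 0 (n 281 (n 3282443 z (n 0 z (n 0 z (n 0 z (n 0 z (n 0 z (n 0 z (n 0 z z)))))))) (n 257 (n
 3278363 z (n 0 z (n 0 z (n 0 z (n 0 z z))))) (n 9 (n 0 z (n 0 z (n 3212843 z (n 0 z (n 0 z (n 0
 z (n 0 z z))))))) (n 27 (n 0 z (n 0 z (n 2 z (n 0 z (n 2164283 z (n 0 z (n 0 z (n 0 z (n 0 z (n
 10 z z)))))))))) (n 1 (n 0 z (n 0 z (n 2164299 z z))) (n 0 (n 0 z (n 0 z (n 0 z (n 2164315 z (n
 0 z (n 0 z (n 0 z z))))))) z)))))) (n 1 (n 0 (n 0 z z) (n 0 z z)) (n 0 (n 0 z (n 0 z (n 1 (n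
 2164299 z (n 2164299 z (n 2164299 z (n 2164299 z (n 2164299 z (n 2164299 z z)))))) z))) (n 0 z
 z)))) (n 0x48caa239650628ec2146dd124720653d18b13b8489dd201a3940 (n 0 (n 333 (n
 0x190d88540e1219308281c165352140380a62ca08070190d50c4060321b29080c054365210186ca8a842038618228218608207a27a086085f7df8a37de7a181f82185f82281f7df7de81e7e07df7df7e34001
 z (n 0 z (n 3282443 z (n 2 z (n 0 z (n 0 z (n 0 z (n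
 0x7653651403a0ca8a4260731085940c0e1210b20180c165365310392ca6a86203aa6826822a2082036173b9a132a1648a66cf96181e8a391a82081f6df81e61b95c59d6167a33001
 z (n
 0x80029a0c48700053414a8a002a641260c0014c81221001a090599b0034120891800682410a1c0010482d2a0002090584d00041204a960008240011c00194845058003290871d0006521081a000ca420872182182392082076876889f65e65b8af8cdbe681f5a09168258216226578dd8e671a81e6e97801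
 z (n 10 z z)))))))))) (n 317 (n 0 z (n 0 z (n 3278363 z (n 0 z (n 0 z (n 0 z (n 0 z (n 0 z (n 0
 z (n 0 z z)))))))))) (n 9 (n
 0x19458c100e2328b20181c15416403018ec84a206030d95150c4061aa1b19081c465343010196c868602038658228208e08206e666092091f75d9687596e581d82091b82381c79e71a81c8206dc6df7274001
 z (n 0 z (n 3212843 z (n 18 z (n 0 z (n 0 z (n 0 z (n
 0xc63241050382ca8ca860725951504c0e8328aa0180c765364310384ca4a80207aa6826822a2082036173b9a132a1648a66cf96181e8a391a82081f6df81e61b95c59d6167a33001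
 z (n
 0x80029a0c48700053414a8a002a641260c0014c81221001a090599b0034120891800682410a1c0010482d2a0002090584d00041204a960008240011c0018d0050580031a0071d0006340081a000c6800872182182392082076876889f65e65b8af8cdbe681f5a09168258216226578dd8e671a81e6e97801
 z (n 26 z z)))))))))) (n 316 (n 34 z (n 0 z (n 2164283 z (n 42 z (n 50 z (n 0 z (n 0 z z)))))))
 (n 1 (n 0 z (n 0 z (n 2164299 z (n 0 z (n 0 z (n 0 z (n 0 z (n 0 z (n 0 z (n 0 z z)))))))))) (n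
 0 (n 58 z (n 0 z (n 2164315 z (n 66 z (n 74 z (n 0 z (n 0 z z))))))) z)))))) (n 316 (n 0 (n 0 z
 (n 775 (n 0 z (n 0 z (n 0 z (n 0 z (n 0 z (n 0 z (n 0 z z))))))) (n 775 (n 0 z (n 0 z (n 0 z (n
 0 z (n 0 z (n 0 z (n 0 z z))))))) (n 665 (n 0 z (n 0 z (n 0 z (n 0 z z)))) (n 665 (n 0 z (n 0 z
 (n 0 z (n 0 z z)))) (n 665 (n 0 z (n 0 z (n 0 z (n 0 z z)))) (n 637 (n 0 z (n 0 z (n 0 z (n 0 z
 z)))) (n 637 (n 0 z (n 0 z (n 0 z (n 0 z z)))) (n 637 (n 0 z (n 0 z (n 0 z (n 0 z z))))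
 z))))))))) (n 0 (n 1395 (n 0 z (n 0 z (n 0 z (n 0 z (n 0 z (n 0 z (n 0 z z))))))) (n 1395 (n 0
 z (n 0 z (n 0 z (n 0 z (n 0 z (n 0 z (n 0 z z))))))) (n 665 (n 0 z (n 0 z (n 0 z (n 0 z (n 0 z
 (n 0 z (n 0 z z))))))) (n 665 (n 0 z (n 0 z (n 0 z (n 0 z (n 0 z (n 0 z (n 0 z z))))))) (n 665
 (n 0 z (n 0 z (n 0 z (n 0 z (n 0 z (n 0 z (n 0 z z))))))) (n 641 (n 0 z (n 0 z (n 0 z z))) (n
 641 (n 0 z (n 0 z (n 0 z z))) (n 641 (n 0 z (n 0 z (n 0 z z))) z)))))))) (n 0 (n 0 z (n 27 (n 0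
 z (n 0 z (n 0 z (n 0 z z)))) (n 27 (n 0 z (n 0 z (n 0 z (n 0 z z)))) (n 27 (n 0 z (n 0 z (n 0 z
 (n 0 z z)))) (n 17 (n 0 z (n 0 z (n 0 z (n 0 z z)))) (n 17 (n 0 z (n 0 z (n 0 z (n 0 z z)))) (n
 17 (n 0 z (n 0 z (n 0 z (n 0 z z)))) z))))))) (n 0 (n 33 (n 0 z (n 0 z (n 0 z z))) (n 33 (n 0 z
 (n 0 z (n 0 z z))) (n 33 (n 0 z (n 0 z (n 0 z z))) (n 17 (n 0 z (n 0 z (n 0 z (n 0 z (n 0 z (n
 0 z (n 0 z z))))))) (n 17 (n 0 z (n 0 z (n 0 z (n 0 z (n 0 z (n 0 z (n 0 z z))))))) (n 17 (n 0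
 z (n 0 z (n 0 z (n 0 z (n 0 z (n 0 z (n 0 z z))))))) z)))))) (n 0 (n 0 z (n 0 z (n 253 (n 0 z
 (n 0 z (n 0 z (n 0 z (n 0 z (n 0 z (n 0 z z))))))) (n 253 (n 0 z (n 0 z (n 0 z (n 0 z (n 0 z (n
 0 z (n 0 z z))))))) (n 253 (n 0 z (n 0 z (n 0 z (n 0 z (n 0 z (n 0 z (n 0 z z))))))) z))))) (n
 0 (n 0 z (n 5 (n 0 z (n 0 z (n 0 z (n 0 z (n 0 z (n 0 z (n 0 z (n 0 z z)))))))) (n 5 (n 0 z (n
 0 z (n 0 z (n 0 z (n 0 z (n 0 z (n 0 z (n 0 z z)))))))) (n 5 (n 0 z (n 0 z (n 0 z (n 0 z (n 0 z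
 (n 0 z (n 0 z (n 0 z z)))))))) z)))) (n 0 (n 1081 (n 0 z (n 0 z (n 0 z (n 0 z (n 0 z (n 0 z (n
 0 z z))))))) (n 1081 (n 0 z (n 0 z (n 0 z (n 0 z (n 0 z (n 0 z (n 0 z z))))))) (n 1081 (n 0 z
 (n 0 z (n 0 z (n 0 z (n 0 z (n 0 z (n 0 z z))))))) z))) (n 0 (n 0 z (n 0 z z)) (n 0 (n 0 z z)
 (n 0 z z)))))))))) (n 0 (n 1 (n 2668 z (n 2668 z (n 5445131 z (n 2668 z (n 2668 z (n 2668 z
 z)))))) (n 0 z (n 1 (n 2164283 z (n 2164283 z (n 2164283 z (n 2164283 z (n 2164283 z (n 2164283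
 z z)))))) (n 1 (n 2668 z (n 2668 z (n 2668 z (n 3280995 z (n 5445195 z (n 2540 z z)))))) (n 1
 (n 2668 z (n 2668 z (n 5449227 z (n 2668 z (n 3212875 z (n 2668 z z)))))) (n 0 z (n 0 z
 z))))))) (n 0 z z)))) (n 0 (n 0 (n 573 (n 3282443 z (n 0 z (n 0 z (n 0 z (n 0 z (n 0 z z))))))
 (n 571 (n
 0x865465320188ca2a804039207e48df6e57647e27e48a675c8228257de76189a8e475d8208e175e8217246e779b7e26e21001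
 z (n 3278363 z (n 0 z (n
 0x20ca6a86403aa182a7656de6e06e081e91e6e07a67a479f72379e85a81d86392275c8246aa6a67237e16e20801 z
 (n 5518875 z (n 0 z (n
 0x65365320186ca8ca040375c7dd8608a17e092171b81f79d7a28207a389e85b8677a496179b85d95f8a09237e28287df1001
 z z))))))) (n 570 (n 0 z (n 0 z (n 0 z (n
 0x1310a18281c165365310386ca4a602038a07e27a181e7e07e182085b8667a27e18218217a585a8a18608627e07e07a176076481c8201801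
 z (n 3212843 z (n 0 z (n 0 z (n 0 z (n 0 z (n 0 z (n 0 z (n 0 z z)))))))))))) (n 3 (n 0 z (n
 2164283 z (n 0 z (n 0 z (n 0 z (n 0 z (n 0 z (n 0 z (n 0 z z))))))))) (n 1 (n 2164299 z (n 0 z
 (n 0 z (n 0 z (n 0 z (n 0 z (n 0 z z))))))) (n 0 (n 6619675 z (n 0 z (n 0 z (n
 0x164264210190ca48642039248dca2676386075e79b71b75a8209236dc71c9228a089f8e281c7dd91c81981b7dd89d7df1001
 z (n 0 z (n 0 z (n 6619675 z (n 0 z (n 0 z (n 0 z (n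
 0x4c82c8040375c7dd81f8e289f9a471d82281e86182172081d7998eb7649a279a85d95e79d8e16e18a881f0801 z
 z))))))))))) z)))))) (n 573 z (n 0 (n 1 (n 3282443 z (n 3282443 z (n 3282443 z (n 3282443 z (n
 3282443 z (n 3282443 z z)))))) (n 0 z (n 0 z (n 0 z (n 0 z (n 0 z z)))))) (n 0 z z)))) (n
 0x2b2d5 (n 0 (n 453 (n 0 z (n 0 z (n 3282443 z (n 0 z (n 0 z (n 0 z (n 0 z z))))))) (n 437 (n 0
 z (n 0 z (n 0 z (n 0 z (n 0 z (n 3278363 z (n 0 z (n 0 z (n 0 z z))))))))) (n 436 (n 3212843 z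
 (n 0 z (n 0 z (n 0 z (n 0 z (n 0 z (n 0 z (n 0 z (n 0 z z))))))))) (n 3 (n 0 z (n 0 z (n 0 z (n
 0 z (n 2164283 z (n 0 z (n 0 z z))))))) (n 1 (n 0 z (n 0 z (n 0 z (n 0 z (n 0 z (n 2164299 z (n
 0 z (n 0 z z)))))))) (n 0 (n 0 z (n 0 z (n 2164315 z (n 0 z (n 2164315 z (n 2 z (n 0 z (n 0 z
 (n 0 z (n 0 z (n 0 z z))))))))))) z)))))) (n 453 (n 0 z z) (n 0 (n 0 z (n 0 z (n 1 (n 3282443 z
 (n 3282443 z (n 3282443 z (n 3282443 z (n 3282443 z (n 3282443 z z)))))) (n 0 z (n 0 z (n 0 z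
 (n 0 z z))))))) (n 0 z z)))) (n 0xc868b (n 0 (n 189 (n 0 z (n 0 z (n 3282443 z z))) (n 33 (n 0
 z (n 3278363 z (n 0 z (n 0 z z)))) (n 173 (n 0 z (n 0 z (n 0 z (n 0 z (n 3212843 z z))))) (n 3
 (n 2164283 z (n 2 z (n 0 z (n 0 z z)))) (n 1 (n 0 z (n 0 z (n 0 z (n 2164299 z (n 0 z (n 0 z (n
 0 z z))))))) (n 0 (n 0 z (n 0 z (n 0 z (n 0 z (n 0 z (n 2164315 z (n 0 z z))))))) z)))))) (n
 189 (n 0 z z) (n 0 (n 0 z (n 0 z (n 1 (n 3282443 z (n 3282443 z (n 3282443 z (n 3282443 z (n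
 3282443 z (n 3282443 z z)))))) z))) (n 0 z z)))) (n
 0xb7694272aa0eba5c35d2611d5288d5906b34c45d1e21d4e913578e1a23684d63a88718c238eb80 (n 0x31d74 (n
 153 (n 0 z (n 6496275 z (n 2 z z))) (n 33 (n 6496515 z (n 0 z (n 10 z (n 18 z z)))) (n 9 (n 0 z
 (n 6496523 z (n 0 z (n 26 z (n 0 z (n 0 z (n 6496515 z (n 0 z (n 0 z (n 0 z (n 0 z (n 0 z (n 34
 z (n 6496275 z (n 0 z z))))))))))))))) (n 243 (n 0 z (n 6496523 z (n 0 z (n 6636323 z (n 0 z (n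
 0 z (n 0 z (n 0 z (n 0 z (n 0 z (n 42 z (n 0 z (n 0 z (n 50 z (n 58 z (n 0 z (n 0 z (n 0 z (n 0
 z (n 0 z (n 6496515 z (n 0 z (n 0 z z))))))))))))))))))))))) (n 121 (n 0 z (n 6636323 z (n 0 z
 (n 66 z (n 74 z (n 82 z (n 90 z z))))))) (n 0 (n 0 z (n 98 z (n 106 z (n 0 z (n 6636323 z (n
 114 z (n 0 z (n 0 z (n 0 z z))))))))) z)))))) (n 153 (n 0 (n 983 (n 0 z (n 0 z (n 0 z (n 0 z (n
 0 z z))))) (n 983 (n 0 z (n 0 z (n 0 z (n 0 z (n 0 z z))))) (n 369 (n 0 z (n 0 z (n 0 z (n 0 z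
 (n 0 z (n 0 z (n 0 z (n 0 z (n 0 z (n 0 z (n 0 z (n 0 z (n 0 z (n 0 z (n 0 z (n 0 z (n 0 z (n 0
 z (n 0 z (n 0 z (n 0 z (n 0 z (n 0 z (n 0 z (n 0 z (n 0 z (n 0 z (n 0 z (n 0 z (n 0 z (n 0 z (n
 0 z z)))))))))))))))))))))))))))))))) (n 369 (n 0 z (n 0 z (n 0 z (n 0 z (n 0 z (n 0 z (n 0 z
 (n 0 z (n 0 z (n 0 z (n 0 z (n 0 z (n 0 z (n 0 z (n 0 z (n 0 z (n 0 z (n 0 z (n 0 z (n 0 z (n 0
 z (n 0 z (n 0 z (n 0 z (n 0 z (n 0 z (n 0 z (n 0 z (n 0 z (n 0 z (n 0 z (n 0 z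
 z)))))))))))))))))))))))))))))))) (n 561 (n 2 (n 0 z (n 0 z (n 1 z (n 2 (n 0 z (n 0 z (n 0 z (n
 0 z (n 0 z (n 0 z z)))))) (n 2 (n 0 z (n 0 z (n 0 z (n 0 z (n 0 z (n 0 z z)))))) (n 1 z (n 1 z
 (n 2 (n 0 z (n 0 z (n 0 z (n 0 z (n 0 z (n 0 z z)))))) (n 1 z z))))))))) (n 0 z (n 0 z (n 0 z
 (n 0 z (n 0 z (n 0 z (n 0 z (n 0 z (n 0 z z)))))))))) (n 561 (n 0 z (n 2 (n 0 z (n 2 (n 0 z (n
 0 z (n 0 z (n 0 z (n 0 z (n 0 z z)))))) (n 2 (n 0 z (n 0 (n 1236 z z) (n 0 (n 1236 z (n 1236 z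
 z)) (n 0 z (n 0 (n 1236 z z) (n 0 z z)))))) (n 2 (n 0 z (n 0 (n 8872787 z z) (n 0 (n 8872787 z
 (n 8872787 z z)) (n 0 z (n 0 z (n 0 (n 8872787 z z) z)))))) (n 1 z (n 1 z (n 2 (n 0 z (n 0 z (n
 0 (n 1220 z (n 1220 z z)) (n 0 z (n 0 (n 7751723 z z) (n 0 (n 8728931 z z) z)))))) (n 2 (n 0 z
 (n 0 z (n 0 (n 8734571 z z) (n 0 z (n 0 z (n 0 z z)))))) z)))))))) (n 0 z (n 0 z (n 0 z (n 0 z
 (n 0 z (n 0 z (n 0 z (n 0 z z)))))))))) (n 561 (n 0 z (n 0 z (n 0 z (n 0 z (n 0 z (n 0 z (n 0 z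
 (n 0 z (n 0 z (n 0 z z)))))))))) (n 309 (n 0 z (n 0 z (n 0 z (n 0 z (n 0 z (n 0 z (n 0 z (n 0 z
 z)))))))) (n 309 (n 0 z (n 0 z (n 0 z (n 0 z (n 0 z (n 0 z (n 0 z (n 0 z z)))))))) (n 309 (n 0
 z (n 0 z (n 2 (n 0 z (n 2 (n 0 z (n 0 z (n 0 z (n 0 z (n 0 z (n 0 z z)))))) (n 2 (n 0 z (n 0 z
 (n 0 z (n 0 z (n 0 z (n 0 z z)))))) (n 2 (n 0 z (n 0 z (n 0 z (n 0 z (n 0 z (n 0 z z))))))
 z)))) (n 0 z (n 0 z (n 0 z (n 0 z (n 0 z z)))))))) (n 309 (n 0 z (n 0 z (n 0 z (n 0 z (n 0 z (n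
 0 z (n 0 z (n 0 z z)))))))) (n 305 (n 0 z (n 0 z (n 0 z (n 0 z (n 0 z (n 0 z z)))))) (n 305 (n
 0 z (n 0 z (n 2 (n 0 z z) (n 0 z (n 0 z (n 0 z z)))))) (n 305 (n 0 z (n 0 z (n 0 z (n 0 z (n 0
 z (n 0 z z)))))) z)))))))))))))) (n 0 (n 0 z (n 391 (n 0 z (n 2 (n 0 z (n 2 (n 0 z (n 0 (n
 7755787 z z) (n 0 (n 4044 z (n 4044 z z)) (n 0 z (n 0 (n 4044 z z) (n 0 z z)))))) (n 2 (n 0 z
 (n 0 z (n 0 z (n 0 (n 4327531 z (n 7755835 z z)) (n 0 (n 4327531 z (n 4327531 z z)) (n 0 (n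
 4327531 z (n 4327531 z z)) z)))))) (n 2 (n 0 z (n 0 z (n 0 z (n 0 z (n 0 z (n 0 z z)))))) (n 2
 (n 0 z (n 0 z (n 0 z (n 0 z (n 0 z (n 0 z z)))))) (n 2 (n 0 (n 252 z (n 7546987 z z)) (n 0 (n
 7755787 z (n 7546987 z z)) (n 0 (n 252 z (n 252 z z)) (n 0 z (n 0 z (n 0 (n 7735387 z (n 252 z
 z)) z)))))) (n 2 (n 0 (n 3278955 z (n 7735371 z z)) (n 0 (n 3278955 z (n 3278955 z z)) (n 0 z
 (n 0 (n 3278955 z (n 3278955 z z)) (n 0 (n 3278955 z (n 3278955 z z)) (n 0 z z)))))) (n 2 (n 0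
 z (n 0 z (n 0 z (n 0 z (n 0 z (n 0 z z)))))) (n 2 (n 0 z (n 0 z (n 0 z (n 0 z (n 0 z (n 0 z
 z)))))) (n 2 (n 0 z (n 0 z (n 0 (n 260 z (n 260 z z)) (n 0 (n 260 z (n 260 z z)) (n 0 (n 260 z
 (n 260 z z)) (n 0 (n 260 z (n 260 z z)) z)))))) (n 2 (n 0 z (n 0 z (n 0 z (n 0 z (n 0 z (n 0 z
 z)))))) z))))))))))) (n 0 z (n 0 z (n 0 z (n 0 z (n 0 z z))))))) (n 391 (n 0 z (n 0 z (n 0 z (n
 0 z (n 0 z (n 0 z (n 2 (n 1 z (n 1 z (n 1 z (n 1 z (n 2 (n 0 z (n 0 (n 252 z z) (n 0 (n 252 z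
 (n 252 z z)) (n 0 (n 252 z z) (n 0 z (n 0 z z)))))) (n 2 (n 0 z (n 0 z (n 0 z (n 0 z (n 0 z (n
 0 z z)))))) (n 1 z (n 1 z (n 2 (n 0 z (n 0 z (n 0 (n 8734571 z (n 260 z z)) (n 0 z (n 0 (n 260
 z z) (n 0 z z)))))) (n 2 (n 0 z (n 0 z (n 0 (n 8734571 z z) (n 0 z (n 0 z (n 0 z z))))))
 z)))))))))) z))))))) (n 1011 (n 0 z (n 0 z (n 0 z (n 0 z (n 2 (n 0 z (n 0 z (n 2 (n 0 z (n 0 z
 (n 0 z (n 0 z (n 0 z (n 0 z z)))))) (n 2 (n 0 z (n 0 z (n 0 z (n 0 z (n 0 z (n 0 z z)))))) (n 2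
 (n 0 (n 3278955 z z) (n 0 (n 3278955 z z) (n 0 (n 3278955 z (n 8804107 z z)) (n 0 z (n 0 z (n 0
 z z)))))) (n 2 (n 0 z (n 0 z (n 0 z (n 0 z (n 0 z (n 0 z z)))))) (n 2 (n 0 z (n 0 z (n 0 z (n 0
 z (n 0 z (n 0 z z)))))) (n 2 (n 0 z (n 0 z (n 0 (n 260 z (n 260 z z)) (n 0 z (n 0 z (n 0 (n 260
 z z) z)))))) (n 2 (n 0 z (n 0 z (n 0 z (n 0 z (n 0 z (n 0 z z)))))) z))))))))) (n 0 z (n 0 z
 z))))))) (n 1011 (n 0 z (n 0 z (n 0 z (n 0 z (n 0 z (n 0 z (n 0 z z))))))) (n 1011 (n 0 z (n 0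
 z (n 0 z (n 0 z (n 0 z (n 0 z (n 2 (n 2 (n 0 z (n 0 z (n 0 (n 8865051 z z) (n 0 z (n 0 z (n 0 z
 z)))))) (n 2 (n 0 z (n 0 (n 252 z z) (n 0 (n 252 z (n 252 z z)) (n 0 (n 252 z z) (n 0 z (n 0 z
 z)))))) (n 2 (n 0 z (n 0 (n 8872787 z z) (n 0 (n 8872787 z (n 8872787 z z)) (n 0 (n 8872787 z
 z) (n 0 z (n 0 z z)))))) (n 2 (n 0 z (n 0 z (n 0 (n 8872787 z z) (n 0 z (n 0 z (n 0 z z))))))
 (n 1 z (n 2 (n 0 z (n 0 z (n 0 (n 7751723 z (n 260 z z)) (n 0 z (n 0 (n 260 z z) (n 0 (n 260 z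
 z) z)))))) (n 2 (n 0 z (n 0 z (n 0 z (n 0 z (n 0 z (n 0 z z)))))) z))))))) z))))))) (n 63 (n 0
 z (n 0 z (n 0 z (n 0 z (n 0 z (n 0 z z)))))) (n 63 (n 0 z (n 0 z (n 0 z (n 0 z (n 0 z (n 0 z
 z)))))) (n 63 (n 0 z (n 0 z (n 0 z (n 0 z (n 0 z (n 0 z z)))))) (n 63 (n 0 z (n 0 z (n 0 z (n 0
 z (n 0 z (n 2 (n 2 (n 0 z (n 0 z (n 0 (n 8848155 z z) (n 0 z (n 0 z (n 0 z z)))))) (n 2 (n 0 (n
 260 z z) (n 0 (n 260 z z) (n 0 (n 260 z (n 260 z z)) (n 0 z (n 0 z (n 0 z z)))))) (n 2 (n 0 z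
 (n 0 z (n 0 z (n 0 z (n 0 z (n 0 z z)))))) z))) z)))))) (n 65 (n 2 (n 0 z (n 0 z z)) (n 0 z (n
 0 z (n 0 z (n 0 z (n 0 z (n 0 z z))))))) (n 65 (n 0 z (n 0 z (n 0 z (n 0 z (n 0 z (n 0 z (n 0 z
 z))))))) (n 65 (n 0 z (n 0 z (n 2 z (n 0 z (n 0 z (n 0 z (n 0 z z))))))) z))))))))))))) (n 0 (n
 1019 (n 0 z (n 0 z (n 0 z (n 0 z (n 0 z (n 0 z (n 0 z (n 0 z (n 0 z (n 0 z (n 0 z (n 0 z (n 0 z
 z))))))))))))) (n 1019 (n 0 z (n 0 z (n 0 z (n 0 z (n 0 z (n 0 z (n 0 z (n 0 z (n 0 z (n 0 z (n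
 0 z (n 0 z (n 0 z z))))))))))))) (n 513 (n 0 z (n 0 z (n 0 z (n 0 z (n 0 z (n 0 z (n 0 z (n 0 z
 (n 0 z (n 0 z (n 0 z z))))))))))) (n 513 (n 2 (n 0 z (n 2 (n 0 z (n 0 z (n 0 z (n 0 z (n 0 z (n
 0 z z)))))) (n 2 (n 0 z (n 0 (n 252 z z) (n 0 (n 252 z (n 252 z z)) (n 0 z (n 0 (n 252 z z) (n
 0 z z)))))) (n 2 (n 0 z (n 0 z (n 0 z (n 0 z (n 0 z (n 0 z z)))))) (n 2 (n 0 z (n 0 z (n 0 z (n
 0 z (n 0 z (n 0 z z)))))) (n 1 z (n 2 (n 0 z (n 0 z (n 0 (n 260 z (n 260 z z)) (n 0 (n 260 z z)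
 (n 0 (n 7751723 z z) (n 0 z z)))))) (n 2 (n 0 z (n 0 z (n 0 z (n 0 z (n 0 z (n 0 z z))))))
 z)))))))) (n 0 z (n 0 z (n 0 z (n 0 z (n 0 z (n 0 z (n 0 z (n 0 z (n 0 z (n 0 z z))))))))))) (n
 513 (n 0 z (n 0 z (n 0 z (n 0 z (n 0 z (n 0 z (n 0 z (n 0 z (n 0 z (n 0 z (n 0 z z)))))))))))
 (n 63 (n 0 z (n 0 z (n 0 z (n 0 z (n 0 z (n 0 z z)))))) (n 63 (n 0 z (n 0 z (n 0 z (n 0 z (n 0
 z (n 0 z z)))))) (n 63 (n 0 z (n 0 z (n 0 z (n 0 z (n 0 z (n 2 (n 0 z (n 2 (n 0 z (n 0 z (n 0 z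
 (n 0 z (n 0 z (n 0 z z)))))) (n 2 (n 0 (n 6359163 z z) (n 0 (n 5 z z) (n 0 (n 260 z (n 8783691
 z z)) (n 0 z (n 0 z (n 0 z z)))))) (n 2 (n 0 z (n 0 z (n 0 z (n 0 z (n 0 z (n 0 z z)))))) z))))
 z)))))) (n 63 (n 0 z (n 0 z (n 0 z (n 0 z (n 0 z (n 0 z z)))))) (n 65 (n 0 z (n 0 z (n 0 z (n 0
 z (n 0 z (n 0 z (n 0 z (n 0 z (n 0 z (n 0 z (n 0 z (n 0 z (n 0 z (n 0 z (n 0 z (n 0 z
 z)))))))))))))))) (n 65 (n 0 z (n 0 z (n 0 z (n 0 z (n 2 (n 0 z z) (n 0 z (n 0 z (n 0 z (n 0 z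
 (n 0 z (n 0 z (n 0 z (n 0 z (n 0 z (n 0 z (n 0 z z)))))))))))))))) (n 65 (n 0 z (n 0 z (n 0 z
 (n 0 z (n 0 z (n 0 z (n 0 z (n 0 z (n 0 z (n 0 z (n 0 z (n 0 z (n 0 z (n 0 z (n 0 z (n 0 z
 z)))))))))))))))) z)))))))))))) (n 0 (n 0 z (n 247 (n 0 z (n 0 z (n 0 z (n 0 z (n 0 z (n 0 z (n
 0 z (n 0 z (n 0 z (n 0 z (n 0 z (n 0 z (n 0 z z))))))))))))) (n 247 (n 0 z (n 0 z (n 0 z (n 0 z
 (n 0 z (n 0 z (n 0 z (n 0 z (n 0 z (n 2 (n 0 z (n 2 (n 0 z (n 0 z (n 0 z (n 0 z (n 0 z (n 0 z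
 z)))))) (n 2 (n 0 z (n 0 z (n 0 z (n 0 z (n 0 z (n 0 z z)))))) (n 2 (n 0 (n 2164859 z (n
 2164859 z z)) (n 0 (n 2164859 z (n 2164859 z z)) (n 0 z (n 0 (n 2164859 z (n 2164859 z z)) (n 0
 z (n 0 (n 2164859 z (n 2164859 z z)) z)))))) (n 2 (n 0 z (n 0 z (n 0 z (n 0 z (n 0 z (n 0 z
 z)))))) (n 2 (n 0 z (n 0 (n 1012 z z) (n 0 (n 1012 z (n 1012 z z)) (n 0 z (n 0 (n 1012 z z) (n
 0 z z)))))) (n 2 (n 0 z (n 0 z (n 0 (n 1012 z (n 1012 z z)) (n 0 (n 1012 z (n 1012 z z)) (n 0 z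
 (n 0 (n 6359163 z (n 6359163 z z)) z)))))) (n 2 (n 0 (n 8791099 z z) (n 0 z (n 0 (n 8791099 z
 (n 8791099 z z)) (n 0 z (n 0 (n 8791099 z z) (n 0 z z)))))) z)))))))) (n 0 z (n 0 z (n 0 z
 z))))))))))))) (n 247 (n 0 z (n 0 z (n 0 z (n 0 z (n 0 z (n 0 z (n 0 z (n 0 z (n 0 z (n 0 z (n
 0 z (n 0 z (n 0 z z))))))))))))) (n 255 (n 0 z (n 0 z (n 0 z (n 2 (n 0 z (n 0 z (n 0 z (n 2 (n
 0 z (n 0 z (n 0 z (n 0 z (n 0 z (n 0 z z)))))) (n 2 (n 0 z (n 0 z (n 0 z (n 0 z (n 0 z (n 0 z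
 z)))))) (n 2 (n 0 z (n 0 z (n 0 z (n 0 z (n 0 z (n 0 z z)))))) z)))))) (n 0 z (n 0 z (n 0 z (n
 0 z (n 0 z (n 0 z z)))))))))) (n 255 (n 0 z (n 0 z (n 0 z (n 0 z (n 0 z (n 2 (n 0 z (n 0 z (n 2
 (n 0 z (n 0 z (n 0 z (n 0 z (n 0 z (n 0 z z)))))) (n 1 z (n 2 (n 0 z (n 0 z (n 0 (n 8791099 z
 (n 8791099 z z)) (n 0 z (n 0 z (n 0 (n 8791099 z z) z)))))) z))))) (n 0 z (n 0 z (n 0 z (n 0 z
 z)))))))))) (n 255 (n 0 z (n 0 z (n 0 z (n 0 z (n 0 z (n 0 z (n 0 z (n 0 z (n 0 z (n 2 (n 0 z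
 (n 2 (n 0 z (n 0 z (n 0 z (n 0 z (n 0 z (n 0 z z)))))) (n 2 (n 0 (n 1012 z (n 1012 z z)) (n 0 z
 (n 0 (n 1012 z (n 1012 z z)) (n 0 z (n 0 (n 1012 z (n 1012 z z)) (n 0 (n 6359163 z (n 6359163 z
 z)) z)))))) (n 2 (n 0 z (n 0 z (n 0 z (n 0 z (n 0 z (n 0 z z)))))) z)))) z)))))))))) (n 255 (n
 0 z (n 0 z (n 0 z (n 0 z (n 0 z (n 0 z (n 0 z (n 0 z (n 0 z (n 0 z z)))))))))) (n 253 (n 0 z (n
 0 z (n 0 z (n 0 z (n 0 z (n 0 z (n 0 z (n 0 z (n 0 z (n 0 z (n 0 z (n 0 z (n 0 z (n 0 z (n 0 z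
 (n 0 z (n 0 z (n 0 z (n 0 z (n 0 z (n 0 z (n 0 z z)))))))))))))))))))))) (n 253 (n 0 z (n 0 z
 (n 0 z (n 0 z (n
 0xec8ec82037e182182182181f7e185e86181e82282179f81e8a08a281f86082181f8607df86081f81f8200801 z (n
 0 z (n 0 z (n 0 z (n 0 z (n 0 z (n 0 z (n 0 z (n 0 z (n 0 z (n 0 z (n 0 z (n 0 z (n 0 z (n 0 z
 (n 0 z (n 0 z (n 0 z z)))))))))))))))))))))) (n 253 (n 0 z (n 0 z (n 0 z (n 0 z (n 0 z (n 0 z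
 (n 0 z (n 0 z (n 0 z (n 0 z (n 0 z (n 0 z (n 0 z (n 0 z (n 0 z (n 0 z (n 0 z (n 0 z (n 0 z (n 0
 z (n 0 z (n 0 z z)))))))))))))))))))))) z))))))))))) (n 0 (n 1059 (n 0 z (n 0 z (n 0 z (n 0 z
 (n 2 (n 0 z (n 0 z (n 1 z (n 2 (n 0 z (n 0 z (n 0 z (n 0 z (n 0 z (n 0 z z)))))) (n 2 (n 0 z (n
 0 z (n 0 z (n 0 z (n 0 z (n 0 z z)))))) (n 1 z (n 1 z (n 2 (n 0 z (n 0 z (n 0 z (n 0 z (n 0 z
 (n 0 z z)))))) (n 1 z z))))))))) (n 0 z (n 0 z z))))))) (n 1059 (n 0 z (n 0 z (n 0 z (n 0 z (n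
 0 z (n 0 z (n 2 (n 0 z (n 2 (n 0 z (n 0 z (n 0 (n 8799515 z z) (n 0 z (n 0 z (n 0 z z)))))) (n
 2 (n 0 z (n 0 z (n 0 z (n 0 z (n 0 z (n 0 z z)))))) (n 2 (n 0 z (n 0 (n 8872787 z z) (n 0 (n
 8872787 z (n 8872787 z z)) (n 0 z (n 0 z (n 0 (n 8872787 z z) z)))))) (n 1 z (n 1 z (n 2 (n 0 z
 (n 0 z (n 0 (n 68 z (n 68 z z)) (n 0 (n 68 z z) (n 0 z (n 0 (n 8728931 z z) z)))))) (n 2 (n 0 z
 (n 0 z (n 0 z (n 0 z (n 0 z (n 0 z z)))))) z)))))))) z))))))) (n 1059 (n 0 z (n 0 z (n 0 z (n 0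
 z (n 0 z (n 0 z (n 0 z z))))))) (n 261 (n 0 z (n 0 z (n 0 z (n 0 z (n 0 z (n 0 z (n 0 z (n 0 z
 (n 0 z (n 0 z (n 0 z (n 0 z (n 0 z (n 0 z (n 0 z (n 0 z (n 0 z (n 0 z (n 0 z (n 0 z (n 0 z (n 0
 z (n 0 z (n 0 z (n 0 z (n 0 z (n 0 z (n 0 z (n 0 z (n 0 z (n 0 z (n 0 z (n 0 z (n 0 z (n 0 z (n
 0 z z)))))))))))))))))))))))))))))))))))) (n 261 (n 0 z (n 0 z (n 0 z (n 0 z (n 0 z (n 0 z (n 0
 z (n 0 z (n 0 z (n 0 z (n 0 z (n 0 z (n 0 z (n 0 z (n 0 z (n 0 z (n 0 z (n 0 z (n 0 z (n 0 z (n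
 0 z (n 0 z (n 0 z (n 0 z (n 0 z (n 0 z (n 0 z (n 0 z (n 0 z (n 0 z (n 0 z (n 0 z (n 0 z (n 0 z
 (n 0 z (n 0 z z)))))))))))))))))))))))))))))))))))) (n 261 (n 0 z (n 0 z (n 2 (n 0 z (n 2 (n 0
 z (n 0 z (n 0 (n 8782619 z z) (n 0 z (n 0 z (n 0 z z)))))) (n 2 (n 0 (n 6359163 z z) (n 0 (n 5
 z z) (n 0 (n 68 z (n 8783691 z z)) (n 0 z (n 0 z (n 0 z z)))))) (n 2 (n 0 z (n 0 z (n 0 z (n 0
 z (n 0 z (n 0 z z)))))) z)))) (n 0 z (n 0 z (n 0 z (n 0 z (n 0 z (n 0 z (n 0 z (n 0 z (n 0 z (n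
 0 z (n 0 z (n 0 z (n 0 z (n 0 z (n 0 z (n 0 z (n 0 z (n 0 z (n 0 z (n 0 z (n 0 z (n 0 z (n 0 z
 (n 0 z (n 0 z (n 0 z (n 0 z (n 0 z (n 0 z (n 0 z (n 0 z (n 0 z (n 0 z
 z)))))))))))))))))))))))))))))))))))) (n 261 (n 0 z (n 0 z (n 0 z (n 0 z (n 0 z (n 0 z (n 0 z
 (n 0 z (n 0 z (n 0 z (n 0 z (n 0 z (n 0 z (n 0 z (n 0 z (n 0 z (n 0 z (n 0 z (n 0 z (n 0 z (n 0
 z (n 0 z (n 0 z (n 0 z (n 0 z (n 0 z (n 0 z (n 0 z (n 0 z (n 0 z (n 0 z (n 0 z (n 0 z (n 0 z (n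
 0 z (n 0 z z)))))))))))))))))))))))))))))))))))) (n 17 (n 0 z (n 0 z (n 0 z (n 0 z (n 0 z (n 0
 z (n 0 z (n 0 z (n 0 z (n 0 z (n 0 z z))))))))))) (n 17 (n 0 z (n 2 (n 0 z z) (n 0 z (n 0 z (n
 0 z (n 0 z (n 0 z (n 0 z (n 0 z (n 0 z (n 0 z z))))))))))) (n 17 (n 0 z (n 0 z (n 0 z (n 2 z (n
 0 z (n 0 z (n 0 z (n 0 z (n 0 z (n 0 z (n 0 z z))))))))))) z)))))))))) (n 0 (n 0 z (n 0 z (n
 537 (n 0 z (n 0 z (n 0 z (n 0 z (n 0 z (n 0 z (n 0 z (n 0 z (n 0 z (n 0 z (n 0 z (n 0 z (n 0 z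
 (n 0 z (n 0 z (n 0 z z)))))))))))))))) (n 537 (n 0 z (n 0 z (n 0 z (n 0 z (n 0 z (n 0 z (n 0 z
 (n 0 z (n 0 z (n 0 z (n 0 z (n 0 z (n 0 z (n 0 z (n 0 z (n 0 z z)))))))))))))))) (n 537 (n 0 z
 (n 0 z (n 0 z (n 0 z (n 0 z (n 0 z (n 0 z (n 0 z (n 0 z (n 0 z (n 0 z (n 0 z (n 0 z (n 0 z (n 0
 z (n 0 z z)))))))))))))))) (n 537 (n 0 z (n 0 z (n 0 z (n 0 z (n 0 z (n 0 z (n 0 z (n 0 z (n 0
 z (n 0 z (n 0 z (n 0 z (n 0 z (n 0 z (n 0 z (n 0 z z)))))))))))))))) (n 485 (n 0 z (n 0 z (n 0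
 z (n 0 z (n 0 z (n 0 z (n 0 z (n 0 z (n 0 z (n 0 z (n 0 z (n 0 z z)))))))))))) (n 485 (n 0 z (n
 0 z (n 0 z (n 0 z (n 2 (n 0 z z) (n 0 z (n 0 z (n 0 z (n 0 z (n 0 z (n 0 z (n 0 z z))))))))))))
 (n 485 (n 0 z (n 0 z (n 0 z (n 0 z (n 0 z (n 0 z (n 0 z (n 0 z (n 0 z (n 0 z (n 0 z (n 2 z
 z)))))))))))) z))))))))) (n 0 (n 0 z (n 51 (n 0 z (n 0 z (n 0 z (n 0 z (n 0 z (n 0 z (n 0 z (n
 0 z z)))))))) (n 51 (n 0 z (n 0 z (n 0 z (n 0 z (n 0 z (n 0 z (n 0 z (n 0 z z)))))))) (n 51 (n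
 0 z (n 0 z (n 0 z (n 0 z (n 0 z (n 0 z (n 0 z (n 0 z z)))))))) (n 51 (n 0 z (n 0 z (n 0 z (n 0
 z (n 0 z (n 0 z (n 2 (n 2 (n 0 z (n 0 z (n 0 z (n 0 z (n 0 z (n 0 z z)))))) (n 2 (n 0 z (n 0 z
 (n 0 z (n 0 z (n 0 z (n 0 z z)))))) (n 2 (n 0 z (n 0 z (n 0 z (n 0 z (n 0 z (n 0 z z)))))) z)))
 (n 0 z z)))))))) (n 53 (n 2 (n 0 z (n 0 z z)) (n 0 z (n 0 z (n 0 z (n 0 z (n 0 z (n 0 z (n 0 z
 (n 0 z (n 0 z (n 0 z z))))))))))) (n 53 (n 0 z (n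
 0xeec8ec820381d7e082182079c86282082379d7e08207df82071f82479b79e7a38637618de82376685b8620801 z
 (n 0 z (n 0 z (n 0 z (n 0 z (n 0 z (n 0 z (n 0 z (n 0 z (n 0 z z))))))))))) (n 53 (n 0 z (n 0 z
 (n 0 z (n 0 z (n 2 z (n 0 z (n 0 z (n 0 z (n 0 z (n 0 z (n 0 z z))))))))))) z)))))))) (n 0 (n
 537 (n 0 z (n 0 z (n 0 z (n 0 z (n 0 z (n 0 z (n 0 z z))))))) (n 537 (n 0 z (n 0 z (n 0 z (n 0
 z (n 0 z (n 0 z (n 0 z z))))))) (n 537 (n 0 z (n 2 (n 0 z (n 2 (n 0 z (n 0 z (n 0 z (n 0 z (n 0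
 z (n 0 z z)))))) (n 2 (n 0 (n 6359163 z z) (n 0 (n 5 z z) (n 0 (n 212 z (n 8783691 z z)) (n 0 z
 (n 0 z (n 0 z z)))))) (n 2 (n 0 z (n 0 z (n 0 z (n 0 z (n 0 z (n 0 z z)))))) z)))) (n 0 z (n 0
 z (n 0 z (n 0 z (n 0 z z))))))) (n 537 (n 0 z (n 0 z (n 0 z (n 0 z (n 0 z (n 0 z (n 0 z
 z))))))) (n 53 (n 0 z (n 0 z (n 0 z (n 0 z (n 0 z (n 0 z (n 0 z (n 0 z (n 0 z (n 0 z (n 0 z (n
 0 z z)))))))))))) (n 53 (n 0 z (n 0 z (n 2 (n 0 z z) (n 0 z (n 0 z (n 0 z (n 0 z (n 0 z (n 0 z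
 (n 0 z (n 0 z (n 0 z z)))))))))))) (n 53 (n 0 z (n 0 z (n 0 z (n 0 z (n 0 z (n 2 z (n 0 z (n 0
 z (n 0 z (n 0 z (n 0 z (n 0 z z)))))))))))) z))))))) (n 0 (n 0 z (n 0 z (n 0 z (n 241 (n 0 z (n
 0 z (n 0 z (n 0 z (n 0 z (n 0 z (n 0 z (n 0 z (n 0 z (n 0 z z)))))))))) (n 241 (n 0 z (n 0 z (n
 0 z (n 0 z (n 0 z (n 0 z (n 0 z (n 0 z (n 0 z (n 0 z z)))))))))) (n 241 (n 0 z (n 0 z (n 0 z (n
 0 z (n 0 z (n 0 z (n 0 z (n 0 z (n 0 z (n 0 z z)))))))))) z)))))) (n 0 (n 0 z (n 0 z (n 241 (n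
 0 z (n 0 z (n 0 z (n 0 z (n 0 z (n 0 z (n 0 z (n 0 z (n 0 z z))))))))) (n 241 (n 0 z (n 0 z (n
 0 z (n 0 z (n 0 z (n 0 z (n 0 z (n 0 z (n 0 z z))))))))) (n 241 (n 0 z (n 0 z (n 0 z (n 0 z (n
 0 z (n 0 z (n 0 z (n 0 z (n 0 z z))))))))) z))))) (n 0 (n 0 z (n 1 (n 2 (n 0 z (n 0 z z)) (n 0
 z (n 0 z (n 0 z (n 0 z (n 0 z (n 0 z (n 0 z (n 0 z z))))))))) (n 1 (n 0 z (n 0 z (n 0 z (n 0 z
 (n 0 z (n 0 z (n 0 z (n 0 z (n 0 z z))))))))) (n 1 (n 0 z (n 0 z (n 2 z (n 0 z (n 0 z (n 0 z (n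
 0 z (n 0 z (n 0 z z))))))))) z)))) (n 0 (n 1 (n 0 z (n 0 z (n 0 z (n 0 z (n 0 z (n 0 z (n 0 z
 (n 0 z (n 0 z (n 0 z z)))))))))) (n 1 (n 0 z (n 0 z (n 0 z (n 2 (n 0 z z) (n 0 z (n 0 z (n 0 z
 (n 0 z (n 0 z (n 0 z z)))))))))) (n 1 (n 0 z (n 0 z (n 0 z (n 0 z (n 0 z (n 0 z (n 0 z (n 0 z
 (n 0 z (n 0 z z)))))))))) z))) (n 0 (n 0 z (n 0 z z)) (n 0 (n 0 z z) (n 0 z z))))))))))))))) (n
 0 (n 0 z (n 1 (n 6496515 z (n 6496275 z (n 6496275 z (n 6496275 z (n 6496275 z (n 6496275 z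
 z)))))) (n 1 (n 6496515 z (n 268 z (n 268 z (n 2 z (n 6558219 z (n 5443683 z z)))))) z))) (n 0
 (n 0x413955384754388753 (n 0 (n 0 (n 7734043 z (n 7734043 z (n 7734043 z (n 7734043 z (n
 7734043 z (n 7680355 z z)))))) z) (n 0 (n 153 (n 0 z (n 1 (n 7544851 z (n 7544851 z (n 7544851
 z (n 7544851 z (n 7544851 z (n 7544851 z z)))))) (n 1 (n 7734043 z (n 7734043 z (n 7734043 z (n
 7734043 z (n 7734043 z (n 7680355 z z)))))) z))) (n 33 (n 1 (n 7545091 z (n 7545091 z (n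
 7545091 z (n 7545091 z (n 7545091 z (n 7545091 z z)))))) (n 0 z (n 1 (n 4124 z (n 4124 z (n
 4124 z (n 4124 z (n 4124 z (n 7680355 z z)))))) (n 1 (n 7742779 z (n 7742779 z (n 7742779 z (n
 7742779 z (n 7742779 z (n 7680355 z z)))))) z)))) (n 529 (n 1 (n 7545099 z (n 4395123 z (n
 7545099 z (n 7545099 z (n 7545099 z (n 7545099 z z)))))) (n 1 (n 7680355 z (n 7680355 z (n
 7680355 z (n 7680355 z (n 7680355 z (n 7680355 z z)))))) (n 1 (n 7545091 z (n 7545091 z (n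
 7545091 z (n 7545091 z (n 7545091 z (n 7545091 z z)))))) (n 1 (n 1484 z (n 7742779 z (n 1484 z
 (n 1484 z (n 7734043 z (n 1484 z z)))))) (n 1 (n 1484 z (n 1484 z (n 1484 z (n 1484 z (n
 7742779 z (n 7734043 z z)))))) (n 1 (n 7545091 z (n 7545091 z (n 7545091 z (n 7545091 z (n
 7545091 z (n 7545091 z z)))))) (n 1 (n 1484 z (n 1484 z (n 1484 z (n 1484 z (n 7734043 z (n
 7742779 z z)))))) z))))))) (n 553 (n 1 (n 7545099 z (n 7684899 z (n 7545099 z (n 7545099 z (n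
 7545099 z (n 7545099 z z)))))) (n 1 (n 7680355 z (n 7684899 z (n 7680355 z (n 7680355 z (n
 7680355 z (n 7680355 z z)))))) (n 1 (n 7545091 z (n 7545091 z (n 7545091 z (n 7545091 z (n
 7545091 z (n 7545091 z z)))))) (n 1 (n 2252 z (n 7684899 z (n 7606795 z (n 2252 z (n 2252 z (n
 2252 z z)))))) (n 1 (n 2252 z (n 7684899 z (n 2252 z (n 2060 z (n 7606795 z (n 2252 z z))))))
 (n 1 (n 7545091 z (n 7545091 z (n 7545091 z (n 7545091 z (n 7545091 z (n 7545091 z z)))))) (n 1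
 (n 2252 z (n 7684899 z (n 2 z (n 2252 z (n 5515115 z (n 2252 z z)))))) z))))))) (n 33 (n 0 z (n
 0 z (n 1 (n 7544851 z (n 7684899 z (n 7684899 z (n 7684899 z (n 7684899 z (n 7684899 z z))))))
 (n 0 z (n 1 (n 7545091 z (n 7545091 z (n 7545091 z (n 7545091 z (n 7545091 z (n 7545091 z
 z)))))) (n 1 (n 7544851 z (n 7545099 z (n 1244 z (n 7734043 z (n 10 z (n 7750939 z z))))))
 z)))))) (n 153 (n 0 z (n 0 z (n 1 (n 7545091 z (n 18 z (n 268 z (n 7606795 z (n 7545099 z (n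
 268 z z)))))) (n 1 (n 7545091 z (n 7544851 z (n 7544851 z (n 7544851 z (n 7544851 z (n 7544851
 z z)))))) (n 1 (n 7545091 z (n 7684899 z (n 7684899 z (n 7684899 z (n 7684899 z (n 7684899 z
 z)))))) (n 1 (n 7545091 z (n 7684899 z (n 7684899 z (n 7684899 z (n 7684899 z (n 7684899 z
 z)))))) z)))))) (n 153 (n 0 z (n 1 (n 7545091 z (n 7544851 z (n 7544851 z (n 7544851 z (n
 7544851 z (n 7544851 z z)))))) (n 1 (n 7545091 z (n 7734043 z (n 7734043 z (n 7734043 z (n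
 7606795 z (n 5443699 z z)))))) z))) z))))))) (n 0 (n 0 (n 0 z (n 0 z (n 0 z z))) (n 0 (n 0 z (n
 0 z z)) (n 0 (n 0 z z) z))) (n 0 (n 515 (n 0 (n 0 z (n 0 z (n 0 z z))) (n 0 (n 0 z (n 0 z (n 0
 z z))) (n 0 (n 0 z (n 0 z (n 0 (n 5449739 z z) z))) (n 0 (n 0 z (n 0 z (n 0 (n 8728931 z z)
 z))) (n 0 (n 0 z (n 0 z (n 0 (n
 0xecb0c46078208208208208208208228208208608208208208208208208208208208208208208207e08200801 z z)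
 z))) z))))) (n 185 (n 0 (n 0 z (n 0 z (n 0 z z))) (n 0 (n 0 z (n 0 (n 8791355 z (n 8791355 z
 z)) (n 0 z z))) (n 0 (n 0 z (n 0 (n
 0x186576530380ecaca46038608208208208208208218208208208208208208208208208208208208208208208208208201001
 z z) (n 0 z z))) (n 0 (n 0 z (n 0 z (n 0 z z))) (n 0 (n 0 z (n 0 z (n 0 (n 8782619 z (n 8782619
 z z)) z))) (n 0 (n 0 z (n 0 z (n 0 (n
 0x10cb0ca60302195944c0603b2c30180c08656531018200d0e636a82081f81f8208207e08208208208208207e08218208208218208208208208208208208208202801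
 z (n
 0x21ce1c580e0c32c32980c08767613038000d0e636a8208208208208207e08208207e07e08207e08208208208208208208208208208208208208202001
 z z)) z))) (n 0 (n 0 (n 8525131 z (n 8525131 z z)) (n 0 (n 8525131 z (n 8525131 z z)) (n 0 z
 z))) (n 0 (n 0 (n 8525131 z (n 8525131 z z)) (n 0 z (n 0 z z))) (n 0 (n 0 z (n 0 z (n 0 z z)))
 (n 0 (n 0 z (n 0 (n 8593427 z (n 8593427 z z)) (n 0 z z))) (n 0 (n 0 z (n 0 z (n 0 z z))) (n 0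
 (n 0 z (n 0 (n
 0x10eb0ea6037e179f8a089e8608607de86181e85e86186082189f8207e281f8208a082279f85f89d8607e10801 z
 (n 0x43ac3a980c0000021d6194c060000030caeca6071821 z z)) (n 0 (n 0x1d52188c06000000ecb0c26071021
 z (n 0x987485f82081f8218617e082086082082086181f82081f8207e081f8208608207df81f8608208210041 z
 z)) z))) (n 0 (n 0 z (n 0 (n 8593427 z z) (n 0 z z))) (n 0 (n 0 z (n 0 z (n 0 z z))) (n 0 (n 0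
 z (n 0 z (n 0 z z))) (n 0 (n 0 z (n 0 z (n 0 z z))) (n 0 (n 0 (n 8872787 z (n 8872787 z z)) (n
 0 (n 8872787 z (n 8872787 z z)) (n 0 z z))) (n 0 (n 0 (n 8872787 z z) (n 0 z (n 0 z z))) (n 0
 (n 0 (n 8872787 z (n 8872787 z z)) (n 0 z (n 0 (n 8855619 z (n 8855619 z z)) z))) (n 0 (n 0 z
 (n 0 z (n 0 z z))) (n 0 (n 0 z (n 0 z (n 0 z z))) (n 0 (n 0 z (n 0 z (n 0 z z))) (n 0 (n 0 (n
 7686187 z z) (n 0 z (n 0 z z))) (n 0 (n 0 z (n 0 z (n 0 z z))) (n 0 (n 0 z (n 0 z (n 0 z z)))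
 (n 0 (n 0 z (n 0 z (n 0 (n 8593427 z z) z))) (n 0 (n 0 z (n 0 z (n 0 z z))) (n 0 (n 0 z (n 0 z
 (n 0 (n
 0x2ecb0c460381f82082082082082082085f82082082082082082082082081f82082082182082082081f8200801 z
 (n 8798323 z z)) z))) (n 0 (n 0 z (n 0 z (n 0 z z))) (n 0 (n 0 z (n 0 z (n 0 z z))) (n 0 (n 0 z
 (n 0 z (n 0 (n 8593427 z (n 8593427 z z)) z))) (n 0 (n 0 z (n 0 z (n 0 z z)))
 z)))))))))))))))))))))))))))))))) (n 533 (n 0 (n 0 z (n 0 z (n 0 z z))) (n 0 (n 0 z (n 0 z (n 0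
 z z))) (n 0 (n 0 z (n 0 z (n 0 (n 8593667 z (n 8593667 z z)) z))) (n 0 (n 0 z (n 0 z (n 0 z
 z))) (n 0 (n 0 z (n 0 z (n 0 z z))) (n 0 (n 0 (n 8728931 z z) (n 0 z (n 0 z z))) (n 0 (n 0 z (n
 0 z (n 0 z z))) (n 0 (n 0 z (n 0 z (n 0 z z))) (n 0 (n 0 (n 8728931 z (n 8728931 z z)) (n 0 z
 (n 0 (n 8728931 z (n 8728931 z z)) z))) (n 0 (n 0 z (n 0 z (n 0 z z))) (n 0 (n 0 z (n 0 z (n 0
 (n 8728931 z z) z))) (n 0 (n 0 z (n 0 z (n 0 z z))) (n 0 (n 0 z (n 0 z (n 0 z z)))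
 z))))))))))))) (n 281 (n 0 (n 0 z (n 0 z (n 0 z z))) (n 0 (n 0 z (n 0 z (n 0 z z))) (n 0 (n 0 z
 (n 0 z (n 0 z z))) (n 0 (n 0 z (n 0 z (n 0 z z))) (n 0 (n 0 z (n 0 (n 8733475 z z) (n 0 z z)))
 (n 0 (n 0 z (n 0 z (n 0 z z))) (n 0 (n 0 z (n 0 z (n 0 z z))) (n 0 (n 0 z (n 0 z (n 0 z z))) (n
 0 (n 0 z (n 0 z (n 0 z z))) (n 0 (n 0 z (n 0 z (n 0 z z))) z)))))))))) (n 257 (n 0 (n 0 z (n 0
 z (n 0 z z))) (n 0 (n 0 z (n 0 z (n 0 z z))) (n 0 (n 0 z (n 0 (n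
 0x30caeca00382082082082082082082082082082082082081f8208208208208208208208208208208208200801 z
 (n
 0x30c6ec0a070218dd014060baa329181c0875875001810eb0ca0037e182181f86082182081e85f8208208208208218208218208208208208207df82081f81f8202801
 z z)) (n 0 (n
 0x763763203810cb0ca00381f8207e081f86185e7e086086081e82189f8227df7df7a281e7de8617617df7df89f7df8241001
 z (n 0x987485f82081f8218617e082086082082086181f82081f8207e081f8208608207df81f8608208210041 z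
 z)) z))) (n 0 (n 0 z (n 0 z (n 0 z z))) (n 0 (n 0 z (n 0 z (n 0 z z))) (n 0 (n 0 z (n 0 z (n 0
 (n 0x3064ea0c0781f8208208208208208218208208208208218208208208208208208208208208208208208210801
 z (n
 0x1832750603810ed0ec4038208208208208208207e08208208208208208208208208208208208208208208208208208201001
 z z)) z))) (n 0 (n 0 z (n 0 z (n 0 z z))) (n 0 (n 0 z (n 0 z (n 0 z z))) (n 0 (n 0 z (n 0 z (n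
 0 z z))) (n 0 (n 0 z (n 0 z (n 0 z z))) (n 0 (n 0 z (n 0 z (n 0 z z))) z))))))))))) (n 553 (n 0
 (n 0 z (n 0 z (n 0 z z))) (n 0 (n 0 z (n 0 z (n 0 z z))) (n 0 (n 0 z (n 0 z (n 0 z z))) (n 0 (n
 0 z (n 0 z (n 0 z z))) (n 0 (n 0 z (n 0 z (n 0 z z))) (n 0 (n 0 z (n 0 z (n 0 z z))) (n 0 (n 0
 z (n 0 z (n 0 z z))) z))))))) (n 155 (n 0 (n 0 z (n 0 z (n 0 z z))) (n 0 (n 0 z (n 0 z (n 0 (n
 8733475 z z) z))) (n 0 (n 0 z (n 0 z (n 0 z z))) (n 0 (n 0 z (n 0 (n 8733475 z z) (n 0 z z)))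
 (n 0 (n 0 z (n 0 (n 8733475 z z) (n 0 z z))) (n 0 (n 0 z (n 0 z (n 0 (n
 0x1765862301810ed0ec20382082086082082081f82082081f82082082082082082082082082082082086082085f8208201001
 z z) z))) (n 0 (n 0 z (n 0 z (n 0 z z))) (n 0 (n 0 z (n 0 z (n 0 z z))) z)))))))) (n 33 (n 0 (n
 0 z (n 0 z (n 0 z z))) (n 0 (n 0 z (n 0 z (n 0 (n 8728931 z z) z))) (n 0 (n 0 z (n 0 z (n 0 z
 z))) (n 0 (n 0 z (n 0 z (n 0 (n 8733475 z z) z))) (n 0 (n 0 z (n 0 z (n 0 z z))) (n 0 (n 0 z (n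
 0 z (n 0 (n
 0xecb0c46078208208208208208208228208208608208208208208208208208208208208208208207e08200801 z z)
 z))) z)))))) (n 131 (n 0 (n 0 z (n 0 z (n 0 z z))) (n 0 (n 0 z (n 0 z (n 0 z z))) (n 0 (n 0 z
 (n 0 z (n 0 z z))) (n 0 (n 0 z (n 0 z (n 0 z z))) (n 0 (n 0 z (n 0 z (n 0 z z))) (n 0 (n 0 z (n
 0 (n
 0x186576530380ecaca46038208208208208208208608208208608208208208208208208208208208208208207e08208201001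
 z z) (n 0 z z))) (n 0 (n 0 z (n 0 z (n 0 z z))) (n 0 (n 0 z (n 0 z (n 0 z z))) (n 0 (n 0 z (n 0
 (n 8593667 z (n 8593667 z z)) (n 0 z z))) (n 0 (n 0 z (n 0 (n 8593667 z z) (n 0 z z))) (n 0 (n
 0 z (n 0 (n 8593667 z z) (n 0 z z))) (n 0 (n 0 (n 8791355 z z) (n 0 z (n 0 z z))) (n 0 (n 0 z
 (n 0 z (n 0 z z))) (n 0 (n 0 z (n 0 (n 8593667 z z) (n 0 z z))) (n 0 (n 0 z (n 0 z (n 0 (n
 8593667 z z) z))) (n 0 (n 0 (n 8872787 z z) (n 0 z (n 0 z z))) (n 0 (n 0 z (n 0 (n 8593667 z (n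
 8593667 z z)) (n 0 z z))) (n 0 (n 0 (n
 0x21ce1854060bb1c30a81c0763860503810eb0ea20382081f8208208207df7e085f82082082082082082082082081f82082082182082085f8208202001
 z (n
 0x2ec70c2a0781f8208208208207e18217e07e186082082082081f81f8208208208208207e082085f8208200801 z
 z)) (n 0 (n
 0x987585f82081f8208617df8208a082086082182082081f82082081f8208607a07e081f8608208200041 z (n
 0x218dd8540603993b0a81c086376050182ecaea46037e08608207e182086081c86081f86082186082082082081e82081f8208208608208208207e12001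
 z z)) (n 0 z z))) (n 0 (n 0 z (n 0 z (n 0 (n 8593667 z (n 8593667 z z)) z))) (n 0 (n 0 (n
 0x21ce185406000002ec70c2a071021 z (n
 0x2ec70c2a0781f8208208208207e18217e07e186082082082081f8208208208208208207e082085f8208200801 z
 z)) (n 0 z (n 0 z z))) (n 0 (n 0 z (n 0 z (n 0 z z))) (n 0 (n 0 z (n 0 z (n 0 z z))) (n 0 (n 0
 z (n 0 (n 8593667 z (n 8593667 z z)) (n 0 (n 8593667 z (n 8593667 z z)) z))) (n 0 (n 0 z (n 0 z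
 (n 0 (n 8593667 z (n 8593667 z z)) z))) (n 0 (n 0 z (n 0 (n 8593667 z (n 8593667 z z)) (n 0 (n
 8593667 z (n 8593667 z z)) z))) (n 0 (n 0 z (n 0 (n 8593667 z z) (n 0 z z))) (n 0 (n 0 z (n 0
 (n 8593667 z z) (n 0 z z))) (n 0 (n 0 (n
 0x10cb0ca2037e17df86089e8608607de86181e81e86185f82089f8207e381e7e08617e179f85f89d8607e10801 z
 z) (n 0 z (n 0 z z))) (n 0 (n 0 z (n 0 (n 8593667 z (n 8593667 z z)) (n 0 (n 8593667 z (n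
 8593667 z z)) z))) (n 0 (n 0 (n 8593675 z (n 8593675 z z)) (n 0 (n 8593675 z (n 8593675 z z))
 (n 0 z z))) (n 0 (n 0 z (n 0 z (n 0 z z))) (n 0 (n 0 z (n 0 z (n 0 (n 8593675 z (n 8798323 z
 z)) z))) (n 0 (n 0 z (n 0 z (n 0 z z))) (n 0 (n 0 z (n 0 z (n 0 z z))) (n 0 (n 0 z (n 0 z (n 0
 z z))) (n 0 (n 0 z (n 0 z (n 0 (n 8593667 z (n 8593667 z z)) z)))
 z)))))))))))))))))))))))))))))))))))) (n 269 (n 0 (n 0 z (n 0 z (n 0 z z))) (n 0 (n 0 z (n 0 z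
 (n 0 z z))) (n 0 (n 0 z (n 0 z (n 0 z z))) (n 0 (n 0 z (n 0 z (n 0 z z))) (n 0 (n 0 z (n 0 z (n
 0 z z))) (n 0 (n 0 z (n 0 z (n 0 z z))) (n 0 (n 0 z (n 0 z (n 0 (n 8593667 z z) z))) z)))))))
 (n 153 (n 0 (n 0 z (n 0 z (n 0 z z))) (n 0 (n 0 z (n 0 z (n 0 z z))) (n 0 (n 0 z (n 0 z (n 0 z
 z))) (n 0 (n 0 z (n 0 z (n 0 z z))) (n 0 (n 0 z (n 0 z (n 0 z z))) (n 0 (n 0 z (n 0 z (n 0 z
 z))) z)))))) (n 33 (n 0 (n 0 z (n 0 z (n 0 z z))) (n 0 (n 0 z (n 0 z (n 0 z z))) (n 0 (n 0 z (n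
 0 z (n 0 z z))) (n 0 (n 0 z (n 0 (n 8593667 z (n 8593667 z z)) (n 0 z z))) (n 0 (n 0 z (n 0 (n
 0x10caec46078208208208208208208228208208608208208208208208208208208208208208208207e08200801 z
 z) (n 0 z z))) (n 0 (n 0 z (n 0 z (n 0 z z))) (n 0 (n 0 z (n 0 z (n 0 z z))) (n 0 (n 0 z (n 0 z
 (n 0 z z))) (n 0 (n 0 z (n 0 z (n 0 z z))) (n 0 (n 0 z (n 0 z (n 0 z z))) (n 0 (n 0 z (n 0 z (n
 0 z z))) (n 0 (n 0 z (n 0 z (n 0 z z))) (n 0 (n 0 z (n 0 z (n 0 z z))) (n 0 (n 0 z (n 0 z (n 0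
 z z))) (n 0 (n 0 z (n 0 (n 8728931 z z) (n 0 z z))) (n 0 (n 0 z (n 0 z (n 0 z z)))
 z)))))))))))))))) (n 9 (n 0 (n 0 z (n 0 z (n 0 z z))) (n 0 (n 0 z (n 0 z (n 0 z z))) (n 0 (n 0
 z (n 0 z (n 0 z z))) (n 0 (n 0 z (n 0 z (n 0 z z))) (n 0 (n 0 z (n 0 z (n 0 z z))) (n 0 (n 0 z
 (n 0 z (n 0 z z))) (n 0 (n 0 z (n 0 z (n 0 z z))) (n 0 (n 0 z (n 0 z (n 0 z z))) (n 0 (n 0 z (n
 0 z (n 0 z z))) (n 0 (n 0 z (n 0 z (n 0 z z))) (n 0 (n 0 z (n 0 z (n 0 z z))) z))))))))))) (n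
 27 (n 0 (n 0 z (n 0 z (n 0 z z))) (n 0 (n 0 z (n 0 z (n 0 z z))) (n 0 (n 0 z (n 0 z (n 0 z z)))
 (n 0 (n 0 z (n 0 z (n 0 z z))) (n 0 (n 0 z (n 0 z (n 0 z z))) (n 0 (n 0 z (n 0 z (n 0 z z))) (n
 0 (n 0 z (n 0 z (n 0 z z))) (n 0 (n 0 z (n 0 z (n 0 z z))) (n 0 (n 0 z (n 0 z (n 0 z z))) (n 0
 (n 0 z (n 0 z (n 0 z z))) (n 0 (n 0 z (n 0 z (n 0 z z))) (n 0 (n 0 z (n 0 z (n 0 z z)))
 z)))))))))))) (n 1 (n 0 (n 0 z (n 0 z (n 0 (n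
 0x43b3b1181c0863763203830ed0e620785f8208608208207e18217e08208208207e081f8208608208208208208207e08208208208201801
 z z) z))) (n 0 (n 0 z (n 0 z (n 0 z z))) (n 0 (n 0 z (n 0 z (n 0 (n 8655371 z (n 8798323 z z))
 z))) (n 0 (n 0 z (n 0 z (n 0 z z))) (n 0 (n 0 z (n 0 z (n 0 z z))) (n 0 (n 0 z (n 0 z (n 0 z
 z))) (n 0 (n 0 z (n 0 z (n 0 z z))) (n 0 (n 0 z (n 0 z (n 0 z z))) (n 0 (n 0 z (n 0 z (n 0 z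
 z))) (n 0 (n 0 z (n 0 z (n 0 z z))) z)))))))))) (n 153 (n 0 (n 0 z (n 0 z (n 0 z z))) (n 0 (n 0
 z (n 0 z (n 0 z z))) (n 0 (n 0 z (n 0 z (n 0 z z))) z))) (n 33 (n 0 (n 0 z (n 0 z (n 0 z z)))
 (n 0 (n 0 z (n 0 z (n 0 (n 8593667 z z) z))) (n 0 (n 0 z (n 0 z (n 0 (n
 0x2ea90c46038208208208208208208218208208608208208208208208208208208208208208208608208200801 z
 z) z))) (n 0 (n 0 z (n 0 z (n 0 z z))) z)))) (n 9 (n 0 (n 0 z (n 0 z (n 0 z z))) (n 0 (n 0 z (n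
 0 z (n 0 z z))) (n 0 (n 0 z (n 0 (n
 0x743861501810caa8620785f8218208608217618228208218217df8208208608608218208208208207e08208608208201001
 z z) (n 0 z z))) (n 0 (n 0 z (n 0 z (n 0 (n
 0x2ea90c460781f8608207e08208608218208208608208608208208208208208208208218208208208208200801 z
 z) z))) (n 0 (n 0 z (n 0 z (n 0 z z))) (n 0 (n 0 z (n 0 z (n 0 z z))) (n 0 (n 0 z (n 0 z (n 0 z
 z))) (n 0 (n 0 z (n 0 z (n 0 z z))) (n 0 (n 0 z (n 0 z (n 0 z z))) (n 0 (n 0 z (n 0 z (n 0 z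
 z))) (n 0 (n 0 z (n 0 z (n 0 z z))) (n 0 (n 0 (n 8799515 z (n 8799515 z z)) (n 0 z (n 0 z z)))
 (n 0 (n 0 z (n 0 z (n 0 z z))) (n 0 (n 0 z (n 0 z (n 0 z z))) (n 0 (n 0 z (n 0 z (n 0 (n
 8593427 z z) z))) z))))))))))))))) (n 243 (n 0 (n 0 z (n 0 z (n 0 z z))) (n 0 (n 0 z (n 0 z (n
 0 z z))) (n 0 (n 0 z (n 0 z (n 0 z z))) (n 0 (n 0 z (n 0 z (n 0 z z))) (n 0 (n 0 (n
 0x10eb0ea20785e8607e17a08207df8258207e286082085f81f81f82081e86082081f8208608208218208200801 z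
 (n 0x10e30e0a037e181e82082082082081f82081f82082082082082082086082082082082082082082081f8200801
 z z)) (n 0 z (n 0 z z))) (n 0 (n 0 (n 8783691 z (n
 0x987485f82081f8218617e082086082082086181f82081f8207e081f8208608207df81f8608208210041 z z)) (n
 0 z (n 0 z z))) (n 0 (n 0 z (n 0 (n 8593427 z (n 8593427 z z)) (n 0 (n 8593427 z (n 8593427 z
 z)) z))) (n 0 (n 0 z (n 0 z (n 0 z z))) (n 0 (n 0 z (n 0 z (n 0 (n 8593427 z z) z))) (n 0 (n 0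
 z (n 0 (n 8593427 z z) (n 0 z z))) (n 0 (n 0 z (n 0 z (n 0 z z))) (n 0 (n 0 z (n 0 z (n 0 z
 z))) (n 0 (n 0 z (n 0 z (n 0 (n 8593667 z z) z))) (n 0 (n 0 z (n 0 z (n 0 z z))) (n 0 (n 0 z (n
 0 z (n 0 z z))) (n 0 (n 0 z (n 0 z (n 0 z z))) (n 0 (n 0 z (n 0 z (n 0 (n 8593667 z z) z))) (n
 0 (n 0 z (n 0 z (n 0 z z))) (n 0 (n 0 z (n 0 (n 8593667 z (n 8593667 z z)) (n 0 (n 8593667 z (n
 8593667 z z)) z))) (n 0 (n 0 z (n 0 (n 8593667 z z) (n 0 z z))) (n 0 (n 0 z (n 0 z (n 0 z z)))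
 (n 0 (n 0 z (n 0 z (n 0 z z))) (n 0 (n 0 z (n 0 z (n 0 z z))) z))))))))))))))))))))))) (n 121
 (n 0 (n 0 z (n 0 z (n 0 z z))) (n 0 (n 0 z (n 0 z (n 0 z z))) (n 0 (n 0 z (n 0 z (n 0 (n
 8799515 z z) z))) (n 0 (n 0 z (n 0 z (n 0 z z))) (n 0 (n 0 z (n 0 z (n 0 z z))) (n 0 (n 0 z (n
 0 z (n 0 z z))) (n 0 (n 0 z (n 0 z (n 0 z z))) z))))))) (n 0 (n 0 (n 0 z (n 0 z (n 0 z z))) (n
 0 (n 0 z (n 0 z (n 0 z z))) (n 0 (n 0 z (n 0 z (n 0 z z))) (n 0 (n 0 z (n 0 z (n 0 z z))) (n 0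
 (n 0 z (n 0 z (n 0 z z))) (n 0 (n 0 z (n 0 z (n 0 z z))) (n 0 (n 0 z (n 0 z (n 0 z z))) (n 0 (n
 0 z (n 0 z (n 0 z z))) (n 0 (n 0 z (n 0 z (n 0 z z))) z))))))))) z))))))))))))))))))))) z))))
 z) z)))) (n 0x621eacc162663112 (n 0 (n 153 (n 0 z (n 0 z (n 0 z (n 6496275 z z)))) (n 33 (n 0 z
 (n 0 z (n 0 z (n 6496515 z z)))) (n 9 (n 0 z (n 2 z (n 0 z (n 0 z (n 0 z (n 0 z (n 6496515 z (n
 0 z (n 0 z (n 0 z (n 0 z (n 0 z (n 0 z (n 6496515 z (n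
 0x590d8414060b2a328181c365454030184ca6ca60079988e846a7665a78996a482082581f59e8e281f81f59aa2782fa227db7608a269d9e5a595e32001
 z (n 6496523 z (n 0 z (n 0 z (n 0 z (n 0 z z)))))))))))))))))))) (n 243 (n 6496515 z (n
 0x2ca6a2080786082089e8208a07df7e086482081c91f7e08228207df82181c8a08218207228238a07e08600801 z
 (n 0 z (n 10 z (n 0 z (n 0 z (n 0 z (n 0 z (n 0 z (n 0 z (n 0 z (n 0 z (n 6496523 z (n 0 z (n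
 6496515 z (n 18 z (n 6496523 z (n 6496515 z z)))))))))))))))))) (n 1 (n 0 z (n 0 z (n 0 z (n 0
 z (n 2164299 z z))))) (n 0 (n 2164315 z (n 0 z (n 0 z (n 0 z z)))) z)))))) (n 153 (n 0 (n 681
 (n 0 z (n 0 z (n 0 z (n 0 z (n 0 z (n 0 z (n 0 z (n 0 z (n 0 z z))))))))) (n 681 (n 0 z (n 0 z
 (n 0 z (n 0 z (n 0 z (n 0 z (n 0 z (n 0 z (n 0 z z))))))))) z)) (n 0 (n 0 z z) (n 0 z z))) (n 0
 (n 0 z (n 0 z (n 0 z (n 1 (n 6496515 z (n 6496275 z (n 6496275 z (n 6496275 z (n 6496275 z (n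
 6496275 z z)))))) z)))) (n 0 z z)))) (n 0xd5474692bb856a4c24ae6c256f682b5b4819 (n 0 (n 153 (n
 0x365464120388ca4c842077e082081f7e08608238227e07a085f82082081f8607a286179e8208208a085e7e07df7e18611001
 z (n 6554395 z (n
 0xeca8c824079d675f62269f9a49e36ad8598e572379eae675c4a679c8699247d38e29a069e79f7e27dc69c0801 z
 (n 0x8c64c642077e082182082182382082082082079f7df7e18e08208208218208a181d7e081f85f81f7a18a10801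
 z (n 0 z (n 0 z (n 5518859 z (n 3282443 z (n 0 z (n 0 z z)))))))))) (n 57 (n 6496515 z (n
 6496515 z (n 2 z z))) (n 51 (n 0 z (n 0 z (n 0 z (n 6496515 z (n 10 z z))))) (n 123 (n 0 z (n
 6496515 z (n 0 z (n 18 z z)))) (n 1 (n 0 z (n 6635827 z (n 0 z (n 26 z (n 34 z z))))) (n 0 (n 0
 z (n 6635827 z (n 0 z (n 0 z (n 0 z (n 0 z (n 0 z (n 42 z (n 0 z (n 0 z (n 50 z (n 6624315 z
 z)))))))))))) z)))))) (n 57 (n 0 (n 753 (n 0 z (n 0 z (n 0 z (n 0 z (n 0 z (n 0 z (n 0 z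
 z))))))) (n 55 (n 0 z (n 0 z (n 0 z (n 0 z z)))) (n 111 (n 0 z (n 0 z (n 0 z (n 0 z (n 0 z (n 0
 z (n 0 z z))))))) (n 111 (n 0 z (n 0 z (n 0 z (n 0 z (n 0 z (n 0 z (n 2 (n 1 z (n 2 (n 0 z (n 0
 z (n 0 z (n 0 z (n 0 z (n 0 z z)))))) z)) z))))))) (n 109 (n 0 z (n 0 z (n 0 z (n 0 z (n 0 z (n
 0 z (n 0 z (n 0 z z)))))))) (n 109 (n 0 z (n 0 z (n 0 z (n 0 z (n 0 z (n 2 z (n 0 z (n 0 z
 z)))))))) z)))))) (n 0 (n 267 (n 0 z (n 0 z (n 0 z (n 0 z (n 0 z (n 0 z (n 0 z (n 0 z z))))))))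
 (n 99 (n 0 z (n 0 z (n 0 z (n 0 z (n 0 z (n 0 z (n 0 z (n 0 z (n 0 z (n 0 z (n 0 z z)))))))))))
 (n 99 (n 0 z (n 0 z (n 0 z (n 0 z (n 0 z (n 0 z (n 0 z (n 0 z (n 0 z (n 0 z (n 2 (n 2 (n 0 z (n
 0 z (n 0 z (n 0 z (n 0 z (n 0 z z)))))) (n 2 (n 0 z (n 0 z (n 0 z (n 0 z (n 0 z (n 0 z z))))))
 z)) z))))))))))) (n 97 (n 0 z (n 0 z (n 0 z (n 0 z (n 0 z (n 0 z (n 0 z (n 0 z (n 0 z
 z))))))))) (n 97 (n 0 z (n 0 z (n 0 z (n 0 z (n 0 z (n 0 z (n 0 z (n 0 z (n 0 z z)))))))))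
 z))))) (n 0 (n 51 (n 0 z (n 0 z (n 0 z (n 0 z z)))) (n 51 (n 0 z (n 0 z (n 0 z (n 0 z z)))) (n
 49 (n 0 z (n 0 z (n 0 z (n 0 z (n 0 z (n 0 z (n 0 z (n 0 z (n 0 z (n 0 z (n 0 z (n 0 z (n 0 z
 (n 0 z (n 0 z (n 0 z (n 0 z (n 0 z (n 0 z (n 0 z (n 0 z (n 0 z z)))))))))))))))))))))) (n 49 (n
 0 z (n 0 z (n 0 z (n 0 z (n 0 z (n 0 z (n 0 z (n 0 z (n 0 z (n 0 z (n 0 z (n 0 z (n 0 z (n 0 z
 (n 0 z (n 0 z (n 0 z (n 0 z (n 0 z (n 2 z (n 0 z (n 0 z z)))))))))))))))))))))) z)))) (n 0 (n 0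
 z (n 1 (n 0 z (n 0 z (n 0 z (n 0 z (n 0 z (n 0 z (n 0 z (n 0 z (n 0 z (n 0 z (n 0 z (n 0 z (n 0
 z (n 0 z (n 0 z (n 0 z (n 0 z z))))))))))))))))) (n 1 (n 0 z (n 0 z (n 0 z (n 0 z (n 0 z (n 0 z
 (n 0 z (n 0 z (n 0 z (n 0 z (n 0 z (n 0 z (n 0 z (n 0 z (n 0 z (n 0 z (n 0 z z)))))))))))))))))
 z))) (n 0 (n 293 (n 0 z (n 0 z (n 0 z (n 0 z (n 0 z (n 0 z (n 0 z (n 2 (n 0 z z) (n 0 z (n 0 z
 (n 0 z (n 0 z (n 0 z (n 0 z (n 0 z (n 0 z (n 0 z (n 0 z z)))))))))))))))))) (n 293 (n 0 z (n 0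
 z (n 0 z (n 0 z (n 0 z (n 0 z (n 0 z (n 0 z (n 0 z (n 2 z (n 0 z (n 0 z (n 0 z (n 0 z (n 0 z (n
 0 z (n 0 z (n 0 z z)))))))))))))))))) z)) (n 0 (n 0 z z) (n 0 z z))))))) (n 0 (n 1 (n 6496515 z
 (n 6496515 z (n 6496515 z (n 6496515 z (n 6496515 z (n 6496515 z z)))))) (n 1 (n 6496515 z (n
 6496515 z (n 6496515 z (n 6496515 z (n 6496515 z (n 6496515 z z)))))) (n 1 (n 1228 z (n 5445163
 z (n 6627595 z (n 6554395 z (n 1228 z (n 6567195 z z)))))) z))) (n 0 z z)))) z)))))))))),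
 by decide +kernel⟩
theorem i10726 : ∃ t, chkR KT RW t 10726 10736 = true := ⟨(n
 0x6d25a8190c98545aa242e68114a910a9a504aa602543700a9900 (n 0 (n 303 (n 2 z (n
 0x4ca8a8620781e85f8608208207df8a07df8208608208a082086081f7e07e08218217e17df8208218208200801 z
 (n 10 z (n
 0x4ca8a862076d985d7e56d8a1f86582370f8e09a06227f155d8df7d4926859a1ba5d62561d5a3b2979d8a90801 z
 (n 0 z (n 0 z (n 0 z (n 0 z (n 0 z (n 0 z (n 0 z (n 0 z (n 0 z (n 0 z (n 6565923 z (n 6554411 z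
 (n 6554411 z (n 0 z (n 0 z z))))))))))))))))))) (n 411 (n 18 z (n 0 z (n 26 z (n 0 z (n 6562131
 z z))))) (n 9 (n 34 z (n 0 z (n 42 z (n 6561843 z (n 0 z z))))) (n 3 (n 0 z (n 0 z (n 50 z (n 0
 z (n 6565923 z (n 58 z z)))))) (n 1 (n 66 z (n 0 z (n 6565923 z (n 0 z (n 6562131 z z))))) (n 0
 (n 0 z (n 0 z (n 0 z (n 0 z (n 0 z (n 0 z (n 0 z (n 0 z (n 6632491 z (n 74 z z))))))))))
 z)))))) (n 411 (n 0 (n 0 z (n 739 (n 0 z (n 0 z (n 0 z (n 0 z (n 0 z (n 0 z (n 0 z z))))))) (n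
 739 (n 0 z (n 2 (n 2 (n 0 z (n 0 z (n 0 z (n 0 z (n 0 z (n 0 z z)))))) (n 1 z (n 1 z (n 2 (n 0
 z (n 0 z (n 0 z (n 0 z (n 0 z (n 0 z z)))))) (n 1 z (n 1 z z)))))) (n 0 z (n 0 z (n 0 z (n 0 z
 (n 0 z z))))))) (n 135 (n 0 z (n 0 z (n 0 z (n 0 z (n 0 z (n 0 z (n 0 z (n 0 z (n 0 z
 z))))))))) (n 135 (n 0 z (n 0 z (n 0 z (n 0 z (n 0 z (n 0 z (n 0 z (n 0 z (n 2 (n 1 z (n 1 z (n
 1 z (n 1 z z)))) z))))))))) (n 627 (n 0 z (n 0 z (n 0 z (n 0 z (n 0 z (n 0 z (n 0 z (n 0 z (n 0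
 z (n 0 z (n 0 z (n 0 z (n 0 z (n 0 z (n 0 z (n 0 z (n 0 z (n 0 z (n 0 z (n 0 z (n 0 z (n 0 z
 z)))))))))))))))))))))) (n 627 (n 0 z (n 0 z (n 0 z (n 0 z (n 0 z (n 0 z (n 2 (n 1 z (n 2 (n 0
 z (n 0 z (n 0 z (n 0 z (n 0 z (n 0 z z)))))) z)) (n 0 z (n
 0x4ea8ca82076d985d7e56d8a1f86582370f8e09a06227f155d8df7d4926859a1ba5d62561d5a3b2979d8a90801 z
 (n 0 z (n 0 z (n 0 z (n 0 z (n 0 z (n 0 z (n 0 z (n 0 z (n 0 z (n 0 z (n 0 z (n 0 z (n 0 z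
 z)))))))))))))))))))))) (n 137 (n 0 z (n 0 z (n 0 z (n 0 z (n 0 z (n 0 z (n 0 z z))))))) (n 737
 (n 0 z (n 0 z (n 0 z (n 0 z (n 0 z (n 0 z (n 0 z (n 0 z (n 0 z (n 0 z (n 0 z (n 0 z (n 0 z (n 0
 z (n 0 z z))))))))))))))) z))))))))) (n 0 (n 751 (n 0 z (n 0 z (n 0 z (n 0 z (n 0 z (n 0 z (n 0
 z z))))))) (n 751 (n 2 (n 2 (n 0 z (n 0 z (n 0 z (n 0 z (n 0 z (n 0 z z)))))) (n 2 (n 0 z (n 0
 z (n 0 z (n 0 z (n 0 z (n 0 z z)))))) (n 2 (n 0 z (n 0 z (n 0 z (n 0 z (n 0 z (n 0 z z)))))) (n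
 2 (n 0 z (n 0 z (n 0 z (n 0 z (n 0 z (n 0 z z)))))) (n 2 (n 0 z (n 0 z (n 0 z (n 0 z (n 0 z (n
 0 z z)))))) (n 1 z z)))))) (n 0 z (n 0 z (n 0 z (n 0 z (n 0 z (n 0 z z))))))) (n 753 (n 0 z (n
 0 z (n 2 (n 0 z (n 1 z (n 1 z (n 1 z (n 1 z z))))) (n 0 z (n 0 z z))))) (n 753 (n 2 (n 1 z (n 1
 z (n 1 z (n 1 z z)))) (n 0 z (n 0 z (n 0 z (n 0 z z))))) (n 1059 (n 0 z (n 0 z (n 0 z (n 0 z (n
 0 z (n 0 z (n 0 z (n 0 z (n 0 z (n 0 z (n 0 z (n 0 z (n 0 z (n 0 z (n 0 z (n 0 z (n 0 z (n 0 z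
 (n 0 z (n 0 z (n 0 z (n 0 z (n 0 z z))))))))))))))))))))))) (n 1059 (n 0 z (n 0 z (n 0 z (n 0 z
 (n 0 z (n 0 z (n 0 z (n 0 z (n 2 (n 2 (n 0 z (n 0 z (n 0 z (n 0 z (n 0 z (n 0 z z)))))) (n 1 z
 z)) (n 0 z (n 0 z (n 0 z (n 0 z (n 0 z (n 0 z (n 0 z (n 0 z (n 0 z (n 0 z (n 0 z (n 0 z (n 0 z
 (n 0 z z))))))))))))))))))))))) (n 137 (n 0 z (n 0 z (n 2 (n 1 z z) (n 0 z (n 0 z z))))) (n 749
 (n 0 z (n 0 z (n 0 z (n 0 z (n 0 z z))))) z)))))))) (n 0 (n 0 z (n 347 (n 0 z (n 0 z (n 0 z (n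
 0 z (n 0 z (n 0 z (n 0 z (n 0 z (n 0 z (n 0 z (n 0 z (n 0 z (n 0 z z))))))))))))) (n 347 (n 0 z
 (n 0 z (n 0 z (n 0 z (n 0 z (n 0 z (n 0 z (n 0 z (n 0 z (n 0 z (n 0 z (n 2 (n 1 z (n 2 (n 0 z
 (n 0 z (n 0 z (n 0 z (n 0 z (n 0 z z)))))) (n 1 z (n 2 (n 0 z (n 0 z (n 0 z (n 0 z (n 0 z (n 0
 z z)))))) z)))) (n 0 z z))))))))))))) (n 11 (n 0 z (n 0 z (n 0 z (n 0 z (n 0 z (n 0 z (n 0 z (n
 0 z (n 0 z (n 0 z (n 0 z z))))))))))) (n 11 (n 0 z (n 0 z (n 0 z (n 0 z (n 0 z (n 0 z (n 0 z (n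
 0 z (n 2 (n 1 z (n 2 (n 0 z (n 0 z (n 0 z (n 0 z (n 0 z (n 0 z z)))))) z)) (n 0 z (n 0 z
 z))))))))))) (n 345 (n 0 z (n 0 z (n 0 z (n 0 z (n 0 z (n 0 z (n 0 z (n 0 z z)))))))) (n 337 (n
 0 z (n 0 z (n 0 z (n 0 z (n 0 z z))))) z))))))) (n 0 (n 23 (n 0 z (n 0 z (n 0 z (n 2 (n 0 z (n
 2 (n 0 z (n 0 z (n 0 z (n 0 z (n 0 z (n 0 z z)))))) (n 2 (n 0 z (n 0 z (n 0 z (n 0 z (n 0 z (n
 0 z z)))))) (n 2 (n 0 z (n 0 z (n 0 z (n 0 z (n 0 z (n 0 z z)))))) (n 2 (n 0 z (n 0 z (n 0 z (n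
 0 z (n 0 z (n 0 z z)))))) z))))) (n 0 z z))))) (n 23 (n 0 z (n 0 z (n 0 z (n 0 z (n 0 z z)))))
 (n 11 (n 0 z (n 0 z (n 2 (n 0 z (n 1 z (n 1 z z))) (n 0 z z)))) (n 11 (n 0 z (n 0 z (n 0 z (n 0
 z z)))) (n 15 (n 0 z (n 0 z (n 0 z (n 0 z (n 2 (n 1 z z) (n 0 z (n 0 z (n 0 z (n 0 z (n 0 z (n
 0 z (n 0 z (n 0 z (n 0 z (n 0 z z))))))))))))))) (n 13 (n 0 z (n 0 z (n 0 z (n 0 z (n 0 z (n 0
 z (n 0 z (n 0 z (n 7754051 z (n 0 z z)))))))))) z)))))) (n 0 (n 0 z (n 59 (n 0 z (n 0 z (n 0 z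
 (n 0 z z)))) (n 59 (n 0 z (n 0 z (n 0 z (n 2 (n 1 z (n 2 (n 0 z (n 0 z (n 0 z (n 0 z (n 0 z (n
 0 z z)))))) z)) z)))) (n 585 (n 0 z (n 0 z (n 0 z (n 0 z (n 0 z z))))) (n 493 (n 0 z (n 0 z (n
 0 z (n 0 z (n 0 z (n 0 z (n 0 z (n 0 z (n 0 z (n 0 z (n 0 z (n 0 z (n 0 z (n 0 z
 z)))))))))))))) z))))) (n 0 (n 59 (n 0 z (n 0 z (n 0 z (n 0 z (n 0 z (n 0 z (n 0 z (n 0 z (n 2
 (n 0 z (n 1 z (n 1 z z))) z))))))))) (n 59 (n 0 z (n 0 z (n 0 z (n 0 z (n 0 z (n 0 z (n 0 z (n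
 0 z (n 0 z z))))))))) (n 51 (n 0 z (n 2 (n 1 z z) (n 0 z (n 0 z (n 0 z (n 0 z z)))))) (n 49 (n
 0 z (n 0 z (n 0 z (n 0 z (n 0 z (n 7754051 z z)))))) z)))) (n 0 (n 0 z (n 99 (n 0 z (n 0 z (n 0
 z (n 0 z (n 0 z (n 0 z (n 0 z (n 0 z z)))))))) (n 97 (n 0 z (n 0 z (n 0 z (n 0 z (n 0 z (n 0 z
 (n 0 z z))))))) z))) (n 0 (n 15 (n 2 (n 2 (n 0 z (n 0 z (n 0 z (n 0 z (n 0 z (n 0 z z)))))) z)
 (n 0 z (n 0 z (n 0 z (n 0 z (n 0 z z)))))) (n 13 (n 0 z (n 0 z (n 0 z (n 0 z (n 7754051 z (n 0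
 z z)))))) z)) (n 0 (n 985 (n 0 z (n 0 z (n 0 z (n 0 z (n 0 z (n 0 z (n 0 z (n 0 z (n 0 z (n 0 z
 (n 0 z (n 0 z (n 0 z (n 0 z (n 0 z (n 0 z (n 0 z (n 0 z (n 0 z (n 0 z (n 0 z
 z))))))))))))))))))))) z) (n 0 z z)))))))))) (n 0 (n 1 (n 2428 z (n 2428 z (n 2428 z (n 4 z (n
 2428 z (n 2428 z z)))))) (n 0 z (n 1 (n 2428 z (n 2428 z (n 2428 z (n 2428 z (n 2428 z (n
 4396635 z z)))))) (n 0 z (n 1 (n 6562131 z (n 6562131 z (n 6562131 z (n 6562131 z (n 6562131 z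
 (n 6562131 z z)))))) z))))) (n 0 z z)))) (n 0xa126ec2a2ea0497b408aaa0255508262a68154240 (n 0 (n
 309 (n 2 z (n
 0x8ca886420381a9a27e359c85b8d4a8f9998988ab7a98a485abd56a791a6a396985f76192a66456379f75d0801 z
 (n 10 z (n
 0x4ca8a8420781e8627227e18a089a99c8de79f92486282279a9995259626a39237a279c8a57628257a08610801 z
 (n 0 z (n 0 z (n 0 z (n 0 z (n 0 z (n 0 z (n 0 z (n 0 z (n 6631459 z (n 6619947 z (n 6619947 z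
 (n 0 z (n 0 z z))))))))))))))))) (n 293 (n 18 z (n 0 z (n 3278363 z (n 0 z (n 0 z z))))) (n 9
 (n 6627379 z (n 0 z (n 26 z (n 34 z z)))) (n 3 (n 6631459 z (n 0 z (n 0 z (n 42 z (n 50 z
 z))))) (n 1 (n 0 z (n 0 z (n 0 z (n 0 z (n 0 z (n 0 z (n 0 z (n 0 z (n 0 z (n 6563131 z
 z)))))))))) (n 0 (n 0 z (n 0 z (n 0 z (n 0 z (n 58 z (n 0 z (n 0 z (n
 0x6ca886020771ba6376261a85c9d594f95c9198e86e97e77dcb597e685a6638a779f76292a6e35a379f75f0801 z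
 (n 0 z (n 0 z (n 0 z (n 6631459 z (n 0 z (n 0 z (n 6619947 z z))))))))))))))) z)))))) (n 9 (n 0
 (n 0 z (n 503 (n 0 z (n 0 z (n 0 z (n 0 z (n 0 z (n 0 z (n 0 z z))))))) (n 31 (n 0 z (n 0 z (n
 0 z (n 0 z (n 0 z z))))) (n 31 (n 0 z (n 0 z (n 0 z (n 0 z (n 2 (n 1 z (n 1 z (n 1 z z)))
 z))))) (n 55 (n 0 z (n 0 z (n 0 z (n 0 z (n 0 z (n 0 z (n 0 z (n 0 z z)))))))) (n 55 (n 0 z (n
 0 z (n 0 z (n 0 z (n 0 z (n 0 z (n 0 z (n 2 (n 1 z z) z)))))))) (n 53 (n 0 z (n 0 z (n 0 z (n 0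
 z (n 0 z (n 0 z (n 0 z (n 0 z (n 0 z z))))))))) z))))))) (n 0 (n 523 (n 0 z (n 0 z (n 0 z (n 0
 z (n 0 z (n 0 z (n 0 z z))))))) (n 971 (n 0 z (n 0 z (n 0 z (n 0 z (n 0 z (n 0 z (n 0 z (n 0 z
 (n 0 z (n 0 z (n 0 z (n 0 z (n 0 z (n 0 z (n 0 z (n 0 z (n 0 z (n 0 z (n 0 z (n 0 z (n 0 z (n 0
 z (n 0 z (n 0 z (n 0 z (n 0 z z)))))))))))))))))))))))))) (n 971 (n 0 z (n 0 z (n 0 z (n 0 z (n
 0 z (n 0 z (n 0 z (n 0 z (n 0 z (n 0 z (n 0 z (n 0 z (n 0 z (n 0 z (n 0 z (n 0 z (n 0 z (n 0 z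
 (n 0 z (n 0 z (n 0 z (n 0 z (n 2 (n 2 (n 0 z (n 0 z (n 0 z (n 0 z (n 0 z (n 0 z z)))))) (n 1 z
 (n 2 (n 0 z (n 0 z (n 0 z (n 0 z (n 0 z (n 0 z z)))))) z))) (n 0 z (n 0 z (n 0 z
 z)))))))))))))))))))))))))) (n 525 (n 2 (n 0 z (n 1 z z)) (n 0 z (n 0 z (n 0 z (n 0 z (n 0 z (n
 0 z z))))))) (n 525 (n 0 z (n 0 z (n 2 (n 2 (n 0 z (n 0 z (n 0 z (n 0 z (n 0 z (n 0 z z))))))
 z) (n 0 z (n 0 z (n 0 z (n 0 z z))))))) (n 77 (n 0 z (n 0 z (n 2 z (n 0 z (n 0 z (n 0 z (n 0 z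
 (n 0 z (n 0 z (n 0 z (n 0 z (n 0 z z)))))))))))) z)))))) (n 0 (n 19 (n 0 z (n 0 z (n 0 z (n 0 z
 (n 0 z (n 0 z (n 0 z (n 0 z (n 0 z (n 0 z (n 0 z z))))))))))) (n 19 (n 0 z (n 0 z (n 0 z (n 0 z
 (n 0 z (n 0 z (n 0 z (n 0 z (n 0 z (n 0 z (n 2 (n 1 z (n 1 z (n 1 z z))) z))))))))))) (n 295 (n
 0 z (n 0 z (n 0 z (n 0 z (n 0 z (n 0 z (n 0 z (n 0 z (n 0 z (n 0 z (n 0 z (n 0 z (n 0 z
 z))))))))))))) (n 295 (n 0 z (n 0 z (n 0 z (n 0 z (n 0 z (n 0 z (n 0 z (n 0 z (n 0 z (n 0 z (n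
 0 z (n 0 z (n 2 (n 1 z z) z))))))))))))) (n 293 (n 0 z (n 0 z (n 0 z (n 0 z (n 0 z (n 0 z (n 0
 z (n 0 z z)))))))) z))))) (n 0 (n 0 z (n 535 (n 0 z (n 0 z (n 0 z (n 0 z z)))) (n 535 (n 0 z (n
 0 z (n 0 z (n 2 (n 1 z z) z)))) (n 533 (n 0 z (n 0 z (n 0 z (n 0 z (n 0 z (n 0 z (n 0 z (n 0 z
 (n 0 z (n 0 z (n 0 z (n 0 z (n 0 z (n 0 z (n 0 z (n 0 z (n 0 z (n 0 z z)))))))))))))))))) z))))
 (n 0 (n 7 (n 0 z (n 0 z (n 0 z (n 0 z (n 0 z (n 0 z (n 0 z (n 0 z (n 2 (n 0 z (n 1 z z))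
 z))))))))) (n 7 (n 0 z (n 0 z (n 0 z (n 0 z (n 0 z (n 0 z (n 0 z (n 0 z (n 0 z z))))))))) (n 49
 (n 2 z (n 0 z (n 0 z (n 0 z (n 0 z (n 0 z z)))))) z))) (n 0 (n 0 z (n 721 (n 0 z (n 0 z (n 0 z
 (n 0 z (n 0 z (n 0 z (n 0 z (n 0 z (n 0 z (n 0 z (n 0 z (n 0 z (n 0 z (n 0 z (n 0 z (n 0 z (n 0
 z (n 0 z (n 0 z (n 0 z (n 0 z (n 0 z (n 0 z (n 0 z (n 0 z (n 0 z z))))))))))))))))))))))))))
 z)) (n 0 (n 13 (n 0 z (n 2 z (n 0 z (n 0 z (n 0 z (n 0 z z)))))) z) (n 0 z z)))))))) (n 0 (n 1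
 (n 6627379 z (n 6631459 z (n 6627379 z (n 6627379 z (n 6627379 z (n 6627379 z z)))))) (n 0 z (n
 1 (n 12 z (n 6631459 z (n 2476 z (n 6619947 z (n 2476 z (n 2476 z z)))))) (n 1 (n 2476 z (n
 6631459 z (n 2476 z (n 5375515 z (n 2476 z (n 2476 z z)))))) z)))) (n 0 z z)))) (n
 0x36a9d119b2850cb42864ad4300 (n 0 (n 309 (n 0 z (n 0 z (n 0 z (n 0 z (n 2 z (n 0 z (n 0 z (n 0
 z (n 0 z (n 0 z (n 6631459 z (n 0 z (n 0 z (n 0 z (n 0 z (n 0 z z)))))))))))))))) (n 293 (n 0 z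
 (n 0 z (n 3278363 z z))) (n 9 (n 6627379 z (n 0 z (n 0 z (n 0 z (n 0 z z))))) (n 3 (n 0 z (n
 6631459 z (n 0 z (n 0 z (n 0 z (n 0 z (n 0 z z))))))) (n 1 (n
 0x2cca6ca62036e79876a7e7c7e5d8f828360865f9e726f7095746e968e8e739fa5897a9d8e557a6b8c9a84975f819c947c7d6a7d7c77897f0809
 z (n 0 z (n 0 z (n 0 z (n
 0x2ca8a620077f7e8181807f817e828080817f80808281817f807f7f807f807f827f7f7e81808182808080808180817e7f8081807f7f80800809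
 z (n 0 z (n 0 z (n
 0x2ca6ca62037e8383827c828081807e807f817b84807f7d81837a837f847f7f85808082807d7d7f81827b817d8080827f807e81827f80820809
 z (n 2164299 z (n 0 z (n 2164299 z z))))))))))) (n 0 (n 6631459 z (n 0 z (n 6631459 z (n 0 z (n
 0x6642ca08037f7c82817d807e79838081827f7d837f82807f867d7e8180827f827f807d7f7e7e827f81837d7f80848280807c7e818280800809
 z (n 6631459 z (n 10 z (n 18 z (n 0 z (n 0 z (n 0 z (n 0 z (n 0 z (n 0 z (n 0 z (n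
 0x2c86c860037e8180807b827e7e807f828280807e80818085807e817e827e7d828082827d7f808180807f808080818180807f80818080810809
 z (n 26 z (n 0 z (n 0 z (n 0 z (n 0 z (n 6627379 z (n 6631459 z (n 0 z (n 0 z (n 0 z (n 0 z (n
 0xab18b10200c319510c040610ca88620037f75807a8975817d8487828485758279858082739095857e708a7b797e7d85888589837d968e85818687807f79887a82787a1809
 z (n 6631459 z (n 6631459 z (n 34 z (n 6619947 z z)))))))))))))))))))))))))))))))) z)))))) (n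
 293 (n 0 (n 77 (n 0 z (n 0 z (n 0 z (n 0 z (n 0 z (n 0 z (n 0 z (n 0 z (n 0 z (n 0 z (n 0 z (n
 0 z (n 0 z (n 0 z (n 0 z (n 0 z (n 0 z (n 0 z (n 0 z (n 0 z (n 0 z (n 0 z
 z)))))))))))))))))))))) (n 77 (n 0 z (n 0 z (n 0 z (n 0 z (n 0 z (n 0 z (n 0 z (n 0 z (n 0 z (n
 0 z (n 0 z (n 0 z (n 0 z (n 0 z (n 0 z (n 0 z (n 0 z (n 0 z (n 0 z (n 0 z (n 0 z (n 0 z
 z)))))))))))))))))))))) (n 77 (n 0 z (n 0 z (n 0 z (n 0 z (n 0 z (n 0 z (n 0 z (n 0 z (n 0 z (n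
 0 z (n 0 z (n 0 z (n 0 z (n 0 z (n 0 z (n 0 z (n 2 (n 0 z z) (n 0 z (n 0 z (n 0 z (n 0 z (n 0 z
 z)))))))))))))))))))))) (n 77 (n 0 z (n 0 z (n 0 z (n 0 z (n 0 z (n 0 z (n 0 z (n 0 z (n 0 z (n
 0 z (n 0 z (n 0 z (n 0 z (n 0 z (n 0 z (n 0 z (n 0 z (n 0 z (n 0 z (n 0 z (n 0 z (n 0 z
 z)))))))))))))))))))))) z)))) (n 0 (n 0 z (n 0 z (n 0 z z))) (n 0 (n 0 z (n 0 z z)) (n 0 (n 0 z
 z) (n 0 z z))))) (n 0 (n 0 z (n 0 z (n 1 (n 3278363 z (n 3278363 z (n 3278363 z (n 3278363 z (n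
 3278363 z (n 3278363 z z)))))) z))) (n 0 z z)))) (n 0x2226a14134cc6224540d2 (n 0 (n 153 (n 0 z
 (n 0 z (n 6496275 z (n 0 z z)))) (n 33 (n 0 z (n 0 z (n 0 z (n 6496515 z z)))) (n 9 (n 2 z (n
 10 z (n 0 z (n 0 z (n 0 z (n 0 z (n 0 z (n 6496523 z (n 6496515 z (n 0 z (n 0 z z))))))))))) (n
 243 (n 6496515 z (n 18 z (n 0 z (n
 0xca6a428038608208207e08207a18218208207e182086081f82082081f86081f82086089f82082081f8200801 z (n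
 0 z (n 0 z (n 0 z (n 0 z (n 0 z (n 0 z (n 0 z (n 0 z (n 6496523 z (n 0 z (n 0 z (n
 0x2ca8ca020782081f85f79e8216e38a276082172481fa1f81e82281f89e8607e08207e089f8217a18217e00801 z
 (n 6496523 z (n 6496515 z z)))))))))))))))))) (n 1 (n 26 z (n 2164299 z (n 0 z (n 0 z z)))) (n
 0 (n 0 z (n 0 z (n 0 z (n 6619931 z (n 0 z (n 0 z (n 0 z z))))))) z)))))) (n 153 (n 0 (n 0 z (n
 681 (n 0 z (n 0 z (n 0 z (n 0 z (n 0 z (n 0 z (n 0 z (n 0 z z)))))))) (n 15 (n 0 z (n 0 z (n 0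
 z (n 0 z (n 0 z (n 0 z (n 0 z z))))))) z))) (n 0 (n 681 (n 0 z (n 0 z (n 0 z (n 0 z (n 0 z (n 0
 z (n 0 z (n 2 (n 1 z z) (n 0 z z))))))))) (n 99 (n 0 z (n 0 z (n 0 z (n 0 z (n 0 z (n 0 z (n 0
 z z))))))) z)) (n 0 (n 51 (n 0 z (n 0 z (n 0 z (n 0 z (n 0 z (n 0 z (n 0 z (n 0 z z)))))))) z)
 (n 0 z z)))) (n 0 (n 0 z (n 0 z (n 1 (n 6496515 z (n 6496275 z (n 6496275 z (n 6496275 z (n
 6496275 z (n 6496275 z z)))))) (n 0 z z)))) (n 0 z z)))) (n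
 0x26c9d0ccd282f6958d9388484c7064da2368dcc134e6c19d1e18e8588517b00e6c80 (n 0x1cd93 (n 597 (n 0 z
 (n 6561843 z (n 2 z (n 0 z (n 10 z z))))) (n 581 (n 0 z (n 0 z (n 18 z (n 3278363 z (n 0 z (n
 6358075 z (n 0 z (n
 0x1058c99014060003b2c86c40a070004c7652650401800020b2a329181c00020d94d0c080600050ec8286040700040a643643001800185c65000030b6ca00006169940002c84b2800059086508000008004d780017f7ffeb980053c7ffbe37fff2f7ffe9c8005ca7ffdcf7ff9c77ffd538002c17ffe338000b68002787fefd48006a58004b27ffe077ffbdb80014e8005a87fff498000e37ff6c68007b67ff84a80041a7fffe28000007ffdf37ffe268004547ffd027ffb558000437ffc497ffc257fff6e8005ed7ff9ee7ffe678001248004c98001af8002f78000608000d37fff8e3959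
 z (n 26 z (n 34 z z)))))))))) (n 580 (n
 0x7b28b28180c7d95194c4060eca6ca62034f6ca08a99413cb28228650808e7e7f9e737776907d8e80658586838c95968b898544717e639a6680808077708c6a84ac907380856f847d7173907c85921909
 z (n 0 z (n 0 z (n 0 z (n 0 z (n 0 z (n 0 z (n 0 z (n 6562571 z (n 0 z (n
 0x2ca6c8620380807f8080817f7f7e7f8080808080807f80808081817f808080808080818080807e7e8080818080808080818080818080800809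
 z (n 42 z (n 0 z (n 0 z (n 6566403 z (n 0 z (n 0 z (n 0 z (n 0 z (n 0 z (n 0 z (n 0 z (n 0 z (n
 0xca6ca6203808080807f7f80808080808080818180808081808080808080817f7e80817f818080808080808080808080808081808080810809
 z (n 6562571 z (n 0 z (n 0 z (n 0 z z)))))))))))))))))))))))))))) (n 3 (n 50 z (n 0 z (n 58 z
 (n 6566403 z z)))) (n 1 (n 0 z (n 0 z (n 6566403 z (n 0 z (n 0 z (n 0 z (n 0 z (n 0 z (n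
 6562571 z (n 6566403 z (n 66 z (n
 0x2ca4ca260780818080808080808080818080808080817e7f7f8081817f818180807f81808081818280818180817f7e8080817f808080800809
 z (n
 0x19b29b29880c00005d94d94840600004eca4c6020700000f653320103800003b29310801c00005eb0800000bc6100000c76c2000016a98400002bcb0800003e861080000080003c80001c7fffd38000627fffb37ffff67ffffc8000537ffffa7fffd17fffb28000518000367fffde80004f7fff6480000980002a7ffff17fffbc7fffe680000680003e8000207fff5980008a7fff767fffe88000188000007fffef7fffda8000367fffe67ffffc8000627fffe97fffa37fffed80003f7fffdb7fffe88000117fffef80002580001c7ffff28000288000052999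
 z (n
 0x2ca6a64203808280808180808081807f80817f8080807e7f807f808180808281807f80808081808080808180807f807f81827f817f81800809
 z (n 74 z (n 0 z (n 0 z (n
 0x1a3d8858c1406000d1eca2c406070012e3653653101800c17b29b28801c0014dd90d484006006dc7188400db8db10801b71a6210046672c42008cce188400c285b2800049196508000007fff5d7feed68013d68020868000e77fe5eb7febf87ff7f37ff58c80128c80323c7fe29c7fc776800d787fc70b801464801f0e8011f78015fd8035bc801c527ffbc37fc47f7fee228023137ff7a280085e7ffb148001a48000007fe58f7fddaa8000027fd894801f4c80041780311e80042f800adf7fe48c7fe353801a5e7feb818020c97fc786800ecb8007a67ffd2080218b29d9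
 z (n
 0x194d94c80604ca6ca2407807f807f7c7f80827f817a7e868285847282807f7d80808580807e7f7f808283837e817c7f7d7f8081837f807d85807e7f7d1009
 z (n 0 z (n 0 z (n
 0x1265365310186329b28081c2d94d4c040e1aca4a60203806e76707c778c818d7c82987a8f8d815292858d787f5b7b818764818d977b809978797688888b74788d6f7b4b8a828c7b722009
 z (n 0 z (n 6566403 z (n 6566403 z z))))))))))))))))))))))))) (n 0 (n 0 z (n 82 z (n 6636307 z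
 (n 90 z (n 0 z (n 98 z z)))))) z)))))) (n 3 (n 0 (n 0 z (n 1191 (n 0 z (n 0 z (n 0 z (n 0 z (n
 0 z (n 0 z (n 0 z (n 0 z z)))))))) (n 1191 (n 0 z (n 0 z (n 0 z (n 0 z (n 0 z (n 0 z (n 0 z (n
 0 z z)))))))) (n 1191 (n 0 z (n 0 z (n 0 z (n 0 z (n 0 z (n 0 z (n 0 z (n 0 z z)))))))) (n 1189
 (n 0 z (n 0 z (n 0 z (n 0 z (n 0 z (n 0 z (n 0 z (n 0 z (n 0 z z))))))))) (n 1393 (n 0 z (n 0 z
 (n 0 z (n 0 z (n 0 z z))))) (n 1393 (n 0 z (n 0 z (n 0 z (n 0 z (n 0 z z))))) (n 37 (n 0 z (n 0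
 z (n 0 z (n 0 z (n 0 z (n 0 z (n 0 z (n 0 z (n 0 z (n 0 z (n 0 z (n 0 z (n 7734059 z (n 0 z (n
 0 z (n 0 z (n 0 z (n 0 z (n 0 z z))))))))))))))))))) (n 37 (n 0 z (n 0 z (n 0 z (n 0 z (n 0 z
 (n 0 z (n 0 z (n 0 z (n 0 z (n 0 z (n 0 z (n 0 z (n 0 z (n 0 z (n 0 z (n 0 z (n 0 z (n 0 z (n 0
 z z))))))))))))))))))) (n 845 (n 0 z (n 0 z (n 0 z (n 2 (n 0 z (n 0 z z)) z)))) (n 845 (n 0 z
 (n 0 z (n 0 z (n 0 z z)))) (n 845 (n 0 z (n 0 z (n 0 z (n 0 z z)))) z)))))))))))) (n 0 (n 1007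
 (n 0 z (n 2 (n 0 z (n 0 z (n 2 (n 0 z (n 0 z (n 0 z (n 0 z (n 0 (n 4020 z z) (n 0 z z)))))) (n
 2 (n 0 z (n 0 z (n 0 z (n 0 z (n 0 (n 4331627 z z) (n 0 z z)))))) (n 2 (n 0 z (n 0 z (n 0 z (n
 0 z (n 0 (n 4612 z z) (n 0 z z)))))) (n 1 z (n 2 (n 0 z (n 0 z (n 0 z (n 0 z (n 0 z (n 0 z
 z)))))) (n 2 (n 0 z (n 0 z (n 0 z (n 0 z (n 0 z (n 0 z z)))))) (n 1 z (n 2 (n 0 z (n 0 z (n 0 z
 (n 0 z (n 0 (n 3940 z z) (n 0 z z)))))) z)))))))))) (n 0 z (n 0 z (n 0 z (n 0 z (n 0 z (n 0 z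
 (n 0 z (n 0 z (n 0 z z))))))))))) (n 1007 (n 0 z (n 0 z (n 0 z (n 0 z (n 0 z (n 0 z (n 0 z (n 0
 z (n 0 z (n 2 (n 0 z (n 2 (n 0 z (n 0 z (n 0 z (n 0 z (n 0 z (n 0 z z)))))) (n 2 (n 0 z (n 0 z
 (n 0 z (n 0 z (n 0 (n 8873251 z z) (n 0 z z)))))) (n 2 (n 0 z (n 0 z (n 0 z (n 0 z (n 0 z (n 0
 z z)))))) (n 2 (n 0 z (n 0 z (n 0 z (n 0 z (n 0 z (n 0 z z)))))) (n 1 z (n 2 (n 0 z (n 0 z (n 0
 z (n 0 z (n 0 z (n 0 z z)))))) (n 2 (n 0 z (n 0 z (n 0 z (n 0 z (n 0 z (n 0 z z)))))) (n 1 z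
 z))))))))) (n 0 z z))))))))))) (n 1007 (n 0 z (n 0 z (n 0 z (n 0 z (n 0 z (n 0 z (n 0 z (n 0 z
 (n 0 z (n 0 z (n 2 (n 2 (n 0 z (n 0 z (n 0 z (n 0 z (n 0 z (n 0 z z)))))) (n 2 (n 0 z (n 0 z (n
 0 z (n 0 z (n 0 (n 8873251 z z) (n 0 z z)))))) (n 2 (n 0 z (n 0 z (n 0 z (n 0 z (n 0 z (n 0 z
 z)))))) (n 2 (n 0 z (n 0 z (n 0 z (n 0 z (n 0 z (n 0 z z)))))) (n 1 z (n 2 (n 0 z (n 0 z (n 0 z
 (n 0 z (n 0 z (n 0 z z)))))) (n 2 (n 0 z (n 0 z (n 0 z (n 0 z (n 0 z (n 0 z z)))))) (n 1 z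
 z)))))))) z))))))))))) (n 1005 (n 0 z (n 0 z (n 2 (n 2 (n 0 z (n 0 z (n 0 z (n 0 z (n 0 (n
 4331627 z z) (n 0 z z)))))) (n 1 z (n 2 (n 0 z (n 0 z (n 0 z (n 0 z (n 0 z (n 0 z z)))))) (n 1
 z (n 2 (n 0 z (n 0 z (n 0 z (n 0 z (n 0 z (n 0 z z)))))) (n 2 (n 0 z (n 0 z (n 0 z (n 0 z (n 0
 z (n 0 z z)))))) (n 1 z z))))))) (n 0 z (n 0 z (n 0 z z)))))) (n 1153 (n 0 z (n 0 z (n 0 z z)))
 (n 1153 (n 0 z (n 0 z (n 0 z z))) (n 591 (n 0 z (n 0 z (n 0 z (n 0 z (n 0 z (n 0 z (n 0 z (n 2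
 (n 0 z (n 2 (n 0 z (n 0 (n 6563931 z z) (n 0 z (n 0 (n 3283051 z z) (n 0 (n 7612507 z (n
 3283051 z z)) (n 0 z z)))))) (n 2 (n 0 z (n 0 z (n 0 (n 3940 z z) (n 0 z (n 0 (n 3940 z (n
 8587035 z z)) (n 0 (n 3940 z z) z)))))) (n 2 (n 0 (n 8848171 z z) (n 0 z (n 0 z (n 0 z (n 0 (n
 8848171 z (n 8848171 z z)) (n 0 (n 8848171 z z) z)))))) z)))) (n 0 z (n 0 z (n 0 z (n 0 z (n 0
 z (n 0 z (n 0 z (n 0 z (n 0 z (n 0 z (n 0 z z))))))))))))))))))) (n 591 (n 0 z (n 0 z (n 0 z (n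
 0 z (n 0 z (n 0 z (n 0 z (n 0 z (n 0 z (n 0 z (n 2 (n 2 (n 0 z (n 0 z (n 0 z (n 0 z (n 0 (n
 8873251 z z) (n 0 z z)))))) (n 2 (n 0 z (n 0 z (n 0 z (n 0 z (n 0 z (n 0 z z)))))) (n 1 z z)))
 (n 0 z (n 0 z (n 0 z (n 0 z (n 0 z (n 0 z (n 0 z (n 0 z z))))))))))))))))))) (n 985 (n 0 z (n 0
 z (n 0 z (n 0 z (n 0 z z))))) (n 985 (n 0 z (n 0 z (n 0 z (n 0 z (n 0 z z))))) (n 985 (n 0 z (n
 0 z (n 2 z (n 0 z (n 0 z z))))) z))))))))))) (n 0 (n 0 z (n 0 z (n 1161 (n 0 z (n 0 z (n 0 z (n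
 0 z (n 0 z (n 0 z (n 0 z (n 0 z (n 0 z (n 0 z z)))))))))) (n 1153 (n 0 z (n 0 z (n 0 z (n 0 z
 (n 2 (n 0 z (n 1 z (n 2 (n 0 z (n 0 z (n 0 z (n 0 z (n 0 (n 3132 z z) (n 0 z z)))))) (n 1 z (n
 1 z (n 1 z z)))))) z))))) (n 1153 (n 0 z (n 0 z (n 0 z (n 0 z (n 0 z z))))) (n 783 (n 0 z (n 0
 z (n 0 z (n 2 (n 0 z (n 1 z (n 1 z (n 1 z z)))) (n 0 z (n 0 z (n 0 z (n 0 z (n 0 z (n 0 z (n 0
 z z))))))))))) (n 783 (n 0 z (n 0 z (n 0 z (n 0 z (n 0 z (n 0 z (n 0 z (n 0 z (n 0 z (n 0 z (n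
 0 z z))))))))))) (n 781 (n 0 z (n 0 z (n 2 (n 0 z (n 0 z z)) (n 0 z (n 0 z (n 0 z z)))))) (n
 781 (n 0 z (n 0 z (n 0 z (n 0 z (n 0 z (n 0 z z)))))) (n 781 (n 0 z (n 0 z (n 0 z (n 0 z (n 0 z
 (n 0 z z)))))) z)))))))))) (n 0 (n 0 z (n 1161 (n 0 z (n 0 z (n 0 z (n 0 z (n 0 z (n 0 z (n 0 z
 (n 0 z (n 0 z (n 0 z (n 0 z z))))))))))) (n 1153 (n 0 z (n 0 z (n 0 z (n 0 z (n 0 z (n 0 z (n 0
 z (n 0 z (n 2 (n 0 z (n 2 (n 0 z (n 0 z (n 0 z (n 0 z (n 0 (n 468 z z) (n 0 z z)))))) (n 1 z (n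
 2 (n 0 z (n 0 z (n 0 z (n 0 z (n 0 (n 8873251 z z) (n 0 z z)))))) (n 2 (n 0 z (n 0 z (n 0 z (n
 0 z (n 0 (n 8794635 z z) (n 0 z z)))))) (n 1 z z)))))) z))))))))) (n 1153 (n 0 z (n 0 z (n 0 z
 (n 0 z (n 0 z (n 0 z (n 0 z (n 0 z (n 0 z z))))))))) (n 117 (n 0 z (n 0 z (n 0 z (n 0 z (n 0 z
 (n 0 z (n 0 z (n 0 z (n 0 z (n 0 z (n 0 z (n 0 z (n 0 z (n 0 z (n 0 z z))))))))))))))) (n 117
 (n 0 z (n 0 z (n 0 z (n 0 z (n 0 z (n 0 z (n 0 z (n 0 z (n 0 z (n 0 z (n 0 z (n 0 z (n 0 z (n 0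
 z (n 0 z z))))))))))))))) (n 749 (n 0 z (n 0 z (n 2 (n 0 z (n 0 z z)) (n 0 z (n 0 z (n 0 z
 z)))))) (n 749 (n 0 z (n 0 z (n 0 z (n 0 z (n 0 z (n 0 z z)))))) (n 749 (n 0 z (n 0 z (n 0 z (n
 0 z (n 0 z (n 0 z z)))))) z))))))))) (n 0 (n 1161 (n 0 z (n 0 z (n 0 z (n 0 z (n 0 z (n 0 z (n
 0 z (n 0 z (n 0 z (n 0 z (n 0 z (n 0 z (n 0 z (n 0 z (n 0 z (n 0 z (n 0 z (n 0 z (n 0 z (n 0 z
 (n 0 z (n 0 z (n 0 z (n 0 z (n 0 z (n 0 z (n 0 z (n 0 z (n 0 z (n 0 z (n 0 z (n 0 z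
 z)))))))))))))))))))))))))))))))) (n 1153 (n 0 z (n 0 z (n 0 z (n 0 z (n 0 z (n 0 z (n 0 z (n 2
 (n 0 z (n 2 (n 0 z (n 0 z (n 0 z (n 0 z (n 0 (n 8782635 z z) (n 0 z z)))))) (n 1 z (n 2 (n 0 z
 (n 0 z (n 0 z (n 0 z (n 0 (n 8873251 z z) (n 0 z z)))))) (n 2 (n 0 z (n 0 z (n 0 z (n 0 z (n 0
 (n 500 z z) (n 0 z z)))))) (n 1 z z)))))) z)))))))) (n 1153 (n 0 z (n 0 z (n 0 z (n 0 z (n 0 z
 (n 0 z (n 0 z (n 0 z z)))))))) (n 117 (n 0 z (n 0 z (n 0 z (n 0 z (n 0 z (n 0 z (n 0 z (n 0 z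
 (n 0 z (n 0 z (n 0 z (n 0 z (n 0 z (n 0 z (n 0 z (n 0 z (n 0 z z))))))))))))))))) (n 117 (n 0 z
 (n 0 z (n 0 z (n 0 z (n 0 z (n 0 z (n 0 z (n 0 z (n 0 z (n 0 z (n 0 z (n 0 z (n 0 z (n 0 z (n 0
 z (n 0 z (n 0 z z))))))))))))))))) (n 125 (n 0 z (n 0 z (n 0 z (n 0 z (n 0 z (n 2 (n 0 z (n 0 z
 z)) z)))))) (n 125 (n 0 z (n 0 z (n 0 z (n 0 z (n 0 z (n 0 z z)))))) (n 125 (n 0 z (n 0 z (n 0
 z (n 0 z (n 0 z (n 0 z z)))))) z)))))))) (n 0 (n 247 (n 0 z (n 0 z (n 0 z (n 0 z (n 0 z (n 0 z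
 (n 0 z (n 0 z (n 2 (n 0 z (n 1 z (n 1 z (n 2 (n 0 z (n 0 z (n 0 z (n 0 z (n 0 z (n 0 z z))))))
 (n 2 (n 0 z (n 0 z (n 0 z (n 0 z (n 0 (n 980 z z) (n 0 z z)))))) (n 1 z z)))))) (n 0 z (n 0 z
 (n 0 z (n 0 z (n 0 z (n 0 z (n 0 z (n 0 z (n 0 z (n 0 z (n 0 z (n 0 z (n 0 z (n 0 z (n 0 z (n 0
 z (n 0 z (n 0 z (n 0 z (n 0 z (n 0 z (n 0 z (n 0 z (n 0 z (n 0 z (n 0 z (n 0 z (n 0 z (n 0 z (n
 0 z (n 0 z (n 0 z (n 0 z (n 0 z (n 0 z (n 0 z (n 0 z (n 0 z (n 0 z (n 0 z (n 0 z (n 0 z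
 z))))))))))))))))))))))))))))))))))))))))))))))))))) (n 247 (n 0 z (n 0 z (n 0 z (n 0 z (n 0 z
 (n 0 z (n 0 z (n 0 z (n 0 z (n 0 z (n 0 z (n 0 z (n 0 z (n 0 z (n 0 z (n 0 z (n 0 z (n 0 z (n 0
 z (n 0 z (n 0 z (n 0 z (n 0 z (n 0 z (n 0 z (n 0 z (n 0 z (n 0 z (n 0 z (n 0 z (n 0 z (n 0 z (n
 0 z (n 0 z (n 0 z (n 0 z (n 0 z (n 0 z (n 0 z (n 0 z (n 0 z (n 0 z (n 0 z (n 0 z (n 0 z (n 0 z
 (n 0 z (n 0 z (n 0 z (n 0 z (n 0 z z))))))))))))))))))))))))))))))))))))))))))))))))))) (n 243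
 (n 0 z (n 0 z (n 0 z (n 0 z (n 0 z (n 0 z (n 0 z (n 0 z (n 0 z (n 0 z (n 0 z (n 0 z (n 0 z (n 0
 z (n 0 z (n 0 z (n 0 z (n 0 z (n 0 z (n 0 z (n 0 z (n 0 z z)))))))))))))))))))))) (n 243 (n 0 z
 (n 0 z (n 0 z (n 0 z (n 0 z (n 0 z (n 0 z (n 0 z (n 0 z (n 0 z (n 0 z (n 0 z (n 0 z (n 0 z (n 0
 z (n 0 z (n 0 z (n 0 z (n 0 z (n 0 z (n 0 z (n 0 z z)))))))))))))))))))))) (n 245 (n 0 z (n 0 z
 (n 0 z (n 0 z (n 2 (n 0 z (n 0 z z)) (n 0 z (n 0 z z))))))) (n 245 (n 0 z (n 0 z (n 0 z (n 0 z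
 (n 0 z (n 0 z (n 0 z z))))))) (n 245 (n 0 z (n 0 z (n 0 z (n 0 z (n 0 z (n 0 z (n 0 z z)))))))
 z))))))) (n 0 (n 0 z (n 9 (n 0 z (n 0 z (n 0 z (n 0 z (n
 0x1d95d948060aca2ec040380808278837a8584867f7e778b8e7d90657f867d778084888273867a7e8b8184847f7d7e81797b7d86847a867d85867a807f1009
 z (n 2 (n 0 z (n 2 (n 0 z (n 0 z (n 0 (n 2164843 z z) (n 0 z (n 0 (n 2164843 z (n 2164843 z z))
 (n 0 z z)))))) (n 1 z (n 1 z z)))) (n 0 z (n 0 z z)))))))) (n 9 (n 0 z (n 0 z (n 0 z (n 0 z (n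
 0 z (n 0 z (n 2 (n 2 (n 0 z (n 0 z (n 0 z (n 0 z (n 0 (n 8873251 z z) (n 0 z z)))))) (n 2 (n 0
 z (n 0 z (n 0 z (n 0 z (n 0 z (n 0 z z)))))) (n 1 z z))) (n 0 z z)))))))) (n 5 (n 0 z (n 0 z (n
 0 z (n 0 z (n 0 z (n 0 z (n 0 z (n 0 z (n 0 z (n 0 z (n 0 z (n 0 z (n 0 z (n 0 z (n 0 z (n 0 z
 z)))))))))))))))) (n 5 (n 0 z (n 0 z (n 0 z (n 0 z (n 2 (n 0 z z) (n 0 z (n 0 z (n 0 z (n 0 z
 (n 0 z (n 0 z (n 0 z (n 0 z (n 0 z (n 0 z (n 0 z z)))))))))))))))) (n 5 (n 0 z (n 0 z (n 0 z (n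
 0 z (n 0 z (n 0 z (n 0 z (n 0 z (n 0 z (n 0 z (n 0 z (n 0 z (n 0 z (n 0 z (n 0 z (n 2 z
 z)))))))))))))))) z)))))) (n 0 (n 3 (n 0 z (n 0 z (n
 0x387dd9188540600112aecaeca403000fb365465120380038eb2a328100c004b5d95150080e00147eca6ea420700144f652742103800e2a321321001c00900ebb0003432c7600080c56ec00088c29d8001039cbb000207387608000008046518036227fd2d5808f9c7fa7d17ff29f7fefd6808e8c7fe78a801b477ffa6080124a8018f57fcde680074c7fd5ea800fd1802fd87fe6547fcd528006868028ff7fe0e08011f07f96e9809f327f73a67fc2bc804bc28000007fb90d7fcf148052047fdf3e801598804de97ffc537f8a1580081580222e7f97ec7fdf9d80057b804a8b7ff1038014cc801d2780253280130b4199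
 z (n 0 z (n 0 z (n 0 z (n 0 z (n 0 z (n 0 z (n 0 z (n 0 z (n 0 z z)))))))))))) (n 3 (n 0 z (n 0
 z (n 0 z (n 0 z (n 0 z (n 0 z (n 0 z (n 0 z (n 0 z (n 0 z (n 0 z (n 0 z z)))))))))))) (n 5 (n 0
 z (n 0 z (n 0 z (n 0 z (n 2 (n 0 z (n 0 z z)) (n 0 z (n 0 z z))))))) (n 5 (n 0 z (n 0 z (n 0 z
 (n 0 z (n 0 z (n 0 z (n 0 z z))))))) (n 5 (n 0 z (n 0 z (n 0 z (n 0 z (n 0 z (n 0 z (n 0 z
 z))))))) z))))) (n 0 (n 0 z (n 25 (n 0 z (n 0 z (n 0 z (n 0 z (n 0 z (n 0 z (n 0 z (n 0 z (n 0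
 z (n 0 z (n 0 z (n 0 z (n 0 z (n 0 z (n 0 z z))))))))))))))) (n 25 (n 0 z (n 0 z (n 0 z (n 0 z
 (n 0 z (n 0 z (n 0 z (n 0 z (n 0 z (n 0 z (n 0 z (n 0 z (n 0 z (n 0 z (n 0 z z)))))))))))))))
 (n 25 (n 0 z (n 0 z (n 0 z (n 0 z (n 0 z (n 0 z (n 0 z (n 0 z (n 0 z (n 0 z (n 0 z (n 0 z (n 0
 z (n 0 z (n 0 z z))))))))))))))) z)))) (n 0 (n 1 (n 0 z (n 0 z (n 0 z (n 0 z (n 0 z (n 0 z (n 0
 z (n 0 z (n 0 z (n 2 (n 0 z (n 0 z z)) (n 0 z z))))))))))) (n 1 (n 0 z (n 0 z (n 0 z (n 0 z (n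
 0 z (n 0 z (n 0 z (n 0 z (n 0 z (n 0 z (n 0 z z))))))))))) (n 1 (n 0 z (n 0 z (n 0 z (n 0 z (n
 0 z (n 0 z (n 0 z (n 0 z (n 0 z (n 0 z (n 0 z z))))))))))) z))) (n 0 (n 0 z (n 0 z z)) (n 0 (n
 0 z z) (n 0 z z))))))))))))) (n 0 (n 1 (n 6358075 z (n 6561843 z (n 4652 z (n 6562571 z (n 4780
 z (n 4780 z z)))))) (n 0 z (n 1 (n 4780 z (n 6561843 z (n 6562571 z (n 6358075 z (n 4780 z (n 2
 z z)))))) (n 1 (n 6566403 z (n 6566403 z (n 6566403 z (n 6566403 z (n 6566403 z (n 6566403 z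
 z)))))) z)))) (n 0 (n 0xc0bda5 (n 0 (n 0 (n 7734059 z (n 7734059 z (n 7734059 z (n 7734059 z (n
 7734059 z (n 7734059 z z)))))) z) (n 0 (n 422 (n 1 (n 7610419 z (n 7610419 z (n 7610419 z (n
 7610419 z (n 7610419 z (n 7610419 z z)))))) (n 0 z (n 1 (n 7684883 z (n 7684883 z (n 7684883 z
 (n 7684883 z (n 7684883 z (n 7684883 z z)))))) (n 1 (n 4780 z (n 5572 z (n 4780 z (n 4780 z (n
 4780 z (n 6627699 z z)))))) z)))) (n 62 (n 1 (n 3278619 z (n 3278619 z (n 3278619 z (n 3278619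
 z (n 3278619 z (n 3278619 z z)))))) (n 1 (n
 0x1f0db293a8a00c07727d949d44c0606e614ec8ec8403014eeb7646432018736d3b2a3a8901c011b6595194480e14cafac86e80407014eeb654430201809347bb2b29000c05b5a6ba80c8cf9c75039042b6ea04a637a9d40bd41fcba810e5a5875080000099a2d08e11026cbbeeaa1464545f0c7b14837c5060b419cb6bfcad7a13e276812298be8f892ebc7d880c96888545acac8be9929bec0e6d46816cb61785e6518a8d238185d97ef58d40d713bb4336350036685376b0d34a7cd3cf6a0902764844a3bd0c78a8f87b61c496b42b69861f63667781305a99e0e652b9a679a58e874bc7a401cf751a6083ea557343588253768e570b4999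
 z (n 7472731 z (n 4780 z (n 6620955 z (n 4780 z (n 4780 z z)))))) (n 1 (n 3278683 z (n 3278683
 z (n 7472731 z (n 3278683 z (n 3278683 z (n 3278683 z z)))))) (n 1 (n 4780 z (n 4780 z (n 4780
 z (n 5506843 z (n 4780 z (n 4780 z z)))))) (n 0 z (n 1 (n 4780 z (n 4652 z (n 4780 z (n 4780 z
 (n 4780 z (n 7472731 z z)))))) z)))))) (n 122 (n 0 z (n 1 (n 7614979 z (n 7614979 z (n 7614979
 z (n 7614979 z (n 7614979 z (n 7614979 z z)))))) (n 0 z (n 0 z (n 1 (n 4796 z (n 4652 z (n 4796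
 z (n 4796 z (n 4796 z (n 7472731 z z)))))) (n 1 (n 4796 z (n 4796 z (n 4796 z (n 5506843 z (n
 0x29f3e000eac766009a7f000756393003eff8003ab1d7800bcfc001d58c9c009d7e000eac76d00f5ff00075636e804ebf8003aa0db800bcfc001d5049c00a73e000ea836d00e93f0007541b2802f3f80321185b801b35c01908c23c009d7e000ca402c00e5f76ea00138e29d400590fcba800f99887508000007fa50a80b20b809b1c7e92f080047d7f8ac77fc38a7f2d6980e5ba7f8f84804efb7f9ebf7e173980c5ba7e8ed1833804803c87810c75807fd181dabd8014fd806a8b7edf7a7f054982e60a7f598682207a7f0e507def108110a080c7e97f20467f4fd080b25c80a45a7f5921803b9b806add7fc5c48031cf80d21c80f4c97ef3e280512e7f34a28026168115437faf3c81643a6919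
 z (n 4796 z z)))))) (n 1 (n 7684883 z (n 7684883 z (n 7684883 z (n 7684883 z (n 7684883 z (n
 7684883 z z)))))) z))))))) (n 3 (n 1 (n 5740 z (n 7472731 z (n 6563675 z (n 5740 z (n 5740 z (n
 5740 z z)))))) (n 0 z (n 1 (n 2164587 z (n 2164587 z (n 7472731 z (n 2164587 z (n 2164587 z (n
 2164587 z z)))))) (n 1 (n 7614979 z (n 7614979 z (n 7614979 z (n 7614979 z (n 7614979 z (n
 7614979 z z)))))) z)))) (n 0 (n 1 (n 6623347 z (n 4204 z (n 4204 z (n 4204 z (n 4204 z (n 4204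
 z z)))))) (n 1 (n 7684883 z (n 7684883 z (n 7684883 z (n 7684883 z (n 7684883 z (n 7684883 z
 z)))))) (n 1 (n 4204 z (n 4204 z (n 6625035 z (n 4204 z (n 4204 z (n 4204 z z)))))) (n 1 (n
 7611147 z (n 7611147 z (n 7611147 z (n 7611147 z (n 7611147 z (n 7611147 z z)))))) (n 1 (n
 7614979 z (n 7614979 z (n 7614979 z (n 7614979 z (n 7614979 z (n 7614979 z z)))))) (n 1 (n
 5378163 z (n 4204 z (n 4204 z (n 7472731 z (n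
 0x734eecaec260701be9f76575130380776fb293a8981c011f5590d90c80e00eedeecaca240300b36376465120180b44dbb1b29881c06890eb9085b4c6c7210bdcdd6e4216ce829c842ee3bcb90850c7b8721007b8faea000f71f1d4022ee3dba80063aa97508000008bc76e8161f17fc8c18f7272765b8a78766d7f264a878b227e57177dc4807b993385ae887f87807ca2a883a80477eade7f43cf8832d37a14187e4b2681942b8ccef581fa23805c946ae50f942a7c6a33407abfbe884f427ef1167b7d4072f3748b3b867a4e8a7f6d288115cf7a673e743db68349e08ae35272d14d85a9b982d7ec97bbcf7dd99f8407697cf1d9831b7b8869f83a99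
 z (n 4204 z z)))))) (n 1 (n 7614979 z (n 7614979 z (n 7614979 z (n 7614979 z (n 7614979 z (n
 7614979 z z)))))) (n 1 (n 7614979 z (n 7614979 z (n 7614979 z (n 7614979 z (n 7614979 z (n
 7614979 z z)))))) (n 1 (n 4204 z (n 4204 z (n 4204 z (n 4204 z (n 4204 z (n 7472731 z z))))))
 (n 1 (n 4204 z (n 476 z (n 4204 z (n 4204 z (n 4204 z (n 6627699 z z)))))) (n 1 (n 4204 z (n
 4204 z (n 4204 z (n 4204 z (n 4204 z (n 6625067 z z)))))) z))))))))))) (n 423 (n 1 (n 7610419 z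
 (n 7614979 z (n 7610419 z (n 7610419 z (n 7610419 z (n 7610419 z z)))))) (n 0 z (n 1 (n 7684883
 z (n 7614979 z (n 7684883 z (n 7684883 z (n 7684883 z (n 7684883 z z)))))) (n 1 (n 508 z (n
 7614979 z (n 7611147 z (n 2 z (n 508 z (n 6426739 z z)))))) z)))) (n 3 (n 1 (n 7406651 z (n
 7610419 z (n 4652 z (n 7611147 z (n 4780 z (n 7734059 z z)))))) (n 0 z (n 1 (n 2164587 z (n
 7610419 z (n 7611147 z (n 7406651 z (n 2164587 z (n 7734059 z z)))))) (n 1 (n 7614979 z (n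
 7614979 z (n 7614979 z (n 7614979 z (n 7614979 z (n 7614979 z z)))))) z)))) z))))))) (n 0 (n 0
 (n 0 z z) z) (n 0 (n 597 (n 0 (n 0 z z) (n 0 (n 0 z z) (n 0 (n 0 z z) (n 0 (n 0 z z) (n 0 (n 0
 z z) (n 0 (n 0 z z) (n 0 (n 0 z z) (n 0 (n 0 z z) z)))))))) (n 599 (n 0 (n 0 z z) (n 0 (n 0 z
 z) (n 0 (n 0 z z) (n 0 (n 0 z z) (n 0 (n 0 z z) (n 0 (n 0 z z) (n 0 (n 0 z z) (n 0 (n 0 z z) (n
 0 (n 0 z z) z))))))))) (n 581 (n 0 (n 0 z z) (n 0 (n 0 z z) (n 0 (n 0 z z) (n 0 (n 0 z z) (n 0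
 (n 0 z z) (n 0 (n 0 z z) (n 0 (n 0 z z) (n 0 (n 0 (n 5441563 z z) z) (n 0 (n 0 (n 8663555 z (n
 8663555 z z)) z) (n 0 (n 0 z z) (n 0 (n 0 z z) (n 0 (n 0 z z) (n 0 (n 0 z z) (n 0 (n 0 z z) (n
 0 (n 0 z z) (n 0 (n 0 z z) (n 0 (n 0 z z) (n 0 (n 0 z z) (n 0 (n 0 z z) (n 0 (n 0 z z) (n 0 (n
 0 z z) (n 0 (n 0 z z) (n 0 (n 0 z z) (n 0 (n 0 z z) (n 0 (n 0 z z) (n 0 (n 0 z z) (n 0 (n 0 (n
 0x527086a4a10c164281a38508093806dbc626898928c6a8b9f808f854482967f656bc4799055ba98676fa97651af79897b75638db0818665c77684609d790109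
 z (n 8790387 z z)) z) (n 0 (n 0 z z) (n 0 (n 0 z z) (n 0 (n 0 z z) (n 0 (n 0 z z) (n 0 (n 0 z
 z) z)))))))))))))))))))))))))))))))) (n 717 (n 0 (n 0 z z) (n 0 (n 0 z z) (n 0 (n 0 z z) (n 0
 (n 0 z z) (n 0 (n 0 z z) z))))) (n 581 (n 0 (n 0 z z) (n 0 (n 0 z z) (n 0 (n 0 z z) (n 0 (n 0 z
 z) (n 0 (n 0 z z) (n 0 (n 0 z z) (n 0 (n 0 z z) (n 0 (n 0 z z) z)))))))) (n 129 (n 0 (n 0 z z)
 (n 0 (n 0 (n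
 0x4438c20300c0dd91d8480e00ec2ec04070287687610180c3b432081c1a19219040e02ec6ec620780788181788584827c7b7f80867d82816f83777c7e868383848a7a887b86847f8577827f837d7d837f83838872887f807e7c3809
 z (n 8790387 z z)) z) (n 0 (n 0 z z) (n 0 (n 0 z z) (n 0 (n 0 z z) (n 0 (n 0 z z) (n 0 (n 0 (n
 8865307 z (n 8865307 z z)) z) (n 0 (n 0 (n 8663555 z z) z) (n 0 (n 0 z z) (n 0 (n 0 (n
 0x6109d41806010ed0ec007808181818081807f7f80807f818080808080808080808081818181817f7f8080807f808080817f808080808081808181817f1009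
 z (n
 0x4393a0b01c06189d8500e010ed0ec20380807f80807f7f808081808080808080808080808080808080808080808080808080808080808080808080808080808080811809
 z z)) z) (n 0 (n 0 z z) (n 0 (n 0 z z) (n 0 (n 0 z z) (n 0 (n 0 z z) (n 0 (n 0 z z) (n 0 (n 0 z
 z) (n 0 (n 0 z z) (n 0 (n 0 z z) (n 0 (n 0 z z) (n 0 (n 0 z z) (n 0 (n 0 z z) (n 0 (n 0 z z) (n
 0 (n 0 z z) (n 0 (n 0 z z) (n 0 (n 0 (n
 0x55874807d7f807a84828877857c7b89847c836f857382797a7c8782877c8479858083847980878781738c7486797c6f8f778580720049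
 z (n
 0xc38c38300c01d8dd8c40e010ed0ec00380808080807f80808080808080808080808080808080808080807f7f8080808080808080808080807f8080808080808180801809
 z z)) z) (n 0 (n 0 z z) (n 0 (n 0 z z) (n 0 (n 0 z z) (n 0 (n 0 z z) (n 0 (n 0 z z) (n 0 (n 0
 (n 8733459 z z) z) (n 0 (n 0 z z) (n 0 (n 0 z z) (n 0 (n 0 z z) (n 0 (n 0 z z) (n 0 (n 0 (n
 0x3387180777d847389818273848b838080807b828076828381837a849b6b947f7f808383778488838487837c8e837e6e807e7d817b0049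
 z (n 8660827 z z)) z) (n 0 (n 0 z z) (n 0 (n 0 (n 8663555 z z) z) (n 0 (n 0 z z) (n 0 (n 0 z z)
 (n 0 (n 0 z z) (n 0 (n 0 z z) (n 0 (n 0 z z) (n 0 (n 0 z z) (n 0 (n 0 z z) (n 0 (n 0 z z) (n 0
 (n 0 z z) (n 0 (n 0 z z) (n 0 (n 0 z z) (n 0 (n 0 z z) (n 0 (n 0 (n 8733459 z (n 8733459 z z))
 z) z))))))))))))))))))))))))))))))))))))))))))))))))))) (n 525 (n 0 (n 0 z z) (n 0 (n 0 z z) (n
 0 (n 0 z z) (n 0 (n 0 z z) (n 0 (n 0 z z) (n 0 (n 0 z z) (n 0 (n 0 (n 8733459 z z) z) (n 0 (n 0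
 (n 8733459 z z) z) (n 0 (n 0 (n 8733459 z (n 8733459 z z)) z) (n 0 (n 0 z z) (n 0 (n 0 z z) (n
 0 (n 0 z z) (n 0 (n 0 z z) (n 0 (n 0 z z) (n 0 (n 0 z z) (n 0 (n 0 (n
 0x43b438900c061d9d8480e010e70e420380818080808080808080808080808080808080808080808081817f7f80818080808080808080807f8080808080808080807f1809
 z z) z) (n 0 (n 0 z z) (n 0 (n 0 (n
 0x3387180777d847389818273848b838080807b828076828381837a849b6b947f7f808383778488838487837c8e837e6e807e7d817b0049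
 z (n
 0x2ecb0c840380808080808080808080808080808080808080808080808080808181808080808180808080808080808080808080808080810809
 z z)) z) (n 0 (n 0 z z) z))))))))))))))))))) (n 59 (n 0 (n 0 z z) (n 0 (n 0 (n 8663555 z z) z)
 (n 0 (n 0 z z) (n 0 (n 0 (n 8663555 z (n 8663555 z z)) z) (n 0 (n 0 z z) (n 0 (n 0 z z) (n 0 (n
 0 z z) (n 0 (n 0 z z) (n 0 (n 0 z z) (n 0 (n 0 (n 8663555 z z) z) (n 0 (n 0 z z) (n 0 (n 0 z z)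
 (n 0 (n 0 z z) (n 0 (n 0 z z) (n 0 (n 0 z z) (n 0 (n 0 z z) (n 0 (n 0 z z) z)))))))))))))))))
 (n 135 (n 0 (n 0 z z) (n 0 (n 0 (n 8663555 z z) z) (n 0 (n 0 z z) (n 0 (n 0 z z) (n 0 (n 0 (n
 8659723 z z) z) (n 0 (n 0 (n 8860259 z z) z) (n 0 (n 0 z z) (n 0 (n 0 z z) (n 0 (n 0 (n
 0x18737106038043b43b180c061da184c06010e70c62038080808181818080808080808080808080808080808080808080808080808080807f7e808080807f808080808080808080802009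
 z (n 8790387 z z)) z) (n 0 (n 0 z z) (n 0 (n 0 z z) (n 0 (n 0 z z) (n 0 (n 0 z z) (n 0 (n 0 z
 z) (n 0 (n 0 z z) (n 0 (n 0 (n 8658995 z (n 8658995 z z)) z) (n 0 (n 0 z z) (n 0 (n 0 z z) (n 0
 (n 0 z z) (n 0 (n 0 z z) (n 0 (n 0 z z) (n 0 (n 0 z z) z)))))))))))))))))))))) (n 3 (n 0 (n 0 z
 z) (n 0 (n 0 (n 8663555 z z) z) (n 0 (n 0 z z) (n 0 (n 0 z z) (n 0 (n 0 z z) (n 0 (n 0 z z) (n
 0 (n 0 z z) (n 0 (n 0 z z) (n 0 (n 0 z z) (n 0 (n 0 z z) (n 0 (n 0 z z) (n 0 (n 0 z z)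
 z)))))))))))) (n 423 (n 0 (n 0 z z) (n 0 (n 0 z z) (n 0 (n 0 z z) (n 0 (n 0 z z) z)))) (n 63 (n
 0 (n 0 z z) (n 0 (n 0 z z) (n 0 (n 0 z z) (n 0 (n 0 z z) (n 0 (n 0 z z) (n 0 (n 0 z z) z))))))
 (n 143 (n 0 (n 0 z z) (n 0 (n 0 z z) (n 0 (n 0 z z) (n 0 (n 0 z z) (n 0 (n 0 z z) (n 0 (n 0 z
 z) (n 0 (n 0 z z) z))))))) (n 3 (n 0 (n 0 z z) (n 0 (n 0 z z) (n 0 (n 0 (n 8873251 z z) z) (n 0
 (n 0 z z) (n 0 (n 0 z z) (n 0 (n 0 z z) (n 0 (n 0 z z) z))))))) (n 1 (n 0 (n 0 z z) (n 0 (n 0 z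
 z) (n 0 (n 0 z z) (n 0 (n 0 z z) (n 0 (n 0 z z) (n 0 (n 0 z z) (n 0 (n 0 z z) (n 0 (n 0 (n
 8663555 z z) z) (n 0 (n 0 z z) (n 0 (n 0 z z) (n 0 (n 0 z z) z))))))))))) (n 597 (n 0 (n 0 z z)
 (n 0 (n 0 z z) (n 0 (n 0 z z) (n 0 (n 0 z z) (n 0 (n 0 z z) z))))) (n 581 (n 0 (n 0 z z) (n 0
 (n 0 z z) (n 0 (n 0 z z) (n 0 (n 0 z z) (n 0 (n 0 z z) (n 0 (n 0 z z) (n 0 (n 0 z z) (n 0 (n 0
 z z) (n 0 (n 0 z z) (n 0 (n 0 z z) z)))))))))) (n 580 (n 0 (n 0 z z) (n 0 (n 0 z z) (n 0 (n 0 z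
 z) (n 0 (n 0 (n 8663555 z (n 8663555 z z)) z) (n 0 (n 0 (n 8663555 z z) z) (n 0 (n 0 z z) (n 0
 (n 0 z z) (n 0 (n 0 (n
 0x55810807d7f807a84828877857c7b89847c836f857382797a7c8782877c8479858083847980878781738c7486797c6f8f778580720049
 z (n 8790387 z z)) z) (n 0 (n 0 z z) (n 0 (n 0 z z) (n 0 (n 0 z z) (n 0 (n 0 z z) (n 0 (n 0 z
 z) (n 0 (n 0 z z) (n 0 (n 0 z z) (n 0 (n 0 z z) (n 0 (n 0 z z) (n 0 (n 0 z z) (n 0 (n 0 z z) (n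
 0 (n 0 z z) (n 0 (n 0 z z) (n 0 (n 0 z z) (n 0 (n 0 z z) (n 0 (n 0 z z) (n 0 (n 0 z z) (n 0 (n
 0 (n
 0x18e1d029c2184a843807c7f7e82807d877a8682877a7b827987837f8782818477868c7c8e7e7b85827e7e83877b8882817f89807e837b837f827d00c9
 z z) z) (n 0 (n 0 z z) (n 0 (n 0 z z) z)))))))))))))))))))))))))))) (n 3 (n 0 (n 0 z z) (n 0 (n
 0 z z) (n 0 (n 0 z z) (n 0 (n 0 z z) z)))) (n 1 (n 0 (n 0 z z) (n 0 (n 0 (n 8663555 z z) z) (n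
 0 (n 0 (n 8663555 z z) z) (n 0 (n 0 (n 8663555 z (n 8663555 z z)) z) (n 0 (n 0 z z) (n 0 (n 0 z
 z) (n 0 (n 0 z z) (n 0 (n 0 z z) (n 0 (n 0 z z) (n 0 (n 0 z z) (n 0 (n 0 z z) (n 0 (n 0 z z) (n
 0 (n 0 z z) (n 0 (n 0 z z) (n 0 (n 0 z z) (n 0 (n 0 z z) (n 0 (n 0 z z) (n 0 (n 0 z z) (n 0 (n
 0 z z) (n 0 (n 0 (n 8663555 z (n 8663555 z z)) z) (n 0 (n 0 (n 8663555 z (n 8663555 z z)) z) (n
 0 (n 0 z z) (n 0 (n 0 z z) (n 0 (n 0 z z) (n 0 (n 0 (n 8663555 z z) z)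
 z))))))))))))))))))))))))) (n 0 (n 0 (n 0 z z) (n 0 (n 0 z z) (n 0 (n 0 z z) (n 0 (n 0 z z) (n
 0 (n 0 z z) (n 0 (n 0 z z) z)))))) z))))))))))))))))))))) z)))) z) z)))) (n
 0x4d93a0bda541ed2204c7111b47b409a858452ce0c768433b4280 (n 0 (n 479 (n 0 z (n 6561843 z (n 0 z
 (n 0 z (n 2 z (n 0 z (n 0 z z))))))) (n 475 (n 0 z (n 10 z (n 0 z (n 3278363 z (n 0 z (n 18 z
 z)))))) (n 474 (n 0 z (n 26 z (n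
 0x2ca8ca82038208207e08228208207e082082181f7e17e08217a182079e95f81d8608607df7a08217e07df0801 z
 (n 34 z (n 0 z (n 6566403 z (n 0 z (n 6566403 z (n 0 z (n 0 z z)))))))))) (n 3 (n 0 z (n
 6566403 z (n 0 z (n 0 z (n 42 z (n 0 z (n 0 z z))))))) (n 1 (n 0 z (n 50 z (n
 0x2ca4ca42038208207e08228208207e082082181f7e17e08217a182079e95f81d8608607df7a08217e07df0801 z
 (n 58 z (n 0 z (n 6561843 z (n 0 z (n 6566403 z (n 0 z (n 0 z z)))))))))) (n 0 (n 0 z (n 66 z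
 (n 0 z (n 6631947 z (n 0 z (n 74 z z)))))) z)))))) (n 475 (n 0 (n 957 (n 0 z (n 0 z (n 0 z (n 0
 z (n 0 z (n 0 z (n 0 z (n 0 z (n 0 z (n 0 z (n 0 z (n 0 z (n 0 z (n 0 z (n 0 z (n 0 z
 z)))))))))))))))) (n 957 (n 0 z (n 0 z (n 0 z (n 0 z (n 0 z (n 0 z (n 0 z (n 0 z (n 0 z (n 0 z
 (n 0 z (n 0 z (n 0 z (n 0 z (n 0 z (n 2 (n 2 (n 0 z (n 0 z (n 0 z (n 0 z (n 0 (n 8860683 z z)
 (n 0 z z)))))) (n 1 z (n 1 z (n 2 (n 0 z (n 0 z (n 0 z (n 0 z (n 0 (n 204 z z) (n 0 z z))))))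
 (n 1 z (n 1 z (n 1 z z))))))) z)))))))))))))))) (n 953 (n 0 z (n 0 z (n 0 z (n 0 z (n 0 z (n 0
 z (n 0 z (n 0 z (n 0 z (n 0 z (n 0 z (n 0 z (n 0 z z))))))))))))) (n 953 (n 0 z (n 0 z (n 0 z
 (n 0 z (n 0 z (n 0 z (n 0 z (n 0 z (n 0 z (n 0 z (n 0 z (n 0 z (n 0 z z))))))))))))) (n 59 (n 0
 z (n 0 z (n 0 z (n 0 z (n 0 z (n 0 z (n 0 z (n 0 z (n 0 z (n 0 z (n 0 z (n 0 z (n 0 z (n 0 z (n
 0 z (n 0 z (n 0 z z))))))))))))))))) (n 51 (n 0 z (n 0 z (n 0 z (n 0 z (n 0 z (n 0 z (n 0 z (n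
 0 z (n 0 z (n 0 z z)))))))))) (n 51 (n 0 z (n 0 z (n 0 z (n 0 z (n 0 z (n 0 z (n 0 z (n 0 z (n
 0 z (n 0 z z)))))))))) (n 49 (n 0 z (n 0 z (n 0 z (n 0 z (n 0 z (n 0 z z)))))) (n 49 (n 0 z (n
 0 z (n 0 z (n 0 z (n 0 z (n 0 z z)))))) z))))))))) (n 0 (n 0 z (n 949 (n 0 z (n 0 z (n 0 z (n 0
 z (n 0 z (n 0 z (n 0 z (n 0 z (n 0 z (n 0 z (n 0 z z))))))))))) (n 949 (n 0 z (n 0 z (n 0 z (n
 0 z (n 0 z (n 0 z (n 0 z (n 0 z (n 0 z (n 0 z (n 0 z z))))))))))) (n 539 (n 0 z (n 0 z (n 0 z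
 (n 0 z (n 0 z z))))) (n 531 (n 0 z (n 0 z (n 0 z (n 0 z (n 0 z (n 0 z (n 0 z (n 0 z (n 0 z (n 0
 z z)))))))))) (n 531 (n 0 z (n 0 z (n 0 z (n 0 z (n 0 z (n 0 z (n 0 z (n 0 z (n 0 z (n 0 z
 z)))))))))) (n 529 (n 0 z (n 0 z (n 0 z (n 0 z (n 0 z (n 0 z (n 0 z (n 0 z (n 0 z (n 0 z
 z)))))))))) (n 529 (n 0 z (n 0 z (n 0 z (n 0 z (n 0 z (n 0 z (n 0 z (n 0 z (n 0 z (n 0 z
 z)))))))))) z)))))))) (n 0 (n 949 (n 0 z (n 0 z (n 0 z (n 0 z (n 0 z (n 0 z (n 0 z (n 0 z (n 0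
 z (n 0 z (n 0 z z))))))))))) (n 949 (n 0 z (n 0 z (n 0 z (n 0 z (n 0 z (n 0 z (n 0 z (n 0 z (n
 0 z (n 2 (n 1 z (n 2 (n 0 z (n 0 z (n 0 z (n 0 z (n 0 (n 5444 z z) (n 0 z z)))))) (n 1 z (n 1 z
 (n 1 z z))))) (n 0 z z))))))))))) (n 165 (n 0 z (n 0 z (n 0 z (n 0 z z)))) (n 1361 (n 0 z (n 0
 z (n 0 z (n 0 z (n 0 z (n 0 z (n 0 z z))))))) (n 1361 (n 0 z (n 0 z (n 0 z (n 0 z (n 0 z (n 0 z
 (n 0 z z))))))) (n 737 (n 0 z (n 0 z (n 0 z (n 0 z (n 0 z (n 0 z z)))))) (n 737 (n 0 z (n 0 z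
 (n 0 z (n 0 z (n 0 z (n 0 z z)))))) z))))))) (n 0 (n 0 z (n 507 (n 0 z (n 0 z (n 0 z (n 0 z
 z)))) (n 51 (n 0 z (n 0 z (n 0 z (n 0 z (n 0 z (n 0 z z)))))) (n 51 (n 0 z (n 0 z (n 2 (n 2 (n
 0 z (n 0 z (n 0 z (n 0 z (n 0 z (n 0 z z)))))) (n 2 (n 0 z (n 0 z (n 0 z (n 0 z (n 0 (n 212 z
 z) (n 0 z z)))))) z)) (n 0 z (n 0 z (n 0 z z)))))) (n 53 (n 0 z (n 0 z (n 0 z (n 0 z (n 0 z (n
 0 z (n 0 z (n 0 z (n 0 z (n 0 z z)))))))))) (n 53 (n 0 z (n 0 z (n 0 z (n 0 z (n 0 z (n 0 z (n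
 0 z (n 0 z (n 0 z (n 0 z z)))))))))) z)))))) (n 0 (n 247 (n 0 z (n 0 z (n 0 z (n 0 z (n 0 z (n
 0 z (n 0 z (n 0 z z)))))))) (n 243 (n 2 (n 0 z (n 2 (n 0 z (n 0 z (n 0 z (n 0 z (n 0 z (n 0 z
 z)))))) (n 2 (n 0 z (n 0 z (n 0 z (n 0 z (n 0 (n 8848171 z z) (n 0 z z)))))) z))) (n 0 z (n 0 z
 (n 0 z (n 0 z (n 0 z (n 0 z (n 0 z (n 0 z (n 0 z z)))))))))) (n 243 (n 0 z (n 0 z (n 0 z (n 0 z
 (n 0 z (n 0 z (n 0 z (n 0 z (n 0 z (n 0 z z)))))))))) (n 241 (n 0 z (n 0 z (n 0 z (n 0 z (n 0 z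
 (n 0 z (n 0 z z))))))) (n 241 (n 0 z (n 0 z (n 0 z (n 0 z (n 0 z (n 0 z (n 0 z z))))))) z)))))
 (n 0 (n 9 (n 0 z (n 0 z (n 0 z (n 0 z (n 0 z (n 0 z (n 0 z (n 0 z (n 0 z (n 0 z (n 0 z (n 0 z
 (n 0 z z))))))))))))) (n 9 (n 0 z (n 0 z (n 0 z (n 0 z (n 0 z (n 0 z (n 0 z (n 0 z (n 0 z (n 0
 z (n 0 z (n 0 z (n 0 z z))))))))))))) (n 5 (n 0 z (n 0 z (n 0 z (n 0 z (n 0 z (n 0 z (n 0 z (n
 0 z (n 0 z (n 0 z (n 0 z (n 0 z (n 0 z (n 0 z (n 0 z (n 0 z z)))))))))))))))) (n 5 (n 0 z (n 0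
 z (n 0 z (n 0 z (n 0 z (n 0 z (n 0 z (n 0 z (n 0 z (n 0 z (n 0 z (n 0 z (n 0 z (n 0 z (n 0 z (n
 2 z z)))))))))))))))) z)))) (n 0 (n 0 z (n 1081 (n 0 z (n 0 z (n 0 z (n 0 z (n 0 z (n 0 z (n 0
 z (n 0 z (n 0 z (n 0 z (n 0 z (n 0 z z)))))))))))) (n 1081 (n 0 z (n 0 z (n 0 z (n 0 z (n 0 z
 (n 0 z (n 0 z (n 0 z (n 0 z (n 0 z (n 0 z (n 0 z z)))))))))))) z))) (n 0 (n 1 (n 0 z (n 0 z (n
 0 z (n 0 z (n 0 z (n 0 z (n 0 z (n 0 z (n 0 z (n 0 z (n 0 z z))))))))))) (n 1 (n 0 z (n 0 z (n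
 0 z (n 0 z (n 0 z (n 0 z (n 0 z (n 0 z (n 0 z (n 0 z (n 2 z z))))))))))) z)) (n 0 (n 0 z z) (n
 0 z z)))))))))) (n 0 (n 0 z (n 1 (n 3836 z (n 28 z (n 3836 z (n 3836 z (n 3836 z (n 3836 z
 z)))))) (n 0 z (n 1 (n 3278363 z (n 3278363 z (n 3278363 z (n 3278363 z (n 3278363 z (n 3278363
 z z)))))) (n 0 z (n 1 (n 3836 z (n 3836 z (n 3836 z (n 3836 z (n 3836 z (n 3836 z z))))))
 z)))))) (n 0 z z)))) (n 0x1a96a8cdd5706ea9b0753d98a967416b66c234b640 (n 0 (n 153 (n 0 z (n 0 z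
 (n 2 z (n 0 z (n 3282443 z (n 0 z (n 0 z z))))))) (n 57 (n 6635827 z (n 6496515 z (n 6496515 z
 (n 0 z (n 0 z (n 6496515 z (n 10 z z))))))) (n 51 (n 0 z (n 0 z (n 18 z (n 6496515 z (n 26 z
 z))))) (n 123 (n 6496515 z (n 0 z (n 0 z (n 0 z (n 34 z z))))) (n 1 (n 6635827 z (n 0 z (n 0 z
 (n 0 z (n 42 z (n 0 z (n 0 z (n 0 z z)))))))) (n 0 (n 0 z (n 0 z (n 0 z (n 0 z (n 6635827 z (n
 6635827 z (n 6631747 z (n 0 z (n 0 z (n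
 0x164364120380c84c8400781e8a07dd8627e07e18207227df7e18608228a28607de92081e76085f8217e286186185d79f1001
 z (n 0 z (n
 0x4c86c8240381f7e08a382085f82086281e82089e82181f8238228227a081f8a29e07a085a82171d7e37df0801 z
 (n 0 z (n 0 z (n 0 z (n 0 z (n 0 z (n 50 z (n 0 z (n 58 z (n 6624315 z z)))))))))))))))))))))
 z)))))) (n 51 (n 0 (n 995 (n 0 z (n 0 z (n 0 z (n 0 z (n 0 z (n 0 z (n 0 z (n 0 z (n 0 z (n 0 z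
 (n 0 z (n 0 z (n 0 z (n 0 z z)))))))))))))) (n 151 (n 0 z (n 0 z (n 0 z (n 7741459 z (n 0 z
 z))))) (n 151 (n 0 z (n 0 z (n 0 z (n 0 z (n 0 z z))))) (n 27 (n 0 z (n 0 z (n 0 z (n 0 z (n 0
 z (n 0 z (n 0 z (n 0 z (n 0 z (n 0 z (n 0 z (n 0 z z)))))))))))) (n 243 (n 0 z (n 0 z (n 0 z (n
 0 z (n 0 z (n 0 z (n 0 z (n 0 z (n 0 z z))))))))) (n 25 (n 0 z (n 0 z (n 0 z (n 0 z (n 0 z (n 0
 z (n 0 z (n 0 z (n 0 z (n 0 z (n 0 z (n 7734059 z (n 0 z (n 0 z (n 0 z (n 0 z (n 0 z (n 0 z (n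
 0 z (n 0 z (n 0 z (n 0 z z)))))))))))))))))))))) (n 25 (n 0 z (n 0 z (n 0 z (n 0 z (n 0 z (n 0
 z (n 0 z (n 0 z (n 0 z (n 0 z (n 0 z (n 0 z (n 0 z (n 0 z (n 0 z (n 0 z (n 0 z (n 0 z (n 0 z (n
 0 z (n 0 z (n 0 z z)))))))))))))))))))))) z))))))) (n 0 (n 753 (n 0 z (n 0 z (n 0 z (n 0 z (n 0
 z (n 0 z (n 0 z (n 0 z (n 0 z (n 2 (n 0 z (n 2 (n 0 z (n 0 z (n 0 z (n 0 z (n 0 z (n 0 z
 z)))))) (n 2 (n 0 z (n 0 z (n 0 z (n 0 (n 8872531 z z) (n 0 z (n 0 z z)))))) (n 2 (n 0 z (n 0 z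
 (n 0 z (n 0 (n 8782635 z z) (n 0 z (n 0 z z)))))) (n 2 (n 0 z (n 0 z (n 0 z (n 0 z (n 0 z (n 0
 z z)))))) z))))) z)))))))))) (n 753 (n 0 z (n 0 z (n 0 z (n 0 z (n 0 z (n 0 z (n 0 z (n 0 z (n
 0 z (n 0 z z)))))))))) (n 55 (n 0 z (n 0 z (n 0 z (n 0 z (n 0 z (n 0 z (n 0 z (n 0 z z))))))))
 (n 111 (n 0 z (n 0 z (n 0 z (n 0 z (n 0 z (n 0 z (n 0 z (n 0 z (n 0 z (n 0 z (n 0 z (n 0 z
 z)))))))))))) (n 109 (n 0 z (n 0 z (n 0 z (n 0 z (n 0 z (n 0 z (n 0 z (n 0 z (n 0 z z)))))))))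
 (n 109 (n 0 z (n 0 z (n 0 z (n 0 z (n 0 z (n 0 z (n 2 z (n 0 z (n 0 z z))))))))) z)))))) (n 0
 (n 0 z (n 247 (n 0 z (n 0 z (n 0 z (n 0 z (n 0 z (n 0 z (n 0 z (n 0 z (n 2 (n 2 (n 0 z (n 0 z
 (n 0 z (n 0 z (n 0 z (n 0 z z)))))) (n 2 (n 0 z (n 0 z (n 0 z (n 0 z (n 0 z (n 0 z z)))))) (n 2
 (n 0 z (n 0 z (n 0 z (n 0 z (n 0 z (n 0 z z)))))) z))) z))))))))) (n 15 (n 0 z (n 0 z (n 0 z (n
 0 z (n 0 z (n 0 z (n 0 z (n 0 z (n 0 z (n 0 z (n 0 z (n 2 (n 2 (n 0 z (n 0 z (n 0 z (n 0 z (n 0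
 z (n 0 z z)))))) (n 2 (n 0 z (n 0 z (n 0 z (n 0 z (n 0 z (n 0 z z)))))) z)) z)))))))))))) (n 13
 (n 0 z (n 0 z (n 0 z (n 0 z (n 0 z (n 0 z (n 0 z (n 0 z (n 0 z (n 0 z (n 0 z (n 0 z (n 0 z (n 0
 z (n 0 z (n 0 z (n 0 z (n 0 z (n 0 z (n 0 z (n 0 z (n 2 (n 0 z z) z)))))))))))))))))))))) (n 13
 (n 0 z (n 0 z (n 0 z (n 0 z (n 0 z (n 0 z (n 0 z (n 0 z (n 0 z (n 0 z (n 0 z (n 0 z (n 0 z (n 0
 z (n 0 z (n 0 z (n 0 z (n 0 z (n 0 z (n 0 z (n 2 z (n 0 z z)))))))))))))))))))))) z))))) (n 0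
 (n 273 (n 0 z (n 0 z (n 0 z (n 0 z (n 0 z (n 0 z (n 0 z z))))))) (n 99 (n 0 z (n 0 z (n 0 z (n
 0 z (n 0 z (n 0 z (n 0 z (n 0 z (n 0 z z))))))))) (n 97 (n 0 z (n 0 z (n 0 z (n 0 z (n 0 z (n 0
 z (n 0 z (n 0 z (n 0 z (n 0 z (n 0 z z))))))))))) (n 97 (n 0 z (n 0 z (n 0 z (n 0 z (n 0 z (n 0
 z (n 0 z (n 0 z (n 0 z (n 0 z (n 0 z z))))))))))) z)))) (n 0 (n 51 (n 0 z (n 0 z (n 0 z (n 0 z
 z)))) (n 49 (n 0 z (n 0 z (n 0 z (n 0 z (n 0 z (n 0 z (n 0 z (n 0 z (n 0 z (n 0 z (n 0 z (n 0 z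
 (n 0 z (n 0 z (n 0 z (n 0 z (n 0 z (n 0 z (n 0 z z))))))))))))))))))) (n 49 (n 0 z (n 0 z (n 0
 z (n 0 z (n 0 z (n 0 z (n 0 z (n 0 z (n 0 z (n 0 z (n 0 z (n 0 z (n 0 z (n 0 z (n 0 z (n 2 z (n
 0 z (n 0 z (n 0 z z))))))))))))))))))) z))) (n 0 (n 1 (n 0 z (n 0 z (n 0 z (n 0 z (n 0 z (n 0 z
 (n 0 z (n 0 z (n 0 z (n 0 z (n 0 z (n 0 z (n 0 z (n 0 z (n 0 z (n 0 z (n 0 z (n 0 z (n 0 z (n 0
 z (n 0 z (n 0 z (n 0 z (n 0 z (n 0 z z))))))))))))))))))))))))) (n 1 (n 0 z (n 0 z (n 0 z (n 0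
 z (n 0 z (n 0 z (n 0 z (n 0 z (n 0 z (n 0 z (n 0 z (n 0 z (n 0 z (n 0 z (n 0 z (n 0 z (n 0 z (n
 0 z (n 0 z (n 0 z (n 0 z (n 0 z (n 0 z (n 0 z (n 0 z z))))))))))))))))))))))))) z)) (n 0 (n 0 z
 z) (n 0 z z)))))))) (n 0 (n 0 z (n 0 z (n 1 (n 4331019 z (n 1228 z (n 1228 z (n 1228 z (n 1228
 z (n 1228 z z)))))) (n 1 (n 6496515 z (n 6496515 z (n 6496515 z (n 6496515 z (n 6496515 z (n
 6496515 z z)))))) (n 1 (n 1228 z (n 1228 z (n 1228 z (n 1228 z (n 1228 z (n 1228 z z))))))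
 z))))) (n 0 z z)))) (n 0x4ce5a0eba582b72422e8d913570e1a2875109998a61d70066700 (n 0 (n 153 (n 2
 z (n 10 z (n 0 z (n 6496275 z (n 0 z (n 0 z z)))))) (n 33 (n 18 z (n 0 z (n 0 z (n 26 z (n 0 z
 (n 0 z (n 0 z (n 0 z (n 6496515 z z))))))))) (n 9 (n 6627395 z (n 6496515 z (n 0 z (n 34 z
 z)))) (n 243 (n 6496523 z (n 42 z (n 50 z (n 0 z (n 0 z (n 0 z (n 6496515 z (n 0 z z)))))))) (n
 1 (n 6558219 z (n 0 z (n 3212875 z (n 0 z (n 6558219 z (n 0 z (n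
 0x2ca4ca40078208a07a08227a182082082082081e82082082089e82082282281e8208208208207a176185f0801 z
 (n 58 z (n 0 z (n
 0xca6ca640785e8a17a17a07e07e37e27e182082282085f81f8208208207a07de8608218618618208208200801 z (n
 0x2ca6ca040781e8a27607e182086182086082086282082081e8207a08607e081f81f8208218208207df8200801 z
 (n 0 z z)))))))))))) (n 0 (n 66 z (n 6627395 z (n 74 z (n 0 z (n 0 z z))))) z)))))) (n 9 (n 0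
 (n 0 z (n 1223 (n 0 z (n 0 z (n 0 z (n 0 z z)))) (n 1223 (n 0 z (n 0 z (n 0 z (n 2 (n 1 z (n 2
 (n 0 z (n 0 (n 4884 z z) (n 0 z (n 0 z (n 0 z (n 0 z z)))))) (n 1 z (n 1 z (n 2 (n 0 z (n 0 (n
 8873267 z z) (n 0 z (n 0 z (n 0 z (n 0 z z)))))) (n 2 (n 0 z (n 0 (n 8803363 z z) (n 0 z (n 0 z
 (n 0 z (n 0 z z)))))) z)))))) z)))) (n 1239 (n 0 z (n 0 z (n 2 (n 1 z (n 1 z (n 1 z (n 1 z (n 1
 z z))))) z))) (n 1221 (n 0 z (n 0 z (n 2 (n 0 z (n 1 z (n 2 (n 0 z (n 0 z (n 0 z (n 0 z (n 0 z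
 (n 0 z z)))))) (n 2 (n 0 z (n 0 z (n 0 z (n 0 z (n 0 z (n 0 z z)))))) z)))) (n 0 z (n 0 z (n 0
 z (n 0 z (n 0 z (n 0 z (n 0 z (n 0 z (n 0 z (n 0 z z))))))))))))) (n 1221 (n 0 z (n 0 z (n 0 z
 (n 2 (n 1 z (n 2 (n 0 z (n 0 (n 2164859 z z) (n 0 z (n 0 z (n 0 z (n 0 z z)))))) (n 2 (n 0 z (n
 0 (n 8803363 z z) (n 0 z (n 0 z (n 0 z (n 0 z z)))))) z))) (n 0 z (n 0 z (n 0 z (n 0 z (n 0 z
 (n 0 z (n 0 z (n 0 z (n 0 z z))))))))))))) (n 303 (n 0 z (n 0 z (n 0 z (n 0 z (n 7754787 z (n 0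
 z (n 0 z (n 0 z z)))))))) (n 305 (n 0 z (n 0 z (n 0 z (n 0 z (n 0 z (n 2 (n 0 z z) z)))))) (n
 305 (n 0 z (n 0 z (n 0 z (n 0 z (n 0 z (n 0 z z)))))) z))))))))) (n 0 (n 1003 (n 0 z (n 0 z (n
 0 z (n 0 z (n 2 (n 0 z (n 2 (n 0 z (n 0 (n 8873267 z z) (n 0 z (n 0 z (n 0 z (n 0 z z)))))) (n
 2 (n 0 z (n 0 z (n 0 z (n 0 z (n 0 z (n 0 z z)))))) (n 2 (n 0 z (n 0 z (n 0 z (n 0 z (n 0 z (n
 0 z z)))))) (n 2 (n 0 z (n 0 z (n 0 z (n 0 z (n 0 z (n 0 z z)))))) (n 2 (n 0 z (n 0 z (n 0 z (n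
 0 z (n 0 z (n 0 z z)))))) (n 2 (n 0 z (n 0 z (n 0 z (n 0 z (n 0 z (n 0 z z)))))) z))))))) (n 0
 z z)))))) (n 1003 (n 0 z (n 0 z (n 0 z (n 0 z (n 0 z (n 0 z z)))))) (n 999 (n 0 z (n 0 z (n 0 z
 (n 0 z (n 0 z z))))) (n 1001 (n 0 z (n 0 z (n 0 z (n 0 z (n 0 z (n 0 z (n 0 z (n 0 z (n 0 z (n
 0 z (n 0 z (n 0 z (n 0 z (n 0 z (n 0 z (n 0 z (n 0 z (n 0 z (n 0 z (n 0 z (n 0 z (n 0 z (n 0 z
 (n 0 z (n 0 z (n 0 z (n 0 z (n 0 z (n 0 z (n 0 z (n 2 (n 0 z (n 2 (n 0 z (n 0 (n 8656747 z z)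
 (n 0 z (n 0 z (n 0 z (n 0 z z)))))) (n 1 z (n 2 (n 0 z (n 0 z (n 0 z (n 0 z (n 0 z (n 0 z
 z)))))) z)))) (n 0 z z)))))))))))))))))))))))))))))))) (n 1001 (n 0 z (n 0 z (n 0 z (n 0 z (n 0
 z (n 0 z (n 0 z (n 0 z (n 0 z (n 0 z (n 0 z (n 0 z (n 0 z (n 0 z (n 0 z (n 0 z (n 0 z (n 0 z (n
 0 z (n 0 z (n 0 z (n 0 z (n 0 z (n 0 z (n 0 z (n 0 z (n 0 z (n 0 z (n 0 z (n 0 z (n 0 z (n 0 z
 z)))))))))))))))))))))))))))))))) (n 309 (n 0 z (n 0 z (n 0 z z))) (n 305 (n 0 z (n 0 z (n 0 z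
 (n 0 z (n 0 z (n 0 z (n 0 z z))))))) (n 305 (n 0 z (n 0 z (n 0 z (n 0 z (n 0 z (n 0 z (n 2 z
 z))))))) z)))))))) (n 0 (n 0 z (n 1287 (n 0 z (n 0 z (n 0 z (n 2 (n 2 (n 0 z (n 0 z (n 0 z (n 0
 z (n 0 z (n 0 z z)))))) (n 2 (n 0 z (n 0 (n 8865035 z z) (n 0 z (n 0 z (n 0 z (n 0 z z)))))) (n
 2 (n 0 z (n 0 z (n 0 z (n 0 z (n 0 z (n 0 z z)))))) (n 2 (n 0 z (n 0 (n 8873267 z z) (n 0 z (n
 0 z (n 0 z (n 0 z z)))))) (n 2 (n 0 z (n 0 z (n 0 z (n 0 z (n 0 z (n 0 z z)))))) z))))) z))))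
 (n 513 (n 0 z (n 0 z (n 0 z (n 0 z (n 0 z (n 0 z (n 0 z (n 0 z (n 0 z (n 0 z (n 0 z (n 0 z (n 0
 z (n 0 z (n 0 z (n 0 z (n 2 (n 0 z (n 1 z (n 2 (n 0 z (n 0 z (n 0 z (n 0 z (n 0 z (n 0 z
 z)))))) (n 2 (n 0 z (n 0 z (n 0 z (n 0 z (n 0 z (n 0 z z)))))) z)))) (n 0 z (n 0 z (n 0 z (n 0
 z (n 0 z z)))))))))))))))))))))) (n 513 (n 0 z (n 0 z (n 0 z (n 0 z (n 0 z (n 0 z (n 0 z (n 0 z
 (n 0 z (n 0 z (n 0 z (n 0 z (n 0 z (n 0 z (n 0 z (n 0 z (n 0 z (n 0 z (n 2 (n 2 (n 0 z (n 0 z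
 (n 0 z (n 0 z (n 0 z (n 0 z z)))))) (n 2 (n 0 z (n 0 z (n 0 z (n 0 z (n 0 z (n 0 z z)))))) (n 2
 (n 0 z (n 0 z (n 0 z (n 0 z (n 0 z (n 0 z z)))))) z))) (n 0 z (n 0 z (n 0 z
 z)))))))))))))))))))))) (n 69 (n 0 z (n 0 z (n 0 z (n 7754787 z (n 0 z (n 0 z (n 0 z (n 0 z
 z)))))))) (n 65 (n 0 z (n 0 z (n 0 z (n 0 z (n 0 z (n 0 z (n 0 z (n 0 z (n 0 z (n 0 z (n 2 (n 0
 z z) z))))))))))) (n 65 (n 0 z (n 0 z (n 0 z (n 0 z (n 0 z (n 0 z (n 0 z (n 0 z (n 0 z (n 0 z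
 (n 0 z z))))))))))) z))))))) (n 0 (n 1019 (n 0 z (n 0 z (n 0 z (n 0 z (n 0 z (n 0 z (n 0 z (n 0
 z (n 0 z z))))))))) (n 513 (n 0 z (n 0 z (n 0 z (n 0 z (n 0 z (n 0 z (n 0 z (n 0 z (n 0 z (n 0
 z (n 0 z (n 0 z (n 0 z z))))))))))))) (n 513 (n 0 z (n 0 z (n 0 z (n 0 z (n 0 z (n 0 z (n 0 z
 (n 0 z (n 0 z (n 0 z (n 0 z (n 0 z (n 0 z z))))))))))))) (n 69 (n 0 z (n 0 z (n 0 z (n 0 z (n 0
 z (n 0 z (n 0 z (n 0 z z)))))))) (n 65 (n 0 z (n 0 z (n 0 z (n 0 z (n 0 z (n 0 z (n 0 z (n 0 z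
 (n 0 z (n 0 z (n 0 z z))))))))))) (n 65 (n 0 z (n 0 z (n 0 z (n 0 z (n 0 z (n 0 z (n 0 z (n 0 z
 (n 0 z (n 0 z (n 2 z z))))))))))) z)))))) (n 0 (n 1065 (n 0 z (n 0 z (n 0 z (n 0 z (n 0 z (n 0
 z (n 2 (n 0 z (n 1 z (n 1 z (n 2 (n 0 z (n 0 (n 8656747 z z) (n 0 z (n 0 z (n 0 z (n 0 z
 z)))))) z)))) z))))))) (n 1065 (n 0 z (n 0 z (n 0 z (n 0 z (n 0 z (n 0 z (n 0 z z))))))) (n 21
 (n 0 z (n 0 z (n 0 z (n 0 z (n 0 z (n 0 z (n 0 z (n 0 z (n 0 z (n 0 z (n 0 z (n 0 z (n 0 z (n 0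
 z (n 0 z (n 0 z (n 0 z (n 0 z (n 0 z (n 0 z (n 0 z (n 0 z (n 0 z (n 0 z (n 0 z (n 0 z (n 0 z (n
 0 z (n 0 z z))))))))))))))))))))))))))))) (n 17 (n 0 z (n 0 z (n 0 z (n 0 z (n 0 z (n 0 z (n 0
 z (n 0 z z)))))))) (n 17 (n 0 z (n 0 z (n 0 z (n 0 z (n 0 z (n 0 z (n 2 z (n 0 z z))))))))
 z))))) (n 0 (n 0 z (n 489 (n 0 z (n 0 z (n 0 z (n 0 z z)))) (n 485 (n 0 z (n 0 z (n 0 z (n 0 z
 (n 0 z (n 0 z (n 0 z (n 0 z (n 0 z (n 0 z z)))))))))) (n 485 (n 0 z (n 0 z (n 0 z (n 0 z (n 0 z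
 (n 2 z (n 0 z (n 0 z (n 0 z (n 0 z z)))))))))) z)))) (n 0 (n 489 (n 0 z (n 0 z (n 0 z (n 0 z (n
 0 z (n 0 z (n 0 z (n 0 z (n 0 z (n 0 z (n 0 z (n 0 z (n 0 z (n 0 z (n 0 z (n 0 z (n 0 z (n 0 z
 (n 0 z (n 0 z (n 0 z (n 0 z (n 0 z (n 0 z (n 0 z (n 0 z (n 0 z (n 0 z (n 0 z
 z))))))))))))))))))))))))))))) (n 53 (n 0 z (n 0 z (n 0 z (n 0 z (n 0 z (n 0 z (n 0 z (n 0 z (n
 0 z (n 0 z z)))))))))) (n 53 (n 0 z (n 0 z (n 0 z (n 0 z (n 0 z (n 0 z (n 2 z (n 0 z (n 0 z (n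
 0 z z)))))))))) z))) (n 0 (n 241 (n 0 z (n 0 z (n 0 z (n 0 z (n 0 z z))))) (n 241 (n 0 z (n
 7754787 z (n 0 z (n 0 z (n 0 z z))))) z)) (n 0 (n 0 z z) (n 0 z z)))))))))) (n 0 (n 1 (n
 6627395 z (n 6627395 z (n 6627395 z (n 6627395 z (n 6627395 z (n 6627395 z z)))))) (n 1 (n
 6496515 z (n 6496515 z (n 6496515 z (n 6496515 z (n 6496515 z (n 6496515 z z)))))) (n 0 z (n 1
 (n 1228 z (n 1228 z (n 3278427 z (n 6558219 z (n 12 z (n 6357803 z z)))))) z)))) (n 0 z z))))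
 (n 0x6ceaa35ad5c33aa6c1d4f6c2a5b6611 (n 0 (n 183 (n 0 z (n 0 z (n 3282443 z (n 0 z (n 0 z (n 0
 z (n 0 z z))))))) (n 257 (n 6635811 z (n 0 z (n 6635811 z (n 0 z (n 6624299 z (n 0 z (n
 0x2ca6ca40038217de8de8df7a291e76286082289e7dc7e575c8a191e8227e59207628a175c79d92071f9a00801 z
 (n 0 z (n 0 z (n
 0x8c86c860037e775e81f6639e481696b7e97dd7a08667db6ea6ea7a081b862962660aa385c7de9999dca5f0801 z
 (n 0 z (n 0 z (n 6627651 z (n 2 z z)))))))))))))) (n 129 (n 0 z (n 6627651 z (n 0 z (n 0 z (n 0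
 z (n 0 z (n 0 z (n 0 z (n 10 z z))))))))) (n 27 (n 0 z (n 0 z (n 2164283 z (n 0 z (n 18 z
 z))))) (n 1 (n 0 z (n 0 z (n 6635811 z (n 0 z (n 0 z (n 0 z (n 0 z (n 0 z (n 0 z (n 0 z (n 0 z
 (n 26 z z)))))))))))) (n 0 (n 0 z (n 0 z (n 0 z (n 0 z (n 0 z (n 0 z (n 0 z (n 0 z (n 0 z (n
 6635811 z (n 6635811 z (n
 0x6c86c860037e47de85f6e296281a8e87e681d7e08647de7667677e081c8618e26e09a285d81d91b91e95f0801 z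
 (n 0x2ca686400781f82081f7e085e8a08208608218a279f7e28607e07e081d8608637e085f7df7df8618608620801
 z (n 0 z (n
 0x4c86c860078a08207e07e082086181e8208a086086081f8218207a081e8207e082082082182185f8608200801 z
 (n 0x4ca686200782185e81f8208a08207e286086181f7df7e082182082081e8228607e08208217de8207e07e00801
 z (n 0 z (n 6624299 z (n 0 z (n 0 z (n 34 z (n 42 z z)))))))))))))))))))))) z)))))) (n 27 (n 0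
 (n 1161 (n 0 z (n 0 z (n 0 z (n 0 z (n 0 z (n 0 z (n 0 z (n 0 z (n 0 z (n 0 z (n 0 z (n 0 z (n
 0 z (n 0 z (n 0 z (n 0 z z)))))))))))))))) (n 513 (n 0 z (n 0 z (n 0 z (n 0 z (n 0 z (n 0 z (n
 0 z (n 0 z (n 0 z (n 0 z z)))))))))) (n 51 (n 0 z (n 0 z (n 0 z (n 0 z (n 0 z (n 0 z (n 0 z (n
 0 z (n 0 z (n 0 z (n 0 z (n 0 z z)))))))))))) (n 53 (n 0 z (n 0 z (n 0 z (n 0 z (n 2 (n 0 z z)
 (n 0 z (n 0 z (n 0 z z)))))))) (n 53 (n 0 z (n 0 z (n 0 z (n 0 z (n 0 z (n 0 z (n 0 z (n 0 z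
 z)))))))) z))))) (n 0 (n 273 (n 0 z (n 0 z (n 0 z (n 0 z (n 0 z (n 0 z (n 0 z z))))))) (n 261
 (n 0 z (n 0 z (n 0 z (n 0 z (n 0 z (n 0 z (n 0 z z))))))) (n 257 (n 0 z (n 2 (n 0 z z) (n 0 z
 (n 0 z (n 0 z (n 0 z (n 0 z (n 0 z (n 0 z (n 0 z (n 0 z (n 0 z z)))))))))))) (n 257 (n 0 z (n 0
 z (n 0 z (n 0 z (n 0 z (n 0 z (n 0 z (n 0 z (n 0 z (n 0 z (n 0 z (n 0 z z)))))))))))) z)))) (n
 0 (n 51 (n 0 z (n 0 z (n 0 z (n 0 z (n 0 z (n 0 z (n 0 z (n 0 z (n 0 z z))))))))) (n 49 (n 0 z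
 (n 0 z (n 0 z (n 0 z (n 0 z (n 0 z (n 0 z (n 0 z (n 0 z (n 0 z (n 0 z z))))))))))) (n 49 (n 0 z
 (n 0 z (n 0 z (n 0 z (n 0 z (n 0 z (n 0 z (n 0 z (n 0 z (n 0 z (n 0 z z))))))))))) z))) (n 0 (n
 53 (n 0 z (n 0 z (n 0 z (n 0 z (n 0 z (n 0 z (n 0 z z))))))) (n 53 (n 0 z (n 0 z (n 0 z (n 0 z
 (n 0 z (n 0 z (n 0 z z))))))) z)) (n 0 (n 0 z z) (n 0 z z)))))) (n 0 (n 0 z (n 0 z (n 1 (n
 2164283 z (n 2164283 z (n 6558475 z (n 2164283 z (n 2164283 z (n 2164283 z z)))))) (n 0 z (n 1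
 (n 1468 z (n 6558475 z (n 1468 z (n 1468 z (n 1468 z (n 1468 z z)))))) z))))) (n 0 z z)))) (n
 0xe51d224ce1b0668d903263700 (n 0 (n 279 (n 0 z (n 0 z (n 2 z (n 0 z (n 0 z (n 6557731 z (n 0 z
 (n 0 z (n 0 z z))))))))) (n 255 (n 0 z (n 10 z (n 0 z (n 6496515 z (n 6496515 z z))))) (n 9 (n
 0 z (n 0 z (n 0 z (n 0 z (n 18 z (n 6496515 z z)))))) (n 243 (n 0 z (n 0 z (n 0 z (n 0 z (n 0 z
 (n 0 z (n 0 z (n 0 z (n 6496515 z (n 0 z (n 0 z (n 0 z (n 0 z (n 0 z (n 0 z (n 0 z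
 z)))))))))))))))) (n 1 (n 26 z (n 6557731 z (n 0 z z))) (n 0 (n 34 z (n 0 z (n 0 z (n 0 z (n 0
 z (n 6623299 z (n 0 z (n 0 z (n 0 z (n 0 z z)))))))))) z)))))) (n 1 (n 0 (n 663 (n 0 z (n 0 z
 (n 0 z (n 0 z (n 0 z (n 0 z z)))))) (n 1245 (n 0 z (n 0 z (n 0 z (n 0 z (n 0 z z))))) (n 303 (n
 0 z (n 0 z (n 0 z (n 0 z (n 0 z (n 0 z z)))))) (n 557 (n 0 z (n 0 z (n 0 z (n 0 z z)))) z))))
 (n 0 (n 1259 (n 0 z (n 0 z (n 0 z (n 0 z (n 0 z (n 0 z (n 0 z z))))))) (n 69 (n 0 z (n 0 z (n 0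
 z (n 0 z (n 0 z z))))) (n 65 (n 0 z (n 0 z (n 0 z (n 0 z (n 0 z (n 0 z (n 0 z (n 0 z (n 0 z (n
 0 z z)))))))))) z))) (n 0 (n 99 (n 0 z (n 0 z (n 0 z (n 0 z (n 0 z (n 0 z (n 0 z (n 0 z
 z)))))))) (n 17 (n 0 z (n 0 z (n 0 z (n 0 z z)))) z)) (n 0 (n 1 (n 0 z (n 0 z (n 0 z (n 0 z
 z)))) z) (n 0 z z))))) (n 0 (n 1 (n 2236 z (n 2236 z (n 6623299 z (n 2236 z (n 2236 z (n 2236 z
 z)))))) (n 1 (n 6557731 z (n 6557731 z (n 6557731 z (n 6557731 z (n 6557731 z (n 6557731 z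
 z)))))) (n 0 z z))) (n 0 z z)))) z)))))))))), by decide +kernel⟩
theorem i10736 : ∃ t, chkR KT RW t 10736 10746 = true := ⟨(n 0x1d2da0e51d06d72e80d4ec089648b2b
 (n 0 (n 585 (n 6426691 z (n
 0x64364320180ca6ca42038208207e08207a08208208208208208218208218208208208607e081f82182081f7e186081f1001
 z (n 0x4163179aaa581f82b82175a6a68687e77a56967a47aebad9608a9b636a48a08e08a86a47299edb200041 z
 (n 0 z (n 0 z (n 0 z (n 6426691 z (n 0 z (n 0 z (n 0 z z)))))))))) (n 39 (n 0 z (n 0 z (n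
 6426691 z (n 0 z (n 0 z (n 0 z (n 0 z (n 0 z (n 0 z (n 0 z (n 0 z (n 0 z (n 0 z (n 0 z (n 0 z
 (n 0 z (n 0 z (n 0 z z)))))))))))))))))) (n 129 (n 0 z (n 0 z (n 0 z (n 0 z (n 6636051 z (n 0 z
 (n 0 z (n 0 z (n 0 z z))))))))) (n 3 (n 2 z (n 0 z (n 2164283 z (n 0 z (n 0 z (n 10 z (n 18 z
 (n 0 z (n 0 z z))))))))) (n 127 (n 6636051 z (n 0 z (n 0 z (n 0 z (n 0 z z))))) (n 0 (n 6636051
 z (n 26 z (n 34 z (n 42 z (n 0 z (n 0 z z)))))) z)))))) (n 127 (n 0 (n 0 z (n 0 z (n 5 (n 0 z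
 (n 0 z (n 0 z (n 0 z z)))) (n 5 (n 0 z (n 0 z (n 0 z (n 0 z z)))) (n 5 (n 0 z (n 0 z (n 0 z (n
 0 z z)))) z))))) (n 0 (n 0 z (n 13 (n 0 z (n 0 z (n 0 z (n 0 z (n 0 z (n 0 z (n 0 z (n 0 z (n 0
 z (n 0 z (n 0 z (n 0 z (n 0 z (n 0 z z)))))))))))))) (n 13 (n 0 z (n 0 z (n 0 z (n 0 z (n 0 z
 (n 0 z (n 0 z (n 0 z (n 0 z (n 0 z (n 0 z (n 0 z (n 0 z (n 0 z z)))))))))))))) (n 13 (n 0 z (n
 0 z (n 0 z (n 0 z (n 0 z (n 0 z (n 0 z (n 0 z (n 0 z (n 0 z (n 0 z (n 0 z (n 0 z (n 0 z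
 z)))))))))))))) z)))) (n 0 (n 49 (n 0 z (n 0 z (n 0 z (n 0 z (n 0 z (n 0 z z)))))) (n 49 (n 2
 (n 0 z z) (n 0 z (n 0 z (n 0 z (n 0 z (n 0 z z)))))) (n 49 (n 0 z (n 0 z (n 0 z (n 0 z (n 0 z
 (n 0 z z)))))) z))) (n 0 (n 0 z (n 0 z z)) (n 0 (n 0 z z) (n 0 z z)))))) (n 0 (n 1 (n 6636051 z
 (n 6636051 z (n 6636051 z (n 6636051 z (n 6636051 z (n 6636051 z z)))))) (n 0 z (n 0 z (n 0 z
 (n 0 z z))))) (n 0 z z)))) (n 0x8dc54388ba0e4e5d4329e81a8e20e5716700 (n 0 (n 549 (n 6557731 z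
 (n 0 z (n 0 z (n 0 z (n 0 z (n 0 z (n 2 z (n 0 z (n 0 z (n 0 z (n 0 z z))))))))))) (n 547 (n 0
 z (n 0 z (n 6496515 z (n 0 z (n 0 z (n 0 z (n 0 z z))))))) (n 9 (n 6496515 z (n 6562059 z (n 0
 z (n 0 z (n 0 z (n 0 z (n 0 z z))))))) (n 243 (n 0 z (n
 0x265354020182ca8ca800789f81e8628217df85f81f8608208608208608618207e18207e181f81e7e082182086086185f1001
 z (n 10 z (n 0 z (n
 0xcca6a802078df7de7e58de7dc86075c7da9df7637a28227e28a08616e082191e85f7a37197a199f8237e20801 z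
 (n 0 z (n 6496515 z (n 0 z (n 0 z (n 18 z (n 26 z (n 6496515 z z)))))))))))) (n 1 (n 6557731 z
 (n 0 z (n 0 z (n 0 z (n 0 z (n 0 z (n 0 z (n 0 z (n 0 z (n 0 z (n 0 z (n 0 z z)))))))))))) (n 0
 (n 2164315 z (n 34 z (n 0 z (n 42 z (n 0 z (n 50 z (n 0 z (n 0 z z)))))))) z)))))) (n 547 (n 0
 (n 1093 (n 0 z (n 0 z (n 0 z (n 0 z (n 0 z (n 0 z (n 0 z (n 0 z (n 0 z (n 0 z (n 0 z (n 0 z (n
 0 z (n 0 z (n 0 z (n 0 z (n 0 z (n 0 z (n 0 z (n 0 z (n 0 z (n 0 z (n 0 z (n 0 z (n 0 z (n 0 z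
 (n 0 z (n 0 z (n 0 z z))))))))))))))))))))))))))))) (n 1093 (n 0 z (n 0 z (n 0 z (n 0 z (n 0 z
 (n 0 z (n 0 z (n 0 z (n 0 z (n 0 z (n 0 z (n 0 z (n 0 z (n 0 z (n 0 z (n 0 z (n 0 z (n 0 z (n 0
 z (n 0 z (n 0 z (n 0 z (n 0 z (n 0 z (n 0 z (n 0 z (n 0 z (n 0 z (n 0 z
 z))))))))))))))))))))))))))))) (n 1093 (n 0 z (n 0 z (n 0 z (n 0 z (n 6563643 z (n 0 z (n 0 z
 (n 0 z (n 0 z (n 0 z (n 0 z (n 0 z (n 0 z (n 0 z (n 0 z (n 0 z (n 0 z (n 0 z (n 0 z (n 0 z (n 0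
 z (n 0 z (n 0 z (n 0 z (n 0 z (n 0 z (n 0 z (n 0 z (n 0 z z))))))))))))))))))))))))))))) (n 637
 (n 0 z (n 0 z (n 0 z (n 0 z (n 0 z (n 0 z (n 0 z (n 0 z (n 0 z (n 0 z (n 0 z (n 0 z (n 0 z (n 0
 z (n 0 z (n 0 z (n 0 z z))))))))))))))))) (n 637 (n 0 z (n 0 z (n 0 z (n 0 z (n 0 z (n 0 z (n 0
 z (n 0 z (n 0 z (n 0 z (n 0 z (n 0 z (n 0 z (n 0 z (n 0 z (n 0 z (n 0 z z))))))))))))))))) (n
 637 (n 0 z (n 0 z (n 0 z (n 0 z (n 0 z (n 0 z (n 0 z (n 0 z (n 0 z (n 0 z (n 0 z (n 0 z (n 0 z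
 (n 0 z (n 0 z (n 0 z (n 0 z z))))))))))))))))) z)))))) (n 0 (n 0 z (n 0 z (n 533 (n 0 z (n 0 z
 (n 0 z (n 0 z (n 0 z (n 0 z (n 0 z (n 0 z (n 0 z z))))))))) (n 533 (n 0 z (n 0 z (n 0 z (n 0 z
 (n 0 z (n 0 z (n 0 z (n 0 z (n 0 z z))))))))) (n 533 (n 0 z (n 0 z (n 0 z (n 0 z (n 0 z (n 0 z
 (n 0 z (n 0 z (n 0 z z))))))))) z))))) (n 0 (n 0 z (n 533 (n 0 z (n 0 z (n 0 z (n 0 z (n 0 z (n
 0 z (n 0 z (n 0 z (n 0 z z))))))))) (n 533 (n 0 z (n 0 z (n 0 z (n 0 z (n 0 z (n 0 z (n 0 z (n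
 0 z (n 0 z z))))))))) (n 533 (n 0 z (n 0 z (n 0 z (n 0 z (n 0 z (n 0 z (n 0 z (n 0 z (n 0 z
 z))))))))) z)))) (n 0 (n 241 (n 2 (n 0 z (n 0 z z)) (n 0 z (n 0 z (n 0 z (n 0 z (n 0 z (n 0 z
 (n 0 z z)))))))) (n 241 (n 0 z (n 0 z (n 0 z (n 0 z (n 0 z (n 0 z (n 0 z (n 0 z z)))))))) (n
 241 (n 0 z (n 0 z (n 0 z (n 0 z (n 0 z (n 0 z (n 0 z (n 0 z z)))))))) z))) (n 0 (n 0 z (n 0 z
 z)) (n 0 (n 0 z z) (n 0 z z))))))) (n 0 (n 0 z (n 0 z (n 1 (n 6496515 z (n 6496515 z (n 6496515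
 z (n 6496515 z (n 6496515 z (n 6496515 z z)))))) (n 0 z (n 0 z (n 0 z (n 0 z z))))))) (n 0 z
 z)))) (n 0x6d5c02e8e80f4b80 (n 0 (n 299 (n 6492195 z (n 0 z (n 0 z (n 0 z (n 6561875 z (n 0 z
 (n 0 z (n 0 z (n 0 z (n 0 z (n 0 z (n 2 z (n 10 z (n 18 z z)))))))))))))) (n 57 (n 0 z (n 0 z
 (n 0 z (n 6492195 z (n 0 z (n 0 z (n 0 z (n 0 z z)))))))) (n 9 (n 0 z (n 0 z (n 6566403 z (n 0
 z (n 0 z (n 0 z z)))))) (n 3 (n 6566403 z (n 0 z (n 0 z (n 0 z (n 0 z (n 0 z z)))))) (n 1 (n 0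
 z (n 0 z (n 6566403 z (n 0 z (n 0 z (n 0 z (n 0 z z))))))) (n 0 (n 0 z (n 0 z (n 0 z (n 0 z (n
 6627379 z (n 0 z (n 0 z (n 0 z (n 0 z (n 0 z (n 0 z (n 0 z (n 0 z (n 0 z (n 0 z (n 0 z (n 0 z
 (n 0 z (n 0 z (n 0 z (n 0 z z))))))))))))))))))))) z)))))) (n 9 (n 0 (n 0 z (n 0 z z)) (n 0 (n
 0 z z) (n 0 z z))) (n 0 (n 0 z (n 0 z (n 1 (n 6566403 z (n 6566403 z (n 6566403 z (n 6566403 z
 (n 6566403 z (n 6566403 z z)))))) (n 0 z (n 0 z (n 0 z z)))))) (n 0 z z)))) (n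
 0xca9dd04a9d822ae51a6648a9bd08a9130268978424ca19d0ca0225a00995004bd40 (n 0 (n 153 (n 2 z (n 10
 z (n 18 z (n 0 z (n 6492227 z (n 6492227 z (n
 0xeca6a642077d82807e83817f7e7a7e837c80847f828288827e83827e8281808780757e817e847a7e838382797f818583808382848084810809
 z (n 0 z (n 26 z (n 6488603 z (n 6488603 z z))))))))))) (n 57 (n 34 z (n 42 z (n 6496515 z (n
 6492227 z (n 0 z z))))) (n 9 (n 50 z (n 0 z (n 58 z (n 6496515 z z)))) (n 123 (n 66 z (n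
 0x2ca8ca84078080808080817f8080807f7f80807f808181807f80807e80808080807f7f818081807f8080818080808080808080807f80800809
 z (n 6492227 z (n 0 z (n 6492227 z (n 74 z (n 6496515 z (n 82 z (n 90 z (n 6488603 z (n 6488603
 z (n 6488603 z z)))))))))))) (n 1 (n 6562099 z (n 0 z (n 0 z (n 0 z (n 0 z (n 0 z z)))))) (n 0
 (n 0 z (n 98 z (n 0 z (n 6636299 z (n 0 z (n 0 z (n 0 z (n 0 z (n 0 z (n 0 z (n 0 z (n 0 z (n 0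
 z (n 0 z z)))))))))))))) z)))))) (n 9 (n 0 (n 0 z (n 0 z (n 0 z (n 1007 (n 0 z (n 0 z (n 0 z (n
 0 z (n 0 z (n 0 z (n 0 z (n 0 z (n
 0x4ecaeca407807f80808082817f80808080808180817f80817f80807f8080808080808181808080808080808080808081818082818080800809
 z (n 0 z (n 0 z z))))))))))) (n 1007 (n 0 z (n 0 z (n 0 z (n 0 z (n 0 z (n 0 z (n 0 z (n 0 z (n
 0 z (n 0 z (n 0 z z))))))))))) (n 1005 (n 0 z (n 0 z (n 0 z (n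
 0x473176050383ba8ba8181c09d4dd4c40e18ea6ca6207727f80718584847a80848a70a0a47b8f7987a0818e7877787778807e6b937881568d8496817d738c917f8a7c7a817c82807c2009
 z (n 0 z (n 0 z (n 0 z (n 0 z (n 0 z (n 0 z (n 0 z (n 0 z (n 0 z (n 0 z (n 0 z (n 0 z (n 0 z (n
 0 z (n 0 z (n 0 z (n 0 z (n 0 z (n 0 z (n 0 z (n 0 z (n 0 z (n 0 z (n 0 z (n 0 z (n 0 z (n 0 z
 (n 0 z (n 0 z z))))))))))))))))))))))))))))))))) (n 1005 (n 0 z (n 0 z (n 0 z (n 0 z (n 0 z (n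
 0 z (n 0 z (n 0 z (n 0 z (n 0 z (n 0 z (n 0 z (n 0 z (n 0 z (n 0 z (n 0 z (n 2 (n 1 z (n 2 (n 0
 z (n 0 z (n 0 z (n 0 z (n 0 z (n 0 z z)))))) (n 1 z (n 2 (n 0 z (n 0 z (n 0 (n 4262011 z z) (n
 0 z (n 0 z (n 0 z z)))))) (n 1 z z))))) (n 0 z (n 0 z (n 0 z (n 0 z (n 0 z (n 0 z (n 0 z (n 0 z
 (n 0 z (n 0 z (n 0 z (n 0 z (n 0 z (n 0 z (n 0 z (n 0 z z))))))))))))))))))))))))))))))))) (n
 1153 (n 0 z (n 0 z (n 0 z (n 0 z (n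
 0x2ecaeca4077f8080808082807f80808080808080808081807f7f807f8080808080808080808080818080808080818181818081808080800809
 z (n
 0x63b2bb2901c1594d94c40e08ea6ca02077c77806e83837d78737e80828e917d8882918f798a84777c7b827f80557c887f83808791888871848c908a768384897d8a7f1809
 z (n 0 z (n 0 z (n 0 z (n 0 z (n 0 z z))))))))))) (n 1153 (n 0 z (n 0 z (n 0 z (n 0 z (n 0 z (n
 0 z (n 0 z (n 0 z (n 0 z (n 2 (n 0 z (n 0 z (n 2 (n 0 z (n 0 z (n 0 z (n 0 z (n 0 z (n 0 z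
 z)))))) z))) (n 0 z z))))))))))) (n 1153 (n 0 z (n 0 z (n 2 (n 0 z (n 2 (n 0 z (n 0 z (n 0 (n
 8864531 z (n 8864531 z z)) (n 0 z (n 0 z (n 0 (n 8864531 z z) z)))))) z)) (n 0 z (n 0 z (n 0 z
 (n 0 z (n 0 z (n 0 z (n 0 z (n 0 z z))))))))))) (n 1153 (n 0 z (n 0 z (n 0 z (n 2 (n 2 (n 0 z
 (n 0 z (n 0 (n 1220 z (n 1220 z z)) (n 0 z (n 0 z (n 0 (n 1220 z z) z)))))) z) (n 0 z (n 0 z (n
 0 z (n 0 z (n 0 z (n 0 z (n 0 z z))))))))))) (n 305 (n 0 z (n 0 z (n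
 0x2ec8ec84078080808080817f8080807f7f80807f808181807f80807e80808080807f7f818081807f8080818080808080808080807f80800809
 z (n 0 z (n 0 z (n 0 z (n 0 z (n 0 z (n 0 z (n 0 z (n 0 z z))))))))))) z)))))))))))) (n 0 (n 0
 z (n 0 z (n 1007 (n 0 z (n 0 z (n 0 z (n 0 z (n 0 z (n 0 z (n 0 z z))))))) (n 1007 (n 0 z (n 0
 z (n 0 z (n 0 z (n 0 z (n 0 z (n
 0x4ecaeca407807f80808082817f80808080808180817f80817f80807f8080808080808181808080808080808080808081818082818080800809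
 z z))))))) (n 999 (n 0 z (n 0 z (n 0 z (n 0 z (n 0 z (n 0 z (n 0 z (n 0 z (n 0 z (n 0 z (n 0 z
 (n 0 z (n 0 z (n 0 z (n 0 z (n 0 z (n 0 z (n 0 z (n 0 z (n 0 z (n 0 z (n 0 z (n 0 z (n 0 z (n 0
 z (n 0 z (n 0 z z))))))))))))))))))))))))))) (n 999 (n 0 z (n 2 (n 1 z (n 1 z (n 1 z (n 1 z (n
 1 z z))))) (n 0 z (n 0 z (n 0 z (n 0 z (n 0 z (n 0 z (n 0 z (n 0 z (n 0 z (n 0 z (n 0 z (n 0 z
 (n 0 z (n 0 z (n 0 z (n 0 z (n 0 z (n 0 z (n 0 z (n 0 z (n 0 z (n 0 z (n 0 z (n 0 z (n 0 z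
 z))))))))))))))))))))))))))) (n 997 (n 0 z (n 0 z (n 0 z (n 0 z (n 0 z (n 0 z (n 0 z (n 0 z (n
 0 z (n 0 z (n 0 z (n 0 z z)))))))))))) (n 997 (n 0 z (n 0 z (n 0 z (n 0 z (n 0 z (n 0 z (n 0 z
 (n 0 z (n 2 (n 0 z (n 0 z (n 1 z z))) (n 0 z (n 0 z (n 0 z z)))))))))))) (n 997 (n 0 z (n 0 z
 (n 0 z (n 0 z (n 7750419 z (n 0 z (n 0 z (n 0 z (n 0 z (n 0 z (n 0 z (n 0 z z)))))))))))) (n
 997 (n 0 z (n 0 z (n 0 z (n 0 z (n 0 z (n 2 (n 1 z z) (n 0 z (n 0 z (n 0 z (n 0 z (n 0 z (n 0 z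
 z)))))))))))) (n 305 (n 0 z (n 0 z (n 0 z (n 0 z (n 0 z (n 0 z (n 0 z (n 0 z (n 0 z (n 0 z (n 0
 z (n 0 z (n 0 z (n 0 z (n 0 z (n 0 z (n 0 z (n 0 z (n 0 z (n 0 z (n 0 z z)))))))))))))))))))))
 z))))))))))) (n 0 (n 0 z (n 179 (n 0 z (n 0 z (n 0 z z))) (n 179 (n 0 z (n 0 z (n 0 z z))) (n
 177 (n 0 z (n 0 z (n 0 z (n 0 z (n 0 z (n 0 z z)))))) (n 177 (n 0 z (n 0 z (n 0 z (n 0 z (n 0 z
 (n 0 z z)))))) (n 997 (n 0 z (n 0 z (n 0 z (n 0 z (n 0 z (n 0 z (n 0 z (n 0 z (n 0 z z)))))))))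
 (n 997 (n 0 z (n 0 z (n 0 z (n 0 z (n 0 z (n 0 z (n 0 z (n 0 z (n 0 z z))))))))) (n 997 (n 0 z
 (n 0 z (n 0 z (n 0 z (n 0 z (n 0 z (n 0 z (n 0 z (n 0 z z))))))))) (n 997 (n 0 z (n 0 z (n 0 z
 (n 0 z (n 0 z (n 0 z (n 0 z (n 0 z (n 0 z z))))))))) (n 121 (n 0 z (n 0 z (n 0 z (n 0 z (n 0 z
 (n 0 z (n 0 z (n 0 z (n 0 z z))))))))) z)))))))))) (n 0 (n 751 (n 2 (n 0 z (n 1 z (n 1 z (n 1 z
 (n 2 (n 0 z (n 0 z (n 0 z (n 0 z (n 0 z (n 0 z z)))))) (n 1 z (n 2 (n 0 z (n 0 z (n 0 (n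
 8795179 z z) (n 0 z (n 0 z (n 0 z z)))))) (n 1 z z)))))))) (n 0 z (n 0 z (n 0 z (n 0 z (n 0 z
 (n 0 z (n 0 z (n 0 z (n 0 z z)))))))))) (n 751 (n 0 z (n 2 (n 1 z (n 1 z (n 1 z (n 2 (n 0 z (n
 0 z (n 0 z (n 0 z (n 0 z (n 0 z z)))))) (n 1 z (n 2 (n 0 z (n 0 z (n 0 (n 8795179 z z) (n 0 z
 (n 0 z (n 0 z z)))))) (n 1 z z))))))) (n 0 z (n 0 z (n 0 z (n 0 z (n 0 z (n 0 z (n 0 z (n 0 z
 z)))))))))) (n 1173 (n 0 z (n 0 z (n 0 z (n 0 z (n 0 z (n 0 z (n 0 z (n 0 z (n 0 z (n 0 z (n 0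
 z (n 0 z (n 0 z (n 0 z (n 0 z (n 0 z (n 0 z (n 0 z (n 0 z (n 0 z (n 0 z (n 0 z (n 0 z (n 0 z (n
 0 z (n 0 z (n 0 z (n 2 (n 0 z (n 1 z (n 2 (n 0 z (n 0 z (n 0 (n 4676 z z) (n 0 z (n 0 z (n 0 z
 z)))))) (n 1 z (n 1 z (n 1 z z)))))) (n 0 z (n 0 z z)))))))))))))))))))))))))))))) (n 1173 (n 0
 z (n 0 z (n 0 z (n 0 z (n 0 z (n 0 z (n 0 z (n 0 z (n 0 z (n 0 z (n 0 z (n 0 z (n 0 z (n 0 z (n
 0 z (n 0 z (n 0 z (n 0 z (n 0 z (n 0 z (n 0 z (n 0 z (n 0 z (n 0 z (n 0 z (n 0 z (n 0 z (n 0 z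
 (n 0 z (n 0 z z)))))))))))))))))))))))))))))) (n 1169 (n 0 z (n 0 z (n 0 z (n 0 z (n 0 z (n 0 z
 (n 2 (n 0 z (n 0 z (n 0 z (n 1 z z)))) z))))))) (n 1169 (n 0 z (n 0 z (n 0 z (n 0 z (n 0 z (n 0
 z (n 0 z z))))))) (n 1169 (n 0 z (n 0 z (n 0 z (n 0 z (n 0 z (n 0 z (n 0 z z))))))) (n 1169 (n
 0 z (n 0 z (n 0 z (n 0 z (n 0 z (n 0 z (n 0 z z))))))) (n 305 (n 0 z (n 0 z (n 0 z (n 0 z (n 0
 z (n 0 z (n 0 z (n 0 z (n 0 z (n 0 z (n 2 z (n 0 z (n 0 z (n 0 z (n 0 z (n 0 z (n 0 z (n 0 z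
 z)))))))))))))))))) z))))))))) (n 0 (n 0 z (n 1047 (n 0 z (n 0 z (n 0 z (n 0 z (n 0 z (n 0 z (n
 0 z (n 0 z z)))))))) (n 1047 (n 2 (n 1 z (n 2 (n 0 z (n 0 z (n 0 z (n 0 z (n 0 z (n 0 z z))))))
 (n 1 z (n 2 (n 0 z (n 0 z (n 0 (n 4262011 z z) (n 0 z (n 0 z (n 0 z z)))))) (n 1 z z))))) (n 0
 z (n 0 z (n 0 z (n 0 z (n 0 z (n 0 z (n 0 z z)))))))) (n 1045 (n 0 z (n 0 z (n 0 z (n 0 z (n 0
 z (n 0 z (n 0 z (n 0 z (n 0 z (n 0 z z)))))))))) (n 1045 (n 0 z (n 0 z (n 0 z (n 0 z (n 0 z (n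
 0 z (n 0 z (n 0 z (n 0 z (n 2 (n 0 z (n 0 z (n 2 (n 0 z (n 0 z (n 0 (n 3278955 z (n 3278955 z
 z)) (n 0 z (n 0 z (n 0 (n 3278955 z z) z)))))) z))) z)))))))))) (n 1045 (n 0 z (n 0 z (n 0 z (n
 0 z (n 2 (n 0 z (n 1 z z)) (n 0 z (n 0 z (n 0 z (n 0 z (n 0 z z)))))))))) (n 1045 (n 0 z (n 0 z
 (n 0 z (n 2 (n 2 (n 0 z (n 0 z (n 0 (n 3278955 z (n 3278955 z z)) (n 0 z (n 0 z (n 0 (n 3278955
 z z) z)))))) z) (n 0 z (n 0 z (n 0 z (n 0 z (n 0 z (n 0 z z)))))))))) (n 113 (n 0 z (n 0 z (n 0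
 z (n 0 z (n 0 z (n 0 z (n 0 z (n 0 z (n 0 z (n 0 z (n 0 z (n 0 z (n 0 z (n 0 z (n 0 z (n 0 z (n
 0 z (n 0 z z)))))))))))))))))) z)))))))) (n 0 (n 1053 (n 0 z (n 0 z (n 0 z (n 0 z (n 0 z (n 0 z
 (n 0 z (n 0 z z)))))))) (n 1053 (n 0 z (n 0 z (n 2 (n 1 z (n 2 (n 0 z (n 0 z (n 0 z (n 0 z (n 0
 z (n 0 z z)))))) (n 1 z (n 2 (n 0 z (n 0 z (n 0 (n 4262011 z z) (n 0 z (n 0 z (n 0 z z)))))) (n
 1 z z))))) (n 0 z (n 0 z (n 0 z (n 0 z (n 0 z z)))))))) (n 1045 (n 0 z (n 0 z (n 0 z (n 0 z (n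
 0 z (n 0 z (n 0 z (n
 0x4ecaeca407807f80808082817f80808080808180817f80817f80807f8080808080808181808080808080808080808081818082818080800809
 z (n 0 z (n 0 z (n 0 z z))))))))))) (n 1045 (n 0 z (n 0 z (n 0 z (n 0 z (n 0 z (n 0 z (n 0 z (n
 0 z (n 0 z (n 0 z (n 2 (n 0 z (n 0 z (n 2 (n 0 z (n 0 (n 452 z z) (n 0 (n 452 z (n 452 z z)) (n
 0 (n 452 z z) (n 0 z (n 0 z z)))))) z))) z))))))))))) (n 1045 (n 0 z (n 0 z (n 0 z (n 2 (n 0 z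
 (n 2 (n 0 z (n 0 z (n 0 (n 8864531 z (n 8864531 z z)) (n 0 z (n 0 z (n 0 (n 8864531 z z)
 z)))))) z)) (n 0 z (n 0 z (n 0 z (n 0 z (n 0 z (n 0 z (n 0 z z))))))))))) (n 1045 (n 0 z (n 0 z
 (n 2 (n 2 (n 0 z (n 0 z (n 0 (n 452 z (n 452 z z)) (n 0 z (n 0 z (n 0 (n 452 z z) z)))))) z) (n
 0 z (n 0 z (n 0 z (n 0 z (n 0 z (n 0 z (n 0 z (n 0 z z))))))))))) (n 113 (n 0 z (n 0 z (n 0 z
 (n 0 z (n 0 z (n 0 z (n 0 z (n 0 z (n 0 z z))))))))) z))))))) (n 0 (n 0 z (n 1097 (n 0 z (n 0 z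
 (n 0 z (n 0 z (n 0 z (n 0 z (n 0 z (n 0 z (n 0 z (n 0 z (n 0 z z))))))))))) (n 1097 (n 0 z (n 0
 z (n 0 z (n 0 z (n 0 z (n 0 z (n 0 z (n 2 (n 0 z (n 0 z (n 1 z z))) (n 0 z (n 0 z (n 0 z
 z))))))))))) (n 1097 (n 0 z (n 0 z (n 0 z (n 0 z (n 0 z (n 0 z (n 7750419 z (n 0 z (n 0 z (n 0
 z (n 0 z z))))))))))) (n 1097 (n 0 z (n 0 z (n 0 z (n 0 z (n 2 (n 1 z z) (n 0 z (n 0 z (n 0 z
 (n 0 z (n 0 z (n 0 z z))))))))))) (n 17 (n 0 z (n 0 z (n 0 z (n 0 z (n 0 z (n 0 z (n 0 z (n 0 z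
 (n 0 z z))))))))) z)))))) (n 0 (n 27 (n 2 (n 0 z (n 0 z (n 0 z (n 1 z z)))) (n 0 z (n 0 z (n 0
 z (n 0 z (n 0 z (n 0 z (n 0 z (n 0 z (n 0 z (n 0 z z))))))))))) (n 27 (n 0 z (n 0 z (n 0 z (n 0
 z (n 0 z (n 0 z (n 0 z (n 0 z (n 0 z (n 0 z (n 0 z z))))))))))) (n 27 (n 0 z (n 0 z (n 0 z (n 0
 z (n 0 z (n 0 z (n 0 z (n 0 z (n 0 z (n 0 z (n 0 z z))))))))))) (n 27 (n 0 z (n 0 z (n 0 z (n 0
 z (n 0 z (n 0 z (n 0 z (n 0 z (n 0 z (n 0 z (n 0 z z))))))))))) (n 97 (n 0 z (n 0 z (n 2 z (n 0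
 z (n 0 z (n 0 z z)))))) z))))) (n 0 (n 0 z (n 0 z (n 0 z (n 245 (n 0 z (n 0 z (n 0 z (n 0 z (n
 0 z (n 0 z (n 0 z (n 0 z (n 0 z (n 0 z (n 0 z z))))))))))) z)))) (n 0 (n 0 z (n 0 z (n 245 (n 0
 z (n 0 z (n 2 z (n 0 z (n 0 z (n 0 z (n 0 z (n 0 z z)))))))) z))) (n 0 (n 0 z (n 245 (n 0 z (n
 0 z (n 0 z (n 7750419 z (n 0 z (n 0 z (n 0 z (n 0 z (n 0 z (n 0 z (n 0 z (n 0 z (n 0 z (n 0 z
 (n 0 z (n 0 z (n 0 z (n 0 z (n 0 z (n 0 z (n 0 z (n 0 z (n 0 z z))))))))))))))))))))))) z)) (n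
 0 (n 5 (n 0 z (n 0 z (n 0 z (n 0 z (n 0 z (n 0 z (n 0 z (n 0 z (n 0 z (n 0 z (n 0 z (n 0 z (n 0
 z (n 2 z (n 0 z (n 0 z (n 0 z (n 0 z (n 0 z (n 0 z (n 0 z (n 0 z (n 0 z
 z))))))))))))))))))))))) z) (n 0 z z))))))))))))) (n 0 (n 1 (n 1228 z (n 6488603 z (n 1228 z (n
 5379659 z (n 12 z (n 1228 z z)))))) (n 0 z (n 1 (n 1228 z (n 1228 z (n 1228 z (n 460 z (n
 6488603 z (n 1228 z z)))))) (n 1 (n 6496515 z (n 6496515 z (n 6496515 z (n 6496515 z (n 6496515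
 z (n 6496515 z z)))))) z)))) (n 0 z z)))) (n
 0x728e836b9490a364e11a26871690827538424e419272806b8c009b581a4280 (n 0 (n 591 (n 0 z (n 6426691
 z (n 0 z (n
 0xd94d0c480e02ca4ca4203899b7d827d88877b7f7d7a86838c8093836a7c7e79817c847d7c767a777f8384777e8379777d8080818180827e818381867a1009
 z (n
 0x594d0c480e00ca4ca4203848e76807f83837b81807e8483868388827780807c7f7f82807e7c807d7c85827c81817c7e807f807f847f847f808280827d1009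
 z (n 6426691 z (n 0 z (n 0 z (n 0 z (n 0 z (n 0 z (n 0 z (n 0 z (n 0 z (n 0 z (n 0 z (n 0 z (n
 0 z (n 0 z (n 0 z (n 2 z (n 10 z (n 0 z (n 0 z (n 0 z (n 0 z (n 18 z (n 26 z (n 0 z (n 0 z
 z)))))))))))))))))))))))))))))) (n 39 (n 34 z (n 0 z (n 0 z (n 0 z (n 6426691 z (n 0 z (n
 6426691 z (n 42 z (n 50 z (n
 0x4c86c86003848d7e818381837e827e7e8282857e8e80747e7e7a817e817e807c7d7d8181837c80817d7c7f808080817f807f7e8181827e0809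
 z (n
 0xac86c86003879a79828682877c857d7c85848a7c9c7f697e7e74807c817c7e757c7b818586797f827a787f7e817f827e827d7d8282857d0809
 z z))))))))))) (n 129 (n 58 z (n 66 z (n 0 z (n 6426691 z (n 0 z z))))) (n 27 (n 74 z (n 0 z (n
 2164283 z (n 0 z z)))) (n 1 (n 6635787 z (n 0 z (n 0 z (n 0 z z)))) (n 0 (n 0 z (n 82 z (n 90 z
 (n 6635787 z (n 0 z (n 0 z z)))))) z)))))) (n 27 (n 0 (n 0 z (n 0 z (n 0 z (n 1179 (n 0 z (n 0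
 z (n 0 z (n 0 z (n 0 z (n 0 z (n 2 (n 0 z (n 0 z (n 1 z (n 1 z (n 1 z (n 2 (n 0 z (n 0 z (n 0
 (n 1940 z (n 1940 z z)) (n 0 z (n 0 z (n 0 (n 4085 z z) z)))))) (n 1 z z))))))) z))))))) (n
 1179 (n 0 z (n 2 (n 0 z (n 2 (n 0 z (n 0 z (n 0 z (n 0 z (n 0 z (n 0 z z)))))) (n 2 (n 0 z (n 0
 z (n 0 z (n 0 z (n 0 z (n 0 z z)))))) (n 2 (n 0 z (n 0 z (n 0 (n 1948 z z) (n 0 z (n 0 z (n 0 z
 z)))))) (n 2 (n 0 z (n 0 z (n 0 z (n 0 z (n 0 z (n 0 z z)))))) (n 2 (n 0 z (n 0 z (n 0 z (n 0 z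
 (n 0 z (n 0 z z)))))) z)))))) (n 0 z (n 0 z (n 0 z (n 0 z (n 0 z z))))))) (n 1179 (n 0 z (n 0 z
 (n 0 z (n 0 z (n 0 z (n 0 z (n 0 z z))))))) (n 363 (n 0 z (n 2 (n 0 z (n 1 z (n 2 (n 0 z (n 0 z
 (n 0 z (n 0 z (n 0 z (n 0 z z)))))) (n 2 (n 0 z (n 0 z (n 0 (n 1940 z (n 1940 z z)) (n 0 z (n 0
 (n 1029 z z) (n 0 (n 8734267 z z) z)))))) z)))) (n 0 z (n 0 z (n 0 z (n 0 z (n 0 z (n 0 z (n 0
 z (n 0 z z)))))))))) (n 363 (n 2 (n 1 z (n 2 (n 0 z (n 0 z (n 0 z (n 0 z (n 0 z (n 0 z z))))))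
 (n 2 (n 0 z (n 0 z (n 0 (n 3213435 z (n 3213435 z z)) (n 0 z (n 0 (n 3213435 z z) (n 0 (n
 8734267 z z) z)))))) z))) (n 0 z (n 0 z (n 0 z (n 0 z (n 0 z (n 0 z (n 0 z (n 0 z (n 0 z
 z)))))))))) (n 487 (n 0 z (n 2 (n 1 z (n 1 z z)) (n 0 z (n 0 z (n 0 z (n 0 z (n 0 z (n 0 z (n 0
 z (n 0 z (n 0 z z))))))))))) (n 485 (n 0 z (n 0 z (n 0 z (n 0 z (n 0 z (n 0 z (n 2 (n 0 z z) (n
 0 z (n 0 z (n 0 z (n 0 z (n 0 z (n 0 z (n 0 z (n 0 z (n 0 z (n 0 z (n 0 z z))))))))))))))))))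
 (n 485 (n 0 z (n 0 z (n 0 z (n 0 z (n 0 z (n 0 z (n 0 z (n 0 z (n 0 z (n 0 z (n 2 z (n 0 z (n 0
 z (n 0 z (n 0 z (n 0 z (n 0 z (n 0 z z)))))))))))))))))) z))))))))))) (n 0 (n 0 z (n 0 z (n
 1159 (n 0 z (n 0 z (n 0 z (n 0 z (n 0 z (n 0 z (n 0 z (n 0 z (n 0 z (n 0 z (n 0 z (n 0 z (n 0 z
 (n 0 z (n
 0xcea6c86407879178878984857d7f81808585867a927c727e7d7e7f7c807c8677827e81828a7a7d807f7a8081807c827e847c7e827f827d0809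
 z (n 0 z z)))))))))))))))) (n 1159 (n 0 z (n 0 z (n 0 z (n 0 z (n 0 z (n 0 z (n 0 z (n 0 z (n 0
 z (n 0 z (n 0 z (n 0 z (n 0 z (n 0 z (n 0 z (n 0 z z)))))))))))))))) (n 1159 (n 0 z (n 0 z (n 0
 z (n 0 z (n 0 z (n 0 z (n 0 z (n 0 z (n 0 z (n 0 z (n 0 z (n 0 z (n 0 z (n 2 (n 1 z (n 1 z (n 1
 z (n 1 z (n 1 z z))))) (n 0 z (n 0 z z)))))))))))))))) (n 999 (n 0 z (n 0 z (n 0 z (n 0 z (n 0
 z (n 0 z (n 0 z (n 0 z (n 0 z (n 0 z z)))))))))) (n 999 (n 0 z (n 0 z (n 0 z (n 0 z (n 0 z (n 0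
 z (n 0 z (n 0 z (n
 0x1aecaeca607818380818081817f81828284827d7d8380898085827f837e817c7e7f797f81817e7f827e7d7f80807f827e837e837f79817e0809
 z (n 0 z z)))))))))) (n 997 (n 0 z (n 0 z (n 0 z (n
 0x8ea6ca2407888a7e868481807e847d7e8282857e917f737f7d78817d807e827d7b808180837d7f807f7d7f808181807e807e7c817f82800809
 z (n 0 z (n 0 z (n 0 z (n 0 z (n 0 z (n 0 z (n 0 z (n 0 z (n 0 z (n 0 z (n 0 z (n 0 z (n 0 z (n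
 0 z (n 0 z (n 0 z (n 0 z (n 0 z (n 0 z (n 0 z (n 0 z (n 0 z (n 0 z (n 0 z (n 0 z (n 0 z (n 0 z
 (n 0 z (n 0 z z))))))))))))))))))))))))))))))))) (n 961 (n 0 z (n 0 z (n 0 z (n 0 z (n 0 z (n 0
 z (n 0 z (n 0 z (n 0 z (n 0 z (n 0 z (n 0 z (n 0 z (n 0 z (n 0 z (n 0 z (n 0 z (n 0 z (n 0 z (n
 0 z (n 0 z (n 0 z (n 0 z (n 0 z (n 0 z (n 0 z (n 0 z z))))))))))))))))))))))))))) (n 961 (n 0 z
 (n 0 z (n 0 z (n 0 z (n 0 z (n 0 z (n 0 z (n 0 z (n 0 z (n 0 z (n 0 z (n 0 z (n 0 z (n 0 z (n 0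
 z (n 0 z (n 0 z (n 0 z (n 0 z (n 0 z (n 0 z (n 0 z (n 0 z (n
 0xcea6c86407879178878984857d7f81808585867a927c727e7d7e7f7c807c8677827e81828a7a7d807f7a8081807c827e847c7e827f827d0809
 z (n 0 z (n 0 z (n 0 z z))))))))))))))))))))))))))) z)))))))))) (n 0 (n 0 z (n 1185 (n 0 z (n 0
 z (n 0 z (n 0 z (n 0 z (n 0 z (n 0 z (n 0 z (n 0 z (n 0 z (n 0 z (n 2 (n 0 z (n 0 z (n 1 z (n 1
 z (n 1 z (n 2 (n 0 z (n 0 (n 8791835 z z) (n 0 (n 1460 z (n 1460 z z)) (n 0 z (n 0 (n 8791835 z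
 z) (n 0 z z)))))) (n 2 (n 0 z (n 0 z (n 0 (n 8864035 z (n 8864035 z z)) (n 0 (n 8864035 z z) (n
 0 z (n 0 (n 8864035 z z) z)))))) z))))))) (n 0 z z))))))))))))) (n 1185 (n 0 z (n 0 z (n 0 z (n
 0 z (n 0 z (n 0 z (n 0 z (n 0 z (n 0 z (n 0 z (n 0 z (n 0 z (n 0 z z))))))))))))) (n 1185 (n 2
 (n 1 z (n 1 z (n 1 z (n 1 z (n 1 z z))))) (n 0 z (n 0 z (n 0 z (n 0 z (n 0 z (n 0 z (n 0 z (n 0
 z (n 0 z (n 0 z (n 0 z (n 0 z z))))))))))))) (n 363 (n 0 z (n 0 z (n 0 z (n 0 z (n 0 z (n 0 z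
 (n 0 z (n 0 z (n 0 z (n 0 z (n 0 z (n 0 z (n 0 z z))))))))))))) (n 363 (n 2 (n 1 z (n 2 (n 0 z
 (n 0 z (n 0 (n 1460 z (n 1460 z z)) (n 0 (n 1460 z z) (n 0 (n 1460 z z) (n 0 z z)))))) (n 2 (n
 0 z (n 0 (n 8873267 z z) (n 0 (n 8873267 z (n 8873267 z z)) (n 0 (n 8873267 z z) (n 0 z (n 0 z
 z)))))) z))) (n 0 z (n 0 z (n 0 z (n 0 z (n 0 z (n 0 z (n 0 z (n 0 z (n 0 z (n 0 z (n 0 z (n 0
 z z))))))))))))) (n 487 (n 0 z (n 2 (n 2 (n 0 z (n 0 z (n 0 z (n 0 z (n 0 z (n 0 z z)))))) (n 2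
 (n 0 z (n 0 z (n 0 (n 8864035 z (n 8864035 z z)) (n 0 z (n 0 (n 8864035 z z) (n 0 (n 8864035 z
 z) z)))))) z)) (n 0 z (n 0 z (n 0 z (n 0 z (n 0 z (n 0 z (n 0 z (n 0 z (n 0 z (n 0 z (n 0 z (n
 0 z (n 0 z (n 0 z (n 0 z (n 0 z (n 0 z (n 0 z (n 0 z (n 0 z (n 0 z (n 0 z (n 0 z (n 0 z (n 0 z
 (n 0 z (n 0 z (n 0 z z)))))))))))))))))))))))))))))) (n 365 (n 0 z (n 0 z (n 0 z (n 0 z (n 0 z
 (n 0 z (n 0 z (n 0 z (n 0 z (n 0 z (n 0 z (n 0 z (n 0 z (n 0 z (n 0 z (n 0 z (n 0 z (n 0 z (n 0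
 z (n 0 z (n 0 z (n 0 z (n 0 z (n 0 z (n 0 z (n 0 z (n 0 z (n 0 z (n 0 z (n 0 z
 z)))))))))))))))))))))))))))))) (n 365 (n 0 z (n 0 z (n 0 z (n 0 z (n 0 z (n 0 z (n 0 z (n 0 z
 (n 0 z (n 0 z (n 0 z (n 0 z (n 0 z (n 0 z (n 0 z (n 0 z (n 0 z (n 0 z (n 0 z (n 0 z (n 2 z (n 0
 z (n 0 z (n 0 z (n 0 z (n 0 z (n 0 z (n 0 z (n 0 z (n 0 z z))))))))))))))))))))))))))))))
 z))))))))) (n 0 (n 1003 (n 0 z (n 0 z (n 0 z (n 0 z (n 0 z (n 0 z (n 0 z (n 0 z z)))))))) (n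
 1003 (n 0 z (n 0 z (n 0 z (n 0 z (n 0 z (n 0 z (n 0 z (n 0 z z)))))))) (n 1003 (n 0 z (n 0 z (n
 0 z (n 0 z (n 2 (n 1 z (n 1 z (n 1 z (n 1 z (n 1 z z))))) (n 0 z (n 0 z (n 0 z z)))))))) (n 999
 (n 0 z (n 0 z (n 0 z (n 0 z (n 0 z (n 0 z (n 0 z (n
 0x3dd49940c0e14ea6ea6007a5d357a98baf83707f7c7591949a84c680357977638a7185798e6f7c867e869b6e7d7b796b84797e77896a806f64838383791009
 z (n 0 z (n 0 z (n 0 z z))))))))))) (n 999 (n 0 z (n 0 z (n 0 z (n 0 z (n 0 z (n 0 z (n 0 z (n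
 0 z (n 0 z (n 0 z (n 0 z z))))))))))) (n 1001 (n 0 z (n 0 z (n 0 z (n 0 z (n 0 z (n 0 z (n 0 z
 (n 0 z (n 0 z (n 0 z (n 0 z (n 0 z (n 0 z (n 0 z (n 0 z (n 0 z (n 0 z (n 0 z (n 0 z (n 0 z (n 0
 z (n 0 z (n 0 z (n 0 z (n 0 z (n 0 z (n 0 z z))))))))))))))))))))))))))) (n 973 (n 0 z (n 0 z
 (n 0 z (n 0 z (n 0 z (n 0 z (n
 0xeec6e86403868e6f848380837f7c87848387877f8e7f78827d827d7f807b8976867f7885897a81807e7e857d80778780877e7e82847f7d0809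
 z (n 0 z (n 0 z (n 0 z (n 0 z z))))))))))) (n 973 (n 0 z (n 0 z (n 0 z (n 0 z (n 0 z (n 0 z (n
 0 z (n 0 z (n 0 z (n 0 z (n 0 z z))))))))))) z)))))))) (n 0 (n 0 z (n 0 z (n 1047 (n 0 z (n 0 z
 (n 0 z (n 0 z (n 0 z (n 0 z (n 0 z (n 0 z (n
 0x3dd49940c0e14ea6ea6007a5d357a98baf83707f7c7591949a84c680357977638a7185798e6f7c867e869b6e7d7b796b84797e77896a806f64838383791009
 z (n 0 z (n 0 z z))))))))))) (n 1047 (n 0 z (n 0 z (n 0 z (n 0 z (n 0 z (n 0 z (n 0 z (n 0 z (n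
 0 z (n 0 z (n 0 z z))))))))))) (n 1049 (n 0 z (n 0 z (n 0 z (n 0 z (n 0 z (n 0 z (n 0 z (n 0 z
 (n 0 z (n 0 z (n 0 z z))))))))))) (n 1021 (n 0 z (n 0 z (n 0 z (n 0 z (n
 0xeec6e86403868e6f848380837f7c87848387877f8e7f78827d827d7f807b8976867f7885897a81807e7e857d80778780877e7e82847f7d0809
 z (n 0 z (n 0 z z))))))) (n 1021 (n 0 z (n 0 z (n 0 z (n 0 z (n 0 z (n 0 z (n 0 z z)))))))
 z))))))) (n 0 (n 0 z (n 775 (n 0 z (n 0 z (n 0 z (n 0 z (n 0 z (n 0 z (n 0 z z))))))) (n 775 (n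
 0 z (n 0 z (n 0 z (n 0 z (n 0 z (n 0 z (n 0 z z))))))) (n 513 (n 0 z (n 0 z (n 0 z (n 0 z (n 0
 z (n 0 z (n 0 z z))))))) (n 77 (n 0 z (n 0 z (n 0 z (n 0 z (n 0 z (n 0 z (n 0 z z))))))) (n 77
 (n 0 z (n 0 z (n 0 z (n 0 z (n 0 z (n 0 z (n 0 z z))))))) z)))))) (n 0 (n 31 (n 2 (n 0 z (n 1 z
 (n 1 z (n 1 z z)))) (n 0 z (n 0 z (n 0 z (n 0 z (n 0 z (n 0 z (n 0 z (n 0 z (n 0 z z))))))))))
 (n 31 (n 0 z (n 2 (n 1 z (n 1 z (n 1 z z))) (n 0 z (n 0 z (n 0 z (n 0 z (n 0 z (n 0 z (n 0 z (n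
 0 z z)))))))))) (n 487 (n 2 (n 1 z (n 1 z z)) (n 0 z (n 0 z (n 0 z (n 0 z (n 0 z (n 0 z (n 0 z
 (n 0 z (n 0 z (n 0 z (n 0 z z)))))))))))) (n 53 (n 0 z (n 0 z (n 0 z (n 0 z (n 0 z (n 0 z (n 0
 z (n 0 z (n 0 z (n 0 z (n 2 (n 0 z z) (n 0 z (n 0 z (n 0 z (n 0 z (n 0 z (n 0 z (n 0 z (n 0 z
 (n 0 z (n 0 z (n 0 z (n 0 z z))))))))))))))))))))))) (n 53 (n 0 z (n 0 z (n 0 z (n 0 z (n 0 z
 (n 0 z (n 0 z (n 0 z (n 0 z (n 0 z (n 0 z (n 0 z (n 0 z (n 2 z (n 0 z (n 0 z (n 0 z (n 0 z (n 0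
 z (n 0 z (n 0 z (n 0 z (n 0 z z))))))))))))))))))))))) z))))) (n 0 (n 0 z (n 1097 (n 0 z (n 0 z
 (n 0 z (n 0 z (n 0 z (n 0 z (n 0 z (n 0 z z)))))))) (n 257 (n 0 z (n 0 z (n 0 z (n 0 z (n 0 z
 (n 0 z (n 0 z (n 0 z (n 0 z (n 0 z (n 0 z (n 0 z (n 0 z (n 0 z (n 0 z (n 0 z (n 0 z (n 0 z
 z)))))))))))))))))) (n 257 (n 0 z (n 0 z (n 0 z (n 0 z (n 0 z (n 0 z (n 0 z (n 0 z (n 0 z (n 0
 z (n 0 z (n 0 z (n 0 z (n 0 z (n 0 z (n 0 z (n 0 z (n 0 z z)))))))))))))))))) z)))) (n 0 (n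
 1093 (n 0 z (n 0 z (n 0 z (n 0 z (n 0 z (n 0 z (n 0 z (n 0 z z)))))))) (n 257 (n 0 z (n 0 z (n
 0 z (n 0 z (n 0 z (n 0 z (n 0 z (n 0 z (n 0 z z))))))))) (n 257 (n 0 z (n 0 z (n 0 z (n 0 z (n
 0 z (n 0 z (n 0 z (n 0 z (n 0 z z))))))))) z))) (n 0 (n 53 (n 0 z (n 0 z (n 0 z (n 0 z (n 0 z
 (n 0 z (n 0 z (n 0 z (n 0 z z))))))))) (n 53 (n 0 z (n 0 z (n 0 z (n 0 z (n 0 z (n 0 z (n 0 z
 (n 0 z (n 0 z z))))))))) z)) (n 0 (n 0 z z) (n 0 z z)))))))))))) (n 0 (n 1 (n 4732 z (n 4732 z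
 (n 4732 z (n 5449291 z (n 4732 z (n 12 z z)))))) (n 0 z (n 1 (n 2164283 z (n 2164283 z (n
 2164283 z (n 2164283 z (n 2164283 z (n 2164283 z z)))))) (n 0 z z)))) (n 0 z z)))) (n
 0x163268a657452e2a266a574389ba4449522b4e961154c0cd30a01d2e00a9940 (n 0 (n 327 (n 0 z (n 6627379
 z (n 2 z (n 10 z (n 6492195 z (n 6492195 z (n 18 z z))))))) (n 325 (n 26 z (n 0 z (n 34 z (n 0
 z (n 0 z (n 6492195 z (n 0 z (n 0 z z)))))))) (n 9 (n 0 z (n 0 z (n 0 z (n 42 z (n 0 z (n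
 6627379 z (n 50 z (n 0 z (n 0 z (n 0 z z)))))))))) (n 123 (n 0 z (n 0 z (n 0 z (n 6492195 z (n
 0 z (n 0 z (n 0 z (n 58 z (n 0 z (n 0 z (n 0 z (n 0 z (n 0 z z))))))))))))) (n 1 (n 0 z (n 0 z
 (n 6567179 z z))) (n 0 (n 0 z (n
 0xc86c8620381f82081f8208208617df7a189f8217df7a182181f82082181f7e181f8217e082081f82081f0801 z (n
 6627379 z (n
 0x2c82c8060382082282082082082082086082082082082082282082082082081f8208208208208208208200801 z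
 (n 66 z (n 74 z (n 82 z (n 0 z (n 0 z (n 0 z (n 90 z (n
 0x6ca88642074590d0c840e032a210080d964364300180c64c6400315d9a07e1c265177de851bd38215d86a892b8d8adc79c83971b8188196625ee61a5f4ae03762801
 z (n 0 z (n
 0x2c86c8620785f8207e17e079f81e8a28df72079e86089d81e7e282286181e7a17e28618628208217e18e00801 z
 (n 0x2c86c842078227e082081f8217de8a289f7217617a089d81f8218208608218607de86085f8a08608628600801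
 z (n 0 z (n 0 z (n 0 z (n 0 z (n 0 z (n 0 z (n
 0x2c86c862078608218207df8217de8a38e072176082085d85f7e182085f81f7e281f81f7e28217e07a08600801 z
 (n 0 z (n 0 z (n 0 z (n 0 z (n 0 z (n 0 z (n 0 z z))))))))))))))))))))))))))))) z)))))) (n 1 (n
 0 (n 0 z (n 0 z (n 763 (n 0 z (n 0 z (n 0 z (n 0 z (n 0 z (n 0 z (n 0 z (n 0 z (n 0 z (n 0 z
 z)))))))))) (n 763 (n 0 z (n 0 z (n 0 z (n 0 z (n 0 z (n 0 z (n 2 (n 1 z (n 2 (n 0 z (n 0 z (n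
 0 z (n 0 z (n 0 z (n 0 (n 8860163 z z) z)))))) (n 1 z (n 2 (n 0 (n 8783675 z z) (n 0 z (n 0 z
 (n 0 (n 8783675 z z) (n 0 z (n 0 (n 8869435 z (n 8869435 z z)) z)))))) (n 2 (n 0 z (n 0 z (n 0
 z (n 0 z (n 0 z (n 0 (n 8860163 z z) z)))))) (n 2 (n 0 z (n 0 z (n 0 z (n 0 z (n 0 z (n 0 z
 z)))))) (n 2 (n 0 z (n 0 z (n 0 z (n 0 z (n 0 z (n 0 z z)))))) z))))))) (n 0 z (n 0 z (n 0 z
 z)))))))))) (n 765 (n 0 z (n 0 z (n 0 z (n 0 z (n 0 z (n 0 z (n 0 z z))))))) (n 765 (n 0 z (n 0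
 z (n 0 z (n 0 z (n 0 z (n 2 (n 2 (n 0 z (n 0 z (n 0 z (n 0 z (n 0 z (n 0 z z)))))) (n 2 (n 0 z
 (n 0 z (n 0 (n 8783675 z z) (n 0 (n 8783675 z z) (n 0 z (n 0 (n 8718123 z (n 8869435 z z))
 z)))))) (n 2 (n 0 z (n 0 z (n 0 z (n 0 z (n 0 z (n 0 z z)))))) (n 2 (n 0 z (n 0 z (n 0 z (n 0 z
 (n 0 z (n 0 z z)))))) (n 2 (n 0 z (n 0 z (n 0 z (n 0 z (n 0 z (n 0 z z)))))) z))))) (n 0 z
 z))))))) (n 645 (n 0 z (n 2 (n 2 (n 0 (n 8783675 z z) (n 0 z (n 0 z (n 0 z (n 0 (n 8783675 z z)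
 (n 0 (n 2612 z (n 2612 z z)) z)))))) (n 2 (n 0 z (n 0 z (n 0 z (n 0 z (n 0 z (n 0 z z)))))) (n
 2 (n 0 z (n 0 z (n 0 z (n 0 z (n 0 z (n 0 z z)))))) (n 2 (n 0 z (n 0 z (n 0 z (n 0 z (n 0 z (n
 0 z z)))))) z)))) (n 0 z (n 0 z (n 0 z (n 0 z z)))))) (n 653 (n 0 z (n 0 z (n 0 z (n 0 z (n 0 z
 (n 0 z (n 0 z (n 0 z (n 0 z (n 0 z (n 0 z (n 0 z z)))))))))))) (n 653 (n 2 (n 0 z (n 0 z z)) (n
 0 z (n 0 z (n 0 z (n 0 z (n 0 z (n 0 z (n 0 z (n 0 z (n 0 z (n 0 z (n 0 z z)))))))))))) (n 653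
 (n 0 z (n 0 z (n 0 z (n 0 z (n 0 z (n 0 z (n 0 z (n 0 z (n 0 z (n 0 z (n 0 z (n 0 z
 z)))))))))))) (n 653 (n 0 z (n 0 z (n 0 z (n 0 z (n 0 z (n 0 z (n 0 z (n 0 z (n 2 z (n 0 z (n 0
 z (n 0 z z)))))))))))) z))))))))))) (n 0 (n 0 z (n 743 (n 0 z (n 0 z (n 0 z (n 0 z (n 0 z (n 0
 z (n 0 z (n 0 z (n 2 (n 0 z (n 2 (n 0 z (n 0 z (n 0 z (n 0 z (n 0 z (n 0 (n 8664939 z z)
 z)))))) (n 2 (n 0 z (n 0 z (n 0 z (n 0 z (n 0 z (n 0 (n 8664939 z z) z)))))) (n 1 z (n 2 (n 0 z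
 (n 0 z (n 0 z (n 0 z (n 0 (n 8804155 z z) (n 0 (n 2612 z (n 8804155 z z)) z)))))) (n 2 (n 0 z
 (n 0 z (n 0 z (n 0 z (n 0 z (n 0 (n 8664939 z z) z)))))) (n 2 (n 0 z (n 0 z (n 0 z (n 0 z (n 0
 z (n 0 z z)))))) (n 2 (n 0 z (n 0 z (n 0 z (n 0 z (n 0 z (n 0 (n 8664939 z z) z)))))) z))))))))
 (n 0 z (n 0 z (n 0 z (n 0 z z))))))))))))) (n 743 (n 0 z (n 0 z (n 0 z (n 0 z (n 0 z (n 0 z (n
 0 z (n 0 z (n 0 z (n 0 z (n 0 z (n 0 z (n 0 z z))))))))))))) (n 759 (n 0 z (n 0 z (n 0 z (n 0 z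
 (n 0 z (n 0 z (n 0 z (n 0 z (n 0 z (n 0 z (n 0 z (n 0 z (n 2 (n 0 z (n 1 z (n 2 (n 0 (n 8804155
 z z) (n 0 z (n 0 z (n 0 (n 8804155 z z) (n 0 z (n 0 (n 2612 z (n 2612 z z)) z)))))) (n 2 (n 0 z
 (n 0 z (n 0 z (n 0 z (n 0 z (n 0 (n 8664939 z z) z)))))) (n 2 (n 0 z (n 0 z (n 0 z (n 0 z (n 0
 z (n 0 z z)))))) (n 2 (n 0 z (n 0 z (n 0 z (n 0 z (n 0 z (n 0 (n 8664939 z z) z)))))) z))))))
 (n 0 z (n 0 z (n 0 z z)))))))))))))))) (n 759 (n 0 z (n 0 z (n 0 z (n 0 z (n 0 z (n 0 z (n 0 z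
 (n 0 z (n 0 z (n 0 z (n 0 z (n 0 z (n 0 z (n 0 z (n 0 z (n 0 z z)))))))))))))))) (n 645 (n 0 z
 (n 0 z (n 0 z (n 0 z (n 0 z (n 0 z (n 0 z (n 0 z (n 0 z (n 0 z (n 0 z (n 0 z (n 0 z (n 0 z (n 0
 z (n 0 z z)))))))))))))))) (n 653 (n 0 z (n 0 z (n 0 z (n 0 z (n 0 z (n 0 z (n 0 z (n 0 z (n 0
 z (n 0 z (n 0 z (n 0 z (n 0 z z))))))))))))) (n 653 (n 0 z (n 0 z (n 0 z (n 0 z (n 0 z (n 0 z
 (n 0 z (n 0 z (n 0 z (n 0 z (n 0 z (n 0 z (n 0 z z))))))))))))) (n 653 (n 0 z (n 2 (n 0 z z) (n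
 0 z (n 0 z (n 0 z (n 0 z (n 0 z (n 0 z (n 0 z (n 0 z (n 0 z (n 0 z (n 0 z z))))))))))))) (n 653
 (n 0 z (n 0 z (n 0 z (n 0 z (n 0 z (n 0 z (n 0 z (n 0 z (n 0 z (n 0 z (n 0 z (n 0 z (n 0 z
 z))))))))))))) z)))))))))) (n 0 (n 631 (n 0 z (n
 0x1d8dd8940e0398b20280c075165040384e62ca080789d7a191f82081f7a09239a171f82182086182082282281e7e286189f86181f82082081f8622001
 z (n 0 z (n 0 z (n 0 z (n 0 z (n 0 z (n 0 z (n 0 z (n 0 z (n 0 z (n 0 z (n 0 z z)))))))))))))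
 (n 631 (n 0 z (n 0 z (n 0 z (n 2 (n 1 z (n 2 (n 0 z (n 0 z (n 0 z (n 0 z (n 0 z (n 0 (n 8860163
 z z) z)))))) (n 1 z (n 2 (n 0 (n 2020 z z) (n 0 z (n 0 z (n 0 (n 8857163 z z) (n 0 z (n 0 (n
 2020 z (n 2020 z z)) z)))))) (n 2 (n 0 z (n 0 z (n 0 z (n 0 z (n 0 z (n 0 (n 8860163 z z)
 z)))))) (n 2 (n 0 z (n 0 z (n 0 z (n 0 z (n 0 z (n 0 z z)))))) (n 2 (n 0 z (n 0 z (n 0 z (n 0 z
 (n 0 z (n 0 z z)))))) z))))))) (n 0 z (n 0 z (n 0 z (n 0 z (n 0 z (n 0 z (n 0 z (n 0 z (n 0 z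
 z))))))))))))) (n 151 (n 0 z (n 0 z (n 0 z (n 0 z (n 0 z z))))) (n 151 (n 2 (n 2 (n 0 z (n 0 z
 (n 0 z (n 0 z (n 0 z (n 0 z z)))))) (n 2 (n 0 z (n 0 z (n 0 (n 8656427 z z) (n 0 (n 8857163 z
 z) (n 0 z (n 0 (n 8718123 z (n 2020 z z)) z)))))) (n 2 (n 0 z (n 0 z (n 0 z (n 0 z (n 0 z (n 0
 z z)))))) (n 2 (n 0 z (n 0 z (n 0 z (n 0 z (n 0 z (n 0 z z)))))) (n 2 (n 0 z (n 0 z (n 0 z (n 0
 z (n 0 z (n 0 z z)))))) z))))) (n 0 z (n 0 z (n 0 z (n 0 z z))))) (n 507 (n 0 z (n 0 z (n 2 (n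
 2 (n 0 (n 2020 z z) (n 0 z (n 0 z (n 0 z (n 0 (n 6563931 z z) (n 0 (n 2020 z (n 2020 z z))
 z)))))) (n 2 (n 0 z (n 0 z (n 0 z (n 0 z (n 0 z (n 0 z z)))))) (n 2 (n 0 z (n 0 z (n 0 z (n 0 z
 (n 0 z (n 0 z z)))))) (n 2 (n 0 z (n 0 z (n 0 z (n 0 z (n 0 z (n 0 z z)))))) z)))) (n 0 z (n 0
 z z))))) (n 505 (n 0 z (n 0 z (n 0 z (n 0 z (n 0 z (n 0 z (n 0 z (n 0 z (n 0 z (n 0 z (n 0 z (n
 0 z (n 0 z (n 0 z (n 0 z (n 0 z (n 0 z (n 0 z (n 0 z (n 0 z (n 0 z (n 0 z (n 0 z (n 0 z (n 2 (n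
 0 z (n 0 z (n 0 z z))) (n 0 z (n 0 z (n 0 z z)))))))))))))))))))))))))))) (n 505 (n 2 (n 0 z (n
 0 z z)) (n 0 z (n 0 z (n 0 z (n 0 z (n 0 z (n 0 z (n 0 z (n 0 z (n 0 z (n 0 z (n 0 z (n 0 z (n
 0 z (n 0 z (n 0 z (n 0 z (n 0 z (n 0 z (n 0 z (n 0 z (n 0 z (n 0 z (n 0 z (n 0 z (n 0 z (n 0 z
 (n 0 z z)))))))))))))))))))))))))))) (n 505 (n 0 z (n 0 z (n
 0xbb23a1881c075464310182ec6ec420789d82189f8208207a186289e7a07e27e07e081f8228218608208207df82081f8208208218211801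
 z (n 0 z (n 0 z (n 0 z (n 0 z (n 0 z (n 0 z (n 0 z (n 0 z (n 0 z (n 0 z (n 0 z (n 0 z (n 0 z (n
 0 z (n 0 z (n 0 z (n 0 z (n 0 z (n 0 z (n 0 z (n 0 z (n 0 z (n 0 z (n 0 z (n 0 z
 z)))))))))))))))))))))))))))) (n 505 (n 0 z (n 0 z (n 0 z (n 0 z (n 0 z (n 0 z (n 0 z (n 0 z (n
 0 z (n 0 z (n 0 z (n 0 z (n 2 z (n 0 z (n 0 z (n 0 z (n 0 z (n 0 z (n 0 z (n 0 z (n 0 z (n 0 z
 (n 0 z (n 0 z (n 0 z (n 0 z (n 0 z (n 0 z z)))))))))))))))))))))))))))) z))))))))) (n 0 (n 0 z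
 (n 807 (n 0 z (n 0 z (n 0 z (n 0 z (n 0 z (n 0 z z)))))) (n 807 (n 0 z (n 0 z (n 0 z (n 0 z (n
 0 z (n 0 z z)))))) (n 633 (n 0 z (n 0 z (n 0 z (n 0 z (n 0 z (n 0 z z)))))) (n 769 (n 0 z (n 0
 z (n 0 z (n 0 z (n 0 z (n 0 z (n 0 z (n 0 z (n 0 z (n 0 z (n 0 z (n 0 z (n 0 z (n 0 z (n 0 z (n
 0 z (n 0 z (n 0 z (n 0 z (n 0 z (n 0 z (n 0 z (n 0 z (n 0 z (n 0 z (n 0 z (n 0 z (n 0 z (n 0 z
 (n 0 z (n 0 z (n 0 z (n 0 z (n 0 z (n 0 z (n 0 z (n 0 z (n 0 z (n 0 z (n 0 z (n 0 z (n 0 z (n 0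
 z (n 0 z (n 0 z (n 0 z z)))))))))))))))))))))))))))))))))))))))))))))) (n 769 (n 0 z (n 0 z (n
 0 z (n 0 z (n 0 z (n 0 z (n 0 z (n 0 z (n 0 z (n 0 z (n 0 z (n 0 z (n 0 z (n 0 z (n 0 z (n 0 z
 (n 0 z (n 0 z (n 0 z (n 0 z (n 0 z (n 0 z (n 2 (n 0 z (n 0 z z)) (n 0 z (n 0 z (n 0 z (n 0 z (n
 0 z (n 0 z (n 0 z (n 0 z (n 0 z (n 0 z (n 0 z (n 0 z (n 0 z (n 0 z (n 0 z (n 0 z (n 0 z (n 0 z
 (n 0 z (n 0 z (n 0 z (n 0 z (n 0 z z)))))))))))))))))))))))))))))))))))))))))))))) (n 769 (n 0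
 z (n 0 z (n 0 z (n 0 z (n 0 z (n 0 z (n 0 z (n 0 z (n 0 z (n 0 z (n 0 z (n 0 z (n 0 z (n 0 z (n
 0 z (n 0 z (n 0 z (n 0 z (n 0 z (n 0 z (n 0 z (n 0 z (n 0 z (n 0 z (n 0 z (n 0 z (n 0 z (n 0 z
 (n 0 z (n 0 z (n 0 z (n 0 z (n 0 z (n 0 z (n 0 z (n 0 z (n 0 z (n 0 z (n 0 z (n 0 z (n 0 z (n 0
 z (n 0 z (n 0 z (n 0 z (n 0 z z)))))))))))))))))))))))))))))))))))))))))))))) (n 769 (n 0 z (n
 0 z (n 0 z (n 0 z (n 0 z (n 0 z (n 0 z (n 0 z (n 0 z (n 0 z (n 0 z (n 0 z (n 0 z (n 0 z (n 0 z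
 (n 0 z (n 0 z (n 0 z (n 0 z (n 0 z (n 0 z (n 2 z (n 0 z (n 0 z (n 0 z (n 0 z (n 0 z (n 0 z (n 0
 z (n 0 z (n 0 z (n 0 z (n 0 z (n 0 z (n 0 z (n 0 z (n 0 z (n 0 z (n 0 z (n 0 z (n 0 z (n 0 z (n
 0 z (n 0 z (n 0 z (n 0 z z)))))))))))))))))))))))))))))))))))))))))))))) z)))))))) (n 0 (n 779
 (n 0 z (n 0 z (n 0 z (n 0 z (n 0 z (n 0 z z)))))) (n 779 (n 0 z (n 0 z (n 0 z (n 0 z (n 0 z (n
 0 z z)))))) (n 633 (n 0 z (n 0 z (n 0 z (n 0 z z)))) (n 769 (n 0 z (n 0 z (n 0 z (n 0 z (n 0 z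
 (n 0 z (n 0 z (n 0 z (n 0 z (n 0 z (n 0 z (n 0 z (n 0 z z))))))))))))) (n 769 (n 0 z (n 0 z (n
 0 z (n 0 z (n 0 z (n 0 z (n 0 z (n 0 z (n 0 z (n 0 z (n 0 z (n 0 z (n 0 z z))))))))))))) (n 769
 (n 0 z (n 0 z (n 0 z (n 0 z (n 0 z (n 0 z (n 0 z (n 0 z (n 0 z (n 0 z (n 0 z (n 2 (n 0 z z) (n
 0 z z))))))))))))) (n 769 (n 0 z (n 0 z (n 0 z (n 0 z (n 0 z (n 0 z (n 0 z (n 0 z (n 0 z (n 0 z
 (n 7669291 z (n 0 z (n 0 z z))))))))))))) z))))))) (n 0 (n 0 z (n 267 (n 0 z (n 0 z (n 0 z (n 0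
 z (n 0 z z))))) (n 817 (n 0 z (n 0 z (n 0 z (n 0 z (n 0 z (n 0 z (n 0 z (n 0 z (n 0 z (n 0 z (n
 0 z z))))))))))) (n 817 (n 0 z (n 0 z (n 0 z (n 0 z (n 0 z (n 0 z (n 2 (n 0 z (n 0 z z)) (n 0 z
 (n 0 z (n 0 z (n 0 z z))))))))))) (n 817 (n 0 z (n 0 z (n 0 z (n 0 z (n 0 z (n 0 z (n 0 z (n 0
 z (n 0 z (n 0 z (n 0 z z))))))))))) (n 817 (n 0 z (n 0 z (n 0 z (n 0 z (n 0 z (n 2 z (n 0 z (n
 0 z (n 0 z (n 0 z (n 0 z z))))))))))) z)))))) (n 0 (n 7 (n 0 z (n 0 z (n 0 z (n 0 z (n 0 z (n 0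
 z (n 0 z (n 0 z (n 0 z (n 0 z (n 0 z (n 0 z z)))))))))))) (n 817 (n 0 z (n 0 z (n 0 z (n 0 z (n
 0 z (n 0 z (n 0 z (n 0 z (n 0 z z))))))))) (n 817 (n 0 z (n 0 z (n 0 z (n 0 z (n 0 z (n 0 z (n
 0 z (n 0 z (n 0 z z))))))))) (n 817 (n 0 z (n 0 z (n 0 z (n 0 z (n 0 z (n 2 (n 0 z z) (n 0 z (n
 0 z (n 0 z z))))))))) (n 817 (n 0 z (n 0 z (n 0 z (n 0 z (n 0 z (n 0 z (n 0 z (n 0 z (n 0 z
 z))))))))) z))))) (n 0 (n 1 (n 0 z (n 0 z (n 0 z (n 0 z (n 0 z (n 0 z (n 0 z (n 0 z (n 0 z (n 0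
 z (n 0 z z))))))))))) (n 1 (n 0 z (n 0 z (n 0 z (n 0 z (n 0 z (n 0 z (n 0 z (n 0 z (n 0 z (n 0
 z (n 0 z z))))))))))) (n 1 (n 0 z (n 0 z (n 0 z (n 0 z (n 0 z (n 0 z (n 0 z (n 0 z (n 2 (n 0 z
 z) (n 0 z (n 0 z z))))))))))) (n 1 (n 0 z (n 0 z (n 0 z (n 0 z (n 0 z (n 0 z (n 0 z (n 0 z (n 0
 z (n 7669291 z (n 0 z z))))))))))) z)))) (n 0 (n 0 z (n 0 z (n 0 z z))) (n 0 (n 0 z (n 0 z z))
 (n 0 (n 0 z z) (n 0 z z)))))))))))) (n 0 (n 0 z (n 0 z (n 1 (n 6567179 z (n 6567179 z (n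
 6567179 z (n 6567179 z (n 6567179 z (n 6567179 z z)))))) z))) (n 0 z z)))) (n
 0x1a90e2d08955445889a34551c21 (n 0 (n 599 (n 6557747 z (n 0 z (n 0 z z))) (n 581 (n 0 z (n
 6557747 z (n 6557747 z (n 0 z (n 0 z (n 0 z (n 2 z (n 0 z (n 0 z (n 0 z z)))))))))) (n 9 (n 10
 z (n 0 z (n 0 z (n 0 z (n
 0xca6ca60078208608208208608608207e08207a07e08208608608218218207e085f82081f7df86085f8200801 z (n
 0 z (n 0 z (n 0 z (n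
 0xaca4a206078216608a57e56dd8a09e07a471c72275e75f8e282665f92579e8608218608dd9da8df8a18220801 z
 (n 0 z (n 3212843 z (n 4392491 z (n 0 z (n 18 z (n 0 z (n 0 z (n 0 z (n 26 z (n
 0xaca482060381d7df7e282472385d9e16e571d76079f8e28a476076375d89c9247237e09559d596189f8210801 z
 (n 34 z (n 0 z z))))))))))))))))))))) (n 29 (n 6636291 z (n 0 z (n 0 z z))) (n 1 (n 6636291 z
 (n 0 z (n 0 z (n 0 z (n 0 z (n 0 z z)))))) (n 0 (n 6636291 z (n 0 z (n 0 z (n 0 z (n 0 z z)))))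
 z)))))) (n 599 (n 0 (n 1161 (n 0 z (n 0 z (n 0 z (n 0 z (n 0 z (n 0 z (n 0 z (n 0 z (n 0 z (n 0
 z (n 0 z (n 0 z (n 0 z (n 0 z (n 0 z (n 0 z (n 0 z (n 0 z (n 0 z (n 0 z (n 0 z
 z))))))))))))))))))))) (n 1161 (n 0 z (n 0 z (n 0 z (n 0 z (n 0 z (n 0 z (n 0 z (n 0 z (n 0 z
 (n 0 z (n 0 z (n 0 z (n 0 z (n 0 z (n 0 z (n 0 z (n 0 z (n 0 z (n 0 z (n 0 z (n 0 z
 z))))))))))))))))))))) (n 1161 (n
 0x321bb1281c274263150388ec2e80a0709d8990140e0b18b90281c276265040180ca8ca84070194d94c8061321b28100c165364020188c86c804030194d4c080e1328a98101c275475310380ca6e8400781f7a06e27e07a27629e47e27db8e18a08a47e07a089f85c85d9207e585f96091b89e7a47dc7801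
 z (n 0 z (n 0 z (n 0 z (n 0 z (n 0 z (n 0 z (n 0 z (n 0 z (n 0 z (n 0 z (n 0 z (n 0 z (n 0 z (n
 0 z (n 0 z (n 0 z (n 0 z (n 0 z (n 0 z (n 0 z z))))))))))))))))))))) (n 1161 (n 0 z (n 0 z (n 0
 z (n 0 z (n 0 z (n 0 z (n 0 z (n 0 z (n 0 z (n 0 z (n 0 z (n 0 z (n 0 z (n 0 z (n 0 z (n 0 z (n
 0 z (n 0 z (n 0 z (n 0 z (n 0 z z))))))))))))))))))))) z)))) (n 0 (n 0 z (n 0 z (n 0 z z))) (n
 0 (n 0 z (n 0 z z)) (n 0 (n 0 z z) (n 0 z z))))) (n 0 (n 1 (n 6557747 z (n 6636291 z (n 6557747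
 z (n 6557747 z (n 6557747 z (n 6557747 z z)))))) (n 0 z (n 0 z z))) (n 0 z z)))) (n
 0x1a90e2d08955445889a34551c21 (n 0 (n 599 (n 6557747 z (n 0 z (n 0 z (n 0 z z)))) (n 581 (n 0 z
 (n 0 z (n 6557747 z (n 0 z (n 0 z (n 0 z (n 2 z (n 0 z (n 0 z (n 0 z z)))))))))) (n 9 (n 10 z
 (n 0 z (n 0 z (n 0 z (n
 0xca6ca60078208208208608208208208208207e07df8208a182082082182082081f8207df81f86085f8210801 z (n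
 0 z (n 0 z (n 0 z (n
 0x6ca4a2060782082086085f81f81f8208218208208207e082082182082182182081f82181e81f86085e8210801 z
 (n 0 z (n 0 z (n 3212843 z (n 0 z (n 18 z (n 0 z (n 0 z (n 0 z (n 26 z (n
 0x6ca482060382086086082182085f81f7de82082082082082086181e8208208207e082081f7e086181f8210801 z
 (n 34 z (n 0 z z))))))))))))))))))))) (n 29 (n 6636291 z (n 0 z (n 0 z z))) (n 1 (n 6636291 z
 (n 0 z (n 0 z (n 0 z z)))) (n 0 (n 6636291 z (n 0 z (n 0 z (n 0 z (n 0 z z))))) z)))))) (n 29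
 (n 0 (n 1161 (n 0 z (n 0 z (n 0 z (n 0 z (n 0 z (n 0 z (n 0 z (n 0 z (n 0 z (n 0 z (n 0 z (n 0
 z (n 0 z (n 0 z (n 0 z (n 0 z (n 0 z (n 0 z (n 0 z (n 0 z (n 0 z z))))))))))))))))))))) (n 1161
 (n 0 z (n 0 z (n 0 z (n 0 z (n 0 z (n 0 z (n 0 z (n 0 z (n 0 z (n 0 z (n 0 z (n 0 z (n 0 z (n 0
 z (n 0 z (n 0 z (n 0 z (n 0 z (n 0 z (n 0 z (n 0 z z))))))))))))))))))))) (n 1161 (n
 0xc86ec4a0709d098c540e23b1ba0281c376174050388ec4c80a070d8c5c8140e03a9328a01c075175040382ec4ca080301d09944c060b2a32a101c265365320182c86c864030d90d9408061321b20100c364153020384ecaeca00781e79f7de7a47258608e18266de82079f8e28a29da6237e07627a47626e2899a5b8a18267a18801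
 z (n 0 z (n 0 z (n 0 z (n 0 z (n 0 z (n 0 z (n 0 z (n 0 z (n 0 z (n 0 z (n 0 z (n 0 z (n 0 z (n
 0 z (n 0 z (n 0 z (n 0 z (n 0 z (n 0 z (n 0 z z))))))))))))))))))))) (n 1161 (n 0 z (n 0 z (n 0
 z (n 0 z (n 0 z (n 0 z (n 0 z (n 0 z (n 0 z (n 0 z (n 0 z (n 0 z (n 0 z (n 0 z (n 0 z (n 0 z (n
 0 z (n 0 z (n 0 z (n 0 z (n 0 z z))))))))))))))))))))) z)))) (n 0 (n 0 z (n 0 z (n 0 z z))) (n
 0 (n 0 z (n 0 z z)) (n 0 (n 0 z z) (n 0 z z))))) (n 0 (n 1 (n 6636291 z (n 6636291 z (n 6636291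
 z (n 6636291 z (n 6636291 z (n 6636291 z z)))))) (n 0 z (n 0 z z))) (n 0 z z)))) (n
 0x6142e32126ec30231520994e14b4d84518c809bcc0 (n 0 (n 585 (n 0 z (n 6496339 z (n 2 z (n 6496339
 z (n 10 z (n 0 z (n 0 z (n 0 z z)))))))) (n 255 (n 0 z (n 0 z (n
 0x4ca6a604037e08218218218207a182182082085f82082086082082082082082082082182082082081f7e00801 z
 (n 0 z (n
 0x18ca6a864035cec1869eb20aa6b988a762f7695e92d996c45a9ec71a8da92882157979b62515e857427a1c0801 z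
 (n 0xeca6c864037df9e28a079f89f6a16db8a382096199f95b75d85d7a66e07df8da7e485e69d8629237237e40801
 z (n 0 z (n 0 z (n 0 z (n 0 z (n 18 z (n 0 z (n 0 z (n 0 z (n 0 z (n 0 z (n 26 z (n 0 z (n 0 z
 (n 0 z (n 0 z (n 0 z (n 3278363 z (n 0 z (n 0 z (n 34 z (n 5506587 z (n 0 z (n 42 z (n
 0x2ca6a6040782082082086082086081e8208208208207e08218208208208208208208208208208208208200801 z
 (n 4326939 z z))))))))))))))))))))))))))))))) (n 129 (n 0 z (n 0 z (n 0 z (n 0 z (n 0 z (n 0 z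
 (n 0 z (n 0 z (n 6636083 z (n 0 z (n 0 z z))))))))))) (n 3 (n 50 z (n 0 z (n 0 z (n 0 z (n
 6496339 z z))))) (n 1 (n 6636083 z (n 0 z (n 58 z (n 0 z (n 6636083 z z))))) (n 0 (n 0 z (n
 6636083 z (n 0 z z))) z)))))) (n 0 (n 0 (n 0 z (n 1399 (n 0 z (n 0 z (n 0 z (n 0 z (n 0 z
 z))))) (n 1399 (n 0 z (n 0 z (n 0 z (n 0 z (n 0 z z))))) (n 1399 (n 0 z (n 0 z (n 0 z (n 0 z (n
 0 z z))))) (n 1399 (n 0 z (n 0 z (n 0 z (n 0 z (n 0 z z))))) (n 1393 (n 0 z (n 0 z (n 0 z (n 0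
 z (n 0 z (n 0 z (n 0 z (n 0 z (n 0 z (n 0 z (n 0 z (n 0 z (n 0 z z))))))))))))) (n 197 (n 0 z
 (n 0 z (n 0 z (n 0 z (n 0 z (n 0 z (n 0 z (n 0 z (n 0 z (n 0 z (n 0 z (n 7616027 z (n 0 z (n 0
 z (n 0 z (n 0 z (n 0 z z))))))))))))))))) z))))))) (n 0 (n 1003 (n 0 z (n 0 z (n 0 z (n 0 z (n
 0 z z))))) (n 1003 (n 2 (n 0 z (n 0 z (n 2 (n 0 (n 5637 z (n 5637 z z)) (n 0 z (n 0 (n 8590859
 z (n 7753859 z z)) (n 0 z (n 0 z (n 0 (n 3988 z (n 3988 z z)) z)))))) (n 2 (n 0 z (n 0 z (n 0 z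
 (n 0 z (n 0 z (n 0 z z)))))) z)))) (n 0 z (n 0 z (n 0 z (n 0 z z))))) (n 1003 (n 0 z (n 0 z (n
 0 z (n 0 z (n 0 z z))))) (n 1003 (n 0 z (n 0 z (n 0 z (n 0 z (n 0 z z))))) (n 997 (n 0 z (n 2
 (n 2 (n 0 z (n 0 z (n 0 z (n 0 z (n 0 z (n 0 z z)))))) z) (n 0 z (n 0 z (n 0 z (n 0 z (n 0 z (n
 0 z (n 0 z (n 0 z (n 0 z z))))))))))) (n 243 (n 0 z (n 0 z (n 0 z (n 0 z (n 0 z (n 2 z (n 0 z
 (n 0 z (n 0 z (n 0 z (n 0 z (n 0 z z)))))))))))) z)))))) (n 0 (n 0 z (n 0 z (n 0 z (n 1169 (n 0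
 z (n 0 z (n 0 z (n 0 z (n 0 z (n 0 z (n 0 z (n 0 z (n 0 z (n 0 z (n 0 z (n 0 z (n 0 z (n 0 z (n
 0 z (n 0 z z)))))))))))))))) (n 51 (n 0 z (n 0 z (n 0 z (n 0 z (n 0 z z))))) z))))) (n 0 (n 0 z
 (n 0 z (n 1409 (n 0 z (n 0 z (n 0 z (n 0 z (n 0 z (n 0 z (n 0 z (n 0 z (n 0 z (n 0 z (n 0 z (n
 0 z (n 0 z (n 0 z (n 0 z (n 0 z (n 0 z (n 0 z (n 0 z (n 0 z (n 0 z (n 0 z (n 0 z (n 0 z (n 0 z
 (n 0 z z)))))))))))))))))))))))))) (n 777 (n 0 z (n 0 z (n 0 z (n 0 z (n 0 z (n 0 z (n 0 z (n 0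
 z (n 0 z (n 0 z (n 0 z (n 0 z (n 0 z (n 0 z (n 0 z (n 0 z (n 0 z (n 0 z (n 0 z (n 0 z (n 0 z (n
 0 z (n 2 z (n 0 z (n 0 z (n 0 z (n 0 z (n 0 z (n 0 z (n 0 z (n 0 z
 z))))))))))))))))))))))))))))))) z)))) (n 0 (n 0 z (n 295 (n 0 z (n 0 z (n 0 z (n 0 z (n 0 z (n
 0 z (n 0 z (n 0 z (n 0 z (n 0 z (n 0 z z))))))))))) (n 3 (n 0 z (n 0 z (n 0 z (n 0 z (n 0 z (n
 0 z (n 0 z (n 0 z (n 0 z (n 0 z (n 0 z (n 0 z (n 0 z (n 0 z (n 0 z (n 0 z (n 0 z (n 0 z (n 0 z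
 (n 0 z (n 0 z (n 0 z (n 0 z (n 0 z (n 0 z (n 0 z (n 0 z (n 0 z (n 0 z (n 0 z (n 0 z (n 0 z (n 0
 z (n 0 z (n 0 z (n 0 z z)))))))))))))))))))))))))))))))))))) z))) (n 0 (n 55 (n 0 z (n 0 z (n 0
 z (n 0 z (n 0 z (n 0 z z)))))) (n 339 (n 0 z (n 0 z (n 0 z (n 0 z (n 0 z (n 0 z z)))))) z)) (n
 0 (n 3 (n 0 z (n 2 z (n 0 z (n 0 z (n 0 z (n 0 z z)))))) z) (n 0 z z)))))))) (n 0 (n 0 z (n 1
 (n 6636083 z (n 6636083 z (n 6636083 z (n 6636083 z (n 6636083 z (n 6636083 z z)))))) (n 0 z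
 z))) (n 0 z z)))) (n 0x2c63a132cd8196640593220597130ca89904a6984626580d4980 (n 0x22659 (n 153
 (n 0 z (n 0 z (n 0 z (n 2 z (n 0 z (n 6619675 z (n
 0x2a64ca280382082082082082082086182086082186081f8218207e18208608208207a18207e181f8208200801 z
 (n 10 z (n 0 z (n 3282443 z (n 0 z (n 0 z (n 0 z (n 0 z (n 0 z (n 3282443 z z))))))))))))))))
 (n 33 (n 0 z (n 18 z (n 26 z (n 6631747 z z)))) (n 11 (n 0 z (n 34 z (n 0 z (n 0 z (n 6562131 z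
 z))))) (n 27 (n 0 z (n 6631747 z (n 42 z z))) (n 1 (n 0 z (n 50 z (n 58 z (n 0 z (n 0 z (n
 6562131 z z)))))) (n 0 (n 0 z (n 66 z (n
 0x2ca886020382082082082082082086082082082082082082082082182082082081f8208208207e08208200801 z
 (n 0 z (n 74 z (n
 0x2c86c862037e081f8607e181f8a275e81e89f7df8a07df8627df81f86189f85e7e085f75f8a18df8607a10801 z
 (n 0 z (n 6631747 z (n 6631747 z (n 6631747 z (n 6631747 z z))))))))))) z)))))) (n 27 (n 0 (n 0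
 z (n 983 (n 0 z (n 0 z (n 0 z (n 0 z (n 0 z (n 2 (n 0 z (n 1 z (n 2 (n 0 z (n 0 z (n 0 z (n 0 z
 (n 0 z (n 0 z z)))))) (n 2 (n 0 z (n 0 z (n 0 z (n 0 z (n 0 z (n 0 z z)))))) (n 2 (n 0 z (n 0 z
 (n 0 z (n 0 z (n 0 z (n 0 z z)))))) (n 1 z (n 1 z z))))))) (n 0 z (n 0 z (n 0 z (n 0 z (n 0 z
 (n 0 z (n 0 z (n 0 z (n 0 z (n 0 z (n 0 z (n 0 z (n 0 z z))))))))))))))))))) (n 983 (n 0 z (n 0
 z (n 0 z (n 0 z (n 0 z (n 0 z (n 0 z (n 0 z (n 0 z (n 0 z (n 0 z (n 0 z (n 0 z (n 0 z (n 0 z (n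
 0 z (n 0 z (n 0 z (n 0 z z))))))))))))))))))) (n 1347 (n 0 z (n 0 z (n 0 z (n 0 z (n 0 z (n 0 z
 (n 0 z (n 0 z (n 0 z (n 0 z (n 0 z (n 0 z (n 0 z (n 0 z (n 0 z (n 0 z z)))))))))))))))) (n 981
 (n 0 z (n 0 z (n 0 z (n 0 z (n 0 z (n 2 (n 2 (n 0 z (n 0 z (n 0 z (n 0 z (n 0 z (n 0 z z))))))
 (n 2 (n 0 z (n 0 z (n 0 z (n 0 z (n 0 z (n 0 z z)))))) (n 2 (n 0 z (n 0 z (n 0 z (n 0 z (n 0 z
 (n 0 z z)))))) (n 2 (n 0 z (n 0 z (n 0 z (n 0 z (n 0 z (n 0 z z)))))) z)))) (n 0 z (n 0 z (n 0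
 z (n 0 z (n 0 z (n 0 z (n 0 z (n 0 z (n 0 z (n 0 z z)))))))))))))))) (n 1345 (n 0 z (n 0 z (n 0
 z (n 0 z (n 0 z (n 0 z (n 0 z (n 0 z (n 0 z (n 2 (n 0 z (n 2 (n 0 z (n 0 z (n 0 z (n 0 z (n 0 z
 (n 0 z z)))))) (n 2 (n 0 z (n 0 z (n 0 z (n 0 z (n 0 z (n 0 z z)))))) z))) (n 0 z (n 0 z (n 0 z
 (n 0 z (n 0 z (n 0 z (n 0 z (n 0 z (n 0 z z))))))))))))))))))) (n 1345 (n 0 z (n 0 z (n 0 z (n
 0 z (n 0 z (n 0 z (n 0 z (n 0 z (n 0 z (n 0 z (n 0 z (n 0 z (n 0 z (n 0 z (n 0 z (n 0 z (n 0 z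
 (n 0 z (n 0 z z))))))))))))))))))) (n 305 (n 0 z (n 0 z (n 0 z (n 0 z (n 0 z (n 2 (n 0 z z) (n
 0 z (n 0 z (n 0 z (n 0 z (n 0 z (n 0 z (n 0 z (n 0 z (n 0 z (n 0 z (n 0 z (n 0 z (n 0 z
 z))))))))))))))))))) (n 305 (n 0 z (n 0 z (n 0 z (n 0 z (n 0 z (n 0 z (n 0 z (n 0 z (n 0 z (n 0
 z (n 0 z (n 0 z (n 0 z (n 0 z (n 0 z (n 0 z (n 0 z (n 0 z (n 0 z z)))))))))))))))))))
 z))))))))) (n 0 (n 79 (n 0 z (n 0 z (n 2 (n 0 z (n 1 z (n 1 z (n 2 (n 0 z (n 0 z (n 0 z (n 0 z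
 (n 0 z (n 0 z z)))))) (n 1 z (n 1 z (n 1 z z))))))) (n 0 z (n 0 z (n 0 z (n 0 z (n 0 z
 z)))))))) (n 79 (n 0 z (n 0 z (n 0 z (n 0 z (n 0 z (n 0 z (n 0 z (n 0 z z)))))))) (n 915 (n 0 z
 (n 0 z (n 0 z (n 0 z (n 0 z (n 0 z (n 0 z (n 0 z (n 0 z (n 0 z (n 0 z (n 0 z (n 0 z (n 0 z (n 0
 z (n 0 z (n 0 z z))))))))))))))))) (n 75 (n 0 z (n 0 z (n 0 z (n 0 z (n 0 z (n 0 z (n 0 z (n 0
 z (n 0 z z))))))))) (n 483 (n 0 z (n 0 z (n 0 z (n 0 z (n 0 z (n 0 z (n 0 z (n 0 z (n 0 z (n 0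
 z (n 0 z (n 0 z (n 0 z z))))))))))))) (n 483 (n 0 z (n 0 z (n 0 z (n 0 z (n 0 z (n 0 z (n 0 z
 (n 0 z (n 0 z (n 0 z (n 0 z (n 0 z (n 0 z z))))))))))))) (n 73 (n 0 z (n 0 z (n 0 z (n 0 z (n 0
 z (n 0 z (n 0 z (n 0 z (n 0 z (n 0 z (n 0 z (n 0 z z)))))))))))) (n 73 (n 0 z (n 0 z (n 0 z (n
 0 z (n 0 z (n 0 z (n 0 z (n 0 z (n 0 z (n 0 z (n 0 z (n 2 z z)))))))))))) z)))))))) (n 0 (n 0 z
 (n 347 (n 2 (n 1 z (n 2 (n 0 z (n 0 z (n 0 z (n 0 z (n 0 z (n 0 z z)))))) (n 1 z (n 1 z (n 1 z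
 z))))) (n 0 z (n 0 z (n 0 z z)))) (n 55 (n 0 z (n 0 z (n 0 z (n 0 z (n 2 (n 1 z (n 2 (n 0 z (n
 0 z (n 0 z (n 0 z (n 0 z (n 0 z z)))))) (n 1 z (n 2 (n 0 z (n 0 z (n 0 z (n 0 z (n 0 z (n 0 z
 z)))))) z)))) (n 0 z (n 0 z (n 0 z (n 0 z (n 0 z (n 0 z (n 0 z z)))))))))))) (n 51 (n 0 z (n 0
 z (n 0 z (n 0 z (n 2 (n 0 z (n 1 z (n 2 (n 0 z (n 0 z (n 0 z (n 0 z (n 0 z (n 0 z z)))))) z)))
 (n 0 z (n 0 z (n 0 z (n 0 z (n 0 z (n 0 z z))))))))))) (n 51 (n 0 z (n 0 z (n 0 z (n 0 z (n 0 z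
 (n 0 z (n 0 z (n 2 (n 1 z (n 2 (n 0 z (n 0 z (n 0 z (n 0 z (n 0 z (n 0 z z)))))) z)) (n 0 z (n
 0 z (n 0 z z))))))))))) (n 49 (n 0 z (n 0 z (n 0 z (n 0 z (n 2 (n 0 z z) (n 7680099 z (n 0 z (n
 0 z (n 0 z (n 0 z (n 0 z (n 0 z (n 0 z (n 0 z (n 0 z (n 0 z (n 0 z (n 0 z (n 0 z (n 0 z (n 0 z
 (n 0 z (n 0 z (n 0 z (n 0 z (n 0 z (n 0 z (n 0 z (n 0 z (n 0 z (n 0 z (n 0 z
 z)))))))))))))))))))))))))))))))) (n 49 (n 0 z (n 0 z (n 0 z (n 0 z (n 0 z (n 0 z (n 0 z (n 0 z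
 (n 0 z (n 0 z (n 0 z (n 0 z (n 0 z (n 0 z (n 0 z (n 0 z (n 0 z (n 0 z (n 0 z (n 0 z (n 0 z (n 0
 z (n 0 z (n 0 z (n 0 z (n 0 z (n 0 z (n 0 z (n 0 z (n 0 z (n 0 z (n 0 z
 z)))))))))))))))))))))))))))))))) z))))))) (n 0 (n 19 (n 0 z (n 0 z (n 0 z (n 0 z (n 0 z (n 0 z
 (n 0 z (n 0 z z)))))))) (n 295 (n 0 z (n 0 z (n 0 z (n 0 z (n 0 z z))))) (n 3 (n 0 z (n 0 z (n
 0 z (n 0 z (n 0 z z))))) (n 3 (n 0 z (n 0 z (n 0 z (n 0 z (n 0 z z))))) (n 293 (n 0 z (n 0 z (n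
 0 z (n 0 z (n 0 z (n 0 z (n 0 z (n 0 z (n 0 z (n 0 z (n 0 z (n 0 z (n 0 z (n 0 z (n 0 z (n 0 z
 (n 0 z (n 0 z (n 0 z (n 0 z (n 0 z (n 0 z (n 0 z (n 0 z (n 0 z z))))))))))))))))))))))))) (n
 293 (n 0 z (n 0 z (n 0 z (n 0 z (n 0 z (n 0 z (n 0 z (n 0 z (n 0 z (n 0 z (n 0 z (n 0 z (n 0 z
 (n 0 z (n 0 z (n 0 z (n 0 z (n 0 z (n 0 z (n 2 z (n 0 z (n 0 z (n 0 z (n 0 z (n 0 z
 z))))))))))))))))))))))))) z)))))) (n 0 (n 55 (n 0 z (n 0 z (n 0 z z))) (n 51 (n 0 z (n 0 z (n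
 0 z (n 0 z (n 0 z (n 0 z (n 0 z z))))))) (n 51 (n 0 z (n 0 z (n 0 z (n 0 z (n 0 z (n 0 z (n 0 z
 z))))))) (n 49 (n 0 z (n 0 z (n 0 z (n 0 z (n 0 z (n 0 z (n 0 z (n 0 z (n 0 z (n 0 z (n 0 z (n
 0 z z)))))))))))) (n 49 (n 0 z (n 0 z (n 2 z (n 0 z (n 0 z (n 0 z (n 0 z (n 0 z (n 0 z (n 0 z
 (n 0 z (n 0 z z)))))))))))) z))))) (n 0 (n 63 (n 0 z (n 0 z (n 0 z (n 0 z (n 0 z (n 0 z z))))))
 (n 63 (n 0 z (n 0 z (n 0 z (n 0 z (n 0 z (n 0 z z)))))) (n 61 (n 0 z (n 0 z (n 0 z (n 0 z (n 0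
 z (n 0 z (n 0 z (n 0 z (n 0 z (n 0 z (n 0 z (n 0 z z)))))))))))) (n 61 (n 0 z (n 2 z (n 0 z (n
 0 z (n 0 z (n 0 z (n 0 z (n 0 z (n 0 z (n 0 z (n 0 z (n 0 z z)))))))))))) z)))) (n 0 (n 0 z (n
 25 (n 0 z (n 0 z (n 0 z (n 0 z (n 0 z (n 0 z (n 0 z (n 0 z (n 0 z (n 0 z (n 0 z (n 0 z (n 0 z
 (n 0 z (n 0 z (n 0 z (n 0 z (n 0 z (n 0 z (n 0 z (n 0 z (n 0 z (n 0 z (n 0 z (n 0 z (n 0 z (n 0
 z (n 0 z (n 0 z (n 0 z (n 0 z (n 0 z (n 0 z (n 0 z (n 0 z (n 0 z (n 0 z (n 0 z (n 0 z (n 0 z (n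
 0 z (n 0 z (n 0 z (n 0 z (n 0 z (n 0 z (n 0 z (n 0 z (n 0 z
 z))))))))))))))))))))))))))))))))))))))))))))))))) (n 25 (n 0 z (n 0 z (n 0 z (n 0 z (n 0 z (n
 0 z (n 0 z (n 0 z (n 0 z (n 0 z (n 0 z (n 0 z (n 0 z (n 0 z (n 0 z (n 0 z (n 0 z (n 0 z (n 0 z
 (n 0 z (n 0 z (n 0 z (n 0 z (n 0 z (n 0 z (n 0 z (n 0 z (n 0 z (n 0 z (n 0 z (n 0 z (n 2 z (n 0
 z (n 0 z (n 0 z (n 0 z (n 0 z (n 0 z (n 0 z (n 0 z (n 0 z (n 0 z (n 0 z (n 0 z (n 0 z (n 0 z (n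
 0 z (n 0 z (n 0 z z))))))))))))))))))))))))))))))))))))))))))))))))) z))) (n 0 (n 73 (n 0 z (n
 0 z (n 0 z (n 0 z (n 0 z (n 0 z (n 0 z (n 0 z (n 0 z (n 0 z (n 0 z (n 0 z (n 0 z (n 0 z (n 0 z
 (n 0 z (n 0 z (n 0 z (n 0 z (n 0 z (n 0 z (n 0 z (n 0 z (n 0 z (n 0 z (n 0 z (n 0 z (n 0 z (n 0
 z (n 0 z (n 0 z (n 0 z (n 0 z (n 0 z (n 0 z (n 0 z (n 0 z (n 0 z (n 0 z (n 0 z (n 0 z (n 0 z (n
 0 z (n 0 z (n 0 z (n 0 z (n 0 z z))))))))))))))))))))))))))))))))))))))))))))))) (n 73 (n 0 z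
 (n 0 z (n 0 z (n 0 z (n 0 z (n 0 z (n 0 z (n 0 z (n 0 z (n 0 z (n 0 z (n 0 z (n 0 z (n 0 z (n 0
 z (n 0 z (n 0 z (n 0 z (n 0 z (n 0 z (n 0 z (n 0 z (n 0 z (n 0 z (n 0 z (n 0 z (n 0 z (n 0 z (n
 0 z (n 0 z (n 0 z (n 0 z (n 0 z (n 0 z (n 0 z (n 0 z (n 0 z (n 0 z (n 0 z (n 0 z (n 0 z (n 0 z
 (n 2 z (n 0 z (n 0 z (n 0 z (n 0 z z))))))))))))))))))))))))))))))))))))))))))))))) z)) (n 0 (n
 0 z z) (n 0 z z)))))))))) (n 0 (n 0 z (n 1 (n 6631747 z (n 6631747 z (n 6631747 z (n 6631747 z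
 (n 6631747 z (n 6631747 z z)))))) (n 1 (n 1228 z (n 5449227 z (n 2 z (n 1228 z (n 1228 z (n
 1228 z z)))))) z))) (n 0 (n 0x41631d29a611 (n 0 (n 0 (n 7741699 z (n 7741699 z (n 7741699 z (n
 7741699 z (n 7741699 z (n 7741699 z z)))))) z) (n 0 (n 39 (n 1 (n 7750427 z (n 7538203 z (n
 1228 z (n 7668251 z (n 1228 z (n 1228 z z)))))) (n 1 (n 1228 z (n 1228 z (n 7750427 z (n 1228 z
 (n 7668251 z (n 1228 z z)))))) (n 1 (n 6493963 z (n 7750427 z (n 7668251 z (n 1228 z (n 1228 z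
 (n 1228 z z)))))) (n 1 (n 6559499 z (n 7668251 z (n 1228 z (n 1228 z (n 1228 z (n 1228 z
 z)))))) (n 1 (n 3282699 z (n 4400907 z (n 4400907 z (n 4400907 z (n 4400907 z (n 4400907 z
 z)))))) (n 1 (n 3282699 z (n 4400907 z (n 4400907 z (n 4400907 z (n 4400907 z (n 4400907 z
 z)))))) (n 1 (n 7680323 z (n 7680323 z (n 7680323 z (n 7680323 z (n 7680323 z (n 7680323 z
 z)))))) (n 0 z z)))))))) (n 33 (n 0 z (n 1 (n 2 z (n 6631539 z (n 6620987 z (n 1276 z (n 1276 z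
 (n 1276 z z)))))) (n 1 (n 7741699 z (n 7741699 z (n 7741699 z (n 7741699 z (n 7741699 z (n
 7741699 z z)))))) (n 1 (n 7741699 z (n 7741699 z (n 7741699 z (n 7741699 z (n 7741699 z (n
 7741699 z z)))))) z)))) (n 27 (n 1 (n 3772 z (n 92 z (n 3772 z (n 7750427 z (n 3772 z (n 3772 z
 z)))))) (n 1 (n 7680323 z (n 7680323 z (n 7680323 z (n 7680323 z (n 7680323 z (n 7680323 z
 z)))))) (n 1 (n 7741699 z (n 7741699 z (n 7741699 z (n 7741699 z (n 7741699 z (n 7741699 z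
 z)))))) z))) (n 51 (n 1 (n 3388 z (n 3388 z (n 220 z (n 7668251 z (n 3388 z (n 3388 z z))))))
 (n 1 (n 7680323 z (n 7680323 z (n 7680323 z (n 7680323 z (n 7680323 z (n 7680323 z z)))))) (n 1
 (n 7741699 z (n 7741699 z (n 7741699 z (n 7741699 z (n 7741699 z (n 7741699 z z)))))) z))) (n
 81 (n 1 (n 6493963 z (n 5443699 z (n 7668251 z (n 2572 z (n 2572 z (n 2572 z z)))))) (n 1 (n
 7741699 z (n 7741699 z (n 7741699 z (n 7741699 z (n 7741699 z (n 7741699 z z)))))) (n 0 z (n 0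
 z (n 1 (n 7610707 z (n 7610707 z (n 7610707 z (n 7610707 z (n 7610707 z (n 7610707 z z))))))
 z))))) (n 0 (n 0 z (n 1 (n 7741699 z (n 7741699 z (n 7741699 z (n 7741699 z (n 7741699 z (n
 7741699 z z)))))) (n 1 (n 5356 z (n 6358859 z (n 5356 z (n 6496371 z (n 5356 z (n 7538203 z
 z)))))) (n 0 z (n 1 (n 5356 z (n 10 z (n 7677451 z (n 7538203 z (n 5356 z (n 5356 z z)))))) (n
 1 (n 5356 z (n 6358859 z (n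
 0x4e86e862037e17df8a07e081e92371d85e91e81f8a07df86179e81f86289f85e79f85e7208e195e8627a10801 z
 (n 7677451 z (n 5356 z (n 7538203 z z)))))) (n 0 z (n 1 (n 7741699 z (n 7741699 z (n 7741699 z
 (n 7741699 z (n 7741699 z (n 7741699 z z)))))) (n 1 (n 7680323 z (n 7680323 z (n 7680323 z (n
 7680323 z (n 7680323 z (n 7680323 z z)))))) (n 1 (n 7680323 z (n 7680323 z (n 7680323 z (n
 7680323 z (n 7680323 z (n 7680323 z z)))))) (n 1 (n 7680323 z (n 7680323 z (n 7680323 z (n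
 7680323 z (n 7680323 z (n 7680323 z z)))))) z))))))))))) (n 27 (n 0 z (n 1 (n 7680323 z (n
 7680323 z (n 7680323 z (n 7680323 z (n 7680323 z (n 7680323 z z)))))) (n 1 (n 7741699 z (n
 7741699 z (n 7741699 z (n 7741699 z (n 7741699 z (n 7741699 z z)))))) z))) z))))))) (n 0 (n 0
 (n 0 z (n 0 z z)) (n 0 (n 0 z z) z)) (n 0 (n 159 (n 0 (n 0 z (n 0 z z)) (n 0 (n 0 z (n 0 z z))
 (n 0 (n 0 z (n 0 z z)) (n 0 (n 0 z (n 0 z z)) (n 0 (n 0 z (n 0 z z)) (n 0 (n 0 z (n 0 z z)) (n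
 0 (n 0 z (n 0 z z)) (n 0 (n 0 z (n 0 z z)) z)))))))) (n 471 (n 0 (n 0 z (n 0 z z)) (n 0 (n 0 z
 (n 0 z z)) (n 0 (n 0 z (n 0 z z)) (n 0 (n 0 z (n 0 z z)) (n 0 (n 0 z (n 0 z z)) (n 0 (n 0 z (n
 0 z z)) (n 0 (n 0 z (n 0 z z)) (n 0 (n 0 z (n 0 z z)) (n 0 (n 0 z (n 0 z z)) (n 0 (n 0 z (n 0 z
 z)) (n 0 (n 0 z (n 0 z z)) (n 0 (n 0 z (n 0 z z)) (n 0 (n 0 z (n 0 z z)) (n 0 (n 0 z (n 0 z z))
 (n 0 (n 0 z (n 0 z z)) (n 0 (n 0 z (n 0 z z)) (n 0 (n 0 z (n 0 z z)) z))))))))))))))))) (n 33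
 (n 0 (n 0 z (n 0 z z)) (n 0 (n 0 z (n 0 z z)) (n 0 (n 0 z (n 0 z z)) (n 0 (n 0 z (n 0 z z)) (n
 0 (n 0 z (n 0 z z)) (n 0 (n 0 z (n 0 z z)) (n 0 (n 0 z (n 0 z z)) (n 0 (n 0 z (n 0 z z))
 z)))))))) (n 423 (n 0 (n 0 z (n 0 z z)) (n 0 (n 0 z (n 0 z z)) (n 0 (n 0 z (n 0 z z)) (n 0 (n 0
 z (n 0 z z)) (n 0 (n 0 z (n 0 z z)) (n 0 (n 0 z (n 0 z z)) (n 0 (n 0 z (n 0 z z)) (n 0 (n 0 z
 (n 0 z z)) (n 0 (n 0 z (n 0 z z)) z))))))))) (n 411 (n 0 (n 0 z (n 0 z z)) (n 0 (n 0 z (n 0 z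
 z)) (n 0 (n 0 z (n 0 z z)) (n 0 (n 0 z (n 0 z z)) (n 0 (n 0 z (n 0 z z)) z))))) (n 51 (n 0 (n 0
 z (n 0 z z)) (n 0 (n 0 z (n 0 z z)) (n 0 (n 0 z (n 0 z z)) z))) (n 321 (n 0 (n 0 z (n 0 z z))
 (n 0 (n 0 z (n 0 z z)) (n 0 (n 0 z (n 0 z z)) (n 0 (n 0 z (n 0 z z)) (n 0 (n 0 z (n 0 z z)) (n
 0 (n 0 z (n 0 z z)) (n 0 (n 0 z (n 0 z z)) (n 0 (n 0 z (n 0 z z)) (n 0 (n 0 z (n 0 z z)) (n 0
 (n 0 z (n 0 z z)) (n 0 (n 0 z (n 0 z z)) (n 0 (n 0 z (n 0 z z)) (n 0 (n 0 z (n 0 z z))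
 z))))))))))))) (n 81 (n 0 (n 0 z (n 0 z z)) (n 0 (n 0 z (n 0 z z)) (n 0 (n 0 z (n 0 z z)) (n 0
 (n 0 z (n 0 z z)) (n 0 (n 0 z (n 0 z z)) z))))) (n 75 (n 0 (n 0 z (n 0 z z)) (n 0 (n 0 z (n 0 z
 z)) (n 0 (n 0 z (n 0 z z)) (n 0 (n 0 z (n 0 z z)) (n 0 (n 0 z (n 0 z z)) (n 0 (n 0 z (n 0 z z))
 (n 0 (n 0 z (n 0 z z)) z))))))) (n 37 (n 0 (n 0 z (n 0 z z)) (n 0 (n 0 z (n 0 z z)) (n 0 (n 0 z
 (n 0 z z)) (n 0 (n 0 z (n 0 z z)) (n 0 (n 0 z (n 0 z z)) (n 0 (n 0 z (n 0 z z)) z)))))) (n 669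
 (n 0 (n 0 z (n 0 z z)) (n 0 (n 0 z (n 0 z z)) (n 0 (n 0 z (n 0 z z)) (n 0 (n 0 z (n 0 z z)) (n
 0 (n 0 z (n 0 z z)) (n 0 (n 0 z (n 0 z z)) (n 0 (n 0 z (n 0 z z)) (n 0 (n 0 z (n 0 z z)) (n 0
 (n 0 z (n 0 z z)) (n 0 (n 0 z (n 0 z z)) (n 0 (n 0 z (n 0 z z)) (n 0 (n 0 z (n 0 z z))
 z)))))))))))) (n 653 (n 0 (n 0 z (n 0 z z)) (n 0 (n 0 z (n 0 z z)) (n 0 (n 0 z (n 0 z z)) (n 0
 (n 0 z (n 0 z z)) (n 0 (n 0 z (n 0 z z)) (n 0 (n 0 z (n 0 z z)) (n 0 (n 0 z (n 0 z z)) (n 0 (n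
 0 z (n 0 z z)) (n 0 (n 0 z (n 0 z z)) (n 0 (n 0 z (n 0 z z)) (n 0 (n 0 z (n 0 z z)) (n 0 (n 0 z
 (n 0 z z)) (n 0 (n 0 z (n 0 z z)) (n 0 (n 0 z (n 0 z z)) (n 0 (n 0 z (n 0 z z)) (n 0 (n 0 z (n
 0 z z)) (n 0 (n 0 z (n 0 z z)) (n 0 (n 0 z (n 0 z z)) (n 0 (n 0 (n 8718139 z z) (n 0 z z)) (n 0
 (n 0 z (n 0 z z)) (n 0 (n 0 (n 8795915 z z) (n 0 z z)) (n 0 (n 0 z (n 0 z z)) (n 0 (n 0 z (n 0
 z z)) (n 0 (n 0 z (n 0 z z)) (n 0 (n 0 z (n 0 z z)) z))))))))))))))))))))))))) (n 99 (n 0 (n 0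
 z (n 0 z z)) (n 0 (n 0 z (n 0 z z)) (n 0 (n 0 z (n 0 z z)) (n 0 (n 0 z (n 0 z z)) (n 0 (n 0 z
 (n 0 z z)) (n 0 (n 0 z (n 0 z z)) (n 0 (n 0 z (n 0 z z)) (n 0 (n 0 z (n 0 z z)) (n 0 (n 0 z (n
 0 z z)) (n 0 (n 0 z (n 0 z z)) (n 0 (n 0 z (n 0 z z)) (n 0 (n 0 z (n 0 z z)) z)))))))))))) (n
 43 (n 0 (n 0 z (n 0 z z)) (n 0 (n 0 z (n 0 z z)) (n 0 (n 0 z (n 0 z z)) (n 0 (n 0 z (n 0 z z))
 (n 0 (n 0 z (n 0 z z)) (n 0 (n 0 z (n 0 z z)) (n 0 (n 0 z (n 0 z z)) (n 0 (n 0 z (n 0 z z)) (n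
 0 (n 0 z (n 0 z z)) (n 0 (n 0 z (n 0 z z)) (n 0 (n 0 z (n 0 z z)) (n 0 (n 0 z (n 0 z z))
 z)))))))))))) (n 42 (n 0 (n 0 z (n 0 z z)) (n 0 (n 0 z (n 0 z z)) (n 0 (n 0 z (n 0 z z)) (n 0
 (n 0 z (n 0 z z)) (n 0 (n 0 z (n 0 z z)) (n 0 (n 0 z (n 0 z z)) (n 0 (n 0 z (n 0 z z)) (n 0 (n
 0 z (n 0 z z)) (n 0 (n 0 z (n 0 z z)) (n 0 (n 0 z (n 0 z z)) (n 0 (n 0 z (n 0 z z)) (n 0 (n 0 z
 (n 0 z z)) (n 0 (n 0 z (n 0 z z)) (n 0 (n 0 z (n 0 z z)) (n 0 (n 0 z (n 0 z z)) (n 0 (n 0 z (n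
 0 z z)) (n 0 (n 0 z (n 0 z z)) (n 0 (n 0 z (n 0 z z)) (n 0 (n 0 z (n 0 z z)) (n 0 (n 0 z (n 0 z
 z)) (n 0 (n 0 z (n 0 z z)) (n 0 (n 0 z (n 0 z z)) (n 0 (n 0 z (n 0 z z)) (n 0 (n 0 z (n 0 z z))
 (n 0 (n 0 z (n 0 z z)) (n 0 (n 0 z (n 0 z z)) (n 0 (n 0 z (n 0 z z)) (n 0 (n 0 z (n 0 z z)) (n
 0 (n 0 z (n 0 z z)) (n 0 (n 0 z (n 0 z z)) (n 0 (n 0 (n 8795915 z z) (n 0 z z)) (n 0 (n 0 z (n
 0 z z)) (n 0 (n 0 z (n 0 z z)) (n 0 (n 0 z (n 0 z z)) (n 0 (n 0 z (n 0 z z)) (n 0 (n 0 (n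
 8728691 z (n
 0x439c39900c1863831201810c70642077e081f8208208208a07e082082081f8218208208208208208217e08218208208208608608201801
 z z)) (n 0 z z)) (n 0 (n 0 z (n 0 z z)) (n 0 (n 0 z (n 0 z z)) (n 0 (n 0 z (n 0 z z)) (n 0 (n 0
 z (n 0 z z)) (n 0 (n 0 z (n 0 z z)) (n 0 (n 0 z (n 0 z z)) (n 0 (n 0 z (n 0 z z)) (n 0 (n 0 z
 (n 0 z z)) (n 0 (n 0 z (n 0 z z)) (n 0 (n 0 z (n 0 z z)) (n 0 (n 0 z (n 0 z z))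
 z))))))))))))))))))))))))))))))))))))))))))))))) (n 153 (n 0 (n 0 z (n 0 z z)) (n 0 (n 0 z (n 0
 z z)) (n 0 (n 0 z (n 0 z z)) (n 0 (n 0 z (n 0 z z)) (n 0 (n 0 z (n 0 z z)) (n 0 (n 0 z (n 0 z
 z)) (n 0 (n 0 z (n 0 z z)) (n 0 (n 0 z (n 0 z z)) (n 0 (n 0 z (n 0 z z)) (n 0 (n 0 z (n 0 z z))
 (n 0 (n 0 z (n 0 z z)) (n 0 (n 0 z (n 0 z z)) (n 0 (n 0 z (n 0 z z)) (n 0 (n 0 z (n 0 z z)) (n
 0 (n 0 z (n 0 z z)) (n 0 (n 0 z (n 0 z z)) z)))))))))))))))) (n 33 (n 0 (n 0 z (n 0 z z)) (n 0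
 (n 0 z (n 0 z z)) (n 0 (n 0 z (n 0 z z)) (n 0 (n 0 z (n 0 z z)) z)))) (n 11 (n 0 (n 0 z (n 0 z
 z)) (n 0 (n 0 z (n 0 z z)) (n 0 (n 0 z (n 0 z z)) (n 0 (n 0 z (n 0 z z)) (n 0 (n 0 z (n 0 z z))
 z))))) (n 27 (n 0 (n 0 z (n 0 z z)) (n 0 (n 0 z (n 0 z z)) (n 0 (n 0 z (n 0 z z)) z))) (n 1 (n
 0 (n 0 z (n 0 z z)) (n 0 (n 0 z (n 0 z z)) (n 0 (n 0 z (n 0 z z)) (n 0 (n 0 z (n 0 z z)) (n 0
 (n 0 z (n 0 z z)) (n 0 (n 0 z (n 0 z z)) z)))))) (n 0 (n 0 (n 0 z (n 0 z z)) (n 0 (n 0 z (n 0 z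
 z)) (n 0 (n 0 z (n 0 z z)) (n 0 (n 0 z (n 0 z z)) (n 0 (n 0 z (n 0 z z)) (n 0 (n 0 z (n 0 z z))
 (n 0 (n 0 z (n 0 z z)) (n 0 (n 0 z (n 0 z z)) (n 0 (n 0 z (n 0 z z)) (n 0 (n 0 z (n 0 z z)) (n
 0 (n 0 z (n 0 z z)) z))))))))))) z))))))))))))))))))))) z)))) z) z)))) z)))))))))),
 by decide +kernel⟩
theorem i10746 : ∃ t, chkR KT RW t 10746 10756 = true := ⟨(n
 0x7959438a2b42894ae089571046b8a011db80 (n 0 (n 153 (n 2 z (n 0 z (n 0 z (n 6619675 z (n 6619675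
 z (n
 0x2ca8a842037de8627de7e18e092179d82185f81f7df85f8a17e085e86286281d82289f7627e089f8207e00801 z
 (n 10 z (n 0 z (n 0 z (n 3282443 z z)))))))))) (n 33 (n 0 z (n 0 z (n 18 z (n 0 z (n 6631747 z
 z))))) (n 11 (n 26 z (n 0 z (n 6562131 z (n 0 z z)))) (n 27 (n 0 z (n 6631747 z (n 0 z z))) (n
 1 (n 34 z (n 0 z (n 0 z (n 6562131 z z)))) (n 0 (n 42 z (n 0 z (n 50 z (n 0 z (n 6631747 z (n
 6631747 z z)))))) z)))))) (n 27 (n 0 (n 0 z (n 983 (n 0 z (n 0 z (n 0 z (n 0 z (n 0 z (n 0 z (n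
 0 z (n 0 z (n 0 z (n 0 z (n 0 z z))))))))))) (n 1347 (n 0 z (n 0 z (n 0 z (n 0 z (n 0 z (n 0 z
 (n 0 z (n 0 z (n 0 z (n 0 z z)))))))))) (n 1345 (n 0 z (n 0 z (n 0 z (n 0 z (n 0 z (n 0 z (n 0
 z (n 0 z (n 0 z (n 0 z (n 0 z z))))))))))) (n 305 (n 0 z (n 0 z (n 0 z (n 0 z (n 0 z (n 0 z (n
 2 (n 0 z z) (n 0 z (n 0 z (n 0 z (n 0 z z))))))))))) (n 305 (n 0 z (n 0 z (n 0 z (n 0 z (n 0 z
 (n 0 z (n 0 z (n 0 z (n 0 z (n 0 z (n 0 z z))))))))))) z)))))) (n 0 (n 79 (n 0 z (n 0 z (n 0 z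
 (n 0 z z)))) (n 915 (n 0 z (n 0 z (n 0 z (n 0 z (n 0 z (n 0 z (n 0 z (n 0 z (n 0 z (n 0 z (n 0
 z (n 0 z (n 0 z (n 0 z z)))))))))))))) (n 483 (n 0 z (n 0 z (n 0 z (n 0 z (n 0 z z))))) (n 73
 (n 0 z (n 0 z (n 0 z (n 0 z (n 0 z (n 0 z (n 0 z z))))))) (n 73 (n 0 z (n 0 z (n 0 z (n 0 z (n
 0 z (n 0 z (n 2 z z))))))) z))))) (n 0 (n 19 (n 0 z (n 0 z (n 0 z (n 0 z (n 0 z (n 0 z (n 0 z
 (n 0 z z)))))))) (n 3 (n 0 z (n 0 z (n 0 z (n 0 z z)))) (n 293 (n 0 z (n 0 z (n 0 z (n 0 z (n 0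
 z (n 0 z (n 0 z (n 0 z (n 0 z (n 0 z (n 0 z (n 0 z (n 0 z (n 0 z (n 0 z (n 0 z (n 0 z (n 0 z (n
 0 z (n 0 z (n 0 z (n 0 z z)))))))))))))))))))))) (n 293 (n 0 z (n 0 z (n 0 z (n 0 z (n 0 z (n 0
 z (n 0 z (n 0 z (n 0 z (n 0 z (n 0 z (n 0 z (n 0 z (n 0 z (n 0 z (n 0 z (n 0 z (n 0 z (n 0 z (n
 2 z (n 0 z (n 0 z z)))))))))))))))))))))) z)))) (n 0 (n 51 (n 0 z (n 0 z (n 0 z (n 0 z (n 0 z
 (n 0 z z)))))) (n 49 (n 0 z (n 0 z (n 0 z (n 0 z (n 0 z (n 0 z (n 0 z z))))))) (n 49 (n 2 z (n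
 0 z (n 0 z (n 0 z (n 0 z (n 0 z (n 0 z z))))))) z))) (n 0 (n 25 (n 0 z (n 0 z (n 0 z (n 0 z (n
 0 z (n 0 z (n 0 z (n 0 z (n 0 z (n 0 z (n 0 z (n 0 z (n 0 z (n 0 z (n 0 z (n 0 z (n 0 z (n 0 z
 z)))))))))))))))))) (n 25 (n 0 z (n 0 z (n 0 z (n 0 z (n 0 z (n 0 z (n 0 z (n 0 z (n 0 z (n 0 z
 (n 0 z (n 0 z (n 0 z (n 0 z (n 0 z (n 0 z (n 0 z (n 0 z z)))))))))))))))))) z)) (n 0 (n 0 z z)
 (n 0 z z))))))) (n 0 (n 0 z (n 1 (n 6631747 z (n 6631747 z (n 6631747 z (n 6631747 z (n 6631747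
 z (n 6631747 z z)))))) (n 0 z z))) (n 0 z z)))) (n 0xad47686a399d700c6c605ad4026728073b00 (n 0
 (n 153 (n 0 z (n 2 z (n 3282443 z (n 0 z (n 6423323 z (n 0 z (n 0 z (n 10 z (n 0 z (n 18 z (n
 26 z (n 34 z (n 0 z (n 0 z (n 0 z (n 0 z (n 0 z (n 0 z z)))))))))))))))))) (n 59 (n 6496515 z
 (n 0 z (n 0 z (n 0 z (n 0 z (n 0 z z)))))) (n 53 (n 6496515 z (n 0 z (n 0 z (n 0 z (n 0 z (n 0
 z (n 0 z z))))))) (n 3 (n 6496515 z (n 6488603 z (n 0 z (n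
 0x6526504038032a32a101c1195190480610ca8a84207897e947582807d7b90806a7288b5848074805b806f80967a7767997b6b808a9a51a75a78669a6f818a838080a280718a658e2009
 z (n 0 z (n 0 z (n 0 z z))))))) (n 49 (n 0 z (n 0 z (n 42 z (n 6566419 z (n 0 z (n 0 z (n 0 z
 z))))))) (n 0 (n 0 z (n 0 z (n 6627635 z (n 50 z (n 0 z (n 0 z (n 0 z z))))))) z)))))) (n 59 (n
 0 (n 0 z (n 0 z (n 0 z (n 0 z (n 1225 (n 0 z (n 6621003 z (n 0 z (n 0 z (n 0 z (n 0 z (n 0 z (n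
 0 z (n 0 z z))))))))) (n 305 (n 0 z (n 0 z (n 0 z (n 0 z (n 0 z z))))) z)))))) (n 0 (n 0 z (n 0
 z (n 0 z (n 789 (n 0 z (n 0 z (n 0 z (n 0 z (n 0 z (n 0 z (n 0 z (n 0 z (n 0 z (n 0 z (n 0 z (n
 0 z (n 0 z (n 0 z (n 0 z (n 0 z (n 0 z z))))))))))))))))) (n 305 (n 2 z (n 0 z (n 0 z (n 0 z (n
 0 z (n 0 z (n 0 z z))))))) z))))) (n 0 (n 0 z (n 0 z (n 789 (n 0 z (n 0 z (n 0 z (n 0 z (n 0 z
 (n 0 z (n 0 z (n 0 z (n 0 z (n 0 z (n 0 z (n 0 z (n 0 z (n 0 z (n 0 z (n 0 z (n 0 z (n 0 z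
 z)))))))))))))))))) (n 589 (n 0 z (n 0 z (n 0 z (n 0 z (n 0 z (n 0 z (n 0 z (n 0 z (n 0 z (n 0
 z (n 0 z (n 0 z (n 0 z (n 0 z (n 0 z (n 0 z (n 0 z (n 0 z z)))))))))))))))))) z)))) (n 0 (n 0 z
 (n 789 (n 0 z (n 0 z (n 0 z (n 0 z (n 0 z (n 0 z (n 0 z z))))))) (n 961 (n 0 z (n 0 z (n
 6555483 z (n 0 z (n 0 z (n 0 z (n 0 z (n 0 z (n 0 z z))))))))) z))) (n 0 (n 789 (n 0 z (n 2 (n
 1 z z) (n 0 z (n 0 z (n 0 z (n 0 z (n 0 z z))))))) (n 305 (n 0 z (n 0 z (n 0 z (n 0 z (n 0 z (n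
 0 z (n 0 z (n 0 z (n 0 z (n 0 z (n 0 z (n 0 z z)))))))))))) z)) (n 0 (n 61 (n 0 z (n 0 z (n 0 z
 (n 0 z (n 0 z (n 0 z (n 0 z z))))))) z) (n 0 z z))))))) (n 0 (n 1 (n 6496515 z (n 6496515 z (n
 6496515 z (n 6496515 z (n 6496515 z (n 6496515 z z)))))) (n 0 z (n 0 z (n 0 z (n 0 z (n 0 z
 z)))))) (n 0 z z)))) (n 0x2e51d5824dda146dd1a57190e2d2c0cdb90666a842a1880 (n 0 (n 155 (n
 6557747 z (n 2 z (n 0 z (n 0 z z)))) (n 33 (n 6557747 z (n 0 z (n 4326939 z (n 6557747 z (n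
 0x2ca8a804078208617e082082081f81f7e081f8608217df8618e185f81f7e08208608208608608208218600801 z
 (n 6427963 z (n 6427963 z (n 0 z (n 0 z (n 0 z (n 0 z (n 0 z (n 10 z (n
 0xca6ca64037e28208608208207e17df81f82086086082082182182181f8208207e082081e8208208208200801 z (n
 6557747 z (n 6427963 z (n 18 z (n 0 z (n 0 z (n
 0x2ca886040782082082082082082081f7de82085e81f86086182081f8207de7a07a082082082085f82085f0801 z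
 (n 0 z (n 0 z (n 0 z (n 0 z (n 0 z (n 26 z (n 0 z (n 0 z z)))))))))))))))))))))))))))) (n 9 (n
 6496523 z (n 34 z (n 0 z (n 0 z z)))) (n 149 (n 4326971 z (n 6496523 z (n 6496523 z (n
 0x2c84c842038208207e08207e082082082081f8208208208218608608208218218208208a08217a08208200801 z
 (n 0 z (n
 0x2ca8ca800789c8a082082082082081e79d8208208208208228a18208208208208208208208208208208200801 z
 (n 0 z (n 0 z (n 0 z (n 0 z (n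
 0x2ca8a804078208607e082082081f81f79f82085f8607e08618a185f81f7e07e08208208608607e08208200801 z
 (n 0 z (n
 0x2ca8ca84078a082082082082082081e81e82089e86082082082282081e8217a27a08208618208208208200801 z
 (n
 0x65465020182ca8c8040781e96072082285f7a179e75d81f8e08a182086392389f81e7a07df82085f8a089f7df8618211001
 z (n 42 z (n 0 z (n 50 z (n 0 z (n 58 z (n 0 z (n 0 z (n 0 z (n 6496523 z
 z))))))))))))))))))))))) (n 121 (n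
 0x2ca6ca640789c8a27a07e08207a08608207e081f8a082082081f89f81f7a081f7e08207a382086081f8200801 z
 (n 0x2ca6c6240381e8a07a07e082089e8218227e086282281f82081c81e8207a082086081f8607e28208208200801
 z (n
 0x400064ca1481d86276279e8208218207e082086281f85e8207de81f8207208208208208618a08a28208200801 z
 (n 0 z (n 0 z (n 0 z (n 0 z (n
 0x2ca4ca400789c8df81e8218607a27de89e79f9208a08e18607e282281c7dd8207607e28227e089f82081f0801 z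
 (n 0 z (n 0 z (n 0 z (n
 0x2ca4ca400789c8a27a07e08207a08608207e081f8a082082081f89f81f7a081f7e08207a382086081f8200801 z
 (n 0x2ca6ca640789c8a27a07e08207a08608207e081f8a082082081f89f81f7a081f7e08207a382086081f8200801
 z (n
 0xb2a290180c065365320182ca6ca040785e8637e07e08607a28207a272089f89e81f82081f8e08207df81e7e085f8228208238208201801
 z (n 0 z (n 0 z (n
 0x2ca6ca240789c8a07a08208a082082079f82086082086082085f8218207e282082081e8207a085f8208200801 z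
 (n 0 z (n 6557747 z (n 0 z (n
 0x24ca40a65181b8e07618208207df81f7a082081f8228208208a081f8207a17e086082086185f8208208200081 z
 (n 0 z (n
 0x2ca6ca240789c8a07a08208a082082079f82086082086082085f8218207e282082081e8207a085f8208200801 z
 (n 0 z (n 6557747 z (n 0 z (n 0 z (n
 0x2000a863250000594c2340000329847410002160120200042c01485c8617a07a08207a085f82181f89f86081f7df8607df8207a18208a07e27a079f91f81f8612801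
 z z)))))))))))))))))))))))))))) (n 0 (n
 0x2c84c206038608208608218208208217a18208208218608207df81f81f7e08608208208607e08218207e00801 z
 (n 0x2c84c206038608208608218208208217a18208208218608207df81f81f7e08608208208607e08218207e00801
 z (n
 0x2c84c8420789c8df81e8218607a27de89e79f9208a08e18607e282281c7dd8207607e28227e089f82081f0801 z
 (n
 0x164364120382ca886040785c8a07a07e18208208218607a08218607e08208208218217e079f7e08207e17e082181f8201001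
 z (n 0 z (n 0 z (n 0 z (n 0 z (n 0 z (n 0 z (n
 0x2c84c8420789c8a27a07e08207a08608207e081f8a082082081f89f81f7a081f7e08207a382086081f8200801 z
 (n 0x2c86c8240781e8a07a07e082089e8218227e086282281f82081c81e8207a082086081f8607e28208208200801
 z (n 0 z (n 0 z (n 0 z (n 0 z (n
 0xb21b21080c064264210382ca886400785c8a17a08208207a08a17a28207e186092081f81e7dd8206df81f7e07e18217e08a081f8201801
 z (n 0 z (n 2164315 z (n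
 0x24c820a64081b8e07618208207df81f7a082081f8228208208a081f8207a17e086082086185f8208208200081 z
 (n 66 z (n 4327003 z (n 2164315 z (n 0 z (n 0 z (n
 0x4c62c620078e085f82086282081e82086082081f8208208207e082082082082082085f8208208208208200801 z
 z)))))))))))))))))))))))))) z)))))) (n 155 (n 0 (n 143 (n 0 z (n 0 z (n 0 z (n 0 z (n 0 z (n 0
 z (n 0 z (n 0 z (n 0 z (n 0 z (n 0 z (n 0 z (n 0 z (n 0 z (n 0 z (n 0 z (n 0 z (n 0 z (n 0 z (n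
 0 z (n 0 z (n 0 z (n 0 z (n 0 z (n 0 z z))))))))))))))))))))))))) (n 143 (n 0 z (n 0 z (n 0 z
 (n 0 z (n 0 z (n 0 z (n 0 z (n 0 z (n 0 z (n 0 z (n 0 z (n 0 z (n 0 z (n 0 z (n 0 z (n 0 z (n 0
 z (n 0 z (n 0 z (n 0 z (n 0 z (n 0 z (n 0 z (n 0 z (n 0 z z))))))))))))))))))))))))) (n 143 (n
 0 z (n 0 z (n 0 z (n 0 z (n 0 z (n 0 z (n 0 z (n
 0x75374260180ecaeca80701d95d4d00e23b2bb1201c175375040384e84ea060315d95d5080e03b2ba9900c165475320384ea8a8640711d51d0080e23aa320101c075475300382ea6ea600381b9a759aa1d7618998d13d7996a5ad5e665a31db5c8c8127677a7660a59addb1b5a1af5ca57001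
 z (n 0 z (n 0 z (n 0 z (n 0 z (n 0 z (n 0 z (n 0 z (n 0 z (n 0 z (n 0 z (n 0 z (n 0 z (n 0 z (n
 0 z (n 0 z (n 0 z (n 0 z z))))))))))))))))))))))))) (n 107 (n 2 (n 2 (n 0 z (n 0 z (n 0 z (n 0
 z (n 0 z (n 0 z z)))))) (n 1 z (n 1 z (n 1 z z)))) (n 0 z (n 0 z (n 0 z z)))) (n 327 (n 0 z (n
 0 z (n 0 z (n 0 z (n 0 z (n 0 z (n 0 z (n 0 z (n 0 z (n 0 z (n 0 z (n 0 z (n 0 z (n 0 z (n 0 z
 (n 0 z (n 0 z (n 0 z (n 0 z (n 0 z (n 0 z (n 0 z (n 0 z (n 0 z (n 0 z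
 z))))))))))))))))))))))))) (n 327 (n 0 z (n 0 z (n 0 z (n 0 z (n 0 z (n 0 z (n 0 z (n 0 z (n 0
 z (n 0 z (n 0 z (n 0 z (n 0 z (n 0 z (n 2 (n 0 z (n 1 z z)) (n 0 z (n 0 z (n 0 z (n 0 z (n 0 z
 (n 0 z (n 0 z (n 0 z (n 0 z (n 0 z z))))))))))))))))))))))))) (n 327 (n 0 z (n 0 z (n 0 z (n 0
 z (n 0 z (n 0 z (n 0 z (n 0 z (n 0 z (n 0 z (n 0 z (n 0 z (n 0 z (n 0 z (n 0 z (n 0 z (n 0 z (n
 0 z (n 0 z (n 0 z (n 0 z (n 0 z (n 0 z (n 0 z (n 0 z z))))))))))))))))))))))))) (n 725 (n 0 z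
 (n 0 z (n 0 z (n 0 z (n 0 z (n 0 z (n 0 z (n 0 z (n 0 z (n 0 z (n 0 z (n 0 z (n 0 z (n 0 z (n 0
 z (n 0 z (n 0 z (n 0 z (n 0 z (n 0 z (n 0 z (n 0 z (n 0 z (n 0 z (n 0 z (n 0 z (n 0 z (n 0 z (n
 0 z (n 0 z (n 0 z (n 0 z (n 0 z (n 0 z (n 0 z (n 0 z (n 0 z (n 0 z (n 0 z (n 0 z (n 0 z
 z))))))))))))))))))))))))))))))))))))))))) z)))))))) (n 0 (n 0 z (n 0 z (n 753 (n 0 z (n 0 z (n
 0 z (n 0 z (n 0 z (n 0 z (n 0 z (n 0 z (n 0 z (n 0 z (n 0 z (n 0 z (n 0 z (n 0 z (n 0 z (n 0 z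
 (n 0 z (n 0 z z)))))))))))))))))) (n 491 (n 0 z (n 0 z (n 0 z (n 0 z (n 0 z (n 0 z (n 0 z (n 0
 z (n 0 z z))))))))) (n 491 (n 0 z (n 0 z (n 0 z (n 0 z (n 0 z (n 0 z (n 0 z (n 2 (n 0 z (n 1 z
 z)) (n 0 z z))))))))) (n 491 (n 0 z (n 0 z (n 0 z (n 0 z (n 0 z (n 0 z (n 0 z (n 0 z (n 0 z
 z))))))))) (n 65 (n 0 z (n 0 z (n 0 z (n 0 z (n 0 z (n 0 z (n 0 z (n 0 z (n 0 z z)))))))))
 z))))))) (n 0 (n 0 z (n 753 (n 0 z (n 0 z (n 0 z (n 0 z (n 0 z (n 0 z (n 0 z z))))))) (n 491 (n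
 0 z (n 0 z (n 0 z (n 0 z (n 0 z (n 0 z (n 0 z (n 0 z (n 0 z (n 0 z (n 0 z (n 0 z (n 0 z (n 0 z
 (n 0 z (n 0 z (n 0 z (n 0 z (n 0 z (n 0 z z)))))))))))))))))))) (n 491 (n 0 z (n 0 z (n 0 z (n
 0 z (n 0 z (n 0 z (n 0 z (n 0 z (n 0 z (n 0 z (n 0 z (n 0 z (n 0 z (n 0 z (n 0 z (n 0 z (n 0 z
 (n 0 z (n 0 z (n 0 z z)))))))))))))))))))) (n 491 (n 0 z (n 0 z (n 0 z (n 0 z (n 0 z (n 0 z (n
 0 z (n 0 z (n 0 z (n 0 z (n 0 z (n 0 z (n 0 z (n 0 z (n 0 z (n 0 z (n 0 z (n 0 z (n 0 z (n 0 z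
 z)))))))))))))))))))) (n 65 (n 0 z (n 0 z (n 0 z (n 0 z z)))) z)))))) (n 0 (n 171 (n 0 z (n 0 z
 (n 0 z (n 0 z (n 0 z (n 0 z (n 0 z (n 0 z (n 0 z (n 0 z (n 0 z (n 0 z (n 0 z (n 0 z (n 0 z (n 0
 z (n 0 z (n 0 z (n 0 z (n 0 z (n 0 z (n 0 z z)))))))))))))))))))))) (n 75 (n 0 z (n 0 z (n 0 z
 (n 0 z (n 0 z (n 0 z (n 0 z (n 0 z z)))))))) (n 75 (n 0 z (n 0 z (n 0 z (n 0 z (n 0 z (n 0 z (n
 0 z (n 2 (n 0 z (n 2 (n 0 (n 2164859 z z) (n 0 z (n 0 z (n 0 z (n 0 z (n 0 (n 2164859 z (n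
 2164859 z z)) z)))))) z)) z)))))))) (n 75 (n 0 z (n 0 z (n 0 z (n 0 z (n 0 z (n 0 z (n 0 z (n 0
 z z)))))))) (n 65 (n 0 z (n 0 z (n 0 z (n 0 z (n 0 z (n 0 z (n 0 z (n
 0xecac8460781e82082082082081f8607e082085f86082085f86082081f8208218208208608208208208200801 z (n
 0 z (n 0 z (n 0 z (n 0 z (n 0 z (n 0 z (n 0 z (n 0 z (n 0 z (n 0 z (n 0 z (n 0 z (n 0 z (n 0 z
 (n 0 z (n 0 z (n 0 z z))))))))))))))))))))))))) z))))) (n 0 (n 33 (n 0 z (n 0 z (n 0 z (n 0 z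
 (n 0 z (n 0 z (n 0 z (n 0 z (n 0 z (n 0 z (n 0 z (n 0 z (n 0 z (n 0 z (n 0 z (n 0 z (n 0 z (n 0
 z (n 0 z (n 0 z (n 0 z (n 0 z (n 0 z (n 0 z (n 0 z z))))))))))))))))))))))))) (n 33 (n 0 z (n 0
 z (n 0 z (n 0 z (n 0 z (n 0 z (n 0 z (n 0 z (n 0 z (n 0 z (n 0 z (n 0 z (n 0 z (n 0 z (n 0 z (n
 0 z (n 0 z (n 0 z (n 0 z (n 0 z (n 0 z (n 2 (n 0 z (n 2 (n 0 (n 2164859 z z) (n 0 z (n 0 z (n 0
 z (n 0 (n 2164859 z z) (n 0 (n 2164859 z (n 2164859 z z)) z)))))) z)) (n 0 z (n 0 z (n 0 z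
 z))))))))))))))))))))))))) (n 33 (n 0 z (n 0 z (n 0 z (n 0 z (n 0 z (n 0 z (n 0 z (n 0 z (n 0 z
 (n 0 z (n 0 z (n 0 z (n 2 (n 1 z z) (n 0 z (n 0 z (n 0 z (n 0 z (n 0 z (n 0 z (n 0 z (n 0 z (n
 0 z (n 0 z (n 0 z (n 0 z z))))))))))))))))))))))))) (n 17 (n 0 z (n 0 z (n 0 z (n 0 z (n 0 z (n
 0 z (n 0 z (n 0 z (n 0 z (n 0 z (n 0 z (n 0 z (n 0 z (n 0 z (n 0 z (n 0 z (n 0 z (n 0 z (n 0 z
 (n 0 z (n 0 z (n 0 z (n 0 z (n 0 z (n 0 z (n 0 z (n 0 z (n 0 z (n 0 z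
 z))))))))))))))))))))))))))))) z)))) (n 0 (n 0 z (n 0 z (n 5 (n 0 z (n 0 z (n 0 z (n 0 z z))))
 z))) (n 0 (n 0 z (n 5 (n 0 z (n 0 z (n 0 z (n 0 z (n 0 z (n 0 z (n 0 z (n 0 z (n 0 z (n 0 z (n
 0 z (n 0 z (n 0 z (n 0 z (n 0 z (n 0 z (n 0 z (n 0 z (n 0 z (n 0 z (n 0 z (n 0 z (n 0 z
 z))))))))))))))))))))))) z)) (n 0 (n 289 (n 0 z (n 0 z (n 0 z (n 0 z (n 0 z (n 0 z (n 0 z (n 0
 z (n 0 z z))))))))) z) (n 0 z z))))))))) (n 0 (n 1 (n 6557747 z (n 6557747 z (n 6557747 z (n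
 6557747 z (n 6557747 z (n 6557747 z z)))))) (n 1 (n 268 z (n 6496523 z (n 268 z (n 76 z (n 268
 z (n 268 z z)))))) (n 0 z (n 0 z z)))) (n 0 z z)))) (n
 0x5a59a2564d11d2e87ab95c14b7a504a7182d4a5901c7481a5640 (n 0 (n 465 (n 2 z (n
 0x2ca8a8240789f8227e07df7e081f81f82089f85f8608608628207df81e82082085e7e18227e085f8a08200801 z
 (n 0 z (n 0 z (n 10 z (n
 0x2ca8a824078608217a181e7a285f7e08208607df85f86082186185f7df79f8608208217e181f85f8217e00801 z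
 (n 3282443 z (n 5518859 z (n 18 z (n
 0x2ca8a824078608217a181e7a285f7e08208607df85f86082186185f7df79f8608208217e181f85f8217e00801 z
 (n 0 z (n 0 z (n 0 z (n 0 z z)))))))))))))) (n 35 (n 3278363 z (n 0 z (n 0 z z))) (n 9 (n 0 z
 (n 0 z (n 0 z (n 26 z (n 34 z (n 0 z (n 6632003 z z))))))) (n 3 (n 42 z (n 0 z (n 6632003 z (n
 0 z z)))) (n 1 (n 0 z (n 0 z (n 0 z (n 6558507 z z)))) (n 0 (n 50 z (n 58 z (n 66 z (n 0 z (n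
 74 z (n 6632003 z (n 6632003 z z))))))) z)))))) (n 35 (n 0 (n 0 z (n 0 z (n 271 (n 2 (n 0 z (n
 1 z (n 1 z (n 1 z (n 1 z (n 2 (n 0 z (n 0 z (n 0 z (n 0 z (n 0 z (n 0 z z)))))) z)))))) (n 0 z
 (n 0 z (n 0 z z)))) (n 271 (n 0 z (n 0 z (n 0 z (n 0 z z)))) (n 267 (n 0 z (n 2 (n 1 z (n 1 z
 (n 2 (n 0 z (n 0 z (n 0 z (n 0 z (n 0 z (n 0 z z)))))) (n 2 (n 0 z (n 0 z (n 0 z (n 0 z (n 0 z
 (n 0 z z)))))) z)))) (n 0 z (n 0 z (n 0 z z))))) (n 265 (n 0 z (n 0 z (n 0 z (n 0 z (n 0 z (n 0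
 z (n 2 (n 0 z (n 0 z (n 0 z z))) z))))))) (n 265 (n 0 z (n 0 z (n 0 z (n 0 z (n 0 z (n 0 z (n 0
 z z))))))) (n 265 (n 0 z (n 0 z (n 0 z (n 0 z (n 0 z (n 0 z (n 0 z z))))))) (n 265 (n 0 z (n 0
 z (n 0 z (n 0 z (n 0 z (n 0 z (n 0 z z))))))) z))))))))) (n 0 (n 0 z (n 23 (n 0 z (n 0 z (n 0 z
 (n 0 z (n 0 z (n 0 z (n 0 z z))))))) (n 23 (n 0 z (n 2 (n 2 (n 0 z (n 0 z (n 0 z (n 0 z (n 0 z
 (n 0 z z)))))) (n 2 (n 0 z (n 0 z (n 0 z (n 0 z (n 0 z (n 0 z z)))))) (n 2 (n 0 z (n 0 z (n 0 z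
 (n 0 z (n 0 z (n 0 z z)))))) (n 2 (n 0 z (n 0 z (n 0 z (n 0 z (n 0 z (n 0 z z)))))) (n 2 (n 0 z
 (n 0 z (n 0 z (n 0 z (n 0 z (n 0 z z)))))) z))))) (n 0 z (n 0 z (n 0 z (n 0 z (n 0 z z)))))))
 (n 267 (n 0 z (n 0 z (n 0 z (n 0 z (n 0 z (n 0 z (n 0 z (n 0 z (n 0 z (n 0 z (n 0 z (n 0 z (n 0
 z (n 0 z (n 0 z z))))))))))))))) (n 269 (n 0 z (n 0 z (n 0 z (n 2 (n 0 z (n 0 z (n 0 z z))) (n
 0 z (n 0 z (n 0 z z))))))) (n 269 (n 0 z (n 0 z (n 0 z (n 0 z (n 0 z (n 0 z (n 0 z z))))))) (n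
 269 (n 0 z (n 0 z (n 0 z (n 0 z (n 0 z (n 0 z (n 0 z z))))))) (n 269 (n 0 z (n 0 z (n 0 z (n 0
 z (n 0 z (n 0 z (n 0 z z))))))) z)))))))) (n 0 (n 107 (n 6620987 z (n 0 z (n 0 z (n 0 z z))))
 (n 107 (n 0 z (n 6620971 z (n 0 z (n 0 z z)))) (n 11 (n 0 z (n 0 z (n 0 z (n 0 z (n 6620987 z
 (n 0 z (n 0 z (n 0 z (n 0 z (n 0 z (n 0 z (n 0 z (n 0 z (n 0 z (n 0 z z))))))))))))))) (n 13 (n
 0 z (n 0 z (n 0 z (n 0 z (n 0 z (n 0 z (n 0 z z))))))) (n 13 (n 0 z (n 0 z (n 2 (n 0 z (n 0 z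
 z)) (n 0 z (n 0 z (n 0 z (n 0 z z))))))) (n 13 (n 0 z (n 2 (n 0 z z) (n 0 z (n 0 z (n 0 z (n 0
 z (n 0 z z))))))) (n 13 (n 0 z (n 0 z (n 0 z (n 0 z (n 0 z (n 0 z (n 0 z z))))))) z))))))) (n 0
 (n 0 z (n 295 (n 0 z (n 0 z (n 0 z (n 0 z (n 0 z (n 0 z (n 0 z (n 0 z z)))))))) (n 293 (n 0 z
 (n 0 z (n 0 z (n 0 z (n 0 z (n 0 z (n 0 z (n 0 z (n 0 z z))))))))) (n 293 (n 0 z (n 0 z (n 0 z
 (n 0 z (n 0 z (n 0 z (n 0 z (n 0 z (n 0 z z))))))))) (n 293 (n 0 z (n 0 z (n 0 z (n 0 z (n 0 z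
 (n 0 z (n 2 (n 0 z z) (n 0 z (n 0 z z))))))))) (n 293 (n 0 z (n 0 z (n 0 z (n 0 z (n 0 z (n 0 z
 (n 0 z (n 0 z (n 0 z z))))))))) z)))))) (n 0 (n 295 (n 0 z (n 2 (n 2 (n 0 z (n 0 z (n 0 z (n 0
 z (n 0 z (n 0 z z)))))) (n 2 (n 0 z (n 0 z (n 0 z (n 0 z (n 0 z (n 0 z z)))))) (n 2 (n 0 z (n 0
 z (n 0 z (n 0 z (n 0 z (n 0 z z)))))) (n 2 (n 0 z (n 0 z (n 0 z (n 0 z (n 0 z (n 0 z z))))))
 z)))) (n 0 z (n 0 z (n 0 z z))))) (n 293 (n 0 z (n 0 z (n 0 z (n 0 z (n 0 z (n 0 z (n 0 z (n 0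
 z (n 0 z (n 0 z (n 0 z (n 0 z (n 0 z (n 0 z (n 0 z (n 0 z (n 0 z (n 0 z (n 0 z (n 0 z (n 0 z (n
 0 z (n 0 z (n 2 (n 0 z (n 0 z (n 0 z z))) (n 0 z (n 0 z (n 0 z (n 0 z
 z)))))))))))))))))))))))))))) (n 293 (n 0 z (n 0 z (n 0 z (n 0 z (n 0 z (n 0 z (n 2 (n 0 z (n 0
 z z)) (n 0 z (n 0 z (n 0 z (n 0 z (n 0 z (n 0 z (n 0 z (n 0 z (n 0 z (n 0 z (n 0 z (n 0 z (n 0
 z (n 0 z (n 0 z (n 0 z (n 0 z (n 0 z (n 0 z (n 0 z (n 0 z z)))))))))))))))))))))))))))) (n 293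
 (n 0 z (n 0 z (n 0 z (n 0 z (n 0 z (n 0 z (n 0 z (n 0 z (n 0 z (n 0 z (n 0 z (n 0 z (n 0 z (n 0
 z (n 0 z (n 0 z (n 0 z (n 0 z (n 0 z (n 0 z (n 0 z (n 0 z (n 0 z (n 0 z (n 0 z (n 0 z (n 0 z (n
 0 z z)))))))))))))))))))))))))))) (n 293 (n 0 z (n 0 z (n 0 z (n 0 z (n 0 z (n 0 z (n 0 z (n 0
 z (n 0 z (n 0 z (n 0 z (n 0 z (n 0 z (n 0 z (n 0 z (n 0 z (n 0 z (n 0 z (n 0 z (n 0 z (n 0 z (n
 0 z (n 0 z (n 0 z (n 0 z (n 0 z (n 0 z (n 0 z z)))))))))))))))))))))))))))) z))))) (n 0 (n 341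
 (n 0 z (n 0 z (n 0 z (n 0 z (n 0 z (n 0 z z)))))) (n 341 (n 0 z (n 0 z (n 0 z (n 0 z (n 0 z (n
 0 z z)))))) (n 341 (n 0 z (n 2 (n 0 z z) (n 0 z (n 0 z (n 0 z (n 0 z z)))))) (n 341 (n 0 z (n 0
 z (n 0 z (n 0 z (n 0 z (n 0 z z)))))) z)))) (n 0 (n 0 z (n 0 z (n 0 z z))) (n 0 (n 0 z (n 0 z
 z)) (n 0 (n 0 z z) (n 0 z z)))))))))) (n 0 (n 1 (n 3278363 z (n 3278363 z (n 3278363 z (n
 6488603 z (n 3278363 z (n 3278363 z z)))))) (n 0 z (n 0 z z))) (n 0 z z)))) (n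
 0x6ca5a35465196b6e194b10a629b052bdb0956906ab6c853b6500 (n 0x36ca5 (n 153 (n 0 z (n 6619931 z (n
 3282443 z (n 0 z (n 2 z z))))) (n 33 (n 0 z (n 0 z (n 0 z (n 0 z (n 0 z (n 6496515 z (n 10 z
 z))))))) (n 51 (n 0 z (n 6496515 z (n 0 z (n 6496515 z (n 18 z (n 26 z z)))))) (n 27 (n 0 z (n
 6496515 z (n 34 z z))) (n 1 (n 6554411 z (n 42 z (n 0 z (n 0 z (n 50 z z))))) (n 0 (n 0 z (n 0
 z (n 0 z (n 0 z (n 0 z (n 0 z (n 0 z (n 0 z (n 6623755 z (n 0 z (n 0 z (n 0 z (n 0 z (n 0 z (n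
 0 z (n 0 z (n 0 z (n 0 z (n 0 z (n 0 z (n 6619931 z (n 58 z (n 0 z (n 0 z (n 66 z (n 74 z
 z)))))))))))))))))))))))))) z)))))) (n 27 (n 0 (n 1185 (n 0 z (n 0 z (n 0 z (n 0 z (n 0 z (n 0
 z (n 0 z (n 0 z (n 0 z (n 0 z (n 0 z (n 0 z (n 0 z (n 0 z (n 0 z (n 0 z (n 0 z (n 0 z (n 0 z (n
 0 z (n 0 z (n 0 z z)))))))))))))))))))))) (n 795 (n 0 z (n 0 z (n 0 z (n 0 z (n 0 z (n 0 z (n 0
 z (n 0 z (n 0 z (n 0 z (n 0 z (n 0 z (n 0 z (n 0 z (n 0 z (n 0 z (n 0 z (n 0 z (n 0 z (n 0 z (n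
 0 z (n 0 z (n 0 z z))))))))))))))))))))))) (n 795 (n 0 z (n 0 z (n 0 z (n 0 z (n 0 z (n 0 z (n
 0 z (n 0 z (n 0 z (n 0 z (n 0 z (n 0 z (n 0 z (n 0 z (n 0 z (n 0 z (n 0 z (n 0 z (n 0 z (n 0 z
 (n 0 z (n 0 z (n 0 z z))))))))))))))))))))))) (n 535 (n 0 z (n 0 z (n 0 z (n 0 z (n 0 z z)))))
 (n 531 (n 0 z (n 2 (n 0 z (n 2 (n 0 z (n 0 z (n 0 z (n 0 z (n 0 z (n 0 z z)))))) (n 2 (n 0 z (n
 0 z (n 0 z (n 0 z (n 0 z (n 0 z z)))))) (n 2 (n 0 z (n 0 z (n 0 z (n 0 z (n 0 z (n 0 z z))))))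
 z)))) (n 0 z (n 0 z (n 0 z z))))) (n 531 (n 0 z (n 0 z (n 0 z (n 0 z (n 0 z z))))) (n 529 (n 0
 z (n 0 z (n 0 z (n 0 z (n 0 z (n 0 z (n 0 z z))))))) (n 529 (n 0 z (n 0 z (n 0 z (n 0 z (n 0 z
 (n 0 z (n 2 (n 0 z z) z))))))) (n 529 (n 0 z (n 0 z (n 0 z (n 0 z (n 0 z (n 0 z (n 0 z z)))))))
 z))))))))) (n 0 (n 129 (n 0 z (n 0 z (n 0 z (n 0 z (n 0 z (n 0 z z)))))) (n 129 (n 0 z (n 0 z
 (n 0 z (n 0 z (n 0 z (n 0 z z)))))) (n 75 (n 0 z (n 0 z (n 0 z (n 0 z (n 0 z (n 0 z (n 0 z (n 0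
 z (n 0 z (n 0 z (n 0 z z))))))))))) (n 63 (n 2 (n 0 z (n 2 (n 0 z (n 0 z (n 0 z (n 0 z (n 0 z
 (n 0 z z)))))) (n 2 (n 0 z (n 0 z (n 0 z (n 0 z (n 0 z (n 0 z z)))))) (n 2 (n 0 z (n 0 z (n 0 z
 (n 0 z (n 0 z (n 0 z z)))))) z)))) (n 0 z (n 0 z (n 0 z z)))) (n 63 (n 0 z (n 0 z (n 0 z (n 0 z
 z)))) (n 65 (n 0 z (n 0 z (n 0 z (n 0 z (n 0 z (n 0 z (n 0 z (n 0 z z)))))))) (n 65 (n 2 (n 0 z
 z) (n 0 z (n 0 z (n 0 z (n 0 z (n 0 z (n 0 z (n 0 z z)))))))) (n 65 (n 0 z (n 0 z (n 0 z (n 0 z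
 (n 0 z (n 0 z (n 0 z (n 0 z z)))))))) z)))))))) (n 0 (n 0 z (n 33 (n 0 z (n 0 z (n 0 z (n 0 z
 (n 0 z z))))) (n 99 (n 0 z (n 0 z (n 2 (n 0 z (n 2 (n 0 z (n 0 z (n 0 z (n 0 z (n 0 z (n 0 z
 z)))))) (n 2 (n 0 z (n 0 z (n 0 z (n 0 z (n 0 z (n 0 z z)))))) (n 2 (n 0 z (n 0 z (n 0 z (n 0 z
 (n 0 z (n 0 z z)))))) z)))) (n 0 z (n 0 z (n 0 z (n 0 z (n 0 z (n 0 z z))))))))) (n 99 (n 0 z
 (n 0 z (n 0 z (n 0 z (n 0 z (n 0 z (n 0 z (n 0 z (n 0 z z))))))))) (n 101 (n 0 z (n 0 z (n 0 z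
 (n 0 z (n 0 z (n 0 z z)))))) (n 101 (n 0 z (n 0 z (n 0 z (n 0 z (n 0 z (n 0 z z)))))) (n 101 (n
 0 z (n 0 z (n 0 z (n 0 z (n 0 z (n 0 z z)))))) z))))))) (n 0 (n 27 (n 0 z (n 0 z (n 0 z (n 0 z
 z)))) (n 15 (n 2 (n 0 z (n 2 (n 0 z (n 0 z (n 0 z (n 0 z (n 0 z (n 0 z z)))))) (n 2 (n 0 z (n 0
 z (n 0 z (n 0 z (n 0 z (n 0 z z)))))) (n 2 (n 0 z (n 0 z (n 0 z (n 0 z (n 0 z (n 0 z z))))))
 z)))) (n 0 z (n 0 z (n 0 z (n 0 z (n 0 z (n 0 z (n 0 z (n 0 z z))))))))) (n 15 (n 0 z (n 0 z (n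
 0 z (n 0 z (n 0 z (n 0 z (n 0 z (n 0 z (n 0 z z))))))))) (n 101 (n 0 z (n 0 z (n 0 z (n 0 z (n
 0 z (n 0 z z)))))) (n 101 (n 0 z (n 0 z (n 2 (n 0 z z) (n 0 z (n 0 z (n 0 z z)))))) (n 101 (n 0
 z (n 0 z (n 0 z (n 0 z (n 0 z (n 0 z z)))))) z)))))) (n 0 (n 531 (n 2 (n 0 z (n 2 (n 0 z (n 0 z
 (n 0 z (n 0 z (n 0 z (n 0 z z)))))) (n 2 (n 0 z (n 0 z (n 0 z (n 0 z (n 0 z (n 0 z z)))))) (n 2
 (n 0 z (n 0 z (n 0 z (n 0 z (n 0 z (n 0 z z)))))) z)))) (n 0 z (n 0 z (n 0 z z)))) (n 531 (n 0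
 z (n 0 z (n 0 z (n 0 z z)))) (n 529 (n 0 z (n 0 z (n 0 z (n 0 z (n 0 z (n 0 z (n 0 z (n 0 z (n
 0 z (n 0 z (n 0 z (n 0 z (n 0 z (n 0 z (n 0 z (n 0 z (n 0 z (n 0 z z)))))))))))))))))) (n 529
 (n 0 z (n 0 z (n 0 z (n 0 z (n 0 z (n 0 z (n 0 z (n 0 z (n 0 z (n 0 z (n 0 z (n 0 z (n 0 z (n 0
 z (n 2 (n 0 z z) (n 0 z (n 0 z (n 0 z z)))))))))))))))))) (n 529 (n 0 z (n 0 z (n 0 z (n 0 z (n
 0 z (n 0 z (n 0 z (n 0 z (n 0 z (n 0 z (n 0 z (n 0 z (n 0 z (n 0 z (n 0 z (n 0 z (n 0 z (n 0 z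
 z)))))))))))))))))) z))))) (n 0 (n 0 z (n 1 (n 0 z (n 0 z (n 0 z (n 0 z (n 0 z (n 0 z (n 0 z (n
 0 z (n 0 z (n 0 z (n 0 z (n 0 z (n 0 z (n 0 z (n 0 z (n 0 z (n 0 z (n 0 z (n 0 z (n 0 z (n 0 z
 (n 0 z (n 0 z z))))))))))))))))))))))) (n 1 (n 0 z (n 0 z (n 0 z (n 0 z (n 0 z (n 0 z (n 0 z (n
 0 z (n 0 z (n 0 z (n 0 z (n 2 (n 0 z z) (n 0 z (n 0 z (n 0 z (n 0 z (n 0 z (n 0 z (n 0 z (n 0 z
 (n 0 z (n 0 z (n 0 z z))))))))))))))))))))))) (n 1 (n 0 z (n 0 z (n 0 z (n 0 z (n 0 z (n 0 z (n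
 2 z (n 0 z (n 0 z (n 0 z (n 0 z (n 0 z (n 0 z (n 0 z (n 0 z (n 0 z (n 0 z (n 0 z (n 0 z (n 0 z
 (n 0 z (n 0 z (n 0 z z))))))))))))))))))))))) z)))) (n 0 (n 1 (n 0 z (n 0 z (n 0 z (n 0 z (n 0
 z (n 0 z (n 0 z (n 0 z z)))))))) (n 1 (n 0 z (n 2 (n 0 z z) (n 0 z (n 0 z (n 0 z (n 0 z (n 0 z
 (n 0 z z)))))))) (n 1 (n 0 z (n 0 z (n 0 z (n 0 z (n 0 z (n 0 z (n 0 z (n 0 z z)))))))) z))) (n
 0 (n 0 z (n 0 z z)) (n 0 (n 0 z z) (n 0 z z)))))))))) (n 0 (n 0 z (n 1 (n 6496515 z (n 6496515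
 z (n 6496515 z (n 6496515 z (n 6496515 z (n 6496515 z z)))))) (n 1 (n 1228 z (n 6554411 z (n
 1228 z (n 6619931 z (n 1228 z (n 2 z z)))))) z))) (n 0 (n 0x435465885314 (n 0 (n 0 (n 7745875 z
 (n 7745875 z (n 7745875 z (n 7745875 z (n 7745875 z (n 7745875 z z)))))) z) (n 0 (n 153 (n 0 z
 (n 1 (n 7668507 z (n 7668507 z (n 7668507 z (n 7668507 z (n 7668507 z (n 7684963 z z)))))) (n 1
 (n 6496627 z (n 3282699 z (n 3282699 z (n 3282699 z (n 3282699 z (n 7684963 z z)))))) (n 0 z (n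
 1 (n 7745875 z (n 7745875 z (n 7745875 z (n 7745875 z (n 7745875 z (n 7745875 z z)))))) z)))))
 (n 31 (n 1 (n 4748 z (n 268 z (n 4748 z (n 4748 z (n 6563611 z (n 4748 z z)))))) (n 1 (n
 7684963 z (n 7684963 z (n 7684963 z (n 7684963 z (n 7684963 z (n 7684963 z z)))))) (n 0 z (n 1
 (n 7545091 z (n 7545091 z (n 7545091 z (n 7545091 z (n 7545091 z (n 7545091 z z)))))) z)))) (n
 13 (n 0 z (n 0 z (n 1 (n 7545091 z (n 7545091 z (n 7545091 z (n 7545091 z (n 7545091 z (n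
 7545091 z z)))))) (n 1 (n 7545091 z (n 7545091 z (n 7545091 z (n 7545091 z (n 7545091 z (n
 7545091 z z)))))) z)))) (n 27 (n 0 z (n 1 (n 7545091 z (n 7545091 z (n 7545091 z (n 7545091 z
 (n 7545091 z (n 7545091 z z)))))) (n 1 (n 7745875 z (n 7745875 z (n 7745875 z (n 7745875 z (n
 7745875 z (n 7745875 z z)))))) z))) (n 33 (n 1 (n 2236 z (n 2236 z (n 2236 z (n 2 z (n 7668507
 z (n 2236 z z)))))) (n 1 (n 7684963 z (n 7684963 z (n 7684963 z (n 7684963 z (n 7684963 z (n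
 7684963 z z)))))) (n 0 z (n 1 (n 7545091 z (n 7545091 z (n 7545091 z (n 7545091 z (n 7545091 z
 (n 7545091 z z)))))) z)))) (n 51 (n 1 (n 7545091 z (n 7545091 z (n 7545091 z (n 7545091 z (n
 7545091 z (n 7545091 z z)))))) (n 0 z (n 1 (n 2284 z (n 10 z (n 2284 z (n 7672331 z (n 7602987
 z (n 2284 z z)))))) (n 0 z (n 1 (n 7684963 z (n 7684963 z (n 7684963 z (n 7684963 z (n 7684963
 z (n 7684963 z z)))))) (n 1 (n 7684963 z (n 7684963 z (n 7684963 z (n 7684963 z (n 7684963 z (n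
 7684963 z z)))))) z)))))) (n 27 (n 0 z (n 1 (n 7545091 z (n 7545091 z (n 7545091 z (n 7545091 z
 (n 7545091 z (n 7545091 z z)))))) (n 1 (n 7745875 z (n 7745875 z (n 7745875 z (n 7745875 z (n
 7745875 z (n 7745875 z z)))))) z))) z))))))) (n 0 (n 0 (n 0 z (n 0 z z)) (n 0 (n 0 z z) z)) (n
 0 (n 593 (n 0 (n 0 z (n 0 z z)) (n 0 (n 0 z (n 0 z z)) (n 0 (n 0 z (n 0 z z)) (n 0 (n 0 z (n 0
 z z)) (n 0 (n 0 z (n 0 z z)) (n 0 (n 0 z (n 0 z z)) (n 0 (n 0 z (n 0 z z)) (n 0 (n 0 z (n 0 z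
 z)) (n 0 (n 0 z (n 0 z z)) (n 0 (n 0 z (n 0 z z)) (n 0 (n 0 z (n 0 z z)) (n 0 (n 0 z (n 0 z z))
 (n 0 (n 0 z (n 0 z z)) (n 0 (n 0 z (n 0 z z)) (n 0 (n 0 z (n 0 z z)) (n 0 (n 0 z (n 0 z z)) (n
 0 (n 0 z (n 0 z z)) (n 0 (n 0 z (n 0 z z)) (n 0 (n 0 z (n 0 z z)) (n 0 (n 0 z (n 0 z z)) (n 0
 (n 0 z (n 0 z z)) (n 0 (n 0 z (n 0 z z)) z)))))))))))))))))))))) (n 399 (n 0 (n 0 z (n 0 z z))
 (n 0 (n 0 z (n 0 z z)) (n 0 (n 0 z (n 0 z z)) (n 0 (n 0 z (n 0 z z)) (n 0 (n 0 z (n 0 z z)) (n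
 0 (n 0 z (n 0 z z)) (n 0 (n 0 z (n 0 z z)) (n 0 (n 0 z (n 0 z z)) (n 0 (n 0 z (n 0 z z)) (n 0
 (n 0 z (n 0 z z)) (n 0 (n 0 z (n 0 z z)) (n 0 (n 0 z (n 0 z z)) (n 0 (n 0 z (n 0 z z)) (n 0 (n
 0 z (n 0 z z)) (n 0 (n 0 z (n 0 z z)) (n 0 (n 0 z (n 0 z z)) (n 0 (n 0 z (n 0 z z)) (n 0 (n 0 z
 (n 0 z z)) (n 0 (n 0 z (n 0 z z)) (n 0 (n 0 z (n 0 z z)) (n 0 (n 0 z (n 0 z z)) (n 0 (n 0 z (n
 0 z z)) (n 0 (n 0 z (n 0 z z)) z))))))))))))))))))))))) (n 65 (n 0 (n 0 z (n 0 z z)) (n 0 (n 0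
 z (n 0 z z)) (n 0 (n 0 z (n 0 z z)) (n 0 (n 0 z (n 0 z z)) (n 0 (n 0 z (n 0 z z)) (n 0 (n 0 z
 (n 0 z z)) z)))))) (n 273 (n 0 (n 0 z (n 0 z z)) (n 0 (n 0 z (n 0 z z)) (n 0 (n 0 z (n 0 z z))
 (n 0 (n 0 z (n 0 z z)) (n 0 (n 0 z (n 0 z z)) z))))) (n 39 (n 0 (n 0 z (n 0 z z)) (n 0 (n 0 z
 (n 0 z z)) (n 0 (n 0 z (n 0 z z)) (n 0 (n 0 z (n 0 z z)) (n 0 (n 0 z (n 0 z z)) (n 0 (n 0 z (n
 0 z z)) (n 0 (n 0 z (n 0 z z)) (n 0 (n 0 z (n 0 z z)) (n 0 (n 0 z (n 0 z z)) (n 0 (n 0 z (n 0 z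
 z)) (n 0 (n 0 z (n 0 z z)) z))))))))))) (n 15 (n 0 (n 0 z (n 0 z z)) (n 0 (n 0 z (n 0 z z)) (n
 0 (n 0 z (n 0 z z)) (n 0 (n 0 z (n 0 z z)) z)))) (n 279 (n 0 (n 0 z (n 0 z z)) (n 0 (n 0 z (n 0
 z z)) (n 0 (n 0 z (n 0 z z)) (n 0 (n 0 z (n 0 z z)) (n 0 (n 0 z (n 0 z z)) z))))) (n 33 (n 0 (n
 0 z (n 0 z z)) (n 0 (n 0 z (n 0 z z)) (n 0 (n 0 z (n 0 z z)) (n 0 (n 0 z (n 0 z z)) z)))) (n 9
 (n 0 (n 0 z (n 0 z z)) (n 0 (n 0 z (n 0 z z)) (n 0 (n 0 z (n 0 z z)) (n 0 (n 0 z (n 0 z z)) (n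
 0 (n 0 z (n 0 z z)) (n 0 (n 0 z (n 0 z z)) (n 0 (n 0 z (n 0 z z)) (n 0 (n 0 z (n 0 z z)) (n 0
 (n 0 z (n 0 z z)) z))))))))) (n 267 (n 0 (n 0 z (n 0 z z)) (n 0 (n 0 z (n 0 z z)) (n 0 (n 0 z
 (n 0 z z)) (n 0 (n 0 z (n 0 z z)) z)))) (n 285 (n 0 (n 0 z (n 0 z z)) (n 0 (n 0 z (n 0 z z)) (n
 0 (n 0 z (n 0 z z)) (n 0 (n 0 z (n 0 z z)) (n 0 (n 0 z (n 0 z z)) (n 0 (n 0 z (n 0 z z)) (n 0
 (n 0 z (n 0 z z)) z))))))) (n 33 (n 0 (n 0 z (n 0 z z)) (n 0 (n 0 z (n 0 z z)) (n 0 (n 0 z (n 0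
 z z)) (n 0 (n 0 z (n 0 z z)) (n 0 (n 0 z (n 0 z z)) (n 0 (n 0 z (n 0 z z)) (n 0 (n 0 z (n 0 z
 z)) (n 0 (n 0 z (n 0 z z)) z)))))))) (n 51 (n 0 (n 0 z (n 0 z z)) (n 0 (n 0 z (n 0 z z)) (n 0
 (n 0 z (n 0 z z)) (n 0 (n 0 z (n 0 z z)) (n 0 (n 0 z (n 0 z z)) (n 0 (n 0 z (n 0 z z)) z))))))
 (n 269 (n 0 (n 0 z (n 0 z z)) (n 0 (n 0 z (n 0 z z)) (n 0 (n 0 z (n 0 z z)) (n 0 (n 0 z (n 0 z
 z)) (n 0 (n 0 z (n 0 z z)) (n 0 (n 0 z (n 0 z z)) (n 0 (n 0 z (n 0 z z)) (n 0 (n 0 z (n 0 z z))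
 (n 0 (n 0 z (n 0 z z)) (n 0 (n 0 z (n 0 z z)) (n 0 (n 0 z (n 0 z z)) (n 0 (n 0 z (n 0 z z)) (n
 0 (n 0 z (n 0 z z)) (n 0 (n 0 z (n 0 z z)) (n 0 (n 0 z (n 0 z z)) (n 0 (n 0 z (n 0 z z)) (n 0
 (n 0 z (n 0 z z)) (n 0 (n 0 z (n 0 z z)) z)))))))))))))))))) (n 1 (n 0 (n 0 z (n 0 z z)) (n 0
 (n 0 z (n 0 z z)) (n 0 (n 0 z (n 0 z z)) (n 0 (n 0 z (n 0 z z)) (n 0 (n 0 z (n 0 z z)) (n 0 (n
 0 z (n 0 z z)) (n 0 (n 0 z (n 0 z z)) (n 0 (n 0 z (n 0 z z)) z)))))))) (n 153 (n 0 (n 0 z (n 0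
 z z)) (n 0 (n 0 z (n 0 z z)) (n 0 (n 0 z (n 0 z z)) (n 0 (n 0 z (n 0 z z)) (n 0 (n 0 z (n 0 z
 z)) z))))) (n 33 (n 0 (n 0 z (n 0 z z)) (n 0 (n 0 z (n 0 z z)) (n 0 (n 0 z (n 0 z z)) (n 0 (n 0
 z (n 0 z z)) (n 0 (n 0 z (n 0 z z)) (n 0 (n 0 z (n 0 z z)) (n 0 (n 0 z (n 0 z z)) z))))))) (n
 51 (n 0 (n 0 z (n 0 z z)) (n 0 (n 0 z (n 0 z z)) (n 0 (n 0 z (n 0 z z)) (n 0 (n 0 z (n 0 z z))
 (n 0 (n 0 z (n 0 z z)) (n 0 (n 0 z (n 0 z z)) z)))))) (n 27 (n 0 (n 0 z (n 0 z z)) (n 0 (n 0 z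
 (n 0 z z)) (n 0 (n 0 z (n 0 z z)) z))) (n 1 (n 0 (n 0 z (n 0 z z)) (n 0 (n 0 z (n 0 z z)) (n 0
 (n 0 z (n 0 z z)) (n 0 (n 0 z (n 0 z z)) (n 0 (n 0 z (n 0 z z)) z))))) (n 0 (n 0 (n 0 z (n 0 z
 z)) (n 0 (n 0 z (n 0 z z)) (n 0 (n 0 z (n 0 z z)) (n 0 (n 0 z (n 0 z z)) (n 0 (n 0 z (n 0 z z))
 (n 0 (n 0 z (n 0 z z)) (n 0 (n 0 z (n 0 z z)) (n 0 (n 0 z (n 0 z z)) (n 0 (n 0 z (n 0 z z)) (n
 0 (n 0 z (n 0 z z)) (n 0 (n 0 z (n 0 z z)) (n 0 (n 0 z (n 0 z z)) (n 0 (n 0 z (n 0 z z)) (n 0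
 (n 0 z (n 0 z z)) (n 0 (n 0 z (n 0 z z)) (n 0 (n 0 z (n 0 z z)) (n 0 (n 0 z (n 0 z z)) (n 0 (n
 0 z (n 0 z z)) (n 0 (n 0 z (n 0 z z)) (n 0 (n 0 z (n 0 z z)) (n 0 (n 0 z (n 0 z z)) (n 0 (n 0 z
 (n 0 z z)) (n 0 (n 0 z (n 0 z z)) (n 0 (n 0 z (n 0 z z)) (n 0 (n 0 z (n 0 z z)) (n 0 (n 0 z (n
 0 z z)) z)))))))))))))))))))))))))) z))))))))))))))))))))) z)))) z) z)))) (n
 0x40893104e592824b38475ca8128e21d469132a5408ca8826158532a240 (n 0 (n 467 (n 6561875 z (n 2 z (n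
 0 z (n 0 z (n 0 z z))))) (n 33 (n 0 z (n 0 z (n 0 z (n 0 z (n
 0xca8ca84038618207e082081f8217e28607e181f8208208217e08607df8208208208208618208208208200801 z (n
 0 z (n 0 z (n 0 z (n 0 z (n 0 z (n 0 z (n 0 z (n 0 z (n 0 z (n 0 z (n 0 z (n 0 z (n 0 z (n 0 z
 (n 0 z (n 10 z (n
 0x6ca8a8640782082186181e7e282275f82085f7a07df8a085e7de86082082379d7de7a37de81c8e37de7df0801 z
 (n 0 z (n 0 z (n 18 z (n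
 0x6ca8a8640781f82372085d8a18617e18a285f7a182089f81b81e89c8207e07df79f7a481c91e8e27de7a00801 z
 (n 26 z (n
 0x6ca8a8640781f82372085d8a18617e18a285f7a182089f81b81e89c8207e07df79f7a481c91e8e27de7a00801 z
 (n 3278363 z (n 4392475 z (n 5375515 z (n 0 z z)))))))))))))))))))))))))))))))) (n 129 (n 34 z
 (n 42 z (n 6566419 z (n 6566419 z (n 0 z (n 6566419 z (n 50 z (n 6561875 z (n 6566419 z (n
 6561875 z z)))))))))) (n 3 (n 6566419 z (n 0 z (n 58 z (n 0 z (n 0 z (n 0 z (n 6566419 z (n 66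
 z z)))))))) (n 1 (n 0 z (n 0 z (n 74 z (n 82 z (n 6566419 z (n 6566419 z z)))))) (n 0 (n 0 z (n
 0 z (n 6632459 z z))) z)))))) (n 0 (n 0 (n 923 (n 0 z (n 0 z (n 0 z (n 0 z (n 0 z (n 0 z (n 0 z
 (n 0 z (n 0 z (n 0 z (n 0 z (n 0 z (n 2 (n 0 z (n 0 z (n 1 z (n 2 (n 0 z (n 0 z (n 0 z (n 0 z
 (n 0 z (n 0 z z)))))) (n 1 z (n 2 (n 0 z (n 0 z (n 0 z (n 0 z (n 0 z (n 0 z z)))))) (n 1 z (n 2
 (n 0 z (n 0 z (n 0 z (n 0 z (n 0 z (n 0 z z)))))) (n 1 z z))))))))) z))))))))))))) (n 923 (n 0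
 z (n 0 z (n 0 z (n 0 z (n 0 z (n 0 z (n 0 z (n 0 z (n 0 z (n 0 z (n 0 z (n 0 z (n 0 z
 z))))))))))))) (n 923 (n 0 z (n 0 z (n 0 z (n 0 z (n 0 z (n 0 z (n 0 z (n 0 z (n 0 z (n 7476747
 z (n 0 z (n 0 z (n 0 z z))))))))))))) (n 259 (n 0 z (n 0 z (n 0 z (n 0 z (n 0 z (n 0 z (n 0 z
 (n 0 z (n 0 z (n 0 z (n 0 z z))))))))))) (n 259 (n 2 (n 0 z (n 2 (n 0 z (n 0 z (n 0 z (n 0 z (n
 0 z (n 0 z z)))))) (n 1 z (n 2 (n 0 z (n 0 z (n 0 z (n 0 z (n 0 z (n 0 z z)))))) (n 1 z z)))))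
 (n 0 z (n 0 z (n 0 z (n 0 z (n 0 z (n 0 z (n 0 z (n 0 z (n 0 z (n 0 z z))))))))))) (n 259 (n 0
 z (n 0 z (n 0 z (n 0 z (n 0 z (n 0 z (n 0 z (n 0 z (n 0 z (n 0 z (n 0 z z))))))))))) (n 11 (n 0
 z (n 0 z (n 0 z (n 0 z (n 0 z (n 2 (n 0 z (n 2 (n 0 z (n 0 z (n 0 z (n 0 z (n 0 z (n 0 z
 z)))))) (n 1 z z))) z)))))) (n 11 (n 0 z (n 0 z (n 0 z (n 0 z (n 0 z (n 0 z z)))))) (n 3 (n 0 z
 (n 0 z (n 0 z (n 0 z (n 2 (n 0 z z) (n 0 z (n 0 z (n 0 z (n 0 z (n 0 z (n 0 z (n 0 z (n 0 z (n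
 0 z (n 0 z (n 0 z z)))))))))))))))) (n 3 (n 0 z (n 0 z (n 0 z (n 0 z (n 0 z (n 0 z (n 0 z (n 0
 z (n 0 z (n 0 z (n 0 z (n 0 z (n 0 z (n 0 z (n 0 z (n 0 z z)))))))))))))))) z)))))))))) (n 0 (n
 0 z (n 0 z (n 933 (n 0 z (n 0 z (n 0 z (n 0 z (n 0 z (n 0 z (n 2 (n 0 z (n 0 z (n 2 (n 0 z (n 0
 z (n 0 z (n 0 z (n 0 z (n 0 z z)))))) (n 1 z (n 2 (n 0 z (n 0 z (n 0 z (n 0 z (n 0 z (n 0 z
 z)))))) (n 1 z z)))))) z))))))) (n 933 (n 0 z (n 0 z (n 0 z (n 0 z (n 2 (n 0 z (n 2 (n 0 (n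
 8868419 z z) (n 0 z (n 0 (n 8868419 z (n 8868419 z z)) (n 0 z (n 0 z (n 0 (n 8868419 z z)
 z)))))) (n 1 z (n 2 (n 0 z (n 0 z (n 0 z (n 0 z (n 0 z (n 0 z z)))))) (n 1 z z))))) (n 0 z (n 0
 z z))))))) (n 933 (n 0 z (n 0 z (n 0 z (n 0 z (n 0 z (n 0 z (n 0 z z))))))) (n 1017 (n 0 z (n 0
 z (n 0 z (n 0 z (n 0 z (n 0 z (n 0 z (n 0 z (n 0 z (n 0 z (n 0 z (n 0 z (n 0 z (n 0 z (n 0 z (n
 0 z (n 2 (n 0 z (n 2 (n 0 z (n 0 z (n 0 z (n 0 z (n 0 z (n 0 z z)))))) (n 2 (n 0 z (n 0 z (n 0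
 z (n 0 z (n 0 z (n 0 z z)))))) z))) (n 0 z (n 0 z (n 0 z (n 0 z (n 0 z (n 0 z (n 0 z (n 0 z (n
 0 z (n 0 z (n 0 z (n 0 z (n 0 z (n 0 z z))))))))))))))))))))))))))))))) (n 1017 (n 0 z (n 0 z
 (n 0 z (n 0 z (n 0 z (n 0 z (n 0 z (n 0 z (n 0 z (n 0 z (n 0 z (n 0 z (n 0 z (n 0 z (n 0 z (n 0
 z (n 0 z (n 0 z (n 0 z (n 0 z (n 0 z (n 0 z (n 0 z (n 0 z (n 0 z (n 0 z (n 0 z (n 0 z (n 0 z (n
 0 z (n 0 z z))))))))))))))))))))))))))))))) (n 925 (n 0 z (n 0 z (n 0 z (n 0 z (n 0 z (n 0 z (n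
 0 z z))))))) (n 925 (n 2 z (n 0 z (n 0 z (n 0 z (n 0 z (n 0 z (n 0 z z))))))) z))))))))) (n 0
 (n 0 z (n 927 (n 0 z (n 0 z (n 0 z (n 0 z (n 2 (n 0 z (n 0 z (n 2 (n 0 z (n 0 z (n 0 z (n 0 z
 (n 0 z (n 0 z z)))))) (n 1 z (n 2 (n 0 z (n 0 z (n 0 z (n 0 z (n 0 z (n 0 z z)))))) (n 1 z
 z)))))) (n 0 z (n 0 z z))))))) (n 927 (n 0 z (n 0 z (n 0 z (n 0 z (n 0 z (n 0 z (n 2 (n 0 z (n
 2 (n 0 z (n 0 z (n 0 z (n 0 z (n 0 z (n 0 z z)))))) (n 1 z (n 2 (n 0 z (n 0 z (n 0 z (n 0 z (n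
 0 z (n 0 z z)))))) (n 1 z z))))) z))))))) (n 927 (n 0 z (n 0 z (n 0 z (n 0 z (n 0 z (n 0 z (n 0
 z z))))))) (n 7 (n 0 z (n 0 z (n 2 (n 0 z (n 2 (n 0 z (n 0 z (n 0 z (n 0 z (n 0 z (n 0 z
 z)))))) (n 1 z z))) (n 7538203 z (n 0 z (n 0 z (n 0 z (n 0 z (n 0 z (n 0 z (n 0 z (n 0 z (n 0 z
 (n 0 z (n 0 z (n 0 z (n 0 z (n 0 z (n 0 z (n 0 z (n 0 z (n 0 z (n 0 z (n 0 z (n 0 z (n 0 z (n 0
 z (n 0 z (n 0 z (n 0 z (n 0 z (n 0 z (n 0 z (n 0 z (n 0 z (n 0 z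
 z)))))))))))))))))))))))))))))))))))) (n 7 (n 0 z (n 0 z (n 0 z (n 0 z (n 0 z (n 0 z (n 0 z (n
 0 z (n 0 z (n 0 z (n 0 z (n 0 z (n 0 z (n 0 z (n 0 z (n 0 z (n 0 z (n 0 z (n 0 z (n 0 z (n 0 z
 (n 0 z (n 0 z (n 0 z (n 0 z (n 0 z (n 0 z (n 0 z (n 0 z (n 0 z (n 0 z (n 0 z (n 0 z (n 0 z (n 0
 z (n 0 z z)))))))))))))))))))))))))))))))))))) (n 243 (n 0 z (n 2 (n 0 z z) (n 0 z (n 0 z (n 0
 z (n 0 z (n 0 z (n 0 z (n 0 z (n 0 z (n 0 z z))))))))))) (n 243 (n 0 z (n 0 z (n 0 z (n 0 z (n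
 0 z (n 0 z (n 0 z (n 0 z (n 0 z (n 0 z (n 0 z z))))))))))) z)))))))) (n 0 (n 411 (n 0 z (n 2 (n
 0 z (n 0 z (n 2 (n 0 z (n 0 z (n 0 z (n 0 z (n 0 z (n 0 z z)))))) (n 1 z (n 2 (n 0 z (n 0 z (n
 0 z (n 0 z (n 0 z (n 0 z z)))))) (n 1 z z)))))) (n 0 z (n 0 z (n 0 z (n 0 z (n 0 z (n 0 z (n 0
 z (n 0 z z)))))))))) (n 411 (n 2 (n 0 z (n 2 (n 0 z (n 0 z (n 0 z (n 0 z (n 0 z (n 0 z z))))))
 (n 1 z (n 2 (n 0 z (n 0 z (n 0 z (n 0 z (n 0 z (n 0 z z)))))) (n 1 z z))))) (n 0 z (n 0 z (n 0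
 z (n 0 z (n 0 z (n 0 z (n 0 z (n 0 z (n 0 z z)))))))))) (n 411 (n 0 z (n 0 z (n 0 z (n 0 z (n 0
 z (n 2 (n 2 (n 0 z (n 0 z (n 0 z (n 0 z (n 0 z (n 0 z z)))))) (n 1 z (n 1 z (n 1 z z)))) (n 0 z
 (n 0 z (n 0 z (n 0 z z)))))))))) (n 387 (n 2 (n 0 z (n 2 (n 0 z (n 0 z (n 0 z (n 0 z (n 0 z (n
 0 z z)))))) (n 2 (n 0 z (n 0 z (n 0 (n 7538715 z z) (n 0 z (n 0 z (n 0 z z)))))) z))) (n 0 z (n
 0 z (n 0 z (n 0 z (n 0 z z)))))) (n 387 (n 0 z (n 0 z (n 0 z (n 0 z (n 6428427 z (n 0 z z))))))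
 (n 51 (n 0 z (n 0 z (n 0 z (n 0 z (n 0 z (n 0 z (n 0 z z))))))) (n 51 (n 0 z (n 0 z (n 0 z (n 0
 z (n 6428427 z (n 0 z (n 0 z z))))))) z))))))) (n 0 (n 0 z (n 0 z (n 267 (n 0 z (n 0 z (n 0 z
 (n 0 z (n 0 z (n 0 z (n 0 z z))))))) (n 267 (n 0 z (n 0 z (n 0 z (n 0 z (n 0 z (n 0 z (n 0 z
 z))))))) (n 857 (n 0 z (n 0 z (n 0 z (n 0 z (n 0 z (n 0 z (n 0 z (n 0 z (n 2 (n 0 z z) (n 0 z
 (n 0 z z))))))))))) (n 857 (n 0 z (n 0 z (n 0 z (n 0 z (n 0 z (n 0 z (n 0 z (n 0 z (n 0 z (n 0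
 z (n 0 z z))))))))))) z)))))) (n 0 (n 0 z (n 267 (n 0 z (n 0 z (n 0 z (n 0 z (n 0 z (n 0 z (n 0
 z z))))))) (n 267 (n 0 z (n 0 z (n 0 z (n 0 z (n 2 (n 2 (n 0 z (n 0 z (n 0 z (n 0 z (n 0 z (n 0
 z z)))))) (n 1 z z)) (n 0 z (n 0 z z))))))) (n 857 (n 0 z (n 0 z (n 0 z (n 0 z (n 0 z (n 0 z (n
 0 z (n 0 z (n 0 z (n 0 z z)))))))))) (n 857 (n 2 z (n 0 z (n 0 z (n 0 z (n 0 z (n 0 z (n 0 z (n
 0 z (n 0 z (n 0 z z)))))))))) z))))) (n 0 (n 247 (n 0 z (n 2 (n 0 z (n 2 (n 0 z (n 0 z (n 0 z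
 (n 0 z (n 0 z (n 0 z z)))))) (n 1 z z))) (n 0 z (n 0 z (n 0 z (n 0 z (n 0 z z))))))) (n 247 (n
 0 z (n 0 z (n 0 z (n 0 z (n 0 z (n 0 z (n 0 z z))))))) (n 531 (n 0 z (n 0 z (n 2 (n 0 z z) (n 0
 z (n 0 z (n 0 z (n 0 z (n 0 z (n 0 z (n 0 z (n 0 z (n 0 z z)))))))))))) (n 531 (n 0 z (n 0 z (n
 0 z (n 0 z (n 0 z (n 0 z (n 0 z (n 0 z (n 0 z (n 0 z (n 0 z (n 0 z z)))))))))))) z)))) (n 0 (n
 0 z (n 3 (n 0 z (n 0 z (n 0 z (n 0 z z)))) (n 3 (n 2 z (n 0 z (n 0 z (n 0 z z)))) z))) (n 0 (n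
 723 (n 0 z (n 0 z (n 0 z (n 2 (n 0 z z) (n 0 z (n 0 z (n 0 z (n 0 z (n 0 z (n 0 z z))))))))))
 (n 723 (n 0 z (n 0 z (n 0 z (n 0 z (n 0 z (n 0 z (n 0 z (n 0 z (n 0 z (n 0 z z)))))))))) z)) (n
 0 (n 0 z z) (n 0 z z))))))))))) (n 0 (n 0 z (n 0 z (n 1 (n 6632459 z (n 6632459 z (n 6632459 z
 (n 6632459 z (n 6632459 z (n 6561875 z z)))))) z))) (n 0 z z)))) (n
 0x99b344449a1551581126488824c6f006150070940488901346015c280 (n 0 (n 471 (n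
 0x2ca8a8620772585f7e17e082279d8e099e7618227617df8208a07e185f7df7a17dc82081f8607df89f8200801 z
 (n 2 z (n 0 z (n 10 z (n
 0xca8c862077a18607e17e08207e082086082082081f82086086082082082081f8208208208208208608200801 z (n
 18 z (n 3282443 z (n 26 z (n
 0x2ca6ca28037e18608217e08207df8208608208617e07e08608607e07e182081f8208208208208208208200801 z
 (n 34 z (n
 0xac86c8620366885f6a282491f6a67d4718ba271b7617ec7e789f658819aa279c7a379b61d81c9e66d789f0801 z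
 (n 42 z (n 0 z (n 0 z (n
 0x2ca4ca28037e186082082082079f8208608208218207e082086082082082081f82082081f8208208208200801 z
 (n 0 z (n 0 z z))))))))))))))))) (n 255 (n 0 z (n 0 z (n 0 z (n 50 z (n 6631747 z (n 0 z (n 0 z
 (n 0 z z)))))))) (n 129 (n 6562587 z (n 0 z z)) (n 3 (n 0 z (n 0 z (n 0 z (n 6631747 z (n 0 z
 (n 0 z (n 0 z z))))))) (n 1 (n 0 z (n 0 z (n 58 z (n 6562587 z (n 0 z z))))) (n 0 (n 66 z (n 74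
 z (n 82 z (n 6631747 z (n 6631747 z (n 0 z (n 0 z (n 0 z (n 0 z z))))))))) z)))))) (n 129 (n 0
 (n 0 z (n 0 z (n 0 z (n 0 z (n 0 z (n 511 (n 0 z (n 0 z (n 0 z (n 2 (n 2 (n 0 z (n 0 z (n 0 z
 (n 0 z (n 0 z (n 0 (n 3278971 z z) z)))))) (n 2 (n 0 z (n 0 z (n 0 z (n 0 z (n 0 z (n 0 (n 2020
 z z) z)))))) (n 2 (n 0 z (n 0 z (n 0 z (n 0 z (n 0 z (n 0 (n 3278971 z z) z)))))) (n 2 (n 0 z
 (n 0 z (n 0 z (n 0 z (n 0 z (n 0 z z)))))) z)))) (n 0 z (n 0 z (n 0 z (n 0 z (n 0 z (n 0 z (n 0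
 z z))))))))))) (n 51 (n 0 z (n 0 z (n 0 z (n 0 z (n 6426739 z (n 0 z (n 0 z (n 0 z (n 0 z (n 0
 z (n 0 z (n 0 z z)))))))))))) (n 505 (n 0 z (n 0 z (n 0 z (n 0 z (n 0 z (n 0 z (n 0 z (n
 6555435 z (n 0 z (n 0 z (n 0 z (n 0 z z)))))))))))) (n 505 (n 0 z (n 6426739 z (n 0 z (n 0 z (n
 0 z (n 0 z (n 0 z (n 0 z (n 0 z (n 0 z (n 0 z (n 0 z z)))))))))))) (n 505 (n 0 z (n 0 z (n 0 z
 (n 0 z (n 0 z (n 0 z (n 0 z (n 0 z (n 0 z (n 2 z (n 0 z (n 0 z z)))))))))))) z)))))))))) (n 0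
 (n 0 z (n 0 z (n 0 z (n 0 z (n 71 (n 0 z (n 0 z (n 0 z (n 0 z (n 0 z (n 0 z (n 2 (n 1 z (n 1 z
 (n 1 z (n 2 (n 0 z (n 0 (n 8868707 z z) (n 0 z (n 0 (n 6424603 z z) (n 0 z (n 0 (n 8869435 z (n
 8869435 z z)) z)))))) z)))) (n 0 z (n 0 z (n 0 z (n 0 z (n 0 z z)))))))))))) (n 69 (n 2 (n 1 z
 (n 1 z (n 2 (n 0 z (n 0 z (n 0 z (n 0 z (n 0 z (n 0 z z)))))) z))) (n 0 z (n 0 z (n 0 z (n 0 z
 (n 0 z (n 0 z (n 0 z (n 0 z (n 0 z (n 0 z (n 0 z (n 0 z (n 0 z (n 0 z (n 0 z (n 0 z (n 0 z (n 0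
 z (n 0 z (n 0 z (n 0 z (n 0 z (n 0 z (n 0 z (n 0 z (n 0 z (n 0 z z))))))))))))))))))))))))))))
 (n 509 (n 0 z (n 0 z (n 0 z (n 0 z (n 2 (n 0 z (n 0 z z)) (n 0 z (n 0 z (n 0 z (n 0 z (n 0 z (n
 0 z (n 0 z z)))))))))))) (n 509 (n 2 (n 0 z z) (n 0 z (n 0 z (n 0 z (n 0 z (n 0 z (n 0 z (n 0 z
 (n 0 z (n 0 z (n 0 z (n 0 z z)))))))))))) (n 509 (n 0 z (n 0 z (n 0 z (n 0 z (n 0 z (n 0 z (n 0
 z (n 0 z (n 0 z (n 0 z (n 0 z (n 0 z z)))))))))))) z))))))))) (n 0 (n 0 z (n 0 z (n 0 z (n 67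
 (n 0 z (n 0 z (n 0 z (n 0 z (n 0 z (n 0 z (n 0 z (n 0 z (n 0 z (n 0 z (n 0 z (n 0 z (n 0 z (n 0
 z z)))))))))))))) (n 51 (n 0 z (n 0 z (n 0 z (n 0 z (n 0 z (n 0 z (n 0 z (n 0 z (n 0 z
 z))))))))) (n 49 (n 2 (n 0 z (n 0 z z)) (n 0 z (n 0 z (n 0 z (n 0 z (n 0 z (n 0 z (n 0 z (n 0 z
 (n 0 z (n 0 z z))))))))))) (n 49 (n 0 z (n 0 z (n 0 z (n 0 z (n 0 z (n 0 z (n 0 z (n 0 z (n 0 z
 (n 0 z (n 0 z z))))))))))) (n 49 (n 0 z (n 0 z (n 0 z (n 0 z (n 0 z (n 0 z (n 0 z (n 0 z (n 0 z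
 (n 0 z (n 0 z z))))))))))) z)))))))) (n 0 (n 0 z (n 0 z (n 119 (n 0 z (n 0 z (n 0 z (n 0 z (n 0
 z (n 0 z (n 0 z (n 0 z z)))))))) (n 111 (n 0 z (n 0 z (n 0 z (n 0 z (n 0 z (n 0 z (n 0 z (n 0 z
 (n 0 z (n 0 z (n 0 z (n 0 z z)))))))))))) (n 61 (n 0 z (n 0 z (n 0 z (n 0 z (n 0 z (n 0 z (n 0
 z (n 0 z (n 0 z (n 0 z (n 0 z z))))))))))) (n 61 (n 0 z (n 0 z (n 0 z (n 0 z (n 0 z (n 0 z (n 0
 z (n 0 z (n 0 z (n 0 z (n 0 z z))))))))))) (n 61 (n 0 z (n 0 z (n 0 z (n 0 z (n 0 z (n 2 z (n 0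
 z (n 0 z (n 0 z (n 0 z (n 0 z z))))))))))) z))))))) (n 0 (n 0 z (n 139 (n 0 z (n 0 z (n 0 z (n
 0 z (n 0 z (n 0 z (n 0 z (n 0 z (n 0 z z))))))))) (n 137 (n 0 z (n 0 z (n 0 z (n 0 z (n 0 z (n
 0 z (n 0 z (n 0 z (n 0 z (n 0 z (n 0 z (n 0 z z)))))))))))) (n 109 (n 0 z (n 0 z (n 0 z (n 0 z
 (n 0 z (n 0 z (n 0 z (n 0 z (n 0 z z))))))))) (n 109 (n 0 z (n 0 z (n 0 z (n 0 z (n 0 z (n 0 z
 (n 0 z (n 0 z (n 0 z z))))))))) (n 109 (n 0 z (n 0 z (n 0 z (n 0 z (n 0 z (n 0 z (n 0 z (n 0 z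
 (n 0 z z))))))))) z)))))) (n 0 (n 1231 (n 0 z (n 0 z (n 0 z (n 0 z (n 0 z (n 0 z (n 0 z (n 0 z
 (n 0 z (n 0 z (n 0 z (n 0 z z)))))))))))) (n 1229 (n 0 z (n 0 z (n 0 z (n 0 z (n 0 z (n 0 z (n
 0 z z))))))) (n 629 (n 0 z (n 0 z (n 0 z (n 0 z (n 0 z (n 0 z z)))))) (n 629 (n 2 (n 0 z z) (n
 0 z (n 0 z (n 0 z (n 0 z (n 0 z z)))))) (n 629 (n 0 z (n 0 z (n 0 z (n 0 z (n 0 z (n 0 z
 z)))))) z))))) (n 0 (n 291 (n 0 z (n 0 z (n 0 z (n 0 z (n 0 z (n 0 z (n 0 z (n 0 z (n 0 z (n 0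
 z (n 0 z (n 0 z (n 0 z z))))))))))))) (n 289 (n 0 z (n 0 z (n 0 z (n 2 (n 0 z (n 0 z z)) (n 0 z
 (n 0 z (n 0 z (n 0 z (n 0 z (n 0 z (n 0 z (n 0 z (n 0 z (n 0 z z)))))))))))))) (n 289 (n 0 z (n
 0 z (n 0 z (n 0 z (n 0 z (n 0 z (n 0 z (n 0 z (n 0 z (n 0 z (n 0 z (n 0 z (n 0 z (n 0 z
 z)))))))))))))) (n 289 (n 0 z (n 0 z (n 0 z (n 0 z (n 0 z (n 0 z (n 0 z (n 0 z (n 0 z (n 0 z (n
 0 z (n 0 z (n 0 z (n 0 z z)))))))))))))) z)))) (n 0 (n 961 (n 0 z (n 0 z (n 0 z (n 0 z (n 0 z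
 (n 0 z (n 0 z (n 0 z (n 0 z (n 0 z (n 0 z (n 0 z (n 0 z (n 0 z (n 0 z (n 0 z (n 0 z (n 0 z (n 0
 z (n 0 z (n 0 z (n 0 z (n 0 z (n 0 z (n 0 z (n 0 z (n 2 (n 0 z (n 0 z z)) (n 0 z (n 0 z (n 0 z
 (n 0 z (n 0 z (n 0 z (n 0 z (n 0 z (n 0 z (n 0 z (n 0 z (n 0 z (n 0 z (n 0 z (n 0 z (n 0 z (n 0
 z (n 0 z (n 0 z (n 0 z z))))))))))))))))))))))))))))))))))))))))))))))) (n 961 (n 0 z (n 0 z (n
 0 z (n 0 z (n 0 z (n 0 z (n 0 z (n 0 z (n 0 z (n 0 z (n 0 z (n 0 z (n 0 z (n 0 z (n 0 z (n 0 z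
 (n 0 z (n 0 z (n 0 z (n 0 z (n 0 z (n 0 z (n 0 z (n 0 z (n 0 z (n 0 z (n 0 z (n 0 z (n 0 z (n 0
 z (n 0 z (n 0 z (n 0 z (n 0 z (n 0 z (n 0 z (n 0 z (n 0 z (n 0 z (n 0 z (n 0 z (n 0 z (n 0 z (n
 0 z (n 0 z (n 0 z (n 0 z z))))))))))))))))))))))))))))))))))))))))))))))) (n 961 (n 0 z (n 0 z
 (n 0 z (n 0 z (n 0 z (n 0 z (n 0 z (n 0 z (n 0 z (n 0 z (n 0 z (n 0 z (n 0 z (n 0 z (n 0 z (n 0
 z (n 0 z (n 0 z (n 0 z (n 0 z (n 0 z (n 0 z (n 0 z (n 0 z (n 0 z (n 0 z (n 0 z (n 0 z (n 0 z (n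
 0 z (n 0 z (n 0 z (n 0 z (n 0 z (n 0 z (n 0 z (n 0 z (n 0 z (n 0 z (n 0 z (n 0 z (n 0 z (n 0 z
 (n 0 z (n 0 z (n 0 z (n 0 z z))))))))))))))))))))))))))))))))))))))))))))))) z))) (n 0 (n 0 z
 (n 0 z z)) (n 0 (n 0 z z) (n 0 z z))))))))))) (n 0 (n 1 (n 6562587 z (n 6562587 z (n 6562587 z
 (n 6562587 z (n 6562587 z (n 6562587 z z)))))) (n 0 z z)) (n 0 z z)))) (n
 0x5a9ca2c45d155928aa27437aca15965b50915aa886bcc4291811 (n 0 (n 153 (n 0 z (n 0 z (n 3282443 z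
 (n 0 z (n 0 z z))))) (n 57 (n 2 z (n 0 z (n 10 z (n 6496515 z (n 0 z (n 18 z (n 6496515 z (n 0
 z (n
 0x265465420380632a329900c00594d94c806004ca6a864038077df80980a8167fe8087f97f97ff81c7ed8077d57e080e8147f97ff7fb80280a8048077fb8178217ed7da81e7f38057ff7ef7f880f7f68107fa7e77df8187f880b8108008028077fe80f2011
 z z))))))))) (n 51 (n
 0x54ca482060380c7f48058018047f67f78057fa7fe8097fb8007fb80180a8058007f181b7fa81a8077fc7fd7fe8007f57ff8017fb80a7f780f7ef7f97fe80e8077fa80780480b8007fe8088208018108020811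
 z (n 0 z (n 0 z (n 0 z (n 0 z (n 0 z (n 6496515 z (n 0 z (n 0 z (n 26 z (n
 0xe132a01c06548117be8258258037bd7c88097cf8197e67db8007d18408217cd83d81b85983283379787d7d78188037b67fd8017f97ec82b80f7d37db80488281f7928057f58197fc7f683082e7e482e8280091
 z (n 0 z (n
 0xe132181c06438117be8258258037bd7c88097cf8197e67db8007d18408217cd83d81b85983283379787d7d78188037b67fd8017f97ec82b80f7d37db80488281f7928057f58197fc7f683082e7e482e8280091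
 z z))))))))))))) (n 27 (n 0 z (n 0 z (n 6496515 z (n 0 z (n 0 z (n 0 z (n 0 z (n 0 z z))))))))
 (n 1 (n 0 z (n 6554411 z (n 0 z (n 0 z (n 0 z (n 0 z z)))))) (n 0 (n
 0x2461080b7f880280a7fd8017fc8067fb8018027fd8007f27fe8017fd8047fc7fd8058078017fd7fa80380b7f87ff8067fa8038047fe7ff8028048097ff7f27f77f78018007fc8057fd80280580a0051
 z (n 0 z (n 0 z (n 2164315 z (n 34 z (n 0 z (n 4261467 z (n
 0x4a64080c7f980280e7f88007f48077fb8048017fe8008018068047fc8027fe7ff7fd8047fd7fe7fe7fe8027f57fe8077fd8078078007fd7fd80480a7fe7f78097fd7fe8007fb8028007fe7fe8010051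
 z (n
 0x18c86c864037df8297e97c481b80081c7d58347fe7f980a80083d7e78008007f87fe8267f67d27f97e18177d88008167ff8038068197dc8188168058427b47e18548237f27f47ee7e67e17f180d7ee7d40811
 z (n 0 z (n 42 z (n
 0xe131881c06318117be8258258037bd7c88097cf8197e67db8007d18408217cd83d81b85983283379787d7d78188037b67fd8017f97ec82b80f7d37db80488281f7928057f58197fc7f683082e7e482e8280091
 z (n 0 z (n 0 z (n
 0x626218017f38008007f680680580e7fb8058068008007f87f98008038007fa7fb8038037fe8007fd8048018007fe8017ff8038097fd7fe7ff8008068067f47f47f98038007f98057fb8007fd8040051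
 z (n 0 z (n
 0x626208017f38008007f680680580e7fb8058068008007f87f98008038007fa7fb8038037fe8007fd8048018007fe8017ff8038097fd7fe7ff8008068067f47f47f98038007f98057fb8007fd8040051
 z (n
 0x426207fe7f280180580a7fe8018058048038007fe8007f77f48067fb8077fd8018058047fe8027fd8078017f87ff8067f980880b7ff7ff7fe80b8048057f57f87fd8008007f98017fc8027fe8040051
 z (n 0 z (n 0 z (n
 0x626308017f38008007f680680580e7fb8058068008007f87f98008038007fa7fb8038037fe8007fd8048018007fe8017ff8038097fd7fe7ff8008068067f47f47f98038007f98057fb8007fd8040051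
 z (n 0 z (n 0 z (n 0 z (n 0 z (n 0 z (n 50 z (n 58 z (n 0 z (n 0 z (n 0 z (n 0 z (n 66 z (n 74
 z (n 0 z (n 0 z (n 0 z (n
 0xe132001c06408117be8258258037bd7c88097cf8197e67db8007d18408217cd83d81b85983283379787d7d78188037b67fd8017f97ec82b80f7d37db80488281f7928057f58197fc7f683082e7e482e8280091
 z (n
 0xe131901c06328117be8258258037bd7c88097cf8197e67db8007d18408217cd83d81b85983283379787d7d78188037b67fd8017f97ec82b80f7d37db80488281f7928057f58197fc7f683082e7e482e8280091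
 z (n
 0x2a6318087fb8028097fb8007f88057fd8028017fe8008018048037fd8017ff7ff7fe8037fe7ff7fe7ff8017f97ff8057fe8048048017ff7fe8028067ff7fa8067fe7ff8007fc8018007fe7ff8020051
 z (n 0 z (n 0 z (n
 0xe132001c06408117be8258258037bd7c88097cf8197e67db8007d18408217cd83d81b85983283379787d7d78188037b67fd8017f97ec82b80f7d37db80488281f7928057f58197fc7f683082e7e482e8280091
 z (n 0 z (n
 0xe131881c06318117be8258258037bd7c88097cf8197e67db8007d18408217cd83d81b85983283379787d7d78188037b67fd8017f97ec82b80f7d37db80488281f7928057f58197fc7f683082e7e482e8280091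
 z (n 0 z (n 0 z z))))))))))))))))))))))))))))))))))))))))))))))) z)))))) (n 153 (n 0 (n 0 z (n
 0 z (n 775 (n 0 z (n 0 z (n 0 z (n 0 z (n 0 z (n 0 z (n 0 z (n 0 z (n 0 z (n 2 (n 1 z (n 2 (n 0
 z (n 0 (n 8732771 z z) (n 0 z (n 0 (n 8664587 z z) (n 0 z (n 0 (n 2884 z (n 2884 z z)) z))))))
 (n 1 z (n 1 z (n 2 (n 0 z (n 0 z (n 0 z (n 0 z (n 0 z (n 0 (n 2884 z z) z)))))) (n 2 (n 0 z (n
 0 z (n 0 z (n 0 z (n 0 z (n 0 z z)))))) z)))))) (n 0 z (n 0 z (n 0 z (n 0 z z)))))))))))))) (n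
 721 (n 0 z (n 0 z (n 0 z (n 0 z (n 0 z (n 0 z (n 0 z (n 0 z (n 0 z (n 0 z (n 0 z (n 0 z (n 0 z
 (n 0 z (n 0 z (n 0 z (n 0 z (n 0 z (n 0 z (n 0 z (n 0 z (n 0 z (n 0 z (n 0 z (n 0 z (n 0 z (n 0
 z (n 0 z (n 0 z (n 0 z (n 0 z (n 0 z (n 0 z (n 0 z (n 0 z (n 0 z (n 0 z (n 0 z (n 0 z (n 0 z (n
 0 z (n 0 z (n 0 z (n 0 z (n 0 z (n 0 z z)))))))))))))))))))))))))))))))))))))))))))))) (n 721
 (n 0 z (n 0 z (n 0 z (n 0 z (n 0 z (n 0 z (n 0 z (n 0 z (n 0 z (n 0 z (n 0 z (n 0 z (n 0 z (n 0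
 z (n 0 z (n 0 z (n 0 z (n 0 z (n 0 z (n 0 z (n 0 z (n 0 z (n 0 z (n 0 z (n 0 z (n 0 z (n 0 z (n
 0 z (n 0 z (n 0 z (n 0 z (n 0 z (n 0 z (n 0 z (n 0 z (n 0 z (n 0 z (n 0 z (n 0 z (n 0 z (n 0 z
 (n 0 z (n 0 z (n 0 z (n 0 z (n 0 z z)))))))))))))))))))))))))))))))))))))))))))))) (n 721 (n 0
 z (n 0 z (n 0 z (n 0 z (n 0 z (n 0 z (n 0 z (n 0 z (n 0 z (n 0 z (n 0 z (n 0 z (n 0 z (n 0 z (n
 0 z (n 0 z (n 0 z (n 0 z (n 0 z (n 0 z (n 0 z (n 0 z (n 0 z (n 0 z (n 0 z (n 0 z (n 0 z (n 0 z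
 (n 0 z (n 0 z (n 2 (n 0 z (n 0 z (n 0 z z))) (n 0 z (n 0 z (n 0 z (n 0 z (n 0 z (n 0 z (n 0 z
 (n 0 z (n 0 z (n 0 z (n 0 z (n 0 z (n 0 z (n 0 z (n 0 z
 z)))))))))))))))))))))))))))))))))))))))))))))) (n 721 (n 0 z (n 0 z (n 0 z (n 0 z (n 0 z (n 0
 z (n 0 z (n 0 z (n 0 z (n 0 z (n 0 z (n 0 z (n 0 z (n 0 z (n 0 z (n 0 z (n 0 z (n 0 z (n 0 z (n
 0 z (n 0 z (n 0 z (n 0 z (n 0 z (n 0 z (n 0 z (n 0 z (n 0 z (n 0 z (n 0 z (n 0 z (n 0 z (n 2 (n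
 0 z (n 0 z z)) (n 0 z (n 0 z (n 0 z (n 0 z (n 0 z (n 0 z (n 0 z (n 0 z (n 0 z (n 0 z (n 0 z (n
 0 z (n 0 z z)))))))))))))))))))))))))))))))))))))))))))))) (n 721 (n 0 z (n 0 z (n 0 z (n 0 z
 (n 0 z (n 0 z (n 0 z (n 0 z (n 0 z (n 0 z (n 0 z (n 0 z (n 0 z (n 0 z (n 0 z (n 0 z (n 0 z (n 0
 z (n 0 z (n 0 z (n 0 z (n 0 z (n 0 z (n 0 z (n 0 z (n 0 z (n 0 z (n 7669323 z (n 0 z (n 0 z (n
 0 z (n 0 z (n 0 z (n 0 z (n 0 z (n 0 z (n 0 z (n 0 z (n 0 z (n 0 z (n 0 z (n 0 z (n 0 z (n 0 z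
 (n 0 z (n 0 z z)))))))))))))))))))))))))))))))))))))))))))))) (n 721 (n 0 z (n 0 z (n 0 z (n 0
 z (n 0 z (n 0 z (n 0 z (n 0 z (n 0 z (n 0 z (n 0 z (n 0 z (n 0 z (n 0 z (n 0 z (n 0 z (n 0 z (n
 0 z (n 0 z (n 0 z (n 0 z (n 0 z (n 0 z (n 0 z (n 0 z (n 0 z (n 0 z (n 0 z (n
 0x2ec8e846038027fe8018037fe8028008018008008017ff8007ff8017ff8007ff7fd7ff8018018017ff7ff8008008018008018008028007ff8017ff8038007fe7ff7fb8027ff8027ff7ff8008018018010811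
 z (n 0 z (n 0 z (n 0 z (n 0 z (n 0 z (n 0 z (n 0 z (n 0 z (n 0 z (n 0 z (n 0 z (n 0 z (n 0 z (n
 0 z (n 0 z (n 0 z (n 0 z z)))))))))))))))))))))))))))))))))))))))))))))) z))))))))) (n 0 (n 0 z
 (n 129 (n 0 z (n 0 z (n 0 z (n 0 z (n 0 z (n 0 z (n 0 z (n 0 z (n 0 z (n 0 z (n 0 z
 z))))))))))) (n 65 (n 0 z (n 0 z (n 0 z (n 0 z (n 0 z (n 0 z (n 0 z (n 0 z (n 0 z (n 0 z (n 0 z
 z))))))))))) (n 65 (n 0 z (n 0 z (n 0 z (n 0 z (n 0 z (n 0 z (n 0 z (n 0 z (n 0 z (n 0 z (n 0 z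
 z))))))))))) (n 65 (n 0 z (n 0 z (n 0 z (n 0 z (n 0 z (n 0 z (n 0 z (n 0 z (n 0 z (n 0 z (n 0 z
 z))))))))))) (n 65 (n 0 z (n 0 z (n 0 z (n 0 z (n 0 z (n 0 z (n 0 z (n 0 z (n 0 z (n 0 z (n 0 z
 z))))))))))) (n 65 (n 0 z (n 0 z (n 0 z (n 0 z (n 0 z (n 0 z (n 2 (n 0 z z) (n 0 z (n 0 z (n 0
 z (n 0 z z))))))))))) (n 65 (n 2 z (n 0 z (n 0 z (n 0 z (n 0 z (n 0 z (n 0 z (n 0 z (n 0 z (n 0
 z (n 0 z z))))))))))) z)))))))) (n 0 (n 123 (n 0 z (n 0 z (n 0 z (n 0 z (n 0 z (n 0 z (n 0 z (n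
 0 z (n 0 z (n 0 z (n 0 z (n 0 z (n 0 z (n 0 z z)))))))))))))) (n 113 (n 0 z (n 0 z (n 0 z (n 0
 z (n 0 z (n 0 z (n 0 z (n 0 z (n 0 z (n 0 z (n 0 z z))))))))))) (n 113 (n 0 z (n 0 z (n 0 z (n
 0 z (n 0 z (n 2 (n 0 z (n 0 z (n 0 z (n 0 z z)))) (n 0 z (n 0 z (n 0 z (n 0 z (n 0 z
 z))))))))))) (n 113 (n 2 (n 0 z (n 0 z (n 0 z z))) (n 0 z (n 0 z (n 0 z (n 0 z (n 0 z (n 0 z (n
 0 z (n 0 z (n 0 z (n 0 z z))))))))))) (n 113 (n 0 z (n 0 z (n 0 z (n 0 z (n 0 z (n 0 z (n 0 z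
 (n 0 z (n 0 z (n 0 z (n 0 z z))))))))))) (n 113 (n 0 z (n 0 z (n 0 z (n 0 z (n 0 z (n 0 z (n 0
 z (n 0 z (n 7684707 z (n 0 z (n 0 z z))))))))))) (n 113 (n 0 z (n 0 z (n 0 z (n 0 z (n 0 z (n 0
 z (n 0 z (n 0 z (n 0 z (n 0 z (n 0 z z))))))))))) z))))))) (n 0 (n 101 (n 0 z (n 0 z (n 0 z (n
 0 z (n 0 z (n 0 z (n 0 z (n 0 z (n 0 z (n 0 z (n 0 z (n 0 z (n 0 z (n 0 z z)))))))))))))) (n
 101 (n 0 z (n 0 z (n 0 z (n 0 z (n 0 z (n 0 z (n 0 z (n 0 z (n 0 z (n 0 z (n 0 z (n 0 z (n 0 z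
 (n 0 z z)))))))))))))) (n 101 (n 0 z (n 0 z (n 0 z (n 2 (n 0 z (n 0 z (n 0 z z))) (n 0 z (n 0 z
 (n 0 z (n 0 z (n 0 z (n 0 z (n 0 z (n 0 z (n 0 z (n 0 z z)))))))))))))) (n 101 (n 0 z (n 0 z (n
 0 z (n 0 z (n 0 z (n 0 z (n 0 z (n 0 z (n 0 z (n 0 z (n 0 z (n 0 z (n 0 z (n 0 z
 z)))))))))))))) (n 101 (n 0 z (n 0 z (n 0 z (n 0 z (n 0 z (n 0 z (n 0 z (n 0 z (n 0 z (n 0 z (n
 2 (n 0 z z) (n 0 z (n 0 z (n 0 z z)))))))))))))) (n 101 (n 0 z (n 0 z (n 0 z (n 0 z (n 0 z (n 0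
 z (n 0 z (n 0 z (n 0 z (n 0 z (n 0 z (n 0 z (n 0 z (n 0 z z)))))))))))))) z)))))) (n 0 (n 0 z
 (n 0 z (n 0 z (n 0 z (n 0 z z))))) (n 0 (n 0 z (n 0 z (n 0 z (n 0 z z)))) (n 0 (n 0 z (n 0 z (n
 0 z z))) (n 0 (n 0 z (n 0 z z)) (n 0 (n 0 z z) (n 0 z z)))))))))) (n 0 (n 0 z (n 0 z (n 1 (n
 6496515 z (n 3282443 z (n 3282443 z (n 3282443 z (n 3282443 z (n 3282443 z z)))))) (n 0 z (n 0
 z z))))) (n 0 z z)))) (n 0x5a1a8ed6c42e5819 (n 0 (n 153 (n 0 z (n 6557747 z (n 6557747 z (n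
 5379595 z (n 0 z (n 0 z (n 0 z (n 0 z z)))))))) (n 33 (n 2 z (n 6557747 z (n 10 z (n 0 z z))))
 (n 9 (n 6496523 z (n 0 z (n 0 z (n 0 z (n 0 z (n 0 z (n 0 z (n 0 z z)))))))) (n 3 (n
 0x2ca6a20803808081807f80808181807e808180817f7f80807e807e82818181807f80828081807f827f80807e7f7f827f7f807f81837f800809
 z (n 0 z (n
 0x1194588100602ca2a408038080828082807d8481807e72828089827f7b7f77827a86798e857f877e8c807a857e7d827a8087797f7d787c8079877f81841009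
 z (n 6496523 z (n 0 z (n
 0x32a32a101c0190d50480e02ca8ca82037f80837f80807f80837f7f7d7f80867f7d80817c847e847e83807d837e82807e827f807f82807f7f7d837f7f817c82817d801809
 z (n 0 z (n 0 z (n 0 z (n 0 z (n
 0x6ca8a842078080818080808080837d807f80808281807f807b827c827d85817c818183807e867f817e7f80847c7f7f7f7e807e838081810809
 z (n 0 z (n 4326971 z (n
 0x6ca2c40803016545402018032a32a080c0995194840600ca8c842078084867d858080838f757b6586828e827b797c6d8472877a94828186798e807d877d80867680867b7a7e757d80758f7c83842809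
 z (n
 0xb29a90a01c0994594100604ca2c408030265465210180b29aa1081c0595150040600ca2ca20037d86837f817e847b8d767a767d7d8d81887a806a8a6c8b7a96897d807787807a878484847c807e7d7b7f7d7b83748c8182873809
 z (n 0 z (n 18 z (n 0 z (n 6496523 z (n 0 z (n 0 z (n 0 z (n 0xca6a208070821 z
 z))))))))))))))))))))))) (n 1 (n 0 z (n
 0xb2a290980c0594d8c840602ca8a4020780847c7f817f867d818084847e7d8181857e817e817f7f8280807e828481807d857d817e7e80847d817f7f817e817f7f81801809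
 z (n
 0x329b29880c059514c040e00ca6ca600780827f7f837f827f827f837c817e847e817f827d80808081817d837f7f8080828080808380807e827e7f7f81817f82807f7f1809
 z (n 0 z (n 0 z (n 6557747 z (n 0 z (n 0 z (n
 0x1b19308280c01945940c0608ca8a406070565363020181b29b29080c0594d88040608ca8a620077f80877f7d7b7f7b90728c8878778b7d91788b63965e8a7e94837a7c798280788985878083807d7e8584867a8876898180853809
 z z))))))))) (n 0 (n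
 0x2c84c402038080818080808080837f80808080827e827f807d827a80818280807f7f81807b817d83807f807d818183807f7f817f8180800809
 z (n
 0x2c84c2060380807f80818081808180808080807e808280817e817d80838180827f807f8082807f827f82807e817e817e808081817f80800809
 z (n
 0x64364120380320b18100c019510c080600ca864020780827f7f8281847e837e837f807f817d837e817d85787f7f8380847f7e82807c81808c827f807f867d817a7b81807f807a812009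
 z (n
 0xc86c8240780808080817f8180827f8080808180817f81807d807c82818281817e808180807f80867f7e807d8281827e7d81827f827e810809
 z (n 0 z (n 0 z (n 0 z (n 0 z (n 0 z (n 0 z (n
 0x190d90480e00ca886240380817e80837f8280827f827f807f7e7f847f817f807e7d838181827f7e808080817f828280807d837f7e7f8081808080817f1009
 z (n
 0xc84c842078080808080808280817f8080808280807f82807e8281807f81807f80807f8081807f7f7f81807f807f8081818282807f807f0809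
 z (n 0 z (n 0 z (n 0 z (n 0 z (n
 0x1328990201c0590d90480e00c8686240780817f80837e8480817f837d807e8182837f837f817c7c85817e837b7f80807f7d8085867e807d86807e7f7b8281807f7b801809
 z (n 0 z (n 0 z (n
 0x2c320850640808085807f83807d8973807a89808082817c8074846f867d8d7f7c81798080827f868581768073877d888282818081838a840089
 z (n 2164315 z (n
 0x1909904c0600c86c864037e837f7d837f837e827f817f807f817e8180807f817f8081818080807f808080817f8180808080807f808080817f818080801009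
 z (n
 0x2c86c8240780807f808180817f7f7f808181827c81808180817f817f827f80807e817d80817f8080807e8081818180818382837f7e807f0809
 z (n 0 z (n 0 z (n
 0x990d90c80604c84c842077d7f7f807e7e817e82818a8d767581818e7c8a7d857e7f8281817d8087808078887c82798280867c837d837e8080807e80811009
 z z)))))))))))))))))))))))))) z)))))) (n 33 (n 0 (n 0 z (n 525 (n 0 z (n 0 z (n 0 z (n 0 z (n 0
 z (n 0 z (n 0 z (n 0 z (n 0 z (n 0 z (n 0 z (n 0 z (n 0 z (n 0 z (n 0 z (n 0 z (n 0 z (n 0 z (n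
 0 z (n 0 z (n 0 z (n
 0xecaeca0037f808080817f818081808080807e80808080818080808080818180808080808080808080808080807f8080808080808080800809
 z (n 0 z (n 0 z (n 0 z z))))))))))))))))))))))))) z)) (n 0 (n 519 (n 0 z (n 0 z (n 0 z (n 0 z
 (n 0 z (n 0 z (n 0 z (n 0 z (n 0 z (n 0 z (n 0 z (n 0 z (n 0 z (n 0 z (n 0 z (n 0 z (n 0 z (n 0
 z (n 0 z (n 0 z z)))))))))))))))))))) z) (n 0 z z))) (n 0 (n 1 (n 1228 z (n 1228 z (n 6496523 z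
 (n 1228 z (n 1228 z (n 1228 z z)))))) (n 1 (n 6557747 z (n 6557747 z (n 6557747 z (n 6557747 z
 (n 6557747 z (n 6557747 z z)))))) (n 1 (n 1228 z (n 1228 z (n 1228 z (n 6496523 z (n 1228 z (n
 1228 z z)))))) (n 0 z z)))) (n 0 z z)))) (n 0x160b5750d53 (n 0 (n 155 (n 0 z (n 0 z (n 3282443
 z (n 0 z z)))) (n 33 (n 0 z (n 6496515 z z)) (n 51 (n 6496515 z (n 0 z (n 0 z (n 0 z (n 0 z
 z))))) (n 245 (n 0 z (n 2 z (n 6496515 z (n 0 z (n 0 z (n 10 z (n 0 z (n 0 z (n 0 z z)))))))))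
 (n 1 (n 6554411 z (n 0 z (n 0 z (n 0 z z)))) (n 0 (n 2164315 z (n 0 z z)) z)))))) (n 33 (n 0 (n
 0 z z) (n 0 z z)) (n 0 (n 0 z (n 1 (n 6496515 z (n 6496515 z (n 6496515 z (n 6496515 z (n
 6496515 z (n 6496515 z z)))))) z)) (n 0 z z)))) z)))))))))), by decide +kernel⟩
theorem i10756 : ∃ t, chkR KT RW t 10756 10760 = true := ⟨(n
 0x4511a0d515c222a3154518511883b1c70445b2144dc4114cd11271404b35045c5100cd500 (n 0x714459aa2 (n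
 179 (n 2 z (n 6358347 z (n
 0xcca6a624078007d782689378d84d77089576b84883c7cc8087b88a37a27d085089178e80c8037e68647b67d47c284d8287ba7d57ef7e884e7ca82d7ad8527e78048387c47e27d57dd8567d981681e7f80811
 z (n 0 z (n 10 z (n 3282443 z z)))))) (n 33 (n 0 z (n 0 z (n 6358347 z (n 0 z (n 18 z (n 26 z
 (n 6496595 z z))))))) (n 131 (n 0 z (n 34 z (n 0 z (n 0 z (n 0 z (n 0 z (n 0 z (n 42 z (n 0 z
 (n 6496595 z z)))))))))) (n 3 (n 0 z (n 50 z (n 0 z (n 0 z (n 58 z (n 0 z (n 6496595 z z)))))))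
 (n 1 (n 66 z (n
 0x67d94594400600019ec86a420030000e38c2000019e9840000f9cb0800018b86108000007ffda08003f6800d307ff7588004887ff2d0800c787ff4e080069880010f7ffb258000e57ff8f7800b657ff6da7ffbe680061b800d307ff85b8001338000007ffdf38009077ff9687fffb57ffe608007668000437ffae77fffe87ffa4d7ffae58003f57ffbc880069f7ff6028007247ff98880032180052d7ffaba7ffdfe7ffb3280007d8009447ffcd07ffd708002d18001601119
 z (n 2164299 z (n 74 z (n 82 z (n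
 0x1aca6ca24078007db8258bf7788597428b974885f8387d380a7aa8cb7a87bc84e8bf77d8138007df88c7a07ce7a48498447b37d07d27e483f7bd83c7a28717cf7fe85d7c97ef7bd7c284b7d18348287f40811
 z (n
 0x6ca4ca42078047dc81e86a7aa83879d86a79683182e7d88077dc8827cb7cf83d85c7a68198007f78317d27cd7cc82b8277d97d78087ee8317d481a7d783a7ec7fe8277e17fa7e67d48347d882a8197ef0811
 z (n 3212875 z (n 0 z (n
 0x4ca6ca64037638617a28617de5e18de7e081c95e8a07a17a48a066675779d6686638228dd99e7e26a18a10801 z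
 (n 0xc6508208208208208208608207e08207a08208208208208608218208208208208208208208208200041 z (n
 90 z (n 0 z (n 0 z z)))))))))))))) (n 0 (n 98 z (n 2164315 z (n 0 z (n 0 z (n 106 z (n 0 z (n 0
 z (n 0 z z)))))))) z)))))) (n 179 (n 0 (n 0 z (n 1003 (n 0 z (n 0 z (n 0 z (n 0 z (n 0 z (n 0 z
 (n 0 z (n 0 z z)))))))) (n 1003 (n 0 z (n 2 (n 2 (n 0 z (n 0 z (n 0 z (n 0 z (n 0 z (n 0 z
 z)))))) (n 2 (n 0 z (n 0 z (n 0 z (n 0 z (n 0 z (n 0 z z)))))) (n 2 (n 0 z (n 0 z (n 0 z (n 0 z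
 (n 0 z (n 0 z z)))))) (n 2 (n 0 z (n 0 z (n 0 z (n 0 z (n 0 z (n 0 z z)))))) (n 2 (n 0 z (n 0 z
 (n 0 z (n 0 z (n 0 z (n 0 z z)))))) (n 2 (n 0 z (n 0 z (n 0 z (n 0 z (n 0 z (n 0 z z)))))) (n 2
 (n 0 z (n 0 z (n 0 z (n 0 z (n 0 z (n 0 z z)))))) (n 2 (n 0 z (n 0 (n 1956 z z) (n 0 z (n 0 (n
 1045 z z) (n 0 z (n 0 (n 8861275 z (n 8861275 z z)) z)))))) (n 2 (n 0 z (n 0 z (n 0 z (n 0 z (n
 0 z (n 0 z z)))))) (n 2 (n 0 z (n 0 z (n 0 z (n 0 z (n 0 z (n 0 (n 8855619 z z) z))))))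
 z)))))))))) (n 0 z (n 0 z (n 0 z (n 0 z (n 0 z (n 0 z z)))))))) (n 999 (n 0 z (n 0 z (n 0 z (n
 0 z (n 0 z (n 0 z (n 0 z (n 0 z (n 0 z z))))))))) (n 999 (n 2 (n 2 (n 0 z (n 0 z (n 0 z (n 0 z
 (n 0 z (n 0 z z)))))) (n 2 (n 0 z (n 0 z (n 0 z (n 0 z (n 0 z (n 0 z z)))))) (n 2 (n 0 z (n 0 z
 (n 0 z (n 0 z (n 0 z (n 0 z z)))))) (n 2 (n 0 z (n 0 z (n 0 z (n 0 z (n 0 z (n 0 z z)))))) (n 1
 z (n 2 (n 0 z (n 0 z (n 0 z (n 0 (n 205 z z) (n 0 (n 1956 z z) (n 0 (n 8861275 z (n 8861275 z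
 z)) z)))))) (n 2 (n 0 z (n 0 z (n 0 z (n 0 z (n 0 z (n 0 (n 8802867 z z) z)))))) (n 2 (n 0 z (n
 0 z (n 0 z (n 0 z (n 0 z (n 0 (n 8855619 z z) z)))))) z)))))))) (n 0 z (n 0 z (n 0 z (n 0 z (n
 0 z (n 0 z (n 0 z (n 0 z z))))))))) (n 1001 (n 0 z (n 0 z (n 0 z (n 0 z (n 0 z (n 0 z (n 0 z (n
 0 z (n 0 z (n 0 z (n 0 z (n 0 z (n 0 z z))))))))))))) (n 1001 (n 0 z (n 0 z (n 0 z (n 0 z (n 0
 z (n 0 z (n 0 z (n 0 z (n 0 z (n 0 z (n 0 z (n 0 z (n 0 z z))))))))))))) (n 489 (n 2 (n 0 z (n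
 0 z (n 0 z (n 1 z (n 1 z z))))) (n 0 z (n 0 z (n 0 z (n 0 z (n 0 z (n 0 z (n 0 z (n 0 z (n 0 z
 (n 0 z (n 0 z (n 0 z z))))))))))))) (n 489 (n 0 z (n 0 z (n 0 z (n 0 z (n 0 z (n 0 z (n 0 z (n
 0 z (n 0 z (n 0 z (n 0 z (n 0 z (n 0 z z))))))))))))) (n 489 (n 0 z (n 0 z (n 0 z (n 0 z (n 0 z
 (n 0 z (n 0 z (n 0 z (n 0 z (n 0 z (n 0 z (n 0 z (n 0 z z))))))))))))) (n 489 (n 0 z (n 0 z (n
 0 z (n 0 z (n 0 z (n 0 z (n 0 z (n 0 z (n 0 z (n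
 0x6ecaeca6078047dc81e86a7aa83879d86a79683182e7d88077dc8827cb7cf83d85c7a68198007f78317d27cd7cc82b8277d97d78087ee8317d481a7d783a7ec7fe8277e17fa7e67d48347d882a8197ef0811
 z (n 0 z (n 0 z (n 0 z z))))))))))))) (n 157 (n 0 z (n 0 z (n 0 z (n 0 z (n 0 z z))))) (n 157
 (n 0 z (n 0 z (n 0 z (n 0 z (n 0 z z))))) z))))))))))))) (n 0 (n 1399 (n 0 z (n 0 z (n 0 z (n 0
 z (n 0 z (n 0 z (n 0 z (n 0 z (n 0 z (n 2 (n 0 z (n 1 z (n 1 z (n 1 z (n 1 z (n 1 z (n 1 z (n 1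
 z (n 1 z (n 1 z (n 1 z z))))))))))) (n 0 z (n 0 z (n 0 z z))))))))))))) (n 1399 (n 0 z (n 0 z
 (n 0 z (n 0 z (n 0 z (n 0 z (n 0 z (n 0 z (n 0 z (n 0 z (n 0 z (n 0 z (n 0 z z))))))))))))) (n
 23 (n 2 (n 0 z (n 1 z (n 1 z (n 1 z (n 1 z (n 1 z (n 2 (n 0 (n 8795995 z z) (n 0 z (n 0 z (n 0
 z (n 0 z (n 0 (n 1020 z (n 8795995 z z)) z)))))) (n 1 z (n 1 z z))))))))) (n 0 z (n 0 z (n 0 z
 (n 0 z (n 0 z (n 0 z z))))))) (n 23 (n 0 z (n 0 z (n 0 z (n 0 z (n 0 z (n 0 z (n 0 z z)))))))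
 (n 251 (n 0 z (n 0 z (n 0 z (n 0 z (n 0 z (n 0 z (n 0 z (n 0 z (n 0 z (n 0 z (n 0 z (n 0 z (n 0
 z (n 0 z (n 0 z (n 0 z (n 0 z z))))))))))))))))) (n 251 (n 0 z (n 0 z (n 0 z (n 0 z (n 0 z (n 0
 z (n 0 z (n 0 z (n 0 z (n 0 z (n 0 z (n 0 z (n 0 z (n 0 z (n 0 z (n 0 z (n 0 z
 z))))))))))))))))) (n 255 (n 0 z (n 0 z (n 2 (n 0 z (n 0 z (n 0 z (n 1 z (n 1 z z))))) (n 0 z
 (n 0 z (n 0 z (n 0 z (n 0 z (n 0 z (n 0 z (n 0 z (n 0 z (n 0 z z))))))))))))) (n 255 (n 0 z (n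
 0 z (n 0 z (n 0 z (n 0 z (n 0 z (n 0 z (n 0 z (n 0 z (n 0 z (n 0 z (n 0 z (n 0 z z)))))))))))))
 (n 255 (n 0 z (n 0 z (n 0 z (n 0 z (n 0 z (n 0 z (n 0 z (n 0 z (n 0 z (n 0 z (n 0 z (n 0 z (n 0
 z z))))))))))))) (n 255 (n 0 z (n 0 z (n 0 z (n 0 z (n 0 z (n 0 z (n 0 z (n 0 z (n 0 z (n 0 z
 (n 2 (n 1 z (n 1 z z)) (n 0 z (n 0 z z))))))))))))) (n 253 (n 0 z (n 0 z (n 0 z (n 0 z (n 0 z
 (n 0 z (n 0 z (n 0 z (n 0 z (n 0 z (n 0 z (n 0 z (n 0 z (n 0 z (n 0 z (n 0 z (n 0 z (n 0 z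
 z)))))))))))))))))) (n 253 (n 0 z (n 0 z (n 0 z (n 0 z (n 0 z (n 0 z (n 0 z (n 0 z (n 0 z (n 0
 z (n 0 z (n 0 z (n 0 z (n 0 z (n 0 z (n 0 z (n 0 z (n 0 z z)))))))))))))))))) z)))))))))))) (n
 0 (n 0 z (n 1047 (n 0 z (n 0 z (n 0 z (n 0 z (n 0 z (n 0 z z)))))) (n 1047 (n 0 z (n 2 (n 1 z
 (n 2 (n 0 z (n 0 z (n 0 z (n 0 z (n 0 z (n 0 z z)))))) (n 1 z (n 1 z (n 1 z (n 1 z (n 1 z (n 1
 z z)))))))) (n 0 z (n 0 z (n 0 z (n 0 z z)))))) (n 1045 (n 0 z (n 0 z (n 0 z (n 0 z (n 0 z (n 0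
 z (n 0 z (n 0 z (n 0 z (n 0 z (n 0 z (n 0 z z)))))))))))) (n 1045 (n 0 z (n 0 z (n 0 z (n 0 z
 (n 0 z (n 0 z (n 2 (n 2 (n 0 z (n 0 z (n 0 z (n 0 z (n 0 z (n 0 z z)))))) (n 2 (n 0 z (n 0 z (n
 0 z (n 0 z (n 0 z (n 0 z z)))))) (n 1 z (n 2 (n 0 z (n 0 z (n 0 z (n 0 (n 8798731 z z) (n 0 (n
 8798731 z z) (n 0 (n 8798731 z (n 8798731 z z)) z)))))) (n 2 (n 0 z (n 0 z (n 0 z (n 0 z (n 0 z
 (n 0 (n 8802867 z z) z)))))) (n 2 (n 0 z (n 0 z (n 0 z (n 0 z (n 0 z (n 0 (n 8855619 z z)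
 z)))))) z)))))) (n 0 z (n 0 z (n 0 z (n 0 z (n 0 z z)))))))))))) (n 249 (n 0 z (n 0 z (n 0 z (n
 0 z (n 0 z (n 0 z (n 0 z (n 0 z (n 0 z (n 0 z (n 0 z (n 0 z (n 0 z z))))))))))))) (n 249 (n 2
 (n 0 z (n 0 z (n 1 z (n 1 z z)))) (n 0 z (n 0 z (n 0 z (n 0 z (n 0 z (n 0 z (n 0 z (n 0 z (n 0
 z (n 0 z (n 0 z (n 0 z z))))))))))))) (n 249 (n 0 z (n 0 z (n 0 z (n 0 z (n 0 z (n 0 z (n 0 z
 (n 0 z (n 0 z (n 0 z (n 0 z (n 0 z (n 0 z z))))))))))))) (n 249 (n 0 z (n 0 z (n 0 z (n 0 z (n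
 0 z (n 0 z (n 0 z (n 0 z (n 7750155 z (n 0 z (n 0 z (n 0 z (n 0 z z))))))))))))) (n 385 (n 0 z
 (n 0 z (n 0 z (n 0 z z)))) (n 385 (n 0 z (n 2 z (n 0 z (n 0 z z)))) z))))))))))) (n 0 (n 263 (n
 2 (n 0 z (n 2 (n 0 z (n 0 z (n 0 z (n 0 z (n 0 z (n 0 z z)))))) (n 2 (n 0 z (n 0 z (n 0 z (n 0
 z (n 0 z (n 0 z z)))))) (n 2 (n 0 z (n 0 z (n 0 z (n 0 z (n 0 z (n 0 z z)))))) (n 2 (n 0 z (n 0
 z (n 0 z (n 0 z (n 0 z (n 0 z z)))))) (n 2 (n 0 z (n 0 z (n 0 z (n 0 z (n 0 z (n 0 z z)))))) (n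
 2 (n 0 z (n 0 (n 8795995 z z) (n 0 z (n 0 (n 8795995 z z) (n 0 z (n 0 (n 7477259 z (n 1044 z
 z)) z)))))) (n 2 (n 0 z (n 0 z (n 0 z (n 0 z (n 0 z (n 0 z z)))))) (n 2 (n 0 z (n 0 z (n 0 z (n
 0 z (n 0 z (n 0 (n 8790083 z z) z)))))) z))))))))) (n 0 z (n 0 z (n 0 z (n 0 z (n 0 z (n 0 z
 z))))))) (n 263 (n 0 z (n 0 z (n 0 z (n 0 z (n 0 z (n 0 z (n 0 z z))))))) (n 11 (n 0 z (n 2 (n
 0 z (n 2 (n 0 z (n 0 z (n 0 z (n 0 z (n 0 z (n 0 z z)))))) (n 2 (n 0 z (n 0 z (n 0 z (n 0 z (n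
 0 z (n 0 (n 3278955 z z) z)))))) (n 1 z (n 2 (n 0 z (n 0 z (n 0 (n 8864267 z z) (n 0 z (n 0 (n
 8864267 z z) (n 0 (n 8864267 z (n 8864267 z z)) z)))))) (n 2 (n 0 z (n 0 z (n 0 z (n 0 z (n 0 z
 (n 0 (n 8864267 z z) z)))))) (n 1 z z))))))) (n 0 z (n 0 z (n 0 z (n 0 z (n 0 z (n 0 z
 z)))))))) (n 11 (n 0 z (n 0 z (n 0 z (n 0 z (n 0 z (n 0 z (n 0 z (n 0 z z)))))))) (n 261 (n 0 z
 (n 0 z (n 0 z (n 0 z (n 0 z (n 0 z (n 0 z (n 0 z (n 0 z (n 0 z (n 0 z (n 0 z (n 0 z (n 0 z (n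
 0xe9dd854c080e000e9eec4ec40030004a38ec000074e9d80004afcbb000078b87608000007ff13080146a804a307fcd16801d787fb5d080475e7fbd70802518800a897feaeb8000ab7fd9318043957fc7267fe91d8027e5804a307fd3818009cd8000007ff38280326d7fdae87ff8f37fed9e802b62800c2a7fdb357ffa287fe41b7fe6af80143b7fe9f4801f147fd2f980266d7fdea1801096801b237fe4ee7ff3567fe76a7ff86f8036ac7fed887ff6d4800feb8005d41119
 z (n 0 z (n 0 z (n 0 z (n 0 z (n 0 z z)))))))))))))))))))) (n 261 (n 0 z (n 0 z (n 0 z (n 0 z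
 (n 0 z (n 0 z (n 0 z (n 0 z (n 0 z (n 0 z (n 0 z (n 0 z (n 0 z (n 0 z (n 0 z (n 0 z (n 0 z (n 0
 z (n 0 z (n 0 z z)))))))))))))))))))) (n 261 (n 0 z (n 0 z (n 0 z (n 2 (n 0 z (n 1 z (n 1 z
 z))) (n 0 z (n 0 z (n 0 z (n 0 z (n 0 z (n 0 z (n 0 z (n 0 z (n 0 z (n 0 z (n 0 z (n 0 z (n 0 z
 (n 0 z (n 0 z (n 0 z z)))))))))))))))))))) (n 261 (n 0 z (n 0 z (n 0 z (n 0 z (n 0 z (n 2 (n 1
 z (n 1 z z)) (n 0 z (n 0 z (n 0 z (n 0 z (n 0 z (n 0 z (n 0 z (n 0 z (n 0 z (n 0 z (n 0 z (n 0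
 z (n 0 z (n 0 z z)))))))))))))))))))) (n 253 (n 2 (n 0 z z) (n 0 z (n 0 z (n 0 z (n 0 z (n 0 z
 (n 0 z (n 0 z z)))))))) (n 253 (n 0 z (n 0 z (n 0 z (n 0 z (n 0 z (n 0 z (n 0 z (n 0 z
 z)))))))) z)))))))))) (n 0 (n 0 z (n 1093 (n 0 z (n 0 z (n 0 z (n 0 z (n 0 z (n 0 z (n 0 z
 z))))))) (n 1093 (n 2 (n 2 (n 0 z (n 0 z (n 0 z (n 0 z (n 0 z (n 0 z z)))))) (n 2 (n 0 z (n 0 z
 (n 0 z (n 0 z (n 0 z (n 0 z z)))))) (n 2 (n 0 z (n 0 z (n 0 z (n 0 z (n 0 z (n 0 z z)))))) (n 2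
 (n 0 z (n 0 (n 6428683 z z) (n 0 z (n 0 (n 61 z z) (n 0 z (n 0 (n 8861275 z (n 8861275 z z))
 z)))))) (n 2 (n 0 z (n 0 z (n 0 z (n 0 z (n 0 z (n 0 z z)))))) (n 2 (n 0 z (n 0 z (n 0 z (n 0 z
 (n 0 z (n 0 (n 8855619 z z) z)))))) z)))))) (n 0 z (n 0 z (n 0 z (n 0 z (n 0 z (n 0 z z)))))))
 (n 255 (n 0 z (n 0 z (n 0 z (n 0 z (n 0 z (n 0 z (n 0 z (n 0 z (n 0 z (n 0 z (n 0 z (n 0 z (n 0
 z z))))))))))))) (n 255 (n 0 z (n 0 z (n 0 z (n 0 z (n 0 z (n 2 (n 0 z (n 0 z (n 2 (n 0 z (n 0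
 z (n 0 z (n 0 z (n 0 z (n 0 (n 8802867 z z) z)))))) (n 2 (n 0 z (n 0 z (n 0 z (n 0 z (n 0 z (n
 0 (n 8868635 z z) z)))))) z)))) (n 0 z (n 0 z (n 0 z (n 0 z (n 0 z (n 0 z (n 0 z z)))))))))))))
 (n 255 (n 0 z (n 0 z (n 0 z (n 0 z (n 0 z (n 0 z (n 0 z (n 0 z (n 0 z (n 0 z (n 0 z (n 0 z (n 0
 z z))))))))))))) (n 255 (n 0 z (n 0 z (n 0 z (n 0 z (n 0 z (n 0 z (n 0 z (n 0 z (n 0 z (n 0 z
 (n
 0x6ecaeca6078047dc81e86a7aa83879d86a79683182e7d88077dc8827cb7cf83d85c7a68198007f78317d27cd7cc82b8277d97d78087ee8317d481a7d783a7ec7fe8277e17fa7e67d48347d882a8197ef0811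
 z (n 0 z (n 0 z z))))))))))))) (n 253 (n 0 z (n 0 z (n 0 z (n 0 z (n 0 z (n 0 z (n 0 z (n 0 z
 (n 0 z z))))))))) (n 253 (n 0 z (n 0 z (n 0 z (n 0 z (n 2 z (n 0 z (n 0 z (n 0 z (n 0 z
 z))))))))) z))))))))) (n 0 (n 59 (n 2 (n 0 z (n 1 z (n 1 z (n 1 z (n 1 z (n 1 z (n 1 z z)))))))
 (n 0 z (n 0 z (n 0 z z)))) (n 59 (n 0 z (n 0 z (n 0 z (n 0 z z)))) (n 51 (n
 0x1247dd8594400e003a7eec8a6200300330b8ec0003a7e9d80030d1cbb000530387608000007f596880e9b28337607dcd348123407cba00831cec7d39c081a300801ee17f0e0b8008437e24d981fd677cd9a67f82d88188cb8346007f4375810f3d8000007f2f8f8285bf7e5d00807feb7f6d8c827b1e7fdfe77ddc57810b4c7dfdab7e7abb7f8b9b8001c481e42f7f2c8480fd487cf664817e03804c937f35fa7e7fba7f8ec67f8ac38252147f7df87e454080e12f80a1001119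
 z (n 0 z (n 0 z (n 0 z (n 0 z (n 0 z (n 0 z (n 0 z (n 0 z (n 0 z (n 0 z (n 0 z (n 0 z (n 0 z (n
 0 z z))))))))))))))) (n 51 (n 0 z (n 0 z (n 0 z (n 0 z (n 0 z (n 0 z (n 0 z (n 0 z (n 0 z (n 0
 z (n 0 z (n 0 z (n 0 z (n 0 z (n 0 z z))))))))))))))) (n 51 (n 0 z (n 0 z (n 0 z (n 0 z (n 2 (n
 0 z (n 1 z (n 1 z z))) (n 0 z (n 0 z (n 0 z (n 0 z (n 0 z (n 0 z (n 0 z (n 0 z (n 0 z (n 0 z
 z))))))))))))))) (n 51 (n 0 z (n 0 z (n 0 z (n 0 z (n 0 z (n 0 z (n 0 z (n 0 z (n 0 z (n 0 z (n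
 0 z (n 0 z (n 0 z (n 0 z (n 2 (n 1 z (n 1 z z)) z))))))))))))))) (n 49 (n 2 (n 0 z z) (n 0 z (n
 0 z (n 0 z (n 0 z (n 0 z (n 0 z (n 0 z (n 0 z (n 0 z (n 0 z (n 0 z (n 0 z (n 0 z
 z)))))))))))))) (n 49 (n 0 z (n 0 z (n 0 z (n 0 z (n 0 z (n 0 z (n 0 z (n 0 z (n 0 z (n 0 z (n
 0 z (n 0 z (n 0 z (n 0 z z)))))))))))))) z)))))))) (n 0 (n 0 z (n 3 (n 0 z (n 0 z (n 0 z (n 0 z
 (n 0 z (n 0 z (n 0 z (n 0 z (n 0 z (n 0 z (n 0 z z))))))))))) (n 3 (n 0 z (n 0 z (n 0 z (n 0 z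
 (n 0 z (n 0 z (n 0 z (n 0 z (n 0 z (n 0 z (n 0 z z))))))))))) (n 3 (n 0 z (n 0 z (n 0 z (n 0 z
 (n 0 z (n 0 z (n 0 z (n 0 z (n 0 z (n 0 z (n 0 z z))))))))))) (n 3 (n 0 z (n 0 z (n 0 z (n 0 z
 (n 0 z (n 0 z (n 0 z (n 0 z (n 7750155 z (n 0 z (n 0 z z))))))))))) (n 1 (n 0 z (n 0 z (n 0 z
 (n 0 z (n 0 z (n 0 z (n 0 z (n 0 z (n 0 z (n 0 z z)))))))))) (n 1 (n 0 z (n 0 z (n 0 z (n 0 z
 (n 0 z (n 0 z (n 0 z (n 0 z (n 0 z (n 0 z z)))))))))) z))))))) (n 0 (n 15 (n 0 z (n 0 z (n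
 0xe9dd8594080600074eec2ca20070002f38ec000074e9d80003b3cbb000059387608000007ff5b0800eee803b0c7fd8808016b27fc4f48037f87fcbc8801d867fff017feffb8001177fe16d802c4f7fd4e87ff0d0801ad6803b0c7fe92580102b8000007ff2b78027087fe27a80044f7fefc080221c8005df7fe6688003547fde637fe9237ffffd7ff358801e0b7fe8fe8019557fdbbd8013dc800f6d7ff1747ff0c27ff1f67ff3d580248e7ff0347ff2b4800e698005801119
 z (n 0 z (n 0 z (n 0 z (n 0 z (n 0 z (n 0 z (n 0 z (n 0 z (n 0 z z)))))))))))) (n 15 (n 0 z (n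
 0 z (n 0 z (n 0 z (n 0 z (n 0 z (n 0 z (n 0 z (n 0 z (n 0 z (n 0 z (n 0 z z)))))))))))) (n 15
 (n 0 z (n 0 z (n 0 z (n 0 z (n 0 z (n 0 z (n 0 z (n 0 z (n 0 z (n 0 z (n 0 z (n 0 z
 z)))))))))))) (n 15 (n 0 z (n 0 z (n 0 z (n 0 z (n 0 z (n 0 z (n 0 z (n 0 z (n 0 z (n 0 z (n 2
 (n 1 z (n 1 z z)) (n 0 z z)))))))))))) (n 13 (n 0 z (n 0 z (n 0 z (n 0 z (n 0 z (n 0 z (n 0 z
 (n 0 z z)))))))) (n 13 (n 0 z (n 0 z (n 0 z (n 0 z (n 0 z (n 0 z (n 0 z (n 0 z z))))))))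
 z)))))) (n 0 (n 0 z (n 0 z (n 0 z (n 1 (n 0 z (n 0 z (n 0 z (n 0 z (n 2 (n 0 z z) (n 0 z (n 0 z
 (n 0 z (n 0 z (n 0 z (n 0 z (n 0 z z)))))))))))) (n 1 (n
 0x11dd0dd0c0060471d801dcbb003b87608007d084e91075c8386f08fc7408887eb76185178f9356b272898991075b88b8008398ad7307957d48da7e56f58247e16e583d7ac8c97848c467c8757d57de76e7e27c59847d076887985808d1
 z (n 0 z (n 0 z (n 0 z (n 0 z (n 0 z (n 0 z (n 0 z (n 0 z (n 0 z (n 0 z (n 0 z z))))))))))))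
 z))))) (n 0 (n 0 z (n 0 z (n 25 (n 0 z (n 0 z (n 0 z (n 0 z (n 0 z (n 0 z (n 0 z (n 0 z (n 0 z
 (n 0 z (n 0 z (n 0 z (n 0 z (n 0 z z)))))))))))))) (n 25 (n 0 z (n 0 z (n 0 z (n 0 z (n 0 z (n
 0 z (n 0 z (n 0 z (n 0 z (n 0 z (n 0 z (n 0 z (n 0 z (n 0 z z)))))))))))))) z)))) (n 0 (n 0 z
 (n 5 (n 0 z (n 0 z (n 0 z (n 0 z (n 0 z (n 0 z (n 0 z (n 0 z (n 0 z (n 0 z (n 0 z (n 0 z
 z)))))))))))) (n 5 (n 0 z (n 0 z (n 0 z (n 0 z (n 0 z (n 0 z (n 0 z (n 0 z (n 0 z (n 0 z (n 0 z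
 (n 0 z z)))))))))))) z))) (n 0 (n 269 (n 0 z (n 7750155 z (n 0 z (n 0 z (n 0 z (n 0 z (n 0 z (n
 0 z (n 0 z (n 0 z (n 0 z (n 0 z (n 0 z (n 0 z z)))))))))))))) (n 269 (n 0 z (n 0 z (n 0 z (n 0
 z (n 0 z (n 0 z (n 0 z (n 2 z (n 0 z (n 0 z (n 0 z (n 0 z (n 0 z (n 0 z z)))))))))))))) z)) (n
 0 (n 0 z z) (n 0 z z)))))))))))))) (n 0 (n 1 (n 268 z (n 2 z (n 268 z (n 268 z (n 268 z (n 268
 z z)))))) (n 1 (n 6358347 z (n 6358347 z (n 6358347 z (n 6358347 z (n 6358347 z (n 6358347 z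
 z)))))) (n 1 (n 268 z (n 268 z (n 268 z (n 268 z (n 268 z (n 268 z z)))))) (n 0 z (n 1 (n 10 z
 (n 268 z (n 268 z (n 268 z (n 268 z (n 268 z z)))))) (n 1 (n 3282443 z (n 3282443 z (n 3282443
 z (n 3282443 z (n 3282443 z (n 3282443 z z)))))) z)))))) (n 0 (n 0xe288e6e208a6e2809 (n 0 (n 0
 (n 7754291 z (n 7754291 z (n 7754291 z (n 7754291 z (n 7754291 z (n 7754291 z z)))))) (n 0 (n
 32068 z (n 32068 z (n 32004 z (n 6489883 z (n 32068 z (n 32068 z z)))))) z)) (n 0 (n 78 (n 1 (n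
 3282699 z (n 3282699 z (n 3282699 z (n 3282699 z (n 7545171 z (n 3282699 z z)))))) (n 1 (n
 7538219 z (n 7538219 z (n 7538219 z (n 7538219 z (n 7545171 z (n 7538219 z z)))))) (n 1 (n 1436
 z (n 7406923 z (n 1436 z (n 1436 z (n 7545171 z (n 1436 z z)))))) (n 1 (n 7754291 z (n 7754291
 z (n 7754291 z (n 7754291 z (n 7754291 z (n 7754291 z z)))))) (n 0 z z))))) (n 192 (n 1 (n
 3278619 z (n 3278619 z (n 3278619 z (n 3278619 z (n 7545171 z (n 3278619 z z)))))) (n 1 (n 4204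
 z (n 4204 z (n 2 z (n 7406923 z (n 7545171 z (n 4204 z z)))))) (n 1 (n 4204 z (n 7406923 z (n
 4204 z (n 4204 z (n 7545171 z (n 4204 z z)))))) (n 1 (n 7754291 z (n 7754291 z (n 7754291 z (n
 7754291 z (n 7754291 z (n 7754291 z z)))))) z)))) (n 547 (n 0 z (n 1 (n 4396 z (n 10 z (n 4396
 z (n 4396 z (n 4396 z (n 4396 z z)))))) (n 1 (n 7545171 z (n 7545171 z (n 7545171 z (n 7545171
 z (n 7545171 z (n 7545171 z z)))))) (n 0 z (n 1 (n 7406923 z (n 7406923 z (n 7406923 z (n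
 7406923 z (n 7406923 z (n 7406923 z z)))))) (n 1 (n 7754291 z (n 7754291 z (n 7754291 z (n
 7754291 z (n 7754291 z (n 7754291 z z)))))) z)))))) (n 570 (n 1 (n 7750155 z (n 4604 z (n
 7538219 z (n 4604 z (n 4604 z (n 4604 z z)))))) (n 1 (n 7545171 z (n 7545171 z (n 7545171 z (n
 7545171 z (n 7545171 z (n 7545171 z z)))))) (n 0 z (n 0 z (n 1 (n 7545171 z (n 7545171 z (n
 7545171 z (n 7545171 z (n 7545171 z (n 7545171 z z)))))) (n 0 z (n 0 z z))))))) (n 3 (n 1 (n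
 2588 z (n 3278619 z (n 2588 z (n
 0x1997dd8dd84006003a7eca6e820070031eb8e200074fe9c4004751cb8800716387108000007f0988815762857ac07c5e74821c707a93e0852a4c7b4ac082b610803cf97ee9337fbf6b7d51e78380af7b61e67f15b8822e59856c207f116382638f8000007e2c4183a67d7d49f080ac5d7e490c8391c280abcf7ce475810d307c51537dc50d7e44c980298082b44d7f84d481796c7b7d9e8247d78082017f8f9e7e132a7f8ad67e37058327447e9bd87dfb0081749180ad601119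
 z (n 7754291 z (n 6633291 z z)))))) (n 1 (n 7750155 z (n 7750155 z (n 7750155 z (n 7750155 z (n
 7754291 z (n 7750155 z z)))))) (n 1 (n 7750155 z (n 7750155 z (n 7750155 z (n 7750155 z (n
 7754291 z (n 7750155 z z)))))) (n 1 (n 7545171 z (n 7545171 z (n 7545171 z (n 7545171 z (n
 7754291 z (n 7545171 z z)))))) (n 1 (n 7545171 z (n 7545171 z (n 7545171 z (n 7545171 z (n
 7754291 z (n 7545171 z z)))))) (n 1 (n 7545171 z (n 7545171 z (n 7545171 z (n 7545171 z (n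
 7754291 z (n 7545171 z z)))))) (n 1 (n 3281011 z (n 7750155 z (n 7750155 z (n 7750155 z (n
 7754291 z (n 7750155 z z)))))) (n 0 z (n 1 (n 7750155 z (n 7750155 z (n 7750155 z (n 7750155 z
 (n 7754291 z (n 7750155 z z)))))) (n 0 z (n 1 (n 2588 z (n 2588 z (n
 0x4ea6ea64037638617a28617de5e18de7e081c95e8a07a17a48a066675779d6686638228dd99e7e26a18a10801 z
 (n 2588 z (n 7754291 z (n 2588 z z)))))) z))))))))))) (n 699 (n 1 (n 3278619 z (n 3278619 z (n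
 3278619 z (n 3278619 z (n 3278619 z (n 3278619 z z)))))) (n 1 (n 5692 z (n 5692 z (n 5692 z (n
 5692 z (n 5692 z (n 5692 z z)))))) (n 1 (n 5692 z (n 5692 z (n 1052 z (n 5692 z (n 5692 z (n
 5692 z z)))))) (n 1 (n 7754291 z (n 7754291 z (n 7754291 z (n 7754291 z (n 7754291 z (n 7754291
 z z)))))) z)))) (n 179 (n 1 (n 7754291 z (n 7754291 z (n 7754291 z (n 7754291 z (n 7754291 z (n
 7754291 z z)))))) (n 1 (n 7406923 z (n 7406923 z (n 7750155 z (n 7406923 z (n 7406923 z (n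
 7406923 z z)))))) (n 1 (n 7750155 z (n 268 z (n 268 z (n 268 z (n 268 z (n 268 z z)))))) (n 0 z
 (n 1 (n 18 z (n 268 z (n 268 z (n 7750155 z (n 268 z (n 268 z z)))))) (n 1 (n 3282699 z (n
 7750155 z (n 3282699 z (n 3282699 z (n 3282699 z (n 3282699 z z)))))) z)))))) z))))))) (n 0 (n
 0 (n 0 z (n 0 z (n 0 z z))) (n 0 (n 0 z (n 0 z z)) (n 0 (n 0 z z) z))) (n 0 (n 525 (n 0 (n 0 z
 (n 0 z (n 0 z z))) (n 0 (n 0 z (n 0 z (n 0 z z))) (n 0 (n 0 z (n 0 z (n 0 z z))) (n 0 (n 0 z (n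
 0 z (n 0 z z))) (n 0 (n 0 z (n 0 z (n 0 z z))) (n 0 (n 0 z (n 0 z (n 0 z z))) (n 0 (n 0 (n
 8455499 z (n 8455499 z z)) (n 0 (n 8455499 z (n 8455499 z z)) (n 0 z z))) (n 0 (n 0 z (n 0 z (n
 0 z z))) z)))))))) (n 549 (n 0 (n 0 z (n 0 z (n 0 z z))) (n 0 (n 0 z (n 0 z (n 0 z z))) (n 0 (n
 0 z (n 0 z (n 0 z z))) (n 0 (n 0 z (n 0 z (n 0 z z))) (n 0 (n 0 z (n 0 z (n 0 z z))) (n 0 (n 0
 z (n 0 z (n 0 z z))) (n 0 (n 0 z (n 0 z (n 0 z z))) (n 0 (n 0 z (n 0 z (n 0 z z))) (n 0 (n 0 z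
 (n 0 z (n 0 z z))) z))))))))) (n 547 (n 0 (n 0 z (n 0 z (n 0 z z))) (n 0 (n 0 z (n 0 z (n 0 z
 z))) (n 0 (n 0 z (n 0 z (n 0 z z))) (n 0 (n 0 z (n 0 z (n 0 z z))) (n 0 (n 0 z (n 0 z (n 0 z
 z))) (n 0 (n 0 z (n 0 z (n 0 z z))) z)))))) (n 575 (n 0 (n 0 z (n 0 z (n 0 z z))) (n 0 (n 0 (n
 8455499 z (n 8455499 z z)) (n 0 (n 7751739 z (n 8455499 z z)) (n 0 z z))) (n 0 (n 0 z (n 0 z (n
 0 z z))) (n 0 (n 0 z (n 0 (n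
 0xc87181f8607e08208208608207e08207a082089f86086082082081f8608218208a18208217df8200041 z z) (n 0
 z z))) (n 0 (n 0 z (n 0 z (n 0 z z))) (n 0 (n 0 z (n 0 z (n 0 z z))) (n 0 (n 0 z (n 0 z (n 0 z
 z))) (n 0 (n 0 z (n 0 z (n 0 z z))) (n 0 (n 0 z (n 0 z (n 0 z z))) (n 0 (n 0 z (n 0 z (n 0 z
 z))) (n 0 (n 0 (n 8587035 z z) (n 0 (n 8587035 z z) (n 0 z z))) (n 0 (n 0 z (n 0 z (n 0 z z)))
 (n 0 (n 0 z (n 0 z (n 0 z z))) z))))))))))))) (n 571 (n 0 (n 0 z (n 0 z (n 0 z z))) (n 0 (n 0 z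
 (n 0 z (n 0 (n 8855619 z z) z))) (n 0 (n 0 z (n 0 z (n 0 z z))) (n 0 (n 0 z (n 0 z (n 0 z z)))
 (n 0 (n 0 z (n 0 z (n 0 (n 6424603 z (n 6424603 z z)) z))) (n 0 (n 0 z (n 0 z (n 0 z z))) (n 0
 (n 0 z (n 0 z (n 0 z z))) (n 0 (n 0 z (n 0 z (n 0 z z))) (n 0 (n 0 z (n 0 z (n 0 z z))) (n 0 (n
 0 z (n 0 z (n 0 z z))) (n 0 (n 0 z (n 0 (n 8855619 z z) (n 0 z z))) (n 0 (n 0 z (n 0 z (n 0 z
 z))) z)))))))))))) (n 570 (n 0 (n 0 z (n 0 z (n 0 z z))) (n 0 (n 0 z (n 0 z (n 0 z z))) (n 0 (n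
 0 z (n 0 z (n 0 z z))) (n 0 (n 0 z (n 0 z (n 0 z z))) (n 0 (n 0 z (n 0 z (n 0 z z))) (n 0 (n 0
 z (n 0 z (n 0 z z))) (n 0 (n 0 z (n 0 z (n 0 z z))) z))))))) (n 323 (n 0 (n 0 z (n 0 z (n 0 z
 z))) (n 0 (n 0 z (n 0 z (n 0 z z))) (n 0 (n 0 z (n 0 z (n 0 z z))) (n 0 (n 0 z (n 0 z (n 0 z
 z))) (n 0 (n 0 z (n 0 z (n 0 z z))) (n 0 (n 0 z (n 0 z (n 0 z z))) (n 0 (n 0 z (n 0 z (n 0 z
 z))) (n 0 (n 0 z (n 0 z (n 0 z z))) (n 0 (n 0 z (n 0 z (n 0 z z))) (n 0 (n 0 (n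
 0x10a6ea640781f86082082082089f8208208208208208208208208208208208208208208208208208208200801 z
 z) (n 0 (n
 0xc87181f8607e08208208608608208207e082081f8208208608208208207e082085f82082181f8200041 z z) (n 0
 z z))) (n 0 (n 0 z (n 0 (n 3283019 z z) (n 0 z z))) (n 0 (n 0 z (n 0 z (n 0 z z))) (n 0 (n 0 z
 (n 0 z (n 0 (n
 0xc87381f8607e08208208608207e08207a082089f86086082082081f8608218208a18208217df8200041 z (n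
 8587035 z z)) z))) z))))))))))))) (n 491 (n 0 (n 0 z (n 0 z (n 0 z z))) (n 0 (n 0 z (n 0 z (n 0
 z z))) (n 0 (n 0 z (n 0 z (n 0 z z))) (n 0 (n 0 z (n 0 z (n 0 z z))) (n 0 (n 0 z (n 0 z (n 0 z
 z))) (n 0 (n 0 z (n 0 z (n 0 z z))) (n 0 (n 0 z (n 0 z (n 0 z z))) (n 0 (n 0 z (n 0 z (n 0 z
 z))) (n 0 (n 0 z (n 0 z (n 0 z z))) (n 0 (n 0 z (n 0 z (n 0 z z))) (n 0 (n 0 (n 8798731 z z) (n
 0 (n 8798731 z z) (n 0 z z))) (n 0 (n 0 z (n 0 z (n 0 (n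
 0x148708208608208208208608608207e07a082081f82082086082181f8607e081f85f81f8217df8210041 z z)
 z))) (n 0 (n 0 z (n 0 z (n 0 (n 6490187 z z) z))) z))))))))))))) (n 129 (n 0 (n 0 z (n 0 z (n 0
 z z))) (n 0 (n 0 (n
 0x130a4a206077e847e698c73a2629a7177738c8c63a188785e85767c8e6a938d8c746d8f7d917e7d80858b787f7f738c8387847186917b7b0809
 z (n 0x2c8757dd8a17618237a191c8629e36ad8196208e681f6a391e5a886d65e5a78d999e75d8317e68a10041 z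
 z)) (n 0 (n 8868635 z (n 8868635 z z)) (n 0 z z))) (n 0 (n 0 z (n 0 z (n 0 z z))) (n 0 (n 0 z
 (n 0 (n 3213387 z z) (n 0 z z))) (n 0 (n 0 z (n 0 z (n 0 z z))) (n 0 (n 0 z (n 0 z (n 0 z z)))
 (n 0 (n 0 z (n 0 z (n 0 z z))) (n 0 (n 0 z (n 0 z (n 0 z z))) (n 0 (n 0 z (n 0 z (n 0 z z))) (n
 0 (n 0 z (n 0 z (n 0 z z))) (n 0 (n 0 (n
 0xc87081f8607e08208208608608208207e082081f8208208608208208207e082085f82082181f8200041 z z) (n 0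
 (n 0xc87081f8607e08208208608608208207e082081f8208208608208208207e082085f82082181f8200041 z z)
 (n 0 z z))) (n 0 (n 0 z (n 0 z (n 0 z z))) (n 0 (n 0 z (n 0 z (n 0 z z))) z))))))))))))) (n 3
 (n 0 (n 0 z (n 0 z (n 0 z z))) (n 0 (n 0 z (n 0 z (n 0 z z))) (n 0 (n 0 z (n 0 z (n 0 z z))) (n
 0 (n 0 z (n 0 z (n 0 z z))) (n 0 (n 0 z (n 0 z (n 0 z z))) (n 0 (n 0 z (n 0 z (n 0 z z))) (n 0
 (n 0 z (n 0 z (n 0 z z))) (n 0 (n 0 z (n 0 (n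
 0xc8708208208208208208608207e08207a08208208208208608218208208208208208208208208200041 z z) (n 0
 z z))) (n 0 (n 0 (n 8798731 z z) (n 0 z (n 0 z z))) (n 0 (n 0 z (n 0 z (n 0 z z))) (n 0 (n 0 z
 (n 0 z (n 0 z z))) z))))))))))) (n 711 (n 0 (n 0 z (n 0 z (n 0 z z))) (n 0 (n 0 z (n 0 z (n 0 z
 z))) (n 0 (n 0 z (n 0 z (n 0 z z))) (n 0 (n 0 z (n 0 z (n 0 z z))) (n 0 (n 0 z (n 0 (n
 0xc87381f8607e08208208608608208207e082081f8208208608208208207e082085f82082181f8200041 z (n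
 0x19486280877e47a45dba4ab5635e5eaa8441828b54478c7c80a5739a72c76b4c6bbc8b6c7d91a8947f518e5f6240869478862d90a40049
 z z)) (n 0 z z))) z))))) (n 699 (n 0 (n 0 z (n 0 z (n 0 z z))) (n 0 (n 0 z (n 0 z (n 0 z z)))
 (n 0 (n 0 z (n 0 z (n 0 z z))) (n 0 (n 0 z (n 0 z (n 0 z z))) z)))) (n 131 (n 0 (n 0 z (n 0 z
 (n 0 z z))) (n 0 (n 0 z (n 0 z (n 0 z z))) (n 0 (n 0 z (n 0 z (n 0 z z))) (n 0 (n 0 z (n 0 z (n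
 0 z z))) (n 0 (n 0 z (n 0 z (n 0 z z))) (n 0 (n 0 z (n 0 z (n 0 z z))) (n 0 (n 0 z (n 0 z (n 0
 z z))) (n 0 (n 0 z (n 0 z (n 0 z z))) (n 0 (n 0 z (n 0 z (n 0 z z))) z))))))))) (n 5 (n 0 (n 0
 z (n 0 z (n 0 z z))) (n 0 (n 0 z (n 0 z (n 0 z z))) (n 0 (n 0 z (n 0 z (n 0 z z))) (n 0 (n 0 z
 (n 0 z (n 0 z z))) (n 0 (n 0 z (n 0 z (n 0 z z))) (n 0 (n 0 z (n 0 z (n 0 z z))) (n 0 (n 0 z (n
 0 z (n 0 z z))) (n 0 (n 0 z (n 0 z (n 0 z z))) (n 0 (n 0 z (n 0 z (n 0 z z))) (n 0 (n 0 z (n 0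
 z (n 0 z z))) z)))))))))) (n 4 (n 0 (n 0 z (n 0 z (n 0 z z))) (n 0 (n 0 z (n 0 z (n 0 z z))) (n
 0 (n 0 z (n 0 z (n 0 z z))) (n 0 (n 0 z (n 0 z (n 0 z z))) (n 0 (n 0 z (n 0 z (n 0 z z))) (n 0
 (n 0 z (n 0 z (n 0 z z))) (n 0 (n 0 z (n 0 z (n 0 z z))) (n 0 (n 0 z (n 0 z (n 0 z z))) (n 0 (n
 0 z (n 0 z (n 0 z z))) (n 0 (n 0 z (n 0 z (n 0 z z))) (n 0 (n 0 (n 8798731 z z) (n 0 z (n 0 z
 z))) (n 0 (n 0 z (n 0 (n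
 0xc8708208208208208208608207e08207a08208208208208608218208208208208208208208208200041 z z) (n 0
 z z))) z)))))))))))) (n 179 (n 0 (n 0 z (n 0 z (n 0 z z))) (n 0 (n 0 z (n 0 z (n 0 z z))) (n 0
 (n 0 z (n 0 z (n 0 z z))) (n 0 (n 0 z (n 0 z (n 0 z z))) (n 0 (n 0 z (n 0 z (n 0 z z))) (n 0 (n
 0 z (n 0 z (n 0 z z))) z)))))) (n 33 (n 0 (n 0 z (n 0 (n 8802867 z z) (n 0 (n 8802867 z z) z)))
 (n 0 (n 0 z (n 0 (n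
 0xc87381f8607e08208208608207e08207a082089f86086082082081f8608218208a18208217df8200041 z (n
 0x6c8757e79858378837f877a828a768384918673a083706f7f868f7f7d72898b7c6994839f7078698f8c6d8e7b787880aa7f9083810049
 z z)) (n 0 (n
 0xc87381f8607e08208208608207e08207a082089f86086082082081f8608218208a18208217df8200041 z (n
 0x6c8757f7a858378827e867a828a7683849287739f83706f7e868f7f7c73898b7c6994839f7078698f8b6d8e7c787880ab7e9084820049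
 z z)) z))) (n 0 (n 0 z (n 0 z (n 0 z z))) (n 0 (n 0 z (n 0 z (n 0 z z))) (n 0 (n 0 z (n 0 z (n
 0 z z))) (n 0 (n 0 z (n 0 z (n 0 z z))) (n 0 (n 0 z (n 0 z (n 0 z z))) z))))))) (n 131 (n 0 (n
 0 z (n 0 z (n 0 z z))) (n 0 (n 0 z (n 0 z (n 0 z z))) (n 0 (n 0 z (n 0 z (n 0 z z))) (n 0 (n 0
 z (n 0 z (n 0 z z))) (n 0 (n 0 z (n 0 z (n 0 z z))) (n 0 (n 0 z (n 0 z (n 0 z z))) (n 0 (n 0 z
 (n 0 (n 8868635 z (n 8868635 z z)) (n 0 (n 8868635 z (n 8868635 z z)) z))) (n 0 (n 0 z (n 0 z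
 (n 0 z z))) (n 0 (n 0 z (n 0 z (n 0 z z))) (n 0 (n 0 z (n 0 z (n 0 z z))) z)))))))))) (n 3 (n 0
 (n 0 z (n 0 z (n 0 z z))) (n 0 (n 0 z (n 0 z (n 0 z z))) (n 0 (n 0 z (n 0 z (n 0 z z))) (n 0 (n
 0 z (n 0 (n 8798731 z z) (n 0 (n 8798731 z z) z))) (n 0 (n 0 z (n 0 z (n 0 z z))) (n 0 (n 0 z
 (n 0 z (n 0 z z))) (n 0 (n 0 z (n 0 z (n 0 z z))) z))))))) (n 1 (n 0 (n 0 z (n 0 z (n 0 z z)))
 (n 0 (n 0 z (n 0 z (n 0 z z))) (n 0 (n 0 z (n 0 z (n 0 z z))) (n 0 (n 0 z (n 0 z (n 0 z z))) (n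
 0 (n 0 z (n 0 z (n 0 z z))) (n 0 (n 0 z (n 0 z (n 0 z z))) (n 0 (n 0 z (n 0 z (n 0 z z))) (n 0
 (n 0 z (n 0 z (n 0 z z))) (n 0 (n 0 z (n 0 z (n 0 z z))) (n 0 (n 0 z (n 0 z (n 0 z z))) (n 0 (n
 0 z (n 0 z (n 0 z z))) (n 0 (n 0 (n 8798731 z z) (n 0 z (n 0 z z))) (n 0 (n 0 z (n 0 z (n 0 z
 z))) (n 0 (n 0 z (n 0 z (n 0 z z))) z)))))))))))))) (n 0 (n 0 (n 0 z (n 0 z (n 0 z z))) (n 0 (n
 0 z (n 0 z (n 0 z z))) (n 0 (n 0 z (n 0 z (n 0 z z))) (n 0 (n 0 z (n 0 (n 8868635 z (n 8868635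
 z z)) (n 0 (n 8868635 z (n 8868635 z z)) z))) (n 0 (n 0 z (n 0 z (n 0 z z))) (n 0 (n 0 z (n 0 z
 (n 0 z z))) (n 0 (n 0 z (n 0 z (n 0 (n
 0xc87381f8607e08208208608608208207e082081f8208208608208208207e082085f82082181f8200041 z (n
 0xc87082086082082082085f82082082079f82181f82182186082085e82082081f86082082081f8210041 z z))
 z))) (n 0 (n 0 (n
 0xc87381f8607e08208208608608208207e082081f8208208608208208207e082085f82082181f8200041 z (n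
 0xc8708208208208208208608207e08207a08208208208208608218208208208208208208208208200041 z z)) (n
 0 (n 0xc87381f8607e08208208608608208207e082081f8208208608208208207e082085f82082181f8200041 z (n
 0xc8708208208208208208608207e08207a08208208208208608218208208208208208208208208200041 z z)) (n
 0 z z))) z)))))))) z))))))))))))))))))))) z)))) (n 0xcd5169844546cd1126cd411 (n 0 (n 0 (n
 7741507 z (n 7741507 z (n 7741507 z (n 7741507 z (n 7741507 z (n 7741507 z z)))))) z) (n 0 (n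
 179 (n 1 (n 5596 z (n 5596 z (n 1004 z (n 7538203 z (n 5596 z (n 5596 z z)))))) (n 1 (n 7406923
 z (n 7406923 z (n 7538203 z (n 7406923 z (n 7406923 z (n 7406923 z z)))))) (n 1 (n 5596 z (n
 7538203 z (n 5596 z (n 5596 z (n 5596 z (n 5596 z z)))))) (n 0 z (n 1 (n 7741507 z (n 7741507 z
 (n 7741507 z (n 7741507 z (n 7741507 z (n 7741507 z z)))))) (n 1 (n 7741507 z (n 7741507 z (n
 7741507 z (n 7741507 z (n 7741507 z (n 7741507 z z)))))) z)))))) (n 33 (n 0 z (n 0 z (n 1 (n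
 7406923 z (n 6424347 z (n 7406923 z (n 7406923 z (n 7406923 z (n 7406923 z z)))))) (n 0 z (n 1
 (n 5644 z (n 5644 z (n 2 z (n 6489899 z (n 5644 z (n 5644 z z)))))) (n 1 (n 7741507 z (n
 7741507 z (n 7741507 z (n 7741507 z (n 7741507 z (n 7741507 z z)))))) (n 1 (n 7545171 z (n
 7545171 z (n 7545171 z (n 7545171 z (n 7545171 z (n 7545171 z z)))))) z))))))) (n 29 (n 1 (n
 2204 z (n 2204 z (n 2204 z (n 7754523 z (n 10 z (n 2204 z z)))))) (n 1 (n 7741507 z (n 7741507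
 z (n 7741507 z (n 7741507 z (n 7741507 z (n 7741507 z z)))))) (n 0 z (n 1 (n 7545171 z (n
 7545171 z (n 7545171 z (n 7545171 z (n 7545171 z (n 7545171 z z)))))) z)))) (n 53 (n 1 (n 1436
 z (n 1436 z (n 1436 z (n 1436 z (n 1436 z (n 1436 z z)))))) (n 1 (n 7741507 z (n 7741507 z (n
 7741507 z (n 7741507 z (n 7741507 z (n 7741507 z z)))))) (n 0 z (n 1 (n 7545171 z (n 7545171 z
 (n 7545171 z (n 7545171 z (n 7545171 z (n 7545171 z z)))))) z)))) (n 13 (n 1 (n 1660 z (n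
 3278619 z (n 7754523 z (n
 0x11d90d90c0060471c401dcb8803b87108007d084e91075c8386f08fc7408887eb76185178f9356b272898991075b88b8008398ad7307957d48da7e56f58247e16e583d7ac8c97848c467c8757d57de76e7e27c59847d076887985808d1
 z (n 1660 z (n 1660 z z)))))) (n 1 (n 2164555 z (n 2164555 z (n 2164555 z (n 6496371 z (n
 7754523 z (n 2164555 z z)))))) (n 1 (n 1660 z (n 1660 z (n
 0xe9dd8594080600074eec2ca20070002f38ec000074e9d80003b3cbb000059387608000007ff5b0800eee803b0c7fd8808016b27fc4f48037f87fcbc8801d867fff017feffb8001177fe16d802c4f7fd4e87ff0d0801ad6803b0c7fe92580102b8000007ff2b78027087fe27a80044f7fefc080221c8005df7fe6688003547fde637fe9237ffffd7ff358801e0b7fe8fe8019557fdbbd8013dc800f6d7ff1747ff0c27ff1f67ff3d580248e7ff0347ff2b4800e698005801119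
 z (n 7754523 z (n 1660 z (n 1660 z z)))))) (n 1 (n 1660 z (n 1660 z (n 1660 z (n 1660 z (n
 6496371 z (n 7754523 z z)))))) (n 1 (n 1660 z (n
 0x6ea4ea42078047dc81e86a7aa83879d86a79683182e7d88077dc8827cb7cf83d85c7a68198007f78317d27cd7cc82b8277d97d78087ee8317d481a7d783a7ec7fe8277e17fa7e67d48347d882a8197ef0811
 z (n 1660 z (n 5443699 z (n 1660 z (n 1660 z z)))))) (n 1 (n 7545171 z (n 7545171 z (n 7545171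
 z (n 7545171 z (n 7545171 z (n 7545171 z z)))))) (n 1 (n 7545171 z (n 7545171 z (n 7545171 z (n
 7545171 z (n 7545171 z (n 7545171 z z)))))) (n 1 (n 7545171 z (n 7545171 z (n 7545171 z (n
 7545171 z (n 7545171 z (n 7545171 z z)))))) (n 1 (n 3281011 z (n 1660 z (n 1660 z (n
 0xc7508208208208208208608207e08207a08208208208208608218208208208208208208208208200041 z (n 1660
 z (n 1660 z z)))))) (n 1 (n 1660 z (n 1660 z (n 1660 z (n 7754523 z (n 1660 z (n 1660 z z))))))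
 (n 1 (n 7754523 z (n 1660 z (n 3282699 z (n 18 z (n 6489899 z (n 1660 z z)))))) (n 1 (n 7754523
 z (n 1660 z (n
 0x4ea6ea64037638617a28617de5e18de7e081c95e8a07a17a48a066675779d6686638228dd99e7e26a18a10801 z
 (n 1660 z (n 1660 z (n 6498123 z z)))))) z)))))))))))) (n 615 (n 1 (n 1852 z (n 1852 z (n
 7538203 z (n 1852 z (n 7754523 z (n 1852 z z)))))) (n 1 (n 7538203 z (n 1852 z (n 796 z (n
 7754523 z (n 1852 z (n 1852 z z)))))) (n 1 (n 3278683 z (n 3278683 z (n 7538203 z (n 3278683 z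
 (n 7754523 z (n 3278683 z z)))))) (n 0 z (n 1 (n 3278619 z (n 7754523 z (n 3278619 z (n 3278619
 z (n 3278619 z (n 3278619 z z)))))) (n 0 z (n 0 z (n 0 z z)))))))) (n 179 (n 1 (n 268 z (n 26 z
 (n 268 z (n 268 z (n 268 z (n 268 z z)))))) (n 1 (n 7406923 z (n 7406923 z (n 7406923 z (n
 7406923 z (n 7406923 z (n 7406923 z z)))))) (n 1 (n 268 z (n 268 z (n 268 z (n 268 z (n 268 z
 (n 268 z z)))))) (n 0 z (n 1 (n 7741507 z (n 7741507 z (n 7741507 z (n 7741507 z (n 7741507 z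
 (n 7741507 z z)))))) (n 1 (n 7741507 z (n 7741507 z (n 7741507 z (n 7741507 z (n 7741507 z (n
 7741507 z z)))))) z)))))) z))))))) (n 0 (n 0 (n 0 z (n 0 z (n 0 z (n 0 z z)))) (n 0 (n 0 z (n 0
 z (n 0 z z))) (n 0 (n 0 z (n 0 z z)) (n 0 (n 0 z z) z)))) (n 0 (n 705 (n 0 (n 0 z (n 0 z (n 0 z
 (n 0 z z)))) (n 0 (n 0 z (n 0 (n
 0xc87482086082082082085f8608217e07e082081f82082086082181f82082081f85f86082181f8200041 z (n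
 8587051 z z)) (n 0 z (n 0 z z)))) (n 0 (n 0 z (n 0 z (n 0 z (n 0 z z)))) (n 0 (n 0 z (n 0 z (n
 0 (n 8790083 z z) (n 0 z z)))) (n 0 (n 0 z (n 0 z (n 0 z (n 0 z z)))) (n 0 (n 0 z (n 0 z (n 0 z
 (n 0 z z)))) (n 0 (n 0 z (n 0 z (n 0 z (n 0 z z)))) (n 0 (n 0 z (n 0 z (n 0 z (n 0 z z)))) (n 0
 (n 0 z (n 0 z (n 0 z (n 0 z z)))) (n 0 (n 0 z (n 0 z (n 0 (n 7747675 z z) (n 0 z z)))) (n 0 (n
 0 z (n 0 z (n 0 z (n 0 z z)))) (n 0 (n 0 z (n 0 z (n 0 (n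
 0xc87581f8607e08208208608608208207e082081f8208208608208208207e082085f82082181f8200041 z (n
 0xc8758208208208208208608207e08207a08208208208208608218208208208208208208208208200041 z z)) (n
 0 z z)))) (n 0 (n 0 z (n 0 z (n 0 z (n 0 (n
 0xc87281f8607e08208208608207e08207a082089f86086082082081f8608218208a18208217df8200041 z (n
 0x130c70864077b6f8f8f688674986990ae98597b774ba69483a19681578a7e977ea2845a9b8c8f5eac64b5546791599759a5679281517a840809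
 z z)) z)))) z))))))))))))) (n 275 (n 0 (n 0 z (n 0 z (n 0 (n 7747675 z z) (n 0 z z)))) (n 0 (n
 0 z (n 0 z (n 0 z (n 0 z z)))) (n 0 (n 0 z (n 0 z (n 0 z (n 0 z z)))) (n 0 (n 0 z (n 0 z (n 0 z
 (n 0 z z)))) (n 0 (n 0 z (n 0 z (n 0 z (n 0 z z)))) (n 0 (n 0 z (n 0 z (n 0 z (n 0 z z)))) (n 0
 (n 0 z (n 0 z (n 0 (n 8853051 z z) (n 0 z z)))) z))))))) (n 251 (n 0 (n 0 z (n 0 z (n 0 (n
 7747675 z z) (n 0 z z)))) (n 0 (n 0 z (n 0 z (n 0 z (n 0 z z)))) (n 0 (n 0 z (n 0 z (n 0 z (n 0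
 z z)))) (n 0 (n 0 z (n 0 z (n 0 z (n 0 z z)))) (n 0 (n 0 z (n 0 z (n 0 z (n 0 z z)))) (n 0 (n 0
 z (n 0 z (n 0 z (n 0 z z)))) (n 0 (n 0 (n
 0xc87481f8607e08208208608608208207e082081f8208208608208208207e082085f82082181f8200041 z (n
 0x30e90a86078608218607e08207e18617e17e17e082081f81f86085f85f86081f7e085f85f8207e185f7e00801 z
 z)) (n 0 (n 8795995 z (n
 0x30e90a860785f82185f7e07e27e18617a07a182082081f81f86085e85f8a086082082085f81f7e181f8210801 z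
 z)) (n 0 (n
 0xc87081f8607e08208208608608208207e082081f8208208608208208207e082085f82082181f8200041 z (n
 0x2c8707f758ba462935ea65b9275639b6c9e6e6f929c638c7e8698727a76957172726f688a69aa62a36886956d7971769e6d8a8f800049
 z z)) (n 0 z z)))) z))))))) (n 179 (n 0 (n 0 z (n 0 z (n 0 z (n 0 z z)))) (n 0 (n 0 z (n 0 z (n
 0 (n 0xc87182086082082082085f8608217e07e082081f82082086082181f82082081f85f86082181f8200041 z (n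
 0x1487182086082081f82085f86081f7e179f82181f8217e186082185f8217e081f85f81f7e181f8210041 z z)) (n
 0 z z)))) (n 0 (n 0 (n
 0xc87482086082082082085f8608217e07e082081f82082086082181f82082081f85f86082181f8200041 z z) (n 0
 z (n 0 z (n 0 (n
 0xc87482086082082082085f8608217e07e082081f82082086082181f82082081f85f86082181f8200041 z z)
 z)))) (n 0 (n 0 z (n 0 z (n 0 z (n 0 z z)))) (n 0 (n 0 z (n 0 z (n 0 z (n 0 (n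
 0xc87281f8607e08208208608207e08207a082089f86086082082081f8608218208a18208217df8200041 z (n
 0x1f0a6a824078007dd81e8747a484679387278c82e8307d080f7d88837b67d284b86d7b28128107ee84e7c27e27c48498227d17d07f87e48347ca8287ce8497d880482a7d97e87ed7d884c7d782182c7f00811
 z z)) z)))) (n 0 (n 0 (n
 0xc87281f8607e08208208608608208207e082081f8208208608208208207e082085f82082181f8200041 z (n
 8587051 z z)) (n 0 z (n 0 (n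
 0x1487182086082081f82085f86081f7e179f82181f8217e186082185f8217e081f85f81f7e181f8210041 z (n
 8783659 z z)) (n 0 (n
 0xc87281f8607e08208208608608208207e082081f8208208608208208207e082085f82082181f8200041 z (n
 8587051 z z)) z)))) (n 0 (n 0 z (n 0 z (n 0 z (n 0 z z)))) (n 0 (n 0 (n 8790083 z z) (n 0 z (n
 0 z (n 0 z z)))) (n 0 (n 0 (n 8790083 z (n 8790083 z z)) (n 0 z (n 0 z (n 0 z z)))) (n 0 (n 0 z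
 (n 0 z (n 0 z (n 0 z z)))) (n 0 (n 0 z (n 0 z (n 0 z (n 0 z z)))) (n 0 (n 0 z (n 0 z (n 0 (n
 8864355 z (n 8864355 z z)) (n 0 z z)))) (n 0 (n 0 (n 8795995 z z) (n 0 z (n 0 z (n 0 z z)))) (n
 0 (n 0 z (n 0 z (n 0 z (n 0 z z)))) (n 0 (n 0 z (n 0 z (n 0 z (n 0 (n 8455499 z (n 8587051 z
 z)) z)))) (n 0 (n 0 (n 8455499 z (n 8587051 z z)) (n 0 (n 8455499 z (n 8455499 z z)) (n 0 z (n
 0 (n 8455499 z (n 8455499 z z)) z)))) (n 0 (n 0 (n 8455499 z (n 8455499 z z)) (n 0 z (n 0 z (n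
 0 (n 8455499 z (n 8455499 z z)) z)))) z))))))))))))))))) (n 59 (n 0 (n 0 z (n 0 z (n 0 z (n 0 z
 z)))) (n 0 (n 0 z (n 0 z (n 0 z (n 0 z z)))) (n 0 (n 0 (n 8864267 z (n 8864267 z z)) (n 0 z (n
 0 z (n 0 (n 8864267 z (n 8864267 z z)) z)))) (n 0 (n 0 z (n 0 z (n 0 z (n 0 z z)))) (n 0 (n 0 z
 (n 0 z (n 0 z (n 0 z z)))) (n 0 (n 0 z (n 0 z (n 0 z (n 0 z z)))) (n 0 (n 0 (n 8455499 z (n
 8587051 z z)) (n 0 z (n 0 z (n 0 z z)))) (n 0 (n 0 z (n 0 z (n 0 z (n 0 (n 8455499 z (n 8455499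
 z z)) z)))) z)))))))) (n 53 (n 0 (n 0 z (n 0 z (n 0 z (n 0 z z)))) (n 0 (n 0 z (n 0 z (n 0 z (n
 0 z z)))) (n 0 (n 0 z (n 0 (n
 0xc87482086082082082085f8608217e07e082081f82082086082181f82082081f85f86082181f8200041 z (n
 0x190a90802038d7281b56d8f4ca4549a9fa3636a757d9a899b885e8164a4729e6a96906a776999888a696a889376a2776c7181a47d77788c0809
 z z)) (n 0 z (n 0 z z)))) (n 0 (n 0 z (n 0 z (n 0 z (n 0 z z)))) z)))) (n 207 (n 0 (n 0 z (n 0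
 z (n 0 z (n 0 z z)))) (n 0 (n 0 z (n 0 z (n 0 z (n 0 z z)))) (n 0 (n 0 z (n 0 z (n 0 z (n 0 z
 z)))) (n 0 (n 0 z (n 0 z (n 0 (n
 0xc87281f8607e08208208608608208207e082081f8208208608208208207e082085f82082181f8200041 z (n
 8783659 z z)) (n 0 z z)))) (n 0 (n 0 z (n 0 z (n 0 z (n 0 z z)))) (n 0 (n 0 z (n 0 z (n 0 z (n
 0 z z)))) (n 0 (n 0 z (n 0 z (n 0 (n 8853051 z z) (n 0 z z)))) (n 0 (n 0 z (n 0 z (n 0 (n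
 8853051 z (n 8853051 z z)) (n 0 z z)))) (n 0 (n 0 z (n 0 z (n 0 z (n 0 z z)))) (n 0 (n 0 z (n 0
 z (n 0 (n 8783659 z (n 5445755 z z)) (n 0 z z)))) (n 0 (n 0 (n 8795995 z z) (n 0 (n 8795995 z
 z) (n 0 z (n 0 z z)))) (n 0 (n 0 z (n 0 z (n 0 z (n 0 (n
 0xc8718208208208208208608207e08207a08208208208208608218208208208208208208208208200041 z z)
 z)))) (n 0 (n 0 z (n 0 z (n 0 z (n 0 (n
 0xc8718208208208208208608207e08207a08208208208208608218208208208208208208208208200041 z z)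
 z)))) z))))))))))))) (n 497 (n 0 (n 0 z (n 0 z (n 0 (n 8593747 z z) (n 0 z z)))) (n 0 (n 0 z (n
 0 z (n 0 (n 8864267 z (n 8864267 z z)) (n 0 z z)))) (n 0 (n 0 (n
 0x348757f738ead5a9855af5196725ca168a66a6a96a45b8e7e889e6f79739a6d6f6e6a628d63b55bac62879a69786d74a6678c96800049
 z (n 0x3c87281792856862b524de9464c0f779a207a056871c5ecd126edb6d9c889aa977244e763b7df79f0041 z
 z)) (n 0 (n
 0x90eb0ea6037b798cac5f9b55af4e9474748b649c547999b66a818276b4658079a171617767669365a157a069898e646c778aae776e928d0809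
 z (n
 0x10eb0ea6037a185f8208608208208208208208608208207e08608208208207e082082081f8618208208200801 z
 z)) (n 0 (n 8783659 z (n
 0xc87281f8607e08208208608608208207e082081f8208208608208208207e082085f82082181f8200041 z z)) (n
 0 z z)))) (n 0 (n 0 z (n 0 z (n 0 z (n 0 z z)))) (n 0 (n 0 z (n 0 z (n 0 z (n 0 z z)))) (n 0 (n
 0 z (n 0 z (n 0 z (n 0 z z)))) (n 0 (n 0 z (n 0 z (n 0 z (n 0 z z)))) (n 0 (n 0 z (n 0 z (n 0 z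
 (n 0 z z)))) (n 0 (n 0 z (n 0 z (n 0 z (n 0 z z)))) (n 0 (n 0 z (n 0 z (n 0 z (n 0 z z)))) (n 0
 (n 0 z (n 0 z (n 0 z (n 0 z z)))) (n 0 (n 0 z (n 0 z (n 0 z (n 0 z z)))) (n 0 (n 0 z (n 0 (n
 8795995 z z) (n 0 z (n 0 z z)))) (n 0 (n 0 z (n 0 z (n 0 z (n 0 z z)))) (n 0 (n 0 z (n 0 z (n 0
 (n
 0x248707f78899d688f649e628f776995709972728e9769897f8593757c7890747574726c886ea1689c6d8591717b74799970888d800049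
 z z) (n 0 z z)))) (n 0 (n 0 z (n 0 z (n 0 z (n 0 z z)))) (n 0 (n 0 z (n 0 z (n 0 z (n 0 z z))))
 (n 0 (n 0 z (n 0 z (n 0 (n
 0x348727f738ead5a9855af5196725ca168a66a6a96a45b8e7e889e6f79739a6d6f6e6a628d63b55bac62879a69786d74a6678c96800049
 z (n 0xc8628208208208208208608207e08207a08208208208208608218208208208208208208208208200041 z
 z)) (n 0 z z)))) (n 0 (n 0 z (n 0 z (n 0 z (n 0 z z)))) (n 0 (n 0 (n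
 0xc87281f8607e08208208608207e08207a082089f86086082082081f8608218208a18208217df8200041 z (n
 0x8c8307f77878476837e8878828d74838595896fa7846d6a7e87927f7c6f8b8d7b639984a76c7663938f68917a767580b57e9385830049
 z z)) (n 0 (n
 0x8c8307f77878476837e8878828d74838595896fa7846d6a7e87927f7c6f8b8d7b639984a76c7663938f68917a767580b57e9385830049
 z (n
 0x5c8307f7a84827a837f857b81887882838e8676998273727e838c807d7588897d6d908299737a6e8c89718b7c797980a27f8c83810049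
 z z)) (n 0 (n 8864355 z (n 8864355 z z)) (n 0 z z)))) z)))))))))))))))))))) (n 75 (n 0 (n 0 z
 (n 0 z (n 0 z (n 0 z z)))) (n 0 (n 0 z (n 0 z (n 0 z (n 0 z z)))) (n 0 (n 0 z (n 0 z (n 0 z (n
 0 z z)))) (n 0 (n 0 z (n 0 z (n 0 z (n 0 z z)))) (n 0 (n 0 z (n 0 z (n 0 z (n 0 z z)))) (n 0 (n
 0 z (n 0 z (n 0 z (n 0 z z)))) (n 0 (n 0 z (n 0 z (n 0 z (n 0 z z)))) (n 0 (n 0 z (n 0 z (n 0 z
 (n 0 z z)))) (n 0 (n 0 z (n 0 z (n 0 (n 8593747 z z) (n 0 z z)))) (n 0 (n 0 z (n 0 z (n 0 z (n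
 0 z z)))) (n 0 (n 0 z (n 0 z (n 0 z (n 0 z z)))) (n 0 (n 0 z (n 0 z (n 0 z (n 0 (n
 0x110a4ea260780669be734b31ce81ab2a0588a51dc3768bee44ba08063be4e7655c79842665f67886ca775a9528f96695a714cc65d899b7e0809
 z z) z)))) (n 0 (n 0 z (n 0 z (n 0 (n 8864355 z (n 8864355 z z)) (n 0 z z)))) (n 0 (n 0 z (n 0
 z (n 0 (n 8525579 z (n 5445755 z z)) (n 0 z z)))) (n 0 (n 0 (n 8795995 z z) (n 0 (n 8795995 z
 z) (n 0 z (n 0 z z)))) z))))))))))))))) (n 13 (n 0 (n 0 z (n 0 z (n 0 z (n 0 z z)))) (n 0 (n 0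
 z (n 0 z (n 0 z (n 0 z z)))) (n 0 (n 0 z (n 0 z (n 0 z (n 0 z z)))) (n 0 (n 0 z (n 0 z (n 0 z
 (n 0 z z)))) (n 0 (n 0 z (n 0 z (n 0 z (n 0 z z)))) (n 0 (n 0 z (n 0 z (n 0 z (n 0 z z)))) (n 0
 (n 0 z (n 0 z (n 0 z (n 0 z z)))) (n 0 (n 0 z (n 0 z (n 0 z (n 0 z z)))) (n 0 (n 0 z (n 0 z (n
 0 (n 8864267 z (n 8864267 z z)) (n 0 z z)))) (n 0 (n 0 z (n 0 (n 8795995 z z) (n 0 z (n 0 z
 z)))) (n 0 (n 0 z (n 0 (n 8795995 z z) (n 0 z (n 0 z z)))) (n 0 (n 0 z (n 0 z (n 0 z (n 0 (n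
 0x2c8707f758ba462935ea65b9275639a6d9e6e6e919d638c7f8698727a76957273726e688a69aa62a46886946d7971769e6c8a91800049
 z z) z)))) z)))))))))))) (n 231 (n 0 (n 0 z (n 0 z (n 0 z (n 0 z z)))) (n 0 (n 0 z (n 0 z (n 0
 z (n 0 z z)))) (n 0 (n 0 z (n 0 z (n 0 z (n 0 z z)))) (n 0 (n 0 z (n 0 z (n 0 z (n 0 z z)))) (n
 0 (n 0 z (n 0 z (n 0 z (n 0 z z)))) (n 0 (n 0 z (n 0 z (n 0 z (n 0 z z)))) (n 0 (n 0 z (n 0 z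
 (n 0 z (n 0 z z)))) (n 0 (n 0 z (n 0 z (n 0 (n 8790083 z z) (n 0 z z)))) (n 0 (n 0 z (n 0 z (n
 0 z (n 0 z z)))) (n 0 (n 0 z (n 0 z (n 0 z (n 0 z z)))) (n 0 (n 0 z (n 0 z (n 0 z (n 0 z z))))
 (n 0 (n 0 z (n 0 z (n 0 z (n 0 z z)))) (n 0 (n 0 z (n 0 z (n 0 z (n 0 z z)))) (n 0 (n 0 z (n 0
 z (n 0 z (n 0 z z)))) (n 0 (n 0 (n
 0xc8748208208208208208608207e08207a08208208208208608218208208208208208208208208200041 z (n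
 0x1f487280897e3aad54c83dc25c5556b58632838e4939907b80ae70a16fd9663f66cb8e677b96b1997f4592595b30879876881894ac0049
 z z)) (n 0 (n 8587051 z (n
 0xc8748208208208208208608207e08207a08208208208208608218208208208208208208208208200041 z z)) (n
 0 z (n 0 (n
 0xc87482082082081f8208608608207e17e082081f8217e186082181f8207e081f86085f8218607e10041 z (n
 7750531 z z)) z)))) (n 0 (n 0 z (n 0 z (n 0 (n 8803099 z (n 8803099 z z)) (n 0 z z)))) (n 0 (n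
 0 z (n 0 z (n 0 z (n 0 (n
 0xc8718208208208208208608207e08207a08208208208208608218208208208208208208208208200041 z z)
 z)))) (n 0 (n 0 z (n 0 z (n 0 z (n 0 z z)))) z)))))))))))))))))) (n 615 (n 0 (n 0 z (n 0 z (n 0
 z (n 0 z z)))) (n 0 (n 0 z (n 0 z (n 0 z (n 0 z z)))) (n 0 (n 0 z (n 0 z (n 0 z (n 0 z z)))) (n
 0 (n 0 z (n 0 z (n 0 z (n 0 z z)))) (n 0 (n 0 z (n 0 z (n 0 z (n 0 z z)))) (n 0 (n 0 z (n 0 z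
 (n 0 z (n 0 z z)))) (n 0 (n 0 (n
 0xc8608208208208208208608207e08207a08208208208208608218208208208208208208208208200041 z (n
 0xc8608208208208208208608207e08207a08208208208208608218208208208208208208208208200041 z z)) (n
 0 (n 8587051 z (n
 0xc8608208208208208208608207e08207a08208208208208608218208208208208208208208208200041 z z)) (n
 0 z (n 0 (n
 0x148748208607e08208208608618208217a082181f8217e086082089f86082081f86082082181f8200041 z (n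
 7750531 z z)) z)))) (n 0 (n 0 z (n 0 z (n 0 z (n 0 z z)))) z)))))))) (n 99 (n 0 (n 0 z (n 0 z
 (n 0 z (n 0 z z)))) (n 0 (n 0 z (n 0 z (n 0 z (n 0 z z)))) (n 0 (n 0 z (n 0 z (n 0 (n
 0x2c8707f768ba462935da65b9275639a6d9e6e6e929d638b7e8698737a76957173726f688a6aab62a36885946d7a70769e6c8a92800049
 z z) (n 0 z z)))) (n 0 (n 0 z (n 0 z (n 0 z (n 0 z z)))) (n 0 (n 0 z (n 0 z (n 0 z (n 0 z z))))
 (n 0 (n 0 z (n 0 z (n 0 z (n 0 z z)))) (n 0 (n 0 z (n 0 z (n 0 z (n 0 z z)))) (n 0 (n 0 z (n 0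
 z (n 0 z (n 0 z z)))) (n 0 (n 0 z (n 0 z (n 0 z (n 0 z z)))) (n 0 (n 0 z (n 0 z (n 0 z (n 0 z
 z)))) (n 0 (n 0 z (n 0 z (n 0 (n
 0xc87182086082082082085f8608217e07e082081f82082086082181f82082081f85f86082181f8200041 z z) (n 0
 z z)))) (n 0 (n 0 z (n 0 z (n 0 z (n 0 z z)))) (n 0 (n 0 z (n 0 z (n 0 z (n 0 z z)))) (n 0 (n 0
 z (n 0 z (n 0 (n 8864355 z (n 8864355 z z)) (n 0 z z)))) z)))))))))))))) (n 19 (n 0 (n 0 z (n 0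
 z (n 0 z (n 0 z z)))) (n 0 (n 0 z (n 0 z (n 0 z (n 0 z z)))) (n 0 (n 0 z (n 0 z (n 0 z (n 0 z
 z)))) (n 0 (n 0 z (n 0 z (n 0 z (n 0 z z)))) (n 0 (n 0 z (n 0 (n
 0xc87081f8607e08208208608207e08207a082089f86086082082081f8608218208a18208217df8200041 z z) (n 0
 z (n 0 z z)))) (n 0 (n 0 z (n 0 z (n 0 z (n 0 z z)))) (n 0 (n 0 z (n 0 z (n 0 (n
 0x30c90c84037a47dc91e91c91e5de9216977e2724a6095c89f9a35d999f6168eaa9c4a95e26e68228158e40801 z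
 (n 0xc87182082082081f82086086081f7e07e082181f82082186082081f8217e082086082082081e8210041 z z))
 (n 0 z z)))) (n 0 (n 0 z (n 0 z (n 0 z (n 0 z z)))) z)))))))) (n 18 (n 0 (n 0 z (n 0 z (n 0 z
 (n 0 (n 8587051 z z) z)))) (n 0 (n 0 z (n 0 z (n 0 z (n 0 z z)))) (n 0 (n 0 z (n 0 z (n 0 z (n
 0 z z)))) (n 0 (n 0 z (n 0 z (n 0 z (n 0 z z)))) (n 0 (n 0 z (n 0 z (n 0 (n
 0x348707f738ead5a9855af5196725ca168a66a6a96a45b8e7e889e6f79739a6d6f6e6a628d63b55bac62879a69786d74a6678c96800049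
 z z) (n 0 z z)))) (n 0 (n 0 z (n 0 z (n 0 z (n 0 z z)))) (n 0 (n 0 z (n 0 z (n 0 (n 8864267 z
 z) (n 0 z z)))) (n 0 (n 0 z (n 0 z (n 0 z (n 0 z z)))) (n 0 (n 0 z (n 0 z (n 0 z (n 0 z z))))
 (n 0 (n 0 z (n 0 z (n 0 z (n 0 z z)))) (n 0 (n 0 z (n 0 z (n 0 z (n 0 z z)))) (n 0 (n 0 z (n 0
 z (n 0 z (n 0 z z)))) (n 0 (n 0 z (n 0 (n
 0x30ed0e260789e8627e082082085f85f82081f7e082181f8218208208228208208207e081f8208207e08200801 z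
 z) (n 0 z (n 0 z z)))) (n 0 (n 0 z (n 0 z (n 0 z (n 0 z z)))) z)))))))))))))) (n 179 (n 0 (n 0
 z (n 0 z (n 0 z (n 0 z z)))) (n 0 (n 0 z (n 0 z (n 0 z (n 0 z z)))) (n 0 (n 0 z (n 0 z (n 0 z
 (n 0 z z)))) (n 0 (n 0 z (n 0 z (n 0 z (n 0 z z)))) (n 0 (n 0 z (n 0 z (n 0 z (n 0 z z)))) (n 0
 (n 0 z (n 0 z (n 0 z (n 0 z z)))) z)))))) (n 33 (n 0 (n 0 (n 8868403 z z) (n 0 z (n 0 z (n 0 (n
 8868403 z z) z)))) (n 0 (n 0 (n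
 0xc87281f8607e08208208608207e08207a082089f86086082082081f8608218208a18208217df8200041 z (n
 0x8c8747f77878476837e8878828d74838595896fa7846d6a7e87927f7c6f8b8d7b639984a76c7663938f68917a767580b57e9385830049
 z z)) (n 0 z (n 0 z (n 0 (n
 0xc87281f8607e08208208608207e08207a082089f86086082082081f8608218208a18208217df8200041 z (n
 0x8c8747f77878476837e8878828d74838595896fa7846d6a7e87927f7c6f8b8d7b639984a76c7663938f68917a767580b57e9385830049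
 z z)) z)))) (n 0 (n 0 z (n 0 z (n 0 z (n 0 z z)))) (n 0 (n 0 z (n 0 z (n 0 z (n 0 z z)))) (n 0
 (n 0 z (n 0 z (n 0 z (n 0 z z)))) (n 0 (n 0 z (n 0 z (n 0 z (n 0 z z)))) (n 0 (n 0 z (n 0 z (n
 0 z (n 0 z z)))) z))))))) (n 131 (n 0 (n 0 z (n 0 z (n 0 (n
 0xc87081f8607e08208208608608208207e082081f8208208608208208207e082085f82082181f8200041 z z) (n 0
 z z)))) (n 0 (n 0 z (n 0 z (n 0 z (n 0 z z)))) (n 0 (n 0 z (n 0 z (n 0 (n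
 0x348707f738ead5a9855af5196725ca168a66a6a96a45b8e7e889e6f79739a6d6f6e6a628d63b55bac62879a69786d74a6678c96800049
 z z) (n 0 z z)))) (n 0 (n 0 z (n 0 z (n 0 z (n 0 z z)))) (n 0 (n 0 z (n 0 z (n 0 z (n 0 z z))))
 (n 0 (n 0 z (n 0 z (n 0 z (n 0 z z)))) (n 0 (n 0 (n 8803099 z (n 8803099 z z)) (n 0 z (n 0 z (n
 0 (n 8803099 z (n 8803099 z z)) z)))) (n 0 (n 0 z (n 0 z (n 0 z (n 0 z z)))) (n 0 (n 0 z (n 0 z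
 (n 0 z (n 0 z z)))) (n 0 (n 0 z (n 0 z (n 0 z (n 0 z z)))) z)))))))))) (n 3 (n 0 (n 0 z (n 0 z
 (n 0 (n 8864267 z z) (n 0 z z)))) (n 0 (n 0 z (n 0 z (n 0 z (n 0 z z)))) (n 0 (n 0 z (n 0 z (n
 0 (n 8864267 z z) (n 0 z z)))) (n 0 (n 0 (n 8864267 z z) (n 0 z (n 0 z (n 0 (n 8864267 z z)
 z)))) (n 0 (n 0 z (n 0 z (n 0 z (n 0 z z)))) (n 0 (n 0 z (n 0 z (n 0 z (n 0 z z)))) (n 0 (n 0 z
 (n 0 z (n 0 z (n 0 z z)))) z))))))) (n 1 (n 0 (n 0 z (n 0 z (n 0 z (n 0 z z)))) (n 0 (n 0 z (n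
 0 z (n 0 z (n 0 z z)))) (n 0 (n 0 z (n 0 z (n 0 z (n 0 z z)))) (n 0 (n 0 z (n 0 z (n 0 z (n 0 z
 z)))) (n 0 (n 0 z (n 0 z (n 0 z (n 0 z z)))) (n 0 (n 0 z (n 0 z (n 0 z (n 0 z z)))) (n 0 (n 0 z
 (n 0 z (n 0 z (n 0 z z)))) (n 0 (n 0 z (n 0 z (n 0 z (n 0 z z)))) (n 0 (n 0 z (n 0 z (n 0 z (n
 0 z z)))) (n 0 (n 0 z (n 0 z (n 0 (n 8525579 z (n
 0xc87182082082081f8208608208208208207e082082182085f8208208608208208208207e17df8200041 z z)) (n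
 0 z z)))) (n 0 (n 0 z (n 0 z (n 0 (n 8864267 z (n 8864267 z z)) (n 0 z z)))) (n 0 (n 0 z (n 0
 (n 8795995 z z) (n 0 z (n 0 z z)))) (n 0 (n 0 z (n 0 z (n 0 (n
 0x10a70a64037e185f82086085f82081f81f8208608208217e08608208208207e082082081f8618208208200801 z
 (n 7538779 z z)) (n 0 z z)))) (n 0 (n 0 z (n 0 z (n 0 z (n 0 z z)))) z)))))))))))))) (n 0 (n 0
 (n 0 z (n 0 z (n 0 z (n 0 z z)))) (n 0 (n 0 z (n 0 z (n 0 z (n 0 z z)))) (n 0 (n 0 z (n 0 z (n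
 0 z (n 0 z z)))) (n 0 (n 0 (n 8803099 z (n 8803099 z z)) (n 0 z (n 0 (n 8803099 z (n 8803099 z
 z)) (n 0 (n 8803099 z (n 8803099 z z)) z)))) (n 0 (n 0 z (n 0 z (n 0 z (n 0 z z)))) (n 0 (n 0 z
 (n 0 z (n 0 z (n 0 z z)))) (n 0 (n 0 z (n 0 z (n 0 z (n 0 (n
 0xc87482086082082082085f8608217e07e082081f82082086082181f82082081f85f86082181f8200041 z (n
 0xc87281f8607e08208208608207e08207a082089f86086082082081f8608218208a18208217df8200041 z z))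
 z)))) (n 0 (n 0 (n 7538763 z (n
 0xc87281f8607e08208208608207e08207a082089f86086082082081f8608218208a18208217df8200041 z z)) (n
 0 (n 7538763 z (n
 0x10e90e260779f8e07a08a08208de85f86085f7e08218208218608218227e07e08207e08608617e07e08200801 z
 z)) (n 0 z (n 0 z z)))) z)))))))) z))))))))))))))))))))) z)))) z)) z)))) (n
 0x2184d0de8e831b3585118846cc41e8e32144d31a36886cb4d88d23032918c129bc19 (n 0 (n 591 (n 0 z (n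
 3282443 z (n 0 z (n 0 z z)))) (n 579 (n 0 z (n 6496595 z (n 2 z (n 0 z (n 10 z (n 0 z (n 0 z (n
 0 z z)))))))) (n 129 (n 0 z (n 18 z (n 0 z (n 26 z (n 0 z (n 0 z (n 0 z (n 0 z (n 0 z (n
 6636083 z z)))))))))) (n 3 (n 0 z (n 34 z (n 42 z (n 50 z (n 0 z (n 0 z (n 6496595 z z)))))))
 (n 1 (n
 0xcca6a604038217f87f08178287e67f77e78277f47d58178057fa7fb8067fc7ff81c8407d67b480482a7fd8827af83a7fd7a286278880a7c287b8057e28167e37f781c8587de7ba85d80b80979583880d0811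
 z (n 6636083 z (n 58 z (n 66 z (n 74 z (n 6636083 z (n
 0x1eca6ca640781b7e480280c8007f07fc7f580b8067fa8147fc80b7df81d7fe8038098437fb8007e68017f280b7fb7f77fe7fd8087e27dc7ec8078168228017db80c80983e8017ff7d87f47f08218037f50811
 z (n
 0x12ca6ca24037ec80a7f97ed8027f680b7f080b80781a80b7f38087fc8037f78158118157ff8157e58007f87dc8017fb8198157dd8017f58067ec8078147f580080a81681c8038127ad8107f383b7de7fb0811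
 z (n 0 z z))))))))) (n 0 (n 82 z (n 6636083 z (n 6636083 z (n 0 z (n 0 z (n 0 z (n 90 z (n 0 z
 (n 98 z (n
 0x4c86c864038017ff7ff8008007ff7ff8017ff8008008008007ff8008018017ff8008018008008018008008008018008018008008008008008008008008018008008008008008008008027ff8008008000811
 z (n 0 z (n
 0x2c86c864038017ff8008018007ff7ff8008008008007ff8007ff8018008017ff8008008008018008008008008008008008008008008008008008008008018008007ff8018008017ff8018007ff7ff8010811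
 z (n 0 z (n
 0x4c86c864037fb7fc7ff8018018027fe8027f98038088027fe7f27f57f780c7fd8027fb8038057ff7fe7fe80280b8047f67fe8058088038037fb7fe7ff8038097fe7fc7f27fd80280d8017fe7ef8038030811
 z (n 0 z (n 0 z z)))))))))))))))) z)))))) (n 591 (n 0 (n 0 z (n 1407 (n 0 z (n 0 z (n 2 (n 0 z
 (n 1 z (n 1 z (n 2 (n 0 z (n 0 z (n 0 z (n 0 z (n 0 (n 5620 z z) (n 0 z z)))))) (n 1 z (n 1 z
 (n 2 (n 0 z (n 0 z (n 0 z (n 0 z (n 0 (n 1748 z z) (n 0 z z)))))) (n 1 z (n 1 z (n 2 (n 0 z (n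
 0 z (n 0 z (n 0 z (n 0 z (n 0 z z)))))) z)))))))))) (n 0 z (n 0 z (n 0 z (n 0 z (n 0 z
 z)))))))) (n 1407 (n 0 z (n 0 z (n 0 z (n 0 z (n 0 z (n 0 z (n 0 z (n 0 z z)))))))) (n 1405 (n
 0 z (n 0 z (n 0 z (n 2 (n 0 z (n 0 z (n 1 z (n 1 z (n 1 z (n 1 z (n 1 z (n 2 (n 0 z (n 0 z (n 0
 z (n 0 z (n 0 (n 292 z z) (n 0 z z)))))) z)))))))) (n 0 z (n 0 z (n 0 z (n 0 z (n 0 z (n 0 z (n
 0 z (n 0 z (n 0 z z))))))))))))) (n 1405 (n 0 z (n 0 z (n 0 z (n 0 z (n 0 z (n 0 z (n 0 z (n 0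
 z (n 0 z (n 0 z (n 0 z (n 0 z (n 0 z z))))))))))))) (n 1405 (n 0 z (n 0 z (n 0 z (n 0 z (n 0 z
 (n 0 z (n 0 z (n 0 z (n 0 z (n 0 z (n 0 z (n 0 z (n 0 z z))))))))))))) (n 437 (n 0 z (n 0 z (n
 0 z (n 0 z (n 0 z (n 0 z (n 0 z (n 0 z (n 0 z (n 0 z (n 0 z (n 0 z (n 0 z (n 0 z (n 0 z (n 0 z
 (n 0 z z))))))))))))))))) (n 437 (n 0 z (n 0 z (n 0 z (n 0 z (n 0 z (n 2 (n 0 z (n 1 z (n 1 z
 (n 2 (n 0 z (n 0 z (n 0 z (n 0 z (n 0 z (n 0 z z)))))) z)))) (n 0 z (n 0 z (n 0 z (n 0 z (n 0 z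
 (n 0 z (n 0 z (n 0 z (n 0 z (n 0 z (n 0 z z))))))))))))))))) (n 437 (n 0 z (n 0 z (n 0 z (n 0 z
 (n 0 z (n 0 z (n 0 z (n 0 z (n 0 z (n 0 z (n 0 z (n 7616011 z (n 0 z (n 0 z (n 0 z (n 0 z (n 0
 z z))))))))))))))))) (n 73 (n 0 z (n 0 z (n 0 z (n 2 (n 0 z (n 0 z z)) (n 0 z (n 0 z (n 0 z
 z))))))) (n 73 (n 0 z (n 0 z (n 0 z (n 0 z (n 0 z (n 0 z (n 0 z z))))))) (n 73 (n 2 z (n 0 z (n
 0 z (n 0 z (n 0 z (n 0 z (n 0 z z))))))) z)))))))))))) (n 0 (n 1047 (n 0 z (n 0 z (n 0 z (n 0 z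
 (n 0 z (n 0 z z)))))) (n 1047 (n 0 z (n 2 (n 1 z (n 1 z (n 2 (n 0 z (n 0 z (n 0 z (n 0 z (n 0 z
 (n 0 z z)))))) (n 1 z (n 1 z (n 2 (n 0 z (n 0 z (n 0 z (n 0 z (n 0 z (n 0 z z)))))) (n 1 z (n 1
 z (n 2 (n 0 z (n 0 z (n 0 z (n 0 z (n 0 z (n 0 z z)))))) z))))))))) (n 0 z (n 0 z (n 0 z (n 0 z
 z)))))) (n 1045 (n 0 z (n 0 z (n 0 z (n 0 z (n 0 z (n 0 z (n 0 z (n 0 z (n 0 z (n 0 z (n 0 z
 z))))))))))) (n 1045 (n 0 z (n 0 z (n 0 z (n 0 z (n 0 z (n 0 z (n 2 (n 0 z (n 2 (n 0 z (n 0 z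
 (n 0 z (n 0 z (n 0 (n 8864515 z z) (n 0 z z)))))) (n 2 (n 0 z (n 0 z (n 0 z (n 0 z (n 0 z (n 0
 z z)))))) (n 2 (n 0 z (n 0 z (n 0 z (n 0 z (n 0 z (n 0 z z)))))) (n 2 (n 0 z (n 0 z (n 0 z (n 0
 z (n 0 z (n 0 z z)))))) (n 1 z (n 2 (n 0 z (n 0 z (n 0 z (n 0 z (n 0 z (n 0 z z)))))) z)))))))
 (n 0 z (n 0 z (n 0 z (n 0 z z))))))))))) (n 1045 (n 0 z (n 2 (n 2 (n 0 z (n 0 z (n 0 z (n 0 z
 (n 0 z (n 0 z z)))))) (n 2 (n 0 z (n 0 z (n 0 z (n 0 z (n 0 z (n 0 z z)))))) (n 2 (n 0 z (n 0 z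
 (n 0 z (n 0 z (n 0 z (n 0 z z)))))) (n 2 (n 0 z (n 0 z (n 0 z (n 0 z (n 0 z (n 0 z z)))))) (n 2
 (n 0 z (n 0 z (n 0 z (n 0 z (n 0 z (n 0 z z)))))) (n 1 z z)))))) (n 0 z (n 0 z (n 0 z (n 0 z (n
 0 z (n 0 z (n 0 z (n 0 z (n 0 z z))))))))))) (n 3 (n 0 z (n 0 z (n 0 z (n 0 z (n 2 (n 0 z (n 0
 z (n 2 (n 0 z (n 0 z (n 0 z (n 0 z (n 0 z (n 0 z z)))))) (n 1 z (n 2 (n 0 z (n 0 z (n 0 z (n 0
 z (n 0 z (n 0 z z)))))) z))))) (n 0 z (n 0 z (n 0 z (n 0 z (n 0 z (n 0 z (n 0 z z))))))))))))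
 (n 3 (n 0 z (n 0 z (n 0 z (n 0 z (n 0 z (n 0 z (n 0 z (n 0 z (n 0 z (n 0 z (n 0 z (n 0 z
 z)))))))))))) (n 3 (n 0 z (n 0 z (n 0 z (n 0 z (n 0 z (n 2 (n 2 (n 0 z (n 0 z (n 0 z (n 0 z (n
 0 z (n 0 z z)))))) (n 2 (n 0 z (n 0 z (n 0 z (n 0 z (n 0 z (n 0 z z)))))) (n 1 z z))) (n 0 z (n
 0 z (n 0 z (n 0 z (n 0 z (n 0 z z)))))))))))) (n 265 (n 0 z (n 0 z (n 0 z (n 0 z (n 0 z (n 0 z
 (n 0 z (n 0 z (n 0 z (n 0 z (n 0 z (n 0 z (n 0 z (n 0 z z)))))))))))))) (n 265 (n 0 z (n 0 z (n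
 0 z (n 0 z (n 0 z (n 0 z (n 2 (n 0 z z) (n 0 z (n 0 z (n 0 z (n 0 z (n 0 z (n 0 z (n 0 z
 z)))))))))))))) (n 265 (n 0 z (n 0 z (n 0 z (n 0 z (n 0 z (n 0 z (n 0 z (n 0 z (n 0 z (n 0 z (n
 0 z (n 0 z (n 0 z (n 0 z z)))))))))))))) z))))))))))) (n 0 (n 0 z (n 1093 (n 0 z (n 0 z (n 0 z
 (n 0 z (n 0 z (n 0 z (n 0 z (n 0 z (n 0 z (n 0 z (n 0 z (n 0 z (n 0 z z))))))))))))) (n 1093 (n
 0 z (n 0 z (n 0 z (n 0 z (n 0 z (n 0 z (n 0 z (n 0 z (n 0 z (n 2 (n 0 z (n 2 (n 0 z (n 0 z (n 0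
 z (n 0 z (n 0 (n 8864515 z z) (n 0 z z)))))) (n 2 (n 0 z (n 0 z (n 0 z (n 0 z (n 0 z (n 0 z
 z)))))) (n 2 (n 0 z (n 0 z (n 0 z (n 0 z (n 0 z (n 0 z z)))))) (n 2 (n 0 z (n 0 z (n 0 z (n 0 z
 (n 0 z (n 0 z z)))))) (n 1 z (n 2 (n 0 z (n 0 z (n 0 z (n 0 z (n 0 z (n 0 z z)))))) z))))))) (n
 0 z (n 0 z (n 0 z z))))))))))))) (n 1093 (n 0 z (n 0 z (n 0 z (n 0 z (n 0 z (n 0 z (n 0 z (n 2
 (n 2 (n 0 z (n 0 z (n 0 z (n 0 z (n 0 z (n 0 z z)))))) (n 2 (n 0 z (n 0 z (n 0 z (n 0 z (n 0 z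
 (n 0 z z)))))) (n 2 (n 0 z (n 0 z (n 0 z (n 0 z (n 0 z (n 0 z z)))))) (n 2 (n 0 z (n 0 z (n 0 z
 (n 0 z (n 0 z (n 0 z z)))))) (n 2 (n 0 z (n 0 z (n 0 z (n 0 z (n 0 z (n 0 z z)))))) (n 1 z
 z)))))) (n 0 z (n 0 z (n 0 z (n 0 z (n 0 z z))))))))))))) (n 3 (n 0 z (n 0 z (n 0 z (n 0 z (n 0
 z (n 0 z (n 0 z (n 0 z z)))))))) (n 3 (n 0 z (n 0 z (n 0 z (n 0 z (n 0 z (n 0 z (n 0 z (n 0 z
 z)))))))) (n 3 (n 0 z (n 2 (n 2 (n 0 z (n 0 z (n 0 z (n 0 z (n 0 z (n 0 z z)))))) (n 2 (n 0 z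
 (n 0 z (n 0 z (n 0 z (n 0 z (n 0 z z)))))) (n 1 z z))) (n 0 z (n 0 z (n 0 z (n 0 z (n 0 z (n 0
 z z)))))))) (n 53 (n 0 z (n 0 z (n 0 z (n 0 z (n 0 z (n 0 z (n 0 z (n 0 z (n 0 z (n 0 z
 z)))))))))) (n 53 (n 0 z (n 0 z (n 0 z (n 0 z (n 0 z (n 0 z (n 0 z (n 0 z (n 0 z (n 0 z
 z)))))))))) (n 53 (n 0 z (n 0 z (n 0 z (n 0 z (n 0 z (n 0 z (n 0 z (n 0 z (n 0 z (n 0 z
 z)))))))))) z)))))))))) (n 0 (n 1417 (n 0 z (n 2 (n 0 z (n 0 z (n 1 z (n 1 z (n 1 z (n 1 z (n 1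
 z (n 2 (n 0 z (n 0 z (n 0 z (n 0 z (n 0 z (n 0 z z)))))) z)))))))) (n 0 z (n 0 z z)))) (n 1417
 (n 0 z (n 0 z (n 0 z (n 0 z z)))) (n 1417 (n 0 z (n 0 z (n 0 z (n 0 z z)))) (n 255 (n 0 z (n 0
 z (n 0 z (n 0 z (n 0 z (n 0 z (n 0 z (n 0 z (n 0 z (n 0 z (n 0 z (n 0 z (n 0 z z)))))))))))))
 (n 255 (n 0 z (n 0 z (n 0 z (n 0 z (n 0 z (n 0 z (n 0 z (n 0 z (n 0 z (n 0 z (n 0 z (n 0 z (n 0
 z z))))))))))))) (n 255 (n 0 z (n 0 z (n 0 z (n 7616011 z (n 0 z (n 0 z (n 0 z (n 0 z (n 0 z (n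
 0 z (n 0 z (n 0 z (n 0 z z))))))))))))) (n 253 (n 0 z (n 0 z (n 0 z (n 0 z (n 0 z (n 0 z (n 0 z
 (n 0 z (n 0 z (n 0 z (n 0 z (n 0 z z)))))))))))) (n 253 (n 0 z (n 0 z (n 0 z (n 0 z (n 0 z (n 0
 z (n 0 z (n 0 z (n 0 z (n 0 z (n 0 z (n 0 z z)))))))))))) (n 253 (n 0 z (n 0 z (n 0 z (n 0 z (n
 2 z (n 0 z (n 0 z (n 0 z (n 0 z (n 0 z (n 0 z (n 0 z z)))))))))))) z))))))))) (n 0 (n 0 z (n 0
 z (n 99 (n 0 z (n 0 z (n 2 (n 0 z (n 0 z (n 1 z (n 1 z (n 2 (n 0 z (n 0 z (n 0 z (n 0 z (n 0 z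
 (n 0 z z)))))) z))))) (n 0 z (n 0 z (n 0 z (n 0 z (n 0 z (n 0 z (n 0 z (n 0 z (n 0 z
 z)))))))))))) (n 99 (n 0 z (n 0 z (n 0 z (n 0 z (n 0 z (n 0 z (n 0 z (n 0 z (n 0 z (n 0 z (n 0
 z (n 0 z z)))))))))))) (n 99 (n 0 z (n 0 z (n 0 z (n 0 z (n 2 (n 1 z (n 1 z (n 1 z z))) (n 0 z
 (n 0 z (n 0 z (n 0 z (n 0 z (n 0 z (n 0 z z)))))))))))) (n 97 (n 0 z (n 0 z (n 0 z (n 0 z (n 0
 z (n 0 z (n 0 z (n 0 z (n 0 z (n 0 z z)))))))))) (n 97 (n 0 z (n 0 z (n 0 z (n 0 z (n 0 z (n 2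
 (n 0 z z) (n 0 z (n 0 z (n 0 z (n 0 z z)))))))))) (n 97 (n 0 z (n 0 z (n 0 z (n 0 z (n 0 z (n 0
 z (n 2 z (n 0 z (n 0 z (n 0 z z)))))))))) z)))))))) (n 0 (n 0 z (n 3 (n 0 z (n 0 z (n 0 z (n 0
 z (n 0 z (n 0 z (n 0 z (n 0 z z)))))))) (n 3 (n 0 z (n 0 z (n 2 (n 0 z (n 1 z (n 1 z (n 2 (n 0
 z (n 0 z (n 0 z (n 0 z (n 0 z (n 0 z z)))))) z)))) (n 0 z (n 0 z (n 0 z (n 0 z (n 0 z z))))))))
 (n 3 (n 0 z (n 0 z (n 0 z (n 2 (n 2 (n 0 z (n 0 z (n 0 z (n 0 z (n 0 z (n 0 z z)))))) (n 1 z (n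
 2 (n 0 z (n 0 z (n 0 z (n 0 z (n 0 z (n 0 z z)))))) z))) (n 0 z (n 0 z (n 0 z (n 0 z z))))))))
 (n 1 (n 2 (n 0 z (n 0 z z)) (n 0 z (n 0 z (n 0 z (n 0 z (n 0 z (n 0 z (n 0 z (n 0 z (n 0 z (n 0
 z (n 0 z (n 0 z (n 0 z (n 0 z (n 0 z z)))))))))))))))) (n 1 (n 0 z (n 0 z (n 0 z (n 0 z (n 0 z
 (n 0 z (n 0 z (n 0 z (n 0 z (n 0 z (n 0 z (n 0 z (n 0 z (n 0 z (n 0 z (n 0 z z))))))))))))))))
 (n 1 (n 0 z (n 0 z (n 0 z (n 0 z (n 0 z (n 0 z (n 0 z (n 0 z (n 0 z (n 0 z (n 2 z (n 0 z (n 0 z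
 (n 0 z (n 0 z (n 0 z z)))))))))))))))) z))))))) (n 0 (n 3 (n 0 z (n 0 z (n 0 z (n 0 z (n 0 z (n
 0 z (n 0 z (n 0 z (n 0 z (n 0 z (n 0 z z))))))))))) (n 3 (n 0 z (n 0 z (n 2 (n 0 z (n 2 (n 0 z
 (n 0 z (n 0 z (n 0 z (n 0 z (n 0 z z)))))) (n 1 z (n 2 (n 0 z (n 0 z (n 0 z (n 0 z (n 0 z (n 0
 z z)))))) z)))) (n 0 z (n 0 z (n 0 z (n 0 z (n 0 z (n 0 z (n 0 z (n 0 z z))))))))))) (n 3 (n 0
 z (n 0 z (n 0 z (n 0 z (n 0 z (n 0 z (n 0 z (n 0 z (n 0 z (n 0 z (n 0 z z))))))))))) (n 1 (n 2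
 (n 0 z (n 0 z z)) (n 0 z (n 0 z (n 0 z (n 0 z (n 0 z (n 0 z (n 0 z (n 0 z (n 0 z (n 0 z (n 0 z
 (n 0 z (n 0 z (n 0 z (n 0 z (n 0 z (n 0 z (n 0 z (n 0 z (n 0 z (n 0 z (n 0 z (n 0 z (n 0 z (n 0
 z (n 0 z (n 0 z (n 0 z (n 0 z (n 0 z (n 0 z (n 0 z (n 0 z (n 0 z (n 0 z (n 0 z (n 0 z (n 0 z (n
 0 z (n 0 z (n 0 z (n 0 z (n 0 z (n 0 z (n 0 z z))))))))))))))))))))))))))))))))))))))))))))))
 (n 1 (n 0 z (n 0 z (n 0 z (n 0 z (n 0 z (n 0 z (n 0 z (n 0 z (n 0 z (n 0 z (n 0 z (n 0 z (n 0 z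
 (n 0 z (n 0 z (n 2 (n 0 z z) (n 0 z (n 0 z (n 0 z (n 0 z (n 0 z (n 0 z (n 0 z (n 0 z (n 0 z (n
 0 z (n 0 z (n 0 z (n 0 z (n 0 z (n 0 z (n 0 z (n 0 z (n 0 z (n 0 z (n 0 z (n 0 z (n 0 z (n 0 z
 (n 0 z (n 0 z (n 0 z (n 0 z (n 0 z (n 0 z (n 0 z
 z)))))))))))))))))))))))))))))))))))))))))))))) (n 1 (n 0 z (n 0 z (n 0 z (n 0 z (n 0 z (n 0 z
 (n 0 z (n 0 z (n 0 z (n 0 z (n 0 z (n 0 z (n 0 z (n 0 z (n 0 z (n 0 z (n 0 z (n 0 z (n 0 z (n 0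
 z (n
 0x12c86ea24077ff7f77fb8207f181f7e28027d580a7f97fd80880980e7fd7ef8088058067fa8218098007fd7fd7f37ff80f8187da7f18017fb7eb8077f18118137f980980b7ff8187ec8027f381d7fe7f70811
 z (n 0 z (n 0 z (n 0 z (n 0 z (n 0 z (n 0 z (n 0 z (n 0 z (n 0 z (n 0 z (n 0 z (n 0 z (n 0 z (n
 0 z (n 0 z (n 0 z (n 0 z (n 0 z (n 0 z (n 0 z (n 0 z (n 0 z (n 0 z (n 0 z (n 0 z
 z)))))))))))))))))))))))))))))))))))))))))))))) z)))))) (n 0 (n 0 z (n 0 z (n 1 (n 0 z (n 0 z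
 (n 0 z (n 0 z (n 0 z (n 0 z (n 0 z (n 0 z (n 0 z (n 0 z (n 0 z (n 0 z z)))))))))))) (n 1 (n 0 z
 (n 0 z (n 0 z (n 0 z (n 0 z (n 0 z (n 0 z (n 0 z (n 0 z (n 0 z (n 0 z (n 0 z z)))))))))))) (n 1
 (n 0 z (n 0 z (n 2 z (n 0 z (n 0 z (n 0 z (n 0 z (n 0 z (n 0 z (n 0 z (n 0 z (n 0 z
 z)))))))))))) z))))) (n 0 (n 0 z (n 25 (n 0 z (n 0 z (n 0 z (n 0 z (n 0 z (n 0 z (n 0 z (n 0 z
 (n 0 z (n 0 z (n 0 z (n 0 z z)))))))))))) (n 25 (n 0 z (n 0 z (n 0 z (n 0 z (n 0 z (n 0 z (n 0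
 z (n 0 z (n 0 z (n 0 z (n 0 z (n 0 z z)))))))))))) (n 25 (n 2 z (n 0 z (n 0 z (n 0 z (n 0 z (n
 0 z (n 0 z (n 0 z (n 0 z (n 0 z (n 0 z (n 0 z z)))))))))))) z)))) (n 0 (n 25 (n 0 z (n 0 z (n 0
 z (n 0 z (n 0 z (n 0 z (n 0 z (n 2 (n 0 z (n 0 z z)) (n 0 z (n 0 z (n 0 z z))))))))))) (n 25 (n
 0 z (n 0 z (n 0 z (n 6567691 z (n 0 z (n 0 z (n 0 z (n 0 z (n 0 z (n 0 z (n 0 z z))))))))))) (n
 25 (n 0 z (n 0 z (n 0 z (n 0 z (n 0 z (n 0 z (n 0 z (n 0 z (n 0 z (n 0 z (n 0 z z)))))))))))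
 z))) (n 0 (n 0 z (n 0 z z)) (n 0 (n 0 z z) (n 0 z z))))))))))))) (n 0 (n 0 z (n 1 (n 3282443 z
 (n 3282443 z (n 3282443 z (n 3282443 z (n 3282443 z (n 3282443 z z)))))) (n 0 z (n 0 z z)))) (n
 0 z z)))) (n 0x1a24d0cd96d125b20449841b2c8c125962cacb2254cc0ea8d0251668a6174331a209 (n 0 (n 477
 (n 0 z (n 3282443 z (n 0 z (n 0 z (n 0 z (n 0 z (n 0 z (n 0 z z)))))))) (n 475 (n 0 z (n 2 z (n
 0 z (n 6631747 z (n 0 z (n 0 z (n 0 z (n 10 z (n 0 z (n 0 z (n 0 z (n 18 z (n 0 z (n 0 z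
 z)))))))))))))) (n 476 (n 26 z (n 6566419 z (n 0 z (n 0 z (n 0 z (n 6566419 z (n
 0x3328b28200c02194950040e000c86c860037e27ea8017e78247e57cc81a7f87fb7f27fb81c7f97e88057da80a8067ea7f27f182581b8047df8257ff7f07e48117b98107d07c180b7fd8367c37f585e79885381581a80781580783280a1811
 z (n 6566419 z (n
 0x1f65465400380355320008a6402214c8066a080069410a7a8857be91976988da776a776579469b8726698da64584798181580d97a8ea9cf55a9595c2a2b6ed87d7668267b599372d7af89a8606bc913893927344bbd43e9e3861a9f50251d9d47680951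
 z (n 0 z (n 34 z (n 42 z (n
 0x5945941006004ca4a802077a97ba8048028047f874982d7e18108108168627d98287ee78d8117db81a7dd7e089b7ad84d7d280e7f68287f280174984c7aa7e97d383a8097eb7b68cb7938bf7e580a78c8688867ea8131011
 z z))))))))))))) (n 3 (n 6566419 z (n 50 z (n 0 z (n 0 z (n 58 z (n 0 z z)))))) (n 1 (n 66 z (n
 0 z (n 0 z (n 6566419 z (n 0 z (n 0 z (n 74 z (n 0 z (n 6566419 z (n 0 z (n 0 z (n 0 z (n 0 z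
 (n 0 z (n 82 z (n 0 z (n 0 z (n 0 z z)))))))))))))))))) (n 0 (n 6631747 z (n 0 z (n 90 z (n 0 z
 (n 98 z (n 0 z (n 0 z (n 0 z (n 0 z (n 0 z z)))))))))) z)))))) (n 3 (n 0 (n 0 z (n 0 z (n 953
 (n 0 z (n 0 z (n 0 z (n 0 z (n 0 z (n 0 z (n 0 z (n 0 z (n 0 z (n 0 z z)))))))))) (n 953 (n 0 z
 (n 0 z (n 0 z (n 0 z (n 0 z (n 0 z (n 0 z (n 0 z (n 2 (n 0 z (n 2 (n 0 z (n 0 z (n 0 z (n 0 z
 (n 0 z (n 0 z z)))))) (n 1 z (n 2 (n 0 z (n 0 z (n 0 z (n 0 z (n 0 z (n 0 z z)))))) (n 1 z (n 2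
 (n 0 z (n 0 z (n 0 z (n 0 z (n 0 z (n 0 z z)))))) (n 2 (n 0 z (n 0 z (n 0 z (n 0 z (n 0 z (n 0
 z z)))))) (n 1 z z)))))))) (n 0 z z)))))))))) (n 953 (n 0 z (n 0 z (n 0 z (n 0 z (n 0 z (n 0 z
 (n 2 (n 2 (n 0 z (n 0 z (n 0 z (n 0 z (n 0 z (n 0 z z)))))) (n 1 z (n 1 z (n 1 z (n 2 (n 0 z (n
 0 z (n 0 z (n 0 z (n 0 z (n 0 z z)))))) (n 2 (n 0 z (n 0 z (n 0 z (n 0 z (n 0 z (n 0 z z))))))
 (n 1 z z))))))) (n 0 z (n 0 z (n 0 z z)))))))))) (n 247 (n 0 z (n 0 z (n 2 (n 0 z (n 2 (n 0 z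
 (n 0 z (n 0 z (n 0 z (n 0 z (n 0 z z)))))) (n 1 z (n 2 (n 0 z (n 0 z (n 0 z (n 0 z (n 0 z (n 0
 z z)))))) (n 2 (n 0 z (n 0 z (n 0 z (n 0 z (n 0 z (n 0 z z)))))) (n 1 z z)))))) (n 0 z (n 0 z
 (n 0 z (n 0 z (n 0 z (n 0 z (n 0 z (n 0 z z))))))))))) (n 247 (n 0 z (n 0 z (n 0 z (n 0 z (n 0
 z (n 0 z (n 0 z (n 0 z (n 0 z (n 0 z (n 0 z z))))))))))) (n 243 (n 2 (n 0 z (n 0 z (n 2 (n 0 z
 (n 0 z (n 0 z (n 0 z (n 0 z (n 0 z z)))))) (n 1 z z)))) (n 0 z (n 0 z (n 0 z (n 0 z (n 0 z (n 0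
 z z))))))) (n 243 (n 0 z (n 0 z (n 0 z (n 0 z (n 0 z (n 0 z (n 0 z z))))))) (n 243 (n 0 z (n 0
 z (n 0 z (n 0 z (n 0 z (n 0 z (n 2 (n 2 (n 0 z (n 0 z (n 0 z (n 0 z (n 0 z (n 0 z z)))))) (n 2
 (n 0 z (n 0 z (n 0 z (n 0 z (n 0 z (n 0 z z)))))) z)) z))))))) (n 241 (n 0 z (n 0 z (n 0 z (n 2
 (n 0 z z) (n 0 z (n 0 z (n 0 z (n 0 z (n 0 z (n 0 z (n 0 z (n 0 z (n 0 z z))))))))))))) (n 241
 (n 0 z (n 0 z (n 0 z (n 0 z (n 0 z (n 0 z (n 0 z (n 0 z (n 0 z (n 0 z (n 0 z (n 0 z (n 0 z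
 z))))))))))))) z)))))))))))) (n 0 (n 0 z (n 953 (n 0 z (n 0 z (n 0 z (n 0 z (n 0 z (n 0 z (n 0
 z (n 0 z (n 0 z z))))))))) (n 953 (n 0 z (n 0 z (n 0 z (n 0 z (n 0 z (n 0 z (n 0 z (n 0 z (n 0
 z z))))))))) (n 953 (n 0 z (n 0 z (n 0 z (n 0 z (n 0 z (n 2 (n 2 (n 0 z (n 0 z (n 0 z (n 0 z (n
 0 z (n 0 z z)))))) (n 1 z (n 2 (n 0 z (n 0 z (n 0 z (n 0 z (n 0 z (n 0 z z)))))) (n 1 z (n 2 (n
 0 z (n 0 z (n 0 z (n 0 z (n 0 z (n 0 z z)))))) (n 2 (n 0 z (n 0 z (n 0 z (n 0 z (n 0 z (n 0 z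
 z)))))) (n 1 z z))))))) (n 0 z (n 0 z (n 0 z z))))))))) (n 1045 (n 0 z (n 0 z (n 0 z (n 2 (n 0
 z (n 2 (n 0 z (n 0 z (n 0 z (n 0 z (n 0 z (n 0 z z)))))) (n 2 (n 0 z (n 0 z (n 0 z (n 0 z (n 0
 z (n 0 z z)))))) (n 1 z (n 2 (n 0 z (n 0 z (n 0 z (n 0 z (n 0 z (n 0 z z)))))) (n 2 (n 0 z (n 0
 z (n 0 z (n 0 z (n 0 z (n 0 z z)))))) z)))))) (n 0 z z))))) (n 1045 (n 0 z (n 0 z (n 0 z (n 0 z
 (n 0 z z))))) (n 925 (n 0 z (n 0 z (n 0 z (n 0 z (n 0 z (n 0 z (n 0 z (n 0 z (n 0 z (n 0 z (n 0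
 z (n 0 z (n 0 z (n 0 z (n 0 z (n 0 z (n 0 z (n 0 z (n 0 z (n 0 z (n 0 z (n 0 z (n 0 z (n 0 z (n
 0 z (n 0 z (n 0 z (n 2 (n 0 z (n 0 z (n 2 (n 0 z (n 0 z (n 0 z (n 0 z (n 0 z (n 0 z z)))))) (n
 1 z z)))) (n 0 z (n 0 z (n 0 z (n 0 z z)))))))))))))))))))))))))))))))) (n 925 (n 0 z (n 2 (n 0
 z (n 2 (n 0 z (n 0 z (n 0 z (n 0 z (n 0 z (n 0 z z)))))) (n 1 z z))) (n 0 z (n 0 z (n 0 z (n 0
 z (n 0 z (n 0 z (n 0 z (n 0 z (n 0 z (n 0 z (n 0 z (n 0 z (n 0 z (n 0 z (n 0 z (n 0 z (n 0 z (n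
 0 z (n 0 z (n 0 z (n 0 z (n 0 z (n 0 z (n 0 z (n 0 z (n 0 z (n 0 z (n 0 z (n 0 z (n 0 z
 z)))))))))))))))))))))))))))))))) (n 925 (n 0 z (n 0 z (n 0 z (n 0 z (n 0 z (n 0 z (n 0 z (n 0
 z (n 0 z (n 0 z (n 0 z (n 0 z (n 0 z (n 0 z (n 0 z (n 0 z (n 0 z (n 0 z (n 0 z (n 0 z (n 0 z (n
 0 z (n 0 z (n 0 z (n 0 z (n 0 z (n 0 z (n 0 z (n 0 z (n 0 z (n 0 z (n 0 z
 z)))))))))))))))))))))))))))))))) (n 1033 (n 0 z (n 0 z (n 0 z (n 0 z (n 2 (n 0 z z) (n 0 z (n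
 0 z (n 0 z (n 0 z z))))))))) (n 1033 (n 0 z (n 0 z (n 0 z (n 0 z (n 0 z (n 0 z (n 0 z (n 0 z (n
 0 z z))))))))) z))))))))))) (n 0 (n 933 (n 0 z (n 2 (n 0 z (n 0 z (n 2 (n 0 z (n 0 z (n 0 z (n
 0 z (n 0 z (n 0 z z)))))) (n 1 z (n 1 z (n 1 z (n 2 (n 0 z (n 0 z (n 0 z (n 0 z (n 0 z (n 0 z
 z)))))) (n 2 (n 0 z (n 0 z (n 0 z (n 0 z (n 0 z (n 0 z z)))))) (n 1 z z))))))))) (n 0 z (n 0 z
 (n 0 z (n 0 z (n 0 z (n 0 z (n 0 z (n 0 z (n 0 z (n 0 z (n 0 z z))))))))))))) (n 933 (n 0 z (n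
 0 z (n 0 z (n 0 z (n 0 z (n 0 z (n 2 (n 0 z (n 2 (n 0 z (n 0 z (n 0 z (n 0 z (n 0 z (n 0 (n
 8873219 z z) z)))))) (n 1 z (n 1 z (n 1 z (n 1 z (n 2 (n 0 z (n 0 z (n 0 z (n 0 z (n 0 z (n 0
 (n 8873219 z z) z)))))) (n 1 z z)))))))) (n 0 z (n 0 z (n 0 z (n 0 z (n 0 z (n 0 z
 z))))))))))))) (n 933 (n 0 z (n 0 z (n 0 z (n 0 z (n 0 z (n 0 z (n 0 z (n 0 z (n 0 z (n 0 z (n
 0 z (n 0 z (n 0 z z))))))))))))) (n 1285 (n 0 z (n 0 z (n 0 z (n 0 z (n 0 z (n 0 z (n 0 z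
 z))))))) (n 1285 (n 2 (n 1 z (n 1 z (n 2 (n 0 z (n 0 z (n 0 z (n 0 z (n 0 z (n 0 z z)))))) (n 1
 z (n 1 z z))))) (n 0 z (n 0 z (n 0 z (n 0 z (n 0 z (n 0 z z))))))) (n 805 (n 0 z (n 0 z (n 0 z
 (n 0 z (n 0 z (n 0 z (n 0 z (n 0 z z)))))))) (n 805 (n 2 (n 0 z (n 1 z (n 1 z z))) (n 0 z (n 0
 z (n 0 z (n 0 z (n 0 z (n 0 z (n 0 z z)))))))) (n 805 (n 0 z (n 0 z (n 0 z (n 0 z (n 0 z (n 2
 (n 1 z (n 2 (n 0 z (n 0 z (n 0 z (n 0 z (n 0 z (n 0 (n 3172 z z) z)))))) z)) (n 0 z (n 0 z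
 z)))))))) (n 793 (n 0 z (n 0 z (n 0 z (n 0 z (n 0 z (n 0 z (n 0 z (n 0 z (n 0 z z))))))))) (n
 793 (n 2 z (n 0 z (n 0 z (n 0 z (n 0 z (n 0 z (n 0 z (n 0 z (n 0 z z))))))))) z)))))))))) (n 0
 (n 0 z (n 0 z (n 295 (n 0 z (n 0 z (n 0 z (n 0 z (n 0 z (n 0 z (n 0 z (n 0 z (n 0 z (n 0 z (n 0
 z (n 0 z (n 0 z z))))))))))))) (n 295 (n 0 z (n 0 z (n 0 z (n 0 z (n 0 z (n 0 z (n 0 z (n 0 z
 (n 0 z (n 0 z (n 0 z (n 0 z (n 0 z z))))))))))))) (n 291 (n 0 z (n 0 z (n 0 z (n 0 z (n 0 z (n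
 0 z (n 0 z (n 0 z (n 0 z (n 0 z z)))))))))) (n 291 (n 0 z (n 0 z (n 0 z (n 0 z (n 0 z (n 0 z (n
 0 z (n 0 z (n 0 z (n 0 z z)))))))))) (n 291 (n 0 z (n 0 z (n 0 z (n 0 z (n 0 z (n 0 z (n 0 z (n
 2 (n 2 (n 0 z (n 0 z (n 0 z (n 0 z (n 0 z (n 0 z z)))))) (n 2 (n 0 z (n 0 z (n 0 z (n 0 z (n 0
 z (n 0 z z)))))) z)) (n 0 z (n 0 z z)))))))))) (n 289 (n 0 z (n 0 z (n 0 z (n 0 z (n 0 z (n 0 z
 (n 0 z (n 0 z (n 0 z (n 0 z (n 2 (n 0 z z) (n 0 z (n 0 z (n 0 z (n 0 z (n 0 z (n 0 z (n 0 z (n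
 0 z (n 0 z (n 0 z (n 0 z (n 0 z (n 0 z (n 0 z (n 0 z z)))))))))))))))))))))))))) (n 289 (n 0 z
 (n 0 z (n 0 z (n 0 z (n 0 z (n 0 z (n 0 z (n 0 z (n 0 z (n 0 z (n 0 z (n 0 z (n 0 z (n 0 z (n 0
 z (n 0 z (n 0 z (n 0 z (n 0 z (n 0 z (n 0 z (n 0 z (n 0 z (n 0 z (n 0 z (n 0 z
 z)))))))))))))))))))))))))) z))))))))) (n 0 (n 0 z (n 1077 (n 0 z (n 0 z (n 0 z (n 0 z (n 0 z
 (n 0 z (n 0 z (n 0 z (n 2 (n 0 z (n 2 (n 0 z (n 0 z (n 0 z (n 0 z (n 0 z (n 0 z z)))))) (n 2 (n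
 0 z (n 0 z (n 0 z (n 0 z (n 0 z (n 0 z z)))))) (n 1 z (n 2 (n 0 z (n 0 z (n 0 z (n 0 z (n 0 z
 (n 0 z z)))))) (n 2 (n 0 z (n 0 z (n 0 z (n 0 z (n 0 z (n 0 z z)))))) z)))))) (n 0 z (n 0 z (n
 0 z z)))))))))))) (n 1077 (n 6428427 z (n 0 z (n 0 z (n 0 z (n 0 z (n 0 z (n 0 z (n 0 z (n 0 z
 (n 0 z (n 0 z (n 0 z z)))))))))))) (n 261 (n 0 z (n 0 z (n 0 z (n 0 z (n 0 z (n 2 (n 0 z (n 0 z
 (n 2 (n 0 z (n 0 z (n 0 z (n 0 z (n 0 z (n 0 z z)))))) (n 1 z z)))) (n 0 z (n 0 z (n 0 z (n 0 z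
 (n 0 z z))))))))))) (n 261 (n 0 z (n 0 z (n 0 z (n 0 z (n 0 z (n 0 z (n 6428427 z (n 0 z (n 0 z
 (n 0 z (n 0 z z))))))))))) (n 261 (n 0 z (n 0 z (n 0 z (n 0 z (n 0 z (n 0 z (n 0 z (n 0 z (n 0
 z (n 0 z (n 0 z z))))))))))) (n 257 (n 0 z (n 0 z (n 0 z (n 0 z (n 0 z (n 0 z (n 0 z (n 0 z (n
 0 z (n 0 z (n 0 z (n 0 z (n 0 z (n 0 z (n 0 z (n 0 z (n 0 z (n 0 z (n 0 z (n 0 z (n 0 z (n 2 (n
 0 z z) (n 0 z (n 0 z (n 0 z (n 0 z (n 0 z (n 0 z (n 0 z (n 0 z (n 0 z (n 0 z (n 0 z (n 0 z (n 0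
 z (n 0 z (n 0 z (n 0 z (n 0 z (n 0 z (n 0 z (n 0 z (n 0 z (n 0 z (n 0 z (n 0 z
 z)))))))))))))))))))))))))))))))))))))))))))))) (n 257 (n 0 z (n 0 z (n 0 z (n 0 z (n 0 z (n 0
 z (n 0 z (n 0 z (n 0 z (n 0 z (n 0 z (n 0 z (n 0 z (n 0 z (n 0 z (n 0 z (n 0 z (n 0 z (n 0 z (n
 0 z (n 0 z (n 0 z (n 6428427 z (n 0 z (n 0 z (n 0 z (n 0 z (n 0 z (n 0 z (n 0 z (n 0 z (n 0 z
 (n 0 z (n 0 z (n 0 z (n 0 z (n 0 z (n 0 z (n 0 z (n 0 z (n 0 z (n 0 z (n 0 z (n 0 z (n 0 z (n 0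
 z z)))))))))))))))))))))))))))))))))))))))))))))) z)))))))) (n 0 (n 1337 (n 0 z (n 0 z (n 0 z
 (n 0 z (n 0 z (n 0 z (n 0 z (n 0 z z)))))))) (n 1337 (n 0 z (n 0 z (n 0 z (n 0 z (n 0 z (n 0 z
 (n 0 z (n 0 z z)))))))) (n 941 (n 0 z (n 0 z (n 0 z (n 0 z (n 0 z (n 0 z (n 0 z (n 0 z (n 0 z
 (n 0 z z)))))))))) (n 941 (n 0 z (n 0 z (n 0 z (n 0 z (n 0 z (n 0 z (n 0 z (n 0 z (n 0 z (n 0 z
 z)))))))))) (n 941 (n 0 z (n 0 z (n 0 z (n 0 z (n 0 z (n 0 z (n 0 z (n 0 z (n 0 z (n 2 (n 2 (n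
 0 z (n 0 z (n 0 z (n 0 z (n 0 z (n 0 z z)))))) (n 2 (n 0 z (n 0 z (n 0 z (n 0 z (n 0 z (n 0 z
 z)))))) z)) z)))))))))) (n 845 (n 0 z (n 0 z (n 0 z (n 0 z (n 0 z (n 0 z (n 0 z (n 0 z (n 0 z
 (n 0 z (n 0 z (n 0 z (n 0 z (n 0 z (n 0 z (n 0 z (n 0 z (n 0 z (n 0 z (n 0 z (n 0 z (n 0 z (n 0
 z (n 0 z (n 0 z (n 0 z (n 0 z (n 0 z (n 0 z (n 0 z (n 0 z (n 0 z (n 0 z (n 0 z (n 0 z (n 0 z (n
 0 z (n 0 z (n 0 z (n 0 z (n 0 z (n 0 z (n 0 z (n 0 z (n 0 z (n 0 z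
 z)))))))))))))))))))))))))))))))))))))))))))))) (n 845 (n 0 z (n 2 z (n 0 z (n 0 z (n 0 z (n 0
 z (n 0 z (n 0 z (n 0 z (n 0 z (n 0 z (n 0 z (n 0 z (n 0 z (n 0 z (n 0 z (n 0 z (n 0 z (n 0 z (n
 0 z (n 0 z (n 0 z (n 0 z (n 0 z (n 0 z (n 0 z (n 0 z (n 0 z (n 0 z (n 0 z (n 0 z (n 0 z (n 0 z
 (n 0 z (n 0 z (n 0 z (n 0 z (n 0 z (n 0 z (n 0 z (n 0 z (n 0 z (n 0 z (n 0 z (n 0 z (n 0 z
 z)))))))))))))))))))))))))))))))))))))))))))))) z))))))) (n 0 (n 0 z (n 9 (n 0 z (n 0 z (n 0 z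
 (n 0 z (n 0 z (n 0 z (n 0 z (n 0 z (n 0 z (n 0 z (n 0 z (n 0 z (n 0 z (n 0 z z)))))))))))))) (n
 9 (n 0 z (n 0 z (n 0 z (n 0 z (n 0 z (n 0 z (n 0 z (n 0 z (n 0 z (n 0 z (n 0 z (n 0 z (n 0 z (n
 0 z z)))))))))))))) (n 9 (n 0 z (n 0 z (n 0 z (n 0 z (n 0 z (n 0 z (n 0 z (n 0 z (n 0 z (n 0 z
 (n 0 z (n 0 z (n 0 z (n 0 z z)))))))))))))) (n 5 (n 0 z (n 0 z (n 0 z (n 0 z (n 0 z (n 0 z (n 0
 z z))))))) (n 5 (n 0 z (n 0 z (n 2 z (n 0 z (n 0 z (n 0 z (n 0 z z))))))) z)))))) (n 0 (n 723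
 (n 0 z (n 0 z (n 0 z (n 0 z (n 0 z (n 0 z (n 0 z (n 0 z (n 0 z (n 0 z (n 0 z (n 0 z
 z)))))))))))) (n 723 (n 0 z (n 0 z (n 0 z (n 0 z (n 0 z (n 0 z (n 0 z (n 0 z (n 0 z (n 0 z (n 0
 z (n 0 z z)))))))))))) (n 723 (n 0 z (n 0 z (n 0 z (n 0 z (n 0 z (n 0 z (n 0 z (n 0 z (n 0 z (n
 0 z (n 2 (n 2 (n 0 z (n 0 z (n 0 z (n 0 z (n 0 z (n 0 z z)))))) (n 1 z z)) (n 0 z z))))))))))))
 (n 721 (n 0 z (n 0 z (n 0 z (n 2 (n 0 z z) (n 0 z (n 0 z (n 0 z (n 0 z (n 0 z (n 0 z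
 z)))))))))) (n 721 (n 0 z (n 0 z (n 0 z (n 0 z (n 0 z (n 0 z (n 0 z (n 0 z (n 0 z (n 0 z
 z)))))))))) z))))) (n 0 (n 0 z (n 0 z (n 1 (n 0 z (n 0 z (n 0 z (n 0 z (n 0 z (n 0 z (n 0 z (n
 0 z (n 0 z (n 0 z (n 0 z (n 0 z (n 0 z (n 0 z (n 0 z (n 0 z z)))))))))))))))) (n 1 (n 0 z (n 0
 z (n 0 z (n 0 z (n 0 z (n 2 z (n 0 z (n 0 z (n 0 z (n 0 z (n 0 z (n 0 z (n 0 z (n 0 z (n 0 z (n
 0 z z)))))))))))))))) z)))) (n 0 (n 0 z (n 961 (n 2 (n 0 z z) (n 0 z (n 0 z (n 0 z (n 0 z (n 0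
 z (n 0 z (n 0 z (n 0 z (n 0 z (n 0 z (n 0 z (n 0 z (n 0 z z)))))))))))))) (n 961 (n 0 z (n 0 z
 (n 0 z (n 0 z (n 0 z (n 0 z (n 0 z (n 0 z (n 0 z (n 0 z (n 0 z (n 0 z (n 0 z (n 0 z
 z)))))))))))))) z))) (n 0 (n 1 (n 0 z (n 0 z (n 0 z (n 0 z (n 0 z (n 0 z (n 0 z (n 0 z (n 0 z
 (n 0 z (n 0 z z))))))))))) (n 1 (n 0 z (n 2 z (n 0 z (n 0 z (n 0 z (n 0 z (n 0 z (n 0 z (n 0 z
 (n 0 z (n 0 z z))))))))))) z)) (n 0 (n 0 z z) (n 0 z z))))))))))))) (n 0 (n 1 (n 6566419 z (n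
 6566419 z (n 6566419 z (n 6566419 z (n 6566419 z (n 6566419 z z)))))) (n 1 (n 3820 z (n 3820 z
 (n 3820 z (n 3820 z (n 3820 z (n 3820 z z)))))) (n 0 z (n 0 z (n 1 (n 3280995 z (n 3820 z (n
 3282443 z (n 3820 z (n 3820 z (n 3820 z z)))))) (n 0 z z)))))) (n 0 z z)))) (n
 0xb217452c9a1549da2a4e50ad910a638832cca824dd5426aaa8328d2192e108ba9846aa9008d300 (n 0x2aa93 (n
 323 (n 0 z (n 6623299 z (n 0 z (n 0 z (n 2 z (n 10 z z)))))) (n 257 (n 0 z (n 18 z (n 6623299 z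
 (n 6623299 z (n 26 z (n 0 z (n 34 z (n 42 z (n 0 z z))))))))) (n 9 (n 3212843 z (n 0 z (n 0 z
 (n 50 z z)))) (n 27 (n 58 z (n 2164283 z (n 0 z (n 0 z (n 0 z z))))) (n 1 (n 66 z (n
 0x21951440c0e06ca6c60207807a868184837d7a728c83927d79847e817d837b7c80778774835e7b938670857f898576728999787d718a7a85858870797b1009
 z (n 74 z (n
 0x65265130180ca6ca62037e086185f82082089f81e7e185f8a08207a17e182082182081f82082082081f8608608208601001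
 z (n 2164299 z (n
 0x18ca8a42603806f918d716f807e74985fba966474839c78807f4e8370ab66e83576539876638ea4838846ae956191689e5e9686a16c627c0809
 z (n 82 z (n 90 z (n
 0x746507f629875948672806da2878e6a97857a698871969b7e695d6e746982ae97697b4b6b96709d937c7c707190517d737e7f7a8f0049
 z (n
 0x2ca6ca02037e07df82086086089f81f86086082081f76181f8218208208208217e082081f8208208208200801 z
 (n
 0xaca8a42603805b9f7e8b82727f76a189906783817a778186948c84676f618c697fa8927077556a8e77919f7f78757d85587d7f817f7a8d0809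
 z (n 0xca6ca64037e08208208208208607df8208608218207a182082082081f82082081f82081f8208608208200801
 z z)))))))))))) (n 0 (n 0 z (n 98 z (n 0 z (n 0 z (n 0 z (n 6623299 z (n 106 z (n 0 z (n 0 z (n
 114 z z)))))))))) z)))))) (n 9 (n 0 (n 0 z (n 83 (n 2 (n 0 z (n 0 z (n 0 z (n 2 (n 0 z (n 0 z
 (n 0 z (n 0 z (n 0 z (n 0 (n 732 z z) z)))))) (n 1 z (n 2 (n 0 z (n 0 z (n 0 z (n 0 z (n 0 z (n
 0 z z)))))) (n 2 (n 0 z (n 0 z (n 0 z (n 0 z (n 0 z (n 0 z z)))))) (n 1 z (n 2 (n 0 z (n 0 z (n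
 0 z (n 0 z (n 0 z (n 0 (n 340 z z) z)))))) (n 1 z (n 2 (n 0 z (n 0 z (n 0 z (n 0 z (n 0 z (n 0
 z z)))))) (n 1 z z)))))))))))) (n 0 z (n 0 z (n 0 z (n 0 z (n 0 z (n 0 z (n 0 z (n 0 z
 z))))))))) (n 83 (n 0 z (n 0 z (n 0 z (n 0 z (n 2 (n 0 z (n 0 z (n 2 (n 0 z (n 0 z (n 0 z (n 0
 z (n 0 z (n 0 z z)))))) (n 1 z (n 1 z (n 1 z (n 1 z (n 2 (n 0 z (n 0 z (n 0 z (n 0 z (n 0 z (n
 0 z z)))))) (n 1 z (n 1 z (n 1 z z))))))))))) (n 0 z (n 0 z (n 0 z (n 0 z z))))))))) (n 83 (n 0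
 z (n 0 z (n 0 z (n 0 z (n 0 z (n 0 z (n 0 z (n 0 z (n 0 z z))))))))) (n 83 (n 0 z (n 0 z (n 0 z
 (n 0 z (n 0 z (n 2 (n 2 (n 0 z (n 0 z (n 0 z (n 0 z (n 0 z (n 0 (n 8873267 z z) z)))))) (n 1 z
 (n 2 (n 0 z (n 0 z (n 0 z (n 0 z (n 0 z (n 0 z z)))))) (n 2 (n 0 z (n 0 z (n 0 z (n 0 z (n 0 z
 (n 0 z z)))))) (n 1 z (n 2 (n 0 z (n 0 z (n 0 z (n 0 z (n 0 z (n 0 (n 8864035 z z) z)))))) (n 1
 z (n 2 (n 0 z (n 0 z (n 0 z (n 0 z (n 0 z (n 0 z z)))))) (n 2 (n 0 z (n 0 z (n 0 z (n 0 z (n 0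
 z (n 0 z z)))))) z))))))))) (n 0 z (n 0 z (n 0 z z))))))))) (n 183 (n 0 z (n 2 (n 1 z (n 2 (n 0
 z (n 0 z (n 0 z (n 0 z (n 0 z (n 0 z z)))))) (n 2 (n 0 z (n 0 z (n 0 z (n 0 z (n 0 z (n 0 z
 z)))))) (n 1 z (n 2 (n 0 z (n 0 z (n 0 z (n 0 z (n 0 z (n 0 (n 8873267 z z) z)))))) (n 1 z (n 2
 (n 0 z (n 0 z (n 0 z (n 0 z (n 0 z (n 0 z z)))))) (n 2 (n 0 z (n 0 z (n 0 z (n 0 z (n 0 z (n 0
 z z)))))) z)))))))) z)) (n 81 (n 0 z (n 0 z (n 0 z (n 2 (n 2 (n 0 z (n 0 z (n 0 z (n 0 z (n 0 z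
 (n 0 z z)))))) (n 2 (n 0 z (n 0 z (n 0 z (n 0 z (n 0 z (n 0 z z)))))) (n 1 z (n 1 z (n 1 z (n 2
 (n 0 z (n 0 z (n 0 z (n 0 z (n 0 z (n 0 z z)))))) (n 2 (n 0 z (n 0 z (n 0 z (n 0 z (n 0 z (n 0
 z z)))))) z))))))) (n 0 z (n 0 z (n 0 z (n 0 z (n 0 z (n 0 z (n 0 z (n 0 z (n 0 z (n 0 z
 z)))))))))))))) (n 85 (n 0 z (n 0 z (n 0 z (n 0 z (n 0 z (n 2 (n 0 z (n 0 z (n 0 z (n 1 z (n 1
 z (n 2 (n 0 z (n 0 z (n 0 z (n 0 z (n 0 z (n 0 (n 8726379 z z) z)))))) z)))))) (n 0 z (n 0 z (n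
 0 z (n 0 z (n 0 z (n 0 z (n 0 z z))))))))))))) (n 85 (n 0 z (n 0 z (n 0 z (n 0 z (n 0 z (n 0 z
 (n 0 z (n 0 z (n 0 z (n 0 z (n 0 z (n 0 z (n 0 z z))))))))))))) (n 85 (n 0 z (n 0 z (n 0 z (n 0
 z (n 2 (n 0 z (n 1 z (n 2 (n 0 z (n 0 z (n 0 z (n 0 z (n 0 z (n 0 z z)))))) (n 1 z z)))) (n 0 z
 (n 0 z (n 0 z (n 0 z (n 0 z (n 0 z (n 0 z (n 0 z z))))))))))))) (n 85 (n 0 z (n 0 z (n 0 z (n 0
 z (n 0 z (n 0 z (n 2 (n 1 z (n 2 (n 0 z (n 0 z (n 0 z (n 0 z (n 0 z (n 0 z z)))))) (n 2 (n 0 z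
 (n 0 z (n 0 z (n 0 z (n 0 z (n 0 z z)))))) z))) (n 0 z (n 0 z (n 0 z (n 0 z (n 0 z (n 0 z
 z))))))))))))) (n 73 (n 0 z (n 2 (n 0 z (n 0 z z)) (n 0 z (n 0 z z)))) (n 73 (n 0 z (n 0 z (n 0
 z (n 0 z z)))) (n 73 (n 0 z (n 0 z (n 0 z (n 0 z z)))) z)))))))))))))) (n 0 (n 635 (n 0 z (n 2
 (n 0 z (n 0 z (n 0 z (n 1 z (n 1 z (n 1 z (n 1 z (n 1 z (n 1 z (n 1 z (n 2 (n 0 z (n 0 z (n 0 z
 (n 0 z (n 0 z (n 0 z z)))))) (n 1 z z)))))))))))) (n 0 z (n 0 z (n 0 z (n 0 z (n 0 z (n 0 z (n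
 0 z (n 0 z (n 0 z (n 0 z (n 0 z (n 0 z (n 0 z (n 0 z (n 0 z (n 0 z (n 0 z (n 0 z
 z)))))))))))))))))))) (n 635 (n 0 z (n 0 z (n 0 z (n 0 z (n 0 z (n 0 z (n 0 z (n 0 z (n 2 (n 0
 z (n 0 z (n 1 z (n 1 z (n 2 (n 0 z (n 0 z (n 0 z (n 0 z (n 0 z (n 0 (n 1164 z z) z)))))) (n 1 z
 (n 1 z (n 1 z (n 1 z (n 2 (n 0 z (n 0 z (n 0 z (n 0 z (n 0 z (n 0 z z)))))) (n 1 z z)))))))))))
 (n 0 z (n 0 z (n 0 z (n 0 z (n 0 z (n 0 z (n 0 z (n 0 z (n 0 z (n 0 z (n 0 z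
 z)))))))))))))))))))) (n 635 (n 0 z (n 0 z (n 0 z (n 0 z (n 0 z (n 0 z (n 0 z (n 0 z (n 0 z (n
 0 z (n 0 z (n 0 z (n 0 z (n 0 z (n 0 z (n 2 (n 0 z (n 1 z (n 1 z (n 2 (n 0 z (n 0 z (n 0 z (n 0
 z (n 0 z (n 0 z z)))))) (n 2 (n 0 z (n 0 z (n 0 z (n 0 z (n 0 z (n 0 z z)))))) (n 1 z (n 1 z (n
 1 z (n 2 (n 0 z (n 0 z (n 0 z (n 0 z (n 0 z (n 0 z z)))))) (n 2 (n 0 z (n 0 z (n 0 z (n 0 z (n
 0 z (n 0 z z)))))) z)))))))))) (n 0 z (n 0 z (n 0 z (n 0 z z)))))))))))))))))))) (n 635 (n 0 z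
 (n 0 z (n 0 z (n 0 z (n 0 z (n 0 z (n 0 z (n 0 z (n 0 z (n 0 z (n 0 z (n 0 z (n 0 z (n 0 z (n 0
 z (n 0 z (n 0 z (n 0 z (n 0 z (n 0 z z)))))))))))))))))))) (n 31 (n 0 z (n 0 z (n 0 z (n 0 z (n
 0 z z))))) (n 507 (n 0 z (n 0 z (n 0 z (n 0 z (n 0 z (n 0 z (n 0 z (n 0 z z)))))))) (n 291 (n 2
 (n 0 z (n 0 z (n 0 z (n 1 z (n 2 (n 0 z (n 0 z (n 0 z (n 0 z (n 0 z (n 0 z z)))))) (n 2 (n 0 z
 (n 0 z (n 0 z (n 0 z (n 0 z (n 0 z z)))))) z)))))) (n 0 z (n 0 z (n 0 z (n 0 z (n 0 z (n 0 z (n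
 0 z (n 0 z (n 0 z (n 0 z (n 0 z (n 0 z z))))))))))))) (n 291 (n 0 z (n 0 z (n 2 (n 0 z (n 0 z
 (n 1 z (n 2 (n 0 z (n 0 z (n 0 z (n 0 z (n 0 z (n 0 z z)))))) (n 2 (n 0 z (n 0 z (n 0 z (n 0 z
 (n 0 z (n 0 (n 1940 z z) z)))))) z))))) (n 0 z (n 0 z (n 0 z (n 0 z (n 0 z (n 0 z (n 0 z (n 0 z
 (n 0 z (n 0 z z))))))))))))) (n 291 (n 0 z (n 0 z (n 0 z (n 0 z (n 0 z (n 0 z (n 0 z (n 0 z (n
 0 z (n 0 z (n 0 z (n 0 z (n 0 z z))))))))))))) (n 291 (n 0 z (n 0 z (n 0 z (n 0 z (n 0 z (n 0 z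
 (n 0 z (n 0 z (n 0 z (n 0 z (n 0 z (n 0 z (n 0 z z))))))))))))) (n 485 (n 0 z (n 0 z (n 0 z (n
 0 z (n 0 z (n 0 z (n 0 z z))))))) (n 485 (n 2 (n 0 z z) (n 0 z (n 0 z (n 0 z (n 0 z (n 0 z (n 0
 z z))))))) (n 485 (n 0 z (n 0 z (n 0 z (n 0 z (n 2 z (n 0 z (n 0 z z))))))) z))))))))))))) (n 0
 (n 0 z (n 0 z (n 0 z (n 263 (n 0 z (n 0 z (n 0 z (n 2 (n 1 z (n 2 (n 0 z (n 0 z (n 0 z (n 0 z
 (n 0 z (n 0 (n 204 z z) z)))))) (n 1 z (n 1 z (n 1 z (n 1 z (n 2 (n 0 z (n 0 z (n 0 z (n 0 z (n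
 0 z (n 0 z z)))))) (n 2 (n 0 z (n 0 z (n 0 z (n 0 z (n 0 z (n 0 z z)))))) z)))))))) (n 0 z (n 0
 z (n 0 z (n 0 z (n 0 z (n 0 z (n 0 z (n 0 z (n 0 z (n 0 z (n 0 z (n 0 z (n 0 z (n 0 z
 z)))))))))))))))))) (n 55 (n 0 z (n 0 z (n 0 z (n 0 z (n 0 z (n 0 z (n 0 z (n 0 z (n 0 z (n 0 z
 (n 0 z (n 2 (n 1 z (n 1 z (n 1 z (n 1 z (n 1 z (n 2 (n 0 z (n 0 z (n 0 z (n 0 z (n 0 z (n 0 z
 z)))))) (n 1 z z))))))) (n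
 0x3c760806397857d84806c749c6bb38185857b7b81798a6880697c67af2d6ba1a0546d6e929e72529bad7a9075885f7aa39a6154880049
 z (n 0 z (n 0 z (n 0 z (n 0 z (n 0 z (n 0 z (n 0 z (n 0 z (n 0 z (n 0 z (n 0 z (n 0 z
 z))))))))))))))))))))))))) (n 51 (n 0 z (n 0 z (n 2 (n 0 z (n 0 z (n 0 z (n 1 z (n 2 (n 0 z (n
 0 z (n 0 z (n 0 z (n 0 z (n 0 (n 8855811 z z) z)))))) (n 2 (n 0 z (n 0 z (n 0 z (n 0 z (n 0 z
 (n 0 z z)))))) z)))))) (n 0 z (n 0 z (n 0 z (n 0 z (n 0 z (n 0 z (n 0 z (n 0 z (n 0 z (n 0 z (n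
 0 z (n 0 z (n 0 z (n 0 z (n 0 z (n 0 z (n 0 z (n 0 z (n 0 z (n 0 z (n 0 z (n 0 z (n 0 z (n 0 z
 (n 0 z z)))))))))))))))))))))))))))) (n 51 (n 0 z (n 0 z (n 0 z (n 0 z (n 0 z (n 0 z (n 0 z (n
 0 z (n 0 z (n 0 z (n 0 z (n 0 z (n 0 z (n 0 z (n 0 z (n 0 z (n 0 z (n 0 z (n 0 z (n 0 z (n 0 z
 (n 0 z (n 0 z (n 0 z (n 0 z (n 0 z (n 0 z (n 0 z z)))))))))))))))))))))))))))) (n 51 (n 0 z (n
 0 z (n 0 z (n 0 z (n 0 z (n 0 z (n 0 z (n 0 z (n 0 z (n 0 z (n 0 z (n 0 z (n 0 z (n 0 z (n 2 (n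
 0 z (n 1 z (n 2 (n 0 z (n 0 z (n 0 z (n 0 z (n 0 z (n 0 z z)))))) (n 1 z z)))) (n 0 z (n 0 z (n
 0 z (n 0 z (n 0 z (n 0 z (n 0 z (n 0 z (n 0 z (n 0 z (n 0 z (n 0 z (n 0 z
 z)))))))))))))))))))))))))))) (n 51 (n 0 z (n 0 z (n 0 z (n 0 z (n 0 z (n 0 z (n 0 z (n 0 z (n
 0 z (n 0 z (n 0 z (n 0 z (n 0 z (n 0 z (n 0 z (n 2 (n 1 z (n 2 (n 0 z (n 0 z (n 0 z (n 0 z (n 0
 z (n 0 z z)))))) (n 2 (n 0 z (n 0 z (n 0 z (n 0 z (n 0 z (n 0 z z)))))) z))) (n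
 0x2c760806892847e83807077976fa88284847d7c807a886c806e7d6ba53e6f9a9a5d71728e98755c96a47b8d7886657b9c94675d870049
 z (n 0 z (n 0 z (n 0 z (n 0 z (n 0 z (n 0 z (n 0 z (n 0 z (n 0 z (n 0 z (n 0 z
 z)))))))))))))))))))))))))))) (n 49 (n 0 z (n 2 (n 0 z (n 0 z z)) (n 0 z (n 0 z (n 0 z (n 0 z
 (n 0 z (n 0 z (n 0 z z))))))))) (n 49 (n 0 z (n 0 z (n 0 z (n 0 z (n 0 z (n 0 z (n 2 (n 0 z z)
 (n 0 z (n 0 z z))))))))) (n 49 (n 0 z (n 0 z (n 0 z (n 0 z (n 0 z (n 0 z (n 0 z (n 2 z (n 0 z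
 z))))))))) z)))))))))))) (n 0 (n 0 z (n 0 z (n 443 (n 0 z (n 0 z (n 0 z (n 0 z (n 0 z (n 0 z (n
 0 z (n 0 z (n 0 z z))))))))) (n 535 (n 0 z (n 0 z (n 0 z (n 0 z (n 0 z (n 0 z (n 0 z (n 0 z (n
 0 z (n 0 z (n 0 z (n 0 z (n 0 z (n 0 z (n 0 z (n 0 z (n 0 z (n 0 z (n 0 z (n 0 z (n 0 z (n 0 z
 (n 0 z (n 0 z (n 0 z (n 0 z (n 0 z (n 0 z (n 0 z z))))))))))))))))))))))))))))) (n 537 (n 0 z
 (n 0 z (n 0 z (n 0 z (n 0 z (n 0 z (n 0 z (n 0 z (n 0 z (n 0 z (n 0 z (n 0 z (n 0 z (n 0 z (n 0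
 z (n 0 z z)))))))))))))))) (n 537 (n 0 z (n 0 z (n 0 z (n 0 z (n 0 z (n 0 z (n 0 z (n 2 (n 0 z
 (n 0 z (n 2 (n 0 z (n 0 z (n 0 z (n 0 z (n 0 z (n 0 (n 2132 z z) z)))))) (n 1 z (n 1 z z)))))
 (n 0 z (n 0 z (n 0 z (n 0 z (n 0 z (n 0 z (n 0 z (n 0 z z)))))))))))))))) (n 537 (n 0 z (n 0 z
 (n 0 z (n 0 z (n 0 z (n 0 z (n 0 z (n 0 z (n 0 z (n 0 z (n 0 z (n 0 z (n 0 z (n 0 z (n 0 z (n 0
 z z)))))))))))))))) (n 537 (n 0 z (n 0 z (n 0 z (n 0 z (n 0 z (n 0 z (n 0 z (n 0 z (n 0 z (n 2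
 (n 1 z (n 2 (n 0 z (n 0 z (n 0 z (n 0 z (n 0 z (n 0 z z)))))) (n 1 z z))) (n 0 z (n 0 z (n 0 z
 (n 0 z (n 0 z (n 0 z z)))))))))))))))) (n 533 (n 0 z (n 0 z (n 0 z (n 0 z (n 0 z (n 0 z (n 0 z
 (n 0 z (n 0 z (n 0 z z)))))))))) (n 533 (n 0 z (n 0 z (n 0 z (n 0 z (n 0 z (n 0 z (n 0 z (n 0 z
 (n 0 z (n 0 z z)))))))))) (n 533 (n 0 z (n 0 z (n 0 z (n 0 z (n 0 z (n 2 z (n 0 z (n 0 z (n 0 z
 (n 0 z z)))))))))) z))))))))))) (n 0 (n 0 z (n 423 (n 0 z (n 0 z (n 0 z (n 0 z (n 0 z (n 0 z (n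
 0 z (n 2 (n 1 z (n 2 (n 0 z (n 0 z (n 0 z (n 0 z (n 0 z (n 0 z z)))))) (n 2 (n 0 z (n 0 z (n 0
 z (n 0 z (n 0 z (n 0 z z)))))) (n 2 (n 0 z (n 0 z (n 0 z (n 0 z (n 0 z (n 0 (n 8859987 z z)
 z)))))) (n 2 (n 0 z (n 0 z (n 0 z (n 0 z (n 0 z (n 0 (n 8873267 z z) z)))))) (n 1 z (n 2 (n 0 z
 (n 0 z (n 0 z (n 0 z (n 0 z (n 0 z z)))))) (n 2 (n 0 z (n 0 z (n 0 z (n 0 z (n 0 z (n 0 z
 z)))))) z)))))))) (n 0 z (n 0 z z)))))))))) (n 321 (n 0 z (n 0 z (n 0 z (n 0 z (n 0 z (n 0 z (n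
 0 z (n 0 z (n 2 (n 2 (n 0 z (n 0 z (n 0 z (n 0 z (n 0 z (n 0 (n 2148 z z) z)))))) (n 2 (n 0 z
 (n 0 z (n 0 z (n 0 z (n 0 z (n 0 z z)))))) (n 2 (n 0 z (n 0 z (n 0 z (n 0 z (n 0 z (n 0 (n
 8859987 z z) z)))))) (n 1 z (n 1 z (n 2 (n 0 z (n 0 z (n 0 z (n 0 z (n 0 z (n 0 z z)))))) (n 2
 (n 0 z (n 0 z (n 0 z (n 0 z (n 0 z (n 0 z z)))))) z))))))) (n 0 z (n 0 z (n 0 z (n 0 z (n 0 z
 (n 0 z (n 0 z (n 0 z (n 0 z (n 0 z (n 0 z (n 0 z (n 0 z (n 0 z (n 0 z (n 0 z (n 0 z (n 0 z (n 0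
 z (n 0 z z))))))))))))))))))))))))))))) (n 537 (n 0 z (n 2 (n 0 z (n 0 z (n 0 z (n 1 z (n 1 z
 (n 2 (n 0 z (n 0 z (n 0 z (n 0 z (n 0 z (n 0 z z)))))) z)))))) (n 0 z (n 0 z (n 0 z (n 0 z (n 0
 z (n 0 z z)))))))) (n 537 (n 0 z (n 0 z (n 0 z (n 0 z (n 0 z (n 0 z (n 0 z (n 0 z z)))))))) (n
 537 (n 2 (n 0 z (n 2 (n 0 (n 8847899 z z) (n 0 z (n 0 (n 8847899 z z) (n 0 z (n 0 z (n 0 (n
 8847899 z (n 8847899 z z)) z)))))) (n 2 (n 0 (n 6492291 z z) (n 0 z (n 0 z (n 0 z (n 0 (n 1252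
 z z) (n 0 (n 7540867 z (n 8724851 z z)) z)))))) (n 2 (n 0 (n 1252 z z) (n 0 (n 1252 z z) (n 0 z
 (n 0 z (n 0 z (n 0 (n 1252 z (n 1252 z z)) z)))))) z)))) (n 0 z (n 0 z (n 0 z (n 0 z (n 0 z (n
 0 z (n 0 z z)))))))) (n 537 (n 0 z (n 0 z (n 0 z (n 0 z (n 0 z (n 0 z (n 2 (n 1 z (n 2 (n 0 z
 (n 0 z (n 0 z (n 0 z (n 0 z (n 0 z z)))))) (n 2 (n 0 z (n 0 z (n 0 z (n 0 z (n 0 z (n 0 z
 z)))))) z))) (n 0 z z)))))))) (n 313 (n 0 z (n 0 z (n 0 z (n 0 z (n 0 z (n 0 z (n 0 z (n 2 (n 0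
 z (n 0 z z)) (n 0 z (n 0 z z)))))))))) (n 313 (n 0 z (n 0 z (n 0 z (n 0 z (n 0 z (n 0 z (n 0 z
 (n 0 z (n 0 z (n 0 z z)))))))))) (n 313 (n 0 z (n 0 z (n 0 z (n 0 z (n 0 z (n 0 z (n 0 z (n 0 z
 (n 0 z (n 0 z z)))))))))) z)))))))))) (n 0 (n 395 (n 0 z (n 0 z (n 0 z (n 0 z (n 0 z (n 0 z (n
 0 z (n 0 z (n 0 z (n 0 z (n 0 z (n 0 z (n 0 z z))))))))))))) (n 487 (n 0 z (n 0 z (n 0 z (n 0 z
 (n 0 z (n 0 z (n 0 z (n 0 z (n 0 z (n 0 z (n 0 z (n 0 z (n 0 z (n 0 z (n 0 z (n 0 z (n 0 z (n 0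
 z (n 0 z (n 0 z (n 0 z (n 0 z (n 0 z (n 0 z (n 0 z z))))))))))))))))))))))))) (n 489 (n 0 z (n
 0 z (n 0 z (n 0 z (n 0 z (n 0 z (n 2 (n 0 z (n 0 z (n 0 z (n 1 z (n 2 (n 0 z (n 0 z (n 0 z (n 0
 z (n 0 z (n 0 z z)))))) (n 2 (n 0 z (n 0 z (n 0 z (n 0 z (n 0 z (n 0 z z)))))) z)))))) (n 0 z
 (n 0 z (n 0 z (n 0 z (n 0 z (n 0 z (n 0 z (n 0 z (n 0 z (n 0 z (n 0 z (n 0 z (n 0 z
 z)))))))))))))))))))) (n 489 (n 0 z (n 0 z (n 0 z (n 0 z (n 0 z (n 0 z (n 0 z (n 0 z (n 0 z (n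
 0 z (n 0 z (n 0 z (n 0 z (n 0 z (n 2 (n 0 z (n 0 z (n 1 z (n 2 (n 0 z (n 0 z (n 0 z (n 0 z (n 0
 z (n 0 z z)))))) (n 2 (n 0 z (n 0 z (n 0 z (n 0 z (n 0 z (n 0 z z)))))) z))))) (n 0 z (n 0 z (n
 0 z (n 0 z (n 0 z z)))))))))))))))))))) (n 489 (n 0 z (n 0 z (n 0 z (n 0 z (n 0 z (n 0 z (n 0 z
 (n 0 z (n 0 z (n 0 z (n 0 z (n 0 z (n 0 z (n 0 z (n 0 z (n 0 z (n 0 z (n 0 z (n 0 z (n 0 z
 z)))))))))))))))))))) (n 489 (n 0 z (n 0 z (n 0 z (n 0 z (n 0 z (n 0 z (n 0 z (n 0 z (n 0 z (n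
 0 z (n 0 z (n 0 z (n 0 z (n 0 z (n 0 z (n 0 z (n 0 z (n 0 z (n 0 z (n 0 z z))))))))))))))))))))
 (n 485 (n 0 z (n 0 z (n 0 z (n 0 z (n 0 z (n 0 z (n 0 z (n 0 z (n 0 z z))))))))) (n 485 (n 2 (n
 0 z z) (n 0 z (n 0 z (n 0 z (n 0 z (n 0 z (n 0 z (n 0 z (n 0 z z))))))))) (n 485 (n 0 z (n 0 z
 (n 0 z (n 0 z (n 0 z (n 2 z (n 0 z (n 0 z (n 0 z z))))))))) z))))))))) (n 0 (n 247 (n 0 z (n 0
 z (n 0 z (n 0 z (n 0 z (n 0 z (n 0 z z))))))) (n 15 (n 0 z (n 2 (n 0 z (n 0 z (n 0 z (n 1 z (n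
 2 (n 0 z (n 0 z (n 0 z (n 0 z (n 0 z (n 0 z z)))))) (n 2 (n 0 z (n 0 z (n 0 z (n 0 z (n 0 z (n
 0 z z)))))) z)))))) (n 0 z (n 0 z (n 0 z (n 0 z (n 0 z (n 0 z (n 0 z (n 0 z (n 0 z (n 0 z (n 0
 z (n 0 z z)))))))))))))) (n 15 (n 2 (n 0 z (n 0 z (n 1 z (n 2 (n 0 z (n 0 z (n 0 z (n 0 z (n 0
 z (n 0 z z)))))) (n 2 (n 0 z (n 0 z (n 0 z (n 0 z (n 0 z (n 0 z z)))))) z))))) (n 0 z (n 0 z (n
 0 z (n 0 z (n 0 z (n 0 z (n 0 z (n 0 z (n 0 z (n 0 z (n 0 z (n 0 z (n 0 z z)))))))))))))) (n 15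
 (n 0 z (n 0 z (n 0 z (n 0 z (n 0 z (n 0 z (n 0 z (n 0 z (n 0 z (n 0 z (n 0 z (n 0 z (n 0 z (n 0
 z z)))))))))))))) (n 15 (n 0 z (n 0 z (n 0 z (n 0 z (n 0 z (n 0 z (n 0 z (n 0 z (n 0 z (n 0 z
 (n 0 z (n 0 z (n 0 z (n 0 z z)))))))))))))) (n 241 (n 0 z (n 0 z (n 0 z (n 0 z (n 0 z (n 0 z (n
 0 z (n 0 z (n 0 z (n 0 z (n 0 z (n 0 z z)))))))))))) (n 241 (n 0 z (n 0 z (n 0 z (n 2 (n 0 z z)
 (n 0 z (n 0 z (n 0 z (n 0 z (n 0 z (n 0 z (n 0 z (n 0 z z)))))))))))) (n 241 (n 0 z (n 0 z (n 0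
 z (n 0 z (n 0 z (n 2 z (n 0 z (n 0 z (n 0 z (n 0 z (n 0 z (n 0 z z)))))))))))) z)))))))) (n 0
 (n 51 (n 0 z (n 2 (n 0 z (n 0 z (n 0 z (n 1 z (n 2 (n 0 z (n 0 z (n 0 z (n 0 z (n 0 z (n 0 z
 z)))))) (n 2 (n 0 z (n 0 z (n 0 z (n 0 z (n 0 z (n 0 (n 196 z z) z)))))) z)))))) (n 0 z (n 0 z
 (n 0 z (n 0 z (n 0 z (n 0 z (n 0 z (n 0 z (n 0 z (n 0 z (n 0 z (n 0 z (n 0 z z)))))))))))))))
 (n 51 (n 2 (n 0 z (n 0 z (n 1 z (n 2 (n 0 z (n 0 z (n 0 z (n 0 z (n 0 z (n 0 z z)))))) (n 2 (n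
 0 z (n 0 z (n 0 z (n 0 z (n 0 z (n 0 (n 196 z z) z)))))) z))))) (n 0 z (n 0 z (n 0 z (n 0 z (n
 0 z (n 0 z (n 0 z (n 0 z (n 0 z (n 0 z (n 0 z (n 0 z (n 0 z (n 0 z z))))))))))))))) (n 51 (n 0
 z (n 0 z (n 0 z (n 0 z (n 0 z (n 0 z (n 0 z (n 0 z (n 0 z (n 0 z (n 0 z (n 0 z (n 0 z (n 0 z (n
 0 z z))))))))))))))) (n 51 (n 0 z (n 0 z (n 0 z (n 0 z (n 0 z (n 0 z (n 0 z (n 0 z (n 0 z (n 0
 z (n 0 z (n 0 z (n 0 z (n 0 z (n 0 z z))))))))))))))) (n 49 (n 0 z (n 0 z (n 0 z (n 0 z (n 0 z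
 (n 0 z (n 0 z (n 0 z (n 0 z (n 0 z (n 0 z (n 0 z (n 0 z (n 0 z z)))))))))))))) (n 49 (n 0 z (n
 0 z (n 0 z (n 0 z (n 0 z (n 0 z (n 0 z (n 0 z (n 2 (n 0 z z) (n 0 z (n 0 z (n 0 z (n 0 z (n 0 z
 z)))))))))))))) (n 49 (n 0 z (n 0 z (n 0 z (n 0 z (n 0 z (n 0 z (n 2 z (n 0 z (n 0 z (n 0 z (n
 0 z (n 0 z (n 0 z (n 0 z z)))))))))))))) z))))))) (n 0 (n 0 z (n 0 z (n 0 z (n 73 (n 0 z (n 0 z
 (n 0 z (n 0 z (n 0 z (n 0 z (n 0 z (n 0 z (n 0 z (n 0 z (n 0 z (n 0 z (n 0 z (n 0 z (n 0 z (n 0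
 z (n 0 z (n 0 z (n 0 z (n 0 z (n 0 z (n 0 z (n 0 z (n 0 z (n 0 z (n 0 z (n 2 (n 0 z (n 0 z z))
 (n 0 z (n 0 z (n 0 z (n 0 z (n 0 z (n 0 z (n 0 z (n 0 z (n 0 z (n 0 z (n 0 z (n 0 z (n 0 z (n 0
 z (n 0 z (n 0 z (n 0 z (n 0 z (n 0 z (n 0 z z))))))))))))))))))))))))))))))))))))))))))))))) (n
 73 (n 0 z (n 0 z (n 0 z (n 0 z (n 0 z (n 0 z (n 0 z (n 0 z (n 0 z (n 0 z (n 0 z (n 0 z (n 0 z
 (n 0 z (n 0 z (n 0 z (n 0 z (n 0 z (n 0 z (n 0 z (n 0 z (n 0 z (n 0 z (n 0 z (n 0 z (n 0 z (n 0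
 z (n 0 z (n 0 z (n 0 z (n 0 z (n 0 z (n 0 z (n 0 z (n 0 z (n 0 z (n 0 z (n 0 z (n 0 z (n 0 z (n
 0 z (n 0 z (n 0 z (n 0 z (n 0 z (n 0 z (n 0 z z)))))))))))))))))))))))))))))))))))))))))))))))
 (n 73 (n 0 z (n 0 z (n 0 z (n 0 z (n 0 z (n 0 z (n 0 z (n 0 z (n 0 z (n 0 z (n 0 z (n 0 z (n 0
 z (n 0 z (n 0 z (n 0 z (n
 0x4abb0009c7607ff7c38408008248207f180a8127fd85c7e07ac84a7db8047a280380186085b8017f379f80a75d81c7fd88c8027d98247b87f07ee8038837b58158217d07d57c88017ea8037c47ec8498190091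
 z (n 0x1c7608207e27e18207df79f8e28617a07217e081f85f7a08617df7e185d86182082086081f79f7e00041 z
 (n 0 z (n 0 z (n 0 z (n 0 z (n 0 z (n 0 z (n 0 z (n 0 z (n 0 z (n 0 z (n 0 z (n 0 z (n 0 z (n 0
 z (n 0 z (n 0 z (n 0 z (n 0 z (n 0 z (n 0 z (n 0 z (n 0 z (n 0 z (n 0 z (n 0 z (n 0 z (n 0 z (n
 0 z (n 0 z z))))))))))))))))))))))))))))))))))))))))))))))) z)))))) (n 0 (n 0 z (n 0 z (n 1 (n
 0 z (n 0 z (n 0 z (n 2 (n 0 z (n 0 z z)) (n 0 z (n 0 z (n 0 z (n 0 z z)))))))) (n 1 (n 0 z (n 0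
 z (n 0 z (n 0 z (n 0 z (n 0 z (n 0 z (n 0 z z)))))))) (n 1 (n 0 z (n 0 z (n 0 z (n 0 z (n 0 z
 (n 0 z (n 0 z (n 0 z z)))))))) z))))) (n 0 (n 0 z (n 1 (n 0 z (n 0 z (n 0 z (n 0 z (n 0 z (n 0
 z (n 0 z (n 0 z (n 0 z z))))))))) (n 1 (n 2 (n 0 z z) (n 0 z (n 0 z (n 0 z (n 0 z (n 0 z (n 0 z
 (n 0 z (n 0 z z))))))))) (n 1 (n 0 z (n 0 z (n 0 z (n 0 z (n 0 z (n 2 z (n 0 z (n 0 z (n 0 z
 z))))))))) z)))) (n 0 (n 1 (n 0 z (n 0 z (n 0 z (n 0 z (n 0 z (n 0 z (n 0 z (n 0 z (n 0 z (n 0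
 z (n 0 z (n 0 z (n 0 z (n 0 z z)))))))))))))) (n 1 (n 0 z (n 0 z (n 0 z (n 0 z (n 0 z (n 0 z (n
 2 (n 0 z z) (n 0 z (n 0 z (n 0 z (n 0 z (n 0 z (n 0 z (n 0 z z)))))))))))))) (n 1 (n 0 z (n 0 z
 (n 0 z (n 2 z (n 0 z (n 0 z (n 0 z (n 0 z (n 0 z (n 0 z (n 0 z (n 0 z (n 0 z (n 0 z
 z)))))))))))))) z))) (n 0 (n 0 z (n 0 z z)) (n 0 (n 0 z z) (n 0 z z))))))))))))))) (n 0 (n 1 (n
 3212843 z (n 3212843 z (n 3212843 z (n 3212843 z (n 3212843 z (n 3212843 z z)))))) (n 0 z (n 0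
 z (n 1 (n 2588 z (n 2 z (n 2588 z (n 2588 z (n 2588 z (n 2588 z z)))))) z)))) (n 0 (n
 0x62c85d82964d68531c8832cc68d219aea61168d300 (n 0 (n 0 (n 7749923 z (n 7749923 z (n 7749923 z
 (n 7749923 z (n 7749923 z (n 7749923 z z)))))) z) (n 0 (n 15 (n 1 (n 2 z (n 7749923 z (n
 7607851 z (n 7733787 z (n 2588 z (n 2588 z z)))))) (n 1 (n 7610723 z (n 7749923 z (n 7610723 z
 (n 7610723 z (n 7610723 z (n 7610723 z z)))))) (n 1 (n 7671875 z (n 7749923 z (n 7671875 z (n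
 7671875 z (n 7671875 z (n 7671875 z z)))))) (n 0 z (n 0 z z))))) (n 257 (n 0 z (n 1 (n 2588 z
 (n 7610723 z (n 7607851 z (n 2588 z (n 10 z (n 2588 z z)))))) (n 1 (n 7671875 z (n 7671875 z (n
 7671875 z (n 7671875 z (n 7671875 z (n 7671875 z z)))))) (n 1 (n 7749923 z (n 7749923 z (n
 7749923 z (n 7749923 z (n 7749923 z (n 7749923 z z)))))) (n 1 (n 7607851 z (n 7610723 z (n 2588
 z (n 1580 z (n 2588 z (n 2588 z z)))))) (n 0 z (n 1 (n 7607851 z (n 7610723 z (n 18 z (n 2588 z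
 (n 2588 z (n 2588 z z)))))) (n 1 (n 7749923 z (n 7749923 z (n 7749923 z (n 7749923 z (n 7749923
 z (n 7749923 z z)))))) (n 0 z z))))))))) (n 9 (n 1 (n 7742491 z (n 7610723 z (n 7742491 z (n
 7742491 z (n 7742491 z (n 7742491 z z)))))) (n 0 z (n 0 z (n 1 (n 7745875 z (n 7745875 z (n
 7745875 z (n 7745875 z (n 7745875 z (n 7745875 z z)))))) z)))) (n 27 (n 1 (n 7749923 z (n
 7749923 z (n 7749923 z (n 7749923 z (n 7749923 z (n 7749923 z z)))))) (n 1 (n 7745875 z (n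
 7745875 z (n 7745875 z (n 7745875 z (n 7745875 z (n 7745875 z z)))))) (n 0 z (n 0 z (n 0 z
 z))))) (n 1 (n 1 (n 7607851 z (n 7610723 z (n 7677467 z (n 26 z (n 1276 z (n 1276 z z)))))) (n
 1 (n 1276 z (n 7610723 z (n 1276 z (n 6496371 z (n 7677467 z (n 76 z z)))))) (n 1 (n 7607851 z
 (n 7610723 z (n 34 z (n 7677467 z (n 1276 z (n 1276 z z)))))) (n 1 (n 1276 z (n 7610723 z (n
 1276 z (n 1276 z (n 6496371 z (n 7677467 z z)))))) (n 1 (n 7749923 z (n 7749923 z (n 7749923 z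
 (n 7749923 z (n 7749923 z (n 7749923 z z)))))) (n 1 (n 7745875 z (n 7745875 z (n 7745875 z (n
 7745875 z (n 7745875 z (n 7745875 z z)))))) (n 1 (n 7745875 z (n 7745875 z (n 7745875 z (n
 7745875 z (n 7745875 z (n 7745875 z z)))))) (n 1 (n 7749923 z (n 7749923 z (n 7749923 z (n
 7749923 z (n 7749923 z (n 7749923 z z)))))) (n 1 (n 6492275 z (n 7610723 z (n 7607851 z (n
 0x747507f629875948672806da2878e6a97857a698871969b7e695d6e746982ae97697b4b6b96709d937c7c707190517d737e7f7a8f0049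
 z (n 1276 z (n 1276 z z)))))) (n 1 (n 1276 z (n 7610723 z (n 1276 z (n 7677467 z (n 7607851 z
 (n 1276 z z)))))) (n 1 (n 7677467 z (n 7610723 z (n 6493963 z (n 7607851 z (n 6424379 z (n 1276
 z z)))))) (n 1 (n 7677467 z (n 7610723 z (n
 0xecaeca6037e08208208208208607df8208608a18207a17e082082081f8208207e082085f8208607e18200801 z (n
 7607851 z (n 1276 z (n 1276 z z)))))) z)))))))))))) (n 347 (n 1 (n 42 z (n 2108 z (n 2108 z (n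
 2108 z (n 2108 z (n 2108 z z)))))) (n 1 (n 7671875 z (n 7671875 z (n 7671875 z (n 7671875 z (n
 7671875 z (n 7671875 z z)))))) (n 0 z (n 0 z (n 1 (n 2108 z (n 2108 z (n 50 z (n 2108 z (n 2108
 z (n 2108 z z)))))) (n 1 (n 2108 z (n 2108 z (n 1132 z (n 2108 z (n 2108 z (n 2108 z z)))))) (n
 1 (n 7671875 z (n 7671875 z (n 7671875 z (n 7671875 z (n 7671875 z (n 7671875 z z))))))
 z))))))) (n 9 (n 1 (n 7742491 z (n 7749923 z (n 7742491 z (n 7742491 z (n 7742491 z (n 7742491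
 z z)))))) (n 0 z (n 0 z (n 1 (n 7745875 z (n 7749923 z (n 7745875 z (n 7745875 z (n 7745875 z
 (n 7745875 z z)))))) z)))) z))))))) (n 0 (n 0 (n 0 z (n 0 z (n 0 z (n 0 z (n 0 z (n 0 z (n 0 z
 z))))))) (n 0 (n 0 z (n 0 z (n 0 z (n 0 z (n 0 z (n 0 z z)))))) (n 0 (n 0 z (n 0 z (n 0 z (n 0
 z (n 0 z z))))) (n 0 (n 0 z (n 0 z (n 0 z (n 0 z z)))) (n 0 (n 0 z (n 0 z (n 0 z z))) (n 0 (n 0
 z (n 0 z z)) (n 0 (n 0 z z) z))))))) (n 0 (n 323 (n 0 (n 0 z (n 0 z (n 0 z (n 0 z (n 0 z (n 0 z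
 (n 0 z z))))))) (n 0 (n 0 z (n 0 z (n 0 z (n 0 z (n 0 z (n 0 z (n 0 z z))))))) (n 0 (n 0 z (n 0
 z (n 0 z (n 0 z (n 0 z (n 0 z (n 0 z z))))))) (n 0 (n 0 z (n 0 z (n 0 z (n 0 z (n 0 z (n 0 z (n
 0 z z))))))) (n 0 (n 0 z (n 0 z (n 0 z (n 0 z (n 0 z (n 0 z (n 0 z z))))))) (n 0 (n 0 z (n 0 z
 (n 0 z (n 0 z (n 0 z (n 0 z (n 0 z z))))))) (n 0 (n 0 z (n 0 z (n 0 z (n 0 z (n 0 z (n 0 z (n 0
 z z))))))) (n 0 (n 0 z (n 0 z (n 0 z (n 0 z (n 0 z (n 0 z (n 0 z z))))))) (n 0 (n 0 z (n 0 z (n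
 0 z (n 0 z (n 0 z (n 0 z (n 0 z z))))))) (n 0 (n 0 z (n 0 z (n 0 z (n 0 z (n 0 z (n 0 z (n 0 z
 z))))))) (n 0 (n 0 z (n 0 z (n 0 (n
 0x248747df7e27e28607e079f8e28627a06e17df81f89f7a18617a07a185d8a08218208207df7df7e00041 z (n
 7612475 z z)) (n 0 z (n 0 z (n 0 (n 8589427 z (n
 0x10eb086c0782082082082082081f85f8207e08a08208607e08208208208208208608208208208208208200801 z
 z)) (n 0 z z))))))) (n 0 (n 0 z (n 0 z (n 0 z (n 0 z (n 0 z (n 0 z (n 0 z z))))))) (n 0 (n 0 z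
 (n 0 z (n 0 z (n 0 z (n 0 z (n 0 z (n 0 z z))))))) (n 0 (n 0 z (n 0 z (n 0 z (n 0 z (n 0 z (n 0
 z (n 0 z z))))))) (n 0 (n 0 z (n 0 z (n 0 z (n 0 z (n 0 z (n 0 z (n 0 z z))))))) (n 0 (n 0 z (n
 0 z (n 0 z (n 0 z (n 0 z (n 0 z (n 0 z z))))))) (n 0 (n 0 z (n 0 z (n 0 z (n 0 z (n 0 z (n 0 z
 (n 0 z z))))))) (n 0 (n 0 z (n 0 z (n 0 z (n 0 z (n 0 z (n 0 z (n 0 z z))))))) (n 0 (n 0 z (n 0
 (n 8794451 z z) (n 0 z (n 0 z (n 0 z (n 0 z (n 0 z z))))))) (n 0 (n 0 z (n 0 z (n 0 z (n 0 (n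
 0xc8758207e18208207e08208208608207a18207e285f7e08608207e282081f8608608608207e07e00041 z (n
 0x30eb0ca60785f81f82181f8207e18217e085f7a18208208608207e17e082081e86082086082081f7e08200801 z
 z)) (n 0 (n
 0xc8758207e08208207e182082085f8207a18207a281f7e085f8207e182081f8618608608207e08200041 z (n
 0x10cb0a46077e182082082081f89e81e8df8208a18207a47df7e08607df8207e17e08218218617e07e181f0801 z
 z)) (n 0 z (n 0 (n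
 0x10e90e86078608217e07a07e081f86089f7a082082082285f7e186081f7e08208208208608207e08208210801 z
 (n 0x30cb0a46077a18607e082081f91d85d91e81e92182076679e7608e17df7e07e37a08618618227617a185f0801
 z z)) z))))))) z)))))))))))))))))))) (n 279 (n 0 (n 0 z (n 0 z (n 0 z (n 0 z (n 0 z (n 0 z (n 0
 z z))))))) (n 0 (n 0 z (n 0 z (n 0 z (n 0 z (n 0 z (n 0 z (n 0 z z))))))) (n 0 (n 0 z (n 0 z (n
 0 z (n 0 z (n 0 z (n 0 z (n 0 z z))))))) (n 0 (n 0 z (n 0 z (n 0 z (n 0 z (n 0 z (n 0 z (n 0 z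
 z))))))) (n 0 (n 0 (n
 0xc87482082082082082082086185f7e07e182082182082182082082181f85f8208607e185f81f8200041 z (n
 0x748417f629875948672806da2878e6a97857a698871969b7e695d6e746982ae97697b4b6b96709d937c7c707190517d737e7f7a8f0049
 z z)) (n 0 z (n 0 z (n 0 (n 7542795 z (n
 0x3c875806397857d84806c749c6bb38185857b7b81798a6880697c67af2d6ba1a0546d6e929e72529bad7a9075885f7aa39a6154880049
 z z)) (n 0 (n 7542795 z (n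
 0x748417f629875948672806da2878e6a97857a698871969b7e695d6e746982ae97697b4b6b96709d937c7c707190517d737e7f7a8f0049
 z z)) (n 0 (n
 0x748417f629875948672806da2878e6a97857a698871969b7e695d6e746982ae97697b4b6b96709d937c7c707190517d737e7f7a8f0049
 z (n
 0x748417f629875948672806da2878e6a97857a698871969b7e695d6e746982ae97697b4b6b96709d937c7c707190517d737e7f7a8f0049
 z z)) (n 0 (n 7542795 z (n
 0xb0e20c87182082082081f8208208608207e08218208217df7e08207e082082086082082082081f7e08200081 z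
 z)) z))))))) z))))) (n 317 (n 0 (n 0 z (n 0 z (n 0 z (n 0 z (n 0 z (n 0 z (n 0 z z))))))) (n 0
 (n 0 z (n 0 z (n 0 z (n 0 z (n 0 z (n 0 (n 8589427 z (n
 0x1b0e00c87082082082082082082085f8607e08218207e181f7e08207e08208208208208608208608208200081 z
 z)) (n 0 z z))))))) (n 0 (n 0 z (n 0 z (n 0 z (n 0 z (n 0 z (n 0 z (n 0 z z))))))) (n 0 (n 0 z
 (n 0 z (n 0 z (n 0 z (n 0 z (n 0 z (n 0 z z))))))) (n 0 (n 0 z (n 0 z (n 0 z (n 0 z (n 0 z (n 0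
 z (n 0 z z))))))) (n 0 (n 0 z (n 0 z (n 0 z (n 0 z (n 0 z (n 0 z (n 0 z z))))))) (n 0 (n 0 z (n
 0 z (n 0 z (n 0 z (n 0 z (n 0 z (n 0 z z))))))) (n 0 (n 0 z (n 0 z (n 0 z (n 0 z (n 0 z (n 0 z
 (n 0 z z))))))) (n 0 (n 0 z (n 0 z (n 0 z (n 0 z (n 0 z (n 0 z (n 0 z z))))))) (n 0 (n 0 z (n 0
 z (n 0 z (n 0 z (n 0 z (n 0 z (n 0 z z))))))) (n 0 (n 0 z (n 0 z (n 0 z (n 0 z (n 0 z (n 0 z (n
 0 z z))))))) (n 0 (n 0 z (n 0 z (n 0 z (n 0 z (n 0 z (n 0 z (n 0 z z))))))) (n 0 (n 0 z (n 0 z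
 (n 0 z (n 0 (n
 0xc8758207e08208207e182082085f8207a18207a281f7e085f8207e182081f8618608608207e08200041 z (n
 0x30eb0ca60785f81f82181f8207e28207e085f7e18208218208607e27e082081f82082186081f8207e07e00801 z
 z)) (n 0 (n
 0xc8758217e08208207e082082081f8207a18207a282082185f8607e082081e8618218608208207e00041 z (n
 8791819 z z)) (n 0 z (n 0 (n
 0x10e90e86078608217e07a07e081f86085f7a082082082185f7e086085f8218217e08208608208218208200801 z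
 (n 0x30cb0a86077e182085f8217e08df7dd85f8618a38206e47e082186185f8207e279f7e07df82282082185f0801
 z z)) z))))))) z))))))))))))) (n 303 (n 0 (n 0 z (n 0 z (n 0 z (n 0 z (n 0 z (n 0 z (n 0 z
 z))))))) (n 0 (n 0 z (n 0 z (n 0 z (n 0 z (n 0 z (n 0 z (n 0 z z))))))) (n 0 (n 0 z (n 0 z (n 0
 z (n 0 z (n 0 z (n 0 z (n 0 z z))))))) (n 0 (n 0 z (n 0 z (n 0 z (n 0 z (n 0 z (n 0 z (n 0 z
 z))))))) (n 0 (n 0 z (n 0 z (n 0 z (n 0 z (n 0 z (n 0 z (n 0 z z))))))) (n 0 (n 0 z (n 0 z (n 0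
 z (n 0 z (n 0 z (n 0 z (n 0 z z))))))) (n 0 (n 0 z (n 0 z (n 0 z (n 0 z (n 0 z (n 0 z (n 0 z
 z))))))) (n 0 (n 0 z (n 0 z (n 0 z (n 0 z (n 0 z (n 0 z (n 0 z z))))))) z)))))))) (n 249 (n 0
 (n 0 z (n 0 z (n 0 z (n 0 z (n 0 z (n 0 z (n 0 z z))))))) (n 0 (n 0 (n 8720451 z z) (n 0 z (n 0
 z (n 0 z (n 0 (n 8720451 z z) (n 0 z (n 0 z z))))))) (n 0 (n 0 (n 8873003 z z) (n 0 z (n 0 z (n
 0 z (n 0 (n 8587115 z z) (n 0 z (n 0 (n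
 0x4ac29009c8527ff7c38408008248207f180a8127fd85c7e07ac84a7db8047a280380186085b8017f379f80a75d81c7fd88c8027d98247b87f07ee8038837b58158217d07d57c88017ea8037c47ec8498190091
 z z) z))))))) (n 0 (n 0 z (n 0 z (n 0 z (n 0 z (n 0 z (n 0 z (n 0 z z))))))) (n 0 (n 0 z (n 0 z
 (n 0 z (n 0 z (n 0 z (n 0 z (n 0 z z))))))) (n 0 (n 0 z (n 0 z (n 0 z (n 0 z (n 0 z (n 0 z (n 0
 z z))))))) (n 0 (n 0 z (n 0 z (n 0 z (n 0 z (n 0 z (n 0 z (n 0 z z))))))) (n 0 (n 0 z (n 0 z (n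
 0 (n 8587115 z z) (n 0 (n
 0xc8708208218208207e07e08608207e07e18207e18207e08208207e181f8608208608208207e08200041 z z) (n 0
 z (n 0 z (n 0 z z))))))) (n 0 (n 0 (n
 0x248747df7e27e28607e079f8e28627a06e17df81f89f7a18617a07a185d8a08218208207df7df7e00041 z (n
 7612475 z z)) (n 0 z (n 0 (n
 0xc8748208218208207e07e08608207e07e18207e18207e08208207e181f8608208608208207e08200041 z (n
 8791819 z z)) (n 0 (n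
 0x748767f629875948672806da2878e6a97857a698871969b7e695d6e746982ae97697b4b6b96709d937c7c707190517d737e7f7a8f0049
 z (n
 0x30c6e80a078208218208207e081f8608607e08208207e18207e085f85f8208218208208208208208208200801 z
 z)) (n 0 (n
 0x248767df7e27e28607e079f8e28627a06e17df81f89f7a18617a07a185d8a08218208207df7df7e00041 z (n
 8587115 z z)) (n 0 z (n 0 z z))))))) (n 0 (n 0 (n 8720451 z (n 8720451 z z)) (n 0 z (n 0 (n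
 8720451 z (n 8720451 z z)) (n 0 (n 8720451 z (n 8720451 z z)) (n 0 (n 8720451 z (n 8720451 z
 z)) (n 0 (n 8720451 z (n 8720451 z z)) (n 0 z z))))))) (n 0 (n 0 z (n 0 z (n 0 z (n 0 z (n 0 z
 (n 0 z (n 0 z z))))))) (n 0 (n 0 z (n 0 z (n 0 z (n 0 (n 8855811 z (n 8855811 z z)) (n 0 (n
 0x248607df7e27e28607e079f8e28627a06e17df81f89f7a18617a07a185d8a08218208207df7df7e00041 z (n
 0x248607df7e27e28607e079f8e28627a06e17df81f89f7a18617a07a185d8a08218208207df7df7e00041 z z)) (n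
 0 z (n 0 (n
 0x248607df7e27e28607e079f8e28627a06e17df81f89f7a18617a07a185d8a08218208207df7df7e00041 z (n
 0x248607df7e27e28607e079f8e28627a06e17df81f89f7a18617a07a185d8a08218208207df7df7e00041 z z))
 z))))))) (n 0 (n 0 (n 8794451 z z) (n 0 z (n 0 (n 8794451 z z) (n 0 z (n 0 z (n 0 z (n 0 z
 z))))))) (n 0 (n 0 z (n 0 z (n 0 z (n 0 z (n 0 z (n 0 z (n 0 z z))))))) (n 0 (n 0 z (n 0 z (n 0
 (n 8794451 z z) (n 0 (n 8794451 z z) (n 0 z (n 0 z (n 0 z z))))))) (n 0 (n 0 (n 8794451 z (n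
 8794451 z z)) (n 0 z (n 0 (n 8794451 z (n 8794451 z z)) (n 0 z (n 0 z (n 0 z (n 0 z z))))))) (n
 0 (n 0 z (n 0 z (n 0 (n 8794451 z (n 8794451 z z)) (n 0 (n 8794451 z (n 8794451 z z)) (n 0 z (n
 0 (n 8794451 z (n 8794451 z z)) (n 0 (n 8794451 z (n 8794451 z z)) z))))))) (n 0 (n 0 z (n 0 z
 (n 0 z (n 0 z (n 0 z (n 0 z (n 0 z z))))))) (n 0 (n 0 z (n 0 z (n 0 z (n 0 z (n 0 z (n 0 (n
 8659299 z z) (n 0 z z))))))) (n 0 (n 0 z (n 0 z (n 0 z (n 0 z (n 0 z (n 0 z (n 0 z z))))))) (n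
 0 (n 0 z (n 0 z (n 0 z (n 0 z (n 0 z (n 0 z (n 0 z z))))))) (n 0 (n 0 z (n 0 z (n 0 z (n 0 (n
 8659299 z z) (n 0 z (n 0 (n 8659299 z z) (n 0 z z))))))) (n 0 (n 0 z (n 0 z (n 0 z (n 0 z (n 0
 z (n 0 z (n 0 z z))))))) (n 0 (n 0 (n 8873003 z z) (n 0 z (n 0 (n 8873003 z z) (n 0 z (n 0 z (n
 0 z (n 0 z z))))))) (n 0 (n 0 (n 8791819 z (n 8656427 z z)) (n 0 (n 8656427 z (n 8656427 z z))
 (n 0 z (n 0 (n 8855811 z (n 8855811 z z)) (n 0 (n 8656427 z (n 8656427 z z)) (n 0 (n 8855811 z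
 (n 8855811 z z)) (n 0 z z))))))) z))))))))))))))))))))))))) (n 129 (n 0 (n 0 (n
 0xc8758207e08208207e182082085f8207a18207a281f7e085f8207e182081f8618608608207e08200041 z z) (n 0
 z (n 0 (n 0xc8758207e08208207e182082085f8207a18207a281f7e085f8207e182081f8618608608207e08200041
 z z) (n 0 z (n 0 z (n 0 z (n 0 z z))))))) (n 0 (n 0 z (n 0 z (n 0 z (n 0 z (n 0 z (n 0 z (n 0 z
 z))))))) (n 0 (n 0 z (n 0 z (n 0 z (n 0 z (n 0 z (n 0 z (n 0 z z))))))) (n 0 (n 0 (n 8794451 z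
 z) (n 0 z (n 0 (n 8794451 z z) (n 0 z (n 0 z (n 0 z (n 0 z z))))))) (n 0 (n 0 z (n 0 z (n 0 (n
 8794451 z (n 8794451 z z)) (n 0 (n 8794451 z (n 8794451 z z)) (n 0 z (n 0 (n 8794451 z (n
 8794451 z z)) (n 0 (n 8794451 z (n 8794451 z z)) z))))))) (n 0 (n 0 z (n 0 z (n 0 z (n 0 z (n 0
 z (n 0 z (n 0 z z))))))) (n 0 (n 0 z (n 0 z (n 0 z (n 0 z (n 0 z (n 0 z (n 0 z z)))))))
 z))))))) (n 159 (n 0 (n 0 z (n 0 z (n 0 z (n 0 z (n 0 z (n 0 z (n 0 z z))))))) (n 0 (n 0 z (n 0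
 z (n 0 (n 8587115 z z) (n 0 z (n 0 z (n 0 (n
 0x748737f629875948672806da2878e6a97857a698871969b7e695d6e746982ae97697b4b6b96709d937c7c707190517d737e7f7a8f0049
 z z) (n 0 z z))))))) (n 0 (n 0 z (n 0 z (n 0 z (n 0 z (n 0 z (n 0 z (n 0 z z))))))) (n 0 (n 0 z
 (n 0 z (n 0 z (n 0 z (n 0 z (n 0 z (n 0 z z))))))) (n 0 (n 0 z (n 0 z (n 0 z (n 0 z (n 0 z (n 0
 z (n 0 z z))))))) (n 0 (n 0 z (n 0 z (n 0 z (n 0 z (n 0 z (n 0 z (n 0 z z))))))) (n 0 (n 0 z (n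
 0 z (n 0 z (n 0 z (n 0 z (n 0 z (n 0 z z))))))) (n 0 (n 0 z (n 0 z (n 0 z (n 0 z (n 0 z (n 0 z
 (n 0 z z))))))) (n 0 (n 0 z (n 0 z (n 0 z (n 0 z (n 0 z (n 0 z (n 0 z z))))))) (n 0 (n 0 z (n 0
 z (n 0 z (n 0 z (n 0 z (n 0 z (n 0 z z))))))) (n 0 (n 0 z (n 0 z (n 0 z (n 0 z (n 0 z (n 0 (n
 8656427 z z) (n 0 z z))))))) (n 0 (n 0 z (n 0 z (n 0 z (n 0 (n 8659299 z z) (n 0 (n 8659299 z
 z) (n 0 z (n 0 (n 8659299 z z) z))))))) (n 0 (n 0 z (n 0 z (n 0 z (n 0 (n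
 0x248717df7e27e28607e079f8e28627a06e17df81f89f7a18617a07a185d8a08218208207df7df7e00041 z z) (n
 0 (n
 0x748717f629875948672806da2878e6a97857a698871969b7e695d6e746982ae97697b4b6b96709d937c7c707190517d737e7f7a8f0049
 z z) (n 0 z (n 0 z z))))))) z))))))))))))) (n 257 (n 0 (n 0 z (n 0 z (n 0 z (n 0 z (n 0 z (n 0
 z (n 0 z z))))))) (n 0 (n 0 z (n 0 z (n 0 z (n 0 z (n 0 z (n 0 z (n 0 z z))))))) (n 0 (n 0 (n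
 0xc8758207e08208207e182082085f8207a18207a281f7e085f8207e182081f8618608608207e08200041 z (n
 8791819 z z)) (n 0 (n 8783675 z (n 8791899 z z)) (n 0 z (n 0 z (n 0 (n
 0xc8758207e08208207e182082085f8207a18207a281f7e085f8207e182081f8618608608207e08200041 z (n
 8791819 z z)) (n 0 z (n 0 (n
 0x3c876806397857d84806c749c6bb38185857b7b81798a6880697c67af2d6ba1a0546d6e929e72529bad7a9075885f7aa39a6154880049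
 z (n
 0x30c70c0a037a18607e082081f91d85d91e81e92182076679e7608e17df7e07e37a08618618227617a185f0801 z
 z)) z))))))) (n 0 (n 0 z (n 0 z (n 0 z (n 0 z (n 0 z (n 0 z (n 0 z z))))))) (n 0 (n 0 z (n 0 z
 (n 0 z (n 0 z (n 0 z (n 0 z (n 0 z z))))))) (n 0 (n 0 z (n 0 z (n 0 z (n 0 z (n 0 z (n 0 z (n 0
 z z))))))) (n 0 (n 0 z (n 0 z (n 0 z (n 0 z (n 0 z (n 0 z (n 0 z z))))))) (n 0 (n 0 z (n 0 z (n
 0 z (n 0 z (n 0 z (n 0 z (n 0 z z))))))) (n 0 (n 0 z (n 0 z (n 0 z (n 0 z (n 0 z (n 0 z (n 0 z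
 z))))))) (n 0 (n 0 z (n 0 z (n 0 z (n 0 z (n 0 z (n 0 z (n 0 z z))))))) (n 0 (n 0 z (n 0 z (n 0
 z (n 0 z (n 0 z (n 0 z (n 0 z z))))))) (n 0 (n 0 z (n 0 z (n 0 z (n 0 z (n 0 z (n 0 z (n 0 z
 z))))))) (n 0 (n 0 z (n 0 z (n 0 z (n 0 z (n 0 z (n 0 (n 8798499 z z) (n 0 z z))))))) (n 0 (n 0
 (n
 0x748727f629875948672806da2878e6a97857a698871969b7e695d6e746982ae97697b4b6b96709d937c7c707190517d737e7f7a8f0049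
 z z) (n 0 z (n 0 z (n 0 z (n 0 z (n 0 z (n 0 z z))))))) (n 0 (n 0 z (n 0 z (n 0 z (n 0 z (n 0 z
 (n 0 z (n 0 z z))))))) (n 0 (n 0 z (n 0 z (n 0 z (n 0 z (n 0 z (n 0 z (n 0 z z))))))) (n 0 (n 0
 z (n 0 z (n 0 (n
 0xc8758207e08208207e182082085f8207a18207a281f7e085f8207e182081f8618608608207e08200041 z z) (n 0
 (n 0xc8758207e08208207e182082085f8207a18207a281f7e085f8207e182081f8618608608207e08200041 z z)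
 (n 0 z (n 0 z (n 0 z z))))))) (n 0 (n 0 z (n 0 z (n 0 z (n 0 z (n 0 z (n 0 z (n 0 (n
 0x748327f629875948672806da2878e6a97857a698871969b7e695d6e746982ae97697b4b6b96709d937c7c707190517d737e7f7a8f0049
 z z) z))))))) (n 0 (n 0 z (n 0 z (n 0 z (n 0 z (n 0 z (n 0 z (n 0 z z))))))) (n 0 (n 0 (n
 0xc8758208217e08207e082082085f8207a18207e281f7e085e8607e182081f8618608608207e07df0041 z (n
 0x4ac30009c8607ff7c38408008248207f180a8127fd85c7e07ac84a7db8047a280380186085b8017f379f80a75d81c7fd88c8027d98247b87f07ee8038837b58158217d07d57c88017ea8037c47ec8498190091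
 z z)) (n 0 (n
 0xc8738208218208207e07e08608207e07e18207e18207e08208207e181f8608208608208207e08200041 z (n
 8783675 z z)) (n 0 z (n 0 z (n 0 (n
 0xc8758207e08208207e182082085f8207a18207a281f7e085f8207e182081f8618608608207e08200041 z (n
 0x4ac30009c8607ff7c38408008248207f180a8127fd85c7e07ac84a7db8047a280380186085b8017f379f80a75d81c7fd88c8027d98247b87f07ee8038837b58158217d07d57c88017ea8037c47ec8498190091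
 z z)) (n 0 z (n 0 (n
 0x4ac30009c8607ff7c38408008248207f180a8127fd85c7e07ac84a7db8047a280380186085b8017f379f80a75d81c7fd88c8027d98247b87f07ee8038837b58158217d07d57c88017ea8037c47ec8498190091
 z (n 8787723 z z)) z))))))) z)))))))))))))))))))) (n 9 (n 0 (n 0 z (n 0 z (n 0 z (n 0 z (n 0 z
 (n 0 z (n 0 z z))))))) (n 0 (n 0 z (n 0 z (n 0 z (n 0 z (n 0 z (n 0 z (n 0 z z))))))) (n 0 (n 0
 z (n 0 z (n 0 (n 8587115 z z) (n 0 z (n 0 z (n 0 (n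
 0x5c8707f69937790847580709b858b6f92847b6e867492967e6d6572776d80a5936d7b556f9274978f7c7d73738e5b7e757f7f7b8c0049
 z z) (n 0 z z))))))) (n 0 (n 0 z (n 0 z (n 0 z (n 0 z (n 0 z (n 0 z (n 0 z z))))))) (n 0 (n 0 z
 (n 0 z (n 0 z (n 0 z (n 0 z (n 0 z (n 0 z z))))))) (n 0 (n 0 z (n 0 z (n 0 z (n 0 z (n 0 z (n 0
 z (n 0 z z))))))) (n 0 (n 0 z (n 0 z (n 0 z (n 0 z (n 0 z (n 0 z (n 0 z z))))))) (n 0 (n 0 (n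
 0x30caeca60782082086082082081f85f81f8218208208208208208208208208208208208208208208208200801 z
 z) (n 0 z (n 0 z (n 0 (n
 0x748707f629875948672806da2878e6a97857a698871969b7e695d6e746982ae97697b4b6b96709d937c7c707190517d737e7f7a8f0049
 z z) (n 0 z (n 0 z (n 0 z z))))))) (n 0 (n 0 z (n 0 z (n 0 z (n 0 z (n 0 z (n 0 (n 8659299 z z)
 (n 0 z z))))))) (n 0 (n 0 z (n 0 z (n 0 z (n 0 z (n 0 z (n 0 z (n 0 (n 3213435 z z) z))))))) (n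
 0 (n 0 z (n 0 z (n 0 z (n 0 z (n 0 z (n 0 (n 8855811 z z) (n 0 z z))))))) (n 0 (n 0 z (n 0 z (n
 0 z (n 0 z (n 0 z (n 0 (n
 0x148718207e18208207e07e08a08207e07e18208218207e18208207e181f85f82186082085f7e081f0041 z z) (n
 0 z z))))))) (n 0 (n 0 z (n 0 z (n 0 z (n 0 z (n 0 z (n 0 z (n 0 z z))))))) (n 0 (n 0 z (n 0 z
 (n 0 (n 8873267 z z) (n 0 z (n 0 z (n 0 (n
 0x748717f629875948672806da2878e6a97857a698871969b7e695d6e746982ae97697b4b6b96709d937c7c707190517d737e7f7a8f0049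
 z z) (n 0 z z))))))) z)))))))))))))) (n 27 (n 0 (n 0 z (n 0 z (n 0 z (n 0 z (n 0 z (n 0 z (n 0
 z z))))))) (n 0 (n 0 z (n 0 z (n 0 z (n 0 z (n 0 z (n 0 z (n 0 z z))))))) (n 0 (n 0 z (n 0 z (n
 0 (n 0xc8758217e08208207e082082081f8207a18207a281f7e089f82082182081f8618208207e07e08200041 z z)
 (n 0 (n 8587035 z z) (n 0 z (n 0 z (n 0 z z))))))) (n 0 (n 0 z (n 0 z (n 0 (n 8587115 z z) (n 0
 z (n 0 z (n 0 (n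
 0x748707f629875948672806da2878e6a97857a698871969b7e695d6e746982ae97697b4b6b96709d937c7c707190517d737e7f7a8f0049
 z z) (n 0 z z))))))) (n 0 (n 0 z (n 0 z (n 0 z (n 0 z (n 0 z (n 0 z (n 0 z z))))))) (n 0 (n 0 z
 (n 0 z (n 0 z (n 0 z (n 0 z (n 0 z (n 0 z z))))))) (n 0 (n 0 z (n 0 z (n 0 z (n 0 z (n 0 z (n 0
 z (n 0 z z))))))) (n 0 (n 0 z (n 0 z (n 0 z (n 0 z (n 0 z (n 0 z (n 0 z z))))))) (n 0 (n 0 z (n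
 0 z (n 0 z (n 0 z (n 0 z (n 0 z (n 0 z z))))))) (n 0 (n 0 z (n 0 z (n 0 z (n 0 z (n 0 z (n 0 z
 (n 0 z z))))))) (n 0 (n 0 (n 8794451 z (n 8794451 z z)) (n 0 z (n 0 (n 8794451 z (n 8794451 z
 z)) (n 0 (n 8794451 z (n 8794451 z z)) (n 0 (n 8794451 z (n 8794451 z z)) (n 0 (n 8794451 z (n
 8794451 z z)) (n 0 (n 8794451 z (n 8794451 z z)) z))))))) (n 0 (n 0 z (n 0 z (n 0 z (n 0 (n
 0x748707f629875948672806da2878e6a97857a698871969b7e695d6e746982ae97697b4b6b96709d937c7c707190517d737e7f7a8f0049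
 z z) (n 0 (n
 0x248767df7e27e28607e079f8e28627a06e17df81f89f7a18617a07a185d8a08218208207df7df7e00041 z z) (n
 0 z (n 0 z z))))))) (n 0 (n 0 z (n 0 z (n 0 z (n 0 z (n 0 z (n 0 z (n 0 (n 2164859 z z)
 z))))))) (n 0 (n 0 z (n 0 z (n 0 z (n 0 z (n 0 z (n 0 z (n 0 z z))))))) (n 0 (n 0 z (n 0 z (n 0
 z (n 0 z (n 0 z (n 0 (n 8656427 z z) (n 0 z z))))))) z))))))))))))))) (n 347 (n 0 (n 0 z (n 0 z
 (n 0 z (n 0 z (n 0 z (n 0 z (n 0 z z))))))) (n 0 (n 0 z (n 0 z (n 0 z (n 0 z (n 0 z (n 0 z (n 0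
 z z))))))) (n 0 (n 0 z (n 0 z (n 0 z (n 0 z (n 0 z (n 0 z (n 0 z z))))))) (n 0 (n 0 z (n 0 z (n
 0 z (n 0 z (n 0 z (n 0 z (n 0 z z))))))) (n 0 (n 0 z (n 0 z (n 0 z (n 0 z (n 0 z (n 0 z (n 0 z
 z))))))) (n 0 (n 0 z (n 0 z (n 0 z (n 0 z (n 0 z (n 0 z (n 0 z z))))))) (n 0 (n 0 z (n 0 z (n 0
 z (n 0 z (n 0 z (n 0 z (n 0 z z))))))) z))))))) (n 263 (n 0 (n 0 z (n 0 z (n 0 z (n 0 z (n 0 z
 (n 0 z (n 0 z z))))))) (n 0 (n 0 z (n 0 z (n 0 z (n 0 z (n 0 z (n 0 z (n 0 z z))))))) (n 0 (n 0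
 z (n 0 z (n 0 z (n 0 z (n 0 z (n 0 z (n 0 z z))))))) (n 0 (n 0 z (n 0 z (n 0 z (n 0 z (n 0 z (n
 0 z (n 0 z z))))))) (n 0 (n 0 z (n 0 z (n 0 z (n 0 z (n 0 z (n 0 z (n 0 z z))))))) (n 0 (n 0 z
 (n 0 z (n 0 z (n 0 z (n 0 z (n 0 z (n 0 z z))))))) (n 0 (n 0 z (n 0 z (n 0 z (n 0 z (n 0 z (n 0
 z (n 0 z z))))))) (n 0 (n 0 z (n 0 z (n 0 z (n 0 z (n 0 z (n 0 z (n 0 z z))))))) (n 0 (n 0 z (n
 0 z (n 0 z (n 0 z (n 0 z (n 0 z (n 0 z z))))))) z))))))))) (n 141 (n 0 (n 0 z (n 0 z (n 0 z (n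
 0 z (n 0 z (n 0 z (n 0 z z))))))) (n 0 (n 0 z (n 0 z (n 0 z (n 0 z (n 0 z (n 0 z (n 0 z
 z))))))) (n 0 (n 0 z (n 0 z (n 0 z (n 0 z (n 0 z (n 0 z (n 0 z z))))))) (n 0 (n 0 z (n 0 z (n 0
 z (n 0 z (n 0 z (n 0 z (n 0 z z))))))) (n 0 (n 0 z (n 0 z (n 0 z (n 0 z (n 0 z (n 0 z (n 0 z
 z))))))) (n 0 (n 0 z (n 0 z (n 0 z (n 0 z (n 0 z (n 0 z (n 0 z z))))))) (n 0 (n 0 z (n 0 z (n 0
 z (n 0 z (n 0 z (n 0 z (n 0 z z))))))) (n 0 (n 0 z (n 0 z (n 0 z (n 0 z (n 0 z (n 0 z (n 0 z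
 z))))))) (n 0 (n 0 z (n 0 z (n 0 (n
 0x308708620379f8208608208208e07de7e08a082182079f82186082181f82086082082081f82081f8208200801 z
 z) (n 0 z (n 0 z (n 0 z (n 0 z z))))))) (n 0 (n 0 (n
 0x3ac08007c8107ff7cf83480081d81a7f480880e7fe8497e67bd83b7e38037b480280184c8498017f67b380777e8177fd8708017e181d7c77f37f18028697c481181b7da7de7d38027ee8037cf7f083b8130091
 z z) (n 0 z (n 0 z (n 0 (n
 0x4ac08009c8107ff7c38408008248207f180a8127fd85c7e07ac84a7db8047a280380186085b8017f379f80a75d81c7fd88c8027d98247b87f07ee8038837b58158217d07d57c88017ea8037c47ec8498190091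
 z z) (n 0 z (n 0 z (n 0 z z))))))) (n 0 (n 0 z (n 0 z (n 0 z (n 0 z (n 0 z (n 0 z (n 0 z
 z))))))) (n 0 (n 0 (n 8726043 z (n 8726043 z z)) (n 0 z (n 0 (n 8726043 z (n 8726043 z z)) (n 0
 (n 8726043 z (n 8726043 z z)) (n 0 (n 8726043 z (n 8726043 z z)) (n 0 (n 8726043 z (n 8726043 z
 z)) (n 0 z z))))))) z)))))))))))) (n 29 (n 0 (n 0 z (n 0 z (n 0 z (n 0 z (n 0 z (n 0 z (n 0 z
 z))))))) (n 0 (n 0 z (n 0 z (n 0 z (n 0 z (n 0 z (n 0 z (n 0 z z))))))) (n 0 (n 0 z (n 0 z (n 0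
 z (n 0 z (n 0 z (n 0 z (n 0 z z))))))) (n 0 (n 0 z (n 0 z (n 0 z (n 0 z (n 0 z (n 0 z (n 0 z
 z))))))) (n 0 (n 0 z (n 0 z (n 0 z (n 0 z (n 0 z (n 0 z (n 0 z z))))))) (n 0 (n 0 (n 8720451 z
 (n 8720451 z z)) (n 0 z (n 0 (n 8720451 z (n 8720451 z z)) (n 0 (n 8720451 z (n 8720451 z z))
 (n 0 (n 8720451 z (n 8720451 z z)) (n 0 z (n 0 z z))))))) (n 0 (n 0 z (n 0 z (n 0 z (n 0 z (n 0
 z (n 0 z (n 0 z z))))))) (n 0 (n 0 z (n 0 z (n 0 z (n 0 z (n 0 z (n 0 z (n 0 z z))))))) (n 0 (n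
 0 z (n 0 z (n 0 z (n 0 z (n 0 z (n 0 z (n 0 z z))))))) (n 0 (n 0 z (n 0 z (n 0 z (n 0 z (n 0 z
 (n 0 z (n 0 z z))))))) (n 0 (n 0 z (n 0 z (n 0 z (n 0 z (n 0 z (n 0 z (n 0 (n 2164859 z z)
 z))))))) (n 0 (n 0 z (n 0 z (n 0 z (n 0 z (n 0 z (n 0 z (n 0 z z))))))) (n 0 (n 0 (n 2164795 z
 z) (n 0 z (n 0 z (n 0 (n 2164795 z z) (n 0 z (n 0 z (n 0 z z))))))) (n 0 (n 0 (n
 0x148748207e17e18207e07df8a18617e07607e085f85f7e08217e07a181f86082082086081f7df8200041 z (n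
 7604283 z z)) (n 0 z (n 0 (n
 0x148748207e18218207e07df8a18617e076082081f85f7e08217e07e185e86182082082081f7e08200041 z (n
 0x3c860806397857d84806c749c6bb38185857b7b81798a6880697c67af2d6ba1a0546d6e929e72529bad7a9075885f7aa39a6154880049
 z z)) (n 0 (n
 0x2c860806893847e83807177976fa88184847d7c817a886c806e7d6ca63d6f9a9a5d70728e98755b96a47b8d7888657c9c95675d860049
 z (n
 0x3c860806397857d84806c749c6bb38185857b7b81798a6880697c67af2d6ba1a0546d6e929e72529bad7a9075885f7aa39a6154880049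
 z z)) (n 0 (n
 0x248767df7e27e28607e079f8e28627a06e17df81f89f7a18617a07a185d8a08218208207df7df7e00041 z (n
 8587115 z z)) (n 0 z (n 0 (n
 0x248767df7e27e28607e079f8e28627a06e17df81f89f7a18617a07a185d8a08218208207df7df7e00041 z (n
 0x3c860806397857d84806c749c6bb38185857b7b81798a6880697c67af2d6ba1a0546d6e929e72529bad7a9075885f7aa39a6154880049
 z z)) z))))))) z)))))))))))))) (n 1 (n 0 (n 0 z (n 0 z (n 0 z (n 0 (n 3213387 z z) (n 0 (n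
 3213387 z z) (n 0 z (n 0 z z))))))) (n 0 (n 0 z (n 0 z (n 0 z (n 0 z (n 0 z (n 0 z (n 0 z
 z))))))) (n 0 (n 0 z (n 0 z (n 0 z (n 0 z (n 0 z (n 0 z (n 0 z z))))))) (n 0 (n 0 z (n 0 z (n 0
 z (n 0 z (n 0 z (n 0 z (n 0 z z))))))) (n 0 (n 0 z (n 0 z (n 0 z (n 0 z (n 0 z (n 0 z (n 0 z
 z))))))) (n 0 (n 0 z (n 0 z (n 0 z (n 0 z (n 0 z (n 0 z (n 0 z z))))))) (n 0 (n 0 z (n 0 z (n 0
 z (n 0 z (n 0 z (n 0 z (n 0 z z))))))) (n 0 (n 0 z (n 0 z (n 0 z (n 0 z (n 0 z (n 0 z (n 0 z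
 z))))))) (n 0 (n 0 z (n 0 z (n 0 z (n 0 z (n 0 z (n 0 z (n 0 z z))))))) (n 0 (n 0 z (n 0 z (n 0
 z (n 0 z (n 0 z (n 0 z (n 0 z z))))))) (n 0 (n 0 z (n 0 z (n 0 z (n 0 z (n 0 z (n 0 z (n 0 z
 z))))))) (n 0 (n 0 z (n 0 z (n 0 (n 8873267 z z) (n 0 z (n 0 z (n 0 (n
 0x748717f629875948672806da2878e6a97857a698871969b7e695d6e746982ae97697b4b6b96709d937c7c707190517d737e7f7a8f0049
 z z) (n 0 z z))))))) (n 0 (n 0 (n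
 0x70e70e4c037c827f7d7e7c867c7b856d879182867a7e84808b7780759078ab7983648684647a78879c6e8f7284858b8b797c808b84747d0809
 z z) (n 0 z (n 0 z (n 0 z (n 0 (n 8587115 z z) (n 0 z (n 0 z z))))))) (n 0 (n 0 z (n 0 z (n 0
 (n 8587115 z z) (n 0 z (n 0 z (n 0 z (n 0 z z))))))) z)))))))))))))) (n 323 (n 0 (n 0 z (n 0 z
 (n 0 z (n 0 z (n 0 z (n 0 z (n 0 z z))))))) (n 0 (n 0 z (n 0 z (n 0 z (n 0 z (n 0 z (n 0 z (n 0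
 z z))))))) (n 0 (n 0 z (n 0 z (n 0 z (n 0 z (n 0 z (n 0 z (n 0 z z))))))) (n 0 (n 0 z (n 0 z (n
 0 z (n 0 z (n 0 z (n 0 z (n 0 z z))))))) (n 0 (n 0 z (n 0 z (n 0 z (n 0 z (n 0 z (n 0 z (n 0 z
 z))))))) (n 0 (n 0 z (n 0 z (n 0 z (n 0 z (n 0 z (n 0 z (n 0 z z))))))) z)))))) (n 257 (n 0 (n
 0 z (n 0 z (n 0 z (n 0 z (n 0 z (n 0 z (n 0 z z))))))) (n 0 (n 0 z (n 0 z (n 0 z (n 0 z (n 0 z
 (n 0 z (n 0 z z))))))) (n 0 (n 0 z (n 0 z (n 0 z (n 0 z (n 0 z (n 0 z (n 0 z z))))))) (n 0 (n 0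
 z (n 0 z (n 0 z (n 0 z (n 0 z (n 0 z (n 0 z z))))))) (n 0 (n 0 z (n 0 z (n 0 z (n 0 z (n 0 z (n
 0 z (n 0 z z))))))) (n 0 (n 0 z (n 0 z (n 0 z (n 0 z (n 0 z (n 0 z (n 0 z z))))))) (n 0 (n 0 z
 (n 0 z (n 0 z (n 0 z (n 0 z (n 0 z (n 0 z z))))))) (n 0 (n 0 z (n 0 z (n 0 z (n 0 z (n 0 z (n 0
 z (n 0 z z))))))) (n 0 (n 0 z (n 0 z (n 0 z (n 0 z (n 0 z (n 0 z (n 0 z z))))))) z))))))))) (n
 9 (n 0 (n 0 z (n 0 z (n 0 z (n 0 z (n 0 z (n 0 z (n 0 z z))))))) (n 0 (n 0 z (n 0 z (n 0 z (n 0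
 z (n 0 z (n 0 z (n 0 z z))))))) (n 0 (n 0 z (n 0 z (n 0 z (n 0 z (n 0 z (n 0 z (n 0 z z)))))))
 (n 0 (n 0 z (n 0 z (n 0 z (n 0 z (n 0 z (n 0 z (n 0 z z))))))) z)))) (n 27 (n 0 (n 0 z (n 0 z
 (n 0 z (n 0 z (n 0 z (n 0 z (n 0 z z))))))) (n 0 (n 0 (n 8794451 z z) (n 0 z (n 0 z (n 0 (n
 8794451 z z) (n 0 z (n 0 z (n 0 z z))))))) (n 0 (n 0 z (n 0 z (n 0 (n 8794451 z z) (n 0 z (n 0
 z (n 0 (n 8794451 z z) (n 0 z z))))))) (n 0 (n 0 z (n 0 (n 8791899 z z) (n 0 z (n 0 z (n 0 z (n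
 0 z (n 0 z z))))))) (n 0 (n 0 z (n 0 z (n 0 z (n 0 z (n 0 z (n 0 z (n 0 z z))))))) z))))) (n 1
 (n 0 (n 0 z (n 0 z (n 0 z (n 0 z (n 0 z (n 0 z (n 0 z z))))))) (n 0 (n 0 z (n 0 z (n 0 z (n 0 z
 (n 0 z (n 0 z (n 0 z z))))))) (n 0 (n 0 z (n 0 z (n 0 z (n 0 z (n 0 z (n 0 z (n 0 z z))))))) (n
 0 (n 0 (n 8873267 z z) (n 0 z (n 0 (n 8873267 z z) (n 0 z (n 0 z (n 0 z (n 0 z z))))))) (n 0 (n
 0 z (n 0 z (n 0 z (n 0 z (n 0 z (n 0 z (n 0 z z))))))) (n 0 (n 0 z (n 0 z (n 0 z (n 0 z (n 0 z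
 (n 0 z (n 0 z z))))))) (n 0 (n 0 z (n 0 z (n 0 z (n 0 z (n 0 z (n 0 z (n 0 z z))))))) (n 0 (n 0
 z (n 0 z (n 0 z (n 0 z (n 0 z (n 0 z (n 0 z z))))))) (n 0 (n 0 z (n 0 z (n 0 z (n 0 z (n 0 z (n
 0 z (n 0 z z))))))) (n 0 (n 0 (n
 0x30a70a02037e07df82086086089f81f86086082081f76181f8218208208208217e082081f8208208208200801 z
 z) (n 0 z (n 0 z (n 0 z (n 0 (n
 0x30a70a02037e07df82086086089f81f86086082081f76181f8218208208208217e082081f8208208208200801 z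
 z) (n 0 z (n 0 z z))))))) (n 0 (n 0 z (n 0 z (n 0 z (n 0 z (n 0 z (n 0 (n
 0x148718207e18208207e07e08a08207e07e18208218207e18208207e181f85f82186082085f7e081f0041 z z) (n
 0 z z))))))) (n 0 (n 0 z (n 0 z (n 0 z (n 0 (n
 0x248707df7e27e28607e079f8e28627a06e17df81f89f7a18617a07a185d8a08218208207df7df7e00041 z z) (n
 0 (n
 0x748717f629875948672806da2878e6a97857a698871969b7e695d6e746982ae97697b4b6b96709d937c7c707190517d737e7f7a8f0049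
 z z) (n 0 z (n 0 z z))))))) z)))))))))))) (n 0 (n 0 (n 0 z (n 0 z (n 0 z (n 0 z (n 0 z (n 0 z
 (n 0 z z))))))) (n 0 (n 0 z (n 0 z (n 0 z (n 0 z (n 0 z (n 0 z (n 0 z z))))))) (n 0 (n 0 z (n 0
 z (n 0 z (n 0 z (n 0 z (n 0 z (n 0 z z))))))) (n 0 (n 0 z (n 0 z (n 0 z (n 0 z (n 0 z (n 0 z (n
 0 z z))))))) (n 0 (n 0 z (n 0 z (n 0 z (n 0 z (n 0 z (n 0 z (n 0 z z))))))) (n 0 (n 0 z (n 0 z
 (n 0 z (n 0 z (n 0 z (n 0 z (n 0 z z))))))) (n 0 (n 0 z (n 0 z (n 0 z (n 0 z (n 0 z (n 0 z (n 0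
 z z))))))) (n 0 (n 0 z (n 0 z (n 0 z (n 0 z (n 0 z (n 0 z (n 0 z z))))))) (n 0 (n 0 z (n 0 z (n
 0 z (n 0 z (n 0 z (n 0 z (n 0 z z))))))) (n 0 (n 0 z (n 0 z (n 0 z (n 0 z (n 0 z (n 0 z (n 0 z
 z))))))) z)))))))))) z))))))))))))))))))))) z)))) z) z)))) z)))), by decide +kernel⟩
theorem i10760 : ∃ t, chkR KT RW t 10760 10765 = true := ⟨(n
 0xd8d542451b866d4a0a26318d5184518d028b690453d88453d4628b41969104e2f6019b700d2280 (n 0x1a451 (n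
 399 (n 2 z (n 10 z (n 6623299 z (n 18 z z)))) (n 263 (n 26 z (n 6623299 z (n 34 z (n 0 z (n 0 z
 (n 42 z (n 50 z z))))))) (n 129 (n 0 z (n 0 z (n 0 z (n 3212843 z (n 58 z (n 0 z z)))))) (n 29
 (n 0 z (n 0 z (n 0 z (n 66 z (n 2164283 z (n 0 z z)))))) (n 1 (n 74 z (n 82 z (n 0 z (n 0 z (n
 90 z (n 2164299 z (n 98 z z))))))) (n 0 (n 106 z (n 6623299 z (n 0 z (n 114 z z)))) z)))))) (n
 399 (n 0 (n 0 z (n 0 z (n 527 (n 0 z (n 0 z (n 0 z (n 0 z (n 0 z (n 0 z (n 0 z z))))))) (n 527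
 (n 0 z (n 2 (n 0 z (n 0 z (n 1 z (n 1 z (n 1 z (n 1 z (n 1 z (n 1 z (n 1 z (n 1 z z))))))))))
 (n 0 z (n 0 z (n 0 z (n 0 z (n 0 z z))))))) (n 527 (n 0 z (n 0 z (n 0 z (n 0 z (n 0 z (n 0 z (n
 0 z z))))))) (n 527 (n 0 z (n 0 z (n 0 z (n 0 z (n 0 z (n 0 z (n 2 (n 1 z (n 1 z (n 1 z (n 2 (n
 0 z (n 0 z (n 0 z (n 0 z (n 0 z (n 0 z z)))))) (n 2 (n 0 z (n 0 z (n 0 z (n 0 (n 8803099 z z)
 (n 0 z (n 0 z z)))))) (n 2 (n 0 z (n 0 z (n 0 z (n 0 (n 8726379 z z) (n 0 z (n 0 z z)))))) (n 1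
 z (n 2 (n 0 z (n 0 z (n 0 z (n 0 z (n 0 z (n 0 z z)))))) z)))))))) z))))))) (n 123 (n 0 z (n 0
 z (n 0 z (n 0 z (n 0 z (n 0 z z)))))) (n 55 (n 0 z (n 0 z (n 0 z (n 0 z (n 0 z z))))) (n 51 (n
 0 z (n 0 z (n 0 z (n 0 z (n 0 z (n 0 z (n 0 z (n 0 z (n 0 z (n 0 z z)))))))))) (n 51 (n 0 z (n
 0 z (n 2 (n 0 z (n 0 z (n 1 z (n 2 (n 0 z (n 0 z (n 0 z (n 0 z (n 0 z (n 0 z z)))))) z)))) (n 0
 z (n 0 z (n 0 z (n 0 z (n 0 z (n 0 z (n 0 z z)))))))))) (n 51 (n 0 z (n 0 z (n 0 z (n 0 z (n 0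
 z (n 0 z (n 0 z (n 0 z (n 0 z (n 0 z z)))))))))) (n 51 (n 0 z (n 0 z (n 0 z (n 0 z (n 0 z (n 0
 z (n 0 z (n 0 z (n 0 z (n 2 (n 1 z (n 2 (n 0 z (n 0 z (n 0 z (n 0 (n 212 z z) (n 0 z (n 0 z
 z)))))) z)) z)))))))))) (n 53 (n 0 z (n 0 z (n 0 z (n 0 z (n 0 z (n 0 z (n 0 z (n 0 z (n 0 z (n
 0 z (n 0 z (n 0 z z)))))))))))) (n 53 (n 0 z (n 0 z (n 0 z (n 0 z (n 0 z (n 0 z (n 0 z (n 0 z
 (n 0 z (n 0 z (n 0 z (n 2 z z)))))))))))) z)))))))))))))) (n 0 (n 0 z (n 991 (n 0 z (n 0 z (n 2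
 (n 0 z (n 0 z (n 0 z (n 1 z (n 2 (n 0 z (n 0 z (n 0 z (n 0 z (n 0 z (n 0 z z)))))) (n 2 (n 0 z
 (n 0 z (n 0 z (n 0 z (n 0 z (n 0 z z)))))) (n 2 (n 0 z (n 0 z (n 0 z (n 0 z (n 0 z (n 0 z
 z)))))) (n 1 z (n 2 (n 0 z (n 0 z (n 0 z (n 0 z (n 0 z (n 0 z z)))))) (n 1 z (n 2 (n 0 z (n 0 z
 (n 0 z (n 0 z (n 0 z (n 0 z z)))))) z))))))))))) (n 0 z (n 0 z (n 0 z (n 0 z z))))))) (n 991 (n
 2 (n 0 z (n 0 z (n 1 z (n 2 (n 0 z (n 0 z (n 0 z (n 0 z (n 0 z (n 0 z z)))))) (n 2 (n 0 z (n 0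
 z (n 0 z (n 0 z (n 0 z (n 0 z z)))))) (n 2 (n 0 z (n 0 z (n 0 z (n 0 z (n 0 z (n 0 z z)))))) (n
 1 z (n 2 (n 0 z (n 0 z (n 0 z (n 0 z (n 0 z (n 0 z z)))))) (n 1 z (n 2 (n 0 z (n 0 z (n 0 z (n
 0 z (n 0 z (n 0 z z)))))) z)))))))))) (n 0 z (n 0 z (n 0 z (n 0 z (n 0 z (n 0 z z))))))) (n 991
 (n 0 z (n 2 (n 0 z (n 2 (n 0 z (n 0 z (n 0 z (n 0 z (n 0 z (n 0 z z)))))) (n 2 (n 0 z (n 0 z (n
 0 z (n 0 z (n 0 z (n 0 z z)))))) (n 2 (n 0 z (n 0 z (n 0 z (n 0 z (n 0 z (n 0 z z)))))) (n 1 z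
 (n 1 z (n 2 (n 0 z (n 0 z (n 0 z (n 0 (n 5188 z z) (n 0 z (n 0 z z)))))) (n 2 (n 0 z (n 0 z (n
 0 z (n 0 (n 3956 z z) (n 0 z (n 0 z z)))))) (n 1 z z))))))))) (n 0 z (n 0 z (n 0 z (n 0 z (n 0
 z z))))))) (n 991 (n 0 z (n 0 z (n 0 z (n 0 z (n 0 z (n 0 z (n 0 z z))))))) (n 993 (n 0 z (n 2
 (n 1 z (n 1 z (n 2 (n 0 z (n 0 z (n 0 z (n 0 (n 5188 z z) (n 0 z (n 0 z z)))))) (n 1 z (n 2 (n
 0 z (n 0 z (n 0 z (n 0 z (n 0 z (n 0 z z)))))) (n 1 z (n 2 (n 0 z (n 0 z (n 0 z (n 0 z (n 0 z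
 (n 0 z z)))))) z))))))) (n 0 z (n 0 z (n 0 z (n 0 z z)))))) (n 185 (n 2 (n 2 (n 0 z (n 0 z (n 0
 z (n 0 z (n 0 z (n 0 z z)))))) (n 2 (n 0 z (n 0 z (n 0 z (n 0 z (n 0 z (n 0 z z)))))) (n 1 z (n
 2 (n 0 z (n 0 z (n 0 z (n 0 z (n 0 z (n 0 z z)))))) (n 1 z (n 2 (n 0 z (n 0 z (n 0 z (n 0 z (n
 0 z (n 0 z z)))))) z)))))) (n 0 z (n 0 z (n 0 z (n 0 z z))))) (n 1297 (n 0 z (n 0 z (n 0 z (n 0
 z (n 0 z (n 0 z (n 0 z (n 2 (n 0 z (n 0 z (n 0 z (n 1 z (n 2 (n 0 z (n 0 z (n 0 z (n 0 z (n 0 z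
 (n 0 z z)))))) z))))) (n 0 z (n 0 z (n 0 z (n 0 z (n 0 z (n 0 z z)))))))))))))) (n 1297 (n 0 z
 (n 0 z (n 0 z (n 0 z (n 0 z (n 0 z (n 0 z (n 0 z (n 0 z (n 0 z (n 0 z (n 0 z (n 0 z (n 0 z
 z)))))))))))))) (n 1297 (n 2 (n 0 z (n 1 z (n 1 z z))) (n 0 z (n 0 z (n 0 z (n 0 z (n 0 z (n 0
 z (n 0 z (n 0 z (n 0 z (n 0 z (n 0 z (n 0 z (n 0 z z)))))))))))))) (n 1297 (n 0 z (n 0 z (n 0 z
 (n 0 z (n 0 z (n 0 z (n 0 z (n 0 z (n 0 z (n 0 z (n 0 z (n 0 z (n 0 z (n 0 z z)))))))))))))) (n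
 989 (n 0 z (n 2 (n 0 z z) (n 0 z (n 0 z (n 0 z (n 0 z (n 0 z z))))))) (n 989 (n 0 z (n 0 z (n 0
 z (n 0 z (n 0 z (n 0 z (n 0 z z))))))) z))))))))))))) (n 0 (n 991 (n 0 z (n 0 z (n 0 z (n 2 (n
 0 z (n 0 z (n 0 z (n 2 (n 0 z (n 0 z (n 0 z (n 0 z (n 0 z (n 0 z z)))))) (n 2 (n 0 z (n 0 z (n
 0 z (n 0 z (n 0 z (n 0 z z)))))) (n 2 (n 0 z (n 0 z (n 0 z (n 0 z (n 0 z (n 0 z z)))))) (n 2 (n
 0 z (n 0 z (n 0 z (n 0 z (n 0 z (n 0 z z)))))) (n 2 (n 0 z (n 0 z (n 0 z (n 0 (n 8855811 z z)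
 (n 0 z (n 0 z z)))))) (n 2 (n 0 z (n 0 z (n 0 z (n 0 z (n 0 z (n 0 z z)))))) (n 2 (n 0 z (n 0 z
 (n 0 z (n 0 (n 8855811 z z) (n 0 z (n 0 z z)))))) (n 2 (n 0 z (n 0 z (n 0 z (n 0 z (n 0 z (n 0
 z z)))))) z))))))))))) (n 0 z (n 0 z (n 0 z (n 0 z (n 0 z (n 0 z (n 0 z z))))))))))) (n 991 (n
 0 z (n 2 (n 0 z (n 0 z (n 2 (n 0 z (n 0 z (n 0 z (n 0 z (n 0 z (n 0 z z)))))) (n 2 (n 0 z (n 0
 z (n 0 z (n 0 z (n 0 z (n 0 z z)))))) (n 2 (n 0 z (n 0 z (n 0 z (n 0 z (n 0 z (n 0 z z)))))) (n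
 2 (n 0 z (n 0 z (n 0 z (n 0 z (n 0 z (n 0 z z)))))) (n 2 (n 0 z (n 0 z (n 0 z (n 0 z (n 0 z (n
 0 z z)))))) (n 2 (n 0 z (n 0 z (n 0 z (n 0 (n 8794451 z z) (n 0 z (n 0 z z)))))) (n 2 (n 0 z (n
 0 z (n 0 z (n 0 z (n 0 z (n 0 z z)))))) (n 2 (n 0 z (n 0 z (n 0 z (n 0 z (n 0 z (n 0 z z))))))
 z)))))))))) (n 0 z (n 0 z (n 0 z (n 0 z (n 0 z (n 0 z (n 0 z (n 0 z (n 0 z z))))))))))) (n 991
 (n 0 z (n 0 z (n 0 z (n 0 z (n 0 z (n 0 z (n 0 z (n 0 z (n 0 z (n 0 z (n 0 z z))))))))))) (n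
 991 (n 0 z (n 0 z (n 0 z (n 0 z (n 0 z (n 0 z (n 0 z (n 0 z (n 0 z (n 0 z (n 0 z z)))))))))))
 (n 987 (n 0 z (n 0 z (n 0 z (n 0 z (n 2 (n 2 (n 0 z (n 0 z (n 0 z (n 0 z (n 0 z (n 0 z z))))))
 (n 2 (n 0 z (n 0 z (n 0 z (n 0 z (n 0 z (n 0 z z)))))) (n 2 (n 0 z (n 0 z (n 0 z (n 0 z (n 0 z
 (n 0 z z)))))) (n 2 (n 0 z (n 0 z (n 0 z (n 0 z (n 0 z (n 0 z z)))))) (n 2 (n 0 z (n 0 z (n 0 z
 (n 0 z (n 0 z (n 0 z z)))))) (n 1 z (n 2 (n 0 z (n 0 z (n 0 z (n 0 z (n 0 z (n 0 z z))))))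
 z))))))) (n 0 z z)))))) (n 981 (n 2 (n 2 (n 0 z (n 0 z (n 0 z (n 0 z (n 0 z (n 0 z z)))))) (n 2
 (n 0 z (n 0 z (n 0 z (n 0 z (n 0 z (n 0 z z)))))) (n 2 (n 0 z (n 0 z (n 0 z (n 0 (n 8855811 z
 z) (n 0 z (n 0 z z)))))) (n 2 (n 0 z (n 0 z (n 0 z (n 0 z (n 0 z (n 0 z z)))))) (n 2 (n 0 z (n
 0 z (n 0 z (n 0 (n 8855811 z z) (n 0 z (n 0 z z)))))) (n 2 (n 0 z (n 0 z (n 0 z (n 0 z (n 0 z
 (n 0 z z)))))) z)))))) (n 0 z (n 0 z (n 0 z (n 0 z (n 0 z (n 0 z (n 0 z z)))))))) (n 351 (n 0 z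
 (n 0 z (n 0 z (n 0 z (n 2 (n 0 z (n 0 z (n 0 z (n 2 (n 0 z (n 0 z (n 0 z (n 0 (n 8855811 z z)
 (n 0 z (n 0 z z)))))) (n 2 (n 0 z (n 0 z (n 0 z (n 0 z (n 0 z (n 0 z z)))))) z))))) (n 0 z (n 0
 z (n 0 z (n 0 z (n 0 z (n 0 z (n 0 z (n 0 z (n 0 z (n 0 z z))))))))))))))) (n 351 (n 0 z (n 0 z
 (n 0 z (n 0 z (n 0 z (n 0 z (n 0 z (n 0 z (n 0 z (n 0 z (n 0 z (n 0 z (n 0 z (n 0 z (n 0 z
 z))))))))))))))) (n 351 (n 0 z (n 0 z (n 0 z (n 0 z (n 0 z (n 0 z (n 0 z (n 0 z (n 0 z (n 0 z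
 (n 0 z (n 0 z (n 0 z (n 0 z (n 2 (n 0 z (n 1 z (n 1 z z))) z))))))))))))))) (n 351 (n 0 z (n 0
 z (n 0 z (n 0 z (n 0 z (n 0 z (n 0 z (n 0 z (n 0 z (n 0 z (n 0 z (n 0 z (n 0 z (n 0 z (n 0 z
 z))))))))))))))) (n 989 (n 0 z (n 2 (n 0 z z) (n 0 z (n 0 z (n 0 z (n 0 z z)))))) (n 989 (n 0 z
 (n 0 z (n 0 z (n 0 z (n 0 z (n 0 z z)))))) z)))))))))))) (n 0 (n 0 z (n 0 z (n 0 z (n 259 (n 0
 z (n 0 z (n 0 z (n 0 z (n 0 z (n 0 z (n 0 z (n 0 z (n 0 z (n 0 z (n 0 z (n 0 z (n 0 z (n 0 z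
 z)))))))))))))) (n 539 (n 0 z (n 0 z (n 0 z (n 0 z (n 0 z (n 0 z (n 0 z (n 0 z (n 0 z (n 0 z (n
 0 z (n 0 z (n 0 z (n 0 z (n 0 z (n 0 z (n 0 z (n 0 z (n 0 z (n 0 z (n 0 z (n 0 z
 z)))))))))))))))))))))) (n 243 (n 0 z (n 0 z (n 0 z (n 0 z (n 0 z (n 0 z (n 0 z (n 0 z (n 0 z
 (n 0 z (n 0 z (n 0 z (n 0 z (n 0 z (n 0 z (n 0 z (n 0 z (n 0 z (n 0 z z))))))))))))))))))) (n
 243 (n 0 z (n 0 z (n 0 z (n 0 z (n 0 z (n 0 z (n 0 z (n 0 z (n 2 (n 0 z (n 0 z (n 1 z (n 2 (n 0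
 z (n 0 z (n 0 z (n 0 z (n 0 z (n 0 z z)))))) z)))) (n 0 z (n 0 z (n 0 z (n 0 z (n 0 z (n 0 z (n
 0 z (n 0 z (n 0 z (n 0 z z))))))))))))))))))) (n 243 (n 0 z (n 0 z (n 0 z (n 0 z (n 0 z (n 0 z
 (n 0 z (n 0 z (n 0 z (n 0 z (n 0 z (n 0 z (n 0 z (n 0 z (n 0 z (n 0 z (n 0 z (n 0 z (n 0 z
 z))))))))))))))))))) (n 243 (n 0 z (n 0 z (n 0 z (n 0 z (n 0 z (n 0 z (n 0 z (n 0 z (n 0 z (n 0
 z (n 0 z (n 0 z (n 0 z (n 0 z (n 0 z (n 0 z (n 0 z (n 0 z (n 2 (n 1 z (n 2 (n 0 z (n 0 z (n 0 z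
 (n 0 z (n 0 z (n 0 z z)))))) z)) z))))))))))))))))))) (n 241 (n 0 z (n 0 z (n 0 z (n 0 z (n 0 z
 (n 0 z (n 0 z (n 0 z (n 0 z (n 0 z (n 0 z (n 0 z (n 0 z (n 0 z (n 0 z (n 0 z (n 0 z (n 0 z (n 0
 z (n 0 z (n 0 z (n 0 z (n 0 z (n 0 z (n 0 z (n 0 z (n 0 z (n 0 z (n 0 z (n 0 z (n 0 z (n 0 z (n
 0 z z))))))))))))))))))))))))))))))))) (n 241 (n 0 z (n 0 z (n 0 z (n 0 z (n 0 z (n 0 z (n 0 z
 (n 0 z (n 0 z (n 0 z (n 0 z (n 0 z (n 0 z (n 0 z (n 0 z (n 0 z (n 0 z (n 0 z (n 0 z (n 0 z (n 0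
 z (n 0 z (n 0 z (n 0 z (n 0 z (n 0 z (n 0 z (n 0 z (n 0 z (n 0 z (n 0 z (n 2 z (n 0 z
 z))))))))))))))))))))))))))))))))) z))))))))))) (n 0 (n 0 z (n 0 z (n 1041 (n 0 z (n 0 z (n 2
 (n 1 z (n 1 z (n 1 z (n 1 z (n 1 z (n 1 z (n 1 z z))))))) (n 0 z (n 0 z (n 0 z (n 0 z (n 0 z (n
 0 z z))))))))) (n 491 (n 0 z (n 0 z (n 0 z (n 0 z (n 0 z (n 0 z (n 0 z (n 0 z (n 2 (n 1 z (n 1
 z (n 1 z (n 2 (n 0 z (n 0 z (n 0 z (n 0 (n 1956 z z) (n 0 z (n 0 z z)))))) (n 1 z (n 2 (n 0 z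
 (n 0 z (n 0 z (n 0 (n 4148 z z) (n 0 z (n 0 z z)))))) z)))))) (n 0 z (n 0 z (n 0 z (n 0 z (n 0
 z (n 0 z (n 0 z (n 0 z (n 0 z (n 0 z (n 0 z (n 0 z (n 0 z (n 0 z (n 0 z (n 0 z (n 0 z (n 0 z
 z))))))))))))))))))))))))))) (n 489 (n 0 z (n 0 z (n 0 z (n 0 z (n 2 (n 0 z (n 0 z (n 0 z (n 1
 z (n 2 (n 0 z (n 0 z (n 0 z (n 0 (n 4148 z z) (n 0 z (n 0 z z)))))) z))))) (n 0 z (n 0 z (n 0 z
 (n 0 z (n 0 z (n 0 z (n 0 z (n 0 z (n 0 z z)))))))))))))) (n 489 (n 0 z (n 0 z (n 0 z (n 0 z (n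
 0 z (n 0 z (n 0 z (n 0 z (n 0 z (n 0 z (n 0 z (n 0 z (n 0 z (n 0 z z)))))))))))))) (n 489 (n 0
 z (n 0 z (n 2 (n 0 z (n 1 z (n 1 z z))) (n 0 z (n 0 z (n 0 z (n 0 z (n 0 z (n 0 z (n 0 z (n 0 z
 (n 0 z (n 0 z (n 0 z z)))))))))))))) (n 489 (n 0 z (n 0 z (n 0 z (n 0 z (n 0 z (n 0 z (n 0 z (n
 0 z (n 0 z (n 0 z (n 0 z (n 0 z (n 0 z (n 2 (n 1 z (n 2 (n 0 z (n 0 z (n 0 z (n 0 z (n 0 z (n 0
 z z)))))) z)) z)))))))))))))) (n 1037 (n 2 (n 0 z z) (n 0 z (n 0 z (n 0 z (n 0 z (n 0 z (n 0 z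
 (n 0 z (n 0 z (n 0 z (n 0 z (n 0 z (n 0 z (n 0 z (n 0 z (n 0 z (n 0 z (n 0 z (n 0 z (n 0 z (n 0
 z (n 0 z (n 0 z z))))))))))))))))))))))) (n 1037 (n 0 z (n 0 z (n 2 z (n 0 z (n 0 z (n 0 z (n 0
 z (n 0 z (n 0 z (n 0 z (n 0 z (n 0 z (n 0 z (n 0 z (n 0 z (n 0 z (n 0 z (n 0 z (n 0 z (n 0 z (n
 0 z (n 0 z (n 0 z z))))))))))))))))))))))) z)))))))))) (n 0 (n 0 z (n 867 (n 0 z (n 0 z (n 0 z
 (n 0 z (n 0 z (n 0 z (n 0 z (n 0 z (n 0 z (n 0 z (n 0 z (n 0 z (n 0 z (n 0 z z)))))))))))))) (n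
 525 (n 0 z (n 0 z (n 0 z (n 0 z (n 0 z (n 0 z (n 0 z z))))))) (n 521 (n 0 z (n 0 z (n 0 z (n 0
 z (n 2 (n 0 z (n 0 z (n 0 z (n 1 z (n 2 (n 0 z (n 0 z (n 0 z (n 0 (n 260 z z) (n 0 z (n 0 z
 z)))))) z))))) (n 0 z z)))))) (n 521 (n 0 z (n 0 z (n 0 z (n 0 z (n 0 z (n 2 (n 0 z (n 0 z (n 2
 (n 0 z (n 0 z (n 0 z (n 0 (n 260 z z) (n 0 z (n 0 z z)))))) (n 1 z z)))) z)))))) (n 521 (n 0 z
 (n 0 z (n 0 z (n 0 z (n 0 z (n 0 z z)))))) (n 521 (n 0 z (n 0 z (n 0 z (n 0 z (n 0 z (n 0 z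
 z)))))) (n 65 (n 0 z (n 0 z (n 0 z (n 2 (n 0 z z) (n 0 z z))))) (n 65 (n 0 z (n 0 z (n 0 z (n 0
 z (n 2 z z))))) z))))))))) (n 0 (n 283 (n 0 z (n 0 z (n 0 z (n 0 z (n 0 z (n 0 z (n 0 z (n 2 (n
 1 z (n 1 z (n 2 (n 0 z (n 0 z (n 0 z (n 0 z (n 0 z (n 0 z z)))))) (n 2 (n 0 z (n 0 z (n 0 z (n
 0 (n 8855811 z z) (n 0 z (n 0 z z)))))) (n 2 (n 0 z (n 0 z (n 0 z (n 0 (n 2148 z z) (n 0 z (n 0
 z z)))))) (n 1 z (n 2 (n 0 z (n 0 z (n 0 z (n 0 z (n 0 z (n 0 z z)))))) z))))))) (n 0 z (n 0 z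
 (n 0 z (n 0 z (n 0 z (n 0 z z)))))))))))))) (n 539 (n 0 z (n 0 z (n 0 z (n 2 (n 2 (n 0 z (n 0 z
 (n 0 z (n 0 (n 8855811 z z) (n 0 z (n 0 z z)))))) (n 2 (n 0 z (n 0 z (n 0 z (n 0 z (n 0 z (n 0
 z z)))))) (n 2 (n 0 z (n 0 z (n 0 z (n 0 (n 8855811 z z) (n 0 z (n 0 z z)))))) (n 2 (n 0 z (n 0
 z (n 0 z (n 0 z (n 0 z (n 0 z z)))))) (n 1 z (n 2 (n 0 z (n 0 z (n 0 z (n 0 z (n 0 z (n 0 z
 z)))))) z)))))) (n 0 z (n 0 z z)))))) (n 537 (n 0 z (n 2 (n 0 z (n 0 z (n 0 z (n 1 z (n 2 (n 0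
 z (n 0 z (n 0 z (n 0 z (n 0 z (n 0 z z)))))) z))))) (n 0 z (n 0 z (n 0 z (n 0 z (n 0 z (n 0 z
 (n 0 z z))))))))) (n 537 (n 0 z (n 0 z (n 0 z (n 0 z (n 0 z (n 0 z (n 0 z (n 0 z (n 0 z
 z))))))))) (n 537 (n 2 (n 0 z (n 1 z (n 2 (n 0 z (n 0 z (n 0 z (n 0 z (n 0 z (n 0 z z))))))
 z))) (n 0 z (n 0 z (n 0 z (n 0 z (n 0 z (n 0 z (n 0 z (n 0 z z))))))))) (n 537 (n 0 z (n 0 z (n
 0 z (n 0 z (n 0 z (n 0 z (n 0 z (n 0 z (n 2 (n 1 z (n 2 (n 0 z (n 0 z (n 0 z (n 0 (n 8873267 z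
 z) (n 0 z (n 0 z z)))))) z)) z))))))))) (n 485 (n 2 (n 0 z z) (n 0 z (n 0 z (n 0 z (n 0 z (n 0
 z (n 0 z z))))))) (n 485 (n 0 z (n 0 z (n 0 z (n 0 z (n 0 z (n 0 z (n 0 z z))))))) z)))))))) (n
 0 (n 55 (n 0 z (n 0 z (n 0 z (n 0 z z)))) (n 51 (n 0 z (n 0 z (n 0 z (n 0 z (n 0 z (n 0 z (n 0
 z (n 0 z (n 0 z z))))))))) (n 51 (n 0 z (n 0 z (n 0 z (n 2 (n 0 z (n 0 z (n 1 z (n 2 (n 0 z (n
 0 z (n 0 z (n 0 z (n 0 z (n 0 z z)))))) z)))) (n 0 z (n 0 z (n 0 z (n 0 z (n 0 z z))))))))) (n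
 51 (n 0 z (n 0 z (n 0 z (n 0 z (n 0 z (n 0 z (n 0 z (n 0 z (n 0 z z))))))))) (n 51 (n 0 z (n 0
 z (n 0 z (n 0 z (n 0 z (n 0 z (n 0 z (n 0 z (n 2 (n 1 z (n 2 (n 0 z (n 0 z (n 0 z (n 0 (n 196 z
 z) (n 0 z (n 0 z z)))))) z)) z))))))))) (n 49 (n 0 z (n 0 z (n 0 z (n 0 z (n 0 z (n 0 z (n 0 z
 (n 0 z (n 0 z z))))))))) (n 49 (n 0 z (n 0 z (n 0 z (n 0 z (n 0 z (n 0 z (n 0 z (n 0 z (n 2 z
 z))))))))) z))))))) (n 0 (n 111 (n 0 z (n 0 z (n 0 z (n 0 z (n 0 z (n 0 z (n 0 z (n 0 z (n 0 z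
 (n 0 z z)))))))))) (n 111 (n 0 z (n 0 z (n 2 (n 0 z (n 0 z (n 1 z (n 2 (n 0 z (n 0 z (n 0 z (n
 0 z (n 0 z (n 0 z z)))))) z)))) (n 0 z (n 0 z (n 0 z (n 0 z (n 0 z (n 0 z (n 0 z z)))))))))) (n
 111 (n 0 z (n 0 z (n 0 z (n 0 z (n 0 z (n 0 z (n 0 z (n 0 z (n 0 z (n 0 z z)))))))))) (n 111 (n
 0 z (n 0 z (n 0 z (n 0 z (n 0 z (n 0 z (n 0 z (n 2 (n 1 z (n 2 (n 0 z (n 0 z (n 0 z (n 0 z (n 0
 z (n 0 z z)))))) z)) (n 0 z (n 0 z z)))))))))) (n 109 (n 0 z (n 0 z (n 0 z (n 0 z (n 0 z (n 0 z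
 z)))))) (n 109 (n 0 z (n 0 z (n 0 z (n 0 z (n 0 z (n 2 z z)))))) z)))))) (n 0 (n 0 z (n 0 z (n
 0 z (n 157 (n 0 z (n 0 z (n 0 z (n 0 z (n 0 z (n 0 z (n 0 z (n 0 z (n 0 z (n 0 z (n 0 z (n 0 z
 (n 0 z (n 0 z (n 0 z (n 0 z (n 0 z (n 0 z (n 0 z (n 0 z (n 0 z z))))))))))))))))))))) (n 157 (n
 0 z (n 0 z (n 0 z (n 0 z (n 0 z (n 0 z (n 0 z (n 0 z (n 0 z (n 0 z (n 0 z (n 0 z (n 0 z (n 0 z
 (n 0 z (n 0 z (n 0 z (n 0 z (n 0 z (n 2 z (n 0 z z))))))))))))))))))))) z))))) (n 0 (n 0 z (n 0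
 z (n 505 (n 0 z (n 2 (n 0 z z) (n 0 z (n 0 z (n 0 z (n 0 z (n 0 z (n 0 z z)))))))) (n 505 (n 0
 z (n 0 z (n 0 z (n 0 z (n 0 z (n 0 z (n 0 z (n 0 z z)))))))) z)))) (n 0 (n 0 z (n 1013 (n 0 z
 (n 0 z (n 0 z (n 0 z (n 0 z (n 0 z (n 0 z (n 0 z (n 0 z (n 0 z (n 0 z (n 0 z (n 0 z (n 0 z (n 0
 z (n 0 z (n 0 z (n 0 z (n 0 z (n 0 z (n 0 z (n 0 z (n 0 z (n 0 z (n 0 z (n 0 z (n 0 z (n 0 z (n
 0 z (n 0 z (n 0 z (n 0 z (n 0 z z))))))))))))))))))))))))))))))))) (n 1013 (n 2 z (n 0 z (n 0 z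
 (n 0 z (n 0 z (n 0 z (n 0 z (n 0 z (n 0 z (n 0 z (n 0 z (n 0 z (n 0 z (n 0 z (n 0 z (n 0 z (n 0
 z (n 0 z (n 0 z (n 0 z (n 0 z (n 0 z (n 0 z (n 0 z (n 0 z (n 0 z (n 0 z (n 0 z (n 0 z (n 0 z (n
 0 z (n 0 z (n 0 z z))))))))))))))))))))))))))))))))) z))) (n 0 (n 5 (n 0 z (n 2 (n 0 z z) (n 0
 z (n 0 z (n 0 z (n 0 z (n 0 z (n 0 z (n 0 z z))))))))) (n 5 (n 0 z (n 0 z (n 0 z (n 0 z (n 0 z
 (n 0 z (n 2 z (n 0 z (n 0 z z))))))))) z)) (n 0 (n 0 z z) (n 0 z z))))))))))))))) (n 0 (n 1 (n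
 2 z (n 4395107 z (n 4261435 z (n 2108 z (n 2108 z (n 2108 z z)))))) (n 1 (n 2108 z (n 2108 z (n
 2108 z (n 2108 z (n 2108 z (n 2108 z z)))))) (n 1 (n 6623299 z (n 6623299 z (n 6623299 z (n
 6623299 z (n 6623299 z (n 6623299 z z)))))) (n 1 (n 2108 z (n 2108 z (n 2108 z (n 2108 z (n
 2108 z (n 5378147 z z)))))) z)))) (n 0 (n 0x636355b866d46c63546f621128b419b8bd806cdb80 (n 0 (n
 0 (n 7741699 z (n 7741699 z (n 7741699 z (n 7741699 z (n 7741699 z (n 7741699 z z)))))) z) (n 0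
 (n 399 (n 1 (n 7749939 z (n 7749939 z (n 7749939 z (n 7749939 z (n 7749939 z (n 7749939 z
 z)))))) (n 1 (n 2108 z (n 7614819 z (n 2 z (n 2108 z (n 7607867 z (n 7538203 z z)))))) (n 1 (n
 7671875 z (n 7671875 z (n 7671875 z (n 7671875 z (n 7671875 z (n 7671875 z z)))))) (n 1 (n 2108
 z (n 7614819 z (n 7607867 z (n 2108 z (n 10 z (n 6627699 z z)))))) z)))) (n 287 (n 1 (n 7741699
 z (n 7749939 z (n 7749939 z (n 7749939 z (n 7749939 z (n 7749939 z z)))))) (n 1 (n 7741699 z (n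
 2108 z (n 18 z (n 2108 z (n 2108 z (n 2108 z z)))))) (n 1 (n 7741699 z (n 2108 z (n 2108 z (n
 2108 z (n 2108 z (n 2108 z z)))))) (n 1 (n 7741699 z (n 7671875 z (n 7671875 z (n 7671875 z (n
 7671875 z (n 7671875 z z)))))) (n 1 (n 7741699 z (n 2108 z (n 2108 z (n 2108 z (n 2108 z (n
 2108 z z)))))) (n 0 z (n 1 (n 7741699 z (n 26 z (n 2108 z (n 2108 z (n 6489947 z (n 2108 z
 z)))))) z))))))) (n 27 (n 1 (n 7607867 z (n 7749939 z (n 2428 z (n 7754523 z (n 1996 z (n 2428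
 z z)))))) (n 0 z (n 1 (n 7741699 z (n 7741699 z (n 7741699 z (n 7741699 z (n 7741699 z (n
 7741699 z z)))))) (n 1 (n 7614819 z (n 7749939 z (n 7614819 z (n 7614819 z (n 7614819 z (n
 7614819 z z)))))) z)))) (n 51 (n 1 (n 3340 z (n 3340 z (n 3340 z (n 3340 z (n 3340 z (n 3340 z
 z)))))) (n 0 z (n 1 (n 7741699 z (n 7741699 z (n 7741699 z (n 7741699 z (n 7741699 z (n 7741699
 z z)))))) (n 1 (n 7614819 z (n 7614819 z (n 7614819 z (n 7614819 z (n 7614819 z (n 7614819 z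
 z)))))) z)))) (n 1 (n 1 (n 7741699 z (n 7741699 z (n 7741699 z (n 7741699 z (n 7741699 z (n
 7741699 z z)))))) (n 1 (n 4300 z (n 7614819 z (n 34 z (n 4300 z (n 7538203 z (n 7607867 z
 z)))))) (n 0 z (n 0 z (n 1 (n 7741699 z (n 7741699 z (n 7741699 z (n 7741699 z (n 7741699 z (n
 7741699 z z)))))) (n 1 (n 7749939 z (n 7749939 z (n 7749939 z (n 7749939 z (n 7749939 z (n
 7749939 z z)))))) (n 1 (n 4300 z (n 7614819 z (n 7538203 z (n 4300 z (n 42 z (n 7607867 z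
 z)))))) z))))))) (n 0 (n 1 (n 7741699 z (n 7741699 z (n 7741699 z (n 7741699 z (n 7741699 z (n
 7741699 z z)))))) (n 1 (n 7671875 z (n 7671875 z (n 7671875 z (n 7671875 z (n 7671875 z (n
 7671875 z z)))))) (n 0 z (n 1 (n 5276 z (n 7614819 z (n 50 z (n 5276 z (n 7538203 z (n 7607867
 z z)))))) z)))) (n 399 (n 1 (n 7741699 z (n 7749939 z (n 7749939 z (n 7749939 z (n 7749939 z (n
 7749939 z z)))))) (n 1 (n 7741699 z (n 2108 z (n 2108 z (n 2108 z (n 2108 z (n 2108 z z))))))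
 (n 1 (n 7741699 z (n 7671875 z (n 7671875 z (n 7671875 z (n 7671875 z (n 7671875 z z)))))) (n 1
 (n 7741699 z (n 2108 z (n 2108 z (n 2108 z (n 2108 z (n 5378163 z z)))))) z)))) z))))))) (n 0
 (n 0 (n 0 z (n 0 z (n 0 z (n 0 z (n 0 z (n 0 z (n 0 z z))))))) (n 0 (n 0 z (n 0 z (n 0 z (n 0 z
 (n 0 z (n 0 z z)))))) (n 0 (n 0 z (n 0 z (n 0 z (n 0 z (n 0 z z))))) (n 0 (n 0 z (n 0 z (n 0 z
 (n 0 z z)))) (n 0 (n 0 z (n 0 z (n 0 z z))) (n 0 (n 0 z (n 0 z z)) (n 0 (n 0 z z) z))))))) (n 0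
 (n 287 (n 0 (n 0 z (n 0 z (n 0 z (n 0 z (n 0 z (n 0 z (n 0 z z))))))) (n 0 (n 0 z (n 0 z (n 0 z
 (n 0 z (n 0 z (n 0 z (n 0 z z))))))) (n 0 (n 0 z (n 0 z (n 0 z (n 0 z (n 0 z (n 0 z (n 0 z
 z))))))) (n 0 (n 0 z (n 0 z (n 0 z (n 0 z (n 0 z (n 0 z (n 0 z z))))))) (n 0 (n 0 z (n 0 z (n 0
 z (n 0 z (n 0 z (n 0 z (n 0 z z))))))) (n 0 (n 0 z (n 0 z (n 0 z (n 0 z (n 0 z (n 0 z (n 0 z
 z))))))) (n 0 (n 0 z (n 0 z (n 0 z (n 0 z (n 0 z (n 0 z (n 0 z z))))))) z))))))) (n 303 (n 0 (n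
 0 z (n 0 z (n 0 z (n 0 z (n 0 z (n 0 z (n 0 z z))))))) (n 0 (n 0 z (n 0 z (n 0 z (n 0 z (n 0 z
 (n 0 (n 4397099 z z) (n 0 (n 4397099 z z) z))))))) (n 0 (n 0 z (n 0 z (n 0 z (n 0 z (n 0 z (n 0
 z (n 0 z z))))))) (n 0 (n 0 z (n 0 z (n 0 z (n 0 z (n 0 z (n 0 z (n 0 z z))))))) (n 0 (n 0 z (n
 0 z (n 0 z (n 0 z (n 0 z (n 0 z (n 0 z z))))))) (n 0 (n 0 z (n 0 z (n 0 z (n 0 z (n 0 z (n 0 z
 (n 0 z z))))))) z)))))) (n 249 (n 0 (n 0 (n 8663395 z (n 8663395 z z)) (n 0 (n 8663395 z (n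
 8663395 z z)) (n 0 z (n 0 z (n 0 z (n 0 z (n 0 z z))))))) (n 0 (n 0 z (n 0 (n 8663395 z z) (n 0
 z (n 0 z (n 0 z (n 0 z (n 0 z z))))))) (n 0 (n 0 z (n 0 (n 8663395 z z) (n 0 z (n 0 z (n 0 z (n
 0 z (n 0 z z))))))) (n 0 (n 0 z (n 0 z (n 0 z (n 0 z (n 0 z (n 0 z (n 0 z z))))))) (n 0 (n 0 z
 (n 0 z (n 0 (n 8861259 z (n 8861259 z z)) (n 0 z (n 0 z (n 0 z (n 0 z z))))))) (n 0 (n 0 z (n 0
 z (n 0 (n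
 0x1128747d37f47fb8228167fe7aa84a7f581e7e48157e28637717e88328398207c376680684781984080e7f57fc8147af82c81184e8707fd7cd7847e287e7d58a378680c7e280986f7f27a17f080d0051
 z (n
 0x1851530403810a708600381f8208207e082082086082086082182082082082082182082082082082082082082081f8201001
 z z)) (n 0 z (n 0 z (n 0 z (n 0 z z))))))) (n 0 (n 0 z (n 0 z (n 0 z (n 0 z (n 0 z (n 0 z (n 0
 z z))))))) (n 0 (n 0 z (n 0 z (n 0 z (n 0 z (n 0 z (n 0 z (n 0 z z))))))) (n 0 (n 0 z (n 0 z (n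
 0 z (n 0 (n 8790275 z z) (n 0 z (n 0 (n 8790275 z z) (n 0 z z))))))) (n 0 (n 0 z (n 0 z (n 0 z
 (n 0 z (n 0 z (n 0 z (n 0 z z))))))) (n 0 (n 0 z (n 0 z (n 0 z (n 0 z (n 0 z (n 0 z (n 0 z
 z))))))) (n 0 (n 0 (n
 0x1d587400f70e801ca1d0002a9080392107dd84a7f27ee82e7d487274f85c7d981b74f8c277f8977b27897827da8108ff8277ba87f76c7ae79985e84082c84c8dc7246c38208438b48006e584c6a898d7db82e7c46e984b8e37d67d60151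
 z z) (n 0 z (n 0 z (n 0 z (n 0 z (n 0 z (n 0 z z))))))) (n 0 (n 0 (n 8790275 z z) (n 0 z (n 0 z
 (n 0 z (n 0 z (n 0 z (n 0 z z))))))) (n 0 (n 0 z (n 0 z (n 0 z (n 0 z (n 0 z (n 0 z (n 0 z
 z))))))) z)))))))))))))) (n 417 (n 0 (n 0 z (n 0 z (n 0 z (n 0 z (n 0 z (n 0 z (n 0 z z)))))))
 (n 0 (n 0 z (n 0 z (n 0 z (n 0 z (n 0 z (n 0 z (n 0 z z))))))) (n 0 (n 0 z (n 0 z (n 0 z (n 0 z
 (n 0 z (n 0 z (n 0 z z))))))) (n 0 (n 0 z (n 0 z (n 0 z (n 0 z (n 0 z (n 0 z (n 0 z z))))))) (n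
 0 (n 0 z (n 0 z (n 0 z (n 0 z (n 0 z (n 0 z (n 0 z z))))))) z))))) (n 293 (n 0 (n 0 z (n 0 z (n
 0 z (n 0 z (n 0 z (n 0 z (n 0 z z))))))) (n 0 (n 0 z (n 0 z (n 0 z (n 0 z (n 0 z (n 0 z (n 0 z
 z))))))) (n 0 (n 0 z (n 0 z (n 0 z (n 0 z (n 0 z (n 0 z (n 0 z z))))))) (n 0 (n 0 z (n 0 z (n 0
 z (n 0 z (n 0 z (n 0 z (n 0 z z))))))) (n 0 (n 0 z (n 0 z (n 0 z (n 0 z (n 0 z (n 0 z (n 0 z
 z))))))) (n 0 (n 0 (n 8787803 z (n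
 0x30a2ea08078608208208218208208208208208208208208208208208208208208208208208208208208200801 z
 z)) (n 0 z (n 0 z (n 0 z (n 0 (n 0xea90a60030821 z (n
 0x2ea90a60038208208208208208608208208208208208208208208208208208208208208218208208208200801 z
 z)) (n 0 (n
 0x2ea90a600382082082082082082082082082082082082082082082081f8208208208208208208208208200801 z
 (n 0xea90a60030821 z z)) (n 0 z z))))))) (n 0 (n 0 (n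
 0x30a2ea08078608208208218208208208208208208208208208208208208208208208208208208208208200801 z
 z) (n 0 z (n 0 z (n 0 z (n 0 (n 8726379 z z) (n 0 (n
 0x2ea90a600382082082082082082082082082082082082082082082081f8208208208208208208208208200801 z
 z) (n 0 z z))))))) (n 0 (n 0 z (n 0 z (n 0 z (n 0 z (n 0 z (n 0 z (n 0 z z))))))) (n 0 (n 0 z
 (n 0 z (n 0 z (n 0 z (n 0 z (n 0 z (n 0 z z))))))) (n 0 (n 0 (n 8787803 z (n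
 0x150a90840038177e37f280f7e480c7e18237ef8107d086b7a58a376180880684f7e38077ce7f382b79f8647e18037ca8227b47eb80283284a8007a78137a785f7f18637ad8057db7d285e7f07b77ed8220811
 z z)) (n 0 z (n 0 (n 8804139 z (n 8795915 z z)) (n 0 z (n 0 (n
 0x5a87080d7f77ff8087f58007f48177f67fe7d38467b78cb7997ec7c58427a581b7e08098067d68647d57f07ea8337aa81182c81781c7f17b98157a08247fc82c7ea8007fa7bf82b8047e47e280e0051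
 z (n 8726379 z z)) (n 0 z (n 0 (n
 0x5a87080d7f77ff8087f58007f48177f67fe7d38467b78cb7997ec7c58427a581b7e08098067d68647d57f07ea8337aa81182c81781c7f17b98157a08247fc82c7ea8007fa7bf82b8047e47e280e0051
 z (n
 0xd0e90e800784a7d27f68097f37e97cf81a80081d82e8577ba77e7f680b8597e582884e80a8197bf7fe7cc8308127ea7e18227ed7858108357f481681383680c7f480a7b28287d38157c87e981b80a7ef0811
 z z)) z))))))) (n 0 (n 0 (n 8663395 z (n 8663395 z z)) (n 0 (n 8859987 z (n 8859987 z z)) (n 0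
 z (n 0 z (n 0 z (n 0 z (n 0 z z))))))) (n 0 (n 0 z (n 0 z (n 0 z (n 0 z (n 0 z (n 0 z (n 0 z
 z))))))) (n 0 (n 0 z (n 0 z (n 0 z (n 0 z (n 0 z (n 0 z (n 0 z z))))))) (n 0 (n 0 z (n 0 z (n 0
 z (n 0 z (n 0 z (n 0 z (n 0 z z))))))) (n 0 (n 0 z (n 0 z (n 0 z (n 0 z (n 0 z (n 0 z (n 0 z
 z))))))) (n 0 (n 0 z (n 0 (n
 0x30a2ea08038208208208208208208608208208208208208208208208208208208208208208208208208200801 z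
 z) (n 0 z (n 0 z (n 0 z (n 0 z (n 0 z z))))))) (n 0 (n 0 z (n 0 z (n 0 z (n 0 z (n 0 z (n 0 z
 (n 0 z z))))))) (n 0 (n 0 z (n 0 z (n 0 z (n 0 z (n 0 z (n 0 z (n 0 z z))))))) (n 0 (n 0 z (n 0
 z (n 0 z (n 0 z (n 0 (n 8790275 z z) (n 0 z (n 0 (n 8790275 z z) z))))))) (n 0 (n 0 z (n 0 z (n
 0 z (n 0 z (n 0 z (n 0 z (n 0 z z))))))) (n 0 (n 0 z (n 0 z (n 0 z (n 0 z (n 0 z (n 0 z (n 0 z
 z))))))) (n 0 (n 0 z (n 0 (n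
 0x30a2ea08038208208208208208208608208208208208208208208208208208208208208208208208208200801 z
 z) (n 0 z (n 0 z (n 0 z (n 0 z (n 0 z z))))))) z)))))))))))))))))))))) (n 51 (n 0 (n 0 z (n 0 z
 (n 0 z (n 0 (n
 0x30e6e80a0382086082082081f82085e8208208208608208608218207e08208218208208208208208208200801 z
 z) (n 0 z (n 0 z (n 0 (n
 0x30e90e82037df8608208208207e081f8608208208608208208208218208208208207e08208208208208200801 z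
 z) z))))))) (n 0 (n 0 z (n 0 z (n 0 z (n 0 z (n 0 z (n 0 z (n 0 z z))))))) (n 0 (n 0 z (n 0 z
 (n 0 z (n 0 (n 8790275 z z) (n 0 z (n 0 z (n 0 (n 8790275 z z) z))))))) (n 0 (n 0 z (n 0 z (n 0
 z (n 0 z (n 0 z (n 0 z (n 0 z z))))))) z)))) (n 537 (n 0 (n 0 z (n 0 (n
 0x1ae650e2a0377a7e37ff7eb8407f77788b07fe85c8a978088261087581190f7969827456fd7bd82494974f8c384085672887b81e7118ba8f88148886559058927a994f69381277595d89381777081d8170811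
 z z) (n 0 z (n 0 (n 8871971 z z) (n 0 z (n 0 z (n 0 z z))))))) (n 0 (n 0 z (n 0 z (n 0 z (n 0 z
 (n 0 z (n 0 z (n 0 z z))))))) (n 0 (n 0 z (n 0 z (n 0 z (n 0 z (n 0 z (n 0 z (n 0 z z))))))) (n
 0 (n 0 z (n 0 z (n 0 z (n 0 z (n 0 z (n 0 z (n 0 z z))))))) (n 0 (n 0 z (n 0 z (n 0 z (n 0 z (n
 0 z (n 0 z (n 0 z z))))))) (n 0 (n 0 z (n 0 z (n 0 z (n 0 z (n 0 z (n 0 z (n 0 z z))))))) (n 0
 (n 0 z (n 0 (n 8663395 z z) (n 0 z (n 0 z (n 0 z (n 0 z (n 0 z z))))))) (n 0 (n 0 z (n 0 z (n 0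
 z (n 0 z (n 0 z (n 0 z (n 0 z z))))))) (n 0 (n 0 z (n 0 z (n 0 z (n 0 z (n 0 z (n 0 z (n 0 z
 z))))))) (n 0 (n 0 z (n 0 z (n 0 z (n 0 z (n 0 z (n 0 z (n 0 z z))))))) z)))))))))) (n 489 (n 0
 (n 0 z (n 0 (n 8663395 z z) (n 0 z (n 0 z (n 0 z (n 0 z (n 0 z z))))))) (n 0 (n 0 z (n 0 z (n 0
 (n 0x50e70e60038a17e081f8207df7a281e86181f7e18a081f8208227df86186285f7a07a08207e17e081e8200801
 z (n
 0x30e70e60038208208208208207e082082182082082082082082181f8208208208208208208208208208200801 z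
 z)) (n 0 z (n 0 z (n 0 z (n 0 z z))))))) (n 0 (n 0 z (n 0 z (n 0 z (n 0 z (n 0 z (n 0 z (n 0 z
 z))))))) (n 0 (n 0 z (n 0 z (n 0 z (n 0 z (n 0 z (n 0 z (n 0 z z))))))) (n 0 (n 0 (n
 0xad8607af8707f87dd8367cf8757798517c583b6ef9256e49367b47b274b82f7b78c58137e19127378117b088d7ce86a86388877f6f88028a980c88b6d48396d293e7df84c8516f08568d87f67bd0051
 z (n
 0xad8607af8707f87dd8367cf8757798517c583b6ef9256e49367b47b274b82f7b78c58137e19127378117b088d7ce86a86388877f6f88028a980c88b6d48396d293e7df84c8516f08568d87f67bd0051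
 z z)) (n 0 (n
 0x5a87580d7f77ff8087f58007f48177f67fe7d38467b78cb7997ec7c58427a581b7e08098067d68647d57f07ea8337aa81182c81781c7f17b98157a08247fc82c7ea8007fa7bf82b8047e47e280e0051
 z (n
 0xad8607af8707f87dd8367cf8757798517c583b6ef9256e49367b47b274b82f7b78c58137e19127378117b088d7ce86a86388877f6f88028a980c88b6d48396d293e7df84c8516f08568d87f67bd0051
 z z)) (n 0 z (n 0 (n 7755819 z (n
 0xad8607af8707f87dd8367cf8757798517c583b6ef9256e49367b47b274b82f7b78c58137e19127378117b088d7ce86a86388877f6f88028a980c88b6d48396d293e7df84c8516f08568d87f67bd0051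
 z z)) (n 0 (n
 0xad8607af8707f87dd8367cf8757798517c583b6ef9256e49367b47b274b82f7b78c58137e19127378117b088d7ce86a86388877f6f88028a980c88b6d48396d293e7df84c8516f08568d87f67bd0051
 z (n
 0xad8607af8707f87dd8367cf8757798517c583b6ef9256e49367b47b274b82f7b78c58137e19127378117b088d7ce86a86388877f6f88028a980c88b6d48396d293e7df84c8516f08568d87f67bd0051
 z z)) (n 0 (n
 0x258757f57f87fd7fd8087fe7e98168018118257f181177e81280d84d7e28527eb7e07f77fb8327cb82080c8077df8277f67cb81b8228088157d38338147f282f7c68047e783b80b8027f480c8020051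
 z (n 7755819 z z)) (n 0 (n
 0xad8607af8707f87dd8367cf8757798517c583b6ef9256e49367b47b274b82f7b78c58137e19127378117b088d7ce86a86388877f6f88028a980c88b6d48396d293e7df84c8516f08568d87f67bd0051
 z (n 7473227 z z)) z))))))) (n 0 (n 0 z (n 0 z (n 0 z (n 0 z (n 0 z (n 0 (n
 0x30eaea060786081f8208208208208608208208208208208208208208208208208208208208208208208200801 z
 z) (n 0 (n
 0x30e70e60078a08207e082082086085f82089e7df7df86281f7e085f81f8208208a086185f82082081f7a00801 z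
 z) z))))))) (n 0 (n 0 z (n 0 z (n 0 z (n 0 z (n 0 z (n 0 z (n 0 z z))))))) (n 0 (n 0 z (n 0 z
 (n 0 z (n 0 z (n 0 z (n 0 z (n 0 z z))))))) (n 0 (n 0 z (n 0 z (n 0 z (n 0 z (n 0 z (n 0 z (n 0
 z z))))))) (n 0 (n 0 z (n 0 z (n 0 z (n 0 (n 8798515 z (n 8798515 z z)) (n 0 z (n 0 (n 8798515
 z (n 8798515 z z)) (n 0 (n 8798515 z (n 8798515 z z)) z))))))) (n 0 (n 0 z (n 0 z (n 0 z (n 0 z
 (n 0 z (n 0 (n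
 0xad8607af8707f87dd8367cf8757798517c583b6ef9256e49367b47b274b82f7b78c58137e19127378117b088d7ce86a86388877f6f88028a980c88b6d48396d293e7df84c8516f08568d87f67bd0051
 z z) (n 0 (n 8795995 z z) z))))))) (n 0 (n 0 z (n 0 z (n 0 z (n 0 z (n 0 z (n 0 z (n 0 z
 z))))))) (n 0 (n 0 z (n 0 z (n 0 z (n 0 z (n 0 z (n 0 z (n 0 z z))))))) (n 0 (n 0 z (n 0 z (n 0
 z (n 0 z (n 0 z (n 0 z (n 0 z z))))))) (n 0 (n 0 z (n 0 z (n 0 z (n 0 z (n 0 z (n 0 z (n 0 z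
 z))))))) (n 0 (n 0 z (n 0 z (n 0 z (n 0 z (n 0 z (n 0 z (n 0 z z))))))) (n 0 (n 0 z (n 0 z (n 0
 z (n 0 z (n 0 z (n 0 z (n 0 z z))))))) (n 0 (n 0 (n 8790275 z z) (n 0 z (n 0 z (n 0 z (n 0 (n
 8790275 z z) (n 0 z (n 0 (n 8790275 z z) z))))))) (n 0 (n 0 z (n 0 z (n 0 z (n 0 z (n 0 z (n 0
 z (n 0 z z))))))) z))))))))))))))))))) (n 75 (n 0 (n 0 z (n 0 z (n 0 z (n 0 (n
 0x30eaea06038208608207e08207df81f8218207e08208208217e18607e081f7e086082082081f82081f8210801 z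
 z) (n 0 z (n 0 (n 8726299 z z) (n 0 z z))))))) (n 0 (n 0 z (n 0 z (n 0 z (n 0 z (n 0 z (n 0 z
 (n 0 z z))))))) (n 0 (n 0 z (n 0 z (n 0 z (n 0 z (n 0 z (n 0 z (n 0 z z))))))) (n 0 (n 0 z (n 0
 z (n 0 z (n 0 z (n 0 z (n 0 z (n 0 z z))))))) (n 0 (n 0 z (n 0 z (n 0 z (n 0 z (n 0 z (n 0 z (n
 0 z z))))))) (n 0 (n 0 z (n 0 z (n 0 z (n 0 z (n 0 z (n 0 z (n 0 z z))))))) (n 0 (n 0 z (n 0 z
 (n 0 z (n 0 z (n 0 z (n 0 z (n 0 z z))))))) (n 0 (n 0 z (n 0 z (n 0 z (n 0 z (n 0 z (n 0 z (n 0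
 z z))))))) (n 0 (n 0 z (n 0 z (n 0 z (n 0 z (n 0 z (n 0 z (n 0 z z))))))) z))))))))) (n 79 (n 0
 (n 0 z (n 0 z (n 0 z (n 0 z (n 0 z (n 0 z (n 0 z z))))))) (n 0 (n 0 z (n 0 (n
 0x3082ec0a0386082082082082082082082081f82082082082082082081f82082082082082082081f8208200801 z
 z) (n 0 z (n 0 z (n 0 z (n 0 z (n 0 z z))))))) (n 0 (n 0 z (n 0 z (n 0 z (n 0 z (n 0 z (n 0 z
 (n 0 z z))))))) (n 0 (n 0 z (n 0 z (n 0 z (n 0 z (n 0 z (n 0 z (n 0 z z))))))) (n 0 (n 0 z (n 0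
 z (n 0 z (n 0 z (n 0 z (n 0 z (n 0 z z))))))) (n 0 (n 0 z (n 0 z (n 0 z (n 0 z (n 0 z (n 0 z (n
 0 z z))))))) (n 0 (n 0 z (n 0 z (n 0 z (n 0 z (n 0 z (n 0 z (n 0 z z))))))) (n 0 (n 0 z (n 0 z
 (n 0 z (n 0 z (n 0 z (n 0 z (n 0 z z))))))) (n 0 (n 0 z (n 0 (n 8859987 z z) (n 0 z (n 0 z (n 0
 z (n 0 z (n 0 z z))))))) (n 0 (n 0 z (n 0 z (n 0 z (n 0 z (n 0 z (n 0 z (n 0 z z)))))))
 z)))))))))) (n 659 (n 0 (n 0 z (n 0 z (n 0 z (n 0 z (n 0 z (n 0 z (n 0 z z))))))) (n 0 (n 0 (n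
 0x21d5cc840e0000020010e436d1021 z z) (n 0 z (n 0 z (n 0 z (n 0 (n 8726379 z z) (n 0 z (n 0 (n
 0x874874203830e8e842078608208208207e08208608208208208208208208208208208208208208208208208208208201001
 z z) z))))))) (n 0 (n 0 z (n 0 z (n 0 z (n 0 z (n 0 z (n 0 z (n 0 z z))))))) (n 0 (n 0 z (n 0 z
 (n 0 z (n 0 z (n 0 z (n 0 z (n 0 z z))))))) (n 0 (n 0 (n 8720451 z z) (n 0 z (n 0 z (n 0 z (n 0
 (n 8720451 z z) (n 0 z (n 0 (n 8720451 z z) z))))))) (n 0 (n 0 z (n 0 z (n 0 z (n 0 z (n 0 z (n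
 0 z (n 0 z z))))))) (n 0 (n 0 z (n 0 z (n 0 z (n 0 z (n 0 z (n 0 z (n 0 z z))))))) (n 0 (n 0 z
 (n 0 z (n 0 z (n 0 (n 8871971 z z) (n 0 z (n 0 (n
 0x30a6e842078208208208608207e085f82085f7e082086182082082082082181f8208208228208618208200801 z
 z) (n 0 z z))))))) (n 0 (n 0 z (n 0 z (n 0 z (n 0 z (n 0 z (n 0 z (n 0 z z))))))) (n 0 (n 0 z
 (n 0 z (n 0 z (n 0 z (n 0 (n 8726379 z z) (n 0 z (n 0 (n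
 0x110e50e280381f7ab7f08188167fe7388b17dd8608118a176f7bd7028118b883a89a7c07698078337cb82b86d84e7bf7be7d77d274d8ac8fb7ec7ac79982e8e479d90c67382d77185e8807ba76781682b0811
 z z) z))))))) (n 0 (n 0 z (n 0 z (n 0 z (n 0 z (n 0 z (n 0 z (n 0 z z))))))) (n 0 (n 0 z (n 0 z
 (n 0 z (n 0 z (n 0 z (n 0 z (n 0 z z))))))) z)))))))))))) (n 609 (n 0 (n 0 z (n 0 z (n 0 z (n 0
 z (n 0 z (n 0 z (n 0 z z))))))) (n 0 (n 0 z (n 0 z (n 0 z (n 0 z (n 0 z (n 0 z (n 0 z z)))))))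
 (n 0 (n 0 z (n 0 z (n 0 z (n 0 z (n 0 z (n 0 z (n 0 z z))))))) (n 0 (n 0 z (n 0 (n
 0x130a2e406037b48137fe7de8367e47e582982581989675a8a96108e78028a67578f27a67d87e07d591372f89582885374d8ae82376983882681a8a271e8e07cd7ec8217a48087d28fc7c182b81b81b7e70811
 z z) (n 0 z (n 0 z (n 0 z (n 0 z (n 0 z z))))))) (n 0 (n 0 z (n 0 z (n 0 z (n 0 z (n 0 z (n 0 z
 (n 0 z z))))))) (n 0 (n 0 z (n 0 z (n 0 z (n 0 z (n 0 z (n 0 z (n 0 z z))))))) (n 0 (n 0 z (n 0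
 z (n 0 z (n 0 z (n 0 z (n 0 z (n 0 z z))))))) (n 0 (n 0 z (n 0 z (n 0 z (n 0 z (n 0 z (n 0 z (n
 0 z z))))))) (n 0 (n 0 z (n 0 (n
 0x5a84380d7f77ff8087f58007f48177f67fe7d38467b78cb7997ec7c58427a581b7e08098067d68647d57f07ea8337aa81182c81781c7f17b98157a08247fc82c7ea8007fa7bf82b8047e47e280e0051
 z (n 8724851 z z)) (n 0 z (n 0 z (n 0 z (n 0 (n
 0x5a84380d7f77ff8087f58007f48177f67fe7d38467b78cb7997ec7c58427a581b7e08098067d68647d57f07ea8337aa81182c81781c7f17b98157a08247fc82c7ea8007fa7bf82b8047e47e280e0051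
 z (n
 0x5a84380d7f77ff8087f58007f48177f67fe7d38467b78cb7997ec7c58427a581b7e08098067d68647d57f07ea8337aa81182c81781c7f17b98157a08247fc82c7ea8007fa7bf82b8047e47e280e0051
 z z)) (n 0 (n
 0x5a84380d7f77ff8087f58007f48177f67fe7d38467b78cb7997ec7c58427a581b7e08098067d68647d57f07ea8337aa81182c81781c7f17b98157a08247fc82c7ea8007fa7bf82b8047e47e280e0051
 z (n
 0x5a84380d7f77ff8087f58007f48177f67fe7d38467b78cb7997ec7c58427a581b7e08098067d68647d57f07ea8337aa81182c81781c7f17b98157a08247fc82c7ea8007fa7bf82b8047e47e280e0051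
 z z)) z))))))) (n 0 (n 0 z (n 0 z (n 0 z (n 0 z (n 0 z (n 0 (n
 0x5a84380d7f77ff8087f58007f48177f67fe7d38467b78cb7997ec7c58427a581b7e08098067d68647d57f07ea8337aa81182c81781c7f17b98157a08247fc82c7ea8007fa7bf82b8047e47e280e0051
 z z) (n 0 (n
 0x5a84380d7f77ff8087f58007f48177f67fe7d38467b78cb7997ec7c58427a581b7e08098067d68647d57f07ea8337aa81182c81781c7f17b98157a08247fc82c7ea8007fa7bf82b8047e47e280e0051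
 z z) z))))))) (n 0 (n 0 z (n 0 z (n 0 z (n 0 z (n 0 z (n 0 z (n 0 z z))))))) (n 0 (n 0 z (n 0 z
 (n 0 (n
 0x1128707d37f47fb8228167fe7aa84a7f581e7e48157e28637717e88328398207c376680684781984080e7f57fc8147af82c81184e8707fd7cd7847e287e7d58a378680c7e280986f7f27a17f080d0051
 z (n
 0x50e70e60038207e08208208207e181f86281f7e08a081f82082281f86186281f7a07e081f7e282081f81f0801 z
 z)) (n 0 z (n 0 z (n 0 z (n 0 z z))))))) (n 0 (n 0 z (n 0 z (n 0 z (n 0 z (n 0 z (n 0 z (n 0 z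
 z))))))) (n 0 (n 0 z (n 0 z (n 0 z (n 0 z (n 0 z (n 0 z (n 0 z z))))))) (n 0 (n 0 (n 8663395 z
 (n 8663395 z z)) (n 0 (n 8663395 z (n 8663395 z z)) (n 0 z (n 0 z (n 0 z (n 0 z (n 0 z z)))))))
 (n 0 (n 0 z (n 0 z (n 0 z (n 0 z (n 0 z (n 0 z (n 0 z z))))))) (n 0 (n 0 z (n 0 z (n 0 z (n 0 z
 (n 0 (n 8720451 z z) (n 0 z (n 0 (n 8720451 z z) z))))))) (n 0 (n 0 z (n 0 z (n 0 z (n 0 z (n 0
 z (n 0 z (n 0 z z))))))) (n 0 (n 0 z (n 0 z (n 0 z (n 0 z (n 0 z (n 0 z (n 0 z z))))))) (n 0 (n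
 0 z (n 0 z (n 0 z (n 0 z (n 0 z (n 0 z (n 0 z z))))))) (n 0 (n 0 z (n 0 z (n 0 z (n 0 z (n 0 z
 (n 0 z (n 0 z z))))))) (n 0 (n 0 z (n 0 z (n 0 z (n 0 z (n 0 z (n 0 z (n 0 z z))))))) (n 0 (n 0
 z (n 0 z (n 0 z (n 0 z (n 0 z (n 0 (n 8798515 z z) (n 0 (n 8798515 z z) z))))))) (n 0 (n 0 z (n
 0 z (n 0 z (n 0 z (n 0 z (n 0 z (n 0 z z))))))) (n 0 (n 0 (n 8790275 z z) (n 0 z (n 0 z (n 0 z
 (n 0 z (n 0 z (n 0 z z))))))) (n 0 (n 0 z (n 0 z (n 0 z (n 0 z (n 0 z (n 0 z (n 0 z z))))))) (n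
 0 (n 0 z (n 0 z (n 0 (n 8790275 z (n 8790275 z z)) (n 0 z (n 0 z (n 0 z (n 0 z z))))))) (n 0 (n
 0 z (n 0 z (n 0 z (n 0 z (n 0 z (n 0 z (n 0 z z))))))) (n 0 (n 0 z (n 0 z (n 0 z (n 0 z (n 0 z
 (n 0 z (n 0 z z))))))) (n 0 (n 0 z (n 0 z (n 0 z (n 0 z (n 0 z (n 0 z (n 0 z z))))))) (n 0 (n 0
 z (n 0 (n
 0x28650a2e038208208208208208208208208608208208208208208208208208208208208208208208208200801 z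
 z) (n 0 z (n 0 z (n 0 z (n 0 z (n 0 z z))))))) (n 0 (n 0 z (n 0 z (n 0 z (n 0 z (n 0 z (n 0 z
 (n 0 z z))))))) (n 0 (n 0 z (n 0 z (n 0 (n
 0x12d86200a70c4012a188002c2100292107ec82d7f77f481d7e384978f83b7e88127958777b085f7cf7b47b27e58118a48177d084b7a47cc7bf83c82a81d83088877373681682a8777fd74d8317248fd7e981c7d674d8308937e47e50151
 z z) (n 0 z (n 0 z (n 0 z (n 0 z z))))))) z))))))))))))))))))))))))))))))))) (n 99 (n 0 (n 0 z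
 (n 0 z (n 0 z (n 0 z (n 0 z (n 0 z (n 0 z z))))))) (n 0 (n 0 z (n 0 z (n 0 z (n 0 z (n 0 z (n 0
 z (n 0 z z))))))) (n 0 (n 0 z (n 0 z (n 0 z (n 0 z (n 0 z (n 0 z (n 0 z z))))))) (n 0 (n 0 z (n
 0 z (n 0 z (n 0 z (n 0 z (n 0 z (n 0 z z))))))) (n 0 (n 0 z (n 0 z (n 0 z (n 0 z (n 0 z (n 0 z
 (n 0 z z))))))) (n 0 (n 0 z (n 0 z (n 0 z (n 0 z (n 0 z (n 0 z (n 0 z z))))))) (n 0 (n 0 z (n 0
 z (n 0 z (n 0 z (n 0 z (n 0 z (n 0 z z))))))) (n 0 (n 0 (n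
 0x10e90e82078608207e08207e082186085f86082082082185f8218218207e182085f8208618208208207df0801 z
 z) (n 0 z (n 0 z (n 0 z (n 0 (n 8726379 z z) (n 0 z (n 0 (n
 0x130ed0e28037d57ff7f47e98357f47cb82d8148248467b385470284a7fb85c7b089b7b17d67f080488f79985d82282a79a84b8067a682a83f80884c77787d8077f28407808027be8a47f381a7ec80480b0811
 z z) z))))))) (n 0 (n 0 z (n 0 z (n 0 z (n 0 z (n 0 z (n 0 z (n 0 z z))))))) z))))))))) (n 103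
 (n 0 (n 0 z (n 0 z (n 0 z (n 0 z (n 0 z (n 0 z (n 0 z z))))))) (n 0 (n 0 z (n 0 z (n 0 z (n 0 z
 (n 0 z (n 0 z (n 0 z z))))))) (n 0 (n 0 z (n 0 z (n 0 z (n 0 z (n 0 z (n 0 z (n 0 z z))))))) (n
 0 (n 0 (n
 0x30eae8420382082082082082082082082082082082082082082082082082081f8208208208208208208200801 z
 z) (n 0 z (n 0 z (n 0 z (n 0 (n 8726379 z z) (n 0 z (n 0 (n
 0x110e50e280381f7ab7f08188167fe7388b17dd8608118a176f7bd7028118b883a89a7c07698078337cb82b86d84e7bf7be7d77d274d8ac8fb7ec7ac79982e8e479d90c67382d77185e8807ba76781682b0811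
 z z) z))))))) (n 0 (n 0 z (n 0 z (n 0 z (n 0 z (n 0 z (n 0 z (n 0 z z))))))) (n 0 (n 0 z (n 0 z
 (n 0 z (n 0 z (n 0 z (n 0 z (n 0 z z))))))) z)))))) (n 102 (n 0 (n 0 (n
 0x5a87180d7f77ff8087f58007f48177f67fe7d38467b78cb7997ec7c58427a581b7e08098067d68647d57f07ea8337aa81182c81781c7f17b98157a08247fc82c7ea8007fa7bf82b8047e47e280e0051
 z (n
 0x10e50e42078a082082082081f82086082081f8208208208208208208208208208608608207e08208208200801 z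
 z)) (n 0 z (n 0 z (n 0 z (n 0 (n
 0x2d8727ee7fd7fb7f88137f97d58267fe81982a7eb81c75d8098048627df87d7c27d37f98168527bb83580f8127ca8267fb7c683383a7f98147ad8518297e084c79280b7d686b8138037df8148060051
 z (n
 0x30e70e640786081f8207e082082186185f86182082082082082182182082082086082086082182081f8200801 z
 z)) (n 0 z (n 0 (n
 0x2d8727ee7fd7fb7f88137f97d58267fe81982a7eb81c75d8098048627df87d7c27d37f98168527bb83580f8127ca8267fb7c683383a7f98147ad8518297e084c79280b7d686b8138037df8148060051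
 z (n
 0x30e70e640786081f8207e082082186185f86182082082082082182182082082086082086082182081f8200801 z
 z)) z))))))) (n 0 (n 0 (n 8663395 z (n 8663395 z z)) (n 0 z (n 0 z (n 0 z (n 0 (n 8663395 z (n
 8663395 z z)) (n 0 z (n 0 (n 8663395 z (n 8663395 z z)) z))))))) (n 0 (n 0 z (n 0 z (n 0 z (n 0
 z (n 0 z (n 0 z (n 0 z z))))))) (n 0 (n 0 (n 8798515 z (n 8798515 z z)) (n 0 z (n 0 z (n 0 z (n
 0 (n 8798515 z (n 8798515 z z)) (n 0 z (n 0 (n 8798515 z (n 8798515 z z)) z))))))) (n 0 (n 0 z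
 (n 0 (n 8798515 z z) (n 0 z (n 0 z (n 0 z (n 0 z (n 0 z z))))))) (n 0 (n 0 z (n 0 z (n 0 z (n 0
 z (n 0 z (n 0 z (n 0 z z))))))) (n 0 (n 0 z (n 0 z (n 0 z (n 0 z (n 0 z (n 0 z (n 0 z z)))))))
 (n 0 (n 0 z (n 0 (n 8798515 z z) (n 0 z (n 0 z (n 0 z (n 0 z (n 0 z z))))))) (n 0 (n 0 z (n 0 z
 (n 0 z (n 0 z (n 0 z (n 0 z (n 0 z z))))))) (n 0 (n 0 z (n 0 z (n 0 z (n 0 z (n 0 z (n 0 z (n 0
 z z))))))) (n 0 (n 0 z (n 0 z (n 0 z (n 0 z (n 0 z (n 0 z (n 0 z z))))))) (n 0 (n 0 z (n 0 (n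
 0x10eae6420382082082082082082082082082082082082082082082081f8208208208208208208208208200801 z
 z) (n 0 z (n 0 (n 8726379 z z) (n 0 z (n 0 z (n 0 z z))))))) (n 0 (n 0 z (n 0 z (n 0 z (n 0 z
 (n 0 z (n 0 z (n 0 z z))))))) (n 0 (n 0 z (n 0 (n 8663395 z z) (n 0 z (n 0 z (n 0 z (n 0 z (n 0
 z z))))))) (n 0 (n 0 (n
 0x258717f57f87fd7fd8087fe7e98168018118257f181177e81280d84d7e28527eb7e07f77fb8327cb82080c8077df8277f67cb81b8228088157d38338147f282f7c68047e783b80b8027f480c8020051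
 z (n
 0x5a83180d7f77ff8087f58007f48177f67fe7d38467b78cb7997ec7c58427a581b7e08098067d68647d57f07ea8337aa81182c81781c7f17b98157a08247fc82c7ea8007fa7bf82b8047e47e280e0051
 z z)) (n 0 (n
 0x5a83180d7f77ff8087f58007f48177f67fe7d38467b78cb7997ec7c58427a581b7e08098067d68647d57f07ea8337aa81182c81781c7f17b98157a08247fc82c7ea8007fa7bf82b8047e47e280e0051
 z (n 8724851 z z)) (n 0 z (n 0 z (n 0 z (n 0 z (n 0 z z))))))) (n 0 (n 0 z (n 0 (n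
 0x5a83180d7f77ff8087f58007f48177f67fe7d38467b78cb7997ec7c58427a581b7e08098067d68647d57f07ea8337aa81182c81781c7f17b98157a08247fc82c7ea8007fa7bf82b8047e47e280e0051
 z z) (n 0 z (n 0 z (n 0 z (n 0 z (n 0 z z))))))) (n 0 (n 0 z (n 0 (n 8656443 z z) (n 0 z (n 0 z
 (n 0 z (n 0 (n 8656443 z z) (n 0 (n 8656443 z z) z))))))) (n 0 (n 0 z (n 0 z (n 0 z (n 0 z (n 0
 z (n 0 z (n 0 z z))))))) (n 0 (n 0 z (n 0 z (n 0 z (n 0 z (n 0 z (n 0 z (n 0 z z))))))) (n 0 (n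
 0 z (n 0 z (n 0 z (n 0 z (n 0 z (n 0 z (n 0 z z))))))) (n 0 (n 0 z (n 0 z (n 0 z (n 0 z (n 0 z
 (n 0 z (n 0 z z))))))) z))))))))))))))))))))) (n 399 (n 0 (n 0 z (n 0 z (n 0 z (n 0 z (n 0 z (n
 0 z (n 0 z z))))))) (n 0 (n 0 z (n 0 z (n 0 z (n 0 z (n 0 z (n 0 z (n 0 z z))))))) (n 0 (n 0 z
 (n 0 z (n 0 z (n 0 z (n 0 z (n 0 z (n 0 z z))))))) (n 0 (n 0 z (n 0 z (n 0 z (n 0 z (n 0 z (n 0
 z (n 0 z z))))))) z)))) (n 263 (n 0 (n 0 z (n 0 z (n 0 z (n 0 z (n 0 z (n 0 z (n 0 z z)))))))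
 (n 0 (n 0 z (n 0 z (n 0 z (n 0 z (n 0 z (n 0 z (n 0 z z))))))) (n 0 (n 0 z (n 0 z (n 0 z (n 0 z
 (n 0 z (n 0 z (n 0 z z))))))) (n 0 (n 0 z (n 0 z (n 0 z (n 0 z (n 0 z (n 0 z (n 0 z z))))))) (n
 0 (n 0 z (n 0 (n
 0x14e650e2a038218017fd7f87ee7fe81e7e87ff7f780c8197e87cd8198128137eb7f282f8387fc7d57e07f180d7fe7f080181c7e77e07e87de80281083c7fe7e880d7bd83180680f7e97d58038288037f80811
 z z) (n 0 z (n 0 z (n 0 z (n 0 z (n 0 z z))))))) (n 0 (n 0 z (n 0 z (n 0 z (n 0 z (n 0 z (n 0 z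
 (n 0 z z))))))) (n 0 (n 0 z (n 0 z (n 0 z (n 0 z (n 0 z (n 0 z (n 0 z z))))))) z))))))) (n 129
 (n 0 (n 0 z (n 0 z (n 0 z (n 0 z (n 0 z (n 0 z (n 0 z z))))))) (n 0 (n 0 z (n 0 z (n 0 z (n 0 z
 (n 0 z (n 0 z (n 0 (n 8873019 z z) z))))))) (n 0 (n 0 z (n 0 z (n 0 z (n 0 (n 8795163 z (n
 8795163 z z)) (n 0 (n 8795163 z (n 8795163 z z)) (n 0 (n 8795163 z (n 8795163 z z)) (n 0 (n
 8795163 z (n 8795163 z z)) z))))))) (n 0 (n 0 z (n 0 z (n 0 z (n 0 z (n 0 z (n 0 (n 8790275 z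
 z) (n 0 (n 8790275 z z) z))))))) (n 0 (n 0 z (n 0 z (n 0 z (n 0 z (n 0 z (n 0 z (n 0 z z)))))))
 (n 0 (n 0 z (n 0 z (n 0 z (n 0 z (n 0 z (n 0 z (n 0 z z))))))) z)))))) (n 29 (n 0 (n 0 z (n 0 z
 (n 0 z (n 0 z (n 0 z (n 0 z (n 0 z z))))))) (n 0 (n 0 z (n 0 z (n 0 z (n 0 (n 8871971 z z) (n 0
 z (n 0 z (n 0 (n 8871971 z z) z))))))) (n 0 (n 0 z (n 0 z (n 0 z (n 0 z (n 0 z (n 0 z (n 0 z
 z))))))) (n 0 (n 0 z (n 0 z (n 0 z (n 0 z (n 0 z (n 0 z (n 0 z z))))))) (n 0 (n 0 z (n 0 z (n 0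
 z (n 0 z (n 0 z (n 0 z (n 0 z z))))))) (n 0 (n 0 z (n 0 (n 8795163 z z) (n 0 z (n 0 z (n 0 z (n
 0 z (n 0 z z))))))) z)))))) (n 1 (n 0 (n 0 z (n 0 z (n 0 z (n 0 z (n 0 z (n 0 z (n 0 z z)))))))
 (n 0 (n 0 z (n 0 z (n 0 z (n 0 z (n 0 z (n 0 z (n 0 z z))))))) (n 0 (n 0 z (n 0 (n 8790275 z z)
 (n 0 z (n 0 z (n 0 z (n 0 (n 8790275 z z) (n 0 z z))))))) (n 0 (n 0 (n 8798515 z (n 8798515 z
 z)) (n 0 z (n 0 z (n 0 z (n 0 (n 8798515 z (n 8798515 z z)) (n 0 z (n 0 z z))))))) (n 0 (n 0 z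
 (n 0 z (n 0 z (n 0 z (n 0 z (n 0 z (n 0 z z))))))) (n 0 (n 0 z (n 0 z (n 0 z (n 0 z (n 0 z (n 0
 z (n 0 z z))))))) (n 0 (n 0 z (n 0 z (n 0 z (n 0 z (n 0 z (n 0 z (n 0 z z))))))) z))))))) (n 0
 (n 0 (n 0 z (n 0 z (n 0 z (n 0 z (n 0 z (n 0 z (n 0 z z))))))) (n 0 (n 0 z (n 0 z (n 0 z (n 0 z
 (n 0 z (n 0 z (n 0 z z))))))) (n 0 (n 0 z (n 0 z (n 0 z (n 0 z (n 0 z (n 0 z (n 0 z z))))))) (n
 0 (n 0 z (n 0 z (n 0 z (n 0 z (n 0 z (n 0 z (n 0 z z))))))) z)))) z))))))))))))))))))))) z))))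
 z) z)))) (n 0x2cf4b867a4c1e7230749110e27961a2450896598872cf010c540 (n 0 (n 693 (n 6496323 z (n
 0 z (n 0 z (n 0 z (n 0 z (n 6619675 z (n 0 z (n 2 z (n 0 z (n
 0x16c86a8640703b8c6208e98c42fcb1885986317ad7c788179a5cc93d8869c56748ce8797d28128129686947ca85478c61a9a37528af73f8216f57518ee80778c83d88f81870189c8a87e57b87d47fb74c7eb9646547ab7da9068857208b90911
 z (n 10 z (n 0 z (n 6619675 z (n 0 z (n 0 z (n 0 z (n 0 z (n 0 z (n 0 z z))))))))))))))))))) (n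
 33 (n 0 z (n 0 z (n 18 z (n 0 z (n 3278363 z z))))) (n 9 (n 26 z (n 0 z (n 34 z (n 0 z (n
 6496323 z z))))) (n 27 (n 42 z (n 6496323 z (n 0 z z))) (n 1 (n 0 z (n 50 z (n 2164299 z (n
 0xaca6ca620700b8c4001698800bcb1001786207ea7f08247c478e82d82287479483b81780080580183f7ad7f58117d17b084d7e08227dd8087c77ef82a7f47f18108058137bf81481d7ed7f87fc7f57e87d586b7937ee7f483782b7dc82a0911
 z (n
 0xaca4ca42037fd8028038028087e77ec81a7f680e80080a8087ec7fc7ff7fa80580e8077ef7fd7fc8087fb80c8127f97e58098097f080d7f67fe8087dd7ff8027f58167d581e7e68088038088067fd8080811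
 z (n 0 z (n
 0x16ca6c642070178c2002e984011cb0802386107e07f88148617128a47f68b776d86682a7ee82a7d78ba7607d682a81673487b7b48557d67fa7ad7a28797de7ab84d85f7e07c784c8807bd7d87c48047e582386872a7dd81489281b76486e0911
 z (n 0 z (n 0 z (n 58 z (n 66 z z))))))))))) (n 0 (n 0 z (n 6619675 z (n 74 z (n 6619675 z (n 0
 z (n 0 z z)))))) z)))))) (n 27 (n 0 (n 0 z (n 167 (n 0 z (n 0 z (n 0 z (n 0 z (n 0 z (n 0 z (n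
 0 z (n 0 z (n 2 (n 1 z (n 1 z (n 2 (n 0 (n 1949 z z) (n 0 z (n 0 z (n 0 z (n 0 (n 8783691 z (n
 7669819 z z)) (n 0 (n 660 z z) z)))))) (n 1 z (n 2 (n 0 z (n 0 (n 8855891 z z) (n 0 (n 8855891
 z z) (n 0 z (n 0 (n 8855891 z (n 8855891 z z)) (n 0 z z)))))) (n 1 z (n 2 (n 0 (n 6359115 z z)
 (n 0 z (n 0 (n 3278971 z z) (n 0 z (n 0 (n 3278971 z (n 3278971 z z)) (n 0 z z)))))) z)))))))
 z))))))))) (n 1005 (n 0 z (n 0 z (n 0 z (n 0 z (n 0 z z))))) (n 1005 (n 0 z (n 0 z (n 0 z (n 0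
 z (n 0 z z))))) (n 165 (n 0 z (n 0 z (n 0 z (n 0 z (n 0 z (n 2 (n 1 z (n 2 (n 0 z (n 0 z (n 0 z
 (n 0 z (n 0 z (n 0 z z)))))) (n 2 (n 0 z (n 0 (n 2124 z z) (n 0 z (n 0 z (n 0 (n 2124 z (n
 7680387 z z)) (n 0 (n 6631811 z z) z)))))) (n 2 (n 0 (n 6359115 z z) (n 0 z (n 0 z (n 0 z (n 0
 (n 7407691 z (n 8718139 z z)) (n 0 (n 644 z z) z)))))) z)))) (n 0 z (n 0 z z)))))))) (n 531 (n
 0 z (n 0 z (n 0 z (n 0 z z)))) (n 531 (n 0 z (n 0 z (n 0 z (n 0 z z)))) (n 531 (n 0 z (n 0 z (n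
 0 z (n 6358859 z z)))) (n 161 (n 0 z (n 0 z (n 0 z (n 0 z (n 6358859 z z))))) z))))))))) (n 0
 (n 167 (n 0 z (n 0 z (n 0 z (n 0 z (n 0 z (n 0 z (n 0 z (n 0 z (n 0 z (n 0 z (n 0 z (n 0 z (n 0
 z (n 0 z (n 0 z (n 0 z (n 0 z (n 0 z (n 0 z z))))))))))))))))))) (n 1385 (n 0 z (n 0 z (n 0 z
 (n 0 z (n 0 z (n 2 (n 0 z (n 1 z (n 2 (n 0 z (n 0 z (n 0 z (n 0 z (n 0 z (n 0 z z)))))) (n 1 z
 (n 1 z (n 1 z z)))))) (n 0 z (n 0 z (n 0 z (n 0 z (n 0 z (n 0 z (n 0 z (n 0 z (n 0 z (n 0 z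
 z)))))))))))))))) (n 1385 (n 0 z (n 0 z (n 0 z (n 0 z (n 0 z (n 0 z (n 0 z (n 0 z (n 0 z (n 0 z
 (n 0 z (n 0 z (n 0 z (n 0 z (n 0 z (n 0 z z)))))))))))))))) (n 165 (n 0 z (n 0 z (n 0 z (n 0 z
 (n 0 z (n 0 z (n 0 z (n 2 (n 2 (n 0 z (n 0 z (n 0 z (n 0 z (n 0 z (n 0 z z)))))) (n 1 z (n 1 z
 (n 1 z z)))) (n 0 z (n 0 z (n 0 z (n 0 z (n 0 z (n 0 z (n 0 z (n 0 z z)))))))))))))))) (n 303
 (n 0 z (n 0 z (n 0 z (n 0 z (n 0 z (n 0 z (n 0 z (n 0 z (n 0 z (n 0 z (n 0 z (n 0 z (n 0 z (n 0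
 z (n 0 z (n 0 z z)))))))))))))))) (n 303 (n 0 z (n 0 z (n 0 z (n 0 z (n 0 z (n 0 z (n 0 z (n 0
 z (n 0 z (n 0 z (n 0 z (n 0 z (n 0 z (n 0 z (n 0 z (n 0 z z)))))))))))))))) (n 303 (n 0 z (n 0
 z (n 0 z (n 0 z (n 0 z (n 0 z (n 0 z (n 0 z (n 0 z (n 0 z (n 0 z (n 0 z (n 0 z (n 0 z (n 0 z (n
 0 z z)))))))))))))))) (n 301 (n 0 z (n 0 z (n 0 z (n 0 z (n 0 z (n 0 z (n 0 z (n 0 z (n 0 z (n
 0 z (n 0 z (n 0 z (n 0 z (n 0 z (n 0 z (n 0 z (n 0 z (n 0 z (n 0 z z)))))))))))))))))))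
 z)))))))) (n 0 (n 921 (n 2 (n 0 z (n 1 z (n 2 (n 0 z (n 0 z (n 0 z (n 0 z (n 0 (n 252 z z) (n 0
 z z)))))) (n 2 (n 0 z (n 0 z (n 0 z (n 0 z (n 0 z (n 0 z z)))))) (n 1 z (n 1 z z)))))) (n 0 z
 (n 0 z (n 0 z z)))) (n 921 (n 0 z (n 0 z (n 0 z (n 0 z z)))) (n 487 (n 2 (n 2 (n 0 z (n 0 z (n
 0 z (n 0 z (n 0 z (n 0 z z)))))) (n 2 (n 0 z (n 0 z (n 0 z (n 0 z (n 0 z (n 0 z z)))))) (n 1 z
 (n 2 (n 0 z (n 0 z (n 0 z (n 0 z (n 0 z (n 0 z z)))))) z)))) (n 0 z (n 0 z (n 0 z (n 0 z z)))))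
 (n 63 (n 0 z (n 0 z (n 0 z (n 0 z (n 0 z (n 0 z (n 0 z (n 0 z z)))))))) (n 63 (n 0 z (n 0 z (n
 0 z (n 0 z (n 0 z (n 0 z (n 0 z (n 0 z z)))))))) (n 63 (n 0 z (n 0 z (n 0 z (n 0 z (n 0 z (n 0
 z (n 0 z (n 0 z z)))))))) (n 61 (n 0 z (n 0 z (n 0 z (n 0 z (n 0 z (n 0 z (n 0 z (n 0 z (n 0 z
 z))))))))) z))))))) (n 0 (n 0 z (n 661 (n 0 z (n 0 z (n 0 z (n 0 z (n 0 z (n 0 z (n 0 z (n 0 z
 (n 0 z (n 0 z (n 0 z (n 0 z (n 0 z (n 0 z (n 0 z (n 0 z z)))))))))))))))) (n 15 (n 0 z (n 0 z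
 (n 0 z (n 0 z (n 0 z (n 0 z (n 0 z (n 0 z (n 0 z (n 0 z z)))))))))) (n 15 (n 0 z (n 0 z (n 0 z
 (n 0 z (n 0 z (n 0 z (n 0 z (n 0 z (n 0 z (n 2 (n 0 z (n 1 z z)) z)))))))))) (n 15 (n 0 z (n 0
 z (n 0 z (n 0 z (n 0 z (n 0 z (n 0 z (n 0 z (n 2 (n 1 z z) (n 0 z z)))))))))) (n 13 (n 0 z (n 0
 z (n 0 z (n 2 z (n 0 z (n 0 z (n 0 z (n 0 z (n 0 z (n 0 z z)))))))))) z)))))) (n 0 (n 27 (n 0 z
 (n 0 z (n 2 (n 2 (n 0 z (n 0 z (n 0 z (n 0 z (n 0 (n 60 z z) (n 0 z z)))))) (n 1 z (n 1 z (n 1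
 z z)))) (n 0 z (n 0 z z))))) (n 15 (n 0 z (n 0 z (n 0 z (n 0 z (n 0 z (n 0 z (n 0 z (n 0 z (n 0
 z z))))))))) (n 15 (n 0 z (n 0 z (n 0 z (n 0 z (n 0 z (n 0 z (n 0 z (n 0 z (n 0 z z))))))))) (n
 15 (n 0 z (n 0 z (n 0 z (n 0 z (n 0 z (n 0 z (n 0 z (n 0 z (n 0 z z))))))))) (n 17 (n 0 z (n 0
 z (n 0 z (n 0 z (n 0 z (n 0 z (n 0 z (n 0 z (n 0 z (n 0 z (n 0 z (n 0 z (n 0 z z)))))))))))))
 z))))) (n 0 (n 51 (n 0 z (n 0 z (n 2 (n 0 z (n 0 z (n 1 z z))) (n 0 z (n 0 z (n 0 z (n 0 z (n 0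
 z (n 0 z (n 0 z (n 0 z z))))))))))) (n 51 (n 0 z (n 0 z (n 0 z (n 0 z (n 0 z (n 0 z (n 0 z (n 0
 z (n 0 z (n 0 z (n 2 (n 0 z (n 1 z z)) z))))))))))) (n 51 (n 0 z (n 0 z (n 0 z (n 0 z (n 0 z (n
 0 z (n 0 z (n 0 z (n 0 z (n 2 (n 1 z z) (n 0 z z))))))))))) (n 49 (n 0 z (n 0 z (n 2 z (n 0 z
 (n 0 z (n 0 z z)))))) z)))) (n 0 (n 0 z (n 0 z (n 1 (n 0 z (n 0 z (n 0 z (n 0 z (n 0 z (n 0 z
 z)))))) z))) (n 0 (n 0 z (n 1 (n 0 z (n 0 z (n 0 z (n 0 z (n 0 z (n 0 z (n 0 z (n 0 z (n 0 z (n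
 0 z (n 0 z (n 0 z (n 0 z (n 0 z z)))))))))))))) z)) (n 0 (n 1 (n 0 z (n 0 z (n 0 z (n 0 z (n 0
 z (n 0 z (n 0 z (n 0 z (n 0 z (n 0 z (n 0 z z))))))))))) z) (n 0 z z)))))))))) (n 0 (n 1 (n
 5548 z (n 5548 z (n 5548 z (n 5548 z (n 5548 z (n 5548 z z)))))) (n 1 (n 6496323 z (n 6496323 z
 (n 6496323 z (n 6496323 z (n 6496323 z (n 6496323 z z)))))) (n 0 z z))) (n 0 z z)))) (n
 0x325150ce8eb094510734881d1c78289a6346de4224e21aa4c88d267065e4822f2500 (n 0x1e4a2 (n 467 (n 0 z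
 (n 0 z (n 3282443 z (n 2 z (n 0 z z))))) (n 461 (n 10 z (n 6562131 z (n 0 z (n 0 z (n
 0x7594c13cb2982586537fe6da9107da7d880075891681c7f29646ce7a282461181e96c7e285a7a662897275e91171487594a8516ca7b09007998da8337e87a674291177679092e63a7e48009cf83782e70788780e00d1
 z (n 0 z (n 18 z z))))))) (n 135 (n 26 z (n 0 z (n 0 z (n 34 z (n
 0x10ca8ca820381b73d8ee80e7537f977d93f76184a80371d7e182c7a58208127fe7086ac85485093b76e8627c69517cc70e82789d8d38a083379876a7668947ea7817a76108b781d98c7827ec7c08cc7900811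
 z (n 42 z (n 0 z (n 0 z (n 0 z (n 6562131 z z)))))))))) (n 3 (n 6632475 z (n 0 z (n 50 z (n
 0x3fac2009f184013db0800786107fe8427f881676a80081684e7548566e48098247e891d8007148006c070b98e7109bb6b99677718a57c57c983c88391f78b82e7937d880578b7fd7e06ae7398ac80088f7518297fc8967aa0111
 z (n 6632475 z (n 58 z (n 6632475 z (n 6632475 z (n 0 z z))))))))) (n 1 (n 66 z (n 0 z (n 0 z
 (n 0 z (n 74 z (n 82 z (n 0 z (n 0 z (n 0 z (n 0 z (n 0 z (n 0 z (n 0 z (n 0 z (n 0 z (n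
 6562131 z z)))))))))))))))) (n 0 (n 0 z (n 0 z (n 0 z (n 90 z (n 6632475 z (n 98 z (n 0 z
 z))))))) z)))))) (n 467 (n 0 (n 923 (n 0 z (n 0 z (n 0 z (n 0 z (n 0 z (n 0 z (n 0 z (n 0 z (n
 0 z z))))))))) (n 923 (n 0 z (n 0 z (n 0 z (n 0 z (n 0 z (n 0 z (n 0 z (n 0 z (n 2 (n 2 (n 0 z
 (n 0 z (n 0 z (n 0 z (n 0 z (n 0 z z)))))) (n 2 (n 0 z (n 0 z (n 0 z (n 0 z (n 0 z (n 0 z
 z)))))) (n 1 z (n 2 (n 0 z (n 0 z (n 0 z (n 0 z (n 0 z (n 0 z z)))))) (n 1 z (n 2 (n 0 z (n 0 z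
 (n 0 z (n 0 z (n 0 z (n 0 z z)))))) (n 2 (n 0 z (n 0 z (n 0 z (n 0 z (n 0 z (n 0 z z)))))) (n 1
 z (n 2 (n 0 z (n 0 z (n 0 z (n 0 z (n 0 z (n 0 z z)))))) (n 1 z z)))))))))) z))))))))) (n 915
 (n 0 z (n 0 z (n 0 z (n 0 z (n 0 z (n 0 z (n 0 z (n 2 (n 0 z (n 0 z (n 2 (n 0 z (n 0 z (n 0 z
 (n 0 z (n 0 z (n 0 z z)))))) (n 1 z (n 2 (n 0 z (n 0 z (n 0 z (n 0 z (n 0 z (n 0 z z)))))) (n 1
 z (n 1 z (n 2 (n 0 z (n 0 z (n 0 z (n 0 z (n 0 z (n 0 z z)))))) (n 1 z z))))))))) (n 0 z (n 0 z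
 (n 0 z (n 0 z (n 0 z z))))))))))))) (n 915 (n 0 z (n 0 z (n 0 z (n 0 z (n 0 z (n 0 z (n 0 z (n
 0 z (n 0 z (n 0 z (n 0 z (n 0 z (n 0 z z))))))))))))) (n 915 (n 0 z (n 0 z (n 0 z (n 0 z (n 0 z
 (n 0 z (n 0 z (n 0 z (n 0 z (n 0 z (n 0 z (n 0 z (n 0 z z))))))))))))) (n 491 (n 0 z (n 0 z (n
 0 z (n 2 (n 0 z (n 2 (n 0 z (n 0 z (n 0 z (n 0 z (n 0 z (n 0 z z)))))) (n 1 z (n 1 z (n 2 (n 0
 z (n 0 z (n 0 z (n 0 z (n 0 z (n 0 z z)))))) (n 1 z z)))))) (n 0 z (n 0 z (n 0 z (n 0 z (n 0 z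
 (n 0 z (n 0 z (n 0 z (n 0 z (n 0 z (n 0 z (n 0 z z)))))))))))))))) (n 491 (n 0 z (n 0 z (n 0 z
 (n 0 z (n 0 z (n 0 z (n 0 z (n 0 z (n 0 z (n 0 z (n 0 z (n 0 z (n 0 z (n 0 z (n 0 z (n 0 z
 z)))))))))))))))) (n 913 (n 0 z (n 0 z (n 0 z (n 0 z (n 0 z z))))) (n 913 (n 0 z (n 0 z (n 0 z
 (n 0 z (n 0 z z))))) (n 913 (n 0 z (n 0 z (n 0 z (n 0 z (n 0 z z))))) (n 61 (n 0 z (n 0 z (n 2
 (n 0 z z) (n 0 z z)))) (n 61 (n 0 z (n 0 z (n 0 z (n 0 z z)))) z)))))))))))) (n 0 (n 0 z (n 927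
 (n 0 z (n 0 z (n 0 z (n 0 z (n 0 z (n 0 z (n 0 z (n 0 z (n 0 z (n 0 z (n 0 z z))))))))))) (n
 927 (n 0 z (n 0 z (n 0 z (n 0 z (n 0 z (n 0 z (n 0 z (n 0 z (n 0 z (n 0 z (n 0 z z)))))))))))
 (n 927 (n 0 z (n 0 z (n 0 z (n 0 z (n 0 z (n 0 z (n 0 z (n 0 z (n 0 z (n 0 z (n 0 z
 z))))))))))) (n 251 (n 0 z (n 0 z (n 0 z (n 0 z (n 0 z (n 0 z (n 0 z (n 0 z (n 0 z (n 0 z (n 0
 z (n 0 z (n 0 z (n 0 z (n 0 z z))))))))))))))) (n 251 (n 0 z (n 0 z (n 0 z (n 0 z (n 0 z (n 0 z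
 (n 0 z (n 0 z (n 0 z (n 0 z (n 0 z (n 0 z (n 0 z (n 0 z (n 0 z z))))))))))))))) (n 925 (n 0 z
 (n 0 z (n 0 z (n 0 z (n 0 z (n 0 z (n 0 z (n 0 z (n 0 z (n 0 z z)))))))))) (n 925 (n 0 z (n 0 z
 (n 0 z (n 0 z (n 0 z (n 0 z (n 0 z (n 0 z (n 0 z (n 0 z z)))))))))) (n 925 (n 0 z (n 0 z (n 0 z
 (n 0 z (n 0 z (n 0 z (n 0 z (n 0 z (n 0 z (n 0 z z)))))))))) (n 13 (n 0 z (n 0 z (n 2 (n 0 z z)
 (n 0 z (n 0 z (n 0 z z)))))) (n 13 (n 0 z (n 0 z (n 0 z (n 0 z (n 0 z (n 0 z z))))))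
 z))))))))))) (n 0 (n 807 (n 0 z (n 0 z (n 0 z (n 0 z (n 0 z (n 0 z (n 0 z (n 0 z (n 0 z (n 0 z
 (n 0 z (n 0 z (n 0 z (n 0 z z)))))))))))))) (n 807 (n 0 z (n 0 z (n 0 z (n 0 z (n 0 z (n 0 z (n
 0 z (n 0 z (n 0 z (n 0 z (n 0 z (n 0 z (n 0 z (n 0 z z)))))))))))))) (n 807 (n 0 z (n 0 z (n 0
 z (n 0 z (n 0 z (n 0 z (n 0 z (n 0 z (n 0 z (n 0 z (n 0 z (n 0 z (n 0 z (n 0 z z))))))))))))))
 (n 441 (n 0 z (n 0 z (n 0 z (n 0 z (n 0 z (n 0 z (n 0 z (n 0 z (n 0 z (n 0 z (n 0 z (n 0 z (n 0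
 z (n 0 z (n 0 z (n 0 z (n 0 z z))))))))))))))))) (n 441 (n 0 z (n 0 z (n 0 z (n 0 z (n 0 z (n 0
 z (n 0 z (n 0 z (n 0 z (n 0 z (n 0 z (n 0 z (n 0 z (n 0 z (n 0 z (n 0 z (n 0 z
 z))))))))))))))))) (n 805 (n 0 z (n 0 z (n 0 z (n 0 z (n 0 z (n 0 z (n 0 z (n 0 z (n 0 z (n 0 z
 (n 0 z z))))))))))) (n 805 (n 0 z (n 0 z (n 0 z (n 0 z (n 0 z (n 0 z (n 0 z (n 0 z (n 0 z (n 0
 z (n 0 z z))))))))))) (n 805 (n 0 z (n 0 z (n 0 z (n 0 z (n 0 z (n 0 z (n 0 z (n 0 z (n 0 z (n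
 0 z (n 0 z z))))))))))) (n 773 (n 0 z (n 0 z (n 0 z (n 0 z (n 0 z (n 0 z (n 0 z (n 0 z
 z)))))))) (n 773 (n 0 z (n 2 z (n 0 z (n 0 z (n 0 z (n 0 z (n 0 z (n 0 z z)))))))) z))))))))))
 (n 0 (n 0 z (n 0 z (n 267 (n 0 z (n 0 z (n 0 z (n 0 z (n 0 z (n 0 z (n 0 z (n 0 z (n 0 z (n 0 z
 (n 0 z (n 0 z (n 0 z z))))))))))))) (n 267 (n 0 z (n 0 z (n 0 z (n 0 z (n 0 z (n 0 z (n 0 z (n
 0 z (n 0 z (n 0 z (n 0 z (n 0 z (n 0 z z))))))))))))) (n 853 (n 0 z (n 0 z (n 0 z (n 0 z (n 0 z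
 (n 0 z z)))))) (n 853 (n 0 z (n 0 z (n 0 z (n 0 z (n 0 z (n 0 z z)))))) (n 853 (n 0 z (n 0 z (n
 0 z (n 0 z (n 0 z (n 0 z z)))))) (n 269 (n 0 z (n 0 z (n 0 z (n 0 z (n 0 z (n 0 z (n 0 z (n 0 z
 (n 0 z (n 0 z (n 0 z (n 0 z (n 0 z (n 0 z (n 0 z (n 0 z (n 0 z (n 0 z (n 0 z (n 0 z (n 0 z (n 0
 z (n 0 z (n 0 z (n 0 z (n 0 z (n 0 z (n 0 z (n 0 z (n 0 z (n 0 z (n 0 z (n 0 z (n 0 z (n 0 z (n
 0 z (n 0 z (n 0 z (n 0 z (n 0 z (n 0 z (n 0 z (n 0 z (n 0 z (n 0 z (n 0 z (n 0 z (n 0 z (n 0 z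
 (n 0 z (n 0 z z))))))))))))))))))))))))))))))))))))))))))))))))))) (n 269 (n 0 z (n 0 z (n 0 z
 (n 0 z (n 0 z (n 0 z (n 0 z (n 0 z (n 0 z (n 0 z (n 0 z (n 0 z (n 0 z (n 0 z (n 0 z (n 0 z (n 0
 z (n 0 z (n 0 z (n 0 z (n 0 z (n 0 z (n 2 z (n 0 z (n 0 z (n 0 z (n 0 z (n 0 z (n 0 z (n 0 z (n
 0 z (n 0 z (n 0 z (n 0 z (n 0 z (n 0 z (n 0 z (n 0 z (n 0 z (n 0 z (n 0 z (n 0 z (n 0 z (n 0 z
 (n 0 z (n 0 z (n 0 z (n 0 z (n 0 z (n 0 z (n 0 z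
 z))))))))))))))))))))))))))))))))))))))))))))))))))) z))))))))) (n 0 (n 0 z (n 273 (n 0 z (n
 0xdbaec01b71d8000dbb00058760774a196ac833b288029d5570a746c46fa9e08ec7776d37816fa87da70cd55768092a890b676a6c6709159e071666e48d6e88378a0c7e8bd6af7ca9c896cc7c4b080029aa547a56c75ad9ae0111
 z (n 0 z (n 0 z (n 0 z (n 0 z (n 0 z (n 0 z (n 0 z (n 0 z (n 0 z (n 0 z (n 0 z (n 0 z (n 0 z (n
 0 z (n 0 z z))))))))))))))))) (n 273 (n 0 z (n 0 z (n 0 z (n 0 z (n 0 z (n 0 z (n 0 z (n 0 z (n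
 0 z (n 0 z (n 0 z (n 0 z (n 0 z (n 0 z (n 0 z (n 0 z (n 0 z z))))))))))))))))) (n 937 (n 0 z (n
 0 z (n 0 z (n 0 z (n 0 z (n 0 z (n 0 z (n 0 z (n 0 z (n 0 z (n 0 z (n 0 z (n 0 z (n 0 z (n 0 z
 (n 0 z z)))))))))))))))) (n 937 (n 0 z (n 0 z (n 0 z (n 0 z (n 0 z (n 0 z (n 0 z (n 0 z (n 0 z
 (n 0 z (n 0 z (n 0 z (n 0 z (n 0 z (n 0 z (n 2 (n 0 z (n 2 (n 0 (n 1076 z z) (n 0 z (n 0 z (n 0
 z (n 0 (n 1076 z (n 1076 z z)) (n 0 z z)))))) (n 1 z z))) z)))))))))))))))) (n 937 (n 0 z (n 0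
 z (n 0 z (n 0 z (n 0 z (n 0 z (n 0 z (n 0 z (n 0 z (n 0 z (n 0 z (n 0 z (n 0 z (n 0 z (n 0 z (n
 0 z z)))))))))))))))) (n 269 (n 0 z (n 0 z (n 0 z (n 0 z (n 0 z (n 0 z z)))))) (n 269 (n 0 z (n
 0 z (n 0 z (n 0 z (n 0 z (n 0 z z)))))) z)))))))) (n 0 (n 267 (n 0 z (n 0 z (n 0 z (n 0 z (n 0
 z (n 0 z (n 0 z (n 0 z z)))))))) (n 267 (n 0 z (n 0 z (n 0 z (n 0 z (n 0 z (n 0 z (n 0 z (n 0 z
 z)))))))) (n 937 (n 0 z (n 0 z (n 0 z (n 0 z (n 0 z (n 0 z (n 0 z (n 0 z (n 0 z (n 0 z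
 z)))))))))) (n 937 (n 0 z (n 0 z (n 0 z (n 0 z (n 0 z (n 0 z (n 0 z (n 0 z (n 0 z (n 0 z
 z)))))))))) (n 937 (n 0 z (n 0 z (n 0 z (n 0 z (n 0 z (n 0 z (n 0 z (n 0 z (n 0 z (n 0 z
 z)))))))))) (n 269 (n 0 z (n 0 z (n 0 z (n 0 z (n 0 z (n 0 z (n 2 (n 0 z z) z))))))) (n 269 (n
 0 z (n 0 z (n 0 z (n 0 z (n 0 z (n 0 z (n 0 z z))))))) z))))))) (n 0 (n 0 z (n 3 (n 0 z (n 0 z
 (n 0 z (n 0 z (n 0 z (n 0 z (n 0 z (n 0 z z)))))))) (n 3 (n 0 z (n 0 z (n 0 z (n 0 z (n 0 z (n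
 0 z (n 0 z (n 0 z z)))))))) (n 3 (n 0 z (n 0 z (n 0 z (n 0 z (n 0 z (n 0 z (n 0 z (n 0 z
 z)))))))) (n 5 (n 0 z (n 0 z (n 0 z (n 0 z (n 0 z (n 0 z (n 0 z (n 0 z (n 0 z (n 0 z (n 0 z (n
 0 z z)))))))))))) (n 5 (n 0 z (n 0 z (n 0 z (n 0 z (n 0 z (n 0 z (n 2 z (n 0 z (n 0 z (n 0 z (n
 0 z (n 0 z z)))))))))))) z)))))) (n 0 (n 3 (n 0 z (n 0 z (n 0 z (n 0 z (n 0 z (n 0 z (n 0 z (n
 0 z (n 0 z (n 0 z (n 0 z z))))))))))) (n 3 (n 0 z (n 0 z (n 0 z (n 2 (n 0 z (n 2 (n 0 z (n 0 z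
 (n 0 z (n 0 z (n 0 z (n 0 z z)))))) (n 1 z z))) (n 0 z (n 0 z (n 0 z (n 0 z (n 0 z (n 0 z (n 0
 z z))))))))))) (n 3 (n 0 z (n 0 z (n 0 z (n 0 z (n 0 z (n 0 z (n 0 z (n 0 z (n 0 z (n 0 z (n 0
 z z))))))))))) (n 1 (n 0 z (n 2 (n 0 z z) (n 0 z (n 0 z (n 0 z (n 0 z (n 0 z (n 0 z (n 0 z (n 0
 z (n 0 z z))))))))))) (n 1 (n 0 z (n 0 z (n 0 z (n 0 z (n 0 z (n 0 z (n 0 z (n 0 z (n 0 z (n 0
 z (n 0 z z))))))))))) z))))) (n 0 (n 0 z (n 0 z (n 1 (n 0 z (n 0 z (n 0 z (n 0 z z)))) (n 1 (n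
 0 z (n 0 z (n 0 z (n 0 z z)))) z)))) (n 0 (n 0 z (n 1 (n 0 z (n 0 z (n 0 z (n 0 z (n 0 z (n 0 z
 (n 0 z z))))))) (n 1 (n 0 z (n 0 z (n 0 z (n 0 z (n 0 z (n 0 z (n 0 z z))))))) z))) (n 0 (n 5
 (n 0 z (n 0 z (n 0 z (n 0 z (n 0 z (n 0 z z)))))) (n 5 (n 0 z (n 0 z (n 0 z (n 0 z (n 0 z (n 0
 z z)))))) z)) (n 0 (n 0 z z) (n 0 z z))))))))))))) (n 0 (n 0 z (n 0 z (n 1 (n 3282443 z (n
 3282443 z (n 3282443 z (n 3282443 z (n 3282443 z (n 3282443 z z)))))) (n 1 (n 3692 z (n 2 z (n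
 3692 z (n 3692 z (n 3692 z (n 3692 z z)))))) (n 0 z z))))) (n 0 (n 0 (n 0 (n 0 (n 7746051 z (n
 7746051 z (n 7746051 z (n 7746051 z (n 7746051 z (n 7746051 z z)))))) z) (n 0 (n 30 (n 1 (n
 7544931 z (n 7544931 z (n 7544931 z (n 7544931 z (n 7544931 z (n 7610707 z z)))))) (n 0 z (n 1
 (n 3740 z (n 3740 z (n 3740 z (n 3740 z (n 3740 z (n 7610707 z z)))))) (n 1 (n 7754307 z (n
 7754307 z (n 7754307 z (n 7754307 z (n 7754307 z (n 7754307 z z)))))) z)))) (n 6 (n 1 (n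
 3278619 z (n 3278619 z (n 3278619 z (n 3278619 z (n 3278619 z (n 7610707 z z)))))) (n 1 (n 3740
 z (n 3740 z (n
 0x3faea609f1d4c13dba980787537fe8427f881676a80081684e7548566e48098247e891d8007148006c070b98e7109bb6b99677718a57c57c983c88391f78b82e7937d880578b7fd7e06ae7398ac80088f7518297fc8967aa0111
 z (n 3740 z (n 3740 z (n 7610707 z z)))))) (n 1 (n 3740 z (n 3708 z (n 3740 z (n 3740 z (n 3740
 z (n 7610707 z z)))))) (n 1 (n 3740 z (n 3740 z (n 3740 z (n 3740 z (n 3740 z (n 7610707 z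
 z)))))) (n 0 z (n 1 (n 7754307 z (n 7754307 z (n 7754307 z (n 7754307 z (n 7754307 z (n 7754307
 z z)))))) z)))))) (n 134 (n 0 z (n 1 (n 7746051 z (n 7746051 z (n 7746051 z (n 7746051 z (n
 7746051 z (n 7746051 z z)))))) (n 0 z (n 0 z (n 1 (n 7754307 z (n 7754307 z (n 7754307 z (n
 7754307 z (n 7754307 z (n 7754307 z z)))))) (n 1 (n 3772 z (n 3772 z (n 3772 z (n 3772 z (n
 3772 z (n 7610707 z z)))))) (n 1 (n 3772 z (n 3756 z (n 3772 z (n 3772 z (n 3772 z (n 7610707 z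
 z)))))) z))))))) (n 135 (n 0 z (n 1 (n 7746051 z (n 7746051 z (n 7746051 z (n 7746051 z (n
 7746051 z (n 7746051 z z)))))) (n 1 (n 7746051 z (n 7746051 z (n 7746051 z (n 7746051 z (n
 7746051 z (n 7746051 z z)))))) (n 1 (n 7546379 z (n 7546379 z (n 7546379 z (n 7546379 z (n
 7546379 z (n 7546379 z z)))))) (n 1 (n 7681051 z (n 7681051 z (n 7681051 z (n 7681051 z (n
 7681051 z (n 7681051 z z)))))) (n 1 (n 2396 z (n 2396 z (n 7603755 z (n 2396 z (n 2396 z (n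
 2396 z z)))))) (n 1 (n 7746051 z (n 7746051 z (n 7746051 z (n 7746051 z (n 7746051 z (n 7746051
 z z)))))) (n 1 (n 7610707 z (n 7610707 z (n 7610707 z (n 7610707 z (n 7610707 z (n 7610707 z
 z)))))) z)))))))) (n 477 (n 1 (n 7544931 z (n 7746051 z (n 7544931 z (n 7544931 z (n 7544931 z
 (n 7544931 z z)))))) (n 0 z (n 1 (n 7610707 z (n 7746051 z (n 7610707 z (n 7610707 z (n 7610707
 z (n 7610707 z z)))))) (n 0 z (n 0 z z))))) (n 663 (n 1 (n 7544931 z (n 7746051 z (n 7544931 z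
 (n 7544931 z (n 7544931 z (n 7544931 z z)))))) (n 0 z (n 1 (n 892 z (n 7746051 z (n 36 z (n
 7546379 z (n 892 z (n 892 z z)))))) (n 1 (n 7754307 z (n 7746051 z (n 7754307 z (n 7754307 z (n
 7754307 z (n 7754307 z z)))))) z)))) (n 467 (n 0 z (n 0 z (n 1 (n 3282699 z (n 7746051 z (n
 3282699 z (n 3282699 z (n 3282699 z (n 3282699 z z)))))) (n 1 (n 7754307 z (n 7746051 z (n
 7754307 z (n 7754307 z (n 7754307 z (n 7754307 z z)))))) (n 0 z z))))) z))))))) (n 0 z (n 0 (n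
 467 (n 0 z (n 0 z (n 0 z (n 0 z (n 0 z (n 0 z (n 0 z (n 0 z (n 0 z z))))))))) (n 471 (n 0 z (n
 0 z (n 0 z (n 0 z (n 0 z (n 0 z (n 0 z (n 0 z (n 0 z (n 0 z (n 0 z (n 0 z (n 0 z z)))))))))))))
 (n 469 (n 0 z (n 0 z (n 0 z (n 0 z (n 0 z (n 0 z (n 0 z (n 0 z (n 0 z (n 0 z (n 0 z
 z))))))))))) (n 299 (n 0 z (n 0 z (n 0 z (n 0 z (n 0 z (n 0 z (n 0 z (n 0 z (n 0 z (n 0 z (n 0
 z (n 0 z (n 0 z (n 0 z (n 0 z (n 0 z z)))))))))))))))) (n 371 (n 0 z (n 0 z (n 0 z (n 0 z (n 0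
 z (n 0 z (n 0 z (n 0 z (n 0 z (n 0 z (n 0 z (n 0 z (n 0 z (n 0 z (n 0 z z))))))))))))))) (n 135
 (n 0 z (n 0 z (n 0 z (n 0 z (n 0 z (n 0 z (n 0 z (n 0 z z)))))))) (n 477 (n 0 z (n 0 z (n 0 z
 (n 0 z (n 0 z z))))) (n 475 (n 0 z (n 0 z (n 0 z (n 0 z (n 0 z (n 0 z (n 0 z (n 0 z (n 0 z (n 0
 z z)))))))))) (n 474 (n 0 z (n 0 z (n 0 z (n 0 z (n 0 z (n 0 z (n 0 z (n 0 z (n 0 z (n 0 z
 z)))))))))) (n 3 (n 0 z (n 0 z (n 0 z (n 0 z (n 0 z (n 0 z (n 0 z (n 0 z (n 0 z (n 0 z (n 0 z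
 z))))))))))) (n 663 (n 0 z (n 0 z (n 0 z (n 0 z z)))) (n 111 (n 0 z (n 0 z (n 0 z (n 0 z (n 0 z
 (n 0 z z)))))) (n 135 (n 0 z (n 0 z (n 0 z (n 0 z (n 0 z (n 0 z (n 0 z z))))))) (n 5 (n 0 z (n
 0 z (n 0 z (n 0 z (n 0 z (n 0 z (n 0 z (n 0 z (n 0 z (n 0 z (n 0 z z))))))))))) (n 4 (n 0 z (n
 0 z (n 0 z (n 0 z (n 0 z (n 0 z z)))))) (n 467 (n 0 z (n 0 z (n 0 z (n 0 z (n 0 z z))))) (n 461
 (n 0 z (n 0 z (n 0 z (n 0 z (n 0 z (n 0 z (n 0 z z))))))) (n 135 (n 0 z (n 0 z (n 0 z (n 0 z (n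
 0 z (n 0 z (n 0 z (n 0 z (n 0 z (n 0 z z)))))))))) (n 3 (n 0 z (n 0 z (n 0 z (n 0 z (n 0 z (n 0
 z (n 0 z (n 0 z (n 0 z z))))))))) (n 1 (n 0 z (n 0 z (n 0 z (n 0 z (n 0 z (n 0 z (n 0 z (n 0 z
 (n 0 z (n 0 z (n 0 z (n 0 z (n 0 z (n 0 z (n 0 z (n 0 z z)))))))))))))))) (n 0 (n 0 z (n 0 z (n
 0 z (n 0 z (n 0 z (n 0 z (n 0 z z))))))) z))))))))))))))))))))) z)))) z) z)))) (n
 0x306ea8c52d442a2e641d4da05a7936116a908a79501aa58193740 (n 0 (n 285 (n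
 0x2ca884260381e8617e09228607e27e285f8a37618a081e82085f8a275d85f8267e47e07df82171e7e481f0801 z
 (n 2 z (n 10 z (n 6554395 z (n 18 z (n 3282443 z (n 3282443 z z))))))) (n 33 (n 0 z (n 26 z (n
 6496515 z (n
 0x36436205018aca2a608031d951500c060321aa0100c165465300184c84a840038df9217dab6682e6267b3522a6323c91d45975e9a495c91f45993792b71f6df7182e69186a73001
 z (n 0 z (n 0 z (n 34 z z))))))) (n 9 (n 0 z (n 6496515 z (n 0 z (n 0 z z)))) (n 269 (n 42 z (n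
 50 z (n 0 z (n 6496515 z z)))) (n 1 (n 58 z (n
 0x8ca6ca600375e8228218628208227a286085f81b8639217a18208a07a38dc75d76182071e8218a481e9620801 z
 (n 66 z (n 0 z (n 0 z (n
 0x6c86420a037de89d7a18218207e082381f8618228228217dd7df8207e081f7de82181e8618218227e08600801 z
 (n 6554395 z (n 74 z (n 6554395 z (n 6554395 z z)))))))))) (n 0 (n 0 z (n 0 z (n 6631747 z z)))
 z)))))) (n 0 (n 0 (n 0 z (n 0 z (n 163 (n 0 z (n 0 z (n 0 z (n 2 (n 0 z (n 2 (n 0 z (n 0 z (n 0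
 z (n 0 (n 8851491 z z) (n 0 z (n 0 z z)))))) (n 2 (n 0 z (n 0 z (n 0 z (n 0 z (n 0 z (n 0 z
 z)))))) (n 2 (n 0 z (n 0 z (n 0 z (n 0 z (n 0 z (n 0 z z)))))) (n 2 (n 0 z (n 0 z (n 0 z (n 0 z
 (n 0 z (n 0 z z)))))) (n 2 (n 0 z (n 0 z (n 0 z (n 0 z (n 0 z (n 0 z z)))))) z)))))) (n 0 z (n
 0 z (n 0 z (n 0 z (n 0 z (n 0 z (n 0 z (n 0 z (n 0 z (n 0 z (n 0 z (n 0 z z)))))))))))))))) (n
 163 (n 0 z (n 0 z (n 0 z (n 0 z (n 0 z (n 0 z (n 0 z (n 0 z (n 0 z (n 0 z (n 0 z (n 0 z (n 0 z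
 (n 0 z (n 0 z (n 0 z z)))))))))))))))) (n 567 (n 0 z (n 2 (n 0 z (n 2 (n 0 z (n 0 z (n 0 z (n 0
 (n 2276 z z) (n 0 z (n 0 z z)))))) (n 2 (n 0 z (n 0 z (n 0 z (n 0 (n 8851491 z z) (n 0 z (n 0 z
 z)))))) (n 2 (n 0 z (n 0 z (n 0 z (n 0 (n 8799059 z z) (n 0 z (n 0 z z)))))) z)))) (n 0 z (n 0
 z (n 0 z (n 0 z (n 0 z (n 0 z z)))))))) (n 567 (n 0 z (n 0 z (n 0 z (n 0 z (n 0 z (n 0 z (n 0 z
 (n 0 z z)))))))) (n 569 (n 0 z (n 0 z (n 0 z (n 0 z (n 0 z (n 0 z (n 0 z (n 2 (n 0 z (n 0 z z))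
 z)))))))) (n 569 (n 0 z (n 0 z (n 0 z (n 0 z (n 0 z (n 0 z (n 0 z (n 0 z z)))))))) (n 569 (n 0
 z (n 0 z (n 0 z (n 0 z (n 0 z (n 0 z (n 0 z (n 0 z z)))))))) z))))))))) (n 0 (n 0 z (n 523 (n 0
 z (n 0 z (n 0 z (n 0 z (n 0 z (n 0 z (n 0 z (n 0 z (n 0 z (n 0 z (n 0 z (n 0 z z)))))))))))) (n
 523 (n 0 z (n 0 z (n 2 (n 1 z (n 2 (n 0 z (n 0 z (n 0 z (n 0 (n 8864595 z z) (n 0 z (n 0 z
 z)))))) (n 2 (n 0 z (n 0 z (n 0 z (n 0 (n 2148 z z) (n 0 z (n 0 z z)))))) (n 2 (n 0 z (n 0 z (n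
 0 z (n 0 (n 8785955 z z) (n 0 z (n 0 z z)))))) (n 2 (n 0 z (n 0 z (n 0 z (n 0 (n 8864595 z z)
 (n 0 z (n 0 z z)))))) z))))) (n 0 z (n 0 z (n 0 z (n 0 z (n 0 z (n 0 z (n 0 z (n 0 z (n 0 z
 z)))))))))))) (n 491 (n 0 z (n 0 z (n 0 z (n 0 z (n 0 z (n 0 z (n 0 z (n 0 z (n 0 z (n 0 z (n 0
 z (n 0 z z)))))))))))) (n 491 (n 0 z (n 2 (n 2 (n 0 z (n 0 z (n 0 z (n 0 z (n 0 z (n 0 z
 z)))))) (n 2 (n 0 z (n 0 z (n 0 z (n 0 z (n 0 z (n 0 z z)))))) (n 2 (n 0 z (n 0 z (n 0 z (n 0 z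
 (n 0 z (n 0 z z)))))) z))) (n 0 z (n 0 z (n 0 z (n 0 z (n 0 z (n 0 z (n 0 z (n 0 z (n 0 z (n 0
 z z)))))))))))) (n 537 (n 0 z (n 0 z (n 0 z (n 0 z (n 0 z (n 2 (n 0 z (n 0 z z)) (n 0 z (n 0 z
 (n 0 z z))))))))) (n 537 (n 0 z (n 0 z (n 0 z (n 0 z (n 0 z (n 0 z (n 0 z (n 0 z (n 0 z
 z))))))))) (n 537 (n 0 z (n 0 z (n 0 z (n 0 z (n 0 z (n 0 z (n 0 z (n 0 z (n 0 z z)))))))))
 z)))))))) (n 0 (n 95 (n 0 z (n 0 z (n 0 z (n 0 z (n 0 z (n 0 z (n 0 z (n 0 z (n 0 z (n 0 z (n 0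
 z (n 0 z (n 0 z (n 0 z (n 2 (n 0 z (n 2 (n 0 z (n 0 z (n 0 z (n 0 (n 8851491 z z) (n 0 z (n 0 z
 z)))))) (n 2 (n 0 z (n 0 z (n 0 z (n 0 z (n 0 z (n 0 z z)))))) (n 2 (n 0 z (n 0 z (n 0 z (n 0 z
 (n 0 z (n 0 z z)))))) (n 2 (n 0 z (n 0 z (n 0 z (n 0 z (n 0 z (n 0 z z)))))) (n 2 (n 0 z (n 0 z
 (n 0 z (n 0 z (n 0 z (n 0 z z)))))) z)))))) (n 0 z z)))))))))))))))) (n 95 (n 0 z (n 0 z (n 0 z
 (n 0 z (n 0 z (n 0 z (n 0 z (n 0 z (n 0 z (n 0 z (n 0 z (n 0 z (n 0 z (n 0 z (n 0 z (n 0 z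
 z)))))))))))))))) (n 567 (n 0 z (n 2 (n 0 z (n 2 (n 0 z (n 0 z (n 0 z (n 0 (n 1933 z z) (n 0 z
 (n 0 z z)))))) (n 2 (n 0 z (n 0 z (n 0 z (n 0 z (n 0 z (n 0 z z)))))) (n 2 (n 0 z (n 0 z (n 0 z
 (n 0 z (n 0 z (n 0 z z)))))) z)))) (n 0 z (n 0 z (n 0 z (n 0 z (n 0 z (n 0 z (n 0 z z)))))))))
 (n 567 (n 0 z (n 0 z (n 0 z (n 0 z (n 0 z (n 0 z (n 0 z (n 0 z (n 0 z z))))))))) (n 565 (n 0 z
 (n 0 z (n 0 z (n 0 z (n 0 z (n 0 z (n 2 (n 0 z (n 0 z z)) (n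
 0x2ecaeca6078618637e086191d7608647e089f7e085f7a18648607e191f76286279f76479d7de8e082075f0801 z
 (n 0 z (n 0 z z)))))))))) (n 565 (n 0 z (n 0 z (n 0 z (n 2 (n 0 z z) (n 0 z (n 0 z (n 0 z (n 0
 z (n 0 z (n 0 z z)))))))))) (n 565 (n 0 z (n 2 z (n 0 z (n 0 z (n 0 z (n 0 z (n 0 z (n 0 z (n 0
 z (n 0 z z)))))))))) z))))))) (n 0 (n 0 z (n 539 (n 0 z (n 0 z (n 0 z (n 0 z (n 0 z (n 0 z (n 0
 z (n 0 z (n 0 z z))))))))) (n 539 (n 0 z (n 2 (n 1 z (n 2 (n 0 z (n 0 z (n 0 z (n 0 z (n 0 z (n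
 0 z z)))))) (n 2 (n 0 z (n 0 z (n 0 z (n 0 z (n 0 z (n 0 z z)))))) z))) (n 0 z (n 0 z (n 0 z (n
 0 z (n 0 z (n 0 z (n 0 z z))))))))) (n 537 (n 0 z (n 0 z (n 0 z (n 0 z (n 0 z (n 0 z (n 0 z
 z))))))) (n 537 (n 0 z (n 0 z (n 0 z (n 0 z (n 0 z (n 0 z (n 0 z z))))))) (n 537 (n 0 z (n 0 z
 (n 0 z (n 2 z (n 0 z (n 0 z (n 0 z z))))))) z)))))) (n 0 (n 55 (n 0 z (n 2 (n 0 z (n 1 z (n 1 z
 (n 1 z z)))) (n 0 z (n 0 z (n 0 z (n 0 z (n 0 z z))))))) (n 55 (n 0 z (n 0 z (n 0 z (n 0 z (n 0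
 z (n 0 z (n 0 z z))))))) (n 63 (n 0 z (n 2 (n 0 z (n 0 z z)) (n 0 z (n 0 z (n 0 z (n 0 z (n 0 z
 (n 0 z (n 0 z (n 0 z (n 0 z (n 0 z z)))))))))))) (n 63 (n 0 z (n 0 z (n 2 (n 0 z z) (n 0 z (n 0
 z (n 0 z (n 0 z (n 0 z (n 0 z (n 0 z (n 0 z (n 0 z z)))))))))))) (n 63 (n 0 z (n 0 z (n 0 z (n
 0 z (n 0 z (n 0 z (n 0 z (n 0 z (n 0 z (n 0 z (n 0 z (n 0 z z)))))))))))) z))))) (n 0 (n 0 z (n
 483 (n 0 z (n 0 z (n 0 z (n 0 z (n 0 z (n 0 z (n 0 z (n 0 z (n 0 z (n 0 z (n 0 z (n 0 z (n 0 z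
 (n 0 z (n 0 z (n 0 z (n 0 z (n 0 z (n 0 z (n 0 z (n 0 z (n 0 z (n 0 z (n 0 z (n 0 z
 z))))))))))))))))))))))))) (n 483 (n 0 z (n 0 z (n 0 z (n 0 z (n 0 z (n 0 z (n 0 z (n 0 z (n 0
 z (n 0 z (n 0 z (n 0 z (n 0 z (n 0 z (n 0 z (n 0 z (n 0 z (n 0 z (n 0 z (n 0 z (n 0 z (n 0 z (n
 0 z (n 0 z (n 0 z z))))))))))))))))))))))))) (n 483 (n 0 z (n 0 z (n 0 z (n 0 z (n 0 z (n 0 z
 (n 0 z (n 0 z (n 0 z (n 0 z (n 0 z (n 0 z (n 0 z (n 0 z (n 0 z (n 2 z (n 0 z (n 0 z (n 0 z (n 0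
 z (n 0 z (n 0 z (n 0 z (n 0 z (n 0 z z))))))))))))))))))))))))) z)))) (n 0 (n 537 (n 0 z (n 0 z
 (n 0 z (n 0 z (n 0 z (n 0 z (n 0 z (n 0 z (n 0 z (n 0 z (n 0 z (n 0 z (n 0 z (n 0 z (n 0 z (n 2
 (n 0 z (n 0 z z)) (n 0 z (n 0 z (n 0 z z))))))))))))))))))) (n 537 (n 0 z (n 0 z (n 2 (n 0 z z)
 (n 0 z (n 0 z (n 0 z (n 0 z (n 0 z (n 0 z (n 0 z (n 0 z (n 0 z (n 0 z (n 0 z (n 0 z (n 0 z (n 0
 z (n 0 z (n 0 z z))))))))))))))))))) (n 537 (n 0 z (n 0 z (n 0 z (n 0 z (n 0 z (n 0 z (n 0 z (n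
 0 z (n 0 z (n 0 z (n 0 z (n 0 z (n 0 z (n 0 z (n 0 z (n 0 z (n 0 z (n 0 z (n 0 z
 z))))))))))))))))))) z))) (n 0 (n 0 z (n 0 z z)) (n 0 (n 0 z z) (n 0 z z)))))))))) (n 0 (n 0 z
 (n 0 z (n 1 (n 6631747 z (n 6631747 z (n 6631747 z (n 6631747 z (n 6631747 z (n 6631747 z
 z)))))) z))) (n 0 z z)))) (n
 0xcdc5446cba1c2d50a22ea10b5106e28b07134c169acc449381a4b36114e108b5940138580b3700 (n 0x59b89385a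
 (n 279 (n 0 z (n 0 z (n 2 z (n 10 z (n 6619931 z (n 18 z (n 3282443 z (n 3282443 z (n 0 z
 z))))))))) (n 33 (n 0 z (n 0 z (n 26 z (n 34 z (n 0 z (n 0 z (n 6496515 z z))))))) (n 9 (n 42 z
 (n 50 z (n 0 z (n 6496515 z (n 0 z z))))) (n 267 (n 0 z (n 58 z (n 66 z (n 0 z (n 6496515 z
 z))))) (n 1 (n 74 z (n 82 z (n 0 z (n 0 z (n 6566227 z z))))) (n 0 (n
 0x1565321040190ca884260385d7df8e47e09616637208a655e76a86981ea1d7589676617a24db8aa8d38655a79dd8e9a5d1001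
 z (n 90 z (n
 0x14ca84206078e27e18e28de69f8e08637dc9208a56e18a179d8a28a26e371b8dc6a08a28e09259216a195c0801 z
 (n 98 z (n 3278427 z (n 106 z (n
 0x71951084c0e1eca88206037f7c6d747d747174937a68ab76648c95647b9f7d87a07e95748c69638094806e948e647174968a64777b8097786c6f8e9d761009
 z (n 6619931 z (n 114 z (n 6619931 z (n 6619931 z (n 0 z z)))))))))))) z)))))) (n 9 (n 0 (n 0 z
 (n 0 z (n 211 (n 0 z (n 0 z (n 0 z (n 0 z (n 0 z (n 2 (n 0 z (n 2 (n 0 z (n 0 z (n 0 z (n 0 z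
 (n 0 z (n 0 z z)))))) (n 2 (n 0 z (n 0 z (n 0 z (n 0 z (n 0 z (n 0 z z)))))) (n 2 (n 0 z (n 0 z
 (n 0 z (n 0 z (n 0 (n 8851491 z z) (n 0 z z)))))) (n 2 (n 0 z (n 0 z (n 0 z (n 0 z (n 0 z (n 0
 z z)))))) (n 2 (n 0 z (n 0 z (n 0 z (n 0 z (n 0 z (n 0 z z)))))) (n 2 (n 0 z (n 0 z (n 0 z (n 0
 z (n 0 z (n 0 z z)))))) (n 2 (n 0 z (n 0 z (n 0 z (n 0 z (n 0 z (n 0 z z)))))) (n 2 (n 0 z (n 0
 z (n 0 z (n 0 z (n 0 z (n 0 z z)))))) (n 2 (n 0 z (n 0 z (n 0 z (n 0 z (n 0 z (n 0 z z)))))) (n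
 2 (n 0 z (n 0 z (n 0 z (n 0 z (n 0 z (n 0 z z)))))) z))))))))))) (n 0 z (n 0 z (n 0 z (n 0 z (n
 0 z (n 0 z (n 0 z (n 0 z (n 0 z (n 0 z (n 0 z z))))))))))))))))) (n 211 (n 0 z (n 0 z (n 0 z (n
 0 z (n 0 z (n 0 z (n 0 z (n 0 z (n 0 z (n 0 z (n 0 z (n 0 z (n 0 z (n 0 z (n 0 z (n 0 z (n 0 z
 z))))))))))))))))) (n 775 (n 0 z (n 0 z (n 0 z (n 0 z (n 0 z (n 0 z (n 0 z (n 0 z (n 0 z (n 0 z
 (n 0 z (n 0 z (n 0 z (n 0 z (n 0 z (n 0 z z)))))))))))))))) (n 775 (n 0 z (n 0 z (n 0 z (n 0 z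
 (n 0 z (n 0 z (n 0 z (n 0 z (n 0 z (n 0 z (n 0 z (n 0 z (n 0 z (n 0 z (n 0 z (n 0 z
 z)))))))))))))))) (n 555 (n 0 z (n 0 z (n 2 (n 0 z (n 1 z (n 2 (n 0 z (n 0 z (n 0 z (n 0 z (n 0
 (n 8851491 z z) (n 0 z z)))))) (n 2 (n 0 z (n 0 z (n 0 z (n 0 z (n 0 (n 2228 z z) (n 0 z
 z)))))) (n 2 (n 0 z (n 0 z (n 0 z (n 0 z (n 0 (n 8851491 z z) (n 0 z z)))))) (n 1 z (n 2 (n 0 z
 (n 0 z (n 0 z (n 0 z (n 0 (n 8803139 z z) (n 0 z z)))))) z))))))) (n 0 z (n 0 z (n 0 z (n 0 z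
 (n 0 z z)))))))) (n 555 (n 0 z (n 0 z (n 0 z (n 0 z (n 0 z (n 0 z (n 0 z (n 0 z z)))))))) (n
 303 (n 0 z (n 0 z (n 0 z (n 0 z (n 0 z (n 0 z (n 0 z (n 0 z (n 0 z (n 0 z (n 0 z (n 0 z (n 0 z
 z))))))))))))) (n 303 (n 0 z (n 0 z (n 0 z (n 0 z (n 0 z (n 0 z (n 0 z (n 0 z (n 0 z (n 0 z (n
 0 z (n 0 z (n 0 z z))))))))))))) (n 557 (n 0 z (n 0 z (n 0 z (n 0 z (n 0 z (n 0 z (n 0 z (n 0 z
 (n 0 z (n 0 z (n 0 z (n 2 (n 0 z (n 0 z (n 0 z z))) z)))))))))))) (n 557 (n 0 z (n 0 z (n 0 z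
 (n 0 z (n 0 z (n 0 z (n 0 z (n 0 z (n 0 z (n 0 z (n 0 z (n 0 z z)))))))))))) (n 557 (n 0 z (n 0
 z (n 0 z (n 0 z (n 0 z (n 0 z (n 0 z (n 7734059 z (n 0 z (n 0 z (n 7734059 z (n 0 z
 z)))))))))))) (n 557 (n 0 z (n 0 z (n 0 z (n 0 z (n 0 z (n 0 z (n 0 z (n 0 z (n 0 z (n 0 z (n 0
 z (n 0 z z)))))))))))) z)))))))))))))) (n 0 (n 0 z (n 511 (n 0 z (n 0 z (n 0 z (n 0 z (n 0 z (n
 0 z (n 0 z (n 0 z (n 0 z (n 0 z (n 0 z (n 0 z z)))))))))))) (n 511 (n 0 z (n 0 z (n 0 z (n 0 z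
 (n 2 (n 1 z (n 2 (n 0 z (n 0 z (n 0 z (n 0 z (n 0 (n 8868675 z z) (n 0 z z)))))) (n 1 z (n 2 (n
 0 z (n 0 z (n 0 z (n 0 z (n 0 (n 8868675 z z) (n 0 z z)))))) (n 1 z (n 2 (n 0 z (n 0 z (n 0 z
 (n 0 z (n 0 (n 8785955 z z) (n 0 z z)))))) (n 2 (n 0 z (n 0 z (n 0 z (n 0 z (n 0 (n 2132 z z)
 (n 0 z z)))))) (n 2 (n 0 z (n 0 z (n 0 z (n 0 z (n 0 (n 8785955 z z) (n 0 z z)))))) (n 1 z (n 2
 (n 0 z (n 0 z (n 0 z (n 0 z (n 0 (n 8868675 z z) (n 0 z z)))))) z)))))))))) (n 0 z (n 0 z (n 0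
 z (n 0 z (n 0 z (n 0 z (n 0 z z)))))))))))) (n 343 (n 0 z (n 0 z (n 0 z (n 0 z (n 0 z (n 0 z (n
 0 z (n 0 z (n 0 z (n 0 z (n 0 z (n 0 z (n 0 z (n 0 z (n 0 z (n 0 z (n 0 z z))))))))))))))))) (n
 343 (n 0 z (n 0 z (n 0 z (n 0 z (n 0 z (n 0 z (n 0 z (n 0 z (n 0 z (n 0 z (n 0 z (n 0 z (n 0 z
 (n 0 z (n 0 z (n 0 z (n 0 z z))))))))))))))))) (n 487 (n 0 z (n 0 z (n 0 z (n 0 z (n 0 z (n 0 z
 (n 0 z (n 0 z (n 0 z (n 0 z (n 0 z (n 0 z z)))))))))))) (n 487 (n 0 z (n 0 z (n 2 (n 2 (n 0 z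
 (n 0 z (n 0 z (n 0 z (n 0 z (n 0 z z)))))) (n 2 (n 0 z (n 0 z (n 0 z (n 0 z (n 0 z (n 0 z
 z)))))) (n 2 (n 0 z (n 0 z (n 0 z (n 0 z (n 0 z (n 0 z z)))))) (n 2 (n 0 z (n 0 z (n 0 z (n 0 z
 (n 0 z (n 0 z z)))))) (n 2 (n 0 z (n 0 z (n 0 z (n 0 z (n 0 z (n 0 z z)))))) (n 2 (n 0 z (n 0 z
 (n 0 z (n 0 z (n 0 z (n 0 z z)))))) z)))))) (n 0 z (n 0 z (n 0 z (n 0 z (n 0 z (n 0 z (n 0 z (n
 0 z (n 0 z z)))))))))))) (n 531 (n 0 z (n 0 z (n 0 z (n 0 z (n 0 z (n 0 z (n 0 z (n 0 z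
 z)))))))) (n 531 (n 0 z (n 0 z (n 0 z (n 0 z (n 0 z (n 0 z (n 0 z (n 0 z z)))))))) (n 533 (n 0
 z (n 0 z (n 0 z (n 0 z (n 0 z (n 2 (n 0 z (n 0 z (n 0 z z))) (n 0 z (n 0 z (n 0 z (n 0 z (n 0 z
 (n 0 z z)))))))))))) (n 533 (n 0 z (n 0 z (n 0 z (n 0 z (n 0 z (n 0 z (n 0 z (n 0 z (n 0 z (n 0
 z (n 0 z (n 0 z z)))))))))))) (n 533 (n 0 z (n 0 z (n 0 z (n
 0xeea8c806079a179b8e081c7df86672682185d9a585e7a482169e8285df7df85d71ea5b91f8659d87668220801 z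
 (n 0 z (n 0 z (n 0 z (n 0 z (n 0 z (n 0 z (n 0 z (n 0 z z)))))))))))) (n 533 (n 0 z (n 0 z (n 0
 z (n 0 z (n 0 z (n 0 z (n 0 z (n 0 z (n 0 z (n 0 z (n 0 z (n 0 z z)))))))))))) z)))))))))))))
 (n 0 (n 83 (n 0 z (n 0 z (n 0 z (n 0 z (n 0 z (n 0 z (n 0 z (n 0 z (n 0 z (n 0 z (n 2 (n 0 z (n
 2 (n 0 z (n 0 z (n 0 z (n 0 z (n 0 z (n 0 z z)))))) (n 2 (n 0 z (n 0 z (n 0 z (n 0 z (n 0 z (n
 0 z z)))))) (n 2 (n 0 z (n 0 z (n 0 z (n 0 z (n 0 (n 8851491 z z) (n 0 z z)))))) (n 2 (n 0 z (n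
 0 z (n 0 z (n 0 z (n 0 z (n 0 z z)))))) (n 2 (n 0 z (n 0 z (n 0 z (n 0 z (n 0 z (n 0 z z))))))
 (n 2 (n 0 z (n 0 z (n 0 z (n 0 z (n 0 z (n 0 z z)))))) (n 2 (n 0 z (n 0 z (n 0 z (n 0 z (n 0 z
 (n 0 z z)))))) (n 2 (n 0 z (n 0 z (n 0 z (n 0 z (n 0 z (n 0 z z)))))) (n 2 (n 0 z (n 0 z (n 0 z
 (n 0 z (n 0 z (n 0 z z)))))) (n 2 (n 0 z (n 0 z (n 0 z (n 0 z (n 0 z (n 0 z z))))))
 z))))))))))) (n 0 z (n 0 z (n 0 z (n 0 z z))))))))))))))) (n 83 (n 0 z (n 0 z (n 0 z (n 0 z (n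
 0 z (n 0 z (n 0 z (n 0 z (n 0 z (n 0 z (n 0 z (n 0 z (n 0 z (n 0 z (n 0 z z))))))))))))))) (n
 971 (n 0 z (n 0 z (n 0 z (n 0 z (n 0 z (n 0 z (n 0 z (n 2 (n 0 z (n 2 (n 0 z (n 0 z (n 0 z (n 0
 z (n 0 (n 8868891 z z) (n 0 z z)))))) (n 2 (n 0 z (n 0 z (n 0 z (n 0 z (n 0 z (n 0 z z)))))) (n
 2 (n 0 z (n 0 z (n 0 z (n 0 z (n 0 z (n 0 z z)))))) (n 2 (n 0 z (n 0 z (n 0 z (n 0 z (n 0 z (n
 0 z z)))))) (n 2 (n 0 z (n 0 z (n 0 z (n 0 z (n 0 z (n 0 z z)))))) (n 2 (n 0 z (n 0 z (n 0 z (n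
 0 z (n 0 z (n 0 z z)))))) (n 2 (n 0 z (n 0 z (n 0 z (n 0 z (n 0 z (n 0 z z)))))) (n 2 (n 0 z (n
 0 z (n 0 z (n 0 z (n 0 z (n 0 z z)))))) z))))))))) (n 0 z (n 0 z (n 0 z (n 0 z (n 0 z (n 0 z (n
 0 z (n 0 z z)))))))))))))))) (n 971 (n 0 z (n 0 z (n 0 z (n 2 (n 2 (n 0 z (n 0 z (n 0 z (n 0 z
 (n 0 z (n 0 z z)))))) (n 2 (n 0 z (n 0 z (n 0 z (n 0 z (n 0 (n 8868675 z z) (n 0 z z)))))) (n 2
 (n 0 z (n 0 z (n 0 z (n 0 z (n 0 z (n 0 z z)))))) (n 2 (n 0 z (n 0 z (n 0 z (n 0 z (n 0 z (n 0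
 z z)))))) (n 2 (n 0 z (n 0 z (n 0 z (n 0 z (n 0 z (n 0 z z)))))) (n 2 (n 0 z (n 0 z (n 0 z (n 0
 z (n 0 z (n 0 z z)))))) (n 2 (n 0 z (n 0 z (n 0 z (n 0 z (n 0 z (n 0 z z)))))) (n 2 (n 0 z (n 0
 z (n 0 z (n 0 z (n 0 z (n 0 z z)))))) z)))))))) (n 0 z (n 0 z (n 0 z (n 0 z (n 0 z (n 0 z (n 0
 z (n 0 z (n 0 z (n 0 z (n 0 z (n 0 z z)))))))))))))))) (n 555 (n 0 z (n 0 z (n 2 (n 0 z (n 2 (n
 0 z (n 0 z (n 0 z (n 0 z (n 0 (n 1212 z z) (n 0 z z)))))) (n 2 (n 0 z (n 0 z (n 0 z (n 0 z (n 0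
 (n 8851491 z z) (n 0 z z)))))) (n 2 (n 0 z (n 0 z (n 0 z (n 0 z (n 0 (n 1925 z z) (n 0 z
 z)))))) (n 2 (n 0 z (n 0 z (n 0 z (n 0 z (n 0 z (n 0 z z)))))) (n 2 (n 0 z (n 0 z (n 0 z (n 0 z
 (n 0 (n 2212 z z) (n 0 z z)))))) (n 2 (n 0 z (n 0 z (n 0 z (n 0 z (n 0 z (n 0 z z))))))
 z))))))) (n 0 z (n 0 z (n 0 z (n 0 z (n 0 z (n 0 z (n 0 z (n 0 z z))))))))))) (n 555 (n 0 z (n
 0 z (n 0 z (n 0 z (n 0 z (n 0 z (n 0 z (n 0 z (n 0 z (n 0 z (n 0 z z))))))))))) (n 303 (n 0 z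
 (n 0 z (n 0 z (n 0 z (n 0 z (n 0 z (n 0 z (n 0 z z)))))))) (n 303 (n 0 z (n 0 z (n 0 z (n 2 (n
 2 (n 0 z (n 0 z (n 0 z (n 0 z (n 0 z (n 0 z z)))))) (n 2 (n 0 z (n 0 z (n 0 z (n 0 z (n 0 z (n
 0 z z)))))) (n 2 (n 0 z (n 0 z (n 0 z (n 0 z (n 0 z (n 0 z z)))))) (n 2 (n 0 z (n 0 z (n 0 z (n
 0 z (n 0 z (n 0 z z)))))) z)))) (n 0 z (n 0 z (n 0 z (n 0 z z)))))))) (n 553 (n 0 z (n 0 z (n 0
 z (n 0 z (n 0 z (n 0 z (n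
 0x2ec8ec86037df7e18a389e7df8a07e082371f9207e08617df7e08e37617df7e17e185f85e85f7e08627e10801 z
 (n 2 (n 0 z (n 0 z (n 0 z z))) (n 0 z (n 0 z (n 0 z z))))))))))) (n 553 (n 0 z (n 0 z (n 0 z (n
 2 (n 0 z (n 0 z z)) (n 0 z (n 0 z (n 0 z (n 0 z (n 0 z (n 0 z (n 0 z z))))))))))) (n 553 (n 0 z
 (n 0 z (n 2 (n 0 z z) (n 0 z (n 0 z (n 0 z (n 0 z (n 0 z (n 0 z (n 0 z (n 0 z z))))))))))) (n
 553 (n 0 z (n 2 z (n 0 z (n 0 z (n 0 z (n 0 z (n 0 z (n 0 z (n 0 z (n 0 z (n 0 z z)))))))))))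
 z)))))))))))) (n 0 (n 0 z (n 103 (n 0 z (n 0 z (n 0 z (n 0 z (n 0 z (n 0 z (n 0 z z))))))) (n
 103 (n 2 (n 1 z (n 1 z (n 1 z (n 1 z (n 1 z (n 2 (n 0 z (n 0 z (n 0 z (n 0 z (n 0 z (n 0 z
 z)))))) (n 2 (n 0 z (n 0 z (n 0 z (n 0 z (n 0 z (n 0 z z)))))) (n 2 (n 0 z (n 0 z (n 0 z (n 0 z
 (n 0 z (n 0 z z)))))) z)))))))) (n 0 z (n 0 z (n 0 z (n 0 z (n 0 z (n 0 z z))))))) (n 535 (n 0
 z (n 0 z (n 0 z (n 0 z (n 0 z (n 0 z (n 0 z (n 0 z (n 0 z (n 0 z (n 0 z (n 0 z (n 0 z (n 0 z (n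
 0 z z))))))))))))))) (n 535 (n 0 z (n 0 z (n 0 z (n 0 z (n 2 (n 1 z (n 1 z (n 1 z (n 2 (n 0 z
 (n 0 z (n 0 z (n 0 z (n 0 z (n 0 z z)))))) (n 2 (n 0 z (n 0 z (n 0 z (n 0 z (n 0 z (n 0 z
 z)))))) (n 2 (n 0 z (n 0 z (n 0 z (n 0 z (n 0 z (n 0 z z)))))) z)))))) (n 0 z (n 0 z (n 0 z (n
 0 z (n 0 z (n 0 z (n 0 z (n 0 z (n 0 z (n 0 z z))))))))))))))) (n 483 (n 0 z (n 0 z (n 2 (n 0 z
 (n 1 z (n 2 (n 0 z (n 0 z (n 0 z (n 0 z (n 0 (n 8785955 z z) (n 0 z z)))))) (n 2 (n 0 z (n 0 z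
 (n 0 z (n 0 z (n 0 (n 8848171 z z) (n 0 z z)))))) (n 2 (n 0 z (n 0 z (n 0 z (n 0 z (n 0 z (n 0
 z z)))))) z))))) (n 0 z (n 0 z (n 0 z (n 0 z (n 0 z (n 0 z (n 0 z (n 0 z (n 0 z (n 0 z (n 0 z
 (n 0 z (n 0 z (n 0 z (n 0 z (n 0 z (n 0 z (n 0 z (n 0 z (n 0 z z))))))))))))))))))))))) (n 483
 (n 0 z (n 0 z (n 0 z (n 0 z (n 0 z (n 0 z (n 0 z (n 0 z (n 0 z (n 0 z (n 0 z (n 0 z (n 0 z (n 0
 z (n 0 z (n 0 z (n 0 z (n 0 z (n 0 z (n 0 z (n 0 z (n 0 z (n 0 z z))))))))))))))))))))))) (n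
 533 (n 0 z (n 0 z (n 0 z (n 0 z (n 0 z (n 0 z (n 0 z (n 0 z (n 0 z (n 0 z (n 0 z (n 0 z (n 0 z
 z))))))))))))) (n 533 (n 0 z (n 0 z (n 0 z (n 0 z (n 0 z (n 0 z (n 0 z (n 0 z (n 0 z (n 0 z (n
 0 z (n 0 z (n 0 z z))))))))))))) (n 533 (n 0 z (n 0 z (n 0 z (n 0 z (n 0 z (n 0 z (n 0 z (n 0 z
 (n 0 z (n 0 z (n 0 z (n 0 z (n 0 z z))))))))))))) (n 533 (n 0 z (n 0 z (n 0 z (n 0 z (n 2 z (n
 0 z (n 0 z (n 0 z (n 0 z (n 0 z (n 0 z (n 0 z (n 0 z z))))))))))))) z))))))))))) (n 0 (n 103 (n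
 0 z (n 0 z (n 2 (n 0 z (n 1 z (n 1 z (n 1 z (n 1 z (n 1 z (n 1 z (n 1 z (n 1 z z))))))))) (n 0
 z (n 0 z (n 0 z (n 0 z (n 0 z (n 0 z z))))))))) (n 103 (n 0 z (n 0 z (n 0 z (n 0 z (n 0 z (n 0
 z (n 0 z (n 0 z (n 0 z z))))))))) (n 55 (n 0 z (n 0 z (n 2 (n 0 z (n 1 z (n 1 z (n 1 z (n 1 z
 (n 1 z (n 1 z z))))))) (n 0 z (n 0 z (n 0 z (n 0 z (n 0 z z)))))))) (n 55 (n 0 z (n 0 z (n 0 z
 (n 0 z (n 0 z (n 0 z (n 0 z (n 0 z z)))))))) (n 63 (n 0 z (n 0 z (n 0 z (n 0 z (n 0 z (n 0 z (n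
 0 z (n 0 z z)))))))) (n 63 (n 0 z (n 2 (n 1 z (n 2 (n 0 z (n 0 z (n 0 z (n 0 z (n 0 (n 8851491
 z z) (n 0 z z)))))) (n 2 (n 0 z (n 0 z (n 0 z (n 0 z (n 0 (n 8782635 z z) (n 0 z z)))))) (n 2
 (n 0 z (n 0 z (n 0 z (n 0 z (n 0 (n 8803139 z z) (n 0 z z)))))) z)))) (n 0 z (n 0 z (n 0 z (n 0
 z (n 0 z (n 0 z z)))))))) (n 61 (n 0 z (n 0 z (n 2 (n 0 z (n 0 z (n 0 z z))) (n 0 z (n 0 z (n 0
 z (n 0 z (n 0 z (n 0 z (n 0 z (n 0 z (n 0 z z)))))))))))) (n 61 (n 0 z (n 0 z (n 0 z (n 2 (n 0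
 z (n 0 z z)) (n 0 z (n 0 z (n 0 z (n 0 z (n 0 z (n 0 z (n 0 z (n 0 z z)))))))))))) (n 61 (n 0 z
 (n 0 z (n 0 z (n 0 z (n 0 z (n 0 z (n 0 z (n 0 z (n 0 z (n 0 z (n 0 z (n 0 z z)))))))))))) (n
 61 (n 0 z (n 0 z (n 0 z (n 0 z (n 0 z (n 0 z (n 0 z (n 0 z (n 0 z (n 0 z (n 0 z (n 0 z
 z)))))))))))) z)))))))))) (n 0 (n 0 z (n 7 (n 0 z (n 0 z (n 0 z (n 0 z (n 0 z (n 0 z (n 0 z (n
 0 z z)))))))) (n 7 (n 0 z (n 2 (n 1 z (n 1 z (n 1 z (n 2 (n 0 z (n 0 z (n 0 z (n 0 z (n 0 z (n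
 0 z z)))))) (n 2 (n 0 z (n 0 z (n 0 z (n 0 z (n 0 z (n 0 z z)))))) (n 2 (n 0 z (n 0 z (n 0 z (n
 0 z (n 0 (n 8868675 z z) (n 0 z z)))))) z)))))) (n 0 z (n 0 z (n 0 z (n 0 z (n 0 z (n 0 z
 z)))))))) (n 15 (n 0 z (n 0 z (n 0 z (n 0 z (n 0 z (n 0 z (n 0 z (n 0 z (n 0 z (n 0 z (n 0 z
 z))))))))))) (n 15 (n 0 z (n 0 z (n 0 z (n 0 z (n 0 z (n 0 z (n 0 z (n 0 z (n 0 z (n 0 z (n 0 z
 z))))))))))) (n 13 (n 0 z (n 0 z (n 0 z (n 0 z (n 0 z (n 0 z (n 0 z (n 0 z (n 0 z (n 0 z (n 0 z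
 (n 0 z (n 0 z (n 0 z z)))))))))))))) (n 13 (n 0 z (n 0 z (n 0 z (n 0 z (n 0 z (n 0 z (n 0 z (n
 0 z (n 0 z (n 0 z (n 0 z (n 0 z (n 0 z (n 0 z z)))))))))))))) (n 13 (n 0 z (n 0 z (n 0 z (n 0 z
 (n 0 z (n 0 z (n 0 z (n
 0xeea8c806079a179b8e081c7df86672682185d9a585e7a482169e8285df7df85d71ea5b91f8659d87668220801 z
 (n 0 z (n 0 z (n 0 z (n 0 z (n 0 z (n 0 z z)))))))))))))) (n 13 (n 0 z (n 0 z (n 0 z (n 0 z (n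
 0 z (n 0 z (n 0 z (n 0 z (n 0 z (n 0 z (n 0 z (n 0 z (n 0 z (n 0 z z)))))))))))))) z)))))))))
 (n 0 (n 7 (n 0 z (n 2 (n 0 z (n 1 z (n 1 z (n 1 z (n 2 (n 0 z (n 0 z (n 0 z (n 0 z (n 0 (n
 8851491 z z) (n 0 z z)))))) (n 2 (n 0 z (n 0 z (n 0 z (n 0 z (n 0 (n 8718187 z z) (n 0 z
 z)))))) (n 2 (n 0 z (n 0 z (n 0 z (n 0 z (n 0 (n 8803139 z z) (n 0 z z)))))) z))))))) (n 0 z (n
 0 z (n 0 z (n 0 z (n 0 z (n 0 z z)))))))) (n 7 (n 0 z (n 0 z (n 0 z (n 0 z (n 0 z (n 0 z (n 0 z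
 (n 0 z z)))))))) (n 99 (n 0 z (n 0 z (n 0 z (n 0 z (n 0 z (n 0 z (n 0 z (n 0 z (n 0 z (n 0 z (n
 0 z z))))))))))) (n 99 (n 0 z (n 0 z (n 0 z (n 0 z (n 0 z (n 0 z (n 0 z (n 0 z (n 0 z (n 0 z (n
 0 z z))))))))))) (n 97 (n 0 z (n 0 z (n 0 z (n 0 z (n 2 (n 0 z (n 0 z (n 0 z z))) (n 0 z (n 0 z
 (n 0 z (n 0 z (n 0 z (n 0 z z))))))))))) (n 97 (n 0 z (n 0 z (n 0 z (n 0 z (n 0 z (n 0 z (n 0 z
 (n 0 z (n 0 z (n 0 z (n 0 z z))))))))))) (n 97 (n 0 z (n 0 z (n 0 z (n 0 z (n 0 z (n 0 z (n 0 z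
 (n 0 z (n 0 z (n 0 z (n 0 z z))))))))))) (n 97 (n 0 z (n 0 z (n 0 z (n 0 z (n 0 z (n 0 z (n 0 z
 (n 0 z (n 0 z (n 0 z (n 0 z z))))))))))) z)))))))) (n 0 (n 0 z (n 483 (n 2 (n 0 z (n 1 z (n 1 z
 (n 1 z (n 1 z z))))) (n 0 z (n 0 z (n 0 z (n 0 z (n 0 z (n 0 z (n 0 z (n 0 z (n 0 z (n 0 z (n 0
 z (n 0 z (n 0 z (n 0 z z))))))))))))))) (n 483 (n 0 z (n 0 z (n 0 z (n 0 z (n 0 z (n 0 z (n 0 z
 (n 0 z (n 0 z (n 0 z (n 0 z (n 0 z (n 0 z (n 0 z (n 0 z z))))))))))))))) (n 481 (n 0 z (n 0 z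
 (n 0 z (n 0 z (n 0 z (n 0 z (n 0 z (n 0 z (n 0 z (n 0 z (n 0 z (n 0 z (n 0 z (n 0 z (n 0 z (n 0
 z (n 0 z (n 0 z (n 0 z (n 0 z (n 0 z (n 0 z (n 0 z (n 0 z (n 0 z (n 0 z (n 0 z (n 0 z (n 0 z (n
 0 z (n 0 z (n 0 z (n 0 z (n 0 z (n 0 z (n 0 z (n 0 z (n 0 z (n 0 z (n 0 z (n 0 z (n 0 z (n 0 z
 (n 0 z (n 0 z (n 0 z (n 0 z z))))))))))))))))))))))))))))))))))))))))))))))) (n 481 (n 0 z (n 0
 z (n 0 z (n 0 z (n 0 z (n 0 z (n 0 z (n 0 z (n 0 z (n 0 z (n 0 z (n 0 z (n 0 z (n 0 z (n 0 z (n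
 0 z (n 0 z (n 0 z (n 0 z (n 0 z (n 0 z (n 0 z (n 0 z (n 0 z (n 0 z (n 0 z (n 0 z (n 0 z (n 0 z
 (n 0 z (n 0 z (n 0 z (n 0 z (n 0 z (n 0 z (n 0 z (n 0 z (n 0 z (n 0 z (n 0 z (n 0 z (n 0 z (n 0
 z (n 0 z (n 0 z (n 0 z (n 0 z z))))))))))))))))))))))))))))))))))))))))))))))) (n 481 (n 0 z (n
 0 z (n 0 z (n 0 z (n 0 z (n 0 z (n 0 z (n 0 z (n 0 z (n 0 z (n 0 z (n 0 z (n 0 z (n 0 z (n 0 z
 (n 0 z (n 0 z (n 0 z (n 0 z (n 0 z (n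
 0x176476400194ea8c8600389e6da82271b6e38a669d8e07e2a9ba6089c71d89b5a48e07208a16de86179f8de7288636a41001
 z (n 0 z (n 0 z (n 0 z (n 0 z (n 0 z (n 0 z (n 0 z (n 0 z (n 0 z (n 0 z (n 0 z (n 0 z (n 0 z (n
 0 z (n 0 z (n 0 z (n 0 z (n 0 z (n 0 z (n 0 z (n 0 z (n 0 z (n 0 z (n 0 z (n 0 z (n 0 z
 z))))))))))))))))))))))))))))))))))))))))))))))) (n 481 (n 0 z (n 0 z (n 0 z (n 0 z (n 0 z (n 0
 z (n 0 z (n 0 z (n 0 z (n 0 z (n 0 z (n 0 z (n 0 z (n 0 z (n 0 z (n 0 z (n 0 z (n 0 z (n 0 z (n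
 0 z (n 0 z (n 0 z (n 0 z (n 0 z (n 0 z (n 0 z (n 0 z (n 0 z (n 0 z (n 0 z (n 0 z (n 0 z (n 0 z
 (n 0 z (n 0 z (n 0 z (n 0 z (n 2 z (n 0 z (n 0 z (n 0 z (n 0 z (n 0 z (n 0 z (n 0 z (n 0 z (n 0
 z z))))))))))))))))))))))))))))))))))))))))))))))) z))))))) (n 0 (n 51 (n 0 z (n 0 z (n 0 z (n
 0 z (n 0 z (n 0 z (n 0 z (n 0 z (n 0 z z))))))))) (n 51 (n 2 (n 1 z (n 2 (n 0 z (n 0 z (n 0 z
 (n 0 z (n 0 z (n 0 z z)))))) (n 2 (n 0 z (n 0 z (n 0 z (n 0 z (n 0 z (n 0 z z)))))) (n 2 (n 0 z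
 (n 0 z (n 0 z (n 0 z (n 0 z (n 0 z z)))))) z)))) (n 0 z (n 0 z (n 0 z (n 0 z (n 0 z (n 0 z (n 0
 z (n 0 z z))))))))) (n 533 (n 0 z (n 0 z (n 0 z (n 0 z (n 0 z (n 0 z (n 0 z (n 0 z (n 0 z (n 0
 z (n 0 z (n 0 z (n 0 z (n 0 z (n 0 z (n 0 z (n 0 z (n 0 z (n 0 z (n 2 (n 0 z (n 0 z (n 0 z z)))
 (n 0 z (n 0 z (n 0 z (n 0 z (n 0 z z))))))))))))))))))))))))) (n 533 (n 2 (n 0 z (n 0 z z)) (n
 0 z (n 0 z (n 0 z (n 0 z (n 0 z (n 0 z (n 0 z (n 0 z (n 0 z (n 0 z (n 0 z (n 0 z (n 0 z (n 0 z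
 (n 0 z (n 0 z (n 0 z (n 0 z (n 0 z (n 0 z (n 0 z (n 0 z (n 0 z (n 0 z
 z))))))))))))))))))))))))) (n 533 (n 0 z (n 0 z (n 0 z (n 0 z (n 0 z (n 0 z (n 0 z (n 0 z (n 0
 z (n 0 z (n 0 z (n 0 z (n 0 z (n 0 z (n 0 z (n 0 z (n 0 z (n 0 z (n 0 z (n 0 z (n 0 z (n 0 z (n
 0 z (n 0 z (n 0 z z))))))))))))))))))))))))) (n 533 (n 0 z (n 0 z (n 0 z (n 0 z (n 0 z (n 0 z
 (n 0 z (n 0 z (n 0 z (n 0 z (n 0 z (n 0 z (n 0 z (n 0 z (n 0 z (n 0 z (n 0 z (n 0 z (n 0 z (n 0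
 z (n 0 z (n 0 z (n 0 z (n 0 z (n 0 z z))))))))))))))))))))))))) z)))))) (n 0 (n 0 z (n 1 (n 0 z
 (n 0 z (n 0 z (n 0 z (n 0 z (n 0 z (n 0 z (n 0 z (n 0 z (n 0 z (n 0 z (n 0 z (n 0 z (n 0 z (n 0
 z (n 0 z (n 0 z (n 0 z (n 0 z (n 0 z (n 0 z (n 0 z (n 0 z (n 0 z (n 0 z (n 0 z (n 0 z (n 0 z (n
 0 z (n 0 z (n 0 z (n 0 z (n
 0x53213a8981c676376320186ea6c802076e86226e06586268226dfda44e39618968696a43dc82695d623a9e31a9a1a63628a5c524a5b1801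
 z (n 0 z (n 0 z (n 0 z (n 0 z (n 0 z (n 0 z (n 0 z (n 0 z (n 0 z (n 2 (n 0 z (n 0 z (n 0 z z)))
 (n 0 z (n 0 z (n 0 z (n 0 z z))))))))))))))))))))))))))))))))))))))))))))))) (n 1 (n 0 z (n 0 z
 (n 0 z (n 0 z (n 0 z (n 0 z (n 0 z (n 0 z (n 0 z (n 0 z (n 0 z (n 0 z (n 0 z (n 0 z (n 0 z (n 0
 z (n 0 z (n 0 z (n 0 z (n 0 z (n 0 z (n 0 z (n 0 z (n 0 z (n 0 z (n 0 z (n 0 z (n 0 z (n 0 z (n
 0 z (n 0 z (n 0 z (n 0 z (n 0 z (n 0 z (n 0 z (n 0 z (n 0 z (n 0 z (n 0 z (n 0 z (n 0 z (n 0 z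
 (n 0 z (n 0 z (n 0 z (n 0 z z))))))))))))))))))))))))))))))))))))))))))))))) (n 1 (n 0 z (n 0 z
 (n 0 z (n 0 z (n 0 z (n 0 z (n 0 z (n 0 z (n 0 z (n 0 z (n 0 z (n 0 z (n 0 z (n 0 z (n 0 z (n 0
 z (n 0 z (n 0 z (n 0 z (n 0 z (n 0 z (n 0 z (n 0 z (n 0 z (n 0 z (n 0 z (n 0 z (n 0 z (n 0 z (n
 0 z (n 0 z (n 0 z (n 0 z (n 0 z (n 0 z (n 0 z (n 0 z (n 0 z (n 0 z (n 0 z (n 0 z (n 0 z (n 0 z
 (n 0 z (n 0 z (n 0 z (n 0 z z))))))))))))))))))))))))))))))))))))))))))))))) (n 1 (n 0 z (n 0 z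
 (n 0 z (n 0 z (n 0 z (n 0 z (n 0 z (n 0 z (n 0 z (n 0 z (n 0 z (n 0 z (n 0 z (n 0 z (n 0 z (n 0
 z (n 0 z (n 0 z (n 0 z (n 0 z (n 0 z (n 0 z (n 0 z (n 0 z (n 0 z (n 0 z (n 0 z (n 0 z (n 0 z (n
 0 z (n 0 z (n 0 z (n 0 z (n 0 z (n 0 z (n 0 z (n 0 z (n 0 z (n 0 z (n 0 z (n 0 z (n 0 z (n 0 z
 (n 0 z (n 0 z (n 0 z (n 0 z z))))))))))))))))))))))))))))))))))))))))))))))) z))))) (n 0 (n 1
 (n 0 z (n 0 z (n 0 z (n 0 z (n 0 z (n 0 z (n 0 z (n 0 z (n 0 z (n 0 z (n 0 z (n 0 z (n 2 (n 0 z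
 (n 0 z (n 0 z z))) (n 0 z (n 0 z (n 0 z (n 0 z (n 0 z (n 0 z (n 0 z (n 0 z (n 0 z (n 0 z (n 0 z
 (n 0 z (n 0 z (n 0 z (n 0 z (n 0 z (n 0 z (n 0 z (n 0 z (n 0 z (n 0 z (n 0 z (n 0 z (n 0 z (n 0
 z (n 0 z (n 0 z (n 0 z (n 0 z (n 0 z (n 0 z (n 0 z (n 0 z (n 0 z (n 0 z (n 0 z
 z))))))))))))))))))))))))))))))))))))))))))))))))) (n 1 (n 0 z (n 0 z (n 0 z (n 0 z (n 0 z (n 0
 z (n 0 z (n 0 z (n 0 z (n 0 z (n 0 z (n 0 z (n 0 z (n 0 z (n 0 z (n 0 z (n 0 z (n 0 z (n 0 z (n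
 0 z (n 0 z (n 0 z (n 0 z (n 0 z (n 0 z (n 0 z (n 0 z (n 0 z (n 0 z (n 0 z (n 0 z (n 0 z (n 0 z
 (n 0 z (n 0 z (n 0 z (n 0 z (n 0 z (n 0 z (n 0 z (n 0 z (n 0 z (n 0 z (n 0 z (n 0 z (n 0 z (n 0
 z (n 0 z (n 0 z z))))))))))))))))))))))))))))))))))))))))))))))))) (n 1 (n 0 z (n 0 z (n 0 z (n
 0 z (n 0 z (n 0 z (n 0 z (n 0 z (n 0 z (n 0 z (n 0 z (n 0 z (n 0 z (n 0 z (n 0 z (n 0 z (n 0 z
 (n 0 z (n 0 z (n 0 z (n 0 z (n 0 z (n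
 0x375164030382ea6c802038207de8607e082085f8a07e085d85f8e18607df7a26dd91e85e82185e7e086085f9a289d7241001
 z (n 0 z (n 0 z (n 0 z (n 0 z (n 0 z (n 0 z (n 0 z (n 0 z (n 0 z (n 0 z (n 0 z (n 0 z (n 0 z (n
 0 z (n 0 z (n 0 z (n 0 z (n 0 z (n 0 z (n 0 z (n 0 z (n 0 z (n 0 z (n 0 z (n 0 z (n 0 z
 z))))))))))))))))))))))))))))))))))))))))))))))))) (n 1 (n 0 z (n 0 z (n 0 z (n 0 z (n 0 z (n 0
 z (n 0 z (n 0 z (n 0 z (n 0 z (n 0 z (n 0 z (n 0 z (n 0 z (n 0 z (n 0 z (n 0 z (n 0 z (n 0 z (n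
 0 z (n 0 z (n 0 z (n 0 z (n 0 z (n 0 z (n 0 z (n 0 z (n 0 z (n 0 z (n 0 z (n 0 z (n 0 z (n 0 z
 (n 0 z (n 0 z (n 0 z (n 0 z (n 0 z (n 0 z (n 0 z (n 0 z (n 0 z (n 0 z (n 0 z (n 0 z (n 0 z (n 0
 z (n 0 z (n 0 z z))))))))))))))))))))))))))))))))))))))))))))))))) z)))) (n 0 (n 0 z (n 0 z (n
 0 z z))) (n 0 (n 0 z (n 0 z z)) (n 0 (n 0 z z) (n 0 z z))))))))))))))) (n 0 (n 1 (n 2 z (n 2236
 z (n 2236 z (n 2236 z (n 2236 z (n 2236 z z)))))) (n 1 (n 2236 z (n 2236 z (n 10 z (n 2236 z (n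
 2236 z (n 2236 z z)))))) (n 0 z (n 1 (n 6496515 z (n 6496515 z (n 6496515 z (n 6496515 z (n
 6496515 z (n 6496515 z z)))))) (n 0 z z))))) (n 0 (n 0xb37164b07134b36112d6500 (n 0 (n 0 (n
 7737379 z (n 7737379 z (n 7737379 z (n 7737379 z (n 7737379 z (n 7737379 z z)))))) (n 0 (n
 16324 z (n 10948 z (n 16324 z (n 7611931 z (n 16324 z (n 16324 z z)))))) z)) (n 0 (n 265 (n 1
 (n 2236 z (n 2236 z (n 2236 z (n 2236 z (n 7754779 z (n 2236 z z)))))) (n 1 (n 7737379 z (n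
 7737379 z (n 7737379 z (n 7737379 z (n 7737379 z (n 7737379 z z)))))) (n 1 (n 2236 z (n 2236 z
 (n 2236 z (n 2236 z (n 2236 z (n 7754779 z z)))))) (n 1 (n 2236 z (n 2 z (n 2236 z (n 7754779 z
 (n 2236 z (n 2236 z z)))))) (n 1 (n 7737379 z (n 7737379 z (n 7737379 z (n 7737379 z (n 7737379
 z (n 7737379 z z)))))) (n 1 (n 7737379 z (n 7737379 z (n 7737379 z (n 7737379 z (n 7737379 z (n
 7737379 z z)))))) (n 0 z (n 1 (n 7614803 z (n 7614803 z (n 7614803 z (n 7614803 z (n 7614803 z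
 (n 7614803 z z)))))) z)))))))) (n 33 (n 0 z (n 0 z (n 1 (n 7737379 z (n 7737379 z (n 7737379 z
 (n 7737379 z (n 7737379 z (n 7737379 z z)))))) (n 1 (n 2236 z (n 10 z (n 2236 z (n 6563643 z (n
 2236 z (n 2236 z z)))))) (n 0 z (n 0 z (n 1 (n 7545091 z (n 7545091 z (n 7545091 z (n 7545091 z
 (n 7545091 z (n 7545091 z z)))))) z))))))) (n 9 (n 1 (n 7754779 z (n 7754779 z (n 7754779 z (n
 7754779 z (n 7754779 z (n 7754779 z z)))))) (n 1 (n 1420 z (n 1420 z (n 1420 z (n 7611931 z (n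
 1420 z (n 1420 z z)))))) (n 0 z (n 1 (n 7545091 z (n 7545091 z (n 7545091 z (n 7545091 z (n
 7545091 z (n 7545091 z z)))))) (n 0 z z))))) (n 267 (n 0 z (n 1 (n 7737379 z (n 7737379 z (n
 7737379 z (n 7737379 z (n 7737379 z (n 7737379 z z)))))) (n 1 (n 2380 z (n 18 z (n 2380 z (n
 7611931 z (n 2380 z (n 2380 z z)))))) (n 0 z (n 1 (n 7545091 z (n 7545091 z (n 7545091 z (n
 7545091 z (n 7545091 z (n 7545091 z z)))))) z))))) (n 1 (n 1 (n 2236 z (n 2236 z (n 2236 z (n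
 7611931 z (n 2236 z (n 2236 z z)))))) (n 1 (n 7737379 z (n 7737379 z (n 7737379 z (n 7737379 z
 (n 7737379 z (n 7737379 z z)))))) (n 0 z (n 0 z (n 1 (n 7614803 z (n 7614803 z (n 7614803 z (n
 7614803 z (n 7614803 z (n 7614803 z z)))))) z))))) (n 287 (n 1 (n 7545091 z (n 7737379 z (n
 7737379 z (n 7737379 z (n 7737379 z (n 7737379 z z)))))) (n 1 (n 7545091 z (n 7737379 z (n
 7737379 z (n 7737379 z (n 7737379 z (n 7737379 z z)))))) (n 1 (n 7545091 z (n 7668507 z (n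
 7668507 z (n 7668507 z (n 7668507 z (n 7668507 z z)))))) (n 1 (n 7545091 z (n 2732 z (n 2732 z
 (n 2732 z (n 2732 z (n 2732 z z)))))) (n 1 (n 7545091 z (n 7737379 z (n 7737379 z (n 7737379 z
 (n 7737379 z (n 7737379 z z)))))) (n 1 (n 7545091 z (n 2732 z (n 2732 z (n 2732 z (n 2732 z (n
 2732 z z)))))) (n 0 z (n 1 (n 7545091 z (n 2732 z (n 2732 z (n 3278667 z (n 12 z (n 2732 z
 z)))))) (n 1 (n 7545091 z (n 7754779 z (n 7754779 z (n 7754779 z (n 7754779 z (n 7754779 z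
 z)))))) (n 1 (n 7545091 z (n 7754779 z (n 7754779 z (n 7754779 z (n 7754779 z (n 7754779 z
 z)))))) (n 1 (n 7545091 z (n 2732 z (n 2732 z (n 2732 z (n 2732 z (n 2732 z z)))))) (n 1 (n
 7545091 z (n 7668507 z (n 7668507 z (n 7668507 z (n 7668507 z (n 4395123 z z))))))
 z)))))))))))) (n 9 (n 1 (n 7737379 z (n 7754779 z (n 7754779 z (n 7754779 z (n 7754779 z (n
 7754779 z z)))))) (n 1 (n 7737379 z (n 2236 z (n 26 z (n 2236 z (n 2236 z (n 2236 z z)))))) (n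
 0 z (n 1 (n 7545091 z (n 7545091 z (n 7545091 z (n 7545091 z (n 7545091 z (n 7545091 z z))))))
 (n 0 z z))))) z))))))) (n 0 (n 0 (n 0 z (n 0 z (n 0 z (n 0 z z)))) (n 0 (n 0 z (n 0 z (n 0 z
 z))) (n 0 (n 0 z (n 0 z z)) (n 0 (n 0 z z) z)))) (n 0 (n 279 (n 0 (n 0 z (n 0 z (n 0 z (n 0 z
 z)))) (n 0 (n 0 (n
 0x30e90a860382082082082082081f8208208208a08208208208208608208208208208208208208208208200801 z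
 (n 0xd87682082185f86082181f8608207e182081f85f8218208608207e18228208208217e08208208200041 z z))
 (n 0 (n
 0x30a8ea860781f8208208208208208607e07e182082082082082082082082081f8608218208208608208200801 z
 (n 8660795 z z)) (n 0 (n
 0xaea70a08077619286677616d87cfb1bbdc5a0a548ebc577e36a87248979615e361c9de59c766927a195e90801 z
 (n 0x5587585e8e58a07e37639198e476079d71f81fa178e38668608e06a38227da9238a26e485f8da7240041 z z))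
 (n 0 (n 8718187 z (n
 0x30e90a86038208218608208208208207e08218a17e08607e082085f8208218208208207e08208208208200801 z
 z)) z)))) (n 0 (n 0 z (n 0 z (n 0 z (n 0 z z)))) (n 0 (n 0 (n 8595275 z z) (n 0 z (n 0 z (n 0 z
 z)))) (n 0 (n 0 z (n 0 z (n 0 z (n 0 z z)))) (n 0 (n 0 z (n 0 z (n 0 z (n 0 z z)))) (n 0 (n 0 z
 (n 0 z (n 0 z (n 0 z z)))) (n 0 (n 0 z (n 0 z (n 0 z (n 0 z z)))) (n 0 (n 0 z (n 0 z (n 0 z (n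
 0 z z)))) (n 0 (n 0 z (n 0 (n 8785955 z z) (n 0 z (n 0 z z)))) (n 0 (n 0 z (n 0 (n 8785955 z z)
 (n 0 z (n 0 z z)))) (n 0 (n 0 z (n 0 z (n 0 z (n 0 z z)))) z)))))))))))) (n 177 (n 0 (n 0 z (n
 0 z (n 0 z (n 0 z z)))) (n 0 (n 0 (n
 0x558548a082691c7dd7a681f81d6a17e4761719a1a92996179c8de72a7238dd7a17606236e38db8e10041 z z) (n
 0 z (n 0 z (n 0 (n 8660795 z z) z)))) (n 0 (n 0 z (n 0 z (n 0 (n 8867939 z z) (n 0 (n 8660795 z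
 z) z)))) (n 0 (n 0 z (n 0 z (n 0 z (n 0 z z)))) (n 0 (n 0 z (n 0 z (n 0 z (n 0 z z)))) (n 0 (n
 0 z (n 0 z (n 0 z (n 0 z z)))) (n 0 (n 0 (n 8595275 z z) (n 0 z (n 0 z (n 0 (n
 0x558538a082691c7dd7a681f81d6a17e4761719a1a92996179c8de72a7238dd7a17606236e38db8e10041 z z)
 z)))) (n 0 (n 0 z (n 0 z (n 0 (n 8867939 z z) (n 0 (n
 0x558538a082691c7dd7a681f81d6a17e4761719a1a92996179c8de72a7238dd7a17606236e38db8e10041 z z)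
 z)))) (n 0 (n 0 z (n 0 z (n 0 z (n 0 z z)))) (n 0 (n 0 z (n 0 (n 8660795 z z) (n 0 z (n 0 z
 z)))) (n 0 (n 0 z (n 0 (n 8867939 z z) (n 0 z (n 0 z z)))) (n 0 (n 0 z (n 0 z (n 0 z (n 0 z
 z)))) (n 0 (n 0 z (n 0 z (n 0 z (n 0 z z)))) (n 0 (n 0 z (n 0 (n 8660507 z z) (n 0 z (n 0 z
 z)))) (n 0 (n 0 z (n 0 z (n 0 z (n 0 z z)))) (n 0 (n 0 z (n 0 z (n 0 z (n 0 z z)))) (n 0 (n 0 z
 (n 0 (n 8867939 z z) (n 0 z (n 0 z z)))) z))))))))))))))))) (n 57 (n 0 (n 0 z (n 0 z (n 0 z (n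
 0 z z)))) (n 0 (n 0 z (n 0 z (n 0 z (n 0 z z)))) (n 0 (n 0 z (n 0 z (n 0 z (n 0 z z)))) (n 0 (n
 0 z (n 0 z (n 0 z (n 0 z z)))) (n 0 (n 0 z (n 0 z (n 0 z (n 0 z z)))) (n 0 (n 0 z (n 0 z (n 0 z
 (n 0 z z)))) (n 0 (n 0 z (n 0 z (n 0 z (n 0 z z)))) z))))))) (n 297 (n 0 (n 0 z (n 0 z (n 0 z
 (n 0 z z)))) (n 0 (n 0 z (n 0 z (n 0 z (n 0 z z)))) (n 0 (n 0 z (n 0 z (n 0 z (n 0 z z)))) (n 0
 (n 0 z (n 0 z (n 0 z (n 0 z z)))) (n 0 (n 0 z (n 0 z (n 0 z (n 0 z z)))) (n 0 (n 0 z (n 0 z (n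
 0 z (n 0 z z)))) (n 0 (n 0 z (n 0 z (n 0 z (n 0 z z)))) (n 0 (n 0 z (n 0 z (n 0 z (n 0 z z))))
 (n 0 (n 0 z (n 0 (n 8785955 z z) (n 0 z (n 0 z z)))) (n 0 (n 0 z (n 0 z (n 0 z (n 0 z z)))) (n
 0 (n 0 z (n 0 (n 8663379 z z) (n 0 z (n 0 z z)))) (n 0 (n 0 z (n 0 z (n 0 z (n 0 z z))))
 z)))))))))))) (n 291 (n 0 (n 0 z (n 0 z (n 0 z (n 0 z z)))) (n 0 (n 0 z (n 0 z (n 0 z (n 0 z
 z)))) (n 0 (n 0 z (n 0 z (n 0 z (n 0 (n 8593667 z z) z)))) (n 0 (n 0 z (n 0 z (n 0 z (n 0 z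
 z)))) (n 0 (n 0 z (n 0 z (n 0 z (n 0 z z)))) (n 0 (n 0 z (n 0 z (n 0 z (n 0 z z)))) (n 0 (n 0 z
 (n 0 z (n 0 z (n 0 z z)))) (n 0 (n 0 z (n 0 z (n 0 z (n 0 z z)))) (n 0 (n 0 z (n 0 z (n 0 z (n
 0 z z)))) (n 0 (n 0 z (n 0 z (n 0 z (n 0 z z)))) (n 0 (n 0 z (n 0 z (n 0 (n
 0x30a6a408078208207e17e08208218218208207e082082082086082182082082082082082082081f8208200801 z
 z) (n 0 (n
 0x30a6a408078208207e07e08208218208208208208208208208208218208208208208208208208208208200801 z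
 z) z)))) (n 0 (n 0 z (n 0 (n
 0x853752403810a90a80037a08207e08208208218607e07e082082082082082082082082081f8208218208207e08208201001
 z z) (n 0 z (n 0 z z)))) (n 0 (n 0 z (n 0 (n 8663379 z z) (n 0 z (n 0 z z)))) (n 0 (n 0 z (n 0
 z (n 0 z (n 0 z z)))) (n 0 (n 0 z (n 0 z (n 0 z (n 0 z z)))) z))))))))))))))) (n 9 (n 0 (n 0 z
 (n 0 z (n 0 z (n 0 z z)))) (n 0 (n 0 z (n 0 z (n 0 z (n 0 z z)))) (n 0 (n 0 z (n 0 z (n 0 z (n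
 0 z z)))) (n 0 (n 0 z (n 0 z (n 0 z (n 0 z z)))) (n 0 (n 0 z (n 0 z (n 0 z (n 0 z z)))) (n 0 (n
 0 (n 8663379 z z) (n 0 z (n 0 z (n 0 (n 8663379 z z) z)))) (n 0 (n 0 z (n 0 z (n 0 z (n 0 z
 z)))) (n 0 (n 0 z (n 0 z (n 0 z (n 0 z z)))) z)))))))) (n 279 (n 0 (n 0 z (n 0 z (n 0 z (n 0 z
 z)))) (n 0 (n 0 z (n 0 z (n 0 z (n 0 z z)))) (n 0 (n 0 z (n 0 z (n 0 z (n 0 z z)))) (n 0 (n 0 z
 (n 0 z (n 0 z (n 0 z z)))) (n 0 (n 0 z (n 0 z (n 0 z (n 0 z z)))) (n 0 (n 0 z (n 0 z (n 0 z (n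
 0 (n 8785955 z z) z)))) (n 0 (n 0 z (n 0 z (n 0 (n 8663379 z z) (n 0 (n 8663379 z z) z)))) (n 0
 (n 0 z (n 0 z (n 0 z (n 0 z z)))) z)))))))) (n 255 (n 0 (n 0 (n
 0x5b0ec4b87681e79f86185f8e27a295d55d9a06e09a071d8a18a08696608e06e282481c86161e9e39267a10081 z
 z) (n 0 z (n 0 (n 8660795 z z) (n 0 z z)))) (n 0 (n 0 (n
 0x6b0ec5b8767dd79e86189f9237a299c49c9e16a19e069c8a18df86b5e09206a382585b86259d9e59687620081 z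
 z) (n 0 z (n 0 z (n 0 (n 8660795 z z) z)))) (n 0 (n 0 z (n 0 z (n 0 z (n 0 z z)))) (n 0 (n 0 z
 (n 0 z (n 0 z (n 0 z z)))) (n 0 (n 0 z (n 0 z (n 0 z (n 0 z z)))) (n 0 (n 0 z (n 0 z (n 0 z (n
 0 z z)))) (n 0 (n 0 z (n 0 z (n 0 z (n 0 z z)))) (n 0 (n 0 (n 8785955 z z) (n 0 z (n 0 z (n 0
 (n 8785955 z z) z)))) (n 0 (n 0 z (n 0 z (n 0 (n 8785955 z z) (n 0 (n 8785955 z z) z)))) (n 0
 (n 0 (n 0x10a8ea46030821 z (n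
 0x30a8ea46038608208208208207e08208208208208208208208208208208208208208208208208208208200801 z
 z)) (n 0 z (n 0 (n 8873227 z (n 8873227 z z)) (n 0 z z)))) (n 0 (n 0 z (n 0 z (n 0 z (n 0 z
 z)))) (n 0 (n 0 z (n 0 z (n 0 z (n 0 z z)))) (n 0 (n 0 z (n 0 z (n 0 z (n 0 z z)))) (n 0 (n 0 z
 (n 0 z (n 0 z (n 0 z z)))) (n 0 (n 0 (n 8593667 z z) (n 0 z (n 0 (n 8593667 z z) (n 0 z z))))
 (n 0 (n 0 z (n 0 z (n 0 z (n 0 z z)))) (n 0 (n 0 z (n 0 z (n 0 z (n 0 z z)))) (n 0 (n 0 z (n 0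
 z (n 0 z (n 0 z z)))) (n 0 (n 0 z (n 0 z (n 0 z (n 0 z z)))) (n 0 (n 0 z (n 0 z (n 0 z (n 0 z
 z)))) (n 0 (n 0 z (n 0 z (n 0 z (n 0 z z)))) (n 0 (n 0 z (n 0 z (n 0 z (n 0 z z)))) (n 0 (n 0 z
 (n 0 z (n 0 (n 8663379 z (n 8663379 z z)) (n 0 (n 8663379 z (n 8663379 z z)) z))))
 z))))))))))))))))))))))) (n 9 (n 0 (n 0 z (n 0 z (n 0 z (n 0 z z)))) (n 0 (n 0 z (n 0 z (n 0 z
 (n 0 z z)))) (n 0 (n 0 z (n 0 z (n 0 z (n 0 z z)))) (n 0 (n 0 z (n 0 z (n 0 z (n 0 z z)))) (n 0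
 (n 0 z (n 0 z (n 0 z (n 0 z z)))) (n 0 (n 0 z (n 0 z (n 0 z (n 0 z z)))) (n 0 (n 0 z (n 0 z (n
 0 z (n 0 z z)))) (n 0 (n 0 z (n 0 z (n 0 z (n 0 z z)))) (n 0 (n 0 z (n 0 z (n 0 z (n 0 z z))))
 (n 0 (n 0 z (n 0 z (n 0 z (n 0 z z)))) (n 0 (n 0 z (n 0 z (n 0 z (n 0 z z)))) z))))))))))) (n
 243 (n 0 (n 0 z (n 0 z (n 0 z (n 0 z z)))) (n 0 (n 0 z (n 0 z (n 0 z (n 0 z z)))) (n 0 (n 0 z
 (n 0 z (n 0 z (n 0 z z)))) (n 0 (n 0 z (n 0 z (n 0 z (n 0 z z)))) (n 0 (n 0 z (n 0 z (n 0 z (n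
 0 z z)))) (n 0 (n 0 z (n 0 z (n 0 z (n 0 z z)))) (n 0 (n 0 z (n 0 z (n 0 z (n 0 z z)))) (n 0 (n
 0 z (n 0 z (n 0 z (n 0 z z)))) (n 0 (n 0 (n 8593667 z z) (n 0 z (n 0 (n 8593667 z z) (n 0 z
 z)))) (n 0 (n 0 z (n 0 z (n 0 z (n 0 z z)))) (n 0 (n 0 z (n 0 (n 8873227 z (n 8873227 z z)) (n
 0 z (n 0 z z)))) (n 0 (n 0 z (n 0 z (n 0 z (n 0 z z)))) (n 0 (n 0 z (n 0 z (n 0 z (n 0 z z))))
 (n 0 (n 0 z (n 0 z (n 0 z (n 0 z z)))) (n 0 (n 0 z (n 0 z (n 0 (n 8663379 z (n 8663379 z z)) (n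
 0 (n 8663379 z (n 8663379 z z)) z)))) z))))))))))))))) (n 287 (n 0 (n 0 z (n 0 z (n 0 z (n 0 z
 z)))) (n 0 (n 0 z (n 0 z (n 0 z (n 0 z z)))) (n 0 (n 0 z (n 0 z (n 0 z (n 0 z z)))) (n 0 (n 0 z
 (n 0 (n 8848171 z z) (n 0 z (n 0 z z)))) (n 0 (n 0 z (n 0 z (n 0 z (n 0 z z)))) (n 0 (n 0 z (n
 0 z (n 0 z (n 0 z z)))) (n 0 (n 0 z (n 0 z (n 0 (n 8785955 z z) (n 0 (n 8785955 z z) z)))) (n 0
 (n 0 z (n 0 z (n 0 z (n 0 z z)))) (n 0 (n 0 z (n 0 (n 8803355 z z) (n 0 z (n 0 z z)))) (n 0 (n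
 0 z (n 0 z (n 0 z (n 0 z z)))) (n 0 (n 0 z (n 0 z (n 0 z (n 0 z z)))) (n 0 (n 0 z (n 0 z (n 0 z
 (n 0 z z)))) z)))))))))))) (n 341 (n 0 (n 0 z (n 0 z (n 0 z (n 0 z z)))) (n 0 (n 0 z (n 0 z (n
 0 z (n 0 z z)))) (n 0 (n 0 z (n 0 z (n 0 z (n 0 z z)))) (n 0 (n 0 z (n 0 z (n 0 z (n 0 z z))))
 (n 0 (n 0 z (n 0 z (n 0 z (n 0 z z)))) (n 0 (n 0 z (n 0 z (n 0 (n 8785955 z z) (n 0 (n 8785955
 z z) z)))) (n 0 (n 0 z (n 0 (n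
 0x4587485f8a48607e27a289a8e37607de71f81f9988e38658208a07228227db9238a272385f8db7230041 z (n
 0x764854301830a8e8060781f8207e08218207e08617e17e082082082082082086082082082082082082082081f8208201001
 z z)) (n 0 z (n 0 z z)))) (n 0 (n 0 z (n 0 (n
 0x558628a082691c7dd7a681f81d6a17e4761719a1a92996179c8de72a7238dd7a17606236e38db8e10041 z (n
 8660795 z z)) (n 0 (n 8802419 z (n
 0x558628a082691c7dd7a681f81d6a17e4761719a1a92996179c8de72a7238dd7a17606236e38db8e10041 z z)) (n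
 0 (n 0x558628a082691c7dd7a681f81d6a17e4761719a1a92996179c8de72a7238dd7a17606236e38db8e10041 z
 (n 8718187 z z)) z)))) (n 0 (n 0 z (n 0 z (n 0 z (n 0 z z)))) (n 0 (n 0 (n 8868915 z z) (n 0 z
 (n 0 z (n 0 z z)))) (n 0 (n 0 z (n 0 z (n 0 z (n 0 z z)))) (n 0 (n 0 z (n 0 z (n 0 z (n 0 z
 z)))) (n 0 (n 0 z (n 0 (n 8868675 z z) (n 0 z (n 0 z z)))) z))))))))))))) (n 11 (n 0 (n 0 z (n
 0 z (n 0 z (n 0 (n 8803355 z z) z)))) (n 0 (n 0 z (n 0 z (n 0 z (n 0 z z)))) (n 0 (n 0 z (n 0 z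
 (n 0 z (n 0 z z)))) (n 0 (n 0 z (n 0 z (n 0 z (n 0 z z)))) (n 0 (n 0 z (n 0 z (n 0 z (n 0 z
 z)))) (n 0 (n 0 z (n 0 z (n 0 z (n 0 z z)))) (n 0 (n 0 z (n 0 z (n 0 z (n 0 (n 8803355 z z)
 z)))) (n 0 (n 0 z (n 0 (n 8718187 z z) (n 0 z (n 0 z z)))) (n 0 (n 0 (n 8593667 z z) (n 0 z (n
 0 z (n 0 (n 8593667 z z) z)))) (n 0 (n 0 z (n 0 (n 8593667 z z) (n 0 z (n 0 z z)))) (n 0 (n 0 z
 (n 0 z (n 0 z (n 0 z z)))) (n 0 (n 0 (n 8868915 z z) (n 0 z (n 0 z (n 0 (n 8868675 z z) z))))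
 (n 0 (n 0 z (n 0 z (n 0 z (n 0 z z)))) (n 0 (n 0 z (n 0 z (n 0 z (n 0 z z)))) z))))))))))))))
 (n 245 (n 0 (n 0 z (n 0 z (n 0 z (n 0 z z)))) (n 0 (n 0 z (n 0 z (n 0 z (n 0 z z)))) (n 0 (n 0
 z (n 0 z (n 0 (n
 0x558218a082691c7dd7a681f81d6a17e4761719a1a92996179c8de72a7238dd7a17606236e38db8e10041 z z) (n
 0 (n 0x558218a082691c7dd7a681f81d6a17e4761719a1a92996179c8de72a7238dd7a17606236e38db8e10041 z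
 z) z)))) (n 0 (n 0 z (n 0 z (n 0 z (n 0 z z)))) (n 0 (n 0 z (n 0 z (n 0 z (n 0 z z)))) (n 0 (n
 0 z (n 0 z (n 0 (n
 0x558628a082691c7dd7a681f81d6a17e4761719a1a92996179c8de72a7238dd7a17606236e38db8e10041 z z) (n
 0 (n 0x558628a082691c7dd7a681f81d6a17e4761719a1a92996179c8de72a7238dd7a17606236e38db8e10041 z
 z) z)))) (n 0 (n 0 z (n 0 z (n 0 z (n 0 z z)))) (n 0 (n 0 z (n 0 (n 8857099 z z) (n 0 z (n 0 z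
 z)))) (n 0 (n 0 z (n 0 (n
 0x558748a082691c7dd7a681f81d6a17e4761719a1a92996179c8de72a7238dd7a17606236e38db8e10041 z (n
 0xd0e90e800379877c877f787e8382807e877a7792907575847a8384808b7b796e76a287777b827a8872747b8c86877e8b827b727c8f7a7f0809
 z z)) (n 0 z (n 0 z z)))) (n 0 (n 0 z (n 0 (n
 0x30e90e80078df8a48a282179f85a9226d98e26a076285c7e49a769b9628218248a172279e7238e175b8e00801 z
 z) (n 0 z (n 0 z z)))) (n 0 (n 0 z (n 0 (n 2164827 z z) (n 0 z (n 0 z z)))) (n 0 (n 0 z (n 0 z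
 (n 0 z (n 0 z z)))) (n 0 (n 0 z (n 0 z (n 0 z (n 0 z z)))) (n 0 (n 0 z (n 0 z (n 0 (n 8802419 z
 (n 0x30ed0e820382082082082082082182082082082082081f81f8208208208208208208208218208208208200801
 z z)) (n 0 (n
 0x10e90e800789f8208208208207e08208208207e08208608208208208208208208208208208208208208200801 z
 (n 0x50a6ec280395f71c92079e8a576b72169d81e9a99a08627e37169303dc8a48585ddb1d91d6a59577b185f0801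
 z z)) z)))) (n 0 (n 0 z (n 0 (n 8803355 z z) (n 0 z (n 0 z z)))) (n 0 (n 0 z (n 0 z (n 0 (n
 8802419 z (n 8857099 z z)) (n 0 (n
 0x30a6ec280385f8208208208208208208207e07e08208208208208208208208208208208208208208208200801 z
 (n 8718187 z z)) z)))) (n 0 (n 0 z (n 0 z (n 0 z (n 0 z z)))) (n 0 (n 0 z (n 0 z (n 0 z (n 0 z
 z)))) (n 0 (n 0 z (n 0 z (n 0 z (n 0 z z)))) (n 0 (n 0 z (n 0 z (n 0 z (n 0 z z)))) (n 0 (n 0 z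
 (n 0 (n 8718187 z z) (n 0 z (n 0 z z)))) (n 0 (n 0 z (n 0 (n 8802419 z (n
 0x30e30c08037e18207e08208207e08607e08208208208208208208608208208208208208208208208208200801 z
 z)) (n 0 z (n 0 z z)))) (n 0 (n 0 z (n 0 z (n 0 z (n 0 z z)))) (n 0 (n 0 z (n 0 z (n 0 z (n 0 z
 z)))) (n 0 (n 0 z (n 0 (n 8802419 z (n
 0x10ed0ec80789f8208208208207e08208208207e08208608208208208208208208208208208208208208200801 z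
 z)) (n 0 z (n 0 z z)))) (n 0 (n 0 z (n 0 (n 8802419 z (n 8857099 z z)) (n 0 z (n 0 z z)))) (n 0
 (n 0 z (n 0 z (n 0 z (n 0 z z)))) (n 0 (n 0 z (n 0 z (n 0 z (n 0 z z)))) (n 0 (n 0 z (n 0 z (n
 0 z (n 0 z z)))) (n 0 (n 0 z (n 0 (n 8867939 z (n 8867939 z z)) (n 0 z (n 0 z z)))) (n 0 (n 0
 (n
 0xfb0c47c86215c310061889b0c01b8609de85b8217617607276f07236de62b8e88627a051b6e776252185b7e089b9e35eac5259eaa20181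
 z (n 0x3587685f8a48607e27a289b8a27a07de75f81f95a8e28648208a07218217dc8e286276389f8dc7a20041 z
 z)) (n 0 (n 8867939 z (n 8867939 z z)) (n 0 (n 8867939 z (n 8867939 z z)) (n 0 (n 7739483 z (n
 0xfb0c47c86215c310061889b0c01b8609de85b8217617607276f07236de62b8e88627a051b6e776252185b7e089b9e35eac5259eaa20181
 z z)) z)))) (n 0 (n 0 z (n 0 z (n 0 (n 8802419 z (n
 0x10e90e82037e17df8218208208208217e082082085f7e081f8207e08607e082081f8208618208207e08200801 z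
 z)) (n 0 (n 8718187 z (n
 0x10e90e82037e17df8218208208208217e082082085f7e081f8207e08607e082081f8208618208207e08200801 z
 z)) z)))) (n 0 (n 0 z (n 0 (n 8593667 z z) (n 0 z (n 0 z z)))) (n 0 (n 0 z (n 0 (n
 0x1853761401810a6ec080386081f8208208207df8208208208208208208208208208208208208208218208208208208201001
 z (n
 0x50c50e28037e28638628217e085c8e079b8a07607e281e7e18a485f8207df86181f86189f7639a07e18200801 z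
 z)) (n 0 z (n 0 z z)))) (n 0 (n 0 z (n 0 (n 8802419 z (n
 0x10ed0ec80785e8218208208208208608207e07e08208208208208208208208208208218208208208208200801 z
 z)) (n 0 z (n 0 z z)))) (n 0 (n 0 z (n 0 (n 8802419 z (n
 0x10ed0ec80785e8218208208208208608207e07e08208208208208208208208208208218208208208208200801 z
 z)) (n 0 z (n 0 z z)))) (n 0 (n 0 z (n 0 z (n 0 z (n 0 z z)))) (n 0 (n 0 z (n 0 z (n 0 z (n 0 z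
 z)))) (n 0 (n 0 z (n 0 z (n 0 z (n 0 z z)))) (n 0 (n 0 z (n 0 (n 8868675 z z) (n 0 z (n 0 z
 z)))) (n 0 (n 0 z (n 0 (n 8868675 z z) (n 0 z (n 0 z z)))) (n 0 (n 0 z (n 0 z (n 0 (n 8868675 z
 (n 8868675 z z)) (n 0 (n 8868675 z (n 8868675 z z)) z)))) (n 0 (n 0 z (n 0 z (n 0 z (n 0 z
 z)))) (n 0 (n 0 z (n 0 (n 8868675 z (n 8868675 z z)) (n 0 z (n 0 z z)))) (n 0 (n 0 z (n 0 z (n
 0 z (n 0 z z)))) (n 0 (n 0 z (n 0 z (n 0 z (n 0 z z)))) (n 0 (n 0 z (n 0 z (n 0 z (n 0 z z))))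
 z))))))))))))))))))))))))))))))))))))))))))))))) (n 1 (n 0 (n 0 z (n 0 z (n 0 z (n 0 z z)))) (n
 0 (n 0 z (n 0 z (n 0 z (n 0 z z)))) (n 0 (n 0 z (n 0 z (n 0 z (n 0 z z)))) (n 0 (n 0 z (n 0 (n
 8867939 z (n 8867939 z z)) (n 0 z (n 0 z z)))) (n 0 (n 0 z (n 0 z (n 0 z (n 0 z z)))) (n 0 (n 0
 z (n 0 (n 8867939 z z) (n 0 z (n 0 z z)))) (n 0 (n 0 z (n 0 z (n 0 z (n 0 z z)))) (n 0 (n 0 z
 (n 0 z (n 0 z (n 0 z z)))) (n 0 (n 0 z (n 0 (n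
 0xb0c70c62038255e181e81c86076965ebb0555aa08a38a7795498c667de61a7d45dea97965ae39977eb7a40801 z
 z) (n 0 z (n 0 z z)))) (n 0 (n 0 z (n 0 (n
 0x50ed0ec6038626e08617db7a08217e38e675c9237e08a281e6608e679e71f79b65e9da8e28679dc7a29200801 z
 (n
 0x8547213038f0c70c62038ee6689177e275f7e7620daf411da4764b287d4194ee165d5d9993515b5e91fbe8a156ec7641001
 z z)) (n 0 (n 8802419 z (n 8718187 z z)) (n 0 (n 7538779 z (n 8660795 z z)) z)))) (n 0 (n 0 z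
 (n 0 (n 8802419 z (n 3278939 z z)) (n 0 z (n 0 z z)))) (n 0 (n 0 z (n 0 (n
 0x3d81086082489e81e7e382081e7617e376075c99c8a68e17dd89f7a67a289f7a17a06e272289d8600041 z z) (n
 0 z (n 0 z z)))) (n 0 (n 0 z (n 0 z (n 0 z (n 0 z z)))) (n 0 (n 0 z (n 0 z (n 0 z (n 0 z z))))
 (n 0 (n 0 z (n 0 (n
 0x30a8ec26038208208208208208208608208208208208208208208208208208208208208208208208208200801 z
 z) (n 0 z (n 0 z z)))) (n 0 (n 0 z (n 0 z (n 0 z (n 0 z z)))) (n 0 (n 0 z (n 0 z (n 0 z (n 0 z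
 z)))) (n 0 (n 0 z (n 0 z (n 0 z (n 0 z z)))) (n 0 (n 0 z (n 0 (n 8802419 z (n 8717083 z z)) (n
 0 z (n 0 z z)))) (n 0 (n 0 z (n 0 z (n 0 z (n 0 z z)))) (n 0 (n 0 z (n 0 (n 8660507 z (n
 8660507 z z)) (n 0 z (n 0 z z)))) (n 0 (n 0 z (n 0 (n
 0x558108a082691c7dd7a681f81d6a17e4761719a1a92996179c8de72a7238dd7a17606236e38db8e10041 z (n
 8718187 z z)) (n 0 (n
 0x558108a082691c7dd7a681f81d6a17e4761719a1a92996179c8de72a7238dd7a17606236e38db8e10041 z (n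
 0x558108a082691c7dd7a681f81d6a17e4761719a1a92996179c8de72a7238dd7a17606236e38db8e10041 z z)) (n
 0 (n 8660795 z (n
 0x458108a08258dd7de7a582081e6e17e37a175b9dc8a79217dc89e76876389e7a175f6a272289c8a00041 z z))
 z)))) (n 0 (n 0 (n
 0x854761301830a8e4260386082286082081f8208208607e18207e085f82082086082082182081f8208208208208208201001
 z z) (n 0 z (n 0 (n 8718187 z z) (n 0 z z)))) (n 0 (n 0 z (n 0 z (n 0 z (n 0 z z)))) (n 0 (n 0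
 z (n 0 (n 8802419 z (n 8660507 z z)) (n 0 z (n 0 z z)))) (n 0 (n 0 z (n 0 z (n 0 z (n 0 (n
 8718187 z z) z)))) (n 0 (n 0 z (n 0 z (n 0 z (n 0 z z)))) (n 0 (n 0 z (n 0 z (n 0 z (n 0 z
 z)))) (n 0 (n 0 z (n 0 (n
 0x30a8ec26038208208208208208218608208208208208208208208208208208208208208208208208208200801 z
 (n
 0x832860703810ed0e46038218208208208218208218218207df8208208208208208208208208218207e18208608208201001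
 z z)) (n 0 z (n 0 z z)))) (n 0 (n 0 z (n 0 (n 8718187 z z) (n 0 z (n 0 z z)))) (n 0 (n 0 z (n 0
 z (n 0 z (n 0 z z)))) (n 0 (n 0 z (n 0 z (n 0 z (n 0 z z)))) (n 0 (n 0 z (n 0 z (n 0 z (n 0 z
 z)))) (n 0 (n 0 z (n 0 z (n 0 z (n 0 z z)))) (n 0 (n 0 z (n 0 z (n 0 (n
 0x558208a082691c7dd7a681f81d6a17e4761719a1a92996179c8de72a7238dd7a17606236e38db8e10041 z z) (n
 0 z z)))) (n 0 (n 0 z (n 0 z (n 0 z (n 0 z z)))) (n 0 (n 0 z (n 0 z (n 0 z (n 0 z z)))) (n 0 (n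
 0 z (n 0 (n 8717083 z z) (n 0 z (n 0 z z)))) (n 0 (n 0 z (n 0 z (n 0 z (n 0 z z)))) (n 0 (n 0 z
 (n 0 z (n 0 z (n 0 z z)))) (n 0 (n 0 z (n 0 z (n 0 z (n 0 z z)))) (n 0 (n 0 z (n 0 (n 8660507 z
 z) (n 0 z (n 0 z z)))) (n 0 (n 0 z (n 0 (n 8660795 z z) (n 0 z (n 0 z z)))) (n 0 (n 0 z (n 0 (n
 8802419 z (n 8848171 z z)) (n 0 z (n 0 z z)))) (n 0 (n 0 z (n 0 (n 8802419 z (n 8848171 z z))
 (n 0 z (n 0 z z)))) (n 0 (n 0 z (n 0 z (n 0 z (n 0 z z)))) (n 0 (n 0 z (n 0 z (n 0 z (n 0 z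
 z)))) (n 0 (n 0 z (n 0 (n 3278939 z z) (n 0 z (n 0 z z)))) (n 0 (n 0 z (n 0 z (n 0 z (n 0 z
 z)))) z))))))))))))))))))))))))))))))))))))))))))))))))) (n 279 (n 0 (n 0 z (n 0 z (n 0 z (n 0
 z z)))) (n 0 (n 0 z (n 0 z (n 0 z (n 0 z z)))) (n 0 (n 0 z (n 0 z (n 0 z (n 0 z z)))) (n 0 (n 0
 z (n 0 z (n 0 z (n 0 z z)))) (n 0 (n 0 z (n 0 z (n 0 z (n 0 z z)))) (n 0 (n 0 z (n 0 z (n 0 z
 (n 0 z z)))) (n 0 (n 0 z (n 0 z (n 0 z (n 0 z z)))) (n 0 (n 0 z (n 0 (n 8785955 z z) (n 0 z (n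
 0 z z)))) (n 0 (n 0 z (n 0 (n 8785955 z z) (n 0 z (n 0 z z)))) z))))))))) (n 33 (n 0 (n 0 z (n
 0 (n
 0x30a8ea86078608208208208207e08208208208208208208208208208208208208208208208208208208200801 z
 z) (n 0 z (n 0 z z)))) (n 0 (n 0 z (n 0 z (n 0 z (n 0 z z)))) (n 0 (n 0 z (n 0 z (n 0 z (n 0 z
 z)))) (n 0 (n 0 z (n 0 z (n 0 z (n 0 z z)))) (n 0 (n 0 z (n 0 z (n 0 z (n 0 z z)))) (n 0 (n 0 z
 (n 0 z (n 0 z (n 0 z z)))) (n 0 (n 0 z (n 0 z (n 0 z (n 0 z z)))) z))))))) (n 9 (n 0 (n 0 z (n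
 0 z (n 0 z (n 0 z z)))) (n 0 (n 0 z (n 0 z (n 0 z (n 0 z z)))) (n 0 (n 0 z (n 0 z (n 0 z (n 0 z
 z)))) (n 0 (n 0 z (n 0 z (n 0 z (n 0 z z)))) (n 0 (n 0 z (n 0 z (n 0 z (n 0 z z)))) z))))) (n
 267 (n 0 (n 0 z (n 0 z (n 0 z (n 0 z z)))) (n 0 (n 0 z (n 0 z (n 0 z (n 0 z z)))) (n 0 (n 0 z
 (n 0 z (n 0 z (n 0 z z)))) (n 0 (n 0 z (n 0 z (n 0 z (n 0 z z)))) (n 0 (n 0 z (n 0 z (n 0 z (n
 0 z z)))) z))))) (n 1 (n 0 (n 0 z (n 0 z (n 0 z (n 0 z z)))) (n 0 (n 0 z (n 0 z (n 0 z (n 0 z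
 z)))) (n 0 (n 0 z (n 0 z (n 0 z (n 0 z z)))) (n 0 (n 0 z (n 0 z (n 0 z (n 0 z z)))) (n 0 (n 0 z
 (n 0 z (n 0 z (n 0 z z)))) z))))) (n 0 (n 0 (n 0 (n 8785955 z z) (n 0 z (n 0 z (n 0 (n 8785955
 z z) z)))) (n 0 (n 0 z (n 0 z (n 0 z (n 0 z z)))) (n 0 (n 0 z (n 0 z (n 0 z (n 0 z z)))) (n 0
 (n 0 z (n 0 z (n 0 z (n 0 z z)))) (n 0 (n 0 z (n 0 (n 8803355 z z) (n 0 z (n 0 z z)))) (n 0 (n
 0 z (n 0 z (n 0 z (n 0 z z)))) (n 0 (n 0 z (n 0 z (n 0 z (n 0 z z)))) (n 0 (n 0 z (n 0 z (n 0 z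
 (n 0 z z)))) (n 0 (n 0 z (n 0 z (n 0 z (n 0 z z)))) (n 0 (n 0 z (n 0 z (n 0 z (n 0 z z)))) (n 0
 (n 0 z (n 0 (n 8868675 z z) (n 0 z (n 0 z z)))) (n 0 (n 0 z (n 0 (n 8868675 z z) (n 0 z (n 0 z
 z)))) z)))))))))))) z))))))))))))))))))))) z)))) (n 0x9c2d6c1445d4982d349c211 (n 0 (n 0 (n
 7754563 z (n 7754563 z (n 7754563 z (n 7754563 z (n 7754563 z (n 7754563 z z)))))) z) (n 0 (n
 277 (n 1 (n 7611963 z (n 7734059 z (n 2236 z (n 7668507 z (n 2236 z (n 2236 z z)))))) (n 1 (n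
 2236 z (n 2236 z (n 7734059 z (n 2236 z (n 7668507 z (n 2236 z z)))))) (n 1 (n 6498059 z (n
 4400923 z (n 7668507 z (n 3100 z (n 2236 z (n 2236 z z)))))) (n 1 (n 4400907 z (n 7668507 z (n
 2236 z (n 2236 z (n 2236 z (n 2236 z z)))))) (n 1 (n 3282699 z (n 4331275 z (n 4331275 z (n
 4331275 z (n 4331275 z (n 4331275 z z)))))) (n 1 (n 3282699 z (n 4331275 z (n 4331275 z (n
 4331275 z (n 4331275 z (n 4331275 z z)))))) (n 1 (n 7754563 z (n 7754563 z (n 7754563 z (n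
 7754563 z (n 7754563 z (n 7754563 z z)))))) (n 0 z z)))))))) (n 33 (n 0 z (n 0 z (n 1 (n 1804 z
 (n 2 z (n 1804 z (n 6563611 z (n 1804 z (n 1804 z z)))))) (n 1 (n 7754563 z (n 7754563 z (n
 7754563 z (n 7754563 z (n 7754563 z (n 7754563 z z)))))) (n 0 z (n 0 z (n 1 (n 7545091 z (n
 7545091 z (n 7545091 z (n 7545091 z (n 7545091 z (n 7545091 z z)))))) z))))))) (n 9 (n 1 (n
 3148 z (n 3148 z (n 3148 z (n 7611963 z (n 3148 z (n 3148 z z)))))) (n 1 (n 7754563 z (n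
 7754563 z (n 7754563 z (n 7754563 z (n 7754563 z (n 7754563 z z)))))) (n 0 z (n 1 (n 7545091 z
 (n 7545091 z (n 7545091 z (n 7545091 z (n 7545091 z (n 7545091 z z)))))) (n 0 z z))))) (n 267
 (n 0 z (n 1 (n 2236 z (n 10 z (n 2236 z (n 6563611 z (n 2236 z (n 2236 z z)))))) (n 1 (n
 7754563 z (n 7754563 z (n 7754563 z (n 7754563 z (n 7754563 z (n 7754563 z z)))))) (n 0 z (n 1
 (n 7545091 z (n 7545091 z (n 7545091 z (n 7545091 z (n 7545091 z (n 7545091 z z)))))) z))))) (n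
 1 (n 1 (n 7734059 z (n 7734059 z (n 7734059 z (n 7734059 z (n 7734059 z (n 7734059 z z)))))) (n
 1 (n 1228 z (n 1228 z (n 1228 z (n 7611963 z (n 1228 z (n 1228 z z)))))) (n 0 z (n 0 z (n 1 (n
 7614803 z (n 7614803 z (n 7614803 z (n 7614803 z (n 7614803 z (n 7614803 z z)))))) z))))) (n 53
 (n 0 z (n 1 (n 7545091 z (n 7545091 z (n 7545091 z (n 7545091 z (n 7545091 z (n 7545091 z
 z)))))) (n 1 (n 2236 z (n 3278667 z (n 2236 z (n 6426739 z (n 2236 z (n 7734059 z z)))))) (n 0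
 z (n 1 (n 2236 z (n 18 z (n 2236 z (n 7734059 z (n 2236 z (n 2236 z z)))))) (n 1 (n 2236 z (n
 3278667 z (n
 0x376476430386ea8c826039207a795b6dd7a27a389f9e055e9a57e1a607e165e899a5e6a38de69889d8de7e9a5c7629221001
 z (n 2236 z (n 2236 z (n 7734059 z z)))))) (n 0 z (n 1 (n 7545091 z (n 7545091 z (n 7545091 z
 (n 7545091 z (n 7545091 z (n 7545091 z z)))))) (n 0 z (n 1 (n 7754563 z (n 7754563 z (n 7754563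
 z (n 7754563 z (n 7754563 z (n 7754563 z z)))))) (n 1 (n 7754563 z (n 7754563 z (n 7754563 z (n
 7754563 z (n 7754563 z (n 7754563 z z)))))) z))))))))))) (n 9 (n 1 (n 26 z (n 2236 z (n 5375851
 z (n 7734059 z (n 2236 z (n 2236 z z)))))) (n 1 (n 7754563 z (n 7754563 z (n 7754563 z (n
 7754563 z (n 7754563 z (n 7754563 z z)))))) (n 0 z (n 1 (n 7545091 z (n 7545091 z (n 7545091 z
 (n 7545091 z (n 7545091 z (n 7545091 z z)))))) (n 0 z z))))) z))))))) (n 0 (n 0 (n 0 z (n 0 z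
 (n 0 z (n 0 z z)))) (n 0 (n 0 z (n 0 z (n 0 z z))) (n 0 (n 0 z (n 0 z z)) (n 0 (n 0 z z) z))))
 (n 0 (n 225 (n 0 (n 0 z (n 0 z (n 0 z (n 0 z z)))) (n 0 (n 0 z (n 0 z (n 0 z (n 0 (n 8851491 z
 z) z)))) (n 0 (n 0 (n
 0x558438a082691c7dd7a681f81d6a17e4761719a1a92996179c8de72a7238dd7a17606236e38db8e10041 z z) (n
 0 z (n 0 z (n 0 (n
 0x558438a082691c7dd7a681f81d6a17e4761719a1a92996179c8de72a7238dd7a17606236e38db8e10041 z z)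
 z)))) (n 0 (n 0 z (n 0 z (n 0 z (n 0 z z)))) (n 0 (n 0 z (n 0 z (n 0 z (n 0 z z)))) (n 0 (n 0 z
 (n 0 z (n 0 z (n 0 z z)))) (n 0 (n 0 z (n 0 z (n 0 z (n 0 (n 8851491 z z) z)))) (n 0 (n 0 (n
 0x558548a082691c7dd7a681f81d6a17e4761719a1a92996179c8de72a7238dd7a17606236e38db8e10041 z z) (n
 0 z (n 0 z (n 0 (n
 0x558548a082691c7dd7a681f81d6a17e4761719a1a92996179c8de72a7238dd7a17606236e38db8e10041 z z)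
 z)))) (n 0 (n 0 z (n 0 z (n 0 z (n 0 z z)))) (n 0 (n 0 z (n 0 (n 8851491 z z) (n 0 z (n 0 z
 z)))) (n 0 (n 0 z (n 0 (n 5519371 z z) (n 0 z (n 0 z z)))) (n 0 (n 0 z (n 0 z (n 0 z (n 0 z
 z)))) (n 0 (n 0 z (n 0 z (n 0 z (n 0 z z)))) (n 0 (n 0 z (n 0 (n
 0x2ea70a080782085f8208208207e08208208208208208208208208208208208208208208218208208208200801 z
 z) (n 0 z (n 0 z z)))) (n 0 (n 0 z (n 0 z (n 0 z (n 0 z z)))) (n 0 (n 0 z (n 0 z (n 0 z (n 0 z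
 z)))) (n 0 (n 0 z (n 0 (n 8865371 z z) (n 0 z (n 0 z z)))) z))))))))))))))))) (n 393 (n 0 (n 0
 z (n 0 (n
 0x558548a082691c7dd7a681f81d6a17e4761719a1a92996179c8de72a7238dd7a17606236e38db8e10041 z z) (n
 0 z (n 0 z z)))) (n 0 (n 0 z (n 0 z (n 0 z (n 0 z z)))) (n 0 (n 0 z (n 0 z (n 0 z (n 0 z z))))
 (n 0 (n 0 z (n 0 z (n 0 z (n 0 z z)))) (n 0 (n 0 z (n 0 z (n 0 z (n 0 z z)))) (n 0 (n 0 z (n 0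
 z (n 0 z (n 0 z z)))) (n 0 (n 0 z (n 0 z (n 0 z (n 0 z z)))) (n 0 (n 0 z (n 0 z (n 0 z (n 0 z
 z)))) (n 0 (n 0 z (n 0 z (n 0 z (n 0 z z)))) (n 0 (n 0 z (n 0 z (n 0 z (n 0 z z)))) (n 0 (n 0 z
 (n 0 z (n 0 z (n 0 z z)))) (n 0 (n 0 z (n 0 z (n 0 z (n 0 z z)))) (n 0 (n 0 z (n 0 (n
 0x3584386082589e81f7e481f85e7217e27a175b99c8e58e17dd89f7a77a389e7e07df6e272289d8a00041 z z) (n
 0 z (n 0 z z)))) (n 0 (n 0 z (n 0 z (n 0 z (n 0 z z)))) (n 0 (n 0 z (n 0 (n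
 0xd854854301870a8ca86076e58299dc91e7e291b8275dea9e86955991d9a49688dc9a06a57a18597da8a07a381e89aa601001
 z (n 0xea70a08078208218208207e081e86082082181f7a086082082185f8208208208208208208208208208200801
 z z)) (n 0 z (n 0 z z)))) (n 0 (n 0 z (n 0 (n 8867939 z z) (n 0 z (n 0 z z))))
 z)))))))))))))))) (n 57 (n 0 (n 0 z (n 0 z (n 0 z (n 0 z z)))) (n 0 (n 0 z (n 0 z (n 0 z (n 0 z
 z)))) (n 0 (n 0 z (n 0 z (n 0 z (n 0 z z)))) (n 0 (n 0 z (n 0 z (n 0 z (n 0 (n 8593667 z z)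
 z)))) (n 0 (n 0 z (n 0 z (n 0 z (n 0 z z)))) (n 0 (n 0 z (n 0 z (n 0 z (n 0 z z)))) (n 0 (n 0 z
 (n 0 z (n 0 z (n 0 z z)))) (n 0 (n 0 z (n 0 z (n 0 z (n 0 z z)))) (n 0 (n 0 z (n 0 z (n 0 z (n
 0 z z)))) z))))))))) (n 279 (n 0 (n 0 z (n 0 (n 8865371 z z) (n 0 z (n 0 z z)))) (n 0 (n 0 z (n
 0 (n 8660763 z z) (n 0 z (n 0 z z)))) (n 0 (n 0 z (n 0 z (n 0 z (n 0 z z)))) (n 0 (n 0 z (n 0 z
 (n 0 z (n 0 z z)))) (n 0 (n 0 z (n 0 z (n 0 z (n 0 z z)))) (n 0 (n 0 z (n 0 (n 8851491 z z) (n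
 0 z (n 0 z z)))) (n 0 (n 0 z (n 0 z (n 0 z (n 0 z z)))) (n 0 (n 0 (n 8851491 z z) (n 0 z (n 0
 (n 8855571 z z) (n 0 z z)))) z)))))))) (n 33 (n 0 (n 0 z (n 0 z (n 0 z (n 0 z z)))) (n 0 (n 0 z
 (n 0 z (n 0 z (n 0 z z)))) (n 0 (n 0 z (n 0 z (n 0 z (n 0 z z)))) (n 0 (n 0 z (n 0 z (n 0 z (n
 0 z z)))) (n 0 (n 0 z (n 0 z (n 0 z (n 0 z z)))) (n 0 (n 0 z (n 0 z (n 0 z (n 0 z z)))) (n 0 (n
 0 z (n 0 z (n 0 z (n 0 z z)))) (n 0 (n 0 z (n 0 z (n 0 z (n 0 z z)))) z)))))))) (n 9 (n 0 (n 0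
 z (n 0 z (n 0 z (n 0 z z)))) (n 0 (n 0 z (n 0 z (n 0 z (n 0 z z)))) (n 0 (n 0 z (n 0 z (n 0 z
 (n 0 z z)))) (n 0 (n 0 z (n 0 z (n 0 z (n 0 z z)))) (n 0 (n 0 z (n 0 (n 8718187 z z) (n 0 z (n
 0 z z)))) (n 0 (n 0 z (n 0 z (n 0 z (n 0 z z)))) (n 0 (n 0 z (n 0 z (n 0 z (n 0 z z)))) (n 0 (n
 0 z (n 0 z (n 0 z (n 0 z z)))) z)))))))) (n 153 (n 0 (n 0 z (n 0 z (n 0 z (n 0 z z)))) (n 0 (n
 0 z (n 0 (n 8660763 z z) (n 0 z (n 0 z z)))) (n 0 (n 0 z (n 0 z (n 0 z (n 0 z z)))) (n 0 (n 0 z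
 (n 0 z (n 0 z (n 0 z z)))) (n 0 (n 0 z (n 0 z (n 0 z (n 0 z z)))) (n 0 (n 0 z (n 0 z (n 0 z (n
 0 z z)))) (n 0 (n 0 z (n 0 z (n 0 (n 8855571 z z) (n 0 (n 8851491 z z) z)))) (n 0 (n 0 z (n 0 z
 (n 0 z (n 0 z z)))) (n 0 (n 0 z (n 0 z (n 0 z (n 0 z z)))) (n 0 (n 0 z (n 0 z (n 0 (n 8663379 z
 z) (n 0 (n 8663379 z z) z)))) (n 0 (n 0 z (n 0 z (n 0 z (n 0 z z)))) (n 0 (n 0 z (n 0 z (n 0 z
 (n 0 z z)))) (n 0 (n 0 z (n 0 z (n 0 z (n 0 z z)))) z))))))))))))) (n 33 (n 0 (n 0 z (n 0 z (n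
 0 z (n 0 z z)))) (n 0 (n 0 z (n 0 z (n 0 z (n 0 z z)))) (n 0 (n 0 z (n 0 z (n 0 z (n 0 z z))))
 (n 0 (n 0 (n 8593667 z z) (n 0 z (n 0 z (n 0 (n 8593667 z z) z)))) (n 0 (n 0 z (n 0 z (n 0 (n
 8663379 z z) (n 0 z z)))) (n 0 (n 0 z (n 0 z (n 0 z (n 0 z z)))) (n 0 (n 0 z (n 0 z (n 0 z (n 0
 z z)))) (n 0 (n 0 z (n 0 z (n 0 z (n 0 z z)))) z)))))))) (n 51 (n 0 (n 0 z (n 0 z (n 0 z (n 0 z
 z)))) (n 0 (n 0 z (n 0 z (n 0 z (n 0 z z)))) (n 0 (n 0 z (n 0 z (n 0 z (n 0 z z)))) (n 0 (n 0 z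
 (n 0 z (n 0 z (n 0 z z)))) (n 0 (n 0 z (n 0 z (n 0 z (n 0 z z)))) (n 0 (n 0 z (n 0 z (n 0 z (n
 0 z z)))) (n 0 (n 0 z (n 0 z (n 0 z (n 0 z z)))) (n 0 (n 0 z (n 0 z (n 0 z (n 0 z z)))) (n 0 (n
 0 z (n 0 z (n 0 z (n 0 z z)))) (n 0 (n 0 z (n 0 z (n 0 z (n 0 z z)))) (n 0 (n 0 z (n 0 z (n 0 z
 (n 0 z z)))) z))))))))))) (n 27 (n 0 (n 0 z (n 0 z (n 0 z (n 0 z z)))) (n 0 (n 0 (n
 0x66c3292386513b04023208031c10049820917c7e7e9268808d9b77669e7d8355ae94575b9b6fc17d9876976382a197627086844e5d91b28f72867470c28e4d4578bf5d0189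
 z (n 8718187 z z)) (n 0 (n
 0x62c3291b86513b04023208031c10049820917c7d7d9268808d9a78669f7c8354ae94585b996fc07d9976976382a196627088834e5d91b28f71867471c28e4d4678bf5e0189
 z (n 8791819 z z)) (n 0 (n
 0x7b0ca1386536c389921c4470e20187199e85c82176176076672d76371e6a98e68617df59c7267615a185c7e089c9a2668b9561fa210181
 z (n 7678059 z z)) (n 0 (n
 0x7ec3296b86517b0402d20803dc10059820957b7d7d96628090a17660a57c8449b99a4d51a06bd07c9e749d5b82a99c5a6c8a85425495be936e88716cd392403776cf550189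
 z (n
 0x7ec3296b86517b0402d20803dc10059820957b7d7d96628090a17660a57c8449b99a4d51a06bd07c9e749d5b82a99c5a6c8a85425495be936e88716cd392403776cf550189
 z z)) z)))) (n 0 (n 0 z (n 0 z (n 0 z (n 0 z z)))) (n 0 (n 0 z (n 0 z (n 0 z (n 0 z z)))) (n 0
 (n 0 z (n 0 z (n 0 z (n 0 z z)))) (n 0 (n 0 z (n 0 z (n 0 z (n 0 z z)))) (n 0 (n 0 z (n 0 z (n
 0 z (n 0 z z)))) (n 0 (n 0 z (n 0 z (n 0 z (n 0 z z)))) (n 0 (n 0 z (n 0 z (n 0 z (n 0 z z))))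
 z))))))))) (n 279 (n 0 (n 0 z (n 0 z (n 0 z (n 0 z z)))) (n 0 (n 0 z (n 0 z (n 0 z (n 0 z z))))
 (n 0 (n 0 z (n 0 z (n 0 z (n 0 z z)))) (n 0 (n 0 z (n 0 z (n 0 z (n 0 z z)))) (n 0 (n 0 z (n 0
 (n 8660763 z z) (n 0 z (n 0 z z)))) (n 0 (n 0 z (n 0 z (n 0 z (n 0 z z)))) (n 0 (n 0 z (n 0 z
 (n 0 z (n 0 z z)))) (n 0 (n 0 z (n 0 (n 8782635 z z) (n 0 z (n 0 z z)))) (n 0 (n 0 z (n 0 (n
 8851491 z z) (n 0 z (n 0 z z)))) (n 0 (n 0 z (n 0 z (n 0 z (n 0 z z)))) (n 0 (n 0 z (n 0 z (n 0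
 z (n 0 z z)))) (n 0 (n 0 z (n 0 z (n 0 z (n 0 z z)))) z)))))))))))) (n 35 (n 0 (n 0 z (n 0 z (n
 0 z (n 0 z z)))) (n 0 (n 0 z (n 0 z (n 0 z (n 0 z z)))) (n 0 (n 0 z (n 0 z (n 0 z (n 0 z z))))
 (n 0 (n 0 z (n 0 z (n 0 z (n 0 z z)))) (n 0 (n 0 z (n 0 z (n 0 z (n 0 z z)))) (n 0 (n 0 z (n 0
 z (n 0 z (n 0 z z)))) (n 0 (n 0 z (n 0 z (n 0 z (n 0 z z)))) (n 0 (n 0 z (n 0 z (n 0 z (n 0 z
 z)))) (n 0 (n 0 z (n 0 (n 8593667 z z) (n 0 z (n 0 z z)))) (n 0 (n 0 z (n 0 z (n 0 z (n 0 z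
 z)))) (n 0 (n 0 z (n 0 (n 8803139 z z) (n 0 z (n 0 z z)))) (n 0 (n 0 z (n 0 z (n 0 z (n 0 z
 z)))) z)))))))))))) (n 53 (n 0 (n 0 z (n 0 (n
 0x2ec70a08078208208208208208208608208208208208208208208208208208208208208218208208208200801 z
 z) (n 0 z (n 0 z z)))) (n 0 (n 0 z (n 0 z (n 0 z (n 0 z z)))) (n 0 (n 0 z (n 0 z (n 0 z (n 0 z
 z)))) (n 0 (n 0 z (n 0 z (n 0 z (n 0 z z)))) (n 0 (n 0 z (n 0 z (n 0 z (n 0 z z)))) (n 0 (n 0 z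
 (n 0 z (n 0 z (n 0 z z)))) (n 0 (n 0 (n 8593667 z z) (n 0 z (n 0 z (n 0 (n 8593667 z z) z))))
 (n 0 (n 0 z (n 0 z (n 0 z (n 0 z z)))) (n 0 (n 0 z (n 0 z (n 0 z (n 0 z z)))) (n 0 (n 0 z (n 0
 z (n 0 z (n 0 (n 8803139 z z) z)))) (n 0 (n 0 z (n 0 z (n 0 z (n 0 z z)))) z))))))))))) (n 267
 (n 0 (n 0 z (n 0 z (n 0 z (n 0 z z)))) (n 0 (n 0 z (n 0 z (n 0 z (n 0 z z)))) (n 0 (n 0 z (n 0
 (n 8867939 z (n 8867939 z z)) (n 0 z (n 0 z z)))) (n 0 (n 0 z (n 0 z (n 0 z (n 0 z z)))) (n 0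
 (n 0 z (n 0 z (n 0 z (n 0 z z)))) (n 0 (n 0 z (n 0 (n 8803139 z z) (n 0 z (n 0 z z)))) (n 0 (n
 0 z (n 0 z (n 0 z (n 0 z z)))) (n 0 (n 0 z (n 0 z (n 0 z (n 0 z z)))) (n 0 (n 0 z (n 0 z (n 0 z
 (n 0 z z)))) (n 0 (n 0 z (n 0 z (n 0 z (n 0 z z)))) (n 0 (n 0 z (n 0 z (n 0 z (n 0 z z)))) (n 0
 (n 0 z (n 0 z (n 0 z (n 0 z z)))) (n 0 (n 0 z (n 0 (n
 0x1853621401830c90c800381f7a182082082089f8217e181f7df8207e08207e18618607e08608208208218208208208211001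
 z z) (n 0 z (n 0 z z)))) (n 0 (n 0 z (n 0 (n 8803139 z (n 8803139 z z)) (n 0 z (n 0 z z)))) (n
 0 (n 0 z (n 0 z (n 0 (n 8855571 z z) (n 0 (n 8851491 z z) z)))) (n 0 (n 0 z (n 0 z (n 0 z (n 0
 z z)))) (n 0 (n 0 z (n 0 (n 8802419 z (n 2164827 z z)) (n 0 z (n 0 z z)))) (n 0 (n 0 z (n 0 z
 (n 0 z (n 0 z z)))) (n 0 (n 0 (n 8660763 z (n
 0xb0a6ec280381797c7a838b847a838183818c7f556e9f886e898181787780899e8972916e80897f737d84887e7e7e7a727f858a8485867c0809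
 z z)) (n 0 (n
 0xf0c90c80037ed76dc5c8de521ad79247d989e9256209e18617a7b577e63db9e275991a9e1967c1e6658e60801 z
 (n 8718187 z z)) (n 0 z (n 0 (n
 0x30a6ec28038208607e082082082182182082086081f8208208208208207e08208208208208208608208200801 z
 (n 0x70a6ec280385c75d8a78dc8a08a1a1f155d255668616da826ce65eb52099f61e8a579f79c61f8e68e389d0801
 z z)) z)))) (n 0 (n 0 z (n 0 z (n 0 z (n 0 z z)))) (n 0 (n 0 (n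
 0x90c30c08036e282581d7e276099e8a296171f7a08a582171c6e0a627df7dc95d65e92695f8a791b62389d0801 z
 (n 8718187 z z)) (n 0 (n
 0x30ed0c82078207e08208208608218608208208207e08208208608218208608208208208208208208608200801 z
 (n 8791819 z z)) (n 0 (n 8791883 z (n
 0x7ec3a16b87417b0402d20803dc10059820957b7d7d96628090a17660a57c8449b99a4d51a06bd07c9e749d5b82a99c5a6c8a85425495be936e88716cd392403776cf550189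
 z z)) (n 0 (n
 0x90c30c08036e282581d7e276099e8a296171f7a08a582171c6e0a627df7dc95d65e92695f8a791b62389d0801 z
 (n 0x90c30c08036e282581d7e276099e8a296171f7a08a582171c6e0a627df7dc95d65e92695f8a791b62389d0801
 z z)) z)))) (n 0 (n 0 z (n 0 (n
 0x30c30c08037a182281f8217e089f8618a079f7e08628207de7a092182081f89f75f8a28df82389e76185f0801 z
 (n 8718187 z z)) (n 0 z (n 0 z z)))) (n 0 (n 0 z (n 0 z (n 0 z (n 0 z z)))) (n 0 (n 0 z (n 0 z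
 (n 0 z (n 0 z z)))) (n 0 (n 0 z (n 0 z (n 0 z (n 0 z z)))) z))))))))))))))))))))))))) (n 1 (n 0
 (n 0 z (n 0 z (n 0 z (n 0 z z)))) (n 0 (n 0 z (n 0 z (n 0 z (n 0 z z)))) (n 0 (n 0 (n 8867939 z
 z) (n 0 z (n 0 z (n 0 (n 8660763 z z) z)))) (n 0 (n 0 z (n 0 z (n 0 z (n 0 z z)))) (n 0 (n 0 z
 (n 0 z (n 0 z (n 0 z z)))) (n 0 (n 0 (n 8867939 z z) (n 0 z (n 0 z (n 0 (n 8660763 z z) z))))
 (n 0 (n 0 z (n 0 z (n 0 z (n 0 z z)))) (n 0 (n 0 z (n 0 (n 8867939 z z) (n 0 z (n 0 z z)))) (n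
 0 (n 0 z (n 0 (n 7747627 z (n 8660539 z z)) (n 0 z (n 0 z z)))) (n 0 (n 0 z (n 0 (n 8660539 z
 z) (n 0 z (n 0 z z)))) (n 0 (n 0 z (n 0 (n 8660763 z z) (n 0 z (n 0 z z)))) (n 0 (n 0 z (n 0 z
 (n 0 z (n 0 z z)))) (n 0 (n 0 z (n 0 z (n 0 z (n 0 z z)))) (n 0 (n 0 (n 8802419 z (n 8660763 z
 z)) (n 0 z (n 0 (n
 0x3587185f8a38a08227e289b8a37a079e75f81f95b8a28648208a072282281c8e286176381f89c7620041 z (n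
 0x558718a082691c7dd7a681f81d6a17e4761719a1a92996179c8de72a7238dd7a17606236e38db8e10041 z z)) (n
 0 (n 8718187 z (n 8660763 z z)) z)))) (n 0 (n 0 z (n 0 (n 8660763 z z) (n 0 z (n 0 z z)))) (n 0
 (n 0 (n 8802419 z (n 8717083 z z)) (n 0 z (n 0 (n 8717083 z (n 8717083 z z)) (n 0 (n 8717083 z
 (n 8717083 z z)) z)))) (n 0 (n 0 z (n 0 z (n 0 z (n 0 z z)))) (n 0 (n 0 z (n 0 z (n 0 z (n 0 z
 z)))) (n 0 (n 0 z (n 0 z (n 0 z (n 0 z z)))) (n 0 (n 0 z (n 0 z (n 0 z (n 0 z z)))) (n 0 (n 0 z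
 (n 0 (n 8851491 z z) (n 0 z (n 0 z z)))) (n 0 (n 0 z (n 0 (n 8802419 z (n 8660763 z z)) (n 0 z
 (n 0 z z)))) (n 0 (n 0 z (n 0 z (n 0 z (n 0 z z)))) (n 0 (n 0 z (n 0 z (n 0 z (n 0 z z)))) (n 0
 (n 0 z (n 0 (n 8802419 z (n
 0x30ed0ec2038227e281f82081f81f8218617e08617e286182176085f8607e17e082081e8607e289f79f8e00801 z
 z)) (n 0 z (n 0 z z)))) (n 0 (n 0 z (n 0 (n 8802419 z (n 8717083 z z)) (n 0 z (n 0 z z)))) (n 0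
 (n 0 z (n 0 z (n 0 z (n 0 z z)))) (n 0 (n 0 z (n 0 z (n 0 z (n 0 z z)))) (n 0 (n 0 z (n 0 z (n
 0 z (n 0 z z)))) (n 0 (n 0 z (n 0 (n
 0x2587286082389e81e82381f81f7617e27e079c91c8a48e07de89f7657a285f7e07e07227a189e8a00041 z (n
 0x1854621301810ed0ec2038637628dd7dd7e086182082285e86079e8637e27a281e96079f8df7dc82189f86191f7de8211001
 z z)) (n 0 z (n 0 z z)))) (n 0 (n 0 (n
 0xd87282082185f86082181f8608207e182081f85f8218208608207e18228208208217e08208208200041 z (n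
 0x558728a082691c7dd7a681f81d6a17e4761719a1a92996179c8de72a7238dd7a17606236e38db8e10041 z z)) (n
 0 (n
 0x7b0621383136c181920c0470600183099e85c82176176076672d76371e6a98e68617df59c7267615a185c7e089c9a2668b9561fa210181
 z (n 8791819 z z)) (n 0 (n
 0xd87182082185f86082181f8608207e182081f85f8218208608207e18228208208217e08208208200041 z (n
 0x558718a082691c7dd7a681f81d6a17e4761719a1a92996179c8de72a7238dd7a17606236e38db8e10041 z z)) (n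
 0 (n 7407707 z (n 8660763 z z)) z)))) (n 0 (n 0 (n 8802419 z (n 8660763 z z)) (n 0 z (n 0 (n
 0x5587185e8e58a07e37639198e476079d71f81fa178e38668608e06a38227da9238a26e485f8da7240041 z (n
 0x558718a082691c7dd7a681f81d6a17e4761719a1a92996179c8de72a7238dd7a17606236e38db8e10041 z z)) (n
 0 (n 0x558728a082691c7dd7a681f81d6a17e4761719a1a92996179c8de72a7238dd7a17606236e38db8e10041 z
 (n 8660763 z z)) z)))) (n 0 (n 0 z (n 0 (n 8718187 z z) (n 0 z (n 0 z z)))) (n 0 (n 0 z (n 0 (n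
 8660539 z (n 8660539 z z)) (n 0 z (n 0 z z)))) (n 0 (n 0 z (n 0 (n 8802419 z (n
 0x50ed0ec2038237a27dd7e07df8217a196575e8e08638a279f69f8de92079f7df7e081f85f8628de7a18620801 z
 z)) (n 0 z (n 0 z z)))) (n 0 (n 0 z (n 0 (n 8802419 z (n
 0x2876876101830c70c62038657a285c79f7df8e076492279e8e48238e27e165f7df91d76185f7dc85e89e82695d75f9621001
 z z)) (n 0 z (n 0 z z)))) (n 0 (n 0 z (n 0 z (n 0 z (n 0 z z)))) (n 0 (n 0 z (n 0 z (n 0 z (n 0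
 z z)))) (n 0 (n 0 z (n 0 z (n 0 z (n 0 z z)))) (n 0 (n 0 z (n 0 (n 8660763 z z) (n 0 z (n 0 z
 z)))) (n 0 (n 0 z (n 0 (n 8717083 z z) (n 0 z (n 0 z z)))) (n 0 (n 0 (n 8802419 z (n 8718187 z
 z)) (n 0 z (n 0 (n
 0x7b0e41387236c389921c4470e20187199e85c82176176076672d76371e6a98e68617df59c7267615a185c7e089c9a2668b9561fa210181
 z (n
 0x30ed0ec40785e8608208217e17df86181f7e07a182086086082081f8617e085f81f8228607e082081f8200801 z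
 z)) (n 0 (n
 0x3587286082489e81f7e482081e7217e27a175c99c8a68e17dd8de7a67a281f7e07df6e276389d8a00041 z (n
 8718187 z z)) z)))) (n 0 (n 0 z (n 0 z (n 0 z (n 0 z z)))) (n 0 (n 0 z (n 0 (n 8802419 z (n
 8718187 z z)) (n 0 z (n 0 z z)))) (n 0 (n 0 z (n 0 z (n 0 z (n 0 z z)))) (n 0 (n 0 z (n 0 z (n
 0 z (n 0 z z)))) (n 0 (n 0 z (n 0 z (n 0 z (n 0 z z))))
 z))))))))))))))))))))))))))))))))))))))))))))))) (n 279 (n 0 (n 0 z (n 0 z (n 0 z (n 0 z z))))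
 (n 0 (n 0 z (n 0 z (n 0 z (n 0 z z)))) (n 0 (n 0 z (n 0 z (n 0 z (n 0 z z)))) (n 0 (n 0 z (n 0
 z (n 0 z (n 0 z z)))) (n 0 (n 0 z (n 0 z (n 0 z (n 0 z z)))) (n 0 (n 0 z (n 0 z (n 0 z (n 0 z
 z)))) (n 0 (n 0 z (n 0 z (n 0 z (n 0 z z)))) (n 0 (n 0 z (n 0 (n 8851491 z z) (n 0 z (n 0 z
 z)))) (n 0 (n 0 z (n 0 (n 8851491 z z) (n 0 z (n 0 z z)))) z))))))))) (n 33 (n 0 (n 0 z (n 0 (n
 0x2ea70a080782085f8208208207e08208208208208208208208208208208208208208208218208208208200801 z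
 z) (n 0 z (n 0 z z)))) (n 0 (n 0 z (n 0 z (n 0 z (n 0 z z)))) (n 0 (n 0 z (n 0 z (n 0 z (n 0 z
 z)))) (n 0 (n 0 z (n 0 z (n 0 z (n 0 z z)))) (n 0 (n 0 z (n 0 z (n 0 z (n 0 z z)))) (n 0 (n 0 z
 (n 0 z (n 0 z (n 0 z z)))) (n 0 (n 0 z (n 0 z (n 0 z (n 0 z z)))) z))))))) (n 9 (n 0 (n 0 z (n
 0 z (n 0 z (n 0 z z)))) (n 0 (n 0 z (n 0 z (n 0 z (n 0 z z)))) (n 0 (n 0 z (n 0 z (n 0 z (n 0 z
 z)))) (n 0 (n 0 z (n 0 z (n 0 z (n 0 z z)))) (n 0 (n 0 z (n 0 z (n 0 z (n 0 z z)))) z))))) (n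
 267 (n 0 (n 0 z (n 0 z (n 0 z (n 0 z z)))) (n 0 (n 0 z (n 0 z (n 0 z (n 0 z z)))) (n 0 (n 0 z
 (n 0 z (n 0 z (n 0 z z)))) (n 0 (n 0 z (n 0 z (n 0 z (n 0 z z)))) (n 0 (n 0 z (n 0 z (n 0 z (n
 0 z z)))) z))))) (n 1 (n 0 (n 0 z (n 0 z (n 0 z (n 0 z z)))) (n 0 (n 0 z (n 0 z (n 0 z (n 0 z
 z)))) (n 0 (n 0 z (n 0 z (n 0 z (n 0 z z)))) (n 0 (n 0 z (n 0 z (n 0 z (n 0 z z)))) (n 0 (n 0 z
 (n 0 z (n 0 z (n 0 z z)))) z))))) (n 0 (n 0 (n 0 z (n 0 z (n 0 z (n 0 (n 8851491 z z) z)))) (n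
 0 (n 0 z (n 0 z (n 0 z (n 0 z z)))) (n 0 (n 0 z (n 0 z (n 0 z (n 0 z z)))) (n 0 (n 0 z (n 0 z
 (n 0 z (n 0 z z)))) (n 0 (n 0 z (n 0 (n 8791819 z z) (n 0 z (n 0 z z)))) (n 0 (n 0 z (n 0 z (n
 0 z (n 0 z z)))) (n 0 (n 0 z (n 0 z (n 0 z (n 0 z z)))) (n 0 (n 0 z (n 0 z (n 0 z (n 0 z z))))
 (n 0 (n 0 z (n 0 z (n 0 z (n 0 z z)))) (n 0 (n 0 z (n 0 z (n 0 z (n 0 z z)))) (n 0 (n 0 z (n 0
 (n 8803139 z z) (n 0 z (n 0 z z)))) (n 0 (n 0 z (n 0 (n 8803139 z z) (n 0 z (n 0 z z))))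
 z)))))))))))) z))))))))))))))))))))) z)))) z)) z)))) z))))), by decide +kernel⟩

theorem g7_59 : RgOk KT RW [10716, 10726, 10736, 10746, 10756, 10760, 10765] := ⟨i10716, ⟨i10726, ⟨i10736, ⟨i10746, ⟨i10756, ⟨i10760, True.intro⟩⟩⟩⟩⟩⟩

end Pool.Agent.Lib.EPS9
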