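import Pool.Agent.Lib.MP_c7e7f6_eps.Core4
import Pool.Agent.Lib.MP_c7e7f6_eps.KtAll

/-!
Extensions of the words from number 10765 on.
-/

set_option autoImplicit false

namespace Pool.Agent.Lib.EPS9

open Tr

theorem i10765 : ∃ t, chkR KT RW t 10765 10773 = true := ⟨(n
 0xd1d9708ec9b0763da0b16d188698c23b4740ce2604c9c01c7100e3840 (n 0x368ec (n 153 (n 0 z (n 0 z (n
 6423323 z (n 0 z (n 0 z (n 0 z (n 2 z (n 10 z (n 0 z (n 6423323 z (n 3282443 z (n 18 z (n 0 z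
 (n 0 z (n
 0x10f95b2a321180c09922d909944c0602389aca8c4260703ed27654421303811b25b2a329901c04101594d90c80611240aca6ca2407048e29643641201894c7daa0b18101c1b0df50c58c080604bdc6ca8ca820304bdc7654643103821bd1b21b29081c097b8d94994840e010c46ca6c842072db06b8c825206aad9045fbd84b208bf7b0864182ec778000008a28b37fb89a80acd28000007b660680fb607be8d080000083b9c27c463e708bf272fda68346e780000081f6498000007f7871868945791a9280000071294c7f3ea78a24c2792d7f86c7e370db8d7a5d40800000757f848e11957dcfb27e18b07c7da183074783a0fb8bce9b878ae27f9e577f7f7c8bd87f8000008000007e63d480000067b63e93f38b826d478000007919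
 z (n 0 z (n 6488603 z (n 0 z (n 6357803 z (n 26 z (n 0 z (n 34 z z)))))))))))))))))))))) (n 59
 (n 42 z (n 0 z (n 0 z (n 0 z (n 0 z (n 6496515 z (n 0 z (n 0 z (n 0 z (n 0 z (n 0 z (n 0 z (n
 50 z z))))))))))))) (n 53 (n 0 z (n 0 z (n 6496515 z (n 0 z (n 0 z (n 0 z (n 0 z (n 0 z (n 0 z
 (n 58 z z)))))))))) (n 3 (n 0 z (n 0 z (n 0 z (n 0 z (n 0 z (n 0 z (n 0 z (n 6496515 z (n 0 z
 (n 0 z (n 0 z (n 0 z (n 0 z (n 0 z (n 0 z (n 66 z z)))))))))))))))) (n 49 (n 74 z (n 2164299 z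
 z)) (n 0 (n 2164315 z (n 82 z z)) z)))))) (n 49 (n 0 (n 0 z (n 0 z (n 0 z (n 0 z (n 827 (n 0 z
 (n 0 z (n 0 z (n 0 z (n 0 z (n 0 z (n 0 z (n 0 z (n 0 z (n 0 z (n 0 z (n 0 z (n 0 z (n 0 z (n 0
 z z))))))))))))))) (n 827 (n 0 z (n 0 z (n 0 z (n 0 z (n 0 z (n 0 z (n 0 z (n 0 z (n 0 z (n 0 z
 (n 0 z (n 0 z (n 0 z (n 0 z (n
 0x3a1ba9301c776576340384ecaea480331d8dd4900e03293b0a00cb65275140388ec8ec460311d95d8c80e3b2a2a0900c065265210380ea8ea800391a3aa8607548e0969aa36207605e74e0b9aad65606608ada247658e879b69f820b609e2d5b5801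
 z z))))))))))))))) (n 259 (n 0 z (n 0 z (n 0 z (n 0 z (n 0 z (n 0 z (n 0 z z))))))) (n 247 (n 0
 z (n 0 z (n 0 z (n 0 z (n 0 z (n 0 z (n 0 z (n 0 z z)))))))) (n 255 (n 0 z (n 0 z (n 0 z (n 0 z
 (n 0 z (n 0 z (n 0 z (n 0 z (n 0 z (n 0 z (n 0 z (n 0 z (n 0 z (n 0 z (n 0 z (n 0 z (n 0 z (n 0
 z (n 0 z (n 0 z (n 0 z (n 0 z (n 0 z (n 0 z (n 0 z (n 0 z (n 0 z (n 0 z
 z)))))))))))))))))))))))))))) (n 253 (n 0 z (n 0 z (n 0 z (n 0 z (n 0 z (n 0 z (n 0 z (n 0 z (n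
 0 z (n 0 z (n 0 z (n 0 z (n 0 z (n 0 z (n 0 z (n 0 z (n 0 z (n 0 z (n 0 z (n 0 z (n 0 z (n 0 z
 (n 0 z (n 0 z (n 0 z z))))))))))))))))))))))))) z)))))))))) (n 0 (n 0 z (n 0 z (n 0 z (n 827 (n
 0 z (n 0 z (n 0 z (n 0 z (n 0 z (n 0 z (n 0 z (n 0 z (n 0 z (n 0 z (n 0 z (n 0 z (n 0 z (n 0 z
 (n 0 z z))))))))))))))) (n 827 (n 0 z (n 0 z (n 0 z (n 0 z (n 0 z (n 0 z (n 0 z (n 0 z (n 0 z
 (n 0 z (n 0 z (n 0 z (n 0 z (n 0 z (n 2 (n 1 z (n 1 z (n 1 z (n 1 z z)))) z))))))))))))))) (n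
 259 (n 0 z (n 0 z (n 0 z (n 0 z (n 0 z (n 0 z (n 0 z (n 0 z (n 2 (n 1 z (n 1 z (n 1 z z)))
 z))))))))) (n 247 (n 0 z (n 0 z (n 0 z (n 0 z (n 0 z (n 0 z (n 0 z (n 2 (n 1 z (n 1 z z))
 z)))))))) (n 351 (n 0 z (n 0 z (n 0 z (n 0 z (n 0 z (n 0 z (n 0 z (n 0 z (n 0 z (n 0 z (n 0 z
 (n 2 (n 1 z z) z)))))))))))) (n 349 (n 0 z (n 0 z (n 0 z (n 0 z (n 0 z (n 0 z (n 0 z (n 0 z (n
 0 z (n 0 z (n 0 z (n 0 z (n 0 z (n 0 z (n 0 z (n 0 z (n 2 z z))))))))))))))))) z))))))))) (n 0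
 (n 0 z (n 0 z (n 743 (n 0 z (n 0 z (n 0 z (n 0 z (n 0 z (n 0 z z)))))) (n 743 (n 0 z (n 0 z (n
 0 z (n 0 z (n 0 z (n 2 (n 1 z (n 1 z (n 1 z (n 1 z z)))) z)))))) (n 779 (n 0 z (n 0 z (n 0 z (n
 0 z (n 0 z (n 0 z (n 2 (n 1 z (n 1 z (n 1 z z))) z))))))) (n 315 (n 0 z (n 0 z (n 0 z (n 0 z (n
 2 (n 1 z (n 1 z z)) (n 0 z (n 0 z z))))))) (n 831 (n 0 z (n 0 z (n 0 z (n 0 z (n 0 z (n 0 z (n
 0 z (n 0 z (n 0 z (n 0 z (n 0 z (n 2 (n 1 z z) (n 0 z (n 0 z (n 0 z (n 0 z (n 0 z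
 z))))))))))))))))) (n 829 (n 0 z (n 0 z (n 0 z (n 0 z (n 2 z (n 0 z (n 0 z z))))))) z))))))))
 (n 0 (n 0 z (n 499 (n 0 z (n 0 z (n 0 z (n 0 z z)))) (n 499 (n 0 z (n 0 z (n 0 z (n 2 (n 1 z (n
 1 z (n 1 z (n 1 z z)))) z)))) (n 343 (n 0 z (n 0 z (n 0 z (n 0 z (n 0 z (n 0 z (n 2 (n 1 z (n 1
 z (n 1 z z))) z))))))) (n 535 (n 0 z (n 0 z (n 0 z (n 0 z (n 0 z (n 0 z (n 2 (n 1 z (n 1 z z))
 z))))))) (n 543 (n 0 z (n 0 z (n 0 z (n 0 z (n 0 z (n 2 (n 1 z z) (n 0 z z))))))) (n 541 (n 0 z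
 (n 0 z (n 0 z (n 0 z (n 0 z (n 0 z (n 0 z (n 2 z (n 0 z (n 0 z (n 0 z (n 0 z z))))))))))))
 z))))))) (n 0 (n 583 (n 0 z (n 0 z (n 0 z (n 0 z (n 0 z (n 0 z (n 0 z (n 0 z (n 0 z (n 0 z (n 0
 z (n 0 z (n 0 z z))))))))))))) (n 583 (n 0 z (n 0 z (n 0 z (n 0 z (n 0 z (n 0 z (n 0 z (n 0 z
 (n 0 z (n 0 z (n 0 z (n 0 z (n 0 z z))))))))))))) (n 807 (n 0 z (n 0 z (n 0 z (n 0 z (n 0 z (n
 0 z (n 0 z (n 0 z (n 0 z (n 0 z (n 0 z (n 0 z (n 0 z z))))))))))))) (n 321 (n 0 z (n 0 z (n 0 z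
 (n 0 z (n 0 z (n 0 z (n 0 z (n 0 z (n 0 z (n 0 z (n 0 z (n 0 z (n 0 z z))))))))))))) (n 789 (n
 0 z (n 0 z (n 0 z (n 0 z (n 0 z (n 0 z (n 0 z (n 0 z (n 0 z (n 0 z (n 0 z (n 0 z (n 0 z (n 0 z
 (n 0 z (n 0 z (n 0 z (n 0 z (n 0 z (n 0 z (n 0 z (n 0 z z)))))))))))))))))))))) (n 589 (n 0 z
 (n 0 z (n 0 z (n 0 z (n 0 z (n 0 z (n 0 z (n 0 z (n 0 z (n 0 z (n 0 z (n 0 z (n 0 z (n 0 z (n 0
 z (n 0 z (n 0 z (n 0 z (n 0 z (n 0 z (n 0 z (n 0 z z)))))))))))))))))))))) z)))))) (n 0 (n 0 z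
 (n 107 (n 0 z (n 0 z (n 0 z (n 0 z (n 0 z z))))) (n 55 (n 0 z (n 0 z (n 0 z (n 0 z (n 0 z (n 0
 z (n 0 z z))))))) (n 63 (n 0 z (n 0 z (n 0 z (n 0 z (n 0 z (n 0 z (n 0 z (n 0 z (n 0 z (n 0 z
 (n 0 z (n 0 z z)))))))))))) (n 61 (n 0 z (n 0 z (n 0 z (n 0 z (n 0 z (n 0 z (n 0 z z)))))))
 z))))) (n 0 (n 759 (n 0 z (n 0 z (n 0 z (n 0 z (n 0 z (n 0 z (n 0 z (n 0 z (n 0 z z))))))))) (n
 487 (n 0 z (n 0 z (n 0 z (n 0 z (n 0 z (n 0 z (n 0 z (n 0 z (n 0 z z))))))))) (n 63 (n 0 z (n 0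
 z (n 0 z (n 0 z (n 0 z (n 0 z (n 0 z (n 0 z (n 0 z (n 0 z z)))))))))) (n 61 (n 0 z (n 0 z (n 0
 z (n 0 z (n 0 z (n 0 z (n 0 z (n 0 z (n 0 z (n 0 z (n 0 z (n 0 z (n 0 z (n 0 z (n 0 z (n 0 z
 z)))))))))))))))) z)))) (n 0 (n 273 (n 0 z (n 0 z (n 0 z (n 0 z (n 0 z (n 0 z (n 0 z (n 0 z (n
 0 z z))))))))) (n 105 (n 0 z (n 0 z (n 0 z (n 0 z (n 0 z (n 0 z (n 0 z (n 0 z (n 0 z (n 0 z (n
 0 z (n 0 z (n 0 z (n 0 z (n 0 z (n 0 z z)))))))))))))))) (n 17 (n 0 z (n 0 z (n 0 z (n 0 z (n 0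
 z (n 0 z (n 0 z (n 0 z (n 0 z (n 0 z (n 0 z (n 0 z (n 0 z z))))))))))))) z))) (n 0 (n 51 (n 0 z
 (n 0 z (n 0 z (n 0 z (n 0 z (n 0 z (n 0 z (n 0 z (n 0 z (n 0 z (n 0 z (n 0 z (n 0 z
 z))))))))))))) (n 5 (n 0 z (n 0 z (n 0 z (n 0 z (n 0 z (n 0 z (n 0 z (n 0 z (n 0 z (n 0 z
 z)))))))))) z)) (n 0 (n 61 (n 0 z (n 0 z z)) z) (n 0 z z))))))))))) (n 0 (n 1 (n 1228 z (n 1228
 z (n 1228 z (n 1228 z (n 1228 z (n 2 z z)))))) (n 1 (n 2164299 z (n 2164299 z (n 2164299 z (n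
 2164299 z (n 2164299 z (n 2164299 z z)))))) z)) (n 0 (n 0x99c4c0732700ce3880 (n 0 (n 0 (n
 7754755 z (n 7754755 z (n 7754755 z (n 7754755 z (n 7754755 z (n 7754755 z z)))))) z) (n 0 (n
 291 (n 0 z (n 0 z (n 0 z (n 0 z (n 1 (n 3228 z (n 2 z (n 7471899 z (n 7537179 z (n 1228 z (n
 1228 z z)))))) (n 1 (n 4400923 z (n 7537179 z (n 4400923 z (n 4400923 z (n 4400923 z (n 4400923
 z z)))))) (n 1 (n 3282699 z (n 4400907 z (n 4400907 z (n 6635891 z (n 4400907 z (n 4400907 z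
 z)))))) (n 1 (n 1228 z (n 7471899 z (n 7537179 z (n 10 z (n 4331371 z (n 1228 z z)))))) (n 0 z
 (n 1 (n 7603803 z (n 7537179 z (n 7471899 z (n 7603803 z (n 7603803 z (n 7603803 z z)))))) (n 0
 z (n 1 (n 1228 z (n 7537179 z (n 18 z (n 7471899 z (n 5445483 z (n 1228 z z)))))) (n 0 z
 z))))))))))))) (n 379 (n 0 z (n 1 (n 7545091 z (n 7545091 z (n 7545091 z (n 7545091 z (n
 7545091 z (n 7545091 z z)))))) (n 0 z (n 0 z (n 1 (n 7545091 z (n 7545091 z (n 7545091 z (n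
 7545091 z (n 7545091 z (n 7545091 z z)))))) (n 0 z (n 0 z (n 0 z (n 0 z z))))))))) (n 381 (n 0
 z (n 1 (n 7545091 z (n 7545091 z (n 7545091 z (n 7545091 z (n 7545091 z (n 7545091 z z)))))) (n
 0 z (n 0 z (n 1 (n 7545091 z (n 7545091 z (n 7545091 z (n 7545091 z (n 7545091 z (n 7545091 z
 z)))))) (n 0 z (n 0 z (n 0 z (n 0 z z))))))))) (n 249 (n 0 z (n 1 (n 7545091 z (n 7545091 z (n
 7545091 z (n 7545091 z (n 7545091 z (n 7545091 z z)))))) (n 0 z (n 0 z (n 1 (n 7545091 z (n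
 7545091 z (n 7545091 z (n 7545091 z (n 7545091 z (n 7545091 z z)))))) (n 0 z (n 0 z (n 0 z (n 0
 z z))))))))) (n 49 (n 1 (n 7754755 z (n 7754755 z (n 7754755 z (n 7754755 z (n 7754755 z (n
 7754755 z z)))))) (n 1 (n 7754755 z (n 7754755 z (n 7754755 z (n 7754755 z (n 7754755 z (n
 7754755 z z)))))) z)) (n 31 (n 1 (n 7754755 z (n 7754755 z (n 7754755 z (n 7754755 z (n 7754755
 z (n 7754755 z z)))))) (n 1 (n 7754755 z (n 7754755 z (n 7754755 z (n 7754755 z (n 7754755 z (n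
 7754755 z z)))))) z)) (n 49 (n 1 (n 7754755 z (n 7754755 z (n 7754755 z (n 7754755 z (n 7754755
 z (n 7754755 z z)))))) (n 1 (n 7754755 z (n 7754755 z (n 7754755 z (n 7754755 z (n 7754755 z (n
 7754755 z z)))))) z)) z))))))) (n 0 (n 0 (n 0 z (n 0 z (n 0 z z))) (n 0 (n 0 z (n 0 z z)) (n 0
 (n 0 z z) z))) (n 0 (n 297 (n 0 (n 0 z (n 0 z (n 0 z z))) (n 0 (n 0 z (n 0 z (n 0 z z))) (n 0
 (n 0 z (n 0 z (n 0 z z))) (n 0 (n 0 z (n 0 z (n 0 z z))) (n 0 (n 0 z (n 0 z (n 0 z z))) (n 0 (n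
 0 z (n 0 z (n 0 z z))) (n 0 (n 0 z (n 0 z (n 0 z z))) (n 0 (n 0 z (n 0 z (n 0 z z))) (n 0 (n 0
 z (n 0 z (n 0 z z))) (n 0 (n 0 (n 7743515 z (n 8722235 z z)) (n 0 (n 8795947 z (n 8652379 z z))
 (n 0 (n 8859939 z (n 8859939 z z)) z))) (n 0 (n 0 z (n 0 z (n 0 z z))) (n 0 (n 0 z (n 0 z (n 0
 z z))) (n 0 (n 0 z (n 0 z (n 0 z z))) z))))))))))))) (n 405 (n 0 (n 0 z (n 0 z (n 0 z z))) (n 0
 (n 0 z (n 0 z (n 0 z z))) (n 0 (n 0 z (n 0 z (n 0 z z))) (n 0 (n 0 z (n 0 z (n 0 z z))) (n 0 (n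
 0 z (n 0 z (n 0 z z))) (n 0 (n 0 z (n 0 z (n 0 z z))) (n 0 (n 0 z (n 0 z (n 0 z z))) (n 0 (n 0
 z (n 0 z (n 0 z z))) (n 0 (n 0 z (n 0 z (n 0 z z))) (n 0 (n 0 (n 8722235 z (n 8783179 z z)) (n
 0 (n 8855859 z (n 8855859 z z)) (n 0 (n 7682091 z (n 8660763 z z)) z))) (n 0 (n 0 z (n 0 z (n 0
 z z))) (n 0 (n 0 z (n 0 z (n 0 z z))) (n 0 (n 0 z (n 0 z (n 0 z z))) z))))))))))))) (n 381 (n 0
 (n 0 z (n 0 z (n 0 z z))) (n 0 (n 0 z (n 0 z (n 0 z z))) (n 0 (n 0 z (n 0 z (n 0 z z))) (n 0 (n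
 0 z (n 0 z (n 0 z z))) (n 0 (n 0 z (n 0 z (n 0 z z))) (n 0 (n 0 z (n 0 z (n 0 z z))) (n 0 (n 0
 z (n 0 z (n 0 z z))) (n 0 (n 0 z (n 0 z (n 0 z z))) (n 0 (n 0 (n 7747611 z (n
 0x1c32bb2a00c076576540180ec70c280381f81f8208208208208208208208208208208208608208208208208208208208208208208201801
 z z)) (n 0 (n 8855859 z (n 8855859 z z)) (n 0 (n 8791867 z (n 7747611 z z)) z))) z))))))))) (n
 161 (n 0 (n 0 z (n 0 z (n 0 z z))) (n 0 (n 0 z (n 0 z (n 0 z z))) (n 0 (n 0 z (n 0 z (n 0 z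
 z))) (n 0 (n 0 z (n 0 z (n 0 z z))) (n 0 (n 0 z (n 0 z (n 0 z z))) (n 0 (n 0 z (n 0 z (n 0 z
 z))) (n 0 (n 0 z (n 0 z (n 0 z z))) (n 0 (n 0 z (n 0 z (n 0 z z))) (n 0 (n 0 z (n 0 z (n 0 z
 z))) (n 0 (n 0 (n 8860179 z (n 8860179 z z)) (n 0 (n 8730395 z (n 8795947 z z)) (n 0 (n 8660763
 z (n 8717899 z z)) z))) (n 0 (n 0 z (n 0 z (n 0 z z))) (n 0 (n 0 z (n 0 z (n 0 z z))) (n 0 (n 0
 z (n 0 z (n 0 z z))) z))))))))))))) (n 249 (n 0 (n 0 z (n 0 z (n 0 z z))) (n 0 (n 0 z (n 0 z (n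
 0 z z))) (n 0 (n 0 z (n 0 z (n 0 z z))) (n 0 (n 0 z (n 0 z (n 0 z z))) (n 0 (n 0 z (n 0 z (n 0
 z z))) (n 0 (n 0 z (n 0 z (n 0 z z))) (n 0 (n 0 z (n 0 z (n 0 z z))) (n 0 (n 0 z (n 0 z (n 0 z
 z))) (n 0 (n 0 (n 8656683 z (n 7612475 z z)) (n 0 (n 8795947 z (n
 0x1c32bb2a00c0765765401810a6ea480381f8208208208208208208208208208208208208208208208208208208208208208208208201801
 z z)) (n 0 (n 8859939 z (n 8859939 z z)) z))) z))))))))) (n 137 (n 0 (n 0 z (n 0 z (n 0 z z)))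
 (n 0 (n 0 z (n 0 z (n 0 z z))) (n 0 (n 0 z (n 0 z (n 0 z z))) (n 0 (n 0 z (n 0 z (n 0 z z))) (n
 0 (n 0 z (n 0 z (n 0 z z))) (n 0 (n 0 z (n 0 z (n 0 z z))) (n 0 (n 0 z (n 0 z (n 0 z z))) (n 0
 (n 0 z (n 0 z (n 0 z z))) (n 0 (n 0 (n 8860179 z (n 8860179 z z)) (n 0 (n 8730395 z (n 7673899
 z z)) (n 0 (n 8660763 z (n
 0x4313b0a80c386576540180ecaeca80381f8208208208208208208208208208208208208208208208208208208208208208208208201801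
 z z)) z))) z))))))))) (n 395 (n 0 (n 0 z (n 0 z (n 0 z z))) (n 0 (n 0 z (n 0 z (n 0 z z))) (n 0
 (n 0 z (n 0 z (n 0 z z))) (n 0 (n 0 z (n 0 z (n 0 z z))) (n 0 (n 0 z (n 0 z (n 0 z z))) (n 0 (n
 0 z (n 0 z (n 0 z z))) (n 0 (n 0 z (n 0 z (n 0 z z))) (n 0 (n 0 z (n 0 z (n 0 z z))) (n 0 (n 0
 z (n 0 z (n 0 z z))) (n 0 (n 0 (n 8454955 z (n 8454955 z z)) (n 0 (n 8454955 z (n 8730395 z z))
 (n 0 (n 8873043 z (n 8873043 z z)) z))) (n 0 (n 0 z (n 0 z (n 0 z z))) (n 0 (n 0 z (n 0 z (n 0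
 z z))) (n 0 (n 0 z (n 0 z (n 0 z z))) (n 0 (n 0 z (n 0 z (n 0 z z))) (n 0 (n 0 z (n 0 z (n 0 z
 z))) (n 0 (n 0 z (n 0 z (n 0 z z))) (n 0 (n 0 z (n 0 z (n 0 z z))) (n 0 (n 0 z (n 0 z (n 0 z
 z))) (n 0 (n 0 (n 8585755 z (n 8585755 z z)) (n 0 (n 8585755 z (n 8585755 z z)) (n 0 (n 8585755
 z (n 8585755 z z)) z))) (n 0 (n 0 z (n 0 z (n 0 z z))) (n 0 (n 0 z (n 0 z (n 0 z z))) (n 0 (n 0
 z (n 0 z (n 0 z z))) z)))))))))))))))))))))) (n 33 (n 0 (n 0 z (n 0 z (n 0 z z))) (n 0 (n 0 z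
 (n 0 z (n 0 z z))) (n 0 (n 0 z (n 0 z (n 0 z z))) (n 0 (n 0 z (n 0 z (n 0 z z))) (n 0 (n 0 z (n
 0 z (n 0 z z))) (n 0 (n 0 z (n 0 z (n 0 z z))) (n 0 (n 0 z (n 0 z (n 0 z z))) (n 0 (n 0 z (n 0
 z (n 0 z z))) (n 0 (n 0 z (n 0 z (n 0 z z))) (n 0 (n 0 z (n 0 z (n 0 z z))) z)))))))))) (n 53
 (n 0 (n 0 z (n 0 z (n 0 z z))) (n 0 (n 0 z (n 0 z (n 0 z z))) (n 0 (n 0 z (n 0 z (n 0 z z))) (n
 0 (n 0 (n 8795995 z (n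
 0x448716b2ae0820a697603616e09a03e08d3ae089b7f086696081079896c69b6f08a18204a06a25210041 z z)) (n
 0 (n 8855859 z (n 8855859 z z)) (n 0 (n
 0x1c213b0a80c186576510380ea8ea82035999e26609675a06ee85b7a05a0961a209e18e465f96081899aa239157e77e48204a07e25a11801
 z (n
 0x730e23b8609207218a07977608189299a06e069c920a1a91e62372082979b96289d7e68e28207a08617e00081 z
 z)) z))) (n 0 (n 0 z (n 0 z (n 0 z z))) (n 0 (n 0 z (n 0 z (n 0 z z))) (n 0 (n 0 z (n 0 z (n 0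
 z z))) (n 0 (n 0 z (n 0 z (n 0 z z))) (n 0 (n 0 z (n 0 z (n 0 z z))) (n 0 (n 0 z (n 0 z (n 0 z
 z))) (n 0 (n 0 (n 8860179 z (n 8860179 z z)) (n 0 (n
 0xc8767e186082082182081f81e8607a085f86085f8227e182081f81f86281f7e28208207e08207e00041 z (n
 0x43a298b00c5864761503830c8c62a0301d95d950060329328a01c1764641301810ed0ec2077a7ae17e09e37205655df7e07607218e07e18648a0ae079a89ca1e7db8e58628205a091e4a43801
 z z)) (n 0 (n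
 0x48757e28608208618207a081f8207a085f86085f8227e186081f81f86181f8228208207e08207e00041 z (n
 0x387687650388ecaca680301d9594900e03b2bb2900c076575420180ca8ca80034a2c5b6e0aa86a03ec81f7605e07e59a086182191fae079a7db91f7db82786382052081f4623001
 z z)) z))) (n 0 (n 0 z (n 0 z (n 0 z z))) (n 0 (n 0 z (n 0 z (n 0 z z))) (n 0 (n 0 z (n 0 z (n
 0 z z))) (n 0 (n 0 z (n 0 z (n 0 z z))) (n 0 (n 0 z (n 0 z (n 0 z z))) z)))))))))))))))) (n 27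
 (n 0 (n 0 z (n 0 z (n 0 z z))) (n 0 (n 0 z (n 0 z (n 0 z z))) (n 0 (n 0 z (n 0 z (n 0 z z))) (n
 0 (n 0 (n 8593667 z (n 8593667 z z)) (n 0 (n 8593667 z (n 8593667 z z)) (n 0 (n 8593667 z (n
 8593667 z z)) z))) (n 0 (n 0 z (n 0 z (n 0 z z))) (n 0 (n 0 z (n 0 z (n 0 z z))) (n 0 (n 0 z (n
 0 z (n 0 z z))) (n 0 (n 0 z (n 0 z (n 0 z z))) (n 0 (n 0 z (n 0 z (n 0 z z))) (n 0 (n 0 z (n 0
 z (n 0 z z))) (n 0 (n 0 z (n 0 z (n 0 z z))) (n 0 (n 0 z (n 0 z (n 0 z z))) (n 0 (n 0 z (n 0 z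
 (n 0 z z))) z))))))))))))) (n 299 (n 0 (n 0 z (n 0 z (n 0 z z))) (n 0 (n 0 z (n 0 z (n 0 z z)))
 (n 0 (n 0 z (n 0 z (n 0 z z))) (n 0 (n 0 z (n 0 z (n 0 z z))) (n 0 (n 0 z (n 0 z (n 0 z z))) (n
 0 (n 0 z (n 0 z (n 0 z z))) (n 0 (n 0 z (n 0 z (n 0 z z))) (n 0 (n 0 z (n 0 z (n 0 z z))) (n 0
 (n 0 z (n 0 z (n 0 z z))) (n 0 (n 0 (n 8868963 z (n 8868963 z z)) (n 0 (n 8585755 z (n 8585755
 z z)) (n 0 (n 8585755 z (n 8585755 z z)) z))) (n 0 (n 0 z (n 0 z (n 0 z z))) (n 0 (n 0 z (n 0 z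
 (n 0 z z))) (n 0 (n 0 z (n 0 z (n 0 z z))) (n 0 (n 0 z (n 0 z (n 0 z z))) (n 0 (n 0 z (n 0 z (n
 0 z z))) (n 0 (n 0 z (n 0 z (n 0 z z))) (n 0 (n 0 z (n 0 z (n 0 z z))) (n 0 (n 0 z (n 0 z (n 0
 z z))) (n 0 (n 0 (n 8520475 z (n 8520475 z z)) (n 0 (n 8520475 z (n 8520475 z z)) (n 0 (n
 8520475 z (n 8520475 z z)) z))) (n 0 (n 0 z (n 0 z (n 0 z z))) (n 0 (n 0 z (n 0 z (n 0 z z)))
 (n 0 (n 0 z (n 0 z (n 0 z z))) z)))))))))))))))))))))) (n 35 (n 0 (n 0 z (n 0 z (n 0 z z))) (n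
 0 (n 0 z (n 0 z (n 0 z z))) (n 0 (n 0 z (n 0 z (n 0 z z))) (n 0 (n 0 (n
 0x1ba1c28b00c0765765301830c8ec86075999e26609675a06ee85b7a05a0961a209e18e465f96081899aa239157e77e48204a07e25a11801
 z (n
 0x730e63b8409207218a07977608189299a06e069c920a1a91e62372082979b96289d7e68e28207a08617e00081 z
 z)) (n 0 (n 8660843 z (n
 0x348726eea1f8609e77604a07609604e08d5a6089c7ed8659207d37d98ea6dc72d8a08205607215a10041 z z)) (n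
 0 (n 8859939 z (n 8859939 z z)) z))) (n 0 (n 0 z (n 0 z (n 0 z z))) (n 0 (n 0 z (n 0 z (n 0 z
 z))) (n 0 (n 0 z (n 0 z (n 0 z z))) (n 0 (n 0 z (n 0 z (n 0 z z))) (n 0 (n 0 z (n 0 z (n 0 z
 z))) (n 0 (n 0 z (n 0 z (n 0 z z))) (n 0 (n 0 (n
 0x48767e28608208618207a081f8207a085f86085f8227e186081f81f86181f8228208207e08207e00041 z (n
 0x387687640388ecaca480301d9594500e03b2bb2081c076476410180ca8ca80034a2c5b6e0aa86a03ec81f7605e07e59a086182191fae079a7db91f7db82786382052081f4623001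
 z z)) (n 0 (n 8855859 z (n 8855859 z z)) (n 0 (n
 0xc8747e186082082182081f81e8607a085f86085f8227e182081f81f86281f7e28208207e08207e00041 z (n
 0x3b2bb2a00c5865763403810eac64807061958c900e0329328a01c087487430382ea8a864037a7ae17e09e37205655df7e07607218e07e18648a0ae079a89ca1e7db8e58628205a091e4a43801
 z z)) z))) (n 0 (n 0 z (n 0 z (n 0 z z))) (n 0 (n 0 z (n 0 z (n 0 z z))) (n 0 (n 0 z (n 0 z (n
 0 z z))) (n 0 (n 0 z (n 0 z (n 0 z z))) (n 0 (n 0 z (n 0 z (n 0 z z))) z)))))))))))))))) (n 9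
 (n 0 (n 0 z (n 0 z (n 0 z z))) (n 0 (n 0 z (n 0 z (n 0 z z))) (n 0 (n 0 z (n 0 z (n 0 z z))) (n
 0 (n 0 (n 8593667 z (n 8593667 z z)) (n 0 (n 8593667 z (n 8593667 z z)) (n 0 (n 8593667 z (n
 8593667 z z)) z))) (n 0 (n 0 z (n 0 z (n 0 z z))) (n 0 (n 0 z (n 0 z (n 0 z z))) (n 0 (n 0 z (n
 0 z (n 0 z z))) (n 0 (n 0 z (n 0 z (n 0 z z))) (n 0 (n 0 z (n 0 z (n 0 z z))) (n 0 (n 0 z (n 0
 z (n 0 z z))) (n 0 (n 0 z (n 0 z (n 0 z z))) (n 0 (n 0 z (n 0 z (n 0 z z))) (n 0 (n 0 z (n 0 z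
 (n 0 z z))) z))))))))))))) (n 3 (n 0 (n 0 z (n 0 z (n 0 z z))) (n 0 (n 0 z (n 0 z (n 0 z z)))
 (n 0 (n 0 z (n 0 z (n 0 z z))) (n 0 (n 0 z (n 0 z (n 0 z z))) (n 0 (n 0 z (n 0 z (n 0 z z))) (n
 0 (n 0 z (n 0 z (n 0 z z))) (n 0 (n 0 z (n 0 z (n 0 z z))) (n 0 (n 0 z (n 0 z (n 0 z z))) (n 0
 (n 0 z (n 0 z (n 0 z z))) (n 0 (n 0 z (n 0 z (n 0 z z))) z)))))))))) (n 31 (n 0 (n 0 z (n 0 z
 (n 0 z z))) (n 0 (n 0 z (n 0 z (n 0 z z))) z)) (n 153 (n 0 (n 0 z (n 0 z (n 0 z z))) (n 0 (n 0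
 z (n 0 z (n 0 z z))) (n 0 (n 0 z (n 0 z (n 0 z z))) (n 0 (n 0 z (n 0 z (n 0 z z))) (n 0 (n 0 z
 (n 0 z (n 0 z z))) (n 0 (n 0 z (n 0 z (n 0 z z))) (n 0 (n 0 z (n 0 z (n 0 z z))) (n 0 (n 0 z (n
 0 z (n 0 z z))) (n 0 (n 0 z (n 0 z (n 0 z z))) (n 0 (n 0 (n 8520475 z (n 8520475 z z)) (n 0 (n
 8873283 z (n 8873283 z z)) (n 0 (n 8520475 z (n 8520475 z z)) z))) (n 0 (n 0 z (n 0 z (n 0 z
 z))) (n 0 (n 0 z (n 0 z (n 0 z z))) (n 0 (n 0 z (n 0 z (n 0 z z))) (n 0 (n 0 z (n 0 z (n 0 z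
 z))) (n 0 (n 0 z (n 0 z (n 0 z z))) (n 0 (n 0 z (n 0 z (n 0 z z))) (n 0 (n 0 z (n 0 z (n 0 z
 z))) (n 0 (n 0 z (n 0 z (n 0 z z))) (n 0 (n 0 (n 8454955 z (n 8454955 z z)) (n 0 (n 8454955 z
 (n 8454955 z z)) (n 0 (n 8454955 z (n 8454955 z z)) z))) (n 0 (n 0 z (n 0 z (n 0 z z))) (n 0 (n
 0 z (n 0 z (n 0 z z))) (n 0 (n 0 z (n 0 z (n 0 z z))) z)))))))))))))))))))))) (n 59 (n 0 (n 0 z
 (n 0 z (n 0 z z))) (n 0 (n 0 z (n 0 z (n 0 z z))) (n 0 (n 0 z (n 0 z (n 0 z z))) (n 0 (n 0 (n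
 8593667 z (n 8593667 z z)) (n 0 (n 8593667 z (n 8593667 z z)) (n 0 (n 8593667 z (n 8593667 z
 z)) z))) (n 0 (n 0 z (n 0 z (n 0 z z))) (n 0 (n 0 z (n 0 z (n 0 z z))) (n 0 (n 0 z (n 0 z (n 0
 z z))) (n 0 (n 0 z (n 0 z (n 0 z z))) (n 0 (n 0 z (n 0 z (n 0 z z))) (n 0 (n 0 z (n 0 z (n 0 z
 z))) (n 0 (n 0 z (n 0 z (n 0 z z))) (n 0 (n 0 z (n 0 z (n 0 z z))) (n 0 (n 0 z (n 0 z (n 0 z
 z))) z))))))))))))) (n 53 (n 0 (n 0 z (n 0 z (n 0 z z))) (n 0 (n 0 z (n 0 z (n 0 z z))) (n 0 (n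
 0 z (n 0 z (n 0 z z))) (n 0 (n 0 z (n 0 z (n 0 z z))) (n 0 (n 0 z (n 0 z (n 0 z z))) (n 0 (n 0
 z (n 0 z (n 0 z z))) (n 0 (n 0 z (n 0 z (n 0 z z))) (n 0 (n 0 z (n 0 z (n 0 z z))) (n 0 (n 0 z
 (n 0 z (n 0 z z))) (n 0 (n 0 z (n 0 z (n 0 z z))) z)))))))))) (n 3 (n 0 (n 0 z (n 0 z (n 0 z
 z))) (n 0 (n 0 z (n 0 z (n 0 z z))) (n 0 (n 0 z (n 0 z (n 0 z z))) (n 0 (n 0 (n 8860179 z (n
 8860179 z z)) (n 0 (n
 0x1c31ba9200c0764764201830a8ea84075999e26609675a06ee85b7a05a0961a209e18e465f96081899aa239157e77e48204a07e25a11801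
 z (n
 0x730e43b8509207218a07977608189299a06e069c920a1a91e62372082979b96289d7e68e28207a08617e00081 z
 z)) (n 0 (n 8722251 z (n
 0x148717a68e18208e37e06a07e08a06a085c92081f8268228a081b81d8a475f7a58208207207a07200041 z z))
 z))) (n 0 (n 0 z (n 0 z (n 0 z z))) (n 0 (n 0 z (n 0 z (n 0 z z))) (n 0 (n 0 z (n 0 z (n 0 z
 z))) (n 0 (n 0 z (n 0 z (n 0 z z))) (n 0 (n 0 z (n 0 z (n 0 z z))) (n 0 (n 0 z (n 0 z (n 0 z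
 z))) (n 0 (n 0 (n
 0xc8757e186082082182081f81e8607a085f86085f8227e182081f81f86281f7e28208207e08207e00041 z (n
 0x43b210a81c07657654018b0caea48030194994500e0c32a90a00c087587520382ecaca42037a7ae17e09e37205655df7e07607218e07e18648a0ae079a89ca1e7db8e58628205a091e4a43801
 z z)) (n 0 (n
 0x48747e28608208618207a081f8207a085f86085f8227e186081f81f86181f8228208207e08207e00041 z (n
 0x387587540380ecaca680711d9594500603b23aa181c075475430180ca8ca80034a2c5b6e0aa86a03ec81f7605e07e59a086182191fae079a7db91f7db82786382052081f4623001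
 z z)) (n 0 (n 8859939 z (n 8859939 z z)) z))) (n 0 (n 0 z (n 0 z (n 0 z z))) (n 0 (n 0 z (n 0 z
 (n 0 z z))) (n 0 (n 0 z (n 0 z (n 0 z z))) (n 0 (n 0 z (n 0 z (n 0 z z))) (n 0 (n 0 z (n 0 z (n
 0 z z))) z)))))))))))))))) (n 49 (n 0 (n 0 z (n 0 z (n 0 z z))) (n 0 (n 0 z (n 0 z (n 0 z z)))
 z)) (n 0 (n 0 (n 0 z (n 0 z (n 0 z z))) (n 0 (n 0 z (n 0 z (n 0 z z))) z))
 z))))))))))))))))))))) z)))) z) z)))) (n 0x336cd073dac19ed210f670e1b23088d18444a1cc630e780 (n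
 0x21cf6 (n 689 (n 6635555 z (n 0 z (n 0 z (n 2 z (n 0 z z))))) (n 685 (n 0 z (n 10 z (n 0 z (n
 3278363 z z)))) (n 135 (n 18 z (n 26 z (n 0 z (n 0 z (n 0 z (n
 0x36b2a0556438080778080808284818d7a8283868172728877837e7d8574837d8a9d80708f84838b938178798b8e7d86627c7f8b795e81850089
 z (n 0 z (n 0 z (n 0 z (n 0 z (n
 0x2ab1886d6508080778080808284818d7a8283868172728877837e7d8574837d8a9d80708f84838b938178798b8e7d86627c7f8b795e81850089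
 z (n 0 z (n 6628363 z (n 0 z (n 0 z (n 0 z (n 0 z (n 0 z (n 0 z (n 0 z (n 0 z (n 0 z (n 0 z (n
 0 z (n
 0xec86a86203808080808080788a8a8d828077787b709c777b76716182969781848a7d8c877c8d839b7e795a79919a74954f8c6eb58e4b7e0809
 z (n 34 z z)))))))))))))))))))))))))) (n 3 (n 0 z (n 2164283 z (n 0 z (n 42 z z)))) (n 1 (n
 0x1b21a99081c1590cc8040602ca8a62007808080808080837f7e7e7f818285807278928383838f7e7f717e81897f6e828281827f80768587857d7d639483ab586599801809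
 z (n 0 z (n 0 z (n 0 z (n 0 z (n 0 z (n 0 z (n 0 z (n 0 z (n 0 z (n 0 z (n 50 z (n 0 z (n 0 z
 (n 6635555 z (n 0 z z)))))))))))))))) (n 0 (n 58 z (n 0 z (n 0 z (n 0 z (n 6635555 z (n 0 z (n
 66 z (n 0 z (n 0 z (n 0 z (n 0 z z))))))))))) z)))))) (n 685 (n 0 (n 1371 (n 0 z (n 0 z (n 0 z
 (n 0 z (n 0 z (n 0 z (n 0 z (n 0 z (n 0 z (n 0 z (n 0 z (n 0 z (n 0 z (n 0 z (n 0 z (n 0 z
 z)))))))))))))))) (n 183 (n 0 z (n 0 z (n 0 z (n 0 z (n 0 z (n 0 z (n 0 z (n 0 z (n 0 z (n 0 z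
 (n 0 z (n 0 z (n 0 z (n 0 z (n 0 z (n 0 z (n 0 z (n 0 z (n 0 z (n 0 z (n 0 z (n 0 z (n 0 z (n 0
 z (n 0 z (n 0 z (n 0 z (n 0 z (n 0 z (n 0 z (n 0 z z))))))))))))))))))))))))))))))) (n 183 (n 0
 z (n 0 z (n 0 z (n 0 z (n 0 z (n 0 z (n 0 z (n 0 z (n 0 z (n 0 z (n 0 z (n 0 z (n 0 z (n 0 z (n
 0 z (n 0 z (n 0 z (n 0 z (n 0 z (n 0 z (n 0 z (n 0 z (n 0 z (n 0 z (n 0 z (n 0 z (n 0 z (n 0 z
 (n 0 z (n 0 z (n 0 z z))))))))))))))))))))))))))))))) (n 183 (n 0 z (n 0 z (n 0 z (n 0 z (n 0 z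
 (n 0 z (n 0 z (n 0 z (n 0 z (n 0 z (n 0 z (n 0 z (n 0 z (n 0 z (n 0 z (n 0 z (n 0 z (n 0 z (n 0
 z (n 0 z (n 0 z (n 0 z (n 0 z (n 0 z (n 0 z (n 0 z (n 0 z (n 0 z (n 0 z (n 0 z (n 0 z
 z))))))))))))))))))))))))))))))) (n 975 (n 0 z (n 0 z (n 0 z (n 0 z (n 0 z (n 0 z (n 0 z (n 0 z
 (n 0 z (n 0 z (n 0 z z))))))))))) (n 1369 (n 0 z (n 0 z (n 0 z (n 0 z (n 0 z z))))) (n 973 (n 0
 z (n 0 z (n 0 z (n 0 z (n 0 z z))))) (n 973 (n 0 z (n 0 z (n 0 z (n 0 z (n 0 z z))))) z))))))))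
 (n 0 (n 915 (n 0 z (n 0 z (n 0 z (n 0 z (n 0 z (n 0 z (n 0 z (n 0 z (n 0 z (n 0 z (n 0 z (n 0 z
 (n 0 z (n 0 z (n 0 z (n 0 z (n 0 z (n 0 z (n 0 z (n 0 z (n 0 z (n 0 z (n 0 z (n 0 z (n 0 z (n 0
 z z)))))))))))))))))))))))))) (n 915 (n 0 z (n 0 z (n 0 z (n 0 z (n 0 z (n 0 z (n 0 z (n 0 z (n
 0 z (n 0 z (n 0 z (n 0 z (n 0 z (n 0 z (n 0 z (n 0 z (n 0 z (n 0 z (n 0 z (n 0 z (n 0 z (n 0 z
 (n 0 z (n 0 z (n 0 z (n 0 z z)))))))))))))))))))))))))) (n 915 (n 0 z (n 0 z (n 0 z (n 0 z (n 0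
 z (n 0 z (n 0 z (n 0 z (n 0 z (n 0 z (n 0 z (n 0 z (n 0 z (n 0 z (n 0 z (n 0 z (n 0 z (n 0 z (n
 0 z (n 0 z (n 0 z (n 0 z (n 0 z (n 0 z (n 0 z (n 0 z z)))))))))))))))))))))))))) (n 1029 (n 0 z
 (n 0 z (n 0 z (n 0 z z)))) (n 1373 (n 0 z (n 0 z (n 0 z (n 0 z (n 0 z (n 0 z (n 0 z (n 0 z (n 0
 z (n 0 z (n 0 z z))))))))))) (n 1021 (n 0 z (n 0 z (n 0 z (n 0 z (n 0 z z))))) (n 1021 (n 0 z
 (n 0 z (n 0 z (n 0 z (n 0 z z))))) z))))))) (n 0 (n 0 z (n 0 z (n 7 (n 0 z (n 0 z (n 0 z (n 0 z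
 (n 0 z (n 0 z (n 0 z (n 0 z (n 0 z (n 0 z (n 0 z (n 0 z (n 0 z z))))))))))))) (n 613 (n 0 z (n
 0 z (n 0 z (n 0 z (n 0 z (n 0 z (n 0 z (n 0 z (n 0 z (n 0 z (n 2 (n 1 z (n 2 (n 0 z (n 0 z (n 0
 z (n 0 z (n 0 z (n 0 z z)))))) z)) z))))))))))) (n 577 (n 0 z (n 2 (n 0 z z) (n 0 z (n 0 z (n 0
 z (n 0 z (n 0 z z))))))) (n 577 (n 0 z (n 0 z (n 0 z (n 0 z (n 0 z (n 0 z (n 0 z z)))))))
 z)))))) (n 0 (n 0 z (n 7 (n 0 z (n 0 z (n 0 z (n 0 z (n 0 z (n 0 z (n 0 z (n 0 z (n 0 z (n 0 z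
 (n 0 z (n 0 z (n 0 z (n 0 z (n 0 z (n 0 z (n 0 z (n 0 z (n 0 z (n 0 z (n 0 z
 z))))))))))))))))))))) (n 613 (n 0 z (n 0 z (n 0 z (n 0 z (n 0 z (n 0 z (n 0 z (n 2 (n 1 z (n 2
 (n 0 (n 8859939 z (n 8859939 z z)) (n 0 z (n 0 (n 8859939 z (n 8859939 z z)) (n 0 (n 8859939 z
 (n 8859939 z z)) (n 0 z (n 0 (n 8859939 z (n 8859939 z z)) z)))))) z)) z)))))))) (n 577 (n 0 z
 (n 2 (n 0 z z) (n 0 z (n 0 z (n 0 z (n 0 z z)))))) (n 577 (n 0 z (n 0 z (n 0 z (n 0 z (n 0 z (n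
 0 z z)))))) z))))) (n 0 (n 665 (n 0 z (n 0 z (n 0 z (n 0 z (n 0 z (n 0 z (n 0 z (n 0 z (n 0 z
 (n 0 z (n 0 z (n 0 z (n 0 z (n 0 z (n 0 z (n 0 z (n 0 z (n 0 z (n 0 z (n 0 z (n 0 z (n 0 z (n 0
 z (n 0 z (n 0 z (n 0 z z)))))))))))))))))))))))))) (n 917 (n 0 z (n 0 z (n 0 z (n 0 z (n 0 z (n
 0 z (n 0 z (n 0 z (n 0 z (n 0 z (n 0 z (n 0 z (n 0 z (n 0 z (n 0 z (n 0 z (n 0 z (n 0 z (n 0 z
 (n 0 z (n 0 z (n 0 z (n 0 z (n 0 z (n 0 z (n 0 z (n 0 z (n 0 z (n 0 z (n 0 z (n 0 z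
 z))))))))))))))))))))))))))))))) (n 269 (n 0 z (n 0 z (n 0 z (n 0 z (n 0 z (n 0 z (n 0 z (n 0 z
 (n 0 z (n 0 z (n 0 z (n 0 z (n 0 z (n 0 z (n 0 z (n 0 z (n 0 z (n 0 z (n 0 z (n 0 z (n 0 z (n 0
 z (n 0 z (n 0 z (n 0 z (n 0 z (n 0 z (n 0 z (n 0 z (n 0 z (n 0 z
 z))))))))))))))))))))))))))))))) (n 269 (n 0 z (n 0 z (n 0 z (n 0 z (n 0 z (n 0 z (n 0 z (n 0 z
 (n 0 z (n 0 z (n 0 z (n 0 z (n 0 z (n 0 z (n 0 z (n 0 z (n 0 z (n 0 z (n 0 z (n 0 z (n 0 z (n 0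
 z (n 0 z (n 0 z (n 0 z (n 0 z (n 0 z (n 0 z (n 0 z (n 0 z (n 0 z
 z))))))))))))))))))))))))))))))) z)))) (n 0 (n 9 (n 0 z (n 0 z (n 0 z (n 0 z (n 0 z z))))) (n
 1133 (n 0 z (n 0 z (n 0 z (n 0 z (n 0 z (n 0 z (n 0 z (n 0 z (n 0 z (n 0 z (n 0 z (n 0 z (n 0 z
 (n 0 z (n 0 z (n 0 z z)))))))))))))))) (n 1133 (n 0 z (n 0 z (n 0 z (n 0 z (n 0 z (n 0 z (n 0 z
 (n 0 z (n 0 z (n 0 z (n 0 z (n 0 z (n 0 z (n 0 z (n 0 z (n 0 z z)))))))))))))))) z))) (n 0 (n 1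
 (n 0 z (n 0 z (n 0 z (n 0 z (n 0 z z))))) (n 1 (n 0 z (n 0 z (n 0 z (n 0 z (n 0 z z))))) z)) (n
 0 (n 0 z z) (n 0 z z))))))))) (n 0 (n 0 z (n 1 (n 5516 z (n 5516 z (n 5516 z (n 5516 z (n 5516
 z (n 2 z z)))))) (n 0 z (n 1 (n 3278363 z (n 3278363 z (n 3278363 z (n 3278363 z (n 3278363 z
 (n 3278363 z z)))))) z)))) (n 0 (n 0 (n 0 (n 0 (n 7754515 z (n 7754515 z (n 7754515 z (n
 7754515 z (n 7754515 z (n 7754515 z z)))))) z) (n 0 (n 689 (n 1 (n 7684131 z (n 7684131 z (n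
 7684131 z (n 7684131 z (n 7684131 z (n 7684131 z z)))))) (n 0 z (n 0 z (n 1 (n 7754515 z (n
 7754515 z (n 7754515 z (n 7754515 z (n 7754515 z (n 7754515 z z)))))) (n 0 z z))))) (n 685 (n 0
 z (n 1 (n 7745827 z (n 7745827 z (n 7745827 z (n 7745827 z (n 7745827 z (n 7745827 z z)))))) (n
 0 z (n 1 (n 7745827 z (n 7745827 z (n 7745827 z (n 7745827 z (n 7745827 z (n 7745827 z z))))))
 z)))) (n 459 (n 1 (n 7546395 z (n 2668 z (n 2668 z (n 7742235 z (n 1084 z (n 7754515 z z))))))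
 (n 1 (n 7546395 z (n 2668 z (n 2668 z (n 7742235 z (n 1084 z (n 7754515 z z)))))) (n 0 z (n 0 z
 (n 0 z (n 1 (n 2668 z (n 7546395 z (n 2668 z (n 2668 z (n 7742235 z (n 7754515 z z)))))) (n 0 z
 (n 0 z (n 0 z (n 0 z (n 1 (n 7476795 z (n 6566259 z (n 7476795 z (n 7476795 z (n 7476795 z (n
 7754515 z z)))))) (n 0 z (n 1 (n 7676939 z (n 5509235 z (n 7676939 z (n 7676939 z (n 7676939 z
 (n 7754515 z z)))))) (n 0 z (n 0 z (n 0 z (n 0 z (n 0 z (n 0 z (n 0 z (n 0 z (n 0 z (n 0 z (n 0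
 z (n 1 (n 2668 z (n 7742235 z (n 2668 z (n 2668 z (n 7546395 z (n 7754515 z z)))))) (n 1 (n
 7749939 z (n 7749939 z (n 7749939 z (n 7749939 z (n 7749939 z (n 7754515 z z))))))
 z)))))))))))))))))))))))))) (n 568 (n 0 z (n 1 (n 7745827 z (n 7745827 z (n 7745827 z (n
 7745827 z (n 7745827 z (n 7754515 z z)))))) (n 0 z (n 1 (n 7745827 z (n 7745827 z (n 7745827 z
 (n 7745827 z (n 7745827 z (n 7754515 z z)))))) z)))) (n 689 (n 0 z (n 1 (n 7684131 z (n 7684131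
 z (n 7684131 z (n 7684131 z (n 7684131 z (n 7684131 z z)))))) (n 0 z (n 1 (n 7684131 z (n
 7684131 z (n 7684131 z (n 7684131 z (n 7684131 z (n 7684131 z z)))))) (n 0 z z))))) (n 591 (n 0
 z (n 1 (n 7754515 z (n 7754515 z (n 7754515 z (n 7754515 z (n 7754515 z (n 7754515 z z)))))) (n
 0 z (n 1 (n 7684131 z (n 7684131 z (n 7684131 z (n 7684131 z (n 7684131 z (n 7684131 z z))))))
 (n 0 z z))))) (n 685 (n 0 z (n 1 (n 7745827 z (n 7745827 z (n 7745827 z (n 7745827 z (n 7745827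
 z (n 7754515 z z)))))) (n 0 z (n 1 (n 7745827 z (n 7745827 z (n 7745827 z (n 7745827 z (n
 7745827 z (n 7754515 z z)))))) z)))) z))))))) (n 0 z (n 0 (n 687 (n 0 z (n 0 z (n 0 z (n 0 z (n
 0 z (n 0 z (n 0 z (n 0 z (n 0 z (n 0 z (n 0 z (n 0 z (n 0 z (n 0 z (n 0 z (n 0 z
 z)))))))))))))))) (n 333 (n 0 z (n 0 z (n 0 z (n 0 z (n 0 z (n 0 z (n 0 z (n 0 z (n 0 z (n 0 z
 (n 0 z (n 0 z (n 0 z (n 0 z (n 0 z (n 0 z (n 0 z (n 0 z (n 0 z (n 0 z (n 0 z (n 0 z (n 0 z (n 0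
 z (n 0 z (n 0 z (n 0 z (n 0 z (n 0 z (n 0 z (n 0 z z))))))))))))))))))))))))))))))) (n 459 (n 0
 z (n 0 z (n 0 z (n 0 z (n 0 z (n 0 z (n 0 z (n 0 z (n 0 z (n 0 z (n 0 z (n 0 z (n 0 z (n 0 z (n
 0 z (n 0 z (n 0 z (n 0 z (n 0 z (n 0 z (n 0 z (n 0 z (n 0 z (n 0 z (n 0 z (n 0 z
 z)))))))))))))))))))))))))) (n 567 (n 0 z (n 0 z (n 0 z (n 0 z (n 0 z (n 0 z (n 0 z (n 0 z (n 0
 z (n 0 z (n 0 z z))))))))))) (n 568 (n 0 z (n 0 z (n 0 z (n 0 z z)))) (n 452 (n 0 z (n 0 z (n 0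
 z (n 0 z (n 0 z (n 0 z (n 0 z (n 0 z (n 0 z (n 0 z (n 0 z (n 0 z (n 0 z (n 0 z (n 0 z (n 0 z (n
 0 z (n 0 z (n 0 z (n 0 z (n 0 z (n 0 z (n 0 z (n 0 z (n 0 z (n 0 z z))))))))))))))))))))))))))
 (n 689 (n 0 z (n 0 z (n 0 z (n 0 z (n 0 z z))))) (n 688 (n 0 z (n 0 z (n 0 z (n 0 z (n 0 z (n 0
 z (n 0 z (n 0 z (n 0 z (n 0 z (n 0 z z))))))))))) (n 460 (n 0 z (n 0 z (n 0 z (n 0 z (n 0 z (n
 0 z (n 0 z (n 0 z (n 0 z (n 0 z (n 0 z (n 0 z (n 0 z (n 0 z (n 0 z (n 0 z (n 0 z (n 0 z (n 0 z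
 (n 0 z (n 0 z (n 0 z (n 0 z (n 0 z (n 0 z (n 0 z (n 0 z (n 0 z (n 0 z (n 0 z (n 0 z
 z))))))))))))))))))))))))))))))) (n 5 (n 0 z (n 0 z (n 0 z (n 0 z (n 0 z z))))) (n 591 (n 0 z
 (n 0 z (n 0 z (n 0 z (n 0 z z))))) (n 589 (n 0 z (n 0 z (n 0 z (n 0 z (n 0 z z))))) (n 135 (n 0
 z (n 0 z (n 0 z (n 0 z (n 0 z (n 0 z (n 0 z (n 0 z (n 0 z (n 0 z (n 0 z (n 0 z (n 0 z (n 0 z (n
 0 z (n 0 z (n 0 z (n 0 z (n 0 z (n 0 z (n 0 z (n 0 z (n 0 z (n 0 z (n 0 z (n 0 z (n 0 z (n 0 z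
 (n 0 z (n 0 z (n 0 z z))))))))))))))))))))))))))))))) (n 590 (n 0 z (n 0 z (n 0 z (n 0 z (n 0 z
 (n 0 z (n 0 z (n 0 z (n 0 z (n 0 z (n 0 z (n 0 z (n 0 z (n 0 z (n 0 z (n 0 z z))))))))))))))))
 (n 1 (n 0 z (n 0 z (n 0 z (n 0 z (n 0 z z))))) (n 689 (n 0 z (n 0 z (n 0 z (n 0 z (n 0 z z)))))
 (n 685 (n 0 z (n 0 z (n 0 z (n 0 z z)))) (n 135 (n 0 z (n 0 z (n 0 z (n 0 z (n 0 z (n 0 z (n 0
 z (n 0 z (n 0 z (n 0 z (n 0 z (n 0 z (n 0 z (n 0 z (n 0 z (n 0 z (n 0 z (n 0 z (n 0 z (n 0 z (n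
 0 z (n 0 z (n 0 z (n 0 z (n 0 z (n 0 z z)))))))))))))))))))))))))) (n 3 (n 0 z (n 0 z (n 0 z (n
 0 z z)))) (n 1 (n 0 z (n 0 z (n 0 z (n 0 z (n 0 z (n 0 z (n 0 z (n 0 z (n 0 z (n 0 z (n 0 z (n
 0 z (n 0 z (n 0 z (n 0 z (n 0 z z)))))))))))))))) (n 0 (n 0 z (n 0 z (n 0 z (n 0 z (n 0 z (n 0
 z (n 0 z (n 0 z (n 0 z (n 0 z (n 0 z z))))))))))) z))))))))))))))))))))) z)))) z) z)))) (n
 0x534ba1d2cd (n 0 (n 399 (n 3282443 z (n 0 z (n 0 z z))) (n 581 (n 6558475 z (n 0 z (n 0 z (n 0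
 z z)))) (n 129 (n 0 z (n 0 z (n 0 z (n 0 z (n 3212843 z z))))) (n 3 (n 0 z (n 2164283 z (n 0 z
 z))) (n 1 (n 6558475 z (n 0 z (n 0 z (n 0 z z)))) (n 0 (n 6619675 z (n 0 z (n 0 z (n
 0x2c86c824038208208208a082082081e89e8208208218228208228208218207e08207e08607a08238208200801 z
 (n 2 z (n 0 z (n 0 z (n 10 z (n
 0xec86c86403ed969ea95c2290d9228586b17966159227a45ae8eb7667aab0b8a67e7a58699aab91e71f7690801 z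
 (n 6619675 z (n
 0x2ca68624077dd86079f8228e37e17df82082085f7df7a07e185f7e18607e489f82086181f75f8207df7a00801 z
 z))))))))))) z)))))) (n 399 (n 0 (n 0 z z) (n 0 z z)) (n 0 (n 1 (n 3282443 z (n 6558475 z (n
 3282443 z (n 3282443 z (n 3282443 z (n 3282443 z z)))))) (n 0 z (n 0 z z))) (n 0 z z)))) (n
 0x1c701309621 (n 0 (n 575 (n 3282443 z (n 0 z (n 0 z z))) (n 571 (n
 0x2ca6ca40038008007fe8007fe8048008008018028018008008018008018017ff8017ff7fd7ff7ff8027ff8008008068018008028017ff7fe7ff7ff8008007fe7ff8028028008007ff7fd8008017ff7fd0811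
 z (n 0 z (n 6358347 z (n 3278363 z (n 3278363 z (n 2 z (n 10 z (n 0 z (n
 0xc42860a03000654643203800b2a328100c00990d94080600ac86c804038008008017ff8018007ff8018008008008007fe7ff8027ff8008018008008008008008008028027ff8018007ff7fe8027fe7ff8007ff7ff7ff7ff8008007ff8007fe8018018007fe8018002811
 z (n
 0xaca2a4080700b651520301808b28aa0101c015951948006016ca6ca40038018017fa7fc8068227fe8018068068067f97f88127fb7f97ef7f58047fc7ff7fe7f980480780680c82a7f37fe8088038097fb7f87f58017fd7fb7f58038017ee8067ec7f68007fb7fa7fb2811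
 z (n 0 z (n
 0x1132a320101c04194550080601eca8c840037d288e8137fd7fc7f680781b7d17fe7c582a7ed7cd82d8428087cc81e7ec7ce7bc7f781981b7e580082280482f83385284a7998237ea7e88157bf7f18147cc75d8107fd7c47d77bc83b8041811
 z z)))))))))))) (n 570 (n
 0x132a32a081c01594d94c40e02ec84a620037fc80980d7ff8047f27ff80e8027fb8017ff8097fa7fa7ff8038008037ff80e7fc7fd8057fe80d8007f68027f77f97fb8008017ff7fe7fc8017fb8007f17f07f78028018088077f580b8141811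
 z (n 0 z (n 0 z (n
 0xd58c015231801a363080879e8717f681578d7d182a8067f87f17e77e980b8007d180182c7ee8297f981d7fe7cb81a7ff8a37da7ce7e47e780a78d82b7f57e481d7e67ff82c7f87fe84e7ea81686e7bb7ee7f885700d1
 z (n 3212843 z (n 3212843 z (n 0 z (n 0 z (n 0 z (n 0 z z)))))))))) (n 3 (n 0 z (n 0 z (n 0 z
 (n 6566411 z (n 6566411 z (n 0 z (n 0 z (n 0 z (n 0 z (n 0 z z)))))))))) (n 1 (n 0 z (n 6566411
 z z)) (n 0 (n 0 z (n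
 0x8a18b28100c0159450c0806016c848420037fd80d8008057fe8088068007fa7fe7fc8078038048028097ff7fe8037ff8007fb8018057fd8018008068058048008078017fa8067fb8048087f77fe8118017ea8087fc7f98017fd7fe7fd1811
 z (n 2164315 z (n 3212891 z (n 0 z (n
 0x9188410231001636208097af8627f481479c7dc8228067f77f77e87ef8097fc7d48008247f282680281e7ff7d48168048827d77d87e47e48027a482b7f77ec8187ee8038277f57fb8407ec81385e7ce7f57f884600d1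
 z (n 0 z (n 0 z (n 0 z (n 0 z z)))))))))) z)))))) (n 1 (n 0 (n 0 z z) (n 0 z z)) (n 0 (n 0 z (n
 1 (n 6566411 z (n 6566411 z (n 6566411 z (n 6566411 z (n 6566411 z (n 6566411 z z)))))) z)) (n
 0 z z)))) (n 0x368ed19c2e898b9438e1ac470cd3071434329b8214dc609 (n 0 (n 279 (n 0 z (n 3282443 z
 (n 0 z z))) (n 255 (n 0 z (n 0 z (n 0 z (n 2 z (n 6623755 z (n 0 z (n 0 z z))))))) (n 9 (n 10 z
 (n 18 z (n 3212843 z (n 26 z z)))) (n 243 (n 0 z (n 0 z (n 0 z (n 0 z (n 2164283 z z))))) (n 1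
 (n 0 z (n 34 z (n 2164299 z (n 0 z (n 0 z z))))) (n 0 (n 0 z (n 6623755 z (n 0 z (n 0 z (n 0 z
 (n 0 z (n 42 z (n
 0x565343010384c84c840038dd7a085e76085f8218207a182082179b8638a081d7df7df8207a285f7e085f8e182186289e1001
 z (n 0 z (n 6623755 z (n 0 z (n 50 z (n 0 z (n 0 z (n 0 z (n 0 z (n
 0x65343120180ca686420781f86181f8608208208607a18208218218207e081f8208218208218608207e07e08608208201001
 z (n 0 z (n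
 0xaca686420781f86185e8607e07a08a07e17e186081f8627df85f85d82081f81f85f86085e8618217e181f0801 z
 (n 0 z (n 0 z (n 0 z (n 0 z (n 58 z (n 0 z (n 0 z (n 0 z (n 66 z z))))))))))))))))))))))))))))
 z)))))) (n 279 (n 0 (n 275 (n 0 z (n 0 z (n 0 z (n 0 z (n 0 z (n 0 z (n 0 z z))))))) (n 275 (n
 0 z (n 0 z (n 0 z (n 7741699 z (n 0 z (n 0 z (n 0 z z))))))) (n 275 (n 0 z (n 0 z (n 0 z (n 0 z
 (n 0 z (n 0 z (n 2 (n 1 z (n 1 z (n 1 z (n 1 z (n 1 z z))))) z))))))) (n 3 (n 0 z (n 0 z (n 0 z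
 (n 0 z (n 0 z (n 0 z (n 0 z (n 0 z z)))))))) (n 1 (n 0 z (n 0 z (n 0 z (n 0 z (n 0 z (n 0 z (n
 0 z (n 0 z (n 0 z z))))))))) (n 1 (n 0 z (n 0 z (n 0 z (n 2 (n 0 z (n 0 z z)) (n 0 z (n 0 z (n
 0 z (n 0 z (n 0 z z))))))))) (n 1 (n 0 z (n 0 z (n 0 z (n 0 z (n 0 z (n 0 z (n 0 z (n 0 z (n 0
 z z))))))))) (n 1 (n 0 z (n 0 z (n 0 z (n 0 z (n 0 z (n 0 z (n 0 z (n 0 z (n 7677515 z
 z))))))))) z)))))))) (n 0 (n 0 z (n 0 z (n 51 (n 0 z (n 0 z (n 0 z (n 0 z (n 0 z (n 0 z (n 0 z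
 z))))))) (n 49 (n 0 z (n 0 z (n 0 z (n 0 z (n 0 z (n 0 z (n 0 z (n 0 z (n 0 z z))))))))) (n 49
 (n 0 z (n 0 z (n 0 z (n 0 z (n 0 z (n 0 z (n 0 z (n 0 z (n 0 z z))))))))) (n 49 (n 0 z (n 0 z
 (n 0 z (n 0 z (n 0 z (n 0 z (n 2 (n 0 z z) (n 0 z (n 0 z z))))))))) (n 49 (n 0 z (n 0 z (n 0 z
 (n 0 z (n 0 z (n 0 z (n 0 z (n 0 z (n 2 z z))))))))) z))))))) (n 0 (n 0 z (n 3 (n 7741699 z (n
 0 z (n 0 z (n 0 z (n 0 z (n 0 z (n 0 z z))))))) (n 1 (n 0 z (n 7741699 z (n 0 z (n 0 z (n 0 z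
 (n 0 z z)))))) (n 1 (n 0 z (n 0 z (n 0 z (n 0 z (n 2 (n 0 z (n 0 z z)) (n 0 z z)))))) (n 1 (n 0
 z (n 0 z (n 0 z (n 0 z (n 0 z (n 0 z z)))))) (n 1 (n 0 z (n 0 z (n 0 z (n 0 z (n 0 z (n 2 z
 z)))))) z)))))) (n 0 (n 15 (n 0 z (n 2 (n 1 z (n 1 z (n 1 z (n 2 (n 0 z (n 0 z (n 0 z (n 0 z (n
 0 z (n 0 z z)))))) z)))) (n 0 z (n 0 z (n 0 z z))))) (n 13 (n 0 z (n 0 z (n 0 z (n 0 z (n 0 z
 (n 0 z (n 0 z z))))))) (n 13 (n 0 z (n 0 z (n 0 z (n 0 z (n 0 z (n 0 z (n 0 z z))))))) (n 13 (n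
 0 z (n 0 z (n 0 z (n 0 z (n 0 z (n 0 z (n 2 (n 0 z z) z))))))) (n 13 (n 0 z (n 0 z (n 0 z (n 0
 z (n 7754803 z (n 0 z (n 0 z z))))))) z))))) (n 0 (n 53 (n 0 z (n 0 z (n 0 z (n 0 z (n 0 z (n 0
 z (n 0 z (n 0 z (n 0 z (n 0 z (n 0 z (n 0 z (n 0 z (n 0 z (n 0 z (n 0 z (n 0 z (n 0 z
 z)))))))))))))))))) (n 53 (n 0 z (n 0 z (n 0 z (n 0 z (n 0 z (n 0 z (n 0 z (n 0 z (n 0 z (n 0 z
 (n 0 z (n 0 z (n 0 z (n 0 z (n 0 z (n 2 (n 0 z (n 0 z z)) (n 0 z (n 0 z z)))))))))))))))))) (n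
 53 (n 0 z (n 0 z (n 0 z (n 0 z (n 0 z (n 0 z (n 0 z (n 0 z (n 0 z (n 0 z (n 0 z (n 0 z (n 0 z
 (n 0 z (n 0 z (n 0 z (n 0 z (n 0 z z)))))))))))))))))) (n 53 (n 0 z (n 0 z (n 0 z (n 0 z (n 0 z
 (n 0 z (n 0 z (n 0 z (n 0 z (n 0 z (n 0 z (n 0 z (n 0 z (n 0 z (n 0 z (n 0 z (n 0 z (n 7677515
 z z)))))))))))))))))) z)))) (n 0 (n 0 z (n 0 z (n 0 z z))) (n 0 (n 0 z (n 0 z z)) (n 0 (n 0 z
 z) (n 0 z z))))))))) (n 0 (n 0 z (n 1 (n 6623755 z (n 3282443 z (n 3282443 z (n 3282443 z (n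
 3282443 z (n 3282443 z z)))))) (n 0 z z))) (n 0 z z)))) (n
 0x266e50f4d6870c3708618c66e4ce0854cc16a3a094e60e2 (n 0 (n 323 (n 3282443 z (n 0 z (n 0 z (n 0 z
 z)))) (n 255 (n 3278363 z (n 0 z (n 0 z (n 0 z z)))) (n 9 (n 0 z (n 0 z (n 2 z (n 0 z (n 10 z
 (n 18 z (n 3212843 z (n 0 z (n 0 z (n 0 z (n 0 z (n 0 z (n 0 z (n 0 z (n 26 z z)))))))))))))))
 (n 27 (n 0 z (n 0 z (n 0 z (n 0 z (n 0 z (n 0 z (n 2164283 z z))))))) (n 1 (n 0 z (n 0 z (n 34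
 z (n 0 z (n 0 z (n 0 z (n 42 z (n 6563131 z z)))))))) (n 0 (n 0 z (n 50 z (n 0 z (n 58 z (n 66
 z (n 2164315 z z)))))) z)))))) (n 323 (n 0 (n 0 z (n 0 z (n 0 z (n 249 (n 0 z (n 0 z (n 0 z (n
 0 z (n 0 z (n 0 z (n 0 z z))))))) (n 249 (n 0 z (n 2 (n 1 z (n 2 (n 0 z (n 0 z (n 0 z (n 0 z (n
 0 z (n 0 z z)))))) (n 1 z z))) (n 0 z (n 0 z (n 0 z (n 0 z (n 0 z z))))))) (n 13 (n 0 z (n 0 z
 (n 0 z (n 0 z (n 0 z (n 0 z (n 0 z z))))))) (n 13 (n 0 z (n 0 z (n 7754803 z (n 0 z (n 0 z (n 0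
 z (n 0 z z))))))) (n 13 (n 0 z (n 0 z (n 0 z (n 0 z (n 0 z (n 0 z (n 0 z z))))))) z)))))))) (n
 0 (n 0 z (n 0 z (n 297 (n 0 z (n 0 z (n 0 z (n 0 z (n 0 z (n 0 z (n 0 z (n 0 z (n 0 z (n 0 z (n
 0 z (n 0 z (n 0 z (n 0 z (n 0 z (n 0 z (n 0 z (n 0 z (n 0 z (n 0 z (n 0 z (n 0 z (n 0 z (n
 6629147 z (n 0 z (n 0 z (n 0 z (n 0 z z)))))))))))))))))))))))))))) (n 297 (n 0 z (n 0 z (n 0 z
 (n 0 z (n 0 z (n 0 z (n 0 z (n 0 z (n 0 z (n 0 z (n 0 z (n 7741699 z (n 0 z (n 0 z (n 0 z (n 0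
 z (n 0 z (n 0 z (n 0 z (n 0 z (n 0 z (n 0 z (n 0 z (n 0 z (n 0 z (n 0 z (n 0 z (n 0 z
 z)))))))))))))))))))))))))))) (n 1 (n 0 z (n 0 z (n 0 z (n 0 z (n 0 z (n 0 z (n 7741699 z (n 0
 z (n 0 z (n 0 z (n 0 z (n 0 z (n 0 z (n 0 z (n 0 z (n 0 z (n 0 z (n 0 z (n 0 z (n 0 z (n 0 z (n
 0 z (n 0 z (n 0 z (n 0 z (n 0 z (n 0 z (n 0 z z)))))))))))))))))))))))))))) (n 1 (n 0 z (n 0 z
 (n 0 z (n 0 z (n 0 z (n 0 z (n 0 z (n 0 z (n 0 z (n 0 z (n 0 z (n 0 z (n 0 z (n 0 z (n 0 z (n 0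
 z (n 0 z (n 0 z (n 0 z (n 0 z (n 0 z (n 0 z (n 0 z (n 0 z (n 0 z (n 0 z (n 0 z (n 0 z
 z)))))))))))))))))))))))))))) (n 1 (n 0 z (n 0 z (n 0 z (n 0 z (n 0 z (n 0 z (n 0 z (n 0 z (n 0
 z (n 0 z (n 0 z (n 2 z (n 0 z (n 0 z (n 0 z (n 0 z (n 0 z (n 0 z (n 0 z (n 0 z (n 0 z (n 0 z (n
 0 z (n 0 z (n 0 z (n 0 z (n 0 z (n 0 z z)))))))))))))))))))))))))))) z))))))) (n 0 (n 0 z (n
 297 (n 0 z (n 0 z (n 0 z (n 0 z (n 0 z (n 0 z (n 0 z (n 0 z (n 0 z z))))))))) (n 297 (n 0 z (n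
 0 z (n 0 z (n 2 (n 1 z (n 2 (n 0 z (n 0 z (n 0 z (n 0 z (n 0 z (n 0 z z)))))) (n 2 (n 0 z (n 0
 z (n 0 z (n 0 z (n 0 z (n 0 z z)))))) z))) (n 0 z (n 0 z (n 0 z (n 0 z (n 0 z z))))))))) (n 241
 (n 2 (n 0 z (n 0 z z)) (n 0 z (n 0 z (n 0 z (n 0 z (n 0 z (n 0 z z))))))) (n 241 (n 0 z (n 0 z
 (n 0 z (n 0 z (n 0 z (n 0 z (n 0 z z))))))) (n 241 (n 0 z (n 0 z (n 2 z (n 0 z (n 0 z (n 0 z (n
 0 z z))))))) z)))))) (n 0 (n 3 (n 2 (n 0 z (n 1 z (n 1 z (n 1 z z)))) (n 0 z (n 0 z (n 0 z (n 0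
 z (n 0 z (n 0 z z))))))) (n 3 (n 0 z (n 0 z (n 0 z (n 0 z (n 0 z (n 0 z (n 0 z z))))))) (n 49
 (n 0 z (n 0 z (n 0 z (n 0 z (n 0 z (n 0 z (n 0 z (n 0 z (n 0 z z))))))))) (n 49 (n 0 z (n 0 z
 (n 2 (n 0 z z) (n 0 z (n 0 z (n 0 z (n 0 z (n 0 z (n 0 z z))))))))) (n 49 (n 0 z (n 0 z (n 0 z
 (n 0 z (n 0 z (n 0 z (n 0 z (n 0 z (n 0 z z))))))))) z))))) (n 0 (n 0 z (n 1 (n 0 z (n 0 z (n 0
 z (n 0 z (n 0 z (n 0 z (n 2 (n 0 z (n 0 z z)) (n 0 z (n 0 z z))))))))) (n 1 (n 0 z (n 0 z (n 0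
 z (n 0 z (n 0 z (n 0 z (n 0 z (n 0 z (n 7754803 z z))))))))) (n 1 (n 0 z (n 0 z (n 0 z (n 0 z
 (n 0 z (n 0 z (n 0 z (n 0 z (n 0 z z))))))))) z)))) (n 0 (n 73 (n 0 z (n 0 z (n 0 z (n 0 z (n 0
 z (n 0 z (n 0 z (n 0 z (n 0 z (n 0 z (n 0 z (n 0 z (n 0 z (n 0 z (n 0 z (n 0 z (n 0 z (n 0 z
 z)))))))))))))))))) (n 73 (n 0 z (n 0 z (n 0 z (n 0 z (n 0 z (n 0 z (n 0 z (n 0 z (n 0 z (n 0 z
 (n 0 z (n 0 z (n 0 z (n 0 z (n 0 z (n 0 z (n 0 z (n 7677515 z z)))))))))))))))))) (n 73 (n 0 z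
 (n 0 z (n 0 z (n 0 z (n 0 z (n 0 z (n 0 z (n 0 z (n 0 z (n 0 z (n 0 z (n 0 z (n 2 z (n 0 z (n 0
 z (n 0 z (n 0 z (n 0 z z)))))))))))))))))) z))) (n 0 (n 0 z (n 0 z z)) (n 0 (n 0 z z) (n 0 z
 z))))))))) (n 0 (n 1 (n 3282443 z (n 3282443 z (n 3282443 z (n 3282443 z (n 3282443 z (n
 3282443 z z)))))) (n 0 z (n 0 z (n 0 z z)))) (n 0 z z)))) (n
 0xac936864996824bb58251a85aa96224ca0d2b5904d2d044b34336b240 (n 0x2d649 (n 467 (n 3282443 z (n 2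
 z (n 0 z (n 0 z (n 0 z z))))) (n 33 (n 10 z (n 0 z (n 0 z (n 3278363 z (n 18 z (n 26 z (n 0 z
 (n 0 z z)))))))) (n 131 (n 34 z (n 42 z (n 0 z (n 0 z (n 3212843 z (n 50 z (n 58 z (n
 0x2ca8ca80037e179f8de8608227e27e27a27a085f81f8237e17df9207df85e81f7a08618a08e07e28217e00801 z
 (n 0xca8ca80038207df89f81f8617e17e182082182085f8208217e08607e085f8207e086086085f8218208200801 z
 z))))))))) (n 27 (n 2164283 z (n 0 z (n 66 z z))) (n 1 (n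
 0x2c6307e07d68008447fe80177982a74e85278c88e80189f69380f7d98c57a082479d7968a07498b38e87fa95c8426738a48b07aa76c8f577e8be7207d48317a680b7ca8388e47d18da73c7988390051
 z (n 0 z (n
 0x2c6207e07d68008447fe80177982a74e85278c88e80189f69380f7d98c57a082479d7968a07498b38e87fa95c8426738a48b07aa76c8f577e8be7207d48317a680b7ca8388e47d18da73c7988390051
 z (n 0 z (n 0 z (n 0 z (n 0 z (n 74 z (n 6558507 z z))))))))) (n 0 (n 0 z (n 2164315 z (n 0 z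
 (n 82 z (n 0 z (n 0 z (n 0 z (n 0 z z)))))))) z)))))) (n 27 (n 0 (n 67 (n 2 (n 0 z (n 0 z (n 2
 (n 0 z (n 0 z (n 0 z (n 0 z (n 0 z (n 0 (n 3708 z z) z)))))) (n 2 (n 0 z (n 0 z (n 0 z (n 0 z
 (n 0 z (n 0 (n 3708 z z) z)))))) (n 1 z (n 1 z (n 1 z (n 1 z (n 1 z z))))))))) (n 0 z (n 0 z (n
 0 z (n 0 z (n 0 z (n 0 z (n 0 z (n 0 z (n 0 z (n 0 z (n 0 z (n 0 z (n 0 z (n 0 z (n 0 z (n 0 z
 (n 0 z (n 0 z (n 0 z (n 0 z z))))))))))))))))))))) (n 67 (n 0 z (n 0 z (n 0 z (n 0 z (n 0 z (n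
 0 z (n 0 z (n 0 z (n 0 z (n 0 z (n 0 z (n 0 z (n 0 z (n 0 z (n 0 z (n 0 z (n 0 z (n 2 (n 0 z (n
 2 (n 0 z (n 0 z (n 0 z (n 0 z (n 0 z (n 0 z z)))))) (n 2 (n 0 z (n 0 z (n 0 z (n 0 z (n 0 z (n
 0 z z)))))) (n 2 (n 0 z (n 0 z (n 0 z (n 0 z (n 0 z (n 0 (n 8802627 z z) z)))))) (n 2 (n 0 z (n
 0 z (n 0 z (n 0 z (n 0 z (n 0 (n 8802627 z z) z)))))) (n 1 z (n 1 z (n 1 z z)))))))) (n 0 z (n
 0 z (n 0 z z))))))))))))))))))))) (n 67 (n 0 z (n 0 z (n 0 z (n 0 z (n 0 z (n 0 z (n 0 z (n 0 z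
 (n 0 z (n 0 z (n 0 z (n 0 z (n 0 z (n 0 z (n 0 z (n 0 z (n 0 z (n 0 z (n 0 z (n 0 z (n 0 z
 z))))))))))))))))))))) (n 927 (n 0 z (n 2 (n 0 z (n 0 z (n 0 z (n 1 z (n 1 z (n 1 z z)))))) (n
 0 z (n 0 z (n 0 z (n 0 z (n 0 z (n 0 z (n 0 z (n 0 z (n 0 z z))))))))))) (n 927 (n 2 (n 0 z (n
 0 z (n 1 z (n 1 z (n 1 z z))))) (n 0 z (n 0 z (n 0 z (n 0 z (n 0 z (n 0 z (n 0 z (n 0 z (n 0 z
 (n 0 z z))))))))))) (n 927 (n 0 z (n 0 z (n 0 z (n 0 z (n 0 z (n 0 z (n 0 z (n 0 z (n 0 z (n 0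
 z (n 0 z z))))))))))) (n 927 (n 0 z (n 0 z (n 0 z (n 0 z (n 0 z (n 0 z (n 0 z (n 0 z (n 0 z (n
 0 z (n 0 z z))))))))))) (n 11 (n 0 z (n 0 z (n 0 z (n 0 z (n 0 z z))))) (n 3 (n 0 z (n 0 z (n 0
 z (n 0 z (n 0 z (n 0 z (n 0 z (n 0 z (n 0 z (n 0 z (n 0 z (n 0 z (n 0 z (n 0 z (n 0 z (n 0 z (n
 0 z (n 0 z z)))))))))))))))))) (n 1 (n 0 z (n 0 z (n 0 z (n 0 z (n 0 z (n 0 z (n 0 z (n 0 z (n
 0 z (n 0 z (n 0 z z))))))))))) z)))))))))) (n 0 (n 0 z (n 0 z (n 807 (n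
 0xcc7648007f38008568008007a080e7b18057738777fd8736c283e7f486a7538767477e58797808998db7ff8dc83e70886b8597ed7c689678987874c7fa8207a98147c78078b67ae8c079f77b8410051
 z (n 2 (n 0 z (n 0 z (n 0 z (n 1 z (n 1 z (n 1 z z)))))) (n 0 z (n 0 z (n 0 z (n 0 z (n 0 z (n
 0 z (n 0 z (n 0 z (n 0 z (n 0 z (n 0 z (n 0 z (n 0 z (n 0 z (n 0 z (n 0 z (n 0 z (n 0 z (n 0 z
 (n 0 z (n 0 z (n 0 z (n 0 z (n 0 z (n 0 z (n 0 z (n 0 z (n 0 z (n 0 z (n 0 z (n 0 z (n 0 z (n 0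
 z z))))))))))))))))))))))))))))))))))) (n 807 (n 0 z (n 0 z (n 0 z (n 0 z (n 0 z (n 0 z (n 0 z
 (n 0 z (n 0 z (n 0 z (n 0 z (n 0 z (n 0 z (n 0 z (n 0 z (n 0 z (n 0 z (n 0 z (n 0 z (n 0 z (n 0
 z (n 0 z (n 0 z (n 0 z (n 0 z (n 0 z (n 0 z (n 0 z (n 0 z (n 0 z (n 0 z (n 0 z (n 0 z (n 0 z (n
 0 z z))))))))))))))))))))))))))))))))))) (n 807 (n 0 z (n 0 z (n 0 z (n 0 z (n 0 z (n 0 z (n 0
 z (n 0 z (n 0 z (n 0 z (n 0 z (n 0 z (n 0 z (n 0 z (n 0 z (n 0 z (n 0 z (n 2 (n 0 z (n 1 z (n 1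
 z (n 1 z z)))) (n 0 z (n 0 z (n 0 z (n 0 z (n 0 z (n 0 z (n 0 z (n 0 z (n 0 z (n 0 z (n 0 z (n
 0 z (n 0 z (n 0 z (n 0 z (n 0 z (n 0 z z))))))))))))))))))))))))))))))))))) (n 807 (n 0 z (n 0
 z (n 0 z (n 0 z (n 0 z (n 0 z (n 0 z (n 0 z (n 0 z (n 0 z (n 0 z (n 0 z (n 0 z (n 0 z (n 2 (n 1
 z (n 1 z (n 1 z z))) (n 0 z (n 0 z (n 0 z (n 0 z (n 0 z (n 0 z (n 0 z (n 0 z (n 0 z (n 0 z (n 0
 z (n 0 z (n 0 z (n 0 z (n 0 z (n 0 z (n 0 z (n 0 z (n 0 z (n 0 z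
 z))))))))))))))))))))))))))))))))))) (n 75 (n 0 z (n 0 z (n 0 z (n 0 z (n 0 z (n 0 z (n 0 z (n
 0 z (n 0 z (n 0 z (n 0 z (n 0 z (n 0 z (n 0 z (n 0 z (n 0 z (n 0 z (n 0 z (n 0 z (n 0 z (n 0 z
 (n 0 z (n 0 z (n 0 z (n 0 z (n 0 z (n 0 z (n 2 (n 1 z (n 1 z z)) (n 0 z (n 0 z (n 0 z (n 0 z
 z)))))))))))))))))))))))))))))))) (n 805 (n 2 (n 1 z z) (n 0 z (n 0 z (n 0 z (n 0 z (n 0 z (n 0
 z z))))))) (n 773 (n 0 z (n 0 z (n 0 z (n 2 z (n 0 z (n 0 z (n 0 z (n 0 z (n 0 z (n 0 z (n 0 z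
 (n 0 z (n 0 z (n 0 z (n 0 z (n 0 z (n 0 z (n 0 z (n 0 z (n 0 z (n 0 z (n 0 z (n 0 z (n 0 z (n 0
 z (n 0 z (n 0 z (n 0 z (n 0 z z))))))))))))))))))))))))))))) z))))))))) (n 0 (n 0 z (n 391 (n 0
 z (n 0 z (n 2 (n 0 z (n 0 z (n 0 z (n 1 z (n 1 z (n 1 z z)))))) (n 0 z (n 0 z (n 0 z (n 0 z (n
 0 z z)))))))) (n 391 (n 0 z (n 0 z (n 0 z (n 0 z (n 0 z (n 0 z (n 0 z (n 0 z z)))))))) (n 391
 (n 2 (n 0 z (n 1 z (n 2 (n 0 z (n 0 z (n 0 (n 8859915 z z) (n 0 (n 8859915 z z) (n 0 z (n 0 (n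
 8859915 z (n 8859915 z z)) z)))))) (n 2 (n 0 z (n 0 z (n 0 (n 8868163 z z) (n 0 (n 8868163 z z)
 (n 0 z (n 0 (n 8868163 z (n 8868163 z z)) z)))))) z)))) (n 0 z (n 0 z (n 0 z (n 0 z (n 0 z (n 0
 z (n 0 z z)))))))) (n 391 (n 0 z (n 0 z (n 0 z (n 0 z (n 2 (n 1 z (n 1 z (n 1 z z))) (n 0 z (n
 0 z (n 0 z z)))))))) (n 55 (n 0 z (n 0 z (n 0 z (n 2 (n 1 z (n 1 z z)) (n 0 z (n 0 z z)))))) (n
 51 (n 0 z (n 0 z (n 0 z (n 0 z (n 0 z (n 0 z (n 2 (n 1 z z) (n 0 z (n 0 z (n 0 z z)))))))))) (n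
 49 (n 0 z (n 0 z (n 0 z (n 0 z (n 0 z (n 0 z (n 0 z (n 0 z (n 0 z (n 0 z (n 0 z (n 0 z (n 0 z
 (n 0 z (n 0 z (n 0 z (n 0 z (n 0 z (n 0 z (n 0 z (n 0 z (n 0 z (n 0 z (n 0 z (n 0 z (n 2 z (n 0
 z (n 0 z (n 0 z (n 0 z (n 0 z (n 0 z (n 0 z (n 0 z (n 0 z (n 0 z (n 0 z (n 0 z (n 0 z (n 0 z (n
 0 z z))))))))))))))))))))))))))))))))))))))))) z)))))))) (n 0 (n 19 (n 0 z (n 0 z (n 0 z (n 0 z
 (n 0 z (n 0 z (n 0 z (n 0 z (n 2 (n 0 z (n 0 z (n 0 z (n 1 z (n 1 z (n 1 z z)))))) (n 0 z (n 0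
 z (n 0 z (n 0 z (n 0 z (n 0 z (n 0 z (n 0 z (n 0 z (n 0 z (n 0 z (n 0 z (n 0 z (n 0 z
 z))))))))))))))))))))))) (n 19 (n 0 z (n 0 z (n 0 z (n 0 z (n 0 z (n 0 z (n 0 z (n 0 z (n 0 z
 (n 0 z (n 0 z (n 0 z (n 0 z (n 0 z (n 0 z (n 2 (n 0 z (n 0 z (n 1 z (n 1 z (n 1 z z))))) (n 0 z
 (n 0 z (n 0 z (n 0 z (n 0 z (n 0 z (n 0 z z))))))))))))))))))))))) (n 19 (n 0 z (n 0 z (n 0 z
 (n 0 z (n 0 z (n 0 z (n 0 z (n 0 z (n 0 z (n 0 z (n 0 z (n 0 z (n 0 z (n 0 z (n 0 z (n 0 z (n 0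
 z (n 0 z (n 0 z (n 0 z (n 0 z (n 0 z (n 0 z z))))))))))))))))))))))) (n 19 (n 0 z (n 0 z (n 0 z
 (n 0 z (n 0 z (n 0 z (n 0 z (n 0 z (n 0 z (n 0 z (n 0 z (n 0 z (n 0 z (n 0 z (n 0 z (n 0 z (n 0
 z (n 0 z (n 0 z (n 0 z (n 0 z (n 0 z (n 0 z z))))))))))))))))))))))) (n 55 (n 0 z (n 0 z (n 0 z
 (n 0 z (n 0 z (n 0 z (n 0 z (n 0 z (n 0 z (n 0 z (n 0 z (n 0 z (n 0 z (n 0 z (n 0 z (n 0 z (n 0
 z (n 0 z (n 0 z (n 0 z (n 0 z (n 0 z (n 0 z (n 0 z (n 0 z (n 0 z (n 0 z (n 0 z (n 0 z (n 0 z (n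
 0 z z))))))))))))))))))))))))))))))) (n 3 (n 0 z (n 0 z (n 0 z (n 0 z (n 0 z (n 0 z (n 0 z
 z))))))) (n 1 (n 0 z (n 0 z (n 0 z (n 0 z (n 0 z (n 0 z (n 0 z (n 0 z (n 0 z (n 0 z (n 0 z (n 0
 z (n 0 z (n 0 z (n 0 z (n 0 z (n 0 z (n 0 z (n 0 z (n 0 z (n 0 z (n 0 z (n 0 z (n 0 z (n 0 z (n
 0 z (n 0 z (n 0 z (n 0 z (n 0 z (n 0 z (n 0 z (n 0 z (n 0 z (n 0 z (n 0 z
 z)))))))))))))))))))))))))))))))))))) z))))))) (n 0 (n 0 z (n 0 z (n 0 z (n 627 (n 0 z (n 0 z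
 (n 0 z (n 0 z (n 0 z (n 2 (n 1 z (n 1 z z)) (n 0 z (n 0 z (n 0 z (n 0 z (n 0 z z))))))))))) (n
 15 (n 0 z (n 0 z (n 0 z (n 0 z (n 0 z (n 0 z (n 0 z (n 0 z (n 0 z (n 0 z (n 2 (n 1 z z) (n 0 z
 (n 0 z (n 0 z (n 0 z (n 0 z (n 0 z (n 0 z (n 0 z (n 0 z (n 0 z (n 0 z (n 0 z (n 0 z (n 0 z (n 0
 z (n 0 z (n 0 z (n 0 z z))))))))))))))))))))))))))))) (n 13 (n 0 z (n 0 z (n 0 z (n 0 z (n 0 z
 (n 0 z (n 0 z (n 0 z (n 0 z (n 0 z (n 0 z (n 2 z (n 0 z z))))))))))))) z)))))) (n 0 (n 0 z (n 0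
 z (n 627 (n 0 z (n 0 z (n 0 z (n 2 (n 1 z (n 1 z z)) (n 0 z (n 0 z (n 0 z (n 0 z (n 0 z (n 0 z
 z)))))))))) (n 15 (n 0 z (n 0 z (n 0 z (n 0 z (n 0 z (n 0 z (n 0 z (n 0 z (n 0 z (n 2 (n 1 z z)
 (n 0 z z))))))))))) (n 13 (n 0 z (n 0 z (n 0 z (n 0 z (n 0 z (n 0 z (n 2 z (n 0 z (n 0 z (n 0 z
 z)))))))))) z))))) (n 0 (n 0 z (n 285 (n 0 z (n 0 z (n 0 z (n 0 z (n 0 z (n 0 z (n 0 z (n 0 z
 (n 0 z (n 0 z (n 0 z (n 0 z (n 0 z (n 0 z (n 0 z (n 0 z (n 0 z (n 0 z (n 0 z (n 0 z (n 0 z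
 z))))))))))))))))))))) (n 1373 (n 0 z (n 0 z (n 0 z (n 0 z (n 0 z (n 0 z (n 0 z (n 0 z
 z)))))))) (n 17 (n 0 z (n 0 z (n 0 z (n 0 z (n 0 z z))))) z)))) (n 0 (n 251 (n 0 z (n 0 z (n 0
 z (n 0 z (n 0 z (n 0 z (n 0 z (n 0 z (n 0 z (n 0 z (n 0 z (n 0 z (n 0 z (n 0 z (n 0 z (n 0 z (n
 0 z (n 0 z (n 0 z (n 0 z (n 0 z (n 0 z z)))))))))))))))))))))) (n 243 (n 0 z (n 0 z (n 0 z (n 0
 z (n 0 z (n 0 z (n 0 z (n 0 z (n 0 z (n 0 z z)))))))))) (n 1 (n 0 z (n 0 z (n 0 z (n 0 z (n 0 z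
 (n 0 z (n 0 z (n 0 z (n 0 z (n 0 z (n 0 z (n 0 z (n 0 z z))))))))))))) z))) (n 0 (n 99 (n 0 z
 (n 0 z (n 0 z (n 0 z (n 0 z (n 0 z (n 0 z (n 0 z (n 0 z (n 0 z (n 0 z (n 0 z z)))))))))))) (n
 109 (n 0 z (n 0 z (n 0 z (n 0 z (n 0 z (n 0 z (n 0 z (n 0 z z)))))))) z)) (n 0 (n 145 (n 0 z (n
 0 z (n 0 z (n 0 z (n 0 z (n 0 z (n 0 z (n 0 z (n 0 z (n 0 z (n 0 z (n 0 z (n 0 z (n 0 z
 z)))))))))))))) z) (n 0 z z))))))))))) (n 0 (n 1 (n 2164283 z (n 2164283 z (n 2164283 z (n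
 6558507 z (n 2164283 z (n 2164283 z z)))))) (n 0 z (n 1 (n 3280995 z (n 3282443 z (n 2 z (n
 3740 z (n 3740 z (n 3740 z z)))))) z))) (n 0 (n 0x74b1128ca0d274b411a59a19 (n 0 (n 0 (n 7741699
 z (n 7741699 z (n 7741699 z (n 7741699 z (n 7741699 z (n 7741699 z z)))))) z) (n 0 (n 467 (n 1
 (n 7475299 z (n 3282699 z (n 3282699 z (n 3282699 z (n 3282699 z (n 3282699 z z)))))) (n 1 (n
 7754051 z (n 7754051 z (n 7754051 z (n 7754051 z (n 7754051 z (n 7754051 z z)))))) (n 0 z (n 0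
 z (n 0 z z))))) (n 1 (n 1 (n 1228 z (n 1228 z (n 2 z (n 1228 z (n 7754051 z (n 1228 z z))))))
 (n 1 (n 1228 z (n 1228 z (n 1228 z (n 1228 z (n 7754051 z (n 1228 z z)))))) (n 1 (n 7741699 z
 (n 7741699 z (n 7741699 z (n 7741699 z (n 7741699 z (n 7741699 z z)))))) (n 0 z (n 1 (n 1228 z
 (n 1228 z (n 1228 z (n 1228 z (n 7754051 z (n 1228 z z)))))) (n 1 (n 10 z (n 1228 z (n 1228 z
 (n 6555451 z (n 7754051 z (n 1228 z z)))))) (n 1 (n 7607083 z (n 7607083 z (n 7607083 z (n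
 7607083 z (n 7754051 z (n 7607083 z z)))))) z))))))) (n 131 (n 1 (n 7475299 z (n 7476747 z (n
 7603739 z (n 18 z (n 3724 z (n 3724 z z)))))) (n 1 (n 7475299 z (n 7476747 z (n 26 z (n 7603739
 z (n 3724 z (n 3724 z z)))))) (n 0 z (n 0 z (n 1 (n 7741699 z (n 7741699 z (n 7741699 z (n
 7741699 z (n 7741699 z (n 7741699 z z)))))) (n 1 (n 7754051 z (n 7754051 z (n 7754051 z (n
 7754051 z (n 7754051 z (n 7754051 z z)))))) (n 1 (n 7741699 z (n 7741699 z (n 7741699 z (n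
 7741699 z (n 7741699 z (n 7741699 z z)))))) (n 1 (n 7475299 z (n 6631795 z (n 7476747 z (n
 0xecaeca8038207e08208208208218208208208208208208207a08607e08a085f8208608208208608208200801 z (n
 3724 z (n 3724 z z)))))) (n 1 (n 7475299 z (n 7603739 z (n
 0xecaeca8038207e08208208207e18208208208208208208207a08607e086081f8208608208208218208200801 z (n
 7476747 z (n 3724 z (n 3724 z z)))))) z))))))))) (n 27 (n 1 (n 7475299 z (n 7745803 z (n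
 7745803 z (n 7745803 z (n 7745803 z (n 7745803 z z)))))) (n 0 z (n 1 (n 7741699 z (n 7741699 z
 (n 7741699 z (n 7741699 z (n 7741699 z (n 7741699 z z)))))) z))) (n 81 (n 1 (n 4108 z (n 4108 z
 (n 7745803 z (n 1084 z (n 7733787 z (n 4108 z z)))))) (n 1 (n 4108 z (n 4108 z (n 7745803 z (n
 7603739 z (n 7733787 z (n 4108 z z)))))) (n 1 (n 7741699 z (n 7741699 z (n 7741699 z (n 7741699
 z (n 7741699 z (n 7741699 z z)))))) (n 0 z (n 1 (n 4108 z (n 12 z (n 7603739 z (n 7745803 z (n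
 7733787 z (n 4108 z z)))))) (n 1 (n 5445483 z (n 7745803 z (n 7603739 z (n 4108 z (n 4108 z (n
 4108 z z)))))) (n 1 (n 7607083 z (n 7607083 z (n 7745803 z (n 7733787 z (n 7603739 z (n 7607083
 z z)))))) z))))))) (n 103 (n 1 (n 5068 z (n 7607083 z (n 5068 z (n 5068 z (n 5068 z (n 5068 z
 z)))))) (n 1 (n 5068 z (n 7607083 z (n 5068 z (n 3213131 z (n 5068 z (n 5068 z z)))))) (n 1 (n
 7745803 z (n 7745803 z (n 7745803 z (n 7745803 z (n 7745803 z (n 7745803 z z)))))) (n 1 (n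
 7754051 z (n 7754051 z (n 7754051 z (n 7754051 z (n 7754051 z (n 7754051 z z)))))) (n 1 (n
 7754051 z (n 7754051 z (n 7754051 z (n 7754051 z (n 7754051 z (n 7754051 z z)))))) (n 1 (n 5068
 z (n 5068 z (n 5068 z (n 5068 z (n 7607083 z (n 5068 z z)))))) (n 1 (n 5068 z (n 7607083 z (n
 5068 z (n 5068 z (n 5068 z (n 5068 z z)))))) (n 0 z z)))))))) (n 27 (n 1 (n 7745803 z (n
 7745803 z (n 7745803 z (n 7745803 z (n 7745803 z (n 7745803 z z)))))) (n 0 z (n 1 (n 7741699 z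
 (n 7741699 z (n 7741699 z (n 7741699 z (n 7741699 z (n 7741699 z z)))))) z))) z))))))) (n 0 (n
 0 (n 0 z (n 0 z (n 0 z (n 0 z z)))) (n 0 (n 0 z (n 0 z (n 0 z z))) (n 0 (n 0 z (n 0 z z)) (n 0
 (n 0 z z) z)))) (n 0 (n 153 (n 0 (n 0 z (n 0 z (n 0 z (n 0 z z)))) (n 0 (n 0 z (n 0 z (n 0 z (n
 0 z z)))) (n 0 (n 0 z (n 0 z (n 0 z (n 0 z z)))) (n 0 (n 0 (n 7684995 z (n 8848939 z z)) (n 0
 (n 0x30a90a84077a082086181e82279f8a27e17618a47de7e17e18207a181e75d8a579e7a48a37dd7a28228210801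
 z (n
 0x2c8747e07d68008447fe80177982a74e85278c88e80189f69380f7d98c57a082479d7968a07498b38e87fa95c8426738a48b07aa76c8f577e8be7207d48317a680b7ca8388e47d18da73c7988390051
 z z)) (n 0 (n 8851507 z (n 8851507 z z)) (n 0 z z)))) (n 0 (n 0 (n 8848939 z (n 8848939 z z))
 (n 0 (n 0x148727e181f89f85f8207e08217a17a28218207df82189e81f7df7de8617a08218a189e8237e17e10041
 z (n
 0x648727e47fb8008318177f079f80a7908227938638058676c282080088079784e78e7df86d79d87a8cb80d8f481c6dc88285b7da7968ab79d8767667d68257ce7f37f08158da7cb8a977b7ac82e0051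
 z z)) (n 0 (n
 0x10caca680782182182081f7e07a08208217e186085f8208217e08a07df8208207e086086081f8217e08200801 z
 (n 0x10caca680782182182081f7e07a08208217e186085f8208217e08a07df8208207e086086081f8217e08200801
 z z)) (n 0 z z)))) (n 0 (n 0 z (n 0 z (n 0 z (n 0 z z)))) (n 0 (n 0 (n 8848939 z (n 8848939 z
 z)) (n 0 (n
 0x148727e181f89f85f8207e08217a17a28218207df82189e81f7df7de8617a08218a189e8237e17e10041 z (n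
 8783675 z z)) (n 0 (n
 0x8c8748007f88008378008007c28087cc8037a584c7fe8497358277f984479184c7897ef84e7ae86288c80088d8287618458387f47da8617b484d78d7fc8157c880d7db8058757cc87b7c27ab8290051
 z (n
 0x10cb0c68038217e085f85f8217a28217e17a186085f8217e179f8a07df85f8207a18a086089f8218208200801 z
 z)) (n 0 z z)))) (n 0 (n 0 z (n 0 z (n 0 z (n 0 z z)))) (n 0 (n 0 z (n 0 z (n 0 z (n 0 z z))))
 (n 0 (n 0 z (n 0 z (n 0 z (n 0 z z)))) (n 0 (n 0 z (n 0 z (n 0 z (n 0 z z)))) (n 0 (n 0 z (n 0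
 z (n 0 z (n 0 z z)))) (n 0 (n 0 z (n 0 z (n 0 z (n 0 z z)))) (n 0 (n 0 z (n 0 z (n 0 z (n 0 z
 z)))) (n 0 (n 0 z (n 0 z (n 0 z (n 0 z z)))) (n 0 (n 0 z (n 0 z (n 0 z (n 0 z z)))) (n 0 (n 0 z
 (n 0 z (n 0 z (n 0 z z)))) (n 0 (n 0 z (n 0 z (n 0 z (n 0 z z)))) (n 0 (n 0 z (n 0 (n
 0x148727e181f89f85f8207e08217a17a28218207df82189e81f7df7de8617a08218a189e8237e17e10041 z z) (n
 0 (n 0x148747e181f89f85f8207e08217a17a28218207df82189e81f7df7de8617a08218a189e8237e17e10041 z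
 z) (n 0 z z)))) (n 0 (n 0 z (n 0 z (n 0 (n
 0x148747e181f89f85f8207e08217a17a28218207df82189e81f7df7de8617a08218a189e8237e17e10041 z z) (n
 0 z z)))) (n 0 (n 0 (n 8795995 z z) (n 0 z (n 0 z (n 0 z z)))) z))))))))))))))))))))) (n 465 (n
 0 (n 0 z (n 0 z (n 0 z (n 0 z z)))) (n 0 (n 0 z (n 0 z (n 0 z (n 0 z z)))) (n 0 (n 0 z (n 0 z
 (n 0 z (n 0 z z)))) (n 0 (n 0 z (n 0 z (n 0 z (n 0 z z)))) (n 0 (n 0 z (n 0 z (n 0 (n 8523875 z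
 z) (n 0 z z)))) (n 0 (n 0 z (n 0 z (n 0 z (n 0 z z)))) (n 0 (n 0 (n 8783691 z z) (n 0 z (n 0 z
 (n 0 z z)))) (n 0 (n 0 z (n 0 z (n 0 z (n 0 z z)))) (n 0 (n 0 z (n 0 z (n 0 (n 8851507 z z) (n
 0 z z)))) (n 0 (n 0 z (n 0 z (n 0 z (n 0 z z)))) (n 0 (n 0 z (n 0 z (n 0 z (n 0 (n 8873043 z z)
 z)))) z))))))))))) (n 33 (n 0 (n 0 z (n 0 z (n 0 z (n 0 z z)))) (n 0 (n 0 z (n 0 z (n 0 z (n 0
 z z)))) (n 0 (n 0 z (n 0 z (n 0 z (n 0 z z)))) (n 0 (n 0 z (n 0 z (n 0 z (n 0 z z)))) (n 0 (n 0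
 (n 0x148737e181f89f85f8207e08217a17a28218207df82189e81f7df7de8617a08218a189e8237e17e10041 z z)
 (n 0 (n 8730475 z z) (n 0 z (n 0 z z)))) (n 0 (n 0 z (n 0 z (n 0 z (n 0 z z)))) (n 0 (n 0 z (n
 0 z (n 0 z (n 0 z z)))) (n 0 (n 0 z (n 0 z (n 0 z (n 0 z z)))) (n 0 (n 0 z (n 0 z (n 0 z (n 0 z
 z)))) (n 0 (n 0 z (n 0 z (n 0 z (n 0 z z)))) (n 0 (n 0 z (n 0 z (n 0 z (n 0 z z)))) (n 0 (n 0
 (n 8525323 z (n 8525323 z z)) (n 0 z (n 0 z (n 0 z z)))) (n 0 (n 0 z (n 0 z (n 0 z (n 0 z z))))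
 (n 0 (n 0 (n
 0x30eb0e8c078208608208208208208608208208208208208608208208208208208208208208208208208200801 z
 z) (n 0 z (n 0 z (n 0 z z)))) (n 0 (n 0 z (n 0 z (n 0 z (n 0 z z)))) (n 0 (n 0 z (n 0 z (n 0 z
 (n 0 z z)))) (n 0 (n 0 z (n 0 (n 8873043 z z) (n 0 z (n 0 z z)))) (n 0 (n 0 z (n 0 z (n 0 z (n
 0 z z)))) (n 0 (n 0 z (n 0 z (n 0 z (n 0 (n
 0x148747e282085f85f8207e08217e17e286185f7e082085f85f7de7e086179f86086185e8617e18610041 z z)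
 z)))) (n 0 (n 0 z (n 0 z (n 0 z (n 0 z z)))) (n 0 (n 0 (n 8795995 z z) (n 0 z (n 0 z (n 0 z
 z)))) (n 0 (n 0 z (n 0 z (n 0 z (n 0 z z)))) (n 0 (n 0 z (n 0 z (n 0 z (n 0 z z))))
 z))))))))))))))))))))))) (n 395 (n 0 (n 0 z (n 0 z (n 0 z (n 0 z z)))) (n 0 (n 0 z (n 0 z (n 0
 z (n 0 z z)))) (n 0 (n 0 z (n 0 z (n 0 z (n 0 z z)))) (n 0 (n 0 z (n 0 z (n 0 z (n 0 z z)))) (n
 0 (n 0 z (n 0 z (n 0 (n 8730395 z (n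
 0x648217e47fb8008318177f079f80a7908227938638058676c282080088079784e78e7df86d79d87a8cb80d8f481c6dc88285b7da7968ab79d8767667d68257ce7f37f08158da7cb8a977b7ac82e0051
 z z)) (n 0 z z)))) z))))) (n 33 (n 0 (n 0 z (n 0 z (n 0 z (n 0 z z)))) (n 0 (n 0 z (n 0 z (n 0
 z (n 0 z z)))) (n 0 (n 0 z (n 0 z (n 0 z (n 0 z z)))) (n 0 (n 0 z (n 0 z (n 0 z (n 0 z z)))) (n
 0 (n 0 z (n 0 z (n 0 z (n 0 z z)))) (n 0 (n 0 z (n 0 z (n 0 z (n 0 z z)))) (n 0 (n 0 z (n 0 z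
 (n 0 z (n 0 z z)))) (n 0 (n 0 z (n 0 z (n 0 z (n 0 z z)))) (n 0 (n 0 z (n 0 z (n 0 z (n 0 z
 z)))) (n 0 (n 0 z (n 0 z (n 0 z (n 0 z z)))) (n 0 (n 0 z (n 0 z (n 0 z (n 0 z z)))) (n 0 (n 0 z
 (n 0 z (n 0 z (n 0 z z)))) (n 0 (n 0 z (n 0 z (n 0 z (n 0 z z)))) (n 0 (n 0 z (n 0 z (n 0 z (n
 0 z z)))) (n 0 (n 0 z (n 0 (n 8525323 z z) (n 0 (n 8525323 z z) (n 0 z z)))) (n 0 (n 0 z (n 0 z
 (n 0 (n 8525323 z z) (n 0 z z)))) (n 0 (n 0 z (n 0 z (n 0 z (n 0 z z)))) (n 0 (n 0 z (n 0 z (n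
 0 z (n 0 z z)))) (n 0 (n 0 z (n 0 z (n 0 z (n 0 z z)))) (n 0 (n 0 z (n 0 z (n 0 z (n 0 z z))))
 (n 0 (n 0 z (n 0 z (n 0 z (n 0 z z)))) (n 0 (n 0 z (n 0 z (n 0 z (n 0 z z)))) (n 0 (n 0 z (n 0
 z (n 0 z (n 0 z z)))) (n 0 (n 0 z (n 0 z (n 0 z (n 0 z z)))) (n 0 (n 0 (n 8783691 z z) (n 0 z
 (n 0 z (n 0 z z)))) (n 0 (n 0 z (n 0 z (n 0 (n
 0x10caca48077e17e082081f7e07a08608217a186181f8218607e08607e08208217de8218208208208218200801 z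
 (n 7473243 z z)) (n 0 (n
 0xcc8748007f38008568008007a080e7b18057738777fd8736c283e7f486a7538767477e58797808998db7ff8dc83e70886b8597ed7c689678987874c7fa8207a98147c78078b67ae8c079f77b8410051
 z (n 7473243 z z)) z)))) (n 0 (n 0 z (n 0 z (n 0 z (n 0 z z)))) (n 0 (n 0 z (n 0 (n
 0x148727e181f89f85f8207e08217a17a28218207df82189e81f7df7de8617a08218a189e8237e17e10041 z z) (n
 0 (n 0x148747e181f89f85f8207e08217a17a28218207df82189e81f7df7de8617a08218a189e8237e17e10041 z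
 z) (n 0 z z)))) (n 0 (n 0 z (n 0 (n 8872459 z z) (n 0 (n
 0x148747e181f89f85f8207e08217a17a28218207df82189e81f7df7de8617a08218a189e8237e17e10041 z z) (n
 0 z z)))) (n 0 (n 0 z (n 0 z (n 0 z (n 0 z z)))) (n 0 (n 0 z (n 0 z (n 0 z (n 0 z z))))
 z))))))))))))))))))))))))))))))) (n 131 (n 0 (n 0 z (n 0 z (n 0 z (n 0 z z)))) (n 0 (n 0 z (n 0
 z (n 0 z (n 0 (n 8730475 z z) z)))) (n 0 (n 0 z (n 0 z (n 0 z (n 0 z z)))) (n 0 (n 0 z (n 0 z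
 (n 0 z (n 0 z z)))) (n 0 (n 0 z (n 0 (n 8790275 z z) (n 0 (n 8790275 z z) (n 0 z z)))) (n 0 (n
 0 z (n 0 z (n 0 (n 8790275 z z) (n 0 z z)))) (n 0 (n 0 z (n 0 (n 8790275 z z) (n 0 (n 8790275 z
 z) (n 0 z z)))) (n 0 (n 0 z (n 0 z (n 0 z (n 0 z z)))) (n 0 (n 0 z (n 0 z (n 0 z (n 0 z z))))
 (n 0 (n 0 z (n 0 z (n 0 z (n 0 z z)))) (n 0 (n 0 z (n 0 z (n 0 z (n 0 z z)))) (n 0 (n 0 z (n 0
 z (n 0 z (n 0 z z)))) (n 0 (n 0 z (n 0 z (n 0 z (n 0 z z)))) (n 0 (n 0 z (n 0 z (n 0 z (n 0 z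
 z)))) (n 0 (n 0 z (n 0 z (n 0 z (n 0 z z)))) (n 0 (n 0 z (n 0 (n
 0xcc8108007f38008568008007a080e7b18057738777fd8736c283e7f486a7538767477e58797808998db7ff8dc83e70886b8597ed7c689678987874c7fa8207a98147c78078b67ae8c079f77b8410051
 z z) (n 0 (n
 0xcc8108007f38008568008007a080e7b18057738777fd8736c283e7f486a7538767477e58797808998db7ff8dc83e70886b8597ed7c689678987874c7fa8207a98147c78078b67ae8c079f77b8410051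
 z z) (n 0 z z)))) (n 0 (n 0 z (n 0 (n 8525323 z z) (n 0 (n 8525323 z z) (n 0 z z)))) (n 0 (n 0
 z (n 0 z (n 0 z (n 0 z z)))) (n 0 (n 0 z (n 0 z (n 0 (n 8525323 z z) (n 0 z z)))) (n 0 (n 0 z
 (n 0 (n
 0xcc8108007f38008568008007a080e7b18057738777fd8736c283e7f486a7538767477e58797808998db7ff8dc83e70886b8597ed7c689678987874c7fa8207a98147c78078b67ae8c079f77b8410051
 z z) (n 0 (n
 0xcc8108007f38008568008007a080e7b18057738777fd8736c283e7f486a7538767477e58797808998db7ff8dc83e70886b8597ed7c689678987874c7fa8207a98147c78078b67ae8c079f77b8410051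
 z z) (n 0 z z)))) (n 0 (n 0 z (n 0 z (n 0 z (n 0 z z)))) (n 0 (n 0 z (n 0 (n 8523875 z (n
 8523875 z z)) (n 0 (n 8523875 z (n 8523875 z z)) (n 0 z z)))) z)))))))))))))))))))))) (n 513 (n
 0 (n 0 z (n 0 z (n 0 z (n 0 z z)))) (n 0 (n 0 z (n 0 z (n 0 z (n 0 z z)))) (n 0 (n 0 z (n 0 z
 (n 0 z (n 0 z z)))) (n 0 (n 0 z (n 0 z (n 0 z (n 0 z z)))) (n 0 (n 0 z (n 0 z (n 0 z (n 0 z
 z)))) (n 0 (n 0 z (n 0 z (n 0 (n 8865051 z z) (n 0 (n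
 0x30ed0e2a038217a082081f8217a27e082182186085f8207e179f8a07df89f81f7e086086181f8618208600801 z
 z) z)))) (n 0 (n 0 z (n 0 z (n 0 z (n 0 z z)))) (n 0 (n 0 z (n 0 z (n 0 z (n 0 z z)))) (n 0 (n
 0 z (n 0 z (n 0 z (n 0 z z)))) (n 0 (n 0 z (n 0 z (n 0 z (n 0 z z)))) (n 0 (n 0 z (n 0 z (n 0 z
 (n 0 z z)))) (n 0 (n 0 (n 8782363 z (n 8782363 z z)) (n 0 z (n 0 z (n 0 z z)))) (n 0 (n 0 z (n
 0 z (n 0 (n
 0x30ed0e2a0382179f82081f8217a17e082082082086086082079f8a07e089f7df81f8608a181f8617e08610801 z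
 z) (n 0 (n
 0x10ed0eca038207e08208208207e18208208208208208208217a08607e086081f8208608618208218208200801 z
 z) z)))) (n 0 (n 0 z (n 0 z (n 0 z (n 0 z z)))) (n 0 (n 0 z (n 0 z (n 0 z (n 0 z z)))) (n 0 (n
 0 z (n 0 z (n 0 z (n 0 z z)))) (n 0 (n 0 (n 8652315 z (n 8652315 z z)) (n 0 z (n 0 z (n 0 (n
 8652315 z (n 8652315 z z)) z)))) (n 0 (n 0 (n 8655659 z (n 8655659 z z)) (n 0 z (n 0 z (n 0 z
 z)))) z)))))))))))))))))) (n 81 (n 0 (n 0 z (n 0 z (n 0 z (n 0 z z)))) (n 0 (n 0 z (n 0 z (n 0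
 z (n 0 z z)))) (n 0 (n 0 z (n 0 z (n 0 z (n 0 z z)))) (n 0 (n 0 z (n 0 z (n 0 z (n 0 z z)))) (n
 0 (n 0 z (n 0 z (n 0 z (n 0 z z)))) (n 0 (n 0 z (n 0 z (n 0 z (n 0 z z)))) (n 0 (n 0 z (n 0 z
 (n 0 z (n 0 z z)))) z))))))) (n 135 (n 0 (n 0 z (n 0 z (n 0 z (n 0 z z)))) (n 0 (n 0 z (n 0 z
 (n 0 z (n 0 z z)))) (n 0 (n 0 z (n 0 z (n 0 z (n 0 z z)))) (n 0 (n 0 z (n 0 z (n 0 z (n 0 z
 z)))) (n 0 (n 0 z (n 0 z (n 0 z (n 0 z z)))) (n 0 (n 0 z (n 0 z (n 0 z (n 0 z z)))) (n 0 (n 0 z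
 (n 0 z (n 0 z (n 0 z z)))) (n 0 (n 0 z (n 0 z (n 0 z (n 0 z z)))) (n 0 (n 0 z (n 0 z (n 0 z (n
 0 (n 8873043 z z) z)))) (n 0 (n 0 z (n 0 z (n 0 z (n 0 z z)))) z)))))))))) (n 73 (n 0 (n 0 z (n
 0 z (n 0 z (n 0 z z)))) (n 0 (n 0 z (n 0 z (n 0 z (n 0 z z)))) (n 0 (n 0 z (n 0 z (n 0 z (n 0 z
 z)))) (n 0 (n 0 z (n 0 z (n 0 z (n 0 z z)))) (n 0 (n 0 z (n 0 z (n 0 z (n 0 z z)))) (n 0 (n 0 z
 (n 0 z (n 0 z (n 0 z z)))) (n 0 (n 0 z (n 0 z (n 0 z (n 0 z z)))) (n 0 (n 0 z (n 0 z (n 0 z (n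
 0 z z)))) (n 0 (n 0 (n 8848939 z (n 8848939 z z)) (n 0 z (n 0 z (n 0 (n
 0x5c8767fc80680080480e7f98097fa81b7ff7ff8088008077cb8248057fb7fb7e77d97d581f7dc82782580c8047fa80880881b7f381881b7f87f27da8147fe7fc7ea7fc7d98297e282f8007dd8100051
 z (n
 0x10ed0eca038207e08208208207e18208208208208208208217a08607e086081f8208608618208218208200801 z
 z)) z)))) (n 0 (n 0 z (n 0 z (n 0 z (n 0 z z)))) (n 0 (n 0 z (n 0 z (n 0 z (n 0 z z)))) (n 0 (n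
 0 (n
 0xec8757f780f80080a8227ef8167f28407fe7fc81480081277e85880f7f27f27c37a279784d7a986085a81d80b7f18138148427e083e8417ec7de7a38327fb7f67ca7f77a08657b68728007aa8270051
 z (n
 0x30eb0ca4078208608208208208208207e08208208208208208608208208208608208208208208208208200801 z
 z)) (n 0 z (n 0 z (n 0 z z)))) z)))))))))))) (n 633 (n 0 (n 0 z (n 0 (n
 0xc87482182085f8207e07df82182182186082082082086085f81f8208217df8a085f8208207e08600041 z z) (n 0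
 z (n 0 (n
 0x148747e282085f85f8207e08217e17e286185f7e082085f85f7de7e086179f86086185e8617e18610041 z z)
 z)))) (n 0 (n 0 z (n 0 z (n 0 z (n 0 z z)))) (n 0 (n 0 (n
 0x10ed0ec8038207e082081f8217e17e18217e18208208207e179f8a079f86081f7e18608618608228208200801 z
 z) (n 0 z (n 0 z (n 0 z z)))) (n 0 (n 0 z (n 0 (n 8802627 z z) (n 0 z (n 0 (n 8802627 z z)
 z)))) (n 0 (n 0 z (n 0 (n 8802627 z (n 8802627 z z)) (n 0 z (n 0 z z)))) (n 0 (n 0 z (n 0 z (n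
 0 z (n 0 z z)))) (n 0 (n 0 (n 8783691 z z) (n 0 z (n 0 z (n 0 z z)))) (n 0 (n 0 z (n 0 z (n 0 z
 (n 0 z z)))) (n 0 (n 0 z (n 0 z (n 0 z (n 0 z z)))) (n 0 (n 0 z (n 0 z (n 0 z (n 0 z z)))) (n 0
 (n 0 z (n 0 (n 8523875 z z) (n 0 z (n 0 z z)))) z))))))))))) (n 105 (n 0 (n 0 z (n 0 z (n 0 z
 (n 0 z z)))) (n 0 (n 0 z (n 0 z (n 0 z (n 0 z z)))) (n 0 (n 0 z (n 0 z (n 0 z (n 0 z z)))) (n 0
 (n 0 z (n 0 z (n 0 z (n 0 z z)))) (n 0 (n 0 (n 8848939 z (n 8848939 z z)) (n 0 (n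
 0x148727e181f89f85f8207e08217a17a28218207df82189e81f7df7de8617a08218a189e8237e17e10041 z (n
 8783675 z z)) (n 0 z (n 0 z z)))) (n 0 (n 0 (n 8848939 z (n 8848939 z z)) (n 0 z (n 0 z (n 0 z
 z)))) (n 0 (n 0 z (n 0 z (n 0 z (n 0 z z)))) (n 0 (n 0 (n 8848939 z (n 8848939 z z)) (n 0 z (n
 0 z (n 0 z z)))) (n 0 (n 0 z (n 0 (n
 0x148727e181f89f85f8207e08217a17a28218207df82189e81f7df7de8617a08218a189e8237e17e10041 z (n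
 8783675 z z)) (n 0 z (n 0 z z)))) (n 0 (n 0 z (n 0 (n 8872459 z (n 8872459 z z)) (n 0 z (n 0 z
 z)))) (n 0 (n 0 z (n 0 z (n 0 z (n 0 z z)))) (n 0 (n 0 z (n 0 (n 8730475 z z) (n 0 z (n 0 (n
 8730475 z z) z)))) (n 0 (n 0 z (n 0 (n
 0x148727e181f89f85f8207e08217a17a28218207df82189e81f7df7de8617a08218a189e8237e17e10041 z (n
 8783675 z z)) (n 0 z (n 0 (n
 0x2c8707e07d68008447fe80177982a74e85278c88e80189f69380f7d98c57a082479d7968a07498b38e87fa95c8426738a48b07aa76c8f577e8be7207d48317a680b7ca8388e47d18da73c7988390051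
 z (n 8783675 z z)) z)))) (n 0 (n 0 (n 8848939 z (n 8848939 z z)) (n 0 z (n 0 z (n 0 z z)))) (n
 0 (n 0 (n
 0x10ed0ec8038217e182081f8217e18218217e18608208607e07a08e07df85f85e7e085f8618608618208200801 z
 z) (n 0 z (n 0 z (n 0 z z)))) (n 0 (n 0 (n 8848939 z (n 8848939 z z)) (n 0 z (n 0 (n 8851507 z
 (n 8851507 z z)) (n 0 z z)))) (n 0 (n 0 (n 8848939 z (n 8848939 z z)) (n 0 z (n 0 z (n 0 z
 z)))) (n 0 (n 0 (n 8848939 z (n 8848939 z z)) (n 0 z (n 0 z (n 0 z z)))) (n 0 (n 0 z (n 0 z (n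
 0 (n 8525323 z z) (n 0 z z)))) (n 0 (n 0 z (n 0 z (n 0 z (n 0 (n 8802627 z z) z)))) (n 0 (n 0 z
 (n 0 z (n 0 z (n 0 z z)))) (n 0 (n 0 z (n 0 (n 8802627 z (n 8802627 z z)) (n 0 z (n 0 z z))))
 (n 0 (n 0 z (n 0 (n 8802627 z z) (n 0 z (n 0 z z)))) (n 0 (n 0 z (n 0 z (n 0 z (n 0 z z)))) (n
 0 (n 0 z (n 0 (n 8802627 z z) (n 0 z (n 0 (n 8802627 z z) z)))) (n 0 (n 0 z (n 0 (n 8802627 z
 z) (n 0 z (n 0 (n 8802627 z z) z)))) (n 0 (n 0 z (n 0 (n 8523875 z z) (n 0 (n 8851507 z z) (n 0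
 z z)))) (n 0 (n 0 z (n 0 (n 8525323 z z) (n 0 (n 8851507 z z) (n 0 z z)))) (n 0 (n 0 z (n 0 (n
 8525323 z (n 8525323 z z)) (n 0 z (n 0 z z)))) (n 0 (n 0 z (n 0 z (n 0 z (n 0 z z)))) (n 0 (n 0
 (n 8655659 z z) (n 0 z (n 0 (n 8655659 z z) (n 0 z z)))) (n 0 (n 0 z (n 0 z (n 0 z (n 0 z z))))
 (n 0 (n 0 z (n 0 z (n 0 z (n 0 z z)))) (n 0 (n 0 z (n 0 z (n 0 z (n 0 z z)))) (n 0 (n 0 z (n 0
 (n 8730475 z (n
 0xcc8208007f38008568008007a080e7b18057738777fd8736c283e7f486a7538767477e58797808998db7ff8dc83e70886b8597ed7c689678987874c7fa8207a98147c78078b67ae8c079f77b8410051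
 z z)) (n 0 (n
 0x148747e181f89f85f8207e08217a17a28218207df82189e81f7df7de8617a08218a189e8237e17e10041 z (n
 0xcc8208007f38008568008007a080e7b18057738777fd8736c283e7f486a7538767477e58797808998db7ff8dc83e70886b8597ed7c689678987874c7fa8207a98147c78078b67ae8c079f77b8410051
 z z)) (n 0 z z)))) (n 0 (n 0 (n 8848939 z (n 8848939 z z)) (n 0 (n
 0x148747e282085f85f8207e08217e17e286185f7e082085f85f7de7e086179f86086185e8617e18610041 z (n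
 8730475 z z)) (n 0 (n
 0x148747e282085f85f8207e08217e17e286185f7e082085f85f7de7e086179f86086185e8617e18610041 z (n
 0x148747e181f89f85f8207e08217a17a28218207df82189e81f7df7de8617a08218a189e8237e17e10041 z z)) (n
 0 z z)))) z)))))))))))))))))))))))))))))))))))) (n 21 (n 0 (n 0 z (n 0 z (n 0 z (n 0 z z)))) (n
 0 (n 0 z (n 0 z (n 0 z (n 0 z z)))) (n 0 (n 0 z (n 0 z (n 0 z (n 0 (n
 0x148747e282085f85f8207e08217e17e286185f7e082085f85f7de7e086179f86086185e8617e18610041 z z)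
 z)))) (n 0 (n 0 z (n 0 z (n 0 z (n 0 z z)))) (n 0 (n 0 z (n 0 z (n 0 z (n 0 z z)))) (n 0 (n 0 z
 (n 0 z (n 0 z (n 0 z z)))) (n 0 (n 0 z (n 0 z (n 0 z (n 0 z z)))) (n 0 (n 0 z (n 0 z (n 0 z (n
 0 z z)))) (n 0 (n 0 z (n 0 z (n 0 z (n 0 z z)))) (n 0 (n 0 z (n 0 z (n 0 z (n 0 z z)))) (n 0 (n
 0 (n 8783691 z z) (n 0 z (n 0 z (n 0 z z)))) (n 0 (n 0 (n
 0xc48737f980c80080881a7f38127f58337fe7fd81080080e79884680c7f57f57cf7b57ac83d7bb84d8488188097f480f8108357e68318347f17e57b68287fc7f87d57f97b48507c585b8007bb81f0051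
 z (n
 0x10caec680382082082081f8208208208208208208208208208208208208208208208208208208208208200801 z
 z)) (n 0 z (n 0 z (n 0 z z)))) (n 0 (n 0 (n
 0xec8737f780f80080a8227ef8167f28407fe7fc81480081277e85880f7f27f27c37a279784d7a986085a81d80b7f18138148427e083e8417ec7de7a38327fb7f67ca7f77a08657b68728007aa8270051
 z (n
 0x30c70e280786082081f8208218208208208208208208208208208608208208208208608608208608208200801 z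
 z)) (n 0 z (n 0 z (n 0 z z)))) z))))))))))))) (n 103 (n 0 (n 0 z (n 0 z (n 0 z (n 0 z z)))) (n
 0 (n 0 z (n 0 z (n 0 z (n 0 z z)))) (n 0 (n 0 z (n 0 z (n 0 z (n 0 z z)))) (n 0 (n 0 z (n 0 z
 (n 0 z (n 0 z z)))) (n 0 (n 0 z (n 0 z (n 0 z (n 0 z z)))) (n 0 (n 0 (n 8783691 z z) (n 0 z (n
 0 z (n 0 z z)))) (n 0 (n 0 z (n 0 z (n 0 z (n 0 z z)))) (n 0 (n 0 z (n 0 z (n 0 z (n 0 z z))))
 z)))))))) (n 96 (n 0 (n 0 z (n 0 z (n 0 z (n 0 z z)))) (n 0 (n 0 z (n 0 z (n 0 z (n 0 z z))))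
 (n 0 (n 0 z (n 0 z (n 0 (n 7546971 z (n 8730395 z z)) (n 0 (n
 0xec8207f780f80080a8227ef8167f28407fe7fc81480081277e85880f7f27f27c37a279784d7a986085a81d80b7f18138148427e083e8417ec7de7a38327fb7f67ca7f77a08657b68728007aa8270051
 z (n
 0xec8207f780f80080a8227ef8167f28407fe7fc81480081277e85880f7f27f27c37a279784d7a986085a81d80b7f18138148427e083e8417ec7de7a38327fb7f67ca7f77a08657b68728007aa8270051
 z z)) z)))) (n 0 (n 0 z (n 0 z (n 0 z (n 0 z z)))) (n 0 (n 0 z (n 0 z (n 0 z (n 0 z z)))) (n 0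
 (n 0 z (n 0 z (n 0 z (n 0 z z)))) (n 0 (n 0 (n
 0x648217e47fb8008318177f079f80a7908227938638058676c282080088079784e78e7df86d79d87a8cb80d8f481c6dc88285b7da7968ab79d8767667d68257ce7f37f08158da7cb8a977b7ac82e0051
 z z) (n 0 z (n 0 z (n 0 z z)))) (n 0 (n 0 z (n 0 z (n 0 z (n 0 z z)))) (n 0 (n 0 z (n 0 z (n 0
 (n 8652315 z (n 8652315 z z)) (n 0 (n 8652315 z (n 8652315 z z)) z)))) (n 0 (n 0 z (n 0 z (n 0
 z (n 0 z z)))) (n 0 (n 0 z (n 0 z (n 0 z (n 0 z z)))) (n 0 (n 0 z (n 0 z (n 0 z (n 0 z z)))) (n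
 0 (n 0 (n
 0xb0ed0e46077ff7f88008117fd8017df8097d88077e38217ff81c7ad80480581f7ec8257e37fc8087f78108317fb84c80c7ad82680a7f77db8247f08257e27ec80f7f88017f780a82c7f48237df7f080a0811
 z z) (n 0 z (n 0 z (n 0 z z)))) (n 0 (n 0 z (n 0 z (n 0 z (n 0 z z)))) z)))))))))))))) (n 467
 (n 0 (n 0 z (n 0 z (n 0 z (n 0 z z)))) (n 0 (n 0 z (n 0 z (n 0 z (n 0 z z)))) (n 0 (n 0 z (n 0
 z (n 0 z (n 0 z z)))) (n 0 (n 0 z (n 0 z (n 0 z (n 0 z z)))) (n 0 (n 0 z (n 0 z (n 0 z (n 0 z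
 z)))) z))))) (n 33 (n 0 (n 0 z (n 0 z (n 0 z (n 0 z z)))) (n 0 (n 0 z (n 0 z (n 0 z (n 0 z
 z)))) (n 0 (n 0 z (n 0 z (n 0 z (n 0 z z)))) (n 0 (n 0 z (n 0 z (n 0 z (n 0 z z)))) (n 0 (n 0 z
 (n 0 z (n 0 z (n 0 z z)))) (n 0 (n 0 z (n 0 z (n 0 z (n 0 z z)))) (n 0 (n 0 z (n 0 z (n 0 z (n
 0 z z)))) (n 0 (n 0 (n 7538763 z (n 7682091 z z)) (n 0 z (n 0 z (n 0 z z)))) z)))))))) (n 131
 (n 0 (n 0 z (n 0 z (n 0 z (n 0 z z)))) (n 0 (n 0 z (n 0 z (n 0 z (n 0 z z)))) (n 0 (n 0 (n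
 0xec8737f780f80080a8227ef8167f28407fe7fc81480081277e85880f7f27f27c37a279784d7a986085a81d80b7f18138148427e083e8417ec7de7a38327fb7f67ca7f77a08657b68728007aa8270051
 z z) (n 0 z (n 0 z (n 0 z z)))) (n 0 (n 0 z (n 0 z (n 0 z (n 0 z z)))) (n 0 (n 0 z (n 0 z (n 0
 (n 8790275 z z) (n 0 z z)))) (n 0 (n 0 z (n 0 z (n 0 z (n 0 z z)))) (n 0 (n 0 z (n 0 z (n 0 z
 (n 0 z z)))) (n 0 (n 0 z (n 0 (n
 0x30caea28038208208208208208208208207e08208208218608208208208208208208208208208218208200801 z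
 z) (n 0 (n 8851507 z z) (n 0 z z)))) (n 0 (n 0 z (n 0 z (n 0 z (n 0 z z)))) z))))))))) (n 27 (n
 0 (n 0 z (n 0 z (n 0 z (n 0 z z)))) (n 0 (n 0 z (n 0 z (n 0 z (n 0 z z)))) (n 0 (n 0 z (n 0 z
 (n 0 z (n 0 z z)))) z))) (n 1 (n 0 (n 0 z (n 0 z (n 0 z (n 0 z z)))) (n 0 (n 0 z (n 0 z (n 0 z
 (n 0 z z)))) (n 0 (n 0 z (n 0 z (n 0 z (n 0 z z)))) (n 0 (n 0 z (n 0 z (n 0 z (n 0 z z)))) (n 0
 (n 0 z (n 0 z (n 0 z (n 0 z z)))) (n 0 (n 0 z (n 0 z (n 0 z (n 0 z z)))) (n 0 (n 0 z (n 0 z (n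
 0 z (n 0 z z)))) (n 0 (n 0 z (n 0 z (n 0 z (n 0 z z)))) (n 0 (n 0 z (n 0 z (n 0 z (n 0 z z))))
 z))))))))) (n 0 (n 0 (n 0 z (n 0 z (n 0 z (n 0 z z)))) (n 0 (n 0 z (n 0 z (n 0 z (n 0 z z))))
 (n 0 (n 0 z (n 0 (n 8802627 z z) (n 0 z (n 0 z z)))) (n 0 (n 0 z (n 0 z (n 0 z (n 0 z z)))) (n
 0 (n 0 (n 8783691 z z) (n 0 z (n 0 z (n 0 z z)))) (n 0 (n 0 (n 8783691 z z) (n 0 z (n 0 z (n 0
 z z)))) (n 0 (n 0 (n 8782363 z z) (n 0 z (n 0 z (n 0 z z)))) (n 0 (n 0 z (n 0 (n 8794379 z (n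
 8794379 z z)) (n 0 z (n 0 (n 8794379 z (n 8794379 z z)) z)))) z)))))))) z)))))))))))))))))))))
 z)))) z) z)))) (n 0xd927462c9a1631d09966b0cb31a0596d30cacb10cb4c824b4c22d32c0 (n 0x1a659 (n 153
 (n 0 z (n 0 z (n 0 z (n 0 z (n 0 z (n 0 z (n 0 z (n 2 z (n 0 z (n 3282443 z z)))))))))) (n 33
 (n
 0x1cc82640a038078117ff7dd82e7ea7fe80480c7ee7f480080382d7c080e8238037de8028237f98017eb8098138298017ed7f88128028167bd8217e283f7dd7ce8117f18048098027db8087ef80380b8010811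
 z (n 10 z (n
 0x8ca2a608038de8227e179f8207228237617de79f7e08e085f7df86181e8208a08208217a37a07e08a17a10801 z
 (n 0 z (n 0 z (n 0 z (n 0 z (n 0 z (n 0 z (n 0 z (n 18 z (n 0 z (n 26 z (n 3278363 z
 z)))))))))))))) (n 11 (n 34 z (n 3212843 z (n 0 z (n 0 z (n 0 z z))))) (n 27 (n 0 z (n
 0x2ca8a8420385f8617e08de8608617a07e181f79f81f89e8617df8208237e089f8208207627e085f8617a10801 z
 (n 0 z (n
 0xeca8ca82037ef8597f87678967b58287f183b7d97b47fd80587577281385080c79a82788c7bf8177a184a7fc8958017cc7b684781d82d74085c7b28fe7797598328007ef82c7e679d8177c37f083c8000811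
 z (n 42 z (n 2164283 z (n
 0x2ca8ca020385e8217e185f8208617df7a189f7e182085f82081f8608217e08208217e07a181f8608217e00801 z
 (n 0 z z)))))))) (n 1 (n 0 z (n 0 z (n 50 z (n 0 z (n 2164299 z (n 0 z (n 0 z (n 0 z (n 0 z
 z))))))))) (n 0 (n 0 z (n 58 z (n
 0x22ca88602037eb9877ff56aaab6ac89c7cc8c879473280580ea205ac7999647ba6b9820a2778f7e56ef8cf7f3aa78026d86de9548918965799bd6e4bc96455498fd7967198f17966928497447be8b48000811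
 z (n 0 z (n 66 z (n 2164315 z (n 0 z (n 74 z (n 0 z (n
 0x6c86c802037dc9717ff57da8e6bb8977cf8c979c7357ec8229fc5c77ac9527bc6c482aa177897ef6e08d57e7a908026de6d19478a689a5909a16e1bc96555758e178f73c8cf78b68c8507587af8a88140811
 z (n 82 z z))))))))))) z)))))) (n 11 (n 0 (n 79 (n 2 (n 0 z (n 0 z (n 1 z (n 1 z (n 1 z (n 1 z
 (n 1 z (n 1 z (n 1 z z))))))))) (n 7673403 z (n 0 z (n 0 z (n 0 z (n 0 z (n 0 z (n 0 z (n 0 z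
 (n 0 z (n 0 z (n 0 z (n 0 z (n 0 z (n 0 z (n 0 z z)))))))))))))))) (n 79 (n 0 z (n 0 z (n 0 z
 (n 0 z (n 0 z (n 0 z (n 0 z (n 0 z (n 0 z (n 0 z (n 0 z (n 0 z (n 0 z (n 0 z (n 0 z (n 0 z
 z)))))))))))))))) (n 79 (n 0 z (n 0 z (n 0 z (n 0 z (n 0 z (n 0 z (n 0 z (n 0 z (n 0 z (n 0 z
 (n 0 z (n 0 z (n 0 z (n 0 z (n 0 z (n 2 (n 1 z (n 1 z (n 1 z (n 1 z (n 2 (n 0 z (n 0 z (n 0 z
 (n 0 z (n 0 z (n 0 z z)))))) (n 2 (n 0 z (n 0 z (n 0 z (n 0 z (n 0 (n 8799003 z z) (n 0 z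
 z)))))) (n 1 z z))))))) z)))))))))))))))) (n 189 (n 0 z (n 0 z (n 0 z (n 0 z (n 0 z (n 0 z (n 0
 z z))))))) (n 75 (n 0 z (n 0 z (n 0 z (n 0 z (n 0 z (n 0 z (n 0 z (n 0 z (n 0 z (n 0 z (n 0 z
 (n 0 z (n 0 z (n 0 z (n 0 z (n 0 z z)))))))))))))))) (n 483 (n 0 z (n 0 z (n 0 z (n 0 z (n 0 z
 (n 0 z (n 0 z (n 0 z (n 0 z (n 0 z (n 0 z (n 0 z z)))))))))))) (n 73 (n 0 z (n 0 z (n 0 z (n 0
 z (n 0 z (n 0 z (n 0 z (n 0 z (n 0 z (n 0 z (n 0 z (n 0 z z)))))))))))) (n 73 (n 0 z (n 0 z (n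
 0 z (n 0 z (n 0 z (n 0 z (n 0 z (n 0 z (n 0 z (n 0 z (n 0 z (n 2 (n 0 z (n 0 z z))
 z)))))))))))) (n 73 (n 0 z (n 0 z (n 0 z (n 0 z (n 0 z (n 0 z (n 0 z (n 0 z (n 0 z (n 0 z (n 0
 z (n 0 z z)))))))))))) (n 73 (n 0 z (n 0 z (n 0 z (n 0 z (n 0 z (n 0 z (n 0 z (n 0 z (n 0 z (n
 2 z (n 0 z (n 0 z z)))))))))))) z)))))))))) (n 0 (n 0 z (n 0 z (n 459 (n 0 z (n 0 z (n 0 z (n 0
 z (n 0 z (n 0 z (n 0 z (n 0 z (n 2 (n 1 z (n 1 z (n 1 z (n 1 z (n 1 z (n 1 z z)))))) (n 6625083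
 z (n 0 z (n 0 z (n 0 z (n 0 z (n 0 z (n 0 z (n 0 z (n 0 z (n 0 z (n 0 z (n 0 z (n 0 z (n 0 z (n
 0 z (n 0 z z))))))))))))))))))))))))) (n 55 (n 0 z (n 0 z (n 0 z (n 0 z (n 0 z (n 0 z (n 0 z (n
 0 z (n 0 z (n 0 z (n 2 (n 1 z (n 1 z (n 2 (n 0 z (n 0 z (n 0 z (n 0 z (n 0 (n 196 z z) (n 0 z
 z)))))) (n 1 z (n 2 (n 0 z (n 0 z (n 0 z (n 0 z (n 0 (n 245 z z) (n 0 z z)))))) z))))) (n
 6625083 z (n 0 z (n 0 z (n 0 z (n 0 z (n 0 z (n 0 z (n 0 z (n 0 z (n 0 z (n 0 z (n 0 z (n 0 z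
 (n 0 z (n 0 z (n 0 z (n 0 z (n 0 z z))))))))))))))))))))))))))))) (n 457 (n 2 (n 1 z (n 1 z (n
 1 z (n 1 z z)))) (n 6625083 z (n 0 z (n 0 z (n 0 z (n 0 z (n 0 z (n 0 z (n 0 z (n 0 z (n 0 z (n
 0 z (n 0 z (n 0 z (n 0 z (n 0 z (n 0 z (n 0 z (n 0 z (n 0 z (n 0 z (n 0 z (n 0 z (n 0 z (n 0 z
 (n 0 z (n 0 z (n 0 z (n 0 z (n 0 z (n 0 z (n 0 z (n 0 z (n 0 z (n 0 z (n 0 z (n 0 z (n 0 z (n 0
 z (n 0 z (n 0 z (n 0 z (n 0 z (n 0 z (n 0 z (n 0 z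
 z)))))))))))))))))))))))))))))))))))))))))))))) (n 49 (n 0 z (n 0 z (n 0 z (n 0 z (n 2 (n 0 z
 (n 0 z (n 0 z z))) (n
 0x4c62ea080782082082181f81f7e08227e07df86082081f86082082081f82082081e8618608208208607e10801 z
 (n 0 z (n 0 z (n 0 z (n 0 z (n 0 z (n 0 z (n 0 z (n 0 z (n 0 z (n 0 z (n 0 z (n 0 z (n 0 z (n 0
 z (n 0 z (n 0 z (n 0 z (n 0 z (n 0 z (n 0 z (n 0 z (n 0 z (n 0 z (n 0 z (n 0 z (n 0 z
 z)))))))))))))))))))))))))))))))) (n 49 (n 0 z (n 0 z (n 0 z (n 0 z (n 0 z (n 0 z (n 0 z (n 0 z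
 (n 0 z (n 0 z (n 0 z (n 0 z (n 0 z (n 0 z (n 0 z (n 0 z (n 0 z (n 0 z (n 0 z (n 0 z (n 0 z (n 0
 z (n 0 z (n 0 z (n 0 z (n 0 z (n 0 z (n 0 z (n 0 z (n 0 z (n 0 z (n 0 z
 z)))))))))))))))))))))))))))))))) (n 49 (n 0 z (n 0 z (n 0 z (n 0 z (n 0 z (n 0 z (n 0 z (n 0 z
 (n 0 z (n 0 z (n 0 z (n 0 z (n 0 z (n 0 z (n 0 z (n 0 z (n 0 z (n 0 z (n 0 z (n 0 z (n 0 z (n 0
 z (n 0 z (n 0 z (n 0 z (n 0 z (n 0 z (n 2 (n 0 z z) (n 0 z (n 0 z (n 0 z (n 0 z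
 z)))))))))))))))))))))))))))))))) (n 49 (n 0 z (n 0 z (n 0 z (n 0 z (n 0 z (n 0 z (n 0 z (n 0 z
 (n 0 z (n 0 z (n 0 z (n 0 z (n 0 z (n 0 z (n 0 z (n 0 z (n 0 z (n 0 z (n 0 z (n 0 z (n 0 z (n 0
 z (n 0 z (n 0 z (n 0 z (n 0 z (n 0 z (n 0 z (n 0 z (n 0 z (n
 0x2ec8e846038207df8607e182082086081f7e08208207e085f82082081f86082182082081f8217e08208200801 z
 (n 2 z z)))))))))))))))))))))))))))))))) z))))))))) (n 0 (n 0 z (n 19 (n 0 z (n 0 z (n 0 z (n 0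
 z (n 0 z (n 0 z (n 0 z (n 0 z (n 0 z (n 0 z (n 0 z (n 0 z (n 0 z (n 0 z (n 0 z (n 0 z (n 0 z (n
 0 z (n 0 z (n 0 z (n 0 z (n 0 z z)))))))))))))))))))))) (n 295 (n 0 z (n 0 z (n 0 z (n 0 z (n 0
 z (n 0 z (n 0 z (n 0 z (n 0 z (n 0 z (n 0 z (n 0 z (n 0 z (n 0 z (n 0 z (n 0 z (n 0 z (n 0 z (n
 0 z (n 0 z (n 0 z (n 0 z (n 0 z (n 0 z (n 0 z (n 0 z (n 0 z (n 0 z (n 0 z (n 0 z (n 0 z (n 0 z
 (n 0 z (n 0 z (n 0 z (n 0 z z)))))))))))))))))))))))))))))))))))) (n 3 (n 0 z (n 0 z (n 0 z (n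
 0 z (n 0 z (n 0 z (n 0 z (n 0 z (n 0 z (n 0 z (n 0 z (n 0 z (n 0 z (n 0 z (n 0 z (n 0 z (n 0 z
 (n 0 z (n 0 z (n 0 z (n 0 z (n 0 z (n 0 z (n 0 z (n 0 z (n 0 z (n 0 z (n 0 z (n 0 z (n 0 z (n 0
 z (n 0 z (n 0 z (n 0 z (n 0 z z))))))))))))))))))))))))))))))))))) (n 293 (n 0 z (n 0 z (n 0 z
 (n 0 z (n 0 z (n 0 z (n 0 z (n 0 z (n 0 z (n 0 z (n 0 z (n 0 z (n 0 z (n 0 z (n 0 z (n 0 z (n 0
 z (n 0 z (n 0 z (n 0 z (n 0 z (n 0 z (n 0 z (n 0 z (n 0 z z))))))))))))))))))))))))) (n 293 (n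
 0 z (n 0 z (n 0 z (n 0 z (n 0 z (n 0 z (n 0 z (n 0 z (n 0 z (n 0 z (n 0 z (n 0 z (n 0 z (n 0 z
 (n 0 z (n 0 z (n 0 z (n 0 z (n 0 z (n 2 (n 0 z (n 0 z z)) (n 0 z (n 0 z (n 0 z (n 0 z (n 0 z
 z))))))))))))))))))))))))) (n 293 (n 0 z (n 0 z (n 0 z (n 0 z (n 0 z (n 0 z (n 0 z (n 0 z (n 0
 z (n 0 z (n 0 z (n 0 z (n 0 z (n 0 z (n 0 z (n 0 z (n 0 z (n 0 z (n 0 z (n 0 z (n 0 z (n 0 z (n
 0 z (n 0 z (n 0 z z))))))))))))))))))))))))) (n 293 (n 0 z (n 0 z (n 0 z (n 0 z (n 0 z (n 0 z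
 (n 0 z (n 0 z (n 0 z (n 0 z (n 0 z (n 0 z (n 0 z (n 0 z (n 0 z (n 0 z (n 0 z (n 0 z (n 0 z (n 0
 z (n 0 z (n 0 z (n 0 z (n 0 z (n 2 z z))))))))))))))))))))))))) z)))))))) (n 0 (n 759 (n 0 z (n
 0 z (n 0 z (n 0 z (n 0 z (n 2 (n 1 z (n 1 z (n 1 z (n 2 (n 0 z (n 0 z (n 0 z (n 0 z (n 0 z (n 0
 z z)))))) (n 2 (n 0 z (n 0 z (n 0 z (n 0 z (n 0 (n 8855811 z z) (n 0 z z)))))) (n 1 z z))))))
 (n 0 z (n 0 z (n 0 z (n 0 z (n 0 z (n 0 z (n 0 z (n 0 z (n 0 z (n 0 z (n 0 z (n 0 z (n 0 z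
 z))))))))))))))))))) (n 535 (n 0 z (n 0 z (n 2 (n 1 z (n 2 (n 0 z (n 0 z (n 0 z (n 0 z (n 0 (n
 8855811 z z) (n 0 z z)))))) (n 2 (n 0 z (n 0 z (n 0 z (n 0 z (n 0 z (n 0 z z)))))) (n 2 (n 0 z
 (n 0 z (n 0 z (n 0 z (n 0 (n 8855811 z z) (n 0 z z)))))) (n 2 (n 0 z (n 0 z (n 0 z (n 0 z (n 0
 z (n 0 z z)))))) z))))) (n 0 z (n 0 z (n 0 z z)))))) (n 483 (n 0 z (n 2 (n 1 z (n 2 (n 0 z (n 0
 z (n 0 z (n 0 z (n 0 z (n 0 z z)))))) (n 1 z (n 2 (n 0 z (n 0 z (n 0 z (n 0 z (n 0 (n 2132 z z)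
 (n 0 z z)))))) z)))) (n 0 z (n 0 z z)))) (n 533 (n 0 z (n 2 (n 0 z (n 0 z (n 0 z z))) (n 0 z (n
 0 z (n 0 z (n 0 z (n 0 z (n 0 z z)))))))) (n 533 (n 0 z (n 0 z (n 0 z (n 0 z (n 0 z (n 0 z (n 0
 z (n 0 z z)))))))) (n 533 (n 2 (n 0 z z) (n 0 z (n 0 z (n 0 z (n 0 z (n 0 z (n 0 z (n 0 z
 z)))))))) (n 533 (n 0 z (n 0 z (n 0 z (n 0 z (n 0 z (n 0 z (n 0 z (n 2 z z)))))))) z))))))) (n
 0 (n 55 (n 0 z (n 0 z (n 0 z (n 0 z (n 0 z (n 0 z (n 0 z (n 0 z (n 0 z (n 0 z z)))))))))) (n 51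
 (n 0 z (n 0 z (n 0 z (n 0 z (n 0 z (n 0 z (n 0 z (n 0 z (n 0 z (n 0 z (n 0 z z))))))))))) (n 49
 (n 0 z (n 0 z (n 0 z (n 0 z (n 0 z (n 0 z (n 0 z (n 0 z (n 0 z (n 0 z (n 0 z (n 0 z
 z)))))))))))) (n 49 (n 0 z (n 0 z (n 2 (n 0 z (n 0 z z)) (n 0 z (n 0 z (n 0 z (n 0 z (n 0 z (n
 0 z (n 0 z (n 0 z (n 0 z z)))))))))))) (n 49 (n 0 z (n 0 z (n 0 z (n 0 z (n 0 z (n 0 z (n 0 z
 (n 0 z (n 0 z (n 0 z (n 0 z (n 0 z z)))))))))))) (n 49 (n 0 z (n 0 z (n 0 z (n 0 z (n 0 z (n 0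
 z (n 0 z (n 0 z (n 0 z (n 0 z (n 0 z (n 2 z z)))))))))))) z)))))) (n 0 (n 63 (n 0 z (n 0 z (n 0
 z (n 0 z (n 0 z (n 0 z (n 0 z (n 0 z (n 0 z z))))))))) (n 61 (n 0 z (n 0 z (n 0 z (n 0 z (n 0 z
 (n 0 z (n 0 z (n 0 z (n 0 z (n 0 z (n 0 z (n 0 z z)))))))))))) (n 61 (n 0 z (n 2 (n 0 z (n 0 z
 z)) (n 0 z (n 0 z (n 0 z (n 0 z (n 0 z (n 0 z (n 0 z (n 0 z (n 0 z (n 0 z z)))))))))))) (n 61
 (n 0 z (n 0 z (n 0 z (n 0 z (n 0 z (n 0 z (n 0 z (n 0 z (n 0 z (n 0 z (n 0 z (n 0 z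
 z)))))))))))) (n 61 (n 0 z (n 0 z (n 0 z (n 0 z (n 0 z (n 0 z (n 0 z (n 2 z (n 0 z (n 0 z (n 0
 z (n 0 z z)))))))))))) z))))) (n 0 (n 73 (n 0 z (n 0 z (n 0 z (n 0 z (n 0 z (n 0 z (n 0 z (n 0
 z (n 0 z (n 0 z (n 0 z (n 0 z (n 0 z (n 0 z (n 0 z (n 0 z (n 0 z (n 0 z (n 0 z (n 0 z (n 0 z (n
 0 z (n 0 z (n 0 z (n 0 z (n 0 z (n 0 z (n 0 z (n 0 z (n 0 z (n 0 z (n 0 z (n 0 z (n 0 z (n 0 z
 (n 0 z (n 0 z (n 0 z (n 0 z (n 0 z (n 0 z (n 0 z (n 0 z (n 0 z (n 0 z (n 0 z (n 0 z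
 z))))))))))))))))))))))))))))))))))))))))))))))) (n 73 (n 0 z (n 0 z (n 0 z (n 0 z (n 0 z (n 0
 z (n 0 z (n 0 z (n 0 z (n 0 z (n 0 z (n 0 z (n 0 z (n 0 z (n 0 z (n 0 z (n 0 z (n 0 z (n 0 z (n
 0 z (n 0 z (n 0 z (n 0 z (n 0 z (n 0 z (n 0 z (n 0 z (n 0 z (n 0 z (n 0 z (n 0 z (n 0 z (n 0 z
 (n 0 z (n 0 z (n 0 z (n 0 z (n 0 z (n 0 z (n 0 z (n 0 z (n 0 z (n 2 (n 0 z (n 0 z z)) (n 0 z (n
 0 z (n 0 z (n 0 z z))))))))))))))))))))))))))))))))))))))))))))))) (n 73 (n 0 z (n 0 z (n 0 z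
 (n 0 z (n 0 z (n 0 z (n 0 z (n 0 z (n 0 z (n 0 z (n 0 z (n 0 z (n 0 z (n 0 z (n 0 z (n 0 z (n 0
 z (n 0 z (n 0 z (n 0 z (n 0 z (n 0 z (n 0 z (n 0 z (n 0 z (n 0 z (n 0 z (n 0 z (n 0 z (n 0 z (n
 0 z (n 0 z (n 0 z (n 0 z (n 0 z (n 0 z (n 0 z (n 0 z (n 0 z (n 0 z (n 0 z (n 0 z (n 0 z (n 0 z
 (n 0 z (n 0 z (n 0 z z))))))))))))))))))))))))))))))))))))))))))))))) (n 73 (n 0 z (n 0 z (n 0
 z (n 0 z (n 0 z (n 0 z (n 0 z (n 0 z (n 0 z (n 0 z (n 0 z (n 0 z (n 0 z (n 0 z (n 0 z (n 0 z (n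
 0 z (n 0 z (n 0 z (n 0 z (n 0 z (n 0 z (n 0 z (n 0 z (n 0 z (n 0 z (n 0 z (n 0 z (n 0 z (n 0 z
 (n 0 z (n 0 z (n 0 z (n 0 z (n 0 z (n 0 z (n 0 z (n 2 z (n 0 z (n 0 z (n 0 z (n 0 z (n 0 z (n 0
 z (n 0 z (n 0 z (n 0 z z))))))))))))))))))))))))))))))))))))))))))))))) z)))) (n 0 (n 0 z (n 0
 z (n 0 z z))) (n 0 (n 0 z (n 0 z z)) (n 0 (n 0 z z) (n 0 z z))))))))))) (n 0 (n 1 (n 2 z (n
 3278363 z (n 5448035 z (n 5379643 z (n 1228 z (n 1228 z z)))))) (n 1 (n 3212843 z (n 3212843 z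
 (n 3212843 z (n 3212843 z (n 3212843 z (n 3212843 z z)))))) (n 0 z (n 0 z (n 0 z z))))) (n 0 (n
 0x83649d41631d59621925a611 (n 0 (n 0 (n 7741699 z (n 7741699 z (n 7741699 z (n 7741699 z (n
 7741699 z (n 7741699 z z)))))) z) (n 0 (n 94 (n 1 (n 3282699 z (n 4396811 z (n 4396811 z (n
 4396811 z (n 4396811 z (n 4396811 z z)))))) (n 1 (n 4396843 z (n 4396843 z (n 4396843 z (n
 4396843 z (n 4396843 z (n 4396843 z z)))))) (n 1 (n 1228 z (n 1228 z (n 1228 z (n 1228 z (n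
 1228 z (n 1228 z z)))))) (n 1 (n 6498059 z (n 1228 z (n 1228 z (n 1228 z (n 1228 z (n 1228 z
 z)))))) (n 1 (n 1228 z (n 1228 z (n 1228 z (n 1228 z (n 1228 z (n 1228 z z)))))) (n 1 (n 1228 z
 (n 1228 z (n 1228 z (n 1228 z (n 1228 z (n 1228 z z)))))) (n 1 (n 1228 z (n 1228 z (n 6428491 z
 (n 1228 z (n 1228 z (n 1228 z z)))))) z))))))) (n 33 (n 1 (n 1276 z (n
 0x1ce82640a038078117ff7dd82e7ea7fe80480c7ee7f480080382d7c080e8238037de8028237f98017eb8098138298017ed7f88128028167bd8217e283f7dd7ce8117f18048098027db8087ef80380b8010811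
 z (n 7680355 z (n 6496371 z (n 1276 z (n 1276 z z)))))) (n 1 (n 2 z (n 7673403 z (n 7680355 z
 (n 1276 z (n 1276 z (n 1276 z z)))))) (n 1 (n 1276 z (n 7673403 z (n 7680355 z (n 76 z (n 1276
 z (n 1276 z z)))))) (n 0 z (n 0 z (n 0 z (n 0 z (n 0 z (n 0 z (n 0 z (n 1 (n 7741699 z (n
 7741699 z (n 7741699 z (n 7741699 z (n 7741699 z (n 7741699 z z)))))) (n 0 z (n 1 (n 1276 z (n
 10 z (n 7680355 z (n 1276 z (n 1276 z (n 7673403 z z)))))) (n 1 (n 7741699 z (n 7741699 z (n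
 7741699 z (n 7741699 z (n 7741699 z (n 7741699 z z)))))) z)))))))))))))) (n 11 (n 1 (n 7741699
 z (n 7741699 z (n 7741699 z (n 7741699 z (n 7741699 z (n 7741699 z z)))))) (n 1 (n 7741699 z (n
 7741699 z (n 7741699 z (n 7741699 z (n 7741699 z (n 7741699 z z)))))) (n 0 z (n 0 z (n 0 z
 z))))) (n 27 (n 0 z (n 1 (n 3388 z (n 3388 z (n 7680355 z (n 3388 z (n 7538203 z (n 3388 z
 z)))))) (n 0 z (n 1 (n 3388 z (n 3388 z (n 7680355 z (n 3388 z (n 7538203 z (n 3388 z z))))))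
 (n 1 (n 7741699 z (n 7741699 z (n 7741699 z (n 7741699 z (n 7741699 z (n 7741699 z z)))))) (n 1
 (n 7746843 z (n 7746843 z (n 7680355 z (n 7746843 z (n 7746843 z (n 7746843 z z)))))) (n 1 (n
 7746843 z (n 7746843 z (n 7680355 z (n 7746843 z (n 7746843 z (n 7746843 z z)))))) (n 0 z
 z)))))))) (n 37 (n 1 (n 7680355 z (n 7680355 z (n 7754035 z (n 7680355 z (n 7680355 z (n
 7680355 z z)))))) (n 0 z (n 1 (n 2164555 z (n 7673403 z (n 7754035 z (n 2164555 z (n 2164555 z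
 (n 7750427 z z)))))) (n 0 z (n 0 z (n 0 z (n 0 z (n 1 (n 2572 z (n 7673403 z (n 7754035 z (n
 7750427 z (n 2572 z (n 12 z z)))))) (n 0 z z))))))))) (n 0 (n 0 z (n 1 (n 7741699 z (n 7741699
 z (n 7741699 z (n 7741699 z (n 7741699 z (n 7741699 z z)))))) (n 1 (n 5356 z (n 6358859 z (n
 7680355 z (n 6496371 z (n 5356 z (n 7538203 z z)))))) (n 0 z (n 1 (n 5356 z (n 18 z (n 7680355
 z (n 7538203 z (n 5356 z (n 7673403 z z)))))) (n 1 (n 7754035 z (n 7754035 z (n 7754035 z (n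
 7754035 z (n 7754035 z (n 7754035 z z)))))) (n 0 z (n 1 (n 7741699 z (n 7741699 z (n 7741699 z
 (n 7741699 z (n 7741699 z (n 7741699 z z)))))) (n 0 z (n 1 (n 5356 z (n 7673403 z (n 7680355 z
 (n 348 z (n 5356 z (n 6562163 z z)))))) (n 1 (n 5356 z (n 7538203 z (n 7680355 z (n 26 z (n
 5356 z (n 7673403 z z)))))) z))))))))))) (n 11 (n 1 (n 7741699 z (n 7741699 z (n 7741699 z (n
 7741699 z (n 7741699 z (n 7741699 z z)))))) (n 1 (n 7741699 z (n 7741699 z (n 7741699 z (n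
 7741699 z (n 7741699 z (n 7741699 z z)))))) (n 0 z (n 0 z (n 0 z z))))) z))))))) (n 0 (n 0 (n 0
 z (n 0 z (n 0 z (n 0 z z)))) (n 0 (n 0 z (n 0 z (n 0 z z))) (n 0 (n 0 z (n 0 z z)) (n 0 (n 0 z
 z) z)))) (n 0 (n 159 (n 0 (n 0 z (n 0 z (n 0 z (n 0 z z)))) (n 0 (n 0 z (n 0 z (n 0 z (n 0 z
 z)))) (n 0 (n 0 (n 8800043 z (n
 0x1d8758217df85f7e18208208a08207a081f81f7e081f7e07df81f82085f8217e18608208208217e00041 z z)) (n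
 0 z (n 0 z (n 0 z z)))) (n 0 (n 0 z (n 0 z (n 0 z (n 0 z z)))) (n 0 (n 0 z (n 0 z (n 0 z (n 0 z
 z)))) (n 0 (n 0 (n 8800043 z z) (n 0 z (n 0 z (n 0 z z)))) (n 0 (n 0 z (n 0 z (n 0 z (n 0 z
 z)))) (n 0 (n 0 z (n 0 z (n 0 z (n 0 z z)))) (n 0 (n 0 z (n 0 z (n 0 z (n 0 z z)))) (n 0 (n 0 z
 (n 0 z (n 0 z (n 0 z z)))) (n 0 (n 0 z (n 0 z (n 0 z (n 0 z z)))) (n 0 (n 0 z (n 0 z (n 0 z (n
 0 z z)))) (n 0 (n 0 z (n 0 (n 8871971 z (n 8871971 z z)) (n 0 (n 8871971 z (n 8871971 z z)) (n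
 0 z z)))) (n 0 (n 0 z (n 0 z (n 0 z (n 0 z z)))) (n 0 (n 0 z (n 0 z (n 0 z (n 0 z z)))) (n 0 (n
 0 z (n 0 z (n 0 z (n 0 z z)))) z)))))))))))))))) (n 335 (n 0 (n 0 z (n 0 z (n 0 z (n 0 z z))))
 (n 0 (n 0 z (n 0 z (n 0 z (n 0 z z)))) (n 0 (n 0 z (n 0 z (n 0 z (n 0 z z)))) (n 0 (n 0 z (n 0
 z (n 0 z (n 0 z z)))) (n 0 (n 0 z (n 0 z (n 0 z (n 0 z z)))) (n 0 (n 0 z (n 0 z (n 0 z (n 0 z
 z)))) (n 0 (n 0 z (n 0 z (n 0 z (n 0 z z)))) z))))))) (n 33 (n 0 (n 0 z (n 0 z (n 0 z (n 0 z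
 z)))) (n 0 (n 0 z (n 0 z (n 0 z (n 0 z z)))) (n 0 (n 0 z (n 0 z (n 0 z (n 0 z z)))) (n 0 (n 0 z
 (n 0 z (n 0 z (n 0 z z)))) (n 0 (n 0 (n
 0x36c3a805c8758137db7fd84e7bb8217ed8097e67ff81c8107f87e58188047ea80d8157ed7ca80f8038107e78287c37ff81982d7e47d77ed82b7f781b79882282b8057fc81a7eb81e82180080080e7f57f20091
 z z) (n 0 z (n 0 z (n 0 z z)))) (n 0 (n 0 z (n 0 z (n 0 z (n 0 z z)))) (n 0 (n 0 z (n 0 z (n 0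
 z (n 0 z z)))) (n 0 (n 0 z (n 0 (n 8802611 z (n 8802611 z z)) (n 0 z (n 0 z z)))) (n 0 (n 0 (n
 0x23b8767fa600822bd743b9bc71a81e6f48a09818007fb511b1382767881a9d18163cf9167b99d86bc82543c7c79a89465fa6ee714bfd67e996215a95c5172a84d8f26ce86eac27a79568416758090051
 z (n
 0x19d8757eca017ff48eb766438e57d29017896fc7dc82faa354476f9aa7986537b1af97748046888fb79eb727ef6aa6a19948e488c4e4a2769ecbc60946f9587476b194277064f83d7397c28c28030051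
 z z)) (n 0 z (n 0 z (n 0 z z)))) (n 0 (n 0 (n
 0x36c3a805c8758137db7fd84e7bb8217ed8097e67ff81c8107f87e58188047ea80d8157ed7ca80f8038107e78287c37ff81982d7e47d77ed82b7f781b79882282b8057fc81a7eb81e82180080080e7f57f20091
 z z) (n 0 (n
 0x1a38657d48a77f770c8c67a48627c585f79d76a8287f28ca71a81389384572a8638c977684478687d7f38c38257eb7868747f68206b388579e98d6f36d087a8507f384280677c81a76b7e189f7c80051
 z z) (n 0 z (n 0 z z)))) (n 0 (n 0 z (n 0 (n 8728931 z (n 8728931 z z)) (n 0 (n 8728931 z (n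
 8728931 z z)) (n 0 (n 8728931 z (n 8728931 z z)) z)))) (n 0 (n 0 z (n 0 (n 8790275 z z) (n 0 (n
 8790275 z z) (n 0 z z)))) (n 0 (n 0 z (n 0 z (n 0 z (n 0 z z)))) (n 0 (n 0 z (n 0 z (n 0 z (n 0
 z z)))) (n 0 (n 0 z (n 0 (n 7755819 z (n 8873275 z z)) (n 0 (n 7755819 z (n
 0x3062ea080781f82082082082082085f7e085f7e08208208608208208207e08208207e08207e08218208210801 z
 z)) (n 0 z z)))) (n 0 (n 0 z (n 0 (n 8873275 z (n 8873275 z z)) (n 0 (n 8795979 z (n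
 0x3062ea080785f82082082082082181f82081f7e082085f8608208218227e082082081f7e17e08208207e10801 z
 z)) (n 0 z z)))) (n 0 (n 0 z (n 0 z (n 0 (n 8790275 z z) (n 0 z z)))) (n 0 (n 0 z (n 0 (n
 8790275 z (n 8790275 z z)) (n 0 (n 8790275 z (n 8790275 z z)) (n 0 z z)))) (n 0 (n 0 z (n 0 z
 (n 0 z (n 0 z z)))) (n 0 (n 0 z (n 0 (n 5507195 z z) (n 0 z (n 0 (n
 0x30e90e860381f8208218608208218207e189f8608208607a081f8608208208208217e08207e08608218200801 z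
 z) z)))) (n 0 (n 0 z (n 0 z (n 0 z (n 0 z z)))) (n 0 (n 0 z (n 0 z (n 0 z (n 0 z z))))
 z)))))))))))))))))))))) (n 423 (n 0 (n 0 z (n 0 z (n 0 z (n 0 z z)))) (n 0 (n 0 z (n 0 z (n 0 z
 (n 0 z z)))) (n 0 (n 0 z (n 0 z (n 0 z (n 0 z z)))) (n 0 (n 0 (n
 0x1a38747d48a77f770c8c67a48627c585f79d76a8287f28ca71a81389384572a8638c977684478687d7f38c38257eb7868747f68206b388579e98d6f36d087a8507f384280677c81a76b7e189f7c80051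
 z (n
 0x30a90a820381f7e082189f8618227e07a18a089f82085e7a081e8617e07e085f8618207e281f8607e18200801 z
 z)) (n 0 z (n 0 z (n 0 z z)))) (n 0 (n 0 z (n 0 z (n 0 z (n 0 z z)))) (n 0 (n 0 z (n 0 z (n 0 z
 (n 0 z z)))) (n 0 (n 0 z (n 0 z (n 0 z (n 0 z z)))) (n 0 (n 0 z (n 0 z (n 0 z (n 0 z z)))) (n 0
 (n 0 z (n 0 z (n 0 z (n 0 z z)))) (n 0 (n 0 z (n 0 z (n 0 z (n 0 z z)))) (n 0 (n 0 z (n 0 z (n
 0 z (n 0 z z)))) (n 0 (n 0 z (n 0 z (n 0 z (n 0 z z)))) (n 0 (n 0 z (n 0 z (n 0 z (n 0 z z))))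
 (n 0 (n 0 z (n 0 z (n 0 z (n 0 z z)))) (n 0 (n 0 z (n 0 z (n 0 z (n 0 z z)))) (n 0 (n 0 z (n 0
 z (n 0 z (n 0 z z)))) z)))))))))))))))) (n 411 (n 0 (n 0 z (n 0 z (n 0 z (n 0 z z)))) (n 0 (n 0
 z (n 0 z (n 0 z (n 0 z z)))) (n 0 (n 0 z (n 0 z (n 0 z (n 0 z z)))) (n 0 (n 0 z (n 0 z (n 0 z
 (n 0 z z)))) (n 0 (n 0 (n 8455499 z z) (n 0 z (n 0 z (n 0 z z)))) (n 0 (n 0 z (n 0 (n 8660843 z
 z) (n 0 z (n 0 (n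
 0x3062ea08038608208208208208208608208208208208208208208208208208208208208208208208208200801 z
 z) z)))) (n 0 (n 0 z (n 0 z (n 0 z (n 0 z z)))) (n 0 (n 0 z (n 0 z (n 0 z (n 0 z z)))) (n 0 (n
 0 (n
 0x658707f28167ff7d48247f180b7fe80f7f67e27e081f8087fc8087f28057dc7fd8547dd8277c58257dc82280b7f87cd8138188167bf7fd7ee8687f37cf8037fa8177f87fa7bc8077ef7f980f8050051
 z (n
 0x6ec38005387080e612805b6d4719c274a8407058818ed7b3843510b758905e682996b7ba56c87b89490773c7af46e7f49a793562b76c752b4d5a7993344a96b906b085096869e8909877898d886e7188050091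
 z z)) (n 0 (n
 0x1a38727d48a77f770c8c67a48627c585f79d76a8287f28ca71a81389384572a8638c977684478687d7f38c38257eb7868747f68206b388579e98d6f36d087a8507f384280677c81a76b7e189f7c80051
 z (n
 0x30e90a800785f8218208208208208207e086082082086082081f8608207e08208208208207e08608208200801 z
 z)) (n 0 z (n 0 (n
 0x3062ea08038608208208208208208208208208208207e08208208208208208208208208208208208208200801 z
 (n 0x3062ea08038608208208208208208208208207e08208208208208208208208208208208208208208208200801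
 z z)) z)))) (n 0 (n 0 (n
 0x16c3b00248768087f17ff8207e480d7f88037f580080b8067fd7f58098027f78058097f87ea8078018077f58107e77ff80a8137f57ef7f88127fc80b7d580e8118027ff8097f880c80e7ff8008067fb7f90091
 z (n
 0x16b8767fc6b8816a7659791d76c8137558668f68007fd61f9f881970581192980e5518b27d292e7318175977dc90f8d16b3751769a8d7099044379a7ac477783189b73c8469c47c78db82a7038060051
 z z)) (n 0 (n
 0x1a38727d48a77f770c8c67a48627c585f79d76a8287f28ca71a81389384572a8638c977684478687d7f38c38257eb7868747f68206b388579e98d6f36d087a8507f384280677c81a76b7e189f7c80051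
 z (n 8795979 z z)) (n 0 z (n 0 (n 8859971 z (n 8859971 z z)) z)))) (n 0 (n 0 z (n 0 z (n 0 z (n
 0 z z)))) (n 0 (n 0 z (n 0 z (n 0 z (n 0 z z)))) (n 0 (n 0 z (n 0 z (n 0 z (n 0 z z)))) (n 0 (n
 0 z (n 0 z (n 0 z (n 0 (n
 0x3062ea08038608208208208208208208208208208208208208208208208208208208208208208208208200801 z
 z) z)))) (n 0 (n 0 z (n 0 z (n 0 z (n 0 z z)))) (n 0 (n 0 z (n 0 z (n 0 z (n 0 z z)))) (n 0 (n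
 0 z (n 0 z (n 0 z (n 0 z z)))) (n 0 (n 0 z (n 0 z (n 0 z (n 0 (n
 0x2ea50628038608208208208208208608208208208208208208208208208208208208208208208208208200801 z
 z) z)))) (n 0 (n 0 z (n 0 z (n 0 z (n 0 z z)))) (n 0 (n 0 (n
 0x46c38003b8708096c4803a315b992078c82975f8538987ce82c61fa3685c6a881a8e87d365a84f85f8a87827cc5b77f990f8c76d47a1791a1e67f9024f89a8a487288338e771d85c8fa7b488a84676b8030091
 z (n
 0xf0e5080a077c88af8036c393576b85f7e58877c87a47dc8258e07017c48a87ed7528139107a880778186a7bc93881078975889886b8556c78de76f9f170a6ae8927c779684c7b874d83e7a77c785880f0811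
 z z)) (n 0 z (n 0 z (n 0 z z)))) (n 0 (n 0 z (n 0 z (n 0 z (n 0 z z)))) (n 0 (n 0 (n 8861275 z
 (n 8861275 z z)) (n 0 (n
 0x14b8727dd8867f973d89e7b684e7d184b7b17888207f58a174980f8758377558508a179283779e8647f689c81e7ef79e85d7f78196f586a7b293e72970d8618407f68358057978147897e787f7d40051
 z (n
 0x6ec3a005387480e612805b6d4719c274a8407058818ed7b3843510b758905e682996b7ba56c87b89490773c7af46e7f49a793562b76c752b4d5a7993344a96b906b085096869e8909877898d886e7188050091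
 z z)) (n 0 z (n 0 (n
 0x10e90e84078a082082082082082086081f7e07e08207e08208208208208208208208218608207e18608200801 z
 (n 0x2ea50628038608208208208208208208208208208208208208208208208208208208208608208208208200801
 z z)) z)))) (n 0 (n 0 z (n 0 z (n 0 z (n 0 z z)))) (n 0 (n 0 z (n 0 z (n 0 z (n 0 z z)))) (n 0
 (n 0 z (n 0 z (n 0 z (n 0 z z)))) (n 0 (n 0 z (n 0 z (n 0 z (n 0 z z)))) (n 0 (n 0 z (n 0 z (n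
 0 z (n 0 z z)))) (n 0 (n 0 z (n 0 z (n 0 z (n 0 z z)))) (n 0 (n 0 (n
 0x258758217e08207e07df8218a081f7a081f81f7a081f7e07df81e7e085e7e17e185f8218207e17e00041 z (n
 0x6d8757ef81c7ff7c982d7ed80e7fd8127f47da7d882780a7fc80a7ef8057d37fd86a7d48317b782d7d382a80d7f67c081881e81b7ae7fc7ea8827f07c38037f881d7f57f97ab8097eb7f78128070051
 z z)) (n 0 (n
 0x30a90a80037e08208208208207a08208208208208208208208208208208208208208208208208208208200801 z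
 (n
 0x6ec3a005387480e612805b6d4719c274a8407058818ed7b3843510b758905e682996b7ba56c87b89490773c7af46e7f49a793562b76c752b4d5a7993344a96b906b085096869e8909877898d886e7188050091
 z z)) (n 0 z (n 0 (n
 0x30e90e800789f82082082082082086181f7e07e08207e08608208208208208208208208208208218208200801 z
 (n 0x2ecb06280785f8607e08208208607e07e18a07e082085f8208608208207e18608207e08217df8208207e10801
 z z)) z)))) (n 0 (n 0 z (n 0 z (n 0 z (n 0 z z)))) (n 0 (n 0 z (n 0 z (n 0 z (n 0 z z)))) (n 0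
 (n 0 z (n 0 z (n 0 z (n 0 z z)))) (n 0 (n 0 z (n 0 (n 8790275 z z) (n 0 z (n 0 z z)))) (n 0 (n
 0 z (n 0 z (n 0 z (n 0 z z)))) (n 0 (n 0 z (n 0 z (n 0 z (n 0 z z)))) (n 0 (n 0 z (n 0 z (n 0 z
 (n 0 z z)))) z)))))))))))))))))))))))))))))))))))) (n 51 (n 0 (n 0 z (n 0 (n
 0x1c38107fb66781bb124fc96374881872a8809348007fc5a7a7781f6c68159758124a58df7c697a6fd81d4fd7d3953905662725743b316cb945344a11b7475483e8c270b858a347b99128346c48070051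
 z z) (n 0 (n
 0x1738107fc6b9816a7559691c76d8137558668f67ff7fd6209f881970581092a80e5518b37d192e7318175977dc90f8d16b5750769a8e7099044379a7ac577683189b73d8479c37c78da82a7038060051
 z z) (n 0 z z)))) (n 0 (n 0 (n
 0x23b8767fa600822bd743b9bc71a81e6f48a09818007fb511b1382767881a9d18163cf9167b99d86bc82543c7c79a89465fa6ee714bfd67e996215a95c5172a84d8f26ce86eac27a79568416758090051
 z (n 0x1d8758617e08207e079f8218608207a081f85f7e08207e07df81f82085f8217e18608228207e17a00041 z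
 z)) (n 0 (n
 0x1a38757d48a77f770c8c67a48627c585f79d76a8287f28ca71a81389384572a8638c977684478687d7f38c38257eb7868747f68206b388579e98d6f36d087a8507f384280677c81a76b7e189f7c80051
 z (n 8795979 z z)) (n 0 z (n 0 z z)))) (n 0 (n 0 z (n 0 (n
 0x1cb8747fb66781cb134fc96374881772a8809348007fc5a7a7681f6c68159758114a68df7c79796fd81d4fc7d2953905661724743b316cd946344a11b7575583e8c070b858a347b99118346c48070051
 z z) (n 0 (n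
 0x1c38747fb66681bb134fc9647488187298809348007fc5a7a7681f6c68159748114a68df7c797a6fd81d4fc7d2953906661725743b316cc945344a10b7475583d8c270b858a357b99118346c58070051
 z z) (n 0 z z)))) (n 0 (n 0 z (n 0 (n
 0x23b8747fa600822bd743b9bc71a81e6f48a09818007fb511b1382767881a9d18163cf9167b99d86bc82543c7c79a89465fa6ee714bfd67e996215a95c5172a84d8f26ce86eac27a79568416758090051
 z z) (n 0 (n
 0x1238747fd6fb8129f76128e378a80f7768518c58007fd67f99381473780e8ee80b5db88e7db8f275a8126127e38d98a76f7774787a0b73a8d04f8951a3679382787c76383996a7d38af8227358050051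
 z z) (n 0 z z)))) (n 0 (n 0 z (n 0 z (n 0 z (n 0 z z)))) (n 0 (n 0 z (n 0 z (n 0 z (n 0 z z))))
 (n 0 (n 0 z (n 0 (n 8790275 z z) (n 0 (n 8790275 z z) (n 0 z z)))) (n 0 (n 0 z (n 0 z (n 0 z (n
 0 z z)))) (n 0 (n 0 z (n 0 (n 8728931 z z) (n 0 z (n 0 z z)))) (n 0 (n 0 z (n 0 z (n 0 z (n 0 z
 z)))) z)))))))))) (n 321 (n 0 (n 0 z (n 0 z (n 0 z (n 0 z z)))) (n 0 (n 0 z (n 0 z (n 0 z (n 0
 z z)))) (n 0 (n 0 (n 8800043 z (n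
 0x8d8737ea8237ff7bb8387e88117fd8167f17d17ce83180c7fa80c7eb8077c87fd8847c983d7a58397c88348117f37b081e82682279a7fb7e48a37eb7b48047f68257f37f779680b7e67f58178080051
 z z)) (n 0 z (n 0 z (n 0 z z)))) (n 0 (n 0 z (n 0 z (n 0 z (n 0 z z)))) (n 0 (n 0 z (n 0 z (n 0
 z (n 0 z z)))) (n 0 (n 0 z (n 0 z (n 0 z (n 0 z z)))) (n 0 (n 0 z (n 0 z (n 0 z (n 0 z z)))) (n
 0 (n 0 z (n 0 z (n 0 z (n 0 z z)))) (n 0 (n 0 (n 8861275 z (n 8861275 z z)) (n 0 z (n 0 z (n 0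
 z z)))) (n 0 (n 0 z (n 0 z (n 0 (n 8871971 z (n 8871971 z z)) (n 0 z z)))) (n 0 (n 0 z (n 0 z
 (n 0 z (n 0 z z)))) (n 0 (n 0 z (n 0 z (n 0 z (n 0 z z)))) z)))))))))))) (n 81 (n 0 (n 0 z (n 0
 z (n 0 z (n 0 z z)))) (n 0 (n 0 z (n 0 z (n 0 z (n 0 z z)))) (n 0 (n 0 z (n 0 z (n 0 z (n 0 z
 z)))) (n 0 (n 0 z (n 0 z (n 0 z (n 0 z z)))) (n 0 (n 0 (n
 0x2e65080a0381f86082082086186081f81f8208208208207e18208208208208608217e07e07df8208608200801 z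
 (n 8800043 z z)) (n 0 (n 8873275 z (n 8873275 z z)) (n 0 z (n 0 (n
 0x6ec39005387280e612805b6d4719c274a8407058818ed7b3843510b758905e682996b7ba56c87b89490773c7af46e7f49a793562b76c752b4d5a7993344a96b906b085096869e8909877898d886e7188050091
 z (n
 0x30e70e64078a082086082082082086081f7e07e08207e08608208208208208208208218208208218208200801 z
 z)) z)))) (n 0 (n 0 z (n 0 (n 8802611 z (n 8802611 z z)) (n 0 z (n 0 (n 8802611 z (n 8802611 z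
 z)) z)))) (n 0 (n 0 z (n 0 z (n 0 z (n 0 z z)))) (n 0 (n 0 z (n 0 z (n 0 z (n 0 z z)))) (n 0 (n
 0 z (n 0 (n 8660843 z z) (n 0 z (n 0 (n
 0x2ea50826038608208208208208208608208208208208208208208208208208208208208208208208208200801 z
 z) z)))) (n 0 (n 0 z (n 0 (n
 0x758727ef81d8007c982d7ed80e7fd8117f37da7d882780a7fb80a7ef8057d37fd86a7d48317b782e7d382a80e7f57c081881e81b7ae7fc7ea8827ef7c38047f881e7f57f97ab8097eb7f78138070051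
 z (n
 0x30e70e0a0381f82082082082186081f82086082082081f82182086082082082082081f8208208608217e10801 z
 z)) (n 0 z (n 0 (n
 0x6ec39005387280e612805b6d4719c274a8407058818ed7b3843510b758905e682996b7ba56c87b89490773c7af46e7f49a793562b76c752b4d5a7993344a96b906b085096869e8909877898d886e7188050091
 z (n 0xea50826030821 z z)) z)))) (n 0 (n 0 z (n 0 z (n 0 z (n 0 z z)))) (n 0 (n 0 z (n 0 z (n 0
 z (n 0 z z)))) (n 0 (n 0 (n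
 0x1238737fd6fa8129f86128e478a80f7778518c58007fe67f99381473780d8ee80b5da88e7dc8f275a8136127e38d98a76f6774787a0b73a8d04f7953a3679382787c76383896a7d38b08227358050051
 z z) (n 0 z (n 0 z (n 0 z z)))) (n 0 (n 0 z (n 0 z (n 0 z (n 0 z z)))) (n 0 (n 0 z (n 0 z (n 0
 z (n 0 z z)))) (n 0 (n 0 z (n 0 (n
 0x258738217e08207e07df8218a081f7a081f81f7a081f7e07df81e7e085e7e17e185f8218207e17e00041 z (n
 8660843 z z)) (n 0 z (n 0 z z)))) (n 0 (n 0 z (n 0 z (n 0 z (n 0 z z)))) (n 0 (n 0 z (n 0 (n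
 8871971 z (n 8871971 z z)) (n 0 (n 8871971 z (n 8871971 z z)) (n 0 z z)))) (n 0 (n 0 z (n 0 z
 (n 0 z (n 0 z z)))) (n 0 (n 0 z (n 0 z (n 0 z (n 0 z z)))) (n 0 (n 0 z (n 0 z (n 0 z (n 0 z
 z)))) (n 0 (n 0 z (n 0 (n
 0x30650e0a0786082082082082086081f82085f82082086082085f8608208208208208208617df8208208200801 z
 z) (n 0 z (n 0 (n
 0x30ed0e06078a08208618207e082082082081f7e082081f8608208607e07e08218208208207df7e18208200801 z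
 z) z)))) (n 0 (n 0 z (n 0 z (n 0 z (n 0 z z)))) (n 0 (n 0 z (n 0 z (n 0 z (n 0 z z)))) (n 0 (n
 0 z (n 0 z (n 0 z (n 0 z z)))) (n 0 (n 0 z (n 0 z (n 0 z (n 0 z z)))) (n 0 (n 0 z (n 0 z (n 0 z
 (n 0 z z)))) (n 0 (n 0 z (n 0 z (n 0 z (n 0 z z)))) (n 0 (n 0 z (n 0 z (n 0 z (n 0 z z)))) (n 0
 (n 0 z (n 0 z (n 0 z (n 0 (n
 0x30a70a64037e08208208208208207e08208208208208208208208208208208207e18208207e08208208200801 z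
 z) z)))) (n 0 (n 0 z (n 0 z (n 0 z (n 0 z z)))) (n 0 (n 0 z (n 0 z (n 0 z (n 0 z z)))) (n 0 (n
 0 z (n 0 z (n 0 z (n 0 z z)))) (n 0 (n 0 z (n 0 z (n 0 z (n 0 z z)))) (n 0 (n 0 z (n 0 z (n 0 z
 (n 0 z z)))) z))))))))))))))))))))))))))))))))))) (n 75 (n 0 (n 0 z (n 0 z (n 0 (n 8799003 z (n
 8799003 z z)) (n 0 (n 8799003 z (n 8799003 z z)) z)))) (n 0 (n 0 z (n 0 z (n 0 z (n 0 z z))))
 (n 0 (n 0 z (n 0 z (n 0 z (n 0 z z)))) (n 0 (n 0 z (n 0 z (n 0 (n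
 0x10ed0ec60789f8618208208208208207e08207e082085f82085f8218207e081f8208208217e08218207e10801 z
 (n 0x10eb0c62030821 z z)) (n 0 (n
 0x30e8ec26078608608208208208208208208207a08208208208208208208208208208208608208208208200801 z
 (n 8660763 z z)) z)))) (n 0 (n 0 z (n 0 z (n 0 z (n 0 z z)))) (n 0 (n 0 z (n 0 z (n 0 z (n 0 z
 z)))) (n 0 (n 0 z (n 0 z (n 0 (n 8660843 z (n 6359163 z z)) (n 0 (n
 0x30e8ec26078207df8218608208208208608207e082081f8608208218208208617e08208608208608207e00801 z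
 (n 8660763 z z)) z)))) (n 0 (n 0 z (n 0 z (n 0 z (n 0 z z)))) (n 0 (n 0 z (n 0 z (n 0 z (n 0 z
 z)))) (n 0 (n 0 z (n 0 z (n 0 z (n 0 z z)))) (n 0 (n 0 z (n 0 z (n 0 z (n 0 z z))))
 z))))))))))) (n 37 (n 0 (n 0 z (n 0 z (n 0 z (n 0 z z)))) (n 0 (n 0 z (n 0 z (n 0 z (n 0 z
 z)))) (n 0 (n 0 z (n 0 z (n 0 z (n 0 z z)))) (n 0 (n 0 z (n 0 z (n 0 z (n 0 z z)))) (n 0 (n 0 z
 (n 0 (n
 0x1a38607d48a77f770c8c67a48627c585f79d76a8287f28ca71a81389384572a8638c977684478687d7f38c38257eb7868747f68206b388579e98d6f36d087a8507f384280677c81a76b7e189f7c80051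
 z (n 8660843 z z)) (n 0 z (n 0 (n 8660763 z (n
 0x1a38607d48a77f770c8c67a48627c585f79d76a8287f28ca71a81389384572a8638c977684478687d7f38c38257eb7868747f68206b388579e98d6f36d087a8507f384280677c81a76b7e189f7c80051
 z z)) z)))) (n 0 (n 0 z (n 0 z (n 0 z (n 0 z z)))) (n 0 (n 0 z (n 0 z (n 0 z (n 0 z z)))) (n 0
 (n 0 z (n 0 z (n 0 z (n 0 z z)))) (n 0 (n 0 z (n 0 z (n 0 z (n 0 z z)))) z))))))))) (n 669 (n 0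
 (n 0 z (n 0 z (n 0 z (n 0 z z)))) (n 0 (n 0 z (n 0 z (n 0 z (n 0 z z)))) (n 0 (n 0 z (n 0 z (n
 0 z (n 0 z z)))) (n 0 (n 0 z (n 0 z (n 0 z (n 0 z z)))) (n 0 (n 0 z (n 0 z (n 0 z (n 0 z z))))
 (n 0 (n 0 z (n 0 z (n 0 (n
 0x1cb8747fb66781cb134fb96474881872987f9348007fc5a7a7681f6c68159758124a68de7c79796fe81e4fc7d2954905661725743b316cb945344a11b7475583e8c270b858a337b99118356c48060051
 z z) (n 0 z z)))) (n 0 (n 0 z (n 0 z (n 0 z (n 0 z z)))) (n 0 (n 0 z (n 0 z (n 0 z (n 0 z z))))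
 (n 0 (n 0 z (n 0 z (n 0 (n 8871971 z z) (n 0 z z)))) (n 0 (n 0 z (n 0 z (n 0 z (n 0 z z)))) (n
 0 (n 0 z (n 0 z (n 0 z (n 0 z z)))) (n 0 (n 0 z (n 0 z (n 0 z (n 0 z z)))) z)))))))))))) (n 653
 (n 0 (n 0 z (n 0 z (n 0 z (n 0 z z)))) (n 0 (n 0 z (n 0 z (n 0 z (n 0 z z)))) (n 0 (n 0 z (n 0
 z (n 0 (n
 0x6ec39805387380e612805b6d4719c274a8407058818ed7b3843510b758905e682996b7ba56c87b89490773c7af46e7f49a793562b76c752b4d5a7993344a96b906b085096869e8909877898d886e7188050091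
 z (n 8660843 z z)) (n 0 (n
 0x6ec39805387380e612805b6d4719c274a8407058818ed7b3843510b758905e682996b7ba56c87b89490773c7af46e7f49a793562b76c752b4d5a7993344a96b906b085096869e8909877898d886e7188050091
 z (n
 0x30e8e8460785f8208608608208208208208207e08207e08208208208208208208208208208208208208200801 z
 z)) z)))) (n 0 (n 0 z (n 0 z (n 0 (n
 0x30e70e640785f8608208208208208207e08208208208208208208208607e08208208208218208218207e00801 z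
 (n 8660843 z z)) (n 0 (n
 0x30e8e846078608208208208208208208208207e08207e08208208208208208208208208208208208208200801 z
 (n 0x30e8e8460785f8208608608208208208208207e08207e08208208208208208208208208208208208208200801
 z z)) z)))) (n 0 (n 0 z (n 0 z (n 0 z (n 0 z z)))) (n 0 (n 0 z (n 0 z (n 0 z (n 0 z z)))) (n 0
 (n 0 z (n 0 z (n 0 z (n 0 z z)))) (n 0 (n 0 z (n 0 z (n 0 z (n 0 z z)))) (n 0 (n 0 z (n 0 z (n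
 0 z (n 0 z z)))) (n 0 (n 0 z (n 0 z (n 0 z (n 0 z z)))) (n 0 (n 0 z (n 0 z (n 0 z (n 0 z z))))
 (n 0 (n 0 z (n 0 z (n 0 (n 8790275 z z) (n 0 z z)))) (n 0 (n 0 z (n 0 z (n 0 z (n 0 z z)))) (n
 0 (n 0 z (n 0 z (n 0 z (n 0 (n 8859971 z (n 8859971 z z)) z)))) (n 0 (n 0 z (n 0 z (n 0 z (n 0
 z z)))) (n 0 (n 0 z (n 0 z (n 0 z (n 0 z z)))) (n 0 (n 0 z (n 0 z (n 0 z (n 0 (n
 0x30e8e8460785f82082082082082086081f8208208208208208208208208208208208208208208208208200801 z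
 (n 0x30e90e46038608208208208208208208208208208208208208208208208208208208208208208208208200801
 z z)) z)))) (n 0 (n 0 z (n 0 z (n 0 z (n 0 z z)))) (n 0 (n 0 z (n 0 (n 8871971 z (n 8871971 z
 z)) (n 0 (n 8871971 z (n 8871971 z z)) (n 0 z z)))) (n 0 (n 0 z (n 0 z (n 0 z (n 0 z z)))) (n 0
 (n 0 z (n 0 (n 8728931 z (n 8728931 z z)) (n 0 z (n 0 (n 8728931 z (n 8728931 z z)) z)))) (n 0
 (n 0 (n
 0x6d8737ee81c8007c982d7ed80d7fe8117f47da7d882780a7fc8097ef8067d37fd86a7d48317b882d7d382a80e7f67c081881e81b7ae7fc7ea8827ef7c38047f981d7f57f97ab8097eb7f78128070051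
 z (n
 0x46c3980338738096c4803a315b992078c82975e8538987cf82b61fa3685c6a881a8e87d365a84f85f8a87837cd5b87f990f8c66d47a1790a1d67f9024f89a8a487288338e771e85c8fa7b388b84776b8030091
 z z)) (n 0 z (n 0 z (n 0 z z)))) (n 0 (n 0 z (n 0 z (n 0 z (n 0 (n
 0x10e90e860382082082082082086081f7e089f8608208608208208208208208208208208218208608208200801 z
 z) z)))) (n 0 (n 0 z (n 0 z (n 0 z (n 0 z z)))) (n 0 (n 0 z (n 0 z (n 0 z (n 0 z z))))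
 z))))))))))))))))))))))))) (n 99 (n 0 (n 0 z (n 0 z (n 0 (n
 0x1cb8747fc66781cb134fc96374881872a87f9348007fb5a7a7681f6c68159748114a68df7c797a6fd81d4fc7d3953905661725744b306ca945345a10b7475483e8c270b858a357b99118356c38080051
 z z) (n 0 z z)))) (n 0 (n 0 (n 8795915 z z) (n 0 z (n 0 z (n 0 z z)))) (n 0 (n 0 z (n 0 z (n 0
 z (n 0 z z)))) (n 0 (n 0 z (n 0 z (n 0 z (n 0 z z)))) (n 0 (n 0 z (n 0 z (n 0 z (n 0 z z)))) (n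
 0 (n 0 z (n 0 z (n 0 z (n 0 z z)))) (n 0 (n 0 z (n 0 z (n 0 z (n 0 z z)))) (n 0 (n 0 z (n 0 z
 (n 0 z (n 0 z z)))) (n 0 (n 0 z (n 0 z (n 0 z (n 0 z z)))) (n 0 (n 0 z (n 0 z (n 0 z (n 0 z
 z)))) (n 0 (n 0 z (n 0 z (n 0 z (n 0 z z)))) (n 0 (n 0 z (n 0 z (n 0 z (n 0 z z))))
 z)))))))))))) (n 43 (n 0 (n 0 z (n 0 z (n 0 z (n 0 z z)))) (n 0 (n 0 z (n 0 z (n 0 z (n 0 z
 z)))) (n 0 (n 0 (n 8795915 z z) (n 0 z (n 0 z (n 0 z z)))) (n 0 (n 0 z (n 0 z (n 0 z (n 0 z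
 z)))) (n 0 (n 0 z (n 0 z (n 0 z (n 0 z z)))) (n 0 (n 0 z (n 0 z (n 0 z (n 0 z z)))) (n 0 (n 0 z
 (n 0 z (n 0 z (n 0 (n 8728931 z z) z)))) (n 0 (n 0 z (n 0 z (n 0 z (n 0 z z)))) (n 0 (n 0 z (n
 0 z (n 0 z (n 0 z z)))) (n 0 (n 0 z (n 0 z (n 0 z (n 0 z z)))) (n 0 (n 0 z (n 0 z (n 0 z (n 0
 (n 8859971 z z) z)))) (n 0 (n 0 z (n 0 z (n 0 z (n 0 (n 8859971 z z) z)))) z)))))))))))) (n 42
 (n 0 (n 0 z (n 0 z (n 0 z (n 0 z z)))) (n 0 (n 0 z (n 0 z (n 0 z (n 0 z z)))) (n 0 (n 0 z (n 0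
 z (n 0 z (n 0 z z)))) (n 0 (n 0 z (n 0 z (n 0 z (n 0 z z)))) (n 0 (n 0 z (n 0 z (n 0 (n
 0x30e70e640785f8608208208208208207e08208208208208208208208607e08208208208218208218207e00801 z
 (n 8660843 z z)) (n 0 (n 8847899 z (n 8847899 z z)) z)))) (n 0 (n 0 z (n 0 z (n 0 z (n 0 z
 z)))) (n 0 (n 0 z (n 0 z (n 0 z (n 0 z z)))) (n 0 (n 0 z (n 0 z (n 0 z (n 0 z z)))) (n 0 (n 0 z
 (n 0 z (n 0 z (n 0 z z)))) (n 0 (n 0 z (n 0 z (n 0 z (n 0 z z)))) (n 0 (n 0 z (n 0 z (n 0 z (n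
 0 z z)))) (n 0 (n 0 z (n 0 z (n 0 z (n 0 z z)))) (n 0 (n 0 z (n 0 z (n 0 z (n 0 (n 8802611 z z)
 z)))) (n 0 (n 0 z (n 0 (n 8802611 z (n 8802611 z z)) (n 0 z (n 0 (n 8802611 z (n 8802611 z z))
 z)))) (n 0 (n 0 z (n 0 z (n 0 z (n 0 z z)))) (n 0 (n 0 z (n 0 (n 8802611 z (n 8802611 z z)) (n
 0 z (n 0 (n 8802611 z (n 8802611 z z)) z)))) (n 0 (n 0 z (n 0 z (n 0 (n 8660843 z z) (n 0 z
 z)))) (n 0 (n 0 z (n 0 z (n 0 z (n 0 z z)))) (n 0 (n 0 z (n 0 z (n 0 z (n 0 (n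
 0x30e8ec060789f7e082185f8208627df7e089f7a07e089e85f8208608217e18607e17e07e37608218217a10801 z
 z) z)))) (n 0 (n 0 z (n 0 z (n 0 z (n 0 z z)))) (n 0 (n 0 z (n 0 z (n 0 z (n 0 z z)))) (n 0 (n
 0 z (n 0 z (n 0 z (n 0 (n
 0x30e8ec260785f86082082082082082182081f7e082081f8608208208208208208208208208208208207e00801 z
 (n 0x30e70e2c0382082082086082082081f82085f7e08208208208208208208208208208207e17e08208207e10801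
 z z)) z)))) (n 0 (n 0 z (n 0 z (n 0 z (n 0 z z)))) (n 0 (n 0 z (n 0 z (n 0 z (n 0 z z)))) (n 0
 (n 0 z (n 0 z (n 0 z (n 0 (n 8728931 z (n 8728931 z z)) z)))) (n 0 (n 0 z (n 0 z (n 0 z (n 0 (n
 8847899 z (n 8847899 z z)) z)))) (n 0 (n 0 z (n 0 z (n 0 (n
 0x1738727fd6b9816a7659791c76d8137558668f68007fc61f9f881870581192a80e5518b37d292e7318185977dc9108d16b5751769a8d7099044379a7ac277783189b73c8469c47c78da8297048060051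
 z z) (n 0 (n 8847899 z z) z)))) (n 0 (n 0 z (n 0 z (n 0 (n 8721979 z (n 8721979 z z)) (n 0 (n
 8721979 z (n 8721979 z z)) z)))) (n 0 (n 0 z (n 0 z (n 0 z (n 0 z z)))) (n 0 (n 0 (n 7473243 z
 (n
 0x2d8767f980b7ff7e98137f98057fe8077fb7f17f08108047fe8047f98027ee7ff82c7ee8147e28137ed8128057fc7e780980c80b7df7fe7f78357f97e78017fc80c7fc7fd7dd8047f77fc8078030051
 z z)) (n 0 z (n 0 z (n 0 z z)))) (n 0 (n 0 (n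
 0x258768217e08207e07df8218a081f7a081f81f7a081f7e07df81e7e085e7e17e185f8218207e17e00041 z (n
 0x758767ee81b7ff7c982d7ee80d7fd8127f47da7d882780b7fb8097ef8067d37fd86a7d48317b782e7d482a80d7f57c081881e81b7ae7fc7ea8827ef7c38037f881d7f67f97ab8097ec7f78128070051
 z z)) (n 0 (n
 0x1a38727d48a77f770c8c67a48627c585f79d76a8287f28ca71a81389384572a8638c977684478687d7f38c38257eb7868747f68206b388579e98d6f36d087a8507f384280677c81a76b7e189f7c80051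
 z (n 8660843 z z)) (n 0 z (n 0 (n
 0x6ec10805382180e612805b6d4719c274a8407058818ed7b3843510b758905e682996b7ba56c87b89490773c7af46e7f49a793562b76c752b4d5a7993344a96b906b085096869e8909877898d886e7188050091
 z (n
 0x6ec10805382180e612805b6d4719c274a8407058818ed7b3843510b758905e682996b7ba56c87b89490773c7af46e7f49a793562b76c752b4d5a7993344a96b906b085096869e8909877898d886e7188050091
 z z)) z)))) (n 0 (n 0 z (n 0 (n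
 0x258728217e08207e07df8218a081f7a081f81f7a081f7e07df81e7e085e7e17e185f8218207e17e00041 z (n
 0x8d8727ea8237ff7bb8387e88117fd8167f17d17ce83180c7fa80c7eb8077c87fd8847c983d7a58397c88348117f37b081e82682279a7fb7e48a37eb7b48047f68257f37f779680b7e67f58178080051
 z z)) (n 0 z (n 0 (n
 0x56c39004387280b675804abe52796876e8337378678be7c28365a6ac48736528209237c95f08638768d37637bf5257f69538f8689789775aa561f942436a12ada6f383f9206e58739397a08ad8587468040091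
 z (n
 0x30e8ec460786082081f82082086081e82085f7e07e08208608208208208208607e18208208208208207e00801 z
 z)) z)))) (n 0 (n 0 z (n 0 z (n 0 z (n 0 z z)))) (n 0 (n 0 z (n 0 z (n 0 (n 8799003 z (n
 8799003 z z)) (n 0 (n 8799003 z (n 8799003 z z)) z)))) (n 0 (n 0 z (n 0 z (n 0 z (n 0 (n
 8728931 z (n 8728931 z z)) z)))) (n 0 (n 0 z (n 0 z (n 0 z (n 0 z z)))) (n 0 (n 0 z (n 0 z (n 0
 z (n 0 z z)))) (n 0 (n 0 z (n 0 z (n 0 z (n 0 z z)))) (n 0 (n 0 z (n 0 z (n 0 z (n 0 z z)))) (n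
 0 (n 0 z (n 0 z (n 0 z (n 0 z z)))) (n 0 (n 0 z (n 0 z (n 0 z (n 0 z z)))) (n 0 (n 0 z (n 0 (n
 8721979 z (n 8721979 z z)) (n 0 z (n 0 (n 8721979 z (n 8721979 z z)) z)))) (n 0 (n 0 z (n 0 z
 (n 0 z (n 0 z z)))) (n 0 (n 0 z (n 0 z (n 0 z (n 0 (n 8721979 z (n 8721979 z z)) z)))) (n 0 (n
 0 z (n 0 z (n 0 z (n 0 z z)))) (n 0 (n 0 z (n 0 z (n 0 z (n 0 (n 8728931 z z) z)))) (n 0 (n 0 z
 (n 0 z (n 0 z (n 0 z z)))) z))))))))))))))))))))))))))))))))))))))))))))))) (n 153 (n 0 (n 0 z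
 (n 0 z (n 0 z (n 0 z z)))) (n 0 (n 0 z (n 0 z (n 0 z (n 0 z z)))) (n 0 (n 0 z (n 0 z (n 0 z (n
 0 z z)))) (n 0 (n 0 z (n 0 z (n 0 z (n 0 z z)))) (n 0 (n 0 z (n 0 z (n 0 z (n 0 z z)))) (n 0 (n
 0 z (n 0 z (n 0 z (n 0 z z)))) (n 0 (n 0 z (n 0 z (n 0 z (n 0 z z)))) (n 0 (n 0 z (n 0 z (n 0 z
 (n 0 z z)))) (n 0 (n 0 z (n 0 z (n 0 z (n 0 z z)))) (n 0 (n 0 z (n 0 z (n 0 z (n 0 z z))))
 z)))))))))) (n 33 (n 0 (n 0 z (n 0 z (n 0 z (n 0 z z)))) (n 0 (n 0 z (n 0 z (n 0 z (n 0 z z))))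
 (n 0 (n 0 z (n 0 (n
 0x258758217e08207e07df8218a081f7a081f81f7a081f7e07df81e7e085e7e17e185f8218207e17e00041 z (n
 0x5d8757f28167ff7d48247f180b7fe80e7f67e27e081f8087fc8087f38047dc7fd8557dd8277c68257dc82280a7f87cd8138188157bf7fd7ee8687f27d08037f98187f87fb7bc8077f07f980f8060051
 z z)) (n 0 (n
 0x8d8737ea8237ff7bb8387e88117fd8167f17d17ce83180c7fa80c7eb8077c87fd8847c983d7a58397c88348117f37b081e82682279a7fb7e48a37eb7b48047f68257f37f779680b7e67f58178080051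
 z (n
 0x6ec39805387380e612805b6d4719c274a8407058818ed7b3843510b758905e682996b7ba56c87b89490773c7af46e7f49a793562b76c752b4d5a7993344a96b906b085096869e8909877898d886e7188050091
 z z)) (n 0 z z)))) (n 0 (n 0 z (n 0 z (n 0 z (n 0 z z)))) (n 0 (n 0 (n 8795915 z z) (n 0 z (n 0
 z (n 0 z z)))) (n 0 (n 0 z (n 0 (n
 0x23b8727fa600822bd743b9bc71a81e6f48a09818007fb511b1382767881a9d18163cf9167b99d86bc82543c7c79a89465fa6ee714bfd67e996215a95c5172a84d8f26ce86eac27a79568416758090051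
 z z) (n 0 (n
 0x23b8727fa600822bd743b9bc71a81e6f48a09818007fb511b1382767881a9d18163cf9167b99d86bc82543c7c79a89465fa6ee714bfd67e996215a95c5172a84d8f26ce86eac27a79568416758090051
 z z) (n 0 z z)))) (n 0 (n 0 z (n 0 (n
 0x6ec3a805387580e612805b6d4719c274a8407058818ed7b3843510b758905e682996b7ba56c87b89490773c7af46e7f49a793562b76c752b4d5a7993344a96b906b085096869e8909877898d886e7188050091
 z (n
 0x10eb0ea6038217a086085f8207e186082081f81f8208208207e186082086182082186082082182081f8200801 z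
 z)) (n 0 z (n 0 (n
 0x30e8e8060785f82082082082082086081f82082081f8208208208208208208208208208208208208208200801 z
 (n 0x30e8e8060786082082082182082086081f8208208208208208208208208208208208208208208208208200801
 z z)) z)))) (n 0 (n 0 z (n 0 (n
 0x30eb0e60078607df8607e182082086281f7e07e07e07e085f82182081f8217e17e08208608217e18208200801 z
 z) (n 0 z (n 0 (n
 0x30e8e8460786082082082082082086081f8208208208208208208208208208208208208208208208208200801 z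
 z) z)))) (n 0 (n 0 z (n 0 z (n 0 z (n 0 z z)))) (n 0 (n 0 z (n 0 z (n 0 z (n 0 z z)))) (n 0 (n
 0 z (n 0 z (n 0 z (n 0 z z)))) (n 0 (n 0 z (n 0 (n 8871971 z (n 8871971 z z)) (n 0 (n 8871971 z
 (n 8871971 z z)) (n 0 z z)))) (n 0 (n 0 z (n 0 z (n 0 z (n 0 z z)))) (n 0 (n 0 z (n 0 z (n 0 z
 (n 0 z z)))) z)))))))))))))) (n 11 (n 0 (n 0 z (n 0 z (n 0 z (n 0 z z)))) (n 0 (n 0 z (n 0 z (n
 0 z (n 0 z z)))) (n 0 (n 0 z (n 0 (n 8790275 z (n 8790275 z z)) (n 0 z (n 0 z z)))) (n 0 (n 0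
 (n 8795915 z z) (n 0 z (n 0 z (n 0 z z)))) (n 0 (n 0 z (n 0 (n 8790275 z z) (n 0 z (n 0 z z))))
 z))))) (n 27 (n 0 (n 0 z (n 0 z (n 0 z (n 0 z z)))) (n 0 (n 0 z (n 0 z (n 0 z (n 0 z z)))) (n 0
 (n 0 z (n 0 z (n 0 z (n 0 z z)))) (n 0 (n 0 z (n 0 z (n 0 z (n 0 z z)))) (n 0 (n 0 z (n 0 z (n
 0 z (n 0 z z)))) (n 0 (n 0 z (n 0 z (n 0 z (n 0 z z)))) (n 0 (n 0 z (n 0 (n 8795419 z z) (n 0 z
 (n 0 z z)))) (n 0 (n 0 z (n 0 (n 8790275 z z) (n 0 z (n 0 z z)))) z)))))))) (n 1 (n 0 (n 0 z (n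
 0 z (n 0 z (n 0 z z)))) (n 0 (n 0 z (n 0 z (n 0 z (n 0 z z)))) (n 0 (n 0 z (n 0 z (n 0 z (n 0 z
 z)))) (n 0 (n 0 z (n 0 z (n 0 z (n 0 z z)))) (n 0 (n 0 z (n 0 z (n 0 z (n 0 z z)))) (n 0 (n 0 z
 (n 0 z (n 0 z (n 0 z z)))) (n 0 (n 0 z (n 0 z (n 0 z (n 0 z z)))) (n 0 (n 0 z (n 0 z (n 0 z (n
 0 z z)))) (n 0 (n 0 z (n 0 z (n 0 z (n 0 z z)))) z))))))))) (n 0 (n 0 (n 0 z (n 0 z (n 0 z (n 0
 z z)))) (n 0 (n 0 z (n 0 z (n 0 z (n 0 z z)))) (n 0 (n 0 z (n 0 z (n 0 z (n 0 z z)))) (n 0 (n 0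
 z (n 0 z (n 0 z (n 0 z z)))) (n 0 (n 0 z (n 0 z (n 0 z (n 0 z z)))) (n 0 (n 0 z (n 0 z (n 0 z
 (n 0 (n 8802611 z z) z)))) (n 0 (n 0 z (n 0 z (n 0 z (n 0 z z)))) (n 0 (n 0 z (n 0 z (n 0 z (n
 0 z z)))) (n 0 (n 0 z (n 0 z (n 0 z (n 0 z z)))) (n 0 (n 0 z (n 0 (n
 0x30650e28078207e082082082082086081f8208208208208208208208208608208208218208208208208200801 z
 z) (n 0 z (n 0 (n 8859971 z z) z)))) (n 0 (n 0 z (n 0 z (n 0 z (n 0 z z)))) z)))))))))))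
 z))))))))))))))))))))) z)))) z) z)))) z)))))))), by decide +kernel⟩
theorem i10773 : ∃ t, chkR KT RW t 10773 10783 = true := ⟨(n
 0xa6574329aa1649d4c8692650469a5008c3002a2a048520153280994c0 (n 0 (n 323 (n 6619947 z (n 2 z (n
 10 z (n
 0x1aa6317f98097f98008028078127ea8128038028207fd7dd8247b88028048018357fe81c7eb80e7e08217e18478057ca8147cb80f7d87f48267ad81f8258098108467ec8147e580d7b77f58197de0051
 z (n 18 z (n 0 z (n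
 0x1aa6517f98097f98008028078127ea8128038028207fd7dd8247b88028048018357fe81c7eb80e7e08217e18478057ca8147cb80f7d87f48267ad81f8258098108467ec8147e580d7b77f58197de0051
 z (n 3282443 z (n 0 z (n 26 z (n 34 z (n 0 z (n 42 z (n 0 z (n
 0x6ca6ca64037fa8067fb7ff8018028117f880c7fe7ff8067fd7f68067fc8027fb7fe8137ec8067f98137ff80d7f78078058077fa7e98078018058057e58038077ff8038047f780280480a8077fb7fe8040811
 z (n
 0x1aa6547f98097f98008028078127ea8128038028207fd7dd8247b88028048018357fe81c7eb80e7e08217e18478057ca8147cb80f7d87f48267ad81f8258098108467ec8147e580d7b77f58197de0051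
 z z)))))))))))))))) (n 317 (n 50 z (n 3278363 z (n 0 z (n 0 z z)))) (n 9 (n 0 z (n 0 z (n 0 z
 (n 0 z (n 0 z (n 0 z (n 0 z (n 58 z (n 0 z (n 0 z (n 3212843 z (n 0 z z)))))))))))) (n 123 (n 0
 z (n 0 z (n 0 z (n 0 z (n 0 z (n 0 z (n 0 z (n 2164283 z (n 0 z (n 0 z (n 0 z (n 0 z (n 0 z
 z))))))))))))) (n 1 (n 0 z (n 0 z (n 0 z (n 2164299 z z)))) (n 0 (n 0 z (n 66 z (n 0 z (n 74 z
 (n 0 z (n
 0x2c86c862038008008008017ff8008007ff8018008007ff7ff7ff8018008007ff8008007ff8008008008008027ff7ff7ff8018007ff8008018007ff7ff7ff8008008008008018008007ff8008018018000811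
 z (n 0 z (n 6619947 z (n 82 z (n 6619947 z (n
 0x48c86c860037f97eb80681980c7fc80c7fc8017fd7f88078037f67fc7f58018007fb80081680d7fb7f97f980d80480a7f98017ff8197ea7ed7f28068008157fe7f67cd8367e68107ef8177fc7eb80480b0811
 z z))))))))))) z)))))) (n 317 (n 0 (n 0 z (n 0 z (n 0 z (n 0 z (n 0 z (n 119 (n 0 z (n 0 z (n 0
 z (n 0 z (n 0 z (n 0 z (n 0 z (n 0 z (n 0 z (n 0 z (n 0 z (n 0 z (n 0 z z))))))))))))) (n 135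
 (n 0 z (n 0 z (n 0 z (n 0 z (n 0 z (n 0 z (n 0 z (n 0 z (n 0 z (n 0 z (n 0 z (n 0 z (n 0 z (n 0
 z (n 0 z (n 0 z z)))))))))))))))) (n 625 (n 0 z (n 0 z (n 0 z (n 0 z (n 0 z (n 0 z (n 0 z (n 0
 z (n 0 z (n 0 z (n 0 z (n 0 z (n 0 z z))))))))))))) (n 625 (n 0 z (n 0 z (n 0 z (n 0 z (n 0 z
 (n 0 z (n 0 z (n 0 z (n 0 z (n 0 z (n 0 z (n 0 z (n 0 z z))))))))))))) (n 625 (n 0 z (n 2 z (n
 0 z (n 0 z (n 0 z (n 0 z (n 0 z (n 0 z (n 0 z (n 0 z (n 0 z (n 0 z (n 0 z z)))))))))))))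
 z)))))))))) (n 0 (n 0 z (n 0 z (n 0 z (n 0 z (n 139 (n 0 z (n 2 (n 1 z (n 1 z (n 1 z (n 2 (n 0
 z (n 0 z (n 0 z (n 0 z (n 0 z (n 0 z z)))))) z)))) (n 0 z (n 0 z (n 0 z (n 0 z (n 0 z (n 0 z (n
 0 z z))))))))) (n 135 (n 0 z (n 0 z (n 0 z (n 0 z (n 2 (n 1 z (n 1 z (n 2 (n 0 z (n 0 z (n 0 z
 (n 0 z (n 0 z (n 0 z z)))))) z))) (n 0 z z)))))) (n 641 (n 0 z (n 0 z (n 0 z (n 0 z (n 0 z (n 0
 z (n 0 z (n 0 z (n 0 z z))))))))) (n 641 (n 2 (n 0 z z) (n 0 z (n 0 z (n 0 z (n 0 z (n 0 z (n 0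
 z (n 0 z (n 0 z z))))))))) (n 641 (n 0 z (n 0 z (n 0 z (n 0 z (n 0 z (n 0 z (n 0 z (n 0 z (n 0
 z z))))))))) z))))))))) (n 0 (n 0 z (n 0 z (n 0 z (n 119 (n 0 z (n 0 z (n 0 z (n 0 z (n 0 z (n
 0 z (n 0 z (n 0 z (n 0 z (n 0 z (n 0 z (n 7737379 z (n 0 z (n 0 z (n 0 z (n 0 z (n 0 z (n 0 z
 (n 0 z (n 0 z (n 0 z (n 0 z (n 0 z (n 0 z (n 0 z (n 0 z (n 0 z (n 0 z (n 0 z
 z))))))))))))))))))))))))))))) (n 107 (n 0 z (n 0 z (n 0 z (n 0 z (n 0 z (n 0 z (n 0 z (n 0 z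
 (n 0 z (n 0 z (n 2 (n 1 z (n 1 z (n 2 (n 0 z (n 0 z (n 0 z (n 0 z (n 0 z (n 0 z z)))))) z))) (n
 0 z (n 0 z (n 0 z z)))))))))))))) (n 637 (n 0 z (n 0 z (n 0 z (n 0 z (n 0 z (n 0 z (n 0 z (n 0
 z (n 0 z (n 0 z (n 0 z (n 0 z (n 0 z (n 0 z (n 0 z (n 0 z (n 0 z (n 0 z (n 0 z (n 0 z (n 0 z (n
 0 z (n 0 z (n 0 z (n 0 z (n 0 z (n 0 z (n 0 z (n 0 z (n 0 z (n 0 z (n 0 z (n 0 z (n 0 z (n 0 z
 (n 0 z (n 0 z (n 0 z (n 0 z (n 0 z (n 0 z (n 0 z (n 0 z (n 0 z (n 0 z (n 0 z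
 z)))))))))))))))))))))))))))))))))))))))))))))) (n 637 (n 0 z (n 7737379 z (n 0 z (n 0 z (n 0 z
 (n 0 z (n 0 z (n 0 z (n 0 z (n 0 z (n 0 z (n 0 z (n 0 z (n 0 z (n 0 z (n 0 z (n 0 z (n 0 z (n 0
 z (n 0 z (n 0 z (n 0 z (n 0 z (n 0 z (n 0 z (n 0 z (n 0 z (n 0 z (n 0 z (n 0 z (n 0 z (n 0 z (n
 0 z (n 0 z (n 0 z (n 0 z (n 0 z (n 0 z (n 0 z (n 0 z (n 0 z (n 0 z (n 0 z (n 0 z (n 0 z (n 0 z
 z)))))))))))))))))))))))))))))))))))))))))))))) (n 637 (n 0 z (n 0 z (n 0 z (n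
 0x1f9d91d90406034e86ec42078347da8158cb80b80481e7a98097887ef8077df7be81a7bb8107fb7eb8127d08958078147c982583b83b7ff7be83f8257de8277757c68348527d57ca7948547698737e886077b77b87b7f51011
 z (n 0 z (n 0 z (n 0 z (n 0 z (n 0 z (n 0 z (n 0 z (n 0 z (n 0 z (n 0 z (n 0 z (n 0 z (n 0 z (n
 0 z (n 0 z (n 0 z (n 0 z (n 0 z (n 0 z (n 0 z (n 0 z (n 0 z (n 0 z (n 0 z (n 0 z (n 0 z (n 0 z
 (n 0 z (n 0 z (n 0 z (n 0 z (n 0 z (n 0 z (n 0 z (n 0 z (n 0 z (n 0 z (n 0 z (n 0 z (n 0 z (n 0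
 z (n 0 z z)))))))))))))))))))))))))))))))))))))))))))))) z)))))))) (n 0 (n 0 z (n 0 z (n 635 (n
 7737379 z (n 0 z (n 0 z (n 0 z (n 0 z (n 0 z (n 0 z (n 0 z (n 0 z z))))))))) (n 237 (n 0 z (n 0
 z (n 0 z (n 0 z (n 0 z (n 0 z (n 0 z (n 0 z (n 0 z (n 0 z (n 2 (n 1 z (n 1 z (n 2 (n 0 z (n 0 z
 (n 0 z (n 0 z (n 0 z (n 0 z z)))))) z))) (n 0 z z)))))))))))) (n 625 (n 0 z (n 0 z (n 0 z (n 0
 z (n 0 z (n 0 z z)))))) (n 625 (n 0 z (n 7737379 z (n 0 z (n 0 z (n 0 z (n 0 z z)))))) (n 625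
 (n 0 z (n 0 z (n 0 z (n 0 z (n 0 z (n 0 z z)))))) z))))))) (n 0 (n 0 z (n 83 (n 0 z (n 6627443
 z (n 0 z (n 0 z (n 0 z (n 0 z (n 0 z (n 0 z (n 0 z (n 0 z (n 0 z (n 0 z (n 0 z (n 0 z (n 0 z (n
 0 z (n 0 z (n 0 z (n 0 z (n 0 z (n 0 z (n 0 z (n 0 z (n 0 z (n 0 z (n 0 z (n 0 z (n 0 z (n 0 z
 (n 0 z (n 0 z (n 0 z (n 0 z (n 0 z (n 0 z z))))))))))))))))))))))))))))))))))) (n 183 (n 0 z (n
 2 (n 1 z (n 1 z (n 2 (n 0 z (n 0 z (n 0 z (n 0 z (n 0 z (n 0 z z)))))) z))) (n 0 z (n 0 z (n 0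
 z (n 0 z (n 0 z (n 0 z (n 0 z (n 0 z (n 0 z (n 0 z (n 0 z (n 0 z z)))))))))))))) (n 625 (n 0 z
 (n 0 z (n 0 z (n 0 z (n 0 z (n 0 z (n 0 z (n 0 z (n 0 z (n 0 z (n 0 z (n 0 z (n 0 z (n 0 z (n 0
 z (n 0 z (n 0 z (n 0 z (n 0 z (n 0 z (n 0 z (n 0 z (n 0 z (n 0 z (n 0 z (n 0 z (n 0 z (n 2 (n 0
 z (n 0 z z)) (n 0 z (n 0 z (n 0 z (n 0 z (n 0 z (n 0 z (n 0 z (n 0 z
 z)))))))))))))))))))))))))))))))))))) (n 625 (n 0 z (n 0 z (n 2 (n 0 z z) (n 0 z (n 0 z (n 0 z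
 (n 0 z (n 0 z (n 0 z (n 0 z (n 0 z (n 0 z (n 0 z (n 0 z (n 0 z (n 0 z (n 0 z (n 0 z (n 0 z (n 0
 z (n 0 z (n 0 z (n 0 z (n 0 z (n 0 z (n 0 z (n 0 z (n 0 z (n 0 z (n 0 z (n 0 z (n 0 z (n 0 z (n
 0 z (n 0 z (n 0 z z)))))))))))))))))))))))))))))))))))) (n 625 (n 0 z (n 0 z (n 0 z (n 0 z (n 0
 z (n 0 z (n 0 z (n 0 z (n 0 z (n 0 z (n 0 z (n 0 z (n 0 z (n 0 z (n 0 z (n 0 z (n 0 z (n 0 z (n
 0 z (n 0 z (n 0 z (n 0 z (n 0 z (n 0 z (n 0 z (n 0 z (n 0 z (n 0 z (n 0 z (n 0 z (n 0 z (n 0 z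
 (n 0 z (n 0 z (n 0 z (n 0 z z)))))))))))))))))))))))))))))))))))) z)))))) (n 0 (n 635 (n 2 (n 1
 z (n 1 z (n 1 z (n 2 (n 0 z (n 0 z (n 0 z (n 0 z (n 0 z (n 0 z z)))))) z)))) (n 0 z (n 0 z (n 0
 z (n 0 z (n 0 z (n 0 z (n 0 z (n 0 z (n 0 z (n 0 z (n 0 z (n 0 z (n 0 z (n 0 z (n 0 z (n 0 z
 z))))))))))))))))) (n 155 (n 2 (n 1 z (n 1 z (n 2 (n 0 z (n 0 z (n 0 z (n 0 z (n 0 z (n 0 z
 z)))))) z))) (n 0 z (n 0 z (n 0 z (n 0 z (n 0 z z)))))) (n 505 (n 0 z (n 0 z (n 0 z (n 0 z (n 0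
 z (n 0 z (n 0 z (n 0 z (n 0 z (n 0 z (n 0 z (n 0 z (n 0 z z))))))))))))) (n 505 (n 0 z (n 2 (n
 0 z z) (n 0 z (n 0 z (n 0 z (n 0 z (n 0 z (n 0 z (n 0 z (n 0 z (n 0 z (n 0 z (n 0 z
 z))))))))))))) (n 505 (n 0 z (n 0 z (n
 0x1aa7627f98097f98008028078127ea8128038028207fd7dd8247b88028048018357fe81c7eb80e7e08217e18478057ca8147cb80f7d87f48267ad81f8258098108467ec8147e580d7b77f58197de0051
 z (n 0 z (n 0 z (n 0 z (n 0 z (n 0 z (n 0 z (n 0 z (n 0 z (n 0 z (n 0 z z))))))))))))) z)))))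
 (n 0 (n 347 (n 0 z (n 0 z (n 0 z (n 0 z (n 0 z (n 0 z z)))))) (n 337 (n 0 z (n 0 z (n 0 z (n 0
 z (n 0 z (n 0 z (n 0 z (n 0 z (n 0 z (n 0 z (n 0 z (n 0 z (n 0 z z))))))))))))) (n 337 (n 0 z
 (n 0 z (n 0 z (n 0 z (n 0 z (n 0 z (n 0 z (n 0 z (n 0 z (n 0 z (n 0 z (n 0 z (n 0 z
 z))))))))))))) (n 337 (n 0 z (n 0 z (n 0 z (n 0 z (n 0 z (n 0 z (n 0 z (n 0 z (n 0 z (n 0 z (n
 0 z (n 2 z (n 0 z z))))))))))))) z)))) (n 0 (n 577 (n 0 z (n 0 z (n 0 z (n 0 z (n 0 z (n 0 z (n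
 0 z (n 0 z (n 0 z z))))))))) (n 577 (n 0 z (n 0 z (n 0 z (n 0 z (n 0 z (n 0 z (n 0 z (n 0 z (n
 0 z z))))))))) (n 577 (n 0 z (n 0 z (n 0 z (n 0 z (n 0 z (n 2 z (n 0 z (n 0 z (n 0 z z)))))))))
 z))) (n 0 (n 0 z (n 0 z z)) (n 0 (n 0 z z) (n 0 z z))))))))))) (n 0 (n 1 (n 2588 z (n 5378147 z
 (n 988 z (n 2588 z (n 2588 z (n 2588 z z)))))) (n 1 (n 3278363 z (n 3278363 z (n 3278363 z (n
 3278363 z (n 3278363 z (n 3278363 z z)))))) (n 0 z (n 0 z z)))) (n 0 z z)))) (n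
 0x2b5d705ae988d73ac1259a2a6cb19d78a172ba84562b0c4b70338ad40 (n 0x315ae (n 441 (n 0 z (n 0 z (n
 0 z (n 3282443 z (n 0 z (n 0 z (n 0 z (n 2 z z)))))))) (n 33 (n 10 z (n 3278363 z (n 0 z (n 18
 z (n 0 z (n 6358347 z z)))))) (n 129 (n 0 z (n 0 z (n 26 z (n 0 z (n 34 z (n 0 z (n 0 z (n
 3212843 z (n 0 z z))))))))) (n 3 (n 42 z (n 50 z (n 0 z (n 2164283 z (n 58 z (n 66 z z)))))) (n
 1 (n 0 z (n 0 z (n 2164299 z (n 0 z (n 0 z (n 74 z z)))))) (n 0 (n 0 z (n 82 z (n 2164315 z (n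
 0 z (n 0 z (n 0 z (n 0 z z))))))) z)))))) (n 33 (n 0 (n 1115 (n 0 z (n 0 z (n 0 z (n 2 (n 0 z
 (n 2 (n 0 z (n 0 z (n 0 z (n 0 z (n 0 z (n 0 z z)))))) (n 2 (n 0 z (n 0 z (n 0 z (n 0 z (n 0 z
 (n 0 z z)))))) (n 1 z (n 2 (n 0 (n 8800027 z (n 7608363 z z)) (n 0 (n 6359099 z (n 6359099 z
 z)) (n 0 z (n 0 (n 3876 z (n 3876 z z)) (n 0 (n 8800027 z (n 7608363 z z)) (n 0 z z)))))) (n 1
 z (n 2 (n 0 (n 4331627 z (n 8663155 z z)) (n 0 z (n 0 (n 4331627 z (n 7676035 z z)) (n 0 z (n 0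
 z (n 0 (n 8663155 z (n 6627459 z z)) z)))))) (n 2 (n 0 z (n 0 z (n 0 z (n 0 z (n 0 z (n 0 z
 z)))))) (n 2 (n 0 z (n 0 z (n 0 z (n 0 z (n 0 z (n 0 z z)))))) z))))))))) (n 0 z (n 0 z z))))))
 (n 1115 (n 0 z (n 0 z (n 0 z (n 0 z (n 0 z (n 0 z z)))))) (n 1107 (n 0 z (n 0 z (n 0 z (n 0 z
 (n 0 z (n 0 z (n 0 z (n 0 z z)))))))) (n 1107 (n 0 z (n 0 z (n 0 z (n 0 z (n 0 z (n 0 z (n 0 z
 (n 0 z z)))))))) (n 969 (n 0 z (n 0 z (n 0 z (n 0 z (n 2 (n 0 z (n 0 z (n 0 z (n 2 (n 0 z (n 0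
 z (n 0 z (n 0 z (n 0 z (n 0 z z)))))) (n 2 (n 0 z (n 0 z (n 0 z (n 0 z (n 0 z (n 0 z z))))))
 z))))) (n 0 z z)))))) (n 969 (n 0 z (n 0 z (n 0 z (n 0 z (n 0 z (n 0 z z)))))) (n 969 (n 0 z (n
 0 z (n 2 (n 0 z (n 2 (n 0 z (n 0 z (n 0 z (n 0 z (n 0 z (n 0 z z)))))) (n 2 (n 0 z (n 0 z (n 0
 z (n 0 z (n 0 z (n 0 z z)))))) z))) (n 0 z (n 0 z (n 0 z z)))))) (n 969 (n 0 z (n 0 z (n 0 z (n
 0 z (n 0 z (n 0 z z)))))) (n 357 (n 0 z (n 0 z (n 0 z (n 0 z (n 0 z (n 0 z (n 0 z (n 0 z (n 0 z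
 (n 0 z (n 0 z (n 0 z (n 0 z (n 0 z (n 0 z (n 0 z (n 0 z (n 0 z (n 0 z (n 0 z (n 0 z (n 0 z (n 0
 z (n 0 z (n 0 z (n 0 z z)))))))))))))))))))))))))) (n 1105 (n 0 z (n 0 z (n 0 z (n 0 z (n 0 z
 (n 0 z (n 0 z (n 0 z (n 0 z (n 0 z (n 0 z (n 0 z (n 0 z (n 0 z (n 0 z (n 0 z (n 0 z (n 0 z (n 0
 z (n 0 z z)))))))))))))))))))) z)))))))))) (n 0 (n 0 z (n 879 (n 0 z (n 0 z (n 0 z (n 0 z (n 0
 z (n 0 z (n 0 z (n 0 z (n 0 z (n 0 z (n 0 z (n 0 z (n 0 z z))))))))))))) (n 879 (n 0 z (n 0 z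
 (n 0 z (n 0 z (n 0 z (n 0 z (n 0 z (n 0 z (n 0 z (n 0 z (n 0 z (n 2 (n 1 z (n 2 (n 0 (n 7407675
 z (n 1093 z z)) (n 0 (n 8865307 z (n 8865307 z z)) (n 0 z (n 0 (n 6559787 z (n 6559787 z z)) (n
 0 (n 7407675 z (n 1764 z z)) (n 0 z z)))))) (n 1 z (n 2 (n 0 (n 8865035 z (n 8865035 z z)) (n 0
 z (n 0 (n 8663139 z (n 8663139 z z)) (n 0 z (n 0 z (n 0 (n 6627459 z (n 6627459 z z)) z))))))
 (n 2 (n 0 z (n 0 z (n 0 z (n 0 z (n 0 z (n 0 z z)))))) (n 2 (n 0 z (n 0 z (n 0 z (n 0 z (n 0 z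
 (n 0 z z)))))) z)))))) (n 0 z z))))))))))))) (n 441 (n 0 z (n 0 z (n 0 z (n 0 z (n 0 z (n 0 z
 (n 6428507 z z))))))) (n 441 (n 0 z (n 0 z (n 0 z (n 2 (n 0 z (n 0 z (n 2 (n 0 z (n 0 z (n 0 z
 (n 0 z (n 0 z (n 0 z z)))))) (n 2 (n 0 z (n 0 (n 8455995 z (n 3508 z z)) (n 0 z (n 0 (n 8718187
 z (n 3508 z z)) (n 0 (n 8455995 z (n 5 z z)) (n 0 z z)))))) z)))) (n 0 z (n 0 z (n 0 z z)))))))
 (n 441 (n 7614563 z (n 0 z (n 0 z (n 0 z (n 0 z (n 0 z (n 0 z z))))))) (n 441 (n 0 z (n 0 z (n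
 0 z (n 0 z (n 0 z (n 2 (n 2 (n 0 (n 8860171 z (n 8724595 z z)) (n 0 z (n 0 (n 8663139 z (n
 8663139 z z)) (n 0 z (n 0 (n 8860171 z (n 8724595 z z)) (n 0 (n 6627459 z (n 6627459 z z))
 z)))))) (n 2 (n 0 (n 8860171 z (n 8860171 z z)) (n 0 z (n 0 (n 8663139 z (n 8663139 z z)) (n 0
 z (n 0 z (n 0 (n 8860171 z (n 8724595 z z)) z)))))) z)) (n 0 z z))))))) (n 63 (n 0 z (n 0 z (n
 0 z (n 0 z (n 0 z (n 0 z (n 0 z (n 2 (n 2 (n 0 z (n 0 z (n 0 z (n 0 z (n 0 z (n 0 z z)))))) z)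
 (n 0 z z))))))))) (n 877 (n 0 z (n 0 z (n 0 z (n 0 z (n 0 z (n 0 z (n 0 z (n 0 z (n 0 z (n 0 z
 (n 0 z (n 0 z (n 0 z (n 0 z (n 0 z (n 0 z (n 0 z (n 0 z (n 0 z (n 0 z (n 0 z (n 2 z
 z)))))))))))))))))))))) z))))))))) (n 0 (n 1119 (n 0 z (n 0 z (n 0 z (n 0 z (n 0 z (n 0 z (n 0
 z (n 0 z z)))))))) (n 1119 (n 0 z (n 0 z (n 0 z (n 0 z (n 0 z (n 0 z (n 0 z (n 0 z z)))))))) (n
 81 (n 0 z (n 0 z (n 0 z (n 0 z (n 0 z (n 0 z (n 0 z (n 0 z (n 0 z (n 0 z (n 0 z (n 0 z (n 0 z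
 (n 0 z (n 0 z (n 0 z (n 0 z (n 0 z (n 0 z (n 0 z (n 0 z (n 2 (n 0 z (n 0 z (n 0 z (n 2 (n 0 z
 (n 0 z (n 0 z (n 0 z (n 0 z (n 0 z z)))))) (n 2 (n 0 z (n 0 z (n 0 z (n 0 z (n 0 z (n 0 z
 z)))))) z))))) (n 0 z (n 0 z (n 0 z (n 0 z (n 0 z (n 0 z (n 0 z (n 0 z (n 0 z (n 0 z
 z)))))))))))))))))))))))))))))))) (n 81 (n 0 z (n 0 z (n 0 z (n 0 z (n 0 z (n 0 z (n 0 z (n 0 z
 (n 0 z (n 0 z (n 0 z (n 0 z (n 0 z (n 0 z (n 0 z (n 0 z (n 0 z (n 0 z (n 0 z (n 0 z (n 0 z (n 0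
 z (n 0 z (n 0 z (n 0 z (n 0 z (n 0 z (n 0 z (n 0 z (n 0 z (n 0 z (n 0 z
 z)))))))))))))))))))))))))))))))) (n 81 (n 0 z (n 0 z (n 0 z (n 0 z (n 0 z (n 0 z (n 0 z (n 0 z
 (n 0 z (n 0 z (n 0 z (n 0 z (n 0 z (n 0 z (n 0 z (n 0 z (n 0 z (n 0 z (n 0 z (n 0 z (n 0 z (n 0
 z (n 0 z (n 0 z (n 0 z (n 7746059 z (n 0 z (n 0 z (n 0 z (n 0 z (n 0 z (n 0 z
 z)))))))))))))))))))))))))))))))) (n 81 (n 0 z (n 0 z (n 0 z (n 0 z (n 0 z (n 0 z (n 0 z (n 0 z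
 (n 0 z (n 0 z (n 0 z (n 0 z (n 0 z (n 0 z (n 0 z (n 0 z (n 0 z (n 0 z (n 0 z (n 0 z (n 0 z (n 0
 z (n 0 z (n 0 z (n 0 z (n 0 z (n 0 z (n 0 z (n 0 z (n 0 z (n 0 z (n 0 z
 z)))))))))))))))))))))))))))))))) (n 69 (n 0 z (n 0 z (n 0 z (n 0 z (n 0 z (n 0 z z)))))) (n
 1117 (n 0 z (n 0 z (n 0 z (n 0 z (n 0 z (n 0 z (n 0 z (n 0 z z)))))))) z)))))))) (n 0 (n 0 z (n
 11 (n 0 z (n 0 z (n 0 z (n 0 z (n 0 z (n 0 z z)))))) (n 11 (n 0 z (n 0 z (n 0 z (n 7746067 z (n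
 0 z (n 0 z z)))))) (n 11 (n 0 z (n 0 z (n 0 z (n 0 z (n 0 z (n 0 z z)))))) (n 11 (n 0 z (n 0 z
 (n 0 z (n 0 z (n 0 z (n 0 z z)))))) (n 3 (n 0 z (n 0 z (n 0 z (n 0 z (n 0 z (n 0 z (n 0 z (n 0
 z (n 0 z z))))))))) (n 1 (n 0 z (n 0 z (n 0 z (n 0 z (n 0 z (n 0 z (n 0 z (n 0 z (n 0 z (n 0 z
 (n 0 z z))))))))))) z))))))) (n 0 (n 273 (n 0 z (n 0 z (n 0 z (n 0 z (n 2 (n 0 z (n 0 z (n 0 z
 (n 2 (n 0 z (n 0 z (n 0 z (n 0 z (n 0 z (n 0 z z)))))) (n 2 (n 0 z (n 0 z (n 0 z (n 0 z (n 0 z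
 (n 0 z z)))))) z))))) (n 0 z (n 0 z (n 0 z (n 0 z z))))))))) (n 273 (n 0 z (n 0 z (n 0 z (n 0 z
 (n 0 z (n 0 z (n 0 z (n 0 z (n 0 z z))))))))) (n 273 (n 0 z (n 0 z (n 0 z (n 0 z (n 0 z (n 2 (n
 0 z (n 2 (n 0 z (n 0 z (n 0 z (n 0 z (n 0 z (n 0 z z)))))) (n 2 (n 0 z (n 0 z (n 0 z (n 0 z (n
 0 z (n 0 z z)))))) z))) (n 0 z (n 0 z (n 0 z z))))))))) (n 273 (n 0 z (n 0 z (n 0 z (n 0 z (n 0
 z (n 0 z (n 0 z (n 0 z (n 0 z z))))))))) (n 261 (n 0 z (n 0 z (n 0 z (n 0 z (n 0 z (n 0 z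
 z)))))) (n 1133 (n 0 z (n 0 z (n 0 z (n 0 z (n 0 z (n 0 z (n 0 z (n 0 z (n 0 z (n 0 z (n 0 z
 z))))))))))) z)))))) (n 0 (n 0 z (n 0 z (n 0 z (n 9 (n 0 z (n 0 z (n 0 z (n 0 z (n 0 z (n 2 (n
 2 (n 0 z (n 0 z (n 0 z (n 0 z (n 0 z (n 0 z z)))))) z) (n 0 z (n 0 z z)))))))) (n 5 (n 0 z (n 2
 z (n 0 z (n 0 z (n 0 z (n 0 z z)))))) z))))) (n 0 (n 0 z (n 0 z (n 3 (n 0 z (n 0 z (n 0 z (n 0
 z (n 0 z (n 0 z (n 0 z (n 0 z (n 0 z (n 0 z (n 0 z z))))))))))) (n 1 (n 0 z (n 0 z (n 0 z (n 0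
 z (n 0 z (n 0 z (n 0 z (n 0 z (n 0 z z))))))))) z)))) (n 0 (n 0 z (n 99 (n 0 z (n 0 z (n 0 z (n
 0 z (n 0 z (n 0 z (n 0 z (n 0 z (n 0 z (n 0 z (n 0 z (n 0 z z)))))))))))) (n 721 (n 7746059 z
 (n 0 z (n 0 z (n 0 z (n 0 z z))))) z))) (n 0 (n 9 (n 0 z (n 0 z (n 0 z (n 0 z z)))) (n 5 (n 0 z
 (n 0 z (n 0 z (n 0 z (n 0 z (n 0 z (n 0 z z))))))) z)) (n 0 (n 1 (n 0 z (n 0 z (n 0 z (n 0 z (n
 0 z z))))) z) (n 0 z z))))))))))) (n 0 (n 1 (n 3532 z (n 3532 z (n 4395107 z (n 3532 z (n 3532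
 z (n 3532 z z)))))) (n 1 (n 3278363 z (n 3278363 z (n 3278363 z (n 3278363 z (n 3278363 z (n
 3278363 z z)))))) (n 0 z (n 1 (n 3532 z (n 3532 z (n 3532 z (n 3532 z (n 2 z (n 5378147 z
 z)))))) (n 0 z (n 1 (n 6358347 z (n 5309995 z (n 6358347 z (n 6358347 z (n 6358347 z (n 6358347
 z z)))))) z)))))) (n 0 (n 0x858ceba5b819 (n 0 (n 0 (n 7746059 z (n 7746059 z (n 7746059 z (n
 7746059 z (n 7746059 z (n 7676003 z z)))))) z) (n 0 (n 557 (n 1 (n 7676003 z (n 7676003 z (n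
 7676003 z (n 7676003 z (n 7676003 z (n 7676003 z z)))))) (n 1 (n 4400923 z (n 4400923 z (n
 4400923 z (n 4400923 z (n 4400923 z (n 4400923 z z)))))) (n 0 z (n 1 (n 3532 z (n 3532 z (n
 3532 z (n 3532 z (n 3532 z (n 3532 z z)))))) (n 0 z (n 0 z z)))))) (n 563 (n 1 (n 7676003 z (n
 7676003 z (n 7676003 z (n 7676003 z (n 7676003 z (n 7676003 z z)))))) (n 1 (n 3278619 z (n
 7746059 z (n 7750923 z (n 4400923 z (n 4400923 z (n 4400923 z z)))))) (n 0 z (n 1 (n 7750923 z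
 (n 268 z (n 2 z (n 7746059 z (n 268 z (n 268 z z)))))) (n 0 z (n 0 z z)))))) (n 130 (n 1 (n
 7750923 z (n 7750923 z (n 7750923 z (n 7750923 z (n 7750923 z (n 7750923 z z)))))) (n 0 z (n 0
 z (n 0 z (n 1 (n 7676003 z (n 7676003 z (n 7676003 z (n 7676003 z (n 7676003 z (n 7676003 z
 z)))))) (n 0 z z)))))) (n 4 (n 1 (n 7750923 z (n 7750923 z (n 7750923 z (n 7750923 z (n 7750923
 z (n 7750923 z z)))))) (n 1 (n 7746059 z (n 7746059 z (n 7746059 z (n 7746059 z (n 7746059 z (n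
 7746059 z z)))))) (n 1 (n 7406923 z (n 4508 z (n 10 z (n 4331355 z (n 4508 z (n 4508 z z))))))
 (n 0 z z)))) (n 5 (n 1 (n 7750923 z (n 7750923 z (n 7750923 z (n 7750923 z (n 7750923 z (n
 7750923 z z)))))) (n 1 (n 7746059 z (n 7746059 z (n 7746059 z (n 7746059 z (n 7746059 z (n
 7746059 z z)))))) (n 1 (n 1436 z (n 1436 z (n 1436 z (n 1436 z (n 3282779 z (n 1436 z z))))))
 (n 0 z z)))) (n 1 (n 1 (n 2164555 z (n 2164555 z (n 2164555 z (n 2164555 z (n 2164555 z (n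
 2164555 z z)))))) (n 0 z (n 0 z (n 0 z (n 1 (n 7676003 z (n 7676003 z (n 7676003 z (n 7676003 z
 (n 7676003 z (n 7676003 z z)))))) z))))) (n 33 (n 1 (n 3532 z (n 3532 z (n 4395123 z (n 3532 z
 (n 3532 z (n 3532 z z)))))) (n 1 (n 3278619 z (n 3278619 z (n 3278619 z (n 3278619 z (n 3278619
 z (n 3278619 z z)))))) (n 0 z (n 1 (n 7746059 z (n 7746059 z (n 7746059 z (n 7746059 z (n
 7746059 z (n 5378163 z z)))))) (n 0 z (n 1 (n 7746059 z (n 7746059 z (n 7746059 z (n 7746059 z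
 (n 7746059 z (n 7746059 z z)))))) z)))))) z))))))) (n 0 (n 0 (n 0 z (n 0 z z)) (n 0 (n 0 z z)
 z)) (n 0 (n 563 (n 0 (n 0 (n 8855603 z (n 8855603 z z)) (n 0 z z)) (n 0 (n 0 z (n 0 z z)) (n 0
 (n 0 z (n 0 z z)) (n 0 (n 0 z (n 0 z z)) (n 0 (n 0 (n 7 (n
 0x2ce10e10c00600014f08708400700000b84284200380007fc21c19000c00010a10a0c800e00002306506400300000d84343200180000ac21219001c0001060c90c800e00001a864864007000098843841003800095c21420800c00024210610400e00012f0870620030000c884283100380005ac19418801c0000aa1060c400e00017d06306200300016984343100380009cc21218800c0000be0c90c400600002e8648620030000438414310038000a2c18a18801c0001d90c50c400600006b087042007000028842821003800005c19410800c00054a1060840060002b706304200700003b82182100180007f421a10800c00001a1090840060000e706484200300000243242100380009ec20a10801c00045a0c508400600015a8628420070000ee821421001800002210a10800c0004fe10cc8400e0000a908464200300008083232100380000ea19190800c0000a2104c840060001b506264200300003d43132100180009b410990801c0000fd084c8400e00005c64264200300000300142804b0000020002140374d000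
 z (n
 0x5c3ac3a880c00001e1d61d04060000090e90e820300000b87585410380000043a42a081c00003615215040e0000010eaea820300000587475410180000143ac39081c00001e1d21c840e0000010e50e420700000887585210180000343a429080c00001615214840e00000b0e50a420300001587575210380000443a3a9081c00000e151d48406000004ea8ea420300000e8727521018000054293a9081c000029d49d4840600000f0eb084207000000874842103800000c2a421080c0000021ca10840e0000010a5084203000004842842103800000c3aba1081c00000e1d1d0840e0000050a8e84203000005754742103800004c393a1080c00002a149d0840e000012ea4e84203000004742742101800006c3aaa1080c0000161d150840e0000090e4a84203000005852542101800002ba92a1081c00001000a15d2940000080050ae88e0000060018574a5000003000c2ba23800001400215d33a0000160010ae8cd00000900085746280000d800413a840c400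
 z (n
 0x25dd0dd08006000010e84e840030000b974373200380003bba1399001c000631cc9cc8006000122e86864003000012742432001800011b99219000c0000690c90c800600023ae86e8200700008a74274100380004bba0ba0800c000325d0dcc40060001d0e84e620030000a773273100380004eba0b98801c000129cc5cc400e0002eae8686200700016a742431003800084b99218800c0001190c90c400e0002b4e82862003000175731431003800039218a18800c0003fdd0dc8400e000052e84e420070000b973272100180000ab98b90801c000111c85c8400e000284e86842003000000742421001800053b99210800c0000d50c908400600011ae8284200700003f73142100180001e218a10801c000151c850840060000308428420030000d77433210038000173a1190800c000401cc8c8400e000172864642007000057741321001800030398990800c0002850c4c8400600004ae426420070000be421321003800059990990800c0002661c5c80c060000330e284060300000087487020180000d80118a0428d000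
 z z))) (n
 0x2b873817f877a7f798a848b80757f85877f7d86717c7b8b758389847a887f867c83777b8476968881708e8a76877e707f7f857f7d0049
 z z)) (n 0 (n 7747659 z (n 8525659 z z)) z)) (n 0 (n 0 z (n 0 z z)) z)))))) (n 567 (n 0 (n 0 (n
 8724579 z (n 8724579 z z)) (n 0 z z)) (n 0 (n 0 z (n 0 z z)) (n 0 (n 0 z (n 0 z z)) (n 0 (n 0 z
 (n 0 z z)) (n 0 (n 0 (n 8855603 z (n 8855603 z z)) (n 0 z z)) (n 0 (n 0 z (n 0 z z)) (n 0 (n 0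
 z (n 0 z z)) (n 0 (n 0 z (n 0 z z)) z)))))))) (n 565 (n 0 (n 0 z (n 0 z z)) (n 0 (n 0 z (n 0 z
 z)) (n 0 (n 0 z (n 0 z z)) (n 0 (n 0 z (n 0 z z)) (n 0 (n 0 z (n 0 z z)) (n 0 (n 0 z (n 0 z z))
 (n 0 (n 0 (n 8855603 z (n 8855603 z z)) (n 0 (n 8724579 z (n 8724579 z z)) z)) (n 0 (n 0 (n
 7686251 z (n
 0x23873817f867b7f7a8982897f777f83867f7e86747d7c89788387847a867f857d82797c8378928780738c8978867e737f7f847f7d0049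
 z z)) (n 0 (n 7747659 z (n 8525659 z z)) z)) z)))))))) (n 563 (n 0 (n 0 (n 8724579 z (n 8724579
 z z)) (n 0 z z)) (n 0 (n 0 z (n 0 z z)) (n 0 (n 0 (n
 0x10caeca4077f8181808180817e8080807f808080808080808080818180807f8080807f7f8080807f8080808080808180808181808081810809
 z (n
 0x30caeca40780808180818180808080807f80808080808080808080808080808080808080808080808080808080808080808080808080800809
 z z)) (n 0 z z)) (n 0 (n 0 z (n 0 z z)) (n 0 (n 0 z (n 0 (n 8868883 z (n 8868883 z z)) z)) (n 0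
 (n 0 z (n 0 z z)) z)))))) (n 41 (n 0 (n 0 z (n 0 z z)) (n 0 (n 0 z (n 0 z z)) (n 0 (n 0 z (n 0
 z z)) (n 0 (n 0 z (n 0 z z)) (n 0 (n 0 z (n 0 z z)) (n 0 (n 0 z (n 0 z z)) (n 0 (n 0 z (n 0 z
 z)) (n 0 (n 0 z (n 0 z z)) (n 0 (n 0 z (n 0 z z)) (n 0 (n 0 z (n 0 z z)) (n 0 (n 0 z (n 0 z z))
 (n 0 (n 0 z (n 0 z z)) (n 0 (n 0 z (n 0 z z)) (n 0 (n 0 z (n 0 z z)) (n 0 (n 0 z (n 0 z z)) (n
 0 (n 0 z (n 0 z z)) (n 0 (n 0 z (n 0 z z)) (n 0 (n 0 z (n 0 z z)) (n 0 (n 0 z (n 0 z z)) (n 0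
 (n 0 z (n 0 z z)) (n 0 (n 0 z (n 0 z z)) (n 0 (n 0 z (n 0 z z)) (n 0 (n 0 z (n 0 z z)) (n 0 (n
 0 z (n 0 z z)) (n 0 (n 0 z (n 0 z z)) (n 0 (n 0 (n 8794635 z (n 8794635 z z)) (n 0 z z)) (n 0
 (n 0 z (n 0 z z)) (n 0 (n 0 z (n 0 z z)) (n 0 (n 0 z (n 0 z z)) (n 0 (n 0 z (n 0 z z)) (n 0 (n
 0 z (n 0 z z)) (n 0 (n 0 z (n 0 z z)) z)))))))))))))))))))))))))))))))) (n 137 (n 0 (n 0 z (n 0
 z z)) (n 0 (n 0 z (n 0 z z)) (n 0 (n 0 z (n 0 z z)) (n 0 (n 0 z (n 0 z z)) (n 0 (n 0 z (n 0 z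
 z)) (n 0 (n 0 (n
 0x30c4ec0a077e8181808180817f8080807f8080808080808080808080808080808080807f8081807f8080808081808080808081808080800809
 z (n
 0x30c4ec0a078080818081808080808080808080808080808080808080808080808081807f808080808080808081808080808080808080800809
 z z)) (n 0 z z)) (n 0 (n 0 z (n 0 z z)) (n 0 (n 0 z (n 0 z z)) (n 0 (n 0 (n 8724579 z (n
 8724579 z z)) (n 0 (n 8868883 z (n 8868883 z z)) z)) z))))))))) (n 179 (n 0 (n 0 (n 3283019 z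
 (n 3283019 z z)) (n 0 z z)) (n 0 (n 0 (n 8855603 z (n 8855603 z z)) (n 0 z z)) (n 0 (n 0 (n
 3283019 z (n 3283019 z z)) (n 0 (n 8868883 z (n 8868883 z z)) z)) (n 0 (n 0 z (n 0 z z)) (n 0
 (n 0 z (n 0 z z)) (n 0 (n 0 (n 3283019 z (n 3283019 z z)) (n 0 (n 8868883 z (n 8868883 z z))
 z)) (n 0 (n 0 z (n 0 z z)) (n 0 (n 0 z (n 0 z z)) (n 0 (n 0 z (n 0 z z)) (n 0 (n 0 z (n 0 z z))
 (n 0 (n 0 z (n 0 (n
 0xb87580818080807f80808080808081808080808080808080808080807f80818080808080808180807f80808080808180807f81800049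
 z (n 8525659 z z)) z)) (n 0 (n 0 (n 8855603 z (n 8855603 z z)) (n 0 (n 8525659 z (n
 0xb58219778858d7b808f7486785b7b929a737e705b6f9c847373a38284868178837b73757c84af886178b57f7e8772827e8c8a6e7f0049
 z z)) z)) (n 0 (n 0 z (n 0 (n 8868883 z (n 8868883 z z)) z)) (n 0 (n 0 (n 8663155 z (n 7745923
 z z)) (n 0 z z)) (n 0 (n 0 z (n 0 z z)) (n 0 (n 0 z (n 0 z z)) (n 0 (n 0 z (n 0 (n
 0x25875887c80837f81877b857c7283868a7b7c7b727785857b7d8e817a82808182807f7e84798e8678778e807e817f79808080807f0049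
 z (n 7754371 z z)) z)) (n 0 (n 0 (n
 0x8d863927a858a7b808c76857a637c8f94767d736272968375769c818285817a817c75777c84a6876778ab7f7e8675827e8a88737f0049
 z (n
 0x23873817f867b7f7b89838880777f83867f7e85747d7c88778387847b8680857c82797c8378918780748b8978867e74807f847f7d0049
 z z)) (n 0 (n 8868883 z (n 8868883 z z)) z)) (n 0 (n 0 z (n 0 z z)) (n 0 (n 0 z (n 0 z z)) (n 0
 (n 0 z (n 0 z z)) (n 0 (n 0 z (n 0 z z)) (n 0 (n 0 z (n 0 z z)) (n 0 (n 0 z (n 0 (n 8724579 z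
 (n 8724579 z z)) z)) (n 0 (n 0 (n 8855603 z (n 8855603 z z)) (n 0 (n 8724579 z (n 8724579 z z))
 z)) (n 0 (n 0 z (n 0 z z)) z)))))))))))))))))))))))))) (n 35 (n 0 (n 0 (n 8799499 z (n 8663155
 z z)) (n 0 z z)) (n 0 (n 0 z (n 0 z z)) (n 0 (n 0 z (n 0 z z)) (n 0 (n 0 z (n 0 z z)) (n 0 (n 0
 z (n 0 z z)) (n 0 (n 0 z (n 0 z z)) z)))))) (n 131 (n 0 (n 0 (n 8799499 z (n 8799499 z z)) (n 0
 (n 8868883 z (n 8868883 z z)) z)) (n 0 (n 0 z (n 0 z z)) (n 0 (n 0 z (n 0 z z)) (n 0 (n 0 z (n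
 0 z z)) (n 0 (n 0 z (n 0 z z)) (n 0 (n 0 z (n 0 z z)) z)))))) (n 5 (n 0 (n 0 (n 8799499 z (n
 8799499 z z)) (n 0 z z)) (n 0 (n 0 z (n 0 z z)) (n 0 (n 0 z (n 0 z z)) (n 0 (n 0 (n 8794635 z
 (n 8794635 z z)) (n 0 z z)) z)))) (n 573 (n 0 (n 0 (n 8855603 z (n 8855603 z z)) (n 0 (n
 8724579 z (n 8724579 z z)) z)) (n 0 (n 0 z (n 0 z z)) (n 0 (n 0 z (n 0 z z)) (n 0 (n 0 z (n 0 z
 z)) (n 0 (n 0 z (n 0 z z)) (n 0 (n 0 z (n 0 z z)) (n 0 (n 0 z (n 0 z z)) (n 0 (n 0 z (n 0 z z))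
 (n 0 (n 0 (n
 0x25843887c80837f81877b857c7283868a7b7c7b727785857b7d8e817a82808182807f7e84798e8678778e807e817f79808080807f0049
 z (n
 0x25843887c80837f81877b857c7283868a7b7c7b727785857b7d8e817a82808182807f7e84798e8678778e807e817f79808080807f0049
 z z)) (n 0 z z)) (n 0 (n 0 z (n 0 z z)) (n 0 (n 0 z (n 0 z z)) (n 0 (n 0 z (n 0 z z)) (n 0 (n 0
 z (n 0 z z)) (n 0 (n 0 z (n 0 z z)) (n 0 (n 0 z (n 0 z z)) (n 0 (n 0 z (n 0 z z)) (n 0 (n 0 (n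
 8724579 z (n 8724579 z z)) (n 0 (n 8868883 z (n 8868883 z z)) z)) (n 0 (n 0 (n 8724579 z (n
 8724579 z z)) (n 0 (n 8868883 z (n 8868883 z z)) z)) (n 0 (n 0 (n 8663155 z (n 7745923 z z)) (n
 0 z z)) (n 0 (n 0 (n 8855603 z (n 8855603 z z)) (n 0 (n 8873251 z (n 8873251 z z)) z))
 z)))))))))))))))))))) (n 571 (n 0 (n 0 z (n 0 z z)) (n 0 (n 0 z (n 0 z z)) (n 0 (n 0 z (n 0 z
 z)) (n 0 (n 0 z (n 0 z z)) (n 0 (n 0 z (n 0 z z)) (n 0 (n 0 z (n 0 z z)) (n 0 (n 0 z (n 0 z z))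
 (n 0 (n 0 z (n 0 (n 8873251 z (n 8873251 z z)) z)) z)))))))) (n 572 (n 0 (n 0 z (n 0 z z)) (n 0
 (n 0 z (n 0 (n 8868883 z (n 8868883 z z)) z)) (n 0 (n 0 z (n 0 z z)) (n 0 (n 0 z (n 0 z z)) (n
 0 (n 0 z (n 0 z z)) (n 0 (n 0 (n 8855603 z (n 8855603 z z)) (n 0 z z)) (n 0 (n 0 z (n 0 z z))
 (n 0 (n 0 z (n 0 z z)) (n 0 (n 0 z (n 0 z z)) (n 0 (n 0 (n 8800027 z (n
 0x758318e7b84887c808a79847b687d8c91777f7668759282787797828284807c817d787a7d839e856d7ba27f7f8477817f8887757e0049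
 z z)) (n 0 z z)) (n 0 (n 0 z (n 0 z z)) z))))))))))) (n 3 (n 0 (n 0 z (n 0 z z)) (n 0 (n 0 z (n
 0 z z)) (n 0 (n 0 z (n 0 z z)) (n 0 (n 0 z (n 0 (n 8794635 z (n 8794635 z z)) z)) (n 0 (n 0 z
 (n 0 z z)) (n 0 (n 0 z (n 0 z z)) (n 0 (n 0 (n 8724579 z (n 8724579 z z)) (n 0 (n 8868883 z (n
 8868883 z z)) z)) z))))))) (n 1 (n 0 (n 0 (n 2164811 z (n 2164811 z z)) (n 0 z z)) (n 0 (n 0 z
 (n 0 z z)) (n 0 (n 0 z (n 0 z z)) (n 0 (n 0 z (n 0 z z)) (n 0 (n 0 z (n 0 z z)) z))))) (n 441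
 (n 0 (n 0 z (n 0 z z)) (n 0 (n 0 z (n 0 z z)) (n 0 (n 0 z (n 0 z z)) (n 0 (n 0 (n 8855603 z (n
 8855603 z z)) (n 0 (n 3282955 z (n 3282955 z z)) z)) (n 0 (n 0 z (n 0 z z)) (n 0 (n 0 (n
 7477339 z (n
 0x61d215080600ca4ca400780817f807f8180808180808181808081818180818181808081808180807f7f818180808180807f80808081808181808081811009
 z z)) (n 0 (n 8868883 z (n 8868883 z z)) z)) (n 0 (n 0 (n
 0x25843887c80837f81877b857c7283868a7b7c7b727785857b7d8e817a82808182807f7e84798e8678778e807e817f79808080807f0049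
 z (n
 0x3b873817e8a787e778d858e7f727f85897f7c886d7c798d73848b86788a7e877b83747985749b8a816b928e748a7d6d7f7f867f7c0049
 z z)) (n 0 (n 8868883 z (n 8868883 z z)) z)) (n 0 (n 0 z (n 0 z z)) z)))))))) (n 33 (n 0 (n 0 z
 (n 0 z z)) (n 0 (n 0 z (n 0 z z)) (n 0 (n 0 z (n 0 z z)) (n 0 (n 0 z (n 0 z z)) (n 0 (n 0 (n
 8855603 z (n 8855603 z z)) (n 0 (n 8873251 z (n 8873251 z z)) z)) (n 0 (n 0 (n 8794635 z (n
 8663155 z z)) (n 0 (n 8794635 z (n 8794635 z z)) z)) z)))))) (n 129 (n 0 (n 0 z (n 0 z z)) (n 0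
 (n 0 (n
 0x3d87586857d75867d84828b7375827f8a7d6f817584828883748b817884807f668576839177918a7c7e9b876d817c728a7b7a807f0049
 z (n
 0x30c4e80a077f8181808081817f807f807f8080808080808080808080808080808080807f8081807f8080808081808081808280808080800809
 z z)) (n 0 (n
 0x30a90a800380807f807f80818080807f81808080808081808181807f8080808180808080808180808180807f80808080808180808080800809
 z (n 7680387 z z)) z)) (n 0 (n 0 z (n 0 z z)) (n 0 (n 0 (n 7542875 z (n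
 0x18581062a4aa467f578c93ac808061827b8773a66fa888857269927e8bd4807136a9368d8d8ba978a47397c0379d5476b46159937c0049
 z z)) (n 0 z z)) (n 0 (n 0 z (n 0 z z)) (n 0 (n 0 z (n 0 z z)) (n 0 (n 0 z (n 0 z z)) (n 0 (n 0
 z (n 0 z z)) (n 0 (n 0 z (n 0 (n 8868883 z (n 8868883 z z)) z)) z))))))))) (n 3 (n 0 (n 0 z (n
 0 (n 8868883 z (n 8868883 z z)) z)) (n 0 (n 0 z (n 0 z z)) (n 0 (n 0 z (n 0 z z)) (n 0 (n 0 z
 (n 0 z z)) (n 0 (n 0 z (n 0 (n 8794635 z (n 8794635 z z)) z)) (n 0 (n 0 (n 8663155 z (n 7676035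
 z z)) (n 0 (n 8873251 z (n 8873251 z z)) z)) z)))))) (n 1 (n 0 (n 0 z (n 0 z z)) (n 0 (n 0 z (n
 0 z z)) (n 0 (n 0 (n 8799499 z (n 8799499 z z)) (n 0 z z)) (n 0 (n 0 z (n 0 z z)) (n 0 (n 0 z
 (n 0 z z)) (n 0 (n 0 z (n 0 z z)) z)))))) (n 0 (n 0 (n 0 z (n 0 z z)) (n 0 (n 0 z (n 0 z z)) (n
 0 (n 0 z (n 0 z z)) (n 0 (n 0 z (n 0 z z)) (n 0 (n 0 z (n 0 z z)) (n 0 (n 0 z (n 0 z z)) (n 0
 (n 0 z (n 0 z z)) z))))))) z))))))))))))))))))))) z)))) z) z)))) (n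
 0xd2d744ce5b44b5ca146a41939186e2970b5b28269dd056ae943374b40 (n 0x2e96b (n 153 (n 0 z (n 0 z (n
 0 z (n 0 z (n 3282443 z (n 0 z (n 2 z (n 0 z (n 0 z (n 0 z z)))))))))) (n 255 (n 0 z (n 0 z (n
 0 z (n 0 z (n 0 z (n 0 z (n 0 z (n 0 z (n 0 z (n 3278363 z (n 10 z (n 0 z (n 0 z (n 0 z (n 0 z
 (n 0 z z)))))))))))))))) (n 9 (n 0 z (n 6496523 z (n 0 z (n 0 z (n 0 z (n 0 z (n 18 z z)))))))
 (n 243 (n 26 z (n
 0x631084a62180978969a17e8e799f7282807c837f917f7e7c8e7598788f556a8164939972888a667e808d8971797c9e727e7a87869679910089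
 z (n
 0x21a30804336108007ff7b28018268737ff7bd7bc8017ff8cc6c17be88276580093f84285472b8ad8427327c08ea8a182695e6e07e08106849396106b58b390282079482279a84891482878573a86791b6ec0091
 z (n 6496523 z (n 0 z (n 0 z (n
 0x2b29328a01c0195195080608ca6a82403859a7a63a495936c9a6374796788878f819b777e6ab293615c588a50b7815dad9581422dafb19b567f9460c4888a3d96bc5a1809
 z (n 34 z (n
 0x90858c140e12ca8ca80078a8c9b6fae8284809f7179866b8094928094847f859d94823e688952ae8c6484a15e865b9ba4797a8fa165857b8e7293808a1009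
 z (n 6496523 z (n
 0x994d44100e04ca8c82003807e61815e7e7f6663827a609c8158827e6f829e595b6088ca63b89352739dba31a92dbca45f4b9d5d6b759f6c6d8878af5c1009
 z (n 6496523 z (n 0 z z))))))))))))) (n 1 (n 2164299 z (n 0 z (n 42 z (n 0 z (n 50 z (n 58 z (n
 0x21a30804336108007ff7b28018268737ff7bd7bc8017ff8cc6c17be88276580093f84285472b8ad8427327c08ea8a182695e6e07e08106849396106b58b390282079482279a84891482878573a86791b6ec0091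
 z (n 66 z (n 0 z (n 0 z (n 0 z (n 0 z (n 0 z z))))))))))))) (n 0 (n 0 z (n 2164315 z (n 74 z (n
 0 z (n 0 z (n 0 z (n 0 z (n 0 z (n 82 z z))))))))) z)))))) (n 9 (n 0 (n 1101 (n 0 z (n 0 z (n 0
 z (n 0 z z)))) (n 775 (n 0 z (n 0 z (n 0 z (n 0 z (n 0 z (n 0 z (n 0 z (n 0 z (n 0 z (n 0 z (n
 0 z (n 0 z (n 0 z (n 0 z (n 0 z (n 0 z (n 0 z (n 0 z (n 0 z (n 0 z (n 0 z (n 0 z (n 0 z (n 0 z
 (n 0 z (n 0 z z)))))))))))))))))))))))))) (n 561 (n 0 z (n 0 z (n 0 z (n 2 (n 0 z (n 2 (n 0 (n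
 8799531 z (n 8799531 z z)) (n 0 z (n 0 z (n 0 (n 8799531 z (n 8799531 z z)) (n 0 (n 8724835 z
 (n 8724835 z z)) (n 0 z z)))))) (n 2 (n 0 z (n 0 z (n 0 z (n 0 z (n 0 z (n 0 z z)))))) (n 1 z
 (n 2 (n 0 z (n 0 (n 8782363 z (n 8782363 z z)) (n 0 (n 8659059 z (n 7676291 z z)) (n 0 (n
 8659059 z (n 7676291 z z)) (n 0 (n 8724835 z (n 8724835 z z)) (n 0 z z)))))) (n 2 (n 0 z (n 0 z
 (n 0 z (n 0 z (n 0 z (n 0 z z)))))) (n 2 (n 0 z (n 0 z (n 0 z (n 0 z (n 0 z (n 0 z z))))))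
 z))))))) (n 0 z (n 0 z (n 0 z z))))))) (n 561 (n 0 z (n 0 z (n 0 z (n 0 z (n 0 z (n 0 z (n 0 z
 z))))))) (n 309 (n 7750955 z (n 0 z (n 0 z (n 0 z (n 0 z (n 0 z (n 0 z z))))))) (n 309 (n 0 z
 (n 0 z (n 0 z (n 0 z (n 0 z (n 0 z (n 0 z z))))))) (n 309 (n 0 z (n 2 (n 0 z (n 2 (n 0 z (n 0 z
 (n 0 z (n 0 z (n 0 z (n 0 z z)))))) (n 2 (n 0 z (n 0 z (n 0 z (n 0 z (n 0 z (n 0 z z)))))) z)))
 (n 0 z (n 0 z (n 0 z (n 0 z (n 0 z z))))))) (n 309 (n 0 z (n 0 z (n 0 z (n 0 z (n 0 z (n 0 z (n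
 0 z z))))))) (n 305 (n 0 z (n 0 z (n 0 z (n 0 z (n 0 z (n 0 z z)))))) (n 305 (n 0 z (n 0 z (n 0
 z (n 0 z (n 0 z (n 0 z z)))))) z)))))))))) (n 0 (n 103 (n 0 z (n 0 z (n 0 z (n 0 z (n 0 z
 z))))) (n 513 (n 0 z (n 2 (n 0 z (n 1 z (n 2 (n 0 (n 252 z (n 252 z z)) (n 0 z (n 0 (n 7538779
 z (n 8783675 z z)) (n 0 (n 7538779 z (n 8783675 z z)) (n 0 z (n 0 (n 6498379 z (n 6498379 z z))
 z)))))) (n 1 z (n 2 (n 0 z (n 0 (n 8799531 z (n 7676291 z z)) (n 0 (n 8659059 z (n 8799531 z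
 z)) (n 0 z (n 0 (n 8659059 z (n 6627715 z z)) (n 0 z z)))))) (n 2 (n 0 z (n 0 z (n 0 z (n 0 z
 (n 0 z (n 0 z z)))))) (n 2 (n 0 z (n 0 z (n 0 z (n 0 z (n 0 z (n 0 z z)))))) z))))))) (n 0 z (n
 0 z (n 0 z (n 0 z z)))))) (n 513 (n 0 z (n 0 z (n 0 z (n 0 z (n 0 z (n 0 z z)))))) (n 63 (n 0 z
 (n 0 z (n 0 z (n 7750955 z (n 0 z (n 0 z (n 0 z (n 0 z z)))))))) (n 63 (n 0 z (n 0 z (n 0 z (n
 0 z (n 0 z (n 0 z (n 0 z (n 0 z z)))))))) (n 63 (n 0 z (n 0 z (n 0 z (n 0 z (n 0 z (n 2 (n 0 z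
 (n 2 (n 0 z (n 0 z (n 0 z (n 0 z (n 0 z (n 0 z z)))))) (n 2 (n 0 z (n 0 z (n 0 z (n 0 z (n 0 z
 (n 0 z z)))))) z))) (n 0 z (n 0 z z)))))))) (n 63 (n 0 z (n 0 z (n 0 z (n 0 z (n 0 z (n 0 z (n
 0 z (n 0 z z)))))))) (n 65 (n 0 z (n 0 z (n 0 z (n 0 z (n 0 z (n 0 z (n 0 z (n 0 z (n 0 z (n 0
 z (n 0 z (n 0 z (n 0 z (n 0 z (n 0 z (n 0 z z)))))))))))))))) (n 65 (n 0 z (n 0 z (n 0 z (n 0 z
 (n 0 z (n 0 z (n 0 z (n 0 z (n 0 z (n 0 z (n 0 z (n 0 z (n 0 z (n 0 z (n 0 z (n 0 z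
 z)))))))))))))))) z))))))))) (n 0 (n 27 (n 0 z (n 0 z (n 2 (n 0 z (n 1 z (n 2 (n 0 (n 60 z (n
 60 z z)) (n 0 z (n 0 (n 7538779 z (n 8783675 z z)) (n 0 (n 7538779 z (n 8783675 z z)) (n 0 z (n
 0 (n 6498379 z (n 6498379 z z)) z)))))) (n 1 z (n 2 (n 0 z (n 0 (n 3213419 z (n 7676291 z z))
 (n 0 (n 8659059 z (n 3213419 z z)) (n 0 z (n 0 (n 8659059 z (n 6627715 z z)) (n 0 z z)))))) (n
 2 (n 0 z (n 0 z (n 0 z (n 0 z (n 0 z (n 0 z z)))))) (n 2 (n 0 z (n 0 z (n 0 z (n 0 z (n 0 z (n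
 0 z z)))))) z))))))) (n 0 z (n 0 z (n 0 z (n 0 z (n 0 z z)))))))) (n 27 (n 0 z (n 0 z (n 0 z (n
 0 z (n 0 z (n 0 z (n 0 z (n 0 z z)))))))) (n 15 (n 0 z (n 0 z (n 2 (n 0 z (n 0 z (n 0 z (n 2 (n
 0 z (n 0 z (n 0 z (n 0 z (n 0 z (n 0 z z)))))) (n 2 (n 0 z (n 0 z (n 0 z (n 0 z (n 0 z (n 0 z
 z)))))) z))))) (n 0 z (n 0 z (n 0 z z)))))) (n 15 (n 0 z (n 0 z (n 0 z (n 0 z (n 0 z (n 0 z
 z)))))) (n 15 (n 0 z (n 0 z (n 0 z (n 0 z (n 0 z (n 2 (n 0 z (n 2 (n 0 z (n 0 z (n 0 z (n 0 z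
 (n 0 z (n 0 z z)))))) (n 2 (n 0 z (n 0 z (n 0 z (n 0 z (n 0 z (n 0 z z)))))) z))) z)))))) (n 15
 (n 0 z (n 0 z (n 0 z (n 0 z (n 0 z (n 0 z z)))))) (n 17 (n 0 z (n 0 z (n 0 z (n 0 z z)))) (n 17
 (n 0 z (n 0 z (n 0 z (n 0 z z)))) z)))))))) (n 0 (n 0 z (n 483 (n 0 z (n 7610467 z (n 0 z (n 0
 z (n 0 z (n 0 z (n 0 z (n 0 z (n 0 z (n 0 z z)))))))))) (n 483 (n 0 z (n 0 z (n 0 z (n 0 z (n 2
 (n 0 z (n 0 z (n 2 (n 0 (n 8868915 z z) (n 0 z (n 0 z (n 0 z (n 0 (n 8868915 z (n 8868915 z z))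
 (n 0 (n 8868915 z z) z)))))) (n 2 (n 0 (n 8525675 z (n 7739483 z z)) (n 0 z (n 0 z (n 0 (n 965
 z (n 8595275 z z)) (n 0 z (n 0 (n 1924 z (n 8595275 z z)) z)))))) z)))) (n 0 z (n 0 z (n 0 z (n
 0 z (n 0 z z)))))))))) (n 483 (n 0 z (n 0 z (n 0 z (n 0 z (n 0 z (n 6633243 z (n 0 z (n 0 z (n
 0 z (n 0 z z)))))))))) (n 483 (n 0 z (n 0 z (n 0 z (n 0 z (n 0 z (n 0 z (n 0 z (n 2 (n 2 (n 0 z
 (n 0 (n 8659043 z (n 8659043 z z)) (n 0 (n 1924 z (n 1924 z z)) (n 0 (n 1924 z (n 7750019 z z))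
 (n 0 z (n 0 z z)))))) (n 2 (n 0 z (n 0 (n 8659043 z (n 8659043 z z)) (n 0 (n 8847899 z (n
 8847899 z z)) (n 0 z (n 0 (n 8847899 z (n 8724851 z z)) (n 0 z z)))))) z)) (n 0 z (n 0 z
 z)))))))))) (n 481 (n 0 z (n 0 z (n 0 z (n 0 z (n 0 z (n 0 z (n 0 z (n 0 z (n 0 z (n 0 z (n 0 z
 (n 0 z (n 0 z (n 0 z (n 0 z (n 0 z (n
 0xaec8ec8007869a6a6691a29063846a72676a897f86809c787466a4924d7f61905baa7f6bbd8da330189eadaf50788e4fdb86951c81d33a0809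
 z (n 0 z (n 0 z (n 0 z (n 0 z (n 0 z (n 0 z (n 0 z (n 0 z (n 0 z z)))))))))))))))))))))))))) (n
 481 (n 0 z (n 0 z (n 0 z (n 0 z (n 0 z (n 0 z (n 0 z (n 0 z (n 0 z (n 0 z (n 0 z (n 0 z (n 0 z
 (n 0 z (n 0 z (n 0 z (n 0 z (n 0 z (n 0 z (n 0 z (n 0 z (n 0 z (n 0 z (n 0 z (n 0 z (n 2 z
 z)))))))))))))))))))))))))) z))))))) (n 0 (n 489 (n 7750955 z (n 0 z (n 0 z (n 0 z (n 0 z (n 0
 z (n 0 z (n 0 z (n 0 z (n 0 z (n 0 z (n 0 z (n 0 z (n 0 z (n 0 z (n 0 z (n 0 z (n 0 z (n 0 z (n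
 0 z (n 0 z (n 0 z z)))))))))))))))))))))) (n 489 (n 0 z (n 0 z (n 0 z (n 0 z (n 0 z (n 0 z (n 0
 z (n 0 z (n 0 z (n 0 z (n 0 z (n 0 z (n 0 z (n 0 z (n 0 z (n 0 z (n 0 z (n 0 z (n 0 z (n 0 z (n
 6498123 z (n 0 z z)))))))))))))))))))))) (n 489 (n 0 z (n 0 z (n 2 (n 0 z (n 2 (n 0 z (n 0 z (n
 0 z (n 0 z (n 0 z (n 0 z z)))))) (n 2 (n 0 z (n 0 z (n 0 z (n 0 z (n 0 z (n 0 z z)))))) z))) (n
 0 z (n 0 z (n 0 z (n 0 z (n 0 z (n 0 z (n 0 z (n 0 z (n 0 z (n 0 z (n 0 z (n 0 z (n 0 z (n 0 z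
 (n 0 z (n 0 z (n 0 z (n 0 z (n 0 z z)))))))))))))))))))))) (n 489 (n 0 z (n 0 z (n 0 z (n 0 z
 (n 0 z (n 0 z (n 0 z (n 0 z (n 0 z (n 0 z (n 0 z (n 0 z (n 0 z (n 0 z (n 0 z (n 0 z (n 0 z (n 0
 z (n 0 z (n 0 z (n 0 z (n 0 z z)))))))))))))))))))))) (n 485 (n 0 z (n 0 z (n 0 z (n 0 z (n 0 z
 (n 0 z (n 0 z (n 0 z (n 0 z (n 0 z (n 0 z (n 0 z (n 0 z (n 0 z (n 0 z z))))))))))))))) (n 485
 (n 0 z (n 0 z (n 0 z (n 0 z (n 0 z (n 0 z (n 0 z (n 0 z (n 0 z (n 0 z (n 0 z (n 0 z (n 0 z (n 0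
 z (n 0 z z))))))))))))))) z)))))) (n 0 (n 0 z (n 0 z (n 0 z (n 1 (n 0 z (n 0 z (n 0 z (n 0 z (n
 0 z (n 0 z (n 0 z (n 0 z (n 0 z (n 0 z (n 0 z (n 0 z (n 0 z (n 0 z (n 0 z (n 0 z (n 0 z (n 0 z
 (n 0 z (n 0 z (n 0 z (n 0 z (n 0 z (n 0 z (n 0 z (n 0 z (n 0 z (n 0 z
 z)))))))))))))))))))))))))))) (n 1 (n 2 z (n 0 z (n 0 z (n 0 z (n 0 z (n 0 z (n 0 z (n 0 z (n 0
 z (n 0 z (n 0 z (n 0 z (n 0 z (n 0 z (n 0 z (n 0 z (n 0 z (n 0 z (n 0 z (n 0 z (n 0 z (n 0 z (n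
 0 z (n 0 z (n 0 z (n 0 z (n 0 z (n 0 z z)))))))))))))))))))))))))))) z))))) (n 0 (n 0 z (n 0 z
 (n 241 (n 0 z (n 7754803 z (n 0 z (n 0 z (n 0 z (n 0 z (n 0 z (n 0 z (n 0 z z))))))))) (n 241
 (n 0 z (n 0 z (n 0 z (n 0 z (n 0 z (n 0 z (n 0 z (n 0 z (n 0 z z))))))))) z)))) (n 0 (n 0 z (n
 1 (n 0 z (n 0 z (n 0 z (n 0 z (n 0 z (n 0 z (n 0 z (n 0 z (n 0 z (n 0 z (n 0 z (n 0 z (n 0 z (n
 0 z (n 0 z (n 0 z (n 0 z (n 0 z (n 0 z (n 0 z (n 0 z (n 0 z (n 0 z (n 0 z (n 0 z (n 0 z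
 z)))))))))))))))))))))))))) (n 1 (n 2 z (n 0 z (n 0 z (n 0 z (n 0 z (n 0 z (n 0 z (n 0 z (n 0 z
 (n 0 z (n 0 z (n 0 z (n 0 z (n 0 z (n 0 z (n 0 z (n 0 z (n 0 z (n 0 z (n 0 z (n 0 z (n 0 z (n 0
 z (n 0 z (n 0 z (n 0 z z)))))))))))))))))))))))))) z))) (n 0 (n 1 (n 0 z (n 0 z (n 0 z (n 0 z
 (n 0 z (n 0 z (n 0 z (n 0 z (n 0 z (n 0 z (n 0 z (n 0 z (n 0 z z))))))))))))) (n 1 (n 0 z (n 0
 z (n 0 z (n 0 z (n 0 z (n 0 z (n 0 z (n 0 z (n 0 z (n 0 z (n 0 z (n 0 z (n 0 z z)))))))))))))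
 z)) (n 0 (n 0 z z) (n 0 z z))))))))))) (n 0 (n 0 z (n 1 (n 6496523 z (n 6496523 z (n 6496523 z
 (n 6496523 z (n 6496523 z (n 6496523 z z)))))) (n 0 z (n 0 z (n 0 z (n 0 z (n 1 (n 1228 z (n
 1228 z (n 1228 z (n 1228 z (n 2 z (n 1228 z z)))))) z))))))) (n 0 (n 0x3428d48504d3 (n 0 (n 0
 (n 7733787 z (n 7733787 z (n 7733787 z (n 7733787 z (n 7676259 z (n 7733787 z z)))))) z) (n 0
 (n 550 (n 0 z (n 1 (n 3282699 z (n 4400907 z (n 4400907 z (n 4400907 z (n 4400907 z (n 4400907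
 z z)))))) (n 0 z (n 1 (n 7676259 z (n 7676259 z (n 7676259 z (n 7676259 z (n 7676259 z (n
 7676259 z z)))))) z)))) (n 551 (n 0 z (n 1 (n 4400907 z (n 4400907 z (n 4400907 z (n 4400907 z
 (n 4400907 z (n 4400907 z z)))))) (n 0 z (n 1 (n 7676259 z (n 7676259 z (n 7676259 z (n 7676259
 z (n 7676259 z (n 7676259 z z)))))) z)))) (n 8 (n 1 (n 7676259 z (n 7676259 z (n 7676259 z (n
 7676259 z (n 7676259 z (n 7676259 z z)))))) (n 1 (n 7676259 z (n 7676259 z (n 7676259 z (n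
 7676259 z (n 7676259 z (n 7676259 z z)))))) (n 0 z (n 0 z z)))) (n 257 (n 0 z (n 1 (n 2252 z (n
 4329587 z (n 2 z (n 2252 z (n 2252 z (n 2252 z z)))))) (n 1 (n 7545099 z (n 2252 z (n 2252 z (n
 2252 z (n 2252 z (n 2252 z z)))))) (n 1 (n 4327227 z (n 7545099 z (n 7733787 z (n 4327227 z (n
 4327227 z (n 4327227 z z)))))) (n 1 (n 7676259 z (n 7676259 z (n 7676259 z (n 7676259 z (n
 7676259 z (n 7676259 z z)))))) (n 1 (n 7676259 z (n 7676259 z (n 7676259 z (n 7676259 z (n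
 7676259 z (n 7676259 z z)))))) z)))))) (n 9 (n 1 (n 3213131 z (n 7750955 z (n 3213131 z (n
 7733787 z (n 3213131 z (n 3213131 z z)))))) (n 0 z (n 1 (n 1244 z (n 1244 z (n 7750955 z (n
 7733787 z (n 1244 z (n 1244 z z)))))) (n 1 (n 7676259 z (n 7676259 z (n 7676259 z (n 7676259 z
 (n 7676259 z (n 7676259 z z)))))) (n 0 z (n 1 (n 5449499 z (n 1244 z (n 7733787 z (n 10 z (n
 7750955 z (n 1244 z z)))))) z)))))) (n 9 (n 1 (n 7676259 z (n 7676259 z (n 7676259 z (n 7676259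
 z (n 7676259 z (n 7676259 z z)))))) (n 1 (n 7676259 z (n 7676259 z (n 7676259 z (n 7676259 z (n
 7676259 z (n 7676259 z z)))))) (n 0 z (n 0 z z)))) (n 9 (n 0 z (n 1 (n 7545099 z (n 7545099 z
 (n 7545099 z (n 7545099 z (n 7545099 z (n 7545099 z z)))))) (n 0 z (n 0 z (n 0 z (n 0 z (n 1 (n
 3213163 z (n 3213163 z (n 3213163 z (n 3213163 z (n 7733787 z (n 3213163 z z)))))) z)))))))
 z))))))) (n 0 (n 0 (n 0 z (n 0 z z)) (n 0 (n 0 z z) z)) (n 0 (n 551 (n 0 (n 0 z (n 0 z z)) (n 0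
 (n 0 (n 4401163 z (n 4401163 z z)) (n 0 z z)) (n 0 (n 0 z (n 0 z z)) (n 0 (n 0 z (n 0 z z))
 z)))) (n 393 (n 0 (n 0 z (n 0 (n 7754115 z (n
 0x2c2980d85180848d7c887984848a7c857d6c7c8c8c839083856595847c707f6f5eac88697fa68e875178adab5d90996091719b4b8195730089
 z z)) z)) (n 0 (n 0 (n
 0x6c3280586480848d7c887984848a7c857d6c7c8c8c839083856595847c707f6f5eac88697fa68e875178adab5d90996091719b4b8195730089
 z (n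
 0x6c3280586480848d7c887984848a7c857d6c7c8c8c839083856595847c707f6f5eac88697fa68e875178adab5d90996091719b4b8195730089
 z z)) (n 0 z z)) (n 0 (n 0 (n
 0x58518081827f837f817e817f827b737f8787808c81836e8b84767f8177699c84727f96937c5c7a9fa1658a8c6b937790557f956f0049
 z (n
 0x58518081827f837f817e817f827b737f8787808c81836e8b84767f8177699c84727f96937c5c7a9fa1658a8c6b937790557f956f0049
 z z)) (n 0 z z)) (n 0 (n 0 z (n 0 z z)) (n 0 (n 0 (n 8659059 z (n 6559755 z z)) (n 0 z z)) (n 0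
 (n 0 (n
 0x642984a85380978969a17e8e799f7282807c837f917f7e7c8e7598788f556a8164939972888a667e808d8971797c9e727e7a87869679910089
 z (n 8783675 z z)) (n 0 z z)) (n 0 (n 0 (n 7754115 z (n 8659059 z z)) (n 0 z z)) (n 0 (n 0 z (n
 0 z z)) (n 0 (n 0 z (n 0 (n 8730395 z (n
 0x110c8c8260780480c8457f38607ff8118308557f08078327bf7fe86280a7fe83c80479f8238418537fb7527ca7ba7be8887e67ce8088cb7a98827728268768427d284e8397b97e57fb82a7c280c7e08250811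
 z z)) z)) (n 0 (n 0 z (n 0 z z)) (n 0 (n 0 (n
 0x58618081827f837f817e817f827b737f8787808c81836e8b84767f8177699c84727f96937c5c7a9fa1658a8c6b937790557f956f0049
 z (n 8783675 z z)) (n 0 z z)) (n 0 (n 0 z (n 0 z z)) (n 0 (n 0 (n
 0x643204a86480978969a17e8e799f7282807c837f917f7e7c8e7598788f556a8164939972888a667e808d8971797c9e727e7a87869679910089
 z (n 8783675 z z)) (n 0 z z)) (n 0 (n 0 z (n 0 z z)) (n 0 (n 0 z (n 0 z z)) (n 0 (n 0 z (n 0 z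
 z)) (n 0 (n 0 (n 8868419 z (n 8868419 z z)) (n 0 (n 8724835 z (n 8724835 z z)) z)) (n 0 (n 0 (n
 5445675 z (n 5445675 z z)) (n 0 z z)) (n 0 (n 0 z (n 0 (n 7682091 z (n
 0x12c3b034876807a908377717d8d7c8679787685918c7c8f7b7d728c917683946f66a086675bab84a66a5ea8a77a9e94627d7da561836d830089
 z z)) z)) (n 0 (n 0 z (n 0 z z)) (n 0 (n 0 (n 4397067 z (n 4397067 z z)) (n 0 z z)) (n 0 (n 0 z
 (n 0 z z)) (n 0 (n 0 z (n 0 z z)) (n 0 (n 0 z (n 0 z z)) (n 0 (n 0 z (n 0 z z)) (n 0 (n 0 (n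
 8783675 z (n
 0xac30824861807c8a827a777e887d847c7b79838c887d8a7d7d77878b79828c7570958470699b8299726a9a997d938d6c7e7e976c8274820089
 z z)) (n 0 (n 8872275 z (n 8872275 z z)) z)) z)))))))))))))))))))))))))) (n 57 (n 0 (n 0 z (n 0
 (n
 0xfa85380085f7c67a184183b83f7b58347c17ff7ef7e380180f7e480081d7ff7ed7fa8447f17d47ce79782a7df83e7e47ef8a37c283073579787281d8037be7bb80a7e98997f87f77a28178907a70051
 z (n
 0xfa85380085f7c67a184183b83f7b58347c17ff7ef7e380180f7e480081d7ff7ed7fa8447f17d47ce79782a7df83e7e47ef8a37c283073579787281d8037be7bb80a7e98997f87f77a28178907a70051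
 z z)) z)) (n 0 (n 0 (n 8868419 z (n 8868419 z z)) (n 0 (n 8724835 z (n 8724835 z z)) z)) (n 0
 (n 0 z (n 0 z z)) (n 0 (n 0 z (n 0 z z)) (n 0 (n 0 z (n 0 z z)) z))))) (n 281 (n 0 (n 0 z (n 0
 (n
 0x30caeca207808081807f8080818081808080807f80808180807e7f80807f8180808080808280818181818180807f807f7f807f808080810809
 z (n 8730395 z z)) z)) (n 0 (n 0 z (n 0 z z)) (n 0 (n 0 (n 8659059 z (n 4331531 z z)) (n 0 z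
 z)) (n 0 (n 0 z (n 0 z z)) (n 0 (n 0 z (n 0 z z)) (n 0 (n 0 z (n 0 z z)) (n 0 (n 0 z (n 0 z z))
 z))))))) (n 257 (n 0 (n 0 z (n 0 z z)) (n 0 (n 0 z (n 0 z z)) (n 0 (n 0 z (n 0 z z)) (n 0 (n 0
 z (n 0 z z)) (n 0 (n 0 z (n 0 z z)) (n 0 (n 0 z (n 0 z z)) z)))))) (n 15 (n 0 (n 0 (n 7 (n
 0x27e1521500060001550a90a600700005d8538530018000b6c2a421800c00097e14e10c00e00017d08708600300017b854543003800141c29aa1800c00052210d50c00e000148a86a8600300004785485200180000ac29c29000c00019e14a14800e0003030a908400700010e853842001800003c21c21000c0004ce14a10800600016f08508400700014685454200180017ac29aa1001c00072a10d508006000014a86a840030000608525420018000644212a1000c00034950950800e0001030a9064003000038853832001800033421c19001c00004614a0c800e00008508506400300001583283200380008dc2a299000c0000fa14d4c800e000059086a6400300018d543532003800003429299001c00007a1094c80060002d6a84a6400300016d832532003800010a99299001c0004921510c800e0001ab0a68640070000ea843432001800027aa1a19000c00010e1490c800600022f0848640070001095424320038000f7c19219000c00071d4c90c80060002128648640070000050038250a50000028004128014d000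
 z (n
 0x1f0e90e800300000c874873001800001c39c21801c00000610e10c00e0000070e6e86003000003843743001800000ba1ba1801c0000561d21c40060000010e70e200700000f87187100180000343a420800c00002a1ce104006000013087082003000012874741003800002c39ba0800c00000e10dd0400e00000ae86e82007000000871741003800001c20ba0801c000009d05d040060000070e906200700000b873831003800001c20c18800c00004e0c60c400e0000190e8e6200700000b873731001800001c21b98800c00000dd0dcc400e0000150e2e62007000006841731003800004ba0b98801c00006e0c5cc400600000ee62e62007000005874431003800001c39a18801c00000e1c50c400600000f082862007000007741431001800001b98a18800c0000050c50c400600000600902e16600000000481708f00000180240b852800000001205c09400000200702e12200000000381708d000001001c0b813800000400205c24a00000200102e0dd00000700081706a80000b80040b825400000c00205c20a00002000102e0810000270008170028000128002043860dc00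
 z (n
 0x63a1ba1800c000149d0dd0800e0001e6e84e840030000277437320018000223a1399001c000049d0d0c800e000122e8486400300000b732432001800002a19219000c000041d0dd0400e00007ae84e8200700000c74174100180000dba1b98801c000101d09cc4006000026e64e62007000009741731003800006b98b98801c00000dd0d0c4006000038e84862003000024732431003800014219218800c000095d050c400e00002ce628620030000124314310038000053a1b90800c000269d09c8400e000048e82e4200700006874342100180008f3a1210801c000069cc9084006000048864842007000095741421001800029b98a10801c0001c50c508400e0001bee428420030000a942142100180001c3a1990801c000235d08c8400600005ce6464200700004643232100180000aba0990801c0000f5cc4c8400600007c86264200300001f721321003800035a10990801c0000e4c84c8400600002b085020e03000017721830401800004c39b90201c0000561d210080e0000270e902040700001d874710201800005c21ba1080c0000261ca1c800e00006d08508400700001984287100180000a421ba0800c0000be1c608400e00002f04304200300005487272100380006cc21390800c0001f2085c8400e00001f06484200300000e0047321a70000028003990d980000b4001cc86b400004c000e642da00002c0007321ae80001a0003990b7400004400a05c30400006200502e1460000040008170aa80000700040b83440001b000205c12200003200102e0010000050014320d100001000021906753400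
 z z))) (n
 0xd8758082917e8f7d82888b7e837d637f988e809b81746a9a956f67845e54bc856371c98ba02d6bbecb4aa29d599576ac2f7c94700049
 z z)) (n 0 (n 7751691 z (n 8730395 z z)) z)) (n 0 (n 0 (n 8868419 z (n 8868419 z z)) (n 0 z z))
 (n 0 (n 0 z (n 0 z z)) (n 0 (n 0 z (n 0 z z)) (n 0 (n 0 z (n 0 z z)) (n 0 (n 0 z (n 0 z z)) (n
 0 (n 0 (n 8868419 z (n 8868419 z z)) (n 0 z z)) (n 0 (n 0 z (n 0 z z)) z)))))))) (n 155 (n 0 (n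
 0 (n 8799531 z (n 8799531 z z)) (n 0 z z)) (n 0 (n 0 z (n 0 z z)) (n 0 (n 0 (n 3282955 z (n
 3282955 z z)) (n 0 z z)) (n 0 (n 0 z (n 0 z z)) (n 0 (n 0 z (n 0 z z)) (n 0 (n 0 z (n 0 z z))
 (n 0 (n 0 z (n 0 z z)) z))))))) (n 33 (n 0 (n 0 z (n 0 z z)) (n 0 (n 0 z (n 0 z z)) (n 0 (n 0 z
 (n 0 z z)) (n 0 (n 0 z (n 0 (n 8799531 z (n 8799531 z z)) z)) (n 0 (n 0 (n
 0x3d876808f5d716a838f596f727f568e81608b80727f9562736374c662ac766c8886cd46bf1884a079797c4f7a5fc96d7f5371cf430049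
 z (n
 0x2ec70c2a07807f808180807f8180818181817f80807f808180808080807f808080808080808080808080808080808080808080808080800809
 z z)) (n 0 z z)) (n 0 (n 0 z (n 0 z z)) (n 0 (n 0 z (n 0 (n 8851507 z (n 8851507 z z)) z)) (n 0
 (n 0 (n 8724835 z (n 8724835 z z)) (n 0 (n 8851507 z (n 8851507 z z)) z)) z)))))))) (n 9 (n 0
 (n 0 z (n 0 z z)) (n 0 (n 0 (n 8659059 z (n 5441579 z z)) (n 0 z z)) (n 0 (n 0 (n
 0x4d8768008127d57ed7e38048137d07eb7ee7ff7cb8118017d880e8017ee7ff81a7da7f17dc7f18577db8377f47e780a8078607b784f77e8058287f77f77fb7c37f87d785b7e87ff7c77ee8637b40051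
 z (n
 0x2ec70c2a07807f808180807f8180818181817f80807f808180808080807f808080808080808080808080808080808080808080808080800809
 z z)) (n 0 z z)) (n 0 (n 0 (n 8724835 z (n 8724835 z z)) (n 0 z z)) (n 0 (n 0 z (n 0 z z)) (n 0
 (n 0 z (n 0 (n 8851507 z (n 8851507 z z)) z)) z)))))) (n 245 (n 0 (n 0 (n 8799531 z (n 8799531
 z z)) (n 0 z z)) (n 0 (n 0 z (n 0 z z)) (n 0 (n 0 z (n 0 z z)) (n 0 (n 0 z (n 0 z z)) (n 0 (n 0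
 z (n 0 z z)) (n 0 (n 0 z (n 0 z z)) (n 0 (n 0 z (n 0 z z)) (n 0 (n 0 z (n 0 z z)) (n 0 (n 0 z
 (n 0 z z)) (n 0 (n 0 z (n 0 z z)) (n 0 (n 0 z (n 0 z z)) (n 0 (n 0 z (n 0 z z)) (n 0 (n 0 z (n
 0 z z)) (n 0 (n 0 z (n 0 z z)) (n 0 (n 0 z (n 0 z z)) (n 0 (n 0 z (n 0 z z)) (n 0 (n 0 z (n 0 z
 z)) (n 0 (n 0 z (n 0 z z)) (n 0 (n 0 z (n 0 z z)) (n 0 (n 0 z (n 0 z z)) (n 0 (n 0 z (n 0 z z))
 (n 0 (n 0 z (n 0 z z)) z)))))))))))))))))))))) (n 153 (n 0 (n 0 (n 8659059 z (n 8783675 z z))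
 (n 0 z z)) (n 0 (n 0 z (n 0 z z)) (n 0 (n 0 (n 3282955 z (n 3282955 z z)) (n 0 (n 8851507 z (n
 8851507 z z)) z)) (n 0 (n 0 z (n 0 z z)) (n 0 (n 0 z (n 0 z z)) (n 0 (n 0 z (n 0 z z)) z))))))
 (n 33 (n 0 (n 0 (n 8659059 z (n 7604251 z z)) (n 0 z z)) (n 0 (n 0 z (n 0 z z)) (n 0 (n 0 z (n
 0 z z)) (n 0 (n 0 z (n 0 z z)) (n 0 (n 0 z (n 0 z z)) (n 0 (n 0 z (n 0 z z)) (n 0 (n 0 z (n 0 z
 z)) (n 0 (n 0 z (n 0 z z)) (n 0 (n 0 (n 7610499 z (n 8659059 z z)) (n 0 z z)) (n 0 (n 0 (n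
 8868419 z (n 8868419 z z)) (n 0 z z)) (n 0 (n 0 z (n 0 z z)) (n 0 (n 0 z (n 0 z z)) (n 0 (n 0 z
 (n 0 z z)) (n 0 (n 0 z (n 0 z z)) (n 0 (n 0 z (n 0 z z)) (n 0 (n 0 z (n 0 z z))
 z)))))))))))))))) (n 9 (n 0 (n 0 (n 8868419 z (n 8868419 z z)) (n 0 z z)) (n 0 (n 0 z (n 0 z
 z)) (n 0 (n 0 z (n 0 z z)) (n 0 (n 0 z (n 0 z z)) z)))) (n 243 (n 0 (n 0 z (n 0 z z)) (n 0 (n 0
 z (n 0 z z)) (n 0 (n 0 z (n 0 z z)) (n 0 (n 0 z (n 0 z z)) (n 0 (n 0 z (n 0 z z)) (n 0 (n 0 z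
 (n 0 z z)) (n 0 (n 0 z (n 0 (n
 0x7d8108008187de7e47f080981c7dd7fd7e87ff7e08108017d58008017ef7ff8127e97f57d97fa8397d08498117d77f781987f7a382d77e80c8417db7c981f7b57f77e685a7f67fb7ef7e785b7ba0051
 z (n
 0x12c38034870807a908377717d8d7c8679787685918c7c8f7b7d728c917683946f66a086675bab84a66a5ea8a77a9e94627d7da561836d830089
 z z)) z)) (n 0 (n 0 (n 7407723 z (n 0x10caec82070821 z z)) (n 0 (n 7751691 z (n 8730395 z z))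
 z)) (n 0 (n 0 z (n 0 z z)) (n 0 (n 0 z (n 0 z z)) (n 0 (n 0 z (n 0 z z)) (n 0 (n 0 (n 8868419 z
 (n 8868419 z z)) (n 0 (n 8724835 z (n 8724835 z z)) z)) (n 0 (n 0 z (n 0 z z)) (n 0 (n 0 z (n 0
 z z)) (n 0 (n 0 z (n 0 z z)) z))))))))))))))) (n 1 (n 0 (n 0 z (n 0 z z)) (n 0 (n 0 (n
 0x35876808c65746d838c6273747f5e8b81658980757f9167766976b868a378718784be51b22d849a7a7a7d597b67ba71805b74c14f0049
 z (n
 0x2e650a2c03807f808180807f817f81818181827e827e817e817f80817e808080808080808080818181808080807f8080808080808080800809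
 z z)) (n 0 z z)) (n 0 (n 0 z (n 0 z z)) (n 0 (n 0 z (n 0 z z)) (n 0 (n 0 z (n 0 z z)) (n 0 (n 0
 (n 8851979 z (n 8851979 z z)) (n 0 z z)) (n 0 (n 0 z (n 0 z z)) (n 0 (n 0 z (n 0 z z)) (n 0 (n
 0 z (n 0 z z)) (n 0 (n 0 z (n 0 z z)) (n 0 (n 0 z (n 0 z z)) (n 0 (n 0 z (n 0 z z)) (n 0 (n 0 z
 (n 0 z z)) z))))))))))))) (n 153 (n 0 (n 0 z (n 0 z z)) (n 0 (n 0 (n
 0x1d0e18940600e870c2a0380808180808080818080808080807f827f81807f7f807f807e80807f80808081807f808081808080808181808180808081801009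
 z (n
 0x5d0e185406010e70a28038081817f808080818080808080807f818080817f807f7f807f817f8080807f81808080808080808080818080807f808080801009
 z z)) (n 0 (n
 0x1d0e18540600ea90c46078084737c7e8c8374797d827f7d7f7b758282818680797d75907595967965919c5f995e7f9777738968717d9783707e74966b1009
 z (n
 0x1d0e18540600ea90c4607808082807f828082808080807f807d7e8280807e7f8080807f828081817f80827f81817f8180807f7e817e80817f808080811009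
 z z)) z)) (n 0 (n 0 (n
 0x12c3a80c84380887c78858288798677847d7a7b7b8484848385708a78837b768b7e887c7c9a7685657590857b81778674987d83758093730089
 z (n
 0xd210c05d42180b38218008447a57bc80e83b82d7a37fe7d380a7ea7cb7f37ea7eb80c82f8078347a283b7c27c581c7b68437d884b7ca7ef8b77828a66c378488183f8267a87a47f47d58d37e37e476180b8ec74d00d1
 z z)) (n 0 z z)) (n 0 (n 0 z (n 0 z z)) (n 0 (n 0 (n 3282955 z (n 3282955 z z)) (n 0 z z)) (n 0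
 (n 0 z (n 0 z z)) (n 0 (n 0 z (n 0 z z)) (n 0 (n 0 z (n 0 z z)) (n 0 (n 0 z (n 0 z z)) (n 0 (n
 0 z (n 0 z z)) z)))))))))) (n 255 (n 0 (n 0 z (n 0 z z)) (n 0 (n 0 z (n 0 (n 8799531 z (n
 8799531 z z)) z)) (n 0 (n 0 z (n 0 (n
 0x70a90a86037c8b83779b89898094778784677984858991876b75928f706583746da9806c90a3817e3d8aa7a35d888c6c9689865189986f0809
 z (n 7682091 z z)) z)) (n 0 (n 0 (n
 0x5d0e185406010e70a4803807f8180807f80808080808080807f8180818080807f80808081808081807f817f808080818180807f8180808080808080801009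
 z (n
 0x5d0e18940600e650c2a078080817f807f80818080808080807f817f8180808080807f80808080807f8081807f8081808180807e8080808080808080801009
 z z)) (n 0 (n
 0x30a90a86037e86817b8e8585808a7b8482737c8283848984757a89877872827a779580768892807e5f8594926e8486768c858368858c770809
 z (n
 0x5d0e185406030eb0ea403808180817f807f818181808080808080808081807e8080807f81808180807f817f8180808180808080817f808180808080801009
 z z)) z)) (n 0 (n 0 (n 8851979 z (n 8851979 z z)) (n 0 (n 8799531 z (n 8799531 z z)) z)) (n 0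
 (n 0 z (n 0 z z)) (n 0 (n 0 z (n 0 z z)) (n 0 (n 0 z (n 0 z z)) (n 0 (n 0 z (n 0 z z)) (n 0 (n
 0 z (n 0 z z)) (n 0 (n 0 z (n 0 z z)) (n 0 (n 0 z (n 0 (n 8872275 z (n 8872275 z z)) z)) (n 0
 (n 0 z (n 0 z z)) (n 0 (n 0 z (n 0 z z)) (n 0 (n 0 z (n 0 z z)) (n 0 (n 0 z (n 0 z z))
 z)))))))))))))))) (n 9 (n 0 (n 0 z (n 0 z z)) (n 0 (n 0 (n 8868419 z (n 8868419 z z)) (n 0 (n
 8593675 z (n 8593675 z z)) z)) (n 0 (n 0 z (n 0 z z)) (n 0 (n 0 (n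
 0x5d0e185406010e90e82038080818180807f8280818080807f7e817f80817f7f7f81807f81808080807f8280808081818181807f8080808080808080801009
 z (n 0x10e70a28030821 z z)) (n 0 (n
 0x10eb0ea20380828080817d8081847f807e827e7d85807d828079807b877d7d817b7f857e8482798183847f7b8281867c7e7e83818380830809
 z (n
 0x10eb0ea203808080808080808281818081807f7f80807f817f7f8080807f81808080817f8280818081818280807e817f7f807f808180810809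
 z z)) z)) (n 0 (n 0 z (n 0 z z)) (n 0 (n 0 z (n 0 z z)) (n 0 (n 0 z (n 0 z z)) z))))))) (n 243
 (n 0 (n 0 z (n 0 z z)) (n 0 (n 0 z (n 0 z z)) (n 0 (n 0 z (n 0 z z)) (n 0 (n 0 (n 8659059 z (n
 8593675 z z)) (n 0 (n 8593675 z (n 8593675 z z)) z)) (n 0 (n 0 z (n 0 z z)) (n 0 (n 0 z (n 0 z
 z)) (n 0 (n 0 z (n 0 z z)) (n 0 (n 0 z (n 0 z z)) (n 0 (n 0 z (n 0 z z)) (n 0 (n 0 z (n 0 z z))
 (n 0 (n 0 z (n 0 z z)) (n 0 (n 0 z (n 0 z z)) (n 0 (n 0 z (n 0 z z)) z))))))))))))) (n 1 (n 0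
 (n 0 z (n 0 z z)) (n 0 (n 0 z (n 0 z z)) (n 0 (n 0 z (n 0 (n 8730395 z (n 8799531 z z)) z)) (n
 0 (n 0 z (n 0 z z)) (n 0 (n 0 z (n 0 z z)) (n 0 (n 0 z (n 0 (n 8851507 z (n 8851507 z z)) z))
 (n 0 (n 0 z (n 0 z z)) (n 0 (n 0 (n 8659059 z (n 7676291 z z)) (n 0 (n 8872275 z (n 8872275 z
 z)) z)) (n 0 (n 0 z (n 0 z z)) (n 0 (n 0 z (n 0 z z)) (n 0 (n 0 z (n 0 z z)) (n 0 (n 0 z (n 0 z
 z)) (n 0 (n 0 z (n 0 z z)) z))))))))))))) (n 0 (n 0 (n 0 z (n 0 z z)) (n 0 (n 0 z (n 0 z z)) (n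
 0 (n 0 z (n 0 z z)) (n 0 (n 0 z (n 0 z z)) (n 0 (n 0 z (n 0 z z)) (n 0 (n 0 z (n 0 (n 8851507 z
 (n 8851507 z z)) z)) (n 0 (n 0 (n
 0x30cae802078080847f807f8182807f807f7f827e8180827e80807f8080807f807e817f7f83808080828282807f7e81817f7f80808180800809
 z (n
 0x10e30e0803808180808080808181808080807f7f80807f817f7f817e817f8180808080808180807f808180808080808081817f818081800809
 z z)) (n 0 (n 8730395 z (n
 0x10cae80207808081807f808081808081807f7f7f808180817f7f807f8080828080807f80817f818180808080807f817f80807f808080800809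
 z z)) z)) (n 0 (n 0 z (n 0 z z)) (n 0 (n 0 z (n 0 z z)) z))))))))) z))))))))))))))))))))) z))))
 z) z)))) (n 0x8e6d70d9c98464c80b9630e1709550089640 (n 0 (n 573 (n 3282443 z (n
 0xeca4ca42077ff7e980a8117f180b7f68137f281081b8027f27ea7fb7fc8187f77fe7f88047f78017f58078078057fd7f48137f77f880f8088108037fc7f680880f7f57f28087f880b80180a8107f57fd0811
 z (n 2 z (n 5510667 z (n
 0x20ca4a6420380480a7fb7f480e7fa8067f67ef8017ef7fc80c80e7f480d7fc8098027f98037f780980c7fd8038058087f67f580b7f87fa7ea7f480d8038137ef7f68058018018097ff7fb7f980080f7f90811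
 z (n 10 z (n 0 z (n 6488603 z z)))))))) (n 574 (n 3278363 z (n 0 z (n
 0x20ca8ca400785f8297a57cb87c7cc82a7418897c373582186689f7aa8557628327ba82a7ac7f08737b97fb7c97e582485a7e382888a7997df7d07978c47c17c98008348218097bc79f7777e27e47fe7c00811
 z (n 0 z (n 0 z (n 0 z (n
 0x2d95194c006008ca4ca400782b8207ec7d88187d482f7d784c7df7c37f081383e8088147cf81a7d27e97e68148167df7fb7bb7fd80082b7dc8218687d08197dc7e883a7f17ed7f18088238077fe7c07ef8007ef8017fd1011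
 z (n 0 z (n
 0x16c84c8400785a7927f68538568427717a578082e70e8a686c80f73783380c78f82887483b78788b8487e58d68308547a985981770283574280b7d17eb8c07d579c8417d27ff81183b79f7c97b880e7fc0811
 z (n
 0xaca6ca60037e385e7ca7f38228097fb7ea7c78177f27ff8028047d38218147f28348058167e67d88517fe85a7c38257f67e18157b380a7cb81282879881f8067ed8028317f88138378108197e48088060811
 z (n 0 z (n 0 z (n 0 z (n 0 z (n 0 z (n 0 z (n 0 z (n 0 z (n 0 z (n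
 0x28ca8ca40078457da8137c57ca7bc8437c889d7c47ea7d480685485c7e97b784577c7d57a482384077680a70282f7b286d7bc81c8fb7968517d07a98e878d7dc8387fa8178187c778d7c17f58107fb7cf0811
 z z)))))))))))))))))))) (n 572 (n 3212843 z (n 0 z (n 0 z (n 0 z (n 0 z (n 0 z (n 0 z (n 0 z (n
 0 z (n 0 z z)))))))))) (n 3 (n 6488603 z (n 0 z (n 0 z (n 0 z (n 0 z z))))) (n 1 (n 2164299 z
 (n 18 z (n 26 z (n 0 z (n 34 z (n 42 z z)))))) (n 0 (n 0 z (n 0 z (n 2164315 z (n 50 z (n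
 0x932180916438087de80580f7fe8067fd7f97f080980180c7ff7fe7f97fe8048077f18078037eb8117f88098048048117f480d7f77f080c7f480d8058138038038037f57fa80b7fc8007f68068027f67fb0091
 z (n
 0x932080916418087de80580f7fe8067fd7f97f080980180c7ff7fe7f97fe8048077f18078037eb8117f88098048048117f480d7f77f080c7f480d8058138038038037f57fa80b7fc8007f68068027f67fb0091
 z (n 0 z (n 0 z z)))))))) z)))))) (n 3 (n 0 (n 0 z (n 105 (n 0 z (n 0 z (n 0 z (n 0 z (n 0 z (n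
 0 z (n 0 z (n 7614819 z (n 0 z (n 0 z (n 0 z z))))))))))) (n 105 (n 0 z (n 0 z (n 2 (n 0 z (n 0
 z (n 2 (n 0 z (n 0 (n 6490203 z z) (n 0 z (n 0 z (n 0 (n 197 z (n 197 z z)) (n 0 (n 484 z z)
 z)))))) z))) (n 0 z (n 0 z (n 0 z (n 0 z (n 0 z (n 0 z (n 0 z (n 0 z z))))))))))) (n 105 (n 0 z
 (n 0 z (n 0 z (n 6620971 z (n 0 z (n 0 z (n 0 z (n 0 z (n 0 z (n 0 z (n 0 z z))))))))))) (n 105
 (n 0 z (n 0 z (n 0 z (n 0 z (n 0 z (n 0 z (n 0 z (n 0 z (n 0 z (n 0 z (n 2 (n 2 (n 0 z (n 0 z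
 (n 0 z (n 0 z (n 0 z (n 0 z z)))))) z) z))))))))))) (n 121 (n 0 z (n 0 z (n 0 z (n 0 z (n 0 z
 (n 0 z (n 0 z (n 0 z (n 0 z (n 0 z (n 0 z (n 0 z (n 0 z (n 0 z (n 0 z (n 0 z (n 0 z (n 0 z (n 0
 z (n 0 z (n 0 z (n 0 z (n 0 z (n 0 z (n 0 z (n 0 z (n 0 z (n
 0x39c85d8100e01aea4c842037e68687cb7d482b7e482d7c880a7fa8037f17fa81b7dc82780c80d8067e68187df80581082a8077dc7fe8237b88208337c48068198037e27be7e08297c68488187f380881e8448157e87f21011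
 z (n 0 z (n 0 z (n 0 z (n 0 z (n 0 z (n 0 z (n 0 z (n 0 z (n 0 z (n 0 z (n 0 z (n 0 z (n 0 z (n
 0 z (n 0 z (n 0 z (n 0 z (n 0 z (n 0 z (n 0 z (n 0 z (n 0 z (n 0 z (n 0 z (n 0 z (n 0 z (n 0 z
 (n 0 z z)))))))))))))))))))))))))))))))))))))))))))))))))))))))) z)))))) (n 0 (n 217 (n 0 z (n
 0 z (n 0 z (n 0 z (n 0 z (n 2 (n 0 z (n 0 z (n 0 z (n 2 (n 0 z (n 0 (n 8867891 z z) (n 0 z (n 0
 (n 8867891 z z) (n 0 (n 8867891 z (n 8867891 z z)) (n 0 z z)))))) z)))) (n 0 z (n 0 z (n 0 z (n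
 0 z z)))))))))) (n 217 (n 0 z (n 0 z (n 0 z (n 0 z (n 0 z (n 0 z (n 0 z (n 0 z (n 0 z (n 0 z
 z)))))))))) (n 217 (n 0 z (n 0 z (n 7607867 z (n 0 z (n 0 z (n 0 z (n 0 z (n 0 z (n 0 z (n 0 z
 z)))))))))) (n 217 (n 0 z (n 0 z (n 0 z (n 0 z (n 0 z (n 0 z (n 0 z (n 0 z (n 2 (n 2 (n 0 z (n
 0 z (n 0 z (n 0 z (n 0 z (n 0 z z)))))) z) (n 0 z z)))))))))) (n 1105 (n 0 z (n 0 z (n 0 z (n 2
 z (n 0 z (n 0 z (n 0 z (n 0 z z)))))))) z))))) (n 0 (n 0 z (n 0 z (n 0 z (n 5 (n 0 z (n 0 z (n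
 0 z (n 0 z (n 0 z (n 0 z (n 0 z (n 0 z (n 0 z (n 0 z (n 0 z (n 0 z (n 0 z (n 0 z (n 0 z (n 0 z
 (n 0 z (n 0 z (n 0 z (n 0 z (n 0 z (n 0 z (n 0 z (n 0 z (n 0 z (n 0 z (n 0 z (n 0 z (n 0 z (n 0
 z (n 0 z (n 0 z (n 0 z (n 0 z (n 0 z (n 0 z (n 0 z (n 0 z (n 0 z (n 0 z (n 0 z (n 0 z (n 0 z (n
 0 z (n 0 z (n 0 z z)))))))))))))))))))))))))))))))))))))))))))))) z)))) (n 0 (n 0 z (n 0 z (n
 49 (n 0 z (n 0 z (n 2 z (n 0 z (n 0 z (n 0 z (n 0 z (n 0 z z)))))))) z))) (n 0 (n 0 z (n 25 (n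
 0 z (n 0 z (n 0 z (n 0 z (n 0 z (n 0 z (n 0 z (n 0 z (n 0 z (n 0 z (n 0 z (n 0 z (n 0 z (n 0 z
 (n 0 z (n 0 z (n 0 z (n 0 z (n 0 z (n 0 z (n 0 z (n 0 z (n 0 z (n 0 z (n 0 z (n 0 z (n 0 z (n 0
 z (n 0 z (n 0 z (n 0 z (n 0 z (n 0 z (n 0 z (n 0 z (n 0 z (n 0 z (n 0 z (n 0 z (n 0 z (n 0 z (n
 0 z (n 0 z (n 0 z (n 0 z (n 0 z (n 0 z (n 0 z (n 0 z (n 0 z (n 0 z (n 0 z (n 0 z (n 0 z (n 0 z
 (n 0 z z)))))))))))))))))))))))))))))))))))))))))))))))))))))))) z)) (n 0 (n 1 (n 0 z (n 0 z (n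
 0 z (n 0 z (n 0 z (n 0 z (n 0 z (n 0 z (n 0 z (n 0 z (n 0 z (n 0 z (n 0 z (n 0 z
 z)))))))))))))) z) (n 0 z z))))))) (n 0 (n 1 (n 6488603 z (n 6488603 z (n 6488603 z (n 6488603
 z (n 6488603 z (n 6488603 z z)))))) (n 0 z (n 0 z (n 0 z (n 0 z z))))) (n 0 z z)))) (n
 0xb09345354a21d2d0544ada43aabc2b514409 (n 0 (n 597 (n 3282443 z (n 0 z (n 0 z (n 0 z (n 0 z (n
 0 z (n 0 z z))))))) (n 595 (n 3278363 z (n 2 z (n 0 z (n 0 z (n 0 z (n 0 z z)))))) (n 129 (n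
 0x52641768e848a807c7f728786867580706e96906c8f7d76698584908880767b8c7b807791808a6d6a8789ab7c7a5d7a89907a6a920049
 z (n 6423611 z (n
 0x14990c20b218606437a7f83897786757c828d7a877878827a7d81877d797f887a8585807f818181768680827a8086817e7f847277848173828d7f00c9
 z (n 10 z (n 18 z (n 0 z (n 0 z (n 5510699 z (n 3212843 z z))))))))) (n 3 (n
 0x2532901d650718f86847d7b85758e87847282747496906f8b75736b868190857f77818e7b837a9382876c688c86ab7e7560768c8c7a63910089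
 z (n 0 z (n 0 z (n 0 z (n 0 z (n 0 z (n 0 z (n 0 z (n 0 z (n 2164283 z (n 0 z (n 0 z (n 0 z
 z))))))))))))) (n 1 (n 0 z (n 0 z (n 2164299 z (n 0 z (n 0 z (n 0 z (n 0 z (n 0 z z)))))))) (n
 0 (n 26 z (n 2164315 z (n 0 z (n 0 z (n 34 z (n 0 z (n 0 z (n 42 z (n 50 z (n 0 z (n 0 z (n 0 z
 (n 0 z (n 0 z (n 0 z (n 0 z z)))))))))))))))) z)))))) (n 595 (n 0 (n 271 (n 0 z (n 0 z (n 0 z
 (n 0 z (n 0 z (n 0 z (n 0 z (n 0 z (n 0 z (n 0 z (n 0 z (n 0 z (n 0 z (n 0 z (n 0 z (n 0 z (n 2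
 (n 0 z (n 2 (n 0 z (n 0 z (n 0 z (n 0 z (n 0 z (n 0 z z)))))) (n 2 (n 0 z (n 0 z (n 0 z (n 0 z
 (n 0 z (n 0 z z)))))) (n 2 (n 0 z (n 0 z (n 0 z (n 0 z (n 0 z (n 0 z z)))))) (n 2 (n 0 z (n 0 z
 (n 0 z (n 0 z (n 0 z (n 0 z z)))))) z))))) (n 0 z (n 0 z (n 0 z (n 0 z (n 0 z (n 0 z (n 0 z (n
 0 z (n 0 z (n 0 z (n 0 z (n 0 z z))))))))))))))))))))))))))))) (n 271 (n 0 z (n 0 z (n 0 z (n 0
 z (n 0 z (n 0 z (n 0 z (n 0 z (n 0 z (n 0 z (n 0 z (n 0 z (n 0 z (n 0 z (n 0 z (n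
 0x52763768d858a807b7f728886877580706e96906c8f7d766885848f8880767b8c7b807790808a6d6a8888ab7d7a5e7a8a8f786b930049
 z (n 0 z (n 0 z (n 0 z (n 0 z (n 0 z (n 0 z (n 0 z (n 0 z (n 0 z (n 0 z (n 0 z (n 0 z (n 0 z
 z))))))))))))))))))))))))))))) (n 5 (n 0 z (n 0 z (n 0 z (n 0 z (n 0 z (n 0 z (n 0 z (n 0 z (n
 0 z (n 0 z (n 0 z (n 0 z (n 0 z (n 0 z (n 0 z (n 0 z z)))))))))))))))) (n 5 (n 0 z (n 2 (n 0 z
 (n 0 z z)) (n 0 z (n 0 z (n 0 z (n 0 z (n 0 z (n 0 z (n 0 z (n 0 z (n 0 z (n 0 z (n 0 z (n 0 z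
 (n 0 z (n 0 z z)))))))))))))))) (n 5 (n 0 z (n 0 z (n 0 z (n 0 z (n 0 z (n 0 z (n 0 z (n 0 z (n
 0 z (n 0 z (n 0 z (n 0 z (n 0 z (n 0 z (n 0 z (n 0 z z)))))))))))))))) (n 5 (n 0 z (n 0 z (n 0
 z (n 0 z (n 0 z (n 0 z (n 0 z (n 0 z (n 0 z (n 0 z (n 0 z (n 0 z (n 0 z (n 0 z (n 0 z (n 0 z
 z)))))))))))))))) z)))))) (n 0 (n 0 z (n 257 (n 0 z (n 0 z (n 0 z (n 2 (n 0 z (n 0 z (n 0 z
 z))) (n 0 z (n 0 z (n 0 z (n 0 z (n 0 z (n 0 z (n 0 z (n 0 z z)))))))))))) (n 257 (n 0 z (n 0 z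
 (n 0 z (n 0 z (n 0 z (n 0 z (n 0 z (n 0 z (n 0 z (n 0 z (n 0 z (n 0 z z)))))))))))) (n 257 (n 0
 z (n 0 z (n 0 z (n 0 z (n 0 z (n 0 z (n 0 z (n 0 z (n 0 z (n 0 z (n 0 z (n 0 z z)))))))))))) (n
 257 (n 0 z (n 0 z (n 0 z (n 0 z (n 0 z (n 0 z (n 0 z (n 0 z (n 0 z (n 2 z (n 0 z (n 0 z
 z)))))))))))) z))))) (n 0 (n 829 (n 2 (n 0 z (n 0 z (n 0 z z))) (n 0 z (n 0 z (n 0 z (n 0 z (n
 0 z (n 0 z (n 0 z (n 0 z (n 0 z (n 0 z z))))))))))) (n 829 (n 0 z (n 0 z (n 0 z (n 2 (n 0 z (n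
 0 z z)) (n 0 z (n 0 z (n 0 z (n 0 z (n 0 z (n 0 z (n 0 z z))))))))))) (n 829 (n 0 z (n 0 z (n 0
 z (n 0 z (n 0 z (n 0 z (n 6428475 z (n 0 z (n 0 z (n 0 z (n 0 z z))))))))))) (n 829 (n 0 z (n 0
 z (n 0 z (n 0 z (n 0 z (n 7684195 z (n 0 z (n 0 z (n 0 z (n 0 z (n 0 z z))))))))))) z)))) (n 0
 (n 0 z (n 0 z (n 0 z z))) (n 0 (n 0 z (n 0 z z)) (n 0 (n 0 z z) (n 0 z z))))))) (n 0 (n 1 (n
 3278363 z (n 3278363 z (n 3278363 z (n 3278363 z (n 3278363 z (n 3278363 z z)))))) (n 1 (n 4780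
 z (n 4780 z (n 4780 z (n 4780 z (n 4780 z (n 4780 z z)))))) (n 0 z (n 0 z (n 0 z (n 0 z z))))))
 (n 0 z z)))) (n 0x40f590859d988d73ac1259633ace42e459819 (n 0 (n 467 (n 3282443 z (n 0 z (n 0 z
 (n 0 z (n 0 z (n 0 z (n 0 z (n 0 z z)))))))) (n 461 (n
 0x2ca8a864078080808180818180807e807f81808180807f808180817f80818080808081808180808082807e8082807f80807f80817f80800809
 z (n 6358347 z (n 0 z (n 0 z (n 0 z (n 3278363 z (n 0 z (n 0 z (n 0 z (n 0 z (n 0 z (n 0 z (n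
 0x6ca8ca84078a7f817d7982857c80807c817a8189817d7d7b86907c8075887e7b7a82897f886a82848c807c73837f8b8a797977838e74820809
 z (n 0 z (n 0 z (n
 0x12d620717a6dbd81927a443e806284ac8448abb26f689d887aa68784be5a804e966d8c4e8786b7974668b851c192828e757d93897e0049
 z (n 2 z (n
 0x1756546e7968cd819778352d805a85b6853ab6bf6b61a48a79af8985ce5180429c688e428987c49d3862c547d1978491737d968c7e0049
 z (n 0 z (n 0 z (n 0 z z))))))))))))))))))))) (n 131 (n 0 z (n 0 z (n 3212843 z (n 0 z (n 10 z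
 (n 0 z (n 0 z (n 0 z (n 0 z z))))))))) (n 3 (n 18 z (n 2164283 z (n 0 z (n 0 z (n 26 z (n 34 z
 z)))))) (n 1 (n 42 z (n
 0xab2990b653887d7e748082898a938079897b74848e8665766b7f6d8a76a2887c80868a7e956c8d807f767e70888d76848192828b7f677c0089
 z (n 0 z (n 50 z (n 0 z (n 6558507 z (n 0 z (n 0 z (n 0 z (n 0 z (n 0 z z))))))))))) (n 0 (n 0
 z (n 0 z (n 0 z (n 2164315 z (n 0 z (n 0 z (n 0 z (n 0 z (n 0 z z))))))))) z)))))) (n 3 (n 0 (n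
 375 (n 0 z (n 0 z (n 0 z (n 0 z (n 0 z (n 0 z (n 0 z (n 0 z (n 0 z (n 0 z z)))))))))) (n 441 (n
 0 z (n 0 z (n 0 z (n 0 z (n 0 z (n 0 z (n 6428507 z z))))))) (n 441 (n 6428427 z (n 0 z (n 0 z
 (n 0 z (n 0 z (n 0 z (n 0 z z))))))) (n 441 (n 0 z (n 0 z (n 0 z (n 0 z (n 0 z (n 2 (n 2 (n 0
 (n 6428763 z (n 6428763 z z)) (n 0 z (n 0 (n 8865307 z (n 8865307 z z)) (n 0 z (n 0 (n 1492 z
 (n 1492 z z)) (n 0 z z)))))) (n 2 (n 0 z (n 0 z (n 0 z (n 0 z (n 0 z (n 0 z z)))))) z)) (n 0 z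
 z))))))) (n 373 (n 0 z (n 0 z (n 0 z (n 0 z (n 0 z (n 0 z (n 0 z (n 6428507 z (n 0 z (n 0 z
 z)))))))))) (n 373 (n 0 z (n 0 z (n 0 z (n 0 z (n 0 z (n 0 z (n 2 z (n 0 z (n 0 z (n 0 z
 z)))))))))) z)))))) (n 0 (n 285 (n 0 z (n 2 (n 0 z (n 0 z (n 2 (n 0 z (n 0 z (n 0 z (n 0 z (n 0
 z (n 0 z z)))))) (n 2 (n 0 z (n 0 z (n 0 z (n 0 z (n 0 z (n 0 z z)))))) z)))) (n 0 z (n 0 z (n
 0 z (n 0 z (n 0 z (n 0 z (n 0 z z))))))))) (n 285 (n 0 z (n 0 z (n 0 z (n 0 z (n 0 z (n 0 z (n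
 0 z (n 0 z (n 0 z z))))))))) (n 285 (n 0 z (n 0 z (n 0 z (n 0 z (n 0 z (n 0 z (n 0 z (n 0 z (n
 0 z z))))))))) (n 1373 (n 0 z (n 0 z (n 0 z (n 0 z (n 0 z (n 0 z (n 0 z (n 0 z (n 0 z (n 0 z (n
 0 z z))))))))))) (n 1373 (n 0 z (n 0 z (n 0 z (n 0 z (n 0 z (n 2 z (n 0 z (n 0 z (n 0 z (n 0 z
 (n 0 z z))))))))))) z))))) (n 0 (n 0 z (n 0 z (n 9 (n 0 z (n 0 z (n 0 z (n 0 z (n 0 z (n 0 z (n
 0 z (n 0 z z)))))))) (n 9 (n 0 z (n 0 z (n 0 z (n 0 z (n 0 z (n 0 z (n 2 z (n 0 z z))))))))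
 z)))) (n 0 (n 0 z (n 99 (n 0 z (n 0 z (n 0 z (n 0 z (n 0 z (n 0 z (n 0 z (n 0 z (n 0 z (n 0 z
 (n 0 z (n 0 z z)))))))))))) (n 99 (n 0 z (n 0 z (n 0 z (n 0 z (n 0 z (n 0 z (n 0 z (n 0 z (n 0
 z (n 0 z (n 0 z (n 0 z z)))))))))))) z))) (n 0 (n 9 (n 0 z (n 0 z (n 2 (n 0 z z) (n 0 z z))))
 (n 9 (n 0 z (n 0 z (n 0 z (n 0 z z)))) z)) (n 0 (n 0 z z) (n 0 z z))))))) (n 0 (n 1 (n 3282523
 z (n 3740 z (n 3740 z (n 3740 z (n 3740 z (n 6558507 z z)))))) (n 1 (n 2164283 z (n 2164283 z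
 (n 2164283 z (n 2164283 z (n 6558507 z (n 2164283 z z)))))) (n 0 z (n 0 z (n 1 (n 3280995 z (n
 4392475 z (n 3282443 z (n 3740 z (n 3740 z (n 3740 z z)))))) (n 1 (n 3740 z (n 3740 z (n 3740 z
 (n 3740 z (n 3740 z (n 5447779 z z)))))) z)))))) (n 0 z z)))) (n
 0xd2d76895d94289c61b5216126ea841372819 (n 0 (n 153 (n 0 z (n 0 z (n 0 z (n 0 z (n 3282443 z (n
 0 z (n 0 z (n 0 z z)))))))) (n 255 (n
 0x5a6538008048077fb8067f780380280e7fc7ff8077fc80080b7ec7f680b80180580b8047f97f97fd7f57fe7fd80b7eb8027f58008018038058088057fb8028037f88047f57eb8147f57fd7fd8050051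
 z (n
 0x6ca8a806038007fa7f28057e07f57fb8058048017f682b8038098087f47ff80f7f78117fd8157f97e980a81f7cb7f77e37ed80e7df80f7f780780180080e7f77f38058178187f880680d7e97fd80f7f50811
 z (n 0 z (n 0 z (n 0 z (n 0 z (n
 0x4ca6ca0807004654540301800b28aa0180c00595194c006002c86c860037fe7e080881b7eb8067e67f98397e47ea83d7fb81b7b27f17f48277fa8527ba83e7fd7bb8048687d67f57e381a7f17b081781c8048088057e67ed81380384d7df7e380e81b8198247b981e2811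
 z (n 0 z (n 4326939 z (n 3278363 z (n 0 z (n 2 z (n 0 z (n 10 z (n 0 z (n 0 z z))))))))))))))))
 (n 9 (n 0 z (n 6496523 z (n 0 z (n 0 z (n 0 z z))))) (n 243 (n 6496523 z (n
 0x9c6208008008038007f37eb8007fa7f28048007fe7f380a80180b8028207f68018097e88067ee81380d7f47f07f77d98127fb8027ee8107f18068058007e98188048357ff80880e7ec80280e7f30051
 z (n 18 z (n 6496523 z (n 0 z (n 0 z (n
 0x9c6108008008038007f37eb8007fa7f28048007fe7f380a80180b8028207f68018097e88067ee81380d7f47f07f77d98127fb8027ee8107f18068058007e98188048357ff80880e7ec80280e7f30051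
 z (n 0 z (n 0 z (n 0 z (n 6496523 z (n 0 z (n 0 z (n 0 z (n 4331067 z (n 0 z (n 0 z (n 0 z (n 0
 z (n
 0xe262180080b8117f480f7e98078048237f57fe8127f580181d7cf7e681a80280c81b80a7ef7f17f97e47fc7f981a7cc8077e580380380780c81280e7f48058077ec80a7e07cb8317e47f87fb80c0051
 z (n
 0x92461080080096c800ad796a8006be6bf8008003d97df8924879368108cd76e86f4fb6f4ac890377476cdeb8c19e9a13623b6e5098f67ac7a66c74af9caa5d90c87471193798f6f6ca8b3135d85e0051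
 z (n 0 z (n 0 z (n 0 z (n 0 z (n
 0x9885901406006ca2ca0803005643540103800802a1905b80000050c82dc00000086416d7fe80e7fa7fb8077ff8097fd8107f68048067ff7f48147ed7fd7fb80080880b81b8027f38018087f67f77f48098037f180b8057fc8017ef80a8077f27e68007f480e8018017ea8068058003011
 z (n
 0x6c6108008008018007f87f38007fc7f78038007ff7f88068018078018147fa8018067f18047f480c8087f97f67fa7e780c7fd8027f480a7f68048048007f180f8048228008068097f38018097f70051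
 z (n
 0xeca8ca82078087fa8038057ea7ed7fc80680c7ff7fc81580480e80a7f980080d7f18038067fd7ff7eb8108137d58007ef7e08097ef7ff7fc7fe80081880b7f07fc8008068197f88018037f47f78167f70811
 z (n 0 z (n
 0x3329a90200c00994d441006000ca8a8020380080b8017f18107f58087f78127fa8067f67fa7fb8167ef7ff80880280180c8058067f08067f68077fd8057f98017f77fe8008047fd7fe8068018018027f88057fd7f980b7f68018007fb1811
 z (n 0 z (n 6496523 z (n 0 z (n 0 z (n 4326971 z (n 6496523 z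
 z)))))))))))))))))))))))))))))))))))) (n 121 (n 0 z (n 0 z (n 26 z (n 0 z (n 2164299 z (n 34 z
 (n
 0x4ac6108008008bb8009748b980075c75c8008005e07ef84b63989f8088697b583967477796c8857b87b4b078638fb91070c9c167b87e7d57d176064d8ea93588983b78689f8cc778a629a25a18300051
 z (n 42 z (n 0 z (n 0 z (n 0 z (n 0 z (n 0 z z))))))))))))) (n 0 (n 0 z (n 0 z (n 2164315 z (n
 0 z (n 0 z (n 0 z (n 0 z (n 0 z (n 50 z z))))))))) z)))))) (n 9 (n 0 (n 0 z (n 513 (n 0 z (n 0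
 z (n 0 z (n 7681547 z (n 0 z (n 0 z (n 0 z (n 0 z z)))))))) (n 63 (n 0 z (n 0 z (n 0 z (n 0 z
 (n 0 z (n 0 z z)))))) (n 63 (n 0 z (n 0 z (n 0 z (n 0 z (n 0 z (n 0 z z)))))) (n 63 (n 0 z (n 0
 z (n 0 z (n 0 z (n 2 (n 2 (n 0 z (n 0 z (n 0 z (n 0 z (n 0 z (n 0 z z)))))) z) (n 0 z z))))))
 (n 65 (n 0 z (n 0 z (n 0 z (n 0 z (n 0 z (n 0 z (n 0 z (n 0 z (n 0 z (n 0 z (n 0 z (n 0 z (n 0
 z (n 0 z (n 0 z (n 0 z z)))))))))))))))) z)))))) (n 0 (n 535 (n 0 z (n 2 (n 1 z (n 2 (n 0 z (n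
 0 z (n 0 z (n 0 z (n 0 z (n 0 z z)))))) (n 2 (n 0 z (n 0 z (n 0 z (n 0 z (n 0 z (n 0 z z))))))
 (n 2 (n 0 z (n 0 z (n 0 z (n 0 z (n 0 z (n 0 z z)))))) z)))) (n 0 z (n 0 z (n 0 z (n 0 z (n 0 z
 (n 0 z (n 0 z (n 0 z (n 0 z (n 0 z (n 0 z z))))))))))))) (n 51 (n 0 z (n 0 z (n 0 z (n 0 z (n 0
 z (n 0 z (n 0 z (n 2 (n 0 z (n 0 z (n 2 (n 0 z (n 0 z (n 0 z (n 0 z (n 0 z (n 0 z z)))))) z)))
 (n 0 z (n 0 z (n 0 z (n 0 z (n 0 z (n 0 z (n 0 z z))))))))))))))) (n 51 (n 0 z (n 0 z (n 0 z (n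
 0 z (n 0 z (n 0 z (n 0 z (n 0 z (n 0 z (n 0 z (n 0 z (n 2 (n 0 z (n 2 (n 0 z (n 0 z (n 0 z (n 0
 z (n 0 z (n 0 z z)))))) z)) (n 0 z (n 0 z (n 0 z z))))))))))))))) (n 51 (n 0 z (n 0 z (n 0 z (n
 0 z (n 0 z (n 0 z (n 0 z (n 0 z (n 0 z (n 0 z (n 0 z (n 0 z (n 0 z (n 0 z (n 0 z
 z))))))))))))))) (n 533 (n 0 z (n 0 z (n 2 z (n 0 z (n 0 z (n 0 z (n 0 z (n 0 z (n 0 z
 z))))))))) z))))) (n 0 (n 531 (n 0 z (n 6633259 z (n 0 z (n 0 z (n 0 z (n 0 z (n 0 z (n 0 z (n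
 0 z (n 0 z z)))))))))) (n 531 (n 0 z (n 0 z (n 0 z (n 0 z (n 0 z (n 6633227 z (n 0 z (n 0 z (n
 0 z (n 0 z z)))))))))) (n 531 (n 0 z (n 0 z (n 0 z (n 0 z (n 0 z (n 0 z (n 0 z (n 2 (n 2 (n 0 z
 (n 0 z (n 0 (n 8782363 z (n 8724595 z z)) (n 0 (n 8782363 z (n 8782363 z z)) (n 0 (n 8782363 z
 (n 8724595 z z)) (n 0 z z)))))) z) (n 0 z (n 0 z z)))))))))) (n 529 (n 0 z (n 0 z (n 0 z (n 0 z
 (n 0 z (n 0 z (n 0 z (n 0 z (n 0 z (n 0 z (n 0 z (n 0 z (n 0 z (n 0 z (n 0 z (n 0 z (n 0 z (n 0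
 z (n 0 z (n 0 z (n 0 z (n 0 z (n 0 z (n 0 z (n 0 z (n 0 z (n 0 z (n 0 z
 z)))))))))))))))))))))))))))) z)))) (n 0 (n 0 z (n 0 z (n 241 (n 0 z (n 0 z (n 0 z (n 0 z (n 0
 z (n 0 z (n 0 z (n 0 z (n 0 z (n 0 z (n 0 z (n 0 z (n 0 z (n 0 z (n 0 z (n 0 z (n 0 z (n 0 z (n
 0 z (n 0 z (n 0 z (n 0 z (n 0 z (n 0 z (n 0 z (n 0 z (n 0 z (n
 0x1d8dd8c806000ca6ca62078007fe8008037fc8007ff8008047ff8008048007ff7ff7fc8018037ff8087f98097fe7fc7ff8077fb8007fc8027ff7fd7fe8018008017fe7fe7ff8037fc8097fe7ff8048038028047fa8001011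
 z z)))))))))))))))))))))))))))) z))) (n 0 (n 0 z (n 241 (n 0 z (n 0 z (n 0 z (n 0 z (n 0 z (n 0
 z (n 0 z (n 0 z (n 0 z (n 0 z (n 0 z (n 0 z (n 0 z (n 0 z (n 0 z (n 0 z (n 0 z (n 0 z (n 0 z (n
 0 z (n 0 z (n 0 z (n 0 z (n 0 z (n 0 z (n 2 z z)))))))))))))))))))))))))) z)) (n 0 (n 241 (n 0
 z (n 0 z (n 0 z (n 0 z (n 0 z (n 0 z (n 0 z (n 0 z (n 0 z (n 0 z (n 0 z (n 0 z (n 0 z
 z))))))))))))) z) (n 0 z z))))))) (n 0 (n 0 z (n 1 (n 6496523 z (n 6496523 z (n 6496523 z (n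
 6496523 z (n 6496523 z (n 6496523 z z)))))) (n 0 z (n 0 z (n 0 z z))))) (n 0 z z)))) (n
 0x1db9d22d52109952923546a611 (n 0 (n 443 (n 3282443 z (n 4331019 z (n 0 z (n 0 z (n 0 z (n 0 z
 (n 0 z (n 0 z (n 0 z (n 0 z (n
 0xca8a8240781f8607e08218208208208208208208208208208208208208208208208208208208208208200801 z (n
 0 z (n
 0xca8a8240781f8607e08218208208208208208208208208208208208208208208208208208208208208200801 z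
 z))))))))))))) (n 437 (n 3278363 z (n 3278363 z (n 0 z (n 0 z (n 0 z (n 2 z (n 0 z (n 0 z (n
 0x2ca8a8040782081f7e08208207a18608208608208208208208207e081f8608218208207e08208208208200801 z
 (n 0 z (n 0 z (n 0 z (n
 0x2ca8a8640782081f7e08208207a18608208608208208208208207e081f8608218208207e08208208208200801 z
 z))))))))))))) (n 433 (n 0 z (n 10 z (n 3212843 z z))) (n 3 (n 0 z (n
 0xca8a8240781f8607e08218208208208208208208208208208208208208208208208208208208208208200801 z (n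
 0 z (n 0 z (n 0 z (n 0 z (n 0 z (n 2164283 z (n 4331067 z (n 0 z (n 0 z (n 0 z (n 0 z (n
 0xca8a8240781f8607e08218208208208208208208208208208208208208208208208208208208208208200801 z
 z)))))))))))))) (n 1 (n 0 z (n 18 z (n
 0x2ca8a6240781f8208208208207e18208208208208208208208208208208208208208208208208208208210801 z
 (n 26 z (n 0 z (n 0 z (n 0 z (n 0 z (n 0 z (n 0 z (n 0 z (n 0 z (n 0 z (n 0 z (n 2164299 z (n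
 3278411 z (n 0 z z))))))))))))))))) (n 0 (n 34 z (n 0 z (n 2164315 z z))) z)))))) (n 433 (n 0
 (n 867 (n 0 z (n 0 z (n 0 z (n 0 z (n 0 z (n 0 z (n 0 z (n 0 z (n 0 z (n 0 z (n 0 z (n 0 z (n 0
 z (n 2 (n 1 z (n 2 (n 0 z (n 0 (n 1828 z (n 1828 z z)) (n 0 (n 1828 z (n 1828 z z)) (n 0 z (n 0
 z (n 0 (n 1828 z (n 1828 z z)) z)))))) (n 2 (n 0 z (n 0 z (n 0 z (n 0 z (n 0 z (n 0 z z))))))
 z))) (n 0 z (n 0 z (n 0 z z))))))))))))))))) (n 457 (n 0 z (n 0 z (n 0 z (n 0 z (n 0 z (n 0 z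
 (n 0 z (n 0 z (n 0 z (n 0 z (n 0 z (n 0 z (n 0 z (n 0 z (n 0 z (n 0 z (n 0 z z)))))))))))))))))
 (n 457 (n 0 z (n 0 z (n 0 z (n 0 z (n 0 z (n 0 z (n 0 z (n 0 z (n 0 z (n 0 z (n 0 z (n 0 z (n 0
 z (n 2 (n 2 (n 0 z (n 0 z (n 0 z (n 0 z (n 0 z (n 0 z z)))))) z) (n 0 z (n 0 z (n 0 z
 z))))))))))))))))) (n 49 (n 0 z (n 0 z (n 0 z (n 0 z (n 0 z (n 0 z (n 0 z (n 0 z (n 0 z (n 0 z
 (n 0 z (n 0 z (n 0 z (n 0 z (n 0 z (n 0 z (n 0 z z))))))))))))))))) z)))) (n 0 (n 21 (n 0 z (n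
 0 z (n 0 z (n 0 z (n 0 z (n 0 z (n 0 z z))))))) (n 21 (n 0 z (n 0 z (n 0 z (n 0 z (n 0 z (n 0 z
 (n 0 z z))))))) (n 889 (n 0 z (n 0 z (n 2 z z))) z))) (n 0 (n 0 z (n 245 (n 0 z (n 0 z (n 0 z
 (n 0 z (n 0 z (n 0 z (n 0 z (n 0 z (n 0 z (n 0 z (n 0 z (n 0 z (n 0 z (n 0 z (n 0 z (n 0 z (n 0
 z (n 0 z (n 0 z (n 0 z (n 0 z z))))))))))))))))))))) z)) (n 0 (n 1 (n 0 z (n 0 z (n 0 z (n 0 z
 (n 0 z (n 0 z (n 0 z (n 0 z (n 0 z (n 0 z (n 0 z (n 0 z (n 0 z (n 0 z (n 0 z (n 0 z (n 0 z (n 0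
 z (n 0 z (n 0 z (n 0 z (n 0 z z)))))))))))))))))))))) z) (n 0 z z))))) (n 0 (n 0 z (n 1 (n 3548
 z (n 3548 z (n 3548 z (n 3548 z (n 3548 z (n 3548 z z)))))) (n 1 (n 3212843 z (n 3212843 z (n
 3212843 z (n 3212843 z (n 3212843 z (n 3212843 z z)))))) z))) (n 0 z z)))) (n
 0x434cc214aa2258255841266700 (n 0 (n 443 (n 0 z (n 3282443 z (n 4331019 z (n 0 z (n 0 z (n 0 z
 (n 0x6ca6a864037a0a2079f86091c6dd6e192295c81575c99bbe57df8219df81f759a19759a6379f71d8de71f0801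
 z (n 2 z (n 0 z (n 0 z (n
 0x6ca6a624077a0a2079f86091c6dd6e192295c81575c99bbe57df8219df81f759a19759a6379f71d8de71f0801 z
 (n 0 z z)))))))))))) (n 437 (n 10 z (n 0 z (n 3278363 z (n 3278363 z (n 18 z (n
 0x2ca6a604078208208208208207e181f8208208208208208608208208208208208208208208208208208200801 z
 (n 0 z z))))))) (n 9 (n 0 z (n 3212843 z (n 0 z z))) (n 3 (n 0 z (n
 0x2ca6a804077a08608a08208208207de8208208207a08a08a08208208208208208208208a08208228208200801 z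
 (n 0 z (n 0 z (n 0 z (n 0 z (n
 0x2ca6a824078208208208208207e081f8208207a08208618208208208208208207a08208208a08208208200801 z
 (n 0 z (n 0 z (n 0 z (n 0 z (n 0 z (n 0 z (n 0 z (n 2164283 z (n 4331067 z (n 0 z (n 0 z (n 0 z
 (n 0 z z)))))))))))))))))))) (n 1 (n 26 z (n 0 z (n 34 z (n
 0x2ca6a604078208208208208207e181f8208208208208208608208208208208208208208208208208208200801 z
 (n 0 z (n 0 z (n 0 z (n 0 z (n 0 z (n 0 z (n 0 z (n 2164299 z (n 3278411 z (n 0 z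
 z)))))))))))))) (n 0 (n 2164315 z (n 0 z (n 0 z z))) z)))))) (n 9 (n 0 (n 1243 (n 0 z (n 0 z (n
 0 z (n 0 z (n 0 z (n 0 z (n 0 z (n 0 z (n 0 z (n 0 z (n 0 z (n 0 z z)))))))))))) (n 1243 (n 0 z
 (n 2 (n 1 z (n 1 z z)) (n 0 z (n 0 z (n 0 z (n 0 z (n 0 z (n 0 z (n 0 z (n 0 z (n 0 z (n 0 z
 z)))))))))))) (n 531 (n 0 z (n 0 z (n 0 z (n 0 z (n 0 z (n 0 z (n 0 z (n 0 z (n 0 z (n 0 z (n 0
 z (n 0 z z)))))))))))) (n 531 (n 0 z (n 2 z (n 0 z (n 0 z (n 0 z (n 0 z (n 0 z (n 0 z (n 0 z (n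
 0 z (n 0 z (n 0 z z)))))))))))) z)))) (n 0 (n 0 z (n 249 (n 0 z (n 0 z (n 2 (n 0 z z) (n 0 z (n
 0 z (n 0 z (n 0 z (n 0 z (n 0 z (n 0 z (n 0 z (n 0 z (n 0 z (n 0 z (n 0 z (n 0 z (n 0 z (n 0 z
 (n 0 z (n 0 z (n 0 z (n 0 z z)))))))))))))))))))))) (n 249 (n 0 z (n 0 z (n 0 z (n 0 z (n 0 z
 (n 0 z (n 0 z (n 0 z (n 0 z (n 0 z (n 0 z (n 0 z (n 0 z (n 0 z (n 0 z (n 0 z (n 0 z (n 0 z (n 0
 z (n 0 z (n 0 z (n 0 z z)))))))))))))))))))))) z))) (n 0 (n 261 (n 0 z (n 0 z (n 0 z (n 0 z (n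
 0 z (n 0 z (n 0 z (n 0 z (n 0 z (n 0 z (n 0 z (n 0 z (n 0 z (n 0 z (n 0 z (n 0 z (n 0 z (n 0 z
 (n 0 z (n 0 z (n 0 z (n 0 z (n 0 z (n 0 z (n 0 z (n 0 z z)))))))))))))))))))))))))) (n 261 (n 0
 z (n 0 z (n 0 z (n 0 z (n 0 z (n 7741699 z (n 0 z (n 0 z (n 0 z (n 0 z (n 0 z (n 0 z (n 0 z (n
 0 z (n 0 z (n 0 z (n 0 z (n 0 z (n 0 z (n 0 z (n 0 z (n 0 z (n 0 z (n 0 z (n 0 z (n 0 z
 z)))))))))))))))))))))))))) z)) (n 0 (n 0 z z) (n 0 z z))))) (n 0 (n 0 z (n 1 (n 3212843 z (n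
 3212843 z (n 3212843 z (n 3212843 z (n 3212843 z (n 3212843 z z)))))) (n 0 z z))) (n 0 z z))))
 (n 0xb14545753a25aa58228a4a144e111472c500 (n 0 (n 669 (n 0 z (n 0 z (n 3282443 z (n 2 z (n 0 z
 (n 0 z (n 0 z z))))))) (n 667 (n 3278363 z (n 0 z z)) (n 135 (n 3212843 z (n 0 z (n 0 z (n 0 z
 (n 0 z (n 0 z (n 0 z z))))))) (n 666 (n 0 z (n 0 z (n 0 z (n 0 z (n 0 z (n 0 z (n 6489419 z (n
 0 z (n 6489419 z (n 0 z (n 5375547 z (n 10 z (n 0 z (n 0 z (n 0 z (n 0 z (n 0 z (n 0 z (n 0 z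
 (n 0 z (n 0 z (n 18 z (n
 0x2b6427ff7fe8027fe7fd8018038028017fe7fd7fd8058027fa8098058007f87f27ff7fa80d8057fb7fe8067fe7fb7fc7fe8118008077fa7ef8087fe80080e7fa7f78047ff80d8087f88077fa7f80051
 z (n 2164283 z (n 0 z (n 0 z (n 0 z (n 0 z (n 0 z (n 0 z (n 0 z (n 0 z (n 0 z (n
 0x6b6218008057f97ff8058028017fc7ff7ff80b7fe8057f28117f77fa80780e80e7ff80a7f47fe7fa7ff7f68037fa8088017de80c7f98088137ec8038057f380a80c7f580e7f58057f97f680f7fd0051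
 z (n 0 z (n 0 z (n 0 z (n 0 z (n 0 z (n 0 z (n 0 z (n 0 z (n 0 z (n 0 z (n
 0x2b6217ff7fe8027fe7fd8018038028017fe7fd7fd8058027fa8098058007f87f27ff7fa80d8057fb7fe8067fe7fb7fc7fe8118008077fa7ef8087fe80080e7fa7f78047ff80d8087f88077fa7f80051
 z (n 0 z (n 0 z (n 0 z (n 0 z (n 0 z (n 0 z
 z))))))))))))))))))))))))))))))))))))))))))))))))))) (n 1 (n 2164299 z (n 0 z (n 0 z (n 26 z (n
 0 z (n 0 z z)))))) (n 0 (n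
 0x6ac64c642030d78c8235ed90435d32086b96417e582e86c7e88247fd84e7d286c79781880a7727a282283a80082885e8be74c8b07438a37357f38da7c17de84a83b72d7528587a76f776b78e89e7b98b07f78668007f18ad7387e98037cd0911
 z (n 2164315 z (n 34 z (n
 0xd590d90080606ac86c842031e58c60796d8c05e53180bc96307c682490a76b8667f790979490e6fb8a880a6746967fc88786a85196a9ba6129db5cb99561a8079d77b17ab8948556136688f064b5fc6bf73799b7199db80b8fc8367c99c36038138697821111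
 z (n
 0x6b2a210981c009909900c0e004c868624037f18117f17fe80d7f18007f980b80b8177f88157e482b7f27ee7fd82a8197ff81b7fb81b7ea7ef7f08038008118057ad8217ec80e81b7d98147f97ea8457fc7f27fe7d78277de7e482e8081811
 z (n 42 z (n 50 z z))))))) z)))))) (n 667 (n 0 (n 1333 (n 0 z (n 0 z (n 0 z (n 0 z (n 0 z (n 0
 z (n 0 z (n 0 z (n 0 z (n 0 z (n 0 z (n 0 z (n 0 z (n 0 z (n 0 z (n 0 z (n 0 z (n 0 z (n 0 z (n
 0 z (n 0 z (n 0 z (n 0 z (n 0 z (n 0 z z))))))))))))))))))))))))) (n 1333 (n 0 z (n 0 z (n 0 z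
 (n 0 z (n 0 z (n 0 z (n 0 z (n 0 z (n 0 z (n 0 z (n 0 z (n 0 z (n 0 z (n 0 z (n 0 z (n 0 z (n 0
 z (n 0 z (n 0 z (n 0 z (n 0 z (n 0 z (n 0 z (n 0 z (n 0 z z))))))))))))))))))))))))) (n 673 (n
 0 z (n 0 z (n 0 z (n 0 z z)))) (n 485 (n 0 z (n 0 z (n 0 z (n 0 z (n 0 z (n 0 z (n 0 z (n 0 z
 (n 0 z (n 0 z (n 0 z (n 0 z (n 0 z (n 0 z (n 0 z z))))))))))))))) (n 485 (n 0 z (n 0 z (n 0 z
 (n 0 z (n 0 z (n 0 z (n 2 (n 0 z z) (n 0 z (n 0 z (n 0 z (n 0 z (n 0 z (n 0 z (n 0 z (n 0 z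
 z))))))))))))))) (n 485 (n 0 z (n 0 z (n 0 z (n 0 z (n 0 z (n 0 z (n 0 z (n 0 z (n 0 z (n 0 z
 (n 0 z (n 0 z (n 0 z (n 0 z (n 0 z z))))))))))))))) z)))))) (n 0 (n 0 z (n 3 (n 0 z (n 0 z (n 0
 z (n 0 z (n 0 z (n 0 z (n 0 z (n 0 z (n 0 z (n 0 z (n 0 z (n 0 z (n 0 z (n 0 z (n 0 z (n 0 z (n
 0 z (n 0 z (n 0 z (n 0 z (n 0 z (n 0 z (n 0 z (n 0 z (n 0 z z))))))))))))))))))))))))) (n 1 (n
 0 z (n 0 z (n 0 z (n 0 z (n 0 z (n 0 z (n 0 z (n 0 z (n 0 z (n 0 z (n 0 z (n 0 z (n 0 z (n 0 z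
 (n 0 z (n 0 z (n 0 z (n 0 z (n 0 z (n 0 z (n 0 z (n 7754755 z (n 0 z (n 0 z (n 0 z (n 0 z (n 0
 z (n 0 z (n 0 z (n 0 z (n 0 z (n 0 z (n 0 z (n 0 z (n 0 z (n 0 z (n 0 z (n 0 z (n 0 z (n 0 z (n
 0 z (n 0 z (n 0 z (n 0 z (n 0 z (n 0 z (n 0 z (n 0 z (n 0 z (n 0 z (n 0 z
 z))))))))))))))))))))))))))))))))))))))))))))))))))) (n 1 (n 0 z (n 0 z (n 0 z (n 0 z (n 0 z (n
 0 z (n 0 z (n 0 z (n 0 z (n 0 z (n 0 z (n 0 z (n 0 z (n 0 z (n 0 z (n 0 z (n 0 z (n 0 z (n 0 z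
 (n 0 z (n 0 z (n 0 z (n 0 z (n 0 z (n 0 z (n 0 z (n 0 z (n 0 z (n 0 z (n 0 z (n 0 z (n 0 z (n 0
 z (n 0 z (n 0 z (n 0 z (n 0 z (n 0 z (n 0 z (n 0 z (n 0 z (n 0 z (n 0 z (n 0 z (n 0 z (n 0 z (n
 0 z (n 0 z (n 0 z (n 0 z (n 0 z z))))))))))))))))))))))))))))))))))))))))))))))))))) (n 1 (n 0
 z (n 0 z (n 0 z (n 0 z (n 0 z (n 0 z (n 0 z (n 0 z (n 0 z (n 0 z (n 0 z (n 0 z (n 0 z (n 0 z (n
 0 z (n 0 z (n 0 z (n 0 z (n 0 z (n 0 z (n 0 z (n 0 z (n 0 z (n 0 z (n 0 z (n 0 z (n 0 z (n 0 z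
 (n 0 z (n 0 z (n 0 z (n 0 z (n 0 z (n 0 z (n 0 z (n 0 z (n 0 z (n 0 z (n 0 z (n 0 z (n 0 z (n 0
 z (n 0 z (n 0 z (n 0 z (n 0 z (n 0 z (n 0 z (n 0 z (n 0 z (n 0 z
 z))))))))))))))))))))))))))))))))))))))))))))))))))) z))))) (n 0 (n 3 (n 0 z (n 0 z (n 0 z (n 0
 z (n 0 z (n 0 z (n 0 z (n 0 z (n 0 z (n 0 z (n 0 z (n 0 z (n 0 z (n 0 z (n 0 z (n 0 z (n 0 z (n
 0 z (n 0 z (n 0 z (n 0 z (n 0 z (n 0 z (n 0 z (n 0 z (n 0 z (n 0 z (n 0 z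
 z)))))))))))))))))))))))))))) (n 1 (n 0 z (n 0 z (n 0 z (n 0 z (n 0 z (n 0 z (n 0 z (n 0 z (n 0
 z (n 0 z (n 0 z (n 0 z (n
 0x1437607fe7fa8147ec7f88188198077fe7e982a7f07e47ce7e382882f7f280979880e7d082481a7f48148187f07cf8037f28537e08187f67b17db82781d7ff7ce81f82e8018828157e88308037e80051
 z (n 0 z (n 0 z (n 0 z (n 0 z (n 0 z (n 0 z (n 0 z (n 0 z (n 0 z (n 0 z (n 0 z (n 0 z (n 0 z (n
 0 z (n 0 z z)))))))))))))))))))))))))))) (n 1 (n 0 z (n 0 z (n 0 z (n 0 z (n 0 z (n 0 z (n 0 z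
 (n 0 z (n 0 z (n 0 z (n 0 z (n 0 z (n 0 z (n 0 z (n 0 z (n 2 (n 0 z z) (n 0 z (n 0 z (n 0 z (n
 0 z (n 0 z (n 0 z (n 0 z (n 0 z (n 0 z (n 0 z (n 0 z (n 0 z z)))))))))))))))))))))))))))) (n 1
 (n 0 z (n 0 z (n 0 z (n 0 z (n 0 z (n 0 z (n 0 z (n 0 z (n 0 z (n 0 z (n 0 z (n 0 z (n 0 z (n 0
 z (n 0 z (n 0 z (n 0 z (n 0 z (n 0 z (n 0 z (n 0 z (n 0 z (n 0 z (n 0 z (n 0 z (n 0 z (n 0 z (n
 0 z z)))))))))))))))))))))))))))) z)))) (n 0 (n 5 (n 0 z (n 0 z (n 0 z (n 0 z (n 0 z (n 0 z (n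
 0 z (n 0 z (n 0 z (n 0 z (n 0 z (n 0 z (n 0 z (n 0 z (n
 0x1437607fe7fa8147ec7f88188198077fe7e982a7f07e47ce7e382882f7f280979880e7d082481a7f48148187f07cf8037f28537e08187f67b17db82781d7ff7ce81f82e8018828157e88308037e80051
 z (n 0 z (n 0 z (n 0 z (n 0 z (n 0 z (n 0 z (n 0 z (n 0 z (n 0 z (n 0 z
 z))))))))))))))))))))))))) (n 5 (n 0 z (n 0 z (n 0 z (n 0 z (n 0 z (n 0 z (n 2 (n 0 z z) (n 0 z
 (n 0 z (n 0 z (n 0 z (n 0 z (n 0 z (n 0 z (n 0 z (n 0 z (n 0 z (n 0 z (n 0 z (n 0 z (n 0 z (n 0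
 z (n 0 z (n 0 z (n 0 z z))))))))))))))))))))))))) (n 5 (n 0 z (n 0 z (n 0 z (n 0 z (n 0 z (n 0
 z (n 0 z (n 0 z (n 0 z (n 0 z (n 0 z (n 0 z (n 0 z (n 0 z (n 0 z (n 0 z (n 0 z (n 0 z (n 0 z (n
 0 z (n 0 z (n 0 z (n 0 z (n 0 z (n 0 z z))))))))))))))))))))))))) z))) (n 0 (n 0 z (n 0 z z))
 (n 0 (n 0 z z) (n 0 z z))))))) (n 0 (n 1 (n 3278363 z (n 3278363 z (n 3278363 z (n 3278363 z (n
 3278363 z (n 3278363 z z)))))) (n 0 z z)) (n 0 z z)))) z)))))))))), by decide +kernel⟩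
theorem i10783 : ∃ t, chkR KT RW t 10783 10788 = true := ⟨(n
 0x4daea8524c236ba28092cc1ae666172336189750451543266d40 (n 0xcdae (n 563 (n 0 z (n 3282443 z (n
 0 z (n 2 z z)))) (n 261 (n 6427707 z (n 6427707 z (n 0 z (n 0 z (n 0 z (n 10 z (n 0 z (n 0 z (n
 0 z (n 0 z (n 3278363 z (n 0 z (n 0 z (n 0 z (n 0 z (n 0 z (n 0 z (n 0 z (n 0 z (n 0 z (n 0 z
 (n 0 z (n 0 z (n 0 z (n 18 z (n 26 z z)))))))))))))))))))))))))) (n 439 (n 6566419 z (n 34 z (n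
 6566419 z z))) (n 3 (n 42 z (n 0 z (n 50 z (n 6566419 z z)))) (n 1 (n 0 z (n 0 z (n 58 z (n 66
 z (n 6566419 z (n 0 z z)))))) (n 0 (n 0 z (n 0 z (n 0 z (n 74 z (n 2164315 z (n 0 z (n 0 z (n 0
 z (n 0 z z))))))))) z)))))) (n 439 (n 0 (n 235 (n 0 z (n 0 z (n 0 z (n 0 z (n 2 (n 0 z (n 0 z
 (n 2 (n 0 z (n 0 z (n 0 z (n 0 z (n 0 z (n 0 z z)))))) (n 2 (n 0 z (n 0 z (n 0 z (n 0 z (n 0 z
 (n 0 z z)))))) (n 2 (n 0 z (n 0 z (n 0 (n 4812 z (n 4812 z z)) (n 0 z (n 0 (n 7477259 z z) (n 0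
 (n 7477259 z z) z)))))) (n 2 (n 0 z (n 0 z (n 0 z (n 0 z (n 0 z (n 0 z z)))))) (n 2 (n 0 z (n 0
 z (n 0 (n 7477259 z (n 4804 z z)) (n 0 (n 7477259 z z) (n 0 z (n 0 z z)))))) (n 2 (n 0 z (n 0
 (n 8799011 z z) (n 0 (n 8799011 z (n 8799011 z z)) (n 0 z (n 0 (n 8799011 z z) (n 0 z z))))))
 z)))))))) (n 0 z (n 0 z (n 0 z (n 0 z (n 0 z (n 0 z (n 0 z (n 0 z (n 0 z (n 0 z (n 0 z (n 0 z
 (n 0 z (n 0 z (n 0 z (n 0 z (n 0 z (n 0 z (n 0 z (n 0 z (n 0 z (n 0 z (n 0 z (n 0 z (n 0 z (n 0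
 z z))))))))))))))))))))))))))))))) (n 235 (n 0 z (n 0 z (n 0 z (n 0 z (n 0 z (n 0 z (n 0 z (n 0
 z (n 0 z (n 0 z (n 0 z (n 0 z (n 0 z (n 0 z (n 0 z (n 0 z (n 0 z (n 0 z (n 0 z (n 0 z (n 0 z (n
 0 z (n 0 z (n 0 z (n 0 z (n 0 z (n 0 z (n 0 z (n 0 z (n 0 z (n 2 (n 0 z (n 2 (n 0 z (n 0 z (n 0
 z (n 0 z (n 0 z (n 0 z z)))))) (n 2 (n 0 z (n 0 z (n 0 z (n 0 z (n 0 z (n 0 z z)))))) (n 2 (n 0
 z (n 0 z (n 0 (n 4812 z (n 4812 z z)) (n 0 z (n 0 (n 4812 z z) (n 0 (n 4812 z z) z)))))) (n 2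
 (n 0 z (n 0 z (n 0 z (n 0 z (n 0 z (n 0 z z)))))) (n 2 (n 0 z (n 0 z (n 0 (n 4804 z (n 4804 z
 z)) (n 0 (n 1957 z z) (n 0 z (n 0 z z)))))) (n 2 (n 0 z (n 0 (n 8799011 z z) (n 0 (n 8799011 z
 (n 8799011 z z)) (n 0 z (n 0 (n 8799011 z z) (n 0 z z)))))) z)))))))
 z))))))))))))))))))))))))))))))) (n 235 (n 0 z (n 0 z (n 0 z (n 0 z (n 0 z (n 0 z (n 0 z (n 0 z
 (n 0 z (n 0 z (n 0 z (n 0 z (n 0 z (n 0 z (n 0 z (n 0 z (n 0 z (n 0 z (n 0 z (n 0 z (n 0 z (n 0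
 z (n 0 z (n 0 z (n 0 z (n 0 z (n 0 z (n 0 z (n 0 z (n 0 z (n 0 z
 z))))))))))))))))))))))))))))))) (n 1119 (n 0 z (n 0 z (n 0 z (n 0 z (n 0 z (n 0 z (n 0 z (n 0
 z z)))))))) (n 1203 (n 0 z (n 0 z (n 0 z (n 0 z z)))) (n 1203 (n 0 z (n 0 z (n 2 (n 1 z (n 1 z
 (n 2 (n 0 z (n 0 z (n 0 (n 8799011 z z) (n 0 z (n 0 z (n 0 z z)))))) z))) (n 0 z z)))) (n 1201
 (n 0 z (n 0 z (n 0 z (n 0 z (n 0 z (n 0 z (n 0 z z))))))) (n 1201 (n 0 z (n 0 z (n 0 z (n 0 z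
 (n 0 z (n 0 z (n 2 (n 2 (n 0 z (n 0 z (n 0 (n 8799011 z z) (n 0 z (n 0 z (n 0 z z)))))) z)
 z))))))) (n 1117 (n 0 z (n 0 z (n 0 z z))) z))))))))) (n 0 (n 0 z (n 0 z (n 1041 (n 0 z (n 0 z
 (n 0 z (n 2 (n 2 (n 0 z (n 0 z (n 0 z (n 0 z (n 0 z (n 0 z z)))))) (n 2 (n 0 z (n 0 z (n 0 (n
 6428683 z (n 6428683 z z)) (n 0 z (n 0 (n 1684 z z) (n 0 (n 1684 z z) z)))))) (n 2 (n 0 z (n 0
 z (n 0 z (n 0 z (n 0 z (n 0 z z)))))) (n 2 (n 0 z (n 0 z (n 0 (n 6428683 z (n 6428683 z z)) (n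
 0 (n 204 z z) (n 0 z (n 0 z z)))))) (n 2 (n 0 z (n 0 (n 8868403 z z) (n 0 (n 8868403 z (n
 8868403 z z)) (n 0 z (n 0 (n 8868403 z z) (n 0 z z)))))) z))))) z)))) (n 421 (n 0 z (n 0 z (n 0
 z (n 0 z (n 2 (n 0 z (n 2 (n 0 z (n 0 z (n 0 z (n 0 z (n 0 z (n 0 z z)))))) (n 2 (n 0 z (n 0 z
 (n 0 (n 6428683 z (n 6428683 z z)) (n 0 (n 204 z z) (n 0 z (n 0 z z)))))) (n 2 (n 0 z (n 0 (n
 8864547 z z) (n 0 (n 8864547 z (n 8864547 z z)) (n 0 z (n 0 (n 8864547 z z) (n 0 z z))))))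
 z)))) z))))) (n 421 (n 2 (n 2 (n 0 z (n 0 z (n 0 (n 204 z (n 204 z z)) (n 0 (n 204 z z) (n 0 z
 (n 0 z z)))))) (n 1 z (n 2 (n 0 (n 4132 z z) (n 0 (n 8868707 z z) (n 0 (n 8523891 z (n 4132 z
 z)) (n 0 z (n 0 z (n 0 z z)))))) z))) (n 0 z (n 0 z (n 0 z (n 0 z z))))) (n 51 (n 2 (n 0 z (n 1
 z z)) (n 0 z (n 0 z (n 0 z z)))) (n 51 (n 0 z (n 0 z (n 0 z (n 0 z z)))) (n 1033 (n 0 z (n 0 z
 (n 0 z (n 2 z z)))) z)))))))) (n 0 (n 0 z (n 443 (n 0 z (n 0 z (n 0 z (n 2 (n 2 (n 0 z (n 0 z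
 (n 0 z (n 0 z (n 0 z (n 0 z z)))))) (n 2 (n 0 z (n 0 z (n 0 (n 1964 z (n 7477259 z z)) (n 0 z
 (n 0 (n 1964 z z) (n 0 (n 1964 z z) z)))))) (n 2 (n 0 z (n 0 z (n 0 z (n 0 z (n 0 z (n 0 z
 z)))))) (n 2 (n 0 z (n 0 z (n 0 (n 1956 z (n 1956 z z)) (n 0 (n 1956 z z) (n 0 z (n 0 z z))))))
 (n 2 (n 0 z (n 0 (n 8868403 z z) (n 0 (n 8868403 z (n 8868403 z z)) (n 0 z (n 0 (n 8868403 z z)
 (n 0 z z)))))) z))))) (n 0 z z))))) (n 491 (n 0 z (n 0 z (n 2 (n 0 z (n 2 (n 0 z (n 0 z (n 0 z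
 (n 0 z (n 0 z (n 0 z z)))))) (n 2 (n 0 z (n 0 z (n 0 (n 8872459 z (n 8872459 z z)) (n 0 (n
 8872459 z z) (n 0 z (n 0 z z)))))) (n 2 (n 0 z (n 0 (n 8864547 z z) (n 0 (n 8864547 z (n
 8864547 z z)) (n 0 z (n 0 (n 8864547 z z) (n 0 z z)))))) z)))) z))) (n 491 (n 0 z (n 0 z (n 0 z
 z))) (n 489 (n 0 z (n 0 z (n 0 z (n 0 z (n 2 (n 0 z (n 1 z z)) (n 0 z (n 0 z z))))))) (n 489 (n
 0 z (n 0 z (n 0 z (n 0 z (n 0 z (n 0 z (n 0 z z))))))) (n 49 (n 0 z (n 0 z (n 0 z (n 0 z (n 0 z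
 (n 2 z (n 0 z (n 0 z z)))))))) z))))))) (n 0 (n 867 (n 0 z (n 0 z (n 0 z (n 0 z (n 0 z (n 0 z
 (n 0 z (n 0 z (n 0 z (n 0 z (n 0 z (n 0 z (n 0 z (n 0 z (n 0 z (n 0 z (n 0 z (n 0 z (n 0 z (n 0
 z (n 0 z (n 0 z (n 0 z (n 0 z (n 0 z (n 0 z z)))))))))))))))))))))))))) (n 473 (n 0 z (n 0 z (n
 0 z (n 0 z (n 0 z (n 0 z (n 0 z (n 0 z (n 0 z (n 0 z (n 0 z (n 0 z (n 0 z (n 0 z (n 0 z (n 0 z
 (n 0 z (n 0 z (n 0 z (n 0 z (n 0 z (n 0 z (n 0 z (n 0 z (n 0 z (n 0 z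
 z)))))))))))))))))))))))))) (n 473 (n 2 (n 1 z (n 1 z (n 1 z z))) (n 0 z (n 0 z (n 0 z (n 0 z
 (n 0 z (n 0 z (n 0 z (n 0 z (n 0 z (n 0 z (n 0 z (n 0 z (n 0 z (n 0 z (n 0 z (n 0 z (n 0 z (n 0
 z (n 0 z (n 0 z (n 0 z (n 0 z (n 0 z (n 0 z (n 0 z z)))))))))))))))))))))))))) (n 521 (n 0 z (n
 0 z (n 0 z (n 0 z (n 0 z (n 0 z (n 0 z (n 0 z (n 0 z (n 0 z (n 0 z (n 0 z (n 0 z (n 0 z (n 0 z
 (n 0 z (n 0 z (n 0 z (n 0 z (n 0 z (n 0 z (n 0 z (n 0 z (n 0 z (n 0 z (n 0 z (n 0 z (n 0 z (n 0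
 z (n 0 z (n 0 z z))))))))))))))))))))))))))))))) (n 521 (n 0 z (n 0 z (n 0 z (n 0 z (n 0 z (n 0
 z (n 0 z (n 0 z (n 0 z (n 0 z (n 0 z (n 0 z (n 0 z (n 0 z (n 0 z (n 0 z (n 0 z (n 0 z (n 0 z (n
 0 z (n 0 z (n 0 z (n 0 z (n 0 z (n 0 z (n 2 (n 1 z z) (n 0 z (n 0 z (n 0 z (n 0 z (n 0 z
 z))))))))))))))))))))))))))))))) (n 865 (n 0 z (n 0 z (n 0 z (n 0 z (n 0 z (n 0 z (n 0 z (n 0 z
 (n 0 z (n 0 z (n 0 z (n 0 z (n 0 z (n 0 z (n 0 z (n 0 z (n 0 z (n 0 z (n 0 z (n 0 z (n 0 z (n 0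
 z (n 0 z (n 0 z (n 0 z (n 0 z (n 0 z (n 0 z (n 0 z (n 0 z (n 0 z
 z))))))))))))))))))))))))))))))) z)))))) (n 0 (n 273 (n 0 z (n 0 z (n 0 z (n 0 z (n 0 z z)))))
 (n 273 (n 0 z (n 0 z (n 2 (n 1 z (n 1 z (n 2 (n 0 z (n 0 z (n 0 (n 8802867 z z) (n 0 z (n 0 z
 (n 0 z z)))))) z))) (n 0 z (n 0 z z))))) (n 261 (n 0 z (n 0 z (n 0 z (n 0 z (n 0 z (n 0 z (n 0
 z z))))))) (n 261 (n 0 z (n 0 z (n 0 z (n 0 z (n 2 (n 2 (n 0 z (n 0 z (n 0 (n 8802867 z z) (n 0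
 z (n 0 z (n 0 z z)))))) z) (n 0 z (n 0 z z))))))) (n 877 (n 0 z (n 0 z (n 0 z (n 0 z (n 0 z (n
 0 z (n 0 z z))))))) z))))) (n 0 (n 0 z (n 9 (n 0 z (n 0 z (n 0 z (n 0 z z)))) (n 9 (n 2 (n 2 (n
 0 z (n 0 z (n 0 (n 8799011 z z) (n 0 z (n 0 z (n 0 z z)))))) z) (n 0 z (n 0 z (n 0 z z)))) (n 5
 (n 0 z (n 0 z (n 0 z (n 0 z (n 0 z z))))) z)))) (n 0 (n 723 (n 2 (n 0 z (n 1 z z)) (n 0 z (n 0
 z (n 0 z (n 0 z (n 0 z (n 0 z (n 0 z (n 0 z z))))))))) (n 723 (n 0 z (n 0 z (n 0 z (n 0 z (n 0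
 z (n 0 z (n 0 z (n 0 z (n 0 z z))))))))) (n 721 (n 0 z (n 0 z (n 0 z (n 2 z (n 0 z (n 0 z (n 0
 z z))))))) z))) (n 0 (n 0 z (n 1 (n 0 z (n 0 z (n 0 z (n 0 z (n 0 z (n 0 z (n 0 z (n 0 z
 z)))))))) z)) (n 0 (n 145 (n 0 z (n 0 z (n 0 z (n 0 z (n 0 z (n 0 z (n 2 z z))))))) z) (n 0 z
 z)))))))))) (n 0 (n 1 (n 6566419 z (n 6566419 z (n 6566419 z (n 6566419 z (n 6566419 z (n
 6566419 z z)))))) (n 1 (n 4508 z (n 4508 z (n 4508 z (n 4508 z (n 4508 z (n 2 z z)))))) (n 1 (n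
 6566419 z (n 6566419 z (n 6566419 z (n 6566419 z (n 6566419 z (n 6566419 z z)))))) z))) (n 0 (n
 0x88524c8a024b45d41148aa19 (n 0 (n 0 (n 7750435 z (n 7750435 z (n 7750435 z (n 7750435 z (n
 7750435 z (n 7750435 z z)))))) z) (n 0 (n 558 (n 0 z (n 1 (n 7544931 z (n 7544931 z (n 7544931
 z (n 7544931 z (n 7544931 z (n 7544931 z z)))))) (n 1 (n 7754291 z (n 7754291 z (n 7754291 z (n
 7754291 z (n 7754291 z (n 7754291 z z)))))) z))) (n 261 (n 1 (n 7476283 z (n 7476283 z (n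
 7476283 z (n 7476283 z (n 7476283 z (n 7544931 z z)))))) (n 1 (n 7476283 z (n 7476283 z (n
 7476283 z (n 7476283 z (n 7476283 z (n 7544931 z z)))))) (n 0 z (n 0 z (n 0 z (n 1 (n 1900 z (n
 2 z (n 1900 z (n 1900 z (n 1900 z (n 7544931 z z)))))) (n 0 z (n 0 z (n 0 z (n 0 z (n 1 (n
 3278619 z (n 6566515 z (n 3278619 z (n 3278619 z (n 3278619 z (n 7544931 z z)))))) (n 0 z (n 0
 z (n 0 z (n 0 z (n 0 z (n 0 z (n 0 z (n 0 z (n 0 z (n 0 z (n 0 z (n 0 z (n 0 z (n 1 (n 1900 z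
 (n 10 z (n 1900 z (n 1900 z (n 1900 z (n 7544931 z z)))))) (n 1 (n 7750435 z (n 7750435 z (n
 7750435 z (n 7750435 z (n 7750435 z (n 7750435 z z)))))) z)))))))))))))))))))))))))) (n 439 (n
 1 (n 7614995 z (n 7614995 z (n 7614995 z (n 7614995 z (n 7614995 z (n 7614995 z z)))))) (n 1 (n
 7754291 z (n 7754291 z (n 7754291 z (n 7754291 z (n 7754291 z (n 7754291 z z)))))) (n 1 (n
 7614995 z (n 7614995 z (n 7614995 z (n 7614995 z (n 7614995 z (n 7614995 z z)))))) z))) (n 681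
 (n 1 (n 7614995 z (n 7614995 z (n 7614995 z (n 7614995 z (n 7614995 z (n 7614995 z z)))))) (n 0
 z (n 1 (n 18 z (n 3828 z (n 3828 z (n 3828 z (n 3828 z (n 3828 z z)))))) (n 1 (n 7544931 z (n
 7544931 z (n 7544931 z (n 7544931 z (n 7544931 z (n 7544931 z z)))))) z)))) (n 5 (n 1 (n
 3281011 z (n 5644 z (n 5644 z (n 3282699 z (n 26 z (n 7754291 z z)))))) (n 1 (n 7614995 z (n
 7614995 z (n 7614995 z (n 7614995 z (n 7614995 z (n 7614995 z z)))))) (n 0 z (n 1 (n 7614995 z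
 (n 7614995 z (n 7614995 z (n 7614995 z (n 7614995 z (n 7614995 z z)))))) z)))) (n 563 (n 0 z (n
 1 (n 7544931 z (n 7544931 z (n 7544931 z (n 7544931 z (n 7544931 z (n 7544931 z z)))))) (n 1 (n
 7754291 z (n 7754291 z (n 7754291 z (n 7754291 z (n 7754291 z (n 7754291 z z)))))) z))) (n 439
 (n 1 (n 7614995 z (n 7614995 z (n 7614995 z (n 7614995 z (n 7614995 z (n 7614995 z z)))))) (n 1
 (n 7754291 z (n 7754291 z (n 7754291 z (n 7754291 z (n 7754291 z (n 7750435 z z)))))) (n 1 (n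
 7614995 z (n 7614995 z (n 7614995 z (n 7614995 z (n 7614995 z (n 7614995 z z)))))) z)))
 z))))))) (n 0 (n 0 (n 0 z (n 0 z (n 0 z (n 0 z z)))) (n 0 (n 0 z (n 0 z (n 0 z z))) (n 0 (n 0 z
 (n 0 z z)) (n 0 (n 0 z z) z)))) (n 0 (n 237 (n 0 (n 0 z (n 0 z (n 0 z (n 0 z z)))) (n 0 (n 0 z
 (n 0 z (n 0 z (n 0 z z)))) (n 0 (n 0 z (n 0 z (n 0 z (n 0 z z)))) (n 0 (n 0 (n 5519483 z (n
 5519483 z z)) (n 0 (n 8861227 z (n 8861227 z z)) (n 0 (n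
 0xb58428076859c738f818c6e6a7d7c89747f8181757195779270958a9a6c986396847c8f857c936275848872956f847c90a27a67930049
 z (n
 0xb58428076859c738f818c6e6a7d7c89747f8181757195779270958a9a6c986396847c8f857c936275848872956f847c90a27a67930049
 z z)) (n 0 (n
 0xb58428076859c738f818c6e6a7d7c89747f8181757195779270958a9a6c986396847c8f857c936275848872956f847c90a27a67930049
 z (n
 0xb58428076859c738f818c6e6a7d7c89747f8181757195779270958a9a6c986396847c8f857c936275848872956f847c90a27a67930049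
 z z)) z)))) (n 0 (n 0 z (n 0 z (n 0 z (n 0 z z)))) (n 0 (n 0 z (n 0 z (n 0 z (n 0 (n
 0x30c6ec640781f82082082082081f82082082082082082086081f8208208208208208208208208208208200801 z
 (n 0x30c6ec640781f86082182082081f82081f8208208208208608208208208208208208208208208208608200801
 z z)) z)))) (n 0 (n 0 (n
 0x358428198e27607a97197648a77e16e370e91bb5db554a09a266f8ac59691e99a99791f861b646690041 z (n
 8803187 z z)) (n 0 (n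
 0x558428169636e072e6566e692a7e16246c5998d9bd0f2a0a6353693245199cad6a5199f862d6752f0041 z (n
 8790131 z z)) (n 0 z (n 0 z z)))) (n 0 (n 0 z (n 0 z (n 0 z (n 0 z z)))) (n 0 (n 0 z (n 0 z (n
 0 z (n 0 z z)))) (n 0 (n 0 z (n 0 z (n 0 (n 8786731 z (n 8786731 z z)) (n 0 z z)))) (n 0 (n 0 z
 (n 0 z (n 0 z (n 0 z z)))) (n 0 (n 0 (n
 0xb58538076859c738f818c6e6a7d7c89747f8181757195779270958a9a6c986396847c8f857c936275848872956f847c90a27a67930049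
 z (n 0x558748169636e072e6566e692a7e16246c5998d9bd0f2a0a6353693245199cad6a5199f862d6752f0041 z
 z)) (n 0 (n
 0xb58538076859c738f818c6e6a7d7c89747f8181757195779270958a9a6c986396847c8f857c936275848872956f847c90a27a67930049
 z (n 0xd87581f85f8207a185f8208208208208208208608608208207e081f7df81f86182082086085f8200041 z
 z)) (n 0 z (n 0 z z)))) (n 0 (n 0 z (n 0 z (n 0 z (n 0 z z)))) (n 0 (n 0 z (n 0 z (n 0 z (n 0 z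
 z)))) (n 0 (n 0 z (n 0 z (n 0 z (n 0 z z)))) (n 0 (n 0 z (n 0 z (n 0 z (n 0 z z)))) (n 0 (n 0 z
 (n 0 z (n 0 z (n 0 z z)))) (n 0 (n 0 z (n 0 z (n 0 z (n 0 z z)))) (n 0 (n 0 (n
 0x2e586502170ca064a19403cc32812b4108007797de86d8217f37dc7ae7e48208c582f7a97967358708b17b88418ba7af7f07738357eb88184082a79880684e82f7ea79481c79286e7e08087b07f186580c81f7e78167ea7cb81c8450151
 z (n 0x358748198e27607a96da7648e67e16e274f91ab9db564e09a266e8ab59791da1999791f821b646690041 z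
 z)) (n 0 (n
 0x1d586501570ca03ea194028c3280bb4108007aa7eb8468157f87e97cc7ee81487e81e7c87bc77e8488717d28298787cc7f57a68227f285382981c7be80383281e7f27bb8127ba8467ec8067cd7f68418078147f080e7f27de81282c0151
 z (n 0xd87581e8608207a181f8208208208208208218208a08208208208207df81f8607e082086089f8200041 z
 z)) (n 0 z (n 0 z z)))) (n 0 (n 0 z (n 0 z (n 0 z (n 0 z z)))) (n 0 (n 0 z (n 0 z (n 0 z (n 0 z
 z)))) (n 0 (n 0 z (n 0 z (n 0 z (n 0 z z)))) (n 0 (n 0 z (n 0 z (n 0 (n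
 0x30c8ec640781f8208217e082081f8208208208208208208608208208208208208208208208208208208200801 z
 (n 0x358758178e37607296da7648e77e16a370f91bb9db554a09a266e8ec59695e9da99791f821ba46290041 z z))
 (n 0 z z)))) (n 0 (n 0 z (n 0 z (n 0 z (n 0 z z)))) (n 0 (n 0 z (n 0 z (n 0 (n
 0x9d865805994b56387756b5faaa27b7356689fae5f85ce4c7d4cd357a0ae766d977b4f6a67aa7f5885808a7b9e9272988f917d6a8e0049
 z (n
 0x9d865805994b56387756b5faaa27b7356689fae5f85ce4c7d4cd357a0ae766d977b4f6a67aa7f5885808a7b9e9272988f917d6a8e0049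
 z z)) (n 0 (n
 0x9d865805994b56387756b5faaa27b7356689fae5f85ce4c7d4cd357a0ae766d977b4f6a67aa7f5885808a7b9e9272988f917d6a8e0049
 z (n 0x4587581892372076c6987258e87e166370a919c9cc123a09e35f28ef51499da579d595f821c265ec0041 z
 z)) z)))) (n 0 (n 0 z (n 0 z (n 0 z (n 0 z z)))) (n 0 (n 0 z (n 0 z (n 0 z (n 0 z z)))) (n 0 (n
 0 z (n 0 z (n 0 z (n 0 z z)))) (n 0 (n 0 z (n 0 z (n 0 z (n 0 z z)))) (n 0 (n 0 z (n 0 z (n 0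
 (n 8857163 z z) (n 0 z z)))) (n 0 (n 0 z (n 0 z (n 0 z (n 0 z z))))
 z))))))))))))))))))))))))))))))) (n 561 (n 0 (n 0 (n 8663571 z z) (n 0 (n 8663571 z z) (n 0 z
 (n 0 z z)))) (n 0 (n 0 z (n 0 z (n 0 z (n 0 z z)))) (n 0 (n 0 z (n 0 z (n 0 z (n 0 z z)))) (n 0
 (n 0 (n 8857147 z (n 8857147 z z)) (n 0 (n
 0x24d87401b70e804ea1d0030c3a00e34108007947e585781a7f67e37bf7e981a89e8267ba7ab75d85a88e7c68348957bf7f378f82a7ef8678338227ad80483e8267ee7a98177a88587e68077c07f485180a8197ec8127ee7d58178370151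
 z (n
 0xb58748076859c738f818c6e6a7d7c89747f8181757195779270958a9a6c986396847c8f857c936275848872956f847c90a27a67930049
 z z)) (n 0 (n
 0x3084e62c0381f81f8207e082181f86082085f81f7df8618208207df85f85f81f81f8208207a08218607e00801 z
 (n
 0xb58718076859c738f818c6e6a7d7c89747f8181757195779270958a9a6c986396847c8f857c936275848872956f847c90a27a67930049
 z z)) (n 0 (n
 0x30c4ec26038208608207e082081f82082082082082086086082082082082082081f82082081f8218208200801 z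
 (n
 0xb58718076859c738f818c6e6a7d7c89747f8181757195779270958a9a6c986396847c8f857c936275848872956f847c90a27a67930049
 z z)) z)))) (n 0 (n 0 (n
 0x50c4ec260781f86081f7a081f85e8207e185f8de7a08e285e81f8208a08217df8227e185f82382082081f0801 z
 z) (n 0 (n
 0x4ecb0c460382081f7df81e8207e08608208618208208628207e07df85e82082082085e7a186182189f7e00801 z
 z) (n 0 z (n 0 z z)))) (n 0 (n 0 z (n 0 z (n 0 z (n 0 z z)))) (n 0 (n 0 z (n 0 z (n 0 z (n 0 z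
 z)))) (n 0 (n 0 (n
 0x5f0c70c620780079784d8917e98487da8567d97f58438007cf78f7a080185c7d38048697fc83675d80f7eb87e84f85e7cb83682383e7d78007c58148407ba7b684b8287ee7fe7ec7a080a7d58117f47e70811
 z z) (n 0 (n
 0xb58758076859c738f818c6e6a7d7c89747f8181757195779270958a9a6c986396847c8f857c936275848872956f847c90a27a67930049
 z z) (n 0 z (n 0 z z)))) z)))))))) (n 435 (n 0 (n 0 z (n 0 z (n 0 z (n 0 z z)))) (n 0 (n 0 z (n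
 0 z (n 0 z (n 0 z z)))) (n 0 (n 0 z (n 0 z (n 0 z (n 0 z z)))) (n 0 (n 0 (n
 0x7d8548068778d827d7b8072a17d7c897a798b7d7a7e8e70767c9c697a7e78748d7e70807d7a9d4b9286997b977d729287757f6e780049
 z (n
 0x7d8548068778d827d7b8072a17d7c897a798b7d7a7e8e70767c9c697a7e78748d7e70807d7a9d4b9286997b977d729287757f6e780049
 z z)) (n 0 (n 6621307 z (n 6621307 z z)) (n 0 z (n 0 z z)))) (n 0 (n 0 z (n 0 z (n 0 (n 8857163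
 z z) (n 0 (n
 0x6d8538199725e986755279d9998218195ee6ab5ae9f052f36f89daa37ac3598a55ad5637aad9d42c0041 z z)
 z)))) (n 0 (n 0 z (n 0 z (n 0 z (n 0 z z)))) (n 0 (n 0 (n 8803187 z (n 8857147 z z)) (n 0 (n
 8790131 z (n
 0xd87581e8608207a181f8208208208208208218208a08208208208207df81f8607e082086089f8200041 z z)) (n
 0 z (n 0 z z)))) (n 0 (n 0 (n
 0x7d8508068778d827d7b8072a17d7c897a798b7d7a7e8e70767c9c697a7e78748d7e70807d7a9d4b9286997b977d729287757f6e780049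
 z (n 8803187 z z)) (n 0 (n
 0x65850806d788b827e7b80759a7e7c877b7a8a7e7b7f8a73787d966e7c7e79768b7e73807e7c97568f85947c937d758e86777f727a0049
 z (n 8790131 z z)) (n 0 z (n 0 z z)))) (n 0 (n 0 z (n 0 z (n 0 (n 8857163 z (n 8857163 z z)) (n
 0 z z)))) (n 0 (n 0 z (n 0 z (n 0 z (n 0 z z)))) (n 0 (n 0 z (n 0 z (n 0 (n 8525579 z z) (n 0
 (n 8525579 z z) z)))) (n 0 (n 0 z (n 0 z (n 0 (n 0x1084e60c070821 z z) (n 0 (n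
 0x30c4ec060781f8608207e08208208208208208208208208208208208208208208208208208208208208200801 z
 z) z)))) (n 0 (n 0 z (n 0 z (n 0 (n 8523891 z (n 7684227 z z)) (n 0 (n 8523891 z (n 7684227 z
 z)) z)))) (n 0 (n 0 z (n 0 z (n 0 z (n 0 z z)))) (n 0 (n 0 (n 5519483 z z) (n 0 (n
 0x7d8408068778d827d7b8072a17d7c897a798b7d7a7e8e70767c9c697a7e78748d7e70807d7a9d4b9286997b977d729287757f6e780049
 z z) (n 0 z (n 0 z z)))) (n 0 (n 0 (n 8857147 z (n 8857147 z z)) (n 0 (n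
 0x2e587402170e8064a1d003cc3a012b4108007797de86d8217f37dc7ae7e48208c582f7a97967358708b17b88418ba7af7f07738357eb88184082a79880684e82f7ea79481c79286e7e08087b07f186580c81f7e78167ea7cb81c8450151
 z (n 0x8d87481797756c82a44e79d9d77e181857066e4f1a344332b18ddb2476f2578e75714a476df1a32f0041 z
 z)) (n 0 z (n 0 z z)))) (n 0 (n 0 z (n 0 z (n 0 (n 8525579 z (n
 0x2e58430217086064a10c03cc21812b4108007797de86d8217f37dc7ae7e48208c582f7a97967358708b17b88418ba7af7f07738357eb88184082a79880684e82f7ea79481c79286e7e08087b07f186580c81f7e78167ea7cb81c8450151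
 z z)) (n 0 z z)))) (n 0 (n 0 z (n 0 z (n 0 z (n 0 z z)))) (n 0 (n 0 z (n 0 z (n 0 z (n 0 (n
 8525579 z (n
 0x2e58430217086064a10c03cc21812b4108007797de86d8217f37dc7ae7e48208c582f7a97967358708b17b88418ba7af7f07738357eb88184082a79880684e82f7ea79481c79286e7e08087b07f186580c81f7e78167ea7cb81c8450151
 z z)) z)))) (n 0 (n 0 (n
 0xb58708076859c738f818c6e6a7d7c89747f8181757195779270958a9a6c986396847c8f857c936275848872956f847c90a27a67930049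
 z (n
 0x10c4ec060782082082081f82081f82082086081f8208618608207e086082081f8208208208208618608200801 z
 z)) (n 0 (n
 0x458708189227207ab6d67658e87e166470a91ac5cc133e09e35f28ee4d495da18a1595f861c255ec0041 z (n
 0x30c4ec060781f82081f7e082081f86082086181f7e08618608207df8608207df82082082082086185f7e00801 z
 z)) (n 0 z (n 0 z z)))) (n 0 (n 0 z (n 0 z (n 0 (n 8523891 z (n 8525579 z z)) (n 0 z z)))) (n 0
 (n 0 z (n 0 z (n 0 z (n 0 z z)))) (n 0 (n 0 z (n 0 z (n 0 (n 8855811 z (n 8855811 z z)) (n 0 z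
 z)))) (n 0 (n 0 (n
 0x30c4c8060781f81f81f7e07e08608218218208208608218207e081f8608207df81f8207e18208208208200801 z
 (n 0xd87481e8618207a181f82081f7e07e082082082186081f82086081f81f81f82182181f86085f8200041 z z))
 (n 0 (n
 0x2e587402170e8064a1d003cc3a012b4108007797de86d8217f37dc7ae7e48208c582f7a97967358708b17b88418ba7af7f07738357eb88184082a79880684e82f7ea79481c79286e7e08087b07f186580c81f7e78167ea7cb81c8450151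
 z (n
 0xb58748076859c738f818c6e6a7d7c89747f8181757195779270958a9a6c986396847c8f857c936275848872956f847c90a27a67930049
 z z)) (n 0 z (n 0 z z)))) (n 0 (n 0 z (n 0 z (n 0 z (n 0 z z)))) (n 0 (n 0 z (n 0 z (n 0 z (n 0
 z z)))) z)))))))))))))))))))))))))) (n 681 (n 0 (n 0 z (n 0 z (n 0 z (n 0 z z)))) (n 0 (n 0 z
 (n 0 z (n 0 z (n 0 z z)))) (n 0 (n 0 z (n 0 z (n 0 z (n 0 z z)))) (n 0 (n 0 z (n 0 z (n 0 z (n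
 0 z z)))) z)))) (n 478 (n 0 (n 0 z (n 0 z (n 0 z (n 0 z z)))) (n 0 (n 0 z (n 0 z (n 0 z (n 0 z
 z)))) (n 0 (n 0 z (n 0 z (n 0 z (n 0 z z)))) (n 0 (n 0 (n 4327451 z (n 4327451 z z)) (n 0 (n
 4327451 z (n 4327451 z z)) (n 0 z (n 0 z z)))) (n 0 (n 0 z (n 0 z (n 0 (n 8855811 z z) (n 0 (n
 8855811 z z) z)))) (n 0 (n 0 z (n 0 z (n 0 z (n 0 z z)))) (n 0 (n 0 (n 8803187 z (n
 0xd87481e8608207a181f8208208208208208218208a08208208208207df81f8607e082086089f8200041 z z)) (n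
 0 (n 8790131 z (n 8861227 z z)) (n 0 z (n 0 z z)))) (n 0 (n 0 (n
 0x7d8408068778d827d7b8072a17d7c897a798b7d7a7e8e70767c9c697a7e78748d7e70807d7a9d4b9286997b977d729287757f6e780049
 z (n 8803187 z z)) (n 0 (n
 0x7d8408068778d827d7b8072a17d7c897a798b7d7a7e8e70767c9c697a7e78748d7e70807d7a9d4b9286997b977d729287757f6e780049
 z (n 8790131 z z)) (n 0 z (n 0 z z)))) (n 0 (n 0 z (n 0 z (n 0 (n 8855811 z (n 8855811 z z)) (n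
 0 z z)))) (n 0 (n 0 z (n 0 z (n 0 z (n 0 z z)))) (n 0 (n 0 z (n 0 z (n 0 (n 8872459 z z) (n 0
 (n 8872459 z z) z)))) (n 0 (n 0 z (n 0 z (n 0 (n 8857163 z z) (n 0 (n
 0x2ec90c640781f8208217e08208208208208208208208208208208208208208208208208208208208208200801 z
 z) z)))) (n 0 (n 0 z (n 0 z (n 0 (n 8523891 z (n 7684227 z z)) (n 0 (n 8523891 z (n 7684227 z
 z)) z)))) (n 0 (n 0 z (n 0 z (n 0 z (n 0 z z)))) (n 0 (n 0 (n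
 0x7d8548068778d827d7b8072a17d7c897a798b7d7a7e8e70767c9c697a7e78748d7e70807d7a9d4b9286997b977d729287757f6e780049
 z z) (n 0 (n 6621307 z z) (n 0 z (n 0 z z)))) (n 0 (n 0 (n
 0x9d874805994b56387756b5faaa27b7356689fae5f85ce4c7d4cd357a0ae766d977b4f6a67aa7f5885808a7b9e9272988f917d6a8e0049
 z (n 0x2d87581b8e27a076775b7638a57e17227528dcadda985a09226ab8aa6188de95b9598de861ae46a80041 z
 z)) (n 0 (n 8861227 z (n 8861227 z z)) (n 0 z (n 0 z z)))) (n 0 (n 0 z (n 0 z (n 0 (n 7686251 z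
 (n 0x2d87281b8e17a07a875b7a28a68217227128dcaddad75619616ab8aa6198df99a9598a0821ae46a80041 z z))
 (n 0 z z)))) (n 0 (n 0 z (n 0 z (n 0 z (n 0 z z)))) (n 0 (n 0 z (n 0 z (n 0 z (n 0 (n
 0x1d586501570ca040a194024c3280b34108007a97eb8468157f87e97cc7ee81487e81e7c87bd77e8488717d28298777cd7f57a68227f385282a81c7be80383281e7f27bb8127ba8467ec8057cd7f78408078147f080e7f27dd81282c0151
 z (n 0x1d87281c8a17a07e579c7e28637e176279785d9de99b6608e176786665b89e91d8dc89f8219a27240041 z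
 z)) z)))) (n 0 (n 0 (n
 0xd87481e8607e17a085f82082082082081f86082082082082086081f7e081e8607e08217e185f7e00041 z (n
 0x30c90c840382081e79f7e07a082082186181f8618208618607df7e085f82081f7df8207e18208217e081f0801 z
 z)) (n 0 (n
 0xb58748076859c738f818c6e6a7d7c89747f8181757195779270958a9a6c986396847c8f857c936275848872956f847c90a27a67930049
 z (n 0xec90c640782082082081f82081f82082086081f8208618608207e086082081f8208208208208618608200801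
 z z)) (n 0 z (n 0 z z)))) (n 0 (n 0 z (n 0 z (n 0 (n 8523891 z (n
 0x558728169636e072e6566e692a7e16246c5998d9bd0f2a0a6353693245199cad6a5199f862d6752f0041 z z)) (n
 0 z z)))) (n 0 (n 0 z (n 0 z (n 0 z (n 0 z z)))) (n 0 (n 0 z (n 0 z (n 0 (n
 0x30c8ec840781f8208207e08218208208208208208208208208208208208207e08208208208208208208200801 z
 (n
 0xb58708076859c738f818c6e6a7d7c89747f8181757195779270958a9a6c986396847c8f857c936275848872956f847c90a27a67930049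
 z z)) (n 0 z z)))) (n 0 (n 0 (n
 0x2ca90c640781f81f81f7e07e08608218218208208608218207e081f8608207df81f8207e18208208208200801 z
 (n 0x358748198e276076971a7648a77e16e370e91ab5db154a09a262e8ec5968dd9d999791f862b6466a0041 z z))
 (n 0 (n
 0x2ca90c640781f81f81f7e07e08608218218208208608218207e081f8608207df81f8207e18208208208200801 z
 (n 0xd87581e8608207a181f8208208208208208218208a08208208208207df81f8607e082086089f8200041 z z))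
 (n 0 z (n 0 z z)))) (n 0 (n 0 z (n 0 z (n 0 z (n 0 z z)))) (n 0 (n 0 z (n 0 z (n 0 z (n 0 z
 z)))) z)))))))))))))))))))))))))) (n 137 (n 0 (n 0 (n 8663571 z z) (n 0 (n 8663571 z z) (n 0 z
 (n 0 z z)))) (n 0 (n 0 (n
 0x3064e80c0781f86081f7e082085f8217e182185f82086081f82081f82082081f8208208208208618608200801 z
 z) (n 0 (n
 0xb064e80c0781285d8575e283699c8ea82d81a85c44a9ab954797767863861712865794aa69185e569f69f0801 z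
 z) (n 0 z (n 0 z z)))) (n 0 (n 0 z (n 0 z (n 0 z (n 0 z z)))) (n 0 (n 0 (n 8663571 z z) (n 0 (n
 8663571 z z) (n 0 z (n 0 z z)))) (n 0 (n 0 (n 8663571 z z) (n 0 (n 8663571 z z) (n 0 z (n 0 z
 z)))) z))))) (n 705 (n 0 (n 0 z (n 0 z (n 0 z (n 0 z z)))) (n 0 (n 0 z (n 0 z (n 0 z (n 0 z
 z)))) (n 0 (n 0 z (n 0 z (n 0 z (n 0 z z)))) (n 0 (n 0 z (n 0 z (n 0 z (n 0 z z)))) (n 0 (n 0 z
 (n 0 z (n 0 z (n 0 z z)))) (n 0 (n 0 z (n 0 z (n 0 z (n 0 z z)))) (n 0 (n 0 z (n 0 z (n 0 z (n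
 0 z z)))) z))))))) (n 261 (n 0 (n 0 z (n 0 z (n 0 z (n 0 z z)))) (n 0 (n 0 z (n 0 z (n 0 z (n 0
 z z)))) (n 0 (n 0 z (n 0 z (n 0 z (n 0 z z)))) (n 0 (n 0 (n 8786731 z (n 8786731 z z)) (n 0 (n
 8786731 z (n 8786731 z z)) (n 0 (n 8525579 z (n 8786731 z z)) (n 0 (n 8525579 z (n 8786731 z
 z)) z)))) (n 0 (n 0 z (n 0 z (n 0 z (n 0 z z)))) (n 0 (n 0 z (n 0 z (n 0 z (n 0 (n 8872459 z (n
 8872459 z z)) z)))) (n 0 (n 0 (n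
 0x558538169636e072e6566e692a7e16246c5998d9bd0f2a0a6353693245199cad6a5199f862d6752f0041 z (n
 8803187 z z)) (n 0 (n
 0x4585381792372076b6987648e87e26a370a95ac5cc133e0a225f28ef4d495da97a1595f822c655ec0041 z (n
 8790131 z z)) (n 0 z (n 0 z z)))) (n 0 (n 0 z (n 0 z (n 0 z (n 0 z z)))) (n 0 (n 0 z (n 0 z (n
 0 z (n 0 z z)))) (n 0 (n 0 z (n 0 z (n 0 (n
 0xb58538076859c738f818c6e6a7d7c89747f8181757195779270958a9a6c986396847c8f857c936275848872956f847c90a27a67930049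
 z (n 0x2d87081a8e27607a775b7a28a68217227528dbadda585609616ab8aa6188de95c9198df861aa36a70041 z
 z)) (n 0 z z)))) (n 0 (n 0 z (n 0 z (n 0 z (n 0 z z)))) (n 0 (n 0 (n
 0x3586081c8a96e58646997df8dd7e181d6e77656a78e86685a889f9627e65dc8637276e17e5ade6250041 z (n
 0xb58608076859c738f818c6e6a7d7c89747f8181757195779270958a9a6c986396847c8f857c936275848872956f847c90a27a67930049
 z z)) (n 0 (n
 0x8d86081793756c86948f79da177e181857162e4f1a354332728ddb2476f2589265314e376ceda2ef0041 z (n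
 0x2d87081a8a27a07a771b7a38a57e17227518dcadead85609626ab8a96188de9da9598df861ae36e70041 z z)) (n
 0 z (n 0 z z)))) (n 0 (n 0 z (n 0 z (n 0 z (n 0 z z)))) (n 0 (n 0 z (n 0 z (n 0 z (n 0 z z))))
 (n 0 (n 0 z (n 0 z (n 0 z (n 0 z z)))) (n 0 (n 0 z (n 0 z (n 0 z (n 0 z z)))) (n 0 (n 0 z (n 0
 z (n 0 z (n 0 z z)))) (n 0 (n 0 z (n 0 z (n 0 z (n 0 z z)))) (n 0 (n 0 (n
 0x2e58200217040064a08003cc10012b4108007797de86d8217f37dc7ae7e48208c582f7a97967358708b17b88418ba7af7f07738357eb88184082a79880684e82f7ea79481c79286e7e08087b07f186580c81f7e78167ea7cb81c8450151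
 z (n
 0xb58708076859c738f818c6e6a7d7c89747f8181757195779270958a9a6c986396847c8f857c936275848872956f847c90a27a67930049
 z z)) (n 0 (n
 0x24d82001a7040050a080030c1000e34108007947e585781a7f67e37bf7ea81a89e8257ba7ac75e85a88e7c68338957bf7f378f82a7ef8678338237ae80483f8267ef7a98177a88577e68077c07f48518098197ec8127ef7d58178360151
 z (n 0x358708198e27607a96d97648e77e16a374f8dab9db564a09a262e8ac59691d9da997920861ba46290041 z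
 z)) (n 0 z (n 0 z z)))) (n 0 (n 0 z (n 0 z (n 0 z (n 0 z z)))) (n 0 (n 0 z (n 0 z (n 0 z (n 0 z
 z)))) (n 0 (n 0 z (n 0 z (n 0 z (n 0 z z)))) (n 0 (n 0 z (n 0 z (n 0 (n 8855811 z (n 8855811 z
 z)) (n 0 z z)))) (n 0 (n 0 z (n 0 z (n 0 z (n 0 z z)))) (n 0 (n 0 z (n 0 z (n 0 (n 8855811 z (n
 8855811 z z)) (n 0 (n 8855811 z (n 8855811 z z)) z)))) (n 0 (n 0 z (n 0 z (n 0 z (n 0 z z))))
 (n 0 (n 0 z (n 0 z (n 0 z (n 0 z z)))) (n 0 (n 0 z (n 0 z (n 0 z (n 0 z z)))) (n 0 (n 0 z (n 0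
 z (n 0 z (n 0 z z)))) (n 0 (n 0 z (n 0 z (n 0 (n 8525579 z z) (n 0 z z)))) (n 0 (n 0 z (n 0 z
 (n 0 z (n 0 z z)))) z))))))))))))))))))))))))))))))) (n 131 (n 0 (n 0 z (n 0 z (n 0 z (n 0 z
 z)))) (n 0 (n 0 (n 8857147 z (n 8857147 z z)) (n 0 (n
 0x358708198e27607696da7648e77e16e270f91bb9db554a09a262e8eb5d691e9da997920822b646690041 z (n
 0x30a70a60078208e38218228607a07dd7de7e27e07e081f8628218618208207e18208607df81f81f8208200801 z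
 z)) (n 0 z (n 0 z z)))) (n 0 (n 0 z (n 0 z (n 0 (n 8523891 z (n 8525579 z z)) (n 0 z z)))) (n 0
 (n 0 z (n 0 z (n 0 z (n 0 z z)))) (n 0 (n 0 z (n 0 z (n 0 z (n 0 z z)))) (n 0 (n 0 z (n 0 z (n
 0 z (n 0 z z)))) (n 0 (n 0 (n 8663571 z z) (n 0 (n 8663571 z z) (n 0 z (n 0 z z)))) z))))))) (n
 5 (n 0 (n 0 (n 7477259 z z) (n 0 (n 8872459 z z) (n 0 z (n 0 z z)))) (n 0 (n 0 z (n 0 z (n 0 z
 (n 0 z z)))) (n 0 (n 0 (n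
 0x30c6ec24038217e082181f8607e081f8208207e082082081f82082082082082081f8208208208208208200801 z
 z) (n 0 (n
 0x70c6ec240781782681e61c760a5c89d7a58dc9a55a36ae71f89c66981b81d79e6a161f9638e37a479f7e50801 z
 z) (n 0 z (n 0 z z)))) (n 0 (n 0 z (n 0 z (n 0 z (n 0 z z)))) z)))) (n 563 (n 0 (n 0 z (n 0 z
 (n 0 z (n 0 z z)))) (n 0 (n 0 z (n 0 z (n 0 z (n 0 z z)))) (n 0 (n 0 z (n 0 z (n 0 (n 8802867 z
 z) (n 0 (n 8802867 z z) z)))) z))) (n 437 (n 0 (n 0 z (n 0 z (n 0 z (n 0 z z)))) (n 0 (n 0 z (n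
 0 z (n 0 z (n 0 z z)))) (n 0 (n 0 z (n 0 z (n 0 z (n 0 z z)))) (n 0 (n 0 (n 4327451 z (n
 4327451 z z)) (n 0 (n 4327451 z (n 4327451 z z)) (n 0 (n 8855811 z (n 8855811 z z)) (n 0 (n
 8855811 z (n 8855811 z z)) z)))) (n 0 (n 0 z (n 0 z (n 0 z (n 0 z z)))) (n 0 (n 0 z (n 0 z (n 0
 z (n 0 (n 8855811 z (n 8855811 z z)) z)))) (n 0 (n 0 (n
 0x3586081992275f7a97197648e67e16a370f91ab9db554a09a266e8ac59691e9da91791f822b636690041 z (n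
 8803187 z z)) (n 0 (n
 0x1d86081c8a17a07e575c7e18a38217617d689d9df9da6608e17278666db89e99d8dc8a0821a227240041 z (n
 8790131 z z)) (n 0 z (n 0 z z)))) (n 0 (n 0 z (n 0 z (n 0 z (n 0 z z)))) (n 0 (n 0 z (n 0 z (n
 0 z (n 0 z z)))) (n 0 (n 0 z (n 0 z (n 0 (n 8855811 z (n 8855811 z z)) (n 0 z z)))) (n 0 (n 0 z
 (n 0 z (n 0 z (n 0 z z)))) (n 0 (n 0 (n
 0xb58428076859c738f818c6e6a7d7c89747f8181757195779270958a9a6c986396847c8f857c936275848872956f847c90a27a67930049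
 z (n 0xd87481e8608207a181f8208208208208208218208a08208208208207df81f8607e082086089f8200041 z
 z)) (n 0 (n
 0xb58428076859c738f818c6e6a7d7c89747f8181757195779270958a9a6c986396847c8f857c936275848872956f847c90a27a67930049
 z (n
 0xb58428076859c738f818c6e6a7d7c89747f8181757195779270958a9a6c986396847c8f857c936275848872956f847c90a27a67930049
 z z)) (n 0 z (n 0 z z)))) (n 0 (n 0 z (n 0 z (n 0 z (n 0 z z)))) (n 0 (n 0 z (n 0 z (n 0 z (n 0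
 z z)))) (n 0 (n 0 z (n 0 z (n 0 z (n 0 z z)))) (n 0 (n 0 z (n 0 z (n 0 z (n 0 z z)))) (n 0 (n 0
 z (n 0 z (n 0 z (n 0 z z)))) (n 0 (n 0 z (n 0 z (n 0 z (n 0 z z)))) (n 0 (n 0 (n
 0x24d84301a7086050a10c030c2180eb4108007947e685881a7f67e37bf7e981a89e8257ba7ab75d85b88e7c68348957c07f378e82b7ef8688338237ad80583e8267ef7a88177a88587e68077c07f48518098197ec8117ee7d68168370151
 z (n 0xd87481e8608207a181f8208208208208208218208a08208208208207df81f8607e082086089f8200041 z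
 z)) (n 0 (n
 0x2e58430217086064a10c03cc21812b4108007797de86d8217f37dc7ae7e48208c582f7a97967358708b17b88418ba7af7f07738357eb88184082a79880684e82f7ea79481c79286e7e08087b07f186580c81f7e78167ea7cb81c8450151
 z (n
 0xb58748076859c738f818c6e6a7d7c89747f8181757195779270958a9a6c986396847c8f857c936275848872956f847c90a27a67930049
 z z)) (n 0 z (n 0 z z)))) (n 0 (n 0 z (n 0 z (n 0 z (n 0 z z)))) (n 0 (n 0 z (n 0 z (n 0 z (n 0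
 z z)))) (n 0 (n 0 z (n 0 z (n 0 z (n 0 z z)))) (n 0 (n 0 z (n 0 z (n 0 (n
 0x30c8ec640781f82082082082081f82082082082082082086081f8208208208208208208208208208208200801 z
 (n
 0xb58708076859c738f818c6e6a7d7c89747f8181757195779270958a9a6c986396847c8f857c936275848872956f847c90a27a67930049
 z z)) (n 0 z z)))) (n 0 (n 0 z (n 0 z (n 0 z (n 0 z z)))) (n 0 (n 0 z (n 0 z (n 0 (n 8786731 z
 (n 8786731 z z)) (n 0 (n 8786731 z (n 8786731 z z)) z)))) (n 0 (n 0 z (n 0 z (n 0 z (n 0 z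
 z)))) (n 0 (n 0 z (n 0 z (n 0 z (n 0 z z)))) (n 0 (n 0 z (n 0 z (n 0 z (n 0 z z)))) (n 0 (n 0 z
 (n 0 z (n 0 z (n 0 z z)))) (n 0 (n 0 z (n 0 z (n 0 (n
 0x10c6c8640381f8a18207e082085f7e18207e086082081f81e8208218208208208208208208218208208200801 z
 z) (n 0 z z)))) (n 0 (n 0 z (n 0 z (n 0 z (n 0 z z)))) z))))))))))))))))))))))))))))))) (n 439
 (n 0 (n 0 z (n 0 z (n 0 z (n 0 z z)))) (n 0 (n 0 z (n 0 z (n 0 (n 8802867 z z) (n 0 z z)))) (n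
 0 (n 0 z (n 0 z (n 0 z (n 0 z z)))) (n 0 (n 0 z (n 0 z (n 0 (n 8857163 z z) (n 0 (n
 0x2e587102170e2064a1c403cc38812b4108007797de86d8217f37dc7ae7e48208c582f7a97967358708b17b88418ba7af7f07738357eb88184082a79880684e82f7ea79481c79286e7e08087b07f186580c81f7e78167ea7cb81c8450151
 z z) z)))) (n 0 (n 0 z (n 0 z (n 0 z (n 0 z z)))) (n 0 (n 0 z (n 0 z (n 0 z (n 0 z z)))) (n 0
 (n 0 (n 8593507 z z) (n 0 (n 8593507 z z) (n 0 z (n 0 z z)))) z))))))) (n 3 (n 0 (n 0 z (n 0 z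
 (n 0 z (n 0 z z)))) (n 0 (n 0 z (n 0 z (n 0 z (n 0 (n 2164827 z z) z)))) (n 0 (n 0 z (n 0 z (n
 0 z (n 0 z z)))) (n 0 (n 0 z (n 0 z (n 0 z (n 0 z z)))) (n 0 (n 0 (n 8663571 z z) (n 0 (n
 8663571 z z) (n 0 z (n 0 z z)))) z))))) (n 1 (n 0 (n 0 z (n 0 z (n 0 z (n 0 z z)))) (n 0 (n 0 z
 (n 0 z (n 0 z (n 0 z z)))) (n 0 (n 0 z (n 0 z (n 0 (n 8802867 z z) (n 0 (n 8802867 z z) z))))
 (n 0 (n 0 z (n 0 z (n 0 z (n 0 z z)))) (n 0 (n 0 z (n 0 z (n 0 z (n 0 z z)))) (n 0 (n 0 z (n 0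
 z (n 0 z (n 0 z z)))) (n 0 (n 0 z (n 0 z (n 0 z (n 0 z z)))) (n 0 (n 0 z (n 0 z (n 0 z (n 0 z
 z)))) z)))))))) (n 563 (n 0 (n 0 z (n 0 z (n 0 z (n 0 z z)))) (n 0 (n 0 z (n 0 z (n 0 z (n 0 z
 z)))) (n 0 (n 0 z (n 0 z (n 0 z (n 0 z z)))) (n 0 (n 0 z (n 0 z (n 0 z (n 0 z z)))) z)))) (n
 261 (n 0 (n 0 z (n 0 z (n 0 z (n 0 z z)))) (n 0 (n 0 z (n 0 z (n 0 z (n 0 z z)))) (n 0 (n 0 z
 (n 0 z (n 0 z (n 0 z z)))) (n 0 (n 0 (n 5519483 z (n 5519483 z z)) (n 0 (n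
 0x7d8408068778d827d7b8072a17d7c897a798b7d7a7e8e70767c9c697a7e78748d7e70807d7a9d4b9286997b977d729287757f6e780049
 z (n
 0x7d8408068778d827d7b8072a17d7c897a798b7d7a7e8e70767c9c697a7e78748d7e70807d7a9d4b9286997b977d729287757f6e780049
 z z)) (n 0 z (n 0 z z)))) (n 0 (n 0 z (n 0 z (n 0 (n
 0x8d84281793656c8694cf79da187e181853166e4f19f54332728ddb2476f2178e75314e376dedb2ef0041 z z) (n
 0 (n
 0xb58428076859c738f818c6e6a7d7c89747f8181757195779270958a9a6c986396847c8f857c936275848872956f847c90a27a67930049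
 z z) z)))) (n 0 (n 0 z (n 0 z (n 0 z (n 0 z z)))) (n 0 (n 0 (n 8803187 z (n 8786731 z z)) (n 0
 (n 8790131 z (n 8786731 z z)) (n 0 z (n 0 z z)))) (n 0 (n 0 (n
 0x7d8548068778d827d7b8072a17d7c897a798b7d7a7e8e70767c9c697a7e78748d7e70807d7a9d4b9286997b977d729287757f6e780049
 z (n 8803187 z z)) (n 0 (n
 0x7d8548068778d827d7b8072a17d7c897a798b7d7a7e8e70767c9c697a7e78748d7e70807d7a9d4b9286997b977d729287757f6e780049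
 z (n 8790131 z z)) (n 0 z (n 0 z z)))) (n 0 (n 0 z (n 0 z (n 0 (n
 0x2e58430217086064a10c03cc21812b4108007797de86d8217f37dc7ae7e48208c582f7a97967358708b17b88418ba7af7f07738357eb88184082a79880684e82f7ea79481c79286e7e08087b07f186580c81f7e78167ea7cb81c8450151
 z (n
 0xb58708076859c738f818c6e6a7d7c89747f8181757195779270958a9a6c986396847c8f857c936275848872956f847c90a27a67930049
 z z)) (n 0 z z)))) (n 0 (n 0 z (n 0 z (n 0 z (n 0 z z)))) (n 0 (n 0 z (n 0 z (n 0 (n 8855811 z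
 z) (n 0 (n 8855811 z z) z)))) (n 0 (n 0 z (n 0 z (n 0 (n 8855811 z z) (n 0 (n 8855811 z z)
 z)))) (n 0 (n 0 z (n 0 z (n 0 (n 8523891 z (n 7684227 z z)) (n 0 (n 8523891 z (n 7684227 z z))
 z)))) (n 0 (n 0 z (n 0 z (n 0 z (n 0 z z)))) (n 0 (n 0 (n 4327451 z z) (n 0 (n 4327451 z z) (n
 0 z (n 0 z z)))) (n 0 (n 0 (n 3278875 z (n 3278875 z z)) (n 0 (n 3278875 z (n 3278875 z z)) (n
 0 z (n 0 z z)))) (n 0 (n 0 z (n 0 z (n 0 (n 8855811 z (n 8855811 z z)) (n 0 z z)))) (n 0 (n 0 z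
 (n 0 z (n 0 z (n 0 z z)))) (n 0 (n 0 z (n 0 z (n 0 z (n 0 (n 8855811 z (n 8855811 z z)) z))))
 (n 0 (n 0 (n
 0x358758198e37607a96da7648a67e16e270e91ab9db554a09a366e8ac59691e9d999791f821b656690041 z (n
 0x30c6ea640781f82081f7e082081f86082086181f7e08618608207df8608207df82082082082086185f7e00801 z
 z)) (n 0 (n
 0xd87581e8608207a181f8208208208208208218208a08208208208207df81f8607e082086089f8200041 z (n
 0x30a70a640382081e79f7e07a082082186181f8618208618607df7e085f82081f7df8207e18208217e081f0801 z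
 z)) (n 0 z (n 0 z z)))) (n 0 (n 0 z (n 0 z (n 0 (n 8523891 z (n
 0x8d87081893656c86a48e79c9d782185853066f4f1a3543327291db2476f2178e75314e37adeda32f0041 z z)) (n
 0 z z)))) (n 0 (n 0 z (n 0 z (n 0 z (n 0 z z)))) (n 0 (n 0 z (n 0 z (n 0 (n
 0x30c8ea640781f8208607e082081f82082082082082082086082082086082082082082082082082086081f0801 z
 (n 0x3d87081892272076b6987258e87e16a370a91ac5cc133a09e35f28ee51399da58a1595e861c255eb0041 z z))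
 (n 0 z z)))) (n 0 (n 0 (n
 0x24d87001b70e004ea1c0030c3800eb4108007947e585781a7f67e37bf7ea81989e8257ba7ab75e85a88e7c68348957bf7f378f82b7ef8678328237ad80583e8257ef7a98177a98587e68067c17f485080a8197ec8127ef7d68178370151
 z (n
 0xb58708076859c738f818c6e6a7d7c89747f8181757195779270958a9a6c986396847c8f857c936275848872956f847c90a27a67930049
 z z)) (n 0 (n
 0x30c6a6040381f81f81f7e07e08608218218208208608218207e081f8608207df81f8207e18208208208200801 z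
 (n 0x358708198e27607a96d97648a77e16e370e91bb9cb554a09a266e8ec59691e9da99791f861b646680041 z z))
 (n 0 z (n 0 z z)))) (n 0 (n 0 z (n 0 z (n 0 z (n 0 z z)))) (n 0 (n 0 z (n 0 z (n 0 z (n 0 z
 z)))) z)))))))))))))))))))))))))) (n 439 (n 0 (n 0 z (n 0 z (n 0 z (n 0 z z)))) (n 0 (n 0 z (n
 0 z (n 0 z (n 0 z z)))) (n 0 (n 0 (n 8663571 z z) (n 0 (n 8663571 z z) (n 0 z (n 0 z z)))) z)))
 (n 3 (n 0 (n 0 z (n 0 z (n 0 z (n 0 z z)))) (n 0 (n 0 z (n 0 z (n 0 z (n 0 z z)))) (n 0 (n 0 (n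
 7477259 z z) (n 0 (n 8872459 z z) (n 0 z (n 0 z z)))) (n 0 (n 0 (n 8663571 z z) (n 0 (n 8663571
 z z) (n 0 z (n 0 z z)))) z)))) (n 1 (n 0 (n 0 z (n 0 z (n 0 z (n 0 z z)))) (n 0 (n 0 z (n 0 z
 (n 0 z (n 0 z z)))) (n 0 (n 0 z (n 0 z (n 0 z (n 0 z z)))) (n 0 (n 0 z (n 0 z (n 0 z (n 0 z
 z)))) (n 0 (n 0 z (n 0 z (n 0 z (n 0 z z)))) (n 0 (n 0 (n 8802867 z (n 8802867 z z)) (n 0 (n
 8802867 z (n 8802867 z z)) (n 0 z (n 0 z z)))) z)))))) (n 0 (n 0 (n 0 z (n 0 z (n 0 z (n 0 z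
 z)))) (n 0 (n 0 (n 8803187 z (n 8786731 z z)) (n 0 (n 8790131 z (n 8872459 z z)) (n 0 (n
 8523891 z (n 7544963 z z)) (n 0 (n 8872459 z (n 8872459 z z)) z)))) (n 0 (n 0 z (n 0 z (n 0 z
 (n 0 z z)))) (n 0 (n 0 z (n 0 z (n 0 z (n 0 z z)))) (n 0 (n 0 (n 8802867 z (n 8802867 z z)) (n
 0 (n 8802867 z (n 8802867 z z)) (n 0 z (n 0 z z)))) (n 0 (n 0 z (n 0 z (n 0 z (n 0 (n 8855811 z
 z) z)))) (n 0 (n 0 z (n 0 z (n 0 z (n 0 z z)))) (n 0 (n 0 z (n 0 z (n 0 (n 8855811 z (n 8855811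
 z z)) (n 0 (n 8855811 z (n 8855811 z z)) z)))) (n 0 (n 0 (n 8803187 z (n
 0x2008e7056a81f8608207a182082082082082082082082086182082082082082081f8207e08208208208200801 z
 z)) (n 0 (n 8790131 z (n
 0x3d0e70e6407803cb1dd72ae67b76879ab8061384380bb6383c37da3188a73d0b2bd5ea496a866815a8caa5351b09a747e734286658b78700809
 z z)) (n 0 z (n 0 z z)))) z))))))))) z))))))))))))))))))))) z)))) z) z)))) (n
 0xd5d943d65a1164d80b2630eb9220c970a0528882544582622c80d3ac0 (n 0x222c9 (n 201 (n 0 z (n 2 z (n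
 10 z (n 6557779 z z)))) (n 33 (n 0 z (n 0 z (n 18 z (n 6557779 z (n 6557779 z z))))) (n 135 (n
 26 z (n 0 z (n 34 z (n 3212843 z (n 0 z (n 0 z (n 0 z z))))))) (n 3 (n 0 z (n 0 z (n 0 z (n
 2164283 z (n 42 z (n 0 z (n 0 z (n 0 z z)))))))) (n 1 (n 0 z (n 50 z (n 58 z (n 0 z (n 6557779
 z (n 0 z z)))))) (n 0 (n
 0xbac4014620b9fc258587bbc21387a79c645a468bc1e474658d137706fb2ae2f669b7213c7c0a88a9769980081 z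
 (n 0 z (n
 0x1ab189436318e8791a8818d709f88803d59a4aa5c74589357974a978d7892bfbd9b57748d70748a629075686a826b6082727b8397a18f7b0089
 z (n 0 z (n
 0x14c841362181f8a37607a07a27df81f8a18207e07e07e085f85f7e07e08628207e08207e27e08208208200081 z
 (n 66 z (n
 0x5db1086a621857790976a7f8788608e7276778387877e85708571916d9e7d88897690827b7d87888680788880804b9c7893768795876e7d0089
 z (n
 0x3db1885a631758e878b707e79787183739373628c89807f73a066897a7897a37a7884887c609587826e8470857778926c928189876e86820089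
 z (n 6624267 z (n 6624267 z (n 74 z (n 0 z (n 0 z (n 0 z (n 0 z (n 0 z (n 0 z (n
 0x1ab201436408e8791a8818d709f88803d59a4aa5c74589357974a978d7892bfbd9b57748d70748a629075686a826b6082727b8397a18f7b0089
 z (n 6624267 z (n 0 z (n
 0x4db1805263083798d926e7f8587668b7579788285857e857384748e71987d8687788d807c7e858685807986818156967a8f78859286727e0089
 z (n 0 z (n 0 z (n 0 z (n
 0x5db2186a643847790976a7f8789608e7277768287877e86708571916d9e7d87897690817b7d87888680788780814b9b7992768796886e7d0089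
 z (n 0 z (n
 0x16c80026408208617a07e07e17e082086182082082082082081f8207df8208208207e08208208207e08600081 z
 (n 82 z (n 0 z z))))))))))))))))))))))))))))) z)))))) (n 201 (n 0 (n 0 z (n 179 (n 0 z (n 0 z
 (n 0 z (n 2 (n 2 (n 0 z (n 0 z (n 0 z (n 0 z (n 0 z (n 0 (n 8855811 z z) z)))))) (n 2 (n 0 z (n
 0 z (n 0 z (n 0 z (n 0 z (n 0 z z)))))) (n 2 (n 0 z (n 0 z (n 0 z (n 0 z (n 0 z (n 0 (n 8855811
 z z) z)))))) (n 1 z (n 1 z (n 1 z (n 2 (n 0 z (n 0 z (n 0 z (n 0 z (n 0 z (n 0 z z)))))) (n 2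
 (n 0 z (n 0 z (n 0 z (n 0 z (n 0 z (n 0 z z)))))) z)))))))) (n 0 z (n 0 z (n 0 z (n 0 z (n 0 z
 (n 0 z (n 0 z (n 0 z (n 0 z (n 0 z (n 0 z z))))))))))))))) (n 1015 (n 0 z (n 2 (n 0 z (n 2 (n 0
 z (n 0 z (n 0 z (n 0 z (n 0 z (n 0 (n 8855811 z z) z)))))) (n 1 z (n 1 z (n 1 z (n 2 (n 0 z (n
 0 z (n 0 z (n 0 z (n 0 z (n 0 z z)))))) (n 2 (n 0 z (n 0 z (n 0 z (n 0 z (n 0 z (n 0 z z))))))
 z))))))) (n 0 z (n 0 z (n 0 z (n 0 z (n 0 z (n 0 z (n 0 z z))))))))) (n 1015 (n 0 z (n 0 z (n 2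
 (n 2 (n 0 z (n 0 z (n 0 z (n 0 z (n 0 z (n 0 (n 8863763 z z) z)))))) (n 1 z (n 1 z (n 1 z (n 2
 (n 0 z (n 0 z (n 0 z (n 0 z (n 0 z (n 0 z z)))))) (n 2 (n 0 z (n 0 z (n 0 z (n 0 z (n 0 z (n 0
 z z)))))) z)))))) (n 0 z (n 0 z (n 0 z (n 0 z (n 0 z (n 0 z z))))))))) (n 1011 (n 0 z (n 0 z (n
 0 z (n 2 (n 1 z (n 1 z (n 1 z (n 2 (n 0 z (n 0 z (n 0 z (n 0 z (n 0 z (n 0 z z)))))) (n 2 (n 0
 z (n 0 z (n 0 z (n 0 z (n 0 z (n 0 z z)))))) z))))) (n 0 z (n 0 z (n 0 z (n 0 z (n 0 z (n 0 z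
 (n 0 z z))))))))))) (n 303 (n 0 z (n 0 z (n 0 z (n 0 z (n 0 z (n 0 z (n 0 z (n 0 z (n 0 z (n 0
 z z)))))))))) (n 303 (n 0 z (n 2 (n 1 z (n 2 (n 0 (n 4036 z z) (n 0 z (n 0 z (n 0 z (n 0 (n 101
 z z) (n 0 (n 8589427 z (n 8721979 z z)) z)))))) (n 2 (n 0 (n 8872731 z z) (n 0 z (n 0 z (n 0 z
 (n 0 (n 8872731 z z) (n 0 (n 8589427 z (n 8872731 z z)) z)))))) z))) (n 0 z (n 0 z (n 0 z (n 0
 z (n 0 z (n 0 z (n 0 z (n 0 z z)))))))))) (n 1009 (n 0 z (n 2 (n 0 z (n 0 z z)) (n 0 z (n 0 z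
 (n 0 z (n 0 z (n 0 z (n 0 z (n 0 z (n 0 z (n 0 z (n 0 z (n 0 z (n 0 z (n 0 z (n 0 z (n 0 z (n 0
 z (n 0 z (n 0 z (n 0 z (n 0 z (n 0 z (n 0 z (n 0 z z))))))))))))))))))))))))) (n 1009 (n 0 z (n
 0 z (n 0 z (n 0 z (n 0 z (n 0 z (n 0 z (n 0 z (n 0 z (n 0 z (n 0 z (n 0 z (n 0 z (n 0 z (n 0 z
 (n 0 z (n 0 z (n 0 z (n 0 z (n 0 z (n 0 z (n 2 (n 0 z z) (n 0 z (n 0 z (n 0 z
 z))))))))))))))))))))))))) (n 1009 (n 0 z (n 0 z (n 0 z (n 0 z (n 0 z (n 0 z (n 0 z (n 0 z (n 0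
 z (n 0 z (n 0 z (n 0 z (n 0 z (n 0 z (n 0 z (n 0 z (n 0 z (n 0 z (n 0 z (n 0 z (n 0 z (n 0 z (n
 0 z (n 0 z (n 0 z z))))))))))))))))))))))))) z)))))))))) (n 0 (n 127 (n 0 z (n 0 z (n 0 z (n 0
 z (n 0 z (n 0 z (n 0 z (n 0 z z)))))))) (n 271 (n 0 z (n 0 z (n 0 z (n 0 z (n 0 z (n 0 z
 z)))))) (n 271 (n 0 z (n 0 z (n 0 z (n 0 z (n 0 z (n 0 z z)))))) (n 267 (n 0 z (n 0 z (n 0 z (n
 0 z (n 0 z (n 0 z (n 0 z (n 0 z z)))))))) (n 15 (n 0 z (n 0 z (n 0 z (n 0 z (n 0 z (n 2 (n 0 z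
 (n 1 z (n 2 (n 0 z (n 0 z (n 0 z (n 0 (n 8722235 z z) (n 0 (n 8722235 z z) (n 0 (n 1060 z (n
 1060 z z)) z)))))) (n 2 (n 0 z (n 0 z (n 0 z (n 0 (n 8872731 z z) (n 0 (n 8872731 z z) (n 0 (n
 8872731 z (n 8872731 z z)) z)))))) z)))) (n 0 z (n 0 z (n 0 z (n 0 z z)))))))))) (n 15 (n 0 z
 (n 0 z (n 0 z (n 0 z (n 0 z (n 0 z (n 0 z (n 0 z (n 0 z (n 0 z z)))))))))) (n 265 (n 0 z (n 0 z
 (n 0 z (n 0 z (n 0 z (n 0 z (n 0 z (n 0 z (n 0 z (n 0 z (n 0 z (n 0 z (n 0 z (n 0 z (n 0 z (n 0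
 z (n 0 z (n 0 z (n 0 z (n 0 z (n 0 z (n 0 z (n 0 z (n 0 z (n 0 z (n 0 z (n 0 z (n 0 z (n 0 z
 z))))))))))))))))))))))))))))) (n 265 (n 0 z (n 0 z (n 0 z (n 0 z (n 0 z (n 0 z (n 0 z (n 0 z
 (n 0 z (n 0 z (n 0 z (n 0 z (n 0 z (n 0 z (n 0 z (n 0 z (n 0 z (n 0 z (n 0 z (n 0 z (n 0 z (n 0
 z (n 0 z (n 0 z (n 0 z (n 0 z (n 0 z (n 2 (n 0 z z) (n 0 z z))))))))))))))))))))))))))))) (n
 265 (n 0 z (n 0 z (n 0 z (n 0 z (n 0 z (n 0 z (n 0 z (n 0 z (n 0 z (n 0 z (n 0 z (n 0 z (n 0 z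
 (n 0 z (n 0 z (n 0 z (n 0 z (n 0 z (n 2 z (n 0 z (n 0 z (n 0 z (n 0 z (n 0 z (n 0 z (n 0 z (n 0
 z (n 0 z (n 0 z z))))))))))))))))))))))))))))) z))))))))) (n 0 (n 259 (n 0 z (n 0 z (n 0 z (n 0
 z (n 0 z (n 0 z (n 0 z (n 0 z (n 0 z (n 0 z (n 0 z (n 0 z z)))))))))))) (n 259 (n 0 z (n 0 z (n
 0 z (n 0 z (n 0 z (n 0 z (n 0 z (n 0 z (n 0 z (n 0 z (n 0 z (n 0 z z)))))))))))) (n 7 (n 0 z (n
 0 z (n 0 z (n 0 z (n 0 z (n 0 z (n 0 z z))))))) (n 255 (n 0 z (n 0 z (n 2 (n 0 z (n 1 z (n 2 (n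
 0 z (n 0 z (n 0 z (n 0 (n 8722235 z z) (n 0 (n 8722235 z z) (n 0 (n 1028 z (n 1028 z z))
 z)))))) (n 2 (n 0 z (n 0 z (n 0 z (n 0 (n 1028 z z) (n 0 (n 5 z z) (n 0 (n 1028 z (n 8722235 z
 z)) z)))))) z)))) (n 0 z (n 0 z (n 0 z (n 0 z (n 0 z (n 0 z (n 0 z (n 0 z z))))))))))) (n 255
 (n 0 z (n 0 z (n 0 z (n 0 z (n 0 z (n 0 z (n 0 z (n 0 z (n 0 z (n 0 z (n 0 z z))))))))))) (n
 257 (n 0 z (n 0 z (n 0 z (n 0 z (n 0 z (n 0 z (n 0 z (n 0 z (n 0 z (n 0 z (n 0 z (n 0 z (n 0 z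
 (n 0 z (n 0 z (n 0 z (n 0 z (n 0 z (n 0 z (n 0 z (n 0 z (n 0 z (n 0 z (n 0 z (n 0 z (n 0 z (n 0
 z (n 0 z (n 0 z z))))))))))))))))))))))))))))) (n 257 (n 0 z (n 0 z (n 0 z (n 0 z (n 0 z (n 0 z
 (n 0 z (n 0 z (n 0 z (n 0 z (n 0 z (n 0 z (n 0 z (n 0 z (n 0 z (n 0 z (n 0 z (n 0 z (n 2 (n 0 z
 z) (n 0 z (n 0 z (n 0 z (n 0 z (n 0 z (n 0 z (n 0 z (n 0 z (n 0 z (n 0 z
 z))))))))))))))))))))))))))))) (n 257 (n 0 z (n 0 z (n 0 z (n 0 z (n 0 z (n 0 z (n 0 z (n 0 z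
 (n 0 z (n 0 z (n 2 z (n 0 z (n 0 z (n 0 z (n 0 z (n 0 z (n 0 z (n 0 z (n 0 z (n 0 z (n 0 z (n 0
 z (n 0 z (n 0 z (n 0 z (n 0 z (n 0 z (n 0 z (n 0 z z))))))))))))))))))))))))))))) z)))))))) (n
 0 (n 0 z (n 295 (n 0 z (n 0 z (n 0 z z))) (n 483 (n 2 (n 0 z (n 1 z (n 2 (n 0 z (n 0 z (n 0 z
 (n 0 z (n 0 z (n 0 z z)))))) (n 2 (n 0 z (n 0 z (n 0 z (n 0 z (n 0 z (n 0 z z)))))) z)))) (n 0
 z (n 0 z (n 0 z (n 0 z (n 0 z (n 0 z (n 0 z z)))))))) (n 483 (n 0 z (n 0 z (n 0 z (n 0 z (n 0 z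
 (n 0 z (n 0 z (n 0 z z)))))))) (n 481 (n 0 z (n 0 z (n 0 z (n 0 z (n 0 z (n 0 z (n 0 z (n 0 z
 (n 0 z (n 0 z (n 0 z (n 0 z (n 0 z (n 0 z (n 0 z (n 0 z (n 0 z (n 0 z (n 0 z (n 0 z (n 0 z (n 0
 z (n 0 z (n 0 z (n 0 z (n 0 z (n 0 z (n 0 z (n 0 z (n 0 z (n 0 z (n 0 z (n 0 z (n 0 z (n 0 z (n
 0 z (n 0 z (n 0 z (n 0 z (n 0 z (n 0 z (n 0 z (n 0 z (n 0 z (n 0 z (n 0 z (n 0 z (n 0 z (n 0 z
 z))))))))))))))))))))))))))))))))))))))))))))))))) (n 481 (n 0 z (n 0 z (n 0 z (n 0 z (n 0 z (n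
 0 z (n 0 z (n 0 z (n 0 z (n 0 z (n 2 (n 0 z z) (n 0 z (n 0 z (n 0 z (n 0 z (n 0 z (n 0 z (n 0 z
 (n 0 z (n 0 z (n 0 z (n 0 z (n 0 z (n 0 z (n 0 z (n 0 z (n 0 z (n 0 z (n 0 z (n 0 z (n 0 z (n 0
 z (n 0 z (n 0 z (n 0 z (n 0 z (n 0 z (n 0 z (n 0 z (n 0 z (n 0 z (n 0 z (n 0 z (n 0 z (n 0 z (n
 0 z (n 0 z (n 0 z (n 0 z z))))))))))))))))))))))))))))))))))))))))))))))))) (n 481 (n 0 z (n 0
 z (n 0 z (n 0 z (n 0 z (n 0 z (n 0 z (n 0 z (n 0 z (n 0 z (n 0 z (n 0 z (n 0 z (n 0 z (n 0 z (n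
 0 z (n 0 z (n 0 z (n 0 z (n 0 z (n 0 z (n 0 z (n 0 z (n 0 z (n 0 z (n 0 z (n 0 z (n 0 z (n 0 z
 (n 0 z (n 0 z (n 0 z (n 0 z (n 0 z (n 0 z (n 0 z (n 0 z (n 0 z (n 0 z (n 0 z (n 0 z (n 0 z (n 0
 z (n 0 z (n 0 z (n 2 z (n 0 z (n 0 z (n 0 z z)))))))))))))))))))))))))))))))))))))))))))))))))
 z))))))) (n 0 (n 315 (n 0 z (n 0 z (n 0 z z))) (n 291 (n 2 (n 0 z (n 1 z (n 2 (n 0 z (n 0 z (n
 0 z (n 0 z (n 0 z (n 0 z z)))))) (n 2 (n 0 z (n 0 z (n 0 z (n 0 z (n 0 z (n 0 z z)))))) z))))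
 (n 0 z (n 0 z (n 0 z (n 0 z (n 0 z (n 0 z z))))))) (n 291 (n 0 z (n 0 z (n 0 z (n 0 z (n 0 z (n
 0 z (n 0 z z))))))) (n 313 (n 0 z (n 0 z (n 0 z (n 0 z (n 0 z (n 0 z (n 0 z (n 0 z (n 0 z (n 0
 z (n 0 z (n 0 z (n 0 z (n 0 z (n 0 z (n 0 z (n 0 z (n 0 z (n 0 z (n 0 z (n 0 z (n 0 z (n 0 z (n
 0 z (n 0 z (n 0 z (n 0 z (n 0 z (n 0 z (n 0 z (n 0 z (n 0 z (n 0 z (n 0 z (n 0 z (n 0 z (n 0 z
 (n 0 z (n 0 z (n 0 z (n 0 z (n 0 z (n 0 z (n 0 z (n 0 z (n 0 z (n 0 z (n 0 z (n 0 z (n 0 z (n 0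
 z (n 0 z (n 0 z (n 0 z (n 0 z (n 0 z z))))))))))))))))))))))))))))))))))))))))))))))))))))))))
 (n 313 (n 0 z (n 0 z (n 0 z (n 0 z (n 0 z (n 0 z (n 0 z (n 0 z (n 0 z (n 0 z (n 0 z (n 0 z (n 0
 z (n 0 z (n 0 z (n 0 z (n 0 z (n 0 z (n 0 z (n 0 z (n 0 z (n 0 z (n 0 z (n 0 z (n 0 z (n 0 z (n
 0 z (n 0 z (n 0 z (n 0 z (n 0 z (n 0 z (n 0 z (n 0 z (n 0 z (n 0 z (n 0 z (n 0 z (n 0 z (n 0 z
 (n 0 z (n 0 z (n 0 z (n 0 z (n 0 z (n 0 z (n 0 z (n 0 z (n 0 z (n 0 z (n 0 z (n 0 z (n 0 z (n 0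
 z (n 0 z (n 0 z z)))))))))))))))))))))))))))))))))))))))))))))))))))))))) (n 313 (n 0 z (n 0 z
 (n 0 z (n 0 z (n 0 z (n 0 z (n 0 z (n 0 z (n 0 z (n 0 z (n 0 z (n 0 z (n 0 z (n 0 z (n 0 z (n 0
 z (n 0 z (n 0 z (n 0 z (n 0 z (n 0 z (n 0 z (n 0 z (n 0 z (n 0 z (n 0 z (n 0 z (n 0 z (n 0 z (n
 0 z (n 0 z (n 0 z (n 0 z (n 0 z (n 0 z (n 0 z (n 0 z (n 0 z (n 0 z (n 0 z (n 0 z (n 0 z (n 0 z
 (n 0 z (n 0 z (n 0 z (n 0 z (n 0 z (n 0 z (n 0 z (n 0 z (n 0 z (n 0 z (n 0 z (n 0 z (n 0 z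
 z)))))))))))))))))))))))))))))))))))))))))))))))))))))))) z)))))) (n 0 (n 15 (n 0 z (n 0 z (n 2
 (n 0 z (n 1 z (n 2 (n 0 z (n 0 z (n 0 z (n 0 (n 8722235 z z) (n 0 (n 8722235 z z) (n 0 (n 1364
 z (n 1364 z z)) z)))))) (n 2 (n 0 z (n 0 z (n 0 z (n 0 (n 1364 z z) (n 0 (n 5 z z) (n 0 (n 1364
 z (n 8722235 z z)) z)))))) z)))) (n 0 z (n 0 z (n 0 z z)))))) (n 15 (n 0 z (n 0 z (n 0 z (n 0 z
 (n 0 z (n 0 z z)))))) (n 341 (n 0 z (n 0 z (n 0 z (n 0 z (n 0 z (n 0 z (n 0 z (n 0 z (n 0 z (n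
 0 z (n 0 z (n 0 z (n 0 z (n 0 z (n 0 z (n 0 z (n 0 z (n 0 z (n 0 z (n 0 z (n 0 z (n 0 z (n 0 z
 (n 0 z (n 0 z (n 0 z (n 0 z (n 0 z (n 0 z (n 0 z (n 0 z (n 0 z (n 0 z (n 0 z (n 0 z (n 0 z (n 0
 z (n 0 z (n 0 z (n 0 z (n 0 z (n 0 z (n 0 z (n 0 z (n 0 z (n 0 z (n 0 z (n 0 z (n 0 z
 z))))))))))))))))))))))))))))))))))))))))))))))))) (n 341 (n 0 z (n 0 z (n 0 z (n 0 z (n 0 z (n
 0 z (n 0 z (n 0 z (n 0 z (n 0 z (n 0 z (n 0 z (n 0 z (n 0 z (n 0 z (n 0 z (n 0 z (n 0 z (n 0 z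
 (n 0 z (n 0 z (n 0 z (n 0 z (n 2 (n 0 z z) (n 0 z (n 0 z (n 0 z (n 0 z (n 0 z (n 0 z (n 0 z (n
 0 z (n 0 z (n 0 z (n 0 z (n 0 z (n 0 z (n 0 z (n 0 z (n 0 z (n 0 z (n 0 z (n 0 z (n 0 z (n 0 z
 (n 0 z (n 0 z (n 0 z (n 0 z z))))))))))))))))))))))))))))))))))))))))))))))))) (n 341 (n 0 z (n
 0 z (n 0 z (n 0 z (n 0 z (n 0 z (n 0 z (n 0 z (n 0 z (n 0 z (n 2 z (n 0 z (n 0 z (n 0 z (n 0 z
 (n 0 z (n 0 z (n 0 z (n 0 z (n 0 z (n 0 z (n 0 z (n 0 z (n 0 z (n 0 z (n 0 z (n 0 z (n 0 z (n 0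
 z (n 0 z (n 0 z (n 0 z (n 0 z (n 0 z (n 0 z (n 0 z (n 0 z (n 0 z (n 0 z (n 0 z (n 0 z (n 0 z (n
 0 z (n 0 z (n 0 z (n 0 z (n 0 z (n 0 z (n 0 z
 z))))))))))))))))))))))))))))))))))))))))))))))))) z))))) (n 0 (n 0 z (n 1 (n 2 (n 0 z (n 0 z
 z)) (n 0 z (n 0 z (n 0 z (n 0 z (n 0 z (n 0 z (n 0 z (n 0 z (n 0 z (n 0 z (n 0 z z))))))))))))
 (n 1 (n 0 z (n 0 z (n 0 z (n 0 z (n 0 z (n 0 z (n 0 z (n 0 z (n 0 z (n 0 z (n 0 z (n 0 z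
 z)))))))))))) (n 1 (n 0 z (n 0 z (n 0 z (n 0 z (n 0 z (n 0 z (n 0 z (n 0 z (n 0 z (n 0 z (n 0 z
 (n 0 z z)))))))))))) z)))) (n 0 (n 25 (n 0 z (n 0 z (n 0 z (n 0 z (n 0 z (n 0 z (n 0 z (n 0 z
 (n 0 z (n 0 z (n 0 z (n 0 z (n 0 z (n 0 z (n 0 z (n 0 z (n 0 z (n 0 z (n 0 z (n 0 z (n 0 z (n 0
 z (n 0 z (n 0 z (n 0 z (n 0 z (n 0 z (n 0 z (n 0 z (n 0 z (n 0 z (n 0 z (n 0 z (n 0 z (n 0 z (n
 0 z (n 0 z (n 0 z (n 0 z (n 0 z (n 0 z (n 0 z (n 0 z (n 0 z (n 0 z (n 0 z (n 0 z (n 0 z (n 0 z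
 z))))))))))))))))))))))))))))))))))))))))))))))))) (n 25 (n 0 z (n 0 z (n 0 z (n 0 z (n 0 z (n
 0 z (n 0 z (n 0 z (n 0 z (n 0 z (n 0 z (n 0 z (n 0 z (n 0 z (n 0 z (n 0 z (n 0 z (n 0 z (n 0 z
 (n 0 z (n 0 z (n 0 z (n 0 z (n 0 z (n 0 z (n 0 z (n 0 z (n 0 z (n 0 z (n 0 z (n 0 z (n 0 z (n 0
 z (n 0 z (n 0 z (n 0 z (n 0 z (n 0 z (n 0 z (n 0 z (n 0 z (n 0 z (n 0 z (n 0 z (n 0 z (n 2 (n 0
 z z) (n 0 z (n 0 z (n 0 z z))))))))))))))))))))))))))))))))))))))))))))))))) (n 25 (n 0 z (n 0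
 z (n 0 z (n 0 z (n 0 z (n 0 z (n 0 z (n 0 z (n 0 z (n 0 z (n 0 z (n 0 z (n 0 z (n 0 z (n 0 z (n
 0 z (n 0 z (n 0 z (n 0 z (n 0 z (n 0 z (n 0 z (n 0 z (n 2 z (n
 0x96ec04276099e9aa5a082b5e43d6b30a1c6e87248e077675eae06da9257206a56d751f36382286492789c0081 z
 (n 0 z (n 0 z (n 0 z (n 0 z (n 0 z (n 0 z (n 0 z (n 0 z (n 0 z (n 0 z (n 0 z (n 0 z (n 0 z (n 0
 z (n 0 z (n 0 z (n 0 z (n 0 z (n 0 z (n 0 z (n 0 z (n 0 z (n 0 z (n 0 z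
 z))))))))))))))))))))))))))))))))))))))))))))))))) z))) (n 0 (n 0 z (n 0 z z)) (n 0 (n 0 z z)
 (n 0 z z))))))))))) (n 0 (n 0 z (n 1 (n 268 z (n 6624267 z (n 5443683 z (n 268 z (n 268 z (n
 268 z z)))))) (n 1 (n 2 z (n 6624267 z (n 268 z (n 268 z (n 268 z (n 268 z z)))))) (n 1 (n
 6557779 z (n 6557779 z (n 6557779 z (n 6557779 z (n 6557779 z (n 6557779 z z)))))) z)))) (n 0
 (n 0xa1eb2da357654c3ae44d3ac0 (n 0 (n 0 (n 7741699 z (n 7741699 z (n 7741699 z (n 7741699 z (n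
 7741699 z (n 7741699 z z)))))) z) (n 0 (n 201 (n 0 z (n 1 (n 7540835 z (n 2 z (n 6631795 z (n
 508 z (n 508 z (n 508 z z)))))) (n 1 (n 7749651 z (n 7749651 z (n 7749651 z (n 7749651 z (n
 7749651 z (n 7749651 z z)))))) (n 1 (n 7749651 z (n 7749651 z (n 7749651 z (n 7749651 z (n
 7749651 z (n 7749651 z z)))))) z)))) (n 33 (n 0 z (n 0 z (n 1 (n 7741699 z (n 7741699 z (n
 7741699 z (n 7741699 z (n 7741699 z (n 7741699 z z)))))) (n 1 (n 7741699 z (n 7741699 z (n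
 7741699 z (n 7741699 z (n 7741699 z (n 7741699 z z)))))) (n 1 (n 7606355 z (n 7606355 z (n
 7606355 z (n 7606355 z (n 7606355 z (n 7606355 z z)))))) z))))) (n 147 (n 1 (n 1276 z (n 1276 z
 (n 1996 z (n 1276 z (n 1276 z (n 1276 z z)))))) (n 1 (n 7540835 z (n 7540835 z (n 7540835 z (n
 7540835 z (n 7540835 z (n 7540835 z z)))))) (n 1 (n 7741699 z (n 7741699 z (n 7741699 z (n
 7741699 z (n 7741699 z (n 7741699 z z)))))) z))) (n 171 (n 1 (n 1468 z (n 1468 z (n 1468 z (n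
 5379899 z (n 28 z (n 1468 z z)))))) (n 1 (n 7540835 z (n 7540835 z (n 7540835 z (n 7540835 z (n
 7540835 z (n 7540835 z z)))))) (n 1 (n 7741699 z (n 7741699 z (n 7741699 z (n 7741699 z (n
 7741699 z (n 7741699 z z)))))) z))) (n 13 (n 0 z (n 1 (n 7540835 z (n 7540835 z (n 7540835 z (n
 7540835 z (n 7540835 z (n 7540835 z z)))))) (n 1 (n 4156 z (n 4156 z (n 10 z (n 4156 z (n 4156
 z (n 4156 z z)))))) (n 0 z (n 0 z (n 1 (n 7749651 z (n 7749651 z (n 7749651 z (n 7749651 z (n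
 7749651 z (n 7749651 z z)))))) z)))))) (n 237 (n 1 (n 7741699 z (n 7540835 z (n 7540835 z (n
 7540835 z (n 7540835 z (n 7540835 z z)))))) (n 0 z (n 1 (n 7741699 z (n 7540835 z (n 7540835 z
 (n 7540835 z (n 7540835 z (n 7540835 z z)))))) (n 0 z (n 1 (n 7741699 z (n 4940 z (n 4940 z (n
 4940 z (n 7753995 z (n 7672843 z z)))))) (n 1 (n 7741699 z (n 7749651 z (n 7749651 z (n 7749651
 z (n 7749651 z (n 7749651 z z)))))) (n 1 (n 7741699 z (n 4940 z (n 4940 z (n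
 0x39ba1842743837b8a8f718085856b89777a7a8285847f837583768b74947e85857a8b817d7e8585847f7b8581805e927c8c7a848e85757e0089
 z (n 7753995 z (n 7672843 z z)))))) (n 1 (n 7741699 z (n 4331355 z (n 4331355 z (n 4331355 z (n
 7753995 z (n 4331355 z z)))))) (n 1 (n 7741699 z (n 7672843 z (n 7753995 z (n 4940 z (n 4940 z
 (n 4940 z z)))))) (n 1 (n 7741699 z (n 7672843 z (n 7753995 z (n 4940 z (n 3278683 z (n 4940 z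
 z)))))) (n 1 (n 7741699 z (n 3282779 z (n 3282779 z (n 3282779 z (n 7753995 z (n 3282779 z
 z)))))) (n 0 z (n 0 z (n 0 z (n 0 z (n 0 z (n 0 z (n 1 (n 7741699 z (n 7749651 z (n 7749651 z
 (n 7749651 z (n 7749651 z (n 7749651 z z)))))) (n 1 (n 7741699 z (n 4940 z (n 4940 z (n 18 z (n
 6492275 z (n 7672843 z z)))))) (n 0 z (n 1 (n 7741699 z (n 7672843 z (n 4940 z (n 7753995 z (n
 6424411 z (n 4940 z z)))))) (n 0 z (n 0 z (n 0 z (n 1 (n 7741699 z (n 4940 z (n 4940 z (n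
 7753995 z (n 7672843 z (n 4940 z z)))))) (n 0 z (n 1 (n 7741699 z (n 7749651 z (n 7749651 z (n
 7749651 z (n 7749651 z (n 7749651 z z)))))) (n 1 (n 7741699 z (n 4940 z (n 7672843 z (n 7753995
 z (n 26 z (n 4940 z z)))))) (n 0 z z))))))))))))))))))))))))))))) (n 201 (n 0 z (n 1 (n 7741699
 z (n 7672843 z (n 5443699 z (n 268 z (n 268 z (n 268 z z)))))) (n 1 (n 7741699 z (n 7749651 z
 (n 7749651 z (n 7749651 z (n 7749651 z (n 7749651 z z)))))) (n 1 (n 7741699 z (n 7749651 z (n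
 7749651 z (n 7749651 z (n 7749651 z (n 7749651 z z)))))) z)))) z))))))) (n 0 (n 0 (n 0 z (n 0 z
 (n 0 z (n 0 z z)))) (n 0 (n 0 z (n 0 z (n 0 z z))) (n 0 (n 0 z (n 0 z z)) (n 0 (n 0 z z) z))))
 (n 0 (n 183 (n 0 (n 0 z (n 0 z (n 0 (n
 0x6c3b43b200c021ce1c9006090eac648037c8b628a997b848d887f74a6866e5c847c83908b7b797a7a78b56c8f7e7c85699c617a7d8f7f88767e8182797b7e877b89831809
 z z) (n 0 (n
 0x21da1d8806443a43a100c8873873203830c8ea640772a55bc9a826cdf6e2d0a3dc4d58603a491e8ba9a6862b1f9a2495d5e69b996795170b5e9e12001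
 z z) z)))) (n 0 (n 0 z (n 0 z (n 0 (n
 0x174287130180ea908640379f91d79e89d8217dd8218a47de7e37a082186081d8a37e07e186081f81f82086189e81f8601001
 z z) (n 0 (n
 0x876874201810e90e64038607e08607e182082181f8208207e082082082182082082081f7e08208208208208208208201001
 z z) z)))) (n 0 (n 0 z (n 0 (n
 0x470ea0a87585f8e46e07607637de8208a28207e27e17e082189e8217e086381f7df82076382181f8217e00081 z
 z) (n 0 (n
 0x170e4028728208617a07e07e17e082086182082082082082081f8207df8208208207e08208208207e08600081 z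
 (n 8794483 z z)) (n 0 (n
 0x570e62a8738df9266a08266a355a9ea95d7657a389f7ae79f9e071c8a376072475a6605228218628e489e0081 z
 (n 8790131 z z)) z)))) (n 0 (n 0 z (n 0 z (n 0 z (n 0 z z)))) (n 0 (n 0 z (n 0 z (n 0 (n
 8589411 z z) (n 0 (n 8589411 z z) z)))) (n 0 (n 0 z (n 0 z (n 0 (n 8654931 z z) (n 0 (n 8654931
 z z) z)))) (n 0 (n 0 z (n 0 z (n 0 (n 8654931 z z) (n 0 (n 8654931 z z) z)))) (n 0 (n 0 z (n 0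
 z (n 0 (n 8654931 z z) (n 0 (n 8654931 z z) z)))) z)))))))) (n 159 (n 0 (n 0 z (n 0 z (n 0 z (n
 0 z z)))) (n 0 (n 0 z (n 0 z (n 0 (n
 0x75c218828438576949d647f898a57916e74748389887d876c866d9568a57c8a8b7494817a7c888a8880768981813ea2779774899b89697c0089
 z (n 8794483 z z)) (n 0 (n
 0x49c2185284383798d926e7f8587668b7479798286867e857384748e71987d8687788d817c7e858785807a86818055967a8f79859085717e0089
 z (n 8790131 z z)) z)))) (n 0 (n 0 z (n 0 z (n 0 (n 8798227 z z) (n 0 (n 8798227 z z) z)))) (n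
 0 (n 0 z (n 0 z (n 0 z (n 0 z z)))) (n 0 (n 0 z (n 0 (n 4397099 z z) (n 0 z (n 0 z z)))) (n 0
 (n 0 z (n 0 z (n 0 (n 8848923 z (n 8794483 z z)) (n 0 (n
 0x121d6104c0e0b0a90a62077f8d8c74807b7e82927968748b967a688291628e4b93866a96809d8a76608e7f70a06a8c95747282975e6e7c8a89985f90861009
 z (n 8790131 z z)) z)))) z)))))) (n 249 (n 0 (n 0 z (n 0 z (n 0 (n 8589411 z z) (n 0 (n 8589411
 z z) z)))) (n 0 (n 0 z (n 0 z (n 0 (n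
 0x10e90e86038207e089f81f8208208207e18208208208208208208208208208208208208208208208208200801 z
 z) (n 0 (n
 0x2e0c9d4100e150e4e806070387687600182c3a43a001c021d619000e0d0e70e60039186709e8d8f779493804c7a9eb24b737f946a9c4f8d7b8183b398ac6262977889816a928f6f7279796f69708e78986f92813009
 z z) z)))) (n 0 (n 0 z (n 0 z (n 0 z (n 0 z z)))) (n 0 (n 0 (n 8853067 z z) (n 0 (n
 0x3dc3a85a875758e878b707e79787183739373628c89807f73a066897a7897a37a7884887c609587826e8470857778926c928189876e86820089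
 z z) (n 0 z (n 0 z z)))) (n 0 (n 0 z (n 0 (n
 0x470e60a87385f8e46e07607637de8208a28207e27e17e082189e8217e086381f7df82076382181f8217e00081 z
 z) (n 0 (n
 0xbb0e614873b9fc258587bbc21387a79c645a468bc1e474658d137706fb2ae2f669b7213c7c0a88a9769980081 z
 (n 8794483 z z)) (n 0 (n 8853003 z (n 8790131 z z)) z)))) (n 0 (n 0 z (n 0 z (n 0 z (n 0 z
 z)))) (n 0 (n 0 z (n 0 z (n 0 z (n 0 z z)))) (n 0 (n 0 z (n 0 z (n 0 z (n 0 z z)))) (n 0 (n 0 z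
 (n 0 z (n 0 z (n 0 z z)))) (n 0 (n 0 z (n 0 z (n 0 z (n 0 z z)))) (n 0 (n 0 z (n 0 z (n 0 z (n
 0 z z)))) (n 0 (n 0 (n 8790275 z z) (n 0 z (n 0 z (n 0 z z)))) z)))))))))))) (n 183 (n 0 (n 0 z
 (n 0 z (n 0 z (n 0 z z)))) (n 0 (n 0 z (n 0 z (n 0 z (n 0 z z)))) (n 0 (n 0 z (n 0 z (n 0 z (n
 0 z z)))) (n 0 (n 0 z (n 0 z (n 0 (n 7743563 z z) (n 0 (n
 0x6dc320e18649b69929b808f88828d7f62589fb76264728d5f9064808c8b836ec29c5b658c857683768273876c7d66866a7e6eac8b937d820089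
 z z) z)))) (n 0 (n 0 z (n 0 z (n 0 z (n 0 z z)))) (n 0 (n 0 z (n 0 z (n 0 z (n 0 z z)))) (n 0
 (n 0 z (n 0 z (n 0 z (n 0 z z)))) (n 0 (n 0 z (n 0 z (n 0 (n 8798227 z (n 8798227 z z)) (n 0 (n
 8798227 z (n 8798227 z z)) z)))) z)))))))) (n 57 (n 0 (n 0 z (n 0 z (n 0 z (n 0 z z)))) (n 0 (n
 0 z (n 0 z (n 0 z (n 0 z z)))) (n 0 (n 0 z (n 0 z (n 0 z (n 0 z z)))) (n 0 (n 0 z (n 0 z (n 0 z
 (n 0 z z)))) (n 0 (n 0 z (n 0 z (n 0 z (n 0 z z)))) (n 0 (n 0 z (n 0 z (n 0 (n 8654931 z z) (n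
 0 (n 8654931 z z) z)))) (n 0 (n 0 z (n 0 z (n 0 (n
 0x12196195006090a90a8407917d847e817f7c97917f717092a27479827e73717b84797e7d7c92887279899572916d97877c79838961806e8872887b88801009
 z (n 8794483 z z)) (n 0 (n
 0x1b0e40c87286082181f7e17e07e089f8207de7e086082182286186189f85f8218208207df8617e08208200081 z
 (n 8790131 z z)) z)))) z))))))) (n 171 (n 0 (n 0 z (n 0 z (n 0 z (n 0 z z)))) (n 0 (n 0 z (n 0
 z (n 0 z (n 0 z z)))) (n 0 (n 0 (n 8790275 z z) (n 0 (n 8790275 z z) (n 0 z (n 0 z z)))) z)))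
 (n 519 (n 0 (n 0 z (n 0 z (n 0 (n 8589411 z z) (n 0 (n 8589411 z z) z)))) (n 0 (n 0 z (n 0 z (n
 0 z (n 0 z z)))) (n 0 (n 0 z (n 0 z (n 0 z (n 0 z z)))) (n 0 (n 0 z (n 0 z (n 0 (n
 0x1ac189438318e8791a8818d709f88803d59a4aa5c74589357974a978d7892bfbd9b57748d70748a629075686a826b6082727b8397a18f7b0089
 z z) (n 0 (n
 0x16c188fb8318c858da0818a7399867f4b619da16377608f5e9254928b798fb2b0955f778b747688688d776d6f82706681757d83939a8c7c0089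
 z z) z)))) (n 0 (n 0 z (n 0 z (n 0 z (n 0 z z)))) (n 0 (n 0 z (n 0 z (n 0 (n 8872731 z z) (n 0
 (n 7673915 z z) z)))) (n 0 (n 0 z (n 0 z (n 0 z (n 0 z z)))) (n 0 (n 0 z (n 0 z (n 0 (n
 0x843751201810e6e642037df8627e081f7a279e8a186381f7e37e082282181f8617df86086182082079f82185f7e08201001
 z z) (n 0 (n
 0x43b43b100c0876871201810e70e24038207e085f8208208218208218208208208208208608208208208208208208208208208208201801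
 z z) z)))) (n 0 (n 0 z (n 0 z (n 0 z (n 0 z z)))) (n 0 (n 0 z (n 0 z (n 0 z (n 0 z z))))
 z)))))))))) (n 495 (n 0 (n 0 z (n 0 z (n 0 (n 7735371 z z) (n 0 (n
 0x1ac101438208e8791a8818d709f88803d59a4aa5c74589357974a978d7892bfbd9b57748d70748a629075686a826b6082727b8397a18f7b0089
 z z) z)))) (n 0 (n 0 z (n 0 z (n 0 z (n 0 z z)))) (n 0 (n 0 z (n 0 z (n 0 z (n 0 z z)))) (n 0
 (n 0 z (n 0 z (n 0 z (n 0 z z)))) (n 0 (n 0 z (n 0 z (n 0 (n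
 0x161ce1c980e090eb0c64077f8d8c74807b7e82927968748b967a688291628e4b93866a96809d8a76608e7f70a06a8c95747282975e6e7c8a89985f90861009
 z z) (n 0 (n 8853003 z z) z)))) (n 0 (n 0 z (n 0 z (n 0 (n 7747659 z z) (n 0 (n
 0x10e50e06038207df8a081e8a07a18217e082182081f8208208a17e08208607e18207e081f7e081f8208200801 z
 z) z)))) (n 0 (n 0 z (n 0 z (n 0 (n 8790275 z z) (n 0 (n 8790275 z z) z)))) (n 0 (n 0 z (n 0 z
 (n 0 z (n 0 z z)))) (n 0 (n 0 z (n 0 z (n 0 (n 8654931 z z) (n 0 (n 8654931 z z) z)))) (n 0 (n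
 0 z (n 0 z (n 0 z (n 0 z z)))) (n 0 (n 0 z (n 0 (n
 0x5dc3806a870857790986a7f8789608e7277778387877e866f8571916d9e7d87897690817b7d87888680778880814a9b7992768795876e7d0089
 z z) (n 0 z (n 0 z z)))) z))))))))))) (n 483 (n 0 (n 0 z (n 0 z (n 0 z (n 0 z z)))) (n 0 (n 0 z
 (n 0 z (n 0 z (n 0 z z)))) (n 0 (n 0 z (n 0 z (n 0 z (n 0 z z)))) (n 0 (n 0 z (n 0 z (n 0 z (n
 0 z z)))) (n 0 (n 0 (n 8654931 z (n 8654931 z z)) (n 0 (n 8654931 z (n 8654931 z z)) (n 0 z (n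
 0 z z)))) (n 0 (n 0 z (n 0 z (n 0 (n 8790275 z (n 8790275 z z)) (n 0 (n 8790275 z (n 8790275 z
 z)) z)))) (n 0 (n 0 z (n 0 z (n 0 z (n 0 z z)))) (n 0 (n 0 (n 8790275 z z) (n 0 (n 8790275 z z)
 (n 0 z (n 0 z z)))) z)))))))) (n 13 (n 0 (n 0 z (n 0 z (n 0 z (n 0 z z)))) (n 0 (n 0 z (n 0 z
 (n 0 z (n 0 z z)))) (n 0 (n 0 z (n 0 z (n 0 z (n 0 z z)))) (n 0 (n 0 z (n 0 z (n 0 z (n 0 z
 z)))) (n 0 (n 0 z (n 0 z (n 0 z (n 0 z z)))) (n 0 (n 0 z (n 0 z (n 0 z (n 0 z z)))) z)))))) (n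
 237 (n 0 (n 0 z (n 0 z (n 0 z (n 0 z z)))) (n 0 (n 0 z (n 0 (n 8589411 z z) (n 0 z (n 0 z z))))
 (n 0 (n 0 z (n 0 z (n 0 z (n 0 z z)))) (n 0 (n 0 z (n 0 z (n 0 (n 8589411 z (n 8589411 z z)) (n
 0 (n 8589411 z (n 8589411 z z)) z)))) (n 0 (n 0 (n
 0x270e80a87481f8a37607e07a27de81f8a27e08217e17e081f85f8217e182281f7df8607628617e08217e00081 z
 (n 0x370c80a83285f8a47607a07a37df8208a28207e17e17e082085e8217e086281f7df8207a27e18207df8200081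
 z z)) (n 0 (n
 0x370c80a83285f8a47607a07a37df8208a28207e17e17e082085e8217e086281f7df8207a27e18207df8200081 z
 (n 0x370c80a83285f8a47607a07a37df8208a28207e17e17e082085e8217e086281f7df8207a27e18207df8200081
 z z)) (n 0 (n
 0x170e4028728208617a07e07e17e082086182082082082082081f8207df8208208207e08208208207e08600081 z
 (n 8794483 z z)) (n 0 (n
 0x58738208607a08207e07e08608608208208208618208208217df8608218208207e08218208208200041 z (n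
 8790131 z z)) z)))) (n 0 (n 0 z (n 0 z (n 0 z (n 0 z z)))) (n 0 (n 0 z (n 0 z (n 0 (n
 0xbb0e614873b9fc258587bbc21387a79c645a468bc1e474658d137706fb2ae2f669b7213c7c0a88a9769980081 z
 (n
 0x75c218828438576949d647f898a57916e74748389887d876c866d9568a57c8a8b7494817a7c888a8880768981813ea2779774899b89697c0089
 z z)) (n 0 (n
 0xb0e6138738208a26e17a07a275f8608a08207e07e07e182085f82079e8a18618217e07a082081f8217e00081 z (n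
 0x5dc21862843847890976a7f8788608e7277768387877e86708571906d9e7d88897690817b7d87888680788881814b9b7993768795876e7d0089
 z z)) z)))) (n 0 (n 0 z (n 0 z (n 0 (n 4331611 z (n 4331611 z z)) (n 0 (n 4331611 z (n 4331611
 z z)) z)))) (n 0 (n 0 z (n 0 z (n 0 z (n 0 z z)))) (n 0 (n 0 z (n 0 z (n 0 z (n 0 z z)))) (n 0
 (n 0 z (n 0 z (n 0 z (n 0 z z)))) (n 0 (n 0 z (n 0 z (n 0 (n 8872731 z (n 8794483 z z)) (n 0 (n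
 0x170820a84185f8a27a08227a175e8a38607e17e28607e47df8a07df8207e07e17df7a07608608218218600081 z
 (n 8790131 z z)) z)))) (n 0 (n 0 z (n 0 z (n 0 (n 8848923 z (n 8848923 z z)) (n 0 (n
 0x170e8028748208617a07e07e17e082086182082082082082081f8207df8208208207e08208208207e08600081 z
 (n
 0x5dc2106a842847890976a7f8789608e7177778387877e866f8571916d9e7d89897690817b7c87888680788780814b9b7a93768795886e7d0089
 z z)) z)))) (n 0 (n 0 z (n 0 (n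
 0x75c320828648576949d647f898a57916e74748389887d876c866d9568a57c8a8b7494817a7c888a8880768981813ea2779774899b89697c0089
 z z) (n 0 z (n 0 z z)))) (n 0 (n 0 z (n 0 z (n 0 z (n 0 z z)))) (n 0 (n 0 z (n 0 z (n 0 z (n 0
 z z)))) (n 0 (n 0 z (n 0 z (n 0 z (n 0 z z)))) (n 0 (n 0 z (n 0 z (n 0 z (n 0 z z)))) (n 0 (n 0
 (n 8872731 z z) (n 0 (n 8872731 z z) (n 0 z (n 0 z z)))) (n 0 (n 0 z (n 0 z (n 0 z (n 0 z z))))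
 (n 0 (n 0 z (n 0 z (n 0 (n 8848923 z (n 8794483 z z)) (n 0 (n
 0x75c108828218576949d647f898a57916e74748389887d876c866d9568a57c8a8b7494817a7c888a8880768981813ea2779774899b89697c0089
 z (n 8790131 z z)) z)))) (n 0 (n 0 z (n 0 z (n 0 z (n 0 z z)))) (n 0 (n 0 (n 8722235 z z) (n 0
 (n 8722235 z z) (n 0 (n
 0xa70643a83299e9aa5e082b6253d7af09dc7287258e077675fb1f69a9257206a569851f3238638639678dc0081 z
 (n 0x170e4028728208617a07e07e17e082086182082082082082081f8207df8208208207e08208208207e08600081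
 z z)) (n 0 (n
 0x470641a8328df8e56e08267225db9a891e7a47a28a07ec79f96075d8a279f76375b6a05e18618628a489e0081 z
 (n 0x970643a83299e9aa5e082b6243d6b309dc6e87258e077575eae069a9257206a66d751f3638628248e78dc0081
 z z)) z)))) (n 0 (n 0 z (n 0 z (n 0 z (n 0 z z)))) (n 0 (n 0 z (n 0 z (n 0 (n
 0x5dc1906a83284779197688087895f8e7177768386867e86708571916d9e7d888a7690817b7d86888781778780804a9b7993768795876e7f0089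
 z (n
 0x5dc1906a832847890986a7f87895f8e7177778287867e86708570906d9e7d88887690817b7d87888680788781814b9b7992778796876e7d0089
 z z)) (n 0 (n 6494331 z (n 6494331 z z)) z)))) (n 0 (n 0 z (n 0 z (n 0 z (n 0 z z)))) (n 0 (n 0
 z (n 0 z (n 0 (n 8798227 z (n 8798227 z z)) (n 0 (n 8798227 z (n 8798227 z z)) z)))) (n 0 (n 0
 z (n 0 z (n 0 z (n 0 z z)))) (n 0 (n 0 (n
 0x150841b82185f8a47607a07a37df8208a28207e17e17e082085e8217e086281f7df8207a27e18207df8200081 z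
 (n 0x150841b82185f8a47607a07a37df8208a28207e17e17e082085e8217e086281f7df8207a27e18207df8200081
 z z)) (n 0 (n
 0x150841b82185f8a47607a07a37df8208a28207e17e17e082085e8217e086281f7df8207a27e18207df8200081 z
 (n 0x150841382181f8a37607a07a27df81f8618207e07e17e082085f8217e08618608208207e27e08208607e00081
 z z)) (n 0 (n
 0x58748208607a08207e07e08608608208208208618208208217df8608218208207e08218208208200041 z (n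
 8794483 z z)) (n 0 (n
 0x150841b82185f8a47607a07a37df8208a28207e17e17e082085e8217e086281f7df8207a27e18207df8200081 z
 (n 8790131 z z)) z)))) z))))))))))))))))))))))))))))) (n 617 (n 0 (n 0 z (n 0 z (n 0 z (n 0 z
 z)))) (n 0 (n 0 z (n 0 (n 8790275 z z) (n 0 z (n 0 z z)))) (n 0 (n 0 z (n 0 z (n 0 z (n 0 z
 z)))) (n 0 (n 0 z (n 0 z (n 0 (n 8790275 z (n 8790275 z z)) (n 0 (n 8790275 z (n 8790275 z z))
 z)))) (n 0 (n 0 (n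
 0x270e80a87481f8a37607e07a27de81f8a27e08217e17e081f85f8217e182281f7df8607628617e08217e00081 z
 (n 0x150641b83085f8a47607a07a37df8208a28207e17e17e082085e8217e086281f7df8207a27e18207df8200081
 z z)) (n 0 (n
 0x150641b83085f8a47607a07a37df8208a28207e17e17e082085e8217e086281f7df8207a27e18207df8200081 z
 (n 0x150641b83085f8a47607a07a37df8208a28207e17e17e082085e8217e086281f7df8207a27e18207df8200081
 z z)) (n 0 (n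
 0x150641b83085f8a47607a07a37df8208a28207e17e17e082085e8217e086281f7df8207a27e18207df8200081 z
 (n 8794483 z z)) (n 0 (n
 0x170e8028748208617a07e07e17e082086182082082082082081f8207df8208208207e08208208207e08600081 z
 (n 8790131 z z)) z)))) (n 0 (n 0 z (n 0 z (n 0 z (n 0 z z)))) (n 0 (n 0 z (n 0 z (n 0 (n
 0x5dc1806a830847890976a7f8788608e7177778388877e866f8571916d9e7c88897690817b7d8788877f788881804b9b7992768796876e7d0089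
 z (n
 0x5dc1806a830847790976a7f87885f8e7177778287867e866f8571916d9e7d87897690817b7d86888680788781814b9d7993768796876e7d0089
 z z)) (n 0 (n
 0xbb0e414872b9fc258587bbc21387a79c645a468bc1e474658d137706fb2ae2f669b7213c7c0a88a9769980081 z
 (n
 0x75c180828308576949d647f898a57916e74748389887d876c866d9568a57c8a8b7494817a7c888a8880768981813ea2779774899b89697c0089
 z z)) z)))) (n 0 (n 0 z (n 0 z (n 0 (n 6568059 z (n 6568059 z z)) (n 0 (n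
 0x170e8028748208617a07e07e17e082086182082082082082081f8207df8208208207e08208208207e08600081 z
 (n
 0x3dc2005a840758e878b707e79787183739373628c89807f73a066897a7897a37a7884887c609587826e8470857778926c928189876e86820089
 z z)) z)))) (n 0 (n 0 z (n 0 z (n 0 z (n 0 z z)))) (n 0 (n 0 z (n 0 z (n 0 z (n 0 z z)))) (n 0
 (n 0 z (n 0 z (n 0 z (n 0 z z)))) (n 0 (n 0 z (n 0 z (n 0 (n
 0xc70c6528639de9ec52082d5662d4bf4a5b6aa6e691f77b71eba06589666e066769545f2238628249698db0081 z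
 (n 8794483 z z)) (n 0 (n 8848939 z (n 8790131 z z)) z)))) (n 0 (n 0 z (n 0 z (n 0 (n
 0xb0e8038748208617a07e07e17df8608608208207e08218208208207df8618218217e07e08208208218200081 z (n
 0x970862a84389d9ea5a08e44e569c7218e37e266266762d7a491c9a179e8e48a07638602ab768722a6361f0081 z
 z)) (n 0 (n 8853003 z (n 8853003 z z)) z)))) (n 0 (n 0 z (n 0 (n 8722235 z z) (n 0 z (n 0 z
 z)))) (n 0 (n 0 z (n 0 z (n 0 z (n 0 z z)))) (n 0 (n 0 z (n 0 z (n 0 z (n 0 z z)))) (n 0 (n 0 z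
 (n 0 z (n 0 z (n 0 z z)))) (n 0 (n 0 z (n 0 z (n 0 z (n 0 z z)))) (n 0 (n 0 (n 8722235 z z) (n
 0 (n 8722235 z z) (n 0 z (n 0 z z)))) (n 0 (n 0 z (n 0 z (n 0 z (n 0 z z)))) (n 0 (n 0 z (n 0 z
 (n 0 (n
 0x75c218828438576949d647f898a57916e74748389887d876c866d9568a57c8a8b7494817a7c888a8880768981813ea2779774899b89697c0089
 z (n 8794483 z z)) (n 0 (n 8853003 z (n 8790131 z z)) z)))) (n 0 (n 0 z (n 0 z (n 0 z (n 0 z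
 z)))) (n 0 (n 0 (n
 0xb0e8138748208a26e17a07a275f8608a08207e07e07e182085f82079e8a18618217e07a082081f8217e00081 z z)
 (n 0 (n
 0x370ec0a84285f8a47607a07a37df8208a28207e17e17e082085e8217e086281f7df8207a27e18207df8200081 z
 z) (n 0 (n
 0xb0e8138748208a26e17a07a275f8608a08207e07e07e182085f82079e8a18618217e07a082081f8217e00081 z (n
 0x770843284295f928660829664459a6d99d7277248df7b279fa606db9247206e471959f4628618238e689d0081 z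
 z)) (n 0 (n
 0x770843284295f9276208286644d8a6d99d7267648e07b175fa206db8e47207257195e04638218238e68dd0081 z
 (n 0x170e8028748208617a07e07e17e082086182082082082082081f8207df8208208207e08208208207e08600081
 z z)) z)))) (n 0 (n 0 z (n 0 z (n 0 z (n 0 z z)))) (n 0 (n 0 z (n 0 z (n 0 (n 6424667 z (n
 6424667 z z)) (n 0 (n 6424667 z (n 6424667 z z)) z)))) (n 0 (n 0 z (n 0 z (n 0 z (n 0 z z))))
 (n 0 (n 0 z (n 0 z (n 0 (n 8589411 z (n 8589411 z z)) (n 0 (n 8589411 z (n 8589411 z z)) z))))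
 (n 0 (n 0 z (n 0 z (n 0 z (n 0 z z)))) (n 0 (n 0 (n
 0x270e80a87481f8a37607e07a27de81f8a27e08217e17e081f85f8217e182281f7df8607628617e08217e00081 z
 (n 0x370c80a83285f8a47607a07a37df8208a28207e17e17e082085e8217e086281f7df8207a27e18207df8200081
 z z)) (n 0 (n
 0x370c80a83285f8a47607a07a37df8208a28207e17e17e082085e8217e086281f7df8207a27e18207df8200081 z
 (n 0x270c80a83285f8a37607a17e27df8618a18207e17e182082085f8217e086181f7df81f7a282181f8218200081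
 z z)) (n 0 (n
 0x170e4028728208617a07e07e17e082086182082082082082081f8207df8208208207e08208208207e08600081 z
 (n 8794483 z z)) (n 0 (n
 0x58738208607a08207e07e08608608208208208618208208217df8608218208207e08218208208200041 z (n
 8790131 z z)) z)))) z))))))))))))))))))))))))))))) (n 603 (n 0 (n 0 z (n 0 z (n 0 (n
 0x58748208607a08207e07e08608608208208208618208208217df8608218208207e08218208208200041 z (n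
 8794483 z z)) (n 0 (n
 0x150861b83185f8a47607a07a37df8208a28207e17e17e082085e8217e086281f7df8207a27e18207df8200081 z
 (n 8790131 z z)) z)))) (n 0 (n 0 z (n 0 z (n 0 (n 8848923 z z) (n 0 (n
 0x470e80a87485f8e46e07607637de8208a28207e27e17e082189e8217e086381f7df82076382181f8217e00081 z
 z) z)))) (n 0 (n 0 z (n 0 z (n 0 (n 8848923 z (n 8794483 z z)) (n 0 (n 3213435 z (n 8790131 z
 z)) z)))) (n 0 (n 0 z (n 0 z (n 0 (n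
 0xb0e80b8748208a27207a17a275f8608a08207e07e07e182085f8207de8618618217e07a082081f8217e00081 z (n
 0x75c218828438576949d647f898a57916e74748389887d876c866d9568a57c8a8b7494817a7c888a8880768981813ea2779774899b89697c0089
 z z)) (n 0 (n 8853003 z (n 8853003 z z)) z)))) (n 0 (n 0 z (n 0 (n 8728947 z (n
 0x370800a81085f8a47607a07a37df8208a28207e17e17e082085e8217e086281f7df8207a27e18207df8200081 z
 z)) (n 0 z (n 0 z z)))) (n 0 (n 0 z (n 0 z (n 0 z (n 0 z z)))) (n 0 (n 0 z (n 0 z (n 0 z (n 0 z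
 z)))) (n 0 (n 0 z (n 0 z (n 0 z (n 0 z z)))) (n 0 (n 0 z (n 0 z (n 0 z (n 0 z z)))) (n 0 (n 0 z
 (n 0 z (n 0 (n
 0x470e80a87485f8e46e07607637de8208a28207e27e17e082189e8217e086381f7df82076382181f8217e00081 z
 (n
 0x3dc1885a831758e878b707e79787183739373628c89807f73a066897a7897a37a7884887c609587826e8470857778926c928189876e86820089
 z z)) (n 0 (n 8853003 z (n 8853003 z z)) z)))) (n 0 (n 0 z (n 0 z (n 0 z (n 0 z z)))) (n 0 (n 0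
 z (n 0 z (n 0 z (n 0 z z)))) (n 0 (n 0 z (n 0 z (n 0 z (n 0 z z)))) (n 0 (n 0 z (n 0 z (n 0 z
 (n 0 z z)))) (n 0 (n 0 z (n 0 z (n 0 z (n 0 z z)))) (n 0 (n 0 z (n 0 (n 8721419 z z) (n 0 z (n
 0 z z)))) (n 0 (n 0 z (n 0 (n 8802571 z z) (n 0 (n 8802571 z (n 8802571 z z)) (n 0 (n 8802571 z
 (n 8802571 z z)) z)))) (n 0 (n 0 z (n 0 z (n 0 (n
 0x75c3a0828748576949d647f898a57916e74748389887d876c866d9568a57c8a8b7494817a7c888a8880768981813ea2779774899b89697c0089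
 z (n
 0x61d21c0c060438c20181c00068710b7020070e216e8608207e08218207e182082186082081f8208208208207df8608208608208207e08208208202001
 z z)) (n 0 (n 8853003 z (n 8853003 z z)) z)))) (n 0 (n 0 z (n 0 z (n 0 (n 8848923 z (n 8848923
 z z)) (n 0 (n
 0x438c38181c1874840303810e70e60077de8a07e086082085f85f8208207e18208208207e08608208208218208208208208218208201801
 z (n
 0x21c61c180e0c3a420181c1876876003830ed0c60077dc96066282071f79d91f8a175d82082082382089f8a47df86286281f8217608237de8238202001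
 z z)) z)))) (n 0 (n 0 z (n 0 z (n 0 z (n 0 z z)))) (n 0 (n 0 z (n 0 z (n 0 z (n 0 z z)))) (n 0
 (n 0 z (n 0 z (n 0 (n
 0x170c0028608208617a07e07e17e082086182082082082082081f8207df8208208207e08208208207e08600081 z
 (n 0x170c0028608208617a07e07e17e082086182082082082082081f8207df8208208207e08208208207e08600081
 z z)) (n 0 (n
 0xb0e6138738208a26e17a07a275f8608a08207e07e07e182085f82079e8a18618217e07a082081f8217e00081 z (n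
 0x170c0028608208617a07e07e17e082086182082082082082081f8207df8208208207e08208208207e08600081 z
 z)) z)))) (n 0 (n 0 z (n 0 z (n 0 z (n 0 z z)))) (n 0 (n 0 z (n 0 z (n 0 z (n 0 z z)))) (n 0 (n
 0 z (n 0 z (n 0 z (n 0 z z)))) (n 0 (n 0 z (n 0 z (n 0 (n 8802571 z (n 8794483 z z)) (n 0 (n
 8802571 z (n 8790131 z z)) z)))) (n 0 (n 0 z (n 0 z (n 0 z (n 0 z z)))) (n 0 (n 0 z (n 0 (n
 8728947 z (n 8802571 z z)) (n 0 (n 8802571 z (n 8794483 z z)) (n 0 (n 8802571 z (n 8790131 z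
 z)) z)))) (n 0 (n 0 z (n 0 z (n 0 z (n 0 z z)))) (n 0 (n 0 z (n 0 z (n 0 z (n 0 z z)))) (n 0 (n
 0 z (n 0 z (n 0 (n 8802571 z (n 8802571 z z)) (n 0 (n 8802571 z (n 8802571 z z)) z)))) (n 0 (n
 0 z (n 0 (n
 0x170e6028738208617a07e07e17e082086182082082082082081f8207df8208208207e08208208207e08600081 z
 z) (n 0 z (n 0 z z)))) (n 0 (n 0 (n
 0x150821b84085f8a47607a07a37df8208a28207e17e17e082085e8217e086281f7df8207a27e18207df8200081 z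
 z) (n 0 z (n 0 z (n 0 z z)))) (n 0 (n 0 z (n 0 z (n 0 (n 4262011 z (n 8794483 z z)) (n 0 (n
 8853003 z (n 8790131 z z)) z)))) (n 0 (n 0 (n
 0xb0e8138748208a26e17a07a275f8608a08207e07e07e182085f82079e8a18618217e07a082081f8217e00081 z (n
 8722235 z z)) (n 0 z (n 0 z (n 0 z z)))) (n 0 (n 0 z (n 0 z (n 0 z (n 0 z z)))) (n 0 (n 0 z (n
 0 z (n 0 (n 8790275 z (n 8790275 z z)) (n 0 (n 8790275 z (n 8790275 z z)) z)))) (n 0 (n 0 z (n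
 0 z (n 0 z (n 0 z z)))) (n 0 (n 0 z (n 0 (n 8868147 z (n 8868147 z z)) (n 0 z (n 0 z z)))) (n 0
 (n 0 z (n 0 z (n 0 z (n 0 z z)))) (n 0 (n 0 z (n 0 (n
 0x17082028418208617a07e07e17e082086182082082082082081f8207df8208208207e08208208207e08600081 z
 z) (n 0 z (n 0 z z)))) (n 0 (n 0 z (n 0 z (n 0 z (n 0 z z)))) (n 0 (n 0 z (n 0 z (n 0 z (n 0 z
 z)))) (n 0 (n 0 z (n 0 z (n 0 z (n 0 z z)))) (n 0 (n 0 (n 8872731 z z) (n 0 (n 8872731 z z) (n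
 0 z (n 0 z z)))) (n 0 (n 0 z (n 0 z (n 0 z (n 0 z z)))) (n 0 (n 0 (n
 0xb0e8138748208a26e17a07a275f8608a08207e07e07e182085f82079e8a18618217e07a082081f8217e00081 z (n
 0x17082028418208617a07e07e17e082086182082082082082081f8207df8208208207e08208208207e08600081 z
 z)) (n 0 (n
 0x17082028418208617a07e07e17e082086182082082082082081f8207df8208208207e08208208207e08600081 z
 (n 0x17082028418208617a07e07e17e082086182082082082082081f8207df8208208207e08208208207e08600081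
 z z)) (n 0 z (n 0 z z)))) (n 0 (n 0 z (n 0 z (n 0 z (n 0 z z)))) (n 0 (n 0 z (n 0 (n
 0x170e6028738208617a07e07e17e082086182082082082082081f8207df8208208207e08208208207e08600081 z
 (n
 0xa104270600283085f8a37607a07a27df8208a281f7e18207e082085f8217e086281f7e08207a27e18208207e000c1
 z z)) (n 0 z (n 0 z z)))) z))))))))))))))))))))))))))))))))))))))))))))))))) (n 220 (n 0 (n 0 z
 (n 0 z (n 0 (n
 0x150841b84085f8a47607a07a37df8208a28207e17e17e082085e8217e086281f7df8207a27e18207df8200081 z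
 (n 8794483 z z)) (n 0 (n
 0x170e8028748208617a07e07e17e082086182082082082082081f8207df8208208207e08208208207e08600081 z
 (n 8790131 z z)) z)))) (n 0 (n 0 z (n 0 z (n 0 (n 8802571 z z) (n 0 (n 8802571 z z) z)))) (n 0
 (n 0 z (n 0 z (n 0 (n 8802571 z (n 8794483 z z)) (n 0 (n 8802571 z (n 8790131 z z)) z)))) (n 0
 (n 0 z (n 0 z (n 0 (n 8848923 z (n 8848923 z z)) (n 0 (n
 0x170e8028748208617a07e08217e08208608208208207e082081f8207df8608207e08208208208608208200081 z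
 (n 0x970842a84289c9e95df8e44a669d7218a37e26626a762c7e391c9e079f8e38a07638602ab768723a6269f0081
 z z)) z)))) (n 0 (n 0 z (n 0 (n 8728947 z (n 8802571 z z)) (n 0 z (n 0 z z)))) (n 0 (n 0 z (n 0
 z (n 0 z (n 0 z z)))) (n 0 (n 0 z (n 0 z (n 0 z (n 0 z z)))) (n 0 (n 0 z (n 0 z (n 0 z (n 0 z
 z)))) (n 0 (n 0 z (n 0 z (n 0 z (n 0 z z)))) (n 0 (n 0 z (n 0 z (n 0 (n 8848923 z (n 8848923 z
 z)) (n 0 (n
 0x270e80a87485f8a37607a076179f8608a281f7e28217e182185e8227df86281f7df82076286181f8217e00081 z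
 (n 0xb70804284062b96955e69a5225af589aa781f57a3276d9cbb6da8e6746c668928d39186af42e7e89939620081
 z z)) z)))) (n 0 (n 0 z (n 0 z (n 0 z (n 0 z z)))) (n 0 (n 0 z (n 0 z (n 0 z (n 0 z z)))) (n 0
 (n 0 z (n 0 z (n 0 z (n 0 z z)))) (n 0 (n 0 z (n 0 z (n 0 z (n 0 z z)))) (n 0 (n 0 z (n 0 z (n
 0 z (n 0 z z)))) (n 0 (n 0 z (n 0 (n
 0x3dc2005a840758e878b707e79787183739373628c89807f73a066897a7897a37a7884887c609587826e8470857778926c928189876e86820089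
 z z) (n 0 z (n 0 z z)))) (n 0 (n 0 z (n 0 (n
 0x5dc32062864847890986a7f87885f8e7277778287877f866f8570916d9e7d88897690817b7c87888680788880804b9b7892778795876e7d0089
 z z) (n 0 (n 4262011 z (n 4262011 z z)) (n 0 (n 8853003 z (n 8853003 z z)) z)))) (n 0 (n 0 z (n
 0 z (n 0 (n 8848923 z (n 8848923 z z)) (n 0 (n
 0x370e80a87485f8a37207a17637df8208a281f7e17e17e082185e8617e086381f7df81f76282181f8207a00081 z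
 (n
 0xc3b43b100c0876872103810e90e80078607e08207e082082086082082082082082082085f8208208608208208207e08208208208201801
 z z)) z)))) (n 0 (n 0 z (n 0 z (n 0 (n 8802571 z (n 8802571 z z)) (n 0 (n 8802571 z (n 8802571
 z z)) z)))) (n 0 (n 0 z (n 0 z (n 0 z (n 0 z z)))) (n 0 (n 0 z (n 0 z (n 0 z (n 0 z z)))) (n 0
 (n 0 z (n 0 z (n 0 (n
 0xb0e8138748208a26e17a07a275f8608a08207e07e07e182085f82079e8a18618217e07a082081f8217e00081 z (n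
 0x170c2028618208617a07e07e17e082086182082082082082081f8207df8208208207e08208208207e08600081 z
 z)) (n 0 (n
 0x170c2028618208617a07e07e17e082086182082082082082081f8207df8208208207e08208208207e08600081 z
 (n 0x170c2028618208617a07e07e17e082086182082082082082081f8207df8208208207e08208208207e08600081
 z z)) z)))) (n 0 (n 0 z (n 0 z (n 0 z (n 0 z z)))) (n 0 (n 0 z (n 0 z (n 0 z (n 0 z z)))) (n 0
 (n 0 z (n 0 z (n 0 z (n 0 z z)))) (n 0 (n 0 z (n 0 z (n 0 (n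
 0x17020028108208617a07e07e17e082086182082082082082081f8207df8208208207e08208208207e08600081 z
 (n 8794483 z z)) (n 0 (n 8853003 z (n 8790131 z z)) z)))) (n 0 (n 0 z (n 0 z (n 0 z (n 0 z
 z)))) (n 0 (n 0 z (n 0 (n 8728947 z (n
 0x770203281095f9286218286a3498a6d99d7667638df7b175fa606db8e47616e47195df46282282392689d0081 z
 z)) (n 0 (n
 0xc7020528109de9ec52082d5662d4bf4a5b6aa6e691f77b71eba06589666e066769545f2238628249698db0081 z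
 (n 8794483 z z)) (n 0 (n 8853003 z (n 8790131 z z)) z)))) (n 0 (n 0 z (n 0 z (n 0 z (n 0 z
 z)))) (n 0 (n 0 z (n 0 z (n 0 z (n 0 z z)))) (n 0 (n 0 z (n 0 z (n 0 (n 4262011 z (n 4262011 z
 z)) (n 0 (n 8853003 z (n 8853003 z z)) z)))) (n 0 (n 0 z (n 0 (n 6424667 z z) (n 0 z (n 0 z
 z)))) (n 0 (n 0 (n 8853067 z z) (n 0 z (n 0 z (n 0 z z)))) (n 0 (n 0 z (n 0 z (n 0 (n 8848923 z
 (n 8794483 z z)) (n 0 (n 6424667 z (n 8790131 z z)) z)))) (n 0 (n 0 (n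
 0x17020028108208617a07e07e17e082086182082082082082081f8207df8208208207e08208208207e08600081 z
 (n 0x17020028108208617a07e07e17e082086182082082082082081f8207df8208208207e08208208207e08600081
 z z)) (n 0 z (n 0 z (n 0 z z)))) (n 0 (n 0 z (n 0 z (n 0 z (n 0 z z)))) (n 0 (n 0 z (n 0 z (n 0
 (n 8589411 z (n 8589411 z z)) (n 0 (n 8589411 z (n 8589411 z z)) z)))) (n 0 (n 0 z (n 0 z (n 0
 z (n 0 z z)))) (n 0 (n 0 z (n 0 (n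
 0xb0ec138768208a26e17a07a275f8608a08207e07e07e182085f82079e8a18618217e07a082081f8217e00081 z (n
 0x270c80a86181f8a37607a07a37df8208a18207e17e07e082085f8217e086185f7e081f7a27e18208608200081 z
 z)) (n 0 z (n 0 z z)))) (n 0 (n 0 z (n 0 z (n 0 z (n 0 z z)))) (n 0 (n 0 z (n 0 (n
 0x17040028208208617a07e07e17e082086182082082082082081f8207df8208208207e08208208207e08600081 z
 z) (n 0 z (n 0 z z)))) (n 0 (n 0 z (n 0 z (n 0 z (n 0 z z)))) (n 0 (n 0 z (n 0 z (n 0 z (n 0 z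
 z)))) (n 0 (n 0 z (n 0 z (n 0 z (n 0 z z)))) (n 0 (n 0 (n 8802571 z z) (n 0 (n 8802571 z z) (n
 0 z (n 0 z z)))) (n 0 (n 0 z (n 0 z (n 0 z (n 0 z z)))) (n 0 (n 0 (n
 0xb0e8138748208a26e17a07a275f8608a08207e07e07e182085f82079e8a18618217e07a082081f8217e00081 z (n
 7735371 z z)) (n 0 (n
 0x17040028208208617a07e07e17e082086182082082082082081f8207df8208208207e08208208207e08600081 z
 (n 0x17040028208208617a07e07e17e082086182082082082082081f8207df8208208207e08208208207e08600081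
 z z)) (n 0 z (n 0 z z)))) (n 0 (n 0 z (n 0 z (n 0 z (n 0 z z)))) (n 0 (n 0 z (n 0 (n
 0x370c80a82085f8a47607a07a37df8208a28207e17e17e082085e8217e086281f7df8207a27e18207df8200081 z
 (n 0x370c80a82085f8a47607a07a37df8208a28207e17e17e082085e8217e086281f7df8207a27e18207df8200081
 z z)) (n 0 z (n 0 z z)))) z))))))))))))))))))))))))))))))))))))))))))))))))) (n 18 (n 0 (n 0 z
 (n 0 z (n 0 (n
 0x170e4028728208617a07e07e17e082086182082082082082081f8207df8208208207e08208208207e08600081 z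
 (n 8794483 z z)) (n 0 (n
 0x58738208607a08207e07e08608608208208208618208208217df8608218208207e08218208208200041 z (n
 8790131 z z)) z)))) (n 0 (n 0 z (n 0 z (n 0 (n
 0x439c39081c0873732101830e70e020781f86289f7e08217a08608608208617e07e082086081f85f85f86081f7e07e082086081f7e01801
 z z) (n 0 (n 8853003 z z) z)))) (n 0 (n 0 z (n 0 z (n 0 (n 6428763 z (n 8794483 z z)) (n 0 (n
 8853003 z (n 8790131 z z)) z)))) (n 0 (n 0 z (n 0 z (n 0 (n 8802571 z (n 8802571 z z)) (n 0 (n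
 8802571 z (n 8802571 z z)) z)))) (n 0 (n 0 z (n 0 (n 8728947 z (n
 0x370620a81085f8a47607a07a37df8208a28207e17e17e082085e8217e086281f7df8207a27e18207df8200081 z
 z)) (n 0 z (n 0 z z)))) (n 0 (n 0 z (n 0 z (n 0 z (n 0 z z)))) (n 0 (n 0 z (n 0 z (n 0 z (n 0 z
 z)))) (n 0 (n 0 z (n 0 z (n 0 z (n 0 z z)))) (n 0 (n 0 z (n 0 z (n 0 z (n 0 z z)))) (n 0 (n 0 z
 (n 0 z (n 0 (n 8802571 z (n 8802571 z z)) (n 0 (n 8802571 z (n 8802571 z z)) z)))) (n 0 (n 0 z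
 (n 0 z (n 0 z (n 0 z z)))) (n 0 (n 0 z (n 0 z (n 0 z (n 0 z z)))) (n 0 (n 0 z (n 0 z (n 0 z (n
 0 z z)))) (n 0 (n 0 z (n 0 z (n 0 z (n 0 z z)))) (n 0 (n 0 z (n 0 z (n 0 z (n 0 z z)))) (n 0 (n
 0 z (n 0 (n 8872731 z z) (n 0 z (n 0 z z)))) (n 0 (n 0 z (n 0 (n 8872731 z z) (n 0 (n 8872731 z
 (n 8872731 z z)) (n 0 (n 6424667 z (n 6424667 z z)) z)))) (n 0 (n 0 z (n 0 z (n 0 (n 8802571 z
 (n 8802571 z z)) (n 0 (n 8802571 z (n 8802571 z z)) z)))) (n 0 (n 0 z (n 0 z (n 0 (n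
 0x170e4028728208617a07e07e17e082086182082082082082081f8207df8208208207e08208208207e08600081 z
 (n
 0x874721301810e70e040785e86181f7e182082181f85f8207df82082082082082082085f7e08208207e08208208208201001
 z z)) (n 0 (n 8853003 z (n 8853003 z z)) z)))) (n 0 (n 0 z (n 0 z (n 0 z (n 0 z z)))) (n 0 (n 0
 z (n 0 z (n 0 z (n 0 z z)))) (n 0 (n 0 z (n 0 z (n 0 (n
 0x17020028108208617a07e07e17e082086182082082082082081f8207df8208208207e08208208207e08600081 z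
 (n 0x17020028108208617a07e07e17e082086182082082082082081f8207df8208208207e08208208207e08600081
 z z)) (n 0 (n
 0x17020028108208617a07e07e17e082086182082082082082081f8207df8208208207e08208208207e08600081 z
 (n 0x17020028108208617a07e07e17e082086182082082082082081f8207df8208208207e08208208207e08600081
 z z)) z)))) (n 0 (n 0 z (n 0 z (n 0 z (n 0 z z)))) (n 0 (n 0 z (n 0 z (n 0 z (n 0 z z)))) (n 0
 (n 0 z (n 0 z (n 0 z (n 0 z z)))) (n 0 (n 0 z (n 0 z (n 0 (n 8848923 z (n 8794483 z z)) (n 0 (n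
 0x17020028108208617a07e07e17e082086182082082082082081f8207df8208208207e08208208207e08600081 z
 (n 8790131 z z)) z)))) (n 0 (n 0 z (n 0 z (n 0 z (n 0 z z)))) (n 0 (n 0 z (n 0 (n 8728947 z (n
 0xc7020528109de9ec52082d5662d4bf4a5b6aa6e691f77b71eba06589666e066769545f2238628249698db0081 z
 z)) (n 0 (n 8848923 z (n 8794483 z z)) (n 0 (n
 0x570202a8108df9666a08276e3519a2a95e7657638a07ee79fa2071c8a476072375b6605218218228a489e0081 z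
 (n 8790131 z z)) z)))) (n 0 (n 0 z (n 0 z (n 0 z (n 0 z z)))) (n 0 (n 0 z (n 0 z (n 0 z (n 0 z
 z)))) (n 0 (n 0 z (n 0 z (n 0 (n 8848923 z (n 8848923 z z)) (n 0 (n 6424667 z (n 6424667 z z))
 z)))) (n 0 (n 0 z (n 0 (n 8722235 z z) (n 0 z (n 0 z z)))) (n 0 (n 0 (n 8722235 z z) (n 0 z (n
 0 z (n 0 z z)))) (n 0 (n 0 z (n 0 z (n 0 (n 8802571 z (n 8794483 z z)) (n 0 (n 8802571 z (n
 8790131 z z)) z)))) (n 0 (n 0 (n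
 0xb0ec0b8768208a27207e07a279f8218608217e082182082085f8217de8618218207e07a086081f82181f0081 z (n
 0x170c0028608208617a07e07e17e082086182082082082082081f8207df8208208207e08208208207e08600081 z
 z)) (n 0 z (n 0 z (n 0 z z)))) (n 0 (n 0 z (n 0 z (n 0 z (n 0 z z)))) (n 0 (n 0 z (n 0 z (n 0
 (n 8798227 z (n 8798227 z z)) (n 0 (n 8798227 z (n 8798227 z z)) z)))) (n 0 (n 0 z (n 0 z (n 0
 z (n 0 z z)))) (n 0 (n 0 z (n 0 (n 8872731 z (n 8872731 z z)) (n 0 z (n 0 z z)))) (n 0 (n 0 z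
 (n 0 z (n 0 z (n 0 z z)))) (n 0 (n 0 z (n 0 (n 8722235 z z) (n 0 z (n 0 z z)))) (n 0 (n 0 z (n
 0 z (n 0 z (n 0 z z)))) (n 0 (n 0 z (n 0 z (n 0 z (n 0 z z)))) (n 0 (n 0 z (n 0 z (n 0 z (n 0 z
 z)))) (n 0 (n 0 (n 8722235 z z) (n 0 (n 8722235 z z) (n 0 z (n 0 z z)))) (n 0 (n 0 z (n 0 z (n
 0 z (n 0 z z)))) (n 0 (n 0 (n
 0x170c6028638208617a07e07e17e082086182082082082082081f8207df8208208207e08208208207e08600081 z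
 (n 0x170c6028638208617a07e07e17e082086182082082082082081f8207df8208208207e08208208207e08600081
 z z)) (n 0 (n
 0x170c6028638208617a07e07e17e082086182082082082082081f8207df8208208207e08208208207e08600081 z
 (n 0x170c6028638208617a07e07e17e082086182082082082082081f8207df8208208207e08208208207e08600081
 z z)) (n 0 z (n 0 z z)))) (n 0 (n 0 z (n 0 z (n 0 z (n 0 z z)))) (n 0 (n 0 z (n 0 (n 6424667 z
 (n 6424667 z z)) (n 0 z (n 0 z z)))) z))))))))))))))))))))))))))))))))))))))))))))))))) (n 201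
 (n 0 (n 0 z (n 0 z (n 0 z (n 0 z z)))) (n 0 (n 0 z (n 0 z (n 0 (n 8872731 z z) (n 0 (n 7673915
 z z) z)))) (n 0 (n 0 z (n 0 z (n 0 z (n 0 z z)))) (n 0 (n 0 z (n 0 z (n 0 (n 8798227 z z) (n 0
 (n 8798227 z z) z)))) z)))) (n 33 (n 0 (n 0 z (n 0 z (n 0 (n
 0x874742303810e90e840785f8a17e07e081f82081f8a08207e08208208207e08208208208208208207e082085f8208201001
 z (n 8794483 z z)) (n 0 (n
 0x87387320382ea908640785e8a17a17e281f86081f85f8207e08218208207e08208218208208208207e17e08208208201001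
 z (n 8790131 z z)) z)))) (n 0 (n 0 z (n 0 z (n 0 z (n 0 z z)))) (n 0 (n 0 z (n 0 z (n 0 z (n 0
 z z)))) (n 0 (n 0 z (n 0 z (n 0 (n 8790275 z z) (n 0 (n 8790275 z z) z)))) (n 0 (n 0 z (n 0 z
 (n 0 z (n 0 z z)))) z))))) (n 135 (n 0 (n 0 z (n 0 z (n 0 z (n 0 z z)))) (n 0 (n 0 z (n 0 (n
 0x170e6028738208617a07e07e17e082086182082082082082081f8207df8208208207e08208208207e08600081 z
 z) (n 0 z (n 0 z z)))) (n 0 (n 0 z (n 0 z (n 0 z (n 0 z z)))) (n 0 (n 0 z (n 0 z (n 0 (n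
 8790275 z (n 8790275 z z)) (n 0 (n 8790275 z (n 8790275 z z)) z)))) (n 0 (n 0 z (n 0 z (n 0 (n
 0x58748208607a08207e07e08608608208208208618208208217df8608218208207e08218208208200041 z (n
 8794483 z z)) (n 0 (n
 0x784275030380baa410180c061d6040c060f0e3062007130048170b50480240b85881000e05c2c40400702e1226c927b859d83958695838d9a704d907e7276af7e907566ab67ae528baaa262779f5a77637c7b937644ab797a57718bc282754009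
 z (n 8790131 z z)) z)))) (n 0 (n 0 z (n 0 z (n 0 z (n 0 z z)))) (n 0 (n 0 z (n 0 z (n 0 z (n 0
 z z)))) z))))))) (n 3 (n 0 (n 0 z (n 0 z (n 0 z (n 0 z z)))) (n 0 (n 0 z (n 0 z (n 0 (n 8790275
 z z) (n 0 (n 8790275 z z) z)))) (n 0 (n 0 z (n 0 z (n 0 z (n 0 z z)))) (n 0 (n 0 z (n 0 z (n 0
 z (n 0 z z)))) (n 0 (n 0 z (n 0 z (n 0 z (n 0 z z)))) (n 0 (n 0 z (n 0 z (n 0 z (n 0 z z)))) (n
 0 (n 0 (n
 0xb0e8138748208a26e17a07a275f8608a08207e07e07e182085f82079e8a18618217e07a082081f8217e00081 z (n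
 0x270e80a87481f8a37607e07a27de81f8a27e08217e17e081f85f8217e182281f7df8607628617e08217e00081 z
 z)) (n 0 z (n 0 z (n 0 z z)))) (n 0 (n 0 z (n 0 (n
 0x170ea028758208617a07e07e17e082086182082082082082081f8207df8208208207e08208208207e08600081 z
 (n
 0x3dc2005a840758e878b707e79787183739373628c89807f73a066897a7897a37a7884887c609587826e8470857778926c928189876e86820089
 z z)) (n 0 z (n 0 z z)))) z)))))))) (n 1 (n 0 (n 0 z (n 0 z (n 0 z (n 0 z z)))) (n 0 (n 0 z (n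
 0 z (n 0 z (n 0 z z)))) (n 0 (n 0 z (n 0 z (n 0 z (n 0 z z)))) (n 0 (n 0 z (n 0 z (n 0 z (n 0 z
 z)))) (n 0 (n 0 z (n 0 z (n 0 z (n 0 z z)))) (n 0 (n 0 z (n 0 z (n 0 (n 8790275 z (n 8790275 z
 z)) (n 0 (n 8790275 z (n 8790275 z z)) z)))) z)))))) (n 0 (n 0 (n 0 z (n 0 z (n 0 z (n 0 z
 z)))) (n 0 (n 0 z (n 0 (n 8798227 z z) (n 0 z (n 0 z z)))) (n 0 (n 0 z (n 0 z (n 0 z (n 0 z
 z)))) (n 0 (n 0 z (n 0 z (n 0 (n 8798227 z (n 8798227 z z)) (n 0 (n 8798227 z (n 8798227 z z))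
 z)))) (n 0 (n 0 (n
 0x150841b82185f8a47607a07a37df8208a28207e17e17e082085e8217e086281f7df8207a27e18207df8200081 z
 (n 0x150841b82185f8a47607a07a37df8208a28207e17e17e082085e8217e086281f7df8207a27e18207df8200081
 z z)) (n 0 (n
 0x150841b82185f8a47607a07a37df8208a28207e17e17e082085e8217e086281f7df8207a27e18207df8200081 z
 (n 0x150841b82185f8a47607a07a37df8208a28207e17e17e082085e8217e086281f7df8207a27e18207df8200081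
 z z)) (n 0 (n
 0x58748208607a08207e07e08608608208208208618208208217df8608218208207e08218208208200041 z (n
 8794483 z z)) (n 0 (n
 0x150841b82185f8a47607a07a37df8208a28207e17e17e082085e8217e086281f7df8207a27e18207df8200081 z
 (n 8790131 z z)) z)))) (n 0 (n 0 z (n 0 z (n 0 z (n 0 z z)))) (n 0 (n 0 z (n 0 z (n 0 (n
 0xb0e8138748208a26e17a07a275f8608a08207e07e07e182085f82079e8a18618217e07a082081f8217e00081 z (n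
 0x5dc1086a821847890976a7f87895f8e7277778288867e866f8571906d9e7d88897690817b7d87888680788780814a9b7993768795876d7d0089
 z z)) (n 0 (n
 0x61c1086a821857890986a7f8789608e7277778387877e866f8570916d9e7d89897690817b7d87888680788880804a9c7893768796876e7d0089
 z (n
 0x5dc1086a821847790976a7f87885f8e7277778287867e86708571916d9e7d87897690817b7d87888680788781814b9c7993768796876e7d0089
 z z)) z)))) (n 0 (n 0 z (n 0 z (n 0 (n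
 0xb0e8138748208a26e17a07a275f8608a08207e07e07e182085f82079e8a18618217e07a082081f8217e00081 z (n
 0x470e80a87485f8e46e07607637de8208a28207e27e17e082189e8217e086381f7df82076382181f8217e00081 z
 z)) (n 0 (n 3278971 z (n 3278971 z z)) z)))) (n 0 (n 0 z (n 0 z (n 0 z (n 0 z z)))) (n 0 (n 0 z
 (n 0 z (n 0 z (n 0 z z)))) (n 0 (n 0 z (n 0 z (n 0 z (n 0 z z)))) (n 0 (n 0 z (n 0 z (n 0 (n
 8721419 z (n 8794483 z z)) (n 0 (n 8721419 z (n 8790131 z z)) z)))) (n 0 (n 0 z (n 0 z (n 0 (n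
 8802571 z (n 8802571 z z)) (n 0 (n 8802571 z (n 8802571 z z)) z)))) (n 0 (n 0 z (n 0 (n 8868147
 z z) (n 0 z (n 0 z z)))) (n 0 (n 0 z (n 0 z (n 0 z (n 0 z z)))) (n 0 (n 0 z (n 0 z (n 0 z (n 0
 z z)))) (n 0 (n 0 z (n 0 z (n 0 z (n 0 z z)))) (n 0 (n 0 z (n 0 z (n 0 z (n 0 z z)))) (n 0 (n 0
 (n 8868147 z z) (n 0 (n 8868147 z z) (n 0 z (n 0 z z)))) (n 0 (n 0 z (n 0 z (n 0 z (n 0 z z))))
 (n 0 (n 0 z (n 0 z (n 0 (n 8802571 z (n 8794483 z z)) (n 0 (n 8802571 z (n 8790131 z z)) z))))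
 (n 0 (n 0 z (n 0 z (n 0 z (n 0 z z)))) (n 0 (n 0 (n
 0x170e6028738208617a07e07e17e082086182082082082082081f8207df8208208207e08208208207e08600081 z
 z) (n 0 (n
 0x70e60287381f8617e07e07e17e08208208208207e082081f86082081f8208207e08208208608208208200081 z z)
 (n 0 (n
 0x770863284395f968620829663498aad99d7267648a07b27a0a606db8e37216e571959f4628228239268dd0081 z
 (n 0x970864284399f9695a082a5e53d7af0a1c6e872591f7b675eae06999657206a56d751f3638628239278dc0081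
 z z)) (n 0 (n
 0xb0e60b8738208627a07a07a17a082086082182082082282086182081f8618208207e07a082181f8217e00081 z (n
 0xc7086528439de9ec52082d5662d4bf4a5b6aa6e691f77b71eba06589666e066769545f2238628249698db0081 z
 z)) z)))) (n 0 (n 0 z (n 0 z (n 0 z (n 0 z z)))) (n 0 (n 0 z (n 0 z (n 0 (n 4262011 z (n
 4262011 z z)) (n 0 (n
 0xb0e6038738208617a07e07e17df8608608208207e07e08208208207df8618218208207e08208208208200081 z (n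
 0x5dc2186a843847890976a7f8789608e7277778288867e866f8571916d9e7d88897690817b7c87888681788880804b9b7993768795876e7d0089
 z z)) z)))) (n 0 (n 0 z (n 0 z (n 0 z (n 0 z z)))) (n 0 (n 0 z (n 0 z (n 0 (n 8790275 z (n
 8790275 z z)) (n 0 (n 8790275 z (n 8790275 z z)) z)))) (n 0 (n 0 z (n 0 z (n 0 z (n 0 z z))))
 (n 0 (n 0 (n
 0x270e80a87481f8a37607e07a27de81f8a27e08217e17e081f85f8217e182281f7df8607628617e08217e00081 z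
 (n 0x150641b83085f8a47607a07a37df8208a28207e17e17e082085e8217e086281f7df8207a27e18207df8200081
 z z)) (n 0 (n
 0x150641b83085f8a47607a07a37df8208a28207e17e17e082085e8217e086281f7df8207a27e18207df8200081 z
 (n 0x150641b83085f8a47607a07a37df8208a28207e17e17e082085e8217e086281f7df8207a27e18207df8200081
 z z)) (n 0 (n
 0x150641b83085f8a47607a07a37df8208a28207e17e17e082085e8217e086281f7df8207a27e18207df8200081 z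
 (n 8794483 z z)) (n 0 (n
 0x170e8028748208617a07e07e17e082086182082082082082081f8207df8208208207e08208208207e08600081 z
 (n 8790131 z z)) z)))) z))))))))))))))))))))))))))))) z))))))))))))))))))))) z)))) z) z)))) (n
 0x140a8d4409509411 (n 0 (n 561 (n 0 z (n 0 z (n 0 z (n 0 z (n 0 z (n 0 z (n 0 z (n 3282443 z
 z)))))))) (n 661 (n 2 z (n 0 z (n 0 z (n 3278363 z (n 0 z (n 0 z (n 0 z (n 0 z (n 0 z
 z))))))))) (n 562 (n 10 z (n 0 z (n 0 z (n 3212843 z (n 0 z (n 0 z (n 0 z (n 0 z (n 0 z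
 z))))))))) (n 3 (n 18 z (n 0 z (n 0 z (n 2164283 z (n 0 z (n 0 z (n 0 z (n 0 z (n 0 z
 z))))))))) (n 662 (n 0 z (n 0 z (n 0 z (n 0 z (n 0 z (n 0 z (n 0 z (n 2164299 z z)))))))) (n 0
 (n 0 z (n 0 z (n 0 z (n 0 z (n 0 z (n 0 z (n 0 z (n 2164315 z z)))))))) z)))))) (n 561 (n 0 (n
 801 (n 0 z (n 0 z (n 0 z (n 0 z (n 0 z (n 0 z z)))))) (n 687 (n 0 z (n 0 z (n 0 z (n 0 z (n 0 z
 (n 0 z (n 0 z (n 0 z (n 0 z z))))))))) z)) (n 0 (n 295 (n 0 z (n 0 z (n 0 z (n 0 z (n 0 z (n 0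
 z z)))))) z) (n 0 z z))) (n 0 (n 0 z (n 0 z (n 0 z (n 0 z (n 0 z (n 0 z (n 0 z (n 1 (n 3282443
 z (n 3282443 z (n 3282443 z (n 3282443 z (n 3282443 z (n 3282443 z z)))))) z)))))))) (n 0 z
 z)))) (n 0x4997586528994c0 (n 0 (n 561 (n 0 z (n 2 z (n 0 z (n 0 z (n 0 z (n 0 z (n 0 z (n
 3282443 z z)))))))) (n 661 (n 0 z (n 3278363 z (n 0 z (n 0 z (n 0 z (n 0 z (n 0 z (n 0 z (n 0 z
 z))))))))) (n 562 (n 0 z (n 3212843 z (n 0 z (n 0 z (n 0 z (n 0 z (n 0 z (n 0 z (n 0 z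
 z))))))))) (n 3 (n 0 z (n 2164283 z (n 0 z (n 0 z (n 0 z (n 0 z (n 0 z (n 0 z (n 0 z z)))))))))
 (n 662 (n 0 z (n 10 z (n 0 z (n 0 z (n 0 z (n 0 z (n 0 z (n 2164299 z z)))))))) (n 0 (n 0 z (n
 18 z (n 0 z (n 0 z (n 0 z (n 0 z (n 0 z (n 2164315 z z)))))))) z)))))) (n 561 (n 0 (n 137 (n 0
 z (n 0 z (n 0 z (n 0x1d9464a000000000e4a1211021 z (n 2 (n 1 z z) (n 0 z (n 0 z (n 0 z (n 0 z (n
 0 z (n 0 z (n 0 z (n 0 z (n 0 z (n 0 z (n 0 z (n 0 z (n 0 z (n 0 z (n 0 z (n 0 z (n 0 z (n 0 z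
 (n 0 z (n 0 z z))))))))))))))))))))))))) (n 749 (n 0 z (n 0x1d90a4a000000000e281211021 z (n 2 z
 (n 0 z (n 0 z (n 0 z (n 0 z (n 0 z (n 0 z (n 0 z (n 0 z (n 0 z (n 0 z (n 0 z (n 0 z (n 0 z (n 0
 z (n 0 z (n 0 z (n 0 z (n 0 z (n 0 z (n 0 z (n 0 z (n 0 z z))))))))))))))))))))))))) z)) (n 0
 (n 1057 (n 0 z (n 0 z (n 0 z (n 0x1c50242000000000ec61251021 z (n 2 z (n 0 z (n 0 z (n 0 z (n 0
 z (n 0 z (n 0 z (n 0 z (n 0 z (n 0 z (n 0 z (n 0 z (n 0 z (n 0 z (n 0 z (n 0 z (n 0 z (n 0 z (n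
 0 z (n 0 z (n 0 z z))))))))))))))))))))))))) z) (n 0 z z))) (n 0 (n 0 z (n 1 (n 5292 z (n 5292
 z (n 5292 z (n 5292 z (n 5292 z (n 5292 z z)))))) (n 0 z (n 0 z (n 0 z (n 0 z (n 0 z (n 1 (n
 3282443 z (n 3282443 z (n 3282443 z (n 3282443 z (n 3282443 z (n 3282443 z z)))))) z)))))))) (n
 0 z z)))) (n 0x367ad19aae87b3b48d9d858ceb2f07517b0a4bd981a12c0 (n 0xbd9d (n 525 (n 3282443 z (n
 2 z (n 0 z (n 0 z (n 0 z (n 0 z (n 0 z (n 0 z (n 0 z (n 0 z (n 0 z (n 0 z (n 6488603 z (n 10 z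
 z)))))))))))))) (n 33 (n 18 z (n 6496515 z (n 0 z (n 0 z (n 0 z (n 0 z (n 0 z (n 0 z (n 0 z (n
 0 z (n 6496515 z (n 0 z (n 0 z z))))))))))))) (n 523 (n 0 z (n 6496515 z (n 0 z (n
 0xac86c20a0780b8067fc8037fb7f98047fe80080c7f18138018187fd7ff7f080a7f581e7ee7f17ec7fa8057f47ff7fd7f87f08117ed8067f08098087ff7f27f17f58098297ef80d7d581b7f27f780a7fd0811
 z (n 6496515 z (n 0 z (n
 0x11951940c0601aca6ca62078148077e580180a80f7f681380f7fd7d982b8118287f37ef7e28027e18227e07fe7e97f780f7f77e48107fe7ea80d7fa8067f58088177fd7e67ed80e80a8287f080a7db7ff7f17f88037f71011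
 z (n
 0x20ca8ca86037f780780f8028037f67fc7d97f78358027ef7fc7ee8158017f27f980183180d7c981e7de8207d88538037de81982e7f57e47e17fa7f68067f87e17c67e68407e88137ae80c80b81d8227ea0811
 z (n 0 z (n
 0x14ca8c806037fa80f7fb80180e7f97f88197ff8018008048017f480380180080780c7e980f7fe7f87f68008197ed80180a7fe7f77fa8087fd7fb7fe8048008088027f87e580c80280b7fd7ed7ff8087f90811
 z (n 0 z (n
 0x35951944c0e01aca6ca60038158097d98267ee7e68047fa7ee8257b18628228347e87f67b982c7eb86b7f37c87da7d38227ea7e87f07f17d98307c87f47bd8058357f07f17d87d47ee8827dd82979c83d7d57f683f7e41011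
 z (n 26 z z))))))))))))) (n 3 (n
 0xd96108018127f88107fa7fc7f782f7f77db7f98227f38027f57e68108188127dc7fc8237bf81a7d48007ca7fa8327be7e47cd83882381381f7f37f58418328287bd8037f882e80c7e77c07e68200051
 z (n 34 z (n 0 z (n
 0xeca4ca40078148008078017fa7f38067eb80881a7f18118018287fb8017ee80d7e48447db7eb7e57ee80d7e68137f57ea7f781b7ed7f67e281580080e7d77dd7ed80e84a7ea8117ad82b7ec7fa7fd7fe0811
 z (n 6496515 z (n 0 z (n 0 z (n 0 z (n 0 z (n 0 z (n 0 z (n 0 z (n 0 z (n 6496515 z (n 0 z (n 0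
 z (n 0 z z))))))))))))))))) (n 1 (n 0 z (n 2164299 z (n 42 z (n 0 z (n 0 z z))))) (n 0 (n
 2164315 z (n 0 z (n 50 z (n 0 z (n 0 z (n 0 z (n 0 z (n 0 z (n 58 z (n 66 z z)))))))))) z))))))
 (n 1 (n 0 (n 0 z (n 67 (n 0 z (n 0 z (n 0 z (n 0 z (n 0 z (n 0 z (n 0 z (n 0 z (n 0 z (n 0 z (n
 0 z (n 0 z (n 0 z (n 0 z (n 0 z z))))))))))))))) (n 1047 (n 0 z (n 0 z (n 0 z (n 0 z (n 0 z (n
 0 z (n 0 z (n 0 z z)))))))) (n 1049 (n 0 z (n 0 z (n 0 z (n 0 z (n 0 z (n 0 z (n 0 z (n 0 z (n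
 0 z (n 0 z (n 0 z z))))))))))) (n 63 (n 0 z (n 0 z (n 0 z (n 0 z z)))) (n 61 (n 0 z (n 0 z (n 0
 z (n 0 z (n 0 z (n 0 z (n 0 z (n 0 z z)))))))) (n 61 (n 0 z (n 0 z (n 0 z (n 0 z (n 0 z (n 0 z
 (n 0 z (n 0 z z)))))))) (n 61 (n 0 z (n 0 z (n 0 z (n 0 z (n 0 z (n 0 z (n 0 z (n 0 z z))))))))
 z)))))))) (n 0 (n 1399 (n 0 z (n 0 z (n 0 z (n 0 z (n 0 z (n 0 z (n 0 z z))))))) (n 1167 (n 0 z
 (n 0 z (n 0 z (n 0 z (n 0 z (n 0 z z)))))) (n 1165 (n 0 z (n 0 z (n 0 z (n 0 z (n 0 z (n 0 z (n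
 0 z z))))))) (n 1201 (n 0 z (n 0 z (n 0 z (n 0 z (n 0 z (n 0 z (n 0 z (n 0 z (n 0 z z)))))))))
 (n 397 (n 0 z (n 0 z (n 0 z (n 0 z (n 0 z (n 0 z (n 0 z z))))))) (n 397 (n 0 z (n 0 z (n 0 z (n
 0 z (n 0 z (n 0 z (n 0 z z))))))) (n 397 (n 0 z (n 0 z (n 0 z (n 0 z (n 0 z (n 0 z (n 0 z
 z))))))) z))))))) (n 0 (n 1407 (n 0 z (n 0 z (n 0 z (n 0 z (n 0 z (n 0 z (n 0 z (n 0 z (n 0 z
 (n 0 z (n 0 z (n 0 z (n 0 z (n 0 z (n 0 z z))))))))))))))) (n 1405 (n 0 z (n 0 z (n 0 z (n 0 z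
 (n 0 z (n 0 z z)))))) (n 69 (n 0 z (n 0 z (n 0 z (n 0 z (n 0 z (n 0 z (n 0 z (n 0 z (n 0 z (n 0
 z z)))))))))) (n 65 (n 0 z (n 0 z (n 0 z (n 0 z (n 0 z (n 0 z (n 0 z z))))))) (n 65 (n 0 z (n 0
 z (n 0 z (n 0 z (n 0 z (n 0 z (n 0 z z))))))) (n 65 (n 0 z (n 0 z (n 0 z (n 0 z (n 0 z (n 0 z
 (n 0 z z))))))) z)))))) (n 0 (n 1169 (n 0 z (n 0 z (n 0 z (n 0 z (n 0 z (n 0 z (n 0 z (n 0 z (n
 0 z (n 0 z (n 0 z (n 0 z (n 0 z (n 0 z z)))))))))))))) (n 21 (n 0 z (n 0 z (n 0 z (n 0 z (n 0 z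
 (n 0 z (n 0 z (n 0 z (n 0 z (n 0 z (n 0 z (n 0 z (n 0 z (n 0 z (n 0 z (n 0 z (n 0 z (n 0 z (n 0
 z (n 0 z z)))))))))))))))))))) (n 269 (n 0 z (n 0 z (n 0 z (n 0 z (n 0 z (n 0 z (n 0 z z)))))))
 (n 269 (n 0 z (n 0 z (n 0 z (n 0 z (n 0 z (n 0 z (n 0 z z))))))) (n 269 (n 0 z (n 0 z (n 0 z (n
 0 z (n 0 z (n 0 z (n 0 z z))))))) z))))) (n 0 (n 9 (n 0 z (n 0 z (n 0 z (n 0 z (n 0 z (n 0 z (n
 0 z (n 0 z (n 0 z (n 0 z (n 0 z (n 0 z (n 0 z (n 0 z (n 0 z (n 0 z (n 0 z (n 0 z (n 0 z (n 0 z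
 (n 0 z (n 0 z z)))))))))))))))))))))) (n 5 (n 0 z (n 0 z (n 0 z (n 0 z (n 0 z (n 0 z (n 0 z (n
 0 z (n 0 z z))))))))) (n 5 (n 0 z (n 0 z (n 0 z (n 0 z (n 0 z (n 0 z (n 0 z (n 0 z (n 0 z
 z))))))))) (n 5 (n 0 z (n 0 z (n 0 z (n 0 z (n 0 z (n 0 z (n 0 z (n 0 z (n 0 z z))))))))) z))))
 (n 0 (n 1 (n 0 z (n 0 z (n 0 z (n 0 z (n 0 z (n 0 z (n 0 z z))))))) (n 1 (n 0 z (n 0 z (n 0 z
 (n 0 z (n 0 z (n 0 z (n 0 z z))))))) (n 1 (n 0 z (n 0 z (n 0 z (n 0 z (n 0 z (n 0 z (n 0 z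
 z))))))) z))) (n 0 (n 0 z (n 0 z z)) (n 0 (n 0 z z) (n 0 z z))))))))) (n 0 (n 0 z (n 1 (n
 2164299 z (n 2164299 z (n 2164299 z (n 2164299 z (n 2164299 z (n 2164299 z z)))))) (n 1 (n 4204
 z (n 4204 z (n 2 z (n 4204 z (n 4204 z (n 4204 z z)))))) (n 0 z (n 0 z z))))) (n 0 (n 0 (n 0 (n
 0 (n 7741507 z (n 7741507 z (n 7741507 z (n 7741507 z (n 7741507 z (n 7741507 z z)))))) z) (n 0
 (n 583 (n 1 (n 7734059 z (n 7537179 z (n 4204 z (n 4204 z (n 4204 z (n 4204 z z)))))) (n 1 (n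
 7741507 z (n 7741507 z (n 7741507 z (n 7741507 z (n 7741507 z (n 7741507 z z)))))) (n 1 (n
 7741507 z (n 7741507 z (n 7741507 z (n 7741507 z (n 7741507 z (n 7741507 z z)))))) (n 0 z (n 0
 z (n 1 (n 4204 z (n 4204 z (n 7537179 z (n 4204 z (n 4400987 z (n 7734059 z z)))))) z)))))) (n
 702 (n 1 (n 5449483 z (n 5644 z (n 5644 z (n 5644 z (n 268 z (n 5644 z z)))))) (n 1 (n 7545091
 z (n 7545091 z (n 7545091 z (n 7545091 z (n 7545091 z (n 7545091 z z)))))) (n 0 z (n 1 (n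
 7545091 z (n 7545091 z (n 7545091 z (n 7545091 z (n 7545091 z (n 7545091 z z)))))) (n 0 z (n 0
 z z)))))) (n 585 (n 1 (n 7545091 z (n 5676 z (n 5676 z (n 5676 z (n 5676 z (n 5676 z z)))))) (n
 1 (n 7545091 z (n 7741507 z (n 7741507 z (n 7741507 z (n 7741507 z (n 7741507 z z)))))) (n 1 (n
 7545091 z (n 7741507 z (n 7741507 z (n 7741507 z (n 7741507 z (n 7741507 z z)))))) (n 0 z (n 0
 z (n 1 (n 7545091 z (n 5676 z (n 5676 z (n 4392795 z (n 3213163 z (n 5676 z z)))))) z)))))) (n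
 715 (n 1 (n 5379851 z (n 4700 z (n 4700 z (n 4700 z (n 4700 z (n 4700 z z)))))) (n 1 (n 7545091
 z (n 7545091 z (n 7545091 z (n 7545091 z (n 7545091 z (n 7545091 z z)))))) (n 0 z (n 1 (n
 7545091 z (n 7545091 z (n 7545091 z (n 7545091 z (n 7545091 z (n 7545091 z z)))))) (n 0 z (n 0
 z z)))))) (n 1 (n 0 z (n 1 (n 2164555 z (n 2164555 z (n 2164555 z (n 2164555 z (n 2164555 z (n
 2164555 z z)))))) (n 1 (n 7734059 z (n 7734059 z (n 7734059 z (n 7734059 z (n 7734059 z (n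
 7734059 z z)))))) (n 0 z (n 0 z z))))) (n 203 (n 1 (n 7545091 z (n 7741507 z (n 7741507 z (n
 7741507 z (n 7741507 z (n 7741507 z z)))))) (n 0 z (n 0 z (n 0 z (n 0 z (n 1 (n 7545091 z (n
 3282779 z (n 3282779 z (n 2164571 z (n 3282779 z (n 3282779 z z)))))) (n 0 z z))))))) (n 1 (n 0
 z (n 1 (n 2164555 z (n 2164555 z (n 7741507 z (n 2164555 z (n 2164555 z (n 2164555 z z)))))) (n
 1 (n 7734059 z (n 7734059 z (n 7741507 z (n 7734059 z (n 7734059 z (n 7734059 z z)))))) (n 0 z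
 (n 0 z z))))) z))))))) (n 0 z (n 0 (n 705 (n 0 z (n 0 z (n 0 z (n 0 z (n 0 z (n 0 z (n 0 z
 z))))))) (n 585 (n 0 z (n 0 z (n 0 z (n 0 z (n 0 z (n 0 z z)))))) (n 709 (n 0 z (n 0 z (n 0 z
 (n 0 z (n 0 z (n 0 z (n 0 z (n 0 z (n 0 z (n 0 z (n 0 z (n 0 z (n 0 z (n 0 z (n 0 z
 z))))))))))))))) (n 587 (n 0 z (n 0 z (n 0 z (n 0 z (n 0 z (n 0 z (n 0 z z))))))) (n 715 (n 0 z
 (n 0 z (n 0 z (n 0 z (n 0 z (n 0 z z)))))) (n 586 (n 0 z (n 0 z (n 0 z (n 0 z (n 0 z (n 0 z (n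
 0 z (n 0 z (n 0 z (n 0 z (n 0 z (n 0 z (n 0 z (n 0 z z)))))))))))))) (n 705 (n 0 z (n 0 z (n 0
 z (n 0 z (n 0 z (n 0 z (n 0 z (n 0 z (n 0 z z))))))))) (n 35 (n 0 z (n 0 z (n 0 z (n 0 z (n 0 z
 (n 0 z (n 0 z (n 0 z (n 0 z (n 0 z z)))))))))) (n 11 (n 0 z (n 0 z (n 0 z (n 0 z (n 0 z (n 0 z
 (n 0 z (n 0 z (n 0 z (n 0 z (n 0 z (n 0 z (n 0 z (n 0 z (n 0 z (n 0 z (n 0 z (n 0 z (n 0 z (n 0
 z z)))))))))))))))))))) (n 5 (n 0 z (n 0 z (n 0 z (n 0 z (n 0 z (n 0 z (n 0 z (n 0 z (n 0 z (n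
 0 z (n 0 z (n 0 z (n 0 z (n 0 z (n 0 z (n 0 z (n 0 z (n 0 z (n 0 z (n 0 z (n 0 z (n 0 z
 z)))))))))))))))))))))) (n 203 (n 0 z (n 0 z (n 0 z (n 0 z (n 0 z (n 0 z (n 0 z z))))))) (n 33
 (n 0 z (n 0 z (n 0 z (n 0 z (n 0 z (n 0 z (n 0 z z))))))) (n 135 (n 0 z (n 0 z (n 0 z (n 0 z (n
 0 z (n 0 z (n 0 z z))))))) (n 3 (n 0 z (n 0 z (n 0 z (n 0 z (n 0 z (n 0 z (n 0 z (n 0 z (n 0 z
 z))))))))) (n 1 (n 0 z (n 0 z (n 0 z (n 0 z (n 0 z (n 0 z (n 0 z z))))))) (n 525 (n 0 z (n 0 z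
 (n 0 z (n 0 z (n 0 z (n 0 z (n 0 z (n 0 z (n 0 z (n 0 z (n 0 z (n 0 z (n 0 z (n 0 z
 z)))))))))))))) (n 33 (n 0 z (n 0 z (n 0 z (n 0 z (n 0 z (n 0 z (n 0 z (n 0 z (n 0 z (n 0 z (n
 0 z (n 0 z (n 0 z z))))))))))))) (n 523 (n 0 z (n 0 z (n 0 z (n 0 z (n 0 z (n 0 z (n 0 z (n 0 z
 (n 0 z (n 0 z (n 0 z (n 0 z (n 0 z z))))))))))))) (n 3 (n 0 z (n 0 z (n 0 z (n 0 z (n 0 z (n 0
 z (n 0 z (n 0 z (n 0 z (n 0 z (n 0 z (n 0 z (n 0 z (n 0 z (n 0 z (n 0 z (n 0 z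
 z))))))))))))))))) (n 1 (n 0 z (n 0 z (n 0 z (n 0 z (n 0 z z))))) (n 0 (n 0 z (n 0 z (n 0 z (n
 0 z (n 0 z (n 0 z (n 0 z (n 0 z (n 0 z (n 0 z z)))))))))) z))))))))))))))))))))) z)))) z) z))))
 z))))), by decide +kernel⟩
theorem i10788 : ∃ t, chkR KT RW t 10788 10798 = true := ⟨(n 0x2b315 (n 0 (n 225 (n 0 z (n 0 z
 (n 0 z (n 3282443 z (n 0 z (n 0 z (n 0 z (n 0 z (n 0 z (n 0 z z)))))))))) (n 57 (n 0 z (n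
 6496515 z (n 0 z (n 0 z (n 0 z z))))) (n 51 (n 0 z (n 0 z (n 0 z (n 6496515 z (n 0 z (n 0 z (n
 0 z (n 0 z z)))))))) (n 3 (n 0 z (n 0 z (n 0 z (n 0 z (n 0 z (n 0 z (n 0 z (n 6496515 z (n 0 z
 z))))))))) (n 1 (n 0 z (n 0 z (n 0 z (n 0 z (n 0 z (n 0 z (n 0 z (n 0 z (n 2164299 z (n 0 z (n
 0 z z))))))))))) (n 0 (n 2 z (n 0 z (n 0 z (n 0 z (n 6624315 z z))))) z)))))) (n 57 (n 0 z z)
 (n 0 (n 0 z (n 1 (n 6496515 z (n 6496515 z (n 6496515 z (n 6496515 z (n 6496515 z (n 6496515 z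
 z)))))) (n 0 z (n 0 z (n 0 z z))))) (n 0 z z)))) (n 0 (n 0 (n 465 (n 0 z (n 3282443 z (n 0 z (n
 0 z (n 0 z (n 0 z z)))))) (n 33 (n 0 z (n 0 z (n 3278363 z (n 0 z (n 0 z z))))) (n 129 (n 0 z
 (n 0 z (n 0 z (n 0 z (n 0 z (n 0 z (n 0 z (n 6566419 z (n 0 z z))))))))) (n 3 (n 6566419 z (n 0
 z (n 0 z (n 0 z (n 0 z (n 0 z z)))))) (n 1 (n
 0xaca4ca42036a9792a98ad991e85f82182176375e8207a575e79e7a27657657627a085f6e57a17a17608a10801 z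
 (n 0 z (n 0 z (n 6566419 z (n 0 z (n 0 z z)))))) (n 0 (n 0 z (n 0 z (n 6631691 z (n 0 z (n 0 z
 (n 0 z (n 0 z z))))))) z)))))) (n 33 z (n 0 (n 0 z (n 0 z (n 1 (n 6631691 z (n 6566419 z (n
 3278363 z (n 3278363 z (n 3278363 z (n 3278363 z z)))))) (n 0 z (n 0 z z))))) (n 0 z z)))) (n
 0xa5a343ad3a1a85dac42da61a6eb40b49d09a (n 0 (n 153 (n 0 z (n 0 z (n 0 z (n 3282443 z (n 0 z
 z))))) (n 33 (n 0 z (n 0 z (n 3278363 z (n 0 z (n 0 z z))))) (n 129 (n 2 z (n 0 z (n 0 z (n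
 0xaca8ca860781e99f9e89229e291d5a281576379a81e6dc6e19687619247e279b9e08618df55c7a47168660801 z
 (n 0 z (n 0 z (n 0 z (n 10 z (n 6566419 z (n
 0xaca6ca600781e99f9e89229e291d5a281576379a81e6dc6e19687619247e279b9e08618df55c7a47168660801 z
 z)))))))))) (n 3 (n 18 z (n 0 z (n 26 z (n 0 z (n 6566419 z z))))) (n 1 (n 0 z (n 0 z (n
 6566419 z (n 0 z (n 0 z z))))) (n 0 (n 34 z (n 42 z (n 2164315 z (n 50 z (n 0 z z))))) z))))))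
 (n 153 (n 0 (n 0 z (n 247 (n 0 z (n 0 z (n 0 z (n 0 z (n 0 z (n 0 z (n 0 z (n 0 z z)))))))) (n
 247 (n 0 z (n 0 z (n 0 z (n 0 z (n 0 z (n 0 z (n 0 z (n 0 z z)))))))) (n 241 (n 0 z (n 0 z (n 0
 z (n 0 z (n 0 z (n 0 z z)))))) (n 241 (n 0 z (n 0 z (n 0 z (n 0 z (n 0 z (n 0 z z)))))) (n 241
 (n 0 z (n 0 z (n 0 z (n 0 z (n 0 z (n 0 z z)))))) z)))))) (n 0 (n 295 (n 0 z (n 0 z (n 0 z (n 0
 z (n 0 z (n 0 z (n 0 z z))))))) (n 295 (n 0 z (n 0 z (n 0 z (n 0 z (n 0 z (n 0 z (n 0 z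
 z))))))) (n 289 (n 0 z (n 0 z (n 0 z (n 0 z (n 0 z (n 0 z (n 0 z (n 0 z z)))))))) (n 289 (n 0 z
 (n 0 z (n 0 z (n 0 z (n 0 z (n 0 z (n 0 z (n 0 z z)))))))) (n 289 (n 0 z (n 0 z (n 0 z (n 0 z
 (n 0 z (n 0 z (n 0 z (n 0 z z)))))))) z))))) (n 0 (n 0 z (n 1 (n 0 z (n 0 z (n 0 z (n 0 z (n 0
 z z))))) (n 1 (n 0 z (n 0 z (n 0 z (n 0 z (n 0 z z))))) (n 1 (n 0 z (n 2 z (n 0 z (n 0 z (n 0 z
 z))))) z)))) (n 0 (n 253 (n 0 z (n 0 z (n 0 z (n 0 z (n 0 z (n 0 z z)))))) (n 253 (n 0 z (n 0 z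
 (n 0 z (n 0 z (n 0 z (n 0 z z)))))) (n 253 (n 0 z (n 0 z (n 2 z (n 0 z (n 0 z (n 0 z z))))))
 z))) (n 0 (n 0 z (n 0 z z)) (n 0 (n 0 z z) (n 0 z z))))))) (n 0 (n 0 z (n 0 z (n 0 z (n 1 (n
 3282443 z (n 3282443 z (n 3282443 z (n 3282443 z (n 3282443 z (n 3282443 z z)))))) (n 0 z
 z))))) (n 0 z z)))) (n 0x2c65d06166da196d90596cc2c0 (n 0 (n 357 (n 6627395 z (n 0 z (n 2 z (n 0
 z z)))) (n 263 (n 3278363 z (n 0 z (n 0 z z))) (n 9 (n 6627395 z (n 0 z (n 0 z (n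
 0x1cca8ca86079ac357a85b898c776a98538c767f7b9cac715d94787278877b807d8a7d608878974e7966c255709c75688353b673ab478aa30809
 z (n 0 z (n 0 z (n 0 z (n 6627395 z (n 0 z (n
 0xaca6ca62078b9b70907183857c778a6d857c807e8c927a72887d7a7d837e807f847f73837d8a6b7d759b6e7a8c7c76826e977a9269848e0809
 z z)))))))))) (n 3 (n 10 z (n 0 z (n 0 z (n 18 z (n 0 z (n 0 z (n 0 z (n 2164283 z z)))))))) (n
 1 (n 0 z (n 0 z (n 0 z (n 0 z (n 0 z (n 0 z (n 0 z (n 6563083 z (n 0 z (n 0 z (n 0 z (n 0 z (n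
 0 z (n 0 z z)))))))))))))) (n 0 (n 26 z (n 6627395 z (n 0 z (n 34 z (n 0 z (n 0 z z))))))
 z)))))) (n 263 (n 0 (n 81 (n 0 z (n 0 z (n 0 z (n 0 z (n 0 z (n 0 z (n 0 z (n 0 z z)))))))) (n
 81 (n 0 z (n 0 z (n 0 z (n 0 z (n 0 z (n 0 z (n 0 z (n 0 z z)))))))) (n 73 (n 0 z (n 0 z (n 0 z
 (n 0 z (n 0 z (n 0 z (n 0 z z))))))) (n 73 (n 0 z (n 0 z (n 0 z (n 0 z (n 0 z (n 0 z (n 0 z
 z))))))) z)))) (n 0 (n 0 z (n 737 (n 0 z (n 0 z (n 0 z (n 0 z (n 0 z (n 0 z (n 0 z (n 0 z (n 0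
 z (n 0 z z)))))))))) (n 737 (n 0 z (n 0 z (n 0 z (n 0 z (n 0 z (n 0 z (n 0 z (n 0 z (n 0 z (n 0
 z z)))))))))) z))) (n 0 (n 253 (n 0 z (n 0 z (n 0 z (n 0 z (n 0 z z))))) (n 253 (n 0 z (n 0 z
 (n 0 z (n 0 z (n 0 z z))))) z)) (n 0 (n 0 z z) (n 0 z z))))) (n 0 (n 1 (n 3278363 z (n 3278363
 z (n 3278363 z (n 3278363 z (n 3278363 z (n 3278363 z z)))))) (n 0 z (n 0 z z))) (n 0 z z))))
 (n 0 (n 0 (n 329 (n 0 z (n 0 z (n 3282443 z (n 0 z (n 0 z (n 0 z (n 0 z (n 0 z (n 0 z (n 0 z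
 z)))))))))) (n 315 (n 0 z (n 0 z (n 0 z (n 0 z (n 0 z (n 6631715 z (n 0 z (n 0 z z)))))))) (n
 171 (n 6628123 z (n 0 z (n 0 z z))) (n 27 (n 0 z (n 0 z (n 0 z (n 0 z (n 6631715 z (n 0 z (n 0
 z z))))))) (n 1 (n 0 z (n 2164299 z (n 0 z (n 0 z z)))) (n 0 (n 0 z (n 0 z (n 0 z (n 0 z (n
 6631715 z (n 0 z (n 0 z (n 0 z (n 0 z (n 0 z z)))))))))) z)))))) (n 171 z (n 0 (n 1 (n 6628123
 z (n 6628123 z (n 6631715 z (n 6628123 z (n 6628123 z (n 6628123 z z)))))) (n 0 z (n 0 z z)))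
 (n 0 z z)))) (n 0x43b1c (n 0 (n 177 (n 0 z (n 6627395 z z)) (n 39 (n 0 z (n 0 z (n 0 z (n
 6496595 z z)))) (n 129 (n 0 z (n 6627395 z (n 0 z z))) (n 27 (n 0 z (n 6496595 z (n 0 z z))) (n
 1 (n 2 z (n 0 z (n 2164299 z (n 0 z (n 0 z z))))) (n 0 (n 6627395 z (n 0 z (n 0 z (n 0 z (n 0 z
 z))))) z)))))) (n 177 (n 0 z z) (n 0 (n 0 z (n 1 (n 6627395 z (n 6627395 z (n 6627395 z (n
 6627395 z (n 6627395 z (n 6627395 z z)))))) z)) (n 0 z z)))) (n 0xca236e41151308a (n 0 (n 471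
 (n 0 z (n 0 z (n 0 z (n 0 z (n 0 z (n 3282443 z (n 0 z z))))))) (n 59 (n 0 z (n 0 z (n 6631715
 z (n 0 z (n 0 z z))))) (n 9 (n 0 z (n 6563131 z (n 0 z (n 0 z (n 3212843 z (n 0 z (n 2 z (n 10
 z (n 0 z z))))))))) (n 3 (n 0 z (n 6631715 z (n 0 z (n 0 z (n 0 z z))))) (n 1 (n 0 z (n 0 z (n
 0 z (n 6563131 z z)))) (n 0 (n 0 z (n 6631715 z (n 18 z (n 0 z z)))) z)))))) (n 1 (n 0 (n 0 z
 (n 49 (n 0 z (n 0 z (n 0 z (n 0 z (n 0 z (n 0 z (n 0 z (n 0 z (n 0 z (n 0 z z)))))))))) z)) (n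
 0 (n 49 (n 0 z (n 0 z (n 0 z (n 0 z (n 0 z (n 0 z (n 0 z (n 0 z (n 0 z z))))))))) z) (n 0 z
 z))) (n 0 (n 0 z (n 0 z (n 0 z (n 1 (n 6563131 z (n 6563131 z (n 6563131 z (n 6563131 z (n
 6563131 z (n 6563131 z z)))))) z)))) (n 0 z z)))) (n
 0x3568d0cd2e82eb97314b6d06534c34d922b8c974424bac0 (n 0 (n 443 (n 3282443 z (n 0 z (n 2 z z)))
 (n 571 (n 3278363 z (n 0 z (n 10 z (n 0 z z)))) (n 439 (n 0 z (n 0 z (n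
 0x2ca4a2060785f7e07e07e082085f8217e182182082081f8208207df82186086182082186082081f8208200801 z
 (n 0 z (n 0 z (n 0 z (n 0 z (n 0 z (n 0 z (n 0 z (n 0 z (n 3212843 z (n 0 z (n 0 z (n 0 z (n 0
 z (n 0 z z))))))))))))))))) (n 3 (n 18 z (n 26 z (n 34 z (n 0 z (n 0 z (n 6636323 z (n 42 z
 z))))))) (n 1 (n 0 z (n 6636323 z (n 0 z z))) (n 0 (n 0 z (n 0 z (n 50 z (n 0 z (n 0 z (n 0 z
 (n 58 z (n 0 z (n 0xca68604030821 z (n 6636323 z (n 0 z (n 0 z (n 0 z (n 0 z (n 0 z (n 0 z (n 0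
 z (n 0 z (n 0 z (n 66 z z)))))))))))))))))))) z)))))) (n 443 (n 0 (n 191 (n 0 z (n 0 z (n 0 z
 (n 0 z (n 0 z (n 0 z z)))))) (n 181 (n 0 z (n 0 z (n 0 z (n 0 z (n 0 z (n 0 z (n 0 z z)))))))
 (n 181 (n 0 z (n 0 z (n 2 (n 0 z (n 0 z (n 1 z (n 1 z (n 1 z z))))) (n 0 z (n 0 z (n 0 z (n 0 z
 z))))))) (n 181 (n 0 z (n 2 (n 0 z (n 1 z (n 1 z (n 1 z z)))) (n 0 z (n 0 z (n 0 z (n 0 z (n 0
 z z))))))) (n 181 (n 0 z (n 0 z (n 0 z (n 0 z (n 0 z (n 0 z (n 0 z z))))))) (n 1105 (n 0 z (n 0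
 z (n 0 z (n 0 z (n 0 z (n 0 z z)))))) (n 1105 (n 0 z (n 0 z (n 0 z (n 0 z (n 0 z (n 0 z z))))))
 (n 1105 (n 0 z (n 0 z (n 0 z (n 0 z (n 0 z (n 0 z z)))))) z)))))))) (n 0 (n 421 (n 0 z (n 0 z
 (n 0 z (n 0 z (n 0 z (n 0 z (n 0 z (n 0 z (n 0 z (n 0 z z)))))))))) (n 421 (n 0 z (n 0 z (n 0 z
 (n 0 z (n 0 z (n 0 z (n 0 z (n 0 z (n 0 z (n 0 z z)))))))))) (n 421 (n 0 z (n 0 z (n 0 z (n 2
 (n 0 z (n 1 z (n 1 z (n 2 (n 0 z (n 0 z (n 0 z (n 0 (n 4132 z (n 8804171 z z)) (n 0 (n 6555691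
 z z) (n 0 (n 4132 z z) z)))))) z)))) (n 0 z (n 0 z (n 0 z (n 0 z (n 0 z (n 0 z z)))))))))) (n
 421 (n 0 z (n 0 z (n 0 z (n 0 z (n 0 z (n 0 z (n 0 z (n 0 z (n 0 z (n 0 z z)))))))))) (n 1033
 (n 0 z (n 0 z (n 0 z (n 0 z (n 0 z (n 0 z (n 0 z (n 0 z z)))))))) (n 1033 (n 0 z (n 0 z (n 0 z
 (n 0 z (n 0 z (n 0 z (n 0 z (n 0 z z)))))))) (n 1033 (n 0 z (n 0 z (n 0 z (n 0 z (n 0 z (n 0 z
 (n 0 z (n 0 z z)))))))) z))))))) (n 0 (n 0 z (n 0 z (n 0 z (n 1 (n 0 z (n 0 z (n 0 z (n 0 z (n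
 0 z (n 0 z z)))))) (n 1 (n 0 z (n 0 z (n 0 z (n 0 z (n 0 z (n 0 z z)))))) (n 1 (n 0 z (n 0 z (n
 0 z (n 0 z (n 0 z (n 0 z z)))))) z)))))) (n 0 (n 0 z (n 0 z (n 1 (n 0 z (n 0 z (n 0 z (n 0 z (n
 0 z (n 0 z (n 0 z z))))))) (n 1 (n 0 z (n 0 z (n 0 z (n 0 z (n 0 z (n 0 z (n 0 z z))))))) (n 1
 (n 0 z (n 0 z (n 0 z (n 0 z (n 0 z (n 2 z (n 0 z z))))))) z))))) (n 0 (n 0 z (n 253 (n 2 (n 0 z
 (n 0 z z)) (n 0 z (n 0 z (n 0 z (n 0 z (n 0 z (n 0 z z))))))) (n 253 (n 0 z (n 0 z (n 0 z (n 0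
 z (n 2 (n 0 z z) (n 0 z (n 0 z z))))))) (n 253 (n 0 z (n 0 z (n 0 z (n 0 z (n 0 z (n 0 z (n 0 z
 z))))))) z)))) (n 0 (n 253 (n 0 z (n 0 z (n 0 z (n 0 z (n 0 z (n 0 z (n 0 z z))))))) (n 253 (n
 0 z (n 0 z (n 0 z (n 0 z (n 0 z (n 0 z (n 0 z z))))))) (n 253 (n 0 z (n 0 z (n 0 z (n 0 z (n 0
 z (n 2 z (n 0 z z))))))) z))) (n 0 (n 0 z (n 0 z z)) (n 0 (n 0 z z) (n 0 z z))))))))) (n 0 (n 1
 (n 3282443 z (n 3282443 z (n 3282443 z (n 3282443 z (n 3282443 z (n 3282443 z z)))))) (n 0 z (n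
 1 (n 4572 z (n 4572 z (n 4572 z (n 3516 z (n 4572 z (n 4572 z z)))))) z))) (n 0 z z)))) (n
 0x122c330a740 (n 0 (n 449 (n 6623283 z (n 0 z (n 0 z (n 0 z (n 0 z (n 2 z (n 0 z (n 0 z (n 0 z
 (n 0 z (n 0 z (n 0 z z)))))))))))) (n 448 (n 6623283 z (n 0 z (n 0 z (n 10 z (n 0 z (n 0 z (n 0
 z (n 0 z z)))))))) (n 452 (n
 0x6ca8ca62038a37da79f8e172171e81d7e189e7a086276085f7a28208e27617dd75c9609229a082181f6db0801 z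
 (n 3212843 z (n 0 z (n 0 z (n 0 z (n 0 z z)))))) (n 3 (n 6566155 z (n 0 z (n 0 z z))) (n 1 (n
 6566155 z (n 0 z (n 0 z (n 0 z (n 0 z z))))) (n 0 (n 0 z (n 6623283 z (n 0 z (n 0 z (n 0 z
 z))))) z)))))) (n 3 (n 0 (n 1111 (n 0 z (n 0 z (n 0 z (n 0 z (n 0 z (n 0 z (n 0 z z))))))) z)
 (n 0 z z)) (n 0 (n 1 (n 6566155 z (n 6566155 z (n 6623283 z (n 6566155 z (n 6566155 z (n
 6566155 z z)))))) (n 0 z (n 0 z z))) (n 0 z z)))) (n 0xb2376141c4ec122 (n 0 (n 443 (n 6627379 z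
 (n 0 z (n 0 z (n 0 z (n 0 z (n 0 z (n 0 z (n 0 z z)))))))) (n 454 (n 3278363 z (n 0 z (n 0 z (n
 0 z (n 0 z (n 0 z z)))))) (n 442 (n 6627379 z (n 0 z (n 0 z (n 2 z (n 10 z (n 0 z (n 0 z
 z))))))) (n 3 (n 6566411 z (n 0 z (n 0 z z))) (n 1 (n 6566411 z (n 0 z z)) (n 0 (n 0 z (n 0 z
 (n 6627379 z (n 0 z (n 0 z (n 18 z (n 0 z z))))))) z)))))) (n 1 (n 0 (n 0 z (n 257 (n 0 z (n 0
 z (n 0 z (n 0 z (n 0 z (n 0 z (n 0 z (n 0 z z)))))))) z)) (n 0 (n 1133 (n 0 z (n 0 z (n 2 z (n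
 0 z (n 0 z (n 0 z (n 0 z z))))))) z) (n 0 z z))) (n 0 (n 1 (n 6566411 z (n 6566411 z (n 6566411
 z (n 6566411 z (n 6566411 z (n 6566411 z z)))))) (n 0 z z)) (n 0 z z)))) z)))))))))),
 by decide +kernel⟩
theorem i10798 : ∃ t, chkR KT RW t 10798 10808 = true := ⟨(n 0 (n 0 (n 573 (n 6623283 z (n 0 z
 (n 0 z (n 0 z (n 0 z z))))) (n 571 (n 0 z (n 0 z (n 6623283 z (n 0 z (n 0 z (n 0 z (n 0 z
 z))))))) (n 570 (n 0 z (n 3212843 z (n 0 z (n 0 z (n 0 z (n 0 z z)))))) (n 3 (n 0 z (n 6566155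
 z (n 0 z (n 0 z (n 0 z (n 0 z (n 0 z z))))))) (n 1 (n 6566155 z (n 0 z (n 0 z (n 0 z (n 0 z
 z))))) (n 0 (n 6623283 z (n 0 z (n 0 z (n 0 z (n 0 z (n 0 z z)))))) z)))))) (n 573 z (n 0 (n 1
 (n 6623283 z (n 6623283 z (n 6623283 z (n 6623283 z (n 6623283 z (n 6623283 z z)))))) (n 0 z (n
 0 z (n 0 z (n 0 z z))))) (n 0 z z)))) (n 0x75b56a8094d305a (n 0 (n 177 (n 0 z (n 3282443 z (n 0
 z z))) (n 33 (n 0 z (n 0 z (n 3278363 z (n 0 z z)))) (n 129 (n 6632003 z (n 0 z (n 2 z (n 0 z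
 (n 0 z (n 10 z (n 0 z (n 6632003 z (n 0 z (n 0 z (n
 0xb29b28200c765251040180ca8ca86037656959218dc6607db919b1f663c52c1c8a272069ea2875da1f65f7688d071a82471f6a5a9d1801
 z (n 0 z (n 6632003 z z))))))))))))) (n 3 (n 0 z (n 0 z (n 6632003 z (n 0 z (n 0 z (n 0 z (n 0
 z (n 0 z (n 0 z z))))))))) (n 1 (n 0 z (n 0 z (n 0 z (n 0 z (n 0 z (n 0 z (n 0 z (n 2164299 z
 (n 0 z (n 0 z z)))))))))) (n 0 (n 2164315 z (n 0 z (n 18 z (n 0 z (n 0 z (n 6632003 z (n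
 6632003 z (n 6632003 z (n 0 z z))))))))) z)))))) (n 177 (n 0 (n 0 z (n 289 (n 0 z (n 0 z (n 0 z
 (n 0 z (n 0 z (n 0 z (n 0 z (n 0 z (n 0 z (n 0 z (n 0 z (n 0 z z)))))))))))) z)) (n 0 (n 241 (n
 0 z (n 0 z (n 0 z (n 0 z (n 0 z (n 6563611 z (n 0 z (n 0 z (n 0 z (n 0 z (n 0 z (n 0 z (n 0 z
 (n 0 z (n 0 z (n 0 z (n 0 z (n 0 z (n 0 z (n 0 z (n 0 z (n 0 z (n 0 z z)))))))))))))))))))))))
 z) (n 0 z z))) (n 0 (n 0 z (n 1 (n 3282443 z (n 3282443 z (n 3282443 z (n 3282443 z (n 3282443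
 z (n 3282443 z z)))))) (n 0 z z))) (n 0 z z)))) (n 0x474109930a7485010e540 (n 0 (n 177 (n 0 z
 (n 0 z (n 6627395 z (n 0 z (n 2 z (n
 0x864c20a07014c99450061290b28180c065354320180ca6a824070590d5048060b29a98900c065464210182ca8a8420385d86189c86175f89e81f8227a27a18607a17e27e18a086281e8217a08a175f9217e181f7df4801
 z (n 10 z (n 0 z z)))))))) (n 39 (n 18 z (n 26 z (n 3278363 z (n 0 z (n 0 z (n 0 z (n 0 z
 z))))))) (n 129 (n 0 z (n 6627395 z (n 0 z (n 0 z z)))) (n 27 (n 0 z (n 6567211 z (n 0 z z)))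
 (n 1 (n 0 z (n 6567211 z (n 0 z (n 0 z (n 0 z z))))) (n 0 (n 0 z (n 6627395 z (n 0 z (n 0 z (n
 0 z (n 0 z (n 0 z z))))))) z)))))) (n 27 (n 0 (n 0 z (n 983 (n 0 z (n 0 z (n 0 z (n 0 z (n 0 z
 (n 0 z (n 0 z (n
 0x75476230180ec8ea460301951d48c0e0baa329181c065474230382e84ec06037dd8da89a8637a07de7257a48236e67de8217e485b89d9607dc81e82485f7209e38618628603001
 z (n 0 z (n 0 z z)))))))))) (n 983 (n 0 z (n 0 z (n 0 z (n 0 z (n 0 z (n 0 z (n 0 z (n 0 z (n 0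
 z (n 0 z z)))))))))) z))) (n 0 (n 511 (n 0 z (n 0 z (n 0 z (n 0 z (n 0 z (n 0 z (n 0 z (n 0 z
 (n 0 z (n 0 z z)))))))))) (n 511 (n 0 z (n 0 z (n 0 z (n 0 z (n 0 z (n
 0x43261050380ca8ea460709d91948c06032a3a1181c076554230182ea6c8640781d91d7db8617217198a076292676475e8e57a581f89a9238a09df81f8dd8209e78237a379b3001
 z (n 0 z (n 0 z (n 0 z (n 0 z z)))))))))) z)) (n 0 (n 0 z z) (n 0 z z)))) (n 0 (n 0 z (n 1 (n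
 6567211 z (n 6567211 z (n 6567211 z (n 6567211 z (n 6567211 z (n 6567211 z z)))))) (n 0 z z)))
 (n 0 z z)))) (n 0 (n 0 (n 177 (n 0 z (n 0 z (n 3282443 z z))) (n 33 (n 0 z (n 0 z (n 0 z (n 0 z
 (n 6496595 z z))))) (n 129 (n 0 z (n 0 z (n 0 z (n 0 z (n 6496595 z (n 0 z (n 0 z z))))))) (n 3
 (n 0 z (n 0 z (n 0 z (n 0 z (n 0 z (n 0 z (n 6496595 z (n 0 z (n 0 z z))))))))) (n 1 (n 6558475
 z (n 0 z (n 0 z (n 0 z (n 0 z z))))) (n 0 (n 0 z (n 6619675 z (n 0 z (n 0 z (n 0 z (n 0 z (n 0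
 z (n 0 z (n 0 z (n 0 z z)))))))))) z)))))) (n 177 z (n 0 (n 0 z (n 0 z (n 1 (n 3282443 z (n
 6558475 z (n 3282443 z (n 3282443 z (n 3282443 z (n 3282443 z z)))))) z))) (n 0 z z)))) (n
 0x319d7186d18c2adc68345b22b6da6114ca0da (n 0 (n 177 (n 0 z (n 0 z (n 3282443 z (n 0 z z)))) (n
 33 (n 0 z (n 0 z (n 6496595 z (n 0 z z)))) (n 129 (n 0 z (n 0 z (n 2 z (n 10 z (n 0 z (n 0 z (n
 0 z (n 6496595 z z)))))))) (n 3 (n 0 z (n 0 z (n 18 z (n 26 z (n 0 z (n 0 z (n 0 z (n 0 z (n 0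
 z (n 6496595 z z)))))))))) (n 1 (n 6558475 z (n 0 z (n 34 z (n 42 z (n 50 z (n 0 z z)))))) (n 0
 (n 0 z (n 6619675 z (n 0 z (n 0 z z)))) z)))))) (n 177 (n 0 (n 0 z (n 1093 (n 0 z (n 0 z (n 0 z
 (n 0 z (n 0 z (n 0 z z)))))) (n 1093 (n 0 z (n 2 (n 1 z (n 1 z (n 1 z z))) (n 0 z (n 0 z (n 0 z
 (n 0 z z)))))) (n 339 (n 0 z (n 0 z (n 0 z (n 0 z (n 0 z (n 0 z z)))))) (n 339 (n 0 z (n 0 z (n
 0 z (n 0 z (n 0 z (n 0 z z)))))) (n 339 (n 0 z (n 0 z (n 0 z (n 0 z (n 0 z (n 0 z z))))))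
 z)))))) (n 0 (n 55 (n 0 z (n 0 z (n 0 z (n 0 z (n 0 z (n 2 (n 0 z (n 1 z (n 1 z (n 1 z z)))) (n
 0 z (n 0 z (n 0 z (n 0 z (n 0 z (n 0 z (n 0 z (n 0 z (n 0 z (n 0 z (n 0 z (n 0 z (n 0 z (n 0 z
 (n 0 z (n 0 z z)))))))))))))))))))))) (n 55 (n 0 z (n 0 z (n 0 z (n 0 z (n 0 z (n 0 z (n 0 z (n
 0 z (n 0 z (n 0 z (n 0 z (n 0 z (n 0 z (n 0 z (n 0 z (n 0 z (n 0 z (n 0 z (n 0 z (n 0 z (n 0 z
 (n 0 z z)))))))))))))))))))))) (n 3 (n 0 z (n 0 z (n 0 z (n 0 z (n 0 z (n 0 z z)))))) (n 3 (n 0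
 z (n 0 z (n 0 z (n 0 z (n 0 z (n 0 z z)))))) (n 3 (n 0 z (n 0 z (n 2 z (n 0 z (n 0 z (n 0 z
 z)))))) z))))) (n 0 (n 0 z (n 3 (n 0 z (n 0 z (n 0 z (n 0 z (n 0 z (n 0 z (n 0 z z))))))) (n 3
 (n 0 z (n 2 (n 0 z z) (n 0 z (n 0 z (n 0 z (n 0 z (n 0 z z))))))) (n 3 (n 0 z (n 0 z (n 0 z (n
 0 z (n 0 z (n 0 z (n 0 z z))))))) z)))) (n 0 (n 99 (n 0 z (n 0 z (n 0 z (n 0 z (n 2 (n 0 z (n 0
 z z)) (n 0 z (n 0 z z))))))) (n 99 (n 0 z (n 0 z (n 0 z (n 0 z (n 0 z (n 0 z (n 0 z z))))))) (n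
 99 (n 0 z (n 0 z (n 0 z (n 2 z (n 0 z (n 0 z (n 0 z z))))))) z))) (n 0 (n 0 z (n 0 z z)) (n 0
 (n 0 z z) (n 0 z z))))))) (n 0 (n 0 z (n 0 z (n 1 (n 3282443 z (n 3282443 z (n 6558475 z (n
 3282443 z (n 3282443 z (n 3282443 z z)))))) (n 0 z z)))) (n 0 z z)))) (n 0 (n 0 (n 323 (n 0 z
 (n 0 z (n 6623299 z (n 0 z (n 0 z (n 0 z (n 0 z (n 0 z z)))))))) (n 317 (n 0 z (n 0 z (n 0 z (n
 0 z (n 6623299 z (n 0 z (n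
 0x2ca8ca80037df82082082082086079f7e082086081f7e08618208208207e082081f8208208208208218200801 z
 (n 0 z (n 0 z z))))))))) (n 9 (n 0 z (n 0 z (n 0 z (n 0 z (n 6562059 z (n 0 z z)))))) (n 3 (n 0
 z (n 0 z (n 0 z (n 6567179 z (n 0 z (n 0 z (n 0 z (n 0 z (n 0 z (n 0 z z)))))))))) (n 1 (n 0 z
 (n 6562059 z (n 0 z (n 0 z (n 0 z (n 0 z z)))))) (n 0 (n 0 z (n 0 z (n 6623299 z (n 0 z (n 0 z
 (n 0 z (n 0 z (n 0 z (n 0 z z))))))))) z)))))) (n 9 z (n 0 (n 0 z (n 0 z (n 0 z (n 0 z (n 1 (n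
 6562059 z (n 6562059 z (n 6562059 z (n 6562059 z (n 6562059 z (n 6562059 z z)))))) (n 0 z
 z)))))) (n 0 z z)))) (n 0 (n 0 (n 183 (n 0 z (n 0 z (n 3282443 z (n 0 z z)))) (n 33 (n 0 z (n 0
 z (n 3278363 z (n 0 z (n 0 z z))))) (n 129 (n 0 z (n 0 z (n 0 z (n 0 z (n 0 z (n 0 z (n 6632003
 z (n 0 z z)))))))) (n 3 (n 0 z (n 0 z (n 6632003 z (n 0 z (n 0 z z))))) (n 1 (n 0 z (n 0 z (n 0
 z (n 0 z (n 0 z (n 0 z (n 0 z (n 0 z (n 2164299 z (n 0 z (n 0 z z))))))))))) (n 0 (n 0 z (n 0 z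
 (n 0 z (n 0 z (n 0 z (n 0 z (n 0 z (n 6632003 z (n 0 z (n 0 z (n 0 z (n 0 z z))))))))))))
 z)))))) (n 183 z (n 0 (n 0 z (n 0 z (n 1 (n 3282443 z (n 3282443 z (n 3282443 z (n 3282443 z (n
 3282443 z (n 3282443 z z)))))) (n 0 z z)))) (n 0 z z)))) (n
 0x690ba2d49d14b26854c742659b102cb6c389c4c329b4224a316289904b698462658054940 (n 0 (n 153 (n 2 z
 (n 0 z (n 0 z (n 10 z (n 0 z (n 0 z (n 0 z (n 6496339 z (n 0 z z))))))))) (n 33 (n 18 z (n 26 z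
 (n 3278363 z z))) (n 9 (n 0 z (n 0 z (n 34 z (n 42 z (n 50 z (n 6496339 z (n 6496339 z z)))))))
 (n 27 (n 0 z (n 58 z (n 66 z (n 0 z (n 6496339 z (n 0 z z)))))) (n 1 (n 0 z (n 0 z (n 2164299 z
 (n 0 z z)))) (n 0 (n 74 z (n
 0x74ca48206078127c57b48357ea83077b8307b38837e884c8067df7e386c8017f98268917727ca7e680d7e17e88027a07fd80c7fc74a83d8148847d382e7e680f7cd8aa79183e73582a81881f7f48148290811
 z (n 82 z (n 2164315 z (n 0 z (n 90 z (n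
 0x22c86c802078087f180a8038058048177f27fa7ef8018058007fd7e57fa8037fe7fb8088068158048027f781a7fe8088008018007f87fd7ed7fa8057fc8078027fa7eb80d80980380c7ee80c80a7fa8030811
 z (n 98 z (n
 0x1c6408028018007fa8117fd80c7f48167f28028047fe8027f57f37fc8037f880680880c8027fa7fc80780680c8017fd8028018087f67ff7f18018058037fd7f58047f880b8028047fc7fb8038040051
 z (n
 0x98c588100e032ca48206078008038037fe7f981c7df8147bd8328088077f87f580e8168007ef8098027d77ec7ff7ff7f580580d7fa80080d8057de7e381c81680f7dd80580f7f68297fe8237be8257df8178127ea7ff1011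
 z (n
 0x1846408178177df7738fa7e88f77028fc73981c8497e583875f74e7d182c79686c8678ad8247bb7c88b27df8cb8007cc82079088f72d7f978b80b8488257b77af87a7c58247bf81a8278017c684d0051
 z (n 106 z z)))))))))))) z)))))) (n 33 (n 0 (n 0 z (n 235 (n 2 (n 0 z (n 2 (n 0 z (n 0 z (n 0 z
 (n 0 z (n 0 z (n 0 z z)))))) (n 2 (n 0 z (n 0 z (n 0 z (n 0 z (n 0 z (n 0 (n 8868419 z z)
 z)))))) (n 2 (n 0 z (n 0 z (n 0 z (n 0 z (n 0 z (n 0 z z)))))) (n 1 z (n 2 (n 0 z (n 0 z (n 0 z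
 (n 0 z (n 0 z (n 0 z z)))))) (n 2 (n 0 z (n 0 z (n 0 z (n 0 z (n 0 z (n 0 z z)))))) (n 2 (n 0 z
 (n 0 z (n 0 z (n 0 z (n 0 z (n 0 z z)))))) (n 2 (n 0 z (n 0 z (n 0 z (n 0 z (n 0 z (n 0 z
 z)))))) (n 1 z (n 2 (n 0 z (n 0 z (n 0 z (n 0 z (n 0 z (n 0 z z)))))) z))))))))))) (n 0 z (n 0
 z (n 0 z (n 0 z z))))) (n 235 (n 0 z (n 0 z (n 0 z (n 0 z (n 0 z z))))) (n 237 (n 0 z (n 0 z (n
 0 z (n 0 z (n 0 z (n 0 z (n 2 (n 0 z (n 0 z (n 2 (n 0 z (n 0 z (n 0 z (n 0 z (n 0 z (n 0 z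
 z)))))) (n 2 (n 0 z (n 0 z (n 0 z (n 0 z (n 0 z (n 0 z z)))))) (n 2 (n 0 z (n 0 z (n 0 z (n 0 z
 (n 0 z (n 0 z z)))))) (n 2 (n 0 z (n 0 z (n 0 z (n 0 z (n 0 z (n 0 z z)))))) (n 2 (n 0 z (n 0 z
 (n 0 z (n 0 z (n 0 z (n 0 (n 1220 z z) z)))))) (n 1 z (n 2 (n 0 (n 8803115 z z) (n 0 z (n 0 (n
 8803115 z z) (n 0 z (n 0 z (n 0 (n 8803115 z (n 8803115 z z)) z)))))) z))))))))) z))))))) (n
 237 (n 0 z (n 0 z (n 0 z (n 0 z (n 2 (n 0 z (n 2 (n 0 z (n 0 z (n 0 z (n 0 z (n 0 z (n 0 z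
 z)))))) (n 2 (n 0 z (n 0 z (n 0 z (n 0 z (n 0 z (n 0 z z)))))) (n 2 (n 0 z (n 0 z (n 0 z (n 0 z
 (n 0 z (n 0 z z)))))) (n 2 (n 0 z (n 0 z (n 0 z (n 0 z (n 0 z (n 0 z z)))))) (n 2 (n 0 z (n 0 z
 (n 0 z (n 0 z (n 0 z (n 0 z z)))))) (n 2 (n 0 z (n 0 z (n 0 z (n 0 z (n 0 z (n 0 (n 53 z z)
 z)))))) (n 2 (n 0 z (n 0 z (n 0 z (n 0 z (n 0 z (n 0 z z)))))) z)))))))) (n 0 z (n 0 z z)))))))
 (n 237 (n 0 z (n 0 z (n 0 z (n 2 (n 2 (n 0 z (n 0 z (n 0 z (n 0 z (n 0 z (n 0 z z)))))) (n 2 (n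
 0 z (n 0 z (n 0 z (n 0 z (n 0 z (n 0 z z)))))) (n 2 (n 0 z (n 0 z (n 0 z (n 0 z (n 0 z (n 0 z
 z)))))) (n 2 (n 0 z (n 0 z (n 0 z (n 0 z (n 0 z (n 0 z z)))))) (n 2 (n 0 z (n 0 z (n 0 z (n 0 z
 (n 0 z (n 0 z z)))))) (n 2 (n 0 z (n 0 z (n 0 z (n 0 z (n 0 z (n 0 (n 197 z z) z)))))) (n 2 (n
 0 z (n 0 z (n 0 z (n 0 z (n 0 z (n 0 z z)))))) z))))))) (n 0 z (n 0 z (n 0 z z))))))) (n 233 (n
 0 z (n 0 z (n 0 z (n 0 z (n 0 z (n 2 (n 0 z (n 2 (n 0 z (n 0 z (n 0 z (n 0 z (n 0 z (n 0 z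
 z)))))) (n 2 (n 0 z (n 0 z (n 0 z (n 0 z (n 0 z (n 0 z z)))))) (n 2 (n 0 z (n 0 z (n 0 z (n 0 z
 (n 0 z (n 0 z z)))))) (n 2 (n 0 z (n 0 z (n 0 z (n 0 z (n 0 z (n 0 (n 197 z z) z)))))) (n 2 (n
 0 z (n 0 z (n 0 (n 8803115 z z) (n 0 (n 8803115 z z) (n 0 z (n 0 (n 8733299 z (n 8803115 z z))
 z)))))) z)))))) (n 0 z (n 0 z (n 0 z z))))))))) (n 233 (n 0 z (n 0 z (n 0 z (n 0 z (n 0 z (n 0
 z (n 0 z (n 0 z (n 0 z z))))))))) (n 305 (n 0 z (n 0 z (n 0 z (n 2 (n 0 z (n 0 z (n 0 z (n 0 z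
 z)))) (n 0 z (n 0 z (n 0 z (n 0 z (n 0 z (n 0 z (n 0 z (n 0 z (n 0 z (n 0 z (n 0 z (n 0 z (n 0
 z z))))))))))))))))) (n 305 (n 0 z (n 0 z (n 0 z (n 0 z (n 0 z (n 0 z (n 0 z (n 0 z (n 0 z (n 0
 z (n 0 z (n 0 z (n 0 z (n 0 z (n 0 z (n 0 z (n 0 z z))))))))))))))))) (n 305 (n 0 z (n 0 z (n 0
 z (n 0 z (n 0 z (n 0 z (n 0 z (n 0 z (n 0 z (n 0 z (n 0 z (n 0 z (n 0 z (n 0 z (n 0 z (n 0 z (n
 0 z z))))))))))))))))) (n 305 (n 0 z (n 0 z (n 0 z (n 0 z (n 0 z (n 0 z (n 0 z (n 0 z (n 0 z (n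
 0 z (n 0 z (n 0 z (n 0 z (n
 0xc476280c80c7ef7b88807f387e77e88179a80e8257f281c7ae7a57e88177ca8378358598127dd7e385b7ef8688007e58107c78497947fc7c58068258137db7d683f7e18137df80e8148017e28270051
 z (n 0 z (n 0 z (n 0 z z))))))))))))))))) (n 305 (n 0 z (n 0 z (n 0 z (n 0 z (n 0 z (n 0 z (n 0
 z (n 0 z (n 0 z (n 0 z (n 0 z (n 0 z (n 0 z (n 0 z (n 0 z (n 0 z (n 0 z z)))))))))))))))))
 z))))))))))))) (n 0 (n 79 (n 0 z (n 0 z (n 2 (n 0 z (n 1 z (n 1 z (n 1 z (n 1 z (n 1 z (n 1 z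
 (n 1 z (n 1 z (n 1 z (n 1 z z))))))))))) (n 0 z (n 0 z (n 0 z (n 0 z (n 0 z (n 0 z (n 0 z (n 0
 z (n 0 z (n 0 z z))))))))))))) (n 79 (n 0 z (n 0 z (n 0 z (n 0 z (n 0 z (n 0 z (n 0 z (n 0 z (n
 0 z (n 0 z (n 0 z (n 0 z (n 0 z z))))))))))))) (n 1005 (n 0 z (n 0 z (n 0 z (n 0 z (n 0 z (n 0
 z (n 0 z (n 0 z z)))))))) (n 1005 (n 0 z (n 0 z (n 2 (n 0 z (n 1 z (n 2 (n 0 z (n 0 z (n 0 z (n
 0 z (n 0 z (n 0 z z)))))) (n 1 z (n 2 (n 0 z (n 0 z (n 0 z (n 0 z (n 0 z (n 0 z z)))))) (n 2 (n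
 0 z (n 0 z (n 0 z (n 0 z (n 0 z (n 0 (n 8868619 z z) z)))))) (n 1 z (n 2 (n 0 z (n 0 z (n 0 z
 (n 0 z (n 0 z (n 0 z z)))))) z)))))))) (n 0 z (n 0 z (n 0 z (n 0 z (n 0 z z)))))))) (n 1005 (n
 0 z (n 0 z (n 0 z (n 0 z (n 0 z (n 0 z (n 0 z (n 0 z z)))))))) (n 75 (n 0 z (n 0 z (n 0 z (n 2
 (n 0 z (n 1 z (n 1 z (n 1 z (n 1 z (n 1 z z)))))) (n 0 z (n 0 z (n 0 z (n 0 z (n 0 z z)))))))))
 (n 75 (n 0 z (n 0 z (n 0 z (n 0 z (n 0 z (n 0 z (n 0 z (n 0 z (n 0 z z))))))))) (n 73 (n 0 z (n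
 0 z (n 0 z (n 0 z (n 0 z (n 0 z (n 0 z (n 0 z (n 0 z (n 0 z (n 0 z (n 0 z z)))))))))))) (n 73
 (n 0 z (n 0 z (n 0 z (n 0 z (n 0 z (n 0 z (n 0 z (n 2 (n 0 z (n 0 z (n 0 z z))) (n 0 z (n 0 z
 (n 0 z (n 0 z z)))))))))))) (n 73 (n 0 z (n 0 z (n 0 z (n 0 z (n 0 z (n 0 z (n 0 z (n 0 z (n 0
 z (n 0 z (n 0 z (n 0 z z)))))))))))) (n 73 (n 0 z (n 0 z (n 0 z (n 0 z (n 0 z (n 2 (n 0 z z) (n
 0 z (n 0 z (n 0 z (n 0 z (n 0 z (n 0 z z)))))))))))) (n 73 (n 0 z (n 0 z (n 0 z (n 0 z (n 0 z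
 (n 0 z (n 0 z (n 0 z (n 0 z (n 0 z (n 0 z (n 0 z z)))))))))))) z)))))))))))) (n 0 (n 0 z (n 259
 (n 0 z (n 0 z (n 2 (n 0 z (n 0 z (n 1 z (n 2 (n 0 z (n 0 z (n 0 z (n 0 z (n 0 z (n 0 z z))))))
 (n 1 z (n 2 (n 0 z (n 0 z (n 0 z (n 0 z (n 0 z (n 0 (n 196 z z) z)))))) (n 2 (n 0 z (n 0 z (n 0
 z (n 0 z (n 0 z (n 0 (n 8803083 z z) z)))))) (n 1 z (n 2 (n 0 z (n 0 z (n 0 z (n 0 (n 8456011 z
 z) (n 0 (n 8456011 z z) (n 0 (n 8726091 z (n 8726091 z z)) z)))))) z))))))))) (n 0 z (n 0 z (n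
 0 z (n 0 z (n 0 z (n 0 z (n 0 z (n 0 z z))))))))))) (n 259 (n 0 z (n 0 z (n 0 z (n 0 z (n 0 z
 (n 0 z (n 0 z (n 0 z (n 0 z (n 0 z (n 0 z z))))))))))) (n 259 (n 0 z (n 0 z (n 0 z (n 0 z (n 0
 z (n 2 (n 1 z (n 1 z (n 1 z (n 1 z (n 1 z (n 1 z (n 1 z z))))))) (n 0 z (n 0 z (n 0 z (n 0 z (n
 0 z z))))))))))) (n 55 (n 0 z (n 0 z (n 0 z (n 0 z (n 0 z (n 0 z (n 0 z (n 0 z (n 0 z
 z))))))))) (n 55 (n 0 z (n 0 z (n 2 (n 1 z (n 2 (n 0 z (n 0 z (n 0 z (n 0 z (n 0 z (n 0 z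
 z)))))) (n 1 z (n 1 z (n 2 (n 0 z (n 0 z (n 0 z (n 0 z (n 0 z (n 0 z z)))))) z))))) (n 0 z (n 0
 z (n 0 z (n 0 z (n 0 z (n 0 z z))))))))) (n 49 (n 0 z (n 0 z (n 2 (n 0 z (n 0 z (n 0 z (n 0 z
 z)))) (n 0 z (n 0 z (n 0 z (n 0 z (n 0 z (n 0 z (n 0 z (n 0 z (n 0 z (n 0 z (n 0 z (n 0 z (n 0
 z (n 0 z (n 0 z (n 0 z (n 0 z (n 0 z (n 0 z (n 0 z (n 0 z (n 0 z (n 0 z (n 0 z (n 0 z
 z)))))))))))))))))))))))))))) (n 49 (n 0 z (n 0 z (n 0 z (n 0 z (n 0 z (n 0 z (n 0 z (n 0 z (n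
 0 z (n 0 z (n 0 z (n 0 z (n 0 z (n 0 z (n 0 z (n 0 z (n 0 z (n 0 z (n 0 z (n 0 z (n 0 z (n 0 z
 (n 0 z (n 0 z (n 0 z (n 0 z (n 0 z (n 0 z z)))))))))))))))))))))))))))) (n 49 (n 0 z (n 0 z (n
 0 z (n 0 z (n 0 z (n 0 z (n 0 z (n 0 z (n 0 z (n 0 z (n 0 z (n 0 z (n 0 z (n 7684707 z (n 0 z
 (n 0 z (n 0 z (n 0 z (n 0 z (n 0 z (n 0 z (n 0 z (n 0 z (n 0 z (n 0 z (n 0 z (n 0 z (n 0 z
 z)))))))))))))))))))))))))))) (n 49 (n 0 z (n 0 z (n 0 z (n 0 z (n 0 z (n 0 z (n 0 z (n 0 z (n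
 0 z (n 0 z (n 0 z (n 0 z (n 0 z (n 0 z (n 0 z (n 7677515 z (n
 0x247608038007ff8008008007ff8028018008008037ff8018037fe7fc8037fd8047ff8027fd7fc7fd7fe8017fe8007fe8018008008028007fe7ff8018027ff7ff8038018007ff8007ff8017fe8000051
 z (n 0 z (n 0 z (n 0 z (n 0 z (n 0 z (n 0 z (n 0 z (n 0 z (n 0 z (n 0 z (n 0 z
 z)))))))))))))))))))))))))))) (n 49 (n 0 z (n 0 z (n 0 z (n 0 z (n 0 z (n 0 z (n 0 z (n 0 z (n
 0 z (n 0 z (n 0 z (n 0 z (n 0 z (n 0 z (n 0 z (n 0 z (n 0 z (n 0 z (n 0 z (n 0 z (n 0 z (n 0 z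
 (n 0 z (n 0 z (n 0 z (n 2 z (n 0 z (n 0 z z)))))))))))))))))))))))))))) z))))))))))) (n 0 (n 19
 (n 0 z (n 0 z (n 0 z (n 0 z (n 0 z (n 0 z (n 0 z (n 0 z (n 0 z (n 0 z (n 0 z (n 0 z (n 0 z
 z))))))))))))) (n 19 (n 0 z (n 0 z (n 0 z (n 0 z (n 0 z (n 2 (n 0 z (n 1 z (n 2 (n 0 z (n 0 z
 (n 0 z (n 0 z (n 0 z (n 0 z z)))))) (n 2 (n 0 z (n 0 z (n 0 z (n 0 z (n 0 z (n 0 (n 8790275 z
 z) z)))))) (n 2 (n 0 z (n 0 z (n 0 z (n 0 z (n 0 z (n 0 z z)))))) (n 2 (n 0 z (n 0 z (n 0 z (n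
 0 z (n 0 z (n 0 (n 8790275 z z) z)))))) (n 2 (n 0 z (n 0 z (n 0 z (n 0 z (n 0 z (n 0 z z))))))
 (n 2 (n 0 z (n 0 z (n 0 z (n 0 z (n 0 z (n 0 z z)))))) z)))))))) (n 0 z (n 0 z (n 0 z (n 0 z (n
 0 z (n 0 z (n 0 z z))))))))))))) (n 19 (n 0 z (n 0 z (n 0 z (n 0 z (n 0 z (n 0 z (n 0 z (n 0 z
 (n 0 z (n 0 z (n 0 z (n 0 z (n 0 z z))))))))))))) (n 295 (n 2 (n 0 z (n 1 z (n 2 (n 0 z (n 0 z
 (n 0 z (n 0 z (n 0 z (n 0 z z)))))) (n 1 z (n 2 (n 0 z (n 0 z (n 0 z (n 0 z (n 0 z (n 0 (n 1172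
 z z) z)))))) (n 2 (n 0 (n 8855651 z z) (n 0 z (n 0 z (n 0 (n 8726347 z z) (n 0 z (n 0 (n 1172 z
 (n 8800043 z z)) z)))))) z)))))) (n 0 z (n 0 z (n 0 z (n 0 z (n 0 z (n 0 z (n 0 z z)))))))) (n
 295 (n 0 z (n 0 z (n 0 z (n 0 z (n 0 z (n 0 z (n 0 z (n 0 z z)))))))) (n 293 (n 0 z (n 0 z (n 0
 z (n 0 z (n 0 z (n 0 z (n 0 z (n 0 z (n 0 z (n 0 z (n 0 z (n 0 z (n 0 z (n 0 z (n 0 z (n 0 z (n
 0 z (n 0 z (n 0 z (n 0 z (n 0 z (n 0 z (n 0 z z))))))))))))))))))))))) (n 293 (n 0 z (n 0 z (n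
 0 z (n 0 z (n 0 z (n 0 z (n 0 z (n 0 z (n 0 z (n 0 z (n 0 z (n 0 z (n 2 (n 0 z (n 0 z (n 0 z
 z))) (n 0 z (n 0 z (n 0 z (n 0 z (n 0 z (n 0 z (n 0 z (n 0 z (n 0 z (n 0 z
 z))))))))))))))))))))))) (n 293 (n 0 z (n 0 z (n 0 z (n 0 z (n 0 z (n 0 z (n 0 z (n 0 z (n 0 z
 (n 0 z (n 0 z (n 0 z (n 0 z (n 0 z (n 0 z (n 0 z (n 0 z (n 0 z (n 0 z (n 0 z (n 0 z (n 0 z (n 0
 z z))))))))))))))))))))))) (n 293 (n 0 z (n 0 z (n 0 z (n 0 z (n 0 z (n 0 z (n 0 z (n 0 z (n 0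
 z (n 0 z (n 0 z (n 0 z (n 0 z (n 0 z (n 0 z (n 0 z (n 2 (n 0 z z) (n 0 z (n 0 z (n 0 z (n 0 z
 (n 0 z (n 0 z z))))))))))))))))))))))) (n 293 (n 0 z (n 0 z (n 0 z (n 0 z (n 0 z (n 0 z (n 0 z
 (n 0 z (n 0 z (n 0 z (n 0 z (n 0 z (n 0 z (n 0 z (n 0 z (n 0 z (n 0 z (n 0 z (n 0 z (n 0 z (n 0
 z (n 0 z (n 0 z z))))))))))))))))))))))) z)))))))))) (n 0 (n 0 z (n 0 z (n 7 (n 0 z (n 0 z (n 0
 z (n 0 z z)))) (n 7 (n 0 z (n 0 z (n 0 z (n 0 z z)))) (n 13 (n 2 (n 0 z (n 0 z (n 0 z (n 0 z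
 z)))) (n 0 z (n 0 z (n 0 z (n 0 z z))))) (n 13 (n 0 z (n 0 z (n 0 z (n 0 z (n 0 z z))))) (n 13
 (n 0 z (n 0 z (n 0 z (n 0 z (n 0 z z))))) (n 13 (n 0 z (n 0 z (n 2 (n 0 z z) (n 0 z (n 0 z
 z))))) (n 13 (n 0 z (n 0 z (n 0 z (n 0 z (n 0 z z))))) z))))))))) (n 0 (n 0 z (n 7 (n 0 z (n 0
 z (n 0 z (n 0 z (n 0 z z))))) (n 7 (n 0 z (n 0 z (n 2 (n 2 (n 0 z (n 0 z (n 0 z (n 0 z (n 0 z
 (n 0 (n 8855811 z z) z)))))) (n 2 (n 0 z (n 0 z (n 0 z (n 0 z (n 0 z (n 0 z z)))))) (n 2 (n 0 z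
 (n 0 z (n 0 z (n 0 z (n 0 z (n 0 (n 8855811 z z) z)))))) (n 2 (n 0 z (n 0 z (n 0 z (n 0 z (n 0
 z (n 0 z z)))))) (n 2 (n 0 z (n 0 z (n 0 z (n 0 z (n 0 z (n 0 z z)))))) z))))) (n 0 z (n 0 z
 z))))) (n 13 (n 2 (n 0 z (n 0 z (n 0 z (n 0 z z)))) (n 0 z (n 0 z (n 0 z (n 0 z (n 0 z (n 0 z
 (n 0 z (n 0 z (n 0 z (n 0 z z))))))))))) (n 13 (n 0 z (n 0 z (n 0 z (n 0 z (n 0 z (n 0 z (n 0 z
 (n 0 z (n 0 z (n 0 z (n 0 z z))))))))))) (n 13 (n 0 z (n 0 z (n 0 z (n 0 z (n 7754507 z (n 0 z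
 (n 0 z (n 0 z (n 0 z (n 0 z (n 0 z z))))))))))) (n 13 (n 0 z (n 0 z (n 0 z (n 0 z (n 0 z (n 2
 (n 0 z z) (n 0 z (n 0 z (n 0 z (n 0 z (n 0 z z))))))))))) (n 13 (n 0 z (n 0 z (n 0 z (n 0 z (n
 0 z (n 0 z (n 0 z (n 0 z (n 0 z (n 0 z (n 2 z z))))))))))) z)))))))) (n 0 (n 55 (n 2 (n 0 z (n
 1 z (n 1 z (n 1 z (n 1 z (n 1 z z)))))) (n 0 z (n 0 z (n 0 z (n 0 z (n 0 z (n 0 z (n 0 z (n 0 z
 (n 0 z (n 0 z (n 0 z (n 0 z (n 0 z z)))))))))))))) (n 55 (n 0 z (n 0 z (n 0 z (n 0 z (n 0 z (n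
 0 z (n 0 z (n 0 z (n 0 z (n 0 z (n 0 z (n 0 z (n 0 z (n 0 z z)))))))))))))) (n 49 (n 0 z (n 0 z
 (n 0 z (n 0 z (n 0 z (n 0 z (n 0 z (n 0 z (n 0 z (n 0 z (n 0 z z))))))))))) (n 49 (n 2 (n 0 z
 (n 0 z (n 0 z z))) (n 0 z (n 0 z (n 0 z (n 0 z (n 0 z (n 0 z (n 0 z (n 0 z (n 0 z (n 0 z
 z))))))))))) (n 49 (n 0 z (n 0 z (n 0 z (n 0 z (n 0 z (n 0 z (n 0 z (n 0 z (n 0 z (n 0 z (n 0 z
 z))))))))))) (n 49 (n 0 z (n 0 z (n 0 z (n 0 z (n 0 z (n 0 z (n 0 z (n 0 z (n 2 (n 0 z z) (n 0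
 z (n 0 z z))))))))))) (n 49 (n 0 z (n 0 z (n 0 z (n 0 z (n 0 z (n 0 z (n 0 z (n 0 z (n 0 z (n 0
 z (n 0 z z))))))))))) z))))))) (n 0 (n 0 z (n 49 (n 2 (n 0 z (n 0 z (n 0 z (n 0 z z)))) (n 0 z
 (n 0 z (n 0 z (n 0 z (n 0 z (n 0 z (n 0 z (n 0 z (n 0 z (n 0 z (n 0 z z)))))))))))) (n 49 (n 0
 z (n 0 z (n 0 z (n 0 z (n 0 z (n 0 z (n 0 z (n 0 z (n 0 z (n 0 z (n 0 z (n 0 z z)))))))))))) (n
 49 (n 0 z (n 0 z (n 0 z (n 0 z (n 0 z (n 0 z (n 7684707 z (n 0 z (n 0 z (n 0 z (n 0 z (n 0 z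
 z)))))))))))) (n 49 (n 0 z (n 0 z (n 0 z (n 0 z (n 0 z (n 0 z (n 0 z (n 7677515 z (n 0 z (n 0 z
 (n 0 z (n 0 z z)))))))))))) (n 49 (n 0 z (n 0 z (n 0 z (n 0 z (n 0 z (n 0 z (n 0 z (n 0 z (n 0
 z (n 0 z (n 0 z (n 2 z z)))))))))))) z)))))) (n 0 (n 61 (n 0 z (n 0 z (n 0 z (n 0 z (n 0 z (n 0
 z (n 0 z (n 0 z (n 0 z z))))))))) (n 61 (n 2 (n 0 z (n 0 z (n 0 z z))) (n 0 z (n 0 z (n 0 z (n
 0 z (n 0 z (n 0 z (n 0 z (n 0 z z))))))))) (n 61 (n 0 z (n 0 z (n 0 z (n 0 z (n 0 z (n 0 z (n 0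
 z (n 0 z (n 0 z z))))))))) (n 61 (n 0 z (n 0 z (n 0 z (n 0 z (n 0 z (n 2 (n 0 z z) (n 0 z (n 0
 z (n 0 z z))))))))) (n 61 (n 0 z (n 0 z (n 0 z (n 0 z (n 0 z (n 0 z (n 0 z (n 0 z (n 0 z
 z))))))))) z))))) (n 0 (n 0 z (n 0 z (n 0 z (n 0 z z)))) (n 0 (n 0 z (n 0 z (n 0 z z))) (n 0 (n
 0 z (n 0 z z)) (n 0 (n 0 z z) (n 0 z z)))))))))))))) (n 0 (n 1 (n 1228 z (n 1228 z (n 5513571 z
 (n 1228 z (n 5379659 z (n 1228 z z)))))) (n 1 (n 1228 z (n 1228 z (n 12 z (n 1228 z (n 1228 z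
 (n 1228 z z)))))) (n 1 (n 3278363 z (n 3278363 z (n 3278363 z (n 3278363 z (n 3278363 z (n
 3278363 z z)))))) z))) (n 0 z z)))) (n
 0x15ba504eb2e0759311ac72824bc48b15444aa5809589c21db1089ab084eb43262811 (n 0 (n 443 (n 0 z (n
 3282443 z (n 0 z (n 0 z (n 0 z z))))) (n 555 (n 2 z (n 10 z (n 18 z (n 3278363 z (n 26 z (n 0 z
 (n 34 z z))))))) (n 433 (n
 0x3aca4a208038d8784897d83a16559786f71857a778c9869528e9c8d918d83a8737277a566ab925a66797d8d947152b590908f6097ad707d0809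
 z (n 6631955 z (n 0 z (n 42 z (n 50 z (n 6631955 z (n 58 z z))))))) (n 3 (n 0 z (n 0 z (n
 6631955 z (n 66 z (n 0 z (n 74 z z)))))) (n 1 (n 0 z (n 0 z (n 2164299 z (n 82 z z)))) (n 0 (n
 90 z (n 0 z (n 98 z (n 0 z (n 0 z (n 6631955 z (n 0 z z))))))) z)))))) (n 1 (n 0 (n 0 z (n 0 z
 (n 0 z (n 0 z (n 867 (n 0 z (n 0 z (n 0 z (n 0 z (n 2 (n 0 z (n 0 z (n 1 z (n 1 z (n 1 z (n 1 z
 (n 1 z z))))))) (n 0 z (n 0 z (n 0 z (n 0 z (n 0 z (n 0 z z))))))))))) (n 867 (n 0 z (n 0 z (n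
 0 z (n 0 z (n 0 z (n 0 z (n 2 (n 0 z (n 1 z (n 2 (n 0 (n 8521291 z z) (n 0 z (n 0 (n 220 z (n
 8734475 z z)) (n 0 (n 220 z z) (n 0 z (n 0 z z)))))) (n 2 (n 0 (n 1828 z z) (n 0 z (n 0 (n 1828
 z (n 8734475 z z)) (n 0 (n 6633547 z z) (n 0 z (n 0 z z)))))) (n 2 (n 0 z (n 0 z (n 0 (n 3460 z
 (n 3460 z z)) (n 0 z (n 0 z (n 0 (n 3460 z z) z)))))) (n 1 z z)))))) (n 0 z (n 0 z (n 0 z (n 0
 z z))))))))))) (n 867 (n 0 z (n 0 z (n 0 z (n 0 z (n 0 z (n 0 z (n 0 z (n 0 z (n 0 z (n 0 z (n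
 2 (n 1 z (n 2 (n 0 z (n 0 z (n 0 z (n 0 z (n 0 z (n 0 z z)))))) (n 2 (n 0 z (n 0 z (n 0 z (n 0
 z (n 0 z (n 0 z z)))))) (n 2 (n 0 z (n 0 z (n 0 (n 8848443 z z) (n 0 z (n 0 z (n 0 z z)))))) (n
 2 (n 0 z (n 0 z (n 0 z (n 0 z (n 0 z (n 0 z z)))))) z))))) z))))))))))) (n 55 (n 0 z (n 0 z (n
 0 z (n 0 z (n 0 z (n 0 z (n 6428427 z (n 0 z (n 0 z (n 0 z z)))))))))) (n 55 (n 0 z (n 0 z (n 0
 z (n 0 z (n 0 z (n 0 z (n 0 z (n 2 (n 2 (n 0 z (n 0 z (n 0 z (n 0 z (n 0 z (n 0 z z)))))) (n 2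
 (n 0 z (n 0 z (n 0 z (n 0 z (n 0 z (n 0 z z)))))) (n 2 (n 0 z (n 0 z (n 0 z (n 0 z (n 0 z (n 0
 z z)))))) z))) (n 0 z (n 0 z z)))))))))) (n 457 (n 0 z (n 0 z (n 0 z (n 0 z (n 0 z (n 0 z (n 0
 z (n 0 z (n 0 z (n 0 z (n 0 z (n 0 z (n 0 z (n 0 z (n 0 z (n 0 z (n 0 z (n 0 z (n 0 z (n 0 z (n
 0 z (n 0 z (n 0 z (n 0 z (n 0 z (n 0 z (n 2 (n 2 (n 0 z (n 0 z (n 0 z (n 0 z (n 0 z (n 0 z
 z)))))) (n 2 (n 0 z (n 0 z (n 0 z (n 0 z (n 0 z (n 0 z z)))))) z)) (n 0 z (n 0 z (n 0 z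
 z)))))))))))))))))))))))))))))) (n 865 (n 0 z (n 0 z (n 0 z (n 0 z (n 0 z (n 0 z (n 0 z (n 0 z
 (n 0 z (n 0 z (n 0 z (n 0 z (n 0 z (n 0 z (n 2 (n 0 z z) (n 0 z (n 0 z (n 0 z
 z)))))))))))))))))) (n 865 (n 0 z (n 0 z (n 0 z (n 0 z (n 0 z (n 0 z (n 0 z (n 0 z (n 0 z (n 0
 z (n 0 z (n 0 z (n 0 z (n 0 z (n 0 z (n 0 z (n 0 z (n 0 z z)))))))))))))))))) z)))))))))))) (n
 0 (n 0 z (n 0 z (n 0 z (n 873 (n 0 z (n 0 z (n 2 (n 0 z (n 0 z (n 1 z (n 2 (n 0 z (n 0 z (n 0 z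
 (n 0 z (n 0 z (n 0 z z)))))) (n 2 (n 0 z (n 0 z (n 0 z (n 0 z (n 0 z (n 0 z z)))))) (n 2 (n 0 z
 (n 0 (n 4436 z z) (n 0 (n 4436 z (n 4436 z z)) (n 0 z (n 0 (n 4436 z z) (n 0 z z)))))) (n 2 (n
 0 z (n 0 (n 8786731 z z) (n 0 (n 8786731 z (n 8786731 z z)) (n 0 z (n 0 (n 8786731 z z) (n 0 z
 z)))))) z))))))) (n 0 z (n 0 z (n 0 z (n 0 z (n 0 z z)))))))) (n 873 (n 0 z (n 0 z (n 0 z (n 0
 z (n 0 z (n 0 z (n 0 z (n 0 z z)))))))) (n 873 (n 0 z (n 0 z (n 0 z (n 0 z (n 0 z (n 0 z (n 0 z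
 (n 0 z z)))))))) (n 75 (n 0 z (n 0 z (n 0 z (n 0 z (n 2 (n 0 z (n 2 (n 0 z (n 0 (n 252 z z) (n
 0 (n 252 z (n 7682123 z z)) (n 0 z (n 0 (n 252 z z) (n 0 z z)))))) (n 1 z (n 2 (n 0 z (n 0 z (n
 0 z (n 0 z (n 0 z (n 0 z z)))))) z)))) (n 0 z (n 0 z z))))))) (n 75 (n 0 z (n 0 z (n 0 z (n 0 z
 (n 0 z (n 0 z (n 0 z z))))))) (n 63 (n 0 z (n 0 z (n 0 z (n 0 z (n 0 z z))))) (n 1109 (n 0 z (n
 0 z (n 0 z z))) (n 1109 (n 0 z (n 0 z (n 0 z z))) z))))))))))) (n 0 (n 0 z (n 0 z (n 867 (n 0 z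
 (n 0 z (n 0 z (n 0 z (n 0 z (n 0 z (n 0 z z))))))) (n 867 (n 0 z (n 0 z (n 0 z (n 0 z (n 0 z (n
 0 z (n 0 z z))))))) (n 867 (n 0 z (n 0 z (n 0 z (n 0 z (n 0 z (n 2 (n 1 z (n 2 (n 0 z (n 0 z (n
 0 z (n 0 z (n 0 z (n 0 z z)))))) (n 2 (n 0 z (n 0 z (n 0 z (n 0 z (n 0 z (n 0 z z)))))) (n 2 (n
 0 z (n 0 z (n 0 z (n 0 z (n 0 z (n 0 z z)))))) (n 2 (n 0 z (n 0 z (n 0 z (n 0 z (n 0 z (n 0 z
 z)))))) z))))) (n 0 z z))))))) (n 75 (n 0 z (n 0 z (n 0 z (n 0 z (n 0 z (n 0 z (n 0 z z)))))))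
 (n 75 (n 0 z (n 0 z (n 0 z (n 0 z (n 0 z (n 0 z (n 2 (n 2 (n 0 z (n 0 z (n 0 z (n 0 z (n 0 z (n
 0 z z)))))) (n 2 (n 0 z (n 0 z (n 0 z (n 0 z (n 0 z (n 0 z z)))))) (n 2 (n 0 z (n 0 z (n 0 z (n
 0 z (n 0 z (n 0 z z)))))) z))) z))))))) (n 457 (n 0 z (n 0 z (n 0 z (n 0 z (n 0 z (n 0 z (n 2
 (n 2 (n 0 z (n 0 z (n 0 z (n 0 z (n 0 z (n 0 z z)))))) (n 2 (n 0 z (n 0 z (n 0 z (n 0 z (n 0 z
 (n 0 z z)))))) z)) z))))))) (n 865 (n 0 z (n 0 z (n 0 z (n 0 z (n 0 z (n 0 z (n 0 z (n 0 z (n 2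
 (n 0 z z) (n 0 z (n 0 z z))))))))))) (n 865 (n 0 z (n 0 z (n 0 z (n 0 z (n 0 z (n 0 z (n 0 z (n
 0 z (n 0 z (n 0 z (n 0 z z))))))))))) z)))))))))) (n 0 (n 0 z (n 873 (n 0 z (n 0 z (n 0 z z)))
 (n 873 (n 0 z (n 0 z (n 0 z z))) (n 873 (n 0 z (n 0 z (n 0 z z))) (n 487 (n 0 z (n 0 z (n 0 z
 (n 0 z (n 0 z (n 0 z (n 0 z (n 6426739 z z)))))))) (n 487 (n 0 z (n 0 z (n 0 z (n 0 z (n 0 z (n
 0 z (n 0 z (n 0 z z)))))))) (n 483 (n 0 z (n 0 z (n 0 z (n 0 z (n 0 z z))))) (n 485 (n 0 z (n 0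
 z (n 0 z (n 0 z (n 0 z (n 0 z (n 0 z (n 0 z (n 0 z z))))))))) (n 485 (n 0 z (n 0 z (n 0 z (n 0
 z (n 0 z (n 0 z (n 0 z (n 0 z (n 0 z z))))))))) z))))))))) (n 0 (n 879 (n 0 z (n 0 z (n 0 z (n
 0 z (n 2 (n 0 z (n 0 z (n 1 z (n 2 (n 0 z (n 0 z (n 0 (n 8798803 z z) (n 0 z (n 0 z (n 0 z
 z)))))) (n 2 (n 0 z (n 0 z (n 0 (n 8798803 z z) (n 0 z (n 0 z (n 0 z z)))))) (n 1 z (n 2 (n 0 z
 (n 0 z (n 0 z (n 0 z (n 0 z (n 0 z z)))))) z))))))) (n 0 z (n 0 z (n 0 z z)))))))) (n 879 (n 0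
 z (n 0 z (n 0 z (n 0 z (n 0 z (n 2 (n 0 z (n 1 z (n 2 (n 0 z (n 0 z (n 0 z (n 0 z (n 0 z (n 0 z
 z)))))) (n 2 (n 0 z (n 0 z (n 0 z (n 0 z (n 0 z (n 0 z z)))))) (n 1 z (n 2 (n 0 z (n 0 z (n 0 z
 (n 0 z (n 0 z (n 0 z z)))))) z)))))) (n 0 z (n 0 z z)))))))) (n 879 (n 0 z (n 0 z (n 0 z (n 0 z
 (n 0 z (n 0 z (n 0 z (n 0 z z)))))))) (n 75 (n 0 z (n 0 z (n 0 z (n 0 z (n 0 z (n 2 (n 0 z (n 1
 z (n 1 z (n 2 (n 0 z (n 0 z (n 0 z (n 0 z (n 0 z (n 0 z z)))))) z)))) z)))))) (n 75 (n 0 z (n 0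
 z (n 0 z (n 0 z (n 0 z (n 0 z z)))))) (n 777 (n 0 z (n 0 z (n 0 z (n 0 z (n 0 z (n 0 z (n 0 z
 (n 0 z (n 0 z (n 0 z (n 0 z (n 0 z (n 0 z z))))))))))))) (n 1117 (n 0 z (n 0 z (n 0 z (n 0 z (n
 0 z (n 0 z (n 0 z (n 0 z (n 0 z (n 0 z (n 0 z (n 0 z z)))))))))))) (n 1117 (n 0 z (n 0 z (n 0 z
 (n 0 z (n 0 z (n 0 z (n 0 z (n 2 z (n 0 z (n 0 z (n 0 z (n 0 z z)))))))))))) z)))))))) (n 0 (n
 0 z (n 0 z (n 7 (n 0 z (n 0 z (n 0 z (n 0 z (n 0 z (n 0 z (n 0 z (n 0 z z)))))))) (n 7 (n 0 z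
 (n 0 z (n 0 z (n 0 z (n 0 z (n 0 z (n 2 (n 2 (n 0 z (n 0 z (n 0 z (n 0 z (n 0 z (n 0 z z))))))
 (n 2 (n 0 z (n 0 z (n 0 z (n 0 z (n 0 z (n 0 z z)))))) (n 2 (n 0 z (n 0 z (n 0 z (n 0 z (n 0 z
 (n 0 z z)))))) z))) (n 0 z z)))))))) (n 243 (n 0 z (n 0 z (n 0 z (n 0 z (n 0 z (n 0 z (n 0 z (n
 0 z (n 0 z (n 0 z (n 0 z (n 0 z (n 0 z (n 0 z (n 2 (n 2 (n 0 z (n 0 z (n 0 z (n 0 z (n 0 z (n 0
 z z)))))) (n 2 (n 0 z (n 0 z (n 0 z (n 0 z (n 0 z (n 0 z z)))))) z)) (n 0 z (n 0 z (n 0 z (n 0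
 z (n 0 z (n 0 z (n 0 z (n 0 z z))))))))))))))))))))))) (n 1 (n 2 (n 0 z z) (n 0 z (n 0 z (n 0 z
 (n 0 z (n 0 z (n 0 z (n 0 z (n 0 z (n 0 z (n 0 z z))))))))))) (n 1 (n 0 z (n 0 z (n 0 z (n 0 z
 (n 2 z (n 0 z (n 0 z (n 0 z (n 0 z (n 0 z (n 0 z z))))))))))) z))))))) (n 0 (n 0 z (n 33 (n 0 z
 (n 0 z (n 0 z (n 0 z (n 0 z (n 0 z (n 0 z z))))))) (n 33 (n 0 z (n 0 z (n 0 z (n 0 z (n 0 z (n
 0 z (n 0 z z))))))) (n 261 (n 0 z (n 0 z (n 0 z (n 0 z (n 0 z (n 0 z (n 0 z (n 0 z (n 0 z (n 0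
 z (n 0 z (n 0 z (n 0 z (n 0 z (n 0 z (n 0 z (n 0 z (n 0 z (n 0 z (n 0 z (n 0 z (n 0 z (n 0 z
 z))))))))))))))))))))))) (n 889 (n 0 z (n 0 z (n 0 z (n 0 z (n 0 z (n 0 z (n 0 z z))))))) (n
 889 (n 0 z (n 0 z (n 0 z (n 0 z (n 0 z (n 2 z (n 0 z z))))))) z)))))) (n 0 (n 27 (n 0 z (n 0 z
 (n 0 z (n 0 z (n 0 z (n 0 z (n 0 z (n 2 (n 0 z (n 1 z (n 1 z (n 2 (n 0 z (n 0 z (n 0 z (n 0 z
 (n 0 z (n 0 z z)))))) z)))) (n 0 z z))))))))) (n 27 (n 0 z (n 0 z (n 0 z (n 0 z (n 0 z (n 0 z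
 (n 0 z (n 0 z (n 0 z z))))))))) (n 261 (n 0 z (n 0 z (n 0 z (n 0 z (n 0 z (n 0 z (n 0 z (n 0 z
 (n 0 z (n 0 z (n 0 z z))))))))))) (n 889 (n 0 z (n 0 z (n 0 z (n 0 z (n 0 z (n 0 z (n 0 z (n 0
 z (n 0 z (n 0 z (n 0 z z))))))))))) (n 889 (n 0 z (n 0 z (n 0 z (n 0 z (n 0 z (n 0 z (n 0 z (n
 2 z (n 0 z (n 0 z (n 0 z z))))))))))) z))))) (n 0 (n 0 z (n 723 (n 0 z (n 0 z (n 0 z (n 0 z (n
 0 z (n 0 z (n 2 (n 1 z (n 2 (n 0 z (n 0 z (n 0 z (n 0 z (n 0 z (n 0 z z)))))) z)) z))))))) (n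
 97 (n 2 (n 0 z z) (n 0 z (n 0 z (n 0 z (n 0 z (n 0 z (n 0 z (n 0 z (n 0 z z))))))))) (n 97 (n 0
 z (n 0 z (n 2 z (n 0 z (n 0 z (n 0 z (n 0 z (n 0 z (n 0 z z))))))))) z)))) (n 0 (n 3 (n 0 z (n
 0 z (n 0 z (n 0 z (n 0 z (n 0 z z)))))) (n 5 (n 0 z (n 0 z (n 0 z (n 0 z (n 0 z (n 0 z (n 0 z
 (n 0 z (n 0 z (n 0 z (n 0 z (n 0 z (n 0 z (n 0 z z)))))))))))))) (n 5 (n 0 z (n 0 z (n 0 z (n 0
 z (n 0 z (n 0 z (n 0 z (n 0 z (n 0 z (n 0 z (n 0 z (n 0 z (n 0 z (n 0 z z)))))))))))))) z))) (n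
 0 (n 1 (n 0 z (n 0 z (n 0 z (n 0 z (n 0 z (n 0 z (n 0 z (n 0 z (n 0 z (n 0 z (n 0 z (n 0 z (n 0
 z (n 0 z (n 0 z (n 0 z z)))))))))))))))) (n 1 (n 0 z (n 0 z (n 0 z (n 0 z (n 0 z (n 0 z (n 0 z
 (n 0 z (n 0 z (n 0 z (n 0 z (n 0 z (n 0 z (n 0 z (n 0 z (n 0 z z)))))))))))))))) z)) (n 0 (n 0
 z z) (n 0 z z))))))))))))) (n 0 (n 0 z (n 0 z (n 1 (n 2164299 z (n 2164299 z (n 2164299 z (n
 2164299 z (n 2164299 z (n 2164299 z z)))))) (n 1 (n 3548 z (n 3548 z (n 3548 z (n 3548 z (n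
 3548 z (n 3548 z z)))))) z)))) (n 0 z z)))) (n
 0x1b1b288695414a1b8535440d2a28294cd83654a10a508291ab0a6948134a500 (n 0 (n 453 (n 3282443 z (n 0
 z (n 2 z (n 0 z (n 0 z z))))) (n 451 (n 10 z (n 0 z (n 0 z (n 0 z (n 3278363 z (n 0 z (n 0 z (n
 18 z z)))))))) (n 450 (n 26 z (n 0 z (n 3212843 z (n 34 z (n 0 z (n 0 z (n 0 z (n 42 z
 z)))))))) (n 3 (n 2164283 z (n 0 z (n 50 z (n 0 z (n 0 z z))))) (n 1 (n 58 z (n 0 z (n 0 z (n 0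
 z (n 6554139 z (n 0 z (n 0 z (n 66 z z)))))))) (n 0 (n 74 z (n 0 z (n 2164315 z (n 82 z (n 0 z
 (n 0 z (n 0 z (n 90 z z)))))))) z)))))) (n 453 (n 0 (n 1115 (n 0 z (n 0 z (n 0 z (n 0 z (n 0 z
 (n 0 z (n 0 z (n 0 z (n 0 z (n 0 z (n 0 z (n 0 z (n 0 z (n 0 z z)))))))))))))) (n 1115 (n 0 z
 (n 0 z (n 0 z (n 0 z (n 0 z (n 0 z (n 0 z (n 0 z (n 0 z (n 0 z (n 0 z (n 0 z (n 0 z (n 0 z
 z)))))))))))))) (n 1113 (n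
 0xee84c20a078207e089f8218208257e085f75f81f7607a189c8208608618e08a08208dd85f7a47de8217e20801 z
 (n
 0x2ec6ec2a0365d89905406d3a1308281c975265140186ea2ec08071dc85940c069b21b28900c1765765103b4ea8ca820309d8dd8c4064b2a3a1080c7654642103a0ca4c8420381e6a0a1e8298205b18208185138126205acc5682392995d92badd65651935981f6236e189b6801
 z (n 0 z (n 0 z (n 0 z (n 0 z (n 0 z (n 0 z (n 0 z (n 0 z (n 0 z z))))))))))) (n 1113 (n 0 z (n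
 0 z (n 0 z (n 0 z (n 0 z (n 0 z (n 0 z (n 0 z (n 0 z (n 0 z (n 0 z z))))))))))) (n 1113 (n 0 z
 (n 0 z (n 0 z (n 0 z (n 0 z (n 0 z (n 0 z (n 0 z (n 0 z (n 0 z (n 0 z z))))))))))) (n 159 (n 0
 z (n 0 z (n 0 z (n 0 z (n 0 z (n 0 z (n 0 z z))))))) (n 913 (n 0 z (n 0 z (n 0 z (n 0 z (n 0 z
 (n 0 z (n 0 z z))))))) (n 913 (n 0 z (n 0 z (n 0 z (n 0 z (n 0 z (n 0 z (n 0 z z))))))) (n 989
 (n 0 z (n 0 z (n 0 z (n 0 z z)))) (n 989 (n 0 z (n 0 z (n 0 z (n 0 z z)))) (n 989 (n 0 z (n 0 z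
 (n 0 z (n 0 z z)))) z))))))))))) (n 0 (n 0 z (n 1035 (n 0 z (n 0 z (n 0 z (n 0 z (n 0 z z)))))
 (n 1035 (n 0 z (n 0 z (n 0 z (n 0 z (n 0 z z))))) (n 1035 (n 0 z (n 0 z (n 0 z (n 0 z (n 0 z
 z))))) (n 7 (n 0 z (n 0 z (n 0 z (n 0 z (n 0 z (n 0 z (n 0 z z))))))) (n 3 (n 0 z (n 0 z (n 0 z
 (n 0 z (n 0 z (n 0 z (n 0 z z))))))) (n 3 (n 0 z (n 0 z (n 0 z (n 0 z (n 0 z (n 0 z (n 0 z
 z))))))) (n 1 (n 0 z (n 0 z (n 0 z (n 0 z (n 0 z (n 0 z (n 0 z (n 0 z (n 0 z (n 0 z z))))))))))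
 (n 1 (n 0 z (n 0 z (n 0 z (n 0 z (n 0 z (n 0 z (n 0 z (n 0 z (n 0 z (n 0 z z)))))))))) (n 1 (n
 0 z (n 0 z (n 0 z (n 0 z (n 0 z (n 0 z (n 0 z (n 0 z (n 0 z (n 0 z z)))))))))) z)))))))))) (n 0
 (n 1365 (n 0 z (n 0 z (n 0 z (n 0 z z)))) (n 1365 (n 0 z (n 0 z (n 0 z (n 0 z z)))) (n 1365 (n
 0 z (n 0 z (n 0 z (n 0 z z)))) (n 1285 (n 0 z (n 0 z (n 0 z z))) (n 1357 (n 0 z (n 0 z (n 0 z
 (n 0 z z)))) (n 1357 (n 0 z (n 0 z (n 0 z (n 0 z z)))) (n 865 (n 0 z (n 0 z (n 0 z (n 0 z (n 0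
 z (n 0 z (n 0 z (n 0 z (n 0 z (n 0 z (n 0 z z))))))))))) (n 865 (n 0 z (n 0 z (n 0 z (n 0 z (n
 0 z (n 0 z (n 0 z (n 0 z (n 0 z (n 0 z (n 0 z z))))))))))) (n 865 (n 0 z (n 0 z (n 0 z (n 0 z
 (n 0 z (n 0 z (n 0 z (n 0 z (n 0 z (n 0 z (n 0 z z))))))))))) z))))))))) (n 0 (n 0 z (n 0 z (n
 299 (n 0 z (n 0 z (n 0 z (n 0 z z)))) (n 853 (n 0 z (n 0 z (n 0 z (n 0 z (n 0 z (n 0 z (n 0 z
 (n 0 z (n 0 z (n 0 z z)))))))))) (n 853 (n 0 z (n 0 z (n 0 z (n 0 z (n 0 z (n 0 z (n 0 z (n 0 z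
 (n 0 z (n 0 z z)))))))))) (n 289 (n 0 z (n 0 z (n 0 z (n 0 z (n 0 z (n 0 z (n 0 z (n 0 z (n 0 z
 (n 0 z (n 0 z (n 0 z (n 0 z (n 0 z (n 0 z (n 0 z (n 0 z (n 0 z (n 0 z (n 0 z (n 0 z
 z))))))))))))))))))))) (n 289 (n 0 z (n 0 z (n 0 z (n 0 z (n 0 z (n 0 z (n 0 z (n 0 z (n 0 z (n
 0 z (n 0 z (n 0 z (n 0 z (n 0 z (n 0 z (n 0 z (n 0 z (n 0 z (n 0 z (n 0 z (n 0 z
 z))))))))))))))))))))) (n 289 (n 0 z (n 0 z (n 0 z (n 0 z (n 0 z (n 0 z (n 0 z (n 0 z (n 0 z (n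
 0 z (n 0 z (n 0 z (n 0 z (n 0 z (n 0 z (n 0 z (n 0 z (n 0 z (n 0 z (n 0 z (n 0 z
 z))))))))))))))))))))) z)))))))) (n 0 (n 0 z (n 507 (n 0 z (n 0 z (n 0 z (n 0 z z)))) (n 51 (n
 0 z (n 0 z (n 0 z (n 0 z (n 0 z z))))) (n 51 (n 0 z (n 0 z (n 0 z (n 0 z (n 0 z z))))) (n 1081
 (n 0 z (n 0 z (n 0 z (n 0 z (n 0 z (n 0 z (n 0 z (n 0 z (n 0 z (n 0 z (n 0 z (n 0 z (n 0 z (n 0
 z (n 0 z (n 0 z (n 0 z (n 0 z (n 0 z (n 0 z (n 0 z z))))))))))))))))))))) (n 1081 (n 0 z (n 0 z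
 (n 0 z (n 0 z (n 0 z (n 0 z (n 0 z (n 0 z (n 0 z (n 0 z (n 0 z (n 0 z (n 0 z (n 0 z (n 0 z (n 0
 z (n 0 z (n 0 z (n 0 z (n 0 z (n 0 z z))))))))))))))))))))) (n 1081 (n 0 z (n 0 z (n 0 z (n 0 z
 (n 0 z (n 0 z (n 0 z (n 0 z (n 0 z (n 0 z (n 0 z (n 0 z (n 7669275 z (n 0 z (n 0 z (n 0 z (n 0
 z (n 0 z (n 0 z (n 0 z (n 0 z z))))))))))))))))))))) z))))))) (n 0 (n 33 (n 0 z (n 0 z (n 0 z
 z))) (n 1369 (n 0 z (n 0 z (n 0 z (n 0 z (n 0 z z))))) (n 1369 (n 0 z (n 0 z (n 0 z (n 0 z (n 0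
 z z))))) (n 865 (n 0 z (n 0 z (n 0 z (n 0 z (n 0 z (n 0 z (n 0 z (n 0 z (n 0 z (n 0 z (n 0 z (n
 0 z (n 0 z (n 0 z (n 0 z z))))))))))))))) (n 865 (n 0 z (n 0 z (n 0 z (n 0 z (n 0 z (n 0 z (n 0
 z (n 0 z (n 0 z (n 0 z (n 6498123 z (n 0 z (n 0 z (n 0 z (n 0 z z))))))))))))))) (n 865 (n 0 z
 (n 0 z (n 0 z (n 0 z (n 0 z (n 0 z (n 0 z (n 0 z (n 0 z (n 0 z (n 0 z (n 0 z (n 0 z (n 0 z (n 0
 z z))))))))))))))) z)))))) (n 0 (n 255 (n 0 z (n 0 z (n 0 z (n 0 z (n 0 z (n 0 z (n 0 z (n 0 z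
 (n 0 z (n 0 z (n 0 z (n 0 z (n 0 z (n 0 z z)))))))))))))) (n 255 (n 0 z (n 0 z (n 0 z (n 0 z (n
 0 z (n 0 z (n 0 z (n 0 z (n 0 z (n 0 z (n 0 z (n 0 z (n 0 z (n 0 z z)))))))))))))) (n 253 (n
 0x12c86ea24038207e089f8228207e77a081f75f81e7607a18dd8208608609208a08208dd85f7a479e8227e20801 z
 (n
 0x26c84c20a07419499450060bb23b2101da643751201b2ecac8240705d91d808061bb1ba1080c97546421018eca8c8420725d49908406d3a1321080c27647640018eea8c6400781e6a0a1e8298205b18208185138126205acc5682392995d92badd65651935981f6236e189b6801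
 z (n 0 z (n 0 z (n 0 z (n 0 z (n 0 z (n 0 z (n 0 z (n 0 z (n 0 z z))))))))))) (n 253 (n 0 z (n
 0 z (n 0 z (n 0 z (n 0 z (n 0 z (n 0 z (n 0 z (n 0 z (n 0 z (n 0 z z))))))))))) (n 253 (n 0 z
 (n 0 z (n 0 z (n 0 z (n 0 z (n 0 z (n 0 z (n 0 z (n 0 z (n 0 z (n 0 z z))))))))))) z))))) (n 0
 (n 0 z (n 389 (n 0 z (n 0 z (n 0 z (n 0 z (n 0 z z))))) (n 389 (n 0 z (n 0 z (n 0 z (n 0 z (n 0
 z z))))) (n 389 (n 0 z (n 0 z (n 0 z (n 0 z (n 0 z z))))) z)))) (n 0 (n 505 (n 0 z (n 0 z (n 0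
 z (n 0 z z)))) (n 505 (n 0 z (n 0 z (n 0 z (n 0 z z)))) (n 505 (n 0 z (n 0 z (n 0 z (n 0 z
 z)))) z))) (n 0 (n 0 z (n 0 z z)) (n 0 (n 0 z z) (n 0 z z)))))))))))) (n 0 (n 1 (n 3282443 z (n
 3282443 z (n 3282443 z (n 3282443 z (n 3282443 z (n 3282443 z z)))))) (n 0 z (n 1 (n 28 z (n
 3612 z (n 3612 z (n 3612 z (n 3612 z (n 3612 z z)))))) (n 0 z (n 0 z z))))) (n 0 z z))))
 z)))))))))), by decide +kernel⟩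
theorem i10808 : ∃ t, chkR KT RW t 10808 10818 = true := ⟨(n
 0x8695414a1b4850b701a9d28429ca2a551440 (n 0 (n 441 (n 3282443 z (n 2 z (n 0 z z))) (n 261 (n 0
 z (n 0 z (n 0 z (n 0 z (n 3278363 z z))))) (n 9 (n 3212843 z (n 0 z (n 0 z (n 0 z (n 0 z (n 0 z
 (n 0 z (n 0 z (n 10 z (n 0 z (n 18 z (n 0 z (n 0 z (n 0 z (n 0 z z))))))))))))))) (n 27 (n 26 z
 (n 34 z (n 2164283 z z))) (n 1 (n 0 z (n 0 z (n 0 z (n 0 z (n 6554139 z z))))) (n 0 (n 42 z (n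
 0 z (n 0 z (n 50 z (n 0 z (n 0 z (n 0 z (n 6628411 z z)))))))) z)))))) (n 441 (n 0 (n 747 (n 0
 z (n 0 z (n 0 z (n 0 z (n 0 z (n 0 z z)))))) (n 747 (n 0 z (n 0 z (n 0 z (n 0 z (n 0 z (n 0 z
 z)))))) (n 7 (n 0 z (n 0 z (n 0 z (n 0 z (n 0 z (n 0 z (n 0 z (n 0 z (n 0 z (n 0 z (n 0 z
 z))))))))))) (n 7 (n 0 z (n 0 z (n 0 z (n 0 z (n 0 z (n 0 z (n 0 z (n 0 z (n 0 z (n 0 z (n 0 z
 z))))))))))) (n 745 (n 0 z (n 0 z (n 0 z (n 0 z z)))) (n 745 (n 0 z (n 0 z (n 0 z (n 0 z z))))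
 z)))))) (n 0 (n 0 z (n 7 (n 0 z (n 0 z (n 0 z (n 0 z z)))) (n 7 (n 0 z (n 0 z (n 2 (n 1 z (n 1
 z z)) (n 0 z z)))) (n 13 (n 2 (n 0 z z) (n 0 z (n 0 z (n 0 z (n 0 z (n 0 z (n 0 z (n 0 z (n 0 z
 (n 0 z z)))))))))) (n 13 (n 0 z (n 0 z (n 0 z (n 0 z (n 0 z (n 0 z (n 0 z (n 0 z (n 0 z (n 0 z
 z)))))))))) z))))) (n 0 (n 507 (n 0 z (n 2 (n 0 z (n 1 z (n 1 z z))) (n 0 z (n 0 z z)))) (n 507
 (n 0 z (n 0 z (n 0 z (n 0 z z)))) (n 1081 (n 0 z (n 0 z (n 0 z (n 0 z (n 0 z (n 0 z (n 0 z (n 0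
 z (n 0 z (n 0 z (n 0 z (n 0 z (n 0 z (n 0 z (n 0 z (n 0 z (n 0 z (n 0 z (n 0 z (n 0 z (n 0 z
 z))))))))))))))))))))) (n 1081 (n 0 z (n 0 z (n 0 z (n 0 z (n 0 z (n 0 z (n 0 z (n 0 z (n 0 z
 (n 0 z (n 0 z (n 0 z (n 0 z (n 0 z (n 0 z (n 0 z (n 0 z (n 0 z (n 0 z (n 0 z (n 0 z
 z))))))))))))))))))))) z)))) (n 0 (n 0 z (n 493 (n 0 z (n 0 z (n 0 z (n 0 z (n 0 z (n 0 z (n 0
 z (n 0 z (n 0 z (n 0 z (n 0 z z))))))))))) (n 493 (n 0 z (n 0 z (n 0 z (n 0 z (n 0 z (n 0 z (n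
 0 z (n 0 z (n 0 z (n 0 z (n 0 z z))))))))))) z))) (n 0 (n 61 (n 0 z (n 0 z (n 0 z (n 0 z (n 0 z
 (n 0 z (n 0 z (n 0 z (n 0 z (n 0 z (n 0 z (n 0 z (n 0 z (n 0 z z)))))))))))))) (n 61 (n 0 z (n
 0 z (n 0 z (n 0 z (n 0 z (n 0 z (n 0 z (n 0 z (n
 0x6ea8c842078008138137ee8117eb80e7e980f8017ef7f07f98107ee8228087f07ec80a8027fe80d7eb80a8088177ea7ea8138037f57ff8028077fd8067fa8057ff80c7f381a7ff8047ee8067fe7fc7fc0811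
 z (n
 0x50ea8c842077e983284b7cf82a7a68487b880b8077f978681c8058298537fb7e37b78318468117fe7a981b7c088077e7cc8357fa8697ea7f682f81e84d7c68267ef79e7ce86b8038067b48337dd8058070811
 z (n 0 z (n 0 z (n 0 z (n 0 z z)))))))))))))) z)) (n 0 (n 0 z z) (n 0 z z))))))) (n 0 (n 1 (n
 3282443 z (n 3282443 z (n 3282443 z (n 3282443 z (n 3282443 z (n 3282443 z z)))))) (n 1 (n 2092
 z (n 2092 z (n 2092 z (n 2092 z (n 2092 z (n 2092 z z)))))) (n 0 z z))) (n 0 z z)))) (n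
 0xb4d2e1629209b58818d4c68894506ab1a82314c29 (n 0 (n 467 (n 3282443 z (n 0 z (n 0 z (n 0 z (n 0
 z z))))) (n 39 (n 0 z (n 0 z (n 0 z (n 0 z (n 0 z (n 0 z (n 3278363 z (n 2 z (n 0 z (n 0 z (n
 10 z (n 0 z (n 0 z (n 0 z (n 0 z (n 0 z z)))))))))))))))) (n 9 (n 0 z (n 0 z (n 0 z (n 0 z (n
 18 z (n 26 z (n 3212843 z z))))))) (n 27 (n 6631691 z (n 0 z (n 0 z (n 0 z (n 0 z (n 0 z
 z)))))) (n 1 (n 0 z (n 34 z (n 0 z (n 0 z (n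
 0x2eb08005c6108008008008008008007fa7fa81b7fa75880085484e89a7546f68c872d85a87887f8786ef8007bc8008388227ae81c8337b27dc78d82683b8747ea7dc79a83081f85078e80a75f7e887b7b60091
 z (n 0 z (n 42 z (n 6558507 z (n 0 z (n 50 z z)))))))))) (n 0 (n 0 z (n 0 z (n 0 z (n 58 z (n 0
 z (n 6631691 z (n 0 z (n 0 z (n 0 z z))))))))) z)))))) (n 467 (n 0 (n 0 z (n 921 (n 0 z (n 0 z
 (n 0 z (n 0 z (n 0 z (n 0 z (n 0 z (n 0 z z)))))))) (n 921 (n 0 z (n 0 z (n 0 z (n 0 z (n 2 (n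
 1 z (n 1 z (n 1 z (n 1 z z)))) (n 0 z (n 0 z (n 0 z z)))))))) (n 913 (n 0 z (n 0 z (n 0 z (n 0
 z (n 7685643 z z))))) (n 913 (n 0 z (n 0 z (n 0 z (n 0 z (n 0 z z))))) (n 913 (n 0 z (n 0 z (n
 0 z (n 0 z (n 0 z z))))) (n 77 (n 0 z (n 0 z (n 0 z (n 0 z z)))) z))))))) (n 0 (n 1015 (n 0 z
 (n 0 z (n 0 z (n 0 z (n 0 z (n 2 (n 0 z (n 1 z (n 1 z (n 1 z (n 1 z z))))) (n 0 z (n 0 z
 z)))))))) (n 1015 (n 0 z (n 0 z (n 0 z (n 0 z (n 0 z (n 0 z (n 0 z (n 0 z z)))))))) (n 51 (n 0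
 z (n 0 z (n 0 z (n 0 z (n 0 z (n 0 z (n 0 z (n 0 z (n 0 z (n 0 z (n 0 z z))))))))))) (n 51 (n 0
 z (n 0 z (n 0 z (n 0 z (n 2 (n 0 z (n 1 z z)) (n 0 z (n 0 z (n 0 z (n 0 z (n 0 z (n 0 z
 z))))))))))) (n 51 (n 0 z (n 0 z (n 0 z (n 0 z (n 0 z (n 0 z (n 0 z (n 0 z (n 0 z (n 0 z (n 0 z
 z))))))))))) (n 53 (n 0 z (n 0 z (n 0 z (n 0 z (n 0 z (n 0 z (n 0 z (n 0 z (n 0 z (n 0 z (n 0 z
 (n 0 z (n 0 z (n 0 z (n 0 z (n 0 z z)))))))))))))))) z)))))) (n 0 (n 0 z (n 21 (n 0 z (n 0 z (n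
 0 z (n 0 z (n 0 z (n 0 z (n 0 z (n 0 z (n 0 z z))))))))) (n 21 (n 0 z (n 0 z (n 0 z (n 0 z (n 0
 z (n 0 z (n 0 z (n 0 z (n 0 z z))))))))) (n 21 (n 0 z (n 0 z (n 0 z (n 0 z (n 0 z (n 0 z (n 0 z
 (n 0 z (n 0 z z))))))))) (n 17 (n 0 z (n 0 z (n 0 z (n 0 z (n 0 z (n 0 z (n 0 z (n 0 z (n 0 z
 z))))))))) z))))) (n 0 (n 15 (n 0 z (n 0 z (n 0 z (n 0 z (n 0 z (n 0 z (n 0 z z))))))) (n 15 (n
 0 z (n 0 z (n 0 z (n 0 z (n 0 z (n 0 z (n 0 z z))))))) (n 15 (n 0 z (n 0 z (n 0 z (n 0 z (n 0 z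
 (n 0 z (n 0 z z))))))) (n 17 (n 0 z (n 0 z (n 0 z (n 0 z (n 0 z (n 0 z z)))))) z)))) (n 0 (n 0
 z (n 0 z (n 1 (n 0 z (n 0 z (n 0 z (n 0 z (n 0 z (n 0 z (n 0 z (n 0 z (n 0 z (n 0 z (n 0 z
 z))))))))))) z))) (n 0 (n 0 z (n 1 (n 0 z (n 0 z (n 0 z (n 0 z (n 0 z z))))) z)) (n 0 (n 1 (n 0
 z (n 0 z (n 0 z (n 0 z (n 0 z (n 0 z (n 0 z z))))))) z) (n 0 z z)))))))) (n 0 (n 1 (n 6631691 z
 (n 3282443 z (n 3282443 z (n 3282443 z (n 3282443 z (n 3282443 z z)))))) (n 0 z (n 0 z (n 0 z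
 (n 0 z z))))) (n 0 z z)))) (n 0x890aa (n 0 (n 183 (n 0 z (n 0 z (n 0 z (n 0 z (n 0 z (n 0 z (n
 0 z (n 0 z (n 0 z (n 0 z (n 3282443 z z))))))))))) (n 33 (n 0 z (n 3278363 z (n 0 z z))) (n 171
 (n 2 z (n 0 z (n 0 z (n 0 z (n 0 z (n 0 z (n 0 z (n 3212843 z z)))))))) (n 3 (n 0 z (n 0 z (n
 2164283 z (n 0 z z)))) (n 1 (n 6636043 z (n 0 z (n 0 z (n 0 z (n 0 z (n 0 z z)))))) (n 0 (n 0 z
 (n 6636043 z (n 0 z (n 0 z z)))) z)))))) (n 33 (n 0 z z) (n 0 (n 0 z (n 1 (n 3278363 z (n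
 3278363 z (n 3278363 z (n 3278363 z (n 3278363 z (n 3278363 z z)))))) (n 0 z z))) (n 0 z z))))
 (n 0x62a21 (n 0 (n 563 (n 0 z (n 3282443 z (n
 0x896527d8e769a8288808382797982837882707f8b8374817a7e7e81a26e8b8d7c7d8576737588807878898c737882898b797b81840049
 z (n 0 z (n 0 z (n 0 z (n 0 z (n
 0x286218480808280807f8080807f817e7e807f81828380807f817d8082807e7e7e828080818080828183808082808082827e7f807f0049
 z (n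
 0x595194c80e02ca4c84203837f798e867f7b838c828f608b878785707a99727a6c756d92ab777d79778174748286918c6184877d88797e7b8d7c6898841009
 z (n
 0x286218480808280807f8080807f817e7e807f81828380807f817d8082807e7e7e828080818080828183808082808082827e7f807f0049
 z (n 0 z (n 0 z (n 0 z (n 0 z (n 0 z (n
 0x321318a81c090c984140e00ca6a842077f7f80807f80818182807f80808080808180808081807f7f81827f80818080807f80808180808080807f80808080808081801809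
 z z)))))))))))))))) (n 451 (n 3278363 z (n 0 z (n 0 z (n 0 z (n 2 z (n 0 z z)))))) (n 517 (n 0
 z (n 0 z (n 0 z (n 0 z (n 0 z (n 3212843 z (n 3212843 z (n 0 z (n 0 z (n 0 z (n 0 z (n 0 z
 z)))))))))))) (n 3 (n 6631691 z (n 0 z (n 0 z (n 0 z (n 0 z z))))) (n 1 (n 0 z (n 2164299 z (n
 0 z z))) (n 0 (n 0 z (n 6631691 z (n 6631691 z (n
 0x196437e837f827f828181817e7f7c8682817f7e7f82807f7e7b7f82867d84808080837b7c7f84827e7f82837f7f808280817e81800049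
 z (n 0 z (n 0 z (n 0 z (n 0 z (n 0 z (n
 0xac86c624030563163020185b29988101c159490c80060ac84c620078083817e7e7b837e857f8376878c8284807f847f7f7c7c798a85807c7d7a837e7c7b8487897e83788989807c7b807d81847f2809
 z (n 0 z (n 0 z (n 0 z z))))))))))))) z)))))) (n 1 (n 0 z z) (n 0 (n 0 z (n 1 (n 2164299 z (n
 2164299 z (n 2164299 z (n 2164299 z (n 2164299 z (n 2164299 z z)))))) (n 0 z z))) (n 0 z z))))
 (n 0x286a3899680 (n 0 (n 693 (n 3282443 z (n 0 z (n 2 z (n 0 z (n 0 z z))))) (n 461 (n 3278363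
 z (n 0 z (n 0 z (n 0 z (n 0 z z))))) (n 9 (n 0 z (n 0 z (n 0 z (n 0 z (n 0 z (n 0 z (n 6562059
 z (n 0 z (n 0 z z))))))))) (n 3 (n 2164283 z (n 0 z (n 0 z z))) (n 1 (n 0 z (n 6562059 z (n 0 z
 (n 0 z (n 0 z (n 10 z (n 0 z z))))))) (n 0 (n 6624315 z (n 0 z (n 0 z z))) z)))))) (n 3 (n 0 (n
 133 (n 0 z (n 2 z (n 0 z (n 0 z (n 0 z (n 0 z (n 0 z z))))))) z) (n 0 z z)) (n 0 (n 1 (n
 2164283 z (n 2164283 z (n 2164283 z (n 6624315 z (n 2164283 z (n 2164283 z z)))))) (n 0 z (n 0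
 z z))) (n 0 z z)))) (n 0x30ad98c655c2298e6c1b2d905b6ca0da (n 0 (n 593 (n 3282443 z (n 0 z (n 0
 z (n 0 z (n 0 z (n 0 z (n 0 z (n 0 z (n 0 z (n 0 z (n 0 z (n
 0x1594d94c80e0aca8ca62037c9e7542d88aaa57936f91808289873152b39a6fcd6d74686653a1e86d2f9f966b347c9baf885597976b6b8844d64134a3861009
 z (n 0 z (n 0 z (n 0 z (n 0 z z)))))))))))))))) (n 589 (n 6558475 z (n 0 z (n 0 z (n 0 z z))))
 (n 129 (n 0 z (n 0 z (n 2 z (n 3212843 z (n 0 z (n 0 z (n 0 z (n 0 z z)))))))) (n 27 (n 0 z (n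
 0 z (n 0 z (n 0 z (n 0 z (n 10 z (n 0 z (n 0 z (n 0 z (n 0 z (n 0 z (n 0 z (n 0 z (n 0 z (n 0 z
 (n 0 z (n 0 z (n 0 z (n 2164283 z (n 18 z (n 0 z (n 0 z z)))))))))))))))))))))) (n 1 (n 6558475
 z (n 26 z (n 34 z (n 0 z (n 0 z (n 42 z z)))))) (n 0 (n 2164315 z (n 0 z (n 0 z (n 0 z (n 0 z
 (n 0 z (n 0 z (n 0 z (n 0 z z))))))))) z)))))) (n 589 (n 0 (n 1093 (n 0 z (n 0 z (n 0 z (n 0 z
 (n 0 z (n 0 z z)))))) (n 1093 (n 0 z (n 0 z (n 0 z (n 2 (n 1 z (n 1 z (n 1 z z))) (n 0 z (n 0 z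
 z)))))) (n 339 (n 0 z (n 0 z (n 0 z (n 0 z (n 0 z (n 0 z z)))))) (n 339 (n 0 z (n 0 z (n 0 z (n
 0 z (n 0 z (n 0 z z)))))) (n 339 (n 0 z (n 0 z (n 0 z (n 0 z (n 2 z (n 0 z z)))))) z))))) (n 0
 (n 0 z (n 51 (n 0 z (n 0 z (n 0 z (n 0 z (n 0 z (n 0 z (n 0 z (n 0 z (n 0 z z))))))))) (n 51 (n
 0 z (n 0 z (n 0 z (n 0 z (n 0 z (n 0 z (n 0 z (n 0 z (n 0 z z))))))))) (n 51 (n 0 z (n 0 z (n 0
 z (n 0 z (n 0 z (n 0 z (n 0 z (n 0 z (n 2 z z))))))))) z)))) (n 0 (n 51 (n 0 z (n 0 z (n 0 z (n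
 0 z (n 0 z (n 0 z (n 0 z z))))))) (n 51 (n 0 z (n 0 z (n 0 z (n 2 (n 0 z z) (n 0 z (n 0 z (n 0
 z z))))))) (n 51 (n 0 z (n 0 z (n 0 z (n 0 z (n 0 z (n 0 z (n 0 z z))))))) z))) (n 0 (n 0 z (n
 0 z z)) (n 0 (n 0 z z) (n 0 z z)))))) (n 0 (n 1 (n 6558475 z (n 6558475 z (n 6558475 z (n
 6558475 z (n 6558475 z (n 6558475 z z)))))) (n 0 z (n 0 z (n 0 z z)))) (n 0 z z)))) (n
 0x1862dcc1b666ad825a2c13ab6c0 (n 0 (n 573 (n 0 z (n 3282443 z (n 2 z (n 0 z z)))) (n 571 (n 0 z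
 (n 3278363 z (n 10 z (n 0 z (n 18 z (n 0 z (n 0 z (n 0 z (n 6427979 z (n 0 z (n 0 z (n 0 z (n 0
 z (n 0 z (n 0 z z))))))))))))))) (n 572 (n 3212843 z (n 0 z (n 0 z (n 0 z (n
 0x4ca6ca60038047fe8027fb7fd7fe8007fe7fe8067fe7fb8038078018017ff7fe7fa8058007fd8007fe8007fa7fe7ff7fd7fd8038007fc7fe8068048028017fb7ff8078047ff7f97fe8028047fc7fd8020811
 z (n 0 z (n 0 z (n 0 z z)))))))) (n 3 (n 0 z (n 2164283 z (n 2164283 z (n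
 0x12ca8c840077c97ff7ed88b77d82f7d98738037d67e88088577fd7f37df7c97c77f280782f7e27b882c82d8767857d280e82f7ec79886582880b85981376f7b88677838a37ef7c182b8067e68038108200811
 z (n
 0xaca8ca84037f080d7f58177e78177f880c7fa7f57f58008167f681f7f87e87ef8067fa8037fa7f681880480c7e07ff8068247f27e28127fe80380f7eb7e67f68177de8357e88008017ed8098187f67fe0811
 z (n
 0x995190800e006c84c820037f17fe8058048087e27f97f781b8007fe7fd8157f57ea80d7fa81c7f97f98077fb8197e27f97fd80d7f57fe7e08068117f78117fb7e982180b7f87fd80e7d38357ce7eb81d7dc7ef8178001011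
 z (n
 0x532a328100c00d95190080600aca4ca42077c67f67f68627a58057fc86880a7df7f97ef8577f57d27f68017f07cc7f68218097d57f98108677bc7ce7e87fa7f57d385b8347eb8428337b77ca8417b984582a7c882782f7bb7ee83a81d1811
 z (n 0 z z)))))))) (n 1 (n 0 z (n 2164299 z (n 0 z (n 0 z (n 0 z (n 0 z (n 0 z (n 0 z (n 0 z (n
 0 z (n 0 z (n 0 z (n 26 z (n 34 z z)))))))))))))) (n 0 (n 2164315 z (n 2164315 z (n 0 z (n
 0x3d90d90c80601ec84c842077a880d7f38717da83f7ef8507e37c883c80481379d7f97eb8157e98327f682b7ff7ad81181f85e7d281280783c7e07ad8588257c982e7e07ca82881a77e8147cc82f83e7e27d78208127f81011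
 z (n 0 z (n 0 z (n 0 z (n 0 z (n 0 z (n 0 z (n 0 z z))))))))))) z)))))) (n 573 (n 0 (n 1143 (n
 0 z (n 0 z (n 2 (n 0 z (n 1 z (n 1 z z))) (n 0 z (n 0 z (n 0 z (n 0 z z))))))) (n 1143 (n 0 z
 (n 0 z (n 0 z (n 0 z (n 0 z (n 0 z (n 0 z z))))))) (n 351 (n 0 z (n 0 z (n 0 z (n 0 z (n 0 z (n
 0 z z)))))) (n 351 (n 0 z (n 0 z (n 0 z (n 0 z (n 0 z (n 0 z z)))))) z)))) (n 0 (n 0 z (n 255
 (n 0 z (n 0 z (n 0 z (n 0 z (n 0 z (n 7741699 z (n 0 z z))))))) (n 255 (n 0 z (n 0 z (n 0 z (n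
 0 z (n 0 z (n 0 z (n 0 z z))))))) z))) (n 0 (n 3 (n 0 z (n 0 z (n 0 z (n 0 z (n 0 z (n 0 z (n 0
 z z))))))) (n 3 (n 0 z (n 0 z (n 0 z (n 0 z (n 0 z (n 0 z (n 2 z z))))))) z)) (n 0 (n 0 z z) (n
 0 z z))))) (n 0 (n 0 z (n 1 (n 3282443 z (n 3282443 z (n 3282443 z (n 3282443 z (n 3282443 z (n
 3282443 z z)))))) (n 1 (n 4580 z (n 4572 z (n 3280995 z (n 4572 z (n 3212891 z (n 4572 z
 z)))))) (n 0 z z)))) (n 0 z z)))) (n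
 0x5a63a2b2cd0aa4ed1527202c988485c41d7254126eaa134da052568b923016aaa83355480 (n 0x2aa93 (n 159
 (n 0 z (n 0 z (n 0 z (n 0 z (n 3282443 z (n 2 z z)))))) (n 33 (n 3278363 z (n 10 z z)) (n 9 (n
 0x2cca4a806077ec81a78f8228018708288237e67cb7da8348267ec8428167d47f882280c7a37d77e782681487071f7ef85f88b7817de8fe87f7d377677279e8fa7ad7ef79772c84584a89881d7928048420811
 z (n 0 z (n 18 z (n
 0x24ca4a826077f280b7b280d81384482f8228037c07f08228097f882780d7fe80f81f7eb7ea7d47e881080d82578a81d83a8437d283589d86e77879e7cc7ba88d7a17c777975d86f83f85481b79d8318340811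
 z (n 26 z (n 34 z (n 42 z (n
 0x1eca8ca86037ee8268547b38017aa80e79a8367f18267c08177de8337ad7fb7e17d581987183e8417dc8117958ac8027af7bd8577e070274283589a86085770385a7fd8e48b77e97827937e48908007b90811
 z (n 0 z (n 5441067 z (n 3212843 z (n
 0xca8ca86037e07df89f81f86186081f82082186182081f82082082082081f82082181f81f8218208208a00801 z (n
 0 z z))))))))))))) (n 3 (n 0 z (n 50 z (n 2164283 z (n 0 z z)))) (n 1 (n 58 z (n 66 z (n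
 0x4aca6a624037d381f8ba74c80071f8137a786783e8277ac8257d48197687b57e57e77fa89f83585d7d98357769747d772d77b8b87a96746ec8ee90182a8816738c98409319467367697a381e8b37a57bd0811
 z (n 2164299 z (n 74 z (n 82 z (n 0 z (n 0 z (n 0 z z))))))))) (n 0 (n 0 z (n 0 z (n 0 z (n 90
 z (n 0 z (n 2164315 z (n 0 z (n 0 z (n
 0x546208027fc7be82a7f58467f28317b88097f08127fe7fd8048367fd7fc8147ef7c58018058117f284d77d80184884f7c08028cb87978677e7ac7fb8c17777fa75678c87586883a7e27bb8528050051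
 z (n 98 z (n 106 z (n 0 z (n 0 z (n 0 z z)))))))))))))) z)))))) (n 33 (n 0 (n 167 (n 0 z (n 0 z
 (n 0 z (n 0 z (n 0 z z))))) (n 1019 (n 0 z (n 0 z (n 0 z (n 0 z (n 0 z (n 2 (n 0 z (n 0 z (n 0
 z (n 1 z (n 2 (n 0 z (n 0 z (n 0 z (n 0 z (n 0 z (n 0 z z)))))) (n 2 (n 0 z (n 0 z (n 0 z (n 0
 z (n 0 z (n 0 z z)))))) (n 2 (n 0 z (n 0 z (n 0 z (n 0 z (n 0 z (n 0 z z)))))) (n 1 z (n 1 z (n
 2 (n 0 z (n 0 z (n 0 z (n 0 z (n 0 z (n 0 z z)))))) (n 2 (n 0 z (n 0 z (n 0 z (n 0 z (n 0 z (n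
 0 z z)))))) z))))))))))) (n 0 z (n 0 z (n 0 z (n 0 z (n 0 z (n 0 z (n 0 z z))))))))))))) (n
 1019 (n 0 z (n 0 z (n 0 z (n 0 z (n 0 z (n 0 z (n 0 z (n 0 z (n 0 z (n 0 z (n 0 z (n 0 z (n 0 z
 z))))))))))))) (n 1019 (n 2 (n 0 z (n 1 z (n 1 z (n 1 z (n 2 (n 0 z (n 0 z (n 0 z (n 0 z (n 0 z
 (n 0 z z)))))) (n 1 z (n 1 z (n 2 (n 0 z (n 0 z (n 0 z (n 0 z (n 0 z (n 0 z z)))))) (n 2 (n 0 z
 (n 0 z (n 0 z (n 0 z (n 0 z (n 0 (n 8803379 z z) z)))))) z))))))))) (n 0 z (n 0 z (n 0 z (n 0 z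
 (n 0 z (n 0 z (n 0 z (n 0 z (n 0 z (n 0 z (n 0 z (n 0 z z))))))))))))) (n 1019 (n 0 z (n 0 z (n
 0 z (n 0 z (n 0 z (n 0 z (n 0 z (n 0 z (n 0 z (n 0 z (n 0 z (n 0 z (n 0 z z))))))))))))) (n 267
 (n 0 z (n 0 z (n 0 z (n 0 z (n 0 z (n 0 z (n 0 z z))))))) (n 291 (n 0 z (n 2 (n 0 z (n 0 z (n 0
 z (n 1 z (n 2 (n 0 z (n 0 z (n 0 z (n 0 z (n 0 z (n 0 (n 980 z z) z)))))) (n 1 z z)))))) (n 0 z
 (n 0 z (n 0 z (n 0 z (n 0 z (n 0 z (n 0 z (n 0 z (n 0 z (n 0 z (n 0 z (n 0 z (n 0 z (n 0 z (n 0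
 z (n 0 z (n 0 z (n 0 z z)))))))))))))))))))) (n 291 (n 0 z (n 0 z (n 2 (n 0 z (n 0 z (n 1 z (n
 2 (n 0 z (n 0 z (n 0 z (n 0 z (n 0 z (n 0 z z)))))) (n 2 (n 0 z (n 0 z (n 0 z (n 0 z (n 0 z (n
 0 z z)))))) z))))) (n 0 z (n 0 z (n 0 z (n 0 z (n 0 z (n 0 z (n 0 z (n 0 z (n 0 z (n 0 z (n 0 z
 (n 0 z (n 0 z (n 0 z (n 0 z (n 0 z (n 0 z z)))))))))))))))))))) (n 291 (n 0 z (n 0 z (n 0 z (n
 0 z (n 0 z (n 0 z (n 0 z (n 0 z (n 2 (n 0 z (n 1 z (n 2 (n 0 z (n 0 z (n 0 z (n 0 z (n 0 z (n 0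
 z z)))))) (n 2 (n 0 z (n 0 z (n 0 z (n 0 z (n 0 z (n 0 z z)))))) z)))) (n 0 z (n 0 z (n 0 z (n
 0 z (n 0 z (n 0 z (n 0 z (n 0 z (n 0 z (n 0 z (n 0 z z)))))))))))))))))))) (n 291 (n 0 z (n 0 z
 (n 0 z (n 0 z (n 0 z (n 0 z (n 0 z (n 0 z (n 0 z (n 0 z (n 0 z (n 0 z (n 0 z (n 0 z (n 0 z (n 0
 z (n 0 z (n 0 z (n 0 z (n 0 z z)))))))))))))))))))) (n 245 (n 0 z (n 0 z (n 0 z (n 0 z (n 0 z
 (n 0 z (n 0 z (n 0 z z)))))))) (n 245 (n 0 z (n 2 (n 0 z z) (n 0 z (n 0 z (n 0 z (n 0 z (n 0 z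
 (n 0 z z)))))))) (n 245 (n 0 z (n 0 z (n 0 z (n 0 z (n 7754803 z (n 0 z (n 0 z (n 0 z z))))))))
 z))))))))))))) (n 0 (n 395 (n 0 z (n 0 z (n 0 z (n 0 z (n 0 z (n 2 (n 0 z (n 0 z (n 0 z (n 1 z
 (n 2 (n 0 z (n 0 z (n 0 z (n 0 z (n 0 z (n 0 z z)))))) (n 2 (n 0 z (n 0 z (n 0 z (n 0 z (n 0 z
 (n 0 z z)))))) (n 2 (n 0 z (n 0 z (n 0 z (n 0 z (n 0 z (n 0 z z)))))) (n 2 (n 0 z (n 0 z (n 0 z
 (n 0 z (n 0 z (n 0 (n 8803379 z z) z)))))) (n 1 z (n 2 (n 0 z (n 0 z (n 0 z (n 0 z (n 0 z (n 0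
 z z)))))) (n 2 (n 0 z (n 0 z (n 0 z (n 0 z (n 0 z (n 0 z z)))))) z))))))))))) (n 0 z (n 0 z (n
 0 z (n 0 z (n 0 z (n 0 z (n 0 z z))))))))))))) (n 395 (n 0 z (n 0 z (n 0 z (n 0 z (n 0 z (n 0 z
 (n 0 z (n 0 z (n 0 z (n 0 z (n 0 z (n 0 z (n 0 z z))))))))))))) (n 395 (n 0 z (n 0 z (n 0 z (n
 0 z (n 0 z (n 0 z (n 0 z (n 0 z (n 0 z (n 0 z (n 0 z (n 0 z (n 0 z z))))))))))))) (n 395 (n 0 z
 (n 0 z (n 0 z (n 0 z (n 0 z (n 0 z (n 0 z (n 0 z (n 0 z (n 0 z (n 0 z (n 0 z (n 0 z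
 z))))))))))))) (n 487 (n 0 z (n 0 z (n 0 z (n 0 z z)))) (n 483 (n 2 (n 0 z (n 0 z (n 0 z (n 1 z
 (n 2 (n 0 z (n 0 z (n 0 z (n 0 z (n 0 z (n 0 (n 1924 z z) z)))))) (n 1 z z)))))) (n 0 z (n 0 z
 (n 0 z (n 0 z (n 0 z (n 0 z (n 0 z z)))))))) (n 483 (n 0 z (n 2 (n 0 z (n 0 z (n 1 z (n 2 (n 0
 z (n 0 z (n 0 z (n 0 z (n 0 z (n 0 z z)))))) (n 2 (n 0 z (n 0 z (n 0 z (n 0 z (n 0 z (n 0 z
 z)))))) z))))) (n 0 z (n 0 z (n 0 z (n 0 z (n 0 z (n 0 z z)))))))) (n 483 (n 0 z (n 0 z (n 0 z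
 (n 0 z (n 0 z (n 2 (n 0 z (n 2 (n 0 z (n 0 z (n 0 z (n 0 z (n 0 z (n 0 z z)))))) (n 2 (n 0 z (n
 0 z (n 0 z (n 0 z (n 0 z (n 0 z z)))))) (n 2 (n 0 z (n 0 z (n 0 z (n 0 z (n 0 z (n 0 z z))))))
 z)))) (n 0 z (n 0 z z)))))))) (n 483 (n 0 z (n 0 z (n 0 z (n 0 z (n 0 z (n 0 z (n 0 z (n 0 z
 z)))))))) (n 481 (n 0 z (n 0 z (n 0 z (n 0 z (n 0 z (n 0 z (n 0 z (n 0 z (n 0 z (n 0 z (n 0 z
 (n 0 z (n 0 z (n 0 z z)))))))))))))) (n 481 (n 0 z (n 0 z (n 0 z (n 0 z (n 0 z (n 0 z (n 0 z (n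
 0 z (n 2 (n 0 z z) (n 0 z (n 0 z (n 0 z (n 0 z (n 0 z z)))))))))))))) (n 481 (n 0 z (n 0 z (n 0
 z (n 0 z (n 0 z (n 0 z (n 0 z (n 0 z (n 0 z (n 0 z (n 7754803 z (n 0 z (n 0 z (n 0 z
 z)))))))))))))) z)))))))))))) (n 0 (n 0 z (n 0 z (n 0 z (n 645 (n 0 z (n 0 z (n 0 z (n 2 (n 2
 (n 0 z (n 0 z (n 0 z (n 0 z (n 0 z (n 0 (n 972 z z) z)))))) (n 2 (n 0 z (n 0 z (n 0 z (n 0 z (n
 0 z (n 0 (n 3213419 z z) z)))))) (n 2 (n 0 z (n 0 z (n 0 z (n 0 z (n 0 z (n 0 z z)))))) (n 1 z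
 (n 1 z (n 2 (n 0 z (n 0 z (n 0 z (n 0 z (n 0 z (n 0 z z)))))) (n 2 (n 0 z (n 0 z (n 0 z (n 0 z
 (n 0 z (n 0 z z)))))) z))))))) (n 0 z (n 0 z (n 0 z (n 0 z z)))))))) (n 243 (n 0 z (n 0 z (n 0
 z (n 0 z (n 0 z (n 0 z (n 0 z (n 0 z z)))))))) (n 243 (n 0 z (n 0 z (n 0 z (n 0 z (n 0 z (n 0 z
 (n 0 z (n 0 z z)))))))) (n 243 (n 0 z (n 0 z (n 0 z (n 2 (n 0 z (n 2 (n 0 z (n 0 z (n 0 z (n 0
 z (n 0 z (n 0 (n 2212 z z) z)))))) (n 1 z (n 2 (n 0 z (n 0 z (n 0 z (n 0 z (n 0 z (n 0 z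
 z)))))) z)))) (n 0 z (n 0 z (n 0 z (n 0 z z)))))))) (n 243 (n 0 z (n 0 z (n 0 z (n 0 z (n 0 z
 (n 0 z (n 2 (n 1 z (n 2 (n 0 z (n 0 z (n 0 z (n 0 z (n 0 z (n 0 z z)))))) (n 2 (n 0 z (n 0 z (n
 0 z (n 0 z (n 0 z (n 0 z z)))))) z))) (n 0 z z)))))))) (n 553 (n 0 z (n 0 z (n 0 z (n 0 z (n 2
 (n 0 z (n 0 z z)) (n 0 z (n 0 z (n 0 z (n 0 z (n 0 z (n 0 z z))))))))))) (n 553 (n 0 z (n 0 z
 (n 0 z (n 0 z (n 0 z (n 0 z (n 0 z (n 0 z (n 0 z (n 0 z (n 0 z z))))))))))) (n 553 (n 0 z (n 0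
 z (n 0 z (n 0 z (n 0 z (n
 0xcea8c846037fe80b80d7f58007f280080280d80180b7fb8017fe8047f48087fe7fa8098098077ff7f68007ee8218077f57ea8148007d57f17fb81a8118107d680b80e80d8208037ef7ee7f581080d7ef0811
 z (n
 0x547618027fc7be82a7f58467f28317b88097f08127fe7fd8048367fd7fc8147ef7c58018058117f284d77d80184884f7c08028cb87978677e7ac7fb8c17777fa75678c87586883a7e27bb8528050051
 z (n 0 z (n 0 z (n 0 z (n 0 z z))))))))))) z))))))))))) (n 0 (n 0 z (n 0 z (n 273 (n 0 z (n 0 z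
 (n 0 z (n 0 z (n 0 z z))))) (n 21 (n 2 (n 0 z (n 0 z (n 0 z (n 1 z (n 2 (n 0 z (n 0 (n 8872731
 z z) (n 0 (n 8872731 z z) (n 0 z (n 0 z (n 0 (n 8872731 z (n 8872731 z z)) z)))))) (n 1 z
 z)))))) (n 0 z (n 0 z (n 0 z (n 0 z (n 0 z (n 0 z (n 0 z (n 0 z z))))))))) (n 21 (n 0 z (n 0 z
 (n 0 z (n 0 z (n 0 z (n 0 z (n 2 (n 0 z (n 0 z (n 1 z (n 2 (n 0 z (n 0 z (n 0 z (n 0 z (n 0 z
 (n 0 z z)))))) (n 1 z z))))) (n 0 z (n 0 z z))))))))) (n 21 (n 0 z (n 0 z (n 0 z (n 0 z (n 0 z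
 (n 0 z (n 0 z (n 0 z (n 0 z z))))))))) (n 21 (n 0 z (n 0 z (n 0 z (n 0 z (n 0 z (n 0 z (n 0 z
 (n 0 z (n 0 z z))))))))) (n 17 (n 0 z (n 0 z (n 0 z (n 0 z (n 0 z (n 0 z (n 0 z (n 0 z
 z)))))))) (n 17 (n 0 z (n 0 z (n 0 z (n 0 z (n 0 z (n 0 z (n 0 z (n 0 z z)))))))) (n 17 (n 0 z
 (n 0 z (n 0 z (n 0 z (n 0 z (n 0 z (n 0 z (n 0 z z)))))))) z)))))))))) (n 0 (n 0 z (n 295 (n 0
 z (n 0 z (n 0 z (n 0 z (n 0 z (n 0 z (n 0 z (n 0 z (n 0 z (n 0 z (n 0 z (n 0 z z)))))))))))) (n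
 291 (n 2 (n 0 z (n 0 z (n 0 z (n 1 z (n 2 (n 0 z (n 0 z (n 0 z (n 0 z (n 0 z (n 0 z z)))))) (n
 2 (n 0 z (n 0 z (n 0 z (n 0 z (n 0 z (n 0 z z)))))) z)))))) (n 0 z (n 0 z (n 0 z (n 0 z (n 0 z
 (n 0 z (n 0 z (n 0 z (n 0 z (n 0 z (n 0 z (n 0 z (n 0 z (n 0 z z))))))))))))))) (n 291 (n 0 z
 (n 2 (n 0 z (n 0 z (n 1 z (n 2 (n 0 z (n 0 z (n 0 z (n 0 z (n 0 z (n 0 z z)))))) (n 2 (n 0 z (n
 0 z (n 0 z (n 0 z (n 0 z (n 0 z z)))))) z))))) (n 0 z (n 0 z (n 0 z (n 0 z (n 0 z (n 0 z (n 0 z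
 (n 0 z (n 0 z (n 0 z (n 0 z (n 0 z (n 0 z z))))))))))))))) (n 291 (n 0 z (n 0 z (n 0 z (n 0 z
 (n 0 z (n 0 z (n 0 z (n 0 z (n 0 z (n 0 z (n 0 z (n 0 z (n 0 z (n 0 z (n 0 z z)))))))))))))))
 (n 291 (n 0 z (n 0 z (n 0 z (n 0 z (n 0 z (n 0 z (n 0 z (n 0 z (n 0 z (n 2 (n 1 z (n 2 (n 0 z
 (n 0 z (n 0 z (n 0 z (n 0 z (n 0 z z)))))) (n 2 (n 0 z (n 0 z (n 0 z (n 0 z (n 0 z (n 0 z
 z)))))) z))) (n 0 z (n 0 z (n 0 z (n 0 z (n 0 z z))))))))))))))) (n 293 (n 0 z (n 0 z (n 0 z (n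
 0 z (n 0 z (n 0 z (n 0 z (n 0 z (n 0 z (n 0 z (n 0 z (n 0 z (n 0 z (n 0 z z)))))))))))))) (n
 293 (n 0 z (n 0 z (n 0 z (n 0 z (n 2 (n 0 z z) (n 0 z (n 0 z (n 0 z (n 0 z (n 0 z (n 0 z (n 0 z
 (n 0 z (n 0 z z)))))))))))))) (n 293 (n 0 z (n 0 z (n 0 z (n 0 z (n 0 z (n 0 z (n 0 z (n 0 z (n
 0 z (n 0 z (n 2 z (n 0 z (n 0 z (n 0 z z)))))))))))))) z))))))))) (n 0 (n 247 (n 0 z (n 0 z (n
 0 z (n 0 z (n 0 z (n 0 z (n 0 z (n 0 z (n 0 z (n 0 z (n 0 z z))))))))))) (n 243 (n 2 (n 0 z (n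
 0 z (n 0 z (n 1 z (n 2 (n 0 z (n 0 z (n 0 z (n 0 z (n 0 z (n 0 (n 980 z z) z)))))) (n 1 z
 z)))))) (n 0 z (n 0 z (n 0 z (n 0 z (n 0 z (n 0 z (n 0 z (n 0 z (n 0 z (n 0 z (n 0 z (n 0 z (n
 0 z z)))))))))))))) (n 243 (n 0 z (n 2 (n 0 z (n 0 z (n 1 z (n 2 (n 0 z (n 0 z (n 0 z (n 0 z (n
 0 z (n 0 z z)))))) (n 2 (n 0 z (n 0 z (n 0 z (n 0 z (n 0 z (n 0 z z)))))) z))))) (n 0 z (n 0 z
 (n 0 z (n 0 z (n 0 z (n 0 z (n 0 z (n 0 z (n 0 z (n 0 z (n 0 z (n 0 z z)))))))))))))) (n 243 (n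
 0 z (n 0 z (n 0 z (n 0 z (n 0 z (n 2 (n 0 z (n 2 (n 0 z (n 0 z (n 0 z (n 0 z (n 0 z (n 0 z
 z)))))) (n 2 (n 0 z (n 0 z (n 0 z (n 0 z (n 0 z (n 0 z z)))))) (n 2 (n 0 z (n 0 z (n 0 z (n 0 z
 (n 0 z (n 0 z z)))))) z)))) (n 0 z (n 0 z (n 0 z (n 0 z (n 0 z (n 0 z (n 0 z (n 0 z
 z)))))))))))))) (n 243 (n 0 z (n 0 z (n 0 z (n 0 z (n 0 z (n 0 z (n 0 z (n 0 z (n 0 z (n 0 z (n
 0 z (n 0 z (n 0 z (n 0 z z)))))))))))))) (n 245 (n 0 z (n 0 z (n 0 z (n 0 z (n 0 z (n 0 z (n 0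
 z (n 0 z (n 0 z (n 0 z (n 0 z (n 0 z z)))))))))))) (n 245 (n 0 z (n 0 z (n 0 z (n 2 (n 0 z z)
 (n 0 z (n 0 z (n 0 z (n 0 z (n 0 z (n 0 z (n 0 z (n 0 z z)))))))))))) (n 245 (n 0 z (n 0 z (n 0
 z (n 0 z (n 0 z (n 0 z (n 0 z (n 0 z (n 7754803 z (n 0 z (n 0 z (n 0 z z)))))))))))) z))))))))
 (n 0 (n 3 (n 0 z (n 2 (n 0 z (n 0 z (n 0 z (n 1 z (n 2 (n 0 z (n 0 z (n 0 z (n 0 z (n 0 z (n 0
 z z)))))) (n 1 z z)))))) (n 0 z (n 0 z (n 0 z (n 0 z (n 0 z z))))))) (n 3 (n 2 (n 0 z (n 0 z (n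
 1 z (n 2 (n 0 z (n 0 z (n 0 z (n 0 z (n 0 z (n 0 z z)))))) (n 2 (n 0 z (n 0 z (n 0 z (n 0 z (n
 0 z (n 0 z z)))))) z))))) (n 0 z (n 0 z (n 0 z (n 0 z (n 0 z (n 0 z z))))))) (n 3 (n 0 z (n 0 z
 (n 0 z (n 0 z (n 0 z (n 2 (n 0 z (n 1 z (n 2 (n 0 z (n 0 z (n 0 z (n 0 z (n 0 z (n 0 z z))))))
 (n 2 (n 0 z (n 0 z (n 0 z (n 0 z (n 0 z (n 0 z z)))))) z)))) (n 0 z z))))))) (n 3 (n 0 z (n 0 z
 (n 0 z (n 0 z (n 0 z (n 0 z (n 0 z z))))))) (n 1 (n 0 z (n 0 z (n 0 z (n 0 z (n 0 z (n 0 z (n 0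
 z (n 0 z (n 0 z (n 0 z (n 0 z (n 0 z (n 0 z (n 0 z z)))))))))))))) (n 1 (n 0 z (n 0 z (n 0 z (n
 0 z (n 0 z (n 0 z (n 0 z (n 0 z (n 2 (n 0 z z) (n 0 z (n 0 z (n 0 z (n 0 z (n 0 z
 z)))))))))))))) (n 1 (n 0 z (n 0 z (n 0 z (n 0 z (n 0 z (n 0 z (n 2 z (n 0 z (n 0 z (n 0 z (n 0
 z (n 0 z (n 0 z (n 0 z z)))))))))))))) z))))))) (n 0 (n 0 z (n 0 z (n 0 z (n 1 (n 0 z (n 0 z (n
 0 z (n 0 z (n 0 z (n 0 z (n 0 z (n 2 (n 0 z (n 0 z z)) (n 0 z (n 0 z (n 0 z (n 0 z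
 z)))))))))))) (n 1 (n 0 z (n 0 z (n 0 z (n 0 z (n 0 z (n 0 z (n
 0x22ea6c8640381280d7fe8118018018057fa81a7e28128067ee7ff7ff80581e80b7e880a8168177e87dd7e37e27fe8008167f87ff8357ea8027c37ea84580e7ed7ee7dc8168018537dd7ed7be80783c7e30811
 z (n 0 z (n 0 z (n
 0x547608027fc7be82a7f58467f28317b88097f08127fe7fd8048367fd7fc8147ef7c58018058117f284d77d80184884f7c08028cb87978677e7ac7fb8c17777fa75678c87586883a7e27bb8528050051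
 z (n 0 z (n 0 z z)))))))))))) (n 1 (n 0 z (n 0 z (n 0 z (n 0 z (n 0 z (n 0 z (n 0 z (n 0 z (n 0
 z (n 0 z (n 0 z (n
 0x2ea6c8640389f7df89f7a38218627e07e07e081f85f7df7e08207e082185f8608218207e18217e08208610801 z
 z)))))))))))) z)))))) (n 0 (n 0 z (n 0 z (n 1 (n 0 z (n 0 z (n 0 z (n 0 z (n 0 z (n 0 z (n 0 z
 (n 0 z (n 2 (n 0 z (n 0 z z)) (n 0 z (n 0 z (n 0 z (n 0 z (n 0 z (n 0 z (n 0 z (n 0 z (n 0 z (n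
 0 z (n 0 z (n 0 z (n 0 z (n 0 z (n 0 z (n 0 z (n 0 z (n 0 z (n 0 z (n 0 z
 z))))))))))))))))))))))))))))) (n 1 (n 0 z (n 0 z (n 0 z (n 0 z (n 0 z (n 0 z (n 0 z (n 0 z (n
 0 z (n 0 z (n 0 z (n 0 z (n 0 z (n 0 z (n 0 z (n 0 z (n 0 z (n
 0x1247608257c179b88780185b80084f8187bf7f58507dc83f7c188882782380d7f678f7d27a380c7bd82173a80389d8927a78e692b93e71e6d37d077e93274774f6d36cb8dd8cb8327fa75585b83a0051
 z (n 0 z (n 0 z (n 0 z (n 0 z (n 0 z (n 0 z (n 0 z (n 0 z (n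
 0x1476085d8217617a27a181f8618617e08208607e27e08607a38208208208208208208207e08208200041 z (n 0 z
 (n 0 z z))))))))))))))))))))))))))))) (n 1 (n 0 z (n 0 z (n 0 z (n 0 z (n 0 z (n 0 z (n 0 z (n
 0 z (n 0 z (n 0 z (n 0 z (n 0 z (n 0 z (n 0 z (n 0 z (n 0 z (n 0 z (n 0 z (n 0 z (n 0 z (n 0 z
 (n 0 z (n 0 z (n 0 z (n 0 z (n 0 z (n 0 z (n 0 z (n 0 z z))))))))))))))))))))))))))))) z)))))
 (n 0 (n 0 z (n 25 (n 0 z (n 0 z (n 0 z (n 0 z (n 0 z (n 0 z (n 0 z (n 0 z (n 0 z (n 0 z (n 0 z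
 (n 0 z (n 0 z (n 0 z (n 0 z (n 0 z (n 0 z (n 0 z (n 0 z (n 2 (n 0 z (n 0 z z)) (n 0 z (n 0 z (n
 0 z (n 0 z (n 0 z (n 0 z (n 0 z (n 0 z (n 0 z (n 0 z (n 0 z (n 0 z (n 0 z (n 0 z (n 0 z (n 0 z
 (n 0 z (n 0 z (n 0 z (n 0 z (n 0 z (n 0 z (n 0 z (n 0 z (n 0 z (n 0 z (n 0 z (n 0 z (n 0 z
 z))))))))))))))))))))))))))))))))))))))))))))))))) (n 25 (n 0 z (n 0 z (n 0 z (n 0 z (n 0 z (n
 0 z (n 0 z (n 0 z (n 0 z (n 0 z (n 0 z (n 0 z (n 0 z (n 0 z (n 0 z (n 0 z (n 0 z (n 0 z (n 0 z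
 (n 0 z (n 0 z (n 0 z (n 0 z (n 0 z (n 0 z (n 0 z (n 0 z (n 0 z (n 0 z (n 0 z (n 0 z (n 0 z (n 0
 z (n 0 z (n 0 z (n 0 z (n 0 z (n 0 z (n 0 z (n 0 z (n 0 z (n 0 z (n 0 z (n 0 z (n 0 z (n 0 z (n
 0 z (n 0 z (n 0 z z))))))))))))))))))))))))))))))))))))))))))))))))) (n 25 (n 0 z (n 0 z (n 0 z
 (n 0 z (n 0 z (n 0 z (n 0 z (n 0 z (n 0 z (n 0 z (n 0 z (n 0 z (n 0 z (n 0 z (n 0 z (n 0 z (n 0
 z (n 0 z (n 0 z (n 0 z (n 0 z (n 0 z (n 0 z (n 0 z (n 0 z (n 0 z (n 0 z (n 0 z (n 0 z (n 0 z (n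
 0 z (n 0 z (n 0 z (n 0 z (n 0 z (n 0 z (n 0 z (n 0 z (n 0 z (n 0 z (n 0 z (n 0 z (n 0 z (n 0 z
 (n 0 z (n 0 z (n 0 z (n 0 z (n 0 z z))))))))))))))))))))))))))))))))))))))))))))))))) z)))) (n
 0 (n 1 (n 0 z (n 0 z (n 0 z (n 0 z (n 0 z (n 0 z (n 0 z (n 0 z (n 0 z (n 0 z (n 0 z (n 0 z (n 0
 z (n 0 z z)))))))))))))) (n 1 (n 0 z (n 0 z (n 0 z (n 0 z (n 0 z (n 0 z (n 0 z (n 0 z (n 2 (n 0
 z z) (n 0 z (n 0 z (n 0 z (n 0 z (n 0 z z)))))))))))))) (n 1 (n 0 z (n 0 z (n 0 z (n 0 z (n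
 7754803 z (n 0 z (n 0 z (n 0 z (n 0 z (n 0 z (n 0 z (n 0 z (n 0 z (n 0 z z)))))))))))))) z)))
 (n 0 (n 0 z (n 0 z z)) (n 0 (n 0 z z) (n 0 z z)))))))))))))) (n 0 (n 1 (n 3278363 z (n 3278363
 z (n 3278363 z (n 3278363 z (n 3278363 z (n 3278363 z z)))))) (n 1 (n 1276 z (n 2 z (n 1276 z
 (n 1276 z (n 1276 z (n 1276 z z)))))) z)) (n 0 (n 0x82b2cd90164ca83ae468485c68c05a (n 0 (n 0 (n
 7750163 z (n 7750163 z (n 7750163 z (n 7750163 z (n 7750163 z (n 7750163 z z)))))) z) (n 0 (n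
 83 (n 1 (n 7745619 z (n 7750163 z (n 7745619 z (n 7745619 z (n 7745619 z (n 7745619 z z))))))
 (n 1 (n 7610723 z (n 7750163 z (n 7610723 z (n 7610723 z (n 7610723 z (n 7610723 z z)))))) (n 1
 (n 1276 z (n 7750163 z (n 7611931 z (n 7733787 z (n 1276 z (n 1276 z z)))))) (n 0 z (n 0 z
 z))))) (n 33 (n 1 (n 3278619 z (n 7610723 z (n 3278619 z (n 3278619 z (n 3278619 z (n 3278619 z
 z)))))) (n 1 (n 7754803 z (n 7754803 z (n 7754803 z (n 7754803 z (n 7754803 z (n 7754803 z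
 z)))))) z)) (n 123 (n 1 (n 4124 z (n 6493963 z (n 4124 z (n 2 z (n 7754803 z (n 4124 z z))))))
 (n 1 (n 7611931 z (n 7611931 z (n 7611931 z (n 7611931 z (n 7754803 z (n 7611931 z z)))))) (n 1
 (n 7611931 z (n 7611931 z (n 7611931 z (n 7611931 z (n 7754803 z (n 7611931 z z)))))) (n 1 (n
 7745619 z (n 7745619 z (n 7745619 z (n 7745619 z (n 7754803 z (n 7745619 z z)))))) (n 1 (n
 7745619 z (n 7745619 z (n 7745619 z (n 7745619 z (n 7754803 z (n 7745619 z z)))))) (n 1 (n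
 7745619 z (n 7745619 z (n 7745619 z (n 7745619 z (n 7754803 z (n 7745619 z z)))))) (n 1 (n
 6492275 z (n 7611931 z (n 7611931 z (n 7611931 z (n 7754803 z (n 7611931 z z)))))) (n 0 z (n 1
 (n 7750163 z (n 7750163 z (n 7750163 z (n 7750163 z (n 7750163 z (n 7750163 z z)))))) (n 0 z (n
 1 (n 4124 z (n 4124 z (n
 0xecaeca6037e27df89f85e8607e085f82082082182086082082082082081f8208208207e08208208208200801 z (n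
 5441323 z (n 7754803 z (n 4124 z z)))))) z))))))))))) (n 249 (n 1 (n 1468 z (n 7750163 z (n
 1468 z (n 1468 z (n 7733787 z (n 1468 z z)))))) (n 1 (n 7610723 z (n 7750163 z (n 7610723 z (n
 7610723 z (n 7610723 z (n 7610723 z z)))))) (n 0 z (n 1 (n 7745619 z (n 7750163 z (n 7745619 z
 (n 7745619 z (n 7745619 z (n 7745619 z z)))))) z)))) (n 3 (n 1 (n 1276 z (n 6493963 z (n 1276 z
 (n 10 z (n 7754803 z (n 1276 z z)))))) (n 1 (n 1276 z (n 1276 z (n 18 z (n 1276 z (n 7754803 z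
 (n 1276 z z)))))) (n 1 (n 7750163 z (n 7750163 z (n 7750163 z (n 7750163 z (n 7750163 z (n
 7750163 z z)))))) (n 1 (n 1276 z (n
 0x6ecaca46078a481c81f8668648e279f81e89f7e081f81c7e385f7a08228208a07df81f7a27e27e37e08a20801 z
 (n 1276 z (n 1276 z (n 7754803 z (n 1276 z z)))))) (n 0 z (n 1 (n 26 z (n 1276 z (n 5441307 z
 (n 1276 z (n 7754803 z (n 1276 z z)))))) (n 1 (n 7745619 z (n 7745619 z (n 7745619 z (n 7745619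
 z (n 7754803 z (n 7745619 z z)))))) z))))))) (n 227 (n 1 (n 3282699 z (n 3282699 z (n 3282699 z
 (n 3282699 z (n 3282699 z (n 3282699 z z)))))) (n 1 (n 34 z (n 4261691 z (n 2092 z (n 2092 z (n
 2092 z (n 2092 z z)))))) (n 1 (n 2092 z (n 2092 z (n 2092 z (n 2092 z (n 2092 z (n 2092 z
 z)))))) (n 1 (n 7754803 z (n 7754803 z (n 7754803 z (n 7754803 z (n 7754803 z (n 7754803 z
 z)))))) (n 1 (n 7754803 z (n 7754803 z (n 7754803 z (n 7754803 z (n 7754803 z (n 7754803 z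
 z)))))) (n 1 (n 2092 z (n 2092 z (n 2092 z (n 2092 z (n 2092 z (n 2092 z z)))))) (n 1 (n 2092 z
 (n 2092 z (n 2092 z (n 2092 z (n 2092 z (n 2092 z z)))))) (n 0 z z)))))))) (n 33 (n 1 (n
 3278619 z (n 7750163 z (n 3278619 z (n 3278619 z (n 3278619 z (n 3278619 z z)))))) (n 1 (n
 7754803 z (n 7750163 z (n 7754803 z (n 7754803 z (n 7754803 z (n 7754803 z z)))))) z)) z)))))))
 (n 0 (n 0 (n 0 z (n 0 z (n 0 z (n 0 z (n 0 z z))))) (n 0 (n 0 z (n 0 z (n 0 z (n 0 z z)))) (n 0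
 (n 0 z (n 0 z (n 0 z z))) (n 0 (n 0 z (n 0 z z)) (n 0 (n 0 z z) z))))) (n 0 (n 203 (n 0 (n 0 z
 (n 0 z (n 0 z (n 0 z (n 0 z z))))) (n 0 (n 0 z (n 0 z (n 0 z (n 0 z (n 0 z z))))) (n 0 (n 0 z
 (n 0 z (n 0 z (n 0 z (n 0 z z))))) (n 0 (n 0 z (n 0 z (n 0 z (n 0 z (n 0 z z))))) (n 0 (n 0 z
 (n 0 (n
 0x548428027fc7be82a7f58467f28317b88097f08127fe7fd8048367fd7fc8147ef7c58018058117f284d77d80184884f7c08028cb87978677e7ac7fb8c17777fa75678c87586883a7e27bb8528050051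
 z (n
 0x548428027fc7be82a7f58467f28317b88097f08127fe7fd8048367fd7fc8147ef7c58018058117f284d77d80184884f7c08028cb87978677e7ac7fb8c17777fa75678c87586883a7e27bb8528050051
 z z)) (n 0 (n
 0x1487385d8217617a27a181f8618617e08208607e27e08607a38208208208208208208207e08208200041 z (n
 8787771 z z)) (n 0 (n
 0x1487385f8207a17e182081f8208617e082182082082186082081f81f81f8608208208208208208200041 z (n
 0x548428027fc7be82a7f58467f28317b88097f08127fe7fd8048367fd7fc8147ef7c58018058117f284d77d80184884f7c08028cb87978677e7ac7fb8c17777fa75678c87586883a7e27bb8528050051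
 z z)) (n 0 z z))))) z))))) (n 515 (n 0 (n 0 z (n 0 z (n 0 z (n 0 z (n 0 z z))))) (n 0 (n 0 (n
 0x548718027fc7be82a7f58467f28317b88097f08127fe7fd8048367fd7fc8147ef7c58018058117f284d77d80184884f7c08028cb87978677e7ac7fb8c17777fa75678c87586883a7e27bb8528050051
 z z) (n 0 z (n 0 z (n 0 (n
 0x1487385f8207e07a082081f82086182082082082082082082082086081f86082081f8208218208200041 z z) (n
 0 z z))))) (n 0 (n 0 z (n 0 z (n 0 z (n 0 z (n 0 z z))))) (n 0 (n 0 z (n 0 z (n 0 z (n 0 z (n 0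
 z z))))) (n 0 (n 0 z (n 0 z (n 0 z (n 0 z (n 0 z z))))) (n 0 (n 0 z (n 0 z (n 0 z (n 0 z (n 0 z
 z))))) (n 0 (n 0 z (n 0 z (n 0 z (n 0 z (n 0 z z))))) (n 0 (n 0 z (n 0 z (n 0 z (n 0 z (n 0 z
 z))))) (n 0 (n 0 z (n 0 z (n 0 z (n 0 z (n 0 (n 8798739 z z) z))))) (n 0 (n 0 z (n 0 z (n 0 z
 (n 0 z (n 0 z z))))) (n 0 (n 0 z (n 0 z (n 0 z (n 0 (n 8660507 z z) (n 0 z z))))) (n 0 (n 0 z
 (n 0 (n 8659299 z z) (n 0 z (n 0 z (n 0 z z))))) (n 0 (n 0 z (n 0 (n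
 0x548718027fc7be82a7f58467f28317b88097f08127fe7fd8048367fd7fc8147ef7c58018058117f284d77d80184884f7c08028cb87978677e7ac7fb8c17777fa75678c87586883a7e27bb8528050051
 z z) (n 0 z (n 0 z (n 0 z z))))) z))))))))))))) (n 317 (n 0 (n 0 z (n 0 z (n 0 z (n 0 z (n 0 z
 z))))) (n 0 (n 0 z (n 0 z (n 0 z (n 0 z (n 0 z z))))) (n 0 (n 0 z (n 0 z (n 0 z (n 0 z (n 0 z
 z))))) (n 0 (n 0 z (n 0 z (n 0 z (n 0 z (n 0 z z))))) (n 0 (n 0 z (n 0 z (n 0 z (n 0 z (n 0 z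
 z))))) (n 0 (n 0 z (n 0 z (n 0 z (n 0 z (n 0 z z))))) (n 0 (n 0 z (n 0 z (n 0 z (n 0 z (n 0 z
 z))))) (n 0 (n 0 z (n 0 z (n 0 z (n 0 z (n 0 z z))))) (n 0 (n 0 z (n 0 z (n 0 z (n 0 z (n 0 z
 z))))) (n 0 (n 0 z (n 0 z (n 0 z (n 0 (n 8855811 z z) (n 0 z z))))) (n 0 (n 0 z (n 0 (n
 0xc8758208207a07e086181e85f8e17df8217e08608208207e186082081f8607e08218207e08208600041 z z) (n 0
 z (n 0 z (n 0 z z))))) (n 0 (n 0 z (n 0 z (n 0 z (n 0 z (n 0 z z))))) (n 0 (n 0 z (n 0 (n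
 0xc8758208207a07e086181e85f8e17df8217e08608208207e186082081f8607e08218207e08208600041 z (n
 8787723 z z)) (n 0 z (n 0 z (n 0 z z))))) z))))))))))))) (n 183 (n 0 (n 0 z (n 0 z (n 0 z (n 0
 z (n 0 z z))))) (n 0 (n 0 z (n 0 z (n 0 z (n 0 z (n 0 z z))))) (n 0 (n 0 z (n 0 z (n 0 z (n 0 z
 (n 0 z z))))) (n 0 (n 0 z (n 0 z (n 0 z (n 0 z (n 0 z z))))) (n 0 (n 0 z (n 0 z (n 0 z (n 0 z
 (n 0 z z))))) (n 0 (n 0 z (n 0 z (n 0 z (n 0 z (n 0 z z))))) (n 0 (n 0 z (n 0 z (n 0 z (n 0 z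
 (n 0 z z))))) z))))))) (n 249 (n 0 (n 0 z (n 0 z (n 0 z (n 0 z (n 0 z z))))) (n 0 (n 0 z (n 0 z
 (n 0 z (n 0 z (n 0 z z))))) (n 0 (n 0 z (n 0 z (n 0 z (n 0 z (n 0 z z))))) (n 0 (n 0 z (n 0 z
 (n 0 z (n 0 z (n 0 z z))))) z)))) (n 129 (n 0 (n 0 z (n 0 z (n 0 z (n 0 z (n 0 z z))))) (n 0 (n
 0 z (n 0 z (n 0 z (n 0 z (n 0 z z))))) (n 0 (n 0 z (n 0 z (n 0 z (n 0 z (n 0 (n 8660507 z z)
 z))))) (n 0 (n 0 z (n 0 z (n 0 z (n 0 z (n 0 z z))))) (n 0 (n 0 z (n 0 z (n 0 z (n 0 z (n 0 z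
 z))))) (n 0 (n 0 z (n 0 z (n 0 z (n 0 z (n 0 z z))))) (n 0 (n 0 z (n 0 z (n 0 z (n 0 z (n 0 z
 z))))) (n 0 (n 0 z (n 0 z (n 0 z (n 0 z (n 0 z z))))) (n 0 (n 0 z (n 0 z (n 0 z (n 0 (n 8855811
 z z) (n 0 z z))))) (n 0 (n 0 (n 8872987 z z) (n 0 z (n 0 z (n 0 z (n 0 z z))))) (n 0 (n 0 z (n
 0 z (n 0 z (n 0 z (n 0 z z))))) z))))))))))) (n 159 (n 0 (n 0 z (n 0 z (n 0 z (n 0 z (n 0 z
 z))))) (n 0 (n 0 z (n 0 z (n 0 z (n 0 z (n 0 z z))))) (n 0 (n 0 z (n 0 z (n 0 z (n 0 z (n 0 z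
 z))))) (n 0 (n 0 z (n 0 z (n 0 z (n 0 z (n 0 z z))))) (n 0 (n 0 z (n 0 z (n 0 z (n 0 z (n 0 z
 z))))) (n 0 (n 0 z (n 0 z (n 0 z (n 0 z (n 0 z z))))) (n 0 (n 0 z (n 0 z (n 0 z (n 0 z (n 0 z
 z))))) (n 0 (n 0 z (n 0 z (n 0 z (n 0 z (n 0 z z))))) (n 0 (n 0 z (n 0 z (n 0 z (n 0 z (n 0 z
 z))))) (n 0 (n 0 z (n 0 z (n 0 z (n 0 z (n 0 z z))))) (n 0 (n 0 (n
 0x30caca46078a07df89f8208208217e07a182082082082082182082082081f8208208208208208208208210801 z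
 (n 0x10caeca6078a181f85f8218218217df7e186082082082082182082082081f8208208207e08208217e08200801
 z z)) (n 0 z (n 0 z (n 0 (n 8589427 z (n
 0x2487386081f8208218a08617df81f7a07e17e079f7e18207e182085f85f86182081f82082081f8210041 z z)) (n
 0 (n 8656699 z (n 8587035 z z)) z))))) (n 0 (n 0 z (n 0 z (n 0 z (n 0 z (n 0 z z))))) (n 0 (n 0
 z (n 0 z (n 0 z (n 0 z (n 0 z z))))) (n 0 (n 0 z (n 0 z (n 0 z (n 0 z (n 0 z z))))) (n 0 (n 0 z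
 (n 0 z (n 0 z (n 0 z (n 0 z z))))) (n 0 (n 0 z (n 0 z (n 0 z (n 0 z (n 0 z z))))) (n 0 (n 0 z
 (n 0 z (n 0 z (n 0 z (n 0 z z))))) (n 0 (n 0 z (n 0 z (n 0 z (n 0 z (n 0 (n 8798739 z z) z)))))
 (n 0 (n 0 z (n 0 z (n 0 (n 8803379 z z) (n 0 z (n 0 z z))))) (n 0 (n 0 z (n 0 (n
 0xc8758208207a07e086181e85f8e17df8617e08608208207e186082081f82081f8208208208208600041 z (n
 0x10cb0a26078217df89f81f8a07e18207e08208217e08208208208208208208208208208208208208208200801 z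
 z)) (n 0 z (n 0 z (n 0 z z))))) z)))))))))))))))))))) (n 255 (n 0 (n 0 z (n 0 z (n 0 z (n 0 z
 (n 0 z z))))) (n 0 (n 0 z (n 0 z (n 0 z (n 0 z (n 0 z z))))) (n 0 (n 0 z (n 0 z (n 0 z (n 0 z
 (n 0 z z))))) (n 0 (n 0 z (n 0 z (n 0 z (n 0 z (n 0 z z))))) (n 0 (n 0 z (n 0 z (n 0 z (n 0 z
 (n 0 z z))))) (n 0 (n 0 z (n 0 z (n 0 z (n 0 z (n 0 z z))))) (n 0 (n 0 (n
 0x548208027fc7be82a7f58467f28317b88097f08127fe7fd8048367fd7fc8147ef7c58018058117f284d77d80184884f7c08028cb87978677e7ac7fb8c17777fa75678c87586883a7e27bb8528050051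
 z (n
 0x548208027fc7be82a7f58467f28317b88097f08127fe7fd8048367fd7fc8147ef7c58018058117f284d77d80184884f7c08028cb87978677e7ac7fb8c17777fa75678c87586883a7e27bb8528050051
 z z)) (n 0 z (n 0 z (n 0 (n 8589427 z (n
 0x2487386081f8208218a08617df81f7a07e17e079f7e18207e182085f85f86182081f82082081f8210041 z z)) (n
 0 (n 8656699 z (n
 0x548208027fc7be82a7f58467f28317b88097f08127fe7fd8048367fd7fc8147ef7c58018058117f284d77d80184884f7c08028cb87978677e7ac7fb8c17777fa75678c87586883a7e27bb8528050051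
 z z)) z))))) (n 0 (n 0 z (n 0 z (n 0 z (n 0 z (n 0 z z))))) z)))))))) (n 135 (n 0 (n 0 z (n 0 z
 (n 0 z (n 0 z (n 0 z z))))) (n 0 (n 0 z (n 0 z (n 0 z (n 0 z (n 0 z z))))) (n 0 (n 0 (n 8660507
 z z) (n 0 z (n 0 z (n 0 (n 8660507 z z) (n 0 z z))))) (n 0 (n 0 z (n 0 z (n 0 z (n 0 z (n 0 z
 z))))) (n 0 (n 0 z (n 0 z (n 0 z (n 0 z (n 0 z z))))) (n 0 (n 0 z (n 0 z (n 0 z (n 0 z (n 0 z
 z))))) (n 0 (n 0 z (n 0 z (n 0 z (n 0 z (n 0 (n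
 0x848737fe7f877b8617f088d8178777f67a47e981f82180783189781d7fb8487ed7847ae7a88207f08806f77f28718aa77284593e91872574a77b79393d75b7e56d66fc8b88a98687f875b8648340051
 z z) z))))) (n 0 (n 0 z (n 0 z (n 0 z (n 0 z (n 0 z z))))) (n 0 (n 0 z (n 0 z (n 0 z (n 0 (n
 8868619 z z) (n 0 (n
 0xc87085f8207e07e082081f82086182082182082081f82082082081f81f8608208208218208208200041 z z)
 z))))) (n 0 (n 0 z (n 0 z (n 0 z (n 0 z (n 0 z z))))) (n 0 (n 0 z (n 0 z (n 0 z (n 0 (n 8855811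
 z z) (n 0 z z))))) (n 0 (n 0 z (n 0 z (n 0 z (n 0 (n 8855811 z z) (n 0 z z))))) (n 0 (n 0 z (n
 0 z (n 0 z (n 0 z (n 0 z z))))) (n 0 (n 0 (n 8803379 z z) (n 0 z (n 0 z (n 0 (n 8803379 z z) (n
 0 z z))))) z)))))))))))))) (n 3 (n 0 (n 0 z (n 0 z (n 0 z (n 0 z (n 0 z z))))) (n 0 (n 0 z (n 0
 z (n 0 z (n 0 z (n 0 z z))))) (n 0 (n 0 z (n 0 z (n 0 z (n 0 z (n 0 z z))))) (n 0 (n 0 z (n 0 z
 (n 0 z (n 0 z (n 0 z z))))) (n 0 (n 0 z (n 0 z (n 0 z (n 0 z (n 0 z z))))) (n 0 (n 0 z (n 0 z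
 (n 0 z (n 0 z (n 0 z z))))) (n 0 (n 0 z (n 0 z (n 0 z (n 0 z (n 0 z z))))) z))))))) (n 227 (n 0
 (n 0 z (n 0 z (n 0 z (n 0 z (n 0 z z))))) (n 0 (n 0 z (n 0 z (n 0 z (n 0 z (n 0 z z))))) (n 0
 (n 0 z (n 0 z (n 0 z (n 0 z (n 0 z z))))) (n 0 (n 0 z (n 0 z (n 0 z (n 0 z (n 0 z z))))) (n 0
 (n 0 z (n 0 z (n 0 z (n 0 z (n 0 z z))))) (n 0 (n 0 z (n 0 z (n 0 z (n 0 z (n 0 z z))))) (n 0
 (n 0 z (n 0 z (n 0 z (n 0 z (n 0 z z))))) (n 0 (n 0 z (n 0 z (n 0 z (n 0 z (n 0 z z)))))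
 z)))))))) (n 261 (n 0 (n 0 z (n 0 z (n 0 (n 8787771 z z) (n 0 z (n 0 z z))))) (n 0 (n 0 z (n 0
 z (n 0 z (n 0 z (n 0 z z))))) (n 0 (n 0 z (n 0 z (n 0 z (n 0 z (n 0 z z))))) (n 0 (n 0 (n
 8803379 z z) (n 0 z (n 0 z (n 0 z (n 0 z z))))) (n 0 (n 0 z (n 0 z (n 0 z (n 0 z (n 0 z z)))))
 (n 0 (n 0 z (n 0 z (n 0 z (n 0 z (n 0 z z))))) (n 0 (n 0 (n 8659299 z z) (n 0 z (n 0 z (n 0 (n
 8659299 z z) (n 0 z z))))) (n 0 (n 0 (n 8787723 z (n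
 0x548208027fc7be82a7f58467f28317b88097f08127fe7fd8048367fd7fc8147ef7c58018058117f284d77d80184884f7c08028cb87978677e7ac7fb8c17777fa75678c87586883a7e27bb8528050051
 z z)) (n 0 (n
 0x1487685d8217617a27a181f8618617e08208607e27e08607a38208208208208208208207e08208200041 z (n
 0x548208027fc7be82a7f58467f28317b88097f08127fe7fd8048367fd7fc8147ef7c58018058117f284d77d80184884f7c08028cb87978677e7ac7fb8c17777fa75678c87586883a7e27bb8528050051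
 z z)) (n 0 z (n 0 (n
 0x6c8727ff7f979584d7f38718138607f87b67ed81981b8068278798177fc83a7f179e7be7b98197f386672c7f585a88878e8378fe8df75176f7977a88fe77d7ea7117318938878537fa77c85082a0051
 z (n
 0x548208027fc7be82a7f58467f28317b88097f08127fe7fd8048367fd7fc8147ef7c58018058117f284d77d80184884f7c08028cb87978677e7ac7fb8c17777fa75678c87586883a7e27bb8528050051
 z z)) (n 0 (n 8656699 z (n
 0x548208027fc7be82a7f58467f28317b88097f08127fe7fd8048367fd7fc8147ef7c58018058117f284d77d80184884f7c08028cb87978677e7ac7fb8c17777fa75678c87586883a7e27bb8528050051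
 z z)) z))))) (n 0 (n 0 z (n 0 z (n 0 z (n 0 z (n 0 z z))))) (n 0 (n 0 z (n 0 z (n 0 z (n 0 z (n
 0 z z))))) (n 0 (n 0 z (n 0 z (n 0 z (n 0 z (n 0 z z))))) (n 0 (n 0 z (n 0 z (n 0 z (n 0 z (n 0
 z z))))) (n 0 (n 0 z (n 0 z (n 0 z (n 0 z (n 0 (n
 0x1487081f8207a17e186081f8608607e08218208207e182082182082081f8608208208207e08208600041 z z)
 z))))) (n 0 (n 0 z (n 0 z (n 0 z (n 0 (n
 0xc87081f8207e07e082081f8608607e082082082182082082082081f81f8208608208208218208200041 z z) (n 0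
 z z))))) z)))))))))))))) (n 143 (n 0 (n 0 (n
 0x548718027fc7be82a7f58467f28317b88097f08127fe7fd8048367fd7fc8147ef7c58018058117f284d77d80184884f7c08028cb87978677e7ac7fb8c17777fa75678c87586883a7e27bb8528050051
 z z) (n 0 z (n 0 z (n 0 (n
 0x1487386081f7e082086181f82086181f8208208207e182082082082081f8618208208208208208200041 z z) (n
 0 z z))))) (n 0 (n 0 z (n 0 z (n 0 z (n 0 (n 8868619 z z) (n 0 (n
 0xc87081f8207e07e082081f82086182182082082082082082082082081f8607e07e08218208207e00041 z z)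
 z))))) (n 0 (n 0 z (n 0 z (n 0 z (n 0 z (n 0 z z))))) (n 0 (n 0 z (n 0 z (n 0 z (n 0 z (n 0 z
 z))))) (n 0 (n 0 z (n 0 z (n 0 z (n 0 z (n 0 z z))))) (n 0 (n 0 z (n 0 z (n 0 z (n 0 z (n 0 z
 z))))) (n 0 (n 0 z (n 0 z (n 0 z (n 0 z (n 0 z z))))) (n 0 (n 0 z (n 0 z (n 0 z (n 0 z (n 0 z
 z))))) (n 0 (n 0 z (n 0 z (n 0 z (n 0 z (n 0 z z))))) (n 0 (n 0 (n 8803379 z z) (n 0 z (n 0 z
 (n 0 (n 8803379 z z) (n 0 z z))))) (n 0 (n 0 z (n 0 (n 8660507 z z) (n 0 z (n 0 z (n 0 z z)))))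
 (n 0 (n 0 z (n 0 z (n 0 z (n 0 z (n 0 z z))))) z)))))))))))) (n 5 (n 0 (n 0 z (n 0 z (n 0 z (n
 0 z (n 0 z z))))) (n 0 (n 0 z (n 0 z (n 0 z (n 0 z (n 0 z z))))) (n 0 (n 0 z (n 0 z (n 0 z (n 0
 z (n 0 z z))))) (n 0 (n 0 z (n 0 z (n 0 z (n 0 z (n 0 z z))))) (n 0 (n 0 z (n 0 z (n 0 z (n 0 z
 (n 0 z z))))) (n 0 (n 0 (n
 0xa48217fe7f57598797ec8b081e8957f378d7e382782980983d8bd8247fa85a7e87667997928287ec8a06b57ef88d8d674f85698d95d6ee71d75a77798d7327dd68c6bc8e68d38827f673187d8420051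
 z (n 8787723 z z)) (n 0 (n
 0x1487685d8217617a27a181f8618617e08208607e27e08607a38208208208208208208207e08208200041 z (n
 0x1487185d8217617a27a181f8618617e08208607e27e08607a38208208208208208208207e08208200041 z z)) (n
 0 z (n 0 z (n 0 z z))))) (n 0 (n 0 z (n 0 z (n 0 z (n 0 z (n 0 z z))))) (n 0 (n 0 z (n 0 z (n 0
 z (n 0 z (n 0 z z))))) (n 0 (n 0 z (n 0 z (n 0 z (n 0 z (n 0 z z))))) (n 0 (n 0 z (n 0 z (n 0 z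
 (n 0 z (n 0 z z))))) (n 0 (n 0 z (n 0 z (n 0 z (n 0 z (n 0 z z))))) (n 0 (n 0 z (n 0 z (n 0 z
 (n 0 z (n 0 z z))))) (n 0 (n 0 z (n 0 z (n 0 z (n 0 z (n 0 z z))))) (n 0 (n 0 (n 2164795 z (n
 2164795 z z)) (n 0 (n 8864547 z (n 8864547 z z)) (n 0 z (n 0 z (n 0 z z))))) z)))))))))))))) (n
 1 (n 0 (n 0 z (n 0 (n
 0x1487685d8217617a27a181f8618617e08208607e27e08607a38208208208208208208207e08208200041 z z) (n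
 0 z (n 0 z (n 0 z z))))) (n 0 (n 0 z (n 0 z (n 0 z (n 0 z (n 0 z z))))) (n 0 (n 0 z (n 0 z (n 0
 z (n 0 z (n 0 (n 8659299 z z) z))))) (n 0 (n 0 z (n 0 z (n 0 z (n 0 z (n 0 z z))))) (n 0 (n 0 z
 (n 0 z (n 0 z (n 0 z (n 0 z z))))) (n 0 (n 0 z (n 0 z (n 0 z (n 0 z (n 0 z z))))) (n 0 (n 0 z
 (n 0 z (n 0 z (n 0 z (n 0 z z))))) (n 0 (n 0 z (n 0 z (n 0 z (n 0 z (n 0 z z))))) (n 0 (n 0 z
 (n 0 z (n 0 z (n 0 z (n 0 z z))))) (n 0 (n 0 z (n 0 z (n 0 z (n 0 z (n 0 z z))))) (n 0 (n 0 z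
 (n 0 z (n 0 z (n 0 z (n 0 z z))))) (n 0 (n 0 (n 8803379 z z) (n 0 z (n 0 z (n 0 (n 8803379 z z)
 (n 0 z z))))) (n 0 (n 0 z (n 0 (n
 0x548718027fc7be82a7f58467f28317b88097f08127fe7fd8048367fd7fc8147ef7c58018058117f284d77d80184884f7c08028cb87978677e7ac7fb8c17777fa75678c87586883a7e27bb8528050051
 z z) (n 0 z (n 0 z (n 0 z z))))) (n 0 (n 0 (n
 0x50ed0ec60376475d81f8de8617df8a18617df7e27e082082081f7e082182181f86081f8a18618208218200801 z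
 z) (n 0 z (n 0 z (n 0 z (n 0 (n 8864267 z z) z))))) z)))))))))))))) (n 159 (n 0 (n 0 z (n 0 z
 (n 0 z (n 0 z (n 0 z z))))) (n 0 (n 0 z (n 0 z (n 0 z (n 0 z (n 0 z z))))) (n 0 (n 0 z (n 0 z
 (n 0 z (n 0 z (n 0 z z))))) (n 0 (n 0 z (n 0 z (n 0 z (n 0 z (n 0 z z))))) (n 0 (n 0 z (n 0 z
 (n 0 z (n 0 z (n 0 z z))))) (n 0 (n 0 z (n 0 z (n 0 z (n 0 z (n 0 z z))))) z)))))) (n 33 (n 0
 (n 0 z (n 0 z (n 0 z (n 0 z (n 0 z z))))) (n 0 (n 0 z (n 0 z (n 0 z (n 0 z (n 0 z z))))) z)) (n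
 9 (n 0 (n 0 z (n 0 z (n 0 z (n 0 z (n 0 z z))))) (n 0 (n 0 z (n 0 (n
 0x1487186081f82082085f8208208207e08207e07e07e18207e182082081f8218208208218608208200041 z (n
 0xd0caa8260380780881f7ee8017e07fd80181280a8197f97eb7f67fe7ed8158007f67fb82180d7ff7e97fc7de8408017ee7dd82180e7bd7e87ff81b82a8177bf80e8018198338007df7e47e881c80e7e90811
 z z)) (n 0 (n
 0x1487385d8217617a27a181f8618617e08208607e27e08607a38208208208208208208207e08208200041 z (n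
 8787771 z z)) (n 0 z (n 0 z z))))) (n 0 (n 0 z (n 0 z (n 0 z (n 0 z (n 0 z z))))) (n 0 (n 0 z
 (n 0 (n 0xc8758208207a07e086181e85f8e17df8217e08608208207e186082081f8607e08218207e08208600041 z
 z) (n 0 z (n 0 z (n 0 z z))))) (n 0 (n 0 z (n 0 z (n 0 z (n 0 (n 8803379 z z) (n 0 z z))))) (n
 0 (n 0 z (n 0 z (n 0 z (n 0 z (n 0 z z))))) (n 0 (n 0 z (n 0 z (n 0 z (n 0 z (n 0 z z))))) (n 0
 (n 0 z (n 0 z (n 0 z (n 0 z (n 0 z z))))) (n 0 (n 0 (n 8794195 z z) (n 0 z (n 0 z (n 0 z (n 0 z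
 z))))) (n 0 (n 0 z (n 0 z (n 0 z (n 0 z (n 0 z z))))) (n 0 (n 0 z (n 0 z (n 0 z (n 0 (n 8855811
 z z) (n 0 z z))))) (n 0 (n 0 z (n 0 z (n 0 z (n 0 z (n 0 z z))))) (n 0 (n 0 z (n 0 z (n 0 z (n
 0 z (n 0 z z))))) z))))))))))))) (n 3 (n 0 (n 0 z (n 0 z (n 0 z (n 0 z (n 0 z z))))) (n 0 (n 0
 z (n 0 z (n 0 z (n 0 z (n 0 z z))))) (n 0 (n 0 z (n 0 z (n 0 z (n 0 z (n 0 z z))))) (n 0 (n 0 z
 (n 0 z (n 0 z (n 0 z (n 0 z z))))) z)))) (n 1 (n 0 (n 0 z (n 0 z (n 0 z (n 0 z (n 0 z z))))) (n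
 0 (n 0 z (n 0 z (n 0 z (n 0 z (n 0 z z))))) (n 0 (n 0 z (n 0 z (n 0 z (n 0 z (n 0 z z))))) (n 0
 (n 0 z (n 0 z (n 0 z (n 0 z (n 0 z z))))) (n 0 (n 0 z (n 0 z (n 0 z (n 0 z (n 0 z z))))) (n 0
 (n 0 z (n 0 z (n 0 z (n 0 z (n 0 z z))))) (n 0 (n 0 (n
 0xa48757fe7f57598797ec8b081e8957f378d7e382782980983d8bd8247fa85a7e87667997928287ec8a06b57ef88d8d674f85698d95d6ee71d75a77798d7327dd68c6bc8e68d38827f673187d8420051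
 z (n
 0x448308058017e98138008178088198157e580680c7f980080981a81480280d7fc7ec7f47e57fb7f680b7d27fe81f81e7e882484484a7c37c77f57e38437d57ee7ad7c38338298137f87d282380c0051
 z z)) (n 0 (n
 0xc87585f8207e07e082081f82086182082182082081f85f8208208208208608208208208208208200041 z (n
 0x448308058017e98138008178088198157e580680c7f980080981a81480280d7fc7ec7f47e57fb7f680b7d27fe81f81e7e882484484a7c37c77f57e38437d57ee7ad7c38338298137f87d282380c0051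
 z z)) (n 0 z (n 0 (n
 0x1487086081f82082186086182081f7e07e17e07df7e082082082082085f86182081f8608208608200041 z (n
 8718107 z z)) (n 0 (n
 0x1487285d8217617a27a181f8618617e08208607e27e08607a38208208208208208208207e08208200041 z (n
 0x548728027fc7be82a7f58467f28317b88097f08127fe7fd8048367fd7fc8147ef7c58018058117f284d77d80184884f7c08028cb87978677e7ac7fb8c17777fa75678c87586883a7e27bb8528050051
 z z)) z))))) (n 0 (n 0 (n 8782363 z (n 8782363 z z)) (n 0 z (n 0 z (n 0 z (n 0 z z))))) (n 0 (n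
 0 (n 8782363 z (n 8782363 z z)) (n 0 z (n 0 z (n 0 z (n 0 (n 8864267 z (n 8864267 z z)) z)))))
 z))))))))) (n 0 (n 0 (n 0 z (n 0 z (n 0 z (n 0 z (n 0 z z))))) (n 0 (n 0 z (n 0 z (n 0 z (n 0 z
 (n 0 z z))))) (n 0 (n 0 z (n 0 z (n 0 z (n 0 z (n 0 z z))))) (n 0 (n 0 z (n 0 z (n 0 z (n 0 z
 (n 0 z z))))) (n 0 (n 0 z (n 0 z (n 0 z (n 0 z (n 0 z z))))) (n 0 (n 0 z (n 0 z (n 0 z (n 0 z
 (n 0 z z))))) (n 0 (n 0 z (n 0 z (n 0 z (n 0 z (n 0 z z))))) (n 0 (n 0 z (n 0 z (n 0 z (n 0 z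
 (n 0 z z))))) (n 0 (n 0 (n
 0x448208027fd7cb8227f88387f58277c78077f380f7fe7fd80482b7fe7fd8107f37d180180380d7f583d79780183a8417cc8018a386079e7987bd7fc89a7927fb7787a385e85382f7e77c88428030051
 z z) (n 0 z (n 0 z (n 0 (n
 0x1487385f8207a17e182081f8208617e082182082082186082081f81f81f8608208208208208208200041 z z) (n
 0 z z))))) (n 0 (n 0 z (n 0 z (n 0 z (n 0 z (n 0 z z))))) (n 0 (n 0 z (n 0 z (n 0 z (n 0 z (n 0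
 z z))))) (n 0 (n 0 (n 8782363 z z) (n 0 z (n 0 z (n 0 z (n 0 (n 8782363 z z) z))))) (n 0 (n 0
 (n 8782363 z z) (n 0 z (n 0 z (n 0 z (n 0 (n 8782363 z z) z))))) (n 0 (n 0 z (n 0 z (n 0 z (n 0
 z (n 0 z z))))) z)))))))))))))) z))))))))))))))))))))) z)))) z) z)))) (n
 0x24c9b86754c1a4e209930830a9a8753cc6d5b22b4d20c969204a49304bc7302e2c8092640 (n 0x124c9 (n 405
 (n 0 z (n 2 z (n 0 z (n 3282443 z (n 10 z (n 0 z (n 18 z z))))))) (n 33 (n 26 z (n 3278363 z (n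
 0 z z))) (n 173 (n 34 z (n 0 z (n 0 z (n 3212843 z z)))) (n 3 (n 42 z (n 2164283 z (n 50 z (n 0
 z (n 0 z (n 58 z (n 66 z z))))))) (n 1 (n 74 z (n 82 z (n 2164299 z (n 0 z (n 0 z (n 90 z (n 0
 z (n 98 z z)))))))) (n 0 (n 106 z (n 2164315 z z)) z)))))) (n 0 (n 0 (n 0 z (n 0 z (n 227 (n 0
 z (n 0 z (n 0 z (n 0 z (n 0 z (n 0 z z)))))) (n 263 (n 0 z (n 0 z (n 0 z (n 0 z (n 0 z (n 0 z
 (n 0 z (n 0 z (n 0 z z))))))))) (n 45 (n 0 z (n 0 z (n 0 z (n 0 z (n 0 z (n 0 z (n 0 z (n 0 z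
 (n 0 z (n 0 z z)))))))))) (n 45 (n 0 z (n 0 z (n 0 z (n 2 (n 0 z (n 0 z (n 1 z (n 1 z (n 1 z (n
 2 (n 0 z (n 0 z (n 0 z (n 0 z (n 0 z (n 0 z z)))))) (n 1 z z))))))) (n 0 z (n 0 z (n 0 z (n 0 z
 (n 0 z (n 0 z z)))))))))) (n 45 (n 0 z (n 0 z (n 0 z (n 0 z (n 0 z (n 0 z (n 0 z (n 0 z (n 2 (n
 0 z (n 2 (n 0 (n 8794131 z z) (n 0 (n 8794131 z z) (n 0 z (n 0 (n 8794131 z (n 8794131 z z)) (n
 0 z (n 0 z z)))))) (n 2 (n 0 z (n 0 z (n 0 z (n 0 z (n 0 z (n 0 z z)))))) (n 2 (n 0 z (n 0 z (n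
 0 z (n 0 z (n 0 z (n 0 z z)))))) (n 2 (n 0 z (n 0 z (n 0 z (n 0 z (n 0 z (n 0 z z)))))) (n 2 (n
 0 z (n 0 z (n 0 z (n 0 z (n 0 z (n 0 z z)))))) z)))))) (n 0 z z)))))))))) (n 45 (n 0 z (n 2 (n
 2 (n 0 z (n 0 z (n 0 z (n 0 (n 8794131 z (n 8794131 z z)) (n 0 z (n 0 (n 8794131 z z) z))))))
 (n 1 z (n 1 z (n 2 (n 0 z (n 0 z (n 0 z (n 0 (n 2164859 z z) (n 0 z (n 0 z z)))))) (n 1 z
 z))))) (n 0 z (n 0 z (n 0 z (n 0 z (n 0 z (n 0 z (n 0 z (n 0 z z)))))))))) (n 255 (n 0 z (n 0 z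
 (n 0 z (n 0 z (n 0 z (n 0 z (n 0 z (n 0 z (n 0 z (n 0 z (n 0 z z))))))))))) (n 255 (n 0 z (n 0
 z (n 0 z (n 0 z (n 0 z (n 0 z (n 0 z (n 0 z (n 0 z (n 0 z (n 0 z z))))))))))) (n 255 (n 0 z (n
 0 z (n 0 z (n 0 z (n 0 z (n 0 z (n 0 z (n 0 z (n 0 z (n 0 z (n 0 z z))))))))))) (n 255 (n 0 z
 (n 0 z (n 0 z (n 0 z (n 0 z (n 0 z (n 0 z (n 0 z (n 0 z (n 2 (n 1 z z) (n 0 z z))))))))))) (n
 253 (n 0 z (n 0 z (n 0 z (n 0 z (n 0 z (n 0 z (n 0 z (n 0 z (n 0 z (n 0 z z))))))))))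
 z))))))))))))) (n 0 (n 0 z (n 763 (n 0 z (n 2 (n 1 z (n 1 z (n 2 (n 0 z (n 0 z (n 0 z (n 0 z (n
 0 z (n 0 z z)))))) (n 2 (n 0 z (n 0 z (n 0 z (n 0 z (n 0 z (n 0 z z)))))) (n 2 (n 0 z (n 0 z (n
 0 z (n 0 z (n 0 z (n 0 z z)))))) (n 1 z (n 1 z (n 2 (n 0 z (n 0 z (n 0 z (n 0 (n 1020 z z) (n 0
 z (n 0 z z)))))) (n 2 (n 0 z (n 0 z (n 0 z (n 0 z (n 0 z (n 0 z z)))))) (n 1 z z)))))))))) (n 0
 z (n 0 z (n 0 z (n 0 z z)))))) (n 779 (n 7745555 z (n 0 z (n 0 z (n 0 z (n 0 z z))))) (n 251 (n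
 0 z (n 7745555 z (n 0 z (n 0 z (n 0 z (n 0 z (n 0 z (n 0 z z)))))))) (n 251 (n 0 z (n 0 z (n 0
 z (n 0 z (n 0 z (n 0 z (n 0 z (n 0 z z)))))))) (n 251 (n 0 z (n 0 z (n 0 z (n 0 z (n 0 z (n 0 z
 (n 0 z (n 0 z z)))))))) (n 251 (n 0 z (n 0 z (n 0 z (n 0 z (n 0 z (n 0 z (n 0 z (n 0 z
 z)))))))) (n 255 (n 0 z (n 0 z (n 0 z (n 0 z (n 0 z (n 0 z (n 0 z (n 0 z (n 0 z (n 0 z (n 0 z
 (n 0 z (n 0 z (n 0 z (n 0 z (n 0 z (n 0 z (n 0 z (n 0 z z))))))))))))))))))) (n 255 (n 0 z (n 0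
 z (n 7745555 z (n 0 z (n 0 z (n 0 z (n 0 z (n 0 z (n 0 z (n 0 z (n 0 z (n 0 z (n 0 z (n 0 z (n
 0 z (n 0 z (n 0 z (n 0 z (n 0 z z))))))))))))))))))) (n 255 (n 0 z (n 0 z (n 0 z (n 0 z (n 0 z
 (n 0 z (n 0 z (n 0 z (n 0 z (n 0 z (n 0 z (n 0 z (n 0 z (n 0 z (n 0 z (n 2 (n 0 z (n 2 (n 0 z
 (n 0 z (n 0 z (n 0 (n 8794131 z z) (n 0 z (n 0 z z)))))) z)) (n 0 z (n 0 z (n 0 z
 z))))))))))))))))))) (n 255 (n 0 z (n 0 z (n 0 z (n 0 z (n 0 z (n 0 z (n 0 z (n 0 z (n 0 z (n 0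
 z (n 0 z (n 0 z (n 0 z (n 0 z (n 0 z (n 0 z (n 0 z (n 0 z (n 0 z z))))))))))))))))))) (n 253 (n
 7745555 z (n 0 z (n 0 z (n 0 z (n 0 z z))))) z)))))))))))) (n 0 (n 767 (n 0 z (n 0 z (n 0 z (n
 0 z (n 2 (n 1 z (n 2 (n 0 z (n 0 z (n 0 z (n 0 (n 8855811 z z) (n 0 z (n 0 z z)))))) (n 2 (n 0
 z (n 0 z (n 0 z (n 0 z (n 0 z (n 0 z z)))))) (n 2 (n 0 z (n 0 z (n 0 z (n 0 z (n 0 z (n 0 z
 z)))))) (n 2 (n 0 z (n 0 z (n 0 z (n 0 z (n 0 z (n 0 z z)))))) (n 2 (n 0 z (n 0 z (n 0 (n 3108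
 z z) (n 0 (n 3108 z (n 3108 z z)) (n 0 (n 3108 z z) (n 0 z z)))))) (n 2 (n 0 z (n 0 z (n 0 z (n
 0 (n 8855811 z z) (n 0 z (n 0 z z)))))) (n 2 (n 0 z (n 0 z (n 0 z (n 0 z (n 0 z (n 0 z z))))))
 (n 2 (n 0 z (n 0 z (n 0 z (n 0 z (n 0 z (n 0 z z)))))) (n 2 (n 0 z (n 0 z (n 0 z (n 0 (n
 8855811 z z) (n 0 z (n 0 z z)))))) z)))))))))) (n 0 z z)))))) (n 779 (n 0 z (n 2 (n 1 z (n 2 (n
 0 z (n 0 z (n 0 z (n 0 z (n 0 z (n 0 z z)))))) (n 2 (n 0 z (n 0 z (n 0 z (n 0 z (n 0 z (n 0 z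
 z)))))) (n 2 (n 0 z (n 0 z (n 0 z (n 0 z (n 0 z (n 0 z z)))))) (n 1 z (n 1 z (n 2 (n 0 z (n 0 z
 (n 0 z (n 0 z (n 0 z (n 0 z z)))))) (n 2 (n 0 z (n 0 z (n 0 z (n 0 z (n 0 z (n 0 z z)))))) (n 1
 z z))))))))) (n 0 z (n 0 z (n 0 z (n 0 z (n 0 z (n 0 z (n 0 z (n 0 z (n 0 z (n 0 z
 z)))))))))))) (n 1405 (n 0 z (n 0 z (n 0 z (n 2 (n 0 z (n 0 z (n 0 z (n 1 z (n 2 (n 0 z (n 0 z
 (n 0 z (n 0 (n 8855811 z z) (n 0 z (n 0 z z)))))) (n 2 (n 0 z (n 0 z (n 0 z (n 0 z (n 0 z (n 0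
 z z)))))) (n 2 (n 0 z (n 0 z (n 0 z (n 0 z (n 0 z (n 0 z z)))))) (n 2 (n 0 z (n 0 z (n 0 z (n 0
 (n 8855811 z z) (n 0 z (n 0 z z)))))) z)))))))) (n 0 z (n 0 z (n 0 z (n 0 z (n 0 z (n 0 z (n 0
 z (n 0 z (n 0 z (n 0 z (n 0 z (n 0 z z)))))))))))))))) (n 1405 (n 0 z (n 0 z (n 0 z (n 0 z (n 0
 z (n 0 z (n 0 z (n 0 z (n 0 z (n 0 z (n 0 z (n 0 z (n 0 z (n 0 z (n 0 z (n 0 z
 z)))))))))))))))) (n 1405 (n 0 z (n 0 z (n 0 z (n 0 z (n 0 z (n 0 z (n 0 z (n 0 z (n 0 z (n 0 z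
 (n 0 z (n 0 z (n 0 z (n 0 z (n 0 z (n 0 z z)))))))))))))))) (n 1405 (n 0 z (n 0 z (n 0 z (n 0 z
 (n 0 z (n 0 z (n 0 z (n 0 z (n 0 z (n 0 z (n 0 z (n 0 z (n 0 z (n 0 z (n 0 z (n 0 z
 z)))))))))))))))) (n 777 (n 0 z (n 0 z (n 0 z (n 0 z (n 0 z (n 0 z (n 0 z (n 0 z (n 0 z (n 0 z
 (n 0 z (n 0 z z)))))))))))) (n 777 (n 0 z (n 0 z (n 2 (n 0 z (n 0 z (n 2 (n 0 z (n 0 z (n 0 z
 (n 0 (n 8855811 z z) (n 0 z (n 0 z z)))))) z))) (n 0 z (n 0 z (n 0 z (n 0 z (n 0 z (n 0 z (n 0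
 z (n 0 z (n 0 z z)))))))))))) (n 777 (n 0 z (n 2 (n 0 z (n 2 (n 0 z (n 0 z (n 0 z (n 0 z (n 0 z
 (n 0 z z)))))) z)) (n 0 z (n 0 z (n 0 z (n 0 z (n 0 z (n 0 z (n 0 z (n 0 z (n 0 z (n 0 z
 z)))))))))))) (n 777 (n 0 z (n 0 z (n 0 z (n 0 z (n 0 z (n 0 z (n 0 z (n 0 z (n 0 z (n 0 z (n 0
 z (n 0 z z)))))))))))) (n 769 (n 2 z (n 0 z (n 0 z (n 0 z z)))) z))))))))))) (n 0 (n 259 (n 0 z
 (n 0 z (n 0 z (n 0 z (n 0 z (n 0 z (n 0 z (n 0 z (n 0 z (n 0 z (n 0 z (n 0 z z)))))))))))) (n 7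
 (n 0 z (n 0 z (n 0 z (n 0 z (n 0 z (n 0 z (n 0 z (n 0 z (n 0 z (n 0 z (n 0 z (n 0 z (n 0 z
 z))))))))))))) (n 7 (n 0 z (n 0 z (n 2 (n 0 z (n 0 z (n 1 z (n 1 z (n 1 z (n 2 (n 0 z (n 0 z (n
 0 z (n 0 z (n 0 z (n 0 z z)))))) (n 1 z z))))))) (n 0 z (n 0 z (n 0 z (n 0 z (n 0 z (n 0 z (n 0
 z (n 0 z (n 0 z (n 0 z z))))))))))))) (n 7 (n 0 z (n 0 z (n 0 z (n 0 z (n 0 z (n 0 z (n 0 z (n
 0 z (n 0 z (n 0 z (n 0 z (n 2 (n 0 z (n 2 (n 0 (n 6631811 z z) (n 0 (n 8733539 z z) (n 0 z (n 0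
 (n 7680387 z (n 12 z z)) (n 0 z (n 0 z z)))))) (n 2 (n 0 z (n 0 z (n 0 z (n 0 z (n 0 z (n 0 z
 z)))))) (n 2 (n 0 z (n 0 z (n 0 z (n 0 z (n 0 z (n 0 z z)))))) (n 2 (n 0 z (n 0 z (n 0 z (n 0 z
 (n 0 z (n 0 z z)))))) (n 2 (n 0 z (n 0 z (n 0 z (n 0 z (n 0 z (n 0 z z)))))) z)))))) (n 0 z
 z))))))))))))) (n 7 (n 0 z (n 0 z (n 0 z (n 0 z (n 0 z (n 0 z (n 0 z (n 0 z (n 0 z (n 0 z (n 0
 z (n 0 z (n 2 (n 2 (n 0 z (n 0 z (n 0 z (n 0 (n 8848939 z (n 8848939 z z)) (n 0 z (n 0 (n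
 8804139 z z) z)))))) (n 1 z (n 1 z (n 2 (n 0 z (n 0 z (n 0 z (n 0 (n 2164859 z z) (n 0 z (n 0 z
 z)))))) (n 1 z z))))) z))))))))))))) (n 3 (n 0 z (n 0 z (n 0 z (n 0 z (n 0 z (n 0 z (n 0 z
 z))))))) (n 3 (n 0 z (n 0 z (n 0 z (n 0 z (n 0 z (n 0 z (n 0 z z))))))) (n 3 (n 0 z (n 0 z (n 0
 z (n 0 z (n 0 z (n 0 z (n 0 z z))))))) (n 3 (n 0 z (n 0 z (n 0 z (n 0 z (n 0 z (n 0 z (n 2 (n 1
 z z) z))))))) (n 1 (n 0 z (n 0 z (n 0 z (n 0 z (n 0 z z))))) z)))))))))) (n 0 (n 539 (n 0 z (n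
 0 z (n 0 z (n 0 z (n 0 z (n 0 z (n 0 z (n 0 z (n 0 z (n 0 z (n 0 z (n 0 z (n 0 z (n 0 z (n 0 z
 (n 0 z (n 0 z (n 0 z (n 0 z (n 0 z (n 0 z (n 0 z (n 0 z (n 0 z (n 0 z (n 0 z (n 0 z (n 0 z (n 0
 z (n 0 z (n 0 z (n 0 z (n 0 z z))))))))))))))))))))))))))))))))) (n 539 (n 0 z (n 2 (n 0 z (n 0
 z (n 1 z (n 1 z (n 1 z (n 2 (n 0 z (n 0 z (n 0 z (n 0 (n 1164 z z) (n 0 z (n 0 z z)))))) (n 1 z
 z))))))) (n 0 z (n 0 z (n 0 z (n 0 z (n 0 z (n 0 z (n 0 z (n 0 z (n 0 z (n 0 z (n 0 z (n 0 z (n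
 0 z (n 0 z (n 0 z (n 0 z (n 0 z (n 0 z (n 0 z (n 0 z (n 0 z (n 0 z (n 0 z (n 0 z (n 0 z (n 0 z
 (n 0 z (n 0 z (n 0 z (n 0 z (n 0 z z))))))))))))))))))))))))))))))))) (n 539 (n 0 z (n 0 z (n 0
 z (n 0 z (n 0 z (n 0 z (n 0 z (n 0 z (n 0 z (n 0 z (n 0 z (n 0 z (n 0 z (n 2 (n 0 z (n 2 (n 0 z
 (n 0 z (n 0 (n 8794131 z z) (n 0 (n 8794131 z (n 8794131 z z)) (n 0 z (n 0 z z)))))) (n 2 (n 0
 z (n 0 z (n 0 z (n 0 (n 8790275 z z) (n 0 z (n 0 z z)))))) (n 2 (n 0 z (n 0 z (n 0 z (n 0 z (n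
 0 z (n 0 z z)))))) (n 2 (n 0 z (n 0 z (n 0 z (n 0 z (n 0 z (n 0 z z)))))) (n 2 (n 0 z (n 0 z (n
 0 z (n 0 (n 8790275 z z) (n 0 z (n 0 z z)))))) z)))))) (n 0 z (n 0 z (n 0 z (n 0 z (n 0 z (n 0
 z (n 0 z (n 0 z (n 0 z (n 0 z (n 0 z (n 0 z (n 0 z (n 0 z (n 0 z (n 0 z (n 0 z (n 0 z (n 0 z
 z))))))))))))))))))))))))))))))))) (n 539 (n 0 z (n 0 z (n 0 z (n 0 z (n 0 z (n 0 z (n 0 z (n 0
 z (n 0 z (n 0 z (n 0 z (n 0 z (n 0 z (n 0 z (n 0 z (n 0 z (n 0 z (n 0 z (n 0 z (n 2 (n 1 z (n 1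
 z (n 1 z (n 2 (n 0 z (n 0 z (n 0 z (n 0 z (n 0 z (n 0 z z)))))) (n 1 z z))))) (n 0 z (n 0 z (n
 0 z (n 0 z (n 0 z (n 0 z (n 0 z (n 0 z (n 0 z (n 0 z (n 0 z (n 0 z (n 0 z
 z))))))))))))))))))))))))))))))))) (n 291 (n 0 z (n 0 z (n 0 z (n 0 z (n 0 z (n 0 z (n 0 z (n 0
 z (n 0 z (n 0 z (n 0 z (n 0 z (n 0 z (n 0 z (n 0 z (n 0 z (n 0 z (n 0 z (n 0 z (n 0 z (n 0 z
 z))))))))))))))))))))) (n 291 (n 0 z (n 0 z (n 0 z (n 0 z (n 0 z (n 0 z (n 0 z (n 0 z (n 0 z (n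
 0 z (n 0 z (n 0 z (n 0 z (n 0 z (n 0 z (n 0 z (n 0 z (n 0 z (n 0 z (n 0 z (n 0 z
 z))))))))))))))))))))) (n 291 (n 0 z (n 0 z (n 0 z (n 0 z (n 0 z (n 0 z (n 0 z (n 0 z (n 0 z (n
 0 z (n 0 z (n 0 z (n 0 z (n 0 z (n 0 z (n 0 z (n 0 z (n 2 (n 0 z (n 1 z z)) (n 0 z (n 0 z (n 0
 z z))))))))))))))))))))) (n 291 (n 0 z (n 0 z (n 0 z (n 0 z (n 0 z (n 0 z (n 0 z (n 0 z (n 0 z
 (n 0 z (n 0 z (n 0 z (n 0 z (n 0 z (n 0 z (n 0 z (n 0 z (n 0 z (n 0 z (n 0 z (n 2 (n 1 z z)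
 z))))))))))))))))))))) (n 289 (n 0 z (n 0 z (n 0 z (n 0 z (n 0 z (n 0 z z)))))) z))))))))) (n 0
 (n 0 z (n 0 z (n 0 z (n 15 (n 0 z (n 0 z (n 0 z (n 0 z (n 0 z (n 0 z (n 0 z (n 0 z (n 0 z (n 0
 z z)))))))))) (n 15 (n 0 z (n 0 z (n 0 z (n 0 z (n 0 z (n 0 z (n 0 z (n 0 z (n 0 z (n 0 z
 z)))))))))) (n 15 (n 0 z (n 0 z (n 0 z (n 0 z (n 0 z (n 0 z (n 2 (n 0 z (n 1 z z)) (n 0 z (n 0
 z (n 0 z z)))))))))) (n 15 (n 0 z (n 0 z (n 0 z (n 0 z (n 0 z (n 0 z (n 0 z (n 2 (n 2 (n 0 z (n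
 0 z (n 0 z (n 0 (n 8790275 z z) (n 0 z (n 0 z z)))))) z) (n 0 z (n 0 z z)))))))))) (n 13 (n 0 z
 (n 0 z (n 0 z (n 0 z (n 0 z (n 0 z (n 0 z (n 0 z (n 0 z (n 0 z (n 0 z z))))))))))) z)))))))) (n
 0 (n 0 z (n 0 z (n 3 (n 2 (n 0 z (n 0 z (n 0 z (n 1 z z)))) (n 0 z (n 0 z (n 0 z (n 0 z (n 0 z
 (n 0 z (n 0 z z)))))))) (n 3 (n 0 z (n 2 (n 0 z (n 0 z (n 1 z z))) (n 0 z (n 0 z (n 0 z (n 0 z
 (n 0 z (n 0 z z)))))))) (n 3 (n 0 z (n 0 z (n 0 z (n 0 z (n 0 z (n 0 z (n 0 z (n 2 (n 0 z (n 2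
 (n 0 z (n 0 z (n 0 z (n 0 (n 4 z z) (n 0 z (n 0 z z)))))) z)) z)))))))) (n 3 (n 0 z (n 0 z (n 0
 z (n 0 z (n 0 z (n 0 z (n 0 z (n 0 z z)))))))) (n 1 (n 2 z (n 0 z (n 0 z (n 0 z (n 0 z (n 0 z
 z)))))) z))))))) (n 0 (n 0 z (n 9 (n 0 z (n 0 z (n 0 z (n 0 z z)))) (n 9 (n 0 z (n 0 z (n 0 z
 (n 2 (n 0 z (n 0 z (n 2 (n 0 z (n 0 z (n 0 z (n 0 z (n 0 z (n 0 z z)))))) z))) z)))) (n 9 (n 0
 z (n 0 z (n 0 z (n 0 z z)))) (n 9 (n 0 z (n 2 (n 2 (n 0 z (n 0 z (n 0 z (n 0 z (n 0 z (n 0 z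
 z)))))) z) (n 0 z (n 0 z z)))) (n 5 (n 0 z (n 0 z (n 2 z (n 0 z z)))) z)))))) (n 0 (n 51 (n 2
 (n 0 z (n 0 z (n 0 z (n 1 z z)))) (n 0 z (n 0 z (n 0 z (n 0 z (n 0 z (n 0 z (n 0 z (n 0 z
 z))))))))) (n 51 (n 0 z (n 2 (n 0 z (n 0 z (n 1 z z))) (n 0 z (n 0 z (n 0 z (n 0 z (n 0 z (n 0
 z (n 0 z z))))))))) (n 51 (n 0 z (n 0 z (n 0 z (n 0 z (n 0 z (n 0 z (n 0 z (n 0 z (n 2 (n 0 z
 (n 2 (n 0 z (n 0 z (n 0 z (n 0 z (n 0 z (n 0 z z)))))) z)) z))))))))) (n 51 (n 0 z (n 0 z (n 0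
 z (n 0 z (n 0 z (n 0 z (n 0 z (n 0 z (n 0 z z))))))))) (n 49 (n 0 z (n 0 z (n 0 z (n 2 z (n 0 z
 (n 0 z z)))))) z))))) (n 0 (n 0 z (n 0 z (n 0 z (n 409 (n 0 z (n 0 z (n 0 z (n 0 z (n 0 z (n 0
 z (n 0 z (n 0 z (n 0 z (n 0 z (n 0 z (n 0 z (n 0 z z))))))))))))) z)))) (n 0 (n 0 z (n 0 z (n
 389 (n 0 z (n 0 z (n 0 z (n 0 z (n 0 z (n 0 z (n 0 z (n 0 z (n 0 z (n 0 z (n 0 z (n 0 z (n 0 z
 (n 0 z (n 0 z (n 0 z (n 0 z (n 0 z (n 0 z (n 0 z (n 0 z (n 0 z (n 0 z (n 0 z (n 0 z (n 0 z (n 0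
 z (n 0 z (n 0 z (n 0 z (n 0 z (n 0 z (n 0 z z))))))))))))))))))))))))))))))))) z))) (n 0 (n 0 z
 (n 1 (n 0 z (n 0 z (n 0 z (n 0 z (n 0 z (n 0 z (n 0 z (n 0 z (n 0 z (n 0 z (n 0 z (n 0 z (n 0 z
 (n 0 z (n 0 z (n 0 z (n 0 z (n 0 z (n 0 z (n 0 z (n 0 z (n 0 z z)))))))))))))))))))))) z)) (n 0
 (n 53 (n 0 z (n 2 z (n 0 z (n 0 z (n 0 z (n 0 z (n 0 z z))))))) z) (n 0 z z)))))))))))))) (n 0
 (n 1 (n 3244 z (n 2 z (n 3244 z (n 3244 z (n 3244 z (n 3244 z z)))))) (n 1 (n 2164315 z (n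
 2164315 z (n 2164315 z (n 2164315 z (n 2164315 z (n 2164315 z z)))))) z)) (n 0 (n
 0x7867547a8753b98dab2c8ad3af1cc0 (n 0 (n 0 (n 7741699 z (n 7741699 z (n 7741699 z (n 7741699 z
 (n 7741699 z (n 7741699 z z)))))) z) (n 0 (n 113 (n 1 (n 7745555 z (n 4400907 z (n 4400907 z (n
 4400907 z (n 4400907 z (n 4400907 z z)))))) (n 1 (n 7745555 z (n 3244 z (n 3244 z (n 3244 z (n
 3244 z (n 3244 z z)))))) (n 1 (n 7745555 z (n 4400923 z (n 4400923 z (n 4400923 z (n 4400923 z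
 (n 4400923 z z)))))) (n 1 (n 7745555 z (n 6559531 z (n 3244 z (n 3244 z (n 3244 z (n 3244 z
 z)))))) (n 1 (n 7745555 z (n 3244 z (n 3244 z (n 3244 z (n 3244 z (n 3244 z z)))))) (n 1 (n
 7745555 z (n 3244 z (n 2 z (n 3244 z (n 3244 z (n 3244 z z)))))) z)))))) (n 33 (n 1 (n 7741699
 z (n 7741699 z (n 7741699 z (n 7741699 z (n 7741699 z (n 7741699 z z)))))) (n 1 (n 7741699 z (n
 7741699 z (n 7741699 z (n 7741699 z (n 7741699 z (n 7741699 z z)))))) (n 0 z z))) (n 173 (n 1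
 (n 7741699 z (n 7741699 z (n 7741699 z (n 7741699 z (n 7741699 z (n 7741699 z z)))))) (n 0 z (n
 0 z (n 1 (n 7741699 z (n 7741699 z (n 7741699 z (n 7741699 z (n 7741699 z (n 7741699 z z))))))
 z)))) (n 3 (n 1 (n 7741699 z (n 7741699 z (n 7741699 z (n 7741699 z (n 7741699 z (n 7741699 z
 z)))))) (n 1 (n 7745555 z (n 7745555 z (n 7745555 z (n 7745555 z (n 7745555 z (n 7745555 z
 z)))))) (n 1 (n 10 z (n 7684963 z (n 7616091 z (n 3260 z (n 3260 z (n 3260 z z)))))) (n 0 z (n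
 0 z (n 1 (n 3260 z (n 7684963 z (n 3260 z (n 3260 z (n 18 z (n 6627699 z z)))))) (n 1 (n 3260 z
 (n 7684963 z (n 26 z (n 3260 z (n 3260 z (n 7616091 z z)))))) z))))))) (n 81 (n 1 (n 7745555 z
 (n 7750483 z (n 7750483 z (n 7750483 z (n 7750483 z (n 7750483 z z)))))) (n 1 (n 7741699 z (n
 7741699 z (n 7741699 z (n 7741699 z (n 7741699 z (n 7741699 z z)))))) (n 0 z (n 0 z (n 0 z (n 1
 (n 7741699 z (n 7741699 z (n 7741699 z (n 7741699 z (n 7741699 z (n 7741699 z z)))))) (n 1 (n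
 7745555 z (n 6625067 z (n 1660 z (n 1660 z (n 34 z (n 1660 z z)))))) z))))))) (n 0 (n 1 (n
 7741699 z (n 7741699 z (n 7741699 z (n 7741699 z (n 7741699 z (n 7741699 z z)))))) (n 1 (n
 7754811 z (n 7684963 z (n 7754811 z (n 7754811 z (n 7754811 z (n 7754811 z z)))))) z)) (n 0 (n
 1 (n 7741699 z (n 7741699 z (n 7741699 z (n 7741699 z (n 7741699 z (n 7741699 z z)))))) (n 1 (n
 7754811 z (n 7750483 z (n 7754811 z (n 7754811 z (n 7754811 z (n 7754811 z z)))))) z)) z)))))))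
 (n 0 (n 0 (n 0 z (n 0 z (n 0 z (n 0 z (n 0 z z))))) (n 0 (n 0 z (n 0 z (n 0 z (n 0 z z)))) (n 0
 (n 0 z (n 0 z (n 0 z z))) (n 0 (n 0 z (n 0 z z)) (n 0 (n 0 z z) z))))) (n 0 (n 233 (n 0 (n 0 z
 (n 0 z (n 0 z (n 0 z (n 0 z z))))) (n 0 (n 0 z (n 0 z (n 0 z (n 0 z (n 0 z z))))) (n 0 (n 0 z
 (n 0 z (n 0 z (n 0 z (n 0 z z))))) (n 0 (n 0 z (n 0 z (n 0 z (n 0 z (n 0 z z))))) (n 0 (n 0 z
 (n 0 z (n 0 z (n 0 z (n 0 z z))))) (n 0 (n 0 z (n 0 z (n 0 z (n 0 z (n 0 z z))))) z)))))) (n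
 155 (n 0 (n 0 z (n 0 z (n 0 z (n 0 z (n 0 z z))))) (n 0 (n 0 z (n 0 z (n 0 z (n 0 z (n 0 z
 z))))) (n 0 (n 0 z (n 0 z (n 0 z (n 0 z (n 0 z z))))) (n 0 (n 0 z (n 0 z (n 0 z (n 0 z (n 0 z
 z))))) (n 0 (n 0 z (n 0 z (n 0 z (n 0 z (n 0 z z))))) (n 0 (n 0 z (n 0 z (n 0 z (n 0 z (n 0 z
 z))))) (n 0 (n 0 z (n 0 z (n 0 z (n 0 z (n 0 z z))))) (n 0 (n 0 z (n 0 z (n 0 z (n 0 (n
 0x61c9d05406010eaea8207807f80818080817f8080808081808080808080808180807f80808080808080808080808080807f80808080808080808080801009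
 z z) (n 0 z z))))) (n 0 (n 0 z (n 0 z (n 0 z (n 0 z (n 0 z z))))) z))))))))) (n 249 (n 0 (n 0 z
 (n 0 z (n 0 z (n 0 z (n 0 z z))))) (n 0 (n 0 z (n 0 z (n 0 z (n 0 (n
 0x10eb0ea007808081807f81807f808180808080807f8180808080808180807f80807f80807f8180807f80817f7f808080808180808180800809
 z z) (n 0 z z))))) (n 0 (n 0 z (n 0 z (n 0 z (n 0 z (n 0 z z))))) (n 0 (n 0 z (n 0 z (n 0 z (n
 0 z (n 0 z z))))) (n 0 (n 0 z (n 0 z (n 0 z (n 0 (n 8859971 z z) (n 0 z z))))) (n 0 (n 0 z (n 0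
 z (n 0 z (n 0 z (n 0 z z))))) (n 0 (n 0 z (n 0 z (n 0 z (n 0 z (n 0 z z))))) (n 0 (n 0 (n
 8790275 z z) (n 0 z (n 0 z (n 0 z (n 0 (n 8790275 z z) z))))) (n 0 (n 0 z (n 0 z (n 0 z (n 0 z
 (n 0 z z))))) (n 0 (n 0 z (n 0 z (n 0 z (n 0 (n
 0x30a4e60803808080818081807f808080808080808080808080808080808080808080807f808080808080807f80808080808080808081800809
 z z) (n 0 z z))))) (n 0 (n 0 z (n 0 z (n 0 z (n 0 z (n 0 z z))))) (n 0 (n 0 z (n 0 z (n 0 z (n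
 0 z (n 0 z z))))) z)))))))))))) (n 407 (n 0 (n 0 z (n 0 z (n 0 (n 8794131 z z) (n 0 z (n 0 (n
 8794131 z z) z))))) (n 0 (n 0 z (n 0 z (n 0 z (n 0 z (n 0 z z))))) (n 0 (n 0 z (n 0 z (n 0 z (n
 0 z (n 0 z z))))) (n 0 (n 0 z (n 0 z (n 0 z (n 0 z (n 0 z z))))) (n 0 (n 0 (n 8733539 z z) (n 0
 z (n 0 z (n 0 z (n 0 z z))))) (n 0 (n 0 z (n 0 z (n 0 z (n 0 z (n 0 z z))))) (n 0 (n 0 (n
 8794131 z z) (n 0 z (n 0 (n 8794131 z z) (n 0 z (n 0 z z))))) (n 0 (n 0 z (n 0 z (n 0 z (n 0 z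
 (n 0 z z))))) (n 0 (n 0 z (n 0 z (n 0 z (n 0 z (n 0 z z))))) (n 0 (n 0 z (n 0 z (n 0 z (n 0 z
 (n 0 z z))))) z)))))))))) (n 57 (n 0 (n 0 (n 8664667 z z) (n 0 z (n 0 z (n 0 z (n 0 (n 8804139
 z z) z))))) (n 0 (n 0 z (n 0 z (n 0 z (n 0 z (n 0 z z))))) (n 0 (n 0 z (n 0 z (n 0 z (n 0 z (n
 0 z z))))) (n 0 (n 0 z (n 0 z (n 0 z (n 0 z (n 0 z z))))) (n 0 (n 0 (n 8790275 z (n 8790275 z
 z)) (n 0 z (n 0 (n 8790275 z (n 8790275 z z)) (n 0 (n 8790275 z (n 8790275 z z)) (n 0 (n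
 8790275 z (n 8790275 z z)) z))))) (n 0 (n 0 (n 8790275 z z) (n 0 z (n 0 z (n 0 z (n 0 (n
 8790275 z z) z))))) (n 0 (n 0 z (n 0 z (n 0 z (n 0 (n 8848939 z z) (n 0 z z))))) (n 0 (n 0 z (n
 0 z (n 0 z (n 0 z (n 0 z z))))) (n 0 (n 0 z (n 0 z (n 0 z (n 0 z (n 0 z z))))) (n 0 (n 0 z (n 0
 z (n 0 z (n 0 z (n 0 z z))))) (n 0 (n 0 z (n 0 z (n 0 z (n 0 z (n 0 z z))))) (n 0 (n 0 z (n 0 z
 (n 0 z (n 0 z (n 0 z z))))) (n 0 (n 0 z (n 0 z (n 0 z (n 0 z (n 0 z z))))) z))))))))))))) (n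
 389 (n 0 (n 0 z (n 0 z (n 0 z (n 0 z (n 0 z z))))) (n 0 (n 0 z (n 0 z (n 0 z (n 0 z (n 0 z
 z))))) (n 0 (n 0 z (n 0 z (n 0 z (n 0 z (n 0 z z))))) (n 0 (n 0 z (n 0 z (n 0 (n 8790275 z z)
 (n 0 z (n 0 z z))))) (n 0 (n 0 z (n 0 z (n 0 z (n 0 z (n 0 z z))))) (n 0 (n 0 z (n 0 z (n 0 z
 (n 0 z (n 0 z z))))) (n 0 (n 0 z (n 0 z (n 0 z (n 0 z (n 0 z z))))) (n 0 (n 0 z (n 0 (n
 0x4a8548d917f8c90817d698171897e757e8c7c7b819999a6925d756b8e97756f97886462549b9197675f995dab7dc35771509b73640049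
 z z) (n 0 z (n 0 z (n 0 z z))))) (n 0 (n 0 z (n 0 (n
 0x4a8548d917f8c90817d698171897e757e8c7c7b819999a6925d756b8e97756f97886462549b9197675f995dab7dc35771509b73640049
 z (n
 0x4a8548d917f8c90817d698171897e757e8c7c7b819999a6925d756b8e97756f97886462549b9197675f995dab7dc35771509b73640049
 z z)) (n 0 (n 8853003 z (n 8724851 z z)) (n 0 z (n 0 z z))))) (n 0 (n 0 z (n 0 (n
 0x4a8548d917f8c90817d698171897e757e8c7c7b819999a6925d756b8e97756f97886462549b9197675f995dab7dc35771509b73640049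
 z z) (n 0 z (n 0 z (n 0 z z))))) (n 0 (n 0 z (n 0 z (n 0 z (n 0 z (n 0 z z))))) (n 0 (n 0 z (n
 0 (n
 0x1c28717d07a07f58657c487e8058187b48058cb87676076a7dc7a78ae80083880581d7c478e87381b7ea7d586888d7977d888d8067ef80278985a7a38188107648697ac8427f782485d7f97d48150051
 z (n
 0x210a30a200786281b80b8947a281186b8498ba7ad7ed80d7d67ac8727db81f80d77871f7797ff85683283a86980d8308157f57f58a47d88fe7b67fc70d8047d982872c7b97b18228d680888f7d07ad8220811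
 z z)) (n 0 z (n 0 z (n 0 z z))))) (n 0 (n 0 z (n 0 z (n 0 z (n 0 z (n 0 z z))))) (n 0 (n 0 z (n
 0 z (n 0 z (n 0 z (n 0 z z))))) (n 0 (n 0 (n 8733539 z (n 8733539 z z)) (n 0 z (n 0 (n 8733539
 z (n 8733539 z z)) (n 0 z (n 0 z z))))) (n 0 (n 0 z (n 0 z (n 0 z (n 0 z (n 0 z z))))) (n 0 (n
 0 z (n 0 z (n 0 z (n 0 (n 8859971 z z) (n 0 z z))))) (n 0 (n 0 z (n 0 z (n 0 z (n 0 z (n 0 z
 z))))) (n 0 (n 0 z (n 0 z (n 0 z (n 0 z (n 0 z z))))) (n 0 (n 0 z (n 0 z (n 0 z (n 0 z (n 0 z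
 z))))) (n 0 (n 0 z (n 0 z (n 0 z (n 0 z (n 0 z z))))) (n 0 (n 0 z (n 0 (n 8799059 z z) (n 0 z
 (n 0 z (n 0 z z))))) (n 0 (n 0 z (n 0 (n 8799059 z z) (n 0 z (n 0 z (n 0 z z))))) (n 0 (n 0 z
 (n 0 z (n 0 z (n 0 z (n 0 z z))))) (n 0 (n 0 z (n 0 z (n 0 z (n 0 z (n 0 z z))))) (n 0 (n 0 z
 (n 0 z (n 0 z (n 0 z (n 0 z z))))) (n 0 (n 0 z (n 0 (n 8794131 z (n 8794131 z z)) (n 0 z (n 0 z
 (n 0 z z))))) (n 0 (n 0 z (n 0 z (n 0 z (n 0 z (n 0 z z))))) (n 0 (n 0 z (n 0 z (n 0 z (n 0 z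
 (n 0 z z))))) (n 0 (n 0 z (n 0 z (n 0 z (n 0 z (n 0 z z))))) (n 0 (n 0 z (n 0 z (n 0 (n
 0x30e4e80a03808081818080807f80818080808080808080808080808080807f8080808080808180808080817f80808080808080808080800809
 z z) (n 0 z (n 0 z z))))) (n 0 (n 0 z (n 0 z (n 0 z (n 0 z (n 0 z z))))) (n 0 (n 0 z (n 0 (n
 8790275 z z) (n 0 z (n 0 z (n 0 z z))))) z))))))))))))))))))))))))))))))))) (n 207 (n 0 (n 0 z
 (n 0 z (n 0 (n 8868899 z z) (n 0 z (n 0 z z))))) (n 0 (n 0 z (n 0 z (n 0 z (n 0 z (n 0 z z)))))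
 (n 0 (n 0 z (n 0 z (n 0 z (n 0 z (n 0 z z))))) (n 0 (n 0 z (n 0 z (n 0 z (n 0 z (n 0 z z)))))
 (n 0 (n 0 z (n 0 z (n 0 z (n 0 z (n 0 z z))))) (n 0 (n 0 (n
 0x30e8ec6407808080818080817f818080808180808080808080808080808080808080807f808080808080807f80808080808080808180810809
 z z) (n 0 z (n 0 (n 8847899 z z) (n 0 z (n 0 z z))))) (n 0 (n 0 z (n 0 z (n 0 z (n 0 z (n 0 z
 z))))) (n 0 (n 0 z (n 0 z (n 0 z (n 0 z (n 0 z z))))) (n 0 (n 0 z (n 0 z (n 0 (n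
 0x21d61d4806030eaeca403807f8080808081808080807f80808080808080808080808080808080808080808080808080808080808080808080808080801009
 z z) (n 0 z (n 0 (n
 0x30eb0ea4038080808080808080807f808080807f80808080808180808180808080818080808080828080808080807f80808080808080800809
 z z) z))))) (n 0 (n 0 z (n 0 z (n 0 z (n 0 z (n 0 z z))))) (n 0 (n 0 z (n 0 z (n 0 z (n 0 z (n
 0 z z))))) z))))))))))) (n 81 (n 0 (n 0 z (n 0 z (n 0 (n 8868899 z z) (n 0 z (n 0 z z))))) (n 0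
 (n 0 z (n 0 z (n 0 z (n 0 z (n 0 z z))))) (n 0 (n 0 z (n 0 z (n 0 (n 8790275 z z) (n 0 z (n 0 z
 z))))) (n 0 (n 0 z (n 0 z (n 0 z (n 0 z (n 0 z z))))) (n 0 (n 0 (n 8790275 z (n 8790275 z z))
 (n 0 z (n 0 (n 8790275 z (n 8790275 z z)) (n 0 z (n 0 (n 8790275 z (n 8790275 z z)) z))))) (n 0
 (n 0 z (n 0 z (n 0 z (n 0 z (n 0 z z))))) (n 0 (n 0 z (n 0 z (n 0 z (n 0 z (n 0 z z)))))
 z))))))) (n 195 (n 0 (n 0 z (n 0 z (n 0 z (n 0 (n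
 0xd875807f81817e817f80807f8081817f807f8081808080808080807f807f7f807e7f807f808080807e8080808180818182817f810049
 z (n
 0x30eb0e2007817f81817f80807f80808080807f8080808080808080817f807f80808080807f8180808080807f80808080808081808080800809
 z z)) (n 0 z z))))) (n 0 (n 0 z (n 0 z (n 0 z (n 0 (n 8733539 z (n 8733539 z z)) (n 0 z z)))))
 (n 0 (n 0 z (n 0 z (n 0 z (n 0 z (n 0 z z))))) (n 0 (n 0 z (n 0 z (n 0 z (n 0 (n 8799059 z (n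
 8799059 z z)) (n 0 z z))))) (n 0 (n 0 z (n 0 z (n 0 (n 8799059 z z) (n 0 z (n 0 z z))))) (n 0
 (n 0 z (n 0 z (n 0 z (n 0 z (n 0 z z))))) (n 0 (n 0 (n 8799059 z z) (n 0 z (n 0 z (n 0 z (n 0 z
 z))))) (n 0 (n 0 z (n 0 z (n 0 (n 8799059 z z) (n 0 z (n 0 z z))))) (n 0 (n 0 z (n 0 z (n 0 z
 (n 0 z (n 0 z z))))) (n 0 (n 0 z (n 0 z (n 0 z (n 0 z (n 0 z z))))) (n 0 (n 0 z (n 0 z (n 0 z
 (n 0 z (n 0 z z))))) (n 0 (n 0 z (n 0 z (n 0 (n 0x10e4e20a070821 z z) (n 0 z (n 0 (n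
 0x30e70e0a038080808080808080808080808080808080807f8080807f8080808080808080808080808080808080808080808080808080800809
 z z) z))))) (n 0 (n 0 z (n 0 z (n 0 z (n 0 z (n 0 z z))))) (n 0 (n 0 z (n 0 z (n 0 (n 8733539 z
 z) (n 0 z (n 0 z z))))) (n 0 (n 0 z (n 0 z (n 0 (n 8853003 z (n 8724851 z z)) (n 0 z (n 0 z
 z))))) (n 0 (n 0 z (n 0 z (n 0 (n
 0x4a8538d917f8c90817d698171897e757e8c7c7b819999a6925d756b8e97756f97886462549b9197675f995dab7dc35771509b73640049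
 z z) (n 0 z (n 0 z z))))) (n 0 (n 0 z (n 0 z (n 0 (n 8853003 z z) (n 0 z (n 0 z z))))) (n 0 (n
 0 z (n 0 z (n 0 z (n 0 z (n 0 z z))))) (n 0 (n 0 z (n 0 z (n 0 z (n 0 z (n 0 z z))))) (n 0 (n 0
 z (n 0 z (n 0 z (n 0 z (n 0 z z))))) (n 0 (n 0 z (n 0 z (n 0 z (n 0 z (n 0 z z)))))
 z))))))))))))))))))))) (n 13 (n 0 (n 0 z (n 0 z (n 0 z (n 0 z (n 0 z z))))) (n 0 (n 0 z (n 0 z
 (n 0 (n 8868899 z z) (n 0 z (n 0 z z))))) (n 0 (n 0 z (n 0 z (n 0 z (n 0 z (n 0 z z))))) (n 0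
 (n 0 z (n 0 z (n 0 z (n 0 z (n 0 z z))))) (n 0 (n 0 z (n 0 z (n 0 z (n 0 z (n 0 z z))))) (n 0
 (n 0 (n
 0x30eb0ea4038080808080808080807f808080807f80808080808180808180808080818080808080828080808080807f80808080808080800809
 z z) (n 0 z (n 0 z (n 0 z (n 0 z z))))) (n 0 (n 0 z (n 0 z (n 0 z (n 0 z (n 0 z z))))) (n 0 (n
 0 z (n 0 z (n 0 z (n 0 z (n 0 z z))))) (n 0 (n 0 z (n 0 z (n 0 (n 8868899 z z) (n 0 z (n 0 z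
 z))))) (n 0 (n 0 z (n 0 z (n 0 z (n 0 z (n 0 z z))))) z)))))))))) (n 231 (n 0 (n 0 z (n 0 z (n
 0 z (n 0 z (n 0 z z))))) (n 0 (n 0 z (n 0 z (n 0 z (n 0 z (n 0 z z))))) (n 0 (n 0 z (n 0 z (n 0
 z (n 0 z (n 0 z z))))) (n 0 (n 0 (n
 0xea842684f7bb461c0838c5983e8bd2e336e52d9809c838f6246bb8e746ab6c94a6bc882768243ae518c8930b656a27b92af7d69890049
 z z) (n 0 z (n 0 z (n 0 z (n 0 (n 8848939 z z) z))))) (n 0 (n 0 (n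
 0x30e8e86407808080818080817f8080808081808080808080808080808080808080808080808080808080808080808080808080808080800809
 z z) (n 0 z (n 0 z (n 0 z (n 0 z z))))) (n 0 (n 0 z (n 0 z (n 0 z (n 0 z (n 0 (n 8794131 z z)
 z))))) (n 0 (n 0 z (n 0 z (n 0 z (n 0 z (n 0 z z))))) (n 0 (n 0 z (n 0 z (n 0 z (n 0 z (n 0 z
 z))))) (n 0 (n 0 z (n 0 z (n 0 z (n 0 (n
 0x30a8e86407808080818080807f8080818080808080808080808080808080808080808080808080808080808080808080808080808080800809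
 z z) (n 0 z z))))) (n 0 (n 0 z (n 0 z (n 0 z (n 0 z (n 0 z z))))) z)))))))))) (n 105 (n 0 (n 0
 z (n 0 z (n 0 z (n 0 z (n 0 z z))))) (n 0 (n 0 z (n 0 z (n 0 z (n 0 z (n 0 z z))))) (n 0 (n 0 z
 (n 0 z (n 0 z (n 0 z (n 0 z z))))) (n 0 (n 0 z (n 0 z (n 0 (n 8790275 z z) (n 0 z (n 0 z z)))))
 (n 0 (n 0 z (n 0 z (n 0 z (n 0 z (n 0 z z))))) z))))) (n 219 (n 0 (n 0 z (n 0 z (n 0 z (n 0 z
 (n 0 z z))))) (n 0 (n 0 z (n 0 z (n 0 z (n 0 z (n 0 z z))))) (n 0 (n 0 z (n 0 z (n 0 z (n 0 z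
 (n 0 z z))))) (n 0 (n 0 z (n 0 z (n 0 z (n 0 (n
 0x30a4e60803808080818081807f808080808080808080808080808080808080808080807f808080808080807f80808080808080808081800809
 z z) (n 0 z z))))) (n 0 (n 0 z (n 0 z (n 0 z (n 0 z (n 0 z z))))) (n 0 (n 0 z (n 0 z (n 0 z (n
 0 z (n 0 z z))))) z)))))) (n 19 (n 0 (n 0 z (n 0 z (n 0 z (n 0 z (n 0 z z))))) (n 0 (n 0 z (n 0
 z (n 0 z (n 0 z (n 0 z z))))) (n 0 (n 0 z (n 0 z (n 0 z (n 0 z (n 0 z z))))) (n 0 (n 0 z (n 0 z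
 (n 0 z (n 0 z (n 0 z z))))) (n 0 (n 0 z (n 0 z (n 0 z (n 0 z (n 0 z z))))) (n 0 (n 0 z (n 0 (n
 0x4a8218d917f8c90817d698171897e757e8c7c7b819999a6925d756b8e97756f97886462549b9197675f995dab7dc35771509b73640049
 z (n
 0x4a8218d917f8c90817d698171897e757e8c7c7b819999a6925d756b8e97756f97886462549b9197675f995dab7dc35771509b73640049
 z z)) (n 0 z (n 0 (n 7739435 z (n 7473227 z z)) (n 0 z z))))) (n 0 (n 0 z (n 0 z (n 0 z (n 0 z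
 (n 0 z z))))) (n 0 (n 0 z (n 0 z (n 0 z (n 0 z (n 0 z z))))) (n 0 (n 0 z (n 0 z (n 0 z (n 0 z
 (n 0 z z))))) (n 0 (n 0 z (n 0 z (n 0 z (n 0 z (n 0 z z))))) (n 0 (n 0 z (n 0 z (n 0 z (n 0 z
 (n 0 z z))))) z))))))))))) (n 218 (n 0 (n 0 z (n 0 z (n 0 z (n 0 (n
 0x50e50e2c03808080808080808080807f808082808081818180807f807f80808080808080808080808080808080808080808080818080800809
 z z) (n 0 z z))))) (n 0 (n 0 z (n 0 (n 8721979 z z) (n 0 z (n 0 z (n 0 z z))))) (n 0 (n 0 z (n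
 0 z (n 0 z (n 0 (n
 0x16a8617da7b37f78517d08658048137c38048a385f77f7897e37b988c80082c8048177d17a585b8167ee7de8538727ac7e08718057f28027a18487b681380d7828547bd8347f981d84a7fb7dd8110051
 z z) (n 0 z z))))) (n 0 (n 0 z (n 0 (n 8804123 z (n 0x10a8ec64070821 z z)) (n 0 (n
 0x4a8728d917f8c90817d698171897e757e8c7c7b819999a6925d756b8e97756f97886462549b9197675f995dab7dc35771509b73640049
 z (n
 0x30a8ec6407808080818080807f80808080808080808080808080808080807f8080808080808080808080808080808080807f80808080800809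
 z z)) (n 0 (n
 0x2328767c47887f387e7b589d80781e7a18068fe8947397457d37918d97ff8468068247b57728908227e47ca8838b277d7ce8b08077eb80376c87078c81f81473c8837978527f482d8747f87c981a0051
 z (n 0x10a8ec64070821 z z)) (n 0 z z))))) (n 0 (n 0 z (n 0 z (n 0 (n
 0x170e50e42037da2656fb66b8961ad54a46c8397838a748d82648ea68160706db1565b93816f655d8ea47d7e56ac878fb2d36c663dad745b0809
 z (n 8724851 z z)) (n 0 z (n 0 z z))))) (n 0 (n 0 z (n 0 z (n 0 (n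
 0x221d5d8480e008ea4ea420786d8227f88a07c180d84c83288e7d07e48237d17b38787c880a80079f74a7c67e985f81783788c81584380e80881b8617e88997fd7fe7397f27c58207357da7a68308ab7f58687e67ae8111011
 z z) (n 0 z (n 0 z z))))) (n 0 (n 0 z (n 0 (n 8804123 z z) (n 0 z (n 0 z (n 0 z z))))) (n 0 (n
 0 z (n 0 z (n 0 z (n 0 z (n 0 z z))))) (n 0 (n 0 z (n 0 z (n 0 z (n 0 (n
 0x30a8ec6407818080818080808080808080808080808080808080808080808080808080807f8080808080808080808080808080808080800809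
 z (n 7538763 z z)) (n 0 z z))))) (n 0 (n 0 z (n 0 z (n 0 z (n 0 z (n 0 z z))))) (n 0 (n 0 z (n
 0 (n
 0x4a8638d917f8c90817d698171897e757e8c7c7b819999a6925d756b8e97756f97886462549b9197675f995dab7dc35771509b73640049
 z (n
 0x4a8638d917f8c90817d698171897e757e8c7c7b819999a6925d756b8e97756f97886462549b9197675f995dab7dc35771509b73640049
 z z)) (n 0 z (n 0 (n
 0x4a8638d917f8c90817d698171897e757e8c7c7b819999a6925d756b8e97756f97886462549b9197675f995dab7dc35771509b73640049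
 z (n
 0x4a8638d917f8c90817d698171897e757e8c7c7b819999a6925d756b8e97756f97886462549b9197675f995dab7dc35771509b73640049
 z z)) (n 0 z z))))) (n 0 (n 0 z (n 0 z (n 0 z (n 0 z (n 0 z z))))) (n 0 (n 0 z (n 0 z (n 0 z (n
 0 (n
 0x12a8617e17c37f98407d985080480f7d080488284b79a7a07e97c78708008238038137d97b784a8127f17e484385b7bd7e685a8047f58027b48397c581080a79c8437cb8297fa81883b7fb7e680e0051
 z (n
 0x1ca8617d079f7f68647c487d8058177b48058cc87776076a7dc7a68ae80083880581e7c478f87381b7e97d586788e7977d888d8057ee80378a85a7a48188107638697ad8417f782485d7f97d48150051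
 z z)) (n 0 z z))))) (n 0 (n 0 z (n 0 (n
 0xd876807f81817e817f80807f8081817f807f8081808080808080807f807f7f807e7f807f808080807e8080808180818182817f810049
 z (n
 0x25876959980a17d63b379ce65a0885a48ac5ea984762d7160978f99b2a9747b7e80a95297a18f33694ab152999282b18eb2a740940049
 z z)) (n 0 z (n 0 z (n 0 z z))))) (n 0 (n 0 z (n 0 z (n 0 z (n 0 z (n 0 z z))))) (n 0 (n 0 z (n
 0 z (n 0 (n 8733539 z (n 8733539 z z)) (n 0 z (n 0 z z))))) (n 0 (n 0 z (n 0 z (n 0 z (n 0 (n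
 8733539 z z) (n 0 z z))))) (n 0 (n 0 z (n 0 z (n 0 z (n 0 (n
 0x30a8ec640780808081808080808080818080808080808080808080808080808080808080808080808080808080808080808080808080800809
 z z) (n 0 z z))))) (n 0 (n 0 z (n 0 z (n 0 z (n 0 z (n 0 z z))))) (n 0 (n 0 z (n 0 z (n 0 z (n
 0 z (n 0 z z))))) (n 0 (n 0 z (n 0 z (n 0 z (n 0 z (n 0 z z))))) (n 0 (n 0 z (n 0 z (n 0 z (n 0
 z (n 0 z z))))) (n 0 (n 0 z (n 0 z (n 0 z (n 0 z (n 0 z z))))) (n 0 (n 0 z (n 0 (n 8733539 z (n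
 8733539 z z)) (n 0 z (n 0 (n 8733539 z (n 8733539 z z)) (n 0 z z))))) (n 0 (n 0 z (n 0 z (n 0 z
 (n 0 (n 8733539 z z) (n 0 z z))))) (n 0 (n 0 z (n 0 z (n 0 z (n 0 z (n 0 z z))))) (n 0 (n 0 z
 (n 0 z (n 0 z (n 0 (n 8733539 z z) (n 0 z z))))) (n 0 (n 0 z (n 0 (n 8733539 z (n 8733539 z z))
 (n 0 z (n 0 z (n 0 z z))))) (n 0 (n 0 z (n 0 (n 8733539 z (n 8733539 z z)) (n 0 (n 8868899 z (n
 8868899 z z)) (n 0 (n 8733539 z (n 8733539 z z)) (n 0 z z))))) (n 0 (n 0 z (n 0 z (n 0 z (n 0 z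
 (n 0 z z))))) (n 0 (n 0 z (n 0 (n 8733539 z (n 8733539 z z)) (n 0 (n 8868899 z (n 8868899 z z))
 (n 0 (n 8733539 z (n 8733539 z z)) (n 0 z z))))) (n 0 (n 0 z (n 0 z (n 0 (n 8868899 z z) (n 0 z
 (n 0 z z))))) (n 0 (n 0 z (n 0 z (n 0 z (n 0 z (n 0 z z))))) z)))))))))))))))))))))))))))))))))
 (n 405 (n 0 (n 0 z (n 0 z (n 0 z (n 0 z (n 0 z z))))) (n 0 (n 0 z (n 0 z (n 0 z (n 0 z (n 0 z
 z))))) (n 0 (n 0 (n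
 0xd872807f81817e817f80807f8081817f807f8081808080808080807f807f7f807e7f807f808080807e8080808180818182817f810049
 z (n 8730395 z z)) (n 0 z (n 0 z (n 0 z (n 0 (n 8804139 z (n 8873275 z z)) z))))) (n 0 (n 0 z
 (n 0 z (n 0 z (n 0 z (n 0 z z))))) (n 0 (n 0 z (n 0 z (n 0 z (n 0 z (n 0 z z))))) (n 0 (n 0 z
 (n 0 z (n 0 z (n 0 z (n 0 z z))))) (n 0 (n 0 z (n 0 z (n 0 z (n 0 z (n 0 z z))))) z))))))) (n
 33 (n 0 (n 0 z (n 0 z (n 0 z (n 0 z (n 0 z z))))) (n 0 (n 0 z (n 0 z (n 0 z (n 0 z (n 0 z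
 z))))) (n 0 (n 0 z (n 0 z (n 0 z (n 0 z (n 0 z z))))) z))) (n 173 (n 0 (n 0 z (n 0 z (n 0 z (n
 0 z (n 0 z z))))) (n 0 (n 0 z (n 0 z (n 0 z (n 0 z (n 0 z z))))) (n 0 (n 0 z (n 0 z (n 0 z (n 0
 z (n 0 z z))))) (n 0 (n 0 z (n 0 z (n 0 z (n 0 z (n 0 z z))))) z)))) (n 3 (n 0 (n 0 z (n 0 z (n
 0 z (n 0 z (n 0 z z))))) (n 0 (n 0 z (n 0 z (n 0 z (n 0 z (n 0 z z))))) (n 0 (n 0 z (n 0 z (n 0
 z (n 0 z (n 0 z z))))) (n 0 (n 0 z (n 0 z (n 0 z (n 0 z (n 0 z z))))) (n 0 (n 0 z (n 0 z (n 0 z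
 (n 0 z (n 0 z z))))) (n 0 (n 0 z (n 0 z (n 0 z (n 0 z (n 0 z z))))) (n 0 (n 0 z (n 0 z (n 0 z
 (n 0 z (n 0 z z))))) z))))))) (n 1 (n 0 (n 0 z (n 0 z (n 0 (n 8794131 z z) (n 0 z (n 0 z z)))))
 (n 0 (n 0 z (n 0 z (n 0 z (n 0 z (n 0 z z))))) (n 0 (n 0 z (n 0 z (n 0 (n 8868899 z z) (n 0 z
 (n 0 z z))))) (n 0 (n 0 z (n 0 z (n 0 z (n 0 z (n 0 z z))))) (n 0 (n 0 z (n 0 z (n 0 z (n 0 z
 (n 0 z z))))) (n 0 (n 0 z (n 0 z (n 0 z (n 0 z (n 0 z z))))) (n 0 (n 0 z (n 0 z (n 0 z (n 0 z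
 (n 0 z z))))) (n 0 (n 0 z (n 0 z (n 0 z (n 0 z (n 0 z z))))) z)))))))) (n 0 (n 0 (n 0 z (n 0 z
 (n 0 z (n 0 z (n 0 z z))))) (n 0 (n 0 z (n 0 z (n 0 z (n 0 z (n 0 z z))))) z))
 z))))))))))))))))))))) z)))) z) z)))) (n
 0x5a62a2a28d0eb6ad15b5282898c485461552561b4eba1a4ed1726602924c16abac235d6c0 (n 0x2bada (n 177
 (n 0 z (n 0 z (n 0 z (n 0 z (n 0 z (n 2 z (n 3282443 z (n 0 z z)))))))) (n 33 (n 3278363 z (n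
 10 z z)) (n 129 (n 18 z (n 26 z (n 34 z (n
 0x4eca4a806037cd8d77ce77580082d89d7f47e880584481c78c70a9646ff7b380a8b971f9147828547b48858d879f7fd82d8b97d36738517588be85e71e7c18497eb7f885e7d27c075c8b482c85079382e0811
 z (n 42 z (n
 0x8ca8ca80077ec8767fb78e7f880e8717f48027fe8438097a97618e975b7f77e28837538fe7748377b78848857ed8007eb89b7f67167fa75f8c88577a27687ed8397c48917d77a67658608658457638460811
 z (n 5506603 z (n 3212843 z (n 0 z (n 0 z (n 0 z z))))))))))) (n 3 (n 0 z (n 0 z (n 0 z (n 0 z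
 (n 0 z (n 0 z (n 0 z (n 0 z (n 0 z (n 0 z (n 50 z (n 0 z (n 2164283 z (n 0 z (n 0 z (n 0 z
 z)))))))))))))))) (n 1 (n 2164299 z (n 58 z (n 66 z (n 0 z (n 74 z (n 82 z (n 0 z z))))))) (n 0
 (n 2164315 z (n 0 z (n 90 z (n 0 z (n 0 z (n 98 z (n 0 z (n 106 z (n 0 z z))))))))) z)))))) (n
 33 (n 0 (n 1163 (n 0 z (n 0 z (n 0 z (n 0 z z)))) (n 1167 (n 0 z (n 0 z (n 0 z (n 2 (n 0 z (n 0
 z (n 0 z (n 1 z (n 1 z (n 1 z (n 2 (n 0 z (n 0 z (n 0 z (n 0 z (n 0 z (n 0 (n 8794195 z z)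
 z)))))) (n 1 z (n 1 z (n 2 (n 0 z (n 0 z (n 0 z (n 0 z (n 0 z (n 0 (n 1396 z z) z)))))) (n 1 z
 z))))))))))) (n 0 z (n 0 z (n 0 z (n 0 z (n 0 z (n 0 z (n 0 z (n 0 z (n 0 z (n 0 z (n 0 z (n 0
 z (n 0 z z))))))))))))))))) (n 1167 (n 0 z (n 0 z (n 0 z (n 0 z (n 0 z (n 0 z (n 0 z (n 2 (n 0
 z (n 0 z (n 1 z (n 2 (n 0 z (n 0 z (n 0 z (n 0 z (n 0 z (n 0 (n 1404 z z) z)))))) (n 2 (n 0 z
 (n 0 z (n 0 z (n 0 z (n 0 z (n 0 z z)))))) (n 2 (n 0 z (n 0 z (n 0 z (n 0 z (n 0 z (n 0 z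
 z)))))) (n 1 z (n 1 z (n 2 (n 0 z (n 0 z (n 0 z (n 0 z (n 0 z (n 0 z z)))))) (n 2 (n 0 z (n 0 z
 (n 0 z (n 0 z (n 0 z (n 0 z z)))))) z)))))))))) (n 0 z (n 0 z (n 0 z (n 0 z (n 0 z (n 0 z (n 0
 z (n 0 z (n 0 z z))))))))))))))))) (n 1167 (n 0 z (n 0 z (n 0 z (n 0 z (n 0 z (n 0 z (n 0 z (n
 0 z (n 0 z (n 0 z (n 0 z (n 0 z (n 0 z (n 0 z (n 0 z (n 0 z (n 0 z z))))))))))))))))) (n 1167
 (n 0 z (n 0 z (n 0 z (n 0 z (n 0 z (n 0 z (n 0 z (n 0 z (n 0 z (n 0 z (n 0 z (n 0 z (n 0 z (n 0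
 z (n 0 z (n 0 z (n 0 z z))))))))))))))))) (n 1165 (n 0 z (n 0 z (n 0 z (n 0 z (n 0 z (n 0 z (n
 0 z (n 0 z (n 0 z (n 0 z z)))))))))) (n 351 (n 0 z (n 0 z (n 0 z (n 0 z (n 2 (n 0 z (n 0 z (n 0
 z (n 1 z (n 1 z (n 1 z z)))))) (n 0 z (n 0 z (n 0 z (n 0 z (n 0 z (n 0 z (n 0 z (n 0 z (n 0 z
 (n 0 z z))))))))))))))) (n 351 (n 0 z (n 2 (n 0 z (n 0 z (n 1 z (n 2 (n 0 z (n 0 z (n 0 z (n 0
 z (n 0 z (n 0 z z)))))) (n 2 (n 0 z (n 0 z (n 0 z (n 0 z (n 0 z (n 0 (n 8803379 z z) z))))))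
 z))))) (n 0 z (n 0 z (n 0 z (n 0 z (n 0 z (n 0 z (n 0 z (n 0 z (n 0 z (n 0 z (n 0 z (n 0 z (n 0
 z z))))))))))))))) (n 351 (n 0 z (n 0 z (n 0 z (n 0 z (n 0 z (n 0 z (n 0 z (n 0 z (n 0 z (n 0 z
 (n 0 z (n 0 z (n 0 z (n 0 z (n 0 z z))))))))))))))) (n 351 (n 0 z (n 0 z (n 0 z (n 0 z (n 0 z
 (n 0 z (n 0 z (n 0 z (n 0 z (n 0 z (n 0 z (n 0 z (n 0 z (n 0 z (n 0 z z))))))))))))))) (n 349
 (n 0 z (n 0 z (n 0 z (n 0 z (n 0 z (n 0 z (n 0 z z))))))) (n 349 (n 0 z (n 0 z (n 0 z (n 0 z (n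
 0 z (n 0 z (n 2 (n 0 z z) z))))))) (n 349 (n 0 z (n 0 z (n 0 z (n 0 z (n 0 z (n 7754803 z (n 0
 z z))))))) z))))))))))))) (n 0 (n 271 (n 0 z (n 0 z (n 0 z (n 0 z (n 0 z (n 0 z (n 0 z (n 0 z
 (n 0 z (n 0 z (n 0 z (n 0 z (n 0 z z))))))))))))) (n 271 (n 0 z (n 0 z (n 2 (n 0 z (n 0 z (n 1
 z (n 2 (n 0 z (n 0 z (n 0 z (n 0 z (n 0 z (n 0 z z)))))) (n 2 (n 0 z (n 0 z (n 0 z (n 0 z (n 0
 z (n 0 z z)))))) (n 2 (n 0 z (n 0 z (n 0 z (n 0 z (n 0 z (n 0 z z)))))) (n 1 z (n 1 z (n 2 (n 0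
 z (n 0 z (n 0 z (n 0 z (n 0 z (n 0 z z)))))) (n 2 (n 0 z (n 0 z (n 0 z (n 0 z (n 0 z (n 0 z
 z)))))) z)))))))))) (n 0 z (n 0 z (n 0 z (n 0 z (n 0 z (n 0 z (n 0 z (n 0 z (n 0 z (n 0 z
 z))))))))))))) (n 271 (n 0 z (n 0 z (n 0 z (n 0 z (n 0 z (n 0 z (n 0 z (n 0 z (n 0 z (n 0 z (n
 0 z (n 0 z (n 0 z z))))))))))))) (n 271 (n 0 z (n 0 z (n 0 z (n 0 z (n 0 z (n 0 z (n 0 z (n 0 z
 (n 0 z (n 0 z (n 0 z (n 0 z (n 0 z z))))))))))))) (n 55 (n 0 z (n 0 z (n 0 z (n 0 z (n 0 z (n 0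
 z (n 0 z (n 0 z (n 0 z z))))))))) (n 51 (n 0 z (n 2 (n 0 z (n 0 z (n 0 z (n 1 z (n 1 z (n 1 z
 z)))))) (n 0 z (n 0 z (n 0 z (n 0 z (n 0 z (n 0 z z)))))))) (n 51 (n 0 z (n 0 z (n 0 z (n 2 (n
 0 z (n 0 z (n 1 z (n 2 (n 0 z (n 0 z (n 0 z (n 0 z (n 0 z (n 0 z z)))))) (n 2 (n 0 z (n 0 z (n
 0 z (n 0 z (n 0 z (n 0 z z)))))) z))))) (n 0 z (n 0 z (n 0 z (n 0 z z)))))))) (n 51 (n 0 z (n 0
 z (n 0 z (n 0 z (n 0 z (n 0 z (n 0 z (n 0 z z)))))))) (n 51 (n 0 z (n 0 z (n 0 z (n 0 z (n 0 z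
 (n 0 z (n 0 z (n 0 z z)))))))) (n 49 (n 0 z (n 0 z (n 0 z (n 0 z (n 0 z (n 0 z (n 0 z (n 0 z (n
 0 z (n 0 z (n 0 z (n 0 z (n 0 z z))))))))))))) (n 49 (n 0 z (n 0 z (n 0 z (n 0 z (n 0 z (n 2 (n
 0 z z) (n 0 z (n 0 z (n 0 z (n 0 z (n 0 z (n 0 z (n 0 z z))))))))))))) (n 49 (n 0 z (n 0 z (n 0
 z (n 0 z (n 0 z (n 0 z (n 0 z (n 7754803 z (n 0 z (n 0 z (n 0 z (n 0 z (n 0 z z)))))))))))))
 z)))))))))))) (n 0 (n 0 z (n 0 z (n 0 z (n 295 (n 0 z (n 0 z (n 0 z (n 0 z (n 0 z (n 0 z (n 0 z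
 (n 0 z z)))))))) (n 291 (n 0 z (n 2 (n 0 z (n 0 z (n 0 z (n 1 z (n 2 (n 0 z (n 0 z (n 0 z (n 0
 z (n 0 z (n 0 z z)))))) (n 2 (n 0 z (n 0 z (n 0 z (n 0 z (n 0 z (n 0 z z)))))) z)))))) (n 0 z
 (n 0 z (n 0 z (n 0 z (n 0 z (n 0 z (n 0 z (n 0 z (n 0 z z))))))))))) (n 291 (n 0 z (n 0 z (n 2
 (n 0 z (n 0 z (n 1 z (n 2 (n 0 z (n 0 z (n 0 z (n 0 z (n 0 z (n 0 z z)))))) (n 2 (n 0 z (n 0 z
 (n 0 z (n 0 z (n 0 z (n 0 z z)))))) z))))) (n 0 z (n 0 z (n 0 z (n 0 z (n 0 z (n 0 z (n 0 z (n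
 0 z z))))))))))) (n 291 (n 0 z (n 0 z (n 0 z (n 0 z (n 0 z (n 0 z (n 0 z (n 0 z (n 0 z (n 0 z
 (n 0 z z))))))))))) (n 291 (n 0 z (n 0 z (n 0 z (n 0 z (n 0 z (n 0 z (n 0 z (n 0 z (n 2 (n 1 z
 (n 2 (n 0 z (n 0 z (n 0 z (n 0 z (n 0 z (n 0 z z)))))) (n 2 (n 0 z (n 0 z (n 0 z (n 0 z (n 0 z
 (n 0 (n 8868915 z z) z)))))) z))) (n 0 z (n 0 z z))))))))))) (n 289 (n 0 z (n 0 z (n 0 z (n 0 z
 (n 0 z (n 0 z (n 0 z (n 0 z (n 0 z (n 0 z (n 0 z (n 0 z z)))))))))))) (n 289 (n 0 z (n 0 z (n 0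
 z (n 0 z (n 0 z (n 2 (n 0 z z) (n 0 z (n 0 z (n 0 z (n 0 z (n 0 z (n 0 z z)))))))))))) (n 289
 (n 0 z (n 0 z (n 0 z (n 0 z (n 0 z (n 0 z (n 0 z (n 0 z (n 2 z (n 0 z (n 0 z (n 0 z
 z)))))))))))) z))))))))))) (n 0 (n 0 z (n 0 z (n 295 (n 0 z (n 0 z (n 0 z (n 0 z (n 2 (n 2 (n 0
 z (n 0 z (n 0 z (n 0 z (n 0 z (n 0 (n 972 z z) z)))))) (n 2 (n 0 z (n 0 z (n 0 z (n 0 z (n 0 z
 (n 0 z z)))))) (n 2 (n 0 z (n 0 z (n 0 z (n 0 z (n 0 z (n 0 z z)))))) (n 1 z (n 1 z (n 2 (n 0 z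
 (n 0 z (n 0 z (n 0 z (n 0 z (n 0 z z)))))) (n 2 (n 0 z (n 0 z (n 0 z (n 0 z (n 0 z (n 0 z
 z)))))) z))))))) (n 0 z (n 0 z (n 0 z (n 0 z (n 0 z (n 0 z z))))))))))) (n 243 (n 0 z (n 0 z (n
 0 z (n 0 z (n 0 z (n 0 z (n 0 z (n 0 z (n 0 z (n 0 z (n 0 z (n 0 z z)))))))))))) (n 243 (n 0 z
 (n 0 z (n 0 z (n 0 z (n 0 z (n 0 z (n 0 z (n 0 z (n 0 z (n 0 z (n 0 z (n 0 z z)))))))))))) (n
 243 (n 0 z (n 0 z (n 0 z (n 0 z (n 0 z (n 2 (n 0 z (n 2 (n 0 z (n 0 z (n 0 z (n 0 z (n 0 z (n 0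
 (n 964 z z) z)))))) (n 1 z (n 2 (n 0 z (n 0 z (n 0 z (n 0 z (n 0 z (n 0 z z)))))) z)))) (n 0 z
 (n 0 z (n 0 z (n 0 z (n 0 z (n 0 z z)))))))))))) (n 243 (n 0 z (n 0 z (n 0 z (n 0 z (n 0 z (n 0
 z (n 0 z (n 2 (n 1 z (n 2 (n 0 z (n 0 z (n 0 z (n 0 z (n 0 z (n 0 z z)))))) (n 2 (n 0 z (n 0 z
 (n 0 z (n 0 z (n 0 z (n 0 z z)))))) z))) (n 0 z (n 0 z (n 0 z (n 0 z z)))))))))))) (n 241 (n 0
 z (n 0 z (n 0 z (n 2 (n 0 z (n 0 z z)) (n 0 z (n 0 z (n 0 z (n 0 z z)))))))) (n 241 (n 0 z (n 0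
 z (n 0 z (n 0 z (n 0 z (n 0 z (n 0 z (n 0 z z)))))))) (n 241 (n 0 z (n 0 z (n 0 z (n 0 z (n
 0x28c84ea06037fc80a7f88078018047fa7f08107f57fd7fb80e7f48077fe8028047e88227f28187fa8047e77ff7f27f98037fc7f98148088017f07f08108167fc7f37e98198008218057ee7ea8118167f50811
 z (n 0 z (n 0 z (n 0 z z)))))))) z)))))))))) (n 0 (n 0 z (n 273 (n 0 z (n 0 z (n 0 z (n 0 z (n
 0 z z))))) (n 261 (n 0 z (n 0 z (n 0 z (n 2 (n 0 z (n 0 z (n 0 z (n 1 z (n 1 z (n 1 z z))))))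
 (n 0 z (n 0 z (n 0 z z))))))) (n 261 (n 0 z (n 0 z (n 0 z (n 0 z (n 0 z (n 0 z (n 0 z z)))))))
 (n 261 (n 0 z (n 0 z (n 0 z (n 0 z (n 0 z (n 0 z (n 0 z z))))))) (n 261 (n 0 z (n 0 z (n 0 z (n
 0 z (n 0 z (n 0 z (n 0 z z))))))) (n 257 (n 0 z (n 0 z (n 0 z (n 0 z (n 0 z (n 0 z (n 0 z (n 0
 z z)))))))) (n 257 (n 0 z (n 0 z (n 0 z (n 0 z (n 0 z (n 0 z (n 0 z (n 0 z z)))))))) (n 257 (n
 0 z (n 0 z (n 0 z (n 0 z (n 0 z (n 0 z (n 0 z (n 0 z z)))))))) z))))))))) (n 0 (n 7 (n 0 z (n 0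
 z (n 0 z (n 0 z (n 0 z (n 0 z (n 0 z (n 0 z (n 0 z (n 0 z (n 0 z (n 0 z z)))))))))))) (n 255 (n
 0 z (n 0 z (n 0 z (n 0 z (n 2 (n 0 z (n 0 z (n 0 z (n 1 z (n 1 z (n 1 z z)))))) (n 0 z (n 0 z
 (n 0 z (n 0 z (n 0 z (n 0 z (n 0 z (n 0 z (n 0 z z)))))))))))))) (n 255 (n 0 z (n 0 z (n 0 z (n
 2 (n 0 z (n 0 z (n 1 z (n 2 (n 0 z (n 0 z (n 0 z (n 0 z (n 0 z (n 0 z z)))))) (n 2 (n 0 z (n 0
 z (n 0 z (n 0 z (n 0 z (n 0 z z)))))) z))))) (n 0 z (n 0 z (n 0 z (n 0 z (n 0 z (n 0 z (n 0 z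
 (n 0 z (n 0 z (n 0 z z)))))))))))))) (n 255 (n 0 z (n 0 z (n 0 z (n 0 z (n 0 z (n 0 z (n 0 z (n
 0 z (n 0 z (n 0 z (n 0 z (n 0 z (n 0 z (n 0 z z)))))))))))))) (n 255 (n 0 z (n 0 z (n 0 z (n 0
 z (n 0 z (n 0 z (n 0 z (n 0 z (n 0 z (n 0 z (n 0 z (n 0 z (n 0 z (n 0 z z)))))))))))))) (n 253
 (n 0 z (n 0 z (n 0 z (n 0 z (n 0 z (n 0 z (n 0 z (n 0 z (n 0 z (n 0 z (n 0 z (n 0 z
 z)))))))))))) (n 253 (n 0 z (n 0 z (n 0 z (n 0 z (n 0 z (n 0 z (n 0 z (n 2 (n 0 z z) (n 0 z (n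
 0 z (n 0 z (n 0 z z)))))))))))) (n 253 (n 0 z (n 0 z (n 0 z (n 0 z (n 0 z (n 7754803 z (n 0 z
 (n 0 z (n 0 z (n 0 z (n 0 z (n 0 z z)))))))))))) z)))))))) (n 0 (n 3 (n 0 z (n 0 z (n 0 z (n 2
 (n 0 z (n 0 z (n 0 z (n 1 z (n 1 z (n 1 z z)))))) (n 0 z (n 0 z (n 0 z (n 0 z (n 0 z z)))))))))
 (n 3 (n 0 z (n 0 z (n 2 (n 0 z (n 0 z (n 1 z (n 2 (n 0 z (n 0 z (n 0 z (n 0 z (n 0 z (n 0 z
 z)))))) (n 2 (n 0 z (n 0 z (n 0 z (n 0 z (n 0 z (n 0 z z)))))) z))))) (n 0 z (n 0 z (n 0 z (n 0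
 z (n 0 z (n 0 z z))))))))) (n 3 (n 0 z (n 0 z (n 0 z (n 0 z (n 0 z (n 0 z (n 0 z (n 0 z (n 0 z
 z))))))))) (n 3 (n 0 z (n 0 z (n 0 z (n 0 z (n 0 z (n 0 z (n 0 z (n 0 z (n 0 z z))))))))) (n 1
 (n 0 z (n 0 z (n 0 z (n 0 z (n 0 z (n 0 z (n 0 z (n 0 z (n 0 z (n 0 z z)))))))))) (n 1 (n 0 z
 (n 0 z (n 0 z (n 0 z (n 2 (n 0 z z) (n 0 z (n 0 z (n 0 z (n 0 z (n 0 z z)))))))))) (n 1 (n 0 z
 (n 0 z (n 0 z (n 2 z (n 0 z (n 0 z (n 0 z (n 0 z (n 0 z (n 0 z z)))))))))) z))))))) (n 0 (n 0 z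
 (n 0 z (n 0 z (n 1 (n 0 z (n 0 z (n 0 z (n 0 z (n 0 z (n 2 (n 0 z (n 0 z z)) (n 0 z (n 0 z
 z)))))))) (n 1 (n 0 z (n 0 z (n 0 z (n
 0x26ea6c864037fc8537ff7bc8027fe85f7d18387e68208017c87b38817b282d7d180b7d188c7a98057c486683d8008007d686e8027ac7bd77989185a82a7437a385c7948cb7dd7c675d7fb87e85275f8470811
 z (n 0 z (n 0 z (n 0 z (n 0 z z)))))))) (n 1 (n 0 z (n 0 z (n 0 z (n 0 z (n 0 z (n 0 z (n 0 z
 (n
 0x4476080180f8077e67f87fa81e7fa80a8028148057e87e18387db8057e78157e384b7cf8087e983181380f7fb7ed8378087d97e37c684a8248057ad7d78287d284c7f57de7bb80084082b7b58200051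
 z z)))))))) z)))))) (n 0 (n 0 z (n 0 z (n 269 (n 0 z (n 0 z (n 0 z (n 0 z (n 0 z (n 0 z (n 0 z
 (n 0 z (n 2 (n 0 z (n 0 z z)) (n 0 z (n 0 z (n 0 z (n 0 z (n 0 z (n 0 z (n 0 z (n 0 z (n 0 z (n
 0 z (n 0 z (n 0 z (n 0 z (n 0 z (n 0 z (n 0 z (n 0 z (n 0 z (n 0 z (n 0 z
 z))))))))))))))))))))))))))))) (n 269 (n
 0x4d7607cd8cd7db7478008258aa7ee7e87f884f80779370896d6fc7c17f28d56e59637448617a08b68e27b78007e38be7d867383772190a87d73a77d81983d7da8a57c17937458d285783d75d84b0051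
 z (n 0 z (n 0 z (n 0 z (n 0 z (n 0 z (n 0 z (n 0 z (n 0 z (n 0 z (n 0 z (n 0 z (n 0 z (n 0 z (n
 0 z (n 0 z (n 0 z (n 0 z (n 0 z (n 0 z (n 0 z (n 0 z (n 0 z (n 0 z (n 0 z (n 0 z (n 0 z (n 0 z
 (n 0 z z))))))))))))))))))))))))))))) (n 269 (n 0 z (n 0 z (n 0 z (n 0 z (n 0 z (n 0 z (n 0 z
 (n 0 z (n 0 z (n 0 z (n 0 z (n 0 z (n 0 z (n 0 z (n 0 z (n 0 z (n 0 z (n 0 z (n 0 z (n 0 z (n 0
 z (n 0 z (n 0 z (n 0 z (n 0 z (n 0 z (n 0 z (n 0 z (n 0 z z))))))))))))))))))))))))))))) z)))))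
 (n 0 (n 0 z (n 1013 (n 0 z (n 0 z (n 0 z (n 0 z (n 0 z (n 0 z (n 2 (n 0 z (n 0 z z)) (n 0 z (n
 0 z (n 0 z (n 0 z (n 0 z (n 0 z (n 0 z (n 0 z (n 0 z (n 0 z (n 0 z (n 0 z (n 0 z (n 0 z (n 0 z
 (n 0 z (n 0 z (n 0 z (n 0 z (n 0 z (n 0 z (n 0 z (n 0 z (n 0 z (n 0 z (n 0 z (n 0 z (n 0 z (n 0
 z (n 0 z (n 0 z (n 0 z (n 0 z (n 0 z (n 0 z (n 0 z (n 0 z (n 0 z (n 0 z (n 0 z (n 0 z (n 0 z
 z))))))))))))))))))))))))))))))))))))))))))))))))) (n 1013 (n 0 z (n 0 z (n 0 z (n 0 z (n 0 z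
 (n 0 z (n 0 z (n 0 z (n 0 z (n 0 z (n 0 z (n 0 z (n 0 z (n 0 z (n 0 z (n 0 z (n 0 z (n 0 z (n 0
 z (n 0 z (n 0 z (n 0 z (n 0 z (n 0 z (n 0 z (n 0 z (n 0 z (n 0 z (n 0 z (n 0 z (n 0 z (n 0 z (n
 0 z (n 0 z (n 0 z (n 0 z (n 0 z (n 0 z (n 0 z (n 0 z (n 0 z (n 0 z (n 0 z (n 0 z (n 0 z (n 0 z
 (n 0 z (n 0 z (n 0 z z))))))))))))))))))))))))))))))))))))))))))))))))) (n 1013 (n 0 z (n 0 z
 (n 0 z (n 0 z (n 0 z (n 0 z (n 0 z (n 0 z (n 0 z (n 0 z (n 0 z (n 0 z (n 0 z (n 0 z (n 0 z (n 0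
 z (n 0 z (n 0 z (n 0 z (n 0 z (n 0 z (n 0 z (n 0 z (n 0 z (n 0 z (n 0 z (n 0 z (n 0 z (n 0 z (n
 0 z (n 0 z (n 0 z (n 0 z (n 0 z (n 0 z (n 0 z (n 0 z (n 0 z (n 0 z (n 0 z (n 0 z (n 0 z (n 0 z
 (n 0 z (n 0 z (n 0 z (n 0 z (n 0 z (n 0 z z)))))))))))))))))))))))))))))))))))))))))))))))))
 z)))) (n 0 (n 5 (n 0 z (n 0 z (n 0 z (n 0 z (n 0 z (n 0 z (n 0 z (n 0 z (n 0 z (n 0 z (n 0 z (n
 0 z z)))))))))))) (n 5 (n 0 z (n 2 (n 0 z z) (n 0 z (n 0 z (n 0 z (n 0 z (n 0 z (n 0 z (n 0 z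
 (n 0 z (n 0 z (n 0 z z)))))))))))) (n 5 (n 0 z (n 0 z (n 0 z (n 0 z (n 0 z (n 7754803 z (n 0 z
 (n 0 z (n 0 z (n 0 z (n 0 z (n 0 z z)))))))))))) z))) (n 0 (n 0 z (n 0 z z)) (n 0 (n 0 z z) (n
 0 z z)))))))))))))) (n 0 (n 1 (n 3278363 z (n 3278363 z (n 3278363 z (n 3278363 z (n 3278363 z
 (n 3278363 z z)))))) (n 1 (n 1420 z (n 1420 z (n 2 z (n 1420 z (n 1420 z (n 1420 z z)))))) z))
 (n 0 (n 0x82a28d4c4854ac2aa44cc052 (n 0 (n 0 (n 7750163 z (n 7750163 z (n 7750163 z (n 7750163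
 z (n 7750163 z (n 7750163 z z)))))) z) (n 0 (n 581 (n 1 (n 7745619 z (n 7745619 z (n 7750163 z
 (n 7745619 z (n 7745619 z (n 7745619 z z)))))) (n 1 (n 7610723 z (n 7610723 z (n 7750163 z (n
 7610723 z (n 7610723 z (n 7610723 z z)))))) (n 1 (n 1420 z (n 7611931 z (n 7750163 z (n 7733787
 z (n 1420 z (n 1420 z z)))))) (n 0 z z)))) (n 33 (n 1 (n 3278619 z (n 3278619 z (n 7610723 z (n
 3278619 z (n 3278619 z (n 3278619 z z)))))) (n 1 (n 7754803 z (n 7754803 z (n 7754803 z (n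
 7754803 z (n 7754803 z (n 7754803 z z)))))) z)) (n 129 (n 1 (n 7611931 z (n 6493963 z (n
 7610723 z (n 2044 z (n 4684 z (n 4684 z z)))))) (n 1 (n 7611931 z (n 2 z (n 7610723 z (n 4684 z
 (n 4684 z (n 4684 z z)))))) (n 1 (n 7754803 z (n 7754803 z (n 7754803 z (n 7754803 z (n 7754803
 z (n 7754803 z z)))))) (n 1 (n 7611931 z (n 7542347 z (n 7610723 z (n 4684 z (n 4684 z (n 4684
 z z)))))) (n 1 (n 7750163 z (n 7750163 z (n 7750163 z (n 7750163 z (n 7750163 z (n 7750163 z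
 z)))))) (n 1 (n 7745619 z (n 7745619 z (n 7745619 z (n 7745619 z (n 7745619 z (n 7745619 z
 z)))))) (n 1 (n 5506859 z (n 7611931 z (n 7610723 z (n 5506859 z (n 5506859 z (n 5506859 z
 z)))))) (n 1 (n 7750163 z (n 7750163 z (n 7750163 z (n 7750163 z (n 7750163 z (n 7750163 z
 z)))))) (n 0 z (n 0 z (n 0 z z))))))))))) (n 33 (n 0 z (n 0 z (n 0 z (n 0 z (n 1 (n 4700 z (n
 4700 z (n 7750163 z (n 4700 z (n 7733787 z (n 4700 z z)))))) (n 1 (n 7610723 z (n 7610723 z (n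
 7750163 z (n 7610723 z (n 7610723 z (n 7610723 z z)))))) (n 0 z (n 1 (n 7745619 z (n 7745619 z
 (n 7750163 z (n 7745619 z (n 7745619 z (n 7745619 z z)))))) (n 0 z z))))))))) (n 1 (n 1 (n
 7750163 z (n 7750163 z (n 7750163 z (n 7750163 z (n 7750163 z (n 7750163 z z)))))) (n 1 (n 1420
 z (n 7611931 z (n 7610723 z (n 1420 z (n 10 z (n 1420 z z)))))) (n 1 (n 7611931 z (n 18 z (n
 7610723 z (n 1420 z (n 1420 z (n 1420 z z)))))) (n 0 z (n 1 (n 7745619 z (n 7745619 z (n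
 7745619 z (n 7745619 z (n 7745619 z (n 7745619 z z)))))) (n 1 (n 7750163 z (n 7750163 z (n
 7750163 z (n 7750163 z (n 7750163 z (n 7750163 z z)))))) (n 0 z z))))))) (n 179 (n 1 (n 364 z
 (n 364 z (n 364 z (n 364 z (n 364 z (n 364 z z)))))) (n 1 (n 364 z (n 364 z (n 364 z (n 364 z
 (n 364 z (n 364 z z)))))) (n 1 (n 7754803 z (n 7754803 z (n 7754803 z (n 7754803 z (n 7754803 z
 (n 7754803 z z)))))) (n 1 (n 3282699 z (n 3282699 z (n 3282699 z (n 3282699 z (n 3282699 z (n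
 3282699 z z)))))) (n 0 z (n 1 (n 7754803 z (n 7754803 z (n 7754803 z (n 7754803 z (n 7754803 z
 (n 7754803 z z)))))) (n 1 (n 26 z (n 364 z (n 4261691 z (n 364 z (n 364 z (n 364 z z))))))
 z))))))) (n 33 (n 1 (n 3278619 z (n 3278619 z (n 7750163 z (n 3278619 z (n 3278619 z (n 3278619
 z z)))))) (n 1 (n 7754803 z (n 7754803 z (n 7750163 z (n 7754803 z (n 7754803 z (n 7754803 z
 z)))))) z)) z))))))) (n 0 (n 0 (n 0 z (n 0 z (n 0 z (n 0 z z)))) (n 0 (n 0 z (n 0 z (n 0 z z)))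
 (n 0 (n 0 z (n 0 z z)) (n 0 (n 0 z z) z)))) (n 0 (n 587 (n 0 (n 0 z (n 0 z (n 0 z (n 0 z z))))
 (n 0 (n 0 z (n 0 z (n 0 z (n 0 z z)))) (n 0 (n 0 z (n 0 z (n 0 z (n 0 z z)))) (n 0 (n 0 z (n 0
 z (n 0 (n 8864555 z (n 8864555 z z)) (n 0 z z)))) z)))) (n 585 (n 0 (n 0 z (n 0 z (n 0 z (n 0
 (n 8860227 z z) z)))) (n 0 (n 0 z (n 0 z (n 0 z (n 0 z z)))) (n 0 (n 0 z (n 0 z (n 0 z (n 0 z
 z)))) (n 0 (n 0 z (n 0 z (n 0 z (n 0 z z)))) (n 0 (n 0 (n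
 0x2487181e8217217217a085e89f8e07a07e085f8608208a06e08618a07de8607e07a18248208208210041 z z) (n
 0 z (n 0 z (n 0 (n 8860227 z z) z)))) (n 0 (n 0 z (n 0 z (n 0 z (n 0 z z)))) (n 0 (n 0 z (n 0 z
 (n 0 z (n 0 z z)))) (n 0 (n 0 z (n 0 z (n 0 z (n 0 z z)))) (n 0 (n 0 z (n 0 z (n 0 z (n 0 z
 z)))) (n 0 (n 0 z (n 0 z (n 0 z (n 0 z z)))) (n 0 (n 0 z (n 0 z (n 0 z (n 0 z z)))) (n 0 (n 0 z
 (n 0 z (n 0 z (n 0 z z)))) (n 0 (n 0 z (n 0 z (n 0 z (n 0 (n 8798739 z z) z)))) (n 0 (n 0 z (n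
 0 z (n 0 z (n 0 z z)))) (n 0 (n 0 z (n 0 z (n 0 z (n 0 z z)))) (n 0 (n 0 z (n 0 z (n 0 z (n 0 z
 z)))) (n 0 (n 0 (n
 0xd87681f8617607e182181f8618e282086181f82081f7e08617a07df7e27e08208628618218218600041 z (n
 0xc87685f8217a17a17e18608218a17e082081f7e07e082082182082181f8208208618207e08208200041 z z)) (n
 0 z (n 0 (n
 0xc87685f8217a17a17e18608218a17e082081f7e07e082082182082181f8208208618207e08208200041 z (n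
 0x5c8647d189d7dc7917f48298527f17cb80f8357fe7c974c8f774c7ac8088a57328e678f85a7c98578ca7b98007f68767db6c384b7638c682d73b7fc84080e80e8617f17ce7c48947f88287ce8030051
 z z)) (n 0 (n
 0x1587381e8a16e07a282181f8a192282082281f7e081f7df86272081f7e17df8608a485f8628208610041 z (n
 0xc87385f8217a17a17e18608218a17e082081f7e07e082082182082181f8208208618207e08208200041 z z))
 z)))) z))))))))))))))))) (n 255 (n 0 (n 0 z (n 0 z (n 0 z (n 0 z z)))) (n 0 (n 0 z (n 0 z (n 0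
 z (n 0 z z)))) (n 0 (n 0 z (n 0 z (n 0 z (n 0 z z)))) (n 0 (n 0 z (n 0 z (n 0 (n
 0x3c8757e28647e97b87f881b8357f77de80a8227ff7dd78d89f78d7ca80586a77d8937b883a7dd8388817d38007f984b7e873483079c87f81e7827fe82880980983e7f67e07d985f7fb81a7e08010051
 z z) (n 0 z z)))) (n 0 (n 0 (n
 0xd87485e8607607a18218208618a18208218207df81f7df86276081f82081f8618a285f8618208a00041 z z) (n 0
 z (n 0 z (n 0 (n 8656699 z z) z)))) (n 0 (n 0 z (n 0 z (n 0 z (n 0 z z)))) (n 0 (n 0 z (n 0 z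
 (n 0 z (n 0 z z)))) (n 0 (n 0 z (n 0 z (n 0 z (n 0 z z)))) (n 0 (n 0 z (n 0 z (n 0 z (n 0 z
 z)))) (n 0 (n 0 z (n 0 z (n 0 z (n 0 z z)))) (n 0 (n 0 z (n 0 z (n 0 z (n 0 z z)))) (n 0 (n 0 z
 (n 0 z (n 0 (n 8659299 z z) (n 0 z z)))) (n 0 (n 0 z (n 0 z (n 0 (n
 0x5c8307d189c7dc7907f482a8537f17cb8108357fe7c974d8f874c7ac8088a57338e678f85a7c88578ca7b88017f58767db6c384c7638c682e73c7fc84080e80e8617f07ce7c38947f78287cd8030051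
 z (n
 0x4d8767cd8cd7db7478008258aa7ee7e87f884f80779370896d6fc7c17f28d56e59637448617a08b68e27b78007e38be7d867383772190a87d73a77d81983d7da8a57c17937458d285783d75d84b0051
 z z)) (n 0 z z)))) z))))))))))))) (n 587 (n 0 (n 0 z (n 0 z (n 0 z (n 0 z z)))) (n 0 (n 0 z (n
 0 z (n 0 z (n 0 z z)))) (n 0 (n 0 z (n 0 z (n 0 z (n 0 z z)))) (n 0 (n 0 z (n 0 z (n 0 z (n 0 z
 z)))) (n 0 (n 0 z (n 0 z (n 0 z (n 0 z z)))) (n 0 (n 0 z (n 0 z (n 0 z (n 0 z z)))) (n 0 (n 0 z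
 (n 0 z (n 0 z (n 0 z z)))) (n 0 (n 0 z (n 0 z (n 0 z (n 0 z z)))) (n 0 (n 0 z (n 0 z (n 0 (n
 8782363 z (n 8782363 z z)) (n 0 z z)))) (n 0 (n 0 (n 7477339 z (n
 0x70c6ec4a078627a08207e186182181e86082082181f81f86182079e8a18628208207df7e079f86181f8600801 z
 z)) (n 0 z (n 0 z (n 0 (n 8860227 z (n 8860227 z z)) z)))) z)))))))))) (n 33 (n 0 (n 0 z (n 0 z
 (n 0 z (n 0 z z)))) (n 0 (n 0 z (n 0 z (n 0 z (n 0 z z)))) (n 0 (n 0 z (n 0 z (n 0 z (n 0 z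
 z)))) (n 0 (n 0 z (n 0 z (n 0 z (n 0 z z)))) (n 0 (n 0 z (n 0 z (n 0 z (n 0 z z)))) (n 0 (n 0 z
 (n 0 z (n 0 z (n 0 z z)))) (n 0 (n 0 z (n 0 z (n 0 z (n 0 z z)))) (n 0 (n 0 z (n 0 z (n 0 z (n
 0 z z)))) (n 0 (n 0 (n
 0xd87581f8607607e086081f8608a182086181f81f8207e08207a07e07e18208218638608617e18600041 z (n
 0x1c86285d8217227627e28208a192279f8617df7e07a08207e282082185e8208208a38207a08217df0041 z z)) (n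
 0 z (n 0 (n
 0xd87581f8607607e086081f8608e182086181f8207df7e08617a17e07e081f8618228608608208200041 z (n
 0xc87685f8217a17a17e18608218a17e082081f7e07e082082182082181f8208208618207e08208200041 z z)) (n
 0 (n 0x587281f8607a17e082081f86086182082182081f8208208207a08207e08208208628208618208600041 z (n
 0x1c86285d8217227627e28208a192279f8617df7e07a08207e282082185e8208208a38207a08217df0041 z z))
 z)))) z))))))))) (n 9 (n 0 (n 0 z (n 0 z (n 0 z (n 0 z z)))) (n 0 (n 0 z (n 0 z (n 0 (n 8869387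
 z (n 8869387 z z)) (n 0 z z)))) (n 0 (n 0 z (n 0 z (n 0 z (n 0 z z)))) (n 0 (n 0 z (n 0 z (n 0
 z (n 0 z z)))) (n 0 (n 0 z (n 0 z (n 0 z (n 0 z z)))) (n 0 (n 0 z (n 0 z (n 0 z (n 0 z z)))) (n
 0 (n 0 z (n 0 z (n 0 z (n 0 z z)))) (n 0 (n 0 (n 8794195 z (n 8794195 z z)) (n 0 z (n 0 (n
 8794195 z (n 8794195 z z)) (n 0 z z)))) (n 0 (n 0 z (n 0 z (n 0 z (n 0 z z)))) (n 0 (n 0 (n
 0xc87685f8217a17a17e08608618a17e082081f7e07e082082182082081f8208208618207e08218200041 z z) (n 0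
 z (n 0 z (n 0 z z)))) (n 0 (n 0 z (n 0 z (n 0 z (n 0 z z)))) (n 0 (n 0 z (n 0 z (n 0 z (n 0 z
 z)))) z)))))))))))) (n 177 (n 0 (n 0 z (n 0 z (n 0 z (n 0 z z)))) (n 0 (n 0 z (n 0 z (n 0 z (n
 0 z z)))) (n 0 (n 0 z (n 0 z (n 0 z (n 0 z z)))) (n 0 (n 0 z (n 0 z (n 0 z (n 0 z z)))) (n 0 (n
 0 z (n 0 z (n 0 z (n 0 z z)))) (n 0 (n 0 z (n 0 z (n 0 z (n 0 z z)))) (n 0 (n 0 (n
 0x4487680180f8077e67f87fa81e7fa80a8028148057e87e18387db8057e78157e384b7cf8087e983181380f7fb7ed8378087d97e37c684a8248057ad7d78287d284c7f57de7bb80084082b7b58200051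
 z (n
 0x30caeca60786281e82082282182081f8608607e17e081f8218207df82185f8208208207e182082182085f0801 z
 z)) (n 0 z (n 0 (n
 0xd87681e8a07207e282181f8a08e282086181f7df81f81f8617607df7e181f8608a285f8618208a00041 z (n
 0x2487181e8217217217a085e89f8e07a07e085f8608208a06e08618a07de8607e07a18248208208210041 z z)) (n
 0 (n 8656699 z (n
 0x30caca46078617df89f8618618227e07e08607e181f7e082182081f82085f8208207e082082082185f8610801 z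
 z)) z)))) (n 0 (n 0 z (n 0 z (n 0 z (n 0 z z)))) (n 0 (n 0 z (n 0 z (n 0 z (n 0 z z)))) (n 0 (n
 0 z (n 0 z (n 0 z (n 0 z z)))) (n 0 (n 0 z (n 0 z (n 0 z (n 0 z z)))) (n 0 (n 0 z (n 0 z (n 0 z
 (n 0 z z)))) (n 0 (n 0 z (n 0 z (n 0 z (n 0 z z)))) (n 0 (n 0 z (n 0 z (n 0 z (n 0 z z)))) (n 0
 (n 0 z (n 0 z (n 0 z (n 0 z z)))) z))))))))))))))) (n 39 (n 0 (n 0 z (n 0 z (n 0 z (n 0 z z))))
 (n 0 (n 0 z (n 0 z (n 0 z (n 0 z z)))) (n 0 (n 0 z (n 0 z (n 0 z (n 0 z z)))) (n 0 (n 0 z (n 0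
 z (n 0 z (n 0 z z)))) (n 0 (n 0 z (n 0 z (n 0 z (n 0 z z)))) (n 0 (n 0 (n
 0xc87685f8217a17a17e18608218a17e082081f7e07e082082182082181f8208208618207e08208200041 z (n
 0x4487680180f8077e67f87fa81e7fa80a8028148057e87e18387db8057e78157e384b7cf8087e983181380f7fb7ed8378087d97e37c684a8248057ad7d78287d284c7f57de7bb80084082b7b58200051
 z z)) (n 0 z (n 0 (n
 0xd87685e8617207a28218208618e282082185f7df81f7df86176081f7e081f82086285f8627e08610041 z (n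
 0x10eb0ea6078208207e17e086089f85f89f8208218208207e08208208208208208608208218208207e08200801 z
 z)) (n 0 (n
 0xd87281f8617217a182181f8a08e282082181f8208207df82176081f82082086086381f8628208610041 z (n
 0x2487281e8217217217a085e89f8e07a07e085f8608208a06e08618a07de8607e07a18248208208210041 z z))
 z)))) (n 0 (n 0 z (n 0 z (n 0 z (n 0 (n 8803379 z z) z)))) (n 0 (n 0 z (n 0 z (n 0 z (n 0 z
 z)))) z)))))))) (n 129 (n 0 (n 0 z (n 0 z (n 0 z (n 0 z z)))) (n 0 (n 0 z (n 0 z (n 0 z (n 0 z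
 z)))) (n 0 (n 0 z (n 0 z (n 0 z (n 0 z z)))) (n 0 (n 0 z (n 0 z (n 0 z (n 0 z z)))) (n 0 (n 0 z
 (n 0 z (n 0 z (n 0 z z)))) (n 0 (n 0 z (n 0 z (n 0 z (n 0 z z)))) (n 0 (n 0 z (n 0 z (n 0 z (n
 0 z z)))) (n 0 (n 0 (n
 0xc87181f8217a17a17e085f85f8a08208208208208208207a082186081f8208207e08228207df8200041 z z) (n 0
 z (n 0 z (n 0 (n
 0x1c87389d8207227a27e286086192279f86181f7df7e08207e382082185e82081f8628207a08218200041 z z)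
 z)))) (n 0 (n 0 z (n 0 z (n 0 z (n 0 (n 8803379 z z) z)))) (n 0 (n 0 z (n 0 z (n 0 z (n 0 z
 z)))) (n 0 (n 0 z (n 0 z (n 0 z (n 0 z z)))) (n 0 (n 0 z (n 0 z (n 0 z (n 0 z z)))) (n 0 (n 0 z
 (n 0 z (n 0 z (n 0 z z)))) (n 0 (n 0 z (n 0 z (n 0 z (n 0 z z)))) z)))))))))))))) (n 3 (n 0 (n
 0 z (n 0 z (n 0 z (n 0 z z)))) (n 0 (n 0 z (n 0 z (n 0 z (n 0 z z)))) (n 0 (n 0 z (n 0 z (n 0 z
 (n 0 z z)))) (n 0 (n 0 z (n 0 z (n 0 z (n 0 z z)))) (n 0 (n 0 z (n 0 z (n 0 z (n 0 z z)))) (n 0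
 (n 0 z (n 0 z (n 0 z (n 0 z z)))) (n 0 (n 0 z (n 0 z (n 0 z (n 0 z z)))) (n 0 (n 0 z (n 0 z (n
 0 z (n 0 z z)))) (n 0 (n 0 z (n 0 z (n 0 z (n 0 z z)))) z))))))))) (n 179 (n 0 (n 0 z (n 0 z (n
 0 z (n 0 z z)))) (n 0 (n 0 z (n 0 z (n 0 z (n 0 z z)))) (n 0 (n 0 (n 8803379 z z) (n 0 z (n 0 z
 (n 0 z z)))) (n 0 (n 0 z (n 0 z (n 0 z (n 0 z z)))) (n 0 (n 0 (n 8782363 z z) (n 0 z (n 0 z (n
 0 z z)))) (n 0 (n 0 z (n 0 z (n 0 z (n 0 z z)))) (n 0 (n 0 z (n 0 z (n 0 z (n 0 z z))))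
 z))))))) (n 45 (n 0 (n 0 z (n 0 z (n 0 z (n 0 z z)))) (n 0 (n 0 z (n 0 z (n 0 z (n 0 z z)))) (n
 0 (n 0 z (n 0 z (n 0 z (n 0 z z)))) (n 0 (n 0 z (n 0 z (n 0 z (n 0 z z)))) (n 0 (n 0 (n
 0xc87685f8217a17a17e18608218a17e082081f7e07e082082182082181f8208208618207e08208200041 z z) (n 0
 z (n 0 z (n 0 z z)))) (n 0 (n 0 z (n 0 z (n 0 z (n 0 z z)))) (n 0 (n 0 z (n 0 z (n 0 z (n 0 z
 z)))) (n 0 (n 0 z (n 0 z (n 0 z (n 0 z z)))) (n 0 (n 0 z (n 0 z (n 0 z (n 0 z z)))) (n 0 (n 0 z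
 (n 0 z (n 0 z (n 0 z z)))) (n 0 (n 0 z (n 0 z (n 0 z (n 0 z z)))) (n 0 (n 0 (n
 0x4487080180f8077e67f87fa81e7fa80a8028148057e87e18387db8057e78157e384b7cf8087e983181380f7fb7ed8378087d97e37c684a8248057ad7d78287d284c7f57de7bb80084082b7b58200051
 z z) (n 0 z (n 0 z (n 0 (n
 0x1587285e8607207e18218208618e282082181f82081f7df86176081f7e181f8608648208627e08600041 z z)
 z)))) (n 0 (n 0 z (n 0 z (n 0 (n 8803379 z z) (n 0 z z)))) z))))))))))))) (n 131 (n 0 (n 0 z (n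
 0 z (n 0 z (n 0 z z)))) (n 0 (n 0 z (n 0 z (n 0 z (n 0 z z)))) (n 0 (n 0 z (n 0 z (n 0 z (n 0 z
 z)))) (n 0 (n 0 z (n 0 z (n 0 z (n 0 z z)))) (n 0 (n 0 z (n 0 z (n 0 z (n 0 z z)))) (n 0 (n 0 z
 (n 0 z (n 0 z (n 0 z z)))) (n 0 (n 0 z (n 0 z (n 0 z (n 0 z z)))) (n 0 (n 0 z (n 0 z (n 0 z (n
 0 z z)))) (n 0 (n 0 z (n 0 z (n 0 z (n 0 z z)))) (n 0 (n 0 z (n 0 z (n 0 z (n 0 z z)))) (n 0 (n
 0 z (n 0 z (n 0 z (n 0 z z)))) (n 0 (n 0 z (n 0 z (n 0 z (n 0 z z)))) z)))))))))))) (n 5 (n 0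
 (n 0 (n 8869387 z z) (n 0 z (n 0 z (n 0 z z)))) (n 0 (n 0 z (n 0 z (n 0 z (n 0 z z)))) (n 0 (n
 0 z (n 0 z (n 0 z (n 0 z z)))) (n 0 (n 0 z (n 0 z (n 0 z (n 0 z z)))) (n 0 (n 0 z (n 0 z (n 0 z
 (n 0 z z)))) (n 0 (n 0 z (n 0 z (n 0 z (n 0 z z)))) (n 0 (n 0 z (n 0 z (n 0 z (n 0 z z)))) (n 0
 (n 0 z (n 0 (n 8521547 z z) (n 0 z (n 0 z z)))) (n 0 (n 0 (n
 0x1c87085d8217227627e28208a192279f8617df7e07a08207e282082185e8208208a38207a08217df0041 z z) (n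
 0 z (n 0 z (n 0 (n
 0xd87285e8607607e182181f8618a282082181f7e081f81f8617a081f7e182082086281f8618208600041 z z)
 z)))) (n 0 (n 0 (n 2164795 z (n 2164795 z z)) (n 0 z (n 0 z (n 0 (n 2164795 z (n 2164795 z z))
 z)))) z)))))))))) (n 4 (n 0 (n 0 z (n 0 z (n 0 z (n 0 z z)))) (n 0 (n 0 z (n 0 z (n 0 z (n 0 z
 z)))) (n 0 (n 0 z (n 0 z (n 0 z (n 0 z z)))) (n 0 (n 0 z (n 0 z (n 0 z (n 0 z z)))) (n 0 (n 0 z
 (n 0 z (n 0 z (n 0 z z)))) (n 0 (n 0 z (n 0 z (n 0 z (n 0 z z)))) (n 0 (n 0 z (n 0 z (n 0 z (n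
 0 z z)))) (n 0 (n 0 z (n 0 z (n 0 z (n 0 z z)))) (n 0 (n 0 z (n 0 z (n 0 z (n 0 z z)))) (n 0 (n
 0 z (n 0 z (n 0 z (n 0 z z)))) (n 0 (n 0 z (n 0 z (n 0 z (n 0 z z)))) (n 0 (n 0 z (n 0 z (n 0 z
 (n 0 z z)))) z)))))))))))) (n 177 (n 0 (n 0 z (n 0 z (n 0 z (n 0 z z)))) (n 0 (n 0 z (n 0 z (n
 0 z (n 0 z z)))) (n 0 (n 0 z (n 0 z (n 0 (n
 0xd87581f8607607e086085f8608e186086181f81f8207e08217a07e08217df8218638608618208600041 z z) (n 0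
 z z)))) (n 0 (n 0 z (n 0 z (n 0 z (n 0 z z)))) (n 0 (n 0 z (n 0 z (n 0 z (n 0 z z)))) (n 0 (n 0
 z (n 0 z (n 0 z (n 0 z z)))) (n 0 (n 0 z (n 0 z (n 0 z (n 0 z z)))) (n 0 (n 0 z (n 0 z (n 0 z
 (n 0 z z)))) z)))))))) (n 33 (n 0 (n 0 z (n 0 z (n 0 z (n 0 z z)))) (n 0 (n 0 z (n 0 z (n 0 z
 (n 0 z z)))) z)) (n 129 (n 0 (n 0 z (n 0 z (n 0 z (n 0 z z)))) (n 0 (n 0 z (n 0 z (n 0 z (n 0 z
 z)))) (n 0 (n 0 z (n 0 z (n 0 z (n 0 z z)))) (n 0 (n 0 z (n 0 z (n 0 z (n 0 z z)))) (n 0 (n 0 z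
 (n 0 z (n 0 z (n 0 z z)))) (n 0 (n 0 (n 8794195 z z) (n 0 z (n 0 z (n 0 z z)))) (n 0 (n 0 z (n
 0 z (n 0 z (n 0 (n 8855811 z z) z)))) (n 0 (n 0 z (n 0 z (n 0 (n 8798739 z z) (n 0 z z)))) (n 0
 (n 0 (n 8803379 z z) (n 0 z (n 0 z (n 0 z z)))) (n 0 (n 0 z (n 0 (n 8787771 z (n 8521547 z z))
 (n 0 (n
 0x748757c58c47d37757f18338677ed7be8148427fe7bb71f93571f79780a8cf70091f7728717bb86d8fc7a78017f38937d267385e73b8f883970a7fb8508128118797ed7c17b48b97f68327c08030051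
 z (n 8787723 z z)) (n 0 z z)))) (n 0 (n 0 z (n 0 z (n 0 z (n 0 z z)))) z))))))))))) (n 3 (n 0
 (n 0 z (n 0 z (n 0 z (n 0 z z)))) (n 0 (n 0 (n
 0x1487085e8207617a28218608619217df82181f7df7e08207e182086181f8608208618207a08208200041 z (n
 0x1854840203810a50a400781f8627e181f82081f8208208208208208208218208208208208208608208208208208208201001
 z z)) (n 0 z (n 0 z (n 0 (n
 0x1587081e8a16e07a282181f8a192282082281f7e081f7df86272081f7e17df8608a485f8628208610041 z (n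
 0x1587081e8a16a076186181e8e092286086381e81e8207e08607217e07a17df8618a58608a28208600041 z z))
 z)))) (n 0 (n 0 z (n 0 z (n 0 z (n 0 z z)))) (n 0 (n 0 z (n 0 z (n 0 z (n 0 z z)))) (n 0 (n 0 z
 (n 0 z (n 0 z (n 0 z z)))) (n 0 (n 0 z (n 0 z (n 0 z (n 0 z z)))) (n 0 (n 0 z (n 0 z (n 0 (n
 8798739 z z) (n 0 z z)))) (n 0 (n 0 z (n 0 z (n 0 z (n 0 z z)))) (n 0 (n 0 z (n 0 z (n 0 z (n 0
 z z)))) (n 0 (n 0 z (n 0 z (n 0 z (n 0 z z)))) (n 0 (n 0 z (n 0 z (n 0 z (n 0 z z)))) (n 0 (n 0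
 z (n 0 z (n 0 z (n 0 z z)))) (n 0 (n 0 z (n 0 z (n 0 z (n 0 z z)))) (n 0 (n 0 z (n 0 z (n 0 z
 (n 0 z z)))) (n 0 (n 0 (n 8782363 z (n 7475331 z z)) (n 0 z (n 0 (n 8782363 z (n 8782363 z z))
 (n 0 (n 7475331 z (n 8782363 z z)) z)))) (n 0 (n 0 z (n 0 z (n 0 z (n 0 z z))))
 z)))))))))))))))) (n 1 (n 0 (n 0 z (n 0 z (n 0 z (n 0 z z)))) (n 0 (n 0 z (n 0 z (n 0 z (n 0 z
 z)))) (n 0 (n 0 z (n 0 z (n 0 z (n 0 z z)))) (n 0 (n 0 z (n 0 z (n 0 z (n 0 z z)))) (n 0 (n 0 z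
 (n 0 z (n 0 z (n 0 z z)))) (n 0 (n 0 z (n 0 z (n 0 z (n 0 z z)))) (n 0 (n 0 z (n 0 z (n 0 z (n
 0 z z)))) z))))))) (n 0 (n 0 (n 0 (n 8803379 z z) (n 0 z (n 0 z (n 0 z z)))) (n 0 (n 0 z (n 0 z
 (n 0 z (n 0 z z)))) (n 0 (n 0 z (n 0 z (n 0 z (n 0 z z)))) (n 0 (n 0 z (n 0 z (n 0 z (n 0 z
 z)))) (n 0 (n 0 z (n 0 z (n 0 z (n 0 z z)))) (n 0 (n 0 z (n 0 z (n 0 z (n 0 z z)))) (n 0 (n 0 z
 (n 0 z (n 0 z (n 0 z z)))) (n 0 (n 0 z (n 0 z (n 0 z (n 0 z z)))) (n 0 (n 0 z (n 0 z (n 0 z (n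
 0 z z)))) z))))))))) z))))))))))))))))))))) z)))) z) z)))) z)))))))))), by decide +kernel⟩
theorem i10818 : ∃ t, chkR KT RW t 10818 10825 = true := ⟨(n
 0x1224d81656408932204970d1b23089932824a240950da31cb418d310862441312240 (n 0x22449 (n 477 (n 2 z
 (n 3282443 z z)) (n 475 (n 10 z (n 3278363 z (n 18 z (n 0 z (n 0 z (n 26 z (n 34 z (n 0 z
 z)))))))) (n 476 (n 42 z (n 3212843 z (n 50 z (n 0 z (n 0 z (n 58 z (n 66 z z))))))) (n 27 (n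
 2164283 z (n 74 z z)) (n 1 (n 0 z (n 0 z (n 2164299 z (n 82 z (n 90 z (n 0 z z)))))) (n 0 (n 0
 z (n 2164315 z (n 98 z (n 0 z (n 0 z z))))) z)))))) (n 477 (n 0 (n 951 (n 0 z (n 0 z (n 0 z (n
 0 z (n 0 z (n 0 z (n 0 z (n 0 z (n 0 z (n 0 z (n 0 z z))))))))))) (n 951 (n 0 z (n 0 z (n 0 z
 (n 2 (n 0 z (n 0 z (n 1 z (n 1 z (n 1 z (n 2 (n 0 z (n 0 z (n 0 (n 3796 z z) (n 0 z (n 0 z (n 0
 z z)))))) (n 1 z (n 1 z (n 1 z (n 1 z z)))))))))) (n 0 z (n 0 z (n 0 z (n 0 z (n 0 z (n 0 z (n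
 0 z z))))))))))) (n 951 (n 0 z (n 0 z (n 0 z (n 0 z (n 0 z (n 0 z (n 0 z (n 0 z (n 0 z (n 0 z
 (n 0 z z))))))))))) (n 951 (n 0 z (n 0 z (n 0 z (n 0 z (n 0 z (n 0 z (n 0 z (n 0 z (n 0 z (n 2
 (n 1 z (n 1 z (n 2 (n 0 z (n 0 z (n 0 (n 3796 z z) (n 0 z (n 0 z (n 0 z z)))))) (n 2 (n 0 z (n
 0 z (n 0 z (n 0 z (n 0 z (n 0 z z)))))) (n 1 z (n 1 z (n 2 (n 0 z (n 0 z (n 0 z (n 0 z (n 0 z
 (n 0 z z)))))) (n 1 z z)))))))) (n 0 z z))))))))))) (n 949 (n 0 z (n 0 z (n 0 z (n 0 z (n 0 z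
 (n 0 z (n 0 z (n 0 z (n 0 z (n 0 z (n 0 z (n 0 z (n 0 z (n 0 z (n 0 z (n 0 z (n 0 z (n 0 z (n 0
 z (n 0 z (n 0 z z))))))))))))))))))))) (n 949 (n 0 z (n 0 z (n 0 z (n 0 z (n 0 z (n 0 z (n 0 z
 (n 0 z (n 0 z (n 0 z (n 0 z (n 0 z (n 0 z (n 0 z (n 0 z (n 0 z (n 0 z (n 0 z (n 0 z (n 0 z (n 0
 z z))))))))))))))))))))) (n 949 (n 0 z (n 0 z (n 0 z (n 0 z (n 0 z (n 0 z (n 0 z (n 0 z (n 0 z
 (n 0 z (n 0 z (n 0 z (n 0 z (n 0 z (n 0 z (n 0 z (n 0 z (n 0 z (n 0 z (n 0 z (n 0 z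
 z))))))))))))))))))))) (n 949 (n 0 z (n 0 z (n 0 z (n 0 z (n 0 z (n 0 z (n 0 z (n 0 z (n 0 z (n
 0 z (n 0 z (n 0 z (n 0 z (n 0 z (n 0 z (n 0 z (n 0 z (n 2 (n 1 z (n 1 z (n 2 (n 0 z (n 0 z (n 0
 z (n 0 z (n 0 z (n 0 z z)))))) (n 1 z z)))) (n 0 z (n 0 z (n 0 z z))))))))))))))))))))) (n 55
 (n 0 z (n 0 z (n 0 z (n 0 z z)))) (n 3 (n 0 z (n 0 z (n 0 z (n 0 z (n 0 z (n 0 z (n 0 z (n 0 z
 (n 0 z (n 0 z (n 0 z (n 0 z (n 0 z (n 0 z (n 0 z (n 0 z z)))))))))))))))) (n 3 (n 0 z (n 0 z (n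
 0 z (n 0 z (n 0 z (n 0 z (n 7749939 z (n 0 z (n 0 z (n 0 z (n 0 z (n 0 z (n 0 z (n 0 z (n 0 z
 (n 0 z z)))))))))))))))) (n 1 (n 0 z (n 0 z (n 0 z (n 0 z (n 0 z (n 0 z z)))))) z))))))))))))
 (n 0 (n 0 z (n 0 z (n 0 z (n 953 (n 0 z (n 0 z (n 0 z (n 0 z (n 0 z (n 0 z (n 0 z (n 0 z (n 0 z
 (n 0 z (n 0 z z))))))))))) (n 953 (n 0 z (n 0 z (n 7749939 z (n 0 z (n 0 z (n 0 z (n 0 z (n 0 z
 (n 0 z (n 0 z (n 0 z z))))))))))) (n 953 (n 0 z (n 0 z (n 0 z (n 0 z (n 0 z (n 0 z (n 0 z (n 0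
 z (n 0 z (n 0 z (n 2 (n 0 z (n 1 z (n 1 z (n 2 (n 0 z (n 0 z (n 0 (n 8798515 z z) (n 0 z (n 0 z
 (n 0 z z)))))) (n 1 z z))))) z))))))))))) (n 953 (n 0 z (n 0 z (n 0 z (n 0 z (n 0 z (n 0 z (n 0
 z (n 0 z (n 2 (n 1 z (n 1 z (n 2 (n 0 z (n 0 z (n 0 z (n 0 z (n 0 z (n 0 z z)))))) (n 1 z z))))
 (n 0 z (n 0 z z))))))))))) (n 295 (n 0 z (n 0 z (n 0 z (n 0 z (n 0 z (n 0 z (n 0 z (n 0 z (n 0
 z (n 0 z (n 0 z z))))))))))) (n 243 (n 0 z (n 0 z (n 0 z (n 0 z (n 0 z (n 0 z (n 0 z (n 0 z (n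
 0 z (n 0 z (n 0 z z))))))))))) (n 243 (n 0 z (n 0 z (n 7749939 z (n 0 z (n 0 z (n 0 z (n 0 z (n
 0 z (n 0 z (n 0 z (n 0 z z))))))))))) (n 293 (n 0 z (n 0 z (n 0 z (n 0 z (n 0 z (n 0 z (n 0 z
 (n 0 z (n 0 z (n 0 z (n 0 z (n 0 z (n 0 z (n 0 z (n 0 z (n 0 z (n 0 z (n 0 z (n 0 z (n 0 z (n 0
 z (n 0 z (n 0 z (n 0 z (n 0 z (n 0 z (n 0 z (n 0 z (n 0 z (n 0 z (n 0 z (n 0 z (n 0 z
 z))))))))))))))))))))))))))))))))) z))))))))))) (n 0 (n 0 z (n 0 z (n 953 (n 2 (n 0 z (n 0 z (n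
 0 z (n 1 z (n 1 z (n 1 z (n 1 z z))))))) (n 0 z (n 0 z (n 0 z (n 0 z (n 0 z (n 0 z (n 0 z
 z)))))))) (n 953 (n 0 z (n 0 z (n 2 (n 0 z (n 0 z (n 1 z (n 1 z (n 1 z (n 1 z z)))))) (n 0 z (n
 0 z (n 0 z (n 0 z (n 0 z z)))))))) (n 953 (n 0 z (n 0 z (n 0 z (n 0 z (n 0 z (n 0 z (n 0 z (n 2
 (n 0 z (n 1 z (n 1 z (n 2 (n 0 z (n 0 z (n 0 z (n 0 z (n 0 z (n 0 z z)))))) (n 1 z z)))))
 z)))))))) (n 953 (n 0 z (n 0 z (n 0 z (n 0 z (n 0 z (n 0 z (n 0 z (n 0 z z)))))))) (n 399 (n 0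
 z (n 0 z (n 0 z (n 0 z (n 0 z (n 2 (n 1 z (n 1 z (n 1 z z))) (n 0 z (n 0 z (n 0 z z))))))))) (n
 483 (n 0 z (n 0 z (n 0 z (n 0 z (n 2 (n 0 z (n 1 z z)) (n 0 z z)))))) (n 483 (n 0 z (n 0 z (n 0
 z (n 0 z (n 0 z (n 0 z z)))))) (n 401 (n 2 z (n 0 z (n 0 z (n 0 z (n 0 z (n 0 z (n 0 z (n 0 z
 (n 0 z (n 0 z (n 0 z (n 0 z (n 0 z z))))))))))))) z)))))))))) (n 0 (n 0 z (n 949 (n 0 z (n 0 z
 (n 0 z z))) (n 949 (n 0 z (n 0 z (n 0 z z))) (n 949 (n 0 z (n 0 z (n 0 z z))) (n 949 (n 0 z (n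
 2 (n 2 (n 0 z (n 0 z (n 0 (n 8803139 z z) (n 0 z (n 0 z (n 0 z z)))))) (n 2 (n 0 z (n 0 z (n 0
 (n 252 z z) (n 0 z (n 0 z (n 0 z z)))))) (n 2 (n 0 z (n 0 z (n 0 z (n 0 z (n 0 z (n 0 z z))))))
 (n 1 z z)))) (n 0 z z))) (n 507 (n 0 z (n 0 z (n 0 z (n 0 z (n 0 z (n 0 z (n 0 z z))))))) (n 63
 (n 0 z (n 0 z (n 0 z (n 0 z (n 0 z (n 0 z (n 0 z (n 0 z (n 0 z (n 0 z (n 0 z (n 0 z (n 0 z (n 0
 z (n 0 z (n 0 z (n 0 z (n 0 z (n 0 z (n 0 z (n 0 z (n 0 z (n 0 z (n 0 z (n 0 z (n 2 (n 0 z (n 1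
 z z)) (n 0 z (n 0 z (n 0 z (n 0 z (n 0 z z))))))))))))))))))))))))))))))) (n 63 (n 0 z (n 0 z
 (n 0 z (n 0 z (n 0 z (n 0 z (n 0 z (n 0 z (n 0 z (n 0 z (n 0 z (n 0 z (n 0 z (n 0 z (n 0 z (n 0
 z (n 0 z (n 0 z (n 0 z (n 0 z (n 0 z (n 0 z (n 0 z (n 0 z (n 0 z (n 0 z (n 0 z (n 0 z (n 0 z (n
 0 z (n 0 z z))))))))))))))))))))))))))))))) (n 505 (n 0 z (n 0 z (n 0 z (n 0 z z)))) z)))))))))
 (n 0 (n 1385 (n 2 (n 0 z (n 0 z (n 0 z (n 1 z (n 1 z (n 2 (n 0 z (n 0 z (n 0 z (n 0 z (n 0 z (n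
 0 z z)))))) (n 1 z z))))))) (n 0 z (n 0 z (n 0 z (n 0 z (n 0 z (n 0 z z))))))) (n 1385 (n 0 z
 (n 0 z (n 0 z (n 0 z (n 0 z (n 0 z (n 0 z z))))))) (n 1385 (n 0 z (n 0 z (n 0 z (n 0 z (n 0 z
 (n 0 z (n 2 (n 0 z (n 1 z (n 1 z (n 2 (n 0 z (n 0 z (n 0 z (n 0 z (n 0 z (n 0 z z)))))) (n 1 z
 z))))) z))))))) (n 1385 (n 0 z (n 0 z (n 0 z (n 0 z (n 0 z (n 0 z (n 0 z z))))))) (n 1049 (n 2
 (n 1 z (n 2 (n 0 z (n 0 z (n 0 z (n 0 z (n 0 z (n 0 z z)))))) (n 1 z z))) (n 0 z (n 0 z (n 0 z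
 (n 0 z (n 0 z (n 0 z z))))))) (n 1357 (n 2 (n 0 z (n 1 z z)) (n 0 z (n 0 z (n 0 z (n 0 z (n 0 z
 (n 0 z (n 0 z (n 0 z (n 0 z (n 0 z (n 0 z (n 0 z (n 0 z (n 0 z (n 0 z (n 0 z (n 0 z (n 0 z (n 0
 z (n 0 z (n 0 z (n 0 z (n 0 z (n 0 z (n 0 z z)))))))))))))))))))))))))) (n 1357 (n 0 z (n 0 z
 (n 0 z (n 0 z (n 0 z (n 0 z (n 0 z (n 0 z (n 0 z (n 0 z (n 0 z (n 0 z (n 0 z (n 0 z (n 0 z (n 0
 z (n 0 z (n 0 z (n 0 z (n 0 z (n 0 z (n 0 z (n 0 z (n 0 z (n 0 z (n 0 z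
 z)))))))))))))))))))))))))) (n 1037 (n 2 z (n 0 z (n 0 z (n 0 z (n 0 z z))))) z)))))))) (n 0 (n
 0 z (n 0 z (n 0 z (n 535 (n 0 z (n 0 z (n 0 z (n 0 z (n 0 z (n 0 z (n 0 z z))))))) (n 531 (n 0
 z (n 0 z (n 0 z (n 0 z (n 0 z (n 0 z (n 0 z (n 0 z (n 0 z (n 0 z (n 0 z (n 0 z z)))))))))))) (n
 531 (n 0 z (n 0 z (n 0 z (n 0 z (n 7749939 z (n 0 z (n 0 z (n 0 z (n 0 z (n 0 z (n 0 z (n 0 z
 z)))))))))))) (n 529 (n 0 z (n 0 z (n 0 z (n 0 z (n 0 z (n 0 z (n 0 z (n 0 z (n 0 z (n 0 z (n 0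
 z (n 0 z (n 0 z (n 0 z (n 0 z (n 0 z (n 0 z (n 0 z (n 0 z (n 0 z (n 0 z (n 0 z (n 0 z (n 0 z (n
 0 z (n 0 z (n 0 z z))))))))))))))))))))))))))) z))))))) (n 0 (n 0 z (n 0 z (n 247 (n 0 z (n 0 z
 (n 0 z (n 0 z z)))) (n 243 (n 0 z (n 0 z (n 0 z (n 0 z (n 0 z (n 0 z (n 0 z (n 0 z (n 0 z (n 0
 z (n 0 z z))))))))))) (n 243 (n 0 z (n 0 z (n 0 z (n 0 z (n 0 z (n 0 z (n 0 z (n 0 z (n 0 z (n
 0 z (n 0 z z))))))))))) (n 653 (n 0 z (n 0 z (n 0 z (n 0 z (n 0 z (n 0 z (n 0 z (n 0 z (n 0 z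
 (n 0 z (n 0 z (n 0 z (n 0 z (n 0 z (n 0 z (n 0 z (n 0 z (n 0 z (n 0 z (n 0 z (n 0 z
 z))))))))))))))))))))) z)))))) (n 0 (n 0 z (n 1337 (n 0 z (n 0 z (n 0 z (n 0 z (n 0 z (n 0 z
 z)))))) (n 857 (n 0 z (n 0 z (n 0 z (n 0 z (n 0 z (n 0 z (n 0 z (n 0 z (n 0 z (n 0 z (n 0 z
 z))))))))))) (n 857 (n 0 z (n 0 z (n 0 z (n 0 z (n 0 z (n 0 z (n 2 (n 1 z z) (n 0 z (n 0 z (n 0
 z (n 0 z z))))))))))) (n 833 (n 2 z (n 0 z (n 0 z (n 0 z (n 0 z (n 0 z (n 0 z z))))))) z)))))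
 (n 0 (n 1097 (n 2 (n 1 z (n 2 (n 0 z (n 0 z (n 0 z (n 0 z (n 0 z (n 0 z z)))))) (n 1 z z))) (n
 0 z (n 0 z (n 0 z (n 0 z (n 0 z (n 0 z z))))))) (n 261 (n 0 z (n 0 z (n 2 (n 0 z (n 1 z z)) (n
 0 z (n 0 z z))))) (n 261 (n 0 z (n 0 z (n 0 z (n 0 z (n 0 z z))))) (n 257 (n 0 z (n 0 z (n 0 z
 (n 0 z (n 2 z (n 0 z (n 0 z z))))))) z)))) (n 0 (n 723 (n 0 z (n 0 z (n 0 z (n 0 z (n 0 z (n 0
 z (n 0 z (n 0 z (n 0 z (n 0 z z)))))))))) (n 723 (n 0 z (n 0 z (n 0 z (n 0 z (n 2 (n 1 z z) (n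
 0 z (n 0 z (n 0 z (n 0 z (n 0 z z)))))))))) (n 733 (n 0 z (n 0 z (n 0 z (n 0 z (n 0 z (n 0 z (n
 0 z (n 0 z (n 0 z z))))))))) z))) (n 0 (n 0 z (n 961 (n 0 z (n 0 z (n 0 z (n 0 z (n 0 z (n 0 z
 (n 0 z (n 0 z (n 0 z z))))))))) z)) (n 0 (n 1 (n 0 z (n 0 z (n 0 z z))) z) (n 0 z
 z))))))))))))) (n 0 (n 1 (n 2 z (n 3804 z (n 3804 z (n 3804 z (n 3804 z (n 3804 z z)))))) (n 1
 (n 3282443 z (n 3282443 z (n 3282443 z (n 3282443 z (n 3282443 z (n 3282443 z z)))))) z)) (n 0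
 (n 0x90d1b290da3154c421 (n 0 (n 0 (n 7741699 z (n 7741699 z (n 7741699 z (n 7741699 z (n
 7741699 z (n 7741699 z z)))))) z) (n 0 (n 477 (n 1 (n 7749939 z (n 7749939 z (n 7749939 z (n
 7749939 z (n 7749939 z (n 7749939 z z)))))) (n 1 (n 7475299 z (n 3282699 z (n 3282699 z (n
 3282699 z (n 3282699 z (n 3282699 z z)))))) z)) (n 475 (n 1 (n 7741699 z (n 7741699 z (n
 7741699 z (n 7741699 z (n 7741699 z (n 7741699 z z)))))) (n 1 (n 7741699 z (n 7741699 z (n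
 7741699 z (n 7741699 z (n 7741699 z (n 7741699 z z)))))) (n 1 (n 7475299 z (n 2 z (n 3820 z (n
 7476747 z (n 3820 z (n 3820 z z)))))) (n 0 z (n 0 z (n 1 (n 7754563 z (n 7754563 z (n 7754563 z
 (n 7754563 z (n 7754563 z (n 7754563 z z)))))) (n 1 (n 7475299 z (n 3820 z (n 3820 z (n 10 z (n
 3820 z (n 7476747 z z)))))) (n 0 z z)))))))) (n 476 (n 1 (n 7741699 z (n 7741699 z (n 7741699 z
 (n 7741699 z (n 7741699 z (n 7741699 z z)))))) (n 1 (n 7741699 z (n 7741699 z (n 7741699 z (n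
 7741699 z (n 7741699 z (n 7741699 z z)))))) (n 1 (n 7749939 z (n 7749939 z (n 7749939 z (n
 7749939 z (n 7749939 z (n 7749939 z z)))))) (n 0 z (n 0 z (n 1 (n 7475299 z (n 3836 z (n 3836 z
 (n 7538203 z (n 3836 z (n 7476747 z z)))))) (n 1 (n 7475299 z (n 3836 z (n 3836 z (n 18 z (n
 3836 z (n 7476747 z z)))))) z))))))) (n 27 (n 1 (n 7754563 z (n 7754563 z (n 7754563 z (n
 7754563 z (n 7754563 z (n 7754563 z z)))))) (n 1 (n 7741699 z (n 7741699 z (n 7741699 z (n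
 7741699 z (n 7741699 z (n 7741699 z z)))))) z)) (n 1 (n 0 z (n 0 z (n 1 (n 7749939 z (n 7749939
 z (n 7749939 z (n 7749939 z (n 7749939 z (n 7749939 z z)))))) (n 1 (n 7741699 z (n 7741699 z (n
 7741699 z (n 7741699 z (n 7741699 z (n 7741699 z z)))))) (n 1 (n 7749939 z (n 7749939 z (n
 7749939 z (n 7749939 z (n 7749939 z (n 7749939 z z)))))) (n 0 z z)))))) (n 0 (n 0 z (n 1 (n
 7754563 z (n 7754563 z (n 7754563 z (n 7754563 z (n 7754563 z (n 7754563 z z)))))) (n 1 (n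
 7741699 z (n 7741699 z (n 7741699 z (n 7741699 z (n 7741699 z (n 7741699 z z)))))) (n 0 z (n 0
 z z))))) (n 477 (n 1 (n 7741699 z (n 7749939 z (n 7749939 z (n 7749939 z (n 7749939 z (n
 7749939 z z)))))) (n 1 (n 7741699 z (n 3282699 z (n 3282699 z (n 3282699 z (n 3282699 z (n
 3282699 z z)))))) z)) z))))))) (n 0 (n 0 (n 0 z (n 0 z (n 0 z z))) (n 0 (n 0 z (n 0 z z)) (n 0
 (n 0 z z) z))) (n 0 (n 477 (n 0 (n 0 z (n 0 z (n 0 z z))) (n 0 (n 0 z (n 0 z (n 0 z z))) (n 0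
 (n 0 z (n 0 z (n 0 z z))) (n 0 (n 0 z (n 0 z (n 0 z z))) (n 0 (n 0 z (n 0 z (n 0 z z))) (n 0 (n
 0 z (n 0 z (n 0 z z))) (n 0 (n 0 z (n 0 z (n 0 z z))) (n 0 (n 0 z (n 0 z (n 0 z z))) (n 0 (n 0
 z (n 0 z (n 0 z z))) (n 0 (n 0 z (n 0 z (n 0 z z))) (n 0 (n 0 z (n 0 z (n 0 z z))) z)))))))))))
 (n 479 (n 0 (n 0 z (n 0 z (n 0 z z))) (n 0 (n 0 z (n 0 z (n 0 z z))) (n 0 (n 0 z (n 0 z (n 0 z
 z))) (n 0 (n 0 z (n 0 z (n 0 z z))) (n 0 (n 0 z (n 0 (n 8523875 z z) (n 0 z z))) (n 0 (n 0 z (n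
 0 z (n 0 z z))) (n 0 (n 0 z (n 0 z (n 0 z z))) (n 0 (n 0 z (n 0 z (n 0 z z))) (n 0 (n 0 z (n 0
 z (n 0 z z))) (n 0 (n 0 z (n 0 z (n 0 z z))) (n 0 (n 0 z (n 0 z (n 0 (n
 0x2e830e0a038008008008008008008008008008008008008008008008008008008008018008008008008008008008008008008008008008008008008018008008008008008008008008008008008008010811
 z z) z))) (n 0 (n 0 z (n 0 z (n 0 (n
 0x16b0a6029214c015c29802a85301e30a6001190c002a98000c31087d72f87d8747fe7887348ed81087e77f88b80093e6d485c7438c17498a57c084383b76d7d478f84e79589f71b7df82780a82d8187e88cd8a37c478188577b8817e17337b578d8878177fc0211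
 z (n 7747675 z z)) z))) (n 0 (n 0 (n 8726299 z z) (n 0 z (n 0 z z))) (n 0 (n 0 z (n 0 z (n 0 z
 z))) (n 0 (n 0 z (n 0 z (n 0 z z))) (n 0 (n 0 (n 8783675 z z) (n 0 z (n 0 z z))) (n 0 (n 0 z (n
 0 (n
 0x1c98617e67f87b784481883c7dc76f7cb7ce8698537ae76f7be7da8cb7a386d8b27d88387508867d68c08148957d082188479e7ff74082f7bf7b97bd78f82c7838a778e8a384a81781c7a184a7fd0051
 z z) (n 0 z z))) (n 0 (n 0 z (n 0 z (n 0 z z))) (n 0 (n 0 z (n 0 (n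
 0x16b0e802921d0015c3a002a87401e30e8001190c002a98000c31087d72f87d8747fe7887348ed81087e77f88b80093e6d485c7438c17498a57c084383b76d7d478f84e79589f71b7df82780a82d8187e88cd8a37c478188577b8817e17337b578d8878177fc0211
 z z) (n 0 z z))) (n 0 (n 0 z (n 0 z (n 0 z z))) (n 0 (n 0 z (n 0 z (n 0 z z)))
 z))))))))))))))))))))) (n 478 (n 0 (n 0 z (n 0 z (n 0 z z))) (n 0 (n 0 z (n 0 z (n 0 z z))) (n
 0 (n 0 z (n 0 z (n 0 z z))) (n 0 (n 0 z (n 0 z (n 0 z z))) (n 0 (n 0 z (n 0 z (n 0 z z))) (n 0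
 (n 0 z (n 0 z (n 0 z z))) (n 0 (n 0 z (n 0 z (n 0 (n
 0x30eaea80078008008008008008008008008008008008008018008008008008008008018008008008008008008008008008008008008008008008008008008008008008008008008008008008008008000811
 z z) z))) (n 0 (n 0 z (n 0 z (n 0 z z))) (n 0 (n 0 z (n 0 z (n 0 z z))) (n 0 (n 0 z (n 0 z (n 0
 z z))) (n 0 (n 0 z (n 0 z (n 0 z z))) z))))))))))) (n 417 (n 0 (n 0 z (n 0 z (n 0 z z))) (n 0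
 (n 0 z (n 0 (n 8586779 z (n 8586779 z z)) (n 0 (n 8586779 z (n 8586779 z z)) z))) (n 0 (n 0 z
 (n 0 z (n 0 z z))) (n 0 (n 0 z (n 0 z (n 0 z z))) z)))) (n 411 (n 0 (n 0 z (n 0 z (n 0 z z)))
 (n 0 (n 0 z (n 0 z (n 0 z z))) (n 0 (n 0 z (n 0 z (n 0 z z))) (n 0 (n 0 z (n 0 (n 8523875 z (n
 8523875 z z)) (n 0 z z))) (n 0 (n 0 z (n 0 z (n 0 z z))) (n 0 (n 0 z (n 0 (n 8523875 z (n
 8523875 z z)) (n 0 (n 8523875 z (n 8523875 z z)) z))) (n 0 (n 0 z (n 0 z (n 0 z z))) (n 0 (n 0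
 z (n 0 z (n 0 z z))) (n 0 (n 0 z (n 0 z (n 0 z z))) (n 0 (n 0 z (n 0 z (n 0 z z))) (n 0 (n 0 z
 (n 0 z (n 0 z z))) z))))))))))) (n 387 (n 0 (n 0 z (n 0 z (n 0 z z))) (n 0 (n 0 z (n 0 z (n 0 z
 z))) (n 0 (n 0 z (n 0 z (n 0 z z))) (n 0 (n 0 z (n 0 z (n 0 z z))) (n 0 (n 0 z (n 0 z (n 0 z
 z))) (n 0 (n 0 z (n 0 (n 8803139 z z) (n 0 z z))) (n 0 (n 0 z (n 0 z (n 0 z z))) z))))))) (n
 513 (n 0 (n 0 z (n 0 z (n 0 z z))) (n 0 (n 0 z (n 0 z (n 0 z z))) (n 0 (n 0 z (n 0 z (n 0 z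
 z))) (n 0 (n 0 z (n 0 z (n 0 z z))) (n 0 (n 0 z (n 0 z (n 0 z z))) (n 0 (n 0 z (n 0 z (n 0 z
 z))) (n 0 (n 0 z (n 0 z (n 0 z z))) (n 0 (n 0 z (n 0 z (n 0 z z))) (n 0 (n 0 z (n 0 z (n 0 z
 z))) (n 0 (n 0 (n 8848939 z (n 8726299 z z)) (n 0 z (n 0 z z))) (n 0 (n 0 z (n 0 z (n 0 z z)))
 (n 0 (n 0 z (n 0 z (n 0 z z))) (n 0 (n 0 z (n 0 z (n 0 z z))) (n 0 (n 0 z (n 0 z (n 0 z z))) (n
 0 (n 0 z (n 0 (n 5445643 z z) (n 0 (n 5445643 z z) z))) (n 0 (n 0 z (n 0 z (n 0 z z)))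
 z)))))))))))))))) (n 489 (n 0 (n 0 z (n 0 z (n 0 z z))) (n 0 (n 0 z (n 0 z (n 0 z z))) (n 0 (n
 0 z (n 0 z (n 0 z z))) (n 0 (n 0 z (n 0 z (n 0 z z))) (n 0 (n 0 z (n 0 z (n 0 z z))) (n 0 (n 0
 z (n 0 z (n 0 z z))) (n 0 (n 0 z (n 0 z (n 0 z z))) (n 0 (n 0 z (n 0 z (n 0 z z))) (n 0 (n 0 z
 (n 0 z (n 0 z z))) (n 0 (n 0 z (n 0 z (n 0 z z))) (n 0 (n 0 z (n 0 z (n 0 z z))) z)))))))))))
 (n 507 (n 0 (n 0 z (n 0 z (n 0 z z))) (n 0 (n 0 z (n 0 z (n 0 z z))) (n 0 (n 0 z (n 0 z (n 0 z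
 z))) (n 0 (n 0 z (n 0 z (n 0 z z))) (n 0 (n 0 z (n 0 z (n 0 z z))) (n 0 (n 0 z (n 0 z (n 0 z
 z))) (n 0 (n 0 z (n 0 z (n 0 z z))) (n 0 (n 0 z (n 0 z (n 0 z z))) (n 0 (n 0 z (n 0 z (n 0 z
 z))) (n 0 (n 0 z (n 0 z (n 0 z z))) (n 0 (n 0 z (n 0 z (n 0 z z))) (n 0 (n 0 z (n 0 z (n 0 z
 z))) z)))))))))))) (n 481 (n 0 (n 0 z (n 0 z (n 0 (n
 0x90e30e0a037d88327ff81a7dc7d88018098238058027f08087f17fb8167fd81d7df8177f480a7f57e37ff83b7d37c17fc7fc7da8028047fe80081e82b8087fd7fd7dc84683b81b7dd7cc7ce8538237f10811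
 z z) z))) (n 0 (n 0 z (n 0 z (n 0 z z))) (n 0 (n 0 z (n 0 z (n 0 (n 8586779 z (n 8586779 z z))
 z))) (n 0 (n 0 z (n 0 z (n 0 (n 2164811 z z) z))) (n 0 (n 0 z (n 0 z (n 0 z z))) (n 0 (n 0 z (n
 0 z (n 0 z z))) (n 0 (n 0 z (n 0 z (n 0 z z))) (n 0 (n 0 z (n 0 z (n 0 z z))) (n 0 (n 0 z (n 0
 z (n 0 z z))) (n 0 (n 0 (n 8726299 z z) (n 0 z (n 0 z z))) z)))))))))) (n 633 (n 0 (n 0 z (n 0
 z (n 0 z z))) (n 0 (n 0 z (n 0 z (n 0 z z))) (n 0 (n 0 z (n 0 z (n 0 z z))) (n 0 (n 0 z (n 0 z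
 (n 0 z z))) (n 0 (n 0 z (n 0 (n
 0x1c98627e67f87b784481883c7dc76f7cb7ce8698537ae76f7be7da8cb7a386d8b27d88387508867d68c08148957d082188479e7ff74082f7bf7b97bd78f82c7838a778e8a384a81781c7a184a7fd0051
 z z) (n 0 z z))) (n 0 (n 0 z (n 0 z (n 0 z z))) z)))))) (n 653 (n 0 (n 0 z (n 0 z (n 0 z z)))
 (n 0 (n 0 z (n 0 z (n 0 z z))) (n 0 (n 0 z (n 0 (n
 0x1c98627e67f87b784481883c7dc76f7cb7ce8698537ae76f7be7da8cb7a386d8b27d88387508867d68c08148957d082188479e7ff74082f7bf7b97bd78f82c7838a778e8a384a81781c7a184a7fd0051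
 z z) (n 0 z z))) (n 0 (n 0 z (n 0 z (n 0 z z))) (n 0 (n 0 z (n 0 z (n 0 z z))) (n 0 (n 0 z (n 0
 z (n 0 z z))) (n 0 (n 0 z (n 0 z (n 0 (n 8798515 z (n 8798515 z z)) z))) (n 0 (n 0 z (n 0 z (n
 0 z z))) (n 0 (n 0 z (n 0 z (n 0 z z))) (n 0 (n 0 z (n 0 z (n 0 z z))) (n 0 (n 0 z (n 0 (n
 8790275 z (n 8790275 z z)) (n 0 (n 8790275 z (n 8790275 z z)) z))) (n 0 (n 0 z (n 0 z (n 0 z
 z))) (n 0 (n 0 (n 8783675 z z) (n 0 z (n 0 z z))) (n 0 (n 0 (n 8525323 z z) (n 0 z (n 0 z z)))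
 (n 0 (n 0 z (n 0 z (n 0 z z))) (n 0 (n 0 z (n 0 (n 8790275 z z) (n 0 (n 8790275 z z) z))) (n 0
 (n 0 z (n 0 z (n 0 z z))) (n 0 (n 0 z (n 0 z (n 0 z z))) (n 0 (n 0 z (n 0 (n 8790275 z z) (n 0
 z z))) (n 0 (n 0 z (n 0 z (n 0 z z))) (n 0 (n 0 z (n 0 z (n 0 z z))) (n 0 (n 0 z (n 0 z (n 0 z
 z))) (n 0 (n 0 z (n 0 z (n 0 z z))) (n 0 (n 0 z (n 0 (n
 0x9d8208297a084b84a7cd7a37a189581e8487a783780f8a376c8477988777848677d382c81979e7e97c280777b85c7927ca81b7ff8218028178998617ee7bb8537ea87f7eb7617c479b88b8197f20051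
 z (n
 0x9d8208297a084b84a7cd7a37a189581e8487a783780f8a376c8477988777848677d382c81979e7e97c280777b85c7927ca81b7ff8218028178998617ee7bb8537ea87f7eb7617c479b88b8197f20051
 z z)) (n 0 (n
 0x9d8208297a084b84a7cd7a37a189581e8487a783780f8a376c8477988777848677d382c81979e7e97c280777b85c7927ca81b7ff8218028178998617ee7bb8537ea87f7eb7617c479b88b8197f20051
 z (n
 0x9d8208297a084b84a7cd7a37a189581e8487a783780f8a376c8477988777848677d382c81979e7e97c280777b85c7927ca81b7ff8218028178998617ee7bb8537ea87f7eb7617c479b88b8197f20051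
 z z)) z))) (n 0 (n 0 z (n 0 z (n 0 z z))) (n 0 (n 0 z (n 0 (n 8525323 z (n 8525323 z z)) (n 0
 (n 8525323 z (n 8525323 z z)) z))) (n 0 (n 0 z (n 0 (n
 0x9d8208297a084b84a7cd7a37a189581e8487a783780f8a376c8477988777848677d382c81979e7e97c280777b85c7927ca81b7ff8218028178998617ee7bb8537ea87f7eb7617c479b88b8197f20051
 z z) (n 0 (n
 0x9d8208297a084b84a7cd7a37a189581e8487a783780f8a376c8477988777848677d382c81979e7e97c280777b85c7927ca81b7ff8218028178998617ee7bb8537ea87f7eb7617c479b88b8197f20051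
 z z) z))) (n 0 (n 0 z (n 0 z (n 0 z z))) (n 0 (n 0 z (n 0 (n 8525323 z (n 8525323 z z)) (n 0 z
 z))) (n 0 (n 0 z (n 0 z (n 0 z z))) (n 0 (n 0 z (n 0 z (n 0 z z))) (n 0 (n 0 z (n 0 z (n 0 (n
 8790275 z z) z))) (n 0 (n 0 z (n 0 z (n 0 z z))) z))))))))))))))))))))))))))))))))) (n 627 (n 0
 (n 0 z (n 0 z (n 0 z z))) (n 0 (n 0 z (n 0 z (n 0 z z))) (n 0 (n 0 z (n 0 z (n 0 z z))) (n 0 (n
 0 z (n 0 z (n 0 (n 8803139 z z) z))) (n 0 (n 0 z (n 0 z (n 0 z z))) (n 0 (n 0 z (n 0 z (n 0 z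
 z))) (n 0 (n 0 z (n 0 (n 8803139 z z) (n 0 z z))) (n 0 (n 0 z (n 0 z (n 0 z z))) (n 0 (n 0 z (n
 0 z (n 0 z z))) (n 0 (n 0 z (n 0 z (n 0 z z))) (n 0 (n 0 (n
 0x1c98617e67f87b784481883c7dc76f7cb7ce8698537ae76f7be7da8cb7a386d8b27d88387508867d68c08148957d082188479e7ff74082f7bf7b97bd78f82c7838a778e8a384a81781c7a184a7fd0051
 z (n 8726299 z z)) (n 0 z (n 0 z z))) (n 0 (n 0 (n
 0x1c98617e67f87b784481883c7dc76f7cb7ce8698537ae76f7be7da8cb7a386d8b27d88387508867d68c08148957d082188479e7ff74082f7bf7b97bd78f82c7838a778e8a384a81781c7a184a7fd0051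
 z (n 8726299 z z)) (n 0 z (n 0 z z))) (n 0 (n 0 (n
 0x1c98617e67f87b784481883c7dc76f7cb7ce8698537ae76f7be7da8cb7a386d8b27d88387508867d68c08148957d082188479e7ff74082f7bf7b97bd78f82c7838a778e8a384a81781c7a184a7fd0051
 z (n
 0x1c98617e67f87b784481883c7dc76f7cb7ce8698537ae76f7be7da8cb7a386d8b27d88387508867d68c08148957d082188479e7ff74082f7bf7b97bd78f82c7838a778e8a384a81781c7a184a7fd0051
 z z)) (n 0 z (n 0 z z))) (n 0 (n 0 z (n 0 z (n 0 z z))) (n 0 (n 0 (n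
 0x1c98617e67f87b784481883c7dc76f7cb7ce8698537ae76f7be7da8cb7a386d8b27d88387508867d68c08148957d082188479e7ff74082f7bf7b97bd78f82c7838a778e8a384a81781c7a184a7fd0051
 z z) (n 0 z (n 0 z z))) (n 0 (n 0 z (n 0 z (n 0 (n
 0x30eae860038008008008008008008008008008008008008008008008008008008008018007ff7ff8008008008008008008008008008008008008008008008008008008008008008008008008008008000811
 z z) z))) (n 0 (n 0 z (n 0 (n 8790275 z z) (n 0 z z))) (n 0 (n 0 z (n 0 z (n 0 z z))) (n 0 (n 0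
 z (n 0 (n
 0x358747fa8008168287eb7ba7d282d8328147f88077fc83c7b48347e08427bc83a7dc8187fb7bf7fc8147ee7b981a7c87df81280080a8018068568137f57ec80582d85f81a7a77c07b786881d7ec0051
 z (n
 0x9d8618297a084b84a7cd7a37a189581e8487a783780f8a376c8477988777848677d382c81979e7e97c280777b85c7927ca81b7ff8218028178998617ee7bb8537ea87f7eb7617c479b88b8197f20051
 z z)) (n 0 (n
 0x358717fa8008168287eb7ba7d282d8328147f88077fc83c7b48347e08427bc83a7dc8187fb7bf7fc8147ee7b981a7c87df81280080a8018068568137f57ec80582d85f81a7a77c07b786881d7ec0051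
 z (n
 0x9d8618297a084b84a7cd7a37a189581e8487a783780f8a376c8477988777848677d382c81979e7e97c280777b85c7927ca81b7ff8218028178998617ee7bb8537ea87f7eb7617c479b88b8197f20051
 z z)) z))) (n 0 (n 0 z (n 0 (n 8525323 z z) (n 0 (n 8525323 z z) z))) (n 0 (n 0 z (n 0 (n
 0x1c98747e67f87b784481883c7dc76f7cb7ce8698537ae76f7be7da8cb7a386d8b27d88387508867d68c08148957d082188479e7ff74082f7bf7b97bd78f82c7838a778e8a384a81781c7a184a7fd0051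
 z z) (n 0 (n
 0x1c98717e67f87b784481883c7dc76f7cb7ce8698537ae76f7be7da8cb7a386d8b27d88387508867d68c08148957d082188479e7ff74082f7bf7b97bd78f82c7838a778e8a384a81781c7a184a7fd0051
 z z) z))) (n 0 (n 0 z (n 0 (n
 0x9d8618297a084b84a7cd7a37a189581e8487a783780f8a376c8477988777848677d382c81979e7e97c280777b85c7927ca81b7ff8218028178998617ee7bb8537ea87f7eb7617c479b88b8197f20051
 z z) (n 0 (n
 0x9d8618297a084b84a7cd7a37a189581e8487a783780f8a376c8477988777848677d382c81979e7e97c280777b85c7927ca81b7ff8218028178998617ee7bb8537ea87f7eb7617c479b88b8197f20051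
 z z) z))) (n 0 (n 0 z (n 0 z (n 0 z z))) (n 0 (n 0 z (n 0 z (n 0 z z))) (n 0 (n 0 z (n 0 z (n 0
 z z))) (n 0 (n 0 z (n 0 z (n 0 z z))) (n 0 (n 0 z (n 0 z (n 0 z z)))
 z))))))))))))))))))))))))))) (n 607 (n 0 (n 0 z (n 0 z (n 0 z z))) (n 0 (n 0 z (n 0 z (n 0 z
 z))) (n 0 (n 0 z (n 0 z (n 0 z z))) (n 0 (n 0 z (n 0 z (n 0 z z))) (n 0 (n 0 z (n 0 z (n 0 z
 z))) (n 0 (n 0 z (n 0 z (n 0 z z))) (n 0 (n 0 z (n 0 z (n 0 z z))) (n 0 (n 0 z (n 0 z (n 0 z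
 z))) (n 0 (n 0 z (n 0 z (n 0 z z))) z))))))))) (n 600 (n 0 (n 0 z (n 0 (n
 0x1c98627e67f87b784481883c7dc76f7cb7ce8698537ae76f7be7da8cb7a386d8b27d88387508867d68c08148957d082188479e7ff74082f7bf7b97bd78f82c7838a778e8a384a81781c7a184a7fd0051
 z z) (n 0 z z))) (n 0 (n 0 z (n 0 z (n 0 z z))) (n 0 (n 0 z (n 0 z (n 0 (n 8798515 z z) z))) (n
 0 (n 0 z (n 0 z (n 0 z z))) (n 0 (n 0 z (n 0 z (n 0 z z))) (n 0 (n 0 z (n 0 z (n 0 z z))) (n 0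
 (n 0 z (n 0 z (n 0 z z))) (n 0 (n 0 z (n 0 z (n 0 z z))) (n 0 (n 0 z (n 0 z (n 0 z z)))
 z))))))))) (n 477 (n 0 (n 0 z (n 0 z (n 0 z z))) (n 0 (n 0 z (n 0 z (n 0 z z))) z)) (n 475 (n 0
 (n 0 z (n 0 z (n 0 z z))) (n 0 (n 0 z (n 0 z (n 0 z z))) (n 0 (n 0 z (n 0 z (n 0 z z))) (n 0 (n
 0 z (n 0 z (n 0 z z))) (n 0 (n 0 z (n 0 z (n 0 z z))) (n 0 (n 0 z (n 0 z (n 0 z z))) (n 0 (n 0
 z (n 0 z (n 0 z z))) (n 0 (n 0 z (n 0 z (n 0 z z))) z)))))))) (n 476 (n 0 (n 0 z (n 0 z (n 0 z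
 z))) (n 0 (n 0 z (n 0 (n 8790275 z z) (n 0 z z))) (n 0 (n 0 z (n 0 z (n 0 z z))) (n 0 (n 0 z (n
 0 z (n 0 z z))) (n 0 (n 0 z (n 0 z (n 0 z z))) (n 0 (n 0 z (n 0 z (n 0 z z))) (n 0 (n 0 z (n 0
 z (n 0 z z))) z))))))) (n 27 (n 0 (n 0 z (n 0 z (n 0 z z))) (n 0 (n 0 z (n 0 z (n 0 z z))) z))
 (n 1 (n 0 (n 0 z (n 0 z (n 0 z z))) (n 0 (n 0 z (n 0 z (n 0 z z))) (n 0 (n 0 z (n 0 z (n 0 (n
 8798515 z z) z))) (n 0 (n 0 z (n 0 z (n 0 z z))) (n 0 (n 0 z (n 0 z (n 0 z z))) (n 0 (n 0 z (n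
 0 z (n 0 z z))) z)))))) (n 0 (n 0 (n 0 z (n 0 z (n 0 z z))) (n 0 (n 0 z (n 0 z (n 0 z z))) (n 0
 (n 0 z (n 0 z (n 0 z z))) (n 0 (n 0 z (n 0 (n 8803139 z z) (n 0 z z))) (n 0 (n 0 z (n 0 z (n 0
 z z))) z))))) z))))))))))))))))))))) z)))) z) z)))) (n
 0x1a85509e72e19e93079c9930e251308cd10672798109a80 (n 0 (n 453 (n 3282443 z (n
 0x5cf590c000b9e3218000bf86438002377ffb158001dd8004907ffdc18002258000f68000777ffef27ffee980035e8002b87ffd1b7ffa468002a97ff9fd8002217fffa37ffc737ff9cf800aee80006080071a7ffca28001178002b27ffd2f80073680010f7ffdbc80027c8005628001c27ff5a47fffa07ffb9e8007e88000607ffa5e7fffa07ff70380064d8001598000de8000a87ffd7b80009c80024e8000a27fffdf00d9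
 z (n 6619675 z (n
 0x586d8c400182cb1880030586317fdc24803c677feb377fcfea8023b37ffa308017707fe2bf80052e8000a27ff6517ffab4801aed80213a7fe880800f7f7feda97ffb9d800bdc801ff67fc45f7ffd8a7ffefb800c738002647fd4c6802c917fe79f7fffcf8010507ffb627fefa97fd3a0803b9d7ffe0e8025c47fbba97fff2e802372800276804c887fbcdc8018ba7fff2e8002bc7ff8a67ffece80147d7ffd2a80000000d9
 z (n
 0x16ca4ca42037ffffe8000037fffee7ffffe7ffff780000f7ffff87fffe77fffea7ffffb7fffe38000328000098000127fffd680000b7ffff08000028000018000537fffb380001c7ffff88000357ffff07ffff98000017ffff98000168000007ffff97fffed7fffe98000157fffe87ffff27fffca8000148000117fffe980003d8000048000068000148000038000297ffff07ffff680001b7ffff70819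
 z (n 2 z (n 10 z (n 0 z z)))))))) (n 451 (n 3278363 z (n 0 z (n 0 z (n 0 z (n 18 z (n 26 z (n 0
 z (n 0 z (n 0 z (n 0 z (n 0 z (n 0 z (n 0 z (n 0 z (n 0 z (n 0 z z)))))))))))))))) (n 450 (n
 3212843 z (n 0 z (n 34 z (n 0 z z)))) (n 3 (n 2164283 z (n 0 z (n 0 z z))) (n 1 (n 0 z (n
 2164299 z (n 0 z (n
 0x586d88000182cb1000030586207fdc24803c677feb377fcfea8023b37ffa308017707fe2bf80052e8000a27ff6517ffab4801aed80213a7fe880800f7f7feda97ffb9d800bdc801ff67fc45f7ffd8a7ffefb800c738002647fd4c6802c917fe79f7fffcf8010507ffb627fefa97fd3a0803b9d7ffe0e8025c47fbba97fff2e802372800276804c887fbcdc8018ba7fff2e8002bc7ff8a67ffece80147d7ffd2a80000000d9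
 z (n
 0x1cca4ca42037ffffe8000047fffe97ffffd7ffff58000127ffff57fffe07fffe47ffffa7fffdb80003f80000b8000177fffcd80000e7fffec8000028000018000687fffa08000227ffff68000427fffed7ffff78000017ffff780001b8000007ffff77fffe87fffe480001a7fffe37fffee7fffbd80001a8000147fffe480004d8000058000088000188000058000327fffec7ffff48000227ffff60819
 z (n 0 z (n
 0x101f1840000a7db08000407a6108009b57ff2eb8002c18008e87ff8d78001ff8001be8001558001d67ffc2b8005aa800ab07ff5837ffcde8006457fee9980071d80063b7ff69d7ffaf5801d3a8001f880018e7ff4e67fffcd8003be7ff7cb80143e8009537fefdc8009347ffc7a7ffee27fd8a48004c87fff268019c88000a87fea6e7ffe087fee258016d7800fa97ff8ee7ff1b87ffe1f80020880097a7ffb9e8003dd00d9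
 z (n 0 z (n 0 z (n 42 z (n 50 z z))))))))))) (n 0 (n 0 z (n 0 z (n 58 z (n 66 z (n 6619675 z (n
 0 z z)))))) z)))))) (n 3 (n 0 (n 0 z (n 875 (n 0 z (n 0 z (n 0 z (n 0 z (n 0 z z))))) (n 875 (n
 0 z (n 0 z (n 0 z (n 0 z (n 0 z z))))) (n 873 (n 0 z (n 0 z (n 0 z (n 0 z (n 0 z (n 0 z (n 0 z
 (n
 0x101f1d8c000a7dbb1800407a7638009b57ff2eb8002c18008e87ff8d78001ff8001be8001558001d67ffc2b8005aa800ab07ff5837ffcde8006457fee9980071d80063b7ff69d7ffaf5801d3a8001f880018e7ff4e67fffcd8003be7ff7cb80143e8009537fefdc8009347ffc7a7ffee27fd8a48004c87fff268019c88000a87fea6e7ffe087fee258016d7800fa97ff8ee7ff1b87ffe1f80020880097a7ffb9e8003dd00d9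
 z (n 0 z (n 0 z (n 0 z (n 0 z (n 0 z (n 0 z (n 0 z (n 0 z (n 0 z (n 0 z (n 0 z (n 0 z (n 0 z (n
 0 z (n 0 z (n 0 z (n 0 z z))))))))))))))))))))))))) (n 105 (n 0 z (n 0 z (n 0 z (n 0 z (n 0 z
 (n 0 z (n 0 z (n 6424395 z z)))))))) (n 105 (n 0 z (n 0 z (n 0 z (n 0 z (n 0 z (n 0 z (n 0 z (n
 0 z z)))))))) (n 121 (n 0 z (n 0 z (n 0 z (n 0 z (n 0 z (n 6424395 z (n 0 z (n 0 z (n 0 z
 z))))))))) (n 121 (n 0 z (n 0 z (n 0 z (n 0 z (n 0 z (n 0 z (n 0 z (n 0 z (n 0 z z)))))))))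
 z)))))))) (n 0 (n 903 (n 0 z (n 0 z (n 0 z (n 0 z (n 0 z (n 0 z (n 0 z (n 0 z (n 0 z z)))))))))
 (n 903 (n 0 z (n 0 z (n 0 z (n 0 z (n 0 z (n 2 (n 1 z (n 1 z (n 1 z (n 1 z (n 1 z z))))) (n 0 z
 (n 0 z (n 0 z z))))))))) (n 901 (n 0 z (n 0 z (n 0 z (n 0 z (n 0 z (n 0 z (n 0 z (n 0 z (n 0 z
 (n 0 z (n 0 z (n 0 z z)))))))))))) (n 303 (n 0 z (n 0 z (n 0 z (n 0 z (n 0 z (n 0 z (n 0 z (n 0
 z (n 0 z (n 0 z (n 0 z (n 0 z (n 0 z (n 0 z (n 0 z (n 0 z (n 0 z z))))))))))))))))) (n 303 (n 0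
 z (n 0 z (n 0 z (n 0 z (n 0 z (n 0 z (n 0 z (n 0 z (n 0 z (n 0 z (n 0 z (n 0 z (n 0 z (n 0 z (n
 0 z (n 0 z (n 0 z z))))))))))))))))) (n 1105 (n 0 z (n 0 z (n 0 z (n 0 z (n 0 z (n 0 z (n 0 z
 (n 0 z (n 0 z (n 0 z (n 0 z (n 0 z (n 0 z z))))))))))))) (n 1105 (n 0 z (n 0 z (n 0 z (n 0 z (n
 0 z (n 0 z (n 0 z (n 0 z (n 0 z (n 0 z (n 0 z (n 0 z (n 0 z z))))))))))))) z))))))) (n 0 (n 0 z
 (n 901 (n 0 z (n 0 z (n 0 z (n 0 z (n 0 z (n 0 z (n 0 z z))))))) (n 483 (n 0 z (n 0 z (n 0 z (n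
 0 z (n 0 z (n 0 z z)))))) (n 483 (n 0 z (n 0 z (n 0 z (n 0 z (n 0 z (n 0 z z)))))) (n 481 (n 0
 z (n 0 z (n 0 z (n 0 z (n 0 z (n 0 z (n 0 z (n 0 z (n 0 z (n 0 z z)))))))))) (n 481 (n 0 z (n 0
 z (n 0 z (n 0 z (n 0 z (n 2 z (n 0 z (n 0 z (n 0 z (n 0 z z)))))))))) z)))))) (n 0 (n 905 (n 0
 z (n 0 z (n 0 z (n 0 z (n 0 z (n 2 (n 2 (n 0 z (n 0 z (n 0 z (n 0 z (n 0 z (n 0 z z)))))) (n 1
 z (n 1 z (n 1 z z)))) z)))))) (n 51 (n 0 z (n 0 z (n 0 z (n 0 z (n 0 z (n 0 z (n 0 z (n 0 z (n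
 2 (n 0 z (n 2 (n 0 z (n 0 z (n 0 z (n 0 z (n 0 z (n 0 z z)))))) (n 2 (n 0 z (n 0 z (n 0 z (n 0
 z (n 0 z (n 0 z z)))))) z))) (n 0 z z)))))))))) (n 51 (n 0 z (n 0 z (n 0 z (n 0 z (n 0 z (n 0 z
 (n 0 z (n 0 z (n 0 z (n 2 (n 2 (n 0 z (n 0 z (n 0 z (n 0 z (n 0 z (n 0 z z)))))) (n 2 (n 0 z (n
 0 z (n 0 z (n 0 z (n 0 z (n 0 z z)))))) z)) z)))))))))) (n 49 (n 0 z (n 0 z (n 0 z (n 2 (n 0 z
 z) (n 0 z (n 0 z (n 0 z (n 0 z (n 0 z (n 0 z z)))))))))) (n 49 (n 0 z (n 0 z (n 0 z (n 0 z (n 0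
 z (n 0 z (n 0 z (n 0 z (n 0 z (n 0 z z)))))))))) z))))) (n 0 (n 15 (n 0 z (n 0 z (n 0 z (n 0 z
 (n 0 z (n 0 z (n 0 z (n 0 z z)))))))) (n 15 (n 0 z (n 0 z (n 0 z (n 0 z (n 0 z (n 0 z (n 0 z (n
 0 z z)))))))) (n 1129 (n 0 z (n 0 z (n 0 z (n 0 z (n 0 z (n 0 z (n 0 z (n 0 z (n 0 z (n 0 z (n
 0 z (n 0 z (n 0 z (n 0 z (n 0 z (n 0 z (n 0 z (n 0 z (n 0 z (n 0 z (n 0 z (n 0 z (n 0 z (n 0 z
 (n 0 z (n 0 z (n 0 z (n 0 z (n 0 z (n 0 z (n 0 z (n 0 z (n 0 z (n 0 z (n 0 z (n 0 z (n 0 z (n 0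
 z (n 0 z (n 0 z (n 0 z (n 0 z (n 0 z (n 0 z (n 0 z (n 0 z (n 0 z (n 0 z (n 0 z (n 0 z (n 0 z
 z))))))))))))))))))))))))))))))))))))))))))))))))))) (n 1129 (n 0 z (n 0 z (n 0 z (n 0 z (n 0 z
 (n 0 z (n 0 z (n 0 z (n 0 z (n 0 z (n 0 z (n 0 z (n 0 z (n 0 z (n 0 z (n 0 z (n 0 z (n 0 z (n 0
 z (n 0 z (n 0 z (n 0 z (n 0 z (n 0 z (n 0 z (n 0 z (n 0 z (n 0 z (n 0 z (n 0 z (n 0 z (n 0 z (n
 0 z (n 0 z (n 0 z (n 0 z (n 0 z (n 0 z (n 0 z (n 0 z (n 0 z (n 0 z (n 0 z (n 0 z (n 0 z (n 0 z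
 (n 0 z (n 0 z (n 0 z (n 0 z (n 0 z z))))))))))))))))))))))))))))))))))))))))))))))))))) z))))
 (n 0 (n 0 z (n 1 (n 0 z (n 0 z (n 0 z (n 0 z (n 0 z (n 0 z (n 0 z (n 0 z (n 0 z (n 0 z (n 0 z
 (n 0 z (n 0 z (n 0 z z)))))))))))))) (n 1 (n 0 z (n 0 z (n 0 z (n 0 z (n 0 z (n 0 z (n 0 z (n 0
 z (n 0 z (n 0 z (n 0 z (n 0 z (n 0 z (n 0 z z)))))))))))))) z))) (n 0 (n 1 (n 0 z (n 0 z (n 0 z
 (n 0 z (n 0 z (n 0 z (n 0 z (n 0 z (n 0 z (n 0 z (n 0 z z))))))))))) (n 1 (n 0 z (n 0 z (n 0 z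
 (n 0 z (n 0 z (n 0 z (n 0 z (n 0 z (n 0 z (n 0 z (n 0 z z))))))))))) z)) (n 0 (n 0 z z) (n 0 z
 z))))))))) (n 0 (n 1 (n 2164283 z (n 2164283 z (n 2164283 z (n 2164283 z (n 2164283 z (n
 2164283 z z)))))) (n 0 z (n 0 z z))) (n 0 z z)))) (n 0x350aa13ae5a2a4e212593611c75ab40 (n 0 (n
 441 (n 0 z (n 3282443 z (n
 0x1f400508c2d40000fa00084616d0000fbac86000f16990c00827cb21800d8586437fff828000008041a67fdd107fce3080028a800a127fdc6b8027be8002d37fff048000007fbfd47fca648041107ff2067ff2b880693c801b088052987faaef802ce77fd3f18005457fd23e7ff9bf8061cc7fc55f7fba567fbfbe802d767f5268800566806cc47ff91b7fe2687f747880a47c8045067f62ac80690d7fd8e87ff79a7fbbf9804af780422d7fe07c80101c7ffe5e800a9e1119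
 z (n 0 z (n 2 z z))))) (n 35 (n 0 z (n 3278363 z (n 0 z (n 0 z (n 0 z z))))) (n 9 (n 0 z (n 0 z
 (n 0 z (n 0 z (n 3212843 z (n 0 z (n 0 z z))))))) (n 29 (n 2164283 z (n 0 z (n 0 z (n 0 z (n 0
 z (n 0 z (n 0 z (n 0 z (n 0 z (n 0 z (n 0 z (n 0 z (n 10 z z))))))))))))) (n 1 (n
 0x1f400508c2d40000fa00084616d0000fbac20000f16984000827cb08000d8586107fff828000008041a67fdd107fce3080028a800a127fdc6b8027be8002d37fff048000007fbfd47fca648041107ff2067ff2b880693c801b088052987faaef802ce77fd3f18005457fd23e7ff9bf8061cc7fc55f7fba567fbfbe802d767f5268800566806cc47ff91b7fe2687f747880a47c8045067f62ac80690d7fd8e87ff79a7fbbf9804af780422d7fe07c80101c7ffe5e800a9e1119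
 z (n 18 z (n
 0x7dd94d84080e0003ee988000533cb1000096b8620800000800000802aae7fe8217fe12380008d8005397fe7808019a48005248000008000007fd5527fda8b802a0a7ff8287ff7c78043a38011438034f47fcad38019997fe48880050d7fe23f7ffaf38042e37fd8ef7fd1a57fd6ac8020917f8d688003098044207ffe6b7feb637fa4e08069f6802a7c7f97878041c27fe8357ffc127fcf5580327e8027117fef04800e147ffa9a80082308d9
 z (n 0 z (n 0 z (n
 0x6aca8a642037fd80281c7798647e979a81580a8658007fc7e779f7e88337bf86e8898067e58367d48297537d98507ac7c976e7d17737ec8427c582078393e84276c8547bb7e478384d8537a87d384c82b0811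
 z (n
 0x10ca6ca02077f98008007fc8147ff7fc7f67f08168008008078017f280d7fd7ee7fd7ff8087e68148108067f180c8038097fe8018057f37e781b8028017f47eb8127fc80c8047f18067fb80f8007f08080811
 z (n 26 z (n
 0x4465080680180a7ea7fc7ff8037f280680f8008117e77e77fc8048058248068157f27fa7f88037f27ff82b7f17e37d98097d18038188057f67dc8358107d18137f37fd7d982680d80a8007f580d0051
 z (n 2164299 z (n
 0x21b65081d7be7ad81a7ef83c82f83071e8b58448408147e07de7fe8367a77c170393b6738cd7bd8d884583a87d78280785f8518837118f37c587672e7e47d37387d18587478a277f8e883875f8370051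
 z (n
 0xa594994800e00014e9840000c8cb0800013d86108000008000008006607ffd017ffb128000658001307ffc298004127fffe78000008000007ff9ca7ffad080066a7ffe587fff0280099c8002a18008997ff7498004667ffb688000d47ffbdd7fff8080093e7ffa7e7ff95c7ff9d680049e7fef0e80004e800ab87fffaf7ffd6c7ff24e800f4b8006a67ff148800ab27ffca57ffeec7ff9a08006b68006d27ffd1a8001547fff5f80012d08d9
 z z)))))))))))) (n 0 (n 0 z (n 34 z (n 42 z (n 0 z (n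
 0x21b64181d7be7ad81a7ef83c82f83071e8b58448408147e07de7fe8367a77c170393b6738cd7bd8d884583a87d78280785f8518837118f37c587672e7e47d37387d18587478a277f8e883875f8370051
 z (n 2164315 z (n 0 z z))))))) z)))))) (n 441 (n 0 (n 573 (n 0 z (n 0 z (n 0 z (n 0 z (n 0 z (n
 0 z z)))))) (n 309 (n 2 (n 0 z (n 1 z (n 2 (n 0 z (n 0 z (n 0 z (n 0 z (n 0 z (n 0 (n 3460 z z)
 z)))))) z))) (n 0 z (n 0 z (n 0 z (n 0 z (n 0 z (n 0 z (n 0 z (n 0 z (n 0 z (n 0 z (n 0 z (n 0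
 z z))))))))))))) (n 309 (n 0 z (n 0 z (n 0 z (n 0 z (n 0 z (n 0 z (n 0 z (n 0 z (n 0 z (n 0 z
 (n 0 z (n 0 z (n 0 z z))))))))))))) (n 865 (n 0 z (n 0 z (n 0 z (n 0 z (n 7676259 z (n 0 z (n 0
 z (n 0 z (n 0 z (n 0 z (n 0 z z))))))))))) (n 865 (n 0 z (n 0 z (n 0 z (n 0 z (n 0 z (n 0 z (n
 0 z (n 0 z (n 0 z (n 0 z (n 0 z z))))))))))) z))))) (n 0 (n 3 (n 0 z (n 0 z (n 0 z (n 0 z (n 0
 z (n 0 z (n 0 z (n 0 z (n 0 z (n 0 z z)))))))))) (n 3 (n 0 z (n 0 z (n 0 z (n 0 z (n 0 z (n 0 z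
 (n 0 z (n 0 z (n 0 z (n 0 z z)))))))))) (n 1 (n 0 z (n 0 z (n 0 z (n 0 z (n 0 z (n 0 z (n 0 z
 (n 0 z (n 0 z (n 0 z (n 0 z (n 0 z (n 0 z (n 0 z (n 0 z (n 0 z z)))))))))))))))) (n 1 (n 0 z (n
 0 z (n 0 z (n 0 z (n 0 z (n 0 z (n 0 z (n 0 z (n 0 z (n 0 z (n 0 z (n 0 z (n 0 z (n 0 z (n 0 z
 (n 0 z z)))))))))))))))) z)))) (n 0 (n 0 z (n 1 (n 0 z (n 0 z (n 0 z (n 0 z (n 0 z (n 0 z (n 0
 z (n 0 z z)))))))) (n 1 (n 0 z (n 0 z (n 0 z (n 0 z (n 0 z (n 0 z (n 0 z (n 0 z z)))))))) z)))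
 (n 0 (n 1 (n 0 z (n 0 z (n 0 z (n 0 z (n 0 z (n 0 z (n 0 z (n 0 z (n 0 z (n 2 (n 0 z z) (n 0 z
 (n 0 z (n 0 z (n 0 z z)))))))))))))) (n 1 (n 0 z (n 0 z (n 0 z (n 0 z (n 0 z (n 0 z (n 0 z (n 2
 z (n 0 z (n 0 z (n 0 z (n 0 z (n 0 z (n 0 z z)))))))))))))) z)) (n 0 (n 0 z z) (n 0 z z))))))
 (n 0 (n 0 z (n 1 (n 3282443 z (n 3282443 z (n 3282443 z (n 3282443 z (n 3282443 z (n 3282443 z
 z)))))) (n 1 (n 284 z (n 284 z (n 284 z (n 284 z (n 284 z (n 284 z z)))))) (n 0 z (n 1 (n 284 z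
 (n 284 z (n 284 z (n 284 z (n 5378147 z (n 284 z z)))))) z))))) (n 0 z z)))) (n
 0x5aa2a2ab2d10a2ad12a92028a882b2ccac18aaa8a4a305321411454a053150192a0121440 (n 0 (n 479 (n 2 z
 (n 3282443 z (n
 0x4ca4ca2803748185818483818981848f7a777d6f79898b827c6a8580738b828284896c807f8183807b887c8f787d817b7f777e74876d7b0809
 z (n 10 z (n 0 z (n 18 z (n 26 z z))))))) (n 478 (n 0 z (n 6566179 z (n 34 z (n 0 z (n 6562099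
 z (n 0 z (n 0 z (n 0 z (n 0 z (n 0 z (n 0 z (n 0 z (n
 0x24ca2a4080366898c908a8982877f869961836b6e87788583753d7d86728b8c8c8b977a778f7f737b61aa638f79948475785f8d748e7d7e0809
 z (n 0 z (n 6566179 z (n 0 z (n 0 z (n 0 z (n 42 z (n 0 z (n 0 z (n 0 z (n 50 z (n 58 z (n
 0x2ca2a40807807f8080817f818080818280817f7f8080807f818080817f7f7f80807f807f8081807f80807f8181808081808081808082800809
 z (n 0 z z)))))))))))))))))))))))))) (n 129 (n 0 z (n 0 z (n 0 z (n 0 z (n 6562099 z z))))) (n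
 3 (n 6566179 z (n 0 z (n 0 z z))) (n 1 (n 0 z (n 66 z (n
 0x22ca8a4020772678877908287928b85a283748765688b99827d668e856d966d8685896b7a7e807a8d8873898f7874847588817c74905f6f0809
 z (n 74 z (n 0 z (n 6566179 z (n 82 z z))))))) (n 0 (n 0 z (n 90 z (n 6631963 z (n 6631963 z (n
 98 z (n 106 z (n
 0x9909900c0604ca88640037f7e7f818081817f8181818180807e7f8180807f81808180807f81807f80807f7f807f807f7f81807e81817f8080808080801009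
 z (n 0 z (n
 0xc642ca08037f778481847f807a817f897f80807e807b848a7d8085857a827b85807f877b8375768880797f82838184818483808383807e0809
 z z))))))))) z)))))) (n 3 (n 0 (n 0 z (n 0 z (n 0 z (n 119 (n 0 z (n 0 z (n 0 z (n 0 z (n 0 z
 (n 0 z (n 0 z (n 0 z (n 0 z (n 0 z (n 0 z (n 0 z (n 0 z (n 0 z (n 0 z (n 0 z (n 0 z (n 0 z (n 0
 z (n 0 z (n 0 z (n 0 z (n 0 z (n 0 z (n 0 z z))))))))))))))))))))))))) (n 119 (n 0 z (n 0 z (n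
 0 z (n 0 z (n 0 z (n 0 z (n 0 z (n 0 z (n 0 z (n 0 z (n 0 z (n 0 z (n 0 z (n 0 z (n 0 z (n 0 z
 (n 0 z (n 0 z (n 0 z (n 0 z (n 0 z (n 0 z (n 0 z (n 0 z (n 0 z z))))))))))))))))))))))))) (n
 119 (n 0 z (n 0 z (n 0 z (n 0 z (n 0 z (n 0 z (n 0 z (n 0 z (n 0 z (n 0 z (n 0 z (n 2 (n 0 z (n
 1 z (n 2 (n 0 z (n 0 z (n 0 z (n 0 z (n 0 z (n 0 z z)))))) (n 1 z (n 2 (n 0 z (n 0 z (n 0 z (n
 0 z (n 0 z (n 0 z z)))))) (n 1 z (n 1 z z))))))) (n 0 z (n 0 z (n 0 z (n 0 z (n 0 z (n 0 z (n 0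
 z (n 0 z (n 0 z (n 0 z (n 0 z (n 0 z (n 0 z z))))))))))))))))))))))))) (n 119 (n 0 z (n 0 z (n
 0 z (n 0 z (n 0 z (n 0 z (n 0 z (n 0 z (n 0 z (n 0 z (n 0 z (n 0 z (n 0 z (n 0 z (n 0 z (n 0 z
 (n 0 z (n 0 z (n 0 z (n 0 z (n 0 z (n 0 z (n 0 z (n 0 z (n 0 z z))))))))))))))))))))))))) (n 99
 (n 2 (n 0 z (n 0 z (n 2 (n 0 z (n 0 z (n 0 z (n 0 z (n 0 z (n 0 z z)))))) (n 1 z (n 1 z z)))))
 (n 0 z (n 0 z (n 0 z (n 0 z (n 0 z (n 0 z (n 0 z (n 0 z (n 0 z (n 0 z z))))))))))) (n 99 (n 0 z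
 (n 0 z (n 0 z (n 0 z (n 0 z (n 0 z (n 0 z (n 0 z (n 0 z (n 0 z (n 0 z z))))))))))) (n 99 (n 0 z
 (n 0 z (n 0 z (n 0 z (n 0 z (n 0 z (n 0 z (n 0 z (n 2 (n 2 (n 0 z (n 0 z (n 0 z (n 0 z (n 0 z
 (n 0 z z)))))) (n 1 z (n 1 z z))) (n 0 z (n 0 z z))))))))))) (n 97 (n 0 z (n 0 z (n 0 z (n 0 z
 (n 0 z (n 0 z (n 0 z (n 0 z (n 0 z (n 0 z z)))))))))) (n 97 (n 0 z (n 0 z (n 0 z (n 0 z (n 0 z
 (n 2 (n 0 z z) (n 0 z (n 0 z (n 0 z (n 0 z z)))))))))) (n 97 (n 0 z (n 0 z (n 0 z (n 0 z (n 0 z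
 (n 0 z (n 0 z (n 0 z (n 0 z (n 0 z z)))))))))) z))))))))))))) (n 0 (n 0 z (n 0 z (n 127 (n 0 z
 (n 0 z (n 0 z (n 0 z (n 2 (n 0 z (n 0 z (n 0 z (n 2 (n 0 z (n 0 z (n 0 z (n 0 z (n 0 z (n 0 z
 z)))))) (n 2 (n 0 z (n 0 z (n 0 z (n 0 z (n 0 z (n 0 z z)))))) (n 2 (n 0 z (n 0 z (n 0 z (n 0 z
 (n 0 z (n 0 z z)))))) (n 2 (n 0 z (n 0 z (n 0 z (n 0 z (n 0 z (n 0 z z)))))) (n 2 (n 0 z (n 0 z
 (n 0 z (n 0 z (n 0 z (n 0 z z)))))) (n 2 (n 0 z (n 0 z (n 0 z (n 0 z (n 0 z (n 0 z z))))))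
 z))))))))) (n 0 z (n 0 z (n 0 z (n 0 z (n 0 z (n 0 z (n 0 z z)))))))))))) (n 127 (n 2 (n 0 z (n
 0 z (n 2 (n 0 z (n 0 z (n 0 z (n 0 z (n 0 z (n 0 z z)))))) (n 2 (n 0 z (n 0 z (n 0 z (n 0 z (n
 0 z (n 0 z z)))))) (n 2 (n 0 z (n 0 z (n 0 z (n 0 z (n 0 z (n 0 z z)))))) (n 2 (n 0 z (n 0 z (n
 0 z (n 0 z (n 0 z (n 0 z z)))))) (n 2 (n 0 z (n 0 z (n 0 z (n 0 z (n 0 z (n 0 z z)))))) (n 2 (n
 0 z (n 0 z (n 0 z (n 0 z (n 0 z (n 0 z z)))))) z)))))))) (n 0 z (n 0 z (n 0 z (n 0 z (n 0 z (n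
 0 z (n 0 z (n 0 z (n 0 z (n 0 z (n 0 z z)))))))))))) (n 127 (n 0 z (n 0 z (n 2 (n 0 z (n 1 z (n
 2 (n 0 z (n 0 z (n 0 z (n 0 z (n 0 z (n 0 z z)))))) (n 1 z (n 2 (n 0 z (n 0 z (n 0 z (n 0 z (n
 0 z (n 0 z z)))))) (n 1 z (n 1 z z))))))) (n 0 z (n 0 z (n 0 z (n 0 z (n 0 z (n 0 z (n 0 z (n 0
 z (n 0 z z)))))))))))) (n 127 (n 0 z (n 0 z (n 0 z (n 0 z (n 0 z (n 0 z (n 0 z (n 0 z (n 0 z (n
 0 z (n 0 z (n 0 z z)))))))))))) (n 761 (n 0 z (n 0 z (n 0 z (n 0 z (n 2 (n 0 z (n 0 z (n 2 (n 0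
 z (n 0 z (n 0 z (n 0 z (n 0 z (n 0 z z)))))) (n 1 z (n 1 z z))))) (n 0 z (n 0 z (n 0 z (n 0 z
 (n 0 z (n 0 z (n 0 z z)))))))))))) (n 761 (n 2 (n 0 z (n 2 (n 0 z (n 0 z (n 0 z (n 0 z (n 0 z
 (n 0 (n 8871971 z z) z)))))) (n 2 (n 0 z (n 0 z (n 0 z (n 0 z (n 0 z (n 0 z z)))))) (n 2 (n 0 z
 (n 0 z (n 0 z (n 0 z (n 0 z (n 0 z z)))))) z)))) (n 0 z (n 0 z (n 0 z (n 0 z (n 0 z (n 0 z (n 0
 z (n 0 z (n 0 z (n 0 z (n 0 z z)))))))))))) (n 761 (n 0 z (n 0 z (n 0 z (n 2 (n 2 (n 0 z (n 0 z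
 (n 0 z (n 0 z (n 0 z (n 0 z z)))))) (n 1 z (n 1 z z))) (n 0 z (n 0 z (n 0 z (n 0 z (n 0 z (n 0
 z (n 0 z (n 0 z z)))))))))))) (n 125 (n 0 z (n 0 z (n 0 z (n 0 z (n 0 z (n 0 z (n 0 z (n 0 z (n
 0 z (n 0 z z)))))))))) (n 125 (n 0 z (n 2 (n 0 z z) (n 0 z (n 0 z (n 0 z (n 0 z (n 0 z (n 0 z
 (n 0 z (n 0 z z)))))))))) (n 125 (n 0 z (n 0 z (n 0 z (n 0 z (n 0 z (n 0 z (n 0 z (n 0 z (n 0 z
 (n 0 z z)))))))))) z)))))))))))) (n 0 (n 0 z (n 163 (n 0 z (n 0 z (n 0 z (n 0 z (n 0 z (n 0 z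
 (n 0 z (n 0 z (n 0 z (n 0 z (n 0 z (n 0 z z)))))))))))) (n 163 (n
 0x3cea2ca0807c39b4b734e845f44796d37a37693d285d2385f95e89570cc92248c525183bb6ba2afb89743714b78986c887bae59844a7f940809
 z (n 0 z (n 0 z (n 0 z (n 0 z (n 0 z (n 0 z (n 0 z (n 0 z (n 0 z (n 0 z (n 0 z z)))))))))))) (n
 163 (n 0 z (n 0 z (n 2 (n 0 z (n 1 z (n 1 z (n 1 z (n 1 z (n 1 z (n 1 z z))))))) (n 0 z (n 0 z
 (n 0 z (n 0 z (n 0 z (n 0 z (n 0 z (n 0 z (n 0 z z)))))))))))) (n 163 (n 0 z (n 0 z (n 0 z (n 0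
 z (n 0 z (n 0 z (n 0 z (n 0 z (n 0 z (n 0 z (n 0 z (n 2 (n 1 z (n 2 (n 0 z (n 0 z (n 0 z (n 0 z
 (n 0 z (n 0 z z)))))) (n 1 z (n 2 (n 0 z (n 0 z (n 0 z (n 0 z (n 0 z (n 0 z z)))))) (n 1 z (n 1
 z z)))))) z)))))))))))) (n 495 (n 2 (n 0 z (n 0 z (n 2 (n 0 z (n 0 z (n 0 (n 644 z z) (n 0 (n
 644 z z) (n 0 z (n 0 (n 644 z (n 644 z z)) z)))))) (n 1 z (n 1 z z))))) (n 0 z (n 0 z (n 0 z (n
 0 z (n 0 z (n 0 z (n 0 z (n 0 z (n 0 z (n 0 z (n 0 z (n 0 z (n 0 z (n 0 z (n 0 z (n 0 z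
 z))))))))))))))))) (n 495 (n 0 z (n 0 z (n 0 z (n 0 z (n 0 z (n
 0x1eecaca4207827f8a936c7f955e757585688b6f7f9b956a7d819f877f85827d90656d8a7c7f737c968f787b8b7975848e7f87867f6a94920809
 z (n 0 z (n 0 z (n 0 z (n 0 z (n 0 z (n 0 z (n 0 z (n 0 z (n 0 z (n 0 z (n 0 z
 z))))))))))))))))) (n 495 (n 0 z (n 0 z (n 0 z (n 0 z (n 0 z (n 0 z (n 0 z (n 0 z (n 0 z (n 0 z
 (n 0 z (n 0 z (n 0 z (n 0 z (n 0 z (n 0 z (n 0 z z))))))))))))))))) (n 161 (n 0 z (n 0 z (n 0 z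
 (n 0 z (n 0 z (n 0 z (n 0 z (n 0 z (n 0 z z))))))))) (n 161 (n 0 z (n 0 z (n 0 z (n 2 (n 0 z z)
 (n 0 z (n 0 z (n 0 z (n 0 z (n 0 z z))))))))) (n 161 (n 0 z (n 0 z (n 0 z (n 0 z (n 0 z (n 0 z
 (n 0 z (n 0 z (n 0 z z))))))))) z))))))))))) (n 0 (n 179 (n 0 z (n 0 z (n 0 z (n 0 z (n 7542363
 z (n 0 z (n 0 z (n 0 z (n 0 z (n 0 z (n 0 z (n 0 z (n 0 z (n 0 z (n 0 z (n 0 z (n 0 z (n 0 z (n
 0 z (n 0 z (n 0 z (n 0 z (n 0 z (n 0 z (n 0 z (n 0 z (n 0 z (n 0 z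
 z)))))))))))))))))))))))))))) (n 179 (n 0 z (n 0 z (n 0 z (n 0 z (n 0 z (n 0 z (n 0 z (n 0 z (n
 0 z (n 0 z (n 0 z (n 0 z (n 0 z (n 0 z (n 0 z (n 0 z (n 0 z (n 0 z (n 0 z (n 0 z (n 0 z (n 0 z
 (n 0 z (n 0 z (n 0 z (n 0 z (n 0 z (n 0 z z)))))))))))))))))))))))))))) (n 179 (n 0 z (n 0 z (n
 0 z (n 0 z (n 0 z (n 0 z (n 0 z (n 0 z (n 0 z (n 0 z (n 0 z (n 0 z (n 0 z (n 0 z (n
 0x8ea2ca08037c7d8683807f8881807f8979817d7a837f8180817f80807a8084837f7f827d807c7c8181807d85807b80827e7e83818180830809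
 z (n 0 z (n 0 z (n 0 z (n 0 z (n 0 z (n 0 z (n 0 z (n 0 z (n 0 z (n 0 z (n 0 z (n 0 z (n 0 z
 z)))))))))))))))))))))))))))) (n 179 (n 0 z (n 0 z (n 0 z (n 0 z (n 0 z (n 0 z (n 0 z (n 0 z (n
 0 z (n 0 z (n 0 z (n 0 z (n 2 (n 2 (n 0 (n 3044 z (n 7546971 z z)) (n 0 z (n 0 z (n 0 z (n 0 z
 (n 0 (n 3044 z z) z)))))) (n 2 (n 0 z (n 0 (n 3044 z (n 3044 z z)) (n 0 z (n 0 (n 8590939 z (n
 7735339 z z)) (n 0 (n 3044 z (n 3044 z z)) (n 0 z z)))))) (n 2 (n 0 (n 3044 z (n 3044 z z)) (n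
 0 z (n 0 z (n 0 z (n 0 z (n 0 (n 1981 z z) z)))))) (n 2 (n 0 z (n 0 (n 692 z (n 692 z z)) (n 0
 z (n 0 (n 692 z (n 7735339 z z)) (n 0 (n 692 z (n 692 z z)) (n 0 z z)))))) (n 1 z (n 2 (n 0 (n
 692 z (n 7612427 z z)) (n 0 z (n 0 z (n 0 z (n 0 z (n 0 (n 1989 z z) z)))))) z)))))) (n 0 z (n
 0 z (n 0 z (n 0 z (n 0 z (n 0 z (n 0 z (n 0 z (n 0 z (n 0 z (n 0 z (n 0 z (n 0 z (n 0 z (n 0 z
 z)))))))))))))))))))))))))))) (n 761 (n 0 z (n 0 z (n 0 z (n 0 z (n 0 z (n 0 z (n 0 z (n 0 z (n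
 0 z (n 0 z (n 0 z z))))))))))) (n 761 (n 0 z (n 0 z (n 0 z (n 0 z (n 0 z (n 0 z (n 0 z (n 0 z
 (n 0 z (n 0 z (n 0 z z))))))))))) (n 761 (n 0 z (n 0 z (n 0 z (n 2 (n 2 (n 0 z (n 0 (n 692 z z)
 (n 0 z (n 0 z (n 0 (n 692 z z) (n 0 (n 692 z (n 692 z z)) z)))))) (n 1 z (n 1 z z))) (n 0 z (n
 0 z (n 0 z (n 0 z (n 0 z (n 0 z (n 0 z z))))))))))) (n 173 (n 0 z (n 0 z (n 0 z (n 0 z (n 0 z
 (n 0 z (n 0 z (n 0 z (n 0 z z))))))))) (n 173 (n 0 z (n 0 z (n 0 z (n 0 z (n 0 z (n 0 z (n 0 z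
 (n 0 z (n 0 z z))))))))) (n 173 (n 0 z (n 0 z (n 0 z (n 2 z (n 0 z (n 0 z (n 0 z (n 0 z (n 0 z
 z))))))))) z)))))))))) (n 0 (n 0 z (n 0 z (n 0 z (n 351 (n 0 z (n 2 (n 0 z (n 0 z (n 2 (n 0 z
 (n 0 z (n 0 z (n 0 z (n 0 z (n 0 z z)))))) (n 1 z (n 1 z z))))) (n 0 z (n 0 z (n 0 z (n 0 z (n
 0 z (n 0 z (n 0 z z))))))))) (n 351 (n 0 z (n 0 z (n 0 z (n 0 z (n 0 z (n 0 z (n 0 z (n 0 z (n
 0 z z))))))))) (n 351 (n 0 z (n 0 z (n 0 z (n 0 z (n 0 z (n 0 z (n 0 z (n 2 (n 2 (n 0 z (n 0 z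
 (n 0 z (n 0 z (n 0 z (n 0 z z)))))) (n 1 z (n 1 z z))) (n 0 z z))))))))) (n 349 (n 0 z (n 0 z
 (n 0 z (n 0 z (n 0 z (n 0 z (n 0 z (n 0 z (n 0 z (n 0 z (n 0 z (n 0 z (n 0 z (n 0 z (n 0 z (n 0
 z (n 0 z (n 0 z (n 0 z (n 0 z (n 0 z (n 0 z (n 0 z (n 0 z (n 0 z (n 0 z (n 0 z (n 0 z
 z)))))))))))))))))))))))))))) (n 349 (n 0 z (n 0 z (n 0 z (n 0 z (n 0 z (n 0 z (n 0 z (n 0 z (n
 0 z (n 0 z (n 0 z (n 0 z (n 0 z (n 0 z (n 0 z (n 2 (n 0 z z) (n 0 z (n 0 z (n 0 z (n 0 z (n 0 z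
 (n 0 z (n 0 z (n 0 z (n 0 z (n 0 z (n 0 z (n 0 z z)))))))))))))))))))))))))))) (n 349 (n 0 z (n
 0 z (n 0 z (n 0 z (n 0 z (n 0 z (n 0 z (n 0 z (n 0 z (n 0 z (n 0 z (n 0 z (n 0 z (n 0 z (n
 0x8ea8c860077a7d847e818184868381897b80807a7d82867f8379837f78857e83807f7d7d7f807f8181827e857e7f807e7e7d8182837b7f0809
 z (n 0 z (n 0 z (n 0 z (n 0 z (n 0 z (n 0 z (n 0 z (n 0 z (n 0 z (n 0 z (n 0 z (n 0 z (n 0 z
 z)))))))))))))))))))))))))))) z))))))))) (n 0 (n 0 z (n 0 z (n 377 (n 0 z (n 0 z (n 0 z (n 0 z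
 (n 0 z (n 0 z (n 0 z (n 0 z (n 0 z (n 0 z (n 0 z (n 0 z (n 0 z (n 0 z (n 2 (n 0 z (n 0 z (n 2
 (n 0 z (n 0 z (n 0 z (n 0 z (n 0 z (n 0 z z)))))) (n 1 z (n 1 z z))))) (n 0 z (n 0 z (n 0 z (n
 0 z (n 0 z z)))))))))))))))))))) (n 377 (n 0 z (n 2 (n 0 z (n 2 (n 0 z (n 0 z (n 0 z (n 0 z (n
 0 z (n 0 z z)))))) (n 2 (n 0 z (n 0 z (n 0 z (n 0 z (n 0 z (n 0 z z)))))) (n 2 (n 0 z (n 0 z (n
 0 z (n 0 z (n 0 z (n 0 z z)))))) z)))) (n 0 z (n 0 z (n 0 z (n 0 z (n 0 z (n 0 z (n 0 z (n 0 z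
 (n 0 z (n 0 z (n 0 z (n 0 z (n 0 z (n 0 z (n 0 z (n 0 z (n 0 z (n 0 z z)))))))))))))))))))) (n
 377 (n 0 z (n 0 z (n 0 z (n 0 z (n 0 z (n 0 z (n 0 z (n 0 z (n 0 z (n 0 z (n 0 z (n 0 z (n 0 z
 (n 0 z (n 0 z (n 0 z (n 0 z (n 0 z (n 0 z (n 0 z z)))))))))))))))))))) (n 365 (n 0 z (n 0 z (n
 0 z (n 0 z (n 0 z (n 0 z (n 0 z (n 0 z (n 0 z (n 0 z (n 0 z (n 0 z z)))))))))))) (n 365 (n 0 z
 (n 0 z (n 0 z (n 0 z (n 0 z (n 0 z (n 0 z (n 0 z (n 2 (n 0 z z) (n 0 z (n 0 z (n 0 z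
 z)))))))))))) (n 365 (n 0 z (n 0 z (n 2 z (n 0 z (n 0 z (n 0 z (n 0 z (n 0 z (n 0 z (n 0 z (n 0
 z (n 0 z z)))))))))))) z)))))))) (n 0 (n 0 z (n 809 (n 0 z (n 0 z (n 0 z (n 0 z (n 0 z (n 0 z
 (n 0 z z))))))) (n 809 (n 0 z (n 2 (n 0 z (n 2 (n 0 z (n 0 z (n 0 z (n 0 z (n 0 z (n 0 (n
 8872459 z z) z)))))) (n 1 z (n 1 z z)))) (n 0 z (n 0 z (n 0 z (n 0 z (n 0 z z))))))) (n 809 (n
 0 z (n 0 z (n 0 z (n 0 z (n 2 (n 1 z (n 1 z (n 1 z z))) (n 0 z (n 0 z z))))))) (n 497 (n 0 z (n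
 0 z (n 0 z (n 2 (n 0 z (n 0 z z)) (n 0 z (n 0 z (n 0 z (n 0 z (n 0 z (n 0 z (n 0 z (n 0 z (n 0
 z (n 0 z (n 0 z (n 0 z (n 0 z z))))))))))))))))) (n 497 (n 0 z (n 0 z (n 0 z (n 0 z (n 0 z (n 0
 z (n 0 z (n 0 z (n 0 z (n 0 z (n 0 z (n 0 z (n 0 z (n 0 z (n 0 z (n 0 z (n 0 z
 z))))))))))))))))) (n 497 (n 0 z (n 0 z (n 0 z (n 0 z (n 0 z (n 0 z (n 0 z (n 0 z (n 0 z (n 0 z
 (n 0 z (n 0 z (n 0 z (n 0 z (n 0 z (n 0 z (n 0 z z))))))))))))))))) z))))))) (n 0 (n 495 (n 0 z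
 (n 0 z (n 0 z (n 0 z (n 0 z (n 0 z (n 0 z (n 0 z (n 0 z (n 0 z (n 0 z (n 0 z (n 0 z (n 0 z (n 0
 z (n 0 z (n 0 z z))))))))))))))))) (n 495 (n 0 z (n 0 z (n 0 z (n 0 z (n 0 z (n 0 z (n 0 z (n 0
 z (n 0 z (n 0 z (n 0 z (n 0 z (n 0 z (n 0 z (n 0 z (n 0 z (n 0 z z))))))))))))))))) (n 495 (n 0
 z (n 0 z (n 0 z (n 0 z (n 0 z (n 0 z (n 0 z (n 0 z (n 0 z (n 0 z (n 0 z (n 0 z (n 0 z (n 0 z (n
 0 z (n 0 z (n 0 z z))))))))))))))))) (n 497 (n 0 z (n 0 z (n 0 z (n 0 z (n 0 z (n 0 z (n 0 z (n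
 0 z (n 0 z (n 0 z (n 0 z (n 0 z (n 0 z (n 0 z (n 0 z (n 0 z (n 0 z (n 0 z (n 0 z (n 0 z (n 0 z
 (n 0 z (n 0 z (n 0 z (n 0 z (n 0 z z)))))))))))))))))))))))))) (n 497 (n 0 z (n 0 z (n 0 z (n 0
 z (n 0 z (n 0 z (n 0 z (n 0 z (n 0 z (n 0 z (n 0 z (n 0 z (n 0 z (n 0 z (n 0 z (n 0 z (n 0 z (n
 0 z (n 0 z (n 0 z (n 0 z (n 0 z (n 0 z (n 0 z (n 0 z (n 0 z z)))))))))))))))))))))))))) (n 497
 (n 0 z (n 0 z (n 0 z (n 0 z (n 0 z (n 0 z (n 0 z (n 0 z (n 0 z (n 0 z (n 0 z (n 0 z (n 0 z (n 0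
 z (n 0 z (n 0 z (n 0 z (n 0 z (n 0 z (n 0 z (n 0 z (n 0 z (n 2 z (n 0 z (n 0 z (n 0 z
 z)))))))))))))))))))))))))) z)))))) (n 0 (n 0 z (n 0 z (n 1 (n 0 z (n 0 z (n 0 z (n 2 (n 0 z (n
 0 z z)) (n 0 z (n 0 z (n 0 z (n 0 z (n 0 z (n 0 z (n 0 z (n 0 z z)))))))))))) (n 1 (n 0 z (n 0
 z (n 0 z (n 0 z (n 0 z (n 0 z (n 0 z (n 0 z (n 0 z (n 0 z (n 0 z (n 0 z z)))))))))))) (n 1 (n 0
 z (n 0 z (n 0 z (n 0 z (n 0 z (n 0 z (n 0 z (n 0 z (n 0 z (n 0 z (n 0 z (n 0 z z))))))))))))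
 z))))) (n 0 (n 0 z (n 389 (n 0 z (n 0 z (n 0 z (n 0 z (n 0 z (n 0 z (n 0 z (n 0 z (n 0 z (n 0 z
 (n 0 z (n 0 z (n 0 z (n 0 z (n 0 z (n 0 z (n 0 z (n 0 z (n 0 z (n 0 z (n 0 z (n 0 z (n 0 z (n 0
 z (n 0 z (n 0 z (n 0 z (n 0 z (n 0 z (n 0 z (n 0 z (n 0 z (n 0 z (n 0 z (n 0 z (n 0 z (n 0 z (n
 0 z (n 0 z (n 0 z (n 0 z (n 0 z (n 0 z (n 0 z (n 0 z (n 0 z
 z)))))))))))))))))))))))))))))))))))))))))))))) (n 389 (n 0 z (n 0 z (n 0 z (n 0 z (n 0 z (n 0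
 z (n 0 z (n 0 z (n 0 z (n 0 z (n 0 z (n 0 z (n 0 z (n 0 z (n 0 z (n 0 z (n 0 z (n 0 z (n 0 z (n
 0 z (n 0 z (n 0 z (n 0 z (n 0 z (n 0 z (n 0 z (n 0 z (n 2 (n 0 z z) (n 0 z (n 0 z (n 0 z (n 0 z
 (n 0 z (n 0 z (n 0 z (n 0 z (n 0 z (n 0 z (n 0 z (n 0 z (n 0 z (n 0 z (n 0 z (n 0 z (n 0 z (n 0
 z z)))))))))))))))))))))))))))))))))))))))))))))) (n 389 (n 0 z (n 0 z (n 0 z (n
 0x1aec8e6420383847d82767f83757a7f817b817c858691767a838d8681898576827578788679848a8a82827f807a8181887f86827b787f820809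
 z (n 0 z (n 0 z (n 0 z (n 0 z (n 0 z (n 0 z (n 0 z (n 0 z (n 0 z (n 0 z (n 0 z (n 0 z (n 0 z (n
 0 z (n 0 z (n 0 z (n 0 z (n 0 z (n 0 z (n 0 z (n 0 z (n 0 z (n 0 z (n 0 z (n 0 z (n 0 z (n 0 z
 (n 0 z (n 0 z (n 0 z (n 0 z (n 0 z (n 0 z (n 0 z (n 0 z (n 0 z (n 0 z (n 0 z (n 0 z (n 0 z (n 0
 z (n 0 z z)))))))))))))))))))))))))))))))))))))))))))))) z)))) (n 0 (n 5 (n 0 z (n 2 (n 0 z (n
 0 z z)) (n 0 z (n 0 z (n 0 z (n 0 z (n 0 z (n 0 z (n 0 z (n 0 z (n 0 z (n 0 z (n 0 z (n 0 z (n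
 0 z (n 0 z (n 0 z (n 0 z (n 0 z (n 0 z (n 0 z (n 0 z (n 0 z (n 0 z (n 0 z
 z))))))))))))))))))))))))) (n 5 (n 0 z (n 0 z (n 0 z (n 0 z (n 0 z (n 0 z (n 0 z (n 0 z (n 0 z
 (n 0 z (n 0 z (n 0 z (n 0 z (n 0 z (n 0 z (n 0 z (n 0 z (n 0 z (n 0 z (n 0 z (n 0 z (n 0 z (n 0
 z (n 0 z (n 0 z z))))))))))))))))))))))))) (n 5 (n 0 z (n 0 z (n 0 z (n 0 z (n 0 z (n 0 z (n 0
 z (n 0 z (n 0 z (n 0 z (n 0 z (n 0 z (n 0 z (n 0 z (n 2 z (n 0 z (n 0 z (n 0 z (n 0 z (n 0 z (n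
 0 z (n 0 z (n 0 z (n 0 z (n 0 z z))))))))))))))))))))))))) z))) (n 0 (n 0 z (n 0 z z)) (n 0 (n
 0 z z) (n 0 z z)))))))))))))) (n 0 (n 1 (n 6566179 z (n 6566179 z (n 6566179 z (n 6566179 z (n
 6566179 z (n 6566179 z z)))))) (n 0 z (n 0 z z))) (n 0 z z)))) (n
 0x496ba1d4e50aa8e836575896b8c289c4146a441c4dc16b6988d3d9851390569562c49a0d2 (n 0 (n 153 (n
 6496275 z (n 0 z (n 0 z (n 0 z (n 0 z z))))) (n 33 (n 0 z (n 0 z (n 0 z (n 6496515 z (n 0 z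
 z))))) (n 9 (n 6496515 z (n 2 z (n 10 z (n 0 z (n
 0xd3080586108380808380857e80807a7a888289808a738091907585769275827c91889481716a85778c6f776c947092798d7e7593826a860089
 z (n
 0xd3080586108380808380857e80807a7a888289808a738091907585769275827c91889481716a85778c6f776c947092798d7e7593826a860089
 z (n 18 z (n
 0x1c63080808081807e7f7e808280808081818381808483807b7d837d8080808181817d7b818186817c7b858184827f7a8083847d810049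
 z (n 6496515 z (n
 0x6ca8a862077f80808280837e80817c7f7f837d847d7d808b837f827789787e80857d85867a78847c887c7a79887b84828577818a81777f0809
 z (n
 0x1a630808080818081807f827e80808080847e7f80827f80817e827f7c8484817e83827b847f84817e7a857e7f7e807b8082827d800049
 z (n 0 z (n 0 z (n 0 z (n 6496515 z (n 0 z (n 0 z (n 0 z (n 0 z (n 6496275 z (n 0 z (n 0 z (n
 0xd3180586308380808380857e80807a7a888289808a738091907585769275827c91889481716a85778c6f776c947092798d7e7593826a860089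
 z (n
 0xd3080586108380808380857e80807a7a888289808a738091907585769275827c91889481716a85778c6f776c947092798d7e7593826a860089
 z (n 26 z z))))))))))))))))))))))))) (n 27 (n 34 z (n 6496515 z (n 42 z (n 50 z (n 0 z z)))))
 (n 7 (n 58 z (n
 0xd3100586208380808380857e80807a7a888289808a738091907585769275827c91889481716a85778c6f776c947092798d7e7593826a860089
 z (n 66 z (n 74 z (n 0 z (n
 0xd3108586218380808380857e80807a7a888289808a738091907585769275827c91889481716a85778c6f776c947092798d7e7593826a860089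
 z (n 6558219 z (n 6558219 z (n 0 z (n
 0x2ca6ca200380808081808080808080807e807f818181807f807f80807f807f827f807f818180818080817f8080808080808080808080800809
 z z)))))))))) (n 0 (n 82 z (n
 0xd3180586308380808380857e80807a7a888289808a738091907585769275827c91889481716a85778c6f776c947092798d7e7593826a860089
 z (n
 0x4a61080808084807f79798e7a80947691877a81809587807d6894737f76b5936c9776669475858d6c619a7e8480905e789280667f0049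
 z (n 90 z (n 0 z (n 98 z (n 0 z (n 106 z (n 0 z (n 0 z (n
 0xd3100586208380808380857e80807a7a888289808a738091907585769275827c91889481716a85778c6f776c947092798d7e7593826a860089
 z (n 0 z (n 2164315 z (n
 0x2321b21900c0d9510c840622c86c80207818b907f8b7986778c7982558265598bb28074618376896893afb6403d7e7f9a757ca38b8894826f85776775a18c6088a1811809
 z z)))))))))))))) z)))))) (n 153 (n 0 (n 0 z (n 0 z (n 0 z (n 7 (n 0 z (n 0 z (n 0 z (n 0 z (n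
 0 z (n 0 z (n 0 z z))))))) (n 7 (n 0 z (n 0 z (n 0 z (n 2 (n 0 z (n 1 z (n 1 z (n 2 (n 0 z (n 0
 z (n 0 z (n 0 z (n 0 z (n 0 (n 8873227 z z) z)))))) (n 2 (n 0 z (n 0 z (n 0 z (n 0 z (n 0 z (n
 0 z z)))))) (n 1 z (n 1 z (n 2 (n 0 z (n 0 z (n 0 z (n 0 z (n 0 z (n 0 z z)))))) z)))))))) (n 0
 z (n 0 z (n 0 z z))))))) (n 7 (n 0 z (n 0 z (n 0 z (n 0 z (n 2 (n 1 z (n 1 z (n 1 z (n 1 z (n 1
 z (n 1 z (n 1 z z))))))) (n 0 z (n 0 z z))))))) (n 723 (n 0 z (n 0 z (n 0 z (n 0 z (n 0 z (n 0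
 z (n 0 z (n 0 z (n 0 z (n 0 z (n 0 z (n 0 z (n 0 z (n 0 z (n 0 z (n 0 z (n 0 z (n 0 z (n 0 z (n
 0 z (n 0 z (n 0 z (n 0 z (n 0 z (n 0 z (n 0 z z)))))))))))))))))))))))))) (n 723 (n 0 z (n 0 z
 (n 0 z (n 0 z (n 0 z (n 0 z (n 0 z (n 0 z (n 0 z (n 0 z (n 0 z (n 0 z (n 0 z (n 0 z (n 0 z (n 0
 z (n 0 z (n 0 z (n 0 z (n 0 z (n 0 z (n 0 z (n 0 z (n 0 z (n 0 z (n 0 z
 z)))))))))))))))))))))))))) (n 723 (n 0 z (n 0 z (n 0 z (n 0 z (n 0 z (n 0 z (n 0 z (n 0 z (n 0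
 z (n 0 z (n 2 (n 2 (n 0 z (n 0 z (n 0 z (n 0 z (n 0 z (n 0 z z)))))) (n 1 z (n 1 z (n 2 (n 0 z
 (n 0 z (n 0 z (n 0 z (n 0 z (n 0 z z)))))) z)))) (n 0 z (n 0 z (n 0 z (n 0 z (n 0 z (n 0 z (n 0
 z (n 0 z (n 0 z (n 0 z (n 0 z (n 0 z (n 0 z (n 0 z (n 0 z z)))))))))))))))))))))))))) (n 97 (n
 2 (n 0 z (n 0 z (n 0 z z))) (n 0 z (n 0 z (n 0 z (n 0 z (n 0 z (n 0 z (n 0 z (n 0 z (n 0 z (n 0
 z (n 0 z (n 0 z (n 0 z (n 0 z (n 0 z (n 0 z (n 0 z (n 0 z (n 0 z (n 0 z (n 0 z (n 0 z (n 0 z (n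
 0 z (n 0 z (n 0 z (n 0 z z)))))))))))))))))))))))))))) (n 97 (n 0 z (n 0 z (n 0 z (n 0 z (n 0 z
 (n 0 z (n 0 z (n 2 (n 0 z (n 0 z z)) (n 0 z (n 0 z (n 0 z (n 0 z (n 0 z (n 0 z (n 0 z (n 0 z (n
 0 z (n 0 z (n 0 z (n 0 z (n 0 z (n 0 z (n 0 z (n 0 z (n 0 z (n 0 z (n 0 z (n 0 z
 z)))))))))))))))))))))))))))) (n 97 (n 0 z (n 0 z (n 0 z (n 0 z (n 0 z (n 0 z (n 0 z (n 0 z (n
 0 z (n 0 z (n 0 z (n
 0xc64ea280701764764301823b23b2080c1d95195040e08ea8c8620788817c90907a5e74867f70827da274a75f80c0d6677a4bb26a81947698a07e182a8380b8903c25d09a85c2863277c29b2a822809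
 z (n 0 z (n 0 z (n 0 z (n 0 z (n 0 z (n 0 z (n 0 z (n 0 z (n 0 z (n 0 z (n 0 z (n 0 z (n 0 z (n
 0 z (n 0 z (n 0 z z)))))))))))))))))))))))))))) (n 97 (n 0 z (n 0 z (n 0 z (n 0 z (n 0 z (n 0 z
 (n 0 z (n 0 z (n 0 z (n 0 z (n 0 z (n 0 z (n 2 z (n 0 z (n 0 z (n 0 z (n 0 z (n 0 z (n 0 z (n 0
 z (n 0 z (n 0 z (n 0 z (n 0 z (n 0 z (n 0 z (n 0 z (n 0 z z))))))))))))))))))))))))))))
 z))))))))))))) (n 0 (n 0 z (n 0 z (n 33 (n 2 (n 0 z (n 0 z (n 1 z (n 1 z (n 2 (n 0 z (n 0 z (n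
 0 z (n 0 z (n 0 z (n 0 z z)))))) (n 2 (n 0 z (n 0 z (n 0 z (n 0 z (n 0 z (n 0 z z)))))) (n 1 z
 (n 2 (n 0 z (n 0 z (n 0 z (n 0 z (n 0 z (n 0 (n 8872987 z z) z)))))) (n 2 (n 0 z (n 0 z (n 0 z
 (n 0 z (n 0 z (n 0 z z)))))) z))))))))) (n 0 z (n 0 z (n 0 z (n 0 z (n 0 z z)))))) (n 33 (n 0 z
 (n 2 (n 0 z (n 2 (n 0 z (n 0 z (n 0 z (n 0 z (n 0 z (n 0 z z)))))) (n 2 (n 0 z (n 0 z (n 0 z (n
 0 z (n 0 z (n 0 z z)))))) (n 2 (n 0 z (n 0 z (n 0 z (n 0 z (n 0 z (n 0 z z)))))) (n 2 (n 0 z (n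
 0 z (n 0 z (n 0 z (n 0 z (n 0 z z)))))) (n 2 (n 0 z (n 0 z (n 0 z (n 0 z (n 0 z (n 0 z z))))))
 (n 2 (n 0 z (n 0 z (n 0 z (n 0 z (n 0 z (n 0 z z)))))) (n 2 (n 0 z (n 0 z (n 0 z (n 0 z (n 0 z
 (n 0 z z)))))) z)))))))) (n 0 z (n 0 z (n 0 z (n 0 z z)))))) (n 33 (n 0 z (n 0 z (n 0 z (n 0 z
 (n 0 z (n 0 z z)))))) (n 729 (n 2 (n 0 z (n 0 z (n 2 (n 0 z (n 0 z (n 0 z (n 0 z (n 0 z (n 0 z
 z)))))) (n 1 z (n 1 z (n 2 (n 0 z (n 0 z (n 0 z (n 0 z (n 0 z (n 0 z z)))))) z)))))) (n 0 z (n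
 0 z (n 0 z (n 0 z (n 0 z (n 0 z (n 0 z (n 0 z (n 0 z (n 0 z (n 0 z (n 0 z z))))))))))))) (n 729
 (n 0 z (n 0 z (n 0 z (n 0 z (n 0 z (n 0 z (n 0 z (n 0 z (n 2 (n 0 z (n 2 (n 0 z (n 0 z (n 0 z
 (n 0 z (n 0 z (n 0 z z)))))) (n 1 z (n 2 (n 0 (n 68 z z) (n 0 z (n 0 z (n 0 (n 68 z z) (n 0 z
 (n 0 (n 68 z (n 68 z z)) z)))))) (n 2 (n 0 z (n 0 z (n 0 z (n 0 z (n 0 z (n 0 z z)))))) z)))))
 (n 0 z (n 0 z (n 0 z (n 0 z z))))))))))))) (n 729 (n 0 z (n 0 z (n 0 z (n 0 z (n 0 z (n 0 z (n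
 0 z (n 0 z (n 0 z (n 0 z (n 0 z (n 0 z (n 0 z z))))))))))))) (n 17 (n 0 z (n 0 z (n 0 z (n 2 (n
 0 z (n 0 z (n 0 z z))) (n 0 z (n 0 z (n 0 z (n 0 z (n 0 z z))))))))) (n 17 (n 0 z (n 0 z (n 0 z
 (n 0 z (n 0 z (n 0 z (n 0 z (n
 0x3b1bb0a00c0594594100e00ec8ec820380808080817f8180817f807f807f80808080808080807f808080807f817f80808080808081808080808080808080808080801809
 z (n 0 z z))))))))) (n 17 (n 0 z (n 0 z (n 0 z (n 0 z (n 0 z (n 0 z (n 0 z (n 0 z (n 0 z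
 z))))))))) (n 17 (n 0 z (n 0 z (n 0 z (n 0 z (n 0 z (n 0 z (n 0 z (n 0 z (n 0 z z)))))))))
 z)))))))))))) (n 0 (n 0 z (n 33 (n 0 z (n 2 (n 0 z (n 0 z (n 1 z (n 1 z (n 2 (n 0 z (n 0 z (n 0
 z (n 0 z (n 0 z (n 0 z z)))))) (n 2 (n 0 z (n 0 z (n 0 z (n 0 z (n 0 z (n 0 z z)))))) (n 1 z (n
 1 z (n 2 (n 0 z (n 0 z (n 0 z (n 0 z (n 0 z (n 0 z z)))))) z))))))))) (n 0 z (n 0 z (n 0 z (n 0
 z (n 0 z (n 0 z (n 0 z (n 0 z (n 0 z (n 0 z (n 0 z (n 0 z (n 0 z (n 0 z z)))))))))))))))) (n 33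
 (n 0 z (n 0 z (n 0 z (n 0 z (n 0 z (n 0 z (n 0 z (n 0 z (n 0 z (n 0 z (n 0 z (n 0 z (n 0 z (n 0
 z (n 0 z (n 0 z z)))))))))))))))) (n 33 (n 0 z (n 0 z (n 0 z (n 0 z (n 2 (n 1 z (n 1 z (n 2 (n
 0 z (n 0 z (n 0 z (n 0 z (n 0 z (n 0 z z)))))) (n 2 (n 0 z (n 0 z (n 0 z (n 0 z (n 0 z (n 0 z
 z)))))) (n 1 z (n 2 (n 0 z (n 0 z (n 0 z (n 0 z (n 0 z (n 0 z z)))))) (n 2 (n 0 z (n 0 z (n 0 z
 (n 0 z (n 0 z (n 0 z z)))))) z))))))) (n 0 z (n 0 z (n 0 z (n 0 z (n 0 z (n 0 z (n 0 z (n 0 z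
 (n 0 z (n 0 z (n 0 z z)))))))))))))))) (n 729 (n 0 z (n 2 (n 0 z (n 0 z (n 2 (n 0 z (n 0 z (n 0
 z (n 0 z (n 0 z (n 0 z z)))))) (n 1 z (n 1 z (n 2 (n 0 z (n 0 z (n 0 z (n 0 z (n 0 z (n 0 z
 z)))))) z)))))) (n 0 z (n 0 z (n 0 z (n 0 z (n 0 z (n 0 z (n 0 z (n 0 z (n 0 z (n 0 z (n 0 z (n
 0 z (n 0 z (n 0 z (n 0 z (n 0 z (n 0 z (n 0 z (n 0 z (n 0 z (n 0 z (n 0 z (n 0 z (n 0 z (n 0 z
 (n 0 z (n 0 z (n 0 z (n 0 z (n 0 z (n 0 z (n 0 z (n 0 z z))))))))))))))))))))))))))))))))))) (n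
 729 (n 0 z (n 0 z (n 0 z (n 0 z (n 0 z (n 0 z (n 0 z (n 0 z (n 0 z (n 0 z (n 0 z (n 0 z (n 0 z
 (n 0 z (n 0 z (n 0 z (n 0 z (n 0 z (n 0 z (n 0 z (n 0 z (n 0 z (n 0 z (n
 0x3bb0bb0280c11951950c0e06ca8ca800785807f8e8b7d6b7e847f7984828d838f6480b0c47b7345b06a7590b190829a35448777b18d4a33c48e8abb8d2d7db58533791809
 z (n 0 z (n 0 z (n 0 z (n 0 z (n 0 z (n 0 z (n 0 z (n 0 z (n 0 z (n 0 z (n 0 z
 z))))))))))))))))))))))))))))))))))) (n 729 (n 0 z (n 0 z (n 0 z (n 0 z (n 0 z (n 0 z (n 0 z (n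
 0 z (n 0 z (n 0 z (n 0 z (n 0 z (n 0 z (n 0 z (n 0 z (n 0 z (n 0 z (n 0 z (n 0 z (n 0 z (n 0 z
 (n 0 z (n 0 z (n 0 z (n 0 z (n 0 z (n 0 z (n 0 z (n 0 z (n 0 z (n 0 z (n 0 z (n 0 z (n 0 z (n 0
 z z))))))))))))))))))))))))))))))))))) (n 17 (n 0 z (n 0 z (n 0 z (n 0 z (n 0 z (n 0 z (n 0 z
 (n 0 z (n 0 z (n 0 z (n 2 (n 0 z (n 0 z (n 0 z z))) (n 0 z (n 0 z (n 0 z (n 0 z (n 0 z (n 0 z
 (n 0 z (n 0 z (n 0 z (n 0 z (n 0 z (n 0 z (n 0 z (n 0 z (n 0 z (n 0 z (n 0 z (n 0 z (n 0 z (n 0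
 z (n 0 z (n 0 z (n 0 z (n 0 z (n 0 z z)))))))))))))))))))))))))))))))))))) (n 17 (n 0 z (n 0 z
 (n 0 z (n 0 z (n 0 z (n 0 z (n 0 z (n 0 z (n 0 z (n 0 z (n 0 z (n 0 z (n 0 z (n 0 z (n 0 z (n 0
 z (n 0 z (n 0 z (n 0 z (n 0 z (n 0 z (n 0 z (n 0 z (n 0 z (n 0 z (n 0 z (n 0 z (n 0 z (n 0 z (n
 0 z (n 0 z (n 0 z (n 0 z (n 0 z (n 0 z (n 0 z z)))))))))))))))))))))))))))))))))))) (n 17 (n 0
 z (n 0 z (n 0 z (n 0 z (n 0 z (n 0 z (n 0 z (n 0 z (n 0 z (n 0 z (n 0 z (n 0 z (n 0 z (n 0 z (n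
 0 z (n 0 z (n 0 z (n 0 z (n 0 z (n 0 z (n 0 z (n 0 z (n 0 z (n 0 z (n 0 z (n 0 z (n 0 z (n 0 z
 (n 0 z (n
 0xec6ec28030176476430180b2a32a181c0195195040e00ecac8620780808080807f8180817f808081808080808080808080808080808080807f8180808080807f808080808080808080808080812809
 z (n 0 z (n 0 z (n 0 z (n 0 z (n 0 z (n 0 z z)))))))))))))))))))))))))))))))))))) (n 17 (n 0 z
 (n 0 z (n 0 z (n 0 z (n 0 z (n 0 z (n 0 z (n 0 z (n 0 z (n 0 z (n 0 z (n 0 z (n 0 z (n 0 z (n 0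
 z (n 0 z (n 0 z (n 0 z (n 0 z (n 0 z (n 0 z (n 0 z (n 0 z (n 0 z (n 0 z (n 0 z (n 0 z (n 0 z (n
 0 z (n 0 z (n 0 z (n 0 z (n 0 z (n 0 z (n 0 z (n 0 z z))))))))))))))))))))))))))))))))))))
 z))))))))))) (n 0 (n 33 (n 0 z (n 0 z (n 0 z (n 0 z (n 0 z (n 0 z (n 0 z (n 0 z (n 0 z (n 0 z
 (n 0 z (n 0 z z)))))))))))) (n 33 (n 0 z (n 0 z (n 0 z (n 0 z (n 0 z (n 0 z (n 0 z (n 0 z (n 0
 z (n 0 z (n 0 z (n 0 z z)))))))))))) (n 33 (n 0 z (n 0 z (n 0 z (n 0 z (n 0 z (n 0 z (n 0 z (n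
 0 z (n 0 z (n 0 z (n 0 z (n 0 z z)))))))))))) (n 729 (n 0 z (n 0 z (n 0 z (n 0 z (n 0 z (n 0 z
 (n 0 z (n 0 z (n 0 z (n 0 z (n 0 z (n 0 z (n 0 z (n 0 z (n 0 z (n 0 z (n 0 z (n 0 z (n 0 z (n 0
 z (n 0 z (n 0 z (n 0 z (n 0 z (n 0 z z))))))))))))))))))))))))) (n 729 (n 0 z (n 2 (n 0 z (n 2
 (n 0 (n 8848155 z (n 8848155 z z)) (n 0 z (n 0 (n 8848155 z (n 8848155 z z)) (n 0 z (n 0 (n
 8848155 z (n 8848155 z z)) (n 0 (n 8848155 z (n 8848155 z z)) z)))))) (n 1 z (n 1 z (n 2 (n 0 z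
 (n 0 z (n 0 (n 1348 z (n 1348 z z)) (n 0 (n 1348 z (n 1348 z z)) (n 0 (n 7473243 z (n 1348 z
 z)) (n 0 (n 6424667 z (n 6424667 z z)) z)))))) z))))) (n 0 z (n 0 z (n 0 z (n 0 z (n 0 z (n 0 z
 (n 0 z (n 0 z (n 0 z (n 0 z (n 0 z (n 0 z (n 0 z (n 0 z (n 0 z (n 0 z (n 0 z (n 0 z (n 0 z (n 0
 z (n 0 z (n 0 z (n 0 z z))))))))))))))))))))))))) (n 729 (n 0 z (n 0 z (n 0 z (n 0 z (n 0 z (n
 0 z (n 0 z (n 0 z (n 0 z (n 0 z (n 0 z (n 0 z (n 0 z (n 0 z (n 0 z (n 0 z (n 0 z (n 0 z (n 0 z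
 (n 0 z (n 0 z (n 0 z (n 0 z (n 0 z (n 0 z z))))))))))))))))))))))))) (n 337 (n 0 z (n 0 z (n 0
 z (n 0 z (n 0 z (n 0 z (n 0 z (n 0 z (n 0 z (n 0 z (n 0 z (n 0 z (n 0 z (n 0 z (n 0 z (n 0 z (n
 0 z (n 0 z (n 0 z (n 0 z (n 0 z (n 0 z (n 0 z (n 0 z (n 0 z z))))))))))))))))))))))))) (n 337
 (n 0 z (n 0 z (n 2 (n 0 z (n 0 z z)) (n 0 z (n 0 z (n 0 z (n 0 z (n 0 z (n 0 z (n 0 z (n 0 z (n
 0 z (n 0 z (n 0 z (n 0 z (n 0 z (n 0 z (n 0 z (n 0 z (n 0 z (n 0 z (n 0 z (n 0 z (n 0 z (n 0 z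
 z))))))))))))))))))))))))) (n 337 (n 0 z (n 0 z (n 0 z (n 0 z (n 0 z (n 0 z (n 2 (n 0 z z) (n 0
 z (n 0 z (n 0 z (n 0 z (n 0 z (n 0 z (n 0 z (n 0 z (n 0 z (n 0 z (n 0 z (n 0 z (n 0 z (n 0 z (n
 0 z (n 0 z (n 0 z (n 0 z z))))))))))))))))))))))))) (n 337 (n 0 z (n 0 z (n 0 z (n 0 z (n 0 z
 (n 0 z (n 0 z (n 0 z (n 0 z (n 0 z (n 0 z (n 0 z (n 0 z (n 0 z (n 0 z (n 0 z (n 0 z (n 0 z (n 0
 z (n 0 z (n 0 z (n 0 z (n 0 z (n 0 z (n 0 z z))))))))))))))))))))))))) z)))))))))) (n 0 (n 0 z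
 (n 0 z (n 3 (n 0 z (n 0 z (n 0 z (n 0 z (n 0 z (n 0 z (n 0 z (n 0 z (n 0 z (n 0 z (n 0 z (n 0 z
 (n 0 z z))))))))))))) (n 3 (n 0 z (n 0 z (n 0 z (n 0 z (n 0 z (n 0 z (n 0 z (n 0 z (n 0 z (n 0
 z (n 0 z (n 0 z (n 0 z z))))))))))))) (n 3 (n 0 z (n 0 z (n 0 z (n 2 (n 2 (n 0 z (n 0 z (n 0 z
 (n 0 z (n 0 z (n 0 z z)))))) (n 2 (n 0 z (n 0 z (n 0 z (n 0 z (n 0 z (n 0 (n 53 z z) z)))))) (n
 2 (n 0 z (n 0 z (n 0 z (n 0 z (n 0 z (n 0 (n 212 z z) z)))))) (n 2 (n 0 z (n 0 z (n 0 z (n 0 z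
 (n 0 z (n 0 z z)))))) z)))) (n 0 z (n 0 z (n 0 z (n 0 z (n 0 z (n 0 z (n 0 z (n 0 z (n 0 z
 z))))))))))))) (n 53 (n 0 z (n 0 z (n 0 z (n 0 z (n 0 z (n 0 z (n 0 z (n 0 z (n 0 z (n 0 z (n 0
 z (n 0 z (n 2 (n 0 z (n 0 z (n 0 z z))) (n 0 z (n 0 z (n 0 z (n 0 z (n 0 z (n 0 z (n 0 z (n 0 z
 (n 0 z (n 0 z (n 0 z (n 0 z (n 0 z (n 0 z (n 0 z z)))))))))))))))))))))))))))) (n 53 (n 0 z (n
 0 z (n 0 z (n 0 z (n 0 z (n 0 z (n 0 z (n 0 z (n 0 z (n 0 z (n 0 z (n 0 z (n 0 z (n 0 z (n 0 z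
 (n 0 z (n 0 z (n 0 z (n 0 z (n 0 z (n 0 z (n 0 z (n 0 z (n 0 z (n 2 (n 0 z (n 0 z z)) (n 0 z (n
 0 z (n 0 z z)))))))))))))))))))))))))))) (n 53 (n 0 z (n 0 z (n 0 z (n 0 z (n 0 z (n 0 z (n 0 z
 (n 0 z (n 0 z (n 0 z (n 0 z (n 0 z (n 0 z (n 0 z (n 0 z (n 0 z (n 0 z (n 0 z (n 0 z (n 0 z (n 0
 z (n 0 z (n 0 z (n 0 z (n 0 z (n 0 z (n 0 z (n 0 z z)))))))))))))))))))))))))))) (n 53 (n 2 z
 (n 0 z (n 0 z (n 0 z (n 0 z (n 0 z (n 0 z (n 0 z (n 0 z (n 0 z (n 0 z (n 0 z (n 0 z (n 0 z (n 0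
 z (n 0 z (n 0 z (n 0 z (n 0 z (n 0 z (n 0 z (n 0 z (n 0 z (n 0 z (n 0 z (n 0 z (n 0 z (n 0 z
 z)))))))))))))))))))))))))))) z))))))))) (n 0 (n 0 z (n 9 (n 2 (n 0 z (n 0 z (n 2 (n 0 z (n 0 z
 (n 0 z (n 0 z (n 0 z (n 0 z z)))))) (n 1 z (n 2 (n 0 z (n 0 z (n 0 z (n 0 z (n 0 z (n 0 (n 53 z
 z) z)))))) (n 2 (n 0 z (n 0 z (n 0 z (n 0 z (n 0 z (n 0 z z)))))) z)))))) (n 0 z (n 0 z (n 0 z
 (n 0 z (n 0 z (n 0 z (n 0 z (n 0 z (n 0 z (n 0 z (n 0 z (n 0 z (n 0 z (n 0 z (n 0 z (n 0 z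
 z))))))))))))))))) (n 9 (n 0 z (n 0 z (n 0 z (n 0 z (n 0 z (n 0 z (n 0 z (n 0 z (n 0 z (n 0 z
 (n 0 z (n 0 z (n
 0xec8c42a0301765765201803aa328901c0595195040e00ec8ca420383807a83817f7f7d837e7882867e81827a808283798182827d80827b7e86847d7b847b837d7e7b8577857d847e7f877f7c802809
 z (n 0 z (n 0 z (n 0 z (n 0 z z))))))))))))))))) (n 9 (n 0 z (n 0 z (n 0 z (n 0 z (n 0 z (n 0 z
 (n 0 z (n 0 z (n 0 z (n 0 z (n 0 z (n 0 z (n 0 z (n 0 z (n 0 z (n 0 z (n 0 z z)))))))))))))))))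
 (n 53 (n 0 z (n 0 z (n 0 z (n 2 (n 0 z (n 0 z (n 0 z z))) (n 0 z (n 0 z (n 0 z (n 0 z (n 0 z (n
 0 z (n 0 z (n 0 z (n 0 z z))))))))))))) (n 53 (n 0 z (n 0 z (n 0 z (n 0 z (n 0 z (n 0 z (n 0 z
 (n 0 z (n 0 z (n
 0xd8c9d4500602ecac4280306765641201803b2b20101c21d91d9040612ca8ca8007807f7c7b85748e748a808a91736e6971b5806a489185817f99a78396645887c3929490678298837756835190a98f4c6aa3743009
 z (n 0 z (n 0 z (n 0 z z))))))))))))) (n 53 (n 0 z (n 0 z (n 0 z (n 0 z (n 0 z (n 0 z (n 0 z (n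
 0 z (n 0 z (n 0 z (n
 0x1d91d9040600ca8ca800780808080807f807f8081808080808080808080808080808080808080808080808080808080808080808080808080808080801009
 z (n 0 z (n 0 z z))))))))))))) (n 53 (n 0 z (n 0 z (n 0 z (n 0 z (n 0 z (n 0 z (n 0 z (n 0 z (n
 0 z (n 0 z (n 0 z (n 0 z (n 0 z z))))))))))))) z)))))))) (n 0 (n 51 (n 0 z (n 0 z (n 0 z (n 0 z
 (n 0 z (n 0 z (n 0 z (n 0 z (n 0 z (n 0 z (n 0 z (n 0 z (n 0 z (n 0 z (n 0 z (n 0 z (n 0 z (n 0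
 z (n 0 z (n 0 z (n 0 z (n 0 z (n 0 z (n 0 z (n 0 z (n 0 z (n 0 z (n 0 z (n 0 z (n 0 z (n 0 z (n
 0 z (n 0 z (n 0 z (n 0 z (n 0 z z)))))))))))))))))))))))))))))))))))) (n 51 (n 0 z (n 0 z (n 0
 z (n 0 z (n 0 z (n 0 z (n 0 z (n 0 z (n 0 z (n 0 z (n 0 z (n 0 z (n 0 z (n 0 z (n 2 (n 0 z (n 2
 (n 0 z (n 0 z (n 0 z (n 0 z (n 0 z (n 0 z z)))))) (n 1 z (n 1 z (n 2 (n 0 z (n 0 z (n 0 z (n 0
 z (n 0 (n 212 z z) (n 0 (n 212 z (n 212 z z)) z)))))) z))))) (n 0 z (n 0 z (n 0 z (n 0 z (n 0 z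
 (n 0 z (n 0 z (n 0 z (n 0 z (n 0 z (n 0 z (n 0 z (n 0 z (n 0 z (n 0 z (n 0 z (n 0 z (n 0 z (n 0
 z (n 0 z (n 0 z z)))))))))))))))))))))))))))))))))))) (n 51 (n 0 z (n 0 z (n 0 z (n 0 z (n 0 z
 (n 0 z (n 0 z (n 0 z (n 0 z (n 0 z (n 2 (n 2 (n 0 z (n 0 z (n 0 z (n 0 z (n 0 z (n 0 z z))))))
 (n 2 (n 0 z (n 0 z (n 0 z (n 0 z (n 0 z (n 0 z z)))))) (n 2 (n 0 z (n 0 z (n 0 z (n 0 z (n 0 z
 (n 0 z z)))))) (n 2 (n 0 z (n 0 z (n 0 z (n 0 z (n 0 z (n 0 z z)))))) z)))) (n 0 z (n 0 z (n 0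
 z (n 0 z (n 0 z (n 0 z (n 0 z (n 0 z (n 0 z (n 0 z (n 0 z (n 0 z (n 0 z (n 0 z (n 0 z (n 0 z (n
 0 z (n 0 z (n 0 z (n 0 z (n 0 z (n 0 z (n 0 z (n 0 z (n 0 z
 z)))))))))))))))))))))))))))))))))))) (n 53 (n 0 z (n 0 z (n 2 (n 0 z (n 0 z (n 0 z z))) (n 0 z
 (n 0 z (n 0 z (n 0 z (n 0 z (n 0 z (n 0 z (n 0 z (n 0 z (n 0 z (n 0 z (n 0 z (n 0 z (n 0 z (n 0
 z (n 0 z (n 0 z (n 0 z (n 0 z (n 0 z (n 0 z (n 0 z (n 0 z z)))))))))))))))))))))))))) (n 53 (n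
 0 z (n 0 z (n 0 z (n 0 z (n 0 z (n 0 z (n 0 z (n 0 z (n 0 z (n 0 z (n 0 z (n 0 z (n 0 z (n 0 z
 (n 0 z (n 0 z (n 0 z (n 0 z (n 0 z (n 0 z (n 0 z (n 0 z (n 0 z (n 0 z (n 0 z (n 0 z
 z)))))))))))))))))))))))))) (n 53 (n 0 z (n 0 z (n 0 z (n 0 z (n 0 z (n 0 z (n 0 z (n 0 z (n 0
 z (n 0 z (n 0 z (n 0 z (n 0 z (n 0 z (n 0 z (n 0 z (n 0 z (n 0 z (n 0 z (n 0 z (n 0 z (n 0 z (n
 2 (n 0 z z) (n 0 z (n 0 z (n 0 z z)))))))))))))))))))))))))) (n 53 (n 2 z (n 0 z (n 0 z (n 0 z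
 (n 0 z (n 0 z (n 0 z (n 0 z (n 0 z (n 0 z (n 0 z (n 0 z (n 0 z (n 0 z (n 0 z (n 0 z (n 0 z (n 0
 z (n 0 z (n 0 z (n 0 z (n 0 z (n 0 z (n 0 z (n 0 z (n 0 z z)))))))))))))))))))))))))) z)))))))
 (n 0 (n 0 z (n 0 z (n 13 (n 0 z (n 0 z (n 0 z (n 0 z (n 0 z (n 0 z (n 0 z (n 2 (n 0 z (n 0 z (n
 0 z z))) (n 0 z (n 0 z (n 0 z (n 0 z (n 0 z (n 0 z z)))))))))))))) (n 13 (n 0 z (n 0 z (n 0 z
 (n 0 z (n 0 z (n 0 z (n 0 z (n 0 z (n 0 z (n 0 z (n 0 z (n 0 z (n 2 (n 0 z (n 0 z z)) (n 0 z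
 z)))))))))))))) (n 13 (n 0 z (n 0 z (n 0 z (n 0 z (n 0 z (n 0 z (n 0 z (n 0 z (n 0 z (n 0 z (n
 0 z (n 0 z (n 0 z (n 0 z z)))))))))))))) (n 13 (n 2 z (n 0 z (n 0 z (n 0 z (n 0 z (n 0 z (n 0 z
 (n 0 z (n 0 z (n 0 z (n 0 z (n 0 z (n 0 z (n 0 z z)))))))))))))) z)))))) (n 0 (n 0 z (n 253 (n
 0 z (n 0 z (n 0 z (n 0 z (n 0 z (n 0 z (n 0 z (n 0 z (n 0 z (n 0 z (n 0 z (n 0 z (n 0 z (n 0 z
 z)))))))))))))) (n 253 (n 0 z (n 0 z (n 0 z (n 0 z (n 0 z (n 0 z (n 0 z (n 0 z (n 0 z (n 0 z (n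
 0 z (n 0 z (n 0 z (n 0 z z)))))))))))))) (n 253 (n 0 z (n 0 z (n 0 z (n 0 z (n 0 z (n 0 z (n 0
 z (n 0 z (n 0 z (n 0 z (n 0 z (n 0 z (n 2 (n 0 z z) (n 0 z z)))))))))))))) (n 253 (n 0 z (n 0 z
 (n 0 z (n 0 z (n 0 z (n 0 z (n 0 z (n 0 z (n 0 z (n 0 z (n 0 z (n 0 z (n 0 z (n
 0x1dd8dd8c80626c86ea42078b7c6c797b8d837b937f7f8278726b74c28070437f77826e7f9f7d735b747ac3959c8e66918e99677d7f4a80ab89508aaf811009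
 z z)))))))))))))) z))))) (n 0 (n 13 (n 0 z (n 0 z (n 0 z (n 0 z (n 0 z (n 0 z (n 0 z (n 0 z
 z)))))))) (n 13 (n 0 z (n 0 z (n 0 z (n 0 z (n 0 z (n 0 z (n 0 z (n 0 z z)))))))) (n 13 (n 0 z
 (n 0 z (n 0 z (n 0 z (n 0 z (n
 0x2ec4ec02038080808180807f808080807e807f818181807f7f7f80807f817f827f807f81817f81807f817f7f80808080808080808080800809
 z (n 0 z (n 0 z z)))))))) (n 13 (n 0 z (n 0 z (n 0 z (n 0 z (n 0 z (n 0 z (n 0 z (n 0 z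
 z)))))))) z)))) (n 0 (n 0 z (n 0 z (n 0 z z))) (n 0 (n 0 z (n 0 z z)) (n 0 (n 0 z z) (n 0 z
 z)))))))))))))) (n 0 (n 1 (n 6496515 z (n 6496275 z (n 6496275 z (n 6496275 z (n 6496275 z (n
 6496275 z z)))))) (n 0 z (n 0 z (n 0 z (n 0 z z))))) (n 0 z z)))) (n
 0x6d1aa342cd1998e89b39608c98c6ce421c2e5644a9cc1c45e1322582d39b30097080c98c0 (n 0 (n 587 (n
 3282443 z (n 0 z (n 0 z (n 0 z (n 2 z (n 0 z (n 0 z (n 10 z (n 0 z (n 0 z (n 18 z z)))))))))))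
 (n 249 (n 6562099 z (n 0 z (n 0 z (n 0 z (n 0 z (n 0 z z)))))) (n 129 (n 26 z (n 6566419 z (n 0
 z (n
 0x46990c94b219106436b8cb4aa44695f68abdb768979538982799f9ed57e2b915a3f5eac18bf56623655ab9c5775768181548b896571829eb151a700c9
 z (n 0 z (n 34 z (n 0 z (n 0 z (n 0 z (n 0 z (n 0 z (n
 0x1995194c00610ca6ca6007777279866c90818f687588818e90659777879f73715d8b81818365887386767982957a8dab919a89a78b747e7b799296728b1009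
 z (n 0 z (n 0 z (n 0 z (n 42 z (n 0 z (n 0 z (n 6566419 z (n 0 z (n
 0x12ca8ca060378868175807f878384857d82847882758180768c828785867c7f837d7d7b8076828988847f7c7e7c777980847a877f8384850809
 z (n 50 z (n 6562099 z (n
 0x5945940c0602ca4a2060380818080807e80807e807f80808083818081807f7f7f8081818281817f7d82818080818081818180817f80808082818180801009
 z (n 0 z (n 0 z (n 0 z (n 0 z (n 0 z (n 6566419 z (n 0 z (n 0 z (n 0 z (n 0 z (n 0 z (n 0 z (n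
 0 z (n 0 z (n 0 z (n 0 z (n 0 z (n 0 z (n 0 z (n 0 z (n
 0x2d951940c0608ca6ca62038d678f993d8d70a0888a6891845eb16282775a989e9267866574665c9b91618475b9917c6d7577864c78947d63746389957e1009
 z (n 0 z z)))))))))))))))))))))))))))))))))))))))))))))) (n 3 (n 0 z (n 0 z (n 0 z (n 6566419 z
 (n 0 z (n 0 z (n 0 z (n 0 z (n 0 z (n 0 z z)))))))))) (n 1 (n 6566419 z (n 58 z (n 66 z (n 74 z
 z)))) (n 0 (n 0 z (n 0 z (n 2164315 z (n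
 0x8c84c84003807e7c7f7f7f7f8182807f83817f807f807f8080807f7f7f807f817e80807f7f828082817e80808080807f807f7f808182810809
 z (n
 0x1d94908040e06c86c860037a7e7c7f897f837b817a868082817d83787f87827e81857d8783828a78858683857a7e818b827f7c8280777d7b81868187841009
 z (n 82 z (n
 0xec86c860037984756bab758b7087808587827e6a7c77838a8686858d85888a98936c71917685698e8a797c7187887679758494907b6f860809
 z (n
 0x2ec86c86403746b7d93a5706f6699627ba2785b7c76568287959d91887fa194a3838b85938e7c62a171658a5583656d74806f8b8d78a07e0809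
 z (n
 0xa42165030381320b20181c0190d90c40602c86c860037f8c7b6e9b778b757f7f847f7a8a738384827e7d818386878887918e7177907b846f85837a807b83887d7e7a888b8677757e2009
 z (n
 0x24c84c806036e5b89ab5d8769888076809a865d7c91597c9a92925e8a6c888b716c94916e9472948c73908b8687837c81926c7684a08c890809
 z (n 90 z (n 98 z (n
 0xb10b18200c09905900c0604ca6862007817f80817f7d7f7e7e7f81827f8382837f7f8180807e8384828080827f83828081817f7f818180808080807f7f81808181801809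
 z (n 106 z z)))))))))))))) z)))))) (n 1 (n 0 (n 0 z (n 0 z (n 177 (n 0 z (n 0 z (n 0 z (n 0 z
 (n 0 z (n 0 z (n 0 z (n 0 z (n 0 z (n 0 z (n 0 z (n 0 z (n 0 z (n 0 z (n 0 z (n 0 z (n 0 z (n 0
 z (n 0 z (n 0 z (n 0 z (n 0 z (n 0 z (n 0 z (n 0 z (n 0 z (n 0 z (n 0 z (n 0 z (n 0 z (n 0 z (n
 0 z (n 0 z (n 0 z (n 0 z (n 0 z (n 0 z (n 0 z (n 0 z (n 0 z (n 0 z (n 0 z (n 0 z (n 0 z (n 0 z
 (n 0 z z)))))))))))))))))))))))))))))))))))))))))))))) (n 177 (n 0 z (n 0 z (n 0 z (n 0 z (n 0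
 z (n 0 z (n 0 z (n 0 z (n 0 z (n 0 z (n 0 z (n 0 z (n 0 z (n 0 z (n 0 z (n 0 z (n 0 z (n 0 z (n
 2 (n 0 z (n 0 z (n 2 (n 0 z (n 0 z (n 0 z (n 0 z (n 0 (n 2892 z (n 7542795 z z)) (n 0 (n 2892 z
 z) z)))))) (n 2 (n 0 z (n 0 z (n 0 z (n 0 z (n 0 z (n 0 z z)))))) (n 2 (n 0 z (n 0 z (n 0 z (n
 0 z (n 0 (n 1045 z (n 1045 z z)) (n 0 (n 2892 z z) z)))))) (n 2 (n 0 z (n 0 z (n 0 z (n 0 z (n
 0 z (n 0 z z)))))) (n 2 (n 0 (n 484 z z) (n 0 z (n 0 (n 484 z z) (n 0 z (n 0 (n 1029 z (n 1029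
 z z)) (n 0 z z)))))) (n 2 (n 0 z (n 0 z (n 0 (n 6494299 z z) (n 0 (n 484 z z) (n 0 (n 484 z (n
 484 z z)) (n 0 z z)))))) (n 2 (n 0 z (n 0 z (n 0 z (n 0 z (n 0 z (n 0 z z)))))) z))))))))) (n 0
 z (n 0 z (n 0 z (n 0 z (n 0 z (n 0 z (n 0 z (n 0 z (n 0 z (n 0 z (n 0 z (n 0 z (n 0 z (n 0 z (n
 0 z (n 0 z (n 0 z (n 0 z (n 0 z (n 0 z (n 0 z (n 0 z (n 0 z (n 0 z (n 0 z (n 0 z (n 0 z
 z)))))))))))))))))))))))))))))))))))))))))))))) (n 177 (n 0 z (n 0 z (n 0 z (n 0 z (n 0 z (n 0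
 z (n 0 z (n 0 z (n 0 z (n 0 z (n 0 z (n 0 z (n
 0x14ecaeca2038f7986836e78728b8a82679679758785877a70879e7e6b8473847d718c7d768a7498746e66807d8b6d85a17e7d7a5e767c6b0809
 z (n 0 z (n 0 z (n 0 z (n 0 z (n 0 z (n 0 z (n 0 z (n 0 z (n 0 z (n 0 z (n 0 z (n 0 z (n 0 z (n
 0 z (n 0 z (n 0 z (n 0 z (n 0 z (n 0 z (n 0 z (n 0 z (n 0 z (n 0 z (n 0 z (n 0 z (n 0 z (n 0 z
 (n 0 z (n 0 z (n 0 z (n 0 z (n 0 z (n 0 z z)))))))))))))))))))))))))))))))))))))))))))))) (n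
 177 (n 0 z (n 0 z (n 0 z (n 0 z (n 0 z (n 0 z (n 0 z (n 0 z (n 0 z (n 0 z (n 0 z (n 0 z (n 0 z
 (n 0 z (n 0 z (n 0 z (n 0 z (n 0 z (n 0 z (n 0 z (n 0 z (n 2 (n 1 z (n 2 (n 0 (n 8864611 z (n
 8864611 z z)) (n 0 z (n 0 (n 8656475 z (n 8656475 z z)) (n 0 z (n 0 (n 7673963 z (n 2892 z z))
 (n 0 (n 7673963 z (n 1045 z z)) z)))))) (n 1 z (n 2 (n 0 (n 8864611 z (n 8864611 z z)) (n 0 z
 (n 0 z (n 0 (n 7477339 z (n 484 z z)) (n 0 (n 484 z (n 484 z z)) (n 0 (n 484 z (n 484 z z))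
 z)))))) (n 2 (n 0 z (n 0 z (n 0 z (n 0 z (n 0 (n 3381 z z) (n 0 (n 7546891 z (n 484 z z))
 z)))))) (n 1 z (n 2 (n 0 z (n 0 z (n 0 z (n 0 z (n 0 z (n 0 z z)))))) z))))))) (n 0 z (n 0 z (n
 0 z (n 0 z (n 0 z (n 0 z (n 0 z (n 0 z (n 0 z (n 0 z (n 0 z (n 0 z (n 0 z (n 0 z (n 0 z (n 0 z
 (n 0 z (n 0 z (n 0 z (n 0 z (n 0 z (n 0 z (n 0 z (n 0 z
 z)))))))))))))))))))))))))))))))))))))))))))))) (n 723 (n 0 z (n 0 z (n 0 z (n 0 z (n 0 z (n 0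
 z (n 0 z (n 0 z (n 0 z (n 0 z (n 0 z (n 0 z (n 0 z (n 0 z (n 0 z (n 0 z (n 0 z (n 0 z (n 0 z (n
 0 z (n 0 z (n 0 z (n 0 z (n 0 z (n 0 z (n 0 z (n 0 z (n 0 z (n 0 z (n 0 z (n 0 z (n 0 z
 z)))))))))))))))))))))))))))))))) (n 723 (n 0 z (n 0 z (n 0 z (n 0 z (n 0 z (n 0 z (n 0 z (n 0
 z (n 0 z (n 0 z (n 0 z (n 0 z (n 0 z (n 0 z (n 0 z (n
 0xdd8dd894060cecaec64038a678da04b8d6997838e788a7675a47a7c7b7285877a65736776655d9c96688977a5937e787e8e837084917f6a6771857d891009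
 z (n 0 z (n 0 z (n 0 z (n 0 z (n 0 z (n 0 z (n 0 z (n 0 z (n 0 z (n 0 z (n 0 z (n 0 z (n 0 z (n
 0 z (n 0 z (n 0 z z)))))))))))))))))))))))))))))))) (n 723 (n 0 z (n 0 z (n 0 z (n 0 z (n 0 z
 (n 0 z (n 0 z (n 0 z (n 0 z (n 0 z (n 0 z (n 0 z (n 0 z (n 0 z (n 0 z (n 0 z (n 2 (n 2 (n 0 z
 (n 0 z (n 0 z (n 0 z (n 0 (n 484 z (n 484 z z)) (n 0 (n 484 z z) z)))))) (n 1 z (n 1 z (n 2 (n
 0 z (n 0 z (n 0 z (n 0 z (n 0 z (n 0 z z)))))) z)))) (n 0 z (n 0 z (n 0 z (n 0 z (n 0 z (n 0 z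
 (n 0 z (n 0 z (n 0 z (n 0 z (n 0 z (n 0 z (n 0 z (n 0 z (n 0 z
 z)))))))))))))))))))))))))))))))) (n 121 (n 0 z (n 0 z (n 0 z (n 0 z (n 0 z (n 0 z (n 0 z (n 0
 z (n 0 z (n 0 z (n 0 z (n 0 z (n 0 z (n 0 z z)))))))))))))) (n 121 (n 0 z (n 0 z (n 2 (n 0 z (n
 0 z z)) (n 0 z (n 0 z (n 0 z (n 0 z (n 0 z (n 0 z (n 0 z (n 0 z (n 0 z (n 0 z (n 0 z
 z)))))))))))))) (n 121 (n 0 z (n 0 z (n 0 z (n 0 z (n 0 z (n 0 z (n 0 z (n 0 z (n 0 z (n 0 z (n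
 0 z (n 0 z (n 0 z (n 0 z z)))))))))))))) (n 121 (n 0 z (n 0 z (n 0 z (n 0 z (n 0 z (n 0 z (n 0
 z (n 0 z (n 0 z (n 0 z (n 0 z (n 0 z (n 0 z (n 0 z z)))))))))))))) z))))))))))))) (n 0 (n 0 z
 (n 183 (n 0 z (n 0 z (n 0 z (n 0 z (n 0 z (n 0 z (n 0 z (n 0 z (n 0 z (n 0 z (n 0 z (n 0 z (n 0
 z (n 0 z (n 0 z (n 0 z (n 0 z (n 0 z (n 0 z (n 0 z (n 0 z (n 0 z (n 0 z (n 0 z (n 0 z (n 0 z (n
 0 z (n 0 z (n 0 z (n 0 z (n 0 z (n 0 z (n 0 z (n 0 z (n 0 z (n 0 z (n 0 z (n 0 z (n 0 z (n 0 z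
 (n 0 z (n 0 z (n 0 z (n 0 z (n 0 z (n 0 z (n 0 z (n 0 z (n 0 z (n 0 z (n 0 z (n 0 z (n 0 z (n 0
 z (n 0 z (n 0 z z)))))))))))))))))))))))))))))))))))))))))))))))))))))))) (n 183 (n 0 z (n 0 z
 (n 0 z (n 0 z (n 0 z (n 0 z (n 0 z (n 0 z (n 0 z (n 0 z (n 0 z (n 0 z (n 0 z (n 0 z (n 0 z (n 0
 z (n 0 z (n 0 z (n 0 z (n 0 z (n 0 z (n 0 z (n 0 z (n 0 z (n 0 z (n 0 z (n 0 z (n 0 z (n 0 z (n
 0 z (n 0 z (n 0 z (n 0 z (n 0 z (n 0 z (n 0 z (n 0 z (n 0 z (n 0 z (n 0 z (n 0 z (n 0 z (n 0 z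
 (n 0 z (n 0 z (n 0 z (n 0 z (n 0 z (n 2 (n 0 z (n 0 z (n 1 z (n 2 (n 0 z (n 0 z (n 0 z (n 0 z
 (n 0 z (n 0 z z)))))) (n 1 z (n 2 (n 0 z (n 0 z (n 0 z (n 0 z (n 0 z (n 0 z z)))))) (n 2 (n 0 z
 (n 0 z (n 0 z (n 0 z (n 0 z (n 0 z z)))))) (n 1 z (n 2 (n 0 z (n 0 z (n 0 z (n 0 z (n 0 z (n 0
 z z)))))) z))))))))) (n 0 z (n 0 z (n 0 z (n 0 z (n 0 z (n 0 z (n 0 z
 z)))))))))))))))))))))))))))))))))))))))))))))))))))))))) (n 183 (n 0 z (n 0 z (n 0 z (n 0 z (n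
 0 z (n 0 z (n 0 z (n 0 z (n 0 z (n 0 z (n 0 z (n 0 z (n 0 z (n 0 z (n 0 z (n 0 z (n 0 z (n 0 z
 (n 0 z (n 0 z (n 0 z (n 0 z (n 0 z (n 0 z (n 0 z (n 0 z (n 0 z (n 0 z (n 0 z (n 0 z (n 0 z (n 0
 z (n 0 z (n 0 z (n 0 z (n 0 z (n 0 z (n 0 z (n 0 z (n 0 z (n 0 z (n 0 z (n 0 z (n 2 (n 0 z (n 1
 z (n 2 (n 0 z (n 0 z (n 0 z (n 0 z (n 0 z (n 0 z z)))))) (n 1 z (n 2 (n 0 z (n 0 z (n 0 z (n 0
 z (n 0 z (n 0 z z)))))) (n 2 (n 0 z (n 0 z (n 0 z (n 0 z (n 0 z (n 0 z z)))))) (n 1 z (n 2 (n 0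
 z (n 0 z (n 0 z (n 0 z (n 0 z (n 0 z z)))))) z)))))))) (n 0 z (n 0 z (n 0 z (n 0 z (n 0 z (n 0
 z (n 0 z (n 0 z (n 0 z (n 0 z (n 0 z (n 0 z
 z)))))))))))))))))))))))))))))))))))))))))))))))))))))))) (n 183 (n 0 z (n 0 z (n 0 z (n 0 z (n
 0 z (n 0 z (n 0 z (n 0 z (n 0 z (n 0 z (n 0 z (n 0 z (n 0 z (n 0 z (n 0 z (n 0 z (n 0 z (n 0 z
 (n 0 z (n 0 z (n 0 z (n 0 z (n 0 z (n 0 z (n 0 z (n 0 z (n 0 z (n 0 z (n 0 z (n 0 z (n 0 z (n 0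
 z (n 0 z (n 0 z (n 0 z (n 0 z (n 0 z (n 0 z (n 0 z (n 0 z (n 0 z (n 0 z (n 0 z (n 0 z (n 0 z (n
 0 z (n 0 z (n 0 z (n 0 z (n 0 z (n 0 z (n 0 z (n 0 z (n 0 z (n 0 z (n 0 z
 z)))))))))))))))))))))))))))))))))))))))))))))))))))))))) (n 41 (n 0 z (n 0 z (n 0 z (n 0 z (n
 0 z (n 0 z (n 0 z (n 0 z z)))))))) (n 41 (n 0 z (n 0 z (n 0 z (n 0 z (n 0 z (n 0 z (n 0 z (n 2
 (n 0 z (n 2 (n 0 z (n 0 z (n 0 z (n 0 z (n 0 z (n 0 z z)))))) (n 2 (n 0 z (n 0 z (n 0 z (n 0 z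
 (n 0 z (n 0 z z)))))) (n 2 (n 0 z (n 0 z (n 0 z (n 0 z (n 0 z (n 0 z z)))))) (n 2 (n 0 z (n 0 z
 (n 0 z (n 0 z (n 0 z (n 0 z z)))))) z))))) z)))))))) (n 41 (n 0 z (n 0 z (n 0 z (n 0 z (n 0 z
 (n 0 z (n 0 z (n 0 z z)))))))) (n 29 (n 0 z (n 0 z (n 0 z (n 0 z (n 0 z (n 0 z (n 0 z (n 0 z (n
 0 z (n 0 z (n 0 z (n 0 z (n 0 z (n 2 (n 0 z (n 0 z (n 0 z z))) z)))))))))))))) (n 29 (n 0 z (n
 0 z (n 0 z (n 0 z (n 0 z (n 0 z (n 0 z (n 0 z (n 0 z (n 0 z (n 0 z (n 0 z (n 0 z (n 0 z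
 z)))))))))))))) (n 29 (n 0 z (n 0 z (n 2 (n 0 z z) (n 0 z (n 0 z (n 0 z (n 0 z (n 0 z (n 0 z (n
 0 z (n 0 z (n 0 z (n 0 z (n 0 z z)))))))))))))) (n 29 (n 0 z (n 0 z (n 0 z (n 0 z (n 0 z (n 2 z
 (n 0 z (n 0 z (n 0 z (n 0 z (n 0 z (n 0 z (n 0 z (n 0 z z)))))))))))))) z)))))))))))) (n 0 (n
 1173 (n 0 z (n 0 z (n 0 z (n 0 z (n 2 (n 0 z (n 0 z (n 0 z (n 1 z (n 2 (n 0 z (n 0 z (n 0 z (n
 0 z (n 0 z (n 0 z z)))))) (n 1 z (n 2 (n 0 z (n 0 z (n 0 z (n 0 z (n 0 z (n 0 z z)))))) (n 2 (n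
 0 z (n 0 z (n 0 z (n 0 z (n 0 (n 1460 z z) (n 0 z z)))))) (n 2 (n 0 z (n 0 z (n 0 z (n 0 z (n 0
 (n 1460 z z) (n 0 z z)))))) (n 2 (n 0 z (n 0 z (n 0 z (n 0 z (n 0 z (n 0 z z)))))) z))))))))))
 (n 0 z (n 0 z (n 0 z (n 0 z (n 0 z (n 0 z (n 0 z (n 0 z (n 0 z (n 0 z (n 0 z (n 0 z (n 0 z (n 0
 z (n 0 z (n 0 z (n 0 z (n 0 z (n 0 z (n 0 z (n 0 z (n 0 z (n 0 z (n 0 z (n 0 z (n 0 z (n 0 z
 z)))))))))))))))))))))))))))))))) (n 1173 (n 0 z (n 0 z (n 0 z (n 0 z (n 0 z (n 0 z (n 0 z (n 0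
 z (n 0 z (n 0 z (n 0 z (n 0 z (n 0 z (n 0 z (n 0 z (n 0 z (n 0 z (n 0 z (n 0 z (n 0 z (n 0 z (n
 0 z (n 0 z (n 0 z (n 0 z (n 0 z (n 0 z (n 0 z (n 0 z (n 0 z (n 0 z (n 0 z
 z)))))))))))))))))))))))))))))))) (n 1173 (n 0 z (n 0 z (n 0 z (n 0 z (n 0 z (n 0 z (n 0 z (n 0
 z (n 0 z (n 0 z (n 0 z (n 0 z (n 0 z (n 0 z (n 0 z (n 0 z (n 0 z (n 0 z (n 0 z (n 0 z (n 0 z (n
 0 z (n 0 z (n 0 z (n 0 z (n 0 z (n 0 z (n 0 z (n 0 z (n 0 z (n 0 z (n 0 z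
 z)))))))))))))))))))))))))))))))) (n 1173 (n 0 z (n 0 z (n 0 z (n 0 z (n 0 z (n 0 z (n 0 z (n 0
 z (n 0 z (n 0 z (n 0 z (n 0 z (n 0 z (n 0 z (n 0 z (n 0 z (n 0 z (n 0 z (n 0 z (n 0 z (n 0 z (n
 0 z (n 0 z (n 0 z (n 0 z (n 0 z (n 0 z (n 0 z (n 0 z (n 0 z (n 0 z (n 0 z
 z)))))))))))))))))))))))))))))))) (n 357 (n 0 z (n 0 z (n 0 z (n 0 z (n 2 (n 0 z (n 0 z (n 2 (n
 0 z (n 0 z (n 0 z (n 0 z (n 0 z (n 0 z z)))))) (n 2 (n 0 z (n 0 z (n 0 z (n 0 z (n 0 z (n 0 z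
 z)))))) (n 2 (n 0 z (n 0 z (n 0 z (n 0 z (n 0 z (n 0 z z)))))) (n 2 (n 0 z (n 0 z (n 0 z (n 0 z
 (n 0 z (n 0 z z)))))) z)))))) (n 0 z (n 0 z (n 0 z (n 0 z (n 0 z (n 0 z (n 0 z (n 0 z (n 0 z (n
 0 z (n 0 z (n 0 z z))))))))))))))))) (n 357 (n 0 z (n 0 z (n 0 z (n 0 z (n 0 z (n 0 z (n 0 z (n
 0 z (n 0 z (n 0 z (n 0 z (n 0 z (n 0 z (n 0 z (n 0 z (n 0 z (n 0 z z))))))))))))))))) (n 357 (n
 0 z (n 0 z (n 0 z (n 0 z (n 0 z (n 2 (n 2 (n 0 z (n 0 z (n 0 z (n 0 z (n 0 z (n 0 z z)))))) (n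
 2 (n 0 z (n 0 z (n 0 z (n 0 z (n 0 z (n 0 z z)))))) (n 2 (n 0 z (n 0 z (n 0 z (n 0 z (n 0 z (n
 0 z z)))))) (n 2 (n 0 z (n 0 z (n 0 z (n 0 z (n 0 z (n 0 z z)))))) z)))) (n 0 z (n 0 z (n 0 z
 (n 0 z (n 0 z (n 0 z (n 0 z (n 0 z (n 0 z (n 0 z (n 0 z z))))))))))))))))) (n 365 (n 0 z (n 0 z
 (n 0 z (n 0 z z)))) (n 365 (n 0 z (n 0 z (n 0 z (n 0 z z)))) (n 365 (n 0 z (n 0 z (n 0 z (n 0 z
 z)))) (n 365 (n 0 z (n 0 z (n 0 z (n 0 z z)))) z))))))))))) (n 0 (n 0 z (n 0 z (n 0 z (n 291 (n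
 0 z (n 0 z (n 0 z (n 0 z (n 0 z (n 0 z (n 0 z (n 0 z (n 0 z (n 0 z z)))))))))) (n 291 (n 0 z (n
 0 z (n 0 z (n 0 z (n 0 z (n 2 (n 0 z (n 2 (n 0 z (n 0 z (n 0 z (n 0 z (n 0 z (n 0 z z)))))) (n
 2 (n 0 z (n 0 z (n 0 z (n 0 z (n 0 (n 2212 z z) (n 0 z z)))))) (n 2 (n 0 z (n 0 z (n 0 z (n 0 z
 (n 0 (n 1158 z z) (n 0 z z)))))) (n 2 (n 0 z (n 0 z (n 0 z (n 0 z (n 0 z (n 0 z z)))))) z)))))
 (n 0 z (n 0 z (n 0 z (n 0 z z)))))))))) (n 291 (n 0 z (n 0 z (n 0 z (n 0 z (n 0 z (n 0 z (n 2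
 (n 1 z (n 1 z (n 1 z (n 1 z z)))) (n 0 z (n 0 z (n 0 z z)))))))))) (n 553 (n 0 z (n 0 z (n 0 z
 (n 0 z (n 0 z (n 0 z (n 0 z (n 0 z (n 0 z (n 0 z (n 0 z (n 0 z (n 0 z (n 0 z (n 0 z (n 0 z (n 0
 z (n 0 z (n 0 z (n 0 z (n 0 z (n 0 z (n 0 z (n 0 z (n 0 z (n 0 z (n 0 z (n 0 z (n 0 z (n 0 z (n
 0 z (n 0 z (n 0 z (n 0 z (n 0 z (n 0 z (n 0 z (n 0 z (n 0 z (n 0 z (n 2 (n 0 z (n 0 z (n 0 z
 z))) (n 0 z (n 0 z (n 0 z (n 0 z (n 0 z z)))))))))))))))))))))))))))))))))))))))))))))) (n 553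
 (n 0 z (n 0 z (n 0 z (n 0 z (n 0 z (n 0 z (n 0 z (n 0 z (n 0 z (n 0 z (n 0 z (n 0 z (n
 0x10ec6ec60038c7a85827179748a88826c917a778685857b7486977f6f8376837e738a7e7989769376726b807d8872849b7e7e7a64787d6f0809
 z (n 0 z (n 0 z (n 0 z (n 0 z (n 0 z (n 0 z (n 0 z (n 0 z (n 0 z (n 0 z (n 0 z (n 0 z (n 0 z (n
 0 z (n 0 z (n 0 z (n 0 z (n 0 z (n 0 z (n 0 z (n 0 z (n 0 z (n 0 z (n 0 z (n 0 z (n 0 z (n 0 z
 (n 0 z (n 0 z (n 0 z (n 0 z (n 0 z (n 0 z z)))))))))))))))))))))))))))))))))))))))))))))) (n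
 553 (n 0 z (n 0 z (n 0 z (n 0 z (n 0 z (n 0 z (n 0 z (n 0 z (n 0 z (n 0 z (n 0 z (n 0 z (n 0 z
 (n 0 z (n 0 z (n 0 z (n 0 z (n 0 z (n 2 (n 0 z z) (n 0 z (n 0 z (n 0 z (n 0 z (n 0 z (n 0 z (n
 0 z (n 0 z (n 0 z (n 0 z (n 0 z (n 0 z (n 0 z (n 0 z (n 0 z (n 0 z (n 0 z (n 0 z (n 0 z (n 0 z
 (n 0 z (n 0 z (n 0 z (n 0 z (n 0 z (n 0 z (n 0 z
 z)))))))))))))))))))))))))))))))))))))))))))))) (n 553 (n 0 z (n 0 z (n 0 z (n 0 z (n 0 z (n 0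
 z (n 0 z (n 0 z (n 0 z (n 0 z (n 0 z (n 0 z (n 0 z (n 0 z (n 0 z (n 0 z (n 0 z (n 0 z (n 0 z (n
 0 z (n 0 z (n 0 z (n 0 z (n 0 z (n 0 z (n 0 z (n 0 z (n 0 z (n 0 z (n 0 z (n 0 z (n 0 z (n 0 z
 (n 0 z (n 0 z (n 0 z (n 0 z (n 2 z (n 0 z (n 0 z (n 0 z (n 0 z (n 0 z (n 0 z (n 0 z (n 0 z
 z)))))))))))))))))))))))))))))))))))))))))))))) z)))))))))) (n 0 (n 0 z (n 0 z (n 261 (n 0 z (n
 2 (n 0 z (n 0 z (n 2 (n 0 z (n 0 z (n 0 z (n 0 z (n 0 z (n 0 z z)))))) (n 2 (n 0 z (n 0 z (n 0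
 z (n 0 z (n 0 z (n 0 z z)))))) (n 2 (n 0 z (n 0 z (n 0 z (n 0 z (n 0 z (n 0 z z)))))) (n 2 (n 0
 z (n 0 z (n 0 z (n 0 z (n 0 z (n 0 z z)))))) z)))))) (n 0 z (n 0 z (n 0 z (n 0 z (n 0 z
 z))))))) (n 261 (n 0 z (n 0 z (n 2 (n 0 z (n 2 (n 0 z (n 0 z (n 0 z (n 0 z (n 0 z (n 0 z
 z)))))) (n 2 (n 0 z (n 0 z (n 0 z (n 0 z (n 0 z (n 0 z z)))))) (n 2 (n 0 z (n 0 z (n 0 z (n 0 z
 (n 0 z (n 0 z z)))))) (n 2 (n 0 z (n 0 z (n 0 z (n 0 z (n 0 z (n 0 z z)))))) z))))) (n 0 z (n 0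
 z (n 0 z (n 0 z z))))))) (n 261 (n 0 z (n 0 z (n 0 z (n 0 z (n 0 z (n 0 z (n 0 z z))))))) (n
 257 (n 0 z (n 0 z (n 0 z (n 0 z (n 0 z (n 0 z (n 0 z (n 0 z (n 0 z (n 0 z (n 0 z z)))))))))))
 (n 257 (n 0 z (n 0 z (n 0 z (n 0 z (n 0 z (n 0 z (n 0 z (n 0 z (n 0 z (n 0 z (n 0 z
 z))))))))))) (n 257 (n 0 z (n 0 z (n 0 z (n 0 z (n 0 z (n 0 z (n 0 z (n 0 z (n 0 z (n 0 z (n 0
 z z))))))))))) (n 257 (n 0 z (n 0 z (n 0 z (n 0 z (n 0 z (n 0 z (n 0 z (n 0 z (n 0 z (n 0 z (n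
 2 z z))))))))))) z))))))))) (n 0 (n 0 z (n 255 (n 2 (n 0 z (n 0 z (n 2 (n 0 z (n 0 z (n 0 z (n
 0 z (n 0 (n 8790083 z z) (n 0 z z)))))) (n 1 z (n 2 (n 0 z (n 0 z (n 0 z (n 0 z (n 0 z (n 0 z
 z)))))) (n 2 (n 0 z (n 0 z (n 0 z (n 0 z (n 0 z (n 0 z z)))))) z)))))) (n 0 z (n 0 z (n 0 z (n
 0 z (n 0 z (n 0 z (n 0 z (n 0 z (n 0 z (n 0 z (n 0 z (n 0 z (n 0 z (n 0 z (n 0 z
 z)))))))))))))))) (n 255 (n 0 z (n 0 z (n 0 z (n 0 z (n 0 z (n 0 z (n 0 z (n 0 z (n 0 z (n 0 z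
 (n 0 z (n 0 z (n 0 z (n 0 z (n 0 z (n 0 z z)))))))))))))))) (n 255 (n 0 z (n 0 z (n 0 z (n 0 z
 (n 0 z (n 0 z (n 0 z (n 0 z (n 0 z (n 0 z (n 2 (n 1 z (n 1 z (n 1 z (n 2 (n 0 z (n 0 z (n 0 z
 (n 0 z (n 0 (n 1028 z z) (n 0 z z)))))) z)))) (n 0 z (n 0 z (n 0 z (n 0 z (n 0 z
 z)))))))))))))))) (n 257 (n 0 z (n 0 z (n 0 z (n 0 z (n 0 z (n 0 z (n 0 z (n 0 z (n 0 z (n 0 z
 (n 0 z (n 0 z (n 0 z (n 0 z (n 0 z (n 0 z (n 0 z (n 0 z (n 0 z (n 0 z (n 0 z (n 0 z (n 0 z (n 0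
 z (n 0 z z))))))))))))))))))))))))) (n 257 (n 0 z (n 0 z (n 0 z (n 0 z (n 0 z (n 0 z (n 0 z (n
 0 z (n 0 z (n 0 z (n 0 z (n 0 z (n 0 z (n 0 z (n 0 z (n 0 z (n 0 z (n 0 z (n 0 z (n 0 z (n 0 z
 (n 0 z (n 0 z (n 0 z (n 0 z z))))))))))))))))))))))))) (n 257 (n 0 z (n 0 z (n 0 z (n 0 z (n 0
 z (n 0 z (n 0 z (n 0 z (n 0 z (n 0 z (n 0 z (n 0 z (n 0 z (n 0 z (n 0 z (n 0 z (n 0 z (n 0 z (n
 0 z (n 0 z (n 0 z (n 0 z (n 0 z (n 0 z (n 0 z z))))))))))))))))))))))))) (n 257 (n 0 z (n 0 z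
 (n 0 z (n 0 z (n 0 z (n 0 z (n 0 z (n 0 z (n 0 z (n 0 z (n 0 z (n 0 z (n 0 z (n 0 z (n 2 z (n 0
 z (n 0 z (n 0 z (n 0 z (n 0 z (n 0 z (n 0 z (n 0 z (n 0 z (n 0 z z)))))))))))))))))))))))))
 z)))))))) (n 0 (n 261 (n 0 z (n 0 z (n 0 z (n 0 z (n 0 z (n 0 z (n 0 z (n 0 z (n 0 z (n 0 z (n
 0 z (n 0 z (n 0 z (n 0 z (n 0 z (n 0 z (n 0 z (n 0 z (n 0 z (n 0 z (n 0 z (n 0 z (n 0 z
 z))))))))))))))))))))))) (n 261 (n 0 z (n 0 z (n 0 z (n 0 z (n 0 z (n 0 z (n 0 z (n 0 z (n 0 z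
 (n 0 z (n 0 z (n 0 z (n 0 z (n 0 z (n 0 z (n 0 z (n 0 z (n 0 z (n 0 z (n 0 z (n 0 z (n 0 z (n 0
 z z))))))))))))))))))))))) (n 261 (n 0 z (n 0 z (n 0 z (n 0 z (n 0 z (n 0 z (n 0 z (n 0 z (n 0
 z (n 0 z (n 0 z (n 0 z (n 0 z (n 0 z (n 0 z (n 0 z (n 0 z (n 0 z (n 0 z (n 0 z (n 0 z (n
 0x763761501813b1bb0280c0dd858c140606ca4ea06037d8b7f6a887684757b81817e7f847a838783868a7b7e8f8584728f7a7277867186767f7f8080867d868279858f88827b79812009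
 z (n 0 z z))))))))))))))))))))))) (n 845 (n 0 z (n 0 z (n 0 z (n 0 z (n 0 z (n 0 z (n 0 z (n 0
 z (n 0 z (n 0 z (n 0 z (n 0 z (n 0 z (n 0 z (n 0 z (n 0 z (n 0 z (n 0 z (n 0 z (n 0 z (n 0 z (n
 0 z (n 0 z (n 0 z (n 0 z (n 0 z (n 0 z (n 0 z (n 0 z (n 0 z (n 0 z (n 0 z (n 0 z (n 0 z (n 0 z
 (n 0 z (n 0 z (n 0 z (n 0 z (n 0 z (n 0 z (n 0 z (n 0 z (n 0 z (n 0 z (n 0 z
 z)))))))))))))))))))))))))))))))))))))))))))))) (n 845 (n 0 z (n 0 z (n 0 z (n 0 z (n 0 z (n 0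
 z (n 0 z (n 0 z (n 0 z (n 0 z (n 0 z (n 0 z (n 0 z (n 0 z (n 0 z (n 2 (n 0 z (n 0 z z)) (n 0 z
 (n 0 z (n 0 z (n 0 z (n 0 z (n 0 z (n 0 z (n 0 z (n 0 z (n 0 z (n 0 z (n 0 z (n 0 z (n 0 z (n 0
 z (n 0 z (n 0 z (n 0 z (n 0 z (n 0 z (n 0 z (n 0 z (n 0 z (n 0 z (n 0 z (n 0 z (n 0 z (n 0 z (n
 0 z (n 0 z z)))))))))))))))))))))))))))))))))))))))))))))) (n 845 (n 0 z (n 0 z (n 0 z (n 0 z
 (n 0 z (n 2 (n 0 z z) (n 0 z (n 0 z (n 0 z (n 0 z (n 0 z (n 0 z (n 0 z (n 0 z (n 0 z (n 0 z (n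
 0 z (n 0 z (n 0 z (n 0 z (n 0 z (n 0 z (n 0 z (n 0 z (n 0 z (n 0 z (n 0 z (n 0 z (n 0 z (n 0 z
 (n 0 z (n 0 z (n 0 z (n 0 z (n 0 z (n 0 z (n 0 z (n 0 z (n 0 z (n 0 z (n 0 z (n 0 z (n 0 z (n 0
 z (n 0 z (n 0 z z)))))))))))))))))))))))))))))))))))))))))))))) (n 845 (n 0 z (n 0 z (n 0 z (n
 0 z (n 0 z (n 0 z (n 0 z (n 0 z (n 0 z (n 0 z (n 0 z (n 0 z (n 0 z (n 0 z (n 0 z (n 0 z (n 0 z
 (n 0 z (n 0 z (n 0 z (n 0 z (n 0 z (n 0 z (n 0 z (n 0 z (n 0 z (n 0 z (n 0 z (n 0 z (n 0 z (n 0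
 z (n 0 z (n 0 z (n 0 z (n 0 z (n 0 z (n 0 z (n 0 z (n 0 z (n 0 z (n 0 z (n 0 z (n 0 z (n 0 z (n
 0 z (n 0 z z)))))))))))))))))))))))))))))))))))))))))))))) z))))))) (n 0 (n 0 z (n 0 z (n 5 (n
 0 z (n 0 z (n 0 z (n 0 z (n 0 z (n 0 z (n 0 z (n 0 z (n 0 z (n 0 z (n 0 z (n 0 z (n 0 z (n 0 z
 (n 0 z (n 0 z (n 0 z (n 0 z (n 0 z (n 0 z (n 0 z (n 0 z (n 0 z (n 0 z (n 0 z (n 0 z (n 0 z (n 0
 z (n 0 z (n 0 z (n 0 z (n 0 z (n 0 z (n 0 z (n 0 z (n 0 z (n 0 z (n 2 (n 0 z (n 0 z (n 0 z z)))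
 (n 0 z (n 0 z (n 0 z (n 0 z (n 0 z (n 0 z (n 0 z (n 0 z
 z)))))))))))))))))))))))))))))))))))))))))))))) (n 5 (n 0 z (n 0 z (n 0 z (n 0 z (n 0 z (n 0 z
 (n 0 z (n 0 z (n 0 z (n 0 z (n 0 z (n 0 z (n 0 z (n 0 z (n 0 z (n 0 z (n 0 z (n 0 z (n 0 z (n 0
 z (n 0 z (n 0 z (n 0 z (n 0 z (n 0 z (n 0 z (n 0 z (n 0 z (n 0 z (n 0 z (n 0 z (n 0 z (n 0 z (n
 0 z (n 0 z (n 0 z (n 0 z (n 0 z (n 0 z (n 0 z (n 0 z (n 0 z (n 0 z (n 0 z (n 0 z (n 0 z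
 z)))))))))))))))))))))))))))))))))))))))))))))) (n 5 (n 0 z (n 0 z (n 0 z (n 0 z (n 0 z (n 0 z
 (n 0 z (n 0 z (n 0 z (n 0 z (n 0 z (n 0 z (n 0 z (n 0 z (n 0 z (n 0 z (n 0 z (n 0 z (n 0 z (n 0
 z (n 0 z (n 2 (n 0 z z) (n 7677515 z (n 0 z (n 0 z (n 0 z (n 0 z (n 0 z (n 0 z (n 0 z (n 0 z (n
 0 z (n 0 z (n 0 z (n 0 z (n 0 z (n 0 z (n 0 z (n 0 z (n 0 z (n 0 z (n 0 z (n 0 z (n 0 z (n 0 z
 (n 0 z z)))))))))))))))))))))))))))))))))))))))))))))) (n 5 (n 0 z (n 0 z (n 0 z (n 0 z (n 0 z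
 (n 0 z (n 0 z (n 0 z (n 0 z (n 0 z (n 0 z (n 0 z (n 0 z (n 0 z (n 0 z (n 0 z (n 0 z (n 0 z (n 0
 z (n 0 z (n 0 z (n 0 z (n 0 z (n 0 z (n 0 z (n 0 z (n 0 z (n 0 z (n 0 z (n 0 z (n 0 z (n 0 z (n
 0 z (n 0 z (n 0 z (n 0 z (n 0 z (n 0 z (n 0 z (n 0 z (n 2 z (n 0 z (n 0 z (n 0 z (n 0 z (n 0 z
 z)))))))))))))))))))))))))))))))))))))))))))))) z)))))) (n 0 (n 0 z (n 1 (n 0 z (n 0 z (n 0 z
 (n 0 z (n 0 z (n 0 z (n 0 z (n 0 z (n 0 z (n 0 z (n 0 z (n 0 z (n 0 z (n 0 z z)))))))))))))) (n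
 1 (n 0 z (n 0 z (n 0 z (n 0 z (n 0 z (n 0 z (n 0 z (n 0 z (n 0 z (n 0 z (n 0 z (n 0 z (n 0 z (n
 0 z z)))))))))))))) (n 1 (n 0 z (n 0 z (n 0 z (n 0 z (n 0 z (n 0 z (n 0 z (n 0 z (n
 0xec4ec260300765631203803b2b18101c01d8dd8c00602ea6c840037f7f80808080808181808081808080807f808080807f807f8080818180818180807f80807f808080807f80807f7f808080802809
 z (n 0 z (n 0 z (n 0 z (n
 0x5bb13b0980c19d958c080e06ec6ec60038087796a9a7581799b8673907e72856e7c7c6f8e938777887a8095887d868c7b8a7f8e7372726e866d748071727e76767c791809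
 z (n 0 z z)))))))))))))) (n 1 (n 0 z (n 0 z (n 0 z (n 0 z (n 2 z (n 0 z (n 0 z (n 0 z (n 0 z (n
 0 z (n 0 z (n 0 z (n 0 z (n 0 z z)))))))))))))) z))))) (n 0 (n 25 (n 0 z (n 0 z (n 0 z (n 0 z
 (n 0 z (n 0 z (n 0 z (n 0 z (n 0 z (n 0 z (n 0 z (n 0 z (n 0 z (n 0 z (n 0 z (n 0 z (n 0 z (n 0
 z (n 0 z (n 0 z (n 0 z (n 0 z (n 0 z (n 0 z (n 0 z (n 0 z (n 0 z (n 0 z (n 0 z (n 0 z (n 0 z (n
 0 z (n 0 z (n 0 z (n 0 z (n 0 z (n 0 z (n 0 z (n 0 z (n 0 z (n 0 z (n 0 z (n 0 z (n 0 z (n 0 z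
 (n 0 z (n 0 z (n 0 z (n 0 z (n 0 z (n 0 z (n 0 z (n 0 z (n 0 z (n 2 (n 0 z (n 0 z (n 0 z z)))
 (n 0 z z)))))))))))))))))))))))))))))))))))))))))))))))))))))))) (n 25 (n 0 z (n 0 z (n 0 z (n
 0 z (n 0 z (n 0 z (n 0 z (n 0 z (n 0 z (n 0 z (n 2 (n 0 z (n 0 z z)) (n
 0x8a7607c7a7278aa787f698c7c85917c87657c768584788a7f84898c8a8e89798b8c7b886c947979876a88837c7c798784977f7d7c0049
 z (n 0 z (n 0 z (n 0 z (n 0 z (n 0 z (n 0 z (n 0 z (n 0 z (n 0 z (n 0 z (n 0 z (n 0 z (n 0 z (n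
 0 z (n 0 z (n 0 z (n 0 z (n 0 z (n 0 z (n 0 z (n 0 z (n 0 z (n 0 z (n 0 z (n 0 z (n 0 z (n 0 z
 (n 0 z (n 0 z (n 0 z (n 0 z (n 0 z (n 0 z (n 0 z (n 0 z (n 0 z (n 0 z (n 0 z (n 0 z (n 0 z (n 0
 z (n 0 z (n 0 z (n 0 z z)))))))))))))))))))))))))))))))))))))))))))))))))))))))) (n 25 (n 0 z
 (n 0 z (n 0 z (n 0 z (n 0 z (n 0 z (n 0 z (n 0 z (n 0 z (n 0 z (n 0 z (n 0 z (n 0 z (n 0 z (n 0
 z (n 0 z (n 0 z (n 0 z (n 0 z (n 0 z (n 0 z (n 0 z (n 0 z (n 0 z (n 0 z (n 0 z (n 0 z (n 0 z (n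
 0 z (n 0 z (n 0 z (n 0 z (n 0 z (n 0 z (n 0 z (n 0 z (n 0 z (n 0 z (n 0 z (n 0 z (n 0 z (n 0 z
 (n 0 z (n 0 z (n 0 z (n 0 z (n 0 z (n 0 z (n 0 z (n 0 z (n 0 z (n 0 z (n 0 z (n 0 z (n 0 z (n 0
 z z)))))))))))))))))))))))))))))))))))))))))))))))))))))))) (n 25 (n 0 z (n 0 z (n 0 z (n 0 z
 (n 0 z (n 0 z (n 0 z (n 0 z (n 0 z (n 0 z (n 0 z (n 0 z (n 0 z (n 0 z (n 0 z (n 0 z (n 0 z (n 0
 z (n 0 z (n 0 z (n 0 z (n 0 z (n 0 z (n 0 z (n 0 z (n 0 z (n 0 z (n 0 z (n 0 z (n 0 z (n 0 z (n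
 0 z (n 0 z (n 0 z (n 0 z (n 0 z (n 0 z (n 0 z (n 0 z (n 0 z (n 0 z (n 0 z (n 0 z (n 0 z (n 0 z
 (n 0 z (n 0 z (n 0 z (n 2 z (n 0 z (n 0 z (n 0 z (n 0 z (n 0 z (n 0 z (n 0 z
 z)))))))))))))))))))))))))))))))))))))))))))))))))))))))) z)))) (n 0 (n 0 z (n 0 z (n 0 z z)))
 (n 0 (n 0 z (n 0 z z)) (n 0 (n 0 z z) (n 0 z z)))))))))))))) (n 0 (n 1 (n 6566419 z (n 6566419
 z (n 6566419 z (n 6566419 z (n 6566419 z (n 6566419 z z)))))) (n 1 (n 1996 z (n 4700 z (n 4700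
 z (n 4396555 z (n 4700 z (n 4700 z z)))))) (n 1 (n 4331099 z (n 4700 z (n 4700 z (n 1996 z (n
 4700 z (n 6493227 z z)))))) (n 1 (n 4700 z (n 4700 z (n 6493227 z (n 4700 z (n 4700 z (n 4700 z
 z)))))) z)))) (n 0 z z)))) (n
 0x5adca2bb6510b66d12c7202d98c3b64a6314c858259705289621cecc03aed00b3281216c0 (n 0 (n 449 (n 0 z
 (n 0 z (n 6565923 z (n 0 z (n 0 z (n 0 z (n 2 z (n 6561843 z (n 0 z (n 6554411 z (n 0 z (n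
 6565923 z (n 0 z (n 0 z (n 10 z (n 0 z (n
 0x3aca8a86207c386598781747048887b747684ae648379965e3d726cab577d41a16f7e7b7c93979677858baa6e8b8c48767d8180678377810809
 z (n 0 z (n 18 z (n
 0x159519504060aca4ca4207688588778b836f998a8f7e83788a997286868f97799171ab7d756b848a6e827c6877898f6e7d68857d9d7688978d8f7886861009
 z (n 0 z (n 26 z z)))))))))))))))))))))) (n 421 (n 34 z (n 42 z (n 50 z (n
 0x19b2182a6438771867b7c7c8c7681758582817f7a807f8080797f75867c866e8d7c857c7f84857b797790817c7b8e70827f76877f8187810089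
 z (n 58 z (n 3278363 z (n
 0x5b2a00a654817d807d80808180817f8081807f8380807f827f807f7f83817f808082808082807d7e7f7f807e7e827f80807f81807f80800089
 z (n 0 z z)))))))) (n 9 (n 0 z (n 0 z (n 6561843 z (n 0 z z)))) (n 3 (n 0 z (n 6565923 z (n 0 z
 (n 0 z (n 0 z (n 0 z z)))))) (n 1 (n 0 z (n 0 z (n 66 z (n 0 z (n 74 z (n 6565923 z (n 0 z (n 0
 z (n 82 z (n 0 z (n 0 z z))))))))))) (n 0 (n 0 z (n 0 z (n 0 z (n 90 z (n 0 z (n 6631947 z (n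
 6631947 z (n 98 z (n 106 z (n
 0x19b2182a6438771867b7c7c8c7681758582817f7a807f8080797f75867c866e8d7c857c7f84857b797790817c7b8e70827f76877f8187810089
 z (n 0 z (n
 0x19b2102a6428771867b7c7c8c7681758582817f7a807f8080797f75867c866e8d7c857c7f84857b797790817c7b8e70827f76877f8187810089
 z z)))))))))))) z)))))) (n 9 (n 0 (n 0 z (n 0 z (n 0 z (n 739 (n 0 z (n 0 z (n 0 z (n 2 (n 0 z
 (n 0 z (n 0 z (n 2 (n 0 z (n 0 z (n 0 z (n 0 z (n 0 z (n 0 (n 8595307 z z) z)))))) (n 1 z (n 2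
 (n 0 z (n 0 z (n 0 z (n 0 z (n 0 z (n 0 (n 8595307 z z) z)))))) (n 1 z (n 2 (n 0 z (n 0 z (n 0
 z (n 0 z (n 0 z (n 0 z z)))))) (n 2 (n 0 z (n 0 z (n 0 z (n 0 z (n 0 z (n 0 (n 8872227 z z)
 z)))))) z))))))))) (n 0 z (n 0 z (n 0 z (n 0 z (n 0 z (n 0 z (n 0 z (n 0 z (n 0 z (n 0 z (n 0 z
 (n 0 z (n 0 z (n 0 z (n 0 z (n 0 z (n 0 z (n 0 z (n 0 z (n 0 z (n 0 z
 z))))))))))))))))))))))))) (n 739 (n 0 z (n 0 z (n 0 z (n 0 z (n 0 z (n 0 z (n 0 z (n 0 z (n 0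
 z (n 0 z (n 0 z (n 0 z (n 0 z (n 0 z (n 0 z (n 0 z (n 0 z (n 0 z (n 0 z (n 0 z (n 0 z (n 0 z (n
 0 z (n 0 z (n 0 z z))))))))))))))))))))))))) (n 739 (n 0 z (n 0 z (n 0 z (n 0 z (n 0 z (n 0 z
 (n 0 z (n 0 z (n 0 z (n 0 z (n 0 z (n 0 z (n 0 z (n 0 z (n 0 z (n 0 z (n 0 z (n 0 z (n 0 z (n 0
 z (n 0 z (n 0 z (n 0 z (n 0 z (n 0 z z))))))))))))))))))))))))) (n 739 (n 0 z (n 0 z (n 0 z (n
 0 z (n 0 z (n 0 z (n 0 z (n 0 z (n 0 z (n 0 z (n 0 z (n 0 z (n 0 z (n 0 z (n 0 z (n 0 z (n 0 z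
 (n 0 z (n 0 z (n 0 z (n 0 z (n 0 z (n 0 z (n 0 z (n 0 z z))))))))))))))))))))))))) (n 741 (n 0
 z (n 0 z (n 0 z (n 0 z (n 0 z (n 2 (n 0 z (n 0 z (n 2 (n 0 z (n 0 z (n 0 z (n 0 z (n 0 z (n 0
 (n 8802371 z z) z)))))) (n 1 z (n 1 z z))))) (n 0 z z))))))) (n 741 (n 0 z (n 0 z (n 0 z (n 0 z
 (n 0 z (n 0 z (n 0 z z))))))) (n 741 (n 0 z (n 0 z (n 2 (n 2 (n 0 z (n 0 z (n 0 z (n 0 z (n 0 z
 (n 0 (n 8802371 z z) z)))))) (n 1 z (n 1 z z))) (n 0 z (n 0 z (n 0 z (n 0 z z))))))) (n 737 (n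
 0 z (n 0 z (n 0 z (n 0 z (n 0 z (n 0 z (n 0 z (n 0 z (n 0 z (n 0 z (n 0 z (n 0 z (n 0 z (n 0 z
 (n 0 z (n 0 z (n 0 z (n 0 z (n 0 z (n 0 z (n 0 z (n 0 z (n 0 z (n 0 z (n 0 z (n 0 z (n 0 z (n 0
 z z)))))))))))))))))))))))))))) (n 737 (n 0 z (n 0 z (n 0 z (n 0 z (n 0 z (n 0 z (n 0 z (n 0 z
 (n 0 z (n 0 z (n 0 z (n 0 z (n 0 z (n 0 z (n 0 z (n 2 (n 0 z z) (n 0 z (n 0 z (n 0 z (n 0 z (n
 0 z (n 0 z (n 0 z (n 0 z (n 0 z (n 0 z (n 0 z (n 0 z z)))))))))))))))))))))))))))) (n 737 (n 0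
 z (n 0 z (n 0 z (n 0 z (n 0 z (n
 0x16ec8ec8203747d8fa37482a1697271897b825575877c7d7a82886f7a7683929d847f8680859a7e7d71a180817880657d78707f7c7587800809
 z (n
 0x41bb088a761af775c517e7e7780856f6e847e8f6d9c87797f60637d79aa8966896a8e77839b79686682b1963d73b369a370826e9c8c93780089
 z (n 0 z (n 0 z (n 0 z (n 0 z (n 0 z (n 0 z (n 0 z (n 0 z (n 0 z (n 0 z (n 0 z (n 0 z (n 0 z (n
 0 z (n 0 z (n 0 z (n 0 z (n 0 z (n 0 z (n 0 z (n 0 z z))))))))))))))))))))))))))))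
 z))))))))))))) (n 0 (n 0 z (n 0 z (n 143 (n 0 z (n 2 (n 0 z (n 0 z (n 0 z (n 2 (n 0 z (n 0 z (n
 0 z (n 0 z (n 0 z (n 0 z z)))))) (n 2 (n 0 z (n 0 z (n 0 z (n 0 z (n 0 z (n 0 z z)))))) (n 2 (n
 0 z (n 0 z (n 0 z (n 0 z (n 0 z (n 0 z z)))))) (n 2 (n 0 z (n 0 z (n 0 z (n 0 z (n 0 z (n 0 z
 z)))))) (n 2 (n 0 z (n 0 z (n 0 z (n 0 z (n 0 z (n 0 z z)))))) (n 2 (n 0 z (n 0 z (n 0 z (n 0 z
 (n 0 z (n 0 z z)))))) z))))))))) (n 0 z (n 0 z (n 0 z (n 0 z (n 0 z (n 0 z z)))))))) (n 143 (n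
 0 z (n 0 z (n 0 z (n 0 z (n 0 z (n 0 z (n 0 z (n 0 z z)))))))) (n 143 (n 0 z (n 0 z (n 0 z (n 0
 z (n 0 z (n 0 z (n 0 z (n 0 z z)))))))) (n 143 (n 0 z (n 0 z (n 0 z (n 0 z (n 0 z (n 0 z (n 0 z
 (n 0 z z)))))))) (n 137 (n 0 z (n 0 z (n 0 z (n 0 z (n 0 z (n 0 z (n 0 z (n 0 z (n 2 (n 0 z (n
 0 z (n 2 (n 0 z (n 0 z (n 0 z (n 0 z (n 0 z (n 0 z z)))))) (n 1 z (n 1 z z))))) (n 0 z (n 0 z
 (n 0 z (n 0 z (n 0 z z)))))))))))))) (n 137 (n 2 (n 0 z (n 2 (n 0 z (n 0 z (n 0 z (n 0 z (n 0 z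
 (n 0 z z)))))) (n 2 (n 0 z (n 0 z (n 0 z (n 0 z (n 0 z (n 0 z z)))))) (n 2 (n 0 z (n 0 z (n 0 z
 (n 0 z (n 0 z (n 0 z z)))))) z)))) (n 0 z (n 0 z (n 0 z (n 0 z (n 0 z (n 0 z (n 0 z (n 0 z (n 0
 z (n 0 z (n 0 z (n 0 z (n 0 z z)))))))))))))) (n 137 (n 0 z (n 0 z (n 0 z (n 0 z (n 0 z (n 0 z
 (n 0 z (n 0 z (n 0 z (n 0 z (n 0 z (n 0 z (n 0 z (n 0 z z)))))))))))))) (n 749 (n 0 z (n 0 z (n
 0 z (n 0 z (n 0 z (n 0 z (n 0 z (n 0 z (n 0 z (n 0 z (n 0 z z))))))))))) (n 749 (n 0 z (n 0 z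
 (n 0 z (n 0 z (n 0 z (n 2 (n 0 z z) (n 0 z (n 0 z (n 0 z (n 0 z (n 0 z z))))))))))) (n 749 (n 0
 z (n 0 z (n 2 z (n 0 z (n 0 z (n 0 z (n 0 z (n 0 z (n 0 z (n 0 z (n 0 z z)))))))))))
 z)))))))))))) (n 0 (n 0 z (n 897 (n 0 z (n 0 z (n 0 z (n 0 z (n 0 z (n 2 (n 0 z (n 0 z (n 0 z
 (n 1 z (n 2 (n 0 z (n 0 z (n 0 z (n 0 z (n 0 z (n 0 z z)))))) (n 1 z (n 2 (n 0 z (n 0 z (n 0 z
 (n 0 z (n 0 z (n 0 z z)))))) (n 1 z (n 1 z z))))))))) (n 0 z (n 0 z (n 0 z (n 0 z (n 0 z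
 z))))))))))) (n 897 (n 0 z (n 0 z (n 0 z (n 0 z (n 0 z (n 0 z (n 7610723 z (n 0 z (n
 0x41bb188a763af775c517e7e7780856f6e847e8f6d9c87797f60637d79aa8966896a8e77839b79686682b1963d73b369a370826e9c8c93780089
 z (n 0 z (n 0 z z))))))))))) (n 897 (n 0 z (n 0 z (n 2 (n 0 z (n 1 z (n 2 (n 0 z (n 0 z (n 0 z
 (n 0 z (n 0 z (n 0 z z)))))) (n 1 z (n 2 (n 0 z (n 0 z (n 0 z (n 0 z (n 0 z (n 0 z z)))))) (n 1
 z (n 1 z z))))))) (n 0 z (n 0 z (n 0 z (n 0 z (n 0 z (n 0 z (n 0 z (n 0 z z))))))))))) (n 897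
 (n 0 z (n 0 z (n 0 z (n 0 z (n 0 z (n 0 z (n 0 z (n 0 z (n 0 z (n 0 z (n 2 (n 1 z (n 2 (n 0 z
 (n 0 (n 2390 z z) (n 0 z (n 0 (n 8595035 z z) (n 0 z (n 0 (n 2364 z (n 2364 z z)) z)))))) (n 1
 z (n 2 (n 0 z (n 0 (n 4101 z z) (n 0 z (n 0 (n 2420 z z) (n 0 z (n 0 (n 2420 z (n 2420 z z))
 z)))))) (n 1 z (n 1 z z)))))) z))))))))))) (n 591 (n 0 z (n 0 z (n 0 z (n 0 z (n 0 z (n 0 z (n
 0 z (n 0 z z)))))))) (n 591 (n 0 z (n 0 z (n 2 (n 0 z (n 2 (n 0 z (n 0 z (n 0 z (n 0 z (n 0 z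
 (n 0 z z)))))) (n 1 z (n 1 z z)))) (n 0 z (n 0 z (n 0 z (n 0 z (n 0 z z)))))))) (n 591 (n 0 z
 (n 0 z (n 0 z (n 0 z (n 0 z (n 0 z (n 2 (n 1 z (n 1 z (n 1 z z))) (n 0 z z)))))))) (n 605 (n 2
 (n 0 z (n 0 z z)) (n 0 z (n 0 z (n 0 z (n 0 z (n 0 z (n 0 z (n 0 z (n 0 z (n 0 z (n 0 z (n 0 z
 (n 0 z z))))))))))))) (n 605 (n 0 z (n 0 z (n 0 z (n 0 z (n 0 z (n 0 z (n 0 z (n 0 z (n 0 z (n
 0 z (n 0 z (n 0 z (n 0 z z))))))))))))) (n 605 (n 0 z (n 0 z (n 0 z (n 0 z (n 0 z (n 0 z (n 0 z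
 (n 0 z (n 0 z (n 0 z (n 0 z (n 0 z (n 0 z z))))))))))))) z))))))))))) (n 0 (n 1083 (n 0 z (n 0
 z (n 0 z (n 0 z (n 0 z (n 0 z (n 0 z (n 0 z (n 0 z (n 0 z (n 0 z (n 0 z (n 0 z (n 0 z (n 0 z (n
 0 z (n 0 z (n 0 z (n 0 z (n 0 z (n 0 z (n 0 z z)))))))))))))))))))))) (n 1083 (n 0 z (n 0 z (n
 0 z (n 0 z (n 0 z (n 0 z (n 2 (n 0 z (n 0 z (n 2 (n 0 z (n 0 z (n 0 z (n 0 z (n 0 z (n 0 z
 z)))))) (n 2 (n 0 z (n 0 (n 2364 z (n 8587099 z z)) (n 0 (n 2364 z (n 2364 z z)) (n 0 (n 2364 z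
 (n 2364 z z)) (n 0 (n 2364 z (n 8587099 z z)) (n 0 z z)))))) (n 2 (n 0 (n 2364 z (n 2364 z z))
 (n 0 z (n 0 z (n 0 z (n 0 z (n 0 (n 2364 z z) z)))))) (n 2 (n 0 z (n 0 (n 2420 z (n 2420 z z))
 (n 0 (n 2420 z (n 2420 z z)) (n 0 (n 2420 z (n 2420 z z)) (n 0 (n 2420 z (n 2420 z z)) (n 0 z
 z)))))) (n 2 (n 0 (n 7407691 z (n 2420 z z)) (n 0 z (n 0 z (n 0 z (n 0 z (n 0 (n 7407691 z z)
 z)))))) (n 2 (n 0 z (n 0 z (n 0 z (n 0 z (n 0 z (n 0 z z)))))) z)))))))) (n 0 z (n 0 z (n 0 z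
 (n 0 z (n 0 z (n 0 z (n 0 z (n 0 z (n 0 z (n 0 z (n 0 z (n 0 z (n 0 z (n 0 z (n 0 z
 z)))))))))))))))))))))) (n 1083 (n 0 z (n 0 z (n 0 z (n 0 z (n 0 z (n 0 z (n 0 z (n 0 z (n 0 z
 (n 0 z (n 0 z (n 0 z (n 0 z (n 0 z (n 0 z (n 0 z (n 0 z (n 0 z (n 0 z (n 0 z (n 0 z (n 0 z
 z)))))))))))))))))))))) (n 1083 (n 0 z (n 0 z (n 0 z (n 0 z (n 0 z (n 0 z (n 0 z (n 0 z (n 0 z
 (n 0 z (n 0 z (n 0 z (n 0 z (n 0 z (n 2 (n 2 (n 0 (n 2364 z (n 2364 z z)) (n 0 z (n 0 (n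
 6359115 z (n 6359115 z z)) (n 0 (n 7407691 z (n 2364 z z)) (n 0 z (n 0 (n 6498395 z (n 6498395
 z z)) z)))))) (n 2 (n 0 z (n 0 z (n 0 z (n 0 z (n 0 z (n 0 z z)))))) (n 2 (n 0 (n 8855635 z (n
 8855635 z z)) (n 0 (n 8855635 z (n 8855635 z z)) (n 0 (n 8855635 z (n 8855635 z z)) (n 0 z (n 0
 z (n 0 (n 8855635 z (n 8855635 z z)) z)))))) (n 2 (n 0 z (n 0 z (n 0 z (n 0 z (n 0 z (n 0 z
 z)))))) (n 1 z (n 2 (n 0 (n 8595227 z (n 2420 z z)) (n 0 z (n 0 (n 7735371 z (n 2420 z z)) (n 0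
 (n 2420 z (n 2420 z z)) (n 0 z (n 0 (n 8595227 z (n 6563867 z z)) z)))))) z)))))) (n 0 z (n 0 z
 (n 0 z (n 0 z (n 0 z (n 0 z (n 0 z z)))))))))))))))))))))) (n 591 (n 0 z (n 0 z (n 0 z (n 0 z
 (n 0 z (n 0 z (n 0 z (n 0 z (n 0 z (n 0 z (n 0 z (n 0 z (n 0 z z))))))))))))) (n 591 (n 0 z (n
 0 z (n 0 z (n 0 z (n 0 z (n 0 z (n 0 z (n 0 z (n 0 z (n 0 z (n 0 z (n 0 z (n 0 z z)))))))))))))
 (n 591 (n 0 z (n 0 z (n 0 z (n 0 z (n 0 z (n 0 z (n 0 z (n 0 z (n 0 z (n 0 z (n 0 z (n 0 z (n 0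
 z z))))))))))))) (n 605 (n 0 z (n 0 z (n 0 z (n 0 z (n 0 z (n 0 z (n 0 z (n 0 z (n 0 z (n 0 z
 (n 0 z (n 0 z (n 0 z (n 0 z (n 0 z (n 0 z (n 0 z (n 0 z (n 0 z (n 0 z (n 0 z (n 0 z
 z)))))))))))))))))))))) (n 605 (n 0 z (n 0 z (n 0 z (n 0 z (n 0 z (n 0 z (n 0 z (n 0 z (n 0 z
 (n 0 z (n 0 z (n 0 z (n 0 z (n 0 z (n 0 z (n 0 z (n 0 z (n 0 z (n 0 z (n 0 z (n 0 z (n 0 z
 z)))))))))))))))))))))) (n 605 (n 0 z (n 0 z (n 0 z (n 0 z (n 0 z (n 0 z (n 0 z (n 0 z (n 0 z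
 (n 0 z (n 0 z (n 0 z (n 0 z (n 0 z (n 0 z (n 0 z (n 0 z (n 0 z (n 2 z (n 0 z (n 0 z (n 0 z
 z)))))))))))))))))))))) z)))))))))) (n 0 (n 0 z (n 0 z (n 0 z (n 783 (n 0 z (n 0 z (n 2 (n 0 z
 (n 0 z (n 2 (n 0 z (n 0 z (n 0 z (n 0 z (n 0 z (n 0 z z)))))) (n 1 z (n 2 (n 0 z (n 0 z (n 0 z
 (n 0 z (n 0 z (n 0 z z)))))) z))))) (n 0 z (n 0 z (n 0 z (n 0 z (n 0 z (n 0 z (n 0 z (n 0 z (n
 0 z z)))))))))))) (n 783 (n 0 z (n 0 z (n 0 z (n 0 z (n 2 (n 0 z (n 1 z (n 2 (n 0 z (n 0 z (n 0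
 z (n 0 z (n 0 z (n 0 z z)))))) (n 2 (n 0 z (n 0 z (n 0 z (n 0 z (n 0 z (n 0 z z)))))) z)))) (n
 0 z (n 0 z (n 0 z (n 0 z (n 0 z (n 0 z (n 0 z z)))))))))))) (n 783 (n 0 z (n 0 z (n 0 z (n 0 z
 (n 0 z (n 0 z (n 0 z (n 2 (n 2 (n 0 z (n 0 z (n 0 z (n 0 z (n 0 z (n 0 z z)))))) (n 1 z (n 1 z
 z))) (n 0 z (n 0 z (n 0 z (n 0 z z)))))))))))) (n 365 (n 0 z (n 0 z (n 0 z (n 0 z (n 0 z (n 0 z
 (n 0 z (n 0 z (n 0 z (n 0 z (n 0 z (n 0 z (n 0 z (n 0 z z)))))))))))))) (n 365 (n 0 z (n 0 z (n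
 0 z (n 0 z (n 2 (n 0 z z) (n 0 z (n 0 z (n 0 z (n 0 z (n 0 z (n 0 z (n 0 z (n 0 z (n 0 z
 z)))))))))))))) (n 365 (n 0 z (n 0 z (n 0 z (n 0 z (n 0 z (n 0 z (n 0 z (n 0 z (n 0 z (n 0 z (n
 0 z (n 0 z (n 0 z (n 0 z z)))))))))))))) z))))))))) (n 0 (n 0 z (n 0 z (n 819 (n 0 z (n 0 z (n
 0 z (n 0 z (n 0 z (n 0 z (n 0 z (n 0 z (n 0 z (n 0 z (n 0 z z))))))))))) (n 819 (n 0 z (n 0 z
 (n 0 z (n 0 z (n 0 z (n 0 z (n 0 z (n 0 z (n 0 z (n 0 z (n 0 z z))))))))))) (n 819 (n 0 z (n 0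
 z (n 0 z (n 0 z (n 0 z (n 0 z (n 0 z (n 2 (n 2 (n 0 z (n 0 z (n 0 (n 4148 z z) (n 0 (n 4148 z
 z) (n 0 z (n 0 (n 4148 z (n 7473179 z z)) z)))))) (n 1 z (n 1 z z))) (n 0 z (n 0 z (n 0 z
 z))))))))))) (n 1037 (n 0 z (n 0 z (n 0 z (n 0 z (n 0 z (n 0 z (n 0 z (n 0 z (n 0 z (n 0 z (n 0
 z (n 0 z z)))))))))))) (n 1037 (n 0 z (n 0 z (n 0 z (n 0 z (n 0 z (n 0 z (n 0 z (n 0 z (n 0 z
 (n 0 z (n 0 z (n 0 z z)))))))))))) (n 1037 (n 0 z (n 0 z (n 0 z (n 0 z (n 0 z (n 0 z (n 2 z (n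
 0 z (n 0 z (n 0 z (n 0 z (n 0 z z)))))))))))) z)))))))) (n 0 (n 0 z (n 339 (n 0 z (n 0 z (n 0 z
 (n 0 z (n 2 (n 0 z (n 0 z (n 2 (n 0 z (n 0 z (n 0 z (n 0 z (n 0 z (n 0 z z)))))) (n 1 z (n 2 (n
 0 z (n 0 z (n 0 z (n 0 z (n 0 z (n 0 z z)))))) z))))) (n 0 z (n 0 z (n 0 z (n 0 z (n 0 z (n 0 z
 (n 0 z (n 0 z (n 0 z (n 0 z z))))))))))))))) (n 339 (n 0 z (n 0 z (n 0 z (n 0 z (n 0 z (n 0 z
 (n 0 z (n 0 z (n 0 z (n 0 z (n 0 z (n 0 z (n 0 z (n 0 z (n 0 z z))))))))))))))) (n 339 (n 0 z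
 (n 0 z (n 0 z (n 0 z (n 0 z (n 0 z (n 0 z (n 0 z (n 0 z (n 2 (n 2 (n 0 z (n 0 z (n 0 z (n 0 z
 (n 0 z (n 0 z z)))))) (n 1 z (n 1 z z))) (n 0 z (n 0 z (n 0 z (n 0 z (n 0 z z))))))))))))))) (n
 337 (n 0 z (n 0 z (n 0 z (n 0 z (n 0 z (n 0 z (n 0 z (n 0 z (n 0 z (n 0 z (n 0 z (n 0 z (n 0 z
 (n 0 z z)))))))))))))) (n 337 (n 0 z (n 0 z (n 0 z (n 0 z (n 0 z (n 0 z (n 0 z (n 0 z (n 0 z (n
 2 (n 0 z z) (n 0 z (n 0 z (n 0 z (n 0 z z)))))))))))))) (n 337 (n 0 z (n 0 z (n 0 z (n 0 z (n 0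
 z (n 0 z (n 0 z (n
 0x5bb000a760817d807d80808180817f8081807f8380807f827f807f7f83817f808082808082807d7e7f7f807e7e827f80807f81807f80800089
 z (n 0 z (n 0 z (n 0 z (n 0 z (n 0 z (n 0 z z)))))))))))))) z))))))) (n 0 (n 579 (n 0 z (n 0 z
 (n 0 z (n 2 (n 0 z (n 0 z (n 2 (n 0 z (n 0 z (n 0 (n 8594971 z z) (n 0 z (n 0 (n 4100 z z) (n 0
 (n 4100 z (n 7473179 z z)) z)))))) (n 1 z (n 1 z z))))) (n 0 z (n 0 z (n 0 z (n 0 z (n 0 z (n 0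
 z (n 0 z (n 0 z (n 0 z z))))))))))))) (n 579 (n 0 z (n 0 z (n 0 z (n 0 z (n 0 z (n 0 z (n
 0x16ecaeca403747d8fa37482a1697271897b825575877c7d7a82886f7a7683929d847f8680859a7e7d71a180817880657d78707f7c7587800809
 z (n
 0x5bb180a763817d807d80808180817f8081807f8380807f827f807f7f83817f808082808082807d7e7f7f807e7e827f80807f81807f80800089
 z (n 0 z (n 0 z (n 0 z (n 0 z (n 0 z z))))))))))))) (n 579 (n 0 z (n 0 z (n 0 z (n 0 z (n 0 z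
 (n 0 z (n 0 z (n 0 z (n 0 z (n 0 z (n 0 z (n 0 z (n 0 z z))))))))))))) (n 1025 (n 0 z (n 0 z (n
 0 z (n 0 z (n 0 z (n 0 z (n 0 z (n 0 z (n 0 z (n 0 z (n 0 z (n 0 z z)))))))))))) (n 1025 (n 0 z
 (n 0 z (n 0 z (n 0 z (n 0 z (n 0 z (n 2 (n 0 z z) (n 0 z (n 0 z (n 0 z (n 0 z (n 0 z
 z)))))))))))) (n 1025 (n 0 z (n 0 z (n 0 z (n 0 z (n 0 z (n 0 z (n 0 z (n 0 z (n 0 z (n 0 z (n
 0 z (n 0 z z)))))))))))) z)))))) (n 0 (n 0 z (n 0 z (n 1 (n 2 (n 0 z (n 0 z z)) (n 0 z (n 0 z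
 (n 0 z (n 0 z (n 0 z (n 0 z (n 0 z (n 0 z (n 0 z (n 0 z z))))))))))) (n 1 (n 0 z (n 0 z (n 0 z
 (n 0 z (n 0 z (n 0 z (n 0 z (n 0 z (n 0 z (n 0 z (n 0 z z))))))))))) (n 1 (n 0 z (n 0 z (n 0 z
 (n 0 z (n 0 z (n 0 z (n 0 z (n 0 z (n 0 z (n 0 z (n 0 z z))))))))))) z))))) (n 0 (n 0 z (n 985
 (n 0 z (n 0 z (n 0 z (n 0 z (n 0 z (n 0 z (n 0 z (n 0 z (n 0 z (n 0 z (n 0 z (n 0 z (n 0 z (n 0
 z (n 0 z (n 0 z (n 0 z (n 0 z (n 0 z (n 0 z (n 0 z (n 0 z (n 0 z (n 0 z (n 0 z (n 0 z (n 0 z (n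
 0 z (n 0 z (n 0 z (n 0 z (n 0 z (n 0 z (n 0 z (n 0 z (n 0 z (n 0 z (n 0 z (n 0 z (n 0 z (n 0 z
 (n 0 z (n 0 z (n 0 z (n 0 z (n 0 z z)))))))))))))))))))))))))))))))))))))))))))))) (n 985 (n 0
 z (n 0 z (n 0 z (n 0 z (n 0 z (n 0 z (n 0 z (n 0 z (n 0 z (n 0 z (n 0 z (n 0 z (n 0 z (n 0 z (n
 0 z (n 0 z (n 0 z (n 0 z (n 0 z (n 0 z (n 0 z (n 0 z (n 0 z (n 0 z (n 0 z (n 0 z (n 0 z (n 0 z
 (n 0 z (n 0 z (n 0 z (n 0 z (n 2 (n 0 z z) (n 0 z (n 0 z (n 0 z (n 0 z (n 0 z (n 0 z (n 0 z (n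
 0 z (n 0 z (n 0 z (n 0 z (n 0 z (n 0 z z)))))))))))))))))))))))))))))))))))))))))))))) (n 985
 (n 0 z (n 0 z (n 0 z (n 0 z (n 0 z (n 0 z (n 0 z (n 0 z (n 0 z (n
 0x2cc85901c0622ec6ec420371799fab727ea56274729b757f568a82837d7a94936b7b69817b9e857f848177968a83789180937676647d786d7d727b80841009
 z (n
 0x5bb000a760817d807d80808180817f8081807f8380807f827f807f7f83817f808082808082807d7e7f7f807e7e827f80807f81807f80800089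
 z (n 0 z (n 0 z (n 0 z (n 0 z (n 0 z (n 0 z (n 0 z (n 0 z (n 0 z (n 0 z (n 0 z (n 0 z (n 0 z (n
 0 z (n 0 z (n 0 z (n 0 z (n 0 z (n 0 z (n 0 z (n 0 z (n 0 z (n 0 z (n 0 z (n 0 z (n 0 z (n 0 z
 (n 0 z (n 0 z (n 0 z (n 0 z (n 0 z (n 0 z (n 0 z (n 0 z
 z)))))))))))))))))))))))))))))))))))))))))))))) z)))) (n 0 (n 1 (n 0 z (n 0 z (n 0 z (n 2 (n 0
 z (n 0 z z)) (n 0 z (n 0 z (n 0 z (n 0 z (n 0 z (n 0 z (n 0 z (n 0 z (n 0 z (n 0 z (n 0 z (n 0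
 z (n 0 z (n 0 z (n 0 z (n 0 z (n 0 z (n 0 z (n 0 z (n 0 z (n 0 z z))))))))))))))))))))))))) (n
 1 (n 0 z (n 0 z (n 0 z (n 0 z (n 0 z (n 0 z (n 0 z (n 0 z (n 0 z (n 0 z (n 0 z (n 0 z (n 0 z (n
 0 z (n 0 z (n 0 z (n 0 z (n 0 z (n 0 z (n 0 z (n 0 z (n 0 z (n 0 z (n 0 z (n 0 z
 z))))))))))))))))))))))))) (n 1 (n 0 z (n 0 z (n 0 z (n 0 z (n 0 z (n 0 z (n 0 z (n 0 z (n 0 z
 (n 0 z (n 0 z (n 0 z (n 0 z (n 0 z (n 0 z (n 0 z (n 0 z (n 0 z (n 0 z (n 0 z (n 0 z (n 0 z (n 2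
 z (n 0 z (n 0 z z))))))))))))))))))))))))) z))) (n 0 (n 0 z (n 0 z z)) (n 0 (n 0 z z) (n 0 z
 z)))))))))))))) (n 0 (n 0 z (n 0 z (n 1 (n 6561843 z (n 6565923 z (n 6561843 z (n 6561843 z (n
 6561843 z (n 6561843 z z)))))) (n 0 z z)))) (n 0 z z)))) z))))))), by decide +kernel⟩

theorem g7_60 : RgOk KT RW [10765, 10773, 10783, 10788, 10798, 10808, 10818, 10825] := ⟨i10765, ⟨i10773, ⟨i10783, ⟨i10788, ⟨i10798, ⟨i10808, ⟨i10818, True.intro⟩⟩⟩⟩⟩⟩⟩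

end Pool.Agent.Lib.EPS9
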