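import Pool.Agent.Lib.MP_c7e7f6_eps.Core4
import Pool.Agent.Lib.MP_c7e7f6_eps.KtAll

/-!
Extensions of the words from number 10825 on.
-/

set_option autoImplicit false

namespace Pool.Agent.Lib.EPS9

open Tr

theorem i10825 : ∃ t, chkR KT RW t 10825 10835 = true := ⟨(n 0x6b63a33d2dd98956ac24aa6823b3d00
 (n 0 (n 183 (n
 0xcca6a824038218208a17e179f82089e75d76081e8607e186382081d6e279f75f7e185f8a695c8e18e66a50801 z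
 (n 0 z (n 0 z (n
 0xaca8ca86077a185e8608627e585e85e8a07de8e08a17a381d8208208238237e07e082079f81f7df7e07e00801 z
 (n 6620219 z (n 0 z (n 6554139 z (n 0 z (n 0 z (n 0 z (n 0 z (n 6635571 z (n 6635571 z (n 0 z
 (n 2 z z))))))))))))))) (n 255 (n 0 z (n 0 z (n 4400667 z (n 6558475 z (n 10 z (n 0 z (n 0 z
 z))))))) (n 171 (n 0 z (n 3212843 z (n 18 z (n 26 z z)))) (n 3 (n 6631491 z (n 0 z (n 0 z (n 0
 z (n 0 z z))))) (n 1 (n 0 z (n 6635571 z (n 0 z (n 0 z (n 0 z z))))) (n 0 (n 0 z (n 0 z (n 0 z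
 (n 0 z (n 6635571 z (n 0 z (n 0 z (n 0 z (n 0 z (n 0 z (n 0 z (n 34 z (n 42 z (n 6620219 z
 z)))))))))))))) z)))))) (n 171 (n 0 (n 1089 (n 0 z (n 0 z (n 0 z (n 0 z (n 0 z (n 0 z (n 0 z (n
 0 z (n 0 z (n 0 z (n 0 z (n 0 z (n 0 z (n 0 z z)))))))))))))) (n 775 (n 0 z (n 0 z (n 0 z (n 0
 z (n 0 z (n 0 z (n 7741523 z z))))))) (n 775 (n 0 z (n 0 z (n 0 z (n 0 z (n 0 z (n 0 z (n 0 z
 z))))))) (n 365 (n 0 z (n 0 z (n 0 z (n 0 z (n 0 z (n 0 z (n 0 z z))))))) (n 365 (n 2 z (n 0 z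
 (n 0 z (n 0 z (n 0 z (n 0 z (n 0 z z))))))) z))))) (n 0 (n 391 (n 0 z (n 7741699 z (n 0 z (n 0
 z z)))) (n 391 (n 0 z (n 0 z (n 0 z (n 0 z z)))) (n 293 (n 0 z (n 0 z (n 0 z (n 0 z (n 0 z (n 0
 z (n 0 z (n 0 z (n 0 z (n 0 z (n 0 z (n 0 z (n 0 z (n 0 z (n 0 z (n 0 z (n 0 z
 z))))))))))))))))) (n 293 (n 0 z (n 0 z (n 0 z (n 0 z (n 0 z (n 0 z (n 0 z (n 0 z (n 0 z (n 0 z
 (n 0 z (n 0 z (n 0 z (n 0 z (n 0 z (n 0 z (n 0 z z))))))))))))))))) z)))) (n 0 (n 0 z (n 289 (n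
 0 z (n 0 z (n 0 z (n 0 z (n 0 z (n 0 z (n 0 z (n 0 z (n 0 z (n 0 z (n 0 z (n 2 (n 0 z z) (n 0 z
 (n 0 z (n 0 z (n 0 z (n 0 z z))))))))))))))))) (n 289 (n 0 z (n 0 z (n 0 z (n 0 z (n 0 z (n 0 z
 (n 0 z (n 0 z (n 0 z (n 0 z (n 0 z (n 0 z (n 0 z (n 0 z (n 0 z (n 2 z (n 0 z z)))))))))))))))))
 z))) (n 0 (n 341 (n 0 z (n 0 z (n 0 z (n 0 z (n 0 z (n 0 z (n 0 z (n 0 z z)))))))) (n 341 (n 0
 z (n 0 z (n 0 z (n 0 z (n 0 z (n 0 z (n 0 z (n 0 z z)))))))) z)) (n 0 (n 0 z z) (n 0 z z))))))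
 (n 0 (n 0 z (n 1 (n 3212843 z (n 3212843 z (n 6554139 z (n 3212843 z (n 3212843 z (n 3212843 z
 z)))))) (n 1 (n 1468 z (n 5379595 z (n 1468 z (n 1468 z (n 1468 z (n 1468 z z)))))) (n 1 (n
 1468 z (n 1468 z (n 1468 z (n 6554139 z (n 1468 z (n 2044 z z)))))) z)))) (n 0 z z)))) (n
 0x1ad8e8aaa743ceda0a8a565051356d019510099ac0 (n 0 (n 183 (n 2 z (n 0 z (n 0 z (n 10 z (n
 6620219 z (n 0 z (n 18 z (n 0 z (n 0 z (n 0 z (n 0 z (n 6635571 z (n 0 z (n 0 z (n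
 0x195195080e02ca8ca6403817f817e7e80807f81807f817f81827f827f81807f808080808080808080807f808080807f808080818080818180818080801009
 z z))))))))))))))) (n 255 (n 0 z (n 0 z (n 3278363 z (n 0 z (n
 0xd94d4c080e02ca6ca40078181837f85828184847f7f82807c827c7f7c827c7f807d83817c84848080807f7f7f8081807e808082807e81798083807e801009
 z (n 0 z (n 0 z z))))))) (n 129 (n 0 z (n 26 z (n 3212843 z (n 0 z z)))) (n 3 (n 0 z (n 0 z (n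
 0 z (n 6631491 z (n 0 z (n 0 z (n 0 z z))))))) (n 1 (n 0 z (n 0 z (n 0 z (n 0 z (n 6635571 z (n
 0 z z)))))) (n 0 (n 34 z (n
 0x2686ca884260700022f651420301800b3fa19328081c00100590d90040e004792c64c40207000634632632001800423b21219001c0043b98858840060006b2ca48420030005156c8200515e990401d93cb208026cf86417ff6d0800e957ffe147ff610800f0e8009807ff5757fe9377ff1a57fd5b9801c66800cda7fecca7ff6b28018897ff2d08013547ff9a27ff2b3801a207ff0b4800638800c397ff64980240f7ff46c8009c980033c801d137ffb207ffca37faa7f802ba97fda458008cc7feb687fe1e4801a9080319580060d8011b77ff6078004e0802ebf8008cb80106d7ff3ef7feabe8031907ff0e94919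
 z (n
 0x32ca48206038b8071896d84886c80817b77828e87947273897e83867a9080775e6d788a7873868390829986847f7695755e7b7f7c806f910809
 z (n
 0x2c64c640077f7c827d807e8080818381808280817f7f818083818081807d7d80828080828382807e7e8080807e7e827c828080807e82800809
 z (n 0 z (n 42 z (n 0 z (n 6635571 z (n 0 z (n 0 z (n 0 z (n 50 z (n
 0x14620807d7f7f7e7e817d8383808381807e8180808080817f807e7f817e7e7e8280848282807b8080827d7f847f7e827f81817f800049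
 z (n 6620219 z (n
 0x4c86c86007837d8283817f7d828281807f808180817f7f7f7c8180817e828080807f81807e837e7f808181807f7f807f7f807f7f8081800809
 z (n 0 z (n 0 z (n 0 z (n 0 z (n 0 z (n
 0x346407d827c807d83847e838385817f8581867e817f837f7e807c7b8479808383817e8983837b7d7e827e7f807d827e7d7e81847e0049
 z (n 58 z (n 0 z (n 0 z (n 0 z z))))))))))))))))))))))))) z)))))) (n 129 (n 0 (n 0 z (n 0 z (n
 731 (n 0 z (n 6358843 z (n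
 0x2eea4c806077e787d8776847c83768d7c6f8684728a74858974847a818e86806f846e7d7d9b76927d9b847b85837b80807465807376877e0809
 z (n 0 z (n 0 z (n 0 z (n 0 z (n 0 z (n 0 z (n 0 z (n 0 z (n 0 z (n 0 z (n 0 z (n 0 z (n 0 z (n
 0 z (n 0 z (n 0 z (n 0 z (n 0 z (n 0 z (n 0 z (n 0 z (n 0 z z))))))))))))))))))))))))) (n 725
 (n 0 z (n 6358843 z (n 0 z (n 0 z (n 0 z (n 0 z (n 0 z (n 0 z (n 0 z z))))))))) (n 725 (n 0 z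
 (n 0 z (n 0 z (n 0 z (n 0 z (n 0 z (n 0 z (n 0 z (n 0 z z))))))))) (n 725 (n 0 z (n 0 z (n 0 z
 (n 0 z (n 0 z (n
 0x25d91d8c80e00ca6a864070776476120389ba8b20101c79d4d0c080602ca4ca4207807a7a707a54a5499b9889a6787f688e8c8573908984896361945d6a7da07771c39ea0617974ae826187774ea05a767561833009
 z (n 0 z (n 0 z (n 0 z z))))))))) (n 725 (n 0 z (n 0 z (n 0 z (n 0 z (n 0 z (n 0 z (n 0 z (n 0
 z (n 0 z z))))))))) z))))))) (n 0 (n 0 z (n 151 (n 0 z (n 0 z (n 0 z (n 0 z (n 0 z (n 0 z (n 0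
 z (n 0 z (n 0 z (n 0 z (n 0 z (n 0 z (n 0 z (n 0 z (n 0 z (n 0 z (n 0 z (n 0 z (n 0 z (n 0 z (n
 0 z (n 0 z (n 0 z (n 0 z (n 0 z z))))))))))))))))))))))))) (n 149 (n 0 z (n 0 z (n 0 z (n 0 z
 (n 0 z (n 0 z (n 0 z (n 0 z (n 0 z (n 0 z (n 0 z (n 0 z (n 0 z (n 0 z (n 0 z (n 0 z (n 0 z (n 0
 z (n 0 z (n 0 z (n 0 z (n 0 z (n 0 z (n 0 z (n 0 z (n 0 z (n 0 z (n 0 z
 z)))))))))))))))))))))))))))) (n 149 (n 0 z (n 0 z (n 0 z (n 0 z (n 0 z (n 0 z (n 0 z (n 0 z (n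
 0 z (n 0 z (n 0 z (n 0 z (n 0 z (n 0 z (n 0 z (n 0 z (n 0 z (n 0 z (n 0 z (n 0 z (n 0 z (n 0 z
 (n 0 z (n 0 z (n 0 z (n 0 z (n 0 z (n 0 z z)))))))))))))))))))))))))))) (n 149 (n 0 z (n 0 z (n
 0 z (n 0 z (n 0 z (n 0 z (n 0 z (n 0 z (n 0 z (n 0 z (n 0 z (n 0 z (n 0 z (n 0 z (n
 0x6ba9b18100c51d0d8c080662ea6860403838a91878e54906480858c82747a869092867091848d8c6e7289926e848e7e4e976d928c6f8e9d797056a96b974b97706c8b1809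
 z (n 0 z (n 0 z (n 0 z (n 0 z (n 0 z (n 0 z (n 0 z (n 0 z (n 0 z (n 0 z (n 0 z (n 0 z (n 0 z
 z)))))))))))))))))))))))))))) (n 149 (n 0 z (n 0 z (n 0 z (n 0 z (n 0 z (n 0 z (n 0 z (n 0 z (n
 0 z (n 0 z (n 0 z (n 0 z (n 0 z (n 0 z (n 0 z (n 0 z (n 0 z (n 0 z (n 0 z (n 0 z (n 0 z (n 0 z
 (n 0 z (n 0 z (n 0 z (n 0 z (n 0 z (n 0 z z)))))))))))))))))))))))))))) z)))))) (n 0 (n 183 (n
 0 z (n 0 z (n 0 z (n 2 (n 2 (n 0 (n 8864515 z z) (n 0 z (n 0 z (n 0 z (n 0 z (n 0 (n 8864515 z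
 (n 8864515 z z)) z)))))) (n 2 (n 0 (n 1460 z (n 8455995 z z)) (n 0 z (n 0 z (n 0 z (n 0 z (n 0
 (n 1460 z z) z)))))) (n 2 (n 0 z (n 0 z (n 0 z (n 0 z (n 0 z (n 0 z z)))))) (n 2 (n 0 z (n 0 z
 (n 0 z (n 0 z (n 0 z (n 0 z z)))))) z)))) (n 0 z (n 0 z (n 0 z (n 0 z (n 0 z (n 0 z (n 0 z (n 0
 z (n 0 z (n 0 z (n 0 z (n 0 z (n 0 z z))))))))))))))))) (n 365 (n 0 z (n 0 z (n 0 z (n 2 (n 0 z
 (n 0 z (n 0 z z))) (n 0 z (n 0 z (n 0 z (n 0 z (n 0 z (n 0 z (n 0 z (n 0 z (n 0 z (n 0 z (n 0 z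
 (n 0 z (n 0 z z))))))))))))))))) (n 365 (n 0 z (n 0 z (n 0 z (n 0 z (n 0 z (n 0 z (n 0 z (n 0 z
 (n
 0x38ec8c42607000000753631203800009b29b18901c00004594994840e000002e64e6420780001b7fffba8000248000117fffd97fffe07fffff7fffde7fffe780000f7fffea7fffd880000f8000117fffed80002580000e7fffef8000037ffff87fffff7ffffb7ffff480000b7ffff87fffd48000017fffd17ffff17ffff87ffffc80004b7fffaa8000037ffff980002280002c7ffff17fffde8000257fffe580008280000f7ffff17fffbf8000007ffffb8000327fffb98000112819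
 z (n 0 z (n 0 z (n 0 z (n 0 z (n 0 z (n 0 z (n 0 z (n 0 z z))))))))))))))))) (n 365 (n 0 z (n 0
 z (n 0 z (n 0 z (n 0 z (n 0 z (n 0 z (n 0 z (n 0 z (n 0 z (n 0 z (n 0 z (n 0 z (n 0 z (n 0 z (n
 0 z (n 0 z z))))))))))))))))) (n 365 (n 0 z (n 0 z (n 0 z (n 0 z (n 0 z (n 0 z (n 0 z (n 0 z (n
 0 z (n 0 z (n 0 z (n 0 z (n 0 z (n 0 z (n 0 z (n 0 z (n 0 z z))))))))))))))))) z))))) (n 0 (n
 641 (n 0 z (n 0 z (n 0 z (n 0 z (n 0 z (n 0 z (n 0 z (n 0 z (n 0 z (n 0 z (n 0 z (n 0 z (n 0 z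
 (n 0 z (n 0 z (n 0 z (n 0 z (n 0 z (n 0 z (n 0 z (n 0 z (n 0 z (n 0 z (n 0 z (n 0 z (n 0 z (n 0
 z (n 0 z z)))))))))))))))))))))))))))) (n 641 (n 0 z (n 0 z (n 0 z (n 0 z (n 0 z (n 0 z (n 0 z
 (n 0 z (n 0 z (n 0 z (n 0 z (n 0 z (n 0 z (n 0 z (n 0 z (n 0 z (n 0 z (n 0 z (n 0 z (n 0 z (n 0
 z (n 0 z (n 0 z (n 0 z (n 0 z (n 0 z (n 0 z (n 0 z z)))))))))))))))))))))))))))) (n 641 (n 0 z
 (n 0 z (n 0 z (n 0 z (n 0 z (n 0 z (n 0 z (n 0 z (n 0 z (n 0 z (n 0 z (n 0 z (n 0 z (n 0 z (n 0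
 z (n 0 z (n 0 z (n 0 z (n 0 z (n 0 z (n 0 z (n 0 z (n 0 z (n 0 z (n 0 z (n 0 z (n 0 z (n 0 z
 z)))))))))))))))))))))))))))) (n 641 (n 0 z (n 0 z (n 0 z (n 0 z (n 0 z (n 0 z (n 0 z (n 0 z (n
 0 z (n 0 z (n 0 z (n 0 z (n 0 z (n 0 z (n 0 z (n 0 z (n 0 z (n 0 z (n 0 z (n 0 z (n 0 z (n 0 z
 (n 0 z (n 0 z (n 0 z (n 0 z (n 0 z (n 0 z z)))))))))))))))))))))))))))) z)))) (n 0 (n 0 z (n 0
 z (n 0 z z))) (n 0 (n 0 z (n 0 z z)) (n 0 (n 0 z z) (n 0 z z)))))))) (n 0 (n 0 z (n 1 (n 1468 z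
 (n 1468 z (n 1468 z (n 2044 z (n 2164283 z (n 1468 z z)))))) (n 1 (n 3212843 z (n 3212843 z (n
 3212843 z (n 3212843 z (n 3212843 z (n 3212843 z z)))))) (n 0 z z)))) (n 0 z z)))) (n
 0x1ab528ceb97661c5b3a21 (n 0 (n 153 (n 0 z (n 0 z (n 0 z (n 0 z (n 3282443 z (n 0 z (n 0 z
 z))))))) (n 57 (n 0 z (n 0 z (n 6496515 z (n 2 z z)))) (n 51 (n 6496515 z (n 0 z (n 0 z (n
 6496515 z (n 10 z z))))) (n 27 (n 0 z (n 6496515 z (n 0 z (n 0 z (n 0 z z))))) (n 1 (n 0 z (n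
 6636083 z (n 0 z (n 0 z (n 0 z z))))) (n 0 (n 0 z (n 0 z (n 0 z (n 0 z (n 0 z (n 0 z (n 0 z (n
 6636083 z (n
 0x1c62081f8df86182085e89d8217e081f86181f7df81f8a08a08208208628608208608207df7e08600041 z (n 0 z
 (n 0 z (n 18 z (n
 0x8c84c8420781e8db7a285e89f81d92172279e7a67e085f81c89f75f8e376282585f85f8a57de89a81f8600801 z
 (n 0 z (n 0 z (n 26 z (n 6628411 z z))))))))))))))))) z)))))) (n 57 (n 0 (n 727 (n 0 z (n 0 z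
 (n 0 z (n 0 z (n 0 z (n 0 z (n 0 z z))))))) (n 113 (n 0 z (n 0 z (n 0 z (n 0 z (n 0 z (n 0 z (n
 0 z (n 0 z z)))))))) (n 113 (n 0 z (n 0 z (n 0 z (n 0 z (n 0 z (n 0 z (n 0 z (n 0 z z))))))))
 z))) (n 0 (n 101 (n 0 z (n 0 z (n 0 z (n 0 z (n 0 z (n 0 z (n 0 z (n 0 z (n 0 z z))))))))) (n
 101 (n 0 z (n 0 z (n 0 z (n 2 z (n 0 z (n 0 z (n 0 z (n 0 z (n 0 z z))))))))) z)) (n 0 (n 0 z
 z) (n 0 z z)))) (n 0 (n 0 z (n 0 z (n 1 (n 6496515 z (n 6496515 z (n 6496515 z (n 6496515 z (n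
 6496515 z (n 6496515 z z)))))) (n 1 (n 1228 z (n 1228 z (n 1228 z (n 1228 z (n 6619675 z (n
 1228 z z)))))) z)))) (n 0 z z)))) (n
 0x2d44d0b65682a9570d5398528cc11aa51b2b2ac154a1162470b91281489548051a80 (n 0 (n 587 (n 3282443 z
 (n 2 z (n 10 z (n 0 z (n 0 z z))))) (n 33 (n 0 z (n 6627635 z (n 0 z (n 0 z z)))) (n 9 (n 18 z
 (n 0 z (n 26 z (n 34 z (n 0 z (n 0 z (n 0 z (n 0 z (n 0 z (n 0 z (n 0 z (n 0 z (n 42 z (n 0 z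
 (n
 0x3b6518a757f8e847c7c749173659a7e86767a8880948ba2707e87807983809886886c6d856a886e7e68887f837f89947c84827e760049
 z (n
 0x12ca8ca80077f8b87827e918d6e7e7b768086817d867c828880907a828c809172828e6a778465836687808181767d9786847b838d6d85800809
 z (n 0 z (n 0 z (n 6631955 z (n 0 z (n 0 z (n 0 z (n 0 z z))))))))))))))))))))))) (n 3 (n 0 z
 (n 0 z (n 6631955 z (n 0 z (n 0 z (n 0 z (n
 0x10c86a804038b897b86867c80739276678e77968088948391768e717e89807a85908b7a87746d7972846375678f88847b8ca18785836c810809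
 z (n 0 z (n 6631955 z (n 0 z (n 0 z (n 0 z (n 0 z (n 0 z (n 0 z (n 0 z (n 0 z (n 0 z (n 0 z (n
 0x4ca8ca04077f80818080818180807f8080808180807e808180807f7f81808280828080818180817f807f7f7f81817f81807f81818080800809
 z z)))))))))))))))))))) (n 1 (n 0 z (n 2164299 z (n 50 z (n 58 z (n 66 z (n 74 z z)))))) (n 0
 (n 82 z (n 6631955 z (n 0 z (n 0 z (n 90 z (n 0 z (n 0 z (n 0 z (n 98 z (n 0 z z))))))))))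
 z)))))) (n 33 (n 0 (n 0 z (n 1245 (n 0 z (n 0 z (n 0 z (n 0 z (n 0 z (n 0 z (n 0 z (n 0 z (n 0
 z (n 0 z (n 0 z (n 0 z (n 0 z (n 0 z (n 0 z (n 0 z (n 0 z (n 0 z (n 0 z (n 0 z (n 0 z (n 0 z
 z)))))))))))))))))))))) (n 1245 (n 0 z (n 0 z (n 0 z (n 0 z (n 0 z (n 0 z (n 0 z (n 0 z (n 0 z
 (n 0 z (n 0 z (n 0 z (n 0 z (n 0 z (n 0 z (n 2 (n 0 z (n 0 z (n 2 (n 0 z (n 0 z (n 0 z (n 0 z
 (n 0 z (n 0 z z)))))) (n 2 (n 0 z (n 0 z (n 0 z (n 0 z (n 0 z (n 0 z z)))))) (n 2 (n 0 z (n 0 z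
 (n 0 z (n 0 z (n 0 z (n 0 z z)))))) (n 2 (n 0 z (n 0 z (n 0 z (n 0 z (n 0 z (n 0 z z)))))) (n 2
 (n 0 z (n 0 z (n 0 (n 404 z z) (n 0 (n 404 z (n 404 z z)) (n 0 (n 404 z z) (n 0 z z)))))) (n 2
 (n 0 z (n 0 z (n 0 z (n 0 z (n 0 z (n 0 z z)))))) (n 2 (n 0 z (n 0 (n 404 z z) (n 0 z (n 0 (n
 69 z (n 69 z z)) (n 0 (n 8721995 z z) (n 0 z z)))))) z))))))))) (n 0 z (n 0 z (n 0 z (n 0 z (n
 0 z (n 0 z z)))))))))))))))))))))) (n 1245 (n 0 z (n 0 z (n 0 z (n 0 z (n 0 z (n 0 z (n 0 z (n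
 0 z (n 0 z (n 0 z (n 0 z (n 0 z (n 2 (n 0 z (n 2 (n 0 (n 8868707 z (n 8868707 z z)) (n 0 (n
 6428747 z (n 6428747 z z)) (n 0 z (n 0 z (n 0 (n 532 z (n 7753859 z z)) (n 0 z z)))))) (n 2 (n
 0 z (n 0 z (n 0 (n 7546891 z (n 532 z z)) (n 0 (n 2453 z (n 7 (n
 0x43d0eb0ea0070003668758740018000cf43a43a001c0001421d615000e0003b90e90a800300011285485400380013c43abaa000c000cb61d1d5000e0003270a8ea800300001875475400380004443ac39000c00019a1d21c80060003390e50e40030002588758520038000ee43a429001c0000121521480060007910e50a400300000e852852001800198c3aba9000c0009be1d1d480060002f90a8ea40070000057547520018000f2c393a9001c000eca149d48006000594ea4ea400700029d875842001800068c3a421000c0002b215210800e0002f50e5084007000012852842003800096c21421000c000a9a1d5d0800e0001c30e8e840030000048547420018000c3baa3a1000c00034a1c9d0800e0002170a4e840070000a57527420038000694213a1000c000275d09d0800e0000110eaa840030002b387454200380007242a2a1000c000375d5150800e0004110e4a840030000188525420038000333a92a1001c00005210950800600043ae84a8400300004c542542003800001c75400001d2e840000005d400000123a0000032354000008c28400002301080c81c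
 z (n
 0x4a432432000c00037219218800e0001bb0c50c40030000f8864842001800019c31421000c00004e10a10800e0000870c8c8400300012b862642001800037c21321001c0002059099080060000cb0c90c2003000039862861001800058c30c30801c00020619210400e0002ad0c50820070000d084284100180007dc30c20800c00012610610400e0000510c8c82003000049862641003800058c21320801c0006fd90990400e0002c90c2c820070001a484164100180005fb20b20800c0006221920840060000af0c5042003000043842821003800067c30c10801c00033e1060840060002150c8c420030000cf862621001800013c21310800c0003cd9098840060001230c2c420070000798416210038000a8b20b10801c00012e0858840060000eac42c420030000ce86442100380007bc31210801c00040d90908400e0002630c28420030000258414210038000b4b20a10800c00012e08508400e000216c42842007000095421421001800005001324054800002800992022c000032000c901a500006c00064808e80001b80042305b400029c0021181ba00004e00108c09500000a0028640a900000d001432045800004c00a19028400014e0010c81b500006300086404a8000258004320014f400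
 z (n
 0x6f3b2bb2800c000121d95d90006000180ec8ec800300005f7657540018000093b23aa000c0002d9d51d5000e00008eecaca800700001e7646540018000693aa32a001c00016195195000e000318ecaec40070001087647620038000663b13b1000c0001f9d95d48006000090ec8ea40070000ad75475200180002d3b13a9001c00004dd49d480060001c0ecaca400700004e764652001800089baa329000c0000e595194800600012cec4ca400300010275265200380001e329329000c0004d9d95d080060001c4ec8e8400300006e754742003800080bb13a1001c000001d49d08006000116e84e840030000b6765642003800072bb2321001c0005b5d5190800e00005cca8c840070000d97626420018000783a9321000c00002194990800e000268e84c8400700006e642642001800045bb2aa1001c00014dd915080060002dcea8a8400300004b65454200180001e3b12a1001c0002b1d4950800e000120ca4a840070000aa742542001800046b212a1000c0002ad50950800e000086000cae84d00002c00462706d0000068022930378d400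
 z z))) z)) (n 0 (n 7546891 z (n 532 z z)) (n 0 (n 532 z (n 532 z z)) z)))))) (n 1 z (n 2 (n 0
 (n 8868707 z (n 8868707 z z)) (n 0 (n 8787259 z (n 8787259 z z)) (n 0 (n 8787259 z (n 8787259 z
 z)) (n 0 z (n 0 z (n 0 z z)))))) (n 1 z (n 2 (n 0 (n 8868707 z (n 8868707 z z)) (n 0 (n 8721995
 z (n 7751707 z z)) (n 0 (n 7608427 z (n 7473243 z z)) (n 0 z (n 0 (n 7608427 z (n 7473243 z z))
 (n 0 z z)))))) (n 1 z z)))))))) (n 0 z (n 0 z (n 0 z (n 0 z (n 0 z (n 0 z (n 0 z (n 0 z (n 0 z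
 z)))))))))))))))))))))) (n 1245 (n 0 z (n 0 z (n 0 z (n 0 z (n 0 z (n 0 z (n 0 z (n 0 z (n 0 z
 (n 0 z (n
 0x12e62ec0a038b837d867e7f80828c75798576888a878f7c7c6f808380827f847885847e857c877a7e7e7f82738883787c84897b80887a7f0809
 z (n 0 z (n 0 z (n 0 z (n 0 z (n 0 z (n 0 z (n 0 z (n 0 z (n 0 z (n 0 z (n 0 z
 z)))))))))))))))))))))) (n 133 (n 0 z (n 0 z (n 0 z (n 0 z (n 0 z (n 0 z z)))))) (n 133 (n 0 z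
 (n 2 (n 0 z (n 0 z (n 1 z (n 2 (n 0 z (n 0 z (n 0 z (n 0 z (n 0 z (n 0 z z)))))) (n 2 (n 0 z (n
 0 z (n 0 z (n 0 (n 7 (n
 0x10ed0ec4070004688768752018000c443ac3a901c0000621da19480e0005290eb0ca40300002086586520380005343b3b2900c0009161d5d9480600027b0caeca4070005a076576520180016743b43a101c00037a1d61d080600033b0e90e84070000aa8768642038000b143ac32101c000e1219619080e00028d0e90c84070002fa864864201800031c3b3b2101c000a661d5d9080e0004e90caec840300077576576420380007743a3b2101c00030e191d9080e0003f6ec8ec840300056b8768542018000d143ac2a101c00224a1961508060001a70e90a84030005b786485420380012042a42a100c00059a1d9d5080e0002ed0eaea840300037b86575420380030dbb2baa100c0006821d1d508060001a10c8ea84070003cf7647542038000d642a3aa101c0008b5d51d508060006070ecca84070000e5875654201800310432b2a101c001311d9595080e0002070e8ca84070007448646542018002763b232a100c001e6615195080e0004beea8ca840700074c65465420180002d98750000a12eca0003641d94c80c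
 z (n
 0xf0cb0ca007000021865864001800006c32432000c00005a19615000600000f0c90a800300002d854854001800008c32b2a001c00002219195000e0000010a8ca8007000012654654001800011432c31001c00001e19218800e0000570c50c4003000018865852003800005432429001c00001215214800e00005d0c50a400700000e852852003800002432b29001c0000361919480060000610a8ca400700000565465200180001f431329000c000046149948006000052ca4ca400300002986584200180000cc32421000c00002e1521080060000030c508400700000d85284200380000ac21421000c0000121959080060000310c8c84007000010654642001800032429321001c000089949908006000037084c84003000030642642003800012432aa1000c0000421915080060000570a8a8400700000565454200380001dc312a1000c000042149508006000046ca4a8400300000f842542003800012b212a1001c0000815095080060000520010c852500000d00086422680000680029304940000180121941b40000360050ca15a0000060008650da8000118004328014dc00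
 z (n
 0x4a3b23b2000c000371d91d8800e0001baec4ec40030000f8764742001800019bb13a1000c00004dd09d0800e000086ec8c8400300012b762642001800037ba1321001c0002059099080060000caec8ec2003000039762761001800058bb0bb0801c000205d91d0400e0002acec4e820070000d074274100180007dbb0ba0800c000125d05d0400e000050ec8c82003000049762641003800058ba1320801c0006fd90990400e0002c8ec2c820070001a474164100180005fb20b20800c000621d91c840060000aeec4e42003000043742721003800067bb0b90801c00033dd05c84006000214ec8c420030000cf762621001800013ba1310800c0003cd909884006000122ec2c420070000797416210038000a8b20b10801c00012dc858840060000eac42c420030000ce76442100380007bbb1210801c00040d90908400e000262ec28420030000257414210038000b4b20a10800c00012dc8508400e000216c42842007000095421421001800005001323854800002800991c22c000032000c8e1a500006c00064708e80001b8003a305b400029c001d181ba00004e000e8c09500000a0027640a900000d0013b2045800004c009d9028400014e000ec81b500006300076404a8000258003b20014f400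
 z z))) (n 2021 z z)) (n 0 z (n 0 (n 404 z z) z)))))) z))))) (n 0 z (n 0 z (n 0 z (n 0 z z))))))
 (n 133 (n 0 z (n 0 z (n 0 z (n 0 z (n 0 z (n 0 z z)))))) (n 133 (n 0 z (n 0 z (n 0 z (n 0 z (n
 0 z (n 0 z z)))))) (n 101 (n 0 z (n 0 z (n 0 z (n 0 z (n 0 z (n 0 z (n 0 z (n 0 z (n 0 z (n 0 z
 (n 0 z (n 0 z (n 0 z (n 0 z z)))))))))))))) (n 101 (n 0 z (n 0 z (n 0 z (n 0 z (n 0 z (n 0 z (n
 0 z (n 0 z (n 0 z (n 0 z (n 0 z (n 0 z (n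
 0x8ec8ec840387837b87807f8580837976887c89787b91758075887f7f827e82807d807d877f80877a8180827a8380747f8b8f7580837d810809
 z (n 0 z z)))))))))))))) (n 101 (n 0 z (n 0 z (n 0 z (n 0 z (n 0 z (n 0 z (n 2 z (n 0 z (n 0 z
 (n 0 z (n 0 z (n 0 z (n 0 z (n 0 z z)))))))))))))) z)))))))))))) (n 0 (n 183 (n 0 z (n 0 z (n 0
 z (n 0 z (n 0 z (n 0 z (n 0 z (n 0 z (n 0 z (n 0 z (n 0 z (n 0 z (n 0 z (n 0 z (n 0 z (n 0 z (n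
 0 z (n 0 z (n 0 z (n 0 z (n 0 z (n 0 z (n 0 z (n 0 z (n 0 z z))))))))))))))))))))))))) (n 183
 (n 0 z (n 0 z (n 0 z (n 0 z (n 0 z (n 0 z (n 0 z (n 0 z (n 0 z (n 0 z (n 0 z (n 0 z (n 0 z (n 0
 z (n 0 z (n 0 z (n 0 z (n 0 z (n 0 z (n 0 z (n 0 z (n 2 (n 0 z (n 0 z (n 2 (n 0 z (n 0 z (n 0 z
 (n 0 z (n 0 z (n 0 z z)))))) (n 2 (n 0 z (n 0 z (n 0 z (n 0 z (n 0 z (n 0 z z)))))) (n 1 z (n 2
 (n 0 z (n 0 z (n 0 z (n 0 z (n 0 z (n 0 z z)))))) (n 1 z (n 2 (n 0 z (n 0 z (n 0 z (n 0 z (n 0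
 z (n 0 z z)))))) (n 1 z z))))))))) (n 0 z (n 0 z (n 0 z z))))))))))))))))))))))))) (n 183 (n 0
 z (n 0 z (n 0 z (n 0 z (n 0 z (n 0 z (n 0 z (n 0 z (n 0 z (n 0 z (n 0 z (n 0 z (n 0 z (n 0 z (n
 0 z (n 0 z (n 0 z (n 0 z (n 0 z (n 0 z (n 0 z (n 0 z (n 0 z (n 0 z (n 0 z
 z))))))))))))))))))))))))) (n 183 (n 0 z (n 0 z (n 0 z (n 0 z (n 0 z (n 0 z (n 0 z (n 0 z (n 0
 z (n 0 z (n 0 z (n 0 z (n 0 z (n 0 z (n 0 z (n 2 (n 2 (n 0 z (n 0 z (n 0 z (n 0 z (n 0 z (n 0 z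
 z)))))) (n 2 (n 0 z (n 0 z (n 0 z (n 0 z (n 0 z (n 0 z z)))))) (n 2 (n 0 z (n 0 z (n 0 z (n 0 z
 (n 0 z (n 0 z z)))))) (n 2 (n 0 z (n 0 z (n 0 z (n 0 z (n 0 z (n 0 z z)))))) (n 1 z (n 2 (n 0 z
 (n 0 z (n 0 z (n 0 z (n 0 z (n 0 z z)))))) (n 1 z z))))))) (n 0 z (n 0 z (n 0 z (n 0 z (n 0 z
 (n 0 z (n 0 z (n 0 z (n 0 z z))))))))))))))))))))))))) (n 41 (n 0 z (n 0 z (n 0 z (n 0 z (n 0 z
 (n 2 (n 0 z (n 0 z (n 0 z (n 2 (n 0 z (n 0 z (n 0 z (n 0 z (n 0 z (n 0 z z)))))) (n 2 (n 0 z (n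
 0 z (n 0 z (n 0 z (n 0 z (n 0 z z)))))) (n 2 (n 0 z (n 0 z (n 0 z (n 0 (n 116 z z) (n 0 z (n 0
 z z)))))) z)))))) z)))))) (n 41 (n 0 z (n 0 z (n 0 z (n 0 z (n 0 z (n 0 z z)))))) (n 41 (n 0 z
 (n 2 (n 0 z (n 1 z (n 2 (n 0 z (n 0 z (n 0 z (n 0 z (n 0 z (n 0 z z)))))) (n 1 z z)))) (n 0 z
 (n 0 z (n 0 z (n 0 z z)))))) (n 41 (n 0 z (n 0 z (n 2 (n 2 (n 0 z (n 0 z (n 0 z (n 0 z (n 0 z
 (n 0 z z)))))) (n 2 (n 0 z (n 0 z (n 0 z (n 0 z (n 0 z (n 0 z z)))))) (n 2 (n 0 z (n 0 z (n 0 z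
 (n 0 (n 116 z z) (n 0 z (n 0 z z)))))) z))) (n 0 z (n 0 z (n 0 z z)))))) (n 29 (n 0 z (n 0 z (n
 0 z (n 0 z (n 0 z (n 0 z (n 0 z (n 0 z z)))))))) (n 29 (n 0 z (n 0 z (n 0 z (n 0 z (n 0 z (n 0
 z (n 0 z (n 2 (n 0 z z) z)))))))) (n 29 (n 0 z (n 0 z (n 0 z (n 0 z (n 0 z (n 0 z (n 0 z (n 0 z
 z)))))))) z))))))))))) (n 0 (n 0 z (n 0 z (n 0 z (n 297 (n 0 z (n 0 z (n 0 z (n 0 z (n 0 z (n 0
 z (n 0 z (n 0 z (n 0 z (n 0 z (n 0 z (n 0 z (n 0 z (n 0 z (n 0 z (n 0 z (n 0 z (n 0 z (n 0 z (n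
 0 z (n 2 (n 0 z (n 0 z (n 0 z (n 2 (n 0 z (n 0 z (n 0 z (n 0 (n 3213419 z z) (n 0 z (n 0 z
 z)))))) (n 2 (n 0 z (n 0 z (n 0 z (n 0 z (n 0 z (n 0 z z)))))) (n 2 (n 0 z (n 0 z (n 0 z (n 0 z
 (n 0 z (n 0 z z)))))) z)))))) (n 0 z z)))))))))))))))))))))) (n 297 (n 0 z (n 0 z (n 0 z (n 0 z
 (n 0 z (n 0 z (n 0 z (n 0 z (n 0 z (n 0 z (n
 0x42ecaea62038f8b7a8b797f8488936e6e8c708a8e7c9c8080637a827b7c80857c9b846c957a867a7c7d75787190876e7d8b9b79829473800809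
 z (n 0 z (n 0 z (n 0 z (n 0 z (n 0 z (n 0 z (n 0 z (n 0 z (n 0 z (n 0 z (n 0 z
 z)))))))))))))))))))))) (n 297 (n 0 z (n 0 z (n 0 z (n 0 z (n 0 z (n 0 z (n 0 z (n 0 z (n 0 z
 (n 0 z (n 0 z (n 0 z (n 0 z (n 0 z (n 0 z (n 2 (n 0 z (n 1 z (n 2 (n 0 z (n 0 z (n 0 (n 102 z
 z) (n 0 (n 2212 z (n 8718123 z z)) (n 0 z (n 0 (n 2212 z z) z)))))) (n 1 z z)))) (n 0 z (n 0 z
 (n 0 z (n 0 z (n 0 z (n 0 z z)))))))))))))))))))))) (n 297 (n 0 z (n 0 z (n 0 z (n 0 z (n 0 z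
 (n 0 z (n 0 z (n 0 z (n 0 z (n 0 z (n 0 z (n 0 z (n 0 z (n 0 z (n 0 z (n 0 z (n 0 z (n 0 z (n 0
 z (n 0 z (n 0 z (n 2 (n 2 (n 0 z (n 0 z (n 0 z (n 0 (n 3213419 z z) (n 0 z (n 0 z z)))))) (n 2
 (n 0 z (n 0 z (n 0 z (n 0 z (n 0 z (n 0 z z)))))) (n 2 (n 0 z (n 0 z (n 0 z (n 0 z (n 0 z (n 0
 z z)))))) z))) z)))))))))))))))))))))) (n 553 (n 0 z (n 0 z (n 0 z (n 0 z (n 0 z (n 0 z (n 0 z
 (n 0 z (n 0 z (n 0 z (n 0 z z))))))))))) (n 553 (n 0 z (n 0 z (n 0 z (n 0 z (n 0 z (n 0 z (n 0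
 z (n 0 z (n 0 z (n 2 (n 0 z z) (n 0 z z))))))))))) (n 553 (n 0 z (n 0 z (n 0 z (n 0 z (n 0 z (n
 0 z (n 0 z (n 2 z (n 0 z (n 0 z (n 0 z z))))))))))) z)))))))))) (n 0 (n 0 z (n 0 z (n 21 (n 0 z
 (n 0 z (n 0 z (n 0 z (n 0 z (n 0 z (n 0 z z))))))) (n 21 (n 0 z (n 0 z (n 0 z (n 0 z (n 0 z (n
 0 z (n 0 z z))))))) (n 21 (n 0 z (n 0 z (n 0 z (n 0 z (n 0 z (n 0 z (n 0 z z))))))) (n 21 (n 0
 z (n 0 z (n 0 z (n 0 z (n 0 z (n 0 z (n 2 (n 2 (n 0 z (n 0 z (n 0 z (n 0 z (n 0 z (n 0 z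
 z)))))) (n 1 z (n 2 (n 0 z (n 0 z (n 0 z (n 0 z (n 0 z (n 0 z z)))))) z))) z))))))) (n 17 (n 0
 z (n 2 (n 0 z (n 0 z z)) (n 0 z (n 0 z (n 0 z (n 0 z z)))))) (n 17 (n 0 z (n 0 z (n 0 z (n 2 (n
 0 z z) (n 0 z (n 0 z z)))))) (n 17 (n 0 z (n 0 z (n 0 z (n 0 z (n 0 z (n 0 z z)))))) z)))))))))
 (n 0 (n 0 z (n 613 (n 0 z (n 0 z (n 0 z (n 0 z (n 0 z (n 0 z (n 0 z (n 0 z (n 0 z (n 0 z (n 0 z
 (n 0 z (n 0 z (n 0 z (n 0 z (n 0 z (n 0 z (n 0 z (n 0 z (n 0 z (n 0 z (n 0 z (n 0 z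
 z))))))))))))))))))))))) (n 613 (n 0 z (n 0 z (n 0 z (n 0 z (n 0 z (n 0 z (n 0 z (n 0 z (n 0 z
 (n 0 z (n 0 z (n 0 z (n 2 (n 0 z (n 0 z (n 2 (n 0 (n 68 z (n 68 z z)) (n 0 (n 68 z (n 7751771 z
 z)) (n 0 z (n 0 (n 6494219 z (n 8595211 z z)) (n 0 z (n 0 (n 68 z (n 8595211 z z)) z)))))) (n 2
 (n 0 z (n 0 z (n 0 z (n 0 z (n 0 z (n 0 z z)))))) (n 2 (n 0 (n 68 z (n 68 z z)) (n 0 z (n 0 z
 (n 0 (n 8595211 z (n 68 z z)) (n 0 (n 68 z (n 68 z z)) (n 0 (n 8595211 z (n 2021 z z)) z))))))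
 z))))) (n 0 z (n 0 z (n 0 z (n 0 z (n 0 z (n 0 z (n 0 z (n 0 z (n 0 z (n 0 z
 z))))))))))))))))))))))) (n 613 (n 0 z (n 0 z (n 2 (n 0 z (n 2 (n 0 z (n 0 (n 68 z (n 8718123 z
 z)) (n 0 (n 68 z (n 68 z z)) (n 0 z (n 0 (n 68 z (n 8718123 z z)) (n 0 z z)))))) (n 2 (n 0 z (n
 0 z (n 0 z (n 0 z (n 0 z (n 0 z z)))))) (n 2 (n 0 z (n 0 (n 8855811 z (n 8855811 z z)) (n 0 (n
 8855811 z (n 8855811 z z)) (n 0 z (n 0 (n 8855811 z (n 8855811 z z)) (n 0 z z)))))) z)))) (n 0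
 z (n 0 z (n 0 z (n 0 z (n 0 z (n 0 z (n 0 z (n 0 z (n 0 z (n 0 z (n 0 z (n 0 z (n 0 z (n 0 z (n
 0 z (n 0 z (n 0 z (n 0 z (n 0 z (n 0 z z))))))))))))))))))))))) (n 613 (n 0 z (n 0 z (n 0 z (n
 0 z (n 0 z (n 0 z (n 0 z (n 0 z (n 0 z (n 0 z (n 0 z (n 0 z (n 0 z (n 0 z (n 0 z (n 0 z (n 0 z
 (n 0 z (n 0 z (n 0 z (n 0 z (n 0 z (n 0 z z))))))))))))))))))))))) (n 17 (n 0 z (n 0 z (n 0 z
 (n 0 z (n 0 z (n 0 z (n 0 z (n 0 z (n 0 z (n 0 z (n 0 z (n 0 z (n 0 z z))))))))))))) (n 17 (n 0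
 z (n 0 z (n 0 z (n 0 z (n 0 z (n 0 z (n 0 z (n 0 z (n 0 z (n 0 z (n 0 z (n 0 z (n 0 z
 z))))))))))))) (n 17 (n 0 z (n 0 z (n 0 z (n 0 z (n 0 z (n 0 z (n 0 z (n 0 z (n 0 z (n 0 z (n
 0xaec6ec080794887c8e7f758076a56954a06fa27b80a4819d7ba5627485846c86929a80995d677e6889577154938e7e7499b57b8c8a6c7a0809
 z (n 0 z (n 0 z z))))))))))))) z)))))))) (n 0 (n 15 (n 0 z (n 0 z (n 0 z (n 0 z (n 0 z (n 0 z
 (n 0 z (n 0 z (n 0 z z))))))))) (n 15 (n 0 z (n 0 z (n 0 z (n 0 z (n 0 z (n 0 z (n 0 z (n 0 z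
 (n 0 z z))))))))) (n 15 (n 0 z (n 0 z (n 0 z (n 0 z (n 0 z (n 0 z (n 0 z (n 0 z (n 0 z
 z))))))))) (n 15 (n 0 z (n 0 z (n 0 z (n 0 z (n 0 z (n 0 z (n 0 z (n 2 (n 2 (n 0 z (n 0 z (n 0
 z (n 0 z (n 0 z (n 0 z z)))))) (n 1 z (n 2 (n 0 z (n 0 z (n 0 z (n 0 z (n 0 z (n 0 z z))))))
 z))) (n 0 z z))))))))) (n 17 (n 0 z (n 2 (n 0 z (n 0 z z)) (n 0 z (n 0 z (n 0 z (n 0 z (n 0 z
 z))))))) (n 17 (n 0 z (n 0 z (n 0 z (n 0 z (n 0 z (n 0 z (n 0 z z))))))) (n 17 (n 0 z (n 0 z (n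
 0 z (n 2 z (n 0 z (n 0 z (n 0 z z))))))) z))))))) (n 0 (n 0 z (n 0 z (n 0 z (n 1 (n 0 z (n 0 z
 (n 2 (n 0 z (n 0 z z)) (n 0 z (n 0 z (n 0 z (n 0 z (n 0 z (n 0 z (n 0 z (n 0 z (n 0 z
 z)))))))))))) (n 1 (n 0 z (n 0 z (n 0 z (n 0 z (n 0 z (n 0 z (n 0 z (n 0 z (n 0 z (n 0 z (n 0 z
 (n 0 z z)))))))))))) (n 1 (n 0 z (n 0 z (n 0 z (n 2 z (n 0 z (n 0 z (n 0 z (n 0 z (n 0 z (n 0 z
 (n 0 z (n 0 z z)))))))))))) z)))))) (n 0 (n 0 z (n 0 z (n 505 (n 0 z (n 0 z (n 0 z (n 0 z (n 0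
 z (n 0 z (n 0 z (n 0 z (n 0 z (n 0 z (n 0 z (n 0 z (n 0 z (n 0 z (n 0 z (n 0 z (n 0 z (n 0 z (n
 0 z (n 0 z (n 0 z (n 0 z z)))))))))))))))))))))) (n 505 (n 0 z (n 0 z (n 0 z (n 0 z (n 0 z (n 0
 z (n 0 z (n 0 z (n 0 z (n 0 z (n 0 z (n 0 z (n 0 z (n 0 z (n 0 z (n 0 z (n 0 z (n 0 z (n 0 z (n
 0 z (n 0 z (n 0 z z)))))))))))))))))))))) (n 505 (n 0 z (n 0 z (n 0 z (n 0 z (n 0 z (n 0 z (n 0
 z (n 0 z (n 0 z (n 0 z (n 0 z (n 0 z (n 2 z (n 0 z (n 0 z (n 0 z (n 0 z (n 0 z (n 0 z (n 0 z (n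
 0 z (n 0 z z)))))))))))))))))))))) z))))) (n 0 (n 0 z (n 157 (n 0 z (n 2 (n 0 z (n 0 z z)) (n 0
 z (n 0 z (n 0 z (n 0 z (n 0 z (n 0 z (n 0 z (n 0 z (n 0 z (n 0 z (n 0 z (n 0 z (n 0 z (n 0 z (n
 0 z (n 0 z (n 0 z (n 0 z (n 0 z (n 0 z (n 0 z (n 0 z (n 0 z z))))))))))))))))))))))))) (n 157
 (n 0 z (n 0 z (n 0 z (n 0 z (n 0 z (n 0 z (n 0 z (n 0 z (n 0 z (n 0 z (n 0 z (n 0 z (n 0 z (n 0
 z (n 0 z (n 0 z (n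
 0x6ec6ec6407857d80837f7e7f8183827a8b7983817c84817f83877b7c82807c8287828388797d8080807a847884807d7b8185827f827f7e0809
 z (n
 0x1eec6ec64078b7281937c7378878e89778e7b7f8183818183867b7379808084868f80a3997d808d897e737779857f7274738a837f886d830809
 z (n 0 z (n 0 z (n 0 z (n 0 z (n 0 z (n 0 z (n 0 z z))))))))))))))))))))))))) (n 157 (n 0 z (n
 0 z (n 0 z (n 0 z (n 0 z (n 0 z (n 0 z (n 0 z (n 0 z (n 0 z (n 0 z (n 0 z (n 0 z (n 0 z (n 0 z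
 (n 0 z (n 0 z (n 0 z (n 0 z (n 0 z (n 0 z (n 0 z (n 0 z (n 0 z (n 0 z
 z))))))))))))))))))))))))) z)))) (n 0 (n 1 (n 0 z (n 0 z (n 0 z (n 0 z (n 0 z (n 2 (n 0 z (n 0
 z z)) (n 0 z (n 0 z (n 0 z z))))))))) (n 1 (n 0 z (n 0 z (n 2 (n 0 z z) (n 0 z (n 0 z (n 0 z (n
 0 z (n 0 z (n 0 z z))))))))) (n 1 (n 2 z (n 0 z (n 0 z (n 0 z (n 0 z (n 0 z (n 0 z (n 0 z (n 0
 z z))))))))) z))) (n 0 (n 0 z (n 0 z z)) (n 0 (n 0 z z) (n 0 z z))))))))))))) (n 0 (n 0 z (n 1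
 (n 6627635 z (n 6627635 z (n 6631955 z (n 6627635 z (n 6627635 z (n 6627635 z z)))))) (n 0 z (n
 0 z z)))) (n 0 z z)))) (n
 0x5b1da1d95d0e24ed0ac7208938c2ae42144e581cae30936e88ebd98b13b43a9561451c09a (n 0 (n 179 (n 0 z
 (n 0 z (n 0 z (n 6496275 z (n 0 z (n 0 z (n 0 z (n 0 z z)))))))) (n 33 (n 6496515 z (n 0 z (n 0
 z (n 0 z (n 0 z z))))) (n 173 (n 0 z (n 6496515 z (n 0 z (n 0 z (n 0 z (n 0 z (n 6496275 z (n 2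
 z (n 0 z (n 0 z (n 0 z (n 6496515 z (n 0 z (n 0 z (n 0 z (n 0 z (n 10 z (n 0 z (n 18 z (n 0 z
 (n 0 z (n 0 z (n 0 z (n
 0x4b21805630807e807e7a8381867c8280828083887e7e808182837c7c8480777d84827d827e82838382827d7d80837f807e81797f83817e0089
 z (n 0 z (n 0 z (n 0 z (n 26 z z)))))))))))))))))))))))))))) (n 243 (n 34 z (n 42 z (n 6496515
 z (n 0 z (n 50 z (n 0 z z)))))) (n 127 (n 58 z (n 66 z (n 74 z (n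
 0x1cb1880d4218179807f6f89848d72877e8382877f8882808788837078857b757c84827c7d897b9077878d758085897b7d837e797e8b837a0089
 z (n 82 z (n 2164299 z (n
 0x586538380808681827b7f817c7a8086807b877c80769076877e757f868c747285846a7f887d9179877a888d71877971857386847e0049
 z (n 0 z z)))))))) (n 0 (n 6623755 z (n
 0x6a1083963081797f7f6e88858d72877e8482877f8883808788837079857b757c83827b7d8a7b9077878e748086887b7e8380797e8b847a0089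
 z (n 90 z (n 98 z (n 0 z (n
 0x14b1880d421817a807f7287838b75857f8381857f868380868682747a847b777d82817d7d877c8c79858a778084887c7f82807a7e88837b0089
 z (n 106 z (n 0 z (n 0 z (n 6623755 z z)))))))))) z)))))) (n 33 (n 0 (n 0 z (n 0 z (n 0 z (n
 251 (n 0 z (n 0 z (n 0 z (n 2 (n 0 z (n 0 z (n 2 (n 0 z (n 0 z (n 0 z (n 0 z (n 0 z (n 0 z
 z)))))) (n 2 (n 0 z (n 0 z (n 0 z (n 0 z (n 0 z (n 0 z z)))))) (n 2 (n 0 z (n 0 z (n 0 z (n 0 z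
 (n 0 z (n 0 z z)))))) (n 2 (n 0 z (n 0 z (n 0 z (n 0 z (n 0 z (n 0 z z)))))) (n 2 (n 0 z (n 0 z
 (n 0 z (n 0 z (n 0 z (n 0 z z)))))) (n 1 z (n 1 z z))))))))) (n 0 z z))))) (n 251 (n 0 z (n 0 z
 (n 0 z (n 0 z (n 0 z z))))) (n 251 (n 0 z (n 2 (n 2 (n 0 z (n 0 z (n 0 z (n 0 z (n 0 z (n 0 z
 z)))))) (n 2 (n 0 z (n 0 z (n 0 z (n 0 z (n 0 z (n 0 z z)))))) (n 2 (n 0 z (n 0 z (n 0 z (n 0 z
 (n 0 z (n 0 z z)))))) (n 2 (n 0 z (n 0 z (n 0 z (n 0 z (n 0 z (n 0 z z)))))) (n 2 (n 0 z (n 0 z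
 (n 0 z (n 0 z (n 0 z (n 0 z z)))))) (n 2 (n 0 z (n 0 z (n 0 z (n 0 z (n 0 z (n 0 z z)))))) (n 1
 z z))))))) (n 0 z (n 0 z (n 0 z z))))) (n 255 (n 0 z (n 0 z (n 2 (n 0 z (n 0 z (n 0 z (n 1 z (n
 2 (n 0 z (n 0 z (n 0 z (n 0 z (n 0 z (n 0 z z)))))) (n 2 (n 0 z (n 0 z (n 0 z (n 0 z (n 0 z (n
 0 z z)))))) z)))))) (n 0 z (n 0 z (n 0 z (n 0 z (n 0 z (n 0 z (n 0 z (n 0 z (n 0 z (n 0 z (n 0
 z (n 0 z (n 0 z (n 0 z (n 0 z (n 0 z (n 0 z (n 0 z (n 0 z (n 0 z (n 0 z (n 0 z (n 0 z (n 0 z (n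
 0 z (n 0 z (n 0 z (n 0 z (n 0 z (n 0 z (n 0 z (n 0 z (n 0 z
 z)))))))))))))))))))))))))))))))))))) (n 255 (n 0 z (n 0 z (n 0 z (n 0 z (n 0 z (n 0 z (n 0 z
 (n 0 z (n 0 z (n 0 z (n 0 z (n 0 z (n 0 z (n 0 z (n
 0x8876184807f8481817e7f827d78808a8f878779807ea6797c6d7a807b887d727e83567b8d80a7778671919e6e867e70706490817a0049
 z (n 0 z (n 0 z (n 0 z (n 0 z (n 0 z (n 0 z (n 0 z (n 0 z (n 0 z (n 0 z (n 0 z (n 0 z (n 0 z (n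
 0 z (n 0 z (n 0 z (n 0 z (n 0 z (n 0 z (n 0 z (n 0 z z)))))))))))))))))))))))))))))))))))) (n
 255 (n 0 z (n 0 z (n 0 z (n 0 z (n 0 z (n 0 z (n 0 z (n 0 z (n 0 z (n 0 z (n 0 z (n 0 z (n 0 z
 (n 0 z (n 0 z (n 0 z (n 0 z (n 0 z (n 0 z (n 0 z (n 0 z (n 0 z (n 0 z (n 0 z (n 0 z (n 0 z (n 0
 z (n 0 z (n 0 z (n 0 z (n 0 z (n 0 z (n 0 z (n 0 z (n 0 z (n 0 z
 z)))))))))))))))))))))))))))))))))))) (n 255 (n 0 z (n 0 z (n 0 z (n 0 z (n 0 z (n 0 z (n 0 z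
 (n 0 z (n 0 z (n 0 z (n 0 z (n 0 z (n 0 z (n 0 z (n 0 z (n 0 z (n 0 z (n 0 z (n 0 z (n 0 z (n 0
 z (n 0 z (n 0 z (n 0 z (n 0 z (n 0 z (n 0 z (n 0 z (n 0 z (n 0 z (n 0 z (n 0 z (n 0 z (n 0 z (n
 0 z (n 0 z z)))))))))))))))))))))))))))))))))))) (n 253 (n 0 z (n 0 z (n 0 z (n 0 z (n 0 z (n 0
 z (n 0 z (n 0 z (n 0 z (n 0 z (n 0 z (n 0 z (n 0 z (n 0 z (n 0 z (n 0 z (n 0 z (n 0 z (n 0 z (n
 0 z (n 0 z (n 0 z (n 0 z (n 0 z (n 0 z (n 0 z (n 0 z (n 0 z (n 0 z (n 0 z (n 0 z (n 0 z (n 0 z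
 (n 0 z (n 0 z z))))))))))))))))))))))))))))))))))) (n 253 (n 0 z (n 0 z (n 0 z (n 0 z (n 0 z (n
 0 z (n 0 z (n 0 z (n 0 z (n 0 z (n
 0x3b23b2181c01d91d9000e02ca8ca80038080807f8180817f817f7f81808080807f8080808080808080808080818080808080807f80808080808080808080808080801809
 z (n 0 z (n 0 z (n 0 z (n 0 z (n 0 z (n 0 z (n 0 z (n 0 z (n 0 z (n 0 z (n 0 z (n 0 z (n 0 z (n
 0 z (n 0 z (n 0 z (n 0 z (n 0 z (n 0 z (n 0 z (n 0 z (n 0 z (n 0 z (n 0 z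
 z))))))))))))))))))))))))))))))))))) (n 253 (n 0 z (n 0 z (n 0 z (n 0 z (n 0 z (n 0 z (n 0 z (n
 0 z (n 0 z (n 0 z (n 0 z (n 0 z (n 0 z (n 0 z (n 2 z (n 0 z (n 0 z (n 0 z (n 0 z (n 0 z (n 0 z
 (n 0 z (n 0 z (n 0 z (n 0 z (n 0 z (n 0 z (n 0 z (n 0 z (n 0 z (n 0 z (n 0 z (n 0 z (n 0 z (n 0
 z z))))))))))))))))))))))))))))))))))) z))))))))))))) (n 0 (n 0 z (n 0 z (n 251 (n 0 z (n 0 z
 (n 2 (n 0 z (n 0 z (n 2 (n 0 z (n 0 z (n 0 z (n 0 z (n 0 z (n 0 z z)))))) (n 2 (n 0 z (n 0 z (n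
 0 z (n 0 z (n 0 z (n 0 z z)))))) (n 2 (n 0 z (n 0 z (n 0 z (n 0 z (n 0 z (n 0 z z)))))) (n 2 (n
 0 z (n 0 z (n 0 z (n 0 z (n 0 z (n 0 z z)))))) (n 2 (n 0 z (n 0 z (n 0 z (n 0 z (n 0 z (n 0 z
 z)))))) (n 2 (n 0 z (n 0 z (n 0 z (n 0 z (n 0 z (n 0 (n 1941 z z) z)))))) (n 1 z z))))))))) (n
 0 z (n 0 z (n 0 z (n 0 z (n 0 z z)))))))) (n 251 (n 0 z (n 2 (n 0 z (n 2 (n 0 z (n 0 z (n 0 z
 (n 0 z (n 0 z (n 0 (n 1356 z z) z)))))) (n 2 (n 0 z (n 0 z (n 0 z (n 0 z (n 0 z (n 0 z z))))))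
 (n 2 (n 0 z (n 0 z (n 0 z (n 0 z (n 0 z (n 0 z z)))))) (n 2 (n 0 z (n 0 z (n 0 z (n 0 z (n 0 z
 (n 0 z z)))))) (n 2 (n 0 z (n 0 z (n 0 z (n 0 z (n 0 z (n 0 (n 8864547 z z) z)))))) (n 2 (n 0 z
 (n 0 z (n 0 z (n 0 z (n 0 z (n 0 z z)))))) (n 2 (n 0 z (n 0 z (n 0 z (n 0 z (n 0 z (n 0 z
 z)))))) z)))))))) (n 0 z (n 0 z (n 0 z (n 0 z (n 0 z (n 0 z z)))))))) (n 251 (n 0 z (n 0 z (n 0
 z (n 0 z (n 0 z (n 0 z (n 0 z (n 0 z z)))))))) (n 339 (n 2 (n 0 z (n 0 z (n 0 z (n 1 z (n 2 (n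
 0 z (n 0 z (n 0 z (n 0 z (n 0 z (n 0 z z)))))) (n 2 (n 0 z (n 0 z (n 0 z (n 0 z (n 0 z (n 0 z
 z)))))) z)))))) (n 0 z (n 0 z (n 0 z (n 0 z (n 0 z (n 0 z (n 0 z (n 0 z (n 0 z (n 0 z (n 0 z (n
 0 z z))))))))))))) (n 339 (n 0 z (n 0 z (n 0 z (n 0 z (n 0 z (n 0 z (n 0 z (n 0 z (n 0 z (n 0 z
 (n 0 z (n 0 z (n 0 z z))))))))))))) (n 339 (n 0 z (n 0 z (n 0 z (n 0 z (n 0 z (n 0 z (n 0 z (n
 0 z (n 0 z (n 0 z (n 0 z (n 0 z (n 0 z z))))))))))))) (n 339 (n 0 z (n 0 z (n 0 z (n 0 z (n 0 z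
 (n 0 z (n
 0x387638280808281807f7f817e7c80848683837d807f8f7c7e787e817e837f7b7f816f7e8580907c827a878c79827f787a7486817d0049
 z (n 0 z (n 0 z (n 0 z (n 0 z (n 0 z (n 0 z z))))))))))))) (n 337 (n 0 z (n 0 z (n 0 z (n 0 z
 (n 0 z (n 0 z (n 0 z (n 0 z (n 0 z z))))))))) (n 337 (n 0 z (n 0 z (n 2 (n 0 z z) (n 0 z (n 0 z
 (n 0 z (n 0 z (n 0 z (n 0 z z))))))))) (n 337 (n 0 z (n 0 z (n 0 z (n 2 z (n 0 z (n 0 z (n 0 z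
 (n 0 z (n 0 z z))))))))) z)))))))))))) (n 0 (n 0 z (n 27 (n 0 z (n 0 z (n 0 z (n 0 z (n 0 z (n
 0 z (n 0 z (n 0 z z)))))))) (n 27 (n 0 z (n 0 z (n 0 z (n 2 (n 0 z (n 2 (n 0 z (n 0 z (n 0 z (n
 0 z (n 0 z (n 0 z z)))))) (n 2 (n 0 z (n 0 z (n 0 z (n 0 z (n 0 z (n 0 (n 1022 z z) z)))))) (n
 2 (n 0 z (n 0 z (n 0 z (n 0 z (n 0 z (n 0 z z)))))) (n 2 (n 0 z (n 0 z (n 0 z (n 0 z (n 0 z (n
 0 (n 1022 z z) z)))))) (n 2 (n 0 z (n 0 z (n 0 z (n 0 z (n 0 z (n 0 z z)))))) (n 1 z (n 1 z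
 z)))))))) (n 0 z (n 0 z (n 0 z (n 0 z z)))))))) (n 27 (n 0 z (n 0 z (n 0 z (n 0 z (n 0 z (n 0 z
 (n 2 (n 2 (n 0 z (n 0 z (n 0 z (n 0 z (n 0 z (n 0 (n 1380 z z) z)))))) (n 1 z (n 2 (n 0 z (n 0
 z (n 0 z (n 0 z (n 0 z (n 0 z z)))))) (n 1 z (n 2 (n 0 z (n 0 z (n 0 z (n 0 z (n 0 z (n 0 (n 68
 z z) z)))))) (n 1 z (n 1 z z))))))) (n 0 z z)))))))) (n 345 (n 0 z (n 0 z (n 0 z (n 0 z (n 2 (n
 0 z (n 0 z (n 0 z (n 2 (n 0 z (n 0 z (n 0 z (n 0 z (n 0 z (n 0 z z)))))) (n 2 (n 0 z (n 0 z (n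
 0 z (n 0 z (n 0 z (n 0 (n 8848155 z z) z)))))) (n 1 z z)))))) (n 0 z (n 0 z (n 0 z (n 0 z (n 0
 z (n 0 z (n 0 z (n 0 z (n 0 z (n 0 z (n 0 z (n 0 z z))))))))))))))))) (n 345 (n 0 z (n 0 z (n 0
 z (n 0 z (n 0 z (n 0 z (n 0 z (n 0 z (n 0 z (n 0 z (n 0 z (n 0 z (n
 0x5951950c0602ecaeca0078080807f8180817f817f8080808080808080808080808080808080808180807f8080807f80808080808080808080808080801009
 z (n 0 z (n 0 z (n 0 z (n 0 z z))))))))))))))))) (n 345 (n 0 z (n 0 z (n 2 (n 0 z (n 2 (n 0 z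
 (n 0 z (n 0 z (n 0 z (n 0 z (n 0 z z)))))) (n 2 (n 0 z (n 0 z (n 0 z (n 0 z (n 0 z (n 0 (n 68 z
 z) z)))))) (n 1 z z)))) (n 0 z (n 0 z (n 0 z (n 0 z (n 0 z (n 0 z (n 0 z (n 0 z (n 0 z (n 0 z
 (n 0 z (n 0 z (n 0 z (n 0 z z))))))))))))))))) (n 345 (n 0 z (n 0 z (n 0 z (n 0 z (n 0 z (n 0 z
 (n 0 z (n 0 z (n 0 z (n 0 z (n 0 z (n 0 z (n 0 z (n 0 z (n 0 z (n 0 z (n 2 (n 2 (n 0 (n 53 z z)
 (n 0 (n 68 z z) (n 0 z (n 0 z (n 0 z (n 0 (n 68 z (n 8730411 z z)) z)))))) (n 1 z (n 1 z z)))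
 z))))))))))))))))) (n 17 (n 2 (n 0 z (n 0 z z)) (n 0 z (n 0 z (n 0 z (n 0 z (n 0 z (n 0 z (n 0
 z (n 0 z (n 0 z (n 0 z (n 0 z (n 0 z (n 0 z (n 0 z (n 0 z (n 0 z (n 0 z (n 0 z (n 0 z (n 0 z (n
 0 z z)))))))))))))))))))))) (n 17 (n 0 z (n 0 z (n 0 z (n 0 z (n 0 z (n 0 z (n 0 z (n 0 z (n 0
 z (n 0 z (n 0 z (n 0 z (n 0 z (n 0 z (n 0 z (n 0 z (n 0 z (n 0 z (n 0 z (n 0 z (n 0 z (n 0 z
 z)))))))))))))))))))))) (n 17 (n 0 z (n 0 z (n 0 z (n 0 z (n 0 z (n 0 z (n 0 z (n 0 z (n 0 z (n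
 0 z (n 0 z (n 0 z (n 0 z (n 0 z (n 0 z (n 0 z (n 0 z (n 0 z (n 0 z (n 0 z (n 0 z (n 0 z
 z)))))))))))))))))))))) z))))))))))) (n 0 (n 27 (n 0 z (n 0 z (n 0 z (n 0 z (n 0 z (n 0 z (n 0
 z (n 0 z (n 0 z (n 0 z (n 0 z (n 0 z (n 0 z (n 0 z (n 0 z z))))))))))))))) (n 27 (n 0 z (n 0 z
 (n 0 z (n 0 z (n 0 z (n 0 z (n 0 z (n 0 z (n 0 z (n 0 z (n 0 z (n 0 z (n 0 z (n 0 z (n 0 z
 z))))))))))))))) (n 27 (n 0 z (n 0 z (n 0 z (n 0 z (n 0 z (n 0 z (n 0 z (n 0 z (n 0 z (n 0 z (n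
 0 z (n 0 z (n 0 z (n 0 z (n 0 z z))))))))))))))) (n 723 (n 0 z (n 0 z (n 0 z (n 0 z (n 0 z (n 0
 z (n 0 z (n 0 z (n 0 z (n 0 z (n 0 z (n 0 z (n 0 z (n 0 z (n 0 z (n 0 z (n 0 z (n 0 z (n 0 z (n
 0 z (n 0 z (n 0 z (n 0 z (n 0 z (n 0 z (n 0 z (n 0 z (n 0 z z)))))))))))))))))))))))))))) (n
 723 (n 0 z (n 0 z (n 0 z (n 0 z (n 0 z (n 0 z (n 0 z (n 2 (n 0 z (n 0 z (n 2 (n 0 z (n 0 z (n 0
 z (n 0 z (n 0 z (n 0 z z)))))) (n 2 (n 0 z (n 0 (n 68 z (n 68 z z)) (n 0 (n 68 z (n 68 z z)) (n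
 0 z (n 0 (n 1013 z (n 7 (n
 0xc3ac3a800c00000e1d61d000e0000070e90e800300000387585400180000343a42a001c0000121521500060000090eaea8007000003874754001800001c2a3aa001c000009d51d500060000010eb0e200700000087487100180000043ac28800c0000021d21440060000010a30a200300000087484100180000042a420800c0000021461040060000010830820030000008747410018000003aa3a0800c000002145d0400e000001082e8200300000174174100180000043aaa0800c000002151504006000002ea8a820070000008715410018000008003ac2018000008001d6130a000002000eb08050000030008574b680000000042ba51400000c00215d00a0000060010ea9b500000100087549280000200043aa01400000400214424a0000000010a210500000300074106e8000010003a08314a400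
 z (n
 0x13c32c32900c0003d619619080e0001e90c90c840300003286585420180004f43242a101c0000021521508060000490caca84070000e186465420180002d42a32a101c00010d9519508060001330cb0c640700005c86486320180008cc31c31900c0001ae19614c80600016f0c90a64070000ac85485320180005dc31c29901c0000de14e14c80e00006d0caca640700001286465320380001742a329900c00001d95194c80e0002330c6ca6403000096853653203800006b29b29900c00000a19610c80600004f0c90864030000cd85484320380002d431c21901c0003ca14e10c8060000e108708640700002186564320180000bc32321900c0000e215190c80e000254ca8c8640700007886364320180000d429b21901c0005b194d90c806000217086c864070000e7643643203800006432aa1901c0000ea19150c8060001bf0a8a864030000ad65454320180000ec31aa1901c0004be14d50c80e0000eaca6a8640700018c843543201800084b21aa1900c00043150d50c80e0000aa000c906950000390046582b700000800242995a8d400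
 z (n
 0x5caecaeca40300013d7657642038000c93b23b2101c0002f5d95d508060001ceec8ea84030001ed754754201800052bb2b2a100c000ae5d919508060000c0ea8ca84070000006546542038000803b2bb1900c000e51d91d8c8060004f4ec6ec6407000202765753203800167bb23a9901c0006b1d51d4c8060002b0ec6ea64030000ac7537532038001823b2b29901c00019dd9194c80600003eea8ca64030000bb6546532038001013b1b29900c000401d4d94c80e00002cca6ca64030001f07657432018001e8bb23a1901c000439d51d0c80600022cec6e864030002b37537432018000f3ba1ba1901c00055dd9590c806000a0cec8c864030002d37546432038000c5b2a321900c000f1dd8d90c80e000374ea6c8640300025e65364320380016cba1b21900c0002a990d90c80e000102ecaa8640300049d7645432038001e2baa2a1900c0000f595150c80e000410ec6a86403000263753543203800045b29aa1900c0002e9d0d50c80e000122c86a8640700006454354320180002c26420001a68a8400013a9508c80c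
 z z))) z)) (n 0 (n 6490187 z (n 6490187 z z)) z)))))) (n 2 (n 0 z (n 0 (n 7407707 z (n 68 z z))
 (n 0 (n 7751739 z (n 68 z z)) (n 0 (n 68 z (n 68 z z)) (n 0 z (n 0 (n 6359131 z (n 6359131 z
 z)) z)))))) z))))) (n 0 z (n 0 z (n 0 z (n 0 z (n 0 z (n 0 z (n 0 z (n 0 z (n 0 z (n 0 z (n 0 z
 (n 0 z (n 0 z (n 0 z (n 0 z (n 0 z (n 0 z (n 0 z (n 0 z (n 0 z z)))))))))))))))))))))))))))) (n
 723 (n 0 z (n 0 z (n 0 z (n 0 z (n 0 z (n 0 z (n 0 z (n 0 z (n 0 z (n 0 z (n 0 z (n 0 z (n 0 z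
 (n 0 z (n 0 z (n 0 z (n 0 z (n 0 z (n 0 z (n 0 z (n 0 z (n 0 z (n 0 z (n 0 z (n 0 z (n 0 z (n 0
 z (n 0 z z)))))))))))))))))))))))))))) (n 723 (n 0 z (n 0 z (n 0 z (n 0 z (n 0 z (n 0 z (n 0 z
 (n 0 z (n 0 z (n 0 z (n 0 z (n 0 z (n 0 z (n 0 z (n 0 z (n 0 z (n 2 (n 2 (n 0 z (n 0 z (n 0 z
 (n 0 z (n 0 z (n 0 z z)))))) (n 2 (n 0 (n 68 z (n 8456011 z z)) (n 0 z (n 0 (n 68 z (n 8730411
 z z)) (n 0 (n 7751691 z (n 8730411 z z)) (n 0 z (n 0 z z)))))) (n 1 z z))) (n 0 z (n 0 z (n 0 z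
 (n 0 z (n 0 z (n 0 z (n 0 z (n 0 z (n 0 z (n 0 z (n 0 z z)))))))))))))))))))))))))))) (n 17 (n
 0 z (n 0 z (n 0 z (n 0 z (n 0 z (n 0 z (n 0 z (n 0 z (n 0 z (n 0 z (n 0 z (n 0 z (n 0 z (n 0 z
 (n 0 z (n 0 z (n 0 z (n 0 z (n 0 z (n 0 z (n 0 z (n 0 z (n 0 z (n 0 z (n 0 z (n 0 z (n 0 z (n 0
 z z)))))))))))))))))))))))))))) (n 17 (n 0 z (n 0 z (n 0 z (n 0 z (n 0 z (n 0 z (n 0 z (n 0 z
 (n 0 z (n 0 z (n 0 z (n 0 z (n 0 z (n 0 z (n 0 z (n 0 z (n 0 z (n 0 z (n 2 (n 0 z z) (n 0 z (n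
 0 z (n 0 z (n 0 z (n 0 z (n 0 z (n 0 z (n 0 z (n 0 z z)))))))))))))))))))))))))))) (n 17 (n 0 z
 (n 0 z (n 0 z (n 0 z (n 0 z (n 0 z (n 0 z (n 0 z (n 0 z (n 0 z (n 0 z (n 0 z (n 0 z (n 0 z (n 0
 z (n 0 z (n 0 z (n 0 z (n 0 z (n 0 z (n 0 z (n 0 z (n 0 z (n 0 z (n 0 z (n 0 z (n 0 z (n 0 z
 z)))))))))))))))))))))))))))) z)))))))))) (n 0 (n 0 z (n 0 z (n 291 (n 0 z (n 0 z (n 2 (n 0 z
 (n 0 z (n 0 z (n 2 (n 0 z (n 0 z (n 0 z (n 0 z (n 0 z (n 0 z z)))))) (n 2 (n 0 z (n 0 z (n 0 z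
 (n 0 z (n 0 z (n 0 z z)))))) (n 2 (n 0 z (n 0 z (n 0 z (n 0 z (n 0 z (n 0 z z)))))) z)))))) (n
 0 z (n 0 z (n 0 z (n 0 z (n 0 z (n 0 z (n 0 z (n 0 z (n 0 z (n 0 z (n 0 z (n 0 z (n 0 z (n 0 z
 z))))))))))))))))) (n 291 (n 0 z (n 0 z (n 0 z (n 0 z (n 0 z (n 0 z (n 0 z (n 0 z (n 0 z (n 0 z
 (n 0 z (n 0 z (n 0 z (n 0 z (n 0 z (n 0 z (n 0 z z))))))))))))))))) (n 291 (n 0 z (n 0 z (n 0 z
 (n 0 z (n 2 (n 0 z (n 2 (n 0 z (n 0 z (n 0 z (n 0 z (n 0 z (n 0 z z)))))) (n 2 (n 0 z (n 0 z (n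
 0 z (n 0 z (n 0 z (n 0 z z)))))) (n 2 (n 0 z (n 0 z (n 0 z (n 0 z (n 0 z (n 0 z z)))))) z))))
 (n 0 z (n 0 z (n 0 z (n 0 z (n 0 z (n 0 z (n 0 z (n 0 z (n 0 z (n 0 z (n 0 z (n 0 z
 z))))))))))))))))) (n 291 (n 0 z (n 0 z (n 0 z (n 0 z (n 0 z (n 0 z (n 0 z (n 0 z (n 0 z (n 2
 (n 2 (n 0 z (n 0 z (n 0 z (n 0 z (n 0 z (n 0 z z)))))) (n 1 z (n 1 z z))) (n 0 z (n 0 z (n 0 z
 (n 0 z (n 0 z (n 0 z (n 0 z z))))))))))))))))) (n 485 (n 2 (n 0 z (n 0 z z)) (n 0 z (n 0 z (n 0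
 z (n 0 z (n 0 z (n 0 z (n 0 z (n 0 z z))))))))) (n 485 (n 0 z (n 0 z (n 0 z (n 0 z (n 0 z (n 0
 z (n 0 z (n 0 z (n 0 z z))))))))) (n 485 (n 0 z (n 0 z (n 0 z (n 0 z (n 0 z (n 0 z (n 0 z (n 0
 z (n 0 z z))))))))) z))))))))) (n 0 (n 0 z (n 291 (n 0 z (n 2 (n 0 z (n 0 z (n 0 z (n 1 z (n 2
 (n 0 z (n 0 z (n 0 z (n 0 z (n 0 z (n 0 z z)))))) (n 2 (n 0 z (n 0 z (n 0 z (n 0 z (n 0 z (n 0
 z z)))))) z)))))) (n 0 z (n 0 z (n 0 z (n 0 z (n 0 z (n 0 z (n 0 z (n 0 z (n 0 z (n 0 z (n 0 z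
 z))))))))))))) (n 291 (n 0 z (n 0 z (n 0 z (n 0 z (n
 0x8876184807f8481817e7f827d78808a8f878779807ea6797c6d7a807b887d727e83567b8d80a7778671919e6e867e70706490817a0049
 z (n 0 z (n 0 z (n 0 z (n 0 z (n 0 z (n 0 z (n 0 z (n 0 z z))))))))))))) (n 291 (n 0 z (n 0 z
 (n 0 z (n 0 z (n 0 z (n 0 z (n 0 z (n 0 z (n 0 z (n 0 z (n 0 z (n 0 z (n 0 z z))))))))))))) (n
 291 (n 0 z (n 0 z (n 0 z (n 0 z (n 0 z (n 0 z (n 0 z (n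
 0x587618380808681827b7f817c7a8086807b877c80769076877e757f868c747285846a7f887d9179877a888d71877971857386847e0049
 z (n 0 z (n 0 z (n 0 z (n 0 z (n 0 z z))))))))))))) (n 529 (n 0 z (n 0 z (n 0 z (n 0 z (n 0 z
 (n 0 z (n 0 z (n 0 z (n 0 z (n 0 z (n 0 z (n 0 z (n 0 z (n 0 z (n 0 z (n 0 z (n 0 z (n 0 z (n 0
 z (n 0 z (n 0 z (n 0 z (n 0 z (n 0 z (n 0 z (n 0 z (n 0 z (n 0 z z))))))))))))))))))))))))))))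
 (n 529 (n 0 z (n 0 z (n 0 z (n 0 z (n 0 z (n 0 z (n 0 z (n 0 z (n 0 z (n 0 z (n 0 z (n
 0x587628380808681827b7f817c7a8086807b877c80769076877e757f868c747285846a7f887d9179877a888d71877971857386847e0049
 z (n 0 z (n 0 z (n 0 z (n 0 z (n 0 z (n 0 z (n 0 z (n 0 z (n 0 z (n 0 z (n 0 z (n 0 z (n 0 z (n
 0 z (n 0 z (n 0 z z)))))))))))))))))))))))))))) (n 529 (n 0 z (n 0 z (n 0 z (n 0 z (n 0 z (n 0
 z (n 0 z (n 0 z (n 0 z (n 0 z (n 0 z (n 0 z (n 0 z (n 0 z (n 0 z (n 0 z (n 2 z (n 0 z (n 0 z (n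
 0 z (n 0 z (n 0 z (n 0 z (n 0 z (n 0 z (n 0 z (n 0 z (n 0 z z))))))))))))))))))))))))))))
 z)))))))) (n 0 (n 531 (n 0 z (n 0 z (n 2 (n 0 z (n 0 z (n 0 z (n 2 (n 0 z (n 0 z (n 0 z (n 0 z
 (n 0 z (n 0 z z)))))) (n 2 (n 0 z (n 0 z (n 0 z (n 0 z (n 0 z (n 0 z z)))))) (n 1 z z)))))) (n
 0 z (n 0 z (n 0 z (n 0 z (n 0 z (n 0 z (n 0 z (n 0 z (n 0 z (n 0 z (n 0 z (n 0 z (n 0 z (n 0 z
 (n 0 z (n 0 z (n 0 z (n 0 z (n 0 z z)))))))))))))))))))))) (n 531 (n 0 z (n 0 z (n 0 z (n 0 z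
 (n 0 z (n 0 z (n 0 z (n 0 z (n 2 (n 0 z (n 0 z (n 2 (n 0 z (n 0 z (n 0 z (n 0 z (n 0 z (n 0 z
 z)))))) (n 2 (n 0 z (n 0 (n 1940 z z) (n 0 z (n 0 z (n 0 z (n 0 (n 1013 z (n 7 (n
 0xc3ac3a800c00000e1d61d000e0000070e90e800300000387585400180000343a42a001c0000121521500060000090eaea8007000003874754001800001c2a3aa001c000009d51d500060000010eb0e200700000087487100180000043ac28800c0000021d21440060000010a30a200300000087484100180000042a420800c0000021461040060000010830820030000008747410018000003aa3a0800c000002145d0400e000001082e8200300000174174100180000043aaa0800c000002151504006000002ea8a820070000008715410018000008003ac2018000008001d6130a000002000eb08050000030008574b680000000042ba51400000c00215d00a0000060010ea9b500000100087549280000200043aa01400000400214424a0000000010a210500000300074106e8000010003a08314a400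
 z (n
 0x4f0cb0ca403000034865864203800007432432100c00003a19615080e0000490c90a8407000016854854203800000432b2a100c00002e19195080600002f0a8ca840300001065465420180000bc32c31900c00004619218c8060000010c70c640700000f865853201800008c32429901c00004a15214c8060000010c70a6403000019853853201800000432b29900c0000f219194c8060000c90a8ca6407000048654653203800005429b29900c00006194d94c8060000250c9086407000047854843201800014431c21901c0000c214e10c80e00003f087086403000003865643201800002c32321900c0000a215190c80600000eca8c8640300001786364320180000a429b21901c00008194d90c80e000047086c86403000016643643201800020432aa1900c00007219150c80e00007f0a8a86407000031654543203800003c31aa1900c0000e214d50c806000028ca6a8640300003a843543203800003b21aa1901c0000c150d50c80600000c0090ca64a00001c0028653b50000038004329ed400008c002194e4a0000520010c84dd00000d00086424a8000078004299374dc00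
 z (n
 0x10ed0ec4070000558768742038000dac3a43a100c00024a1da19080e0001510e90c8407000291864864201800135c3b3b2101c0003361d1d9080e0002330c8ec8407000164764764203800047c3b439900c0019ba1d21cc80e0009b50e70e640300001587686320380010ec3a431900c000c2219218c80e0002230e70c640700001b8638632038001e6c3b3b1900c0008f61d1d8c80e0002630c8ec64070000bf7647632018000fac39bb1900c0008e218dd8c8060002a4ec6ec640700029887684320380021fc3a421900c00190e19210c8060008390e7086407000548863843203800325c21c21900c0004d61d9d0c80e0006910e8e864070001938647432038000b33b23a1900c0015121cdd0c8060004710c6e86407000142763743201800105c21ba1901c000781d0dd0c8060009590ecc864030000df874643201800277432321901c0002d9d9190c80600018d0e6c864070007648636432018000b43b1b21901c001a3a10d90c80e0002e2e86c864070001f16436432018000bbc87300008b50e600009a9d8cc80c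
 z z))) z)) z)))))) (n 1 z z))))) (n 0 z (n 0 z (n 0 z (n 0 z (n 0 z (n 0 z (n 0 z (n 0 z (n 0 z
 (n 0 z (n 0 z (n 0 z (n 0 z z)))))))))))))))))))))) (n 531 (n 0 z (n 0 z (n 0 z (n 0 z (n 0 z
 (n 0 z (n 0 z (n 0 z (n 0 z (n 2 (n 0 z (n 2 (n 0 z (n 0 z (n 0 z (n 0 z (n 0 z (n 0 z z))))))
 (n 2 (n 0 z (n 0 z (n 0 z (n 0 z (n 0 z (n 0 z z)))))) (n 2 (n 0 z (n 0 z (n 0 z (n 0 z (n 0 z
 (n 0 (n 1940 z z) z)))))) z)))) (n 0 z (n 0 z (n 0 z (n 0 z (n 0 z (n 0 z (n 0 z (n 0 z (n 0 z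
 (n 0 z (n 0 z (n 0 z z)))))))))))))))))))))) (n 531 (n 0 z (n 0 z (n 0 z (n 0 z (n 0 z (n 0 z
 (n 0 z (n 0 z (n 0 z (n 0 z (n 0 z (n 0 z (n 0 z (n 0 z (n 0 z (n 0 z (n 0 z (n 0 z (n 0 z (n 0
 z (n 0 z (n 0 z z)))))))))))))))))))))) (n 485 (n 0 z (n 0 z (n 2 (n 0 z (n 0 z z)) (n 0 z (n 0
 z (n 0 z (n 0 z (n 0 z (n 0 z (n 0 z (n 0 z (n 0 z (n 0 z (n 0 z (n 0 z (n 0 z (n 0 z (n 0 z (n
 0 z (n 0 z (n 0 z (n 0 z (n 0 z (n 0 z (n 0 z (n 0 z (n 0 z (n 0 z (n 0 z (n 0 z (n 0 z (n 0 z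
 (n 0 z (n 0 z (n 0 z (n 0 z z)))))))))))))))))))))))))))))))))))) (n 485 (n 0 z (n 0 z (n 0 z
 (n 0 z (n 0 z (n 0 z (n 0 z (n 0 z (n 0 z (n 0 z (n 0 z (n 0 z (n 0 z (n 0 z (n 0 z (n 0 z (n 0
 z (n 0 z (n 0 z (n 0 z (n 0 z (n 0 z (n 0 z (n 0 z (n 0 z (n 0 z (n 0 z (n 0 z (n 0 z (n 2 (n 0
 z z) (n 0 z (n 0 z (n 0 z (n 0 z (n 0 z (n 0 z z)))))))))))))))))))))))))))))))))))) (n 485 (n
 0 z (n 0 z (n 0 z (n 0 z (n 0 z (n 0 z (n 0 z (n 0 z (n 0 z (n 0 z (n 0 z (n 0 z (n 0 z (n 0 z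
 (n 0 z (n 0 z (n 0 z (n 0 z (n 0 z (n 0 z (n 0 z (n 0 z (n 0 z (n 0 z (n 0 z (n 0 z (n 0 z (n 0
 z (n 0 z (n 0 z (n 0 z (n 0 z (n 0 z (n 0 z (n 0 z (n 0 z z))))))))))))))))))))))))))))))))))))
 z))))))) (n 0 (n 0 z (n 0 z (n 0 z (n 253 (n 0 z (n 0 z (n 0 z (n 0 z (n 0 z (n 0 z (n 0 z (n 0
 z (n 0 z (n 0 z (n 0 z (n 0 z (n 0 z (n 0 z z)))))))))))))) (n 253 (n 0 z (n 0 z (n 0 z (n 0 z
 (n 0 z (n 0 z (n 0 z (n 0 z (n 0 z (n 0 z (n 0 z (n 0 z (n 0 z (n 0 z z)))))))))))))) (n 253 (n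
 0 z (n 0 z (n 0 z (n 0 z (n 0 z (n 0 z (n 0 z (n 2 z (n 0 z (n 0 z (n 0 z (n 0 z (n 0 z (n 0 z
 z)))))))))))))) z)))))) (n 0 (n 0 z (n 0 z (n 253 (n 0 z (n 0 z (n 0 z (n 0 z (n 0 z (n 0 z (n
 0 z (n 0 z (n 0 z (n 0 z z)))))))))) (n 253 (n 0 z (n 0 z (n 0 z (n 0 z (n 0 z (n 0 z (n 0 z (n
 0 z (n 0 z (n 2 (n 0 z z) z)))))))))) (n 253 (n 0 z (n 0 z (n 0 z (n 0 z (n 0 z (n 0 z (n 0 z
 (n 0 z (n 0 z (n 0 z z)))))))))) z))))) (n 0 (n 0 z (n 241 (n 0 z (n 0 z (n 0 z (n 0 z (n 0 z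
 (n 0 z (n 0 z (n 0 z (n 0 z (n 0 z (n 0 z (n 0 z (n 0 z (n 0 z z)))))))))))))) (n 241 (n 0 z (n
 0 z (n 0 z (n 0 z (n 0 z (n 0 z (n 0 z (n 0 z (n 0 z (n 0 z (n 0 z (n 0 z (n 0 z (n
 0x587628380808681827b7f817c7a8086807b877c80769076877e757f868c747285846a7f887d9179877a888d71877971857386847e0049
 z z)))))))))))))) (n 241 (n 2 z (n 0 z (n 0 z (n 0 z (n 0 z (n 0 z (n 0 z (n 0 z (n 0 z (n 0 z
 (n 0 z (n 0 z (n 0 z (n 0 z z)))))))))))))) z)))) (n 0 (n 13 (n 0 z (n 0 z (n 0 z (n 0 z (n 0 z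
 (n 0 z (n 0 z (n 0 z (n 0 z (n 0 z z)))))))))) (n 13 (n 0 z (n 0 z (n 0 z (n 0 z (n 0 z (n 0 z
 (n 0 z (n 0 z (n 0 z (n 0 z z)))))))))) (n 13 (n 0 z (n 0 z (n 0 z (n 0 z (n 0 z (n 0 z (n 0 z
 (n 0 z (n 0 z (n 2 z z)))))))))) z))) (n 0 (n 0 z (n 0 z z)) (n 0 (n 0 z z) (n 0 z
 z)))))))))))))) (n 0 (n 1 (n 6496515 z (n 6496515 z (n 6496515 z (n 6496515 z (n 6496515 z (n
 6496515 z z)))))) (n 0 z (n 0 z (n 0 z (n 0 z z))))) (n 0 z z)))) (n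
 0x360a57a0953546999234af422a44d12a26e14ea5303432804dd00 (n 0 (n 153 (n 2 z (n 0 z (n 0 z (n 0 z
 (n
 0xd949504c0e000000ca6ca62037ffffa8000018000048000047fffee8000088000007ffffd7ffff67ffffd8000037ffff98000028000018000067ffffe8000038000058000008000058000038000028000038000048000007ffff27fffff7ffff98000047ffffd7ffffa7ffffa7ffff98000027ffffe8000028000048000037ffffe8000008000008000067ffffe7fffff8000038000018000048000058000058000021019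
 z (n 0 z (n 0 z (n 0 z (n 6492227 z (n 0 z (n 0 z (n 0 z (n 0 z (n 6492227 z (n 0 z (n 0 z (n 0
 z (n 10 z (n 18 z (n
 0x20d8c9905406000682842c60a0700039563265140380000eb29318a01c00032d48594100e00014eca8ca840300004a6536532018002a5b29b21900c0007c595150c80600083ec86a864070000d7654641203800275b2a32a080c002f0d94d94c40600002ec86a8620700037765365210380003eb29329081c0008cd90950840e0001d200482a1660001d36ca60003a6994c008f24b29800f68865380033e80059e7ff5857ff06f801ad67ffc568008737fed8f8007c67ffeb580063b7ffb168005ed8000127ff4dd7ff6cc7ffd3b7ffb7d80056e80057e80005e8001e48005988001d48006d0800005800544800c8c7ff79c7ffca98001b080085580004e7ffa0e8001ea80052e7ffb147ffd5d7ffdf57ffe158000c67ffa9a80011880075680069b8001868003b07ffa5b8001458002499119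
 z (n 0 z z))))))))))))))))))))) (n 57 (n 26 z (n 0 z (n 0 z (n 0 z (n 0 z (n 6496515 z (n 0 z
 (n 0 z (n 6562099 z (n 0 z (n 0 z (n 6492227 z (n 6496515 z (n 6562099 z (n 0 z (n 0 z (n 0 z
 (n 0 z z)))))))))))))))))) (n 9 (n 34 z (n 0 z (n 0 z (n 0 z (n 0 z (n 6496515 z (n 42 z (n 0 z
 (n 0 z z))))))))) (n 123 (n 50 z (n 6636307 z (n
 0x4c64820a078000017fffff8000028000047ffffd7ffffe7ffffe7fffff7ffffd7fffff8000027ffffd7ffffe7fffff8000038000028000008000048000008000008000028000017fffff8000017fffff7ffffd8000018000008000037fffff8000017ffffe7ffffc8000017fffff8000008000038000027fffff8000008000018000048000017ffffe7ffffe8000018000018000018000028000000819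
 z (n 6636307 z (n 58 z (n 6496515 z (n 6492227 z (n 66 z (n 0 z (n 0 z (n 74 z z))))))))))) (n
 1 (n 6636307 z (n 0 z (n 0 z (n 0 z (n 0 z (n 0 z z)))))) (n 0 (n 0 z (n 6636307 z (n 0 z (n 0
 z (n 0 z (n 0 z (n 0 z (n 0 z (n 0 z (n 0 z (n 0 z (n 0 z (n 0 z (n 0 z z)))))))))))))) z))))))
 (n 1 (n 0 (n 0 z (n 0 z (n 1163 (n 0 z (n 0 z (n 0 z (n 0 z (n 0 z (n 0 z (n 0 z z))))))) (n
 1155 (n 0 z (n 0 z (n 0 z (n 0 z (n 0 z (n 0 z (n 0 z (n 0 z (n 0 z (n 0 z (n 0 z (n 0 z (n 0 z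
 (n 0 z (n 0 z (n 0 z (n 0 z (n 0 z (n 0 z (n 0 z (n 0 z (n 0 z (n 0 z (n 0 z (n 0 z (n 0 z (n 0
 z z))))))))))))))))))))))))))) (n 1155 (n 0 z (n 2 (n 1 z (n 1 z (n 1 z (n 1 z z)))) (n 0 z (n
 0 z (n 0 z (n 0 z (n 0 z (n 0 z (n 0 z (n 0 z (n 0 z (n 0 z (n 0 z (n 0 z (n 0 z (n 0 z (n 0 z
 (n 0 z (n 0 z (n 0 z (n 0 z (n 0 z (n 0 z (n 0 z (n 0 z (n 0 z (n 0 z
 z))))))))))))))))))))))))))) (n 1153 (n 0 z (n 0 z (n 0 z (n 0 z (n 0 z (n 0 z (n 0 z (n 0 z (n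
 0 z (n 0 z (n 0 z (n 0 z z)))))))))))) (n 1153 (n 0 z (n 0 z (n 0 z (n 0 z (n 0 z (n 0 z (n 0 z
 (n 0 z (n 2 (n 0 z (n 0 z z)) (n 0 z (n 0 z (n 0 z z)))))))))))) (n 1153 (n 0 z (n 0 z (n 0 z
 (n 0 z (n 0 z (n 2 (n 0 z z) (n 0 z (n 0 z (n 0 z (n 0 z (n 0 z (n 0 z z)))))))))))) (n 1153 (n
 0 z (n 0 z (n 0 z (n 0 z (n 0 z (n 0 z (n 0 z (n 0 z (n 0 z (n 0 z (n 0 z (n 0 z z))))))))))))
 z))))))))) (n 0 (n 0 z (n 751 (n 0 z (n 2 (n 1 z (n 1 z (n 1 z (n 2 (n 0 z (n 0 z (n 0 z (n 0 z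
 (n 0 z (n 0 z z)))))) (n 2 (n 0 z (n 0 z (n 0 (n 8795179 z z) (n 0 z (n 0 z (n 0 z z)))))) (n 2
 (n 0 z (n 0 z (n 0 z (n 0 z (n 0 z (n 0 z z)))))) z)))))) (n 0 z (n 0 z (n 0 z (n 0 z (n 0 z
 z))))))) (n 1173 (n 0 z (n 0 z (n 0 z (n 0 z (n 0 z (n 0 z (n 0 z (n 0 z (n 0 z (n 0 z (n 2 (n
 0 z (n 1 z (n 2 (n 0 z (n 0 z (n 0 (n 4676 z z) (n 0 z (n 0 z (n 0 z z)))))) (n 1 z (n 2 (n 0 z
 (n 0 z (n 0 (n 8852811 z z) (n 0 z (n 0 z (n 0 z z)))))) z))))) z))))))))))) (n 1173 (n 0 z (n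
 0 z (n 0 z (n 0 z (n 0 z (n 0 z (n 0 z (n 0 z (n 0 z (n 0 z (n 0 z z))))))))))) (n 1169 (n 0 z
 (n 0 z (n 0 z (n 0 z (n 0 z (n 0 z (n 0 z (n 2 (n 0 z (n 0 z (n 0 z z))) z)))))))) (n 1169 (n 0
 z (n 0 z (n 0 z (n 0 z (n 0 z (n 0 z (n 0 z (n 0 z z)))))))) (n 1169 (n 0 z (n 0 z (n 0 z (n 0
 z (n 0 z (n 0 z (n 0 z (n 0 z z)))))))) (n 1169 (n 0 z (n 0 z (n 0 z (n 0 z (n 0 z (n 0 z (n 0
 z (n 0 z z)))))))) z)))))))) (n 0 (n 739 (n 0 z (n 0 z (n 0 z (n 0 z (n 0 z (n 0 z (n 0 z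
 z))))))) (n 1173 (n 0 z (n 0 z (n 0 z (n 0 z (n 0 z (n 0 z (n 0 z (n 0 z (n 0 z (n 0 z (n 0 z
 z))))))))))) (n 1173 (n 0 z (n 2 (n 1 z (n 1 z (n 1 z (n 1 z z)))) (n 0 z (n 0 z (n 0 z (n 0 z
 (n 0 z (n 0 z (n 0 z (n 0 z (n 0 z z))))))))))) (n 1169 (n 0 z (n 0 z (n 0 z (n 0 z z)))) (n
 1169 (n 0 z (n 0 z (n 0 z (n 0 z z)))) (n 1169 (n 0 z (n 2 (n 0 z z) (n 0 z (n 0 z z)))) (n
 1169 (n 0 z (n 0 z (n 0 z (n 0 z z)))) z))))))) (n 0 (n 1167 (n 0 z (n 0 z (n 0 z (n 0 z (n 0 z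
 (n 0 z (n 0 z (n 0 z z)))))))) (n 1167 (n 2 (n 1 z (n 1 z (n 1 z (n 1 z z)))) (n 0 z (n 0 z (n
 0 z (n 0 z (n 0 z (n 0 z (n 0 z z)))))))) (n 1165 (n 0 z (n 0 z (n 0 z (n 0 z (n 0 z (n 0 z (n
 0 z (n 0 z (n 0 z (n 0 z z)))))))))) (n 1165 (n 0 z (n 0 z (n 0 z (n 0 z (n 0 z (n 0 z (n 0 z
 (n 0 z (n 0 z (n 2 (n 0 z (n 0 z z)) z)))))))))) (n 1165 (n 0 z (n 0 z (n 0 z (n 2 (n 0 z z) (n
 0 z (n 0 z (n 0 z (n 0 z (n 0 z (n 0 z z)))))))))) (n 1165 (n 0 z (n 0 z (n 0 z (n 0 z (n 0 z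
 (n 0 z (n 0 z (n 0 z (n 0 z (n 0 z z)))))))))) z)))))) (n 0 (n 0 z (n 1181 (n 0 z (n 0 z (n 0 z
 (n 0 z (n 0 z (n 0 z (n 0 z (n 0 z (n 0 z (n 0 z (n 0 z z))))))))))) (n 1181 (n 0 z (n 0 z (n 0
 z (n 0 z (n 0 z (n 0 z (n 0 z (n 2 (n 0 z (n 0 z z)) (n 0 z (n 0 z (n 0 z z))))))))))) (n 1181
 (n 0 z (n 0 z (n 0 z (n 0 z (n 2 (n 0 z z) (n 0 z (n 0 z (n 0 z (n 0 z (n 0 z (n 0 z
 z))))))))))) (n 1181 (n 0 z (n 0 z (n 0 z (n 0 z (n 0 z (n 0 z (n 0 z (n 0 z (n 0 z (n 0 z (n 0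
 z z))))))))))) z))))) (n 0 (n 1165 (n 0 z (n 0 z (n 0 z (n 0 z (n 0 z (n 0 z (n 2 (n 0 z (n 0 z
 (n 0 z z))) z))))))) (n 1165 (n 0 z (n 0 z (n 0 z (n 0 z (n 0 z (n 0 z (n 0 z z))))))) (n 1165
 (n 0 z (n 0 z (n 0 z (n 0 z (n 0 z (n 0 z (n 0 z z))))))) (n 1165 (n 0 z (n 0 z (n 0 z (n 0 z
 (n 0 z (n 0 z (n 0 z z))))))) z)))) (n 0 (n 0 z (n 0 z (n 0 z z))) (n 0 (n 0 z (n 0 z z)) (n 0
 (n 0 z z) (n 0 z z)))))))))) (n 0 (n 1 (n 6636307 z (n 6636307 z (n 6636307 z (n 6636307 z (n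
 6636307 z (n 6636307 z z)))))) (n 0 z (n 0 z (n 0 z (n 0 z (n 0 z z)))))) (n 0 z z)))) (n
 0x6a53a2295dc1b2a314a7360d47906537814db8256d61746e215a7a84d66b08726c22f5219 (n 0 (n 285 (n 0 z
 (n 3282443 z (n 0 z z))) (n 375 (n 0 z (n 6496515 z (n 2 z (n 6496515 z (n 0 z (n 0 z (n 10 z
 (n
 0x194d94900e00a64ca2807006546543018032a321181c0d951940c0600ca8c60403827f7f867e837f7c7d8685827f767e7f817d8c7e8379808d6a8a7a8c7d878075807889817d857e827c7f81808583788087883009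
 z (n
 0x5951908c0e06ca8ca060382817e837f847f7c7f8483837f787d7e827c8a7f867c7d8a6d857e857e848076817a887e80827e847f7b817f81887b8188831009
 z (n
 0x35945500c0e0aca8ca80077d9b7c78888582827f8073658c7c847e817b8b7d82797984757b87877d81807f8275838779877e8d87857e7e7c7d807c887e1009
 z (n 18 z z))))))))))) (n 373 (n 6496515 z (n 6496515 z (n 26 z (n 34 z z)))) (n 3 (n 6496515 z
 (n
 0x2ca6a80207808080807f7f8180818080808080807f81817f807f80807f81807f7f7f7f808181818080808081808081808080808081807f0809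
 z (n
 0x2ca2c4080781877e7d847f8080817d797c8381807e7f817e8082807f80837b827d817d808381817e81827e8080848080807d7e81807e7f0809
 z (n 0 z (n
 0x16526514018032a32a100c0595190840618ca6a84203847b80867b787c8583797683818a84837b85568a6b8d9a6bab837e6f807e808f89a465748172937070897d8486768c886e792009
 z (n 42 z (n 50 z (n 58 z (n 6496515 z (n 6488603 z (n
 0xcca8ca4203818b7a7d847d867d8480768383817f827f7c7d847a8184817e8b788a8183807a8b77827a7c8886807e877f81857b817b827f0809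
 z (n 0 z (n 0 z (n 0 z (n 0 z (n 0 z (n 0 z (n 0 z (n 0 z (n 66 z (n 0 z (n 0 z (n
 0xcca6a84207817c817e807d817f818284847c7f7d8082837f83807f81817f827f838480807a807e8279827e837e7f7e828281827d807f810809
 z (n 6488603 z (n 74 z z))))))))))))))))))))))))) (n 25 (n 82 z (n 0 z (n 0 z (n 0 z (n 0 z (n
 0 z (n 2164299 z (n 0 z (n 90 z z))))))))) (n 0 (n 0 z (n
 0x1d3108316217e6f8385787d817e7e868a8b7d7f808284837b827b84867d83857d807b7f807f7f86807f8081817c75838084878180827e800089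
 z (n 98 z (n 0 z (n 6619931 z (n 0 z (n 0 z (n 0 z (n 0 z (n 6619931 z (n 106 z (n 4327003 z
 z)))))))))))) z)))))) (n 285 (n 0 (n 0 z (n 0 z (n 753 (n 0 z (n 0 z (n 0 z (n 0 z (n 0 z (n 0
 z (n 0 z (n 0 z z)))))))) (n 753 (n 0 z (n 0 z (n 0 z (n 0 z (n 0 z (n 0 z (n 0 z (n
 0x4ecaeca0037d80808280847f7f7e8386807d7e8181807e8680817e7d83778280857e84807c817985827e857d8481807f7f82827e7d85820809
 z z)))))))) (n 491 (n 0 z (n 0 z (n 0 z (n 0 z (n 0 z (n 0 z (n 0 z (n 0 z (n 0 z (n 0 z (n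
 0x3b2bb1200c001d4d945006010e64ca2807004751720401800baa3aa101c005d51d0840e000e84e842037ea77e8198317b38018007f97eb8398788607d17d57f080e82480b8247ff7e77f58198047c38467ca8337d78158007de7f67ff82880c7e68247f78097bc8187ff81583c8157ed8078208143811
 z (n 0 z z)))))))))))) (n 491 (n 0 z (n 0 z (n 0 z (n 0 z (n 0 z (n 0 z (n
 0x8ecaeca0037b81808380867d7f7d85897e7c7c8182807e8a7f817d7c85728380897d868079817587847d877a8582807f8082847d7c88830809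
 z (n 0 z (n 0 z (n 0 z (n 0 z (n 0 z z)))))))))))) (n 491 (n 0 z (n 0 z (n 0 z (n 0 z (n 0 z (n
 0 z (n 0 z (n 0 z (n 0 z (n 0 z (n 0 z (n 0 z z)))))))))))) (n 491 (n 0 z (n 0 z (n 2 (n 0 z (n
 1 z (n 1 z (n 2 (n 0 z (n 0 z (n 0 z (n 0 z (n 0 (n 2996 z (n 2996 z z)) (n 0 (n 965 z z)
 z)))))) (n 1 z z))))) (n 0 z (n 0 z (n 0 z (n 0 z (n 0 z (n 0 z (n 0 z (n 0 z (n 0 z
 z)))))))))))) (n 491 (n 0 z (n 0 z (n 0 z (n 0 z (n 0 z (n 0 z (n 0 z (n 0 z (n 0 z (n 0 z (n 0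
 z (n 2 (n 1 z (n 1 z (n 2 (n 0 (n 2996 z z) (n 0 z (n 0 z (n 0 (n 2996 z z) (n 0 (n 8857115 z
 (n 8857115 z z)) (n 0 z z)))))) (n 2 (n 0 z (n 0 (n 8785955 z z) (n 0 z (n 0 z (n 0 (n 8785955
 z (n 8785955 z z)) (n 0 (n 8785955 z z) z)))))) z)))) z)))))))))))) (n 489 (n 0 z (n 0 z (n 0 z
 (n 0 z (n 0 z (n 0 z (n 0 z (n 0 z (n 0 z (n 0 z z)))))))))) (n 489 (n 0 z (n 0 z (n 0 z (n 0 z
 (n 0 z (n 2 (n 1 z (n 1 z z)) (n 0 z (n 0 z (n 0 z (n 0 z z)))))))))) (n 749 (n 0 z (n 0 z (n 0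
 z (n 0 z (n 0 z (n 0 z (n 0 z (n 0 z (n 0 z (n 0 z (n 0 z (n
 0x1d0c9d4180602ec6ec480312765632403863a9308201c21d51880c0e06ec8ec84030676564320380b2a321900c1dd4d90c80e02ec6ec40077de95c5dc4997b737b7c4225b282916d745f9b85967160ac5052b18c7f76806b9b3c9d87829b72ada87d7c7a65827d6f9a7a5009
 z (n 0 z z))))))))))))) (n 749 (n 0 z (n 0 z (n 0 z (n 0 z (n 0 z (n 0 z (n 0 z (n 0 z (n 0 z
 (n 0 z (n 0 z (n 0 z (n 0 z z))))))))))))) z))))))))))))) (n 0 (n 0 z (n 747 (n 0 z (n 0 z (n 0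
 z (n 2 (n 0 z (n 2 (n 0 z (n 0 z (n 0 z (n 0 z (n 0 z (n 0 z z)))))) (n 1 z (n 1 z (n 1 z (n 1
 z (n 1 z (n 1 z (n 1 z (n 1 z z)))))))))) (n 0 z (n 0 z (n 0 z (n 0 z (n 0 z (n 0 z (n 0 z (n 0
 z (n 0 z (n 0 z z)))))))))))))) (n 747 (n 0 z (n 0 z (n 0 z (n 0 z (n 2 (n 2 (n 0 z (n 0 z (n 0
 z (n 0 z (n 0 z (n 0 z z)))))) (n 1 z (n 1 z (n 1 z (n 1 z (n 1 z (n 1 z (n 1 z (n 1 z
 z))))))))) (n 0 z (n 0 z (n 0 z (n 0 z (n 0 z (n 0 z (n 0 z (n 0 z (n 0 z z)))))))))))))) (n 55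
 (n 0 z (n 0 z (n 0 z (n 0 z (n 0 z (n 0 z (n 0 z (n 0 z (n 0 z (n 0 z (n 0 z z))))))))))) (n 55
 (n 0 z (n 2 (n 0 z (n 0 z (n 0 z (n 1 z (n 1 z (n 1 z (n 1 z z))))))) (n 0 z (n 0 z (n 0 z (n 0
 z (n 0 z (n 0 z (n 0 z (n 0 z (n 0 z z))))))))))) (n 55 (n 0 z (n 0 z (n 2 (n 0 z (n 0 z (n 1 z
 (n 1 z (n 1 z (n 1 z z)))))) (n 0 z (n 0 z (n 0 z (n 0 z (n 0 z (n 0 z (n 0 z (n 0 z
 z))))))))))) (n 55 (n 0 z (n 0 z (n 0 z (n 0 z (n 0 z (n 0 z (n 0 z (n 0 z (n 0 z (n 0 z (n 0 z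
 z))))))))))) (n 55 (n 0 z (n 0 z (n 0 z (n 0 z (n 0 z (n 0 z (n 0 z (n 0 z (n 0 z (n 0 z (n 2
 (n 1 z (n 1 z (n 1 z (n 1 z z)))) z))))))))))) (n 63 (n 0 z (n 0 z (n 0 z (n 2 (n 0 z (n 1 z (n
 1 z z))) (n 0 z (n 0 z (n 0 z (n 0 z (n 0 z (n 0 z (n 0 z (n 0 z z)))))))))))) (n 63 (n 0 z (n
 0 z (n 0 z (n 0 z (n 0 z (n 0 z (n 0 z (n 0 z (n 0 z (n 0 z (n 0 z (n 0 z z)))))))))))) (n 749
 (n 0 z (n 0 z (n 0 z (n 0 z (n 0 z (n 0 z (n 0 z (n 0 z (n 0 z (n 0 z (n 0 z (n 0 z (n 0 z (n 0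
 z (n 0 z (n 0 z (n 0 z (n 0 z (n 0 z (n 0 z (n 0 z (n 0 z (n 0 z (n 0 z (n 0 z (n 0 z (n 0 z (n
 0 z (n 0 z (n 0 z (n
 0x5d91d9080602e84e842077f808080807f8080817f80808180808080828080807f7f7f817f807f8080807f81807f818180807f7f818080807f818080801009
 z (n 0 z (n 0 z (n 0 z (n 0 z (n 0 z (n 0 z (n 0 z (n 0 z (n 0 z (n 2 (n 0 z z) (n 0 z (n 0 z
 (n 0 z (n 0 z (n 0 z z)))))))))))))))))))))))))))))))))))))))))))))) (n 749 (n 0 z (n 0 z (n 0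
 z (n 0 z (n 0 z (n 0 z (n 0 z (n 0 z (n 0 z (n 0 z (n 0 z (n 0 z (n 0 z (n 0 z (n 0 z (n 0 z (n
 0 z (n 0 z (n 2 z (n 0 z (n 0 z (n 0 z (n 0 z (n 0 z (n 0 z (n 0 z (n 0 z (n 0 z (n 0 z (n 0 z
 (n 0 z (n 0 z (n 0 z (n 0 z (n 0 z (n 0 z (n 0 z (n 0 z (n 0 z (n 0 z (n 0 z (n 0 z (n 0 z (n 0
 z (n 0 z (n 0 z z)))))))))))))))))))))))))))))))))))))))))))))) z)))))))))))) (n 0 (n 867 (n 0
 z (n 0 z (n 0 z (n 0 z (n 0 z (n 0 z (n 0 z (n 0 z (n 0 z (n 0 z (n 0 z z))))))))))) (n 867 (n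
 0 z (n 0 z (n 0 z (n 0 z (n 0 z (n 0 z (n 0 z (n 0 z (n 0 z (n 0 z (n 0 z z))))))))))) (n 525
 (n 0 z (n 0 z (n 0 z (n 0 z (n 0 z (n 0 z (n 0 z (n 0 z z)))))))) (n 525 (n 0 z (n 0 z (n 0 z
 (n 0 z (n 0 z (n 0 z (n 0 z (n 0 z z)))))))) (n 525 (n 0 z (n 0 z (n 0 z (n 0 z (n 0 z (n 0 z
 (n 0 z (n 0 z z)))))))) (n 525 (n 0 z (n 0 z (n 0 z (n 0 z (n 0 z (n 0 z (n 2 (n 0 z (n 2 (n 0
 z (n 0 z (n 0 z (n 0 z (n 0 (n 276 z z) (n 0 z z)))))) (n 1 z (n 2 (n 0 z (n 0 z (n 0 z (n 0 z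
 (n 0 z (n 0 z z)))))) (n 2 (n 0 z (n 0 z (n 0 z (n 0 z (n 0 z (n 0 z z)))))) z))))) (n 0 z
 z)))))))) (n 525 (n 0 z (n 0 z (n 0 z (n 0 z (n 0 z (n 0 z (n 0 z (n 0 z z)))))))) (n 69 (n 0 z
 (n 0 z (n 0 z (n 0 z (n 0 z (n 0 z (n 0 z (n 0 z z)))))))) (n 69 (n 0 z (n 0 z (n 0 z (n 0 z (n
 0 z (n 0 z (n 0 z (n 6493995 z z)))))))) (n 865 (n 0 z (n 0 z (n 0 z (n 0 z (n 0 z (n 0 z (n 0
 z (n 0 z (n 0 z (n 0 z (n 0 z (n 0 z (n 0 z z))))))))))))) (n 865 (n 0 z (n 0 z (n 0 z (n 0 z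
 (n 0 z (n 0 z (n 0 z (n 0 z (n 0 z (n 0 z (n 0 z (n 0 z (n 0 z z))))))))))))) z))))))))))) (n 0
 (n 0 z (n 27 (n 0 z (n 0 z (n 0 z (n
 0x15d89d4500e0eec6ca280302762710401803aa3aa101c05d91d9040600ea6a84207898a7e857f837c7c79907671827a788381868a7f747c8a8b609379a27a86806e8d689a8c7593828c828f80959473796b87863009
 z (n 0 z (n 0 z (n 0 z (n 0 z (n 0 z (n 0 z (n 0 z (n 0 z z)))))))))))) (n 27 (n 0 z (n 0 z (n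
 0 z (n 0 z (n
 0x8ecaeca0037b8180837f867d7f7d85897e7c7c8183807d8a7f827d7b85728380887d868079817588837d877a8581807f8082837d7c87830809
 z (n 0 z (n 0 z (n 0 z (n 0 z (n 0 z (n 0 z (n 0 z z)))))))))))) (n 27 (n 0 z (n 0 z (n 0 z (n
 0 z (n 0 z (n 0 z (n 0 z (n 0 z (n 0 z (n 0 z (n 0 z (n 0 z z)))))))))))) (n 27 (n 0 z (n 0 z
 (n 0 z (n 0 z (n 0 z (n 0 z (n 0 z (n 0 z (n 0 z (n 0 z (n 0 z (n 2 (n 0 z (n 1 z (n 1 z (n 2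
 (n 0 z (n 0 z (n 0 z (n 0 z (n 0 z (n 0 z z)))))) (n 2 (n 0 z (n 0 z (n 0 z (n 0 (n 3213419 z
 z) (n 0 (n 3213419 z (n 8718155 z z)) (n 0 (n 3213419 z z) z)))))) z))))) z)))))))))))) (n 27
 (n 0 z (n 0 z (n 0 z (n 0 z (n 0 z (n 0 z (n 0 z (n 0 z (n 0 z (n 2 (n 1 z (n 1 z (n 2 (n 0 z
 (n 0 (n 2980 z z) (n 0 z (n 0 (n 2980 z z) (n 0 (n 2980 z (n 2980 z z)) (n 0 z z)))))) (n 2 (n
 0 (n 8873283 z z) (n 0 (n 8873283 z z) (n 0 z (n 0 z (n 0 (n 8873283 z (n 8873283 z z)) (n 0 z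
 z)))))) z)))) (n 0 z (n 0 z z)))))))))))) (n 15 (n 0 z (n 0 z (n 0 z (n 0 z (n 0 z z))))) (n 15
 (n 0 z (n 0 z (n 2 (n 1 z (n 1 z z)) (n 0 z (n 0 z z))))) (n 745 (n 0 z (n 0 z (n 0 z (n 0 z (n
 0 z (n 0 z (n 0 z (n 0 z z)))))))) (n 745 (n 0 z (n 0 z (n 0 z (n 0 z (n 0 z (n 0 z (n 0 z (n 0
 z z)))))))) z)))))))))) (n 0 (n 33 (n 0 z (n 0 z (n 0 z (n
 0xec4ea280702752751403803b2b28a01c01d51d5080e02ec8ea82070065465310380b29b29880c09d51d0840e00ec8ea0207785586926182847c789baba77170778790819c8078748186569f629b6c87806d826d998c749c768c678e80849989748095894809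
 z (n 0 z (n 0 z (n 0 z (n 0 z (n 0 z (n 0 z (n 0 z (n 0 z (n 0 z (n 0 z (n 0 z (n 0 z
 z)))))))))))))))) (n 33 (n 0 z (n 0 z (n 0 z (n 0 z (n 0 z (n 0 z (n 0 z (n 0 z (n 0 z (n 0 z
 (n 0 z (n 0 z (n 0 z (n 0 z (n 0 z (n 0 z z)))))))))))))))) (n 33 (n 0 z (n 0 z (n 0 z (n 0 z
 (n 0 z (n 0 z (n 0 z (n 0 z (n 0 z (n 0 z (n 0 z (n 0 z (n 0 z (n 0 z (n
 0xaecaeca0037a81808480887d7e7c868b7e7b7c8183807c8d7f827c7b866f84808b7d88807881728a847d897a8682807f7f82847c7989830809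
 z (n 0 z z)))))))))))))))) (n 33 (n 0 z (n 0 z (n 0 z (n 0 z (n 0 z (n 0 z (n 0 z (n 0 z (n 0 z
 (n 0 z (n 0 z (n 0 z (n 0 z (n 0 z (n 0 z (n 2 (n 0 z (n 1 z (n 1 z (n 2 (n 0 z (n 0 z (n 0 z
 (n 0 z (n 0 z (n 0 z z)))))) (n 2 (n 0 z (n 0 z (n 0 z (n 0 (n 2996 z z) (n 0 (n 2996 z (n
 8718155 z z)) (n 0 (n 2996 z z) z)))))) z))))) z)))))))))))))))) (n 33 (n 0 z (n 0 z (n 0 z (n
 0 z (n 0 z (n 0 z (n 0 z (n 0 z (n 0 z (n 0 z (n 0 z (n 0 z (n 0 z (n 0 z (n 0 z (n 0 z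
 z)))))))))))))))) (n 99 (n 0 z (n 0 z (n 0 z (n 0 z (n 0 z z))))) (n 99 (n 0 z (n 0 z (n 0 z (n
 2 (n 1 z (n 1 z z)) (n 0 z z))))) (n 749 (n 0 z (n 0 z (n 0 z (n 0 z (n 0 z (n 0 z (n 0 z (n 0
 z (n 0 z (n 0 z z)))))))))) (n 749 (n 0 z (n 0 z (n 0 z (n 0 z (n 0 z (n 0 z (n 0 z (n 0 z (n 0
 z (n 0 z z)))))))))) z))))))))) (n 0 (n 0 z (n 0 z (n 0 z (n 0 z (n 489 (n 0 z (n 0 z (n 0 z (n
 0 z (n 0 z (n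
 0x474163050381b29328a01c05d45d40c0602ca8ca84070165354120180ba9ba9880c09d5194c40e00ca8c84207806b858f6c807e7774988b927a757b82898792817d7d82895e8f74917284806f8171988e7f9670846b897f8b97827a7c8a8b4009
 z (n 0 z (n 0 z (n 0 z z))))))))) (n 489 (n 0 z (n 0 z (n 0 z (n 0 z (n 0 z (n 0 z (n 0 z (n 0
 z (n 0 z z))))))))) (n 5 (n 0 z (n 0 z (n 0 z (n 0 z (n 0 z z))))) (n 5 (n 0 z (n 0 z (n 0 z (n
 0 z (n 0 z z))))) z)))))))) (n 0 (n 0 z (n 0 z (n 0 z (n 489 (n 0 z (n 0 z (n 0 z (n 0 z (n 0 z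
 (n 0 z (n 0 z (n 0 z (n 0 z (n 0 z (n 0 z (n 0 z (n 0 z (n 0 z (n 0 z (n 0 z (n 0 z (n 0 z (n 0
 z (n 0 z (n 0 z (n 0 z (n
 0xaecaeca0037a81808480887d7e7c868b7e7b7c8183807c8d7f827c7b866f84808b7d88807881728a847d897a8682807f7f82847c7989830809
 z (n 0 z (n 0 z (n 0 z (n 0 z (n 0 z (n 0 z (n 0 z (n 0 z (n 0 z (n 0 z (n 0 z (n 0 z
 z))))))))))))))))))))))))))))))))))) (n 489 (n 0 z (n 0 z (n 0 z (n 0 z (n 0 z (n 0 z (n 0 z (n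
 0 z (n 0 z (n 0 z (n 0 z (n 0 z (n 0 z (n 0 z (n 0 z (n 0 z (n 0 z (n 0 z (n 0 z (n 0 z (n 0 z
 (n 0 z (n 0 z (n 0 z (n 0 z (n 0 z (n 0 z (n 0 z (n 0 z (n 0 z (n 0 z (n 0 z (n 0 z (n 2 (n 1 z
 (n 1 z z)) (n 0 z z))))))))))))))))))))))))))))))))))) (n 5 (n 0 z (n 0 z (n 0 z (n 0 z (n 0 z
 (n 0 z (n 0 z (n 0 z (n 0 z (n 0 z (n 0 z (n 0 z (n 0 z (n 0 z (n 0 z (n 0 z (n 0 z (n 0 z (n 0
 z (n 0 z (n 0 z (n 0 z (n 0 z (n 0 z (n 0 z (n 0 z (n 0 z (n 0 z (n 0 z (n 0 z (n 0 z (n 0 z (n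
 0 z (n 0 z (n 0 z (n 0 z z)))))))))))))))))))))))))))))))))))) (n 5 (n 0 z (n 0 z (n 0 z (n 0 z
 (n 0 z (n 0 z (n 0 z (n 0 z (n 0 z (n 0 z (n 0 z (n 0 z (n 0 z (n 0 z (n 0 z (n 0 z (n 0 z (n 0
 z (n 0 z (n 0 z (n 0 z (n 0 z (n 0 z (n 0 z (n 0 z (n 0 z (n 0 z (n 0 z (n 0 z (n 0 z (n 0 z (n
 0 z (n 0 z (n 0 z (n
 0x4210ba8301c03dd09c41806030ec6e42807026764764201802ba1ba1901c05dd91904806020ea8c8240300b7437312038013aa218900c04dd91d9040e000ca8ca82070006546521038063aa321081c08d94990840e042e64e64203022754640103807bb1320081c039d518c0406008e64e6400782b8837c97f285b8167e87c37f480e7a87f47e17c87d07da8007f385d7e984d7bb7cf87d7358267dd85882781280079281d7918597ce8027f581382d8517bf8227e17e08257a67f283b8319811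
 z (n 0 z z)))))))))))))))))))))))))))))))))))) z))))))) (n 0 (n 0 z (n 0 z (n 531 (n 0 z (n 0 z
 (n 0 z (n 0 z (n 0 z (n 0 z (n 0 z (n 0 z (n 0 z (n 0 z (n 0 z (n 0 z (n 0 z (n 0 z (n 0 z (n 0
 z (n 0 z (n 0 z (n 0 z (n 0 z (n 0 z (n 0 z (n 0 z (n 0 z (n 0 z (n 0 z (n 0 z (n 0 z (n 0 z (n
 0 z (n 0 z (n 0 z (n 0 z (n 0 z (n 0 z (n 0 z (n 0 z (n 0 z (n 0 z (n 0 z (n 0 z (n 0 z (n 0 z
 (n 0 z (n 0 z (n 0 z (n 0 z z))))))))))))))))))))))))))))))))))))))))))))))) (n 531 (n 0 z (n 0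
 z (n 0 z (n 0 z (n 0 z (n 0 z (n 0 z (n 0 z (n 0 z (n 0 z (n 0 z (n 0 z (n 0 z (n 0 z (n 0 z (n
 0 z (n 0 z (n 0 z (n 0 z (n 0 z (n 0 z (n 0 z (n 0 z (n 0 z (n 0 z (n 0 z (n 0 z (n 0 z (n 0 z
 (n 0 z (n 0 z (n 0 z (n 0 z (n 0 z (n 0 z (n 0 z (n 0 z (n 0 z (n 0 z (n 0 z (n 0 z (n 0 z (n 2
 (n 1 z (n 1 z z)) (n 0 z (n 0 z (n 0 z (n 0 z z)))))))))))))))))))))))))))))))))))))))))))))))
 (n 529 (n 0 z (n 0 z (n 0 z (n 0 z (n 0 z (n 0 z (n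
 0x11d89d8500e22c64ea280302763721403813b2b08200c15d91d908060cec8ec240300764764103813aa321881c01d8dd0840e04ec4e8420304742760103823aa320081c55d91d8800e02ec2ec200791e8645dc796767877803438a38b86746b689c7fa27459ab4953a78d987f80678830958a8c966a9bb47280685f7d736d93847009
 z (n 0 z (n 0 z (n 0 z (n 0 z (n 0 z z)))))))))))) (n 529 (n 0 z (n 0 z (n 0 z (n 0 z (n 0 z (n
 0 z (n 0 z (n 0 z (n 0 z (n 0 z (n 0 z (n 0 z z)))))))))))) z)))))) (n 0 (n 0 z (n 243 (n 0 z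
 (n 0 z (n 0 z (n 2 (n 0 z (n 1 z (n 1 z z))) (n 0 z (n 0 z (n 0 z (n 0 z (n 0 z (n 0 z (n 0 z
 (n 0 z z)))))))))))) (n 243 (n 0 z (n 0 z (n 0 z (n 0 z (n 0 z (n 0 z (n 0 z (n 0 z (n 0 z (n 0
 z (n 0 z (n 0 z z)))))))))))) (n 241 (n 0 z (n 0 z (n 0 z (n 0 z (n 0 z (n 0 z (n 0 z (n 0 z (n
 0 z (n 0 z (n 0 z (n 0 z (n 0 z (n 0 z (n 0 z (n 0 z (n 0 z (n 0 z (n 0 z (n 0 z (n 0 z (n 0 z
 (n 0 z (n 0 z (n 0 z (n 0 z (n 0 z (n 2 (n 0 z z) (n 0 z (n 0 z (n 0 z (n 0 z (n 0 z (n 0 z (n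
 0 z (n 0 z (n 0 z (n 0 z (n 0 z (n 0 z (n 0 z (n 0 z (n 0 z (n 0 z (n 0 z (n 0 z (n 0 z (n 0 z
 (n 0 z (n 0 z (n 0 z (n 0 z (n 0 z (n 0 z (n 0 z (n 0 z
 z)))))))))))))))))))))))))))))))))))))))))))))))))))))))) (n 241 (n 0 z (n 0 z (n 0 z (n 0 z (n
 0 z (n 0 z (n 0 z (n 0 z (n 0 z (n 0 z (n 0 z (n 0 z (n 0 z (n 0 z (n 0 z (n 0 z (n 0 z (n 0 z
 (n 0 z (n 0 z (n 0 z (n 0 z (n 0 z (n 0 z (n 0 z (n 0 z (n 0 z (n 0 z (n 0 z (n 0 z (n 0 z (n 0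
 z (n 0 z (n 0 z (n 0 z (n 0 z (n 0 z (n 0 z (n 0 z (n 0 z (n 0 z (n 0 z (n 0 z (n 0 z (n 0 z (n
 0 z (n 0 z (n 0 z (n 2 z (n 0 z (n 0 z (n 0 z (n 0 z (n 0 z (n 0 z (n 0 z
 z)))))))))))))))))))))))))))))))))))))))))))))))))))))))) z))))) (n 0 (n 489 (n 2 (n 0 z (n 2
 (n 0 z (n 0 z (n 0 z (n 0 z (n 0 z (n 0 z z)))))) (n 2 (n 0 z (n 0 z (n 0 z (n 0 (n 8851491 z
 z) (n 0 (n 8851491 z (n 8851491 z z)) (n 0 (n 8851491 z z) z)))))) z))) (n 0 z (n 0 z (n 0 z (n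
 0 z (n 0 z (n 0 z (n 0 z (n 0 z (n 0 z (n 0 z (n 0 z (n 0 z (n 0 z (n 0 z (n 0 z (n 0 z (n 0 z
 (n 0 z (n 0 z (n 0 z (n 0 z (n 0 z (n 0 z (n 0 z z))))))))))))))))))))))))) (n 489 (n 0 z (n 0
 z (n 0 z (n 0 z (n 0 z (n 0 z (n 0 z (n 6493995 z (n 0 z (n 0 z (n 0 z (n 0 z (n 0 z (n 0 z (n
 0 z (n 0 z (n 0 z (n 0 z (n 0 z (n 0 z (n 0 z (n 0 z (n 0 z (n 0 z (n 0 z
 z))))))))))))))))))))))))) (n 289 (n 0 z (n 0 z (n 0 z (n 0 z (n 0 z (n 0 z (n 0 z (n 0 z (n 0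
 z (n 0 z (n 0 z (n 0 z (n 0 z (n 0 z (n 0 z (n 0 z (n 0 z (n 0 z (n 0 z (n 0 z (n 0 z (n 0 z (n
 0 z (n 0 z (n 0 z z))))))))))))))))))))))))) (n 289 (n 0 z (n 0 z (n 0 z (n 0 z (n 0 z (n 0 z
 (n 0 z (n 0 z (n 0 z (n 0 z (n 0 z (n 0 z (n 0 z (n 0 z (n 0 z (n 0 z (n 0 z (n 0 z (n 0 z (n 2
 z (n 0 z (n 0 z (n 0 z (n 0 z (n 0 z z))))))))))))))))))))))))) z)))) (n 0 (n 0 z (n 533 (n 0 z
 (n 0 z (n 0 z (n 0 z (n 0 z (n 0 z (n 0 z (n 0 z z)))))))) (n 533 (n 0 z (n 0 z (n 0 z (n 0 z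
 (n 0 z (n 0 z (n 0 z (n 0 z z)))))))) z))) (n 0 (n 245 (n 0 z (n 0 z (n 0 z (n 0 z (n 0 z (n 0
 z (n 0 z (n 0 z (n 0 z (n 0 z (n 0 z (n 0 z (n 0 z (n 0 z (n 0 z (n 0 z (n 0 z (n 0 z (n 0 z (n
 0 z (n 0 z (n 0 z (n 0 z (n 0 z (n 0 z (n 0 z (n 0 z (n 0 z (n 0 z (n 0 z (n 0 z
 z))))))))))))))))))))))))))))))) (n 245 (n 0 z (n 0 z (n 0 z (n 0 z (n 0 z (n 0 z (n 0 z (n 0 z
 (n 0 z (n 0 z (n 0 z (n 0 z (n 0 z (n 0 z (n 0 z (n 0 z (n 2 z (n 0 z (n 0 z (n 0 z (n 0 z (n 0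
 z (n 0 z (n 0 z (n 0 z (n 0 z (n 0 z (n 0 z (n 0 z (n 0 z (n 0 z
 z))))))))))))))))))))))))))))))) z)) (n 0 (n 0 z z) (n 0 z z)))))))))))))) (n 0 (n 0 z (n 1 (n
 6496515 z (n 3282443 z (n 3282443 z (n 3282443 z (n 3282443 z (n 3282443 z z)))))) (n 0 z z)))
 (n 0 z z)))) (n 0x1a67688dc5415abb48adb303899b20669358063700 (n 0 (n 153 (n 2 z (n 6565971 z (n
 0 z (n 0 z (n 10 z (n 0 z z)))))) (n 375 (n 0 z (n 18 z (n 0 z (n 0 z (n 6496515 z z))))) (n 51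
 (n 0 z (n 0 z (n 0 z (n 6496515 z z)))) (n 3 (n 0 z (n 26 z (n 0 z (n 0 z (n 0 z (n 0 z (n
 6496515 z (n 0 z (n 0 z (n 0 z (n 0 z (n 0 z (n 0 z (n 0 z (n 0 z (n 34 z (n 0 z (n 0 z (n 0 z
 (n 0 z z)))))))))))))))))))) (n 1 (n 0 z (n 6565971 z (n 0 z (n 0 z (n 0 z z))))) (n 0 (n 0 z
 (n 42 z (n 6632459 z (n 6632459 z (n 50 z (n 0 z (n 58 z z))))))) z)))))) (n 51 (n 0 (n 0 z (n
 903 (n 0 z (n 0 z (n 0 z (n 0 z (n 0 z (n 0 z z)))))) (n 1241 (n 0 z (n 0 z (n 0 z (n 0 z (n 0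
 z (n 0 z (n 0 z (n 0 z (n 0 z (n 0 z (n 0 z (n 0 z (n 0 z (n 0 z (n 0 z (n 0 z (n 0 z (n 0 z (n
 0 z (n 0 z (n 0 z (n 0 z z)))))))))))))))))))))) (n 1241 (n 0 z (n 0 z (n 0 z (n 0 z (n 0 z (n
 0 z (n 0 z (n 0 z (n 0 z (n 0 z (n 0 z (n 0 z (n 0 z (n 0 z (n 0 z (n 0 z (n 0 z (n 0 z (n 2 (n
 1 z (n 1 z (n 1 z z))) (n 0 z (n 0 z (n 0 z z)))))))))))))))))))))) (n 301 (n 0 z (n 0 z (n 0 z
 (n 0 z (n 0 z (n 0 z (n 0 z (n 0 z (n 0 z z))))))))) (n 301 (n 0 z (n 0 z (n 0 z (n 0 z (n 0 z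
 (n 0 z (n 0 z (n 0 z (n 0 z z))))))))) (n 301 (n 0 z (n 0 z (n 0 z (n 0 z (n 0 z (n 0 z (n 0 z
 (n 0 z (n 0 z z))))))))) z))))))) (n 0 (n 875 (n 0 z (n 0 z (n 0 z (n 0 z (n 0 z (n 0 z (n 0 z
 z))))))) (n 153 (n 0 z (n 0 z (n 0 z (n 0 z (n 0 z (n 0 z (n 0 z (n 2 (n 0 z (n 1 z (n 1 z (n 1
 z z)))) (n 0 z (n 0 z (n 0 z (n 0 z z)))))))))))) (n 153 (n 0 z (n 0 z (n 0 z (n 0 z (n 0 z (n
 0 z (n 0 z (n 0 z (n 0 z (n 0 z (n 0 z (n 0 z z)))))))))))) (n 745 (n 0 z (n 0 z (n 0 z (n 0 z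
 (n 0 z (n 0 z (n 0 z z))))))) (n 745 (n 2 (n 0 z z) (n 0 z (n 0 z (n 0 z (n 0 z (n 0 z (n 0 z
 z))))))) (n 745 (n 0 z (n 0 z (n 0 z (n 0 z (n 0 z (n 2 z (n 0 z z))))))) z)))))) (n 0 (n 1257
 (n 0 z (n 0 z (n 0 z (n 0 z (n 0 z (n 0 z (n 0 z z))))))) (n 1257 (n 0 z (n 0 z (n 0 z (n 0 z
 (n 0 z (n 0 z (n 0 z z))))))) (n 113 (n 0 z (n 0 z (n 0 z (n 0 z (n 0 z (n 0 z (n 0 z (n 0 z (n
 0 z (n 0 z z)))))))))) (n 113 (n 0 z (n 0 z (n 0 z (n 0 z (n 0 z (n 0 z (n 0 z (n 0 z (n 0 z (n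
 0 z z)))))))))) (n 113 (n 0 z (n 0 z (n 0 z (n 0 z (n 0 z (n 0 z (n 0 z (n 0 z (n 0 z (n 0 z
 z)))))))))) z))))) (n 0 (n 0 z (n 49 (n 0 z (n 0 z (n 0 z (n 0 z (n 0 z (n 0 z (n 0 z (n 0 z (n
 0 z (n 0 z (n 0 z (n 0 z (n 0 z (n 0 z z)))))))))))))) (n 49 (n 0 z (n 0 z (n 0 z (n 0 z (n 0 z
 (n 0 z (n 0 z (n 0 z (n 0 z (n 0 z (n 0 z (n 0 z (n 0 z (n 0 z z)))))))))))))) (n 49 (n 0 z (n
 0 z (n 0 z (n 0 z (n 0 z (n 0 z (n 0 z (n 0 z (n 0 z (n 0 z (n 0 z (n 0 z (n 0 z (n 0 z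
 z)))))))))))))) z)))) (n 0 (n 1 (n 0 z (n 0 z (n 0 z (n 0 z (n 0 z (n 0 z (n 0 z (n 0 z
 z)))))))) (n 1 (n 0 z (n 0 z (n 0 z (n 0 z (n 2 (n 0 z z) (n 0 z (n 0 z (n 0 z z)))))))) (n 1
 (n 0 z (n 0 z (n 0 z (n 0 z (n 0 z (n 0 z (n 0 z (n 2 z z)))))))) z))) (n 0 (n 0 z (n 0 z z))
 (n 0 (n 0 z z) (n 0 z z)))))))) (n 0 (n 0 z (n 0 z (n 0 z (n 1 (n 6496515 z (n 6496515 z (n
 6496515 z (n 6496515 z (n 6496515 z (n 6496515 z z)))))) z)))) (n 0 z z)))) (n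
 0x1b22ee2356ca0ca789c1929b08e275014ac8066880 (n 0 (n 153 (n 2 z (n 10 z (n 0 z (n 3282443 z (n
 6488603 z (n 18 z z)))))) (n 375 (n 26 z (n 6496515 z (n 0 z (n 0 z (n 0 z (n 34 z z)))))) (n
 373 (n 0 z (n 0 z (n 0 z (n 0 z (n 0 z (n 0 z (n 0 z (n 6496515 z (n 0 z z))))))))) (n 3 (n 42
 z (n
 0x2ca6a824078007ff8008008027fe7fc8038008057fd7ff8018017fb8077fc7ff8047fe7fd7fa8037fd8047fe8028007fd8018018068007ff8017fc8027f97ff8008028017fe8008057ff8047ff8008000811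
 z (n 0 z (n
 0xfb6108007ee8058247fb81e78883d81d83b81d81e7f57d181d7d17b88298828147c37e37a78287b97ef8087ee7ea7de7da82c7e18227ed7a08077d37b87e27d68457e082d80e8227cc8148617fe0051
 z (n 0 z (n 0 z (n 0 z (n 0 z (n 0 z (n 0 z (n 0 z (n 0 z (n 6496515 z (n 0 z (n 0 z (n 50 z (n
 6488603 z (n 0 z z)))))))))))))))))) (n 1 (n 0 z (n 0 z (n 6636307 z (n 0 z z)))) (n 0 (n 0 z
 (n 6636307 z (n
 0xac84c842037fb8038017f57fe7f58167fe8057fd7fd7f47fe7fc8098158027f97f47fb8087fe8067f380e7fa8017ff80880280a8048057f980a8117fc80580b8078127ff7fe7f47fb7fd80a7fa7ea7fd0811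
 z (n 0 z (n 6636307 z (n 0 z (n 0 z (n 0 z (n 0 z (n 0 z (n
 0xd94d0c480e010ca68204038017f87fe8038017ef80c8048068057f17f68087fd7fa8357ee7f67fc7f48037ed8117ea8197fa7fd7f27fd80c80881480d7f98158047ff7ef80580a8068017ff7f38107f88197f27e28041011
 z (n 58 z z)))))))))))) z)))))) (n 1 (n 0 (n 0 z (n 0 z (n 897 (n 0 z (n 2 (n 0 z (n 1 z (n 1 z
 (n 1 z z)))) (n 0 z (n 0 z (n 0 z (n 0 z (n 0 z (n 0 z (n 0 z (n 0 z (n 0 z (n 0 z (n 0 z (n 0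
 z (n 0 z (n 0 z (n 0 z (n 0 z (n 0 z (n 0 z (n 0 z (n 0 z z)))))))))))))))))))))) (n 897 (n 0 z
 (n 0 z (n 0 z (n 0 z (n 0 z (n 0 z (n 0 z (n 0 z (n 0 z (n 0 z (n 0 z (n 0 z (n 0 z (n 0 z (n 0
 z (n 0 z (n 0 z (n 0 z (n 0 z (n 0 z (n 0 z (n 0 z z)))))))))))))))))))))) (n 201 (n 0 z (n 0 z
 (n 0 z (n 0 z (n 0 z (n 0 z (n 2 (n 0 z (n 1 z z)) (n 0 z (n 0 z z))))))))) (n 201 (n 0 z (n 0
 z (n 0 z (n 0 z (n 0 z (n 0 z (n 0 z (n 0 z (n 0 z z))))))))) (n 289 (n 0 z (n 0 z (n 0 z z)))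
 z))))))) (n 0 (n 0 z (n 897 (n 0 z (n 0 z (n 0 z (n 0 z (n 0 z z))))) (n 897 (n 0 z (n 0 z (n 0
 z (n 0 z (n 0 z z))))) (n 251 (n 0 z (n 0 z (n 0 z (n 0 z z)))) (n 251 (n 0 z (n 0 z (n 0 z (n
 0 z z)))) (n 289 (n 0 z (n 0 z (n 0 z (n 0 z (n 0 z z))))) z)))))) (n 0 (n 871 (n 0 z (n 2 (n 0
 z (n 1 z (n 1 z (n 1 z z)))) (n 0 z (n 0 z (n 0 z (n 0 z (n 0 z (n 0 z (n 0 z (n 0 z (n 0 z (n
 0 z (n 0 z (n 0 z z)))))))))))))) (n 871 (n 0 z (n 0 z (n 0 z (n 0 z (n 0 z (n 0 z (n 0 z (n 0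
 z (n 0 z (n 0 z (n 0 z (n 0 z (n 0 z (n 0 z z)))))))))))))) (n 321 (n 0 z (n 0 z (n 0 z (n 0 z
 (n 0 z (n 0 z (n 0 z (n 0 z (n 0 z (n 0 z (n 0 z (n 0 z (n 2 (n 0 z (n 1 z z)) z)))))))))))))
 (n 321 (n 0 z (n 0 z (n 0 z (n 0 z (n 0 z (n 0 z (n 0 z (n 0 z (n 0 z (n 0 z (n 0 z (n 0 z (n 0
 z z))))))))))))) (n 865 (n 0 z (n 0 z (n 0 z (n 0 z (n 0 z (n 0 z (n 0 z (n 0 z z))))))))
 z))))) (n 0 (n 0 z (n 469 (n 0 z (n 0 z (n 0 z (n 0 z (n 0 z (n 0 z (n 0 z (n 0 z (n 0 z (n 0 z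
 (n 0 z (n 0 z (n 0 z (n 0 z (n 0 z (n 0 z (n 0 z (n 0 z (n 0 z (n 0 z (n 0 z
 z))))))))))))))))))))) (n 469 (n 0 z (n 0 z (n 0 z (n 0 z (n 0 z (n 0 z (n 0 z (n 0 z (n 0 z (n
 0 z (n 0 z (n 0 z (n 0 z (n 0 z (n 0 z (n 0 z (n 0 z (n 0 z (n 2 (n 1 z z) (n 0 z (n 0 z
 z))))))))))))))))))))) (n 749 (n 0 z (n 0 z (n 0 z (n 0 z (n 0 z (n 0 z (n 0 z (n 0 z (n 0 z (n
 0 z (n 0 z (n 0 z (n 0 z (n 0 z (n 0 z (n 0 z (n 0 z (n 0 z (n 0 z (n 0 z (n 0 z (n 0 z (n 0 z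
 (n 0 z (n 0 z (n 0 z (n 0 z (n 0 z (n 0 z (n 0 z (n 0 z (n 0 z (n 0 z (n 0 z (n 0 z (n 0 z (n 0
 z (n 0 z (n 0 z (n 0 z (n 0 z (n 0 z (n 0 z (n 0 z (n 0 z (n 0 z
 z)))))))))))))))))))))))))))))))))))))))))))))) z)))) (n 0 (n 1017 (n 0 z (n 0 z (n 0 z (n 2 (n
 0 z (n 1 z z)) (n 0 z (n 0 z (n 0 z (n 0 z z)))))))) (n 1017 (n 0 z (n 0 z (n 0 z (n 0 z (n 0 z
 (n 0 z (n 0 z (n 0 z z)))))))) (n 877 (n 0 z (n 0 z (n 0 z (n 0 z (n 0 z (n 0 z (n 0 z z)))))))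
 z))) (n 0 (n 0 z (n 241 (n 0 z (n 0 z (n 0 z (n 0 z (n 0 z (n 0 z (n 0 z (n 0 z (n 0 z (n 0 z
 (n 0 z (n 0 z (n 0 z (n 0 z (n 0 z (n 0 z (n 0 z (n 0 z (n 0 z (n 0 z (n 0 z (n 0 z (n 0 z (n 0
 z (n 0 z (n 0 z (n 0 z (n 0 z (n 0 z (n 0 z (n 0 z (n 0 z (n 0 z (n 0 z (n 0 z (n 0 z (n 0 z (n
 0 z (n 0 z (n 0 z (n 0 z (n 0 z (n 0 z (n 0 z (n 0 z (n 0 z (n 0 z (n 0 z (n 0 z (n 0 z (n 0 z
 (n 0 z (n 0 z (n 0 z (n 0 z (n 0 z z))))))))))))))))))))))))))))))))))))))))))))))))))))))))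
 z)) (n 0 (n 5 (n 0 z (n 0 z (n 0 z (n 0 z (n 0 z (n 0 z (n 0 z z))))))) z) (n 0 z z)))))))) (n
 0 (n 0 z (n 0 z (n 1 (n 6636307 z (n 6636307 z (n 6636307 z (n 6636307 z (n 6636307 z (n
 6636307 z z)))))) (n 0 z z)))) (n 0 z z)))) (n 0x10e7a826174839e8f2132990711843c99a264f1621 (n
 0 (n 407 (n 6561843 z (n 0 z (n 0 z (n 0 z z)))) (n 691 (n 0 z (n 6558475 z (n 2 z (n 0 z (n 0
 z (n 0 z z)))))) (n 403 (n 0 z (n 10 z (n 0 z (n 6427979 z (n 0 z (n 6427979 z (n 6427979 z (n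
 0 z (n 0 z (n
 0x2c86c8600382082082082081e8208208208208608208208608208208208208208208208208208208208200801 z
 (n 0x2ca8ca800382082081f82081f8208208208208208608208208208208208208208208208208208608208200801
 z (n 0 z (n
 0x50c58814060b29b28201c165165040384ca4a608070994944100e0b20b28180c064254030380c86c862031990950040e0329a98080c065243010182ca6c860030150d94800e0aa1b19001c564343100380ca48620077dc91b75d76579f6e37228608df7a68dd61fa638206e482189e71c72289c82585f7248608638001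
 z (n 0 z (n 0 z (n 0 z (n
 0x436517e282086085d8608a07e481e7e28218617a27a18a272292086285e8617dd7a18a085d7e181f0041 z (n 0 z
 (n 0x6c82c806038617a186182081e7df8227e081f85f8617e18de8608218208218618208217e081f86082081f0801
 z (n 0 z (n 0 z (n
 0x4c86c820038217e186182081f81f8217e08208608607e08df86182082282186179f82182181f8217df8200801 z
 (n 18 z (n
 0x436317e282086085d8608a07e481e7e28218617a27a18a272292086285e8617dd7a18a085d7e181f0041 z (n 0 z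
 (n 0 z (n 6636051 z (n 6427979 z (n
 0x2c82c8060382082081f7e081f8208208208208208207e08608208208208208208208208208208608608210801 z
 (n 0 z (n
 0x2ca8ca80038207e085f7e17e18208208208208208218208207e08208207e08218208208208218608208200801 z
 (n 0 z (n
 0x2c86c8200382082081f7e081f8208208208208208207e08608208208208208208208208208208608608210801 z
 (n 0 z (n
 0x2ca8c862078207df81f8208208218208208208208218208207e08208208608208208208208208218608210801 z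
 (n 0 z (n 0 z (n 6427979 z (n 0 z (n 0 z (n 26 z (n 0 z (n 0 z (n 34 z (n 0 z (n 0 z
 z)))))))))))))))))))))))))))))))))))))))))))))) (n 3 (n 0 z (n 6567195 z (n 0 z (n 0 z (n 0 z
 z))))) (n 1 (n 42 z (n 6561843 z (n 0 z (n 6636051 z (n 6561843 z (n 0 z (n 0 z (n 0 z (n 0 z
 (n 0 z (n 0 z (n 0 z (n 0 z (n 0 z (n 0 z (n 0 z (n 0 z z))))))))))))))))) (n 0 (n 50 z (n
 6636051 z (n 58 z z))) z)))))) (n 0 (n 0 (n 933 (n 0 z (n 0 z (n 0 z (n 0 z z)))) (n 933 (n 0 z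
 (n 0 z (n 0 z (n 0 z z)))) (n 933 (n 0 z (n 0 z (n 0 z (n 0 z z)))) (n 933 (n 0 z (n 0 z (n 0 z
 (n 0 z z)))) (n 809 (n 0 z (n 0 z (n 0 z (n 0 z (n 0 z z))))) (n 781 (n 0 z (n 0 z (n 0 z (n 0
 z (n 0 z (n 0 z z)))))) (n 781 (n 0 z (n 0 z (n 0 z (n 0 z (n 0 z (n 0 z z)))))) z))))))) (n 0
 (n 0 z (n 0 z (n 0 z (n 805 (n 0 z (n 0 z (n 0 z (n 0 z (n 0 z (n 2 (n 1 z (n 2 (n 0 z (n 0 (n
 8868147 z (n 8868147 z z)) (n 0 z (n 0 (n 8868147 z (n 8868147 z z)) (n 0 (n 8868147 z (n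
 8868147 z z)) (n 0 z z)))))) z)) z)))))) (n 341 (n 0 z (n 0 z (n 0 z (n 0 z (n 0 z (n 0 z (n 0
 z (n 0 z z)))))))) (n 341 (n 0 z (n 0 z (n 0 z (n 0 z (n 0 z (n 0 z (n 2 z (n 0 z z))))))))
 z)))))) (n 0 (n 0 z (n 0 z (n 941 (n 0 z (n 0 z (n 0 z (n 0 z (n 0 z (n 0 z (n 0 z z))))))) (n
 341 (n 0 z (n 0 z (n 0 z (n 0 z (n 0 z (n 0 z z)))))) (n 341 (n 0 z (n 0 z (n 0 z (n 0 z (n 0 z
 (n 0 z z)))))) z))))) (n 0 (n 0 z (n 809 (n 0 z (n 0 z (n 0 z (n 0 z (n 0 z (n 0 z (n 0 z (n 0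
 z (n 0 z (n 0 z (n 0 z (n 0 z (n 0 z (n 0 z (n 0 z (n 0 z (n 0 z (n 0 z (n 0 z (n 0 z (n 0 z (n
 0 z (n 0 z (n 0 z (n 0 z (n 0 z (n
 0x176576500382ca8ca800382082082082082082082082082081f8618208208208208207e08208208208208208208208201001
 z (n 0 z (n 0 z z))))))))))))))))))))))))))))) (n 341 (n 0 z (n 0 z (n 0 z (n 0 z (n 2 (n 0 z
 z) (n 0 z (n 0 z (n 0 z (n 0 z (n 0 z (n 0 z (n 0 z z)))))))))))) (n 341 (n 0 z (n 0 z (n 0 z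
 (n 0 z (n 0 z (n 0 z (n 0 z (n 0 z (n 0 z (n 0 z (n 0 z (n 0 z z)))))))))))) z)))) (n 0 (n 929
 (n 0 z (n 0 z (n 0 z (n 0 z (n 0 z (n 0 z (n 0 z (n 0 z (n 0 z (n 0 z (n 0 z (n 0 z (n 0 z
 z))))))))))))) (n 341 (n 0 z (n 0 z (n 0 z (n 0 z (n 0 z (n 0 z (n 0 z (n 0 z (n 0 z (n 0 z (n
 0 z (n 0 z z)))))))))))) (n 341 (n 0 z (n 0 z (n 0 z (n 0 z (n 0 z (n 0 z (n 0 z (n 0 z (n 0 z
 (n 0 z (n 0 z (n 0 z z)))))))))))) z))) (n 0 (n 1 (n 0 z (n 7754035 z (n 0 z (n 0 z (n 0 z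
 z))))) (n 1 (n 0 z (n 0 z (n 0 z (n 0 z (n 0 z z))))) z)) (n 0 (n 0 z z) (n 0 z z)))))))) (n 0
 (n 1 (n 5517667 z (n 3260 z (n 3260 z (n 3260 z (n 3260 z (n 3260 z z)))))) (n 1 (n 6636051 z
 (n 6636051 z (n 6636051 z (n 6636051 z (n 6636051 z (n 6636051 z z)))))) (n 1 (n 3260 z (n 3260
 z (n 6567195 z (n 6427979 z (n 3260 z (n 3260 z z)))))) z))) (n 0 z z)))) z)))))))))),
 by decide +kernel⟩
theorem i10835 : ∃ t, chkR KT RW t 10835 10845 = true := ⟨(n 0x6a6b6b50525d831 (n 0 (n 545 (n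
 6565923 z (n 0 z (n 0 z (n 0 z (n 0 z (n 0 z (n 0 z z))))))) (n 301 (n 0 z (n 2 z (n 0 z (n 0 z
 (n
 0x12ca6c860036f7c8b7489826f858384747d84859d95517d8a887789847a7e7d6d70a7a1688381797c816a7d99827783787d736c8b8a797f0809
 z (n 0 z (n 0 z (n
 0x994d94c00604ca4ca4003767f837e7f807c7f80827a7b7f848e8a6e7e88878284817e817d75758e90777c7d7e807c787d8a7f7b8382827d788487827d1009
 z (n 0 z (n 10 z (n 3278363 z (n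
 0xd95194c00e10ca6ca60037b7f827d817a7a8180847e8080818a8d74788684808280837e7d757b908e787d82817e7b7a7b8881798282807b778384807c1009
 z (n 0 z (n 0 z (n 0 z (n 0 z (n 0 z (n 0 z z)))))))))))))))))) (n 9 (n 0 z (n 0 z (n 6632003 z
 (n 0 z (n 0 z (n 0 z (n 0 z (n 0 z (n 0 z (n 0 z (n 0 z (n 0 z (n 0 z (n 0 z z)))))))))))))) (n
 3 (n 0 z (n 0 z (n 0 z (n 0 z (n 6565923 z (n 0 z (n 0 z (n 0 z (n 0 z (n 0 z (n 0 z (n 0 z (n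
 0 z (n 0 z (n 0 z (n 0 z z)))))))))))))))) (n 1 (n 0 z (n 6565923 z (n 0 z (n 0 z (n 0 z (n 0 z
 (n 0 z (n 0 z (n 0 z z))))))))) (n 0 (n 0 z (n 6632003 z (n 18 z (n 0 z (n 0 z (n 0 z (n
 0x321b19081c01a0800241080808080808080808080808080808080808080808080818080808080808080808080808080808080808080808080808080800889
 z (n 0 z (n 0 z z))))))))) z)))))) (n 545 (n 0 (n 0 z (n 601 (n 0 z (n 0 z (n 0 z (n 0 z (n 0 z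
 z))))) z)) (n 0 (n 893 (n 0 z (n 0 z (n 0 z (n 0 z (n 0 z (n 0 z (n 0 z (n 0 z (n 0 z (n 0 z (n
 0 z (n 0 z (n 0 z (n 0 z (n 0 z (n 0 z (n 0 z (n 0 z z)))))))))))))))))) z) (n 0 z z))) (n 0 (n
 1 (n 6565923 z (n 6565923 z (n 6565923 z (n 6565923 z (n 6565923 z (n 6565923 z z)))))) (n 0 z
 (n 0 z (n 0 z (n 0 z (n 0 z (n 0 z z))))))) (n 0 z z)))) (n 0x46192f3235519609 (n 0 (n 599 (n
 6557747 z (n 0 z (n 0 z (n 0 z (n 0 z (n 0 z (n 0 z (n 0 z z)))))))) (n 581 (n 0 z (n 6557747 z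
 (n 0 z (n 2 z (n 0 z (n 0 z (n 0 z z))))))) (n 9 (n 0 z (n 0 z (n 0 z (n 0 z (n 0 z (n 0 z (n 0
 z (n 0 z (n 0 z (n 0 z (n 0 z (n 0 z (n 3212843 z (n 0 z (n 0 z (n 0 z (n 0 z (n 10 z (n 0 z (n
 0 z z)))))))))))))))))))) (n 29 (n 0 z (n 0 z (n 18 z (n 6636291 z (n 0 z (n 0 z (n 0 z (n 0 z
 z)))))))) (n 1 (n 6636291 z (n 0 z (n 0 z (n 0 z z)))) (n 0 (n 0 z (n 0 z (n 0 z (n 0 z (n
 6636291 z (n 0 z z)))))) z)))))) (n 1 (n 0 (n 259 (n 0 z (n 0 z (n 0 z (n 0 z (n 0 z (n 0 z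
 z)))))) (n 7 (n 0 z (n 0 z (n 0 z (n 0 z (n 0 z z))))) z)) (n 0 (n 1157 (n 7745603 z (n 0 z (n
 0 z (n 0 z (n 0 z (n 0 z (n 0 z (n 0 z (n 0 z (n 0 z (n 0 z (n 0 z (n 0 z (n 0 z (n 0 z
 z))))))))))))))) z) (n 0 z z))) (n 0 (n 1 (n 6636291 z (n 6636291 z (n 6636291 z (n 6636291 z
 (n 6636291 z (n 6636291 z z)))))) (n 0 z (n 0 z (n 0 z z)))) (n 0 z z)))) (n
 0x215d91283544a11225308971066b5a80932c0 (n 0 (n 573 (n 6496339 z (n 2 z (n 0 z (n 6554139 z (n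
 6554139 z (n 10 z (n 0 z (n 0 z z)))))))) (n 437 (n 0 z (n 0 z (n 0 z (n 0 z (n 0 z (n 0 z (n
 18 z (n 3278363 z (n 0 z (n 3278363 z (n 26 z (n 0 z (n 0 z (n 0 z (n 0 z (n 0 z (n 0 z (n 0 z
 (n 0 z (n 0 z (n 0 z (n 0 z (n 0 z (n 0 z (n 0 z z))))))))))))))))))))))))) (n 433 (n 34 z (n 0
 z (n 42 z (n 0 z (n 6496339 z (n 0 z z)))))) (n 27 (n 0 z (n 6636323 z (n 0 z (n 0 z (n 0 z (n
 0 z z)))))) (n 1 (n 6636323 z (n 50 z (n 0 z (n 0 z (n 0 z (n 0 z (n 0 z (n 6554139 z z))))))))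
 (n 0 (n 0 z (n 0 z (n 6636323 z (n 6636323 z (n 6636323 z (n
 0x3b6306678ed9e1299a5e5df65e8d8866a5d7e47e17e8adf9539133e765fa675a349685f79e9e26eb0041 z (n 0 z
 (n 0 z (n 0 z z))))))))) z)))))) (n 433 (n 0 (n 0 z (n 1115 (n 0 z (n 0 z (n 0 z (n 0 z (n 0 z
 (n 0 z (n 0 z (n 0 z (n 2 (n 0 z (n 1 z (n 1 z (n 1 z z)))) (n 0 z (n 0 z (n 0 z (n 0 z (n 0 z
 (n 0 z (n 0 z (n 0 z (n 0 z (n 0 z (n 0 z (n 0 z (n 0 z (n 0 z (n 0 z (n 0 z (n 0 z (n 0 z (n 0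
 z z)))))))))))))))))))))))))))) (n 1115 (n 0 z (n 0 z (n 0 z (n 0 z (n 0 z (n 0 z (n 0 z (n 0 z
 (n 0 z (n 0 z (n 0 z (n 0 z (n 0 z (n 0 z (n 0 z (n 0 z (n 0 z (n 0 z (n 0 z (n 0 z (n 0 z (n 0
 z (n 0 z (n 0 z (n 0 z (n 0 z (n 0 z (n 0 z z)))))))))))))))))))))))))))) (n 1113 (n 0 z (n 0 z
 (n 0 z (n 0 z (n 0 z (n 0 z (n 0 z (n 0 z (n 0 z (n 0 z (n 0 z (n 0 z (n 0 z (n 0 z (n 0 z (n 0
 z (n 0 z (n 0 z (n 0 z (n 0 z (n 0 z (n 0 z (n 0 z (n 0 z (n 0 z (n 0 z (n 0 z (n 0 z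
 z)))))))))))))))))))))))))))) (n 1113 (n 0 z (n 0 z (n 0 z (n 0 z (n 0 z (n 0 z (n 0 z (n 0 z
 (n 0 z (n 0 z (n 0 z (n 0 z (n 0 z (n 0 z (n 0 z (n 0 z (n 0 z (n 0 z (n 0 z (n 0 z (n 0 z (n 0
 z (n 0 z (n 0 z (n 0 z (n 0 z (n 0 z (n 0 z z)))))))))))))))))))))))))))) (n 489 (n 0 z (n 0 z
 (n 0 z (n 0 z (n 0 z (n 0 z (n 0 z (n 0 z (n 0 z (n 0 z (n 0 z (n 6358875 z (n 0 z (n 0 z (n 0
 z (n 0 z (n 0 z (n 0 z (n 0 z (n 0 z (n 0 z (n 0 z (n 0 z (n 0 z (n 0 z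
 z))))))))))))))))))))))))) z)))))) (n 0 (n 875 (n 0 z (n 0 z (n 0 z (n 0 z (n 0 z (n 0 z (n 0 z
 (n 0 z z)))))))) (n 875 (n 0 z (n 0 z (n 0 z (n 0 z (n 0 z (n 0 z (n 0 z (n 0 z z)))))))) (n
 867 (n 0 z (n 0 z (n 0 z (n 0 z (n 0 z (n 0 z (n 0 z (n 0 z (n 0 z (n 0 z (n 0 z (n 0 z (n 0 z
 (n 0 z (n 0 z (n 0 z (n 0 z (n 0 z (n 0 z (n 0 z z)))))))))))))))))))) (n 867 (n 0 z (n 0 z (n
 0 z (n 0 z (n 0 z (n 2 (n 1 z z) (n 0 z (n 0 z (n 0 z (n 0 z (n 0 z (n 0 z (n 0 z (n 0 z (n 0 z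
 (n 0 z (n 0 z (n 0 z (n 0 z (n 0 z z)))))))))))))))))))) (n 309 (n 0 z (n 0 z (n 0 z (n 0 z (n
 0 z (n 0 z (n 0 z (n 0 z (n 0 z (n 0 z (n 0 z (n 0 z (n 0 z z))))))))))))) z))))) (n 0 (n 0 z
 (n 873 (n 0 z (n 0 z (n 0 z (n 0 z (n 0 z (n 0 z (n 0 z (n 0 z (n 0 z (n 0 z (n 0 z (n 0 z (n 0
 z (n 0 z (n 0 z (n 0 z (n 0 z (n 0 z (n 0 z (n 0 z (n 0 z (n 0 z (n 0 z (n 0 z (n 0 z (n 0 z (n
 0 z (n 0 z (n 0 z (n 0 z (n 0 z (n 0 z (n 0 z (n 0 z (n 0 z (n 0 z (n 0 z (n 0 z (n 0 z (n 0 z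
 (n 0 z (n 0 z (n 0 z (n 0 z (n 0 z (n 0 z (n 0 z (n 0 z (n 0 z (n 0 z (n 0 z
 z))))))))))))))))))))))))))))))))))))))))))))))))))) (n 873 (n 0 z (n 0 z (n 0 z (n 0 z (n 0 z
 (n 0 z (n 0 z (n 0 z (n 0 z (n 0 z (n 0 z (n 0 z (n 0 z (n 0 z (n 0 z (n 0 z (n 0 z (n 0 z (n 0
 z (n 0 z (n 0 z (n 7754291 z (n 0 z (n 0 z (n 0 z (n 0 z (n 0 z (n 0 z (n 0 z (n 0 z (n 0 z (n
 0 z (n 0 z (n 0 z (n 0 z (n 0 z (n 0 z (n 0 z (n 0 z (n 0 z (n 0 z (n 0 z (n 0 z (n 0 z (n 0 z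
 (n 0 z (n 0 z (n 0 z (n 0 z (n 0 z (n 0 z z)))))))))))))))))))))))))))))))))))))))))))))))))))
 (n 483 (n 0 z (n 0 z (n 0 z (n 0 z (n 0 z (n 0 z (n 0 z (n 6358875 z (n 0 z (n 0 z (n 0 z (n 0
 z (n 0 z (n 0 z (n 0 z (n 0 z (n 0 z (n 0 z (n 0 z (n 0 z (n 0 z (n 0 z (n 0 z (n 0 z (n 0 z
 z))))))))))))))))))))))))) z)))) (n 0 (n 429 (n 0 z (n 0 z (n 0 z (n 0 z (n 0 z (n 0 z (n 0 z
 (n 0 z (n 0 z (n 0 z z)))))))))) (n 429 (n 0 z (n 0 z (n 0 z (n 0 z (n 0 z (n 7742795 z (n 0 z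
 (n 0 z (n 0 z (n 0 z z)))))))))) (n 51 (n 0 z (n 0 z (n 0 z (n 0 z (n 0 z (n 0 z (n 0 z (n 0 z
 (n 0 z (n 0 z (n 2 z (n 0 z (n 0 z (n 0 z (n 0 z (n 0 z (n 0 z (n 0 z (n 0 z (n 0 z (n 0 z (n 0
 z (n 0 z (n 0 z (n 0 z (n 0 z (n 0 z (n 0 z z)))))))))))))))))))))))))))) z))) (n 0 (n 0 z (n
 15 (n 0 z (n 0 z (n 2 z (n 0 z (n 0 z (n 0 z (n 0 z (n 0 z (n 0 z (n 0 z z)))))))))) z)) (n 0
 (n 21 (n 0 z (n 0 z (n 0 z (n 0 z (n 0 z (n 0 z (n 0 z (n 0 z (n 0 z (n 0 z (n 0 z z)))))))))))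
 z) (n 0 z z))))))) (n 0 (n 1 (n 4588 z (n 4588 z (n 4588 z (n 6636323 z (n 4588 z (n 4588 z
 z)))))) (n 0 z (n 1 (n 4588 z (n 4588 z (n 4588 z (n 6636323 z (n 4588 z (n 6554139 z z))))))
 (n 0 z (n 1 (n 6496339 z (n 6496339 z (n 6496339 z (n 6636323 z (n 6496339 z (n 6496339 z
 z)))))) (n 0 z z)))))) (n 0 z z)))) (n 0x1298aa19e90942244a6112e20cab9e01ca600932c0 (n 0 (n 573
 (n 6496339 z (n 2 z (n 0 z (n 10 z (n 6554139 z (n 0 z (n 18 z (n 0 z (n 6554139 z z)))))))))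
 (n 437 (n 0 z (n 0 z (n 0 z (n 0 z (n 0 z (n 0 z (n 26 z (n 0 z (n 0 z (n 3278363 z (n 34 z (n
 0 z (n 0 z (n 0 z (n 0 z (n 0 z (n 0 z (n 0 z (n 0 z (n 0 z (n 0 z (n 0 z (n 0 z (n 0 z (n 0 z
 z))))))))))))))))))))))))) (n 433 (n 42 z (n 0 z (n 6496339 z z))) (n 27 (n 0 z (n 6636323 z
 z)) (n 1 (n 0 z (n 6636323 z (n 50 z (n 0 z (n 0 z (n 0 z z)))))) (n 0 (n 0 z (n 0 z (n 0 z (n
 6636323 z (n 6636323 z (n 58 z (n 0 z (n 0 z (n 0 z z))))))))) z)))))) (n 27 (n 0 (n 0 z (n 0 z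
 (n 1115 (n 0 z (n 0 z (n 0 z (n 0 z (n 0 z (n 0 z (n 0 z (n 0 z (n 2 (n 0 z (n 1 z (n 1 z (n 1
 z z)))) (n 0 z (n 0 z (n 0 z (n 0 z (n 0 z (n 0 z (n 0 z (n 0 z (n 0 z (n 0 z (n 0 z (n 0 z (n
 0 z (n 0 z (n 0 z (n 0 z (n 0 z (n 0 z (n 0 z z)))))))))))))))))))))))))))) (n 1115 (n 0 z (n 0
 z (n 0 z (n 0 z (n 0 z (n 0 z (n 0 z (n 0 z (n 0 z (n 0 z (n 0 z (n 0 z (n 0 z (n 0 z (n 0 z (n
 0 z (n 0 z (n 0 z (n 0 z (n 0 z (n 0 z (n 0 z (n 0 z (n 0 z (n 0 z (n 0 z (n 0 z (n 0 z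
 z)))))))))))))))))))))))))))) (n 1113 (n 0 z (n 0 z (n 0 z (n 0 z (n 0 z (n 0 z (n 0 z (n 0 z
 (n 0 z (n 0 z (n 0 z (n 0 z (n 0 z (n 0 z (n 0 z (n 0 z (n 0 z (n 0 z (n 0 z (n 0 z (n 0 z (n 0
 z (n 0 z (n 0 z (n 0 z (n 0 z (n 0 z (n 0 z (n 0 z (n 0 z (n 0 z (n 0 z
 z)))))))))))))))))))))))))))))))) (n 489 (n 0 z (n 0 z (n 0 z (n 0 z (n 0 z (n 0 z (n 0 z (n 0
 z (n 0 z (n 0 z (n 0 z (n 0 z (n 0 z (n 0 z (n 0 z (n 0 z (n 0 z (n 0 z (n 0 z (n 0 z (n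
 6358875 z (n 0 z z)))))))))))))))))))))) (n 485 (n 0 z (n 0 z (n 0 z (n 0 z (n 0 z (n 0 z (n 0
 z (n 0 z (n 0 z (n 0 z (n 0 z (n 0 z (n 0 z (n 0 z (n 0 z (n 0 z (n 0 z (n 0 z (n 0 z (n 0 z (n
 0 z (n 0 z (n 0 z (n 0 z (n 0 z (n 0 z (n 0 z (n 0 z (n 0 z (n 0 z (n 0 z (n 0 z (n 0 z (n
 0xa65d91d84c0e0000b2ea4c826030012a4743741201800050ba9a18901c001119d0d0c480e0099b2e86e862030004d9764643103800296ba1ba1081c0007ddcc9cc840e00008eecac642030011ff743432101800074baa218081c006705d0d0c0406003142e828620030000230037120b1000023d763009d016ec601331e9d8c024d34bb180494c87638036f07ff6fe8005f07fb2917fcd428011248078248021db7fc1568015b88011958011578018ab800f927fdb328026ca800b607fdbf57fd802800adc800f6d7ff9ae7ff0b37ff9057fdf887fd4c67fe7918029797fc34a803cb68005b080541280514b7fedd58034308003927fdc0c7ff96e8017eb80036280447a8018647fd5077fe697800d1f8013437fcccf7fe6948009567fd15c7959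
 z (n 0 z (n 0 z (n 0 z (n 0 z (n 0 z (n 0 z (n 0 z (n 0 z (n 0 z (n 0 z (n 0 z (n 0 z (n 0 z (n
 0 z (n 0 z (n 0 z (n 0 z z))))))))))))))))))))))))))))))))))))))))))))))))))) z))))))) (n 0 (n
 0 z (n 1149 (n 0 z (n 0 z (n 0 z (n 0 z (n 0 z (n 0 z (n 0 z z))))))) (n 1149 (n 0 z (n 2 (n 1
 z (n 1 z (n 1 z z))) (n 0 z (n 0 z (n 0 z (n 0 z (n 0 z z))))))) (n 1145 (n 0 z (n 0 z (n 0 z
 (n 0 z (n 0 z (n 0 z (n 0 z (n 0 z (n 0 z (n 0 z (n 0 z (n 0 z (n 0 z (n 0 z z)))))))))))))) (n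
 489 (n 0 z (n 0 z (n 0 z (n 0 z (n 0 z (n 0 z (n 0 z (n 0 z (n 0 z (n 0 z (n 0 z (n 0 z (n
 0x16bb1000002c7628000057ffffb8000007ffff97ffffc80000180000c8000067ffff98000018000038000038000038000017ffffc8000058000027ffffb7ffffb8000018000007ffffe7fffff8000008000017ffffb7ffffd8000027ffff88000088000018000058000077ffffc8000017ffffe7ffffd7ffffc8000027ffffd80000b8000077ffffb8000017fffff8000037ffffd7ffffc8000027ffffb0099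
 z (n 0 z z)))))))))))))) (n 485 (n 0 z (n 0 z (n 0 z (n 0 z (n 0 z (n 0 z (n 0 z z)))))))
 z)))))) (n 0 (n 1149 (n 0 z (n 0 z (n 0 z (n 0 z (n 0 z z))))) (n 1149 (n 0 z (n 0 z (n 0 z (n
 0 z (n 0 z z))))) (n 1145 (n 0 z (n 0 z (n 0 z (n 0 z (n 0 z (n 0 z (n 0 z (n 0 z z)))))))) (n
 303 (n 0 z (n 0 z (n 0 z (n 0 z (n 0 z (n 0 z (n 0 z (n 0 z (n 0 z (n 0 z (n 0 z (n 0 z (n 0 z
 (n 0 z (n 0 z (n 0 z (n 0 z (n 0 z (n 0 z z))))))))))))))))))) (n 881 (n 0 z (n 0 z (n 0 z (n 0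
 z (n 0 z z))))) z))))) (n 0 (n 0 z (n 873 (n 0 z (n 0 z (n 0 z (n 0 z (n 0 z (n 0 z (n 0 z (n 0
 z (n 0 z (n 0 z (n 0 z (n 0 z (n 0 z (n 0 z (n 0 z (n 0 z (n 0 z (n 0 z (n 0 z (n 0 z (n 0 z (n
 0 z (n 0 z (n 0 z (n 0 z (n 0 z (n 0 z (n 0 z (n 0 z (n 0 z (n 0 z (n 0 z (n 0 z (n 0 z (n 0 z
 (n 0 z (n 0 z (n 0 z (n 0 z (n 0 z (n 0 z (n 0 z (n 0 z (n 0 z (n 0 z (n 0 z (n 0 z (n 0 z (n 0
 z (n 0 z (n 0 z z))))))))))))))))))))))))))))))))))))))))))))))))))) (n 483 (n 0 z (n 0 z (n 0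
 z (n 0 z (n 0 z (n 0 z (n 0 z (n 0 z (n 0 z (n 6358875 z (n 0 z (n 0 z (n 0 z (n 0 z (n 0 z (n
 0 z (n 0 z (n 0 z (n 0 z (n 0 z (n 0 z (n 0 z (n 0 z (n 0 z (n 0 z z)))))))))))))))))))))))))
 (n 481 (n 0 z (n 0 z (n 0 z (n 0 z (n 0 z (n 0 z (n 0 z (n 0 z (n 0 z (n 0 z (n 0 z (n 0 z (n 0
 z (n 0 z (n 0 z (n 0 z (n 0 z (n 0 z (n 0 z (n 0 z (n 0 z (n 0 z (n 0 z (n 0 z (n 0 z (n 0 z (n
 0 z (n 0 z (n 0 z (n 0 z (n 0 z (n 0 z (n 0 z (n 0 z (n 0 z (n 0 z (n 0 z (n 0 z (n 0 z (n 0 z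
 (n 0 z (n 0 z (n 0 z (n 0 z (n 0 z (n 0 z (n 0 z (n 0 z (n 0 z (n 0 z (n 0 z
 z))))))))))))))))))))))))))))))))))))))))))))))))))) z)))) (n 0 (n 429 (n 0 z (n 0 z (n 0 z (n
 0 z (n 0 z (n 0 z (n 0 z (n 0 z (n 0 z (n 0 z z)))))))))) (n 51 (n 0 z (n 0 z (n 0 z (n 0 z (n
 0 z (n 0 z (n 0 z (n 0 z (n 0 z (n 0 z (n 0 z (n 2 (n 1 z z) (n 0 z (n 0 z (n 0 z (n 0 z (n 0 z
 (n 0 z (n 0 z (n 0 z (n 0 z (n 0 z (n 0 z (n 0 z (n 0 z (n 0 z (n 0 z (n 0 z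
 z)))))))))))))))))))))))))))) (n 1033 (n 0 z (n 0 z (n 0 z (n 0 z (n 0 z (n 0 z (n 0 z (n 0 z
 (n 0 z (n 0 z (n 0 z (n 0 z z)))))))))))) z))) (n 0 (n 15 (n 0 z (n 0 z (n 0 z (n 2 (n 1 z z)
 (n 0 z (n 0 z (n 0 z (n 0 z (n 0 z (n 0 z z)))))))))) (n 1129 (n 0 z (n 0 z (n 0 z (n 0 z (n 0
 z (n 0 z (n 0 z (n 0 z (n 0 z (n 0 z (n 0 z (n 0 z z)))))))))))) z)) (n 0 (n 1 (n 0 z (n 0 z (n
 0 z (n 0 z (n 0 z (n 0 z (n 0 z (n 0 z (n 0 z (n 0 z (n 0 z z))))))))))) z) (n 0 z z)))))))) (n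
 0 (n 0 z (n 1 (n 6636323 z (n 6636323 z (n 6636323 z (n 6636323 z (n 6636323 z (n 6636323 z
 z)))))) z)) (n 0 z z)))) (n
 0x3462a1151504b6ac05b5189099086d36c42594c46a121a4650e28904542584612d80dc840 (n 0x212da (n 575
 (n 0 z (n 0 z (n 6492243 z (n 2 z (n 0 z (n 0 z (n 0 z (n 10 z (n 0 z (n 0 z z)))))))))) (n 435
 (n 18 z (n 6492243 z z)) (n 436 (n
 0x256508217db8217e28a28a176181f86271f81e8228627e181f8228e07e476681d92171f85d8697a00041 z (n 0 z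
 (n 0 z (n 26 z (n 0 z (n 34 z (n 0 z (n 0 z (n 42 z (n 0 z (n 0 z (n 3212843 z (n 0 z (n 50 z
 (n 0 z (n
 0x18ca80c6538267179208dd99f96276b85b89d61e6dc7eb8df8247639218db9216a26288e47289de8228980081 z
 (n 0xca8ca82078208208607e082081f8607df8618208208208218617df8607e08208207e081f7e086281f8210801 z
 (n 0xca6ca620782082082182082081f85f8208608208208208218618208608208208208217df7e08208207e00801 z
 (n 0 z (n 0 z (n 0 z z))))))))))))))))))))) (n 3 (n 0 z (n 0 z (n 0 z (n 58 z (n 66 z (n 0 z (n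
 0 z (n 6636307 z z)))))))) (n 1 (n 6636307 z (n 74 z (n 82 z z))) (n 0 (n 90 z (n 98 z (n
 0x2c64c6420782181f8a082082181f85f7df8617e08208208218617df86081f82182081f81f7e086181f8210801 z
 (n 106 z (n 6636307 z (n 6636307 z (n
 0x18c620c6308267179208dd99f96276b85b89d61e6dc7eb8df8247639218db9216a26288e47289de8228980081 z
 (n 0 z (n
 0x1c6408207e082181f85f85f85f81f8207e18218608208a27e085f8a08628617a281d7e085f85c8610041 z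
 z))))))))) z)))))) (n 435 (n 0 (n 0 z (n 1115 (n 0 z (n 0 z (n 0 z (n 0 z (n 0 z (n 0 z (n 0 z
 (n
 0xa6bb188c7637d788087867a7780848d7a81808e7b808177738081777e8d7d78867a848683a189748c977d957c7c828f898274846d7a7e8e0089
 z (n 2 (n 2 (n 0 z (n 0 z (n 0 z (n 0 z (n 0 z (n 0 z z)))))) (n 2 (n 0 z (n 0 z (n 0 z (n 0 z
 (n 0 z (n 0 z z)))))) (n 2 (n 0 z (n 0 z (n 0 z (n 0 z (n 0 z (n 0 z z)))))) (n 2 (n 0 z (n 0 z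
 (n 0 z (n 0 z (n 0 z (n 0 z z)))))) (n 1 z (n 2 (n 0 z (n 0 z (n 0 z (n 0 z (n 0 z (n 0 z
 z)))))) (n 2 (n 0 z (n 0 z (n 0 z (n 0 z (n 0 z (n 0 z z)))))) (n 2 (n 0 z (n 0 z (n 0 z (n 0 z
 (n 0 z (n 0 z z)))))) (n 2 (n 0 z (n 0 z (n 0 z (n 0 z (n 0 z (n 0 (n 8852539 z z) z)))))) (n 2
 (n 0 z (n 0 z (n 0 z (n 0 z (n 0 z (n 0 z z)))))) (n 2 (n 0 z (n 0 z (n 0 z (n 0 z (n 0 z (n 0
 z z)))))) z))))))))))) (n 0 z (n 0 z (n 0 z (n 0 z (n 0 z (n 0 z (n 0 z (n 0 z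
 z))))))))))))))))) (n 1113 (n 0 z (n 2 (n 0 z (n 0 z (n 0 z (n 2 (n 0 z (n 0 z (n 0 z (n 0 z (n
 0 z (n 0 z z)))))) (n 2 (n 0 z (n 0 z (n 0 z (n 0 z (n 0 z (n 0 z z)))))) (n 2 (n 0 z (n 0 z (n
 0 z (n 0 z (n 0 z (n 0 z z)))))) (n 2 (n 0 z (n 0 z (n 0 z (n 0 z (n 0 z (n 0 z z)))))) (n 2 (n
 0 z (n 0 z (n 0 z (n 0 z (n 0 z (n 0 z z)))))) (n 2 (n 0 z (n 0 z (n 0 z (n 0 z (n 0 z (n 0 z
 z)))))) (n 2 (n 0 z (n 0 z (n 0 z (n 0 z (n 0 z (n 0 z z)))))) z)))))))))) (n 0 z (n 0 z (n 0 z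
 (n 0 z (n 0 z (n 0 z (n 0 z (n 0 z (n 0 z (n 0 z (n 0 z (n 0 z (n 0 z z))))))))))))))) (n 1113
 (n 0 z (n 0 z (n 0 z (n 2 (n 0 z (n 0 z (n 1 z (n 1 z (n 1 z (n 1 z (n 1 z (n 2 (n 0 z (n 0 z
 (n 0 z (n 0 z (n 0 z (n 0 z z)))))) (n 2 (n 0 z (n 0 z (n 0 z (n 0 z (n 0 z (n 0 z z))))))
 z))))))))) (n 0 z (n 0 z (n 0 z (n 0 z (n 0 z (n 0 z (n 0 z (n 0 z (n 0 z (n 0 z (n 0 z
 z))))))))))))))) (n 1113 (n 0 z (n 0 z (n 0 z (n 0 z (n 2 (n 0 z (n 1 z (n 2 (n 0 z (n 0 z (n 0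
 z (n 0 z (n 0 z (n 0 z z)))))) (n 2 (n 0 z (n 0 z (n 0 z (n 0 z (n 0 z (n 0 z z)))))) (n 2 (n 0
 z (n 0 z (n 0 z (n 0 z (n 0 z (n 0 z z)))))) (n 2 (n 0 z (n 0 z (n 0 z (n 0 z (n 0 z (n 0 (n
 8852539 z z) z)))))) (n 2 (n 0 z (n 0 z (n 0 z (n 0 z (n 0 z (n 0 z z)))))) (n 2 (n 0 z (n 0 z
 (n 0 z (n 0 z (n 0 z (n 0 z z)))))) z)))))))) (n 0 z (n 0 z (n 0 z (n 0 z (n 0 z (n 0 z (n 0 z
 (n 0 z (n 0 z (n 0 z z))))))))))))))) (n 1113 (n 0 z (n 0 z (n 0 z (n 0 z (n 0 z (n 0 z (n 2 (n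
 1 z (n 1 z (n 1 z (n 1 z (n 1 z (n 2 (n 0 z (n 0 z (n 0 z (n 0 z (n 0 z (n 0 z z)))))) (n 2 (n
 0 z (n 0 z (n 0 z (n 0 z (n 0 z (n 0 z z)))))) z))))))) (n 0 z (n 0 z (n 0 z (n 0 z (n 0 z (n 0
 z (n 0 z (n 0 z z))))))))))))))) (n 247 (n 0 z (n 0 z (n 0 z (n 0 z (n 0 z (n 0 z (n 0 z (n 0 z
 z)))))))) (n 247 (n 0 z (n 0 z (n 0 z (n 2 (n 1 z (n 1 z (n 1 z (n 2 (n 0 z (n 0 z (n 0 z (n 0
 z (n 0 z (n 0 z z)))))) (n 2 (n 0 z (n 0 z (n 0 z (n 0 z (n 0 z (n 0 z z)))))) z))))) (n 0 z (n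
 0 z (n 0 z (n 0 z z)))))))) (n 249 (n 0 z (n 0 z (n 0 z (n 0 z (n 0 z (n 0 z (n 0 z (n 0 z (n 0
 z (n 0 z (n 0 z (n 0 z (n 0 z (n 0 z (n 0 z (n 0 z (n 0 z (n 0 z z)))))))))))))))))) (n 249 (n
 0 z (n
 0xa6bb188c7637d788087867a7780848d7a81808e7b808177738081777e8d7d78867a848683a189748c977d957c7c828f898274846d7a7e8e0089
 z (n 2 (n 1 z (n 2 (n 0 z (n 0 z (n 0 z (n 0 z (n 0 z (n 0 z z)))))) (n 2 (n 0 z (n 0 z (n 0 z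
 (n 0 z (n 0 z (n 0 z z)))))) z))) (n 0 z (n 0 z (n 0 z (n 0 z (n 0 z (n 0 z (n 0 z (n 0 z (n 0
 z (n 0 z (n 0 z (n 0 z (n 0 z (n 0 z (n 0 z z)))))))))))))))))) (n 245 (n 2 (n 0 z (n 0 z z))
 (n 0 z (n 0 z (n 0 z (n 0 z (n 0 z (n 0 z (n 0 z (n 0 z (n 0 z (n 0 z (n 0 z (n 0 z (n 0 z (n 0
 z (n 0 z (n 0 z (n 0 z (n 0 z (n 0 z (n 0 z (n 0 z z)))))))))))))))))))))) (n 245 (n 0 z (n 0 z
 (n 0 z (n 0 z (n 0 z (n 0 z (n 0 z (n 0 z (n 0 z (n 0 z (n 0 z (n 0 z (n 0 z (n 0 z (n 0 z (n 0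
 z (n 0 z (n 0 z (n 0 z (n 0 z (n 0 z (n 0 z z)))))))))))))))))))))) (n 245 (n 0 z (n 0 z (n 0 z
 (n 0 z (n 0 z (n 0 z (n 0 z (n 0 z (n 0 z (n 0 z (n 0 z (n 0 z (n 0 z (n 0 z (n 0 z (n 0 z (n 0
 z (n 0 z (n 0 z (n 0 z (n 0 z (n 0 z z)))))))))))))))))))))) z))))))))))))) (n 0 (n 127 (n 0 z
 (n 0 z (n 0 z (n 0 z (n 0 z (n 0 z (n 0 z (n 0 z (n 0 z (n 0 z (n 0 z (n 0 z (n 0 z (n 0 z (n 0
 z (n 0 z (n 0 z (n 0 z (n 0 z (n 0 z (n 0 z (n 0 z (n 0 z (n 0 z (n 0 z (n 0 z (n 0 z (n 0 z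
 z)))))))))))))))))))))))))))) (n 993 (n 0 z (n 0 z (n 0 z (n 0 z (n 0 z (n 0 z (n 0 z (n 0 z (n
 0 z (n 0 z (n 0 z (n 0 z (n 0 z (n 0 z (n 0 z (n 0 z (n 0 z (n 0 z (n 0 z (n 0 z (n 0 z (n 0 z
 z)))))))))))))))))))))) (n 993 (n 0 z (n 0 z (n 0 z (n 0 z (n 0 z (n 0 z (n 0 z (n 0 z (n 0 z
 (n 0 z (n 0 z (n 0 z (n 0 z (n 0 z (n 0 z (n 0 z (n 0 z (n 0 z (n 0 z (n 0 z (n 0 z (n 0 z
 z)))))))))))))))))))))) (n 993 (n 0 z (n 0 z (n 0 z (n 0 z (n 0 z (n 0 z (n 0 z (n 0 z (n 0 z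
 (n 0 z (n 0 z (n 0 z (n 0 z (n 0 z (n 0 z (n 0 z (n 0 z (n 0 z (n 0 z (n 0 z (n 0 z (n 0 z
 z)))))))))))))))))))))) (n 993 (n 0 z (n 0 z (n 0 z (n 0 z (n 0 z (n 0 z (n 0 z (n 0 z (n 0 z
 (n 2 (n 1 z (n 1 z (n 1 z (n 1 z (n 1 z (n 2 (n 0 z (n 0 z (n 0 z (n 0 z (n 0 z (n 0 z z))))))
 (n 2 (n 0 z (n 0 z (n 0 z (n 0 z (n 0 z (n 0 z z)))))) z))))))) (n 0 z (n 0 z (n 0 z (n 0 z (n
 0 z (n 0 z (n 0 z (n 0 z (n 0 z (n 0 z (n 0 z (n 0 z z)))))))))))))))))))))) (n 997 (n 0 z (n 0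
 z (n 0 z (n 2 (n 0 z (n 1 z (n 1 z (n 1 z (n 2 (n 0 z (n 0 z (n 0 z (n 0 z (n 0 z (n 0 z
 z)))))) (n 2 (n 0 z (n 0 z (n 0 z (n 0 z (n 0 z (n 0 (n 500 z z) z)))))) z)))))) (n 0 z (n 0 z
 (n 0 z (n 0 z z)))))))) (n 997 (n 0 z (n 0 z (n 0 z (n 0 z (n 0 z (n 0 z (n 0 z (n 0 z
 z)))))))) (n 111 (n 0 z (n 0 z (n 0 z (n 0 z (n 0 z (n
 0xa6bb188c7637d788087867a7780848d7a81808e7b808177738081777e8d7d78867a848683a189748c977d957c7c828f898274846d7a7e8e0089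
 z (n 2 (n 0 z (n 1 z (n 2 (n 0 z (n 0 z (n 0 z (n 0 z (n 0 z (n 0 z z)))))) (n 2 (n 0 z (n 0 z
 (n 0 z (n 0 z (n 0 z (n 0 z z)))))) z)))) (n 0 z (n 0 z (n 0 z (n 0 z (n 0 z (n 0 z (n 0 z (n 0
 z z))))))))))))))) (n 111 (n 0 z (n 0 z (n 0 z (n 0 z (n 0 z (n 0 z (n 0 z (n 0 z (n 0 z (n 0 z
 (n 0 z (n 0 z (n 0 z (n 0 z (n 0 z z))))))))))))))) (n 125 (n 0 z (n 0 z (n 0 z (n 0 z (n 0 z
 (n 0 z (n 0 z (n 0 z (n 0 z (n 0 z (n 0 z (n 0 z (n 0 z (n 0 z (n 0 z (n 0 z (n 0 z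
 z))))))))))))))))) (n 125 (n 0 z (n 0 z (n 0 z (n 0 z (n 0 z (n 2 (n 0 z z) (n 0 z (n 0 z (n 0
 z (n 0 z (n 0 z (n 0 z (n 0 z (n 0 z (n 0 z (n 0 z (n 0 z z))))))))))))))))) (n 125 (n 0 z (n 0
 z (n 0 z (n 0 z (n 2 z (n 0 z (n 0 z (n 0 z (n 0 z (n 0 z (n 0 z (n 0 z (n 0 z (n 0 z (n 0 z (n
 0 z (n 0 z z))))))))))))))))) z)))))))))))) (n 0 (n 363 (n 0 z (n 0 z (n 0 z (n 0 z (n 0 z (n 0
 z (n 0 z (n 0 z (n 0 z z))))))))) (n 363 (n 0 z (n 0 z (n 0 z (n 0 z (n 0 z (n 0 z (n 0 z (n 0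
 z (n 0 z z))))))))) (n 363 (n 0 z (n 0 z (n 0 z (n 0 z (n 0 z (n 0 z (n 0 z (n 0 z (n 0 z
 z))))))))) (n 363 (n 2 (n 2 (n 0 z (n 0 z (n 0 z (n 0 z (n 0 z (n 0 (n 1548 z z) z)))))) (n 2
 (n 0 z (n 0 z (n 0 z (n 0 z (n 0 z (n 0 z z)))))) (n 2 (n 0 z (n 0 z (n 0 z (n 0 z (n 0 z (n 0
 z z)))))) (n 2 (n 0 z (n 0 z (n 0 z (n 0 z (n 0 z (n 0 z z)))))) (n 2 (n 0 z (n 0 z (n 0 z (n 0
 z (n 0 z (n 0 (n 8787003 z z) z)))))) (n 2 (n 0 z (n 0 z (n 0 z (n 0 z (n 0 z (n 0 z z)))))) (n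
 2 (n 0 z (n 0 z (n 0 z (n 0 z (n 0 z (n 0 z z)))))) z))))))) (n 0 z (n 0 z (n 0 z (n 0 z (n 0 z
 (n 0 z (n 0 z (n 0 z z))))))))) (n 387 (n 0 z (n 2 (n 0 z (n 1 z (n 2 (n 0 z (n 0 z (n 0 z (n 0
 z (n 0 z (n 0 (n 3278955 z z) z)))))) (n 1 z (n 2 (n 0 z (n 0 z (n 0 z (n 0 z (n 0 z (n 0 z
 z)))))) (n 2 (n 0 z (n 0 z (n 0 z (n 0 z (n 0 z (n 0 z z)))))) z)))))) (n 0 z (n 0 z (n 0 z (n
 0 z (n 0 z (n 0 z z)))))))) (n 387 (n 0 z (n 0 z (n 0 z (n 0 z (n 0 z (n 0 z (n 0 z (n 0 z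
 z)))))))) (n 339 (n 2 (n 0 z (n 2 (n 0 z (n 0 z (n 0 z (n 0 z (n 0 z (n 0 (n 8787003 z z)
 z)))))) (n 2 (n 0 z (n 0 z (n 0 z (n 0 z (n 0 z (n 0 z z)))))) (n 2 (n 0 z (n 0 z (n 0 z (n 0 z
 (n 0 z (n 0 z z)))))) z)))) (n 0 z (n 0 z z))) (n 339 (n 0 z (n 0 z (n 0 z z))) (n 361 (n 0 z
 (n 0 z (n 0 z (n 0 z (n 0 z (n 0 z (n 0 z (n 0 z (n 0 z (n 0 z (n 0 z (n 0 z (n 0 z
 z))))))))))))) (n 361 (n 0 z (n 0 z (n 2 (n 0 z z) (n 0 z (n 0 z (n 0 z (n 0 z (n 0 z (n 0 z (n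
 0 z (n 0 z (n 0 z (n 0 z z))))))))))))) (n 361 (n 2 z (n 0 z (n 0 z (n 0 z (n 0 z (n 0 z (n 0 z
 (n 0 z (n 0 z (n 0 z (n 0 z (n 0 z (n 0 z z))))))))))))) z))))))))))) (n 0 (n 0 z (n 0 z (n 0 z
 (n 55 (n 0 z (n 0 z (n 2 (n 0 z (n 2 (n 0 z (n 0 z (n 0 z (n 0 z (n 0 z (n 0 z z)))))) (n 2 (n
 0 z (n 0 z (n 0 z (n 0 z (n 0 z (n 0 z z)))))) (n 2 (n 0 z (n 0 z (n 0 z (n 0 z (n 0 z (n 0 (n
 8787003 z z) z)))))) (n 2 (n 0 z (n 0 z (n 0 z (n 0 z (n 0 z (n 0 z z)))))) (n 2 (n 0 z (n 0 z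
 (n 0 z (n 0 z (n 0 z (n 0 z z)))))) z)))))) (n 0 z (n 0 z (n 0 z (n 0 z z))))))) (n 55 (n 0 z
 (n 0 z (n 0 z (n 0 z (n 0 z (n 0 z (n 0 z z))))))) (n 51 (n 0 z (n 0 z (n 0 z (n 2 (n 0 z (n 2
 (n 0 z (n 0 z (n 0 z (n 0 z (n 0 z (n 0 z z)))))) (n 2 (n 0 z (n 0 z (n 0 z (n 0 z (n 0 z (n 0
 z z)))))) (n 2 (n 0 z (n 0 z (n 0 z (n 0 z (n 0 z (n 0 z z)))))) z)))) (n 0 z (n 0 z (n 0 z (n
 0 z (n 0 z (n 0 z z)))))))))) (n 51 (n 0 z (n 0 z (n 0 z (n 0 z (n 0 z (n 0 z (n 0 z (n 0 z (n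
 0 z (n 0 z z)))))))))) (n 49 (n 0 z (n 0 z (n 0 z (n 0 z (n 0 z (n 0 z (n 0 z (n 0 z z))))))))
 (n 49 (n 0 z (n 0 z (n 0 z (n 0 z (n 0 z (n 0 z (n 0 z (n 0 z z)))))))) (n 49 (n 0 z (n 0 z (n
 0 z (n 0 z (n 0 z (n 0 z (n 0 z (n 0 z z)))))))) z)))))))))) (n 0 (n 0 z (n 0 z (n 1337 (n 2 (n
 0 z (n 1 z (n 1 z (n 1 z (n 2 (n 0 z (n 0 z (n 0 z (n 0 z (n 0 z (n 0 z z)))))) (n 2 (n 0 z (n
 0 z (n 0 z (n 0 z (n 0 z (n 0 z z)))))) z)))))) (n 0 z (n 0 z (n 0 z (n 0 z (n 0 z (n 0 z (n 0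
 z (n 0 z (n 0 z (n 0 z (n 0 z (n 0 z (n 0 z (n 0 z (n 0 z (n 0 z (n 0 z (n 0 z (n 0 z (n 0 z (n
 0 z z)))))))))))))))))))))) (n 1337 (n 0 z (n 0 z (n 0 z (n 0 z (n 0 z (n 0 z (n 0 z (n 0 z (n
 0 z (n 0 z (n 0 z (n 0 z (n 0 z (n 0 z (n 0 z (n 0 z (n 0 z (n 0 z (n 0 z (n 0 z (n 0 z (n 0 z
 z)))))))))))))))))))))) (n 243 (n 0 z (n 0 z (n 0 z (n 0 z (n 0 z (n 0 z (n 0 z (n 0 z (n 2 (n
 0 z (n 2 (n 0 z (n 0 z (n 0 z (n 0 z (n 0 z (n 0 z z)))))) (n 2 (n 0 z (n 0 z (n 0 z (n 0 z (n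
 0 z (n 0 z z)))))) (n 2 (n 0 z (n 0 z (n 0 z (n 0 z (n 0 z (n 0 z z)))))) z)))) (n 0 z (n 0 z
 (n 0 z (n 0 z (n 0 z (n 0 z (n 0 z (n 0 z (n 0 z (n 0 z (n 0 z (n 0 z z))))))))))))))))))))) (n
 243 (n 0 z (n 0 z (n 0 z (n 0 z (n 0 z (n 0 z (n 0 z (n 0 z (n 0 z (n 0 z (n 0 z (n 0 z (n 0 z
 (n 2 (n 1 z (n 2 (n 0 z (n 0 z (n 0 z (n 0 z (n 0 z (n 0 z z)))))) (n 2 (n 0 z (n 0 z (n 0 z (n
 0 z (n 0 z (n 0 (n 101 z z) z)))))) z))) (n 0 z (n 0 z (n 0 z (n 0 z (n 0 z (n 0 z (n 0 z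
 z))))))))))))))))))))) (n 241 (n 2 (n 0 z (n 0 z z)) (n 0 z (n 0 z (n 0 z (n 0 z (n 0 z (n 0 z
 (n 0 z (n 0 z (n 0 z (n 0 z (n 0 z (n 0 z (n 0 z (n 0 z (n 0 z (n 0 z (n 0 z (n 0 z (n 0 z (n 0
 z (n 0 z z)))))))))))))))))))))) (n 241 (n 0 z (n 0 z (n 0 z (n 0 z (n 0 z (n 0 z (n 0 z (n 0 z
 (n 0 z (n 0 z (n 0 z (n 0 z (n 0 z (n 0 z (n 0 z (n 0 z (n 0 z (n 0 z (n 0 z (n 0 z (n 0 z (n 0
 z z)))))))))))))))))))))) (n 241 (n 0 z (n 0 z (n 0 z (n 0 z (n 0 z (n 0 z (n 0 z (n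
 0x2ec8ec820782181f8a082082181f85f7df8617e08208208218617df86081f82182081f81f7e086181f8210801 z
 (n 0 z (n 0 z (n 0 z (n 0 z (n 0 z (n 0 z (n 0 z (n 0 z (n 0 z (n 0 z (n 0 z (n 0 z (n 0 z (n 0
 z z)))))))))))))))))))))) z))))))))) (n 0 (n 0 z (n 7 (n 0 z (n 0 z (n 2 (n 0 z (n 1 z (n 2 (n
 0 z (n 0 z (n 0 z (n 0 z (n 0 z (n 0 (n 3213419 z z) z)))))) (n 1 z (n 2 (n 0 z (n 0 z (n 0 z
 (n 0 z (n 0 z (n 0 z z)))))) (n 2 (n 0 z (n 0 z (n 0 z (n 0 z (n 0 z (n 0 z z)))))) z)))))) (n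
 0 z (n 0 z (n 0 z (n 0 z (n 0 z (n 0 z (n 0 z z)))))))))) (n 7 (n 0 z (n 0 z (n 0 z (n 0 z (n 0
 z (n 0 z (n 0 z (n 0 z (n 0 z (n 0 z z)))))))))) (n 579 (n 0 z (n 0 z (n 2 (n 0 z (n 2 (n 0 z
 (n 0 z (n 0 z (n 0 z (n 0 z (n 0 (n 8787003 z z) z)))))) (n 2 (n 0 z (n 0 z (n 0 z (n 0 z (n 0
 z (n 0 z z)))))) (n 2 (n 0 z (n 0 z (n 0 z (n 0 z (n 0 z (n 0 z z)))))) z)))) (n 0 z (n 0 z (n
 0 z (n 0 z (n 0 z (n 0 z (n 0 z (n 0 z z))))))))))) (n 579 (n 0 z (n 0 z (n 0 z (n 0 z (n 0 z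
 (n 0 z (n 0 z (n 0 z (n 0 z (n 0 z (n 0 z z))))))))))) (n 601 (n 0 z (n 0 z (n 0 z (n 0 z (n 0
 z (n 0 z (n 0 z (n 0 z (n 0 z (n 0 z z)))))))))) (n 601 (n 0 z (n 0 z (n 0 z (n 0 z (n 2 (n 0 z
 z) (n 0 z (n 0 z (n 0 z (n 0 z (n 0 z z)))))))))) (n 601 (n 0 z (n 0 z (n 0 z (n 0 z (n 0 z (n
 2 z (n 0 z (n 0 z (n 0 z (n 0 z z)))))))))) z)))))))) (n 0 (n 709 (n 2 (n 0 z (n 1 z (n 1 z (n
 1 z (n 2 (n 0 z (n 0 z (n 0 z (n 0 z (n 0 z (n 0 z z)))))) (n 2 (n 0 z (n 0 z (n 0 z (n 0 z (n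
 0 z (n 0 z z)))))) z)))))) (n 0 z (n 0 z (n 0 z (n 0 z (n 0 z (n 0 z (n 0 z (n 0 z z)))))))))
 (n 709 (n 0 z (n 0 z (n 0 z (n 2 (n 2 (n 0 z (n 0 z (n 0 z (n 0 z (n 0 z (n 0 z z)))))) (n 1 z
 (n 1 z (n 2 (n 0 z (n 0 z (n 0 z (n 0 z (n 0 z (n 0 z z)))))) (n 2 (n 0 z (n 0 z (n 0 z (n 0 z
 (n 0 z (n 0 z z)))))) z))))) (n 0 z (n 0 z (n 0 z (n 0 z (n 0 z z))))))))) (n 3 (n 0 z (n 0 z
 (n 0 z (n 0 z (n 2 (n 0 z (n 2 (n 0 z (n 0 z (n 0 z (n 0 z (n 0 z (n 0 (n 4516 z z) z)))))) (n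
 2 (n 0 z (n 0 z (n 0 z (n 0 z (n 0 z (n 0 z z)))))) (n 2 (n 0 z (n 0 z (n 0 z (n 0 z (n 0 z (n
 0 z z)))))) z)))) (n 0 z (n 0 z (n 0 z (n 0 z (n 0 z (n 0 z (n 0 z (n 0 z (n 0 z (n 0 z
 z))))))))))))))) (n 3 (n 0 z (n 0 z (n 0 z (n 0 z (n 0 z (n 0 z (n 2 (n 1 z (n 2 (n 0 z (n 0 z
 (n 0 z (n 0 z (n 0 z (n 0 z z)))))) (n 2 (n 0 z (n 0 z (n 0 z (n 0 z (n 0 z (n 0 z z)))))) z)))
 (n 0 z (n 0 z (n 0 z (n 0 z (n 0 z (n 0 z (n 0 z (n 0 z z))))))))))))))) (n 1129 (n 0 z (n 2 (n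
 0 z (n 0 z z)) (n 0 z (n 0 z (n 0 z (n 0 z (n 0 z (n 0 z (n 0 z z))))))))) (n 1129 (n 0 z (n 0
 z (n 0 z (n 0 z (n 0 z (n 0 z (n 0 z (n 0 z (n 0 z z))))))))) (n 1129 (n 0 z (n 0 z (n 0 z (n 0
 z (n 0 z (n 0 z (n 0 z (n 0 z (n 0 z z))))))))) z))))))) (n 0 (n 0 z (n 15 (n 0 z (n 0 z (n 0 z
 (n 0 z (n 0 z (n 0 z z)))))) (n 15 (n 0 z (n 2 (n 1 z (n 2 (n 0 z (n 0 z (n 0 z (n 0 z (n 0 z
 (n 0 z z)))))) (n 2 (n 0 z (n 0 z (n 0 z (n 0 z (n 0 z (n 0 z z)))))) z))) (n 0 z (n 0 z (n 0 z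
 (n 0 z z)))))) (n 13 (n 2 (n 0 z (n 0 z z)) (n 0 z (n 0 z (n 0 z (n 0 z (n 0 z (n 0 z (n 0 z (n
 0 z z))))))))) (n 13 (n 0 z (n 0 z (n 0 z (n 0 z (n 0 z (n 0 z (n 0 z (n 0 z (n 0 z z)))))))))
 (n 13 (n 0 z (n 0 z (n 0 z (n 0 z (n 0 z (n 0 z (n 0 z (n 0 z (n 0 z z))))))))) z)))))) (n 0 (n
 15 (n 2 (n 0 z (n 2 (n 0 z (n 0 z (n 0 z (n 0 z (n 0 z (n 0 (n 8798747 z z) z)))))) (n 2 (n 0 z
 (n 0 z (n 0 z (n 0 z (n 0 z (n 0 z z)))))) (n 2 (n 0 z (n 0 z (n 0 z (n 0 z (n 0 z (n 0 z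
 z)))))) z)))) (n 0 z (n 0 z (n 0 z (n 0 z (n 0 z (n 0 z (n 0 z z)))))))) (n 15 (n 0 z (n 0 z (n
 0 z (n 0 z (n 0 z (n 0 z (n 0 z (n 0 z z)))))))) (n 13 (n 0 z (n 0 z (n 0 z (n 0 z (n 0 z (n 0
 z (n 0 z (n 0 z (n 0 z (n 0 z (n 0 z (n 0 z z)))))))))))) (n 13 (n 0 z (n 2 (n 0 z z) (n 0 z (n
 0 z (n 0 z (n 0 z (n 0 z (n 0 z (n 0 z (n 0 z (n 0 z (n 0 z z)))))))))))) (n 13 (n 0 z (n 0 z
 (n 0 z (n 0 z (n 2 z (n 0 z (n 0 z (n 0 z (n 0 z (n 0 z (n 0 z (n 0 z z)))))))))))) z))))) (n 0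
 (n 0 z (n 25 (n 0 z (n 0 z (n 2 (n 0 z (n 0 z z)) (n 0 z (n 0 z (n 0 z (n 0 z (n 0 z (n 0 z (n
 0 z (n 0 z (n 0 z (n 0 z (n 0 z (n 0 z (n 0 z (n 0 z (n 0 z (n 0 z (n 0 z (n 0 z (n 0 z (n 0 z
 (n 0 z (n 0 z (n 0 z (n 0 z (n 0 z (n 0 z (n 0 z (n 0 z (n 0 z (n 0 z (n 0 z (n 0 z (n 0 z
 z)))))))))))))))))))))))))))))))))))) (n 25 (n
 0x2ea6c842077e086081f7e086079f81d82182286082185e82289e8217de86181e89f89f7de81e7a17e08210801 z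
 (n 0 z (n 0 z (n 0 z (n 0 z (n 0 z (n 0 z (n 0 z (n 0 z (n 0 z (n 0 z (n 0 z (n 0 z (n 0 z (n 0
 z (n 0 z (n 0 z (n 0 z (n 0 z (n 0 z (n 0 z (n 0 z (n 0 z (n 0 z (n 0 z (n 0 z (n 0 z (n 0 z (n
 0 z (n 0 z (n 0 z (n 0 z (n 0 z (n 0 z (n 0 z (n 0 z z)))))))))))))))))))))))))))))))))))) (n
 25 (n 0 z (n 0 z (n 0 z (n 0 z (n 0 z (n 0 z (n 0 z (n 0 z (n 0 z (n 0 z (n 0 z (n 0 z (n 0 z
 (n 0 z (n 0 z (n 0 z (n 0 z (n 0 z (n 0 z (n 0 z (n 0 z (n 0 z (n 0 z (n 0 z (n 0 z (n 0 z (n 0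
 z (n 0 z (n 0 z (n 0 z (n 0 z (n 0 z (n 0 z (n 0 z (n 0 z (n 0 z
 z)))))))))))))))))))))))))))))))))))) z)))) (n 0 (n 25 (n 0 z (n 0 z (n 0 z (n 0 z (n 0 z (n 0
 z (n 0 z (n 0 z (n 0 z (n 0 z (n 0 z (n 0 z (n 0 z z))))))))))))) (n 25 (n 2 (n 0 z z) (n 0 z
 (n 0 z (n 0 z (n 0 z (n 0 z (n 0 z (n 0 z (n 0 z (n 0 z (n 0 z (n 0 z (n 0 z z))))))))))))) (n
 25 (n 0 z (n 0 z (n 2 z (n 0 z (n 0 z (n 0 z (n 0 z (n 0 z (n 0 z (n 0 z (n 0 z (n 0 z (n 0 z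
 z))))))))))))) z))) (n 0 (n 0 z (n 0 z z)) (n 0 (n 0 z z) (n 0 z z)))))))))))))) (n 0 (n 1 (n
 4604 z (n 4604 z (n 2 z (n 4604 z (n 6636307 z (n 4604 z z)))))) (n 1 (n 6492243 z (n 6492243 z
 (n 6492243 z (n 6492243 z (n 6636307 z (n 6492243 z z)))))) z)) (n 0 (n
 0x41a3152115154c484c4d884b45311a4dc840 (n 0 (n 0 (n 7750171 z (n 7750171 z (n 7750171 z (n
 7750171 z (n 7750171 z (n 7750171 z z)))))) z) (n 0 (n 498 (n 0 z (n 1 (n 7540819 z (n 7540819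
 z (n 7540819 z (n 7540819 z (n 7540819 z (n 7540819 z z)))))) (n 0 z (n 1 (n 4604 z (n 4604 z
 (n 6493963 z (n 2 z (n 4604 z (n 4604 z z)))))) (n 0 z (n 1 (n 7684883 z (n 7684883 z (n
 7684883 z (n 7684883 z (n 7684883 z (n 7684883 z z)))))) (n 1 (n 4604 z (n 4604 z (n 4604 z (n
 4604 z (n 7738427 z (n 4604 z z)))))) (n 1 (n 7738427 z (n 4604 z (n 4604 z (n 4604 z (n 4604 z
 (n 4604 z z)))))) z)))))))) (n 435 (n 1 (n 7738427 z (n 7738427 z (n 7407147 z (n 7738427 z (n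
 7738427 z (n 7738427 z z)))))) (n 1 (n 7540819 z (n 7540819 z (n 7540819 z (n 7540819 z (n
 7540819 z (n 7540819 z z)))))) z)) (n 301 (n 1 (n 6493963 z (n 4364 z (n 4364 z (n 10 z (n
 7684883 z (n 4364 z z)))))) (n 1 (n 4364 z (n 4364 z (n 6493995 z (n 4364 z (n 7684883 z (n
 3492 z z)))))) (n 1 (n 4364 z (n 4364 z (n 4364 z (n 4364 z (n 7684883 z (n 4364 z z)))))) (n 1
 (n 7540819 z (n 7540819 z (n 7540819 z (n 7540819 z (n 7684883 z (n 7540819 z z)))))) (n 1 (n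
 7540819 z (n 7540819 z (n 7540819 z (n 7540819 z (n 7684883 z (n 7540819 z z)))))) (n 1 (n 4364
 z (n 4364 z (n 5310251 z (n 28 z (n 7684883 z (n 4364 z z)))))) (n 1 (n 4364 z (n 6492275 z (n
 5310251 z (n
 0xea8ea82078208208607e082081f8607df8618208208208218617df8607e08208207e081f7e086281f8210801 z (n
 7684883 z (n 4364 z z)))))) (n 1 (n 4392747 z (n 4392747 z (n 3213099 z (n 4392747 z (n 7684883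
 z (n 4392747 z z)))))) (n 0 z z))))))))) (n 573 (n 0 z (n 1 (n 7540819 z (n 7540819 z (n
 7540819 z (n 7540819 z (n 7540819 z (n 7540819 z z)))))) (n 0 z (n 1 (n 18 z (n 3484 z (n 3484
 z (n 3484 z (n 3484 z (n 3484 z z)))))) (n 0 z (n 1 (n 7684883 z (n 7684883 z (n 7684883 z (n
 7684883 z (n 7684883 z (n 7684883 z z)))))) (n 1 (n 3484 z (n 3484 z (n 3484 z (n 3484 z (n
 3484 z (n 3484 z z)))))) (n 1 (n 3484 z (n 3484 z (n 6555451 z (n 6424395 z (n 3484 z (n 3484 z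
 z)))))) z)))))))) (n 555 (n 1 (n 26 z (n 4540 z (n 4540 z (n 7750171 z (n 7684883 z (n 4540 z
 z)))))) (n 1 (n 3278667 z (n 3278667 z (n 3278667 z (n 3278667 z (n 7684883 z (n 3278667 z
 z)))))) (n 1 (n 7540819 z (n 7540819 z (n 7540819 z (n 7540819 z (n 7684883 z (n 7540819 z
 z)))))) z))) (n 0 (n 1 (n 7750171 z (n 7750171 z (n 7750171 z (n 7750171 z (n 7750171 z (n
 7750171 z z)))))) (n 1 (n 34 z (n 6561907 z (n 5564 z (n 5564 z (n 5564 z (n 5564 z z)))))) (n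
 1 (n 5564 z (n
 0x2e64e6420782181f8a082082181f85f7df8617e08208208218617df86081f82182081f81f7e086181f8210801 z
 (n 5564 z (n 5564 z (n 5564 z (n 7407147 z z)))))) (n 1 (n 7407147 z (n 42 z (n 5564 z (n 5564
 z (n 5564 z (n 5564 z z)))))) (n 1 (n 7684883 z (n 7684883 z (n 7684883 z (n 7684883 z (n
 7684883 z (n 7684883 z z)))))) (n 1 (n 7684883 z (n 7684883 z (n 7684883 z (n 7684883 z (n
 7684883 z (n 7684883 z z)))))) (n 1 (n 5564 z (n 5564 z (n 6555435 z (n 5532 z (n 7407147 z (n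
 5564 z z)))))) (n 0 z (n 1 (n 5564 z (n 6428427 z (n 6489883 z (n
 0x1c7408207e082181f85f85f85f81f8207e18218608208a27e085f8a08628617a281d7e085f85c8610041 z (n
 5564 z (n 5564 z z)))))) z))))))))) (n 435 (n 1 (n 7738427 z (n 7738427 z (n 7750171 z (n
 7738427 z (n 7684883 z (n 7738427 z z)))))) (n 1 (n 7540819 z (n 7540819 z (n 7540819 z (n
 7540819 z (n 7684883 z (n 7540819 z z)))))) z)) z))))))) (n 0 (n 0 (n 0 z (n 0 z (n 0 z (n 0 z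
 (n 0 z (n 0 z z)))))) (n 0 (n 0 z (n 0 z (n 0 z (n 0 z (n 0 z z))))) (n 0 (n 0 z (n 0 z (n 0 z
 (n 0 z z)))) (n 0 (n 0 z (n 0 z (n 0 z z))) (n 0 (n 0 z (n 0 z z)) (n 0 (n 0 z z) z)))))) (n 0
 (n 183 (n 0 (n 0 z (n 0 z (n 0 z (n 0 z (n 0 z (n 0 z z)))))) (n 0 (n 0 z (n 0 z (n 0 z (n 0 z
 (n 0 z (n 0 z z)))))) (n 0 (n 0 z (n 0 z (n 0 z (n 0 z (n 0 z (n 0 z z)))))) (n 0 (n 0 z (n 0 z
 (n 0 z (n 0 z (n 0 z (n 0 z z)))))) (n 0 (n 0 z (n 0 z (n 0 z (n 0 z (n 0 z (n 0 (n 8865339 z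
 z) z)))))) (n 0 (n 0 z (n 0 z (n 0 z (n 0 z (n 0 z (n 0 z z)))))) (n 0 (n 0 z (n 0 z (n 0 z (n
 0 z (n 0 z (n 0 z z)))))) (n 0 (n 0 z (n 0 z (n 0 z (n 0 z (n 0 z (n 0 z z)))))) (n 0 (n 0 z (n
 0 z (n 0 z (n 0 z (n 0 z (n 0 z z)))))) (n 0 (n 0 z (n 0 z (n 0 z (n 0 (n
 0x3908614872869752823b1d9da8a5676817b5531e65b5f2a5d8665698e285e8aa65f5709636aea1e7618170081 z
 (n
 0x3e43a86c843809c724f8c82a36aa96b8d8b6ebd82639f61417c687070c398758e9056a0958290658e8c6b7b41b69b9369a3a18c77758f630089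
 z z)) (n 0 (n
 0xd8737e08208a07e086182081f8208208208208208618a18217a085f8207e08207df8208217e18210041 z (n
 0x158737df81f89e7de8a185f82079f8608228a085f8208e37e08217de86082282082081f8a379f8640041 z z)) (n
 0 (n 0xd8728208208607e08208208208208207e08208208608628207e085f8208208207df8208217e08210041 z (n
 8794227 z z)) z)))))) (n 0 (n 0 z (n 0 z (n 0 z (n 0 z (n 0 z (n 0 z z)))))) (n 0 (n 0 z (n 0 z
 (n 0 z (n 0 z (n 0 z (n 0 z z)))))) (n 0 (n 0 z (n 0 z (n 0 z (n 0 z (n 0 z (n 0 z z)))))) (n 0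
 (n 0 z (n 0 z (n 0 z (n 0 z (n 0 z (n 0 z z)))))) (n 0 (n 0 z (n 0 z (n 0 z (n 0 z (n 0 z (n 0
 z z)))))) (n 0 (n 0 z (n 0 z (n 0 z (n 0 z (n 0 z (n 0 z z)))))) (n 0 (n 0 z (n 0 z (n 0 z (n 0
 z (n 0 z (n 0 z z)))))) (n 0 (n 0 z (n 0 z (n 0 z (n 0 z (n 0 z (n 0 z z)))))) (n 0 (n 0 z (n 0
 z (n 0 z (n 0 z (n 0 z (n 0 z z)))))) (n 0 (n 0 z (n 0 (n 8589395 z z) (n 0 (n 8589395 z z) (n
 0 z (n 0 z (n 0 z z)))))) (n 0 (n 0 z (n 0 z (n 0 z (n 0 z (n 0 z (n 0 z z)))))) (n 0 (n 0 z (n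
 0 (n 8455723 z z) (n 0 z (n 0 z (n 0 z (n 0 (n 8455723 z z) z)))))) (n 0 (n 0 z (n 0 z (n 0 z
 (n 0 z (n 0 z (n 0 (n 8865339 z z) z)))))) (n 0 (n 0 z (n 0 z (n 0 z (n 0 z (n 0 z (n 0 z
 z)))))) (n 0 (n 0 (n 8787003 z (n 8787003 z z)) (n 0 z (n 0 (n 8787003 z (n 8787003 z z)) (n 0
 z (n 0 z (n 0 z z)))))) (n 0 (n 0 z (n 0 z (n 0 z (n 0 (n
 0x70e70e4a077e07e08a181f86082085f81f8207e08208208208607e086086082082182082081f82181f8200801 z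
 z) (n 0 z (n 0 (n
 0x4873014398061cc050e4098728207e086182082082081f8208208208208208208608618208208208208607e08208208208200141
 z z) z)))))) (n 0 (n 0 (n
 0x70e70e4a077e07e08a181f86082085f81f8207e08208208208607e086086082082182082081f82181f8200801 z
 z) (n 0 z (n 0 (n
 0x10e90e84078208208607e082081f8607df8618208208208218617df8607e08208207e081f7e086281f8210801 z
 z) (n 0 z (n 0 z (n 0 z z)))))) (n 0 (n 0 (n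
 0x30eb0a640382082082182082081f8208208208208208208208208208208208208208208208208208208200801 z
 (n
 0x28758752018b0eb0a64037a081f7a89e67247a86e98da75b4a47a062975d4a282c66a8e07ab6df820ae795e74d8b565f1001
 z z)) (n 0 (n
 0xd87582181f8608208218208208208207e18208208608a18207e18208607e18207df8208617e17e10041 z (n
 0x1c8758207e082181f85f85f85f81f8207e18218608208a27e085f8a08628617a281d7e085f85c8610041 z z)) (n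
 0 (n
 0x30eb0a840382082086082182081f85f81f8208208208208218218208608208208208608208208208208200801 z
 (n 0x170eb0e84039e89228226e369f6644d99e551d9e06e18a189f70cc6f51b96890e7dac1f7a49e64528766cd0801
 z z)) (n 0 z (n 0 z (n 0 z z)))))) z)))))))))))))))))))))))))))) (n 545 (n 0 (n 0 z (n 0 z (n 0
 z (n 0 z (n 0 z (n 0 z z)))))) (n 0 (n 0 z (n 0 z (n 0 z (n 0 z (n 0 z (n 0 z z)))))) (n 0 (n 0
 z (n 0 z (n 0 z (n 0 z (n 0 z (n 0 z z)))))) (n 0 (n 0 z (n 0 z (n 0 z (n 0 z (n 0 z (n 0 z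
 z)))))) (n 0 (n 0 z (n 0 z (n 0 (n
 0xc8718207e08218208208208607e08207e082082082086182082082086082082081f8208608208600041 z z) (n 0
 z (n 0 z (n 0 z z)))))) (n 0 (n 0 z (n 0 z (n 0 z (n 0 z (n 0 z (n 0 z z)))))) (n 0 (n 0 z (n 0
 z (n 0 z (n 0 (n
 0xc8768207e08218208208208607e08207e082082082086182082082086082082081f8208608208600041 z z) (n 0
 z (n 0 z z)))))) (n 0 (n 0 z (n 0 z (n 0 (n
 0xc8768207e08218208208208607e08207e082082082086182082082086082082081f8208608208600041 z z) (n 0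
 z (n 0 z (n 0 z z)))))) (n 0 (n 0 z (n 0 z (n 0 z (n 0 z (n 0 z (n 0 z z)))))) (n 0 (n 0 z (n 0
 z (n 0 z (n 0 z (n 0 z (n 0 z z)))))) (n 0 (n 0 z (n 0 z (n 0 z (n 0 z (n 0 z (n 0 z z)))))) (n
 0 (n 0 z (n 0 z (n 0 (n
 0xc8768207e08218208208208607e08207e082082082086182082082086082082081f8208608208600041 z z) (n 0
 z (n 0 z (n 0 z z)))))) (n 0 (n 0 z (n 0 z (n 0 z (n 0 z (n 0 z (n 0 z z)))))) (n 0 (n 0 z (n 0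
 z (n 0 z (n 0 z (n 0 z (n 0 z z)))))) (n 0 (n 0 z (n 0 z (n 0 z (n 0 z (n 0 (n 8865339 z z) (n
 0 z z)))))) (n 0 (n 0 z (n 0 z (n 0 (n
 0x158747df81f89e7de8a185f82079f8608228a085f8208e37e08217de86082282082081f8a379f8640041 z z) (n
 0 z (n 0 z (n 0 z z)))))) (n 0 (n 0 z (n 0 z (n 0 z (n 0 (n
 0x190ea0c8418267179208dd99f96276b85b89d61e6dc7eb8df8247639218db9216a26288e47289de8228980081 z
 z) (n 0 z (n 0 z z)))))) (n 0 (n 0 z (n 0 z (n 0 z (n 0 z (n 0 z (n 0 z z)))))) (n 0 (n 0 z (n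
 0 z (n 0 z (n 0 z (n 0 z (n 0 z z)))))) (n 0 (n 0 z (n 0 z (n 0 z (n 0 (n
 0x190ec0c8418267179208dd99f96276b85b89d61e6dc7eb8df8247639218db9216a26288e47289de8228980081 z
 z) (n 0 z (n 0 z z)))))) (n 0 (n 0 (n
 0x30eb0ea60782181f8a082082181f85f7df8617e08208208218617df86081f82182081f81f7e086181f8210801 z
 z) (n 0 z (n 0 z (n 0 z (n 0 z (n 0 z z)))))) (n 0 (n 0 (n
 0xd87182181f8607e08618208207e08208218208208218a28207e08208217e08207df8208217e08210041 z (n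
 0x190a80c8318267179208dd99f96276b85b89d61e6dc7eb8df8247639218db9216a26288e47289de8228980081 z
 z)) (n 0 (n
 0xd8757e181f8a07e082182081f7e08208218208208608a28217a181f8207e18607df8208217e17e10041 z (n
 0x190a80c8318267179208dd99f96276b85b89d61e6dc7eb8df8247639218db9216a26288e47289de8228980081 z
 z)) (n 0 (n
 0xc8718207e08218208208208607e08207e082082082086182082082086082082081f8208608208600041 z (n
 7755819 z z)) (n 0 (n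
 0xd8717e181f8a07e082182081f7e08208218208208608a28217a181f8207e18607df8208217e17e10041 z (n
 0x158717df81f89e7de8a185f82079f8608228a085f8208e37e08217de86082282082081f8a379f8640041 z z)) (n
 0 z (n 0 z z)))))) z)))))))))))))))))))))) (n 301 (n 0 (n 0 z (n 0 z (n 0 z (n 0 z (n 0 z (n 0
 z z)))))) (n 0 (n 0 z (n 0 z (n 0 z (n 0 z (n 0 z (n 0 z z)))))) (n 0 (n 0 z (n 0 z (n 0 z (n 0
 z (n 0 (n 8865339 z z) (n 0 z z)))))) (n 0 (n 0 z (n 0 z (n 0 z (n 0 z (n 0 z (n 0 z z)))))) (n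
 0 (n 0 z (n 0 z (n 0 z (n 0 z (n 0 z (n 0 z z)))))) (n 0 (n 0 z (n 0 z (n 0 (n
 0xc8708207e08218208208208607e08207e082082082086182082082086082082081f8208608208600041 z z) (n 0
 z (n 0 (n 8872451 z z) (n 0 z z)))))) (n 0 (n 0 z (n 0 (n 8868619 z z) (n 0 z (n 0 z (n 0 z (n
 0 (n 8872451 z z) z)))))) (n 0 (n 0 (n 4393003 z z) (n 0 z (n 0 (n 4393003 z z) (n 0 z (n 0 z
 (n 0 z z)))))) (n 0 (n 0 (n
 0x30a2ea06038208208208208208208208208208208208208208208217e08208208208208208208208208210801 z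
 (n 8787723 z z)) (n 0 (n
 0xd8757e181f8a07e082182081f7e08208218208208608a28217a181f8207e18607df8208217e17e10041 z (n
 0x1c8758207e082181f85f85f85f81f8207e18218608208a27e085f8a08628617a281d7e085f85c8610041 z z)) (n
 0 (n 0xc8708207e08218208208208607e08207e082082082086182082082086082082081f8208608208600041 z (n
 8787723 z z)) (n 0 z (n 0 z (n 0 z z)))))) z))))))))) (n 573 (n 0 (n 0 z (n 0 z (n 0 z (n 0 z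
 (n 0 z (n 0 z z)))))) (n 0 (n 0 z (n 0 z (n 0 z (n 0 z (n 0 z (n 0 z z)))))) (n 0 (n 0 z (n 0 z
 (n 0 z (n 0 z (n 0 z (n 0 z z)))))) (n 0 (n 0 z (n 0 z (n 0 z (n 0 z (n 0 z (n 0 z z)))))) (n 0
 (n 0 z (n 0 (n
 0x158757e081f89e7df86185f7e07df86182286085f8618a47e08617de8608217e07a081f8a27a08630041 z (n
 0x70eb0a280379f8208a185f7e08607df81f7e17e07e286182089e7a286192185f7e181f8218607218227e00801 z
 z)) (n 0 z (n 0 z (n 0 z (n 0 z z)))))) (n 0 (n 0 z (n 0 z (n 0 z (n 0 z (n 0 z (n 0 z z))))))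
 (n 0 (n 0 z (n 0 z (n 0 z (n 0 z (n 0 z (n 0 z z)))))) (n 0 (n 0 z (n 0 z (n 0 z (n 0 z (n 0 z
 (n 0 z z)))))) z)))))))) (n 435 (n 0 (n 0 z (n 0 z (n 0 z (n 0 z (n 0 z (n 0 z z)))))) (n 0 (n
 0 z (n 0 z (n 0 z (n 0 z (n 0 z (n 0 z z)))))) (n 0 (n 0 z (n 0 z (n 0 z (n 0 z (n 0 z (n 0 z
 z)))))) (n 0 (n 0 z (n 0 z (n 0 z (n 0 z (n 0 z (n 0 z z)))))) (n 0 (n 0 z (n 0 z (n 0 z (n 0 z
 (n 0 z (n 0 z z)))))) (n 0 (n 0 z (n 0 z (n 0 z (n 0 z (n 0 z (n 0 z z)))))) (n 0 (n 0 (n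
 8589395 z (n 8589395 z z)) (n 0 z (n 0 (n 8589395 z (n 8589395 z z)) (n 0 z (n 0 z (n 0 z
 z)))))) (n 0 (n 0 (n
 0x30eb0a84037e082086182182081f86081f82082082082082182182086082082082082081f8208208208200801 z
 (n 0x30eb0a84037e086082282182081f82081f82082082082082186182086082082082082081f82082081f8200801
 z z)) (n 0 z (n 0 (n
 0x158707df81f89e7de8a185f82079f8608228a085f8208e37e08217de86082282082081f8a379f8640041 z (n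
 0x30eb0a800382081f82082186082082081f8208208208208208218208608208208208208208208208208200801 z
 z)) (n 0 z (n 0 z (n 0 z z)))))) z)))))))) (n 9 (n 0 (n 0 z (n 0 z (n 0 z (n 0 z (n 0 z (n 0 z
 z)))))) (n 0 (n 0 z (n 0 z (n 0 z (n 0 z (n 0 z (n 0 z z)))))) (n 0 (n 0 z (n 0 z (n 0 z (n 0 z
 (n 0 z (n 0 z z)))))) (n 0 (n 0 z (n 0 z (n 0 z (n 0 z (n 0 z (n 0 z z)))))) (n 0 (n 0 z (n 0 z
 (n 0 z (n 0 z (n 0 z (n 0 z z)))))) (n 0 (n 0 z (n 0 z (n 0 z (n 0 z (n 0 z (n 0 z z)))))) (n 0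
 (n 0 z (n 0 z (n 0 z (n 0 z (n 0 z (n 0 z z)))))) (n 0 (n 0 z (n 0 z (n 0 z (n 0 (n 4261931 z
 z) (n 0 z (n 0 (n 8872451 z z) z)))))) (n 0 (n 0 z (n 0 z (n 0 z (n 0 z (n 0 z (n 0 z z))))))
 (n 0 (n 0 (n 8852811 z (n 8852811 z z)) (n 0 (n
 0x158757df81f89e7de8a185f82079f8608228a085f8208e37e08217de86082282082081f8a379f8640041 z (n
 0x16420824840828f7b698085927c8c77848974a18171946f627d7578739d8d7b81896f908583837e838f747f6e988a8476948d7c7a8280720089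
 z z)) (n 0 z (n 0 (n
 0x158757df81f89e7de8a185f82079f8608228a085f8208e37e08217de86082282082081f8a379f8640041 z (n
 0x158717e082082082086082082081f8208208208608218208618208608218208208208207e17e38200041 z z)) (n
 0 (n 8872451 z (n 8872451 z z)) (n 0 z z)))))) z)))))))))) (n 567 (n 0 (n 0 z (n 0 z (n 0 z (n
 0 z (n 0 z (n 0 z z)))))) (n 0 (n 0 z (n 0 z (n 0 z (n 0 z (n 0 z (n 0 z z)))))) (n 0 (n 0 z (n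
 0 z (n 0 z (n 0 z (n 0 z (n 0 z z)))))) (n 0 (n 0 z (n 0 z (n 0 z (n 0 z (n 0 z (n 0 z z))))))
 (n 0 (n 0 z (n 0 z (n 0 z (n 0 z (n 0 z (n 0 z z)))))) (n 0 (n 0 z (n 0 z (n 0 z (n 0 z (n 0 z
 (n 0 z z)))))) (n 0 (n 0 z (n 0 z (n 0 z (n 0 z (n 0 z (n 0 z z)))))) (n 0 (n 0 z (n 0 z (n 0 z
 (n 0 z (n 0 z (n 0 z z)))))) (n 0 (n 0 z (n 0 z (n 0 z (n 0 z (n 0 z (n 0 z z)))))) (n 0 (n 0 z
 (n 0 z (n 0 z (n 0 z (n 0 z (n 0 z z)))))) (n 0 (n 0 (n 8798747 z (n 8798747 z z)) (n 0 (n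
 8798747 z (n 8798747 z z)) (n 0 z (n 0 z (n 0 z (n 0 z z)))))) (n 0 (n 0 z (n 0 z (n 0 z (n 0 z
 (n 0 z (n 0 z z)))))) (n 0 (n 0 z (n 0 z (n 0 z (n 0 z (n 0 (n 8733459 z z) (n 0 (n 8733459 z
 z) z)))))) (n 0 (n 0 z (n 0 z (n 0 z (n 0 z (n 0 z (n 0 (n 8733459 z z) z)))))) (n 0 (n 0 z (n
 0 (n 8733459 z z) (n 0 (n 8733459 z z) (n 0 z (n 0 z (n 0 z z)))))) z))))))))))))))) (n 555 (n
 0 (n 0 z (n 0 z (n 0 z (n 0 z (n 0 z (n 0 z z)))))) (n 0 (n 0 z (n 0 z (n 0 z (n 0 z (n 0 z (n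
 0 z z)))))) (n 0 (n 0 z (n 0 z (n 0 z (n 0 z (n 0 z (n 0 z z)))))) z))) (n 553 (n 0 (n 0 z (n 0
 z (n 0 z (n 0 z (n 0 z (n 0 z z)))))) (n 0 (n 0 z (n 0 z (n 0 z (n 0 z (n 0 z (n 0 z z)))))) (n
 0 (n 0 z (n 0 z (n 0 z (n 0 z (n 0 z (n 0 z z)))))) (n 0 (n 0 z (n 0 z (n 0 z (n 0 z (n 0 z (n
 0 z z)))))) (n 0 (n 0 z (n 0 z (n 0 z (n 0 z (n 0 z (n 0 z z)))))) (n 0 (n 0 z (n 0 z (n 0 z (n
 0 z (n 0 z (n 0 z z)))))) (n 0 (n 0 z (n 0 z (n 0 z (n 0 z (n 0 z (n 0 z z)))))) (n 0 (n 0 z (n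
 0 z (n 0 (n
 0xc8708207e08218208208208607e08207e082082082086182082082086082082081f8208608208600041 z z) (n 0
 z (n 0 z (n 0 z z)))))) (n 0 (n 0 z (n 0 z (n 0 z (n 0 z (n 0 z (n 0 z z)))))) (n 0 (n 0 z (n 0
 z (n 0 z (n 0 z (n 0 z (n 0 z z)))))) (n 0 (n 0 z (n 0 z (n 0 z (n 0 z (n 0 z (n 0 z z))))))
 z))))))))))) (n 13 (n 0 (n 0 z (n 0 z (n 0 z (n 0 z (n 0 z (n 0 z z)))))) (n 0 (n 0 z (n 0 z (n
 0 z (n 0 z (n 0 z (n 0 z z)))))) (n 0 (n 0 z (n 0 z (n 0 z (n 0 z (n 0 z (n 0 z z)))))) (n 0 (n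
 0 z (n 0 z (n 0 z (n 0 z (n 0 z (n 0 z z)))))) (n 0 (n 0 z (n 0 z (n 0 z (n 0 z (n 0 z (n 0 z
 z)))))) (n 0 (n 0 z (n 0 z (n 0 z (n 0 z (n 0 z (n 0 z z)))))) (n 0 (n 0 z (n 0 z (n 0 z (n 0 z
 (n 0 z (n 0 z z)))))) (n 0 (n 0 z (n 0 z (n 0 z (n 0 z (n 0 z (n 0 z z)))))) z)))))))) (n 695
 (n 0 (n 0 z (n 0 z (n 0 z (n 0 z (n 0 z (n 0 z z)))))) (n 0 (n 0 z (n 0 z (n 0 z (n 0 z (n 0 z
 (n 0 z z)))))) (n 0 (n 0 z (n 0 z (n 0 z (n 0 z (n 0 z (n 0 z z)))))) (n 0 (n 0 z (n 0 (n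
 0x1c8718207e082181f85f85f85f81f8207e18218608208a27e085f8a08628617a281d7e085f85c8610041 z z) (n
 0 z (n 0 z (n 0 z (n 0 z z)))))) (n 0 (n 0 z (n 0 z (n 0 z (n 0 z (n 0 z (n 0 z z)))))) (n 0 (n
 0 z (n 0 z (n 0 z (n 0 z (n 0 z (n 0 z z)))))) (n 0 (n 0 z (n 0 z (n 0 z (n 0 z (n 0 z (n 0 z
 z)))))) (n 0 (n 0 (n 8733459 z z) (n 0 (n 8733459 z z) (n 0 z (n 0 z (n 0 z (n 0 z z)))))) (n 0
 (n 0 z (n 0 z (n 0 z (n 0 z (n 0 z (n 0 z z)))))) (n 0 (n 0 z (n 0 z (n 0 z (n 0 z (n 0 z (n 0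
 z z)))))) (n 0 (n 0 z (n 0 z (n 0 (n
 0x48760143b0061d805062098318207e086182082082081f8208208208208208208608618208208208208607e08208208208200141
 z z) (n 0 z (n 0 z (n 0 z z)))))) (n 0 (n 0 z (n 0 z (n 0 z (n 0 (n
 0x190ec058737e07e08607df8608208207df8217e186082081f8e182186081f8618607a181f8218617dd8620081 z
 z) (n 0 z (n 0 z z)))))) (n 0 (n 0 z (n 0 z (n 0 z (n 0 z (n 0 z (n 0 z z)))))) (n 0 (n 0 z (n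
 0 z (n 0 z (n 0 z (n 0 z (n 0 z z)))))) (n 0 (n 0 z (n 0 z (n 0 (n 6563963 z z) (n 0 z (n 0 z
 (n 0 z z)))))) (n 0 (n 0 (n
 0x1c8738207e082181f85f85f85f81f8207e18218608208a27e085f8a08628617a281d7e085f85c8610041 z z) (n
 0 (n 0x90e80587382082082082082081f8607e08208218208208208628208207e08218207e181f82086181f8220081
 z z) (n 0 z (n 0 z (n 0 z (n 0 z z)))))) (n 0 (n 0 (n
 0x10e90e84078208208607e082081f8607df8618208208208218617df8607e08208207e081f7e086281f8210801 z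
 z) (n 0 z (n 0 (n
 0x10e90e84078208208607e082081f8607df8618208208208218617df8607e08208207e081f7e086281f8210801 z
 z) (n 0 z (n 0 z (n 0 z z)))))) z))))))))))))))))) (n 691 (n 0 (n 0 z (n 0 z (n 0 z (n 0 z (n 0
 z (n 0 z z)))))) (n 0 (n 0 z (n 0 z (n 0 z (n 0 z (n 0 z (n 0 z z)))))) (n 0 (n 0 z (n 0 z (n 0
 z (n 0 z (n 0 z (n 0 z z)))))) (n 0 (n 0 z (n 0 z (n 0 z (n 0 z (n 0 z (n 0 z z)))))) (n 0 (n 0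
 z (n 0 (n
 0x1c8438207e082181f85f85f85f81f8207e18218608208a27e085f8a08628617a281d7e085f85c8610041 z (n
 0x1c8438207e082181f85f85f85f81f8207e18218608208a27e085f8a08628617a281d7e085f85c8610041 z z)) (n
 0 z (n 0 z (n 0 z (n 0 z z)))))) (n 0 (n 0 (n
 0x1c8638207e082181f85f85f85f81f8207e18218608208a27e085f8a08628617a281d7e085f85c8610041 z z) (n
 0 z (n 0 (n
 0xc8708207e08218208208208607e08207e082082082086182082082086082082081f8208608208600041 z z) (n 0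
 z (n 0 z (n 0 z z)))))) (n 0 (n 0 (n 8787723 z z) (n 0 z (n 0 (n 8787723 z z) (n 0 z (n 0 z (n
 0 z z)))))) (n 0 (n 0 z (n 0 z (n 0 z (n 0 z (n 0 z (n 0 z z)))))) (n 0 (n 0 z (n 0 z (n 0 z (n
 0 z (n 0 z (n 0 (n 8868619 z z) z)))))) (n 0 (n 0 z (n 0 z (n 0 z (n 0 (n 8787003 z z) (n 0 (n
 8873011 z z) (n 0 z z)))))) (n 0 (n 0 z (n 0 z (n 0 z (n 0 z (n 0 z (n 0 z z)))))) (n 0 (n 0 z
 (n 0 (n 8787003 z (n 8787003 z z)) (n 0 (n 8787003 z (n 8787003 z z)) (n 0 z (n 0 z (n 0 (n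
 8794227 z (n 8787003 z z)) z)))))) (n 0 (n 0 (n
 0x30a2e406078208208218218208208207e08207e08207e082082182082082081f8208208208208217e08200801 z
 (n 8787723 z z)) (n 0 (n
 0x158707df81f89e7de8a185f82079f8608228a085f8208e37e08217de86082282082081f8a379f8640041 z (n
 0x70a2e406078207e086281f8208208208208208208208208608607df8608208218207e07df79f82081f81f0801 z
 z)) (n 0 (n
 0xc8708207e08218208208208607e08207e082082082086182082082086082082081f8208608208600041 z (n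
 8787723 z z)) (n 0 z (n 0 z (n 0 z z)))))) z))))))))))))) (n 690 (n 0 (n 0 z (n 0 z (n 0 z (n 0
 z (n 0 z (n 0 z z)))))) (n 0 (n 0 z (n 0 z (n 0 z (n 0 z (n 0 z (n 0 z z)))))) (n 0 (n 0 z (n 0
 z (n 0 z (n 0 z (n 0 z (n 0 z z)))))) (n 0 (n 0 z (n 0 z (n 0 z (n 0 z (n 0 z (n 0 z z)))))) (n
 0 (n 0 z (n 0 z (n 0 z (n 0 z (n 0 z (n 0 z z)))))) (n 0 (n 0 z (n 0 z (n 0 z (n 0 z (n 0 z (n
 0 z z)))))) (n 0 (n 0 z (n 0 z (n 0 z (n 0 z (n 0 z (n 0 z z)))))) (n 0 (n 0 z (n 0 z (n 0 z (n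
 0 z (n 0 z (n 0 z z)))))) (n 0 (n 0 z (n 0 z (n 0 z (n 0 z (n 0 z (n 0 z z)))))) (n 0 (n 0 z (n
 0 z (n 0 z (n 0 z (n 0 z (n 0 z z)))))) z)))))))))) (n 19 (n 0 (n 0 z (n 0 z (n 0 z (n 0 z (n 0
 z (n 0 z z)))))) (n 0 (n 0 z (n 0 z (n 0 z (n 0 z (n 0 z (n 0 z z)))))) (n 0 (n 0 z (n 0 z (n 0
 z (n 0 z (n 0 z (n 0 z z)))))) (n 0 (n 0 z (n 0 z (n 0 z (n 0 z (n 0 z (n 0 z z)))))) (n 0 (n 0
 z (n 0 z (n 0 z (n 0 z (n 0 z (n 0 z z)))))) (n 0 (n 0 z (n 0 z (n 0 z (n 0 z (n 0 z (n 0 z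
 z)))))) (n 0 (n 0 z (n 0 z (n 0 z (n 0 z (n 0 z (n 0 z z)))))) (n 0 (n 0 z (n 0 z (n 0 z (n 0 z
 (n 0 z (n 0 z z)))))) (n 0 (n 0 z (n 0 z (n 0 z (n 0 z (n 0 z (n 0 z z)))))) (n 0 (n 0 z (n 0 z
 (n 0 z (n 0 z (n 0 z (n 0 z z)))))) (n 0 (n 0 z (n 0 z (n 0 (n 8868107 z z) (n 0 z (n 0 z (n 0
 z z)))))) (n 0 (n 0 z (n 0 z (n 0 z (n 0 z (n 0 z (n 0 z z)))))) z)))))))))))) (n 18 (n 0 (n 0
 z (n 0 z (n 0 z (n 0 z (n 0 z (n 0 z z)))))) (n 0 (n 0 z (n 0 z (n 0 z (n 0 z (n 0 z (n 0 z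
 z)))))) (n 0 (n 0 z (n 0 z (n 0 z (n 0 z (n 0 z (n 0 z z)))))) (n 0 (n 0 z (n 0 z (n 0 z (n 0 z
 (n 0 z (n 0 z z)))))) (n 0 (n 0 z (n 0 z (n 0 z (n 0 z (n 0 z (n 0 z z)))))) (n 0 (n 0 z (n 0 z
 (n 0 z (n 0 z (n 0 z (n 0 z z)))))) (n 0 (n 0 z (n 0 z (n 0 z (n 0 z (n 0 z (n 0 z z)))))) (n 0
 (n 0 z (n 0 z (n 0 z (n 0 z (n 0 z (n 0 z z)))))) (n 0 (n 0 z (n 0 z (n 0 z (n 0 z (n 0 z (n 0
 z z)))))) (n 0 (n 0 z (n 0 z (n 0 z (n 0 z (n 0 z (n 0 z z)))))) (n 0 (n 0 z (n 0 z (n 0 z (n 0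
 z (n 0 z (n 0 z z)))))) (n 0 (n 0 z (n 0 z (n 0 z (n 0 z (n 0 (n 8872451 z z) (n 0 (n 8872451 z
 z) z)))))) (n 0 (n 0 z (n 0 z (n 0 z (n 0 z (n 0 z (n 0 z z)))))) z))))))))))))) (n 575 (n 0 (n
 0 z (n 0 z (n 0 z (n 0 z (n 0 z (n 0 z z)))))) (n 0 (n 0 z (n 0 z (n 0 z (n 0 z (n 0 z (n 0 z
 z)))))) (n 0 (n 0 z (n 0 z (n 0 z (n 0 z (n 0 z (n 0 z z)))))) (n 0 (n 0 z (n 0 z (n 0 z (n 0 z
 (n 0 z (n 0 z z)))))) (n 0 (n 0 z (n 0 z (n 0 z (n 0 z (n 0 z (n 0 z z)))))) (n 0 (n 0 z (n 0 z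
 (n 0 z (n 0 z (n 0 z (n 0 z z)))))) (n 0 (n 0 z (n 0 z (n 0 z (n 0 z (n 0 z (n 0 z z)))))) (n 0
 (n 0 z (n 0 z (n 0 z (n 0 z (n 0 z (n 0 z z)))))) (n 0 (n 0 z (n 0 z (n 0 z (n 0 z (n 0 z (n 0
 z z)))))) (n 0 (n 0 z (n 0 (n 8798747 z (n 8798747 z z)) (n 0 (n 8798747 z (n 8798747 z z)) (n
 0 z (n 0 z (n 0 z z)))))) z)))))))))) (n 435 (n 0 (n 0 z (n 0 z (n 0 z (n 0 z (n 0 z (n 0 z
 z)))))) (n 0 (n 0 z (n 0 z (n 0 z (n 0 z (n 0 z (n 0 z z)))))) z)) (n 436 (n 0 (n 0 z (n 0 z (n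
 0 z (n 0 z (n 0 z (n 0 z z)))))) (n 0 (n 0 z (n 0 z (n 0 z (n 0 z (n 0 z (n 0 z z)))))) (n 0 (n
 0 (n 0xc8718207e08218208208208607e08207e082082082086182082082086082082081f8208608208600041 z z)
 (n 0 z (n 0 (n
 0xc8718207e08218208208208607e08207e082082082086182082082086082082081f8208608208600041 z z) (n 0
 z (n 0 z (n 0 z z)))))) (n 0 (n 0 z (n 0 z (n 0 z (n 0 z (n 0 z (n 0 z z)))))) (n 0 (n 0 z (n 0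
 z (n 0 z (n 0 z (n 0 z (n 0 z z)))))) (n 0 (n 0 z (n 0 z (n 0 z (n 0 z (n 0 z (n 0 z z)))))) (n
 0 (n 0 z (n 0 z (n 0 z (n 0 z (n 0 z (n 0 z z)))))) (n 0 (n 0 z (n 0 z (n 0 z (n 0 z (n 0 z (n
 0 z z)))))) (n 0 (n 0 z (n 0 z (n 0 z (n 0 z (n 0 z (n 0 z z)))))) (n 0 (n 0 z (n 0 z (n 0 (n
 0xd8707e181f8a07e082182081f7e08208218208208608a28217a181f8207e18607df8208217e17e10041 z z) (n 0
 z (n 0 z (n 0 z z)))))) (n 0 (n 0 z (n 0 (n 4397099 z z) (n 0 z (n 0 z (n 0 z (n 0 z z)))))) (n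
 0 (n 0 (n 3213355 z z) (n 0 z (n 0 (n 3213355 z z) (n 0 z (n 0 z (n 0 z z)))))) (n 0 (n 0 z (n
 0 z (n 0 z (n 0 z (n 0 z (n 0 z z)))))) (n 0 (n 0 z (n 0 z (n 0 z (n 0 z (n 0 z (n 0 z z))))))
 (n 0 (n 0 z (n 0 z (n 0 z (n 0 z (n 0 z (n 0 z z)))))) (n 0 (n 0 z (n 0 z (n 0 z (n 0 z (n 0 z
 (n 0 z z)))))) (n 0 (n 0 z (n 0 z (n 0 z (n 0 z (n 0 z (n 0 z z)))))) (n 0 (n 0 z (n 0 z (n 0 z
 (n 0 z (n 0 z (n 0 z z)))))) (n 0 (n 0 z (n 0 (n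
 0xc8758207e08218208208208607e08207e082082082086182082082086082082081f8208608208600041 z z) (n 0
 (n 8852811 z z) (n 0 z (n 0 z (n 0 z z)))))) (n 0 (n 0 (n
 0xd8717e181f8618208208208607e08207e18608208618a18207a081f8207e18607df8208617e17e10041 z (n
 0x1c8718207e082181f85f85f85f81f8207e18218608208a27e085f8a08628617a281d7e085f85c8610041 z z)) (n
 0 (n 7604315 z (n
 0xc8758207e08218208208208607e08207e082082082086182082082086082082081f8208608208600041 z z)) (n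
 0 (n 0xc8718207e08218208208208607e08207e082082082086182082082086082082081f8208608208600041 z (n
 0x1c8718207e082181f85f85f85f81f8207e18218608208a27e085f8a08628617a281d7e085f85c8610041 z z)) (n
 0 (n 7604315 z (n 8787723 z z)) (n 0 z (n 0 (n
 0x3242a0548108096755989829c6ea16f8b8872b1816a99674d7d6c7373b693778b8d5e9990818d6a8b89707c4eac978f6e9c9b8a79778c690089
 z (n
 0x4e43988c8106d9c67659782906b9b7a9a8881c38c63856e5d7457727abf8e73779a869f918c8c5ea380688151b3818f7ea6a0717c858c510089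
 z z)) z)))))) (n 0 (n 0 (n
 0x158717df81f89e7de8a185f82079f8608228a085f8208e37e08217de86082282082081f8a379f8640041 z (n
 8787723 z z)) (n 0 z (n 0 (n
 0x158717df81f89e7de8a185f82079f8608228a085f8208e37e08217de86082282082081f8a379f8640041 z (n
 8787723 z z)) (n 0 z (n 0 z (n 0 z z)))))) z))))))))))))))))))))) (n 3 (n 0 (n 0 z (n 0 z (n 0
 z (n 0 z (n 0 z (n 0 z z)))))) (n 0 (n 0 z (n 0 z (n 0 z (n 0 z (n 0 z (n 0 z z)))))) (n 0 (n 0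
 z (n 0 z (n 0 z (n 0 z (n 0 z (n 0 z z)))))) (n 0 (n 0 z (n 0 z (n 0 z (n 0 z (n 0 z (n 0 z
 z)))))) (n 0 (n 0 z (n 0 z (n 0 z (n 0 z (n 0 z (n 0 z z)))))) (n 0 (n 0 z (n 0 z (n 0 z (n 0 z
 (n 0 z (n 0 z z)))))) (n 0 (n 0 z (n 0 z (n 0 z (n 0 z (n 0 z (n 0 z z)))))) (n 0 (n 0 z (n 0 z
 (n 0 z (n 0 z (n 0 z (n 0 z z)))))) z)))))))) (n 1 (n 0 (n 0 z (n 0 z (n 0 z (n 0 z (n 0 z (n 0
 z z)))))) (n 0 (n 0 z (n 0 z (n 0 z (n 0 z (n 0 z (n 0 z z)))))) (n 0 (n 0 z (n 0 z (n 0 z (n 0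
 z (n 0 z (n 0 z z)))))) z))) (n 0 (n 0 (n 0 z (n 0 z (n 0 z (n 0 z (n 0 z (n 0 z z)))))) (n 0
 (n 0 z (n 0 z (n 0 z (n 0 z (n 0 z (n 0 z z)))))) (n 0 (n 0 z (n 0 z (n 0 z (n 0 z (n 0 z (n 0
 z z)))))) (n 0 (n 0 z (n 0 z (n 0 z (n 0 z (n 0 z (n 0 z z)))))) (n 0 (n 0 z (n 0 z (n 0 z (n 0
 z (n 0 z (n 0 z z)))))) (n 0 (n 0 z (n 0 z (n 0 z (n 0 z (n 0 z (n 0 z z)))))) (n 0 (n 0 (n
 0xd8717e181f8a07e082182081f7e08208218208208608a28217a181f8207e18607df8208217e17e10041 z z) (n 0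
 (n 0x1c8718207e082181f85f85f85f81f8207e18218608208a27e085f8a08628617a281d7e085f85c8610041 z z)
 (n 0 z (n 0 (n
 0xd87182181f8607e08608208617e082082182081f8208628207e18208208208207df8218217e17e10041 z z) (n 0
 (n 8872451 z z) (n 0 z z)))))) (n 0 (n 0 z (n 0 (n 8733459 z z) (n 0 z (n 0 z (n 0 z (n 0 z
 z)))))) (n 0 (n 0 z (n 0 z (n 0 z (n 0 (n 8868107 z z) (n 0 (n 8795979 z z) (n 0 z z))))))
 z))))))))) z))))))))))))))))))))) z)))) z) z)))) (n 0x5ad4a2672dd0395e998a74ce0116740 (n 0 (n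
 279 (n 6557731 z (n 2 z (n 6557731 z (n 10 z z)))) (n 255 (n 0 z (n 0 z (n 0 z (n 0 z (n 0 z (n
 6496515 z (n 0 z (n 0 z (n 18 z z))))))))) (n 9 (n 6496515 z (n 0 z (n 0 z (n 0 z z)))) (n 243
 (n 0 z (n 0 z (n 0 z (n 26 z (n 6496515 z z))))) (n 1 (n 0 z (n 6557731 z (n 0 z (n 0 z z))))
 (n 0 (n 0 z (n
 0xa46308a96887e8e85867d867e6d83858783816483558378858a6d81888c7377826e87847b8176737e8580679380989d808582827c0049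
 z (n 0 z (n 0 z (n 6623755 z (n 0 z (n 0 z (n 34 z (n 0 z (n 42 z (n 0 z (n 6619931 z (n 0 z (n
 0 z (n 0 z (n 0 z (n 0 z (n 0 z z)))))))))))))))))) z)))))) (n 279 (n 0 (n 0 z (n 983 (n 0 z (n
 0 z (n 0 z (n 0 z (n 0 z (n 2 (n 2 (n 0 z (n 0 z (n 0 z (n 0 z (n 0 z (n 0 z z)))))) (n 2 (n 0
 z (n 0 z (n 0 z (n 0 z (n 0 z (n 0 z z)))))) (n 2 (n 0 z (n 0 z (n 0 z (n 0 z (n 0 z (n 0 z
 z)))))) z))) z)))))) (n 981 (n 0 z (n 0 z (n 0 z (n 0 z (n 0 z (n 2 (n 2 (n 0 z (n 0 z (n 0 z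
 (n 0 z (n 0 z (n 0 z z)))))) (n 2 (n 0 z (n 0 z (n 0 z (n 0 z (n 0 z (n 0 z z)))))) z)) (n 0 z
 (n 0 z z)))))))) (n 1057 (n 0 z (n 0 z (n 2 (n 0 z z) (n 0 z (n 0 z z))))) (n 1057 (n 0 z (n 0
 z (n 0 z (n 0 z (n 0 z z))))) z))))) (n 0 (n 631 (n 0 z (n 0 z (n 0 z (n 0 z (n 0 z (n 0 z (n 0
 z (n 0 z (n 0 z (n 0 z (n 0 z (n 0 z (n 0 z z))))))))))))) (n 639 (n 0 z (n 0 z (n 0 z (n 0 z
 (n 0 z (n 0 z (n 0 z z))))))) (n 553 (n 0 z (n 0 z (n 0 z (n 0 z (n 0 z (n 0 z (n 0 z (n 0 z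
 z)))))))) (n 553 (n 0 z (n 0 z (n 0 z (n 0 z (n 2 z (n 0 z (n 0 z (n 0 z z)))))))) z)))) (n 0
 (n 627 (n 0 z (n 0 z (n 0 z (n 0 z (n 0 z (n 0 z (n 0 z (n 0 z (n 0 z (n 0 z (n 0 z
 z))))))))))) (n 625 (n 0 z (n 0 z (n 0 z (n 0 z (n 0 z (n 0 z (n 0 z (n 0 z z)))))))) (n 625 (n
 0 z (n 0 z (n 0 z (n 0 z (n 0 z (n 0 z (n 0 z (n 0 z z)))))))) z))) (n 0 (n 485 (n 0 z (n 0 z
 (n 0 z (n 0 z (n 0 z (n 0 z (n 0 z (n 0 z (n 0 z (n 0 z (n 0 z (n 0 z (n 0 z (n 0 z (n 0 z (n 0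
 z (n 0 z z))))))))))))))))) (n 485 (n 0 z (n 0 z (n 0 z (n 0 z (n 0 z (n 0 z (n 0 z (n 0 z (n 0
 z (n 0 z (n 0 z (n 0 z (n 0 z (n 0 z (n 0 z (n 0 z (n 0 z z))))))))))))))))) z)) (n 0 (n 0 z z)
 (n 0 z z)))))) (n 0 (n 1 (n 6557731 z (n 6496515 z (n 6557731 z (n 6557731 z (n 6557731 z (n
 6557731 z z)))))) (n 1 (n 2044 z (n 6496515 z (n 6623755 z (n 2044 z (n 2044 z (n 2044 z
 z)))))) (n 1 (n 6557731 z (n 6496515 z (n 6557731 z (n 6557731 z (n 6557731 z (n 6557731 z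
 z)))))) (n 1 (n 2044 z (n 6496515 z (n 6623755 z (n 2044 z (n 76 z (n 2044 z z)))))) z)))) (n 0
 z z)))) (n 0x217ada2c26315b3342355a1629 (n 0 (n 593 (n 6565923 z (n 0 z (n 0 z (n 0 z (n 0 z (n
 0 z (n 0 z (n 0 z z)))))))) (n 589 (n 2 z (n 6557747 z (n 0 z (n 0 z (n 0 z (n 0 z (n 0 z (n 0
 z z)))))))) (n 9 (n 0 z (n 0 z (n 0 z (n 0 z (n 0 z (n 0 z (n 6562571 z (n 0 z (n 0 z (n 0 z (n
 0 z (n 0 z (n 10 z z))))))))))))) (n 588 (n 0 z (n 0 z (n 0 z (n 0 z (n 0 z (n 6636291 z (n 0 z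
 (n 0 z (n 0 z (n 0 z (n 0 z (n 0 z z)))))))))))) (n 1 (n 6636291 z (n 0 z (n 0 z (n 18 z (n 0 z
 (n 0 z (n 6565923 z (n 26 z (n 0 z (n 0 z (n 0 z z))))))))))) (n 0 (n 6636291 z (n 34 z (n 0 z
 (n 0 z (n 0 z (n 0 z (n 0 z (n 0 z z)))))))) z)))))) (n 593 (n 0 (n 1161 (n 0 z (n 0 z (n 0 z
 (n 0 z (n 0 z (n 0 z (n 0 z (n 0 z (n 0 z (n 0 z (n 0 z (n 0 z (n 0 z z))))))))))))) (n 783 (n
 0 z (n 0 z (n 0 z (n 0 z (n 0 z (n 0 z (n 0 z (n 0 z z)))))))) (n 783 (n 0 z (n 0 z (n 0 z (n 0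
 z (n 0 z (n 0 z (n 0 z (n 0 z z)))))))) (n 785 (n 0 z (n 0 z (n 0 z (n 0 z (n 0 z (n 0 z (n 0 z
 (n 0 z z)))))))) z)))) (n 0 (n 21 (n 0 z (n 0 z (n 0 z (n 0 z (n 0 z (n 0 z (n 0 z (n 0 z (n 0
 z (n 0 z (n 0 z (n 0 z (n 0 z (n 0 z (n 0 z (n 0 z (n 0 z (n 0 z (n 0 z (n 0 z (n 0 z (n 0 z (n
 0 z (n 0 z z)))))))))))))))))))))))) (n 21 (n 0 z (n 0 z (n 0 z (n 0 z (n 0 z (n 0 z (n 0 z (n
 0 z (n 0 z (n 0 z (n 0 z (n 0 z (n 0 z (n 0 z (n 0 z (n 0 z (n 0 z (n 0 z (n 0 z (n 0 z (n 0 z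
 (n 0 z (n 0 z (n 0 z z)))))))))))))))))))))))) (n 841 (n 0 z (n 0 z (n 0 z (n 0 z (n 0 z (n 0 z
 (n 0 z (n 0 z (n 0 z (n 0 z (n 0 z (n 0 z (n 0 z z))))))))))))) z))) (n 0 (n 0 z (n 25 (n 0 z
 (n 0 z (n 0 z (n 0 z (n 0 z (n 0 z (n 0 z (n 0 z (n 0 z z))))))))) z)) (n 0 (n 25 (n 0 z (n 0 z
 (n 0 z (n 0 z (n 0 z (n 0 z (n 0 z (n 0 z z)))))))) z) (n 0 z z))))) (n 0 (n 1 (n 6565923 z (n
 6565923 z (n 6565923 z (n 6636291 z (n 6565923 z (n 6565923 z z)))))) (n 0 z (n 0 z (n 0 z (n 0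
 z (n 0 z (n 0 z (n 0 z z)))))))) (n 0 z z)))) (n 0xd157708ab9b4540 (n 0 (n 153 (n 0 z (n 0 z (n
 0 z (n 0 z (n 3282443 z (n 0 z (n 0 z (n 0 z (n 0 z (n 0 z (n 0 z (n 0 z (n 0 z (n 0 z (n 0 z
 (n 2 z z)))))))))))))))) (n 59 (n 0 z (n 0 z (n 0 z (n 6496515 z (n 0 z (n 0 z (n 0 z (n 0 z (n
 0 z z))))))))) (n 53 (n 0 z (n 0 z (n 0 z (n 0 z (n 0 z (n 0 z (n 0 z (n 0 z (n 0 z (n 6496515
 z (n 0 z (n 0 z (n 0 z (n 0 z z)))))))))))))) (n 3 (n 0 z (n 6496515 z (n 0 z (n 0 z (n 0 z (n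
 6496515 z (n 0 z (n 0 z (n 0 z z))))))))) (n 49 (n 0 z (n 0 z (n 0 z (n 0 z (n 10 z (n 6566419
 z z)))))) (n 0 (n 0 z (n 0 z (n 0 z (n 0 z (n 6627635 z (n 18 z z)))))) z)))))) (n 49 (n 0 (n
 789 (n 0 z (n 0 z (n 0 z (n 0 z (n 0 z (n 0 z (n 0 z (n 0 z (n 0 z (n 0 z (n 0 z (n 0 z (n 0 z
 (n 0 z (n 0 z (n 0 z z)))))))))))))))) (n 589 (n 0 z (n 0 z (n 0 z (n 0 z (n 0 z (n 0 z (n 0 z
 (n 0 z (n 0 z (n 0 z (n 0 z (n 0 z (n 0 z (n 0 z (n 0 z (n 0 z z)))))))))))))))) z)) (n 0 (n 61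
 (n 0 z (n 0 z (n 0 z (n 0 z (n 0 z (n 0 z z)))))) z) (n 0 z z))) (n 0 (n 0 z (n 0 z (n 0 z (n 0
 z (n 1 (n 1228 z (n 1228 z (n 1228 z (n 1228 z (n 1228 z (n 476 z z)))))) (n 1 (n 6566419 z (n
 6566419 z (n 6566419 z (n 6566419 z (n 6566419 z (n 6566419 z z)))))) z)))))) (n 0 z z)))) (n
 0x12bb00 (n 0 (n 453 (n 3282443 z (n 0 z (n 0 z (n 0 z (n 2 z z))))) (n 33 (n 0 z (n
 0x3995194c80e02ca6ca0403046515302018d32a218101c1995150800e0cca4a64007827c676fab7882737c804b8e7db272747f98828c837c7b6a8f73799b7c6c987e86667484a350698e82677a7c848ca66972983009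
 z (n 0 z (n 6635827 z (n 4326939 z (n 6635827 z (n
 0x8ca4a608070464364320381aa1b20901c119490c800e04a84ca20037b93797586848b7d7a808387895596658a669f7599826dc35b9478867da07f528d75756f48ac8f849971837890b652668e762809
 z (n
 0xd50d90480e06ca8c804070765463020383b2a32a000c0990950800e0ca84ca20077c6e81807d7e84817f806b817d9578847d867c82837c8271897b7f7880857e897b82747f8f7077807e7e80857a868d867a8c3009
 z z)))))))) (n 129 (n 0 z (n 0 z (n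
 0x64154100380241080808080808080808180808080808080808080808080808080808080808080808080808080808080808080808080808080800849
 z (n 0 z (n 0 z (n 0 z (n 3212843 z (n 0 z (n 0 z z))))))))) (n 3 (n 0 z (n 4326971 z (n
 2164283 z (n 0 z (n 0 z (n 0 z (n
 0x6994814b290306528475898b757f7a8380807b7d7f8e7a887e847386777c866e8e788777828280946e857d7d8e6a79877a8b8384797b8b8a798200c9
 z (n
 0xca8a82403096535412018532a328101c099515008060cca8ca80070465454200180aa1319001c1194950400e18ca2a820078473737d8d7d88767b8069827aa07d7e769d7f88827e89569468818b8066918d877d8285ab61718073776e837e80a57880924809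
 z (n 0 z (n 0 z (n 0 z (n
 0x2ca4ca28030165265040184b28a90200c0d94994800e0ac84a4200783737a7c8c7e847e808063847ca56f787c917d8b807d7e698a7280887f668a927c82798aa4656e8a71796f83847aa38472972809
 z (n 0 z (n 0 z (n
 0x8a10b18281c759058814061eca2ca08031165464020388b2a32a000c2d90950800e0aca4ca200756285d94d35482567380078b87f0753c6d8d7780d2445186731a8d889c86b0dd796c3873a0642bb6237247b7988ab6d61ddf3809
 z (n 0 z (n 0 z (n 0 z (n 0 z (n 0 z z)))))))))))))))))))) (n 1 (n 0 z (n 6635827 z (n 0 z (n 0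
 z (n 0 z (n 0 z (n 0 z (n 0 z (n 0 z (n 0 z (n 0 z (n 0 z (n 0 z (n 0 z (n 0 z (n 0 z
 z)))))))))))))))) (n 0 (n 6635827 z (n 0 z (n 0 z (n 0 z (n 0 z (n 0 z (n 0 z (n 0 z (n 0 z (n
 0 z (n 0 z z))))))))))) z)))))) (n 453 (n 0 z z) (n 0 (n 1 (n 3282443 z (n 3282443 z (n 3282443
 z (n 3282443 z (n 3282443 z (n 3282443 z z)))))) (n 0 z (n 0 z (n 0 z (n 1 (n 268 z (n 268 z (n
 268 z (n 268 z (n 268 z (n 268 z z)))))) z))))) (n 0 z z)))) (n 0 (n 0 (n 153 (n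
 0x159498c840e22c84c64207176640a68c80ec9901d832089857f8080828575858f7c7b807b7a838f82797b81877f7c7d7d8082848180807f838d81817f8587857c83897d7b818788851109
 z (n
 0x2ca8a8420780807e8080818082807f7f8082818080808080817f807f8281807e82807e8080817f7d827f808080808181807f7f8181817f0809
 z (n
 0x2ca8a862038080808080808080808181807e80808081807f7f807f807f8180808080808080808080807f8080808080807f8180808080800809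
 z (n 0 z (n
 0xa42163050180b2a32a101c6995190480600a82c6040782927d7e808377827a76767e737b8c7d7883836d7c7e707e8191848a7c8b896d8a7884847878929487717e7e767e797280802009
 z (n 4331019 z (n 3282443 z (n 4331019 z (n 0 z (n
 0x4c86c86407818080818081807f808180808081808080818080808080808080808080807f808081808080808080808080818080808080800809
 z (n 0 z (n 0 z (n 0 z z))))))))))))) (n 57 (n 0 z (n 0 z (n 0 z (n 0 z (n 0 z (n 0 z (n 0 z (n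
 6496515 z z)))))))) (n 51 (n 0 z (n 0 z (n 0 z (n 0 z (n 0 z (n 0 z (n 0 z (n 6496515 z (n 0 z
 (n 0 z (n 0 z (n
 0x2ca8ca820380807e8080808080808180827e8080808080817f8080808081817c80827f7e7f82808180808080808080807f8080808080800809
 z (n 0 z (n 0 z (n 0 z (n 6496515 z (n 0 z (n 0 z (n 0 z z))))))))))))))))))) (n 27 (n 0 z (n
 0x1165265210382b29328081c4595190040e22c62a420072966415a8c820c990418320868a8f86808883768f987d4e927b728299897075858a7e7a7e8aa486717b9080858d93797e7c8d88857e88907f80808f908d2109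
 z (n 4331067 z (n 6496515 z (n 4331067 z (n
 0x2ca8a802038080808080808080808181807e80808081807f7f807f807f8180808080808080808080807f8080808080807f8180808080800809
 z (n 0 z (n 6496515 z (n
 0x4ca4ca28030065152040183b29288200c0194994840e02ca8a80207808282807e80807f7f81827782807e7f84817c7f808082808082807e7c807f827f80817f8380827f8080818081817f8180812809
 z (n 0 z (n
 0x2ca8a8420780807e8080818082807f7f8082818080808080817f807f8281807e82807e8080817f7d827f808080808181807f7f8181817f0809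
 z (n 0 z (n 0 z (n 0 z (n 0 z (n
 0x195195080e02ca8ca24030564354020180b21321080c0595150840606ca4ca020782808181807e7e808081807b8080817f82817e808081807f8083827e7f7e818180808080807f817f8080817f82817e807f7f3009
 z (n 0 z (n 0 z (n 0 z (n 0 z z)))))))))))))))))))) (n 1 (n 0 z (n 0 z (n 0 z (n 0 z (n 6554411
 z z))))) (n 0 (n 0 z (n 0 z (n 0 z (n 0 z (n 0 z (n 0 z (n 0 z (n 0 z (n 2164315 z (n 0 z (n 0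
 z (n
 0xc86c8640380817f818280807f8080807f80807f808080807f8080807f8080808081807f7f81808080808081807f7f80807f80808080800809
 z (n
 0x2c86c8240380817e80827f807f808180827f817f818080817f807f7e80807f7e8080817f7f8180808080808081807f80807f81808080800809
 z (n 0 z (n 0 z (n
 0xc86c8640380817f818280807f8080807f80807f808080807f8080807f8080808081807f7f81808080808081807f7f80807f80808080800809
 z (n
 0x2c86c8640380807d7f847e808080808080807e7f80808080808282808080818080807f81818080808080808080818080808080808080800809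
 z z))))))))))))))))) z)))))) (n 1 z (n 0 (n 0 z (n 0 z (n 0 z (n 0 z (n 1 (n 6554411 z (n
 6554411 z (n 6554411 z (n 6554411 z (n 6554411 z (n 6554411 z z)))))) z))))) (n 0 z z))))
 z)))))))))), by decide +kernel⟩
theorem i10845 : ∃ t, chkR KT RW t 10845 10853 = true := ⟨(n
 0xd9cb46acca33ae5798716d588633432f3a21 (n 0 (n 153 (n 0 z (n 3282443 z (n 0 z z))) (n 57 (n 2 z
 (n 10 z (n 6496515 z (n 0 z (n 6496515 z (n 0 z (n 18 z z))))))) (n 51 (n 0 z (n 0 z (n 26 z (n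
 0 z (n 0 z (n 0 z (n 6496515 z (n 0 z z)))))))) (n 27 (n 0 z (n 6496515 z (n 0 z (n 0 z (n 0 z
 z))))) (n 1 (n 0 z (n 0 z (n 0 z (n 0 z (n 0 z (n 0 z (n 6554411 z (n 0 z z)))))))) (n 0 (n 0 z
 (n 0 z (n 0 z (n 0 z (n 0 z (n 0 z (n 0 z (n 0 z (n 0 z (n 0 z (n 0 z (n 0 z (n 34 z (n 6627595
 z (n 0 z (n 42 z (n 0 z (n 50 z z)))))))))))))))))) z)))))) (n 153 (n 0 (n 0 z (n 0 z (n 731 (n
 0 z (n 0 z (n 0 z (n 0 z (n 0 z (n 0 z (n 0 z z))))))) (n 113 (n 0 z (n 0 z (n 0 z (n 0 z (n 0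
 z (n 0 z (n 0 z (n 0 z (n 0 z z))))))))) (n 113 (n 0 z (n 0 z (n 0 z (n 0 z (n 0 z (n 0 z (n 0
 z (n 0 z (n 0 z z))))))))) (n 113 (n 0 z (n 0 z (n 0 z (n 0 z (n 0 z (n 0 z (n 0 z (n 0 z (n 2
 z z))))))))) z)))))) (n 0 (n 0 z (n 779 (n 0 z (n 0 z (n 0 z (n 0 z (n 0 z (n 0 z (n 0 z (n 0 z
 (n 0 z z))))))))) (n 721 (n 0 z (n 0 z (n 0 z (n 0 z (n 0 z (n 0 z (n 0 z (n 0 z (n 0 z (n 0 z
 (n 0 z (n 2 (n 0 z (n 0 z z)) (n 0 z z))))))))))))) (n 721 (n 0 z (n 0 z (n 0 z (n 0 z (n 0 z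
 (n 0 z (n 0 z (n 2 (n 0 z z) (n 0 z (n 0 z (n 0 z (n 0 z (n 0 z z))))))))))))) (n 721 (n 0 z (n
 0 z (n 0 z (n 0 z (n 0 z (n 0 z (n 0 z (n 0 z (n 0 z (n 0 z (n 0 z (n 0 z (n 0 z z)))))))))))))
 z))))) (n 0 (n 123 (n 0 z (n 0 z (n 2 (n 1 z (n 1 z (n 1 z z))) (n 0 z (n 0 z (n 0 z (n 0 z (n
 0 z (n 0 z (n 0 z (n 0 z (n 0 z (n 0 z (n 0 z (n 0 z z))))))))))))))) (n 65 (n 0 z (n 0 z (n 0
 z (n 0 z (n 0 z (n 0 z (n 0 z (n 0 z (n 0 z z))))))))) (n 65 (n 0 z (n 0 z (n 0 z (n 0 z (n 0 z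
 (n 0 z (n 0 z (n 0 z (n 0 z z))))))))) (n 65 (n 0 z (n 0 z (n 2 z (n 0 z (n 0 z (n 0 z (n 0 z
 (n 0 z (n 0 z z))))))))) z)))) (n 0 (n 101 (n 0 z (n 0 z (n 0 z (n 0 z (n 0 z (n 0 z (n 0 z (n
 0 z (n 0 z z))))))))) (n 101 (n 0 z (n 0 z (n 0 z (n 2 (n 0 z z) (n 0 z (n 0 z (n 0 z (n 0 z (n
 0 z z))))))))) (n 101 (n 0 z (n 0 z (n 0 z (n 0 z (n 0 z (n 0 z (n 0 z (n 0 z (n 7673403 z
 z))))))))) z))) (n 0 (n 0 z (n 0 z z)) (n 0 (n 0 z z) (n 0 z z))))))) (n 0 (n 0 z (n 1 (n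
 6496515 z (n 3282443 z (n 3282443 z (n 3282443 z (n 3282443 z (n 3282443 z z)))))) (n 0 z z)))
 (n 0 z z)))) (n 0x1b2728d117465a4a21b1dc3272210b53609c6902d3db210a508476c980ccb80 (n 0 (n 153
 (n 6619931 z (n
 0x8ca6a6420389f86286081d86075d7db92091d6e289e6e67238217a28617e48617a38608627e079d8218200801 z
 (n 0x6ca6c8640381c86095f8207e08dc79b8e085f7628215e67e09218e18217e17e47e385e7dc7e07208208610801
 z (n 6619931 z (n 2 z (n 3282443 z (n 3282443 z (n 0 z (n 0 z (n 0 z (n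
 0x65365320182ca8ca42076d79a289f6a46a5a5a7158e295f7e279d4a781caa191e9208218258e17df7da6dd61d7de7df1001
 z (n 0 z (n 10 z z))))))))))))) (n 33 (n 0 z (n 18 z (n 0 z (n 0 z (n 6496515 z (n 0 z (n 26 z
 z))))))) (n 51 (n 0 z (n 6496515 z (n 6496515 z (n 0 z (n 0 z (n 0 z z)))))) (n 27 (n 34 z (n
 6496515 z (n 0 z (n 0 z (n 42 z z))))) (n 1 (n 6554411 z (n 50 z (n 0 z (n 0 z (n 0 z (n 58 z
 z)))))) (n 0 (n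
 0x4ca686240782086086082082082182082082082082081f82082082082082081f86081f86082082081f8200801 z
 (n 0 z (n 0 z (n 0 z (n 6623755 z (n 0 z (n 6623755 z (n 6619931 z (n
 0xb21b20900c465343020382ca686420379d8608a07e08608a07de8a08a082282076182082182181f8208208608608208207df81f8201801
 z (n 0 z (n
 0x2c86c864037a181e86182386085f82085f82081d85f85e81f8228617df89e86289f7a285e85f7e181f8a00801 z
 (n 0x6c86c8240381c86095f8207e08dc79b8e085f7628215e67e09218e18217e17e47e385e7dc7e07208208610801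
 z (n 0 z (n 0 z (n
 0x2c86c864037a181e86182386085f82085f82081d85f85e81f8228617df89e86289f7a285e85f7e181f8a00801 z
 (n 0 z (n 66 z (n
 0x536208ac79c72095fa1b62a96e6df7228d8863dcf7de6e17a181e89c85d7a06e291ea1c9248209220041 z (n 0 z
 (n 0 z (n
 0x5ec84c842038198148137f88357e787279180979f7f680b8007fe7f97f88017fa7f184080886f7f57ee7d97fa83c7fc7ed80a81482f7a784e7ae7fe7c28a38277868387cd82b7f17f47d682381a8028220811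
 z (n 0 z (n 0 z (n 0 z (n 0 z (n 0 z (n 6619931 z (n
 0x364364120186c868604078647a091e85f92476382085e81f8258e07607a26df92076382185f8e68dd86179f81f7de8601001
 z (n 0 z (n 0 z (n 0 z (n 0 z (n
 0x2ca68642077e28627e181f8607e38218217e086082085e7a17e08617e07df81f8207e182182085f81f8a00801 z
 (n
 0x64264030184c868604078207a18a07a28237e18208a082185e8637e07616de82276086381f7e495b8a289f7e06e28221001
 z (n 0 z (n 0 z (n 0 z (n 6619931 z (n 74 z (n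
 0x6c86c824037e281f8608a18e07e182085d8207a18207e08217e18a176082085f85f82185f85f7e08218600801 z
 (n 0 z (n 0 z (n 82 z (n 0 z (n 90 z (n 0 z (n 0 z
 z))))))))))))))))))))))))))))))))))))))))))))))) z)))))) (n 27 (n 0 (n 0 z (n 1007 (n 0 z (n 0
 z (n 0 z (n 0 z (n 2 (n 0 z (n 1 z (n 2 (n 0 z (n 0 z (n 0 z (n 0 z (n 0 z (n 0 z z)))))) (n 1
 z (n 2 (n 0 z (n 0 z (n 0 z (n 0 z (n 0 z (n 0 z z)))))) (n 2 (n 0 z (n 0 z (n 0 z (n 0 z (n 0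
 (n 1220 z (n 1220 z z)) (n 0 (n 1220 z z) z)))))) (n 2 (n 0 z (n 0 z (n 0 z (n 0 z (n 0 (n 1220
 z z) (n 0 z z)))))) (n 2 (n 0 z (n 0 z (n 0 z (n 0 z (n 0 z (n 0 z z)))))) (n 2 (n 0 z (n 0 z
 (n 0 z (n 0 z (n 0 z (n 0 z z)))))) z))))))))) (n 0 z (n 0 z (n 0 z (n 0 z (n 0 z (n 0 z (n 0 z
 (n 0 z (n 0 z (n 0 z (n 0 z z)))))))))))))))) (n 1007 (n 0 z (n 0 z (n 0 z (n 0 z (n 0 z (n 0 z
 (n 0 z (n 0 z (n 0 z (n 0 z (n 0 z (n 0 z (n 0 z (n 0 z (n 0 z (n 0 z z)))))))))))))))) (n 1001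
 (n 0 z (n 0 z (n 0 z (n 2 (n 0 z (n 1 z (n 2 (n 0 z (n 0 z (n 0 z (n 0 z (n 0 z (n 0 z z))))))
 (n 2 (n 0 z (n 0 z (n 0 z (n 0 z (n 0 z (n 0 z z)))))) (n 2 (n 0 z (n 0 z (n 0 z (n 0 z (n 0 z
 (n 0 z z)))))) (n 2 (n 0 z (n 0 z (n 0 z (n 0 z (n 0 z (n 0 z z)))))) (n 2 (n 0 z (n 0 z (n 0 z
 (n 0 z (n 0 z (n 0 z z)))))) z))))))) (n 0 z (n 0 z (n 0 z z))))))) (n 1001 (n 0 z (n 0 z (n 0
 z (n 0 z (n 0 z (n 0 z (n 0 z z))))))) (n 309 (n 0 z (n 0 z (n 0 z (n 0 z (n 0 z (n 0 z (n 0 z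
 (n 0 z (n 0 z (n 0 z (n 0 z (n 0 z (n 0 z (n 0 z (n 2 (n 0 z (n 2 (n 0 z (n 0 z (n 0 z (n 0 z
 (n 0 (n 1220 z (n 1220 z z)) (n 0 (n 1220 z z) z)))))) (n 2 (n 0 z (n 0 z (n 0 z (n 0 z (n 0 z
 (n 0 z z)))))) (n 2 (n 0 z (n 0 z (n 0 z (n 0 z (n 0 z (n 0 z z)))))) (n 2 (n 0 z (n 0 z (n 0 z
 (n 0 z (n 0 z (n 0 z z)))))) z))))) (n 0 z (n 0 z z))))))))))))))))) (n 309 (n 0 z (n 0 z (n 0
 z (n 0 z (n 0 z (n 0 z (n 0 z (n 0 z (n 0 z (n 0 z (n 0 z (n 0 z (n 0 z (n 0 z (n 0 z (n 0 z (n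
 0 z z))))))))))))))))) (n 305 (n 0 z (n 0 z (n 0 z (n 0 z z)))) (n 305 (n 0 z (n 0 z (n 0 z (n
 0 z z)))) (n 305 (n 0 z (n 0 z (n 0 z (n 0 z z)))) (n 305 (n 0 z (n 0 z (n 0 z (n 0 z z))))
 z))))))))))) (n 0 (n 1185 (n 0 z (n 0 z (n 0 z (n 0 z (n 0 z (n 2 (n 0 z (n 1 z (n 1 z (n 1 z
 (n 1 z (n 2 (n 0 z (n 0 z (n 0 z (n 0 z (n 0 z (n 0 z z)))))) (n 1 z (n 2 (n 0 z (n 0 z (n 0 z
 (n 0 z (n 0 z (n 0 z z)))))) (n 1 z z))))))))) (n 0 z (n 0 z (n 0 z (n 0 z (n 0 z (n 0 z (n 0 z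
 (n 0 z (n 0 z (n 0 z (n 0 z z))))))))))))))))) (n 1185 (n 0 z (n 0 z (n 0 z (n 0 z (n 0 z (n 0
 z (n 0 z (n 0 z (n 0 z (n 0 z (n 0 z (n 0 z (n 0 z (n 0 z (n 0 z (n 0 z (n 0 z
 z))))))))))))))))) (n 535 (n 0 z (n 0 z (n 2 (n 0 z (n 1 z (n 1 z (n 2 (n 0 z (n 0 z (n 0 z (n
 0 z (n 0 z (n 0 z z)))))) (n 1 z (n 1 z (n 1 z z))))))) (n 0 z (n 0 z (n 0 z (n 0 z (n 0 z
 z)))))))) (n 535 (n 0 z (n 0 z (n 0 z (n 0 z (n 0 z (n 0 z (n 0 z (n 0 z z)))))))) (n 531 (n 0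
 z (n 0 z (n 0 z (n 2 (n 0 z (n 2 (n 0 z (n 0 z (n 0 z (n 0 z (n 0 z (n 0 z z)))))) (n 2 (n 0 z
 (n 0 z (n 0 z (n 0 z (n 0 z (n 0 z z)))))) (n 2 (n 0 z (n 0 z (n 0 z (n 0 z (n 0 z (n 0 z
 z)))))) (n 2 (n 0 z (n 0 z (n 0 z (n 0 z (n 0 z (n 0 z z)))))) z))))) (n 0 z (n 0 z (n 0 z (n 0
 z (n 0 z z))))))))) (n 531 (n 0 z (n 0 z (n 0 z (n 0 z (n 0 z (n 0 z (n 0 z (n 0 z (n 0 z
 z))))))))) (n 529 (n 0 z (n 0 z (n 0 z (n 0 z (n 0 z (n 0 z (n 0 z (n 0 z (n 0 z (n 0 z (n 0 z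
 (n 0 z z)))))))))))) (n 529 (n 0 z (n 0 z (n 0 z (n 0 z (n 0 z (n 0 z (n 0 z (n 0 z (n 0 z (n 0
 z (n 0 z (n 0 z z)))))))))))) (n 529 (n 0 z (n 0 z (n 0 z (n 0 z (n 0 z (n 0 z (n 0 z (n 0 z (n
 0 z (n 0 z (n 0 z (n 2 (n 0 z z) z)))))))))))) (n 529 (n 0 z (n 0 z (n 0 z (n 0 z (n 0 z (n 0 z
 (n 0 z (n 0 z (n 0 z (n 0 z (n 0 z (n 0 z z)))))))))))) z)))))))))) (n 0 (n 0 z (n 535 (n 0 z
 (n 0 z (n 0 z (n 0 z (n 0 z (n 0 z (n 0 z (n 0 z (n 0 z (n 0 z (n 0 z (n 0 z (n 0 z (n 0 z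
 z)))))))))))))) (n 535 (n 0 z (n 0 z (n 0 z (n 0 z (n 0 z (n 0 z (n 0 z (n 0 z (n 0 z (n 0 z (n
 0 z (n 0 z (n 0 z (n 2 (n 1 z (n 2 (n 0 z (n 0 z (n 0 z (n 0 z (n 0 z (n 0 z z)))))) (n 2 (n 0
 z (n 0 z (n 0 z (n 0 z (n 0 z (n 0 z z)))))) (n 1 z (n 2 (n 0 z (n 0 z (n 0 z (n 0 z (n 0 z (n
 0 z z)))))) (n 2 (n 0 z (n 0 z (n 0 z (n 0 z (n 0 z (n 0 z z)))))) z)))))) z)))))))))))))) (n
 483 (n 0 z (n 0 z (n 0 z (n 0 z (n 0 z (n 0 z (n 0 z (n 0 z (n 0 z (n 0 z z)))))))))) (n 483 (n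
 0 z (n 0 z (n 0 z (n 0 z (n 0 z (n 0 z (n 0 z (n 0 z (n 0 z (n 2 (n 2 (n 0 z (n 0 z (n 0 z (n 0
 z (n 0 z (n 0 z z)))))) (n 1 z (n 2 (n 0 z (n 0 z (n 0 z (n 0 z (n 0 z (n 0 z z)))))) (n 2 (n 0
 z (n 0 z (n 0 z (n 0 z (n 0 z (n 0 z z)))))) z)))) z)))))))))) (n 481 (n 0 z (n 0 z (n 0 z (n 0
 z (n 0 z (n 0 z (n 0 z (n 0 z (n 0 z (n 0 z (n 0 z (n 0 z (n 0 z (n 0 z (n 0 z (n 0 z (n 0 z (n
 0 z (n 2 (n 0 z (n 0 z (n 0 z z))) (n 0 z (n 0 z (n 0 z (n 0 z (n 0 z (n 0 z (n 0 z (n 0 z (n 0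
 z (n 0 z (n 0 z (n 0 z (n 0 z (n 0 z (n 0 z (n 0 z (n 0 z (n 0 z (n 0 z (n 0 z (n 0 z (n 0 z (n
 0 z (n 0 z (n 0 z (n 0 z (n 0 z z)))))))))))))))))))))))))))))))))))))))))))))) (n 481 (n 0 z
 (n 0 z (n 0 z (n 0 z (n 0 z (n 0 z (n 0 z (n 0 z (n 0 z (n 0 z (n 0 z (n 0 z (n 0 z (n 0 z (n 0
 z (n 0 z (n 0 z (n 0 z (n 0 z (n 0 z (n 0 z (n 0 z (n 0 z (n 0 z (n 0 z (n 0 z (n 0 z (n 0 z (n
 0 z (n 0 z (n 0 z (n 0 z (n 0 z (n 0 z (n 0 z (n 0 z (n 0 z (n 0 z (n 0 z (n 0 z (n 0 z (n 0 z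
 (n 0 z (n 0 z (n 0 z (n 0 z z)))))))))))))))))))))))))))))))))))))))))))))) (n 481 (n 0 z (n 0
 z (n 0 z (n 0 z (n 0 z (n 0 z (n 0 z (n 0 z (n 0 z (n 0 z (n 0 z (n 0 z (n 0 z (n 0 z (n 0 z (n
 0 z (n 0 z (n 0 z (n 0 z (n 0 z (n 0 z (n 0 z (n 0 z (n 0 z (n 0 z (n 0 z (n 0 z (n 0 z (n 0 z
 (n 0 z (n 0 z (n 0 z (n 0 z (n 0 z (n 0 z (n 0 z (n 0 z (n 0 z (n 0 z (n 0 z (n 2 (n 0 z z) (n
 0 z (n 0 z (n 0 z (n 0 z (n 0 z z)))))))))))))))))))))))))))))))))))))))))))))) (n 481 (n 0 z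
 (n 0 z (n 0 z (n 0 z (n 0 z (n 0 z (n 0 z (n 0 z (n 0 z (n 0 z (n 0 z (n 0 z (n 0 z (n 0 z (n 0
 z (n 0 z (n 0 z (n 0 z (n 0 z (n 0 z (n 0 z (n 0 z (n 0 z (n 0 z (n 0 z (n 0 z (n 0 z (n 0 z (n
 0 z (n 0 z (n 0 z (n 0 z (n 0 z (n 0 z (n 0 z (n 0 z (n 0 z (n 0 z (n 0 z (n 0 z (n 0 z (n 0 z
 (n 0 z (n 2 z (n 0 z (n 0 z z)))))))))))))))))))))))))))))))))))))))))))))) z))))))))) (n 0 (n
 75 (n 0 z (n 0 z (n 2 (n 0 z (n 1 z (n 1 z (n 2 (n 0 z (n 0 z (n 0 z (n 0 z (n 0 z (n 0 z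
 z)))))) (n 1 z (n 2 (n 0 z (n 0 z (n 0 z (n 0 z (n 0 z (n 0 z z)))))) (n 1 z z))))))) (n 0 z (n
 0 z (n 0 z (n 0 z (n 0 z z)))))))) (n 75 (n 0 z (n 0 z (n 0 z (n 0 z (n 0 z (n 0 z (n 0 z (n 0
 z z)))))))) (n 63 (n 2 (n 0 z (n 2 (n 0 z (n 0 z (n 0 z (n 0 z (n 0 z (n 0 z z)))))) (n 2 (n 0
 z (n 0 z (n 0 z (n 0 z (n 0 z (n 0 z z)))))) (n 2 (n 0 z (n 0 z (n 0 z (n 0 z (n 0 z (n 0 z
 z)))))) (n 2 (n 0 z (n 0 z (n 0 z (n 0 z (n 0 z (n 0 z z)))))) z))))) (n 0 z (n 0 z z))) (n 63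
 (n 0 z (n 0 z (n 0 z z))) (n 65 (n 0 z (n 0 z (n 0 z (n 0 z (n 0 z (n 0 z (n 0 z (n 0 z (n 0 z
 (n 0 z (n 0 z (n 0 z z)))))))))))) (n 65 (n 0 z (n 0 z (n 0 z (n 0 z (n 0 z (n 0 z (n 0 z (n 0
 z (n 0 z (n 0 z (n 0 z (n 0 z z)))))))))))) (n 65 (n 0 z (n 0 z (n 2 (n 0 z z) (n 0 z (n 0 z (n
 0 z (n 0 z (n 0 z (n 0 z (n 0 z (n 0 z (n 0 z z)))))))))))) (n 65 (n 0 z (n 0 z (n 0 z (n 0 z
 (n 0 z (n 0 z (n 0 z (n 0 z (n 0 z (n 0 z (n 0 z (n 0 z z)))))))))))) z)))))))) (n 0 (n 0 z (n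
 483 (n 0 z (n 0 z (n 0 z (n 0 z (n 0 z (n 0 z (n 0 z (n 0 z z)))))))) (n 483 (n 0 z (n 0 z (n 0
 z (n 0 z (n 0 z (n 2 (n 2 (n 0 z (n 0 z (n 0 z (n 0 z (n 0 z (n 0 z z)))))) (n 2 (n 0 z (n 0 z
 (n 0 z (n 0 z (n 0 z (n 0 z z)))))) (n 1 z (n 1 z z)))) (n 0 z (n 0 z z)))))))) (n 481 (n 0 z
 (n 0 z (n 0 z (n 0 z (n 0 z (n 0 z (n 0 z (n 0 z (n 0 z (n 0 z (n 0 z (n 0 z (n 0 z (n 0 z (n 0
 z (n 0 z (n 0 z (n 0 z (n 0 z (n 0 z (n 0 z (n 0 z (n 0 z (n 0 z (n 0 z (n 0 z (n 0 z (n 2 (n 0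
 z (n 0 z (n 0 z z))) (n 0 z (n 0 z (n 0 z (n 0 z (n 0 z (n 0 z (n 0 z (n 0 z (n 0 z (n 0 z (n 0
 z (n 0 z (n 0 z (n 0 z (n 0 z (n 0 z (n 0 z (n 0 z (n 0 z (n 0 z (n 0 z (n 0 z (n 0 z (n 0 z (n
 0 z (n 0 z (n 0 z (n 0 z z)))))))))))))))))))))))))))))))))))))))))))))))))))))))) (n 481 (n 0
 z (n 0 z (n 0 z (n 0 z (n 0 z (n 0 z (n 0 z (n 0 z (n 0 z (n 0 z (n 0 z (n 0 z (n 0 z (n 0 z (n
 0 z (n 0 z (n 0 z (n 0 z (n 0 z (n 0 z (n 0 z (n 0 z (n 0 z (n 0 z (n 0 z (n 0 z (n 0 z (n 0 z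
 (n 0 z (n 0 z (n 0 z (n 0 z (n 0 z (n 0 z (n 0 z (n 0 z (n 0 z (n 0 z (n 0 z (n 0 z (n 0 z (n 0
 z (n 0 z (n 0 z (n 0 z (n 0 z (n 0 z (n 0 z (n 0 z (n 0 z (n 0 z (n 0 z (n 0 z (n 0 z (n 0 z (n
 0 z z)))))))))))))))))))))))))))))))))))))))))))))))))))))))) (n 481 (n 0 z (n 0 z (n 0 z (n 0
 z (n 0 z (n 0 z (n 0 z (n 0 z (n 0 z (n 0 z (n 0 z (n 0 z (n 0 z (n 0 z (n 0 z (n 0 z (n 0 z (n
 0 z (n 0 z (n 0 z (n 0 z (n 0 z (n 0 z (n 0 z (n 0 z (n 0 z (n 0 z (n 0 z (n 0 z (n 0 z (n 0 z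
 (n 0 z (n 0 z (n 0 z (n 0 z (n 0 z (n 0 z (n 0 z (n 0 z (n 0 z (n 0 z (n 0 z (n 0 z (n 0 z (n 0
 z (n 0 z (n 0 z (n 0 z (n 2 (n 0 z z) (n 0 z (n 0 z (n 0 z (n 0 z (n 0 z (n 0 z (n 0 z
 z)))))))))))))))))))))))))))))))))))))))))))))))))))))))) (n 481 (n 0 z (n 0 z (n 0 z (n 0 z (n
 0 z (n 0 z (n 0 z (n 0 z (n 0 z (n 0 z (n 0 z (n 0 z (n 0 z (n 0 z (n 0 z (n 0 z (n 0 z (n 0 z
 (n 0 z (n 0 z (n 0 z (n 0 z (n 0 z (n 0 z (n 0 z (n 0 z (n 0 z (n 0 z (n 0 z (n 0 z (n 0 z (n 0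
 z (n 0 z (n 0 z (n 0 z (n 0 z (n 0 z (n 0 z (n 0 z (n 0 z (n 0 z (n 0 z (n 0 z (n 2 z (n 0 z (n
 0 z (n 0 z (n 0 z (n 0 z (n 0 z (n 0 z (n 0 z (n 0 z (n 0 z (n 0 z (n 0 z
 z)))))))))))))))))))))))))))))))))))))))))))))))))))))))) z))))))) (n 0 (n 531 (n 2 (n 0 z (n 2
 (n 0 z (n 0 z (n 0 z (n 0 z (n 0 z (n 0 z z)))))) (n 2 (n 0 z (n 0 z (n 0 z (n 0 z (n 0 z (n 0
 z z)))))) (n 2 (n 0 z (n 0 z (n 0 z (n 0 z (n 0 z (n 0 z z)))))) (n 2 (n 0 z (n 0 z (n 0 z (n 0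
 z (n 0 z (n 0 z z)))))) z))))) (n 0 z (n 0 z (n 0 z (n 0 z z))))) (n 531 (n 0 z (n 0 z (n 0 z
 (n 0 z (n 0 z z))))) (n 529 (n 0 z (n 0 z (n 0 z (n 0 z (n 0 z (n 0 z (n 0 z (n 0 z (n 0 z (n 0
 z (n 0 z (n 0 z (n 0 z (n 0 z (n 0 z (n 0 z (n 0 z (n 0 z (n 0 z (n 0 z (n 0 z (n 0 z (n 0 z (n
 0 z (n 0 z z))))))))))))))))))))))))) (n 529 (n 0 z (n 0 z (n 0 z (n 0 z (n 0 z (n 0 z (n 0 z
 (n 0 z (n 0 z (n 0 z (n 0 z (n 0 z (n 0 z (n 0 z (n 0 z (n 0 z (n 0 z (n 0 z (n 0 z (n 0 z (n 0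
 z (n 0 z (n 0 z (n 0 z (n 0 z z))))))))))))))))))))))))) (n 529 (n 0 z (n 0 z (n 0 z (n 0 z (n
 0 z (n 0 z (n 0 z (n 0 z (n 0 z (n 0 z (n 0 z (n 0 z (n 0 z (n 0 z (n 0 z (n 0 z (n 0 z (n 0 z
 (n 0 z (n 2 (n 0 z z) (n 0 z (n 0 z (n 0 z (n 0 z (n 0 z z))))))))))))))))))))))))) (n 529 (n 0
 z (n 0 z (n 0 z (n 0 z (n 0 z (n 0 z (n 0 z (n 0 z (n 0 z (n 0 z (n 0 z (n 0 z (n 0 z (n 0 z (n
 0 z (n 0 z (n 0 z (n 0 z (n 0 z (n 0 z (n 0 z (n 0 z (n 0 z (n 0 z (n 0 z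
 z))))))))))))))))))))))))) z)))))) (n 0 (n 0 z (n 1 (n 0 z (n 0 z (n 0 z (n 0 z (n 0 z (n 0 z
 (n 0 z (n 0 z (n 0 z (n 0 z (n 0 z (n 0 z (n 0 z (n 0 z (n 0 z (n 0 z (n 0 z (n 0 z (n 0 z (n 0
 z (n 0 z (n 0 z (n 0 z (n 0 z (n 0 z (n 0 z (n 0 z (n 0 z (n 0 z (n 0 z (n 0 z (n 2 (n 0 z (n 0
 z (n 0 z z))) (n 0 z (n 0 z (n 0 z (n 0 z (n 0 z (n 0 z (n 0 z (n 0 z (n 0 z (n 0 z (n 0 z (n 0
 z (n 0 z (n 0 z (n 0 z (n 0 z (n 0 z z))))))))))))))))))))))))))))))))))))))))))))))))) (n 1 (n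
 0 z (n 0 z (n 0 z (n 0 z (n 0 z (n 0 z (n 0 z (n 0 z (n 0 z (n 0 z (n 0 z (n 0 z (n 0 z (n 0 z
 (n 0 z (n 0 z (n 0 z (n 0 z (n 0 z (n 0 z (n 0 z (n 0 z (n 0 z (n 0 z (n 0 z (n 0 z (n 0 z (n 0
 z (n 0 z (n 0 z (n 0 z (n 0 z (n 0 z (n 0 z (n 0 z (n 0 z (n 0 z (n 0 z (n 0 z (n 0 z (n 0 z (n
 0 z (n 0 z (n 0 z (n 0 z (n 0 z (n 0 z (n 0 z (n 0 z
 z))))))))))))))))))))))))))))))))))))))))))))))))) (n 1 (n 0 z (n 0 z (n 0 z (n 0 z (n 0 z (n 0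
 z (n 0 z (n 0 z (n 0 z (n 0 z (n 0 z (n 0 z (n 2 (n 0 z z) (n 0 z (n 0 z (n 0 z (n 0 z (n 0 z
 (n 0 z (n 0 z (n 0 z (n 0 z (n 0 z (n 0 z (n 0 z (n 0 z (n 0 z (n 0 z (n 0 z (n 0 z (n 0 z (n 0
 z (n 0 z (n 0 z (n 0 z (n 0 z (n 0 z (n 0 z (n 0 z (n 0 z (n 0 z (n 0 z (n 0 z (n 0 z (n 0 z (n
 0 z (n 0 z (n 0 z (n 0 z z))))))))))))))))))))))))))))))))))))))))))))))))) (n 1 (n 0 z (n 0 z
 (n 0 z (n 0 z (n 0 z (n 0 z (n 0 z (n 2 z (n 0 z (n 0 z (n 0 z (n 0 z (n 0 z (n 0 z (n 0 z (n 0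
 z (n 0 z (n 0 z (n 0 z (n 0 z (n 0 z (n 0 z (n 0 z (n 0 z (n 0 z (n 0 z (n 0 z (n 0 z (n 0 z (n
 0 z (n 0 z (n 0 z (n 0 z (n 0 z (n 0 z (n 0 z (n 0 z (n 0 z (n 0 z (n 0 z (n 0 z (n 0 z (n 0 z
 (n 0 z (n 0 z (n 0 z (n 0 z (n 0 z (n 0 z z)))))))))))))))))))))))))))))))))))))))))))))))))
 z))))) (n 0 (n 1 (n 0 z (n 0 z (n 0 z (n 0 z (n 0 z (n 0 z (n 0 z (n 0 z (n 0 z (n 0 z (n 0 z
 (n 0 z z)))))))))))) (n 1 (n 0 z (n 0 z (n 0 z (n 0 z (n 0 z (n 0 z (n 0 z (n 0 z (n 0 z (n 0 z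
 (n 0 z (n 0 z z)))))))))))) (n 1 (n 0 z (n 2 (n 0 z z) (n 0 z (n 0 z (n 0 z (n 0 z (n 0 z (n 0
 z (n 0 z (n 0 z (n 0 z (n 0 z z)))))))))))) (n 1 (n 0 z (n 0 z (n 0 z (n 0 z (n 0 z (n 0 z (n 0
 z (n 0 z (n 0 z (n 0 z (n 0 z (n 0 z z)))))))))))) z)))) (n 0 (n 0 z (n 0 z (n 0 z z))) (n 0 (n
 0 z (n 0 z z)) (n 0 (n 0 z z) (n 0 z z)))))))))))) (n 0 (n 1 (n 4400651 z (n 5517411 z (n
 6619931 z (n 1228 z (n 1228 z (n 1228 z z)))))) (n 1 (n 6496515 z (n 6496515 z (n 6496515 z (n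
 6496515 z (n 6496515 z (n 6496515 z z)))))) (n 0 z (n 0 z (n 1 (n 1228 z (n 6554411 z (n
 6619931 z (n 1228 z (n 1228 z (n 412 z z)))))) z))))) (n 0 z z)))) (n
 0x6c9ca342d519b8abc1c4f681a59c1aa7988926446b68422f3611 (n 0 (n 153 (n 0 z (n 0 z (n 0 z (n 0 z
 (n 3282443 z (n 0 z z)))))) (n 57 (n 0 z (n 0 z (n 2 z (n 0 z (n 6496515 z (n 0 z (n 10 z
 z))))))) (n 51 (n
 0x536108676868c6a7f798d73758a7a8384928f7e758476888981837f727a7483897c837d857f8080807c91827d8e847d7e8687807d0049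
 z (n 18 z (n 6496515 z (n
 0x536308479868c6a817b8d7078867c8083908c8178847a86877e85807276758785798179897c807f82818f837d8f837a8085887d7d0049
 z (n 26 z (n
 0x6ca4a208077d81857c7b7b7f87768081827c84837f857d83798b85807d817c8380857b8b857c80827f7d7d8b7e857c888a857a817b79800809
 z (n
 0x6ca8a802037e7c807e807f837e818085847e81827c7f817d8180827d80807c8080848081858082807d807e847b7f7d84837f7e7f82827f0809
 z (n 0 z (n 6496515 z (n 0 z (n 34 z (n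
 0x2ca4a20807817d808080818180807e84857d827e80817e7f8080818081807f8183827f838580817f7d7f80818180807c828080817c7e810809
 z (n 6496515 z (n 42 z z)))))))))))))) (n 123 (n 6496515 z (n 0 z (n 50 z (n 0 z (n 0 z z)))))
 (n 1 (n 0 z (n 0 z (n 0 z (n 6554395 z (n 0 z z))))) (n 0 (n
 0x2b621817d81847d817f807e7e83827f817f827f7e80837f7f8180817f80817e7e83817b837e817f827e867f80837f827e82807f7d0049
 z (n
 0x10ca88624077979807b7e878586807c8680877e8e7c767f8a7282828777847578818189778989817c8280837f7f84797f7e7c80858586800809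
 z (n
 0xaca88624077a77807f73928488817e8a788c7da274708189767a7f847a7f6b78827a8b758a8a847a887c80748286797b7378837e88897f0809
 z (n
 0xeca88642078074867e7880818280848d827b82847a7f7f78837f81807e8278847c828082887c8684797f80827e7d7e82827e828080817e0809
 z (n 0 z (n 0 z (n 0 z (n 0 z (n 0 z (n 0 z (n
 0x536208479868c6a817b8d7078867c8083908c8178847a86877e85807276758785798179897c807f82818f837d8f837a8085887d7d0049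
 z (n
 0x2b620817d81847d817f807e7e83827f817f827f7e80837f7f8180817f80817e7e83817b837e817f827e867f80837f827e82807f7d0049
 z (n 0 z (n 0 z (n 0 z (n
 0x2ca8860403827e81817c81807f7f7d8480808383817f7d80867d827e82807c817f817e828380817e807c7f808182847c817e81817e7f810809
 z (n
 0x2ca8860403807e81817f80807f7f8182807f827f8080817f837f7f7f80807e8081827f81827f80807e7f80837f80817e817f807f7e7f7f0809
 z (n 0 z (n 0 z (n 0 z (n 0 z (n 0 z (n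
 0x6ca8860403817c82827e817f7e7e8284817d837d8181807e867e7e7e80807d8281837f82857f80807b7d80867e80817c827e807e7c7e7e0809
 z (n
 0x536108577868c6a7f7a8d72748a7a8385948f7d768576888982837f72787484897c847d8580807f807c91837d8f847d7e8687807e0049
 z (n 0 z (n 0 z (n 0 z (n
 0x536108479868c6a817b8d7078867c8083908c8178847a86877e85807276758785798179897c807f82818f837d8f837a8085887d7d0049
 z (n 0 z (n 0 z (n 0 z (n 0 z (n 0 z (n 0 z (n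
 0x190d90c80604ca88624037f808080807c837d8180848080838083827e7e84837d7f80807d7f7f847e82817a85848281808383808282807f7e807f7d801009
 z (n 6632475 z (n 6632475 z (n
 0xd9510c480600c86c862037a81817e847d847c7f83807d807f7d8182817b837e837d807f7f84827f7f84827e7d81817d7e847e7f828282807f7f7e7e801009
 z (n
 0x2b21320180c0d9510c080602c8686420782817f83807d7c798085817d7d8683877d867f8379787e81827d84737f827b867c7d8279807d7b8184897c8582877f80837d1809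
 z (n 0 z (n
 0x2c86c864037f81807d807e81818180827f808282807f7f7f7f8080807f817e7c7e83807d828181827f7f808280828081817f81818281810809
 z (n 0 z (n 0 z (n 58 z (n 0 z (n 0 z (n 6632475 z (n 6632475 z (n 66 z (n 0 z (n 0 z (n 0 z (n
 0 z (n 0 z (n 74 z (n 0 z z)))))))))))))))))))))))))))))))))))))))))))))))))))))))) z)))))) (n
 123 (n 0 (n 0 z (n 747 (n 0 z (n 0 z (n 0 z (n 0 z (n 0 z (n 0 z (n 0 z (n 0 z (n 0 z (n 0 z (n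
 0 z (n 0 z z)))))))))))) (n 747 (n 0 z (n 0 z (n 0 z (n 0 z (n 0 z (n 0 z (n 0 z (n 0 z (n 0 z
 (n 0 z (n 0 z (n 0 z z)))))))))))) (n 747 (n 0 z (n 0 z (n 0 z (n 0 z (n 0 z (n 0 z (n 0 z (n 0
 z (n 0 z (n 0 z (n 0 z (n 0 z z)))))))))))) (n 747 (n 0 z (n 0 z (n 0 z (n 0 z (n 0 z (n 0 z (n
 0 z (n 0 z (n 0 z (n 2 (n 1 z (n 1 z (n 2 (n 0 z (n 0 z (n 0 z (n 0 z (n 0 (n 8873283 z z) (n 0
 z z)))))) (n 1 z z)))) (n 0 z (n 0 z z)))))))))))) (n 55 (n 0 z (n 0 z (n 0 z (n 0 z (n 0 z (n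
 0 z (n 0 z z))))))) (n 109 (n 0 z (n 0 z (n 0 z (n 0 z (n 0 z (n 0 z (n 0 z (n 0 z (n 0 z (n 0
 z (n 0 z (n 0 z z)))))))))))) (n 109 (n 0 z (n 0 z (n 0 z (n 0 z (n 0 z (n 0 z (n 0 z (n 2 (n 0
 z z) (n 0 z (n 0 z (n 0 z (n 0 z z)))))))))))) (n 109 (n 0 z (n 0 z (n 0 z (n 0 z (n 0 z (n 0 z
 (n 0 z (n 0 z (n 0 z (n 0 z (n 0 z (n 7677499 z z)))))))))))) z))))))))) (n 0 (n 753 (n 0 z (n
 0 z (n 0 z (n 0 z (n 0 z (n 0 z (n 0 z (n 0 z (n 0 z (n 0 z (n 0 z (n 2 (n 0 z (n 0 z (n 0 z (n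
 2 (n 0 z (n 0 z (n 0 z (n 0 z (n 0 z (n 0 z z)))))) (n 2 (n 0 z (n 0 z (n 0 z (n 0 z (n 0 z (n
 0 z z)))))) (n 2 (n 0 z (n 0 z (n 0 z (n 0 z (n 0 z (n 0 z z)))))) (n 2 (n 0 z (n 0 z (n 0 z (n
 0 z (n 0 z (n 0 z z)))))) z))))))) z)))))))))))) (n 753 (n 0 z (n 0 z (n 0 z (n 0 z (n 2 (n 0 z
 (n 0 z (n 2 (n 0 z (n 0 z (n 0 z (n 0 z (n 0 z (n 0 z z)))))) (n 2 (n 0 z (n 0 z (n 0 z (n 0 z
 (n 0 z (n 0 z z)))))) (n 2 (n 0 z (n 0 z (n 0 z (n 0 z (n 0 z (n 0 z z)))))) (n 2 (n 0 z (n 0 z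
 (n 0 z (n 0 z (n 0 z (n 0 z z)))))) z)))))) (n 0 z (n 0 z (n 0 z (n 0 z (n 0 z (n 0 z (n 0 z
 z)))))))))))) (n 753 (n 0 z (n 0 z (n 0 z (n 0 z (n 0 z (n 0 z (n 0 z (n 0 z (n 0 z (n 0 z (n 0
 z (n 0 z z)))))))))))) (n 753 (n 0 z (n 0 z (n 0 z (n 0 z (n 0 z (n 0 z (n 0 z (n 0 z (n 0 z (n
 0 z (n 0 z (n 0 z z)))))))))))) (n 487 (n 0 z (n 0 z (n 0 z (n 0 z (n 0 z (n 2 (n 2 (n 0 z (n 0
 z (n 0 z (n 0 z (n 0 z (n 0 z z)))))) (n 2 (n 0 z (n 0 z (n 0 z (n 0 z (n 0 z (n 0 z z)))))) (n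
 2 (n 0 z (n 0 z (n 0 z (n 0 z (n 0 z (n 0 z z)))))) z))) (n 0 z z))))))) (n 481 (n 0 z (n 0 z
 (n 0 z (n 0 z (n 0 z (n 0 z (n 2 (n 0 z (n 0 z z)) (n 0 z (n 0 z (n 0 z (n 0 z z))))))))))) (n
 481 (n 0 z (n 0 z (n 0 z (n 0 z (n 0 z (n 0 z (n 0 z (n 0 z (n 0 z (n 0 z (n 0 z z)))))))))))
 (n 481 (n 0 z (n 0 z (n 0 z (n 0 z (n 0 z (n 0 z (n 0 z (n 0 z (n 0 z (n 0 z (n 7677467 z
 z))))))))))) z)))))))) (n 0 (n 0 z (n 0 z (n 0 z (n 267 (n 0 z (n 0 z (n 0 z (n 0 z (n 0 z (n 0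
 z (n 0 z (n 0 z (n 0 z (n 0 z (n 0 z (n 0 z (n 0 z z))))))))))))) (n 97 (n 0 z (n 0 z (n 0 z (n
 0 z (n 0 z (n 0 z (n 0 z (n 0 z (n 0 z (n 0 z (n 0 z (n 0 z (n 0 z (n 0 z (n 0 z (n 0 z (n 0 z
 (n 0 z (n 0 z (n 0 z (n 0 z (n 0 z (n 0 z (n 0 z (n 0 z (n 0 z (n 0 z (n 0 z (n 0 z (n 0 z (n 0
 z (n 0 z (n 0 z (n 0 z (n 0 z (n 0 z (n 0 z (n 0 z (n 0 z (n 0 z (n 2 (n 0 z (n 0 z z)) (n 0 z
 (n 0 z (n 0 z (n 0 z (n 0 z z)))))))))))))))))))))))))))))))))))))))))))))) (n 97 (n 0 z (n 0 z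
 (n 0 z (n 0 z (n 0 z (n 0 z (n 0 z (n 0 z (n 0 z (n 0 z (n 0 z (n 0 z (n 0 z (n 0 z (n 0 z (n 0
 z (n 0 z (n 0 z (n 0 z (n 0 z (n 0 z (n 0 z (n 0 z (n 0 z (n 0 z (n 0 z (n 0 z (n 0 z (n 0 z (n
 0 z (n 0 z (n 0 z (n 0 z (n 0 z (n 0 z (n 0 z (n 0 z (n 0 z (n 0 z (n 0 z (n 0 z (n 0 z (n 0 z
 (n 2 (n 0 z z) (n 0 z (n 0 z z)))))))))))))))))))))))))))))))))))))))))))))) (n 97 (n 0 z (n 0
 z (n 0 z (n 0 z (n 0 z (n 0 z (n 0 z (n 0 z (n 0 z (n 0 z (n 0 z (n 0 z (n 0 z (n 0 z (n 0 z (n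
 0 z (n 0 z (n 0 z (n 0 z (n 0 z (n 0 z (n 0 z (n 0 z (n 0 z (n 0 z (n 0 z (n 0 z (n 0 z (n 0 z
 (n 0 z (n 0 z (n 0 z (n 0 z (n 0 z (n 0 z (n 0 z (n 0 z (n 0 z (n 0 z (n 0 z (n 0 z (n 0 z (n 0
 z (n 0 z (n 0 z (n 0 z z)))))))))))))))))))))))))))))))))))))))))))))) z))))))) (n 0 (n 0 z (n
 0 z (n 267 (n 0 z (n 0 z (n 0 z (n 0 z (n 0 z (n 0 z (n 0 z (n 0 z z)))))))) (n 97 (n 0 z (n 0
 z (n 0 z (n 0 z (n 0 z (n 0 z (n 0 z (n 0 z (n 0 z (n 0 z (n 0 z z))))))))))) (n 97 (n 0 z (n 0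
 z (n 0 z (n 0 z (n 0 z (n 0 z (n 0 z (n 0 z (n 0 z (n 0 z (n 0 z z))))))))))) (n 97 (n 0 z (n 0
 z (n 0 z (n 0 z (n 0 z (n 0 z (n 0 z (n 0 z (n 0 z (n 0 z (n 2 z z))))))))))) z)))))) (n 0 (n 0
 z (n 273 (n 0 z (n 0 z (n 0 z z))) (n 101 (n 0 z (n 0 z (n 0 z (n 0 z z)))) (n 101 (n 0 z (n 0
 z (n 0 z (n 0 z z)))) (n 101 (n 0 z (n 0 z (n 0 z (n 0 z z)))) z))))) (n 0 (n 7 (n 0 z (n 0 z
 (n 0 z (n 0 z (n 0 z (n 2 (n 2 (n 0 z (n 0 z (n 0 z (n 0 z (n 0 (n 8873283 z z) (n 0 z z))))))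
 (n 2 (n 0 z (n 0 z (n 0 z (n 0 z (n 0 z (n 0 z z)))))) (n 2 (n 0 z (n 0 z (n 0 z (n 0 z (n 0 z
 (n 0 z z)))))) z))) (n 0 z (n 0 z (n 0 z z))))))))) (n 13 (n 0 z (n 0 z (n 0 z (n 0 z (n 0 z (n
 0 z (n 0 z (n 0 z (n 0 z (n 0 z (n 0 z z))))))))))) (n 13 (n 0 z (n 0 z (n 0 z (n 0 z (n 0 z (n
 0 z (n 0 z (n 0 z (n 0 z (n 0 z (n 0 z z))))))))))) (n 13 (n 0 z (n 0 z (n 0 z (n 0 z (n 0 z (n
 0 z (n 0 z (n 0 z (n 0 z (n 2 z (n 0 z z))))))))))) z)))) (n 0 (n 49 (n 0 z (n 0 z (n 0 z (n 0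
 z (n 0 z (n 0 z (n 0 z (n 0 z (n 0 z (n 0 z (n 0 z (n 0 z (n 0 z (n 0 z (n 0 z (n 0 z (n 0 z (n
 0 z (n 0 z (n 0 z (n 0 z (n 0 z (n 0 z (n 0 z (n 0 z z))))))))))))))))))))))))) (n 49 (n 0 z (n
 0 z (n 0 z (n 0 z (n 0 z (n 0 z (n 0 z (n 0 z (n 0 z (n 0 z (n 0 z (n 0 z (n 0 z (n 0 z (n 0 z
 (n 0 z (n 0 z (n 0 z (n 0 z (n 2 (n 0 z z) (n 0 z (n 0 z (n 0 z (n 0 z (n 0 z
 z))))))))))))))))))))))))) (n 49 (n 0 z (n 0 z (n 0 z (n 0 z (n 0 z (n 0 z (n 0 z (n 0 z (n 0 z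
 (n 0 z (n 0 z (n 0 z (n 0 z (n 0 z (n 0 z (n 0 z (n 0 z (n 0 z (n 0 z (n 0 z (n 0 z (n 0 z (n 0
 z (n 0 z (n 7677499 z z))))))))))))))))))))))))) z))) (n 0 (n 0 z (n 0 z z)) (n 0 (n 0 z z) (n
 0 z z)))))))))) (n 0 (n 1 (n 6496515 z (n 6496515 z (n 6496515 z (n 6496515 z (n 6496515 z (n
 6496515 z z)))))) (n 0 z (n 1 (n 1228 z (n 1228 z (n 1228 z (n 6554395 z (n 1228 z (n 1228 z
 z)))))) (n 0 z (n 0 z z))))) (n 0 z z)))) (n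
 0x6c9da3545d1954eac2a6f6a0b4b209adaa0ce57085a3422b2a19 (n 0 (n 155 (n 3282443 z (n 0 z (n 0 z
 (n 0 z z)))) (n 57 (n
 0x2ca8a8040782285f89d89f8a07a181f7e38209207de7e47a47de82181c7dd7a172381e8638a08238608600801 z
 (n 2 z (n 10 z (n 6496515 z (n 0 z (n 0 z (n 6496515 z (n
 0x4ca8ca04036e885d81c9a095e6268619a676095b8628de6e555c8a081c81d81f7e58607e195e95c7607df0801 z
 (n 6496515 z (n 18 z (n
 0x65152040380ca8ca04037a48207a08208a072281f89f7df8a08207e28247208e179d8e27e079f8e07e181f8208217e01001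
 z (n 26 z z)))))))))))) (n 51 (n 0 z (n 34 z (n 0 z (n 0 z (n 0 z (n 0 z (n 0 z (n 6496515 z (n
 42 z z))))))))) (n 27 (n 6496515 z (n 50 z (n 0 z (n 0 z z)))) (n 1 (n 0 z (n 0 z (n 0 z (n 0 z
 (n 6554411 z (n 0 z (n 0 z (n 0 z z)))))))) (n 0 (n 0 z (n
 0x2ca88624037e182082085e86082281f81f8208df8618617617a181f85f76081f7a38607e381f86379e7e10801 z
 (n 0 z (n 0 z (n 0 z (n 0 z (n
 0x6ca886040382272089e69a8207227e08207628a38627a18247a099f75e89e8a079d8a48a186079f8628600801 z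
 (n 0 z (n
 0x6c86c864036a77139e1b15aa16a67669e57aaa1d65985e69e6969a352081889f8ad5e1bab71b89d92791a0801 z
 (n 0 z (n
 0x2c84c8420781e81e8208208617e28217608a08207e07df8218a07a08a282081f8608208608207e082081f0801 z
 (n 0 z (n 0 z (n
 0x2ca88604038607a089f7dd8207a182082182089f8a18208227de8217df81e8207e185f8618608217a08600801 z
 (n 0 z (n 58 z (n 6632491 z (n 6632491 z (n 0 z (n 0 z (n 0 z (n 66 z (n 0 z (n 0 z (n 74 z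
 z))))))))))))))))))))))))) z)))))) (n 155 (n 0 (n 0 z (n 0 z (n 0 z (n 731 (n 0 z (n 0 z (n 0 z
 (n 0 z (n 0 z (n 0 z (n 0 z (n 0 z (n 0 z (n 0 z z)))))))))) (n 731 (n 0 z (n 0 z (n 0 z (n 0 z
 (n 0 z (n 0 z (n 0 z (n 0 z (n 0 z (n 2 (n 2 (n 0 z (n 0 z (n 0 z (n 0 z (n 0 z (n 0 z z))))))
 (n 2 (n 0 z (n 0 z (n 0 z (n 0 z (n 0 z (n 0 z z)))))) (n 2 (n 0 z (n 0 z (n 0 z (n 0 z (n 0 z
 (n 0 z z)))))) (n 2 (n 0 z (n 0 z (n 0 z (n 0 z (n 0 z (n 0 z z)))))) z)))) z)))))))))) (n 75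
 (n 0 z (n 0 z (n 0 z (n 0 z (n 0 z (n 0 z (n 0 z (n 0 z z)))))))) (n 113 (n 0 z (n 0 z (n 0 z
 (n 0 z (n 0 z (n 0 z (n 0 z (n 0 z (n 0 z z))))))))) (n 113 (n 0 z (n 0 z (n 0 z (n 0 z (n 0 z
 (n 0 z (n 0 z (n 0 z (n 0 z z))))))))) (n 113 (n 0 z (n 0 z (n 0 z (n 0 z (n 0 z (n 0 z (n 0 z
 (n 0 z (n 2 z z))))))))) z))))))))) (n 0 (n 0 z (n 0 z (n 779 (n 0 z (n 0 z (n 0 z (n 0 z (n 0
 z (n 0 z (n 0 z (n 0 z (n 0 z (n 0 z (n 0 z z))))))))))) (n 779 (n 0 z (n 0 z (n 0 z (n 0 z (n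
 0 z (n 0 z (n 0 z (n 0 z (n 0 z (n 0 z (n 2 (n 2 (n 0 z (n 0 z (n 0 z (n 0 z (n 0 z (n 0 z
 z)))))) (n 2 (n 0 z (n 0 z (n 0 z (n 0 z (n 0 z (n 0 z z)))))) (n 2 (n 0 z (n 0 z (n 0 z (n 0 z
 (n 0 z (n 0 z z)))))) (n 2 (n 0 z (n 0 z (n 0 z (n 0 z (n 0 z (n 0 z z)))))) z)))) z)))))))))))
 (n 75 (n 0 z (n 0 z (n 0 z (n 0 z (n 0 z (n 0 z (n 0 z (n 0 z (n 0 z z))))))))) (n 721 (n 0 z
 (n 0 z (n 0 z (n 0 z (n 0 z (n 0 z (n 0 z (n 0 z (n 0 z (n 0 z (n 0 z (n 0 z (n 0 z (n 0 z (n 0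
 z (n 0 z (n 0 z (n 0 z (n 0 z (n 0 z (n 2 (n 0 z (n 0 z z)) (n 0 z z)))))))))))))))))))))) (n
 721 (n 0 z (n 0 z (n 0 z (n 0 z (n 0 z (n 0 z (n 0 z (n 0 z (n 0 z (n 0 z (n 0 z (n 0 z (n 0 z
 (n 0 z (n 0 z (n 0 z (n 0 z (n 2 (n 0 z z) (n 0 z (n 0 z (n 0 z (n 0 z z))))))))))))))))))))))
 (n 721 (n 0 z (n 0 z (n 0 z (n 0 z (n 0 z (n 0 z (n 0 z (n 0 z (n 0 z (n 0 z (n 0 z (n 0 z (n 0
 z (n 0 z (n 0 z (n 0 z (n 0 z (n 0 z (n 0 z (n 0 z (n 0 z (n 0 z z))))))))))))))))))))))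
 z)))))))) (n 0 (n 0 z (n 123 (n 0 z (n 0 z (n 0 z (n 0 z (n 0 z (n 0 z (n 0 z z))))))) (n 123
 (n 0 z (n 0 z (n 0 z (n 0 z (n 0 z (n 0 z (n 0 z z))))))) (n 75 (n 0 z (n 0 z (n 0 z (n 0 z (n
 0 z (n 0 z (n 0 z (n 0 z z)))))))) (n 113 (n 0 z (n 0 z (n 0 z (n 0 z (n 0 z (n 0 z (n 0 z (n 0
 z (n 0 z z))))))))) (n 113 (n 0 z (n 0 z (n 0 z (n 0 z (n 0 z (n 0 z (n 0 z (n 0 z (n 0 z
 z))))))))) (n 113 (n 0 z (n 0 z (n 0 z (n 0 z (n 0 z (n 0 z (n 0 z (n 0 z (n 0 z z)))))))))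
 z))))))) (n 0 (n 123 (n 0 z (n 0 z (n 2 (n 0 z (n 1 z (n 1 z (n 2 (n 0 z (n 0 z (n 0 z (n 0 (n
 8873283 z z) (n 0 z (n 0 z z)))))) (n 1 z z))))) (n 0 z (n 0 z (n 0 z (n 0 z (n 0 z (n 0 z (n 0
 z (n 0 z (n 0 z z)))))))))))) (n 123 (n 0 z (n 0 z (n 0 z (n 0 z (n 0 z (n 0 z (n 0 z (n 0 z (n
 0 z (n 0 z (n 0 z (n 0 z z)))))))))))) (n 75 (n 0 z (n 2 (n 2 (n 0 z (n 0 z (n 0 z (n 0 (n
 8873283 z z) (n 0 z (n 0 z z)))))) (n 2 (n 0 z (n 0 z (n 0 z (n 0 z (n 0 z (n 0 z z)))))) (n 2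
 (n 0 z (n 0 z (n 0 z (n 0 z (n 0 z (n 0 z z)))))) z))) (n 0 z (n 0 z (n 0 z (n 0 z (n 0 z
 z))))))) (n 65 (n 0 z (n 0 z (n 0 z (n 0 z (n 0 z (n 0 z (n 0 z (n 0 z (n 0 z z))))))))) (n 65
 (n 0 z (n 0 z (n 0 z (n 0 z (n 0 z (n 0 z (n 0 z (n 0 z (n 0 z z))))))))) (n 65 (n 0 z (n 0 z
 (n 2 z (n 0 z (n 0 z (n 0 z (n 0 z (n 0 z (n 0 z z))))))))) z)))))) (n 0 (n 0 z (n 251 (n 0 z
 (n 0 z (n 0 z (n 0 z (n 0 z (n 0 z (n 0 z z))))))) (n 101 (n 0 z (n 0 z (n 0 z (n 0 z (n 0 z (n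
 0 z (n 0 z (n 0 z (n 0 z (n 0 z (n 0 z z))))))))))) (n 101 (n 0 z (n 0 z (n 0 z (n 2 (n 0 z z)
 (n 0 z (n 0 z (n 0 z (n 0 z (n 0 z (n 0 z (n 0 z z))))))))))) (n 101 (n 0 z (n 0 z (n 0 z (n 0
 z (n 0 z (n 0 z (n 0 z (n 0 z (n 0 z (n 0 z (n 7673403 z z))))))))))) z))))) (n 0 (n 251 (n 0 z
 (n 0 z (n 0 z (n 0 z (n 0 z (n 0 z (n 2 (n 2 (n 0 z (n 0 z (n 0 z (n 0 z (n 0 z (n 0 z z))))))
 (n 2 (n 0 z (n 0 z (n 0 z (n 0 z (n 0 z (n 0 z z)))))) (n 2 (n 0 z (n 0 z (n 0 z (n 0 z (n 0 z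
 (n 0 z z)))))) z))) z))))))) (n 101 (n 0 z (n 0 z (n 0 z (n 2 (n 0 z (n 0 z z)) (n 0 z (n 0 z
 (n 0 z z))))))) (n 101 (n 0 z (n 0 z (n 0 z (n 0 z (n 0 z (n 0 z (n 0 z z))))))) (n 101 (n 0 z
 (n 0 z (n 7673387 z (n 0 z (n 0 z (n 0 z (n 0 z z))))))) z)))) (n 0 (n 53 (n 0 z (n 0 z (n 0 z
 (n 0 z (n 0 z (n 0 z (n 0 z (n 0 z (n 0 z (n 0 z (n 0 z (n 0 z (n 0 z (n 0 z (n 0 z (n 0 z (n 0
 z (n 0 z (n 0 z z))))))))))))))))))) (n 53 (n 0 z (n 0 z (n 0 z (n 0 z (n 0 z (n 0 z (n 0 z (n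
 0 z (n 2 (n 0 z z) (n 0 z (n 0 z (n 0 z (n 0 z (n 0 z (n 0 z (n 0 z (n 0 z (n 0 z (n 0 z
 z))))))))))))))))))) (n 53 (n 0 z (n 0 z (n 0 z (n 0 z (n 0 z (n 0 z (n 0 z (n 0 z (n 0 z (n 0
 z (n 0 z (n 0 z (n 0 z (n 0 z (n 0 z (n 0 z (n 0 z (n 0 z (n 7673403 z z)))))))))))))))))))
 z))) (n 0 (n 0 z (n 0 z z)) (n 0 (n 0 z z) (n 0 z z)))))))))) (n 0 (n 1 (n 6496515 z (n 3282443
 z (n 3282443 z (n 3282443 z (n 3282443 z (n 3282443 z z)))))) (n 0 z (n 0 z (n 0 z z)))) (n 0 z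
 z)))) (n 0x6132b308499ac04ac68996302a8e78538cc2934c08eb082719901ac240 (n 0 (n 477 (n 6557747 z
 (n 2 z (n 10 z z))) (n 461 (n 18 z (n
 0x2ca8a864037a47e28a089e7df7de8a28619208217e07de85e89f8a085f7a07e281f7e18df81f86086079f0801 z
 (n 6557747 z (n 6557747 z (n 0 z (n 6557747 z (n 26 z (n 34 z (n 0 z (n 42 z z)))))))))) (n 129
 (n 0x2ca4a208077e282086089e81f7a08648219207a282085e85d85f86081f7df7a27e181f89f8217a07e08200801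
 z (n 0 z (n 0 z (n 0 z (n 0 z (n 0 z (n
 0x6ca4a608077a29207a08a17e07dc8218207e189f8208618208e082081e76082081f82182082082082081f0801 z
 (n 0 z (n 0 z (n 0 z (n 50 z (n 58 z (n 0 z (n 0 z (n 66 z (n 0 z (n 4392491 z (n 3212843 z
 z)))))))))))))))))) (n 3 (n 6632459 z (n 0 z (n 0 z z))) (n 1 (n 0 z (n 0 z (n 0 z (n 0 z (n
 6557747 z (n 0 z (n 0 z (n 0 z (n 0 z (n 0 z (n 74 z (n 0 z (n 0 z (n 82 z z)))))))))))))) (n 0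
 (n 0 z (n 6632459 z (n 0 z (n 0 z z)))) z)))))) (n 477 (n 0 (n 0 z (n 951 (n 0 z (n 0 z (n 0 z
 (n 0 z (n 0 z (n 0 z (n 0 z z))))))) (n 951 (n 0 z (n 0 z (n 0 z (n 0 z (n 0 z (n 0 z (n 0 z
 z))))))) (n 951 (n 0 z (n 0 z (n 0 z (n 0 z (n 0 z (n 0 z (n 2 (n 0 z (n 2 (n 0 z (n 0 z (n 0 z
 (n 0 z (n 0 z (n 0 z z)))))) (n 2 (n 0 z (n 0 z (n 0 z (n 0 z (n 0 z (n 0 z z)))))) (n 2 (n 0 z
 (n 0 z (n 0 (n 8872531 z z) (n 0 z (n 0 z (n 0 z z)))))) (n 1 z (n 2 (n 0 z (n 0 z (n 0 z (n 0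
 z (n 0 z (n 0 z z)))))) z)))))) z))))))) (n 951 (n 0 z (n 0 z (n 0 z (n 0 z (n 0 z (n 0 z (n 0
 z z))))))) (n 953 (n 0 z (n 0 z (n 0 z (n 0 z (n 0 z (n 0 z (n 0 z (n 0 z (n 0 z (n 0 z (n 0 z
 (n 0 z (n 0 z (n 0 z (n 0 z (n 0 z (n 0 z (n 0 z (n 0 z (n 0 z (n 2 (n 0 z (n 0 z (n 1 z (n 2
 (n 0 z (n 0 z (n 0 z (n 0 z (n 0 z (n 0 z z)))))) z)))) (n 0 z (n 0 z (n 0 z (n 0 z (n 0 z (n 0
 z (n 0 z (n 0 z (n 0 z z)))))))))))))))))))))))))))))) (n 953 (n 0 z (n 0 z (n 0 z (n 0 z (n 0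
 z (n 0 z (n 0 z (n 0 z (n 0 z (n 0 z (n 0 z (n 0 z (n 0 z (n 0 z (n 0 z (n 0 z (n 0 z (n 0 z (n
 0 z (n 0 z (n 0 z (n 0 z (n 0 z (n 0 z (n 0 z (n 0 z (n 7476747 z (n 0 z (n 0 z (n 0 z
 z)))))))))))))))))))))))))))))) (n 953 (n 0 z (n 0 z (n 0 z (n 0 z (n 0 z (n 0 z (n 0 z (n 0 z
 (n 0 z (n 0 z (n 0 z (n 0 z (n 0 z (n 0 z (n 0 z (n 0 z (n 0 z (n 0 z (n 0 z (n 0 z (n 0 z (n 0
 z (n 0 z (n 0 z (n 0 z (n 0 z (n 0 z (n 0 z (n 0 z (n 0 z z)))))))))))))))))))))))))))))) (n 3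
 (n 0 z (n 0 z (n 0 z (n 0 z (n 0 z (n 0 z (n 0 z z))))))) (n 3 (n 0 z (n 0 z (n 0 z (n 0 z (n 0
 z (n 0 z (n 2 z z))))))) z)))))))))) (n 0 (n 951 (n 2 (n 0 z (n 0 z (n 0 z (n 2 (n 0 z (n 0 z
 (n 0 z (n 0 z (n 0 z (n 0 z z)))))) (n 2 (n 0 z (n 0 z (n 0 z (n 0 z (n 0 z (n 0 z z)))))) (n 2
 (n 0 z (n 0 z (n 0 (n 8855811 z z) (n 0 z (n 0 z (n 0 z z)))))) (n 1 z (n 2 (n 0 z (n 0 z (n 0
 z (n 0 z (n 0 z (n 0 z z)))))) z)))))))) (n 0 z (n 0 z (n 0 z (n 0 z (n 0 z z)))))) (n 951 (n 0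
 z (n 0 z (n 0 z (n 0 z (n 0 z (n 2 (n 0 z (n 0 z (n 2 (n 0 z (n 0 z (n 0 z (n 0 z (n 0 z (n 0 z
 z)))))) (n 2 (n 0 z (n 0 z (n 0 z (n 0 z (n 0 z (n 0 z z)))))) (n 2 (n 0 z (n 0 z (n 0 z (n 0 z
 (n 0 z (n 0 z z)))))) (n 1 z (n 2 (n 0 z (n 0 z (n 0 z (n 0 z (n 0 z (n 0 z z)))))) z)))))))
 z)))))) (n 951 (n 0 z (n 0 z (n 0 z (n 0 z (n 0 z (n 0 z z)))))) (n 951 (n 0 z (n 0 z (n 0 z (n
 0 z (n 0 z (n 0 z z)))))) (n 967 (n 0 z (n 0 z (n 0 z (n 0 z (n 0 z (n 0 z (n 0 z (n 0 z (n 0 z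
 (n 0 z (n 0 z z))))))))))) (n 967 (n 0 z (n 0 z (n 0 z (n 0 z (n 0 z (n 0 z (n 0 z (n 0 z (n 0
 z (n 0 z (n 7476811 z z))))))))))) (n 967 (n 0 z (n 0 z (n 0 z (n 0 z (n 0 z (n 0 z (n 0 z (n 0
 z (n 2 (n 1 z (n 2 (n 0 z (n 0 z (n 0 z (n 0 z (n 0 z (n 0 z z)))))) z)) (n 0 z (n 0 z
 z))))))))))) (n 925 (n 2 (n 0 z z) (n 0 z (n 0 z (n 0 z (n 0 z (n 0 z (n 0 z z))))))) (n 925 (n
 0 z (n 0 z (n 0 z (n 0 z (n 0 z (n 0 z (n 0 z z))))))) z))))))))) (n 0 (n 0 z (n 0 z (n 0 z (n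
 921 (n 0 z (n 0 z (n 0 z (n 0 z (n 0 z (n 0 z (n 0 z z))))))) (n 921 (n 0 z (n 0 z (n 0 z (n 0
 z (n 0 z (n 2 (n 0 z (n 1 z (n 2 (n 0 z (n 0 z (n 0 z (n 0 z (n 0 z (n 0 z z)))))) z))) (n 0 z
 z))))))) (n 921 (n 0 z (n 0 z (n 0 z (n 0 z (n 0 z (n 0 z (n 0 z z))))))) (n 3 (n 0 z (n 0 z (n
 0 z (n 0 z (n 0 z (n 0 z (n 0 z (n 0 z (n 0 z (n 0 z (n 0 z z))))))))))) (n 3 (n 0 z (n 0 z (n
 0 z (n 0 z (n 0 z (n 0 z (n 0 z (n 0 z (n 0 z (n 2 z (n 0 z z))))))))))) z)))))))) (n 0 (n 0 z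
 (n 0 z (n 807 (n 0 z (n 2 (n 0 z (n 0 z (n 1 z (n 2 (n 0 z (n 0 z (n 0 z (n 0 z (n 0 z (n 0 z
 z)))))) z)))) (n 0 z (n 0 z (n 0 z (n 0 z (n 0 z (n 0 z (n 0 z (n 0 z (n 0 z (n 0 z (n 0 z (n 0
 z (n 0 z (n 0 z (n 0 z (n 0 z (n 0 z (n 0 z (n 0 z (n 0 z (n 0 z z))))))))))))))))))))))) (n
 807 (n 0 z (n 0 z (n 0 z (n 0 z (n 0 z (n 0 z (n 0 z (n 0 z (n 0 z (n 0 z (n 0 z (n 0 z (n 0 z
 (n 0 z (n 0 z (n 0 z (n 0 z (n 0 z (n 0 z (n 0 z (n 0 z (n 0 z (n 0 z z)))))))))))))))))))))))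
 (n 807 (n 0 z (n 0 z (n 0 z (n 0 z (n 0 z (n 0 z (n 0 z (n 0 z (n 0 z (n 0 z (n 2 (n 1 z (n 2
 (n 0 z (n 0 z (n 0 z (n 0 z (n 0 z (n 0 z z)))))) z)) (n 0 z (n 0 z (n 0 z (n 0 z (n 0 z (n 0 z
 (n 0 z (n 0 z (n 0 z (n 0 z (n 0 z (n 0 z z))))))))))))))))))))))) (n 373 (n 0 z (n 0 z (n 0 z
 (n 0 z (n 0 z (n 0 z (n 0 z (n 0 z (n 0 z (n 0 z (n 0 z (n 0 z z)))))))))))) (n 373 (n 0 z (n 0
 z (n 0 z (n 0 z (n 0 z (n 0 z (n 0 z (n 0 z (n 0 z (n 0 z (n 0 z (n 2 z z)))))))))))) z)))))))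
 (n 0 (n 0 z (n 949 (n 0 z (n 0 z (n 0 z (n 0 z (n 0 z (n 0 z (n 0 z z))))))) (n 949 (n 0 z (n 2
 (n 0 z (n 1 z (n 2 (n 0 z (n 0 z (n 0 z (n 0 z (n 0 z (n 0 z z)))))) z))) (n 0 z (n 0 z (n 0 z
 (n 0 z (n 0 z z))))))) (n 949 (n 0 z (n 0 z (n 0 z (n 0 z (n 0 z (n 0 z (n 0 z z))))))) (n 913
 (n 2 (n 0 z z) (n 0 z (n 0 z (n 0 z (n 0 z (n 0 z (n 0 z (n 0 z (n 0 z (n 0 z (n 0 z (n 0 z (n
 0 z z))))))))))))) (n 913 (n 0 z (n 0 z (n 0 z (n 0 z (n 0 z (n 0 z (n 0 z (n 0 z (n 0 z (n 0 z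
 (n 0 z (n 0 z (n 0 z z))))))))))))) z)))))) (n 0 (n 1359 (n 0 z (n 0 z (n 0 z (n 0 z (n 0 z (n
 0 z (n 0 z (n 0 z (n 0 z (n 0 z (n 0 z z))))))))))) (n 1359 (n 0 z (n 0 z (n 0 z (n 0 z (n 0 z
 (n 0 z (n 0 z (n 0 z (n 0 z (n 0 z (n 0 z z))))))))))) (n 1359 (n 0 z (n 0 z (n 0 z (n 0 z (n 0
 z (n 0 z (n 0 z (n 0 z (n 0 z (n 0 z (n 0 z z))))))))))) (n 1357 (n 0 z (n 0 z (n 0 z (n 0 z (n
 0 z (n 0 z (n 0 z z))))))) (n 1357 (n 0 z (n 0 z (n 0 z (n 0 z (n 0 z (n 0 z (n 0 z z)))))))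
 z))))) (n 0 (n 0 z (n 0 z (n 255 (n 0 z (n 0 z (n 0 z (n 0 z (n 0 z (n 0 z (n 0 z (n 0 z (n 2
 (n 0 z z) (n 0 z (n 0 z z))))))))))) (n 255 (n 0 z (n 0 z (n 0 z (n 0 z (n 0 z (n 0 z (n 0 z (n
 0 z (n 0 z (n 0 z (n 0 z z))))))))))) z)))) (n 0 (n 0 z (n 21 (n 0 z (n 0 z (n 0 z (n 0 z (n 0
 z (n 0 z (n 6428427 z z))))))) (n 21 (n 0 z (n 0 z (n 6428491 z (n 0 z (n 0 z (n 0 z (n 0 z
 z))))))) z))) (n 0 (n 3 (n 0 z (n 0 z (n 0 z (n 0 z (n 0 z (n 0 z (n 0 z (n 0 z (n 0 z (n 0 z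
 (n 0 z (n 0 z z)))))))))))) (n 3 (n 0 z (n 0 z (n 0 z (n 0 z (n 0 z (n 0 z (n 0 z (n 0 z (n 2 z
 (n 0 z (n 0 z (n 0 z z)))))))))))) z)) (n 0 (n 0 z z) (n 0 z z))))))))))) (n 0 (n 1 (n 6557747
 z (n 6557747 z (n 6557747 z (n 6557747 z (n 6557747 z (n 6557747 z z)))))) (n 1 (n 28 z (n 3692
 z (n 3692 z (n 3692 z (n 6632459 z (n 3692 z z)))))) (n 1 (n 6632459 z (n 3692 z (n 3692 z (n
 2164299 z (n 28 z (n 3692 z z)))))) z))) (n 0 z z)))) (n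
 0xc544c6152a21aa71a14a6f504a69029565101a5480f5440 (n 0 (n 441 (n 0 z (n 2 z (n 0 z (n 10 z (n 0
 z (n 0 z (n 0 z (n 0 z (n 0 z (n 0 z (n 3282443 z (n 3282443 z (n 0 z (n 18 z (n
 0x2ca8a824038df7e281e7dd7e16e481d9207607a795f7e079f8db7a385f7a089e75f7e07668df6e07a37600801 z
 (n 0 z z)))))))))))))))) (n 33 (n 0 z (n 0 z (n 0 z (n 3278363 z (n 0 z (n 0 z (n 0 z (n 0 z
 z)))))))) (n 9 (n 0 z (n 26 z (n 34 z (n 0 z (n 0 z (n 0 z (n 6566483 z z))))))) (n 3 (n 0 z (n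
 42 z (n 0 z (n
 0x6ca88204078257217a38a485d75f8e27e18217da8db7de81f7a089d7609577657e37a37e08a47607e285f0801 z
 (n 0 z (n 0 z (n 6566483 z z))))))) (n 1 (n
 0x6ca8a6040786182289f89f8e085f7df89f7df81d7e086085f8df8a28217df85f75f8208e18608218207e00801 z
 (n 50 z (n 58 z (n 66 z (n 0 z (n 0 z (n 0 z (n
 0x4ca6ca64036e37a082175b8a08a27e182089e9217dc8a28577a18a286085c71c86179e86776479e7a189f0801 z
 (n 0x6ca8a624037e07a37a285f76491e8607e18208208608a07e07e181f8208218e08a085f7228208a08208200801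
 z (n 6566483 z (n 6566483 z (n 6566483 z z)))))))))))) (n 0 (n 0 z (n 0 z (n 0 z (n 0 z (n 0 z
 (n 0 z (n 0 z (n 0 z (n 6624043 z z))))))))) z)))))) (n 9 (n 0 (n 0 z (n 0 z (n 283 (n 0 z (n 2
 (n 0 z (n 1 z (n 1 z (n 1 z (n 2 (n 0 z (n 0 z (n 0 z (n 0 (n 8871955 z z) (n 0 z (n 0 z
 z)))))) z))))) (n 0 z (n 0 z (n 0 z (n 0 z (n 0 z (n 0 z z)))))))) (n 283 (n 0 z (n 0 z (n 0 z
 (n 0 z (n 0 z (n 0 z (n 0 z (n 0 z z)))))))) (n 279 (n 0 z (n 0 z (n 2 (n 2 (n 0 z (n 0 z (n 0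
 z (n 0 (n 8722283 z z) (n 0 z (n 0 z z)))))) (n 2 (n 0 z (n 0 z (n 0 z (n 0 z (n 0 z (n 0 z
 z)))))) (n 2 (n 0 z (n 0 z (n 0 z (n 0 z (n 0 z (n 0 z z)))))) z))) (n 0 z (n 0 z (n 0 z (n 0 z
 z))))))) (n 277 (n 0 z (n 0 z (n 0 z (n 0 z (n 0 z (n 0 z (n 0 z (n 2 (n 0 z (n 0 z z))
 z)))))))) (n 277 (n 0 z (n 0 z (n 0 z (n 0 z (n 0 z (n 0 z (n 0 z (n 0 z z)))))))) (n 277 (n 0
 z (n 0 z (n 0 z (n 0 z (n 0 z (n 0 z (n 0 z (n 0 z z)))))))) z)))))))) (n 0 (n 0 z (n 19 (n 0 z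
 (n 0 z (n 0 z (n 0 z (n 0 z (n 0 z (n 0 z (n 0 z (n 0 z (n 0 z z)))))))))) (n 19 (n 0 z (n 0 z
 (n 2 (n 2 (n 0 z (n 0 z (n 0 z (n 0 z (n 0 z (n 0 z z)))))) (n 2 (n 0 z (n 0 z (n 0 z (n 0 z (n
 0 z (n 0 z z)))))) (n 2 (n 0 z (n 0 z (n 0 z (n 0 z (n 0 z (n 0 z z)))))) (n 2 (n 0 z (n 0 z (n
 0 z (n 0 z (n 0 z (n 0 z z)))))) z)))) (n 0 z (n 0 z (n 0 z (n 0 z (n 0 z (n 0 z (n 0 z
 z)))))))))) (n 279 (n 0 z (n 0 z (n 0 z (n 0 z (n 0 z (n 0 z (n 0 z (n 0 z (n 0 z (n 0 z (n 0 z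
 (n 0 z z)))))))))))) (n 281 (n 0 z (n 0 z (n 0 z (n 0 z (n 2 (n 0 z (n 0 z z)) (n 0 z (n 0 z (n
 0 z z)))))))) (n 281 (n 0 z (n 0 z (n 0 z (n 0 z (n 0 z (n 0 z (n 0 z (n 0 z z)))))))) (n 281
 (n 0 z (n 0 z (n 0 z (n 0 z (n 0 z (n 0 z (n 0 z (n 0 z z)))))))) z))))))) (n 0 (n 103 (n
 6555451 z (n 0 z (n 0 z (n 0 z (n 0 z (n 0 z (n 0 z z))))))) (n 103 (n 0 z (n 6555435 z (n 0 z
 (n 0 z (n 0 z (n 0 z (n 0 z z))))))) (n 7 (n 0 z (n 0 z (n 0 z (n 6555451 z (n 0 z (n 0 z (n 0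
 z (n 0 z (n 0 z (n 0 z (n 0 z (n 0 z z)))))))))))) (n 15 (n
 0x2ea8ca64078207a289f8208df8a08207218a17e286082089f8608217e18237e07dd8217e08217a08207a00801 z
 (n 0 z (n 0 z (n 0 z (n 0 z (n 0 z (n 0 z (n 0 z (n 0 z (n 0 z (n 0 z (n 0 z z)))))))))))) (n
 15 (n 0 z (n 0 z (n 0 z (n 2 (n 0 z z) (n 0 z (n 0 z (n 0 z (n 0 z (n 0 z (n 0 z (n 0 z (n 0 z
 z)))))))))))) (n 15 (n 0 z (n 0 z (n 2 z (n 0 z (n 0 z (n 0 z (n 0 z (n 0 z (n 0 z (n 0 z (n 0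
 z (n 0 z z)))))))))))) z)))))) (n 0 (n 0 z (n 299 (n 0 z (n 0 z (n 0 z (n 0 z (n 0 z (n 0 z (n
 0 z (n 0 z (n 0 z z))))))))) (n 297 (n 0 z (n 0 z (n 0 z (n 0 z (n 0 z (n 0 z (n 0 z (n 0 z (n
 0 z (n 0 z (n 0 z z))))))))))) (n 297 (n 0 z (n 0 z (n 0 z (n 0 z (n 0 z (n 0 z (n 0 z (n 0 z
 (n 0 z (n 0 z (n 0 z z))))))))))) (n 297 (n 0 z (n 0 z (n 0 z (n 0 z (n 0 z (n 0 z (n 0 z (n 2
 z (n 0 z (n 0 z (n 0 z z))))))))))) z))))) (n 0 (n 299 (n 0 z (n 0 z (n 0 z (n 0 z z)))) (n 297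
 (n 0 z (n 0 z (n 0 z (n 0 z (n 0 z (n 0 z (n 0 z (n 0 z (n 0 z (n 0 z (n 0 z (n 0 z (n 0 z (n 0
 z (n 0 z (n 2 (n 0 z (n 0 z z)) (n 0 z (n 0 z (n 0 z z))))))))))))))))))) (n 297 (n 0 z (n 0 z
 (n 2 (n 0 z z) (n 0 z (n 0 z (n 0 z (n 0 z (n 0 z (n 0 z (n 0 z (n 0 z (n 0 z (n 0 z (n 0 z (n
 0 z (n 0 z (n 0 z (n 0 z (n 0 z z))))))))))))))))))) (n 297 (n 0 z (n 0 z (n 0 z (n 0 z (n 0 z
 (n 0 z (n 0 z (n 0 z (n 0 z (n 0 z (n 0 z (n 0 z (n 0 z (n 0 z (n 0 z (n 0 z (n 0 z (n 0 z (n 0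
 z z))))))))))))))))))) z)))) (n 0 (n 345 (n 0 z (n 0 z (n 0 z (n 0 z (n 0 z (n 0 z (n 0 z
 z))))))) (n 345 (n 0 z (n 0 z (n 0 z (n 0 z (n 0 z (n 0 z (n 0 z z))))))) (n 345 (n 0 z (n 2 z
 (n 0 z (n 0 z (n 0 z (n 0 z (n 0 z z))))))) z))) (n 0 (n 0 z (n 0 z z)) (n 0 (n 0 z z) (n 0 z
 z))))))))) (n 0 (n 0 z (n 1 (n 3282443 z (n 4399203 z (n 4326971 z (n 3532 z (n 268 z (n 3532 z
 z)))))) (n 1 (n 6488603 z (n 268 z (n 3532 z (n 3532 z (n 6624043 z (n 3532 z z)))))) (n 0 z (n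
 0 z (n 0 z (n 1 (n 6566483 z (n 6566483 z (n 6566483 z (n 6566483 z (n 6566483 z (n 6566483 z
 z)))))) z))))))) (n 0 z z)))) (n 0x2059590224c950254282a8d22654a81195104c2b0a6159012a240 (n 0
 (n 467 (n 6561875 z (n 2 z (n 0 z (n
 0xeca88624077a78a842d8627206e36e871e91d7df8e0763863624a1c824852996b1681f5a67247a09206a30801 z
 (n 0 z (n 10 z (n 0 z z))))))) (n 33 (n 0 z (n 0 z (n 0 z (n 0 z (n
 0xeca8a8640789d8295a089a8de7de8a48628e07278a08e289a99b95781f82075b7dd860858a5f8e29607230801 z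
 (n 0 z (n 0 z (n 0 z (n 0 z (n 0 z (n 0 z (n 0 z (n 0 z (n 0 z (n 0 z (n 0 z (n 0 z (n 0 z (n 0
 z (n 0 z (n 18 z (n
 0x6ca8a8640782082186181e7e282275f82085f7a07df8a085e7de86082082379d7de7a37de81c8e37de7df0801 z
 (n 0 z (n 0 z (n 26 z (n
 0x6ca8a8640781f82372085d8a18617e18a285f7a182089f81b81e89c8207e07df79f7a481c91e8e27de7a00801 z
 (n 34 z (n
 0x6ca8a8040782082186181e7e282275f82085f7a07df8a085e7de86082082379d7de7a37de81c8e37de7df0801 z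
 (n 0 z (n 3278363 z (n 6358075 z (n 0 z z)))))))))))))))))))))))))))))))) (n 129 (n 42 z (n
 0x6ca4a2080782285f8a27618208608a471e7218628227dd8238248207dd7e18257de8608e182181b79f7de0801 z
 (n 0x6ca8ca80079207e07e389f6df76092275f8206e38de85d89f8df76081f7618218e279f76181f89d8df8e10801
 z (n 0 z (n 0 z (n 50 z (n 58 z (n 6561875 z (n 0 z (n 6561875 z z)))))))))) (n 3 (n 6632459 z
 (n 0 z (n 0 z (n 0 z (n 0 z (n 0 z (n 0 z (n 0 z z)))))))) (n 1 (n 0 z (n 0 z (n 0 z (n 66 z (n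
 0 z (n 74 z (n 6561875 z z))))))) (n 0 (n 0 z (n 0 z (n 0 z (n 0 z (n 0 z (n 0 z (n 0 z (n 0 z
 (n 0 z (n 6632459 z (n 0 z z))))))))))) z)))))) (n 467 (n 0 (n 0 z (n 923 (n 0 z (n 0 z (n 0 z
 (n 0 z (n 0 z (n 0 z (n 0 z (n 0 z (n 0 z (n 0 z (n 0 z (n 0 z (n 2 (n 0 z (n 0 z (n 2 (n 0 z
 (n 0 z (n 0 (n 8730475 z z) (n 0 z (n 0 z (n 0 z z)))))) (n 2 (n 0 z (n 0 z (n 0 z (n 0 z (n 0
 z (n 0 z z)))))) (n 2 (n 0 z (n 0 z (n 0 z (n 0 z (n 0 z (n 0 z z)))))) (n 1 z (n 2 (n 0 z (n 0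
 z (n 0 z (n 0 z (n 0 z (n 0 z z)))))) z))))))) z))))))))))))) (n 923 (n 0 z (n 0 z (n 0 z (n 0
 z (n 0 z (n 0 z (n 0 z (n 0 z (n 0 z (n 0 z (n 0 z (n 0 z (n 0 z z))))))))))))) (n 923 (n 0 z
 (n 0 z (n 0 z (n 0 z (n 0 z (n 0 z (n 0 z (n 0 z (n 0 z (n 7476747 z (n 0 z (n 0 z (n 0 z
 z))))))))))))) (n 259 (n 0 z (n 0 z (n 0 z (n 0 z (n 0 z (n 0 z (n 0 z (n 0 z (n 0 z (n 0 z (n
 0 z z))))))))))) (n 259 (n 0 z (n 0 z (n 0 z (n 0 z (n 2 (n 0 z (n 1 z (n 2 (n 0 z (n 0 z (n 0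
 z (n 0 z (n 0 z (n 0 z z)))))) z))) (n 0 z (n 0 z (n 0 z (n 0 z (n 0 z (n 0 z z))))))))))) (n
 259 (n 0 z (n 0 z (n 0 z (n 0 z (n 0 z (n 0 z (n 0 z (n 0 z (n 0 z (n 0 z (n 0 z z)))))))))))
 (n 3 (n 0 z (n 0 z (n 0 z (n 0 z (n 0 z (n 0 z (n 0 z (n 0 z (n 0 z (n 0 z (n 0 z (n 0 z (n 0 z
 (n 0 z z)))))))))))))) (n 3 (n 0 z (n 0 z (n 0 z (n 0 z (n 0 z (n 0 z (n 0 z (n 0 z (n 0 z (n 0
 z (n 0 z (n 0 z (n 0 z (n 0 z z)))))))))))))) z))))))))) (n 0 (n 923 (n 0 z (n 0 z (n 0 z (n 0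
 z (n 0 z (n 0 z z)))))) (n 923 (n 0 z (n 2 (n 0 z (n 2 (n 0 z (n 0 z (n 0 (n 8730475 z z) (n 0
 z (n 0 z (n 0 z z)))))) (n 2 (n 0 z (n 0 z (n 0 z (n 0 z (n 0 z (n 0 z z)))))) (n 2 (n 0 z (n 0
 z (n 0 (n 8855811 z z) (n 0 z (n 0 z (n 0 z z)))))) (n 1 z (n 2 (n 0 z (n 0 z (n 0 z (n 0 z (n
 0 z (n 0 z z)))))) z)))))) (n 0 z (n 0 z (n 0 z (n 0 z z)))))) (n 923 (n 0 z (n 0 z (n 0 z (n 0
 z (n 7476811 z (n 0 z z)))))) (n 151 (n 0 z (n 2 (n 0 z (n 0 z (n 1 z (n 2 (n 0 z (n 0 z (n 0 z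
 (n 0 z (n 0 z (n 0 z z)))))) z)))) (n 0 z (n 0 z (n 0 z (n 0 z (n 0 z (n 0 z (n 0 z (n 0 z (n 0
 z z))))))))))) (n 151 (n 0 z (n 0 z (n 0 z (n 0 z (n 0 z (n 0 z (n 0 z (n 0 z (n 0 z (n 0 z (n
 0 z z))))))))))) (n 151 (n 0 z (n 0 z (n 0 z (n 0 z (n 2 (n 1 z (n 2 (n 0 z (n 0 z (n 0 z (n 0
 z (n 0 z (n 0 z z)))))) z)) (n 0 z (n 0 z (n 0 z (n 0 z (n 0 z (n 0 z z))))))))))) (n 913 (n 0
 z (n 0 z (n 0 z z))) (n 913 (n 0 z (n 0 z (n 0 z z))) z)))))))) (n 0 (n 0 z (n 0 z (n 933 (n 0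
 z (n 0 z (n 0 z (n 0 z (n 0 z (n 0 z (n 2 (n 0 z (n 0 z (n 1 z (n 2 (n 0 z (n 0 z (n 0 z (n 0 z
 (n 0 z (n 0 z z)))))) z)))) z))))))) (n 933 (n 0 z (n 0 z (n 0 z (n 0 z (n 0 z (n 0 z (n 0 z
 z))))))) (n 933 (n 0 z (n 0 z (n 0 z (n 0 z (n 0 z (n 0 z (n 0 z z))))))) (n 925 (n 2 (n 0 z z)
 (n 0 z (n 0 z (n 0 z (n 0 z (n 0 z (n 0 z z))))))) (n 925 (n 0 z (n 0 z (n 0 z (n 0 z (n 0 z (n
 0 z (n 0 z z))))))) z))))))) (n 0 (n 0 z (n 927 (n 0 z (n 0 z (n 0 z (n 0 z (n 2 (n 0 z (n 0 z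
 (n 1 z (n 2 (n 0 z (n 0 z (n 0 z (n 0 z (n 0 z (n 0 z z)))))) z)))) (n 0 z (n 0 z z))))))) (n
 927 (n 0 z (n 0 z (n 0 z (n 0 z (n 0 z (n 0 z (n 0 z z))))))) (n 927 (n 0 z (n 0 z (n 0 z (n 0
 z (n 0 z (n 0 z (n 0 z z))))))) (n 243 (n 0 z (n 0 z (n 0 z (n 0 z (n 0 z (n 0 z (n 0 z (n 0 z
 (n 0 z (n 0 z (n 0 z z))))))))))) (n 243 (n 0 z (n 0 z (n 2 z (n 0 z (n 0 z (n 0 z (n 0 z (n 0
 z (n 0 z (n 0 z (n 0 z z))))))))))) z)))))) (n 0 (n 411 (n 0 z (n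
 0x2ea4ca08038208228a07608a081f8607e085f82086082282089f89f82281e89f85e82079f86181f8608200801 z
 (n 0 z (n 0 z (n 0 z (n 0 z (n 0 z (n 0 z (n 0 z (n 0 z z)))))))))) (n 411 (n 0 z (n 0 z (n 0 z
 (n 0 z (n 0 z (n 0 z (n 2 (n 0 z (n 1 z (n 2 (n 0 z (n 0 z (n 0 z (n 0 z (n 0 z (n 0 z z))))))
 z))) (n 0 z (n 0 z (n 0 z z)))))))))) (n 411 (n 0 z (n 0 z (n 0 z (n 0 z (n 0 z (n 2 (n 1 z (n
 2 (n 0 z (n 0 z (n 0 z (n 0 z (n 0 z (n 0 z z)))))) z)) (n 0 z (n 0 z (n 0 z (n 0 z z))))))))))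
 (n 51 (n 0 z (n 0 z (n 0 z (n 0 z (n 6428427 z (n 0 z (n 0 z z))))))) (n 51 (n 0 z (n 0 z (n 0
 z (n 6428491 z (n 0 z (n 0 z (n 0 z z))))))) z))))) (n 0 (n 0 z (n 0 z (n 857 (n 0 z (n 0 z (n
 0 z (n 0 z (n 0 z (n 0 z (n 0 z (n 0 z (n 0 z (n 0 z (n 0 z z))))))))))) (n 857 (n 0 z (n 0 z
 (n 0 z (n 0 z (n 0 z (n 0 z (n 2 z (n 0 z (n 0 z (n 0 z (n 0 z z))))))))))) z)))) (n 0 (n 0 z
 (n 941 (n 0 z (n 2 (n 0 z z) (n 0 z (n 0 z (n 0 z (n 0 z (n 0 z (n 0 z (n 0 z (n 0 z (n 0 z (n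
 0 z (n 0 z (n 0 z (n 0 z (n 0 z (n 0 z (n 0 z (n 0 z (n 0 z (n 0 z (n 0 z (n 0 z (n 0 z (n 0 z
 (n 0 z (n 0 z (n 0 z (n 0 z (n 0 z z)))))))))))))))))))))))))))))) (n 941 (n 0 z (n 0 z (n 0 z
 (n 0 z (n 0 z (n 0 z (n 0 z (n 0 z (n 0 z (n 0 z (n 0 z (n 0 z (n 0 z (n 0 z (n 0 z (n 0 z (n 0
 z (n 0 z (n 0 z (n 0 z (n 0 z (n 0 z (n 0 z (n 0 z (n 0 z (n 0 z (n 0 z (n 0 z (n 0 z (n 0 z
 z)))))))))))))))))))))))))))))) z))) (n 0 (n 531 (n 0 z (n 0 z (n 0 z (n 0 z (n 0 z (n 0 z (n 0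
 z (n 0 z (n 0 z (n 0 z (n 0 z (n 0 z z)))))))))))) (n 531 (n 0 z (n 0 z (n 0 z (n 0 z (n 2 z (n
 0 z (n 0 z (n 0 z (n 0 z (n 0 z (n 0 z (n 0 z z)))))))))))) z)) (n 0 (n 0 z z) (n 0 z
 z)))))))))) (n 0 (n 1 (n 6561875 z (n 6561875 z (n 6561875 z (n 6561875 z (n 6561875 z (n
 6561875 z z)))))) (n 1 (n 28 z (n 268 z (n 268 z (n 268 z (n 6632459 z (n 268 z z)))))) (n 0 z
 (n 1 (n 268 z (n 268 z (n 268 z (n 268 z (n 6632459 z (n 268 z z)))))) (n 0 z (n 1 (n 6632459 z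
 (n 268 z (n 268 z (n 2164299 z (n 28 z (n 268 z z)))))) (n 0 z z))))))) (n 0 z z)))) (n
 0x18cb28b5b94576ca1cb1d0b552a15b92a1116e045354371d4c2295a1c4a304a56b10a8c826a7012ad6c0 (n
 0x15adc (n 351 (n 0 z (n 6492243 z (n 0 z (n
 0x64364320181a18b18100c2d94d4c840e16d884acb1095862182847c8e6b747e7e727f808080678a8480886386988d80769976838a80568c997a877380836e807954567e9ba382585fa69618c9
 z (n 0 z (n 6554411 z (n 0 z (n 2 z (n 0 z (n 0 z z)))))))))) (n 339 (n 10 z (n 6492243 z (n 18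
 z (n 26 z z)))) (n 135 (n 6628107 z (n 34 z (n 42 z (n 0 z (n 50 z (n 0 z (n 0 z (n 0 z
 z)))))))) (n 3 (n 58 z (n 0 z (n 66 z (n 0 z (n 0 z (n 0 z (n 6492243 z (n 74 z z)))))))) (n 1
 (n
 0x63621927f6e878676658a79898192767d6a918c789275638267a06a9e6e91886b8d4baf679d7c8c8d7d80a485786f6782807074910049
 z (n 0 z (n 0 z (n 0 z (n 0 z (n 0 z (n 0 z (n 0 z (n 6554411 z (n 0 z (n 82 z (n
 0x2b6327dc8da7ea8229216a7797b5366455caa77586e37519a172d9a36dfbe98193d97248149d5c580041 z (n 0 z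
 (n 0 z (n 0 z (n 0 z (n 0 z (n 0 z (n 0 z (n 0 z (n 0 z (n 0 z (n 0 z (n 5375563 z (n 6554411 z
 (n 0 z (n 0 z (n 0 z z)))))))))))))))))))))))))))) (n 0 (n
 0xcc64c642079a87263eb71366552989bb923e14a7dccc09c216deb2b6637a4c15e858e5297ad11d487465c0801 z
 (n 90 z (n 98 z (n
 0xbd94cc8040e00ac86c82003001642641003803b19320801c28cb08051861080785c7cb84276b8117f57a77be80080080080076f83a8258067ca7898a68ac83d80179488179482d81f7fe81280286975a8677cb7ff82e7507ff80473a75e81f8ad81f8136ce8068ae80c2091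
 z (n 6628107 z (n
 0x564364320182b19319080c5d94d0c840e2ed884ecb109d86217f70899d8572818f737a8080804f8e979877528190af68929a7a9872686892b07f835198508b806267375bc0de904b1cd59018c9
 z (n
 0xac86c86403857e7c818f6979887e7c81807f7d798e91819a65737b799379917989746d855e9b6f8584728b847f9b7970818c8c757b778c0809
 z (n 106 z (n 114 z (n 0 z (n 122 z (n 6628107 z z)))))))))))) z)))))) (n 339 (n 0 (n 1303 (n 2
 (n 0 z (n 0 z (n 2 (n 0 z (n 0 z (n 0 z (n 0 z (n 0 z (n 0 z z)))))) (n 1 z (n 2 (n 0 z (n 0 z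
 (n 0 z (n 0 z (n 0 z (n 0 (n 4393083 z z) z)))))) (n 2 (n 0 z (n 0 z (n 0 z (n 0 z (n 0 z (n 0
 z z)))))) (n 2 (n 0 z (n 0 z (n 0 z (n 0 z (n 0 z (n 0 z z)))))) (n 2 (n 0 z (n 0 z (n 0 z (n 0
 z (n 0 z (n 0 (n 4327547 z z) z)))))) (n 2 (n 0 z (n 0 z (n 0 z (n 0 z (n 0 z (n 0 z z)))))) (n
 2 (n 0 (n 2356 z z) (n 0 z (n 0 z (n 0 z (n 0 z (n 0 (n 2356 z (n 2356 z z)) z)))))) (n 2 (n 0
 z (n 0 z (n 0 z (n 0 z (n 0 z (n 0 z z)))))) (n 1 z (n 1 z (n 2 (n 0 z (n 0 z (n 0 z (n 0 (n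
 8656427 z z) (n 0 (n 8864611 z z) (n 0 (n 2356 z (n 8652571 z z)) z)))))) z)))))))))))))) (n 0
 z (n 0 z (n 0 z (n 0 z (n 0 z (n 0 z (n 0 z z)))))))) (n 1303 (n 0 z (n 0 z (n 0 z (n 0 z (n 0
 z (n 0 z (n 0 z (n 2 (n 0 z (n 2 (n 0 z (n 0 z (n 0 z (n 0 z (n 0 z (n 0 z z)))))) (n 2 (n 0 z
 (n 0 z (n 0 z (n 0 z (n 0 z (n 0 z z)))))) (n 1 z (n 2 (n 0 z (n 0 z (n 0 z (n 0 z (n 0 z (n 0
 (n 8794691 z z) z)))))) (n 1 z (n 1 z (n 2 (n 0 z (n 0 z (n 0 z (n 0 z (n 0 z (n 0 (n 3283051 z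
 z) z)))))) (n 1 z (n 2 (n 0 z (n 0 z (n 0 z (n 0 z (n 0 z (n 0 z z)))))) (n 2 (n 0 z (n 0 z (n
 0 z (n 0 z (n 0 z (n 0 z z)))))) (n 2 (n 0 z (n 0 z (n 0 z (n 0 z (n 0 z (n 0 z z)))))) (n 2 (n
 0 z (n 0 z (n 0 z (n 0 z (n 0 z (n 0 z z)))))) z))))))))))))) z)))))))) (n 1303 (n 0 z (n 0 z
 (n 0 z (n 0 z (n 0 z (n 0 z (n 0 z (n 0 z z)))))))) (n 199 (n 0 z (n 0 z (n 0 z (n 0 z (n 0 z
 (n 2 (n 0 z (n 0 z (n 2 (n 0 z (n 0 z (n 0 z (n 0 z (n 0 z (n 0 (n 8794691 z z) z)))))) (n 1 z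
 (n 1 z (n 2 (n 0 z (n 0 z (n 0 z (n 0 z (n 0 z (n 0 (n 3283051 z z) z)))))) (n 1 z (n 2 (n 0 z
 (n 0 z (n 0 z (n 0 z (n 0 z (n 0 z z)))))) (n 2 (n 0 z (n 0 z (n 0 z (n 0 z (n 0 z (n 0 z
 z)))))) (n 2 (n 0 z (n 0 z (n 0 z (n 0 z (n 0 z (n 0 z z)))))) (n 2 (n 0 z (n 0 z (n 0 z (n 0 z
 (n 0 z (n 0 z z)))))) z))))))))))) (n 0 z (n 0 z (n 0 z (n 0 z (n 0 z (n 0 z (n 0 z
 z))))))))))))) (n 199 (n 0 z (n 0 z (n 0 z (n 0 z (n 0 z (n 0 z (n 0 z (n 0 z (n 0 z (n 0 z (n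
 0 z (n 0 z (n 0 z z))))))))))))) (n 199 (n 2 (n 1 z (n 1 z (n 1 z (n 1 z (n 1 z (n 2 (n 0 z (n
 0 z (n 0 z (n 0 z (n 0 z (n 0 z z)))))) (n 1 z (n 1 z (n 2 (n 0 z (n 0 (n 8787787 z z) (n 0 z
 (n 0 z (n 0 (n 8864611 z z) (n 0 (n 2356 z (n 8652571 z z)) z)))))) z))))))))) (n 0 z (n 0 z (n
 0 z (n 0 z (n 0 z (n 0 z (n 0 z (n 0 z (n 0 z (n 0 z (n 0 z (n 0 z z))))))))))))) (n 1299 (n 0
 z (n 0 z (n 0 z (n 0 z (n 0 z (n 0 z (n 0 z z))))))) (n 1299 (n 0 z (n 0 z (n 0 z (n 0 z (n 0 z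
 (n 0 z (n 0 z z))))))) (n 1299 (n 0 z (n 2 (n 1 z (n 1 z (n 2 (n 0 z (n 0 z (n 0 z (n 0 z (n 0
 z (n 0 z z)))))) (n 1 z (n 1 z (n 2 (n 0 z (n 0 z (n 0 z (n 0 z (n 0 z (n 0 z z)))))) z))))))
 (n 0 z (n 0 z (n 0 z (n 0 z (n 0 z z))))))) (n 1301 (n 0 z (n 0 z (n 0 z (n 0 z (n 0 z (n 0 z
 (n 0 z (n 0 z (n 0 z (n 0 z (n 0 z (n 0 z (n 0 z (n 0 z (n 0 z (n 0 z (n 0 z (n 0 z (n 0 z (n 0
 z (n 0 z (n 0 z (n 0 z (n 0 z (n 0 z z))))))))))))))))))))))))) (n 589 (n 2 (n 0 z (n 0 z (n 0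
 z (n 0 z z)))) (n 0 z (n 0 z (n 0 z (n 0 z (n 0 z (n 0 z (n 0 z (n 0 z (n 0 z (n 0 z (n 0 z (n
 0 z (n 0 z (n 0 z (n 0 z (n 0 z z))))))))))))))))) (n 589 (n 0 z (n 0 z (n 0 z (n 0 z (n
 0x6ec6ec62036a48218248db79fa2071c9607df7e59247dc89385ca2e5ed66869a7dea5a69e8a68636e98a10801 z
 (n 0 z (n 0 z (n 0 z (n 0 z (n 0 z (n 0 z (n 0 z (n 0 z (n 0 z (n 0 z (n 0 z (n 0 z
 z))))))))))))))))) (n 589 (n 0 z (n 0 z (n 0 z (n 0 z (n 0 z (n 0 z (n 0 z (n 0 z (n 0 z (n 0 z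
 (n 0 z (n 0 z (n 0 z (n 0 z (n 0 z (n 0 z (n 0 z z))))))))))))))))) (n 589 (n 0 z (n 0 z (n 0 z
 (n 0 z (n 0 z (n 0 z (n 0 z (n 0 z (n 0 z (n 0 z (n 0 z (n 0 z (n 0 z (n 0 z (n 0 z (n 0 z (n 0
 z z))))))))))))))))) (n 589 (n 0 z (n 0 z (n 0 z (n 0 z (n 0 z (n 0 z (n 0 z (n 0 z (n 0 z (n 0
 z (n 0 z (n 0 z (n 0 z (n 0 z (n 0 z (n 0 z (n 0 z z))))))))))))))))) z))))))))))))))) (n 0 (n
 0 z (n 0 z (n 19 (n 0 z (n 0 z (n 0 z (n 0 z (n 0 z (n 0 z (n 0 z (n 0 z z)))))))) (n 19 (n 0 z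
 (n 0 z (n 0 z (n 0 z (n 0 z (n 0 z (n 0 z (n 0 z z)))))))) (n 19 (n 0 z (n 0 z (n 0 z (n 0 z (n
 0 z (n 0 z (n 0 z (n 0 z z)))))))) (n 267 (n 2 (n 0 z (n 0 z (n 2 (n 0 z (n 0 z (n 0 z (n 0 z
 (n 0 z (n 0 z z)))))) (n 2 (n 0 (n 52 z z) (n 0 z (n 0 z (n 0 z (n 0 z (n 0 (n 52 z (n 52 z z))
 z)))))) (n 1 z (n 1 z (n 2 (n 0 z (n 0 z (n 0 z (n 0 z (n 0 z (n 0 z z)))))) (n 2 (n 0 z (n 0
 (n 52 z z) (n 0 z (n 0 z (n 0 (n 8652315 z z) (n 0 (n 7604315 z (n 52 z z)) z)))))) z))))))))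
 (n 0 z (n 0 z (n 0 z (n 0 z (n 0 z (n 0 z (n 0 z (n 0 z z))))))))) (n 267 (n 0 z (n 0 z (n 2 (n
 0 z (n 1 z (n 1 z (n 1 z (n 2 (n 0 z (n 0 z (n 0 z (n 0 z (n 0 z (n 0 (n 52 z z) z)))))) (n 2
 (n 0 z (n 0 z (n 0 z (n 0 z (n 0 z (n 0 (n 52 z z) z)))))) (n 1 z z))))))) (n 0 z (n 0 z (n 0 z
 (n 0 z (n 0 z (n 0 z z))))))))) (n 267 (n 0 z (n 0 z (n 0 z (n 0 z (n 0 z (n 0 z (n 0 z (n 0 z
 (n 0 z z))))))))) (n 15 (n 0 z (n 0 z (n 2 (n 2 (n 0 (n 52 z z) (n 0 z (n 0 z (n 0 z (n 0 z (n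
 0 (n 52 z (n 52 z z)) z)))))) (n 1 z (n 1 z (n 2 (n 0 z (n 0 z (n 0 z (n 0 z (n 0 z (n 0 z
 z)))))) (n 2 (n 0 z (n 0 (n 52 z z) (n 0 z (n 0 z (n 0 (n 8652315 z z) (n 0 (n 7604315 z (n 52
 z z)) z)))))) z))))) (n 0 z (n 0 z (n 0 z (n 0 z (n 0 z (n 0 z (n 0 z z)))))))))) (n 13 (n
 0xcec6ec64079a87263eb71366552989bb923e14a7dccc09c216deb2b6637a4c15e858e5297ad11d487465c0801 z
 (n 0 z (n 0 z (n 0 z (n 0 z (n 0 z (n 0 z (n 0 z (n 0 z (n 0 z (n 0 z (n 0 z z)))))))))))) (n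
 13 (n 0 z (n 0 z (n 0 z (n
 0x1b18b98101cb2ec0587608a66e651f79c6a08208159e581c5e8b65819a598a581e8a56266e089881e4d07ee9211dac240881
 z (n 0 z (n 0 z (n 0 z (n 0 z (n 0 z (n 0 z (n 0 z (n 0 z z)))))))))))) (n 13 (n 0 z (n 0 z (n
 0 z (n 0 z (n 0 z (n 0 z (n 0 z (n 0 z (n 2 (n 0 z (n 0 z z)) (n 0 z (n 0 z (n 0 z
 z)))))))))))) (n 13 (n 0 z (n 0 z (n 0 z (n 0 z (n 0 z (n 0 z (n 0 z (n 2 (n 0 z z) (n 0 z (n 0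
 z (n 0 z (n 0 z z)))))))))))) (n 13 (n 0 z (n 0 z (n 0 z (n 0 z (n 0 z (n 0 z (n 0 z (n 0 z (n
 0 z (n 0 z (n 0 z (n 2 z z)))))))))))) z)))))))))))))) (n 0 (n 0 z (n 19 (n 0 z (n 0 z (n 0 z
 (n 0 z (n 0 z (n 0 z (n 0 z z))))))) (n 19 (n 0 z (n 2 (n 0 z (n 2 (n 0 z (n 0 z (n 0 z (n 0 z
 (n 0 z (n 0 (n 8860227 z z) z)))))) (n 1 z (n 1 z (n 2 (n 0 z (n 0 z (n 0 z (n 0 z (n 0 z (n 0
 (n 3213435 z z) z)))))) (n 1 z (n 2 (n 0 z (n 0 z (n 0 z (n 0 z (n 0 z (n 0 (n 964 z z) z))))))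
 (n 2 (n 0 z (n 0 z (n 0 z (n 0 z (n 0 z (n 0 z z)))))) (n 2 (n 0 z (n 0 z (n 0 z (n 0 z (n 0 z
 (n 0 z z)))))) (n 2 (n 0 (n 8794635 z z) (n 0 z (n 0 z (n 0 z (n 0 (n 8794635 z z) (n 0 (n
 8794635 z (n 8794635 z z)) z)))))) z)))))))))) (n 0 z (n 0 z (n 0 z (n 0 z (n 0 z z))))))) (n
 19 (n 0 z (n 0 z (n 0 z (n 0 z (n 0 z (n 0 z (n 0 z z))))))) (n 299 (n 0 z (n 0 z (n 0 z (n 0 z
 (n 0 z (n 0 z (n 0 z (n 0 z (n 2 (n 0 z (n 0 z (n 1 z (n 1 z (n 1 z (n 2 (n 0 z (n 0 z (n 0 z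
 (n 0 z (n 0 z (n 0 z z)))))) (n 2 (n 0 z (n 0 z (n 0 z (n 0 z (n 0 z (n 0 z z)))))) (n 2 (n 0
 (n 8794635 z z) (n 0 z (n 0 (n 8794635 z z) (n 0 z (n 0 z (n 0 (n 8794635 z (n 8794635 z z))
 z)))))) z)))))))) (n 0 z (n 0 z (n 0 z z)))))))))))) (n 299 (n 0 z (n 0 z (n 0 z (n 0 z (n 0 z
 (n 0 z (n 0 z (n 0 z (n 0 z (n 0 z (n 0 z (n 0 z z)))))))))))) (n 299 (n 0 z (n 0 z (n 0 z (n 0
 z (n 0 z (n 0 z (n 0 z (n 0 z (n 0 z (n 0 z (n 0 z (n 0 z z)))))))))))) (n 565 (n 0 z (n 0 z (n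
 0 z (n 0 z (n 0 z (n 2 (n 1 z (n 1 z (n 2 (n 0 z (n 0 z (n 0 z (n 0 z (n 0 z (n 0 z z)))))) (n
 2 (n 0 z (n 0 z (n 0 z (n 0 z (n 0 z (n 0 z z)))))) (n 2 (n 0 (n 8794635 z z) (n 0 z (n 0 (n
 8794635 z z) (n 0 z (n 0 z (n 0 (n 8794635 z (n 8794635 z z)) z)))))) z))))) (n 0 z (n 0 z (n 0
 z (n 0 z z)))))))))) (n 241 (n 0 z (n 0 z (n 0 z (n 6428491 z (n 0 z (n 0 z (n 0 z (n 0 z (n 0
 z (n 0 z (n 0 z (n 0 z (n 0 z (n 0 z (n 0 z z))))))))))))))) (n 241 (n 0 z (n 0 z (n 0 z (n 0 z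
 (n 0 z (n 0 z (n 0 z (n 0 z (n 0 z (n 0 z (n 0 z (n 0 z (n 0 z (n 0 z (n 0 z z)))))))))))))))
 (n 241 (n 0 z (n 0 z (n 0 z (n 0 z (n 0 z (n 0 z (n 6562163 z (n
 0x4b7608a7d778e8c7c6e866f88779877826f86868597776f766592638f6d7b8d946a55a66d998271959c7c9e7777717e8780946e980049
 z (n 0 z (n 0 z (n 0 z (n 0 z (n 0 z (n 0 z (n 0 z z))))))))))))))) (n 241 (n 0 z (n 0 z (n 0 z
 (n 0 z (n 0 z (n 0 z (n 0 z (n 0 z (n 0 z (n 2 (n 0 z z) (n 0 z (n 0 z (n 0 z (n 0 z (n 0 z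
 z))))))))))))))) (n 241 (n 0 z (n 0 z (n 0 z (n 0 z (n 0 z (n 0 z (n 0 z (n 0 z (n 0 z (n 0 z
 (n 0 z (n 0 z (n 0 z (n 0 z (n 0 z z))))))))))))))) z))))))))))))) (n 0 (n 129 (n 0 z (n 0 z (n
 2 (n 0 z (n 0 z (n 2 (n 0 z (n 0 z (n 0 z (n 0 z (n 0 z (n 0 (n 8794691 z z) z)))))) (n 1 z (n
 1 z (n 2 (n 0 z (n 0 z (n 0 z (n 0 z (n 0 z (n 0 (n 3278955 z z) z)))))) (n 1 z (n 2 (n 0 z (n
 0 z (n 0 z (n 0 z (n 0 z (n 0 (n 197 z z) z)))))) (n 2 (n 0 z (n 0 z (n 0 z (n 0 z (n 0 z (n 0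
 z z)))))) (n 2 (n 0 z (n 0 z (n 0 z (n 0 z (n 0 z (n 0 z z)))))) (n 2 (n 0 (n 1972 z z) (n 0 z
 (n 0 z (n 0 z (n 0 (n 1972 z z) (n 0 (n 1972 z (n 1972 z z)) z)))))) z))))))))))) (n 0 z (n 0 z
 (n 0 z (n 0 z z))))))) (n 129 (n 0 z (n 0 z (n 0 z (n 0 z (n 0 z (n 0 z (n 0 z z))))))) (n 129
 (n 0 z (n 0 z (n 0 z (n 0 z (n 0 z (n 0 z (n 0 z z))))))) (n 1311 (n 0 z (n 0 z (n 0 z (n 0 z
 (n 0 z (n 0 z z)))))) (n 1311 (n 0 z (n 0 z (n 0 z (n 0 z (n 0 z (n 0 z z)))))) (n 1311 (n 0 z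
 (n 0 z (n 2 (n 1 z (n 1 z (n 1 z (n 1 z (n 1 z (n 1 z z)))))) (n 0 z (n 0 z (n 0 z z)))))) (n
 1309 (n 0 z (n 0 z (n 0 z (n 0 z (n 0 z (n 0 z (n 0 z (n 0 z (n 0 z (n 0 z (n 0 z (n 0 z
 z)))))))))))) (n 493 (n 0 z (n 2 (n 0 z (n 0 z (n 0 z (n 0 z z)))) (n 0 z (n 0 z (n 0 z (n 0 z
 (n 0 z (n 0 z (n 0 z (n 0 z (n 0 z (n 0 z (n 0 z z))))))))))))) (n 493 (n 0 z (n 0 z (n 0 z (n
 0x76476430180ca8ca86077e28207e289e81f8208208617e07a686185d99d81f8637a46a37608198617a18a27a07a47db1001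
 z (n 0 z (n 0 z (n 0 z (n 0 z (n 0 z (n 0 z (n 0 z (n 0 z (n 0 z z))))))))))))) (n 493 (n 0 z
 (n 0 z (n 0 z (n 0 z (n 0 z (n 0 z (n 0 z (n 0 z (n 0 z (n 0 z (n 0 z (n 0 z (n 0 z
 z))))))))))))) (n 493 (n 0 z (n 0 z (n 0 z (n 0 z (n 0 z (n 0 z (n 0 z (n 0 z (n 0 z (n 0 z (n
 0 z (n 0 z (n 0 z z))))))))))))) (n 493 (n 0 z (n 0 z (n 0 z (n 0 z (n 0 z (n 0 z (n 0 z (n 0 z
 (n 0 z (n 0 z (n 0 z (n 0 z (n 0 z z))))))))))))) z)))))))))))) (n 0 (n 0 z (n 0 z (n 247 (n 0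
 z (n 2 (n 0 z (n 0 z (n 1 z (n 1 z (n 1 z (n 2 (n 0 z (n 0 z (n 0 z (n 0 z (n 0 z (n 0 z
 z)))))) (n 2 (n 0 z (n 0 z (n 0 z (n 0 z (n 0 z (n 0 z z)))))) (n 2 (n 0 (n 196 z z) (n 0 z (n
 0 (n 196 z z) (n 0 z (n 0 z (n 0 (n 196 z (n 196 z z)) z)))))) z)))))))) (n 0 z (n 0 z (n 0 z
 (n 0 z (n 0 z (n 0 z z)))))))) (n 247 (n 0 z (n 0 z (n 0 z (n 0 z (n 0 z (n 0 z (n 0 z (n 0 z
 z)))))))) (n 247 (n 0 z (n 0 z (n 0 z (n 0 z (n 0 z (n 0 z (n 0 z (n 0 z z)))))))) (n 51 (n 0 z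
 (n 0 z (n 0 z (n 0 z (n 2 (n 1 z (n 1 z (n 2 (n 0 z (n 0 z (n 0 z (n 0 z (n 0 z (n 0 z z))))))
 (n 2 (n 0 z (n 0 z (n 0 z (n 0 z (n 0 z (n 0 z z)))))) (n 2 (n 0 (n 196 z z) (n 0 z (n 0 (n 196
 z z) (n 0 z (n 0 z (n 0 (n 196 z (n 196 z z)) z)))))) z))))) (n 0 z (n 0 z (n 0 z (n 0 z (n 0 z
 (n 0 z (n 0 z (n 0 z (n 0 z z)))))))))))))) (n 49 (n 0 z (n 0 z (n 0 z (n 6428491 z (n 0 z (n 0
 z (n 0 z (n 0 z (n 0 z (n 0 z (n 0 z (n 0 z (n 0 z (n 0 z (n 0 z (n 0 z (n 0 z (n 0 z (n 0 z (n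
 0 z (n 0 z (n 0 z (n 0 z z))))))))))))))))))))))) (n 49 (n 0 z (n 0 z (n 0 z (n 0 z (n 0 z (n 0
 z (n 0 z (n 0 z (n 0 z (n 0 z (n 0 z (n 0 z (n 0 z (n 0 z (n 0 z (n 0 z (n 0 z (n 0 z (n 0 z (n
 0 z (n 0 z (n 0 z (n 0 z z))))))))))))))))))))))) (n 49 (n 0 z (n 0 z (n 0 z (n 0 z (n 0 z (n 0
 z (n 0 z (n 0 z (n 0 z (n 0 z (n 0 z (n 0 z (n 0 z (n 6562163 z (n
 0x4b7608a7d778e8c7c6e866f88779877826f86868597776f766592638f6d7b8d946a55a66d998271959c7c9e7777717e8780946e980049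
 z (n 0 z (n 0 z (n 0 z (n 0 z (n 0 z (n 0 z (n 0 z (n 0 z z))))))))))))))))))))))) (n 49 (n 0 z
 (n 0 z (n 0 z (n 0 z (n 0 z (n 0 z (n 0 z (n 0 z (n 0 z (n 0 z (n 0 z (n 0 z (n 0 z (n 0 z (n 0
 z (n 0 z (n 2 (n 0 z z) (n 0 z (n 0 z (n 0 z (n 0 z (n 0 z (n 0 z z))))))))))))))))))))))) (n
 49 (n 0 z (n 0 z (n 0 z (n 0 z (n 0 z (n 0 z (n 0 z (n 0 z (n 0 z (n 0 z (n 0 z (n 0 z (n 0 z
 (n 0 z (n 0 z (n 0 z (n 0 z (n 0 z (n 0 z (n 0 z (n 0 z (n 0 z (n 0 z z)))))))))))))))))))))))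
 z))))))))))) (n 0 (n 0 z (n 267 (n 0 z (n 0 z (n 0 z (n 0 z (n 0 z (n 0 z (n 0 z z))))))) (n
 267 (n 0 z (n 0 z (n 0 z (n 0 z (n 0 z (n 0 z (n 0 z z))))))) (n 267 (n 0 z (n 0 z (n 0 z (n 0
 z (n 0 z (n 2 (n 1 z (n 1 z (n 1 z (n 1 z (n 1 z (n 1 z z)))))) (n 0 z z))))))) (n 15 (n 0 z (n
 0 z (n 0 z (n 0 z (n 0 z (n 0 z (n 0 z (n 0 z z)))))))) (n 265 (n 0 z (n 0 z (n 0 z (n 0 z (n 0
 z (n 0 z (n 0 z (n 0 z (n 0 z (n 0 z (n 0 z (n 0 z (n 0 z (n 0 z (n 0 z (n 0 z (n 0 z (n 0 z (n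
 2 (n 0 z (n 0 z (n 0 z (n 0 z z)))) (n 0 z z)))))))))))))))))))) (n 265 (n 0 z (n 0 z (n 0 z (n
 0 z (n 0 z (n 0 z (n 0 z (n 0 z (n 0 z (n 0 z (n 0 z (n 0 z (n 0 z (n
 0x6ec6ec62036a48218248db79fa2071c9607df7e59247dc89385ca2e5ed66869a7dea5a69e8a68636e98a10801 z
 (n 0 z (n 0 z (n 0 z (n 0 z (n 0 z (n 0 z z)))))))))))))))))))) (n 265 (n 0 z (n 0 z (n 0 z (n
 0 z (n 0 z (n 0 z (n 0 z (n 0 z (n 0 z (n 0 z (n 0 z (n 0 z (n 0 z (n 0 z (n 0 z (n 0 z (n 0 z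
 (n 0 z (n 0 z (n 0 z z)))))))))))))))))))) (n 265 (n 0 z (n 0 z (n 0 z (n 0 z (n 0 z (n 0 z (n
 0 z (n 0 z (n 0 z (n 0 z (n 0 z (n 0 z (n 0 z (n 0 z (n 0 z (n 0 z (n 0 z (n 0 z (n 0 z (n 0 z
 z)))))))))))))))))))) (n 265 (n 0 z (n 0 z (n 0 z (n 0 z (n 0 z (n 0 z (n 0 z (n 0 z (n 0 z (n
 0 z (n 0 z (n 0 z (n 0 z (n 0 z (n 0 z (n 0 z (n 0 z (n 0 z (n 0 z (n 0 z z))))))))))))))))))))
 z)))))))))) (n 0 (n 7 (n 0 z (n 2 (n 0 z (n 0 z (n 1 z (n 1 z (n 2 (n 0 z (n 0 z (n 0 z (n 0 z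
 (n 0 z (n 0 z z)))))) (n 1 z (n 2 (n 0 z (n 0 z (n 0 z (n 0 z (n 0 z (n 0 z z)))))) (n 2 (n 0 z
 (n 0 (n 196 z z) (n 0 z (n 0 (n 1061 z z) (n 0 z (n 0 (n 8853067 z (n 8656683 z z)) z))))))
 z)))))))) (n 0 z (n 0 z (n 0 z (n 0 z (n 0 z (n 0 z (n 0 z (n 0 z (n 0 z (n 0 z (n 0 z (n 0 z
 z)))))))))))))) (n 7 (n 0 z (n 0 z (n 0 z (n 2 (n 0 z (n 1 z (n 1 z (n 1 z (n 2 (n 0 z (n 0 z
 (n 0 z (n 0 z (n 0 z (n 0 (n 196 z z) z)))))) (n 2 (n 0 z (n 0 z (n 0 z (n 0 z (n 0 z (n 0 (n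
 196 z z) z)))))) (n 1 z z))))))) (n 0 z (n 0 z (n 0 z (n 0 z (n 0 z (n 0 z (n 0 z (n 0 z (n 0 z
 (n 0 z z)))))))))))))) (n 7 (n 0 z (n 0 z (n 0 z (n 0 z (n 0 z (n 0 z (n 0 z (n 0 z (n 0 z (n 0
 z (n 0 z (n 0 z (n 0 z (n 0 z z)))))))))))))) (n 51 (n 0 z (n 2 (n 1 z (n 2 (n 0 z (n 0 z (n 0
 z (n 0 z (n 0 z (n 0 z z)))))) (n 1 z (n 2 (n 0 z (n 0 z (n 0 z (n 0 z (n 0 z (n 0 z z)))))) (n
 2 (n 0 z (n 0 (n 196 z z) (n 0 z (n 0 (n 5 z z) (n 0 z (n 0 (n 7604315 z (n 196 z z)) z))))))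
 z))))) (n 0 z (n 0 z (n 0 z (n 0 z (n 0 z (n 0 z z)))))))) (n 49 (n 0 z (n 0 z (n
 0x10ec4e62803037546423038332a2a0181c09d0dd0c80e06ea6c6420795747b849861738d7f81807d7c6e799681808c596b77759c7a9b79867e5e8862ab6f8e80718e8c7d8f755f7c878e7f62759b2809
 z (n 0 z (n 0 z (n 0 z (n 0 z (n 0 z (n 0 z (n 0 z (n 0 z (n 0 z (n 0 z (n 0 z z))))))))))))))
 (n 49 (n 0 z (n 0 z (n 0 z (n
 0x365353010386dd80b2ec05876081e8646de8227208208178e381f562a2581da5d8648129ab7a26e085a81e4d5768ade591aa508c1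
 z (n 0 z (n 0 z (n 0 z (n 0 z (n 0 z (n 0 z (n 0 z (n 0 z (n 0 z (n 0 z z)))))))))))))) (n 49
 (n 0 z (n 0 z (n 0 z (n 0 z (n 0 z (n 0 z (n 0 z (n 0 z (n 0 z (n 2 (n 0 z (n 0 z z)) (n 0 z (n
 0 z (n 0 z (n 0 z z)))))))))))))) (n 49 (n 0 z (n 0 z (n 0 z (n 0 z (n 0 z (n 0 z (n 0 z (n 0 z
 (n 0 z (n 0 z (n 2 (n 0 z z) (n 0 z (n 0 z (n 0 z z)))))))))))))) (n 49 (n 0 z (n 0 z (n 0 z (n
 0 z (n 0 z (n 0 z (n 0 z (n 0 z (n 0 z (n 0 z (n 0 z (n 0 z (n 2 z (n 0 z z))))))))))))))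
 z))))))))) (n 0 (n 0 z (n 0 z (n 1321 (n 0 z (n 0 z (n 0 z (n 0 z (n 0 z (n 0 z (n 0 z (n 0 z
 (n 0 z (n 0 z (n 0 z (n 0 z (n 0 z (n 0 z (n 0 z (n 0 z (n 0 z (n 0 z (n 0 z (n 0 z (n 0 z (n 0
 z (n 0 z (n 0 z (n 0 z (n 0 z (n 0 z (n 0 z (n 0 z (n 0 z (n 0 z (n 0 z (n 0 z (n 0 z (n 0 z (n
 0 z (n 0 z (n 0 z (n 0 z (n 0 z (n 0 z (n 0 z (n 0 z (n 0 z (n 0 z (n 0 z (n 0 z (n 0 z (n 0 z
 (n 0 z (n 0 z z))))))))))))))))))))))))))))))))))))))))))))))))))) (n 265 (n 0 z (n 0 z (n 0 z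
 (n 0 z (n 2 (n 0 z (n 0 z (n 0 z (n 0 z z)))) (n 0 z (n 0 z (n 0 z (n 0 z (n 0 z (n 0 z (n 0 z
 z)))))))))))) (n 265 (n 0 z (n 0 z (n 0 z (n 0 z (n 0 z (n 0 z (n 0 z (n 0 z (n 0 z (n 0 z (n
 0x276562140384ec8ec240372581d8a091d7e086379f82679e7636eb8217e06e4a1c8238e061c8a59588de7ea7e15dca5e1001
 z (n 0 z z)))))))))))) (n 265 (n 0 z (n 0 z (n 0 z (n 0 z (n 0 z (n 0 z (n 0 z (n 0 z (n 0 z (n
 0 z (n 0 z (n 0 z z)))))))))))) (n 265 (n 0 z (n 0 z (n 0 z (n 0 z (n 0 z (n 0 z (n 0 z (n 0 z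
 (n 0 z (n 0 z (n 0 z (n 0 z z)))))))))))) (n 265 (n 0 z (n 0 z (n 0 z (n 0 z (n 0 z (n 0 z (n 0
 z (n 0 z (n 0 z (n 0 z (n 0 z (n 0 z z)))))))))))) z)))))))) (n 0 (n 0 z (n 339 (n 0 z (n 0 z
 (n 0 z (n 0 z (n 0 z (n 0 z (n 0 z (n 0 z (n 0 z (n 0 z (n 0 z (n 0 z z)))))))))))) (n 257 (n 0
 z (n 0 z (n 0 z (n 0 z (n 0 z (n 0 z (n 0 z (n 0 z (n 0 z (n 0 z (n 0 z (n 0 z (n 0 z (n 0 z
 z)))))))))))))) (n 257 (n 0 z (n 0 z (n 0 z (n 0 z (n 0 z (n 0 z (n 0 z (n 0 z (n 0 z (n 2 (n 0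
 z (n 0 z (n 0 z z))) (n 0 z (n 0 z (n 0 z (n 0 z z)))))))))))))) (n 257 (n 0 z (n 0 z (n 0 z (n
 0 z (n 0 z (n 0 z (n 0 z (n 0 z (n 0 z (n 0 z (n 0 z (n 2 (n 0 z (n 0 z z)) (n 0 z (n 0 z
 z)))))))))))))) (n 257 (n 0 z (n 0 z (n 0 z (n 0 z (n
 0x16c64ea020301775463200180fbb2b10800c2ccbb0859876180485c7ce83074c8227fc7a87d07f480080080075c8527f38007eb78d8c68c685580077089c7708518078008127f486b73a8a979380085173a8008006d97708298d78197f56e48178d27d81891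
 z (n 0 z (n 0 z (n 0 z (n 0 z (n 0 z (n 0 z (n 0 z (n 0 z (n 0 z z)))))))))))))) (n 257 (n 0 z
 (n 0 z (n 0 z (n 0 z (n 0 z (n 0 z (n 0 z (n 0 z (n 0 z (n 0 z (n 0 z (n 0 z (n 0 z (n 0 z
 z)))))))))))))) z))))))) (n 0 (n 15 (n 0 z (n 2 (n 1 z (n 1 z (n 1 z (n 2 (n 0 z (n 0 z (n 0 z
 (n 0 z (n 0 z (n 0 z z)))))) (n 2 (n 0 (n 52 z z) (n 0 z (n 0 (n 52 z z) (n 0 z (n 0 z (n 0 (n
 52 z (n 52 z z)) z)))))) z))))) (n 0 z (n 0 z (n 0 z (n 0 z (n 0 z z))))))) (n 13 (n 0 z (n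
 0xaec8ec8403857e7c818f6979887e7c81807f7d798e91819a65737b799379917989746d855e9b6f8584728b847f9b7970818c8c757b778c0809
 z (n 0 z (n 0 z (n 0 z (n 0 z (n 0 z (n 0 z (n 0 z (n 0 z (n 0 z (n 0 z (n 0 z (n 0 z
 z)))))))))))))) (n 13 (n 0 z (n 0 z (n 0 z (n 0 z (n
 0x3b18a10381c37647401018edd81b2ec0d87608a66e645e6986a08208099e481e566c2b819ad9a2381a9276ac560a1c81814b7b4a9f110f2b10c1
 z (n 0 z (n 0 z (n 0 z (n 0 z (n 0 z (n 0 z (n 0 z (n 0 z (n 0 z z)))))))))))))) (n 13 (n 0 z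
 (n 0 z (n 0 z (n 0 z (n 0 z (n 0 z (n 0 z (n 0 z (n 0 z (n 0 z (n 2 (n 0 z (n 0 z z)) (n 0 z (n
 0 z (n 0 z z)))))))))))))) (n 13 (n 0 z (n 0 z (n 0 z (n 0 z (n 0 z (n 0 z (n 0 z (n 0 z (n 0 z
 (n 2 (n 0 z z) (n 0 z (n 0 z (n 0 z (n 0 z z)))))))))))))) (n 13 (n 0 z (n 0 z (n 0 z (n 0 z (n
 0 z (n 0 z (n 0 z (n 0 z (n 0 z (n 0 z (n 0 z (n 0 z (n 0 z (n 2 z z)))))))))))))) z)))))) (n 0
 (n 1 (n 0 z (n 0 z (n 0 z (n 0 z (n 0 z (n 0 z (n 0 z (n 0 z (n 0 z (n 0 z (n 0 z (n 0 z (n 2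
 (n 0 z (n 0 z (n 0 z (n 0 z z)))) (n 0 z (n 0 z (n 0 z (n 0 z (n 0 z (n 0 z (n 0 z (n 0 z (n 0
 z (n 0 z (n 0 z (n 0 z (n 0 z (n 0 z (n 0 z z)))))))))))))))))))))))))))) (n 1 (n 0 z (n 0 z (n
 0 z (n 0 z (n 0 z (n 0 z (n 0 z (n 0 z (n 0 z (n 0 z (n 0 z (n 0 z (n 0 z (n 0 z (n 0 z (n 0 z
 (n 0 z (n 0 z (n 0 z (n 0 z (n 0 z (n 0 z (n 0 z (n 0 z (n 0 z (n
 0x4ec6ec62036e48218238db7df9a075d9207df7e48e381c89585d9ac62a6e66db7de9db6de8a58627298a10801 z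
 (n 0 z (n 0 z z)))))))))))))))))))))))))))) (n 1 (n 0 z (n 0 z (n 0 z (n 0 z (n 0 z (n 0 z (n 0
 z (n 0 z (n 0 z (n 0 z (n 0 z (n 0 z (n 0 z (n 0 z (n 0 z (n 0 z (n 0 z (n 0 z (n 0 z (n 0 z (n
 0 z (n 0 z (n 0 z (n 0 z (n 0 z (n 0 z (n 0 z (n 0 z z)))))))))))))))))))))))))))) (n 1 (n 0 z
 (n 0 z (n 0 z (n 0 z (n 0 z (n 0 z (n 0 z (n 0 z (n 0 z (n 0 z (n 0 z (n 0 z (n 0 z (n 0 z (n 0
 z (n 0 z (n 0 z (n 0 z (n 0 z (n 0 z (n 0 z (n 0 z (n 0 z (n 0 z (n 0 z (n 0 z (n 0 z (n 0 z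
 z)))))))))))))))))))))))))))) (n 1 (n 0 z (n 0 z (n 0 z (n 0 z (n 0 z (n 0 z (n 0 z (n 0 z (n 0
 z (n 0 z (n 0 z (n 0 z (n 0 z (n 0 z (n 0 z (n 0 z (n 0 z (n 0 z (n 0 z (n 0 z (n 0 z (n 0 z (n
 0 z (n 0 z (n 0 z (n 0 z (n 0 z (n 0 z z)))))))))))))))))))))))))))) z))))) (n 0 (n 0 z (n 0 z
 (n 0 z (n 0 z z)))) (n 0 (n 0 z (n 0 z (n 0 z z))) (n 0 (n 0 z (n 0 z z)) (n 0 (n 0 z z) (n 0 z
 z)))))))))))))))) (n 0 (n 1 (n 2812 z (n 2812 z (n 2812 z (n 2812 z (n 2812 z (n 2812 z z))))))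
 (n 1 (n 6492243 z (n 6492243 z (n 6492243 z (n 6492243 z (n 6492243 z (n 6492243 z z)))))) (n 1
 (n 28 z (n 2812 z (n 2812 z (n 2812 z (n 2812 z (n 2812 z z)))))) (n 1 (n 2812 z (n 2812 z (n 2
 z (n 2812 z (n 2812 z (n 2812 z z)))))) z)))) (n 0 (n 0x816aa5b5088b4a304a4a3209 (n 0 (n 0 (n
 7746115 z (n 7746115 z (n 7746115 z (n 7746115 z (n 7746115 z (n 7746115 z z)))))) z) (n 0 (n
 649 (n 0 z (n 1 (n 2812 z (n 2812 z (n 2812 z (n 7602987 z (n 6494027 z (n 2812 z z)))))) (n 1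
 (n 7540819 z (n 7540819 z (n 7540819 z (n 7540819 z (n 7540819 z (n 7540819 z z)))))) (n 1 (n
 7602987 z (n 2812 z (n
 0xfba9a99081c0d8c98804063edc857cb90af872182827d955b6c7e806b8080808049957b8099398db2a18069bc69878d8010a0c373975f80875380721a2d7bb7d77f3c27cda210c9
 z (n 6498139 z (n 2812 z (n 2812 z z)))))) (n 0 z (n 0 z (n 1 (n 7746115 z (n 7746115 z (n
 7746115 z (n 7746115 z (n 7746115 z (n 7746115 z z)))))) z))))))) (n 339 (n 1 (n 5260 z (n 5260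
 z (n 6555419 z (n 7607851 z (n 516 z (n 5260 z z)))))) (n 1 (n 7540819 z (n 7540819 z (n
 7540819 z (n 7540819 z (n 7540819 z (n 7540819 z z)))))) (n 1 (n 7607851 z (n 2 z (n 5260 z (n
 5260 z (n 5260 z (n 5260 z z)))))) (n 1 (n 7746115 z (n 7746115 z (n 7746115 z (n 7746115 z (n
 7746115 z (n 7746115 z z)))))) z)))) (n 65 (n 0 z (n 0 z (n 1 (n 10 z (n 2764 z (n 1084 z (n
 2764 z (n 2764 z (n 2764 z z)))))) (n 0 z (n 1 (n 7746115 z (n 7746115 z (n 7746115 z (n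
 7746115 z (n 7746115 z (n 7746115 z z)))))) (n 1 (n 7540819 z (n 7540819 z (n 7540819 z (n
 7540819 z (n 7540819 z (n 7540819 z z)))))) (n 0 z z))))))) (n 661 (n 0 z (n 1 (n 7540819 z (n
 7540819 z (n 7540819 z (n 7540819 z (n 7540819 z (n 7540819 z z)))))) (n 1 (n 5308 z (n 18 z (n
 5308 z (n 5308 z (n 5308 z (n 5308 z z)))))) (n 0 z (n 1 (n 28 z (n 5308 z (n 5308 z (n 6428507
 z (n 5308 z (n 5308 z z)))))) (n 1 (n 7746115 z (n 7746115 z (n 7746115 z (n 7746115 z (n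
 7746115 z (n 7746115 z z)))))) z)))))) (n 9 (n 0 z (n 1 (n 7676683 z (n 7676683 z (n 7676683 z
 (n 7676683 z (n 7676683 z (n 7676683 z z)))))) (n 0 z (n 1 (n 5332 z (n 7607851 z (n 7602987 z
 (n 5372 z (n 5372 z (n 5372 z z)))))) (n 1 (n 5372 z (n 5372 z (n 7602987 z (n 5372 z (n
 7607851 z (n 5372 z z)))))) (n 1 (n 3213131 z (n 3213131 z (n 3213131 z (n 3213131 z (n 7602987
 z (n 3213131 z z)))))) (n 0 z (n 0 z z)))))))) (n 133 (n 1 (n 2396 z (n 7676683 z (n 2396 z (n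
 0x8e86e8640391e761b0e6e779c82081e6ebb61d0a55c6ef6ee6a75d0904d9292456991fd9a4e1a6a5dc66a0801 z
 (n 2396 z (n 2396 z z)))))) (n 1 (n 3281011 z (n 2396 z (n
 0x1ba9b10a01c0d94d90c40e06e84e6420307ae4226dc842cb908587218b6682838e706f9b8584808080826a889c8881595e807ca27f9e8779686a9671af6e847a73916e7a8e8a6e6ca58dae4977941909
 z (n 6498139 z (n 2396 z (n 2396 z z)))))) (n 1 (n 7602987 z (n 2164571 z (n 2164571 z (n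
 7676683 z (n 2164571 z (n 2164571 z z)))))) (n 1 (n 7746115 z (n 7746115 z (n 7746115 z (n
 7746115 z (n 7746115 z (n 7746115 z z)))))) (n 1 (n 2396 z (n 2396 z (n 2396 z (n 7676683 z (n
 7602987 z (n 26 z z)))))) (n 1 (n 7746115 z (n 7746115 z (n 7746115 z (n 7746115 z (n 7746115 z
 (n 7746115 z z)))))) (n 1 (n 7676683 z (n 2396 z (n 7602987 z (n 3278619 z (n 3282795 z (n 2396
 z z)))))) (n 1 (n 7676683 z (n 2396 z (n 2396 z (n 4392731 z (n 6494027 z (n 2396 z z)))))) (n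
 1 (n 2396 z (n 2396 z (n 2396 z (n 2396 z (n 7676683 z (n 7602987 z z)))))) (n 1 (n 7676683 z
 (n 2396 z (n 7602987 z (n 3278619 z (n 3282795 z (n 2396 z z)))))) (n 1 (n 2396 z (n 2396 z (n
 7676683 z (n
 0x6ec6ec62036a48218248db79fa2071c9607df7e59247dc89385ca2e5ed66869a7dea5a69e8a68636e98a10801 z
 (n 7602987 z (n 2396 z z)))))) (n 0 z z)))))))))))) (n 339 (n 1 (n 2812 z (n 2812 z (n 2812 z
 (n 2812 z (n 2812 z (n 2812 z z)))))) (n 1 (n 7540819 z (n 7540819 z (n 7540819 z (n 7540819 z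
 (n 7540819 z (n 7540819 z z)))))) (n 1 (n 28 z (n 2812 z (n 2812 z (n 2812 z (n 2812 z (n 2812
 z z)))))) (n 1 (n 7746115 z (n 7746115 z (n 7746115 z (n 7746115 z (n 7746115 z (n 7746115 z
 z)))))) z)))) z))))))) (n 0 (n 0 (n 0 z (n 0 z (n 0 z (n 0 z z)))) (n 0 (n 0 z (n 0 z (n 0 z
 z))) (n 0 (n 0 z (n 0 z z)) (n 0 (n 0 z z) z)))) (n 0 (n 657 (n 0 (n 0 z (n 0 z (n 0 z (n 0 z
 z)))) (n 0 (n 0 z (n 0 z (n 0 z (n 0 z z)))) (n 0 (n 0 z (n 0 z (n 0 z (n 0 z z)))) (n 0 (n 0 z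
 (n 0 z (n 0 z (n 0 z z)))) (n 0 (n 0 z (n 0 z (n 0 z (n 0 z z)))) (n 0 (n 0 z (n 0 z (n 0 z (n
 0 z z)))) (n 0 (n 0 z (n 0 z (n 0 z (n 0 z z)))) (n 0 (n 0 z (n 0 z (n 0 z (n 0 z z))))
 z)))))))) (n 345 (n 0 (n 0 z (n 0 z (n 0 z (n 0 z z)))) (n 0 (n 0 z (n 0 z (n 0 z (n 0 z z))))
 (n 0 (n 0 z (n 0 z (n 0 z (n 0 z z)))) (n 0 (n 0 z (n 0 z (n 0 z (n 0 (n 8589395 z z) z)))) (n
 0 (n 0 z (n 0 z (n 0 z (n 0 z z)))) (n 0 (n 0 z (n 0 z (n 0 z (n 0 z z)))) (n 0 (n 0 z (n 0 z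
 (n 0 z (n 0 z z)))) (n 0 (n 0 z (n 0 z (n 0 z (n 0 z z)))) (n 0 (n 0 z (n 0 z (n 0 z (n 0 z
 z)))) (n 0 (n 0 z (n 0 z (n 0 z (n 0 z z)))) (n 0 (n 0 z (n 0 z (n 0 z (n 0 z z)))) (n 0 (n 0 z
 (n 0 z (n 0 z (n 0 z z)))) (n 0 (n 0 (n 7608411 z (n
 0x874864301810c90826037e17e17e089f7df8208627a381f7246e28e09607a285f82381e7de85d81f8608208218208211001
 z z)) (n 0 (n 7608411 z (n
 0x874864301810c90826037e17e17e089f7df8208627a381f7246e28e09607a285f82381e7de85d81f8608208218208211001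
 z z)) (n 0 (n
 0x1387485c85fa1e7a48617a28217e27638d465c7e462969e8e071cad69a17e98e1a61717861a5d6680041 z (n
 8652571 z z)) (n 0 (n
 0x2b8747dc8da7ea8229216a7797b5366455caa77586e37519a172d9a36dfbe98193d97248149d5c580041 z (n
 0x21d21d0c0603b2439180c3764842301810c90e26038208618608208207a18207e181f7e27a08208618a07e281e8208227a18608207e18207df85f2001
 z z)) z)))) z))))))))))))) (n 65 (n 0 (n 0 z (n 0 z (n 0 (n 8794691 z z) (n 0 z z)))) (n 0 (n 0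
 z (n 0 z (n 0 (n
 0x1387485c85fa1e7a48617a28217e27638d465c7e462969e8e071cad69a17e98e1a61717861a5d6680041 z (n
 0x30e70c080781f82182081f82082081f82082182082082082282082082182082081f82081f8208208208200801 z
 z)) (n 0 (n
 0x1387485c85fa1e7a48617a28217e27638d465c7e462969e8e071cad69a17e98e1a61717861a5d6680041 z (n
 0x874864303810c8ec860385f7e28207df82082081f85f8218208208208208208208208208208208208608608207e08201001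
 z z)) z)))) (n 0 (n 0 z (n 0 z (n 0 z (n 0 z z)))) (n 0 (n 0 z (n 0 z (n 0 z (n 0 z z)))) (n 0
 (n 0 z (n 0 z (n 0 z (n 0 z z)))) (n 0 (n 0 z (n 0 z (n 0 z (n 0 z z)))) (n 0 (n 0 z (n 0 z (n
 0 z (n 0 z z)))) z))))))) (n 663 (n 0 (n 0 z (n 0 z (n 0 z (n 0 z z)))) (n 0 (n 0 z (n 0 z (n 0
 z (n 0 z z)))) (n 0 (n 0 z (n 0 z (n 0 z (n 0 z z)))) (n 0 (n 0 z (n 0 z (n 0 z (n 0 z z)))) (n
 0 (n 0 z (n 0 z (n 0 z (n 0 z z)))) (n 0 (n 0 z (n 0 z (n 0 z (n 0 z z)))) (n 0 (n 0 z (n 0 z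
 (n 0 z (n 0 z z)))) z))))))) (n 661 (n 0 (n 0 z (n 0 z (n 0 z (n 0 (n 8589395 z z) z)))) (n 0
 (n 0 z (n 0 z (n 0 z (n 0 z z)))) (n 0 (n 0 z (n 0 z (n 0 z (n 0 z z)))) (n 0 (n 0 z (n 0 z (n
 0 z (n 0 z z)))) (n 0 (n 0 z (n 0 z (n 0 z (n 0 z z)))) (n 0 (n 0 z (n 0 z (n 0 z (n 0 z z))))
 z)))))) (n 135 (n 0 (n 0 z (n 0 z (n 0 z (n 0 z z)))) (n 0 (n 0 z (n 0 z (n 0 z (n 0 z z)))) (n
 0 (n 0 z (n 0 z (n 0 z (n 0 z z)))) (n 0 (n 0 z (n 0 z (n 0 z (n 0 z z)))) (n 0 (n 0 z (n 0 z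
 (n 0 z (n 0 z z)))) (n 0 (n 0 z (n 0 z (n 0 z (n 0 z z)))) (n 0 (n 0 z (n 0 z (n 0 z (n 0 (n
 0xb8748208208218208207e181f86082189e86081f8217df8607e08207e086185f85f8207e082081f0041 z z)
 z)))) z))))))) (n 671 (n 0 (n 0 z (n 0 z (n 0 z (n 0 z z)))) (n 0 (n 0 z (n 0 z (n 0 z (n 0 z
 z)))) (n 0 (n 0 z (n 0 z (n 0 z (n 0 z z)))) (n 0 (n 0 (n 8651563 z z) (n 0 (n 8651563 z z) (n
 0 z (n 0 z z)))) (n 0 (n 0 z (n 0 z (n 0 z (n 0 z z)))) (n 0 (n 0 z (n 0 z (n 0 z (n 0 z z))))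
 (n 0 (n 0 z (n 0 z (n 0 (n 8864611 z (n 8864611 z z)) (n 0 z z)))) (n 0 (n 0 (n 8848987 z (n
 8848987 z z)) (n 0 (n 8848987 z (n 8848987 z z)) (n 0 z (n 0 z z)))) (n 0 (n 0 z (n 0 z (n 0 z
 (n 0 (n 8651563 z z) z)))) (n 0 (n 0 z (n 0 z (n 0 z (n 0 (n 8589395 z (n 8589395 z z)) z))))
 (n 0 (n 0 z (n 0 z (n 0 (n
 0x8386281658c60a6767f9c9f8070917e7a8a8483838d61746c6b8b79ab5e8080548a729f699491a07c7098a6a76a4e6878b56353860049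
 z z) (n 0 z z)))) (n 0 (n 0 z (n 0 z (n 0 z (n 0 z z)))) (n 0 (n 0 z (n 0 z (n 0 z (n 0 z z))))
 (n 0 (n 0 z (n 0 z (n 0 z (n 0 z z)))) (n 0 (n 0 z (n 0 z (n 0 z (n 0 z z)))) (n 0 (n 0 (n
 8589395 z z) (n 0 (n 8589395 z z) (n 0 z (n 0 z z)))) (n 0 (n 0 z (n 0 z (n 0 z (n 0 (n 8589395
 z z) z)))) (n 0 (n 0 z (n 0 z (n 0 z (n 0 z z)))) (n 0 (n 0 z (n 0 z (n 0 z (n 0 z z)))) (n 0
 (n 0 z (n 0 z (n 0 z (n 0 z z)))) (n 0 (n 0 z (n 0 z (n 0 z (n 0 z z)))) (n 0 (n 0 z (n 0 z (n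
 0 z (n 0 z z)))) (n 0 (n 0 (n 8651563 z (n 7680643 z z)) (n 0 (n 8651563 z (n 7680643 z z)) (n
 0 z (n 0 z z)))) (n 0 (n 0 (n 8656427 z (n 8656427 z z)) (n 0 (n 7743515 z (n 8656427 z z)) (n
 0 z (n 0 (n 8656427 z z) z)))) (n 0 (n 0 (n
 0xb8738208208208208207e181f85f82189e8607e08217df8607e08207e186086085f8207e08208600041 z (n
 0x1b8327dd89d7e78228a17657daa5772369d9a475b761796921769962760aa681b55c7627d9919ada0041 z z)) (n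
 0 (n 0x387182082082082082082081f86082185f8608208217df8607e08207e082185f85f82082082185f0041 z (n
 0x2b8327dc8da7ea8229216a7797b5366455caa77586e37519a172d9a36dfbe98193d97248149d5c580041 z z)) (n
 0 (n 0xb8718208208218208207e181f86082189e86081f8217df8607e08207e086185f85f8207e082081f0041 z (n
 8652571 z z)) (n 0 z z)))) z))))))))))))))))))))))))) (n 667 (n 0 (n 0 z (n 0 z (n 0 z (n 0 (n
 0x387382082082082082082081f86082185f8608208217df8607e08207e082185f85f82082082185f0041 z (n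
 0xb0c8ea06037d7c84906f94828070818179817e8073837e6f8c899e7b77816f8e727786879b728666886d888475685f889ea9776d58aa6c0809
 z z)) z)))) (n 0 (n 0 (n 8589395 z z) (n 0 (n 8589395 z z) (n 0 (n 8589395 z z) (n 0 z z)))) (n
 0 (n 0 z (n 0 z (n 0 z (n 0 z z)))) (n 0 (n 0 z (n 0 z (n 0 z (n 0 z z)))) (n 0 (n 0 (n 8848987
 z (n 8848987 z z)) (n 0 (n 8848987 z (n 8848987 z z)) (n 0 (n 8848987 z (n 8848987 z z)) (n 0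
 (n
 0x4b8508a7d778e8c7c6e866f88779877826f86868597776f766592638f6d7b8d946a55a66d998271959c7c9e7777717e8780946e980049
 z (n
 0x3b850887d798b897d728572867993798272858584927972786a8e698c717c8a906e5e9e7194827491967d987879747f85809072930049
 z z)) z)))) (n 0 (n 0 z (n 0 z (n 0 z (n 0 z z)))) (n 0 (n 0 z (n 0 z (n 0 z (n 0 z z)))) (n 0
 (n 0 (n 5376075 z (n 5376075 z z)) (n 0 (n 5376075 z (n 5376075 z z)) (n 0 z (n 0 (n 5376075 z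
 z) z)))) (n 0 (n 0 z (n 0 z (n 0 z (n 0 z z)))) (n 0 (n 0 z (n 0 z (n 0 z (n 0 z z)))) (n 0 (n
 0 z (n 0 z (n 0 z (n 0 z z)))) (n 0 (n 0 z (n 0 z (n 0 z (n 0 (n
 0x648768586788279867a807d8180807f5e858c68707f788885787c897c8c868761947788937b85847a867d647a7691677569558b780049
 z (n 0x2387695e72799e5e36246ed6e16238e3b1b5db4a946859d9ea54ad17b6166bb9ebdc7187e382a5eb0041 z
 z)) z)))) z)))))))))))) (n 9 (n 0 (n 0 z (n 0 z (n 0 z (n 0 z z)))) (n 0 (n 0 z (n 0 z (n 0 z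
 (n 0 z z)))) (n 0 (n 0 z (n 0 z (n 0 (n 8725259 z (n 8725259 z z)) (n 0 (n 8725259 z (n 8725259
 z z)) z)))) (n 0 (n 0 z (n 0 z (n 0 z (n 0 z z)))) (n 0 (n 0 z (n 0 z (n 0 z (n 0 z z)))) (n 0
 (n 0 z (n 0 z (n 0 z (n 0 z z)))) (n 0 (n 0 (n 8848987 z (n 8848987 z z)) (n 0 (n 8848987 z (n
 8848987 z z)) (n 0 z (n 0 (n
 0x2b8737dc8da7ea8229216a7797b5366455caa77586e37519a172d9a36dfbe98193d97248149d5c580041 z (n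
 0x4b8508a7d778e8c7c6e866f88779877826f86868597776f766592638f6d7b8d946a55a66d998271959c7c9e7777717e8780946e980049
 z z)) z)))) (n 0 (n 0 (n 8848987 z (n 8848987 z z)) (n 0 (n 8848987 z (n 8848987 z z)) (n 0 (n
 8848987 z (n 8848987 z z)) (n 0 z z)))) z)))))))) (n 666 (n 0 (n 0 z (n 0 z (n 0 (n
 0xb8708208208218208207e181f85f82189e8608208217df8607e08207e082185f82082082082081f0041 z z) (n 0
 (n 0x1b8657dd89b7e88229217267d9a966e35dd9e679a72275496172a9a371fb2781b49b723817997b590041 z (n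
 0xb8718208208218208207e181f86082189e86081f8217df8607e08207e086185f85f8207e082081f0041 z z))
 z)))) (n 0 (n 0 z (n 0 z (n 0 z (n 0 z z)))) (n 0 (n 0 z (n 0 z (n 0 z (n 0 z z)))) (n 0 (n 0 z
 (n 0 z (n 0 z (n 0 (n 5376075 z (n 5376075 z z)) z)))) (n 0 (n 0 z (n 0 z (n 0 (n 8864611 z z)
 (n 0 z z)))) (n 0 (n 0 z (n 0 z (n 0 z (n 0 (n 8873219 z (n 8873219 z z)) z)))) (n 0 (n 0 z (n
 0 z (n 0 z (n 0 z z)))) (n 0 (n 0 z (n 0 z (n 0 z (n 0 z z)))) (n 0 (n 0 (n 8848987 z (n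
 8848987 z z)) (n 0 (n 8848987 z (n 8848987 z z)) (n 0 (n 8848987 z (n 8848987 z z)) (n 0 z
 z)))) (n 0 (n 0 z (n 0 z (n 0 z (n 0 z z)))) (n 0 (n 0 z (n 0 z (n 0 z (n 0 z z)))) (n 0 (n 0 z
 (n 0 z (n 0 z (n 0 z z)))) (n 0 (n 0 z (n 0 z (n 0 z (n 0 z z)))) (n 0 (n 0 z (n 0 z (n 0 z (n
 0 z z)))) (n 0 (n 0 z (n 0 z (n 0 (n
 0x387082082082082082082081f86082185f8608208217df8607e08207e082185f85f82082082185f0041 z z) (n 0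
 (n 0x2b8627dc8da7ea8229216a7797b5366455caa77586e37519a172d9a36dfbe98193d97248149d5c580041 z (n
 0x2b8717dc8da7ea8229216a7797b5366455caa77586e37519a172d9a36dfbe98193d97248149d5c580041 z z))
 z)))) (n 0 (n 0 (n 8848987 z (n 8848987 z z)) (n 0 (n 8848987 z (n 8848987 z z)) (n 0 (n
 8848987 z (n 8848987 z z)) (n 0 (n
 0x4b8508a7d778e8c7c6e866f88779877826f86868597776f766592638f6d7b8d946a55a66d998271959c7c9e7777717e8780946e980049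
 z (n
 0x4b8508a7d778e8c7c6e866f88779877826f86868597776f766592638f6d7b8d946a55a66d998271959c7c9e7777717e8780946e980049
 z z)) z)))) (n 0 (n 0 z (n 0 z (n 0 z (n 0 z z)))) (n 0 (n 0 z (n 0 z (n 0 z (n 0 z z)))) (n 0
 (n 0 (n 0xb8728208208208208207e181f85f82189e8607e08217df8607e08207e186086085f8207e08208600041 z
 (n 0x1386585c85fa1e7a48617a28217e27638d465c7e462969e8e071cad69a17e98e1a61717861a5d6680041 z z))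
 (n 0 (n 0x1386585c85fa1e7a48617a28217e27638d465c7e462969e8e071cad69a17e98e1a61717861a5d6680041
 z (n 0x1386585c85fa1e7a48617a28217e27638d465c7e462969e8e071cad69a17e98e1a61717861a5d6680041 z
 z)) (n 0 (n
 0x358708b707c8f91776c87768981847d7d728b838197726b796f965d8e748384857660966c98906faa8480a5807b68878c838272a60049
 z (n 0x1386585c85fa1e7a48617a28217e27638d465c7e462969e8e071cad69a17e98e1a61717861a5d6680041 z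
 z)) (n 0 (n
 0x1386585c85fa1e7a48617a28217e27638d465c7e462969e8e071cad69a17e98e1a61717861a5d6680041 z z)
 z)))) (n 0 (n 0 (n
 0xb8728208208218208207e181f86082189e86081f8217df8607e08207e086185f85f8207e082081f0041 z (n
 0xb8728208208208208207e181f85f82189e8607e08217df8607e08207e186086085f8207e08208600041 z z)) (n
 0 (n 0x1387585c85fa1e7a48617a28217e27638d465c7e462969e8e071cad69a17e98e1a61717861a5d6680041 z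
 (n 0x2b8657dc8da7ea8229216a7797b5366455caa77586e37519a172d9a36dfbe98193d97248149d5c580041 z z))
 (n 0 z (n 0 z z)))) (n 0 (n 0 (n 8860171 z (n 8860171 z z)) (n 0 (n
 0xb8108208208208208207e181f85f82189e8607e08217df8607e08207e186086085f8207e08208600041 z (n
 0xb8108208208208208207e181f85f82189e8607e08217df8607e08207e186086085f8207e08208600041 z z)) (n
 0 (n 0x387082082082082082082081f86082185f8608208217df8607e08207e082185f85f82082082185f0041 z (n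
 0xb8108208208208208207e181f85f82189e8607e08217df8607e08207e186086085f8207e08208600041 z z)) (n
 0 (n 0xb8108208208208208207e181f85f82189e8607e08217df8607e08207e186086085f8207e08208600041 z z)
 z)))) (n 0 (n 0 z (n 0 z (n 0 z (n 0 z z)))) (n 0 (n 0 z (n 0 z (n 0 z (n 0 z z)))) (n 0 (n 0
 (n 5376075 z (n 5376075 z z)) (n 0 (n 5376075 z (n 5376075 z z)) (n 0 z (n 0 (n 5376075 z z)
 z)))) (n 0 (n 0 (n 8656427 z z) (n 0 (n 8868107 z z) (n 0 z (n 0 z z)))) (n 0 (n 0 (n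
 0x1387685c85fa1e7a48617a28217e27638d465c7e462969e8e071cad69a17e98e1a61717861a5d6680041 z z) (n
 0 (n 0x1387685c85fa1e7a48617a28217e27638d465c7e462969e8e071cad69a17e98e1a61717861a5d6680041 z
 z) (n 0 z (n 0 z z)))) (n 0 (n 0 (n
 0xb8728208208208208207e181f85f82189e8607e08217df8607e08207e186086085f8207e08208600041 z (n
 0x1386585c85fa1e7a48617a28217e27638d465c7e462969e8e071cad69a17e98e1a61717861a5d6680041 z z)) (n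
 0 (n 0x1386585c85fa1e7a48617a28217e27638d465c7e462969e8e071cad69a17e98e1a61717861a5d6680041 z
 (n 0x1386585c85fa1e7a48617a28217e27638d465c7e462969e8e071cad69a17e98e1a61717861a5d6680041 z z))
 (n 0 z (n 0 z z)))) (n 0 (n 0 z (n 0 z (n 0 z (n 0 z z)))) (n 0 (n 0 (n
 0xb8728208208218208207e181f86082189e86081f8217df8607e08207e086185f85f8207e082081f0041 z (n
 0x2b8657dc8da7ea8229216a7797b5366455caa77586e37519a172d9a36dfbe98193d97248149d5c580041 z z)) (n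
 0 (n 0x1387585c85fa1e7a48617a28217e27638d465c7e462969e8e071cad69a17e98e1a61717861a5d6680041 z
 (n 0x2b8657dc8da7ea8229216a7797b5366455caa77586e37519a172d9a36dfbe98193d97248149d5c580041 z z))
 (n 0 z (n 0 (n
 0x2b8657dc8da7ea8229216a7797b5366455caa77586e37519a172d9a36dfbe98193d97248149d5c580041 z z)
 z)))) (n 0 (n 0 (n
 0xb8728208208208208207e181f85f82189e8607e08217df8607e08207e186086085f8207e08208600041 z (n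
 0xd086ea0c0389767c8797667490788381807f8a669582838d7c55886ea2699277947f618c68986a85836697847da4837479918f826c6ca30809
 z z)) (n 0 (n
 0x2b8757dc8da7ea8229216a7797b5366455caa77586e37519a172d9a36dfbe98193d97248149d5c580041 z (n
 0xd086ea0c0389767c8797667490788381807f8a669582838d7c55886ea2699277947f618c68986a85836697847da4837479918f826c6ca30809
 z z)) (n 0 z (n 0 z z)))) (n 0 (n 0 z (n 0 z (n 0 z (n 0 z z)))) (n 0 (n 0 (n 8860171 z (n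
 8860171 z z)) (n 0 (n
 0xb8708208208208208207e181f85f82189e8607e08217df8607e08207e186086085f8207e08208600041 z (n
 0x2b8627dc8da7ea8229216a7797b5366455caa77586e37519a172d9a36dfbe98193d97248149d5c580041 z z)) (n
 0 z (n 0 z z)))) (n 0 (n 0 z (n 0 z (n 0 z (n 0 z z)))) (n 0 (n 0 z (n 0 z (n 0 z (n 0 z z))))
 (n 0 (n 0 (n 8589395 z z) (n 0 (n 8589395 z z) (n 0 z (n 0 z z)))) (n 0 (n 0 z (n 0 z (n 0 z (n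
 0 z z)))) (n 0 (n 0 z (n 0 z (n 0 z (n 0 (n
 0x2b8207dc8da7ea8229216a7797b5366455caa77586e37519a172d9a36dfbe98193d97248149d5c580041 z (n
 0x2b8207dc8da7ea8229216a7797b5366455caa77586e37519a172d9a36dfbe98193d97248149d5c580041 z z))
 z)))) (n 0 (n 0 z (n 0 z (n 0 z (n 0 z z)))) (n 0 (n 0 z (n 0 z (n 0 (n
 0x2b8207dc8da7ea8229216a7797b5366455caa77586e37519a172d9a36dfbe98193d97248149d5c580041 z z) (n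
 0 (n 0x238207dd89c7e88228e17267d9a956e361d9e679a72175496072b9636dfb2881a49a723816997b9a0041 z
 (n 0x2b8207dc8da7ea8229216a7797b5366455caa77586e37519a172d9a36dfbe98193d97248149d5c580041 z z))
 z)))) (n 0 (n 0 (n 8589395 z z) (n 0 (n 8589395 z z) (n 0 z (n 0 z z)))) (n 0 (n 0 (n
 0x387282082082082082082081f86082185f8608208217df8607e08207e082185f85f82082082185f0041 z z) (n 0
 (n 0xb8758208208608208207e181f82082185f8a081f8217e08607e081f82086086081f8207e082085f0041 z z)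
 (n 0 (n 8652571 z z) (n 0 z z)))) (n 0 (n 0 (n
 0xb8728208208218208207e181f86082189e86081f8217df8607e08207e086185f85f8207e082081f0041 z z) (n 0
 (n 0x2b8217dc8da7ea8229216a7797b5366455caa77586e37519a172d9a36dfbe98193d97248149d5c580041 z z)
 (n 0 z (n 0 z z)))) (n 0 (n 0 z (n 0 z (n 0 z (n 0 z z)))) (n 0 (n 0 z (n 0 z (n 0 z (n 0 z
 z)))) (n 0 (n 0 (n 8791899 z (n
 0x2b8217dc8da7ea8229216a7797b5366455caa77586e37519a172d9a36dfbe98193d97248149d5c580041 z z)) (n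
 0 (n 0xb8718208208208208207e181f85f82189e8607e08217df8607e08207e186086085f8207e08208600041 z (n
 0x2b8217dc8da7ea8229216a7797b5366455caa77586e37519a172d9a36dfbe98193d97248149d5c580041 z z)) (n
 0 (n 0xb8718208208218208207e181f86082185f86081f8217df8607e082082086185f81f8207e082081f0041 z (n
 8652571 z z)) (n 0 (n
 0xb8718208208218208207e181f86082189e86081f8217df8607e08207e086185f85f8207e082081f0041 z z)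
 z)))) (n 0 (n 0 (n
 0x1387685c85fa1e7a48617a28217e27638d465c7e462969e8e071cad69a17e98e1a61717861a5d6680041 z (n
 8791899 z z)) (n 0 (n
 0xb8718208208218208207e181f86082189e86081f8217df8607e08207e086185f85f8207e082081f0041 z (n
 0xb8718208208208208207e181f85f82189e8607e08217df8607e08207e186086085f8207e08208600041 z z)) (n
 0 z (n 0 z z)))) (n 0 (n 0 (n 8589395 z (n 8589395 z z)) (n 0 (n 8589395 z (n 8589395 z z)) (n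
 0 z (n 0 z z)))) (n 0 (n 0 z (n 0 z (n 0 z (n 0 z z)))) (n 0 (n 0 (n
 0xb8708208208208208207e181f85f82189e8607e08217df8607e08207e186086085f8207e08208600041 z (n
 0xb8658208217a28207e082082186082079f86281f7df81f82182286082082281f7de86289f7de91f0041 z z)) (n
 0 (n 8868107 z (n 8868107 z z)) (n 0 z (n 0 z z)))) (n 0 (n 0 z (n 0 z (n 0 (n 8864611 z (n
 8864611 z z)) (n 0 z z)))) (n 0 (n 0 (n 8589395 z (n 8589395 z z)) (n 0 (n 8589395 z (n 8589395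
 z z)) (n 0 z (n 0 z z)))) z))))))))))))))))))))))))))))))))))))))))))))))))))) (n 299 (n 0 (n 0
 z (n 0 z (n 0 z (n 0 z z)))) (n 0 (n 0 z (n 0 z (n 0 z (n 0 z z)))) (n 0 (n 0 z (n 0 z (n 0 z
 (n 0 z z)))) (n 0 (n 0 z (n 0 z (n 0 z (n 0 z z)))) (n 0 (n 0 (n
 0x30c8ec860782082082086082082082082082082082082182081f8208208208208208208208208208208200801 z
 z) (n 0 (n
 0x4b8718a7d778e8c7c6e866f88779877826f86868597776f766592638f6d7b8d946a55a66d998271959c7c9e7777717e8780946e980049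
 z z) (n 0 z (n 0 z z)))) (n 0 (n 0 z (n 0 z (n 0 z (n 0 z z)))) (n 0 (n 0 z (n 0 z (n 0 z (n 0
 z z)))) (n 0 (n 0 z (n 0 z (n 0 z (n 0 z z)))) (n 0 (n 0 z (n 0 z (n 0 z (n 0 z z)))) (n 0 (n 0
 z (n 0 z (n 0 z (n 0 z z)))) (n 0 (n 0 z (n 0 z (n 0 z (n 0 z z)))) (n 0 (n 0 z (n 0 z (n 0 z
 (n 0 (n 0x387382082082082082082081f86082185f8608208217df8607e08207e082185f85f82082082185f0041 z
 (n 0x2b8717dc8da7ea8229216a7797b5366455caa77586e37519a172d9a36dfbe98193d97248149d5c580041 z z))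
 z)))) (n 0 (n 0 z (n 0 z (n 0 z (n 0 z z)))) (n 0 (n 0 (n
 0xb8728208208218208207e181f86082189e86081f8217df8607e08207e086185f85f8207e082081f0041 z z) (n 0
 (n 0xb8768208208218208207e181f86082189e86081f8217df8607e08207e086185f85f8207e082081f0041 z z)
 (n 0 (n 8787787 z z) (n 0 z z)))) (n 0 (n 0 z (n 0 z (n 0 z (n 0 z z)))) (n 0 (n 0 z (n 0 z (n
 0 z (n 0 (n 4331611 z (n 8525643 z z)) z)))) (n 0 (n 0 z (n 0 z (n 0 (n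
 0x1387485c85fa1e7a48617a28217e27638d465c7e462969e8e071cad69a17e98e1a61717861a5d6680041 z (n
 8652571 z z)) (n 0 (n
 0xb8738208208208208207e181f86082185f86081f8617e08607e082082082089f8208207e08207e00041 z (n
 0x4b8738a7d778e8c7c6e866f88779877826f86868597776f766592638f6d7b8d946a55a66d998271959c7c9e7777717e8780946e980049
 z z)) z)))) z))))))))))))))))) (n 251 (n 0 (n 0 z (n 0 z (n 0 z (n 0 z z)))) (n 0 (n 0 z (n 0 z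
 (n 0 z (n 0 z z)))) (n 0 (n 0 z (n 0 z (n 0 z (n 0 z z)))) (n 0 (n 0 z (n 0 z (n 0 z (n 0 z
 z)))) (n 0 (n 0 z (n 0 z (n 0 z (n 0 z z)))) (n 0 (n 0 z (n 0 z (n 0 z (n 0 z z)))) (n 0 (n 0 z
 (n 0 z (n 0 z (n 0 (n 8725259 z z) z)))) (n 0 (n 0 z (n 0 z (n 0 z (n 0 (n 8725259 z (n 8725259
 z z)) z)))) (n 0 (n 0 z (n 0 z (n 0 z (n 0 z z)))) (n 0 (n 0 z (n 0 z (n 0 z (n 0 (n 8656427 z
 (n 8656427 z z)) z)))) (n 0 (n 0 z (n 0 z (n 0 z (n 0 z z)))) (n 0 (n 0 (n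
 0x387282082082082082082081f86082185f8608208217df8607e08207e082185f85f82082082185f0041 z z) (n 0
 (n 0xb8708208208208208207e181f85f82189e8607e08217df8607e08207e186086085f8207e08208600041 z z)
 (n 0 (n 8787787 z z) (n 0 z z)))) (n 0 (n 0 (n 4327515 z z) (n 0 (n 4327515 z z) (n 0 (n
 8787787 z z) (n 0 z z)))) z))))))))))))) (n 137 (n 0 (n 0 z (n 0 z (n 0 z (n 0 (n 8725259 z z)
 z)))) (n 0 (n 0 z (n 0 z (n 0 z (n 0 (n 8725259 z (n 8725259 z z)) z)))) (n 0 (n 0 z (n 0 z (n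
 0 z (n 0 (n 8873219 z (n 8873219 z z)) z)))) (n 0 (n 0 z (n 0 z (n 0 z (n 0 z z)))) (n 0 (n 0 z
 (n 0 z (n 0 z (n 0 z z)))) (n 0 (n 0 z (n 0 z (n 0 z (n 0 z z)))) (n 0 (n 0 z (n 0 z (n 0 z (n
 0 z z)))) (n 0 (n 0 z (n 0 z (n 0 z (n 0 z z)))) (n 0 (n 0 z (n 0 z (n 0 z (n 0 z z)))) (n 0 (n
 0 z (n 0 z (n 0 z (n 0 z z)))) (n 0 (n 0 z (n 0 z (n 0 z (n 0 z z)))) (n 0 (n 0 z (n 0 z (n 0 z
 (n 0 z z)))) (n 0 (n 0 z (n 0 z (n 0 z (n 0 z z)))) (n 0 (n 0 z (n 0 z (n 0 z (n 0 z z)))) (n 0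
 (n 0 z (n 0 z (n 0 z (n 0 z z)))) (n 0 (n 0 z (n 0 z (n 0 z (n 0 z z)))) (n 0 (n 0 (n 8794691 z
 z) (n 0 (n 8794691 z z) (n 0 z (n 0 z z)))) (n 0 (n 0 z (n 0 z (n 0 z (n 0 (n 8873219 z (n
 8873219 z z)) z)))) (n 0 (n 0 z (n 0 z (n 0 z (n 0 z z)))) (n 0 (n 0 z (n 0 z (n 0 z (n 0 (n
 0x63840927f6e878676658a79898192767d6a918c789275638267a06a9e6e91886b8d4baf679d7c8c8d7d80a485786f6782807074910049
 z (n 0xb8748208208218208207e181f86082189e86081f8217df8607e08207e086185f85f8207e082081f0041 z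
 z)) z)))) z)))))))))))))))))))) (n 133 (n 0 (n 0 z (n 0 z (n 0 z (n 0 z z)))) (n 0 (n 0 z (n 0
 z (n 0 z (n 0 z z)))) (n 0 (n 0 z (n 0 z (n 0 z (n 0 z z)))) (n 0 (n 0 z (n 0 z (n 0 z (n 0 z
 z)))) (n 0 (n 0 z (n 0 z (n 0 z (n 0 z z)))) (n 0 (n 0 z (n 0 z (n 0 z (n 0 z z)))) (n 0 (n 0 z
 (n 0 z (n 0 z (n 0 z z)))) (n 0 (n 0 z (n 0 z (n 0 z (n 0 z z)))) (n 0 (n 0 z (n 0 z (n 0 z (n
 0 z z)))) (n 0 (n 0 z (n 0 z (n 0 z (n 0 (n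
 0x4b8608a7d778e8c7c6e866f88779877826f86868597776f766592638f6d7b8d946a55a66d998271959c7c9e7777717e8780946e980049
 z (n 0x2b8717dc8da7ea8229216a7797b5366455caa77586e37519a172d9a36dfbe98193d97248149d5c580041 z
 z)) z)))) (n 0 (n 0 z (n 0 z (n 0 z (n 0 z z)))) (n 0 (n 0 z (n 0 z (n 0 z (n 0 z z))))
 z)))))))))))) (n 1 (n 0 (n 0 z (n 0 z (n 0 z (n 0 z z)))) (n 0 (n 0 z (n 0 z (n 0 z (n 0 z
 z)))) (n 0 (n 0 z (n 0 z (n 0 z (n 0 z z)))) (n 0 (n 0 z (n 0 z (n 0 z (n 0 z z)))) (n 0 (n 0 z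
 (n 0 z (n 0 z (n 0 z z)))) (n 0 (n 0 z (n 0 z (n 0 z (n 0 z z)))) (n 0 (n 0 z (n 0 z (n 0 z (n
 0 z z)))) (n 0 (n 0 z (n 0 z (n 0 z (n 0 z z)))) (n 0 (n 0 (n 8656427 z (n 8656427 z z)) (n 0
 (n 8656427 z (n 8656427 z z)) (n 0 z (n 0 z z)))) (n 0 (n 0 (n 7546987 z (n
 0x2b8207dc8da7ea8229216a7797b5366455caa77586e37519a172d9a36dfbe98193d97248149d5c580041 z z)) (n
 0 (n 8868107 z (n 8868107 z z)) (n 0 z (n 0 (n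
 0xb8718208208218208207e181f86082189e86081f8217df8607e08207e086185f85f8207e082081f0041 z z)
 z)))) (n 0 (n 0 z (n 0 z (n 0 (n 8725259 z (n 8725259 z z)) (n 0 z z)))) (n 0 (n 0 z (n 0 z (n
 0 (n 8725259 z (n 7540867 z z)) (n 0 z z)))) (n 0 (n 0 z (n 0 z (n 0 z (n 0 z z)))) (n 0 (n 0 z
 (n 0 z (n 0 z (n 0 z z)))) (n 0 (n 0 z (n 0 z (n 0 z (n 0 z z)))) (n 0 (n 0 z (n 0 z (n 0 z (n
 0 z z)))) (n 0 (n 0 z (n 0 z (n 0 z (n 0 z z)))) (n 0 (n 0 z (n 0 z (n 0 (n 8864611 z (n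
 8864611 z z)) (n 0 z z)))) (n 0 (n 0 (n 8651563 z (n 8651563 z z)) (n 0 (n 8651563 z (n 8651563
 z z)) (n 0 z (n 0 (n 8873219 z z) z)))) (n 0 (n 0 z (n 0 z (n 0 z (n 0 (n 8725259 z (n 8725259
 z z)) z)))) (n 0 (n 0 (n
 0xb8708208208218208207e181f86082189e86081f8217df8607e08207e086185f85f8207e082081f0041 z z) (n 0
 (n 0xb8708208208608208207e181f86082185f86081f8217e08607e081f7e086085f81f8608208208200041 z z)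
 (n 0 z (n 0 (n
 0x387382082082082082082081f86082185f8608208217df8607e08207e082185f85f82082082185f0041 z (n
 0x2b8717dc8da7ea8229216a7797b5366455caa77586e37519a172d9a36dfbe98193d97248149d5c580041 z z))
 z)))) (n 0 (n 0 z (n 0 z (n 0 z (n 0 z z)))) (n 0 (n 0 z (n 0 z (n 0 z (n 0 z z)))) (n 0 (n 0 z
 (n 0 z (n 0 z (n 0 z z)))) (n 0 (n 0 z (n 0 z (n 0 z (n 0 z z)))) (n 0 (n 0 (n
 0xb8708208208208208207e181f85f82189e8607e08217df8607e08207e186086085f8207e08208600041 z z) (n 0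
 (n 0xb8708208208208208207e181f85f82189e8607e08217df8607e08207e186086085f8207e08208600041 z z)
 (n 0 z (n 0 z z)))) (n 0 (n 0 (n 8656427 z (n 8656427 z z)) (n 0 (n 8868107 z (n 8868107 z z))
 (n 0 z (n 0 z z)))) (n 0 (n 0 z (n 0 z (n 0 (n 8651563 z (n 8651563 z z)) (n 0 z z))))
 z)))))))))))))))))))))))))))) (n 351 (n 0 (n 0 z (n 0 z (n 0 z (n 0 z z)))) (n 0 (n 0 z (n 0 z
 (n 0 z (n 0 z z)))) (n 0 (n 0 z (n 0 z (n 0 z (n 0 z z)))) (n 0 (n 0 z (n 0 z (n 0 z (n 0 z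
 z)))) (n 0 (n 0 z (n 0 z (n 0 z (n 0 z z)))) (n 0 (n 0 z (n 0 z (n 0 z (n 0 z z)))) (n 0 (n 0 z
 (n 0 z (n 0 z (n 0 z z)))) (n 0 (n 0 z (n 0 z (n 0 z (n 0 z z)))) (n 0 (n 0 z (n 0 z (n 0 z (n
 0 (n 0x1387485c85fa1e7a48617a28217e27638d465c7e462969e8e071cad69a17e98e1a61717861a5d6680041 z
 (n
 0x63821927f6e878676658a79898192767d6a918c789275638267a06a9e6e91886b8d4baf679d7c8c8d7d80a485786f6782807074910049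
 z z)) z)))) (n 0 (n 0 z (n 0 z (n 0 (n
 0x2b8717dc8da7ea8229216a7797b5366455caa77586e37519a172d9a36dfbe98193d97248149d5c580041 z (n
 7684483 z z)) (n 0 (n
 0xb8718208208218208207e181f86082189e86081f8217df8607e08207e086185f85f8207e082081f0041 z z)
 z)))) z)))))))))) (n 339 (n 0 (n 0 z (n 0 z (n 0 z (n 0 z z)))) (n 0 (n 0 z (n 0 z (n 0 z (n 0
 z z)))) (n 0 (n 0 z (n 0 z (n 0 z (n 0 z z)))) (n 0 (n 0 z (n 0 z (n 0 z (n 0 z z)))) z)))) (n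
 135 (n 0 (n 0 z (n 0 z (n 0 z (n 0 z z)))) (n 0 (n 0 z (n 0 z (n 0 z (n 0 z z)))) (n 0 (n 0 z
 (n 0 z (n 0 z (n 0 z z)))) (n 0 (n 0 z (n 0 z (n 0 z (n 0 z z)))) (n 0 (n 0 z (n 0 z (n 0 z (n
 0 z z)))) (n 0 (n 0 z (n 0 z (n 0 z (n 0 (n
 0xb8718208208618208207e181f86082189e86081f8217df8607e08207e082189f86086082082081f0041 z z)
 z)))) (n 0 (n 0 z (n 0 z (n 0 (n
 0x2b8717dc8da7ea8229216a7797b5366455caa77586e37519a172d9a36dfbe98193d97248149d5c580041 z (n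
 7684483 z z)) (n 0 z z)))) (n 0 (n 0 z (n 0 z (n 0 z (n 0 z z)))) z)))))))) (n 3 (n 0 (n 0 z (n
 0 z (n 0 z (n 0 z z)))) (n 0 (n 0 z (n 0 z (n 0 z (n 0 z z)))) (n 0 (n 0 z (n 0 z (n 0 z (n 0 z
 z)))) (n 0 (n 0 z (n 0 z (n 0 z (n 0 z z)))) (n 0 (n 0 z (n 0 z (n 0 z (n 0 z z)))) (n 0 (n 0 z
 (n 0 z (n 0 z (n 0 z z)))) (n 0 (n 0 z (n 0 z (n 0 z (n 0 z z)))) (n 0 (n 0 z (n 0 z (n 0 z (n
 0 z z)))) z)))))))) (n 1 (n 0 (n 0 z (n 0 z (n 0 z (n 0 (n 8873219 z z) z)))) (n 0 (n 0 z (n 0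
 z (n 0 z (n 0 (n 8873219 z (n 8873219 z z)) z)))) (n 0 (n 0 z (n 0 z (n 0 z (n 0 z z)))) (n 0
 (n 0 z (n 0 z (n 0 z (n 0 z z)))) (n 0 (n 0 z (n 0 z (n 0 (n
 0x387082082082082082082081f86082185f8608208217df8607e08207e082185f85f82082082185f0041 z (n
 0xb8708208208208208207e181f85f82189e8607e08217df8607e08207e186086085f8207e08208600041 z z)) (n
 0 (n 0x1382085c85fa1e7a48617a28217e27638d465c7e462969e8e071cad69a17e98e1a61717861a5d6680041 z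
 (n 0x1382085c85fa1e7a48617a28217e27638d465c7e462969e8e071cad69a17e98e1a61717861a5d6680041 z z))
 z)))) (n 0 (n 0 z (n 0 z (n 0 (n
 0x2b8207dc8da7ea8229216a7797b5366455caa77586e37519a172d9a36dfbe98193d97248149d5c580041 z z) (n
 0 z z)))) (n 0 (n 0 z (n 0 z (n 0 (n
 0xb8708208208218208207e181f86082189e86081f8217df8607e08207e086185f85f8207e082081f0041 z (n
 7546987 z z)) (n 0 (n
 0x1387185c85fa1e7a48617a28217e27638d465c7e462969e8e071cad69a17e98e1a61717861a5d6680041 z (n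
 7546987 z z)) z)))) (n 0 (n 0 z (n 0 z (n 0 z (n 0 z z)))) (n 0 (n 0 z (n 0 z (n 0 z (n 0 z
 z)))) (n 0 (n 0 (n
 0xb8728208208208208207e181f85f82189e8607e08217df8607e08207e186086085f8207e08208600041 z z) (n 0
 (n 0x1387585c85fa1e7a48617a28217e27638d465c7e462969e8e071cad69a17e98e1a61717861a5d6680041 z z)
 (n 0 z (n 0 z z)))) (n 0 (n 0 z (n 0 z (n 0 z (n 0 z z)))) (n 0 (n 0 z (n 0 z (n 0 z (n 0 z
 z)))) (n 0 (n 0 z (n 0 z (n 0 z (n 0 z z)))) (n 0 (n 0 z (n 0 z (n 0 z (n 0 z z)))) (n 0 (n 0 z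
 (n 0 z (n 0 z (n 0 z z)))) (n 0 (n 0 z (n 0 z (n 0 z (n 0 z z)))) (n 0 (n 0 z (n 0 z (n 0 z (n
 0 z z)))) (n 0 (n 0 (n
 0x2b8737dc8da7ea8229216a7797b5366455caa77586e37519a172d9a36dfbe98193d97248149d5c580041 z z) (n
 0 (n 0x2b8737dc8da7ea8229216a7797b5366455caa77586e37519a172d9a36dfbe98193d97248149d5c580041 z
 z) (n 0 z (n 0 z z)))) (n 0 (n 0 z (n 0 z (n 0 z (n 0 (n
 0x387382082082082082082081f86082185f8608208217df8607e08207e082185f85f82082082185f0041 z (n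
 0x4b8528a7d778e8c7c6e866f88779877826f86868597776f766592638f6d7b8d946a55a66d998271959c7c9e7777717e8780946e980049
 z z)) z)))) (n 0 (n 0 z (n 0 z (n 0 z (n 0 z z)))) (n 0 (n 0 (n 8791899 z z) (n 0 (n
 0x2b8737dc8da7ea8229216a7797b5366455caa77586e37519a172d9a36dfbe98193d97248149d5c580041 z z) (n
 0 z (n 0 z z)))) (n 0 (n 0 (n
 0x2b8757dc8da7ea8229216a7797b5366455caa77586e37519a172d9a36dfbe98193d97248149d5c580041 z (n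
 0x4b8108a7d778e8c7c6e866f88779877826f86868597776f766592638f6d7b8d946a55a66d998271959c7c9e7777717e8780946e980049
 z z)) (n 0 (n
 0xb8718208208208208207e181f85f82189e8607e08217df8607e08207e186086085f8207e08208600041 z (n
 0x4b8108a7d778e8c7c6e866f88779877826f86868597776f766592638f6d7b8d946a55a66d998271959c7c9e7777717e8780946e980049
 z z)) (n 0 z (n 0 z z)))) (n 0 (n 0 z (n 0 z (n 0 z (n 0 z z)))) (n 0 (n 0 (n 5376075 z z) (n 0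
 (n 5376075 z z) (n 0 z (n 0 z z)))) (n 0 (n 0 z (n 0 z (n 0 z (n 0 z z)))) (n 0 (n 0 z (n 0 z
 (n 0 (n 8652571 z (n
 0x1383085c85fa1e7a48617a28217e27638d465c7e462969e8e071cad69a17e98e1a61717861a5d6680041 z z)) (n
 0 (n 0x1383085c85fa1e7a48617a28217e27638d465c7e462969e8e071cad69a17e98e1a61717861a5d6680041 z
 (n 0xb8718208208218208207e181f86082189e85f81f8217df8607e082082086185f81f82082082085f0041 z z))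
 z)))) (n 0 (n 0 z (n 0 z (n 0 (n 5376075 z (n 5376075 z z)) (n 0 (n 5376075 z (n 5376075 z z))
 z)))) (n 0 (n 0 (n 7407723 z (n 7678027 z z)) (n 0 (n 7407723 z (n 7678027 z z)) (n 0 z (n 0 (n
 8873219 z z) z)))) z)))))))))))))))))))))))))))) (n 0 (n 0 (n 0 z (n 0 z (n 0 z (n 0 z z)))) (n
 0 (n 0 z (n 0 z (n 0 z (n 0 z z)))) (n 0 (n 0 z (n 0 z (n 0 z (n 0 z z)))) (n 0 (n 0 z (n 0 z
 (n 0 z (n 0 z z)))) (n 0 (n 0 z (n 0 z (n 0 z (n 0 (n 8725259 z z) z)))) (n 0 (n 0 z (n 0 z (n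
 0 z (n 0 z z)))) (n 0 (n 0 z (n 0 z (n 0 z (n 0 z z)))) (n 0 (n 0 z (n 0 z (n 0 z (n 0 z z))))
 (n 0 (n 0 z (n 0 z (n 0 z (n 0 z z)))) (n 0 (n 0 z (n 0 z (n 0 z (n 0 z z)))) (n 0 (n 0 z (n 0
 z (n 0 z (n 0 z z)))) (n 0 (n 0 z (n 0 z (n 0 z (n 0 z z)))) z))))))))))))
 z))))))))))))))))))))) z)))) z) z)))) z)))))))), by decide +kernel⟩
theorem i10853 : ∃ t, chkR KT RW t 10853 10861 = true := ⟨(n
 0x5a9ca2c2d515db2e10b51888b9a82d36c22deb0349b80b5ac2c0 (n 0 (n 153 (n 6619947 z (n 6554395 z (n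
 6554395 z (n 6496339 z (n 6496339 z (n 6496339 z (n 3282443 z (n 0 z (n 6554395 z (n 0 z (n 2 z
 z))))))))))) (n 57 (n 6496515 z (n 0 z (n 6496515 z (n 0 z (n 0 z (n 0 z (n 0 z z))))))) (n 9
 (n 10 z (n 0 z (n 6496515 z (n 0 z (n 6496339 z (n 0 z (n 18 z z))))))) (n 123 (n 26 z (n
 6496515 z (n 0 z (n 0 z (n 6496339 z (n 0 z (n 0 z (n 34 z z)))))))) (n 1 (n 6554395 z (n 42 z
 (n 50 z z))) (n 0 (n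
 0x1b6107e08a281f86081f86282182082181f7df8208218207a07e08a07df8608608208208208208600041 z (n
 0x8ca68624037a182081f81f8217e381f82086185e81e81f86181f79e85f8a085f89f7e17e28617e181f8200801 z
 (n 0x8ca68624037a182081f81f8217e381f82086185e81e81f86181f79e85f8a085f89f7e17e28617e181f8200801
 z (n 0x2b6317dc8e476186189f8e28227607e07df8217de7e57a272282292179e86085f79f79f81e7df8210041 z
 (n 0 z (n 0 z (n 0 z (n 0 z (n 0 z (n 0 z (n 4331099 z (n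
 0x2c86c8040781f81f8608208207e18608208208218208208208208608217e085f8208208208208208208200801 z
 (n 0 z (n 0 z (n 0 z (n 6623755 z (n 6619947 z (n 0 z (n 0 z (n 0 z (n 0 z (n 0 z (n 6623755 z
 (n 0x1461085f82082181f8208217607de8e189e81f7df8218e06de8a089e8a28607a28208607e181f7e00041 z (n
 0 z (n 0 z (n 0 z (n
 0x236107df8a27e086081f86382182082081f81f7e08618207a182089f7df82082082082181f8208200041 z (n 0 z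
 (n 0 z (n 0 z (n 0 z (n 0 z (n 0 z (n 6619947 z (n 58 z (n
 0x2c868624038208618207e082086082086085f7e07a08218208218218208227e07e085e86081f81f8208210801 z
 (n 66 z (n 74 z (n 0 z (n
 0x2c84c840077e08a17e18208207e081f86086086082082082082081f85f8217df82185f8208208208208200801 z
 (n 0 z (n 0 z (n 6619947 z (n 0 z (n 0 z (n 0 z (n
 0xc64c208030190d8c48061b20b20100c264343020180c84c842079217e381e7e08607e38258618df71e7e081e8246e08667a28247de82089d7a085f81d8227e12801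
 z (n
 0x363261040182c86c6420781f8638207df79f82289e89e7208627627e47a289e8a17e17237de6a189d8a38e08208647e11001
 z (n 0 z (n 0 z (n 0 z (n 0 z (n 0 z (n
 0x6ca68604037e08227a07a08607e081f8608608207a282082176182081e8217df81f8217e17e08617e08200801 z
 (n 0 z z)))))))))))))))))))))))))))))))))))))))))))))))))))))))) z)))))) (n 1 (n 0 (n 363 (n 0
 z (n 0 z (n 0 z (n 0 z (n 0 z (n 0 z (n 2 (n 0 z (n 1 z (n 2 (n 0 z (n 0 z (n 0 z (n 0 (n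
 8785955 z z) (n 0 (n 8785955 z z) (n 0 (n 8785955 z (n 8785955 z z)) z)))))) (n 1 z (n 2 (n 0 z
 (n 0 (n 8785955 z z) (n 0 z (n 0 z (n 0 (n 8785955 z z) (n 0 (n 8785955 z (n 8785955 z z))
 z)))))) (n 1 z (n 2 (n 0 z (n 0 z (n 0 z (n 0 z (n 0 z (n 0 (n 8785955 z z) z)))))) (n 2 (n 0 z
 (n 0 z (n 0 z (n 0 z (n 0 z (n 0 z z)))))) z)))))))) (n 0 z (n 0 z (n 0 z (n 0 z (n 0 z (n 0 z
 (n 0 z (n 0 z (n 0 z (n 0 z (n 0 z (n 0 z (n 0 z (n 0 z (n 0 z z)))))))))))))))))))))) (n 363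
 (n 0 z (n 0 z (n 0 z (n 0 z (n 0 z (n 0 z (n 0 z (n 0 z (n 0 z (n 0 z (n 0 z (n 0 z (n 0 z (n 0
 z (n 0 z (n 0 z (n 0 z (n 0 z (n 0 z (n 0 z (n 0 z (n 0 z z)))))))))))))))))))))) (n 535 (n 2
 (n 0 z (n 1 z (n 2 (n 0 z (n 0 (n 8785955 z z) (n 0 z (n 0 (n 8785955 z z) (n 0 z (n 0 (n
 8785955 z (n 8785955 z z)) z)))))) (n 2 (n 0 z (n 0 z (n 0 z (n 0 z (n 0 z (n 0 (n 2116 z z)
 z)))))) (n 2 (n 0 z (n 0 z (n 0 z (n 0 z (n 0 z (n 0 z z)))))) (n 2 (n 0 z (n 0 z (n 0 z (n 0 z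
 (n 0 z (n 0 z z)))))) z)))))) (n 0 z (n 0 z (n 0 z (n 0 z (n 0 z (n 0 z (n 0 z (n 0 z (n 0 z (n
 0 z (n 0 z (n 0 z (n 0 z z)))))))))))))) (n 535 (n 0 z (n 0 z (n 0 z (n 0 z (n 0 z (n 0 z (n 0
 z (n 0 z (n 0 z (n 0 z (n 0 z (n 0 z (n 0 z (n 0 z z)))))))))))))) (n 531 (n 0 z (n 0 z (n 2 (n
 0 z (n 2 (n 0 z (n 0 z (n 0 z (n 0 z (n 0 z (n 0 z z)))))) (n 2 (n 0 z (n 0 z (n 0 z (n 0 z (n
 0 z (n 0 z z)))))) (n 2 (n 0 z (n 0 z (n 0 z (n 0 z (n 0 z (n 0 z z)))))) z)))) (n 0 z (n 0 z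
 (n 0 z (n 0 z z))))))) (n 531 (n 0 z (n 0 z (n 0 z (n 0 z (n 0 z (n 0 z (n 0 z z))))))) (n 529
 (n 0 z (n 0 z (n 0 z (n 0 z (n 0 z (n 0 z (n 0 z (n 0 z z)))))))) (n 529 (n 0 z (n 0 z (n 0 z
 (n 0 z (n 0 z (n 0 z (n 0 z (n 0 z z)))))))) (n 529 (n 0 z (n 0 z (n 0 z (n 0 z (n 0 z (n 2 z
 (n 0 z (n 0 z z)))))))) z))))))))) (n 0 (n 0 z (n 295 (n 0 z (n 0 z (n 0 z (n 0 z (n 0 z (n 0 z
 (n 0 z (n 0 z (n 0 z (n 0 z z)))))))))) (n 295 (n 0 z (n 0 z (n 0 z (n 0 z (n 0 z (n 0 z (n 0 z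
 (n 0 z (n 2 (n 1 z (n 2 (n 0 z (n 0 (n 8851491 z z) (n 0 z (n 0 (n 8851491 z z) (n 0 z (n 0 (n
 8851491 z (n 8851491 z z)) z)))))) (n 2 (n 0 z (n 0 z (n 0 z (n 0 z (n 0 z (n 0 (n 1925 z z)
 z)))))) (n 2 (n 0 z (n 0 z (n 0 z (n 0 z (n 0 z (n 0 z z)))))) (n 2 (n 0 z (n 0 z (n 0 z (n 0 z
 (n 0 z (n 0 z z)))))) z))))) (n 0 z z)))))))))) (n 15 (n 0 z (n 0 z (n 0 z (n 0 z (n 0 z (n 0 z
 z)))))) (n 15 (n 0 z (n 0 z (n 0 z (n 0 z (n 2 (n 2 (n 0 z (n 0 z (n 0 z (n 0 z (n 0 z (n 0 z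
 z)))))) (n 2 (n 0 z (n 0 z (n 0 z (n 0 z (n 0 z (n 0 (n 8851491 z z) z)))))) (n 2 (n 0 z (n 0 z
 (n 0 z (n 0 z (n 0 z (n 0 z z)))))) z))) (n 0 z z)))))) (n 13 (n 0 z (n 0 z (n 0 z (n 0 z (n 0
 z (n 0 z (n 0 z (n 0 z (n 0 z (n 0 z (n 0 z (n 0 z (n 0 z (n 0 z (n 0 z (n 0 z (n 0 z (n 0 z (n
 0 z (n 0 z (n 0 z (n 0 z (n 0 z (n 0 z (n 0 z (n 0 z (n 0 z (n 0 z (n 0 z (n 0 z (n 0 z (n 0 z
 (n 0 z (n 0 z (n 2 (n 0 z (n 0 z z)) (n 0 z (n 0 z (n 0 z (n 0 z (n 0 z (n 0 z (n 0 z (n 0 z (n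
 0 z (n 0 z (n 0 z z)))))))))))))))))))))))))))))))))))))))))))))) (n 13 (n 0 z (n 0 z (n 0 z (n
 0 z (n 0 z (n 0 z (n 0 z (n 0 z (n 0 z (n 0 z (n 0 z (n 0 z (n 0 z (n 0 z (n 0 z (n 0 z (n 0 z
 (n 0 z (n 0 z (n 0 z (n 0 z (n 0 z (n 0 z (n 0 z (n 0 z (n 0 z (n 0 z (n 0 z (n 0 z (n 0 z (n 2
 (n 0 z z) (n 0 z (n 0 z (n 0 z (n 0 z (n 0 z (n 0 z (n 0 z (n 0 z (n 0 z (n 0 z (n 0 z (n 0 z
 (n 0 z (n 0 z (n 0 z z)))))))))))))))))))))))))))))))))))))))))))))) (n 13 (n 0 z (n 0 z (n 0 z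
 (n 0 z (n 0 z (n 0 z (n 0 z (n 0 z (n 0 z (n 0 z (n 0 z (n 0 z (n 0 z (n 0 z (n 0 z (n 0 z (n 0
 z (n 0 z (n 0 z (n 0 z (n 0 z (n 0 z (n 0 z (n 0 z (n 0 z (n 0 z (n 0 z (n 2 z (n 0 z (n 0 z (n
 0 z (n 0 z (n 0 z (n 0 z (n 0 z (n 0 z (n 0 z (n 0 z (n 0 z (n 0 z (n 0 z (n 0 z (n 0 z (n 0 z
 (n 0 z (n 0 z z)))))))))))))))))))))))))))))))))))))))))))))) z)))))))) (n 0 (n 267 (n 0 z (n 0
 z (n 0 z (n 2 (n 0 z (n 1 z (n 2 (n 0 (n 3213419 z z) (n 0 (n 3213419 z z) (n 0 z (n 0 z (n 0 z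
 (n 0 (n 3213419 z (n 8656651 z z)) z)))))) (n 2 (n 0 z (n 0 z (n 0 z (n 0 z (n 0 z (n 0 z
 z)))))) (n 2 (n 0 z (n 0 z (n 0 z (n 0 z (n 0 z (n 0 z z)))))) (n 2 (n 0 z (n 0 z (n 0 z (n 0 z
 (n 0 z (n 0 z z)))))) z)))))) (n 0 z (n 0 z (n 0 z (n 0 z (n 0 z z))))))))) (n 267 (n 0 z (n 0
 z (n 0 z (n 0 z (n 0 z (n 0 z (n 0 z (n 0 z (n 0 z z))))))))) (n 15 (n 0 z (n 2 (n 0 z (n 2 (n
 0 z (n 0 z (n 0 z (n 0 z (n 0 z (n 0 z z)))))) (n 2 (n 0 z (n 0 z (n 0 z (n 0 z (n 0 z (n 0 z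
 z)))))) (n 2 (n 0 z (n 0 z (n 0 z (n 0 z (n 0 z (n 0 z z)))))) z)))) (n 0 z (n 0 z (n 0 z (n 0
 z (n 0 z (n 0 z z)))))))) (n 15 (n 0 z (n 0 z (n 0 z (n 0 z (n 0 z (n 0 z (n 0 z (n 0 z
 z)))))))) (n 13 (n 0 z (n 0 z (n 0 z (n 0 z (n 0 z (n 0 z (n 0 z (n 0 z (n 0 z (n 0 z (n
 6562163 z (n 0 z (n 0 z (n 0 z z)))))))))))))) (n 13 (n 0 z (n 0 z (n 0 z (n 0 z (n 0 z (n 0 z
 (n 0 z (n 0 z (n 0 z (n 0 z (n 0 z (n 0 z (n 0 z (n 0 z z)))))))))))))) (n 13 (n 0 z (n 0 z (n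
 0 z (n 0 z (n 0 z (n 0 z (n 0 z (n 0 z (n 0 z (n 2 z (n 0 z (n 0 z (n 0 z (n 0 z
 z)))))))))))))) z))))))) (n 0 (n 0 z (n 291 (n 0 z (n 0 z (n 0 z (n 0 z (n 0 z (n 0 z (n 0 z (n
 0 z z)))))))) (n 291 (n 0 z (n 0 z (n 0 z (n 0 z (n 0 z (n 0 z (n 0 z (n 2 (n 2 (n 0 z (n 0 z
 (n 0 z (n 0 z (n 0 z (n 0 z z)))))) (n 2 (n 0 z (n 0 z (n 0 z (n 0 z (n 0 z (n 0 (n 8851491 z
 z) z)))))) (n 2 (n 0 z (n 0 z (n 0 z (n 0 z (n 0 z (n 0 z z)))))) z))) z)))))))) (n 289 (n 0 z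
 (n 0 z (n 0 z (n 0 z (n 0 z (n 0 z (n 0 z (n 0 z (n 0 z (n 0 z (n 0 z (n 0 z (n 0 z (n 0 z (n 0
 z (n 0 z (n 0 z (n 0 z (n 0 z (n 0 z (n 0 z (n 0 z (n 0 z (n 0 z (n 0 z (n 0 z (n 0 z (n 0 z (n
 0 z (n 0 z (n 0 z (n 0 z (n 0 z (n 0 z (n 0 z (n 0 z (n 0 z (n 0 z (n 0 z (n 0 z (n 0 z (n 0 z
 (n 0 z (n 0 z (n 0 z (n 0 z (n 0 z z))))))))))))))))))))))))))))))))))))))))))))))) (n 289 (n 0
 z (n 0 z (n 0 z (n 0 z (n 0 z (n 0 z (n 0 z (n 0 z (n 0 z (n 0 z (n 0 z (n 0 z (n 0 z (n 0 z (n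
 0 z (n 0 z (n 0 z (n 0 z (n 0 z (n 0 z (n 0 z (n 0 z (n 0 z (n 0 z (n 0 z (n 0 z (n 0 z (n 0 z
 (n 0 z (n 0 z (n 0 z (n 0 z (n 2 (n 0 z z) (n 0 z (n 0 z (n 0 z (n 0 z (n 0 z (n 0 z (n 0 z (n
 0 z (n 0 z (n 0 z (n 0 z (n 0 z (n 0 z (n 0 z z)))))))))))))))))))))))))))))))))))))))))))))))
 (n 289 (n 0 z (n 0 z (n 0 z (n 0 z (n 0 z (n 0 z (n 0 z (n 0 z (n 0 z (n 0 z (n 0 z (n 0 z (n 0
 z (n 0 z (n 0 z (n 0 z (n 0 z (n 0 z (n 0 z (n 0 z (n 0 z (n 0 z (n 0 z (n 0 z (n 0 z (n 0 z (n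
 2 z (n 0 z (n 0 z (n 0 z (n 0 z (n 0 z (n 0 z (n 0 z (n 0 z (n 0 z (n 0 z (n 0 z (n 0 z (n 0 z
 (n 0 z (n 0 z (n 0 z (n 0 z (n 0 z (n 0 z (n 0 z
 z))))))))))))))))))))))))))))))))))))))))))))))) z)))))) (n 0 (n 483 (n 0 z (n 2 (n 0 z (n 2 (n
 0 z (n 0 z (n 0 z (n 0 z (n 0 z (n 0 z z)))))) (n 2 (n 0 z (n 0 z (n 0 z (n 0 z (n 0 z (n 0 z
 z)))))) (n 2 (n 0 z (n 0 z (n 0 z (n 0 z (n 0 z (n 0 z z)))))) z)))) (n 0 z (n 0 z (n 0 z (n 0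
 z z)))))) (n 483 (n 0 z (n 0 z (n 0 z (n 0 z (n 0 z (n 0 z z)))))) (n 481 (n 0 z (n 0 z (n 0 z
 (n 0 z (n 0 z (n 0 z (n 0 z (n 0 z (n 0 z z))))))))) (n 481 (n 0 z (n 0 z (n 0 z (n 0 z (n 0 z
 (n 0 z (n 0 z (n 0 z (n 0 z z))))))))) (n 481 (n 0 z (n 0 z (n 0 z (n 0 z (n 0 z (n 0 z (n 2 z
 (n 0 z (n 0 z z))))))))) z))))) (n 0 (n 0 z (n 293 (n 0 z (n 0 z (n 0 z (n 0 z (n 0 z (n 0 z (n
 0 z (n 0 z (n 0 z (n 0 z (n 2 (n 0 z (n 0 z z)) (n 0 z (n 0 z (n 0 z (n 0 z (n 0 z (n 0 z (n 0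
 z (n 0 z (n 0 z (n 0 z (n 0 z (n 0 z (n 0 z (n 0 z (n 0 z (n 0 z (n 0 z (n 0 z (n 0 z (n 0 z (n
 0 z (n 0 z (n 0 z (n 0 z (n 0 z (n 0 z (n 0 z (n 0 z (n 0 z (n 0 z (n 0 z (n 0 z (n 0 z (n 0 z
 (n 0 z (n 0 z (n 0 z (n 0 z z))))))))))))))))))))))))))))))))))))))))))))))))) (n 293 (n 0 z (n
 0 z (n 0 z (n 0 z (n 0 z (n 0 z (n 0 z (n 0 z (n 0 z (n 0 z (n 0 z (n 0 z (n 2 (n 0 z z) (n 0 z
 (n 0 z (n 0 z (n 0 z (n 0 z (n 0 z (n 0 z (n 0 z (n 0 z (n 0 z (n 0 z (n 0 z (n 0 z (n 0 z (n 0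
 z (n 0 z (n 0 z (n 0 z (n 0 z (n 0 z (n 0 z (n 0 z (n 0 z (n 0 z (n 0 z (n 0 z (n 0 z (n 0 z (n
 0 z (n 0 z (n 0 z (n 0 z (n 0 z (n 0 z (n 0 z (n 0 z
 z))))))))))))))))))))))))))))))))))))))))))))))))) (n 293 (n 0 z (n 0 z (n 0 z (n 0 z (n 0 z (n
 0 z (n 0 z (n 0 z (n 0 z (n 0 z (n 0 z (n 0 z (n 0 z (n 0 z (n 0 z (n 0 z (n 0 z (n 0 z (n 0 z
 (n 2 z (n 0 z (n 0 z (n 0 z (n 0 z (n 0 z (n 0 z (n 0 z (n 0 z (n 0 z (n 0 z (n 0 z (n 0 z (n 0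
 z (n 0 z (n 0 z (n 0 z (n 0 z (n 0 z (n 0 z (n 0 z (n 0 z (n 0 z (n 0 z (n 0 z (n 0 z (n 0 z (n
 0 z (n 0 z (n 0 z z))))))))))))))))))))))))))))))))))))))))))))))))) z)))) (n 0 (n 1 (n 0 z (n
 0 z (n 0 z (n 0 z (n 0 z (n 0 z (n 0 z (n 0 z (n 0 z (n 0 z (n 0 z (n 0 z (n 0 z (n 0 z (n 0 z
 (n 0 z (n 0 z (n 0 z (n 0 z (n 0 z (n 0 z (n 0 z (n 0 z (n 6562163 z (n 0 z (n 0 z (n 0 z (n 0
 z (n 0 z (n 0 z (n 0 z (n 0 z (n 0 z (n 0 z (n 0 z (n 0 z (n 0 z (n 0 z (n 0 z (n 0 z (n 0 z (n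
 0 z (n 0 z (n 0 z (n 0 z (n 0 z (n 0 z (n 0 z (n 0 z
 z))))))))))))))))))))))))))))))))))))))))))))))))) (n 1 (n 0 z (n 0 z (n 0 z (n 0 z (n 0 z (n 0
 z (n 0 z (n 0 z (n 0 z (n 0 z (n 0 z (n 0 z (n 0 z (n 0 z (n 0 z (n 0 z (n 0 z (n 0 z (n 0 z (n
 0 z (n 0 z (n 0 z (n 0 z (n 0 z (n 0 z (n 0 z (n 0 z (n 0 z (n 0 z (n 0 z (n 0 z (n 0 z (n 0 z
 (n 0 z (n 0 z (n 0 z (n 0 z (n 0 z (n 0 z (n 0 z (n 0 z (n 0 z (n 0 z (n 0 z (n 0 z (n 0 z (n 0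
 z (n 0 z (n 0 z z))))))))))))))))))))))))))))))))))))))))))))))))) (n 1 (n 0 z (n 0 z (n 0 z (n
 0 z (n 0 z (n 0 z (n 2 z (n 0 z (n 0 z (n 0 z (n 0 z (n 0 z (n 0 z (n 0 z (n 0 z (n 0 z (n 0 z
 (n 0 z (n 0 z (n 0 z (n 0 z (n 0 z (n 0 z (n 0 z (n 0 z (n 0 z (n 0 z (n 0 z (n 0 z (n 0 z (n 0
 z (n 0 z (n 0 z (n 0 z (n 0 z (n 0 z (n 0 z (n 0 z (n 0 z (n 0 z (n 0 z (n 0 z (n 0 z (n 0 z (n
 0 z (n 0 z (n 0 z (n 0 z (n 0 z z))))))))))))))))))))))))))))))))))))))))))))))))) z))) (n 0 (n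
 0 z (n 0 z z)) (n 0 (n 0 z z) (n 0 z z)))))))))) (n 0 (n 1 (n 6554395 z (n 6554395 z (n 6554395
 z (n 6554395 z (n 6554395 z (n 6554395 z z)))))) (n 1 (n 1228 z (n 1228 z (n 1228 z (n 1228 z
 (n 1228 z (n 1228 z z)))))) (n 1 (n 1228 z (n 1228 z (n 1228 z (n 1228 z (n 460 z (n 1228 z
 z)))))) z))) (n 0 z z)))) (n 0x18eba8ac93603ae9a0d63986b9a22a6d1c2e531172748994c70c663a812b240
 (n 0x263ae (n 707 (n 2 z (n 3282443 z (n 0 z (n 10 z z)))) (n 715 (n 3278363 z (n 6427979 z (n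
 18 z z))) (n 706 (n 3212843 z (n 0 z (n 26 z (n 34 z (n 0 z (n 0 z (n 0 z (n 0 z (n 0 z (n
 6427979 z (n 0 z (n 42 z (n 0 z z))))))))))))) (n 3 (n 0 z (n 50 z (n 0 z (n 6636307 z (n
 6636307 z (n 58 z (n 66 z (n 0 z z)))))))) (n 1 (n 6636307 z (n 74 z (n 0 z (n 0 z (n 0 z (n 0
 z z)))))) (n 0 (n 6636307 z (n 0 z (n 0 z (n 0 z (n 82 z (n 90 z z)))))) z)))))) (n 715 (n 0 (n
 0 z (n 1431 (n 0 z (n 0 z (n 0 z (n 2 (n 2 (n 0 z (n 0 z (n 0 z (n 0 z (n 0 z (n 0 z z)))))) (n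
 2 (n 0 z (n 0 z (n 0 z (n 0 z (n 0 z (n 0 z z)))))) (n 2 (n 0 (n 8791899 z z) (n 0 (n 8861275 z
 (n 8659059 z z)) (n 0 z (n 0 z (n 0 z (n 0 (n 8525323 z z) z)))))) (n 2 (n 0 (n 44 z (n 44 z
 z)) (n 0 z (n 0 (n 8525323 z (n 8525323 z z)) (n 0 (n 44 z (n 7751771 z z)) (n 0 z (n 0 z
 z)))))) (n 2 (n 0 z (n 0 (n 8868899 z z) (n 0 z (n 0 z (n 0 z (n 0 z z)))))) (n 2 (n 0 z (n 0
 (n 8868899 z z) (n 0 z (n 0 z (n 0 z (n 0 z z)))))) (n 2 (n 0 z (n 0 z (n 0 z (n 0 z (n 0 z (n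
 0 z z)))))) (n 1 z (n 2 (n 0 z (n 0 (n 8868899 z z) (n 0 z (n 0 z (n 0 z (n 0 z z))))))
 z))))))))) z)))) (n 263 (n 0 z (n 0 z (n 0 z (n 0 z (n 0 z (n 0 z (n 0 z (n 0 z (n 0 z (n 0 z
 (n 0 z (n 0 z (n 0 z (n 0 z (n 0 z (n 0 z (n 2 (n 0 z (n 0 z (n 2 (n 0 (n 44 z (n 44 z z)) (n 0
 (n 44 z (n 44 z z)) (n 0 (n 8525323 z (n 8525323 z z)) (n 0 z (n 0 z (n 0 (n 44 z (n 44 z z))
 z)))))) (n 2 (n 0 z (n 0 z (n 0 z (n 0 z (n 0 z (n 0 z z)))))) (n 2 (n 0 z (n 0 z (n 0 z (n 0 z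
 (n 0 z (n 0 z z)))))) (n 2 (n 0 z (n 0 z (n 0 z (n 0 z (n 0 z (n 0 z z)))))) (n 1 z (n 2 (n 0 z
 (n 0 z (n 0 z (n 0 z (n 0 z (n 0 z z)))))) z)))))))) (n 0 z (n 0 z (n 0 z (n 0 z (n 0 z
 z)))))))))))))))))))))) (n 263 (n 0 z (n 0 z (n 0 z (n 0 z (n 0 z (n 0 z (n 0 z (n 0 z (n 0 z
 (n 0 z (n 0 z (n 0 z (n 0 z (n 0 z (n 0 z (n 0 z (n 0 z (n 0 z (n 2 (n 0 z (n 2 (n 0 (n 44 z (n
 44 z z)) (n 0 z (n 0 (n 8525323 z (n 8525323 z z)) (n 0 (n 44 z (n 7751771 z z)) (n 0 z (n 0 z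
 z)))))) (n 2 (n 0 z (n 0 z (n 0 z (n 0 z (n 0 z (n 0 z z)))))) (n 2 (n 0 z (n 0 z (n 0 z (n 0 z
 (n 0 z (n 0 z z)))))) (n 2 (n 0 z (n 0 z (n 0 z (n 0 z (n 0 z (n 0 z z)))))) (n 1 z (n 2 (n 0 z
 (n 0 z (n 0 z (n 0 z (n 0 z (n 0 z z)))))) z))))))) (n 0 z (n 0 z (n 0 z
 z)))))))))))))))))))))) (n 263 (n 0 z (n 0 z (n 0 z (n 0 z (n 0 z (n 0 z (n 0 z (n 0 z (n 0 z
 (n 0 z (n 0 z (n 0 z (n 0 z (n 0 z (n 0 z (n 0 z (n 0 z (n 0 z (n 0 z (n 0 z (n 0 z (n 0 z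
 z)))))))))))))))))))))) (n 11 (n 0 z (n 0 z (n 0 z (n 0 z (n 0 z (n 0 z (n 0 z (n 0 z z))))))))
 (n 11 (n 0 z (n 0 z (n 0 z (n 0 z (n 0 z (n 0 z (n 2 (n 0 z (n 2 (n 0 z (n 0 z (n 0 z (n 0 z (n
 0 z (n 0 z z)))))) (n 2 (n 0 z (n 0 z (n 0 z (n 0 z (n 0 z (n 0 z z)))))) (n 2 (n 0 z (n 0 z (n
 0 z (n 0 z (n 0 z (n 0 z z)))))) z)))) (n 0 z z)))))))) (n 11 (n 0 z (n 0 z (n 0 z (n 0 z (n 0
 z (n 2 (n 2 (n 0 z (n 0 z (n 0 z (n 0 z (n 0 z (n 0 z z)))))) (n 2 (n 0 z (n 0 z (n 0 z (n 0 z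
 (n 0 z (n 0 z z)))))) (n 2 (n 0 z (n 0 z (n 0 z (n 0 z (n 0 z (n 0 z z)))))) z))) (n 0 z (n 0 z
 z)))))))) (n 3 (n 0 z (n 0 z (n 0 z (n 2 (n 1 z (n 2 (n 0 z (n 0 z (n 0 z (n 0 z (n 0 z (n 0 z
 z)))))) z)) (n 0 z (n 0 z (n 0 z (n 0 z (n 0 z z))))))))) (n 1 (n 0 z (n 0 z (n 0 z (n 0 z (n 0
 z (n 0 z (n 0 z (n 0 z (n 0 z (n 0 z (n 0 z z))))))))))) (n 1 (n 0 z (n 0 z (n 0 z (n 0 z (n 0
 z (n 0 z (n 0 z (n 0 z (n 0 z (n 0 z (n 2 z z))))))))))) z))))))))))) (n 0 (n 767 (n 0 z (n 0 z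
 (n 0 z (n 0 z (n 0 z z))))) (n 1413 (n 2 (n 0 z (n 0 z (n 2 (n 0 z (n 0 z (n 0 z (n 0 z (n 0 z
 (n 0 z z)))))) (n 2 (n 0 z (n 0 z (n 0 z (n 0 z (n 0 z (n 0 z z)))))) (n 2 (n 0 z (n 0 z (n 0 z
 (n 0 z (n 0 z (n 0 z z)))))) (n 2 (n 0 z (n 0 z (n 0 z (n 0 z (n 0 z (n 0 z z)))))) (n 1 z (n 2
 (n 0 z (n 0 z (n 0 z (n 0 z (n 0 z (n 0 z z)))))) z)))))))) (n 0 z (n 0 z (n 0 z (n 0 z (n 0 z
 (n 0 z (n 0 z (n 0 z z))))))))) (n 1413 (n 0 z (n 0 z (n 0 z (n 0 z (n 0 z (n 0 z (n 0 z (n 0 z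
 (n 0 z z))))))))) (n 1413 (n 0 z (n 0 z (n 0 z (n 0 z (n 0 z (n 0 z (n 0 z (n 0 z (n 0 z
 z))))))))) (n 1405 (n 0 z (n 0 z (n 0 z (n 0 z (n 0 z (n 0 z z)))))) (n 1405 (n 0 z (n 0 z (n 0
 z (n 0 z (n 0 z (n 0 z z)))))) (n 1405 (n 0 z (n 0 z (n 0 z (n 0 z (n 0 z (n 0 z z)))))) (n 757
 (n 0 z (n 0 z (n 0 z (n 0 z (n 0 z (n 0 z z)))))) (n 725 (n 0 z (n 0 z (n 2 (n 0 z z) (n 0 z (n
 0 z (n 0 z z)))))) (n 725 (n 0 z (n 0 z (n 0 z (n 0 z (n 0 z (n 0 z z)))))) z)))))))))) (n 0 (n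
 813 (n 0 z (n 0 z (n 0 z (n 0 z (n 0 z (n 2 (n 0 z (n 0 z (n 2 (n 0 (n 4612 z (n 4612 z z)) (n
 0 z (n 0 (n 4612 z (n 8587115 z z)) (n 0 z (n 0 z (n 0 (n 8659043 z (n 8659043 z z)) z)))))) (n
 1 z (n 2 (n 0 z (n 0 (n 8803363 z z) (n 0 z (n 0 z (n 0 z (n 0 z z)))))) (n 2 (n 0 z (n 0 (n
 8803363 z z) (n 0 z (n 0 z (n 0 z (n 0 z z)))))) (n 1 z (n 1 z z)))))))) z)))))) (n 813 (n 0 z
 (n 0 z (n 0 z (n 0 z (n 0 z (n 0 z z)))))) (n 813 (n 0 z (n 0 z (n 0 z (n 0 z (n 0 z (n 0 z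
 z)))))) (n 1153 (n 0 z (n 0 z (n 0 z (n 0 z (n 0 z (n 0 z (n 0 z (n 0 z (n 0 z (n 0 z (n 0 z (n
 0 z (n 0 z (n 0 z (n 0 z (n 0 z (n 0 z (n 0 z (n 0 z (n 0 z (n 0 z (n 0 z (n 0 z (n 0 z (n 0 z
 (n 0 z (n 0 z (n 0 z (n 0 z (n 0 z (n 0 z z))))))))))))))))))))))))))))))) (n 1153 (n 0 z (n 0
 z (n 0 z (n 0 z (n 0 z (n 0 z (n 0 z (n 0 z (n 0 z (n 0 z (n 0 z (n 0 z (n 0 z (n 0 z (n 0 z (n
 0 z (n 0 z (n 0 z (n 0 z (n 0 z (n 0 z (n 0 z (n 0 z (n 0 z (n 0 z (n 0 z (n 0 z (n 0 z (n 0 z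
 (n 0 z (n 0 z z))))))))))))))))))))))))))))))) (n 1153 (n 0 z (n 0 z (n 0 z (n 0 z (n 0 z (n 0
 z (n 0 z (n 0 z (n 0 z (n 0 z (n 0 z (n 0 z (n 0 z (n 0 z (n 0 z (n 0 z (n 0 z (n 0 z (n 0 z (n
 0 z (n 0 z (n 0 z (n 0 z (n 0 z (n 0 z (n 0 z (n 0 z (n 0 z (n 0 z (n 0 z (n 0 z
 z))))))))))))))))))))))))))))))) (n 805 (n 0 z (n 0 z (n 0 z (n 0 z (n 0 z z))))) (n 65 (n 0 z
 (n 0 z (n 0 z (n 0 z (n 0 z (n 0 z (n 0 z (n 0 z (n 0 z (n 0 z (n 0 z (n 0 z (n 0 z (n 0 z (n 0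
 z (n 0 z (n 0 z (n 0 z (n 0 z (n 0 z (n 0 z (n 0 z (n 0 z (n 0 z (n 0 z (n 2 (n 0 z z) (n 0 z
 (n 0 z (n 0 z (n 0 z (n 0 z (n 0 z z)))))))))))))))))))))))))))))))) (n 65 (n 0 z (n 0 z (n 0 z
 (n 0 z (n 0 z (n 0 z (n 0 z (n 0 z (n 0 z (n 0 z (n 0 z (n 0 z (n 0 z (n 0 z (n 0 z (n 0 z (n 0
 z (n 0 z (n 0 z (n 0 z (n 0 z (n 0 z (n 0 z (n 0 z (n 0 z (n 0 z (n 0 z (n 0 z (n 0 z (n 0 z (n
 0 z (n 0 z z)))))))))))))))))))))))))))))))) z))))))))) (n 0 (n 0 z (n 0 z (n 1409 (n 0 z (n 0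
 z (n 0 z (n 0 z (n 0 z (n 0 z (n 0 z z))))))) (n 1409 (n 0 z (n 0 z (n 0 z (n 2 (n 0 z (n 2 (n
 0 z (n 0 z (n 0 z (n 0 z (n 0 z (n 0 z z)))))) (n 2 (n 0 z (n 0 z (n 0 z (n 0 z (n 0 z (n 0 z
 z)))))) (n 1 z z)))) (n 0 z (n 0 z (n 0 z z))))))) (n 1409 (n 0 z (n 0 z (n 0 z (n 0 z (n 0 z
 (n 0 z (n 0 z z))))))) (n 857 (n 0 z (n 0 z (n 0 z (n 0 z (n 0 z (n 0 z (n 0 z (n 0 z (n 2 (n 1
 z (n 2 (n 0 z (n 0 z (n 0 z (n 0 z (n 0 z (n 0 z z)))))) z)) z))))))))) (n 257 (n 0 z (n 0 z (n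
 0 z (n 2 (n 0 z z) (n 0 z (n 0 z (n 0 z z))))))) (n 257 (n 0 z (n 2 z (n 0 z (n 0 z (n 0 z (n 0
 z (n 0 z z))))))) z)))))))) (n 0 (n 0 z (n 1165 (n 0 z (n 0 z (n 0 z (n 0 z (n 0 z (n 0 z (n 0
 z (n 0 z z)))))))) (n 1165 (n 0 z (n 0 z (n 0 z (n 0 z (n 0 z (n 0 z (n 0 z (n 0 z z)))))))) (n
 1165 (n 0 z (n 0 z (n 0 z (n 0 z (n 0 z (n 0 z (n 0 z (n 0 z z)))))))) (n 857 (n 0 z (n 0 z (n
 0 z (n 0 z (n 0 z (n 0 z (n 0 z (n 0 z (n 0 z (n 0 z (n 0 z (n 0 z (n 0 z (n 0 z (n 0 z (n 0 z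
 (n 0 z (n 0 z (n 0 z (n 0 z (n 0 z (n 0 z (n 0 z (n 0 z (n 0 z (n 0 z (n 0 z (n 0 z (n 0 z (n 0
 z (n 0 z (n 0 z z)))))))))))))))))))))))))))))))) (n 257 (n 0 z (n 0 z (n 0 z (n 0 z (n 0 z (n
 2 (n 0 z z) (n 0 z (n 0 z (n 0 z z))))))))) (n 257 (n 0 z (n 0 z (n 0 z (n 0 z (n 0 z (n 0 z (n
 0 z (n 0 z (n 0 z z))))))))) z))))))) (n 0 (n 1181 (n 0 z (n 0 z (n 0 z (n 0 z (n 0 z (n 0 z (n
 0 z (n 0 z (n 0 z (n 0 z (n 0 z z))))))))))) (n 1181 (n 0 z (n 0 z (n 0 z (n 0 z (n 0 z (n 0 z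
 (n 0 z (n 0 z (n 0 z (n 0 z (n 0 z z))))))))))) (n 1181 (n 0 z (n 0 z (n 0 z (n 0 z (n 0 z (n 0
 z (n 0 z (n 0 z (n 0 z (n 0 z (n 0 z z))))))))))) (n 261 (n 0 z (n 0 z (n 0 z (n 0 z (n 0 z (n
 0 z z)))))) (n 269 (n 0 z (n 0 z (n 0 z (n 0 z (n 0 z (n 0 z (n 0 z (n 0 z (n 0 z z))))))))) (n
 269 (n 0 z (n 0 z (n 0 z (n 0 z (n 0 z (n 0 z (n 0 z (n 0 z (n 0 z z))))))))) z)))))) (n 0 (n 0
 z (n 0 z (n 3 (n 0 z (n 0 z (n 0 z (n 0 z (n 0 z (n 0 z (n 0 z (n 0 z (n 0 z (n 0 z (n 0 z (n 0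
 z (n 0 z (n 0 z (n 0 z (n 0 z (n 0 z (n 0 z (n 0 z (n 0 z z)))))))))))))))))))) (n 1 (n 0 z (n
 0 z (n 0 z (n 0 z (n 0 z (n 0 z (n 0 z (n 0 z (n 0 z (n 0 z (n 0 z z))))))))))) (n 1 (n 0 z (n
 0 z (n 0 z (n 0 z (n 0 z (n 0 z (n 0 z (n 0 z (n 0 z (n 0 z (n 0 z z))))))))))) z))))) (n 0 (n
 0 z (n 9 (n 0 z (n 0 z (n 0 z z))) (n 5 (n 0 z (n 0 z (n 0 z (n 0 z z)))) (n 5 (n 0 z (n 0 z (n
 0 z (n 0 z z)))) z)))) (n 0 (n 3 (n 0 z (n 0 z (n 0 z (n 0 z (n 0 z (n 0 z z)))))) (n 5 (n 0 z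
 (n 0 z (n 0 z (n 0 z (n 0 z (n 0 z (n 0 z (n 0 z z)))))))) (n 5 (n 0 z (n 0 z (n 0 z (n 0 z (n
 0 z (n 0 z (n 0 z (n 0 z z)))))))) z))) (n 0 (n 1 (n 0 z (n 0 z (n 0 z (n 2 (n 0 z z) (n 0 z (n
 0 z (n 0 z z))))))) (n 1 (n 0 z (n 0 z (n 0 z (n 0 z (n 0 z (n 0 z (n 0 z z))))))) z)) (n 0 (n
 0 z z) (n 0 z z)))))))))))) (n 0 (n 1 (n 3278363 z (n 3278363 z (n 6636307 z (n 3278363 z (n
 3278363 z (n 3278363 z z)))))) (n 1 (n 6427979 z (n 6427979 z (n 6636307 z (n 6427979 z (n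
 6427979 z (n 6427979 z z)))))) (n 1 (n 5660 z (n 5660 z (n 6636307 z (n 5660 z (n 2 z (n
 4329571 z z)))))) z))) (n 0 (n 0x2e913292b240 (n 0 (n 0 (n 7754787 z (n 7754787 z (n 7754787 z
 (n 7754787 z (n 7754787 z (n 7754787 z z)))))) z) (n 0 (n 707 (n 1 (n 3068 z (n 3068 z (n 3068
 z (n 2 z (n 3068 z (n 7610467 z z)))))) (n 1 (n 3282699 z (n 3282699 z (n 3282699 z (n 3282699
 z (n 3282699 z (n 7610467 z z)))))) (n 0 z (n 1 (n 7754787 z (n 7754787 z (n 7754787 z (n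
 7754787 z (n 7754787 z (n 7754787 z z)))))) z)))) (n 715 (n 1 (n 3278619 z (n 3278619 z (n
 6636403 z (n 3278619 z (n 3278619 z (n 7610467 z z)))))) (n 1 (n 7476555 z (n 7476555 z (n
 7476555 z (n 7476555 z (n 7476555 z (n 7610467 z z)))))) (n 1 (n 7754787 z (n 7754787 z (n
 7754787 z (n 7754787 z (n 7754787 z (n 7754787 z z)))))) z))) (n 430 (n 1 (n 4392731 z (n
 4392731 z (n 7684883 z (n 4392731 z (n 4392731 z (n 4392731 z z)))))) (n 1 (n 7610467 z (n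
 7610467 z (n 7684883 z (n 7610467 z (n 7610467 z (n 7610467 z z)))))) (n 1 (n 7476555 z (n
 7476555 z (n 7684883 z (n 7476555 z (n 7476555 z (n 7476555 z z)))))) (n 1 (n 5660 z (n 5660 z
 (n 7684883 z (n 5660 z (n 4396907 z (n 5660 z z)))))) (n 1 (n 7610467 z (n 7610467 z (n 7684883
 z (n 7610467 z (n 7610467 z (n 7610467 z z)))))) (n 1 (n 5660 z (n 5660 z (n 7684883 z (n 10 z
 (n 3213163 z (n 5660 z z)))))) z)))))) (n 4 (n 1 (n 7684883 z (n 7684883 z (n 7684883 z (n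
 7684883 z (n 7684883 z (n 7684883 z z)))))) (n 0 z (n 1 (n 7684883 z (n 7684883 z (n 7684883 z
 (n 7684883 z (n 7684883 z (n 7684883 z z)))))) z))) (n 5 (n 1 (n 7684883 z (n 7684883 z (n
 7684883 z (n 7684883 z (n 7684883 z (n 7684883 z z)))))) (n 0 z (n 1 (n 7684883 z (n 7684883 z
 (n 7684883 z (n 7684883 z (n 7684883 z (n 7684883 z z)))))) z))) (n 3 (n 1 (n 7684883 z (n
 7684883 z (n 7684883 z (n 7684883 z (n 7684883 z (n 7684883 z z)))))) (n 1 (n 4 z (n 3740 z (n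
 3740 z (n 3740 z (n 7406651 z (n 3740 z z)))))) (n 1 (n 7684883 z (n 7684883 z (n 7684883 z (n
 7684883 z (n 7684883 z (n 7684883 z z)))))) (n 0 z z)))) (n 715 (n 1 (n 3278619 z (n 3278619 z
 (n 7684883 z (n 3278619 z (n 3278619 z (n 3278619 z z)))))) (n 1 (n 7476555 z (n 7476555 z (n
 7684883 z (n 7476555 z (n 7476555 z (n 7476555 z z)))))) (n 1 (n 7754787 z (n 7754787 z (n
 7684883 z (n 7754787 z (n 7754787 z (n 7754787 z z)))))) z))) z))))))) (n 0 (n 0 (n 0 z (n 0 z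
 z)) (n 0 (n 0 z z) z)) (n 0 (n 407 (n 0 (n 0 z (n 0 z z)) (n 0 (n 0 z (n 0 z z)) (n 0 (n 0 z (n
 0 z z)) (n 0 (n 0 z (n 0 z z)) (n 0 (n 0 z (n 0 z z)) z))))) (n 707 (n 0 (n 0 z (n 0 z z)) (n 0
 (n 0 z (n 0 z z)) (n 0 (n 0 z (n 0 z z)) (n 0 (n 0 z (n 0 z z)) (n 0 (n 0 z (n 0 z z)) (n 0 (n
 0 z (n 0 z z)) (n 0 (n 0 z (n 0 z z)) (n 0 (n 0 z (n 0 z z)) (n 0 (n 0 z (n 0 z z)) z)))))))))
 (n 430 (n 0 (n 0 z (n 0 z z)) (n 0 (n 0 z (n 0 z z)) (n 0 (n 0 z (n 0 z z)) (n 0 (n 0 z (n 0 z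
 z)) (n 0 (n 0 z (n 0 z z)) (n 0 (n 0 z (n 0 z z)) z)))))) (n 707 (n 0 (n 0 z (n 0 z z)) (n 0 (n
 0 z (n 0 z z)) (n 0 (n 0 z (n 0 z z)) (n 0 (n 0 z (n 0 z z)) (n 0 (n 0 z (n 0 z z)) (n 0 (n 0 z
 (n 0 z z)) z)))))) (n 581 (n 0 (n 0 z (n 0 z z)) (n 0 (n 0 z (n 0 z z)) (n 0 (n 0 z (n 0 z z))
 (n 0 (n 0 (n 8525579 z (n 4327451 z z)) (n 0 (n 4327451 z (n 4327451 z z)) z)) (n 0 (n 0 z (n 0
 z z)) (n 0 (n 0 z (n 0 z z)) (n 0 (n 0 (n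
 0x1386082182182081f8208208208208208208207e08217df8207e08207df8218208608207e08218200041 z z) (n
 0 z z)) (n 0 (n 0 z (n 0 z z)) (n 0 (n 0 z (n 0 z z)) (n 0 (n 0 z (n 0 z z)) (n 0 (n 0 (n
 0x30ed0ec80785f8218207e082081f8608208218218207df86082082082082081f8208608208208208a081f0801 z
 (n 0x10c8ec84078208217e081f82082082081f8208208208208608207e08208208208208208208208208208200801
 z z)) (n 0 (n
 0x138708217e182081f8208208208607e082081f8208607df8207e08207df8208608608607a08618200041 z (n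
 0xb87681f8218207e07e182086082081f82182082086081f8207e08207df8208208608217e08618200041 z z)) z))
 (n 0 (n 0 (n 8795147 z (n 8795147 z z)) (n 0 z z)) (n 0 (n 0 (n 8525579 z z) (n 0 z z)) (n 0 (n
 0 z (n 0 z z)) (n 0 (n 0 z (n 0 z z)) (n 0 (n 0 z (n 0 z z)) (n 0 (n 0 z (n 0 z z)) (n 0 (n 0 z
 (n 0 z z)) (n 0 (n 0 (n 8795995 z (n
 0x30c4ec08078208217e085f8208208208208208208208208608208208208208208207e08608208208608200801 z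
 z)) (n 0 z z)) (n 0 (n 0 (n
 0x458547607a78a082181f8a08a07e27606a162586192285d6288267de8236207a27da9df9df8a27df0041 z (n
 0x458547607a78a082181f8a08a07e27606a162586192285d6288267de8236207a27da9df9df8a27df0041 z z)) (n
 0 (n 0xb87082082182081f8208208208207e07e18208208607df8207e182081f8208208608207e08208600041 z (n
 0x458547607a78a082181f8a08a07e27606a162586192285d6288267de8236207a27da9df9df8a27df0041 z z))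
 z)) (n 0 (n 0 (n 8795147 z (n 8795147 z z)) (n 0 z z)) (n 0 (n 0 (n 8857179 z (n 8525579 z z))
 (n 0 z z)) (n 0 (n 0 z (n 0 z z)) (n 0 (n 0 z (n 0 z z)) (n 0 (n 0 z (n 0 z z)) (n 0 (n 0 z (n
 0 z z)) (n 0 (n 0 z (n 0 z z)) (n 0 (n 0 z (n 0 z z)) (n 0 (n 0 z (n 0 z z)) (n 0 (n 0 z (n 0 z
 z)) (n 0 (n 0 z (n 0 z z)) z))))))))))))))))))))))))))))))) (n 583 (n 0 (n 0 z (n 0 z z)) (n 0
 (n 0 z (n 0 z z)) (n 0 (n 0 z (n 0 z z)) (n 0 (n 0 (n 8795995 z (n 8525579 z z)) (n 0 z z)) (n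
 0 (n 0 (n 8659043 z z) (n 0 z z)) (n 0 (n 0 z (n 0 z z)) (n 0 (n 0 (n 8659043 z (n 8659043 z
 z)) (n 0 (n 8659043 z (n 8659043 z z)) z)) (n 0 (n 0 z (n 0 z z)) z)))))))) (n 453 (n 0 (n 0 z
 (n 0 z z)) (n 0 (n 0 z (n 0 z z)) (n 0 (n 0 (n 8857179 z (n 8857179 z z)) (n 0 (n
 0x458717607a78a082181f8a08a07e27606a162586192285d6288267de8236207a27da9df9df8a27df0041 z (n
 8587115 z z)) z)) (n 0 (n 0 (n
 0x1842751601810c8ea64077e08a18217df7df81c8e17a182086089f7e08607e17e082079f8208217e085e86181f7e085e1001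
 z (n 8795995 z z)) (n 0 (n 8859987 z (n 8859987 z z)) z)) (n 0 (n 0 z (n 0 z z)) (n 0 (n 0 (n
 8803363 z z) (n 0 (n 8803363 z z) z)) z)))))) (n 451 (n 0 (n 0 z (n 0 z z)) (n 0 (n 0 z (n 0 z
 z)) (n 0 (n 0 z (n 0 z z)) (n 0 (n 0 z (n 0 z z)) (n 0 (n 0 z (n 0 z z)) z))))) (n 452 (n 0 (n
 0 z (n 0 z z)) (n 0 (n 0 z (n 0 (n 8804155 z z) z)) (n 0 (n 0 z (n 0 z z)) (n 0 (n 0 z (n 0 z
 z)) (n 0 (n 0 z (n 0 z z)) (n 0 (n 0 z (n 0 z z)) (n 0 (n 0 z (n 0 z z)) (n 0 (n 0 z (n 0 z z))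
 (n 0 (n 0 z (n 0 z z)) (n 0 (n 0 z (n 0 z z)) (n 0 (n 0 z (n 0 z z)) (n 0 (n 0 z (n 0 z z)) (n
 0 (n 0 z (n 0 z z)) (n 0 (n 0 z (n 0 z z)) (n 0 (n 0 z (n 0 z z)) (n 0 (n 0 z (n 0 z z)) (n 0
 (n 0 z (n 0 z z)) (n 0 (n 0 z (n 0 z z)) (n 0 (n 0 z (n 0 z z)) (n 0 (n 0 z (n 0 (n 8733459 z
 z) z)) (n 0 (n 0 (n
 0x14213a8300c065263140382c86c824077e08627e181f85f7df8607e082082081f8208607e182082179f8207df82185e82185f7e081f1801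
 z (n 0x1b8718607e27e081f7e18218208617e082081f8208207df8207e17e07df8208208608207e08618200041 z
 z)) (n 0 (n
 0x458737607a78a082181f8a08a07e27606a162586192285d6288267de8236207a27da9df9df8a27df0041 z (n
 0x58738207e082081f86082086082082082082085f8608207e08208608618217e08207e18208218200041 z z)) z))
 (n 0 (n 0 z (n 0 z z)) (n 0 (n 0 z (n 0 z z)) (n 0 (n 0 z (n 0 z z)) (n 0 (n 0 z (n 0 z z)) (n
 0 (n 0 z (n 0 z z)) (n 0 (n 0 z (n 0 z z)) (n 0 (n 0 z (n 0 z z)) (n 0 (n 0 z (n 0 z z)) (n 0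
 (n 0 z (n 0 z z)) (n 0 (n 0 z (n 0 z z)) (n 0 (n 0 z (n 0 z z))
 z)))))))))))))))))))))))))))))))) (n 5 (n 0 (n 0 z (n 0 z z)) (n 0 (n 0 z (n 0 z z)) (n 0 (n 0
 z (n 0 z z)) z))) (n 467 (n 0 (n 0 z (n 0 z z)) (n 0 (n 0 z (n 0 z z)) (n 0 (n 0 z (n 0 z z))
 (n 0 (n 0 z (n 0 z z)) (n 0 (n 0 z (n 0 z z)) (n 0 (n 0 (n 8803363 z (n 8803363 z z)) (n 0 (n
 8803363 z (n 8803363 z z)) z)) z)))))) (n 33 (n 0 (n 0 z (n 0 z z)) (n 0 (n 0 (n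
 0x10c90c84078617e182085e89e7e181e8207e181e7df89f8618607a085f8a07a076781c79f79f8dd9618e20801 z
 (n 0x10c8ec84078208207e08208618208208208208208208208208208208208208608208208208208208208200801
 z z)) (n 0 (n 8804155 z (n
 0x10c90c84078617e182085e89e7e181e8207e181e7df89f8618607a085f8a07a076781c79f79f8dd9618e20801 z
 z)) z)) (n 0 (n 0 (n
 0x7852740603810c90c800779f66a8e18a385f86589f9e261e5622aa9a692875c7b17dec175dd52795842489ab55bab6231001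
 z (n
 0x10c8ec84078208217e081f82082082081f8208208208208608207e08208208208208208208208208208200801 z
 z)) (n 0 z z)) (n 0 (n 0 z (n 0 z z)) (n 0 (n 0 z (n 0 z z)) (n 0 (n 0 z (n 0 z z)) (n 0 (n 0
 (n 8525579 z (n 8455227 z z)) (n 0 z z)) (n 0 (n 0 z (n 0 z z)) (n 0 (n 0 (n 8525579 z z) (n 0
 (n
 0x864864203830e90e80078607a17a27e08207df9607e17dd82069f9648a08216e28df8e275f7217df8db8599609a08211001
 z z) z)) (n 0 (n 0 (n 8525579 z (n 4327451 z z)) (n 0 (n 4327451 z (n 4327451 z z)) z)) (n 0 (n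
 0 (n 0x138608208217e07e082082086086081f82185f7e08607df8207e08207df8208208608607e08618200041 z
 z) (n 0 z z)) (n 0 (n 0 z (n 0 z z)) (n 0 (n 0 (n 8525579 z (n
 0xb8608207e17e07e07e182086086081f8208208208607df82082082082082082086085f81f8617e00041 z z)) (n
 0 z z)) (n 0 (n 0 (n
 0x876876401830ed0648077e08208208207e081f8607e18208208a181e82082082082082082086181f86086181f7e08201001
 z z) (n 0 z z)) (n 0 (n 0 z (n 0 z z)) (n 0 (n 0 z (n 0 z z)) (n 0 (n 0 z (n 0 (n 8587115 z (n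
 0x1b8738607e27e081f7e18218208617e082081f8208207df8207e17e07df8208208608207e08618200041 z z))
 z)) (n 0 (n 0 z (n 0 z z)) (n 0 (n 0 z (n 0 z z)) (n 0 (n 0 z (n 0 z z)) (n 0 (n 0 z (n 0 z z))
 (n 0 (n 0 z (n 0 z z)) (n 0 (n 0 (n 8455227 z (n 8525579 z z)) (n 0 z z)) (n 0 (n 0 (n 8868147
 z z) (n 0 z z)) (n 0 (n 0 z (n 0 z z)) (n 0 (n 0 z (n 0 z z)) (n 0 (n 0 z (n 0 z z)) (n 0 (n 0
 z (n 0 z z)) (n 0 (n 0 z (n 0 z z)) (n 0 (n 0 z (n 0 z z)) (n 0 (n 0 z (n 0 z z)) (n 0 (n 0 z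
 (n 0 z z)) z)))))))))))))))))))))))))))))))) (n 129 (n 0 (n 0 z (n 0 z z)) (n 0 (n 0 z (n 0 z
 z)) (n 0 (n 0 z (n 0 z z)) (n 0 (n 0 z (n 0 z z)) (n 0 (n 0 z (n 0 z z)) (n 0 (n 0 z (n 0 z z))
 (n 0 (n 0 z (n 0 z z)) (n 0 (n 0 z (n 0 z z)) (n 0 (n 0 z (n 0 z z)) z))))))))) (n 3 (n 0 (n 0
 z (n 0 z z)) (n 0 (n 0 z (n 0 z z)) (n 0 (n 0 z (n 0 z z)) (n 0 (n 0 z (n 0 z z)) z)))) (n 1 (n
 0 (n 0 (n
 0x30c8ec24037a27a08607df85f7df8e18217e08236e482382076185f81d7e27e36df8a19607e186281e7210801 z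
 (n 8525579 z z)) (n 0 (n 8804155 z (n
 0xb0c8c20403021898c8406043b43b001c5864732001810e30e200361d5a98a35a766775eb247256617654a87e392089f6a48e18646a8797826a5795fb9891c61d2801
 z z)) z)) (n 0 (n 0 z (n 0 z z)) (n 0 (n 0 z (n 0 z z)) (n 0 (n 0 z (n 0 z z)) (n 0 (n 0 z (n 0
 z z)) (n 0 (n 0 z (n 0 (n 8803363 z z) z)) (n 0 (n 0 z (n 0 z z)) z))))))) (n 707 (n 0 (n 0 z
 (n 0 z z)) (n 0 (n 0 z (n 0 z z)) (n 0 (n 0 z (n 0 z z)) (n 0 (n 0 z (n 0 z z)) z)))) (n 715 (n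
 0 (n 0 (n 8868147 z z) (n 0 (n 8859987 z z) z)) (n 0 (n 0 z (n 0 z z)) (n 0 (n 0 z (n 0 z z))
 z))) (n 706 (n 0 (n 0 z (n 0 z z)) (n 0 (n 0 z (n 0 z z)) (n 0 (n 0 z (n 0 z z)) (n 0 (n 0 z (n
 0 z z)) (n 0 (n 0 (n
 0x458717607a78a082181f8a08a07e27606a162586192285d6288267de8236207a27da9df9df8a27df0041 z (n
 8525579 z z)) (n 0 (n
 0x30e90e800381f7e18208607de8208607e082181f8208208617e08208607e086082082085f8218208618200801 z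
 (n 0x1b8738607e27e081f7e18218208617e082081f8208207df8207e17e07df8208208608207e08618200041 z z))
 z)) (n 0 (n 0 z (n 0 z z)) (n 0 (n 0 z (n 0 z z)) (n 0 (n 0 z (n 0 z z)) (n 0 (n 0 z (n 0 z z))
 (n 0 (n 0 z (n 0 z z)) (n 0 (n 0 z (n 0 z z)) (n 0 (n 0 z (n 0 z z)) (n 0 (n 0 z (n 0 z z))
 z))))))))))))) (n 3 (n 0 (n 0 z (n 0 z z)) (n 0 (n 0 z (n 0 z z)) (n 0 (n 0 z (n 0 z z)) (n 0
 (n 0 z (n 0 z z)) (n 0 (n 0 z (n 0 z z)) (n 0 (n 0 z (n 0 z z)) (n 0 (n 0 z (n 0 z z)) (n 0 (n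
 0 z (n 0 z z)) z)))))))) (n 1 (n 0 (n 0 z (n 0 z z)) (n 0 (n 0 z (n 0 z z)) (n 0 (n 0 (n
 0x30c4e60a078208208208208208208208208207e08208208207e182082082086082082081f8208208608210801 z
 (n 0x58718207e082081f86082086082082082082085f8608207e08208608618217e08207e18208218200041 z z))
 (n 0 (n 7473179 z (n
 0x138738607e17e081f7e182082086182082081f7e08207df81f7e17e082082182086085f7e08618200041 z z))
 z)) (n 0 (n 0 z (n 0 z z)) (n 0 (n 0 z (n 0 z z)) (n 0 (n 0 z (n 0 (n 8733459 z z) z)) z))))))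
 (n 0 (n 0 (n 0 z (n 0 z z)) (n 0 (n 0 z (n 0 z z)) (n 0 (n 0 z (n 0 z z)) (n 0 (n 0 z (n 0 z
 z)) (n 0 (n 0 z (n 0 z z)) (n 0 (n 0 z (n 0 z z)) z)))))) z))))))))))))))))))))) z)))) z) z))))
 (n 0x8dc543513a0ad5d2144e322b6cb11365a09a2d40c9ad900b5100c9ac0 (n 0xb513 (n 155 (n 2 z (n
 0x2ca8a824038207e082085f85f7e18208a08208207e281f7e179f8227de81f8627e08608628608207e18210801 z
 (n 0 z (n 10 z (n 3282443 z (n 4331019 z (n 18 z (n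
 0x4ca8a824077df85e7df8a189f82081f8618607e27a186381f7dd79d8208618a18e07237e18218228608200801 z
 z)))))))) (n 375 (n 0 z (n 0 z (n 26 z (n 6496515 z (n 0 z z))))) (n 51 (n 34 z (n 0 z (n 0 z
 (n 0 z (n 0 z (n 6496515 z z)))))) (n 3 (n 0 z (n 42 z (n 0 z (n 0 z (n 0 z (n 0 z (n 0 z (n 0
 z (n 50 z (n 0 z (n 0 z (n 0 z (n 0 z (n 6496515 z z)))))))))))))) (n 1 (n 58 z (n 0 z (n 0 z
 (n 0 z (n 2164299 z z))))) (n 0 (n 0 z (n 66 z (n 74 z (n 0 z (n 82 z (n 0 z (n 2164315 z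
 z))))))) z)))))) (n 375 (n 0 (n 0 z (n 0 z (n 131 (n 0 z (n 0 z (n 0 z (n 0 z (n 0 z (n 0 z (n
 0 z (n 0 z (n 0 z (n 0 z (n 0 z (n 0 z (n 0 z (n 2 (n 1 z (n 1 z (n 1 z (n 1 z (n 1 z (n 1 z (n
 1 z z))))))) z)))))))))))))) (n 747 (n 2 (n 1 z (n 1 z (n 1 z (n 1 z (n 1 z (n 1 z z)))))) (n
 0x6ea4ca080781d81f7df85e8208608208208a37a37e28227e081f75f8218208218a07208618a18627df89f0801 z
 (n 0 z (n 0 z (n 0 z (n 0 z (n 0 z (n 0 z (n 0 z (n 0 z (n 0 z (n 0 z (n 0 z (n 0 z (n 0 z (n 0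
 z (n 0 z (n 0 z z)))))))))))))))))) (n 153 (n 0 z (n 0 z (n 0 z (n 0 z (n 0 z (n 0 z (n 0 z (n
 0 z (n 0 z (n 0 z (n 0 z (n 0 z (n 2 (n 0 z (n 1 z (n 1 z (n 1 z (n 1 z z))))) z)))))))))))))
 (n 153 (n 0 z (n 0 z (n 0 z (n 0 z (n 0 z (n 0 z (n 0 z (n 0 z (n 0 z (n 0 z (n 0 z (n 0 z (n 0
 z z))))))))))))) (n 303 (n 2 (n 1 z (n 1 z (n 1 z z))) (n 0 z (n 0 z (n 0 z (n 0 z (n 0 z (n 0
 z z))))))) (n 745 (n 0 z (n 0 z (n 0 z (n 0 z (n 0 z (n 0 z (n 0 z z))))))) (n 745 (n 0 z (n 2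
 (n 0 z z) (n 0 z (n 0 z (n 0 z (n 0 z (n 0 z z))))))) (n 745 (n 2 z (n 0 z (n 0 z (n 0 z (n 0 z
 (n 0 z (n 0 z z))))))) z)))))))))) (n 0 (n 0 z (n 871 (n 0 z (n 0 z (n 0 z (n 0 z (n 0 z (n 0 z
 (n 0 z (n 0 z z)))))))) (n 199 (n 0 z (n 0 z (n 0 z (n 0 z (n 0 z (n 0 z (n 0 z (n 0 z (n 0 z
 (n 0 z (n 0 z (n 0 z (n 0 z (n 0 z (n 0 z (n 0 z (n 0 z (n 0 z (n 0 z (n 0 z (n 0 z
 z))))))))))))))))))))) (n 201 (n 0 z (n 0 z (n 0 z (n 0 z (n 0 z (n 0 z (n 0 z (n 0 z z))))))))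
 (n 201 (n 0 z (n 0 z (n 0 z (n 0 z (n 0 z (n 0 z (n 2 (n 1 z (n 1 z (n 1 z (n 1 z z)))) (n 0 z
 z)))))))) (n 303 (n 0 z (n 0 z (n 0 z (n 0 z (n 0 z (n 0 z (n 0 z (n 0 z (n 0 z (n 0 z (n 0 z
 (n 0 z (n 0 z (n 0 z (n 0 z (n 0 z (n 0 z (n 0 z (n 0 z (n 0 z (n 0 z z))))))))))))))))))))) (n
 865 (n 0 z (n 0 z (n 0 z (n 0 z (n 0 z (n 0 z (n 0 z (n 0 z (n 0 z (n 0 z (n 0 z (n 0 z (n 0 z
 (n 0 z (n 0 z (n 0 z (n 0 z (n 0 z (n 0 z (n 0 z (n 0 z z))))))))))))))))))))) (n 865 (n 0 z (n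
 0 z (n 0 z (n 0 z (n 0 z (n 0 z (n 0 z (n 0 z (n 0 z (n 0 z (n 0 z (n 0 z (n 0 z (n 0 z (n 0 z
 (n 0 z (n 0 z (n 0 z (n 0 z (n 0 z (n 0 z z))))))))))))))))))))) (n 865 (n 0 z (n 0 z (n 0 z (n
 0 z (n 0 z (n 0 z (n 0 z (n 0 z (n 0 z (n 0 z (n 0 z (n 0 z (n 0 z (n 0 z (n 0 z (n 0 z (n 0 z
 (n 0 z (n 0 z (n 0 z (n 0 z z))))))))))))))))))))) z))))))))) (n 0 (n 223 (n 0 z (n 0 z (n 0 z
 (n 0 z (n 0 z (n 0 z (n 0 z (n 0 z (n 0 z (n 0 z (n 2 (n 1 z (n 1 z (n 1 z (n 1 z (n 1 z (n 1 z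
 (n 1 z z))))))) (n 0 z (n 0 z z))))))))))))) (n 43 (n 0 z (n 0 z (n 0 z (n 2 (n 1 z (n 1 z (n 1
 z (n 1 z (n 1 z (n 1 z z)))))) (n 0 z (n 0 z (n 0 z z))))))) (n 251 (n 0 z (n 0 z (n 0 z (n 2
 (n 0 z (n 1 z (n 1 z (n 1 z (n 1 z z))))) (n 0 z z))))) (n 251 (n 0 z (n 0 z (n 0 z (n 0 z (n 0
 z z))))) (n 243 (n 2 (n 1 z (n 1 z (n 1 z z))) (n 0 z (n 0 z (n 0 z (n 0 z (n 0 z z)))))) (n
 241 (n 0 z (n 0 z (n 0 z (n 0 z (n 0 z (n 0 z (n 0 z (n 0 z z)))))))) (n 241 (n 0 z (n 0 z (n 0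
 z (n 2 (n 0 z z) (n 0 z (n 0 z (n 0 z (n 0 z z)))))))) (n 241 (n 0 z (n 0 z (n 0 z (n 0 z (n 0
 z (n 0 z (n 0 z (n 0 z z)))))))) z)))))))) (n 0 (n 747 (n 0 z (n 0 z (n 0 z (n 0 z (n 0 z (n 0
 z (n 0 z (n 0 z z)))))))) (n 55 (n 0 z (n 0 z (n 0 z (n 0 z (n 0 z (n 0 z (n 0 z (n 0 z (n 0 z
 (n 0 z (n 0 z (n 0 z (n 0 z z))))))))))))) (n 55 (n 0 z (n 0 z (n 0 z (n 0 z (n 0 z (n 0 z (n 0
 z (n 0 z (n 0 z (n 0 z (n 0 z (n 0 z (n 0 z z))))))))))))) (n 111 (n 0 z (n 0 z (n 0 z (n 0 z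
 (n 0 z (n 0 z (n 0 z z))))))) (n 745 (n 0 z (n 0 z (n 0 z (n 0 z (n 0 z (n 2 (n 0 z (n 0 z z))
 z)))))) (n 745 (n 0 z (n 0 z (n 0 z (n 0 z (n 0 z (n 0 z z)))))) (n 745 (n 0 z (n 0 z (n 0 z (n
 0 z (n 0 z (n 0 z z)))))) z))))))) (n 0 (n 687 (n 0 z (n 0 z (n 0 z (n 0 z (n 0 z (n 0 z (n 0 z
 z))))))) (n 687 (n 0 z (n 0 z (n 0 z (n 0 z (n 0 z (n 0 z (n 0 z z))))))) (n 15 (n 0 z (n 0 z
 (n 0 z (n 0 z (n 0 z (n 0 z (n 0 z (n 0 z z)))))))) (n 101 (n 0 z (n 0 z (n 0 z (n 0 z (n 0 z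
 (n 0 z (n 0 z (n 0 z (n 0 z (n 0 z (n 0 z (n 0 z (n 0 z (n 0 z (n 0 z (n 0 z (n 0 z (n 0 z (n 0
 z (n 0 z (n 0 z (n 0 z (n 0 z (n 0 z (n 0 z (n 0 z (n 0 z (n 0 z (n 0 z (n 0 z (n 0 z (n 0 z (n
 0 z (n 0 z (n 0 z (n 0 z (n 0 z (n 0 z (n 0 z (n 0 z (n 0 z (n 0 z (n 0 z (n 0 z (n 0 z (n 0 z
 z)))))))))))))))))))))))))))))))))))))))))))))) (n 101 (n 0 z (n 0 z (n 0 z (n 0 z (n 0 z (n 0
 z (n 0 z (n 0 z (n 0 z (n 0 z (n 0 z (n 0 z (n 0 z (n 0 z (n 0 z (n 0 z (n 0 z (n 0 z (n 0 z (n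
 0 z (n 0 z (n 0 z (n 0 z (n 0 z (n 0 z (n 0 z (n 0 z (n 0 z (n 0 z (n 0 z (n 0 z (n 0 z (n 0 z
 (n 0 z (n 0 z (n 0 z (n 0 z (n 0 z (n 0 z (n 0 z (n 0 z (n 0 z (n 0 z (n 0 z (n 0 z (n 0 z
 z)))))))))))))))))))))))))))))))))))))))))))))) (n 101 (n 0 z (n 0 z (n 0 z (n 0 z (n 0 z (n 0
 z (n 0 z (n 0 z (n 0 z (n 0 z (n 0 z (n 0 z (n 0 z (n 0 z (n 0 z (n 0 z (n 0 z (n 0 z (n 0 z (n
 0 z (n 0 z (n 0 z (n 0 z (n 0 z (n 0 z (n 0 z (n 0 z (n 0 z (n 0 z (n 0 z (n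
 0x2ec8ec82038207e082085f85f81f7de86085e8617e37a27e07de7e185f8228218208208617e182379f7e00801 z
 (n 0 z (n 0 z (n 0 z (n 0 z (n 0 z (n 0 z (n 0 z (n 0 z (n 0 z (n
 0x2ec8ec820382079f82085d8608207de8a285f8628227a275e7dc7e17df7e28628e07a18618a07a27608200801 z
 (n 0 z (n 0 z (n 0 z (n 0 z (n 0 z z)))))))))))))))))))))))))))))))))))))))))))))) z)))))) (n 0
 (n 0 z (n 243 (n 0 z (n 0 z (n 0 z (n 0 z (n 0 z (n 0 z (n 0 z z))))))) (n 241 (n 0 z (n 0 z (n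
 0 z (n 0 z (n 0 z (n 0 z (n 0 z (n 0 z (n 0 z (n 0 z (n 0 z (n 0 z (n 0 z (n 0 z (n 0 z (n 0 z
 (n 0 z (n 0 z z)))))))))))))))))) (n 241 (n 0 z (n 0 z (n 0 z (n 0 z (n 0 z (n 0 z (n 0 z (n 0
 z (n 0 z (n 0 z (n 0 z (n 0 z (n 0 z (n 0 z (n 0 z (n 0 z (n 0 z (n 0 z z)))))))))))))))))) (n
 241 (n 0 z (n 0 z (n 0 z (n 0 z (n 0 z (n 0 z (n 0 z (n 0 z (n 0 z (n 0 z (n 0 z (n 0 z (n 0 z
 (n 0 z (n 0 z (n 0 z (n 0 z (n 0 z z)))))))))))))))))) z))))) (n 0 (n 243 (n 0 z (n 0 z (n 0 z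
 (n 0 z (n 0 z (n 0 z (n 0 z (n 0 z (n 0 z (n 0 z (n 0 z (n 0 z (n 0 z (n 0 z (n 0 z
 z))))))))))))))) (n 1 (n 0 z (n 0 z (n 0 z (n 0 z (n 0 z (n 0 z (n 0 z (n 0 z z)))))))) (n 1 (n
 0 z (n 0 z (n 0 z (n 0 z (n 0 z (n 0 z (n 0 z (n 0 z z)))))))) (n 1 (n 0 z (n 0 z (n 0 z (n 0 z
 (n 2 z (n 0 z (n 0 z (n 0 z z)))))))) z)))) (n 0 (n 1 (n 0 z (n 0 z (n 0 z (n 0 z (n 0 z (n 0 z
 (n 0 z (n 0 z (n 0 z (n 0 z (n 0 z (n 0 z (n 0 z (n 0 z (n 0 z (n 0 z (n 0 z (n 0 z (n 0 z (n 0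
 z (n 0 z (n 0 z (n 0 z (n 0 z (n 0 z (n 0 z (n 0 z (n 0 z (n 0 z (n 0 z (n 0 z (n 0 z (n 0 z (n
 0 z (n 0 z (n 0 z (n 0 z (n 0 z (n 0 z (n 0 z (n 0 z (n 0 z (n 0 z (n 0 z (n 0 z (n 0 z (n 0 z
 (n 0 z (n 0 z (n 0 z (n 0 z (n 0 z (n 0 z (n 0 z (n 0 z (n 0 z
 z)))))))))))))))))))))))))))))))))))))))))))))))))))))))) (n 1 (n 0 z (n 0 z (n 0 z (n 0 z (n 0
 z (n 0 z (n 0 z (n 0 z (n 0 z (n 0 z (n 0 z (n 0 z (n 0 z (n 0 z (n 0 z (n 0 z (n 0 z (n 0 z (n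
 0 z (n 0 z (n 0 z (n 0 z (n 0 z (n 0 z (n 0 z (n 0 z (n 0 z (n 0 z (n 0 z (n 0 z (n 0 z (n 0 z
 (n 0 z (n 0 z (n 0 z (n 0 z (n 0 z (n 0 z (n 0 z (n 0 z (n 0 z (n 0 z (n 0 z (n 0 z (n 0 z (n 0
 z (n 0 z (n 0 z (n 0 z (n 0 z (n 0 z (n 0 z (n 0 z (n 0 z (n 0 z (n 0 z
 z)))))))))))))))))))))))))))))))))))))))))))))))))))))))) (n 1 (n 0 z (n 0 z (n 0 z (n 0 z (n 0
 z (n 0 z (n 0 z (n 0 z (n 0 z (n 0 z (n 0 z (n 0 z (n 0 z (n 0 z (n 0 z (n 0 z (n 0 z (n 0 z (n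
 0 z (n 0 z (n 0 z (n 0 z (n 0 z (n 0 z (n 0 z (n 0 z (n 0 z (n 0 z (n 0 z (n 0 z (n 0 z (n 0 z
 (n 0 z (n 0 z (n
 0x4ec6ec64037e08207a185f7e08627e08617e082196081c79f82086075f7df8209a182281d85e7627df8220801 z
 (n 0 z (n 0 z (n 0 z (n 0 z (n 0 z (n 0 z (n 0 z (n 0 z (n
 0x4ec6ec64037e17e07a089f85e8208208238208a08218218207dd7e07e08207e18e17df85f8217e28208200801 z
 (n 0 z (n 0 z (n 0 z (n 0 z (n 0 z (n 0 z (n 0 z (n 0 z (n 0 z (n 0 z (n 0 z (n 0 z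
 z)))))))))))))))))))))))))))))))))))))))))))))))))))))))) z))) (n 0 (n 0 z (n 0 z z)) (n 0 (n 0
 z z) (n 0 z z))))))))))) (n 0 (n 0 z (n 0 z (n 1 (n 1244 z (n 2 z (n 1244 z (n 1244 z (n 1244 z
 (n 1244 z z)))))) (n 1 (n 6496515 z (n 6496515 z (n 6496515 z (n 6496515 z (n 6496515 z (n
 6496515 z z)))))) (n 0 z z))))) (n 0 (n 0x26b6402c9ac0 (n 0 (n 0 (n 7746571 z (n 7746571 z (n
 7746571 z (n 7746571 z (n 7746571 z (n 7746571 z z)))))) z) (n 0 (n 155 (n 1 (n 2 z (n 3484 z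
 (n 3484 z (n 3484 z (n 3484 z (n 3484 z z)))))) (n 1 (n 6428507 z (n
 0x4ea8ca84077df85e7df8a189f82081f8618607e27a186381f7dd79d8208618a18e07237e18218228608200801 z
 (n 6498123 z (n 3484 z (n 3484 z (n 3484 z z)))))) (n 0 z (n 1 (n 7734043 z (n 7734043 z (n
 7734043 z (n 7734043 z (n 7734043 z (n 7734043 z z)))))) (n 1 (n 6496627 z (n 3282699 z (n
 3282699 z (n 3282699 z (n 3282699 z (n 3282699 z z)))))) (n 1 (n 4331275 z (n 4331275 z (n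
 4331275 z (n 4331275 z (n 4331275 z (n 4331275 z z)))))) (n 1 (n 10 z (n 3484 z (n 3484 z (n
 6493995 z (n 3484 z (n 3484 z z)))))) (n 1 (n
 0x4ea8a824077df85e7df8a189f82081f8618607e27a186381f7dd79d8208618a18e07237e18218228608200801 z
 (n 6428475 z (n 3484 z (n 6567723 z (n 3484 z (n 3484 z z)))))) z)))))))) (n 375 (n 0 z (n 0 z
 (n 1 (n 7746571 z (n 7746571 z (n 7746571 z (n 7746571 z (n 7746571 z (n 7746571 z z)))))) (n 1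
 (n 7545091 z (n 7545091 z (n 7545091 z (n 7545091 z (n 7545091 z (n 7545091 z z)))))) (n 0 z
 z))))) (n 51 (n 1 (n 7746571 z (n 7746571 z (n 7746571 z (n 7746571 z (n 7746571 z (n 7746571 z
 z)))))) (n 0 z (n 0 z (n 0 z (n 0 z (n 1 (n 7545091 z (n 7545091 z (n 7545091 z (n 7545091 z (n
 7545091 z (n 7545091 z z)))))) z)))))) (n 463 (n 1 (n 7545091 z (n 7545091 z (n 7545091 z (n
 7545091 z (n 7545091 z (n 7545091 z z)))))) (n 1 (n 6629131 z (n 3740 z (n 3740 z (n 3740 z (n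
 3740 z (n 3740 z z)))))) (n 0 z (n 0 z (n 0 z (n 1 (n 3740 z (n 3740 z (n 3740 z (n 3740 z (n
 3740 z (n 3740 z z)))))) (n 1 (n 7545091 z (n 7545091 z (n 7545091 z (n 7545091 z (n 7545091 z
 (n 7545091 z z)))))) z))))))) (n 1 (n 1 (n 7734043 z (n 7734043 z (n 7734043 z (n 7734043 z (n
 7734043 z (n 7734043 z z)))))) (n 0 z (n 0 z (n 0 z (n 1 (n 2164555 z (n 2164555 z (n 2164555 z
 (n 2164555 z (n 2164555 z (n 2164555 z z)))))) z))))) (n 377 (n 1 (n 7545091 z (n 7545091 z (n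
 7545091 z (n 7545091 z (n 7545091 z (n 7545091 z z)))))) (n 0 z (n 0 z (n 1 (n 7734043 z (n
 3628 z (n 3628 z (n 3628 z (n 4 z (n 3628 z z)))))) (n 1 (n 3278683 z (n 3278683 z (n 2164571 z
 (n 7734043 z (n 3278683 z (n 3278683 z z)))))) (n 1 (n 3628 z (n 7734043 z (n 3628 z (n 2164555
 z (n 3628 z (n 3628 z z)))))) z)))))) (n 375 (n 0 z (n 0 z (n 1 (n 7746571 z (n 7746571 z (n
 7746571 z (n 7746571 z (n 7746571 z (n 7746571 z z)))))) (n 1 (n 7545091 z (n 7545091 z (n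
 7545091 z (n 7545091 z (n 7545091 z (n 7545091 z z)))))) (n 0 z z))))) z))))))) (n 0 (n 0 (n 0
 z (n 0 z z)) (n 0 (n 0 z z) z)) (n 0 (n 441 (n 0 (n 0 z (n 0 z z)) (n 0 (n 0 z (n 0 z z)) (n 0
 (n 0 z (n 0 z z)) (n 0 (n 0 z (n 0 z z)) (n 0 (n 0 z (n 0 z z)) (n 0 (n 0 z (n 0 z z)) (n 0 (n
 0 z (n 0 z z)) (n 0 (n 0 z (n 0 z z)) z)))))))) (n 345 (n 0 (n 0 z (n 0 z z)) (n 0 (n 0 z (n 0
 z z)) (n 0 (n 0 z (n 0 z z)) (n 0 (n 0 z (n 0 z z)) (n 0 (n 0 z (n 0 z z)) (n 0 (n 0 z (n 0 z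
 z)) (n 0 (n 0 z (n 0 z z)) (n 0 (n 0 z (n 0 z z)) (n 0 (n 0 z (n 0 z z)) (n 0 (n 0 z (n 0 z z))
 (n 0 (n 0 z (n 0 z z)) (n 0 (n 0 z (n 0 z z)) (n 0 (n 0 z (n 0 z z)) (n 0 (n 0 z (n 0 z z)) (n
 0 (n 0 z (n 0 z z)) (n 0 (n 0 z (n 0 z z)) (n 0 (n 0 z (n 0 z z)) (n 0 (n 0 z (n 0 z z)) (n 0
 (n 0 z (n 0 z z)) (n 0 (n 0 z (n 0 z z)) (n 0 (n 0 z (n 0 z z)) z))))))))))))))))))))) (n 375
 (n 0 (n 0 z (n 0 z z)) (n 0 (n 0 z (n 0 z z)) (n 0 (n 0 z (n 0 z z)) (n 0 (n 0 z (n 0 z z)) (n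
 0 (n 0 z (n 0 z z)) (n 0 (n 0 z (n 0 z z)) (n 0 (n 0 z (n 0 z z)) (n 0 (n 0 z (n 0 z z))
 z)))))))) (n 467 (n 0 (n 0 z (n 0 z z)) (n 0 (n 0 z (n 0 z z)) (n 0 (n 0 z (n 0 z z)) (n 0 (n 0
 z (n 0 z z)) (n 0 (n 0 z (n 0 z z)) (n 0 (n 0 z (n 0 z z)) (n 0 (n 0 z (n 0 z z)) (n 0 (n 0 z
 (n 0 z z)) z)))))))) (n 33 (n 0 (n 0 z (n 0 z z)) (n 0 (n 0 z (n 0 z z)) (n 0 (n 0 z (n 0 z z))
 (n 0 (n 0 z (n 0 z z)) (n 0 (n 0 z (n 0 z z)) (n 0 (n 0 z (n 0 z z)) (n 0 (n 0 z (n 0 z z)) (n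
 0 (n 0 z (n 0 z z)) (n 0 (n 0 z (n 0 z z)) (n 0 (n 0 z (n 0 z z)) (n 0 (n 0 z (n 0 z z)) (n 0
 (n 0 z (n 0 z z)) (n 0 (n 0 z (n 0 z z)) z))))))))))))) (n 463 (n 0 (n 0 z (n 0 z z)) (n 0 (n 0
 z (n 0 z z)) (n 0 (n 0 z (n 0 z z)) (n 0 (n 0 z (n 0 z z)) (n 0 (n 0 z (n 0 z z)) (n 0 (n 0 z
 (n 0 z z)) (n 0 (n 0 z (n 0 z z)) z))))))) (n 153 (n 0 (n 0 z (n 0 z z)) (n 0 (n 0 z (n 0 z z))
 (n 0 (n 0 z (n 0 z z)) (n 0 (n 0 z (n 0 z z)) (n 0 (n 0 z (n 0 z z)) (n 0 (n 0 z (n 0 z z)) (n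
 0 (n 0 z (n 0 z z)) (n 0 (n 0 z (n 0 z z)) (n 0 (n 0 z (n 0 z z)) (n 0 (n 0 z (n 0 z z)) (n 0
 (n 0 z (n 0 z z)) (n 0 (n 0 z (n 0 z z)) (n 0 (n 0 z (n 0 z z)) (n 0 (n 0 z (n 0 z z)) (n 0 (n
 0 z (n 0 z z)) (n 0 (n 0 z (n 0 z z)) (n 0 (n 0 z (n 0 z z)) (n 0 (n 0 z (n 0 z z)) (n 0 (n 0 z
 (n 0 z z)) (n 0 (n 0 z (n 0 z z)) (n 0 (n 0 z (n 0 z z)) z))))))))))))))))))))) (n 57 (n 0 (n 0
 z (n 0 z z)) (n 0 (n 0 z (n 0 z z)) (n 0 (n 0 z (n 0 z z)) (n 0 (n 0 z (n 0 z z)) (n 0 (n 0 z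
 (n 0 z z)) (n 0 (n 0 z (n 0 z z)) (n 0 (n 0 z (n 0 z z)) z))))))) (n 9 (n 0 (n 0 z (n 0 z z))
 (n 0 (n 0 z (n 0 z z)) (n 0 (n 0 z (n 0 z z)) (n 0 (n 0 z (n 0 z z)) (n 0 (n 0 z (n 0 z z)) (n
 0 (n 0 z (n 0 z z)) (n 0 (n 0 z (n 0 z z)) (n 0 (n 0 z (n 0 z z)) z)))))))) (n 123 (n 0 (n 0 z
 (n 0 z z)) (n 0 (n 0 z (n 0 z z)) (n 0 (n 0 z (n 0 z z)) (n 0 (n 0 z (n 0 z z)) (n 0 (n 0 z (n
 0 z z)) (n 0 (n 0 z (n 0 z z)) (n 0 (n 0 z (n 0 z z)) z))))))) (n 453 (n 0 (n 0 z (n 0 z z)) (n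
 0 (n 0 z (n 0 z z)) (n 0 (n 0 z (n 0 z z)) (n 0 (n 0 z (n 0 z z)) (n 0 (n 0 z (n 0 z z)) (n 0
 (n 0 z (n 0 z z)) (n 0 (n 0 z (n 0 z z)) (n 0 (n 0 z (n 0 z z)) (n 0 (n 0 z (n 0 z z)) (n 0 (n
 0 z (n 0 z z)) (n 0 (n 0 z (n 0 z z)) (n 0 (n 0 z (n 0 z z)) (n 0 (n 0 z (n 0 z z)) (n 0 (n 0 z
 (n 0 z z)) (n 0 (n 0 z (n 0 z z)) (n 0 (n 0 z (n 0 z z)) (n 0 (n 0 z (n 0 z z)) (n 0 (n 0 z (n
 0 z z)) (n 0 (n 0 z (n 0 z z)) (n 0 (n 0 z (n 0 z z)) (n 0 (n 0 z (n 0 z z))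
 z))))))))))))))))))))) (n 377 (n 0 (n 0 z (n 0 z z)) (n 0 (n 0 z (n 0 z z)) (n 0 (n 0 z (n 0 z
 z)) (n 0 (n 0 z (n 0 z z)) (n 0 (n 0 z (n 0 z z)) (n 0 (n 0 z (n 0 z z)) z)))))) (n 51 (n 0 (n
 0 z (n 0 z z)) (n 0 (n 0 z (n 0 z z)) (n 0 (n 0 z (n 0 z z)) (n 0 (n 0 z (n 0 z z)) (n 0 (n 0 z
 (n 0 z z)) (n 0 (n 0 z (n 0 z z)) (n 0 (n 0 z (n 0 z z)) (n 0 (n 0 z (n 0 z z)) (n 0 (n 0 z (n
 0 z z)) (n 0 (n 0 z (n 0 z z)) (n 0 (n 0 z (n 0 z z)) (n 0 (n 0 z (n 0 z z)) (n 0 (n 0 z (n 0 z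
 z)) (n 0 (n 0 z (n 0 z z)) (n 0 (n 0 z (n 0 z z)) (n 0 (n 0 z (n 0 z z)) (n 0 (n 0 z (n 0 z z))
 (n 0 (n 0 z (n 0 z z)) (n 0 (n 0 z (n 0 z z)) (n 0 (n 0 z (n 0 z z)) (n 0 (n 0 z (n 0 z z)) (n
 0 (n 0 z (n 0 z z)) (n 0 (n 0 z (n 0 z z)) (n 0 (n 0 z (n 0 z z)) (n 0 (n 0 z (n 0 z z)) (n 0
 (n 0 z (n 0 z z)) (n 0 (n 0 z (n 0 z z)) (n 0 (n 0 z (n 0 z z)) (n 0 (n 0 z (n 0 z z)) (n 0 (n
 0 z (n 0 z z)) (n 0 (n 0 z (n 0 z z)) (n 0 (n 0 z (n 0 z z)) (n 0 (n 0 z (n 0 z z)) (n 0 (n 0 z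
 (n 0 z z)) (n 0 (n 0 z (n 0 z z)) (n 0 (n 0 z (n 0 z z)) (n 0 (n 0 z (n 0 z z)) (n 0 (n 0 z (n
 0 z z)) (n 0 (n 0 z (n 0 z z)) (n 0 (n 0 z (n 0 z z)) (n 0 (n 0 z (n 0 z z)) (n 0 (n 0 z (n 0 z
 z)) (n 0 (n 0 z (n 0 z z)) (n 0 (n 0 z (n 0 z z)) (n 0 (n 0 z (n 0 z z)) (n 0 (n 0 z (n 0 z z))
 z)))))))))))))))))))))))))))))))))))))))))))))) (n 125 (n 0 (n 0 z (n 0 z z)) (n 0 (n 0 z (n 0
 z z)) (n 0 (n 0 z (n 0 z z)) (n 0 (n 0 z (n 0 z z)) (n 0 (n 0 z (n 0 z z)) (n 0 (n 0 z (n 0 z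
 z)) (n 0 (n 0 z (n 0 z z)) (n 0 (n 0 z (n 0 z z)) (n 0 (n 0 z (n 0 z z)) (n 0 (n 0 z (n 0 z z))
 (n 0 (n 0 z (n 0 z z)) (n 0 (n 0 z (n 0 z z)) (n 0 (n 0 z (n 0 z z)) (n 0 (n 0 z (n 0 z z)) (n
 0 (n 0 z (n 0 z z)) (n 0 (n 0 z (n 0 z z)) (n 0 (n 0 z (n 0 z z)) (n 0 (n 0 z (n 0 z z))
 z)))))))))))))))))) (n 1 (n 0 (n 0 z (n 0 z z)) (n 0 (n 0 z (n 0 z z)) (n 0 (n 0 z (n 0 z z))
 (n 0 (n 0 z (n 0 z z)) (n 0 (n 0 z (n 0 z z)) (n 0 (n 0 z (n 0 z z)) (n 0 (n 0 z (n 0 z z)) (n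
 0 (n 0 z (n 0 z z)) (n 0 (n 0 z (n 0 z z)) (n 0 (n 0 z (n 0 z z)) (n 0 (n 0 z (n 0 z z)) (n 0
 (n 0 z (n 0 z z)) (n 0 (n 0 z (n 0 z z)) (n 0 (n 0 z (n 0 z z)) (n 0 (n 0 z (n 0 z z)) (n 0 (n
 0 z (n 0 z z)) (n 0 (n 0 z (n 0 z z)) (n 0 (n 0 z (n 0 z z)) (n 0 (n 0 z (n 0 z z)) (n 0 (n 0 z
 (n 0 z z)) (n 0 (n 0 z (n 0 z z)) (n 0 (n 0 z (n 0 z z)) (n 0 (n 0 z (n 0 z z)) (n 0 (n 0 z (n
 0 z z)) (n 0 (n 0 z (n 0 z z)) (n 0 (n 0 z (n 0 z z)) (n 0 (n 0 z (n 0 z z)) (n 0 (n 0 z (n 0 z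
 z)) (n 0 (n 0 z (n 0 z z)) (n 0 (n 0 z (n 0 z z)) (n 0 (n 0 z (n 0 z z)) (n 0 (n 0 z (n 0 z z))
 (n 0 (n 0 z (n 0 z z)) (n 0 (n 0 z (n 0 z z)) (n 0 (n 0 z (n 0 z z)) (n 0 (n 0 z (n 0 z z)) (n
 0 (n 0 z (n 0 z z)) (n 0 (n 0 z (n 0 z z)) (n 0 (n 0 z (n 0 z z)) (n 0 (n 0 z (n 0 z z)) (n 0
 (n 0 z (n 0 z z)) (n 0 (n 0 z (n 0 z z)) (n 0 (n 0 z (n 0 z z)) (n 0 (n 0 z (n 0 z z)) (n 0 (n
 0 z (n 0 z z)) (n 0 (n 0 z (n 0 z z)) (n 0 (n 0 z (n 0 z z)) (n 0 (n 0 z (n 0 z z)) (n 0 (n 0 z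
 (n 0 z z)) (n 0 (n 0 z (n 0 z z)) (n 0 (n 0 z (n 0 z z)) (n 0 (n 0 z (n 0 z z)) (n 0 (n 0 z (n
 0 z z)) (n 0 (n 0 z (n 0 z z)) (n 0 (n 0 z (n 0 z z)) (n 0 (n 0 z (n 0 z z))
 z)))))))))))))))))))))))))))))))))))))))))))))))))))))))) (n 155 (n 0 (n 0 z (n 0 z z)) (n 0 (n
 0 z (n 0 z z)) (n 0 (n 0 z (n 0 z z)) (n 0 (n 0 z (n 0 z z)) (n 0 (n 0 z (n 0 z z)) (n 0 (n 0 z
 (n 0 z z)) (n 0 (n 0 z (n 0 z z)) (n 0 (n 0 z (n 0 z z)) z)))))))) (n 375 (n 0 (n 0 z (n 0 z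
 z)) (n 0 (n 0 z (n 0 z z)) (n 0 (n 0 z (n 0 z z)) (n 0 (n 0 z (n 0 z z)) (n 0 (n 0 z (n 0 z z))
 z))))) (n 51 (n 0 (n 0 z (n 0 z z)) (n 0 (n 0 z (n 0 z z)) (n 0 (n 0 z (n 0 z z)) (n 0 (n 0 z
 (n 0 z z)) (n 0 (n 0 z (n 0 z z)) (n 0 (n 0 z (n 0 z z)) z)))))) (n 3 (n 0 (n 0 z (n 0 z z)) (n
 0 (n 0 z (n 0 z z)) (n 0 (n 0 z (n 0 z z)) (n 0 (n 0 z (n 0 z z)) (n 0 (n 0 z (n 0 z z)) (n 0
 (n 0 z (n 0 z z)) (n 0 (n 0 z (n 0 z z)) (n 0 (n 0 z (n 0 z z)) (n 0 (n 0 z (n 0 z z)) (n 0 (n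
 0 z (n 0 z z)) (n 0 (n 0 z (n 0 z z)) (n 0 (n 0 z (n 0 z z)) (n 0 (n 0 z (n 0 z z)) (n 0 (n 0 z
 (n 0 z z)) z)))))))))))))) (n 1 (n 0 (n 0 z (n 0 z z)) (n 0 (n 0 z (n 0 z z)) (n 0 (n 0 z (n 0
 z z)) (n 0 (n 0 z (n 0 z z)) (n 0 (n 0 z (n 0 z z)) z))))) (n 0 (n 0 (n 0 z (n 0 z z)) (n 0 (n
 0 z (n 0 z z)) (n 0 (n 0 z (n 0 z z)) (n 0 (n 0 z (n 0 z z)) (n 0 (n 0 z (n 0 z z)) (n 0 (n 0 z
 (n 0 z z)) (n 0 (n 0 z (n 0 z z)) z))))))) z))))))))))))))))))))) z)))) z) z)))) (n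
 0x6a93a31ced18d2ee0eab3055a8c549c429663c126d1059650313c906928c1291a41392a11 (n 0 (n 177 (n 0 z
 (n 3282443 z (n 0 z z))) (n 263 (n 6631747 z (n 0 z (n 2 z (n 0 z (n 10 z z))))) (n 129 (n
 3212843 z (n 0 z (n 18 z (n 26 z z)))) (n 27 (n 34 z (n 0 z (n 0 z (n 0 z (n 0 z (n 42 z (n 0 z
 (n 0 z (n 50 z (n 0 z (n 0 z (n 0 z (n 0 z (n 0 z (n 0 z (n 0 z (n 0 z (n 0 z (n 0 z (n 0 z (n
 0 z (n 0 z (n
 0x10a6507e88257db82280282182d7b47f17e780882880f8007e77d17ff81e7ef8247f781f8387eb7ea86b7ce8497c57e682881a7f27d07c17f27e48177e07fc7b08827ca84582c82e7eb7f98167fb0051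
 z (n 0 z (n 6631747 z (n 0 z z)))))))))))))))))))))))))) (n 1 (n 58 z (n 66 z (n 0 z (n 0 z (n
 2164299 z (n 74 z (n 82 z z))))))) (n 0 (n 0 z (n 0 z (n
 0x154c8031a990069532000aa6000f14c0086b1004746200856c400a89880064b1000386208a17bc85e7f184372066f8f17d58f687077d6f180c7de9476807987fb7a37b376c7cb84799a6e185976f8938577f16e57cd86a90b81678977289b7c49396e59aa6108636a99837fb7a081f02d1
 z (n 0 z (n 0 z (n 6631747 z (n 90 z (n 98 z (n 0 z (n 0 z (n 0 z (n 0 z (n 106 z (n 0 z (n 0 z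
 (n 0 z z)))))))))))))))) z)))))) (n 177 (n 0 (n 0 z (n 31 (n 0 z (n 2 (n 0 z (n 1 z (n 1 z (n 1
 z (n 1 z (n 1 z (n 1 z (n 1 z (n 1 z (n 2 (n 0 z (n 0 z (n 0 z (n 0 z (n 0 z (n 0 z z)))))) (n
 1 z z))))))))))) (n 0 z (n 0 z (n 0 z (n 0 z z)))))) (n 31 (n 0 z (n 0 z (n 0 z (n 0 z (n 0 z
 (n 0 z z)))))) (n 525 (n 0 z (n 0 z (n 0 z (n 0 z (n 0 z (n 7750403 z (n 0 z z))))))) (n 525 (n
 0 z (n 2 (n 0 z (n 1 z (n 1 z (n 1 z (n 1 z (n 1 z (n 2 (n 0 z (n 0 z (n 0 z (n 0 (n 308 z z)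
 (n 0 z (n 0 z z)))))) (n 1 z z)))))))) (n 0 z (n 0 z (n 0 z (n 0 z (n 0 z z))))))) (n 525 (n 0
 z (n 0 z (n 0 z (n 0 z (n 0 z (n 0 z (n 2 (n 1 z (n 1 z (n 1 z (n 1 z (n 2 (n 0 z (n 0 z (n 0 z
 (n 0 z (n 0 z (n 0 z z)))))) (n 2 (n 0 z (n 0 z (n 0 z (n 0 z (n 0 z (n 0 z z)))))) (n 1 z
 z))))))) z))))))) (n 521 (n 0 z (n 0 z (n 0 z (n 2 (n 0 z (n 0 z (n 0 z (n 1 z (n 2 (n 0 z (n 0
 z (n 0 z (n 0 z (n 0 z (n 0 z z)))))) (n 1 z z)))))) (n 0 z (n 0 z (n 0 z (n 0 z (n 0 z (n 0 z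
 (n 0 z (n 0 z (n 0 z z))))))))))))) (n 521 (n 0 z (n 0 z (n 0 z (n 0 z (n 0 z (n 0 z (n 0 z (n
 0 z (n 0 z (n 0 z (n 0 z (n 0 z (n 2 (n 0 z (n 0 z (n 2 (n 0 z (n 0 z (n 0 z (n 0 (n 308 z z)
 (n 0 z (n 0 z z)))))) (n 2 (n 0 z (n 0 z (n 0 z (n 0 z (n 0 z (n 0 z z)))))) (n 1 z z)))))
 z))))))))))))) (n 521 (n 0 z (n 0 z (n 0 z (n 0 z (n 0 z (n 0 z (n 0 z (n 0 z (n 0 z (n 0 z (n
 0 z (n 0 z (n 0 z z))))))))))))) (n 521 (n 0 z (n 0 z (n 0 z (n 0 z (n 0 z (n 0 z (n 0 z (n 0 z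
 (n 0 z (n 0 z (n 0 z (n 2 (n 2 (n 0 z (n 0 z (n 0 z (n 0 (n 8726379 z z) (n 0 z (n 0 z z))))))
 (n 2 (n 0 z (n 0 z (n 0 z (n 0 (n 8726379 z z) (n 0 z (n 0 z z)))))) (n 1 z z))) (n 0 z
 z))))))))))))) (n 77 (n 0 z (n 0 z (n 0 z (n 0 z (n 0 z (n 0 z (n 0 z (n 0 z (n 2 (n 0 z (n 0 z
 z)) (n 0 z (n 0 z (n 0 z z)))))))))))) (n 77 (n 0 z (n 0 z (n 0 z (n 0 z (n 0 z (n 2 (n 0 z z)
 (n 0 z (n 0 z (n 0 z (n 0 z (n 0 z (n 0 z z)))))))))))) (n 77 (n 0 z (n 0 z (n 0 z (n 0 z (n 0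
 z (n 0 z (n 0 z (n 0 z (n 0 z (n 0 z (n 2 z (n 0 z z)))))))))))) z))))))))))))) (n 0 (n 275 (n
 0 z (n 0 z (n 0 z (n 0 z (n 7741699 z (n 0 z (n 0 z (n 0 z (n 0 z (n 0 z z)))))))))) (n 275 (n
 0 z (n 2 (n 1 z (n 1 z (n 1 z (n 1 z (n 1 z (n 1 z (n 1 z (n 1 z (n 2 (n 0 z (n 0 z (n 0 z (n 0
 (n 980 z z) (n 0 z (n 0 z z)))))) (n 1 z z)))))))))) (n 0 z (n 0 z (n 0 z (n 0 z (n 0 z (n 0 z
 (n 0 z (n 0 z z)))))))))) (n 247 (n 0 z (n 0 z (n 0 z (n 0 z (n 0 z (n 0 z (n 0 z (n 0 z (n 0 z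
 (n 0 z (n 0 z (n 0 z (n 0 z (n 0 z (n 0 z (n 0 z (n 0 z (n 0 z (n 0 z (n 0 z (n 0 z (n 0 z (n 0
 z (n 0 z (n 0 z (n 0 z (n 0 z (n 0 z (n 0 z (n 0 z (n 0 z (n 0 z (n 0 z
 z))))))))))))))))))))))))))))))))) (n 247 (n 0 z (n 0 z (n 0 z (n 0 z (n 0 z (n 0 z (n 0 z (n 0
 z (n 0 z (n 0 z (n 0 z (n 0 z (n 0 z (n 0 z (n 0 z (n 0 z (n 0 z (n 0 z (n 0 z (n 0 z (n 0 z (n
 0 z (n 0 z (n 0 z (n 0 z (n 0 z (n 0 z (n 0 z (n 0 z (n 0 z (n 0 z (n 0 z (n 0 z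
 z))))))))))))))))))))))))))))))))) (n 247 (n 0 z (n 0 z (n 0 z (n 0 z (n 0 z (n 0 z (n 0 z (n 0
 z (n 0 z (n 2 (n 1 z (n 1 z (n 1 z (n 1 z (n 1 z (n 2 (n 0 z (n 0 z (n 0 z (n 0 (n 980 z z) (n
 0 z (n 0 z z)))))) (n 1 z z))))))) (n 0 z (n 0 z (n 0 z (n 0 z (n 0 z (n 0 z (n 0 z (n 0 z (n 0
 z (n 0 z (n 0 z (n 0 z (n 0 z (n 0 z (n 0 z (n 0 z (n 0 z (n 0 z (n 0 z (n 0 z (n 0 z (n 0 z (n
 0 z z))))))))))))))))))))))))))))))))) (n 537 (n 0 z (n 0 z (n 0 z (n 0 z (n 0 z (n 0 z (n 0 z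
 (n 0 z (n 0 z (n 0 z (n 0 z z))))))))))) (n 537 (n 0 z (n 0 z (n 0 z (n 0 z (n 0 z (n 0 z (n 2
 (n 0 z (n 0 z (n 1 z (n 1 z (n 1 z z))))) (n 0 z (n 0 z (n 0 z (n 0 z z))))))))))) (n 537 (n 0
 z (n 0 z (n 0 z (n 2 (n 0 z (n 1 z (n 2 (n 0 z (n 0 z (n 0 z (n 0 (n 980 z z) (n 0 z (n 0 z
 z)))))) (n 1 z z)))) (n 0 z (n 0 z (n 0 z (n 0 z (n 0 z (n 0 z (n 0 z z))))))))))) (n 537 (n 0
 z (n 0 z (n 0 z (n 0 z (n 2 (n 1 z (n 1 z (n 1 z z))) (n 0 z (n 0 z (n 0 z (n 0 z (n 0 z (n 0 z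
 z))))))))))) (n 245 (n 0 z (n 0 z (n 0 z (n 0 z (n 0 z (n 0 z z)))))) (n 245 (n 0 z (n 0 z (n 0
 z (n 0 z (n 0 z (n 0 z z)))))) (n 245 (n 0 z (n 0 z (n 2 z (n 0 z (n 0 z (n 0 z z))))))
 z)))))))))))) (n 0 (n 0 z (n 491 (n 0 z (n 0 z (n
 0x4aea6ca28038028137fd80081b7f48167f48348007d28108058008098058068067f37e98157ad8077c98338177f880b81180e7e77dc7f281682a8267df7e98048107da7e57e47c67fe7eb8527eb7cf82f0811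
 z (n 0 z (n 0 z (n 0 z (n 0 z (n 0 z (n 0 z (n 0 z (n 0 z (n 0 z (n 0 z (n 0 z (n 0 z (n 0 z (n
 0 z (n 0 z (n 0 z (n 0 z (n 0 z (n 0 z z)))))))))))))))))))))) (n 491 (n 7741699 z (n 0 z (n 0
 z (n 0 z (n 0 z (n 0 z (n 0 z (n 0 z (n 0 z (n 0 z (n 0 z (n 0 z (n 0 z (n 0 z (n 0 z (n 0 z (n
 0 z (n 0 z (n 0 z (n 0 z (n 0 z (n 0 z z)))))))))))))))))))))) (n 491 (n 0 z (n 0 z (n 0 z (n 0
 z (n 0 z (n 0 z (n 0 z (n 0 z (n 0 z (n 0 z (n 0 z (n 0 z (n 0 z (n 0 z (n 0 z (n 0 z (n 2 (n 1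
 z (n 1 z (n 2 (n 0 z (n 0 z (n 0 z (n 0 (n 972 z (n 7735371 z z)) (n 0 z (n 0 (n 972 z z)
 z)))))) (n 2 (n 0 z (n 0 z (n 0 z (n 0 z (n 0 z (n 0 z z)))))) (n 1 z (n 2 (n 0 z (n 0 (n 964 z
 z) (n 0 (n 964 z z) (n 0 (n 964 z (n 8791835 z z)) (n 0 z (n 0 z z)))))) (n 2 (n 0 z (n 0 z (n
 0 z (n 0 (n 8847899 z (n 8847899 z z)) (n 0 z (n 0 (n 8847899 z z) z)))))) z))))))) (n 0 z (n 0
 z (n 0 z (n 0 z (n 0 z z)))))))))))))))))))))) (n 243 (n 7741699 z (n 0 z (n 0 z (n 0 z (n 0 z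
 (n 0 z (n 0 z (n 0 z (n 0 z (n 0 z z)))))))))) (n 243 (n 0 z (n 0 z (n 2 (n 0 z (n 0 z (n 1 z
 (n 2 (n 0 z (n 0 z (n 0 z (n 0 z (n 0 z (n 0 z z)))))) (n 1 z z))))) (n 0 z (n 0 z (n 0 z (n 0
 z (n 0 z (n 0 z (n 0 z z)))))))))) (n 243 (n 0 z (n 0 z (n 0 z (n 0 z (n 0 z (n 0 z (n 2 (n 0 z
 (n 2 (n 0 z (n 0 z (n 0 z (n 0 (n 8794131 z (n 8794131 z z)) (n 0 z (n 0 (n 8794131 z z)
 z)))))) (n 2 (n 0 (n 964 z z) (n 0 z (n 0 z (n 0 (n 8718139 z (n 964 z z)) (n 0 (n 964 z z) (n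
 0 z z)))))) (n 2 (n 0 z (n 0 z (n 0 z (n 0 (n 964 z (n 964 z z)) (n 0 z (n 0 (n 964 z z)
 z)))))) z)))) (n 0 z (n 0 z (n 0 z z)))))))))) (n 243 (n 0 z (n 0 z (n 0 z (n 0 z (n 0 z (n 0 z
 (n 0 z (n 2 (n 2 (n 0 z (n 0 z (n 0 z (n 0 (n 8794131 z (n 8794131 z z)) (n 0 z (n 0 (n 8794131
 z z) z)))))) (n 2 (n 0 (n 8853051 z z) (n 0 z (n 0 z (n 0 (n 8804155 z (n 964 z z)) (n 0 (n 964
 z z) (n 0 z z)))))) (n 2 (n 0 z (n 0 z (n 0 z (n 0 z (n 0 z (n 0 z z)))))) z))) (n 0 z (n 0 z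
 z)))))))))) (n 241 (n 0 z (n 0 z (n 0 z (n 0 z (n 0 z (n 0 z z)))))) (n 241 (n 0 z (n 0 z (n 0
 z (n 0 z (n 0 z (n 0 z z)))))) (n 241 (n 0 z (n 0 z (n 0 z (n 0 z (n 0 z (n 2 z z))))))
 z))))))))))) (n 0 (n 7 (n 0 z (n 0 z (n 7750403 z (n 0 z (n 0 z (n 0 z (n 0 z (n 0 z (n 0 z (n
 0 z (n 0 z (n 0 z (n 0 z (n 0 z z)))))))))))))) (n 7 (n 0 z (n 0 z (n 0 z (n 0 z (n 0 z (n 0 z
 (n 2 (n 0 z (n 1 z (n 1 z (n 1 z (n 1 z (n 1 z (n 2 (n 0 z (n 0 z (n 0 z (n 0 (n 1012 z z) (n 0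
 z (n 0 z z)))))) (n 1 z z)))))))) (n 0 z (n 0 z (n 0 z (n 0 z (n 0 z (n 0 z (n 0 z
 z)))))))))))))) (n 7 (n 0 z (n 0 z (n 0 z (n 0 z (n 0 z (n 0 z (n 0 z (n 0 z (n 0 z (n 0 z (n 2
 (n 1 z (n 1 z (n 1 z (n 1 z (n 2 (n 0 z (n 0 z (n 0 z (n 0 z (n 0 z (n 0 z z)))))) (n 2 (n 0 z
 (n 0 z (n 0 z (n 0 z (n 0 z (n 0 z z)))))) (n 1 z z))))))) (n 0 z (n 0 z (n 0 z z))))))))))))))
 (n 255 (n 0 z (n 2 (n 0 z (n 0 z (n 0 z (n 1 z (n 2 (n 0 z (n 0 z (n 0 z (n 0 z (n 0 z (n 0 z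
 z)))))) (n 1 z z)))))) (n 0 z (n 0 z (n 0 z (n 0 z (n 0 z (n 0 z (n 0 z z))))))))) (n 255 (n 0
 z (n 0 z (n 0 z (n 2 (n 0 z (n 0 z (n 2 (n 0 z (n 0 z (n 0 z (n 0 z (n 0 z (n 0 z z)))))) (n 2
 (n 0 z (n 0 z (n 0 z (n 0 z (n 0 z (n 0 z z)))))) (n 1 z z))))) (n 0 z (n 0 z (n 0 z (n 0 z (n
 0 z z))))))))) (n 255 (n 0 z (n 0 z (n 0 z (n 0 z (n 0 z (n 0 z (n 0 z (n 0 z (n 0 z z)))))))))
 (n 255 (n 0 z (n 0 z (n 0 z (n 0 z (n 0 z (n 0 z (n 0 z (n 0 z (n 2 (n 2 (n 0 z (n 0 z (n 0 z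
 (n 0 z (n 0 z (n 0 z z)))))) (n 2 (n 0 z (n 0 z (n 0 z (n 0 z (n 0 z (n 0 z z)))))) (n 1 z z)))
 z))))))))) (n 253 (n 0 z (n 0 z (n 0 z (n 0 z (n 0 z (n 0 z (n 2 (n 0 z (n 0 z z)) (n 0 z (n 0
 z z))))))))) (n 253 (n 0 z (n 0 z (n 0 z (n 0 z (n 0 z (n 2 (n 0 z z) (n 0 z (n 0 z (n 0 z
 z))))))))) (n 253 (n 0 z (n 0 z (n 0 z (n 0 z (n 0 z (n 0 z (n 0 z (n 0 z (n 2 z z)))))))))
 z)))))))))) (n 0 (n 0 z (n 0 z (n 613 (n 0 z (n 0 z (n 0 z (n 0 z (n 0 z (n 0 z (n 0 z (n 0 z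
 (n 0 z (n 0 z (n 0 z (n 0 z (n 0 z z))))))))))))) (n 613 (n 0 z (n 2 (n 0 z (n 0 z (n 1 z (n 2
 (n 0 z (n 0 z (n 0 z (n 0 z (n 0 z (n 0 z z)))))) (n 1 z z))))) (n 0 z (n 0 z (n 0 z (n 0 z (n
 0 z (n 0 z (n 0 z (n 0 z (n 0 z (n 0 z (n 0 z z))))))))))))) (n 613 (n 0 z (n 0 z (n 0 z (n
 7750403 z (n 0 z (n 0 z (n 0 z (n 0 z (n 0 z (n 0 z (n 0 z (n 0 z (n 0 z z))))))))))))) (n 613
 (n 0 z (n 0 z (n 0 z (n 0 z (n 0 z (n 0 z (n 0 z (n 0 z (n 0 z (n 0 z (n 0 z (n 0 z (n 0 z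
 z))))))))))))) (n 49 (n 0 z (n 0 z (n 0 z (n 0 z (n 0 z (n 0 z (n 0 z (n 0 z (n 0 z (n 0 z (n 2
 (n 0 z (n 0 z z)) z))))))))))) (n 49 (n 0 z (n 0 z (n 0 z (n 0 z (n 0 z (n 0 z (n 0 z (n 0 z (n
 0 z (n 0 z (n 0 z z))))))))))) (n 49 (n 0 z (n 0 z (n 0 z (n 0 z (n 0 z (n 0 z (n 0 z (n 0 z (n
 0 z (n 2 z (n 0 z z))))))))))) z))))))))) (n 0 (n 0 z (n 585 (n 0 z (n 0 z (n 0 z (n 0 z (n 0 z
 (n 0 z (n 0 z (n 0 z (n 0 z (n 0 z (n 0 z (n 0 z (n 0 z (n 0 z (n 0 z (n 0 z (n 0 z (n 0 z (n 0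
 z (n 0 z (n 0 z (n 0 z (n 0 z (n 0 z (n 0 z (n 0 z (n 0 z (n 0 z (n 0 z (n 0 z (n 0 z (n 0 z (n
 0 z z))))))))))))))))))))))))))))))))) (n 585 (n 0 z (n 0 z (n 0 z (n 0 z (n 0 z (n 0 z (n 0 z
 (n 0 z (n 0 z (n 0 z (n 0 z (n 0 z (n 0 z (n 0 z (n 0 z (n 0 z (n 0 z (n 0 z (n 0 z (n 0 z (n 0
 z (n 0 z (n 0 z (n 0 z (n 0 z (n 0 z (n 0 z (n 0 z (n 0 z (n 0 z (n 0 z (n 0 z (n 0 z
 z))))))))))))))))))))))))))))))))) (n 585 (n 0 z (n 0 z (n 0 z (n 0 z (n 0 z (n 0 z (n 0 z (n 0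
 z (n 0 z (n 2 (n 0 z (n 1 z (n 2 (n 0 z (n 0 z (n 0 z (n 0 z (n 0 z (n 0 z z)))))) (n 1 z z))))
 (n 0 z (n 0 z (n 0 z (n 0 z (n 0 z (n 0 z (n 0 z (n 0 z (n 0 z (n 0 z (n 0 z (n 0 z (n 0 z (n 0
 z (n 0 z (n 0 z (n 0 z (n 0 z (n 0 z (n 0 z (n 0 z (n 0 z (n 0 z
 z))))))))))))))))))))))))))))))))) (n 585 (n 0 z (n 0 z (n 0 z (n 0 z (n 0 z (n 0 z (n 0 z (n 2
 (n 1 z (n 2 (n 0 z (n 0 z (n 0 z (n 0 z (n 0 z (n 0 z z)))))) (n 2 (n 0 z (n 0 z (n 0 z (n 0 z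
 (n 0 z (n 0 z z)))))) z))) (n 0 z (n 0 z (n 0 z (n 0 z (n 0 z (n 0 z (n 0 z (n 0 z (n 0 z (n 0
 z (n 0 z (n 0 z (n 0 z (n 0 z (n 0 z (n 0 z (n 0 z (n 0 z (n 0 z (n 0 z (n 0 z (n 0 z (n 0 z (n
 0 z (n 0 z z))))))))))))))))))))))))))))))))) (n 61 (n 0 z (n 0 z (n 0 z (n 0 z (n 0 z (n 0 z
 (n 0 z (n 0 z (n 0 z (n 0 z (n 0 z (n 0 z (n 0 z (n 0 z (n 0 z (n 0 z (n 0 z (n 0 z (n 0 z (n 0
 z (n 0 z (n 0 z (n 0 z (n 0 z (n 0 z (n 0 z (n 0 z (n 0 z (n 0 z (n 0 z (n 0 z (n 0 z (n 0 z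
 z))))))))))))))))))))))))))))))))) (n 61 (n 0 z (n 0 z (n 0 z (n 0 z (n 0 z (n 0 z (n 0 z (n 0
 z (n 0 z (n 0 z (n 0 z (n 0 z (n 0 z (n 0 z (n 0 z (n 0 z (n 0 z (n 0 z (n 0 z (n 0 z (n 0 z (n
 0 z (n 0 z (n 0 z (n 0 z (n 0 z (n 0 z (n 0 z (n 0 z (n 0 z (n 0 z (n 0 z (n 0 z
 z))))))))))))))))))))))))))))))))) (n 61 (n 0 z (n 0 z (n 0 z (n 0 z (n 0 z (n 0 z (n 0 z (n 0
 z (n 0 z (n 0 z (n 0 z (n 0 z (n 0 z (n 0 z (n 0 z (n 0 z (n 0 z (n 0 z (n 0 z (n 2 z (n 0 z (n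
 0 z (n 0 z (n 0 z (n 0 z (n 0 z (n 0 z (n 0 z (n 0 z (n 0 z (n 0 z (n 0 z (n 0 z
 z))))))))))))))))))))))))))))))))) z)))))))) (n 0 (n 57 (n 0 z (n 0 z (n 0 z (n 0 z (n 0 z (n 0
 z (n 0 z (n 0 z (n 0 z (n 0 z (n 0 z (n 0 z (n 0 z (n 0 z (n 0 z (n 0 z (n 0 z (n 0 z (n 0 z (n
 0 z (n 0 z (n 0 z z)))))))))))))))))))))) (n 57 (n 0 z (n 0 z (n 0 z (n 0 z (n 0 z (n 0 z (n 0
 z (n 0 z (n 0 z (n 0 z (n 0 z (n 0 z (n 0 z (n 0 z (n 0 z (n 0 z (n 0 z (n 0 z (n 0 z (n 0 z (n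
 0 z (n 0 z z)))))))))))))))))))))) (n 57 (n 0 z (n 0 z (n 0 z (n 0 z (n 0 z (n 0 z (n 0 z (n 0
 z (n 0 z (n 0 z (n 0 z (n 0 z (n 0 z (n 0 z (n 0 z (n 0 z (n 0 z (n 0 z (n 0 z (n 0 z (n 0 z (n
 2 (n 0 z (n 2 (n 0 z (n 0 z (n 0 z (n 0 z (n 0 z (n 0 z z)))))) (n 2 (n 0 z (n 0 z (n 0 z (n 0
 z (n 0 z (n 0 z z)))))) (n 1 z z)))) z)))))))))))))))))))))) (n 57 (n 0 z (n 0 z (n 0 z (n 0 z
 (n 0 z (n 0 z (n 0 z (n 0 z (n 0 z (n 0 z (n 2 (n 2 (n 0 z (n 0 z (n 0 z (n 0 z (n 0 z (n 0 z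
 z)))))) (n 2 (n 0 z (n 0 z (n 0 z (n 0 z (n 0 z (n 0 z z)))))) (n 1 z z))) (n 0 z (n 0 z (n 0 z
 (n 0 z (n 0 z (n 0 z (n 0 z (n 0 z (n 0 z (n 0 z (n 0 z z)))))))))))))))))))))) (n 53 (n 0 z (n
 0 z (n 0 z (n 2 (n 0 z (n 0 z z)) (n 0 z (n 0 z (n 0 z (n 0 z (n 0 z (n 0 z (n 0 z z)))))))))))
 (n 53 (n 0 z (n 0 z (n 0 z (n 0 z (n 0 z (n 0 z (n 0 z (n 0 z (n 0 z (n 0 z (n 2 (n 0 z z)
 z))))))))))) (n 53 (n 0 z (n 0 z (n 0 z (n 0 z (n 0 z (n 0 z (n 0 z (n 0 z (n 0 z (n 0 z (n 0 z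
 z))))))))))) z))))))) (n 0 (n 0 z (n 0 z (n 0 z (n 73 (n 0 z (n 0 z (n 0 z (n 0 z (n 0 z (n 0 z
 (n 0 z (n 0 z (n 0 z (n 0 z (n 0 z (n 0 z (n 0 z z))))))))))))) (n 73 (n 0 z (n 0 z (n 0 z (n 0
 z (n 0 z (n 0 z (n 0 z (n 0 z (n 0 z (n 0 z (n 0 z (n 0 z (n 0 z z))))))))))))) (n 73 (n 0 z (n
 0 z (n 0 z (n 0 z (n 2 z (n 0 z (n 0 z (n 0 z (n 0 z (n 0 z (n 0 z (n 0 z (n 0 z z)))))))))))))
 z)))))) (n 0 (n 0 z (n 0 z (n 253 (n 0 z (n 0 z (n 0 z (n 0 z (n 2 (n 0 z (n 0 z z)) (n 0 z (n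
 0 z (n 0 z (n 0 z (n 0 z (n 0 z z))))))))))) (n 253 (n 0 z (n 0 z (n 0 z (n 0 z (n 0 z (n 0 z
 (n 0 z (n 0 z (n 0 z (n 0 z (n 2 (n 0 z z) z))))))))))) (n 253 (n 0 z (n 0 z (n 0 z (n 0 z (n 0
 z (n 0 z (n 0 z (n 0 z (n 0 z (n 0 z (n 0 z z))))))))))) z))))) (n 0 (n 0 z (n 1 (n 0 z (n 0 z
 (n 0 z (n 0 z (n 0 z (n 0 z (n 0 z (n 2 (n 0 z (n 0 z z)) (n 0 z (n 0 z (n 0 z z))))))))))) (n
 1 (n 0 z (n 0 z (n 0 z (n 2 (n 0 z z) (n 0 z (n 0 z (n 0 z (n 0 z (n 0 z (n 0 z (n 0 z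
 z))))))))))) (n 1 (n 0 z (n 0 z (n 0 z (n 0 z (n 0 z (n 0 z (n 0 z (n 0 z (n 0 z (n 2 z (n 0 z
 z))))))))))) z)))) (n 0 (n 253 (n 0 z (n 0 z (n 0 z (n 0 z (n 0 z (n 0 z (n 0 z (n 0 z (n 0 z
 (n 0 z (n 0 z (n 0 z (n 0 z (n 0 z (n 0 z (n 0 z z)))))))))))))))) (n 253 (n 0 z (n 0 z (n 0 z
 (n 0 z (n 0 z (n 2 (n 0 z z) (n 0 z (n 0 z (n 0 z (n 0 z (n 0 z (n 0 z (n 0 z (n 0 z (n 0 z (n
 0 z z)))))))))))))))) (n 253 (n 0 z (n 0 z (n 0 z (n 0 z (n 0 z (n 0 z (n 0 z (n 0 z (n 0 z (n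
 0 z (n 0 z (n 0 z (n 0 z (n 0 z (n 0 z (n 0 z z)))))))))))))))) z))) (n 0 (n 0 z (n 0 z z)) (n
 0 (n 0 z z) (n 0 z z)))))))))))))) (n 0 (n 0 z (n 1 (n 3282443 z (n 3282443 z (n 3282443 z (n
 3282443 z (n 3282443 z (n 3282443 z z)))))) (n 0 z z))) (n 0 z z)))) (n
 0x5d53a1a455a2d52409152b1547184538842da41b8e52c525982948b10dc9502bb500916c0 (n 0 (n 299 (n 0 z
 (n 0 z (n
 0x2ca4ca4203807f7f7f7f7f80808081808080808181807f8080818180808080808080808080807f807f808080807f8081808080808080800809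
 z (n 2 z (n 0 z (n 0 z (n 10 z (n 0 z (n 0 z (n
 0x995195040e0eca4a84203936e839f788a5d8c5e87697697948b7d678e86698775946d82788280887f7d7d7475a87e797577a0768a83817c818a8855771009
 z (n
 0x2c84c84203807f7f7f80808080808081817f8180808080807f808081808081808180808080808080807f808080818080818080808180800809
 z (n 0 z (n 6557747 z (n 18 z (n 0 z (n 0 z (n 0 z z))))))))))))))))) (n 293 (n 0 z (n 0 z (n
 26 z (n 0 z (n 0 z (n 0 z (n 0 z (n 34 z (n 0 z (n 0 z (n 6557747 z (n 42 z z)))))))))))) (n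
 129 (n 0 z (n 0 z (n 0 z (n 0 z (n 3212843 z z))))) (n 3 (n 50 z (n 0 z (n 0 z (n
 0x1eca4ca40038c7276947a80737f6c816a7b8a93968273866f5c966e9272846578708a837bab8476a26887697a9a6e8887847c8582875f7a0809
 z (n 0 z (n 2164283 z (n 58 z (n 66 z (n 74 z z))))))))) (n 1 (n 6557747 z (n 82 z (n 0 z (n 90
 z z)))) (n 0 (n 2164315 z (n 98 z (n 0 z (n 106 z (n 0 z (n 0 z (n 0 z z))))))) z)))))) (n 1 (n
 0 (n 0 z (n 0 z (n 143 (n 0 z (n 0 z (n 0 z (n 0 z (n 0 z (n 0 z (n 0 z (n 0 z (n 0 z (n 0 z (n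
 0 z (n 0 z z)))))))))))) (n 143 (n 0 z (n 0 z (n 0 z (n 0 z (n 0 z (n 2 (n 0 z (n 2 (n 0 z (n 0
 z (n 0 z (n 0 z (n 0 z (n 0 z z)))))) (n 2 (n 0 z (n 0 z (n 0 z (n 0 z (n 0 z (n 0 z z)))))) (n
 2 (n 0 z (n 0 z (n 0 z (n 0 z (n 0 z (n 0 z z)))))) (n 2 (n 0 z (n 0 z (n 0 z (n 0 z (n 0 z (n
 0 z z)))))) (n 2 (n 0 z (n 0 z (n 0 z (n 0 z (n 0 z (n 0 z z)))))) (n 2 (n 0 z (n 0 z (n 0 z (n
 0 z (n 0 z (n 0 z z)))))) (n 2 (n 0 z (n 0 z (n 0 z (n 0 z (n 0 z (n 0 z z)))))) (n 2 (n 0 z (n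
 0 z (n 0 z (n 0 z (n 0 z (n 0 z z)))))) z))))))))) (n 0 z (n 0 z (n 0 z (n 0 z (n 0 z (n 0 z
 z)))))))))))) (n 143 (n 0 z (n 0 z (n 0 z (n 2 (n 1 z (n 2 (n 0 z (n 0 z (n 0 z (n 0 z (n 0 z
 (n 0 z z)))))) (n 2 (n 0 z (n 0 z (n 0 z (n 0 z (n 0 z (n 0 z z)))))) (n 1 z (n 2 (n 0 z (n 0 z
 (n 0 z (n 0 z (n 0 z (n 0 z z)))))) (n 1 z (n 2 (n 0 z (n 0 z (n 0 z (n 0 z (n 0 z (n 0 (n
 8595307 z z) z)))))) (n 2 (n 0 (n 8855619 z z) (n 0 z (n 0 z (n 0 z (n 0 z (n 0 (n 8855619 z (n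
 8855619 z z)) z)))))) z)))))))) (n 0 z (n 0 z (n 0 z (n 0 z (n 0 z (n 0 z (n 0 z (n 0 z
 z)))))))))))) (n 181 (n 0 z (n 0 z (n 0 z (n 0 z (n 0 z (n 0 z (n 0 z (n 0 z (n 0 z (n 0 z (n 0
 z z))))))))))) (n 181 (n 0 z (n 0 z (n 0 z (n 0 z (n 2 (n 0 z (n 0 z (n 1 z (n 1 z (n 1 z (n 2
 (n 0 z (n 0 z (n 0 z (n 0 z (n 0 z (n 0 z z)))))) z)))))) (n 0 z (n 0 z (n 0 z (n 0 z (n 0 z (n
 0 z z))))))))))) (n 181 (n 2 (n 0 z (n 1 z (n 2 (n 0 z (n 0 z (n 0 z (n 0 z (n 0 z (n 0 (n 548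
 z z) z)))))) (n 1 z (n 2 (n 0 z (n 0 z (n 0 (n 8791867 z z) (n 0 z (n 0 (n 8791867 z z) (n 0 (n
 8525579 z (n 2948 z z)) z)))))) z))))) (n 0 z (n 0 z (n 0 z (n 0 z (n 0 z (n 0 z (n 0 z (n 0 z
 (n 0 z (n 0 z z))))))))))) (n 181 (n 0 z (n 0 z (n 0 z (n 0 z (n 0 z (n 0 z (n 0 z (n 0 z (n 0
 z (n 0 z (n 0 z z))))))))))) (n 137 (n 2 (n 0 z (n 1 z (n 1 z z))) (n 0 z (n 0 z (n 0 z (n 0 z
 (n 0 z (n 0 z (n 0 z (n 0 z (n 0 z (n 0 z (n 0 z z)))))))))))) (n 137 (n 0 z (n 0 z (n 0 z (n 2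
 (n 1 z (n 1 z z)) (n 0 z (n 0 z (n 0 z (n 0 z (n 0 z (n 0 z (n 0 z (n 0 z z)))))))))))) (n 737
 (n 0 z (n 2 (n 0 z z) (n 6496371 z (n 0 z (n 0 z (n 0 z (n 0 z (n 0 z (n 0 z (n 0 z (n 0 z (n 0
 z (n 0 z (n 0 z (n 0 z (n 0 z (n 0 z (n 0 z (n 0 z (n 0 z (n 0 z (n 0 z (n 0 z (n 0 z (n 0 z
 z))))))))))))))))))))))))) (n 737 (n 0 z (n 0 z (n 0 z (n 2 z (n 0 z (n 0 z (n 0 z (n 0 z (n 0
 z (n 0 z (n 0 z (n 0 z (n 0 z (n 0 z (n 0 z (n 0 z (n 0 z (n 0 z (n 0 z (n 0 z (n 0 z (n 0 z (n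
 0 z (n 0 z (n 0 z z))))))))))))))))))))))))) z))))))))))))) (n 0 (n 0 z (n 1431 (n 0 z (n 0 z
 (n 2 (n 0 z (n 0 z (n 1 z (n 1 z (n 1 z (n 1 z (n 1 z (n 1 z (n 1 z (n 1 z z)))))))))) (n 0 z
 (n 0 z (n 0 z (n 0 z (n 0 z (n 0 z (n 0 z (n 0 z (n 0 z (n 0 z z))))))))))))) (n 1431 (n 0 z (n
 0 z (n 0 z (n 0 z (n 0 z (n 0 z (n 0 z (n 0 z (n
 0x2ec8ec840781828181818080807f807e7f807d807f7f817f817f8080828180817f807e8081817f80808080807f8181807f7f80808080800809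
 z (n 0 z (n 0 z (n 0 z (n 0 z z))))))))))))) (n 1431 (n 0 z (n 0 z (n 0 z (n
 0x2ecaeca403807f7f7f80808080808081817f8180808080807f808081808081808180808080808080807f808080818080818080808180800809
 z (n 0 z (n 0 z (n 0 z (n 0 z (n 0 z (n 0 z (n 0 z (n 0 z (n 0 z z))))))))))))) (n 27 (n 0 z (n
 0 z (n 0 z (n 0 z (n 0 z (n 0 z (n 0 z (n 0 z (n 0 z (n 0 z (n 0 z (n 0 z (n 0 z z)))))))))))))
 (n 27 (n 0 z (n 0 z (n 0 z (n 0 z (n 0 z (n 0 z (n 0 z (n 2 (n 0 z (n 0 z (n 1 z (n 1 z (n 2 (n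
 0 z (n 0 z (n 0 z (n 0 z (n 0 z (n 0 (n 100 z z) z)))))) (n 1 z z)))))) (n 0 z (n 0 z (n 0 z (n
 0 z (n 0 z z))))))))))))) (n 27 (n 0 z (n 0 z (n 0 z (n 0 z (n 0 z (n 2 (n 0 z (n 1 z (n 1 z (n
 1 z (n 1 z z))))) (n 0 z (n 0 z (n 0 z (n 0 z (n 0 z (n 0 z (n 0 z z))))))))))))) (n 27 (n 0 z
 (n 0 z (n 0 z (n 0 z (n 0 z (n 0 z (n 0 z (n 0 z (n 0 z (n 0 z (n 0 z (n 0 z (n 0 z
 z))))))))))))) (n 597 (n 0 z (n 0 z (n 2 (n 0 z (n 1 z (n 1 z z))) (n 0 z (n 0 z (n 0 z (n 0 z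
 (n 0 z (n 0 z (n 0 z (n 0 z (n 0 z (n 0 z z))))))))))))) (n 597 (n 0 z (n 0 z (n 0 z (n 0 z (n
 0 z (n 0 z (n 0 z (n 0 z (n 0 z (n 0 z (n 0 z (n 0 z (n 0 z z))))))))))))) (n 25 (n 0 z (n 0 z
 (n 0 z (n 2 (n 0 z z) (n 0 z (n 0 z (n 0 z (n 0 z (n 0 z (n 0 z (n 0 z (n 0 z (n 0 z (n 0 z (n
 0 z (n 0 z (n 0 z z))))))))))))))))) (n 25 (n 0 z (n 0 z (n 0 z (n 0 z (n 0 z (n 0 z (n 0 z (n
 0 z (n 0 z (n 0 z (n 0 z (n 0 z (n 0 z (n 7754787 z (n 0 z (n 0 z (n 0 z z)))))))))))))))))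
 z)))))))))))) (n 0 (n 827 (n 0 z (n 2 (n 0 z (n 0 z (n 1 z (n 1 z (n 1 z (n 1 z (n 1 z (n 1 z
 (n 1 z (n 1 z z)))))))))) (n 0 z (n 0 z (n 0 z (n 0 z (n 0 z z))))))) (n 827 (n 0 z (n 0 z (n 0
 z (n 0 z (n 0 z (n 0 z (n 0 z z))))))) (n 827 (n 0 z (n 0 z (n 0 z (n 0 z (n 0 z (n 0 z (n 2 (n
 2 (n 0 (n 1964 z z) (n 0 z (n 0 z (n 0 z (n 0 z (n 0 (n 1964 z (n 1964 z z)) z)))))) (n 2 (n 0
 (n 1964 z z) (n 0 z (n 0 (n 1964 z z) (n 0 z (n 0 z (n 0 (n 1964 z (n 1964 z z)) z)))))) (n 2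
 (n 0 (n 8794147 z z) (n 0 z (n 0 (n 8794147 z z) (n 0 z (n 0 z (n 0 (n 8794147 z (n 8794147 z
 z)) z)))))) (n 1 z (n 1 z (n 1 z (n 1 z (n 1 z z)))))))) z))))))) (n 491 (n 0 z (n 2 (n 0 z (n
 0 z (n 0 z (n 1 z (n 1 z (n 1 z (n 1 z z))))))) (n 0 z (n 0 z (n 0 z (n 0 z z)))))) (n 491 (n 0
 z (n 0 z (n 0 z (n 0 z (n 0 z (n 0 z z)))))) (n 491 (n 0 z (n 0 z (n 7745571 z (n 0 z (n 0 z (n
 0 z z)))))) (n 491 (n 0 z (n 0 z (n 0 z (n 0 z (n 0 z (n 0 z z)))))) (n 579 (n 0 z (n 0 z (n 0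
 z (n 0 z (n 7745571 z (n 0 z (n 0 z (n 0 z (n 0 z (n 0 z (n 0 z (n 0 z (n 0 z z))))))))))))) (n
 579 (n 0 z (n 0 z (n 0 z (n 0 z (n 0 z (n 0 z (n 0 z (n 0 z (n 0 z (n 0 z (n 0 z (n 0 z (n 0 z
 z))))))))))))) (n 577 (n 0 z (n 0 z (n 0 z (n 0 z (n 0 z (n 7745571 z (n 0 z (n 0 z (n 0 z (n 0
 z (n 0 z (n 0 z (n 0 z (n 0 z (n 0 z (n 0 z (n 0 z (n 0 z z)))))))))))))))))) (n 577 (n 0 z (n
 0 z (n 0 z (n 0 z (n 0 z (n 0 z (n 0 z (n 0 z (n 0 z (n 0 z (n 0 z (n 0 z (n 0 z (n 0 z (n 0 z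
 (n 0 z (n 0 z (n 0 z z)))))))))))))))))) z))))))))))) (n 0 (n 0 z (n 0 z (n 425 (n 0 z (n 0 z
 (n 0 z (n 0 z (n 0 z (n 0 z (n 0 z z))))))) (n 425 (n 0 z (n 0 z (n 0 z (n 0 z (n 0 z (n 0 z (n
 0 z z))))))) (n 425 (n 0 z (n 2 (n 0 z (n 1 z (n 1 z (n 1 z (n 2 (n 0 z (n 0 z (n 0 z (n 0 (n
 8791867 z z) (n 0 (n 8791867 z z) (n 0 (n 3140 z (n 3140 z z)) z)))))) z))))) (n 0 z (n 0 z (n
 0 z (n 0 z (n 0 z z))))))) (n 425 (n 0 z (n 0 z (n 0 z (n 0 z (n 2 (n 1 z (n 1 z (n 1 z (n 1 z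
 z)))) (n 0 z (n 0 z z))))))) (n 789 (n 0 z (n 2 (n 0 z (n 1 z (n 1 z z))) (n 0 z (n 0 z (n 0 z
 (n 0 z (n 0 z (n 0 z (n 0 z (n 0 z (n 0 z (n 0 z z)))))))))))) (n 789 (n 0 z (n 0 z (n 2 (n 1 z
 (n 1 z z)) (n 0 z (n 0 z (n 0 z (n 0 z (n 0 z (n 0 z (n 0 z (n 0 z (n 0 z z)))))))))))) (n 785
 (n 0 z (n 0 z (n 2 (n 0 z z) (n 0 z (n 0 z (n 0 z (n 0 z (n 0 z (n 0 z (n 0 z (n 0 z (n 0 z (n
 0 z (n 0 z z)))))))))))))) (n 785 (n 0 z (n 0 z (n 0 z (n 2 z (n 0 z (n 0 z (n 0 z (n 0 z (n 0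
 z (n 0 z (n 0 z (n 0 z (n 0 z (n 0 z z)))))))))))))) z)))))))))) (n 0 (n 0 z (n 1289 (n 0 z (n
 0 z (n 0 z (n 0 z (n 0 z (n 0 z (n 0 z (n 2 (n 0 z (n 0 z (n 0 z (n 2 (n 0 z (n 0 z (n 0 z (n 0
 z (n 0 z (n 0 z z)))))) (n 2 (n 0 z (n 0 z (n 0 z (n 0 z (n 0 z (n 0 (n 1508 z z) z)))))) (n 2
 (n 0 z (n 0 z (n 0 z (n 0 z (n 0 z (n 0 z z)))))) (n 2 (n 0 z (n 0 z (n 0 z (n 0 z (n 0 z (n 0
 z z)))))) z))))))) (n 0 z z))))))))) (n 1289 (n 0 z (n 0 z (n 0 z (n 0 z (n 0 z (n 2 (n 0 z (n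
 0 z (n 1 z (n 1 z (n 2 (n 0 z (n 0 z (n 0 z (n 0 z (n 0 z (n 0 z z)))))) (n 2 (n 0 z (n 0 (n
 3140 z z) (n 0 (n 3140 z z) (n 0 z (n 0 z (n 0 (n 3140 z (n 3140 z z)) z)))))) z)))))) (n 0 z
 (n 0 z (n 0 z z))))))))) (n 1289 (n 2 (n 0 z (n 2 (n 0 z (n 0 z (n 0 z (n 0 z (n 0 z (n 0 z
 z)))))) (n 2 (n 0 z (n 0 z (n 0 z (n 0 z (n 0 z (n 0 (n 1508 z z) z)))))) (n 2 (n 0 z (n 0 z (n
 0 z (n 0 z (n 0 z (n 0 z z)))))) (n 2 (n 0 z (n 0 z (n 0 z (n 0 z (n 0 z (n 0 z z)))))) z)))))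
 (n 0 z (n 0 z (n 0 z (n 0 z (n 0 z (n 0 z (n 0 z (n 0 z z))))))))) (n 1289 (n 0 z (n 0 z (n 0 z
 (n 0 z (n 0 z (n 0 z (n 0 z (n 0 z (n 0 z z))))))))) (n 377 (n 2 (n 0 z (n 1 z (n 2 (n 0 z (n 0
 (n 3140 z z) (n 0 z (n 0 z (n 0 (n 3140 z z) (n 0 (n 8593523 z (n 8587051 z z)) z)))))) z))) (n
 0 z (n 0 z (n 0 z (n 0 z (n 0 z (n 0 z (n 0 z (n 0 z (n 0 z (n 0 z (n 0 z (n 0 z z)))))))))))))
 (n 377 (n 0 z (n 0 z (n 0 z (n 0 z (n 0 z (n 0 z (n 0 z (n 0 z (n 0 z (n 0 z (n 0 z (n 0 z (n 0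
 z z))))))))))))) (n 785 (n 2 (n 0 z z) (n 0 z (n 0 z (n 0 z (n 0 z (n 0 z (n 0 z (n 0 z
 z)))))))) (n 785 (n 0 z (n 0 z (n 0 z (n 0 z (n 0 z (n 0 z (n 0 z (n 0 z z)))))))) z)))))))))
 (n 0 (n 487 (n 0 z (n 2 (n 0 z (n 0 z (n 0 z (n 1 z (n 1 z (n 1 z (n 1 z z))))))) (n 0 z (n 0 z
 (n 0 z (n 0 z z)))))) (n 487 (n 0 z (n 0 z (n 0 z (n 0 z (n 0 z (n 0 z z)))))) (n 487 (n 0 z (n
 0 z (n 0 z (n 0 z (n 2 (n 0 z (n 1 z (n 1 z (n 2 (n 0 z (n 0 z (n 0 z (n 0 z (n 0 z (n 0 (n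
 8859683 z z) z)))))) (n 2 (n 0 (n 8790083 z z) (n 0 z (n 0 z (n 0 z (n 0 z (n 0 (n 8790083 z (n
 8790083 z z)) z)))))) z))))) (n 0 z z)))))) (n 487 (n 0 z (n 0 z (n 0 z (n 0 z (n 0 z (n 0 z
 z)))))) (n 789 (n 2 (n 0 z (n 1 z (n 1 z z))) (n 0 z (n 0 z (n 0 z (n 0 z (n 0 z (n 0 z (n 0 z
 (n 0 z (n 0 z (n 0 z (n 0 z (n 0 z (n 0 z (n 0 z (n 0 z z)))))))))))))))) (n 789 (n 0 z (n 0 z
 (n 0 z (n 0 z (n 0 z (n 0 z (n 0 z (n 0 z (n 0 z (n 0 z (n 0 z (n 0 z (n 0 z (n 0 z (n 0 z (n 0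
 z z)))))))))))))))) (n 781 (n 0 z (n 0 z (n 2 (n 0 z z) (n 0 z (n 0 z (n 0 z (n 0 z (n 0 z (n 0
 z (n 0 z (n 0 z z))))))))))) (n 781 (n 0 z (n 0 z (n 0 z (n 0 z (n 0 z (n 0 z (n 0 z (n 0 z (n
 0 z (n 0 z (n 0 z z))))))))))) z)))))))) (n 0 (n 0 z (n 0 z (n 0 z (n 3 (n 0 z (n 0 z (n 0 z (n
 2 (n 0 z (n 1 z (n 1 z z))) (n 0 z (n 0 z (n 0 z z))))))) (n 3 (n 0 z (n 0 z (n 0 z (n 0 z (n 0
 z (n 0 z (n 2 (n 1 z (n 1 z z)) z))))))) (n 1 (n 0 z (n 0 z (n 0 z (n 2 (n 0 z z) (n 0 z (n 0 z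
 (n 0 z (n 0 z (n 0 z (n 0 z (n 0 z (n 0 z z)))))))))))) (n 1 (n 0 z (n 0 z (n 0 z (n 0 z (n 0 z
 (n 0 z (n 0 z (n 0 z (n 2 z (n 0 z (n 0 z (n 0 z z)))))))))))) z))))))) (n 0 (n 0 z (n 0 z (n
 255 (n 0 z (n 0 z (n 2 (n 0 z (n 1 z (n 2 (n 0 (n 1012 z z) (n 0 z (n 0 (n 1541 z z) (n 0 z (n
 0 z (n 0 (n 1012 z (n 8525579 z z)) z)))))) z))) (n 0 z (n 0 z z))))) (n 255 (n 0 z (n 0 z (n 0
 z (n 0 z (n 2 (n 1 z (n 1 z z)) z))))) (n 253 (n 0 z (n 2 (n 0 z z) (n 0 z (n 0 z (n 0 z (n 0 z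
 (n 0 z (n 0 z z)))))))) (n 253 (n 0 z (n 0 z (n 0 z (n 0 z (n 0 z (n 0 z (n 2 z (n 0 z
 z)))))))) z)))))) (n 0 (n 0 z (n 339 (n 0 z (n 0 z (n 0 z (n 0 z (n 0 z (n 0 z (n 0 z z)))))))
 (n 339 (n 0 z (n 0 z (n 0 z (n 0 z (n 0 z (n 0 z (n 2 (n 1 z (n 1 z z)) z))))))) (n 337 (n 0 z
 (n 0 z (n 0 z (n 0 z (n 0 z (n 0 z (n 0 z (n 0 z (n 0 z (n 0 z (n 0 z (n 0 z (n 0 z (n 0 z (n 0
 z z))))))))))))))) (n 337 (n 0 z (n 0 z (n 0 z (n 0 z (n 0 z (n 0 z (n 0 z (n 0 z (n 0 z (n 2 z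
 (n 0 z (n 0 z (n 0 z (n 0 z (n 0 z z))))))))))))))) z))))) (n 0 (n 3 (n 0 z (n 0 z (n 0 z (n 0
 z (n 0 z (n 0 z (n 0 z (n 2 (n 0 z (n 1 z (n 1 z z))) z)))))))) (n 3 (n 0 z (n 0 z (n 0 z (n 0
 z (n 0 z (n 0 z (n 0 z (n 0 z z)))))))) (n 1 (n 0 z (n 0 z (n 0 z (n 0 z (n 0 z (n 2 (n 0 z z)
 (n 0 z (n 0 z (n 0 z (n 0 z (n 0 z (n 0 z (n 0 z z))))))))))))) (n 1 (n 0 z (n 0 z (n 0 z (n 0
 z (n 0 z (n 0 z (n 7754787 z (n 0 z (n 0 z (n 0 z (n 0 z (n 0 z (n 0 z z))))))))))))) z)))) (n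
 0 (n 0 z (n 385 (n 0 z (n 0 z (n 0 z (n 0 z (n 0 z (n 0 z (n 0 z (n 0 z (n 0 z (n 0 z (n 0 z (n
 0 z (n 0 z (n 0 z z)))))))))))))) (n 385 (n 0 z (n 0 z (n 0 z (n 0 z (n 0 z (n 0 z (n 0 z (n 0
 z (n 0 z (n 0 z (n 0 z (n 0 z (n 2 z (n 0 z z)))))))))))))) z))) (n 0 (n 5 (n 0 z (n 0 z (n 2
 (n 0 z z) (n 0 z (n 0 z (n 0 z (n 0 z (n 0 z (n 0 z (n 0 z (n 0 z (n 0 z (n 0 z (n 0 z
 z)))))))))))))) (n 5 (n 0 z (n 0 z (n 0 z (n 0 z (n 0 z (n 0 z (n 0 z (n 0 z (n 0 z (n 0 z (n 0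
 z (n 0 z (n 7754787 z (n 0 z z)))))))))))))) z)) (n 0 (n 0 z z) (n 0 z z)))))))))))))) (n 0 (n
 1 (n 6557747 z (n 6557747 z (n 6557747 z (n 6557747 z (n 6557747 z (n 6557747 z z)))))) (n 1 (n
 2396 z (n 4399203 z (n 2396 z (n 2396 z (n 4331019 z (n 2396 z z)))))) (n 0 z (n 1 (n 2396 z (n
 2396 z (n 2348 z (n 2396 z (n 5517923 z (n 2396 z z)))))) z)))) (n 0 z z)))) (n
 0x19b8a87a3b4385aa1445d4216a2c1c4d305a6b36114e108b5940138580b3700 (n 0 (n 279 (n 0 z (n 0 z (n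
 2 z (n 10 z (n 6619931 z (n 18 z (n 3282443 z (n 0 z (n 0 z z))))))))) (n 33 (n 26 z (n 34 z (n
 6496515 z z))) (n 9 (n 0 z (n 0 z (n 6496515 z z))) (n 267 (n 42 z (n 0 z (n 0 z (n 50 z (n
 6496515 z z))))) (n 1 (n 0 z (n 58 z (n 0 z (n 0 z (n 0 z (n 6566227 z z)))))) (n 0 (n
 0x132c82c820038268367f97f58557c882088e8218797e582d7d980f7cc81a8268037fc8b18397987bb7f67b97308027ca83771e7e588a84c79986e87272493e7637c17cd8b57067f68747ea79192880f7a20811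
 z (n 66 z (n
 0x1594c84100e00aca84206078017ff8007ff8007ff8028008028017ff8018008007ff8018007fd8028017ff8028028018018028008038008038027fc8028018017fe8007fd8047fc7ff7ff8018008007fb8057fe7fd8011011
 z (n 74 z (n 82 z (n 6623755 z (n
 0x10c86c860038008007fd8057fd7ff8028018008018028037ff8028048008027fc7fe8028017ff8007fc8017fc8028007fe8028017fe8007ff7fe8027ff7ff7ff8028027ff8008008038038028008008010811
 z (n 6619931 z (n 90 z (n 6623755 z (n 0 z (n 0 z z)))))))))))) z)))))) (n 33 (n 0 (n 0 z (n 0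
 z (n 211 (n 0 z (n 0 z (n 0 z (n 0 z (n 0 z (n 2 (n 0 z (n 1 z (n 2 (n 0 z (n 0 z (n 0 z (n 0 z
 (n 0 z (n 0 z z)))))) (n 2 (n 0 z (n 0 z (n 0 z (n 0 z (n 0 z (n 0 z z)))))) (n 2 (n 0 z (n 0 z
 (n 0 z (n 0 z (n 0 z (n 0 z z)))))) (n 2 (n 0 z (n 0 z (n 0 z (n 0 z (n 0 z (n 0 z z)))))) (n 2
 (n 0 z (n 0 z (n 0 z (n 0 z (n 0 z (n 0 z z)))))) (n 2 (n 0 z (n 0 z (n 0 z (n 0 z (n 0 z (n 0
 z z)))))) z)))))))) (n 0 z (n 0 z (n 0 z (n 0 z (n 0 z (n 0 z (n 0 z (n 0 z (n 0 z (n 0 z (n 0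
 z z))))))))))))))))) (n 211 (n 0 z (n 0 z (n 0 z (n 0 z (n 0 z (n 0 z (n 0 z (n 0 z (n 0 z (n 0
 z (n 0 z (n 0 z (n 0 z (n 0 z (n 0 z (n 0 z (n 0 z z))))))))))))))))) (n 555 (n 0 z (n 0 z (n 2
 (n 0 z (n 1 z (n 1 z (n 1 z (n 2 (n 0 z (n 0 z (n 0 z (n 0 z (n 0 z (n 0 z z)))))) (n 1 z
 z)))))) (n 0 z (n 0 z (n 0 z (n 0 z (n 0 z z)))))))) (n 555 (n 0 z (n 0 z (n 0 z (n 0 z (n 0 z
 (n 0 z (n 0 z (n 0 z z)))))))) (n 303 (n 0 z (n 0 z (n 0 z (n 0 z (n 0 z (n 0 z (n 0 z (n 0 z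
 (n 0 z (n 0 z (n 0 z (n 0 z (n 0 z z))))))))))))) (n 557 (n 0 z (n 0 z (n 0 z (n 0 z (n 0 z (n
 0 z (n 0 z (n 0 z (n 0 z (n 0 z (n 0 z (n 2 (n 0 z (n 0 z (n 0 z z))) z)))))))))))) (n 557 (n 0
 z (n 0 z (n 0 z (n 0 z (n 0 z (n 0 z (n 0 z (n 0 z (n 0 z (n 0 z (n 0 z (n 0 z z)))))))))))) (n
 557 (n 0 z (n 0 z (n 0 z (n 0 z (n 0 z (n 0 z (n 0 z (n 0 z (n 0 z (n 0 z (n 0 z (n 0 z
 z)))))))))))) (n 557 (n 0 z (n 0 z (n 0 z (n 0 z (n 0 z (n 0 z (n 0 z (n 0 z (n 0 z (n 0 z (n 0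
 z (n 0 z z)))))))))))) z))))))))))) (n 0 (n 0 z (n 511 (n 0 z (n 0 z (n 0 z (n 0 z (n 0 z (n 0
 z (n 0 z (n 0 z (n 0 z (n 0 z (n 0 z (n 0 z z)))))))))))) (n 511 (n 0 z (n 0 z (n 0 z (n 0 z (n
 2 (n 1 z (n 1 z (n 1 z (n 1 z (n 1 z (n 2 (n 0 z (n 0 z (n 0 z (n 0 z (n 0 z (n 0 z z)))))) (n
 1 z z))))))) (n 0 z (n 0 z (n 0 z (n 0 z (n 0 z (n 0 z (n 0 z z)))))))))))) (n 487 (n 0 z (n 0
 z (n 0 z (n 0 z (n 0 z (n 0 z (n 0 z (n 0 z (n 0 z (n 0 z (n 0 z (n 0 z z)))))))))))) (n 487 (n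
 0 z (n 0 z (n 2 (n 2 (n 0 z (n 0 z (n 0 z (n 0 z (n 0 z (n 0 z z)))))) (n 2 (n 0 z (n 0 z (n 0
 z (n 0 z (n 0 z (n 0 z z)))))) (n 2 (n 0 z (n 0 z (n 0 z (n 0 z (n 0 z (n 0 z z)))))) (n 2 (n 0
 z (n 0 z (n 0 z (n 0 z (n 0 z (n 0 z z)))))) (n 2 (n 0 z (n 0 z (n 0 z (n 0 z (n 0 z (n 0 z
 z)))))) z))))) (n 0 z (n 0 z (n 0 z (n 0 z (n 0 z (n 0 z (n 0 z (n 0 z (n 0 z z)))))))))))) (n
 531 (n 0 z (n 0 z (n 0 z (n 0 z (n 0 z (n 0 z (n 0 z (n 0 z z)))))))) (n 533 (n 0 z (n 0 z (n 0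
 z (n 0 z (n 0 z (n 2 (n 0 z (n 0 z (n 0 z z))) (n 0 z (n 0 z (n 0 z (n 0 z (n 0 z (n 0 z
 z)))))))))))) (n 533 (n 0 z (n 0 z (n 0 z (n 0 z (n 0 z (n 0 z (n 0 z (n 0 z (n 0 z (n 0 z (n 0
 z (n 0 z z)))))))))))) (n 533 (n 0 z (n 0 z (n 0 z (n 0 z (n 0 z (n 0 z (n 0 z (n 0 z (n
 7754779 z (n 7754779 z (n 0 z (n 0 z z)))))))))))) (n 533 (n 0 z (n 0 z (n 0 z (n 0 z (n 0 z (n
 0 z (n 0 z (n 0 z (n 0 z (n 0 z (n 0 z (n 0 z z)))))))))))) z)))))))))) (n 0 (n 83 (n 0 z (n 0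
 z (n 0 z (n 0 z (n 0 z (n 0 z (n 0 z (n 0 z (n 0 z (n 0 z (n 2 (n 0 z (n 1 z (n 2 (n 0 z (n 0 z
 (n 0 z (n 0 z (n 0 z (n 0 z z)))))) (n 1 z (n 1 z (n 2 (n 0 z (n 0 z (n 0 z (n 0 z (n 0 z (n 0
 z z)))))) (n 2 (n 0 z (n 0 z (n 0 z (n 0 z (n 0 z (n 0 z z)))))) (n 2 (n 0 z (n 0 z (n 0 z (n 0
 z (n 0 z (n 0 z z)))))) z)))))))) (n 0 z (n 0 z (n 0 z (n 0 z z))))))))))))))) (n 83 (n 0 z (n
 0 z (n 0 z (n 0 z (n 0 z (n 0 z (n 0 z (n 0 z (n 0 z (n 0 z (n 0 z (n 0 z (n 0 z (n 0 z (n 0 z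
 z))))))))))))))) (n 555 (n 0 z (n 0 z (n 2 (n 0 z (n 1 z (n 1 z (n 2 (n 0 z (n 0 z (n 0 z (n 0
 z (n 0 z (n 0 z z)))))) (n 2 (n 0 z (n 0 z (n 0 z (n 0 z (n 0 z (n 0 z z)))))) (n 2 (n 0 z (n 0
 z (n 0 z (n 0 z (n 0 z (n 0 z z)))))) z)))))) (n 0 z (n 0 z (n 0 z (n 0 z (n 0 z (n 0 z (n 0 z
 (n 0 z z))))))))))) (n 555 (n 0 z (n 0 z (n 0 z (n 0 z (n 0 z (n 0 z (n 0 z (n 0 z (n 0 z (n 0
 z (n 0 z z))))))))))) (n 303 (n 0 z (n 0 z (n 0 z (n 2 (n 1 z (n 2 (n 0 z (n 0 z (n 0 z (n 0 z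
 (n 0 z (n 0 z z)))))) (n 2 (n 0 z (n 0 z (n 0 z (n 0 z (n 0 z (n 0 z z)))))) (n 2 (n 0 z (n 0 z
 (n 0 z (n 0 z (n 0 z (n 0 z z)))))) z)))) (n 0 z (n 0 z (n 0 z (n 0 z z)))))))) (n 553 (n 0 z
 (n 0 z (n 0 z (n 0 z (n 0 z (n 0 z (n 2 (n 0 z (n 0 z (n 0 z z))) (n
 0xdd91d84c0e006ea8c806037ff8028018028008037fd8017fd7ff7fe8008018017fd7ff7ff8028007fe8027fe8017fd8018048038037fe8008018027fe8008017fc7fc8028038007fe8008007fe8028007ff7ff7fe8001011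
 z (n 0 z (n 0 z (n 0 z z))))))))))) (n 553 (n 0 z (n 0 z (n 0 z (n 2 (n 0 z (n 0 z z)) (n 0 z
 (n 0 z (n 0 z (n 0 z (n 0 z (n 0 z (n 0 z z))))))))))) (n 553 (n 0 z (n 0 z (n 0 z (n 0 z (n 0
 z (n 0 z (n 0 z (n 0 z (n 0 z (n 0 z (n 7754803 z z))))))))))) (n 553 (n 0 z (n 2 z (n 0 z (n 0
 z (n 0 z (n 0 z (n 0 z (n 0 z (n 0 z (n 0 z (n 0 z z))))))))))) z))))))))) (n 0 (n 0 z (n 535
 (n 0 z (n 0 z (n 0 z (n 0 z (n 0 z (n 0 z (n 0 z (n 0 z (n 0 z (n 0 z z)))))))))) (n 535 (n 0 z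
 (n 0 z (n 2 (n 1 z (n 1 z (n 2 (n 0 z (n 0 z (n 0 z (n 0 z (n 0 z (n 0 z z)))))) (n 2 (n 0 z (n
 0 z (n 0 z (n 0 z (n 0 z (n 0 z z)))))) (n 2 (n 0 z (n 0 z (n 0 z (n 0 z (n 0 z (n 0 z z))))))
 z))))) (n 0 z (n 0 z (n 0 z (n 0 z (n 0 z (n 0 z (n 0 z z)))))))))) (n 483 (n 0 z (n 0 z (n 0 z
 (n 0 z (n 0 z (n 0 z (n 0 z (n 0 z (n 0 z (n 0 z z)))))))))) (n 533 (n 0 z (n 0 z (n 0 z (n 0 z
 (n 0 z (n 0 z (n 0 z (n 0 z (n 0 z (n 0 z (n 0 z (n 0 z (n 0 z z))))))))))))) (n 533 (n 0 z (n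
 0 z (n 0 z (n 0 z (n 0 z (n 0 z (n 0 z (n 0 z (n 0 z (n 0 z (n 0 z (n 0 z (n 0 z z)))))))))))))
 (n 533 (n 0 z (n 0 z (n 0 z (n 0 z (n 0 z (n 0 z (n 0 z (n 0 z (n 0 z (n 0 z (n 0 z (n 0 z (n 0
 z z))))))))))))) (n 533 (n 0 z (n 0 z (n 0 z (n 0 z (n 2 z (n 0 z (n 0 z (n 0 z (n 0 z (n 0 z
 (n 0 z (n 0 z (n 0 z z))))))))))))) z)))))))) (n 0 (n 55 (n 0 z (n 0 z (n 2 (n 0 z (n 1 z (n 1
 z (n 1 z (n 2 (n 0 z (n 0 z (n 0 z (n 0 z (n 0 (n 8791819 z z) (n 0 z z)))))) (n 1 z z)))))) (n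
 0 z (n 0 z (n 0 z (n 0 z (n 0 z z)))))))) (n 55 (n 0 z (n 0 z (n 0 z (n 0 z (n 0 z (n 0 z (n 0
 z (n 0 z z)))))))) (n 63 (n 0 z (n 2 (n 1 z (n 1 z (n 2 (n 0 z (n 0 z (n 0 z (n 0 z (n 0 z (n 0
 z z)))))) (n 1 z z)))) (n 0 z (n 0 z (n 0 z (n 0 z (n 0 z z))))))) (n 61 (n 0 z (n 0 z (n 2 (n
 0 z (n 0 z (n 0 z z))) (n 0 z (n 0 z (n 0 z (n 0 z (n 0 z (n 0 z (n 0 z (n 0 z (n 0 z
 z)))))))))))) (n 61 (n 0 z (n 0 z (n 0 z (n 2 (n 0 z (n 0 z z)) (n 0 z (n 0 z (n 0 z (n 0 z (n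
 0 z (n 0 z (n 0 z (n 0 z z)))))))))))) (n 61 (n 0 z (n 0 z (n 0 z (n 0 z (n 0 z (n 0 z (n 0 z
 (n 0 z (n 0 z (n 0 z (n 0 z (n 0 z z)))))))))))) (n 61 (n 0 z (n 0 z (n 0 z (n 0 z (n 0 z (n 0
 z (n 0 z (n 0 z (n 0 z (n 0 z (n 0 z (n 0 z z)))))))))))) z))))))) (n 0 (n 0 z (n 483 (n 0 z (n
 0 z (n 0 z (n 0 z (n 0 z (n 0 z (n 0 z (n 0 z z)))))))) (n 481 (n 0 z (n 0 z (n 0 z (n 0 z (n 0
 z (n 0 z (n 0 z (n 0 z (n 0 z (n 0 z (n 0 z (n 0 z (n 0 z (n 0 z (n 0 z (n 0 z (n 0 z (n 0 z (n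
 0 z (n 0 z (n 0 z (n 0 z (n 0 z (n 0 z (n 0 z (n 0 z (n 0 z (n 0 z (n 0 z (n 0 z (n 0 z (n 0 z
 (n 0 z (n 0 z (n 0 z (n 0 z (n 0 z (n 0 z (n 0 z (n 0 z (n 0 z (n 0 z (n 0 z (n 0 z (n 0 z (n 0
 z (n 0 z z))))))))))))))))))))))))))))))))))))))))))))))) (n 481 (n 0 z (n 0 z (n 0 z (n 0 z (n
 0 z (n 0 z (n 0 z (n 0 z (n 0 z (n 0 z (n 0 z (n 0 z (n 0 z (n 0 z (n 0 z (n 0 z (n 0 z (n 0 z
 (n 0 z (n 0 z (n 0 z (n 0 z (n 0 z (n 0 z (n 0 z (n 0 z (n 0 z (n 0 z (n 0 z (n 0 z (n 0 z (n 0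
 z (n 0 z (n 0 z (n 0 z (n 0 z (n 0 z (n 0 z (n 0 z (n 0 z (n 0 z (n 0 z (n 0 z (n 0 z (n 0 z (n
 0 z (n 0 z z))))))))))))))))))))))))))))))))))))))))))))))) (n 481 (n 0 z (n 0 z (n 0 z (n 0 z
 (n 0 z (n 0 z (n 0 z (n 0 z (n 0 z (n 0 z (n 0 z (n 0 z (n 0 z (n 0 z (n 7754779 z (n 0 z (n 0
 z (n 0 z (n 0 z (n 0 z (n 0 z (n 0 z (n 0 z (n 0 z (n 0 z (n 0 z (n 0 z (n 0 z (n 0 z (n 0 z (n
 0 z (n 0 z (n 0 z (n 0 z (n 0 z (n 0 z (n 0 z (n 0 z (n 0 z (n 0 z (n 0 z (n 0 z (n 0 z (n 0 z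
 (n 0 z (n 0 z (n 0 z z))))))))))))))))))))))))))))))))))))))))))))))) (n 481 (n 0 z (n 0 z (n 0
 z (n 0 z (n 0 z (n 0 z (n 0 z (n 0 z (n 0 z (n 0 z (n 0 z (n 0 z (n 0 z (n 0 z (n 0 z (n 0 z (n
 0 z (n 0 z (n 0 z (n 0 z (n 0 z (n 0 z (n 0 z (n 0 z (n 0 z (n 0 z (n 0 z (n 0 z (n 0 z (n 0 z
 (n 0 z (n 0 z (n 0 z (n 0 z (n 0 z (n 0 z (n 0 z (n 2 z (n 0 z (n 0 z (n 0 z (n 0 z (n 0 z (n 0
 z (n 0 z (n 0 z (n 0 z z))))))))))))))))))))))))))))))))))))))))))))))) z)))))) (n 0 (n 51 (n 2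
 (n 1 z (n 2 (n 0 z (n 0 z (n 0 z (n 0 z (n 0 z (n 0 z z)))))) (n 2 (n 0 z (n 0 z (n 0 z (n 0 z
 (n 0 z (n 0 z z)))))) (n 2 (n 0 z (n 0 z (n 0 z (n 0 z (n 0 z (n 0 z z)))))) z)))) (n 0 z (n 0
 z (n 0 z (n 0 z z))))) (n 533 (n 0 z (n 0 z (n 0 z (n 0 z (n 0 z (n 0 z (n 0 z (n 0 z (n 0 z (n
 0 z (n 0 z (n 0 z (n 0 z (n 0 z (n 0 z (n 0 z (n 0 z (n 0 z (n 0 z (n 2 (n 0 z (n 0 z (n 0 z
 z))) (n 0 z (n 0 z (n 0 z (n 0 z (n 0 z z))))))))))))))))))))))))) (n 533 (n 2 (n 0 z (n 0 z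
 z)) (n 0 z (n 0 z (n 0 z (n 0 z (n 0 z (n 0 z (n 0 z (n 0 z (n 0 z (n 0 z (n 0 z (n 0 z (n 0 z
 (n 0 z (n 0 z (n 0 z (n 0 z (n 0 z (n 0 z (n 0 z (n 0 z (n 0 z (n 0 z (n 0 z
 z))))))))))))))))))))))))) (n 533 (n 0 z (n 0 z (n 0 z (n 0 z (n 0 z (n 0 z (n 0 z (n 0 z (n 0
 z (n 0 z (n 0 z (n 0 z (n 0 z (n 0 z (n 0 z (n 0 z (n 0 z (n 0 z (n 0 z (n 0 z (n 0 z (n 0 z (n
 0 z (n 0 z (n 0 z z))))))))))))))))))))))))) (n 533 (n 0 z (n 0 z (n 0 z (n 0 z (n 0 z (n 0 z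
 (n 0 z (n 0 z (n 0 z (n 0 z (n 0 z (n 0 z (n 0 z (n 0 z (n 0 z (n 0 z (n 0 z (n 0 z (n 0 z (n 0
 z (n 0 z (n 0 z (n 0 z (n 0 z (n 0 z z))))))))))))))))))))))))) z))))) (n 0 (n 1 (n 0 z (n 0 z
 (n 0 z (n 0 z (n 0 z (n 0 z (n 0 z (n 0 z (n 0 z (n 0 z (n 0 z (n 0 z (n 2 (n 0 z (n 0 z (n 0 z
 z))) (n 0 z (n 0 z (n 0 z (n 0 z (n 0 z (n 0 z (n 0 z (n 0 z (n 0 z (n 0 z (n 0 z (n 0 z (n 0 z
 (n 0 z (n 0 z (n 0 z (n 0 z (n 0 z (n 0 z (n 0 z (n 0 z (n 0 z (n 0 z (n 0 z (n 0 z (n 0 z (n 0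
 z (n 0 z (n 0 z (n 0 z (n 0 z (n 0 z (n 0 z (n 0 z (n 0 z (n 0 z
 z))))))))))))))))))))))))))))))))))))))))))))))))) (n 1 (n 0 z (n 0 z (n 0 z (n 0 z (n 0 z (n 0
 z (n 0 z (n 0 z (n 0 z (n 0 z (n 0 z (n 0 z (n 0 z (n 0 z (n 0 z (n 0 z (n 0 z (n 0 z (n 0 z (n
 0 z (n 0 z (n 0 z (n 0 z (n 0 z (n 0 z (n 0 z (n 0 z (n 0 z (n 0 z (n 0 z (n 0 z (n 0 z (n 0 z
 (n 0 z (n 0 z (n 0 z (n 0 z (n 0 z (n 0 z (n 0 z (n 0 z (n 0 z (n 0 z (n 0 z (n 0 z (n 0 z (n 0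
 z (n 0 z (n 0 z z))))))))))))))))))))))))))))))))))))))))))))))))) (n 1 (n 0 z (n 0 z (n 0 z (n
 0 z (n 0 z (n 0 z (n 0 z (n 0 z (n 0 z (n 0 z (n 0 z (n 0 z (n 0 z (n 0 z (n 0 z (n 0 z (n 0 z
 (n 0 z (n 0 z (n 0 z (n 0 z (n 0 z (n 0 z (n 0 z (n 0 z (n 0 z (n 0 z (n 0 z (n 0 z (n 0 z (n 0
 z (n 0 z (n 0 z (n 0 z (n 0 z (n 0 z (n 0 z (n 0 z (n 0 z (n 0 z (n 0 z (n 0 z (n 0 z (n 0 z (n
 0 z (n 0 z (n 0 z (n 0 z (n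
 0xaec6ec64038048007f88017fc8018007ff8047fe8007ff7fe8027fe8068067fa8008018007ff7ff7fb8017f87ff8008008038027fc7fd7fe7ff7fd8017f58018058037fc8068038068048037fb7ff8010811
 z z))))))))))))))))))))))))))))))))))))))))))))))))) (n 1 (n 0 z (n 0 z (n 0 z (n 0 z (n 0 z (n
 0 z (n 0 z (n 0 z (n 0 z (n 0 z (n 0 z (n 0 z (n 0 z (n 0 z (n 0 z (n 0 z (n 0 z (n 0 z (n 0 z
 (n 0 z (n 0 z (n 0 z (n 0 z (n 0 z (n 0 z (n 0 z (n 0 z (n 0 z (n 0 z (n 0 z (n 0 z (n 0 z (n 0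
 z (n 0 z (n 0 z (n 0 z (n 0 z (n 0 z (n 0 z (n 0 z (n 0 z (n 0 z (n 0 z (n 0 z (n 0 z (n 0 z (n
 0 z (n 0 z (n 0 z z))))))))))))))))))))))))))))))))))))))))))))))))) z)))) (n 0 (n 0 z (n 0 z
 (n 0 z z))) (n 0 (n 0 z (n 0 z z)) (n 0 (n 0 z z) (n 0 z z)))))))))))) (n 0 (n 1 (n 2236 z (n
 2236 z (n 76 z (n 6619931 z (n 2236 z (n 2236 z z)))))) (n 1 (n 2236 z (n 4331067 z (n 6619931
 z (n 76 z (n 2236 z (n 2236 z z)))))) (n 1 (n 6496515 z (n 6496515 z (n 6496515 z (n 6496515 z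
 (n 6496515 z (n 6496515 z z)))))) z))) (n 0 z z)))) (n
 0x1a196888d94132ab091aa310b11d04a8e845262340 (n 0 (n 447 (n 0 z (n 2 z (n 0 z (n
 0x352165040189aa1328981c1d94d50c8061eca8a842038b7d8781846f70877b857d7d8a704e4d8c897d83727e80827f82885e7464777bac8b8e7880828d7d5d9b7297887e7b8d78722009
 z (n 0 z (n 6492195 z (n 0 z z))))))) (n 435 (n 0 z (n 10 z (n 6492195 z z))) (n 433 (n 18 z (n
 26 z (n
 0x595195040e00ca8a80203807f8280808080818080807f8081808180808080808080808080828080808180807f808080808080808080808080808080801009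
 z (n 6627595 z (n 6627595 z (n 34 z z)))))) (n 3 (n 0 z (n 0 z (n 6492195 z (n 0 z z)))) (n 1
 (n 0 z (n 0 z (n 6557779 z z))) (n 0 (n
 0x4c84c84207817f8482827a807e81807e7a827f7d7e7e847f838082807f8080837a7e8182807a807d83847f79807e8182817c84818384800809
 z (n 42 z (n
 0xeca8840203817f827f827d828181827e7c7e7e83807f847f7f807d7f8180838284847f84837780767b84828378857e7e817e867e7987800809
 z (n 0 z (n 50 z (n 0 z (n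
 0x590990840e04ca886420380808181808180808081807f808080818080808080808080807f81808080807f8080808080808080808180808080808080801009
 z (n 0 z (n 58 z (n 6627595 z (n 6627595 z z))))))))))) z)))))) (n 435 (n 0 (n 91 (n 0 z (n 0 z
 (n 0 z (n 0 z (n 0 z (n 0 z (n 0 z (n 0 z (n 0 z (n 0 z (n 2 (n 2 (n 0 z (n 0 z (n 0 z (n 0 z
 (n 0 z (n 0 z z)))))) (n 2 (n 0 z (n 0 z (n 0 z (n 0 z (n 0 z (n 0 z z)))))) (n 1 z (n 1 z (n 2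
 (n 0 z (n 0 z (n 0 z (n 0 z (n 0 z (n 0 z z)))))) (n 2 (n 0 z (n 0 z (n 0 z (n 0 z (n 0 z (n 0
 z z)))))) z)))))) (n 0 z (n 0 z (n 0 z z)))))))))))))) (n 867 (n 2 (n 0 z (n 0 z (n 2 (n 0 z (n
 0 z (n 0 z (n 0 z (n 0 z (n 0 z z)))))) (n 2 (n 0 z (n 0 z (n 0 z (n 0 z (n 0 z (n 0 z z))))))
 (n 2 (n 0 z (n 0 z (n 0 z (n 0 z (n 0 z (n 0 z z)))))) z))))) (n 0 z (n 0 z (n 0 z (n 0 z (n 0
 z (n 0 z (n 0 z (n 0 z (n 0 z (n 0 z (n 0 z (n 0 z z))))))))))))) (n 867 (n 0 z (n 0 z (n 0 z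
 (n 0 z (n 0 z (n 0 z (n 0 z (n 0 z (n 0 z (n 0 z (n 0 z (n 0 z (n 0 z z))))))))))))) (n 867 (n
 0 z (n 0 z (n 0 z (n 0 z (n 0 z (n 0 z (n 0 z (n 0 z (n 0 z (n 0 z (n 0 z (n 2 (n 2 (n 0 z (n 0
 z (n 0 z (n 0 z (n 0 z (n 0 z z)))))) (n 2 (n 0 z (n 0 z (n 0 z (n 0 z (n 0 z (n 0 z z)))))) (n
 2 (n 0 z (n 0 z (n 0 z (n 0 z (n 0 z (n 0 z z)))))) z))) (n 0 z z))))))))))))) (n 493 (n 0 z (n
 0 z (n 0 z (n 0 z (n 0 z (n 0 z (n 0 z (n 0 z (n 0 z (n 0 z (n 0 z z))))))))))) (n 493 (n 0 z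
 (n 0 z (n 0 z (n 0 z (n 0 z (n 0 z (n 0 z (n 0 z (n 0 z (n 0 z (n 0 z z))))))))))) (n 493 (n 0
 z (n 0 z (n 0 z (n 0 z (n 0 z (n 0 z (n 0 z (n 0 z (n 2 z (n 0 z (n 0 z z))))))))))) z)))))))
 (n 0 (n 867 (n 0 z (n 0 z (n 0 z (n 0 z (n 0 z (n 0 z (n 0 z z))))))) (n 867 (n 2 (n 0 z (n 2
 (n 0 z (n 0 z (n 0 z (n 0 z (n 0 z (n 0 z z)))))) (n 2 (n 0 z (n 0 z (n 0 z (n 0 z (n 0 z (n 0
 z z)))))) (n 2 (n 0 z (n 0 z (n 0 z (n 0 z (n 0 z (n 0 z z)))))) z)))) (n 0 z (n 0 z (n 0 z (n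
 0 z (n 0 z (n 0 z z))))))) (n 867 (n 0 z (n 0 z (n 0 z (n 0 z (n 0 z (n 0 z (n 0 z z))))))) (n
 869 (n 0 z (n 0 z (n 0 z (n 0 z (n 0 z (n 0 z (n 0 z (n 0 z (n 0 z (n 0 z (n 0 z (n 0 z (n 0 z
 (n 0 z (n 0 z (n 0 z (n 0 z (n 0 z (n 0 z (n 0 z (n 0 z (n 0 z (n 0 z (n 0 z (n 0 z (n 0 z (n 0
 z (n 2 (n 0 z (n 0 z z)) (n 0 z (n 0 z z)))))))))))))))))))))))))))))) (n 869 (n 0 z (n 2 (n 0
 z z) (n 0 z (n 0 z (n 0 z (n 0 z (n 0 z (n 0 z (n 0 z (n 0 z (n 0 z (n 0 z (n 0 z (n 0 z (n 0 z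
 (n 0 z (n 0 z (n 0 z (n 0 z (n 0 z (n 0 z (n 0 z (n 0 z (n 0 z (n 0 z (n 0 z (n 0 z (n 0 z (n 0
 z (n 0 z z)))))))))))))))))))))))))))))) (n 869 (n 0 z (n 0 z (n 0 z (n 0 z (n 0 z (n 0 z (n 0
 z (n 0 z (n 0 z (n 0 z (n 0 z (n 0 z (n 0 z (n 0 z (n 0 z (n 0 z (n 0 z (n 0 z (n 0 z (n 0 z (n
 0 z (n 0 z (n 0 z (n 0 z (n 0 z (n 0 z (n 0 z (n 0 z (n 0 z (n 0 z
 z)))))))))))))))))))))))))))))) z)))))) (n 0 (n 0 z (n 0 z (n 865 (n 0 z (n 0 z (n 0 z (n 0 z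
 (n 0 z (n 0 z (n 2 (n 0 z (n 0 z z)) z))))))) (n 865 (n 0 z (n 0 z (n 0 z (n 0 z (n 0 z (n 0 z
 (n 0 z z))))))) (n 865 (n 0 z (n 0 z (n 0 z (n 0 z (n 0 z (n 0 z (n 0 z z))))))) z))))) (n 0 (n
 0 z (n 869 (n 0 z (n 0 z (n 0 z (n 2 (n 0 z (n 0 z z)) (n 0 z (n 0 z (n 0 z z))))))) (n 869 (n
 0 z (n 0 z (n 0 z (n 0 z (n 0 z (n 0 z (n 0 z z))))))) (n 869 (n 0 z (n 0 z (n 0 z (n 0 z (n 0
 z (n 0 z (n 0 z z))))))) z)))) (n 0 (n 889 (n 0 z (n 0 z (n 0 z (n 0 z (n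
 0x1eea8c8420781827d8482857f7c807e7e74817f86857f7e847d827c7e857f818e83767f8e7c8a7d81887c7f847b84827f857e7c81807c7d0809
 z (n 2 (n 0 z (n 0 z z)) (n 0 z (n 0 z (n 0 z (n 0 z (n 0 z z))))))))))) (n 889 (n 0 z (n 0 z
 (n 0 z (n 0 z (n 0 z (n 0 z (n 0 z (n 0 z (n 2 (n 0 z z) (n 0 z (n 0 z z))))))))))) (n 889 (n 0
 z (n 0 z (n 0 z (n 2 z (n 0 z (n 0 z (n 0 z (n 0 z (n 0 z (n 0 z (n 0 z z))))))))))) z))) (n 0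
 (n 0 z (n 0 z z)) (n 0 (n 0 z z) (n 0 z z)))))))) (n 0 (n 0 z (n 1 (n 3580 z (n 3580 z (n 3580
 z (n 3580 z (n 6627595 z (n 3580 z z)))))) (n 1 (n 6492195 z (n 6492195 z (n 6492195 z (n
 6492195 z (n 6492195 z (n 6492195 z z)))))) z))) (n 0 z z)))) (n
 0x16cb28aa274385aa1445d6222e30a271d1136d045b7504d350169d5032d4419861203aa201a88809d8c0 (n
 0x7544da88b (n 153 (n 2 z (n 6619947 z (n 0 z (n 10 z (n 18 z (n 26 z (n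
 0x2ca8ca46037e08a07e08618207e082181f8607e27e082081f82081f8208208208208208208208208208200801 z
 (n 0xca6ca480381f8607e08628207e082181f86082182086081f82089f81f82082082082081f8208608208200801 z
 (n 0 z (n
 0xca8ca86037e086082082082081f82085f82082081f82082082181f8208207df8208208208208207e08200801 z (n
 3282443 z (n 5514763 z (n 0 z (n 0 z z)))))))))))))) (n 33 (n 0 z (n 34 z (n 42 z (n 6496515 z
 (n 6496515 z z))))) (n 9 (n 50 z (n 0 z (n 58 z (n 0 z (n 6496515 z z))))) (n 267 (n 66 z (n 74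
 z (n 0 z (n 6496515 z z)))) (n 1 (n 82 z (n 90 z (n 0 z (n 6566483 z (n 0 z (n 6566483 z
 z)))))) (n 0 (n 98 z (n
 0xd951040c060ec86c86407887f9183968f727d6e877e6d8a8e555e958a8983807f89837d958988646f737c77717a808486747f9071747b7b8b868380801009
 z (n 106 z (n
 0xcca88206037de7dc6198638a279e8eaaf16189db85e8297117ada1dcec4d769656b7d9af1a1b7e06ca8a50801 z
 (n 0 z (n 114 z (n 6619947 z (n 122 z (n 6619947 z z))))))))) z)))))) (n 267 (n 0 (n 0 z (n 0 z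
 (n 0 z (n 1063 (n 0 z (n 0 z (n 2 (n 0 z (n 2 (n 0 z (n 0 z (n 0 z (n 0 z (n 0 z (n 0 z z))))))
 (n 2 (n 0 z (n 0 z (n 0 z (n 0 z (n 0 z (n 0 (n 812 z z) z)))))) (n 2 (n 0 z (n 0 z (n 0 z (n 0
 z (n 0 z (n 0 (n 8868907 z z) z)))))) (n 2 (n 0 z (n 0 z (n 0 z (n 0 z (n 0 z (n 0 z z)))))) (n
 2 (n 0 z (n 0 z (n 0 z (n 0 z (n 0 z (n 0 z z)))))) (n 2 (n 0 z (n 0 z (n 0 z (n 0 z (n 0 z (n
 0 z z)))))) (n 2 (n 0 z (n 0 z (n 0 z (n 0 z (n 0 z (n 0 z z)))))) (n 2 (n 0 z (n 0 z (n 0 z (n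
 0 z (n 0 z (n 0 z z)))))) (n 2 (n 0 z (n 0 z (n 0 z (n 0 z (n 0 z (n 0 z z)))))) (n 2 (n 0 z (n
 0 z (n 0 z (n 0 z (n 0 z (n 0 z z)))))) z))))))))))) (n 0 z (n 0 z (n 0 z (n 0 z (n 0 z (n 0 z
 (n 0 z (n 0 z (n 0 z (n 0 z z))))))))))))) (n 1063 (n 2 (n 2 (n 0 z (n 0 z (n 0 z (n 0 z (n 0 z
 (n 0 z z)))))) (n 2 (n 0 z (n 0 z (n 0 z (n 0 z (n 0 z (n 0 (n 8868675 z z) z)))))) (n 2 (n 0 z
 (n 0 z (n 0 z (n 0 z (n 0 z (n 0 z z)))))) (n 2 (n 0 z (n 0 z (n 0 z (n 0 z (n 0 z (n 0 (n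
 8868675 z z) z)))))) (n 2 (n 0 z (n 0 z (n 0 z (n 0 z (n 0 z (n 0 z z)))))) (n 2 (n 0 z (n 0 z
 (n 0 z (n 0 z (n 0 z (n 0 z z)))))) (n 2 (n 0 z (n 0 z (n 0 z (n 0 z (n 0 z (n 0 z z)))))) (n 2
 (n 0 z (n 0 z (n 0 z (n 0 z (n 0 z (n 0 z z)))))) (n 2 (n 0 z (n 0 z (n 0 z (n 0 z (n 0 z (n 0
 z z)))))) (n 1 z z)))))))))) (n 0 z (n 0 z (n 0 z (n 0 z (n 0 z (n 0 z (n 0 z (n 0 z (n 0 z (n
 0 z (n 0 z (n 0 z z))))))))))))) (n 203 (n 0 z (n 0 z (n 0 z (n 0 z (n 0 z (n 0 z (n 0 z (n 2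
 (n 0 z (n 2 (n 0 z (n 0 z (n 0 z (n 0 z (n 0 z (n 0 (n 8855571 z z) z)))))) (n 2 (n 0 z (n 0 z
 (n 0 z (n 0 z (n 0 z (n 0 z z)))))) (n 2 (n 0 z (n 0 z (n 0 z (n 0 z (n 0 z (n 0 z z)))))) (n 2
 (n 0 z (n 0 z (n 0 z (n 0 z (n 0 z (n 0 z z)))))) (n 2 (n 0 z (n 0 z (n 0 z (n 0 z (n 0 z (n 0
 z z)))))) (n 2 (n 0 z (n 0 z (n 0 z (n 0 z (n 0 z (n 0 z z)))))) (n 2 (n 0 z (n 0 z (n 0 z (n 0
 z (n 0 z (n 0 z z)))))) (n 2 (n 0 z (n 0 z (n 0 z (n 0 z (n 0 z (n 0 z z)))))) z))))))))) (n 0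
 z (n 0 z (n 0 z (n 0 z (n 0 z (n 0 z (n 0 z (n 0 z (n 0 z z))))))))))))))))) (n 203 (n 0 z (n 0
 z (n 0 z (n 0 z (n 0 z (n 0 z (n 0 z (n 0 z (n 0 z (n 0 z (n 0 z (n 0 z (n 0 z (n 0 z (n 0 z (n
 0 z (n 0 z z))))))))))))))))) (n 555 (n 0 z (n 0 z (n 0 z (n 2 (n 0 z (n 2 (n 0 z (n 0 z (n 0 z
 (n 0 z (n 0 z (n 0 (n 1212 z z) z)))))) (n 2 (n 0 z (n 0 z (n 0 z (n 0 z (n 0 z (n 0 (n 8855571
 z z) z)))))) (n 2 (n 0 z (n 0 z (n 0 z (n 0 z (n 0 z (n 0 z z)))))) (n 2 (n 0 z (n 0 z (n 0 z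
 (n 0 z (n 0 z (n 0 (n 1157 z z) z)))))) (n 2 (n 0 z (n 0 z (n 0 z (n 0 z (n 0 z (n 0 z z))))))
 (n 2 (n 0 z (n 0 z (n 0 z (n 0 z (n 0 z (n 0 z z)))))) z))))))) (n 0 z (n 0 z (n 0 z (n 0 z (n
 0 z (n 0 z (n 0 z (n 0 z z)))))))))))) (n 555 (n 0 z (n 0 z (n 0 z (n 0 z (n 0 z (n 0 z (n 0 z
 (n 0 z (n 0 z (n 0 z (n 0 z (n 0 z z)))))))))))) (n 303 (n 0 z (n 0 z (n 0 z (n 0 z (n 0 z (n 0
 z (n 0 z (n 0 z (n 0 z (n 0 z (n 0 z z))))))))))) (n 303 (n 0 z (n 2 (n 2 (n 0 z (n 0 z (n 0 z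
 (n 0 z (n 0 z (n 0 z z)))))) (n 2 (n 0 z (n 0 z (n 0 z (n 0 z (n 0 z (n 0 z z)))))) (n 2 (n 0 z
 (n 0 z (n 0 z (n 0 z (n 0 z (n 0 z z)))))) (n 2 (n 0 z (n 0 z (n 0 z (n 0 z (n 0 z (n 0 z
 z)))))) z)))) (n 0 z (n 0 z (n 0 z (n 0 z (n 0 z (n 0 z (n 0 z (n 0 z (n 0 z z))))))))))) (n
 305 (n 2 (n 0 z (n 0 z (n 0 z z))) (n 0 z (n 0 z (n 0 z (n 0 z (n 0 z (n 0 z (n 0 z (n 0 z (n 0
 z (n 0 z (n 0 z z)))))))))))) (n 305 (n 0 z (n 0 z (n 0 z (n 0 z (n 0 z (n 0 z (n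
 0x6ec8ec86037e789e85eaa27e099c7a781ea5d8e275d7df8605e589f71f81c8627df95d8dc92195c7e191e0801 z
 (n 0 z (n 0 z (n 2 (n 0 z (n 0 z z)) (n 0 z (n 0 z z)))))))))))) (n 305 (n 0 z (n 0 z (n 0 z (n
 0 z (n 2 (n 0 z z) (n 0 z (n 0 z (n 0 z (n 0 z (n 0 z (n 0 z (n 0 z z)))))))))))) (n 305 (n 0 z
 (n 0 z (n 0 z (n 0 z (n 0 z (n 0 z (n 0 z (n 0 z (n 0 z (n 0 z (n 0 z (n 0 z z))))))))))))
 z))))))))))))))) (n 0 (n 0 z (n 0 z (n 511 (n 0 z (n 0 z (n 0 z (n 0 z (n 0 z (n 0 z (n 0 z (n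
 0 z (n 0 z (n 0 z (n 0 z (n 0 z (n 0 z z))))))))))))) (n 511 (n 0 z (n 0 z (n 0 z (n 0 z (n 0 z
 (n 0 z (n 0 z (n 0 z (n 0 z (n 0 z (n 0 z (n 0 z (n 0 z z))))))))))))) (n 35 (n 0 z (n 0 z (n 0
 z (n 0 z (n 0 z (n 0 z (n 0 z (n 0 z (n 0 z (n 0 z (n 0 z (n 0 z (n 0 z (n 0 z (n 0 z (n 0 z (n
 0 z (n 0 z (n 0 z (n 0 z z)))))))))))))))))))) (n 35 (n 0 z (n 0 z (n 0 z (n 2 (n 1 z (n 2 (n 0
 z (n 0 z (n 0 z (n 0 z (n 0 z (n 0 (n 8868675 z z) z)))))) (n 1 z (n 2 (n 0 z (n 0 z (n 0 z (n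
 0 z (n 0 z (n 0 (n 8790035 z z) z)))))) (n 2 (n 0 z (n 0 z (n 0 z (n 0 z (n 0 z (n 0 (n 8790035
 z z) z)))))) (n 2 (n 0 z (n 0 z (n 0 z (n 0 z (n 0 z (n 0 (n 1156 z z) z)))))) (n 2 (n 0 z (n 0
 z (n 0 z (n 0 z (n 0 z (n 0 (n 8868675 z z) z)))))) (n 2 (n 0 z (n 0 z (n 0 z (n 0 z (n 0 z (n
 0 z z)))))) z)))))))) (n 0 z (n 0 z (n 0 z (n 0 z (n 0 z (n 0 z (n 0 z (n 0 z (n 0 z (n 0 z (n
 0 z (n 0 z (n 0 z (n 0 z (n 0 z (n 0 z z)))))))))))))))))))) (n 247 (n 0 z (n 0 z (n 0 z (n 0 z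
 (n 0 z (n 0 z (n 0 z (n 0 z (n 0 z (n 0 z (n 0 z (n 0 z (n 0 z (n 0 z (n 0 z z)))))))))))))))
 (n 247 (n 0 z (n 0 z (n 0 z (n 0 z (n 2 (n 2 (n 0 z (n 0 z (n 0 z (n 0 z (n 0 z (n 0 z z))))))
 (n 2 (n 0 z (n 0 z (n 0 z (n 0 z (n 0 z (n 0 z z)))))) (n 2 (n 0 z (n 0 z (n 0 z (n 0 z (n 0 z
 (n 0 z z)))))) (n 2 (n 0 z (n 0 z (n 0 z (n 0 z (n 0 z (n 0 z z)))))) (n 2 (n 0 z (n 0 z (n 0 z
 (n 0 z (n 0 z (n 0 z z)))))) (n 2 (n 0 z (n 0 z (n 0 z (n 0 z (n 0 z (n 0 z z)))))) z)))))) (n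
 0 z (n 0 z (n 0 z (n 0 z (n 0 z (n 0 z (n 0 z (n 0 z (n 0 z (n 0 z z))))))))))))))) (n 291 (n 0
 z (n 0 z (n 0 z (n 0 z (n 0 z (n 0 z (n 0 z (n 0 z (n 0 z (n 0 z (n 0 z (n 0 z z)))))))))))) (n
 291 (n 0 z (n 0 z (n 0 z (n 0 z (n 0 z (n 0 z (n 0 z (n 0 z (n 0 z (n 0 z (n 0 z (n 0 z
 z)))))))))))) (n 289 (n 0 z (n 0 z (n 0 z (n 0 z (n 0 z (n 0 z (n 0 z (n 0 z (n 0 z (n 0 z (n 0
 z (n 0 z (n 0 z (n 0 z z)))))))))))))) (n 289 (n 0 z (n 0 z (n 0 z (n 2 (n 0 z (n 0 z z)) (n 0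
 z (n 0 z (n 0 z (n 0 z (n 0 z (n 0 z (n 0 z (n 0 z (n 0 z (n 0 z z)))))))))))))) (n 289 (n 0 z
 (n 0 z (n 0 z (n 0 z (n 0 z (n 0 z (n 0 z (n 0 z (n 0 z (n 0 z (n 0 z (n 0 z (n 0 z (n 0 z
 z)))))))))))))) (n 289 (n 0 z (n 0 z (n 0 z (n 0 z (n 0 z (n 0 z (n 0 z (n 0 z (n 0 z (n 0 z (n
 0 z (n
 0x4ec8ec86037e08a28a082082081e8217218dc7df7a085f8638607a08627de85f8a079f7e08207df7e28200801 z
 (n 0 z (n 0 z z)))))))))))))) z)))))))))))))) (n 0 (n 0 z (n 743 (n 0 z (n 0 z (n 0 z (n 0 z (n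
 0 z (n 0 z (n 0 z (n 0 z (n 0 z (n 0 z (n 0 z (n 0 z (n 0 z z))))))))))))) (n 743 (n 0 z (n 0 z
 (n 0 z (n 0 z (n 0 z (n 0 z (n 0 z (n 0 z (n 0 z (n 0 z (n 0 z (n 0 z (n 0 z z))))))))))))) (n
 23 (n 2 (n 0 z (n 2 (n 0 z (n 0 z (n 0 z (n 0 z (n 0 z (n 0 (n 8855571 z z) z)))))) (n 2 (n 0 z
 (n 0 z (n 0 z (n 0 z (n 0 z (n 0 z z)))))) (n 2 (n 0 z (n 0 z (n 0 z (n 0 z (n 0 z (n 0 z
 z)))))) (n 2 (n 0 z (n 0 z (n 0 z (n 0 z (n 0 z (n 0 z z)))))) (n 2 (n 0 z (n 0 z (n 0 z (n 0 z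
 (n 0 z (n 0 z z)))))) (n 2 (n 0 z (n 0 z (n 0 z (n 0 z (n 0 z (n 0 z z)))))) (n 2 (n 0 z (n 0 z
 (n 0 z (n 0 z (n 0 z (n 0 z z)))))) (n 2 (n 0 z (n 0 z (n 0 z (n 0 z (n 0 z (n 0 z z))))))
 z))))))))) (n 0 z (n 0 z (n 0 z (n 0 z (n 0 z (n 0 z (n 0 z (n 0 z (n 0 z (n 0 z (n 0 z (n 0 z
 z))))))))))))) (n 23 (n 0 z (n 0 z (n 0 z (n 0 z (n 0 z (n 0 z (n 0 z (n 0 z (n 0 z (n 0 z (n 0
 z (n 0 z (n 0 z z))))))))))))) (n 555 (n 0 z (n 0 z (n 0 z (n 0 z (n 0 z (n 2 (n 0 z (n 1 z (n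
 2 (n 0 z (n 0 z (n 0 z (n 0 z (n 0 z (n 0 (n 8855571 z z) z)))))) (n 2 (n 0 z (n 0 z (n 0 z (n
 0 z (n 0 z (n 0 (n 8855571 z z) z)))))) (n 2 (n 0 z (n 0 z (n 0 z (n 0 z (n 0 z (n 0 (n 1204 z
 z) z)))))) (n 2 (n 0 z (n 0 z (n 0 z (n 0 z (n 0 z (n 0 (n 8803139 z z) z)))))) (n 2 (n 0 z (n
 0 z (n 0 z (n 0 z (n 0 z (n 0 z z)))))) z))))))) (n 0 z (n 0 z (n 0 z (n 0 z (n 0 z (n 0 z (n 0
 z z))))))))))))) (n 555 (n 0 z (n 0 z (n 0 z (n 0 z (n 0 z (n 0 z (n 0 z (n 0 z (n 0 z (n 0 z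
 (n 0 z (n 0 z (n 0 z z))))))))))))) (n 303 (n 0 z (n 0 z (n 0 z (n 0 z (n 0 z (n 0 z (n 0 z (n
 0 z (n 0 z (n 0 z (n 0 z z))))))))))) (n 303 (n 0 z (n 0 z (n 0 z (n 0 z (n 0 z (n 0 z (n 0 z
 (n 0 z (n 0 z (n 0 z (n 0 z z))))))))))) (n 301 (n 0 z (n 0 z (n 0 z (n 0 z (n 0 z (n 0 z (n 0
 z (n 0 z (n 0 z (n 0 z (n 0 z (n 0 z z)))))))))))) (n 301 (n 0 z (n 0 z (n 0 z (n 2 (n 0 z (n 0
 z z)) (n 0 z (n 0 z (n 0 z (n 0 z (n 0 z (n 0 z (n 0 z (n 0 z z)))))))))))) (n 301 (n 0 z (n 0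
 z (n 0 z (n 0 z (n 0 z (n 0 z (n 0 z (n 0 z (n 0 z (n 0 z (n 0 z (n 0 z z)))))))))))) (n 301 (n
 0 z (n 0 z (n 0 z (n 0 z (n 0 z (n 0 z (n 0 z (n 0 z (n 0 z (n 0 z (n 0 z (n 0 z z))))))))))))
 z))))))))))))) (n 0 (n 79 (n 0 z (n 0 z (n 0 z (n 0 z (n 0 z (n 0 z z)))))) (n 79 (n 0 z (n 0 z
 (n 0 z (n 0 z (n 0 z (n 0 z z)))))) (n 31 (n 0 z (n 0 z (n 0 z (n 0 z (n 0 z (n 0 z (n 0 z (n 0
 z z)))))))) (n 31 (n 0 z (n 0 z (n 0 z (n 0 z (n 0 z (n 0 z (n 0 z (n 0 z z)))))))) (n 55 (n 0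
 z (n 0 z (n 0 z (n 0 z (n 0 z (n 0 z (n 0 z z))))))) (n 55 (n 0 z (n 0 z (n 0 z (n 0 z (n 0 z
 (n 0 z (n 0 z z))))))) (n 291 (n 0 z (n 0 z (n 0 z (n 0 z (n 0 z (n 0 z (n 0 z z))))))) (n 291
 (n 0 z (n 0 z (n 0 z (n 0 z (n 0 z (n 0 z (n 0 z z))))))) (n 53 (n 0 z (n 0 z (n 0 z (n 0 z (n
 0 z (n 0 z (n 0 z (n 0 z (n 0 z z))))))))) (n 53 (n 0 z (n 0 z (n 0 z (n 0 z (n 0 z (n 0 z (n 0
 z (n 0 z (n 0 z z))))))))) (n 53 (n 0 z (n 0 z (n 0 z (n 0 z (n 0 z (n 0 z (n 0 z (n 0 z (n 0 z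
 z))))))))) (n 53 (n 0 z (n 0 z (n 0 z (n 0 z (n 0 z (n 0 z (n 0 z (n 0 z (n 2 z z)))))))))
 z)))))))))))) (n 0 (n 0 z (n 103 (n 0 z (n 0 z (n 0 z (n 0 z (n 0 z (n 0 z (n 0 z (n 0 z (n 0 z
 z))))))))) (n 103 (n 0 z (n 0 z (n 2 (n 1 z (n 1 z (n 1 z (n 1 z (n 1 z (n 1 z (n 1 z (n 2 (n 0
 z (n 0 z (n 0 z (n 0 z (n 0 z (n 0 (n 8868675 z z) z)))))) z)))))))) (n 0 z (n 0 z (n 0 z (n 0
 z (n 0 z (n 0 z z))))))))) (n 487 (n 0 z (n 0 z (n 0 z (n 0 z z)))) (n 487 (n 2 (n 1 z (n 1 z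
 (n 2 (n 0 z (n 0 z (n 0 z (n 0 z (n 0 z (n 0 z z)))))) (n 1 z (n 2 (n 0 z (n 0 z (n 0 z (n 0 z
 (n 0 z (n 0 (n 8868675 z z) z)))))) (n 2 (n 0 z (n 0 z (n 0 z (n 0 z (n 0 z (n 0 (n 8868675 z
 z) z)))))) z)))))) (n 0 z (n 0 z (n 0 z z)))) (n 63 (n 0 z (n 0 z (n 0 z (n 0 z z)))) (n 63 (n
 0 z (n 0 z (n 0 z (n 0 z z)))) (n 61 (n 0 z (n 0 z (n 0 z (n 0 z (n 0 z (n 0 z (n 0 z (n 0 z
 z)))))))) (n 61 (n 0 z (n 0 z (n 0 z (n 0 z (n 0 z (n 0 z (n 0 z (n 0 z z)))))))) (n 61 (n 0 z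
 (n 0 z (n 0 z (n 0 z (n 0 z (n 0 z (n 0 z (n 0 z z)))))))) (n 61 (n 0 z (n 0 z (n 0 z (n 0 z (n
 0 z (n 0 z (n
 0x4ec8ec86037e08a28a082082081e8217218dc7df7a085f8638607a08627de85f8a079f7e08207df7e28200801 z
 (n 0 z z)))))))) z))))))))))) (n 0 (n 727 (n 0 z (n 2 (n 0 z (n 1 z (n 1 z (n 1 z (n 1 z (n 2
 (n 0 z (n 0 z (n 0 z (n 0 z (n 0 z (n 0 z z)))))) (n 1 z (n 2 (n 0 z (n 0 z (n 0 z (n 0 z (n 0
 z (n 0 z z)))))) (n 2 (n 0 z (n 0 z (n 0 z (n 0 z (n 0 z (n 0 (n 8803139 z z) z))))))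
 z))))))))) (n 0 z (n 0 z (n 0 z z))))) (n 727 (n 0 z (n 0 z (n 0 z (n 0 z (n 0 z z))))) (n 507
 (n 2 (n 0 z (n 1 z (n 1 z (n 2 (n 0 z (n 0 z (n 0 z (n 0 z (n 0 z (n 0 (n 8855571 z z) z))))))
 (n 1 z (n 2 (n 0 z (n 0 z (n 0 z (n 0 z (n 0 z (n 0 (n 8803139 z z) z)))))) (n 2 (n 0 z (n 0 z
 (n 0 z (n 0 z (n 0 z (n 0 z z)))))) z))))))) (n 0 z (n 0 z (n 0 z (n 0 z z))))) (n 507 (n 0 z
 (n 0 z (n 0 z (n 0 z (n 0 z z))))) (n 111 (n 0 z (n 0 z (n 0 z (n 0 z z)))) (n 111 (n 0 z (n 0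
 z (n 0 z (n 0 z z)))) (n 109 (n 0 z (n 0 z (n 0 z (n 0 z (n 0 z (n 0 z (n 0 z (n 0 z z))))))))
 (n 109 (n 0 z (n 0 z (n 2 (n 0 z (n 0 z z)) (n 0 z (n 0 z (n 0 z (n 0 z (n 0 z z)))))))) (n 109
 (n 0 z (n 0 z (n 0 z (n 0 z (n 0 z (n 0 z (n 0 z (n 0 z z)))))))) (n 109 (n 0 z (n 0 z (n 0 z
 (n 0 z (n 0 z (n 0 z (n 0 z (n 0 z z)))))))) z)))))))))) (n 0 (n 0 z (n 295 (n 0 z (n 0 z (n 0
 z (n 0 z (n 0 z (n 0 z (n 0 z (n 0 z (n 0 z (n 0 z z)))))))))) (n 295 (n 0 z (n 0 z (n 0 z (n 2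
 (n 1 z (n 1 z (n 2 (n 0 z (n 0 z (n 0 z (n 0 z (n 0 z (n 0 z z)))))) (n 1 z (n 2 (n 0 z (n 0 z
 (n 0 z (n 0 z (n 0 z (n 0 z z)))))) (n 2 (n 0 z (n 0 z (n 0 z (n 0 z (n 0 z (n 0 (n 8868675 z
 z) z)))))) z)))))) (n 0 z (n 0 z (n 0 z (n 0 z (n 0 z (n 0 z z)))))))))) (n 15 (n 0 z (n 0 z (n
 0 z (n 2 (n 0 z (n 2 (n 0 z (n 0 z (n 0 z (n 0 z (n 0 z (n 0 (n 8790035 z z) z)))))) (n 1 z (n
 2 (n 0 z (n 0 z (n 0 z (n 0 z (n 0 z (n 0 z z)))))) (n 2 (n 0 z (n 0 z (n 0 z (n 0 z (n 0 z (n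
 0 z z)))))) z))))) (n 0 z (n 0 z (n 0 z (n 0 z (n 0 z (n 0 z (n 0 z z))))))))))) (n 15 (n 0 z
 (n 0 z (n 0 z (n 0 z (n 0 z (n 0 z (n 0 z (n 0 z (n 0 z (n 0 z (n 0 z z))))))))))) (n 13 (n 0 z
 (n 0 z (n 0 z (n 0 z (n 0 z (n 0 z (n 0 z (n 0 z (n 0 z (n 0 z (n 0 z z))))))))))) (n 13 (n 0 z
 (n 0 z (n 0 z (n 0 z (n 0 z (n 0 z (n 0 z (n 0 z (n 0 z (n 0 z (n 0 z z))))))))))) (n 13 (n 0 z
 (n 0 z (n 0 z (n 0 z (n 2 (n 0 z z) (n 0 z (n 0 z (n 0 z (n 0 z (n 0 z (n 0 z z))))))))))) (n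
 13 (n 0 z (n 0 z (n 0 z (n 0 z (n 0 z (n 0 z (n 0 z (n 0 z (n 0 z (n
 0x4ec8ec86037e08a28a082082081e8217218dc7df7a085f8638607a08627de85f8a079f7e08207df7e28200801 z
 (n 0 z z))))))))))) z))))))))) (n 0 (n 247 (n 0 z (n 0 z (n 0 z (n 2 (n 0 z (n 1 z (n 1 z (n 1
 z (n 1 z (n 1 z (n 2 (n 0 z (n 0 z (n 0 z (n 0 z (n 0 z (n 0 (n 8803139 z z) z)))))) z)))))))
 (n 0 z (n 0 z (n 0 z z))))))) (n 247 (n 0 z (n 0 z (n 0 z (n 0 z (n 0 z (n 0 z (n 0 z z)))))))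
 (n 15 (n 0 z (n 0 z (n 0 z (n 0 z (n 0 z (n 0 z z)))))) (n 15 (n 2 (n 2 (n 0 z (n 0 z (n 0 z (n
 0 z (n 0 z (n 0 (n 8855571 z z) z)))))) (n 1 z (n 2 (n 0 z (n 0 z (n 0 z (n 0 z (n 0 z (n 0 (n
 8803139 z z) z)))))) (n 2 (n 0 z (n 0 z (n 0 z (n 0 z (n 0 z (n 0 z z)))))) z)))) (n 0 z (n 0 z
 (n 0 z (n 0 z (n 0 z z)))))) (n 13 (n 2 (n 0 z (n 0 z (n 0 z z))) (n 0 z (n 0 z (n 0 z (n 0 z
 (n 0 z (n 0 z (n 0 z (n 0 z (n 0 z (n 0 z (n 0 z (n 0 z (n 0 z (n 0 z z))))))))))))))) (n 13 (n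
 0 z (n 0 z (n 0 z (n 0 z (n 2 (n 0 z (n 0 z z)) (n 0 z (n 0 z (n 0 z (n 0 z (n 0 z (n 0 z (n 0
 z (n 0 z (n 0 z (n 0 z z))))))))))))))) (n 13 (n 0 z (n 0 z (n 0 z (n 0 z (n 0 z (n 0 z (n 0 z
 (n 0 z (n 0 z (n 0 z (n 0 z (n 0 z (n 0 z (n 0 z (n 0 z z))))))))))))))) (n 13 (n 0 z (n 0 z (n
 0 z (n 0 z (n 0 z (n 0 z (n 0 z (n 0 z (n 0 z (n 0 z (n 0 z (n 0 z (n 0 z (n 0 z (n 0 z
 z))))))))))))))) z)))))))) (n 0 (n 0 z (n 291 (n 2 (n 0 z (n 1 z (n 1 z (n 1 z (n 2 (n 0 z (n 0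
 z (n 0 z (n 0 z (n 0 z (n 0 z z)))))) z))))) (n 0 z (n 0 z (n 0 z (n 0 z (n 0 z (n 0 z (n 0 z
 (n 0 z (n 0 z (n 0 z (n 0 z z)))))))))))) (n 291 (n 0 z (n 0 z (n 0 z (n 0 z (n 0 z (n 0 z (n 0
 z (n 0 z (n 0 z (n 0 z (n 0 z (n 0 z z)))))))))))) (n 289 (n 0 z (n 0 z (n 0 z (n 0 z (n 0 z (n
 0 z (n 0 z (n 0 z (n 0 z (n 0 z (n 0 z (n 0 z (n 0 z (n 0 z (n 0 z (n 0 z (n 0 z (n 0 z (n 0 z
 (n 0 z (n 0 z (n 0 z (n 0 z (n 0 z (n 0 z (n 0 z (n 0 z (n 0 z (n 0 z (n 0 z (n 0 z (n 0 z (n 0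
 z (n 0 z (n 0 z (n 0 z (n 0 z (n 0 z (n 0 z (n 0 z (n 0 z (n 0 z (n 0 z (n 0 z (n 0 z (n 0 z (n
 0 z (n 0 z (n 0 z (n 0 z (n 0 z (n 0 z (n 0 z (n 0 z (n 0 z (n 0 z
 z)))))))))))))))))))))))))))))))))))))))))))))))))))))))) (n 289 (n 0 z (n 0 z (n 0 z (n 0 z (n
 0 z (n 0 z (n 0 z (n 0 z (n 0 z (n 0 z (n 0 z (n 0 z (n 0 z (n 0 z (n 0 z (n 0 z (n 0 z (n 0 z
 (n 0 z (n 0 z (n 0 z (n 0 z (n 0 z (n 0 z (n 0 z (n 0 z (n 0 z (n 0 z (n 0 z (n 0 z (n 0 z (n 0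
 z (n 0 z (n 0 z (n 0 z (n 0 z (n 0 z (n 0 z (n 0 z (n 0 z (n 0 z (n 0 z (n 0 z (n 0 z (n 0 z (n
 0 z (n 0 z (n 0 z (n 0 z (n 0 z (n 0 z (n 0 z (n 0 z (n 0 z (n 0 z (n 0 z
 z)))))))))))))))))))))))))))))))))))))))))))))))))))))))) (n 289 (n 0 z (n 0 z (n 0 z (n 0 z (n
 0 z (n 0 z (n 0 z (n 0 z (n 0 z (n 0 z (n 0 z (n 0 z (n 0 z (n 0 z (n 0 z (n 0 z (n 0 z (n 0 z
 (n 0 z (n 0 z (n 0 z (n 0 z (n 0 z (n 0 z (n 0 z (n 0 z (n 0 z (n 0 z (n 0 z (n 0 z (n 0 z (n 0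
 z (n 0 z (n 0 z (n 2 (n 0 z z) (n 0 z (n 0 z (n 0 z (n 0 z (n 0 z (n 0 z (n 0 z (n 0 z (n 0 z
 (n 0 z (n 0 z (n 0 z (n 0 z (n 0 z (n 0 z (n 0 z (n 0 z (n 0 z (n 0 z (n 0 z (n 0 z
 z)))))))))))))))))))))))))))))))))))))))))))))))))))))))) (n 289 (n 0 z (n 0 z (n 0 z (n 0 z (n
 0 z (n 0 z (n 0 z (n 0 z (n 0 z (n 0 z (n 0 z (n 0 z (n 0 z (n 0 z (n 0 z (n 0 z (n 0 z (n 0 z
 (n 0 z (n 0 z (n 0 z (n 0 z (n 0 z (n 0 z (n 0 z (n 0 z (n 0 z (n 0 z (n 0 z (n 0 z (n 0 z (n 0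
 z (n 0 z (n 0 z (n 0 z (n 0 z (n 0 z (n 0 z (n 0 z (n 0 z (n
 0x8ec6e208037e185b7238e27a095a82992281f89b79d8a181e5ea7e186371a79e7617a3a6b7df8df89e81e0801 z
 (n 0 z (n 0 z (n 0 z (n 0 z (n 0 z (n 0 z (n 0 z (n 0 z (n 0 z (n 0 z (n 0 z (n 0 z (n 0 z (n 0
 z (n 0 z z)))))))))))))))))))))))))))))))))))))))))))))))))))))))) z))))))) (n 0 (n 243 (n 0 z
 (n 0 z (n 0 z (n 0 z (n 0 z (n 0 z (n 0 z (n 0 z z)))))))) (n 243 (n 0 z (n 2 (n 2 (n 0 z (n 0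
 z (n 0 z (n 0 z (n 0 z (n 0 z z)))))) (n 1 z (n 2 (n 0 z (n 0 z (n 0 z (n 0 z (n 0 z (n 0 z
 z)))))) (n 2 (n 0 z (n 0 z (n 0 z (n 0 z (n 0 z (n 0 (n 8803139 z z) z)))))) z)))) (n 0 z (n 0
 z (n 0 z (n 0 z (n 0 z (n 0 z z)))))))) (n 241 (n 2 (n 0 z (n 0 z (n 0 z z))) (n 0 z (n 0 z (n
 0 z (n 0 z (n 0 z (n 0 z (n 0 z (n 0 z (n 0 z (n 0 z (n 0 z (n 0 z (n 0 z (n 0 z (n 0 z (n 0 z
 (n 0 z (n 0 z (n 0 z (n 0 z (n 0 z (n 0 z z))))))))))))))))))))))) (n 241 (n 0 z (n 0 z (n 0 z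
 (n 0 z (n 0 z (n 2 (n 0 z (n 0 z z)) (n 0 z (n 0 z (n 0 z (n 0 z (n 0 z (n 0 z (n 0 z (n 0 z (n
 0 z (n 0 z (n 0 z (n 0 z (n 0 z (n 0 z (n 0 z (n 0 z (n 0 z z))))))))))))))))))))))) (n 241 (n
 0 z (n 0 z (n 0 z (n 0 z (n 0 z (n 0 z (n 0 z (n 0 z (n 0 z (n 0 z (n 0 z (n 0 z (n 0 z (n 0 z
 (n 0 z (n 0 z (n 0 z (n 0 z (n 0 z (n 0 z (n 0 z (n 0 z (n 0 z z))))))))))))))))))))))) (n 241
 (n 0 z (n 0 z (n 0 z (n 0 z (n 0 z (n 0 z (n 0 z (n 0 z (n 0 z (n 0 z (n 0 z (n 0 z (n 0 z (n 0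
 z (n 0 z (n 0 z (n 0 z (n 0 z (n 0 z (n 0 z (n 0 z (n 0 z (n 0 z z)))))))))))))))))))))))
 z)))))) (n 0 (n 0 z (n 1 (n 0 z (n 0 z (n 0 z (n 0 z (n 0 z (n 0 z (n 0 z (n 0 z (n 0 z (n 0 z
 (n 0 z (n 0 z (n 0 z (n 0 z (n 0 z (n 0 z (n 0 z (n 0 z (n 0 z (n 0 z (n 0 z (n 0 z (n 0 z (n 0
 z (n 0 z (n 0 z (n 0 z (n 0 z (n 0 z (n 0 z (n 0 z (n 0 z (n 0 z (n 0 z (n 0 z (n 0 z (n 0 z (n
 0 z (n 0 z (n 0 z (n 0 z (n 0 z (n 0 z (n 0 z (n 0 z (n 0 z (n 0 z (n 0 z (n 0 z (n 0 z (n 0 z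
 (n 0 z (n 0 z (n 0 z (n 0 z (n 0 z z)))))))))))))))))))))))))))))))))))))))))))))))))))))))) (n
 1 (n 0 z (n 0 z (n 0 z (n 0 z (n 0 z (n 0 z (n 0 z (n 0 z (n 0 z (n 0 z (n 0 z (n 0 z (n 0 z (n
 0 z (n 0 z (n 0 z (n 0 z (n 0 z (n 0 z (n 0 z (n 0 z (n 0 z (n 0 z (n 0 z (n 0 z (n 0 z (n 0 z
 (n 0 z (n 0 z (n 0 z (n 0 z (n 0 z (n 0 z (n 0 z (n 0 z (n 0 z (n 0 z (n 2 (n 0 z (n 0 z z)) (n
 0 z (n 0 z (n 0 z (n 0 z (n 0 z (n 0 z (n 0 z (n 0 z (n 0 z (n 0 z (n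
 0x2ec6ec64078218618a182181f85e8e175d8e18de81e8e08627e175e79f81e8a08617e085e7df8a07a18600801 z
 (n 0 z (n 0 z (n 0 z (n 0 z (n 0 z (n 0 z (n 0 z
 z)))))))))))))))))))))))))))))))))))))))))))))))))))))))) (n 1 (n 0 z (n 0 z (n 0 z (n 0 z (n 0
 z (n 0 z (n 0 z (n 0 z (n 0 z (n 0 z (n 0 z (n 0 z (n 0 z (n 0 z (n 0 z (n 0 z (n 0 z (n 0 z (n
 0 z (n 0 z (n 0 z (n 0 z (n 0 z (n 0 z (n 0 z (n 0 z (n 0 z (n 0 z (n 0 z (n 0 z (n 0 z (n 0 z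
 (n 0 z (n 0 z (n 0 z (n 0 z (n 0 z (n 0 z (n 0 z (n 0 z (n 0 z (n 0 z (n 0 z (n 0 z (n 0 z (n 0
 z (n 0 z (n 0 z (n 0 z (n 0 z (n 0 z (n 0 z (n 0 z (n 0 z (n 0 z (n 0 z
 z)))))))))))))))))))))))))))))))))))))))))))))))))))))))) (n 1 (n 0 z (n 0 z (n 0 z (n 0 z (n 0
 z (n 0 z (n 0 z (n 0 z (n 0 z (n 0 z (n 0 z (n 0 z (n 0 z (n 0 z (n 0 z (n 0 z (n 0 z (n 0 z (n
 0 z (n 0 z (n 0 z (n 0 z (n 0 z (n 0 z (n 0 z (n 0 z (n 0 z (n 0 z (n 0 z (n 0 z (n 0 z (n 0 z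
 (n 0 z (n 0 z (n 0 z (n 0 z (n 0 z (n 0 z (n 0 z (n 0 z (n 0 z (n 0 z (n 0 z (n 0 z (n 0 z (n 0
 z (n 0 z (n 0 z (n 0 z (n 0 z (n 0 z (n 0 z (n 0 z (n 0 z (n 0 z (n 0 z
 z)))))))))))))))))))))))))))))))))))))))))))))))))))))))) z))))) (n 0 (n 293 (n 0 z (n 0 z (n 0
 z (n 0 z (n 0 z (n 0 z (n 0 z (n 0 z (n 0 z (n 0 z (n 0 z (n 0 z (n 0 z (n 0 z (n 0 z (n 0 z (n
 0 z (n 0 z (n 0 z (n 0 z (n 0 z (n 0 z (n 0 z (n 0 z (n 0 z (n 0 z (n 0 z (n 0 z (n 0 z (n 0 z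
 (n 0 z (n 0 z (n 0 z (n 0 z (n 0 z (n 0 z (n 0 z (n 0 z (n 0 z (n 0 z (n 0 z (n 0 z (n 0 z (n 0
 z (n 0 z (n 0 z (n 0 z (n 0 z (n 0 z z))))))))))))))))))))))))))))))))))))))))))))))))) (n 293
 (n 0 z (n 0 z (n 0 z (n 0 z (n 0 z (n 0 z (n 0 z (n 0 z (n 0 z (n 0 z (n 0 z (n 0 z (n 2 (n 0 z
 (n 0 z z)) (n 0 z (n 0 z (n 0 z (n 0 z (n 0 z (n 0 z (n 0 z (n 0 z (n 0 z (n 0 z (n 0 z (n 0 z
 (n 0 z (n 0 z (n 0 z (n 0 z (n 0 z (n 0 z (n 0 z (n 0 z (n 0 z (n 0 z (n 0 z (n 0 z (n 0 z (n 0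
 z (n 0 z (n 0 z (n 0 z (n 0 z (n 0 z (n 0 z (n 0 z (n 0 z (n 0 z (n 0 z
 z))))))))))))))))))))))))))))))))))))))))))))))))) (n 293 (n 0 z (n 0 z (n 0 z (n 0 z (n 0 z (n
 0 z (n 0 z (n 0 z (n 0 z (n 0 z (n 0 z (n 0 z (n 0 z (n 0 z (n 0 z (n 0 z (n 0 z (n 0 z (n 0 z
 (n 0 z (n 0 z (n 0 z (n 0 z (n 0 z (n 0 z (n 0 z (n 0 z (n 0 z (n 0 z (n 0 z (n 0 z (n 0 z (n 0
 z (n 0 z (n 0 z (n 0 z (n 0 z (n 0 z (n 0 z (n 0 z (n 0 z (n 0 z (n 0 z (n 0 z (n 0 z (n 0 z (n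
 0 z (n 0 z (n 0 z z))))))))))))))))))))))))))))))))))))))))))))))))) (n 293 (n 0 z (n 0 z (n 0
 z (n 0 z (n 0 z (n 0 z (n 0 z (n 0 z (n 0 z (n 0 z (n 0 z (n 0 z (n 0 z (n 0 z (n 0 z (n 0 z (n
 0 z (n 0 z (n 0 z (n 0 z (n 0 z (n 0 z (n 0 z (n 0 z (n 0 z (n 0 z (n 0 z (n 0 z (n 0 z (n 0 z
 (n 0x4ec6ec640382275e8a189d7e07e17e37a081f82286082081f72281f7df8e08248608e089e7e07a28218200801
 z (n 0 z (n 0 z (n 0 z (n 0 z (n 0 z (n 0 z (n 0 z (n 0 z (n 0 z (n 0 z (n 0 z (n 0 z (n 0 z (n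
 0 z (n 0 z (n 0 z (n 0 z (n 0 z z))))))))))))))))))))))))))))))))))))))))))))))))) z)))) (n 0
 (n 0 z (n 0 z (n 0 z z))) (n 0 (n 0 z (n 0 z z)) (n 0 (n 0 z z) (n 0 z z)))))))))))))))) (n 0
 (n 1 (n 1228 z (n 6619947 z (n 4396587 z (n 2 z (n 1228 z (n 1228 z z)))))) (n 1 (n 1228 z (n
 10 z (n 1228 z (n 6619947 z (n 1228 z (n 1228 z z)))))) (n 0 z (n 1 (n 6496515 z (n 6496515 z
 (n 6496515 z (n 6496515 z (n 6496515 z (n 6496515 z z)))))) z)))) (n 0 (n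
 0xea89e6e889b6ea09a29d8c0 (n 0 (n 0 (n 7741459 z (n 7741459 z (n 7741459 z (n 7741459 z (n
 7741459 z (n 7741459 z z)))))) (n 0 (n 16324 z (n 16324 z (n 16324 z (n 7607851 z (n 16324 z (n
 16324 z z)))))) z)) (n 0 (n 145 (n 1 (n 7741459 z (n 7741459 z (n 7741459 z (n 7741459 z (n
 7741459 z (n 7741459 z z)))))) (n 1 (n 1228 z (n 1228 z (n 1228 z (n 6566259 z (n 7754795 z (n
 1228 z z)))))) (n 1 (n 1228 z (n 1228 z (n 2 z (n 7754795 z (n 1228 z (n 1228 z z)))))) (n 0 z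
 (n 0 z (n 1 (n 7741459 z (n 7741459 z (n 7741459 z (n 7741459 z (n 7741459 z (n 7741459 z
 z)))))) (n 1 (n 7615059 z (n 7615059 z (n 7615059 z (n 7615059 z (n 7615059 z (n 7615059 z
 z)))))) (n 1 (n 7615059 z (n 7615059 z (n 7615059 z (n 7615059 z (n 7615059 z (n 7615059 z
 z)))))) (n 1 (n 7741459 z (n 7741459 z (n 7741459 z (n 7741459 z (n 7741459 z (n 7741459 z
 z)))))) (n 0 z (n 1 (n 7754795 z (n 1228 z (n 4400923 z (n 5515019 z (n 6559547 z (n 1228 z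
 z)))))) (n 1 (n 7754795 z (n 1228 z (n
 0xea8ea86037e086082082082081f82085f82082081f82082082181f8208207df8208208208208207e08200801 z (n
 5515019 z (n 1228 z (n 1228 z z)))))) z)))))))))))) (n 243 (n 1 (n 2236 z (n 2236 z (n 6631539
 z (n 7668523 z (n 6567771 z (n 2236 z z)))))) (n 1 (n 7545091 z (n 7545091 z (n 7545091 z (n
 7545091 z (n 7545091 z (n 7545091 z z)))))) (n 1 (n 7545091 z (n 7545091 z (n 7545091 z (n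
 7545091 z (n 7545091 z (n 7545091 z z)))))) (n 1 (n 7545091 z (n 7545091 z (n 7545091 z (n
 7545091 z (n 7545091 z (n 7545091 z z)))))) z)))) (n 9 (n 1 (n 7741459 z (n 7741459 z (n
 7741459 z (n 7741459 z (n 7741459 z (n 7741459 z z)))))) (n 0 z (n 1 (n 2252 z (n 2252 z (n 10
 z (n 6559547 z (n 2252 z (n 2252 z z)))))) (n 0 z (n 1 (n 7545091 z (n 7545091 z (n 7545091 z
 (n 7545091 z (n 7545091 z (n 7545091 z z)))))) z))))) (n 249 (n 1 (n 7741459 z (n 18 z (n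
 6623347 z (n 6559579 z (n 1420 z (n 1420 z z)))))) (n 1 (n 7545091 z (n 7545091 z (n 7545091 z
 (n 7545091 z (n 7545091 z (n 7545091 z z)))))) (n 1 (n 7545091 z (n 7545091 z (n 7545091 z (n
 7545091 z (n 7545091 z (n 7545091 z z)))))) (n 1 (n 7545091 z (n 7545091 z (n 7545091 z (n
 7545091 z (n 7545091 z (n 7545091 z z)))))) z)))) (n 33 (n 1 (n 7545091 z (n 7545091 z (n
 7545091 z (n 7545091 z (n 7545091 z (n 7545091 z z)))))) (n 1 (n 7545091 z (n 7545091 z (n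
 7545091 z (n 7545091 z (n 7545091 z (n 7545091 z z)))))) (n 1 (n 7741459 z (n 7615059 z (n
 7615059 z (n 7615059 z (n 7615059 z (n 7615059 z z)))))) (n 1 (n 7741459 z (n 7615059 z (n
 7615059 z (n 7615059 z (n 7615059 z (n 7615059 z z)))))) z)))) (n 35 (n 1 (n 7741459 z (n 1324
 z (n 1324 z (n
 0x675464230380ea8c8060385e81c6dc9227e37e78257a69588a67e38e686049c8a36de99b7dd82389b92599d91d8e87611001
 z (n 1324 z (n 1324 z z)))))) (n 1 (n 7545091 z (n 7545091 z (n 7545091 z (n 7545091 z (n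
 7545091 z (n 7545091 z z)))))) (n 1 (n 7741459 z (n 1324 z (n 1324 z (n 1324 z (n 92 z (n 1324
 z z)))))) (n 1 (n 7545091 z (n 7545091 z (n 7545091 z (n 7545091 z (n 7545091 z (n 7545091 z
 z)))))) (n 1 (n 7741459 z (n 7668523 z (n 7668523 z (n 7668523 z (n 4399475 z (n 7668523 z
 z)))))) (n 1 (n 7741459 z (n 7668523 z (n 7668523 z (n 7668523 z (n 7668523 z (n 7668523 z
 z)))))) (n 1 (n 7741459 z (n 1324 z (n 3213131 z (n 4396891 z (n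
 0x4ec8ec86037e08a28a082082081e8217218dc7df7a085f8638607a08627de85f8a079f7e08207df7e28200801 z
 (n 1324 z z)))))) (n 1 (n 7741459 z (n 1324 z (n 1324 z (n 92 z (n 1324 z (n 1324 z z))))))
 z)))))))) (n 267 (n 1 (n 7741459 z (n 7741459 z (n 7741459 z (n 7741459 z (n 7741459 z (n
 7741459 z z)))))) (n 1 (n 1228 z (n 26 z (n 1228 z (n 7668523 z (n 1228 z (n 1228 z z)))))) (n
 0 z (n 1 (n 7545091 z (n 7545091 z (n 7545091 z (n 7545091 z (n 7545091 z (n 7545091 z z))))))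
 z)))) z))))))) (n 0 (n 0 (n 0 z (n 0 z (n 0 z (n 0 z z)))) (n 0 (n 0 z (n 0 z (n 0 z z))) (n 0
 (n 0 z (n 0 z z)) (n 0 (n 0 z z) z)))) (n 0 (n 279 (n 0 (n 0 z (n 0 z (n 0 z (n 0 z z)))) (n 0
 (n 0 z (n 0 z (n 0 z (n 0 z z)))) (n 0 (n 0 z (n 0 z (n 0 z (n 0 z z)))) (n 0 (n 0 z (n 0 z (n
 0 z (n 0 z z)))) (n 0 (n 0 z (n 0 z (n 0 z (n 0 z z)))) (n 0 (n 0 z (n 0 z (n 0 z (n 0 z z))))
 (n 0 (n 0 z (n 0 z (n 0 z (n 0 z z)))) (n 0 (n 0 z (n 0 (n 8656699 z z) (n 0 z (n 0 z z)))) (n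
 0 (n 0 z (n 0 z (n 0 z (n 0 z z)))) (n 0 (n 0 z (n 0 (n 8867939 z z) (n 0 z (n 0 z z)))) (n 0
 (n 0 z (n 0 z (n 0 z (n 0 z z)))) (n 0 (n 0 z (n 0 (n 8867939 z z) (n 0 z (n 0 z z)))) (n 0 (n
 0 z (n 0 z (n 0 z (n 0 z z)))) z))))))))))))) (n 281 (n 0 (n 0 z (n 0 z (n 0 z (n 0 z z)))) (n
 0 (n 0 z (n 0 (n 8790035 z z) (n 0 z (n 0 z z)))) (n 0 (n 0 z (n 0 z (n 0 z (n 0 z z)))) (n 0
 (n 0 z (n 0 z (n 0 z (n 0 z z)))) (n 0 (n 0 (n 8591179 z z) (n 0 z (n 0 z (n 0 z z)))) (n 0 (n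
 0 z (n 0 z (n 0 z (n 0 z z)))) (n 0 (n 0 z (n 0 z (n 0 z (n 0 z z)))) (n 0 (n 0 z (n 0 z (n 0 z
 (n 0 z z)))) (n 0 (n 0 (n 6567979 z z) (n 0 z (n 0 z (n 0 z z)))) (n 0 (n 0 z (n 0 (n 8868675 z
 z) (n 0 z (n 0 z z)))) (n 0 (n 0 z (n 0 z (n 0 z (n 0 z z)))) (n 0 (n 0 z (n 0 z (n 0 z (n 0 z
 z)))) (n 0 (n 0 z (n 0 (n 8800091 z z) (n 0 z (n 0 z z)))) (n 0 (n 0 z (n 0 z (n 0 z (n 0 z
 z)))) (n 0 (n 0 z (n 0 z (n 0 z (n 0 z z)))) (n 0 (n 0 (n 5511291 z z) (n 0 z (n 0 z (n 0 z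
 z)))) (n 0 (n 0 z (n 0 z (n 0 z (n 0 z z)))) (n 0 (n 0 z (n 0 z (n 0 z (n 0 z z)))) (n 0 (n 0 z
 (n 0 z (n 0 z (n 0 z z)))) (n 0 (n 0 z (n 0 z (n 0 z (n 0 z z)))) z)))))))))))))))))))) (n 57
 (n 0 (n 0 z (n 0 z (n 0 z (n 0 z z)))) (n 0 (n 0 z (n 0 z (n 0 z (n 0 z z)))) (n 0 (n 0 z (n 0
 z (n 0 z (n 0 z z)))) (n 0 (n 0 z (n 0 z (n 0 z (n 0 z z)))) (n 0 (n 0 z (n 0 z (n 0 z (n 0 z
 z)))) (n 0 (n 0 z (n 0 z (n 0 z (n 0 z z)))) (n 0 (n 0 z (n 0 z (n 0 z (n 0 z z)))) (n 0 (n 0 z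
 (n 0 z (n 0 z (n 0 z z)))) (n 0 (n 0 z (n 0 z (n 0 z (n 0 z z)))) z))))))))) (n 177 (n 0 (n 0 z
 (n 0 z (n 0 z (n 0 z z)))) (n 0 (n 0 z (n 0 z (n 0 z (n 0 z z)))) (n 0 (n 0 z (n 0 z (n 0 z (n
 0 z z)))) (n 0 (n 0 z (n 0 z (n 0 z (n 0 z z)))) (n 0 (n 0 z (n 0 z (n 0 z (n 0 z z)))) (n 0 (n
 0 z (n 0 z (n 0 z (n 0 z z)))) (n 0 (n 0 z (n 0 z (n 0 z (n 0 z z)))) (n 0 (n 0 z (n 0 (n
 8663635 z z) (n 0 z (n 0 z z)))) (n 0 (n 0 z (n 0 z (n 0 z (n 0 z z)))) (n 0 (n 0 z (n 0 z (n 0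
 z (n 0 z z)))) (n 0 (n 0 (n 8663635 z (n 8663635 z z)) (n 0 (n 8868675 z (n 8868675 z z)) (n 0
 (n 8868675 z (n 8868675 z z)) (n 0 (n 8868675 z (n 8868675 z z)) z)))) (n 0 (n 0 z (n 0 z (n 0
 z (n 0 z z)))) (n 0 (n 0 z (n 0 z (n 0 z (n 0 z z)))) (n 0 (n 0 z (n 0 (n 8790035 z z) (n 0 z
 (n 0 z z)))) (n 0 (n 0 z (n 0 z (n 0 z (n 0 z z)))) z))))))))))))))) (n 249 (n 0 (n 0 z (n 0 z
 (n 0 z (n 0 z z)))) (n 0 (n 0 z (n 0 z (n 0 z (n 0 z z)))) (n 0 (n 0 z (n 0 z (n 0 z (n 0 z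
 z)))) (n 0 (n 0 z (n 0 z (n 0 z (n 0 z z)))) z)))) (n 171 (n 0 (n 0 z (n 0 z (n 0 z (n 0 z
 z)))) (n 0 (n 0 z (n 0 z (n 0 z (n 0 z z)))) (n 0 (n 0 z (n 0 z (n 0 z (n 0 z z)))) (n 0 (n 0 z
 (n 0 z (n 0 z (n 0 z z)))) (n 0 (n 0 z (n 0 z (n 0 z (n 0 z z)))) (n 0 (n 0 z (n 0 z (n 0 z (n
 0 z z)))) (n 0 (n 0 z (n 0 z (n 0 (n 8663635 z z) (n 0 z z)))) (n 0 (n 0 z (n 0 z (n 0 z (n 0 z
 z)))) (n 0 (n 0 z (n 0 z (n 0 z (n 0 z z)))) (n 0 (n 0 z (n 0 z (n 0 z (n 0 z z)))) z))))))))))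
 (n 159 (n 0 (n 0 z (n 0 z (n 0 z (n 0 z z)))) (n 0 (n 0 z (n 0 z (n 0 z (n 0 z z)))) (n 0 (n 0
 z (n 0 z (n 0 z (n 0 z z)))) (n 0 (n 0 (n 8868915 z z) (n 0 z (n 0 z (n 0 (n 8848155 z z) z))))
 (n 0 (n 0 z (n 0 z (n 0 z (n 0 z z)))) (n 0 (n 0 z (n 0 z (n 0 z (n 0 z z)))) (n 0 (n 0 z (n 0
 z (n 0 z (n 0 z z)))) (n 0 (n 0 z (n 0 z (n 0 z (n 0 z z)))) (n 0 (n 0 z (n 0 z (n 0 z (n 0 (n
 8790035 z z) z)))) (n 0 (n 0 z (n 0 z (n 0 z (n 0 z z)))) (n 0 (n 0 z (n 0 (n 8848155 z z) (n 0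
 z (n 0 z z)))) (n 0 (n 0 z (n 0 z (n 0 z (n 0 z z)))) z)))))))))))) (n 33 (n 0 (n 0 z (n 0 z (n
 0 z (n 0 z z)))) (n 0 (n 0 z (n 0 z (n 0 z (n 0 z z)))) (n 0 (n 0 z (n 0 z (n 0 z (n 0 z z))))
 (n 0 (n 0 z (n 0 z (n 0 z (n 0 z z)))) z)))) (n 9 (n 0 (n 0 z (n 0 z (n 0 z (n 0 z z)))) (n 0
 (n 0 z (n 0 z (n 0 z (n 0 z z)))) (n 0 (n 0 z (n 0 z (n 0 z (n 0 z z)))) (n 0 (n 0 z (n 0 z (n
 0 z (n 0 z z)))) (n 0 (n 0 z (n 0 z (n 0 z (n 0 z z)))) (n 0 (n 0 z (n 0 z (n 0 z (n 0 z z))))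
 (n 0 (n 0 z (n 0 z (n 0 z (n 0 z z)))) (n 0 (n 0 z (n 0 z (n 0 z (n 0 z z)))) (n 0 (n 0 z (n 0
 z (n 0 z (n 0 z z)))) (n 0 (n 0 (n 8790035 z z) (n 0 z (n 0 (n 8790035 z z) (n 0 z z)))) (n 0
 (n 0 z (n 0 z (n 0 z (n 0 z z)))) z))))))))))) (n 147 (n 0 (n 0 z (n 0 z (n 0 z (n 0 z z)))) (n
 0 (n 0 z (n 0 z (n 0 z (n 0 z z)))) (n 0 (n 0 z (n 0 z (n 0 z (n 0 z z)))) (n 0 (n 0 z (n 0 z
 (n 0 z (n 0 z z)))) (n 0 (n 0 z (n 0 z (n 0 z (n 0 z z)))) (n 0 (n 0 z (n 0 z (n 0 z (n 0 z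
 z)))) (n 0 (n 0 z (n 0 z (n 0 z (n 0 z z)))) (n 0 (n 0 z (n 0 z (n 0 z (n 0 z z)))) (n 0 (n 0 z
 (n 0 z (n 0 z (n 0 z z)))) (n 0 (n 0 z (n 0 z (n 0 z (n 0 z z)))) (n 0 (n 0 z (n 0 z (n 0 z (n
 0 z z)))) (n 0 (n 0 z (n 0 z (n 0 z (n 0 z z)))) z)))))))))))) (n 165 (n 0 (n 0 z (n 0 z (n 0 z
 (n 0 z z)))) (n 0 (n 0 z (n 0 z (n 0 z (n 0 z z)))) (n 0 (n 0 z (n 0 z (n 0 z (n 0 z z)))) (n 0
 (n 0 z (n 0 z (n 0 z (n 0 z z)))) (n 0 (n 0 z (n 0 z (n 0 z (n 0 z z)))) (n 0 (n 0 z (n 0 (n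
 8656699 z z) (n 0 z (n 0 z z)))) (n 0 (n 0 z (n 0 z (n 0 z (n 0 z z)))) (n 0 (n 0 z (n 0 z (n 0
 z (n 0 z z)))) (n 0 (n 0 z (n 0 z (n 0 z (n 0 z z)))) (n 0 (n 0 z (n 0 z (n 0 z (n 0 z z)))) (n
 0 (n 0 z (n 0 z (n 0 z (n 0 z z)))) (n 0 (n 0 z (n 0 (n 8868675 z z) (n 0 z (n 0 z z)))) (n 0
 (n 0 z (n 0 z (n 0 z (n 0 z z)))) (n 0 (n 0 z (n 0 z (n 0 z (n 0 z z)))) z)))))))))))))) (n 35
 (n 0 (n 0 z (n 0 (n 8656699 z z) (n 0 z (n 0 z z)))) (n 0 (n 0 z (n 0 z (n 0 z (n 0 z z)))) (n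
 0 (n 0 z (n 0 (n 8853003 z z) (n 0 z (n 0 z z)))) (n 0 (n 0 z (n 0 z (n 0 z (n 0 z z)))) (n 0
 (n 0 (n 8868915 z z) (n 0 z (n 0 z (n 0 (n 8868675 z z) z)))) (n 0 (n 0 z (n 0 z (n 0 z (n 0 z
 z)))) (n 0 (n 0 z (n 0 z (n 0 z (n 0 z z)))) (n 0 (n 0 z (n 0 z (n 0 z (n 0 z z)))) z))))))))
 (n 11 (n 0 (n 0 z (n 0 z (n 0 z (n 0 z z)))) (n 0 (n 0 z (n 0 (n 8656699 z z) (n 0 z (n 0 z
 z)))) (n 0 (n 0 (n
 0x10a8e8060789f81f7e18a17e07e07e181f86082182082082082282081f82181f8208208608208208208200801 z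
 z) (n 0 z (n 0 z (n 0 (n 8656699 z z) z)))) (n 0 (n 0 z (n 0 z (n 0 z (n 0 z z)))) (n 0 (n 0 z
 (n 0 z (n 0 z (n 0 z z)))) (n 0 (n 0 z (n 0 z (n 0 z (n 0 z z)))) (n 0 (n 0 z (n 0 (n 8868675 z
 z) (n 0 z (n 0 z z)))) (n 0 (n 0 z (n 0 (n 8868675 z (n 8868675 z z)) (n 0 z (n 0 z z)))) (n 0
 (n 0 z (n 0 z (n 0 z (n 0 z z)))) (n 0 (n 0 z (n 0 (n 8868675 z z) (n 0 z (n 0 z z)))) (n 0 (n
 0 z (n 0 z (n 0 z (n 0 z z)))) z))))))))))) (n 149 (n 0 (n 0 z (n 0 z (n 0 z (n 0 z z)))) (n 0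
 (n 0 z (n 0 z (n 0 z (n 0 z z)))) (n 0 (n 0 z (n 0 z (n 0 z (n 0 z z)))) (n 0 (n 0 z (n 0 (n
 2164827 z z) (n 0 z (n 0 z z)))) (n 0 (n 0 z (n 0 z (n 0 (n 8867939 z z) (n 0 z z)))) (n 0 (n 0
 z (n 0 z (n 0 z (n 0 z z)))) (n 0 (n 0 z (n 0 z (n 0 z (n 0 z z)))) (n 0 (n 0 z (n 0 z (n 0 z
 (n 0 z z)))) (n 0 (n 0 z (n 0 (n 8803371 z z) (n 0 z (n 0 z z)))) (n 0 (n 0 z (n 0 (n 8853003 z
 (n 8853003 z z)) (n 0 z (n 0 z z)))) (n 0 (n 0 z (n 0 z (n 0 z (n 0 z z)))) (n 0 (n 0 z (n 0 z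
 (n 0 z (n 0 z z)))) (n 0 (n 0 z (n 0 (n 2164827 z z) (n 0 z (n 0 z z)))) (n 0 (n 0 (n 6424667 z
 z) (n 0 z (n 0 z (n 0 (n 6424667 z z) z)))) (n 0 (n 0 z (n 0 (n
 0x30a6e2080385f86182082182079f86085f7df86082081f8207e08208207e07e08208208208207e07e08200801 z
 z) (n 0 z (n 0 z z)))) (n 0 (n 0 z (n 0 z (n 0 z (n 0 z z)))) (n 0 (n 0 z (n 0 (n 8853003 z z)
 (n 0 z (n 0 z z)))) (n 0 (n 0 z (n 0 (n 8718187 z z) (n 0 z (n 0 z z)))) (n 0 (n 0 z (n 0 z (n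
 0 (n 8718187 z z) (n 0 z z)))) (n 0 (n 0 (n 8803371 z z) (n 0 z (n 0 z (n 0 (n 8803371 z z)
 z)))) (n 0 (n 0 (n 8803371 z (n 8803371 z z)) (n 0 z (n 0 z (n 0 (n 8803371 z (n 8803371 z z))
 z)))) (n 0 (n 0 z (n 0 (n 8853003 z (n 8853003 z z)) (n 0 z (n 0 z z)))) (n 0 (n 0 z (n 0 z (n
 0 z (n 0 z z)))) (n 0 (n 0 z (n 0 z (n 0 z (n 0 z z)))) (n 0 (n 0 z (n 0 z (n 0 z (n 0 z z))))
 (n 0 (n 0 z (n 0 (n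
 0x3486291e7a15de8e68608a37a99a585d82079e81f85d5e692291e8e08e579d85e86192285d7a37e20041 z z) (n
 0 z (n 0 z z)))) (n 0 (n 0 z (n 0 z (n 0 z (n 0 z z)))) (n 0 (n 0 z (n 0 z (n 0 z (n 0 z z))))
 (n 0 (n 0 z (n 0 z (n 0 z (n 0 z z)))) (n 0 (n 0 z (n 0 z (n 0 z (n 0 z z)))) (n 0 (n 0 z (n 0
 z (n 0 z (n 0 z z)))) (n 0 (n 0 z (n 0 z (n 0 z (n 0 z z)))) (n 0 (n 0 z (n 0 z (n 0 (n 8868675
 z z) (n 0 z z)))) (n 0 (n 0 z (n 0 (n 8868675 z (n 8868675 z z)) (n 0 z (n 0 z z)))) (n 0 (n 0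
 z (n 0 z (n 0 z (n 0 z z)))) (n 0 (n 0 z (n 0 z (n 0 z (n 0 z z)))) (n 0 (n 0 z (n 0 (n 8868675
 z z) (n 0 z (n 0 z z)))) (n 0 (n 0 z (n 0 z (n 0 z (n 0 z z)))) (n 0 (n 0 z (n 0 z (n 0 z (n 0
 z z)))) (n 0 (n 0 (n
 0x1790c4748109da77a42a86d7995df9239f52df8dfa648dd6547d1f313d7a639a36a1b2b4dcbdf76e6a07250081 z
 z) (n 0 z (n 0 z (n 0 (n 8868675 z z) z)))) (n 0 (n 0 z (n 0 z (n 0 z (n 0 z z)))) (n 0 (n 0 z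
 (n 0 z (n 0 (n
 0x2c86491f76355b9e895d8e7726ba87d97607e079f81a76caa4b9f8649e875b7de6db96689a65f8250041 z z) (n
 0 z z)))) (n 0 (n 0 z (n 0 (n
 0x2c86491f76355b9e895d8e7726ba87d97607e079f81a76caa4b9f8649e875b7de6db96689a65f8250041 z (n
 0x2c86491f76355b9e895d8e7726ba87d97607e079f81a76caa4b9f8649e875b7de6db96689a65f8250041 z z)) (n
 0 (n 8718187 z (n 7739467 z z)) (n 0 (n 8718187 z (n 7473243 z z)) z)))) (n 0 (n 0 z (n 0 z (n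
 0 z (n 0 z z)))) (n 0 (n 0 z (n 0 z (n 0 z (n 0 z z)))) (n 0 (n 0 (n 8591179 z z) (n 0 z (n 0 z
 (n 0 (n
 0x1790e2748109da73a3eb86e75959f923a352df8df9e48dd6147d2f31418a639646a0b2b4deb9f7af6617250081 z
 z) z)))) (n 0 (n 0 z (n 0 (n 8867939 z (n 8867939 z z)) (n 0 z (n 0 z z)))) (n 0 (n 0 z (n 0 z
 (n 0 z (n 0 z z)))) (n 0 (n 0 z (n 0 (n 8593667 z z) (n 0 z (n 0 z z)))) (n 0 (n 0 z (n 0 z (n
 0 z (n 0 z z)))) (n 0 (n 0 z (n 0 z (n 0 z (n 0 z z)))) (n 0 (n 0 z (n 0 z (n 0 z (n 0 z z))))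
 (n 0 (n 0 z (n 0 z (n 0 z (n 0 z z)))) (n 0 (n 0 z (n 0 z (n 0 z (n 0 z z)))) (n 0 (n 0 z (n 0
 (n 0x3c87685f7e67e396091c7a07de86671c8a181e8a085f75dae765f8a58627db9666209647a27a285e0041 z (n
 0x70e30e080795d8628e085e7e081d8227e389d82189d81e81f7e17df81e85e85e86191f8e189f81d7dd89e0801 z
 z)) (n 0 z (n 0 z z)))) (n 0 (n 0 z (n 0 (n
 0x2c87191f7a161d8e685f8a37a89a589d81f75f81f85d5e69638de8df8e575d85f8a196285d7637e20041 z (n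
 0x30e30e08037e08607e082082081f82081f82082182086082082081f8208218208208218208608607e07e00801 z
 z)) (n 0 z (n 0 z z)))) z)))))))))))))))))))))))))))))))))))))))))))))))))))))))) (n 148 (n 0
 (n 0 z (n 0 z (n 0 z (n 0 z z)))) (n 0 (n 0 z (n 0 z (n 0 z (n 0 z z)))) (n 0 (n 0 z (n 0 z (n
 0 z (n 0 z z)))) (n 0 (n 0 z (n 0 z (n 0 z (n 0 z z)))) (n 0 (n 0 z (n 0 z (n 0 z (n 0 z z))))
 (n 0 (n 0 z (n 0 (n 8656427 z (n 8802419 z z)) (n 0 z (n 0 z z)))) (n 0 (n 0 z (n 0 z (n 0 z (n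
 0 z z)))) (n 0 (n 0 z (n 0 z (n 0 z (n 0 z z)))) (n 0 (n 0 z (n 0 z (n 0 z (n 0 z z)))) (n 0 (n
 0 (n
 0x30a8e4260786085f7e08217df7df82285f86082082082085f82181f8207e08208208208608218208208200801 z
 z) (n 0 z (n 0 z (n 0 (n 8718187 z z) z)))) (n 0 (n 0 z (n 0 (n 8718187 z z) (n 0 z (n 0 z
 z)))) (n 0 (n 0 z (n 0 z (n 0 z (n 0 z z)))) (n 0 (n 0 z (n 0 z (n 0 z (n 0 z z)))) (n 0 (n 0 z
 (n 0 (n 8853003 z z) (n 0 z (n 0 z z)))) (n 0 (n 0 z (n 0 z (n 0 z (n 0 z z)))) (n 0 (n 0 z (n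
 0 z (n 0 z (n 0 z z)))) (n 0 (n 0 z (n 0 z (n 0 z (n 0 z z)))) (n 0 (n 0 z (n 0 z (n 0 z (n 0 z
 z)))) (n 0 (n 0 z (n 0 (n 8802419 z (n 8656427 z z)) (n 0 z (n 0 z z)))) (n 0 (n 0 z (n 0 z (n
 0 z (n 0 z z)))) (n 0 (n 0 z (n 0 z (n 0 z (n 0 z z)))) (n 0 (n 0 z (n 0 z (n 0 (n 6494283 z z)
 (n 0 z z)))) (n 0 (n 0 z (n 0 z (n 0 z (n 0 z z)))) (n 0 (n 0 z (n 0 z (n 0 z (n 0 z z)))) (n 0
 (n 0 z (n 0 (n 8867939 z z) (n 0 z (n 0 z z)))) (n 0 (n 0 (n 8868915 z (n 8868915 z z)) (n 0 z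
 (n 0 z (n 0 (n 6490203 z (n 8656699 z z)) z)))) (n 0 (n 0 z (n 0 z (n 0 z (n 0 z z)))) (n 0 (n
 0 z (n 0 z (n 0 z (n 0 z z)))) (n 0 (n 0 z (n 0 z (n 0 z (n 0 z z)))) (n 0 (n 0 z (n 0 (n
 8718187 z z) (n 0 z (n 0 z z)))) (n 0 (n 0 z (n 0 z (n 0 z (n 0 z z)))) (n 0 (n 0 z (n 0 z (n 0
 z (n 0 z z)))) (n 0 (n 0 z (n 0 z (n 0 z (n 0 z z)))) (n 0 (n 0 z (n 0 z (n 0 z (n 0 z z)))) (n
 0 (n 0 z (n 0 (n
 0x2c86291e7a15de9268608a37a89a589e81f79f81f81d5e59228df8a08e579d85e8a096285c7a37e20041 z (n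
 8656699 z z)) (n 0 (n 8718187 z (n 7739467 z z)) (n 0 (n 8718187 z (n 7473243 z z)) z)))) (n 0
 (n 0 z (n 0 (n 8717099 z (n 8717099 z z)) (n 0 z (n 0 z z)))) (n 0 (n 0 z (n 0 z (n 0 z (n 0 z
 z)))) (n 0 (n 0 z (n 0 z (n 0 z (n 0 z z)))) (n 0 (n 0 z (n 0 (n 8867939 z (n 8867939 z z)) (n
 0 z (n 0 z z)))) (n 0 (n 0 z (n 0 z (n 0 z (n 0 z z)))) (n 0 (n 0 z (n 0 z (n 0 z (n 0 z z))))
 (n 0 (n 0 z (n 0 z (n 0 z (n 0 z z)))) (n 0 (n 0 z (n 0 (n 8656699 z z) (n 0 z (n 0 z z)))) (n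
 0 (n 0 z (n 0 (n 8853003 z z) (n 0 z (n 0 z z)))) (n 0 (n 0 (n
 0x876872301810a8e4060781f8a07e08217e07df82182082082082086085f7e081f81f7e07e082182081f8208207e07e01001
 z z) (n 0 z (n 0 z (n 0 (n 8656699 z z) z)))) (n 0 (n 0 z (n 0 (n 8853003 z z) (n 0 z (n 0 z
 z)))) (n 0 (n 0 z (n 0 (n
 0x1487381f8617e08a07e081e8608217e08607e08628207e18607df81e8218208207df8208217e08200041 z (n
 0x2c86291f76355b9e895d8e7726ba87d97607e079f81a76caa4b9f8649e875b7de6db96689a65f8250041 z z)) (n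
 0 z (n 0 z z)))) (n 0 (n 0 z (n 0 (n
 0x1482185f8207a082282082082286082085f82085f81f7a28608607e08207e082081f8608217e17e00041 z (n
 8802419 z z)) (n 0 z (n 0 z z)))) (n 0 (n 0 z (n 0 (n
 0x2c87391f76355b9e895d8e7726ba87d97607e079f81a76caa4b9f8649e875b7de6db96689a65f8250041 z (n
 0x924310b48218b787aa9669081957c74717e87858ba1607d857e8f86857b756d7f69ab9a68738e858886778092906c7b977f7d9676807a880089
 z z)) (n 0 z (n 0 z z)))) z))))))))))))))))))))))))))))))))))))))))))))))))) (n 153 (n 0 (n 0 z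
 (n 0 z (n 0 z (n 0 z z)))) (n 0 (n 0 z (n 0 z (n 0 z (n 0 z z)))) (n 0 (n 0 z (n 0 z (n 0 z (n
 0 z z)))) (n 0 (n 0 z (n 0 z (n 0 z (n 0 z z)))) (n 0 (n 0 z (n 0 z (n 0 z (n 0 z z)))) (n 0 (n
 0 z (n 0 z (n 0 z (n 0 z z)))) (n 0 (n 0 z (n 0 z (n 0 z (n 0 z z)))) (n 0 (n 0 z (n 0 z (n 0 z
 (n 0 z z)))) (n 0 (n 0 z (n 0 (n 8803371 z z) (n 0 z (n 0 z z)))) (n 0 (n 0 z (n 0 z (n 0 z (n
 0 z z)))) (n 0 (n 0 z (n 0 (n 8790035 z z) (n 0 z (n 0 z z)))) (n 0 (n 0 z (n 0 (n 5515275 z z)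
 (n 0 z (n 0 z z)))) (n 0 (n 0 z (n 0 z (n 0 z (n 0 z z)))) (n 0 (n 0 z (n 0 (n 8868675 z z) (n
 0 z (n 0 z z)))) z)))))))))))))) (n 33 (n 0 (n 0 z (n 0 z (n 0 z (n 0 z z)))) (n 0 (n 0 z (n 0
 z (n 0 z (n 0 z z)))) (n 0 (n 0 z (n 0 z (n 0 z (n 0 z z)))) (n 0 (n 0 z (n 0 z (n 0 z (n 0 z
 z)))) (n 0 (n 0 z (n 0 z (n 0 z (n 0 z z)))) z))))) (n 9 (n 0 (n 0 z (n 0 z (n 0 z (n 0 z z))))
 (n 0 (n 0 z (n 0 z (n 0 z (n 0 z z)))) (n 0 (n 0 z (n 0 z (n 0 z (n 0 z z)))) (n 0 (n 0 z (n 0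
 z (n 0 z (n 0 z z)))) (n 0 (n 0 z (n 0 z (n 0 z (n 0 z z)))) z))))) (n 267 (n 0 (n 0 z (n 0 z
 (n 0 z (n 0 z z)))) (n 0 (n 0 z (n 0 z (n 0 z (n 0 z z)))) (n 0 (n 0 z (n 0 z (n 0 z (n 0 z
 z)))) (n 0 (n 0 z (n 0 z (n 0 z (n 0 z z)))) z)))) (n 1 (n 0 (n 0 z (n 0 z (n 0 z (n 0 z z))))
 (n 0 (n 0 z (n 0 z (n 0 z (n 0 z z)))) (n 0 (n 0 z (n 0 z (n 0 z (n 0 z z)))) (n 0 (n 0 z (n 0
 z (n 0 z (n 0 z z)))) (n 0 (n 0 z (n 0 z (n 0 z (n 0 z z)))) (n 0 (n 0 z (n 0 z (n 0 z (n 0 z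
 z)))) z)))))) (n 0 (n 0 (n 0 z (n 0 z (n 0 z (n 0 z z)))) (n 0 (n 0 z (n 0 z (n 0 z (n 0 z
 z)))) (n 0 (n 0 z (n 0 z (n 0 z (n 0 z z)))) (n 0 (n 0 z (n 0 (n 8656699 z z) (n 0 z (n 0 z
 z)))) (n 0 (n 0 z (n 0 z (n 0 z (n 0 z z)))) (n 0 (n 0 z (n 0 z (n 0 z (n 0 z z)))) (n 0 (n 0 z
 (n 0 z (n 0 z (n 0 z z)))) (n 0 (n 0 z (n 0 z (n 0 z (n 0 z z)))) (n 0 (n 0 z (n 0 (n 8868675 z
 z) (n 0 z (n 0 z z)))) z))))))))) z))))))))))))))))))))) z)))) (n 0xd445ea1c2d56d045b6d405a (n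
 0 (n 0 (n 7754563 z (n 7754563 z (n 7754563 z (n 7754563 z (n 7754563 z (n 7754563 z z)))))) z)
 (n 0 (n 151 (n 1 (n 7668523 z (n 7668523 z (n 7668523 z (n 7668523 z (n 7754563 z (n 7668523 z
 z)))))) (n 1 (n 7734043 z (n 7734043 z (n 7734043 z (n 7734043 z (n 7754563 z (n 7734043 z
 z)))))) (n 1 (n 7734043 z (n 7734043 z (n 7734043 z (n 7734043 z (n 7754563 z (n 7734043 z
 z)))))) (n 1 (n 7615059 z (n 7615059 z (n 7615059 z (n 7615059 z (n 7754563 z (n 7615059 z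
 z)))))) (n 0 z (n 1 (n 7615059 z (n 7615059 z (n 7615059 z (n 7615059 z (n 7754563 z (n 7615059
 z z)))))) (n 1 (n 4399475 z (n 3282699 z (n 3282699 z (n 3282699 z (n 7754563 z (n 3282699 z
 z)))))) (n 0 z (n 1 (n 7734043 z (n 7734043 z (n 7734043 z (n 5515019 z (n 7754563 z (n 7734043
 z z)))))) (n 0 z (n 1 (n 1228 z (n 1228 z (n
 0xecaea680782086082082082081e82186082082082082081f7e181f8207e08208208208208208207e08200801 z (n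
 5515019 z (n 7754563 z (n 1228 z z)))))) z))))))))))) (n 55 (n 1 (n 7545091 z (n 7545091 z (n
 7545091 z (n 7545091 z (n 7545091 z (n 7545091 z z)))))) (n 1 (n 7545091 z (n 7545091 z (n
 7545091 z (n 7545091 z (n 7545091 z (n 7545091 z z)))))) (n 1 (n 7615059 z (n 7615059 z (n
 7615059 z (n 7615059 z (n 7754563 z (n 7615059 z z)))))) (n 1 (n 7615059 z (n 7615059 z (n
 7615059 z (n 7615059 z (n 7754563 z (n 7615059 z z)))))) z)))) (n 369 (n 0 z (n 1 (n 2 z (n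
 5310315 z (n 6623347 z (n 7734043 z (n 2204 z (n 2204 z z)))))) (n 1 (n 7545091 z (n 7545091 z
 (n 7545091 z (n 7545091 z (n 7545091 z (n 7545091 z z)))))) (n 0 z (n 1 (n 7545091 z (n 7545091
 z (n 7545091 z (n 7545091 z (n 7545091 z (n 7545091 z z)))))) z))))) (n 267 (n 1 (n 2236 z (n
 2236 z (n 10 z (n 6559531 z (n 2236 z (n 2236 z z)))))) (n 1 (n 7754563 z (n 7754563 z (n
 7754563 z (n 7754563 z (n 7754563 z (n 7754563 z z)))))) (n 0 z (n 1 (n 7545091 z (n 7545091 z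
 (n 7545091 z (n 7545091 z (n 7545091 z (n 7545091 z z)))))) z)))) (n 57 (n 1 (n 7545091 z (n
 7545091 z (n 7545091 z (n 7545091 z (n 7545091 z (n 7545091 z z)))))) (n 1 (n 7545091 z (n
 7545091 z (n 7545091 z (n 7545091 z (n 7545091 z (n 7545091 z z)))))) (n 1 (n 7615059 z (n
 7615059 z (n 7615059 z (n 7615059 z (n 7615059 z (n 7615059 z z)))))) (n 1 (n 7615059 z (n
 7615059 z (n 7615059 z (n 7615059 z (n 7615059 z (n 7615059 z z)))))) z)))) (n 59 (n 1 (n 1244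
 z (n 1244 z (n 1244 z (n
 0x875464230384ea8c8060391c8de7627e85e48a776b4a1a9a6e96627a682966b59da169198678e561699589c85e7239241001
 z (n 1244 z (n 7734043 z z)))))) (n 1 (n 7545091 z (n 7545091 z (n 7545091 z (n 7545091 z (n
 7545091 z (n 7545091 z z)))))) (n 1 (n 1244 z (n 1244 z (n 18 z (n 7734043 z (n 1244 z (n 1244
 z z)))))) (n 1 (n 7545091 z (n 7545091 z (n 7545091 z (n 7545091 z (n 7545091 z (n 7545091 z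
 z)))))) (n 0 z (n 1 (n 7754563 z (n 7754563 z (n 7754563 z (n 7754563 z (n 7754563 z (n 7754563
 z z)))))) (n 1 (n 7754563 z (n 7754563 z (n 7754563 z (n 7754563 z (n 7754563 z (n 7754563 z
 z)))))) (n 1 (n 7734043 z (n 1244 z (n 1244 z (n 1244 z (n 1244 z (n 1244 z z)))))) z))))))))
 (n 267 (n 1 (n 7734043 z (n 7668523 z (n 4396843 z (n 26 z (n 1228 z (n 1228 z z)))))) (n 1 (n
 7754563 z (n 7754563 z (n 7754563 z (n 7754563 z (n 7754563 z (n 7754563 z z)))))) (n 0 z (n 1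
 (n 7545091 z (n 7545091 z (n 7545091 z (n 7545091 z (n 7545091 z (n 7545091 z z)))))) z))))
 z))))))) (n 0 (n 0 (n 0 z (n 0 z (n 0 z (n 0 z z)))) (n 0 (n 0 z (n 0 z (n 0 z z))) (n 0 (n 0 z
 (n 0 z z)) (n 0 (n 0 z z) z)))) (n 0 (n 395 (n 0 (n 0 z (n 0 z (n 0 z (n 0 z z)))) (n 0 (n 0 z
 (n 0 z (n 0 z (n 0 z z)))) (n 0 (n 0 z (n 0 z (n 0 z (n 0 z z)))) (n 0 (n 0 z (n 0 z (n 0 z (n
 0 z z)))) (n 0 (n 0 z (n 0 (n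
 0x2c87291f76355b9e895d8e7726ba87d97607e079f81a76caa4b9f8649e875b7de6db96689a65f8250041 z z) (n
 0 z (n 0 z z)))) (n 0 (n 0 z (n 0 z (n 0 z (n 0 z z)))) (n 0 (n 0 z (n 0 z (n 0 z (n 0 z z))))
 (n 0 (n 0 z (n 0 z (n 0 z (n 0 z z)))) (n 0 (n 0 z (n 0 (n 8867939 z z) (n 0 z (n 0 z z)))) (n
 0 (n 0 z (n 0 z (n 0 z (n 0 z z)))) (n 0 (n 0 z (n 0 z (n 0 z (n 0 z z)))) (n 0 (n 0 z (n 0 z
 (n 0 z (n 0 z z)))) (n 0 (n 0 z (n 0 (n 8867939 z (n 8867939 z z)) (n 0 z (n 0 z z))))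
 z))))))))))))) (n 275 (n 0 (n 0 z (n 0 z (n 0 z (n 0 z z)))) (n 0 (n 0 z (n 0 z (n 0 z (n 0 z
 z)))) (n 0 (n 0 z (n 0 z (n 0 z (n 0 z z)))) (n 0 (n 0 z (n 0 z (n 0 z (n 0 z z)))) (n 0 (n 0 z
 (n 0 z (n 0 z (n 0 z z)))) (n 0 (n 0 z (n 0 z (n 0 z (n 0 z z)))) (n 0 (n 0 z (n 0 z (n 0 z (n
 0 z z)))) (n 0 (n 0 z (n 0 (n 8855571 z z) (n 0 z (n 0 z z)))) (n 0 (n 0 z (n 0 z (n 0 z (n 0 z
 z)))) (n 0 (n 0 z (n 0 (n 8865371 z z) (n 0 z (n 0 z z)))) (n 0 (n 0 z (n 0 z (n 0 z (n 0 z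
 z)))) (n 0 (n 0 z (n 0 (n
 0x6487189f7ea7a4a219997a07de8a965a8a185d8e089e71cc6c55e9278e37999e95209e776372389c0041 z z) (n
 0 z (n 0 z z)))) (n 0 (n 0 z (n 0 z (n 0 z (n 0 z z)))) z))))))))))))) (n 369 (n 0 (n 0 z (n 0
 z (n 0 z (n 0 z z)))) (n 0 (n 0 z (n 0 z (n 0 z (n 0 z z)))) (n 0 (n 0 z (n 0 z (n 0 z (n 0 z
 z)))) (n 0 (n 0 z (n 0 z (n 0 z (n 0 z z)))) (n 0 (n 0 z (n 0 z (n 0 z (n 0 z z)))) z))))) (n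
 279 (n 0 (n 0 z (n 0 z (n 0 z (n 0 z z)))) (n 0 (n 0 z (n 0 z (n 0 z (n 0 z z)))) (n 0 (n 0 z
 (n 0 z (n 0 z (n 0 z z)))) (n 0 (n 0 z (n 0 z (n 0 z (n 0 z z)))) (n 0 (n 0 (n 8803139 z z) (n
 0 z (n 0 z (n 0 (n 8803139 z z) z)))) (n 0 (n 0 z (n 0 z (n 0 z (n 0 z z)))) (n 0 (n 0 z (n 0 z
 (n 0 z (n 0 z z)))) (n 0 (n 0 z (n 0 z (n 0 z (n 0 z z)))) (n 0 (n 0 z (n 0 z (n 0 z (n 0 (n
 8663635 z z) z)))) (n 0 (n 0 z (n 0 (n 8855571 z z) (n 0 z (n 0 z z)))) (n 0 (n 0 z (n 0 z (n 0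
 z (n 0 z z)))) (n 0 (n 0 z (n 0 z (n 0 (n 8851491 z z) (n 0 z z)))) (n 0 (n 0 z (n 0 (n 8803139
 z z) (n 0 z (n 0 z z)))) z))))))))))))) (n 255 (n 0 (n 0 z (n 0 z (n 0 z (n 0 z z)))) (n 0 (n 0
 z (n 0 z (n 0 z (n 0 z z)))) (n 0 (n 0 z (n 0 z (n 0 z (n 0 z z)))) (n 0 (n 0 z (n 0 z (n 0 z
 (n 0 z z)))) (n 0 (n 0 z (n 0 z (n 0 z (n 0 z z)))) z))))) (n 129 (n 0 (n 0 z (n 0 z (n 0 z (n
 0 z z)))) (n 0 (n 0 z (n 0 z (n 0 z (n 0 z z)))) (n 0 (n 0 z (n 0 z (n 0 z (n 0 z z)))) (n 0 (n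
 0 z (n 0 z (n 0 z (n 0 z z)))) (n 0 (n 0 z (n 0 z (n 0 z (n 0 z z)))) (n 0 (n 0 z (n 0 z (n 0 z
 (n 0 z z)))) (n 0 (n 0 z (n 0 z (n 0 z (n 0 z z)))) z))))))) (n 153 (n 0 (n 0 z (n 0 z (n 0 z
 (n 0 z z)))) (n 0 (n 0 z (n 0 z (n 0 z (n 0 z z)))) (n 0 (n 0 z (n 0 z (n 0 z (n 0 (n 8782619 z
 z) z)))) (n 0 (n 0 z (n 0 z (n 0 z (n 0 z z)))) (n 0 (n 0 z (n 0 z (n 0 z (n 0 z z)))) (n 0 (n
 0 z (n 0 z (n 0 z (n 0 z z)))) (n 0 (n 0 z (n 0 z (n 0 (n 8851491 z z) (n 0 (n 8855571 z z)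
 z)))) (n 0 (n 0 z (n 0 z (n 0 z (n 0 z z)))) (n 0 (n 0 z (n 0 (n 8782619 z z) (n 0 z (n 0 z
 z)))) (n 0 (n 0 z (n 0 z (n 0 z (n 0 (n
 0x30cb0a64078208a07df8208207df86181f86082182086081f82181f8208208208208208208208207e07e00801 z
 z) z)))) (n 0 (n 0 z (n 0 z (n 0 z (n 0 z z)))) z))))))))))) (n 57 (n 0 (n 0 z (n 0 z (n 0 z (n
 0 z z)))) (n 0 (n 0 z (n 0 z (n 0 z (n 0 z z)))) (n 0 (n 0 z (n 0 z (n 0 z (n 0 z z)))) (n 0 (n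
 0 z (n 0 z (n 0 z (n 0 z z)))) z)))) (n 9 (n 0 (n 0 z (n 0 z (n 0 z (n 0 z z)))) (n 0 (n 0 z (n
 0 z (n 0 z (n 0 z z)))) (n 0 (n 0 z (n 0 z (n 0 z (n 0 z z)))) (n 0 (n 0 z (n 0 z (n 0 z (n 0 z
 z)))) (n 0 (n 0 z (n 0 z (n 0 z (n 0 z z)))) (n 0 (n 0 z (n 0 z (n 0 z (n 0 z z)))) z)))))) (n
 123 (n 0 (n 0 z (n 0 z (n 0 z (n 0 z z)))) (n 0 (n 0 z (n 0 z (n 0 z (n 0 z z)))) (n 0 (n 0 z
 (n 0 z (n 0 z (n 0 z z)))) (n 0 (n 0 z (n 0 z (n 0 z (n 0 z z)))) (n 0 (n 0 z (n 0 z (n 0 z (n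
 0 z z)))) (n 0 (n 0 z (n 0 z (n 0 z (n 0 z z)))) (n 0 (n 0 z (n 0 (n 8663635 z z) (n 0 z (n 0 z
 z)))) (n 0 (n 0 z (n 0 z (n 0 (n 6428731 z z) (n 0 z z)))) z)))))))) (n 155 (n 0 (n 0 z (n 0 z
 (n 0 z (n 0 z z)))) (n 0 (n 0 z (n 0 (n 8868907 z z) (n 0 z (n 0 z z)))) (n 0 (n 0 z (n 0 z (n
 0 z (n 0 z z)))) (n 0 (n 0 z (n 0 z (n 0 z (n 0 z z)))) (n 0 (n 0 z (n 0 z (n 0 z (n 0 z z))))
 (n 0 (n 0 z (n 0 z (n 0 z (n 0 z z)))) (n 0 (n 0 z (n 0 z (n 0 z (n 0 z z)))) (n 0 (n 0 z (n 0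
 z (n 0 z (n 0 z z)))) (n 0 (n 0 z (n 0 z (n 0 z (n 0 z z)))) (n 0 (n 0 z (n 0 (n 8803139 z z)
 (n 0 z (n 0 z z)))) (n 0 (n 0 z (n 0 z (n 0 z (n 0 z z)))) (n 0 (n 0 z (n 0 z (n 0 z (n 0 z
 z)))) z)))))))))))) (n 59 (n 0 (n 0 z (n 0 z (n 0 z (n 0 z z)))) (n 0 (n 0 z (n 0 z (n 0 z (n 0
 z z)))) (n 0 (n 0 z (n 0 z (n 0 z (n 0 z z)))) (n 0 (n 0 z (n 0 z (n 0 z (n 0 z z)))) (n 0 (n 0
 z (n 0 z (n 0 z (n 0 z z)))) (n 0 (n 0 z (n 0 z (n 0 z (n 0 (n 8803139 z z) z)))) (n 0 (n 0 z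
 (n 0 z (n 0 z (n 0 z z)))) (n 0 (n 0 z (n 0 z (n 0 z (n 0 z z)))) z)))))))) (n 11 (n 0 (n 0 z
 (n 0 z (n 0 z (n 0 z z)))) (n 0 (n 0 z (n 0 z (n 0 z (n 0 z z)))) (n 0 (n 0 z (n 0 z (n 0 z (n
 0 z z)))) (n 0 (n 0 z (n 0 z (n 0 z (n 0 z z)))) (n 0 (n 0 z (n 0 z (n 0 z (n 0 z z)))) (n 0 (n
 0 z (n 0 z (n 0 z (n 0 z z)))) (n 0 (n 0 z (n 0 z (n 0 z (n 0 z z)))) (n 0 (n 0 z (n 0 (n
 8803139 z z) (n 0 z (n 0 z z)))) (n 0 (n 0 z (n 0 z (n 0 z (n 0 z z)))) (n 0 (n 0 z (n 0 z (n 0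
 z (n 0 z z)))) (n 0 (n 0 (n 8803139 z (n 8803139 z z)) (n 0 (n 8803139 z (n 8803139 z z)) (n 0
 z (n 0 (n 8803139 z (n 8803139 z z)) z)))) (n 0 (n 0 z (n 0 z (n 0 z (n 0 z z)))) (n 0 (n 0 z
 (n 0 z (n 0 z (n 0 z z)))) (n 0 (n 0 z (n 0 (n 8593667 z z) (n 0 z (n 0 z z)))) (n 0 (n 0 z (n
 0 z (n 0 z (n 0 z z)))) z))))))))))))))) (n 125 (n 0 (n 0 z (n 0 z (n 0 z (n 0 z z)))) (n 0 (n
 0 z (n 0 z (n 0 z (n 0 z z)))) (n 0 (n 0 z (n 0 z (n 0 z (n 0 z z)))) (n 0 (n 0 z (n 0 z (n 0 z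
 (n 0 z z)))) (n 0 (n 0 z (n 0 z (n 0 z (n 0 z z)))) (n 0 (n 0 z (n 0 z (n 0 z (n 0 z z)))) (n 0
 (n 0 z (n 0 z (n 0 z (n 0 z z)))) (n 0 (n 0 z (n 0 z (n 0 (n 4262011 z z) (n 0 z z)))) (n 0 (n
 0 (n 0x1487185f81f7e18617e07df8218208608607df85f81f8218208207e082081f82081f8207e17e07e10041 z
 (n 0x1c87189e8207a18627e07df82286086086081f85f81f7e28208207e07e07e082081f8607e27a07e10041 z z))
 (n 0 (n
 0x30a6c2080385f86182082182079f86085f7df86082081f8207e08208207e07e08208208208207e07e08200801 z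
 (n 8787723 z z)) (n 0 (n
 0x1487285f81f7e18617e07df8218208608607df85f81f8218208207e082081f82081f8207e17e07e10041 z (n
 0x1c87289e8207a18627e07df82286086086081f85f81f7e28208207e07e07e082081f8607e27a07e10041 z z)) (n
 0 (n 7473243 z (n 8656683 z z)) z)))) (n 0 (n 0 z (n 0 z (n 0 z (n 0 z z)))) (n 0 (n 0 z (n 0 z
 (n 0 z (n 0 z z)))) (n 0 (n 0 z (n 0 z (n 0 z (n 0 z z)))) (n 0 (n 0 z (n 0 z (n 0 z (n 0 z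
 z)))) (n 0 (n 0 z (n 0 z (n 0 z (n 0 z z)))) (n 0 (n 0 z (n 0 (n 8803139 z z) (n 0 z (n 0 z
 z)))) (n 0 (n 0 z (n 0 z (n 0 z (n 0 z z)))) (n 0 (n 0 z (n 0 z (n 0 z (n 0 z z)))) (n 0 (n 0 z
 (n 0 z (n 0 z (n 0 z z)))) (n 0 (n 0 z (n 0 z (n 0 (n 6428731 z z) (n 0 z z)))) (n 0 (n 0 z (n
 0 (n 8867939 z (n 8867939 z z)) (n 0 z (n 0 z z)))) (n 0 (n 0 z (n 0 z (n 0 z (n 0 z z)))) (n 0
 (n 0 z (n 0 z (n 0 z (n 0 z z)))) (n 0 (n 0 z (n 0 z (n 0 z (n 0 z z))))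
 z))))))))))))))))))))))) (n 1 (n 0 (n 0 z (n 0 z (n 0 z (n 0 z z)))) (n 0 (n 0 z (n 0 z (n 0 z
 (n 0 z z)))) (n 0 (n 0 z (n 0 z (n 0 z (n 0 z z)))) (n 0 (n 0 z (n 0 (n 8656683 z z) (n 0 z (n
 0 z z)))) (n 0 (n 0 (n 8656683 z z) (n 0 z (n 0 (n
 0x4486195d76249d96989f92476caa889c81f71e7df85b4a99e499d92092871b85e8e19e385b7647a30041 z z) (n
 0 z z)))) (n 0 (n 0 z (n 0 z (n 0 z (n 0 z z)))) (n 0 (n 0 z (n 0 z (n 0 z (n 0 z z)))) (n 0 (n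
 0 z (n 0 z (n 0 z (n 0 z z)))) (n 0 (n 0 z (n 0 (n
 0x1c87181e8627e18a07e085e8608217df8607e086181f7e18a07df81e8218208207de8608217e08210041 z z) (n
 0 z (n 0 z z)))) (n 0 (n 0 z (n 0 (n 8717099 z (n 8717099 z z)) (n 0 z (n 0 z z)))) (n 0 (n 0 z
 (n 0 z (n 0 z (n 0 z z)))) (n 0 (n 0 z (n 0 z (n 0 z (n 0 z z)))) (n 0 (n 0 z (n 0 (n 8867939 z
 z) (n 0 z (n 0 z z)))) (n 0 (n 0 z (n 0 z (n 0 z (n 0 (n 8656683 z z) z)))) (n 0 (n 0 z (n 0 (n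
 8867939 z z) (n 0 z (n 0 z z)))) (n 0 (n 0 z (n 0 z (n 0 z (n 0 z z)))) (n 0 (n 0 z (n 0 (n
 8867939 z z) (n 0 z (n 0 z z)))) (n 0 (n 0 z (n 0 (n 8867939 z z) (n 0 z (n 0 z z)))) (n 0 (n 0
 (n 8867939 z z) (n 0 z (n 0 (n
 0x1c81089e8207a18627e07df82286086086081f85f81f7e28208207e07e07e082081f8607e27a07e10041 z z) (n
 0 z z)))) (n 0 (n 0 z (n 0 z (n 0 z (n 0 (n
 0x6487189f7ea7a4a219997a07de8a965a8a185d8e089e71cc6c55e9278e37999e95209e776372389c0041 z z)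
 z)))) (n 0 (n 0 z (n 0 z (n 0 (n 6424667 z (n 6424667 z z)) (n 0 (n 6424667 z (n 8656683 z z))
 z)))) (n 0 (n 0 z (n 0 (n 8867939 z (n 8867939 z z)) (n 0 z (n 0 z z)))) (n 0 (n 0 z (n 0 z (n
 0 z (n 0 z z)))) (n 0 (n 0 z (n 0 z (n 0 z (n 0 z z)))) (n 0 (n 0 z (n 0 z (n 0 z (n 0 z z))))
 (n 0 (n 0 z (n 0 (n 8656683 z z) (n 0 z (n 0 z z)))) (n 0 (n 0 z (n 0 z (n 0 z (n 0 z z)))) (n
 0 (n 0 z (n 0 z (n 0 z (n 0 z z)))) (n 0 (n 0 z (n 0 z (n 0 z (n 0 z z)))) (n 0 (n 0 z (n 0 z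
 (n 0 z (n 0 z z)))) (n 0 (n 0 z (n 0 z (n 0 z (n 0 z z)))) (n 0 (n 0 z (n 0 z (n 0 z (n 0 z
 z)))) (n 0 (n 0 (n 8656683 z z) (n 0 z (n 0 (n
 0x4483195d76249d96989f92476caa889c81f71e7df85b4a99e499d92092871b85e8e19e385b7647a30041 z z) (n
 0 z z)))) (n 0 (n 0 z (n 0 (n 7735371 z (n 8802419 z z)) (n 0 z (n 0 z z)))) (n 0 (n 0 z (n 0 z
 (n 0 z (n 0 z z)))) (n 0 (n 0 z (n 0 z (n 0 z (n 0 z z)))) (n 0 (n 0 z (n 0 (n 8656683 z z) (n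
 0 z (n 0 z z)))) (n 0 (n 0 z (n 0 z (n 0 z (n 0 z z)))) (n 0 (n 0 z (n 0 z (n 0 z (n 0 z z))))
 (n 0 (n 0 z (n 0 z (n 0 z (n 0 (n
 0x6487189f7ea7a4a219997a07de8a965a8a185d8e089e71cc6c55e9278e37999e95209e776372389c0041 z z)
 z)))) (n 0 (n 0 z (n 0 z (n 0 z (n 0 z z)))) (n 0 (n 0 (n 8718187 z z) (n 0 z (n 0 (n
 0x2c86391f76355b9e895d8e7726ba87d97607e079f81a76caa4b9f8649e875b7de6db96689a65f8250041 z z) (n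
 0 z z)))) (n 0 (n 0 (n
 0x1487189f8217a18627e081f82286085f82081f81f81f7e18208608208207e082081f81f8217e07e00041 z (n
 0x2c86391f76355b9e895d8e7726ba87d97607e079f81a76caa4b9f8649e875b7de6db96689a65f8250041 z z)) (n
 0 (n 0x2c86391f76355b9e895d8e7726ba87d97607e079f81a76caa4b9f8649e875b7de6db96689a65f8250041 z
 (n 8656683 z z)) (n 0 (n
 0x248638df7a35dd96691d8e6725ae67db7607a079e81c7aba64ade82296779c7df71d9248db6df8240041 z (n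
 8660763 z z)) (n 0 (n
 0x1c87189e8207a18627e07df82286086086081f85f81f7e28208207e07e07e082081f8607e27a07e10041 z (n
 0x2c86391f76355b9e895d8e7726ba87d97607e079f81a76caa4b9f8649e875b7de6db96689a65f8250041 z z))
 z)))) (n 0 (n 0 z (n 0 z (n 0 z (n 0 z z)))) (n 0 (n 0 z (n 0 z (n 0 z (n 0 z z)))) (n 0 (n 0 z
 (n 0 z (n 0 z (n 0 (n 8718187 z z) z)))) (n 0 (n 0 z (n 0 (n
 0xc87181f86082186182081f8208207e08608208208208218617e07e08208208207df8208208208200041 z (n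
 8656683 z z)) (n 0 z (n 0 z z)))) (n 0 (n 0 z (n 0 z (n 0 z (n 0 z z)))) (n 0 (n 0 z (n 0 (n
 8718187 z z) (n 0 z (n 0 z z)))) (n 0 (n 0 z (n 0 z (n 0 z (n 0 z z)))) (n 0 (n 0 z (n 0 z (n 0
 z (n 0 z z)))) (n 0 (n 0 z (n 0 z (n 0 z (n 0 z z)))) (n 0 (n 0 z (n 0 z (n 0 z (n 0 z z)))) (n
 0 (n 0 z (n 0 z (n 0 z (n 0 z z)))) (n 0 (n 0 z (n 0 (n 8656443 z (n 8656443 z z)) (n 0 z (n 0
 z z)))) (n 0 (n 0 z (n 0 (n 8656443 z (n 8787723 z z)) (n 0 z (n 0 z z))))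
 z)))))))))))))))))))))))))))))))))))))))))))))))))))))))) (n 153 (n 0 (n 0 z (n 0 z (n 0 z (n 0
 z z)))) (n 0 (n 0 z (n 0 z (n 0 z (n 0 z z)))) (n 0 (n 0 z (n 0 z (n 0 z (n 0 z z)))) (n 0 (n 0
 z (n 0 z (n 0 z (n 0 z z)))) (n 0 (n 0 z (n 0 z (n 0 z (n 0 z z)))) (n 0 (n 0 z (n 0 z (n 0 z
 (n 0 z z)))) (n 0 (n 0 z (n 0 z (n 0 z (n 0 z z)))) (n 0 (n 0 z (n 0 z (n 0 z (n 0 z z)))) (n 0
 (n 0 z (n 0 (n 8868907 z z) (n 0 z (n 0 z z)))) (n 0 (n 0 z (n 0 z (n 0 z (n 0 z z)))) (n 0 (n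
 0 z (n 0 (n 8855571 z z) (n 0 z (n 0 z z)))) (n 0 (n 0 z (n 0 (n 5515275 z z) (n 0 z (n 0 z
 z)))) (n 0 (n 0 z (n 0 z (n 0 z (n 0 z z)))) (n 0 (n 0 z (n 0 (n 8803139 z z) (n 0 z (n 0 z
 z)))) z)))))))))))))) (n 33 (n 0 (n 0 z (n 0 z (n 0 z (n 0 z z)))) (n 0 (n 0 z (n 0 z (n 0 z (n
 0 z z)))) (n 0 (n 0 z (n 0 z (n 0 z (n 0 z z)))) (n 0 (n 0 z (n 0 z (n 0 z (n 0 z z)))) (n 0 (n
 0 z (n 0 z (n 0 z (n 0 z z)))) z))))) (n 9 (n 0 (n 0 z (n 0 z (n 0 z (n 0 z z)))) (n 0 (n 0 z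
 (n 0 z (n 0 z (n 0 z z)))) (n 0 (n 0 z (n 0 z (n 0 z (n 0 z z)))) (n 0 (n 0 z (n 0 z (n 0 z (n
 0 z z)))) (n 0 (n 0 z (n 0 z (n 0 z (n 0 z z)))) z))))) (n 267 (n 0 (n 0 z (n 0 z (n 0 z (n 0 z
 z)))) (n 0 (n 0 z (n 0 z (n 0 z (n 0 z z)))) (n 0 (n 0 z (n 0 z (n 0 z (n 0 z z)))) (n 0 (n 0 z
 (n 0 z (n 0 z (n 0 z z)))) z)))) (n 1 (n 0 (n 0 z (n 0 z (n 0 z (n 0 z z)))) (n 0 (n 0 z (n 0 z
 (n 0 z (n 0 z z)))) (n 0 (n 0 z (n 0 z (n 0 z (n 0 z z)))) (n 0 (n 0 z (n 0 z (n 0 z (n 0 z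
 z)))) (n 0 (n 0 z (n 0 z (n 0 z (n 0 z z)))) (n 0 (n 0 z (n 0 z (n 0 z (n 0 z z)))) z)))))) (n
 0 (n 0 (n 0 z (n 0 z (n 0 z (n 0 z z)))) (n 0 (n 0 z (n 0 z (n 0 z (n 0 z z)))) (n 0 (n 0 z (n
 0 z (n 0 z (n 0 z z)))) (n 0 (n 0 z (n 0 (n
 0x30a8e860038608208208208207a08208208208208208208208208208208208208208208208208208208200801 z
 z) (n 0 z (n 0 z z)))) (n 0 (n 0 z (n 0 z (n 0 z (n 0 z z)))) (n 0 (n 0 z (n 0 z (n 0 z (n 0 z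
 z)))) (n 0 (n 0 z (n 0 z (n 0 z (n 0 z z)))) (n 0 (n 0 z (n 0 z (n 0 z (n 0 z z)))) (n 0 (n 0 z
 (n 0 (n 8803139 z z) (n 0 z (n 0 z z)))) z))))))))) z))))))))))))))))))))) z)))) z)) z))))
 z)))))))), by decide +kernel⟩
theorem i10861 : ∃ t, chkR KT RW t 10861 10865 = true := ⟨(n
 0xc344c702259a146e14134e304a6589529b0c5c6812e3440 (n 0 (n 399 (n 0 z (n 2 z (n 0 z (n 6557779 z
 z)))) (n 261 (n 0 z (n 0 z (n 0 z (n 0 z (n 0 z (n 0 z (n 0 z (n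
 0x556408228b089f98d8db6d5aa77b146565c459cde9b47e76e681a54f9ec3258e14a96ddd9dcd37ea0041 z (n
 0x2ca6a604078208208617df82086082086179f8208218207e07e08218618208208208208207e081f8618200801 z
 (n 0 z (n 0 z (n 0 z (n 0 z (n 0 z (n 0 z (n 0 z (n 6557779 z (n 0 z (n 0 z (n 0 z (n 10 z (n 0
 z (n 18 z (n 0 z (n 0 z (n 0 z z)))))))))))))))))))))))))) (n 129 (n 0 z (n 26 z (n 34 z (n 42
 z (n 0 z (n 3212843 z (n 0 z z))))))) (n 3 (n 6632475 z (n 50 z (n 58 z (n 0 z (n 6632475 z (n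
 0 z (n 0 z z))))))) (n 1 (n 0 z (n 0 z (n 66 z (n 6557779 z (n 0 z (n 0 z z)))))) (n 0 (n 0 z
 (n 0 z (n 0 z (n 0 z (n 0 z (n 0 z (n 6632475 z (n 0 z (n 0 z (n 0 z z)))))))))) z)))))) (n 399
 (n 0 (n 91 (n 0 z (n 0 z (n 0 z (n 0 z (n 0 z z))))) (n 91 (n 0 z (n 0 z (n 0 z (n 0 z (n 0 z
 z))))) (n 259 (n 0 z (n 0 z (n 0 z (n 0 z (n 0 z (n 0 z z)))))) (n 259 (n 0 z (n 0 z (n 0 z (n
 0 z (n 0 z (n 0 z z)))))) (n 259 (n 0 z (n 2 (n 2 (n 0 z (n 0 z (n 0 (n 8525323 z (n 8525323 z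
 z)) (n 0 (n 7612427 z (n 44 z z)) (n 0 (n 7612427 z (n 44 z z)) (n 0 z z)))))) (n 2 (n 0 (n
 7737475 z (n 8525323 z z)) (n 0 z (n 0 (n 4331627 z (n 4331627 z z)) (n 0 (n 7477259 z (n
 4331627 z z)) (n 0 z (n 0 z z)))))) (n 2 (n 0 (n 8525323 z (n 8525323 z z)) (n 0 z (n 0 z (n 0
 (n 3283051 z (n 3283051 z z)) (n 0 (n 3283051 z (n 3283051 z z)) (n 0 z z)))))) z))) (n 0 z (n
 0 z (n 0 z (n 0 z z)))))) (n 11 (n 0 z (n 0 z (n 0 z (n 0 z (n 0 z (n 2 (n 0 z (n 2 (n 0 (n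
 8871971 z (n 8871971 z z)) (n 0 (n 8871971 z (n 8871971 z z)) (n 0 (n 8871971 z (n 8871971 z
 z)) (n 0 z (n 0 (n 8871971 z (n 8871971 z z)) (n 0 z z)))))) z)) (n 0 z (n 0 z z)))))))) (n 11
 (n 0 z (n 0 z (n 0 z (n 0 z (n 0 z (n 0 z (n 0 z (n 0 z z)))))))) (n 3 (n 0 z (n 0 z (n 0 z (n
 0 z (n 0 z (n 0 z (n 0 z (n 0 z (n 0 z (n 0 z (n 0 z (n 0 z (n 0 z (n 0 z (n 0 z (n 0 z
 z)))))))))))))))) z)))))))) (n 0 (n 0 z (n 263 (n 2 (n 0 z (n 0 z (n 2 (n 0 z (n 0 (n 8730475 z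
 (n 7612427 z z)) (n 0 z (n 0 (n 8730475 z (n 7612427 z z)) (n 0 (n 1004 z (n 1004 z z)) (n 0 z
 z)))))) (n 2 (n 0 z (n 0 z (n 0 z (n 0 z (n 0 z (n 0 z z)))))) (n 1 z z))))) (n 0 z (n 0 z (n 0
 z (n 0 z (n 0 z (n 0 z (n 0 z z)))))))) (n 263 (n 0 z (n 0 z (n 0 z (n 0 z (n 0 z (n 0 z (n 0 z
 (n 0 z z)))))))) (n 263 (n 0 z (n 0 z (n 2 (n 2 (n 0 z (n 0 z (n 0 (n 7751771 z (n 1004 z z))
 (n 0 (n 7612427 z (n 8848923 z z)) (n 0 (n 7612427 z (n 1004 z z)) (n 0 z z)))))) (n 2 (n 0 (n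
 7737475 z (n 6428683 z z)) (n 0 z (n 0 (n 4327531 z (n 4327531 z z)) (n 0 (n 7477259 z (n
 4327531 z z)) (n 0 z (n 0 z z)))))) (n 2 (n 0 (n 6428683 z (n 6428683 z z)) (n 0 z (n 0 z (n 0
 (n 3278955 z (n 3278955 z z)) (n 0 (n 3278955 z (n 3278955 z z)) (n 0 z z)))))) z))) (n 0 z (n
 0 z (n 0 z (n 0 z (n 0 z z)))))))) (n 251 (n 0 z (n 0 z (n 0 z (n 0 z (n 0 z (n 2 (n 0 z (n 2
 (n 0 (n 8871971 z (n 8871971 z z)) (n 0 (n 8871971 z (n 8871971 z z)) (n 0 (n 8871971 z (n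
 8871971 z z)) (n 0 z (n 0 (n 8871971 z (n 8871971 z z)) (n 0 z z)))))) z)) z)))))) (n 251 (n 0
 z (n 0 z (n 0 z (n 0 z (n 0 z (n 0 z z)))))) (n 243 (n 0 z (n 0 z (n 0 z (n 0 z z)))) z)))))))
 (n 0 (n 867 (n 0 z (n 0 z (n 0 z (n 0 z (n 0 z (n 0 z (n 0 z (n 0 z (n 0 z (n 0 z (n 0 z (n 0 z
 (n 0 z (n 0 z (n 0 z (n 0 z (n 2 (n 0 z (n 0 z (n 2 (n 0 z (n 0 z (n 0 z (n 0 z (n 0 z (n 0 z
 z)))))) (n 2 (n 0 z (n 0 z (n 0 z (n 0 z (n 0 z (n 0 z z)))))) (n 2 (n 0 z (n 0 z (n 0 z (n 0 z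
 (n 0 z (n 0 z z)))))) z))))) (n 0 z (n 0 z (n 0 z (n 0 z (n 0 z (n 0 z (n 0 z (n 0 z (n 0 z
 z)))))))))))))))))))))))))) (n 867 (n 0 z (n 0 z (n 0 z (n 0 z (n 0 z (n 0 z (n 0 z (n 0 z (n 0
 z (n 0 z (n 0 z (n 0 z (n 0 z (n 0 z (n 0 z (n 0 z (n 0 z (n 0 z (n 0 z (n 0 z (n 0 z (n 0 z (n
 0 z (n 0 z (n 0 z (n 0 z z)))))))))))))))))))))))))) (n 867 (n 0 z (n 0 z (n 0 z (n 0 z (n 0 z
 (n 0 z (n 0 z (n 0 z (n 0 z (n 0 z (n 0 z (n 0 z (n 0 z (n 0 z (n 0 z (n 0 z (n 0 z (n 0 z (n 0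
 z (n 0 z (n 2 (n 2 (n 0 z (n 0 z (n 0 z (n 0 z (n 0 z (n 0 z z)))))) (n 2 (n 0 z (n 0 z (n 0 z
 (n 0 z (n 0 z (n 0 z z)))))) (n 2 (n 0 z (n 0 z (n 0 z (n 0 z (n 0 z (n 0 z z)))))) z))) (n 0 z
 (n 0 z (n 0 z (n 0 z (n 0 z z)))))))))))))))))))))))))) (n 473 (n 0 z (n 0 z (n 0 z (n 0 z (n 0
 z (n 0 z (n 0 z (n 0 z (n 0 z (n 0 z (n 0 z (n 0 z (n 0 z (n 0 z (n 0 z (n 0 z (n 2 (n 0 z (n 2
 (n 0 z (n 0 z (n 0 z (n 0 z (n 0 z (n 0 z z)))))) z)) (n 0 z (n 0 z (n 0 z (n 0 z (n 0 z (n 0 z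
 (n 0 z (n 0 z (n 0 z z)))))))))))))))))))))))))) (n 473 (n 0 z (n 0 z (n 0 z (n 0 z (n 0 z (n 0
 z (n 0 z (n 0 z (n 0 z (n 0 z (n 0 z (n 0 z (n 0 z (n 0 z (n 0 z (n 0 z (n 0 z (n 0 z (n 0 z (n
 0 z (n 0 z (n 0 z (n 0 z (n 0 z (n 0 z (n 0 z z)))))))))))))))))))))))))) (n 521 (n 0 z (n 0 z
 (n 0 z (n 0 z (n 0 z (n 0 z (n 0 z (n 0 z (n 0 z (n 0 z (n 0 z (n 0 z (n 0 z (n 0 z (n 0 z (n 0
 z (n 0 z (n 0 z (n 0 z (n 0 z (n 0 z (n 0 z (n 0 z z))))))))))))))))))))))) z)))))) (n 0 (n 0 z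
 (n 0 z (n 1077 (n 0 z (n 0 z (n 0 z (n 0 z (n 0 z (n 2 (n 0 z (n 2 (n 0 z (n 0 z (n 0 z (n 0 z
 (n 0 z (n 0 z z)))))) z)) (n 0 z (n 0 z (n 0 z (n 0 z (n 0 z (n 0 z (n 0 z (n 0 z (n 0 z (n 0 z
 (n 0 z (n 0 z (n 0 z (n 0 z (n 0 z z))))))))))))))))))))) (n 1077 (n 0 z (n 0 z (n 0 z (n 0 z
 (n 0 z (n 0 z (n 0 z (n 0 z (n 0 z (n 0 z (n 0 z (n 0 z (n 0 z (n 0 z (n 0 z (n 0 z (n 0 z (n 0
 z (n 0 z (n 0 z (n 0 z z))))))))))))))))))))) (n 255 (n 2 z (n 0 z (n 0 z (n 0 z (n 0 z z)))))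
 z))))) (n 0 (n 0 z (n 295 (n 0 z (n 0 z (n 2 (n 0 z (n 2 (n 0 (n 7737475 z (n 8802571 z z)) (n
 0 (n 8802571 z (n 8802571 z z)) (n 0 (n 8802571 z (n 8802571 z z)) (n 0 z (n 0 z (n 0 z z))))))
 z)) (n 0 z (n 0 z (n 0 z (n 0 z (n 0 z (n 0 z (n 0 z (n 0 z (n 0 z (n 0 z (n 0 z (n 0 z (n 0 z
 (n 0 z (n 0 z (n 0 z (n 0 z (n 0 z (n 0 z z)))))))))))))))))))))) (n 295 (n 0 z (n 0 z (n 0 z
 (n 0 z (n 0 z (n 0 z (n 0 z (n 0 z (n 0 z (n 0 z (n 0 z (n 0 z (n 0 z (n 0 z (n 0 z (n 0 z (n 0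
 z (n 0 z (n 0 z (n 0 z (n 0 z (n 0 z z)))))))))))))))))))))) (n 291 (n 0 z (n 0 z (n 0 z (n 0 z
 (n 0 z (n 0 z (n 0 z (n 0 z (n 0 z (n 0 z (n 0 z (n 0 z (n 0 z (n 0 z (n 0 z z)))))))))))))))
 z)))) (n 0 (n 639 (n 6563595 z (n 0 z (n 0 z (n 0 z (n 0 z (n 0 z (n 0 z (n 0 z (n 0 z (n 0 z
 (n 0 z z))))))))))) (n 639 (n 0 z (n 0 z (n 2 (n 2 (n 0 (n 8868107 z (n 8868107 z z)) (n 0 z (n
 0 (n 8868107 z (n 8868107 z z)) (n 0 (n 8868107 z (n 8868107 z z)) (n 0 (n 8868107 z (n 8868107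
 z z)) (n 0 z z)))))) z) (n 0 z (n 0 z (n 0 z (n 0 z (n 0 z (n 0 z (n 0 z (n 0 z z))))))))))) (n
 243 (n 0 z (n 2 z (n 0 z (n 0 z (n 0 z z))))) z))) (n 0 (n 0 z (n 3 (n 0 z (n 0 z (n 2 z (n 0 z
 (n 0 z (n 0 z (n 0 z (n 0 z z)))))))) z)) (n 0 (n 723 (n 0 z (n 0 z (n 0 z (n 0 z (n 0 z (n 0 z
 (n 0 z (n 0 z (n 0 z (n 0 z (n 0 z (n 0 z (n 0 z z))))))))))))) z) (n 0 z z))))))))) (n 0 (n 0
 z (n 1 (n 4 z (n 2092 z (n 2092 z (n 2092 z (n 2092 z (n 2092 z z)))))) (n 0 z (n 1 (n 6557779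
 z (n 6557779 z (n 6557779 z (n 6557779 z (n 6557779 z (n 6557779 z z)))))) z)))) (n 0 z z))))
 (n 0x835c908ceb3057198438a970327182930d10b65901a550061ac0 (n 0 (n 177 (n 2 z (n 0 z (n 0 z (n 0
 z (n 0 z (n 0 z (n 0 z (n 0 z (n 10 z (n 18 z (n 0 z (n 0 z (n 0 z (n 0 z (n 0 z (n 0 z (n 0 z
 (n 0 z (n 0 z (n 0 z (n 0 z (n 0 z (n 0 z (n 0 z (n 6561875 z (n 0 z
 z)))))))))))))))))))))))))) (n 33 (n 26 z (n 34 z (n 0 z (n 0 z (n 42 z (n 3278363 z z)))))) (n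
 129 (n 50 z (n 0 z (n 0 z (n 0 z (n 6561875 z (n 0 z z)))))) (n 3 (n 58 z (n 6631947 z (n 66 z
 (n 0 z z)))) (n 1 (n 74 z (n 0 z (n 0 z (n 0 z (n 6561875 z z))))) (n 0 (n 0 z (n 0 z (n 0 z (n
 0 z (n 0 z (n 6631947 z z)))))) z)))))) (n 3 (n 0 (n 0 z (n 0 z (n 143 (n 0 z (n 0 z (n 0 z (n
 0 z (n 0 z (n 0 z z)))))) (n 143 (n 0 z (n 0 z (n 0 z (n 0 z (n 0 z (n 0 z z)))))) (n 143 (n 0
 z (n 0 z (n 0 z (n 2 (n 2 (n 0 z (n 0 z (n 0 z (n 0 (n 8865291 z (n 8865291 z z)) (n 0 (n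
 4397163 z (n 4397163 z z)) (n 0 (n 4397163 z (n 4397163 z z)) z)))))) (n 2 (n 0 (n 4331627 z (n
 4331627 z z)) (n 0 z (n 0 z (n 0 (n 8865291 z (n 7749763 z z)) (n 0 (n 7407691 z (n 4331627 z
 z)) (n 0 z z)))))) (n 2 (n 0 (n 7743579 z (n 804 z z)) (n 0 z (n 0 z (n 0 z (n 0 (n 8865291 z
 (n 8865291 z z)) (n 0 (n 7477323 z (n 804 z z)) z)))))) (n 2 (n 0 z (n 0 z (n 0 z (n 0 (n
 8865291 z (n 8865291 z z)) (n 0 (n 3283051 z (n 3283051 z z)) (n 0 (n 3283051 z (n 3283051 z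
 z)) z)))))) z)))) (n 0 z (n 0 z z)))))) (n 135 (n 0 z (n 0 z (n 0 z (n 0 z (n 0 z (n 0 z (n 0 z
 (n 0 z z)))))))) (n 201 (n 0 z (n 0 z (n 0 z (n 0 z (n 0 z (n 0 z z)))))) (n 201 (n 0 z (n 0 z
 (n 0 z (n 0 z (n 2 (n 2 (n 0 (n 8872979 z (n 8872979 z z)) (n 0 z (n 0 (n 8872979 z (n 8872979
 z z)) (n 0 z (n 0 (n 8872979 z (n 8872979 z z)) (n 0 (n 8872979 z (n 8872979 z z)) z)))))) z)
 (n 0 z z)))))) (n 133 (n 0 z (n 0 z (n 0 z (n 0 z (n 0 z (n 0 z (n 0 z (n 0 z (n 0 z (n 0 z (n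
 0 z (n 0 z (n 0 z (n 0 z (n 0 z (n 0 z (n 0 z (n 0 z (n 0 z (n 0 z z))))))))))))))))))))
 z))))))))) (n 0 (n 0 z (n 763 (n 0 z (n 0 z (n 0 z (n 0 z (n 0 z (n 0 z (n 0 z (n 0 z (n 0 z (n
 0 z (n 0 z (n 0 z (n 0 z (n 0 z (n 0 z (n 0 z (n 0 z (n 0 z (n 0 z (n 0 z (n 0 z (n 0 z (n 0 z
 (n 0 z (n 0 z (n 0 z z)))))))))))))))))))))))))) (n 763 (n 0 z (n 0 z (n 0 z (n 0 z (n 0 z (n 0
 z (n 0 z (n 0 z (n 0 z (n 0 z (n 0 z (n 0 z (n 0 z (n 0 z (n 0 z (n 0 z (n 0 z (n 0 z (n 0 z (n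
 0 z (n 0 z (n 0 z (n 0 z (n 0 z (n 2 (n 0 z (n 2 (n 0 z (n 0 z (n 0 z (n 0 z (n 0 z (n 0 z
 z)))))) (n 2 (n 0 z (n 0 z (n 0 z (n 0 z (n 0 z (n 0 z z)))))) (n 2 (n 0 z (n 0 z (n 0 z (n 0 z
 (n 0 z (n 0 z z)))))) (n 2 (n 0 z (n 0 z (n 0 z (n 0 z (n 0 z (n 0 z z)))))) z))))) (n 0 z
 z)))))))))))))))))))))))))) (n 763 (n 2 (n 2 (n 0 z (n 0 z (n 0 z (n 0 z (n 0 z (n 0 z z))))))
 (n 2 (n 0 z (n 0 z (n 0 z (n 0 z (n 0 z (n 0 z z)))))) (n 2 (n 0 z (n 0 z (n 0 z (n 0 z (n 0 z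
 (n 0 z z)))))) (n 2 (n 0 (n 7754627 z (n 2916 z z)) (n 0 (n 8663395 z (n 8663395 z z)) (n 0 (n
 7407691 z (n 2916 z z)) (n 0 z (n 0 z (n 0 z z)))))) z)))) (n 0 z (n 0 z (n 0 z (n 0 z (n 0 z
 (n 0 z (n 0 z (n 0 z (n 0 z (n 0 z (n 0 z (n 0 z (n 0 z (n 0 z (n 0 z (n 0 z (n 0 z (n 0 z (n 0
 z (n 0 z (n 0 z (n 0 z (n 0 z (n 0 z (n 0 z z)))))))))))))))))))))))))) (n 19 (n 0 z (n 0 z (n
 0 z (n 0 z (n 0 z (n 0 z (n 0 z (n 0 z (n 0 z (n 0 z (n 0 z (n 0 z (n 0 z (n 0 z (n 0 z (n 0 z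
 (n 0 z (n 0 z (n 0 z (n 0 z (n 0 z (n 0 z (n 0 z (n 0 z (n 0 z (n 0 z (n 0 z
 z))))))))))))))))))))))))))) (n 33 (n 0 z (n 0 z (n 0 z (n 0 z (n 0 z (n 0 z (n 0 z (n 0 z (n 0
 z (n 0 z (n 0 z (n 0 z (n 0 z (n 0 z (n 0 z (n 0 z (n 0 z (n 0 z (n 0 z (n 0 z (n 0 z (n 0 z (n
 0 z (n 0 z (n 0 z (n 0 z z)))))))))))))))))))))))))) (n 33 (n 0 z (n 0 z (n 0 z (n 0 z (n 0 z
 (n 0 z (n 0 z (n 0 z (n 0 z (n 0 z (n 0 z (n 0 z (n 0 z (n 0 z (n 0 z (n 0 z (n 0 z (n 0 z (n 0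
 z (n 0 z (n 0 z (n 0 z (n 0 z (n 0 z (n 2 (n 2 (n 0 z (n 0 z (n 0 z (n 0 z (n 0 z (n 0 z
 z)))))) z) (n 0 z z)))))))))))))))))))))))))) (n 729 (n 0 z (n 0 z (n 0 z (n 0 z (n 0 z (n 0 z
 (n 0 z (n 0 z (n 0 z (n 0 z (n 0 z (n 0 z (n 0 z (n 0 z (n 0 z (n 0 z (n 0 z (n 0 z (n 0 z (n 0
 z (n 0 z (n 0 z (n 0 z (n 0 z (n 0 z (n 0 z (n 0 z z))))))))))))))))))))))))))) z)))))))) (n 0
 (n 763 (n 0 z (n 0 z (n 0 z (n 0 z (n 0 z (n 0 z (n 0 z (n 0 z z)))))))) (n 763 (n 0 z (n 0 z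
 (n 0 z (n 0 z (n 0 z (n 0 z (n 0 z (n 0 z z)))))))) (n 763 (n 0 z (n 0 z (n 0 z (n 0 z (n 0 z
 (n 0 z (n 0 z (n 0 z z)))))))) (n 107 (n 0 z (n 0 z (n 0 z (n 0 z (n 0 z (n 0 z z)))))) (n 247
 (n 0 z (n 0 z (n 0 z (n 0 z (n 0 z (n 0 z (n 0 z (n 0 z z)))))))) (n 247 (n 0 z (n 0 z (n 0 z
 (n 0 z (n 0 z (n 0 z (n 0 z (n 0 z z)))))))) (n 15 (n 0 z (n 0 z (n 0 z (n 0 z (n 0 z (n 0 z (n
 0 z (n 0 z z)))))))) z))))))) (n 0 (n 0 z (n 0 z (n 375 (n 0 z (n 0 z (n 0 z (n 0 z (n 0 z (n 0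
 z (n 0 z (n 0 z z)))))))) (n 55 (n 0 z (n 0 z (n 0 z (n 0 z (n 0 z (n 0 z (n 0 z (n 0 z (n 0 z
 (n 0 z (n 0 z (n 0 z (n 0 z (n 0 z (n 0 z (n 0 z (n 0 z (n 0 z (n 0 z (n 0 z (n 0 z (n 0 z (n 0
 z (n 0 z (n 0 z (n 0 z (n 0 z (n 0 z (n 0 z (n 0 z (n 0 z (n 0 z
 z)))))))))))))))))))))))))))))))) (n 55 (n 0 z (n 0 z (n 0 z (n 0 z (n 0 z (n 0 z (n 0 z (n 0 z
 (n 0 z (n 0 z (n 0 z (n 0 z (n 0 z (n 0 z (n 0 z (n 0 z (n 0 z (n 0 z (n 0 z (n 0 z (n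
 0x1157647d88107c08078067ef7f979175e7f48037d081d80d7ca7b48058067fc8407c47f57da80b7fe81d7b18348167d78017a183a73586283f8267bf8128788328567fb8277c97e884386480081f0051
 z (n 2 (n 2 (n 0 z (n 0 z (n 0 z (n 0 z (n 0 z (n 0 z z)))))) z) (n 0 z (n 0 z (n 0 z (n 0 z (n
 0 z (n 0 z (n 0 z (n 0 z (n 0 z (n 0 z z)))))))))))))))))))))))))))))))) (n 373 (n 0 z (n 0 z
 (n 0 z (n 0 z (n 0 z (n 0 z (n 0 z (n 0 z z)))))))) z)))))) (n 0 (n 0 z (n 375 (n 0 z (n 0 z (n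
 0 z z))) (n 487 (n 0 z (n 0 z (n 0 z (n 0 z (n 0 z (n 0 z (n 0 z (n 0 z (n 0 z (n 0 z (n 0 z (n
 0 z (n 0 z (n 0 z (n 0 z (n 0 z (n 0 z (n 0 z (n 0 z (n 0 z (n 0 z (n 0 z (n 0 z (n 0 z (n 0 z
 (n 0 z (n 0 z (n 0 z (n 0 z (n 0 z (n 0 z z))))))))))))))))))))))))))))))) (n 487 (n 0 z (n 0 z
 (n 0 z (n 0 z (n 0 z (n 0 z (n 0 z (n 0 z (n 0 z (n 0 z (n 0 z (n 0 z (n 0 z (n 0 z (n 0 z (n 0
 z (n 2 (n 2 (n 0 (n 7682155 z (n 1508 z z)) (n 0 z (n 0 z (n 0 z (n 0 (n 7407691 z (n 7682155 z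
 z)) (n 0 (n 6359115 z (n 6359115 z z)) z)))))) z) (n 0 z (n 0 z (n 0 z (n 0 z (n 0 z (n 0 z (n
 0 z (n 0 z (n 0 z (n 0 z (n 0 z (n 0 z (n 0 z (n 0 z z))))))))))))))))))))))))))))))) (n 377 (n
 0 z (n 0 z (n 0 z (n 0 z (n 0 z (n 0 z (n 0 z (n 0 z z)))))))) z))))) (n 0 (n 391 (n 2 (n 2 (n
 0 (n 8868875 z (n 8868875 z z)) (n 0 z (n 0 z (n 0 (n 8868875 z (n 8868875 z z)) (n 0 (n
 8868875 z (n 8868875 z z)) (n 0 (n 8868875 z (n 8868875 z z)) z)))))) (n 2 (n 0 (n 6428747 z (n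
 6428747 z z)) (n 0 z (n 0 z (n 0 (n 8456011 z (n 7477323 z z)) (n 0 z (n 0 (n 8456011 z (n 1548
 z z)) z)))))) (n 2 (n 0 z (n 0 z (n 0 z (n 0 (n 3213435 z (n 3213435 z z)) (n 0 (n 8800011 z (n
 3213435 z z)) (n 0 (n 8800011 z (n 3213435 z z)) z)))))) z))) (n 0 z (n 0 z (n 0 z (n 0 z (n 0
 z z)))))) (n 387 (n 0 z (n 2 (n 0 z (n 2 (n 0 (n 8800011 z (n 6359115 z z)) (n 0 z (n 0 z (n 0
 (n 2164859 z (n 8800011 z z)) (n 0 (n 2164859 z (n 2164859 z z)) (n 0 z z)))))) z)) (n 0 z (n 0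
 z (n 0 z z))))) (n 387 (n 0 z (n 0 z (n 0 z (n 0 z (n 6428491 z z))))) (n 63 (n 2 z (n 0 z (n 0
 z (n 0 z z)))) z)))) (n 0 (n 247 (n 0 z (n 0 z (n 0 z (n 0 z (n 0 z (n 0 z (n 0 z (n 0 z (n 0 z
 z))))))))) (n 247 (n 0 z (n 0 z (n 0 z (n 0 z (n 2 (n 2 (n 0 (n 8872979 z (n 8872979 z z)) (n 0
 z (n 0 (n 8872979 z (n 8872979 z z)) (n 0 (n 8872979 z (n 8872979 z z)) (n 0 z (n 0 (n 8872979
 z (n 8872979 z z)) z)))))) z) (n 0 z (n 0 z (n 0 z (n 0 z z))))))))) (n 617 (n 0 z (n 0 z (n 0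
 z (n 0 z (n 0 z (n 0 z (n 0 z (n 0 z (n 0 z (n 0 z (n 0 z z))))))))))) z))) (n 0 (n 0 z (n 3 (n
 0 z (n 0 z (n 0 z (n 0 z (n 0 z (n 0 z (n 0 z z))))))) z)) (n 0 (n 3 (n 2 z (n 0 z (n 0 z z)))
 z) (n 0 z z)))))))))) (n 0 (n 1 (n 4 z (n 1420 z (n 1420 z (n 1420 z (n 3212875 z (n 1420 z
 z)))))) (n 1 (n 6631947 z (n 6631947 z (n 6631947 z (n 6631947 z (n 6631947 z (n 6631947 z
 z)))))) (n 1 (n 1420 z (n 1420 z (n 1420 z (n 1420 z (n 3282507 z (n 1420 z z)))))) (n 0 z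
 z)))) (n 0 z z)))) (n
 0x6c63a3449d10c2e870b3708939b049b44695a2192f68135330a2598991842ab68833b4480 (n 0x36893 (n 407
 (n 3282443 z (n 2 z (n 0 z (n 0 z z)))) (n 475 (n 6558475 z (n 10 z (n 0 z z))) (n 173 (n 0 z
 (n 0x3165499e7a36a681f75e9218a19df89b91e7667a18db81c7a77628a092171f81d6a56e999f7a281a0041 z (n
 0 z (n
 0x4ca2ca08038207e086082181f86181f7e082081f82186081f7e082081f81f7e181f82185e82186181f8200801 z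
 (n 0 z (n
 0x6ca4a6080789f7a27628207a18a181f8618607df7e385f85d81d7df8218a186182081f7df7a28a179d7e00801 z
 (n 0x2ca4a608078a07e17a18208208a182182182081f7e281f81e81e7df82086086082081f81f8218a17de8200801
 z (n 0 z (n 0 z (n
 0x4ca8c860078607e186082181e8618207e082081f8218608207e086082081f82185f82181e82186081f8210801 z
 (n
 0x65251040180ca2ca200785f8217e18218208608a07e182082082082081f81f7df8218608218608207df7e18607df8201001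
 z (n 0 z (n
 0xaca8ca8207837e7488809172617b73a97d80915c7b8597816c757e967c7f7e8c7e7d75868c957fa361747b8b738f79857eb67e7a6c827f0809
 z (n 0 z (n 0 z (n 0 z (n 18 z (n 0 z (n
 0x2c82c8200785c8a27a17e482176185d79f8607a176175f7e18a07608627e27637e172181e7a07628208210801 z
 (n 0 z (n 0 z (n
 0x6ca4a6080395a81f72179f89c96489c89e75f8e28657df71a81e7e181e7e58a086081f8de82285f6df79f0801 z
 (n 5506603 z (n 3212843 z (n 0 z (n 0 z (n 0 z (n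
 0x2ca2ca08038607e18607e17df82081f82082181e86086082082082081f8607e082082181f7e28218207e00801 z
 (n 0x2ca2c608038617e086082182086182082082081f8218208208208208208607e081f82081e82186081f8200801
 z (n 0 z (n
 0xca8ca80038207e08608217e08208207e082082082282081f81f8608208607e082082081e82182182081f0801 z (n
 0 z (n
 0x2ca8c860078607e18607e07df8207e082082081f82182086082082081f86182082082181f7e18218207e00801 z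
 (n 0 z (n
 0xca8ca82038207e08208208208218208208208208208208207a08207e08608208208608208208208208200801 z (n
 0 z (n 0 z (n 26 z (n 0 z (n 0 z (n 34 z (n 0 z (n 0 z (n 42 z (n 0 z (n 0 z
 z)))))))))))))))))))))))))))))))))))))))))))))) (n 3 (n 6567195 z (n 0 z (n 0 z (n 50 z (n
 0x2ca8ca040785e8647228637e082182082281e82076289f8a181e82282182275f85f81f7a276482182185e0801 z
 (n 58 z (n 6567195 z (n
 0x4ca8ca8003aa182781d92882066355bc608de6e17e545e8d97da8667db6dd6ed7df62161c7a54a37a38200801 z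
 (n 0 z (n 0 z (n 0 z (n 6567195 z (n
 0xaca8ca8207837e7488809172617b73a97d80915c7b8597816c757e967c7f7e8c7e7d75868c957fa361747b8b738f79857eb67e7a6c827f0809
 z (n 66 z z)))))))))))))) (n 127 (n 0 z (n 0 z (n 6558475 z (n 0 z (n 0 z (n 0 z (n 74 z (n 0 z
 (n 0 z (n 0 z z)))))))))) (n 0 (n 2164315 z (n 82 z (n 90 z (n 98 z (n 106 z z))))) z)))))) (n
 475 (n 0 (n 951 (n 0 z (n 0 z (n 0 z (n 0 z (n 0 z z))))) (n 813 (n 0 z (n 0 z (n 0 z (n 0 z (n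
 0 z (n 0 z (n 0 z (n
 0x4ecaeca8079df7626e67d77d98a085d89e8e179d85f72381b95b6608a28639a875e6a17db86391c8179200801 z
 (n 0x2ecaeca807a1d8a37227657e079d81d9dd9207dd82561f89992061c8a072676b8a265e7987207e28578a20801
 z (n 0 z (n 0 z (n 0 z z)))))))))))) (n 813 (n 0 z (n 0 z (n 0 z (n 0 z (n 0 z (n 0 z (n 0 z (n
 0 z (n 0 z (n 0 z (n 0 z (n 2 (n 0 z (n 0 z (n 2 (n 0 z (n 0 z (n 0 z (n 0 z (n 0 (n 8860683 z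
 z) (n 0 z z)))))) (n 2 (n 0 (n 1180 z z) (n 0 z (n 0 z (n 0 (n 1180 z z) (n 0 (n 1180 z (n 1180
 z z)) (n 0 z z)))))) (n 1 z (n 1 z (n 2 (n 0 z (n 0 z (n 0 z (n 0 z (n 0 z (n 0 z z)))))) (n 2
 (n 0 z (n 0 z (n 0 z (n 0 z (n 0 z (n 0 z z)))))) (n 1 z (n 2 (n 0 z (n 0 z (n 0 z (n 0 z (n 0
 z (n 0 z z)))))) z)))))))))) z)))))))))))) (n 813 (n 0 z (n 0 z (n 2 (n 0 z (n 1 z (n 1 z (n 1
 z (n 1 z (n 2 (n 0 z (n 0 z (n 0 z (n 0 z (n 0 z (n 0 z z)))))) (n 2 (n 0 z (n 0 z (n 0 z (n 0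
 z (n 0 (n 8656747 z z) (n 0 z z)))))) (n 1 z (n 2 (n 0 z (n 0 z (n 0 z (n 0 z (n 0 z (n 0 z
 z)))))) z))))))))) (n 0 z (n 0 z (n 0 z (n 0 z (n 0 z (n 0 z (n 0 z (n 0 z (n 0 z z))))))))))))
 (n 813 (n 0 z (n 0 z (n 0 z (n 0 z (n 0 z (n 0 z (n 0 z (n 0 z (n 0 z (n 0 z (n 0 z (n 0 z
 z)))))))))))) (n 295 (n 0 z (n 0 z (n 0 z (n 0 z (n 2 (n 0 z (n 0 z (n 1 z (n 1 z (n 1 z (n 1 z
 (n 2 (n 0 z (n 0 z (n 0 z (n 0 z (n 0 z (n 0 z z)))))) z))))))) (n 0 z (n 0 z (n 0 z (n 0 z (n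
 0 z (n 0 z (n 0 z (n 0 z (n 0 z (n 0 z (n 0 z (n 0 z z))))))))))))))))) (n 295 (n 0 z (n 0 z (n
 0 z (n 0 z (n 0 z (n 0 z (n 0 z (n 0 z (n 0 z (n 0 z (n 0 z (n 0 z (n 0 z (n 0 z (n 0 z (n 0 z
 (n 0 z z))))))))))))))))) (n 295 (n 0 z (n 0 z (n 0 z (n 0 z (n 0 z (n 0 z (n 0 z (n 0 z (n 0 z
 (n 0 z (n 0 z (n 0 z (n 0 z (n 0 z (n 0 z (n 0 z (n 0 z z))))))))))))))))) (n 805 (n 0 z (n 0 z
 (n 0 z (n 0 z (n 0 z (n 0 z (n 0 z (n 0 z (n 0 z (n 0 z (n 0 z (n 0 z (n 0 z z))))))))))))) (n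
 793 (n 0 z (n 0 z (n 2 (n 0 z (n 0 z (n 0 z z))) (n 0 z (n 0 z (n 0 z z)))))) (n 793 (n 0 z (n
 0 z (n 0 z (n 0 z (n 2 (n 0 z (n 0 z z)) (n 0 z z)))))) (n 793 (n 0 z (n 0 z (n 0 z (n 0 z (n 0
 z (n 0 z z)))))) (n 793 (n 0 z (n 2 z (n 0 z (n 0 z (n 0 z (n 0 z z)))))) z))))))))))))) (n 0
 (n 949 (n 0 z (n 0 z (n 0 z (n 0 z (n 0 z (n 0 z (n 0 z (n 0 z (n 0 z (n 0 z (n 0 z
 z))))))))))) (n 949 (n 0 z (n 0 z (n 0 z (n 0 z (n 0 z (n 0 z (n 0 z (n 0 z (n 0 z (n 0 z (n 2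
 (n 0 z (n 0 z (n 2 (n 0 z (n 0 z (n 0 z (n 0 z (n 0 z (n 0 z z)))))) (n 2 (n 0 z (n 0 z (n 0 z
 (n 0 z (n 0 z (n 0 z z)))))) (n 1 z (n 2 (n 0 z (n 0 z (n 0 z (n 0 z (n 0 (n 3278955 z z) (n 0
 z z)))))) (n 2 (n 0 z (n 0 z (n 0 z (n 0 z (n 0 z (n 0 z z)))))) (n 2 (n 0 z (n 0 z (n 0 z (n 0
 z (n 0 z (n 0 z z)))))) (n 2 (n 0 z (n 0 z (n 0 z (n 0 z (n 0 (n 3278955 z z) (n 0 z z)))))) (n
 2 (n 0 z (n 0 z (n 0 z (n 0 z (n 0 z (n 0 z z)))))) z)))))))))) z))))))))))) (n 949 (n 0 z (n 0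
 z (n 0 z (n 0 z (n 0 z (n 0 z (n 0 z (n 0 z (n 0 z (n 0 z (n 0 z z))))))))))) (n 949 (n 0 z (n
 0 z (n 0 z (n 0 z (n 0 z (n 0 z (n 0 z (n 0 z (n 0 z (n 0 z (n 0 z z))))))))))) (n 487 (n 0 z
 (n 0 z (n 0 z (n 2 (n 0 z (n 0 z (n 2 (n 0 z (n 0 z (n 0 z (n 0 z (n 0 (n 3278955 z z) (n 0 z
 z)))))) (n 1 z (n 1 z (n 2 (n 0 z (n 0 z (n 0 z (n 0 z (n 0 (n 3278955 z z) (n 0 z z)))))) (n 2
 (n 0 z (n 0 z (n 0 z (n 0 z (n 0 z (n 0 z z)))))) z))))))) (n 0 z (n 0 z (n 0 z (n 0 z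
 z)))))))) (n 487 (n 0 z (n 0 z (n 0 z (n 0 z (n 0 z (n 0 z (n 0 z (n 0 z z)))))))) (n 487 (n 0
 z (n 0 z (n 0 z (n 0 z (n 0 z (n 0 z (n 0 z (n 0 z z)))))))) (n 483 (n 0 z (n 0 z (n 0 z (n 0 z
 (n 0 z (n 0 z (n 0 z z))))))) (n 485 (n 0 z (n 0 z (n 0 z (n 0 z (n 2 (n 0 z (n 0 z (n 0 z z)))
 (n 0 z z)))))) (n 485 (n 0 z (n 0 z (n 2 (n 0 z (n 0 z z)) (n 0 z (n 0 z (n 0 z z)))))) (n 485
 (n 0 z (n 0 z (n 0 z (n 0 z (n 0 z (n 0 z z)))))) (n 485 (n 0 z (n 0 z (n 0 z (n 0 z (n 0 z (n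
 2 z z)))))) z)))))))))))) (n 0 (n 0 z (n 0 z (n 0 z (n 33 (n 0 z (n 0 z (n 0 z (n 0 z (n 0 z (n
 0 z (n 0 z (n 0 z (n 0 z (n 0 z (n 0 z (n 0 z (n 0 z (n 0 z (n 0 z (n 0 z (n 0 z (n 0 z (n 0 z
 (n 0 z (n 0 z (n 0 z (n 0 z (n 0 z (n 0 z (n 0 z (n 0 z (n 0 z z)))))))))))))))))))))))))))) (n
 33 (n 0 z (n 0 z (n 0 z (n 0 z (n 0 z (n 0 z (n 0 z (n 0 z (n 0 z (n 0 z (n 0 z (n 0 z (n 0 z
 (n 0 z (n 0 z (n 0 z (n 0 z (n 2 (n 0 z (n 2 (n 0 z (n 0 z (n 0 (n 3428 z (n 3428 z z)) (n 0 (n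
 3428 z (n 3428 z z)) (n 0 (n 3428 z (n 3428 z z)) (n 0 z z)))))) (n 1 z (n 1 z (n 2 (n 0 z (n 0
 z (n 0 (n 3124 z (n 3124 z z)) (n 0 (n 3124 z (n 3124 z z)) (n 0 (n 3124 z (n 3124 z z)) (n 0 z
 z)))))) (n 2 (n 0 z (n 0 z (n 0 z (n 0 z (n 0 z (n 0 z z)))))) z)))))) (n 0 z (n 0 z (n 0 z (n
 0 z (n 0 z (n 0 z (n 0 z (n 0 z (n 0 z (n 0 z z)))))))))))))))))))))))))))) (n 33 (n 0 z (n 0 z
 (n 0 z (n 0 z (n 0 z (n 0 z (n 0 z (n 0 z (n 0 z (n 0 z (n 0 z (n 0 z (n 0 z (n 0 z (n 0 z (n 0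
 z (n 0 z (n 0 z (n 0 z (n 0 z (n 0 z (n 0 z (n 0 z (n 0 z (n 0 z (n 0 z (n 0 z (n 0 z
 z)))))))))))))))))))))))))))) (n 857 (n 0 z (n 0 z (n 0 z (n 0 z z)))) (n 781 (n 2 (n 0 z (n 0
 z (n 0 z z))) (n 0 z (n 0 z (n 0 z (n 0 z z))))) (n 781 (n 0 z (n 0 z (n 0 z (n 0 z (n 0 z
 z))))) (n 781 (n 0 z (n 0 z (n 0 z (n 0 z (n 0 z z))))) (n 781 (n 0 z (n 0 z (n 0 z (n 0 z (n 0
 z z))))) z))))))))))) (n 0 (n 0 z (n 0 z (n 33 (n 0 z (n 0 z (n 0 z (n 0 z (n 0 z (n 0 z (n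
 7746571 z (n 0 z (n 0 z (n 0 z (n 0 z (n 0 z (n 0 z z))))))))))))) (n 33 (n 0 z (n 0 z (n 0 z
 (n 0 z (n 0 z (n 0 z (n 0 z (n 0 z (n 0 z (n 0 z (n 0 z (n 0 z (n 0 z z))))))))))))) (n 33 (n 0
 z (n 0 z (n 0 z (n 0 z (n 0 z (n 0 z (n 0 z (n 0 z (n 0 z (n 0 z (n 0 z (n 0 z (n 2 (n 1 z (n 2
 (n 0 z (n 0 z (n 0 z (n 0 z (n 0 z (n 0 z z)))))) (n 2 (n 0 z (n 0 z (n 0 z (n 0 z (n 0 z (n 0
 z z)))))) (n 1 z (n 2 (n 0 z (n 0 z (n 0 z (n 0 z (n 0 (n 1364 z z) (n 0 z z)))))) z)))))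
 z))))))))))))) (n 345 (n 0 z (n 0 z (n 0 z (n 0 z (n 0 z (n 0 z (n 0 z (n 0 z (n 0 z (n 0 z (n
 2 (n 2 (n 0 z (n 0 z (n 0 z (n 0 z (n 0 z (n 0 z z)))))) (n 2 (n 0 z (n 0 z (n 0 z (n 0 z (n 0
 z (n 0 z z)))))) (n 1 z (n 2 (n 0 z (n 0 z (n 0 z (n 0 z (n 0 z (n 0 z z)))))) z))))
 z))))))))))) (n 341 (n 0 z (n 0 z (n 0 z (n 0 z (n 0 z (n 0 z (n 0 z (n 0 z (n 0 z (n 0 z (n 0
 z (n 0 z (n 0 z (n 0 z z)))))))))))))) (n 341 (n 0 z (n 0 z (n 2 (n 0 z (n 0 z z)) (n 0 z (n 0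
 z (n 0 z (n 0 z (n 0 z (n 0 z (n 0 z (n 0 z (n 0 z (n 0 z (n 0 z z)))))))))))))) (n 341 (n 0 z
 (n 0 z (n 0 z (n 0 z (n 0 z (n 0 z (n 0 z (n 0 z (n 0 z (n 0 z (n 0 z (n 0 z (n 0 z (n 2 (n 0 z
 z) z)))))))))))))) (n 341 (n 0 z (n 0 z (n 0 z (n 0 z (n 0 z (n 0 z (n 0 z (n 0 z (n 0 z (n 0 z
 (n 0 z (n 0 z (n 0 z (n 0 z z)))))))))))))) z)))))))))) (n 0 (n 0 z (n 27 (n 0 z (n 0 z (n 0 z
 (n 0 z (n 0 z (n 0 z (n 0 z (n 0 z (n 0 z (n 0 z (n 0 z (n 0 z (n 0 z (n 0 z (n 0 z (n 0 z (n 0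
 z (n 0 z (n 0 z (n 0 z (n 0 z (n 0 z z)))))))))))))))))))))) (n 27 (n 0 z (n 0 z (n 0 z (n 0 z
 (n 0 z (n 0 z (n 0 z (n 0 z (n 0 z (n 0 z (n 0 z (n 0 z (n 0 z (n 0 z (n 0 z (n 0 z (n 0 z (n 0
 z (n 0 z (n 0 z (n 0 z (n 0 z z)))))))))))))))))))))) (n 27 (n 0 z (n 0 z (n 0 z (n 0 z (n 0 z
 (n 0 z (n 0 z (n 0 z (n 0 z (n 0 z (n 0 z (n 0 z (n 0 z (n 0 z (n 0 z (n 0 z (n 0 z (n 0 z (n 0
 z (n 0 z (n 2 (n 1 z (n 2 (n 0 z (n 0 z (n 0 z (n 0 z (n 0 (n 8656747 z z) (n 0 z z)))))) (n 2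
 (n 0 z (n 0 z (n 0 z (n 0 z (n 0 z (n 0 z z)))))) (n 1 z (n 2 (n 0 z (n 0 z (n 0 z (n 0 z (n 0
 z (n 0 z z)))))) z))))) (n 0 z z)))))))))))))))))))))) (n 339 (n 0 z (n 0 z (n 0 z (n 0 z (n 0
 z (n 0 z (n 0 z (n 0 z (n 0 z (n 0 z (n 0 z (n 0 z (n 0 z (n 0 z (n 0 z (n 0 z (n 0 z (n 0 z (n
 0 z (n 0 z (n 0 z (n 0 z (n 0 z (n 0 z (n 0 z (n 0 z (n 0 z (n 0 z (n 0 z
 z))))))))))))))))))))))))))))) (n 337 (n 0 z (n 0 z (n 0 z (n 2 (n 0 z (n 0 z (n 0 z z))) (n 0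
 z (n 0 z (n 0 z (n 0 z (n 0 z (n 0 z (n 0 z z))))))))))) (n 337 (n 0 z (n 0 z (n 0 z (n 0 z (n
 2 (n 0 z (n 0 z z)) (n 0 z (n 0 z (n 0 z (n 0 z (n 0 z (n 0 z z))))))))))) (n 337 (n 0 z (n 0 z
 (n 0 z (n 0 z (n 0 z (n 0 z (n 0 z (n 0 z (n 0 z (n 0 z (n 0 z z))))))))))) (n 337 (n 0 z (n 0
 z (n 0 z (n 0 z (n 0 z (n 0 z (n 0 z (n 0 z (n 0 z (n 0 z (n 2 z z))))))))))) z))))))))) (n 0
 (n 247 (n 0 z (n 0 z (n 2 (n 0 z (n 0 z (n 2 (n 0 z (n 0 z (n 0 z (n 0 z (n 0 (n 3213419 z z)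
 (n 0 z z)))))) (n 1 z (n 1 z (n 2 (n 0 z (n 0 z (n 0 z (n 0 z (n 0 (n 3213419 z z) (n 0 z
 z)))))) (n 2 (n 0 z (n 0 z (n 0 z (n 0 z (n 0 z (n 0 z z)))))) z))))))) (n 0 z (n 0 z (n 0 z (n
 0 z (n 0 z (n 0 z (n 0 z (n 0 z (n 0 z z)))))))))))) (n 247 (n 0 z (n 0 z (n 0 z (n 0 z (n 0 z
 (n 0 z (n 0 z (n 0 z (n 0 z (n 0 z (n 0 z (n 0 z z)))))))))))) (n 247 (n 0 z (n 0 z (n 0 z (n 0
 z (n 0 z (n 0 z (n 0 z (n 0 z (n 0 z (n 0 z (n 0 z (n 0 z z)))))))))))) (n 255 (n 0 z (n 0 z (n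
 0 z (n 0 z (n 0 z (n 0 z (n 0 z (n 0 z (n 0 z (n 0 z (n 0 z (n 0 z (n 0 z z))))))))))))) (n 253
 (n 0 z (n 0 z (n 2 (n 0 z (n 0 z (n 0 z z))) (n 0 z (n 0 z (n 0 z (n 0 z (n 0 z (n 0 z (n 0 z
 (n 0 z z))))))))))) (n 253 (n 0 z (n 0 z (n 0 z (n 0 z (n 0 z (n 0 z (n 0 z (n 2 (n 0 z (n 0 z
 z)) (n 0 z (n 0 z (n 0 z z))))))))))) (n 253 (n 0 z (n 0 z (n 0 z (n 0 z (n 0 z (n 0 z (n 0 z
 (n 0 z (n 0 z (n 0 z (n 0 z z))))))))))) (n 253 (n 0 z (n 0 z (n 0 z (n 0 z (n 0 z (n 0 z (n 0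
 z (n 0 z (n 0 z (n 2 z (n 0 z z))))))))))) z)))))))) (n 0 (n 0 z (n 0 z (n 15 (n 0 z (n 0 z (n
 0 z (n 0 z (n 0 z (n 0 z (n 0 z (n 2 (n 1 z (n 1 z (n 1 z (n 2 (n 0 z (n 0 z (n 0 z (n 0 z (n 0
 (n 1013 z z) (n 0 z z)))))) z)))) (n 0 z (n 0 z (n 0 z (n 0 z z)))))))))))) (n 13 (n 0 z (n 0 z
 (n 0 z (n 0 z (n 0 z (n 0 z (n 0 z (n 0 z (n 0 z (n 0 z (n 0 z (n 0 z (n 0 z (n 0 z (n 0 z (n 0
 z (n 0 z (n 0 z (n 0 z (n 0 z (n 0 z (n 0 z (n 0 z (n 0 z (n 0 z (n 0 z (n 0 z (n 0 z (n 0 z (n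
 0 z (n 0 z (n 0 z (n 0 z (n 0 z (n 0 z (n 0 z (n 0 z (n 0 z (n 0 z (n 0 z (n 0 z (n 0 z (n 0 z
 (n 0 z (n 0 z (n 0 z (n 0 z (n 0 z (n 0 z z))))))))))))))))))))))))))))))))))))))))))))))))) (n
 13 (n 0 z (n 0 z (n 0 z (n 0 z (n 0 z (n 0 z (n 0 z (n 0 z (n 0 z (n 0 z (n 0 z (n 0 z (n
 7745555 z (n 0 z (n 0 z (n 0 z (n 0 z (n 0 z (n 0 z (n 0 z (n 0 z (n 0 z (n 0 z (n 0 z (n 0 z
 (n 0 z (n 0 z (n 0 z (n 0 z (n 0 z (n 0 z (n 0 z (n 0 z (n 0 z (n 0 z (n 0 z (n 0 z (n 0 z (n 0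
 z (n 0 z (n 0 z (n 0 z (n 0 z (n 0 z (n 0 z (n 0 z (n 0 z (n 0 z (n 0 z
 z))))))))))))))))))))))))))))))))))))))))))))))))) (n 13 (n 0 z (n 0 z (n 0 z (n 0 z (n 0 z (n
 0 z (n 0 z (n 0 z (n 0 z (n 0 z (n 0 z (n 0 z (n 0 z (n 0 z (n 0 z (n 0 z (n 0 z (n 0 z (n 0 z
 (n 0 z (n 0 z (n 0 z (n 0 z (n 0 z (n 0 z (n 0 z (n 0 z (n 0 z (n 0 z (n 0 z (n 0 z (n 0 z (n 2
 (n 0 z z) (n 0 z (n 0 z (n 0 z (n 0 z (n 0 z (n 0 z (n 0 z (n 0 z (n 0 z (n 0 z (n 0 z (n 0 z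
 (n 0 z (n 0 z (n 0 z (n 0 z z))))))))))))))))))))))))))))))))))))))))))))))))) (n 13 (n 0 z (n
 0 z (n 0 z (n 0 z (n 0 z (n 0 z (n 0 z (n 0 z (n 0 z (n 0 z (n 0 z (n 0 z (n 0 z (n 0 z (n 0 z
 (n 0 z (n 0 z (n 0 z (n 0 z (n 0 z (n 0 z (n 0 z (n 0 z (n 0 z (n 0 z (n 0 z (n 0 z (n 0 z (n 0
 z (n 0 z (n 0 z (n
 0x176372140382ea8c8640785b8a17a17a281d8a089e8a271f89f86279b81c8a082081e7a27e28e286079c7a485c7dd8df1001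
 z (n 0 z (n 0 z (n 0 z (n 0 z (n 0 z (n 0 z (n 0 z (n 0 z (n 0 z (n 0 z (n 0 z (n 0 z (n 0 z (n
 0 z (n 0 z (n 0 z (n 0 z z))))))))))))))))))))))))))))))))))))))))))))))))) z))))))) (n 0 (n 0
 z (n 9 (n 0 z (n 0 z (n 0 z (n 0 z z)))) (n 5 (n 0 z (n 0 z (n 0 z (n 0 z z)))) (n 5 (n 0 z (n
 0 z (n 0 z (n 0 z z)))) (n 5 (n 0 z (n 0 z (n 0 z (n 0 z z)))) (n 5 (n 0 z (n 0 z (n 0 z (n 0 z
 z)))) z)))))) (n 0 (n 3 (n 0 z (n 0 z (n 0 z (n 0 z (n 0 z (n 0 z (n 0 z (n 0 z (n 0 z (n 0 z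
 (n 0 z (n 0 z (n 0 z (n 0 z z)))))))))))))) (n 5 (n 0 z (n 0 z (n 0 z (n 0 z (n 0 z (n 0 z (n 0
 z (n 2 (n 0 z (n 0 z (n 0 z z))) (n 0 z (n 0 z (n 0 z z))))))))))) (n 5 (n 0 z (n 0 z (n 2 (n 0
 z (n 0 z z)) (n 0 z (n 0 z (n 0 z (n 0 z (n 0 z (n 0 z (n 0 z (n 0 z z))))))))))) (n 5 (n 0 z
 (n 0 z (n 0 z (n 0 z (n 0 z (n 0 z (n 0 z (n 0 z (n 0 z (n 0 z (n 0 z z))))))))))) (n 5 (n 0 z
 (n 0 z (n 0 z (n 2 z (n 0 z (n 0 z (n 0 z (n 0 z (n 0 z (n 0 z (n 0 z z))))))))))) z))))) (n 0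
 (n 253 (n 0 z (n 0 z (n 2 (n 0 z (n 0 z (n 0 z z))) (n 0 z (n 0 z z))))) (n 253 (n 0 z (n 2 (n
 0 z (n 0 z z)) (n 0 z (n 0 z (n 0 z z))))) (n 253 (n 0 z (n 0 z (n 0 z (n 0 z (n 0 z z))))) (n
 253 (n 2 z (n 0 z (n 0 z (n 0 z (n 0 z z))))) z)))) (n 0 (n 0 z (n 0 z (n 0 z z))) (n 0 (n 0 z
 (n 0 z z)) (n 0 (n 0 z z) (n 0 z z)))))))))))))) (n 0 (n 1 (n 6558475 z (n 6558475 z (n 6558475
 z (n 6558475 z (n 6558475 z (n 6558475 z z)))))) (n 1 (n 3260 z (n 2 z (n 3260 z (n 3260 z (n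
 3260 z (n 6567195 z z)))))) (n 0 z z))) (n 0 (n 0x81c2cd62185d63631d88864bcb3132 (n 0 (n 0 (n
 7733787 z (n 7733787 z (n 7733787 z (n 7733787 z (n 7733787 z (n 7733787 z z)))))) z) (n 0 (n
 407 (n 1 (n 3282699 z (n 3282699 z (n 3282699 z (n 3282699 z (n 3282699 z (n 3282699 z z))))))
 (n 1 (n 7733787 z (n 7733787 z (n 7733787 z (n 7733787 z (n 7733787 z (n 7733787 z z)))))) (n 0
 z (n 0 z z)))) (n 475 (n 1 (n 7607051 z (n 7607051 z (n 7607051 z (n 7607051 z (n 7607051 z (n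
 7607051 z z)))))) (n 1 (n 7738699 z (n 7673387 z (n 7738699 z (n 7738699 z (n 7738699 z (n
 7738699 z z)))))) (n 0 z z))) (n 475 (n 1 (n
 0x2ecaca680785d8a37a27e281e8217e079e7a37237617a48e28a281d85e7e18a382071f7207207a095f8220801 z
 (n 4261675 z (n 3260 z (n 3260 z (n 7615771 z (n 3260 z z)))))) (n 1 (n 7607051 z (n 7607051 z
 (n 7607051 z (n 7607051 z (n 7607051 z (n 7607051 z z)))))) (n 1 (n 7607051 z (n 7607051 z (n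
 7607051 z (n 7607051 z (n 7607051 z (n 7607051 z z)))))) (n 1 (n 5506859 z (n 4261675 z (n
 5506859 z (n 5506859 z (n 5506859 z (n 7615771 z z)))))) (n 1 (n 4392747 z (n 3213099 z (n
 4392747 z (n 4392747 z (n 4392747 z (n 7615771 z z)))))) (n 0 z (n 0 z (n 0 z (n 1 (n 4261691 z
 (n 5445419 z (n 6358859 z (n
 0x2ecaca68038de8227637e179e8dc8247e092289c7a27a185e89e81d7e186286185f81e81982592081a8de0801 z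
 (n 3260 z (n 7615771 z z)))))) (n 1 (n 5517683 z (n 7738699 z (n 7738699 z (n 7738699 z (n
 7738699 z (n 7738699 z z)))))) (n 1 (n 3260 z (n 7615771 z (n 3260 z (n 2 z (n 3260 z (n
 6557811 z z)))))) z))))))))))) (n 249 (n 0 z (n 1 (n 7615771 z (n 7673387 z (n 7673387 z (n
 7733787 z (n 7673387 z (n 7673387 z z)))))) (n 1 (n 7615771 z (n 4327227 z (n 4327227 z (n
 4327227 z (n 7733787 z (n 4327227 z z)))))) (n 1 (n 10 z (n 7615771 z (n 7733787 z (n 1228 z (n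
 1228 z (n 1228 z z)))))) (n 1 (n 4327195 z (n 7733787 z (n 7615771 z (n 4327195 z (n 4327195 z
 (n 4327195 z z)))))) (n 1 (n 7733787 z (n 1228 z (n 1228 z (n 1228 z (n 7615771 z (n 1228 z
 z)))))) (n 1 (n 4261691 z (n 1228 z (n 7733787 z (n 1228 z (n 1228 z (n 7615771 z z)))))) (n 1
 (n 7733787 z (n 5310251 z (n
 0x19d91d8140e04ecaca8403898d548c86a5872d8454b7978682537a828a7f678966aba27c7b8d646f8e837d986fca6764627c8a7d7f8686cf74735c92781009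
 z (n 1228 z (n 1228 z (n 7615771 z z)))))) z)))))))) (n 126 (n 1 (n 3260 z (n 3260 z (n 3260 z
 (n 6629131 z (n 3260 z (n 3260 z z)))))) (n 1 (n 7615771 z (n 1020 z (n 3260 z (n 6625035 z (n
 3260 z (n 3260 z z)))))) (n 1 (n 3260 z (n 3260 z (n 7615771 z (n 3260 z (n 3260 z (n 3260 z
 z)))))) (n 1 (n 7607051 z (n 7607051 z (n 7607051 z (n 7607051 z (n 7607051 z (n 7607051 z
 z)))))) (n 1 (n 7673387 z (n 7673387 z (n 7615771 z (n 7673387 z (n 7673387 z (n 7673387 z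
 z)))))) z))))) (n 127 (n 1 (n 3212 z (n 6563595 z (n 3212 z (n 3212 z (n 3212 z (n 18 z z))))))
 (n 1 (n 3212 z (n 6559499 z (n 3212 z (n 26 z (n 3212 z (n 3212 z z)))))) (n 1 (n 3212 z (n
 3212 z (n 34 z (n 3212 z (n 3212 z (n 3212 z z)))))) (n 1 (n 7607051 z (n 7607051 z (n 7607051
 z (n 7607051 z (n 7607051 z (n 7607051 z z)))))) (n 1 (n 7673387 z (n 7673387 z (n 7673387 z (n
 7673387 z (n 7673387 z (n 7673387 z z)))))) z))))) (n 475 (n 1 (n 7607051 z (n 7607051 z (n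
 7607051 z (n 7607051 z (n 7607051 z (n 7607051 z z)))))) (n 1 (n 7738699 z (n 7733787 z (n
 7738699 z (n 7738699 z (n 7738699 z (n 7615771 z z)))))) (n 0 z z))) z))))))) (n 0 (n 0 (n 0 z
 (n 0 z (n 0 z (n 0 z (n 0 z z))))) (n 0 (n 0 z (n 0 z (n 0 z (n 0 z z)))) (n 0 (n 0 z (n 0 z (n
 0 z z))) (n 0 (n 0 z (n 0 z z)) (n 0 (n 0 z z) z))))) (n 0 (n 477 (n 0 (n 0 z (n 0 z (n 0 z (n
 0 z (n 0 z z))))) (n 0 (n 0 z (n 0 z (n 0 z (n 0 z (n 0 z z))))) (n 0 (n 0 z (n 0 z (n 0 z (n 0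
 z (n 0 z z))))) (n 0 (n 0 z (n 0 z (n 0 z (n 0 z (n 0 z z))))) (n 0 (n 0 z (n 0 z (n 0 z (n 0 z
 (n 0 z z))))) z))))) (n 407 (n 0 (n 0 z (n 0 z (n 0 z (n 0 z (n 0 z z))))) (n 0 (n 0 z (n 0 z
 (n 0 z (n 0 z (n 0 z z))))) (n 0 (n 0 z (n 0 z (n 0 z (n 0 z (n 0 z z))))) (n 0 (n 0 z (n 0 z
 (n 0 z (n 0 z (n 0 z z))))) (n 0 (n 0 z (n 0 z (n 0 z (n 0 z (n 0 z z))))) (n 0 (n 0 z (n 0 z
 (n 0 z (n 0 z (n 0 z z))))) (n 0 (n 0 z (n 0 z (n 0 z (n 0 z (n 0 z z))))) (n 0 (n 0 z (n 0 z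
 (n 0 z (n 0 z (n 0 z z))))) (n 0 (n 0 z (n 0 z (n 0 z (n 0 z (n 0 z z))))) (n 0 (n 0 z (n 0 z
 (n 0 z (n 0 z (n 0 z z))))) (n 0 (n 0 z (n 0 z (n 0 z (n 0 z (n 0 z z))))) (n 0 (n 0 z (n 0 z
 (n 0 z (n 0 z (n 0 z z))))) z)))))))))))) (n 475 (n 0 (n 0 z (n 0 z (n 0 z (n 0 z (n 0 z z)))))
 (n 0 (n 0 z (n 0 z (n 0 z (n 0 z (n 0 z z))))) (n 0 (n 0 z (n 0 z (n 0 z (n 0 z (n 0 z z)))))
 (n 0 (n 0 z (n 0 z (n 0 z (n 0 z (n 0 z z))))) (n 0 (n 0 z (n 0 z (n 0 z (n 0 z (n 0 z z)))))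
 (n 0 (n 0 z (n 0 z (n 0 (n 8848443 z z) (n 0 z (n 0 z z))))) (n 0 (n 0 z (n 0 z (n 0 z (n 0 z
 (n 0 z z))))) (n 0 (n 0 z (n 0 z (n 0 z (n 0 z (n 0 z z))))) (n 0 (n 0 z (n 0 z (n 0 (n
 0x86486350388ecb0c460389e8a17e082085e89f81f7e08217de82182081f8df81f7e07e082281f82085e86286081f8201001
 z z) (n 0 z (n 0 z z))))) (n 0 (n 0 z (n 0 z (n 0 z (n 0 z (n 0 z z))))) (n 0 (n 0 z (n 0 z (n
 0 z (n 0 z (n 0 z z))))) z))))))))))) (n 153 (n 0 (n 0 z (n 0 z (n 0 z (n 0 z (n 0 z z))))) (n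
 0 (n 0 z (n 0 z (n 0 z (n 0 z (n 0 z z))))) (n 0 (n 0 z (n 0 z (n 0 z (n 0 z (n 0 z z))))) (n 0
 (n 0 (n
 0x2876765401810c90c840781f8208218208608208207e182081f86182086081f8207e081f82182082081f7e082181e7e01001
 z (n
 0x1876876401810c90c840781f8208208208208208208208208208208208208208208208208208208208207e08208208201001
 z z)) (n 0 z (n 0 z (n 0 (n
 0x1432c32a01c1865862401810c90a840799c92366272485d95e8de8617e37dd82482089f99c75d82386282481c71e85e82482179b81e1801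
 z (n
 0x61da1c9006043a43a100c086476420380c86c8640782082082082082082082082082082082082082081f8208208208208208208208208208208202001
 z z)) (n 0 (n 8656731 z (n 8652571 z z)) z))))) (n 0 (n 0 z (n 0 z (n 0 z (n 0 z (n 0 z z)))))
 (n 0 (n 0 z (n 0 z (n 0 z (n 0 z (n 0 z z))))) (n 0 (n 0 (n
 0x876864501810ecec280785f8617e082181f85f86082186082082182081f85f82086082082081f7e081e82282079f8201001
 z z) (n 0 z (n 0 (n 8652651 z z) (n 0 z (n 0 z z))))) (n 0 (n 0 (n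
 0xa1d9d9500602ecaeca007817e6c8b74937d5f7c719f95857d767f727e80807b7da18578847e73858d8089927b9b6076758d84809c7e8aa27977837d7b1009
 z z) (n 0 z (n 0 (n
 0x70caca8407b1a1b6576687454dec91f9a15e08984edb5a7135c9af26e9de4d4859acd96f35fbd5e6206560801 z
 z) (n 0 z (n 0 z z))))) (n 0 (n 0 z (n 0 z (n 0 z (n 0 z (n 0 z z))))) (n 0 (n 0 z (n 0 z (n 0
 z (n 0 z (n 0 z z))))) (n 0 (n 0 z (n 0 z (n 0 z (n 0 z (n 0 z z))))) (n 0 (n 0 z (n 0 z (n 0 z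
 (n 0 z (n 0 z z))))) (n 0 (n 0 z (n 0 z (n 0 z (n 0 z (n 0 z z))))) (n 0 (n 0 (n
 0x2987499f7e36e581f75e8a086199f85c89e7a57a089b81d7e676289f8e175f85e6e376795f7a185b0041 z (n
 8798323 z z)) (n 0 z (n 0 (n
 0x987485f8207e17df81f85f82086082081f82182085f81f8207e08218218208608207e185f81e8200041 z (n
 0x318749de7a36a681f75e920862a1f89c91e7a57a18da81c7e776289f8e171f85d6e572999f7a281b0041 z z)) (n
 0 z (n 0 z z))))) (n 0 (n 0 (n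
 0x875874601830ececa80782082082082082086082082082082082082081f85f81f8208208208208208208218208208201001
 z z) (n 0 z (n 0 (n
 0x2d8729949676e052e66681f7268217258db62759a7dc8258db8288a665d9a985b81d6617a791a7250041 z z) (n
 0 z (n 0 z z))))) (n 0 (n 0 z (n 0 z (n 0 z (n 0 z (n 0 z z))))) (n 0 (n 0 z (n 0 z (n 0 z (n 0
 z (n 0 z z))))) z))))))))))))))))) (n 249 (n 0 (n 0 z (n 0 z (n 0 z (n 0 (n 8787275 z z) (n 0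
 (n 8787275 z z) z))))) (n 0 (n 0 z (n 0 z (n 0 z (n 0 z (n 0 z z))))) (n 0 (n 0 z (n 0 z (n 0 z
 (n 0 z (n 0 z z))))) (n 0 (n 0 z (n 0 z (n 0 z (n 0 z (n 0 z z))))) (n 0 (n 0 z (n 0 z (n 0 z
 (n 0 z (n 0 z z))))) (n 0 (n 0 z (n 0 z (n 0 z (n 0 z (n 0 z z))))) (n 0 (n 0 z (n 0 z (n 0 z
 (n 0 z (n 0 z z))))) (n 0 (n 0 z (n 0 z (n 0 z (n 0 z (n 0 z z))))) z)))))))) (n 129 (n 0 (n 0
 z (n 0 z (n 0 z (n 0 z (n 0 z z))))) (n 0 (n 0 z (n 0 z (n 0 z (n 0 z (n 0 z z))))) (n 0 (n 0 z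
 (n 0 z (n 0 z (n 0 z (n 0 z z))))) (n 0 (n 0 z (n 0 z (n 0 z (n 0 z (n 0 z z))))) (n 0 (n 0 z
 (n 0 z (n 0 z (n 0 z (n 0 z z))))) (n 0 (n 0 z (n 0 z (n 0 z (n 0 z (n 0 z z))))) (n 0 (n 0 z
 (n 0 z (n 0 z (n 0 z (n 0 z z))))) (n 0 (n 0 z (n 0 z (n 0 z (n 0 z (n 0 z z))))) (n 0 (n 0 z
 (n 0 z (n 0 z (n 0 z (n 0 z z))))) (n 0 (n 0 z (n 0 z (n 0 z (n 0 z (n 0 z z))))) (n 0 (n 0 z
 (n 0 z (n 0 z (n 0 z (n 0 z z))))) (n 0 (n 0 z (n 0 z (n 0 z (n 0 z (n 0 z z))))) z))))))))))))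
 (n 407 (n 0 (n 0 z (n 0 z (n 0 z (n 0 z (n 0 z z))))) (n 0 (n 0 z (n 0 z (n 0 (n 8782363 z (n
 8782363 z z)) (n 0 (n 8782363 z (n 8782363 z z)) (n 0 (n 8782363 z (n 8782363 z z)) z))))) (n 0
 (n 0 z (n 0 z (n 0 z (n 0 z (n 0 z z))))) (n 0 (n 0 z (n 0 z (n 0 z (n 0 z (n 0 z z))))) (n 0
 (n 0 z (n 0 z (n 0 z (n 0 z (n 0 z z))))) (n 0 (n 0 z (n 0 z (n 0 z (n 0 z (n 0 z z))))) (n 0
 (n 0 z (n 0 z (n 0 z (n 0 z (n 0 z z))))) (n 0 (n 0 (n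
 0x987685f8207e17df81f85f82086082081f82182085f81f8207e08218218208608207e185f81e8200041 z (n
 8798323 z z)) (n 0 (n
 0x30eb0ca4078208208208208208608208208608208208208208208208208208218208208208208208208210801 z
 (n 0x318719de7a36a681f71e8e08a29df89b91e7667a18db81c7a776389f8e171f81d6a472a96076281a0041 z z))
 (n 0 z (n 0 (n
 0x2d8739949676e052e66681f7268217258db62759a7dc8258db8288a665d9a985b81d6617a791a7250041 z (n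
 0xf0cb0a24038b735f96799b78617673ab9c828270806e828676767ca48b7a84806d7e92808b987da16576778088799d7393a37d7a837e760809
 z z)) (n 0 (n 8868883 z (n 8868883 z z)) z))))) (n 0 (n 0 z (n 0 z (n 0 z (n 0 z (n 0 z z)))))
 (n 0 (n 0 z (n 0 z (n 0 z (n 0 z (n 0 z z))))) (n 0 (n 0 z (n 0 z (n 0 z (n 0 z (n 0 z z)))))
 (n 0 (n 0 (n
 0x987585f8207e17df81f85f82086082081f82182085f81f8207e08218218208608207e185f81e8200041 z (n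
 0x30e8e62c078608208207e08208608608208207e082182081f8607df8208218208208208208208208208200801 z
 z)) (n 0 (n 8654963 z (n
 0x30eb0ca4078608208207e086085f86082086082182082082081f81f8218208218208208208208207e08200801 z
 z)) (n 0 (n 8652651 z (n
 0xb193a8c01c0876876301830eb0c64078207e08207df8608208208218208208618208617a08207a081f7e08207e181f86082181f81f1801
 z z)) (n 0 z (n 0 z z))))) (n 0 (n 0 z (n 0 z (n 0 (n 8664347 z z) (n 0 (n 8664347 z z) (n 0 (n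
 8868883 z z) z))))) z))))))))))))) (n 255 (n 0 (n 0 z (n 0 z (n 0 z (n 0 z (n 0 z z))))) (n 0
 (n 0 z (n 0 z (n 0 z (n 0 z (n 0 z z))))) (n 0 (n 0 z (n 0 z (n 0 z (n 0 z (n 0 z z))))) (n 0
 (n 0 z (n 0 z (n 0 z (n 0 z (n 0 z z))))) (n 0 (n 0 z (n 0 z (n 0 z (n 0 z (n 0 z z))))) (n 0
 (n 0 (n 8868963 z (n 8868963 z z)) (n 0 (n 6424651 z (n 6424651 z z)) (n 0 z (n 0 z (n 0 z
 z))))) (n 0 (n 0 z (n 0 (n 7682091 z (n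
 0x30eb0ca4078208208208208208608208208608208208208208208208208208218208208208208208208210801 z
 z)) (n 0 z (n 0 z (n 0 z z))))) z))))))) (n 129 (n 0 (n 0 z (n 0 z (n 0 z (n 0 z (n 0 z z)))))
 (n 0 (n 0 (n
 0x1874750603810ed0ec0038207e08208208208208208208208208208208207e18208208208208208208208208208208201001
 z z) (n 0 z (n 0 z (n 0 z (n 0 z z))))) (n 0 (n 0 z (n 0 z (n 0 z (n 0 z (n 0 z z))))) (n 0 (n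
 0 (n 8664347 z z) (n 0 z (n 0 z (n 0 z (n 0 z z))))) (n 0 (n 0 z (n 0 z (n 0 z (n 0 z (n 0 z
 z))))) (n 0 (n 0 z (n 0 z (n 0 (n
 0x187473060181084ec06038608208208608218218207e17e08208208208208208207df8208217e082081f8208218208201001
 z z) (n 0 z (n 0 z z))))) (n 0 (n 0 (n
 0x30ecec600781e7e28a082085f85e8a07e086181f82286085e81d82182181f82185f7e081e7e286279f7e00801 z
 (n 8798323 z z)) (n 0 (n
 0x30cb0a600785f82279f8607df86082086186186082282086081d7e082081f7e086081f81f82182381f8200801 z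
 (n 0x61871b5c72652c81e65c9a18e4b9d8d89dc6ab7219557d776d66591f9e265e85a529671b1e7238550041 z z))
 (n 0 z (n 0 z (n 0 z z))))) (n 0 (n 0 z (n 0 z (n 0 (n
 0x318109de7a36a681e75e8e08a2a1f89b91e7667a18da81c7e776389f92171f81d6a476999f7a28590041 z (n
 8791819 z z)) (n 0 (n
 0xb0e60981089f8217a17e07e086082086082081f8227e081e81f8207e182182085f81f7e07e18a081f7e00081 z (n
 0x2181099e7a36e581f75e8e186195f85d8de7657a089c7dc7a576289f8e175f81e6e37689607e181b0041 z z)) (n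
 0 (n 8868883 z (n 8868883 z z)) z))))) (n 0 (n 0 (n 8655627 z (n 8798323 z z)) (n 0 (n 8655627
 z (n 8655627 z z)) (n 0 z (n 0 (n 8655627 z (n 8655627 z z)) (n 0 (n 8868883 z (n 8868883 z z))
 z))))) (n 0 (n 0 z (n 0 z (n 0 z (n 0 (n 3213355 z z) (n 0 (n 8855811 z z) z))))) (n 0 (n 0 (n
 0x874750603830e8e60c078e08216e18a181e720859b1f81b7248276db85a81d8608606e56658e189e7a082565e79e8601001
 z z) (n 0 z (n 0 z (n 0 z (n 0 z z))))) (n 0 (n 0 z (n 0 z (n 0 z (n 0 z (n 0 z z))))) (n 0 (n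
 0 z (n 0 z (n 0 z (n 0 z (n 0 z z))))) z))))))))))))) (n 3 (n 0 (n 0 z (n 0 z (n 0 z (n 0 z (n
 0 z z))))) (n 0 (n 0 z (n 0 z (n 0 z (n 0 z (n 0 z z))))) (n 0 (n 0 z (n 0 z (n 0 z (n 0 z (n 0
 z z))))) (n 0 (n 0 z (n 0 z (n 0 z (n 0 z (n 0 z z))))) (n 0 (n 0 z (n 0 z (n 0 z (n 0 z (n 0 z
 z))))) (n 0 (n 0 z (n 0 z (n 0 z (n 0 z (n 0 z z))))) (n 0 (n 0 z (n 0 z (n 0 z (n 0 z (n 0 z
 z))))) (n 0 (n 0 z (n 0 z (n 0 z (n 0 z (n 0 z z))))) (n 0 (n 0 z (n 0 z (n 0 z (n 0 z (n 0 z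
 z))))) (n 0 (n 0 z (n 0 (n
 0x10c50e0a0789f8217a182181f8608608608608207a181f82082081f82182182186081f81f7e28607df8600801 z
 z) (n 0 z (n 0 z (n 0 z z))))) (n 0 (n 0 (n
 0xc3ac38300c1872860501810cb0a04037df8617e186085f7df8207e082081f86082086081f82181f81f8208208208208208208208201801
 z z) (n 0 z (n 0 z (n 0 z (n 0 z z))))) (n 0 (n 0 z (n 0 z (n 0 z (n 0 z (n 0 z z))))) (n 0 (n
 0 z (n 0 z (n 0 z (n 0 z (n 0 z z))))) (n 0 (n 0 z (n 0 z (n 0 z (n 0 z (n 0 z z)))))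
 z)))))))))))))) (n 401 (n 0 (n 0 z (n 0 z (n 0 z (n 0 z (n 0 z z))))) (n 0 (n 0 z (n 0 z (n 0 z
 (n 0 z (n 0 z z))))) (n 0 (n 0 z (n 0 z (n 0 z (n 0 z (n 0 z z))))) (n 0 (n 0 z (n 0 z (n 0 z
 (n 0 z (n 0 z z))))) (n 0 (n 0 z (n 0 z (n 0 z (n 0 z (n 0 z z))))) (n 0 (n 0 z (n 0 z (n 0 z
 (n 0 z (n 0 z z))))) z)))))) (n 263 (n 0 (n 0 z (n 0 z (n 0 z (n 0 z (n 0 z z))))) (n 0 (n 0 z
 (n 0 z (n 0 z (n 0 z (n 0 z z))))) (n 0 (n 0 z (n 0 z (n 0 z (n 0 z (n 0 z z))))) (n 0 (n 0 z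
 (n 0 z (n 0 z (n 0 z (n 0 z z))))) (n 0 (n 0 z (n 0 z (n 0 z (n 0 z (n 0 z z))))) (n 0 (n 0 z
 (n 0 z (n 0 z (n 0 z (n 0 z z))))) z)))))) (n 131 (n 0 (n 0 z (n 0 z (n 0 z (n 0 z (n 0 z
 z))))) (n 0 (n 0 z (n 0 z (n 0 z (n 0 z (n 0 z z))))) (n 0 (n 0 z (n 0 z (n 0 z (n 0 z (n 0 z
 z))))) (n 0 (n 0 z (n 0 z (n 0 z (n 0 z (n 0 z z))))) (n 0 (n 0 z (n 0 z (n 0 z (n 0 z (n 0 z
 z))))) (n 0 (n 0 z (n 0 z (n 0 z (n 0 z (n 0 z z))))) (n 0 (n 0 z (n 0 z (n 0 z (n 0 z (n 0 z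
 z))))) (n 0 (n 0 z (n 0 z (n 0 z (n 0 z (n 0 z z))))) (n 0 (n 0 z (n 0 z (n 0 z (n 0 z (n 0 z
 z))))) (n 0 (n 0 z (n 0 z (n 0 z (n 0 z (n 0 z z))))) (n 0 (n 0 z (n 0 z (n 0 z (n 0 z (n 0 z
 z))))) z))))))))))) (n 3 (n 0 (n 0 z (n 0 z (n 0 z (n 0 z (n 0 z z))))) (n 0 (n 0 z (n 0 z (n 0
 z (n 0 z (n 0 z z))))) (n 0 (n 0 z (n 0 z (n 0 z (n 0 z (n 0 z z))))) (n 0 (n 0 z (n 0 z (n 0 z
 (n 0 z (n 0 z z))))) (n 0 (n 0 z (n 0 z (n 0 z (n 0 z (n 0 z z))))) (n 0 (n 0 z (n 0 z (n 0 z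
 (n 0 z (n 0 z z))))) (n 0 (n 0 z (n 0 z (n 0 z (n 0 z (n 0 z z))))) (n 0 (n 0 z (n 0 z (n 0 z
 (n 0 z (n 0 z z))))) (n 0 (n 0 z (n 0 z (n 0 z (n 0 z (n 0 z z))))) (n 0 (n 0 z (n 0 z (n 0 z
 (n 0 z (n 0 z z))))) (n 0 (n 0 z (n 0 z (n 0 z (n 0 z (n 0 z z))))) z))))))))))) (n 127 (n 0 (n
 0 z (n 0 z (n 0 z (n 0 z (n 0 z z))))) (n 0 (n 0 z (n 0 z (n 0 z (n 0 z (n 0 z z))))) (n 0 (n 0
 z (n 0 z (n 0 z (n 0 z (n 0 z z))))) (n 0 (n 0 z (n 0 z (n 0 z (n 0 z (n 0 z z))))) (n 0 (n 0 z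
 (n 0 z (n 0 z (n 0 z (n 0 z z))))) z))))) (n 407 (n 0 (n 0 z (n 0 z (n 0 z (n 0 z (n 0 z z)))))
 (n 0 (n 0 z (n 0 z (n 0 z (n 0 z (n 0 z z))))) (n 0 (n 0 z (n 0 z (n 0 z (n 0 z (n 0 z z)))))
 (n 0 (n 0 (n
 0x876751403830c8e846038218207e08208218618608218208208208208208208207e08608218208208218208208218201001
 z z) (n 0 z (n 0 z (n 0 (n 8868147 z z) (n 0 (n
 0x187484320180c86c864078dd8a17a07a37de91e8df8a18207df7e386081f86079f82286182281f7df7de7e48207e08201001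
 z z) z))))) z)))) (n 475 (n 0 (n 0 z (n 0 z (n 0 z (n 0 z (n 0 z z))))) (n 0 (n 0 z (n 0 z (n 0
 z (n 0 z (n 0 z z))))) (n 0 (n 0 (n 8787275 z (n 8787275 z z)) (n 0 z (n 0 z (n 0 z (n 0 z
 z))))) z))) (n 173 (n 0 (n 0 z (n 0 (n 8787771 z z) (n 0 z (n 0 z (n 0 z z))))) (n 0 (n 0 z (n
 0 (n 5441643 z z) (n 0 z (n 0 z (n 0 z z))))) (n 0 (n 0 z (n 0 z (n 0 (n 8791819 z z) (n 0 (n
 8787723 z z) (n 0 (n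
 0x61831b5c72652c81e65c9a18e4b9d8d89dc6ab7219557d776d66591f9e265e85a529671b1e7238550041 z z)
 z))))) (n 0 (n 0 z (n 0 z (n 0 z (n 0 z (n 0 z z))))) (n 0 (n 0 (n
 0x30830e0a078208207e08208208608208208208208208208208208208208208208208208208208208208600801 z
 (n 0x10e8e8200781f8617e182081f85f82082086082082181f81f81f82086082081f8208207de8218607df81f0801
 z z)) (n 0 (n
 0x61871b5c72652c81e65c9a18e4b9d8d89dc6ab7219557d776d66591f9e265e85a529671b1e7238550041 z (n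
 8787771 z z)) (n 0 z (n 0 z (n 0 z z))))) (n 0 (n 0 z (n 0 z (n 0 z (n 0 z (n 0 z z))))) (n 0
 (n 0 z (n 0 z (n 0 z (n 0 z (n 0 z z))))) (n 0 (n 0 (n
 0x987485f8207e17df81f85f82086082081f82182085f81f8207e08218218208608207e185f81e8200041 z (n
 0x30e8ea800381f82082082082081f82082082082082082082081f8208608208208218208207e08208208200801 z
 z)) (n 0 (n 7669867 z (n
 0x987485f8207e17df81f85f82086082081f82182085f81f8207e08218218208608207e185f81e8200041 z z)) (n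
 0 (n
 0x10e8e8260785f8217e182086085f82086086081f82285f81e81f81f8218218208608207de7e18a07de81f0801 z
 (n 8791819 z z)) (n 0 (n
 0x3064ea08038207e082081f8208608208218208208208208208208208208608208208208208208208208200801 z
 (n 8787723 z z)) (n 0 (n
 0x30c4860a0382082082082082082082082082082082082082085f8208208208208208208208208208208200801 z
 (n 0x50e90e86038207e186082185f8218207e086081e82281f85e81f81f8218208608207e081d8638a17de81e0801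
 z z)) z))))) (n 0 (n 0 (n
 0x30e8ea800382082082082082085f82082086082082082081f81f82086082081f8208207e08208208208200801 z
 (n 0x30e8ea800381f82082082082081f82082082082082082082081f8208608208208208208208208208207e00801
 z z)) (n 0 (n 7682091 z (n
 0x30a90a600789f7e27e17e07df89f86082186181e82282081e81e7e082186182085f82081f7e28617de81f0801 z
 z)) (n 0 z (n 0 z (n 0 z z))))) (n 0 (n 0 (n 8787275 z (n 8787275 z z)) (n 0 z (n 0 z (n 0 z (n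
 0 z z))))) (n 0 (n 0 z (n 0 z (n 0 z (n 0 z (n 0 z z))))) (n 0 (n 0 z (n 0 z (n 0 z (n 0 z (n 0
 z z))))) (n 0 (n 0 z (n 0 z (n 0 z (n 0 z (n 0 z z))))) (n 0 (n 0 (n
 0x43b3a8200c0643643203830eb0a800385f8608207e085f8de8608208208207e182082086082082182082081f82082082181f7e08601801
 z z) (n 0 z (n 0 z (n 0 z (n 0 z z))))) (n 0 (n 0 (n
 0x30e8ea800381e86082186086081f8207e082082082082081f81f86081f7df82082082081f7e08208208200801 z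
 z) (n 0 (n 8787771 z z) (n 0 z (n 0 z (n 0 z z))))) (n 0 (n 0 z (n 0 z (n 0 (n
 0x30e8e8260781e8617e186081f82086081f8208207e181f81f81f86082082086186282081e7e28207e08600801 z
 (n
 0x87487430180c86c8640782082086085f8208207e07e182181f82082081f7df8217df81f8208208207df7e08218208201001
 z z)) (n 0 (n
 0x2d8719949676e052e66681f7268217258db62759a7dc8258db8288a665d9a985b81d6617a791a7250041 z (n
 0x3064ea08038207e082081f8208608208218208208208208208208208208608208208208208208208208200801 z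
 z)) (n 0 (n 8868163 z (n 8868163 z z)) z))))) (n 0 (n 0 z (n 0 z (n 0 z (n 0 z (n 0 z z))))) (n
 0 (n 0 z (n 0 z (n 0 z (n 0 z (n 0 z z))))) (n 0 (n 0 z (n 0 (n
 0x70caa208037dc91e7a17e489e81f82182076181e7a17a181f8a07a085c7217e18a27a081c72082089d8620801 z
 z) (n 0 z (n 0 z (n 0 z z))))) (n 0 (n 0 (n
 0x50e90e60038607e17e08208208608208608618207e182082076181f7e082082186086081f8608607df81f0801 z
 z) (n 0 z (n 0 z (n 0 z (n 0 z z))))) (n 0 (n 0 (n 8787275 z z) (n 0 z (n 0 z (n 0 z (n 0 z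
 z))))) (n 0 (n 0 z (n 0 z (n 0 z (n 0 z (n 0 z z))))) (n 0 (n 0 z (n 0 z (n 0 z (n 0 z (n 0 z
 z))))) (n 0 (n 0 z (n 0 z (n 0 z (n 0 z (n 0 z z))))) (n 0 (n 0 (n 5519403 z z) (n 0 (n 8868891
 z z) (n 0 z (n 0 z (n 0 z z))))) (n 0 (n 0 (n 8860683 z (n 8798323 z z)) (n 0 (n 8654963 z (n
 8860683 z z)) (n 0 z (n 0 z (n 0 z z))))) (n 0 (n 0 (n 8860683 z (n 8798323 z z)) (n 0 z (n 0
 (n 0x10e70e600781f8607a07e086085f8208608207e182082082186081f8617e182082082082282081f8208210801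
 z (n
 0x10e70e600785f8607a07e086085f8608608207e182081f8208a07df8627e182082081f86186081f7e08200801 z
 z)) (n 0 z (n 0 z z))))) (n 0 (n 0 (n 8860683 z (n 8798323 z z)) (n 0 (n 8860683 z (n 8860683 z
 z)) (n 0 z (n 0 z (n 0 z z))))) (n 0 (n 0 (n
 0x30e8e8600781f8217e182081f85f86082086082082182081f81f82082282082186086081e8208607df8200801 z
 (n 0x30830a0e038208208208208208208208208208208208208208608208208208208208208208208208218200801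
 z z)) (n 0 (n 8868891 z (n 8868891 z z)) (n 0 z (n 0 z (n 0 z z))))) (n 0 (n 0 (n
 0x420c38281c0876730401810e90e820781f8607a081f86085f86082082082082082082085f7e086081f82182082082082082081f7e01801
 z (n
 0x876710401810e90e80038616a47a58187daaa58a07a07608207e0aa182071c8e37a099d9d76db95f825826ae079f81e1001
 z z)) (n 0 (n 8654963 z (n
 0x987085f8207e17df81f85f82086082081f82182085f81f8207e08218218208608207e185f81e8200041 z z)) (n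
 0 (n 8848443 z (n 8791819 z z)) (n 0 z (n 0 z z))))) (n 0 (n 0 z (n 0 z (n 0 z (n 0 z (n 0 z
 z))))) (n 0 (n 0 (n
 0x420c38281c1876751401810eb0a800385f82082082085f85f86082082082182082082081f81f8218208218208208208208208208201801
 z (n
 0x30eb0e80038207e08208207e18a182082086082082082081f82081f82182082086082081f82186081f8200801 z
 z)) (n 0 z (n 0 z (n 0 z (n 0 z z))))) (n 0 (n 0 (n 8787275 z (n 8798323 z z)) (n 0 (n 8787275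
 z (n 8787275 z z)) (n 0 z (n 0 z (n 0 z z))))) (n 0 (n 0 z (n 0 z (n 0 z (n 0 z (n 0 z z)))))
 (n 0 (n 0 (n
 0x10e8ea800381f82182186082081f82082082082082082082081e82182081f8208208208207e18218208200801 z
 (n 8798323 z z)) (n 0 (n 8654963 z (n
 0x10a90a82038207e08208208208218208208208208208208207a08207e08608208208608208208208208200801 z
 z)) (n 0 z (n 0 z (n 0 z z))))) (n 0 (n 0 z (n 0 z (n 0 z (n 0 z (n 0 z z))))) (n 0 (n 0 z (n 0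
 z (n 0 (n 8791819 z z) (n 0 (n 8787723 z z) (n 0 (n 8868883 z z) z))))) (n 0 (n 0 z (n 0 z (n 0
 z (n 0 z (n 0 z z))))) (n 0 (n 0 z (n 0 z (n 0 z (n 0 z (n 0 z z))))) (n 0 (n 0 (n 8860683 z z)
 (n 0 z (n 0 z (n 0 z (n 0 z z))))) (n 0 (n 0 z (n 0 z (n 0 z (n 0 z (n 0 z z))))) (n 0 (n 0 z
 (n 0 z (n 0 z (n 0 z (n 0 z z))))) (n 0 (n 0 (n
 0x871830401830ece6080385f82082082185f85f86082082082082082082082081f8218208218208208208208208208201001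
 z (n 8798323 z z)) (n 0 (n 8654963 z (n
 0x987485f8207e17df81f85f82086082081f82182085f81f8207e08218218208608207e185f81e8200041 z z)) (n
 0 z (n 0 z (n 0 z z))))) (n 0 (n 0 z (n 0 z (n 0 z (n 0 z (n 0 z z))))) (n 0 (n 0 (n 8787275 z
 z) (n 0 z (n 0 z (n 0 z (n 0 z z))))) (n 0 (n 0 (n 8787275 z z) (n 0 z (n 0 z (n 0 z (n 0 z
 z))))) z)))))))))))))))))))))))))))))))))))))))))))))) (n 3 (n 0 (n 0 z (n 0 z (n 0 (n 8664347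
 z z) (n 0 z (n 0 z z))))) (n 0 (n 0 z (n 0 z (n 0 z (n 0 z (n 0 z z))))) (n 0 (n 0 z (n 0 z (n
 0 z (n 0 z (n 0 z z))))) (n 0 (n 0 z (n 0 z (n 0 z (n 0 z (n 0 z z))))) (n 0 (n 0 z (n 0 z (n 0
 z (n 0 z (n 0 z z))))) (n 0 (n 0 z (n 0 z (n 0 z (n 0 z (n 0 z z))))) (n 0 (n 0 z (n 0 z (n 0
 (n 8791819 z z) (n 0 z (n 0 z z))))) (n 0 (n 0 z (n 0 z (n 0 z (n 0 z (n 0 z z))))) (n 0 (n 0 z
 (n 0 z (n 0 (n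
 0x2d8729949676e052e66681f7268217258db62759a7dc8258db8288a665d9a985b81d6617a791a7250041 z z) (n
 0 z (n 0 z z))))) (n 0 (n 0 z (n 0 z (n 0 z (n 0 z (n 0 z z))))) (n 0 (n 0 z (n 0 z (n 0 z (n 0
 z (n 0 z z))))) (n 0 (n 0 z (n 0 (n 8782363 z z) (n 0 (n 8791819 z z) (n 0 z (n 0 z z))))) (n 0
 (n 0 z (n 0 z (n 0 z (n 0 z (n 0 z z))))) (n 0 (n 0 z (n 0 z (n 0 z (n 0 z (n 0 z z)))))
 z)))))))))))))) (n 127 (n 0 (n 0 z (n 0 z (n 0 z (n 0 z (n 0 z z))))) (n 0 (n 0 z (n 0 z (n 0 z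
 (n 0 z (n 0 z z))))) (n 0 (n 0 z (n 0 z (n 0 z (n 0 z (n 0 z z))))) (n 0 (n 0 (n
 0xc32288381c165364320380ec8ec80038208208208208208208208208208208208208208208208208208208208208208218208208201801
 z z) (n 0 z (n 0 z (n 0 z (n 0 z z))))) (n 0 (n 0 (n 8664347 z (n 8798323 z z)) (n 0 (n 8664347
 z (n 8664347 z z)) (n 0 z (n 0 z (n 0 z z))))) (n 0 (n 0 z (n 0 (n 8664347 z (n 8664347 z z))
 (n 0 z (n 0 z (n 0 z z))))) (n 0 (n 0 z (n 0 z (n 0 z (n 0 z (n 0 z z))))) (n 0 (n 0 z (n 0 z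
 (n 0 z (n 0 z (n 0 z z))))) (n 0 (n 0 (n 5445739 z z) (n 0 (n 5445739 z z) (n 0 z (n 0 z (n 0 z
 z))))) (n 0 (n 0 (n 5445739 z (n 5445739 z z)) (n 0 (n 7673899 z (n 8787771 z z)) (n 0 z (n 0 z
 (n 0 z z))))) z)))))))))) (n 0 (n 0 (n 0 z (n 0 z (n 0 z (n 0 z (n 0 z z))))) (n 0 (n 0 z (n 0
 z (n 0 z (n 0 z (n 0 z z))))) (n 0 (n 0 z (n 0 z (n 0 z (n 0 z (n 0 z z))))) (n 0 (n 0 z (n 0 z
 (n 0 z (n 0 z (n 0 z z))))) (n 0 (n 0 z (n 0 z (n 0 z (n 0 z (n 0 z z))))) z)))))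
 z))))))))))))))))))))) z)))) z) z)))) (n
 0xd5c945893a2bd2d0648e82ec96889396849b504b1db026ad88330b4094e104995066d89009c2c0 (n 0x2d893 (n
 399 (n 0 z (n 2 z (n 6423611 z (n 0 z (n 3282443 z (n 10 z z)))))) (n 39 (n 0 z (n 18 z (n 26 z
 (n 0 z (n 34 z (n 6558475 z (n 0 z (n 42 z z)))))))) (n 129 (n
 0x96984025cb08025861080c7fc7ee8008187fa7a88068068107f47fa80080079081880c7ee7aa8047227d785c7a490881484681880679c86478884287281980680474e8347d086c79e80c78988681494079272586d00d1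
 z (n 6423611 z (n
 0x2ca8a8620381c82089e82075f8a47a04e08a255a716a9dc5c99e8178af9a67d59d6858854957ba1d9a6ec0801 z
 (n 3212843 z (n 0 z (n
 0x96d8c425d31884b96318258767d98007488df6ae8848826e17db6fc8008007fb84a8256d790ba4f43b9187456157768c074892b90463d9773327079586f89048027b3a97920a9a88c78882b87c7c08b96c86f087000d1
 z (n 50 z z))))))) (n 3 (n
 0x96984025cb08025861080c7fc7ee8008187fa7a88068068107f47fa80080079081880c7ee7aa8047227d785c7a490881484681880679c86478884287281980680474e8347d086c79e80c78988681494079272586d00d1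
 z (n 58 z (n
 0x96d88025d31004b96208258767d98007488df6ae8848826e17db6fc8008007fb84a8256d790ba4f43b9187456157768c074892b90463d9773327079586f89048027b3a97920a9a88c78882b87c7c08b96c86f087000d1
 z (n 0 z (n 0 z (n
 0x96d88025d31004b96208258767d98007488df6ae8848826e17db6fc8008007fb84a8256d790ba4f43b9187456157768c074892b90463d9773327079586f89048027b3a97920a9a88c78882b87c7c08b96c86f087000d1
 z (n
 0x2c84c20a0380808080798676897b73817881807a807f7a7f8c6084866684808386866c8f72809272768081a28097738680987b8a7184860809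
 z (n 66 z (n
 0x336508171788682866b95788b817e807a75837f76696c667898669f6e8186826f8d8d939279638f74a26e956182649f7d9e6b7a900049
 z (n 0 z (n 2164283 z (n 5379643 z z)))))))))))) (n 1 (n 0 z (n 0 z (n 0 z (n 0 z (n 0 z (n 0 z
 (n 0 z (n 0 z (n 6558475 z (n 74 z (n 0 z (n 0 z z)))))))))))) (n 0 (n 82 z (n
 0x1b6208576e48644ed6e785f81c6627da45341bc0ed15864855a29b6c70ea58d95b4c84fd1ecd272a0041 z (n 90
 z (n 0 z (n 98 z (n 106 z (n 2164315 z (n 0 z (n 0 z (n 114 z z)))))))))) z)))))) (n 399 (n 0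
 (n 0 z (n 95 (n 0 z (n 0 z (n 0 z (n 0 z (n 0 z (n 0 z (n 0 z z))))))) (n 95 (n 0 z (n 0 z (n 0
 z (n 0 z (n 0 z (n 0 z (n 0 z z))))))) (n 95 (n 0 z (n 0 z (n 0 z (n 0 z (n 0 z (n 0 z (n 0 z
 z))))))) (n 95 (n 0 z (n 0 z (n 0 z (n 2 (n 2 (n 0 z (n 0 z (n 0 z (n 0 z (n 0 z (n 0 z z))))))
 (n 1 z (n 2 (n 0 z (n 0 z (n 0 z (n 0 z (n 0 z (n 0 z z)))))) (n 2 (n 0 z (n 0 z (n 0 z (n 0 z
 (n 0 z (n 0 (n 8872499 z z) z)))))) (n 2 (n 0 z (n 0 z (n 0 z (n 0 z (n 0 z (n 0 z z)))))) (n 1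
 z (n 2 (n 0 z (n 0 z (n 0 z (n 0 z (n 0 z (n 0 z z)))))) (n 2 (n 0 z (n 0 z (n 0 z (n 0 z (n 0
 z (n 0 (n 8872499 z z) z)))))) (n 2 (n 0 z (n 0 (n 6424667 z z) (n 0 (n 3188 z z) (n 0 z (n 0 z
 (n 0 (n 3188 z (n 3188 z z)) z)))))) z))))))))) (n 0 z (n 0 z (n 0 z z))))))) (n 795 (n 0 z (n
 0 z (n 0 z (n 0 z (n 0 z (n 0 z (n 2 (n 1 z (n 2 (n 0 z (n 0 z (n 0 z (n 0 z (n 0 z (n 0 z
 z)))))) (n 2 (n 0 z (n 0 z (n 0 z (n 0 z (n 0 z (n 0 (n 8872499 z z) z)))))) (n 2 (n 0 z (n 0 z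
 (n 0 z (n 0 z (n 0 z (n 0 z z)))))) (n 1 z (n 2 (n 0 z (n 0 z (n 0 z (n 0 z (n 0 z (n 0 z
 z)))))) (n 2 (n 0 z (n 0 z (n 0 z (n 0 z (n 0 z (n 0 (n 8872499 z z) z)))))) (n 2 (n 0 z (n 0
 (n 6424667 z z) (n 0 (n 3188 z z) (n 0 z (n 0 z (n 0 (n 3188 z (n 8591147 z z)) z))))))
 z)))))))) z))))))) (n 87 (n 0 z (n 0 z (n 0 z (n 0 z (n 6358875 z (n 0 z (n 0 z (n 0 z (n 0 z
 (n 0 z (n 0 z (n 0 z z)))))))))))) (n 87 (n 0 z (n 0 z (n 0 z (n 0 z (n 0 z (n 2 (n 1 z (n 2 (n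
 0 z (n 0 z (n 0 z (n 0 z (n 0 z (n 0 z z)))))) (n 2 (n 0 z (n 0 z (n 0 z (n 0 z (n 0 z (n 0 (n
 8847899 z z) z)))))) (n 2 (n 0 z (n 0 z (n 0 z (n 0 z (n 0 z (n 0 z z)))))) (n 1 z (n 2 (n 0 z
 (n 0 (n 6424667 z z) (n 0 z (n 0 (n 3188 z z) (n 0 z (n 0 (n 3188 z (n 8726299 z z)) z))))))
 z)))))) (n 0 z (n 0 z (n 0 z (n 0 z (n 0 z (n 0 z z)))))))))))) (n 489 (n 0 z (n 0 z (n 0 z (n
 0 z (n 0 z (n 0 z (n 0 z (n 0 z z)))))))) (n 797 (n 0 z (n 0 z (n 0 z (n 0 z (n 0 z (n 0 z (n 0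
 z (n 0 z (n 0 z (n 0 z (n 0 z (n 0 z (n 0 z (n 0 z (n 0 z (n 0 z (n 0 z (n 0 z (n 0 z (n 0 z (n
 0 z (n 0 z (n 0 z (n 0 z (n 0 z (n 0 z (n 0 z (n 0 z (n 0 z (n 0 z (n 0 z (n 0 z (n 0 z (n 0 z
 (n 0 z (n 0 z (n 0 z (n 0 z (n 0 z (n 0 z (n 0 z (n 0 z (n 0 z (n 0 z (n 0 z (n 0 z (n 0 z (n 0
 z (n 0 z (n 0 z (n 0 z z))))))))))))))))))))))))))))))))))))))))))))))))))) (n 797 (n 0 z (n 0
 z (n 0 z (n 0 z (n 0 z (n 0 z (n 0 z (n 0 z (n 0 z (n 0 z (n 0 z (n 2 (n 0 z (n 0 z (n 0 z z)))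
 (n 0 z (n 0 z (n 0 z (n 0 z (n 0 z (n 0 z (n 0 z (n 0 z (n 0 z (n 0 z (n 0 z (n 0 z (n 0 z (n 0
 z (n 0 z (n 0 z (n 0 z (n 0 z (n 0 z (n 0 z (n 0 z (n 0 z (n 0 z (n 0 z (n 0 z (n 0 z (n 0 z (n
 0 z (n 0 z (n 0 z (n 0 z (n 0 z (n 0 z (n 0 z (n 0 z (n 0 z (n 0 z (n 0 z (n 0 z
 z))))))))))))))))))))))))))))))))))))))))))))))))))) (n 797 (n 0 z (n 0 z (n 0 z (n 0 z (n 0 z
 (n 0 z (n 0 z (n 0 z (n 0 z (n 0 z (n 0 z (n 0 z (n 0 z (n 0 z (n 0 z (n 0 z (n 0 z (n 0 z (n 0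
 z (n 0 z (n 0 z (n 0 z (n 0 z (n 0 z (n 0 z (n 0 z (n 0 z (n 0 z (n 0 z (n 0 z (n 0 z (n 0 z (n
 0 z (n 0 z (n 0 z (n 0 z (n 0 z (n 0 z (n 0 z (n 0 z (n 0 z (n 0 z (n 0 z (n 0 z (n 0 z (n 0 z
 (n 0 z (n 0 z (n 0 z (n 0 z (n 0 z z))))))))))))))))))))))))))))))))))))))))))))))))))) (n 797
 (n 0 z (n 0 z (n 0 z (n 0 z (n 0 z (n 0 z (n 0 z (n 0 z (n 0 z (n 0 z (n 0 z (n 0 z (n 0 z (n 0
 z (n 0 z (n 0 z (n 0 z (n 0 z (n 0 z (n 0 z (n 0 z (n 2 (n 0 z z) (n 0 z (n 0 z (n 0 z (n 0 z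
 (n 0 z (n 0 z (n 0 z (n 0 z (n 0 z (n 0 z (n 0 z (n 0 z (n 0 z (n 0 z (n 0 z (n 0 z (n 0 z (n 0
 z (n 0 z (n 0 z (n 0 z (n 0 z (n 0 z (n 0 z (n 0 z (n 0 z (n 0 z (n 0 z (n 0 z
 z))))))))))))))))))))))))))))))))))))))))))))))))))) (n 797 (n 0 z (n 0 z (n 0 z (n 0 z (n 0 z
 (n 0 z (n 0 z (n 0 z (n 0 z (n 0 z (n 0 z (n 0 z (n 0 z (n 0 z (n 0 z (n 0 z (n 0 z (n 0 z (n 0
 z (n 0 z (n 0 z (n 0 z (n 0 z (n 0 z (n 0 z (n 0 z (n 0 z (n 0 z (n 0 z (n 0 z (n 0 z (n 0 z (n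
 0 z (n 0 z (n 0 z (n 0 z (n 0 z (n 0 z (n 0 z (n 0 z (n 0 z (n 0 z (n 0 z (n 0 z (n 0 z (n 0 z
 (n 0 z (n 0 z (n 0 z (n 0 z (n 0 z z)))))))))))))))))))))))))))))))))))))))))))))))))))
 z)))))))))))))) (n 0 (n 523 (n 0 z (n 0 z (n 0 z (n 0 z (n 0 z (n 0 z (n 0 z z))))))) (n 523 (n
 0 z (n 0 z (n 0 z (n 0 z (n 0 z (n 2 (n 0 z (n 0 z (n 2 (n 0 z (n 0 z (n 0 z (n 0 z (n 0 z (n 0
 (n 8872499 z z) z)))))) (n 1 z (n 1 z (n 1 z (n 2 (n 0 z (n 0 z (n 0 z (n 0 z (n 0 z (n 0 (n 21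
 z z) z)))))) (n 1 z (n 2 (n 0 z (n 0 (n 8587051 z z) (n 0 z (n 0 (n 8726043 z z) (n 0 z (n 0 (n
 8590891 z (n 8652571 z z)) z)))))) (n 1 z (n 2 (n 0 (n 21 z z) (n 0 z (n 0 z (n 0 z (n 0 (n
 6424667 z z) (n 0 (n 3188 z (n 3188 z z)) z)))))) z))))))))))) (n 0 z z))))))) (n 523 (n 0 z (n
 0 z (n 0 z (n 0 z (n 0 z (n 0 z (n 0 z z))))))) (n 523 (n 0 z (n 0 z (n 0 z (n 0 z (n 0 z (n 0
 z (n 0 z z))))))) (n 795 (n 0 z (n 0 z (n 0 z (n 0 z (n 0 z (n 0 z (n 0 z (n 0 z z)))))))) (n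
 295 (n 0 z (n 2 (n 0 z (n 1 z (n 1 z (n 1 z (n 1 z (n 1 z (n 1 z z))))))) (n 0 z (n 0 z (n 0 z
 (n 0 z (n 0 z (n 0 z (n 0 z (n 0 z (n 0 z (n 0 z (n 0 z z))))))))))))) (n 295 (n 0 z (n 0 z (n
 0 z (n 0 z (n 0 z (n 0 z (n 0 z (n 0 z (n 0 z (n 0 z (n 0 z (n 0 z (n 0 z z))))))))))))) (n 351
 (n 0 z (n 0 z (n 0 z (n 0 z z)))) (n 797 (n 0 z (n 0 z (n 0 z (n 0 z (n 0 z (n 0 z (n 0 z (n 0
 z (n 0 z (n 0 z (n 0 z (n 2 (n 0 z (n 0 z (n 0 z (n 0 z z)))) z)))))))))))) (n 797 (n 0 z (n 0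
 z (n 0 z (n 0 z (n 0 z (n 0 z (n 0 z (n 0 z (n 0 z (n 0 z (n 0 z (n 0 z z)))))))))))) (n 797 (n
 0 z (n 0 z (n 0 z (n 0 z (n 0 z (n 0 z (n 0 z (n 0 z (n 0 z (n 2 (n 0 z (n 0 z z)) (n 0 z (n 0
 z z)))))))))))) (n 797 (n 0 z (n 0 z (n 0 z (n 0 z (n 0 z (n 0 z (n 0 z (n 0 z (n 0 z (n 0 z (n
 0 z (n 0 z z)))))))))))) (n 797 (n 2 z (n 0 z (n 0 z (n 0 z (n 0 z (n 0 z (n 0 z (n 0 z (n 0 z
 (n 0 z (n 0 z (n 0 z z)))))))))))) z))))))))))))) (n 0 (n 0 z (n 0 z (n 0 z (n 443 (n 0 z (n 0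
 z (n 0 z (n 0 z (n 0 z (n 0 z (n 0 z (n 0 z z)))))))) (n 491 (n 0 z (n 0 z (n 0 z (n 0 z (n 0 z
 (n 0 z z)))))) (n 491 (n 0 z (n 0 z (n 0 z (n 0 z (n 0 z (n 0 z z)))))) (n 489 (n 0 z (n 0 z (n
 0 z (n 0 z (n 0 z (n 0 z (n 0 z (n 0 z z)))))))) (n 485 (n 0 z (n 0 z (n 0 z (n 2 (n 0 z (n 0 z
 (n 0 z (n 0 z z)))) (n 0 z (n 0 z (n 0 z (n 0 z (n 0 z (n 0 z (n 0 z (n 0 z z)))))))))))) (n
 485 (n 0 z (n 0 z (n 0 z (n 0 z (n 0 z (n 0 z (n 2 (n 0 z (n 0 z (n 0 z z))) (n 0 z (n 0 z (n 0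
 z (n 0 z (n 0 z z)))))))))))) (n 485 (n 0 z (n 0 z (n 0 z (n 0 z (n 0 z (n 0 z (n 0 z (n 0 z (n
 0 z (n 0 z (n 0 z (n 0 z z)))))))))))) (n 485 (n 0 z (n 0 z (n 0 z (n 0 z (n 0 z (n 0 z (n 0 z
 (n 0 z (n 0 z (n 0 z (n 0 z (n 0 z z)))))))))))) (n 485 (n 0 z (n 0 z (n 0 z (n 0 z (n 0 z (n 0
 z (n 0 z (n 0 z (n 0 z (n 2 z (n 0 z (n 0 z z)))))))))))) z)))))))))))) (n 0 (n 0 z (n 0 z (n
 31 (n 0 z (n 0 z (n 0 z (n 0 z (n 0 z (n 0 z (n 0 z (n 2 (n 1 z (n 2 (n 0 z (n 0 z (n 0 z (n 0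
 z (n 0 z (n 0 z z)))))) (n 2 (n 0 z (n 0 z (n 0 z (n 0 z (n 0 z (n 0 z z)))))) (n 2 (n 0 z (n 0
 z (n 0 z (n 0 z (n 0 z (n 0 z z)))))) (n 1 z (n 2 (n 0 z (n 0 z (n 0 z (n 0 z (n 0 z (n 0 z
 z)))))) (n 2 (n 0 z (n 0 z (n 0 z (n 0 z (n 0 z (n 0 z z)))))) (n 2 (n 0 z (n 0 z (n 0 z (n 0 z
 (n 0 z (n 0 z z)))))) z)))))))) (n 0 z z))))))))) (n 299 (n 0 z (n 0 z (n 0 z (n 0 z (n 0 z (n
 0 z (n 0 z (n 0 z (n 0 z (n 0 z (n 6358875 z (n 0 z (n 0 z (n 0 z (n 0 z (n 0 z (n 0 z (n 0 z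
 (n 0 z (n 0 z (n 0 z (n 0 z (n 0 z z))))))))))))))))))))))) (n 299 (n 0 z (n 0 z (n 0 z (n 0 z
 (n 0 z (n 0 z (n 0 z (n 0 z (n 0 z (n 0 z (n 0 z (n 0 z (n 0 z (n 0 z (n 0 z (n 0 z (n 2 (n 1 z
 (n 2 (n 0 z (n 0 z (n 0 z (n 0 z (n 0 z (n 0 z z)))))) (n 2 (n 0 z (n 0 z (n 0 z (n 0 z (n 0 z
 (n 0 (n 8847899 z z) z)))))) (n 2 (n 0 z (n 0 z (n 0 z (n 0 z (n 0 z (n 0 z z)))))) (n 1 z (n 2
 (n 0 z (n 0 z (n 0 z (n 0 z (n 0 z (n 0 z z)))))) z)))))) (n 0 z (n 0 z (n 0 z (n 0 z (n 0 z (n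
 0 z z))))))))))))))))))))))) (n 297 (n 0 z (n 0 z (n 0 z (n 0 z (n 0 z (n 2 (n 2 (n 0 z (n 0 z
 (n 0 z (n 0 z (n 0 z (n 0 (n 20 z z) z)))))) (n 1 z (n 2 (n 0 z (n 0 z (n 0 z (n 0 z (n 0 z (n
 0 z z)))))) (n 1 z (n 2 (n 0 (n 20 z z) (n 0 z (n 0 (n 8586795 z z) (n 0 z (n 0 z (n 0 (n 20 z
 (n 8591147 z z)) z)))))) z))))) (n 0 z (n 0 z z)))))))) (n 5 (n 0 z (n 0 z (n 0 z (n 0 z (n 0 z
 (n 0 z (n 0 z (n 0 z (n 0 z (n 0 z (n 0 z (n 0 z (n 0 z (n 0 z (n 0 z z))))))))))))))) (n 5 (n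
 0 z (n 0 z (n 0 z (n 0 z (n 0 z (n 0 z (n 0 z (n 0 z (n 0 z (n 0 z (n 0 z (n 0 z (n 0 z (n 0 z
 (n 0 z z))))))))))))))) (n 5 (n 0 z (n 0 z (n 0 z (n 0 z (n 0 z (n 0 z (n 0 z (n 0 z (n 0 z (n
 0 z (n 0 z (n 0 z (n 0 z (n 0 z (n 0 z z))))))))))))))) (n 5 (n 0 z (n 0 z (n 0 z (n 0 z (n 0 z
 (n 0 z (n 2 (n 0 z z) (n 0 z (n 0 z (n 0 z (n 0 z (n 0 z (n 0 z (n 0 z (n 0 z z)))))))))))))))
 (n 5 (n 0 z (n 0 z (n 0 z (n 0 z (n 0 z (n 0 z (n 0 z (n 0 z (n 0 z (n 0 z (n 0 z (n 0 z (n 0 z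
 (n 0 z (n 0 z z))))))))))))))) z))))))))))) (n 0 (n 0 z (n 271 (n 0 z (n 0 z (n 0 z (n 0 z (n 0
 z (n 0 z (n 0 z (n 0 z (n 0 z (n 0 z (n 0 z (n 0 z (n 0 z (n 0 z z)))))))))))))) (n 7 (n 0 z (n
 0 z (n 0 z (n 0 z (n 0 z (n 0 z (n 0 z z))))))) (n 7 (n 0 z (n 0 z (n 0 z (n 0 z (n 0 z (n 0 z
 (n 0 z z))))))) (n 3 (n 0 z (n 0 z (n 0 z (n 0 z (n 0 z (n 0 z (n 0 z z))))))) (n 5 (n 0 z (n 0
 z (n 0 z (n 0 z (n 0 z (n 0 z (n 0 z (n 0 z (n 0 z (n 0 z z)))))))))) (n 5 (n 0 z (n 0 z (n 0 z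
 (n 0 z (n 0 z (n 0 z (n 0 z (n 0 z (n 0 z (n 0 z z)))))))))) (n 5 (n 0 z (n 0 z (n 0 z (n 0 z
 (n 0 z (n 0 z (n 0 z (n 0 z (n 0 z (n 0 z z)))))))))) (n 5 (n 0 z (n 0 z (n 0 z (n 0 z (n 0 z
 (n 0 z (n 0 z (n 0 z (n 0 z (n 0 z z)))))))))) (n 5 (n 0 z (n 0 z (n 0 z (n 0 z (n 0 z (n 0 z
 (n 2 z (n 0 z (n 0 z (n 0 z z)))))))))) z)))))))))) (n 0 (n 123 (n 0 z (n 0 z (n 0 z (n 0 z (n
 0 z (n 0 z (n 0 z (n 0 z (n 0 z (n 0 z (n 0 z (n 0 z (n 0 z (n 0 z (n 0 z (n 0 z (n 0 z (n 0 z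
 (n 0 z (n 0 z z)))))))))))))))))))) (n 491 (n 0 z (n 0 z (n 0 z (n 0 z (n 0 z (n 0 z (n 0 z (n
 0 z (n 0 z (n 0 z (n 0 z (n 2 (n 0 z (n 1 z (n 1 z (n 1 z (n 2 (n 0 (n 8860683 z (n 8860683 z
 z)) (n 0 z (n 0 (n 8860683 z (n 8860683 z z)) (n 0 z (n 0 z (n 0 (n 8860683 z (n 8860683 z z))
 z)))))) (n 1 z (n 1 z z))))))) (n 0 z (n 0 z (n 0 z (n 0 z (n 0 z (n 0 z (n 0 z (n 0 z
 z)))))))))))))))))))) (n 491 (n 0 z (n 0 z (n 0 z (n 0 z (n 0 z (n 0 z (n 0 z (n 0 z (n 0 z (n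
 0 z (n 0 z (n 0 z (n 0 z (n 0 z (n 0 z (n 0 z (n 0 z (n 0 z (n 0 z (n 0 z z))))))))))))))))))))
 (n 489 (n 0 z (n 0 z (n 0 z (n 0 z (n 0 z (n 0 z (n 0 z z))))))) (n 481 (n 2 (n 0 z (n 0 z (n 0
 z (n 0 z z)))) (n 0 z (n 0 z (n 0 z (n 0 z (n 0 z (n 0 z (n 0 z (n 0 z (n 0 z (n 0 z (n 0 z
 z)))))))))))) (n 481 (n 0 z (n 0 z (n 0 z (n 0 z (n 0 z (n 0 z (n 0 z (n 0 z (n 0 z (n 0 z (n 0
 z (n 0 z z)))))))))))) (n 481 (n 0 z (n 0 z (n 0 z (n 0 z (n 0 z (n 0 z (n 0 z (n 0 z (n 2 (n 0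
 z (n 0 z z)) (n 0 z (n 0 z (n 0 z z)))))))))))) (n 481 (n 0 z (n 0 z (n 0 z (n 0 z (n 0 z (n 0
 z (n 0 z (n 0 z (n 0 z (n 0 z (n 0 z (n 0 z z)))))))))))) (n 481 (n 0 z (n 0 z (n 0 z (n 0 z (n
 0 z (n 0 z (n 0 z (n 0 z (n 0 z (n 0 z (n 0 z (n 2 z z)))))))))))) z))))))))) (n 0 (n 27 (n 0 z
 (n 0 z (n 0 z (n 0 z (n 0 z (n 0 z (n 0 z (n 0 z (n 0 z (n 0 z (n 0 z (n 0 z (n 0 z (n 0 z
 z)))))))))))))) (n 27 (n 0 z (n 0 z (n 0 z (n 0 z (n 0 z (n 0 z (n 0 z (n 0 z (n 0 z (n 0 z (n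
 0 z (n 0 z (n 0 z (n 0 z z)))))))))))))) (n 255 (n 0 z (n 0 z (n 0 z (n 0 z (n 0 z (n 0 z (n 0
 z (n 0 z (n 0 z z))))))))) (n 253 (n 2 (n 0 z (n 0 z (n 0 z (n 0 z z)))) (n 0 z (n 0 z (n 0 z
 (n 0 z (n 0 z (n 0 z (n 0 z (n 0 z (n 0 z (n 0 z (n 0 z (n 0 z (n 0 z z)))))))))))))) (n 253 (n
 0 z (n 0 z (n 0 z (n 0 z (n 0 z (n 0 z (n 0 z (n 0 z (n 0 z (n 0 z (n 0 z (n 0 z (n 0 z (n 0 z
 z)))))))))))))) (n 253 (n 0 z (n 0 z (n 0 z (n 0 z (n 0 z (n 0 z (n 0 z (n 0 z (n 0 z (n 0 z (n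
 2 (n 0 z (n 0 z z)) (n 0 z (n 0 z (n 0 z z)))))))))))))) (n 253 (n 0 z (n 0 z (n 0 z (n 0 z (n
 0 z (n 0 z (n 0 z (n 0 z (n 0 z (n 0 z (n 0 z (n 0 z (n 0 z (n 0 z z)))))))))))))) (n 253 (n 0
 z (n 0 z (n 0 z (n 0 z (n 0 z (n 0 z (n 0 z (n 0 z (n 0 z (n 0 z (n 0 z (n 0 z (n 2 z (n 0 z
 z)))))))))))))) z)))))))) (n 0 (n 0 z (n 57 (n 0 z (n 0 z (n 0 z (n 2 (n 1 z (n 1 z (n 2 (n 0
 (n 8795147 z (n 8795147 z z)) (n 0 z (n 0 (n 8795147 z (n 8795147 z z)) (n 0 z (n 0 z (n 0 (n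
 8795147 z (n 8795147 z z)) z)))))) (n 1 z (n 1 z z))))) z)))) (n 5 (n 0 z (n 0 z (n 0 z (n 0 z
 (n 0 z (n 0 z (n 0 z (n 0 z z)))))))) (n 5 (n 0 z (n 0 z (n 0 z (n 0 z (n 0 z (n 0 z (n 0 z (n
 0 z z)))))))) (n 5 (n 0 z (n 0 z (n 0 z (n 0 z (n 0 z (n 0 z (n 0 z (n 0 z z)))))))) (n 5 (n 0
 z (n 0 z (n 0 z (n 0 z (n 0 z (n 0 z (n 0 z (n 2 (n 0 z z) z)))))))) (n 5 (n 0 z (n 0 z (n 0 z
 (n 0 z (n 0 z (n 0 z (n 0 z (n 0 z z)))))))) z))))))) (n 0 (n 51 (n 0 z (n 0 z (n 0 z (n 0 z (n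
 0 z (n 0 z (n 0 z (n 0 z (n 0 z (n 0 z (n 0 z (n 0 z (n 0 z (n 0 z (n 0 z z))))))))))))))) (n 5
 (n 0 z (n 0 z (n 0 z (n 0 z (n 0 z (n 0 z (n 0 z (n 0 z (n 0 z (n 0 z (n 0 z (n 0 z (n 2 (n 0 z
 (n 0 z (n 0 z (n 0 z z)))) (n 0 z z)))))))))))))) (n 5 (n 0 z (n 0 z (n 0 z (n 0 z (n 0 z (n 0
 z (n 0 z (n 0 z (n 0 z (n 0 z (n 0 z (n 0 z (n 0 z (n 0 z z)))))))))))))) (n 5 (n 0 z (n 0 z (n
 0 z (n 0 z (n 0 z (n 0 z (n 0 z (n 0 z (n 0 z (n 0 z (n 0 z (n 2 (n 0 z (n 0 z z)) (n 0 z (n 0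
 z z)))))))))))))) (n 5 (n 0 z (n 0 z (n 0 z (n 0 z (n 0 z (n 0 z (n 0 z (n 0 z (n 0 z (n 0 z (n
 0 z (n 0 z (n 0 z (n 0 z z)))))))))))))) (n 5 (n 2 z (n 0 z (n 0 z (n 0 z (n 0 z (n 0 z (n 0 z
 (n 0 z (n 0 z (n 0 z (n 0 z (n 0 z (n 0 z (n 0 z z)))))))))))))) z)))))) (n 0 (n 253 (n 0 z (n
 0 z (n 0 z (n 0 z (n 0 z (n 0 z (n 0 z (n 0 z (n 0 z (n 2 (n 0 z (n 0 z (n 0 z (n 0 z z))))
 z)))))))))) (n 253 (n 0 z (n 0 z (n 0 z (n 0 z (n 0 z (n 0 z (n 0 z (n 0 z (n 0 z (n 0 z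
 z)))))))))) (n 253 (n 0 z (n 0 z (n 0 z (n 0 z (n 0 z (n 0 z (n 2 (n 0 z (n 0 z z)) (n 0 z (n 0
 z (n 0 z z)))))))))) (n 253 (n 0 z (n 0 z (n 0 z (n 0 z (n 0 z (n 0 z (n 0 z (n 0 z (n 0 z (n 0
 z z)))))))))) (n 253 (n 2 z (n 0 z (n 0 z (n 0 z (n 0 z (n 0 z (n 0 z (n 0 z (n 0 z (n 0 z
 z)))))))))) z))))) (n 0 (n 0 z (n 0 z (n 0 z (n 0 z z)))) (n 0 (n 0 z (n 0 z (n 0 z z))) (n 0
 (n 0 z (n 0 z z)) (n 0 (n 0 z z) (n 0 z z))))))))))))))) (n 0 (n 0 z (n 1 (n 12 z (n 316 z (n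
 316 z (n 6558475 z (n 316 z (n 316 z z)))))) (n 1 (n 6423611 z (n 6423611 z (n 6423611 z (n
 6423611 z (n 6558475 z (n 6423611 z z)))))) (n 0 z (n 1 (n 3282443 z (n 6558475 z (n 3282443 z
 (n 3282443 z (n 3282443 z (n 3282443 z z)))))) (n 1 (n 5375515 z (n 316 z (n 2 z (n 6558475 z
 (n 316 z (n 316 z z)))))) z)))))) (n 0 (n 0xc0bb25a2bd2d23572589c209 (n 0 (n 0 (n 7749971 z (n
 7749971 z (n 7749971 z (n 7749971 z (n 7749971 z (n 7749971 z z)))))) z) (n 0 (n 175 (n 1 (n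
 3196 z (n 6563595 z (n 3196 z (n 3196 z (n 7472187 z (n 3196 z z)))))) (n 0 z (n 1 (n 3282699 z
 (n 3282699 z (n 3282699 z (n 3282699 z (n 3282699 z (n 3282699 z z)))))) (n 1 (n 7749971 z (n
 7749971 z (n 7749971 z (n 7749971 z (n 7749971 z (n 7749971 z z)))))) z)))) (n 285 (n 0 z (n 0
 z (n 1 (n 4400907 z (n 7607051 z (n 4400907 z (n 4400907 z (n 4400907 z (n 4400907 z z)))))) (n
 0 z (n 1 (n 7749971 z (n 7749971 z (n 7749971 z (n 7749971 z (n 7749971 z (n 7749971 z z))))))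
 (n 1 (n 2 z (n 316 z (n 316 z (n 7607051 z (n 316 z (n 316 z z)))))) (n 0 z z))))))) (n 129 (n
 1 (n 3196 z (n 6555419 z (n 7677467 z (n
 0x969c4025cb88025871080c7fc7ee8008187fa7a88068068107f47fa80080079081880c7ee7aa8047227d785c7a490881484681880679c86478884287281980680474e8347d086c79e80c78988681494079272586d00d1
 z (n 3196 z (n 3196 z z)))))) (n 1 (n 7472187 z (n 7472187 z (n 7472187 z (n 7677467 z (n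
 7472187 z (n 7472187 z z)))))) (n 1 (n 3196 z (n 6633259 z (n 3196 z (n 7677467 z (n 1020 z (n
 3196 z z)))))) (n 1 (n 3213099 z (n 7677467 z (n 3213099 z (n 3213099 z (n 3213099 z (n 3213099
 z z)))))) (n 0 z (n 1 (n 7677467 z (n 6555435 z (n 6625035 z (n 3196 z (n 3196 z (n 3196 z
 z)))))) (n 1 (n 7749971 z (n 7749971 z (n 7749971 z (n 7749971 z (n 7749971 z (n 7749971 z
 z)))))) z))))))) (n 3 (n 1 (n 7542315 z (n 6555419 z (n 7677467 z (n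
 0x969c4025cb88025871080c7fc7ee8008187fa7a88068068107f47fa80080079081880c7ee7aa8047227d785c7a490881484681880679c86478884287281980680474e8347d086c79e80c78988681494079272586d00d1
 z (n 1228 z (n 1228 z z)))))) (n 1 (n 1228 z (n 1228 z (n 1228 z (n 6561907 z (n 7677467 z (n
 124 z z)))))) (n 1 (n 7542315 z (n 1228 z (n
 0x96dc8025d39004b97208258767d98007488df6ae8848826e17db6fc8008007fb84a8256d790ba4f43b9187456157768c074892b90463d9773327079586f89048027b3a97920a9a88c78882b87c7c08b96c86f087000d1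
 z (n 7677467 z (n 1228 z (n 1228 z z)))))) (n 0 z (n 0 z (n 1 (n 7749971 z (n 7749971 z (n
 7749971 z (n 7749971 z (n 7749971 z (n 7749971 z z)))))) (n 1 (n 7749971 z (n 7749971 z (n
 7749971 z (n 7749971 z (n 7749971 z (n 7749971 z z)))))) (n 1 (n 7749971 z (n 7749971 z (n
 7749971 z (n 7749971 z (n 7749971 z (n 7749971 z z)))))) (n 1 (n 6557811 z (n 1228 z (n 7542315
 z (n 6625083 z (n 1228 z (n 1228 z z)))))) (n 0 z (n 1 (n 7677467 z (n 2164539 z (n 6559499 z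
 (n 7542315 z (n 2164539 z (n 2164539 z z)))))) (n 1 (n 7677467 z (n 5379899 z (n 5379899 z (n
 7542315 z (n 5379899 z (n 5379899 z z)))))) z)))))))))))) (n 177 (n 1 (n 2060 z (n 2060 z (n
 2060 z (n 2060 z (n 7607051 z (n 2060 z z)))))) (n 0 z (n 1 (n 3282699 z (n 7607051 z (n
 3282699 z (n 3282699 z (n 3282699 z (n 3282699 z z)))))) (n 1 (n 7749971 z (n 7749971 z (n
 7749971 z (n 7749971 z (n 7749971 z (n 7749971 z z)))))) z)))) (n 127 (n 1 (n 3196 z (n 3196 z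
 (n 3196 z (n 3196 z (n 7472187 z (n 10 z z)))))) (n 1 (n 3278683 z (n 3278683 z (n 3278683 z (n
 3278683 z (n 3278683 z (n 7472187 z z)))))) (n 1 (n 7607051 z (n 7607051 z (n 7607051 z (n
 4399219 z (n 7607051 z (n 7607051 z z)))))) (n 0 z (n 1 (n 7677467 z (n 7677467 z (n 7677467 z
 (n 7677467 z (n 7677467 z (n 7677467 z z)))))) (n 1 (n 7607051 z (n 7607051 z (n 7607051 z (n
 7607051 z (n 7607051 z (n 7607051 z z)))))) (n 1 (n 3196 z (n 3196 z (n 7472187 z (n 3196 z (n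
 18 z (n 3196 z z)))))) (n 0 z (n 0 z (n 1 (n 26 z (n 3196 z (n 7472187 z (n 3196 z (n 3196 z (n
 3196 z z)))))) z)))))))))) (n 399 (n 0 z (n 1 (n 12 z (n 316 z (n 316 z (n 7607051 z (n 316 z
 (n 316 z z)))))) (n 1 (n 7472187 z (n 7472187 z (n 7472187 z (n 7472187 z (n 7607051 z (n
 7472187 z z)))))) (n 0 z (n 1 (n 3282699 z (n 7607051 z (n 3282699 z (n 3282699 z (n 3282699 z
 (n 3282699 z z)))))) (n 1 (n 7749971 z (n 7749971 z (n 7749971 z (n 7749971 z (n 7749971 z (n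
 7749971 z z)))))) z)))))) z))))))) (n 0 (n 0 (n 0 z (n 0 z (n 0 z (n 0 z z)))) (n 0 (n 0 z (n 7
 (n 4260782 z (n 3875886 z (n
 0x5d51d5000e00002eea8ea40030000037527520018000013aa3a1001c00005dd49d0800600004ae84e840030000387545420018000323a92a1001c0000c9d0950800e00000ca84a840030000097547510038000203a93a8800c0000c9d45d4400e000038ea8e8200700000f7527410038000063a13a0801c000001d45d0400e000066e82e82007000049754541003800017ba92a0801c0002add09504006000120a84a8200700008f7515410018000293a0aa0801c00027d505504006000028ea8e4200300000d752721001800007ba1390800c000119d45c8400600005ce82e420030000177217210038000003aa290800c000051d494840060001fae84a420070000de5425210018000433a8a90801c000161d054840060000fea82a4200700003b72152100380002e290a90800c0001b1d5108400e000094ea4842003000011742421001800009aa1210801c0000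95d450840060000bae82842007000079541421001800012390a10800c0000ad48508400e00000e842842003000007852851403800007c29428200c00001e14548100e0000150eaa2080300001d54185020380000dc3aa08101c00005215210840600000b08508420300001184285010180001442a2a0081c00000a10a0804060000370a8a4020300000787442010380000cc2a210081c00000215210800600001d0850820070000188518210018000040003a10ec8000050001d08584000000000e842420000020007421030000000003a10ed400005400a14408400000c0050a20060000120008510b280000900042880053000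
 z z))) (n 0 z z))) (n 0 (n 0 z (n 7 (n 4400046 z (n
 0x7175375300180006aba9ba9000c0000b5d49d480060000f2ea6e64007000056752732001800004b99399000c000081d4d4c800e00017aea4a6400700001673253200380000da99299001c000091d4dd4400e000070ea4ea20030000257517510018000063a9b98800c000149d49cc400600005ce64e62007000002753531001800014ba9298801c000069cc94c400e00005ea64a6200700001a75372100380001fba9390800c000011cc9c8400600000cea2e42007000033721721001800005ba9a90800c0001a9d4948400e000024e64a4200700001753252100380000dba8a90801c000205cc54840060000aca62a4200300007d721521001800012290a90800c000065d4cc8400e000000ea464200700004d732321001800005299190800c000035d44c8400600001ee42642003000016521321003800026990990800c00006e0860c1c06000195065020e0700001f87182030380002943ab90181c0001421ce1cc80e0000ad0e70e040300003c8718702018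00018418c18100c00019e1d5cc080e0000350eae64203000018852732101800051c39c38080c0000ca1ca1c040e00002b0e706020700002273283010180000b43ab90081c0000d61ccc8040e0001dd0e70e40070000c9873832003800076c29b99000c0000b21ce1c40060003910e50e200700005c871871003800030c38c18800c0001621d5cc400e0000270e6e6200700003283173100180000fc39c10801c00001e1c60840060001dce63042007000009821821003800023c3ab90800c00037e14cc840060000c70a264200300006a8213210038000008003a9950800005c001d4cb5a00000a000ea656d00002f0027510cb0000018013a88248000258001d4419a0000e0000ea204900000b0083210db00000880419086a80000b0020c8434c00004001064209200000b0053210db00001e80299086b8000048014c842dc0000220006421b10000cc00032102680004a80019080157800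
 z (n 2722878 z z))) z)) (n 0 (n 0 z z) z)))) (n 0 (n 285 (n 0 (n 0 z (n 0 z (n 0 z (n 0 z z))))
 (n 0 (n 0 z (n 0 z (n 0 z (n 0 z z)))) (n 0 (n 0 z (n 0 z (n 0 (n 4401163 z z) (n 0 z z)))) (n
 0 (n 0 z (n 0 z (n 0 z (n 0 z z)))) (n 0 (n 0 z (n 0 z (n 0 z (n 0 z z)))) (n 0 (n 0 z (n 0 z
 (n 0 z (n 0 z z)))) (n 0 (n 0 z (n 0 z (n 0 z (n 0 z z)))) z))))))) (n 399 (n 0 (n 0 z (n 0 z
 (n 0 z (n 0 z z)))) (n 0 (n 0 z (n 0 (n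
 0x2b8768171788582866b95788a817e807a75837f76696c667898659f6e8286836f8e8d949279638e74a26f956083649f7d9f6b7a8f0049
 z z) (n 0 z (n 0 (n
 0x1b8747f6d8083748d6d9f768c827a807c877e7e74756775788f64956777888c70898c957f81609c71a370956a796c8e88896b818e0049
 z z) z)))) (n 0 (n 0 z (n 0 z (n 0 z (n 0 z z)))) (n 0 (n 0 z (n 0 z (n 0 z (n 0 z z)))) (n 0
 (n 0 z (n 0 (n
 0xa19594d0060090c8ea86077f87cb80b7fa8307c08317dc7ca8358108307ff8007c47ed7ef85074c72e8897888ab82c8e47ba86f7a27a683f7d998d8857eb84475482377b78d76378f76f84e7b489181089f7ff80b82f1011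
 z z) (n 0 z (n 0 (n
 0x1387481f8627e082382186081e8217df89f81f7e081f89f7e08217a07e08608218607e08218608200041 z z)
 z)))) (n 0 (n 0 z (n 0 z (n 0 z (n 0 z z)))) (n 0 (n 0 z (n 0 z (n 0 z (n 0 z z)))) (n 0 (n 0 z
 (n 0 z (n 0 (n 4397067 z z) (n 0 z z)))) z)))))))) (n 63 (n 0 (n 0 z (n 0 z (n 0 z (n 0 z z))))
 (n 0 (n 0 z (n 0 z (n 0 z (n 0 z z)))) (n 0 (n 0 z (n 0 z (n 0 z (n 0 z z)))) (n 0 (n 0 z (n 0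
 z (n 0 z (n 0 z z)))) (n 0 (n 0 z (n 0 (n
 0x33876816e76868288669a778d827d807873847f7363675f769e5ea66a8288836b91909997775b9171ab6a9a59835ea77da66578940049
 z z) (n 0 z (n 0 (n 7538795 z z) z)))) (n 0 (n 0 z (n 0 z (n 0 z (n 0 z z)))) (n 0 (n 0 z (n 0
 z (n 0 z (n 0 z z)))) (n 0 (n 0 z (n 0 (n 7735371 z z) (n 0 z (n 0 (n
 0x1387481f8627e082382186081e8217df89f81f7e081f89f7e08217a07e08608218607e08218608200041 z z)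
 z)))) (n 0 (n 0 z (n 0 z (n 0 z (n 0 z z)))) (n 0 (n 0 z (n 0 z (n 0 z (n 0 z z)))) (n 0 (n 0 z
 (n 0 z (n 0 z (n 0 z z)))) (n 0 (n 0 z (n 0 z (n 0 z (n 0 z z)))) (n 0 (n 0 z (n 0 z (n 0 z (n
 0 z z)))) (n 0 (n 0 z (n 0 z (n 0 (n 8868963 z z) (n 0 z z)))) (n 0 (n 0 z (n 0 z (n 0 (n
 8868963 z z) (n 0 z z)))) (n 0 (n 0 z (n 0 z (n 0 z (n 0 z z)))) (n 0 (n 0 z (n 0 z (n 0 (n
 8798547 z (n 8798547 z z)) (n 0 z z)))) (n 0 (n 0 z (n 0 (n 8655627 z (n 8655627 z z)) (n 0 (n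
 8655627 z (n 8655627 z z)) (n 0 (n 8655627 z (n 8655627 z z)) z)))) (n 0 (n 0 z (n 0 z (n 0 z
 (n 0 z z)))) (n 0 (n 0 (n
 0x2387589f8657a182486282181b82481a8df79f7617de91c7e186181f85f8a07df89e7a07a18208620041 z (n
 0x1876863501810cb0ca00382075c86262485a81d86076079c7262a48d381e9238d7b0e92c71b861ce6bd491ab9cbd55241001
 z z)) (n 0 z (n 0 z (n 0 z z)))) z)))))))))))))))))))) (n 153 (n 0 (n 0 z (n 0 z (n 0 z (n 0 z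
 z)))) (n 0 (n 0 z (n 0 (n
 0x1387681e8627e07e37e28a07de82181f85f82082081f89f7e082179f7df8608218a08208618218200041 z (n
 0x1b8767f6d8083748d6d9f768c827a807c877e7e74756775788f64956777888c70898c957f81609c71a370956a796c8e88896b818e0049
 z z)) (n 0 z (n 0 (n
 0x348747f7880808c748b7e758b818d8080737e7f8e6a619a69978b9e768f73738b75b5917a886d8773696e6c6c84768b8a928488870049
 z (n
 0x3b2c31a01c08768214038000d0e436e81f7e18207e082085f8208208218608207e182081f82086082082082081f8a08608218208201801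
 z z)) z)))) (n 0 (n 0 z (n 0 z (n 0 (n 8873283 z z) (n 0 z z)))) (n 0 (n 0 z (n 0 z (n 0 z (n 0
 z z)))) (n 0 (n 0 z (n 0 z (n 0 z (n 0 z z)))) (n 0 (n 0 z (n 0 z (n 0 z (n 0 z z)))) (n 0 (n 0
 z (n 0 z (n 0 z (n 0 z z)))) (n 0 (n 0 z (n 0 z (n 0 z (n 0 z z)))) (n 0 (n 0 z (n 0 z (n 0 z
 (n 0 z z)))) (n 0 (n 0 z (n 0 z (n 0 z (n 0 z z)))) (n 0 (n 0 z (n 0 (n 8590891 z (n 8590891 z
 z)) (n 0 z (n 0 (n 8590891 z (n 8590891 z z)) z)))) (n 0 (n 0 (n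
 0x1b8727f6d8083748d6d9f768c827a807c877e7e74756775788f64956777888c70898c957f81609c71a370956a796c8e88896b818e0049
 z z) (n 0 z (n 0 (n
 0x1b87280898d8454a1779589638163807caa817f5eb3ae59a659604886658f9d6e922d5a7e72918e9bb79ba6a769a47377427999700049
 z (n 8798323 z z)) (n 0 z z)))) (n 0 (n 0 (n 5380155 z z) (n 0 z (n 0 (n 5380155 z (n 8798323 z
 z)) (n 0 z z)))) z))))))))))))) (n 251 (n 0 (n 0 z (n 0 z (n 0 z (n 0 z z)))) (n 0 (n 0 z (n 0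
 z (n 0 z (n 0 z z)))) (n 0 (n 0 (n
 0x2387589f8657a182486282181b82481a8df79f7617de91c7e186181f85f8a07df89e7a07a18208620041 z (n
 0x6876864501801432431280c002195d9500e0050cb0ca0038068237d08018497de7e57f77f97fb8068137f980078c80c8218177947fc7817ed82c7f084d8428238297ed7c582f81586784380a7997e57d78507dd8047b28207d185f7f88827d07c981a2011
 z z)) (n 0 z (n 0 z (n 0 z z)))) (n 0 (n 0 z (n 0 z (n 0 z (n 0 z z)))) (n 0 (n 0 z (n 0 (n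
 8521563 z (n
 0x2b860808b908549a9759a8c5c825c807ab5817e55c0ba4fb04f593b865f92a4699618507d6e9492a1c5a1b0b263ad707533779f6c0049
 z z)) (n 0 (n 8860683 z (n 8860683 z z)) (n 0 (n 7604283 z (n
 0x2b860808b908549a9759a8c5c825c807ab5817e55c0ba4fb04f593b865f92a4699618507d6e9492a1c5a1b0b263ad707533779f6c0049
 z z)) z)))) (n 0 (n 0 z (n 0 z (n 0 z (n 0 z z)))) (n 0 (n 0 z (n 0 z (n 0 z (n 0 z z)))) (n 0
 (n 0 z (n 0 z (n 0 z (n 0 z z)))) (n 0 (n 0 z (n 0 z (n 0 z (n 0 z z)))) (n 0 (n 0 z (n 0 (n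
 8590891 z (n 8590891 z z)) (n 0 z (n 0 (n 8590891 z (n 8590891 z z)) z)))) (n 0 (n 0 z (n 0 (n
 0x1b8727f6d8083748d6d9f768c827a807c877e7e74756775788f64956777888c70898c957f81609c71a370956a796c8e88896b818e0049
 z z) (n 0 z (n 0 (n
 0x33874816e76868288669a778d827d807873847f7363675f769e5ea66a8288836b91909997775b9171ab6a9a59835ea77da66578940049
 z z) z)))) (n 0 (n 0 z (n 0 z (n 0 z (n 0 z z)))) (n 0 (n 0 z (n 0 (n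
 0x2b852808b908549a9759a8c5c825c807ab5817e55c0ba4fb04f593b865f92a4699618507d6e9492a1c5a1b0b263ad707533779f6c0049
 z (n 7669819 z z)) (n 0 (n
 0x1387281f8627e082382186081e8217df89f81f7e081f89f7e08217a07e08608218607e08218608200041 z (n
 7669819 z z)) (n 0 (n
 0x1387681e8627e07e37e28a07de82181f85f82082081f89f7e082179f7df8608218a08208618218200041 z (n
 0x2b852808b908549a9759a8c5c825c807ab5817e55c0ba4fb04f593b865f92a4699618507d6e9492a1c5a1b0b263ad707533779f6c0049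
 z z)) z)))) (n 0 (n 0 (n
 0x1b8707f6d8083748d6d9f768c827a807c877e7e74756775788f64956777888c70898c957f81609c71a370956a796c8e88896b818e0049
 z z) (n 0 (n
 0x30e90e840789f8617e082182186082182182086082082081f89f7e08207e081f8618208608207e086081f0801 z
 (n
 0xd0e90e840780e7cf7f880d7f78177a383c7f681c7ff7c88008007d780f8027e07607867667ec8a27898cb7d083181a7ee7b485d85a86384882175786578287179b86978380578c8c97fb8a17967c78440811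
 z z)) (n 0 z (n 0 (n
 0x2b876808b908549a9759a8c5c825c807ab5817e55c0ba4fb04f593b865f92a4699618507d6e9492a1c5a1b0b263ad707533779f6c0049
 z (n 7678011 z z)) z)))) (n 0 (n 0 z (n 0 z (n 0 (n 8873283 z z) (n 0 z z)))) (n 0 (n 0 z (n 0
 (n
 0x138408086888364957a8d866e816e807d9b817f6aa19d6799676c5d846f8992758b4a687f778b8992a39198997197787a597b90750049
 z (n
 0x2b840808b908549a9759a8c5c825c807ab5817e55c0ba4fb04f593b865f92a4699618507d6e9492a1c5a1b0b263ad707533779f6c0049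
 z z)) (n 0 (n
 0x1387281f8627e082382186081e8217df89f81f7e081f89f7e08217a07e08608218607e08218608200041 z (n
 0x2b840808b908549a9759a8c5c825c807ab5817e55c0ba4fb04f593b865f92a4699618507d6e9492a1c5a1b0b263ad707533779f6c0049
 z z)) (n 0 (n
 0x1b8747f6d8083748d6d9f768c827a807c877e7e74756775788f64956777888c70898c957f81609c71a370956a796c8e88896b818e0049
 z (n
 0x2b840808b908549a9759a8c5c825c807ab5817e55c0ba4fb04f593b865f92a4699618507d6e9492a1c5a1b0b263ad707533779f6c0049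
 z z)) z)))) (n 0 (n 0 (n
 0x2387589f8657a182486282181b82481a8df79f7617de91c7e186181f85f8a07df89e7a07a18208620041 z z) (n
 0 z (n 0 z (n 0 z z)))) (n 0 (n 0 z (n 0 z (n 0 z (n 0 z z)))) (n 0 (n 0 z (n 0 z (n 0 z (n 0 z
 z)))) (n 0 (n 0 (n
 0x2387589f8657a182486282181b82481a8df79f7617de91c7e186181f85f8a07df89e7a07a18208620041 z (n
 8587051 z z)) (n 0 z (n 0 z (n 0 z z)))) z)))))))))))))))))))) (n 15 (n 0 (n 0 z (n 0 z (n 0 z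
 (n 0 z z)))) (n 0 (n 0 z (n 0 z (n 0 z (n 0 z z)))) (n 0 (n 0 z (n 0 (n
 0x1387681e8627e07e37e28a07de82181f85f82082081f89f7e082179f7df8608218a08208618218200041 z (n
 0x1b8767f6d8083748d6d9f768c827a807c877e7e74756775788f64956777888c70898c957f81609c71a370956a796c8e88896b818e0049
 z z)) (n 0 z (n 0 (n
 0x348747f7880808c748b7e758b818d8080737e7f8e6a619a69978b9e768f73738b75b5917a886d8773696e6c6c84768b8a928488870049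
 z (n
 0x2ecb0428077e17a08618207e185f8a07de82186085f82082186179e89f85f8618217e07e17a182181f8600801 z
 z)) z)))) (n 0 (n 0 z (n 0 z (n 0 (n 8726043 z z) (n 0 z z)))) (n 0 (n 0 z (n 0 (n 7735371 z z)
 (n 0 z (n 0 (n
 0x1387481f8627e082382186081e8217df89f81f7e081f89f7e08217a07e08608218607e08218608200041 z z)
 z)))) (n 0 (n 0 z (n 0 (n 8726043 z z) (n 0 z (n 0 (n 8726043 z z) z)))) (n 0 (n 0 z (n 0 z (n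
 0 z (n 0 z z)))) (n 0 (n 0 z (n 0 (n
 0x1387681f8627e082382186081e8217df89f81f7e081f89f7e08217a07e08608218607e08218608200041 z (n
 0x432430a80c2765862401810ed0e280782082082082082086082082086082082082081f8608208208208208208208208208208208201801
 z z)) (n 0 (n
 0x3b8747fc8188047ff7bd8437d08318107bf80c7c57fc8008427f97f47c486e8897768547ad7947898107b884784c7ac83f7027af8157ca8368178388a085687784e7d58387e37f27ab7db8057f10051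
 z (n
 0x754832603810ed0ec8037e07e082081e82086185f82081f86082082181f7df8217e086181f82086082186082086081f1001
 z z)) (n 0 (n
 0x1c3ac20b00c06192185406010caca280377767d7b8e768484768e8e87817e82756e9466529f699f76a0648f7974827ec39a7985628b7677686f608e6e9485917b8e871809
 z (n
 0x3b8747fc8188047ff7bd8437d08318107bf80c7c57fc8008427f97f47c486e8897768547ad7947898107b884784c7ac83f7027af8157ca8368178388a085687784e7d58387e37f27ab7db8057f10051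
 z z)) z)))) (n 0 (n 0 z (n 0 (n 8726043 z (n 8726043 z z)) (n 0 z (n 0 (n 8726043 z (n 8726043
 z z)) z)))) (n 0 (n 0 z (n 0 z (n 0 z (n 0 z z)))) (n 0 (n 0 z (n 0 (n 7606403 z (n 6625339 z
 z)) (n 0 z (n 0 (n 7606403 z (n 6625339 z z)) z)))) (n 0 (n 0 z (n 0 (n 4261947 z (n 4261947 z
 z)) (n 0 (n 8860683 z (n 8860683 z z)) (n 0 (n 4261947 z (n 4261947 z z)) z)))) (n 0 (n 0 z (n
 0 z (n 0 z (n 0 z z)))) (n 0 (n 0 z (n 0 (n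
 0x148767e6d707fa26e728f6e9f889180805a7d78954044805db96bca699a83717187d3bc91864686688a527d3d9150ab8abc6a7d940049
 z (n
 0x3b8767fc8188047ff7bd8437d08318107bf80c7c57fc8008427f97f47c486e8897768547ad7947898107b884784c7ac83f7027af8157ca8368178388a085687784e7d58387e37f27ab7db8057f10051
 z z)) (n 0 z (n 0 (n
 0x148747e6d707fa26e728f6e9f889180805a7d78954044805db96bca699a83717187d3bc91864686688a527d3d9150ab8abc6a7d940049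
 z (n
 0x2b8747fd8138048007c98367d982880c7cc8097d17fd8008357fa7f77d085886e7918437bd7aa7a180d7c683983d7bd8327357bf8117d582b81282d88084485f8407dd82c7e97f57bd7e38047f50051
 z z)) z)))) z)))))))))))))) (n 177 (n 0 (n 0 z (n 0 z (n 0 (n
 0x2e650e0c037a27de89f81f86089f89e85f82089e85f86081f85f7e081e86081f7e189f8208208608608600801 z
 z) (n 0 z z)))) (n 0 (n 0 z (n 0 z (n 0 z (n 0 z z)))) (n 0 (n 0 z (n 0 z (n 0 z (n 0 z z))))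
 (n 0 (n 0 z (n 0 z (n 0 z (n 0 z z)))) z)))) (n 257 (n 0 (n 0 z (n 0 z (n 0 z (n 0 z z)))) (n 0
 (n 0 z (n 0 z (n 0 z (n 0 z z)))) (n 0 (n 0 z (n 0 (n
 0x1b8727f6d8083748d6d9f768c827a807c877e7e74756775788f64956777888c70898c957f81609c71a370956a796c8e88896b818e0049
 z z) (n 0 z (n 0 (n
 0x33870816e76868288669a778d827d807873847f7363675f769e5ea66a8288836b91909997775b9171ab6a9a59835ea77da66578940049
 z z) z)))) (n 0 (n 0 z (n 0 z (n 0 (n 8655627 z (n 8655627 z z)) (n 0 z z)))) (n 0 (n 0 z (n 0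
 z (n 0 z (n 0 z z)))) (n 0 (n 0 z (n 0 (n 8521563 z (n
 0x130ed0e46077f77c67ea7fe82e7e77b78307ca83282d7e37ff80a7cb7ee7c083372573b7a67b08ea76693e7a98648007bb7c38598fe8a483883471086974685075783674a8387738f58178f279a7cb8580811
 z z)) (n 0 z (n 0 (n
 0x1b8737f6d8083748d6d9f768c827a807c877e7e74756775788f64956777888c70898c957f81609c71a370956a796c8e88896b818e0049
 z (n
 0x3a9c21301c0876876303830ecec600789f7e17e181f7e08608218228208207e07e081e81e81f82086082082082086182082082081f1801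
 z z)) z)))) (n 0 (n 0 (n
 0x1387581f8627e082382186081e8217df89f81f7e081f89f7e08217a07e08608218607e08218608200041 z (n
 0x50c70e0a078027cc7ee80882e7e37f88117ee8367fc8208007fd7b980580181b77977681d7ae87a7f489b7cd82c7ea7df8037f98cb86f8178137968227b87e97a37e677d81879b85380a8827e57f78360811
 z z)) (n 0 z (n 0 (n 7678011 z (n 8800091 z z)) (n 0 z z)))) z))))))) (n 129 (n 0 (n 0 z (n 0 z
 (n 0 z (n 0 z z)))) (n 0 (n 0 z (n 0 z (n 0 z (n 0 z z)))) (n 0 (n 0 z (n 0 z (n 0 (n 8726043 z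
 z) (n 0 z z)))) (n 0 (n 0 z (n 0 (n 7735371 z z) (n 0 z (n 0 (n
 0x76586430380ecb0c46078608208208208208208208208208208208208208208208208208208208208208208208208201001
 z z) z)))) (n 0 (n 0 z (n 0 z (n 0 z (n 0 z z)))) (n 0 (n 0 z (n 0 (n 8798547 z z) (n 0 z (n 0
 (n 8798547 z z) z)))) (n 0 (n 0 (n
 0x10b8617f682f8127ff7d682881a8238037c482c7d07ef80085d7ec7d47eb89287d7cb83d7877c778481c7d483f8307c783375d7ac7c77f182982982c85783982b8717cb8767b081476e80284b7d10051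
 z (n 8652571 z z)) (n 0 z (n 0 z (n 0 z z)))) (n 0 (n 0 (n 8655627 z (n 8655627 z z)) (n 0 z (n
 0 z (n 0 z z)))) (n 0 (n 0 z (n 0 z (n 0 (n 8655627 z (n 8655627 z z)) (n 0 z z)))) z)))))))))
 (n 27 (n 0 (n 0 z (n 0 z (n 0 z (n 0 z z)))) (n 0 (n 0 z (n 0 z (n 0 z (n 0 z z)))) (n 0 (n 0
 (n 8652571 z z) (n 0 z (n 0 z (n 0 z z)))) (n 0 (n 0 z (n 0 (n
 0x1387681e8627e07e37e28a07de82181f85f82082081f89f7e082179f7df8608218a08208618218200041 z (n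
 0x138767d18235ea47962a89b81d95f7965cc5dab09c4d667a539eac5f806d94f13c4f690ae69cf86b0041 z z)) (n
 0 z (n 0 (n
 0x50e50e42077e27e089f7a176396099e7df7a18a085f8a18218647598a18a18e272781f8238628e085e85f0801 z
 (n
 0x21ca1c580604193a8301c00068721b70200d0e436682182182085f7e082086182082082082086081f8208208208208208218608208208208208202001
 z z)) z)))) (n 0 (n 0 z (n 0 z (n 0 z (n 0 z z)))) (n 0 (n 0 z (n 0 z (n 0 z (n 0 z z)))) (n 0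
 (n 0 z (n 0 (n 8798547 z z) (n 0 z (n 0 (n 8798547 z z) z)))) (n 0 (n 0 z (n 0 (n 8798547 z (n
 8798547 z z)) (n 0 z (n 0 (n 8798547 z (n 8798547 z z)) z)))) (n 0 (n 0 z (n 0 z (n 0 z (n 0 z
 z)))) (n 0 (n 0 z (n 0 z (n 0 z (n 0 z z)))) (n 0 (n 0 (n 8798547 z (n 8798547 z z)) (n 0 z (n
 0 z (n 0 z z)))) (n 0 (n 0 (n
 0x1b8708576e38644ed72785e81c6637d94533dbbcfcd5864855a69b2c6cda18d95b8c890d1ecd272a0041 z z) (n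
 0 z (n 0 (n
 0x9086ea0c037e18208208207e185f86085f82181e8208208208a179f8607df8217e17e086186186181f8200801 z
 (n 8798323 z z)) (n 0 z z)))) (n 0 (n 0 z (n 0 z (n 0 z (n 0 z z)))) (n 0 (n 0 z (n 0 z (n 0 z
 (n 0 z z)))) (n 0 (n 0 z (n 0 (n 8590891 z (n 8590891 z z)) (n 0 z (n 0 (n 8590891 z (n 8590891
 z z)) z)))) z))))))))))))))) (n 399 (n 0 (n 0 z (n 0 z (n 0 (n
 0x2b872808b908549a9759a8c5c825c807ab5817e55c0ba4fb04f593b865f92a4699618507d6e9492a1c5a1b0b263ad707533779f6c0049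
 z (n
 0x874874203830e90842038607e17e181f7e08a08227e18618208207e081f85f81f8208208208608208208208208208201001
 z z)) (n 0 z z)))) (n 0 (n 0 (n 8872499 z z) (n 0 z (n 0 (n
 0x4384180282c82880875f87d7c784482678780178a8017f78968057fd77e8cf8de7418a376477b72182878d84d8767a785167375b80f7bb8648208668e08868ad8a97ae8897ca7da72e7df8327c70051
 z (n 8798323 z z)) (n 0 z z)))) (n 0 (n 0 z (n 0 z (n 0 z (n 0 z z)))) (n 0 (n 0 z (n 0 z (n 0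
 z (n 0 z z)))) (n 0 (n 0 (n 8520763 z (n 8652571 z z)) (n 0 z (n 0 z (n 0 z z)))) (n 0 (n 0 z
 (n 0 z (n 0 z (n 0 z z)))) (n 0 (n 0 z (n 0 z (n 0 z (n 0 z z)))) (n 0 (n 0 z (n 0 z (n 0 (n
 8520763 z (n 8520763 z z)) (n 0 z z)))) (n 0 (n 0 z (n 0 (n 8726043 z (n 8726043 z z)) (n 0 z
 (n 0 (n 8726043 z (n 8726043 z z)) z)))) (n 0 (n 0 z (n 0 (n
 0x874874203830e8e842078607e17e181f7e08a08227e18618208207e081f85f81f8208208208608208208208208208201001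
 z (n
 0x30c9042e078208617df86182182082182182081f7df82082081e8207e08207e08218208218208208218200801 z
 z)) (n 0 z (n 0 (n
 0x21da1d900e143b419201c0874864203810ecec84078a08208208618218228208208207e08608208208617e07e07df81f8208608207e08208208202001
 z (n
 0x876876201820010ec56d82082082082082082082082082082082082082081f8208208208208208208208208208208201001
 z z)) z)))) (n 0 (n 0 z (n 0 z (n 0 (n 8782363 z (n 8782363 z z)) (n 0 z z)))) (n 0 (n 0 z (n 0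
 z (n 0 (n
 0x238747e84818078897c8b7f7686767e808c7d7a7a93956b8b736a7081778d8b708c5e7481778587889d8c92897a8c7d807279867c0049
 z (n
 0x21da1d900e143b399200c0876864201810e8ec84038a08208208618218228218608207e186081f8608617e17df79f7df8208608207e18608208202001
 z z)) (n 0 z z)))) z)))))))))))) (n 261 (n 0 (n 0 z (n 0 z (n 0 (n
 0x538747b8b827e6c97759b7c668e687b809e777171aeb34d9a5f4d57816ca0985b9f2d6482698b9092c69eab97709e77805f718f770049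
 z (n
 0x10ed0ec807021d9d8d00e143b399200c0876864201810e8ec84038a08207e18608218228208608208208608208618217e07df7df81f8208208607e08208208202801
 z z)) (n 0 z z)))) (n 0 (n 0 (n 8872499 z z) (n 0 z (n 0 (n
 0x4386080282c82880875f87d7c784482678780178a8017f78968057fd77e8cf8de7418a376477b72182878d84d8767a785167375b80f7bb8648208668e08868ad8a97ae8897ca7da72e7df8327c70051
 z (n 8798323 z z)) (n 0 z z)))) (n 0 (n 0 z (n 0 z (n 0 z (n 0 z z)))) (n 0 (n 0 z (n 0 z (n 0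
 z (n 0 z z)))) (n 0 (n 0 (n 8590891 z (n 8590891 z z)) (n 0 z (n 0 z (n 0 z z)))) (n 0 (n 0 z
 (n 0 z (n 0 z (n 0 z z)))) (n 0 (n 0 z (n 0 z (n 0 z (n 0 z z)))) (n 0 (n 0 z (n 0 z (n 0 (n
 8590891 z (n 8590891 z z)) (n 0 z z)))) (n 0 (n 0 z (n 0 (n
 0x2b872808b908549a9759a8c5c825c807ab5817e55c0ba4fb04f593b865f92a4699618507d6e9492a1c5a1b0b263ad707533779f6c0049
 z (n
 0x10e70e640781767c818d777d7f7b868389818072817989686885709a7c9a719078768080a2938781758077737e7e638c7193819f7b7a860809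
 z z)) (n 0 z (n 0 (n
 0x2b8747d858180768c7b8e7e7388747d808f7c7878989a668e6f666b8175908c6d905572817486888aa48f968c77917c806f78887b0049
 z (n
 0x21da1d900e143b419201c0874864203810ecec84078a08208208608218228218218207e08608208608617e17e07df7df7e18618207e085f8608202001
 z z)) z)))) (n 0 (n 0 z (n 0 (n 3278939 z (n 3278939 z z)) (n 0 z (n 0 (n 3278939 z (n 3278939
 z z)) z)))) (n 0 (n 0 z (n 0 z (n 0 (n 8655627 z (n 8655627 z z)) (n 0 z z)))) (n 0 (n 0 z (n 0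
 z (n 0 (n
 0x2b872808b908549a9759a8c5c825c807ab5817e55c0ba4fb04f593b865f92a4699618507d6e9492a1c5a1b0b263ad707533779f6c0049
 z (n
 0x30e70e6407836777829f697a7d738f869681805c82719644468c59c177bf5fa76c668182d3ae918365806861797c399d5baf84ca74718f0809
 z z)) (n 0 z z)))) z)))))))))))) (n 131 (n 0 (n 0 (n
 0x1b8747f6d8083748d6d9f768c827a807c877e7e74756775788f64956777888c70898c957f81609c71a370956a796c8e88896b818e0049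
 z z) (n 0 z (n 0 (n
 0x21da1d900e00ec8ec84037f7882808876877d768782888080707e7e8c605e8f699f82ac76947372847cc397818760846a746270638d739e83a17b868c1009
 z (n 8798323 z z)) (n 0 z z)))) (n 0 (n 0 z (n 0 z (n 0 z (n 0 z z)))) (n 0 (n 0 z (n 0 z (n 0
 z (n 0 z z)))) (n 0 (n 0 z (n 0 z (n 0 z (n 0 z z)))) (n 0 (n 0 z (n 0 z (n 0 z (n 0 z z)))) (n
 0 (n 0 z (n 0 (n
 0x33876816e76868288669a778d827d807873847f7363675f769e5ea66a8288836b91909997775b9171ab6a9a59835ea77da66578940049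
 z (n
 0x1c3b43b201c0061da190c060050e90e820780f7537cd82685d7d876d87c79c8ce8078557f07f974a7fb8148376e66dc7f675390379998d7728348267ef7a181494791984083270b84674783171583a6c482e6db89985e95976e77c8a41811
 z z)) (n 0 z (n 0 (n
 0x8438716038243aa18b00c0219219040e070ed0c6007787e797a966399666883959b7a836e7375ab6a66ae659790a077a462629779d4888f7570618260685158b176a579ac8a8c7e2009
 z (n
 0x3b8747fc8188047ff7bd8437d08318107bf80c7c57fc8008427f97f47c486e8897768547ad7947898107b884784c7ac83f7027af8157ca8368178388a085687784e7d58387e37f27ab7db8057f10051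
 z z)) z)))) (n 0 (n 0 z (n 0 z (n 0 z (n 0 z z)))) (n 0 (n 0 z (n 0 z (n 0 z (n 0 z z)))) (n 0
 (n 0 z (n 0 z (n 0 z (n 0 z z)))) (n 0 (n 0 z (n 0 z (n 0 z (n 0 z z)))) (n 0 (n 0 z (n 0 (n
 0x270ed0e60037f180d79e8138767d779e8217c483083d81880a7ec79d7f67eb8327d87f978b7da82e7ba84782c8098587de7a583f7d08828477eb7b87b37f88757e78297b08277cf82f8258777c27cd8180811
 z z) (n 0 z (n 0 (n
 0x4387380282c82880875f87d7c784482678780178a8017f78968057fd77e8cf8de7418a376477b72182878d84d8767a785167375b80f7bb8648208668e08868ad8a97ae8897ca7da72e7df8327c70051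
 z z) z)))) (n 0 (n 0 z (n 0 (n 8726043 z (n 8726043 z z)) (n 0 z (n 0 (n 8726043 z (n 8726043 z
 z)) z)))) (n 0 (n 0 (n
 0x1b8708566e48644ed72781e81c6638194533dbc0fd15824895a29b2c6cda19d95b8c84ed5ecd272a0041 z z) (n
 0 (n 3213435 z (n 3213435 z z)) (n 0 (n
 0x148767e6d707fa26e728f6e9f889180805a7d78954044805db96bca699a83717187d3bc91864686688a527d3d9150ab8abc6a7d940049
 z (n
 0x3b8767fc8188047ff7bd8437d08318107bf80c7c57fc8008427f97f47c486e8897768547ad7947898107b884784c7ac83f7027af8157ca8368178388a085687784e7d58387e37f27ab7db8057f10051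
 z z)) (n 0 (n
 0x1387481f8627e082382186081e8217df89f81f7e081f89f7e08217a07e08608218607e08218608200041 z (n
 0x10c7082e0385f8617e08608208217e07e189f7a27e081f85e81f8607e17e17e089e8218608607e08217df0801 z
 z)) z)))) (n 0 (n 0 z (n 0 z (n 0 z (n 0 z z)))) z)))))))))))))) (n 3 (n 0 (n 0 (n
 0x1b8727f6d8083748d6d9f768c827a807c877e7e74756775788f64956777888c70898c957f81609c71a370956a796c8e88896b818e0049
 z z) (n 0 z (n 0 (n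
 0x876872403810e908420385f8217e18207e08608217e18207e18207df81f86081f8218208208607e08208207e08208211001
 z (n 8798323 z z)) (n 0 z z)))) (n 0 (n 0 z (n 0 z (n 0 z (n 0 z z)))) (n 0 (n 0 z (n 0 z (n 0
 z (n 0 z z)))) (n 0 (n 0 z (n 0 z (n 0 z (n 0 z z)))) (n 0 (n 0 z (n 0 z (n 0 z (n 0 z z)))) (n
 0 (n 0 z (n 0 (n
 0xb0eac4080786382081f86081f81f86092279e89c81f82081e89d7a181d85e86182186189d7e082281e8610801 z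
 (n
 0x3b8767fc8188047ff7bd8437d08318107bf80c7c57fc8008427f97f47c486e8897768547ad7947898107b884784c7ac83f7027af8157ca8368178388a085687784e7d58387e37f27ab7db8057f10051
 z z)) (n 0 z (n 0 (n
 0x33874816e76868288669a778d827d807873847f7363675f769e5ea66a8288836b91909997775b9171ab6a9a59835ea77da66578940049
 z (n
 0x1c3b43b201c0061d219080e0050ed0ec00780e7537cd82685d7d876d87c79d8ce8088557f07f874b7fb8148376e66dd7f675490279898d7728358267f07a181494691984083370b84674883171583a6c482e6db89885e95976e77c8a41811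
 z z)) z)))) (n 0 (n 0 z (n 0 z (n 0 z (n 0 z z)))) (n 0 (n 0 z (n 0 z (n 0 z (n 0 z z)))) (n 0
 (n 0 z (n 0 z (n 0 z (n 0 z z)))) (n 0 (n 0 z (n 0 z (n 0 z (n 0 z z)))) (n 0 (n 0 z (n 0 (n
 8726043 z z) (n 0 z (n 0 (n 8726043 z z) z)))) (n 0 (n 0 z (n 0 (n
 0x1b8727f6d8083748d6d9f768c827a807c877e7e74756775788f64956777888c70898c957f81609c71a370956a796c8e88896b818e0049
 z (n
 0x4387280282c82880875f87d7c784482678780178a8017f78968057fd77e8cf8de7418a376477b72182878d84d8767a785167375b80f7bb8648208668e08868ad8a97ae8897ca7da72e7df8327c70051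
 z z)) (n 0 z (n 0 (n
 0x148747e6d707fa26e728f6e9f889180805a7d78954044805db96bca699a83717187d3bc91864686688a527d3d9150ab8abc6a7d940049
 z (n
 0x3b8747fc8188047ff7bd8437d08318107bf80c7c57fc8008427f97f47c486e8897768547ad7947898107b884784c7ac83f7027af8157ca8368178388a085687784e7d58387e37f27ab7db8057f10051
 z z)) z)))) (n 0 (n 0 (n
 0x1b8747f6d8083748d6d9f768c827a807c877e7e74756775788f64956777888c70898c957f81609c71a370956a796c8e88896b818e0049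
 z z) (n 0 (n
 0x1387481f8627e082382186081e8217df89f81f7e081f89f7e08217a07e08608218607e08218608200041 z (n
 0x10850c0e0385f8617e08608208217e07e189f7a27e081f85e81f8607e17e17e089e8218608607e08217df0801 z
 z)) (n 0 (n
 0x148747e6d707fa26e728f6e9f889180805a7d78954044805db96bca699a83717187d3bc91864686688a527d3d9150ab8abc6a7d940049
 z (n
 0x3b8747fc8188047ff7bd8437d08318107bf80c7c57fc8008427f97f47c486e8897768547ad7947898107b884784c7ac83f7027af8157ca8368178388a085687784e7d58387e37f27ab7db8057f10051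
 z z)) (n 0 (n 2164859 z (n 2164859 z z)) z)))) (n 0 (n 0 z (n 0 z (n 0 z (n 0 z z))))
 z)))))))))))))) (n 127 (n 0 (n 0 z (n 0 z (n 0 (n
 0xce650e0c03787e7e799a688a797090928684796a777b9a5648a05daf85be6eaa6f687f80e8ae7e924a885d6c4d6754996da286ac80808f0809
 z z) (n 0 z z)))) (n 0 (n 0 (n 3278939 z z) (n 0 z (n 0 (n 3278939 z (n 8798323 z z)) (n 0 z
 z)))) (n 0 (n 0 z (n 0 z (n 0 (n 8655627 z z) (n 0 z z)))) (n 0 (n 0 z (n 0 z (n 0 z (n 0 z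
 z)))) (n 0 (n 0 z (n 0 (n 8726043 z (n 8726043 z z)) (n 0 z (n 0 (n 8726043 z (n 8726043 z z))
 z)))) (n 0 (n 0 z (n 0 (n 8655627 z z) (n 0 z (n 0 (n 8655627 z z) z)))) (n 0 (n 0 z (n 0 (n
 0x10e70e640781707a8194727c7e788a848e81806981768e5a5b8867a97aa86a98746f8181b69d8b826f80716c7c7d5393689e82af7876890809
 z (n
 0x30650c0e037df8607e08207a08a08607df7a18618208e085d8de7de8217617de9208218e18a28627e181e0801 z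
 z)) (n 0 z (n 0 (n
 0xa1ca1c180e0050e70c64078087e87fb80981d7e880e7f67f18257fb8187fd8057d480280581c7a67aa82f7cc84481b8667ea8287e77dd8117f08a283980081f7be8197c87c47be7d07c78117d182b8098458038008151011
 z (n
 0x876876201820010ec56d82082082082082082082082082082082082082081f8208208208208208208208208208208201001
 z z)) z)))) (n 0 (n 0 z (n 0 (n 3283067 z (n 3283067 z z)) (n 0 (n
 0x1b8727f6d8083748d6d9f768c827a807c877e7e74756775788f64956777888c70898c957f81609c71a370956a796c8e88896b818e0049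
 z (n
 0x2b860808b908549a9759a8c5c825c807ab5817e55c0ba4fb04f593b865f92a4699618507d6e9492a1c5a1b0b263ad707533779f6c0049
 z z)) (n 0 (n
 0x2b860808b908549a9759a8c5c825c807ab5817e55c0ba4fb04f593b865f92a4699618507d6e9492a1c5a1b0b263ad707533779f6c0049
 z (n
 0x2b860808b908549a9759a8c5c825c807ab5817e55c0ba4fb04f593b865f92a4699618507d6e9492a1c5a1b0b263ad707533779f6c0049
 z z)) z)))) (n 0 (n 0 z (n 0 (n 8655627 z (n 8655627 z z)) (n 0 (n 8655627 z (n 8655627 z z))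
 (n 0 (n 8655627 z (n 8655627 z z)) z)))) (n 0 (n 0 z (n 0 (n
 0x1387681f8627e082382186081e8217df89f81f7e081f89f7e08217a07e08608218607e08218608200041 z (n
 0x30650c0e038208607df8208208608207e186082082086081f85f81f82082082082182086081f8208208200801 z
 z)) (n 0 (n
 0x30e8e64c0385f8607df8618a18227a17e289f7a07a07df85f81e8a17a07e17df8608617e182079e8627df0801 z
 (n
 0x4387380282c82880875f87d7c784482678780178a8017f78968057fd77e8cf8de7418a376477b72182878d84d8767a785167375b80f7bb8648208668e08868ad8a97ae8897ca7da72e7df8327c70051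
 z z)) (n 0 (n 2164859 z (n 2164859 z z)) z)))) z)))))))))) (n 399 (n 0 (n 0 z (n 0 z (n 0 z (n
 0 z z)))) (n 0 (n 0 z (n 0 z (n 0 z (n 0 z z)))) (n 0 (n 0 z (n 0 z (n 0 z (n 0 z z)))) (n 0 (n
 0 z (n 0 z (n 0 z (n 0 z z)))) (n 0 (n 0 z (n 0 (n 3282955 z z) (n 0 (n 3282955 z z) (n 0 (n
 3282955 z z) z)))) (n 0 (n 0 z (n 0 z (n 0 z (n 0 z z)))) z)))))) (n 39 (n 0 (n 0 z (n 0 z (n 0
 (n
 0x10b8307f682f8127ff7d682881a8238037c482c7d07ef80085d7ec7d47eb89287d7cb83d7877c778481c7d483f8307c783375d7ac7c77f182982982c85783982b8717cb8767b081476e80284b7d10051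
 z z) (n 0 z z)))) (n 0 (n 0 z (n 0 z (n 0 (n
 0x10e90e84037e082082086082082082082082082082082082081f8208208208208208208208208208208200801 z
 z) (n 0 z z)))) (n 0 (n 0 z (n 0 z (n 0 z (n 0 z z)))) (n 0 (n 0 z (n 0 (n
 0x4387280282c82880875f87d7c784482678780178a8017f78968057fd77e8cf8de7418a376477b72182878d84d8767a785167375b80f7bb8648208668e08868ad8a97ae8897ca7da72e7df8327c70051
 z z) (n 0 z (n 0 (n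
 0x1387481f8627e082382186081e8217df89f81f7e081f89f7e08217a07e08608218607e08218608200041 z z)
 z)))) (n 0 (n 0 z (n 0 z (n 0 z (n 0 z z)))) (n 0 (n 0 z (n 0 z (n 0 z (n 0 z z)))) (n 0 (n 0 z
 (n 0 z (n 0 z (n 0 z z)))) (n 0 (n 0 z (n 0 z (n 0 z (n 0 z z)))) z)))))))) (n 129 (n 0 (n 0 z
 (n 0 z (n 0 z (n 0 z z)))) (n 0 (n 0 z (n 0 z (n 0 z (n 0 z z)))) (n 0 (n 0 z (n 0 z (n 0 z (n
 0 z z)))) (n 0 (n 0 z (n 0 z (n 0 z (n 0 z z)))) (n 0 (n 0 z (n 0 (n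
 0x874874103810e70e600379e8205ab5ae7d7957822b5c55ab2a3e8705516628ad1b06723561ae7e6cddf7257614979de1001
 z z) (n 0 z (n 0 (n
 0x1b8747f6d8083748d6d9f768c827a807c877e7e74756775788f64956777888c70898c957f81609c71a370956a796c8e88896b818e0049
 z z) z)))) (n 0 (n 0 z (n 0 z (n 0 z (n 0 z z)))) (n 0 (n 0 z (n 0 z (n 0 z (n 0 z z))))
 z))))))) (n 3 (n 0 (n 0 z (n 0 z (n 0 z (n 0 z z)))) (n 0 (n 0 z (n 0 z (n 0 z (n 0 z z)))) (n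
 0 (n 0 z (n 0 z (n 0 (n 8873283 z z) (n 0 z z)))) (n 0 (n 0 z (n 0 (n
 0x872871403830c8ea84078208208208208208608618208208608208218208208208608208208208208608208218208201001
 z (n
 0x10e908240785f8217df81f8208617e08218208218208208607de8607e08217df8208208218608208218200801 z
 z)) (n 0 z (n 0 (n
 0x538747b8b827e6c97759b7c668e687b809e777171aeb34d9a5f4d57816ca0985b9f2d6482698b9092c69eab97709e77805f718f770049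
 z (n
 0x3043080e038617a081f81e8208618608627df8608208a085e7de8217df8617de7e08608218608208617df0801 z
 z)) z)))) (n 0 (n 0 z (n 0 z (n 0 z (n 0 z z)))) (n 0 (n 0 z (n 0 z (n 0 z (n 0 z z)))) (n 0 (n
 0 z (n 0 z (n 0 z (n 0 z z)))) (n 0 (n 0 z (n 0 (n 8798547 z z) (n 0 z (n 0 (n 8798547 z z)
 z)))) (n 0 (n 0 (n 8855811 z z) (n 0 z (n 0 z (n 0 z z)))) (n 0 (n 0 (n
 0x1b8747f6d8083748d6d9f768c827a807c877e7e74756775788f64956777888c70898c957f81609c71a370956a796c8e88896b818e0049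
 z z) (n 0 (n
 0x1387481f8627e082382186081e8217df89f81f7e081f89f7e08217a07e08608218607e08218608200041 z (n
 0x874874203810eb0842078608207e08208208617e18218208207e082081f81e85f8207e081f8607e18218207e18208201001
 z z)) (n 0 (n
 0x148747e6d707fa26e728f6e9f889180805a7d78954044805db96bca699a83717187d3bc91864686688a527d3d9150ab8abc6a7d940049
 z (n
 0x3b8747fc8188047ff7bd8437d08318107bf80c7c57fc8008427f97f47c486e8897768547ad7947898107b884784c7ac83f7027af8157ca8368178388a085687784e7d58387e37f27ab7db8057f10051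
 z z)) (n 0 (n 2164859 z (n 2164859 z z)) z)))) (n 0 (n 0 z (n 0 (n 2164795 z (n 2164795 z z))
 (n 0 (n 8860683 z (n 8860683 z z)) (n 0 (n 2164795 z (n 2164795 z z)) z)))) (n 0 (n 0 (n
 5380155 z z) (n 0 z (n 0 (n 5380155 z (n 8798323 z z)) (n 0 z z)))) z)))))))))))) (n 1 (n 0 (n
 0 z (n 0 z (n 0 (n
 0x3b8317fc8188047ff7bd8437d08318107bf80c7c57fc8008427f97f47c486e8897768547ad7947898107b884784c7ac83f7027af8157ca8368178388a085687784e7d58387e37f27ab7db8057f10051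
 z z) (n 0 z z)))) (n 0 (n 0 z (n 0 z (n 0 (n 8782363 z z) (n 0 z z)))) (n 0 (n 0 z (n 0 z (n 0
 z (n 0 z z)))) (n 0 (n 0 z (n 0 (n 3278955 z z) (n 0 z (n 0 (n 3278955 z z) z)))) (n 0 (n 0 z
 (n 0 z (n 0 z (n 0 z z)))) (n 0 (n 0 z (n 0 z (n 0 z (n 0 z z)))) (n 0 (n 0 z (n 0 z (n 0 z (n
 0 z z)))) (n 0 (n 0 z (n 0 z (n 0 z (n 0 z z)))) (n 0 (n 0 z (n 0 (n 8798547 z z) (n 0 z (n 0
 (n 8798547 z z) z)))) (n 0 (n 0 z (n 0 (n 8798547 z z) (n 0 z (n 0 (n 8798547 z z) z)))) (n 0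
 (n 0 z (n 0 z (n 0 z (n 0 z z)))) (n 0 (n 0 z (n 0 z (n 0 (n
 0x2b830808b908549a9759a8c5c825c807ab5817e55c0ba4fb04f593b865f92a4699618507d6e9492a1c5a1b0b263ad707533779f6c0049
 z (n
 0x1b83080898d8454a1779589638163807caa817e5eb3ae59a759604986658f9d6e922d5a7e72908e9bb79ba5a869a473774279996f0049
 z z)) (n 0 z z)))) z)))))))))))) (n 0 (n 0 (n 0 z (n 0 z (n 0 (n
 0x4387380282c82880875f87d7c784482678780178a8017f78968057fd77e8cf8de7418a376477b72182878d84d8767a785167375b80f7bb8648208668e08868ad8a97ae8897ca7da72e7df8327c70051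
 z z) (n 0 z z)))) (n 0 (n 0 (n 8587051 z z) (n 0 z (n 0 (n 3283067 z (n 8798323 z z)) (n 0 z
 z)))) (n 0 (n 0 z (n 0 z (n 0 (n 8782363 z z) (n 0 z z)))) (n 0 (n 0 z (n 0 z (n 0 z (n 0 z
 z)))) (n 0 (n 0 z (n 0 (n
 0x874874203830e8e8420785f8217e181f82085f8227e18618208207e081f85f81f8208208208608208208207e08208201001
 z (n
 0x43a439901c0874843201830e8e8420785f8207e18207e08608217e18218208207e081f85f81f8208208208207e086082082082081f1801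
 z z)) (n 0 z (n 0 (n
 0x1874843201830e90e240382185e85f86286181f81f86085f81f81f81f82086181f85f7e082182182081f8208608608201001
 z (n
 0x4610a0c1c0e00d085020e077ff7d77f07ff80c7fb7c98327e08128107fa7f58007ea7fe7f08067a27c17b97d88597a287b7bc82a7f98057d383283984584a7f77a38357ba8537db82578b8247a986b7ec8a37cc7b78311011
 z z)) z)))) (n 0 (n 0 z (n 0 (n 8782363 z z) (n 0 z (n 0 (n 8782363 z z) z)))) (n 0 (n 0 z (n 0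
 (n 2164827 z (n 2164827 z z)) (n 0 z (n 0 (n 2164827 z (n 2164827 z z)) z)))) (n 0 (n 0 z (n 0
 (n
 0x2384180898d8454a1779589638163817cab817d5eb3ae59a659624984668e9d6e922d5a7e72908e9ab79aa5a869a473774379996f0049
 z (n
 0x2b841808b908549a9759a8c5c825c807ab5817e55c0ba4fb04f593b865f92a4699618507d6e9492a1c5a1b0b263ad707533779f6c0049
 z z)) (n 0 (n
 0x2b841808b908549a9759a8c5c825c807ab5817e55c0ba4fb04f593b865f92a4699618507d6e9492a1c5a1b0b263ad707533779f6c0049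
 z (n
 0x2b841808b908549a9759a8c5c825c807ab5817e55c0ba4fb04f593b865f92a4699618507d6e9492a1c5a1b0b263ad707533779f6c0049
 z z)) (n 0 (n 3278971 z (n 3278971 z z)) z)))) (n 0 (n 0 z (n 0 (n 8782363 z (n 8782363 z z))
 (n 0 (n 8782363 z (n 8782363 z z)) (n 0 (n 8782363 z (n 8782363 z z)) z)))) (n 0 (n 0 z (n 0 (n
 2164859 z (n 2164859 z z)) (n 0 (n
 0x1b8727f6d8083748d6d9f768c827a807c877e7e74756775788f64956777888c70898c957f81609c71a370956a796c8e88896b818e0049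
 z (n
 0xa1d21cc80e0050e90e82037fc7dc7ee7fa8407d28127f57ef83c8038327ff8037c37fb7f983179078084d7b085e81b8807d18317df7d681a7e58cb8617f78247af8127c37b97ae7c679a81e7af82e8168687fb7f28261011
 z z)) (n 0 (n
 0x1387481f8627e082382186081e8217df89f81f7e081f89f7e08217a07e08608218607e08218608200041 z (n
 0x3065082e078208607df8208208608207e186082082086081f85f81f82082082082182086081f8208208200801 z
 z)) z)))) z)))))))))) z))))))))))))))))))))) z)))) z) z)))) z)))), by decide +kernel⟩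

theorem g7_61 : RgOk KT RW [10825, 10835, 10845, 10853, 10861, 10865] := ⟨i10825, ⟨i10835, ⟨i10845, ⟨i10853, ⟨i10861, True.intro⟩⟩⟩⟩⟩

end Pool.Agent.Lib.EPS9
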