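import Pool.Agent.Lib.MP_c7e7f6_eps.Core4
import Pool.Agent.Lib.MP_c7e7f6_eps.KtAll

/-!
Extensions of the words from number 10865 on.
-/

set_option autoImplicit false

namespace Pool.Agent.Lib.EPS9

open Tr

theorem i10865 : ∃ t, chkR KT RW t 10865 10875 = true := ⟨(n
 0xd0c545ae2a1d8d50ae96c15c508b1a9287132c469cb4448ba1a45d811b0b20572b025ae005d8c0 (n 0xbb1a (n
 153 (n 2 z (n 6423883 z (n 5445131 z (n 3282443 z (n 10 z (n 18 z (n 26 z z))))))) (n 249 (n 0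
 z (n 34 z (n 0 z (n 0 z (n 0 z (n 0 z (n 0 z (n 3278363 z (n 0 z (n 0 z z)))))))))) (n 129 (n
 42 z (n 6423883 z (n 0 z (n 50 z (n 0 z (n 3212843 z (n 0 z z))))))) (n 3 (n 58 z (n 66 z (n 0
 z (n 6488603 z z)))) (n 1 (n 74 z (n 6558507 z (n 0 z (n 6558507 z (n 0 z (n 0 z (n 0 z (n 0 z
 (n 82 z (n 0 z (n 0 z (n 0 z (n 0 z (n 0 z z)))))))))))))) (n 0 (n
 0x306d840b7cb0816f861080078686e8007e686a8b776361398f7969e68008007d28007d079674984183b6c18d49b27b08a49c07766ac95e95296a4d67d49ba72c5ec6c6314c928278e29c17d88fb9605f388f78651700d1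
 z (n
 0x306d880b7cb1016f862080078686e8007e686a8b776361398f7969e68008007d28007d079674984183b6c18d49b27b08a49c07766ac95e95296a4d67d49ba72c5ec6c6314c928278e29c17d88fb9605f388f78651700d1
 z (n 90 z (n 2164315 z (n 98 z (n
 0x8c86c86403808a878083898c71647d76957b807180827776848279949b83968e7d799782757c68a1625b746c967e808c7caa9f7e7c846e0809
 z (n
 0x164364020182ca28604078239a08e285c6207a68216e085e7a18a09257a491a76875d81cb1c7225e389c820aa661e91c1001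
 z (n 0x1d6108208e89256dd62076582072089b7618219677ea81d76b7198dd95b5e27e0820867adf6de8dd0041 z
 (n
 0x306d840b7cb0816f861080078686e8007e686a8b776361398f7969e68008007d28007d079674984183b6c18d49b27b08a49c07766ac95e95296a4d67d49ba72c5ec6c6314c928278e29c17d88fb9605f388f78651700d1
 z (n 106 z (n 0 z (n 0 z (n
 0x306d880b7cb1016f862080078686e8007e686a8b776361398f7969e68008007d28007d079674984183b6c18d49b27b08a49c07766ac95e95296a4d67d49ba72c5ec6c6314c928278e29c17d88fb9605f388f78651700d1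
 z (n 0x1d6408208e89256dd62076582072089b7618219677ea81d76b7198dd95b5e27e0820867adf6de8dd0041 z
 (n 114 z z))))))))))))))) z)))))) (n 3 (n 0 (n 0 z (n 0 z (n 0 z (n 1243 (n 0 z (n 0 z (n 0 z
 (n 0 z (n 0 z (n 0 z (n 0 z (n 0 z (n 0 z z))))))))) (n 1239 (n 0 z (n 0 z (n 0 z (n 0 z (n 0 z
 (n 0 z (n 0 z z))))))) (n 1239 (n 0 z (n 0 z (n 0 z (n 0 z (n 0 z (n 0 z (n 2 (n 2 (n 0 z (n 0
 z (n 0 z (n 0 z (n 0 z (n 0 z z)))))) (n 1 z (n 2 (n 0 z (n 0 z (n 0 z (n 0 z (n 0 z (n 0 z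
 z)))))) (n 1 z (n 1 z (n 2 (n 0 z (n 0 z (n 0 z (n 0 z (n 0 z (n 0 z z)))))) (n 1 z (n 2 (n 0
 (n 1204 z z) (n 0 z (n 0 (n 1204 z z) (n 0 z (n 0 z (n 0 (n 8590923 z (n 8590923 z z)) z))))))
 z)))))))) z))))))) (n 1237 (n 0 z (n 0 z (n 0 z (n 0 z (n 0 z (n 0 z (n 0 z (n 0 z (n 0 z (n 0
 z (n 0 z (n 0 z z)))))))))))) (n 1237 (n 0 z (n 0 z (n 0 z (n 0 z (n 0 z (n 0 z (n 0 z (n 0 z
 (n 0 z (n 0 z (n 0 z (n 0 z z)))))))))))) (n 193 (n 0 z (n 0 z (n 0 z (n 0 z (n 0 z (n 0 z (n 0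
 z (n 0 z z)))))))) (n 193 (n 0 z (n 0 z (n 0 z (n 0 z (n 0 z (n 0 z (n 0 z (n 0 z z)))))))) (n
 301 (n 0 z (n 0 z (n 0 z (n 2 (n 0 z (n 0 z (n 0 z z))) (n 0 z (n 0 z (n 0 z (n 0 z (n 0 z (n 0
 z (n 0 z z))))))))))) (n 301 (n 0 z (n 0 z (n 0 z (n 0 z (n 0 z (n 0 z (n 0 z (n 0 z (n 0 z (n
 0 z (n 0 z z))))))))))) (n 301 (n 0 z (n 0 z (n 0 z (n 0 z (n 0 z (n 0 z (n 0 z (n 0 z (n 0 z
 (n 0 z (n 0 z z))))))))))) (n 301 (n 0 z (n 0 z (n 0 z (n 0 z (n 0 z (n 0 z (n 0 z (n 0 z (n 0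
 z (n 0 z (n 0 z z))))))))))) z)))))))))))))) (n 0 (n 0 z (n 0 z (n 583 (n 2 (n 2 (n 0 z (n 0 z
 (n 0 z (n 0 z (n 0 z (n 0 z z)))))) (n 1 z (n 2 (n 0 z (n 0 z (n 0 z (n 0 z (n 0 z (n 0 z
 z)))))) (n 1 z (n 2 (n 0 z (n 0 z (n 0 z (n 0 z (n 0 z (n 0 z z)))))) (n 1 z (n 1 z (n 2 (n 0 z
 (n 0 z (n 0 z (n 0 z (n 0 z (n 0 z z)))))) (n 1 z (n 2 (n 0 (n 2164 z z) (n 0 z (n 0 (n 2164 z
 z) (n 0 z (n 0 z (n 0 (n 2164 z (n 2164 z z)) z)))))) z)))))))))) (n 0 z (n 0 z (n 0 z (n 0 z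
 (n 0 z z)))))) (n 1167 (n 0 z (n 0 z (n 0 z (n 0 z (n 0 z (n 0 z (n 0 z (n 0 z (n 0 z (n 2 (n 0
 z (n 2 (n 0 z (n 0 z (n 0 z (n 0 z (n 0 z (n 0 z z)))))) (n 2 (n 0 z (n 0 z (n 0 z (n 0 z (n 0
 z (n 0 z z)))))) (n 2 (n 0 z (n 0 z (n 0 z (n 0 z (n 0 z (n 0 z z)))))) (n 2 (n 0 z (n 0 z (n 0
 z (n 0 z (n 0 z (n 0 z z)))))) (n 2 (n 0 (n 8873011 z z) (n 0 z (n 0 z (n 0 z (n 0 z (n 0 (n
 8873011 z (n 8873011 z z)) z)))))) (n 2 (n 0 z (n 0 z (n 0 z (n 0 z (n 0 z (n 0 z z)))))) (n 1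
 z (n 2 (n 0 z (n 0 (n 8869387 z z) (n 0 z (n 0 (n 8591179 z z) (n 0 z (n 0 (n 2164 z (n 2164 z
 z)) z)))))) z))))))))) (n 0 z (n 0 z (n 0 z z))))))))))))) (n 1167 (n 0 z (n 0 z (n 0 z (n 0 z
 (n 0 z (n 0 z (n 0 z (n 0 z (n 0 z (n 0 z (n 0 z (n 0 z (n 0 z z))))))))))))) (n 535 (n 0 z (n
 0 z (n 0 z (n 0 z (n 0 z (n 0 z (n 0 z (n 0 z (n 0 z (n 0 z (n 0 z (n 0 z (n 0 z (n 0 z (n 0 z
 (n 0 z (n 0 z z))))))))))))))))) (n 535 (n 0 z (n 0 z (n 0 z (n 0 z (n 0 z (n 0 z (n 0 z (n 0 z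
 (n 0 z (n 0 z (n 0 z (n 0 z (n 0 z (n 0 z (n 0 z (n 0 z (n 0 z z))))))))))))))))) (n 543 (n 0 z
 (n 0 z (n 0 z (n 0 z (n 0 z (n 0 z (n 0 z (n 0 z (n 0 z (n 0 z (n 0 z (n 0 z (n 0 z (n 0 z (n 0
 z (n 0 z (n 0 z (n 0 z z)))))))))))))))))) (n 543 (n 0 z (n 0 z (n 0 z (n 0 z (n 0 z (n 0 z (n
 0 z (n 0 z (n 0 z (n 0 z (n 0 z (n 0 z (n 0 z (n 0 z (n 0 z (n 0 z (n 0 z (n 0 z
 z)))))))))))))))))) (n 541 (n 0 z (n 0 z (n 0 z (n 0 z (n 0 z (n 0 z (n 0 z (n 0 z (n 0 z (n 0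
 z (n 0 z (n 0 z (n 0 z z))))))))))))) (n 541 (n 0 z (n 0 z (n 0 z (n 0 z (n 0 z (n 0 z (n 0 z
 (n 0 z (n 0 z (n 0 z (n 0 z (n 0 z (n 0 z z))))))))))))) (n 541 (n 0 z (n 0 z (n 0 z (n 0 z (n
 0 z (n 0 z (n 0 z (n 0 z (n 0 z (n 0 z (n 0 z (n 0 z (n 0 z z))))))))))))) (n 541 (n 0 z (n 0 z
 (n 0 z (n 0 z (n 0 z (n 0 z (n 0 z (n 0 z (n 0 z (n 0 z (n 2 z (n 0 z (n 0 z z)))))))))))))
 z))))))))))))) (n 0 (n 0 z (n 1159 (n 0 z (n 0 z (n 0 z (n 0 z (n 0 z (n 0 z z)))))) (n 343 (n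
 0 z (n 0 z (n 0 z (n 0 z (n 0 z (n 0 z (n 0 z (n 0 z (n 0 z (n 0 z (n 0 z (n 0 z (n 0 z (n 0 z
 (n 0 z (n 0 z (n 0 z (n 0 z (n 0 z (n 0 z (n 0 z (n 0 z (n 0 z (n 0 z (n 0 z (n 0 z
 z)))))))))))))))))))))))))) (n 343 (n 0 z (n 0 z (n 0 z (n 0 z (n 0 z (n 0 z (n 0 z (n 0 z (n 0
 z (n 0 z (n 0 z (n 0 z (n 0 z (n 0 z (n 0 z (n 0 z (n 0 z (n 0 z (n 0 z (n 0 z (n 0 z (n 0 z (n
 0 z (n 0 z (n 0 z (n 0 z z)))))))))))))))))))))))))) (n 1165 (n 0 z (n 0 z (n 0 z (n 0 z (n 0 z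
 (n 0 z (n 0 z (n 0 z (n 0 z (n 0 z (n
 0x19d959508060cecaca2403807f9880a286637b5f8e7e958a807480787a9e749d8a83835e7a884f70b1646c7ea78d9f75b757869d50729092852d7cab581009
 z (n
 0x33761809279807b7d986d86737a7f83797780857d70837f7598879196898b6c818e787f6e95756b6f768b6a907a84a28d937d84830049
 z (n 0 z (n 0 z (n 0 z (n 0 z (n 0 z z))))))))))))))))) (n 1165 (n 0 z (n 0 z (n 0 z (n 0 z (n
 0x2ecaec840379d59c6e16ab8ac95a820a1e85fa1d79e59f6177a8817a5c8e8429630b19cdf9602a04216df0801 z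
 (n 0 z (n 0 z (n 0 z (n 0 z (n 0 z (n 0 z (n 0 z (n 0 z (n 0 z (n 0 z (n 0 z (n 0 z
 z))))))))))))))))) (n 351 (n 0 z (n 0 z (n 0 z (n 0 z (n 0 z (n 0 z (n 0 z (n 0 z (n 0 z (n 0 z
 (n 0 z (n 0 z (n 0 z (n 0 z (n 0 z (n 0 z (n 0 z (n 0 z (n 0 z (n 0 z z)))))))))))))))))))) (n
 351 (n 0 z (n 0 z (n 0 z (n 0 z (n 0 z (n 0 z (n 0 z (n 0 z (n 0 z (n 0 z (n 0 z (n 0 z (n 0 z
 (n 0 z (n 0 z (n 0 z (n 0 z (n 0 z (n 0 z (n 0 z z)))))))))))))))))))) (n 349 (n 0 z (n 2 (n 0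
 z (n 0 z (n 0 z z))) (n 0 z (n 0 z (n 0 z (n 0 z (n 0 z (n 0 z (n 0 z (n 0 z (n 0 z
 z))))))))))) (n 349 (n 0 z (n 0 z (n 0 z (n 0 z (n 0 z (n 0 z (n 0 z (n 0 z (n 0 z (n 0 z (n 0
 z z))))))))))) (n 349 (n 0 z (n 0 z (n 0 z (n 0 z (n 0 z (n 0 z (n 0 z (n
 0x2ec6ec480379d59c6e16ab8ac95a820a1e85fa1d79e59f6177a8817a5c8e8429630b19cdf9602a04216df0801 z
 (n 0 z (n 0 z (n 0 z z))))))))))) (n 349 (n 0 z (n 0 z (n 0 z (n 0 z (n 0 z (n 0 z (n 0 z (n 0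
 z (n 0 z (n 0 z (n 0 z z))))))))))) z)))))))))))) (n 0 (n 739 (n 0 z (n 0 z (n 0 z (n 0 z (n 0
 z (n 0 z (n 0 z (n 0 z (n 0 z z))))))))) (n 19 (n 0 z (n 0 z (n 0 z (n 0 z (n 0 z (n 0 z (n 0 z
 (n 0 z (n 0 z (n 0 z (n 0 z (n 0 z (n 0 z (n 0 z (n 0 z (n 0 z (n 0 z (n 0 z (n 0 z (n 0 z
 z)))))))))))))))))))) (n 19 (n 0 z (n 0 z (n 0 z (n 0 z (n 0 z (n 0 z (n 0 z (n 0 z (n 0 z (n 0
 z (n 0 z (n 0 z (n 0 z (n 0 z (n 0 z (n 0 z (n 0 z (n 0 z (n 0 z (n 0 z z))))))))))))))))))))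
 (n 247 (n 0 z (n 0 z (n 0 z (n 0 z (n 0 z (n 0 z (n 0 z (n 0 z (n 0 z (n 0 z (n 0 z
 z))))))))))) (n 247 (n 0 z (n 0 z (n 0 z (n 0 z (n 0 z (n 0 z (n 0 z (n 0 z (n 0 z (n 0 z (n 0
 z z))))))))))) (n 15 (n 0 z (n 0 z (n 0 z (n 0 z (n 0 z (n 0 z (n 0 z z))))))) (n 15 (n 0 z (n
 0 z (n 0 z (n 0 z (n 0 z (n 0 z (n 0 z z))))))) (n 13 (n 0 z (n 0 z (n 0 z (n 2 (n 0 z (n 0 z
 (n 0 z z))) (n 0 z (n 0 z (n 0 z (n 0 z (n 0 z (n 0 z (n 0 z (n 0 z (n 0 z (n 0 z (n 0 z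
 z))))))))))))))) (n 13 (n 0 z (n 0 z (n 0 z (n 0 z (n 0 z (n 0 z (n 0 z (n 0 z (n 0 z (n 0 z (n
 0 z (n 0 z (n 0 z (n 0 z (n 0 z z))))))))))))))) (n 13 (n 0 z (n 0 z (n 0 z (n 0 z (n 0 z (n 0
 z (n
 0x1dd91d08c0e06ea8c864078091987f91848572667d7b927f806f807d7b7f7f8c80929075878e677ba370807e82a76e668e698a7f67807baa95647d93701009
 z (n 0x1d7618208e89256dd62076582072089b7618219677ea81d76b7198dd95b5e27e0820867adf6de8dd0041 z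
 (n 0 z (n 0 z (n 0 z (n 0 z (n 0 z (n 0 z (n 0 z z))))))))))))))) (n 13 (n 0 z (n 0 z (n 0 z (n
 0 z (n 0 z (n 0 z (n 0 z (n 0 z (n 0 z (n 0 z (n 0 z (n 0 z (n 0 z (n 0 z (n 0 z
 z))))))))))))))) z))))))))))) (n 0 (n 1287 (n 0 z (n 0 z (n 0 z (n 0 z (n 0 z (n 0 z z)))))) (n
 1287 (n 0 z (n 0 z (n 0 z (n 0 z (n 0 z (n 2 (n 2 (n 0 z (n 0 z (n 0 z (n 0 z (n 0 z (n 0 (n
 8587115 z z) z)))))) (n 1 z (n 1 z (n 1 z (n 1 z (n 1 z (n 1 z (n 1 z z)))))))) z)))))) (n 1285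
 (n 0 z (n 0 z (n 0 z (n 0 z (n 0 z (n 0 z (n 0 z z))))))) (n 1285 (n 0 z (n 0 z (n 0 z (n 0 z
 (n 2 (n 2 (n 0 z (n 0 z (n 0 z (n 0 z (n 0 z (n 0 (n 3278955 z z) z)))))) (n 1 z (n 1 z (n 1 z
 (n 1 z (n 1 z z)))))) (n 0 z (n 0 z z))))))) (n 495 (n 0 z (n 0 z (n 0 z (n 0 z (n 0 z (n 0 z
 (n 0 z (n 0 z (n 0 z z))))))))) (n 495 (n 0 z (n 0 z (n 0 z (n 2 (n 1 z (n 1 z (n 1 z (n 1 z
 z)))) (n 0 z (n 0 z (n 0 z (n 0 z (n 0 z z))))))))) (n 493 (n 0 z (n 0 z (n 0 z (n 0 z (n 2 (n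
 0 z (n 0 z (n 0 z z))) (n 0 z (n 0 z (n 0 z (n 0 z (n 0 z (n 0 z (n 0 z (n 0 z z)))))))))))))
 (n 493 (n 0 z (n 0 z (n 0 z (n 0 z (n 0 z (n 0 z (n 0 z (n 0 z (n 0 z (n 0 z (n 0 z (n 0 z (n 0
 z z))))))))))))) (n 493 (n 0 z (n 0 z (n 0 z (n 0 z (n 0 z (n 0 z (n 2 (n 0 z z) (n 0 z (n 0 z
 (n 0 z (n 0 z (n 0 z (n 0 z z))))))))))))) (n 493 (n 0 z (n 0 z (n 0 z (n 0 z (n 0 z (n 0 z (n
 0 z (n 0 z (n 0 z (n 0 z (n 0 z (n 0 z (n 0 z z))))))))))))) z)))))))))) (n 0 (n 0 z (n 1333 (n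
 0 z (n 0 z (n 0 z (n 0 z (n 0 z (n 0 z (n 0 z (n 0 z (n 0 z (n 0 z (n 0 z (n 0 z (n 0 z (n 0 z
 (n 0 z (n 0 z (n 0 z (n 0 z (n 0 z (n 0 z (n 0 z (n 0 z (n 0 z (n 0 z (n 0 z (n 0 z (n 0 z (n 0
 z (n 0 z (n 0 z (n 0 z (n 0 z (n 0 z (n 0 z (n 0 z (n 0 z (n 0 z (n 0 z (n 0 z (n 0 z (n 0 z (n
 0 z (n 0 z (n 0 z (n 0 z (n 0 z (n 0 z (n 0 z (n 0 z (n 0 z (n 0 z
 z))))))))))))))))))))))))))))))))))))))))))))))))))) (n 1333 (n 0 z (n 0 z (n 0 z (n 0 z (n 0 z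
 (n 0 z (n 0 z (n 0 z (n 0 z (n 0 z (n 0 z (n 0 z (n 0 z (n 0 z (n 0 z (n 0 z (n 0 z (n 0 z (n 0
 z (n 0 z (n 0 z (n 2 (n 2 (n 0 z (n 0 z (n 0 z (n 0 z (n 0 z (n 0 z z)))))) (n 1 z (n 2 (n 0 (n
 6559835 z z) (n 0 z (n 0 z (n 0 z (n 0 z (n 0 (n 1012 z (n 1012 z z)) z)))))) (n 1 z (n 1 z (n
 2 (n 0 z (n 0 z (n 0 (n 1012 z z) (n 0 z (n 0 (n 1012 z z) (n 0 (n 8590923 z (n 8590923 z z))
 z)))))) z)))))) (n 0 z (n 0 z (n 0 z (n 0 z (n 0 z (n 0 z (n 0 z (n 0 z (n 0 z (n 0 z (n 0 z (n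
 0 z (n 0 z (n 0 z (n 0 z (n 0 z (n 0 z (n 0 z (n 0 z (n 0 z (n 0 z (n 0 z (n 0 z (n 0 z (n 0 z
 (n 0 z (n 0 z (n 0 z (n 0 z z))))))))))))))))))))))))))))))))))))))))))))))))))) (n 3 (n 0 z (n
 0 z (n 0 z (n 0 z (n 0 z (n 0 z (n 0 z (n 0 z z)))))))) (n 3 (n 0 z (n 0 z (n 0 z (n 0 z (n 0 z
 (n 0 z (n 0 z (n 0 z z)))))))) (n 253 (n 0 z (n 0 z (n 0 z (n 2 (n 0 z (n 0 z (n 0 z z))) (n 0
 z (n 0 z (n 0 z (n 0 z (n 0 z (n 0 z (n 0 z (n 0 z z)))))))))))) (n 253 (n 0 z (n 0 z (n 0 z (n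
 0 z (n 0 z (n 0 z (n 0 z (n 0 z (n 0 z (n 0 z (n 0 z (n 0 z z)))))))))))) (n 253 (n 0 z (n 0 z
 (n 0 z (n 0 z (n 0 z (n 2 (n 0 z z) (n 0 z (n 0 z (n 0 z (n 0 z (n 0 z (n 0 z z)))))))))))) (n
 253 (n 0 z (n 0 z (n 0 z (n 0 z (n 0 z (n 0 z (n 0 z (n 0 z (n 0 z (n 0 z (n 0 z (n 0 z
 z)))))))))))) z))))))))) (n 0 (n 7 (n 0 z (n 2 (n 0 z (n 2 (n 0 z (n 0 z (n 0 z (n 0 z (n 0 z
 (n 0 (n 2164859 z z) z)))))) (n 1 z (n 1 z (n 1 z (n 1 z (n 1 z z))))))) (n 0 z (n 0 z (n 0 z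
 (n 0 z (n 0 z (n 0 z z)))))))) (n 7 (n 0 z (n 0 z (n 0 z (n 0 z (n 0 z (n 0 z (n 0 z (n 0 z
 z)))))))) (n 255 (n 0 z (n 0 z (n 0 z (n 0 z (n 0 z (n 0 z (n 0 z (n 0 z z)))))))) (n 255 (n 0
 z (n 0 z (n 0 z (n 0 z (n 0 z (n 0 z (n 0 z (n 0 z z)))))))) (n 257 (n 0 z (n 0 z (n 0 z (n 0 z
 (n 0 z (n 0 z (n 0 z (n 0 z (n 0 z (n 0 z (n 0 z (n 0 z (n 0 z (n 0 z (n 0 z (n 0 z (n 0 z (n 0
 z (n 0 z (n 0 z z)))))))))))))))))))) (n 257 (n 0 z (n 0 z (n 0 z (n 2 (n 0 z (n 0 z z)) (n 0 z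
 (n 0 z (n 0 z (n 0 z (n 0 z (n 0 z (n 0 z (n 0 z (n 0 z (n 0 z (n 0 z (n 0 z (n 0 z (n 0 z (n 0
 z (n 0 z z)))))))))))))))))))) (n 257 (n 0 z (n 0 z (n 0 z (n 0 z (n 0 z (n 0 z (n 0 z (n 0 z
 (n 0 z (n 0 z (n 0 z (n 0 z (n 0 z (n 0 z (n 0 z (n 0 z (n 0 z (n 0 z (n 0 z (n 0 z
 z)))))))))))))))))))) (n 257 (n 0 z (n 0 z (n 0 z (n 0 z (n 0 z (n 2 z (n 0 z (n 0 z (n 0 z (n
 0 z (n 0 z (n 0 z (n 0 z (n 0 z (n 0 z (n 0 z (n 0 z (n 0 z (n 0 z (n 0 z z))))))))))))))))))))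
 z)))))))) (n 0 (n 0 z (n 3 (n 0 z (n 0 z (n 0 z (n 0 z (n 0 z (n 0 z (n 0 z z))))))) (n 3 (n 0
 z (n 0 z (n 0 z (n 0 z (n 0 z (n 0 z (n 0 z z))))))) (n 1 (n 0 z (n 0 z (n 2 (n 0 z (n 0 z (n 0
 z z))) (n 0 z (n 0 z (n 0 z (n 0 z (n 0 z (n 0 z (n 0 z (n 0 z (n 0 z z)))))))))))) (n 1 (n 0 z
 (n 0 z (n 0 z (n 0 z (n 0 z (n 0 z (n 0 z (n 0 z (n 0 z (n 0 z (n 0 z (n 0 z z)))))))))))) (n 1
 (n 0 z (n 0 z (n 0 z (n 0 z (n 0 z (n 0 z (n 0 z (n 0 z (n 0 z (n 0 z (n 0 z (n 0 z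
 z)))))))))))) (n 1 (n 0 z (n 0 z (n 0 z (n 0 z (n 0 z (n 0 z (n 0 z (n 0 z (n 0 z (n 0 z (n 0 z
 (n 0 z z)))))))))))) z))))))) (n 0 (n 51 (n 0 z (n 0 z (n 0 z (n 0 z (n 0 z (n 0 z (n 0 z (n 0
 z z)))))))) (n 51 (n 0 z (n 0 z (n 0 z (n 0 z (n 0 z (n 0 z (n 0 z (n 0 z z)))))))) (n 49 (n 0
 z (n 0 z (n 0 z (n 0 z (n 0 z (n 0 z (n 0 z (n 0 z (n 0 z (n 0 z (n 0 z (n 0 z z)))))))))))) (n
 49 (n 0 z (n 0 z (n 0 z (n 0 z (n 0 z (n 0 z (n 0 z (n 0 z (n 0 z (n 0 z (n 0 z (n 0 z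
 z)))))))))))) (n 49 (n 0 z (n 0 z (n 0 z (n 0 z (n 0 z (n 0 z (n 0 z (n 0 z (n 0 z (n 0 z (n 0
 z (n 0 z z)))))))))))) (n 49 (n 0 z (n 0 z (n 0 z (n 0 z (n 0 z (n 0 z (n 0 z (n 0 z (n 0 z (n
 0 z (n 0 z (n 0 z z)))))))))))) z)))))) (n 0 (n 0 z (n 5 (n 0 z (n 0 z (n 0 z (n 0 z (n 0 z (n
 0 z (n 0 z (n 0 z (n 0 z (n 0 z (n 0 z (n 2 (n 0 z (n 0 z (n 0 z z))) (n 0 z (n 0 z
 z)))))))))))))) (n 5 (n 0 z (n 0 z (n 0 z (n 0 z (n 0 z (n 0 z (n 0 z (n 0 z (n 0 z (n 0 z (n 0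
 z (n 0 z (n 0 z (n 0 z z)))))))))))))) (n 5 (n 0 z (n 0 z (n 0 z (n 0 z (n 0 z (n 0 z (n 0 z (n
 0 z (n 0 z (n 0 z (n 0 z (n 0 z (n 0 z (n 0 z z)))))))))))))) (n 5 (n 0 z (n 0 z (n 0 z (n 0 z
 (n 0 z (n 0 z (n 0 z (n 0 z (n 0 z (n 0 z (n 0 z (n 0 z (n 0 z (n 0 z z)))))))))))))) z))))) (n
 0 (n 53 (n 0 z (n 0 z (n 0 z (n 0 z (n 0 z (n 0 z (n 0 z (n 0 z (n 0 z (n 0 z (n 0 z (n 0 z (n
 0 z (n 0 z z)))))))))))))) (n 53 (n 0 z (n 0 z (n 0 z (n 0 z (n 0 z (n 0 z (n 0 z (n 0 z (n 0 z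
 (n 0 z (n 0 z (n 0 z (n 0 z (n 0 z z)))))))))))))) (n 53 (n 0 z (n 0 z (n 0 z (n 0 z (n 0 z (n
 0 z (n 0 z (n 0 z (n 0 z (n 0 z (n 0 z (n 0 z (n 0 z (n 0 z z)))))))))))))) (n 53 (n 0 z (n 0 z
 (n 0 z (n 0 z (n 0 z (n 0 z (n 0 z (n 2 z (n 0 z (n 0 z (n 0 z (n 0 z (n 0 z (n 0 z
 z)))))))))))))) z)))) (n 0 (n 0 z (n 0 z (n 0 z z))) (n 0 (n 0 z (n 0 z z)) (n 0 (n 0 z z) (n 0
 z z))))))))))))))) (n 0 (n 1 (n 1228 z (n 1228 z (n 1228 z (n 6558507 z (n 2 z (n 1228 z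
 z)))))) (n 1 (n 1228 z (n 1228 z (n 6558507 z (n 1228 z (n 1996 z (n 1228 z z)))))) (n 0 z (n 1
 (n 6488603 z (n 6488603 z (n 6488603 z (n 6488603 z (n 6488603 z (n 6488603 z z)))))) z)))) (n
 0 (n 0xa15d2d (n 0 (n 0 (n 2164587 z (n 2164587 z (n 7542347 z (n 2164587 z (n 2164587 z (n
 2164587 z z)))))) z) (n 0 (n 153 (n 1 (n 3282795 z (n 3282795 z (n 7542347 z (n 3282795 z (n
 3282795 z (n 3282795 z z)))))) (n 1 (n 7472459 z (n 7472459 z (n 7472459 z (n 7472459 z (n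
 7472459 z (n 7472459 z z)))))) (n 1 (n 5445387 z (n 5445387 z (n 5445387 z (n 5445387 z (n
 5445387 z (n 5445387 z z)))))) (n 1 (n 3282699 z (n 3282699 z (n 3282699 z (n 3282699 z (n
 3282699 z (n 3282699 z z)))))) (n 1 (n 4972 z (n 4948 z (n 4972 z (n 4972 z (n 7542347 z (n
 4972 z z)))))) (n 1 (n 4972 z (n 4972 z (n 7542347 z (n 4972 z (n 4972 z (n 4972 z z)))))) (n 1
 (n 4972 z (n 6559499 z (n 4972 z (n 7542347 z (n 4972 z (n 4972 z z)))))) z))))))) (n 643 (n 0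
 z (n 1 (n 4392731 z (n 3278619 z (n 4392731 z (n 4392731 z (n 4392731 z (n 4392731 z z)))))) (n
 1 (n 4392747 z (n 3278619 z (n 4392747 z (n 4392747 z (n 4392747 z (n 4392747 z z)))))) (n 0 z
 (n 0 z (n 1 (n 6629131 z (n 5164 z (n 1996 z (n 3278699 z (n 7607083 z (n 5164 z z))))))
 z)))))) (n 667 (n 0 z (n 1 (n 4392731 z (n 4392731 z (n 4392731 z (n 4392731 z (n 4392731 z (n
 4392731 z z)))))) (n 1 (n 4392747 z (n 3213099 z (n 4392747 z (n 4392747 z (n 4392747 z (n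
 4392747 z z)))))) (n 0 z (n 0 z (n 1 (n 6625035 z (n 5356 z (n 3213163 z (n 12 z (n 5356 z (n
 5356 z z)))))) z)))))) (n 3 (n 1 (n 2164587 z (n 2164587 z (n 7542347 z (n 2164587 z (n 2164587
 z (n 2164587 z z)))))) (n 1 (n 5548 z (n 5548 z (n 5548 z (n 5548 z (n 7542347 z (n 5548 z
 z)))))) (n 0 z (n 1 (n 7537179 z (n 7537179 z (n 7537179 z (n 7537179 z (n 7537179 z (n 7537179
 z z)))))) z)))) (n 3 (n 0 z (n 1 (n 2164555 z (n 2164555 z (n 2164555 z (n 2164555 z (n 7607083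
 z (n 2164555 z z)))))) (n 1 (n 4684 z (n 4684 z (n 6493963 z (n 7607083 z (n 3278699 z (n 4684
 z z)))))) (n 0 z (n 1 (n 7537179 z (n 7537179 z (n 7537179 z (n 7537179 z (n 7537179 z (n
 7537179 z z)))))) (n 0 z (n 0 z z))))))) (n 155 (n 1 (n
 0x306dc80b7cb9016f872080078686e8007e686a8b776361398f7969e68008007d28007d079674984183b6c18d49b27b08a49c07766ac95e95296a4d67d49ba72c5ec6c6314c928278e29c17d88fb9605f388f78651700d1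
 z (n 2012 z (n 2012 z (n 6555483 z (n 2012 z (n 2012 z z)))))) (n 1 (n 3282779 z (n 3282779 z
 (n 3282779 z (n 2164571 z (n 3282779 z (n 3282779 z z)))))) (n 1 (n 2012 z (n 2012 z (n 2012 z
 (n 2012 z (n 2012 z (n 2012 z z)))))) (n 1 (n 2012 z (n 2012 z (n 2012 z (n 4261723 z (n 2 z (n
 2012 z z)))))) (n 1 (n 7537179 z (n 7537179 z (n 7537179 z (n 7537179 z (n 7537179 z (n 7537179
 z z)))))) (n 1 (n 3282699 z (n 3282699 z (n 3282699 z (n 3282699 z (n 3282699 z (n 3282699 z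
 z)))))) (n 1 (n
 0x306dc40b7cb8816f871080078686e8007e686a8b776361398f7969e68008007d28007d079674984183b6c18d49b27b08a49c07766ac95e95296a4d67d49ba72c5ec6c6314c928278e29c17d88fb9605f388f78651700d1
 z (n 2012 z (n 2012 z (n 6358859 z (n 2012 z (n 2012 z z)))))) (n 1 (n 2012 z (n 2012 z (n 2012
 z (n 2164571 z (n 2012 z (n 2012 z z)))))) (n 1 (n
 0x1d7408208e89256dd62076582072089b7618219677ea81d76b7198dd95b5e27e0820867adf6de8dd0041 z (n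
 2012 z (n 2012 z (n 6358859 z (n 2012 z (n 2012 z z)))))) (n 0 z (n 1 (n 2012 z (n 2012 z (n
 0x306dc80b7cb9016f872080078686e8007e686a8b776361398f7969e68008007d28007d079674984183b6c18d49b27b08a49c07766ac95e95296a4d67d49ba72c5ec6c6314c928278e29c17d88fb9605f388f78651700d1
 z (n 2012 z (n 2012 z (n 2012 z z)))))) z))))))))))) (n 3 (n 1 (n 2164587 z (n 2164587 z (n
 2164587 z (n 7607083 z (n 2164587 z (n 2164587 z z)))))) (n 1 (n 1228 z (n 1228 z (n 7607083 z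
 (n 1228 z (n 1996 z (n 1228 z z)))))) (n 0 z (n 1 (n 7537179 z (n 7537179 z (n 7537179 z (n
 7537179 z (n 7537179 z (n 7537179 z z)))))) z)))) z))))))) (n 0 (n 0 (n 0 z z) z) (n 0 (n 645
 (n 0 (n 0 z z) (n 0 (n 0 z z) (n 0 (n 0 z z) (n 0 (n 0 z z) (n 0 (n 0 z z) (n 0 (n 0 z z) (n 0
 (n 0 z z) (n 0 (n 0 (n 8521035 z z) z) (n 0 (n 0 z z) z))))))))) (n 669 (n 0 (n 0 z z) (n 0 (n
 0 z z) (n 0 (n 0 z z) (n 0 (n 0 (n 8521035 z z) z) (n 0 (n 0 z z) (n 0 (n 0 z z) (n 0 (n 0 z z)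
 z))))))) (n 667 (n 0 (n 0 z z) (n 0 (n 0 z z) (n 0 (n 0 z z) (n 0 (n 0 z z) (n 0 (n 0 (n
 8521035 z z) z) (n 0 (n 0 z z) z)))))) (n 693 (n 0 (n 0 z z) (n 0 (n 0 z z) (n 0 (n 0 z z) (n 0
 (n 0 z z) (n 0 (n 0 z z) (n 0 (n 0 z z) (n 0 (n 0 z z) (n 0 (n 0 z z) (n 0 (n 0 z z) (n 0 (n 0
 z z) (n 0 (n 0 (n 8590923 z (n 8590923 z z)) z) (n 0 (n 0 (n 8656731 z (n
 0x10e6e84c038208208208217e082086082082085f81f86085f8208208207e08228207e081f8208218a08210801 z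
 z)) z) z)))))))))))) (n 691 (n 0 (n 0 z z) (n 0 (n 0 z z) (n 0 (n 0 (n
 0xd87286086381e7a17e086081f7e289f7df81f82282181e7e08218a185e7e081f7e18e085d81f8200041 z (n
 7755819 z z)) z) (n 0 (n 0 z z) (n 0 (n 0 z z) (n 0 (n 0 (n
 0xd87486086381e7a17e086081f7e289f7df81f82282181e7e08218a185e7e081f7e18e085d81f8200041 z (n
 0x1c864805a9184877263998d9292877f80948079909a7788865c656b53885e897e749068b064a8ab976884a26b907d3d6e508c7e680049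
 z z)) z) (n 0 (n 0 (n
 0x30e6e40c078187207616e86ae923820a2085f95c79e6236578a171da1c7a65ec6af6a0c20a623632a08910801 z
 (n
 0x876876201810eb0c04077e081f82181f81f89f8618607df86085f86082082182081f8208218208218607df8208208211001
 z z)) z) z))))))) (n 690 (n 0 (n 0 (n
 0x1c854805a9184877263998d9292877f80948079909a7788865c656b53885e897e749068b064a8ab976884a26b907d3d6e508c7e680049
 z (n
 0x1c854805a9184877263998d9292877f80948079909a7788865c656b53885e897e749068b064a8ab976884a26b907d3d6e508c7e680049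
 z z)) z) (n 0 (n 0 z z) (n 0 (n 0 (n 6621243 z (n 6621243 z z)) z) (n 0 (n 0 (n 6621243 z (n
 6621243 z z)) z) (n 0 (n 0 z z) (n 0 (n 0 (n
 0x1c854805a9184877263998d9292877f80948079909a7788865c656b53885e897e749068b064a8ab976884a26b907d3d6e508c7e680049
 z (n
 0x1c854805a9184877263998d9292877f80948079909a7788865c656b53885e897e749068b064a8ab976884a26b907d3d6e508c7e680049
 z z)) z) (n 0 (n 0 z z) (n 0 (n 0 z z) (n 0 (n 0 z z) (n 0 (n 0 z z) (n 0 (n 0 z z) (n 0 (n 0 z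
 z) (n 0 (n 0 z z) (n 0 (n 0 z z) (n 0 (n 0 (n
 0x1d865817ba092589d7987e582072079b7228a096295f9558af5ed55db1ab4f3ed6617d9a1dae279e0041 z (n
 0x15865819ae08e489e79a7e482076079c76286096291f8d78ac66a61ea9ba924ea6a17db99daa27de0041 z z)) z)
 (n 0 (n 0 z z) (n 0 (n 0 z z) (n 0 (n 0 z z) (n 0 (n 0 (n
 0x1d854846399888084718b6d8f808c80818e91746f8471877c83807d767c558ab65f8f7c8e8a7c857e7488828496797360749f74650049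
 z (n
 0x358548751a88e7f866892639681927f82969c6f6686678b7985807b72793c8fd34d967a968f7a897d6d8d8385a1756c4f6db06d570049
 z z)) z) (n 0 (n 0 (n
 0x1c854805a9184877263998d9292877f80948079909a7788865c656b53885e897e749068b064a8ab976884a26b907d3d6e508c7e680049
 z (n
 0x1c854805a9184877263998d9292877f80948079909a7788865c656b53885e897e749068b064a8ab976884a26b907d3d6e508c7e680049
 z z)) z) (n 0 (n 0 (n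
 0x2d810807c8e8b7b938272687b798c80767c808a677e7f887d94998391816d75ab7079867b946c6c78778774867d84a57d858483790049
 z (n
 0x35810807b928d7a98836f6279778f80737c808c617e7f8a7d98a08396816772b56c76877999676776748971867c84af7c868583770049
 z z)) z) (n 0 (n 0 z z) (n 0 (n 0 z z) (n 0 (n 0 (n 6621243 z (n 6621243 z z)) z) (n 0 (n 0 z
 z) (n 0 (n 0 z z) (n 0 (n 0 (n 4262011 z (n 8656731 z z)) z) (n 0 (n 0 z z) (n 0 (n 0 (n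
 0x1c854805a9184877263998d9292877f80948079909a7788865c656b53885e897e749068b064a8ab976884a26b907d3d6e508c7e680049
 z (n
 0x1c854805a9184877263998d9292877f80948079909a7788865c656b53885e897e749068b064a8ab976884a26b907d3d6e508c7e680049
 z z)) z) (n 0 (n 0 (n
 0x30e6e80c0781b9a079c8e39de99f7a09208a37a17a161c85695885e82e62a860b156668df9d851d8a561e0801 z
 (n 8656731 z z)) z) (n 0 (n 0 (n
 0x1d8108208e89256dd62076582072089b7618219677ea81d76b7198dd95b5e27e0820867adf6de8dd0041 z (n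
 0x1d8108208e89256dd62076582072089b7618219677ea81d76b7198dd95b5e27e0820867adf6de8dd0041 z z)) z)
 (n 0 (n 0 (n
 0x1c864805a9184877263998d9292877f80948079909a7788865c656b53885e897e749068b064a8ab976884a26b907d3d6e508c7e680049
 z (n
 0x1d87484639a888084718b6d8e808c80818e91756f8471877b83807d767c5589b55f8e7c8e8a7d867e7488828496797360749f74660049
 z z)) z) (n 0 (n 0 (n
 0x35864807b928d7a98836f6279778f80737c808c617e7f8a7d98a08396816772b56c76877999676776748971867c84af7c868583770049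
 z (n 8656731 z z)) z) (n 0 (n 0 (n
 0x35861807d8d807c838e7d7c777d8580808282817b727f817a8c838f7f87707b8e7a9675868e738e5e6b946f8282778e7b98857c780049
 z z) z) (n 0 (n 0 (n
 0xd87486086381e7a17e086081f7e289f7df81f82282181e7e08218a185e7e081f7e18e085d81f8200041 z (n
 0x5b864809b7680797ca562896b767f84747180887c68857f70a68a9ba38d91608195747e64a0705f6870915d997486b6939e7b86850049
 z z)) z) (n 0 (n 0 z z) (n 0 (n 0 z z) (n 0 (n 0 z z) (n 0 (n 0 (n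
 0x1c860805a9184877263998d9292877f80948079909a7788865c656b53885e897e749068b064a8ab976884a26b907d3d6e508c7e680049
 z (n
 0x1c860805a9184877263998d9292877f80948079909a7788865c656b53885e897e749068b064a8ab976884a26b907d3d6e508c7e680049
 z z)) z) (n 0 (n 0 z z) (n 0 (n 0 (n
 0x1586181ea267a985951d7267db7e09547df91faad8a98166f661c8dda9655c6a46637a3cde8a285c0041 z (n
 8794227 z z)) z) (n 0 (n 0 (n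
 0x1d874817ba092589d7987e582072079b7228a096295f9558af5ed55db1ab4f3ed6617d9a1dae279e0041 z (n
 0x1c861805a9184877263998d9292877f80948079909a7788865c656b53885e897e749068b064a8ab976884a26b907d3d6e508c7e680049
 z z)) z) (n 0 (n 0 (n 8656731 z (n
 0x1c861805a9184877263998d9292877f80948079909a7788865c656b53885e897e749068b064a8ab976884a26b907d3d6e508c7e680049
 z z)) z) (n 0 (n 0 z z) (n 0 (n 0 (n 8656731 z (n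
 0x1c861805a9184877263998d9292877f80948079909a7788865c656b53885e897e749068b064a8ab976884a26b907d3d6e508c7e680049
 z z)) z) (n 0 (n 0 (n
 0x358748652a88d7f866992639681928081969b6e6687688b7985817b717a3c8fd44c967a968f7a887d6d8d8386a1756c4f6db06d570049
 z (n 8656731 z z)) z) (n 0 (n 0 (n
 0x1c874805a9184877263998d9292877f80948079909a7788865c656b53885e897e749068b064a8ab976884a26b907d3d6e508c7e680049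
 z (n
 0x30c3080e0382082086082082086182081f82082082082082081f8208208208208208208208208208208200801 z
 z)) z) (n 0 (n 0 z z) (n 0 (n 0 (n
 0x4d85480877d807d87818c698c7986808081807a797b658f749886828b737d8593768998847c68618d96726972798dac7f7e79937a0049
 z (n 7751723 z z)) z) (n 0 (n 0 z z) (n 0 (n 0 z z)
 z))))))))))))))))))))))))))))))))))))))))))))))))))) (n 585 (n 0 (n 0 z z) (n 0 (n 0 z z) (n 0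
 (n 0 z z) (n 0 (n 0 (n 8585755 z z) z) (n 0 (n 0 z z) (n 0 (n 0 (n
 0x10ecec64038208607df85f82082179f8208a08217e07e281f81f86081f81f7df81f85f8618a08218607e00801 z
 z) z) (n 0 (n 0 z z) (n 0 (n 0 z z) z)))))))) (n 249 (n 0 (n 0 z z) (n 0 (n 0 z z) (n 0 (n 0 z
 z) (n 0 (n 0 z z) (n 0 (n 0 (n 3278875 z z) z) (n 0 (n 0 z z) (n 0 (n 0 (n 8655659 z z) z) (n 0
 (n 0 z z) (n 0 (n 0 z z) z))))))))) (n 15 (n 0 (n 0 z z) (n 0 (n 0 z z) (n 0 (n 0 (n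
 0x1d8718208e89256dd62076582072089b7618219677ea81d76b7198dd95b5e27e0820867adf6de8dd0041 z z) z)
 (n 0 (n 0 z z) (n 0 (n 0 z z) (n 0 (n 0 z z) (n 0 (n 0 z z) (n 0 (n 0 z z) z)))))))) (n 3 (n 0
 (n 0 z z) (n 0 (n 0 z z) (n 0 (n 0 (n
 0x1d8718208e89256dd62076582072089b7618219677ea81d76b7198dd95b5e27e0820867adf6de8dd0041 z z) z)
 (n 0 (n 0 (n 8585755 z (n 8585755 z z)) z) (n 0 (n 0 z z) (n 0 (n 0 z z) (n 0 (n 0 (n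
 0x1d8728208e89256dd62076582072089b7618219677ea81d76b7198dd95b5e27e0820867adf6de8dd0041 z (n
 8656731 z z)) z) z))))))) (n 155 (n 0 (n 0 z z) (n 0 (n 0 (n 3283035 z (n 3283035 z z)) z) (n 0
 (n 0 z z) (n 0 (n 0 z z) (n 0 (n 0 z z) (n 0 (n 0 z z) (n 0 (n 0 z z) (n 0 (n 0 z z) (n 0 (n 0
 z z) (n 0 (n 0 (n
 0x35872807b928d7a98836f6279778f80737c808c617e7f8a7d98a08396816772b56c76877999676776748971867c84af7c868583770049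
 z (n 0x1d8728208e89256dd62076582072089b7618219677ea81d76b7198dd95b5e27e0820867adf6de8dd0041 z
 z)) z) (n 0 (n 0 (n
 0xd87286086381e7a17e086081f7e289f7df81f82282181e7e08218a185e7e081f7e18e085d81f8200041 z (n
 0x1d8728208e89256dd62076582072089b7618219677ea81d76b7198dd95b5e27e0820867adf6de8dd0041 z z)) z)
 z))))))))))) (n 251 (n 0 (n 0 z z) (n 0 (n 0 z z) (n 0 (n 0 z z) (n 0 (n 0 (n 3278939 z (n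
 3278939 z z)) z) (n 0 (n 0 z z) (n 0 (n 0 (n 3278875 z z) z) (n 0 (n 0 z z) (n 0 (n 0 z z) (n 0
 (n 0 z z) (n 0 (n 0 z z) (n 0 (n 0 z z) (n 0 (n 0 (n
 0xd87286086381e7a17e086081f7e289f7df81f82282181e7e08218a185e7e081f7e18e085d81f8200041 z (n
 0x2d872807c8e8b7b938272697b798c80757d808a677e7f887e94998392816d75ab7078867b946c6c78768774857d83a67d848383790049
 z z)) z) (n 0 (n 0 z z) z))))))))))))) (n 131 (n 0 (n 0 (n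
 0xd87486086381e7a17e086081f7e289f7df81f82282181e7e08218a185e7e081f7e18e085d81f8200041 z z) z)
 (n 0 (n 0 z z) (n 0 (n 0 z z) (n 0 (n 0 z z) (n 0 (n 0 z z) (n 0 (n 0 z z) (n 0 (n 0 z z) (n 0
 (n 0 z z) (n 0 (n 0 z z) (n 0 (n 0 z z) (n 0 (n 0 z z) (n 0 (n 0 z z) z)))))))))))) (n 5 (n 0
 (n 0 z z) (n 0 (n 0 z z) (n 0 (n 0 z z) (n 0 (n 0 z z) (n 0 (n 0 z z) (n 0 (n 0 z z) (n 0 (n 0
 z z) (n 0 (n 0 z z) (n 0 (n 0 z z) (n 0 (n 0 z z) (n 0 (n 0 z z) (n 0 (n 0 (n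
 0xd87286086381e7a17e086081f7e289f7df81f82282181e7e08218a185e7e081f7e18e085d81f8200041 z (n
 0x1d8728208e89256dd62076582072089b7618219677ea81d76b7198dd95b5e27e0820867adf6de8dd0041 z z)) z)
 z)))))))))))) (n 4 (n 0 (n 0 (n
 0x10ed0ec4078a282385f8607df86181f7e08618208207a081f81f8208208208627e08207e08207e082081f0801 z
 (n 8794227 z z)) z) (n 0 (n 0 z z) (n 0 (n 0 z z) (n 0 (n 0 z z) (n 0 (n 0 z z) (n 0 (n 0 z z)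
 (n 0 (n 0 z z) (n 0 (n 0 z z) (n 0 (n 0 z z) (n 0 (n 0 z z) (n 0 (n 0 z z) (n 0 (n 0 z z) (n 0
 (n 0 (n 2164827 z (n 2164827 z z)) z) (n 0 (n 0 z z) z)))))))))))))) (n 153 (n 0 (n 0 z z) (n 0
 (n 0 (n 8521035 z z) z) (n 0 (n 0 z z) (n 0 (n 0 z z) (n 0 (n 0 z z) (n 0 (n 0 z z) (n 0 (n 0 z
 z) z))))))) (n 249 (n 0 (n 0 z z) (n 0 (n 0 (n 8873011 z z) z) (n 0 (n 0 z z) (n 0 (n 0 z z) (n
 0 (n 0 z z) (n 0 (n 0 z z) (n 0 (n 0 z z) (n 0 (n 0 (n 3278875 z z) z) (n 0 (n 0 z z) (n 0 (n 0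
 z z) z)))))))))) (n 129 (n 0 (n 0 (n 8873011 z z) z) (n 0 (n 0 (n 8521035 z z) z) (n 0 (n 0 z
 z) (n 0 (n 0 z z) (n 0 (n 0 z z) (n 0 (n 0 z z) (n 0 (n 0 (n
 0x30e70e60037a186082085f8208208208208607e182082082182082181f82086082081f8228207e07e08200801 z
 (n 0x30e70e60037a08208208208208208208208208208207e08608208208208208208208208208208208208200801
 z z)) z) z))))))) (n 3 (n 0 (n 0 z z) (n 0 (n 0 z z) (n 0 (n 0 (n 2164859 z (n 8656731 z z)) z)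
 (n 0 (n 0 z z) z)))) (n 1 (n 0 (n 0 (n 8873011 z z) z) (n 0 (n 0 z z) (n 0 (n 0 z z) (n 0 (n 0
 z z) (n 0 (n 0 z z) (n 0 (n 0 z z) (n 0 (n 0 z z) (n 0 (n 0 (n 8873011 z z) z) (n 0 (n 0 z z)
 (n 0 (n 0 z z) (n 0 (n 0 z z) (n 0 (n 0 z z) (n 0 (n 0 z z) (n 0 (n 0 z z) z)))))))))))))) (n 0
 (n 0 (n 0 z z) (n 0 (n 0 z z) (n 0 (n 0 z z) (n 0 (n 0 z z) (n 0 (n 0 z z) (n 0 (n 0 z z) (n 0
 (n 0 z z) (n 0 (n 0 z z) (n 0 (n 0 z z) (n 0 (n 0 z z) (n 0 (n 0 z z) (n 0 (n 0 (n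
 0x10e90e84078a082185f8217e082181f7e082181f8207e082081f8208208608207e08208208608208608200801 z
 (n 8794227 z z)) z) (n 0 (n 0 z z) (n 0 (n 0 z z) (n 0 (n 0 z z) z)))))))))))))))
 z))))))))))))))))))))) z)))) z) z)))) (n 0x352d51214682a155850a8ca052654089668659508059ac0 (n 0
 (n 207 (n 0 z (n 2 z (n 0 z (n 0 z (n 0 z (n 0 z (n 0 z (n 0 z (n 0 z (n 0 z (n 10 z (n 0 z (n
 3282443 z z))))))))))))) (n 33 (n 18 z (n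
 0x4ca8a804038227a081f7de82181f85e7e08e07e17a089f8228227a181f81e82091f7e18218208607a181f0801 z
 (n 0 z (n 26 z (n 0 z (n
 0x2ca8a8640782086182081f8607a085f7e18608a08208217e481f7e07df85f89f81f7217e17a08627df7a10801 z
 (n 3278363 z (n 4400667 z z)))))))) (n 135 (n 0 z (n 0 z (n
 0x16ca4a608078db7e196285a72046cb94bca2e16e1be3998923b9487049e6dcb1f5a46a48e191b5ab55e6a20801 z
 (n 34 z (n
 0x4ca2ca080385f8208207e17e07e38217608a07e18627e18218207e07a092081f81f81e8608618a37df8610801 z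
 (n 3212843 z (n 0 z z))))))) (n 3 (n 0 z (n 0 z (n 6488603 z (n 0 z (n 0 z z))))) (n 1 (n 0 z
 (n 0 z (n 0 z (n 42 z (n 0 z (n 0 z (n 2164299 z (n 0 z z)))))))) (n 0 (n 50 z (n 0 z (n 0 z (n
 58 z (n 2164315 z (n 66 z z)))))) z)))))) (n 3 (n 0 (n 0 z (n 143 (n 0 z (n 0 z (n 0 z (n 0 z
 (n 0 z (n 0 z (n 0 z (n 0 z (n 0 z (n 0 z (n 0 z (n 0 z (n 0 z (n 0 z z)))))))))))))) (n 143 (n
 0 z (n 0 z (n 0 z (n 0 z (n 0 z (n 0 z (n 0 z (n 0 z (n 0 z (n 0 z (n 0 z (n 0 z (n 0 z (n 0 z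
 z)))))))))))))) (n 135 (n 0 z (n 0 z (n 0 z (n 0 z (n 0 z (n 0 z (n 0 z (n 0 z z)))))))) (n 757
 (n 0 z (n 0 z (n 0 z (n 0 z (n 0 z (n 0 z (n 0 z (n 0 z (n 0 z (n 0 z (n 0 z (n 0 z (n 0 z (n 0
 z (n 0 z z))))))))))))))) (n 389 (n 0 z (n 0 z (n 0 z (n 0 z (n 0 z (n 0 z z)))))) (n 389 (n 2
 (n 0 z z) (n 0 z (n 0 z (n 0 z (n 0 z (n 0 z z)))))) (n 389 (n 0 z (n 0 z (n 0 z (n 0 z (n 0 z
 (n 0 z z)))))) z)))))))) (n 0 (n 919 (n 0 z (n 0 z (n 0 z (n 0 z (n 0 z (n 0 z (n 0 z (n 0 z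
 z)))))))) (n 919 (n 0 z (n 0 z (n 0 z (n 0 z (n 0 z (n 0 z (n 0 z (n 0 z z)))))))) (n 31 (n 0 z
 (n 0 z (n 0 z (n 0 z (n 0 z (n 0 z (n 0 z z))))))) (n 913 (n 0 z (n 0 z (n 0 z (n 0 z (n 0 z (n
 0 z (n 0 z z))))))) (n 29 (n 0 z (n 0 z (n 0 z (n 0 z (n 0 z (n 0 z (n 0 z (n 0 z (n 0 z (n 0 z
 (n 0 z (n 0 z (n 0 z (n 0 z (n 0 z (n 0 z (n 0 z (n 0 z z)))))))))))))))))) (n 29 (n 0 z (n 0 z
 (n 0 z (n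
 0x275464320180ca8a824037e07df86085f8208a082082082081f82086081f7a182082085f8607e18208208208608208201001
 z (n 0 z (n 0 z (n 0 z (n 0 z (n 0 z (n 0 z (n 0 z (n 0 z (n 0 z (n 0 z (n 0 z (n 0 z (n 0 z (n
 0 z z)))))))))))))))))) (n 29 (n 0 z (n 0 z (n 0 z (n 0 z (n 0 z (n 0 z (n 0 z (n 0 z (n 0 z (n
 0 z (n 0 z (n 0 z (n 0 z (n 0 z (n 0 z (n 0 z (n 0 z (n 0 z z)))))))))))))))))) z))))))) (n 0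
 (n 0 z (n 807 (n 2 (n 1 z (n 1 z (n 1 z (n 1 z z)))) (n
 0xea4ca080782082082081f8208208208208208218208208208208208207e08208208208218208208208200801 z (n
 0 z (n 0 z (n 0 z (n 0 z (n 0 z (n 0 z (n 0 z (n 0 z (n 0 z (n 0 z (n 0 z (n 0 z (n 0 z (n 0 z
 (n 0 z (n 0 z z)))))))))))))))))) (n 805 (n 0 z (n 2 (n 1 z (n 1 z (n 1 z z))) (n 0 z (n 0 z (n
 0 z (n 0 z (n 0 z z))))))) (n 61 (n 2 (n 0 z (n 0 z z)) (n 0 z (n 0 z (n 0 z (n 0 z (n 0 z (n 0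
 z z))))))) (n 61 (n 0 z (n 0 z (n 0 z (n 0 z (n 0 z (n 2 (n 0 z z) (n 0 z z))))))) (n 61 (n 0 z
 (n 0 z (n 0 z (n 0 z (n 0 z (n 0 z (n 0 z z))))))) z)))))) (n 0 (n 391 (n 0 z (n 0 z (n 0 z (n
 0 z (n 0 z (n 0 z (n 0 z (n 0 z (n 0 z (n 0 z (n 0 z (n 0 z (n 0 z (n 0 z (n 0 z (n 0 z (n 0 z
 (n 0 z (n 0 z (n 0 z (n 0 z z))))))))))))))))))))) (n 925 (n 0 z (n 0 z (n 0 z (n 0 z (n 0 z (n
 0 z (n 0 z (n 0 z (n 0 z (n 0 z (n 0 z (n 0 z (n 0 z (n 0 z (n 0 z (n 0 z (n 0 z (n 0 z (n 0 z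
 (n 0 z (n 0 z z))))))))))))))))))))) (n 61 (n 0 z (n 0 z (n 0 z (n 0 z (n 0 z (n 0 z (n 0 z (n
 0 z (n 0 z (n 0 z (n 0 z (n 0 z (n 0 z (n 0 z (n 0 z (n 0 z (n 0 z (n 0 z (n 0 z (n 0 z (n 0 z
 z))))))))))))))))))))) (n 61 (n 0 z (n 0 z (n 0 z (n 0 z (n 0 z (n 0 z (n 0 z (n 0 z (n 0 z (n
 0 z (n 0 z (n 0 z (n
 0x375464320182ea8c8040381d81f85f8607e08a08218207e17e182181f81e7df7e17e27e182081f8618208218217e08201001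
 z (n 0 z (n 0 z (n 0 z (n 0 z (n 0 z (n 0 z (n 0 z (n 0 z z))))))))))))))))))))) (n 61 (n 0 z
 (n 0 z (n 0 z (n 0 z (n 0 z (n 0 z (n 0 z (n 0 z (n 0 z (n 0 z (n 0 z (n 0 z (n 0 z (n 0 z (n 0
 z (n 0 z (n 0 z (n 0 z (n 0 z (n 0 z (n 0 z z))))))))))))))))))))) z))))) (n 0 (n 291 (n 0 z (n
 0 z (n 0 z (n 0 z (n 0 z (n 0 z (n 0 z (n 0 z z)))))))) (n 313 (n 0 z (n 0 z (n 0 z (n 0 z (n 0
 z (n 0 z (n 0 z (n 0 z (n 0 z (n 0 z (n 0 z (n 0 z (n 0 z (n 0 z (n 0 z (n 0 z (n 0 z (n 0 z (n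
 0 z (n 0 z (n 0 z (n 0 z (n 0 z (n 0 z (n 0 z (n 0 z (n 0 z (n 0 z (n 0 z (n 0 z (n 0 z (n 0 z
 (n 0 z (n 0 z (n 0 z (n 0 z (n 0 z (n 0 z (n 0 z (n 0 z (n 0 z (n 0 z (n 0 z (n 0 z (n 0 z (n 0
 z (n 0 z (n 0 z (n 0 z (n 0 z (n 0 z (n 0 z (n 0 z (n 0 z (n 0 z (n 0 z
 z)))))))))))))))))))))))))))))))))))))))))))))))))))))))) (n 313 (n 0 z (n 0 z (n 0 z (n 0 z (n
 0 z (n 0 z (n 0 z (n 0 z (n 0 z (n 0 z (n 0 z (n 0 z (n 0 z (n 0 z (n 0 z (n 0 z (n 0 z (n 0 z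
 (n 0 z (n 0 z (n 0 z (n 0 z (n 0 z (n
 0xac64ea080781e81e86085f7608218207e082079f8218627de89e8608218607e181f82079e8218628207e10801 z
 (n 0 z (n 0 z (n 0 z (n 0 z (n 0 z (n 0 z (n 0 z (n 0 z (n 0 z (n 0 z (n 0 z (n 0 z (n 0 z (n 0
 z (n 0 z (n 0 z (n 0 z (n 0 z (n 0 z (n 0 z (n 0 z (n 0 z (n 0 z (n 0 z (n 0 z (n 0 z (n 0 z (n
 0 z (n 0 z (n 0 z (n 0 z (n 0 z z)))))))))))))))))))))))))))))))))))))))))))))))))))))))) (n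
 313 (n 0 z (n 0 z (n 0 z (n 0 z (n 0 z (n 0 z (n 0 z (n 0 z (n 0 z (n 0 z (n 0 z (n 0 z (n 0 z
 (n 0 z (n 0 z (n 0 z (n 0 z (n 0 z (n 0 z (n 0 z (n 0 z (n 0 z (n 0 z (n 0 z (n 0 z (n 0 z (n 0
 z (n 0 z (n 0 z (n 0 z (n 0 z (n 0 z (n 0 z (n 0 z (n 0 z (n 0 z (n 0 z (n 0 z (n 0 z (n 0 z (n
 0 z (n 0 z (n 0 z (n 0 z (n 0 z (n 0 z (n 0 z (n 0 z (n 0 z (n 0 z (n 0 z (n 0 z (n 0 z (n 0 z
 (n 0 z (n 0 z z)))))))))))))))))))))))))))))))))))))))))))))))))))))))) z)))) (n 0 (n 265 (n 0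
 z (n 0 z (n 0 z (n 0 z (n 0 z (n 0 z (n 0 z (n 0 z (n 0 z (n 0 z (n 0 z (n 0 z (n 0 z (n 0 z (n
 0 z (n 0 z (n 0 z (n 0 z (n 0 z (n 0 z (n 0 z (n 0 z (n 0 z (n 0 z (n 0 z (n 0 z (n 0 z (n 0 z
 (n 0 z (n 0 z (n 0 z (n 0 z (n 0 z (n 0 z (n 0 z (n 0 z (n 0 z (n 0 z (n 0 z (n 0 z (n 0 z (n 0
 z (n 0 z (n 0 z (n 0 z (n 0 z z)))))))))))))))))))))))))))))))))))))))))))))) (n 265 (n 0 z (n
 0 z (n 0 z (n 0 z (n 0 z (n 0 z (n 0 z (n 0 z (n 0 z (n 0 z (n 0 z (n 0 z (n 0 z (n 0 z (n 0 z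
 (n 0 z (n
 0xac86ea240381e81f8208607a08a08218617e07e082082081f8208218228218207e08207a07e28208208200801 z
 (n 0 z (n 0 z (n 0 z (n 0 z (n 0 z (n 0 z (n 0 z (n 0 z (n 0 z (n 0 z (n 0 z (n 0 z (n 0 z (n 0
 z (n 0 z (n 0 z (n 0 z (n 0 z (n 0 z (n 0 z (n 0 z (n 0 z (n 0 z (n 0 z (n 0 z (n 0 z (n 0 z (n
 0 z (n 0 z z)))))))))))))))))))))))))))))))))))))))))))))) (n 265 (n 0 z (n 0 z (n 0 z (n 0 z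
 (n 0 z (n 0 z (n 0 z (n 0 z (n 0 z (n 0 z (n 0 z (n 0 z (n 0 z (n 0 z (n 0 z (n 0 z (n 0 z (n 0
 z (n 0 z (n 0 z (n 0 z (n 0 z (n 0 z (n 0 z (n 0 z (n 0 z (n 0 z (n 0 z (n 0 z (n 0 z (n 0 z (n
 0 z (n 0 z (n 0 z (n 0 z (n 0 z (n 0 z (n 0 z (n 0 z (n 0 z (n 0 z (n 0 z (n 0 z (n 0 z (n 0 z
 (n 0 z z)))))))))))))))))))))))))))))))))))))))))))))) z))) (n 0 (n 0 z (n 0 z z)) (n 0 (n 0 z
 z) (n 0 z z))))))))) (n 0 (n 0 z (n 0 z (n 1 (n 6488603 z (n 6488603 z (n 6488603 z (n 6488603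
 z (n 6488603 z (n 6488603 z z)))))) (n 0 z (n 0 z z))))) (n 0 z z)))) (n 0xcb819 (n 0 (n 465 (n
 0 z (n 3282443 z (n 0 z (n 0 z z)))) (n 33 (n 0 z (n 0 z (n 0 z (n 0 z (n 2 z (n 0 z (n 3278363
 z (n 0 z (n 0 z (n 0 z (n 0 z (n 0 z (n 0 z (n 0 z (n 0 z (n 6358075 z (n 0 z (n 0 z (n 0 z (n
 0 z z)))))))))))))))))))) (n 129 (n 0 z (n 0 z (n 0 z (n 3212843 z (n 0 z (n 0 z z)))))) (n 3
 (n 2164283 z (n 0 z (n 0 z (n 0 z (n 0 z (n 0 z (n 0 z (n 0 z (n 0 z z))))))))) (n 1 (n 0 z (n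
 0 z (n 0 z (n 0 z (n 6559019 z (n 0 z (n 0 z (n 0 z z)))))))) (n 0 (n 0 z (n 2164315 z (n 0 z
 z))) z)))))) (n 0 (n 0 z z) (n 0 (n 0 z (n 1 (n 2164315 z (n 2164315 z (n 2164315 z (n 2164315
 z (n 6559019 z (n 2164315 z z)))))) (n 0 z z))) (n 0 z z)))) (n
 0x275970849842714d412594154f58095091622a0a9427084a882293209 (n 0 (n 443 (n 0 z (n 3282443 z (n
 0 z (n 0 z (n 0 z (n 0 z (n 0 z z))))))) (n 557 (n 2 z (n 0 z (n 0 z (n 10 z (n 3278363 z (n 0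
 z (n 0 z (n
 0x1eca6a86403bd57e562770fc1a86b6e06157e692265579c9e88db82179f8a8962a1f65c95169085589d81c0801 z
 (n 0 z (n 0 z (n 0 z (n 0 z (n 0 z (n 0 z (n 0 z (n 0 z (n 0 z (n 0 z (n 0 z (n 0 z (n 18 z (n
 0 z (n 0 z z))))))))))))))))))))))) (n 9 (n
 0x34ca4a82603ad37df9de925ba76ad85539f8dc89e4dc5ea528b8e82185fb2a79c8ed6925d05d0a27be77a70801 z
 (n 26 z (n 0 z (n 34 z (n 3212843 z (n 0 z (n 42 z z))))))) (n 3 (n 50 z (n 0 z (n 2164283 z (n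
 58 z z)))) (n 1 (n 66 z (n 0 z (n 2164299 z (n 0 z (n 74 z z))))) (n 0 (n 82 z (n 0 z (n
 6624043 z (n 0 z (n 0 z (n 0 z (n 0 z z))))))) z)))))) (n 3 (n 0 (n 0 z (n 0 z (n 1107 (n 0 z
 (n 0 z (n 0 z (n 0 z (n 0 z (n 0 z (n 0 z (n 0 z (n 0 z (n 0 z z)))))))))) (n 1107 (n 0 z (n 0
 z (n 0 z (n 0 z (n 0 z (n 2 (n 0 z (n 1 z (n 1 z (n 1 z (n 1 z (n 1 z z)))))) (n 0 z (n 0 z (n
 0 z (n 0 z z)))))))))) (n 1107 (n 0 z (n 0 z (n 0 z (n 0 z (n 0 z (n 0 z (n 0 z (n 0 z (n 0 z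
 (n 0 z z)))))))))) (n 247 (n 0 z (n 0 z (n 0 z (n 0 z (n 0 z (n 0 z (n 0 z (n 0 z (n 0 z (n 0 z
 (n 0 z (n 0 z (n 0 z (n 0 z (n 0 z (n 0 z (n 0 z (n 0 z (n 0 z (n 0 z (n 0 z (n 0 z (n 0 z (n 0
 z (n 0 z (n 0 z (n 0 z z))))))))))))))))))))))))))) (n 247 (n 0 z (n 0 z (n 0 z (n 0 z (n 0 z
 (n 0 z (n 0 z (n 0 z (n 0 z (n 0 z (n 0 z (n 0 z (n 0 z (n 0 z (n 0 z (n 0 z (n 0 z (n 0 z (n 0
 z (n 0 z (n 0 z (n 0 z (n 0 z (n 0 z (n 0 z (n 0 z (n 0 z z))))))))))))))))))))))))))) (n 3 (n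
 0xd762523b118dd8884ec4a97627268a779f8e48e1a1a79a9dea1aae079cb97aa64ec8209134282a961686baf14b46a5558c8f0141
 z (n 0 z (n 0 z (n 0 z (n 0 z (n 0 z (n 0 z (n 0 z (n 0 z (n 0 z (n 0 z (n 0 z (n 0 z (n 0 z (n
 0 z (n 0 z (n 0 z (n 0 z (n 0 z (n 0 z (n 0 z (n 0 z z)))))))))))))))))))))) (n 3 (n 0 z (n 0 z
 (n 0 z (n 0 z (n 0 z (n 0 z (n 0 z (n 0 z (n 0 z (n 0 z (n 0 z (n 0 z (n 0 z (n 0 z (n 0 z (n 0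
 z (n 0 z (n 0 z (n 7741699 z (n 0 z (n 0 z (n 0 z z)))))))))))))))))))))) (n 5 (n 2 z (n 0 z (n
 0 z (n 0 z (n 0 z (n 0 z (n 0 z (n 0 z (n 0 z (n 0 z (n 0 z z))))))))))) z)))))))))) (n 0 (n 0
 z (n 1107 (n 0 z (n 0 z (n 0 z (n 0 z (n 0 z (n 0 z (n 0 z (n 0 z (n 0 z (n 0 z (n 0 z (n 0 z
 (n 0 z (n 0 z (n 0 z (n 0 z (n 0 z (n 0 z (n 0 z (n 0 z (n 0 z z))))))))))))))))))))) (n 1107
 (n 0 z (n 0 z (n 0 z (n 0 z (n 0 z (n 0 z (n 0 z (n 0 z (n 0 z (n 0 z (n 0 z (n 0 z (n 0 z (n 0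
 z (n 0 z (n 0 z (n 0 z (n 0 z (n 0 z (n 0 z (n 0 z z))))))))))))))))))))) (n 1107 (n 0 z (n 0 z
 (n 0 z (n 0 z (n 0 z (n 0 z (n 0 z (n 0 z (n 0 z (n 0 z (n 0 z (n 0 z (n 0 z (n 0 z (n 0 z (n 0
 z (n 0 z (n 2 (n 1 z (n 1 z (n 1 z (n 1 z (n 1 z z))))) (n 0 z (n 0 z (n 0 z
 z))))))))))))))))))))) (n 469 (n 0 z (n 0 z (n 0 z (n 0 z (n 0 z (n 0 z (n 0 z (n 0 z (n 0 z (n
 0 z (n 0 z (n 0 z (n 0 z (n 0 z (n 0 z (n 0 z (n 0 z (n 0 z (n 0 z (n 0 z (n 0 z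
 z))))))))))))))))))))) (n 469 (n 2 (n 1 z (n 1 z (n 1 z z))) (n 0 z (n 0 z (n 0 z (n 0 z (n 0 z
 (n 0 z (n 0 z (n 0 z (n 0 z (n 0 z (n 0 z (n 0 z (n 0 z (n 0 z (n 0 z (n 0 z (n 0 z (n 0 z (n 0
 z (n 0 z z))))))))))))))))))))) (n 51 (n 7750403 z (n 0 z (n 0 z (n 0 z (n 0 z (n 0 z (n 0 z (n
 0 z (n 0 z (n 0 z (n 0 z (n 0 z (n 0 z (n 0 z (n 0 z (n 0 z (n 0 z (n 0 z (n 0 z (n 0 z (n 0 z
 (n 0 z (n 0 z z))))))))))))))))))))))) (n 51 (n 0 z (n 0 z (n 0 z (n 0 z (n 0 z (n 0 z (n 0 z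
 (n 0 z (n 0 z (n 0 z (n 0 z (n 0 z (n 0 z (n 0 z (n 0 z (n 0 z (n 0 z (n 0 z (n 0 z (n 0 z (n 2
 (n 1 z z) (n 0 z (n 0 z z))))))))))))))))))))))) (n 53 (n 2 z (n 0 z (n 0 z (n 0 z (n 0 z (n 0
 z (n 0 z (n 0 z (n 0 z (n 0 z (n 0 z (n 0 z (n 0 z (n 0 z (n 0 z (n 0 z (n 0 z (n 0 z (n 0 z (n
 0 z (n 0 z z))))))))))))))))))))) z))))))))) (n 0 (n 1119 (n 0 z (n 0 z (n 0 z (n 0 z (n 0 z (n
 0 z (n 0 z (n 0 z (n 0 z (n 0 z (n 0 z (n 0 z (n 0 z (n 0 z (n 0 z (n 0 z (n 0 z (n 0 z (n 0 z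
 (n 0 z (n 0 z (n 0 z (n 0 z z))))))))))))))))))))))) (n 1119 (n 0 z (n 0 z (n 0 z (n 0 z (n 0 z
 (n 0 z (n 0 z (n 0 z (n 0 z (n 0 z (n 0 z (n 0 z (n 0 z (n 0 z (n 0 z (n 0 z (n 0 z (n 0 z (n 0
 z (n 0 z (n 0 z (n 0 z (n 0 z z))))))))))))))))))))))) (n 1119 (n 0 z (n 0 z (n 0 z (n 0 z (n 0
 z (n 0 z (n 0 z (n 0 z (n 0 z (n 0 z (n 0 z (n 0 z (n 0 z (n 0 z (n 2 (n 1 z (n 1 z (n 2 (n 0 z
 (n 0 z (n 0 (n 3108 z (n 3108 z z)) (n 0 z (n 0 (n 8783659 z z) (n 0 (n 8783659 z z) z)))))) (n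
 1 z (n 1 z z))))) (n 0 z (n 0 z (n 0 z (n 0 z (n 0 z (n 0 z (n 0 z (n 0 z
 z))))))))))))))))))))))) (n 1017 (n 0 z (n 0 z (n 2 (n 0 z (n 1 z (n 1 z (n 1 z z)))) (n 0 z (n
 0 z (n 0 z (n 0 z z))))))) (n 1017 (n 0 z (n 2 (n 1 z (n 1 z (n 1 z z))) (n 0 z (n 0 z (n 0 z
 (n 0 z (n 0 z z))))))) (n 777 (n 0 z (n 0 z (n 0 z (n 0 z (n 0 z (n 0 z (n 2 (n 0 z (n 1 z z))
 (n 0 z (n 0 z (n 0 z (n 0 z (n 0 z (n 0 z z))))))))))))) (n 777 (n 0 z (n 0 z (n 2 (n 1 z z) (n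
 0 z (n 0 z (n 0 z (n 0 z (n 0 z (n 0 z (n 0 z (n 0 z (n 0 z (n 0 z z))))))))))))) (n 1117 (n 0
 z (n 0 z (n 0 z (n 0 z (n 0 z (n 0 z (n 0 z (n 0 z (n 0 z (n 0 z (n 0 z (n 0 z z))))))))))))
 z)))))))) (n 0 (n 0 z (n 0 z (n 709 (n 0 z (n 0 z (n 0 z (n 0 z (n 0 z (n 0 z (n 0 z (n 0 z (n
 0 z (n 0 z (n 0 z z))))))))))) (n 709 (n 0 z (n 2 (n 1 z (n 1 z (n 1 z z))) (n 0 z (n 0 z (n 0
 z (n 0 z (n 0 z (n 0 z (n 0 z (n 0 z (n 0 z z))))))))))) (n 15 (n 7750403 z (n 0 z (n 0 z (n 0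
 z (n 0 z (n 0 z (n 0 z z))))))) (n 15 (n 0 z (n 0 z (n 0 z (n 0 z (n 0 z (n 2 (n 1 z z) (n 0 z
 z))))))) (n 17 (n 0 z (n 0 z (n 0 z (n 0 z (n 0 z (n 0 z (n 2 z (n 0 z (n 0 z (n 0 z
 z)))))))))) z))))))) (n 0 (n 0 z (n 27 (n 2 (n 0 z (n 1 z (n 1 z (n 1 z z)))) (n 0 z (n 0 z
 z))) (n 27 (n 0 z (n 0 z (n 2 (n 1 z (n 1 z (n 1 z z))) z))) (n 15 (n 2 (n 0 z (n 1 z z)) (n 0
 z (n 0 z (n 0 z (n 0 z (n 0 z (n 0 z (n 0 z z)))))))) (n 15 (n 0 z (n 0 z (n 0 z (n 0 z (n 0 z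
 (n 0 z (n 0 z (n 2 (n 1 z z) z)))))))) (n 889 (n 0 z (n 0 z (n 0 z (n 0 z (n 0 z (n 0 z (n 0 z
 (n 0 z (n 0 z (n 0 z (n 0 z z))))))))))) z)))))) (n 0 (n 7 (n 0 z (n 2 (n 0 z (n 1 z (n 1 z (n
 1 z z)))) (n 0 z (n 0 z (n 0 z (n 0 z (n 0 z (n 0 z (n 0 z (n 0 z (n 0 z z))))))))))) (n 7 (n 0
 z (n 0 z (n 0 z (n 0 z (n 0 z (n 0 z (n 0 z (n 0 z (n 0 z (n 0 z (n 0 z z))))))))))) (n 3 (n 2
 (n 0 z (n 2 (n 0 z (n 0 z (n 0 (n 4 z (n 4 z z)) (n 0 z (n 0 z (n 0 (n 5 z z) z)))))) z)) (n 0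
 z (n 0 z (n 0 z (n 0 z (n 0 z (n 0 z (n 0 z z)))))))) (n 3 (n 0 z (n 0 z (n 0 z (n 0 z (n 0 z
 (n 0 z (n 0 z (n 0 z z)))))))) (n 1 (n 2 z (n 0 z (n 0 z (n 0 z (n 0 z (n 0 z (n 0 z (n 0 z (n
 0 z (n 0 z (n 0 z z))))))))))) z))))) (n 0 (n 0 z (n 51 (n 7750403 z (n 0 z (n 0 z (n 0 z (n 0
 z (n 0 z (n 0 z (n 0 z (n 0 z (n 0 z (n 0 z (n 0 z (n 0 z (n 0 z (n 0 z (n 0 z
 z)))))))))))))))) (n 51 (n 0 z (n 0 z (n 0 z (n 0 z (n 0 z (n 0 z (n 0 z (n 0 z (n 0 z (n 0 z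
 (n 0 z (n 0 z (n 0 z (n 2 (n 1 z z) (n 0 z (n 0 z z)))))))))))))))) (n 49 (n 2 z (n 0 z (n 0 z
 (n 0 z (n 0 z (n 0 z z)))))) z)))) (n 0 (n 111 (n 2 (n 0 z (n 1 z z)) (n 0 z (n 0 z (n 0 z (n 0
 z (n 0 z (n 0 z (n 0 z (n 0 z (n 0 z z)))))))))) (n 111 (n 0 z (n 0 z (n 0 z (n 0 z (n 0 z (n 0
 z (n 0 z (n 0 z (n 0 z (n 0 z z)))))))))) (n 97 (n 2 z (n 0 z (n 0 z (n 0 z (n 0 z (n 0 z (n 0
 z (n 0 z (n 0 z z))))))))) z))) (n 0 (n 0 z (n 1 (n 0 z (n 0 z (n 2 z (n 0 z (n 0 z (n 0 z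
 z)))))) z)) (n 0 (n 145 (n 0 z (n 2 z (n 0 z (n 0 z (n 0 z (n 0 z (n 0 z (n 0 z (n 0 z
 z))))))))) z) (n 0 z z))))))))))) (n 0 (n 1 (n 3548 z (n 4399203 z (n 3548 z (n 3548 z (n 3548
 z (n 3548 z z)))))) (n 0 z (n 1 (n 2164283 z (n 2164283 z (n 2164283 z (n 2164283 z (n 6624043
 z (n 2164283 z z)))))) (n 1 (n 3280995 z (n 3282443 z (n 3548 z (n 3548 z (n 3548 z (n 3548 z
 z)))))) z)))) (n 0 z z)))) (n 0xbaa7426d9b45b1c81b66542c6e20d96d8513b9b14d56865b2822d9500 (n 0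
 (n 695 (n 3282443 z (n 0 z (n 0 z (n 2 z (n 0 z (n 0 z (n 0 z (n 0 z (n 0 z z))))))))) (n 694
 (n 0 z (n 0 z (n 3278363 z (n 10 z (n 0 z (n 0 z (n 18 z (n 0 z (n 0 z (n
 0x42c62a4080780988b8d6096758a707883897a84817979898088867a7c7787846c88807f8172868382838560777d966d8f867a7b7f8783720809
 z (n 26 z (n 0 z (n 0 z (n
 0xec63080a0698fbd698561669a72879155c186916660799b6da59499a3b27c63818e9f2c77887a8074606c4871e887ab65a5839e880049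
 z (n 0 z (n 0 z (n 0 z z))))))))))))))))) (n 9 (n 0 z (n 0 z (n 0 z (n 3212843 z z)))) (n 3 (n
 0 z (n 0 z (n 2164283 z (n 34 z (n 42 z (n 50 z (n 0 z z))))))) (n 1 (n 0 z (n 0 z (n 0 z (n 0
 z (n 2164299 z (n 58 z (n 0 z (n 66 z (n 0 z z))))))))) (n 0 (n 74 z (n 2164315 z (n 82 z (n 0
 z (n 0 z z))))) z)))))) (n 9 (n 0 (n 119 (n 0 z (n 0 z (n 0 z (n 0 z (n 0 z (n 0 z (n 0 z (n 0
 z (n 0 z (n 0 z (n 0 z (n 0 z z)))))))))))) (n 119 (n 0 z (n 0 z (n 0 z (n 2 (n 0 z (n 1 z (n 1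
 z (n 1 z (n 1 z (n 1 z (n 1 z (n 1 z z)))))))) (n 0 z (n 0 z (n 0 z (n 0 z (n 0 z (n 0 z (n 0 z
 (n 0 z z)))))))))))) (n 119 (n 0 z (n 0 z (n 0 z (n 0 z (n 0 z (n 0 z (n 0 z (n 0 z (n 0 z (n 0
 z (n 2 (n 1 z (n 1 z (n 1 z (n 1 z (n 1 z (n 1 z (n 1 z z))))))) (n 0 z z)))))))))))) (n 487 (n
 0 z (n 0 z (n 0 z (n 0 z (n 0 z (n 0 z (n 0 z (n 0 z z)))))))) (n 487 (n 0 z (n 0 z (n 2 (n 0 z
 (n 1 z (n 1 z (n 1 z (n 2 (n 0 z (n 0 (n 8791867 z z) (n 0 z (n 0 (n 8791867 z z) (n 0 z (n 0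
 (n 8521499 z (n 452 z z)) z)))))) z))))) (n 0 z (n 0 z (n 0 z (n 0 z (n 0 z z)))))))) (n 487 (n
 0 z (n 0 z (n 0 z (n 0 z (n 0 z (n 0 z (n 2 (n 1 z (n 1 z (n 1 z (n 1 z z)))) (n 0 z z))))))))
 (n 117 (n 0 z (n 0 z (n 0 z (n 2 (n 0 z (n 1 z (n 1 z z))) (n 0 z (n 0 z (n 0 z (n 0 z (n 0 z
 z))))))))) (n 117 (n 0 z (n 0 z (n 0 z (n 0 z (n 0 z (n 2 (n 1 z (n 1 z z)) (n 0 z (n 0 z (n 0
 z z))))))))) (n 113 (n 0 z (n 0 z (n 2 (n 0 z z) (n 0 z (n 0 z (n 0 z (n 0 z (n 0 z (n 0 z (n 0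
 z (n 0 z (n 0 z (n 0 z z))))))))))))) (n 113 (n 2 z (n 0 z (n 0 z (n 0 z (n 0 z (n 0 z (n 0 z
 (n 0 z (n 0 z (n 0 z (n 0 z (n 0 z (n 0 z z))))))))))))) z)))))))))) (n 0 (n 0 z (n 0 z (n 247
 (n 0 z (n 0 z (n 0 z (n 0 z (n 0 z (n 0 z (n 0 z (n 0 z (n 0 z (n 0 z (n 0 z z))))))))))) (n
 247 (n 0 z (n 0 z (n 0 z (n 0 z (n 0 z (n 2 (n 0 z (n 1 z (n 1 z (n 1 z (n 2 (n 0 (n 8791867 z
 z) (n 0 z (n 0 z (n 0 (n 8791867 z z) (n 0 z (n 0 (n 1396 z (n 1396 z z)) z)))))) z))))) (n 0 z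
 (n 0 z (n 0 z (n 0 z (n 0 z z))))))))))) (n 247 (n 0 z (n 0 z (n 0 z (n 0 z (n 0 z (n 0 z (n 0
 z (n 0 z (n 0 z (n 0 z (n 0 z z))))))))))) (n 351 (n 0 z (n 0 z (n 0 z (n 0 z (n 2 (n 0 z (n 1
 z (n 1 z z))) (n 0 z (n 0 z (n 0 z (n 0 z (n 0 z (n 0 z (n 0 z z)))))))))))) (n 351 (n 0 z (n 0
 z (n 0 z (n 0 z (n 0 z (n 0 z (n 0 z (n 2 (n 1 z (n 1 z z)) (n 0 z (n 0 z (n 0 z (n 0 z
 z)))))))))))) (n 349 (n 0 z (n 0 z (n 0 z (n 2 (n 0 z z) (n 6493995 z (n 0 z (n 0 z (n 0 z (n 0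
 z (n 0 z (n 0 z (n 0 z (n 0 z (n 0 z (n 0 z (n 0 z (n 0 z (n 0 z (n 0 z (n 0 z (n 0 z (n 0 z (n
 0 z (n 0 z (n 0 z z))))))))))))))))))))))))) (n 349 (n 0 z (n 0 z (n 0 z (n 0 z (n 0 z (n 0 z
 (n 0 z (n 0 z (n 0 z (n 0 z (n 0 z (n 0 z (n 2 z (n 0 z (n 0 z (n 0 z (n 0 z (n 0 z (n 0 z (n 0
 z (n 0 z (n 0 z (n 0 z (n 0 z (n 0 z z))))))))))))))))))))))))) z))))))))) (n 0 (n 0 z (n 393
 (n 0 z (n 0 z (n 0 z (n 0 z (n 0 z (n 0 z (n 0 z (n 0 z (n 0 z (n 0 z (n 0 z (n 0 z (n 0 z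
 z))))))))))))) (n 393 (n 0 z (n 0 z (n 2 (n 0 z (n 1 z (n 1 z (n 1 z (n 1 z z))))) (n 0 z (n 0
 z (n 0 z (n 0 z (n 0 z (n 0 z (n 0 z (n 0 z (n 0 z (n 0 z z))))))))))))) (n 393 (n 0 z (n 0 z
 (n 0 z (n 0 z (n 0 z (n 0 z (n 0 z (n 0 z (n 0 z (n 0 z (n 0 z (n 0 z (n 0 z z))))))))))))) (n
 495 (n 0 z (n 0 z (n 0 z (n 0 z (n 0 z (n 2 (n 0 z (n 1 z (n 1 z z))) (n 0 z (n 0 z (n 0 z (n 0
 z (n 0 z (n 0 z (n 0 z z))))))))))))) (n 495 (n 0 z (n 0 z (n 0 z (n 0 z (n 0 z (n 0 z (n 0 z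
 (n 0 z (n 0 z (n 0 z (n 0 z (n 0 z (n 0 z z))))))))))))) (n 493 (n 0 z (n 0 z (n 0 z (n 2 (n 0
 z z) (n 0 z (n 0 z (n 0 z (n 0 z (n 0 z (n 0 z (n 0 z (n 0 z (n 0 z (n 0 z (n 0 z (n 0 z (n 0 z
 z))))))))))))))))) (n 493 (n 0 z (n 0 z (n 0 z (n 0 z (n 0 z (n 0 z (n 0 z (n 0 z (n 0 z (n 0 z
 (n 7754787 z (n 0 z (n 0 z (n 0 z (n 0 z (n 0 z (n 0 z z))))))))))))))))) z)))))))) (n 0 (n 487
 (n 0 z (n 0 z (n 0 z (n 2 (n 0 z (n 0 z (n 1 z (n 1 z (n 1 z (n 1 z z)))))) (n 0 z (n 0 z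
 z)))))) (n 487 (n 0 z (n 0 z (n 0 z (n 0 z (n 0 z (n 0 z z)))))) (n 487 (n 0 z (n 0 z (n 0 z (n
 0 z (n 0 z (n 0 z z)))))) (n 495 (n 0 z (n 0 z (n 0 z (n 0 z (n 0 z (n 0 z (n 0 z (n 0 z (n 0 z
 (n 0 z (n 7745827 z (n 7745827 z (n 0 z (n 0 z (n 0 z (n 0 z (n 0 z z))))))))))))))))) (n 495
 (n 0 z (n 0 z (n 0 z (n 0 z (n 0 z (n 0 z (n 0 z (n 0 z (n 0 z (n 0 z (n 0 z (n 0 z (n 0 z (n 0
 z (n 0 z (n 0 z (n 0 z z))))))))))))))))) (n 493 (n 7745827 z (n 0 z (n 0 z (n 0 z (n 0 z (n 0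
 z (n 0 z (n 0 z (n 0 z (n 0 z (n 0 z (n 0 z (n 0 z (n 0 z (n 0 z z))))))))))))))) (n 493 (n 0 z
 (n 0 z (n 0 z (n 0 z (n 0 z (n 0 z (n 0 z (n 0 z (n 0 z (n 0 z (n 0 z (n 0 z (n 0 z (n 0 z (n 0
 z z))))))))))))))) z))))))) (n 0 (n 0 z (n 0 z (n 3 (n 0 z (n 0 z (n 0 z (n 0 z (n 2 (n 0 z (n
 1 z (n 1 z z))) (n 0 z (n 0 z (n 0 z (n 0 z (n 0 z (n 0 z z))))))))))) (n 3 (n 0 z (n 0 z (n 0
 z (n 0 z (n 0 z (n 0 z (n 0 z (n 0 z (n 2 (n 1 z (n 1 z z)) (n 0 z (n 0 z z))))))))))) (n 1 (n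
 2 (n 0 z z) (n 0 z (n 0 z (n 0 z (n 0 z (n 0 z (n 0 z (n 0 z (n 0 z (n 0 z (n 0 z z)))))))))))
 (n 1 (n 0 z (n 0 z (n 0 z (n 0 z (n 0 z (n 2 z (n 0 z (n 0 z (n 0 z (n 0 z (n 0 z z)))))))))))
 z)))))) (n 0 (n 0 z (n 99 (n 0 z (n 0 z (n 0 z (n 0 z (n 0 z (n 0 z (n 0 z (n 0 z (n 0 z
 z))))))))) (n 99 (n 0 z (n 0 z (n 0 z (n 0 z (n 0 z (n 0 z (n 0 z (n 2 (n 1 z (n 1 z z)) (n 0 z
 z))))))))) (n 97 (n 0 z (n 0 z (n 0 z (n 0 z (n 0 z (n 0 z (n 0 z (n 0 z (n 0 z (n 0 z (n 0 z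
 z))))))))))) (n 97 (n 0 z (n 0 z (n 0 z (n 0 z (n 0 z (n 0 z (n 0 z (n 0 z (n 2 z (n 0 z (n 0 z
 z))))))))))) z))))) (n 0 (n 3 (n 0 z (n 0 z (n 0 z (n 0 z (n 2 (n 0 z (n 1 z (n 1 z z))) (n 0 z
 (n 0 z (n 0 z z)))))))) (n 3 (n 0 z (n 0 z (n 0 z (n 0 z (n 0 z (n 0 z (n 0 z (n 0 z z))))))))
 (n 1 (n 2 (n 0 z z) (n 0 z (n 0 z (n 0 z (n 0 z (n 0 z (n 0 z (n 0 z (n 0 z (n 0 z (n 0 z
 z))))))))))) (n 1 (n 0 z (n 0 z (n 0 z (n 0 z (n 7754787 z (n 0 z (n 0 z (n 0 z (n 0 z (n 0 z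
 (n 0 z z))))))))))) z)))) (n 0 (n 0 z (n 145 (n 0 z (n 0 z (n 0 z (n 0 z (n 0 z (n 0 z (n 0 z
 (n 0 z (n 0 z (n 0 z z)))))))))) (n 145 (n 0 z (n 0 z (n 0 z (n 0 z (n 0 z (n 0 z (n 0 z (n 0 z
 (n 2 z (n 0 z z)))))))))) z))) (n 0 (n 5 (n 0 z (n 0 z (n 2 (n 0 z z) (n 0 z (n 0 z (n 0 z (n 0
 z (n 0 z (n 0 z (n 0 z (n 0 z (n 0 z (n 0 z z))))))))))))) (n 5 (n 0 z (n 0 z (n 0 z (n 0 z (n
 0 z (n 0 z (n 0 z (n 0 z (n 0 z (n 0 z (n 7754787 z (n 0 z (n 0 z z))))))))))))) z)) (n 0 (n 0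
 z z) (n 0 z z))))))))))) (n 0 (n 0 z (n 0 z (n 0 z (n 1 (n 3212843 z (n 3212843 z (n 3212843 z
 (n 3212843 z (n 3212843 z (n 3212843 z z)))))) z)))) (n 0 z z)))) (n
 0x1867a4c216630cc7315500992c0 (n 0 (n 441 (n 0 z (n 0 z (n 0 z (n 0 z (n 0 z (n 0 z (n 0 z (n 0
 z (n 2 z (n
 0xca64ca0803946981789e615273787da06d7982748f74879e65aa968d6c69619d779753a458966c688184c37f53a06d8ba650805a5daf830809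
 z (n 6488603 z (n
 0x17ac642918c875b1903a63265997d79748fbe7f5c8b628c97a24fa9a47127c7317b7a9aa2cc56a7439b79a87a4aa17d852b879f44c9806be969c092587c0109
 z (n 4400651 z (n
 0x548594100600ca4ca4207808181808180808080807f807f807f7f80818080807f8180817f7f808180807f7f80808080808080808080808180808080801009
 z (n 6488603 z (n 0 z (n 0 z (n
 0xea42ca08037d8f7975927989767f85748d798a6d8d848371957881847f8593758c7d758c87856d7e65917c826f77918b868e85807b897c0809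
 z (n
 0xcca8ca42078b767f72936b667b7e7d946f7d7e8b7c76879c5ca78c8e6b715c986c8c6a936295866f817fab84679e618a9262835c78997d0809
 z (n 0 z (n 0 z (n 3282443 z (n 0 z (n
 0xcca4ca4203827c80739167667e7a8a99727a719b7f7385a056ab7c8f6976569361927c8366948778827d9c8b6b95658f86626f6b858b7b0809
 z (n 10 z z))))))))))))))))))))))))) (n 249 (n 0 z (n 0 z (n 0 z (n 0 z (n 0 z (n 3278363 z (n
 0 z z))))))) (n 442 (n 3212843 z (n 0 z (n 0 z (n 0 z (n 0 z (n 0 z (n 0 z (n 0 z (n 0 z (n 0 z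
 (n 0 z (n 0 z (n 0 z z))))))))))))) (n 3 (n 0 z (n 0 z (n 6488603 z (n 0 z z)))) (n 25 (n 0 z
 (n 18 z (n 2164299 z (n 0 z (n 26 z (n 34 z z)))))) (n 0 (n 0 z (n 0 z (n 0 z (n 2164315 z (n
 0x4364380837f84848184787f887c82817e7687827a74886f7b8683838e808a76878484806f877c83787f7f798a867d907a8a817f7d0049
 z (n
 0x4364180837f84848184787f887c82817e7687827a74886f7b8683838e808a76878484806f877c83787f7f798a867d907a8a817f7d0049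
 z (n 0 z (n 0 z z)))))))) z)))))) (n 3 (n 0 (n 0 z (n 117 (n 0 z (n 0 z (n 0 z (n 0 z (n 0 z (n
 0 z (n 0 z (n 6620987 z (n 0 z (n 0 z (n 0 z z))))))))))) (n 117 (n 0 z (n 0 z (n 0 z (n
 6620955 z (n 0 z (n 0 z (n 0 z (n 0 z (n 0 z (n 0 z (n 0 z z))))))))))) (n 117 (n 0 z (n 0 z (n
 0 z (n 0 z (n 0 z (n 0 z (n 0 z (n 0 z (n 0 z (n 0 z (n 2 z z))))))))))) z)))) (n 0 (n 783 (n 0
 z (n 0 z (n 2 (n 0 z (n 0 z z)) (n 0 z (n 0 z (n 0 z z)))))) (n 783 (n 0 z (n 0 z (n 0 z (n 0 z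
 (n 0 z (n 7737427 z z)))))) (n 783 (n 0 z (n 0 z (n 0 z (n 0 z (n 0 z (n 0 z z)))))) z))) (n 0
 (n 0 z (n 0 z z)) (n 0 (n 0 z z) (n 0 z z))))) (n 0 (n 0 z (n 0 z (n 1 (n 6488603 z (n 6488603
 z (n 6488603 z (n 6488603 z (n 6488603 z (n 6488603 z z)))))) (n 0 z z)))) (n 0 z z)))) (n
 0x2c24d14d5282a256e6134690ea (n 0 (n 467 (n 3282443 z (n 0 z (n 0 z (n 0 z (n 0 z (n 0 z (n 0 z
 (n 0 z (n 0 z z))))))))) (n 475 (n 0 z (n 3278363 z (n 0 z (n 0 z (n 0 z (n 0 z z)))))) (n 129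
 (n
 0xcca4a2080382c7dc8148578017eb7ea84c8638027bc88a7fb7f176a81d82c80c7ed8847dc82178b7b97ce83f8008007bb7fd7fe81a8107c47f57b58a38527ce7dd8057b481b7b27d381379c7ef8647e00811
 z (n 0 z (n 0 z (n 2 z (n 0 z (n 0 z (n 0 z (n 6423611 z (n 0 z (n 0 z (n
 0x52b1801b26308877d581c82c8047e27ef82a8777d37e088f80080d7528367fa83e8508297e97eb79d74078e8a07ff8017c28018007fd81979d81a7ac8fe8a47c67cd8027f37fd81d7dc7f57dc7ff83f7b80091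
 z (n 6423611 z (n
 0x54d90c08532180c16438377f78278a380a7e07ec7fe7e07fc7e483b7c780e7628597dd81481789484f8277b57ca7ba87182a7f67fe7fc8038357ec7ae7d87bc82a86e7d87e77a483c80b7fd8457ed7b382385580200d1
 z (n 0 z (n 0 z (n
 0x1a6418077f180280c7fc8007f580f80b8037f88167fe7fd7f38007fa8057fe8168028047f17e87fe8008007fc7f87ff7fe8058087f68017f482b8027f17ff8017f38017f17f17ff7f38028077ff0051
 z (n 10 z (n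
 0x8ca8ca82038147d08018398067f77dd83e83381a7d48637ee7fd7a68067fa81d7ee85b7f380f7b27bc7e780b7f68067e27f27fe8148107e78017cc8828127da7ff8167c88077bd7bc81c7ac7f382e7f10811
 z (n 0 z (n 0 z (n 0 z (n 0 z (n 0 z (n 0 z (n 5506603 z (n 3212843 z (n 0 z (n 0 z (n 0 z
 z))))))))))))))))))))))))))))) (n 3 (n 2164283 z (n 0 z (n 0 z (n 0 z (n 0 z (n 0 z z)))))) (n
 1 (n 0 z (n 0 z (n 0 z (n 0 z (n 0 z (n 0 z (n 0 z (n 0 z (n 0 z (n 0 z (n 2164299 z (n 0 z (n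
 0 z (n 0 z (n 0 z (n 0 z (n 0 z (n 0 z (n 0 z z))))))))))))))))))) (n 0 (n 18 z (n 0 z (n 0 z
 (n 0 z (n 2164315 z (n 0 z (n 0 z (n 26 z (n 34 z (n 0 z (n 0 z (n 0 z (n 0 z (n 0 z (n 0 z (n
 0 z z)))))))))))))))) z)))))) (n 475 (n 0 (n 0 z (n 829 (n 2 (n 0 z (n 0 z z)) (n 0 z (n 0 z (n
 0 z (n 0 z (n 0 z (n 0 z (n 0 z (n 0 z (n 0 z (n 0 z z))))))))))) (n 829 (n 0 z (n 0 z (n 0 z
 (n 0 z (n 0 z (n 0 z (n 6428475 z (n 0 z (n 0 z (n 0 z (n 0 z z))))))))))) (n 829 (n 0 z (n 0 z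
 (n 0 z (n 0 z (n 0 z (n 6428427 z (n 0 z (n 0 z (n 0 z (n 0 z (n 0 z z))))))))))) z)))) (n 0 (n
 253 (n 0 z (n 0 z (n 0 z (n 0 z (n 0 z (n 0 z (n 0 z (n 0 z z)))))))) (n 253 (n 0 z (n 0 z (n 0
 z (n 7746067 z (n 0 z (n 0 z (n 0 z (n 0 z z)))))))) (n 253 (n 0 z (n 0 z (n 0 z (n 0 z (n 2 z
 (n 0 z (n 0 z (n 0 z z)))))))) z))) (n 0 (n 0 z (n 0 z z)) (n 0 (n 0 z z) (n 0 z z))))) (n 0 (n
 0 z (n 1 (n 3278363 z (n 3278363 z (n 3278363 z (n 3278363 z (n 3278363 z (n 3278363 z z))))))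
 (n 0 z (n 0 z (n 0 z (n 0 z z)))))) (n 0 z z)))) (n
 0x539da1a24da0d9640893250ab6985632428dd644aa340948a0e22588d5d4826b34524b419 (n 0 (n 713 (n
 3282443 z (n 0 z (n 0 z (n 0 z z)))) (n 35 (n 2 z (n 6558507 z (n 0 z (n 0 z (n 0 z (n 0 z (n 0
 z (n
 0x4c86c860037679697a275e9d46dc6db7618a19df6697dbaa6a6481e8694e069ed4a4e691b65f65d71d9e30801 z
 (n 10 z (n 0 z (n 0 z (n 0 z (n 0 z (n 0 z (n
 0xca6c8600382082082081f8207e179f86082082082086186086082082082081f8208208207e07e07e08210801 z (n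
 3278363 z (n 18 z (n 0 z (n 0 z (n 0 z (n 0 z (n 0 z z)))))))))))))))))))))) (n 129 (n 26 z (n
 34 z (n 3212843 z (n 0 z (n 42 z (n 0 z (n 50 z z))))))) (n 29 (n 58 z (n 0 z (n 0 z (n 0 z (n
 0 z (n 0 z (n 66 z (n 2164283 z (n 0 z (n 0 z (n 74 z (n 0 z (n 0 z (n 0 z z)))))))))))))) (n 1
 (n 6558507 z (n 82 z (n 90 z (n 0 z z)))) (n 0 (n 2164315 z (n 98 z (n 0 z (n 106 z (n 0 z (n 0
 z (n 0 z (n 0 z (n 0 z (n 0 z (n 0 z z))))))))))) z)))))) (n 713 (n 0 (n 0 z (n 0 z (n 429 (n 0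
 z (n 0 z (n 0 z (n 0 z (n 0 z (n 0 z (n 0 z (n 0 z (n 0 z (n 0 z (n 0 z (n 0 z (n 0 z (n 0 z (n
 0 z (n 0 z (n 0 z z))))))))))))))))) (n 429 (n 0 z (n 0 z (n 0 z (n 0 z (n 0 z (n 2 (n 0 z (n 0
 z (n 1 z (n 2 (n 0 z (n 0 z (n 0 z (n 0 z (n 0 z (n 0 z z)))))) (n 2 (n 0 z (n 0 z (n 0 z (n 0
 z (n 0 z (n 0 z z)))))) (n 1 z (n 2 (n 0 z (n 0 z (n 0 z (n 0 z (n 0 z (n 0 z z)))))) (n 1 z (n
 2 (n 0 z (n 0 z (n 0 (n 1924 z z) (n 0 z (n 0 (n 8869451 z z) (n 0 (n 1924 z (n 1924 z z))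
 z)))))) z))))))))) (n 0 z (n 0 z (n 0 z (n 0 z (n 0 z (n 0 z (n 0 z (n 0 z (n 0 z (n 0 z (n 0 z
 z))))))))))))))))) (n 429 (n 2 (n 0 z (n 1 z (n 2 (n 0 z (n 0 z (n 0 z (n 0 z (n 0 z (n 0 z
 z)))))) (n 2 (n 0 z (n 0 z (n 0 z (n 0 z (n 0 z (n 0 z z)))))) (n 1 z (n 2 (n 0 z (n 0 z (n 0 z
 (n 0 z (n 0 z (n 0 z z)))))) (n 1 z (n 2 (n 0 z (n 0 z (n 0 (n 8783659 z z) (n 0 z (n 0 (n
 8783659 z z) (n 0 (n 8587035 z (n 1924 z z)) z)))))) z)))))))) (n 0 z (n 0 z (n 0 z (n 0 z (n 0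
 z (n 0 z (n 0 z (n 0 z (n 0 z (n 0 z (n 0 z (n 0 z (n 0 z (n 0 z (n 0 z (n 0 z
 z))))))))))))))))) (n 429 (n 0 z (n 0 z (n 0 z (n 0 z (n 0 z (n 0 z (n 0 z (n 0 z (n 0 z (n 0 z
 (n 0 z (n 0 z (n 0 z (n 0 z (n 0 z (n 0 z (n 0 z z))))))))))))))))) (n 473 (n 0 z (n 0 z (n 0 z
 (n 0 z (n 0 z (n 0 z (n 0 z (n 0 z (n 0 z (n 0 z z)))))))))) (n 473 (n 0 z (n 0 z (n 0 z (n 0 z
 (n 0 z (n 2 (n 0 z (n 2 (n 0 z (n 0 z (n 0 z (n 0 z (n 0 z (n 0 z z)))))) (n 2 (n 0 z (n 0 z (n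
 0 z (n 0 z (n 0 z (n 0 z z)))))) (n 2 (n 0 z (n 0 z (n 0 z (n 0 z (n 0 z (n 0 (n 1924 z z)
 z)))))) (n 2 (n 0 z (n 0 z (n 0 z (n 0 z (n 0 z (n 0 z z)))))) z))))) (n 0 z (n 0 z (n 0 z (n 0
 z z)))))))))) (n 473 (n 0 z (n 0 z (n 2 (n 2 (n 0 z (n 0 z (n 0 z (n 0 z (n 0 z (n 0 z z))))))
 (n 1 z (n 2 (n 0 z (n 0 z (n 0 z (n 0 z (n 0 z (n 0 (n 8521579 z z) z)))))) (n 2 (n 0 z (n 0 (n
 8851523 z z) (n 0 z (n 0 (n 8851523 z z) (n 0 z (n 0 (n 8851523 z (n 8851523 z z)) z))))))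
 z)))) (n 0 z (n 0 z (n 0 z (n 0 z (n 0 z (n 0 z (n 0 z z)))))))))) (n 445 (n 0 z (n 0 z (n 2 (n
 0 z (n 1 z (n 1 z z))) (n 0 z (n 0 z (n 0 z (n 0 z (n 0 z (n 0 z (n 0 z (n 0 z z))))))))))) (n
 445 (n 0 z (n 2 (n 1 z (n 1 z z)) (n 0 z (n 0 z (n 0 z (n 0 z (n 0 z (n 0 z (n 0 z (n 0 z (n 0
 z z))))))))))) (n 481 (n 0 z (n 0 z (n 0 z (n 0 z (n 0 z (n 0 z (n 0 z (n 0 z (n 0 z (n 0 z (n
 6426739 z (n 2 (n 0 z z) (n 0 z (n 0 z (n 0 z (n 0 z (n 0 z (n 0 z (n 0 z (n 0 z (n 0 z (n 0 z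
 (n 0 z (n 0 z (n 0 z (n 0 z (n 0 z (n 0 z (n 0 z z))))))))))))))))))))))))))))) (n 481 (n 0 z
 (n 0 z (n 0 z (n 0 z (n 0 z (n 0 z (n 0 z (n 0 z (n 0 z (n 0 z (n 0 z (n 0 z (n 0 z (n 0 z (n 0
 z (n 2 z (n 0 z (n 0 z (n 0 z (n 0 z (n 0 z (n 0 z (n 0 z (n 0 z (n 0 z (n 0 z (n 0 z (n 0 z (n
 0 z z))))))))))))))))))))))))))))) z))))))))))))) (n 0 (n 0 z (n 363 (n 0 z (n 0 z (n 0 z (n 0
 z (n 0 z (n 0 z (n 0 z (n 0 z (n 0 z (n 0 z (n 0 z (n 0 z (n 0 z (n 0 z (n 0 z (n 0 z (n 0 z (n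
 0 z (n 0 z (n 0 z (n 0 z z))))))))))))))))))))) (n 363 (n 0 z (n 0 z (n 0 z (n 2 (n 0 z (n 0 z
 (n 2 (n 0 z (n 0 z (n 0 z (n 0 z (n 0 z (n 0 z z)))))) (n 2 (n 0 z (n 0 z (n 0 z (n 0 z (n 0 z
 (n 0 z z)))))) (n 1 z (n 2 (n 0 z (n 0 z (n 0 z (n 0 z (n 0 z (n 0 (n 276 z z) z)))))) (n 1 z
 (n 2 (n 0 z (n 0 z (n 0 z (n 0 z (n 0 z (n 0 (n 1444 z z) z)))))) (n 1 z z))))))))) (n 0 z (n 0
 z (n 0 z (n 0 z (n 0 z (n 0 z (n 0 z (n 0 z (n 0 z (n 0 z (n 0 z (n 0 z (n 0 z (n 0 z (n 0 z (n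
 0 z (n 0 z z))))))))))))))))))))) (n 363 (n 0 z (n 0 z (n 0 z (n 0 z (n 0 z (n 0 z (n 0 z (n 0
 z (n 0 z (n 0 z (n 0 z (n 0 z (n 0 z (n 2 (n 0 z (n 2 (n 0 z (n 0 z (n 0 z (n 0 z (n 0 z (n 0
 (n 5684 z z) z)))))) (n 2 (n 0 z (n 0 z (n 0 z (n 0 z (n 0 z (n 0 z z)))))) (n 1 z (n 1 z (n 1
 z (n 1 z (n 1 z z)))))))) (n 0 z (n 0 z (n 0 z (n 0 z (n 0 z (n 0 z (n 0 z
 z))))))))))))))))))))) (n 363 (n 0 z (n 0 z (n 0 z (n 0 z (n 0 z (n 0 z (n 0 z (n 0 z (n 0 z (n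
 0 z (n 0 z (n 0 z (n 0 z (n 0 z (n 0 z (n 0 z (n 0 z (n 0 z (n 0 z (n 0 z (n 0 z
 z))))))))))))))))))))) (n 1421 (n 0 z (n 0 z (n 0 z (n 0 z (n 0 z (n 0 z (n 0 z (n 0 z (n 2 (n
 0 z (n 0 z (n 1 z (n 1 z (n 1 z (n 1 z z)))))) (n 0 z (n 0 z (n 0 z (n 0 z (n 0 z (n 0 z (n 0 z
 (n 0 z (n 0 z (n 0 z (n 0 z (n 0 z z))))))))))))))))))))) (n 1421 (n 0 z (n 0 z (n 0 z (n 0 z
 (n 0 z (n 0 z (n 0 z (n 0 z (n 0 z (n 0 z (n 0 z (n 0 z (n 0 z (n 0 z (n 0 z (n 0 z (n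
 0xec8ec800382185f7e081f7e07a17df86082082082186182086082082082081f7df8208208207e07e08200801 z (n
 0 z (n 0 z (n 0 z (n 0 z z))))))))))))))))))))) (n 1421 (n 0 z (n 0 z (n 0 z (n 0 z (n 0 z (n 0
 z (n 0 z (n 0 z (n 0 z (n 0 z (n 0 z (n 0 z (n 0 z (n 0 z (n 0 z (n 0 z (n 0 z (n 0 z (n 0 z (n
 0 z (n 0 z z))))))))))))))))))))) (n 69 (n 0 z (n 0 z (n 0 z (n 0 z (n 0 z (n 0 z (n 0 z (n 0 z
 (n 2 (n 0 z (n 1 z (n 1 z z))) (n 0 z (n 0 z (n 0 z (n 0 z (n 0 z (n 0 z (n 0 z (n 0 z (n 0 z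
 (n 0 z (n 0 z (n 0 z z))))))))))))))))))))) (n 69 (n 0 z (n 0 z (n 0 z (n 0 z (n 0 z (n 0 z (n
 0 z (n 0 z (n 0 z (n 0 z (n 0 z (n 0 z (n 0 z (n 0 z (n 0 z (n 0 z (n 0 z (n 0 z (n 0 z (n 0 z
 (n 0 z z))))))))))))))))))))) (n 361 (n 2 (n 0 z z) (n 0 z (n 0 z (n 0 z (n 0 z (n 0 z (n 0 z
 (n 0 z (n 0 z (n 0 z (n 0 z (n 0 z (n 0 z (n 0 z (n 0 z (n 0 z (n 0 z (n 0 z (n 0 z (n 0 z (n 0
 z (n 0 z z)))))))))))))))))))))) (n 361 (n 0 z (n 0 z (n 0 z (n 0 z (n 0 z (n 0 z (n 0 z (n 0 z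
 (n 0 z (n 0 z (n 0 z (n 0 z (n 0 z (n 0 z (n 0 z (n 0 z (n 7754755 z (n 0 z (n 0 z (n 0 z (n 0
 z (n 0 z z)))))))))))))))))))))) z)))))))))))) (n 0 (n 23 (n 2 (n 0 z (n 0 z (n 0 z (n 1 z (n 2
 (n 0 (n 1964 z z) (n 0 z (n 0 z (n 0 z (n 0 (n 8848923 z z) (n 0 (n 7739467 z (n 1964 z z))
 z)))))) (n 2 (n 0 z (n 0 (n 2645 z z) (n 0 z (n 0 z (n 0 z (n 0 (n 1964 z (n 1964 z z)) z))))))
 (n 1 z (n 1 z (n 1 z (n 1 z z)))))))))) (n 0 z (n 0 z (n 0 z (n 0 z (n 0 z (n 0 z (n 0 z (n 0 z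
 (n 0 z (n 0 z (n 0 z z)))))))))))) (n 23 (n 0 z (n 0 z (n 0 z (n 0 z (n 0 z (n 0 z (n 0 z (n 0
 z (n 0 z (n 0 z (n 0 z (n 0 z z)))))))))))) (n 23 (n 0 z (n 0 z (n 0 z (n 0 z (n 0 z (n 0 z (n
 0 z (n 0 z (n 7741699 z (n 0 z (n 0 z (n 0 z z)))))))))))) (n 23 (n 0 z (n 0 z (n 0 z (n 0 z (n
 0 z (n 0 z (n 0 z (n 0 z (n 0 z (n 0 z (n 0 z (n 0 z z)))))))))))) (n 491 (n 2 (n 0 z (n 0 z (n
 1 z (n 1 z (n 1 z (n 1 z z)))))) (n 0 z (n 0 z (n 0 z (n 0 z (n 0 z (n 0 z (n 0 z z)))))))) (n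
 491 (n 0 z (n 0 z (n 0 z (n 0 z (n 0 z (n 0 z (n 0 z (n 0 z z)))))))) (n 491 (n 0 z (n 0 z (n 0
 z (n 0 z (n 0 z (n 0 z (n 0 z (n 2 (n 1 z (n 1 z (n 1 z (n 1 z z)))) z)))))))) (n 51 (n 0 z (n
 0 z (n 0 z (n 0 z (n 0 z (n 0 z (n 0 z (n 0 z (n 0 z (n 0 z (n 7741699 z (n 0 z (n 0 z (n 0 z
 (n 0 z (n 0 z (n 0 z (n 0 z (n 0 z (n 0 z (n 0 z (n 0 z z)))))))))))))))))))))) (n 51 (n 0 z (n
 0 z (n 0 z (n 0 z (n 0 z (n 0 z (n 0 z (n 0 z (n 0 z (n 0 z (n 0 z (n 0 z (n 0 z (n 0 z (n 0 z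
 (n 0 z (n 0 z (n 0 z (n 0 z (n 0 z (n 0 z (n 0 z z)))))))))))))))))))))) (n 49 (n 0 z (n 0 z (n
 0 z (n 0 z (n 0 z (n 0 z (n 0 z (n 0 z (n 0 z (n 0 z (n 0 z (n 0 z (n 0 z (n 7741699 z (n 0 z
 (n 0 z (n 0 z (n 0 z (n 0 z (n 0 z (n 0 z (n 0 z (n 0 z (n 0 z (n 0 z (n 0 z (n 0 z (n 0 z (n 0
 z z))))))))))))))))))))))))))))) (n 49 (n 0 z (n 0 z (n 0 z (n 0 z (n 0 z (n 0 z (n 0 z (n 0 z
 (n 0 z (n 0 z (n 0 z (n 0 z (n 0 z (n 0 z (n 0 z (n 0 z (n 0 z (n 0 z (n 0 z (n 0 z (n 0 z (n 0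
 z (n 0 z (n 0 z (n 0 z (n 0 z (n 0 z (n 0 z (n 0 z z))))))))))))))))))))))))))))) z)))))))))))
 (n 0 (n 0 z (n 0 z (n 0 z (n 661 (n 0 z (n 0 z (n 0 z (n 0 z (n 0 z (n 0 z (n 0 z (n 0 z
 z)))))))) (n 661 (n 0 z (n 0 z (n 0 z (n 0 z (n 0 z (n 0 z (n 0 z (n 2 (n 0 z (n 2 (n 0 z (n 0
 z (n 0 z (n 0 z (n 0 z (n 0 z z)))))) (n 2 (n 0 z (n 0 z (n 0 z (n 0 z (n 0 z (n 0 z z)))))) (n
 2 (n 0 z (n 0 z (n 0 z (n 0 z (n 0 z (n 0 z z)))))) (n 2 (n 0 z (n 0 z (n 0 z (n 0 z (n 0 z (n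
 0 z z)))))) z))))) z)))))))) (n 661 (n 0 z (n 0 z (n 0 z (n 0 z (n 0 z (n 0 z (n 2 (n 2 (n 0 z
 (n 0 z (n 0 z (n 0 z (n 0 z (n 0 z z)))))) (n 1 z (n 2 (n 0 z (n 0 z (n 0 z (n 0 z (n 0 z (n 0
 (n 1012 z z) z)))))) (n 2 (n 0 z (n 0 (n 8851523 z z) (n 0 z (n 0 z (n 0 z (n 0 (n 8851523 z (n
 8851523 z z)) z)))))) z)))) (n 0 z z)))))))) (n 255 (n 0 z (n 0 z (n 0 z (n 0 z (n 0 z (n 2 (n
 0 z (n 1 z (n 1 z z))) (n 0 z (n 0 z (n 0 z z))))))))) (n 255 (n 0 z (n 0 z (n 0 z (n 0 z (n 0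
 z (n 0 z (n 0 z (n 2 (n 1 z (n 1 z z)) (n 0 z z))))))))) (n 253 (n 0 z (n 2 (n 0 z z) (n 0 z (n
 0 z (n 0 z (n 0 z (n 0 z (n 0 z (n 0 z z))))))))) (n 253 (n 0 z (n 0 z (n 0 z (n 0 z (n 2 z (n
 0 z (n 0 z (n 0 z (n 0 z z))))))))) z)))))))))) (n 0 (n 0 z (n 0 z (n 1097 (n 0 z (n 0 z (n 0 z
 (n 0 z (n 0 z (n 0 z (n 0 z (n 0 z (n 0 z (n 0 z (n 0 z (n 0 z (n 0 z (n 0 z z)))))))))))))) (n
 1097 (n 0 z (n 0 z (n 0 z (n 0 z (n 0 z (n 0 z (n 0 z (n 2 (n 0 z (n 2 (n 0 z (n 0 z (n 0 z (n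
 0 z (n 0 z (n 0 z z)))))) (n 2 (n 0 z (n 0 z (n 0 z (n 0 z (n 0 z (n 0 (n 8718187 z z) z))))))
 (n 2 (n 0 z (n 0 z (n 0 z (n 0 z (n 0 z (n 0 z z)))))) (n 2 (n 0 z (n 0 z (n 0 z (n 0 z (n 0 z
 (n 0 z z)))))) z))))) (n 0 z (n 0 z (n 0 z (n 0 z (n 0 z (n 0 z z)))))))))))))) (n 1097 (n 0 z
 (n 0 z (n 0 z (n 0 z (n 0 z (n 0 z (n 0 z (n 0 z (n 0 z (n 0 z (n 0 z (n 0 z (n 0 z (n 0 z
 z)))))))))))))) (n 255 (n 0 z (n 0 z (n 0 z (n 0 z z)))) (n 255 (n 0 z (n 0 z (n 0 z (n 0 z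
 z)))) (n 253 (n 0 z (n 0 z (n 2 (n 0 z z) (n 0 z (n 0 z (n 0 z (n 0 z (n 0 z z)))))))) (n 253
 (n 0 z (n 0 z (n 0 z (n 0 z (n 2 z (n 0 z (n 0 z (n 0 z z)))))))) z))))))))) (n 0 (n 0 z (n 487
 (n 2 (n 0 z (n 0 z (n 1 z (n 2 (n 0 z (n 0 z (n 0 z (n 0 z (n 0 z (n 0 (n 2124 z z) z)))))) (n
 1 z (n 2 (n 0 z (n 0 z (n 0 z (n 0 z (n 0 z (n 0 z z)))))) z)))))) (n 0 z (n 0 z (n 0 z (n 0 z
 (n 0 z (n 0 z (n 0 z z)))))))) (n 487 (n 0 z (n 0 z (n 0 z (n 2 (n 0 z (n 2 (n 0 z (n 0 z (n 0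
 z (n 0 z (n 0 z (n 0 z z)))))) (n 2 (n 0 z (n 0 z (n 0 z (n 0 z (n 0 z (n 0 z z)))))) (n 2 (n 0
 z (n 0 z (n 0 z (n 0 z (n 0 z (n 0 z z)))))) (n 2 (n 0 z (n 0 z (n 0 z (n 0 z (n 0 z (n 0 z
 z)))))) z))))) (n 0 z (n 0 z (n 0 z (n 0 z z)))))))) (n 487 (n 0 z (n 0 z (n 0 z (n 0 z (n 0 z
 (n 2 (n 2 (n 0 z (n 0 z (n 0 z (n 0 z (n 0 z (n 0 (n 8790275 z z) z)))))) (n 1 z (n 2 (n 0 z (n
 0 z (n 0 z (n 0 z (n 0 z (n 0 z z)))))) (n 2 (n 0 (n 8851523 z z) (n 0 z (n 0 z (n 0 (n 8851523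
 z z) (n 0 z (n 0 (n 8851523 z (n 8851523 z z)) z)))))) z)))) (n 0 z (n 0 z z)))))))) (n 531 (n
 0 z (n 0 z (n 0 z (n 0 z (n 0 z (n 0 z z)))))) (n 531 (n 0 z (n 0 z (n 0 z (n 0 z (n 0 z (n 2
 (n 1 z (n 1 z z)) z)))))) (n 529 (n 0 z (n 0 z (n 0 z (n 0 z (n 0 z (n 0 z (n 0 z (n 0 z (n 0 z
 (n 0 z (n 0 z (n 0 z (n 0 z z))))))))))))) (n 529 (n 0 z (n 0 z (n 0 z (n 0 z (n 0 z (n 0 z (n
 2 z (n 0 z (n 0 z (n 0 z (n 0 z (n 0 z (n 0 z z))))))))))))) z)))))))) (n 0 (n 1177 (n 0 z (n 0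
 z (n 0 z (n 0 z (n 0 z (n 0 z (n 0 z (n 0 z (n 0 z (n 0 z (n 0 z (n 2 (n 0 z (n 0 z (n 1 z (n 1
 z (n 1 z (n 2 (n 0 z (n 0 (n 8803331 z z) (n 0 z (n 0 z (n 0 z (n 0 (n 8803331 z (n 8803331 z
 z)) z)))))) z)))))) z)))))))))))) (n 1177 (n 0 z (n 0 z (n 0 z (n 0 z (n 0 z (n 0 z (n 0 z (n 0
 z (n 0 z (n 0 z (n 0 z (n 0 z z)))))))))))) (n 1177 (n 0 z (n 0 z (n 0 z (n 0 z (n 0 z (n 0 z
 (n 0 z (n 0 z (n 0 z (n 0 z (n 0 z (n 0 z z)))))))))))) (n 255 (n 0 z (n 0 z (n 0 z (n 0 z (n 0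
 z (n 0 z (n 2 (n 0 z (n 1 z (n 1 z z))) z))))))) (n 255 (n 0 z (n 0 z (n 0 z (n 0 z (n 0 z (n 0
 z (n 0 z z))))))) (n 253 (n 0 z (n 0 z (n 2 (n 0 z z) (n 0 z (n 0 z (n 0 z (n 0 z (n 0 z (n 0 z
 (n 0 z z)))))))))) (n 253 (n 0 z (n 0 z (n 0 z (n 7754755 z (n 0 z (n 0 z (n 0 z (n 0 z (n 0 z
 (n 0 z z)))))))))) z))))))) (n 0 (n 0 z (n 0 z (n 51 (n 0 z (n 0 z (n 0 z (n 0 z (n 0 z (n 0 z
 (n 2 (n 0 z (n 1 z (n 1 z z))) (n 0 z (n 0 z (n 0 z (n 0 z (n 0 z (n 0 z (n 0 z (n 0 z (n 0 z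
 (n 0 z (n 0 z z)))))))))))))))))) (n 51 (n 0 z (n 0 z (n 0 z (n 0 z (n 0 z (n 0 z (n 0 z (n 0 z
 (n 0 z (n 0 z (n 0 z (n 0 z (n 0 z (n 0 z (n 2 (n 1 z (n 1 z z)) (n 0 z (n 0 z (n 0 z
 z)))))))))))))))))) (n 49 (n 0 z (n 0 z (n 0 z (n 0 z (n 0 z (n 2 (n 0 z z) (n 0 z (n 0 z (n 0
 z (n 0 z (n 0 z (n 0 z (n 0 z (n 0 z (n 0 z (n 0 z z)))))))))))))))) (n 49 (n 0 z (n 0 z (n 0 z
 (n 0 z (n 0 z (n 0 z (n 0 z (n 0 z (n 0 z (n 0 z (n 2 z (n 0 z (n 0 z (n 0 z (n 0 z (n 0 z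
 z)))))))))))))))) z)))))) (n 0 (n 0 z (n 51 (n 0 z (n 0 z (n 0 z (n 0 z (n 2 (n 0 z (n 1 z (n 2
 (n 0 z (n 0 z (n 0 z (n 0 z (n 0 z (n 0 z z)))))) z))) (n 0 z z)))))) (n 51 (n 0 z (n 0 z (n 0
 z (n 0 z (n 0 z (n 0 z z)))))) (n 49 (n 0 z (n 0 z (n 2 (n 0 z z) (n 0 z (n 0 z (n 0 z (n 0 z
 z))))))) (n 49 (n 0 z (n 0 z (n 0 z (n 0 z (n 0 z (n 0 z (n 0 z z))))))) z))))) (n 0 (n 51 (n 0
 z (n 0 z (n 0 z (n 0 z (n 0 z (n 0 z (n 0 z (n 0 z (n 0 z (n 0 z (n 2 (n 0 z (n 1 z (n 2 (n 0 z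
 (n 0 (n 8785987 z z) (n 0 (n 8785987 z z) (n 0 z (n 0 z (n 0 (n 8785987 z (n 8785987 z z))
 z)))))) z))) z))))))))))) (n 51 (n 0 z (n 0 z (n 0 z (n 0 z (n 0 z (n 0 z (n 0 z (n 0 z (n 0 z
 (n 0 z (n 0 z z))))))))))) (n 49 (n 0 z (n 0 z (n 0 z (n 2 (n 0 z z) (n 0 z (n 0 z (n 0 z (n 0
 z (n 0 z (n 0 z z)))))))))) (n 49 (n 0 z (n 0 z (n 0 z (n 0 z (n 0 z (n 0 z (n 0 z (n 0 z (n 0
 z (n 0 z z)))))))))) z)))) (n 0 (n 0 z (n 961 (n 0 z (n 0 z (n 0 z (n 0 z (n 0 z (n 0 z (n 0 z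
 (n 0 z (n 0 z (n 0 z (n 0 z (n 0 z (n 0 z (n 0 z z)))))))))))))) (n 961 (n 0 z (n 2 z (n 0 z (n
 0 z (n 0 z (n 0 z (n 0 z (n 0 z (n 0 z (n 0 z (n 0 z (n 0 z (n 0 z (n 0 z z)))))))))))))) z)))
 (n 0 (n 1 (n 0 z (n 0 z (n 0 z (n 0 z (n 0 z (n 2 (n 0 z z) (n 0 z (n 0 z (n 0 z (n 0 z (n 0 z
 (n 0 z (n 0 z (n 0 z (n 0 z (n 0 z z)))))))))))))))) (n 1 (n 0 z (n 7754755 z (n 0 z (n 0 z (n
 0 z (n 0 z (n 0 z (n 0 z (n 0 z (n 0 z (n 0 z (n 0 z (n 0 z (n 0 z (n 0 z (n 0 z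
 z)))))))))))))))) z)) (n 0 (n 0 z z) (n 0 z z)))))))))))))) (n 0 (n 1 (n 3282443 z (n 3282443 z
 (n 3282443 z (n 3282443 z (n 3282443 z (n 3282443 z z)))))) (n 0 z (n 0 z (n 0 z z)))) (n 0 z
 z)))) (n 0x5659a1e49d08b26c05931879c91849b88325b4338d31a671e09a2b0991382891ac80d3cc0 (n 0 (n
 525 (n 0 z (n 0 z (n 3282443 z (n 0 z (n 0 z (n 2 z (n 10 z (n 0 z (n 0 z (n 0 z z)))))))))) (n
 33 (n 0 z (n 0 z (n 0 z (n 3278363 z (n 0 z z))))) (n 197 (n 0 z (n 0 z (n 3212843 z (n 0 z (n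
 0 z (n 18 z (n 26 z (n 0 z (n 34 z (n 0 z z)))))))))) (n 3 (n 0 z (n
 0xfd95194080e084ca4ca400782d7988288297ef8008017e67ff80089884e7ab82b76c7c88cb8338568ad7e37f676c84a7b17738588457a677c87880478a82582e8288707df77385474376b7bb83c8a57cc83c75a85a7fd1011
 z (n 0 z (n 42 z (n 0 z (n 0 z (n 50 z (n 58 z (n 0 z (n 66 z (n 0 z (n 2164283 z (n
 0x3d94d50480602ca6a80403965e818d717e6e87778096877e7f7484927b7d9079857b837e688b7c71867f857d938584857c78866b79798a877782817f801009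
 z z))))))))))))) (n 1 (n 6636331 z (n 0 z (n 0 z (n 74 z (n 0 z (n 82 z (n 0 z (n 0 z (n 0 z (n
 0 z (n 0 z z))))))))))) (n 0 (n
 0xa6b1000db62083777e8178237fc7ff7f38047eb80184c8457a88087857f985c7e881e82b7d58077bd7f88057c38578168057df8418117c883481582283d8107ec80c7b28197d28578127e58457c07f98060091
 z (n 0 z (n
 0xb65142030380cb21b21901c1059490c800e078864ca200782b73583e81d85c80080a7b880081a84183d7617e279f80383c7f489a8287ed7db77a7d68177d382583a8458128188018107df82981c8357cb8248187bb7917c98317f97da7ee77e8367bb2011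
 z (n 0 z (n 6636331 z (n 90 z (n
 0x2c86c62407807f817e817e807f828180817f817f81807f808080808080807e827f81827f81818181808080808080808180807f808080800809
 z (n 3212891 z (n
 0x4c86c86403887a7e7e7a7f7b7f7f7c848380867a80887d7e847d8180868075887e7a8082847c8881837e7f79857b7b8084857c82837f7e0809
 z (n 98 z (n
 0x2c86c864037f80807f817e807f8180808180817f818080808080808081807e817e81817f808080808080808080808081808080808080800809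
 z (n 0 z (n 0 z (n 0 z (n 0 z (n 0 z (n 0 z (n 106 z (n 0 z (n 0 z (n
 0x2c84c80603807f817e817e807f828180817f817f81807f808080808080807e827f81827f81818181808080808080808180807f808080800809
 z (n 0 z (n 0 z (n 0 z (n
 0x4c86c86403817d817d817d807e837e80827f817e81807d80817f818081817d827f82857e827f827f7f7f7f82817f8082807f7f808181800809
 z (n 0 z (n
 0x18b640b844796d18994d9077899c82a094797fa07679c477927c9f5a5ca06e499669a371a9798f8d6638a35a405b81bc638a858d880049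
 z (n
 0x2c86c864037f80807f817e807f8180808180817f818080808080808081807e817e81817f808080808080808080808081808080808080800809
 z (n 0 z z))))))))))))))))))))))))))))) z)))))) (n 33 (n 0 (n 0 z (n 1047 (n 0 z (n 0 z (n 0 z
 (n 0 z (n 0 z (n 0 z (n 0 z (n 0 z (n 0 z (n 2 (n 0 z (n 0 z (n 2 (n 0 z (n 0 z (n 0 z (n 0 z
 (n 0 z (n 0 z z)))))) (n 2 (n 0 z (n 0 z (n 0 z (n 0 z (n 0 z (n 0 z z)))))) (n 2 (n 0 z (n 0 z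
 (n 0 z (n 0 z (n 0 (n 4180 z z) (n 0 z z)))))) (n 2 (n 0 z (n 0 z (n 0 z (n 0 z (n 0 z (n 0 z
 z)))))) (n 1 z (n 1 z (n 1 z (n 2 (n 0 z (n 0 z (n 0 z (n 0 z (n 0 z (n 0 z z)))))) (n 1 z
 z))))))))))) (n 0 z z))))))))))) (n 1047 (n 0 z (n 0 z (n 0 z (n 0 z (n 0 z (n 0 z (n 0 z (n 2
 (n 0 z (n 2 (n 0 z (n 0 z (n 0 z (n 0 z (n 0 z (n 0 z z)))))) (n 2 (n 0 z (n 0 z (n 0 z (n 0 z
 (n 0 z (n 0 z z)))))) (n 2 (n 0 z (n 0 z (n 0 z (n 0 z (n 0 z (n 0 z z)))))) (n 2 (n 0 z (n 0 z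
 (n 0 z (n 0 z (n 0 z (n 0 z z)))))) (n 1 z (n 2 (n 0 z (n 0 z (n 0 z (n 0 z (n 0 z (n 0 z
 z)))))) (n 2 (n 0 z (n 0 z (n 0 z (n 0 z (n 0 (n 4036 z z) (n 0 z z)))))) (n 2 (n 0 z (n 0 z (n
 0 z (n 0 z (n 0 (n 1077 z z) (n 0 z z)))))) (n 2 (n 0 z (n 0 (n 8803091 z z) (n 0 z (n 0 z (n 0
 (n 8803091 z (n 8803091 z z)) (n 0 (n 8803091 z z) z)))))) z)))))))))) (n 0 z (n 0 z (n 0 z
 z))))))))))) (n 1047 (n 0 z (n 0 z (n 0 z (n 0 z (n 0 z (n 0 z (n 0 z (n 0 z (n 0 z (n 0 z (n 2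
 (n 1 z (n 1 z (n 1 z (n 1 z (n 1 z (n 1 z (n 1 z (n 1 z (n 1 z z))))))))) z))))))))))) (n 1045
 (n 0 z (n 0 z (n 0 z (n 0 z (n 0 z (n 0 z (n 0 z (n 0 z (n 0 z (n 0 z (n 0 z (n 2 (n 0 z (n 0 z
 (n 0 z (n 1 z (n 2 (n 0 z (n 0 z (n 0 z (n 0 z (n 0 (n 1212 z z) (n 0 z z)))))) (n 2 (n 0 z (n
 0 z (n 0 z (n 0 z (n 0 (n 4036 z z) (n 0 z z)))))) (n 1 z (n 1 z z)))))))) z)))))))))))) (n
 1045 (n 0 z (n 0 z (n 0 z (n 0 z (n 0 z (n 0 z (n 0 z (n 0 z (n 0 z (n 0 z (n 0 z (n 0 z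
 z)))))))))))) (n 1045 (n 0 z (n 0 z (n 0 z (n 2 (n 0 z (n 1 z (n 1 z (n 1 z (n 1 z (n 1 z
 z)))))) (n 0 z (n 0 z (n 0 z (n 0 z (n 0 z (n 0 z (n 0 z (n 0 z z)))))))))))) (n 1045 (n 0 z (n
 0 z (n 2 (n 1 z (n 1 z (n 1 z (n 1 z (n 1 z z))))) (n 0 z (n 0 z (n 0 z (n 0 z (n 0 z (n 0 z (n
 0 z (n 0 z (n 0 z z)))))))))))) (n 303 (n 0 z (n 0 z (n 0 z (n 0 z (n 0 z (n 0 z (n 0 z
 z))))))) (n 303 (n 0 z (n 0 z (n 0 z (n 2 (n 1 z (n 1 z (n 1 z z))) (n 0 z (n 0 z (n 0 z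
 z))))))) (n 1009 (n 0 z (n 0 z (n 2 (n 0 z (n 0 z z)) (n 0 z (n 0 z (n 0 z (n 0 z (n 0 z (n 0 z
 (n 0 z (n 0 z (n 0 z (n 0 z (n 0 z (n 0 z (n 0 z (n 0 z (n 0 z (n 0 z (n 0 z (n 0 z (n 0 z
 z)))))))))))))))))))))) (n 1009 (n 0 z (n 0 z (n 0 z (n 0 z (n 0 z (n 0 z (n 0 z (n 0 z (n 0 z
 (n 0 z (n 0 z (n 0 z (n 0 z (n 0 z (n 0 z (n 0 z (n 0 z (n 0 z (n 0 z (n
 0x1d91d08c0600ea6c86403817f80817f81807f7f7f808080808080808080808080808080808080808080808080808080808080807f80808080808080801009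
 z (n 2 (n 0 z z) (n 0 z z)))))))))))))))))))))) (n 1009 (n 0 z (n 0 z (n 0 z (n 0 z (n 0 z (n 0
 z (n 0 z (n 0 z (n 0 z (n 0 z (n 0 z (n 0 z (n 0 z (n 7754515 z (n 0 z (n 0 z (n 0 z (n 0 z (n
 0 z (n 0 z (n 0 z (n 0 z z)))))))))))))))))))))) z))))))))))))) (n 0 (n 971 (n 0 z (n 0 z (n 0
 z (n 0 z (n 0 z (n 0 z (n 0 z (n 0 z (n 0 z z))))))))) (n 971 (n 0 z (n 0 z (n 0 z (n 0 z (n 0
 z (n 0 z (n 0 z (n 0 z (n 0 z z))))))))) (n 971 (n 0 z (n 0 z (n 0 z (n 0 z (n 0 z (n 0 z (n 0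
 z (n 2 (n 2 (n 0 z (n 0 z (n 0 z (n 0 z (n 0 z (n 0 z z)))))) (n 2 (n 0 z (n 0 (n 6428763 z z)
 (n 0 z (n 0 (n 1549 z z) (n 0 (n 8783691 z (n 7477339 z z)) (n 0 z z)))))) (n 1 z (n 2 (n 0 z
 (n 0 z (n 0 z (n 0 z (n 0 (n 8852491 z (n 8852491 z z)) (n 0 (n 8852491 z z) z)))))) (n 1 z (n
 1 z (n 1 z (n 2 (n 0 z (n 0 z (n 0 z (n 0 (n 8852491 z z) (n 0 (n 8852491 z (n 8852491 z z)) (n
 0 (n 8852491 z z) z)))))) (n 1 z z))))))))) (n 0 z z))))))))) (n 969 (n 0 z (n 0 z (n 0 z (n 0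
 z (n 0 z (n 0 z (n 0 z (n 2 (n 0 z (n 0 z (n 0 z (n 2 (n 0 z (n 0 z (n 0 z (n 0 z (n 0 z (n 0 z
 z)))))) (n 1 z (n 1 z (n 2 (n 0 z (n 0 (n 21 z z) (n 0 (n 1060 z z) (n 0 z (n 0 (n 1060 z (n
 1060 z z)) (n 0 z z)))))) (n 2 (n 0 z (n 0 (n 7538715 z (n 1060 z z)) (n 0 z (n 0 (n 1060 z (n
 7538715 z z)) (n 0 z (n 0 (n 1060 z (n 1060 z z)) z)))))) z)))))))) (n 0 z (n 0 z (n 0 z (n 0 z
 z)))))))))))) (n 969 (n 0 z (n 0 z (n 0 z (n 0 z (n 0 z (n 0 z (n 0 z (n 0 z (n 2 (n 0 z (n 0 z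
 (n 1 z (n 1 z (n 1 z (n 2 (n 0 (n 21 z z) (n 0 (n 21 z z) (n 0 z (n 0 z (n 0 (n 1060 z (n 1060
 z z)) (n 0 z z)))))) (n 1 z z))))))) (n 0 z (n 0 z (n 0 z z)))))))))))) (n 969 (n 0 z (n 0 z (n
 0 z (n 7749651 z (n 0 z (n 0 z (n 0 z (n 0 z (n 0 z (n 0 z (n 0 z (n 0 z z)))))))))))) (n 969
 (n 0 z (n 2 (n 1 z (n 1 z (n 1 z (n 1 z (n 1 z z))))) (n 0 z (n 0 z (n 0 z (n 0 z (n 0 z (n 0 z
 (n 0 z (n 0 z (n 0 z (n 0 z z)))))))))))) (n 249 (n 0 z (n 0 z (n 0 z (n 0 z (n 0 z (n 0 z (n 2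
 (n 0 z (n 1 z (n 1 z (n 1 z z)))) (n 0 z (n 0 z (n 0 z (n 0 z (n 0 z (n 0 z (n 0 z (n 0 z (n 0
 z z)))))))))))))))) (n 249 (n 7749651 z (n 0 z (n 0 z (n 0 z (n 0 z (n 0 z (n 0 z (n 0 z (n 0 z
 (n 0 z (n 0 z (n 0 z (n 0 z (n 0 z (n 0 z (n 0 z z)))))))))))))))) (n 265 (n 0 z (n 7749651 z
 (n 0 z (n 0 z (n 0 z (n 0 z (n 0 z (n 0 z (n 0 z (n 0 z (n 0 z (n 0 z (n 0 z (n 0 z (n 0 z (n 0
 z (n 0 z (n 0 z (n 0 z (n 0 z (n 0 z (n 0 z (n 0 z (n 0 z (n 0 z (n 0 z (n 0 z (n 0 z (n 0 z (n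
 0 z (n 0 z (n 0 z (n 0 z (n 0 z (n 0 z (n 0 z z)))))))))))))))))))))))))))))))))))) (n 265 (n 0
 z (n 0 z (n 0 z (n 0 z (n 0 z (n 0 z (n 0 z (n 0 z (n 0 z (n 0 z (n 0 z (n 0 z (n 0 z (n 0 z (n
 0 z (n 0 z (n 0 z (n 0 z (n 0 z (n 0 z (n 0 z (n 0 z (n 0 z (n 0 z (n 0 z (n 0 z (n 2 (n 0 z z)
 (n
 0xcec8ec46078d70827a7b7a7f7f7f81888979827179907e868d817d76847d718c847a7a88837385808a8682758876767f85917b8b75897f0809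
 z (n 0 z (n 0 z (n 0 z (n 0 z (n 0 z (n 0 z (n 0 z (n 0 z z))))))))))))))))))))))))))))))))))))
 (n 265 (n 0 z (n 0 z (n 0 z (n 0 z (n 0 z (n 0 z (n 0 z (n 0 z (n 0 z (n 0 z (n
 0xaea6c86407996c7e75687c747d84808c84809077809b787a90778578927a658d7a6c857d8b7b96848f7e7f698e6e65808393758789837a0809
 z (n 0 z (n 0 z (n 0 z (n 0 z (n 0 z (n 0 z (n 0 z (n 0 z (n 0 z (n 0 z (n 0 z (n 0 z (n 0 z (n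
 0 z (n 0 z (n 0 z (n 0 z (n 0 z (n 0 z (n 0 z (n 0 z (n 0 z (n 0 z (n 0 z (n 0 z
 z)))))))))))))))))))))))))))))))))))) z)))))))))))) (n 0 (n 0 z (n 0 z (n 1097 (n 0 z (n 0 z (n
 0 z (n 0 z (n 0 z (n 0 z (n 0 z (n 0 z (n 0 z (n 0 z z)))))))))) (n 1097 (n 0 z (n 0 z (n 0 z
 (n 0 z (n 0 z (n 2 (n 0 z (n 0 z (n 2 (n 0 z (n 0 z (n 0 z (n 0 z (n 0 (n 8868627 z z) (n 0 z
 z)))))) (n 1 z (n 1 z (n 2 (n 0 z (n 0 z (n 0 z (n 0 z (n 0 z (n 0 z z)))))) (n 2 (n 0 z (n 0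
 (n 8868627 z z) (n 0 z (n 0 z (n 0 (n 8868627 z (n 8868627 z z)) (n 0 (n 8868627 z z) z))))))
 z))))))) (n 0 z (n 0 z (n 0 z (n 0 z z)))))))))) (n 1097 (n 0 z (n 0 z (n 0 z (n 0 z (n 0 z (n
 0 z (n 0 z (n 0 z (n 0 z (n 0 z z)))))))))) (n 1097 (n 0 z (n 0 z (n 2 (n 2 (n 0 z (n 0 z (n 0
 z (n 0 z (n 0 z (n 0 z z)))))) (n 1 z (n 1 z (n 2 (n 0 z (n 0 z (n 0 z (n 0 z (n 0 (n 8872467 z
 z) (n 0 z z)))))) (n 2 (n 0 z (n 0 z (n 0 z (n 0 z (n 0 (n 4084 z (n 4084 z z)) (n 0 (n 21 z z)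
 z)))))) z))))) (n 0 z (n 0 z (n 0 z (n 0 z (n 0 z (n 0 z (n 0 z z)))))))))) (n 15 (n 0 z (n 0 z
 (n 0 z (n 2 (n 0 z (n 1 z (n 2 (n 0 z (n 0 z (n 0 z (n 0 z (n 0 z (n 0 z z)))))) (n 1 z z))))
 (n 0 z (n 0 z (n 0 z (n 0 z (n 0 z z))))))))) (n 15 (n 0 z (n 0 z (n 0 z (n 0 z (n 0 z (n 0 z
 (n 0 z (n 0 z (n 0 z z))))))))) (n 1021 (n 0 z (n 0 z (n 0 z (n 0 z (n 0 z (n 0 z (n 0 z (n 0 z
 (n 0 z (n 0 z (n 0 z z))))))))))) (n 1021 (n 0 z (n 0 z (n 0 z (n 0 z (n 0 z (n 0 z (n 2 (n 0 z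
 z) (n 0 z (n 0 z (n 0 z (n 0 z z))))))))))) (n 1021 (n 0 z (n 0 z (n 2 z (n 0 z (n 0 z (n 0 z
 (n 0 z (n 0 z (n 0 z (n 0 z (n 0 z z))))))))))) z))))))))))) (n 0 (n 0 z (n 1421 (n 0 z (n 0 z
 (n 0 z (n 0 z (n 0 z (n 0 z (n 0 z (n 0 z (n 0 z (n 0 z (n 0 z (n 2 (n 0 z (n 0 z (n 0 z (n 2
 (n 0 z (n 0 z (n 0 z (n 0 z (n 0 z (n 0 z z)))))) (n 2 (n 0 z (n 0 z (n 0 z (n 0 z (n 0 (n
 8456043 z z) (n 0 z z)))))) (n 2 (n 0 z (n 0 z (n 0 z (n 0 z (n 0 z (n 0 z z)))))) (n 2 (n 0 z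
 (n 0 z (n 0 z (n 0 z (n 0 z (n 0 z z)))))) (n 2 (n 0 z (n 0 z (n 0 z (n 0 z (n 0 z (n 0 z
 z)))))) z)))))))) (n 0 z z))))))))))))) (n 1421 (n 0 z (n 0 z (n 0 z (n 0 z (n 0 z (n 0 z (n 0
 z (n 0 z (n 0 z (n 2 (n 0 z (n 0 z (n 2 (n 0 z (n 0 z (n 0 z (n 0 z (n 0 z (n 0 z z)))))) (n 2
 (n 0 z (n 0 z (n 0 z (n 0 z (n 0 z (n 0 z z)))))) (n 2 (n 0 z (n 0 z (n 0 z (n 0 z (n 0 z (n 0
 z z)))))) (n 2 (n 0 z (n 0 z (n 0 z (n 0 z (n 0 z (n 0 z z)))))) (n 2 (n 0 z (n 0 z (n 0 z (n 0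
 z (n 0 z (n 0 z z)))))) z))))))) (n 0 z (n 0 z (n 0 z z))))))))))))) (n 1421 (n 0 z (n 0 z (n 0
 z (n 0 z (n 0 z (n 0 z (n 0 z (n 0 z (n 0 z (n 0 z (n 0 z (n 0 z (n 0 z z))))))))))))) (n 1421
 (n 0 z (n 0 z (n 0 z (n 0 z (n 0 z (n 0 z (n 2 (n 2 (n 0 z (n 0 z (n 0 z (n 0 z (n 0 z (n 0 z
 z)))))) (n 2 (n 0 z (n 0 z (n 0 z (n 0 z (n 0 z (n 0 z z)))))) (n 2 (n 0 z (n 0 z (n 0 z (n 0 z
 (n 0 z (n 0 z z)))))) (n 2 (n 0 z (n 0 z (n 0 z (n 0 z (n 0 z (n 0 z z)))))) (n 2 (n 0 z (n 0 z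
 (n 0 z (n 0 z (n 0 z (n 0 z z)))))) z))))) (n 0 z (n 0 z (n 0 z (n 0 z (n 0 z (n 0 z
 z))))))))))))) (n 21 (n 0 z (n 0 z (n 0 z (n 2 (n 0 z (n 2 (n 0 z (n 0 z (n 0 z (n 0 z (n 0 z
 (n 0 z z)))))) (n 2 (n 0 z (n 0 z (n 0 z (n 0 z (n 0 z (n 0 z z)))))) (n 2 (n 0 z (n 0 z (n 0 z
 (n 0 (n 8868627 z z) (n 0 (n 8868627 z (n 8868627 z z)) (n 0 (n 8868627 z z) z)))))) z)))) (n 0
 z (n 0 z (n 0 z (n 0 z (n 0 z (n 0 z z)))))))))) (n 21 (n 0 z (n 0 z (n 0 z (n 0 z (n 0 z (n 0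
 z (n 0 z (n 0 z (n 0 z (n 0 z z)))))))))) (n 269 (n 0 z (n 0 z (n 0 z (n 0 z (n
 0x49909d40c061cca2ca0603817d8b938a7a817a777f8a817772817a8183899a8c8766867289808b8c7c7e7f7f7881788d737f81636c767d848f855f8f8f1009
 z (n
 0x29909d40c0e2cca2ca06078a72797c728f778b7a80667594849286607763597984aa79918a767080a56e8a92887e7b67939676a8b08d7e668476b5607a1009
 z (n 0 z (n 0 z z)))))))) (n 269 (n 0 z (n 0 z (n 0 z (n 0 z (n 0 z (n 0 z (n 0 z (n 2 (n 0 z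
 z) z)))))))) (n 269 (n 0 z (n 0 z (n 0 z (n 0 z (n 0 z (n 0 z (n 0 z (n 0 z z))))))))
 z)))))))))) (n 0 (n 387 (n 0 z (n 0 z (n 0 z (n 0 z (n 0 z (n 0 z (n 0 z (n 0 z (n 0 z (n 0 z
 z)))))))))) (n 387 (n 0 z (n 0 z (n 0 z (n 0 z (n 0 z (n 2 (n 0 z (n 0 z (n 1 z (n 2 (n 0 z (n
 0 z (n 0 z (n 0 z (n 0 (n 972 z z) (n 0 z z)))))) (n 2 (n 0 z (n 0 z (n 0 z (n 0 z (n 0 z (n 0
 z z)))))) (n 1 z (n 1 z z))))))) (n 0 z (n 0 z (n 0 z (n 0 z z)))))))))) (n 387 (n 0 z (n 0 z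
 (n 0 z (n 0 z (n 0 z (n 0 z (n 2 (n 0 z (n 1 z (n 1 z (n 1 z (n 2 (n 0 z (n 0 z (n 0 z (n 0 z
 (n 0 z (n 0 z z)))))) (n 1 z z)))))) (n 0 z (n 0 z (n 0 z z)))))))))) (n 387 (n 0 z (n 0 z (n 0
 z (n 0 z (n 0 z (n 0 z (n 0 z (n 0 z (n 0 z (n 0 z z)))))))))) (n 243 (n 0 z (n 0 z (n 0 z (n 0
 z (n 0 z (n 0 z (n 2 (n 0 z (n 1 z (n 1 z (n 1 z z)))) (n 0 z (n 0 z (n 0 z (n 0 z (n 0 z (n 0
 z (n 0 z (n 0 z (n 0 z z)))))))))))))))) (n 243 (n 0 z (n 0 z (n 0 z (n 0 z (n 0 z (n 0 z (n 0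
 z (n 0 z (n 2 (n 1 z (n 2 (n 0 z (n 0 z (n 0 z (n 0 z (n 0 (n 8786955 z z) (n 0 z z)))))) (n 1
 z z))) (n 0 z (n 0 z (n 0 z (n 0 z (n 0 z (n 0 z (n 0 z z)))))))))))))))) (n 265 (n 2 (n 0 z (n
 0 z z)) (n 0 z (n 0 z (n 0 z (n 0 z (n 0 z (n 0 z (n 0 z (n 0 z (n 0 z (n 0 z (n 0 z
 z)))))))))))) (n 265 (n 0 z (n 0 z (n 0 z (n 0 z (n 0 z (n 0 z (n 0 z (n 0 z (n 0 z (n 0 z (n 0
 z (n 0 z z)))))))))))) (n 265 (n 0 z (n 0 z (n 0 z (n 2 z (n 0 z (n 0 z (n 0 z (n 0 z (n 0 z (n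
 0 z (n 0 z (n 0 z z)))))))))))) z))))))))) (n 0 (n 0 z (n 0 z (n 0 z (n 9 (n 0 z (n 0 z (n 0 z
 (n 0 z (n 0 z (n 0 z (n 0 z (n 0 z (n 0 z z))))))))) (n 9 (n 0 z (n 0 z (n 0 z (n 0 z (n 0 z (n
 0 z (n 0 z (n 0 z (n 0 z z))))))))) (n 5 (n 0 z (n 0 z (n 0 z (n 2 (n 0 z (n 0 z z)) (n 0 z (n
 0 z z)))))) (n 5 (n 0 z (n 2 (n 0 z z) (n 0 z (n 0 z (n 0 z (n 0 z z)))))) (n 5 (n 0 z (n 0 z
 (n 0 z (n 0 z (n 0 z (n 0 z z)))))) z)))))))) (n 0 (n 0 z (n 0 z (n 3 (n 0 z (n 0 z (n 0 z (n 0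
 z (n 0 z (n 0 z (n 0 z (n 0 z z)))))))) (n 3 (n 0 z (n 0 z (n 0 z (n 0 z (n 0 z (n 2 (n 1 z (n
 2 (n 0 z (n 0 z (n 0 z (n 0 z (n 0 (n 20 z z) (n 0 z z)))))) (n 1 z z))) (n 0 z (n 0 z
 z)))))))) (n 5 (n 0 z (n 2 (n 0 z (n 0 z z)) (n 0 z (n 0 z (n 0 z (n 0 z (n 0 z (n 0 z (n 0 z
 (n 0 z (n 0 z z))))))))))) (n 5 (n 0 z (n 0 z (n 0 z (n 0 z (n 0 z (n 0 z (n 2 (n 0 z z) (n 0 z
 (n 0 z (n 0 z (n 0 z z))))))))))) (n 5 (n 0 z (n 0 z (n 0 z (n 0 z (n 0 z (n 0 z (n 0 z (n 0 z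
 (n 0 z (n 7754515 z (n 0 z z))))))))))) z))))))) (n 0 (n 0 z (n 15 (n 0 z (n 0 z (n 0 z (n 0 z
 (n 2 (n 0 z (n 1 z (n 1 z (n 1 z z)))) (n 0 z (n 0 z (n 0 z (n 0 z z))))))))) (n 15 (n 0 z (n 0
 z (n 0 z (n 0 z (n 0 z (n 0 z (n 0 z (n 0 z (n 0 z z))))))))) (n 341 (n 0 z (n 0 z (n 0 z (n 0
 z (n 0 z (n 0 z (n 0 z (n 0 z (n 0 z (n 0 z (n 0 z (n 0 z (n 0 z (n 0 z (n 0 z (n 0 z (n 0 z (n
 0 z (n 0 z (n 0 z (n 0 z (n 0 z (n 0 z (n 0 z (n 0 z (n 0 z (n 0 z (n 0 z (n 0 z (n 0 z (n 0 z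
 (n 0 z (n 0 z (n 0 z (n 0 z (n 0 z (n 0 z (n 0 z (n 0 z (n 0 z (n 0 z (n 0 z (n 0 z (n 0 z (n 0
 z (n 0 z (n 0 z (n 0 z (n 0 z z))))))))))))))))))))))))))))))))))))))))))))))))) (n 341 (n 0 z
 (n 0 z (n 0 z (n 0 z (n 0 z (n 0 z (n 0 z (n 0 z (n 0 z (n 0 z (n 0 z (n 0 z (n 0 z (n 0 z (n 0
 z (n 0 z (n 0 z (n 0 z (n 0 z (n 0 z (n 0 z (n 0 z (n 0 z (n 0 z (n 0 z (n 0 z (n 0 z (n 0 z (n
 0 z (n 0 z (n 0 z (n 0 z (n 0 z (n 0 z (n 0 z (n 0 z (n 0 z (n 0 z (n 0 z (n 0 z (n 0 z (n 0 z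
 (n 0 z (n 0 z (n 0 z (n 0 z (n 0 z (n 0 z (n 0 z
 z))))))))))))))))))))))))))))))))))))))))))))))))) (n 341 (n 0 z (n 0 z (n 0 z (n 0 z (n 0 z (n
 0 z (n 0 z (n 0 z (n 0 z (n 0 z (n 0 z (n 0 z (n 0 z (n 0 z (n 0 z (n 0 z (n 0 z (n 0 z (n 0 z
 (n 0 z (n 0 z (n 0 z (n 0 z (n 0 z (n 0 z (n 0 z (n 0 z (n 0 z (n 0 z (n 0 z (n 0 z (n 0 z (n 0
 z (n 0 z (n 0 z (n 0 z (n 0 z (n 0 z (n 0 z (n 0 z (n 0 z (n 0 z (n 0 z (n 0 z (n 0 z (n 0 z (n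
 0 z (n 0 z (n 0 z z))))))))))))))))))))))))))))))))))))))))))))))))) z)))))) (n 0 (n 3 (n 0 z
 (n 0 z (n 2 (n 0 z (n 1 z (n 1 z (n 1 z z)))) (n 0 z z)))) (n 3 (n 0 z (n 0 z (n 0 z (n 2 (n 1
 z (n 1 z (n 1 z z))) z)))) (n 5 (n 0 z (n 0 z (n 0 z (n 0 z (n 0 z (n 0 z (n 0 z (n 0 z (n 0 z
 (n 0 z (n 0 z (n 0 z (n 0 z (n 0 z (n 0 z (n 0 z (n 0 z (n 0 z (n 0 z (n 0 z (n 0 z (n 0 z (n 0
 z (n 0 z (n 0 z (n 0 z (n 0 z (n 0 z (n 0 z (n 0 z (n 0 z (n 0 z (n 0 z (n 0 z (n 0 z (n 0 z (n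
 0 z (n 0 z (n 0 z (n 0 z (n 0 z (n 0 z (n 0 z (n 0 z (n 0 z (n 0 z
 z)))))))))))))))))))))))))))))))))))))))))))))) (n 5 (n 0 z (n 0 z (n 0 z (n 0 z (n 0 z (n 0 z
 (n 0 z (n 0 z (n 0 z (n 0 z (n 0 z (n 0 z (n 0 z (n 0 z (n 0 z (n 0 z (n 0 z (n 0 z (n 0 z (n 0
 z (n 0 z (n 0 z (n 0 z (n 0 z (n 0 z (n 0 z (n 0 z (n 0 z (n 0 z (n 0 z (n 0 z (n 0 z (n 0 z (n
 0 z (n 0 z (n 0 z (n 0 z (n 0 z (n 0 z (n 0 z (n 0 z (n 0 z (n 0 z (n 0 z (n 0 z (n 0 z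
 z)))))))))))))))))))))))))))))))))))))))))))))) (n 5 (n 0 z (n 0 z (n 0 z (n 0 z (n 0 z (n 0 z
 (n 0 z (n 0 z (n 0 z (n 0 z (n 0 z (n 0 z (n 0 z (n 0 z (n 0 z (n 0 z (n 0 z (n 0 z (n 0 z (n 0
 z (n 0 z (n 2 z (n 0 z (n 0 z (n 0 z (n 0 z (n 0 z (n 0 z (n 0 z (n 0 z (n 0 z (n 0 z (n 0 z (n
 0 z (n 0 z (n 0 z (n 0 z (n 0 z (n 0 z (n 0 z (n 0 z (n 0 z (n 0 z (n 0 z (n 0 z (n 0 z
 z)))))))))))))))))))))))))))))))))))))))))))))) z))))) (n 0 (n 0 z (n 1 (n 0 z (n 0 z (n 0 z (n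
 2 (n 0 z (n 0 z z)) (n 0 z (n 0 z (n 0 z (n 0 z (n 0 z (n 0 z (n 0 z (n 0 z (n 0 z (n 0 z
 z)))))))))))))) (n 1 (n 0 z (n 0 z (n 0 z (n 0 z (n 0 z (n 0 z (n 0 z (n 0 z (n 0 z (n 0 z (n 0
 z (n 0 z (n 0 z (n 2 (n 0 z z) z)))))))))))))) (n 1 (n 0 z (n 0 z (n 0 z (n 0 z (n 0 z (n 0 z
 (n 0 z (n 0 z (n 0 z (n 0 z (n 0 z (n 0 z (n 7754515 z (n 0 z z)))))))))))))) z)))) (n 0 (n 25
 (n 0 z (n 0 z (n 0 z (n 0 z (n 0 z (n 0 z (n 0 z (n 0 z (n 0 z (n 0 z (n 0 z (n 0 z (n 0 z (n 0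
 z (n 0 z (n 0 z (n 0 z (n 0 z (n 0 z (n 0 z (n 0 z (n 0 z (n 0 z (n 0 z (n 0 z (n 0 z (n 0 z (n
 0 z (n 0 z (n 0 z (n 0 z (n 0 z (n 0 z (n 0 z (n 0 z (n 0 z (n 0 z (n 0 z (n 0 z (n 0 z (n 0 z
 (n 0 z (n 0 z (n 0 z (n 0 z (n 0 z (n 0 z (n 0 z (n 0 z
 z))))))))))))))))))))))))))))))))))))))))))))))))) (n 25 (n 0 z (n 0 z (n 0 z (n 0 z (n 0 z (n
 0 z (n 0 z (n 0 z (n 0 z (n 0 z (n 0 z (n 0 z (n 0 z (n 0 z (n 0 z (n 0 z (n 0 z (n 0 z (n 0 z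
 (n 0 z (n 0 z (n 0 z (n 0 z (n 0 z (n 0 z (n 0 z (n 0 z (n 0 z (n 0 z (n 0 z (n 0 z (n 0 z (n 2
 (n 0 z z) (n 0 z (n 0 z (n 0 z (n 0 z (n 0 z (n 0 z (n 0 z (n 0 z (n 0 z (n 0 z (n 0 z (n 0 z
 (n 0 z (n 0 z (n 0 z (n 0 z z))))))))))))))))))))))))))))))))))))))))))))))))) (n 25 (n 0 z (n
 0 z (n 0 z (n 0 z (n 0 z (n 0 z (n 0 z (n 0 z (n 0 z (n 0 z (n 0 z (n 0 z (n 0 z (n 0 z (n 0 z
 (n 0 z (n 0 z (n 0 z (n 0 z (n 0 z (n 0 z (n 0 z (n 0 z (n 0 z (n 0 z (n 0 z (n 0 z (n 0 z (n 0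
 z (n 0 z (n 0 z (n 0 z (n 0 z (n 0 z (n 0 z (n 0 z (n 0 z (n 0 z (n 0 z (n 0 z (n 0 z (n 0 z (n
 0 z (n 0 z (n 0 z (n 0 z (n 0 z (n 0 z (n 0 z
 z))))))))))))))))))))))))))))))))))))))))))))))))) z))) (n 0 (n 0 z (n 0 z z)) (n 0 (n 0 z z)
 (n 0 z z)))))))))))))) (n 0 (n 0 z (n 0 z (n 0 z (n 1 (n 3278363 z (n 3278363 z (n 3278363 z (n
 3278363 z (n 3278363 z (n 3278363 z z)))))) (n 0 z z))))) (n 0 z z)))) (n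
 0xb4cd60eae119d7086998e051bcc8d112c328968124b4c0 (n 0 (n 597 (n 3282443 z (n 2 z (n 0 z z))) (n
 581 (n 3278363 z (n 10 z (n
 0x2ca6c864038208208208a08208607a08e281f81e7e08208207a18a28228208208608207e27a28208208200801 z
 (n 0 z (n 0 z (n 0 z (n 0 z (n 0 z (n 0 z (n 0 z (n 0 z (n 0 z z)))))))))))) (n 9 (n 18 z (n
 0x4ca4a206078207a27a086086081f7e17e182085f8208218217e082086182181f7e08a18208208608208210801 z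
 (n 0 z (n 0 z (n 0 z (n 0 z (n 0 z (n
 0xa7652410301823b2a2a1880c045951950006016ca8ca60078008477c68a87aa8008547c680d7f083a8287b57d080e8088288137d87e97af7e78087da7fd83a8217de8067fa80082d8047e78088108018007df8187d380d7f47ed80b7f67fa82282283e2011
 z (n
 0x2ca4a826038207e18218208208208208208208208208208207e08208208208208208608208208208208200801 z
 (n 0 z (n 0 z (n 0 z (n 3212843 z (n
 0x5b292a0981c265464310184ca8ca60038236e366285b85e7e18a18a272085d7618227df66195b81d9e47df8a092176175f75d8a275f1801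
 z (n 0 z (n 0 z (n 0 z (n 0 z (n 26 z (n
 0x2ca4a826078207e07e08208207e07e182082081f8208618207e089f8608208208208608208218208608210801 z
 (n 0 z z))))))))))))))))))))) (n 3 (n 0 z (n 34 z (n 2164283 z (n 0 z z)))) (n 1 (n 0 z (n
 2164299 z (n 42 z (n
 0x2ca6a604078207e17e18a08208208208208208208208208217e08208208208208208207e08208208208210801 z
 (n 50 z (n 0 z (n 0 z (n 0 z (n 0 z (n 0 z (n 0 z (n 58 z (n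
 0x2ca6a624078207e17e185f8608207df86181f8208208218217e08617e082181f8208617e08208208208210801 z
 (n 0 z z)))))))))))))) (n 0 (n 66 z (n 2164315 z (n 0 z (n 0 z (n
 0x2c84c826038208208208a08208607a08e281f81e7e08208207a18a28228208208608207e27a28208208200801 z
 (n 0 z (n 0 z (n
 0x2c86c864038217e081f86081f82279f8618208207e08208607e085f8208df82086085f81f86081f8208200801 z
 (n 0 z (n 0 z z)))))))))) z)))))) (n 597 (n 0 (n 1007 (n 0 z (n 0 z (n 0 z (n 0 z (n 0 z (n 0 z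
 (n 0 z (n 0 z (n 0 z (n 0 z (n 0 z (n 0 z z)))))))))))) (n 1005 (n 0 z (n 0 z (n 0 z (n 0 z (n
 0 z (n 0 z (n 0 z (n 0 z (n 0 z (n 0 z (n 0 z (n 0 z (n 0 z (n 0 z (n 0 z (n 0 z (n 0 z (n 0 z
 z)))))))))))))))))) (n 1005 (n 0 z (n 0 z (n 0 z (n 0 z (n 0 z (n 0 z (n 0 z (n 0 z (n 0 z (n 0
 z (n 0 z (n 0 z (n 0 z (n 0 z (n 0 z (n 2 (n 2 (n 0 z (n 0 z (n 0 z (n 0 z (n 0 z (n 0 z
 z)))))) (n 1 z (n 2 (n 0 z (n 0 (n 2124 z (n 2124 z z)) (n 0 z (n 0 (n 2124 z (n 2124 z z)) (n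
 0 z (n 0 (n 2124 z (n 2124 z z)) z)))))) (n 2 (n 0 z (n 0 (n 2124 z (n 2124 z z)) (n 0 z (n 0
 (n 2124 z (n 2124 z z)) (n 0 z (n 0 (n 2124 z (n 2124 z z)) z)))))) (n 1 z z))))) (n
 0x3b23b2081c076575310380ec8ea62078207a27a085f8608208208218218208208218217a081f82182181f8208607e18208208208211801
 z (n 0 z z)))))))))))))))))) (n 233 (n 0 z (n 0 z (n 2 (n 1 z (n 1 z (n 1 z (n 1 z z)))) (n 0 z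
 z)))) (n 531 (n 0 z (n 0 z (n 0 z (n 0 z (n 0 z (n 0 z (n 0 z (n 0 z (n 0 z z))))))))) (n 531
 (n 0 z (n 0 z (n 2 (n 0 z (n 1 z z)) (n 0 z (n 0 z (n 0 z (n 0 z (n 0 z (n 0 z z))))))))) (n
 531 (n 0 z (n 0 z (n 0 z (n 0 z (n 0 z (n 2 (n 1 z z) (n 0 z (n 0 z (n 0 z z))))))))) (n 985 (n
 0 z (n 0 z (n 0 z (n 0 z (n 0 z (n 0 z (n 0 z (n 0 z (n 0 z (n 0 z (n 0 z (n 0 z (n 0 z (n 0 z
 (n 0 z (n 0 z (n 0 z (n 0 z (n 0 z (n 0 z (n 0 z (n 0 z (n 0 z (n 0 z (n 0 z (n 0 z (n 0 z (n 0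
 z z)))))))))))))))))))))))))))) z)))))))) (n 0 (n 423 (n 0 z (n 0 z (n 0 z (n 0 z (n 0 z (n 0 z
 (n 0 z (n 0 z (n 0 z (n 0 z (n 0 z (n 0 z (n 0 z (n 0 z (n 0 z (n 0 z (n 0 z (n 0 z (n 0 z (n 0
 z (n 0 z (n 0 z (n 0 z (n 0 z (n 0 z (n 0 z (n 0 z (n 0 z (n 0 z (n 0 z (n 0 z (n 0 z (n 0 z (n
 0 z (n 0 z (n 0 z (n 0 z (n 0 z (n 0 z (n 0 z (n 0 z (n 0 z (n 0 z (n 0 z (n 0 z (n 0 z (n 0 z
 (n 0 z (n 0 z (n 0 z (n 0 z (n 0 z (n 0 z (n 0 z (n 0 z (n 0 z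
 z)))))))))))))))))))))))))))))))))))))))))))))))))))))))) (n 423 (n
 0x1dd0dd8540602aec2e60a03011762630503807bb0a18280c01594d50080e052ecaea60078008187a283c7bf81681e7eb8057f57f98177e27d882a8338247ef7fa7fe7da7f380e8038008227a17f780081080080f8208308067e880680085b8117ee8138067fb82480080180b7fa8133011
 z (n 0 z (n 0 z (n 0 z (n 0 z (n 0 z (n 0 z (n 0 z (n 0 z (n 0 z (n 0 z (n 0 z (n 0 z (n 0 z (n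
 0 z (n 0 z (n 0 z (n 0 z (n 0 z (n 0 z (n 0 z (n 0 z (n 0 z (n 0 z (n 0 z (n 0 z (n 0 z (n 0 z
 (n 0 z (n 0 z (n 0 z (n 0 z (n 0 z (n 0 z (n 0 z (n 0 z (n 0 z (n 0 z (n 0 z (n 0 z (n 0 z (n 0
 z (n 0 z (n 0 z (n 0 z (n 0 z (n 0 z (n 0 z (n 0 z (n 0 z (n 0 z (n 0 z (n 0 z (n 0 z (n 0 z (n
 0 z z)))))))))))))))))))))))))))))))))))))))))))))))))))))))) (n 421 (n 0 z (n 2 (n 1 z (n 1 z
 (n 1 z (n 1 z z)))) (n 0 z (n 0 z z)))) (n 3 (n 0 z (n 0 z (n 0 z (n 0 z (n 0 z (n 0 z (n 0 z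
 (n 0 z (n 0 z (n 0 z (n 0 z (n 0 z (n 0 z (n 0 z (n 0 z (n 0 z (n 0 z (n 0 z (n 0 z (n 0 z (n 0
 z (n 0 z (n 0 z (n 0 z (n 0 z (n 0 z (n 0 z (n 0 z (n 0 z z))))))))))))))))))))))))))))) (n 3
 (n 0 z (n 0 z (n 0 z (n 0 z (n 0 z (n 0 z (n 0 z (n 0 z (n 0 z (n 0 z (n 0 z (n 0 z (n 0 z (n 0
 z (n 0 z (n 0 z (n 0 z (n 0 z (n 0 z (n 0 z (n 0 z (n 0 z (n 0 z (n 0 z (n 0 z (n 0 z (n 0 z (n
 0 z (n 0 z z))))))))))))))))))))))))))))) (n 3 (n 0 z (n 0 z (n 0 z (n 0 z (n 0 z (n 0 z (n 0 z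
 (n 0 z (n 0 z (n 0 z (n 0 z (n 0 z (n 0 z (n 0 z (n 0 z (n 0 z (n 0 z (n 0 z (n 0 z (n 0 z (n 0
 z (n 0 z (n 0 z (n 0 z (n 0 z (n 0 z (n 0 z (n 0 z (n 0 z z))))))))))))))))))))))))))))) (n 5
 (n 0 z (n 0 z (n 0 z (n 0 z (n 0 z z))))) z))))))) (n 0 (n 0 z (n 661 (n 0 z (n 0 z (n 0 z (n 0
 z (n 2 (n 1 z (n 1 z (n 1 z (n 1 z z)))) (n 0 z (n 0 z z))))))) (n 51 (n 0 z (n 0 z (n 0 z (n 0
 z (n 0 z (n 0 z z)))))) (n 51 (n 0 z (n 0 z (n 0 z (n 0 z (n 0 z (n 0 z z)))))) (n 51 (n 0 z (n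
 0 z (n 0 z (n 0 z (n 0 z (n 0 z z)))))) (n 505 (n 0 z (n 0 z (n 0 z (n 0 z (n 0 z (n 0 z (n 0 z
 (n 0 z (n 0 z (n 0 z (n 0 z (n 0 z (n 0 z (n 0 z (n 0 z (n 0 z (n 0 z (n 0 z (n 0 z (n 0 z (n 0
 z (n 0 z (n 0 z (n 0 z (n 0 z (n 0 z (n 0 z (n 0 z (n 0 z (n 0 z (n 0 z (n 0 z (n 0 z (n 0 z (n
 0 z (n 0 z (n 0 z (n 0 z (n 0 z (n 0 z (n 0 z (n 0 z (n 0 z (n 0 z (n 0 z (n 0 z
 z)))))))))))))))))))))))))))))))))))))))))))))) z)))))) (n 0 (n 1157 (n 0 z (n 0 z (n 0 z (n 0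
 z (n 0 z (n 0 z (n 0 z (n 0 z z)))))))) (n 21 (n 0 z (n 0 z (n 0 z (n 0 z (n 0 z (n 0 z (n 0 z
 (n 0 z z)))))))) (n 21 (n 0 z (n 0 z (n 0 z (n 0 z (n 0 z (n 0 z (n 0 z (n 0 z z)))))))) (n 21
 (n 2 (n 1 z z) (n 0 z (n 0 z (n 0 z (n 0 z (n 0 z (n 0 z (n 0 z z)))))))) (n 841 (n 0 z (n 0 z
 (n 0 z (n 0 z (n 0 z (n 0 z (n 0 z (n
 0x46c42860e0701d751430603808b213a8981c0a5d4d04080e004ec8ec82078008317c883f7c78208217ef80b7f28098137d07dc8287f882c81a7dc80c7cc7fc7f97e381583b80b7ee80080080380580081f8037f08178007ff8117df80b7fb7ee80980d80881680f80c2811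
 z (n 0 z (n 0 z (n 0 z (n 0 z (n 0 z (n 0 z (n 0 z (n 0 z (n 0 z (n 0 z (n 0 z (n 0 z (n 0 z
 z))))))))))))))))))))) z))))) (n 0 (n 483 (n 2 (n 0 z (n 0 z (n 1 z z))) (n 0 z (n 0 z (n 0 z
 (n 0 z (n 0 z (n 0 z (n 0 z (n 0 z (n 0 z (n 0 z (n 0 z (n 0 z (n 0 z (n 0 z (n 0 z (n 0 z (n 0
 z z)))))))))))))))))) (n 483 (n 0 z (n 0 z (n 0 z (n 0 z (n 0 z (n 0 z (n 0 z (n 0 z (n 0 z (n
 0 z (n 0 z (n 0 z (n 0 z (n 0 z (n 0 z (n 0 z (n 0 z (n 0 z z)))))))))))))))))) (n 483 (n 0 z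
 (n 0 z (n 0 z (n 0 z (n 0 z (n 0 z (n 0 z (n 0 z (n 0 z (n 0 z (n 0 z (n 0 z (n 0 z (n 0 z (n 0
 z (n 0 z (n 0 z (n 0 z z)))))))))))))))))) (n 481 (n 2 z (n 0 z (n 0 z (n 0 z (n 0 z (n 0 z (n
 0 z (n 0 z (n 0 z (n 0 z (n 0 z (n 0 z z)))))))))))) z)))) (n 0 (n 0 z (n 0 z (n 53 (n 0 z (n 0
 z (n 0 z (n 0 z (n 0 z (n 0 z (n 0 z (n 0 z (n 0 z (n 0 z (n 0 z (n 0 z (n 0 z (n 0 z (n 0 z (n
 0 z (n 0 z (n 0 z (n 0 z (n 0 z (n 0 z (n 0 z (n 0 z (n 0 z (n 0 z (n 0 z (n 0 z (n 0 z (n 0 z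
 (n 0 z (n 0 z (n 0 z (n 0 z (n 0 z (n 0 z (n 0 z (n 0 z (n 0 z (n 0 z (n 0 z (n 0 z (n 0 z (n 0
 z (n 0 z (n 0 z (n 0 z (n 0 z z))))))))))))))))))))))))))))))))))))))))))))))) z))) (n 0 (n 0 z
 (n 1 (n 0 z (n 0 z (n 0 z (n 0 z (n 0 z z))))) z)) (n 0 (n 1 (n 0 z (n 0 z (n 0 z (n 0 z (n 0 z
 (n 0 z (n 0 z z))))))) z) (n 0 z z))))))))) (n 0 (n 1 (n 3282443 z (n 3282443 z (n 3282443 z (n
 3282443 z (n 3282443 z (n 3282443 z z)))))) (n 1 (n 28 z (n 4652 z (n 4652 z (n 4652 z (n 4652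
 z (n 4652 z z)))))) (n 0 z z))) (n 0 z z)))) z)))))))))), by decide +kernel⟩
theorem i10875 : ∃ t, chkR KT RW t 10875 10885 = true := ⟨(n
 0x2a64da4269ba192d90e26ea04a3106916c569d4c1316d80 (n 0 (n 279 (n 0 z (n 0 z (n 0 z (n 0 z (n 0
 z (n 0 z (n 0 z (n
 0x264343120182ca88642038207e07df8227e08208208207e081f8617e085f81f82085f8207e081f82081e8617e185f8201001
 z (n
 0x4c8686240781f8617e18608207e08227e07e082082081f82086081f8608207df8207e181f8208208208200801 z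
 (n 0 z (n 0 z (n 0 z (n 0 z (n 0 z (n 0 z (n 0 z (n 0 z (n 0 z (n 0 z (n 0 z (n 3282443 z (n 0
 z (n 2 z (n 0 z (n 0 z (n 0 z z)))))))))))))))))))))))))) (n 39 (n 0 z (n 10 z (n 0 z (n 0 z (n
 3278363 z z))))) (n 9 (n 18 z (n 0 z (n 26 z (n 0 z (n 0 z (n 0 z (n 34 z (n 3212843 z
 z)))))))) (n 3 (n 2164283 z (n 0 z (n 42 z (n 50 z (n 0 z (n 58 z z)))))) (n 1 (n 0 z (n 0 z (n
 0 z (n 0 z (n 0 z (n 0 z (n 2164299 z z))))))) (n 0 (n 66 z (n 2164315 z (n 0 z (n 0 z z))))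
 z)))))) (n 0 (n 0 (n 187 (n 0 z (n 0 z (n 0 z (n 0 z (n 0 z (n 0 z (n 0 z (n 0 z (n 0 z (n 0 z
 (n 0 z (n 0 z (n 0 z (n 0 z (n 0 z (n 0 z (n 0 z (n 0 z (n 0 z (n 0 z (n 0 z (n 0 z (n 0 z
 z))))))))))))))))))))))) (n 927 (n 0 z (n 0 z (n 0 z (n 0 z (n 0 z (n 0 z (n 0 z (n 0 z (n 0 z
 (n 0 z (n 0 z (n 0 z (n 0 z (n 0 z (n 0 z (n 0 z (n 0 z (n 0 z (n 0 z (n 0 z (n 0 z (n 0 z (n 0
 z (n 0 z (n 0 z (n 0 z z)))))))))))))))))))))))))) (n 927 (n 0 z (n 0 z (n 0 z (n 0 z (n 0 z (n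
 0 z (n 0 z (n 0 z (n 0 z (n 0 z (n 0 z (n 0 z (n 0 z (n 0 z (n 0 z (n 0 z (n 0 z (n 0 z (n 0 z
 (n 0 z (n 2 (n 0 z (n 2 (n 0 z (n 0 z (n 0 z (n 0 z (n 0 z (n 0 z z)))))) (n 2 (n 0 z (n 0 z (n
 0 z (n 0 z (n 0 z (n 0 z z)))))) (n 2 (n 0 z (n 0 z (n 0 (n 7677979 z (n 6359163 z z)) (n 0 (n
 740 z (n 740 z z)) (n 0 z (n 0 (n 8593763 z (n 8593763 z z)) z)))))) (n 2 (n 0 z (n 0 z (n 0 z
 (n 0 z (n 0 z (n 0 z z)))))) z))))) (n 0 z (n 0 z (n 0 z (n 0 z (n 0 z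
 z)))))))))))))))))))))))))) (n 927 (n 0 z (n 0 z (n 0 z (n 0 z (n 0 z (n 0 z (n 0 z (n 0 z (n 0
 z (n 0 z (n 0 z (n 0 z (n 0 z (n 0 z (n 0 z (n 0 z (n 0 z (n 0 z (n 0 z (n 0 z (n 0 z (n 0 z (n
 0 z (n 0 z (n 0 z (n 0 z z)))))))))))))))))))))))))) (n 185 (n 0 z (n 0 z (n 0 z (n 0 z (n 0 z
 (n 0 z (n 0 z (n 0 z (n 0 z (n 0 z (n 0 z (n 0 z (n 0 z (n 0 z (n 0 z (n 0 z (n 0 z (n 0 z (n 0
 z (n 0 z (n 2 (n 0 z (n 0 z (n 2 (n 0 z (n 0 z (n 0 z (n 0 z (n 0 z (n 0 z z)))))) z))) (n 0 z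
 (n 0 z (n 0 z (n 0 z (n 0 z z)))))))))))))))))))))))))) (n 185 (n 0 z (n 0 z (n 0 z (n 0 z (n 0
 z (n 0 z (n 0 z (n 0 z (n 0 z (n 0 z (n 0 z (n 0 z (n 0 z (n 0 z (n 0 z (n 0 z (n 0 z (n 0 z (n
 0 z (n 0 z (n 0 z (n 0 z (n 0 z (n 0 z (n 0 z (n 0 z z)))))))))))))))))))))))))) (n 185 (n 0 z
 (n 0 z (n 0 z (n 0 z (n 0 z (n 0 z (n 0 z (n 0 z (n 0 z (n 0 z (n 0 z (n 0 z (n 0 z (n 0 z (n 0
 z (n 0 z (n 0 z (n 0 z (n 0 z (n 0 z (n 0 z (n 0 z (n 0 z (n 0 z (n 0 z (n 0 z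
 z)))))))))))))))))))))))))) (n 557 (n 0 z (n 0 z (n 0 z (n 0 z (n 0 z (n 0 z (n 0 z (n 0 z (n 0
 z (n 0 z (n 0 z (n 0 z (n 0 z (n 0 z (n 0 z (n 0 z (n 0 z (n 0 z (n 0 z (n 0 z (n 0 z (n 0 z (n
 0 z z))))))))))))))))))))))) z)))))))) (n 0 (n 263 (n 0 z (n 0 z (n 0 z (n 0 z (n 0 z (n 0 z
 z)))))) (n 263 (n 0 z (n 2 (n 0 z (n 2 (n 0 (n 28 z (n 28 z z)) (n 0 z (n 0 z (n 0 (n 8652315 z
 (n 8652315 z z)) (n 0 (n 28 z (n 28 z z)) (n 0 z z)))))) (n 2 (n 0 (n 8802627 z (n 8802627 z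
 z)) (n 0 (n 8802627 z (n 8802627 z z)) (n 0 (n 8802627 z (n 8802627 z z)) (n 0 z (n 0 (n
 8802627 z (n 8802627 z z)) (n 0 z z)))))) (n 1 z (n 2 (n 0 (n 8873267 z (n 8873267 z z)) (n 0 z
 (n 0 (n 8873267 z (n 8873267 z z)) (n 0 z (n 0 (n 8873267 z (n 8873267 z z)) (n 0 z z))))))
 z))))) (n 0 z (n 0 z (n 0 z (n 0 z z)))))) (n 263 (n 0 z (n 0 z (n 0 z (n 0 z (n 0 z (n 0 z
 z)))))) (n 7 (n 0 z (n 0 z (n 0 z (n 7616091 z (n 0 z (n 0 z (n 0 z (n 0 z z)))))))) (n 7 (n 0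
 z (n 0 z (n 0 z (n 0 z (n 0 z (n 0 z (n 0 z (n 0 z z)))))))) (n 7 (n 0 z (n 0 z (n 0 z (n 0 z
 (n 0 z (n 2 (n 2 (n 0 z (n 0 (n 8802627 z (n 8802627 z z)) (n 0 (n 8802627 z (n 8802627 z z))
 (n 0 z (n 0 (n 8802627 z (n 8802627 z z)) (n 0 z z)))))) z) (n 0 z (n 0 z z)))))))) (n 1 (n 0 z
 (n 0 z (n 0 z (n 0 z (n 0 z (n 0 z (n 0 z (n 0 z (n 0 z (n 0 z (n 0 z (n 0 z (n 0 z (n 0 z (n 0
 z (n 0 z z)))))))))))))))) z))))))) (n 0 (n 0 z (n 0 z (n 681 (n 0 z (n 0 z (n 0 z (n 0 z (n 0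
 z (n 0 z (n 7616011 z (n 0 z (n 0 z (n 0 z (n 0 z (n 0 z (n 0 z (n 0 z (n 0 z z)))))))))))))))
 (n 681 (n 0 z (n 0 z (n 0 z (n 0 z (n 0 z (n 0 z (n 0 z (n 0 z (n 0 z (n 0 z (n 0 z (n 0 z (n 0
 z (n 0 z (n 0 z z))))))))))))))) (n 681 (n 0 z (n 0 z (n 0 z (n 2 (n 2 (n 0 z (n 0 (n 52 z (n
 7604251 z z)) (n 0 (n 8663139 z (n 8663139 z z)) (n 0 z (n 0 (n 6555675 z (n 6555675 z z)) (n 0
 z z)))))) z) (n 0 z (n 0 z (n 0 z (n 0 z (n 0 z (n 0 z (n 0 z (n 0 z (n 0 z (n 0 z (n 0 z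
 z))))))))))))))) (n 13 (n 0 z (n 0 z (n 0 z (n 0 z (n 0 z (n 2 z z)))))) z)))))) (n 0 (n 0 z (n
 7 (n 0 z (n 0 z (n 0 z (n 0 z (n 0 z (n 0 z (n 0 z (n 0 z (n 2 (n 0 z (n 0 z (n 2 (n 0 (n
 7737475 z (n 6568027 z z)) (n 0 z (n 0 (n 6555675 z (n 6555675 z z)) (n 0 (n 7616603 z (n
 7604251 z z)) (n 0 z (n 0 z z)))))) z))) (n 0 z (n 0 z (n 0 z (n 0 z (n 0 z (n 0 z (n 0 z (n 0
 z (n 0 z (n 0 z (n 0 z (n 0 z (n 0 z (n 0 z z))))))))))))))))))))))) (n 7 (n 0 z (n 0 z (n 0 z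
 (n 0 z (n 0 z (n 0 z (n 0 z (n 0 z (n 0 z (n 2 (n 0 z (n 2 (n 0 (n 8868163 z (n 8868163 z z))
 (n 0 (n 8868163 z (n 8868163 z z)) (n 0 (n 8868163 z (n 8868163 z z)) (n 0 z (n 0 z (n 0 z
 z)))))) z)) (n 0 z (n 0 z (n 0 z (n 0 z (n 0 z (n 0 z (n 0 z (n 0 z (n 0 z (n 0 z (n 0 z (n 0 z
 (n 0 z z))))))))))))))))))))))) (n 7 (n 0 z (n 0 z (n 0 z (n 0 z (n 0 z (n 0 z (n 0 z (n 0 z (n
 0 z (n 0 z (n 0 z (n 0 z (n 0 z (n 0 z (n 0 z (n 6629147 z (n 0 z (n 0 z (n 0 z (n 0 z (n 0 z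
 (n 0 z (n 0 z z))))))))))))))))))))))) (n 1 (n 0 z (n 0 z (n 0 z (n 0 z (n 0 z (n 0 z (n 2 z (n
 0 z z)))))))) z))))) (n 0 (n 491 (n 7616091 z (n 0 z (n 0 z (n 0 z (n 0 z (n 0 z (n 0 z (n 0 z
 (n 0 z (n 0 z (n 0 z (n 0 z (n 0 z (n 0 z (n 0 z (n 0 z (n 0 z (n 0 z (n 0 z (n 0 z (n 0 z (n 0
 z z)))))))))))))))))))))) (n 491 (n 0 z (n 0 z (n 0 z (n 0 z (n 0 z (n 0 z (n 0 z (n 0 z (n 0 z
 (n 0 z (n 0 z (n 0 z (n 0 z (n 0 z (n 0 z (n 0 z (n 0 z (n 0 z (n 0 z (n 0 z (n 0 z (n 0 z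
 z)))))))))))))))))))))) (n 491 (n 0 z (n 0 z (n 2 (n 2 (n 0 (n 8802627 z (n 8802627 z z)) (n 0
 (n 8802627 z (n 8802627 z z)) (n 0 z (n 0 z (n 0 (n 8802627 z (n 8802627 z z)) (n 0 z z))))))
 z) (n 0 z (n 0 z (n 0 z (n 0 z (n 0 z (n 0 z (n 0 z (n 0 z (n 0 z (n 0 z (n 0 z (n 0 z (n 0 z
 (n 0 z (n 0 z (n 0 z (n 0 z (n 0 z (n 0 z z)))))))))))))))))))))) (n 481 (n 0 z (n 0 z (n 0 z
 (n 0 z (n 0 z (n 0 z (n 0 z (n 0 z (n 0 z (n 0 z (n 0 z (n 0 z (n 0 z (n 0 z (n 0 z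
 z))))))))))))))) z)))) (n 0 (n 0 z (n 0 z (n 1 (n 0 z (n 0 z (n 0 z (n 0 z (n 0 z (n 0 z (n
 6567771 z (n 0 z (n 0 z (n 0 z z)))))))))) z))) (n 0 (n 0 z (n 13 (n 0 z (n 0 z (n 0 z (n 0 z
 (n 0 z (n 0 z (n 0 z (n 0 z (n 0 z (n 0 z (n 0 z (n 0 z (n 0 z z))))))))))))) z)) (n 0 (n 1 (n
 0 z (n 0 z (n 0 z (n 0 z (n 0 z (n 0 z (n 0 z (n 0 z (n 0 z (n 0 z (n 0 z (n 2 z (n 0 z
 z))))))))))))) z) (n 0 z z))))))))) (n 0 (n 1 (n 2236 z (n 2236 z (n 2236 z (n 2236 z (n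
 5506587 z (n 2236 z z)))))) (n 1 (n 2164315 z (n 2164315 z (n 2164315 z (n 2164315 z (n 2164315
 z (n 2164315 z z)))))) (n 0 z (n 0 z z)))) (n 0 z z)))) (n 0 (n 0 (n 561 (n 0 z (n 0 z (n 0 z
 (n 0 z (n 0 z (n 0 z (n 0 z (n 3282443 z z)))))))) (n 661 (n 0 z (n 3278363 z (n 0 z (n 0 z (n
 0 z (n 0 z (n 0 z (n 0 z z)))))))) (n 562 (n 0 z (n 3212843 z (n 0 z (n 0 z (n 0 z (n 0 z (n 0
 z (n 0 z z)))))))) (n 3 (n 0 z (n 2164283 z (n 0 z (n 0 z (n 0 z (n 0 z (n 0 z (n 0 z z))))))))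
 (n 662 (n 0 z (n 0 z (n 0 z (n 0 z (n 0 z (n 0 z (n 0 z (n 2164299 z z)))))))) (n 0 (n 0 z (n 0
 z (n 0 z (n 0 z (n 0 z (n 0 z (n 0 z (n 2164315 z z)))))))) z)))))) (n 561 z (n 0 (n 0 z (n 0 z
 (n 0 z (n 0 z (n 0 z (n 0 z (n 0 z (n 1 (n 3282443 z (n 3282443 z (n 3282443 z (n 3282443 z (n
 3282443 z (n 3282443 z z)))))) z)))))))) (n 0 z z)))) (n
 0x6c93a1164d48325d302aa642249104a99308a45825e5b0091640 (n 0 (n 693 (n 3282443 z (n 3282443 z (n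
 0x2ca8ca82078218217a081f85f7dd92086181f86286179e8217e07e08207a082281f82182082082081f8610801 z
 (n 2 z (n
 0x2c86c8640389f7249208248e392075e7dc8a49d98e07db8e78a06a38248a289e8197df81775d9e089c89e0801 z
 (n 0 z (n
 0x8ca8a824077de8a17e08628627e08608208208607e18208228617e08628208207df7e085f81f7e081f81f0801 z
 (n 0 z (n 0 z (n 0 z (n
 0x165465320182ca6ca240381f62596b81f7218a0a9c9df61b8de7a369c8299a16a87625e256b89a628a18a5971c8a25d91001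
 z (n 0 z (n 10 z z))))))))))))) (n 691 (n 3278363 z (n 18 z (n 0 z (n 26 z (n 0 z (n 0 z (n 0 z
 z))))))) (n 692 (n 34 z (n 3212843 z (n 0 z (n 0 z (n 0 z (n 0 z (n 0 z (n 42 z (n 0 z (n 0 z
 (n 0 z (n 0 z (n 0 z (n 0 z (n
 0x1b6317e28617e086181f7de8a08608207a08a17617627a179e8217a27628e07a27a082181e81f8210041 z (n 0 z
 (n 0 z (n 50 z (n 0 z (n 0 z (n 0 z (n 0 z (n 0 z (n 0 z (n 0 z (n 0 z (n 0 z (n 0 z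
 z)))))))))))))))))))))))))))) (n 3 (n 2164283 z (n 58 z (n 0 z (n 0 z z)))) (n 1 (n 0 z (n 0 z
 (n 2164299 z (n 0 z z)))) (n 0 (n 0 z (n 0 z (n 0 z (n 66 z (n 3282523 z (n 2164315 z (n
 0x2c86c860078218217a081f85f7dd92086181f86286179e8217e07e08207a082281f82182082082081f8610801 z
 (n 0x6c86c860038a27a275b96482779f7237e192679c8a27205e275b75f7e291e8e18657e091f79d7a37208e00801
 z (n 0 z (n 0 z (n 0 z (n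
 0x4c86c840037df7e272189e81f85f8618218208618208608216e181f7e17207a086082286281f8608218600801 z
 (n 0xcca88624077a27228e982075f8a0a2091d71e89f82269c7e59606637626e57a88197278d995e85b85d6dd0801
 z (n 74 z z)))))))))))))) z)))))) (n 3 (n 0 (n 0 z (n 767 (n 0 z (n 0 z (n 0 z (n 0 z (n 0 z (n
 0 z (n 0 z (n 0 z (n 0 z (n 0 z (n 0 z (n 0 z (n 0 z (n 0 z z)))))))))))))) (n 767 (n 0 z (n 0
 z (n 0 z (n 0 z (n 2 (n 1 z (n 1 z (n 2 (n 0 (n 3036 z (n 3036 z z)) (n 0 z (n 0 (n 6494251 z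
 (n 6494251 z z)) (n 0 z (n 0 (n 8664667 z (n 7542827 z z)) (n 0 (n 3036 z (n 7542827 z z))
 z)))))) (n 1 z (n 1 z (n 1 z z)))))) (n 0 z (n 0 z (n 0 z (n 0 z (n 0 z (n 0 z (n 0 z (n 0 z (n
 0 z z)))))))))))))) (n 759 (n 0 z (n 0 z (n 0 z (n 0 z (n 0 z (n 0 z (n 0 z (n 0 z (n 0 z (n 0
 z (n 0 z (n 0 z (n 0 z (n 0 z (n 0 z (n 0 z (n 0 z (n 0 z (n 0 z (n 0 z (n 0 z (n 0 z (n 0 z (n
 0 z (n 0 z (n 0 z (n 0 z (n 0 z (n 0 z (n 0 z (n 0 z (n 0 z (n 0 z (n 0 z (n 0 z (n 0 z (n 0 z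
 (n 0 z (n 0 z (n 0 z (n 0 z (n 0 z (n 0 z (n 0 z (n 0 z (n 0 z
 z)))))))))))))))))))))))))))))))))))))))))))))) (n 759 (n 0 z (n 0 z (n 0 z (n 0 z (n 0 z (n 0
 z (n 0 z (n 0 z (n 0 z (n 0 z (n 0 z (n 0 z (n 0 z (n 0 z (n 0 z (n 0 z (n 0 z (n 0 z (n 0 z (n
 0 z (n 0 z (n 0 z (n 0 z (n 0 z (n 0 z (n 0 z (n 0 z (n 0 z (n 0 z (n 0 z (n 0 z (n 0 z (n 0 z
 (n 0 z (n 0 z (n 0 z (n 0 z (n 0 z (n 0 z (n 0 z (n 2 (n 0 z (n 1 z (n 1 z (n 1 z z)))) (n 0 z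
 (n 0 z (n 0 z (n 0 z (n 0 z z)))))))))))))))))))))))))))))))))))))))))))))) (n 759 (n 0 z (n 0
 z (n 0 z (n 0 z (n 0 z (n 0 z (n 0 z (n 0 z (n 0 z (n 0 z (n 0 z (n 0 z (n 0 z (n 0 z (n 0 z (n
 0 z (n 0 z (n 0 z (n 0 z (n 0 z (n 0 z (n 0 z (n 0 z (n 0 z (n 0 z (n 0 z (n 0 z (n 0 z (n 0 z
 (n 0 z (n 0 z (n 0 z (n 0 z (n 0 z (n 0 z (n 0 z (n 0 z (n 0 z (n 0 z (n 0 z (n 0 z (n 0 z (n 0
 z (n 0 z (n 0 z (n 0 z z)))))))))))))))))))))))))))))))))))))))))))))) (n 33 (n 0 z (n 0 z (n 0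
 z (n 0 z (n 0 z (n 0 z (n 0 z (n 0 z (n 0 z (n 0 z (n 0 z z))))))))))) (n 17 (n 0 z (n 0 z (n 0
 z (n 0 z (n 0 z (n 0 z (n 0 z (n 0 z (n 0 z (n 0 z (n 0 z (n 0 z z)))))))))))) (n 17 (n 0 z (n
 0 z (n 2 z (n 0 z (n 0 z (n 0 z (n 0 z (n 0 z (n 0 z (n 0 z (n 0 z (n 0 z z))))))))))))
 z))))))))) (n 0 (n 923 (n 0 z (n 0 z (n 0 z (n 0 z (n 2 (n 0 z (n 1 z (n 2 (n 0 z (n 0 z (n 0 z
 (n 0 z (n 0 z (n 0 z z)))))) (n 2 (n 0 z (n 0 z (n 0 z (n 0 z (n 0 z (n 0 z z)))))) (n 2 (n 0 z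
 (n 0 z (n 0 z (n 0 z (n 0 (n 8855811 z z) (n 0 z z)))))) (n 2 (n 0 z (n 0 z (n 0 z (n 0 z (n 0
 (n 8855811 z z) (n 0 z z)))))) (n 2 (n 0 z (n 0 z (n 0 z (n 0 z (n 0 (n 8782363 z z) (n 0 z
 z)))))) z))))))) (n 0 z (n 0 z (n 0 z (n 0 z z))))))))) (n 923 (n 0 z (n 0 z (n 0 z (n 0 z (n 0
 z (n 2 (n 1 z (n 1 z (n 2 (n 0 z (n 0 z (n 0 (n 7542827 z (n 3684 z z)) (n 0 (n 8783675 z (n
 3684 z z)) (n 0 z (n 0 (n 8659299 z (n 8659299 z z)) z)))))) (n 1 z (n 2 (n 0 z (n 0 z (n 0 z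
 (n 0 z (n 0 z (n 0 z z)))))) (n 1 z z)))))) (n 0 z (n 0 z (n 0 z z))))))))) (n 921 (n 2 (n 0 z
 (n 0 z (n 1 z (n 1 z (n 2 (n 0 z (n 0 z (n 0 z (n 0 z (n 0 (n 8782363 z z) (n 0 z z))))))
 z))))) (n 0 z (n 0 z (n 0 z (n 0 z (n 0 z (n 0 z (n 0 z (n 0 z (n 0 z (n 0 z (n 0 z
 z)))))))))))) (n 921 (n 0 z (n 0 z (n 0 z (n 0 z (n 0 z (n 0 z (n 2 (n 0 z (n 1 z (n 2 (n 0 z
 (n 0 z (n 0 z (n 0 z (n 0 z (n 0 z z)))))) (n 1 z z)))) (n 0 z (n 0 z (n 0 z (n 0 z (n 0 z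
 z)))))))))))) (n 921 (n 0 z (n 0 z (n 0 z (n 0 z (n 0 z (n 0 z (n 0 z (n 0 z (n 0 z (n 0 z (n 0
 z (n 0 z z)))))))))))) (n 1165 (n 0 z (n 0 z (n 0 z (n 0 z (n 0 z (n 2 (n 2 (n 0 z (n 0 z (n 0
 z (n 0 z (n 0 (n 8855811 z z) (n 0 z z)))))) (n 2 (n 0 z (n 0 z (n 0 z (n 0 z (n 0 (n 8782363 z
 z) (n 0 z z)))))) z)) (n 0 z (n 0 z (n 0 z (n 0 z (n 0 z (n 0 z (n 0 z (n 0 z (n 0 z (n 0 z
 z)))))))))))))))) (n 305 (n 0 z (n 0 z (n 0 z (n 0 z (n 0 z (n 0 z (n 0 z (n 0 z (n 0 z (n 0 z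
 (n 0 z (n 2 (n 0 z z) (n 0 z (n 0 z (n 0 z (n 0 z (n 0 z z))))))))))))))))) (n 305 (n 0 z (n 0
 z (n 0 z (n 0 z (n 0 z (n 0 z (n 0 z (n 0 z (n 0 z (n 0 z (n 0 z (n 0 z (n 0 z (n 0 z (n 0 z (n
 0 z (n 0 z z))))))))))))))))) z)))))))) (n 0 (n 0 z (n 347 (n 0 z (n 0 z (n 0 z (n 0 z (n 0 z
 z))))) (n 347 (n 0 z (n 0 z (n 0 z (n 2 (n 0 z (n 1 z (n 1 z (n 1 z z)))) (n 0 z z))))) (n 347
 (n 0 z (n 0 z (n 0 z (n 0 z (n 0 z z))))) (n 7 (n 0 z (n 0 z (n 0 z (n 0 z (n 0 z (n 0 z (n 0 z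
 (n 0 z (n 0 z (n 0 z (n 0 z (n 0 z (n 0 z z))))))))))))) (n 341 (n 0 z (n 0 z (n 0 z (n 0 z (n
 0 z (n 0 z (n 0 z (n 0 z (n 0 z (n 0 z (n 0 z (n 0 z (n 0 z z))))))))))))) (n 341 (n 0 z (n 0 z
 (n 2 z (n 0 z (n 0 z (n 0 z (n 0 z (n 0 z (n 0 z (n 0 z (n 0 z (n 0 z (n 0 z z)))))))))))))
 z))))))) (n 0 (n 1385 (n 2 (n 0 z (n 0 z (n 1 z (n 1 z (n 1 z z))))) (n 0 z (n 0 z (n 0 z (n 0
 z (n 0 z z)))))) (n 1385 (n 0 z (n 0 z (n 0 z (n 0 z (n 0 z (n 0 z z)))))) (n 1385 (n 0 z (n 0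
 z (n 0 z (n 0 z (n 0 z (n 0 z z)))))) (n 55 (n 0 z (n 0 z (n 0 z (n 2 (n 1 z (n 1 z z)) (n 0 z
 z))))) (n 49 (n 0 z (n 0 z (n 2 (n 0 z z) (n 0 z (n 0 z (n 0 z (n 0 z (n 0 z (n 0 z (n 0 z (n 0
 z z))))))))))) (n 49 (n 0 z (n 0 z (n 0 z (n 0 z (n 0 z (n 0 z (n 0 z (n 0 z (n 0 z (n 0 z (n 2
 z z))))))))))) z)))))) (n 0 (n 0 z (n 0 z (n 535 (n 0 z (n 0 z (n 0 z (n 0 z (n 0 z (n 0 z (n 0
 z (n 0 z (n 0 z (n 0 z z)))))))))) (n 481 (n 0 z (n 0 z (n 0 z (n 0 z (n 0 z (n 0 z (n 0 z (n 0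
 z (n 0 z (n 0 z (n 0 z (n 0 z (n 0 z (n 0 z (n 0 z (n 0 z (n 0 z (n 0 z (n 0 z (n 0 z (n 0 z (n
 0 z (n 0 z (n 0 z (n 0 z (n 0 z (n 0 z (n 0 z (n 0 z (n 0 z (n 0 z (n 0 z (n 0 z (n 0 z (n 0 z
 (n 0 z (n 0 z (n 0 z (n 0 z (n 0 z (n 0 z (n 0 z (n 0 z (n 0 z (n 0 z (n 0 z (n 0 z
 z))))))))))))))))))))))))))))))))))))))))))))))) (n 481 (n 0 z (n 0 z (n 0 z (n 0 z (n 0 z (n 0
 z (n 0 z (n 0 z (n 0 z (n 0 z (n 0 z (n 0 z (n 0 z (n 0 z (n 0 z (n 0 z (n 0 z (n 0 z (n 0 z (n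
 0 z (n 0 z (n 0 z (n 0 z (n 0 z (n 0 z (n 0 z (n 0 z (n 0 z (n 0 z (n 0 z (n 0 z (n 0 z (n 0 z
 (n 0 z (n 0 z (n 0 z (n 0 z (n 0 z (n 0 z (n 0 z (n 0 z (n 0 z (n 0 z (n 0 z (n 2 z (n 0 z (n 0
 z z))))))))))))))))))))))))))))))))))))))))))))))) z))))) (n 0 (n 0 z (n 7 (n 0 z (n 2 (n 1 z
 (n 1 z z)) (n 0 z (n 0 z z)))) (n 13 (n 0 z (n 0 z (n 0 z (n 0 z (n 2 (n 0 z z) (n 0 z (n 0 z
 (n 0 z (n 0 z (n 0 z (n 0 z (n 0 z (n 0 z (n 0 z (n 0 z (n 0 z (n 0 z (n 0 z (n 0 z (n 0 z (n 0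
 z (n 0 z (n 0 z (n 0 z (n 0 z (n 0 z (n 0 z (n 0 z (n 0 z (n 0 z (n 0 z (n 0 z
 z)))))))))))))))))))))))))))))))) (n 13 (n 0 z (n 0 z (n 0 z (n 0 z (n 0 z (n 0 z (n 0 z (n 0 z
 (n 0 z (n 0 z (n 0 z (n 0 z (n 0 z (n 0 z (n 0 z (n 0 z (n 0 z (n 0 z (n 0 z (n 0 z (n 0 z (n 0
 z (n 0 z (n 0 z (n 0 z (n 0 z (n 0 z (n 0 z (n 0 z (n 0 z (n 0 z (n 2 z
 z)))))))))))))))))))))))))))))))) z)))) (n 0 (n 645 (n 0 z (n 0 z (n 0 z (n 0 z (n 0 z (n 0 z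
 (n 0 z (n 0 z (n 0 z (n 0 z (n 0 z (n 0 z (n 0 z (n 0 z (n 0 z z))))))))))))))) (n 17 (n 0 z (n
 0 z (n 0 z (n 0 z (n 0 z (n 0 z (n 0 z (n 0 z (n 0 z (n 0 z (n 0 z (n 0 z (n 0 z (n 0 z (n 0 z
 (n 0 z (n 0 z (n 0 z (n 0 z (n 0 z (n 0 z (n 0 z (n 0 z (n 0 z (n 0 z (n 0 z (n 0 z (n 0 z
 z)))))))))))))))))))))))))))) (n 17 (n 0 z (n 0 z (n 0 z (n 0 z (n 0 z (n 0 z (n 0 z (n 0 z (n
 0 z (n 0 z (n 0 z (n 0 z (n 0 z (n 0 z (n 0 z (n 0 z (n 0 z (n 0 z (n 0 z (n 0 z (n 0 z (n 0 z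
 (n 0 z (n 0 z (n 0 z (n 0 z (n 0 z (n 0 z z)))))))))))))))))))))))))))) z))) (n 0 (n 13 (n 0 z
 (n 0 z (n 0 z (n 0 z (n 0 z (n 0 z (n 0 z (n 0 z (n 0 z (n 0 z (n 0 z (n 0 z z)))))))))))) (n
 13 (n 0 z (n 0 z (n 0 z (n 0 z (n 0 z (n 0 z (n 0 z (n 2 z (n 0 z (n 0 z (n 0 z (n 0 z
 z)))))))))))) z)) (n 0 (n 0 z z) (n 0 z z)))))))))) (n 0 (n 1 (n 2164283 z (n 2164283 z (n
 2164283 z (n 2164283 z (n 2164283 z (n 2164283 z z)))))) (n 1 (n 12 z (n 5548 z (n 5548 z (n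
 5548 z (n 5548 z (n 5548 z z)))))) (n 0 z (n 0 z z)))) (n 0 z z)))) (n
 0xdb27422d9a906cb4886516f0c4c2c431b80948b04bc960122d80e1280 (n 0 (n 695 (n 0 z (n 3282443 z (n
 3282443 z (n 2 z (n 10 z (n
 0x2c84c8420380807f8080807f818180808080808080817f80808280807f80817f808080808180807f808180807f808081807f7f7f8081800809
 z (n 18 z (n
 0x8c84c84207906b8d777b74707c74758c6c8f8f788980856e9083857270896587876b7e828b7f8b878c848179807c8c797c78709477698d0809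
 z z)))))))) (n 694 (n 26 z (n 3278363 z (n 34 z (n 0 z (n 42 z (n 50 z z)))))) (n 690 (n 0 z (n
 58 z (n 0 z (n 3212843 z (n 0 z (n 0 z (n 0 z z))))))) (n 3 (n 0 z (n 2164283 z (n 0 z (n 66 z
 (n 0 z z))))) (n 1 (n 0 z (n 2164299 z (n 0 z z))) (n 0 (n
 0xca8840203818080808081808080807e8182807f817b808183808282817f7f807f7f827d7f7f817f818082807f817f7f7f7f807d8281800809
 z (n
 0x4ca8864207807f80808080808080807f80818080808080808180808080808081807f80818180807f7e8080807f8080818080808080807f0809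
 z (n 74 z (n 3282523 z (n 2164315 z (n 0 z (n 0 z (n 0 z (n
 0x2c84c802077f7f807f7f8080808080807f8281818180808082807f807f808080807e8081818181817f8081808080817f7f8080808080810809
 z (n
 0x6590d0c840e08c848642077971967e6883615b705b99509e6e9e8479788099a6a1668c8f52787a649f6e5c8b9559917254777c8a7a77802db5a89841ab1009
 z (n 82 z z))))))))))) z)))))) (n 1 (n 0 (n 0 z (n 0 z (n 119 (n 0 z (n 2 (n 0 z (n 0 z (n 0 z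
 (n 1 z (n 1 z (n 1 z (n 2 (n 0 z (n 0 z (n 0 z (n 0 z (n 0 (n 8782635 z z) (n 0 z z))))))
 z))))))) (n 0 z (n 0 z (n 0 z (n 0 z (n 0 z (n 0 z (n 0 z (n 0 z (n 0 z z))))))))))) (n 119 (n
 0 z (n 0 z (n 0 z (n 0 z (n 0 z (n 0 z (n 0 z (n 0 z (n 0 z (n 0 z (n 0 z z))))))))))) (n 119
 (n 0 z (n 0 z (n 0 z (n 0 z (n 0 z (n 0 z (n 0 z (n 0 z (n 0 z (n 0 z (n 0 z z))))))))))) (n
 119 (n 0 z (n 0 z (n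
 0xea8ec0407808080808081808080807e8182807f817b8082837f8282827e7f7f7e80837c7f7e817e817f8281808280807f7e817d8480800809
 z (n 0 z (n 0 z (n 0 z (n 0 z (n 0 z (n 0 z (n 0 z (n 0 z z))))))))))) (n 921 (n 0 z (n 2 (n 1
 z (n 1 z (n 2 (n 0 z (n 0 z (n 0 z (n 0 z (n 0 (n 8782635 z z) (n 0 z z)))))) z))) (n 0 z (n 0
 z (n 0 z (n 0 z (n 0 z (n 0 z z)))))))) (n 59 (n 0 z (n 0 z (n 2 (n 1 z (n 2 (n 0 z (n 0 z (n 0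
 z (n 0 z (n 0 z (n 0 z z)))))) z)) (n 0 z (n 0 z (n 0 z (n 0 z (n 0 z z)))))))) (n 61 (n 0 z (n
 2 (n 0 z z) (n 0 z (n 0 z (n 0 z (n 0 z (n 0 z (n 0 z (n 0 z (n 0 z (n 0 z z))))))))))) (n 61
 (n 0 z (n 0 z (n 0 z (n 0 z (n 0 z (n 0 z (n 0 z (n 0 z (n 0 z (n 7734059 z (n 0 z z)))))))))))
 z)))))))))) (n 0 (n 0 z (n 763 (n 0 z (n 0 z (n 0 z (n 0 z (n 0 z (n 0 z (n 0 z (n 0 z (n 0 z
 (n 0 z (n 0 z z))))))))))) (n 763 (n 0 z (n 0 z (n 2 (n 0 z (n 0 z (n 1 z (n 1 z (n 1 z (n 2 (n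
 0 z (n 0 z (n 0 z (n 0 z (n 0 z (n 0 z z)))))) z)))))) (n 0 z (n 0 z (n 0 z (n 0 z (n 0 z (n 0
 z (n 0 z (n 0 z z))))))))))) (n 763 (n 0 z (n 0 z (n 0 z (n 0 z (n 0 z (n 0 z (n 0 z (n 2 (n 0
 z (n 1 z (n 1 z (n 1 z (n 2 (n 0 z (n 0 z (n 0 z (n 0 z (n 0 z (n 0 z z)))))) z))))) (n 0 z (n
 0 z (n 0 z z))))))))))) (n 763 (n 0 z (n 0 z (n 0 z (n 2 (n 2 (n 0 z (n 0 z (n 0 z (n 0 z (n 0
 (n 8787275 z z) (n 0 z z)))))) (n 1 z (n 2 (n 0 z (n 0 z (n 0 z (n 0 z (n 0 (n 8798747 z z) (n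
 0 z z)))))) (n 1 z z)))) (n 0 z (n 0 z (n 0 z (n 0 z (n 0 z (n 0 z (n 0 z z))))))))))) (n 765
 (n 0 z (n 0 z (n 0 z (n 0 z (n 0 z (n 0 z (n 0 z (n 0 z (n 0 z (n 0 z (n 0 z (n 0 z (n 0 z (n 0
 z z)))))))))))))) (n 233 (n 0 z (n 0 z (n 0 z (n 0 z (n 0 z (n 0 z (n 0 z (n 0 z (n 0 z (n 0 z
 (n 0 z (n 0 z (n 0 z (n 0 z (n 0 z (n 0 z (n 0 z z))))))))))))))))) (n 125 (n 0 z (n 0 z (n 0 z
 (n 0 z (n 0 z (n 0 z (n 0 z (n 0 z (n 0 z (n 0 z (n 0 z (n 0 z z)))))))))))) (n 125 (n 0 z (n 0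
 z (n 0 z (n 2 z (n 0 z (n 0 z (n 0 z (n 0 z (n 0 z (n 0 z (n 0 z (n 0 z z))))))))))))
 z))))))))) (n 0 (n 919 (n 0 z (n 0 z (n 0 z (n 0 z (n 0 z (n 0 z (n 0 z (n 0 z (n 0 z (n 0 z (n
 0 z z))))))))))) (n 919 (n 0 z (n 2 (n 0 z (n 0 z (n 2 (n 0 z (n 0 z (n 0 z (n 0 z (n 0 z (n 0
 z z)))))) (n 2 (n 0 z (n 0 z (n 0 z (n 0 z (n 0 (n 348 z z) (n 0 z z)))))) (n 2 (n 0 z (n 0 z
 (n 0 z (n 0 z (n 0 z (n 0 z z)))))) (n 1 z z)))))) (n 0 z (n 0 z (n 0 z (n 0 z (n 0 z (n 0 z (n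
 0 z (n 0 z (n 0 z z))))))))))) (n 919 (n 0 z (n 0 z (n 0 z (n 0 z (n 0 z (n 2 (n 0 z (n 2 (n 0
 z (n 0 z (n 0 z (n 0 z (n 0 z (n 0 z z)))))) (n 2 (n 0 z (n 0 z (n 0 z (n 0 z (n 0 z (n 0 z
 z)))))) (n 2 (n 0 z (n 0 z (n 0 z (n 0 z (n 0 z (n 0 z z)))))) (n 2 (n 0 z (n 0 z (n 0 z (n 0 z
 (n 0 z (n 0 z z)))))) z))))) (n 0 z (n 0 z (n 0 z (n 0 z (n 0 z z))))))))))) (n 919 (n 0 z (n 0
 z (n 2 (n 2 (n 0 z (n 0 z (n 0 z (n 0 z (n 0 (n 3684 z z) (n 0 z z)))))) (n 1 z (n 2 (n 0 z (n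
 0 z (n 0 z (n 0 z (n 0 z (n 0 z z)))))) (n 1 z z)))) (n 0 z (n 0 z (n 0 z (n 0 z (n 0 z (n 0 z
 (n 0 z (n 0 z z))))))))))) (n 921 (n 0 z (n 0 z (n 0 z (n 0 z (n 2 (n 1 z (n 1 z (n 1 z z))) (n
 0 z (n 0 z (n 0 z (n 0 z z))))))))) (n 87 (n 0 z (n 0 z (n 0 z (n 0 z (n 0 z (n 0 z (n 0 z (n 0
 z (n 0 z (n 0 z (n 0 z (n 0 z (n 0 z (n 0 z (n 0 z (n 0 z z)))))))))))))))) (n 577 (n 0 z (n 0
 z (n 0 z (n 0 z (n 2 (n 0 z z) (n 0 z (n 0 z (n 0 z (n 0 z (n 0 z (n 0 z (n 0 z (n 0 z (n 0 z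
 (n 0 z z))))))))))))))) (n 577 (n 0 z (n 0 z (n 0 z (n 0 z (n 0 z (n 0 z (n 0 z (n 0 z (n 0 z
 (n 0 z (n 0 z (n 0 z (n 0 z (n 0 z (n 0 z z))))))))))))))) z)))))))) (n 0 (n 0 z (n 0 z (n 0 z
 (n 347 (n 0 z (n 0 z (n 0 z (n 0 z (n 0 z z))))) (n 7 (n 0 z (n 0 z (n 0 z (n 0 z (n 0 z (n 0 z
 z)))))) (n 341 (n 0 z (n 0 z (n 0 z (n 0 z (n 0 z (n 0 z (n 0 z (n 0 z (n 0 z (n 0 z (n 0 z
 z))))))))))) (n 341 (n 0 z (n 0 z (n 0 z (n 0 z (n 0 z (n 0 z (n 0 z (n 0 z (n 0 z (n 0 z (n 2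
 z z))))))))))) z))))))) (n 0 (n 0 z (n 0 z (n 1385 (n 2 (n 1 z (n 1 z (n 2 (n 0 z (n 0 z (n 0 z
 (n 0 z (n 0 z (n 0 z z)))))) z))) (n 0 z (n 0 z (n 0 z (n 0 z (n 0 z (n 0 z (n 0 z (n 0 z (n 0
 z (n 0 z (n 0 z (n 0 z (n 0 z (n 0 z (n 0 z (n 0 z (n 0 z (n 0 z (n 0 z (n 0 z (n 0 z (n 0 z (n
 0 z (n 0 z (n 0 z (n 0 z (n 0 z z)))))))))))))))))))))))))))) (n 7 (n 0 z (n 2 (n 1 z (n 2 (n 0
 z (n 0 z (n 0 z (n 0 z (n 0 z (n 0 z z)))))) z)) (n 0 z (n 0 z z)))) (n 13 (n 0 z (n 0 z (n 0 z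
 (n 0 z (n 2 (n 0 z z) (n 0 z (n 0 z (n 0 z (n 0 z (n 0 z (n 0 z (n 0 z (n 0 z (n 0 z (n 0 z (n
 0 z (n 0 z (n 0 z (n 0 z (n 0 z (n 0 z (n 0 z (n 0 z (n 0 z (n 0 z (n 0 z (n 0 z (n 0 z (n 0 z
 (n 0 z (n 0 z (n 0 z z)))))))))))))))))))))))))))))))) (n 13 (n 0 z (n 0 z (n 0 z (n 0 z (n 0 z
 (n 0 z (n 0 z (n 0 z (n 0 z (n 0 z (n 0 z (n 0 z (n 0 z (n 0 z (n 0 z (n 0 z (n 0 z (n 0 z (n 0
 z (n 0 z (n 0 z (n 0 z (n 0 z (n 0 z (n 0 z (n 0 z (n 0 z (n 0 z (n 0 z (n 0 z (n 0 z (n 2 z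
 z)))))))))))))))))))))))))))))))) z)))))) (n 0 (n 0 z (n 1365 (n 2 (n 1 z (n 1 z (n 2 (n 0 z (n
 0 z (n 0 z (n 0 z (n 0 z (n 0 z z)))))) z))) (n 0 z (n 0 z (n 0 z (n 0 z (n 0 z (n 0 z (n 0 z
 (n 0 z (n 0 z (n 0 z (n 0 z z)))))))))))) (n 1289 (n 2 (n 1 z (n 2 (n 0 z (n 0 z (n 0 z (n 0 z
 (n 0 z (n 0 z z)))))) z)) (n 0 z (n 0 z (n 0 z z)))) (n 781 (n 0 z (n 0 z (n 0 z (n 0 z (n 0 z
 (n 0 z (n 0 z (n 0 z (n 2 (n 0 z z) (n 0 z (n 0 z (n 0 z (n 0 z (n 0 z (n 0 z (n 0 z (n 0 z (n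
 0 z (n 0 z (n 0 z (n 0 z (n 0 z (n 0 z (n 0 z (n 0 z z))))))))))))))))))))))))) (n 781 (n 0 z
 (n 0 z (n 0 z (n 0 z (n 0 z (n 0 z (n 0 z (n 0 z (n 0 z (n 0 z (n 0 z (n 0 z (n 0 z (n 0 z (n 0
 z (n 0 z (n 0 z (n 0 z (n 0 z (n 0 z (n 0 z (n 0 z (n 0 z (n 0 z (n 0 z
 z))))))))))))))))))))))))) z))))) (n 0 (n 1365 (n 0 z (n 0 z (n 0 z (n 0 z z)))) (n 1289 (n 0 z
 (n 2 (n 2 (n 0 z (n 0 z (n 0 z (n 0 z (n 0 (n 8864283 z z) (n 0 z z)))))) (n 1 z z)) (n 0 z (n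
 0 z (n 0 z z))))) (n 737 (n 0 z (n 0 z (n 0 z (n 0 z (n 0 z (n 0 z (n 0 z (n 0 z (n 0 z (n 0 z
 (n 2 (n 0 z z) (n 0 z (n 0 z (n 0 z (n 0 z (n 0 z (n 0 z z))))))))))))))))) (n 737 (n 0 z (n 0
 z (n 0 z (n 0 z (n 0 z (n 0 z (n 0 z (n 0 z (n 0 z (n 0 z (n 0 z (n 0 z (n 0 z (n 0 z (n 0 z (n
 0 z (n 0 z z))))))))))))))))) z)))) (n 0 (n 55 (n 0 z (n 0 z (n 0 z (n 0 z (n 0 z (n 0 z (n 0 z
 (n 0 z (n 0 z (n 0 z (n 0 z (n 0 z (n 0 z z))))))))))))) (n 581 (n 0 z (n 0 z (n 0 z (n 0 z (n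
 0 z (n 0 z (n 0 z (n 0 z (n 0 z (n 0 z (n 0 z (n 0 z (n 0 z z))))))))))))) (n 581 (n 0 z (n 0 z
 (n 2 z (n 0 z (n 0 z (n 0 z (n 0 z (n 0 z (n 0 z (n 0 z (n 0 z (n 0 z (n 0 z z)))))))))))))
 z))) (n 0 (n 97 (n 0 z (n 0 z (n 0 z (n 0 z (n 0 z (n 0 z (n 0 z (n 0 z (n 0 z (n 0 z (n 0 z (n
 0 z z)))))))))))) (n 97 (n 0 z (n 0 z (n 0 z (n 0 z (n 0 z (n 0 z (n 0 z (n 0 z (n 0 z (n 0 z
 (n 0 z (n 2 z z)))))))))))) z)) (n 0 (n 0 z z) (n 0 z z))))))))))) (n 0 (n 0 z (n 1 (n 2164299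
 z (n 2164299 z (n 2164299 z (n 2164299 z (n 2164299 z (n 2164299 z z)))))) (n 0 z z))) (n 0 z
 z)))) (n 0x22add (n 0 (n 201 (n 0 z (n 3282443 z (n 0 z (n 0 z (n 0 z (n 0 z (n 0 z (n 0 z (n 0
 z (n 0 z (n 0 z z))))))))))) (n 35 (n 6496515 z (n 0 z (n 0 z (n 0 z (n 0 z (n 0 z (n 0 z (n 0
 z (n 0 z z))))))))) (n 9 (n 6496515 z (n 0 z (n 0 z (n 0 z (n 0 z (n 0 z z)))))) (n 3 (n
 6496515 z (n 0 z (n 0 z (n 0 z z)))) (n 25 (n 0 z (n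
 0x2ca6c602078a475f91e89f82082075f85e82281c8de7a086182181f8608de86086081f7df8a08207df85f0801 z
 (n 0 z (n 2164299 z (n 0 z (n 2164299 z (n 0 z z))))))) (n 0 (n
 0x2c86c604078a475f91e89f82082075f85e82281c8de7a086182181f8608de86086081f7df8a08207df85f0801 z
 (n 0 z (n 2 z (n 0 z (n 6627635 z (n
 0x2ca88406037e079f89f85d8a08a089d86085e8618627e279e8208df81f85f8618208218608a07a07e07df0801 z
 (n 0 z (n 0 z (n 6627635 z (n 0 z z)))))))))) z)))))) (n 3 (n 0 z z) (n 0 (n 1 (n 6496515 z (n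
 6496515 z (n 6496515 z (n 6496515 z (n 6496515 z (n 6496515 z z)))))) (n 0 z (n 0 z (n 0 z
 z)))) (n 0 z z)))) (n 0x2c2dda216e311972d81b4d512ad530cdb0866a30324cac0 (n 0 (n 201 (n 2 z (n 0
 z (n 6631491 z (n 0 z (n 0 z (n 0 z z)))))) (n 57 (n 6496515 z (n 6496515 z (n 0 z (n 10 z (n
 18 z (n 26 z (n 0 z z))))))) (n 9 (n 34 z (n 6496515 z (n 42 z (n 0 z (n 0 z z))))) (n 3 (n 0 z
 (n 0 z (n 0 z (n 0 z (n 0 z (n 6496515 z (n 0 z (n 0 z (n 0 z (n 0 z (n 0 z z))))))))))) (n 1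
 (n 6562099 z (n 50 z (n 0 z (n 58 z (n 0 z z))))) (n 0 (n 0 z (n 6631491 z (n 0 z (n 66 z (n 0
 z (n 0 z (n 0 z z))))))) z)))))) (n 9 (n 0 (n 191 (n 0 z (n 0 z (n 0 z (n 0 z (n 0 z z))))) (n
 191 (n 0 z (n 0 z (n 0 z (n 0 z (n 0 z z))))) (n 191 (n 0 z (n 0 z (n 0 z (n 0 z (n 0 z z)))))
 (n 183 (n 0 z (n 2 (n 0 z (n 1 z (n 1 z (n 1 z z)))) (n 0 z (n 0 z (n 0 z z))))) (n 183 (n 0 z
 (n 0 z (n 0 z (n 0 z (n 0 z z))))) (n 197 (n 0 z (n 0 z (n 0 z (n 0 z (n 0 z (n 0 z z)))))) (n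
 197 (n 0 z (n 0 z (n 0 z (n 0 z (n 0 z (n 0 z z)))))) (n 965 (n 0 z (n 0 z (n 0 z (n 0 z (n 0 z
 (n 0 z (n 0 z (n 0 z z)))))))) z)))))))) (n 0 (n 0 z (n 0 z (n 775 (n 0 z z) (n 775 (n 0 z z)
 (n 111 (n 0 z (n 0 z (n 2 (n 0 z (n 1 z z)) (n 0 z (n 0 z (n 0 z (n 0 z z))))))) (n 111 (n 0 z
 (n 0 z (n 0 z (n 0 z (n 0 z (n 0 z (n 0 z z))))))) (n 721 (n 0 z (n 0 z (n 0 z (n 0 z (n 0 z (n
 0 z (n 0 z (n 0 z (n 0 z (n 0 z (n 0 z (n 0 z z)))))))))))) z))))))) (n 0 (n 0 z (n 123 (n 0 z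
 (n 0 z (n 0 z (n 0 z (n 0 z z))))) (n 123 (n 0 z (n 0 z (n 0 z (n 0 z (n 0 z z))))) (n 63 (n 2
 (n 0 z (n 1 z z)) (n 0 z (n 0 z (n 0 z (n 0 z (n 0 z (n 0 z z))))))) (n 63 (n 0 z (n 0 z (n 0 z
 (n 0 z (n 0 z (n 0 z (n 0 z z))))))) (n 61 (n 0 z (n 0 z (n 0 z (n 0 z (n 0 z (n 0 z z))))))
 z)))))) (n 0 (n 727 (n 0 z (n 0 z (n 0 z (n 0 z (n 0 z (n 0 z (n 0 z (n 0 z (n 0 z (n 0 z (n 0
 z z))))))))))) (n 727 (n 0 z (n 0 z (n 0 z (n 0 z (n 0 z (n 0 z (n 0 z (n 0 z (n 0 z (n 0 z (n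
 0 z z))))))))))) (n 111 (n 0 z (n 0 z (n 0 z z))) (n 111 (n 0 z (n 0 z (n 0 z z))) (n 109 (n 0
 z (n 0 z (n 0 z (n 0 z (n 0 z (n 2 z (n 0 z (n 0 z z)))))))) z))))) (n 0 (n 0 z (n 21 (n 0 z (n
 0 z (n 7749971 z (n 0 z (n 0 z z))))) (n 21 (n 0 z (n 0 z (n 0 z (n 0 z (n 0 z z))))) (n 17 (n
 0 z (n 0 z (n 0 z (n 0 z z)))) z)))) (n 0 (n 15 (n 2 (n 0 z (n 1 z z)) (n 0 z (n 0 z (n 0 z (n
 0 z z))))) (n 15 (n 0 z (n 0 z (n 0 z (n 0 z (n 0 z z))))) (n 17 (n 0 z (n 0 z (n 0 z (n 0 z (n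
 0 z (n 0 z (n 0 z (n 0 z z)))))))) z))) (n 0 (n 0 z (n 1 (n 0 z (n 0 z (n 0 z (n 0 z (n 0 z (n
 0 z (n 0 z (n 0 z (n 0 z (n 0 z z)))))))))) z)) (n 0 (n 49 (n 0 z (n 0 z (n 0 z (n 0 z (n 0 z
 (n 0 z (n 0 z (n 0 z (n 0 z (n 0 z z)))))))))) z) (n 0 z z))))))))) (n 0 (n 1 (n 1612 z (n
 5514779 z (n 1612 z (n 6488603 z (n 6619947 z (n 1612 z z)))))) (n 1 (n 6496515 z (n 6496515 z
 (n 6496515 z (n 6496515 z (n 6496515 z (n 6496515 z z)))))) (n 1 (n 1612 z (n 1612 z (n 6488603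
 z (n 6619947 z (n 6493227 z (n 1612 z z)))))) (n 0 z (n 0 z z))))) (n 0 z z)))) (n
 0xad4743b5cac42dc7588d350369d6832d4219 (n 0 (n 201 (n 0 z (n 3282443 z z)) (n 33 (n 2 z (n 10 z
 (n 0 z (n 6496515 z (n 0 z z))))) (n 9 (n 18 z (n 6496515 z (n 26 z (n 0 z (n 0 z (n 0 z (n 0 z
 z))))))) (n 3 (n 0 z (n 6496515 z (n 0 z z))) (n 25 (n 0 z (n 34 z (n 0 z (n 6636323 z (n 0 z
 z))))) (n 0 (n 42 z (n 0 z (n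
 0x1362085f8217e08207e08218608607df79f81f7e08208208618208208208208208218208207e08200041 z (n 0 z
 (n 50 z (n 6636323 z (n 0 z (n 0 z (n 0 z (n 0 z z)))))))))) z)))))) (n 201 (n 0 (n 0 z (n 103
 (n 0 z (n 0 z (n 0 z (n 0 z z)))) (n 103 (n 0 z (n 0 z (n 0 z (n 0 z z)))) (n 483 (n 0 z (n 0 z
 (n 0 z (n 0 z (n 0 z (n 0 z z)))))) (n 481 (n 0 z (n 2 (n 0 z z) (n 0 z (n 0 z (n 0 z (n 0 z (n
 0 z (n 0 z (n 0 z (n 0 z (n 0 z (n 0 z z)))))))))))) (n 481 (n 0 z (n 0 z (n 0 z (n 0 z (n 0 z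
 (n 0 z (n 0 z (n 0 z (n 0 z (n 0 z (n 0 z (n 0 z z)))))))))))) z)))))) (n 0 (n 103 (n 0 z (n 0
 z (n 0 z (n 0 z (n 0 z z))))) (n 103 (n 0 z (n 0 z (n 0 z (n 0 z (n 0 z z))))) (n 63 (n 0 z (n
 0 z (n 0 z (n 0 z (n 0 z z))))) (n 61 (n 0 z (n 0 z (n 2 (n 0 z z) (n 0 z (n 0 z (n 0 z (n 0 z
 (n 0 z z)))))))) (n 61 (n 0 z (n 0 z (n 0 z (n 0 z (n 0 z (n 0 z (n 0 z (n 0 z z)))))))) z)))))
 (n 0 (n 0 z (n 15 (n 0 z (n 0 z (n 0 z (n 0 z (n 0 z (n 0 z (n 0 z z))))))) (n 269 (n 0 z (n 0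
 z (n 0 z (n 0 z (n 0 z (n 0 z (n 2 (n 0 z z) (n 0 z (n 0 z (n 0 z (n 0 z (n 0 z z))))))))))))
 (n 269 (n 0 z (n 0 z (n 0 z (n 0 z (n 0 z (n 0 z (n 0 z (n 0 z (n 0 z (n 0 z (n 0 z (n 0 z
 z)))))))))))) z)))) (n 0 (n 99 (n 0 z (n 0 z (n 0 z (n 0 z (n 0 z (n 0 z (n 0 z z))))))) (n 17
 (n 0 z (n 0 z (n 0 z (n 0 z (n 0 z (n 0 z z)))))) (n 17 (n 0 z (n 0 z (n 0 z (n 0 z (n 0 z (n 0
 z z)))))) z))) (n 0 (n 49 (n 0 z (n 0 z (n 0 z (n 0 z (n 0 z (n 2 (n 0 z z) (n 0 z (n 0 z (n 0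
 z (n 0 z z)))))))))) (n 49 (n 0 z (n 0 z (n 0 z (n 0 z (n 0 z (n 0 z (n 0 z (n 0 z (n 0 z (n 0
 z z)))))))))) z)) (n 0 (n 0 z z) (n 0 z z))))))) (n 0 (n 0 z (n 1 (n 6496515 z (n 3282443 z (n
 3282443 z (n 3282443 z (n 3282443 z (n 3282443 z z)))))) z)) (n 0 z z)))) (n 0x2d8dd (n 0 (n
 407 (n 6561843 z (n 0 z (n 0 z (n 0 z (n 0 z (n 0 z z)))))) (n 33 (n 0 z (n 6631747 z (n 0 z (n
 0 z (n 0 z (n 0 z z)))))) (n 129 (n 6562587 z (n 0 z (n 0 z (n 6561843 z (n 0 z (n 0 z (n 0 z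
 (n 0 z z)))))))) (n 3 (n 6631747 z (n 0 z (n 6631747 z (n 0 z (n 0 z z))))) (n 1 (n 6561843 z
 (n 0 z (n 0 z (n 0 z z)))) (n 0 (n 6631747 z (n 0 z (n 2 z (n 0 z (n 0 z z))))) z)))))) (n 1 (n
 0 z z) (n 0 (n 1 (n 6561843 z (n 6561843 z (n 6561843 z (n 6561843 z (n 6561843 z (n 6561843 z
 z)))))) (n 0 z (n 0 z (n 0 z z)))) (n 0 z z)))) (n 0xca35571a80 (n 0 (n 323 (n 0 z (n 2 z (n
 6561875 z (n 0 z (n 0 z (n 0 z z)))))) (n 255 (n 0 z (n 3278363 z (n 0 z (n 0 z (n 0 z (n 0 z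
 (n 0 z z))))))) (n 9 (n 0 z (n 10 z (n 0 z (n 0 z (n 6561875 z (n 0 z (n 0 z (n 0 z (n 0 z (n 0
 z z)))))))))) (n 253 (n 2164283 z (n 0 z (n 0 z (n 0 z (n 0 z (n 0 z z)))))) (n 1 (n 6561875 z
 (n 0 z (n 0 z (n 0 z (n 0 z z))))) (n 0 (n 0 z (n 3212891 z (n 6628363 z (n 0 z (n 0 z (n 0 z
 (n 0 z (n 0 z (n 0 z (n 0 z z)))))))))) z)))))) (n 1 (n 0 (n 731 (n 0 z (n 0 z (n 0 z (n 0 z (n
 0 z (n 0 z (n 0 z (n 0 z (n 0 z (n 0 z (n 0 z z))))))))))) z) (n 0 z z)) (n 0 (n 1 (n 6561875 z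
 (n 6561875 z (n 6561875 z (n 6561875 z (n 6561875 z (n 6561875 z z)))))) (n 0 z (n 0 z (n 0 z
 (n 0 z z))))) (n 0 z z)))) (n 0 (n 0 (n 201 (n 0 z (n 3282443 z (n 0 z (n 0 z (n 0 z (n 0 z (n
 0 z z))))))) (n 57 (n 0 z (n 0 z (n 0 z (n 6496515 z (n 0 z (n 0 z z)))))) (n 135 (n 0 z (n
 6496515 z (n 0 z (n 0 z (n 0 z z))))) (n 3 (n 0 z (n 0 z (n 6496515 z (n 0 z (n 0 z (n 0 z (n 0
 z (n 0 z (n 0 z z))))))))) (n 25 (n 6636323 z (n 0 z (n 0 z (n 0 z (n 0 z z))))) (n 0 (n 0 z (n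
 0 z (n 0 z (n 0 z (n 0 z (n 6636323 z (n 0 z (n 0 z (n 0 z (n 0 z (n 0 z z))))))))))) z))))))
 (n 135 z (n 0 (n 0 z (n 1 (n 6496515 z (n 6496515 z (n 6496515 z (n 6496515 z (n 6496515 z (n
 6496515 z z)))))) (n 0 z (n 0 z (n 0 z z))))) (n 0 z z)))) z)))))))))), by decide +kernel⟩
theorem i10885 : ∃ t, chkR KT RW t 10885 10895 = true := ⟨(n 0x5ae1b9d540 (n 0 (n 395 (n 0 z (n
 2 z (n 0 z (n 6561875 z (n 0 z (n 0 z z)))))) (n 315 (n 3278363 z (n 0 z (n 0 z (n 0 z (n 0 z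
 (n 0 z z)))))) (n 173 (n 6636083 z (n 0 z (n 0 z (n 0 z z)))) (n 27 (n 6632491 z (n 0 z (n 0 z
 (n 0 z z)))) (n 1 (n 0 z (n 0 z (n 0 z (n 6636083 z (n 0 z (n 0 z (n 0 z (n 0 z (n 0 z
 z))))))))) (n 0 (n 0 z (n 0 z (n 0 z (n 0 z (n 0 z (n 0 z (n 0 z (n 0 z (n
 0x164364010180c86c860070590d8c4006132a218800c364343100384ca88420078607de85f82489f7a086092082175f82172085f7a086082185e82379f86086086079e8627a03001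
 z (n 0 z (n 0 z (n 6636083 z (n 10 z (n 0 z (n 0 z (n 6636083 z (n 0 z (n 0 z (n 0 z (n
 0xb20b20181c364364010182c64c820039248595d76e381c81b6dc91e79f82061f8218619e4828b226d985c7208e08a575f8227a48e31801
 z z)))))))))))))))))))) z)))))) (n 173 (n 0 (n 649 (n 0 z (n 0 z (n 0 z (n 0 z (n 0 z (n 0 z
 z)))))) z) (n 0 z z)) (n 0 (n 1 (n 6636083 z (n 6636083 z (n 6636083 z (n 6636083 z (n 6636083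
 z (n 6636083 z z)))))) (n 0 z (n 0 z (n 0 z z)))) (n 0 z z)))) (n 0xec52867494b114654a80 (n 0
 (n 519 (n 0 z (n 2 z (n 0 z (n 0 z (n
 0x1b6216668e185e9247a47e569b8619618627dcada6a17e06e281782469b863a2b79a92661f71c5a10041 z (n
 6496339 z z)))))) (n 435 (n 0 z (n 0 z (n 3278363 z z))) (n 517 (n 0 z (n 0 z (n 0 z (n 0 z (n
 0 z (n 0 z (n 0 z (n 6496339 z (n 0 z (n 0 z (n 0 z (n 0 z z)))))))))))) (n 3 (n 10 z (n 0 z (n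
 6496339 z (n 0 z z)))) (n 1 (n 0 z (n 0 z (n 0 z (n 2164299 z (n 0 z z))))) (n 0 (n 0 z (n 0 z
 (n 18 z (n 26 z (n 0 z (n 0 z (n 0 z (n 0 z (n 0 z (n 6624043 z (n 0 z (n 0 z (n 0 z
 z))))))))))))) z)))))) (n 435 (n 0 (n 387 (n 0 z (n 0 z (n 0 z (n 0 z (n 0 z (n 0 z (n 0 z
 z))))))) (n 1033 (n 0 z (n 0 z (n 0 z (n 0 z (n 0 z (n 0 z (n 0 z z))))))) (n 1033 (n 0 z (n 0
 z (n 0 z (n 0 z (n 0 z (n 0 z (n 0 z z))))))) z))) (n 0 (n 5 (n 0 z (n 0 z (n 0 z (n 0 z (n 0 z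
 (n 0 z (n 0 z (n 0 z (n 0 z (n 0 z z)))))))))) (n 5 (n 0 z (n 0 z (n 0 z (n 0 z (n 0 z (n 0 z
 (n 0 z (n 0 z (n 0 z (n 0 z z)))))))))) z)) (n 0 (n 0 z z) (n 0 z z)))) (n 0 (n 0 z (n 0 z (n 1
 (n 3278363 z (n 3278363 z (n 3278363 z (n 3278363 z (n 3278363 z (n 3278363 z z)))))) z))) (n 0
 z z)))) (n 0 (n 0 (n 237 (n 3282443 z (n 0 z (n 0 z (n 0 z (n 0 z (n 0 z (n 0 z (n 0 z (n 0 z
 (n 0 z (n 0 z z))))))))))) (n 255 (n 6496515 z (n 0 z (n 0 z (n 0 z (n 0 z (n 0 z (n 0 z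
 z))))))) (n 9 (n 0 z (n 6496515 z (n 0 z (n 0 z (n 0 z (n 0 z z)))))) (n 27 (n 0 z (n 0 z (n 0
 z (n 0 z (n 0 z (n 0 z (n 0 z (n 0 z (n
 0xb2a32a001c165454200382ca6a840077de89e7a07a182086082086081f8a082285e8de7a082081e7e07e07e181e86185f8a08218611801
 z (n 0 z (n 0 z (n 0 z (n 6496515 z (n 0 z (n 0 z (n
 0x15951940806332a329001ca6535420018aca6a820035d89db3a04659208d685a959824a5c9a3a178936a182885f75f76672491a8a86e17d569fa242001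
 z (n 0 z (n 0 z (n 0 z (n 6496515 z z)))))))))))))))))))) (n 1 (n 2164299 z (n 0 z (n 0 z (n 0
 z (n 0 z (n 0 z (n 0 z (n 0 z (n 0 z (n 0 z (n 0 z (n 0 z (n 0 z (n 0 z (n 0 z z)))))))))))))))
 (n 0 (n 2164315 z (n 0 z (n 0 z (n 0 z z)))) z)))))) (n 0 z (n 0 (n 1 (n 2164315 z (n 2164315 z
 (n 2164315 z (n 2164315 z (n 2164315 z (n 2164315 z z)))))) (n 0 z (n 0 z (n 0 z z)))) (n 0 z
 z)))) (n 0x2adab9ea21 (n 0 (n 179 (n 6627379 z (n 0 z z)) (n 33 (n 0 z (n 3278363 z (n 0 z (n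
 0x2ca8a804078208608607e081f8a081f7e082082082085f8207df8208208217e08208608208208208208200801 z
 (n 0 z (n 2 z (n 0 z z))))))) (n 129 (n 0 z (n 0 z (n 0 z (n 0 z (n 0 z (n 6627379 z (n 0 z (n
 0 z (n 0 z (n 0 z (n 0 z (n 0 z z)))))))))))) (n 3 (n 0 z (n 0 z (n 6567211 z (n 0 z (n 0 z (n
 0 z (n 0 z (n 0 z z)))))))) (n 1 (n 6567211 z (n 0 z z)) (n 0 (n 0 z (n 10 z (n 0 z (n 6627379
 z (n 0 z (n 0 z (n 0 z z))))))) z)))))) (n 179 (n 0 (n 65 (n 0 z (n 0 z (n 0 z (n 0 z (n 0 z (n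
 0 z (n 0 z (n 0 z (n 0 z (n 0 z z)))))))))) z) (n 0 z z)) (n 0 (n 1 (n 6627379 z (n 6627379 z
 (n 6627379 z (n 6627379 z (n 6627379 z (n 6627379 z z)))))) (n 0 z z)) (n 0 z z)))) (n 0x91440
 (n 0 (n 521 (n 3282443 z (n 0 z (n 2 z (n 0 z (n 0 z (n 0 z (n 0 z (n 0 z z)))))))) (n 461 (n
 6562131 z (n 0 z (n 0 z (n 0 z (n 0 z (n 0 z z)))))) (n 135 (n 0 z (n 0 z (n 0 z (n 6562131 z
 (n 0 z (n 0 z (n 0 z (n 0 z (n 0 z (n 0 z (n 0 z z))))))))))) (n 3 (n 6493195 z (n 0 z (n 0 z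
 z))) (n 1 (n 0 z (n 0 z (n 0 z (n 6562131 z (n 0 z (n 0 z (n 0 z (n 0 z (n 0 z (n 0 z
 z)))))))))) (n 0 (n 0 z (n 0 z (n 6619675 z (n 0 z (n 0 z (n 0 z z)))))) z)))))) (n 3 (n 0 z z)
 (n 0 (n 1 (n 6493195 z (n 6493195 z (n 6493195 z (n 6493195 z (n 6493195 z (n 6493195 z z))))))
 (n 0 z (n 0 z z))) (n 0 z z)))) (n 0x6a6ba19a95a29ae5c0d6ca08b7990922e829174847335005d240 (n 0
 (n 201 (n 2 z (n 0 z (n 3282443 z (n 10 z z)))) (n 33 (n 18 z (n 6496515 z (n 0 z (n 0 z z))))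
 (n 9 (n 26 z (n 6496515 z (n 0 z (n 34 z z)))) (n 3 (n 42 z (n 0 z (n 0 z (n 0 z (n 0 z (n 50 z
 (n 0 z (n 0 z (n 6496515 z (n 0 z z)))))))))) (n 1 (n 0 z (n 58 z (n 6554411 z (n 0 z z)))) (n
 0 (n 0 z (n 0 z (n 0 z (n 0 z (n 66 z (n 0 z (n 0 z (n 0 z (n 0 z (n 0 z (n 6632003 z (n 0 z (n
 0 z (n 0 z (n 0 z (n 0 z (n 74 z z))))))))))))))))) z)))))) (n 201 (n 0 (n 0 z (n 95 (n 0 z (n
 0 z (n 0 z z))) (n 271 (n 0 z (n 0 z (n 0 z z))) (n 271 (n 0 z (n 0 z (n 0 z z))) (n 59 (n 0 z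
 (n 0 z (n 0 z (n 0 z (n 0 z (n 0 z (n 0 z (n 0 z (n 0 z (n 0 z (n 0 z (n 0 z (n 0 z (n 0 z
 z)))))))))))))) (n 59 (n 0 z (n 0 z (n 0 z (n 0 z (n 0 z (n 0 z (n 0 z (n 0 z (n 0 z (n 0 z (n
 0 z (n 0 z (n 0 z (n 2 (n 1 z (n 1 z (n 1 z z))) z)))))))))))))) (n 57 (n 0 z (n 0 z (n 2 (n 1
 z (n 1 z z)) (n 0 z z)))) (n 5 (n 0 z (n 0 z (n 0 z (n 0 z (n 0 z (n 0 z (n 0 z (n 0 z (n 0 z
 (n 0 z (n 0 z z))))))))))) (n 5 (n 0 z (n 0 z (n 0 z (n 0 z (n 0 z (n 0 z (n 2 z (n 0 z (n 0 z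
 (n 0 z (n 0 z z))))))))))) z))))))))) (n 0 (n 127 (n 0 z (n 0 z (n 0 z (n 0 z (n 0 z (n 0 z (n
 0 z (n 0 z (n 0 z z))))))))) (n 391 (n 0 z (n 0 z (n 0 z (n 0 z (n 0 z (n 0 z (n 0 z (n 0 z (n
 0 z (n 0 z (n 0 z (n 0 z (n 0 z (n 0 z (n 0 z z))))))))))))))) (n 391 (n 0 z (n 0 z (n 0 z (n 0
 z (n 0 z (n 0 z (n 0 z (n 0 z (n 0 z (n 0 z (n 0 z (n 0 z (n 0 z (n 0 z (n 0 z z)))))))))))))))
 (n 387 (n 0 z (n 0 z (n 0 z (n 0 z (n 0 z (n 0 z (n 0 z (n 0 z (n 0 z (n 0 z (n 0 z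
 z))))))))))) (n 387 (n 0 z (n 0 z (n 0 z (n 0 z (n 0 z (n 0 z (n 0 z (n 0 z (n 0 z (n 0 z (n 0
 z z))))))))))) (n 99 (n 0 z (n 0 z (n 0 z (n 0 z (n 0 z (n 0 z z)))))) (n 385 (n 0 z (n 0 z (n
 0 z (n 0 z (n 0 z (n 0 z (n 0 z (n 0 z (n 0 z (n 0 z z)))))))))) (n 385 (n 0 z (n 0 z (n 0 z (n
 0 z (n 0 z (n 0 z (n 0 z (n 0 z (n 0 z (n 0 z z)))))))))) z)))))))) (n 0 (n 443 (n 0 z (n 0 z
 (n 0 z (n 0 z z)))) (n 443 (n 0 z (n 0 z (n 0 z (n 0 z z)))) (n 539 (n 0 z (n 0 z (n 0 z (n 0 z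
 (n 0 z (n 0 z (n 0 z (n 0 z (n 0 z (n 0 z (n 0 z z))))))))))) (n 539 (n 0 z (n 0 z (n 0 z (n 0
 z (n 0 z (n 0 z (n 0 z (n 0 z (n 0 z (n 0 z (n 2 (n 1 z (n 1 z (n 1 z z))) z))))))))))) (n 537
 (n 0 z (n 0 z (n 0 z (n 2 (n 1 z (n 1 z z)) (n 0 z (n 0 z z)))))) (n 481 (n 0 z (n 0 z (n 0 z
 (n 0 z (n 0 z (n 0 z (n 0 z (n 0 z (n 0 z (n 0 z z)))))))))) (n 481 (n 0 z (n 0 z (n 0 z (n 0 z
 (n 0 z (n 0 z (n 0 z (n 0 z (n 2 z (n 0 z z)))))))))) z))))))) (n 0 (n 0 z (n 295 (n 0 z (n 0 z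
 (n 0 z (n 0 z (n 0 z (n 0 z (n 0 z (n 0 z (n 0 z (n 0 z (n 0 z (n 0 z (n 0 z (n 0 z (n 0 z (n 0
 z (n 0 z z))))))))))))))))) (n 295 (n 0 z (n 0 z (n 0 z (n 0 z (n 0 z (n 0 z (n 0 z (n 0 z (n 0
 z (n 0 z (n 2 (n 1 z (n 1 z (n 1 z z))) (n 0 z (n 0 z (n 0 z (n 0 z (n 0 z (n 0 z
 z))))))))))))))))) (n 243 (n 0 z (n 0 z (n 0 z (n 0 z (n 2 (n 1 z (n 1 z z)) (n 0 z z)))))) (n
 293 (n 2 (n 0 z z) (n 0 z (n 0 z (n 0 z (n 0 z (n 0 z (n 0 z (n 0 z (n 0 z (n 0 z (n 0 z (n 0 z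
 (n 0 z (n 0 z z)))))))))))))) (n 293 (n 0 z (n 0 z (n 0 z (n 0 z (n 0 z (n 0 z (n 0 z (n 0 z (n
 0 z (n 0 z (n 0 z (n 2 z (n 0 z (n 0 z z)))))))))))))) z)))))) (n 0 (n 267 (n 0 z (n 0 z (n 0 z
 (n 0 z (n 0 z (n 0 z (n 0 z z))))))) (n 267 (n 0 z (n 0 z (n 0 z (n 0 z (n 0 z (n 0 z (n 0 z
 z))))))) (n 735 (n 0 z (n 0 z (n 0 z (n 0 z (n 0 z (n 0 z (n 0 z z))))))) (n 733 (n 0 z (n 0 z
 (n 0 z (n 0 z (n 0 z (n 0 z (n 0 z (n 0 z (n 0 z (n 0 z (n 0 z (n 0 z (n 0 z (n 0 z (n 0 z (n 0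
 z (n 0 z (n 0 z (n 0 z (n 0 z (n 0 z z))))))))))))))))))))) (n 733 (n 0 z (n 0 z (n 0 z (n 0 z
 (n 0 z (n 0 z (n 0 z (n 0 z (n 0 z (n 0 z (n 0 z (n 0 z (n 0 z (n 0 z (n 0 z (n 0 z (n 0 z (n 0
 z (n 0 z (n 0 z (n 0 z z))))))))))))))))))))) z))))) (n 0 (n 0 z (n 3 (n 0 z (n 0 z (n 0 z (n 0
 z (n 0 z (n 0 z (n 0 z (n 0 z (n 0 z (n 0 z (n 0 z (n 0 z (n 0 z (n 6631795 z (n 0 z (n 0 z (n
 0 z (n 0 z (n 0 z (n 0 z (n 0 z z))))))))))))))))))))) (n 361 (n 0 z (n 0 z (n 0 z (n 0 z (n 0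
 z (n 0 z (n 0 z (n 0 z (n 0 z (n 0 z (n 0 z (n 0 z (n 0 z (n 0 z (n 0 z (n 0 z (n 0 z (n 0 z (n
 0 z z))))))))))))))))))) (n 361 (n 0 z (n 0 z (n 0 z (n 0 z (n 0 z (n 0 z (n 0 z (n 0 z (n 0 z
 (n 0 z (n 0 z (n 0 z (n 0 z (n 0 z (n 0 z (n 0 z (n 0 z (n 0 z (n 0 z z)))))))))))))))))))
 z)))) (n 0 (n 51 (n 0 z (n 0 z (n 0 z (n 0 z (n 0 z (n 0 z (n 0 z (n 0 z (n 0 z (n 0 z (n 0 z
 z))))))))))) (n 49 (n 0 z (n 0 z (n 0 z (n 0 z (n 0 z (n 0 z z)))))) (n 49 (n 0 z (n 0 z (n 0 z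
 (n 0 z (n 0 z (n 0 z z)))))) z))) (n 0 (n 1 (n 0 z (n 0 z (n 0 z (n 0 z (n 0 z (n 0 z (n 0 z (n
 0 z (n 0 z (n 0 z (n 0 z (n 0 z (n 0 z (n 0 z z)))))))))))))) (n 1 (n 0 z (n 0 z (n 0 z (n 0 z
 (n 0 z (n 0 z (n 0 z (n 0 z (n 0 z (n 0 z (n 0 z (n 0 z (n 0 z (n 0 z z)))))))))))))) z)) (n 0
 (n 0 z z) (n 0 z z)))))))))) (n 0 (n 1 (n 6496515 z (n 28 z (n 6624267 z (n 3212875 z (n 268 z
 (n 268 z z)))))) (n 0 z (n 1 (n 6496515 z (n 3282443 z (n 3282443 z (n 6624267 z (n 3282443 z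
 (n 3282443 z z)))))) (n 1 (n 6496515 z (n 268 z (n 6624267 z (n 268 z (n 268 z (n 268 z z))))))
 z)))) (n 0 z z)))) (n 0x229ad814d62c0a6d40ab7911a2510ad64e02645052a2540 (n 0 (n 345 (n 3282443
 z (n 2 z (n 0 z (n 0 z z)))) (n 435 (n 0 z (n 0 z (n 0 z (n 3278363 z (n 0 z (n 10 z (n 0 z (n
 18 z z)))))))) (n 433 (n 6566403 z (n 0 z (n 0 z (n 0 z (n 26 z (n 0 z (n 0 z (n 0 z (n 34 z
 z))))))))) (n 3 (n 0 z (n 42 z (n 0 z (n 50 z (n 6566403 z (n 0 z (n 6566403 z z))))))) (n 1 (n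
 0 z (n 0 z (n 0 z (n 0 z (n 58 z (n 6566403 z (n 0 z z))))))) (n 0 (n 0 z (n 0 z (n 0 z (n 66 z
 (n 0 z (n 6636307 z z)))))) z)))))) (n 345 (n 0 (n 679 (n 0 z (n 0 z (n 0 z (n 2 (n 0 z (n 1 z
 (n 1 z (n 1 z (n 1 z (n 1 z (n 1 z z))))))) (n 0 z (n 0 z (n 0 z (n 0 z z)))))))) (n 679 (n 0 z
 (n 0 z (n 0 z (n 0 z (n 0 z (n 0 z (n 0 z (n 0 z z)))))))) (n 867 (n 0 z (n 0 z (n 0 z (n 0 z
 (n 0 z (n 0 z (n 0 z (n 0 z (n 0 z (n 0 z z)))))))))) (n 867 (n 0 z (n 0 z (n 0 z (n 0 z (n 0 z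
 (n 0 z (n 0 z (n 0 z (n 0 z (n 0 z z)))))))))) (n 675 (n 0 z (n 0 z (n 0 z (n 0 z (n 0 z (n 0 z
 (n 0 z (n 0 z (n 0 z (n 0 z z)))))))))) (n 675 (n 0 z (n 0 z (n 0 z (n 0 z (n 0 z (n 0 z (n 0 z
 (n 0 z (n 0 z (n 0 z z)))))))))) (n 673 (n 0 z (n 2 (n 1 z z) (n 0 z (n 0 z (n 0 z (n 0 z (n 0
 z z))))))) (n 869 (n 0 z (n 0 z (n 0 z (n 0 z (n 0 z (n 0 z (n 2 z (n 0 z z)))))))) z))))))))
 (n 0 (n 0 z (n 867 (n 0 z (n 0 z (n 2 (n 0 z (n 1 z (n 1 z (n 1 z (n 1 z z))))) (n 0 z (n 0 z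
 (n 0 z (n 0 z (n 0 z (n 0 z (n 0 z z)))))))))) (n 867 (n 0 z (n 0 z (n 0 z (n 0 z (n 0 z (n 0 z
 (n 0 z (n 0 z (n 0 z (n 0 z z)))))))))) (n 675 (n 0 z (n 0 z (n 0 z (n 0 z (n 0 z (n 0 z (n 0 z
 (n 2 (n 0 z (n 1 z (n 1 z z))) (n 0 z (n 0 z z)))))))))) (n 675 (n 0 z (n 0 z (n 0 z (n 0 z (n
 0 z (n 0 z (n 0 z (n 0 z (n 0 z (n 0 z z)))))))))) (n 677 (n 0 z (n 0 z (n 0 z (n 0 z (n 0 z (n
 0 z (n 0 z (n 0 z z)))))))) (n 865 (n 0 z (n 0 z (n 0 z (n 0 z (n 0 z (n 0 z (n 0 z z)))))))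
 z))))))) (n 0 (n 31 (n 0 z (n 0 z (n 0 z (n 0 z (n 0 z (n 0 z (n 0 z (n 0 z (n 0 z (n 0 z (n 0
 z z))))))))))) (n 31 (n 0 z (n 0 z (n 0 z (n 0 z (n 0 z (n 0 z (n 0 z (n 0 z (n 0 z (n 0 z (n 0
 z z))))))))))) (n 27 (n 0 z (n 0 z (n 0 z (n 0 z (n 0 z (n 0 z (n 0 z (n 0 z (n 0 z (n 0 z (n 0
 z z))))))))))) (n 27 (n 0 z (n 0 z (n 0 z (n 0 z (n 0 z (n 0 z (n 0 z (n 0 z (n 0 z (n 0 z (n 0
 z z))))))))))) (n 15 (n 0 z (n 0 z (n 0 z (n 0 z (n 0 z (n 0 z (n 0 z (n 2 (n 1 z z) (n 0 z (n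
 0 z (n 0 z (n 0 z (n 0 z (n 0 z (n 0 z (n 0 z z)))))))))))))))) (n 29 (n 0 z (n 0 z (n 0 z (n 0
 z (n 0 z (n 0 z (n 0 z (n 0 z (n 0 z (n 0 z (n 0 z (n 0 z (n 0 z (n 0 z (n 0 z (n 0 z
 z)))))))))))))))) z)))))) (n 0 (n 0 z (n 27 (n 0 z (n 0 z (n 0 z (n 0 z z)))) (n 27 (n 0 z (n 0
 z (n 0 z (n 0 z z)))) (n 15 (n 0 z (n 0 z (n 0 z (n 0 z (n 2 (n 1 z z) (n 0 z (n 0 z (n 0 z
 z)))))))) (n 869 (n 0 z (n 0 z (n 0 z (n 0 z (n 0 z (n 2 z (n 0 z z))))))) z))))) (n 0 (n 33 (n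
 0 z (n 0 z (n 0 z (n 0 z (n 0 z (n 0 z (n 0 z (n 0 z (n 0 z z))))))))) (n 33 (n 0 z (n 0 z (n 0
 z (n 0 z (n 0 z (n 0 z (n 0 z (n 0 z (n 0 z z))))))))) (n 21 (n 2 (n 1 z z) (n 0 z (n 0 z (n 0
 z (n 0 z z))))) (n 889 (n 0 z (n 0 z (n 0 z (n 0 z (n 0 z (n 0 z (n 0 z (n 0 z (n 0 z (n 0 z
 z)))))))))) z)))) (n 0 (n 0 z (n 697 (n 0 z (n 0 z (n 0 z (n 0 z (n 0 z (n 2 (n 1 z z) z))))))
 (n 5 (n 2 z (n 0 z (n 0 z (n 0 z (n 0 z (n 0 z (n 0 z z))))))) z))) (n 0 (n 617 (n 0 z (n 0 z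
 (n 0 z (n 0 z (n 0 z (n 0 z (n 0 z (n 0 z (n 0 z (n 0 z (n 0 z z))))))))))) (n 241 (n 0 z (n 0
 z (n 0 z (n 0 z (n 0 z (n 0 z (n 0 z (n 0 z (n 0 z (n 0 z (n 0 z (n 0 z (n 0 z (n 0 z (n 0 z (n
 0 z z)))))))))))))))) z)) (n 0 (n 1 (n 0 z (n 0 z (n 0 z (n 0 z (n 0 z (n 0 z (n 0 z (n 0 z (n
 0 z z))))))))) z) (n 0 z z))))))))) (n 0 (n 1 (n 6627595 z (n 6566403 z (n 3282443 z (n 3282443
 z (n 3282443 z (n 3282443 z z)))))) (n 1 (n 4326939 z (n 6566403 z (n 3484 z (n 3484 z (n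
 6627595 z (n 3484 z z)))))) (n 0 z (n 0 z z)))) (n 0 z z)))) (n 0 (n 0 (n 453 (n 0 z (n 3282443
 z (n 0 z (n 0 z (n 0 z z))))) (n 451 (n 3278363 z (n 0 z (n 0 z (n 0 z (n 0 z (n 0 z z)))))) (n
 450 (n 3212843 z (n 0 z (n 0 z (n 0 z (n 0 z (n 0 z (n 0 z (n 0 z (n 0 z (n 0 z (n 0 z (n 0 z
 (n 0 z (n 0 z z)))))))))))))) (n 3 (n 0 z (n 2164283 z (n 0 z (n 0 z (n 0 z z))))) (n 1 (n
 6554139 z (n 0 z (n 0 z (n 0 z (n 0 z (n 0 z z)))))) (n 0 (n 2164315 z (n 0 z (n 0 z (n 0 z (n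
 0 z (n 0 z (n 0 z (n 0 z (n 0 z (n 0 z (n 0 z (n 0 z (n 0 z (n 0 z z)))))))))))))) z)))))) (n
 453 z (n 0 (n 0 z (n 1 (n 3282443 z (n 3282443 z (n 3282443 z (n 3282443 z (n 3282443 z (n
 3282443 z z)))))) (n 0 z (n 0 z (n 0 z z))))) (n 0 z z)))) (n
 0x184a29985ab70445b2144e641a51b08a (n 0 (n 693 (n 0 z (n
 0xf2d6320001e58c6400066ad8c8000cd531900027b96328007ff7ffa4f7ffcf77fff9180034e8000c07ff6bd7fff947ffe3e80029d80083b7ffa377fff917ffbd380092480014d7ffff67ffacc8002d17ffb548004247ffa8f80000a8006b47ffe807ff9518000008002c48002b48000a280030980068e7ffcb980043f80054f7ffd4c7ffc248005927fffd27ffb3c7ffbe880051c7ffe1a8000008003197ffbf57ffca37ffdea8005717ffe770159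
 z (n 0 z (n 0 z (n 0 z (n 0 z (n 0 z (n 0 z (n 0 z (n 3282443 z (n 0 z (n 0 z (n 0 z (n 6358347
 z (n
 0x515d94d94480e00cb6eca4a6420700f41f6ca60202c6994c095abcb2980aaa5865380dade80a34c7e2d687f16c08132c08199ce805c027d7aa68000007e66327fb3dc81044a803410803ee37f37717c45288120d48130437fe9cd822ab08239ba811b667e57d87f1f5a80161b8042ee800000828d907fa4b27d77358158887e6181803b607c9912815244805b4e833a547f4e777e04dc80b37a7f44a882a1e87f5d4080a2c07daf1680acec7f3ebc7e7a8a7f28b68000001119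
 z (n 0 z (n 0 z z))))))))))))))))) (n 691 (n 0 z (n 0 z (n 3278363 z (n 0 z (n 0 z (n 0 z
 z)))))) (n 690 (n 2 z (n 0 z (n 0 z (n 3212843 z (n 0 z (n 10 z (n 0 z (n 0 z (n 0 z (n 0 z
 z)))))))))) (n 3 (n 0 z (n 2164283 z (n 0 z (n 0 z (n 0 z (n 18 z (n 0 z (n 26 z (n 0 z (n 0 z
 (n 0 z (n 0 z (n 34 z z))))))))))))) (n 1 (n 0 z (n 0 z (n 0 z (n 0 z (n 2164299 z (n 42 z (n 0
 z (n 0 z (n 0 z (n 0 z (n 0 z (n 0 z (n 0 z (n 0 z (n 0 z (n 0 z z)))))))))))))))) (n 0 (n 0 z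
 (n 0 z (n 0 z (n 0 z (n 2164315 z (n 0 z (n 0 z z))))))) z)))))) (n 691 (n 0 (n 0 z (n 55 (n 0
 z (n 0 z (n 0 z z))) (n 55 (n 0 z (n 0 z (n 0 z z))) (n 55 (n 0 z (n 0 z (n 0 z z))) (n 51 (n 0
 z (n 0 z (n 0 z (n 6498059 z (n 0 z (n 0 z z)))))) z))))) (n 0 (n 11 (n 0 z (n 7746051 z (n 0 z
 (n 0 z (n 0 z (n 0 z (n 0 z (n 0 z (n 0 z (n 0 z (n 0 z (n 0 z (n 0 z z))))))))))))) (n 11 (n 0
 z (n 0 z (n 0 z (n 0 z (n 0 z (n 0 z (n 0 z (n 0 z (n 0 z (n 0 z (n 0 z (n 0 z (n 0 z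
 z))))))))))))) (n 11 (n 0 z (n 0 z (n 0 z (n 0 z (n 0 z (n 0 z (n 0 z (n 0 z (n 0 z (n 0 z (n 0
 z (n 0 z (n 0 z z))))))))))))) (n 3 (n 0 z (n 0 z (n 0 z (n 0 z (n 0 z (n 0 z (n 0 z (n 0 z (n
 0 z (n 0 z z)))))))))) z)))) (n 0 (n 0 z (n 0 z (n 3 (n 0 z (n 0 z (n 0 z (n 0 z (n 0 z (n 0 z
 (n 0 z (n 0 z (n 0 z (n 0 z (n 0 z z))))))))))) z))) (n 0 (n 0 z (n 15 (n 0 z (n 0 z (n 0 z (n
 0 z (n 0 z (n 0 z (n 0 z (n 0 z (n 0 z (n 0 z (n 0 z z))))))))))) z)) (n 0 (n 9 (n 0 z (n 0 z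
 (n 6496371 z (n 0 z (n 0 z (n 0 z (n 0 z (n 0 z (n 0 z z))))))))) z) (n 0 z z)))))) (n 0 (n 0 z
 (n 0 z (n 1 (n 3278363 z (n 3278363 z (n 3278363 z (n 3278363 z (n 3278363 z (n 3278363 z
 z)))))) (n 0 z (n 0 z (n 0 z z)))))) (n 0 z z)))) (n 0 (n 0 (n 183 (n 0 z (n 0 z (n 3282443 z
 (n 0 z (n 0 z (n 0 z (n 0 z z))))))) (n 33 (n 3278363 z (n 0 z z)) (n 171 (n 0 z (n 0 z (n 0 z
 (n 0 z (n 3212843 z (n 0 z z)))))) (n 3 (n 0 z (n 2164283 z (n 0 z (n 0 z (n 0 z (n 0 z z))))))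
 (n 1 (n 6636043 z (n 0 z (n 0 z (n 0 z (n 0 z z))))) (n 0 (n 6636043 z (n 6636043 z (n 0 z (n 0
 z (n 0xb64381f8208218208208208208208208208208208208218208208208208208208a08208208208200041 z (n
 0 z (n 0 z (n 0 z (n 0 z (n 0 z z)))))))))) z)))))) (n 33 z (n 0 (n 1 (n 3278363 z (n 3278363 z
 (n 3278363 z (n 3278363 z (n 3278363 z (n 3278363 z z)))))) (n 0 z z)) (n 0 z z))))
 z)))))))))), by decide +kernel⟩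
theorem i10895 : ∃ t, chkR KT RW t 10895 10905 = true := ⟨(n 0x28d9acb052 (n 0 (n 179 (n 0 z (n
 3282443 z (n 0 z z))) (n 33 (n 0 z (n 0 z (n 0 z (n 0 z (n 3278363 z (n 0 z (n 0 z (n 0 z (n 0
 z (n 0 z z)))))))))) (n 173 (n 2 z (n 0 z (n 0 z (n 0 z (n 0 z (n 0 z (n 0 z (n 0 z (n 0 z (n 0
 z (n 3212843 z (n 0 z (n 0 z (n 0 z (n 0 z z))))))))))))))) (n 3 (n
 0x32a32a100c1d95190480e00ca8ca040381837b7f897c7f7e82807f7e81827f82827f7f7f7e81818081807e7b7f7d7f7d867e847f83807d7f817b80817f82828283821809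
 z (n 0 z (n 0 z (n 0 z (n 0 z (n 2164283 z (n 0 z (n 0 z (n
 0xd94994500604ca8ca84037d847d82867a7e7d8480837c827985838577887e7f81828a7c877d7a83827e758a7f857e7d8e7f82887b7c8282857984857e1009
 z (n 0 z (n
 0x148594100e00c86a8240381827f80817f8080808080818081808080808081807f8080808180818080818180807f8081808081818080807f807f8180801009
 z z))))))))))) (n 1 (n
 0x8c8590140e1cc84620a030f65453120382b28b18101c0195144080620ca8a420078e847b85907d75838b8075907d8559a28c717c9259837d917ca1877f6b8f835e6f79828781737591ab818d738a7c7d7f657e3009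
 z (n 0 z (n 0 z (n 0 z (n
 0x663162050386b21188280c0d949940c060eca862040780887d82827b807f7b807a7784848683828878777e7d807c7d7c7c7385807e858578827885737b7685808d827d86838a82882009
 z (n 0 z (n 2164299 z (n 0 z z)))))))) (n 0 (n 0 z (n 10 z (n 0 z (n 2164315 z (n 0 z (n 0 z (n
 0 z (n 0 z (n 0 z (n 0 z z)))))))))) z)))))) (n 179 (n 0 (n 289 (n 0 z (n 0 z (n 0 z (n 0 z (n
 0 z (n 0 z (n 0 z (n 0 z (n 0 z (n 0 z z)))))))))) z) (n 0 z z)) (n 0 (n 0 z (n 1 (n 3282443 z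
 (n 3282443 z (n 3282443 z (n 3282443 z (n 3282443 z (n 3282443 z z)))))) (n 0 z z))) (n 0 z
 z)))) (n 0x35295d10454d424b4501335211 (n 0 (n 449 (n 3282443 z (n 0 z (n 0 z (n 0 z (n 0 z (n 0
 z z)))))) (n 435 (n 0 z (n 0 z (n 0 z (n 0 z (n 2 z (n 3278363 z (n 10 z (n 0 z z)))))))) (n
 436 (n 18 z (n 26 z (n 6563083 z (n 0 z (n 6563083 z z))))) (n 3 (n 0 z (n 2164283 z (n 0 z (n
 0 z (n 0 z z))))) (n 1 (n 0 z (n 6563083 z (n 0 z (n 0 z z)))) (n 0 (n 0 z (n 0 z (n 0 z (n 0 z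
 (n 0 z (n 0 z (n 0 z (n 2164315 z (n 0 z (n 0 z (n 34 z (n 0 z (n 0 z (n 0 z (n 0 z (n 0 z
 z)))))))))))))))) z)))))) (n 1 (n 0 (n 0 z (n 873 (n 0 z (n 0 z (n 0 z (n 0 z (n 0 z (n 0 z (n
 0 z (n 0 z (n 0 z (n 0 z z)))))))))) (n 873 (n 0 z (n 0 z (n 0 z (n 0 z (n 0 z (n 0 z (n 0 z (n
 0 z (n 0 z (n 0 z z)))))))))) (n 529 (n 0 z (n 0 z (n 0 z (n 0 z (n 0 z (n 0 z (n 0 z (n 0 z
 z)))))))) z)))) (n 0 (n 19 (n 0 z (n 0 z (n 0 z (n 0 z (n 0 z (n 0 z (n 0 z (n 0 z (n 0 z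
 z))))))))) (n 19 (n 0 z (n 0 z (n 0 z (n 0 z (n 0 z (n 0 z (n 0 z (n 0 z (n 0 z z))))))))) (n
 13 (n 0 z (n 0 z (n 0 z (n 0 z (n 0 z (n 0 z (n 0 z z))))))) z))) (n 0 (n 0 z (n 1 (n 0 z (n 0
 z (n 0 z (n 0 z (n 0 z (n 0 z (n 0 z (n 0 z (n 0 z (n 0 z (n 0 z z))))))))))) z)) (n 0 (n 49 (n
 0 z (n 0 z (n 0 z (n 0 z (n 0 z (n 0 z (n 0 z (n 0 z (n 0 z (n 0 z z)))))))))) z) (n 0 z z)))))
 (n 0 (n 0 z (n 1 (n 6563083 z (n 6563083 z (n 6563083 z (n 6563083 z (n 6563083 z (n 6563083 z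
 z)))))) (n 0 z (n 0 z z)))) (n 0 z z)))) (n 0x15532866ab4b2154eaa21 (n 0 (n 399 (n 0 z (n 0 z
 (n 0 z (n 0 z (n 0 z (n 3282443 z (n 0 z z))))))) (n 445 (n 0 z (n 0 z (n 0 z (n 0 z (n 0 z (n
 0 z (n 0 z (n 0 z (n 2 z (n 0 z (n 3278363 z (n 0 z (n 0 z (n 0 z (n 0 z z))))))))))))))) (n
 171 (n 10 z (n 0 z (n 0 z (n 3212843 z z)))) (n 27 (n 0 z (n 0 z (n 6632475 z z))) (n 1 (n 0 z
 (n 0 z (n 0 z (n 0 z (n 0 z (n 2164299 z (n 0 z z))))))) (n 0 (n 0 z (n 0 z (n 0 z (n 0 z (n 18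
 z (n 0 z (n 0 z (n 0 z (n 0 z (n 0 z (n 26 z (n 0 z (n 6632475 z (n 6632475 z (n 0 z (n 0 z (n
 0 z (n 0 z (n 0 z (n 0 z (n 0 z z))))))))))))))))))))) z)))))) (n 27 (n 0 (n 879 (n 2 (n 1 z (n
 1 z z)) (n 0 z (n 0 z (n 0 z z)))) (n 893 (n 0 z (n 0 z (n 0 z (n 0 z (n 0 z (n 0 z (n 0 z (n 0
 z (n 0 z (n 0 z z)))))))))) (n 893 (n 0 z (n 0 z (n 0 z (n 0 z (n 0 z (n 0 z (n 0 z (n 0 z (n 0
 z (n 0 z z)))))))))) z))) (n 0 (n 833 (n 0 z (n 0 z (n 0 z (n 0 z (n 0 z (n 0 z (n 0 z (n 0 z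
 (n 0 z (n 0 z (n 0 z (n 0 z (n 0 z (n 0 z z)))))))))))))) (n 833 (n 0 z (n 0 z (n 0 z (n 0 z (n
 0 z (n 0 z (n 0 z (n 0 z (n 0 z (n 0 z (n 0 z (n 0 z (n 0 z (n 0 z z)))))))))))))) z)) (n 0 (n
 0 z z) (n 0 z z)))) (n 0 (n 0 z (n 0 z (n 1 (n 6632475 z (n 6632475 z (n 6632475 z (n 6632475 z
 (n 6632475 z (n 6632475 z z)))))) z))) (n 0 z z)))) (n 0x50a132d10974896b88225c2124ed40946a0a2
 (n 0 (n 189 (n 0 z (n 3282443 z (n 0 z (n 0 z (n 0 z z))))) (n 255 (n 0 z (n 3278363 z (n 0 z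
 (n 0 z z)))) (n 131 (n 0 z (n 0 z (n 6628363 z (n 6628363 z (n 0 z (n 2 z (n 0 z (n 10 z
 z)))))))) (n 3 (n 0 z (n 18 z (n 26 z (n 2164283 z (n 34 z (n 42 z z)))))) (n 127 (n
 0x2d6528000107fffa77ffff98000178000607ffff48000467fff948000ab7fffb07fff628000f780001a7ffff87fffa67fffea7fffd68000167fffd480013e7fffc380008a8000037fffe67fffd98000f67fff957fff9f8000098000497fff817fff7e7fffb38000037fffb77fffe67fffc68000748000797fffae7fffd58000b380001780002c7fffa18000037fffa18000987fffb27fffef0059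
 z (n
 0xcca6a604038000057ffffa7ffffd7ffff380000f7ffff18000087ffff88000167ffffe7fffe68000098000018000057ffff68000178000037ffff880000680003480001780002a7ffffd7fffe07fffef8000167ffff97fffde80000480001e7ffff67fffd47fffec7fffd17fffef7ffffb80000880000f8000207fffef80000c8000208000248000057fffe27fffe17fffe780002d7fffed7fffee0819
 z (n 0 z (n 0 z (n 0 z (n 0 z (n
 0xca6ca64078000017ffffe8000018000008000008000007ffffe8000028000008000018000008000008000008000008000008000008000008000008000008000008000008000008000008000008000008000008000008000008000008000008000008000008000008000008000008000008000008000008000008000008000008000008000008000008000008000008000008000007fffff8000000819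
 z (n 0 z (n
 0x2563280000d7fffb97ffffa80001380004d7ffff78000387fffaa8000897fffc07fff818000c58000157ffffa7fffb87fffef7fffdf8000117fffdd8000fe7fffd080006e8000037fffec7fffe18000c57fffaa7fffb380000880003a7fff9a7fff987fffc28000037fffc67fffec7fffd180005d8000617fffbf7fffde80008f8000138000237fffb58000037fffb48000797fffc17ffff20059
 z (n 0 z (n 0 z (n 2164299 z (n 0 z (n 50 z (n 0 z (n 0 z z)))))))))))))))) (n 0 (n 0 z (n 0 z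
 (n 0 z (n 0 z (n 0 z (n 0 z (n 0 z (n 0 z (n 0 z (n 0 z (n 6628363 z (n 0 z (n 0 z (n 0 z (n 0
 z (n 0 z z)))))))))))))))) z)))))) (n 255 (n 0 (n 0 z (n 687 (n 2 (n 0 z (n 0 z (n 0 z (n 1 z
 z)))) (n 0 z (n 0 z (n 0 z (n 0 z (n 0 z (n 0 z (n 0 z (n 0 z (n 0 z z)))))))))) (n 687 (n 0 z
 (n 0 z (n 0 z (n 0 z (n 0 z (n 0 z (n 0 z (n 0 z (n 0 z (n 0 z z)))))))))) (n 687 (n 0 z (n
 0xf57648001a37ffa677ffe068004098005e080014980045a7ff7bd800a597ffa427ff6e980120e80003a7fff4f7ff9527ffb357ffd1080036d7ffbc78011d37ff85b80055d80010780020c7ffffb800f1a7ff8ac7ffc9580025180015d7ff8257ffcce7ffc7d8006317ffd067ffc257ffaac80049680057e7ffc077ffbed8006f27ffd3f8000547ffe278004d77ffe9280055c7ffbd280016a0059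
 z (n 0 z (n 0 z (n 0 z (n 0 z (n 0 z (n 0 z (n 0 z (n 0 z z)))))))))) (n 687 (n 0 z (n 0 z (n 0
 z (n 2 (n 2 (n 0 z (n 0 z (n 0 z (n 0 z (n 0 z (n 0 z z)))))) z) (n 0 z (n 0 z (n 0 z (n 0 z (n
 0 z (n 0 z z)))))))))) (n 255 (n 0 z (n 0 z (n 0 z (n 0 z (n 0 z (n 0 z (n 0 z (n 0 z (n 0 z (n
 0 z (n 0 z (n 0 z (n 0 z (n 0 z (n 0 z (n 0 z (n 0 z (n 0 z (n 0 z (n 0 z (n 0 z (n 0 z (n 2 z
 (n 0 z (n 0 z (n 0 z (n 0 z (n 0 z (n 0 z (n 0 z (n 0 z (n 0 z (n 0 z (n 0 z (n 0 z (n 0 z (n 0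
 z (n 0 z (n 0 z (n 0 z (n 0 z (n 0 z (n 0 z (n 0 z (n 0 z (n 0 z
 z)))))))))))))))))))))))))))))))))))))))))))))) z)))))) (n 0 (n 7 (n 0 z (n 0 z (n 0 z (n 0 z
 (n 0 z (n 0 z (n 0 z (n 0 z (n 0 z (n 2 (n 0 z (n 0 z (n 0 z (n 2 (n 0 (n 8798291 z (n 8798291
 z z)) (n 0 z (n 0 (n 8798291 z (n 8798291 z z)) (n 0 z (n 0 (n 8798291 z (n 8798291 z z)) (n 0
 z z)))))) z)))) (n 0 z (n 0 z (n 0 z (n 0 z (n 0 z (n 0 z (n 0 z (n 0 z (n 0 z (n 0 z (n 0 z (n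
 0 z z)))))))))))))))))))))) (n 7 (n 0 z (n 0 z (n 0 z (n 0 z (n 0 z (n 0 z (n 0 z (n 0 z (n 0 z
 (n 0 z (n
 0x94d7608004607fef227ff9f4800ab98011dc8002f8800da97fe8e0801f847ff0107fe67b8034018000b47ffc7a7fec627ff4737ff9358007ec7ff44c80371a7fec1e8011ee8001de8002d77ffdd7802c047febf97ff4888005fa8007377fe8e17ff2f17ff68e800c1b7ff6eb7ff50b7ff3f1800c7d8012da7ff3a47ff53d8018127ffc438004237ff7368009187ff85f8014b77ff3518000e90059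
 z (n 0 z (n 0 z (n 0 z (n 0 z (n 0 z (n 0 z (n 0 z (n 0 z (n 0 z (n 0 z (n 0 z
 z)))))))))))))))))))))) (n 7 (n 0 z (n 0 z (n 0 z (n 0 z (n 0 z (n 0 z (n 0 z (n 0 z (n 0 z (n
 0 z (n 0 z (n 0 z (n 0 z (n 0 z (n 0 z (n 0 z (n 0 z (n 0 z (n 0 z (n 0 z (n 0 z (n 0 z
 z)))))))))))))))))))))) (n 7 (n 0 z (n 0 z (n 0 z (n 0 z (n 0 z (n 0 z (n 0 z (n 0 z (n 0 z (n
 0 z (n 0 z (n 0 z (n 0 z (n 0 z (n 0 z (n 0 z (n 0 z (n 0 z (n 0 z (n 0 z (n 0 z (n 0 z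
 z)))))))))))))))))))))) (n 291 (n 0 z (n 0 z (n 0 z (n 0 z (n 0 z (n 0 z (n 0 z (n 0 z (n 0 z
 (n 0 z (n 0 z (n 0 z (n 0 z z))))))))))))) z))))) (n 0 (n 0 z (n 0 z (n 0 z (n 15 (n 0 z (n 0 z
 (n 0 z (n 0 z (n 2 z (n 0 z (n 0 z z))))))) z)))) (n 0 (n 0 z (n 0 z (n 723 (n 0 z (n 0 z (n 0
 z (n 0 z (n 0 z (n 0 z (n
 0x5f57608002cd7ff5347ffc218006dd800b6e8001e68008be7ff13380142c7ff5cd7fefac8021488000737ffdbf7ff3717ff89c7ffba78005127ff8838023447ff346800b7b8001318001d17ffe9e801c2b7ff32e7ff8a88003d380049f7ff1337ff7a57ff9f48007bf7ffa307ff8fd7ff8488007fe800c107ff8177ff91c800f687ffd9b8002a57ffa608005d27ffb1e800d437ff7e28000950059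
 z (n 0 z (n 0 z (n 0 z (n 0 z (n 0 z (n 0 z z))))))))))))) z))) (n 0 (n 0 z (n 9 (n 0 z (n 0 z
 (n 0 z (n 0 z (n 0 z (n 0 z (n 0 z z))))))) z)) (n 0 (n 15 (n 0 z (n 0 z (n 0 z (n 0 z (n 0 z
 (n 0 z (n 0 z (n 0 z (n 0 z (n 0 z (n 0 z (n 0 z (n 0 z (n 0 z (n 0 z z))))))))))))))) z) (n 0
 z z))))))) (n 0 (n 0 z (n 1 (n 3278363 z (n 3278363 z (n 3278363 z (n 3278363 z (n 3278363 z (n
 3278363 z z)))))) (n 0 z (n 0 z z)))) (n 0 z z)))) (n 0x68338e319d7a50e2d2e10ed60c6b7033a5cc0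
 (n 0 (n 573 (n 3282443 z (n 0 z (n 0 z (n 0 z (n 0 z (n 0 z (n 0 z (n 0 z (n 0 z (n 0 z (n 0 z
 (n 0 z (n 0 z (n 0 z (n 0 z (n 2 z (n 0 z (n 0 z (n 0 z (n 0 z z)))))))))))))))))))) (n 571 (n
 0 z (n 3278363 z (n 0 z (n 0 z (n 10 z (n 18 z (n 26 z (n 0 z z)))))))) (n 572 (n 3212843 z (n
 0 z (n 0 z (n 34 z (n 0 z (n 0 z (n 0 z (n 0 z (n 0 z (n 0 z (n 0 z z))))))))))) (n 3 (n
 6631947 z (n 0 z (n 0 z (n 6631947 z (n 42 z (n 0 z (n 50 z z))))))) (n 1 (n 2164299 z (n 0 z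
 (n 0 z (n 0 z (n 0 z z))))) (n 0 (n 0 z (n 6631947 z (n 0 z (n 0 z (n 0 z (n 0 z (n 0 z
 z))))))) z)))))) (n 1 (n 0 (n 1143 (n 0 z (n 0 z (n 0 z (n 2 (n 0 z (n 0 z (n 2 (n 0 z (n 0 z
 (n 0 z (n 0 z (n 0 z (n 0 z z)))))) (n 1 z (n 2 (n 0 (n 8790099 z (n 8790099 z z)) (n 0 z (n 0
 z (n 0 (n 8790099 z (n 8790099 z z)) (n 0 z (n 0 (n 8790099 z (n 8790099 z z)) z)))))) z)))))
 (n 0 z (n 0 z z)))))) (n 1143 (n 0 z (n 0 z (n 0 z (n 0 z (n 0 z (n 0 z z)))))) (n 1143 (n 0 z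
 (n 0 z (n 0 z (n 0 z (n 0 z (n 0 z z)))))) (n 1145 (n 0 z (n 0 z (n 0 z (n 0 z (n 0 z (n 0 z (n
 0 z (n 0 z z)))))))) (n 1165 (n 0 z (n 0 z (n 0 z (n 0 z (n 2 (n 0 z z) (n 0 z z)))))) (n 1165
 (n 0 z (n 0 z (n 0 z (n 0 z (n 0 z (n 0 z z)))))) z)))))) (n 0 (n 0 z (n 0 z (n 1145 (n 0 z (n
 0 z (n 0 z (n 2 (n 1 z (n 2 (n 0 (n 8855635 z (n 8855635 z z)) (n 0 z (n 0 z (n 0 (n 8855635 z
 (n 8855635 z z)) (n 0 z (n 0 (n 8855635 z (n 8855635 z z)) z)))))) z)) (n 0 z (n 0 z (n 0 z (n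
 0 z (n 0 z z))))))))) (n 55 (n 0 z (n 2 (n 0 z z) (n 0 z (n 0 z z)))) (n 55 (n 0 z (n 0 z (n 0
 z (n 2 z z)))) z))))) (n 0 (n 0 z (n 1141 (n 0 z (n 0 z (n 0 z (n 0 z z)))) (n 75 (n 0 z (n 0 z
 (n 0 z (n 0 z (n 0 z (n 0 z (n 0 z (n 0 z (n 0 z (n 0 z (n 0 z (n 0 z (n 0 z (n 0 z (n 0 z (n 0
 z (n 0 z (n 0 z (n 0 z (n 0 z (n 0 z (n 0 z (n 0 z (n 0 z (n 0 z (n 0 z (n 0 z (n 0 z (n 0 z (n
 0 z (n 0 z z))))))))))))))))))))))))))))))) (n 75 (n 0 z (n 0 z (n 0 z (n 0 z (n 0 z (n 0 z (n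
 0 z (n 0 z (n 0 z (n 0 z (n 0 z (n 0 z (n 0 z (n 0 z (n 0 z (n 0 z (n 0 z (n 0 z (n 0 z (n 0 z
 (n 0 z (n 0 z (n 0 z (n 0 z (n 0 z (n 0 z (n 0 z (n 0 z (n 0 z (n 0 z (n 0 z
 z))))))))))))))))))))))))))))))) z)))) (n 0 (n 1141 (n 0 z (n 0 z (n 0 z (n 0 z (n 0 z (n 0 z
 (n 0 z (n 0 z z)))))))) (n 75 (n 0 z (n 0 z (n 0 z (n 0 z (n 0 z (n 0 z (n 0 z (n 0 z (n 0 z (n
 0 z (n 0 z (n 0 z (n 0 z (n 0 z (n 0 z (n 0 z (n 0 z (n 0 z (n 0 z (n 0 z (n 0 z (n 2 (n 0 z z)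
 (n 0 z (n 0 z (n 0 z (n 0 z (n 0 z (n 0 z (n 0 z (n 0 z (n 0 z (n 0 z
 z)))))))))))))))))))))))))))))))) (n 75 (n 0 z (n 0 z (n 0 z (n 0 z (n 0 z (n 0 z (n 0 z (n 0 z
 (n 0 z (n 0 z (n 0 z (n 0 z (n 0 z (n 0 z (n 0 z (n 0 z (n 0 z (n 0 z (n 0 z (n 0 z (n 0 z (n 0
 z (n 0 z (n 0 z (n 0 z (n 0 z (n 0 z (n 0 z (n 0 z (n 0 z (n 0 z (n 0 z
 z)))))))))))))))))))))))))))))))) z))) (n 0 (n 267 (n 0 z (n 0 z (n 0 z (n 0 z (n 2 (n 0 z z)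
 (n 0 z (n 0 z (n 0 z (n 0 z z))))))))) (n 267 (n 0 z (n 0 z (n 0 z (n 0 z (n 0 z (n 0 z (n 0 z
 (n 0 z (n 0 z z))))))))) z)) (n 0 (n 0 z z) (n 0 z z))))))) (n 0 (n 1 (n 2164299 z (n 2164299 z
 (n 2164299 z (n 2164299 z (n 2164299 z (n 2164299 z z)))))) (n 0 z (n 0 z (n 0 z (n 0 z z)))))
 (n 0 z z)))) (n
 0xb5c5454c9a1349da1572509931869396864b6824db4c26ad4c131a20969a0cda990142c80d3480 (n 0x1a693 (n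
 179 (n 2 z (n 10 z (n 3282443 z (n 0 z (n 18 z (n 0 z (n
 0x2a64ca08078017fe8008018008007ff8018008007fe8018008018008008018008008008008007ff8008007ff8008008008008008008018008008018008008018007fe7ff8008018008008008008008000811
 z (n 0 z z)))))))) (n 255 (n 26 z (n 3278363 z (n 0 z (n 34 z (n 42 z z))))) (n 173 (n 0 z (n
 50 z (n 0 z (n 3212843 z (n 0 z (n 0 z (n 0 z z))))))) (n 27 (n 0 z (n 0 z (n 58 z (n 2164283 z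
 (n 66 z (n 0 z (n 0 z z))))))) (n 1 (n 0 z (n 0 z (n 0 z (n 74 z (n 0 z (n 0 z (n 82 z (n 90 z
 (n 2164299 z (n 0 z (n 0 z z))))))))))) (n 0 (n 0 z (n 0 z (n 98 z (n 0 z (n 0 z (n 0 z (n 0 z
 (n 106 z (n 2164315 z (n 114 z (n 0 z (n 0 z (n 0 z (n 0 z (n 0 z (n
 0x2c84c806038008008007ff7ff8008017ff8008007ff8017ff8018007ff8008008018008008018008008007ff8008008008008008008008018008018008008018008008008008007ff8008008008008000811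
 z z)))))))))))))))) z)))))) (n 255 (n 0 (n 0 z (n 0 z (n 79 (n 0 z (n 0 z (n 0 z (n 0 z (n 0 z
 (n 0 z (n 0 z (n 0 z (n 0 z (n 0 z (n 0 z z))))))))))) (n 79 (n 0 z (n 0 z (n 0 z (n 0 z (n 0 z
 (n 7607851 z (n 0 z (n 0 z (n 0 z (n 0 z (n 0 z z))))))))))) (n 79 (n 0 z (n 0 z (n 0 z (n 0 z
 (n 0 z (n 0 z (n 0 z (n 0 z (n 0 z (n 0 z (n 0 z z))))))))))) (n 347 (n 0 z (n 0 z (n 0 z (n 0
 z (n 0 z (n 0 z (n 0 z (n 0 z (n 0 z z))))))))) (n 55 (n 0 z (n 0 z (n 0 z (n 0 z (n 0 z (n 0 z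
 (n 0 z (n 0 z z)))))))) (n 55 (n 0 z (n 0 z (n 0 z (n 0 z (n 2 (n 2 (n 0 z (n 0 z (n 0 z (n 0 z
 (n 0 z (n 0 z z)))))) (n 2 (n 0 z (n 0 z (n 0 z (n 0 z (n 0 z (n 0 z z)))))) (n 2 (n 0 z (n 0 z
 (n 0 z (n 0 z (n 0 z (n 0 z z)))))) (n 2 (n 0 z (n 0 z (n 0 z (n 0 z (n 0 z (n 0 z z)))))) (n 2
 (n 0 z (n 0 z (n 0 z (n 0 z (n 0 z (n 0 z z)))))) (n 2 (n 0 z (n 0 z (n 0 z (n 0 z (n 0 z (n 0
 z z)))))) z)))))) (n 0 z (n 0 z (n 0 z z)))))))) (n 339 (n 0 z (n 0 z (n 0 z (n 0 z (n 0 z (n 0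
 z (n 0 z (n 0 z (n 0 z (n 0 z (n 0 z (n 0 z (n 0 z (n 0 z (n 0 z (n 0 z (n 0 z (n 0 z (n 0 z (n
 0 z (n 0 z (n 0 z (n 0 z (n 0 z (n 0 z (n 0 z (n 0 z (n 0 z z)))))))))))))))))))))))))))) (n
 339 (n 0 z (n 0 z (n 0 z (n 0 z (n 0 z (n 0 z (n 0 z (n 0 z (n 0 z (n 0 z (n 0 z (n 0 z (n 0 z
 (n 0 z (n 0 z (n 0 z (n 0 z (n 0 z (n 0 z (n 0 z (n 0 z (n 0 z (n 0 z (n 0 z (n 0 z (n 0 z (n 0
 z (n 0 z z)))))))))))))))))))))))))))) (n 339 (n 0 z (n 0 z (n 0 z (n 0 z (n 0 z (n 0 z (n 0 z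
 (n 0 z (n 0 z (n 0 z (n 0 z (n 0 z (n 0 z (n 0 z (n 0 z (n 7607851 z (n
 0x318ec204cdd8408d3b081297610000ec2000508400121000055100012a20002144000198800013107ed7e18307fb8018197ec8007cf81583a7cf7a97ad8517ae7d47fc7d87aa7ef80e8338278177c78227e68cc8287cd87384d82d8207a07c87ac8727fd79c7e97f879e7ba80a8a582f78c84d0311
 z (n 0 z (n 0 z (n 0 z (n 0 z (n 0 z (n 0 z (n 0 z (n 0 z (n 0 z (n 0 z (n 0 z
 z)))))))))))))))))))))))))))) (n 337 (n 0 z (n 0 z (n 0 z (n 0 z (n 0 z (n 0 z (n 0 z (n 0 z (n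
 0 z (n 0 z (n 0 z (n 0 z z)))))))))))) (n 337 (n 0 z (n 0 z (n 0 z (n 0 z (n 0 z (n 0 z (n 0 z
 (n 0 z (n 0 z (n 0 z (n 0 z (n 0 z z)))))))))))) (n 337 (n 0 z (n 0 z (n 0 z (n 0 z (n 0 z (n 0
 z (n 0 z (n 2 z (n 0 z (n 0 z (n 0 z (n 0 z z)))))))))))) z)))))))))))))) (n 0 (n 0 z (n 139 (n
 6620987 z (n 0 z (n 0 z (n 0 z (n 0 z (n 0 z (n 0 z (n 0 z (n 0 z (n 0 z (n 0 z z))))))))))) (n
 139 (n 0 z (n 7607819 z (n 0 z (n 0 z (n 0 z (n 0 z (n 0 z (n 0 z (n 0 z (n 0 z (n 0 z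
 z))))))))))) (n 139 (n 0 z (n 0 z (n 0 z (n 0 z (n 6620971 z (n 0 z (n 0 z (n 0 z (n 0 z (n 0 z
 (n 0 z z))))))))))) (n 107 (n 6620987 z (n 0 z (n 0 z (n 0 z (n 0 z (n 0 z (n 0 z z))))))) (n
 251 (n 0 z (n 0 z (n 6620987 z (n 0 z (n 0 z (n 0 z (n 0 z (n 0 z (n 0 z (n 0 z (n 0 z (n 0 z
 (n 0 z (n 0 z z)))))))))))))) (n 251 (n 0 z (n 0 z (n 0 z (n 0 z (n 0 z (n 0 z (n 0 z (n 0 z (n
 0 z (n 0 z (n 7745555 z (n 0 z (n 0 z (n 0 z z)))))))))))))) (n 105 (n 6620987 z (n 0 z (n 0 z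
 (n 0 z (n 0 z (n 0 z (n 0 z (n 0 z (n 0 z (n 0 z (n 0 z (n 0 z (n 0 z (n 0 z (n 0 z (n 0 z (n 0
 z (n 0 z (n 0 z (n 0 z (n 0 z (n 0 z (n 0 z z))))))))))))))))))))))) (n 105 (n 0 z (n 0 z (n 0
 z (n 0 z (n 0 z (n 7745555 z (n 0 z (n 0 z (n 0 z (n 0 z (n 0 z (n 0 z (n 0 z (n 0 z (n 0 z (n
 0 z (n 0 z (n 0 z (n 0 z (n 0 z (n 0 z (n 0 z (n 0 z z))))))))))))))))))))))) (n 105 (n 0 z (n
 0 z (n 0 z (n 0 z (n 0 z (n 0 z (n 0 z (n 0 z (n 0 z (n 0 z (n 0 z (n 0 z (n 0 z (n 0 z (n 0 z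
 (n 0 z (n 7607819 z (n 0 z (n 0 z (n 0 z (n 0 z (n 0 z (n 0 z z))))))))))))))))))))))) (n 253
 (n 2 (n 0 z (n 0 z z)) (n 0 z (n 0 z (n 0 z (n 0 z (n 0 z (n 0 z (n 0 z z)))))))) (n 253 (n 0 z
 (n 0 z (n 0 z (n 7745555 z (n 0 z (n 0 z (n 0 z (n 0 z z)))))))) (n 253 (n 0 z (n 0 z (n 0 z (n
 0 z (n 2 z (n 0 z (n 0 z (n 0 z z)))))))) z))))))))))))) (n 0 (n 119 (n 0 z (n 0 z (n 0 z (n 0
 z (n 0 z (n 0 z (n 0 z (n 0 z (n 0 z (n 0 z (n 0 z (n 0 z (n 0 z z))))))))))))) (n 119 (n 0 z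
 (n 0 z (n 7607867 z (n 0 z (n 0 z (n 0 z (n 0 z (n 0 z (n 0 z (n 0 z (n 0 z (n 0 z (n 0 z
 z))))))))))))) (n 119 (n 0 z (n 0 z (n 0 z (n 0 z (n 0 z (n 0 z (n 0 z (n 0 z (n 0 z (n 0 z (n
 0 z (n 0 z (n 0 z z))))))))))))) (n 347 (n 2 (n 1 z (n 2 (n 0 z (n 0 z (n 0 z (n 0 z (n 0 z (n
 0 z z)))))) (n 1 z (n 2 (n 0 z (n 0 z (n 0 z (n 0 z (n 0 z (n 0 z z)))))) (n 2 (n 0 z (n 0 z (n
 0 z (n 0 z (n 0 z (n 0 z z)))))) (n 1 z (n 2 (n 0 z (n 0 z (n 0 z (n 0 z (n 0 z (n 0 z z))))))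
 (n 2 (n 0 z (n 0 z (n 0 z (n 0 z (n 0 z (n 0 z z)))))) z)))))))) (n 0 z (n 0 z (n 0 z (n 0 z (n
 0 z z)))))) (n 247 (n 0 z (n 0 z (n 2 (n 0 z (n 1 z (n 2 (n 0 z (n 0 z (n 0 z (n 0 z (n 0 z (n
 0 z z)))))) (n 2 (n 0 z (n 0 z (n 0 z (n 0 z (n 0 z (n 0 z z)))))) (n 1 z (n 2 (n 0 z (n 0 z (n
 0 z (n 0 z (n 0 z (n 0 z z)))))) (n 2 (n 0 z (n 0 z (n 0 z (n 0 z (n 0 z (n 0 z z))))))
 z))))))) (n 0 z (n 0 z (n 0 z (n 0 z (n 0 z (n 0 z (n 0 z (n 0 z z))))))))))) (n 247 (n 0 z (n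
 0 z (n 0 z (n 0 z (n 0 z (n 0 z (n 0 z (n 0 z (n 0 z (n 0 z (n 0 z z))))))))))) (n 255 (n 0 z
 (n 0 z (n 0 z (n 0 z (n 0 z (n 0 z (n 0 z (n 0 z (n 0 z (n 0 z (n 0 z (n 0 z z)))))))))))) (n
 255 (n 0 z (n 0 z (n 0 z (n 0 z (n 0 z (n 0 z (n 0 z (n 0 z (n 0 z (n 0 z (n 0 z (n 0 z
 z)))))))))))) (n 255 (n 0 z (n 0 z (n 0 z (n 0 z (n 0 z (n 0 z (n 0 z (n 7750227 z (n 0 z (n 0
 z (n 0 z (n 0 z z)))))))))))) (n 253 (n 0 z (n 0 z (n 0 z (n 0 z (n 0 z (n 0 z (n 0 z (n 0 z (n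
 0 z z))))))))) (n 253 (n 0 z (n 0 z (n 0 z (n 0 z (n 0 z (n 0 z (n 0 z (n 0 z (n 0 z z)))))))))
 (n 253 (n 0 z (n 0 z (n 0 z (n 7754563 z (n 0 z (n 0 z (n 0 z (n 0 z (n 0 z z)))))))))
 z)))))))))))) (n 0 (n 0 z (n 0 z (n 391 (n 0 z (n 0 z (n 0 z (n 0 z (n 0 z (n 0 z z)))))) (n
 487 (n 0 z (n 0 z (n 0 z (n 0 z z)))) (n 487 (n 0 z (n 0 z (n 0 z (n 2 (n 1 z (n 2 (n 0 z (n 0
 z (n 0 z (n 0 z (n 0 z (n 0 z z)))))) (n 2 (n 0 z (n 0 z (n 0 z (n 0 z (n 0 z (n 0 z z)))))) (n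
 2 (n 0 z (n 0 z (n 0 z (n 0 z (n 0 z (n 0 z z)))))) (n 2 (n 0 z (n 0 z (n 0 z (n 0 z (n 0 z (n
 0 z z)))))) (n 2 (n 0 z (n 0 z (n 0 z (n 0 z (n 0 z (n 0 z z)))))) z)))))) z)))) (n 483 (n 0 z
 (n 0 z (n 0 z (n 0 z (n 0 z (n 0 z (n 0 z z))))))) (n 483 (n 0 z (n 0 z (n 0 z (n 0 z (n 0 z (n
 0 z (n 0 z z))))))) (n 483 (n 0 z (n 0 z (n 0 z (n 0 z (n 2 (n 1 z (n 2 (n 0 z (n 0 z (n 0 z (n
 0 z (n 0 z (n 0 z z)))))) (n 1 z z))) (n 0 z (n 0 z z))))))) (n 485 (n 0 z (n 0 z (n 0 z (n 0 z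
 (n 0 z (n 0 z (n 0 z (n 0 z (n 0 z (n 0 z (n 0 z (n 0 z (n 0 z (n 0 z (n 0 z (n 0 z (n 0 z (n 0
 z (n 0 z (n 0 z (n 0 z (n 0 z (n 0 z (n 0 z (n 0 z (n 0 z (n 0 z (n 0 z
 z)))))))))))))))))))))))))))) (n 485 (n 0 z (n 0 z (n 0 z (n 0 z (n 0 z (n 0 z (n 0 z (n 0 z (n
 0 z (n 0 z (n 0 z (n 0 z (n 0 z (n 0 z (n 0 z (n 0 z (n 0 z (n 0 z (n 0 z (n 0 z (n 0 z (n 0 z
 (n 0 z (n 0 z (n 0 z (n 0 z (n 0 z (n 0 z z)))))))))))))))))))))))))))) (n 485 (n 0 z (n 0 z (n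
 0 z (n 0 z (n 0 z (n 0 z (n 0 z (n 0 z (n 0 z (n 0 z (n 0 z (n 0 z (n 0 z (n 0 z (n 0 z (n
 7669307 z (n
 0x28420631d80099bb0011a7600252ec00001d8000138800055100012a20002144000198800013107ed7e18307fb8018197ec8007cf81583a7cf7a97ad8517ae7d47fc7d87aa7ef80e8338278177c78227e68cc8287cd87384d82d8207a07c87ac8727fd79c7e97f879e7ba80a8a582f78c84d0311
 z (n 0 z (n 0 z (n 0 z (n 0 z (n 0 z (n 0 z (n 0 z (n 0 z (n 0 z (n 0 z (n 0 z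
 z)))))))))))))))))))))))))))) z))))))))))) (n 0 (n 0 z (n 259 (n 0 z (n 0 z (n 0 z (n 6559531 z
 (n 0 z (n 0 z (n 0 z z))))))) (n 535 (n 6559531 z (n 0 z (n 0 z (n 0 z z)))) (n 535 (n 0 z (n 0
 z (n 0 z (n 0 z z)))) (n 243 (n 0 z (n 2 (n 0 z (n 0 z (n 1 z (n 2 (n 0 z (n 0 z (n 0 z (n 0 z
 (n 0 z (n 0 (n 8790275 z z) z)))))) (n 2 (n 0 z (n 0 z (n 0 z (n 0 z (n 0 z (n 0 z z))))))
 z))))) (n 0 z (n 0 z (n 0 z (n 0 z (n 0 z (n 0 z z)))))))) (n 243 (n 0 z (n 0 z (n 0 z (n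
 7741699 z (n 0 z (n 0 z (n 0 z (n 0 z z)))))))) (n 243 (n 0 z (n 0 z (n 0 z (n 0 z (n 2 (n 2 (n
 0 z (n 0 z (n 0 z (n 0 z (n 0 z (n 0 z z)))))) (n 2 (n 0 z (n 0 z (n 0 z (n 0 z (n 0 z (n 0 z
 z)))))) (n 2 (n 0 z (n 0 z (n 0 z (n 0 z (n 0 z (n 0 z z)))))) z))) (n 0 z (n 0 z (n 0 z
 z)))))))) (n 241 (n 6559531 z (n 0 z (n 0 z (n 0 z (n 0 z (n 0 z (n 0 z (n 0 z (n 0 z (n 0 z (n
 0 z (n 0 z (n 0 z (n 0 z (n 0 z (n 0 z (n 0 z (n 0 z (n 0 z (n 0 z (n 0 z (n 0 z (n 0 z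
 z))))))))))))))))))))))) (n 241 (n 0 z (n 0 z (n 0 z (n 0 z (n 0 z (n 0 z (n 0 z (n 0 z (n 0 z
 (n 0 z (n 0 z (n 0 z (n 7741699 z (n 0 z (n 0 z (n 0 z (n 0 z (n 0 z (n 0 z (n 0 z (n 0 z (n 0
 z (n 0 z z))))))))))))))))))))))) (n 241 (n 0 z (n 0 z (n 0 z (n 0 z (n 0 z (n 0 z (n 0 z (n 0
 z (n 0 z (n 0 z (n 0 z (n 0 z (n 0 z (n 0 z (n 0 z (n 0 z (n 7669275 z (n 0 z (n 0 z (n 0 z (n
 0 z (n 0 z (n 0 z z))))))))))))))))))))))) z)))))))))) (n 0 (n 259 (n 0 z (n 2 (n 1 z (n 2 (n 0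
 z (n 0 z (n 0 z (n 0 z (n 0 z (n 0 z z)))))) (n 1 z (n 2 (n 0 z (n 0 z (n 0 z (n 0 z (n 0 z (n
 0 z z)))))) (n 2 (n 0 z (n 0 z (n 0 z (n 0 z (n 0 z (n 0 z z)))))) (n 1 z (n 2 (n 0 z (n 0 z (n
 0 z (n 0 z (n 0 z (n 0 z z)))))) (n 2 (n 0 z (n 0 z (n 0 z (n 0 z (n 0 z (n 0 z z))))))
 z)))))))) (n 0 z (n 0 z (n 0 z z))))) (n 55 (n 0 z (n 2 (n 0 z (n 1 z (n 2 (n 0 z (n 0 z (n 0 z
 (n 0 z (n 0 z (n 0 z z)))))) (n 2 (n 0 z (n 0 z (n 0 z (n 0 z (n 0 z (n 0 z z)))))) (n 1 z (n 2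
 (n 0 z (n 0 z (n 0 z (n 0 z (n 0 z (n 0 z z)))))) (n 2 (n 0 z (n 0 z (n 0 z (n 0 z (n 0 z (n 0
 z z)))))) z))))))) (n 0 z (n 0 z (n 0 z z))))) (n 55 (n 0 z (n 0 z (n 0 z (n 0 z (n 0 z z)))))
 (n 3 (n 0 z (n 0 z (n 0 z (n 0 z z)))) (n 3 (n 0 z (n 0 z (n 0 z (n 0 z z)))) (n 3 (n 0 z (n 0
 z (n 7750227 z (n 0 z z)))) (n 1 (n 0 z (n 0 z (n 0 z (n 0 z (n 0 z (n 0 z (n 0 z (n 0 z
 z)))))))) (n 1 (n 0 z (n 0 z (n 0 z (n 0 z (n 0 z (n 0 z (n 0 z (n 0 z z)))))))) (n 1 (n 0 z (n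
 0 z (n 0 z (n 0 z (n 0 z (n 0 z (n 7754563 z (n 0 z z)))))))) z))))))))) (n 0 (n 247 (n 0 z (n
 0 z (n 0 z (n 0 z (n 0 z (n 0 z (n 0 z (n 0 z (n 0 z (n 0 z (n 0 z z))))))))))) (n 247 (n 0 z
 (n 0 z (n 0 z (n 0 z (n 0 z (n 0 z (n 0 z (n 2 (n 1 z (n 2 (n 0 z (n 0 z (n 0 z (n 0 z (n 0 z
 (n 0 z z)))))) (n 2 (n 0 z (n 0 z (n 0 z (n 0 z (n 0 z (n 0 z z)))))) (n 2 (n 0 z (n 0 z (n 0 z
 (n 0 z (n 0 z (n 0 z z)))))) (n 2 (n 0 z (n 0 z (n 0 z (n 0 z (n 0 z (n 0 z z)))))) (n 2 (n 0 z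
 (n 0 z (n 0 z (n 0 z (n 0 z (n 0 z z)))))) z)))))) (n 0 z (n 0 z (n 0 z z))))))))))) (n 339 (n
 0 z (n 0 z (n 0 z (n 0 z (n 0 z (n 0 z (n 0 z (n 0 z (n 0 z (n 0 z (n 0 z z))))))))))) (n 339
 (n 0 z (n 0 z (n 0 z (n 0 z (n 2 (n 0 z (n 1 z (n 2 (n 0 z (n 0 z (n 0 z (n 0 z (n 0 z (n 0 z
 z)))))) (n 2 (n 0 z (n 0 z (n 0 z (n 0 z (n 0 z (n 0 z z)))))) z)))) (n 0 z (n 0 z (n 0 z (n 0
 z (n 0 z (n 0 z z))))))))))) (n 339 (n 0 z (n 0 z (n 0 z (n 0 z (n 0 z (n 0 z (n 7607851 z (n 0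
 z (n 0 z (n 0 z (n 0 z z))))))))))) (n 253 (n 0 z (n 0 z (n 0 z (n 0 z (n 0 z (n 0 z (n 0 z (n
 0 z (n 0 z z))))))))) (n 253 (n 0 z (n 0 z (n 0 z (n 2 (n 0 z z) (n 0 z (n 0 z (n 0 z (n 0 z (n
 0 z z))))))))) (n 253 (n 0 z (n 0 z (n 0 z (n 0 z (n 0 z (n 7669307 z (n 0 z (n 0 z (n 0 z
 z))))))))) z)))))))) (n 0 (n 0 z (n 3 (n 0 z (n 0 z (n 0 z (n 0 z (n 0 z (n 0 z z)))))) (n 3 (n
 0 z (n 0 z (n 0 z (n 0 z (n 2 (n 0 z (n 1 z (n 2 (n 0 z (n 0 z (n 0 z (n 0 z (n 0 z (n 0 z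
 z)))))) (n 2 (n 0 z (n 0 z (n 0 z (n 0 z (n 0 z (n 0 z z)))))) z)))) (n 0 z z)))))) (n 3 (n 0 z
 (n 0 z (n 0 z (n 0 z (n 0 z (n 7607851 z z)))))) (n 49 (n 0 z (n 0 z (n 0 z (n 0 z (n 0 z (n 0
 z (n 0 z (n 0 z (n 0 z (n 0 z (n 0 z (n 0 z (n 0 z (n 0 z z)))))))))))))) (n 49 (n 0 z (n 0 z
 (n 0 z (n 0 z (n 0 z (n 0 z (n 0 z (n 0 z (n 2 (n 0 z z) (n 0 z (n 0 z (n 0 z (n 0 z (n 0 z
 z)))))))))))))) (n 49 (n 0 z (n 0 z (n 0 z (n 0 z (n 0 z (n 0 z (n 0 z (n 0 z (n 0 z (n 7669307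
 z (n 0 z (n 0 z (n 0 z (n 0 z z)))))))))))))) z))))))) (n 0 (n 15 (n 2 (n 0 z (n 0 z (n 2 (n 0
 z (n 0 z (n 0 z (n 0 z (n 0 z (n 0 z z)))))) (n 2 (n 0 z (n 0 z (n 0 z (n 0 z (n 0 z (n 0 z
 z)))))) (n 2 (n 0 z (n 0 z (n 0 z (n 0 z (n 0 z (n 0 z z)))))) z))))) (n 0 z (n 0 z (n 0 z (n 0
 z (n 0 z z)))))) (n 15 (n 0 z (n 0 z (n 0 z (n 0 z (n 0 z (n 0 z z)))))) (n 15 (n 0 z (n 0 z (n
 0 z (n 0 z (n 0 z (n 0 z z)))))) (n 13 (n 2 (n 0 z (n 0 z z)) (n 0 z (n 0 z (n 0 z (n 0 z (n 0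
 z (n 0 z (n 0 z (n 0 z (n 0 z (n 0 z (n 0 z z)))))))))))) (n 13 (n 0 z (n 0 z (n 0 z (n 0 z (n
 0 z (n 0 z (n 0 z (n 0 z (n 0 z (n 0 z (n 0 z (n 0 z z)))))))))))) (n 13 (n 0 z (n 0 z (n 0 z
 (n 0 z (n 7754563 z (n 0 z (n 0 z (n 0 z (n 0 z (n 0 z (n 0 z (n 0 z z)))))))))))) z)))))) (n 0
 (n 0 z (n 0 z (n 1 (n 0 z (n 0 z (n 0 z (n 0 z (n 0 z (n 0 z (n 0 z (n 0 z (n 0 z (n 0 z (n 0 z
 (n 0 z (n 0 z (n 0 z (n 0 z (n 0 z (n 0 z (n 0 z (n 0 z (n 0 z (n 0 z (n 0 z (n 0 z (n 0 z (n 0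
 z (n 0 z (n 0 z (n 0 z (n 0 z (n 0 z (n 0 z (n 0 z (n 0 z (n 0 z (n 0 z (n 0 z (n 0 z (n 0 z (n
 0 z (n 0 z (n 0 z (n 0 z (n 0 z (n 0 z (n 0 z (n 0 z
 z)))))))))))))))))))))))))))))))))))))))))))))) (n 1 (n 0 z (n 0 z (n 0 z (n 0 z (n 0 z (n 0 z
 (n 0 z (n 0 z (n 0 z (n 0 z (n 0 z (n 0 z (n 0 z (n 0 z (n 0 z (n 0 z (n 0 z (n 0 z (n 0 z (n 0
 z (n 0 z (n 0 z (n 0 z (n 0 z (n 0 z (n 0 z (n 0 z (n 0 z (n 0 z (n 0 z (n 0 z (n 0 z (n 0 z (n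
 0 z (n 0 z (n 0 z (n 0 z (n 0 z (n 0 z (n 0 z (n 0 z (n 0 z (n 0 z (n 0 z (n 0 z (n 0 z
 z)))))))))))))))))))))))))))))))))))))))))))))) (n 1 (n 0 z (n 0 z (n 0 z (n 0 z (n 0 z (n 0 z
 (n 0 z (n 0 z (n 0 z (n 0 z (n 0 z (n 0 z (n 0 z (n 0 z (n 0 z (n 0 z (n 0 z (n 0 z (n 0 z (n 0
 z (n 0 z (n 0 z (n 0 z (n 0 z (n 0 z (n 0 z (n 0 z (n 0 z (n 0 z (n 0 z (n 0 z (n 0 z (n
 7669307 z (n 0 z (n 0 z (n 0 z (n 0 z (n 0 z (n 0 z (n 0 z (n 0 z (n 0 z (n 0 z (n 0 z (n 0 z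
 (n 0 z z)))))))))))))))))))))))))))))))))))))))))))))) z))))) (n 0 (n 0 z (n 389 (n 0 z (n 0 z
 (n 0 z (n 0 z (n 0 z (n 0 z (n 0 z (n 0 z (n 0 z (n 0 z (n 0 z (n 0 z (n 0 z (n 0 z (n 0 z (n 0
 z (n 0 z (n 0 z (n 0 z (n 0 z (n 0 z (n 0 z (n 0 z (n 0 z (n 0 z (n 0 z (n 0 z (n 0 z (n 0 z (n
 0 z (n 0 z (n 0 z (n 0 z (n 0 z (n 0 z (n 0 z (n 0 z (n 0 z (n 0 z (n 0 z (n 0 z (n 0 z (n 0 z
 (n 0 z (n 0 z (n 0 z (n 0 z (n 0 z (n 0 z z))))))))))))))))))))))))))))))))))))))))))))))))) (n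
 389 (n 0 z (n 0 z (n 0 z (n 0 z (n 0 z (n 0 z (n 0 z (n 0 z (n 0 z (n 0 z (n 0 z (n 0 z (n 0 z
 (n 0 z (n 0 z (n 0 z (n 0 z (n 0 z (n 0 z (n 0 z (n 0 z (n 0 z (n 0 z (n 0 z (n 0 z (n 0 z (n 0
 z (n 0 z (n 0 z (n 0 z (n 0 z (n 0 z (n 0 z (n 0 z (n 0 z (n 0 z (n 0 z (n 0 z (n 0 z (n 0 z (n
 0 z (n 0 z (n 0 z (n 0 z (n 0 z (n 0 z (n 0 z (n 0 z (n 0 z
 z))))))))))))))))))))))))))))))))))))))))))))))))) (n 389 (n 0 z (n 0 z (n 0 z (n 0 z (n 0 z (n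
 0 z (n 7669291 z (n 0 z (n 0 z (n 0 z (n 0 z (n 0 z (n 0 z (n 0 z (n 0 z (n 0 z (n 0 z (n 0 z
 (n 0 z (n 0 z (n 0 z (n 0 z (n 0 z (n 0 z (n 0 z (n 0 z (n 0 z (n 0 z (n 0 z (n 0 z (n 0 z (n 0
 z (n 0 z (n 0 z (n 0 z (n 0 z (n 0 z (n 0 z (n 0 z (n 0 z (n 0 z (n 0 z (n 0 z (n 0 z (n 0 z (n
 0 z (n 0 z (n 0 z (n 0 z z))))))))))))))))))))))))))))))))))))))))))))))))) z)))) (n 0 (n 1 (n
 0 z (n 0 z (n 0 z (n 0 z (n 6559531 z (n 0 z (n 0 z (n 0 z (n 0 z (n 0 z (n 0 z z))))))))))) (n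
 1 (n 6559547 z (n 0 z (n 0 z (n 0 z (n 0 z (n 0 z (n 0 z (n 0 z (n 0 z (n 0 z (n 0 z
 z))))))))))) (n 1 (n 0 z (n 0 z (n 0 z (n 0 z (n 0 z (n 0 z (n 0 z (n 0 z (n 7669323 z (n 0 z
 (n 0 z z))))))))))) z))) (n 0 (n 0 z (n 0 z z)) (n 0 (n 0 z z) (n 0 z z))))))))))))))) (n 0 (n
 1 (n 5310011 z (n 2 z (n 5443683 z (n 1436 z (n 1436 z (n 1436 z z)))))) (n 1 (n 3278363 z (n
 3278363 z (n 3278363 z (n 3278363 z (n 3278363 z (n 3278363 z z)))))) (n 0 z (n 1 (n 1436 z (n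
 1436 z (n 1436 z (n 1436 z (n 1436 z (n 1436 z z)))))) (n 1 (n 1388 z (n 5309995 z (n 1436 z (n
 1436 z (n 1436 z (n 1436 z z)))))) z))))) (n 0 (n 0x96864b (n 0 (n 0 (n 7749923 z (n 7749923 z
 (n 7749923 z (n 7749923 z (n 7749923 z (n 7749923 z z)))))) z) (n 0 (n 179 (n 1 (n 7749923 z (n
 7749923 z (n 7749923 z (n 7749923 z (n 7749923 z (n 7749923 z z)))))) (n 1 (n 7669307 z (n
 7610723 z (n 7680099 z (n 316 z (n 316 z (n 316 z z)))))) (n 1 (n 7753779 z (n 7753779 z (n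
 7753779 z (n 7753779 z (n 7753779 z (n 7753779 z z)))))) (n 0 z (n 1 (n 316 z (n 7610723 z (n
 7680099 z (n 316 z (n 316 z (n 316 z z)))))) (n 0 z (n 1 (n 7669307 z (n 7610723 z (n 7680099 z
 (n 1388 z (n 7607851 z (n 316 z z)))))) (n 0 z z)))))))) (n 243 (n 1 (n 7680099 z (n 7680099 z
 (n 7753779 z (n 7680099 z (n 7680099 z (n 7680099 z z)))))) (n 1 (n 6496371 z (n 7607851 z (n
 7753779 z (n 7607851 z (n 7607851 z (n 7607851 z z)))))) (n 1 (n 7749923 z (n 7749923 z (n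
 7749923 z (n 7749923 z (n 7749923 z (n 7749923 z z)))))) (n 1 (n 7738123 z (n 1276 z (n 7753779
 z (n 5441323 z (n 7750971 z (n 1276 z z)))))) z)))) (n 315 (n 1 (n 1436 z (n 1436 z (n 1436 z
 (n 7742491 z (n 1436 z (n 1436 z z)))))) (n 1 (n 7610723 z (n 7610723 z (n 7610723 z (n 7610723
 z (n 7610723 z (n 7610723 z z)))))) (n 1 (n 1436 z (n 1436 z (n 7742491 z (n 1436 z (n 1436 z
 (n 1436 z z)))))) (n 1 (n 1388 z (n 5310251 z (n 1436 z (n 1436 z (n 7742491 z (n 1436 z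
 z)))))) (n 0 z (n 1 (n 7610723 z (n 7610723 z (n 7610723 z (n 7610723 z (n 7610723 z (n 7610723
 z z)))))) z)))))) (n 249 (n 1 (n 7680099 z (n 7680099 z (n 7680099 z (n 7680099 z (n 7680099 z
 (n 7680099 z z)))))) (n 1 (n 6426739 z (n 7607851 z (n 7742491 z (n 7607851 z (n 7607851 z (n
 7607851 z z)))))) (n 1 (n 7749923 z (n 7749923 z (n 7749923 z (n 7749923 z (n 7749923 z (n
 7749923 z z)))))) (n 1 (n 2 z (n 5310251 z (n 7733787 z (n 3340 z (n 7742491 z (n 3340 z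
 z)))))) z)))) (n 3 (n 1 (n 7680099 z (n 7680099 z (n 7753779 z (n 7680099 z (n 7680099 z (n
 7680099 z z)))))) (n 0 z (n 0 z (n 1 (n 7749923 z (n 7749923 z (n 7749923 z (n 7749923 z (n
 7749923 z (n 7749923 z z)))))) (n 1 (n 7738123 z (n 1468 z (n 7753779 z (n 5441323 z (n 7750971
 z (n 1468 z z)))))) (n 1 (n 7607851 z (n 7607851 z (n 7753779 z (n 7738123 z (n 6632051 z (n
 7607851 z z)))))) z)))))) (n 131 (n 1 (n 7610723 z (n 7749923 z (n 7610723 z (n 7610723 z (n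
 7610723 z (n 7610723 z z)))))) (n 0 z (n 1 (n 7753779 z (n 7749923 z (n 7753779 z (n 7753779 z
 (n 7753779 z (n 7753779 z z)))))) (n 1 (n 7733787 z (n 7749923 z (n 1516 z (n 7607851 z (n
 7754795 z (n 1516 z z)))))) (n 0 z (n 1 (n 7669307 z (n 7749923 z (n 7669307 z (n 7733787 z (n
 6566515 z (n 7669307 z z)))))) (n 0 z (n 0 z (n 1 (n 1516 z (n 7749923 z (n 7733787 z (n
 0x2e84e806038008008007ff7ff8008017ff8008007ff8017ff8018007ff8008008018008008018008008007ff8008008008008008008008018008018008008018008008008008007ff8008008008008000811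
 z (n 7607851 z (n 7754795 z z)))))) z))))))))) (n 255 (n 1 (n 7749923 z (n 7749923 z (n 7749923
 z (n 7749923 z (n 7749923 z (n 7749923 z z)))))) (n 1 (n 7749923 z (n 7749923 z (n 7749923 z (n
 7749923 z (n 7749923 z (n 7749923 z z)))))) (n 0 z (n 1 (n 7733787 z (n 1436 z (n 7742491 z (n
 1436 z (n 1436 z (n 1436 z z)))))) (n 1 (n 1388 z (n 5310251 z (n 7733787 z (n 1436 z (n
 7742491 z (n 1436 z z)))))) z))))) z))))))) (n 0 (n 0 (n 0 z z) z) (n 0 (n 159 (n 0 (n 0 z z)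
 (n 0 (n 0 z z) (n 0 (n 0 z z) (n 0 (n 0 z z) (n 0 (n 0 z z) (n 0 (n 0 z z) (n 0 (n 0 z z) (n 0
 (n 0 z z) (n 0 (n 0 z z) (n 0 (n 0 z z) (n 0 (n 0 z z) z))))))))))) (n 179 (n 0 (n 0 z z) (n 0
 (n 0 z z) (n 0 (n 0 z z) (n 0 (n 0 z z) (n 0 (n 0 z z) (n 0 (n 0 z z) (n 0 (n 0 z z) (n 0 (n 0
 z z) (n 0 (n 0 z z) z))))))))) (n 315 (n 0 (n 0 z z) (n 0 (n 0 z z) (n 0 (n 0 z z) (n 0 (n 0 z
 z) (n 0 (n 0 z z) (n 0 (n 0 z z) z)))))) (n 417 (n 0 (n 0 z z) (n 0 (n 0 z z) (n 0 (n 0 z z) (n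
 0 (n 0 z z) (n 0 (n 0 z z) (n 0 (n 0 z z) (n 0 (n 0 z z) (n 0 (n 0 z z) z)))))))) (n 249 (n 0
 (n 0 z z) (n 0 (n 0 z z) (n 0 (n 0 z z) (n 0 (n 0 z z) z)))) (n 129 (n 0 (n 0 z z) (n 0 (n 0 z
 z) (n 0 (n 0 z z) (n 0 (n 0 z z) (n 0 (n 0 z z) (n 0 (n 0 z z) (n 0 (n 0 z z) (n 0 (n 0 z z) (n
 0 (n 0 z z) (n 0 (n 0 z z) (n 0 (n 0 z z) z))))))))))) (n 183 (n 0 (n 0 z z) (n 0 (n 0 z z) (n
 0 (n 0 z z) (n 0 (n 0 z z) (n 0 (n 0 z z) (n 0 (n 0 z z) (n 0 (n 0 z z) (n 0 (n 0 z z) (n 0 (n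
 0 z z) (n 0 (n 0 z z) (n 0 (n 0 z z) (n 0 (n 0 z z) (n 0 (n 0 z z) (n 0 (n 0 z z) (n 0 (n 0 z
 z) (n 0 (n 0 z z) (n 0 (n 0 z z) (n 0 (n 0 z z) (n 0 (n 0 z z) (n 0 (n 0 z z) (n 0 (n 0 z z) (n
 0 (n 0 z z) (n 0 (n 0 z z) (n 0 (n 0 z z) (n 0 (n 0 z z) (n 0 (n 0 z z) (n 0 (n 0 z z) (n 0 (n
 0 z z) z)))))))))))))))))))))))))))) (n 255 (n 0 (n 0 z z) (n 0 (n 0 z z) (n 0 (n 0 z z) (n 0
 (n 0 z z) (n 0 (n 0 z z) (n 0 (n 0 z z) (n 0 (n 0 z z) z))))))) (n 171 (n 0 (n 0 z z) (n 0 (n 0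
 z z) (n 0 (n 0 z z) (n 0 (n 0 z z) (n 0 (n 0 z z) (n 0 (n 0 z z) (n 0 (n 0 z z) (n 0 (n 0 z z)
 (n 0 (n 0 z z) (n 0 (n 0 z z) (n 0 (n 0 z z) z))))))))))) (n 3 (n 0 (n 0 z z) (n 0 (n 0 z z) (n
 0 (n 0 z z) (n 0 (n 0 z z) (n 0 (n 0 z z) (n 0 (n 0 z z) z)))))) (n 189 (n 0 (n 0 z z) (n 0 (n
 0 z z) (n 0 (n 0 z z) (n 0 (n 0 z z) (n 0 (n 0 z z) (n 0 (n 0 z z) (n 0 (n 0 z z) (n 0 (n 0 z
 z) (n 0 (n 0 z z) (n 0 (n 0 z z) (n 0 (n 0 z z) (n 0 (n 0 z z) z)))))))))))) (n 263 (n 0 (n 0 z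
 z) (n 0 (n 0 z z) (n 0 (n 0 z z) (n 0 (n 0 z z) (n 0 (n 0 z z) (n 0 (n 0 z z) (n 0 (n 0 z z) (n
 0 (n 0 z z) (n 0 (n 0 z z) (n 0 (n 0 z z) (n 0 (n 0 z z) (n 0 (n 0 z z) (n 0 (n 0 z z) (n 0 (n
 0 z z) (n 0 (n 0 z z) (n 0 (n 0 z z) (n 0 (n 0 z z) (n 0 (n 0 z z) (n 0 (n 0 z z) (n 0 (n 0 z
 z) (n 0 (n 0 z z) (n 0 (n 0 z z) (n 0 (n 0 z z) (n 0 (n 0 z z) (n 0 (n 0 z z) (n 0 (n 0 z z) (n
 0 (n 0 z z) (n 0 (n 0 z z) z)))))))))))))))))))))))))))) (n 131 (n 0 (n 0 z z) (n 0 (n 0 z z)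
 (n 0 (n 0 z z) (n 0 (n 0 z z) (n 0 (n 0 z z) (n 0 (n 0 z z) (n 0 (n 0 z z) (n 0 (n 0 z z) (n 0
 (n 0 z z) z))))))))) (n 29 (n 0 (n 0 z z) (n 0 (n 0 z z) (n 0 (n 0 z z) (n 0 (n 0 z z) (n 0 (n
 0 z z) (n 0 (n 0 z z) (n 0 (n 0 z z) (n 0 (n 0 z z) (n 0 (n 0 z z) (n 0 (n 0 z z) (n 0 (n 0 z
 z) (n 0 (n 0 z z) (n 0 (n 0 z z) (n 0 (n 0 z z) z)))))))))))))) (n 1 (n 0 (n 0 z z) (n 0 (n 0 z
 z) (n 0 (n 0 z z) (n 0 (n 0 z z) (n 0 (n 0 z z) (n 0 (n 0 z z) (n 0 (n 0 z z) (n 0 (n 0 z z) (n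
 0 (n 0 z z) (n 0 (n 0 z z) (n 0 (n 0 z z) (n 0 (n 0 z z) (n 0 (n 0 z z) (n 0 (n 0 z z) (n 0 (n
 0 z z) (n 0 (n 0 z z) (n 0 (n 0 z z) (n 0 (n 0 z z) (n 0 (n 0 z z) (n 0 (n 0 z z) (n 0 (n 0 z
 z) (n 0 (n 0 z z) (n 0 (n 0 z z) (n 0 (n 0 z z) (n 0 (n 0 z z) (n 0 (n 0 z z) (n 0 (n 0 z z) (n
 0 (n 0 z z) (n 0 (n 0 z z) (n 0 (n 0 z z) (n 0 (n 0 z z) (n 0 (n 0 z z) (n 0 (n 0 z z) (n 0 (n
 0 z z) (n 0 (n 0 z z) (n 0 (n 0 z z) (n 0 (n 0 z z) (n 0 (n 0 z z) (n 0 (n 0 z z) (n 0 (n 0 z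
 z) (n 0 (n 0 z z) (n 0 (n 0 z z) (n 0 (n 0 z z) (n 0 (n 0 z z) (n 0 (n 0 z z) (n 0 (n 0 z z)
 z)))))))))))))))))))))))))))))))))))))))))))))) (n 179 (n 0 (n 0 z z) (n 0 (n 0 z z) (n 0 (n 0
 z z) (n 0 (n 0 z z) (n 0 (n 0 z z) (n 0 (n 0 z z) (n 0 (n 0 z z) (n 0 (n 0 z z) z)))))))) (n
 255 (n 0 (n 0 z z) (n 0 (n 0 z z) (n 0 (n 0 z z) (n 0 (n 0 z z) (n 0 (n 0 z z) z))))) (n 173 (n
 0 (n 0 z z) (n 0 (n 0 z z) (n 0 (n 0 z z) (n 0 (n 0 z z) (n 0 (n 0 z z) (n 0 (n 0 z z) (n 0 (n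
 0 z z) z))))))) (n 27 (n 0 (n 0 z z) (n 0 (n 0 z z) (n 0 (n 0 z z) (n 0 (n 0 z z) (n 0 (n 0 z
 z) (n 0 (n 0 z z) (n 0 (n 0 z z) z))))))) (n 1 (n 0 (n 0 z z) (n 0 (n 0 z z) (n 0 (n 0 z z) (n
 0 (n 0 z z) (n 0 (n 0 z z) (n 0 (n 0 z z) (n 0 (n 0 z z) (n 0 (n 0 z z) (n 0 (n 0 z z) (n 0 (n
 0 z z) (n 0 (n 0 z z) z))))))))))) (n 0 (n 0 (n 0 z z) (n 0 (n 0 z z) (n 0 (n 0 z z) (n 0 (n 0
 z z) (n 0 (n 0 z z) (n 0 (n 0 z z) (n 0 (n 0 z z) (n 0 (n 0 z z) (n 0 (n 0 z z) (n 0 (n 0 z z)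
 (n 0 (n 0 z z) (n 0 (n 0 z z) (n 0 (n 0 z z) (n 0 (n 0 z z) (n 0 (n 0 z z) (n 0 (n 0 z z)
 z)))))))))))))))) z))))))))))))))))))))) z)))) z) z)))) (n
 0x1b2ae875134354aa16a9d0ae52e1aa730a51982354cb04d168148aa1445aa40 (n 0 (n 215 (n 3282443 z (n 2
 z (n 0 z (n 0 z z)))) (n 35 (n 0 z (n 6627635 z (n 0 z (n 0 z (n 0 z (n 0 z z)))))) (n 9 (n 10
 z (n 0 z (n 18 z (n 0 z (n 0 z (n 6628123 z (n 0 z (n 26 z (n 6631955 z z))))))))) (n 3 (n 0 z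
 (n 0 z (n 6631955 z z))) (n 1 (n 0 z (n 0 z (n 6558507 z (n 34 z (n 42 z (n 50 z z)))))) (n 0
 (n 58 z (n 66 z (n 74 z (n 82 z (n 0 z (n 0 z (n 0 z (n 6631955 z (n
 0x8ca88624038618216a289f81f76182181f91f82182182086081e79f8a186385f7dd81f81f7218df85f7a00801 z
 (n 0 z (n
 0x2c86c8040781f8617618608208208208208208208208208217e181f82082082082082182182082081f81f0801 z
 (n 90 z z)))))))))))) z)))))) (n 3 (n 0 (n 43 (n 0 z (n 2 (n 0 z (n 0 z (n 2 (n 0 z (n 0 z (n 0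
 z (n 0 z (n 0 z (n 0 z z)))))) (n 2 (n 0 z (n 0 z (n 0 z (n 0 z (n 0 z (n 0 z z)))))) (n 2 (n 0
 z (n 0 z (n 0 z (n 0 z (n 0 z (n 0 z z)))))) (n 2 (n 0 z (n 0 z (n 0 z (n 0 z (n 0 z (n 0 z
 z)))))) (n 2 (n 0 z (n 0 z (n 0 z (n 0 z (n 0 z (n 0 z z)))))) (n 2 (n 0 z (n 0 z (n 0 z (n 0 z
 (n 0 z (n 0 z z)))))) (n 1 z (n 2 (n 0 z (n 0 z (n 0 z (n 0 z (n 0 z (n 0 z z)))))) z))))))))))
 (n 0 z (n 0 z (n 0 z (n 0 z (n 0 z (n 0 z (n 0 z z))))))))) (n 43 (n 0 z (n 0 z (n 0 z (n 0 z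
 (n 0 z (n 0 z (n 0 z (n 0 z (n 0 z z))))))))) (n 43 (n 0 z (n 0 z (n 2 (n 2 (n 0 z (n 0 z (n 0
 z (n 0 z (n 0 z (n 0 z z)))))) (n 2 (n 0 z (n 0 z (n 0 z (n 0 z (n 0 z (n 0 z z)))))) (n 1 z (n
 2 (n 0 z (n 0 z (n 0 z (n 0 z (n 0 z (n 0 z z)))))) (n 1 z (n 1 z (n 2 (n 0 z (n 0 z (n 0 z (n
 0 z (n 0 z (n 0 z z)))))) (n 1 z z)))))))) (n 0 z (n 0 z (n 0 z (n 0 z (n 0 z (n 0 z z)))))))))
 (n 41 (n 0 z (n 0 z (n 0 z (n 0 z (n 0 z (n 0 z z)))))) (n 41 (n 0 z (n 0 z (n 0 z (n 0 z (n 0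
 z (n 0 z z)))))) (n 41 (n 0 z (n 0 z (n 2 (n 2 (n 0 z (n 0 z (n 0 z (n 0 z (n 0 z (n 0 z
 z)))))) (n 1 z (n 1 z (n 1 z (n 1 z z))))) (n 0 z (n 0 z (n 0 z z)))))) (n 269 (n 0 z (n 0 z (n
 0 z (n 0 z (n 0 z (n 0 z (n 0 z (n 2 (n 0 z (n 0 z (n 0 z (n 0 z z)))) z)))))))) (n 269 (n 0 z
 (n 0 z (n 0 z (n 0 z (n 2 (n 0 z (n 0 z (n 0 z z))) (n 0 z (n 0 z (n 0 z z)))))))) (n 269 (n 0
 z (n 0 z (n 0 z (n 0 z (n 0 z (n 0 z (n 0 z (n 0 z z)))))))) (n 269 (n 0 z (n 0 z (n 0 z (n 0 z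
 (n 0 z (n 0 z (n 0 z (n 0 z z)))))))) (n 269 (n 0 z (n 0 z (n 0 z (n 2 z (n 0 z (n 0 z (n 0 z
 (n 0 z z)))))))) z))))))))))) (n 0 (n 0 z (n 0 z (n 15 (n 0 z (n 0 z (n 0 z (n 0 z (n 0 z (n 0
 z (n 0 z (n 0 z (n 0 z (n 0 z (n 0 z (n 0 z (n 0 z (n 0 z (n 0 z (n 0 z (n 0 z (n 0 z (n 0 z (n
 0 z (n 0 z (n 0 z (n 0 z z))))))))))))))))))))))) (n 15 (n 0 z (n 0 z (n 0 z (n 0 z (n 0 z (n 0
 z (n 0 z (n 0 z (n 0 z (n 0 z (n 0 z (n 0 z (n 0 z (n 0 z (n 0 z (n 0 z (n 0 z (n 0 z (n 0 z (n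
 0 z (n 0 z (n 0 z (n 0 z z))))))))))))))))))))))) (n 15 (n 0 z (n 0 z (n 0 z (n 0 z (n 0 z (n 0
 z (n 0 z (n 0 z (n 0 z (n 0 z (n 0 z (n 0 z (n 0 z (n 0 z (n 0 z (n
 0x8ec4e62a038618216a289f81f76182181f91f82182182086081e79f8a186385f7dd81f81f7218df85f7a00801 z
 (n 0 z (n 0 z (n 0 z (n 0 z (n 0 z (n 0 z (n 0 z z))))))))))))))))))))))) (n 13 (n 0 z (n 0 z
 (n 0 z (n 0 z (n 0 z (n 0 z (n 0 z z))))))) (n 13 (n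
 0x8ec8ec86037df7a365c92389d7e28a485f9e18217e285f81c6e282381e81e8e085d7a185e8219647a57630801 z
 (n 0 z (n 0 z (n 0 z (n 0 z (n 0 z (n 0 z z))))))) (n 13 (n 0 z (n 2 (n 0 z (n 0 z z)) (n 0 z
 (n 0 z (n 0 z (n 0 z (n 0 z z))))))) (n 13 (n 0 z (n 0 z (n 0 z (n 2 (n 0 z z) (n 0 z (n 0 z (n
 0 z z))))))) (n 13 (n 0 z (n 0 z (n 0 z (n 0 z (n 0 z (n 0 z (n 0 z z))))))) z)))))))))) (n 0
 (n 0 z (n 297 (n 0 z (n 0 z (n 0 z (n 0 z (n 0 z (n 0 z (n 0 z (n 0 z (n 0 z (n 0 z (n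
 0x6c64e80a077e08227e27de82089f82086186081f7608df85e7a085e7e085e85e86081f86289f82185f8210801 z
 (n 0 z (n 0 z (n 0 z (n 0 z (n 0 z (n 0 z (n 0 z (n 0 z (n 0 z (n 0 z (n 0 z
 z)))))))))))))))))))))) (n 297 (n 0 z (n 0 z (n 0 z (n 0 z (n 0 z (n 0 z (n 0 z (n 0 z (n 0 z
 (n 0 z (n 0 z (n 0 z (n 0 z (n 0 z (n 0 z (n 2 (n 0 z (n 2 (n 0 z (n 0 z (n 0 z (n 0 z (n 0 z
 (n 0 z z)))))) (n 2 (n 0 z (n 0 z (n 0 z (n 0 z (n 0 z (n 0 z z)))))) (n 2 (n 0 z (n 0 z (n 0 z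
 (n 0 z (n 0 z (n 0 z z)))))) (n 2 (n 0 z (n 0 z (n 0 z (n 0 (n 8855811 z z) (n 0 z (n 0 z
 z)))))) (n 2 (n 0 z (n 0 z (n 0 z (n 0 z (n 0 z (n 0 z z)))))) z)))))) (n 0 z (n 0 z (n 0 z (n
 0 z (n 0 z (n 0 z z)))))))))))))))))))))) (n 297 (n 0 z (n 0 z (n 0 z (n 0 z (n 0 z (n 0 z (n 0
 z (n 0 z (n 0 z (n 0 z (n 0 z (n 0 z (n 0 z (n 0 z (n 0 z (n 0 z (n 0 z (n 0 z (n 0 z (n 0 z (n
 0 z (n 2 (n 2 (n 0 z (n 0 z (n 0 z (n 0 z (n 0 z (n 0 z z)))))) (n 1 z (n 1 z (n 2 (n 0 z (n 0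
 z (n 0 z (n 0 z (n 0 z (n 0 z z)))))) (n 1 z z))))) z)))))))))))))))))))))) (n 293 (n 0 z (n 0
 z (n 0 z (n 0 z (n 0 z (n 2 (n 0 z (n 0 z (n 0 z (n 0 z z)))) (n 0 z (n 0 z (n 0 z (n 0 z (n 0
 z z))))))))))) (n 293 (n 0 z (n 0 z (n 0 z (n 0 z (n 0 z (n 0 z (n 0 z (n 0 z (n 0 z (n 0 z (n
 0 z z))))))))))) (n 293 (n 0 z (n 0 z (n 0 z (n 0 z (n 0 z (n 0 z (n 0 z (n 0 z (n 0 z (n 0 z
 (n 0 z z))))))))))) (n 293 (n 0 z (n 0 z (n 0 z (n 0 z (n 0 z (n 0 z (n 0 z (n 2 (n 0 z z) (n 0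
 z (n 0 z (n 0 z z))))))))))) (n 293 (n 0 z (n 0 z (n 0 z (n 0 z (n 0 z (n 0 z (n 0 z (n 0 z (n
 0 z (n 0 z (n 2 z z))))))))))) z))))))))) (n 0 (n 243 (n 0 z (n 0 z (n 0 z (n 0 z (n 0 z (n 2
 (n 0 z (n 0 z (n 1 z (n 1 z (n 1 z (n 2 (n 0 z (n 0 z (n 0 z (n 0 z (n 0 z (n 0 z z)))))) (n 1
 z z))))))) (n 0 z (n 0 z z)))))))) (n 243 (n 0 z (n 0 z (n 0 z (n 0 z (n 0 z (n 0 z (n 0 z (n 2
 (n 0 z (n 2 (n 0 z (n 0 z (n 0 z (n 0 (n 8872979 z z) (n 0 z (n 0 z z)))))) (n 1 z (n 1 z (n 2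
 (n 0 z (n 0 z (n 0 z (n 0 z (n 0 z (n 0 z z)))))) (n 1 z z)))))) z)))))))) (n 243 (n 0 z (n 0 z
 (n 0 z (n 0 z (n 0 z (n 0 z (n 0 z (n 0 z z)))))))) (n 245 (n 0 z (n 0 z (n 0 z (n 0 z (n
 0x4c64ea080379f8df86379e8208a07df7a08218a081f91e81f8638de75d79d7de86285f8a486082189e8610801 z
 (n 0 z (n 0 z (n 0 z (n 0 z (n 0 z z)))))))))) (n 245 (n 0 z (n 0 z (n 0 z (n 0 z (n 0 z (n 0 z
 (n 0 z (n 0 z (n 0 z (n 0 z z)))))))))) (n 245 (n 0 z (n 0 z (n 0 z (n 0 z (n 0 z (n 0 z (n 0 z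
 (n 0 z (n 0 z (n 0 z z)))))))))) (n 245 (n 0 z (n 0 z (n 0 z (n 0 z (n 0 z (n 2 (n 0 z z) (n 0
 z (n 0 z (n 0 z (n 0 z z)))))))))) (n 245 (n 0 z (n 0 z (n 0 z (n 0 z (n 0 z (n 0 z (n 0 z (n 0
 z (n 0 z (n 2 z z)))))))))) z)))))))) (n 0 (n 0 z (n 0 z (n 505 (n 0 z (n 0 z (n 0 z (n 0 z (n
 0 z (n 0 z (n 0 z (n 0 z (n 0 z (n 0 z (n 0 z (n 0 z (n 0 z (n 0 z (n 0 z (n 0 z (n 0 z (n 0 z
 (n 0 z (n 0 z (n 0 z (n 0 z z)))))))))))))))))))))) (n 505 (n 0 z (n 0 z (n 0 z (n 0 z (n 0 z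
 (n 0 z (n 0 z (n 0 z (n 0 z (n 0 z (n 0 z (n 0 z (n 0 z (n 0 z (n 0 z (n 0 z (n 0 z (n 2 (n 0 z
 (n 0 z (n 0 z z))) (n 0 z (n 0 z (n 0 z (n 0 z z)))))))))))))))))))))) (n 505 (n 0 z (n 0 z (n
 0 z (n 0 z (n 0 z (n 0 z (n 0 z (n 0 z (n 0 z (n 0 z (n 0 z (n 0 z (n 0 z (n 0 z (n 0 z (n 0 z
 (n 0 z (n 0 z (n 0 z (n 0 z (n 0 z (n 0 z z)))))))))))))))))))))) (n 505 (n 0 z (n 0 z (n 0 z
 (n 0 z (n 0 z (n 0 z (n 0 z (n 0 z (n 0 z (n 0 z (n 0 z (n 0 z (n 2 (n 0 z z) (n 0 z (n 0 z (n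
 0 z (n 0 z (n 0 z (n 0 z (n 0 z (n 0 z (n 0 z z)))))))))))))))))))))) (n 505 (n 0 z (n 0 z (n 0
 z (n 0 z (n 0 z (n 0 z (n 0 z (n 0 z (n 0 z (n 0 z (n 0 z (n 0 z (n 0 z (n 0 z (n 0 z (n 0 z (n
 0 z (n 0 z (n 0 z (n 0 z (n 2 z (n 0 z z)))))))))))))))))))))) z))))))) (n 0 (n 0 z (n 157 (n 0
 z (n 0 z (n 0 z (n 0 z (n 0 z (n 0 z (n 0 z (n 0 z (n 0 z (n 0 z (n 0 z (n 0 z (n 0 z (n 0 z (n
 0 z (n 0 z (n 0 z (n 0 z (n 0 z (n 0 z (n 0 z (n 0 z (n 0 z (n 0 z (n 0 z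
 z))))))))))))))))))))))))) (n 157 (n 0 z (n 0 z (n 0 z (n 0 z (n 0 z (n 0 z (n 0 z (n 0 z (n 0
 z (n 0 z (n 0 z (n 0 z (n 0 z (n 0 z (n 0 z (n 2 (n 0 z (n 0 z (n 0 z z))) (n 0 z (n 0 z (n 0 z
 (n 0 z (n 0 z (n 0 z (n 0 z (n 0 z (n 0 z z))))))))))))))))))))))))) (n 157 (n 0 z (n 2 (n 0 z
 (n 0 z z)) (n 0 z (n 0 z (n 0 z (n 0 z (n 0 z (n 0 z (n 0 z (n 0 z (n 0 z (n 0 z (n 0 z (n 0 z
 (n 0 z (n 0 z (n 0 z (n 0 z (n 0 z (n 0 z (n 0 z (n 0 z (n 0 z (n 0 z (n 0 z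
 z))))))))))))))))))))))))) (n 157 (n 0 z (n 0 z (n 0 z (n 0 z (n 0 z (n 0 z (n 0 z (n 0 z (n 0
 z (n 0 z (n 0 z (n 0 z (n 0 z (n 0 z (n 0 z (n 0 z (n 0 z (n 0 z (n 0 z (n 0 z (n 0 z (n 0 z (n
 0 z (n 0 z (n 0 z z))))))))))))))))))))))))) (n 157 (n 0 z (n 0 z (n 0 z (n 0 z (n 0 z (n 0 z
 (n 0 z (n 0 z (n 0 z (n 0 z (n 0 z (n 0 z (n 0 z (n 0 z (n 0 z (n 0 z (n 0 z (n 0 z (n 0 z (n 0
 z (n 0 z (n 2 z (n 0 z (n 0 z (n 0 z z))))))))))))))))))))))))) z)))))) (n 0 (n 1 (n 0 z (n 0 z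
 (n 0 z (n 0 z (n 0 z (n 0 z (n 0 z (n 0 z (n 0 z z))))))))) (n 1 (n 0 z (n 0 z (n 0 z (n 0 z (n
 0 z (n 0 z (n 0 z (n 0 z (n 0 z z))))))))) (n 1 (n 0 z (n 0 z (n 0 z (n 0 z (n 0 z (n 2 (n 0 z
 (n 0 z z)) (n 0 z (n 0 z (n 0 z z))))))))) (n 1 (n 2 (n 0 z z) (n 0 z (n 0 z (n 0 z (n 0 z (n 0
 z (n 0 z (n 0 z (n 0 z z))))))))) (n 1 (n 0 z (n 0 z (n 0 z (n 0 z (n 0 z (n 0 z (n 0 z (n 0 z
 (n 0 z z))))))))) z))))) (n 0 (n 0 z (n 0 z (n 0 z (n 0 z z)))) (n 0 (n 0 z (n 0 z (n 0 z z)))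
 (n 0 (n 0 z (n 0 z z)) (n 0 (n 0 z z) (n 0 z z)))))))))))) (n 0 (n 0 z (n 0 z (n 1 (n 6631955 z
 (n 6631955 z (n 6631955 z (n 6631955 z (n 6631955 z (n 6631955 z z)))))) z))) (n 0 z z)))) (n
 0x1b44e8d0a346462a26ca5c2146208c5368114b2112591806d0a01c250109880 (n 0 (n 471 (n 2 z (n
 0x2ca8a824077f817c8481867d828080807f807c857c7b7d8184817c7e7f808280817c8a808a83867f7d84757f82827780817881858680850809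
 z (n 3282443 z (n 10 z (n
 0x6ca8a8240780827d8483827f847d7b7f7b808182817c827f7c7d83788287887a877f8283887c82778180788180848185807c82887e77820809
 z (n 18 z (n 26 z z))))))) (n 33 (n 6562099 z (n 0 z (n 0 z (n 0 z (n 0 z (n 0 z (n 6562099 z
 (n 0 z (n 0 z (n 0 z (n 0 z z))))))))))) (n 9 (n 0 z (n 34 z (n
 0x26ca4a208079987707d9c8c80866b595b7372916995896f89628e7e809093af58c37a899285669861967b839f9d98807f786c729d7b46880809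
 z (n 6562587 z (n 6566419 z (n 0 z (n 0 z (n 42 z z)))))))) (n 3 (n 0 z (n 0 z (n 0 z (n
 6566419 z (n 0 z (n 0 z (n 0 z (n 0 z (n 0 z (n 0 z (n 0 z (n 0 z z)))))))))))) (n 25 (n 0 z (n
 50 z (n 0 z (n 0 z (n 0 z (n 6566419 z (n 58 z (n 6562587 z z)))))))) (n 0 (n
 0x2c86c860037f807f81807f81807f807f807f80808081817f7f808080818180807f808081818080818081807f80808080807f80808080800809
 z (n 66 z (n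
 0x2ca8862403808080808080808080808080808080808180808080807f80808180807f80808080817f8080808080808080808080808080800809
 z (n 6632475 z (n
 0x2ca8862403817f80807f808180807f7f8080808080818080817f808080808080807f8081817f808081808080817f8080808080818080800809
 z (n
 0x6ca8862403818080837e827f817f7d7d7e82817f7f80817f837f83807f82847f837d8082827e817d83817c7e807e807f84808183817f810809
 z (n
 0x6c86c864037c827b8481837d847e8581807b7c807f798280827f7b7d807c857d7c7b8382898588888085807e82817a807e78817e8786810809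
 z (n 74 z (n 6632475 z (n 82 z (n 90 z z))))))))))) z)))))) (n 471 (n 0 (n 0 z (n 0 z (n 0 z (n
 123 (n 0 z (n
 0xdaec61b1d8c29bb1801763827a7e838b827f7e817b877c807e80857b7a83807f7c8081817b7a8e7e8c7f887e81738182748782867a7c82767a8a8377870109
 z (n 0 z (n 0 z (n 0 z (n 0 z (n 0 z (n 0 z (n 0 z (n 0 z (n 0 z (n 0 z z)))))))))))) (n 123 (n
 0 z (n 0 z (n 0 z (n 0 z (n 0 z (n 0 z (n 0 z (n 0 z (n 0 z (n 6555435 z (n 2 (n 2 (n 0 z (n 0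
 z (n 0 z (n 0 z (n 0 z (n 0 z z)))))) (n 2 (n 0 z (n 0 z (n 0 z (n 0 z (n 0 z (n 0 z z)))))) (n
 2 (n 0 z (n 0 z (n 0 z (n 0 z (n 0 z (n 0 z z)))))) (n 2 (n 0 z (n 0 z (n 0 z (n 0 z (n 0 z (n
 0 z z)))))) (n 2 (n 0 z (n 0 z (n 0 z (n 0 z (n 0 z (n 0 z z)))))) (n 2 (n 0 z (n 0 z (n 0 z (n
 0 z (n 0 z (n 0 z z)))))) z)))))) (n 0 z z)))))))))))) (n 105 (n
 0x2aea8ca24078a81768a868e78807d775e797b7c7478807a8479868394797891748975819871847f7f867d8384837e7c7783847c847e7d8a0809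
 z (n
 0xdaec61b1d8c29bb1801763827a7e838b827f7e817b877c807e80857b7a83807f7c8081817b7a8e7e8c7f887e81738182748782867a7c82767a8a8377870109
 z (n 0 z (n 0 z (n 0 z (n 0 z (n 0 z (n 0 z (n 0 z (n 0 z (n 0 z (n 0 z (n 0 z (n 0 z (n 0 z (n
 0 z (n 0 z (n 0 z (n 0 z (n 0 z (n 0 z (n 0 z z)))))))))))))))))))))) (n 105 (n 0 z (n 0 z (n 0
 z (n 0 z (n 0 z (n 0 z (n 0 z (n 0 z (n 0 z (n 0 z (n 0 z (n 0 z (n 0 z (n 0 z (n 0 z (n 0 z (n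
 0 z (n 0 z (n 0 z (n 0 z (n 0 z (n 0 z z)))))))))))))))))))))) (n 121 (n 0 z (n 0 z (n 0 z (n 0
 z (n 0 z (n 0 z (n 0 z (n 0 z (n 2 (n 0 z (n 0 z (n 0 z z))) (n 0 z (n 0 z z))))))))))) (n 121
 (n 0 z (n 0 z (n 0 z (n 0 z (n 0 z (n 0 z (n 0 z (n 0 z (n 0 z (n 0 z (n 0 z z))))))))))) (n
 121 (n 0 z (n 0 z (n 0 z (n 0 z (n 0 z (n 0 z (n 0 z (n 0 z (n 0 z (n 0 z (n 0 z z)))))))))))
 (n 121 (n 0 z (n 0 z (n 0 z (n 0 z (n 0 z (n 0 z (n 0 z (n 0 z (n 0 z (n 0 z (n 0 z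
 z))))))))))) z))))))))))) (n 0 (n 0 z (n 0 z (n 759 (n 0 z (n 0 z (n 0 z (n 0 z (n 0 z (n 0 z
 (n 0 z (n 0 z (n 0 z (n 0 z (n 0 z (n 6620987 z z)))))))))))) (n 759 (n 0 z (n 0 z (n 0 z (n 0
 z (n 0 z (n 0 z (n 0 z (n 0 z (n 0 z (n 6620955 z (n 0 z (n 0 z z)))))))))))) (n 111 (n 0 z (n
 6620987 z (n 0 z (n 0 z (n 0 z (n 0 z (n 0 z (n 0 z (n 0 z (n 0 z (n 0 z (n 0 z z))))))))))))
 (n 111 (n 0 z (n 0 z (n 0 z (n 0 z (n 0 z (n 0 z (n 0 z (n 6620955 z (n 0 z (n 0 z (n 0 z (n 0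
 z z)))))))))))) (n 109 (n 0 z (n 0 z (n 0 z (n 0 z (n 0 z (n 0 z (n 0 z (n 0 z (n 0 z (n 0 z (n
 0 z z))))))))))) (n 109 (n 0 z (n 0 z (n 0 z (n 0 z (n 0 z (n 0 z (n 0 z (n 0 z (n 0 z (n 2 (n
 0 z (n 0 z z)) (n 0 z z))))))))))) (n 109 (n 0 z (n 0 z (n 0 z (n 0 z (n 0 z (n 0 z (n 0 z (n 2
 (n 0 z z) (n 0 z (n 0 z (n 0 z z))))))))))) (n 109 (n 0 z (n 0 z (n 0 z (n 0 z (n 0 z (n 0 z (n
 0 z (n 0 z (n 2 z (n 0 z (n 0 z z))))))))))) z)))))))))) (n 0 (n 0 z (n 259 (n 0 z (n 0 z (n 0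
 z (n 0 z (n 0 z (n 0 z (n 0 z (n 0 z (n 0 z (n 0 z (n 0 z (n 0 z (n 0 z (n 0 z (n 0 z (n 0 z (n
 0 z z))))))))))))))))) (n 259 (n 0 z (n 0 z (n 0 z (n 0 z (n 0 z (n 0 z (n 0 z (n 0 z (n 0 z (n
 0 z (n 0 z (n 0 z (n 0 z (n 0 z (n 0 z (n 0 z (n 0 z z))))))))))))))))) (n 51 (n 0 z (n 0 z (n
 0 z (n 0 z (n 0 z (n 0 z (n 0 z (n 0 z (n 0 z (n 0 z (n 0 z (n 0 z (n 0 z z))))))))))))) (n 51
 (n 0 z (n 0 z (n 0 z (n 0 z (n 0 z (n 0 z (n 0 z (n 0 z (n 0 z (n 0 z (n 0 z (n 0 z (n 0 z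
 z))))))))))))) (n 49 (n 0 z (n 0 z (n 0 z (n 0 z (n 0 z (n 0 z (n 0 z (n 0 z z)))))))) (n 49 (n
 0 z (n 0 z (n 0 z (n 0 z (n 0 z (n 0 z (n 0 z (n 0 z z)))))))) (n 49 (n 0 z (n 0 z (n 0 z (n 0
 z (n 0 z (n 0 z (n 0 z (n 0 z z)))))))) (n 49 (n 0 z (n 0 z (n 0 z (n 0 z (n 0 z (n 0 z (n 0 z
 (n 7754307 z z)))))))) z))))))))) (n 0 (n 759 (n 0 z (n 0 z (n 0 z (n 0 z (n 0 z (n 0 z (n 0 z
 (n 0 z (n 0 z (n 0 z (n 0 z (n 0 z (n 0 z (n 0 z (n 0 z (n 0 z (n 0 z z))))))))))))))))) (n 759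
 (n 0 z (n 0 z (n 0 z (n 0 z (n 0 z (n 0 z (n 0 z (n 0 z (n 0 z (n 0 z (n 0 z (n 0 z (n 0 z (n 0
 z (n 0 z (n 0 z (n 0 z z))))))))))))))))) (n 69 (n 0 z (n 0 z (n 0 z (n 0 z (n 0 z (n 0 z (n 0
 z (n 0 z (n 0 z (n 0 z (n 0 z (n 0 z (n 0 z (n 0 z (n 0 z (n 0 z (n 0 z (n 0 z (n 0 z (n 0 z (n
 0 z (n 0 z (n 0 z (n 0 z (n 0 z (n 0 z (n 0 z (n 0 z (n 0 z (n 0 z (n 0 z (n 0 z
 z)))))))))))))))))))))))))))))))) (n 69 (n 0 z (n 0 z (n 0 z (n 0 z (n 0 z (n 0 z (n 0 z (n 0 z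
 (n 0 z (n 0 z (n 0 z (n 0 z (n 0 z (n 0 z (n 0 z (n 0 z (n 0 z (n 0 z (n 0 z (n 0 z (n 0 z (n 0
 z (n 0 z (n 0 z (n 0 z (n 0 z (n 0 z (n 0 z (n 0 z (n 0 z (n 0 z (n 0 z
 z)))))))))))))))))))))))))))))))) (n 61 (n 0 z (n 0 z (n 0 z (n 0 z (n 0 z (n 0 z (n 0 z (n 0 z
 z)))))))) (n 61 (n 0 z (n 0 z (n 0 z (n 0 z (n 0 z (n 0 z (n 0 z (n 0 z z)))))))) (n 61 (n 0 z
 (n 0 z (n 0 z (n 0 z (n 0 z (n 0 z (n 0 z (n 0 z z)))))))) (n 61 (n 0 z (n 0 z (n 0 z (n 0 z (n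
 0 z (n 0 z (n 7754307 z (n 0 z z)))))))) z)))))))) (n 0 (n 0 z (n 15 (n 0 z (n 0 z (n 0 z (n 0
 z (n 0 z (n 0 z (n 0 z (n 0 z (n 0 z (n 0 z z)))))))))) (n 15 (n 0 z (n 0 z (n 0 z (n 0 z (n 0
 z (n 0 z (n 0 z (n 0 z (n 0 z (n 0 z z)))))))))) (n 13 (n 0 z (n 0 z (n 0 z (n 0 z (n 0 z (n 0
 z (n 0 z (n 0 z (n 0 z (n 0 z (n 0 z (n 0 z (n 0 z (n 0 z (n 0 z (n 0 z (n 0 z (n 0 z (n 0 z (n
 0 z (n 0 z (n 0 z (n 0 z (n 0 z (n 0 z (n 0 z (n 0 z (n 0 z (n 0 z (n 0 z (n 0 z (n 0 z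
 z)))))))))))))))))))))))))))))))) (n 13 (n 0 z (n 0 z (n 0 z (n 0 z (n 0 z (n 0 z (n 0 z (n 0 z
 (n 0 z (n 0 z (n 0 z (n 0 z (n 0 z (n 0 z (n 0 z (n 0 z (n 0 z (n 0 z (n 0 z (n 0 z (n 0 z (n 0
 z (n 0 z (n 0 z (n 0 z (n 0 z (n 0 z (n 0 z (n 0 z (n 0 z (n 0 z (n 0 z
 z)))))))))))))))))))))))))))))))) (n 13 (n 0 z (n 0 z (n 0 z (n 0 z (n 0 z (n 0 z (n 0 z (n 0 z
 (n 0 z (n 0 z (n 0 z (n 0 z (n 0 z (n 0 z (n 0 z (n 0 z (n 0 z (n 0 z (n 0 z (n 0 z (n 0 z (n 0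
 z (n 0 z (n 0 z (n 0 z (n 0 z (n 0 z (n 0 z (n 0 z (n 0 z (n 0 z (n 0 z
 z)))))))))))))))))))))))))))))))) (n 13 (n 0 z (n 0 z (n 0 z (n 0 z (n 0 z (n 0 z (n 0 z (n 0 z
 (n 0 z (n 0 z (n 0 z (n 0 z (n 0 z (n 0 z (n 0 z (n 0 z (n 0 z (n 0 z (n 0 z (n 0 z (n 0 z (n 0
 z (n 0 z (n 0 z (n 0 z (n 0 z (n 0 z (n 0 z (n 0 z (n 0 z (n 0 z (n 7754307 z
 z)))))))))))))))))))))))))))))))) z))))))) (n 0 (n 3 (n 0 z (n 0 z (n 0 z (n 0 z (n 0 z (n 0 z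
 (n 0 z (n 0 z (n 0 z (n 0 z (n 0 z z))))))))))) (n 3 (n 0 z (n 0 z (n 0 z (n 0 z (n 0 z (n 0 z
 (n 0 z (n 0 z (n 0 z (n 0 z (n 0 z z))))))))))) (n 1 (n 0 z (n 0 z (n 0 z (n 0 z (n 0 z (n 0 z
 (n 0 z (n 0 z (n 0 z (n 0 z (n 0 z (n 0 z (n 0 z (n 0 z z)))))))))))))) (n 1 (n 0 z (n 0 z (n 0
 z (n 0 z (n 0 z (n 0 z (n 0 z (n 0 z (n 0 z (n 0 z (n 0 z (n 0 z (n 0 z (n 0 z z))))))))))))))
 (n 1 (n 0 z (n 0 z (n 0 z (n 0 z (n 0 z (n 0 z (n 0 z (n 0 z (n 0 z (n 0 z (n 0 z (n 0 z (n 0 z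
 (n 0 z z)))))))))))))) (n 1 (n 0 z (n 0 z (n 0 z (n 0 z (n 0 z (n 0 z (n 0 z (n 0 z (n 0 z (n 0
 z (n 0 z (n 0 z (n 0 z (n 7754307 z z)))))))))))))) z)))))) (n 0 (n 0 z (n 505 (n 0 z (n 0 z (n
 0 z (n 0 z (n 0 z (n 0 z (n 0 z (n 0 z (n 0 z (n 0 z (n 0 z (n 0 z (n 0 z (n 0 z (n 0 z (n 0 z
 (n 0 z (n 0 z (n 0 z (n 0 z (n 0 z (n 0 z (n 0 z (n 0 z (n 0 z (n 0 z (n 0 z (n 0 z (n 0 z (n 0
 z (n 0 z (n 0 z (n 0 z (n 0 z (n 0 z (n 0 z (n 0 z (n 0 z (n 0 z (n 0 z (n 0 z (n 0 z (n 0 z (n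
 0 z (n 0 z (n 0 z z)))))))))))))))))))))))))))))))))))))))))))))) (n 505 (n 0 z (n 0 z (n 0 z
 (n 0 z (n 0 z (n 0 z (n 0 z (n 0 z (n 0 z (n 0 z (n 0 z (n 0 z (n 0 z (n 0 z (n 0 z (n 0 z (n 0
 z (n 0 z (n 0 z (n 0 z (n 0 z (n 0 z (n 0 z (n 0 z (n 0 z (n 0 z (n 0 z (n 0 z (n 0 z (n 0 z (n
 0 z (n 0 z (n 0 z (n 0 z (n 0 z (n 0 z (n 0 z (n 0 z (n 0 z (n 0 z (n 0 z (n 0 z (n 0 z (n 0 z
 (n 0 z (n 0 z z)))))))))))))))))))))))))))))))))))))))))))))) (n 505 (n 0 z (n 0 z (n 0 z (n 0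
 z (n 0 z (n 0 z (n 0 z (n 0 z (n 0 z (n 0 z (n 0 z (n 0 z (n 0 z (n 0 z (n 0 z (n 0 z (n 0 z (n
 0 z (n 0 z (n 0 z (n 0 z (n 0 z (n 0 z (n 0 z (n 0 z (n 0 z (n 0 z (n 0 z (n 0 z (n 0 z (n 0 z
 (n 0 z (n 0 z (n 0 z (n 0 z (n 0 z (n 0 z (n 0 z (n 0 z (n 0 z (n 0 z (n 0 z (n 0 z (n 0 z (n 0
 z (n 0 z z)))))))))))))))))))))))))))))))))))))))))))))) (n 505 (n 0 z (n 0 z (n 0 z (n 0 z (n
 0 z (n 0 z (n 0 z (n 0 z (n 0 z (n 0 z (n 0 z (n 0 z (n 0 z (n 0 z (n 0 z (n 0 z (n 0 z (n 0 z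
 (n 0 z (n 0 z (n 0 z (n 0 z (n 0 z (n 0 z (n 0 z (n 0 z (n 0 z (n 0 z (n 0 z (n 0 z (n 0 z (n 0
 z (n 0 z (n 0 z (n 0 z (n 0 z (n 0 z (n 7669307 z (n 0 z (n 0 z (n 0 z (n 0 z (n 0 z (n 0 z (n
 0 z (n 0 z z)))))))))))))))))))))))))))))))))))))))))))))) z))))) (n 0 (n 157 (n 0 z (n 0 z (n
 0 z (n 0 z (n 0 z (n 0 z (n 0 z (n 0 z (n 0 z (n 0 z (n 0 z (n 0 z (n 0 z (n 0 z (n 0 z (n 0 z
 (n 0 z (n 0 z (n 0 z (n 0 z (n 0 z (n 0 z (n 0 z (n 0 z (n 0 z (n 0 z (n 0 z (n 0 z (n 0 z (n 0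
 z (n 0 z (n 0 z (n 0 z (n 0 z (n 0 z (n 0 z (n 0 z (n 0 z (n
 0xaec8e624037e7e7e8880817d7e818b81827c7a7d7e7c8481887c7a8079738485787b818486818c8d8188877c83797d7f82797e728c877d0809
 z (n 2 (n 0 z (n 0 z (n 0 z z))) (n 0 z (n 0 z (n 0 z (n 0 z (n 0 z (n 0 z (n 0 z
 z))))))))))))))))))))))))))))))))))))))))))))))) (n 157 (n 0 z (n 0 z (n 0 z (n 0 z (n 0 z (n 0
 z (n 0 z (n 0 z (n 0 z (n 0 z (n 0 z (n 0 z (n 0 z (n 0 z (n 0 z (n 0 z (n 0 z (n 0 z (n 0 z (n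
 0 z (n 0 z (n 0 z (n 0 z (n 0 z (n 0 z (n 0 z (n 0 z (n 0 z (n 0 z (n 0 z (n 0 z (n 0 z (n 0 z
 (n 0 z (n 0 z (n 0 z (n 0 z (n 0 z (n 0 z (n 0 z (n 0 z (n 0 z (n 0 z (n 0 z (n 0 z (n 0 z (n 0
 z z))))))))))))))))))))))))))))))))))))))))))))))) (n 157 (n 0 z (n 0 z (n 0 z (n 0 z (n 0 z (n
 0 z (n 0 z (n 0 z (n 0 z (n 0 z (n 0 z (n 0 z (n 0 z (n 0 z (n 0 z (n 0 z (n 0 z (n 0 z (n 0 z
 (n 0 z (n 0 z (n 0 z (n 0 z (n 0 z (n 0 z (n 0 z (n 0 z (n 0 z (n 0 z (n 0 z (n 0 z (n 0 z (n 0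
 z (n 0 z (n 0 z (n 0 z (n 0 z (n 0 z (n 0 z (n 0 z (n 0 z (n 0 z (n 0 z (n 0 z (n 0 z (n 0 z (n
 0 z z))))))))))))))))))))))))))))))))))))))))))))))) (n 157 (n 0 z (n 0 z (n 0 z (n 0 z (n 0 z
 (n 0 z (n 0 z (n 0 z (n 0 z (n 0 z (n 0 z (n 0 z (n 0 z (n 0 z (n 0 z (n 0 z (n 0 z (n 0 z (n 0
 z (n 0 z (n 0 z (n 0 z (n 0 z (n 0 z (n 0 z (n 0 z (n 0 z (n 0 z (n 0 z (n 0 z (n 0 z (n 0 z (n
 0 z (n 0 z (n 0 z (n 0 z (n 0 z (n 7669275 z (n 0 z (n 0 z (n 0 z (n 0 z (n 0 z (n 0 z (n 0 z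
 (n 0 z (n 0 z z))))))))))))))))))))))))))))))))))))))))))))))) z)))) (n 0 (n 0 z (n 0 z (n 0 z
 z))) (n 0 (n 0 z (n 0 z z)) (n 0 (n 0 z z) (n 0 z z)))))))))))) (n 0 (n 1 (n 268 z (n 268 z (n
 268 z (n 268 z (n 268 z (n 268 z z)))))) (n 1 (n 268 z (n 268 z (n 268 z (n 268 z (n 268 z (n
 268 z z)))))) (n 1 (n 3282443 z (n 3282443 z (n 3282443 z (n 3282443 z (n 3282443 z (n 3282443
 z z)))))) (n 1 (n 268 z (n 268 z (n 268 z (n 268 z (n 268 z (n 268 z z)))))) (n 1 (n 268 z (n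
 268 z (n 268 z (n 268 z (n 268 z (n 268 z z)))))) (n 1 (n 268 z (n 268 z (n 268 z (n 268 z (n
 268 z (n 268 z z)))))) (n 1 (n 268 z (n 268 z (n 268 z (n 268 z (n 4392539 z (n 268 z z))))))
 z))))))) (n 0 z z)))) (n 0x125ae8753942aa3a0d95da2a8e40a2718a9c84449ca828db6138eaa234dd0e2 (n 0
 (n 153 (n 0 z (n 0 z (n 0 z (n 0 z (n 0 z (n 6496275 z (n 0 z (n 0 z (n 0 z z))))))))) (n 33 (n
 0 z (n 0 z (n 6496515 z (n 0 z (n 0 z (n 0 z z)))))) (n 9 (n 0 z (n 0 z (n 0 z (n 0 z (n 0 z (n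
 0 z (n 0 z (n 2 z (n 6496515 z (n 6496523 z (n
 0x994d9450060eca4a6280706653650403863292a0980c01909500c0e0eca8c820036b799876708b80987679786c9384837e7f73a73da474997f968779847892798d6f7772af6a94747a7872a583915c67a5af5b3009
 z (n 10 z (n 0 z (n 0 z (n 0 z z))))))))))))))) (n 243 (n 0 z (n 0 z (n 18 z (n 0 z (n 0 z (n
 26 z (n 6496515 z (n 6496523 z (n 0 z (n 0 z (n 0 z (n 0 z (n 0 z z))))))))))))) (n 121 (n 34 z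
 (n 42 z (n 50 z (n
 0xb1621746a8c7c5aa6739e5590969675839d63898499878d796a997b5c66959a825c6c799e879f75739092908e9572608265a588660049
 z (n 58 z (n 0 z (n 6558219 z (n 0 z z)))))))) (n 0 (n 66 z (n
 0x296307d7a837f768a7d88758486867d81887882818682837e7a877f7679868780777b7f8882887c7d84858483867c7881798a82790049
 z (n
 0x96107f7e817e7f8381827c8282827f7f807d8180837e817f7d837f7d808280807e837e8181807f7e828081807f7d7e8381807d820049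
 z (n 74 z (n 0 z (n 82 z (n 0 z (n 90 z (n 0 z (n 0 z (n
 0xb1620746a8c7c5aa6739e5590969675839d63898499878d796a997b5c66959a825c6c799e879f75739092908e9572608265a588660049
 z (n 0 z (n 0 z (n 6624011 z z)))))))))))))) z)))))) (n 33 (n 0 (n 0 z (n 27 (n 0 z (n 0 z (n 0
 z (n 0 z (n 0 z (n 0 z (n 0 z (n 0 z (n 0 z (n 0 z (n 0 z (n 0 z z)))))))))))) (n 27 (n 0 z (n
 0 z (n 0 z (n 0 z (n 0 z (n 0 z (n 0 z (n 0 z (n 0 z (n 0 z (n 0 z (n 0 z z)))))))))))) (n 255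
 (n 7685659 z (n 0 z (n 0 z (n 0 z (n 0 z (n 0 z (n 0 z (n 0 z (n 0 z (n 0 z (n 0 z (n 0 z (n 0
 z (n 0 z (n 0 z (n 0 z (n 0 z z))))))))))))))))) (n 255 (n 0 z (n 0 z (n 0 z (n 0 z (n 0 z (n 0
 z (n 0 z (n 0 z (n 0 z (n 0 z (n 0 z (n 0 z (n 0 z (n 0 z (n 0 z (n 0 z (n 0 z
 z))))))))))))))))) (n 255 (n 0 z (n 0 z (n 0 z (n 0 z (n 0 z (n 0 z (n
 0x1d95d94c0e00ca8ca86037f808180818080808080847e7f7b827e81817f81807e8180817e847f807f807f838181817f7f8080807e7f7f7f807f8080801009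
 z (n 0 z (n 0 z (n 0 z (n 0 z (n 0 z (n 0 z (n 0 z (n 0 z (n 0 z (n 0 z z))))))))))))))))) (n
 255 (n 0 z (n 0 z (n 0 z (n 0 z (n 0 z (n 0 z (n 0 z (n 0 z (n 0 z (n 0 z (n 0 z (n 0 z (n 0 z
 (n 0 z (n 0 z (n 0 z (n 0 z z))))))))))))))))) (n 17 (n 0 z (n 0 z (n 0 z (n 0 z (n 0 z (n 0 z
 (n 0 z (n 0 z (n 0 z (n 0 z (n 0 z (n 0 z (n 0 z (n 0 z (n 7685659 z (n 0 z (n 0 z (n 0 z (n 0
 z (n 0 z (n 0 z (n 0 z (n 0 z (n 0 z (n 0 z (n 0 z (n 0 z (n 0 z (n 0 z (n 0 z (n 0 z (n 0 z (n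
 0 z (n 0 z (n 0 z z))))))))))))))))))))))))))))))))))) (n 17 (n 0 z (n 0 z (n 0 z (n 0 z (n 0 z
 (n 0 z (n 0 z (n 0 z (n 0 z (n 0 z (n 0 z (n 0 z (n 0 z (n 0 z (n 0 z (n 0 z (n 0 z (n 0 z (n 0
 z (n 0 z (n 0 z (n 0 z (n 0 z (n 0 z (n 0 z (n 0 z (n 0 z (n 0 z (n 0 z (n 0 z (n 0 z (n 0 z (n
 0 z (n 0 z (n 0 z z))))))))))))))))))))))))))))))))))) (n 17 (n 0 z (n 0 z (n 0 z (n 0 z (n 0 z
 (n 0 z (n 0 z (n 0 z (n 0 z (n 0 z (n 0 z (n 0 z (n 0 z (n 0 z (n 0 z (n 0 z (n 0 z (n 0 z (n 0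
 z (n 0 z (n 0 z (n 0 z (n 0 z (n 0 z (n 0 z (n 0 z (n 0 z (n 0 z (n 0 z (n 0 z (n 0 z (n 0 z (n
 0 z (n 0 z (n 0 z z))))))))))))))))))))))))))))))))))) (n 17 (n 0 z (n 0 z (n 0 z (n 0 z (n 0 z
 (n 0 z (n 0 z (n 0 z (n 0 z (n 0 z (n 0 z (n 0 z (n 0 z (n 0 z (n 0 z (n 0 z (n 0 z (n 0 z (n 0
 z (n 0 z (n 0 z (n 0 z (n 0 z (n 0 z (n 0 z (n 0 z (n 0 z (n 0 z (n 0 z (n
 0x3b1bb0201c0dd91d90c0606ca8ca8007837e7a7a877f817d847e84877f7b817b847d847e7c7e7982847786837f7e83887e838275817a838183807f7e848487787b811809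
 z (n 0 z (n 0 z (n 0 z (n 0 z (n 0 z z))))))))))))))))))))))))))))))))))) z))))))))))) (n 0 (n
 27 (n 0 z (n 0 z (n 0 z (n 0 z (n 0 z (n 0 z z)))))) (n 27 (n 0 z (n 0 z (n 0 z (n 0 z (n 0 z
 (n 0 z z)))))) (n 15 (n 7685643 z (n 0 z (n 0 z (n 0 z (n 0 z (n 0 z (n 0 z (n 0 z (n 0 z (n 0
 z (n 0 z (n 0 z (n 0 z (n 0 z (n 0 z (n 0 z (n 0 z (n 0 z (n 0 z (n 0 z (n 0 z (n 0 z
 z)))))))))))))))))))))) (n 15 (n 0 z (n 0 z (n 0 z (n 0 z (n 0 z (n 0 z (n 0 z (n 0 z (n 0 z (n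
 0 z (n 0 z (n 0 z (n 0 z (n 0 z (n 0 z (n 0 z (n 0 z (n 0 z (n 0 z (n 0 z (n 0 z (n 0 z
 z)))))))))))))))))))))) (n 15 (n 0 z (n 0 z (n 0 z (n 0 z (n 0 z (n 0 z (n 0 z (n 0 z (n 0 z (n
 0 z (n 0 z (n 0 z (n 0 z (n 2 (n 0 z (n 2 (n 0 z (n 0 z (n 0 z (n 0 z (n 0 z (n 0 z z)))))) (n
 2 (n 0 z (n 0 z (n 0 z (n 0 z (n 0 z (n 0 z z)))))) (n 2 (n 0 z (n 0 z (n 0 z (n 0 z (n 0 z (n
 0 z z)))))) (n 2 (n 0 z (n 0 z (n 0 z (n 0 z (n 0 z (n 0 z z)))))) z))))) (n 0 z (n 0 z (n 0 z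
 (n 0 z (n 0 z (n 0 z (n 0 z (n 0 z z)))))))))))))))))))))) (n 15 (n 0 z (n 0 z (n 0 z (n 0 z (n
 0 z (n 0 z (n 0 z (n 0 z (n 0 z (n 0 z (n 0 z (n 0 z (n 0 z (n 0 z (n 0 z (n 0 z (n 0 z (n 0 z
 (n 0 z (n 0 z (n 0 z (n 0 z z)))))))))))))))))))))) (n 17 (n 0 z (n 0 z (n 0 z (n 7685643 z (n
 0 z (n 0 z (n 0 z (n 0 z (n 0 z (n 0 z (n 0 z (n 0 z (n 0 z z))))))))))))) (n 17 (n 0 z (n 0 z
 (n 0 z (n 0 z (n 0 z (n 0 z (n 0 z (n 0 z (n 0 z (n 0 z (n 0 z (n 0 z (n 0 z z))))))))))))) (n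
 17 (n 0 z (n 0 z (n 0 z (n 0 z (n 0 z (n 0 z (n 0 z (n 0 z (n 0 z (n 0 z (n 0 z (n 0 z (n 0 z
 z))))))))))))) (n 17 (n 0 z (n 0 z (n 0 z (n 0 z (n 0 z (n 0 z (n 0 z (n 0 z (n 0 z (n 0 z (n 0
 z (n 0 z (n 0 z z))))))))))))) z)))))))))) (n 0 (n 0 z (n 531 (n 0 z (n 7750435 z (n 0 z (n 0 z
 (n 0 z (n 0 z (n 0 z (n 0 z (n 0 z (n 0 z (n 0 z (n 0 z (n 0 z (n 0 z (n 0 z (n 0 z (n 0 z (n 0
 z (n 0 z (n 0 z (n 0 z (n 0 z (n 0 z (n 0 z (n 0 z (n 0 z (n 0 z (n 0 z (n 0 z (n 0 z (n 0 z (n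
 0 z (n 0 z (n 0 z (n 0 z z))))))))))))))))))))))))))))))))))) (n 531 (n 0 z (n 0 z (n 0 z (n 0
 z (n 0 z (n 0 z (n 0 z (n 0 z (n 0 z (n 0 z (n 0 z (n 0 z (n 0 z (n 0 z (n 0 z (n 0 z (n 0 z (n
 0 z (n 0 z (n 0 z (n 0 z (n 0 z (n 0 z (n 0 z (n 0 z (n 0 z (n 0 z (n 0 z (n 0 z (n 0 z (n 0 z
 (n 0 z (n 0 z (n 0 z (n 0 z z))))))))))))))))))))))))))))))))))) (n 531 (n 0 z (n 0 z (n 0 z (n
 0 z (n 0 z (n 0 z (n 0 z (n 0 z (n 0 z (n 0 z (n 0 z (n 0 z (n 0 z (n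
 0x19d95d9440e08ca8ca82037c7d898774807f8d7f8183658a779b7f758b7d87807d7c7d7e6a8b747d7b7d747f8b828f837b7a8783747d7a758a828178871009
 z (n 0 z (n 0 z (n 0 z (n 0 z (n 0 z (n 0 z (n 0 z (n 0 z (n 0 z (n 0 z (n 0 z (n 0 z (n 0 z (n
 0 z (n 0 z (n 0 z (n 0 z (n 0 z (n 0 z (n 0 z (n 0 z z))))))))))))))))))))))))))))))))))) (n
 531 (n 0 z (n 0 z (n 0 z (n 0 z (n 0 z (n 0 z (n 0 z (n 0 z (n 0 z (n 0 z (n 0 z (n 0 z (n 0 z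
 (n 0 z (n 0 z (n 0 z (n 0 z (n 0 z (n 0 z (n 0 z (n 0 z (n 0 z (n 0 z (n 0 z (n 0 z (n 0 z (n 0
 z (n 0 z (n 0 z (n 0 z (n 0 z (n 0 z (n 0 z (n 0 z (n 0 z z)))))))))))))))))))))))))))))))))))
 (n 485 (n 0 z (n 0 z (n 0 z (n 0 z (n 0 z (n 0 z (n 0 z (n 0 z (n 0 z (n 0 z (n 0 z (n 0 z (n 0
 z (n 0 z (n 0 z (n 0 z (n 7685659 z (n 0 z (n 0 z (n 0 z (n 0 z (n 0 z (n 0 z (n 0 z (n 0 z (n
 0 z (n 0 z (n 0 z z)))))))))))))))))))))))))))) (n 485 (n 0 z (n 0 z (n 0 z (n 0 z (n 0 z (n 0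
 z (n 0 z (n 0 z (n 0 z (n 0 z (n 0 z (n 0 z (n 0 z (n 0 z (n 0 z (n 0 z (n 0 z (n 0 z (n 0 z (n
 0 z (n 0 z (n 0 z (n 0 z (n 0 z (n 0 z (n 0 z (n 0 z (n 0 z z)))))))))))))))))))))))))))) (n
 485 (n 0 z (n 0 z (n 0 z (n 0 z (n 0 z (n 0 z (n 0 z (n 0 z (n 0 z (n 0 z (n 0 z (n 0 z (n 0 z
 (n 0 z (n 0 z (n 0 z (n 0 z (n 0 z (n 0 z (n 0 z (n 0 z (n 0 z (n 0 z (n 0 z (n 0 z (n 0 z (n 0
 z (n 0 z z)))))))))))))))))))))))))))) (n 485 (n 0 z (n 0 z (n 0 z (n 0 z (n 0 z (n 0 z (n 0 z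
 (n 0 z (n 0 z (n 0 z (n 0 z (n 0 z (n 0 z (n 0 z (n 0 z (n 0 z (n 0 z (n 0 z (n 0 z (n 0 z (n 0
 z (n 0 z (n 0 z (n 0 z (n 0 z (n 0 z (n 0 z (n
 0x13b23b2080c0995195040e00ec8ec800380827f7f817e817d837e817f7e81808181817f807e81807f8080817e817e818080827f7f827f7f8180808080807f808080801809
 z z)))))))))))))))))))))))))))) z))))))))) (n 0 (n 483 (n 7750435 z (n 0 z (n 0 z (n 0 z (n 0 z
 (n 0 z (n 0 z (n 0 z (n 0 z z))))))))) (n 483 (n 0 z (n 0 z (n 0 z (n 0 z (n 0 z (n 0 z (n 0 z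
 (n 0 z (n 0 z z))))))))) (n 483 (n 0 z (n 0 z (n 0 z (n 0 z (n 0 z (n 0 z (n 0 z (n 0 z (n 0 z
 z))))))))) (n 483 (n 0 z (n 0 z (n 0 z (n 0 z (n 0 z (n 0 z (n 0 z (n 0 z (n 0 z z))))))))) (n
 485 (n 0 z (n 0 z (n 0 z (n 0 z (n 0 z (n 0 z (n 0 z (n 0 z (n 0 z (n 0 z (n 7685643 z (n 0 z
 (n 0 z (n 0 z (n 0 z (n 0 z (n 0 z (n 0 z (n 0 z (n 0 z (n 0 z (n 0 z (n 0 z (n 0 z (n 0 z (n 0
 z z)))))))))))))))))))))))))) (n 485 (n 0 z (n 0 z (n 0 z (n 0 z (n 0 z (n 0 z (n 0 z (n 0 z (n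
 0 z (n 0 z (n 0 z (n 0 z (n 0 z (n 0 z (n 0 z (n 0 z (n 0 z (n 0 z (n 0 z (n 0 z (n 0 z (n 0 z
 (n 0 z (n 0 z (n 0 z (n 0 z z)))))))))))))))))))))))))) (n 485 (n 0 z (n 0 z (n 0 z (n 0 z (n 0
 z (n 0 z (n 0 z (n 0 z (n 0 z (n 0 z (n 0 z (n 0 z (n 0 z (n 0 z (n 0 z (n 0 z (n 0 z (n 0 z (n
 0 z (n 0 z (n 0 z (n 0 z (n 0 z (n 0 z (n 0 z (n 0 z z)))))))))))))))))))))))))) (n 485 (n 0 z
 (n 0 z (n 0 z (n 0 z (n 0 z (n 0 z (n 0 z (n 0 z (n 0 z (n 0 z (n 0 z (n 0 z (n 0 z (n 0 z (n 0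
 z (n 0 z (n 0 z (n 0 z (n 0 z (n 0 z (n 0 z (n 0 z (n 0 z (n 0 z (n 0 z (n 2 z
 z)))))))))))))))))))))))))) z)))))))) (n 0 (n 0 z (n 0 z (n 0 z (n 241 (n 0 z (n 0 z (n 0 z (n
 0 z (n 0 z (n 0 z (n 0 z (n 0 z (n 0 z (n 0 z (n 0 z (n 0 z (n 0 z (n 2 (n 0 z (n 0 z (n 0 z
 z))) z)))))))))))))) (n 241 (n 0 z (n 0 z (n 0 z (n 0 z (n 0 z (n 7750435 z (n 0 z (n 0 z (n 0
 z (n 0 z (n 0 z (n 0 z (n 0 z (n 0 z z)))))))))))))) (n 241 (n 0 z (n 0 z (n 0 z (n 7750435 z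
 (n 0 z (n 0 z (n 0 z (n 0 z (n 0 z (n 0 z (n 0 z (n 0 z (n 0 z (n 0 z z)))))))))))))) (n 241 (n
 0 z (n 0 z (n 0 z (n 0 z (n 0 z (n 0 z (n 0 z (n 0 z (n 0 z (n 0 z (n 0 z (n 0 z (n 0 z (n 0 z
 z)))))))))))))) z))))))) (n 0 (n 0 z (n 0 z (n 241 (n 0 z (n 0 z (n 0 z (n 0 z (n 0 z (n 0 z (n
 2 (n 0 z (n 0 z (n 0 z z))) (n 0 z (n 0 z (n 0 z z)))))))))) (n 241 (n 0 z (n 0 z (n 0 z (n 0 z
 (n 0 z (n 0 z (n 0 z (n 0 z (n 0 z (n 0 z z)))))))))) (n 241 (n 0 z (n 0 z (n 0 z (n 0 z (n 0 z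
 (n 0 z (n 0 z (n 0 z (n 0 z (n 0 z z)))))))))) (n 241 (n 0 z (n 0 z (n 0 z (n 0 z (n 0 z (n 0 z
 (n 0 z (n 0 z (n 0 z (n 0 z z)))))))))) z)))))) (n 0 (n 0 z (n 253 (n 0 z (n 0 z (n 0 z (n 0 z
 (n 0 z (n 0 z (n 0 z (n 0 z (n 0 z (n 0 z (n 0 z (n 0 z (n 0 z (n 0 z z)))))))))))))) (n 253 (n
 0 z (n 0 z (n 0 z (n 0 z (n 0 z (n 0 z (n 0 z (n 0 z (n 0 z (n 0 z (n 0 z (n 0 z (n 0 z (n 0 z
 z)))))))))))))) (n 253 (n 0 z (n 0 z (n 0 z (n 0 z (n 0 z (n 0 z (n 0 z (n 0 z (n 0 z (n 0 z (n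
 0 z (n 0 z (n 0 z (n 0 z z)))))))))))))) (n 253 (n 0 z (n 0 z (n 0 z (n 0 z (n 0 z (n 0 z (n 0
 z (n 0 z (n 0 z (n 0 z (n 0 z (n 0 z (n 0 z (n 2 z z)))))))))))))) z))))) (n 0 (n 1 (n 0 z (n 0
 z (n 0 z (n 2 (n 0 z (n 0 z (n 0 z z))) (n 0 z (n 0 z (n 0 z (n 0 z (n 0 z (n 0 z z))))))))))
 (n 1 (n 0 z (n 0 z (n 0 z (n 0 z (n 0 z (n 0 z (n 0 z (n 0 z (n 0 z (n 0 z z)))))))))) (n 1 (n
 0 z (n 0 z (n 0 z (n 0 z (n 0 z (n 0 z (n 0 z (n 0 z (n 0 z (n 0 z z)))))))))) (n 1 (n 0 z (n 0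
 z (n 0 z (n 0 z (n 0 z (n 0 z (n 0 z (n 0 z (n 0 z (n 0 z z)))))))))) z)))) (n 0 (n 0 z (n 0 z
 (n 0 z z))) (n 0 (n 0 z (n 0 z z)) (n 0 (n 0 z z) (n 0 z z)))))))))))) (n 0 (n 0 z (n 0 z (n 1
 (n 6496515 z (n 6496515 z (n 6496515 z (n 6496515 z (n 6496515 z (n 6496515 z z)))))) (n 0 z (n
 0 z (n 0 z z)))))) (n 0 z z)))) (n
 0xb63545859a2b31d12d72d10b3186639682cbb60653ac46ad8412eb219b6160426301d6600a12c0 (n 0x2d859 (n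
 393 (n 2 z (n 10 z (n 18 z (n
 0x2a42ca080781807f81807e808180807f81818080808280808180807e8180808081808080818181808080808080808280807f7f808080800809
 z (n 26 z (n 0 z (n 3282443 z (n 0 z z)))))))) (n 249 (n 0 z (n 0 z (n 0 z (n 34 z (n 0 z (n 0
 z (n 6562099 z (n 42 z (n 0 z (n 0 z (n 0 z z))))))))))) (n 129 (n 50 z (n 6562587 z (n 6566419
 z (n 58 z z)))) (n 3 (n 0 z (n 0 z (n 6566419 z (n 0 z (n 66 z (n 0 z (n 0 z z))))))) (n 25 (n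
 74 z (n 0 z (n 0 z (n 6566419 z (n 82 z (n 6562587 z z)))))) (n 0 (n 0 z (n 0 z (n 0 z (n
 0x2ca886400781807f818080808181807f7f80807f7f8180817f8081808080817f80807f80818081817f80818080808080807f7f818180800809
 z (n 90 z (n
 0x12c84c8400782838882797d7c7f7f7a7c82867e817c848281847f7d8d7f83847e7f7a7e807a8c8881878a7680807f7f7884817c9286798e0809
 z (n 98 z (n 6632475 z (n 106 z (n 114 z (n
 0x24c8594100606c86c8600783807a8489827f827c887f7d7e827d7f7f7f8489827c858079847a7c827d847c888782837c88837d77727b847c7f778c847e1009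
 z (n
 0xa642ca0803827f8189817e7f7b8482817e7681788781837a847f787c7b7e8b847d7a7c85887982837b897c7a837f8083837c7c838282850809
 z (n
 0xcc8594100e00ca886400783827e827b817e82807f7d8081817e8182807d81807e7f7f80847f817a7e828281818381817d7d837e817f7c7e7e848080831009
 z (n
 0x65441020382321321081c059510c800e0eca86420077c8386818282827c8099827f8183847f7f7f7b7980848083737289868e867e808474917a7e947e7c8485827f817d5e75896c2009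
 z z)))))))))))))) z)))))) (n 129 (n 0 (n 0 z (n 0 z (n 0 z (n 119 (n 0 z (n 0 z (n 0 z (n 0 z
 (n 0 z (n 0 z (n 0 z (n 0 z (n 0 z (n 6620987 z (n 0 z (n 0 z (n 0 z (n 0 z z)))))))))))))) (n
 119 (n 0 z (n 0 z (n 0 z (n 0 z (n 0 z (n 0 z (n 0 z (n 0 z (n 0 z (n 0 z (n 6620955 z (n 0 z
 (n 0 z (n 0 z z)))))))))))))) (n 727 (n 0 z (n 0 z (n 0 z (n 6620987 z (n 0 z (n 0 z (n 0 z (n
 0 z (n 0 z (n 0 z (n 0 z (n 0 z z)))))))))))) (n 727 (n 0 z (n 0 z (n 0 z (n 0 z (n 0 z (n 0 z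
 (n 0 z (n 0 z (n 6620955 z (n 0 z (n 0 z (n 0 z z)))))))))))) (n 491 (n 0 z (n 0 z (n 0 z (n 0
 z (n 0 z (n 0 z (n 0 z (n 0 z (n 0 z (n 0 z (n 6620955 z (n 0 z (n 0 z (n 0 z z))))))))))))))
 (n 117 (n 0 z (n 0 z (n 0 z (n 0 z (n 0 z (n 0 z (n 0 z (n 0 z (n 6620987 z (n 0 z (n 0 z (n 0
 z (n 0 z (n 0 z z)))))))))))))) (n 117 (n 0 z (n 0 z (n 0 z (n 0 z (n 6620955 z (n 0 z (n 0 z
 (n 0 z (n 0 z (n 0 z (n 0 z (n 0 z (n 0 z (n 0 z z)))))))))))))) (n 109 (n 0 z (n 0 z (n 0 z (n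
 0 z (n 0 z (n 0 z (n 0 z (n 0 z (n 0 z (n 0 z (n 0 z (n 0 z (n 0 z (n 0 z z)))))))))))))) (n
 109 (n 0 z (n 0 z (n 0 z (n 0 z (n 0 z (n 0 z (n 0 z (n 0 z (n 2 (n 0 z (n 0 z z)) (n 0 z (n 0
 z (n 0 z (n 0 z (n 0 z z)))))))))))))) (n 109 (n 0 z (n 0 z (n 0 z (n 0 z (n 0 z (n 0 z (n 2 (n
 0 z z) (n 0 z (n 0 z (n 0 z (n 0 z (n 0 z (n 0 z (n 0 z z)))))))))))))) (n 109 (n 0 z (n 0 z (n
 0 z (n 0 z (n 0 z (n 0 z (n 0 z (n 2 z (n 0 z (n 0 z (n 0 z (n 0 z (n 0 z (n 0 z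
 z)))))))))))))) z)))))))))))))) (n 0 (n 0 z (n 0 z (n 503 (n 0 z (n 0 z (n 0 z (n 0 z (n 0 z (n
 0 z (n 0 z (n 0 z (n 0 z z))))))))) (n 503 (n 0 z (n 0 z (n 0 z (n 0 z (n 2 (n 2 (n 0 z (n 0 z
 (n 0 z (n 0 z (n 0 z (n 0 z z)))))) (n 2 (n 0 z (n 0 z (n 0 z (n 0 z (n 0 z (n 0 z z)))))) (n 2
 (n 0 z (n 0 z (n 0 z (n 0 z (n 0 z (n 0 z z)))))) (n 2 (n 0 z (n 0 z (n 0 z (n 0 z (n 0 z (n 0
 z z)))))) (n 2 (n 0 z (n 0 z (n 0 z (n 0 z (n 0 z (n 0 z z)))))) (n 2 (n 0 z (n 0 z (n 0 z (n 0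
 z (n 0 z (n 0 z z)))))) (n 2 (n 0 z (n 0 z (n 0 z (n 0 z (n 0 z (n 0 z z)))))) (n 2 (n 0 z (n 0
 z (n 0 z (n 0 z (n 0 z (n 0 z z)))))) (n 2 (n 0 z (n 0 z (n 0 z (n 0 z (n 0 z (n 0 z z))))))
 z))))))))) (n 0 z (n 0 z (n 0 z (n 0 z z))))))))) (n 795 (n 0 z (n 0 z (n 0 z (n 0 z (n 0 z (n
 0 z (n 0 z (n 0 z (n 0 z (n 0 z (n 0 z z))))))))))) (n 795 (n 0 z (n 0 z (n 0 z (n 0 z (n 0 z
 (n 0 z (n 0 z (n 0 z (n 0 z (n 0 z (n 0 z z))))))))))) (n 491 (n 0 z (n 0 z (n 0 z (n 0 z (n 2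
 (n 2 (n 0 z (n 0 z (n 0 z (n 0 z (n 0 z (n 0 z z)))))) (n 2 (n 0 z (n 0 z (n 0 z (n 0 z (n 0 z
 (n 0 z z)))))) (n 2 (n 0 z (n 0 z (n 0 z (n 0 z (n 0 z (n 0 z z)))))) (n 2 (n 0 z (n 0 z (n 0 z
 (n 0 z (n 0 z (n 0 z z)))))) (n 2 (n 0 z (n 0 z (n 0 z (n 0 z (n 0 z (n 0 z z)))))) (n 2 (n 0 z
 (n 0 z (n 0 z (n 0 z (n 0 z (n 0 z z)))))) z)))))) (n 0 z (n 0 z (n 0 z z)))))))) (n 495 (n 0 z
 (n 0 z (n 0 z (n 0 z (n 0 z (n 0 z (n 0 z (n 0 z (n 0 z (n 0 z (n 0 z (n 0 z (n 0 z (n 0 z (n 0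
 z (n 0 z (n 0 z (n 0 z (n 0 z (n 0 z (n 0 z (n 0 z (n 0 z (n 0 z (n 0 z (n 0 z (n 0 z (n 0 z
 z)))))))))))))))))))))))))))) (n 495 (n 0 z (n 0 z (n 0 z (n 0 z (n 0 z (n 0 z (n 0 z (n 0 z (n
 0 z (n 0 z (n 0 z (n 0 z (n 0 z (n 0 z (n 0 z (n 0 z (n 0 z (n 0 z (n 0 z (n 0 z (n 0 z (n 0 z
 (n 0 z (n 0 z (n 0 z (n 0 z (n 0 z (n 0 z z)))))))))))))))))))))))))))) (n 493 (n 0 z (n 0 z (n
 0 z (n 0 z (n 0 z (n 0 z (n 0 z (n 0 z (n 0 z (n 0 z (n 0 z (n 0 z z)))))))))))) (n 493 (n 0 z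
 (n 0 z (n 0 z (n 0 z (n 0 z (n 0 z (n 0 z (n 0 z (n 0 z (n 0 z (n 0 z (n 0 z z)))))))))))) (n
 493 (n 0 z (n 0 z (n 0 z (n 0 z (n 0 z (n 0 z (n 0 z (n 0 z (n 0 z (n 0 z (n 0 z (n 0 z
 z)))))))))))) (n 493 (n 0 z (n 0 z (n 0 z (n 0 z (n 0 z (n 0 z (n 0 z (n 2 z (n 0 z (n 0 z (n 0
 z (n 0 z z)))))))))))) z))))))))))))) (n 0 (n 0 z (n 127 (n 0 z (n 0 z (n 0 z (n 0 z (n 0 z
 z))))) (n 127 (n 0 z (n 0 z (n 0 z (n 0 z (n 0 z z))))) (n 123 (n 0 z (n 0 z (n 0 z (n 0 z (n 0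
 z (n 0 z (n 0 z (n 0 z (n 0 z (n 0 z (n 0 z (n 0 z (n 0 z (n 0 z (n 0 z z))))))))))))))) (n 123
 (n 0 z (n 0 z (n 0 z (n 0 z (n 0 z (n 0 z (n
 0x1d91d8540604ea4ca0803808080808080808080807f808080807f818080808080808080808080808080808080808080808080818080808080808080801009
 z (n 2 (n 2 (n 0 z (n 0 z (n 0 z (n 0 z (n 0 z (n 0 z z)))))) (n 2 (n 0 z (n 0 z (n 0 (n
 6631555 z z) (n 0 (n 2892 z z) (n 0 z (n 0 (n 7680131 z (n 8718107 z z)) z)))))) (n 2 (n 0 z (n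
 0 z (n 0 z (n 0 z (n 0 z (n 0 z z)))))) (n 2 (n 0 z (n 0 z (n 0 z (n 0 z (n 0 z (n 0 z z))))))
 (n 2 (n 0 z (n 0 z (n 0 z (n 0 z (n 0 z (n 0 z z)))))) (n 2 (n 0 z (n 0 z (n 0 z (n 0 z (n 0 z
 (n 0 z z)))))) (n 2 (n 0 z (n 0 z (n 0 z (n 0 z (n 0 z (n 0 z z)))))) z))))))) (n 0 z (n 0 z (n
 0 z (n 0 z (n 0 z (n 0 z (n 0 z z))))))))))))))) (n 963 (n 0 z (n 0 z (n 0 z (n 0 z (n 0 z (n 0
 z (n 0 z z))))))) (n 723 (n 0 z (n 0 z (n 0 z (n 0 z (n 0 z (n 0 z (n 0 z (n 0 z (n 0 z (n 0 z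
 (n 0 z (n 0 z (n 0 z (n 0 z (n 0 z (n 0 z (n 0 z (n 0 z (n 0 z (n 0 z (n 0 z (n 0 z (n 0 z (n 0
 z (n 0 z z))))))))))))))))))))))))) (n 723 (n 0 z (n 0 z (n 0 z (n 0 z (n 0 z (n 0 z (n 0 z (n
 0 z (n 0 z (n 0 z (n 0 z (n 0 z (n 0 z (n 0 z (n 0 z (n 0 z (n 0 z (n 0 z (n 0 z (n 0 z (n 0 z
 (n 0 z (n 0 z (n 0 z (n 0 z z))))))))))))))))))))))))) (n 121 (n 0 z (n 0 z (n 0 z (n 0 z (n 0
 z (n 0 z (n 0 z (n 2 (n 0 z (n 0 z (n 0 z z))) (n 0 z (n 0 z (n 0 z (n 0 z (n 0 z (n 0 z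
 z)))))))))))))) (n 121 (n 0 z (n 0 z (n 0 z (n 0 z (n 0 z (n 0 z (n 0 z (n 0 z (n 0 z (n 0 z (n
 0 z (n 0 z (n 0 z (n 0 z z)))))))))))))) (n 121 (n 0 z (n 0 z (n 0 z (n 0 z (n 0 z (n 0 z (n 0
 z (n 0 z (n 0 z (n 0 z (n 0 z (n 0 z (n 0 z (n 0 z z)))))))))))))) (n 121 (n 0 z (n 0 z (n 0 z
 (n 0 z (n 0 z (n 0 z (n 0 z (n 0 z (n 0 z (n 0 z (n 0 z (n 0 z (n 0 z (n 0 z z))))))))))))))
 z)))))))))))) (n 0 (n 499 (n 0 z (n 0 z (n 2 (n 0 z (n 1 z (n 2 (n 0 z (n 0 z (n 0 z (n 0 z (n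
 0 z (n 0 z z)))))) (n 2 (n 0 z (n 0 z (n 0 z (n 0 z (n 0 z (n 0 z z)))))) (n 1 z (n 2 (n 0 z (n
 0 z (n 0 z (n 0 z (n 0 z (n 0 z z)))))) (n 2 (n 0 z (n 0 z (n 0 z (n 0 z (n 0 z (n 0 z z))))))
 (n 2 (n 0 z (n 0 z (n 0 z (n 0 z (n 0 z (n 0 z z)))))) (n 2 (n 0 z (n 0 z (n 0 z (n 0 z (n 0 z
 (n 0 z z)))))) (n 2 (n 0 z (n 0 z (n 0 z (n 0 z (n 0 z (n 0 z z)))))) z)))))))))) (n 0 z (n 0 z
 (n 0 z z)))))) (n 499 (n 0 z (n 0 z (n 0 z (n 0 z (n 0 z (n 0 z z)))))) (n 363 (n 0 z (n 0 z (n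
 0 z (n 0 z (n 0 z (n 0 z (n 0 z (n 0 z (n 0 z (n 0 z (n 0 z (n 0 z (n 0 z z))))))))))))) (n 363
 (n 0 z (n 0 z (n 0 z (n 0 z (n 0 z (n 0 z (n 0 z (n 0 z (n 0 z (n 0 z (n 0 z (n 0 z (n 0 z
 z))))))))))))) (n 487 (n 0 z (n 0 z (n 0 z (n 0 z (n 0 z (n 0 z (n 0 z (n 0 z (n 0 z (n 0 z (n
 0 z z))))))))))) (n 483 (n 0 z (n 0 z (n 0 z (n 0 z (n 0 z (n 0 z (n 0 z (n 0 z (n 0 z (n 0 z
 (n 0 z z))))))))))) (n 483 (n 0 z (n 0 z (n 0 z (n 0 z (n 0 z (n 0 z (n 0 z (n 0 z (n 0 z (n 0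
 z (n 0 z z))))))))))) (n 481 (n 0 z (n 0 z (n 0 z (n 0 z (n 0 z (n 0 z (n 0 z (n 0 z (n 0 z (n
 0 z (n 0 z (n 0 z z)))))))))))) (n 481 (n 0 z (n 0 z (n 0 z (n 0 z (n 0 z (n 0 z (n 0 z (n 0 z
 (n 0 z (n 0 z (n 0 z (n 0 z z)))))))))))) (n 481 (n 0 z (n 0 z (n 0 z (n 0 z (n 0 z (n 0 z (n 0
 z (n 0 z (n 0 z (n 0 z (n 0 z (n 0 z z)))))))))))) (n 481 (n 0 z (n 0 z (n 0 z (n 0 z (n 0 z (n
 0 z (n 0 z (n 0 z (n 2 z (n 0 z (n 0 z (n 0 z z)))))))))))) z))))))))))) (n 0 (n 0 z (n 867 (n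
 0 z (n 0 z (n 0 z (n 0 z (n 0 z (n 0 z z)))))) (n 867 (n 0 z (n 0 z (n 0 z (n 2 (n 2 (n 0 z (n
 0 z (n 0 z (n 0 z (n 0 z (n 0 z z)))))) (n 1 z (n 2 (n 0 z (n 0 z (n 0 z (n 0 z (n 0 z (n 0 z
 z)))))) (n 2 (n 0 z (n 0 z (n 0 z (n 0 z (n 0 z (n 0 z z)))))) (n 2 (n 0 z (n 0 z (n 0 z (n 0 z
 (n 0 z (n 0 z z)))))) (n 2 (n 0 z (n 0 z (n 0 z (n 0 z (n 0 z (n 0 z z)))))) (n 2 (n 0 z (n 0 z
 (n 0 z (n 0 z (n 0 z (n 0 z z)))))) z))))))) (n 0 z (n 0 z z)))))) (n 539 (n 0 z (n 0 z (n 0 z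
 (n 0 z (n 0 z (n 0 z (n 0 z z))))))) (n 531 (n 0 z (n 0 z (n 0 z (n 0 z (n 0 z (n 0 z (n 0 z (n
 0 z (n 0 z (n 0 z (n 0 z z))))))))))) (n 531 (n 0 z (n 0 z (n 0 z (n 0 z (n 2 (n 2 (n 0 z (n 0
 z (n 0 z (n 0 z (n 0 z (n 0 z z)))))) (n 2 (n 0 z (n 0 z (n 0 z (n 0 z (n 0 z (n 0 z z)))))) (n
 2 (n 0 z (n 0 z (n 0 z (n 0 z (n 0 z (n 0 z z)))))) (n 2 (n 0 z (n 0 z (n 0 z (n 0 z (n 0 z (n
 0 z z)))))) z)))) (n 0 z (n 0 z (n 0 z (n 0 z (n 0 z (n 0 z z))))))))))) (n 481 (n 0 z (n 0 z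
 (n 0 z (n 0 z (n 0 z (n 0 z (n 0 z (n 0 z (n 0 z z))))))))) (n 481 (n 0 z (n 0 z (n 0 z (n 0 z
 (n 0 z (n 0 z (n 0 z (n 0 z (n 0 z z))))))))) (n 481 (n 0 z (n 0 z (n 0 z (n 2 (n 0 z z) (n 0 z
 (n 0 z (n 0 z (n 0 z (n 0 z z))))))))) (n 481 (n 0 z (n 0 z (n 0 z (n 0 z (n 0 z (n 7669307 z
 (n 0 z (n 0 z (n 0 z z))))))))) z)))))))))) (n 0 (n 19 (n 0 z (n 0 z (n 2 (n 0 z (n 2 (n 0 z (n
 0 z (n 0 z (n 0 z (n 0 z (n 0 z z)))))) (n 2 (n 0 z (n 0 z (n 0 z (n 0 z (n 0 z (n 0 z z))))))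
 (n 2 (n 0 z (n 0 z (n 0 z (n 0 z (n 0 z (n 0 z z)))))) (n 2 (n 0 z (n 0 z (n 0 z (n 0 z (n 0 z
 (n 0 z z)))))) (n 2 (n 0 z (n 0 z (n 0 z (n 0 z (n 0 z (n 0 z z)))))) (n 2 (n 0 z (n 0 z (n 0 z
 (n 0 z (n 0 z (n 0 z z)))))) (n 2 (n 0 z (n 0 z (n 0 z (n 0 z (n 0 z (n 0 z z)))))) z))))))))
 (n 0 z (n 0 z (n 0 z (n 0 z (n 0 z (n 0 z z))))))))) (n 19 (n 0 z (n 0 z (n 0 z (n 0 z (n 0 z
 (n 0 z (n 0 z (n 0 z (n 0 z z))))))))) (n 487 (n 0 z (n 0 z (n 0 z (n 0 z (n 0 z (n 0 z (n 0 z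
 (n 0 z (n 0 z (n 0 z (n 0 z (n 0 z (n 0 z (n 0 z (n 0 z (n 0 z (n 0 z (n 0 z
 z)))))))))))))))))) (n 483 (n 0 z (n 2 (n 0 z (n 2 (n 0 z (n 0 z (n 0 z (n 0 z (n 0 z (n 0 z
 z)))))) (n 2 (n 0 z (n 0 z (n 0 z (n 0 z (n 0 z (n 0 z z)))))) (n 2 (n 0 z (n 0 z (n 0 z (n 0 z
 (n 0 z (n 0 z z)))))) (n 2 (n 0 z (n 0 z (n 0 z (n 0 z (n 0 z (n 0 z z)))))) z))))) (n 0 z (n 0
 z (n 0 z (n 0 z (n 0 z (n 0 z z)))))))) (n 483 (n 0 z (n 0 z (n 0 z (n 0 z (n 0 z (n 0 z (n 0 z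
 (n 0 z z)))))))) (n 481 (n 0 z (n 0 z (n 0 z (n 0 z (n 0 z (n 0 z (n 0 z (n 0 z z)))))))) (n
 481 (n 0 z (n 0 z (n 0 z (n 2 (n 0 z (n 0 z z)) (n 0 z (n 0 z (n 0 z (n 0 z z)))))))) (n 481 (n
 0 z (n 0 z (n 0 z (n 0 z (n 0 z (n 0 z (n 0 z (n 0 z z)))))))) (n 481 (n 0 z (n 0 z (n 0 z (n 0
 z (n 0 z (n 7669275 z (n 0 z (n 0 z z)))))))) z))))))))) (n 0 (n 0 z (n 267 (n 0 z (n 0 z (n 0
 z (n 0 z (n 2 (n 1 z (n 2 (n 0 z (n 0 z (n 0 z (n 0 z (n 0 z (n 0 z z)))))) (n 2 (n 0 z (n 0 z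
 (n 0 z (n 0 z (n 0 z (n 0 z z)))))) (n 2 (n 0 z (n 0 z (n 0 z (n 0 z (n 0 z (n 0 z z)))))) (n 2
 (n 0 z (n 0 z (n 0 z (n 0 z (n 0 z (n 0 z z)))))) (n 2 (n 0 z (n 0 z (n 0 z (n 0 z (n 0 z (n 0
 z z)))))) z)))))) z))))) (n 255 (n 0 z (n 0 z (n 0 z (n 0 z (n 0 z (n 0 z (n 0 z z))))))) (n
 255 (n 0 z (n 0 z (n 0 z (n 0 z (n 0 z (n 0 z (n 0 z z))))))) (n 257 (n 0 z (n 0 z (n 0 z (n 0
 z (n 0 z (n 0 z (n 0 z (n 0 z (n 0 z (n 0 z (n 0 z (n 0 z (n 0 z (n 0 z (n 0 z (n 0 z (n 0 z (n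
 0 z (n 0 z (n 0 z (n 0 z (n 0 z (n 0 z (n 0 z (n 0 z (n
 0x2ec8ec8003807f7f80808080808080808080808080808080808080808080808180808080807f80808080808080808080808080808080800809
 z (n 0 z (n 0 z z)))))))))))))))))))))))))))) (n 257 (n 0 z (n 0 z (n 0 z (n 0 z (n 0 z (n 0 z
 (n 0 z (n 0 z (n 0 z (n 0 z (n 0 z (n 0 z (n 0 z (n 0 z (n 0 z (n 0 z (n 0 z (n 0 z (n 0 z (n 0
 z (n 0 z (n 0 z (n 0 z (n 0 z (n 0 z (n 0 z (n 0 z (n 0 z z)))))))))))))))))))))))))))) (n 257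
 (n 0 z (n 0 z (n 0 z (n 0 z (n 0 z (n 0 z (n 0 z (n 0 z (n 0 z (n 0 z (n 0 z (n 0 z (n 0 z (n 0
 z (n 0 z (n 0 z (n 0 z (n 0 z (n 0 z (n 0 z (n 0 z (n 0 z (n 0 z (n 0 z (n 0 z (n 0 z (n 0 z (n
 0 z z)))))))))))))))))))))))))))) (n 257 (n 0 z (n 0 z (n 0 z (n 0 z (n 0 z (n 0 z (n 0 z (n 0
 z (n 0 z (n 0 z (n 0 z (n 0 z (n 0 z (n 0 z (n 0 z (n 7669307 z (n 0 z (n 0 z (n 0 z (n 0 z (n
 0 z (n 0 z (n 0 z (n 0 z (n 0 z (n 0 z (n 0 z (n 0 z z)))))))))))))))))))))))))))) z)))))))) (n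
 0 (n 7 (n 0 z (n 0 z (n 0 z (n 0 z (n 0 z z))))) (n 3 (n 0 z (n 0 z (n 0 z (n 0 z z)))) (n 3 (n
 0 z (n 0 z (n 0 z (n 0 z z)))) (n 1 (n 0 z (n 0 z (n 0 z (n 0 z (n 0 z (n 0 z (n 0 z (n 0 z
 z)))))))) (n 1 (n 0 z (n 0 z (n 0 z (n 0 z (n 0 z (n 0 z (n 0 z (n 0 z z)))))))) (n 1 (n 0 z (n
 0 z (n 0 z (n 0 z (n 0 z (n 0 z (n 0 z (n 0 z z)))))))) (n 1 (n 0 z (n 0 z (n 0 z (n 0 z (n 0 z
 (n 7669275 z (n 0 z (n 0 z z)))))))) z))))))) (n 0 (n 63 (n 0 z (n 2 (n 0 z (n 2 (n 0 z (n 0 z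
 (n 0 z (n 0 z (n 0 z (n 0 z z)))))) (n 2 (n 0 z (n 0 z (n 0 z (n 0 z (n 0 z (n 0 z z)))))) (n 2
 (n 0 z (n 0 z (n 0 z (n 0 z (n 0 z (n 0 z z)))))) (n 2 (n 0 z (n 0 z (n 0 z (n 0 z (n 0 z (n 0
 z z)))))) z))))) (n 0 z (n 0 z (n 0 z (n 0 z z)))))) (n 63 (n 0 z (n 0 z (n 0 z (n 0 z (n 0 z
 (n 0 z z)))))) (n 61 (n 0 z (n 0 z (n 0 z (n 0 z (n 0 z (n 0 z (n 0 z (n 0 z (n 0 z (n 0 z (n 0
 z (n 0 z z)))))))))))) (n 61 (n 0 z (n 0 z (n 0 z (n 0 z (n 0 z (n 0 z (n 2 (n 0 z (n 0 z z))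
 (n 0 z (n 0 z (n 0 z (n 0 z (n 0 z z)))))))))))) (n 61 (n 0 z (n 0 z (n 0 z (n 0 z (n 0 z (n 0
 z (n 0 z (n 0 z (n 0 z (n 0 z (n 0 z (n 0 z z)))))))))))) (n 61 (n 0 z (n 0 z (n 0 z (n 0 z (n
 7669275 z (n 0 z (n 0 z (n 0 z (n 0 z (n 0 z (n 0 z (n 0 z z)))))))))))) z)))))) (n 0 (n 0 z (n
 53 (n 0 z (n 0 z (n 0 z (n 0 z (n 0 z (n 0 z (n 0 z (n 0 z (n 0 z (n 0 z (n 0 z (n 0 z (n 0 z
 (n 0 z (n 0 z (n 0 z (n 0 z (n 0 z (n 0 z (n 0 z (n 0 z (n 0 z (n 0 z (n 0 z (n 0 z (n 0 z (n 0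
 z (n 0 z (n 0 z (n 0 z (n 0 z (n 0 z (n 0 z (n 0 z (n
 0x2ec6ec600381807f7f807f808180807f8080807f817f7e817f8080808080818081807f81827e80818080808180817f80817f7f818080810809
 z (n 0 z (n 0 z (n 0 z (n 0 z (n 0 z (n 0 z (n 0 z (n 0 z (n 0 z (n 0 z (n 0 z
 z)))))))))))))))))))))))))))))))))))))))))))))) (n 53 (n 0 z (n 0 z (n 0 z (n 0 z (n 0 z (n 0 z
 (n 0 z (n 0 z (n 0 z (n 0 z (n 0 z (n 0 z (n 0 z (n 0 z (n 0 z (n 0 z (n 0 z (n 0 z (n 0 z (n 0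
 z (n 0 z (n 0 z (n 0 z (n 0 z (n 0 z (n 0 z (n 0 z (n 0 z (n 0 z (n 0 z (n 0 z (n 0 z (n 0 z (n
 0 z (n 0 z (n 0 z (n 0 z (n 0 z (n 0 z (n 0 z (n 0 z (n 0 z (n 0 z (n 0 z (n 0 z (n 0 z
 z)))))))))))))))))))))))))))))))))))))))))))))) (n 53 (n 0 z (n 0 z (n 0 z (n 0 z (n 0 z (n 0 z
 (n 0 z (n 0 z (n 0 z (n 0 z (n 0 z (n 0 z (n 0 z (n 0 z (n 0 z (n 0 z (n 0 z (n 0 z (n 0 z (n 0
 z (n 0 z (n 0 z (n 0 z (n 0 z (n 0 z (n 0 z (n 0 z (n 0 z (n 0 z (n 0 z (n 0 z (n 0 z (n 0 z (n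
 0 z (n 0 z (n 0 z (n 0 z (n 0 z (n 0 z (n 0 z (n 0 z (n 0 z (n 0 z (n 0 z (n 0 z (n 0 z
 z)))))))))))))))))))))))))))))))))))))))))))))) (n 53 (n 0 z (n 0 z (n 0 z (n 0 z (n 0 z (n 0 z
 (n 0 z (n 0 z (n 0 z (n 0 z (n 0 z (n 0 z (n 0 z (n 0 z (n 0 z (n 0 z (n 0 z (n 0 z (n 0 z (n 0
 z (n 0 z (n 0 z (n 0 z (n 0 z (n 0 z (n 0 z (n 0 z (n 0 z (n 0 z (n 0 z (n 0 z (n 0 z (n
 7669307 z (n 0 z (n 0 z (n 0 z (n 0 z (n 0 z (n 0 z (n 0 z (n 0 z (n 0 z (n 0 z (n 0 z (n 0 z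
 (n 0 z z)))))))))))))))))))))))))))))))))))))))))))))) z))))) (n 0 (n 73 (n 0 z (n 0 z (n 0 z
 (n 0 z (n 0 z (n 0 z (n 0 z (n 0 z (n 0 z (n 0 z (n 0 z (n 0 z (n 0 z (n 0 z (n 0 z (n 0 z (n 0
 z (n 0 z (n 0 z (n 0 z (n 0 z (n 0 z (n 0 z (n 0 z (n 0 z (n 0 z (n 0 z (n 0 z (n 0 z (n 0 z (n
 0 z (n 0 z (n 0 z (n 0 z (n 0 z (n
 0xc76276130181329b29901c0194d94480608ec6c602077c8180818082897f768c7d83827b837b76828388897e878a7b8084808282818a7a7c917f7c888087807581747b846f8085742009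
 z (n 2 (n 0 z (n 0 z (n 0 z z))) (n 0 z (n 0 z (n 0 z (n 0 z (n 0 z (n 0 z (n 0 z (n 0 z (n 0 z
 (n 0 z (n 0 z (n 0 z (n 0 z (n 0 z (n 0 z (n 0 z (n 0 z (n 0 z (n 0 z
 z)))))))))))))))))))))))))))))))))))))))))))))))))))))))) (n 73 (n 0 z (n 0 z (n 0 z (n 0 z (n
 0 z (n 0 z (n 0 z (n 0 z (n 0 z (n 0 z (n 0 z (n 0 z (n 0 z (n 0 z (n 0 z (n 0 z (n 0 z (n 0 z
 (n 0 z (n 0 z (n 0 z (n 0 z (n 0 z (n 0 z (n 0 z (n 0 z (n 0 z (n 0 z (n 0 z (n 0 z (n 0 z (n 0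
 z (n 0 z (n 0 z (n 0 z (n 0 z (n 0 z (n 0 z (n 0 z (n 0 z (n 0 z (n 0 z (n 0 z (n 0 z (n 0 z (n
 0 z (n 0 z (n 0 z (n 0 z (n 0 z (n 0 z (n 0 z (n 0 z (n 0 z (n 0 z (n 0 z
 z)))))))))))))))))))))))))))))))))))))))))))))))))))))))) (n 73 (n 0 z (n 0 z (n 0 z (n 0 z (n
 0 z (n 0 z (n 0 z (n 0 z (n 0 z (n 0 z (n 0 z (n 0 z (n 0 z (n 0 z (n 0 z (n 0 z (n 0 z (n 0 z
 (n 0 z (n 0 z (n 0 z (n 0 z (n 0 z (n 0 z (n 0 z (n 0 z (n 0 z (n 0 z (n 0 z (n 0 z (n 0 z (n 0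
 z (n 0 z (n 0 z (n 0 z (n 0 z (n 0 z (n 0 z (n 0 z (n 0 z (n 0 z (n 0 z (n 0 z (n 0 z (n 0 z (n
 0 z (n 0 z (n 0 z (n 0 z (n 0 z (n 0 z (n 0 z (n 0 z (n 0 z (n 0 z (n 0 z
 z)))))))))))))))))))))))))))))))))))))))))))))))))))))))) (n 73 (n 0 z (n 0 z (n 0 z (n 0 z (n
 0 z (n 0 z (n 0 z (n 0 z (n 0 z (n 0 z (n 0 z (n 0 z (n 0 z (n 0 z (n 0 z (n 0 z (n 0 z (n 0 z
 (n 0 z (n 0 z (n 0 z (n 0 z (n 0 z (n 0 z (n 0 z (n 0 z (n 0 z (n 0 z (n 0 z (n 0 z (n 0 z (n 0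
 z (n 0 z (n 0 z (n 7669275 z (n 0 z (n 0 z (n 0 z (n 0 z (n 0 z (n 0 z (n 0 z (n 0 z (n 0 z (n
 0 z (n 0 z (n 0 z (n 0 z (n 0 z (n 0 z (n 0 z (n 0 z (n 0 z (n 0 z (n 0 z (n 0 z
 z)))))))))))))))))))))))))))))))))))))))))))))))))))))))) z)))) (n 0 (n 0 z (n 0 z (n 0 z z)))
 (n 0 (n 0 z (n 0 z z)) (n 0 (n 0 z z) (n 0 z z))))))))))))))) (n 0 (n 1 (n 28 z (n 5375547 z (n
 5447779 z (n 6488603 z (n 6493227 z (n 3148 z z)))))) (n 1 (n 3280995 z (n 6562587 z (n 6562587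
 z (n 6562587 z (n 6562587 z (n 6562587 z z)))))) (n 1 (n 6566419 z (n 6566419 z (n 6566419 z (n
 6566419 z (n 6566419 z (n 6566419 z z)))))) (n 1 (n 2 z (n 5375515 z (n 6488603 z (n 3148 z (n
 6493227 z (n 3148 z z)))))) z)))) (n 0 (n 0 (n 0 (n 0 (n 7741699 z (n 7741699 z (n 7741699 z (n
 7741699 z (n 7741699 z (n 7741699 z z)))))) z) (n 0 (n 249 (n 0 z (n 1 (n 4331275 z (n 7614995
 z (n 7669275 z (n 7681051 z (n 3148 z (n 3148 z z)))))) (n 1 (n 3282699 z (n 7614995 z (n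
 7611163 z (n 1452 z (n 7681051 z (n 3148 z z)))))) (n 1 (n 7610675 z (n 7614995 z (n 7610675 z
 (n 7610675 z (n 7610675 z (n 7610675 z z)))))) (n 1 (n 3282699 z (n 7614995 z (n 4400907 z (n
 4400907 z (n 4400907 z (n 4400907 z z)))))) (n 0 z z)))))) (n 273 (n 0 z (n 1 (n 7741699 z (n
 1996 z (n 1996 z (n 1996 z (n 1996 z (n 1996 z z)))))) (n 1 (n 7741699 z (n 1996 z (n 1948 z (n
 1996 z (n 1996 z (n 4392795 z z)))))) (n 1 (n 7741699 z (n 7610675 z (n 7610675 z (n 7610675 z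
 (n 7610675 z (n 7610675 z z)))))) (n 1 (n 7741699 z (n 4400907 z (n 4400907 z (n 4400907 z (n
 4400907 z (n 4400907 z z)))))) (n 0 z z)))))) (n 129 (n 1 (n 1468 z (n 1468 z (n 6631539 z (n
 7669275 z (n 6567771 z (n 1468 z z)))))) (n 1 (n 7741699 z (n 7741699 z (n 7741699 z (n 7741699
 z (n 7741699 z (n 7741699 z z)))))) (n 1 (n 7741699 z (n 7741699 z (n 7741699 z (n 7741699 z (n
 7741699 z (n 7741699 z z)))))) (n 1 (n 7741699 z (n 7741699 z (n 7741699 z (n 7741699 z (n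
 7741699 z (n 7741699 z z)))))) z)))) (n 9 (n 0 z (n 1 (n 7614995 z (n 7614995 z (n 7614995 z (n
 7614995 z (n 7614995 z (n 7614995 z z)))))) (n 1 (n 1996 z (n 5375803 z (n 7750155 z (n 7537179
 z (n 7541803 z (n 2380 z z)))))) (n 0 z (n 1 (n 7741699 z (n 7741699 z (n 7741699 z (n 7741699
 z (n 7741699 z (n 7741699 z z)))))) z))))) (n 15 (n 1 (n 7741699 z (n 7741699 z (n 7741699 z (n
 7741699 z (n 7741699 z (n 7741699 z z)))))) (n 1 (n 7741699 z (n 7741699 z (n 7741699 z (n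
 7741699 z (n 7741699 z (n 7741699 z z)))))) (n 1 (n 7614995 z (n 7614995 z (n 7614995 z (n
 7614995 z (n 7614995 z (n 7614995 z z)))))) (n 1 (n 7749971 z (n 7749971 z (n 7749971 z (n
 7749971 z (n 7749971 z (n 7749971 z z)))))) z)))) (n 261 (n 1 (n 7741699 z (n 7741699 z (n
 7741699 z (n 7741699 z (n 7741699 z (n 7741699 z z)))))) (n 0 z (n 0 z (n 1 (n 3282699 z (n
 7614995 z (n 7611163 z (n 2764 z (n 7681051 z (n 2764 z z)))))) (n 1 (n 3278683 z (n 7614995 z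
 (n 7611163 z (n 7537179 z (n 7681051 z (n 3278683 z z)))))) (n 1 (n 2764 z (n 7614995 z (n
 7669275 z (n 7537179 z (n 7611163 z (n 2764 z z)))))) (n 0 z (n 1 (n 7669275 z (n 7614995 z (n
 7537179 z (n
 0x18c5d4100600eca64080382807e8180807f8180807e8080817f81817f80818080808080817f807f80818181808280808080817f7f7e7f7e7f818280811009
 z (n 7611163 z (n 7681051 z z)))))) z)))))))) (n 129 (n 1 (n 28 z (n 5375803 z (n 5447795 z (n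
 7537179 z (n 7541803 z (n 3148 z z)))))) (n 1 (n 7741699 z (n 7741699 z (n 7741699 z (n 7741699
 z (n 7741699 z (n 7741699 z z)))))) (n 1 (n 7741699 z (n 7741699 z (n 7741699 z (n 7741699 z (n
 7741699 z (n 7741699 z z)))))) (n 1 (n 7741699 z (n 7741699 z (n 7741699 z (n 7741699 z (n
 7741699 z (n 7741699 z z)))))) z)))) z))))))) (n 0 z (n 0 (n 273 (n 0 z (n 0 z (n 0 z (n 0 z (n
 0 z (n 0 z z)))))) (n 183 (n 0 z (n 0 z (n 0 z (n 0 z (n 0 z (n 0 z (n 0 z (n 0 z (n 0 z (n 0 z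
 (n 0 z (n 0 z (n 0 z z))))))))))))) (n 33 (n 0 z (n 0 z (n 0 z (n 0 z (n 0 z (n 0 z (n 0 z (n 0
 z (n 0 z z))))))))) (n 297 (n 0 z (n 0 z (n 0 z (n 0 z (n 0 z (n 0 z (n 0 z (n 0 z (n 0 z (n 0
 z (n 0 z z))))))))))) (n 249 (n 0 z (n 0 z (n 0 z (n 0 z (n 0 z (n 0 z (n 0 z (n 0 z (n 0 z (n
 0 z (n 0 z (n 0 z (n 0 z (n 0 z (n 0 z (n 0 z (n 0 z (n 0 z z)))))))))))))))))) (n 9 (n 0 z (n
 0 z (n 0 z (n 0 z (n 0 z z))))) (n 321 (n 0 z (n 0 z (n 0 z (n 0 z (n 0 z (n 0 z (n 0 z (n 0 z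
 (n 0 z (n 0 z (n 0 z z))))))))))) (n 255 (n 0 z (n 0 z (n 0 z (n 0 z (n 0 z (n 0 z (n 0 z (n 0
 z z)))))))) (n 15 (n 0 z (n 0 z (n 0 z (n 0 z z)))) (n 37 (n 0 z (n 0 z (n 0 z (n 0 z (n 0 z (n
 0 z z)))))) (n 345 (n 0 z (n 0 z (n 0 z (n 0 z (n 0 z (n 0 z (n 0 z (n 0 z (n 0 z (n 0 z (n 0 z
 (n 0 z z)))))))))))) (n 261 (n 0 z (n 0 z (n 0 z (n 0 z (n 0 z (n 0 z (n 0 z (n 0 z z))))))))
 (n 21 (n 0 z (n 0 z (n 0 z (n 0 z (n 0 z (n 0 z (n 0 z (n 0 z z)))))))) (n 43 (n 0 z (n 0 z (n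
 0 z (n 0 z (n 0 z (n 0 z (n 0 z (n 0 z (n 0 z (n 0 z (n 0 z (n 0 z z)))))))))))) (n 42 (n 0 z
 (n 0 z (n 0 z (n 0 z (n 0 z (n 0 z (n 0 z (n 0 z (n 0 z (n 0 z (n 0 z (n 0 z (n 0 z (n 0 z (n 0
 z (n 0 z (n 0 z (n 0 z (n 0 z (n 0 z (n 0 z (n 0 z (n 0 z (n 0 z (n 0 z (n 0 z (n 0 z (n 0 z (n
 0 z (n 0 z (n 0 z (n 0 z (n 0 z (n 0 z (n 0 z (n 0 z (n 0 z (n 0 z (n 0 z (n 0 z (n 0 z (n 0 z
 (n 0 z (n 0 z (n 0 z (n 0 z (n 0 z (n 0 z (n 0 z (n 0 z (n 0 z (n 0 z (n 0 z (n 0 z (n 0 z (n 0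
 z z)))))))))))))))))))))))))))))))))))))))))))))))))))))))) (n 393 (n 0 z (n 0 z (n 0 z (n 0 z
 (n 0 z (n 0 z (n 0 z (n 0 z z)))))))) (n 249 (n 0 z (n 0 z (n 0 z (n 0 z (n 0 z (n 0 z (n 0 z
 (n 0 z (n 0 z (n 0 z (n 0 z z))))))))))) (n 129 (n 0 z (n 0 z (n 0 z (n 0 z z)))) (n 3 (n 0 z
 (n 0 z (n 0 z (n 0 z (n 0 z (n 0 z (n 0 z z))))))) (n 25 (n 0 z (n 0 z (n 0 z (n 0 z (n 0 z (n
 0 z z)))))) (n 0 (n 0 z (n 0 z (n 0 z (n 0 z (n 0 z (n 0 z (n 0 z (n 0 z (n 0 z (n 0 z (n 0 z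
 (n 0 z (n 0 z (n 0 z z)))))))))))))) z))))))))))))))))))))) z)))) z) z)))) z)))))))))),
 by decide +kernel⟩
theorem i10905 : ∃ t, chkR KT RW t 10905 10915 = true := ⟨(n
 0x5b0aa2c64d14b8ad11932846396864bb60255305aa240954a219b6304db1902946012d840 (n 0x2d8c9 (n 321
 (n 2 z (n 0 z (n 0 z (n 6492195 z (n 10 z (n 18 z (n 0 z (n 0 z z)))))))) (n 325 (n 6492195 z
 (n 0 z (n 0 z (n 26 z (n 34 z (n 0 z (n 0 z z))))))) (n 9 (n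
 0x2a61091a86279e7df85f7a38666de7e38207208de89e7de89f81e7a086275f7df8de7a07637e08600041 z (n
 0x2c86c8600785f85f8607e18607a082182082082086086086082082081f8218208208208208208207e08200801 z
 (n 0 z (n 6562587 z (n 6562587 z (n 42 z (n 0 z (n
 0x2ca8c8260381f8608217e08208208217df82186082085f81f82181f81e7e08217e08208217e08208208200801 z
 (n 50 z (n 58 z (n 0 z (n
 0x2a64091a86279e7df85f7a38666de7e38207208de89e7de89f81e7a086275f7df8de7a07637e08600041 z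
 z)))))))))))) (n 123 (n 6492195 z (n
 0x2a61091a86279e7df85f7a38666de7e38207208de89e7de89f81e7a086275f7df8de7a07637e08600041 z (n 0 z
 (n
 0x242c8400d904b93209216418b67956761817ec37887717c74ae754f7697519176866f81a16b8b8b85969f689e826d7e797b6066848f628b65a99e9b807b0109
 z (n 6492195 z (n 66 z (n 6636307 z (n 0 z (n
 0x2ca8ca82037a182082086082089f7df82181f81f8207e186082182081f82086182082082086182081f8200801 z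
 z))))))))) (n 1 (n 6636307 z (n 0 z (n 0 z (n 74 z (n 82 z (n 0 z (n 0 z z))))))) (n 0 (n 0 z
 (n 6636307 z (n 0 z (n
 0x2c86c862038208208608208218207a07a08608218207e07e182181f81f81f86086182081f82082081f8200801 z
 (n 0x2c86c8600785f85f8607e18607a082182082082086086086082082081f8218208208208208208207e08200801
 z (n 90 z (n 6632475 z (n 0 z (n 0 z (n 0 z (n 98 z (n 106 z (n 0 z (n
 0x6264295696265d82c8a35a39ed55576a5687629d29636df72279c86482281e75f7247238a486b71c0041 z (n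
 6632475 z (n 0 z (n 0 z (n 0 z (n 0 z (n 0 z (n 0 z (n
 0x6264195696265d82c8a35a39ed55576a5687629d29636df72279c86482281e75f7247238a486b71c0041 z (n 0 z
 (n 0 z (n 0 z (n 0 z (n 0 z (n 0 z (n 0 z z))))))))))))))))))))))))))))) z)))))) (n 325 (n 0 (n
 0 z (n 0 z (n 657 (n 0 z (n 0 z (n 0 z (n 0 z z)))) (n 657 (n 0 z (n 0 z (n 0 z (n 0 z z)))) (n
 287 (n 0 z (n 0 z (n 0 z (n 0 z (n 0 z (n 0 z z)))))) (n 287 (n 0 z (n 0 z (n 0 z (n 0 z (n 0 z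
 (n 0 z z)))))) (n 287 (n 0 z (n 0 z (n 0 z (n 0 z (n 0 z (n 0 z z)))))) (n 645 (n 0 z (n 0 z (n
 0 z (n 2 (n 2 (n 0 z (n 0 z (n 0 z (n 0 z (n 0 z (n 0 z z)))))) (n 2 (n 0 z (n 0 z (n 0 z (n 0
 z (n 0 z (n 0 (n 8871955 z z) z)))))) (n 2 (n 0 z (n 0 z (n 0 z (n 0 z (n 0 z (n 0 z z)))))) (n
 2 (n 0 z (n 0 z (n 0 z (n 0 z (n 0 z (n 0 (n 8871955 z z) z)))))) (n 2 (n 0 z (n 0 z (n 0 z (n
 0 z (n 0 z (n 0 z z)))))) z))))) (n 0 z (n 0 z (n 0 z (n 0 z (n 0 z (n 0 z (n 0 z (n 0 z (n 0 z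
 (n 0 z (n 0 z (n 0 z (n 0 z (n 0 z (n 0 z (n 0 z (n 0 z (n 0 z (n 0 z (n 0 z (n 0 z (n 0 z (n 0
 z (n 0 z (n 0 z z))))))))))))))))))))))))))))) (n 249 (n 0 z (n 0 z (n 0 z (n 0 z (n 0 z z)))))
 (n 249 (n 0 z (n 0 z (n 0 z (n 0 z (n 0 z z))))) (n 641 (n 0 z (n 0 z (n 0 z (n 0 z (n 0 z (n 0
 z (n 0 z (n 0 z (n 2 (n 0 z (n 0 z z)) (n 0 z (n 0 z (n 0 z z)))))))))))) (n 641 (n 2 (n 0 z z)
 (n 0 z (n 0 z (n 0 z (n 0 z (n 0 z (n 0 z (n 0 z (n 0 z (n 0 z (n 0 z (n 0 z z)))))))))))) (n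
 641 (n 0 z (n 0 z (n 0 z (n 0 z (n 0 z (n 0 z (n 0 z (n 0 z (n 0 z (n 0 z (n 0 z (n 0 z
 z)))))))))))) z))))))))))))) (n 0 (n 0 z (n 511 (n 0 z (n 0 z (n 0 z (n 0 z (n 0 z (n 0 z (n 0
 z (n 2 (n 0 z (n 2 (n 0 z (n 0 z (n 0 z (n 0 z (n 0 z (n 0 z z)))))) (n 2 (n 0 z (n 0 z (n 0 z
 (n 0 z (n 0 z (n 0 z z)))))) (n 2 (n 0 z (n 0 z (n 0 z (n 0 z (n 0 z (n 0 z z)))))) (n 2 (n 0 z
 (n 0 z (n 0 z (n 0 z (n 0 z (n 0 z z)))))) (n 2 (n 0 z (n 0 z (n 0 z (n 0 z (n 0 z (n 0 z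
 z)))))) (n 2 (n 0 z (n 0 z (n 0 z (n 0 z (n 0 z (n 0 z z)))))) (n 2 (n 0 z (n 0 z (n 0 z (n 0 z
 (n 0 z (n 0 z z)))))) (n 2 (n 0 z (n 0 z (n 0 z (n 0 z (n 0 z (n 0 z z)))))) (n 2 (n 0 z (n 0 z
 (n 0 z (n 0 z (n 0 z (n 0 z z)))))) z)))))))))) (n 0 z (n 0 z (n 0 z (n 0 z (n 0 z
 z))))))))))))) (n 511 (n 0 z (n 0 z (n 0 z (n 0 z (n 0 z (n 0 z (n 0 z (n 0 z (n 0 z (n 0 z (n
 0 z (n 0 z (n 0 z z))))))))))))) (n 171 (n 0 z (n 0 z (n 0 z (n 7741491 z (n 0 z (n 0 z (n 0 z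
 (n 0 z (n 0 z (n 0 z (n 0 z (n 0 z z)))))))))))) (n 171 (n 0 z (n 0 z (n 0 z (n 0 z (n 0 z (n 0
 z (n 0 z (n 0 z (n 0 z (n 2 (n 0 z (n 2 (n 0 z (n 0 z (n 0 z (n 0 z (n 0 z (n 0 (n 8872019 z z)
 z)))))) (n 2 (n 0 z (n 0 z (n 0 z (n 0 z (n 0 z (n 0 z z)))))) (n 2 (n 0 z (n 0 z (n 0 z (n 0 z
 (n 0 z (n 0 z z)))))) (n 2 (n 0 z (n 0 z (n 0 z (n 0 z (n 0 z (n 0 z z)))))) (n 2 (n 0 z (n 0 z
 (n 0 z (n 0 z (n 0 z (n 0 z z)))))) (n 2 (n 0 z (n 0 z (n 0 z (n 0 z (n 0 z (n 0 z z))))))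
 z))))))) (n 0 z (n 0 z z)))))))))))) (n 171 (n 0 z (n 0 z (n 0 z (n 0 z (n 0 z (n 0 z (n 0 z (n
 0 z (n 2 (n 2 (n 0 z (n 0 z (n 0 z (n 0 z (n 0 z (n 0 (n 8872019 z z) z)))))) (n 2 (n 0 z (n 0
 z (n 0 z (n 0 z (n 0 z (n 0 z z)))))) (n 2 (n 0 z (n 0 z (n 0 z (n 0 z (n 0 z (n 0 z z)))))) (n
 2 (n 0 z (n 0 z (n 0 z (n 0 z (n 0 z (n 0 z z)))))) (n 2 (n 0 z (n 0 z (n 0 z (n 0 z (n 0 z (n
 0 z z)))))) (n 2 (n 0 z (n 0 z (n 0 z (n 0 z (n 0 z (n 0 z z)))))) z)))))) (n 0 z (n 0 z (n 0 z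
 z)))))))))))) (n 627 (n 0 z (n 0 z (n 0 z (n 0 z (n 0 z (n 0 z (n 0 z (n 0 z (n 0 z (n 0 z (n 0
 z (n 0 z (n 0 z (n 0 z (n 2 (n 2 (n 0 z (n 0 z (n 0 z (n 0 z (n 0 z (n 0 z z)))))) (n 2 (n 0 z
 (n 0 z (n 0 z (n 0 z (n 0 z (n 0 (n 8872019 z z) z)))))) (n 2 (n 0 z (n 0 z (n 0 z (n 0 z (n 0
 z (n 0 z z)))))) (n 2 (n 0 z (n 0 z (n 0 z (n 0 z (n 0 z (n 0 (n 8855819 z z) z)))))) (n 2 (n 0
 z (n 0 z (n 0 z (n 0 z (n 0 z (n 0 z z)))))) z))))) (n 0 z (n 0 z (n 0 z (n 0 z (n 0 z (n 0 z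
 (n 0 z (n 0 z (n 0 z (n 0 z (n 0 z (n 0 z (n 0 z (n 0 z (n 0 z (n 0 z (n 0 z (n 0 z (n 0 z (n 0
 z z))))))))))))))))))))))))))))))))))) (n 495 (n 0 z (n 0 z (n 0 z (n 0 z (n 0 z (n 0 z (n 0 z
 (n 0 z (n 0 z z))))))))) (n 495 (n 0 z (n 0 z (n 0 z (n 0 z (n 0 z (n 2 (n 2 (n 0 z (n 0 z (n 0
 z (n 0 z (n 0 z (n 0 z z)))))) (n 2 (n 0 z (n 0 z (n 0 z (n 0 z (n 0 z (n 0 z z)))))) (n 2 (n 0
 z (n 0 z (n 0 z (n 0 z (n 0 z (n 0 z z)))))) z))) (n 0 z (n 0 z (n 0 z z))))))))) (n 509 (n 0 z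
 (n 0 z (n 0 z (n 0 z (n 0 z (n 0 z (n 0 z (n 0 z (n 0 z (n 0 z (n 0 z (n 0 z (n 2 (n 0 z (n 0 z
 z)) (n 0 z (n 0 z (n 0 z (n 0 z (n 0 z (n 0 z (n 0 z (n 0 z (n 0 z (n 0 z (n 0 z (n 0 z (n 0 z
 (n 0 z (n 0 z z)))))))))))))))))))))))))))) (n 509 (n 2 (n 0 z z) (n 0 z (n 0 z (n 0 z (n 0 z
 (n 0 z (n 0 z (n 0 z (n 0 z (n 0 z (n 0 z (n 0 z (n 0 z (n 0 z (n 0 z (n 0 z (n 0 z (n 0 z (n 0
 z (n 0 z (n 0 z (n 0 z (n 0 z (n 0 z (n 0 z (n 0 z (n 0 z (n 0 z z))))))))))))))))))))))))))))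
 (n 509 (n 0 z (n 0 z (n
 0x2a76191a86279e7df85f7a38666de7e38207208de89e7de89f81e7a086275f7df8de7a07637e08600041 z (n 0 z
 (n 0 z (n 0 z (n 0 z (n 0 z (n 0 z (n 0 z (n 0 z (n 0 z (n 0 z (n 0 z (n 0 z (n 0 z (n 0 z (n 0
 z (n 0 z (n 0 z (n 0 z (n 0 z (n 0 z (n 0 z (n 0 z (n 0 z (n 0 z (n 0 z
 z)))))))))))))))))))))))))))) z)))))))))))) (n 0 (n 651 (n 0 z (n 0 z (n 0 z (n 0 z (n 0 z (n 0
 z (n 0 z (n 0 z z)))))))) (n 651 (n 0 z (n 0 z (n 0 z (n 0 z (n 0 z (n 0 z (n 0 z (n 2 (n 2 (n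
 0 z (n 0 z (n 0 z (n 0 z (n 0 z (n 0 z z)))))) (n 2 (n 0 z (n 0 z (n 0 z (n 0 z (n 0 z (n 0 (n
 8872019 z z) z)))))) (n 2 (n 0 z (n 0 z (n 0 z (n 0 z (n 0 z (n 0 z z)))))) (n 1 z (n 2 (n 0 z
 (n 0 z (n 0 z (n 0 z (n 0 z (n 0 z z)))))) (n 2 (n 0 z (n 0 z (n 0 z (n 0 z (n 0 z (n 0 (n
 8872019 z z) z)))))) (n 2 (n 0 z (n 0 z (n 0 z (n 0 z (n 0 z (n 0 z z)))))) (n 2 (n 0 z (n 0 z
 (n 0 z (n 0 z (n 0 z (n 0 (n 3283051 z z) z)))))) (n 2 (n 0 z (n 0 z (n 0 z (n 0 z (n 0 z (n 0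
 z z)))))) z))))))))) z)))))))) (n 259 (n 0 z (n 0 z (n 0 z (n 0 z (n 0 z (n 0 z z)))))) (n 259
 (n 0 z (n 0 z (n 0 z (n 0 z (n 0 z (n 0 z z)))))) (n 259 (n 0 z (n 0 z (n 0 z (n 0 z (n 0 z (n
 0 z z)))))) (n 247 (n 0 z (n 0 z (n 0 z (n 0 z (n 0 z (n 0 z (n 0 z (n 0 z (n 0 z (n 0 z (n 0 z
 z))))))))))) (n 243 (n 0 z (n 0 z (n 0 z (n 0 z (n 0 z (n 2 (n 0 z (n 2 (n 0 z (n 0 z (n 0 z (n
 0 z (n 0 z (n 0 z z)))))) (n 2 (n 0 z (n 0 z (n 0 z (n 0 z (n 0 z (n 0 z z)))))) (n 2 (n 0 z (n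
 0 z (n 0 z (n 0 z (n 0 z (n 0 z z)))))) z)))) (n 0 z (n 0 z z)))))))) (n 243 (n 0 z (n 0 z (n 0
 z (n 0 z (n 0 z (n 0 z (n 0 z (n 0 z z)))))))) (n 641 (n 0 z (n 0 z (n 0 z (n 0 z (n 0 z (n 0 z
 (n 0 z (n 0 z (n 0 z (n 0 z (n 0 z (n 0 z (n 0 z z))))))))))))) (n 641 (n 0 z (n 0 z (n 0 z (n
 0 z (n 0 z (n 0 z (n 0 z (n 0 z (n 0 z (n 0 z (n 0 z (n 0 z (n 0 z z))))))))))))) (n 641 (n 0 z
 (n 2 z (n 0 z (n 0 z (n 0 z (n 0 z (n 0 z (n 0 z (n 0 z (n 0 z (n 0 z (n 0 z (n 0 z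
 z))))))))))))) z))))))))))) (n 0 (n 0 z (n 19 (n 0 z (n 0 z (n 0 z (n 0 z (n 0 z z))))) (n 19
 (n 0 z (n 0 z (n 0 z (n 0 z (n 0 z z))))) (n 19 (n 0 z (n 0 z (n 0 z (n 0 z (n 0 z z))))) (n 7
 (n 0 z (n 0 z (n 0 z (n 0 z (n 0 z (n 0 z (n 0 z (n 0 z (n 0 z (n 0 z z)))))))))) (n 3 (n 0 z
 (n 0 z (n 0 z (n 2 (n 0 z (n 2 (n 0 z (n 0 z (n 0 z (n 0 z (n 0 z (n 0 z z)))))) (n 2 (n 0 z (n
 0 z (n 0 z (n 0 z (n 0 z (n 0 z z)))))) (n 2 (n 0 z (n 0 z (n 0 z (n 0 z (n 0 z (n 0 z z))))))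
 z)))) (n 0 z z))))) (n 3 (n 0 z (n 0 z (n 0 z (n 0 z (n 0 z z))))) (n 649 (n 0 z (n 0 z (n 0 z
 (n 0 z (n 0 z (n 0 z (n 0 z (n 0 z (n 0 z (n 0 z (n 0 z (n 2 (n 0 z (n 0 z z)) (n 0 z (n 0 z (n
 0 z (n 0 z (n 0 z (n 0 z (n 0 z (n 0 z (n 0 z (n 0 z (n 0 z (n 0 z (n 0 z (n 0 z (n 0 z (n 0 z
 (n 0 z (n 0 z (n 0 z (n 0 z (n 0 z (n 0 z (n 0 z (n 0 z (n 0 z (n 0 z (n 0 z (n 0 z (n 0 z (n 0
 z (n 0 z (n 0 z (n 0 z (n 0 z z)))))))))))))))))))))))))))))))))))))))))))))) (n 649 (n 0 z (n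
 0 z (n 0 z (n 0 z (n 0 z (n 0 z (n 0 z (n 0 z (n 0 z (n 0 z (n 0 z (n 0 z (n 0 z (n 0 z (n 0 z
 (n 0 z (n 0 z (n 0 z (n 0 z (n 0 z (n 0 z (n 0 z (n 0 z (n 0 z (n 0 z (n 0 z (n 0 z (n 0 z (n 0
 z (n 0 z (n 0 z (n 0 z (n 0 z (n 0 z (n 0 z (n 0 z (n 0 z (n 0 z (n 0 z (n 0 z (n 0 z (n 0 z (n
 0 z (n 0 z (n 0 z (n 0 z z)))))))))))))))))))))))))))))))))))))))))))))) (n 649 (n 0 z (n 0 z
 (n 0 z (n 2 z (n 0 z (n 0 z (n 0 z (n 0 z (n 0 z (n 0 z (n 0 z (n 0 z (n 0 z (n 0 z (n 0 z (n 0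
 z (n 0 z (n 0 z (n 0 z (n 0 z (n 0 z (n 0 z (n 0 z (n 0 z (n 0 z (n 0 z (n 0 z (n 0 z (n 0 z (n
 0 z (n 0 z (n 0 z (n 0 z (n 0 z (n 0 z (n 0 z (n 0 z (n 0 z (n 0 z (n 0 z (n 0 z (n 0 z (n 0 z
 (n 0 z (n 0 z (n 0 z z)))))))))))))))))))))))))))))))))))))))))))))) z)))))))))) (n 0 (n 411 (n
 0 z (n 7741491 z (n 0 z (n 0 z (n 0 z (n 0 z z)))))) (n 411 (n 0 z (n 0 z (n 0 z (n 0 z (n 0 z
 (n 2 (n 0 z (n 1 z (n 2 (n 0 z (n 0 z (n 0 z (n 0 z (n 0 z (n 0 z z)))))) (n 2 (n 0 z (n 0 z (n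
 0 z (n 0 z (n 0 z (n 0 (n 8872019 z z) z)))))) (n 2 (n 0 z (n 0 z (n 0 z (n 0 z (n 0 z (n 0 z
 z)))))) (n 2 (n 0 z (n 0 z (n 0 z (n 0 z (n 0 z (n 0 (n 8855819 z z) z)))))) (n 2 (n 0 z (n 0 z
 (n 0 z (n 0 z (n 0 z (n 0 z z)))))) z))))))) z)))))) (n 411 (n 0 z (n 0 z (n 0 z (n 0 z (n 2 (n
 1 z (n 2 (n 0 z (n 0 z (n 0 z (n 0 z (n 0 z (n 0 z z)))))) (n 2 (n 0 z (n 0 z (n 0 z (n 0 z (n
 0 z (n 0 (n 8872019 z z) z)))))) (n 2 (n 0 z (n 0 z (n 0 z (n 0 z (n 0 z (n 0 z z)))))) (n 2 (n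
 0 z (n 0 z (n 0 z (n 0 z (n 0 z (n 0 (n 8855819 z z) z)))))) (n 2 (n 0 z (n 0 z (n 0 z (n 0 z
 (n 0 z (n 0 z z)))))) z)))))) (n 0 z z)))))) (n 555 (n 0 z (n 0 z (n 0 z (n 2 (n 1 z (n 1 z (n
 1 z (n 1 z (n 2 (n 0 z (n 0 z (n 0 z (n 0 z (n 0 z (n 0 z z)))))) z))))) (n 0 z (n 0 z (n 0 z
 (n 0 z (n 0 z z))))))))) (n 543 (n 0 z (n 0 z (n 0 z (n 0 z (n 0 z z))))) (n 543 (n 0 z (n 0 z
 (n 0 z (n 2 (n 2 (n 0 z (n 0 z (n 0 z (n 0 z (n 0 z (n 0 (n 2228 z z) z)))))) (n 1 z (n 2 (n 0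
 z (n 0 z (n 0 z (n 0 z (n 0 z (n 0 z z)))))) z))) (n 0 z z))))) (n 557 (n 0 z (n 0 z (n 2 (n 0
 z (n 0 z z)) (n 0 z (n 0 z (n 0 z (n 0 z (n 0 z (n 0 z (n 0 z (n 0 z (n 0 z (n 0 z (n 0 z (n 0
 z (n 0 z (n 0 z (n 0 z (n 0 z (n 0 z (n 0 z (n 0 z (n 0 z (n 0 z (n 0 z (n 0 z
 z)))))))))))))))))))))))))) (n 557 (n 2 (n 0 z z) (n 0 z (n 0 z (n 0 z (n 0 z (n 0 z (n 0 z (n
 0 z (n 0 z (n 0 z (n 0 z (n 0 z (n 0 z (n 0 z (n 0 z (n 0 z (n 0 z (n 0 z (n 0 z (n 0 z (n 0 z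
 (n 0 z (n 0 z (n 0 z (n 0 z (n 0 z z)))))))))))))))))))))))))) (n 557 (n 0 z (n 0 z (n 0 z (n 0
 z (n 0 z (n 0 z (n 0 z (n 0 z (n 0 z (n 0 z (n 0 z (n 0 z (n 0 z (n 0 z (n 0 z (n 0 z (n 0 z (n
 0 z (n 0 z (n 0 z (n 0 z (n 0 z (n 0 z (n 0 z (n 0 z (n 0 z z))))))))))))))))))))))))))
 z))))))))) (n 0 (n 0 z (n 0 z (n 535 (n 0 z (n 0 z (n 0 z (n 0 z (n 0 z (n 0 z (n 0 z (n 0 z (n
 0 z (n 0 z (n 0 z (n 0 z (n 0 z (n 0 z (n 0 z (n 0 z (n 0 z (n 7741707 z (n 0 z (n 0 z (n 0 z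
 (n 0 z (n 0 z (n 0 z (n 0 z (n 0 z (n 0 z (n 0 z (n 0 z (n 0 z (n 0 z (n 0 z (n 0 z (n 0 z (n 0
 z z))))))))))))))))))))))))))))))))))) (n 483 (n 0 z (n 0 z (n 0 z (n 0 z (n 0 z (n 7741491 z
 (n 0 z (n 0 z (n 0 z (n 0 z (n 0 z (n 0 z (n 0 z z))))))))))))) (n 483 (n 0 z (n 0 z (n 0 z (n
 0 z (n 0 z (n 0 z (n 0 z (n 0 z (n 0 z (n 0 z (n 0 z (n 0 z (n 0 z z))))))))))))) (n 481 (n 0 z
 (n 0 z (n 0 z (n 0 z (n 0 z (n 0 z (n 0 z (n 0 z (n 0 z (n 0 z (n 0 z (n 0 z (n 0 z (n 0 z (n 0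
 z (n 0 z (n 0 z (n 0 z (n 0 z (n 0 z (n 0 z (n 0 z (n 0 z (n 0 z (n 0 z (n 0 z (n 0 z (n 0 z
 z)))))))))))))))))))))))))))) (n 481 (n 0 z (n 0 z (n 0 z (n 0 z (n 0 z (n 0 z (n 0 z (n 0 z (n
 0 z (n 0 z (n 0 z (n 0 z (n 0 z (n 0 z (n 0 z (n 0 z (n 0 z (n 0 z (n 0 z (n 0 z (n 7741707 z
 (n 0 z (n 0 z (n 0 z (n 0 z (n 0 z (n 0 z (n 0 z z)))))))))))))))))))))))))))) (n 481 (n 0 z (n
 0 z (n 0 z (n 0 z (n 0 z (n 0 z (n 0 z (n 0 z (n 0 z (n 0 z (n 0 z (n 0 z (n 0 z (n 0 z (n 0 z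
 (n 0 z (n 0 z (n 0 z (n 0 z (n 0 z (n 0 z (n 0 z (n 0 z (n 0 z (n 0 z (n 0 z (n 0 z (n 0 z
 z)))))))))))))))))))))))))))) z)))))))) (n 0 (n 0 z (n 273 (n 0 z (n 0 z (n 0 z (n 0 z (n 0 z
 (n 0 z (n 0 z (n 0 z (n 0 z (n 0 z (n 0 z (n 0 z (n 0 z (n 0 z (n 0 z z))))))))))))))) (n 21 (n
 0 z (n 2 (n 0 z (n 2 (n 0 z (n 0 z (n 0 z (n 0 z (n 0 z (n 0 z z)))))) (n 2 (n 0 z (n 0 z (n 0
 z (n 0 z (n 0 z (n 0 z z)))))) (n 2 (n 0 z (n 0 z (n 0 z (n 0 z (n 0 z (n 0 z z)))))) z)))) (n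
 0 z (n 0 z (n 0 z (n 0 z (n 0 z z))))))) (n 21 (n 0 z (n 0 z (n 0 z (n 0 z (n 0 z (n 0 z (n 0 z
 z))))))) (n 17 (n 0 z (n 0 z (n 0 z (n 0 z (n 0 z (n 0 z (n 0 z (n
 0x2a76391a86279e7df85f7a38666de7e38207208de89e7de89f81e7a086275f7df8de7a07637e08600041 z (n 0 z
 z))))))))) (n 17 (n 0 z (n 0 z (n 0 z (n 0 z (n 0 z (n 0 z (n 0 z (n 0 z (n 0 z z))))))))) (n
 17 (n 0 z (n 0 z (n 0 z (n 0 z (n 0 z (n 0 z (n 0 z (n 0 z (n 0 z z))))))))) z))))))) (n 0 (n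
 247 (n 0 z (n 0 z (n 0 z (n 0 z (n 0 z (n 0 z (n 0 z (n 0 z (n 0 z (n 0 z (n 0 z (n 0 z (n 0 z
 (n 0 z (n 0 z (n 0 z (n 0 z z))))))))))))))))) (n 3 (n 0 z (n 0 z (n 0 z (n 0 z (n 0 z (n 0 z
 (n 0 z (n 0 z (n 0 z (n 0 z (n 0 z (n 2 (n 0 z (n 2 (n 0 z (n 0 z (n 0 z (n 0 z (n 0 z (n 0 z
 z)))))) (n 2 (n 0 z (n 0 z (n 0 z (n 0 z (n 0 z (n 0 z z)))))) (n 2 (n 0 z (n 0 z (n 0 z (n 0 z
 (n 0 z (n 0 z z)))))) z)))) (n 0 z (n 0 z (n 0 z z))))))))))))))) (n 3 (n 0 z (n 0 z (n 0 z (n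
 0 z (n 0 z (n 0 z (n 0 z (n 0 z (n 0 z (n 0 z (n 0 z (n 0 z (n 0 z (n 0 z (n 0 z
 z))))))))))))))) (n 1 (n 0 z (n 0 z (n 0 z (n 0 z (n 0 z (n 0 z (n 0 z (n 0 z (n 0 z (n 0 z (n
 0 z (n 0 z (n 0 z (n 0 z (n 0 z (n 0 z (n 0 z (n 0 z (n 0 z (n 0 z (n 0 z (n 0 z (n 0 z (n 0 z
 (n 0 z (n 0 z (n 0 z (n 0 z (n 0 z (n 0 z (n 0 z (n 0 z (n 0 z (n 0 z (n 0 z
 z))))))))))))))))))))))))))))))))))) (n 1 (n 0 z (n 0 z (n 0 z (n 0 z (n 0 z (n 0 z (n 0 z (n 0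
 z (n 0 z (n 0 z (n 0 z (n 0 z (n 0 z (n 0 z (n 0 z (n 0 z (n 0 z (n 0 z (n 0 z (n 0 z (n 0 z (n
 0 z (n 0 z (n 0 z (n 0 z (n 0 z (n 0 z (n 0 z (n 0 z (n 0 z (n 0 z (n 0 z (n 0 z (n 0 z (n 0 z
 z))))))))))))))))))))))))))))))))))) (n 1 (n 0 z (n 0 z (n 0 z (n 0 z (n 0 z (n 0 z (n 0 z (n 0
 z (n 0 z (n 0 z (n 0 z (n 0 z (n 0 z (n 0 z (n 0 z (n 0 z (n 0 z (n 2 z (n 0 z (n 0 z (n 0 z (n
 0 z (n 0 z (n 0 z (n 0 z (n 0 z (n 0 z (n 0 z (n 0 z (n 0 z (n 0 z (n 0 z (n 0 z (n 0 z (n 0 z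
 z))))))))))))))))))))))))))))))))))) z)))))) (n 0 (n 255 (n 0 z (n 0 z (n 0 z (n 0 z (n 0 z (n
 0 z (n 2 (n 0 z (n 2 (n 0 z (n 0 z (n 0 z (n 0 z (n 0 z (n 0 z z)))))) (n 2 (n 0 z (n 0 z (n 0
 z (n 0 z (n 0 z (n 0 (n 8790283 z z) z)))))) (n 2 (n 0 z (n 0 z (n 0 z (n 0 z (n 0 z (n 0 z
 z)))))) z)))) (n 0 z (n 0 z (n 0 z (n 0 z (n 0 z (n 0 z z))))))))))))) (n 255 (n 0 z (n 0 z (n
 0 z (n 0 z (n 0 z (n 0 z (n 0 z (n 0 z (n 0 z (n 0 z (n 0 z (n 0 z (n 0 z z))))))))))))) (n 253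
 (n 0 z (n 0 z (n 0 z (n 0 z (n 0 z (n 2 (n 0 z (n 0 z z)) (n 0 z (n 0 z (n 0 z (n 0 z
 z)))))))))) (n 253 (n 0 z (n 0 z (n 0 z (n 0 z (n 0 z (n 0 z (n 0 z (n 0 z (n 0 z (n 0 z
 z)))))))))) (n 253 (n 0 z (n 0 z (n 0 z (n 0 z (n 0 z (n 0 z (n 2 z (n 0 z (n 0 z (n 0 z
 z)))))))))) z))))) (n 0 (n 0 z (n 649 (n 0 z (n 0 z (n 0 z (n 0 z (n 0 z (n 0 z (n 0 z (n 0 z
 (n 0 z (n 0 z (n 0 z (n 0 z (n 0 z (n 0 z (n 0 z (n 0 z (n 2 (n 0 z (n 0 z z)) (n 0 z (n 0 z (n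
 0 z (n 0 z (n 0 z (n 0 z (n 0 z (n 0 z (n 0 z (n 0 z (n 0 z (n 0 z (n 0 z (n 0 z (n 0 z
 z)))))))))))))))))))))))))))))))) (n 649 (n 2 (n 0 z z) (n
 0x6276095696265d82c8a35a39ed55576a5687629d29636df72279c86482281e75f7247238a486b71c0041 z (n 0 z
 (n 0 z (n 0 z (n 0 z (n 0 z (n 0 z (n 0 z (n 0 z (n 0 z (n 0 z (n 0 z (n 0 z (n 0 z (n 0 z (n 0
 z (n 0 z (n 0 z (n 0 z (n 0 z (n 0 z (n 0 z (n 0 z (n 0 z (n 0 z (n 0 z (n 0 z (n 0 z (n 0 z (n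
 0 z (n 0 z z)))))))))))))))))))))))))))))))) (n 649 (n 0 z (n 0 z (n 0 z (n 0 z (n 0 z (n 0 z
 (n 0 z (n 0 z (n 0 z (n 0 z (n 0 z (n 0 z (n 0 z (n 0 z (n 0 z (n 0 z (n 0 z (n 0 z (n 0 z (n 0
 z (n 0 z (n 0 z (n 0 z (n 0 z (n 0 z (n 0 z (n 0 z (n 0 z (n 0 z (n 0 z (n 0 z (n 0 z
 z)))))))))))))))))))))))))))))))) z)))) (n 0 (n 25 (n 0 z (n 0 z (n 0 z (n 0 z (n 0 z (n 0 z (n
 0 z (n 0 z (n 0 z (n 0 z (n 0 z (n 0 z (n 0 z (n 0 z (n 0 z (n 0 z (n 0 z (n 0 z (n 0 z (n 0 z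
 (n 0 z (n 0 z (n 0 z (n 0 z (n 0 z (n 0 z z)))))))))))))))))))))))))) (n 25 (n 0 z (n 0 z (n 0
 z (n 0 z (n 0 z (n 0 z (n 0 z (n 0 z (n 0 z (n 0 z (n 0 z (n 0 z (n 0 z (n 0 z (n 0 z (n 0 z (n
 0 z (n 0 z (n 0 z (n 0 z (n 0 z (n 0 z (n 0 z (n 0 z (n 0 z (n 0 z z))))))))))))))))))))))))))
 (n 25 (n 0 z (n 0 z (n 0 z (n 0 z (n 0 z (n 0 z (n 0 z (n 0 z (n 0 z (n 0 z (n 0 z (n 0 z (n 0
 z (n 0 z (n 0 z (n 0 z (n 0 z (n 0 z (n 0 z (n 2 z (n 0 z (n 0 z (n 0 z (n 0 z (n 0 z (n 0 z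
 z)))))))))))))))))))))))))) z))) (n 0 (n 0 z (n 0 z z)) (n 0 (n 0 z z) (n 0 z z))))))))))))))
 (n 0 (n 1 (n 6492195 z (n 6492195 z (n 6636307 z (n 6492195 z (n 6492195 z (n 6492195 z z))))))
 (n 0 z (n 0 z (n 1 (n 2 z (n 2572 z (n 6636307 z (n 6562587 z (n 6632475 z (n 2572 z z)))))) (n
 1 (n 5445131 z (n 6562587 z (n 6636307 z (n 76 z (n 2572 z (n 2572 z z)))))) (n 0 z (n 0 z
 z))))))) (n 0 (n 0x22d855b4231cb4a219b4a300 (n 0 (n 0 (n 7741707 z (n 7741707 z (n 7741707 z (n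
 7741707 z (n 7741707 z (n 7741707 z z)))))) z) (n 0 (n 129 (n 1 (n 2572 z (n 7540771 z (n 2572
 z (n 2572 z (n 2572 z (n 2572 z z)))))) (n 1 (n 7611163 z (n 7540771 z (n 7611163 z (n 7611163
 z (n 7611163 z (n 7611163 z z)))))) (n 0 z (n 0 z (n 1 (n 2 z (n 7540771 z (n 2572 z (n 2572 z
 (n 2572 z (n 2572 z z)))))) (n 1 (n 4396811 z (n 7540771 z (n 4396811 z (n 4396811 z (n 4396811
 z (n 4396811 z z)))))) z)))))) (n 9 (n 1 (n 7680323 z (n 7540771 z (n 7680323 z (n 7680323 z (n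
 7680323 z (n 7680323 z z)))))) (n 1 (n 4392747 z (n 7540771 z (n 4392747 z (n 4392747 z (n
 4392747 z (n 4392747 z z)))))) (n 0 z (n 1 (n 10 z (n 7540771 z (n 2620 z (n 2620 z (n 2620 z
 (n 2620 z z)))))) (n 0 z z))))) (n 33 (n 1 (n 7680323 z (n 7680323 z (n 7684883 z (n 7680323 z
 (n 7680323 z (n 7680323 z z)))))) (n 1 (n 7681051 z (n 7741707 z (n 7684883 z (n 4392747 z (n
 4392747 z (n 4392747 z z)))))) (n 0 z (n 1 (n 5445387 z (n 7611163 z (n 7684883 z (n 76 z (n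
 1228 z (n 1228 z z)))))) (n 0 z z))))) (n 123 (n 1 (n 7540771 z (n 7540771 z (n 7540771 z (n
 7540771 z (n 7540771 z (n 7540771 z z)))))) (n 1 (n 1420 z (n 1420 z (n 1420 z (n 1420 z (n
 0x2a71091a86279e7df85f7a38666de7e38207208de89e7de89f81e7a086275f7df8de7a07637e08600041 z (n
 7673355 z z)))))) (n 0 z (n 1 (n 1420 z (n 460 z (n 7673355 z (n 1420 z (n 1420 z (n 1420 z
 z)))))) (n 1 (n 7540771 z (n 7540771 z (n 7540771 z (n 7540771 z (n 7540771 z (n 7540771 z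
 z)))))) (n 1 (n 7741707 z (n 7741707 z (n 7741707 z (n 7741707 z (n 7741707 z (n 7741707 z
 z)))))) (n 1 (n 7684883 z (n 7684883 z (n 7684883 z (n 7684883 z (n 7684883 z (n 7684883 z
 z)))))) (n 0 z (n 1 (n 1420 z (n 7673355 z (n
 0x2ea8ea82037a182082082182189f81f82081f8207e07e07e182082081f8608217e18607e08208207e08200801 z
 (n 6620987 z (n 1420 z (n 1420 z z)))))) z))))))))) (n 81 (n 1 (n 7607611 z (n 7607611 z (n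
 7684883 z (n 7741707 z (n 7607611 z (n 7607611 z z)))))) (n 1 (n 7540771 z (n 7540771 z (n
 7684883 z (n 7540771 z (n 7540771 z (n 7540771 z z)))))) (n 0 z (n 1 (n 5445387 z (n 7611163 z
 (n 7684883 z (n 18 z (n 1612 z (n 1612 z z)))))) (n 0 z z))))) (n 139 (n 1 (n 7540771 z (n
 7540771 z (n 7540771 z (n 7540771 z (n 7540771 z (n 7540771 z z)))))) (n 1 (n 7684883 z (n
 7684883 z (n 7684883 z (n 7684883 z (n 7684883 z (n 7684883 z z)))))) (n 1 (n 7684883 z (n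
 7684883 z (n 7684883 z (n 7684883 z (n 7684883 z (n 7684883 z z)))))) (n 1 (n 7540771 z (n
 7540771 z (n 7540771 z (n 7540771 z (n 7540771 z (n 7540771 z z)))))) (n 1 (n 2572 z (n 7611163
 z (n 2572 z (n 2572 z (n 2572 z (n
 0xe86e8600785f8208207e18217e18218208208208608208208208208208218207e08608208228207e08200801 z
 z)))))) (n 1 (n 2572 z (n 6489899 z (n 2572 z (n 7611163 z (n 2572 z (n 2572 z z)))))) (n 1 (n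
 7611163 z (n 6493963 z (n 2572 z (n 4396907 z (n 26 z (n 2572 z z)))))) (n 1 (n 7681051 z (n
 7681051 z (n 7681051 z (n 7681051 z (n 6566259 z (n 7681051 z z)))))) (n 1 (n 2572 z (n 2572 z
 (n 2572 z (n 7611163 z (n 6566515 z (n 2604 z z)))))) (n 1 (n 7673355 z (n 7673355 z (n 7673355
 z (n 7673355 z (n 7673355 z (n 7673355 z z)))))) z)))))))))) (n 325 (n 1 (n 7540771 z (n
 7540771 z (n 7684883 z (n 7540771 z (n 7540771 z (n 7540771 z z)))))) (n 0 z (n 0 z (n 1 (n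
 7741707 z (n 7738699 z (n 7684883 z (n 7611163 z (n 7681051 z (n 7738699 z z)))))) (n 1 (n
 5445387 z (n 7611163 z (n 7684883 z (n 76 z (n 2572 z (n 2572 z z)))))) (n 0 z (n 0 z z)))))))
 z))))))) (n 0 (n 0 (n 0 z (n 0 z (n 0 z (n 0 z z)))) (n 0 (n 0 z (n 0 z (n 0 z z))) (n 0 (n 0 z
 (n 0 z z)) (n 0 (n 0 z z) z)))) (n 0 (n 327 (n 0 (n 0 z (n 0 z (n 0 z (n 0 z z)))) (n 0 (n 0 z
 (n 0 z (n 0 z (n 0 z z)))) (n 0 (n 0 (n 8787275 z (n 8664875 z z)) (n 0 (n 8787275 z (n 8787275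
 z z)) (n 0 (n 8787275 z (n 8787275 z z)) (n 0 (n 8787275 z (n 8787275 z z)) z)))) (n 0 (n 0 z
 (n 0 z (n 0 z (n 0 z z)))) (n 0 (n 0 z (n 0 z (n 0 z (n 0 z z)))) (n 0 (n 0 z (n 0 z (n 0 z (n
 0 z z)))) (n 0 (n 0 z (n 0 z (n 0 z (n 0 z z)))) (n 0 (n 0 z (n 0 z (n 0 z (n 0 z z))))
 z)))))))) (n 153 (n 0 (n 0 z (n 0 z (n 0 z (n 0 z z)))) (n 0 (n 0 z (n 0 z (n 0 z (n 0 z z))))
 (n 0 (n 0 z (n 0 z (n 0 z (n 0 z z)))) (n 0 (n 0 z (n 0 z (n 0 z (n 0 z z)))) (n 0 (n 0 z (n 0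
 z (n 0 z (n 0 z z)))) (n 0 (n 0 z (n 0 z (n 0 z (n 0 z z)))) z)))))) (n 33 (n 0 (n 0 z (n 0 z
 (n 0 z (n 0 z z)))) (n 0 (n 0 z (n 0 z (n 0 z (n 0 z z)))) (n 0 (n 0 z (n 0 z (n 0 z (n 0 z
 z)))) (n 0 (n 0 z (n 0 z (n 0 z (n 0 z z)))) (n 0 (n 0 z (n 0 z (n 0 z (n 0 z z)))) z))))) (n
 177 (n 0 (n 0 z (n 0 z (n 0 z (n 0 z z)))) (n 0 (n 0 z (n 0 z (n 0 z (n 0 z z)))) (n 0 (n 0 z
 (n 0 z (n 0 z (n 0 z z)))) (n 0 (n 0 z (n 0 z (n 0 z (n 0 z z)))) (n 0 (n 0 z (n 0 z (n 0 z (n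
 0 z z)))) (n 0 (n 0 z (n 0 z (n 0 z (n 0 z z)))) (n 0 (n 0 z (n 0 z (n 0 z (n 0 z z)))) (n 0 (n
 0 z (n 0 z (n 0 z (n 0 z z)))) (n 0 (n 0 z (n 0 (n 8589347 z z) (n 0 z (n 0 z z)))) (n 0 (n 0 z
 (n 0 z (n 0 z (n 0 z z)))) (n 0 (n 0 z (n 0 (n 8868963 z z) (n 0 z (n 0 z z)))) z))))))))))) (n
 57 (n 0 (n 0 z (n 0 z (n 0 z (n 0 z z)))) (n 0 (n 0 (n 8868963 z z) (n 0 z (n 0 (n 8868963 z z)
 (n 0 (n 8787723 z z) z)))) (n 0 (n 0 z (n 0 z (n 0 z (n 0 z z)))) (n 0 (n 0 z (n 0 z (n 0 z (n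
 0 z z)))) (n 0 (n 0 z (n 0 z (n 0 z (n 0 z z)))) (n 0 (n 0 z (n 0 (n 8589347 z z) (n 0 z (n 0 z
 z)))) (n 0 (n 0 z (n 0 z (n 0 z (n 0 z z)))) (n 0 (n 0 z (n 0 z (n 0 z (n 0 z z)))) (n 0 (n 0 z
 (n 0 (n 8868963 z z) (n 0 z (n 0 z z)))) (n 0 (n 0 z (n 0 z (n 0 z (n 0 z z)))) z)))))))))) (n
 129 (n 0 (n 0 z (n 0 z (n 0 z (n 0 z z)))) (n 0 (n 0 z (n 0 z (n 0 z (n 0 z z)))) (n 0 (n 0 z
 (n 0 z (n 0 z (n 0 z z)))) (n 0 (n 0 z (n 0 z (n 0 z (n 0 z z)))) (n 0 (n 0 z (n 0 z (n 0 z (n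
 0 z z)))) (n 0 (n 0 z (n 0 z (n 0 z (n 0 z z)))) (n 0 (n 0 z (n 0 (n 8791883 z z) (n 0 z (n 0 z
 z)))) (n 0 (n 0 z (n 0 z (n 0 z (n 0 z z)))) (n 0 (n 0 z (n 0 z (n 0 z (n 0 z z)))) (n 0 (n 0 z
 (n 0 (n 8872019 z z) (n 0 z (n 0 z z)))) (n 0 (n 0 z (n 0 z (n 0 (n 8728899 z z) (n 0 z z))))
 (n 0 (n 0 (n 8728899 z z) (n 0 z (n 0 z (n 0 (n 8728899 z z) z)))) (n 0 (n 0 z (n 0 z (n 0 z (n
 0 z z)))) (n 0 (n 0 z (n 0 z (n 0 z (n 0 z z)))) (n 0 (n 0 z (n 0 (n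
 0x328708db8e171e8268626a28e769a7e56a47e19188e27607a17de82282185f7df7a37a286186579e0041 z z) (n
 0 z (n 0 z z)))) (n 0 (n 0 z (n 0 z (n 0 z (n 0 z z)))) (n 0 (n 0 z (n 0 z (n 0 z (n 0 z z))))
 z))))))))))))))))) (n 201 (n 0 (n 0 z (n 0 z (n 0 z (n 0 z z)))) (n 0 (n 0 z (n 0 z (n 0 z (n 0
 z z)))) (n 0 (n 0 z (n 0 z (n 0 z (n 0 z z)))) (n 0 (n 0 z (n 0 z (n 0 z (n 0 z z)))) (n 0 (n 0
 z (n 0 z (n 0 z (n 0 z z)))) (n 0 (n 0 z (n 0 z (n 0 z (n 0 z z)))) (n 0 (n 0 z (n 0 z (n 0 z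
 (n 0 z z)))) (n 0 (n 0 z (n 0 (n 8733459 z (n 8733459 z z)) (n 0 z (n 0 z z)))) z)))))))) (n 81
 (n 0 (n 0 z (n 0 z (n 0 z (n 0 z z)))) (n 0 (n 0 z (n 0 z (n 0 z (n 0 z z)))) (n 0 (n 0 z (n 0
 z (n 0 z (n 0 z z)))) (n 0 (n 0 z (n 0 z (n 0 z (n 0 z z)))) (n 0 (n 0 z (n 0 z (n 0 z (n 0 z
 z)))) z))))) (n 15 (n 0 (n 0 z (n 0 z (n 0 z (n 0 z z)))) (n 0 (n 0 z (n 0 z (n 0 z (n 0 z
 z)))) (n 0 (n 0 z (n 0 z (n 0 z (n 0 z z)))) (n 0 (n 0 z (n 0 z (n 0 z (n 0 z z)))) (n 0 (n 0 z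
 (n 0 z (n 0 z (n 0 z z)))) (n 0 (n 0 z (n 0 (n
 0x70c6ec0a0785a9a266176c81f7e676279a7647a27de79e85c89e8618978e48a079e6df7df7648678e48630801 z
 z) (n 0 z (n 0 z z)))) (n 0 (n 0 z (n 0 z (n 0 z (n 0 z z)))) (n 0 (n 0 z (n 0 z (n 0 z (n 0 z
 z)))) (n 0 (n 0 z (n 0 z (n 0 z (n 0 z z)))) (n 0 (n 0 z (n 0 z (n 0 z (n 0 z z)))) (n 0 (n 0 z
 (n 0 (n 7 (n
 0x843841003800000421420800c00000210a0c4006000001083062007000000831831001800000420a18800c00000210a08400e000001065042007000000841821003800000418c10801c000002086084006000003086842007000002842421001800000a19210800c00000610508400e000005062842007000002821421001800000210a10801c000002104c84006000003062642003000002321321001800000801418850800000400a0c400c00000a0c845c04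
 z (n
 0x2670e90e80070000b5874873001800006439c39800c0006f61d210c00e0001cf0e70860030000ba8438430038000e443a3a1800c0000b61cdd0c00e00017d086e8600300004074374300180001dc3a438800c00008a1ce1c400e0000370e30e20030000dc874841003800094439c20801c0007ca10e10400e00056d0e3082003000144841841001800058c3a3a0801c00057a1cdd0400e0000ad086e8200700017674374100380006d438ba0800c00044a105d04006000272e82e820030000f987483100180002a439c18800c0004ce10e0c40060003db0e30620070004788418310038000f1c18c18800c000a8a1d1cc40060002dd0e6e6200700003184373100380002aba1b98801c0000661c5cc400e000191082e620070000d37417310038000de418b98801c0001fdcc5cc400e00043d0e886200700002f8734310038000e0421a18801c000399d0d0c400e0009770e28620030002858414310018001c43a0a18800c000e920c50c400e00006ee6286200700027a43143100180001200438a053800017c00dc502d400000a006e280c600000400071406280000380038a0014dc00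
 z (n
 0x2c39c39800c0000261ce1c800e0000310e50e400700000e873832001800000c39419000c0000420ca0c800600000f0e6e6400700001e872732003800002c19399001c00002e1ce1c400e00003d0e50e2003000032871871001800004c39c18800c00002a1ca0c400e00001f06506200700000e871831003800014418c18801c00006a1cdcc400e00005b0e4e6200300002183273100180000a399398800c0000b21c5cc4006000035062e62003000009731731003800021439c10801c00003a1ca084006000057065042003000035871821001800008c18c10800c00006e08608400600002d0e6e42003000007872721003800000c19390800c000045cc9c8400e0000210e2e4200700000f831721001800005398b90801c00005a085c8400e000006e42e42003000030873321001800013439190801c0000260c8c8400e000014e64642007000015871321003800009418990801c000031cc4c84006000031042642007000007721321001800001990990800cc400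
 z z))) z) (n 0 z (n 0 z z)))) (n 0 (n 0 z (n 0 z (n 0 z (n 0 z z)))) (n 0 (n 0 z (n 0 z (n 0 (n
 8855603 z z) (n 0 z z)))) (n 0 (n 0 (n 8872019 z z) (n 0 z (n 0 z (n 0 (n 8790283 z z) z)))) (n
 0 (n 0 z (n 0 (n 8872019 z z) (n 0 z (n 0 z z)))) z))))))))))))))) (n 133 (n 0 (n 0 z (n 0 z (n
 0 z (n 0 z z)))) (n 0 (n 0 z (n 0 z (n 0 z (n 0 z z)))) (n 0 (n 0 z (n 0 z (n 0 z (n 0 z z))))
 (n 0 (n 0 z (n 0 z (n 0 z (n 0 z z)))) (n 0 (n 0 z (n 0 z (n 0 z (n 0 z z)))) (n 0 (n 0 z (n 0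
 z (n 0 z (n 0 z z)))) (n 0 (n 0 z (n 0 z (n 0 z (n 0 z z)))) (n 0 (n 0 z (n 0 (n 8872019 z z)
 (n 0 z (n 0 z z)))) (n 0 (n 0 (n 8589347 z z) (n 0 z (n 0 (n 8589347 z z) (n 0 (n 8589347 z z)
 z)))) (n 0 (n 0 z (n 0 (n 8733459 z z) (n 0 z (n 0 z z)))) (n 0 (n 0 z (n 0 z (n 0 z (n 0 z
 z)))) (n 0 (n 0 z (n 0 (n
 0xa87281f8208208208208208617e08208207e086086082082081f82082082082081f82082082081f0041 z (n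
 0xa87285f82081f7e18208208227e082181e7e086085f82082081f8208208208208207e08208208200041 z z)) (n
 0 z (n 0 z z)))) (n 0 (n 0 z (n 0 (n 8733459 z (n 8733459 z z)) (n 0 z (n 0 z z))))
 z))))))))))))) (n 321 (n 0 (n 0 z (n 0 z (n 0 z (n 0 z z)))) (n 0 (n 0 z (n 0 z (n 0 z (n 0 z
 z)))) (n 0 (n 0 z (n 0 z (n 0 z (n 0 z z)))) (n 0 (n 0 z (n 0 z (n 0 z (n 0 z z)))) (n 0 (n 0 z
 (n 0 z (n 0 z (n 0 z z)))) (n 0 (n 0 z (n 0 z (n 0 z (n 0 z z)))) (n 0 (n 0 z (n 0 (n 8589347 z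
 z) (n 0 z (n 0 z z)))) (n 0 (n 0 z (n 0 z (n 0 z (n 0 z z)))) (n 0 (n 0 z (n 0 z (n 0 z (n 0 z
 z)))) (n 0 (n 0 z (n 0 z (n 0 z (n 0 z z)))) (n 0 (n 0 z (n 0 (n 8868963 z z) (n 0 z (n 0 z
 z)))) (n 0 (n 0 z (n 0 z (n 0 (n 8589347 z z) (n 0 z z)))) (n 0 (n 0 z (n 0 z (n 0 z (n 0 z
 z)))) z))))))))))))) (n 325 (n 0 (n 0 z (n 0 z (n 0 z (n 0 z z)))) (n 0 (n 0 z (n 0 z (n 0 z (n
 0 z z)))) (n 0 (n 0 z (n 0 z (n 0 z (n 0 z z)))) (n 0 (n 0 z (n 0 z (n 0 z (n 0 z z)))) (n 0 (n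
 0 z (n 0 (n
 0xa87481f8208208208208208617e08208207e086086082082081f82082082082081f82082082081f0041 z (n
 0x150e80283089e86181f7e18607e08637a17e07e07df85f86086082081f7e08208208218207e07e08208200081 z
 z)) (n 0 z (n 0 z z)))) (n 0 (n 0 z (n 0 (n
 0xa87485f82081f7e18208208227e082181e7e086085f82082081f8208208208208207e08208208200041 z (n
 7546971 z z)) (n 0 z (n 0 z z)))) (n 0 (n 0 z (n 0 z (n 0 z (n 0 z z)))) (n 0 (n 0 z (n 0 z (n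
 0 z (n 0 z z)))) (n 0 (n 0 z (n 0 z (n 0 (n 8855603 z z) (n 0 z z)))) (n 0 (n 0 z (n 0 z (n 0 z
 (n 0 z z)))) (n 0 (n 0 z (n 0 z (n 0 z (n 0 z z)))) (n 0 (n 0 z (n 0 z (n 0 z (n 0 z z)))) (n 0
 (n 0 z (n 0 z (n 0 z (n 0 z z)))) (n 0 (n 0 z (n 0 z (n 0 z (n 0 z z)))) (n 0 (n 0 (n 8721931 z
 z) (n 0 z (n 0 z (n 0 (n 8721931 z z) z)))) (n 0 (n 0 z (n 0 z (n 0 z (n 0 z z)))) (n 0 (n 0 (n
 0x6287495696265d82c8a35a39ed55576a5687629d29636df72279c86482281e75f7247238a486b71c0041 z (n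
 8730379 z z)) (n 0 (n
 0x2a87491a86279e7df85f7a38666de7e38207208de89e7de89f81e7a086275f7df8de7a07637e08600041 z (n
 8791883 z z)) (n 0 (n
 0xa87385f82081f7e18208208227e082181e7e086085f82082081f8208208208208207e08208208200041 z (n
 0xa1cc030e60184282081f82082082082082181f82082082082082082082185f8208607df8208207e081f82082000c1
 z z)) (n 0 (n 8852539 z (n 8787723 z z)) z)))) (n 0 (n 0 z (n 0 z (n 0 z (n 0 z z)))) (n 0 (n 0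
 z (n 0 z (n 0 z (n 0 z z)))) (n 0 (n 0 z (n 0 (n 8589347 z z) (n 0 z (n 0 z z)))) (n 0 (n 0 z
 (n 0 z (n 0 z (n 0 z z)))) (n 0 (n 0 z (n 0 z (n 0 z (n 0 z z)))) (n 0 (n 0 z (n 0 z (n 0 z (n
 0 z z)))) (n 0 (n 0 z (n 0 (n 8728899 z z) (n 0 z (n 0 z z)))) (n 0 (n 0 z (n 0 z (n 0 (n
 8868963 z z) (n 0 z z)))) (n 0 (n 0 z (n 0 z (n 0 (n 8589347 z (n 8589347 z z)) (n 0 z z)))) (n
 0 (n 0 z (n 0 z (n 0 (n 8589347 z (n 8589347 z z)) (n 0 z z)))) (n 0 (n 0 (n 8728899 z (n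
 8728899 z z)) (n 0 z (n 0 z (n 0 (n 8728899 z (n 8728899 z z)) z)))) (n 0 (n 0 z (n 0 z (n 0 z
 (n 0 z z)))) (n 0 (n 0 z (n 0 z (n 0 z (n 0 z z)))) (n 0 (n 0 z (n 0 (n 8589347 z z) (n 0 z (n
 0 z z)))) (n 0 (n 0 z (n 0 z (n 0 z (n 0 z z)))) (n 0 (n 0 z (n 0 z (n 0 z (n 0 z z)))) (n 0 (n
 0 z (n 0 z (n 0 (n 8589347 z z) (n 0 z z)))) (n 0 (n 0 z (n 0 z (n 0 z (n 0 z z)))) (n 0 (n 0 z
 (n 0 z (n 0 z (n 0 z z)))) (n 0 (n 0 z (n 0 z (n 0 (n 8855603 z z) (n 0 z z)))) (n 0 (n 0 z (n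
 0 z (n 0 z (n 0 z z)))) (n 0 (n 0 (n
 0xa87481f8208208208208208617e08208207e086086082082081f82082082082081f82082082081f0041 z z) (n 0
 z (n 0 z (n 0 (n 8656747 z z) z)))) (n 0 (n 0 z (n 0 (n
 0x2a87491a86279e7df85f7a38666de7e38207208de89e7de89f81e7a086275f7df8de7a07637e08600041 z z) (n
 0 z (n 0 z z)))) (n 0 (n 0 (n
 0x70e65ca1cc90c399218608b67956761817ec37887717c74ae754f7697519176866f81a16b8b8b85969f689e826d7e797b6066848f628b65a99e9b807b0109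
 z z) (n 0 z (n 0 z (n 0 (n 8656747 z z) z)))) (n 0 (n 0 z (n 0 z (n 0 z (n 0 z z)))) (n 0 (n 0
 (n 8721931 z (n 8721931 z z)) (n 0 (n 8721931 z (n 8721931 z z)) (n 0 (n 8721931 z (n 8721931 z
 z)) (n 0 (n 8721931 z (n 8721931 z z)) z)))) (n 0 (n 0 z (n 0 z (n 0 (n 8721931 z (n 8721931 z
 z)) (n 0 z z)))) (n 0 (n 0 z (n 0 (n 8721931 z (n 8721931 z z)) (n 0 z (n 0 z z)))) (n 0 (n 0 z
 (n 0 z (n 0 z (n 0 z z)))) z)))))))))))))))))))))))))))))))))))))))))))))) (n 21 (n 0 (n 0 z (n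
 0 z (n 0 z (n 0 z z)))) (n 0 (n 0 z (n 0 z (n 0 z (n 0 z z)))) (n 0 (n 0 z (n 0 z (n 0 z (n 0 z
 z)))) (n 0 (n 0 z (n 0 z (n 0 z (n 0 z z)))) (n 0 (n 0 z (n 0 z (n 0 z (n 0 z z)))) (n 0 (n 0 z
 (n 0 z (n 0 (n 8790283 z z) (n 0 z z)))) (n 0 (n 0 z (n 0 z (n 0 z (n 0 z z)))) (n 0 (n 0 z (n
 0 z (n 0 z (n 0 z z)))) (n 0 (n 0 z (n 0 z (n 0 z (n 0 z z)))) (n 0 (n 0 z (n 0 z (n 0 (n
 8855603 z z) (n 0 z z)))) (n 0 (n 0 (n 8733459 z z) (n 0 z (n 0 z (n 0 (n 8733459 z z) z)))) (n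
 0 (n 0 z (n 0 (n 8728899 z (n 8728899 z z)) (n 0 z (n 0 z z)))) (n 0 (n 0 z (n 0 z (n 0 z (n 0
 z z)))) (n 0 (n 0 z (n 0 z (n 0 z (n 0 z z)))) (n 0 (n 0 z (n 0 z (n 0 z (n 0 z z)))) (n 0 (n 0
 z (n 0 z (n 0 (n 8868963 z z) (n 0 z z)))) (n 0 (n 0 z (n 0 z (n 0 z (n 0 z z)))) (n 0 (n 0 z
 (n 0 z (n 0 z (n 0 z z)))) (n 0 (n 0 z (n 0 z (n 0 z (n 0 z z)))) (n 0 (n 0 z (n 0 z (n 0 z (n
 0 z z)))) (n 0 (n 0 z (n 0 z (n 0 z (n 0 z z)))) (n 0 (n 0 z (n 0 z (n 0 z (n 0 z z)))) (n 0 (n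
 0 (n 8733459 z z) (n 0 z (n 0 z (n 0 (n 8733459 z z) z)))) (n 0 (n 0 (n 8733459 z z) (n 0 z (n
 0 z (n 0 (n 8860163 z z) z)))) (n 0 (n 0 z (n 0 z (n 0 z (n 0 z z)))) (n 0 (n 0 z (n 0 (n
 8729627 z (n 8730379 z z)) (n 0 z (n 0 z z)))) (n 0 (n 0 z (n 0 (n 8721931 z z) (n 0 z (n 0 z
 z)))) (n 0 (n 0 z (n 0 z (n 0 z (n 0 z z)))) (n 0 (n 0 z (n 0 (n 8733459 z z) (n 0 z (n 0 z
 z)))) (n 0 (n 0 z (n 0 z (n 0 z (n 0 z z)))) (n 0 (n 0 z (n 0 z (n 0 z (n 0 z z)))) (n 0 (n 0 z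
 (n 0 z (n 0 z (n 0 z z)))) (n 0 (n 0 z (n 0 z (n 0 z (n 0 z z)))) (n 0 (n 0 (n
 0xa87481f8208208208208208617e08208207e086086082082081f82082082082081f82082082081f0041 z (n
 8730379 z z)) (n 0 (n
 0x2a86391a86279e7df85f7a38666de7e38207208de89e7de89f81e7a086275f7df8de7a07637e08600041 z (n
 8791883 z z)) (n 0 (n
 0xa87385f82081f7e18208208227e082181e7e086085f82082081f8208208208208207e08208208200041 z (n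
 0x2a1cc030e60986382081f86082182081f8227e082081e82082185f82182185f8208207a082081f7e182082082000c1
 z z)) (n 0 (n 8851555 z (n 8851555 z z)) z)))) (n 0 (n 0 z (n 0 z (n 0 z (n 0 z z))))
 z))))))))))))))))))))))))))))))))))) (n 139 (n 0 (n 0 z (n 0 z (n 0 z (n 0 z z)))) (n 0 (n 0 z
 (n 0 z (n 0 z (n 0 z z)))) (n 0 (n 0 z (n 0 z (n 0 z (n 0 z z)))) (n 0 (n 0 z (n 0 z (n 0 z (n
 0 z z)))) (n 0 (n 0 z (n 0 z (n 0 z (n 0 z z)))) (n 0 (n 0 z (n 0 z (n 0 z (n 0 z z)))) (n 0 (n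
 0 z (n 0 z (n 0 z (n 0 z z)))) (n 0 (n 0 z (n 0 z (n 0 z (n 0 z z)))) (n 0 (n 0 z (n 0 (n
 8868963 z z) (n 0 z (n 0 z z)))) (n 0 (n 0 z (n 0 (n 8721931 z z) (n 0 z (n 0 z z))))
 z)))))))))) (n 18 (n 0 (n 0 z (n 0 z (n 0 z (n 0 z z)))) (n 0 (n 0 z (n 0 (n
 0x2a81089b8a175f8258617218e56db7e47247e189b8a17607e17df82282181f7df7a17a17e286479f0041 z (n
 0x328108db8e275f8268a16e18a769a7e56a47e18d98e17a17e181e82282185f79f7a176186186579e0041 z z)) (n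
 0 z (n 0 z z)))) (n 0 (n 0 z (n 0 z (n 0 z (n 0 z z)))) (n 0 (n 0 z (n 0 (n 8855603 z z) (n 0 z
 (n 0 z z)))) (n 0 (n 0 z (n 0 z (n 0 z (n 0 z z)))) (n 0 (n 0 z (n 0 z (n 0 (n 8855603 z z) (n
 0 z z)))) (n 0 (n 0 z (n 0 z (n 0 z (n 0 z z)))) (n 0 (n 0 z (n 0 z (n 0 z (n 0 z z)))) (n 0 (n
 0 z (n 0 z (n 0 (n 8855603 z (n 8855603 z z)) (n 0 z z)))) (n 0 (n 0 z (n 0 z (n 0 z (n 0 z
 z)))) (n 0 (n 0 z (n 0 z (n 0 z (n 0 z z)))) (n 0 (n 0 z (n 0 z (n 0 z (n 0 z z)))) (n 0 (n 0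
 (n
 0x43ab99300c0875731601830ed0c460781f8228208208207e18607e082082182086082082082082082082082081f8208608208208211801
 z (n 8730379 z z)) (n 0 (n
 0x30ed0ec6038207e081e8208208208207a07a08208218217e081e8208608208608207e082086081f7e08210801 z
 (n
 0x70e65ca1cc90c399218108b67956761817ec37887717c74ae754f7697519176866f81a16b8b8b85969f689e826d7e797b6066848f628b65a99e9b807b0109
 z z)) (n 0 (n
 0x2b0e4148728218208a08208607e082189f8618208208227df8217a27a082081f8608207e082081f7e08210081 z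
 (n 0x1a8728607a29617998df8e18a082879b8df8a089e8a19608207a07e391f8998a475a8218577dc79e0041 z z))
 (n 0 (n 8848923 z (n 8787723 z z)) z)))) (n 0 (n 0 (n 8868963 z (n 8868963 z z)) (n 0 z (n 0 z
 (n 0 (n 0xa87181f8208208208208208617e08208207e086086082082081f82082082082081f82082082081f0041 z
 (n 7747659 z z)) z)))) (n 0 (n 0 z (n 0 (n 8868963 z (n 8868963 z z)) (n 0 z (n 0 z z)))) (n 0
 (n 0 z (n 0 (n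
 0x21d5cc9806042a398b01c1876862303810c70c640381f82281f8608207e082086082082082082082082082086181f8208208207e086082081f8202001
 z (n 8730379 z z)) (n 0 z (n 0 z z)))) (n 0 (n 0 z (n 0 z (n 0 z (n 0 z z)))) (n 0 (n 0 z (n 0
 z (n 0 z (n 0 z z)))) (n 0 (n 0 z (n 0 z (n 0 z (n 0 z z)))) (n 0 (n 0 z (n 0 z (n 0 z (n 0 z
 z)))) (n 0 (n 0 z (n 0 z (n 0 z (n 0 z z)))) (n 0 (n 0 z (n 0 (n 8659739 z z) (n 0 z (n 0 z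
 z)))) (n 0 (n 0 z (n 0 z (n 0 z (n 0 z z)))) (n 0 (n 0 z (n 0 (n
 0xa87385f82081f7e18208208227e082181e7e086085f82082081f8208208208208207e08208208200041 z (n
 8730379 z z)) (n 0 z (n 0 z z)))) (n 0 (n 0 z (n 0 (n
 0x250620283089e86181f7e18207e08647a07e17e07df85f85f82086081e7e08207df8208207e07df7e081f0081 z
 z) (n 0 z (n 0 z z)))) (n 0 (n 0 z (n 0 (n 8733459 z z) (n 0 z (n 0 z z))))
 z)))))))))))))))))))))))))) (n 321 (n 0 (n 0 z (n 0 z (n 0 z (n 0 z z)))) (n 0 (n 0 z (n 0 z (n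
 0 z (n 0 z z)))) (n 0 (n 0 z (n 0 z (n 0 z (n 0 z z)))) (n 0 (n 0 z (n 0 z (n 0 z (n 0 z z))))
 (n 0 (n 0 z (n 0 z (n 0 z (n 0 z z)))) (n 0 (n 0 z (n 0 z (n 0 z (n 0 z z)))) (n 0 (n 0 z (n 0
 z (n 0 z (n 0 z z)))) (n 0 (n 0 z (n 0 z (n 0 (n 8589347 z z) (n 0 z z)))) z)))))))) (n 325 (n
 0 (n 0 z (n 0 z (n 0 z (n 0 z z)))) (n 0 (n 0 z (n 0 z (n 0 z (n 0 z z)))) (n 0 (n 0 z (n 0 z
 (n 0 z (n 0 z z)))) (n 0 (n 0 z (n 0 z (n 0 z (n 0 z z)))) (n 0 (n 0 z (n 0 z (n 0 z (n 0 z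
 z)))) (n 0 (n 0 z (n 0 z (n 0 z (n 0 z z)))) (n 0 (n 0 z (n 0 z (n 0 (n 8589347 z z) (n 0 z
 z)))) z))))))) (n 9 (n 0 (n 0 z (n 0 (n
 0xa87385f82081f7e18208208227e082181e7e086085f82082081f8208208208208207e08208208200041 z (n
 0x2a81091a86279e7df85f7a38666de7e38207208de89e7de89f81e7a086275f7df8de7a07637e08600041 z z)) (n
 0 z (n 0 z z)))) (n 0 (n 0 z (n 0 z (n 0 z (n 0 z z)))) (n 0 (n 0 z (n 0 z (n 0 z (n 0 z z))))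
 (n 0 (n 0 z (n 0 z (n 0 z (n 0 z z)))) (n 0 (n 0 z (n 0 z (n 0 z (n 0 z z)))) (n 0 (n 0 z (n 0
 z (n 0 z (n 0 z z)))) (n 0 (n 0 z (n 0 z (n 0 z (n 0 z z)))) (n 0 (n 0 z (n 0 (n 7673899 z (n
 0xa87485f82081f7e18208208227e082181e7e086085f82082081f8208208208208207e08208208200041 z z)) (n
 0 z (n 0 z z)))) (n 0 (n 0 z (n 0 z (n 0 z (n 0 z z)))) (n 0 (n 0 z (n 0 z (n 0 z (n 0 z z))))
 (n 0 (n 0 z (n 0 z (n 0 z (n 0 z z)))) (n 0 (n 0 z (n 0 (n 8730379 z (n 8787275 z z)) (n 0 z (n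
 0 z z)))) z)))))))))))) (n 123 (n 0 (n 0 z (n 0 z (n 0 z (n 0 z z)))) (n 0 (n 0 z (n 0 z (n 0 z
 (n 0 z z)))) (n 0 (n 0 z (n 0 z (n 0 z (n 0 z z)))) (n 0 (n 0 z (n 0 z (n 0 z (n 0 z z)))) (n 0
 (n 0 z (n 0 z (n 0 z (n 0 z z)))) (n 0 (n 0 z (n 0 z (n 0 z (n 0 z z)))) (n 0 (n 0 (n 8733459 z
 z) (n 0 z (n 0 z (n 0 (n 8860163 z z) z)))) (n 0 (n 0 z (n 0 z (n 0 z (n 0 z z)))) (n 0 (n 0 z
 (n 0 z (n 0 z (n 0 z z)))) z))))))))) (n 1 (n 0 (n 0 z (n 0 z (n 0 z (n 0 z z)))) (n 0 (n 0 z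
 (n 0 z (n 0 z (n 0 z z)))) (n 0 (n 0 z (n 0 z (n 0 z (n 0 z z)))) (n 0 (n 0 z (n 0 z (n 0 z (n
 0 z z)))) (n 0 (n 0 z (n 0 z (n 0 z (n 0 z z)))) (n 0 (n 0 z (n 0 z (n 0 z (n 0 z z)))) (n 0 (n
 0 z (n 0 z (n 0 z (n 0 z z)))) z))))))) (n 0 (n 0 (n 0 z (n 0 z (n 0 z (n 0 z z)))) (n 0 (n 0 z
 (n 0 z (n 0 z (n 0 z z)))) (n 0 (n 0 z (n 0 z (n 0 z (n 0 z z)))) (n 0 (n 0 z (n 0 z (n 0 z (n
 0 z z)))) (n 0 (n 0 z (n 0 z (n 0 z (n 0 z z)))) (n 0 (n 0 z (n 0 z (n 0 z (n 0 z z)))) (n 0 (n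
 0 z (n 0 z (n 0 z (n 0 z z)))) (n 0 (n 0 z (n 0 z (n 0 z (n 0 z z)))) (n 0 (n 0 z (n 0 z (n 0 z
 (n 0 z z)))) (n 0 (n 0 z (n 0 z (n 0 z (n 0 z z)))) (n 0 (n 0 z (n 0 z (n 0 z (n 0 z z)))) (n 0
 (n 0 z (n 0 z (n 0 z (n 0 z z)))) (n 0 (n 0 z (n 0 z (n 0 z (n 0 z z)))) (n 0 (n 0 z (n 0 (n
 8791883 z z) (n 0 z (n 0 z z)))) (n 0 (n 0 z (n 0 (n 8729627 z (n 8729627 z z)) (n 0 z (n 0 z
 z)))) (n 0 (n 0 z (n 0 z (n 0 z (n 0 z z)))) (n 0 (n 0 z (n 0 z (n 0 z (n 0 z z)))) (n 0 (n 0 z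
 (n 0 z (n 0 z (n 0 z z)))) (n 0 (n 0 z (n 0 z (n 0 z (n 0 z z)))) (n 0 (n 0 (n 8791883 z z) (n
 0 z (n 0 z (n 0 (n
 0xb18710dc3840a1c2a30e0a57109e090d6676ed4d175973dc1449d2e22d3772e8cb6796ac9d71e55ac5584ede745f49cb12b6d0141
 z z) z)))) (n 0 (n 0 z (n 0 (n 8791883 z z) (n 0 z (n 0 z z)))) (n 0 (n 0 z (n 0 z (n 0 z (n 0
 z z)))) (n 0 (n 0 z (n 0 z (n 0 z (n 0 z z)))) (n 0 (n 0 z (n 0 z (n 0 z (n 0 z z)))) (n 0 (n 0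
 z (n 0 z (n 0 z (n 0 z z)))) (n 0 (n 0 z (n 0 z (n 0 z (n 0 z z)))) (n 0 (n 0 (n 8733459 z z)
 (n 0 z (n 0 z (n 0 (n 8733459 z z) z)))) (n 0 (n 0 z (n 0 z (n 0 z (n 0 z z)))) (n 0 (n 0 z (n
 0 (n 0xa87481f8208208208208208617e08208207e086086082082081f82082082082081f82082082081f0041 z (n
 0x250620283089e86181f7e18207e08647a07e17e07df85f85f82086081e7e08207df8208207e07df7e081f0081 z
 z)) (n 0 z (n 0 z z)))) z))))))))))))))))))))))))))))) z))))))))))))))))))))) z)))) z) z)))) (n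
 0x3ae9711747489abc70d163a884bcc438eb80 (n 0 (n 153 (n 0 z (n 0 z (n 0 z (n 0 z (n 6496275 z (n
 2 z z)))))) (n 33 (n 10 z (n 0 z (n 0 z (n 0 z (n 0 z (n 0 z (n 0 z (n 0 z (n 6496515 z (n 0 z
 (n 18 z z))))))))))) (n 9 (n 0 z (n
 0x2ca6a2080780818080837f807d817f817d808080808081817e837f817f808281817f80817e807c8380807f7f817f81827f808080807f800809
 z (n 6496523 z (n
 0xca8a8060780808280817f818081807f7d808081818080807f81808180807f827f81807f817f80807f818080807f7f8080817f807f80810809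
 z (n 0 z (n 0 z (n 0 z (n 0 z (n 0 z (n 0 z (n 0 z (n 0 z (n 0 z (n 6496515 z (n 0 z (n 6496515
 z (n 0 z (n 0 z (n 0 z (n 0 z (n 26 z (n 0 z (n 0 z (n 0 z (n 0 z (n 0 z (n 0 z (n 0 z (n 0 z
 z))))))))))))))))))))))))))))) (n 243 (n 6496523 z (n 0 z (n 0 z (n 34 z (n 42 z (n 0 z (n 0 z
 (n 0 z (n 6496515 z (n 0 z z)))))))))) (n 121 (n
 0x1590c84140606ca4ca06030365451030380329b18101c0594d94040e00ca8a602077c7e83699f7f8c79887d8a7e7d7c946c687f8b74887d7f89805599929a877d7c857c7c857981807f8a768471728e88777f883009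
 z (n 0 z (n
 0x6c86420a07808080807f81807f827e7f7e82808280817f837f807f807f80857a827d82807e7d7d837f817f7f817f847e82807e8081807f0809
 z (n 0 z (n 0 z (n 0 z (n 3212875 z (n 6558219 z (n 0 z (n
 0xca6ca6407817e828081807f808080807d808280808081817f81818180807f817f80807f80807f807f81808080808080808180808080810809
 z (n 6558219 z (n 0 z z)))))))))))) (n 0 (n 50 z (n 0 z (n 2164315 z (n 0 z (n 0 z z)))))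
 z)))))) (n 0 (n 0 (n 983 (n 0 z (n 0 z (n 0 z (n 0 z (n 2 (n 0 z (n 1 z (n 2 (n 0 z (n 0 z (n 0
 z (n 0 z (n 0 z (n 0 z z)))))) (n 2 (n 0 z (n 0 (n 8799515 z z) (n 0 z (n 0 z (n 0 z (n 0 z
 z)))))) (n 2 (n 0 z (n 0 (n 8873267 z z) (n 0 z (n 0 z (n 0 z (n 0 z z)))))) z))))) (n 0 z
 z)))))) (n 983 (n 0 z (n 0 z (n 0 z (n 0 z (n 0 z (n 0 z z)))))) (n 369 (n 0 z (n 0 z (n 0 z (n
 0 z (n 0 z (n 0 z (n 0 z (n 0 z (n 0 z (n 0 z (n 0 z (n 0 z (n 0 z (n 0 z (n 0 z (n 0 z (n 0 z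
 (n 0 z (n 0 z (n 0 z (n 0 z (n 0 z (n 0 z (n 0 z (n 0 z (n 0 z (n 0 z (n 0 z (n 0 z (n 0 z (n 0
 z (n 0 z z)))))))))))))))))))))))))))))))) (n 561 (n 2 (n 0 z (n 1 z z)) (n 0 z (n 0 z (n 0 z
 (n 0 z (n 0 z (n 0 z (n 0 z (n 0 z z))))))))) (n 561 (n 0 z (n 0 z (n 0 z (n 0 z (n 0 z (n 0 z
 (n 0 z (n 0 z (n 0 z z))))))))) (n 305 (n 0 z (n 0 z (n 0 z (n 0 z (n 0 z (n 0 z (n 0 z
 z))))))) z)))))) (n 0 (n 0 z (n 471 (n 0 z (n 0 z (n 0 z (n 2 (n 2 (n 0 z (n 0 (n 8587115 z z)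
 (n 0 z (n 0 z (n 0 z (n 0 z z)))))) (n 1 z (n 1 z z))) z)))) (n 507 (n 0 z (n 0 z (n 0 z (n 0 z
 (n 0 z (n 0 z (n 0 z (n 0 z (n 0 z (n 0 z (n 0 z (n 0 z (n 0 z (n 0 z (n 0 z (n 0 z (n 2 (n 0 z
 (n 2 (n 0 z (n 0 z (n 0 z (n 0 z (n 0 z (n 0 z z)))))) z)) (n 0 z (n 0 z (n 0 z (n 0 z (n 0 z
 z)))))))))))))))))))))) (n 507 (n 0 z (n 0 z (n 0 z (n 0 z (n 0 z (n 0 z (n 0 z (n 0 z (n 0 z
 (n 0 z (n 0 z (n 0 z (n 0 z (n 0 z (n 0 z (n 0 z (n 0 z (n 0 z (n 2 (n 2 (n 0 z (n 0 (n 2164859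
 z z) (n 0 z (n 0 z (n 0 z (n 0 z z)))))) z) (n 0 z (n 0 z (n 0 z z)))))))))))))))))))))) (n 65
 (n 0 z (n 0 z (n 0 z (n 2 z (n 0 z (n 0 z (n 0 z (n 0 z (n 0 z z))))))))) z))))) (n 0 (n 1019
 (n 0 z (n 0 z (n 0 z (n 0 z (n 0 z (n 0 z (n 0 z (n 0 z (n 0 z (n 0 z (n 0 z (n 0 z (n 0 z (n 0
 z (n 0 z (n 0 z (n 0 z (n 0 z (n 0 z (n 0 z (n 0 z (n 0 z (n 0 z (n 0 z (n 0 z (n 0 z
 z)))))))))))))))))))))))))) (n 513 (n 0 z (n 0 z (n 0 z (n 0 z (n 0 z (n 0 z (n 0 z z))))))) (n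
 513 (n 0 z (n 0 z (n 0 z (n 0 z (n 0 z (n 0 z (n 0 z z))))))) (n 65 (n 0 z (n 0 z (n 0 z (n 0 z
 (n 0 z (n 0 z (n 0 z (n 0 z (n 0 z (n 0 z (n 0 z z))))))))))) z)))) (n 0 (n 1059 (n 0 z (n 0 z
 (n 0 z (n 2 (n 0 z (n 1 z z)) (n 0 z (n 0 z z)))))) (n 1059 (n 0 z (n 0 z (n 0 z (n 0 z (n 0 z
 (n 0 z z)))))) (n 17 (n 0 z (n 0 z (n 0 z (n 0 z (n 0 z (n 0 z (n 0 z (n 0 z z)))))))) z))) (n
 0 (n 0 z (n 485 (n 0 z (n 0 z (n 0 z (n 0 z (n 0 z (n 0 z (n 0 z (n 0 z (n 0 z (n 0 z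
 z)))))))))) z)) (n 0 (n 53 (n 0 z (n 0 z (n 0 z (n 0 z (n 0 z (n 0 z (n 0 z (n 0 z (n 0 z (n 0
 z z)))))))))) z) (n 0 z z))))))) (n 0 (n 1 (n 6427979 z (n 1228 z (n 1228 z (n 1228 z (n 1228 z
 (n 972 z z)))))) (n 0 z (n 1 (n 2164315 z (n 2164315 z (n 2164315 z (n 6427979 z (n 2164315 z
 (n 2164315 z z)))))) (n 0 z (n 0 z z))))) (n 0 z z)))) (n 0x264e5d81699383ca5c433b42c0 (n 0 (n
 525 (n 6561811 z (n 0 z (n 2 z z))) (n 33 (n 0 z (n 6496515 z (n 0 z (n 10 z (n 0 z (n 0 z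
 z)))))) (n 9 (n 18 z (n 6496323 z (n 0 z (n 0 z (n 6496515 z (n 0 z (n 0 z (n 0 z (n 0 z (n 0 z
 (n 0 z (n 0 z (n 0 z (n 0 z (n 0 z (n 0 z (n 0 z z))))))))))))))))) (n 147 (n 0 z (n 0 z (n
 0x2c84c840037a08208208208208208208208208207e082082082082082081f8208208208208208208208200801 z
 (n 0 z (n 6496515 z (n 0 z (n 0 z (n 0 z (n 0 z (n 0 z (n 6496515 z (n 26 z z)))))))))))) (n 1
 (n 6561811 z (n 0 z (n 0 z (n 0 z (n 0 z (n 0 z (n 0 z (n 0 z (n 0 z (n 0 z (n 0 z z)))))))))))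
 (n 0 (n 6636323 z (n 0 z (n 0 z (n 0 z (n 0 z (n 0 z (n 0 z (n 0 z (n 0 z (n 0 z (n 0 z (n 0 z
 (n 34 z (n 0 z (n 0 z (n 0 z (n
 0x2c86c864037a28207e082082081f8207e08208218208208208208208218208208208208208208208208200801 z
 (n 0 z (n 0 z (n 0 z (n 0 z (n 0 z (n 0 z (n 0 z (n 0 z (n 0 z (n 0 z (n 0 z (n 0 z (n 0 z (n 0
 z z))))))))))))))))))))))))))))))) z)))))) (n 525 (n 0 (n 1185 (n 0 z (n 0 z (n 0 z (n 0 z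
 z)))) (n 1053 (n 0 z (n 0 z (n 0 z (n 0 z z)))) (n 1049 (n 0 z (n 0 z (n 0 z (n 0 z (n 0 z
 z))))) (n 317 (n 0 z (n 0 z (n 0 z (n 0 z (n 0 z (n 0 z z)))))) z)))) (n 0 (n 123 (n 0 z (n 0 z
 (n 0 z (n 0 z (n 0 z (n 0 z (n 0 z z))))))) (n 487 (n 0 z (n 0 z (n 0 z (n 0 z (n 0 z z))))) (n
 61 (n 0 z (n 0 z (n 0 z (n 0 z (n 0 z z))))) z))) (n 0 (n 1181 (n 0 z (n 0 z (n 0 z (n 0 z (n 0
 z (n 0 z (n 0 z z))))))) (n 17 (n 0 z (n 0 z (n 0 z (n 0 z (n 0 z z))))) z)) (n 0 (n 481 (n 0 z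
 (n 0 z (n 0 z (n 0 z (n 0 z (n 0 z (n 0 z (n 0 z (n 0 z (n 0 z z)))))))))) z) (n 0 z z))))) (n
 0 (n 1 (n 6496515 z (n 6561811 z (n 6561811 z (n 6561811 z (n 6561811 z (n 6561811 z z)))))) (n
 0 z (n 1 (n 6496515 z (n 268 z (n 268 z (n 268 z (n 268 z (n 268 z z)))))) z))) (n 0 z z)))) (n
 0x1aa04a (n 0 (n 585 (n 0 z (n 0 z (n 0 z (n 6426691 z (n 0 z (n 0 z (n 0 z z))))))) (n 39 (n 0
 z (n 0 z (n 0 z (n 6426691 z (n 0 z (n 0 z (n 0 z z))))))) (n 129 (n 0 z (n 6636051 z (n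
 6636051 z (n 2 z (n 0 z z))))) (n 3 (n 0 z (n 0 z (n 0 z (n 2164283 z (n 0 z (n 0 z z)))))) (n
 127 (n 0 z (n 6636051 z (n 0 z (n 0 z (n 0 z (n 0 z (n 0 z (n 0 z (n 0 z (n 0 z z)))))))))) (n
 0 (n 0 z (n 6636051 z (n 0 z (n 0 z (n 0 z z))))) z)))))) (n 129 (n 0 z z) (n 0 (n 0 z (n 1 (n
 6636051 z (n 6636051 z (n 6636051 z (n 6636051 z (n 6636051 z (n 6636051 z z)))))) (n 1 (n
 6636051 z (n 6636051 z (n 6636051 z (n 6636051 z (n 6636051 z (n 6636051 z z)))))) (n 1 (n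
 6554139 z (n 4684 z (n 4684 z (n 4684 z (n 4684 z (n 4331067 z z)))))) (n 0 z z))))) (n 0 z
 z)))) (n 0x15c419 (n 0 (n 549 (n 6557731 z (n 0 z (n 0 z (n 6557731 z (n 0 z (n 0 z z)))))) (n
 547 (n 6496515 z (n 6496515 z (n 0 z (n 0 z (n 2 z z))))) (n 9 (n 0 z (n 6496515 z (n 0 z (n 0
 z (n 0 z (n 0 z (n 0 z z))))))) (n 243 (n 0 z (n 0 z (n
 0x2ca6a208037e08618607e18208a085f7e279f85e82091f82289f8a08607e28227e18218628217a186181f0801 z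
 (n 0 z (n 0 z (n 0 z (n 0 z (n 0 z (n 0 z (n 0 z (n
 0x4ca4ca200382281f7a085f82085f75f82082286082085e7a081e7d991e8228a28a28627df8df85f86281d0801 z
 (n 6496515 z z)))))))))))) (n 1 (n 6557731 z (n 0 z (n 0 z (n 0 z (n 0 z z))))) (n 0 (n 2164315
 z (n 0 z (n 0 z (n 0 z (n 0 z (n 0 z (n 0 z (n 0 z (n 0 z (n 0 z z)))))))))) z)))))) (n 547 (n
 0 z z) (n 0 (n 1 (n 6496515 z (n 6496515 z (n 6496515 z (n 6496515 z (n 6496515 z (n 6496515 z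
 z)))))) (n 1 (n 6496515 z (n 6496515 z (n 6496515 z (n 6496515 z (n 6496515 z (n 6496515 z
 z)))))) (n 0 z (n 0 z (n 1 (n 4396 z (n 4396 z (n 6562059 z (n 2164315 z (n 4396 z (n 4396 z
 z)))))) z))))) (n 0 z z)))) (n 0xdae5244b59385a89d05364209274a04b8c02c8501a9640 (n 0 (n 591 (n
 2 z (n 6426691 z (n 6426691 z (n 0 z (n 10 z (n 0 z (n
 0x62a1320181c0990d50c80e02ca6ca2403747d7363827aa39a956a769578825a698b906ea2ae7b7e6776b5898e508ea85c6e78576f8f7d598e7176848f61927da8ae7b1809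
 z (n 0 z (n 18 z (n 0 z (n 26 z z))))))))))) (n 589 (n 6635811 z (n 6426691 z (n 0 z (n 34 z (n
 0 z (n 0 z (n 42 z z))))))) (n 129 (n 50 z (n 0 z (n 6426691 z (n 0 z (n 0 z (n 0 z (n 0 z (n
 0xec84a806037f83997793788a61887a8b607e80817f7d848a8672b07683804f6675b5624d9d7e7e778aa37c9186866b8e6691817d5b5a890809
 z (n 0 z z))))))))) (n 27 (n 58 z (n 0 z (n 0 z (n 0 z (n 0 z (n 0 z (n 2164283 z (n 0 z (n 0 z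
 z))))))))) (n 1 (n 6635811 z (n 0 z (n 0 z z))) (n 0 (n 0 z (n 66 z (n 6635811 z (n 0 z (n 0 z
 (n 0 z z)))))) z)))))) (n 1 (n 0 (n 0 z (n 0 z (n 0 z (n 1185 (n 0 z (n 0 z (n 2 (n 0 z (n 1 z
 (n 1 z (n 1 z z)))) (n 0 z (n 0 z (n 0 z (n 0 z (n 0 z z)))))))) (n 1185 (n 0 z (n 0 z (n 0 z
 (n 0 z (n 0 z (n 0 z (n 0 z (n 0 z z)))))))) (n 343 (n 0 z (n 0 z (n 0 z (n 0 z (n 0 z (n 0 z
 (n 0 z (n 0 z (n 0 z (n 0 z (n 0 z z))))))))))) (n 1181 (n 0 z (n 0 z (n 0 z (n 0 z (n 0 z (n 0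
 z (n 0 z (n 0 z (n 0 z (n 0 z (n 0 z z))))))))))) (n 253 (n 0 z (n 0 z (n
 0x8976188666590678870bd6a8e8990887f707f94786f89a451807675c98aa02d9ec15176788175738d59847b8a8098637c74b4c66a0049
 z (n 0 z (n 0 z (n 0 z (n 0 z (n 0 z (n 0 z (n 0 z (n 0 z (n 0 z (n 0 z (n 0 z (n 0 z (n 0 z (n
 0 z (n 0 z (n 0 z (n 0 z (n 0 z (n 0 z (n 0 z (n 0 z (n 0 z (n 0 z (n 0 z (n 0 z (n 0 z (n 0 z
 (n 0 z (n 0 z (n 0 z z))))))))))))))))))))))))))))))))) z)))))))) (n 0 (n 0 z (n 0 z (n 1179 (n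
 0 z (n 0 z (n 0 z (n 0 z (n 0 z (n 0 z (n 0 z (n 0 z z)))))))) (n 1179 (n 0 z (n 0 z (n 0 z (n
 0 z (n 0 z (n 0 z (n 0 z (n 2 (n 1 z (n 1 z (n 2 (n 0 z (n 0 z (n 0 (n 1940 z (n 1940 z z)) (n
 0 z (n 0 z (n 0 (n 309 z z) z)))))) z))) z)))))))) (n 363 (n 0 z (n 2 (n 1 z (n 2 (n 0 z (n 0 z
 (n 0 (n 1940 z (n 1940 z z)) (n 0 z (n 0 z (n 0 (n 1029 z z) z)))))) z)) (n 0 z (n 0 z (n 0 z
 (n 0 z (n 0 z z))))))) (n 487 (n 2 (n 1 z z) (n 0 z (n 0 z (n 0 z (n 0 z (n 0 z (n 0 z (n 0 z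
 (n 0 z (n 0 z (n 0 z (n 0 z (n 0 z (n 0 z (n 0 z (n 0 z (n 0 z (n 0 z (n 0 z (n 0 z (n 0 z
 z))))))))))))))))))))) (n 485 (n 0 z (n 0 z (n 0 z (n 0 z (n 0 z (n 0 z (n 2 z (n 0 z (n 0 z (n
 0 z (n 0 z (n 0 z (n 0 z (n 0 z (n 0 z (n 0 z (n 0 z (n 0 z z)))))))))))))))))) z))))))) (n 0
 (n 0 z (n 1419 (n 0 z (n 0 z (n 0 z (n 0 z (n 0 z (n 0 z (n 0 z z))))))) (n 1419 (n 0 z (n 0 z
 (n 0 z (n 0 z (n 0 z (n 0 z (n 2 (n 1 z (n 1 z (n 2 (n 0 z (n 0 (n 1460 z z) (n 0 (n 1460 z (n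
 1460 z z)) (n 0 (n 1460 z z) (n 0 z (n 0 z z)))))) z))) z))))))) (n 369 (n 0 z (n 0 z (n 0 z (n
 0 z (n 0 z (n 2 (n 1 z (n 2 (n 0 z (n 0 (n 1460 z z) (n 0 (n 1460 z (n 1460 z z)) (n 0 z (n 0
 (n 1460 z z) (n 0 z z)))))) z)) (n 0 z z))))))) (n 1181 (n 0 z (n 0 z (n 0 z (n 0 z (n 0 z (n 0
 z (n 0 z (n 0 z (n 0 z (n 0 z (n 0 z (n 0 z (n 0 z (n 0 z (n 2 (n 2 (n 0 z (n 0 z (n 0 z (n 0 z
 (n 0 z (n 0 z z)))))) z) (n 0 z (n 0 z (n 0 z z)))))))))))))))))) (n 365 (n 0 z (n 0 z (n 0 z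
 (n 0 z (n 0 z (n 0 z (n 0 z (n 0 z (n 0 z (n 0 z (n 0 z (n 0 z (n 0 z (n 0 z (n 0 z (n 0 z (n 0
 z (n 0 z (n 0 z (n 0 z (n 0 z (n 0 z (n 0 z (n 0 z (n 0 z (n 0 z (n 0 z (n 0 z (n 0 z (n 0 z
 z)))))))))))))))))))))))))))))) z)))))) (n 0 (n 1159 (n 0 z (n 0 z (n 0 z (n 0 z (n 2 (n 0 z (n
 1 z (n 1 z (n 1 z z)))) (n 0 z (n 0 z (n 0 z z)))))))) (n 1159 (n 0 z (n 0 z (n 0 z (n 0 z (n 0
 z (n 0 z (n 0 z (n 0 z z)))))))) (n 1155 (n 0 z (n 0 z (n 0 z (n 0 z (n 0 z (n 0 z (n 0 z (n 0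
 z (n 0 z (n 0 z (n 0 z z))))))))))) (n 1157 (n 0 z (n 0 z (n 0 z (n 0 z (n 0 z (n 0 z (n 0 z (n
 0 z (n 0 z (n 0 z (n 0 z (n 0 z (n 0 z (n 0 z (n 0 z (n 0 z (n 0 z (n 0 z (n 0 z (n 0 z (n 0 z
 (n 0 z (n 0 z (n 0 z (n 0 z (n 0 z (n 0 z z))))))))))))))))))))))))))) (n 973 (n 0 z (n 0 z (n
 0 z (n 0 z (n 0 z (n 0 z (n 0 z (n 0 z (n 0 z (n 0 z (n 0 z (n 0 z (n 0 z (n 0 z (n 0 z (n 0 z
 (n 0 z (n 0 z (n 0 z (n 0 z (n 0 z (n 2 z (n 0 z (n 0 z (n 0 z (n 0 z (n 0 z (n 0 z (n 0 z (n 0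
 z z)))))))))))))))))))))))))))))) z))))) (n 0 (n 0 z (n 1155 (n 0 z (n 0 z (n 2 (n 1 z (n 1 z
 z)) z))) (n 487 (n 2 (n 1 z z) (n 0 z (n 0 z (n 0 z (n 0 z (n 0 z (n 0 z (n 0 z (n 0 z (n 0 z
 (n 0 z z))))))))))) (n 53 (n 0 z (n 0 z (n 0 z (n 0 z (n 0 z (n 0 z (n 0 z (n 0 z (n 0 z (n 0 z
 (n 2 z (n 0 z (n 0 z (n 0 z (n 0 z (n 0 z (n 0 z (n 0 z (n 0 z (n 0 z (n 0 z (n 0 z (n 0 z
 z))))))))))))))))))))))) z)))) (n 0 (n 1167 (n 0 z (n 0 z (n 0 z (n 0 z (n 0 z (n 0 z (n 0 z (n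
 0 z (n 0 z (n 0 z (n 0 z z))))))))))) (n 1169 (n 0 z (n 0 z (n 0 z (n 0 z (n 0 z (n 0 z (n 0 z
 (n 0 z (n 0 z (n 0 z (n 0 z z))))))))))) (n 77 (n 0 z (n 0 z (n 0 z (n 0 z (n 0 z (n 0 z (n 0 z
 (n 0 z (n 0 z (n 0 z (n 0 z z))))))))))) z))) (n 0 (n 1177 (n 0 z (n 0 z (n 0 z (n 0 z (n 0 z
 (n 0 z (n 0 z (n 0 z z)))))))) (n 257 (n 2 z (n 0 z (n 0 z (n 0 z (n 0 z z))))) z)) (n 0 (n 53
 (n 0 z (n 0 z (n 0 z (n 0 z z)))) z) (n 0 z z))))))))) (n 0 (n 1 (n 6635811 z (n 6635811 z (n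
 6635811 z (n 6635811 z (n 6635811 z (n 6635811 z z)))))) (n 0 z (n 0 z z))) (n 0 z z)))) (n
 0x8dc54388bb83714c144e40d9718d1d88445c883b1a7106746c23a3700 (n 0 (n 549 (n 6557731 z (n 0 z (n
 0 z (n 0 z (n 2 z (n 0 z (n 0 z (n 0 z z)))))))) (n 547 (n 0 z (n 6496515 z (n 0 z (n
 0x994d949006012ca4ca080380080b80a8067ed7ee7fb8008157fd8028217de7f88047ff81d8068068227f47eb7e37f480d8188078077fd7e18247df80b80b7ee7e88017f78037e781280d7f27f280282b7f07d680a80f1011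
 z (n 0 z (n 0 z (n 10 z (n 6557731 z (n 0 z (n 18 z (n 0 z (n 0 z (n
 0x3654640303802b28aa0180c00995190c006002c86c640037ff8077fd7fe8067ff7ff8068047fa8038057fc7fe7fc7ff80a8018058067ff8037f280a8008037fb8037f57f97fe7ea80b8088107f88038037fa7fa8077f27ff7eb80c8027f07fe7f58102011
 z z))))))))))))) (n 9 (n 6496515 z (n 0 z (n 0 z (n 0 z (n 0 z (n 0 z (n 0 z (n 0 z (n 0 z (n 0
 z (n 0 z (n 0 z (n 0 z (n 0 z z)))))))))))))) (n 267 (n 0 z (n 0 z (n 26 z (n 0 z (n 0 z (n 0 z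
 (n 0 z (n 0 z (n 0 z (n 0 z (n 6496515 z (n 0 z z)))))))))))) (n 1 (n 6557731 z (n 34 z (n
 0x436208007f38028008008038018007fd8008067fa7fb7fe7ee7ff80c7fc8097fe7fa80c7f680c7f58047ff80380d8007fe8037f87fb8028047fc7f68098077ff7ea80d7fe7fe7fb81b7fb7f08090051
 z (n 6557731 z (n 42 z (n 50 z (n
 0x20ca6ca6403011653653103810b29a98081c07d94d8c400e046ca2c6200781282f86c82279d7c48007c582081c80186a74f8268567d88638628028a68bd76177079184480982c82989c74884f73f85b78a7227d582e82784470282483b7d38557808e67ae7338cd82c2811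
 z (n 58 z (n 66 z (n 0 z (n 0 z (n 0 z z)))))))))))) (n 0 (n 0 z (n 2164315 z (n 0 z (n 74 z (n
 0 z (n 82 z (n 0 z (n 0 z z)))))))) z)))))) (n 549 (n 0 (n 1095 (n 0 z (n 0 z (n 0 z (n 0 z (n
 0 z (n 0 z (n 0 z (n 0 z z)))))))) (n 1095 (n 0 z (n 0 z (n 0 z (n 0 z (n 0 z (n 0 z (n 2 (n 1
 z (n 1 z (n 1 z (n 1 z (n 1 z (n 1 z (n 1 z (n 1 z z)))))))) (n 0 z z)))))))) (n 1097 (n 0 z (n
 0 z (n 0 z (n 2 (n 1 z (n 1 z (n 1 z (n 1 z (n 1 z (n 1 z (n 1 z z))))))) z)))) (n 569 (n 0 z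
 (n 0 z (n 0 z (n 0 z (n 0 z (n 0 z (n 0 z (n 0 z (n 0 z (n 0 z (n 0 z (n 2 (n 0 z (n 0 z (n 0 z
 (n 0 z (n 1 z (n 1 z z)))))) z)))))))))))) (n 569 (n 0 z (n 0 z (n 0 z (n 0 z (n 0 z (n 0 z (n
 0 z (n 0 z (n 0 z (n 0 z (n 0 z (n 0 z z)))))))))))) (n 569 (n 0 z (n 0 z (n 0 z (n 0 z (n 0 z
 (n 0 z (n 0 z (n 7734059 z (n 0 z (n 0 z (n 7734059 z (n 0 z z)))))))))))) (n 569 (n 0 z (n 0 z
 (n 0 z (n 0 z (n 0 z (n 0 z (n 0 z (n 0 z (n 0 z (n 2 (n 0 z (n 1 z (n 1 z z))) (n 0 z (n 0 z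
 z)))))))))))) (n 569 (n 0 z (n 0 z (n 0 z (n 0 z (n 0 z (n 0 z (n 0 z (n 0 z (n 0 z (n 0 z (n 0
 z (n 0 z z)))))))))))) (n 557 (n 0 z (n 0 z (n 2 (n 0 z z) (n 0 z (n 0 z z))))) (n 557 (n 0 z
 (n 0 z (n 0 z (n 0 z (n 0 z z))))) z)))))))))) (n 0 (n 0 z (n 1093 (n 0 z (n 0 z (n 0 z (n 0 z
 (n 0 z (n 0 z (n 0 z (n 0 z (n 0 z (n 0 z (n 0 z z))))))))))) (n 63 (n 0 z (n 0 z (n 2 (n 0 z
 (n 0 z (n 0 z (n 0 z (n 1 z (n 1 z z)))))) (n 0 z (n 0 z (n 0 z (n 0 z (n 0 z (n 0 z (n 0 z (n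
 0 z (n 0 z z)))))))))))) (n 63 (n 0 z (n 0 z (n 0 z (n 0 z (n 0 z (n 0 z (n 0 z (n 0 z (n 0 z
 (n 0 z (n 0 z (n 0 z z)))))))))))) (n 63 (n 0 z (n 0 z (n 0 z (n 0 z (n 0 z (n 0 z (n 0 z (n 0
 z (n 0 z (n 0 z (n 0 z (n 0 z z)))))))))))) (n 63 (n 0 z (n 0 z (n 0 z (n 0 z (n 0 z (n 0 z (n
 0 z (n 0 z (n 0 z (n 0 z (n 0 z (n 2 (n 0 z (n 1 z (n 1 z z))) z)))))))))))) (n 63 (n 0 z (n 0
 z (n 0 z (n 0 z (n 0 z (n 0 z (n 0 z (n 0 z (n 0 z (n 0 z (n 0 z (n 0 z z)))))))))))) (n 61 (n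
 0 z (n 0 z (n 0 z (n 0 z (n 0 z (n 2 (n 0 z z) (n 0 z (n 0 z (n 0 z (n 0 z z)))))))))) (n 61 (n
 0 z (n 0 z (n 0 z (n 0 z (n 0 z (n 0 z (n 0 z (n 0 z (n 0 z (n 0 z z)))))))))) z))))))))) (n 0
 (n 1093 (n 0 z (n 0 z (n 0 z (n 0 z (n 0 z (n 0 z (n 0 z (n 0 z (n 0 z (n 0 z (n 0 z (n 0 z (n
 0 z (n 0 z (n 0 z (n 0 z (n 0 z (n 0 z (n 0 z (n 0 z (n 0 z (n 0 z (n 0 z (n 0 z (n 0 z (n 0 z
 (n 0 z (n 0 z (n 0 z (n 0 z (n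
 0x5d95d94006002ea2ea20078007ff7ff8018008008007ff8017ff8027fe8027ff8018008008008008008008018017ff8007ff7ff8017ff8018008008018008017ff8008008008008008008008008008007ff8007ff8011011
 z (n 0 z (n 0 z (n 0 z (n 0 z (n 0 z (n 0 z (n 0 z (n 0 z (n 0 z (n 2 (n 1 z (n 1 z (n 1 z (n 2
 (n 0 z (n 0 z (n 0 z (n 0 z (n 0 (n 252 z (n 252 z z)) (n 0 (n 252 z z) z)))))) (n 1 z (n 1 z
 (n 1 z z))))))) (n 0 z (n 0 z (n 0 z (n 0 z (n 0 z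
 z)))))))))))))))))))))))))))))))))))))))))))))) (n 63 (n 0 z (n 0 z (n 0 z (n 0 z (n 0 z (n 0 z
 (n 0 z (n 0 z z)))))))) (n 63 (n 0 z (n 0 z (n 0 z (n 2 (n 0 z (n 0 z (n 0 z (n 1 z (n 1 z
 z))))) (n 0 z (n 0 z (n 0 z (n 0 z z)))))))) (n 63 (n 0 z (n 0 z (n 0 z (n 0 z (n 0 z (n 0 z (n
 0 z (n 0 z z)))))))) (n 63 (n 0 z (n 0 z (n 0 z (n 0 z (n 0 z (n 0 z (n 0 z (n 0 z z)))))))) (n
 63 (n 0 z (n 0 z (n 0 z (n 0 z (n 0 z (n 0 z (n 0 z (n 2 (n 1 z (n 1 z z)) z)))))))) (n 505 (n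
 0 z (n 0 z (n 0 z (n 0 z (n 0 z (n 0 z (n 0 z (n 0 z (n 0 z (n 0 z z)))))))))) (n 505 (n 0 z (n
 0 z (n 0 z (n 0 z (n 0 z (n 2 z (n 0 z (n 0 z (n 0 z (n 0 z z)))))))))) z)))))))) (n 0 (n 537
 (n 0 z (n 0 z (n 0 z (n 0 z (n 0 z (n 0 z (n 0 z (n 0 z (n 0 z (n 0 z (n 0 z (n 0 z (n 0 z (n 0
 z (n 0 z (n 0 z (n 0 z (n 0 z (n 0 z (n 0 z (n 0 z (n 0 z (n 0 z (n 0 z (n 0 z (n 0 z (n 2 (n 0
 z (n 0 z (n 0 z (n 0 z (n 1 z (n 1 z z)))))) (n 0 z (n 0 z (n 0 z (n 0 z (n 0 z (n 0 z (n 0 z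
 (n 0 z (n 0 z z)))))))))))))))))))))))))))))))))))) (n 537 (n 0 z (n 0 z (n 0 z (n 0 z (n 0 z
 (n 0 z (n 0 z (n 0 z (n 0 z (n 0 z (n 0 z (n 0 z (n 0 z (n 0 z (n 0 z (n 0 z (n 0 z (n 0 z (n 0
 z (n 0 z (n 0 z (n 0 z (n 0 z (n 0 z (n 0 z (n 0 z (n 0 z (n 0 z (n 0 z (n
 0x7617605018003b2bb2880c005d4dd4c00e000ea8ca60078018008008008008008008008008008008007ff7ff8017ff8018008008007ff8008008018008018008008008018008018008008008008008008008007ff8008018008008008008008008002011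
 z (n 0 z (n 0 z (n 0 z (n 0 z (n 0 z (n 0 z z)))))))))))))))))))))))))))))))))))) (n 537 (n 0 z
 (n 0 z (n 0 z (n 0 z (n 0 z (n 0 z (n 0 z (n 0 z (n 0 z (n 0 z (n 0 z (n 0 z (n 0 z (n 0 z (n 0
 z (n 0 z (n 0 z (n 0 z (n 0 z (n 0 z (n 0 z (n 0 z (n 0 z (n 0 z (n 0 z (n 0 z (n 0 z (n 0 z (n
 0 z (n 0 z (n 0 z (n 0 z (n 0 z (n 0 z (n 0 z (n 0 z z)))))))))))))))))))))))))))))))))))) (n
 537 (n 0 z (n 0 z (n 0 z (n 0 z (n 0 z (n 0 z (n 0 z (n 0 z (n 0 z (n 0 z (n 0 z (n 0 z (n 0 z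
 (n 0 z (n 0 z (n 0 z (n 0 z (n 0 z (n 0 z (n 0 z (n 0 z (n 0 z (n 0 z (n 0 z (n 0 z (n 0 z (n 0
 z (n 0 z (n 0 z (n 0 z (n 0 z (n 0 z (n 0 z (n 0 z (n 0 z (n 0 z
 z)))))))))))))))))))))))))))))))))))) (n 537 (n 0 z (n 0 z (n 0 z (n 0 z (n 0 z (n 0 z (n 0 z
 (n 0 z (n 0 z (n 0 z (n 0 z (n 0 z (n 0 z (n 0 z (n 2 (n 1 z (n 1 z z)) (n 0 z (n 0 z (n 0 z (n
 0 z (n 0 z (n 0 z (n 0 z (n 0 z (n 0 z (n 0 z (n 0 z (n 0 z (n 0 z (n 0 z (n 0 z (n 0 z (n 0 z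
 (n 0 z (n 0 z (n 0 z (n 0 z z)))))))))))))))))))))))))))))))))))) (n 485 (n 0 z (n 0 z (n 0 z
 (n 0 z (n 0 z (n 0 z (n 0 z (n 0 z (n 0 z z))))))))) (n 485 (n 0 z (n 0 z (n 0 z (n 0 z (n 0 z
 (n 0 z (n 0 z (n 0 z (n 0 z z))))))))) z))))))) (n 0 (n 0 z (n 0 z (n 0 z (n 0 z (n 293 (n 0 z
 (n 0 z (n 0 z (n 0 z (n 0 z (n 0 z (n 0 z (n 0 z (n 0 z (n 0 z (n 0 z (n 0 z (n 0 z (n 0 z (n 0
 z (n 0 z (n 0 z (n 0 z (n 0 z (n 0 z (n 0 z (n 0 z (n 0 z (n 0 z (n 0 z (n 0 z (n 0 z (n 0 z (n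
 0 z (n 0 z (n 0 z (n 0 z (n 0 z (n 0 z (n 0 z (n 0 z (n 0 z (n 0 z (n 0 z (n 0 z (n 0 z (n 0 z
 (n 0 z (n 0 z (n 0 z (n 0 z (n 0 z (n 0 z (n 0 z
 z))))))))))))))))))))))))))))))))))))))))))))))))) (n 293 (n 0 z (n 0 z (n 0 z (n 0 z (n 0 z (n
 0 z (n
 0x5d8dd8c806002e86e862078007fb8008008008008007fe7ff8018037fd7ff8007fb8008038008037ff7fa8067ff8057fb8008008018038008018077fd7fe7ff8077fb7fd80580b8017ff7ff80380180080e7fe7f87fd1011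
 z (n 2 z (n 0 z (n 0 z (n 0 z (n 0 z (n 0 z (n 0 z (n 0 z (n 0 z (n 0 z (n 0 z (n 0 z (n 0 z (n
 0 z (n 0 z (n 0 z (n 0 z (n 0 z (n 0 z (n 0 z (n 0 z (n 0 z (n 0 z (n 0 z (n 0 z (n 0 z (n 0 z
 (n 0 z (n 0 z (n 0 z (n 0 z (n 0 z (n 0 z (n 0 z (n 0 z (n 0 z (n 0 z (n 0 z (n 0 z (n 0 z (n 0
 z (n 0 z z))))))))))))))))))))))))))))))))))))))))))))))))) z)))))) (n 0 (n 0 z (n 0 z (n 0 z
 (n 1 (n 2 (n 0 z z) (n 0 z (n 0 z (n 0 z (n 0 z (n 0 z (n 0 z (n 0 z (n 0 z z))))))))) (n 1 (n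
 0 z (n 0 z (n 0 z (n 0 z (n 0 z (n 0 z (n 0 z (n 0 z (n 0 z z))))))))) z))))) (n 0 (n 0 z (n 0
 z (n 1 (n 0 z (n 0 z (n 0 z (n 0 z (n 0 z (n 0 z (n 0 z (n 0 z (n 0 z (n 0 z (n 0 z (n 0 z (n 0
 z (n 0 z (n 0 z (n 0 z (n 0 z (n 0 z (n 0 z (n 0 z (n 0 z (n 0 z (n 0 z (n 0 z (n 0 z (n 0 z (n
 0 z (n 0 z (n 0 z (n 0 z (n 0 z z))))))))))))))))))))))))))))))) (n 1 (n 0 z (n 0 z (n 0 z (n 0
 z (n 0 z (n 0 z (n 0 z (n 0 z (n 0 z (n 0 z (n 0 z (n 0 z (n 0 z (n 0 z (n 0 z (n 0 z (n 0 z (n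
 0 z (n 0 z (n 0 z (n 0 z (n 0 z (n 0 z (n 0 z (n 0 z (n 0 z (n 0 z (n 0 z (n 0 z (n 0 z (n 0 z
 z))))))))))))))))))))))))))))))) z)))) (n 0 (n 0 z (n 1 (n 0 z (n 0 z (n 0 z (n 0 z (n 0 z (n 0
 z (n 0 z (n 0 z (n 0 z (n 0 z (n 0 z (n 0 z (n 0 z (n 0 z (n 0 z (n 0 z (n 0 z (n 0 z (n 0 z (n
 0 z (n 0 z (n 0 z (n 0 z (n 0 z (n 0 z (n 0 z (n 0 z (n 0 z (n 0 z (n 0 z (n 0 z (n 0 z (n 0 z
 (n 0 z (n 0 z (n 0 z (n 0 z (n 0 z (n 0 z (n 0 z (n 0 z (n 0 z (n 0 z (n 0 z (n 0 z (n 0 z (n 0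
 z (n 0 z (n 0 z (n 0 z (n 0 z (n 0 z (n 0 z (n 0 z (n 0 z (n 0 z
 z)))))))))))))))))))))))))))))))))))))))))))))))))))))))) (n 1 (n 0 z (n 0 z (n 0 z (n 0 z (n 0
 z (n 0 z (n 0 z (n 0 z (n 0 z (n 0 z (n 0 z (n 0 z (n 0 z (n 0 z (n 0 z (n 0 z (n 0 z (n 0 z (n
 0 z (n 0 z (n 0 z (n 0 z (n 0 z (n 0 z (n 0 z (n 0 z (n 0 z (n 0 z (n 0 z (n 0 z (n 0 z (n 0 z
 (n 0 z (n 0 z (n
 0x5d8dd8c806002e86e862078007fb8008008008008007fe7ff8018037fd7ff8007fb8008038008037ff7fa8067ff8057fb8008008018038008018077fd7fe7ff8077fb7fd80580b8017ff7ff80380180080e7fe7f87fd1011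
 z (n 0 z (n 0 z (n 0 z (n 0 z (n 0 z (n 0 z (n 0 z (n 0 z (n 2 z (n 0 z (n 0 z (n 0 z (n 0 z (n
 0 z (n 0 z (n 0 z (n 0 z (n 0 z (n 0 z (n 0 z (n 0 z
 z)))))))))))))))))))))))))))))))))))))))))))))))))))))))) z))) (n 0 (n 1 (n 0 z (n 0 z (n 0 z
 (n 0 z (n 0 z (n 0 z (n 0 z (n 0 z (n 0 z (n 0 z (n 0 z (n 0 z (n 0 z (n 0 z (n 0 z (n 0 z (n 0
 z (n 0 z (n 0 z (n 0 z (n 0 z (n 0 z (n 0 z (n 0 z (n 0 z (n 0 z (n 0 z (n 0 z (n 0 z (n 0 z (n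
 0 z (n 0 z (n
 0x5d8dd8c806002e86e860078008008008008008008008008008008007ff8018008008008008008008008008008008008008008008007ff8008008008008008007ff8008008008008008008008008008008008008008001011
 z (n 0 z (n 0 z (n 0 z (n 0 z (n 0 z (n 0 z (n 0 z (n 0 z (n 0 z (n 2 (n 0 z z) (n 0 z (n 0 z
 (n 0 z (n 0 z z))))))))))))))))))))))))))))))))))))))))))))))) (n 1 (n 0 z (n 0 z (n 0 z (n 0 z
 (n 0 z (n 0 z (n 0 z (n 0 z (n 0 z (n 0 z (n 0 z (n 0 z (n 0 z (n 0 z (n 0 z (n 0 z (n 0 z (n 0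
 z (n 0 z (n 0 z (n 0 z (n 0 z (n 0 z (n 0 z (n 0 z (n 0 z (n 0 z (n 0 z (n 0 z (n 0 z (n 0 z (n
 0 z (n 0 z (n 0 z (n 0 z (n 0 z (n 0 z (n 0 z (n 0 z (n 0 z (n 0 z (n 0 z (n 0 z (n 0 z (n 0 z
 (n 0 z (n 0 z z))))))))))))))))))))))))))))))))))))))))))))))) z)) (n 0 (n 0 z z) (n 0 z
 z))))))))))) (n 0 (n 1 (n 6496515 z (n 6557731 z (n 6557731 z (n 6557731 z (n 6557731 z (n
 6557731 z z)))))) (n 0 z (n 0 z (n 0 z (n 1 (n 6496515 z (n 76 z (n 4380 z (n 6562059 z (n 4380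
 z (n 4380 z z)))))) (n 0 z (n 0 z (n 0 z z)))))))) (n 0 z z)))) (n
 0xb0b5705138c68ec6216a3a0b4dd81a4d60eac5440488a01d8580b6500 (n 0 (n 159 (n 6561811 z (n 6561811
 z (n 2 z (n 10 z (n 6561811 z (n 18 z (n 0 z (n 26 z (n 6554411 z (n 6554411 z (n
 0xea62ca08077c818484818289818282827d7d807e807d807d7e7f807c827c7f8181837f7e818882848383837f82848182827f80807f80800809
 z (n 6554411 z z)))))))))))) (n 33 (n 6496515 z (n 0 z (n 0 z z))) (n 9 (n 0 z (n 6496515 z (n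
 34 z (n 42 z z)))) (n 147 (n 50 z (n 0 z (n 0 z (n 0 z (n 0 z (n 0 z (n 0 z (n 0 z (n 6496515 z
 z))))))))) (n 1 (n 0 z (n 6561811 z (n
 0x16ca84206078180807c7f7f808080817e7e8082817e8080818481838080808180817e827f7f8080817f807f807f81817e82837f808080820809
 z (n 58 z (n 66 z (n 6561811 z (n
 0x9951484c0612ca2ca0607006216503038332a288181c0194d94080e04c62c604070165365310380b29b10080c2d94d94c00616ca6ca4007076536310038232a298801c0d8c988400e02ca4a420077c8f8799867d8f8284807d8b6e7a706e7b9a5d7f74795e8d597e7f95864d9b7a95797e8384947592807c7d826ac3704b7a947009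
 z (n 74 z (n 6554411 z (n 0 z (n 0 z (n 0 z z)))))))))))) (n 0 (n 0 z (n 0 z (n 0 z (n 0 z (n 0
 z (n 0 z (n 0 z (n 0 z (n 0 z (n 0 z (n 0 z (n 0 z (n 6624267 z (n 0 z (n 0 z (n 0 z (n 82 z (n
 0 z (n 0 z (n 0 z (n 0 z (n 0 z (n 0 z (n 0 z (n 0 z (n 0 z (n 0 z (n 0 z (n 0 z (n 0 z (n 0 z
 z))))))))))))))))))))))))))))))) z)))))) (n 33 (n 0 (n 0 z (n 0 z (n 0 z (n 417 (n 0 z (n 0 z
 (n 0 z (n 0 z (n 0 z (n 0 z (n 2 (n 0 z (n 1 z (n 1 z (n 1 z (n 2 (n 0 z (n 0 z (n 0 z (n 0 z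
 (n 0 (n 2260 z z) (n 0 z z)))))) (n 2 (n 0 (n 69 z z) (n 0 (n 1268 z z) (n 0 z (n 0 z (n 0 (n
 1268 z (n 1268 z z)) (n 0 z z)))))) z)))))) (n 0 z z)))))))) (n 417 (n 0 z (n 2 (n 1 z (n 1 z
 (n 1 z (n 2 (n 0 z (n 0 z (n 0 z (n 0 z (n 0 (n 2260 z z) (n 0 z z)))))) (n 2 (n 0 z (n 0 z (n
 0 z (n 0 z (n 0 (n 3213435 z (n 3213435 z z)) (n 0 (n 3213435 z z) z)))))) z))))) (n 0 z (n 0 z
 (n 0 z (n 0 z (n 0 z (n 0 z z)))))))) (n 321 (n 0 z (n 2 (n 1 z (n 1 z (n 1 z (n 1 z z)))) (n 0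
 z (n 0 z (n 0 z (n 0 z (n 0 z (n 0 z z)))))))) (n 565 (n 0 z (n 0 z (n 0 z (n 2 (n 0 z (n 0 z
 (n 1 z z))) (n 0 z (n 0 z (n 0 z (n 0 z (n 0 z (n 0 z (n 0 z z))))))))))) (n 565 (n 0 z (n 0 z
 (n 0 z (n 0 z (n 0 z (n 0 z (n 0 z (n 0 z (n 0 z (n 0 z (n 2 (n 0 z (n 2 (n 0 z (n 0 z (n 0 z
 (n 0 z (n 0 z (n 0 z z)))))) z)) z))))))))))) (n 565 (n 0 z (n 0 z (n 0 z (n 0 z (n 0 z (n 0 z
 (n 0 z (n 0 z (n 0 z (n 0 z (n 0 z z))))))))))) (n 317 (n 2 z (n 0 z (n 0 z (n 0 z (n 0 z (n 0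
 z (n 0 z (n 0 z (n 0 z (n 0 z (n 0 z (n 0 z z)))))))))))) z)))))))))) (n 0 (n 0 z (n 0 z (n 417
 (n 0 z (n 0 z (n 0 z (n 0 z (n 0 z (n 0 z (n 0 z (n 0 z (n 0 z (n 0 z (n 0 z (n 0 z (n 0 z (n 0
 z (n
 0xecaeca2037f80818280818180808180807f8080807e807f7f80807f807f80817f81817f808281818081817f808180818080807f7f80800809
 z (n 0 z z)))))))))))))))) (n 417 (n 0 z (n 0 z (n 0 z (n 0 z (n 0 z (n 0 z (n 0 z (n 0 z (n 0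
 z (n 0 z (n 0 z (n 0 z (n 0 z (n 0 z (n 0 z (n 0 z z)))))))))))))))) (n 539 (n 0 z (n 0 z (n 0
 z (n 0 z (n 0 z (n 0 z (n 0 z (n 0 z (n 0 z (n 0 z z)))))))))) (n 537 (n 0 z (n 0 z (n 0 z (n 0
 z (n 0 z (n 0 z (n 0 z (n 0 z (n 0 z (n 0 z (n 0 z (n 0 z z)))))))))))) (n 537 (n 0 z (n 0 z (n
 0 z (n 0 z (n 0 z (n 0 z (n 0 z (n 0 z (n
 0x3993a8b01c01d0d84140600ecaec460381828284827f827f80817e7f7e837f8180837d8082807d837b83808482837e7f82838080827f818081807f807e7f7f7e81821809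
 z (n
 0x6000a2ec28030005176100380028bb0400c001d4c45806000ea62247c7e86817f8386818380827d7f7c7f837e7c797b7e7b80817b80817f83897e8188838685858581838381818380797f82817e2809
 z (n 0 z (n 0 z z)))))))))))) (n 537 (n 0 z (n 0 z (n 2 (n 1 z z) (n 0 z (n 0 z (n 0 z (n 0 z
 (n 0 z (n 0 z (n 0 z (n 0 z (n 0 z z)))))))))))) (n 317 (n 0 z (n 0 z (n 0 z (n 0 z (n 0 z (n 0
 z (n 0 z (n 0 z (n 0 z (n 0 z z)))))))))) z))))))))) (n 0 (n 0 z (n 411 (n 0 z (n 0 z (n 0 z (n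
 0 z (n 0 z (n 0 z (n 0 z (n 0 z (n 0 z (n 0 z (n 0 z (n 0 z (n 0 z (n 0 z (n 2 (n 0 z (n 1 z (n
 1 z (n 1 z (n 2 (n 0 z (n 0 z (n 0 z (n 0 z (n 0 (n 8782619 z z) (n 0 z z)))))) (n 2 (n 0 z (n
 0 z (n 0 z (n 0 z (n 0 (n 8785955 z (n 8785955 z z)) (n 0 (n 8785955 z z) z)))))) z)))))) (n 0
 z (n 0 z (n 0 z (n 0 z (n 0 z (n 0 z (n 0 z (n 0 z (n 0 z (n 0 z z))))))))))))))))))))))))) (n
 411 (n 0 z (n 0 z (n 0 z (n 0 z (n 0 z (n 0 z (n 0 z (n 0 z (n 0 z (n 0 z (n 0 z (n 0 z (n 2 (n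
 1 z (n 1 z (n 1 z (n 1 z (n 1 z z))))) (n 0 z (n 0 z (n 0 z (n 0 z (n 0 z (n 0 z (n 0 z (n 0 z
 (n 0 z (n 0 z (n 0 z (n 0 z z))))))))))))))))))))))))) (n 539 (n 0 z (n 0 z (n 0 z (n 0 z (n 0
 z (n 0 z (n 0 z (n 0 z (n 0 z (n 0 z (n 0 z (n 0 z (n 0 z (n 0 z (n 0 z (n 0 z (n 0 z (n
 7737379 z (n 0 z (n 0 z (n 0 z (n 0 z (n 0 z (n 0 z (n 0 z (n 0 z (n 0 z (n 0 z (n 0 z
 z))))))))))))))))))))))))))))) (n 537 (n 0 z (n 0 z (n 0 z (n 0 z (n 0 z (n 0 z (n 0 z (n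
 7737379 z (n 0 z (n 0 z (n 0 z z))))))))))) (n 537 (n 0 z (n 0 z (n 0 z (n 0 z (n 0 z (n 0 z (n
 0 z (n 0 z (n 0 z (n 2 (n 0 z (n 2 (n 0 z (n 0 z (n 0 z (n 0 z (n 0 (n 8785955 z (n 8785955 z
 z)) (n 0 (n 8785955 z z) z)))))) z)) (n 0 z z))))))))))) (n 537 (n 7734043 z (n 7734043 z (n 0
 z (n 0 z (n 0 z (n 0 z (n 0 z (n 0 z (n 0 z (n 0 z (n 0 z z))))))))))) (n 533 (n 0 z (n 0 z (n
 0 z (n 0 z (n 0 z (n 0 z (n 0 z (n 0 z (n 0 z (n 0 z (n 0 z (n 0 z (n 0 z (n 0 z (n 0 z (n 0 z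
 (n 0 z (n 0 z (n 0 z (n 0 z (n 0 z (n 7737379 z (n 0 z (n 0 z (n 0 z (n 0 z (n 0 z (n 0 z (n 0
 z (n 0 z (n 0 z (n 0 z (n 0 z (n 0 z (n 0 z (n 0 z (n 0 z (n 0 z (n 0 z (n 0 z (n 0 z (n 0 z (n
 0 z (n 0 z (n 0 z (n 0 z z)))))))))))))))))))))))))))))))))))))))))))))) z)))))))) (n 0 (n 1015
 (n 0 z (n 0 z (n 0 z (n 0 z (n 2 (n 0 z (n 1 z (n 1 z (n 1 z (n 2 (n 0 z (n 0 z (n 0 z (n 0 z
 (n 0 (n 8782619 z z) (n 0 z z)))))) (n 2 (n 0 z (n 0 z (n 0 z (n 0 z (n 0 (n 4036 z (n 4036 z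
 z)) (n 0 (n 69 z z) z)))))) z)))))) (n 0 z (n 0 z (n 0 z (n 0 z (n 0 z (n 0 z (n 0 z (n 0 z (n
 0 z z)))))))))))))) (n 1015 (n 0 z (n 0 z (n 0 z (n 2 (n 1 z (n 1 z (n 1 z (n 2 (n 0 z (n 0 z
 (n 0 z (n 0 z (n 0 (n 8782619 z z) (n 0 z z)))))) (n 2 (n 0 z (n 0 z (n 0 z (n 0 z (n 0 (n
 3213435 z (n 3213435 z z)) (n 0 (n 3213435 z z) z)))))) z))))) (n 0 z (n 0 z (n 0 z (n 0 z (n 0
 z (n 0 z (n 0 z (n 0 z (n 0 z (n 0 z z)))))))))))))) (n 1011 (n 0 z (n 0 z (n 2 (n 1 z (n 1 z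
 (n 1 z (n 1 z z)))) (n 0 z (n 0 z (n 0 z (n 0 z (n 0 z (n 0 z (n 0 z (n 0 z z))))))))))) (n 303
 (n 0 z (n 0 z (n 2 (n 0 z (n 0 z (n 1 z z))) (n 0 z (n 0 z (n 0 z (n 0 z (n 0 z (n 0 z (n 0 z
 (n 0 z z))))))))))) (n 303 (n 0 z (n 2 (n 0 z (n 2 (n 0 z (n 0 z (n 0 z (n 0 z (n 0 (n 4036 z
 (n 4036 z z)) (n 0 (n 5 z z) z)))))) z)) (n 0 z (n 0 z (n 0 z (n 0 z (n 0 z (n 0 z (n 0 z (n 0
 z (n 0 z z))))))))))) (n 303 (n 0 z (n 0 z (n 0 z (n 0 z (n 0 z (n 0 z (n 0 z (n 0 z (n 0 z (n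
 0 z (n 0 z z))))))))))) (n 1009 (n 0 z (n 0 z (n 0 z (n 0 z (n 0 z (n 0 z (n 0 z (n 0 z (n 0 z
 (n 0 z (n 0 z (n 0 z (n 0 z (n 0 z (n 0 z (n 0 z (n 0 z (n 0 z (n 2 z (n 0 z (n 0 z (n 0 z (n 0
 z (n 0 z (n 0 z (n 0 z (n 0 z (n 0 z (n 0 z (n 0 z (n 0 z (n 0 z (n 0 z (n 0 z (n 0 z (n 0 z (n
 0 z (n 0 z (n 0 z (n 0 z (n 0 z (n 0 z (n 0 z (n 0 z (n 0 z (n 0 z
 z)))))))))))))))))))))))))))))))))))))))))))))) z))))))) (n 0 (n 0 z (n 387 (n 0 z (n 0 z (n 0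
 z (n 0 z (n 0 z z))))) (n 21 (n 0 z (n 0 z (n 0 z (n 0 z (n 0 z (n 0 z (n 0 z (n
 0xecaeca2037f80818280818180808180807f8080807e807f7f80807f807f80817f81817f808281818081817f808180818080807f7f80800809
 z z)))))))) (n 21 (n 0 z (n 0 z (n 0 z (n 0 z (n 0 z (n 0 z (n 0 z (n 0 z z)))))))) (n 21 (n 0
 z (n 0 z (n 0 z (n 0 z (n 0 z (n 0 z (n 2 (n 1 z z) (n 0 z z)))))))) (n 17 (n 0 z (n 0 z (n 0 z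
 (n 0 z (n 0 z (n 0 z (n 0 z (n 0 z z)))))))) z)))))) (n 0 (n 267 (n 0 z (n 0 z (n 0 z (n 0 z (n
 0 z z))))) (n 15 (n 0 z (n 0 z (n 0 z (n 0 z (n 0 z (n 0 z (n 0 z (n 0 z (n 0 z (n 0 z (n 0 z
 (n 0 z (n 0 z (n 0 z z)))))))))))))) (n 15 (n 0 z (n 0 z (n 0 z (n 0 z (n 0 z (n 0 z (n
 0x6000a2ec28030005176100380028bb0400c001d4c45806000ea62247c7e86817f8386818380827d7f7c7f837e7c797b7e7b80817b80817f83897e8188838685858581838381818380797f82817e2809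
 z (n 0 z (n 0 z (n 0 z (n 0 z (n 0 z (n 0 z (n 0 z z)))))))))))))) (n 15 (n 0 z (n 0 z (n 0 z
 (n 0 z (n 0 z (n 0 z (n 0 z (n 0 z (n 0 z (n 0 z (n 0 z (n 0 z (n 0 z (n 2 (n 1 z z)
 z)))))))))))))) (n 13 (n 0 z (n 0 z (n 0 z (n 0 z (n 0 z (n 0 z (n 0 z (n 0 z (n 0 z (n 0 z
 z)))))))))) z))))) (n 0 (n 483 (n 0 z (n 0 z (n 0 z (n 0 z (n 0 z (n 0 z (n 0 z (n 0 z (n 0 z
 (n 0 z (n 0 z (n 0 z (n 0 z (n 0 z (n 0 z (n 0 z (n 0 z (n 0 z (n 0 z (n 0 z (n 0 z (n 0 z (n 0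
 z (n 0 z (n 0 z (n 0 z (n 0 z (n 0 z (n 0 z (n 0 z (n 0 z (n 0 z (n 0 z (n 0 z (n 0 z (n 0 z (n
 0 z (n 0 z (n 0 z (n 0 z (n 0 z (n 0 z (n 0 z (n 0 z (n 0 z (n 0 z (n 0 z
 z))))))))))))))))))))))))))))))))))))))))))))))) (n 483 (n 0 z (n 0 z (n 0 z (n 0 z (n 0 z (n 0
 z (n 0 z (n 0 z (n 0 z (n 0 z (n 0 z (n 0 z (n 0 z (n 0 z (n
 0xecaeca2037f80818280818180808180807f8080807e807f7f80807f807f80817f81817f808281818081817f808180818080807f7f80800809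
 z (n 0 z (n 0 z (n 0 z (n 0 z (n 0 z (n 0 z (n 0 z (n 0 z (n 0 z (n 0 z (n 0 z (n 0 z (n 0 z (n
 0 z (n 0 z (n 0 z (n 0 z (n 0 z (n 0 z (n 0 z (n 0 z (n 0 z (n 0 z (n 0 z (n 0 z (n 0 z (n 0 z
 (n 0 z (n 0 z (n 0 z (n 0 z (n 0 z z))))))))))))))))))))))))))))))))))))))))))))))) (n 483 (n 0
 z (n 0 z (n 0 z (n 0 z (n 0 z (n 0 z (n 0 z (n 0 z (n 0 z (n 0 z (n 0 z (n 0 z (n 0 z (n 0 z (n
 0 z (n 0 z (n 0 z (n 0 z (n 0 z (n 0 z (n 0 z (n 0 z (n 0 z (n 0 z (n 0 z (n 0 z (n 0 z (n 0 z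
 (n 0 z (n 0 z (n 0 z (n 0 z (n 0 z (n 0 z (n 0 z (n 0 z (n 0 z (n 0 z (n 0 z (n 0 z (n 0 z (n 0
 z (n 0 z (n 0 z (n 2 (n 1 z z) (n 0 z (n 0 z z)))))))))))))))))))))))))))))))))))))))))))))))
 (n 481 (n 0 z (n 0 z (n 0 z (n 0 z (n 0 z (n 0 z (n 0 z (n 0 z z)))))))) z)))) (n 0 (n 0 z (n 0
 z (n 1 (n 0 z (n 0 z (n 0 z (n 0 z (n 0 z (n 0 z (n 0 z (n 0 z (n 0 z (n 0 z (n 0 z (n 0 z (n 0
 z (n 0 z (n 0 z (n 0 z (n 0 z (n 0 z (n 0 z (n 0 z (n 0 z (n 0 z (n 0 z (n 0 z (n 0 z (n 0 z (n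
 0 z (n 0 z (n 0 z (n 0 z (n 0 z (n 0 z (n 0 z (n 0 z (n 0 z (n 0 z (n 0 z (n 0 z (n 0 z (n 0 z
 (n 0 z (n 0 z (n 0 z (n 0 z (n 0 z (n 0 z (n 0 z (n 0 z (n 0 z
 z))))))))))))))))))))))))))))))))))))))))))))))))) z))) (n 0 (n 0 z (n 1 (n 0 z (n 0 z (n 0 z
 (n 0 z (n 0 z (n 0 z (n 0 z (n 0 z (n
 0x5bb2b10981c1dd8dd8840e06ea6c602077c7c87746b73968886857c70798473a2787c7b7971807c777485796b818c877f8f7b8d84818577828884888980817b76818b1809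
 z z))))))))) z)) (n 0 (n 1 (n 0 z (n 0 z (n 0 z (n 0 z (n 0 z (n 0 z (n 0 z (n 0 z (n 0 z (n 0
 z (n 0 z (n 0 z (n 0 z (n 0 z (n 0 z (n 0 z (n 0 z (n 0 z (n 0 z (n 0 z (n 0 z (n 0 z (n 0 z (n
 0 z (n 0 z (n 0 z (n 0 z (n 0 z (n 0 z (n 0 z (n 0 z (n 0 z (n 0 z (n 0 z (n 0 z (n 0 z (n 0 z
 (n
 0x190c841c0e00642ea0c030076276130180b213a8981c01d09d04c0e02c84ea060300764720301803a1ba1901c0190dd4480600ec6ec620380808080807f807f8180818180818080808180828081817f80807f807f807f807f8180808180808080808080807f808080815009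
 z (n 0 z (n 0 z (n 0 z (n 0 z (n 0 z (n 0 z (n 0 z (n 0 z (n 0 z (n 0 z (n 2 z (n 0 z (n 0 z (n
 0 z (n 0 z (n 0 z (n 0 z (n 0 z z)))))))))))))))))))))))))))))))))))))))))))))))))))))))) z) (n
 0 z z))))))))))) (n 0 (n 1 (n 6496515 z (n 6496515 z (n 6496515 z (n 6496515 z (n 6496515 z (n
 6496515 z z)))))) (n 0 z (n 0 z z))) (n 0 z z)))) (n 0x106a9244094510a2 (n 0 (n 407 (n 6561843
 z (n 0 z (n 0 z (n 0 z (n 0 z z))))) (n 33 (n 0 z (n 0 z (n 6558475 z (n 0 z z)))) (n 171 (n 2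
 z (n 0 z (n 0 z (n 10 z (n 0 z (n 6561843 z z)))))) (n 3 (n 0 z (n 6631947 z (n 0 z (n 0 z
 z)))) (n 1 (n 18 z (n 0 z (n 0 z (n 0 z (n 6561843 z z))))) (n 0 (n 0 z (n 0 z (n 6631947 z
 z))) z)))))) (n 0 (n 0 (n 0 z (n 857 (n 0 z (n 0 z (n 0 z (n 0 z (n 0 z (n 0 z (n 0 z z)))))))
 z)) (n 0 (n 291 (n 0 z (n 0 z (n 0 z (n 0 z (n 0 z (n 0 z (n 0 z z))))))) z) (n 0 z z))) (n 0
 (n 0 z (n 0 z (n 1 (n 6631947 z (n 6631947 z (n 6631947 z (n 6631947 z (n 6631947 z (n 6631947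
 z z)))))) z))) (n 0 z z)))) (n 0xcc3d5cc234dd1ab6eac19 (n 0 (n 153 (n 3282443 z (n 0 z (n 0 z
 z))) (n 33 (n 0 z (n 2 z (n 0 z (n 6496515 z (n 0 z z))))) (n 53 (n 0 z (n 0 z (n 6496515 z (n
 0 z (n 0 z (n 0 z (n 0 z (n 0 z z)))))))) (n 27 (n 0 z (n 0 z (n 10 z (n 6496515 z (n 18 z (n 0
 z (n 0 z (n 26 z z)))))))) (n 1 (n 0 z (n 6558219 z (n 0 z (n 0 z z)))) (n 0 (n 6619947 z (n 0
 z (n 0 z z))) z)))))) (n 153 (n 0 (n 81 (n 0 z (n 0 z (n 0 z (n 0 z (n 0 z (n 0 z z)))))) (n 81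
 (n 2 (n 0 z z) (n 0 z (n 0 z (n 0 z (n 0 z (n 0 z z)))))) (n 81 (n 0 z (n 0 z (n 0 z (n 0 z (n
 0 z (n 0 z z)))))) z))) (n 0 (n 0 z (n 0 z z)) (n 0 (n 0 z z) (n 0 z z)))) (n 0 (n 1 (n 6496515
 z (n 3282443 z (n 3282443 z (n 3282443 z (n 3282443 z (n 3282443 z z)))))) (n 0 z (n 0 z z)))
 (n 0 z z)))) z)))))))))), by decide +kernel⟩
theorem i10915 : ∃ t, chkR KT RW t 10915 10925 = true := ⟨(n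
 0x546ba09b9dc2b26606e7330c9788b9bc48cd6268673ac126a2193a9406da900d468189b80 (n 0x31373 (n 351
 (n 6492195 z (n 2 z (n 6492195 z (n 10 z (n 0 z (n 18 z (n 26 z z))))))) (n 435 (n 34 z (n 0 z
 (n 0 z (n 6492195 z (n 0 z (n 0 z (n 42 z (n 50 z z)))))))) (n 433 (n 6566403 z (n 0 z (n 58 z
 z))) (n 3 (n 6566403 z (n 0 z (n 66 z (n 74 z (n 0 z z))))) (n 1 (n 0 z (n 6566403 z (n 82 z (n
 0 z (n 0 z (n 0 z (n 90 z (n 0 z z)))))))) (n 0 (n 98 z (n 0 z (n 0 z (n 0 z (n 0 z (n 0 z (n 0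
 z (n 106 z (n 6628123 z z))))))))) z)))))) (n 433 (n 0 (n 0 z (n 0 z (n 0 z (n 871 (n 0 z (n 0
 z (n 0 z (n 0 z (n 0 z (n 0 z (n 0 z z))))))) (n 871 (n 0 z (n 0 z (n 0 z (n 0 z (n 0 z (n 2 (n
 0 z (n 1 z (n 2 (n 0 z (n 0 z (n 0 z (n 0 z (n 0 z (n 0 z z)))))) (n 1 z (n 2 (n 0 z (n 0 z (n
 0 z (n 0 z (n 0 z (n 0 z z)))))) (n 1 z (n 1 z (n 2 (n 0 z (n 0 z (n 0 z (n 0 z (n 0 z (n 0 z
 z)))))) z)))))))) (n 0 z z))))))) (n 871 (n 0 z (n 0 z (n 0 z (n 0 z (n 0 z (n 0 z (n 0 z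
 z))))))) (n 867 (n 0 z (n 0 z (n 0 z (n 0 z (n 0 z z))))) (n 693 (n 0 z (n 0 z (n 0 z (n 0 z
 z)))) (n 693 (n 0 z (n 0 z (n 0 z (n 2 (n 1 z (n 1 z (n 1 z (n 1 z z)))) z)))) (n 701 (n 0 z (n
 0 z (n 0 z (n 0 z (n 0 z (n 0 z z)))))) (n 701 (n 0 z (n 0 z (n 0 z (n 0 z (n 2 (n 1 z (n 2 (n
 0 z (n 0 z (n 0 z (n 0 z (n 0 z (n 0 z z)))))) z)) (n 0 z z)))))) (n 869 (n 0 z (n 0 z (n 0 z
 z))) (n 869 (n 0 z (n 0 z (n 0 z z))) z))))))))))))) (n 0 (n 0 z (n 0 z (n 523 (n 0 z (n 0 z (n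
 0 z (n 0 z (n 0 z (n 0 z (n 0 z (n 0 z z)))))))) (n 523 (n 0 z (n 0 z (n 2 (n 0 z (n 1 z (n 2
 (n 0 z (n 0 z (n 0 z (n 0 z (n 0 z (n 0 z z)))))) (n 1 z (n 2 (n 0 z (n 0 z (n 0 z (n 0 z (n 0
 z (n 0 z z)))))) (n 1 z (n 1 z (n 1 z z)))))))) (n 0 z (n 0 z (n 0 z (n 0 z (n 0 z z)))))))) (n
 523 (n 0 z (n 0 z (n 0 z (n 0 z (n 0 z (n 0 z (n 0 z (n 0 z z)))))))) (n 219 (n 0 z (n 0 z (n 0
 z (n 2 (n 1 z (n 1 z (n 1 z (n 1 z (n 1 z (n 1 z z)))))) (n 0 z (n 0 z (n 0 z z))))))) (n 675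
 (n 0 z (n 0 z (n 0 z (n 0 z (n 0 z (n 0 z (n 0 z (n 0 z (n 0 z (n 0 z (n 0 z (n 0 z (n 0 z (n 0
 z z)))))))))))))) (n 675 (n 0 z (n 0 z (n 0 z (n 0 z (n 0 z (n 0 z (n 0 z (n 0 z (n 0 z (n 0 z
 (n 0 z (n 0 z (n 2 (n 1 z (n 1 z (n 1 z (n 1 z z)))) (n 0 z z)))))))))))))) (n 521 (n 0 z (n 0
 z (n 2 (n 0 z (n 1 z (n 1 z z))) (n 0 z (n 0 z (n 0 z z)))))) (n 521 (n 2 (n 1 z (n 1 z z)) (n
 0 z (n 0 z (n 0 z (n 0 z (n 0 z z)))))) (n 493 (n 0 z (n 0 z (n 0 z (n 0 z (n 0 z (n 0 z (n 0 z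
 (n 0 z (n 0 z (n 0 z z)))))))))) (n 493 (n 0 z (n 0 z (n 0 z (n 0 z (n 0 z (n 0 z (n 0 z (n 0 z
 (n 0 z (n 0 z z)))))))))) z)))))))))))) (n 0 (n 0 z (n 705 (n 0 z (n 0 z (n 0 z (n 0 z z)))) (n
 705 (n 2 (n 0 z (n 1 z (n 2 (n 0 z (n 0 z (n 0 z (n 0 z (n 0 z (n 0 z z)))))) (n 1 z (n 2 (n 0
 z (n 0 z (n 0 z (n 0 z (n 0 z (n 0 z z)))))) (n 1 z (n 1 z (n 2 (n 0 z (n 0 z (n 0 z (n 0 z (n
 0 z (n 0 z z)))))) z)))))))) (n 0 z (n 0 z (n 0 z z)))) (n 705 (n 0 z (n 0 z (n 0 z (n 0 z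
 z)))) (n 885 (n 0 z (n 0 z (n 0 z (n 0 z (n 0 z (n 0 z (n 0 z z))))))) (n 693 (n 0 z (n 0 z (n
 0 z (n 0 z (n 0 z (n 0 z (n 0 z (n 0 z (n 0 z (n 0 z (n 0 z (n 0 z (n 0 z z))))))))))))) (n 693
 (n 0 z (n 2 (n 1 z (n 1 z (n 1 z (n 1 z z)))) (n 0 z (n 0 z (n 0 z (n 0 z (n 0 z (n 0 z (n 0 z
 (n 0 z (n 0 z (n 0 z (n 0 z z))))))))))))) (n 689 (n 0 z (n 0 z (n 0 z (n 0 z (n 0 z (n 0 z
 z)))))) (n 689 (n 2 (n 1 z (n 2 (n 0 z (n 0 z (n 0 z (n 0 z (n 0 z (n 0 z z)))))) z)) (n 0 z (n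
 0 z (n 0 z (n 0 z (n 0 z z)))))) (n 893 (n 0 z (n 0 z (n 0 z z))) (n 893 (n 0 z (n 0 z (n 0 z
 z))) z))))))))))) (n 0 (n 679 (n 0 z (n 0 z (n 2 (n 0 z (n 0 z (n 1 z (n 1 z (n 1 z (n 1 z (n 1
 z (n 1 z (n 1 z z))))))))) (n 0 z (n 0 z (n 0 z (n 0 z z))))))) (n 679 (n 0 z (n 2 (n 0 z (n 1
 z (n 2 (n 0 z (n 0 z (n 0 z (n 0 z (n 0 z (n 0 z z)))))) (n 1 z (n 2 (n 0 z (n 0 z (n 0 z (n 0
 z (n 0 z (n 0 z z)))))) (n 1 z (n 1 z (n 1 z z)))))))) (n 0 z (n 0 z (n 0 z (n 0 z (n 0 z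
 z))))))) (n 679 (n 0 z (n 0 z (n 0 z (n 0 z (n 0 z (n 0 z (n 0 z z))))))) (n 199 (n 0 z (n 0 z
 z)) (n 519 (n 0 z (n 0 z (n 0 z (n 0 z (n 0 z z))))) (n 519 (n 0 z (n 0 z (n 2 (n 1 z (n 1 z (n
 1 z (n 1 z z)))) (n 0 z (n 0 z z))))) (n 517 (n 0 z (n 0 z (n 0 z (n 0 z (n 0 z (n 0 z z))))))
 (n 517 (n 0 z (n 2 (n 1 z (n 1 z z)) (n 0 z (n 0 z (n 0 z (n 0 z z)))))) (n 481 (n 0 z (n 0 z
 (n 0 z (n 0 z z)))) (n 481 (n 0 z (n 0 z (n 0 z (n 0 z z)))) z)))))))))) (n 0 (n 0 z (n 0 z (n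
 867 (n 0 z (n 0 z (n 2 (n 1 z (n 1 z (n 1 z (n 1 z (n 1 z (n 1 z z)))))) (n 0 z z)))) (n 567 (n
 0 z (n 0 z (n 0 z z))) (n 567 (n 0 z (n 0 z (n 2 (n 1 z (n 1 z (n 1 z (n 1 z z)))) z))) (n 569
 (n 0 z (n 0 z (n 2 (n 0 z (n 1 z (n 1 z z))) (n 0 z (n 0 z z))))) (n 569 (n 2 (n 1 z (n 1 z z))
 (n 0 z (n 0 z (n 0 z (n 0 z z))))) (n 869 (n 0 z (n 0 z (n 0 z (n 0 z (n 0 z (n 0 z (n 0 z (n 0
 z (n 0 z z))))))))) (n 869 (n 0 z (n 0 z (n 0 z (n 0 z (n 0 z (n 0 z (n 0 z (n 0 z (n 0 z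
 z))))))))) z))))))))) (n 0 (n 0 z (n 1107 (n 0 z (n 0 z (n 0 z (n 2 (n 1 z (n 1 z (n 1 z (n 1 z
 (n 1 z (n 1 z z)))))) z)))) (n 7 (n 0 z (n 0 z (n 0 z (n 0 z (n 2 (n 0 z (n 1 z (n 1 z (n 1 z
 (n 2 (n 0 z (n 0 z (n 0 z (n 0 z (n 0 z (n 0 z z)))))) z))))) (n 0 z z)))))) (n 7 (n 0 z (n 0 z
 (n 0 z (n 0 z (n 0 z (n 0 z z)))))) (n 697 (n 0 z (n 0 z (n 0 z (n 0 z (n 0 z (n 0 z (n 0 z (n
 0 z (n 0 z (n 0 z (n 0 z (n 0 z (n 0 z (n 0 z (n 0 z (n 2 (n 0 z (n 1 z (n 2 (n 0 z (n 0 z (n 0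
 z (n 0 z (n 0 z (n 0 z z)))))) z))) (n 0 z z))))))))))))))))) (n 697 (n 0 z (n 0 z (n 0 z (n 0
 z (n 0 z (n 0 z (n 0 z (n 0 z (n 0 z (n 0 z (n 0 z (n 0 z (n 0 z (n 0 z (n 0 z (n 0 z (n 0 z
 z))))))))))))))))) (n 869 (n 0 z (n 0 z (n 0 z (n 0 z (n 0 z (n 0 z (n 2 (n 0 z z) (n 0 z
 z)))))))) (n 869 (n 0 z (n 2 z (n 0 z (n 0 z (n 0 z (n 0 z (n 0 z (n 0 z z)))))))) z)))))))) (n
 0 (n 879 (n 0 z (n 0 z (n 0 z (n 0 z (n 0 z z))))) (n 1011 (n 0 z (n 0 z (n 0 z z))) (n 1011 (n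
 0 z (n 0 z (n 2 (n 1 z (n 1 z (n 1 z (n 1 z z)))) z))) (n 771 (n 0 z (n 0 z (n 0 z (n 0 z (n 0
 z (n 0 z (n 0 z (n 0 z (n 0 z (n 0 z (n 0 z (n 0 z (n 0 z (n 0 z (n 0 z (n 0 z (n 0 z
 z))))))))))))))))) (n 771 (n 0 z (n 0 z (n 0 z (n 0 z (n 0 z (n 0 z (n 0 z (n 0 z (n 0 z (n 0 z
 (n 0 z (n 0 z (n 0 z (n 0 z (n 0 z (n 2 (n 1 z (n 1 z z)) (n 0 z z))))))))))))))))) (n 877 (n 0
 z (n 0 z (n 0 z (n 0 z (n 0 z z))))) (n 877 (n 0 z (n 0 z (n 0 z (n 0 z (n 0 z z))))) z)))))))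
 (n 0 (n 1059 (n 0 z (n 0 z (n 0 z z))) (n 1059 (n 0 z (n 0 z (n 2 (n 1 z (n 1 z (n 1 z (n 1 z
 z)))) z))) (n 819 (n 0 z (n 0 z (n 0 z (n 0 z (n 0 z (n 0 z z)))))) (n 819 (n 0 z (n 0 z (n 0 z
 (n 0 z (n 2 (n 1 z (n 1 z z)) (n 0 z z)))))) (n 889 (n 0 z (n 0 z (n 0 z (n 0 z (n 0 z (n 0 z
 (n 0 z (n 0 z z)))))))) (n 889 (n 0 z (n 0 z (n 0 z (n 0 z (n 2 z (n 0 z (n 0 z (n 0 z
 z)))))))) z)))))) (n 0 (n 0 z (n 249 (n 0 z (n 0 z (n 0 z (n 0 z z)))) (n 249 (n 0 z (n 0 z (n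
 0 z (n 2 (n 1 z (n 2 (n 0 z (n 0 z (n 0 z (n 0 z (n 0 z (n 0 z z)))))) z)) z)))) (n 5 (n 0 z (n
 0 z (n 0 z (n 0 z z)))) (n 5 (n 0 z (n 0 z (n 0 z (n 0 z z)))) z))))) (n 0 (n 255 (n 0 z (n 0 z
 (n 0 z (n 0 z (n 0 z (n 0 z (n 0 z (n 2 (n 0 z (n 1 z (n 1 z z))) z)))))))) (n 255 (n 0 z (n 0
 z (n 0 z (n 0 z (n 0 z (n 0 z (n 0 z (n 0 z z)))))))) (n 13 (n 2 (n 0 z z) (n 0 z (n 0 z (n 0 z
 (n 0 z (n 0 z z)))))) (n 13 (n 0 z (n 2 z (n 0 z (n 0 z (n 0 z (n 0 z z)))))) z)))) (n 0 (n 0 z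
 (n 1 (n 0 z (n 0 z (n 0 z (n 0 z (n 0 z (n 0 z (n 0 z (n 0 z z)))))))) (n 1 (n 0 z (n 0 z (n 0
 z (n 2 z (n 0 z (n 0 z (n 0 z (n 0 z z)))))))) z))) (n 0 (n 25 (n 2 (n 0 z z) (n 0 z (n 0 z (n
 0 z (n 0 z z))))) (n 25 (n 0 z (n 2 z (n 0 z (n 0 z (n 0 z z))))) z)) (n 0 (n 0 z z) (n 0 z
 z)))))))))))))) (n 0 (n 1 (n 6566403 z (n 6566403 z (n 6566403 z (n 6566403 z (n 6566403 z (n
 6566403 z z)))))) (n 0 z (n 1 (n 2812 z (n 6492195 z (n 5449291 z (n 2812 z (n 2 z (n 2812 z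
 z)))))) z))) (n 0 (n 0xd8564cd9864bd9d609 (n 0 (n 0 (n 7746843 z (n 7746843 z (n 7746843 z (n
 7746843 z (n 7746843 z (n 7746843 z z)))))) z) (n 0 (n 434 (n 1 (n 7540771 z (n 7540771 z (n
 7540771 z (n 7540771 z (n 7540771 z (n 7540771 z z)))))) (n 0 z (n 1 (n 7676699 z (n 7676699 z
 (n 7676699 z (n 7676699 z (n 7676699 z (n 7676699 z z)))))) z))) (n 505 (n 1 (n 7540771 z (n
 7540771 z (n 7540771 z (n 7540771 z (n 7540771 z (n 7540771 z z)))))) (n 1 (n 7614979 z (n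
 7614979 z (n 7614979 z (n 7614979 z (n 7614979 z (n 7614979 z z)))))) (n 1 (n 5449547 z (n 3532
 z (n 6489883 z (n 3532 z (n 2 z (n 3532 z z)))))) z))) (n 433 (n 1 (n 7614979 z (n 7614979 z (n
 7614979 z (n 7614979 z (n 7614979 z (n 7614979 z z)))))) (n 0 z (n 1 (n 7746843 z (n 7746843 z
 (n 7746843 z (n 7746843 z (n 7746843 z (n 7746843 z z)))))) z))) (n 555 (n 1 (n 7540771 z (n
 7540771 z (n 7540771 z (n 7540771 z (n 7540771 z (n 7540771 z z)))))) (n 1 (n 7614979 z (n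
 7614979 z (n 7614979 z (n 7614979 z (n 7614979 z (n 7614979 z z)))))) (n 1 (n 10 z (n 2780 z (n
 2780 z (n 2780 z (n 5379915 z (n 7746843 z z)))))) z))) (n 125 (n 1 (n 7614979 z (n 7614979 z
 (n 7614979 z (n 7614979 z (n 7614979 z (n 7614979 z z)))))) (n 1 (n 7614979 z (n 7614979 z (n
 7614979 z (n 7614979 z (n 7614979 z (n 7614979 z z)))))) (n 0 z (n 1 (n 7676699 z (n 2812 z (n
 6489883 z (n 2812 z (n 18 z (n 2812 z z)))))) z)))) (n 455 (n 1 (n 7540771 z (n 7614979 z (n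
 7540771 z (n 7540771 z (n 7540771 z (n 7540771 z z)))))) (n 0 z (n 1 (n 7676699 z (n 7614979 z
 (n 7676699 z (n 7676699 z (n 7676699 z (n 7676699 z z)))))) z))) (n 433 (n 1 (n 7614979 z (n
 7614979 z (n 7614979 z (n 7614979 z (n 7614979 z (n 7614979 z z)))))) (n 0 z (n 1 (n 7746843 z
 (n 7540771 z (n 7746843 z (n 7746843 z (n 7746843 z (n 7746843 z z)))))) z))) z))))))) (n 0 (n
 0 (n 0 z (n 0 z (n 0 z z))) (n 0 (n 0 z (n 0 z z)) (n 0 (n 0 z z) z))) (n 0 (n 441 (n 0 (n 0 z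
 (n 0 z (n 0 z z))) (n 0 (n 0 z (n 0 z (n 0 z z))) (n 0 (n 0 z (n 0 z (n 0 z z))) (n 0 (n 0 z (n
 0 z (n 0 z z))) (n 0 (n 0 z (n 0 z (n 0 z z))) (n 0 (n 0 z (n 0 z (n 0 z z))) (n 0 (n 0 z (n 0
 z (n 0 z z))) z))))))) (n 447 (n 0 (n 0 z (n 0 z (n 0 z z))) (n 0 (n 0 z (n 0 z (n 0 z z))) (n
 0 (n 0 z (n 0 z (n 0 z z))) (n 0 (n 0 z (n 0 z (n 0 z z))) (n 0 (n 0 z (n 0 z (n 0 z z)))
 z))))) (n 445 (n 0 (n 0 z (n 0 z (n 0 z z))) (n 0 (n 0 z (n 0 z (n 0 z z))) (n 0 (n 0 z (n 0 z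
 (n 0 z z))) (n 0 (n 0 z (n 0 z (n 0 z z))) (n 0 (n 0 z (n 0 z (n 0 z z))) z))))) (n 347 (n 0 (n
 0 z (n 0 z (n 0 z z))) (n 0 (n 0 z (n 0 z (n 0 z z))) (n 0 (n 0 z (n 0 z (n 0 z z))) (n 0 (n 0
 z (n 0 z (n 0 z z))) z)))) (n 555 (n 0 (n 0 z (n 0 z (n 0 z z))) (n 0 (n 0 z (n 0 z (n 0 z z)))
 (n 0 (n 0 z (n 0 z (n 0 z z))) z))) (n 553 (n 0 (n 0 z (n 0 z (n 0 z z))) (n 0 (n 0 z (n 0 z (n
 0 z z))) (n 0 (n 0 z (n 0 z (n 0 z z))) z))) (n 351 (n 0 (n 0 z (n 0 z (n 0 z z))) (n 0 (n 0 z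
 (n 0 z (n 0 z z))) (n 0 (n 0 z (n 0 z (n 0 z z))) (n 0 (n 0 z (n 0 z (n 0 z z))) (n 0 (n 0 z (n
 0 z (n 0 z z))) (n 0 (n 0 z (n 0 z (n 0 z z))) z)))))) (n 435 (n 0 (n 0 z (n 0 z (n 0 z z))) (n
 0 (n 0 z (n 0 z (n 0 z z))) (n 0 (n 0 z (n 0 z (n 0 z z))) (n 0 (n 0 z (n 0 z (n 0 z z))) (n 0
 (n 0 z (n 0 z (n 0 z z))) (n 0 (n 0 z (n 0 z (n 0 z z))) (n 0 (n 0 z (n 0 z (n 0 z z))) (n 0 (n
 0 z (n 0 z (n 0 z z))) (n 0 (n 0 z (n 0 z (n 0 z z))) (n 0 (n 0 z (n 0 z (n 0 z z))) (n 0 (n 0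
 z (n 0 z (n 0 z z))) (n 0 (n 0 z (n 0 z (n 0 z z))) (n 0 (n 0 z (n 0 z (n 0 z z))) (n 0 (n 0 z
 (n 0 z (n 0 z z))) (n 0 (n 0 z (n 0 z (n 0 z z))) (n 0 (n 0 z (n 0 z (n 0 z z))) (n 0 (n 0 z (n
 0 z (n 0 z z))) z))))))))))))))))) (n 433 (n 0 (n 0 z (n 0 z (n 0 z z))) (n 0 (n 0 z (n 0 z (n
 0 z z))) (n 0 (n 0 z (n 0 z (n 0 z z))) (n 0 (n 0 z (n 0 z (n 0 z z))) (n 0 (n 0 z (n 0 z (n 0
 z z))) (n 0 (n 0 z (n 0 z (n 0 z z))) z)))))) (n 125 (n 0 (n 0 z (n 0 z (n 0 z z))) (n 0 (n 0 z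
 (n 0 z (n 0 z z))) (n 0 (n 0 z (n 0 z (n 0 z z))) (n 0 (n 0 z (n 0 z (n 0 z z))) z)))) (n 455
 (n 0 (n 0 z (n 0 z (n 0 z z))) (n 0 (n 0 z (n 0 z (n 0 z z))) (n 0 (n 0 z (n 0 z (n 0 z z)))
 z))) (n 451 (n 0 (n 0 z (n 0 z (n 0 z z))) (n 0 (n 0 z (n 0 z (n 0 z z))) (n 0 (n 0 z (n 0 z (n
 0 z z))) (n 0 (n 0 z (n 0 z (n 0 z z))) (n 0 (n 0 z (n 0 z (n 0 z z))) z))))) (n 450 (n 0 (n 0
 z (n 0 z (n 0 z z))) (n 0 (n 0 z (n 0 z (n 0 z z))) (n 0 (n 0 z (n 0 z (n 0 z z))) (n 0 (n 0 z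
 (n 0 z (n 0 z z))) (n 0 (n 0 z (n 0 z (n 0 z z))) (n 0 (n 0 z (n 0 z (n 0 z z))) (n 0 (n 0 z (n
 0 z (n 0 z z))) (n 0 (n 0 z (n 0 z (n 0 z z))) z)))))))) (n 3 (n 0 (n 0 z (n 0 z (n 0 z z))) (n
 0 (n 0 z (n 0 z (n 0 z z))) (n 0 (n 0 z (n 0 z (n 0 z z))) (n 0 (n 0 z (n 0 z (n 0 z z))) z))))
 (n 1 (n 0 (n 0 z (n 0 z (n 0 z z))) (n 0 (n 0 z (n 0 z (n 0 z z))) (n 0 (n 0 z (n 0 z (n 0 z
 z))) (n 0 (n 0 z (n 0 z (n 0 z z))) (n 0 (n 0 z (n 0 z (n 0 z z))) (n 0 (n 0 z (n 0 z (n 0 z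
 z))) (n 0 (n 0 z (n 0 z (n 0 z z))) (n 0 (n 0 z (n 0 z (n 0 z z))) z)))))))) (n 351 (n 0 (n 0 z
 (n 0 z (n 0 z z))) (n 0 (n 0 z (n 0 z (n 0 z z))) (n 0 (n 0 z (n 0 z (n 0 z z))) (n 0 (n 0 z (n
 0 z (n 0 z z))) (n 0 (n 0 z (n 0 z (n 0 z z))) (n 0 (n 0 z (n 0 z (n 0 z z))) (n 0 (n 0 z (n 0
 z (n 0 z z))) z))))))) (n 435 (n 0 (n 0 z (n 0 z (n 0 z z))) (n 0 (n 0 z (n 0 z (n 0 z z))) (n
 0 (n 0 z (n 0 z (n 0 z z))) (n 0 (n 0 z (n 0 z (n 0 z z))) (n 0 (n 0 z (n 0 z (n 0 z z))) (n 0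
 (n 0 z (n 0 z (n 0 z z))) (n 0 (n 0 z (n 0 z (n 0 z z))) (n 0 (n 0 z (n 0 z (n 0 z z)))
 z)))))))) (n 433 (n 0 (n 0 z (n 0 z (n 0 z z))) (n 0 (n 0 z (n 0 z (n 0 z z))) (n 0 (n 0 z (n 0
 z (n 0 z z))) z))) (n 3 (n 0 (n 0 z (n 0 z (n 0 z z))) (n 0 (n 0 z (n 0 z (n 0 z z))) (n 0 (n 0
 z (n 0 z (n 0 z z))) (n 0 (n 0 z (n 0 z (n 0 z z))) (n 0 (n 0 z (n 0 z (n 0 z z))) z))))) (n 1
 (n 0 (n 0 z (n 0 z (n 0 z z))) (n 0 (n 0 z (n 0 z (n 0 z z))) (n 0 (n 0 z (n 0 z (n 0 z z))) (n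
 0 (n 0 z (n 0 z (n 0 z z))) (n 0 (n 0 z (n 0 z (n 0 z z))) (n 0 (n 0 z (n 0 z (n 0 z z))) (n 0
 (n 0 z (n 0 z (n 0 z z))) (n 0 (n 0 z (n 0 z (n 0 z z))) z)))))))) (n 0 (n 0 (n 0 z (n 0 z (n 0
 z z))) (n 0 (n 0 z (n 0 z (n 0 z z))) (n 0 (n 0 z (n 0 z (n 0 z z))) (n 0 (n 0 z (n 0 z (n 0 z
 z))) (n 0 (n 0 z (n 0 z (n 0 z z))) (n 0 (n 0 z (n 0 z (n 0 z z))) (n 0 (n 0 z (n 0 z (n 0 z
 z))) (n 0 (n 0 z (n 0 z (n 0 z z))) (n 0 (n 0 z (n 0 z (n 0 z z))) z)))))))))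
 z))))))))))))))))))))) z)))) z) z)))) (n
 0x33a9d15426869b3604d98c4514615b2461b2e34c12ce82966208b8a88598a011a6c0 (n 0 (n 593 (n 6496339 z
 (n 2 z (n 10 z (n 0 z z)))) (n 255 (n 18 z (n 0 z (n 26 z (n 34 z (n 0 z (n 42 z (n 0 z (n
 0x14ca6a8640382837c8a788f7e767f7588807a778c817c88907d7a827b8081767b898c8478807b8b667b8478817b947081907388718c9b6c0809
 z (n
 0x246307c7c837d80818686828080818083867e7a827f80807d827f7f7c7e7c82827f857f84827d7682868080877d7f7e897e8179850049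
 z (n
 0xca6ca60078080807f80818080808080808081807e80817f8080808080807f8081817f80808080808080808080817f7f808082807f80810809
 z (n 5506587 z (n 3278363 z (n 0 z z))))))))))))) (n 9 (n 0 z (n 6636083 z z)) (n 3 (n 0 z (n 0
 z (n 0 z (n 0 z (n 0 z (n 50 z (n 0 z (n 6496339 z (n 0 z z))))))))) (n 1 (n 6636083 z (n 58 z
 (n 0 z (n 66 z (n 74 z (n 0 z (n 0 z (n 0 z z)))))))) (n 0 (n 6636083 z (n 0 z (n 82 z (n 0 z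
 (n 0 z (n 90 z (n 0 z (n 6636083 z (n 0 z (n 0 z (n 98 z (n 0 z (n 0 z z))))))))))))) z))))))
 (n 9 (n 0 (n 0 z (n 1159 (n 0 z (n 0 z (n 0 z (n 0 z (n 0 z (n 0 z (n 0 z (n 0 z (n 0 z (n 0 z
 (n 0 z (n 0 z (n 0 z (n 0 z (n 0 z (n 0 z (n 0 z z))))))))))))))))) (n 1159 (n 0 z (n 0 z (n 0
 z (n 0 z (n 0 z (n 0 z (n 0 z (n 2 (n 0 z (n 0 z (n 1 z (n 1 z (n 1 z (n 1 z (n 1 z (n 2 (n 0 z
 (n 0 z (n 0 z (n 0 z (n 0 z (n 0 z z)))))) (n 1 z z))))))))) (n 0 z (n 0 z (n 0 z (n 0 z (n 0 z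
 (n 0 z (n 0 z (n 0 z (n 0 z z))))))))))))))))) (n 1159 (n 0 z (n 0 z (n 0 z (n 0 z (n 0 z (n 0
 z (n 0 z (n 0 z (n 0 z (n 0 z (n 0 z (n 0 z (n 0 z (n 0 z (n 0 z (n 0 z (n 0 z
 z))))))))))))))))) (n 1159 (n 0 z (n 0 z (n 0 z (n 0 z (n 0 z (n 0 z (n 0 z (n 0 z (n 0 z (n 0
 z (n 0 z (n 0 z (n 0 z (n 0 z (n 0 z (n 0 z (n 0 z z))))))))))))))))) (n 1157 (n 0 z (n 0 z (n
 0 z (n 0 z (n 0 z (n 0 z (n 0 z (n 0 z (n 0 z (n 0 z z)))))))))) (n 99 (n 0 z (n 0 z (n 0 z (n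
 0 z (n 2 (n 0 z (n 0 z (n 1 z (n 1 z (n 1 z z))))) (n 0 z (n 0 z (n 0 z (n 0 z (n 0 z (n 0 z (n
 0 z (n 0 z (n 0 z (n 0 z z))))))))))))))) (n 99 (n 0 z (n 2 (n 0 z (n 1 z (n 2 (n 0 z (n 0 z (n
 0 z (n 0 z (n 0 z (n 0 z z)))))) (n 1 z z)))) (n 7607851 z (n 0 z (n 0 z (n 0 z (n 0 z (n 0 z
 (n 0 z (n 0 z (n 0 z (n 0 z (n 0 z (n 0 z (n 0 z z))))))))))))))) (n 99 (n 0 z (n 0 z (n 0 z (n
 0 z (n 0 z (n 0 z (n 0 z (n 0 z (n 0 z (n 0 z (n 0 z (n 0 z (n 0 z (n 0 z (n 0 z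
 z))))))))))))))) (n 97 (n 0 z (n 0 z (n 0 z (n 0 z (n 0 z (n 0 z (n 0 z z))))))) (n 97 (n 0 z
 (n 0 z (n 0 z (n 0 z (n 0 z (n 0 z (n 2 (n 0 z z) z))))))) (n 97 (n 0 z (n 0 z (n 0 z (n 0 z (n
 0 z (n 0 z (n 0 z z))))))) z)))))))))))) (n 0 (n 167 (n 2 (n 0 z (n 0 z (n 0 z (n 1 z (n 1 z (n
 1 z (n 1 z (n 1 z (n 2 (n 0 z (n 0 z (n 0 z (n 0 z (n 0 z (n 0 (n 628 z z) z)))))) (n 1 z
 z)))))))))) (n 0 z (n 0 z (n 0 z (n 0 z (n 0 z (n 0 z (n 0 z (n 0 z (n 0 z (n 0 z (n 0 z (n 0 z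
 (n 0 z z)))))))))))))) (n 167 (n 0 z (n 0 z (n 0 z (n 0 z (n 0 z (n 0 z (n 0 z (n 0 z (n 0 z (n
 0 z (n 0 z (n 0 z (n 0 z (n 0 z z)))))))))))))) (n 167 (n 0 z (n 0 z (n 0 z (n 0 z (n 0 z (n 0
 z (n 0 z (n 0 z (n 0 z (n 2 (n 0 z (n 1 z (n 1 z (n 2 (n 0 z (n 0 z (n 0 z (n 0 z (n 0 z (n 0 z
 z)))))) (n 2 (n 0 (n 253 z z) (n 0 (n 253 z z) (n 0 z (n 0 z (n 0 z (n 0 (n 1956 z (n 1956 z
 z)) z)))))) (n 1 z (n 2 (n 0 z (n 0 z (n 0 (n 628 z z) (n 0 (n 6555675 z z) (n 0 z (n 0 (n 628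
 z (n 628 z z)) z)))))) (n 1 z z)))))))) (n 0 z (n 0 z (n 0 z (n 0 z z)))))))))))))) (n 167 (n 0
 z (n 2 (n 1 z (n 2 (n 0 z (n 0 z (n 0 z (n 0 z (n 0 z (n 0 (n 1956 z z) z)))))) (n 2 (n 0 z (n
 0 z (n 0 z (n 0 z (n 0 z (n 0 z z)))))) (n 2 (n 0 z (n 0 z (n 0 z (n 0 z (n 0 z (n 0 z z))))))
 (n 1 z (n 2 (n 0 z (n 0 z (n 0 z (n 0 z (n 0 z (n 0 z z)))))) (n 2 (n 0 z (n 0 (n 8791883 z z)
 (n 0 z (n 0 (n 6424635 z z) (n 0 z (n 0 (n 8521499 z (n 628 z z)) z)))))) z))))))) (n 0 z (n 0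
 z (n 0 z (n 0 z (n 0 z (n 0 z (n 0 z (n 0 z (n 0 z (n 0 z (n 0 z (n 0 z z)))))))))))))) (n 165
 (n 0 z (n 0 z (n 0 z (n 2 (n 1 z (n 2 (n 0 z (n 0 z (n 0 z (n 0 z (n 0 z (n 0 (n 8799003 z z)
 z)))))) (n 1 z (n 1 z (n 2 (n 0 z (n 0 z (n 0 z (n 0 z (n 0 z (n 0 z z)))))) (n 1 z z)))))) (n
 0 z (n 0 z (n 0 z (n 0 z (n 0 z z))))))))) (n 489 (n 2 (n 0 z (n 0 z (n 1 z (n 1 z (n 1 z
 z))))) (n 0 z (n 0 z (n 0 z (n 0 z (n 0 z (n 0 z (n 0 z (n 0 z (n 0 z (n 0 z z))))))))))) (n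
 489 (n 0 z (n 0 z (n 0 z (n 0 z (n 0 z (n 0 z (n 0 z (n 0 z (n 0 z (n 0 z (n 0 z z)))))))))))
 (n 489 (n 0 z (n 2 (n 1 z (n 2 (n 0 z (n 0 z (n 0 z (n 0 z (n 0 z (n 0 z z)))))) (n 2 (n 0 z (n
 0 (n 8791883 z z) (n 0 z (n 0 (n 6424635 z z) (n 0 z (n 0 (n 8521499 z (n 628 z z)) z))))))
 z))) (n
 0x4ea6ca6407807f80808181808080808080807f817f808080807f7f808181807f808080807f808181807f7e8080808080808081808080800809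
 z (n 0 z (n 0 z (n 0 z (n 0 z (n 0 z (n 0 z (n 0 z (n 0 z z))))))))))) (n 157 (n 2 (n 0 z (n 0
 z z)) (n 0 z (n 0 z (n 0 z (n 0 z z))))) (n 157 (n 0 z (n 0 z (n 0 z (n 0 z (n 0 z z))))) (n
 157 (n 0 z (n 0 z (n 0 z (n 0 z (n 0 z z))))) z))))))))))) (n 0 (n 0 z (n 0 z (n 0 z (n 1409 (n
 0 z (n 0 z (n 0 z (n 0 z (n 0 z (n 0 z (n 0 z (n 0 z (n 0 z (n 0 z (n 0 z (n 0 z (n 0 z (n 0 z
 (n 0 z (n 0 z (n 0 z z))))))))))))))))) (n 777 (n 0 z (n 0 z (n 0 z (n 0 z (n 0 z (n 0 z (n 0 z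
 (n 0 z (n 0 z (n 0 z (n 0 z (n 0 z (n 0 z z))))))))))))) (n 777 (n 0 z (n 0 z (n 0 z (n 0 z (n
 0 z (n 0 z (n 0 z (n 0 z (n 0 z (n 0 z (n 0 z (n 0 z (n 0 z z))))))))))))) (n 777 (n 0 z (n 0 z
 (n 2 (n 1 z (n 2 (n 0 z (n 0 z (n 0 z (n 0 z (n 0 z (n 0 z z)))))) (n 1 z z))) (n 0 z (n 0 z (n
 0 z (n 0 z (n 0 z (n 0 z (n 0 z (n 0 z (n 0 z (n 0 z z))))))))))))) (n 509 (n 0 z (n 0 z (n 0 z
 (n 2 (n 0 z (n 0 z z)) (n 0 z (n 0 z (n 0 z (n 0 z (n 0 z (n 0 z (n 0 z (n 0 z (n 0 z (n 0 z (n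
 0 z (n 0 z (n 0 z z))))))))))))))))) (n 509 (n 0 z (n 0 z (n 0 z (n 0 z (n 0 z (n 0 z (n 0 z (n
 0 z (n 0 z (n 0 z (n 0 z (n 0 z (n 0 z (n 0 z (n 0 z (n 0 z (n 0 z z))))))))))))))))) (n 509 (n
 0 z (n 0 z (n 0 z (n 0 z (n 0 z (n 0 z (n 0 z (n 0 z (n 0 z (n 0 z (n 7754531 z (n 0 z (n 0 z
 (n 0 z (n 0 z (n 0 z (n 0 z z))))))))))))))))) z)))))))))) (n 0 (n 0 z (n 0 z (n 399 (n 0 z (n
 0 z (n 0 z (n 0 z (n 2 (n 1 z (n 2 (n 0 z (n 0 z (n 0 z (n 0 z (n 0 z (n 0 z z)))))) (n 1 z (n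
 1 z (n 2 (n 0 z (n 0 z (n 0 z (n 0 z (n 0 z (n 0 z z)))))) (n 1 z z)))))) (n 0 z (n 0 z (n 0 z
 (n 0 z (n 0 z (n 0 z (n 0 z z)))))))))))) (n 3 (n 0 z (n 0 z (n 0 z (n 0 z (n 0 z (n 0 z (n 0 z
 (n 0 z (n 0 z (n 0 z (n 0 z (n 0 z (n 0 z z))))))))))))) (n 3 (n 0 z (n 0 z (n 0 z (n 0 z (n 0
 z (n 0 z (n 0 z (n 0 z (n 0 z (n 0 z (n 0 z (n 0 z (n 0 z z))))))))))))) (n 3 (n 0 z (n 0 z (n
 0 z (n 0 z (n 0 z (n 2 (n 1 z (n 2 (n 0 z (n 0 z (n 0 z (n 0 z (n 0 z (n 0 z z)))))) (n 2 (n 0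
 (n 8791883 z z) (n 0 z (n 0 z (n 0 (n 6424635 z z) (n 0 z (n 0 (n 1588 z (n 1588 z z)) z))))))
 z))) (n 0 z (n 0 z (n 0 z (n 0 z (n 0 z (n 0 z (n 0 z z))))))))))))) (n 397 (n 2 (n 0 z (n 0 z
 z)) (n 0 z (n 0 z (n 0 z (n 0 z (n 0 z (n 0 z (n 0 z (n 0 z (n 0 z (n 0 z z))))))))))) (n 397
 (n 0 z (n
 0x22ea4c826077d778e768e777f8a807f767888828286747e7f83907b84887c808c737c8c7c827e73897b7a837c7d6f957a8385898d806f950809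
 z (n 0 z (n 0 z (n 0 z (n 0 z (n 0 z (n 0 z (n 0 z (n 0 z (n 0 z z))))))))))) (n 397 (n 0 z (n
 0 z (n 2 z (n 0 z (n 0 z (n 0 z (n 0 z (n 0 z (n 0 z (n 0 z (n 0 z z))))))))))) z))))))))) (n 0
 (n 0 z (n 1049 (n 0 z (n 0 z (n 0 z (n 0 z (n 0 z (n 0 z (n 0 z (n 0 z (n 0 z (n 0 z (n 0 z
 z))))))))))) (n 63 (n 0 z (n 0 z (n 0 z (n 0 z (n 0 z (n 0 z z)))))) (n 63 (n 0 z (n 0 z (n 0 z
 (n 2 (n 0 z (n 1 z (n 2 (n 0 z (n 0 z (n 0 (n 4084 z z) (n 0 (n 4084 z z) (n 0 z (n 0 (n 4084 z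
 (n 7604251 z z)) z)))))) (n 1 z z)))) (n 0 z (n 0 z z)))))) (n 63 (n 0 z (n 0 z (n 0 z (n 0 z
 (n 0 z (n 0 z z)))))) (n 1021 (n 0 z (n 0 z (n 0 z (n 0 z (n 0 z z))))) (n 1021 (n 0 z (n 0 z
 (n 0 z (n 0 z (n 0 z z))))) (n 1021 (n 0 z (n 0 z (n 0 z (n 0 z (n 0 z z))))) z)))))))) (n 0 (n
 7 (n 0 z (n 0 z (n 0 z (n 0 z (n 0 z (n 0 z (n 0 z (n 0 z (n 0 z (n 0 z (n 0 z (n 0 z
 z)))))))))))) (n 255 (n 0 z (n 0 z (n 0 z (n 0 z (n 2 (n 0 z (n 0 z (n 1 z (n 1 z (n 1 z z)))))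
 (n 0 z (n 0 z (n 0 z (n 0 z (n 0 z (n 0 z (n 0 z (n 0 z (n 0 z z)))))))))))))) (n 255 (n 0 z (n
 0 z (n 0 z (n 2 (n 0 z (n 1 z (n 2 (n 0 z (n 0 z (n 0 z (n 0 z (n 0 z (n 0 z z)))))) (n 2 (n 0
 (n 1012 z z) (n 0 z (n 0 z (n 0 z (n 0 z (n 0 (n 1012 z (n 1012 z z)) z)))))) z)))) (n 0 z (n 0
 z (n 0 z (n 0 z (n 0 z (n 0 z (n 0 z (n 0 z (n 0 z (n 0 z z)))))))))))))) (n 255 (n 0 z (n 0 z
 (n 0 z (n 0 z (n 0 z (n 0 z (n 0 z (n 0 z (n 0 z (n 0 z (n 0 z (n 0 z (n 0 z (n 0 z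
 z)))))))))))))) (n 253 (n 0 z (n 0 z (n 0 z (n 0 z (n 0 z (n 0 z (n 0 z (n 0 z (n 0 z (n 0 z (n
 0 z (n 0 z z)))))))))))) (n 253 (n 0 z (n 0 z (n 0 z (n 0 z (n 0 z (n 0 z (n 0 z (n 2 (n 0 z z)
 (n 0 z (n 0 z (n 0 z (n 0 z z)))))))))))) (n 253 (n 0 z (n 0 z (n 0 z (n 0 z (n 0 z (n 0 z (n 0
 z (n 0 z (n 0 z (n 0 z (n 2 z (n 0 z z)))))))))))) z))))))) (n 0 (n 99 (n 0 z (n 0 z (n 0 z (n
 2 (n 0 z (n 0 z (n 1 z (n 1 z (n 1 z z))))) (n 0 z (n 0 z (n 0 z (n 0 z (n 0 z z))))))))) (n 99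
 (n 0 z (n 0 z (n 2 (n 0 z (n 1 z (n 2 (n 0 z (n 0 z (n 0 z (n 0 z (n 0 z (n 0 z z)))))) (n 1 z
 z)))) (n 0 z (n 0 z (n 0 z (n 0 z (n 0 z (n 0 z z))))))))) (n 99 (n 0 z (n 0 z (n 0 z (n 0 z (n
 0 z (n 0 z (n 0 z (n 0 z (n 0 z z))))))))) (n 97 (n 0 z (n 0 z (n 0 z (n 0 z (n 0 z (n 0 z (n 0
 z (n 0 z (n 0 z (n 0 z z)))))))))) (n 97 (n 0 z (n 0 z (n 0 z (n 0 z (n 2 (n 0 z z) (n 0 z (n 0
 z (n 0 z (n 0 z (n 0 z z)))))))))) (n 97 (n 0 z (n 0 z (n 0 z (n 0 z (n 0 z (n 0 z (n 0 z (n 0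
 z (n 2 z (n 0 z z)))))))))) z)))))) (n 0 (n 0 z (n 0 z (n 1 (n 2 (n 0 z (n 0 z z)) (n 0 z (n 0
 z (n 0 z (n 0 z (n 0 z (n 0 z (n 0 z (n 0 z (n 0 z (n 0 z z))))))))))) (n 1 (n 0 z (n 0 z (n 0
 z (n
 0x1aea4c8260377947d8b798b8a9686838b797e93928e7288657b698c906a93698076938f708c94ab867c7a6f918d8c4b87828467838c7f610809
 z (n 0 z (n 0 z (n 0 z (n 0 z (n 0 z (n 0 z (n 0 z z))))))))))) (n 1 (n 0 z (n 0 z (n 0 z (n 0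
 z (n 7754531 z (n 0 z (n 0 z (n 0 z (n 0 z (n 0 z (n 0 z z))))))))))) z))))) (n 0 (n 0 z (n 5
 (n 0 z (n 0 z (n 0 z (n 2 (n 0 z (n 0 z z)) (n 0 z (n 0 z (n 0 z (n 0 z (n 0 z (n 0 z (n 0 z (n
 0 z (n 0 z (n 0 z (n 0 z (n 0 z (n 0 z (n 0 z (n 0 z (n 0 z (n 0 z (n 0 z (n 0 z (n 0 z (n 0 z
 z))))))))))))))))))))))))) (n 5 (n 0 z (n 0 z (n 0 z (n 0 z (n 0 z (n 6555419 z (n 0 z (n 0 z
 (n 0 z (n 0 z (n 0 z (n 0 z (n 0 z (n 0 z (n 0 z (n 0 z (n 0 z (n 0 z (n 0 z (n 0 z (n 0 z (n 0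
 z (n 0 z (n 0 z (n 0 z z))))))))))))))))))))))))) (n 5 (n 0 z (n 0 z (n 0 z (n 0 z (n 0 z (n 0
 z (n 2 z (n 0 z (n 0 z (n 0 z (n 0 z (n 0 z (n 0 z (n 0 z (n 0 z (n 0 z (n 0 z (n 0 z (n 0 z (n
 0 z (n 0 z (n 0 z (n 0 z (n 0 z (n 0 z z))))))))))))))))))))))))) z)))) (n 0 (n 145 (n 0 z (n 0
 z (n 0 z (n 0 z (n 0 z (n 0 z (n 0 z (n 0 z (n 0 z (n 0 z (n 0 z (n 0 z z)))))))))))) (n 145 (n
 0 z (n 2 (n 0 z z) (n 0 z (n 0 z (n 0 z (n 0 z (n 0 z (n 0 z (n 0 z (n 0 z (n 0 z (n 0 z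
 z)))))))))))) (n 145 (n 0 z (n 0 z (n 0 z (n 0 z (n 0 z (n 0 z (n 0 z (n 0 z (n 0 z (n 0 z (n 0
 z (n 0 z z)))))))))))) z))) (n 0 (n 0 z (n 0 z z)) (n 0 (n 0 z z) (n 0 z z))))))))))))) (n 0 (n
 0 z (n 1 (n 6636083 z (n 6636083 z (n 6636083 z (n 6636083 z (n 6636083 z (n 6636083 z z))))))
 z)) (n 0 z z)))) (n 0x2c24d06dd2e132b308498418d4d4125a2c6aa1a3454c152d602543688698823ac209 (n 0
 (n 477 (n 6557747 z (n 0 z z)) (n 475 (n 0 z (n 2 z (n 6557747 z (n 10 z (n 0 z (n 0 z (n 0 z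
 (n 0 z (n 0 z (n 18 z (n 0 z z))))))))))) (n 474 (n 26 z (n 0 z (n 0 z (n 0 z (n 3212843 z (n 0
 z (n 0 z (n 0 z (n 0 z (n 0 z (n 0 z (n 0 z (n 0 z (n 34 z (n 0 z (n 0 z (n 0 z (n 42 z (n 50 z
 (n
 0x1aca8ca020380886d6e9c7e896d8c808083898b728e757a7d7b6b76858e768472747e95728c789b5e8e6aa08a777f80777f89758d858d800809
 z (n 0 z z))))))))))))))))))))) (n 27 (n 6631491 z (n 0 z (n 0 z (n 58 z z)))) (n 1 (n 66 z (n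
 0 z (n 0 z (n 0 z (n 6557747 z (n 0 z (n 6557747 z (n 0 z (n 0 z (n 0 z (n 0 z (n 0 z (n 0 z (n
 74 z (n 0 z (n 82 z z)))))))))))))))) (n 0 (n 90 z (n 0 z (n 6631491 z (n 0 z (n 0 z (n 98 z
 z)))))) z)))))) (n 477 (n 0 (n 0 z (n 0 z (n 949 (n 0 z (n 0 z (n 0 z (n 0 z (n 0 z (n 0 z (n 0
 z (n 0 z (n 0 z (n 0 z (n 0 z z))))))))))) (n 949 (n 0 z (n 0 z (n 0 z (n 0 z (n 2 (n 0 z (n 0
 z (n 1 z (n 1 z (n 1 z (n 2 (n 0 z (n 0 z (n 0 z (n 0 z (n 0 z (n 0 z z)))))) (n 2 (n 0 z (n 0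
 z (n 0 z (n 0 z (n 0 z (n 0 z z)))))) (n 1 z z)))))))) (n 0 z (n 0 z (n 0 z (n 0 z (n 0 z (n 0
 z z))))))))))) (n 949 (n 0 z (n 0 z (n 0 z (n 0 z (n 0 z (n 0 z (n 0 z (n 0 z (n 2 (n 0 z (n 1
 z (n 2 (n 0 z (n 0 z (n 0 (n 8848923 z (n 8848923 z z)) (n 0 z (n 0 (n 12 z z) (n 0 (n 12 z z)
 z)))))) (n 1 z (n 2 (n 0 z (n 0 z (n 0 z (n 0 z (n 0 z (n 0 z z)))))) (n 2 (n 0 z (n 0 z (n 0 z
 (n 0 z (n 0 z (n 0 z z)))))) (n 1 z z))))))) (n 0 z (n 0 z z))))))))))) (n 949 (n 0 z (n 0 z (n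
 0 z (n 0 z (n 0 z (n 0 z (n 0 z (n 0 z (n 0 z (n 0 z (n 0 z z))))))))))) (n 55 (n 0 z (n 0 z (n
 0 z (n 0 z (n 0 z (n 0 z (n 0 z (n 0 z (n 0 z (n 0 z (n 0 z z))))))))))) (n 3 (n 0 z (n 0 z (n
 0 z (n 0 z (n 0 z (n 0 z (n 0 z (n 0 z (n 0 z (n 0 z (n 0 z z))))))))))) (n 3 (n 0 z (n 0 z (n
 0 z (n 0 z (n 0 z (n 0 z (n 0 z (n 0 z (n 0 z (n 0 z (n 0 z z))))))))))) (n 3 (n 0 z (n 0 z (n
 0 z (n 0 z (n 0 z (n 0 z (n 0 z (n 0 z (n 0 z (n 2 (n 2 (n 0 z (n 0 z (n 0 z (n 0 z (n 0 z (n 0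
 z z)))))) (n 2 (n 0 z (n 0 z (n 0 (n 8790275 z z) (n 0 z (n 0 z (n 0 z z)))))) z)) (n 0 z
 z))))))))))) (n 53 (n 0 z (n 0 z (n 0 z (n 0 z (n 0 z (n 0 z (n 0 z (n 0 z (n 0 z (n 0 z (n 0 z
 (n 0 z (n 0 z (n 0 z (n 0 z (n 0 z (n 2 (n 0 z z) (n 0 z (n 0 z (n 0 z (n 0 z (n 0 z (n 0 z (n
 0 z (n 0 z (n 0 z (n 0 z (n 0 z (n 0 z (n 0 z (n 0 z (n 0 z (n 0 z
 z))))))))))))))))))))))))))))))))) (n 53 (n 0 z (n 0 z (n 0 z (n 0 z (n 0 z (n 0 z (n 0 z (n 0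
 z (n 0 z (n 0 z (n 0 z (n 0 z (n 0 z (n 0 z (n 0 z (n 0 z (n 0 z (n 0 z (n 0 z (n 0 z (n 0 z (n
 0 z (n 0 z (n 0 z (n 0 z (n 0 z (n 0 z (n 0 z (n 0 z (n 0 z (n 0 z (n 0 z (n 0 z
 z))))))))))))))))))))))))))))))))) z)))))))))))) (n 0 (n 0 z (n 1015 (n 0 z (n 0 z (n 0 z (n 0
 z (n 0 z (n 0 z (n 0 z (n 0 z (n 0 z (n 0 z (n 0 z (n 0 z (n 0 z (n 0 z (n 0 z (n 0 z (n 0 z (n
 2 (n 0 z (n 0 z (n 0 z (n 1 z (n 1 z (n 1 z (n 1 z (n 1 z (n 1 z z))))))))) (n 0 z (n 0 z (n 0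
 z z))))))))))))))))))))) (n 1015 (n 0 z (n 0 z (n 0 z (n 0 z (n 0 z (n 0 z (n 0 z (n 0 z (n 0 z
 (n 0 z (n 0 z (n 0 z (n 0 z (n 0 z (n 0 z (n 0 z (n 0 z (n 0 z (n 0 z (n 0 z (n 0 z
 z))))))))))))))))))))) (n 1015 (n 0 z (n 0 z (n 0 z (n 0 z (n 0 z (n 0 z (n 0 z (n 0 z (n 0 z
 (n 0 z (n 0 z (n 0 z (n 0 z (n 0 z (n 0 z (n 0 z (n 0 z (n 0 z (n 0 z (n 0 z (n 0 z
 z))))))))))))))))))))) (n 1015 (n 0 z (n 0 z (n 0 z (n 0 z (n 0 z (n 0 z (n 0 z (n 0 z (n 0 z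
 (n 0 z (n 0 z (n 0 z (n 0 z (n 0 z (n 0 z (n 0 z (n 0 z (n 0 z (n 0 z (n 0 z (n 0 z
 z))))))))))))))))))))) (n 55 (n 0 z (n 0 z (n 0 z (n 0 z (n 0 z (n 0 z (n 2 (n 1 z (n 1 z (n 1
 z (n 1 z (n 1 z z))))) z))))))) (n 51 (n 7750403 z (n 0 z (n 0 z (n 0 z (n 0 z (n 0 z (n 0 z
 z))))))) (n 51 (n 0 z (n 0 z (n 0 z (n 0 z (n 0 z (n 2 (n 0 z (n 1 z (n 1 z z))) (n 0 z
 z))))))) (n 51 (n 0 z (n 0 z (n 0 z (n 0 z (n 0 z (n 0 z (n 0 z z))))))) (n 53 (n 0 z (n 0 z (n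
 0 z (n 0 z (n 0 z (n 0 z (n 2 (n 0 z z) (n 0 z (n 0 z (n 0 z z)))))))))) (n 53 (n 0 z (n 0 z (n
 0 z (n 0 z (n 0 z (n 2 z (n 0 z (n 0 z (n 0 z (n 0 z z)))))))))) z))))))))))) (n 0 (n 949 (n 0
 z (n 0 z (n 0 z (n 0 z (n 0 z (n 0 z (n 0 z (n 0 z (n 0 z (n 0 z (n 0 z (n 2 (n 0 z (n 0 z (n 0
 z (n 1 z (n 2 (n 0 z (n 0 z (n 0 (n 3652 z (n 3652 z z)) (n 0 z (n 0 z (n 0 (n 3652 z z)
 z)))))) (n 1 z (n 2 (n 0 z (n 0 z (n 0 z (n 0 z (n 0 z (n 0 z z)))))) (n 2 (n 0 z (n 0 z (n 0 z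
 (n 0 z (n 0 z (n 0 z z)))))) (n 1 z z))))))))) (n 0 z (n 0 z (n 0 z (n 0 z (n 0 z (n 0 z
 z)))))))))))))))))) (n 949 (n 0 z (n 0 z (n 0 z (n 0 z (n 0 z (n 0 z (n 0 z (n 0 z (n 0 z (n 0
 z (n 0 z (n 0 z (n 0 z (n 0 z (n 0 z (n 0 z (n 0 z (n 0 z z)))))))))))))))))) (n 949 (n 0 z (n
 0 z (n 0 z (n 0 z (n 0 z (n 0 z (n 0 z (n 0 z (n 0 z (n 0 z (n 0 z (n 0 z (n 0 z (n 0 z (n 0 z
 (n 0 z (n 0 z (n 0 z z)))))))))))))))))) (n 949 (n 2 (n 1 z (n 1 z (n 1 z (n 2 (n 0 (n 3652 z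
 z) (n 0 z (n 0 (n 3652 z (n 3652 z z)) (n 0 z (n 0 (n 6625323 z z) (n 0 z z)))))) (n 2 (n 0 z
 (n 0 z (n 0 z (n 0 z (n 0 z (n 0 z z)))))) (n 1 z z)))))) (n 0 z (n 0 z (n 0 z (n 0 z (n 0 z (n
 0 z (n 0 z (n 0 z (n 0 z (n 0 z (n 0 z (n 0 z (n 0 z (n 0 z (n 0 z (n 0 z (n 0 z
 z)))))))))))))))))) (n 75 (n 0 z (n 0 z (n 2 (n 1 z (n 1 z (n 2 (n 0 z (n 0 z (n 0 z (n 0 z (n
 0 z (n 0 z z)))))) (n 2 (n 0 z (n 0 z (n 0 (n 8786731 z z) (n 0 z (n 0 z (n 0 z z)))))) (n 1 z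
 z))))) z))) (n 913 (n 0 z (n 0 z (n 0 z (n 0 z (n 0 z (n 0 z (n 0 z (n 0 z (n 0 z (n 0 z (n 0 z
 (n 2 (n 0 z (n 0 z (n 1 z (n 1 z z)))) (n 0 z z))))))))))))) (n 913 (n 0 z (n 0 z (n 2 (n 0 z
 (n 2 (n 0 z (n 0 z (n 0 z (n 0 z (n 0 z (n 0 z z)))))) (n 1 z z))) (n 0 z (n 0 z (n 0 z (n 0 z
 (n 0 z (n 0 z (n 0 z (n 0 z (n 0 z (n 0 z z))))))))))))) (n 913 (n 0 z (n 0 z (n 0 z (n 0 z (n
 0 z (n 0 z (n 0 z (n 0 z (n 0 z (n 0 z (n 0 z (n 0 z (n 0 z z))))))))))))) (n 77 (n 0 z (n 0 z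
 (n 0 z (n 0 z (n 0 z (n 0 z (n 0 z (n 0 z (n 0 z (n 0 z (n 0 z (n 0 z (n 0 z (n 0 z (n 0 z (n 0
 z (n 0 z (n 0 z (n 0 z (n 0 z (n 0 z (n 0 z (n 0 z (n 0 z (n 0 z (n 0 z (n 0 z
 z))))))))))))))))))))))))))) (n 77 (n 0 z (n 0 z (n 0 z (n 0 z (n 0 z (n 0 z (n 0 z (n 0 z (n 0
 z (n 0 z (n 0 z (n 0 z (n 0 z (n 0 z (n 0 z (n 0 z (n 0 z (n 0 z (n 0 z (n 0 z (n 0 z (n 0 z (n
 0 z (n 0 z (n 0 z (n 0 z (n 2 z z))))))))))))))))))))))))))) z)))))))))) (n 0 (n 0 z (n 0 z (n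
 0 z (n 7 (n 0 z (n 0 z (n 0 z (n 0 z (n 0 z (n 0 z (n 0 z z))))))) (n 3 (n 2 (n 0 z (n 0 z (n 2
 (n 0 z (n 0 z (n 0 (n 4 z (n 4 z z)) (n 0 z (n 0 z (n 0 (n 5 z z) z)))))) (n 1 z z)))) (n 0 z
 (n 0 z (n 0 z (n 0 z (n 0 z (n 0 z (n 0 z (n 0 z (n 0 z (n 0 z (n 0 z z)))))))))))) (n 3 (n 0 z
 (n 0 z (n 0 z (n 0 z (n 0 z (n 0 z (n 0 z (n 0 z (n 0 z (n 0 z (n 0 z (n 0 z z)))))))))))) (n 3
 (n 0 z (n 0 z (n 0 z (n 0 z (n 0 z (n 0 z (n 0 z (n 0 z (n 2 (n 2 (n 0 z (n 0 z (n 0 z (n 0 z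
 (n 0 z (n 0 z z)))))) (n 2 (n 0 z (n 0 z (n 0 (n 8790275 z z) (n 0 z (n 0 z (n 0 z z)))))) z))
 (n 0 z (n 0 z (n 0 z z)))))))))))) (n 1 (n 0 z (n 2 (n 0 z z) (n 0 z (n 0 z (n 0 z (n 0 z (n 0
 z (n 0 z (n 0 z (n 0 z (n 0 z (n 0 z (n 0 z (n 0 z (n 0 z (n 0 z (n 0 z (n 0 z (n 0 z (n 0 z (n
 0 z (n 0 z (n 0 z (n 0 z (n 0 z (n 0 z (n 0 z z))))))))))))))))))))))))))) (n 1 (n 0 z (n 0 z
 (n 0 z (n 0 z (n 0 z (n 0 z (n 0 z (n 0 z (n 0 z (n 0 z (n 0 z (n 0 z (n 0 z (n 0 z (n 0 z (n 0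
 z (n 0 z (n 0 z (n 0 z (n 0 z (n 0 z (n 0 z (n 0 z (n 0 z (n 0 z (n 0 z (n 0 z
 z))))))))))))))))))))))))))) z))))))))) (n 0 (n 0 z (n 0 z (n 1065 (n 0 z (n 0 z (n 0 z (n 0 z
 (n 0 z (n 0 z (n 0 z (n 0 z (n 0 z (n 0 z (n 0 z (n 0 z (n 0 z (n 0 z (n 0 z (n 0 z (n 0 z (n 0
 z (n 0 z (n 0 z (n 0 z (n 0 z (n 0 z z))))))))))))))))))))))) (n 15 (n 7750403 z (n 0 z (n 0 z
 (n 0 z (n 0 z (n 0 z (n 0 z (n 0 z (n 0 z (n 0 z (n 0 z (n 0 z (n 0 z (n 0 z (n 0 z (n 0 z (n 0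
 z (n 0 z (n 0 z (n 0 z (n 0 z (n 0 z (n 0 z z))))))))))))))))))))))) (n 15 (n 0 z (n 0 z (n 0 z
 (n 0 z (n 0 z (n 0 z (n 0 z (n 0 z (n 0 z (n 0 z (n 0 z (n 0 z (n 0 z (n 0 z (n 0 z (n 0 z (n 0
 z (n 0 z (n 0 z (n 0 z (n 2 (n 0 z (n 1 z (n 1 z z))) (n 0 z (n 0 z z))))))))))))))))))))))) (n
 15 (n 0 z (n 0 z (n 0 z (n 0 z (n 0 z (n 0 z (n 0 z (n 0 z (n 0 z (n 0 z (n 0 z (n 0 z (n 0 z
 (n 0 z (n 0 z (n 0 z (n 0 z (n 0 z (n 0 z (n 0 z (n 0 z (n 0 z (n 0 z z)))))))))))))))))))))))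
 (n 17 (n 2 (n 0 z z) (n 0 z (n 0 z (n 0 z (n 0 z (n 0 z (n 0 z (n 0 z (n 0 z (n 0 z (n 0 z (n 0
 z (n 0 z (n 0 z (n 0 z (n 0 z (n 0 z (n 0 z (n 0 z (n 0 z (n 0 z z))))))))))))))))))))) (n 17
 (n 0 z (n 0 z (n 0 z (n 0 z (n 0 z (n 0 z (n 0 z (n 0 z (n 0 z (n 0 z (n 0 z (n 0 z (n 0 z (n 0
 z (n 0 z (n 0 z (n 0 z (n 0 z (n 0 z (n 0 z (n 0 z z))))))))))))))))))))) z)))))))) (n 0 (n 0 z
 (n 1065 (n 0 z (n 2 (n 1 z (n 1 z (n 2 (n 0 z (n 0 z (n 0 z (n 0 z (n 0 z (n 0 z z)))))) (n 2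
 (n 0 z (n 0 z (n 0 z (n 0 z (n 0 z (n 0 z z)))))) (n 1 z z))))) (n 0 z (n 0 z (n 0 z (n 0 z (n
 0 z z))))))) (n 21 (n 0 z (n 0 z (n 2 (n 0 z (n 0 z (n 2 (n 0 z (n 0 z (n 0 (n 3213419 z (n
 3213419 z z)) (n 0 z (n 0 z (n 0 (n 3213419 z z) z)))))) (n 1 z z)))) (n 0 z (n 0 z (n 0 z (n 0
 z (n 0 z z)))))))) (n 21 (n 0 z (n 0 z (n 0 z (n 0 z (n 0 z (n 0 z (n 0 z (n 2 (n 0 z (n 2 (n 0
 z (n 0 z (n 0 z (n 0 z (n 0 z (n 0 z z)))))) (n 1 z z))) z)))))))) (n 21 (n 0 z (n 0 z (n 0 z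
 (n 0 z (n 0 z (n 0 z (n 0 z (n 0 z z)))))))) (n 17 (n 0 z (n 0 z (n 0 z (n 0 z (n 0 z (n 0 z (n
 0 z (n 0 z (n 0 z (n 0 z (n 0 z z))))))))))) (n 17 (n 0 z (n 0 z (n 0 z (n 0 z (n 0 z (n 0 z (n
 0 z (n 0 z (n 0 z (n 0 z (n 2 z z))))))))))) z))))))) (n 0 (n 1093 (n 0 z (n 0 z (n 0 z (n 0 z
 (n 0 z (n 0 z (n 0 z z))))))) (n 21 (n 0 z (n 0 z (n 0 z (n 0 z z)))) (n 21 (n 0 z (n 0 z (n 0
 z (n 0 z z)))) (n 21 (n 0 z (n 0 z (n 0 z (n 0 z z)))) (n 17 (n 0 z (n 2 (n 0 z z) (n 0 z (n 0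
 z (n 0 z (n 0 z (n 0 z (n 0 z (n 0 z (n 0 z (n 0 z z))))))))))) (n 17 (n 0 z (n 0 z (n 0 z (n 0
 z (n 0 z (n 0 z (n 0 z (n 0 z (n 0 z (n 0 z (n 0 z z))))))))))) z)))))) (n 0 (n 99 (n 2 (n 0 z
 (n 0 z (n 1 z (n 1 z z)))) (n 0 z (n 0 z (n 0 z (n 0 z (n 0 z (n 0 z (n 0 z (n 0 z (n 0 z
 z)))))))))) (n 99 (n 0 z (n 0 z (n 0 z (n 0 z (n 0 z (n 0 z (n 0 z (n 0 z (n 0 z (n 0 z
 z)))))))))) (n 99 (n 0 z (n 0 z (n 0 z (n 0 z (n 0 z (n 0 z (n 0 z (n 0 z (n 2 (n 2 (n 0 z (n 0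
 z (n 0 z (n 0 z (n 0 z (n 0 z z)))))) (n 1 z z)) (n 0 z z)))))))))) (n 109 (n 2 (n 0 z z) (n 0
 z (n 0 z (n 0 z (n 0 z (n 0 z (n 0 z (n 0 z (n 0 z z))))))))) (n 109 (n 0 z (n 0 z (n 0 z (n 0
 z (n 0 z (n 0 z (n 0 z (n 0 z (n 0 z z))))))))) z))))) (n 0 (n 0 z (n 0 z (n 1 (n 0 z (n 0 z (n
 0 z (n 0 z (n 0 z (n 0 z (n 0 z z))))))) (n 1 (n 0 z (n 0 z (n 0 z (n 0 z (n 0 z (n 0 z (n 0 z
 z))))))) z)))) (n 0 (n 0 z (n 145 (n 0 z (n 0 z (n 0 z (n 0 z (n 0 z (n 2 (n 0 z z) (n 0 z (n 0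
 z (n 0 z z))))))))) (n 145 (n 0 z (n 0 z (n 0 z (n 0 z (n 0 z (n 0 z (n 0 z (n 0 z (n 0 z
 z))))))))) z))) (n 0 (n 1 (n 0 z (n 0 z (n 0 z (n 0 z z)))) (n 1 (n 0 z (n 0 z (n 0 z (n 0 z
 z)))) z)) (n 0 (n 0 z z) (n 0 z z))))))))))))) (n 0 (n 1 (n 6557747 z (n 6557747 z (n 6557747 z
 (n 6557747 z (n 6557747 z (n 6557747 z z)))))) (n 0 z z)) (n 0 z z)))) (n
 0x2d46513296e194b340a57b41aad30956990a74ca010e540 (n 0x34ca5 (n 279 (n 6557731 z (n 2 z (n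
 6557731 z (n 10 z z)))) (n 255 (n 0 z (n 0 z (n 0 z (n 0 z (n 0 z (n 0 z (n 0 z (n 0 z (n 0 z
 (n 0 z (n 6496515 z (n 0 z (n 0 z (n 18 z z)))))))))))))) (n 9 (n 0 z (n 6496515 z (n 0 z (n 0
 z (n 26 z (n 34 z z)))))) (n 243 (n 0 z (n 0 z (n 0 z (n 0 z (n 0 z (n 0 z (n 42 z (n 6496515 z
 z)))))))) (n 1 (n 0 z (n 6557731 z (n 0 z (n 0 z (n 50 z z))))) (n 0 (n 0 z (n 0 z (n 0 z (n
 6623755 z (n 0 z (n 0 z (n 58 z (n 0 z (n 0 z (n 0 z (n 0 z (n 66 z (n 0 z (n 0 z (n 6619931 z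
 (n 0 z (n 0 z (n 0 z (n 0 z (n 0 z (n 0 z (n 0 z (n 0 z z))))))))))))))))))))))) z)))))) (n 279
 (n 0 (n 0 z (n 983 (n 0 z (n 0 z (n 0 z (n 0 z (n 0 z (n 2 (n 2 (n 0 z (n 0 z (n 0 z (n 0 z (n
 0 z (n 0 z z)))))) (n 2 (n 0 z (n 0 z (n 0 z (n 0 z (n 0 z (n 0 z z)))))) (n 2 (n 0 z (n 0 z (n
 0 z (n 0 z (n 0 z (n 0 z z)))))) (n 2 (n 0 z (n 0 z (n 0 z (n 0 z (n 0 z (n 0 z z)))))) (n 2 (n
 0 z (n 0 z (n 0 z (n 0 z (n 0 z (n 0 z z)))))) (n 2 (n 0 z (n 0 z (n 0 z (n 0 z (n 0 z (n 0 z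
 z)))))) z)))))) z)))))) (n 999 (n 0 z (n 0 z (n 0 z (n 0 z (n 2 (n 0 z (n 2 (n 0 z (n 0 z (n 0
 z (n 0 z (n 0 z (n 0 z z)))))) (n 2 (n 0 z (n 0 z (n 0 z (n 0 z (n 0 z (n 0 z z)))))) (n 2 (n 0
 z (n 0 z (n 0 z (n 0 z (n 0 z (n 0 z z)))))) (n 2 (n 0 z (n 0 z (n 0 z (n 0 z (n 0 z (n 0 z
 z)))))) z))))) z))))) (n 999 (n 0 z (n 0 z (n 0 z (n 0 z (n 0 z z))))) (n 981 (n 0 z (n 0 z (n
 2 (n 2 (n 0 z (n 0 z (n 0 z (n 0 z (n 0 z (n 0 z z)))))) (n 2 (n 0 z (n 0 z (n 0 z (n 0 z (n 0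
 z (n 0 z z)))))) (n 2 (n 0 z (n 0 z (n 0 z (n 0 z (n 0 z (n 0 z z)))))) z))) (n 0 z (n 0 z
 z))))) (n 303 (n 0 z (n 0 z (n 0 z (n 2 (n 2 (n 0 z (n 0 z (n 0 z (n 0 z (n 0 z (n 0 z z))))))
 (n 2 (n 0 z (n 0 z (n 0 z (n 0 z (n 0 z (n 0 z z)))))) z)) (n 0 z z))))) (n 1057 (n 0 z (n 0 z
 (n 0 z (n 2 (n 0 z z) (n 0 z (n 0 z z)))))) (n 1057 (n 0 z (n 0 z (n 0 z (n 0 z (n 0 z (n 0 z
 z)))))) z)))))))) (n 0 (n 631 (n 0 z (n 0 z (n 0 z (n 0 z (n 0 z (n 0 z (n 0 z (n 0 z (n 0 z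
 z))))))))) (n 363 (n 0 z (n 0 z (n 0 z (n 0 z (n 0 z (n 0 z (n 0 z (n 0 z (n 0 z (n 0 z (n 0 z
 (n 0 z (n 0 z (n 0 z (n 0 z (n 0 z (n 0 z (n 0 z (n 0 z (n 0 z (n 0 z (n 0 z
 z)))))))))))))))))))))) (n 363 (n 0 z (n 0 z (n 0 z (n 0 z (n 0 z (n 0 z (n 0 z (n 0 z (n 0 z
 (n 0 z (n 0 z (n 0 z (n 0 z (n 0 z (n 0 z (n 0 z (n 0 z (n 0 z (n 0 z (n 0 z (n 0 z (n 0 z
 z)))))))))))))))))))))) (n 639 (n 0 z (n 0 z (n 0 z (n 0 z (n 0 z (n 0 z (n 0 z (n 0 z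
 z)))))))) (n 531 (n 0 z (n 0 z (n 0 z (n 0 z (n 0 z z))))) (n 553 (n 0 z (n 0 z (n 0 z (n 0 z
 (n 0 z (n 0 z (n 0 z (n 0 z (n 0 z z))))))))) (n 553 (n 0 z (n 0 z (n 0 z (n 0 z (n 0 z (n 2 z
 (n 0 z (n 0 z (n 0 z z))))))))) z))))))) (n 0 (n 129 (n 0 z (n 0 z (n 0 z (n 0 z (n 0 z z)))))
 (n 129 (n 0 z (n 0 z (n 0 z (n 0 z (n 0 z z))))) (n 627 (n 0 z (n 0 z (n 0 z (n 0 z (n 0 z (n 0
 z (n 0 z (n 0 z (n 0 z (n 0 z (n 0 z (n 0 z (n 0 z z))))))))))))) (n 63 (n 0 z (n 0 z (n 0 z (n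
 0 z z)))) (n 625 (n 0 z (n 0 z (n 0 z (n 0 z (n 0 z z))))) (n 625 (n 0 z (n 0 z (n 0 z (n 0 z
 (n 0 z z))))) z)))))) (n 0 (n 0 z (n 27 (n 0 z (n 0 z (n 0 z (n 0 z (n 0 z z))))) (n 15 (n 0 z
 (n 0 z (n 0 z (n 0 z (n 0 z (n 0 z (n 0 z (n 0 z (n 0 z z))))))))) (n 17 (n 0 z (n 0 z (n 0 z
 (n 0 z (n 0 z (n 0 z z)))))) (n 17 (n 0 z (n 0 z (n 0 z (n 0 z (n 0 z (n 0 z z)))))) z))))) (n
 0 (n 33 (n 0 z (n 0 z (n 0 z (n 0 z (n 0 z (n 0 z z)))))) (n 99 (n 0 z (n 0 z (n 0 z (n 0 z (n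
 0 z (n 0 z (n 0 z (n 0 z (n 0 z z))))))))) (n 17 (n 0 z (n 0 z (n 0 z (n 0 z (n 0 z (n 0 z
 z)))))) (n 17 (n 0 z (n 0 z (n 0 z (n 0 z (n 0 z (n 0 z z)))))) z)))) (n 0 (n 531 (n 0 z (n 0 z
 (n 0 z (n 0 z z)))) (n 485 (n 0 z (n 0 z (n 0 z (n 0 z (n 0 z (n 0 z (n 0 z (n 0 z (n 0 z (n 0
 z (n 0 z (n 0 z (n 0 z (n 0 z (n 0 z (n 0 z (n 0 z (n 0 z (n 0 z (n 0 z (n 0 z (n 0 z (n 0 z (n
 0 z (n 0 z (n 0 z z)))))))))))))))))))))))))) (n 485 (n 0 z (n 0 z (n 0 z (n 0 z (n 0 z (n 0 z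
 (n 0 z (n 0 z (n 0 z (n 0 z (n 0 z (n 0 z (n 0 z (n 0 z (n 0 z (n 0 z (n 0 z (n 0 z (n 0 z (n 0
 z (n 0 z (n 0 z (n 0 z (n 0 z (n 0 z (n 0 z z)))))))))))))))))))))))))) z))) (n 0 (n 1 (n 0 z
 (n 0 z (n 0 z (n 0 z (n 0 z (n 0 z (n 0 z (n 0 z z)))))))) (n 1 (n 0 z (n 2 z (n 0 z (n 0 z (n
 0 z (n 0 z (n 0 z (n 0 z z)))))))) z)) (n 0 (n 0 z z) (n 0 z z))))))))) (n 0 (n 1 (n 6496515 z
 (n 6557731 z (n 6557731 z (n 6557731 z (n 6557731 z (n 6557731 z z)))))) (n 1 (n 6496515 z (n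
 6623755 z (n 2044 z (n 2044 z (n 2044 z (n 2044 z z)))))) (n 1 (n 6496515 z (n 6557731 z (n
 6557731 z (n 6557731 z (n 6557731 z (n 6557731 z z)))))) (n 1 (n 6496515 z (n 6623755 z (n 2044
 z (n 2044 z (n 2 z (n 2044 z z)))))) z)))) (n 0 (n 0x50e540 (n 0 (n 0 (n 7745875 z (n 7745875 z
 (n 7745875 z (n 7745875 z (n 7745875 z (n 7745875 z z)))))) z) (n 0 (n 279 (n 1 (n 7606307 z (n
 7606307 z (n 7606307 z (n 7606307 z (n 7606307 z (n 7606307 z z)))))) (n 1 (n 2524 z (n 2 z (n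
 2524 z (n 7538267 z (n 7685659 z (n 2524 z z)))))) (n 1 (n 7606307 z (n 7606307 z (n 7606307 z
 (n 7606307 z (n 7606307 z (n 7606307 z z)))))) (n 1 (n 7745875 z (n 7745875 z (n 7745875 z (n
 7745875 z (n 7745875 z (n 7745875 z z)))))) z)))) (n 31 (n 1 (n 7606307 z (n 7606307 z (n
 7606307 z (n 7606307 z (n 7606307 z (n 7606307 z z)))))) (n 1 (n 2572 z (n 2044 z (n 2572 z (n
 2572 z (n 6563643 z (n 2572 z z)))))) (n 0 z (n 1 (n 7545091 z (n 7545091 z (n 7545091 z (n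
 7545091 z (n 7545091 z (n 7545091 z z)))))) z)))) (n 65 (n 1 (n 7545091 z (n 7545091 z (n
 7545091 z (n 7545091 z (n 7545091 z (n 7545091 z z)))))) (n 0 z (n 1 (n 7545091 z (n 7545091 z
 (n 7545091 z (n 7545091 z (n 7545091 z (n 7545091 z z)))))) (n 0 z (n 0 z z))))) (n 265 (n 1 (n
 7606307 z (n 7606307 z (n 7606307 z (n 7606307 z (n 7606307 z (n 7606307 z z)))))) (n 1 (n 2572
 z (n 124 z (n 2572 z (n 2572 z (n 7742491 z (n 2572 z z)))))) (n 0 z (n 1 (n 7545091 z (n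
 7545091 z (n 7545091 z (n 7545091 z (n 7545091 z (n 7545091 z z)))))) z)))) (n 33 (n 1 (n
 7606307 z (n 7606307 z (n 7606307 z (n 7606307 z (n 7606307 z (n 7606307 z z)))))) (n 1 (n 2236
 z (n 6428475 z (n 2236 z (n 7668507 z (n 12 z (n 7685659 z z)))))) (n 0 z (n 1 (n 7545091 z (n
 7545091 z (n 7545091 z (n 7545091 z (n 7545091 z (n 7545091 z z)))))) z)))) (n 317 (n 1 (n
 7545091 z (n 7545091 z (n 7545091 z (n 7545091 z (n 7545091 z (n 7545091 z z)))))) (n 1 (n 2252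
 z (n 7668507 z (n 2252 z (n 2252 z (n 2252 z (n 7742491 z z)))))) (n 1 (n 2252 z (n 7742491 z
 (n 2252 z (n 7668507 z (n 2252 z (n 7685659 z z)))))) (n 0 z (n 1 (n 7672331 z (n 7672331 z (n
 7672331 z (n 7672331 z (n 7672331 z (n 7672331 z z)))))) z))))) (n 279 (n 1 (n 7545091 z (n
 7606307 z (n 7606307 z (n 7606307 z (n 7606307 z (n 7606307 z z)))))) (n 1 (n 7545091 z (n
 7672331 z (n 2044 z (n 2044 z (n 3278699 z (n 2044 z z)))))) (n 1 (n 7545091 z (n 7606307 z (n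
 7606307 z (n 7606307 z (n 7606307 z (n 7606307 z z)))))) (n 1 (n 7545091 z (n 7745875 z (n
 7745875 z (n 7745875 z (n 7745875 z (n 7745875 z z)))))) z)))) z))))))) (n 0 (n 0 (n 0 z z) z)
 (n 0 (n 321 (n 0 (n 0 z z) (n 0 (n 0 z z) (n 0 (n 0 z z) (n 0 (n 0 z z) (n 0 (n 0 z z) (n 0 (n
 0 z z) (n 0 (n 0 z z) (n 0 (n 0 z z) (n 0 (n 0 z z) z))))))))) (n 183 (n 0 (n 0 z z) (n 0 (n 0
 z z) (n 0 (n 0 z z) (n 0 (n 0 z z) (n 0 (n 0 z z) (n 0 (n 0 z z) (n 0 (n 0 z z) (n 0 (n 0 z z)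
 (n 0 (n 0 z z) (n 0 (n 0 z z) (n 0 (n 0 z z) (n 0 (n 0 z z) (n 0 (n 0 z z) (n 0 (n 0 z z) (n 0
 (n 0 z z) (n 0 (n 0 z z) (n 0 (n 0 z z) (n 0 (n 0 z z) (n 0 (n 0 z z) (n 0 (n 0 z z) (n 0 (n 0
 z z) (n 0 (n 0 z z) z)))))))))))))))))))))) (n 65 (n 0 (n 0 z z) (n 0 (n 0 z z) (n 0 (n 0 z z)
 (n 0 (n 0 z z) (n 0 (n 0 z z) z))))) (n 321 (n 0 (n 0 z z) (n 0 (n 0 z z) (n 0 (n 0 z z) (n 0
 (n 0 z z) (n 0 (n 0 z z) (n 0 (n 0 z z) (n 0 (n 0 z z) (n 0 (n 0 z z) z)))))))) (n 315 (n 0 (n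
 0 z z) (n 0 (n 0 z z) (n 0 (n 0 z z) (n 0 (n 0 z z) (n 0 (n 0 z z) (n 0 (n 0 z z) (n 0 (n 0 z
 z) (n 0 (n 0 z z) (n 0 (n 0 z z) (n 0 (n 0 z z) (n 0 (n 0 z z) (n 0 (n 0 z z) (n 0 (n 0 z z)
 z))))))))))))) (n 15 (n 0 (n 0 z z) (n 0 (n 0 z z) (n 0 (n 0 z z) (n 0 (n 0 z z) (n 0 (n 0 z z)
 z))))) (n 279 (n 0 (n 0 z z) (n 0 (n 0 z z) (n 0 (n 0 z z) (n 0 (n 0 z z) (n 0 (n 0 z z) z)))))
 (n 33 (n 0 (n 0 z z) (n 0 (n 0 z z) (n 0 (n 0 z z) (n 0 (n 0 z z) z)))) (n 9 (n 0 (n 0 z z) (n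
 0 (n 0 z z) (n 0 (n 0 z z) (n 0 (n 0 z z) (n 0 (n 0 z z) (n 0 (n 0 z z) (n 0 (n 0 z z) (n 0 (n
 0 z z) (n 0 (n 0 z z) z))))))))) (n 267 (n 0 (n 0 z z) (n 0 (n 0 z z) (n 0 (n 0 z z) (n 0 (n 0
 z z) z)))) (n 281 (n 0 (n 0 z z) (n 0 (n 0 z z) (n 0 (n 0 z z) (n 0 (n 0 z z) (n 0 (n 0 z z) (n
 0 (n 0 z z) (n 0 (n 0 z z) (n 0 (n 0 z z) (n 0 (n 0 z z) z))))))))) (n 317 (n 0 (n 0 z z) (n 0
 (n 0 z z) (n 0 (n 0 z z) (n 0 (n 0 z z) (n 0 (n 0 z z) z))))) (n 9 (n 0 (n 0 z z) (n 0 (n 0 z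
 z) (n 0 (n 0 z z) (n 0 (n 0 z z) (n 0 (n 0 z z) (n 0 (n 0 z z) z)))))) (n 243 (n 0 (n 0 z z) (n
 0 (n 0 z z) (n 0 (n 0 z z) (n 0 (n 0 z z) (n 0 (n 0 z z) (n 0 (n 0 z z) (n 0 (n 0 z z) (n 0 (n
 0 z z) (n 0 (n 0 z z) (n 0 (n 0 z z) (n 0 (n 0 z z) (n 0 (n 0 z z) (n 0 (n 0 z z) (n 0 (n 0 z
 z) (n 0 (n 0 z z) (n 0 (n 0 z z) (n 0 (n 0 z z) (n 0 (n 0 z z) (n 0 (n 0 z z) (n 0 (n 0 z z) (n
 0 (n 0 z z) (n 0 (n 0 z z) (n 0 (n 0 z z) (n 0 (n 0 z z) (n 0 (n 0 z z) (n 0 (n 0 z z)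
 z)))))))))))))))))))))))))) (n 1 (n 0 (n 0 z z) (n 0 (n 0 z z) (n 0 (n 0 z z) (n 0 (n 0 z z) (n
 0 (n 0 z z) (n 0 (n 0 z z) (n 0 (n 0 z z) (n 0 (n 0 z z) z)))))))) (n 279 (n 0 (n 0 z z) (n 0
 (n 0 z z) (n 0 (n 0 z z) (n 0 (n 0 z z) z)))) (n 255 (n 0 (n 0 z z) (n 0 (n 0 z z) (n 0 (n 0 z
 z) (n 0 (n 0 z z) (n 0 (n 0 z z) (n 0 (n 0 z z) (n 0 (n 0 z z) (n 0 (n 0 z z) (n 0 (n 0 z z) (n
 0 (n 0 z z) (n 0 (n 0 z z) (n 0 (n 0 z z) (n 0 (n 0 z z) (n 0 (n 0 z z) z)))))))))))))) (n 9 (n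
 0 (n 0 z z) (n 0 (n 0 z z) (n 0 (n 0 z z) (n 0 (n 0 z z) (n 0 (n 0 z z) (n 0 (n 0 z z) z))))))
 (n 243 (n 0 (n 0 z z) (n 0 (n 0 z z) (n 0 (n 0 z z) (n 0 (n 0 z z) (n 0 (n 0 z z) (n 0 (n 0 z
 z) (n 0 (n 0 z z) (n 0 (n 0 z z) z)))))))) (n 1 (n 0 (n 0 z z) (n 0 (n 0 z z) (n 0 (n 0 z z) (n
 0 (n 0 z z) (n 0 (n 0 z z) z))))) (n 0 (n 0 (n 0 z z) (n 0 (n 0 z z) (n 0 (n 0 z z) (n 0 (n 0 z
 z) (n 0 (n 0 z z) (n 0 (n 0 z z) (n 0 (n 0 z z) (n 0 (n 0 z z) (n 0 (n 0 z z) (n 0 (n 0 z z) (n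
 0 (n 0 z z) (n 0 (n 0 z z) (n 0 (n 0 z z) (n 0 (n 0 z z) (n 0 (n 0 z z) (n 0 (n 0 z z) (n 0 (n
 0 z z) (n 0 (n 0 z z) (n 0 (n 0 z z) (n 0 (n 0 z z) (n 0 (n 0 z z) (n 0 (n 0 z z) (n 0 (n 0 z
 z) z))))))))))))))))))))))) z))))))))))))))))))))) z)))) z) z)))) (n
 0x21d65c0eb268358e61ae7a1162ac89568708753033a1d40 (n 0x343ac (n 587 (n 6557747 z (n 0 z (n 0 z
 (n 2 z z)))) (n 595 (n 6557747 z (n 10 z (n 6557747 z (n 18 z z)))) (n 129 (n 6427979 z (n 0 z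
 (n 0 z (n 0 z (n 0 z (n 0 z (n 0 z (n 0 z (n 0 z (n 0 z (n 0 z (n 0 z (n 0 z (n 0 z (n 0 z (n 0
 z (n 26 z (n 0 z (n 34 z (n 0 z (n 0 z (n 3212843 z z)))))))))))))))))))))) (n 3 (n 0 z (n 0 z
 (n 0 z (n 0 z (n 6636307 z (n 42 z (n 50 z (n 0 z z)))))))) (n 1 (n 6636307 z (n 0 z (n 0 z (n
 0 z (n 0 z (n 0 z (n 0 z (n 0 z (n 0 z (n 0 z (n 58 z z))))))))))) (n 0 (n 6636307 z (n 0 z (n
 0 z (n 66 z (n 0 z (n 0 z (n 0 z (n 0 z (n 0 z z))))))))) z)))))) (n 587 (n 0 (n 755 (n 0 z (n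
 0 z (n 0 z (n 0 z (n 2 (n 0 z (n 2 (n 0 z (n 0 z (n 0 z (n 0 z (n 0 z (n 0 z z)))))) (n 2 (n 0
 z (n 0 z (n 0 z (n 0 z (n 0 z (n 0 z z)))))) (n 2 (n 0 z (n 0 z (n 0 z (n 0 z (n 0 z (n 0 z
 z)))))) (n 2 (n 0 z (n 0 z (n 0 z (n 0 z (n 0 z (n 0 z z)))))) (n 2 (n 0 z (n 0 z (n 0 z (n 0 z
 (n 0 z (n 0 z z)))))) (n 2 (n 0 z (n 0 z (n 0 z (n 0 z (n 0 z (n 0 z z)))))) z))))))) z))))) (n
 755 (n 0 z (n 0 z (n 0 z (n 0 z (n 0 z z))))) (n 1173 (n 2 (n 0 z (n 2 (n 0 z (n 0 z (n 0 z (n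
 0 z (n 0 z (n 0 z z)))))) (n 2 (n 0 z (n 0 z (n 0 z (n 0 z (n 0 z (n 0 z z)))))) (n 2 (n 0 z (n
 0 z (n 0 z (n 0 z (n 0 z (n 0 z z)))))) (n 2 (n 0 z (n 0 z (n 0 z (n 0 z (n 0 z (n 0 z z))))))
 z))))) (n 0 z (n 0 z (n 0 z (n 0 z (n 0 z (n 0 z (n 0 z (n 0 z z))))))))) (n 1173 (n 0 z (n 0 z
 (n 0 z (n 0 z (n 0 z (n 0 z (n 0 z (n 0 z (n 0 z z))))))))) (n 1165 (n 0 z (n 0 z (n 0 z (n 0 z
 (n 0 z (n 0 z z)))))) (n 1165 (n 0 z (n 0 z (n 0 z (n 0 z (n 0 z (n 0 z z)))))) (n 729 (n 0 z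
 (n 0 z (n 0 z (n 0 z (n 0 z (n 0 z z)))))) (n 745 (n 0 z (n 0 z (n 0 z (n 0 z (n 0 z (n 0 z
 z)))))) z)))))))) (n 0 (n 0 z (n 775 (n 0 z (n 0 z (n 0 z (n 0 z (n 0 z (n 0 z z)))))) (n 775
 (n 0 z (n 0 z (n 0 z (n 0 z (n 2 (n 2 (n 0 z (n 0 z (n 0 z (n 0 z (n 0 z (n 0 z z)))))) (n 2 (n
 0 z (n 0 z (n 0 z (n 0 z (n 0 z (n 0 z z)))))) (n 2 (n 0 z (n 0 z (n 0 z (n 0 z (n 0 z (n 0 z
 z)))))) (n 2 (n 0 z (n 0 z (n 0 z (n 0 z (n 0 z (n 0 z z)))))) z)))) (n 0 z z)))))) (n 55 (n 0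
 z (n 0 z (n 0 z (n 0 z (n 0 z z))))) (n 55 (n 0 z (n 0 z (n 0 z (n 0 z (n 2 (n 2 (n 0 z (n 0 z
 (n 0 z (n 0 z (n 0 z (n 0 z z)))))) (n 2 (n 0 z (n 0 z (n 0 z (n 0 z (n 0 z (n 0 z z)))))) z))
 z))))) (n 339 (n 0 z (n 0 z (n 0 z (n 0 z (n 0 z (n 0 z (n 0 z (n 2 (n 2 (n 0 z (n 0 z (n 0 z
 (n 0 z (n 0 z (n 0 z z)))))) z) z)))))))) (n 773 (n 0 z (n 0 z (n 0 z (n 0 z (n 2 z (n 0 z (n 0
 z z))))))) z))))))) (n 0 (n 795 (n 0 z (n 0 z (n 0 z (n 2 (n 0 z (n 2 (n 0 z (n 0 z (n 0 z (n 0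
 z (n 0 z (n 0 z z)))))) (n 2 (n 0 z (n 0 z (n 0 z (n 0 z (n 0 z (n 0 z z)))))) (n 2 (n 0 z (n 0
 z (n 0 z (n 0 z (n 0 z (n 0 z z)))))) (n 2 (n 0 z (n 0 z (n 0 z (n 0 z (n 0 z (n 0 z z))))))
 z))))) (n 0 z (n 0 z (n 0 z z))))))) (n 795 (n 0 z (n 0 z (n 0 z (n 0 z (n 0 z (n 0 z (n 0 z
 z))))))) (n 1153 (n 0 z (n 0 z (n 0 z (n 0 z (n 0 z (n 0 z (n 0 z (n 0 z (n 0 z (n 0 z (n 0 z
 (n 0 z (n 0 z (n 0 z (n 0 z (n 0 z (n 0 z (n 0 z (n 0 z (n 0 z (n 0 z (n 0 z (n 0 z (n 0 z (n 0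
 z (n 0 z (n 0 z (n 0 z (n 0 z (n 0 z (n 0 z (n 0 z z)))))))))))))))))))))))))))))))) (n 1153 (n
 0 z (n 0 z (n 0 z (n 0 z (n 0 z (n 0 z (n 0 z (n 0 z (n 0 z (n 0 z (n 0 z (n 0 z (n 0 z (n 0 z
 (n 0 z (n 0 z (n 0 z (n 0 z (n 0 z (n 0 z (n 0 z (n 0 z (n 0 z (n 0 z (n 0 z (n 0 z (n 0 z (n 0
 z (n 0 z (n 0 z (n 0 z (n 0 z z)))))))))))))))))))))))))))))))) (n 777 (n 0 z (n 0 z (n 0 z (n
 0 z (n 0 z (n 0 z (n 0 z (n 0 z (n 0 z (n 0 z (n 0 z (n 0 z (n 0 z (n 0 z (n 0 z (n 0 z (n 0 z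
 (n 0 z (n 0 z (n 0 z (n 0 z (n 0 z (n 0 z (n 0 z (n 0 z (n 0 z z)))))))))))))))))))))))))) (n
 773 (n 0 z (n 0 z (n 0 z (n 0 z (n 0 z (n 0 z (n 0 z (n 0 z (n 0 z z))))))))) z)))))) (n 0 (n 0
 z (n 1169 (n 0 z (n 0 z (n 0 z (n 0 z (n 0 z (n 0 z (n 0 z (n 0 z (n 0 z (n 0 z (n 0 z (n 0 z
 (n 0 z (n 0 z (n 0 z (n 0 z (n 0 z (n 0 z (n 0 z (n 0 z z)))))))))))))))))))) (n 1169 (n 0 z (n
 0 z (n 0 z (n 0 z (n 0 z (n 0 z (n 0 z (n 0 z (n 0 z (n 0 z (n 0 z (n 0 z (n 0 z (n 0 z (n 0 z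
 (n 0 z (n 0 z (n 0 z (n 0 z (n 0 z z)))))))))))))))))))) (n 261 (n 0 z (n 0 z (n 0 z (n 0 z (n
 0 z (n 0 z (n 0 z (n 0 z (n 0 z (n 0 z (n 0 z (n 0 z (n 0 z (n 0 z (n 0 z (n 0 z (n 0 z (n 0 z
 (n 0 z (n 0 z z)))))))))))))))))))) (n 845 (n 0 z (n 0 z (n 0 z (n 0 z (n 0 z (n 0 z (n 0 z (n
 0 z (n 0 z (n 0 z (n 0 z (n 0 z (n 0 z (n 0 z (n 0 z (n 0 z (n 0 z (n 0 z (n 0 z (n 0 z (n 0 z
 (n 0 z z)))))))))))))))))))))) z))))) (n 0 (n 1165 (n 0 z (n 0 z (n 0 z (n 0 z (n 0 z (n 0 z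
 z)))))) (n 1165 (n 0 z (n 0 z (n 0 z (n 0 z (n 0 z (n 0 z z)))))) (n 261 (n 0 z (n 0 z (n 0 z
 (n 0 z (n 0 z (n 0 z (n 0 z z))))))) (n 257 (n 0 z (n 0 z (n 0 z (n 0 z (n 0 z (n 0 z (n 0 z (n
 0 z (n 0 z (n 0 z (n 0 z (n 0 z (n 0 z z))))))))))))) z)))) (n 0 (n 0 z (n 9 (n 0 z (n 0 z (n 0
 z z))) (n 5 (n 0 z (n 0 z (n 0 z (n 0 z z)))) z))) (n 0 (n 3 (n 0 z (n 0 z (n 0 z (n 0 z (n 0 z
 (n 0 z z)))))) (n 5 (n 0 z (n 0 z (n 0 z (n 0 z (n 0 z (n 0 z (n 0 z (n 0 z z)))))))) z)) (n 0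
 (n 1 (n 0 z (n 0 z (n 0 z (n 0 z (n 0 z (n 0 z (n 0 z (n 0 z (n 0 z (n 0 z (n 0 z z)))))))))))
 z) (n 0 z z))))))))) (n 0 (n 1 (n 6557747 z (n 6557747 z (n 6557747 z (n 6557747 z (n 6557747 z
 (n 6557747 z z)))))) (n 0 z (n 0 z (n 1 (n 4764 z (n 4764 z (n 4764 z (n 2 z (n 4764 z (n 4764
 z z)))))) z)))) (n 0 (n 0x3a9819 (n 0 (n 0 (n 7754787 z (n 7754787 z (n 7754787 z (n 7754787 z
 (n 7754787 z (n 7754787 z z)))))) z) (n 0 (n 587 (n 1 (n 7606323 z (n 7606323 z (n 7606323 z (n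
 7606323 z (n 7606323 z (n 7606323 z z)))))) (n 0 z (n 0 z (n 1 (n 7754787 z (n 7754787 z (n
 7754787 z (n 7754787 z (n 7754787 z (n 7754787 z z)))))) z)))) (n 595 (n 1 (n 7606323 z (n
 7606323 z (n 7606323 z (n 7606323 z (n 7606323 z (n 7606323 z z)))))) (n 1 (n 2 z (n 3212 z (n
 3212 z (n 3212 z (n 7472715 z (n 3212 z z)))))) (n 1 (n 7606323 z (n 7606323 z (n 7606323 z (n
 7606323 z (n 7606323 z (n 7606323 z z)))))) (n 1 (n 7754787 z (n 7754787 z (n 7754787 z (n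
 7754787 z (n 7754787 z (n 7754787 z z)))))) z)))) (n 582 (n 1 (n 7684883 z (n 7684883 z (n
 7684883 z (n 7684883 z (n 7684883 z (n 7684883 z z)))))) (n 0 z (n 0 z (n 1 (n 4261675 z (n
 4261675 z (n 7606323 z (n 4261675 z (n 3213099 z (n 6636403 z z)))))) (n 0 z (n 1 (n 7476555 z
 (n 7476555 z (n 7606323 z (n 7476555 z (n 7476555 z (n 7476555 z z)))))) z)))))) (n 587 (n 1 (n
 4331275 z (n 4331275 z (n 4331275 z (n 7746571 z (n 4331275 z (n 4331275 z z)))))) (n 1 (n 4652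
 z (n 4652 z (n 4652 z (n 4652 z (n 7746571 z (n 4652 z z)))))) (n 0 z (n 0 z (n 1 (n 7684883 z
 (n 7684883 z (n 7684883 z (n 7684883 z (n 7684883 z (n 7684883 z z)))))) (n 0 z z)))))) (n 443
 (n 1 (n 28 z (n 3500 z (n 3500 z (n 3500 z (n 6489947 z (n 3500 z z)))))) (n 0 z (n 1 (n
 7606323 z (n 7606323 z (n 7606323 z (n 7606323 z (n 7606323 z (n 7606323 z z)))))) (n 1 (n 3500
 z (n 3500 z (n 3500 z (n 3500 z (n 3500 z (n 3500 z z)))))) (n 1 (n 7684883 z (n 7684883 z (n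
 7684883 z (n 7684883 z (n 7684883 z (n 7684883 z z)))))) (n 0 z z)))))) (n 477 (n 1 (n 7606323
 z (n 7606323 z (n 7606323 z (n 7606323 z (n 7606323 z (n 7606323 z z)))))) (n 1 (n 28 z (n 3692
 z (n 3692 z (n 3692 z (n 7746571 z (n 3692 z z)))))) (n 0 z (n 0 z (n 1 (n 7684883 z (n 7684883
 z (n 7684883 z (n 7684883 z (n 7684883 z (n 7684883 z z)))))) (n 0 z z)))))) (n 587 (n 1 (n
 7606323 z (n 7606323 z (n 7606323 z (n 7606323 z (n 7606323 z (n 7606323 z z)))))) (n 0 z (n 0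
 z (n 1 (n 7754787 z (n 7754787 z (n 7754787 z (n 7754787 z (n 7754787 z (n 7754787 z z))))))
 z)))) z))))))) (n 0 (n 0 (n 0 z z) z) (n 0 (n 401 (n 0 (n 0 z z) (n 0 (n 0 z z) (n 0 (n 0 z z)
 (n 0 (n 0 z z) (n 0 (n 0 z z) z))))) (n 587 (n 0 (n 0 z z) (n 0 (n 0 z z) (n 0 (n 0 z z) (n 0
 (n 0 z z) (n 0 (n 0 z z) (n 0 (n 0 z z) (n 0 (n 0 z z) (n 0 (n 0 z z) (n 0 (n 0 z z) z)))))))))
 (n 421 (n 0 (n 0 z z) (n 0 (n 0 z z) (n 0 (n 0 z z) (n 0 (n 0 z z) (n 0 (n 0 z z) (n 0 (n 0 z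
 z) (n 0 (n 0 z z) z))))))) (n 587 (n 0 (n 0 z z) (n 0 (n 0 z z) (n 0 (n 0 z z) (n 0 (n 0 z z)
 (n 0 (n 0 z z) (n 0 (n 0 z z) z)))))) (n 581 (n 0 (n 0 z z) (n 0 (n 0 (n 5376027 z (n 5376027 z
 z)) z) (n 0 (n 0 (n 5376027 z (n 5376027 z z)) z) (n 0 (n 0 z z) (n 0 (n 0 z z) (n 0 (n 0 z z)
 (n 0 (n 0 (n 7686203 z (n
 0x30caeca4078208218208208208208208208208208208208608208208608208208207e08208208208208200801 z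
 z)) z) (n 0 (n 0 z z) (n 0 (n 0 z z) (n 0 (n 0 (n
 0xb84281e8218217e17e082085f7df82086086082081f82082081f86082086082085f82082081f8200041 z (n
 0xb84281e8218217e17e082085f7df82086086082081f82082081f86082086082085f82082081f8200041 z z)) z)
 (n 0 (n 0 (n 8795147 z z) z) (n 0 (n 0 (n
 0x862760501810caeca4038208228218607de8208607df82182082082082081f81f8207df82082186086081f8208608201001
 z z) z) (n 0 (n 0 (n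
 0xb87581f82182182281f8218607df82085f82082182086086081f86082182082081f7e08208608200041 z (n
 0xb84281e8218217e17e082085f7df82086086082081f82082081f86082086082085f82082081f8200041 z z)) z)
 (n 0 (n 0 z z) (n 0 (n 0 z z) (n 0 (n 0 z z) (n 0 (n 0 (n
 0xd87699482752b5b02ad6667e199881689ba9e7e28298a376295d9578aa9a752069e82265a764ade0041 z (n
 8730475 z z)) z) (n 0 (n 0 z z) (n 0 (n 0 z z) (n 0 (n 0 z z) (n 0 (n 0 z z) (n 0 (n 0 z z) (n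
 0 (n 0 (n
 0x10eb0ea4038208207e085f81f82082186181f82181f82086079f8218207e082082081f8618207e08208610801 z
 (n 0x30caeca4078208208208208208208208208208208208208608208208208208208208208208208208608200801
 z z)) z) (n 0 (n 0 z z) (n 0 (n 0 z z) (n 0 (n 0 z z) (n 0 (n 0 z z) (n 0 (n 0 z z) (n 0 (n 0 z
 z) (n 0 (n 0 z z) (n 0 (n 0 z z) (n 0 (n 0 z z) z)))))))))))))))))))))))))))))))) (n 583 (n 0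
 (n 0 z z) (n 0 (n 0 (n
 0x10a4e80c0781f82182082181f82086081f82185f8208218608208208208207e08207e08208208218a08200801 z
 (n 0xb87685e8218207e285f82085f7df8208608607df81e82082081f86082186082081f82081f8608200041 z z))
 z) (n 0 (n 0 z z) (n 0 (n 0 (n 8872531 z z) z) (n 0 (n 0 z z) (n 0 (n 0 z z) z)))))) (n 443 (n
 0 (n 0 z z) (n 0 (n 0 z z) (n 0 (n 0 z z) (n 0 (n 0 z z) (n 0 (n 0 z z) (n 0 (n 0 z z) z))))))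
 (n 437 (n 0 (n 0 z z) (n 0 (n 0 z z) (n 0 (n 0 z z) (n 0 (n 0 z z) (n 0 (n 0 z z) (n 0 (n 0 z
 z) (n 0 (n 0 z z) (n 0 (n 0 (n
 0x458639948a55a86293e85aa7a18987da8dfadd7a47a285f86582179d96882a7217a48e175c821a1e0041 z z) z)
 (n 0 (n 0 z z) (n 0 (n 0 z z) (n 0 (n 0 z z) (n 0 (n 0 (n 8783675 z z) z) (n 0 (n 0 z z) (n 0
 (n 0 z z) (n 0 (n 0 (n 8783675 z (n
 0x30caeca40781f86081f7e18608208207e082185f82082082082082081f8608208208208208208218207e00801 z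
 z)) z) (n 0 (n 0 (n 8872531 z (n 8872531 z z)) z) (n 0 (n 0 z z) (n 0 (n 0 z z) (n 0 (n 0 z z)
 (n 0 (n 0 (n 8783675 z (n 8730475 z z)) z) (n 0 (n 0 (n 8783675 z (n 8730475 z z)) z) (n 0 (n 0
 z z) (n 0 (n 0 z z) (n 0 (n 0 z z) (n 0 (n 0 z z) (n 0 (n 0 z z) z)))))))))))))))))))))))))) (n
 131 (n 0 (n 0 z z) (n 0 (n 0 z z) (n 0 (n 0 z z) (n 0 (n 0 z z) (n 0 (n 0 z z) (n 0 (n 0 z z)
 (n 0 (n 0 z z) z))))))) (n 3 (n 0 (n 0 z z) (n 0 (n 0 z z) (n 0 (n 0 z z) (n 0 (n 0 z z) (n 0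
 (n 0 z z) (n 0 (n 0 z z) z)))))) (n 477 (n 0 (n 0 z z) (n 0 (n 0 z z) (n 0 (n 0 (n 6559755 z (n
 6559755 z z)) z) (n 0 (n 0 (n
 0x458739948a55a86293e85aa7608977da91fadd7647a281f82582179c9a87ea7227a58e179c821a1e0041 z (n
 0xd87399482752b5b02ad6667e199881689ba9e7e28298a376295d9578aa9a752069e82265a764ade0041 z z)) z)
 (n 0 (n 0 z z) (n 0 (n 0 z z) z)))))) (n 461 (n 0 (n 0 z z) (n 0 (n 0 z z) (n 0 (n 0 z z) (n 0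
 (n 0 z z) (n 0 (n 0 z z) (n 0 (n 0 z z) (n 0 (n 0 z z) (n 0 (n 0 z z) (n 0 (n 0 z z) z)))))))))
 (n 129 (n 0 (n 0 z z) (n 0 (n 0 z z) (n 0 (n 0 z z) (n 0 (n 0 z z) (n 0 (n 0 z z) (n 0 (n 0 z
 z) (n 0 (n 0 z z) (n 0 (n 0 z z) (n 0 (n 0 z z) (n 0 (n 0 z z) (n 0 (n 0 z z) (n 0 (n 0 z z) (n
 0 (n 0 z z) z))))))))))))) (n 3 (n 0 (n 0 z z) (n 0 (n 0 z z) (n 0 (n 0 z z) (n 0 (n 0 z z) (n
 0 (n 0 z z) (n 0 (n 0 z z) (n 0 (n 0 z z) (n 0 (n 0 z z) z)))))))) (n 1 (n 0 (n 0 z z) (n 0 (n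
 0 z z) (n 0 (n 0 z z) (n 0 (n 0 z z) (n 0 (n 0 z z) (n 0 (n 0 (n 8803363 z z) z) (n 0 (n 0 z z)
 (n 0 (n 0 z z) (n 0 (n 0 z z) (n 0 (n 0 z z) (n 0 (n 0 z z) z))))))))))) (n 587 (n 0 (n 0 z z)
 (n 0 (n 0 z z) (n 0 (n 0 z z) (n 0 (n 0 z z) z)))) (n 595 (n 0 (n 0 z z) (n 0 (n 0 z z) (n 0 (n
 0 z z) (n 0 (n 0 z z) z)))) (n 129 (n 0 (n 0 z z) (n 0 (n 0 z z) (n 0 (n 0 z z) (n 0 (n 0 z z)
 (n 0 (n 0 z z) (n 0 (n 0 z z) (n 0 (n 0 z z) (n 0 (n 0 z z) (n 0 (n 0 z z) (n 0 (n 0 z z) (n 0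
 (n 0 z z) (n 0 (n 0 z z) (n 0 (n 0 z z) (n 0 (n 0 z z) (n 0 (n 0 z z) (n 0 (n 0 z z) (n 0 (n 0
 z z) (n 0 (n 0 z z) (n 0 (n 0 z z) (n 0 (n 0 z z) (n 0 (n 0 z z) (n 0 (n 0 z z)
 z)))))))))))))))))))))) (n 3 (n 0 (n 0 z z) (n 0 (n 0 z z) (n 0 (n 0 z z) (n 0 (n 0 z z) (n 0
 (n 0 z z) (n 0 (n 0 z z) (n 0 (n 0 z z) (n 0 (n 0 z z) z)))))))) (n 1 (n 0 (n 0 z z) (n 0 (n 0
 z z) (n 0 (n 0 z z) (n 0 (n 0 z z) (n 0 (n 0 z z) (n 0 (n 0 (n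
 0x30caea64078208218208208208208208208208208208208608208208208208208208208208208208208200801 z
 z) z) (n 0 (n 0 (n
 0xb87581f82182182281f8218607df82085f82082182086086081f86082182082081f7e08208608200041 z (n
 8783675 z z)) z) (n 0 (n 0 z z) (n 0 (n 0 z z) (n 0 (n 0 z z) (n 0 (n 0 z z) z))))))))))) (n 0
 (n 0 (n 0 z z) (n 0 (n 0 z z) (n 0 (n 0 z z) (n 0 (n 0 z z) (n 0 (n 0 z z) (n 0 (n 0 z z) (n 0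
 (n 0 z z) (n 0 (n 0 z z) (n 0 (n 0 z z) z))))))))) z))))))))))))))))))))) z)))) z) z)))) (n
 0x22572162b8cba2645c0e22e5109ba0a4b958125240 (n 0 (n 563 (n 2 z (n 6496339 z (n 0 z (n 0 z (n
 10 z (n 0 z z)))))) (n 437 (n 0 z (n 0 z (n
 0x65465420380ca6a8640781f81f82081e82085f8627e08218218208608208207df8218208608208208608208208208201001
 z (n 0 z (n 5375515 z (n 3278363 z (n 0 z (n 0 z (n 0 z (n 0 z (n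
 0x2ca6ca600782189f85f81f8207db8a186082082182182081f8a279d8a179f8218207e18a086086081f8200801 z
 (n 0 z (n 0 z (n 0 z (n 0 z (n 0 z (n 18 z (n 0 z (n 0 z (n 0 z (n 0 z (n 0 z (n 0 z (n 0 z (n
 0 z (n 6427707 z (n 6427707 z (n 0 z (n
 0x2ca6a8640785d79e7df7608218df8227e286281f81f82181f8217de8638218608207e086089f82082181f0801 z
 (n 26 z (n
 0x65353020180ca6ca600781f81f82081e82085f8627e08218218208608208207df8218208608208208608208208208201001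
 z z))))))))))))))))))))))))))))))) (n 439 (n 34 z (n 42 z (n 0 z (n 0 z (n 6496339 z (n 0 z (n
 0 z (n 6496339 z z)))))))) (n 3 (n 50 z (n 0 z (n 6636323 z z))) (n 1 (n 58 z (n 0 z (n 6636323
 z (n 0 z z)))) (n 0 (n 0 z (n 0 z (n 0 z (n 0 z (n 0 z (n 6636323 z (n 6636323 z (n 0 z
 z)))))))) z)))))) (n 3 (n 0 (n 0 z (n 1115 (n 0 z (n 0 z (n 0 z (n 0 z (n 0 z (n 0 z (n 0 z (n
 0 z (n 0 z (n 0 z (n 0 z (n 0 z (n 0 z (n 0 z (n 0 z (n 0 z (n 0 z (n 0 z (n 0 z (n 0 z (n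
 0x2ea6ca640385d79e7df7608218df8227e286281f81f82181f8217de8638218608207e086089f82082181f0801 z
 (n 2 (n 0 z (n 2 (n 0 z (n 0 z (n 0 z (n 0 z (n 0 z (n 0 z z)))))) (n 2 (n 0 z (n 0 z (n 0 z (n
 0 z (n 0 z (n 0 z z)))))) (n 2 (n 0 z (n 0 z (n 0 z (n 0 z (n 0 z (n 0 z z)))))) (n 2 (n 0 z (n
 0 z (n 0 z (n 0 z (n 0 z (n 0 z z)))))) z))))) (n 0 z (n 0 z (n 0 z (n 0 z (n 0 z (n 0 z (n 0 z
 (n 0 z (n 0 z (n 0 z z)))))))))))))))))))))))))))))))) (n 1115 (n 0 z (n 0 z (n 0 z (n 0 z (n 0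
 z (n 0 z (n 0 z (n 0 z (n 0 z (n 0 z (n 0 z (n 0 z (n 0 z (n 0 z (n 0 z (n 0 z (n 0 z (n 0 z (n
 0 z (n 0 z (n 0 z (n 0 z (n 0 z (n 0 z (n 0 z (n 0 z (n 0 z (n 2 (n 2 (n 0 z (n 0 (n 8868619 z
 z) (n 0 z (n 0 z (n 0 z (n 0 z z)))))) (n 2 (n 0 z (n 0 z (n 0 z (n 0 z (n 0 z (n 0 z z))))))
 (n 2 (n 0 z (n 0 z (n 0 z (n 0 z (n 0 z (n 0 z z)))))) (n 2 (n 0 z (n 0 z (n 0 z (n 0 z (n 0 z
 (n 0 z z)))))) z)))) (n 0 z (n 0 z (n 0 z (n 0 z z)))))))))))))))))))))))))))))))) (n 1119 (n 2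
 (n 0 z (n 2 (n 0 z (n 0 z (n 0 z (n 0 z (n 0 z (n 0 z z)))))) (n 2 (n 0 z (n 0 (n 8864531 z z)
 (n 0 z (n 0 z (n 0 z (n 0 z z)))))) z))) (n 0 z (n 0 z (n 0 z (n 0 z (n 0 z z)))))) (n 1119 (n
 0 z (n 0 z (n 0 z (n 0 z (n 0 z (n 0 z z)))))) (n 7 (n 0 z (n 2 (n 2 (n 0 z (n 0 z (n 0 z (n 0
 z (n 0 z (n 0 z z)))))) z) (n 0 z (n 0 z (n 0 z (n 0 z (n 0 z (n 0 z z)))))))) (n 9 (n 0 z (n 0
 z (n 0 z (n 2 z (n 0 z (n 0 z z)))))) z))))))) (n 0 (n 239 (n 0 z (n 0 z (n 0 z (n 0 z (n 2 (n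
 0 z (n 2 (n 0 z (n 0 z (n 0 z (n 0 z (n 0 z (n 0 z z)))))) (n 2 (n 0 z (n 0 z (n 0 z (n 0 z (n
 0 z (n 0 z z)))))) (n 2 (n 0 z (n 0 z (n 0 z (n 0 z (n 0 z (n 0 z z)))))) (n 2 (n 0 z (n 0 z (n
 0 z (n 0 z (n 0 z (n 0 z z)))))) z))))) z))))) (n 239 (n 0 z (n 0 z (n 0 z (n 0 z (n 0 z z)))))
 (n 1119 (n 0 z (n 0 z (n 0 z (n 0 z (n 0 z (n 0 z (n 0 z (n 0 z (n 0 z z))))))))) (n 1119 (n 2
 (n 2 (n 0 z (n 0 z (n 0 z (n 0 z (n 0 z (n 0 z z)))))) (n 2 (n 0 z (n 0 z (n 0 z (n 0 z (n 0 z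
 (n 0 z z)))))) z)) (n 0 z (n 0 z (n 0 z (n 0 z (n 0 z (n 0 z (n 0 z (n 0 z z))))))))) (n 229 (n
 0 z (n 0 z (n 0 z (n 0 z (n 0 z (n 0 z z)))))) (n 197 (n 0 z (n 0 z (n 0 z (n 0 z (n 0 z (n 0 z
 z)))))) z)))))) (n 0 (n 0 z (n 873 (n 0 z (n 2 (n 0 z (n 2 (n 0 z (n 0 z (n 0 z (n 0 z (n 0 z
 (n 0 z z)))))) (n 2 (n 0 z (n 0 z (n 0 z (n 0 z (n 0 z (n 0 z z)))))) z))) (n 0 z (n 0 z (n 0 z
 (n 0 z (n 0 z (n 0 z (n 0 z (n 0 z (n 0 z (n 0 z (n 0 z (n 0 z (n 0 z (n 0 z (n 0 z (n 0 z (n 0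
 z (n 0 z (n 0 z (n 0 z (n 0 z (n 0 z (n 0 z (n 0 z z)))))))))))))))))))))))))) (n 873 (n 0 z (n
 0 z (n 0 z (n 0 z (n 0 z (n 0 z (n 0 z (n 0 z (n 0 z (n 0 z (n 0 z (n 0 z (n 0 z (n 0 z (n 0 z
 (n 0 z (n 0 z (n 0 z (n 0 z (n 0 z (n 0 z (n 0 z (n 0 z (n 0 z (n 0 z (n 0 z
 z)))))))))))))))))))))))))) (n 1289 (n 0 z (n 0 z (n 0 z (n 0 z (n 0 z (n 0 z (n 0 z (n 0 z (n
 0 z (n 0 z (n 0 z (n 0 z (n 0 z (n 0 z (n 0 z (n 0 z (n 0 z (n 0 z (n 0 z (n 0 z (n 0 z (n 0 z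
 (n 0 z (n 0 z (n 0 z (n 0 z z)))))))))))))))))))))))))) (n 483 (n 0 z (n 0 z (n 0 z (n 0 z (n 0
 z (n 0 z (n 0 z (n 0 z (n 0 z (n 0 z (n 0 z (n 0 z (n 0 z (n 0 z (n 0 z (n 0 z (n 0 z (n 0 z (n
 0 z (n 0 z (n 0 z (n 0 z (n 0 z (n 0 z (n 0 z (n 0 z (n 0 z (n 0 z (n 0 z (n 0 z (n 0 z
 z))))))))))))))))))))))))))))))) z))))) (n 0 (n 477 (n 0 z (n 0 z (n 0 z (n 0 z (n 0 z (n 0 z
 z)))))) (n 477 (n 0 z (n 0 z (n 0 z (n 0 z (n 0 z (n 2 (n 2 (n 0 z (n 0 z (n 0 z (n 0 z (n 0 z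
 (n 0 z z)))))) (n 2 (n 0 z (n 0 z (n 0 z (n 0 z (n 0 z (n 0 z z)))))) z)) z)))))) (n 469 (n 0 z
 (n 0 z (n 0 z (n 0 z (n 0 z z))))) (n 51 (n 0 z (n 0 z (n 0 z (n 0 z (n 0 z (n 0 z (n 0 z (n 0
 z (n 0 z (n 0 z (n 0 z (n 0 z (n 0 z (n 0 z (n 0 z (n 0 z (n 0 z (n 0 z (n 0 z (n 0 z (n 0 z (n
 0 z (n 0 z (n 0 z (n 0 z (n 0 z (n 0 z (n 0 z (n 0 z (n 0 z (n 0 z (n 0 z
 z)))))))))))))))))))))))))))))))) z)))) (n 0 (n 0 z (n 713 (n 0 z (n 0 z (n 0 z (n 0 z (n 0 z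
 (n 0 z (n 0 z (n 0 z (n 0 z (n 0 z (n 0 z (n 0 z (n 0 z (n 0 z (n 0 z (n 0 z (n 0 z (n 0 z (n 0
 z (n 0 z (n 0 z (n 0 z (n 0 z (n 0 z (n 0 z (n 0 z (n 0 z (n 0 z (n 0 z (n 0 z (n 0 z (n 0 z
 z)))))))))))))))))))))))))))))))) (n 243 (n 0 z (n 0 z (n 0 z (n 0 z (n 0 z (n 0 z (n 0 z (n 0
 z (n 0 z z))))))))) z))) (n 0 (n 713 (n 0 z (n 0 z (n 2 (n 2 (n 0 z (n 0 z (n 0 z (n 0 z (n 0 z
 (n 0 z z)))))) z) (n 0 z z)))) (n 255 (n 2 z (n 0 z (n 0 z (n 0 z (n 0 z z))))) z)) (n 0 (n 3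
 (n 0 z (n 0 z (n 0 z (n 0 z (n 0 z (n 0 z (n 0 z z))))))) z) (n 0 z z)))))))) (n 0 (n 1 (n 4508
 z (n 4508 z (n 6427707 z (n 4 z (n 4508 z (n 4508 z z)))))) (n 0 z (n 1 (n 6636323 z (n 6636323
 z (n 6636323 z (n 6636323 z (n 6636323 z (n 6636323 z z)))))) z))) (n 0 z z)))) (n 0xb8601096c0
 (n 0 (n 347 (n 2 z (n 0 z (n 3282443 z (n 4396555 z (n 0 z (n 0 z (n 0 z (n 0 z (n
 0x1d8c990540602ca8ca82030065464310380329aa1881c4990990840606ca68642037a897c74777f6f7f83767f6e8a88a2786d8883917d807472806f7b8075887b6b57a58f8f6d80689b8e9d72845f8f857756933009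
 z (n 0 z (n 0 z (n 10 z z)))))))))))) (n 435 (n 0 z (n 0 z (n 0 z (n 0 z (n 0 z (n 0 z (n 0 z
 (n 0 z (n 0 z (n 6627651 z (n 0 z (n 0 z z)))))))))))) (n 433 (n 6627651 z (n 0 z (n 0 z (n 0 z
 (n 0 z (n 0 z (n 0 z (n 0 z (n 0 z (n 0 z (n 0 z (n 0 z z)))))))))))) (n 3 (n 0 z (n 0 z (n 0 z
 (n 0 z (n 0 z (n 2164283 z z)))))) (n 1 (n 0 z (n 0 z (n 0 z (n 0 z (n 0 z (n 0 z (n 0 z (n 0 z
 (n 0 z (n 0 z (n 2164299 z (n 0 z (n 0 z (n 0 z (n 0 z z))))))))))))))) (n 0 (n 0 z (n 0 z (n 0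
 z (n 0 z (n 0 z (n 0 z (n 0 z (n 0 z (n 6627651 z (n 0 z (n 0 z (n 0 z (n 0 z z)))))))))))))
 z)))))) (n 3 (n 0 (n 0 z z) (n 0 z z)) (n 0 (n 0 z (n 0 z (n 0 z (n 0 z (n 0 z (n 1 (n 2164283
 z (n 2164283 z (n 2164283 z (n 2164283 z (n 2164283 z (n 2164283 z z)))))) z)))))) (n 0 z z))))
 (n 0 (n 0 (n 155 (n 0 z (n
 0x2ca8a8240382279f7e081f8a17a385e86081f85f7e282081f82181f79d85f8207e07608608a18207de8600801 z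
 (n 0 z (n 0 z (n 4331019 z (n 3282443 z (n 0 z (n 0 z (n 0 z (n 0 z z)))))))))) (n 377 (n 0 z
 (n 0 z (n 0 z (n 6496515 z (n 6496515 z (n 0 z (n 0 z (n 0 z (n 0 z (n 0 z (n 0 z (n 0 z
 z)))))))))))) (n 373 (n 0 z (n 0 z (n 6496515 z (n 0 z z)))) (n 125 (n 0 z (n 0 z (n 0 z (n 0 z
 (n 0 z (n 4331067 z (n 6496515 z (n
 0x2ca8a824038a27a07a08208a076281e82089f81f7a37df82082189e75f8a07e08a07608218a275f7e08600801 z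
 (n 0 z (n 0 z (n 0 z (n 0 z (n 0 z z))))))))))))) (n 1 (n 0 z (n 0 z (n 0 z (n 0 z (n 0 z (n 0
 z (n 0 z (n 2164299 z (n 0 z z))))))))) (n 0 (n 0 z (n 0 z (n 0 z (n 0 z (n 0 z (n 6619931 z
 z)))))) z)))))) (n 373 z (n 0 (n 0 z (n 0 z (n 1 (n 6496515 z (n 6496515 z (n 6496515 z (n
 6496515 z (n 6496515 z (n 6496515 z z)))))) (n 0 z z)))) (n 0 z z)))) (n
 0x18424c20c6a6a092cd11a7ac04ac689952c5c8d21a58cc2934c08dcc82758413ac240 (n 0 (n 477 (n 6557747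
 z (n 2 z (n 0 z (n 0 z z)))) (n 461 (n 10 z (n 18 z (n 6557747 z (n 0 z (n 0 z (n 6557747 z (n
 26 z (n 34 z (n 0 z (n 0 z z)))))))))) (n 129 (n 42 z (n 0 z (n 0 z (n 0 z (n 0 z (n 0 z (n 50
 z (n 0 z (n 0 z (n 0 z (n 6566419 z (n 58 z (n 0 z (n 0 z (n 66 z (n 0 z (n 6566419 z (n 0 z
 z)))))))))))))))))) (n 3 (n 6566419 z (n 74 z (n 0 z (n 0 z (n 82 z z))))) (n 1 (n 90 z (n 0 z
 (n 0 z (n 0 z (n 0 z (n 0 z (n 6566419 z (n 0 z (n 0 z (n 0 z (n 0 z (n 0 z (n 0 z (n 98 z (n 0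
 z (n 6566419 z z)))))))))))))))) (n 0 (n 6632459 z (n 0 z (n 0 z z))) z)))))) (n 0 (n 0 (n 951
 (n 0 z (n 0 z (n 0 z (n 0 z (n 0 z (n 0 z (n 0 z z))))))) (n 951 (n 0 z (n 0 z (n 0 z (n 0 z (n
 0 z (n 0 z (n 0 z z))))))) (n 951 (n 0 z (n 0 z (n 0 z (n 0 z (n 0 z (n 0 z (n 0 z z))))))) (n
 951 (n 0 z (n 0 z (n 0 z (n 0 z (n 0 z (n 0 z (n 2 (n 2 (n 0 z (n 0 z (n 0 z (n 0 z (n 0 z (n 0
 z z)))))) (n 2 (n 0 z (n 0 z (n 0 z (n 0 z (n 0 z (n 0 z z)))))) (n 2 (n 0 z (n 0 z (n 0 z (n 0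
 z (n 0 z (n 0 z z)))))) (n 1 z (n 2 (n 0 z (n 0 z (n 0 z (n 0 z (n 0 z (n 0 z z)))))) (n 1 z (n
 2 (n 0 z (n 0 z (n 0 (n 8730475 z z) (n 0 z (n 0 z (n 0 z z)))))) (n 1 z z)))))))) z))))))) (n
 953 (n 0 z (n 0 z (n 0 z (n 0 z (n 0 z (n 0 z (n 0 z (n 0 z (n 0 z (n 0 z (n 0 z (n 0 z (n 0 z
 (n 0 z (n 0 z (n 0 z (n 0 z (n 0 z (n 0 z (n 0 z (n 0 z (n 2 (n 0 z (n 0 z (n 0 z (n 2 (n 0 z
 (n 0 z (n 0 (n 4262011 z (n 4262011 z z)) (n 0 z (n 0 z (n 0 (n 4262011 z z) z)))))) (n 1 z (n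
 1 z (n 1 z z))))))) (n 0 z (n 0 z (n 0 z (n 0 z (n 0 z (n 0 z (n 0 z (n 0 z
 z)))))))))))))))))))))))))))))) (n 953 (n 0 z (n 0 z (n 0 z (n 0 z (n 0 z (n 0 z (n 0 z (n 0 z
 (n 0 z (n 0 z (n 0 z (n 0 z (n 0 z (n 0 z (n 0 z (n 0 z (n 0 z (n 0 z (n 0 z (n 0 z (n 0 z (n 0
 z (n 0 z (n 0 z (n 0 z (n 0 z (n 0 z (n 0 z (n 0 z (n 0 z z)))))))))))))))))))))))))))))) (n
 953 (n 0 z (n 0 z (n 0 z (n 0 z (n 0 z (n 0 z (n 0 z (n 0 z (n 0 z (n 0 z (n 0 z (n 0 z (n 0 z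
 (n 0 z (n 0 z (n 0 z (n 0 z (n 0 z (n 0 z (n 0 z (n 0 z (n 0 z (n 0 z (n 0 z (n 0 z (n 0 z (n
 7476747 z (n 0 z (n 0 z (n 0 z z)))))))))))))))))))))))))))))) (n 953 (n 0 z (n 0 z (n 0 z (n 0
 z (n 0 z (n 0 z (n 0 z (n 0 z (n 0 z (n 0 z (n 0 z (n 0 z (n 0 z (n 0 z (n 0 z (n 0 z (n 0 z (n
 0 z (n 0 z (n 0 z (n 0 z (n 0 z (n 0 z (n 0 z (n 0 z (n 0 z (n 0 z (n 0 z (n 0 z (n 0 z
 z)))))))))))))))))))))))))))))) (n 7 (n 0 z (n 2 (n 0 z (n 2 (n 0 z (n 0 z (n 0 (n 2164859 z (n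
 2164859 z z)) (n 0 z (n 0 z (n 0 (n 2164859 z z) z)))))) (n 1 z z))) (n 0 z (n 0 z (n 0 z
 z))))) (n 7 (n 0 z (n 0 z (n 0 z (n 0 z (n 0 z z))))) (n 3 (n 0 z (n 0 z (n 0 z (n 0 z (n 0 z
 (n 0 z z)))))) (n 3 (n 0 z (n 0 z (n 0 z (n 0 z (n 0 z (n 0 z z)))))) z)))))))))))) (n 0 (n 0 z
 (n 0 z (n 0 z (n 921 (n 0 z (n 0 z (n 0 z (n 2 (n 0 z (n 0 z (n 0 z (n 2 (n 0 z (n 0 z (n 0 (n
 4262011 z (n 4262011 z z)) (n 0 z (n 0 z (n 0 (n 4262011 z z) z)))))) (n 1 z (n 1 z (n 1 z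
 z))))))) (n 0 z (n 0 z (n 0 z z))))))) (n 921 (n 0 z (n 0 z (n 0 z (n 0 z (n 0 z (n 0 z (n 0 z
 z))))))) (n 921 (n 0 z (n 0 z (n 0 z (n 0 z (n 0 z (n 2 (n 0 z (n 2 (n 0 z (n 0 z (n 0 z (n 0 z
 (n 0 z (n 0 z z)))))) (n 1 z (n 2 (n 0 z (n 0 z (n 0 z (n 0 z (n 0 z (n 0 z z)))))) (n 1 z
 z))))) (n 0 z z))))))) (n 921 (n 0 z (n 0 z (n 0 z (n 0 z (n 0 z (n 0 z (n 0 z z))))))) (n 7 (n
 0 z (n 0 z (n 2 (n 0 z (n 2 (n 0 z (n 0 z (n 0 (n 2164859 z (n 2164859 z z)) (n 0 z (n 0 z (n 0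
 (n 2164859 z z) z)))))) (n 1 z z))) (n 0 z (n 0 z (n 0 z (n 0 z (n 0 z (n 0 z (n 0 z (n 0 z (n
 0 z (n 0 z (n 0 z (n 0 z (n 0 z (n 0 z (n 0 z (n 0 z (n 0 z (n 0 z (n 0 z (n 0 z (n 0 z (n 0 z
 (n 0 z (n 0 z (n 0 z (n 0 z z))))))))))))))))))))))))))))) (n 7 (n 0 z (n 0 z (n 0 z (n 0 z (n
 0 z (n 0 z (n 0 z (n 0 z (n 0 z (n 0 z (n 0 z (n 0 z (n 0 z (n 0 z (n 0 z (n 0 z (n 0 z (n 0 z
 (n 0 z (n 0 z (n 0 z (n 0 z (n 0 z (n 0 z (n 0 z (n 0 z (n 0 z (n 0 z (n 0 z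
 z))))))))))))))))))))))))))))) (n 3 (n 0 z (n 0 z (n 0 z (n 0 z (n 0 z (n 0 z (n 0 z (n 0 z (n
 0 z (n 0 z (n 0 z z))))))))))) (n 3 (n 0 z (n 0 z (n 0 z (n 0 z (n 0 z (n 0 z (n 0 z (n 0 z (n
 0 z (n 0 z (n 0 z z))))))))))) z))))))))))) (n 0 (n 0 z (n 0 z (n 23 (n 0 z (n 2 (n 0 z (n 0 z
 (n 0 z (n 1 z (n 1 z (n 1 z (n 1 z z))))))) (n 0 z z))) (n 23 (n 0 z (n 0 z (n 0 z z))) (n 23
 (n 0 z (n 0 z (n 0 z z))) (n 23 (n 0 z (n 0 z (n 0 z z))) (n 11 (n 0 z (n 0 z (n 0 z (n 0 z (n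
 0 z (n 0 z (n 0 z (n 0 z (n 0 z (n 0 z (n 0 z (n 0 z (n 0 z (n 0 z (n 0 z (n 0 z (n 0 z (n 0 z
 (n 0 z (n 0 z (n 2 (n 0 z (n 1 z (n 1 z z))) (n 0 z (n 0 z (n 0 z (n 0 z (n 0 z (n 0 z (n 0 z
 (n 0 z z))))))))))))))))))))))))))))) (n 11 (n 0 z (n 0 z (n 0 z (n 0 z (n 0 z (n 0 z (n 0 z (n
 0 z (n 0 z (n 0 z (n 0 z (n 0 z (n 0 z (n 0 z (n 0 z (n 0 z (n 0 z (n 0 z (n 0 z (n 0 z (n 0 z
 (n 0 z (n 0 z (n 0 z (n 0 z (n 0 z (n 0 z (n 0 z (n 0 z z))))))))))))))))))))))))))))) (n 3 (n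
 2 (n 0 z z) (n 0 z (n 0 z (n 0 z (n 0 z (n 0 z (n 0 z (n 0 z (n 0 z (n 0 z z)))))))))) (n 3 (n
 0 z (n 0 z (n 0 z (n 0 z (n 0 z (n 0 z (n 0 z (n 0 z (n 7741699 z (n 0 z z))))))))))
 z)))))))))) (n 0 (n 0 z (n 807 (n 0 z (n 0 z (n 0 z (n 0 z (n 0 z (n 0 z (n 0 z (n 0 z (n 0 z
 (n 0 z (n 0 z (n 0 z (n 0 z (n 0 z (n 0 z (n 0 z (n 0 z (n 0 z (n 0 z (n 0 z (n 0 z (n 0 z (n 0
 z z))))))))))))))))))))))) (n 807 (n 0 z (n 0 z (n 0 z (n 0 z (n 0 z (n 0 z (n 0 z (n 0 z (n 0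
 z (n 0 z (n 0 z (n 0 z (n 0 z (n 0 z (n 0 z (n 0 z (n 0 z (n 0 z (n 0 z (n 0 z (n 0 z (n 0 z (n
 0 z z))))))))))))))))))))))) (n 807 (n 0 z (n 0 z (n 0 z (n 0 z (n 0 z (n 0 z (n 0 z (n 0 z (n
 0 z (n 0 z (n 0 z (n 0 z (n 0 z (n 0 z (n 0 z (n 0 z (n 0 z (n 0 z (n 0 z (n 0 z (n 0 z (n 0 z
 (n 0 z z))))))))))))))))))))))) (n 807 (n 0 z (n 0 z (n 0 z (n 0 z (n 0 z (n 0 z (n 0 z (n 0 z
 (n 0 z (n 0 z (n 2 (n 1 z (n 1 z (n 1 z (n 1 z z)))) (n 0 z (n 0 z (n 0 z (n 0 z (n 0 z (n 0 z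
 (n 0 z (n 0 z (n 0 z (n 0 z (n 0 z (n 0 z z))))))))))))))))))))))) (n 59 (n 0 z (n 0 z (n 0 z
 (n 0 z (n 0 z (n 0 z (n 0 z z))))))) (n 59 (n 0 z (n 0 z (n 0 z (n 0 z (n 2 (n 1 z (n 1 z z))
 (n 0 z (n 0 z z))))))) (n 373 (n 0 z (n 0 z (n 0 z (n 0 z (n 0 z (n 0 z (n 0 z (n 0 z (n 0 z (n
 0 z (n 0 z (n 0 z z)))))))))))) (n 373 (n 0 z (n 0 z (n 0 z (n 0 z (n 0 z (n 0 z (n 0 z (n 0 z
 (n 0 z (n 0 z (n 0 z (n 0 z z)))))))))))) z))))))))) (n 0 (n 949 (n 0 z (n 0 z (n 0 z (n 0 z (n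
 0 z (n 0 z (n 2 (n 0 z (n 0 z (n 0 z (n 2 (n 0 z (n 0 z (n 0 z (n 0 z (n 0 z (n 0 z z)))))) (n
 1 z (n 2 (n 0 z (n 0 z (n 0 (n 3213435 z (n 3213435 z z)) (n 0 (n 6621243 z z) (n 0 z (n 0 (n
 8868451 z z) z)))))) (n 1 z z))))))) z))))))) (n 949 (n 0 z (n 0 z (n 0 z (n 0 z (n 0 z (n 0 z
 (n 0 z z))))))) (n 949 (n 0 z (n 2 (n 0 z (n 2 (n 0 z (n 0 z (n 0 z (n 0 z (n 0 z (n 0 z
 z)))))) (n 1 z (n 2 (n 0 z (n 0 z (n 0 z (n 0 z (n 0 z (n 0 z z)))))) (n 1 z z))))) (n 0 z (n 0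
 z (n 0 z (n 0 z (n 0 z z))))))) (n 949 (n 0 z (n 0 z (n 0 z (n 0 z (n 0 z (n 0 z (n 0 z
 z))))))) (n 1017 (n 0 z (n 0 z (n 0 z (n 0 z (n 0 z (n 0 z (n 0 z (n 0 z (n 0 z (n 0 z (n 0 z
 (n 0 z (n 0 z (n 0 z (n 0 z (n 0 z (n 0 z (n 0 z (n 0 z (n 0 z (n 2 (n 0 z (n 2 (n 0 (n 2164859
 z z) (n 0 (n 2164859 z z) (n 0 (n 8718139 z (n 2164859 z z)) (n 0 z (n 0 z (n 0 z z)))))) (n 2
 (n 0 z (n 0 z (n 0 z (n 0 z (n 0 z (n 0 z z)))))) z))) (n 0 z (n 0 z (n 0 z (n 0 z (n 0 z (n 0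
 z (n 0 z (n 0 z (n 0 z (n 0 z (n 0 z z)))))))))))))))))))))))))))))))) (n 1017 (n 0 z (n 0 z (n
 0 z (n 0 z (n 0 z (n 0 z (n 0 z (n 0 z (n 0 z (n 0 z (n 0 z (n 0 z (n 0 z (n 0 z (n 0 z (n 0 z
 (n 0 z (n 0 z (n 0 z (n 0 z (n 0 z (n 0 z (n 0 z (n 0 z (n 0 z (n 0 z (n 0 z (n 0 z (n 0 z (n 0
 z (n 0 z (n 0 z z)))))))))))))))))))))))))))))))) (n 913 (n 0 z (n 0 z (n 0 z (n 0 z (n 0 z (n
 0 z (n 0 z (n 0 z (n 0 z (n 0 z (n 0 z (n 2 (n 0 z z) (n 0 z z))))))))))))) (n 913 (n 2 z (n 0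
 z (n 0 z (n 0 z (n 0 z (n 0 z (n 0 z (n 0 z (n 0 z (n 0 z (n 0 z (n 0 z (n 0 z z)))))))))))))
 z)))))))) (n 0 (n 0 z (n 0 z (n 0 z (n 7 (n 0 z (n 0 z (n 0 z (n 0 z (n 0 z (n 0 z (n 0 z (n 0
 z (n 0 z (n 0 z (n 0 z (n 0 z (n 0 z z))))))))))))) (n 7 (n 0 z (n 0 z (n 0 z (n 0 z (n 0 z (n
 0 z (n 0 z (n 0 z (n 0 z (n 0 z (n 2 (n 1 z (n 1 z z)) (n 0 z (n 0 z z))))))))))))) (n 853 (n 0
 z (n 0 z (n 0 z (n 0 z (n 0 z (n 0 z (n 0 z (n 0 z (n 0 z (n 0 z (n 0 z z))))))))))) (n 853 (n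
 2 z (n 0 z (n 0 z (n 0 z (n 0 z (n 0 z (n 0 z (n 0 z (n 0 z (n 0 z (n 0 z z))))))))))) z)))))))
 (n 0 (n 0 z (n 0 z (n 273 (n 0 z (n 0 z (n 0 z (n 0 z (n 0 z (n 0 z (n 0 z (n 0 z (n 0 z (n 0 z
 (n 0 z (n 0 z (n 0 z z))))))))))))) (n 273 (n 0 z (n 0 z (n 0 z (n 0 z (n 0 z (n 0 z (n 0 z (n
 0 z (n 0 z (n 0 z (n 0 z (n 0 z (n 0 z z))))))))))))) (n 21 (n 0 z (n 0 z (n 0 z z))) (n 21 (n
 0 z (n 0 z (n 0 z z))) z)))))) (n 0 (n 0 z (n 1071 (n 0 z (n 0 z (n 0 z (n 0 z (n 0 z (n 0 z (n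
 0 z z))))))) (n 1071 (n 0 z (n 0 z (n 0 z (n 0 z (n 0 z (n 6428427 z (n 0 z z))))))) (n 21 (n 0
 z (n 0 z (n 0 z (n 0 z (n 0 z (n 0 z (n 0 z z))))))) (n 21 (n 0 z (n 0 z (n 0 z (n 0 z (n 0 z
 (n 0 z (n 6428427 z z))))))) z))))) (n 0 (n 247 (n 0 z (n 0 z (n 0 z (n 2 (n 0 z (n 2 (n 0 z (n
 0 z (n 0 (n 2164859 z (n 2164859 z z)) (n 0 z (n 0 z (n 0 (n 2164859 z z) z)))))) (n 1 z z)))
 (n 0 z (n 0 z (n 0 z (n 0 z (n 0 z (n 0 z (n 0 z (n 0 z (n 0 z (n 0 z (n 0 z z)))))))))))))))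
 (n 247 (n 0 z (n 0 z (n 0 z (n 0 z (n 0 z (n 0 z (n 0 z (n 0 z (n 0 z (n 0 z (n 0 z (n 0 z (n 0
 z (n 0 z (n 0 z z))))))))))))))) (n 3 (n 2 (n 0 z z) (n 0 z (n 0 z (n 0 z (n 0 z (n 0 z (n 0 z
 (n 0 z (n 0 z (n 0 z (n 0 z (n 0 z z)))))))))))) (n 3 (n 0 z (n 0 z (n 0 z (n 0 z (n 0 z (n 0 z
 (n 0 z (n 0 z (n 0 z (n 0 z (n 0 z (n 0 z z)))))))))))) z)))) (n 0 (n 0 z (n 3 (n 0 z (n 0 z (n
 0 z (n 0 z (n 0 z (n 0 z (n 0 z (n 0 z (n 0 z (n 0 z (n 0 z (n 0 z (n 0 z (n 0 z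
 z)))))))))))))) (n 3 (n 0 z (n 0 z (n 0 z (n 0 z (n 0 z (n 0 z (n 0 z (n 0 z (n 0 z (n 0 z (n 0
 z (n 2 z (n 0 z (n 0 z z)))))))))))))) z))) (n 0 (n 99 (n 2 (n 0 z z) (n 0 z (n 0 z (n 0 z (n 0
 z (n 0 z (n 0 z (n 0 z (n 0 z (n 0 z z)))))))))) (n 99 (n 0 z (n 0 z (n 0 z (n 0 z (n 0 z (n 0
 z (n 0 z (n 0 z (n 0 z (n 0 z z)))))))))) z)) (n 0 (n 0 z z) (n 0 z z))))))))))))) (n 0 (n 1 (n
 6632459 z (n 6632459 z (n 6632459 z (n 6632459 z (n 6632459 z (n 6632459 z z)))))) (n 0 z (n 0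
 z z))) (n 0 z z)))) (n 0x6ce5a356a519d72bc2b8f6a144f30e2dab10e770a635432f3a21 (n 0 (n 153 (n 0
 z (n 3282443 z (n 0 z (n 0 z z)))) (n 57 (n 2 z (n 10 z (n 6496515 z (n 0 z (n 6496515 z (n 18
 z (n 26 z z))))))) (n 51 (n 0 z (n 0 z (n 0 z (n 0 z (n 34 z (n 0 z (n 0 z (n 0 z (n 0 z (n
 6496515 z (n 42 z z))))))))))) (n 27 (n 6496515 z (n 50 z (n 0 z (n 0 z z)))) (n 1 (n 0 z (n 0
 z (n 0 z (n 6554411 z (n 0 z z))))) (n 0 (n 0 z (n 0 z (n 0 z (n 0 z (n 0 z (n 0 z (n 0 z (n 0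
 z (n 0 z (n 0 z (n 0 z (n 58 z (n 6627595 z (n 0 z (n 0 z (n 66 z (n 74 z z)))))))))))))))))
 z)))))) (n 153 (n 0 (n 0 z (n 0 z (n 0 z (n 731 (n 0 z (n 0 z (n 0 z (n 0 z (n 0 z (n 0 z (n 0
 z z))))))) (n 731 (n 0 z (n 0 z (n 0 z (n 0 z (n 0 z (n 0 z (n 2 (n 2 (n 0 z (n 0 z (n 0 z (n 0
 z (n 0 z (n 0 z z)))))) (n 2 (n 0 z (n 0 z (n 0 z (n 0 z (n 0 z (n 0 z z)))))) (n 2 (n 0 z (n 0
 z (n 0 z (n 0 z (n 0 z (n 0 z z)))))) (n 2 (n 0 z (n 0 z (n 0 z (n 0 z (n 0 z (n 0 z z))))))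
 z)))) z))))))) (n 75 (n 0 z (n 0 z (n 0 z (n 0 z z)))) (n 113 (n 0 z (n 0 z (n 0 z (n 0 z (n 0
 z (n 0 z (n 0 z (n 0 z z)))))))) (n 113 (n 0 z (n 0 z (n 0 z (n 0 z (n 0 z (n 0 z (n 0 z (n 0 z
 z)))))))) (n 113 (n 0 z (n 0 z (n 0 z (n 0 z (n 0 z (n 0 z (n 0 z (n 2 z z)))))))) z)))))))))
 (n 0 (n 0 z (n 0 z (n 779 (n 0 z (n 0 z (n 0 z (n 0 z (n 0 z (n 0 z (n 0 z (n 0 z (n 0 z
 z))))))))) (n 779 (n 0 z (n 0 z (n 0 z (n 0 z (n 0 z (n 0 z (n 0 z (n 0 z (n 2 (n 2 (n 0 z (n 0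
 z (n 0 z (n 0 z (n 0 z (n 0 z z)))))) (n 2 (n 0 z (n 0 z (n 0 z (n 0 z (n 0 z (n 0 z z)))))) (n
 2 (n 0 z (n 0 z (n 0 z (n 0 z (n 0 z (n 0 z z)))))) (n 2 (n 0 z (n 0 z (n 0 z (n 0 z (n 0 z (n
 0 z z)))))) z)))) z))))))))) (n 75 (n 0 z (n 0 z (n 0 z (n 0 z (n 0 z z))))) (n 721 (n 0 z (n 0
 z (n 0 z (n 0 z (n 0 z (n 0 z (n 0 z (n 0 z (n 0 z (n 0 z (n 0 z (n 0 z (n 2 (n 0 z (n 0 z z))
 (n 0 z z)))))))))))))) (n 721 (n 0 z (n 0 z (n 0 z (n 0 z (n 0 z (n 0 z (n 0 z (n 0 z (n 0 z (n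
 0 z (n 0 z (n 2 (n 0 z z) (n 0 z (n 0 z z)))))))))))))) (n 721 (n 0 z (n 0 z (n 0 z (n 0 z (n 0
 z (n 0 z (n 0 z (n 0 z (n 0 z (n 0 z (n 0 z (n 0 z (n 0 z (n 0 z z)))))))))))))) z)))))))) (n 0
 (n 0 z (n 129 (n 0 z (n 0 z (n 0 z (n 0 z (n 0 z (n 0 z (n 0 z (n 0 z z)))))))) (n 129 (n 0 z
 (n 0 z (n 0 z (n 0 z (n 0 z (n 0 z (n 0 z (n 0 z z)))))))) (n 75 (n 0 z (n 0 z (n 0 z (n 0 z
 z)))) (n 113 (n 0 z (n 0 z (n 0 z (n 0 z (n 0 z (n 0 z z)))))) (n 113 (n 0 z (n 0 z (n 0 z (n 0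
 z (n 0 z (n 0 z z)))))) (n 113 (n 0 z (n 0 z (n 0 z (n 0 z (n 0 z (n 0 z z)))))) z))))))) (n 0
 (n 123 (n 0 z (n 0 z (n 0 z (n 0 z (n 2 (n 0 z (n 1 z (n 1 z (n 1 z (n 1 z z))))) (n 0 z (n 0 z
 (n 0 z (n 0 z (n 0 z (n 0 z (n 0 z (n 0 z z))))))))))))) (n 123 (n 0 z (n 0 z (n 0 z (n 0 z (n
 0 z (n 0 z (n 0 z (n 0 z (n 0 z (n 0 z (n 0 z (n 0 z (n 0 z z))))))))))))) (n 75 (n 2 (n 1 z (n
 2 (n 0 z (n 0 z (n 0 z (n 0 z (n 0 z (n 0 z z)))))) (n 2 (n 0 z (n 0 z (n 0 z (n 0 z (n 0 z (n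
 0 z z)))))) z))) (n 0 z (n 0 z (n 0 z (n 0 z z))))) (n 65 (n 0 z (n 0 z (n 0 z (n 0 z (n 0 z (n
 0 z (n 0 z (n 0 z z)))))))) (n 65 (n 0 z (n 0 z (n 0 z (n 0 z (n 0 z (n 0 z (n 0 z (n 0 z
 z)))))))) (n 65 (n 0 z (n 0 z (n 2 z (n 0 z (n 0 z (n 0 z (n 0 z (n 0 z z)))))))) z)))))) (n 0
 (n 0 z (n 247 (n 0 z (n 0 z (n 0 z (n 0 z (n 0 z (n 0 z (n 0 z (n 0 z z)))))))) (n 101 (n 0 z
 (n 0 z (n 0 z (n 0 z (n 0 z (n 0 z (n 0 z (n 0 z (n 0 z z))))))))) (n 101 (n 0 z (n 0 z (n 0 z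
 (n 2 (n 0 z z) (n 0 z (n 0 z (n 0 z (n 0 z (n 0 z z))))))))) (n 101 (n 0 z (n 0 z (n 0 z (n 0 z
 (n 0 z (n 0 z (n 0 z (n 0 z (n 7673403 z z))))))))) z))))) (n 0 (n 247 (n 0 z (n 0 z (n 2 (n 2
 (n 0 z (n 0 z (n 0 z (n 0 z (n 0 z (n 0 z z)))))) (n 2 (n 0 z (n 0 z (n 0 z (n 0 z (n 0 z (n 0
 z z)))))) (n 2 (n 0 z (n 0 z (n 0 z (n 0 z (n 0 z (n 0 z z)))))) z))) (n 0 z (n 0 z (n 0 z
 z)))))) (n 101 (n 0 z (n 0 z (n 0 z (n 0 z (n 0 z (n 2 (n 0 z (n 0 z z)) (n 0 z (n 0 z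
 z)))))))) (n 101 (n 0 z (n 0 z (n 0 z (n 0 z (n 0 z (n 0 z (n 0 z (n 0 z z)))))))) (n 101 (n 0
 z (n 0 z (n 0 z (n 7673387 z (n 0 z (n 0 z (n 0 z (n 0 z z)))))))) z)))) (n 0 (n 53 (n 0 z (n 0
 z (n 0 z (n 0 z (n 0 z (n 0 z (n 0 z (n 0 z (n 0 z (n 0 z (n 0 z (n 0 z (n 0 z (n 0 z (n 0 z (n
 0 z (n 0 z (n 0 z (n 0 z (n 0 z (n 0 z (n 0 z z)))))))))))))))))))))) (n 53 (n 0 z (n 0 z (n 0
 z (n 0 z (n 0 z (n 0 z (n 0 z (n 0 z (n 0 z (n 0 z (n 0 z (n 2 (n 0 z z) (n 0 z (n 0 z (n 0 z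
 (n 0 z (n 0 z (n 0 z (n 0 z (n 0 z (n 0 z (n 0 z z)))))))))))))))))))))) (n 53 (n 0 z (n 0 z (n
 0 z (n 0 z (n 0 z (n 0 z (n 0 z (n 0 z (n 0 z (n 0 z (n 0 z (n 0 z (n 0 z (n 0 z (n 0 z (n 0 z
 (n 0 z (n 0 z (n 0 z (n 0 z (n 0 z (n 7673403 z z)))))))))))))))))))))) z))) (n 0 (n 0 z (n 0 z
 z)) (n 0 (n 0 z z) (n 0 z z)))))))))) (n 0 (n 0 z (n 1 (n 3282443 z (n 6496515 z (n 3282443 z
 (n 3282443 z (n 3282443 z (n 3282443 z z)))))) (n 0 z (n 0 z z)))) (n 0 z z)))) z)))))))))),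
 by decide +kernel⟩
theorem i10925 : ∃ t, chkR KT RW t 10925 10931 = true := ⟨(n
 0x12146871134350aa1689d0652ea0a151310a79c04a4d029385101350819c440 (n 0 (n 465 (n 0 z (n 0 z (n
 0 z (n 2 z (n 0 z (n 10 z (n 0 z (n 0 z (n 3282443 z (n 3282443 z (n 0 z (n 18 z (n 0 z (n 0 z
 (n 0xc86c864037e17df8608207e182181f81f81f82086086081f7df8617e281f8208a08207e086081e7e285f0801 z
 (n 0 z (n
 0x2ca8a824038217e18e17e17df7618a17df7df8608208218208217e086181f7e28217e08207e182081f8600801 z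
 z))))))))))))))))) (n 35 (n 0 z (n 3278363 z (n 0 z (n 0 z (n 0 z z))))) (n 9 (n
 0x965253040186ca2a80603a9e56869b85762291b9257e489f8e09a082985f7a06d67dfa277a28a18228e38217dd8e27e01001
 z (n 0 z (n 26 z (n 0 z (n 0 z (n 34 z (n
 0x2ca8ca86037df7e08608208208218208208208208608208208207e08208208208208208608607e08208200801 z
 (n 6632003 z z)))))))) (n 3 (n 42 z (n 6632003 z (n 0 z z))) (n 1 (n 0 z (n 50 z (n 0 z (n 0 z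
 (n 0 z (n 0 z (n 6558507 z z))))))) (n 0 (n 58 z (n
 0x2ca88604038208608208208208208208208208208208208208608208207e08208208208208208208208200801 z
 (n 66 z (n 74 z (n 82 z (n 0 z (n
 0xc86c864037e17df8608207e182181f81f81f82086086081f7df8617e281f8208a08207e086081e7e285f0801 z (n
 90 z (n
 0x2ca886240781f7df8217a17e28a082081f81f82186182081f82182082082082081f8208a08207e08208200801 z
 (n 6632003 z (n 6632003 z (n 6632003 z z)))))))))))) z)))))) (n 3 (n 0 (n 0 z (n 0 z (n 271 (n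
 0 z (n 0 z (n 2 (n 0 z (n 1 z (n 1 z (n 2 (n 0 z (n 0 z (n 0 z (n 0 z (n 0 z (n 0 z z)))))) (n
 1 z (n 1 z (n 1 z (n 2 (n 0 z (n 0 z (n 0 z (n 0 z (n 0 z (n 0 z z)))))) z)))))))) (n 0 z (n 0
 z (n 0 z (n 0 z (n 0 z z)))))))) (n 271 (n 0 z (n 0 z (n 0 z (n 0 z (n 0 z (n 0 z (n 0 z (n 0 z
 z)))))))) (n 267 (n 0 z (n 0 z (n 0 z (n 2 (n 1 z (n 2 (n 0 z (n 0 z (n 0 z (n 0 z (n 0 z (n 0
 z z)))))) (n 1 z (n 1 z (n 2 (n 0 z (n 0 z (n 0 z (n 0 z (n 0 z (n 0 z z)))))) (n 2 (n 0 z (n 0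
 z (n 0 z (n 0 z (n 0 z (n 0 z z)))))) z)))))) (n 0 z (n 0 z (n 0 z (n 0 z (n 0 z z))))))))) (n
 3 (n 0 z (n 0 z (n 0 z (n 0 z (n 0 z (n 0 z (n 0 z (n 0 z (n 0 z (n 0 z (n 0 z (n 0 z (n 0 z
 z))))))))))))) (n 265 (n 0 z (n 0 z (n 0 z (n 0 z (n 0 z (n
 0x2aea4c608034eca5c9e17e2a269578a35de8586e861abab88d961a0f8e88ad89a622add95b45f9b09167ab0801 z
 (n 0 z (n 0 z (n 0 z (n 0 z (n 0 z (n 0 z z)))))))))))) (n 265 (n 0 z (n 0 z (n 0 z (n 0 z (n 0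
 z (n 0 z (n 0 z (n 0 z (n 0 z (n 0 z (n 0 z (n 2 (n 0 z (n 0 z (n 0 z z))) z)))))))))))) (n 265
 (n 0 z (n 0 z (n 0 z (n 0 z (n 0 z (n 0 z (n 0 z (n 0 z (n 0 z (n 0 z (n 0 z (n 0 z
 z)))))))))))) (n 265 (n 0 z (n 0 z (n 0 z (n 0 z (n 0 z (n 0 z (n 0 z (n 0 z (n 0 z (n 0 z (n 0
 z (n 0 z z)))))))))))) (n 265 (n 0 z (n 0 z (n 0 z (n 0 z (n 0 z (n 0 z (n 0 z (n 0 z (n 0 z (n
 0 z (n 0 z (n 0 z z)))))))))))) z))))))))))) (n 0 (n 0 z (n 23 (n 0 z (n 0 z (n 0 z (n 0 z (n 0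
 z (n 0 z (n 0 z (n 0 z (n 0 z (n 0 z (n 0 z z))))))))))) (n 23 (n 0 z (n 0 z (n 2 (n 2 (n 0 z
 (n 0 z (n 0 z (n 0 z (n 0 z (n 0 z z)))))) (n 2 (n 0 z (n 0 z (n 0 z (n 0 z (n 0 z (n 0 z
 z)))))) (n 2 (n 0 z (n 0 z (n 0 z (n 0 z (n 0 z (n 0 z z)))))) (n 2 (n 0 z (n 0 z (n 0 z (n 0 z
 (n 0 z (n 0 z z)))))) (n 2 (n 0 z (n 0 z (n 0 z (n 0 z (n 0 z (n 0 z z)))))) (n 2 (n 0 z (n 0 z
 (n 0 z (n 0 z (n 0 z (n 0 z z)))))) (n 2 (n 0 z (n 0 z (n 0 z (n 0 z (n 0 z (n 0 z z))))))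
 z))))))) (n 0 z (n 0 z (n 0 z (n 0 z (n 0 z (n 0 z (n 0 z (n 0 z z))))))))))) (n 267 (n 0 z (n
 0 z (n 0 z (n 0 z (n 0 z (n 0 z (n 0 z (n 0 z (n 0 z (n 0 z (n 0 z (n 0 z z)))))))))))) (n 21
 (n 0 z (n 0 z (n 0 z (n 0 z (n 0 z (n 0 z (n 0 z (n 0 z (n 0 z (n 0 z (n 0 z (n 0 z (n 0 z (n 0
 z (n 0 z (n 0 z (n 0 z (n 0 z (n 0 z (n 0 z (n 0 z (n 0 z (n 0 z (n 0 z (n 0 z (n 0 z (n 0 z (n
 0 z (n 0 z (n 0 z (n 0 z (n 0 z z)))))))))))))))))))))))))))))))) (n 269 (n 0 z (n 0 z (n 0 z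
 (n 0 z (n 0 z (n 0 z (n 0 z (n 0 z (n 2 (n 0 z (n 0 z (n 0 z (n 0 z z)))) (n 0 z (n 0 z (n 0 z
 z)))))))))))) (n 269 (n 0 z (n 0 z (n 0 z (n 0 z (n 0 z (n 0 z (n 2 (n 0 z (n 0 z (n 0 z z)))
 (n 0 z (n 0 z (n 0 z (n 0 z (n 0 z z)))))))))))) (n 269 (n 0 z (n 0 z (n 0 z (n 0 z (n 0 z (n 0
 z (n 0 z (n 0 z (n 0 z (n 0 z (n 0 z (n 0 z z)))))))))))) (n 269 (n 0 z (n 0 z (n 0 z (n 0 z (n
 0 z (n 0 z (n 0 z (n 0 z (n 0 z (n 0 z (n 0 z (n 0 z z)))))))))))) (n 269 (n 0 z (n 0 z (n 0 z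
 (n 0 z (n 0 z (n 0 z (n 0 z (n 0 z (n 0 z (n 0 z (n 0 z (n 0 z z)))))))))))) z)))))))))) (n 0
 (n 107 (n 0 z (n 6620987 z (n 0 z (n 0 z (n 0 z (n 0 z (n 0 z (n 0 z z)))))))) (n 107 (n 0 z (n
 0 z (n 0 z (n 6620971 z (n 0 z (n 0 z (n 0 z (n 0 z z)))))))) (n 11 (n 0 z (n 0 z (n 0 z (n 0 z
 (n 0 z (n 6620987 z (n 0 z (n 0 z (n 0 z (n 0 z (n 0 z (n 0 z z)))))))))))) (n 99 (n 0 z (n
 6620987 z (n 0 z (n 0 z (n 0 z (n 0 z (n 0 z (n 0 z (n 0 z (n 0 z (n 0 z (n 0 z z))))))))))))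
 (n 13 (n 0 z (n 0 z (n 0 z (n 0 z (n 0 z (n 0 z (n 0 z (n 0 z (n 0 z (n 0 z (n 0 z (n 0 z
 z)))))))))))) (n 13 (n 0 z (n
 0x2ea8c8640382082085f7e08218608208207e086182082081f7e082082182086082082082182085f7e08200801 z
 (n 0 z (n 0 z (n 0 z (n 0 z (n 0 z (n 0 z (n 0 z (n 0 z (n 0 z (n 0 z z)))))))))))) (n 13 (n 0
 z (n 0 z (n 0 z (n 0 z (n 2 (n 0 z (n 0 z z)) (n 0 z (n 0 z (n 0 z (n 0 z (n 0 z (n 0 z (n 0 z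
 z)))))))))))) (n 13 (n 0 z (n 0 z (n 0 z (n 2 (n 0 z z) (n 0 z (n 0 z (n 0 z (n 0 z (n 0 z (n 0
 z (n 0 z (n 0 z z)))))))))))) (n 13 (n 0 z (n 0 z (n 0 z (n 0 z (n 0 z (n 0 z (n 0 z (n 0 z (n
 0 z (n 0 z (n 0 z (n 0 z z)))))))))))) z))))))))) (n 0 (n 0 z (n 295 (n 0 z (n 0 z (n 0 z (n 0
 z (n 0 z (n 0 z (n 0 z (n 0 z (n 0 z (n 0 z z)))))))))) (n 291 (n 0 z (n 0 z (n 0 z (n 0 z (n 0
 z (n 0 z (n 0 z (n 0 z (n 0 z (n 0 z (n 0 z (n 0 z (n 0 z (n 0 z z)))))))))))))) (n 293 (n 0 z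
 (n 0 z (n 0 z (n 0 z (n 2 (n 0 z (n 0 z (n 0 z (n 0 z z)))) (n 0 z (n 0 z (n 0 z (n 0 z (n 0 z
 (n 0 z z))))))))))) (n 293 (n 0 z (n 0 z (n 0 z (n 0 z (n 0 z (n 0 z (n 0 z (n 0 z (n 0 z (n 0
 z (n 0 z z))))))))))) (n 293 (n 0 z (n 0 z (n 0 z (n 0 z (n 0 z (n 0 z (n 0 z (n 0 z (n 0 z (n
 0 z (n 0 z z))))))))))) (n 293 (n 0 z (n 0 z (n 0 z (n 0 z (n 0 z (n 0 z (n 0 z (n 2 (n 0 z z)
 (n 0 z (n 0 z (n 0 z z))))))))))) (n 293 (n 0 z (n 0 z (n 0 z (n 0 z (n 0 z (n 0 z (n 0 z (n 0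
 z (n 0 z (n 0 z (n 0 z z))))))))))) z)))))))) (n 0 (n 295 (n 2 (n 2 (n 0 z (n 0 z (n 0 z (n 0 z
 (n 0 z (n 0 z z)))))) (n 2 (n 0 z (n 0 z (n 0 z (n 0 z (n 0 z (n 0 z z)))))) (n 2 (n 0 z (n 0 z
 (n 0 z (n 0 z (n 0 z (n 0 z z)))))) (n 2 (n 0 z (n 0 z (n 0 z (n 0 z (n 0 z (n 0 z z)))))) (n 2
 (n 0 z (n 0 z (n 0 z (n 0 z (n 0 z (n 0 z z)))))) (n 2 (n 0 z (n 0 z (n 0 z (n 0 z (n 0 z (n 0
 z z)))))) z)))))) (n 0 z (n 0 z (n 0 z (n 0 z z))))) (n 3 (n 2 (n 2 (n 0 z (n 0 z (n 0 z (n 0 z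
 (n 0 z (n 0 z z)))))) (n 2 (n 0 z (n 0 z (n 0 z (n 0 z (n 0 z (n 0 z z)))))) (n 2 (n 0 z (n 0 z
 (n 0 z (n 0 z (n 0 z (n 0 z z)))))) (n 2 (n 0 z (n 0 z (n 0 z (n 0 z (n 0 z (n 0 z z)))))) (n 2
 (n 0 z (n 0 z (n 0 z (n 0 z (n 0 z (n 0 z z)))))) z))))) (n 0 z (n 0 z (n 0 z (n 0 z z))))) (n
 293 (n 0 z (n 0 z (n 0 z (n 0 z (n 0 z (n 0 z (n 0 z (n 0 z (n 0 z (n 0 z (n 0 z (n 0 z (n 0 z
 (n 0 z (n 0 z (n 0 z (n 0 z (n 0 z (n 0 z (n 0 z (n 0 z (n 0 z (n 0 z (n 0 z (n 0 z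
 z))))))))))))))))))))))))) (n 293 (n 0 z (n 0 z (n 0 z (n 0 z (n 0 z (n 0 z (n 0 z (n 0 z (n 0
 z (n 0 z (n 0 z (n 0 z (n 0 z (n 0 z (n 0 z (n 0 z (n 0 z (n 0 z (n 0 z (n 2 (n 0 z (n 0 z (n 0
 z z))) (n 0 z (n 0 z (n 0 z (n 0 z (n 0 z z))))))))))))))))))))))))) (n 293 (n 2 (n 0 z (n 0 z
 z)) (n 0 z (n 0 z (n 0 z (n 0 z (n 0 z (n 0 z (n 0 z (n 0 z (n 0 z (n 0 z (n 0 z (n 0 z (n 0 z
 (n 0 z (n 0 z (n 0 z (n 0 z (n 0 z (n 0 z (n 0 z (n 0 z (n 0 z (n 0 z (n 0 z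
 z))))))))))))))))))))))))) (n 293 (n 0 z (n 0 z (n 0 z (n 0 z (n 0 z (n 0 z (n 0 z (n 0 z (n 0
 z (n 0 z (n 0 z (n 0 z (n 0 z (n 0 z (n 0 z (n 0 z (n 0 z (n 0 z (n 0 z (n 0 z (n 0 z (n 0 z (n
 0 z (n 0 z (n 0 z z))))))))))))))))))))))))) (n 293 (n 0 z (n 0 z (n 0 z (n 0 z (n 0 z (n 0 z
 (n 0 z (n 0 z (n 0 z (n 0 z (n 0 z (n 0 z (n 0 z (n 0 z (n 0 z (n 0 z (n 0 z (n 0 z (n 0 z (n 0
 z (n 0 z (n 0 z (n 0 z (n 0 z (n 0 z z))))))))))))))))))))))))) z))))))) (n 0 (n 255 (n 0 z (n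
 0 z (n 0 z (n 0 z (n 0 z (n 0 z (n 0 z (n 0 z (n 0 z (n 0 z z)))))))))) (n 341 (n 0 z (n 0 z (n
 0 z (n 0 z (n 0 z (n 2 (n 0 z (n 0 z (n 0 z (n 0 z z)))) (n 0 z (n 0 z (n 0 z (n 0 z (n 0 z (n
 0 z (n 0 z z))))))))))))) (n 341 (n 0 z (n 0 z (n 0 z (n 0 z (n 0 z (n 0 z (n 0 z (n 0 z (n 0 z
 (n 0 z (n 0 z (n 0 z (n 0 z z))))))))))))) (n 341 (n 0 z (n 0 z (n 0 z (n 0 z (n 0 z (n 0 z (n
 0 z (n 0 z (n 0 z (n 0 z (n 0 z (n 0 z (n 0 z z))))))))))))) (n 341 (n 2 (n 0 z z) (n 0 z (n 0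
 z (n 0 z (n 0 z (n 0 z (n 0 z (n 0 z (n 0 z (n 0 z (n 0 z (n 0 z (n 0 z z))))))))))))) (n 341
 (n 0 z (n 0 z (n 0 z (n 0 z (n 0 z (n 0 z (n 0 z (n 0 z (n 0 z (n 0 z (n 0 z (n 0 z (n 0 z
 z))))))))))))) z)))))) (n 0 (n 265 (n 0 z (n 0 z (n 0 z (n 0 z (n 0 z (n 0 z (n 0 z (n 0 z (n 0
 z (n 0 z (n 0 z (n 0 z (n 0 z (n 0 z (n 0 z (n 0 z (n 0 z (n 0 z (n 0 z (n 0 z (n 0 z (n 2 (n 0
 z (n 0 z (n 0 z (n 0 z z)))) (n 0 z (n 0 z (n 0 z (n 0 z (n 0 z (n 0 z (n 0 z (n 0 z (n 0 z (n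
 0 z (n 0 z (n 0 z (n 0 z (n 0 z (n 0 z (n 0 z (n 0 z (n 0 z (n 0 z (n 0 z (n 0 z (n 0 z (n 0 z
 (n 0 z z)))))))))))))))))))))))))))))))))))))))))))))) (n 265 (n 0 z (n 0 z (n 0 z (n 0 z (n 0
 z (n 0 z (n 0 z (n 0 z (n 0 z (n 0 z (n 0 z (n 0 z (n 0 z (n 0 z (n 0 z (n 0 z (n 0 z (n 0 z (n
 0 z (n 0 z (n 0 z (n 0 z (n 0 z (n 0 z (n 0 z (n 0 z (n 0 z (n 0 z (n 0 z (n 0 z (n 0 z (n 0 z
 (n 0 z (n 0 z (n 0 z (n 0 z (n 0 z (n 0 z (n 0 z (n 0 z (n 2 (n 0 z (n 0 z (n 0 z z))) (n 0 z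
 (n 0 z (n 0 z (n 0 z (n 0 z z)))))))))))))))))))))))))))))))))))))))))))))) (n 265 (n 0 z (n 0
 z (n 0 z (n 0 z (n 0 z (n 0 z (n 0 z (n 0 z (n 0 z (n 0 z (n 0 z (n 0 z (n 0 z (n 0 z (n 0 z (n
 0 z (n 0 z (n 0 z (n 0 z (n 0 z (n 0 z (n 0 z (n 0 z (n 0 z (n 0 z (n 0 z (n 0 z (n 0 z (n 0 z
 (n 0 z (n 0 z (n 0 z (n 0 z (n 0 z (n 0 z (n 0 z (n 0 z (n 0 z (n 0 z (n 0 z (n 0 z (n 0 z (n 0
 z (n 0 z (n 0 z (n 0 z z)))))))))))))))))))))))))))))))))))))))))))))) (n 265 (n 0 z (n 0 z (n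
 0 z (n 0 z (n 0 z (n 0 z (n 0 z (n 0 z (n 0 z (n 0 z (n 0 z (n 0 z (n 0 z (n 0 z (n 0 z (n 0 z
 (n 0 z (n 0 z (n 0 z (n 0 z (n 0 z (n 0 z (n 0 z (n 0 z (n 0 z (n 0 z (n 0 z (n 0 z (n 0 z (n 0
 z (n 0 z (n 0 z (n 0 z (n 0 z (n 0 z (n 0 z (n 0 z (n 0 z (n 0 z (n 0 z (n 0 z (n 0 z (n 0 z (n
 0 z (n 0 z (n 0 z z)))))))))))))))))))))))))))))))))))))))))))))) (n 265 (n 0 z (n 0 z (n 0 z
 (n 0 z (n 0 z (n 0 z (n 0 z (n 0 z (n 0 z (n 0 z (n 0 z (n 0 z (n 0 z (n 0 z (n 0 z (n 0 z (n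
 0x6c86ea240382082086081f8228a07e18208217e181f86081f8208207e17e181f82181f8608218207e08200801 z
 (n 0 z (n 0 z (n 0 z (n 0 z (n 0 z (n 0 z (n 0 z (n 0 z (n 0 z (n 0 z (n 0 z (n 0 z (n 0 z (n 0
 z (n 0 z (n 0 z (n 0 z (n 0 z (n 0 z (n 0 z (n 0 z (n 0 z (n 0 z (n 0 z (n 0 z (n 0 z (n 0 z (n
 0 z (n 0 z z)))))))))))))))))))))))))))))))))))))))))))))) z))))) (n 0 (n 0 z (n 0 z (n 0 z (n
 0 z z)))) (n 0 (n 0 z (n 0 z (n 0 z z))) (n 0 (n 0 z (n 0 z z)) (n 0 (n 0 z z) (n 0 z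
 z)))))))))))) (n 0 (n 1 (n 3724 z (n 284 z (n 3724 z (n 6558507 z (n 3724 z (n 3724 z z))))))
 (n 1 (n 6632003 z (n 6632003 z (n 6632003 z (n 6632003 z (n 6632003 z (n 6632003 z z)))))) (n 0
 z z))) (n 0 z z)))) (n 0x8c26d4212d612a75104aa8c04d461029350111d40 (n 0 (n 153 (n 0 z (n 0 z (n
 0 z (n 0 z (n 0 z (n 0 z (n 2 z (n 0 z (n
 0x2ca8a864078688596e581d69b62385e89b7a482085d85b82695d8a78dc71b6e875a85a799ba39dc86689c0801 z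
 (n 0 z (n 0 z (n 0 z (n 6619675 z (n 6619675 z (n 10 z (n 0 z (n 18 z (n
 0x2ca8a824078688596e481e65c62385f8dd7a382089d85b7e695d8a78dc71b72875989a759ba49dd86689d0801 z
 (n 0 z (n 0 z (n 3282443 z (n 0 z z)))))))))))))))))))))) (n 35 (n 26 z (n 0 z (n 6562131 z (n
 0 z (n 0 z z))))) (n 9 (n 0 z (n 0 z (n 0 z (n 34 z (n 6562131 z z))))) (n 3 (n 6632475 z (n 0
 z (n 42 z (n 0 z (n 0 z (n 0 z (n 0 z (n 0 z (n 50 z z))))))))) (n 1 (n 0 z (n 0 z (n 0 z (n 0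
 z (n 6562131 z (n 6562131 z z)))))) (n 0 (n 0 z (n 58 z (n 0 z (n 6619675 z (n 0 z (n 6619675 z
 z)))))) z)))))) (n 35 (n 0 (n 0 z (n 0 z (n 767 (n 0 z (n 0 z (n 2 (n 1 z (n 2 (n 0 z (n 0 z (n
 0 z (n 0 z (n 0 z (n 0 z z)))))) (n 2 (n 0 z (n 0 z (n 0 z (n 0 z (n 0 z (n 0 z z)))))) (n 1 z
 z)))) (n 0 z (n 0 z z))))) (n 765 (n 2 (n 2 (n 0 z (n 0 z (n 0 z (n 0 z (n 0 z (n 0 z z))))))
 (n 1 z (n 1 z z))) (n 0 z (n 0 z (n 0 z (n 0 z (n 0 z (n 0 z z))))))) (n 969 (n 0 z (n 0 z (n 0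
 z (n 0 z (n 0 z (n 0 z (n 0 z (n 0 z (n 2 (n 0 z (n 2 (n 0 z (n 0 z (n 0 z (n 0 z (n 0 z (n 0 z
 z)))))) z)) (n 0 z (n 0 z (n 0 z (n 0 z (n 0 z (n 0 z (n 0 z (n 0 z (n 0 z (n 0 z (n 0 z (n 0 z
 (n 0 z (n 0 z z))))))))))))))))))))))) (n 969 (n 0 z (n 0 z (n 0 z (n 0 z (n 0 z (n 0 z (n 0 z
 (n 0 z (n 0 z (n 0 z (n 0 z (n 0 z (n 0 z (n 0 z (n 0 z (n 0 z (n 2 (n 1 z z) (n 0 z (n 0 z (n
 0 z (n 0 z (n 0 z (n 0 z z))))))))))))))))))))))) (n 121 (n 0 z (n 2 z (n 0 z (n 0 z (n 0 z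
 z))))) z))))))) (n 0 (n 0 z (n 131 (n 0 z (n 0 z (n 0 z (n 0 z z)))) (n 123 (n 0 z (n 0 z (n 0
 z (n 0 z (n 0 z (n 0 z (n 0 z (n 0 z z)))))))) (n 147 (n 0 z (n 0 z (n 0 z (n 0 z (n 0 z (n 0 z
 z)))))) (n 147 (n 0 z (n 0 z (n 0 z (n 0 z (n 0 z (n 0 z z)))))) (n 121 (n 0 z (n 0 z (n 0 z (n
 0 z (n 0 z (n 0 z (n 0 z z))))))) z)))))) (n 0 (n 127 (n 0 z (n 0 z (n 0 z (n 0 z (n 0 z (n 0 z
 (n 0 z (n 0 z (n 0 z z))))))))) (n 103 (n 0 z (n 0 z (n 0 z (n 0 z (n 0 z (n 0 z (n 0 z (n 0 z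
 z)))))))) (n 27 (n 2 (n 0 z (n 2 (n 0 z (n 0 z (n 0 z (n 0 z (n 0 z (n 0 z z)))))) z)) (n 0 z
 (n 0 z (n 0 z (n 0 z z))))) (n 27 (n 0 z (n 0 z (n 0 z (n 0 z (n 0 z z))))) (n 17 (n 0 z (n 0 z
 (n 0 z (n 0 z (n 0 z (n 0 z (n 0 z (n 0 z (n 0 z z))))))))) z))))) (n 0 (n 343 (n 0 z (n 0 z (n
 0 z (n 0 z (n 0 z (n 0 z (n 0 z (n 0 z (n 0 z (n 0 z (n 0 z (n 0 z (n 0 z z))))))))))))) (n 7
 (n 0 z (n 2 (n 0 z (n 2 (n 0 z (n 0 z (n 0 z (n 0 z (n 0 z (n 0 z z)))))) z)) (n 0 z (n 0 z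
 z)))) (n 7 (n 0 z (n 0 z (n 0 z (n 0 z z)))) (n 341 (n 0 z (n 0 z (n 0 z (n 0 z (n 0 z z)))))
 z)))) (n 0 (n 535 (n 0 z (n 2 (n 0 z (n 1 z z)) (n 0 z (n 0 z z)))) (n 535 (n 0 z (n 0 z (n 0 z
 (n 0 z z)))) (n 481 (n 0 z (n 0 z (n 0 z (n 0 z (n 0 z (n 0 z (n 0 z (n 0 z (n 0 z (n 0 z (n 0
 z (n 0 z (n 0 z (n 0 z (n 0 z (n 0 z (n 0 z (n 0 z (n 0 z (n 0 z (n 0 z (n 0 z (n 0 z (n 0 z (n
 0 z (n 0 z z)))))))))))))))))))))))))) z))) (n 0 (n 0 z (n 49 (n 2 z (n 0 z (n 0 z (n 0 z (n 0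
 z (n 0 z z)))))) z)) (n 0 (n 13 (n 0 z (n 0 z (n 0 z (n 0 z (n 0 z (n 0 z (n 0 z (n 0 z
 z)))))))) z) (n 0 z z)))))))) (n 0 (n 1 (n 12 z (n 6632475 z (n 1228 z (n 6619675 z (n 1228 z
 (n 1228 z z)))))) (n 0 z (n 1 (n 6562131 z (n 6562131 z (n 6562131 z (n 6562131 z (n 6562131 z
 (n 6562131 z z)))))) (n 0 z (n 0 z z))))) (n 0 z z)))) (n
 0x675ca19b5d05a6ac0d3518aec91028b84269bc1cacd09c65851b8586942d04616980cd740 (n 0x2169a (n 155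
 (n 2 z (n
 0x1d64282082089f8a08a08228207e27e081f8de85f7e27a17a57a17a17de7618e07e48618607e07e00041 z (n 10
 z (n 0 z (n 0 z (n 0 z (n 0 z (n 0 z (n 0 z (n 0 z (n 0 z (n 0 z (n 0 z (n 6557779 z (n 0 z (n
 0x32a32a181c165364310182c86c8620386182095d91d8db86675e8647a08229676a26237de8228de9627e186989875f8a275f7e08641801
 z (n 0 z (n 0 z z)))))))))))))))))) (n 33 (n 18 z (n 6557779 z (n 0 z z))) (n 9 (n 0 z (n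
 6627595 z (n 26 z z))) (n 27 (n 34 z (n
 0x146218217dd82086185f7df8637df8607dd81f86189e8217a081f8208207df86089f81f8207e18200041 z (n 42
 z (n 0 z (n 0 z (n 0 z (n 0 z (n 0 z (n 50 z (n 58 z (n 66 z (n
 0x8c840464082181e7e086081f7e08627e08607df82086085f8207e08208208208208608608208208208200081 z (n
 0 z (n
 0xca8ca800785f8208207e08207e08627e08207e08208a08608208208208208208208208608208208208200801 z (n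
 0 z (n 0 z (n 0 z (n
 0xca8ca820785f8208207e082082082282086182082082081f8207e08208208208208208208208208208210801 z (n
 0 z (n 0 z (n 2164283 z (n 0 z z)))))))))))))))))))))) (n 1 (n 74 z (n 82 z (n 0 z (n 0 z (n
 6557779 z (n 0 z z)))))) (n 0 (n
 0x265442130382ca886420781c7e08607207dd91f8a085f8a091f7a182189d7a076086085e7e079e8a07e186286189f7e01001
 z (n
 0x2ca88206078207e08608607e086082082082081f85f81f8608217e086182182082085f8208217e08208200801 z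
 (n 90 z (n
 0x46544203038cca886420781c6a09a17a25df99b8e08598a291d5df865a1a86781a7df85a7e15da86879f8699a2add79d1001
 z (n 0 z (n 0 z (n
 0x12ca882060782a7207de9df6a07a28e08dd7e3797a1b82571d6a18198df75e8a17e17de9227e276b71b8e60801 z
 (n 0 z (n 0 z (n 0 z (n 98 z (n 0 z (n 0 z (n 0 z (n
 0xc86c8620785e8618207a07e07e08618218207e08208a08608208208208208208208208208608208208200801 z (n
 0 z (n 0 z (n 0 z (n 0 z (n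
 0x146208217dd82086185f7df8637df8607dd81f86189e8217a081f8208207df86089f81f8207e18200041 z (n
 6627595 z (n 0 z (n 0 z (n 0 z (n 0 z (n 6627595 z (n
 0x28c820c6408217dc7df85f85f7e18a48208617e085f86081e7e07e182081f82182185f8a07e081f8208210081 z
 (n 6627595 z (n 0 z (n 106 z (n 0 z (n
 0x8c840464082181e7e086081f7e08627e08607df82086085f8207e08208208208208608608208208208200081 z (n
 0 z (n 0 z (n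
 0x8c640463082181e7e086081f7e08627e08607df82086085f8207e08208208208208608608208208208200081 z (n
 0 z z)))))))))))))))))))))))))))))))))))) z)))))) (n 33 (n 0 (n 0 z (n 167 (n 0 z (n 0 z (n 0 z
 (n 0 z (n 0 z (n 0 z (n 0 z (n 0 z (n 2 (n 2 (n 0 z (n 0 z (n 0 z (n 0 z (n 0 z (n 0 (n 4393083
 z z) z)))))) (n 2 (n 0 z (n 0 z (n 0 z (n 0 z (n 0 z (n 0 (n 660 z z) z)))))) (n 2 (n 0 z (n 0
 z (n 0 z (n 0 z (n 0 z (n 0 z z)))))) (n 2 (n 0 z (n 0 (n 660 z z) (n 0 z (n 0 z (n 0 z (n 0 (n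
 8853067 z (n 8853067 z z)) z)))))) (n 2 (n 0 z (n 0 z (n 0 z (n 0 z (n 0 z (n 0 z z)))))) (n 2
 (n 0 z (n 0 z (n 0 z (n 0 z (n 0 z (n 0 z z)))))) (n 1 z (n 2 (n 0 z (n 0 z (n 0 z (n 0 z (n 0
 z (n 0 z z)))))) (n 2 (n 0 z (n 0 z (n 0 z (n 0 z (n 0 z (n 0 (n 8851979 z z) z)))))) (n 1 z (n
 2 (n 0 z (n 0 (n 1204 z z) (n 0 z (n 0 z (n 0 z (n 0 (n 8853067 z (n 8853067 z z)) z))))))
 z))))))))))) (n 0 z (n 0 z (n 0 z (n 0 z (n 0 z (n 0 z (n 0 z (n 0 z z))))))))))))))))) (n 189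
 (n 0 z (n 0 z (n 0 z (n 0 z (n 0 z (n 0 z (n 0 z (n 2 (n 1 z (n 1 z (n 1 z (n 2 (n 0 z (n 0 z
 (n 0 z (n 0 z (n 0 z (n 0 (n 4262011 z z) z)))))) (n 2 (n 0 z (n 0 z (n 0 z (n 0 z (n 0 z (n 0
 (n 660 z z) z)))))) (n 1 z (n 1 z (n 1 z (n 1 z (n 1 z z)))))))))) (n 0 z (n 0 z z)))))))))) (n
 165 (n 0 z (n 0 z (n 0 z (n 0 z (n 0 z (n 0 z (n 2 (n 0 z (n 0 z (n 0 z (n 0 z (n 1 z (n 1 z (n
 1 z (n 1 z (n 1 z z))))))))) (n 0 z (n 0 z (n 0 z (n 0 z (n 0 z (n 0 z (n 0 z (n 0 z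
 z))))))))))))))) (n 165 (n 0 z (n 0 z (n 0 z (n 2 (n 0 z (n 0 z (n 0 z (n 1 z (n 2 (n 0 z (n 0
 z (n 0 z (n 0 z (n 0 z (n 0 (n 1212 z z) z)))))) (n 2 (n 0 z (n 0 z (n 0 z (n 0 z (n 0 z (n 0
 (n 1204 z z) z)))))) (n 1 z (n 1 z z)))))))) (n 0 z (n 0 z (n 0 z (n 0 z (n 0 z (n 0 z (n 0 z
 (n 0 z (n 0 z (n 0 z (n 0 z z))))))))))))))) (n 165 (n 0 z (n 0 z (n 0 z (n 0 z (n 0 z (n 0 z
 (n 0 z (n 0 z (n 0 z (n 0 z (n 0 z (n 0 z (n 0 z (n 0 z (n 0 z z))))))))))))))) (n 165 (n 0 z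
 (n 0 z (n 0 z (n 0 z (n 2 (n 0 z (n 1 z (n 2 (n 0 z (n 0 z (n 0 z (n 0 z (n 0 z (n 0 z z))))))
 (n 2 (n 0 z (n 0 z (n 0 z (n 0 z (n 0 z (n 0 (n 8851979 z z) z)))))) (n 1 z (n 2 (n 0 z (n 0 (n
 1204 z z) (n 0 z (n 0 z (n 0 z (n 0 (n 8853067 z (n 8853067 z z)) z)))))) z)))))) (n 0 z (n 0 z
 (n 0 z (n 0 z (n 0 z (n 0 z (n 0 z (n 0 z (n 0 z (n 0 z z))))))))))))))) (n 165 (n 0 z (n 2 (n
 2 (n 0 z (n 0 z (n 0 z (n 0 z (n 0 z (n 0 (n 8803347 z z) z)))))) (n 2 (n 0 z (n 0 z (n 0 z (n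
 0 z (n 0 z (n 0 z z)))))) (n 2 (n 0 z (n 0 z (n 0 z (n 0 z (n 0 z (n 0 z z)))))) (n 1 z (n 2 (n
 0 z (n 0 z (n 0 (n 1204 z z) (n 0 z (n 0 (n 1204 z z) (n 0 (n 8521499 z (n 8853067 z z))
 z)))))) z))))) (n 0 z (n 0 z (n 0 z (n 0 z (n 0 z (n 0 z (n 0 z (n 0 z (n 0 z (n 0 z (n 0 z (n
 0 z (n 0 z z))))))))))))))) (n 303 (n 0 z (n 0 z (n 0 z (n 0 z (n 0 z (n 0 z (n 0 z (n 0 z
 z)))))))) (n 303 (n 0 z (n 0 z (n 0 z (n 2 (n 1 z (n 1 z (n 1 z z))) (n 0 z (n 0 z (n 0 z (n 0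
 z z)))))))) (n 301 (n 2 (n 0 z (n 0 z z)) (n 0 z (n 0 z (n 0 z (n 0 z (n 0 z (n 0 z (n 0 z (n 0
 z (n 0 z (n 0 z (n 0 z (n 0 z (n 0 z (n 0 z (n 0 z (n 0 z (n 0 z (n 0 z (n 0 z (n 0 z (n 0 z
 z)))))))))))))))))))))) (n 301 (n 0 z (n 0 z (n 0 z (n 0 z (n 0 z (n 0 z (n 0 z (n 0 z (n
 7754771 z (n 0 z (n 0 z (n 0 z (n 0 z (n 0 z (n 0 z (n 0 z (n 0 z (n 0 z (n 0 z (n 0 z (n 0 z
 (n 0 z z)))))))))))))))))))))) (n 301 (n 0 z (n 0 z (n 0 z (n 0 z (n 0 z (n 0 z (n 0 z (n 0 z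
 (n 0 z (n 0 z (n 0 z (n 0 z (n 0 z (n 0 z (n 0 z (n 0 z (n 0 z (n 0 z (n 0 z (n 0 z (n 0 z (n 0
 z z)))))))))))))))))))))) z))))))))))))) (n 0 (n 163 (n 0 z (n 0 z (n 0 z (n 0 z (n 0 z (n 0 z
 z)))))) (n 171 (n 0 z (n 0 z (n 0 z (n 0 z (n 0 z (n 0 z (n 0 z (n 0 z (n 0 z (n 0 z (n 0 z (n
 0 z (n 0 z (n 0 z (n 0 z z))))))))))))))) (n 539 (n 0 z (n 0 z (n 0 z (n 0 z (n 0 z (n 0 z (n 0
 z (n 0 z (n 2 (n 0 z (n 0 z (n 0 z (n 0 z (n 1 z (n 1 z (n 1 z (n 1 z (n 1 z z))))))))) (n 0 z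
 (n 0 z (n 0 z (n 0 z (n 0 z (n 0 z (n 0 z (n 0 z (n 0 z (n 0 z (n 0 z (n 0 z (n 0 z (n 0 z
 z))))))))))))))))))))))) (n 539 (n 0 z (n 0 z (n 0 z (n 0 z (n 0 z (n 0 z (n 0 z (n 0 z (n 0 z
 (n 0 z (n 0 z (n 0 z (n 0 z (n 0 z (n 0 z (n 2 (n 0 z (n 0 z (n 0 z (n 1 z (n 1 z (n 1 z (n 1 z
 (n 1 z z)))))))) (n 0 z (n 0 z (n 0 z (n 0 z (n 0 z (n 0 z (n 0 z z))))))))))))))))))))))) (n
 539 (n 0 z (n 0 z (n 0 z (n 0 z (n 0 z (n 0 z (n 0 z (n 0 z (n 0 z (n 0 z (n 0 z (n 0 z (n 0 z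
 (n 0 z (n 0 z (n 0 z (n 0 z (n 0 z (n 0 z (n 0 z (n 0 z (n 0 z (n 0 z z)))))))))))))))))))))))
 (n 539 (n 0 z (n 0 z (n 0 z (n 0 z (n 0 z (n 0 z (n 0 z (n 0 z (n 0 z (n 0 z (n 0 z (n 0 z (n 0
 z (n 0 z (n 0 z (n 0 z (n 0 z (n 0 z (n 0 z (n 0 z (n 0 z (n 0 z (n 0 z
 z))))))))))))))))))))))) (n 539 (n 0 z (n 0 z (n 0 z (n 0 z (n 0 z (n 0 z (n 0 z (n 0 z (n 0 z
 (n 0 z (n 0 z (n 0 z (n 0 z (n 0 z (n 0 z (n 0 z (n 0 z (n 0 z (n 0 z (n 0 z (n 0 z (n 0 z (n 0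
 z z))))))))))))))))))))))) (n 537 (n 0 z (n 0 z (n 0 z (n 2 (n 0 z (n 1 z (n 1 z (n 1 z z))))
 (n 0 z z))))) (n 537 (n 0 z (n 0 z (n 0 z (n 0 z (n 0 z z))))) (n 529 (n 0 z (n 0 z (n 0 z (n 0
 z (n 0 z (n 0 z (n 0 z (n 0 z (n 0 z (n 0 z (n 0 z (n 0 z (n 0 z (n 0 z (n 0 z (n 0 z (n 0 z (n
 0 z (n 0 z (n 0 z (n 0 z (n 0 z (n 0 z (n 0 z (n 0 z (n 0 z (n 0 z (n 0 z (n 0 z
 z))))))))))))))))))))))))))))) (n 529 (n 0 z (n 0 z (n 0 z (n 0 z (n 0 z (n 0 z (n 0 z (n 0 z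
 (n 0 z (n 0 z (n 0 z (n 0 z (n 0 z (n 0 z (n 0 z (n 0 z (n 0 z (n 0 z (n 0 z (n 0 z (n 0 z (n 0
 z (n 0 z (n 0 z (n 0 z (n 0 z (n 0 z (n 0 z (n 0 z z))))))))))))))))))))))))))))) (n 529 (n 0 z
 (n 0 z (n 0 z (n 0 z (n 0 z (n 0 z (n 0 z (n 0 z (n 0 z (n 0 z (n 0 z (n 0 z (n 0 z (n 0 z (n 0
 z (n 0 z (n 0 z (n 0 z (n 0 z (n 0 z (n 0 z (n 0 z (n 0 z (n 0 z (n 0 z (n 0 z (n 0 z (n 0 z (n
 0 z z))))))))))))))))))))))))))))) z)))))))))))) (n 0 (n 391 (n 0 z (n 0 z (n 0 z z))) (n 55 (n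
 2 (n 0 z (n 0 z (n 0 z (n 0 z (n 2 (n 0 z (n 0 z (n 0 z (n 0 z (n 0 z (n 0 z z)))))) (n 2 (n 0
 z (n 0 z (n 0 z (n 0 z (n 0 z (n 0 (n 8786443 z z) z)))))) (n 2 (n 0 z (n 0 z (n 0 z (n 0 z (n
 0 z (n 0 (n 8786443 z z) z)))))) (n 2 (n 0 z (n 0 z (n 0 z (n 0 z (n 0 z (n 0 z z)))))) (n 2 (n
 0 z (n 0 z (n 0 z (n 0 z (n 0 z (n 0 z z)))))) z))))))))) (n 0 z (n 0 z (n 0 z (n 0 z (n 0 z (n
 0 z (n 0 z (n 0 z z))))))))) (n 55 (n 0 z (n 2 (n 0 z (n 0 z (n 0 z (n 2 (n 0 z (n 0 z (n 0 z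
 (n 0 z (n 0 z (n 0 (n 204 z z) z)))))) (n 2 (n 0 z (n 0 z (n 0 z (n 0 z (n 0 z (n 0 z z))))))
 (n 2 (n 0 z (n 0 z (n 0 z (n 0 z (n 0 z (n 0 z z)))))) (n 2 (n 0 z (n 0 z (n 0 z (n 0 z (n 0 z
 (n 0 (n 196 z z) z)))))) (n 2 (n 0 z (n 0 z (n 0 z (n 0 (n 196 z z) (n 0 (n 196 z z) (n 0 (n
 196 z (n 196 z z)) z)))))) z)))))))) (n 0 z (n 0 z (n 0 z (n 0 z (n 0 z (n 0 z (n 0 z
 z))))))))) (n 55 (n 0 z (n 0 z (n 0 z (n 0 z (n 0 z (n 0 z (n 0 z (n 0 z (n 0 z z))))))))) (n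
 55 (n 0 z (n 0 z (n 0 z (n 0 z (n 0 z (n 0 z (n 0 z (n 0 z (n 0 z z))))))))) (n 55 (n 0 z (n 0
 z (n 0 z (n 0 z (n 0 z (n 0 z (n 0 z (n 0 z (n 0 z z))))))))) (n 51 (n 0 z (n 2 (n 0 z (n 2 (n
 0 z (n 0 z (n 0 z (n 0 z (n 0 z (n 0 z z)))))) (n 1 z (n 2 (n 0 z (n 0 (n 8787787 z z) (n 0 z
 (n 0 z (n 0 z (n 0 (n 196 z (n 8787787 z z)) z)))))) z)))) (n 0 z (n 0 z (n 0 z (n 0 z z))))))
 (n 51 (n 0 z (n 0 z (n 0 z (n 0 z (n 0 z (n 0 z z)))))) (n 49 (n 0 z (n 0 z (n 0 z (n 0 z (n 0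
 z (n 0 z (n 0 z (n 0 z (n 0 z (n 0 z (n 0 z (n 0 z (n 0 z (n 0 z (n 0 z (n 0 z (n 0 z (n 0 z (n
 0 z (n 0 z (n 0 z (n 0 z (n 0 z (n 0 z (n 0 z (n 0 z (n 0 z (n 0 z (n 0 z (n 0 z (n 0 z (n 0 z
 (n 0 z (n 0 z (n 0 z (n 0 z (n 0 z (n 0 z (n 0 z (n 0 z (n 0 z
 z))))))))))))))))))))))))))))))))))))))))) (n 49 (n 0 z (n 0 z (n 0 z (n 0 z (n 0 z (n 0 z (n 0
 z (n 0 z (n 0 z (n 0 z (n 0 z (n 0 z (n 0 z (n 0 z (n 0 z (n 0 z (n 0 z (n 0 z (n 0 z (n 0 z (n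
 0 z (n 0 z (n 0 z (n 0 z (n 0 z (n 0 z (n 0 z (n 0 z (n 0 z (n 0 z (n 0 z (n 0 z (n 0 z (n 0 z
 (n 0 z (n 0 z (n 0 z (n 0 z (n 0 z (n 0 z (n 0 z z))))))))))))))))))))))))))))))))))))))))) (n
 49 (n 0 z (n 0 z (n 0 z (n 0 z (n 0 z (n 0 z (n 0 z (n 0 z (n 0 z (n 0 z (n 0 z (n 0 z (n 0 z
 (n 0 z (n 0 z (n 0 z (n 0 z (n 0 z (n 0 z (n 0 z (n 0 z (n 0 z (n 0 z (n 0 z (n 0 z (n 0 z (n 0
 z (n 0 z (n 0 z (n 0 z (n 0 z (n 0 z (n 0 z (n 0 z (n 0 z (n 0 z (n 0 z (n 0 z (n 0 z (n 0 z (n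
 0 z z))))))))))))))))))))))))))))))))))))))))) z))))))))))) (n 0 (n 627 (n 0 z (n 2 (n 0 z (n 0
 z (n 0 z (n 0 z (n 1 z (n 1 z (n 1 z (n 1 z (n 1 z z))))))))) (n 0 z (n 0 z (n 0 z (n 0 z (n 0
 z (n 0 z (n 0 z (n 0 z (n 0 z z))))))))))) (n 627 (n 2 (n 0 z (n 0 z (n 0 z (n 1 z (n 1 z (n 1
 z (n 1 z (n 1 z z)))))))) (n 0 z (n 0 z (n 0 z (n 0 z (n 0 z (n 0 z (n 0 z (n 0 z (n 0 z (n 0 z
 z))))))))))) (n 627 (n 0 z (n 0 z (n 0 z (n 0 z (n 0 z (n 0 z (n 0 z (n 0 z (n 0 z (n 0 z (n 0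
 z z))))))))))) (n 627 (n 0 z (n 0 z (n 0 z (n 0 z (n 0 z (n 0 z (n 0 z (n 0 z (n 0 z (n 0 z (n
 0 z z))))))))))) (n 627 (n 0 z (n 0 z (n 0 z (n 0 z (n 0 z (n 0 z (n 0 z (n 0 z (n 0 z (n 0 z
 (n 0 z z))))))))))) (n 3 (n 0 z (n 0 z (n 2 (n 0 z (n 1 z (n 1 z (n 1 z z)))) (n 0 z (n 0 z (n
 0 z (n 0 z (n 0 z z)))))))) (n 3 (n 0 z (n 0 z (n 0 z (n 0 z (n 0 z (n 0 z (n 0 z (n 0 z
 z)))))))) (n 1 (n 0 z (n 0 z (n 0 z (n 0 z (n 0 z (n 0 z (n 0 z (n 0 z (n 0 z (n 0 z (n 0 z (n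
 0 z (n 0 z z))))))))))))) (n 1 (n 0 z (n 0 z (n 0 z (n 0 z (n 0 z (n 0 z (n 0 z (n 0 z (n 0 z
 (n 0 z (n 0 z (n 0 z (n 0 z z))))))))))))) (n 1 (n 0 z (n 0 z (n 0 z (n 0 z (n 0 z (n 0 z (n 0
 z (n 0 z (n 0 z (n 0 z (n 0 z (n 0 z (n 0 z z))))))))))))) z)))))))))) (n 0 (n 0 z (n 0 z (n 0
 z (n 0 z (n 483 (n 0 z (n 0 z (n 2 (n 0 z (n 1 z (n 1 z (n 1 z z)))) (n 0 z (n 0 z (n 0 z (n 0
 z (n 0 z (n 0 z (n 0 z z)))))))))) (n 483 (n 0 z (n 0 z (n 0 z (n 0 z (n 0 z (n 2 (n 1 z (n 1 z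
 (n 1 z z))) (n 0 z (n 0 z (n 0 z (n 0 z z)))))))))) (n 481 (n 0 z (n 2 (n 0 z (n 0 z z)) (n 0 z
 (n 0 z (n 0 z (n 0 z (n 0 z (n 0 z (n 0 z (n 0 z (n 0 z (n 0 z (n 0 z (n 0 z (n 0 z (n 0 z (n 0
 z (n 0 z (n 0 z (n 0 z (n 0 z (n 0 z (n 0 z (n 0 z (n 0 z (n 0 z (n 0 z (n 0 z (n 0 z (n 0 z (n
 0 z (n 0 z (n 0 z (n 0 z (n 0 z z))))))))))))))))))))))))))))))))))) (n 481 (n 0 z (n 0 z (n 0
 z (n 0 z (n 0 z (n 0 z (n 0 z (n 0 z (n 0 z (n 0 z (n 7754763 z (n 0 z (n 0 z (n 0 z (n 0 z (n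
 0 z (n 0 z (n 0 z (n 0 z (n 0 z (n 0 z (n 0 z (n 0 z (n 0 z (n 0 z (n 0 z (n 0 z (n 0 z (n 0 z
 (n 0 z (n 0 z (n 0 z (n 0 z (n 0 z (n 0 z z))))))))))))))))))))))))))))))))))) (n 481 (n 0 z (n
 0 z (n 0 z (n 0 z (n 0 z (n 0 z (n 0 z (n 0 z (n 0 z (n 0 z (n 0 z (n 0 z (n 0 z (n 0 z (n 0 z
 (n 0 z (n 0 z (n 0 z (n 0 z (n 0 z (n 0 z (n 0 z (n 0 z (n 0 z (n 0 z (n 0 z (n 0 z (n 0 z (n 0
 z (n 0 z (n 0 z (n 0 z (n 0 z (n 0 z (n 0 z z))))))))))))))))))))))))))))))))))) z))))))))) (n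
 0 (n 0 z (n 0 z (n 0 z (n 531 (n 0 z (n 0 z (n 0 z (n 2 (n 0 z (n 2 (n 0 z (n 0 z (n 0 z (n 0 z
 (n 0 z (n 0 (n 2116 z z) z)))))) (n 1 z (n 1 z z)))) (n 0 z (n 0 z (n 0 z (n 0 z (n 0 z (n 0 z
 z)))))))))) (n 531 (n 0 z (n 0 z (n 0 z (n 0 z (n 0 z (n 0 z (n 2 (n 1 z (n 1 z (n 1 z z))) (n
 0 z (n 0 z (n 0 z z)))))))))) (n 529 (n 2 (n 0 z (n 0 z z)) (n 0 z (n 0 z (n 0 z (n 0 z (n 0 z
 (n 0 z (n 0 z (n 0 z z))))))))) (n 529 (n 0 z (n 0 z (n 2 (n 0 z z) (n 0 z (n 0 z (n 0 z (n 0 z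
 (n 0 z (n 0 z z))))))))) (n 529 (n 0 z (n 0 z (n 0 z (n 0 z (n 0 z (n 0 z (n 0 z (n 0 z (n 0 z
 z))))))))) z)))))))) (n 0 (n 0 z (n 0 z (n 531 (n 0 z (n 0 z (n 0 z (n 0 z (n 0 z (n 0 z (n 0 z
 (n 0 z (n 0 z (n 0 z (n 0 z (n 0 z (n 0 z (n 0 z (n 0 z (n 0 z (n 0 z z))))))))))))))))) (n 531
 (n 0 z (n 0 z (n 0 z (n 0 z (n 0 z (n 0 z (n
 0xecaeca20785e8618207a07e07e08618218207e08208a08608208208208208208208208208608208208200801 z (n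
 0 z (n 0 z (n 0 z (n 0 z (n 0 z (n 0 z (n 0 z (n 0 z (n 0 z (n 0 z z))))))))))))))))) (n 529 (n
 0 z (n 0 z (n 0 z (n 0 z (n 0 z (n 0 z (n 0 z (n 0 z (n 0 z (n 0 z (n 0 z (n 0 z (n 0 z (n 0 z
 (n 0 z (n 0 z (n 0 z (n 0 z (n 0 z (n 0 z (n 0 z (n 0 z (n 0 z (n 0 z (n 0 z (n 0 z (n 0 z (n 0
 z z)))))))))))))))))))))))))))) (n 529 (n 0 z (n 0 z (n 0 z (n 0 z (n 0 z (n 0 z (n 0 z (n 0 z
 (n 0 z (n 0 z (n 0 z (n 0 z (n 0 z (n 0 z (n 0 z (n 0 z (n 0 z (n 0 z (n 0 z (n 0 z (n 0 z (n 0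
 z (n 0 z (n 0 z (n 0 z (n 0 z (n 0 z (n 0 z z)))))))))))))))))))))))))))) (n 529 (n 0 z (n 0 z
 (n 0 z (n 0 z (n 0 z (n 0 z (n 0 z (n 0 z (n 0 z (n 0 z (n 0 z (n 0 z (n 0 z (n 0 z (n 0 z (n 0
 z (n 0 z (n 0 z (n 0 z (n 0 z (n 0 z (n 0 z (n 0 z (n 0 z (n 0 z (n 0 z (n 0 z (n 2 z
 z)))))))))))))))))))))))))))) z))))))) (n 0 (n 0 z (n 483 (n 0 z (n 0 z (n 0 z (n 2 (n 0 z (n 2
 (n 0 z (n 0 z (n 0 z (n 0 z (n 0 z (n 0 z z)))))) (n 1 z (n 2 (n 0 z (n 0 (n 8787787 z z) (n 0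
 z (n 0 z (n 0 z (n 0 (n 196 z (n 8787787 z z)) z)))))) z)))) (n 0 z (n 0 z (n 0 z (n 0 z (n 0 z
 (n 0 z (n 0 z (n 0 z (n 0 z z))))))))))))) (n 483 (n 0 z (n 0 z (n 0 z (n 0 z (n 0 z (n 0 z (n
 0 z (n 0 z (n 0 z (n 0 z (n 0 z (n 0 z (n 0 z z))))))))))))) (n 49 (n 0 z (n 0 z (n 0 z (n 0 z
 (n 0 z (n 0 z (n 0 z (n 0 z (n 0 z (n 0 z z)))))))))) (n 49 (n 0 z (n 0 z (n 2 (n 0 z z) (n 0 z
 (n 0 z (n 0 z (n 0 z (n 0 z (n 0 z (n 0 z z)))))))))) (n 49 (n 0 z (n 0 z (n 0 z (n 0 z (n 0 z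
 (n 0 z (n 0 z (n 0 z (n 0 z (n 0 z z)))))))))) z)))))) (n 0 (n 495 (n 0 z (n 2 (n 0 z (n 2 (n 0
 z (n 0 z (n 0 z (n 0 z (n 0 z (n 0 z z)))))) (n 2 (n 0 z (n 0 z (n 0 z (n 0 z (n 0 z (n 0 (n
 8868883 z z) z)))))) (n 2 (n 0 z (n 0 z (n 0 (n 8521243 z z) (n 0 z (n 0 (n 8787787 z z) (n 0
 (n 244 z (n 244 z z)) z)))))) z)))) (n 0 z (n 0 z (n 0 z (n 0 z (n 0 z (n 0 z z)))))))) (n 495
 (n 0 z (n 0 z (n 0 z (n 0 z (n 0 z (n 0 z (n 0 z (n 0 z z)))))))) (n 61 (n 0 z (n 0 z (n 0 z (n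
 0 z (n 0 z (n 0 z (n 0 z (n 0 z (n 0 z (n 0 z z)))))))))) (n 61 (n 0 z (n 0 z (n 0 z (n 2 (n 0
 z z) (n 0 z (n 0 z (n 0 z (n 0 z (n 0 z (n 0 z z)))))))))) (n 61 (n 0 z (n 0 z (n 0 z (n 0 z (n
 0 z (n 0 z (n 0 z (n 0 z (n 0 z (n 0 z z)))))))))) z))))) (n 0 (n 0 z (n 1 (n 2 (n 0 z (n 0 z
 z)) (n 0 z (n 0 z (n 0 z (n 0 z (n 0 z (n 0 z (n 0 z (n 0 z z))))))))) (n 1 (n 0 z (n 0 z (n 0
 z (n 7754771 z (n 0 z (n 0 z (n 0 z (n 0 z (n 0 z z))))))))) (n 1 (n 0 z (n 0 z (n 0 z (n 0 z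
 (n 0 z (n 0 z (n 0 z (n 0 z (n 0 z z))))))))) z)))) (n 0 (n 53 (n 0 z (n 0 z (n 0 z (n 0 z (n 0
 z (n 0 z (n 0 z (n 0 z (n 0 z (n 0 z (n 0 z (n 0 z (n 0 z (n 0 z (n 0 z (n 0 z (n 0 z (n 0 z (n
 0 z (n 0 z (n 0 z (n 0 z (n 0 z (n 0 z (n 0 z (n 0 z (n 0 z (n 0 z
 z)))))))))))))))))))))))))))) (n 53 (n 2 (n 0 z z) (n 0 z (n 0 z (n 0 z (n 0 z (n 0 z (n 0 z (n
 0 z (n 0 z (n 0 z (n 0 z (n 0 z (n 0 z (n 0 z (n 0 z (n 0 z (n 0 z (n 0 z (n 0 z (n 0 z (n 0 z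
 (n 0 z (n 0 z (n 0 z (n 0 z (n 0 z (n 0 z (n 0 z z)))))))))))))))))))))))))))) (n 53 (n 0 z (n
 0 z (n 0 z (n 0 z (n 0 z (n 0 z (n 0 z (n 0 z (n 0 z (n 0 z (n 0 z (n
 0xec6ec620785e8208607e086082082086086082082082081f8208208208208208208208208208208208200801 z (n
 0 z (n 0 z (n 0 z (n 0 z (n 0 z (n 0 z (n 0 z (n 0 z (n 0 z (n 0 z (n 0 z (n 0 z (n 0 z (n 0 z
 (n 0 z (n 0 z z)))))))))))))))))))))))))))) z))) (n 0 (n 0 z (n 0 z z)) (n 0 (n 0 z z) (n 0 z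
 z)))))))))))))) (n 0 (n 1 (n 1244 z (n 6627595 z (n 2 z (n 1244 z (n 1244 z (n 1244 z z))))))
 (n 1 (n 6557779 z (n 6557779 z (n 6557779 z (n 6557779 z (n 6557779 z (n 6557779 z z)))))) (n 0
 z z))) (n 0 (n 0x2c57646684e345851b2cd740 (n 0 (n 0 (n 7737867 z (n 7737867 z (n 7737867 z (n
 7737867 z (n 7737867 z (n 7737867 z z)))))) z) (n 0 (n 268 (n 1 (n 7606355 z (n 7606355 z (n
 7606355 z (n 7606355 z (n 7606355 z (n 7606355 z z)))))) (n 1 (n 7606355 z (n 7606355 z (n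
 7606355 z (n 7606355 z (n 7606355 z (n 7606355 z z)))))) (n 1 (n 1244 z (n 1244 z (n 1244 z (n
 1244 z (n 1244 z (n 1244 z z)))))) (n 1 (n 2 z (n 1244 z (n 1244 z (n 1244 z (n 4331355 z (n
 1244 z z)))))) (n 1 (n 1244 z (n 1244 z (n 4331275 z (n 1244 z (n 1244 z (n 1244 z z))))))
 z))))) (n 33 (n 1 (n 7737867 z (n 7737867 z (n 7737867 z (n 7737867 z (n 7737867 z (n 7737867 z
 z)))))) (n 1 (n 7606355 z (n 7606355 z (n 7606355 z (n 7606355 z (n 7606355 z (n 7606355 z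
 z)))))) (n 0 z z))) (n 315 (n 1 (n 7676171 z (n 4392747 z (n 4392747 z (n 4392747 z (n 4392747
 z (n 4392747 z z)))))) (n 1 (n 2620 z (n 2620 z (n 2620 z (n 7676171 z (n 76 z (n 2620 z
 z)))))) (n 1 (n 7606355 z (n 7606355 z (n 7606355 z (n 7606355 z (n 7606355 z (n 7606355 z
 z)))))) z))) (n 33 (n 1 (n 6559499 z (n 2204 z (n 7676171 z (n 10 z (n 2204 z (n 2204 z z))))))
 (n 1 (n 2204 z (n 2204 z (n 18 z (n 7676171 z (n 2204 z (n 2204 z z)))))) (n 0 z (n 0 z (n 0 z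
 (n 1 (n 7606355 z (n 7606355 z (n 7606355 z (n 7606355 z (n 7606355 z (n 7606355 z z)))))) (n 1
 (n 7606355 z (n 7606355 z (n 7606355 z (n 7606355 z (n 7606355 z (n 7606355 z z)))))) (n 1 (n
 2204 z (n 6557811 z (n 5310267 z (n
 0xea8ea820785f8208207e082082082282086182082082081f8207e08208208208208208208208208208210801 z (n
 2204 z (n 2204 z z)))))) (n 1 (n 4327227 z (n 7676171 z (n 2164539 z (n 4327227 z (n 4327227 z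
 (n 4327227 z z)))))) z))))))))) (n 281 (n 1 (n 7606355 z (n 7606355 z (n 7606355 z (n 7606355 z
 (n 7606355 z (n 7606355 z z)))))) (n 1 (n 7606355 z (n 7606355 z (n 7606355 z (n 7606355 z (n
 7606355 z (n 7606355 z z)))))) (n 1 (n 316 z (n 7737867 z (n 316 z (n 7676171 z (n 316 z (n 316
 z z)))))) (n 1 (n 316 z (n 316 z (n 7737867 z (n 26 z (n 7676171 z (n 316 z z)))))) (n 1 (n
 7676171 z (n 316 z (n 316 z (n 316 z (n 316 z (n 316 z z)))))) z))))) (n 29 (n 1 (n 2284 z (n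
 6566003 z (n 2284 z (n 2284 z (n 2284 z (n 2284 z z)))))) (n 1 (n 2284 z (n 6567691 z (n 2284 z
 (n 2284 z (n 2284 z (n
 0xe86e8620785e8618207a07e07e08618218207e08208a08608208208208208208208208208608208208200801 z
 z)))))) (n 1 (n 2284 z (n 2284 z (n 2284 z (n 7407163 z (n 2284 z (n 6494043 z z)))))) (n 1 (n
 7676171 z (n 6492275 z (n 7676171 z (n 7676171 z (n 7676171 z (n 7676171 z z)))))) (n 1 (n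
 2164539 z (n 2164539 z (n 7407163 z (n 2164539 z (n 2164539 z (n 2164539 z z)))))) (n 1 (n 2284
 z (n 2284 z (n 6567707 z (n 2284 z (n 2284 z (n 364 z z)))))) (n 1 (n 7676171 z (n 7676171 z (n
 7676171 z (n 7676171 z (n 7676171 z (n 7676171 z z)))))) (n 1 (n 7676171 z (n 7676171 z (n
 7676171 z (n 7676171 z (n 4395123 z (n 7676171 z z)))))) (n 1 (n
 0x147208217dd82086185f7df8637df8607dd81f86189e8217a081f8208207df86089f81f8207e18200041 z (n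
 2284 z (n 2284 z (n 2284 z (n 6566259 z (n 4396891 z z)))))) (n 1 (n 2284 z (n 3282699 z (n
 2284 z (n 7407163 z (n 364 z (n 2284 z z)))))) z)))))))))) (n 33 (n 1 (n 7737867 z (n 7676171 z
 (n 7737867 z (n 7737867 z (n 7737867 z (n 7737867 z z)))))) (n 1 (n 7606355 z (n 7606355 z (n
 7606355 z (n 7606355 z (n 7606355 z (n 7606355 z z)))))) (n 0 z z))) z))))))) (n 0 (n 0 (n 0 z
 (n 0 z (n 0 z (n 0 z z)))) (n 0 (n 0 z (n 0 z (n 0 z z))) (n 0 (n 0 z (n 0 z z)) (n 0 (n 0 z z)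
 z)))) (n 0 (n 201 (n 0 (n 0 z (n 0 z (n 0 z (n 0 z z)))) (n 0 (n 0 z (n 0 z (n 0 z (n 0 z z))))
 (n 0 (n 0 z (n 0 z (n 0 z (n 0 z z)))) (n 0 (n 0 z (n 0 z (n 0 z (n 0 z z)))) (n 0 (n 0 z (n 0
 z (n 0 z (n 0 z z)))) (n 0 (n 0 z (n 0 z (n 0 z (n 0 (n 8525659 z z) z)))) z)))))) (n 327 (n 0
 (n 0 z (n 0 z (n 0 z (n 0 z z)))) (n 0 (n 0 z (n 0 z (n 0 z (n 0 z z)))) (n 0 (n 0 z (n 0 z (n
 0 z (n 0 z z)))) (n 0 (n 0 z (n 0 z (n 0 z (n 0 z z)))) (n 0 (n 0 z (n 0 z (n 0 z (n 0 z z))))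
 (n 0 (n 0 z (n 0 z (n 0 z (n 0 z z)))) (n 0 (n 0 z (n 0 z (n 0 z (n 0 z z)))) (n 0 (n 0 z (n 0
 z (n 0 z (n 0 z z)))) (n 0 (n 0 z (n 0 z (n 0 z (n 0 z z)))) (n 0 (n 0 z (n 0 z (n 0 z (n 0 z
 z)))) (n 0 (n 0 z (n 0 (n 7747675 z (n
 0x30e90e820789f8208208208208208208208608208208208607e08208208208208208208208218208208200801 z
 z)) (n 0 (n 7747675 z (n
 0xc2a42a180c1854841303810a70a620786182095d91d8db86675e8647a08229676a26237de8228de9627e186989875f8a275f7e08641801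
 z z)) (n 0 (n 8872731 z (n 8872731 z z)) z)))) (n 0 (n 0 z (n 0 z (n 0 z (n 0 z z)))) (n 0 (n 0
 z (n 0 z (n 0 z (n 0 z z)))) (n 0 (n 0 z (n 0 z (n 0 z (n 0 z z)))) (n 0 (n 0 (n 8868883 z z)
 (n 0 z (n 0 z (n 0 z z)))) z))))))))))))))) (n 315 (n 0 (n 0 z (n 0 z (n 0 z (n 0 z z)))) (n 0
 (n 0 z (n 0 z (n 0 z (n 0 z z)))) (n 0 (n 0 z (n 0 z (n 0 z (n 0 z z)))) z))) (n 275 (n 0 (n 0
 z (n 0 z (n 0 z (n 0 z z)))) (n 0 (n 0 z (n 0 z (n 0 z (n 0 z z)))) (n 0 (n 0 z (n 0 z (n 0 z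
 (n 0 z z)))) (n 0 (n 0 z (n 0 z (n 0 z (n 0 z z)))) (n 0 (n 0 z (n 0 z (n 0 z (n 0 z z)))) (n 0
 (n 0 z (n 0 z (n 0 z (n 0 z z)))) (n 0 (n 0 z (n 0 (n
 0x587681f8208607e086082082282082082082086086082082081f82082082082082082086081f8200041 z z) (n 0
 z (n 0 z z)))) (n 0 (n 0 z (n 0 (n 8855651 z z) (n 0 z (n 0 z z)))) (n 0 (n 0 z (n 0 z (n 0 z
 (n 0 z z)))) (n 0 (n 0 z (n 0 z (n 0 z (n 0 z z)))) (n 0 (n 0 z (n 0 z (n 0 (n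
 0x10a90a82037e07e086082082089e81e81f89f89e7e08218607e07df81f8208217df8207e08208208218200801 z
 z) (n 0 z z)))) (n 0 (n 0 (n
 0xd87281f8207e17a18607a086482085f7e28208a08a07df7e081f7e07e18608608a085f89f8208200041 z (n
 0x10eb0a82077e082086085f82085f85e81f85f85f8208618208208208208208208208208208208218208200801 z
 z)) (n 0 z (n 0 z (n 0 (n
 0x10a90a82037e07e086085f82089f81e81f89f89e8208218207e07df81f8208208208207e08208208208200801 z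
 (n 0x10eb0ea2037e082086085f82085f81e81f89f85f8208218208208208208208208208207e082082082081f0801
 z z)) z)))) (n 0 (n 0 z (n 0 (n
 0xd8758608218607e086082082285f81f82086086181f8207e085f82082082086086086086081f8200041 z z) (n 0
 (n 8800027 z z) (n 0 z z)))) (n 0 (n 0 z (n 0 z (n 0 z (n 0 z z)))) (n 0 (n 0 z (n 0 z (n 0 z
 (n 0 z z)))) (n 0 (n 0 z (n 0 z (n 0 z (n 0 z z)))) (n 0 (n 0 z (n 0 z (n 0 z (n 0 z z)))) (n 0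
 (n 0 z (n 0 z (n 0 z (n 0 z z)))) (n 0 (n 0 z (n 0 z (n 0 z (n 0 z z)))) (n 0 (n 0 z (n 0 (n
 0x587581f8208607e086082082282082082082086086082082081f82082082082082082086081f8200041 z z) (n 0
 z (n 0 z z)))) (n 0 (n 0 (n 8787787 z z) (n 0 z (n 0 z (n 0 z z)))) (n 0 (n 0 z (n 0 z (n 0 z
 (n 0 z z)))) (n 0 (n 0 z (n 0 z (n 0 z (n 0 z z)))) z))))))))))))))))))))))) (n 33 (n 0 (n 0 z
 (n 0 z (n 0 z (n 0 z z)))) (n 0 (n 0 z (n 0 z (n 0 z (n 0 z z)))) (n 0 (n 0 (n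
 0xd87681f8207e17a18607a086482085f7e28208a08a07df7e081f7e07e18608608a085f89f8208200041 z z) (n 0
 z (n 0 z (n 0 (n
 0xd87681f8207e17a18607a086482085f7e28208a08a07df7e081f7e07e18608608a085f89f8208200041 z z)
 z)))) (n 0 (n 0 z (n 0 z (n 0 z (n 0 z z)))) (n 0 (n 0 z (n 0 z (n 0 z (n 0 z z)))) (n 0 (n 0 z
 (n 0 z (n 0 z (n 0 z z)))) (n 0 (n 0 z (n 0 z (n 0 z (n 0 z z)))) (n 0 (n 0 z (n 0 z (n 0 z (n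
 0 z z)))) (n 0 (n 0 z (n 0 (n 4327483 z z) (n 0 z (n 0 (n 4327483 z z) z)))) z))))))))) (n 433
 (n 0 (n 0 z (n 0 z (n 0 z (n 0 z z)))) (n 0 (n 0 z (n 0 z (n 0 z (n 0 z z)))) (n 0 (n 0 z (n 0
 z (n 0 z (n 0 z z)))) (n 0 (n 0 z (n 0 z (n 0 z (n 0 z z)))) (n 0 (n 0 z (n 0 z (n 0 z (n 0 z
 z)))) (n 0 (n 0 z (n 0 z (n 0 z (n 0 z z)))) (n 0 (n 0 z (n 0 z (n 0 z (n 0 z z)))) (n 0 (n 0
 (n 8525659 z z) (n 0 z (n 0 z (n 0 z z)))) (n 0 (n 0 z (n 0 (n 8855651 z z) (n 0 z (n 0 z z))))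
 (n 0 (n 0 z (n 0 z (n 0 z (n 0 z z)))) (n 0 (n 0 z (n 0 z (n 0 (n 8868163 z z) (n 0 z z))))
 z))))))))))) (n 281 (n 0 (n 0 z (n 0 z (n 0 z (n 0 z z)))) (n 0 (n 0 z (n 0 z (n 0 z (n 0 z
 z)))) (n 0 (n 0 z (n 0 z (n 0 z (n 0 z z)))) (n 0 (n 0 z (n 0 z (n 0 z (n 0 z z)))) (n 0 (n 0 z
 (n 0 z (n 0 z (n 0 z z)))) z))))) (n 39 (n 0 (n 0 z (n 0 z (n 0 z (n 0 z z)))) (n 0 (n 0 z (n 0
 z (n 0 z (n 0 z z)))) (n 0 (n 0 z (n 0 z (n 0 z (n 0 z z)))) (n 0 (n 0 z (n 0 z (n 0 z (n 0 z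
 z)))) (n 0 (n 0 z (n 0 z (n 0 z (n 0 z z)))) (n 0 (n 0 z (n 0 z (n 0 z (n 0 z z)))) z)))))) (n
 15 (n 0 (n 0 z (n 0 z (n 0 z (n 0 z z)))) (n 0 (n 0 z (n 0 z (n 0 z (n 0 z z)))) (n 0 (n 0 z (n
 0 z (n 0 z (n 0 z z)))) (n 0 (n 0 z (n 0 z (n 0 z (n 0 z z)))) (n 0 (n 0 z (n 0 z (n 0 z (n 0 z
 z)))) (n 0 (n 0 z (n 0 z (n 0 z (n 0 z z)))) (n 0 (n 0 z (n 0 z (n 0 z (n 0 z z)))) (n 0 (n 0 z
 (n 0 (n 8724747 z z) (n 0 z (n 0 z z)))) z)))))))) (n 243 (n 0 (n 0 z (n 0 z (n 0 z (n 0 z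
 z)))) (n 0 (n 0 z (n 0 z (n 0 z (n 0 z z)))) (n 0 (n 0 z (n 0 z (n 0 z (n 0 z z)))) (n 0 (n 0 z
 (n 0 z (n 0 z (n 0 z z)))) (n 0 (n 0 z (n 0 z (n 0 z (n 0 z z)))) (n 0 (n 0 z (n 0 z (n 0 z (n
 0 z z)))) (n 0 (n 0 z (n 0 z (n 0 z (n 0 z z)))) (n 0 (n 0 z (n 0 z (n 0 (n 8872723 z z) (n 0 z
 z)))) (n 0 (n 0 z (n 0 (n 8855651 z z) (n 0 z (n 0 z z)))) (n 0 (n 0 z (n 0 (n 8855651 z z) (n
 0 z (n 0 z z)))) (n 0 (n 0 z (n 0 z (n 0 z (n 0 z z)))) (n 0 (n 0 (n 7473227 z (n 7678011 z z))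
 (n 0 (n 0x587581f8208607e086082082282082082082086086082082081f82082082082082082086081f8200041 z
 (n 0x90ea0486082181e7e086081f7e08627e08607df82086085f8207e08208208208208608608208208208200081 z
 z)) (n 0 z (n 0 (n
 0x90ec0486082181e7e086081f7e08627e08607df82086085f8207e08208208208208608608208208208200081 z (n
 7678011 z z)) z)))) (n 0 (n 0 (n
 0xd8768608218607e086082082285f81f82086086181f8207e085f82082082086086086086081f8200041 z (n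
 0x290ec0c8618207db81f81e85f82186582086182085f86085d8207e282081f82082085f8a07e081f8208200081 z
 z)) (n 0 (n
 0x587581f8208607e086082082282082082082086086082082081f82082082082082082086081f8200041 z (n
 8800011 z z)) (n 0 z (n 0 (n
 0x90ec0486182081e82082085f82086281f86081f82082085d8207e18208208208208208607e08207e081f0081 z (n
 0x190ec0c86182081c81f81f85f82186482082182085f85f81e7e082086081f82182086085f82081f7df7df0081 z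
 z)) z)))) z))))))))))))) (n 285 (n 0 (n 0 z (n 0 z (n 0 z (n 0 z z)))) (n 0 (n 0 (n 8787787 z
 (n 7747627 z z)) (n 0 z (n 0 z (n 0 z z)))) (n 0 (n 0 (n
 0x90c40484282181e7e086081f7e08627e08607df82086085f8207e08208208208208608608208208208200081 z (n
 0xd8748a082185f7e086086182281f81f7e086086181f7e08208608208208208608608618208208200041 z z)) (n
 0 (n 0x587281f8208607e086082082282082082082086086082082081f82082082082082082086081f8200041 z (n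
 0x90c40484282081e82082085f81f86281f82081f82086085f8217e08208208208208608607e08208208200081 z
 z)) (n 0 (n 8860003 z (n 8860003 z z)) (n 0 z z)))) (n 0 (n 0 z (n 0 z (n 0 z (n 0 z z)))) (n 0
 (n 0 z (n 0 z (n 0 (n 8800027 z z) (n 0 z z)))) (n 0 (n 0 (n 8872731 z (n 8872731 z z)) (n 0 z
 (n 0 z (n 0 z z)))) (n 0 (n 0 z (n 0 z (n 0 z (n 0 z z)))) (n 0 (n 0 z (n 0 z (n 0 z (n 0 z
 z)))) (n 0 (n 0 z (n 0 (n 8855651 z (n 8855651 z z)) (n 0 z (n 0 z z)))) (n 0 (n 0 (n 8872731 z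
 (n 8872731 z z)) (n 0 z (n 0 z (n 0 (n 8872731 z (n 8872731 z z)) z)))) (n 0 (n 0 z (n 0 z (n 0
 z (n 0 z z)))) (n 0 (n 0 z (n 0 z (n 0 z (n 0 z z)))) (n 0 (n 0 z (n 0 (n 8855651 z z) (n 0 z
 (n 0 z z)))) (n 0 (n 0 z (n 0 z (n 0 (n
 0x2e650a280781f82082082082082086082082082082082082082082082082082082082082082082081f8200801 z
 (n 8787771 z z)) (n 0 z z)))) (n 0 (n 0 z (n 0 z (n 0 z (n 0 z z)))) (n 0 (n 0 z (n 0 z (n 0 (n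
 8868163 z z) (n 0 z z)))) (n 0 (n 0 z (n 0 z (n 0 z (n 0 z z)))) (n 0 (n 0 z (n 0 z (n 0 (n
 8868163 z z) (n 0 z z)))) (n 0 (n 0 z (n 0 z (n 0 z (n 0 z z)))) (n 0 (n 0 z (n 0 z (n 0 z (n 0
 z z)))) (n 0 (n 0 z (n 0 z (n 0 z (n 0 z z)))) (n 0 (n 0 z (n 0 z (n 0 z (n 0 z z)))) (n 0 (n 0
 (n 8787787 z z) (n 0 z (n 0 z (n 0 (n 8787787 z z) z)))) (n 0 (n 0 z (n 0 z (n 0 z (n 0 z z))))
 (n 0 (n 0 z (n 0 z (n 0 z (n 0 z z)))) (n 0 (n 0 z (n 0 z (n 0 z (n 0 (n 8455739 z z) z)))) (n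
 0 (n 0 (n 0x587481f8208607e086082082282082082082086086082082081f82082082082082082086081f8200041
 z (n 0xd86481f8207e17a18607a086482085f7e28208a08a07df7e081f7e07e18608608a085f89f8208200041 z
 z)) (n 0 (n
 0xd86481f8207e17a18607a086482085f7e28208a08a07df7e081f7e07e18608608a085f89f8208200041 z (n
 0xd86481f8207e17a18607a086482085f7e28208a08a07df7e081f7e07e18608608a085f89f8208200041 z z)) (n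
 0 z (n 0 (n
 0xd86481f8207e17a18607a086482085f7e28208a08a07df7e081f7e07e18608608a085f89f8208200041 z (n
 7743515 z z)) z)))) (n 0 (n 0 (n
 0xd87481f8207e17a18607a086482085f7e28208a08a07df7e081f7e07e18608608a085f89f8208200041 z (n
 0x290c80c8318207db81f81e85f82186582086182085f86085d8207e282081f82082085f8a07e081f8208200081 z
 z)) (n 0 z (n 0 z (n 0 z z)))) (n 0 (n 0 (n
 0x587481f8208607e086082082282082082082086086082082081f82082082082082082086081f8200041 z (n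
 0xc87482181e82086085f7df8627df8607de82086085f8207e17df82082082086086081f8207e17e00041 z z)) (n
 0 z (n 0 z (n 0 (n 7477355 z (n
 0x190c80c83282075c79e82281f8278a48a08e28178268de71d65f5e38649a581c8a679b8a18a085f7a48a20081 z
 z)) z)))) z))))))))))))))))))))))))))))) (n 45 (n 0 (n 0 z (n 0 z (n 0 z (n 0 (n
 0x587681f8208607e086082082282082082082086086082082081f82082082082082082086081f8200041 z z)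
 z)))) (n 0 (n 0 z (n 0 z (n 0 z (n 0 z z)))) (n 0 (n 0 z (n 0 z (n 0 z (n 0 z z)))) (n 0 (n 0 z
 (n 0 z (n 0 z (n 0 z z)))) (n 0 (n 0 z (n 0 z (n 0 z (n 0 (n 8786443 z z) z)))) (n 0 (n 0 z (n
 0 z (n 0 z (n 0 (n 7538779 z (n
 0x12188150840984285f81f8207e082085f86181f89f81f7df86185f7e07df82082082081f82082082086086082000c1
 z z)) z)))) (n 0 (n 0 z (n 0 z (n 0 (n 8860003 z (n 8860003 z z)) (n 0 (n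
 0x148428217dd82086185f7df8637df8607dd81f86189e8217a081f8208207df86089f81f8207e18200041 z (n
 0xd87681f8207e17a18607a086482085f7e28208a08a07df7e081f7e07e18608608a085f89f8208200041 z z))
 z)))) (n 0 (n 0 z (n 0 z (n 0 z (n 0 z z)))) (n 0 (n 0 z (n 0 z (n 0 z (n 0 z z)))) (n 0 (n 0
 (n 8786443 z (n 8786443 z z)) (n 0 z (n 0 z (n 0 (n 8786443 z (n 8786443 z z)) z)))) (n 0 (n 0
 z (n 0 z (n 0 z (n 0 z z)))) (n 0 (n 0 z (n 0 z (n 0 z (n 0 z z)))) (n 0 (n 0 z (n 0 z (n 0 z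
 (n 0 z z)))) (n 0 (n 0 (n
 0xd87481f8207e17a18607a086482085f7e28208a08a07df7e081f7e07e18608608a085f89f8208200041 z z) (n 0
 z (n 0 z (n 0 (n
 0x148208217dd82086185f7df8637df8607dd81f86189e8217a081f8208207df86089f81f8207e18200041 z z)
 z)))) (n 0 (n 0 z (n 0 z (n 0 z (n 0 z z)))) (n 0 (n 0 z (n 0 z (n 0 z (n 0 z z)))) (n 0 (n 0 z
 (n 0 z (n 0 z (n 0 z z)))) (n 0 (n 0 (n 8786443 z (n 7544963 z z)) (n 0 z (n 0 z (n 0 (n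
 8786443 z (n 8786443 z z)) z)))) (n 0 (n 0 z (n 0 z (n 0 z (n 0 z z)))) (n 0 (n 0 (n
 0x148748217dd82086185f7df8637df8607dd81f86189e8217a081f8208207df86089f81f8207e18200041 z z) (n
 0 z (n 0 z (n 0 (n
 0x190640c82082075c79e82281f8278a48a08e28178268de71d65f5e38649a581c8a679b8a18a085f7a48a20081 z
 z) z)))) (n 0 (n 0 z (n 0 z (n 0 (n
 0x1732851403810a264080781f7df86181f82081f8228208a085f86082081f7e07e081f85f8207e08608208208218208201001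
 z z) (n 0 z z)))) (n 0 (n 0 z (n 0 z (n 0 z (n 0 z z)))) (n 0 (n 0 z (n 0 z (n 0 z (n 0 z z))))
 (n 0 (n 0 (n 8786443 z (n 8786443 z z)) (n 0 z (n 0 z (n 0 (n 8786443 z (n 8786443 z z)) z))))
 (n 0 (n 0 z (n 0 z (n 0 z (n 0 z z)))) (n 0 (n 0 z (n 0 z (n 0 z (n 0 z z)))) (n 0 (n 0 z (n 0
 z (n 0 z (n 0 z z)))) (n 0 (n 0 z (n 0 z (n 0 z (n 0 z z)))) (n 0 (n 0 z (n 0 z (n 0 (n 8868163
 z z) (n 0 z z)))) (n 0 (n 0 z (n 0 z (n 0 z (n 0 z z)))) (n 0 (n 0 z (n 0 z (n 0 (n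
 0x148438217dd82086185f7df8637df8607dd81f86189e8217a081f8208207df86089f81f8207e18200041 z z) (n
 0 z z)))) (n 0 (n 0 (n 8787787 z z) (n 0 z (n 0 z (n 0 z z)))) (n 0 (n 0 (n 8787787 z z) (n 0 z
 (n 0 z (n 0 (n 8787787 z z) z)))) (n 0 (n 0 (n
 0xd87481f8207e17a18607a086482085f7e28208a08a07df7e081f7e07e18608608a085f89f8208200041 z (n
 0x148208217dd82086081f7df86381e8617de82086089e8217a081f86082081f8208608208208218210041 z z)) (n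
 0 z (n 0 z (n 0 (n
 0x148208217dd82086185f7df8637df8607dd81f86189e8217a081f8208207df86089f81f8207e18200041 z (n
 0x148208217dd82086185f7df8637df8607dd81f86189e8217a081f8208207df86089f81f8207e18200041 z z))
 z)))) (n 0 (n 0 z (n 0 z (n 0 z (n 0 z z)))) (n 0 (n 0 z (n 0 z (n 0 z (n 0 z z)))) (n 0 (n 0
 (n 0x148748217dd82086185f7df8637df8607dd81f86189e8217a081f8208207df86089f81f8207e18200041 z (n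
 7750275 z z)) (n 0 z (n 0 z (n 0 (n
 0x587686082086081f86082082181f85f8208608618207e07e085f82082082081f82182086081f8200041 z (n
 0x148768217dd82086185f7df8637df8607dd81f86189e8217a081f8208207df86089f81f8207e18200041 z z))
 z)))) (n 0 (n 0 z (n 0 z (n 0 z (n 0 z z)))) (n 0 (n 0 (n
 0xd87481f8207e17a18607a086482085f7e28208a08a07df7e081f7e07e18608608a085f89f8208200041 z (n
 0x30e908640385f8218208208208208208208208208208208208208208208208208208208208208208208200801 z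
 z)) (n 0 z (n 0 z (n 0 (n
 0xd87681f8207e17a18607a086482085f7e28208a08a07df7e081f7e07e18608608a085f89f8208200041 z (n
 0x30ed0ec60789f8218207e08208208608208207e082086081f8208208208208208208208208208208208210801 z
 z)) z)))) (n 0 (n 0 z (n 0 z (n 0 z (n 0 z z)))) (n 0 (n 0 (n
 0x587481f8208607e086082082282082082082086086082082081f82082082082082082086081f8200041 z (n
 0x90e80483082181e7e086081f7e08627e08607df82086085f8207e08208208208208608608208208208200081 z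
 z)) (n 0 z (n 0 z (n 0 (n
 0xb0ec0483081f81f86081f81f86086182086081f7e086181e7e07e181f82082082082081f82186081f8200081 z (n
 0x190c80c8308207dc81f81f85f8208648208a082086086085e7e082082081f8208208608a082081f8207e00081 z
 z)) z)))) z))))))))))))))))))))))))))))))))))))))))) (n 21 (n 0 (n 0 z (n 0 z (n 0 z (n 0 z
 z)))) (n 0 (n 0 z (n 0 z (n 0 z (n 0 z z)))) (n 0 (n 0 z (n 0 z (n 0 z (n 0 z z)))) (n 0 (n 0 z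
 (n 0 z (n 0 z (n 0 z z)))) (n 0 (n 0 z (n 0 z (n 0 z (n 0 z z)))) (n 0 (n 0 z (n 0 z (n 0 z (n
 0 z z)))) (n 0 (n 0 z (n 0 (n 8855651 z z) (n 0 z (n 0 z z)))) (n 0 (n 0 z (n 0 z (n 0 z (n 0 z
 z)))) (n 0 (n 0 z (n 0 z (n 0 z (n 0 z z)))) (n 0 (n 0 z (n 0 z (n 0 z (n 0 z z)))) (n 0 (n 0 z
 (n 0 z (n 0 (n 8868163 z z) (n 0 z z)))) (n 0 (n 0 z (n 0 z (n 0 z (n 0 z z)))) (n 0 (n 0 z (n
 0 z (n 0 z (n 0 z z)))) z))))))))))))) (n 29 (n 0 (n 0 z (n 0 z (n 0 z (n 0 z z)))) (n 0 (n 0 z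
 (n 0 z (n 0 z (n 0 z z)))) (n 0 (n 0 z (n 0 z (n 0 z (n 0 z z)))) (n 0 (n 0 z (n 0 z (n 0 z (n
 0 z z)))) (n 0 (n 0 z (n 0 z (n 0 z (n 0 z z)))) (n 0 (n 0 z (n 0 z (n 0 z (n 0 z z)))) (n 0 (n
 0 z (n 0 z (n 0 z (n 0 z z)))) (n 0 (n 0 z (n 0 z (n 0 z (n 0 z z)))) (n 0 (n 0 z (n 0 z (n 0
 (n 8868163 z z) (n 0 z z)))) (n 0 (n 0 (n 8787787 z z) (n 0 z (n 0 z (n 0 z z)))) z))))))))))
 (n 28 (n 0 (n 0 z (n 0 z (n 0 z (n 0 z z)))) (n 0 (n 0 (n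
 0x58108208208208208607e08228208607e17a08608608207e082082082082082086082089f8608200041 z (n
 0xd81081f8207e17a18607a086482085f7e28208a08a07df7e081f7e07e18608608a085f89f8208200041 z z)) (n
 0 (n 0x587281f8208607e086082082282082082082086086082082081f82082082082082082086081f8200041 z (n
 0xd81081f8207e17a18607a086482085f7e28208a08a07df7e081f7e07e18608608a085f89f8208200041 z z)) (n
 0 (n 8787771 z (n 8525675 z z)) (n 0 z z)))) (n 0 (n 0 z (n 0 z (n 0 z (n 0 z z)))) (n 0 (n 0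
 (n 0xd87681f8208217e18607e086482081f7e282089f8a07df7e081f82082186086086086085e8208200041 z z)
 (n 0 z (n 0 z (n 0 (n
 0xd87681f8207e17a18607a086482085f7e28208a08a07df7e081f7e07e18608608a085f89f8208200041 z z)
 z)))) (n 0 (n 0 z (n 0 z (n 0 z (n 0 z z)))) (n 0 (n 0 (n
 0x90620481082081e85f8208608208627e082081f7e086081f8217e181f8608208208608a082085f8208200081 z (n
 0x90620481081f81e8207e081f86082282086086082082085e8207e082082085f82082085f8207e08208200081 z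
 z)) (n 0 z (n 0 z (n 0 (n
 0x90620481082181e7e086081f7e08627e08607df82086085f8207e08208208208208608608208208208200081 z (n
 0x90620481082181e7e086081f7e08627e08607df82086085f8207e08208208208208608608208208208200081 z
 z)) z)))) (n 0 (n 0 (n
 0xd876064188060c4150200181086081e86081f85f82086281e86085f85f8a281e7e07e082082082082082086082086082181f0141
 z (n
 0x19062148108207db81f81e85f82186582086182085f86085d8207e282081f82082085f8a07e081f8208200081 z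
 z)) (n 0 z (n 0 z (n 0 (n
 0xd87281f8207e17e18607e086482085f7e27e08a08a079f7e081f8207e086082086082089f8608200041 z (n
 0x190620c8108217dc81f85f85f7e18648208617e085f86085e82082082081f82082082086082081f8208200081 z
 z)) z)))) (n 0 (n 0 (n
 0x30a8ec62038208208208208217e08617e08207e082086081f8208208208208208208208208208208208200801 z
 z) (n 0 z (n 0 z (n 0 (n
 0x30ed0e62038208208208208208208208208608208208208208208208208208208208208208208208208200801 z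
 z) z)))) (n 0 (n 0 (n 8868883 z (n 8868883 z z)) (n 0 z (n 0 z (n 0 (n 8868883 z (n 8868883 z
 z)) z)))) (n 0 (n 0 (n
 0x587681f8208607e086082082282082082082086086082082081f82082082082082082086081f8200041 z z) (n 0
 z (n 0 z (n 0 (n
 0x587681f8208607e086082082282082082082086086082082081f82082082082082082086081f8200041 z z)
 z)))) (n 0 (n 0 z (n 0 z (n 0 (n
 0x587281f8208607e086082082282082082082086086082082081f82082082082082082086081f8200041 z (n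
 0x190e40c81082075c79e82281f8278a48a08e28178268de71d65f5e38649a581c8a679b8a18a085f7a48a20081 z
 z)) (n 0 z z)))) (n 0 (n 0 z (n 0 z (n 0 z (n 0 z z)))) (n 0 (n 0 z (n 0 z (n 0 z (n 0 z z))))
 (n 0 (n 0 z (n 0 (n 3278923 z z) (n 0 (n 8800027 z z) (n 0 z z)))) (n 0 (n 0 z (n 0 z (n 0 z (n
 0 z z)))) (n 0 (n 0 (n
 0xd876064390061c8150200181086081e86081f85f82086281e86085f85f8a281e7e07e082082082082082086082086082181f0141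
 z (n
 0x10ed0e620785f8208217e082082182282082081f7e082081f82082182081f8218208208208208a08208200801 z
 z)) (n 0 z (n 0 (n
 0x190e4148108207db81f81e85f82186582086182085f86085d8207e282081f82082085f8a07e081f8208200081 z
 (n 8525675 z z)) (n 0 (n
 0xd876064390061c8150200181086081e86081f85f82086281e86085f85f8a281e7e07e082082082082082086082086082181f0141
 z (n
 0x10ed0e620785f8208217e081f8608228208208208207e081e7e08208208208208208208208218208208200801 z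
 z)) z)))) (n 0 (n 0 z (n 0 z (n 0 z (n 0 z z)))) (n 0 (n 0 z (n 0 z (n 0 z (n 0 z z)))) (n 0 (n
 0 z (n 0 z (n 0 z (n 0 z z)))) (n 0 (n 0 (n
 0x587681f8208607e086082082282082082082086086082082081f82082082082082082086081f8200041 z z) (n 0
 z (n 0 z (n 0 (n
 0x587681f8208607e086082082282082082082086086082082081f82082082082082082086081f8200041 z z)
 z)))) (n 0 (n 0 z (n 0 z (n 0 z (n 0 z z)))) (n 0 (n 0 (n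
 0x30ed0e26038208208208208208208208208608208208208208208208208208208208208208208208208200801 z
 z) (n 0 z (n 0 z (n 0 (n 3278971 z z) z)))) (n 0 (n 0 (n 8872731 z (n 8872731 z z)) (n 0 (n
 7546971 z (n 8800011 z z)) (n 0 (n 7546971 z (n
 0x58218208208207e08607e08628208208218208608607e07e081f7e082182082086185f85f8208200041 z z)) (n
 0 z z)))) (n 0 (n 0 z (n 0 (n 8855651 z z) (n 0 z (n 0 z z)))) (n 0 (n 0 z (n 0 (n 8855651 z z)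
 (n 0 z (n 0 z z)))) (n 0 (n 0 (n 8872731 z (n 8872731 z z)) (n 0 z (n 0 z (n 0 (n 8872731 z (n
 8872731 z z)) z)))) (n 0 (n 0 (n
 0xb0620483081f81f8207e082082086382086082082086085f8207e08207e08218608208608608208608200081 z z)
 (n 0 z (n 0 z (n 0 z z)))) (n 0 (n 0 z (n 0 z (n 0 (n 8724747 z z) (n 0 z z))))
 z)))))))))))))))))))))))))))) (n 155 (n 0 (n 0 z (n 0 z (n 0 z (n 0 z z)))) (n 0 (n 0 z (n 0 z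
 (n 0 z (n 0 z z)))) (n 0 (n 0 z (n 0 z (n 0 z (n 0 z z)))) (n 0 (n 0 z (n 0 z (n 0 z (n 0 z
 z)))) (n 0 (n 0 z (n 0 z (n 0 z (n 0 z z)))) (n 0 (n 0 z (n 0 z (n 0 z (n 0 z z)))) (n 0 (n 0 z
 (n 0 z (n 0 z (n 0 z z)))) (n 0 (n 0 z (n 0 z (n 0 z (n 0 z z)))) (n 0 (n 0 z (n 0 z (n 0 z (n
 0 z z)))) (n 0 (n 0 z (n 0 z (n 0 z (n 0 z z)))) (n 0 (n 0 z (n 0 z (n 0 z (n 0 z z)))) (n 0 (n
 0 (n 8868883 z z) (n 0 z (n 0 z (n 0 z z)))) (n 0 (n 0 z (n 0 z (n 0 z (n 0 z z)))) (n 0 (n 0 z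
 (n 0 z (n 0 z (n 0 z z)))) (n 0 (n 0 z (n 0 z (n 0 z (n 0 z z)))) (n 0 (n 0 z (n 0 z (n 0 z (n
 0 z z)))) (n 0 (n 0 (n 8654931 z (n 8654931 z z)) (n 0 z (n 0 z (n 0 z z)))) (n 0 (n 0 z (n 0
 (n 7546955 z (n
 0x148758217dd82086185f7df8637df8607dd81f86189e8217a081f8208207df86089f81f8207e18200041 z z)) (n
 0 (n 0x58758208208207e08607e08228208208217e08608607e082081f82082081f86086081f85f8608200041 z (n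
 8787771 z z)) (n 0 z z)))) z)))))))))))))))))) (n 33 (n 0 (n 0 z (n 0 z (n 0 z (n 0 z z)))) (n
 0 (n 0 z (n 0 z (n 0 z (n 0 z z)))) (n 0 (n 0 (n 8525659 z z) (n 0 z (n 0 z (n 0 z z)))) z)))
 (n 9 (n 0 (n 0 z (n 0 z (n 0 z (n 0 z z)))) (n 0 (n 0 z (n 0 z (n 0 z (n 0 z z)))) (n 0 (n 0 z
 (n 0 z (n 0 z (n 0 z z)))) z))) (n 27 (n 0 (n 0 z (n 0 z (n 0 z (n 0 z z)))) (n 0 (n 0 z (n 0 z
 (n 0 z (n 0 z z)))) (n 0 (n 0 z (n 0 z (n 0 z (n 0 z z)))) (n 0 (n 0 z (n 0 z (n 0 z (n 0 z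
 z)))) (n 0 (n 0 (n 8787787 z z) (n 0 (n
 0x587281f8208607e086082082282082082082086086082082081f82082082082082082086081f8200041 z z) (n 0
 z (n 0 z z)))) (n 0 (n 0 z (n 0 z (n 0 z (n 0 z z)))) (n 0 (n 0 z (n 0 z (n 0 z (n 0 z z)))) (n
 0 (n 0 (n 8787787 z z) (n 0 z (n 0 z (n 0 z z)))) (n 0 (n 0 z (n 0 z (n 0 z (n 0 z z)))) (n 0
 (n 0 z (n 0 z (n 0 z (n 0 z z)))) (n 0 (n 0 z (n 0 z (n 0 z (n 0 z z)))) (n 0 (n 0 (n 8787787 z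
 z) (n 0 z (n 0 z (n 0 z z)))) (n 0 (n 0 z (n 0 z (n 0 z (n 0 z z)))) (n 0 (n 0 z (n 0 (n
 0x2a1d4130ea0487285f81f8207e082085f86181f89f81f7df86185f7e07df82082082081f82082082086086082000c1
 z z) (n 0 z (n 0 z z)))) (n 0 (n 0 z (n 0 (n
 0x90e40587081f81f8207e082082086382085f8208208a085f7e07e08208207e08208208608208208208200081 z z)
 (n 0 z (n 0 z z)))) (n 0 (n 0 (n 8525659 z z) (n 0 (n
 0xd87081f8207e17a18607a086482085f7e28208a08a07df7e081f7e07e18608608a085f89f8208200041 z z) (n 0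
 z (n 0 z z)))) (n 0 (n 0 z (n 0 z (n 0 z (n 0 z z)))) (n 0 (n 0 z (n 0 (n 8868875 z z) (n 0 z
 (n 0 z z)))) (n 0 (n 0 z (n 0 z (n 0 z (n 0 z z)))) (n 0 (n 0 z (n 0 z (n 0 z (n 0 z z)))) (n 0
 (n 0 z (n 0 (n 2164795 z z) (n 0 z (n 0 (n 2164795 z z) z)))) (n 0 (n 0 (n
 0x587481f8208607e086082082282082082082086086082082081f82082082082082082086081f8200041 z (n
 0x90e80484082081e82082085f81f8627e082081f7e086085f8207e081f82082082086085f8208208208200081 z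
 z)) (n 0 (n
 0xd8758608218607e086082082285f81f82086086181f8207e085f82082082086086086086081f8200041 z (n
 8800011 z z)) (n 0 z (n 0 (n
 0xd87581f8207e17a18607a086482085f7e28208a08a07df7e081f7e07e18608608a085f89f8208200041 z (n
 7669819 z z)) z)))) z)))))))))))))))))))))) (n 1 (n 0 (n 0 z (n 0 z (n 0 z (n 0 z z)))) (n 0 (n
 0 z (n 0 z (n 0 z (n 0 z z)))) (n 0 (n 0 z (n 0 z (n 0 z (n 0 z z)))) (n 0 (n 0 z (n 0 (n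
 0x2a1d4130ea0487285f81f8207e082085f86181f89f81f7df86185f7e07df82082082081f82082082086086082000c1
 z z) (n 0 z (n 0 z z)))) (n 0 (n 0 z (n 0 z (n 0 z (n 0 z z)))) (n 0 (n 0 z (n 0 z (n 0 z (n 0
 z z)))) z)))))) (n 0 (n 0 (n 0 z (n 0 z (n 0 z (n 0 z z)))) (n 0 (n 0 z (n 0 z (n 0 z (n 0 z
 z)))) (n 0 (n 0 z (n 0 z (n 0 z (n 0 z z)))) (n 0 (n 0 z (n 0 z (n 0 z (n 0 z z)))) (n 0 (n 0
 (n 0x19062148108207db81f81e85f82186582086182085f86085d8207e282081f82082085f8a07e081f8208200081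
 z (n
 0xd874064188060c4150200181086081e86081f85f82086281e86085f85f8a281e7e07e082082082082082086082086082181f0141
 z z)) (n 0 z (n 0 z (n 0 z z)))) (n 0 (n 0 (n 8787787 z (n
 0x190840c81082075c79e82281f8278a48a08e28178268de71d65f5e38649a581c8a679b8a18a085f7a48a20081 z
 z)) (n 0 z (n 0 z (n 0 (n
 0xd87281f8207e17a18607a086482085f7e28208a08a07df7e081f7e07e18608608a085f89f8208200041 z (n
 0x190840c81082075c79e82281f8278a48a08e28178268de71d65f5e38649a581c8a679b8a18a085f7a48a20081 z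
 z)) z)))) (n 0 (n 0 z (n 0 z (n 0 z (n 0 z z)))) (n 0 (n 0 (n
 0x190840c81082075c79e82281f8278a48a08e28178268de71d65f5e38649a581c8a679b8a18a085f7a48a20081 z
 (n 0xd87481f8208607e082086082081e82186082086181f8217e082082082081f8208208608608208200041 z z))
 (n 0 z (n 0 z (n 0 (n
 0x190840c81082075c79e82281f8278a48a08e28178268de71d65f5e38649a581c8a679b8a18a085f7a48a20081 z
 (n 0x190840c81082075c79e82281f8278a48a08e28178268de71d65f5e38649a581c8a679b8a18a085f7a48a20081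
 z z)) z)))) (n 0 (n 0 (n 8787787 z (n
 0x190840c81082075c79e82281f8278a48a08e28178268de71d65f5e38649a581c8a679b8a18a085f7a48a20081 z
 z)) (n 0 z (n 0 z (n 0 (n
 0xd87281f8207e17a18607a086482085f7e28208a08a07df7e081f7e07e18608608a085f89f8208200041 z (n
 0x190840c81082075c79e82281f8278a48a08e28178268de71d65f5e38649a581c8a679b8a18a085f7a48a20081 z
 z)) z)))) (n 0 (n 0 (n 8786443 z (n 8786443 z z)) (n 0 z (n 0 z (n 0 (n 8786443 z (n 8786443 z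
 z)) z)))) (n 0 (n 0 z (n 0 z (n 0 z (n 0 z z)))) (n 0 (n 0 z (n 0 z (n 0 z (n 0 z z)))) (n 0 (n
 0 z (n 0 z (n 0 z (n 0 z z)))) (n 0 (n 0 (n
 0x190e4148108207db81f81e85f82186582086182085f86085d8207e282081f82082085f8a07e081f8208200081 z
 (n 0xd87481f8207e17a18607a086482085f7e28208a08a07df7e081f7e07e18608608a085f89f8208200041 z z))
 (n 0 z (n 0 (n 8787771 z (n
 0x2e650a280781f8218208208208208218208218208208208208208208208208208208208208208208208200801 z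
 z)) (n 0 (n
 0x190e40c81082081c7e081f85f82186481f86082085f86081d7e07e082081f8208208608607e081f8208200081 z
 (n 0x30a6e8620786082081f8608a07e17a08e18208218607608217e086182081f8218218208207e07df81f8200801
 z z)) z)))) (n 0 (n 0 z (n 0 z (n 0 z (n 0 z z)))) (n 0 (n 0 z (n 0 (n 8868875 z (n 8868875 z
 z)) (n 0 z (n 0 (n
 0x90620481082181e7e086081f7e08627e08607df82086085f8207e08208208208208608608208208208200081 z (n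
 8787787 z z)) z)))) (n 0 (n 0 (n
 0x190620c8108217dc81f85e85f7e18648208617e085f86085d8207e182081f82082081f8607e081f8207e10081 z
 (n 0x90620481082081e82081f81f82082282086082186082181e86082082082082082086085f82081f8208200081 z
 z)) (n 0 z (n 0 z (n 0 (n
 0x90620c8108207dd7e081f85f82086382086082181f82185e7e082182081f8207df8208607e081f8207e00081 z (n
 0x90620481082081e82081f85f8218227e086082182082081f82082082081f81f8208208608207e08208200081 z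
 z)) z)))) (n 0 (n 0 (n
 0x190e40c8108217dc81f85e85f7e18648208617e086086081e8207e181f81f8208218608a08207e07e08200081 z
 (n 0x148748217dd82086185f7df8637df8607dd81f86189e8217a081f8208207df86089f81f8207e18200041 z z))
 (n 0 z (n 0 (n
 0x190e40c81082075c79e82281f8278a48a08e28178268de71d65f5e38649a581c8a679b8a18a085f7a48a20081 z
 (n
 0x154188460c439020198108e07dc79e7de8e16e68a491c9616e699f82279c75b7607a081f8a18a47de8e08dd85f7e389f0101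
 z z)) (n 0 (n
 0x90e40c81081f7dd8207df85f86186382086086085f82085e7e07e186081f82082181f86081f7e082081f0081 z (n
 0x154188460c439020198108e07dc79e7de8e16e68a491c9616e699f82279c75b7607a081f8a18a47de8e08dd85f7e389f0101
 z z)) z)))) (n 0 (n 0 z (n 0 z (n 0 z (n 0 z z)))) (n 0 (n 0 z (n 0 z (n 0 z (n 0 z z)))) (n 0
 (n 0 z (n 0 z (n 0 z (n 0 z z)))) (n 0 (n 0 (n
 0xd874024188060c4150200181086081e85f81f8608208617df86086085f8a281f7e07e081f8208208207e08a08208608207df0141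
 z (n
 0x190620c8108207dc7df81f85f82186482086182085f86085e7e07e082081f8208208608a07e08207e08200081 z
 z)) (n 0 z (n 0 z (n 0 (n
 0xd87281f8207e17a18607a086482085f7e28208a08a07df7e081f7e07e18608608a085f89f8208200041 z (n
 0x190620c8108207dc81f81f86082186482086182085f86081e7e082082081f82082181f89f82081f81f8200081 z
 z)) z)))) (n 0 (n 0 z (n 0 z (n 0 z (n 0 z z)))) (n 0 (n 0 z (n 0 z (n 0 z (n 0 (n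
 0xb0e40483081f81f8207e082082086382085f8208208a085f7e07e08208207e08208208608208208208200081 z z)
 z)))) (n 0 (n 0 z (n 0 z (n 0 z (n 0 z z)))) (n 0 (n 0 z (n 0 z (n 0 z (n 0 z z)))) (n 0 (n 0
 (n 8787787 z z) (n 0 (n
 0x90e2048408217de82086081f7e08627df8607df82186085f8208208208208208208608207e085f8208200081 z z)
 (n 0 z (n 0 z z)))) (n 0 (n 0 z (n 0 z (n 0 z (n 0 z z)))) (n 0 (n 0 (n 8868883 z (n 8868883 z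
 z)) (n 0 z (n 0 z (n 0 (n 8868883 z (n 8868883 z z)) z)))) (n 0 (n 0 z (n 0 z (n 0 z (n 0 z
 z)))) (n 0 (n 0 z (n 0 (n 8786443 z z) (n 0 z (n 0 (n 8786443 z z) z)))) (n 0 (n 0 z (n 0 z (n
 0 z (n 0 z z)))) (n 0 (n 0 z (n 0 z (n 0 (n
 0x587281f8208607e086082082282082082082086086082082081f82082082082082082086081f8200041 z z) (n 0
 z z)))) (n 0 (n 0 z (n 0 z (n 0 z (n 0 (n 8787787 z z) z)))) (n 0 (n 0 (n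
 0x587481f8208607e086082082282082082082086086082082081f82082082082082082086081f8200041 z (n
 0x90640483082181e7e086081f7e08627e08607df82086085f8207e08208208208208608608208208208200081 z
 z)) (n 0 (n
 0xd87481f8207e17a18607a086482085f7e28208a08a07df7e081f7e07e18608608a085f89f8208200041 z (n
 0x90640483082181e7e086081f7e08627e08607df82086085f8207e08208208208208608608208208208200081 z
 z)) (n 0 z (n 0 (n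
 0x90640483082181e7e086081f7e08627e08607df82086085f8207e08208208208208608608208208208200081 z (n
 0x90640483082181e7e086081f7e08627e08607df82086085f8207e08208208208208608608208208208200081 z
 z)) z)))) (n 0 (n 0 (n
 0x587485f8208607e082086082282085f8208218217df81f82182082082082086086082182081f8200041 z (n
 0x290e80c8308207db81f81e85f82186582086182085f86085d8207e282081f82082085f8a07e081f8208200081 z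
 z)) (n 0 (n
 0xd87481f8207e17a18607a086482085f7e28208a08a07df7e081f7e07e18608608a085f89f8208200041 z (n
 0x30e90e800789d8608607a18608218208208607e08208208208208208208208208208207e18208208208200801 z
 z)) (n 0 z (n 0 z z)))) z)))))))))))))))))))))))))))))))))))) z))))))))))))))))))))) z)))) z)
 z)))) (n 0xce8ee6346ee0dd6e08f3cc88d667401935804b640 (n 0 (n 153 (n 2 z (n
 0x2ca6a62407807f7f808080808080808081807e8280807f8280817e808280807e8080818080817f8180808080807d837f807e807e8082800809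
 z (n 0 z (n 0 z (n 0 z (n 0 z (n 0 z (n 10 z (n
 0x195194c80600ca6ca6407807f7f8081808080808080827f7f817e8180837e827f80817f817f818081807f827f82817e7f81827d827e8080827e7f81811009
 z (n 0 z (n 0 z (n 0 z (n 0 z (n 3282443 z (n 0 z (n 0 z (n 0 z (n 0 z (n 18 z (n 4331019 z (n
 0 z z))))))))))))))))))))) (n 57 (n 0 z (n 0 z (n 6496515 z (n 6496515 z (n 5518875 z (n 0 z (n
 0 z z))))))) (n 9 (n 0 z (n 0 z (n 0 z (n 0 z (n 26 z (n 6496515 z (n 0 z (n 0 z z)))))))) (n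
 123 (n 34 z (n 6496515 z (n 0 z (n 0 z (n 42 z (n 50 z (n 0 z z))))))) (n 1 (n 6554395 z (n 0 z
 (n 0 z (n 0 z (n 0 z z))))) (n 0 (n 2164315 z (n
 0x4c86c80403807f7f7f8080827e7e7d7f817e817e818180827e827f8383847e7e7f81827f7f827e7b807f7f817f7e847e808382828082800809
 z (n
 0xc86c864037f808080807f81807f8081807f7e8281817f817e828280807f7f807e81827f80817f8080807f81807f80827f8080808180810809
 z (n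
 0x194d0c480e00ca6860407807f81817d818180807e7f7e807f8381808081807f818180807e7f7e81827e7e808380827f80828180817e7f8180808181811009
 z (n 0 z (n 0 z (n 0 z (n 0 z (n 0 z (n 0 z (n
 0x590d90080600c84c840037f7f8080808081807e80817f80827f807f817d7f81818180827e808080827f8181807d81807f817f817f8280828082807d801009
 z (n 58 z (n 0 z (n 0 z (n 0 z (n 0 z (n
 0xc86c8640380808080808080808080807f808182807f807f8181818080807e807f81827f80807f7f81817f7e8180807f80808081817f800809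
 z (n 0 z (n 0 z (n 0 z (n 0 z (n 0 z (n
 0x190d90c80602ca6862407827f81827e7f7f8080807d7d828185867c807f827f83827b7f7a807e82847f8181847b80807c838082847b7d7f7f7f7f7a811009
 z (n
 0x2d90d90480602c82c82007838180818082857b827f7d7c7f8388817c7a82807e7e8082847a808084837e807c817e81817c8083807e80828182827d807e1009
 z (n 0 z (n 0 z (n 0 z (n
 0xc86c862037f808080807f81807f8081807f7e8281817f817e828280807f7f807e81827f80817f8080807f81807f80827f8080808180810809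
 z (n 0 z (n 0 z (n 0 z (n 0 z (n 0 z (n 0 z (n
 0x2c86c8640380808080808081807d7f807f80808080807e818084818181817f807f80837f7f817f7b807f7d81807d80807e828182807e810809
 z (n
 0x2c86c864037b7f847e718684827b798178817e8482818083827e858585807879778185757a7d857f827f838484818a7c7c8486828986830809
 z (n
 0x14c84c82603747a8e7b47928f847065846a78768e8c89828b7f809294907e5f635e8b8f5a7379957879888b928b79a3717496888aa2968c0809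
 z (n
 0x4c84c82603807f7f7f8080827e7e7d7f817e817e818180827e827f8383847e7e7f81827f7f827e7b807f7f817f7e847e808382828082800809
 z (n
 0x4c84c80603807f807f80807f8180808080808180807f7e7e827e837d80807e807f80807f7f807e7d8382827f81827f82817e7f82827f800809
 z (n 0 z (n
 0x194d0c480e02c86c80403808181818081817e817f807e807f84827e7f80807f808080807c817f83827e807e817f8080808180808281808080808181801009
 z (n 0 z (n 0 z (n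
 0xc86c862037f808080807f81807f8081807f7e8281817f817e828280807f7f807e81827f80817f8080807f81807f80827f8080808180810809
 z (n 0 z (n 0 z (n 0 z (n
 0x2c86c862037f7e7f81807f837f818183847b7f808382817f7f807f817e7f7f7e7e84837e83827f817d857f81817d82817e827c8083817e0809
 z (n
 0xc86c862037f808080807f81807f8081807f7e8281817f817e828280807f7f807e81827f80817f8080807f81807f80827f8080808180810809
 z (n 0 z (n 0 z (n 0 z (n 0 z (n 0 z (n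
 0x2c84c806037f7f80807e7f8280808081817e7f818480807f7f817f807f807d7e7c83837d818280827f828082817d82817f807f818381800809
 z (n 0 z z)))))))))))))))))))))))))))))))))))))))))))))))))))))))) z)))))) (n 1 (n 0 (n 0 z (n
 0 z (n 183 (n 2 (n 1 z (n 1 z (n 1 z (n 1 z z)))) (n 0 z (n 0 z (n 0 z (n 0 z (n 0 z (n 0 z (n
 0 z (n 0 z (n 0 z (n 0 z (n 0 z (n 0 z (n 0 z (n 0 z (n 0 z (n 0 z (n 0 z (n 0 z (n 0 z (n 0 z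
 (n 0 z (n 0 z (n 0 z (n 0 z (n 0 z (n 0 z (n 0 z (n 0 z (n 0 z (n 0 z (n 0 z (n 0 z (n 0 z (n 0
 z (n 0 z (n 0 z (n 0 z (n 0 z (n 0 z (n 0 z (n 0 z (n 0 z (n 0 z (n 0 z (n 0 z (n 0 z (n 0 z (n
 0 z (n 0 z (n 0 z (n 0 z (n 0 z (n 0 z (n 0 z (n 0 z
 z)))))))))))))))))))))))))))))))))))))))))))))))))))))))) (n 181 (n 0 z (n 0 z (n 0 z (n 0 z (n
 2 (n 0 z (n 0 z (n 1 z z))) (n 0 z (n 0 z z))))))) (n 181 (n 0 z (n 0 z (n 0 z (n 0 z (n 0 z (n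
 0 z (n 0 z z))))))) (n 181 (n 0 z (n 0 z (n 0 z (n 0 z (n 0 z (n 0 z (n 0 z z))))))) (n 25 (n 0
 z (n 2 z (n 0 z (n 0 z (n 0 z (n 0 z (n 0 z (n 0 z (n 0 z (n 0 z (n 0 z (n 0 z (n 0 z (n 0 z (n
 0 z (n 0 z (n 0 z (n 0 z (n 0 z (n 0 z (n 0 z (n 0 z (n 0 z (n 0 z (n 0 z (n 0 z (n 0 z (n 0 z
 (n 0 z (n 0 z (n 0 z (n 0 z (n 0 z (n 0 z (n 0 z (n 0 z (n 0 z (n 0 z (n 0 z (n 0 z (n 0 z (n 0
 z (n 0 z (n 0 z (n 0 z (n 0 z z)))))))))))))))))))))))))))))))))))))))))))))) z))))))) (n 0 (n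
 0 z (n 177 (n 0 z (n 0 z (n 0 z (n 0 z (n 0 z (n 0 z (n 0 z (n 0 z (n 0 z (n 0 z (n 0 z (n 0 z
 (n 0 z (n 0 z (n 0 z (n 0 z (n 0 z (n 0 z (n 0 z (n 0 z (n 0 z (n 0 z (n 2 (n 1 z (n 1 z (n 1 z
 (n 1 z z)))) (n 0 z (n 0 z (n 0 z (n 0 z (n 0 z (n 0 z (n 0 z (n 0 z (n 0 z (n 0 z (n 0 z (n 0
 z (n 0 z (n 0 z (n 0 z (n 0 z (n 0 z (n 0 z (n 0 z (n 0 z (n 0 z (n 0 z (n 0 z
 z)))))))))))))))))))))))))))))))))))))))))))))) (n 997 (n 0 z (n 0 z (n 0 z (n 0 z (n 0 z (n 0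
 z (n 0 z (n 0 z z)))))))) (n 997 (n 0 z (n 0 z (n 0 z (n 0 z (n 0 z (n 0 z (n 0 z (n 0 z
 z)))))))) (n 997 (n 0 z (n 0 z (n 0 z (n 0 z (n 0 z (n 0 z (n 0 z (n 0 z z)))))))) (n 121 (n 0
 z (n 0 z (n 0 z (n 0 z (n 0 z (n 2 z (n 0 z (n 0 z z)))))))) z)))))) (n 0 (n 1173 (n 0 z (n 0 z
 (n 0 z (n 0 z (n 0 z (n 0 z (n 0 z (n 0 z (n 0 z (n 0 z (n 0 z (n 0 z (n 0 z (n 0 z (n 0 z (n 0
 z (n 0 z (n 0 z (n 0 z (n 0 z (n 0 z z))))))))))))))))))))) (n 1165 (n 0 z (n 0 z (n 0 z (n 0 z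
 (n 0 z (n 0 z (n 0 z (n 0 z z)))))))) (n 1165 (n 0 z (n 0 z (n 0 z (n 0 z (n 0 z (n 0 z (n 0 z
 (n 0 z z)))))))) (n 1165 (n 0 z (n 0 z (n 0 z (n 0 z (n 0 z (n 0 z (n 0 z (n 0 z z)))))))) (n
 745 (n 0 z (n 0 z (n 0 z (n 0 z (n 0 z (n 0 z (n 0 z (n 0 z (n 0 z (n 0 z (n 0 z (n 0 z (n 0 z
 (n 0 z (n 0 z (n 0 z (n 0 z (n 0 z (n 0 z (n 0 z (n 0 z z))))))))))))))))))))) z))))) (n 0 (n
 1165 (n 0 z (n 0 z (n 0 z (n 0 z (n 0 z (n 0 z (n 0 z z))))))) (n 1165 (n 0 z (n 0 z (n 0 z (n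
 0 z (n 0 z (n 0 z (n 0 z z))))))) (n 1165 (n 0 z (n 0 z (n 0 z (n 0 z (n 0 z (n 0 z (n 0 z
 z))))))) (n 97 (n 0 z (n 0 z (n 0 z (n 0 z (n 0 z (n 0 z (n 0 z (n 0 z (n 0 z (n 0 z (n 0 z (n
 0 z (n 0 z (n 0 z (n 0 z (n 0 z (n 0 z (n 0 z (n 0 z (n 0 z (n 0 z (n 0 z (n 0 z (n 0 z (n 0 z
 (n 0 z (n 0 z (n 0 z (n 0 z (n 0 z (n 0 z (n 0 z (n 0 z (n 0 z (n 0 z (n 0 z (n 0 z (n 0 z (n 0
 z (n 0 z (n 0 z (n 0 z (n 0 z (n 0 z (n 0 z (n 0 z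
 z)))))))))))))))))))))))))))))))))))))))))))))) z)))) (n 0 (n 0 z (n 0 z (n 245 (n 0 z (n 0 z
 (n 0 z (n 0 z (n 0 z (n 0 z (n 0 z (n 0 z (n 0 z (n 0 z (n 0 z (n 0 z (n 0 z (n 0 z
 z)))))))))))))) z))) (n 0 (n 0 z (n 245 (n 0 z (n 0 z (n 0 z (n 0 z (n 0 z z))))) z)) (n 0 (n
 245 (n 0 z (n 0 z (n 0 z (n 0 z (n 0 z (n 0 z (n 0 z (n 0 z (n 0 z (n 0 z (n 0 z (n 0 z (n 0 z
 (n 0 z (n 0 z (n 0 z (n 0 z (n 0 z z)))))))))))))))))) z) (n 0 z z)))))))) (n 0 (n 1 (n 6554395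
 z (n 6554395 z (n 6554395 z (n 6554395 z (n 6554395 z (n 6554395 z z)))))) (n 0 z (n 0 z (n 0 z
 (n 0 z z))))) (n 0 z z)))) (n
 0xb5394585aa2bd6509592d0ac91888b9684e3a8591b6116eda1c4dc05ab6a10d4a886da98152b00 (n 0 (n 153 (n
 6619947 z (n 6554395 z (n 6554395 z (n 2 z (n 0 z (n 10 z (n 3282443 z (n 0 z (n 6554395 z (n 0
 z (n
 0xca6a8640383807e7f80807d7a85807d7e7f808281837f807f8281807f7f7e7d7f7f837e82837e817c8180817d817f7d828181807d83830809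
 z z))))))))))) (n 57 (n 6496515 z (n 6496515 z (n 18 z (n 26 z z)))) (n 9 (n 34 z (n 0 z (n 0 z
 (n 0 z (n 6496515 z (n 42 z z)))))) (n 123 (n 0 z (n 50 z (n 0 z (n 6496515 z (n 58 z (n 66 z
 (n 0 z (n 0 z z)))))))) (n 1 (n 6554395 z (n 74 z (n 0 z (n 82 z (n 0 z (n 0 z z)))))) (n 0 (n
 0 z (n 90 z (n
 0x1594d0c480606c86c804077c8380808083868b76837c87827f7c7a7d8481817c7c82827e8881858178847e7b828583837e7d8b7c8484817d7f81847b791009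
 z (n
 0x836316e7588a17491a0c34c8293a1808163726296838c647d898777aa809a91678c866f9684967a8078b359808379775e89906e5e0049
 z (n 0 z (n 0 z (n 0 z (n 0 z (n 0 z (n 0 z (n 4331099 z (n
 0x3a620807e7f80808283837e8282817c807e7d818380807e7f7f807f827c808179818080838283817f80867e8081817c8080847c7b0049
 z (n 0 z (n 0 z (n 0 z (n 0 z (n 6619947 z (n 0 z (n 0 z (n 0 z (n 0 z (n 0 z (n 6619947 z (n
 0x2c6107f807e84897e858a7885838d777d657e8a848a8e807977827f9085858170867e7d89878b8b7e838a757a827e797481807b780049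
 z (n 0 z (n 0 z (n 0 z (n
 0x1498c405b08052610867e817f817f80848181837f75797f7a898383778581798679867e7e7d77807f82788181847b7d82878281837f897b847f8300c9
 z (n 0 z (n 0 z (n 0 z (n 0 z (n 0 z (n 0 z (n 6619947 z (n
 0x2c84c8400382807e80807e827e8580807f808185817e7f7e7f7f808280807c7d7d83837c8485847e7d7e80857e7b807b7e807c807e80810809
 z (n 98 z (n 106 z (n 114 z (n 0 z (n
 0x6c86c86403817b7b7c817a8574928484836f7e718a89897c897b7879747f77807c847283847d868a858b7f8187777e807e8878807c817c0809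
 z (n 0 z (n 0 z (n 6619947 z (n 0 z (n 0 z (n 0 z (n
 0x2c86c86407807e82807e7f828283808282807e807d827e827f81807e80808280817e808281828383828080807e817f7f837f81808180820809
 z (n
 0xc86c864077e7e81807d807e807f80808080817b83828181817e808081807f8180807c837f7c80818281807e80848283817f7f808281800809
 z (n 0 z (n 0 z (n 0 z (n 0 z (n 0 z (n
 0xb21320981c0d909900c0e06c86c82403837c80827b8282847c808083867f82827e77808083837b877b837b837f87817f81827d7f7a81847a81847d7b81847e7f7d871809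
 z (n 0 z z)))))))))))))))))))))))))))))))))))))))))))))))))))))))) z)))))) (n 57 (n 0 (n 0 z (n
 871 (n 0 z (n 0 z (n 0 z (n 0 z (n 0 z (n 0 z (n 0 z (n 0 z (n 0 z (n 0 z (n 0 z (n 0 z (n 0 z
 z))))))))))))) (n 871 (n 0 z (n 0 z (n 0 z (n 0 z (n 0 z (n 0 z (n 0 z (n 0 z (n 0 z (n 0 z (n
 0 z (n 0 z (n 0 z z))))))))))))) (n 1119 (n 0 z (n 2 (n 0 z (n 1 z (n 2 (n 0 z (n 0 z (n 0 z (n
 0 z (n 0 z (n 0 z z)))))) (n 2 (n 0 z (n 0 z (n 0 z (n 0 z (n 0 z (n 0 z z)))))) (n 2 (n 0 z (n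
 0 z (n 0 z (n 0 z (n 0 z (n 0 z z)))))) (n 2 (n 0 z (n 0 z (n 0 z (n 0 z (n 0 z (n 0 z z))))))
 (n 2 (n 0 z (n 0 z (n 0 z (n 0 z (n 0 z (n 0 z z)))))) (n 2 (n 0 z (n 0 z (n 0 z (n 0 z (n 0 z
 (n 0 z z)))))) (n 2 (n 0 z (n 0 z (n 0 z (n 0 z (n 0 z (n 0 z z)))))) (n 2 (n 0 z (n 0 z (n 0 z
 (n 0 z (n 0 z (n 0 z z)))))) z)))))))))) (n 0 z (n 0 z (n 0 z (n 0 z (n 0 z (n 0 z z)))))))) (n
 1119 (n 0 z (n 0 z (n 0 z (n 0 z (n 0 z (n 0 z (n 0 z (n 0 z z)))))))) (n 315 (n 0 z (n 0 z (n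
 2 (n 0 z (n 0 z (n 2 (n 0 z (n 0 z (n 0 z (n 0 z (n 0 z (n 0 (n 8855571 z z) z)))))) (n 2 (n 0
 z (n 0 z (n 0 z (n 0 z (n 0 z (n 0 z z)))))) (n 2 (n 0 z (n 0 z (n 0 z (n 0 z (n 0 z (n 0 z
 z)))))) (n 2 (n 0 z (n 0 z (n 0 (n 8787755 z z) (n 0 z (n 0 (n 8868451 z z) (n 0 (n 8732787 z
 (n 8718155 z z)) z)))))) (n 2 (n 0 z (n 0 z (n 0 z (n 0 z (n 0 z (n 0 z z)))))) (n 2 (n 0 z (n
 0 z (n 0 z (n 0 z (n 0 z (n 0 z z)))))) z)))))))) (n 0 z (n 0 z (n 0 z z)))))) (n 315 (n 0 z (n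
 0 z (n 0 z (n 0 z (n 0 z (n 0 z z)))))) (n 315 (n 0 z (n 0 z (n 0 z (n 0 z (n 0 z (n 0 z
 z)))))) (n 303 (n 0 z (n 0 z (n 0 z (n 2 (n 0 z (n 2 (n 0 z (n 0 z (n 0 z (n 0 z (n 0 z (n 0 z
 z)))))) (n 2 (n 0 z (n 0 z (n 0 z (n 0 z (n 0 z (n 0 z z)))))) (n 2 (n 0 z (n 0 z (n 0 z (n 0 z
 (n 0 z (n 0 z z)))))) (n 2 (n 0 z (n 0 z (n 0 z (n 0 z (n 0 z (n 0 z z)))))) z))))) (n 0 z (n 0
 z (n 0 z (n 0 z (n 0 z (n 0 z (n 0 z z))))))))))) (n 303 (n 0 z (n 0 z (n 0 z (n 0 z (n 0 z (n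
 0 z (n 0 z (n 0 z (n 0 z (n 0 z (n 0 z z))))))))))) (n 305 (n 0 z (n 0 z (n 0 z (n 0 z (n 0 z
 (n 0 z (n 0 z (n 0 z (n 0 z (n 0 z (n 0 z (n 0 z z)))))))))))) (n 305 (n 0 z (n 0 z (n 0 z (n 0
 z (n 0 z (n 0 z (n 0 z (n 0 z (n 0 z (n 0 z (n 0 z (n 0 z z)))))))))))) (n 305 (n 0 z (n 0 z (n
 0 z (n 0 z (n 0 z (n 0 z (n 0 z (n 0 z (n 0 z (n 0 z (n 0 z (n
 0x2ea6c86403837d81847e827f837e817e8380837c807e7f8084807f7a7c80838080818081807f808081847f807f80807e7e7e817f7f81800809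
 z z)))))))))))) (n 305 (n 0 z (n 0 z (n 0 z (n 0 z (n 0 z (n 0 z (n 0 z (n 0 z (n 0 z (n 0 z (n
 0 z (n 0 z z)))))))))))) z)))))))))))))) (n 0 (n 897 (n 0 z (n 0 z (n 0 z (n 0 z (n 0 z (n 0 z
 (n 0 z (n 0 z (n 0 z (n 0 z (n 0 z (n 0 z (n 0 z z))))))))))))) (n 897 (n 0 z (n 0 z (n 0 z (n
 0 z (n 0 z (n 0 z (n 0 z (n 0 z (n 0 z (n 0 z (n 0 z (n 0 z (n 0 z z))))))))))))) (n 1041 (n 2
 (n 0 z (n 1 z (n 2 (n 0 z (n 0 z (n 0 z (n 0 z (n 0 z (n 0 z z)))))) (n 2 (n 0 z (n 0 z (n 0 z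
 (n 0 z (n 0 z (n 0 (n 8794707 z z) z)))))) (n 1 z (n 2 (n 0 z (n 0 z (n 0 z (n 0 z (n 0 z (n 0
 z z)))))) (n 2 (n 0 z (n 0 z (n 0 z (n 0 z (n 0 z (n 0 z z)))))) (n 2 (n 0 (n 8787755 z z) (n 0
 (n 8787755 z z) (n 0 z (n 0 z (n 0 z (n 0 (n 1220 z (n 1220 z z)) z)))))) (n 2 (n 0 z (n 0 z (n
 0 z (n 0 z (n 0 z (n 0 z z)))))) (n 2 (n 0 z (n 0 z (n 0 z (n 0 z (n 0 z (n 0 (n 8787003 z z)
 z)))))) z)))))))))) (n 0 z (n 0 z (n 0 z (n 0 z (n 0 z (n 0 z (n 0 z (n 0 z (n 0 z (n 0 z (n 0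
 z (n 0 z z))))))))))))) (n 1041 (n 0 z (n 0 z (n 0 z (n 0 z (n 0 z (n 0 z (n 0 z (n 0 z (n 0 z
 (n 0 z (n 0 z (n 0 z (n 0 z z))))))))))))) (n 535 (n 0 z (n 0 z (n 0 z (n 0 z (n 0 z (n 2 (n 0
 z (n 0 z (n 1 z (n 2 (n 0 z (n 0 z (n 0 z (n 0 z (n 0 z (n 0 z z)))))) (n 2 (n 0 z (n 0 z (n 0
 z (n 0 z (n 0 z (n 0 (n 8787003 z z) z)))))) (n 2 (n 0 z (n 0 z (n 0 z (n 0 (n 8787755 z z) (n
 0 z (n 0 (n 8656651 z (n 8869419 z z)) z)))))) (n 1 z (n 1 z z)))))))) (n 0 z (n 0 z (n 0 z (n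
 0 z (n 0 z (n 0 z (n 0 z z))))))))))))) (n 535 (n 0 z (n 0 z (n 0 z (n 0 z (n 0 z (n 0 z (n 0 z
 (n 0 z (n 0 z (n 0 z (n 0 z (n 0 z (n 0 z z))))))))))))) (n 535 (n 0 z (n 0 z (n 0 z (n 0 z (n
 0 z (n 0 z (n 0 z (n 0 z (n 0 z (n 0 z (n 0 z (n 0 z (n 0 z z))))))))))))) (n 303 (n 0 z (n 0 z
 (n 0 z (n 2 (n 0 z (n 2 (n 0 z (n 0 z (n 0 z (n 0 z (n 0 z (n 0 z z)))))) (n 2 (n 0 z (n 0 z (n
 0 (n 8787755 z z) (n 0 z (n 0 (n 8733539 z z) (n 0 (n 8869419 z (n 8869419 z z)) z)))))) (n 2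
 (n 0 z (n 0 z (n 0 z (n 0 z (n 0 z (n 0 z z)))))) (n 2 (n 0 z (n 0 z (n 0 z (n 0 z (n 0 z (n 0
 z z)))))) z))))) (n 0 z (n 0 z (n 0 z (n 0 z (n 0 z (n 0 z (n 0 z (n 0 z (n 0 z (n 0 z
 z)))))))))))))) (n 303 (n 0 z (n 0 z (n 0 z (n 0 z (n 0 z (n 0 z (n 0 z (n 0 z (n 0 z (n 0 z (n
 0 z (n 0 z (n 0 z (n 0 z z)))))))))))))) (n 305 (n 0 z (n 0 z (n 0 z (n 0 z (n 0 z (n 0 z (n 0
 z (n 0 z (n 0 z (n 0 z (n 0 z (n 0 z z)))))))))))) (n 305 (n 0 z (n 0 z (n 0 z (n 0 z (n 0 z (n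
 0 z (n 0 z (n 0 z (n 0 z (n 0 z (n 0 z (n 0 z z)))))))))))) (n 305 (n 0 z (n 0 z (n 0 z (n 2 (n
 0 z z) (n 0 z (n 0 z (n 0 z (n 0 z (n 0 z (n 0 z (n 0 z (n 0 z z)))))))))))) (n 305 (n 0 z (n 0
 z (n 0 z (n 0 z (n 0 z (n 0 z (n 0 z (n 0 z (n 0 z (n 0 z (n 0 z (n 0 z z))))))))))))
 z))))))))))))) (n 0 (n 0 z (n 747 (n 2 (n 0 z (n 1 z (n 2 (n 0 z (n 0 z (n 0 z (n 0 z (n 0 z (n
 0 z z)))))) (n 2 (n 0 z (n 0 z (n 0 z (n 0 z (n 0 z (n 0 z z)))))) (n 2 (n 0 z (n 0 z (n 0 z (n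
 0 z (n 0 z (n 0 z z)))))) (n 2 (n 0 z (n 0 z (n 0 z (n 0 z (n 0 z (n 0 z z)))))) (n 2 (n 0 z (n
 0 z (n 0 z (n 0 z (n 0 z (n 0 z z)))))) (n 2 (n 0 z (n 0 z (n 0 z (n 0 z (n 0 z (n 0 z z))))))
 (n 2 (n 0 z (n 0 z (n 0 z (n 0 z (n 0 z (n 0 z z)))))) (n 2 (n 0 z (n 0 z (n 0 z (n 0 z (n 0 z
 (n 0 z z)))))) z)))))))))) (n 0 z (n 0 z (n 0 z z)))) (n 747 (n 0 z (n 0 z (n 0 z (n 0 z z))))
 (n 75 (n 0 z (n 0 z (n 2 (n 0 z (n 0 z (n 2 (n 0 z (n 0 z (n 0 z (n 0 z (n 0 z (n 0 (n 8855571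
 z z) z)))))) (n 2 (n 0 z (n 0 z (n 0 z (n 0 z (n 0 z (n 0 z z)))))) (n 2 (n 0 z (n 0 z (n 0 z
 (n 0 z (n 0 z (n 0 z z)))))) (n 2 (n 0 z (n 0 z (n 0 (n 8787755 z z) (n 0 z (n 0 (n 8868451 z
 z) (n 0 (n 8732787 z (n 8718155 z z)) z)))))) (n 2 (n 0 z (n 0 z (n 0 z (n 0 z (n 0 z (n 0 z
 z)))))) (n 2 (n 0 z (n 0 z (n 0 z (n 0 z (n 0 z (n 0 z z)))))) z)))))))) (n 0 z (n 0 z (n 0 z
 (n 0 z (n 0 z (n 0 z z))))))))) (n 75 (n 0 z (n 0 z (n 0 z (n 0 z (n 0 z (n 0 z (n 0 z (n 0 z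
 (n 0 z z))))))))) (n 75 (n 0 z (n 0 z (n 0 z (n 0 z (n 0 z (n 0 z (n 0 z (n 0 z (n 0 z
 z))))))))) (n 111 (n 0 z (n 0 z (n 2 (n 0 z (n 2 (n 0 z (n 0 z (n 0 z (n 0 z (n 0 z (n 0 z
 z)))))) (n 2 (n 0 z (n 0 z (n 0 z (n 0 z (n 0 z (n 0 z z)))))) (n 2 (n 0 z (n 0 z (n 0 z (n 0 z
 (n 0 z (n 0 z z)))))) (n 2 (n 0 z (n 0 z (n 0 z (n 0 z (n 0 z (n 0 z z)))))) z))))) (n 0 z (n 0
 z z))))) (n 111 (n 0 z (n 0 z (n 0 z (n 0 z (n 0 z z))))) (n 113 (n 0 z (n 0 z (n 0 z (n 0 z (n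
 0 z (n 0 z (n 0 z (n 0 z z)))))))) (n 113 (n 0 z (n 0 z (n 0 z (n 0 z (n 0 z (n 0 z (n 0 z (n 0
 z z)))))))) (n 113 (n 0 z (n 0 z (n 0 z (n 0 z (n 0 z (n 0 z (n 0 z (n
 0xa864ea0c030176564320380bb2b20101c0dd4d90080600ca4ca40078474889a76888fa868818596827e76776d7e8684777c75807d9b89898c7b878274877d93827f80887a82817c7f7a8186837c2809
 z z)))))))) (n 113 (n 0 z (n 0 z (n 0 z (n 0 z (n 0 z (n 0 z (n 0 z (n 0 z z))))))))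
 z)))))))))))) (n 0 (n 747 (n 0 z (n 2 (n 0 z (n 1 z (n 2 (n 0 z (n 0 z (n 0 z (n 0 z (n 0 z (n
 0 z z)))))) (n 2 (n 0 z (n 0 z (n 0 z (n 0 z (n 0 z (n 0 z z)))))) (n 2 (n 0 z (n 0 z (n 0 z (n
 0 z (n 0 z (n 0 z z)))))) (n 2 (n 0 z (n 0 z (n 0 z (n 0 z (n 0 z (n 0 z z)))))) (n 2 (n 0 z (n
 0 z (n 0 z (n 0 z (n 0 z (n 0 z z)))))) (n 2 (n 0 z (n 0 z (n 0 z (n 0 z (n 0 z (n 0 z z))))))
 (n 2 (n 0 z (n 0 z (n 0 z (n 0 z (n 0 z (n 0 z z)))))) (n 2 (n 0 z (n 0 z (n 0 z (n 0 z (n 0 z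
 (n 0 z z)))))) z)))))))))) (n 0 z (n 0 z (n 0 z z))))) (n 747 (n 0 z (n 0 z (n 0 z (n 0 z (n 0
 z z))))) (n 487 (n 2 (n 0 z (n 0 z (n 2 (n 0 z (n 0 z (n 0 z (n 0 z (n 0 z (n 0 (n 8855571 z z)
 z)))))) (n 2 (n 0 z (n 0 z (n 0 z (n 0 z (n 0 z (n 0 z z)))))) (n 2 (n 0 z (n 0 z (n 0 z (n 0 z
 (n 0 z (n 0 z z)))))) (n 2 (n 0 z (n 0 z (n 0 (n 8787755 z z) (n 0 z (n 0 (n 8733539 z z) (n 0
 (n 8732787 z (n 8869419 z z)) z)))))) (n 2 (n 0 z (n 0 z (n 0 z (n 0 z (n 0 z (n 0 z z)))))) (n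
 2 (n 0 z (n 0 z (n 0 z (n 0 z (n 0 z (n 0 z z)))))) z)))))))) (n 0 z (n 0 z (n 0 z (n 0 z
 z))))) (n 487 (n 0 z (n 0 z (n 0 z (n 0 z (n 0 z z))))) (n 487 (n 0 z (n 0 z (n 0 z (n 0 z (n 0
 z z))))) (n 63 (n 0 z (n 2 (n 0 z (n 2 (n 0 z (n 0 z (n 0 z (n 0 z (n 0 z (n 0 z z)))))) (n 2
 (n 0 z (n 0 z (n 0 z (n 0 z (n 0 z (n 0 z z)))))) (n 2 (n 0 z (n 0 z (n 0 z (n 0 z (n 0 z (n 0
 z z)))))) (n 2 (n 0 z (n 0 z (n 0 z (n 0 z (n 0 z (n 0 z z)))))) z))))) (n 0 z (n 0 z (n 0 z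
 z))))) (n 63 (n 0 z (n 0 z (n 0 z (n 0 z (n 0 z z))))) (n 113 (n 0 z (n 0 z (n 0 z (n 0 z (n 0
 z (n 0 z (n 0 z (n 0 z z)))))))) (n 113 (n 0 z (n 0 z (n 0 z (n 0 z (n 0 z (n 0 z (n 0 z (n 0 z
 z)))))))) (n 113 (n 0 z (n 0 z (n 2 (n 0 z z) (n 0 z (n 0 z (n 0 z (n 0 z (n 0 z z)))))))) (n
 113 (n 0 z (n 0 z (n 0 z (n 0 z (n 0 z (n 0 z (n 0 z (n 0 z z)))))))) z))))))))))) (n 0 (n 0 z
 (n 295 (n 0 z (n 0 z (n 0 z (n 0 z (n 0 z (n 0 z (n 0 z (n 0 z (n 0 z (n 0 z (n 0 z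
 z))))))))))) (n 295 (n 0 z (n 0 z (n 0 z (n 2 (n 0 z (n 2 (n 0 z (n 0 z (n 0 z (n 0 z (n 0 z (n
 0 z z)))))) (n 2 (n 0 z (n 0 z (n 0 z (n 0 z (n 0 z (n 0 z z)))))) (n 2 (n 0 z (n 0 z (n 0 z (n
 0 z (n 0 z (n 0 z z)))))) (n 2 (n 0 z (n 0 z (n 0 (n 8732771 z z) (n 0 z (n 0 (n 8717899 z z)
 (n 0 (n 8853035 z (n 8802931 z z)) z)))))) (n 2 (n 0 z (n 0 z (n 0 z (n 0 z (n 0 z (n 0 z
 z)))))) (n 2 (n 0 z (n 0 z (n 0 z (n 0 z (n 0 z (n 0 z z)))))) z))))))) (n 0 z (n 0 z (n 0 z (n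
 0 z (n 0 z (n 0 z (n 0 z z))))))))))) (n 295 (n 0 z (n 0 z (n 0 z (n 0 z (n 0 z (n 0 z (n 2 (n
 1 z (n 2 (n 0 z (n 0 z (n 0 z (n 0 z (n 0 z (n 0 z z)))))) (n 2 (n 0 z (n 0 z (n 0 z (n 0 z (n
 0 z (n 0 z z)))))) (n 2 (n 0 z (n 0 z (n 0 z (n 0 z (n 0 z (n 0 z z)))))) (n 2 (n 0 z (n 0 z (n
 0 z (n 0 z (n 0 z (n 0 z z)))))) (n 2 (n 0 z (n 0 z (n 0 z (n 0 z (n 0 z (n 0 z z)))))) z))))))
 (n 0 z (n 0 z (n 0 z (n 0 z z))))))))))) (n 15 (n 0 z (n 0 z (n 0 z (n 0 z (n 0 z (n 0 z (n 0 z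
 (n 0 z (n 0 z (n 0 z (n 0 z z))))))))))) (n 15 (n 0 z (n 0 z (n 0 z (n 0 z (n 0 z (n 0 z (n 0 z
 (n 0 z (n 0 z (n 0 z (n 0 z z))))))))))) (n 13 (n 0 z (n 0 z (n 0 z (n 2 (n 0 z (n 0 z (n 0 z
 z))) (n 0 z (n
 0x5d91d9000e14ec8ec2007837e807d807a807e84807d81797b8189837e868485827f827e7f7b7d837988817f7f7e7f7e81847e7f7e7d81847a807a81831009
 z (n 0 z (n 0 z (n 0 z (n 0 z (n 0 z (n 0 z (n 0 z (n 0 z (n 0 z (n 0 z (n 0 z (n 0 z (n 0 z (n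
 0 z (n 0 z (n 0 z (n 0 z (n 0 z (n 0 z (n 0 z (n 0 z (n 0 z (n 0 z (n 0 z (n 0 z (n 0 z (n 0 z
 (n 0 z (n 0 z (n 0 z (n 0 z (n 0 z (n 0 z (n 0 z (n 0 z (n 0 z (n 0 z (n 0 z (n 0 z (n 0 z
 z)))))))))))))))))))))))))))))))))))))))))))))) (n 13 (n 0 z (n 0 z (n 0 z (n 0 z (n 0 z (n 0 z
 (n 0 z (n 0 z (n 0 z (n 0 z (n 0 z (n 0 z (n 0 z (n 0 z (n 0 z (n 0 z (n 0 z (n 0 z (n 0 z (n 0
 z (n 0 z (n 0 z (n 0 z (n 0 z (n 0 z (n 0 z (n 0 z (n 0 z (n 0 z (n 0 z (n 0 z (n 0 z (n 0 z (n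
 0 z (n
 0x2ec8ec800380807f808080818081808180808180807f7f808080808181807f80818081808080808080807f8180808080808080808080800809
 z (n 0 z (n 0 z (n 0 z (n 0 z (n 0 z (n 0 z (n 0 z (n 0 z (n 0 z (n 0 z (n 0 z
 z)))))))))))))))))))))))))))))))))))))))))))))) (n 13 (n 0 z (n 0 z (n 0 z (n 0 z (n 0 z (n 0 z
 (n 0 z (n 0 z (n 0 z (n 0 z (n 0 z (n 0 z (n 0 z (n 0 z (n 0 z (n 0 z (n 0 z (n 0 z (n 0 z (n 0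
 z (n 0 z (n 0 z (n 0 z (n 0 z (n 0 z (n 0 z (n 0 z (n 0 z (n 0 z (n 0 z (n 2 (n 0 z z) (n 0 z
 (n 0 z (n 0 z (n 0 z (n 0 z (n 0 z (n 0 z (n 0 z (n 0 z (n 0 z (n 0 z (n 0 z (n 0 z (n 0 z (n 0
 z z)))))))))))))))))))))))))))))))))))))))))))))) (n 13 (n 0 z (n 0 z (n 0 z (n 0 z (n 0 z (n 0
 z (n 0 z (n 0 z (n 0 z (n 0 z (n 0 z (n 0 z (n 0 z (n 0 z (n 0 z (n 0 z (n 0 z (n 0 z (n 0 z (n
 0 z (n 0 z (n 0 z (n 0 z (n 0 z (n 0 z (n 0 z (n 0 z (n 2 z (n 0 z (n 0 z (n 0 z (n 0 z (n 0 z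
 (n 0 z (n 0 z (n 0 z (n 0 z (n 0 z (n 0 z (n 0 z (n 0 z (n 0 z (n 0 z (n 0 z (n 0 z (n 0 z
 z)))))))))))))))))))))))))))))))))))))))))))))) z)))))))))) (n 0 (n 267 (n 0 z (n 0 z (n 0 z (n
 2 (n 0 z (n 0 z (n 1 z (n 2 (n 0 z (n 0 z (n 0 z (n 0 z (n 0 z (n 0 z z)))))) (n 2 (n 0 z (n 0
 z (n 0 z (n 0 z (n 0 z (n 0 z z)))))) (n 2 (n 0 (n 68 z z) (n 0 (n 68 z z) (n 0 z (n 0 z (n 0 z
 (n 0 (n 8869419 z (n 8869419 z z)) z)))))) (n 2 (n 0 z (n 0 z (n 0 z (n 0 z (n 0 z (n 0 z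
 z)))))) (n 2 (n 0 z (n 0 z (n 0 z (n 0 z (n 0 z (n 0 (n 8787003 z z) z)))))) z)))))))) (n 0 z
 (n 0 z (n 0 z z))))))) (n 267 (n 0 z (n 0 z (n 0 z (n 0 z (n 0 z (n 0 z (n 0 z z))))))) (n 267
 (n 0 z (n 0 z (n 0 z (n 0 z (n 0 z (n 0 z (n 0 z z))))))) (n 15 (n 2 (n 0 z (n 2 (n 0 z (n 0 z
 (n 0 z (n 0 z (n 0 z (n 0 z z)))))) (n 2 (n 0 z (n 0 z (n 0 z (n 0 z (n 0 z (n 0 z z)))))) (n 2
 (n 0 z (n 0 z (n 0 z (n 0 z (n 0 z (n 0 z z)))))) (n 2 (n 0 z (n 0 z (n 0 z (n 0 z (n 0 z (n 0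
 z z)))))) z))))) (n 0 z (n 0 z (n 0 z (n 0 z z))))) (n 15 (n 0 z (n 0 z (n 0 z (n 0 z (n 0 z
 z))))) (n 17 (n 0 z (n 0 z (n 0 z (n 0 z (n 0 z (n 0 z (n 0 z (n 0 z (n 0 z (n 0 z (n 0 z (n 0
 z (n 0 z (n 0 z (n 0 z z))))))))))))))) (n 17 (n 0 z (n 0 z (n 0 z (n 0 z (n 0 z (n 0 z (n 0 z
 (n 0 z (n 0 z (n 0 z (n 0 z (n 0 z (n 0 z (n 0 z (n 0 z z))))))))))))))) (n 17 (n 0 z (n 0 z (n
 0 z (n 0 z (n 2 (n 0 z z) (n 0 z (n 0 z (n 0 z (n 0 z (n 0 z (n 0 z (n 0 z (n 0 z (n 0 z (n 0 z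
 z))))))))))))))) (n 17 (n 0 z (n 0 z (n 0 z (n 0 z (n 0 z (n 0 z (n 0 z (n 0 z (n 0 z (n 0 z (n
 0 z (n 0 z (n 0 z (n 0 z (n 0 z z))))))))))))))) z))))))))) (n 0 (n 0 z (n 0 z (n 291 (n 0 z (n
 0 z (n 0 z (n 0 z (n 0 z (n 0 z (n 0 z (n 0 z (n 0 z (n 0 z (n 0 z (n 0 z z)))))))))))) (n 291
 (n 0 z (n 0 z (n 0 z (n 0 z (n 0 z (n 0 z (n 0 z (n 0 z (n 0 z (n 0 z (n 0 z (n 0 z
 z)))))))))))) (n 289 (n 0 z (n 0 z (n 0 z (n 0 z (n 2 (n 0 z (n 0 z (n 0 z z))) (n 0 z (n 0 z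
 (n 0 z (n 0 z (n 0 z (n 0 z (n 0 z (n 0 z (n 0 z (n 0 z (n 0 z (n 0 z (n 0 z (n 0 z (n 0 z (n 0
 z (n 0 z (n 0 z (n 0 z (n 0 z (n 0 z (n 0 z (n 0 z (n 0 z (n 0 z (n 0 z (n 0 z (n 0 z (n 0 z (n
 0 z (n 0 z (n 0 z (n 0 z (n 0 z (n 0 z (n 0 z (n 0 z (n 0 z (n 0 z (n 0 z (n 0 z (n 0 z
 z))))))))))))))))))))))))))))))))))))))))))))))) (n 289 (n 0 z (n 0 z (n 0 z (n 0 z (n 0 z (n 0
 z (n 0 z (n 0 z (n 0 z (n 0 z (n 0 z (n 0 z (n 0 z (n 0 z (n 0 z (n 0 z (n 0 z (n 0 z (n 0 z (n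
 0 z (n 0 z (n 0 z (n 0 z (n 0 z (n 0 z (n 0 z (n 0 z (n 0 z (n 0 z (n 0 z (n 0 z (n 0 z (n 0 z
 (n 0 z (n 0 z (n 0 z (n 0 z (n 0 z (n 0 z (n 0 z (n 0 z (n 0 z (n 0 z (n 0 z (n 0 z (n 0 z (n 0
 z z))))))))))))))))))))))))))))))))))))))))))))))) (n 289 (n 0 z (n 0 z (n 0 z (n 0 z (n 0 z (n
 0 z (n 0 z (n 0 z (n 0 z (n 0 z (n 0 z (n 0 z (n 0 z (n 0 z (n 0 z (n 0 z (n 0 z (n 0 z (n 0 z
 (n 0 z (n 0 z (n 0 z (n 0 z (n 0 z (n 0 z (n 0 z (n 0 z (n 0 z (n 0 z (n 0 z (n 0 z (n 0 z (n 2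
 (n 0 z z) (n 0 z (n 0 z (n 0 z (n 0 z (n 0 z (n 0 z (n 0 z (n 0 z (n 0 z (n 0 z (n 0 z (n 0 z
 (n 0 z (n 0 z z))))))))))))))))))))))))))))))))))))))))))))))) (n 289 (n 0 z (n 0 z (n 0 z (n 0
 z (n 0 z (n 0 z (n 0 z (n 0 z (n 0 z (n 0 z (n 0 z (n 0 z (n 0 z (n 0 z (n 0 z (n 0 z (n 0 z (n
 0 z (n 0 z (n 0 z (n 0 z (n 0 z (n 0 z (n 0 z (n 0 z (n 0 z (n 2 z (n 0 z (n 0 z (n 0 z (n 0 z
 (n 0 z (n 0 z (n 0 z (n 0 z (n 0 z (n 0 z (n 0 z (n 0 z (n 0 z (n 0 z (n 0 z (n 0 z (n 0 z (n 0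
 z (n 0 z (n 0 z z))))))))))))))))))))))))))))))))))))))))))))))) z)))))))) (n 0 (n 0 z (n 243
 (n 0 z (n 0 z (n 0 z (n 0 z (n 0 z (n 0 z (n 0 z (n 0 z (n 0 z (n 0 z (n 0 z (n 0 z (n 0 z (n 0
 z (n 0 z (n 0 z (n 0 z (n 0 z z)))))))))))))))))) (n 243 (n 0 z (n 0 z (n 0 z (n 0 z (n 0 z (n
 0 z (n 0 z (n 0 z (n 0 z (n 0 z (n 0 z (n 0 z (n 0 z (n 0 z (n 0 z (n 0 z (n 0 z (n 0 z
 z)))))))))))))))))) (n 245 (n 0 z (n 0 z (n 0 z (n 0 z (n 0 z (n 0 z (n 0 z (n 0 z z)))))))) (n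
 245 (n 0 z (n 0 z (n 0 z (n 0 z (n 0 z (n 0 z (n 0 z (n 0 z z)))))))) (n 245 (n 0 z (n 0 z (n 0
 z (n 0 z (n 0 z (n 0 z (n 0 z (n
 0x2ea8c864037f7f82877f82848d778081877f7f787e7b8380857a7f79807f8a8382837b827f7b8780897f7f81867e7f82807d7c7f827f7c0809
 z z)))))))) (n 245 (n 0 z (n 0 z (n 0 z (n 0 z (n 0 z (n 0 z (n 0 z (n 0 z z)))))))) z)))))))
 (n 0 (n 531 (n 2 (n 0 z (n 2 (n 0 z (n 0 z (n 0 z (n 0 z (n 0 z (n 0 z z)))))) (n 2 (n 0 z (n 0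
 z (n 0 z (n 0 z (n 0 z (n 0 z z)))))) (n 2 (n 0 z (n 0 z (n 0 z (n 0 z (n 0 z (n 0 z z)))))) (n
 2 (n 0 z (n 0 z (n 0 z (n 0 z (n 0 z (n 0 z z)))))) z))))) (n 0 z (n 0 z (n 0 z z)))) (n 531 (n
 0 z (n 0 z (n 0 z (n 0 z z)))) (n 245 (n 0 z (n 0 z (n 0 z (n 0 z (n 0 z (n 0 z (n 0 z (n 0 z
 (n 0 z (n 0 z (n 0 z (n 0 z (n 0 z (n 0 z (n 0 z (n 0 z (n 0 z (n 0 z (n 0 z (n 0 z (n 0 z (n 0
 z (n 0 z z))))))))))))))))))))))) (n 245 (n 0 z (n 0 z (n 0 z (n 0 z (n 0 z (n 0 z (n 0 z (n 0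
 z (n 0 z (n 0 z (n 0 z (n 0 z (n 0 z (n 0 z (n 0 z (n 0 z (n 0 z (n 0 z (n 0 z (n 0 z (n 0 z (n
 0 z (n 0 z z))))))))))))))))))))))) (n 245 (n 0 z (n 0 z (n 0 z (n 0 z (n 0 z (n 2 (n 0 z z) (n
 0 z (n 0 z (n 0 z (n 0 z (n 0 z (n 0 z (n 0 z (n 0 z (n 0 z (n 0 z (n 0 z (n 0 z (n 0 z (n 0 z
 (n 0 z (n 0 z (n 0 z z))))))))))))))))))))))) (n 245 (n 0 z (n 0 z (n 0 z (n 0 z (n 0 z (n 0 z
 (n 0 z (n 0 z (n 0 z (n 0 z (n 0 z (n 0 z (n 0 z (n 0 z (n 0 z (n 0 z (n 0 z (n 0 z (n 0 z (n 0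
 z (n 0 z (n 0 z (n 0 z z))))))))))))))))))))))) z)))))) (n 0 (n 0 z (n 293 (n 0 z (n 2 (n 0 z
 (n 0 z (n 0 z z))) (n 0 z (n 0 z (n 0 z (n 0 z (n 0 z (n 0 z (n 0 z (n 0 z (n 0 z (n 0 z (n 0 z
 (n 0 z (n 0 z (n 0 z (n 0 z (n 0 z (n 0 z (n 0 z (n 0 z (n 0 z (n 0 z (n 0 z (n 0 z (n 0 z (n 0
 z (n 0 z (n 0 z (n 0 z (n 0 z (n 0 z (n 0 z (n 0 z (n 0 z (n 0 z (n 0 z (n 0 z (n 0 z (n 0 z (n
 0 z (n 0 z (n 0 z (n 0 z (n 0 z (n 0 z (n 0 z (n 0 z (n 0 z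
 z))))))))))))))))))))))))))))))))))))))))))))))))) (n 293 (n 0 z (n 0 z (n 0 z (n 0 z (n 0 z (n
 0 z (n 0 z (n 0 z (n 0 z (n 0 z (n 0 z (n 0 z (n 0 z (n 0 z (n 0 z (n 0 z (n 0 z (n 0 z (n 0 z
 (n 0 z (n 0 z (n 0 z (n 0 z (n 0 z (n 0 z (n 0 z (n 0 z (n 0 z (n 0 z (n 0 z (n 0 z (n 0 z (n 0
 z (n 0 z (n 0 z (n 0 z (n 0 z (n 0 z (n 0 z (n 0 z (n 0 z (n 0 z (n 0 z (n 0 z (n 0 z (n 0 z (n
 0 z (n 0 z (n 0 z z))))))))))))))))))))))))))))))))))))))))))))))))) (n 293 (n 0 z (n 0 z (n 0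
 z (n 0 z (n 0 z (n 0 z (n 0 z (n 0 z (n 0 z (n 0 z (n 0 z (n 0 z (n 2 (n 0 z z) (n 0 z (n 0 z
 (n 0 z (n 0 z (n 0 z (n 0 z (n 0 z (n 0 z (n 0 z (n 0 z (n 0 z (n 0 z (n 0 z (n 0 z (n 0 z (n 0
 z (n 0 z (n 0 z (n 0 z (n 0 z (n 0 z (n 0 z (n 0 z (n 0 z (n 0 z (n 0 z (n 0 z (n 0 z (n 0 z (n
 0 z (n 0 z (n 0 z (n 0 z (n 0 z (n 0 z (n 0 z
 z))))))))))))))))))))))))))))))))))))))))))))))))) (n 293 (n 0 z (n 0 z (n 0 z (n 0 z (n 0 z (n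
 0 z (n 0 z (n 0 z (n 0 z (n 0 z (n 0 z (n 0 z (n 0 z (n 0 z (n 0 z (n 0 z (n 0 z (n 0 z (n 0 z
 (n 2 z (n 0 z (n 0 z (n 0 z (n 0 z (n 0 z (n 0 z (n 0 z (n 0 z (n 0 z (n 0 z (n 0 z (n 0 z (n 0
 z (n 0 z (n 0 z (n 0 z (n 0 z (n 0 z (n 0 z (n 0 z (n 0 z (n 0 z (n 0 z (n 0 z (n 0 z (n 0 z (n
 0 z (n 0 z (n 0 z z))))))))))))))))))))))))))))))))))))))))))))))))) z))))) (n 0 (n 1 (n 0 z (n
 0 z (n 0 z (n 0 z (n 0 z (n 0 z (n 0 z (n 0 z (n 0 z (n 0 z (n 0 z (n 0 z z)))))))))))) (n 1 (n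
 0 z (n 0 z (n 0 z (n 0 z (n 0 z (n 0 z (n 0 z (n 0 z (n 0 z (n 0 z (n 0 z (n 0 z z))))))))))))
 (n 1 (n 0 z (n 0 z (n 0 z (n 0 z (n 0 z (n 0 z (n 0 z (n 0 z (n 0 z (n 0 z (n
 0x2ea6c86403837d81847e827f837e817e8380837c807e7f8084807f7a7c80838080818081807f808081847f807f80807e7e7e817f7f81800809
 z (n 0 z z)))))))))))) (n 1 (n 0 z (n 0 z (n 0 z (n 0 z (n 0 z (n 0 z (n 0 z (n 0 z (n 0 z (n 0
 z (n 0 z (n 0 z z)))))))))))) z)))) (n 0 (n 0 z (n 0 z (n 0 z z))) (n 0 (n 0 z (n 0 z z)) (n 0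
 (n 0 z z) (n 0 z z))))))))))))))) (n 0 (n 1 (n 6496515 z (n 6496515 z (n 6496515 z (n 6496515 z
 (n 6496515 z (n 6496515 z z)))))) (n 1 (n 6496515 z (n 6496515 z (n 6496515 z (n 6496515 z (n
 6496515 z (n 6496515 z z)))))) (n 1 (n 1228 z (n 6554395 z (n 1228 z (n 76 z (n 1228 z (n 1228
 z z)))))) (n 1 (n 1228 z (n 1228 z (n 12 z (n 1228 z (n 5517667 z (n 1228 z z)))))) z)))) (n 0
 z z)))) (n 0x4451a1944d80a26480a2dd0a371904a7588d48882632812eb41984e604651024450099b00 (n 0 (n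
 183 (n 6619675 z (n
 0x2ca8c864078608217607a182075d89f8208a08e08208617e081f75f85d8218228607a18208208a281e8200801 z
 (n 2 z (n
 0x2ca8ca240381f7e07e082082082086081f8208208207e08218207e08208208208208208208208208208210801 z
 (n 10 z (n 18 z (n
 0x6ca4ca420372079e7a082282086289e89e8df8e08a08238208217e085d9a085f8207dd8607a07608218200801 z
 (n 26 z (n
 0x2ca8ca240385f7a07e082081f7e089f7e08608208208208608607a08207e08208607e18208208208207e00801 z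
 (n 3282443 z (n 5510667 z (n 0 z (n
 0xca8ca840381f7a082082082082086081f8208208207e08208207e08208208208208218208208208608200801 z
 z))))))))))))) (n 33 (n 0 z (n 0 z (n 34 z (n 0 z (n 42 z (n 0 z (n 0 z (n 50 z (n 6562131 z
 z))))))))) (n 129 (n 58 z (n 66 z (n 0 z (n 6562131 z z)))) (n 3 (n 0 z (n 6632475 z (n 74 z (n
 0 z (n 82 z z))))) (n 1 (n 90 z (n 0 z (n 6562131 z (n 6562131 z z)))) (n 0 (n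
 0x465443120180ca886040789b7647e28208db85f96b72495e8a57a26ab7e05e88228567dc82679f6239a556181f91d6651001
 z (n 98 z (n
 0x2ca886040381f82182081f7e081f8608208208208207e08218608208208608208208208208208208208200801 z
 (n 106 z (n 6619675 z (n 6619675 z (n
 0x4c86c864038207de82082282082079e89e89e8208207a081e92082089e82082082082081e8a07a28208200801 z
 (n
 0x65443120180ca886040389f8217e079f7e07a08217a186082086085f8218207e081f81e8208608208218608208208201001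
 z z)))))))) z)))))) (n 129 (n 0 (n 0 z (n 0 z (n 0 z (n 755 (n 2 (n 0 z (n 0 z (n 1 z (n 2 (n 0
 z (n 0 z (n 0 z (n 0 z (n 0 z (n 0 z z)))))) (n 1 z (n 2 (n 0 z (n 0 z (n 0 z (n 0 z (n 0 z (n
 0 z z)))))) (n 2 (n 0 z (n 0 z (n 0 z (n 0 z (n 0 z (n 0 z z)))))) (n 2 (n 0 z (n 0 z (n 0 z (n
 0 z (n 0 z (n 0 z z)))))) (n 2 (n 0 z (n 0 z (n 0 z (n 0 z (n 0 z (n 0 z z)))))) z))))))))) (n
 0 z (n 0 z (n 0 z (n 0 z (n 0 z (n 0 z (n 0 z (n 0 z (n 0 z (n 0 z (n 0 z (n 0 z (n 0 z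
 z)))))))))))))) (n 755 (n 0 z (n 2 (n 0 z (n 1 z (n 2 (n 0 z (n 0 z (n 0 z (n 0 z (n 0 z (n 0 z
 z)))))) (n 2 (n 0 z (n 0 z (n 0 z (n 0 z (n 0 z (n 0 z z)))))) (n 2 (n 0 z (n 0 z (n 0 z (n 0 z
 (n 0 z (n 0 z z)))))) (n 2 (n 0 z (n 0 z (n 0 z (n 0 z (n 0 z (n 0 z z)))))) (n 2 (n 0 z (n 0 z
 (n 0 z (n 0 z (n 0 z (n 0 (n 8855811 z z) z)))))) (n 2 (n 0 z (n 0 z (n 0 z (n 0 z (n 0 z (n 0
 z z)))))) z)))))))) (n 0 z (n 0 z (n 0 z (n 0 z (n 0 z (n 0 z (n 0 z (n 0 z (n 0 z (n 0 z (n 0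
 z (n 0 z z)))))))))))))) (n 755 (n 0 z (n 0 z (n 0 z (n 0 z (n 0 z (n 0 z (n 0 z (n 0 z (n 0 z
 (n 0 z (n 0 z (n 0 z (n 0 z (n 0 z z)))))))))))))) (n 747 (n 0 z (n 0 z (n 2 (n 0 z (n 1 z (n 2
 (n 0 z (n 0 z (n 0 z (n 0 z (n 0 z (n 0 z z)))))) (n 2 (n 0 z (n 0 z (n 0 z (n 0 z (n 0 z (n 0
 z z)))))) (n 2 (n 0 z (n 0 z (n 0 z (n 0 z (n 0 z (n 0 z z)))))) (n 2 (n 0 z (n 0 z (n 0 z (n 0
 z (n 0 z (n 0 z z)))))) z)))))) (n 0 z (n 0 z (n 0 z (n 0 z (n 0 z (n 0 z (n 0 z (n 0 z (n 0 z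
 z)))))))))))) (n 747 (n 0 z (n 0 z (n 0 z (n 0 z (n 2 (n 2 (n 0 z (n 0 z (n 0 z (n 0 z (n 0 z
 (n 0 z z)))))) (n 2 (n 0 z (n 0 z (n 0 z (n 0 z (n 0 z (n 0 z z)))))) (n 1 z (n 1 z (n 2 (n 0 z
 (n 0 z (n 0 z (n 0 z (n 0 z (n 0 z z)))))) z))))) (n 0 z (n 0 z (n 0 z (n 0 z (n 0 z (n 0 z (n
 0 z z)))))))))))) (n 1011 (n 2 (n 0 z (n 2 (n 0 z (n 0 z (n 0 z (n 0 z (n 0 z (n 0 z z)))))) (n
 2 (n 0 z (n 0 z (n 0 z (n 0 z (n 0 z (n 0 z z)))))) (n 2 (n 0 z (n 0 z (n 0 z (n 0 z (n 0 z (n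
 0 z z)))))) z)))) (n 0 z (n 0 z (n 0 z (n 0 z (n 0 z (n 0 z (n 0 z (n 0 z (n 0 z (n 0 z (n 0 z
 (n 0 z z))))))))))))) (n 1011 (n 0 z (n 0 z (n 0 z (n 0 z (n 0 z (n 0 z (n 0 z (n 0 z (n 0 z (n
 0 z (n 0 z (n 0 z (n 0 z z))))))))))))) (n 133 (n 0 z (n 0 z (n 2 (n 1 z (n 2 (n 0 z (n 0 z (n
 0 z (n 0 z (n 0 z (n 0 z z)))))) z)) (n 0 z (n 0 z (n 0 z (n 0 z (n 0 z (n 0 z (n 0 z (n 0 z (n
 0 z (n 0 z z))))))))))))) (n 745 (n 2 (n 0 z z) (n 0 z (n 0 z (n 0 z (n 0 z (n 0 z (n 0 z (n 0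
 z (n 0 z (n 0 z (n 0 z z))))))))))) (n 745 (n 0 z (n 0 z (n 0 z (n 0 z (n 0 z (n 0 z (n 0 z (n
 0 z (n 0 z (n 0 z (n 0 z z))))))))))) z))))))))))))) (n 0 (n 0 z (n 0 z (n 67 (n 0 z (n 0 z (n
 2 (n 0 z (n 0 z (n 1 z (n 2 (n 0 z (n 0 z (n 0 z (n 0 z (n 0 z (n 0 z z)))))) (n 2 (n 0 z (n 0
 z (n 0 z (n 0 z (n 0 z (n 0 (n 8868419 z z) z)))))) (n 2 (n 0 z (n 0 z (n 0 z (n 0 z (n 0 z (n
 0 z z)))))) (n 2 (n 0 z (n 0 z (n 0 z (n 0 z (n 0 z (n 0 z z)))))) (n 2 (n 0 z (n 0 z (n 0 z (n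
 0 z (n 0 z (n 0 z z)))))) (n 2 (n 0 z (n 0 z (n 0 z (n 0 z (n 0 z (n 0 z z)))))) z))))))))) (n
 0 z (n 0 z (n 0 z z)))))) (n 67 (n 0 z (n 0 z (n 0 z (n 0 z (n 0 z (n 0 z z)))))) (n 67 (n 0 z
 (n 0 z (n 0 z (n 0 z (n 0 z (n 0 z z)))))) (n 775 (n 0 z (n 2 (n 0 z (n 2 (n 0 z (n 0 z (n 0 z
 (n 0 z (n 0 z (n 0 z z)))))) (n 2 (n 0 z (n 0 z (n 0 z (n 0 z (n 0 z (n 0 z z)))))) (n 2 (n 0 z
 (n 0 z (n 0 z (n 0 z (n 0 z (n 0 z z)))))) (n 2 (n 0 z (n 0 z (n 0 z (n 0 z (n 0 z (n 0 z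
 z)))))) (n 2 (n 0 z (n 0 z (n 0 z (n 0 z (n 0 z (n 0 z z)))))) z)))))) (n 0 z (n 0 z (n 0 z (n
 0 z (n 0 z (n 0 z z)))))))) (n 775 (n 0 z (n 0 z (n 0 z (n 0 z (n 0 z (n 0 z (n 0 z (n 0 z
 z)))))))) (n 55 (n 0 z (n 0 z (n 0 z (n 2 (n 0 z (n 2 (n 0 z (n 0 z (n 0 z (n 0 z (n 0 z (n 0 z
 z)))))) (n 2 (n 0 z (n 0 z (n 0 z (n 0 z (n 0 z (n 0 z z)))))) (n 2 (n 0 z (n 0 z (n 0 z (n 0 z
 (n 0 z (n 0 z z)))))) z)))) (n 0 z (n 0 z (n 0 z (n 0 z (n 0 z (n 0 z (n 0 z z))))))))))) (n 55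
 (n 0 z (n 0 z (n 0 z (n 0 z (n 0 z (n 0 z (n 0 z (n 0 z (n 0 z (n 0 z (n 0 z z))))))))))) (n 51
 (n 0 z (n 0 z (n 0 z (n 0 z (n 0 z (n 0 z (n 0 z (n 0 z (n 0 z (n 0 z (n 0 z z))))))))))) (n 49
 (n 0 z (n 0 z (n 0 z (n 0 z (n 0 z (n 0 z (n 0 z (n 0 z (n 0 z (n 0 z (n 0 z (n 0 z
 z)))))))))))) (n 49 (n 0 z (n 0 z (n 0 z (n 0 z (n 0 z (n 0 z (n 0 z (n 0 z (n 0 z (n 0 z (n 0
 z (n 0 z z)))))))))))) z)))))))))))) (n 0 (n 0 z (n 755 (n 0 z (n 0 z (n 0 z (n 2 (n 0 z (n 0 z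
 (n 1 z (n 2 (n 0 z (n 0 z (n 0 z (n 0 z (n 0 z (n 0 (n 8799003 z z) z)))))) (n 1 z (n 2 (n 0 z
 (n 0 z (n 0 z (n 0 z (n 0 z (n 0 z z)))))) (n 2 (n 0 z (n 0 z (n 0 z (n 0 z (n 0 z (n 0 z
 z)))))) (n 1 z (n 2 (n 0 z (n 0 z (n 0 z (n 0 z (n 0 z (n 0 (n 8799003 z z) z)))))) z)))))))))
 (n 0 z (n 0 z (n 0 z (n 0 z (n 0 z (n 0 z (n 0 z (n 0 z (n 0 z (n 0 z (n 0 z (n 0 z (n 0 z (n 0
 z (n 0 z (n 0 z z)))))))))))))))))))) (n 755 (n 0 z (n 0 z (n 0 z (n 0 z (n 0 z (n 0 z (n 0 z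
 (n 0 z (n 0 z (n 0 z (n 0 z (n 0 z (n 0 z (n 0 z (n 0 z (n 0 z (n 0 z (n 0 z (n 0 z (n 0 z
 z)))))))))))))))))))) (n 755 (n 0 z (n 0 z (n 0 z (n 0 z (n 0 z (n 0 z (n 0 z (n 0 z (n 0 z (n
 0 z (n 0 z (n 0 z (n 0 z (n 0 z (n 0 z (n 0 z (n 0 z (n 0 z (n 0 z (n 0 z z))))))))))))))))))))
 (n 103 (n 0 z (n 0 z (n 0 z (n 0 z (n 2 (n 0 z (n 1 z (n 2 (n 0 z (n 0 z (n 0 z (n 0 z (n 0 z
 (n 0 z z)))))) (n 2 (n 0 z (n 0 z (n 0 z (n 0 z (n 0 z (n 0 z z)))))) (n 2 (n 0 z (n 0 z (n 0 z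
 (n 0 z (n 0 z (n 0 (n 8799003 z z) z)))))) (n 2 (n 0 z (n 0 z (n 0 z (n 0 z (n 0 z (n 0 z
 z)))))) z)))))) (n 0 z (n 0 z (n 0 z (n 0 z (n 0 z (n 0 z (n 0 z (n 0 z (n 0 z (n 0 z
 z))))))))))))))) (n 103 (n 0 z (n 0 z (n 0 z (n 0 z (n 0 z (n 0 z (n 0 z (n 0 z (n 0 z (n 0 z
 (n 0 z (n 0 z (n 0 z (n 0 z (n 0 z z))))))))))))))) (n 7 (n 0 z (n 0 z (n 0 z (n 0 z (n 2 (n 0
 z (n 2 (n 0 z (n 0 z (n 0 z (n 0 z (n 0 z (n 0 z z)))))) (n 2 (n 0 z (n 0 z (n 0 z (n 0 z (n 0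
 z (n 0 z z)))))) (n 2 (n 0 z (n 0 z (n 0 z (n 0 z (n 0 z (n 0 z z)))))) z)))) (n 0 z (n 0 z (n
 0 z (n 0 z (n 0 z (n 0 z (n 0 z (n 0 z (n 0 z z)))))))))))))) (n 7 (n 0 z (n 0 z (n 0 z (n 0 z
 (n 0 z (n 0 z (n 0 z (n 0 z (n 0 z (n 0 z (n 0 z (n 0 z (n 0 z (n 0 z z)))))))))))))) (n 15 (n
 0 z (n 0 z (n 0 z (n 0 z (n 0 z (n 0 z (n 0 z (n 0 z (n 0 z (n 0 z (n 0 z (n 0 z z))))))))))))
 (n 13 (n 0 z (n 0 z (n 0 z (n 0 z (n 0 z (n 0 z (n 0 z (n 0 z (n 0 z (n 0 z (n 0 z (n 0 z (n 0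
 z (n 0 z z)))))))))))))) (n 13 (n 0 z (n 0 z (n 0 z (n 0 z (n 0 z (n 0 z (n 0 z (n 0 z (n 0 z
 (n 0 z (n 0 z (n 0 z (n 0 z (n 0 z z)))))))))))))) z))))))))))) (n 0 (n 131 (n 0 z (n 0 z (n 0
 z (n 0 z (n 0 z z))))) (n 131 (n 0 z (n 0 z (n 0 z (n 0 z (n 0 z z))))) (n 131 (n 0 z (n 0 z (n
 0 z (n 0 z (n 0 z z))))) (n 123 (n 0 z (n 0 z (n 0 z (n 0 z (n 0 z (n 0 z (n 0 z (n 0 z (n 0 z
 (n 0 z (n 0 z (n 0 z (n 0 z (n 0 z (n 0 z z))))))))))))))) (n 123 (n 0 z (n 0 z (n 0 z (n 0 z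
 (n 0 z (n 0 z (n 0 z (n 0 z (n 0 z (n 0 z (n 0 z (n 0 z (n 0 z (n 0 z (n 0 z z)))))))))))))))
 (n 969 (n 0 z (n 0 z (n 0 z (n 0 z (n 0 z z))))) (n 969 (n 0 z (n 0 z (n 0 z (n 0 z (n 0 z
 z))))) (n 729 (n 0 z (n 0 z (n 0 z (n 0 z (n 0 z (n 0 z (n 0 z z))))))) (n 121 (n 0 z (n 0 z (n
 0 z (n 0 z (n 0 z (n 0 z z)))))) (n 121 (n 0 z (n 0 z (n 0 z (n 0 z (n 0 z (n 0 z z))))))
 z)))))))))) (n 0 (n 0 z (n 0 z (n 867 (n 0 z (n 0 z (n 0 z (n 0 z (n 0 z (n 0 z z)))))) (n 867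
 (n 0 z (n 0 z (n 2 (n 1 z (n 2 (n 0 z (n 0 z (n 0 z (n 0 z (n 0 z (n 0 z z)))))) (n 2 (n 0 z (n
 0 z (n 0 z (n 0 z (n 0 z (n 0 (n 8855811 z z) z)))))) (n 1 z (n 2 (n 0 z (n 0 z (n 0 z (n 0 z
 (n 0 z (n 0 z z)))))) z))))) (n 0 z (n 0 z (n 0 z z)))))) (n 487 (n 0 z (n 0 z (n 0 z (n 0 z (n
 0 z z))))) (n 487 (n 0 z (n 0 z (n 0 z (n 0 z (n 0 z z))))) (n 483 (n 0 z (n 2 (n 1 z (n 2 (n 0
 z (n 0 z (n 0 z (n 0 z (n 0 z (n 0 (n 8855811 z z) z)))))) z)) (n 0 z (n 0 z (n 0 z (n 0 z (n 0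
 z z))))))) (n 481 (n 0 z (n 0 z (n 0 z (n 2 (n 0 z z) (n 0 z (n 0 z (n 0 z (n 0 z (n 0 z (n 0 z
 (n 0 z (n 0 z z)))))))))))) (n 481 (n 0 z (n 0 z (n 0 z (n 0 z (n 2 z (n 0 z (n 0 z (n 0 z (n 0
 z (n 0 z (n 0 z (n 0 z z)))))))))))) z))))))))) (n 0 (n 0 z (n 343 (n 0 z (n 0 z (n 0 z (n 2 (n
 0 z (n 1 z (n 2 (n 0 z (n 0 z (n 0 z (n 0 z (n 0 z (n 0 z z)))))) (n 2 (n 0 z (n 0 z (n 0 z (n
 0 z (n 0 z (n 0 z z)))))) (n 2 (n 0 z (n 0 z (n 0 z (n 0 z (n 0 z (n 0 (n 8790275 z z) z))))))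
 (n 2 (n 0 z (n 0 z (n 0 z (n 0 z (n 0 z (n 0 z z)))))) z)))))) (n 0 z (n 0 z (n 0 z (n 0 z (n 0
 z (n 0 z z)))))))))) (n 343 (n 0 z (n 0 z (n 0 z (n 0 z (n 0 z (n 0 z (n 0 z (n 0 z (n 0 z (n 0
 z z)))))))))) (n 7 (n 0 z (n 0 z (n 2 (n 0 z (n 2 (n 0 z (n 0 z (n 0 z (n 0 z (n 0 z (n 0 z
 z)))))) (n 2 (n 0 z (n 0 z (n 0 z (n 0 z (n 0 z (n 0 z z)))))) (n 2 (n 0 z (n 0 z (n 0 z (n 0 z
 (n 0 z (n 0 z z)))))) z)))) (n 0 z (n 0 z z))))) (n 7 (n 0 z (n 0 z (n 0 z (n 0 z (n 0 z z)))))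
 (n 3 (n 0 z (n 0 z (n 0 z (n 0 z (n 0 z (n 0 z (n 0 z (n 0 z (n 0 z (n 0 z (n 0 z z)))))))))))
 (n 1 (n 0 z (n 0 z (n 0 z (n 0 z (n 0 z (n 0 z (n 0 z (n 0 z (n 0 z (n 0 z (n 0 z z)))))))))))
 (n 1 (n 0 z (n 0 z (n 0 z (n 0 z (n 0 z (n 0 z (n 0 z (n 0 z (n 0 z (n 0 z (n 0 z z)))))))))))
 z)))))))) (n 0 (n 259 (n 0 z (n 0 z (n 0 z (n 2 (n 0 z (n 2 (n 0 z (n 0 z (n 0 z (n 0 z (n 0 z
 (n 0 z z)))))) (n 2 (n 0 z (n 0 z (n 0 z (n 0 z (n 0 z (n 0 z z)))))) (n 2 (n 0 z (n 0 z (n 0 z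
 (n 0 z (n 0 z (n 0 z z)))))) (n 2 (n 0 z (n 0 z (n 0 z (n 0 z (n 0 z (n 0 z z)))))) (n 2 (n 0 z
 (n 0 z (n 0 z (n 0 z (n 0 z (n 0 z z)))))) z)))))) (n 0 z (n 0 z (n 0 z (n 0 z (n 0 z (n 0 z (n
 0 z z))))))))))) (n 259 (n 0 z (n 0 z (n 0 z (n 0 z (n 0 z (n 0 z (n 0 z (n 0 z (n 0 z (n 0 z
 (n 0 z z))))))))))) (n 247 (n 0 z (n 0 z (n 0 z (n 0 z (n 0 z (n 0 z (n 0 z (n 0 z (n 0 z (n 0
 z (n 0 z (n 0 z (n 0 z (n 0 z (n 0 z (n 0 z (n 0 z (n 0 z z)))))))))))))))))) (n 247 (n 0 z (n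
 0 z (n 0 z (n 0 z (n 0 z (n 0 z (n 0 z (n 0 z (n 0 z (n 0 z (n 0 z (n 0 z (n 0 z (n 0 z (n 0 z
 (n 0 z (n 0 z (n 0 z z)))))))))))))))))) (n 243 (n 0 z (n 0 z (n 0 z (n 0 z (n 0 z (n 0 z (n 0
 z (n 0 z z)))))))) (n 241 (n 0 z (n 0 z (n 0 z (n 0 z (n 0 z (n 0 z (n 0 z (n 0 z z)))))))) (n
 241 (n 0 z (n 0 z (n 0 z (n 0 z (n 0 z (n 0 z (n 0 z (n 0 z z)))))))) z))))))) (n 0 (n 0 z (n
 267 (n 0 z (n 0 z (n 0 z (n 0 z (n 0 z z))))) (n 267 (n 0 z (n 0 z (n 0 z (n 0 z (n 0 z z)))))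
 (n 255 (n 0 z (n 0 z (n 0 z (n 2 (n 2 (n 0 z (n 0 z (n 0 z (n 0 z (n 0 z (n 0 (n 8855811 z z)
 z)))))) (n 2 (n 0 z (n 0 z (n 0 z (n 0 z (n 0 z (n 0 z z)))))) z)) (n 0 z (n 0 z (n 0 z
 z))))))) (n 257 (n 0 z (n 0 z (n 2 (n 0 z z) (n 0 z (n 0 z (n 0 z (n 0 z (n 0 z (n 0 z (n 0 z
 (n 0 z (n 0 z (n 0 z (n 0 z (n 0 z (n 0 z (n 0 z (n 0 z (n 0 z (n 0 z (n 0 z (n 0 z (n 0 z (n 0
 z (n 0 z (n 0 z (n 0 z (n 0 z z)))))))))))))))))))))))))))) (n 257 (n 2 z (n 0 z (n 0 z (n 0 z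
 (n 0 z (n 0 z (n 0 z (n 0 z (n 0 z (n 0 z (n 0 z (n 0 z (n 0 z (n 0 z (n 0 z (n 0 z (n 0 z (n 0
 z (n 0 z (n 0 z (n 0 z (n 0 z (n 0 z (n 0 z (n 0 z (n 0 z (n 0 z (n 0 z
 z)))))))))))))))))))))))))))) z)))))) (n 0 (n 295 (n 0 z (n 2 (n 0 z (n 2 (n 0 z (n 0 z (n 0 z
 (n 0 z (n 0 z (n 0 z z)))))) (n 2 (n 0 z (n 0 z (n 0 z (n 0 z (n 0 z (n 0 (n 8790275 z z)
 z)))))) (n 2 (n 0 z (n 0 z (n 0 z (n 0 z (n 0 z (n 0 z z)))))) z)))) (n 0 z (n 0 z z)))) (n 295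
 (n 0 z (n 0 z (n 0 z (n 0 z z)))) (n 531 (n 0 z (n 0 z (n 0 z (n 0 z (n 0 z (n 0 z (n 0 z (n 0
 z (n 0 z (n 0 z (n 0 z (n 0 z z)))))))))))) (n 529 (n 0 z (n 0 z (n 0 z (n 0 z (n 0 z (n 0 z (n
 0 z (n 0 z (n 0 z (n 0 z (n 0 z (n 0 z (n 0 z (n 0 z (n 0 z (n 0 z (n 0 z (n 0 z (n 0 z (n 0 z
 (n 0 z (n 0 z (n 0 z (n 0 z (n 0 z (n 0 z (n 0 z (n 0 z (n 0 z (n 0 z (n 0 z (n 0 z (n 0 z (n 0
 z (n 0 z (n 0 z (n 0 z (n 0 z (n 0 z (n 0 z (n 0 z (n 0 z (n 0 z (n 0 z (n 0 z (n 0 z (n 0 z (n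
 0 z (n 0 z (n 0 z (n 0 z (n 0 z (n 0 z (n 0 z (n 0 z (n 0 z
 z)))))))))))))))))))))))))))))))))))))))))))))))))))))))) (n 529 (n 0 z (n 0 z (n 0 z (n 0 z (n
 0 z (n 0 z (n 0 z (n 0 z (n 0 z (n 0 z (n 0 z (n 0 z (n 0 z (n 0 z (n 0 z (n 0 z (n 0 z (n 0 z
 (n 0 z (n 0 z (n 0 z (n 0 z (n 0 z (n 0 z (n 0 z (n 0 z (n 0 z (n 0 z (n 0 z (n 0 z (n 0 z (n 0
 z (n 0 z (n 0 z (n 0 z (n 0 z (n 0 z (n 0 z (n 0 z (n 0 z (n 0 z (n 0 z (n 0 z (n 0 z (n 0 z (n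
 0 z (n 0 z (n 0 z (n 0 z (n 0 z (n 0 z (n 0 z (n 0 z (n 0 z (n 0 z (n 0 z
 z)))))))))))))))))))))))))))))))))))))))))))))))))))))))) z))))) (n 0 (n 0 z (n 51 (n 0 z (n 0
 z (n 0 z (n 0 z z)))) (n 49 (n 0 z (n 2 (n 0 z z) (n 0 z (n 0 z (n 0 z (n 0 z (n 0 z (n 0 z
 z)))))))) (n 49 (n 0 z (n 0 z (n 0 z (n 2 z (n 0 z (n 0 z (n 0 z (n 0 z z)))))))) z)))) (n 0 (n
 111 (n 0 z (n 0 z (n 0 z (n 0 z (n 0 z (n 0 z z)))))) (n 109 (n 0 z (n 0 z (n 0 z (n 0 z (n 0 z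
 (n 0 z (n 0 z (n 0 z (n 0 z (n 0 z (n 0 z (n 0 z z)))))))))))) (n 109 (n 0 z (n 0 z (n 0 z (n 0
 z (n 0 z (n 0 z (n 0 z (n 0 z (n 0 z (n 0 z (n 0 z (n 0 z z)))))))))))) z))) (n 0 (n 1013 (n 0
 z (n 0 z (n 0 z (n 0 z (n 0 z (n 0 z (n 0 z (n 0 z (n 0 z (n 0 z (n 0 z (n 0 z (n 0 z (n 0 z (n
 0 z (n 0 z (n 0 z (n 0 z (n 0 z (n 0 z (n 0 z (n 0 z (n 0 z (n 0 z (n 0 z (n 0 z (n 0 z (n 0 z
 (n 0 z (n 0 z (n 0 z (n 0 z (n 0 z (n 0 z (n 0 z (n 0 z (n 0 z (n 0 z (n 0 z (n 0 z (n 0 z (n 0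
 z (n 0 z (n 0 z (n 0 z (n 0 z (n 0 z (n 0 z (n 0 z
 z))))))))))))))))))))))))))))))))))))))))))))))))) (n 1013 (n 0 z (n 0 z (n 0 z (n 0 z (n 0 z
 (n 0 z (n 0 z (n 0 z (n 0 z (n 0 z (n 0 z (n 0 z (n 0 z (n 0 z (n 0 z (n 0 z (n 0 z (n 0 z (n 0
 z (n 0 z (n 0 z (n 0 z (n 0 z (n 0 z (n 0 z (n 0 z (n 0 z (n 0 z (n 0 z (n 0 z (n 0 z (n 0 z (n
 0 z (n 0 z (n 0 z (n 0 z (n 0 z (n 0 z (n 0 z (n 0 z (n 0 z (n 0 z (n 0 z (n 0 z (n 0 z (n 0 z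
 (n 0 z (n 0 z (n 0 z z))))))))))))))))))))))))))))))))))))))))))))))))) z)) (n 0 (n 0 z z) (n 0
 z z)))))))))))))) (n 0 (n 1 (n 1468 z (n 1468 z (n 5447779 z (n 6619675 z (n 4400731 z (n 1468
 z z)))))) (n 1 (n 3280995 z (n 28 z (n 1468 z (n 1468 z (n 1468 z (n 1468 z z)))))) (n 0 z (n 1
 (n 6562131 z (n 6562131 z (n 6562131 z (n 6562131 z (n 6562131 z (n 6562131 z z)))))) z)))) (n
 0 z z)))) z)))))), by decide +kernel⟩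

theorem g7_62 : RgOk KT RW [10865, 10875, 10885, 10895, 10905, 10915, 10925, 10931] := ⟨i10865, ⟨i10875, ⟨i10885, ⟨i10895, ⟨i10905, ⟨i10915, ⟨i10925, True.intro⟩⟩⟩⟩⟩⟩⟩

end Pool.Agent.Lib.EPS9
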