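import Pool.Agent.Lib.MP_c7e7f6_eps.Core4
import Pool.Agent.Lib.MP_c7e7f6_eps.KtAll

/-!
Extensions of the words from number 10931 on.
-/

set_option autoImplicit false

namespace Pool.Agent.Lib.EPS9

open Tr

theorem i10931 : ∃ t, chkR KT RW t 10931 10939 = true := ⟨(n
 0x364e51a22e8cb59437b4a842d4d8271a40b4f6c1c59b1a2db210a508476c9819bd80 (n 0 (n 153 (n 6619931 z
 (n 0 z (n
 0x14c86c862078058037ff7fc7eb80e8038057ff7fd7e981280b82b7fc7f77eb8168008037fc80682a7d68007f87ed80b7f78007ff7fb7ec8087f98127e580680181082480d8197ff80e7fb80d8107ff7f70811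
 z (n 6619931 z (n
 0x7b21320980c015949948406017590802e321005864200fa64005f0c800bd19000793208068177e480680f80b8068098018188008148007fa7ec7e68067ff80d80a7f87d280c80080f8027f88167fa7fc8057fa80c7d68017f88037f18057fa8197ea8187ff7fe7ea8008247df7df11d1
 z (n 0 z (n 3282443 z (n 0 z (n 0 z (n 0 z (n 2 z (n 0 z (n 10 z z))))))))))))) (n 33 (n 0 z (n
 18 z (n 0 z (n 0 z (n 0 z (n 0 z (n 6496515 z (n 26 z z)))))))) (n 51 (n 0 z (n 0 z (n 0 z (n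
 6496515 z (n
 0x2ca6ca62038e57e585f8607e07dd79c91e92071f81e5e586485c76275ea6381f7e091b71c6e086489c8230801 z
 (n 0 z (n 6496515 z (n 0 z (n 0 z (n 34 z (n 42 z z))))))))))) (n 27 (n 50 z (n 0 z (n 0 z (n 0
 z (n 0 z (n 6496515 z (n 0 z (n 0 z (n 58 z z))))))))) (n 1 (n 6554411 z (n 66 z (n 0 z (n 0 z
 (n 0 z z))))) (n 0 (n
 0x8ca686420371f8227a57a38a08a68207d982396179f95a81c7a491b7e27608617e08269608df79c7e571b0801 z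
 (n 0 z (n 0 z (n 0 z (n 6619931 z (n 0 z (n 0 z (n 6619931 z (n
 0x4c86c862037e27608a082086285f82081f8208208208207df8608608217e189f86381f8208208207e08600801 z
 (n 0 z (n
 0x2c84c842078608207e18208207e18637a186082082089f81f79f7df82081f81f81f86082286186081f8200801 z
 (n 74 z (n 0 z (n 0 z (n
 0x14c86c862078058037ff7fc7eb80e8038057ff7fd7e981280b82b7fc7f77eb8168008037fc80682a7d68007f87ed80b7f78007ff7fb7ec8087f98127e580680181082480d8197ff80e7fb80d8107ff7f70811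
 z (n 0 z (n
 0x23b21b21081c0058c98c4006122d88025d31002796200050c402af0c807ad19004993208148ad80384682787781178a8b18f87e980286d8147c97207ec7ff7f38537616db8c375e8467f28908ab7827f28347f97fc6e58018007a18097f47b77ad8837b78247c46e67fd9776826a611d1
 z (n 0x4b6207e87dd6268e2a1b62797085a6678987e4d8c79b6a57207de7618227a2667ae0a9b8e086491f0041 z
 (n 0 z (n 0 z (n
 0x16434312038eca686420392282089a8dca2581881a9e391c69d7e26277618198257619648608ea8944a25208206a18251001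
 z (n 0 z (n 0 z (n 0 z (n 0 z (n 0 z (n 6619931 z (n
 0x2c62c408078217e082082086081f8208608208208208218217e17e08608208218208208208208208208200801 z
 (n 0 z (n 0 z (n 0 z (n 0 z (n
 0x6c86c864037e37208a082086389f7e081f82081f82082079f86185f8617e189e86382082085f8217a08a00801 z
 (n 0x2c84c806038217a18617e186181f82081f82081f81f82182182182082086189f8608218208208607e085f0801
 z (n 0 z (n 0 z (n 0 z (n 6619931 z (n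
 0x2c84c842078218218a081f86075f8a47e472181e7e095c82181f82086375f8218207a38218608dc82181e0801 z
 (n 82 z (n 0 z (n 0 z (n 90 z (n 0 z (n 98 z (n 0 z (n 0 z
 z))))))))))))))))))))))))))))))))))))))))))))))) z)))))) (n 1 (n 0 (n 0 z (n 1185 (n 0 z (n 0 z
 (n 0 z (n 0 z (n 0 z (n 0 z (n 7676259 z z))))))) (n 1185 (n 0 z (n 0 z (n 0 z (n 0 z (n 0 z (n
 0 z (n 0 z z))))))) (n 795 (n 0 z (n 0 z (n 0 z (n 0 z (n 0 z (n 0 z (n 0 z (n 0 z (n 0 z (n 0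
 z (n 0 z (n 0 z (n 0 z (n 0 z (n 0 z (n 0 z (n 0 z z))))))))))))))))) (n 795 (n 0 z (n 0 z (n 0
 z (n 0 z (n 0 z (n 0 z (n 0 z (n 0 z (n 0 z (n 0 z (n 0 z (n 0 z (n 0 z (n 0 z (n 0 z (n 0 z (n
 0 z z))))))))))))))))) (n 561 (n 0 z (n 0 z (n 0 z (n 0 z (n 0 z (n 0 z (n 0 z (n 0 z z))))))))
 (n 561 (n 0 z (n 0 z (n 0 z (n 0 z (n 0 z (n 0 z (n 0 z (n 0 z z)))))))) (n 309 (n 0 z (n 0 z
 (n 0 z (n 0 z (n 0 z z))))) (n 305 (n 0 z (n 0 z (n 0 z (n 0 z (n 0 z (n 0 z (n 0 z (n 0 z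
 z)))))))) (n 305 (n 0 z (n 0 z (n 0 z (n 0 z (n 0 z (n 0 z (n 0 z (n 0 z z)))))))) (n 305 (n 0
 z (n 0 z (n 0 z (n 0 z (n 0 z (n 0 z (n 0 z (n 0 z z)))))))) (n 305 (n 0 z (n 0 z (n 0 z (n 0 z
 (n 0 z (n 0 z (n 0 z (n 0 z z)))))))) z)))))))))))) (n 0 (n 1185 (n 0 z (n 0 z (n 0 z (n 0 z (n
 0 z (n 2 (n 0 z (n 2 (n 0 z (n 0 z (n 0 z (n 0 z (n 0 z (n 0 z z)))))) (n 2 (n 0 z (n 0 z (n 0
 z (n 0 z (n 0 (n 8794451 z z) (n 0 z z)))))) (n 1 z (n 2 (n 0 z (n 0 z (n 0 z (n 0 z (n 0 (n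
 8794451 z z) (n 0 z z)))))) (n 1 z (n 2 (n 0 z (n 0 z (n 0 z (n 0 z (n 0 z (n 0 z z)))))) (n 2
 (n 0 (n 8791835 z z) (n 0 z (n 0 (n 8791835 z z) (n 0 z (n 0 (n 2116 z (n 2116 z z)) (n 0 z
 z)))))) (n 2 (n 0 z (n 0 z (n 0 z (n 0 z (n 0 z (n 0 z z)))))) (n 2 (n 0 z (n 0 z (n 0 z (n 0 z
 (n 0 (n 8791099 z z) (n 0 z z)))))) z)))))))))) (n 0 z (n 0 z (n 0 z (n 0 z (n 0 z (n 0 z (n 0
 z (n 0 z (n 0 z (n 0 z (n 0 z z))))))))))))))))) (n 1185 (n 0 z (n 0 z (n 0 z (n 0 z (n 0 z (n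
 0 z (n 0 z (n 0 z (n 0 z (n 0 z (n 0 z (n 0 z (n 0 z (n 0 z (n 0 z (n 0 z (n 0 z
 z))))))))))))))))) (n 795 (n 0 z (n 0 z (n 0 z (n 0 z (n 0 z (n 0 z (n 0 z (n 0 z (n 0 z (n 0 z
 (n 0 z (n 0 z (n 0 z (n 0 z (n 0 z (n 0 z z)))))))))))))))) (n 795 (n 0 z (n 0 z (n 0 z (n 0 z
 (n 0 z (n 0 z (n 0 z (n 0 z (n 0 z (n 0 z (n 0 z (n 0 z (n 0 z (n 0 z (n 0 z (n 0 z
 z)))))))))))))))) (n 535 (n 0 z (n 0 z (n 2 (n 0 z (n 1 z (n 1 z (n 2 (n 0 z (n 0 z (n 0 z (n 0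
 (n 8791835 z z) (n 0 (n 8660747 z (n 8869403 z z)) (n 0 z z)))))) (n 1 z (n 1 z z)))))) (n 0 z
 (n 0 z (n 0 z (n 0 z (n 0 z z)))))))) (n 535 (n 0 z (n 0 z (n 0 z (n 0 z (n 0 z (n 0 z (n 0 z
 (n 0 z z)))))))) (n 531 (n 0 z (n 0 z (n 0 z (n 2 (n 2 (n 0 z (n 0 z (n 0 z (n 0 z (n 0 (n
 8791099 z z) (n 0 z z)))))) (n 2 (n 0 z (n 0 (n 8791835 z z) (n 0 z (n 0 z (n 0 (n 8869403 z (n
 8869403 z z)) (n 0 (n 8733539 z z) z)))))) (n 2 (n 0 z (n 0 z (n 0 z (n 0 z (n 0 z (n 0 z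
 z)))))) (n 2 (n 0 z (n 0 z (n 0 z (n 0 z (n 0 z (n 0 z z)))))) z)))) (n 0 z (n 0 z (n 0 z (n 0
 z (n 0 z z))))))))) (n 529 (n 0 z (n 0 z (n 0 z (n 0 z (n 0 z (n 0 z (n 0 z (n 0 z (n 0 z (n 0
 z (n 0 z (n 0 z z)))))))))))) (n 529 (n 0 z (n 0 z (n 0 z (n 0 z (n 0 z (n 0 z (n 0 z (n 0 z (n
 0 z (n 0 z (n 0 z (n 0 z z)))))))))))) (n 529 (n 0 z (n 0 z (n 0 z (n 0 z (n 0 z (n 0 z (n 0 z
 (n 0 z (n 0 z (n 0 z (n 0 z (n 2 (n 0 z z) z)))))))))))) (n 529 (n 0 z (n 0 z (n 0 z (n 0 z (n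
 0 z (n 0 z (n 0 z (n 0 z (n 0 z (n 0 z (n 0 z (n 0 z z)))))))))))) z))))))))))) (n 0 (n 0 z (n
 123 (n 0 z (n 0 z (n 0 z (n 0 z (n 0 z (n 0 z (n 0 z (n 0 z (n 0 z (n 2 (n 0 z (n 1 z (n 2 (n 0
 z (n 0 z (n 0 z (n 0 z (n 0 z (n 0 z z)))))) (n 2 (n 0 z (n 0 z (n 0 z (n 0 z (n 0 z (n 0 z
 z)))))) (n 2 (n 0 z (n 0 z (n 0 z (n 0 z (n 0 z (n 0 z z)))))) (n 2 (n 0 z (n 0 z (n 0 z (n 0 z
 (n 0 z (n 0 z z)))))) (n 2 (n 0 z (n 0 z (n 0 z (n 0 z (n 0 z (n 0 z z)))))) (n 2 (n 0 z (n 0 z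
 (n 0 z (n 0 z (n 0 z (n 0 z z)))))) z)))))))) z)))))))))) (n 123 (n 0 z (n 0 z (n 0 z (n 0 z (n
 0 z (n 0 z (n 0 z (n 0 z (n 2 (n 1 z (n 2 (n 0 z (n 0 z (n 0 z (n 0 z (n 0 z (n 0 z z)))))) (n
 2 (n 0 z (n 0 z (n 0 z (n 0 z (n 0 z (n 0 z z)))))) (n 2 (n 0 z (n 0 z (n 0 z (n 0 z (n 0 z (n
 0 z z)))))) (n 2 (n 0 z (n 0 z (n 0 z (n 0 z (n 0 z (n 0 z z)))))) (n 2 (n 0 z (n 0 z (n 0 z (n
 0 z (n 0 z (n 0 z z)))))) (n 2 (n 0 z (n 0 z (n 0 z (n 0 z (n 0 z (n 0 z z)))))) z))))))) (n 0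
 z z)))))))))) (n 535 (n 0 z (n 0 z (n 0 z (n 0 z (n 0 z (n 0 z (n 0 z (n 0 z z)))))))) (n 535
 (n 0 z (n 0 z (n 0 z (n 0 z (n 0 z (n 0 z (n 0 z (n 2 (n 1 z (n 2 (n 0 z (n 0 z (n 0 z (n 0 z
 (n 0 z (n 0 z z)))))) (n 2 (n 0 z (n 0 z (n 0 z (n 0 z (n 0 z (n 0 z z)))))) (n 2 (n 0 z (n 0 z
 (n 0 z (n 0 z (n 0 z (n 0 z z)))))) (n 2 (n 0 z (n 0 z (n 0 z (n 0 z (n 0 z (n 0 z z))))))
 z))))) z)))))))) (n 483 (n 0 z (n 0 z (n 0 z (n 0 z (n 0 z (n 0 z (n 0 z (n 0 z (n 0 z (n 0 z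
 (n 0 z (n 0 z (n 0 z (n 0 z (n 0 z (n 0 z (n 0 z (n 0 z (n 0 z (n 0 z (n 0 z (n 0 z (n 0 z
 z))))))))))))))))))))))) (n 481 (n 0 z (n 0 z (n 0 z (n 0 z (n 0 z (n 0 z (n 0 z (n 0 z (n 0 z
 (n 0 z (n
 0x2ec6ec64078608207e18208207e18637a186082082089f81f79f7df82081f81f81f86082286186081f8200801 z
 (n 0 z (n 2 (n 0 z (n 0 z (n 0 z z))) (n 0 z (n 0 z (n 0 z (n 0 z (n 0 z (n 0 z (n 0 z (n 0 z
 (n 0 z (n 0 z (n 0 z (n 0 z (n 0 z (n 0 z (n 0 z (n 0 z (n 0 z (n 0 z (n 0 z (n 0 z (n 0 z (n 0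
 z (n 0 z (n 0 z (n 0 z (n 0 z (n 0 z (n 0 z (n 0 z (n 0 z (n 0 z (n 0 z (n 0 z
 z)))))))))))))))))))))))))))))))))))))))))))))) (n 481 (n 0 z (n 0 z (n 0 z (n 0 z (n 0 z (n 0
 z (n 0 z (n 0 z (n 0 z (n 0 z (n 0 z (n 0 z (n 0 z (n 0 z (n 0 z (n 0 z (n 0 z (n 0 z (n 0 z (n
 0 z (n 0 z (n 0 z (n 0 z (n 0 z (n 0 z (n 0 z (n 0 z (n 0 z (n 0 z (n 0 z (n 0 z (n 0 z (n 0 z
 (n 0 z (n 0 z (n 0 z (n 0 z (n 0 z (n 0 z (n 0 z (n 0 z (n 0 z (n 0 z (n 0 z (n 0 z (n 0 z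
 z)))))))))))))))))))))))))))))))))))))))))))))) (n 481 (n 0 z (n 0 z (n 0 z (n 0 z (n 0 z (n 0
 z (n 0 z (n 0 z (n 0 z (n 0 z (n 0 z (n 0 z (n 0 z (n 0 z (n 0 z (n 0 z (n 0 z (n 0 z (n 0 z (n
 0 z (n 0 z (n 0 z (n 0 z (n 0 z (n 0 z (n 0 z (n 0 z (n 0 z (n 0 z (n 0 z (n 0 z (n 0 z (n 0 z
 (n 0 z (n 0 z (n 0 z (n 0 z (n 0 z (n 0 z (n 0 z (n 2 (n 0 z z) (n 0 z (n 0 z (n 0 z (n 0 z (n
 0 z z)))))))))))))))))))))))))))))))))))))))))))))) (n 481 (n 0 z (n 0 z (n 0 z (n 0 z (n 0 z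
 (n 0 z (n 0 z (n 0 z (n 0 z (n 0 z (n 0 z (n 0 z (n 0 z (n 0 z (n 0 z (n 0 z (n 0 z (n 0 z (n 0
 z (n 0 z (n 0 z (n 0 z (n 0 z (n 0 z (n 0 z (n 0 z (n 0 z (n 0 z (n 0 z (n 0 z (n 0 z (n 0 z (n
 0 z (n 0 z (n 0 z (n 0 z (n 0 z (n 0 z (n 0 z (n 0 z (n 0 z (n 0 z (n 0 z (n 2 z (n 0 z (n 0 z
 z)))))))))))))))))))))))))))))))))))))))))))))) z)))))))))) (n 0 (n 123 (n 0 z (n 0 z (n 0 z (n
 0 z (n 0 z (n 0 z (n 0 z (n 0 z (n 0 z z))))))))) (n 123 (n 0 z (n 0 z (n 0 z (n 0 z (n 0 z (n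
 0 z (n 0 z (n 0 z (n 0 z z))))))))) (n 75 (n 0 z (n 0 z (n 2 (n 0 z (n 1 z (n 2 (n 0 z (n 0 z
 (n 0 z (n 0 z (n 0 z (n 0 z z)))))) (n 2 (n 0 (n 260 z z) (n 0 z (n 0 (n 260 z z) (n 0 z (n 0
 (n 8869403 z (n 8869403 z z)) (n 0 z z)))))) (n 2 (n 0 z (n 0 z (n 0 z (n 0 z (n 0 z (n 0 z
 z)))))) (n 2 (n 0 z (n 0 z (n 0 z (n 0 z (n 0 (n 8791099 z z) (n 0 z z)))))) z)))))) (n 0 z (n
 0 z (n 0 z (n 0 z (n 0 z z)))))))) (n 75 (n 0 z (n 0 z (n 0 z (n 0 z (n 0 z (n 0 z (n 0 z (n 0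
 z z)))))))) (n 63 (n 0 z (n 0 z (n 2 (n 2 (n 0 z (n 0 z (n 0 z (n 0 z (n 0 z (n 0 z z)))))) (n
 2 (n 0 z (n 0 z (n 0 z (n 0 z (n 0 z (n 0 z z)))))) (n 2 (n 0 z (n 0 z (n 0 z (n 0 z (n 0 z (n
 0 z z)))))) (n 2 (n 0 z (n 0 z (n 0 z (n 0 z (n 0 z (n 0 z z)))))) z)))) (n 0 z (n 0 z (n 0 z
 (n 0 z z))))))) (n 65 (n 0 z (n 0 z (n 0 z (n 0 z (n 0 z (n 0 z (n 0 z (n 0 z (n 0 z (n 0 z (n
 0 z (n 0 z z)))))))))))) (n 65 (n 0 z (n 0 z (n 0 z (n 0 z (n 0 z (n 0 z (n 0 z (n 0 z (n 0 z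
 (n 0 z (n 0 z (n 0 z z)))))))))))) (n 65 (n 0 z (n 0 z (n 2 (n 0 z z) (n 0 z (n 0 z (n 0 z (n 0
 z (n 0 z (n 0 z (n 0 z (n 0 z (n 0 z z)))))))))))) (n 65 (n 0 z (n 0 z (n 0 z (n 0 z (n 0 z (n
 0 z (n 0 z (n 0 z (n 0 z (n 0 z (n 0 z (n 0 z z)))))))))))) z))))))))) (n 0 (n 0 z (n 27 (n 2
 (n 0 z (n 2 (n 0 z (n 0 z (n 0 z (n 0 z (n 0 (n 8851491 z z) (n 0 z z)))))) (n 2 (n 0 z (n 0 z
 (n 0 z (n 0 z (n 0 (n 8798771 z z) (n 0 z z)))))) (n 2 (n 0 z (n 0 (n 8791835 z z) (n 0 z (n 0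
 z (n 0 (n 8732787 z (n 8718155 z z)) (n 0 (n 8868195 z z) z)))))) (n 2 (n 0 z (n 0 z (n 0 z (n
 0 z (n 0 z (n 0 z z)))))) (n 2 (n 0 z (n 0 z (n 0 z (n 0 z (n 0 z (n 0 z z)))))) z)))))) (n 0 z
 (n 0 z (n 0 z (n 0 z (n 0 z (n 0 z z))))))) (n 27 (n 0 z (n 0 z (n 0 z (n 0 z (n 0 z (n 0 z (n
 0 z z))))))) (n 99 (n 0 z (n 2 (n 2 (n 0 z (n 0 z (n 0 z (n 0 z (n 0 z (n 0 z z)))))) (n 2 (n 0
 z (n 0 z (n 0 z (n 0 z (n 0 z (n 0 z z)))))) (n 2 (n 0 z (n 0 z (n 0 z (n 0 z (n 0 z (n 0 z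
 z)))))) (n 2 (n 0 z (n 0 z (n 0 z (n 0 z (n 0 z (n 0 z z)))))) z)))) (n 0 z (n 0 z (n 0 z
 z))))) (n 101 (n 0 z (n 0 z (n 0 z (n 0 z (n 0 z (n 0 z (n 0 z (n 0 z (n 0 z (n 0 z (n 0 z (n 0
 z (n 0 z (n 0 z z)))))))))))))) (n 101 (n 0 z (n 0 z (n 0 z (n 0 z (n 0 z (n 0 z (n 0 z (n 0 z
 (n 0 z (n 0 z (n 0 z (n 0 z (n 0 z (n 0 z z)))))))))))))) (n 101 (n 0 z (n 0 z (n 0 z (n 0 z (n
 0 z (n 0 z (n 0 z (n 0 z (n 0 z (n 0 z (n 0 z (n 0 z (n 0 z (n 0 z z)))))))))))))) (n 101 (n 0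
 z (n 0 z (n 0 z (n 0 z (n 0 z (n 0 z (n 0 z (n 0 z (n 0 z (n 0 z (n 0 z (n 0 z (n 0 z (n 0 z
 z)))))))))))))) z)))))))) (n 0 (n 27 (n 0 z (n 2 (n 0 z (n 2 (n 0 z (n 0 z (n 0 z (n 0 z (n 0
 (n 8851491 z z) (n 0 z z)))))) (n 2 (n 0 z (n 0 z (n 0 z (n 0 z (n 0 (n 8791099 z z) (n 0 z
 z)))))) (n 2 (n 0 z (n 0 (n 8791835 z z) (n 0 z (n 0 z (n 0 (n 8732787 z (n 8869403 z z)) (n 0
 (n 8733539 z z) z)))))) (n 2 (n 0 z (n 0 z (n 0 z (n 0 z (n 0 z (n 0 z z)))))) (n 2 (n 0 z (n 0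
 z (n 0 z (n 0 z (n 0 z (n 0 z z)))))) z)))))) (n 0 z (n 0 z (n 0 z (n 0 z (n 0 z (n 0 z
 z)))))))) (n 27 (n 0 z (n 0 z (n 0 z (n 0 z (n 0 z (n 0 z (n 0 z (n 0 z z)))))))) (n 15 (n 2 (n
 2 (n 0 z (n 0 z (n 0 z (n 0 z (n 0 z (n 0 z z)))))) (n 2 (n 0 z (n 0 z (n 0 z (n 0 z (n 0 z (n
 0 z z)))))) (n 2 (n 0 z (n 0 z (n 0 z (n 0 z (n 0 z (n 0 z z)))))) (n 2 (n 0 z (n 0 z (n 0 z (n
 0 z (n 0 z (n 0 z z)))))) z)))) (n 0 z (n 0 z (n 0 z (n 0 z z))))) (n 101 (n 0 z (n 0 z (n 0 z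
 (n 0 z (n 0 z (n 0 z (n 0 z (n 0 z (n 0 z (n 0 z (n 0 z z))))))))))) (n 101 (n 0 z (n 0 z (n 0
 z (n 0 z (n 0 z (n 0 z (n 0 z (n 0 z (n 0 z (n 0 z (n 0 z z))))))))))) (n 101 (n 0 z (n 0 z (n
 0 z (n 0 z (n 2 (n 0 z z) (n 0 z (n 0 z (n 0 z (n 0 z (n 0 z (n 0 z z))))))))))) (n 101 (n 0 z
 (n 0 z (n 0 z (n 0 z (n 0 z (n 0 z (n 0 z (n 0 z (n 0 z (n 0 z (n 0 z z))))))))))) z))))))) (n
 0 (n 0 z (n 483 (n 0 z (n 0 z (n 0 z (n 0 z (n 0 z (n 0 z (n 0 z (n 0 z (n 0 z (n 0 z (n 0 z (n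
 0 z (n 0 z (n 0 z (n 0 z z))))))))))))))) (n 481 (n 0 z (n 0 z (n 0 z (n 0 z (n 0 z (n 0 z (n 0
 z (n 0 z (n 0 z (n 0 z (n 0 z (n 0 z (n 0 z (n 0 z (n 0 z (n 0 z (n 0 z (n 0 z (n 0 z (n 0 z (n
 0 z (n 0 z (n 2 (n 0 z (n 0 z (n 0 z z))) (n 0 z (n 0 z (n 0 z (n 0 z (n 0 z (n 0 z (n 0 z (n 0
 z (n 0 z (n 0 z (n 0 z (n 0 z (n 0 z (n 0 z (n 0 z (n 0 z (n 0 z (n 0 z (n 0 z (n 0 z (n 0 z (n
 0 z (n 0 z (n 0 z (n 0 z (n 0 z (n 0 z (n 0 z (n 0 z (n 0 z (n 0 z (n 0 z (n 0 z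
 z)))))))))))))))))))))))))))))))))))))))))))))))))))))))) (n 481 (n 0 z (n 0 z (n 0 z (n 0 z (n
 0 z (n 0 z (n 0 z (n 0 z (n 0 z (n 0 z (n 0 z (n 0 z (n 0 z (n 0 z (n 0 z (n 0 z (n 0 z (n 0 z
 (n 0 z (n 0 z (n 0 z (n 0 z (n 0 z (n 0 z (n 0 z (n 0 z (n 0 z (n 0 z (n 0 z (n 0 z (n 0 z (n 0
 z (n 0 z (n 0 z (n 0 z (n 0 z (n 0 z (n 0 z (n 0 z (n 0 z (n 0 z (n 0 z (n 0 z (n 0 z (n 0 z (n
 0 z (n 0 z (n 0 z (n 0 z (n 0 z (n 0 z (n 0 z (n 0 z (n 0 z (n 0 z (n 0 z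
 z)))))))))))))))))))))))))))))))))))))))))))))))))))))))) (n 481 (n 0 z (n 0 z (n 0 z (n 0 z (n
 0 z (n 0 z (n 0 z (n 0 z (n 0 z (n 0 z (n 0 z (n 0 z (n 0 z (n 0 z (n 0 z (n 0 z (n 0 z (n 0 z
 (n 0 z (n 0 z (n 0 z (n 0 z (n 0 z (n 0 z (n 0 z (n 0 z (n 0 z (n 0 z (n 0 z (n 0 z (n 0 z (n 0
 z (n 0 z (n 0 z (n 0 z (n 0 z (n 0 z (n 0 z (n 0 z (n 0 z (n 0 z (n 0 z (n 0 z (n 0 z (n 0 z (n
 0 z (n 0 z (n 0 z (n 2 (n 0 z z) (n 0 z (n 0 z (n 0 z (n 0 z (n 0 z (n 0 z (n 0 z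
 z)))))))))))))))))))))))))))))))))))))))))))))))))))))))) (n 481 (n 0 z (n 0 z (n 0 z (n 0 z (n
 0 z (n 0 z (n 0 z (n 0 z (n 0 z (n 0 z (n 0 z (n 0 z (n 0 z (n 0 z (n 0 z (n 0 z (n 0 z (n 0 z
 (n 0 z (n 0 z (n 0 z (n 0 z (n 0 z (n 0 z (n 0 z (n 0 z (n 0 z (n 0 z (n 0 z (n 0 z (n 0 z (n 0
 z (n 0 z (n 0 z (n 0 z (n 0 z (n 0 z (n 0 z (n 0 z (n 0 z (n 0 z (n 0 z (n 0 z (n 2 z (n 0 z (n
 0 z (n 0 z (n 0 z (n 0 z (n 0 z (n 0 z (n 0 z (n 0 z (n 0 z (n 0 z (n 0 z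
 z)))))))))))))))))))))))))))))))))))))))))))))))))))))))) z)))))) (n 0 (n 531 (n 0 z (n 2 (n 2
 (n 0 z (n 0 z (n 0 z (n 0 z (n 0 z (n 0 z z)))))) (n 2 (n 0 z (n 0 z (n 0 z (n 0 z (n 0 z (n 0
 z z)))))) (n 2 (n 0 z (n 0 z (n 0 z (n 0 z (n 0 z (n 0 z z)))))) (n 2 (n 0 z (n 0 z (n 0 z (n 0
 z (n 0 z (n 0 z z)))))) z)))) (n 0 z (n 0 z (n 0 z z))))) (n 529 (n 0 z (n 0 z (n 0 z (n 0 z (n
 0 z (n 0 z (n 0 z (n 0 z (n 0 z (n 0 z (n 0 z (n 0 z (n 0 z (n 0 z (n 0 z (n 0 z (n 0 z (n 0 z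
 (n 0 z (n 0 z (n 0 z (n 0 z (n 0 z (n 0 z (n 0 z z))))))))))))))))))))))))) (n 529 (n 0 z (n 0
 z (n 0 z (n 0 z (n 0 z (n 0 z (n 0 z (n 0 z (n 0 z (n 0 z (n 0 z (n 0 z (n 0 z (n 0 z (n 0 z (n
 0 z (n 0 z (n 0 z (n 0 z (n 0 z (n 0 z (n 0 z (n 0 z (n 0 z (n 0 z z)))))))))))))))))))))))))
 (n 529 (n 0 z (n 0 z (n 0 z (n 0 z (n 0 z (n 0 z (n 0 z (n 0 z (n 0 z (n 0 z (n 0 z (n 0 z (n 0
 z (n 0 z (n 0 z (n 0 z (n 0 z (n 0 z (n 0 z (n 2 (n 0 z z) (n 0 z (n 0 z (n 0 z (n 0 z (n 0 z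
 z))))))))))))))))))))))))) (n 529 (n 0 z (n 0 z (n 0 z (n 0 z (n 0 z (n 0 z (n 0 z (n 0 z (n 0
 z (n 0 z (n 0 z (n 0 z (n 0 z (n 0 z (n 0 z (n 0 z (n 0 z (n 0 z (n 0 z (n 0 z (n 0 z (n 0 z (n
 0 z (n 0 z (n 0 z z))))))))))))))))))))))))) z))))) (n 0 (n 1 (n 0 z (n 0 z (n 0 z (n 0 z (n 0
 z (n 0 z (n 0 z (n 0 z (n 0 z (n 0 z (n 0 z (n 0 z (n 0 z (n 0 z (n 0 z (n 0 z (n 0 z (n 0 z (n
 0 z (n 0 z (n 0 z (n 0 z (n 0 z (n 0 z (n 0 z (n 0 z (n 0 z (n 0 z (n 0 z (n 0 z (n 0 z (n 0 z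
 (n 0 z (n 0 z (n 0 z (n 0 z (n 0 z (n 0 z (n 0 z (n 2 (n 0 z (n 0 z (n 0 z z))) (n 0 z (n 0 z
 (n 0 z (n 0 z (n 0 z (n 0 z (n 0 z (n 0 z (n 0 z
 z))))))))))))))))))))))))))))))))))))))))))))))))) (n 1 (n 0 z (n 0 z (n 0 z (n 0 z (n 0 z (n 0
 z (n 0 z (n 0 z (n 0 z (n 0 z (n 0 z (n 0 z (n 0 z (n 0 z (n 0 z (n 0 z (n 0 z (n 0 z (n 0 z (n
 0 z (n 0 z (n 0 z (n 0 z (n 0 z (n 0 z (n 0 z (n 0 z (n 0 z (n 0 z (n 0 z (n 0 z (n 0 z (n 0 z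
 (n 0 z (n 0 z (n 0 z (n 0 z (n 0 z (n 0 z (n 0 z (n 0 z (n 0 z (n 0 z (n 0 z (n 0 z (n 0 z (n 0
 z (n 0 z (n 0 z z))))))))))))))))))))))))))))))))))))))))))))))))) (n 1 (n 0 z (n 0 z (n 0 z (n
 0 z (n 0 z (n 0 z (n 0 z (n 0 z (n 0 z (n 0 z (n 0 z (n 0 z (n 2 (n 0 z z) (n 0 z (n 0 z (n 0 z
 (n 0 z (n 0 z (n 0 z (n 0 z (n 0 z (n 0 z (n 0 z (n 0 z (n 0 z (n 0 z (n 0 z (n 0 z (n 0 z (n 0
 z (n 0 z (n 0 z (n 0 z (n 0 z (n 0 z (n 0 z (n 0 z (n 0 z (n 0 z (n 0 z (n 0 z (n 0 z (n 0 z (n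
 0 z (n 0 z (n 0 z (n 0 z (n 0 z (n 0 z z))))))))))))))))))))))))))))))))))))))))))))))))) (n 1
 (n 0 z (n 0 z (n 0 z (n 0 z (n 0 z (n 0 z (n 0 z (n 2 z (n 0 z (n 0 z (n 0 z (n 0 z (n 0 z (n 0
 z (n 0 z (n 0 z (n 0 z (n 0 z (n 0 z (n 0 z (n 0 z (n 0 z (n 0 z (n 0 z (n 0 z (n 0 z (n 0 z (n
 0 z (n 0 z (n 0 z (n 0 z (n 0 z (n 0 z (n 0 z (n 0 z (n 0 z (n 0 z (n 0 z (n 0 z (n 0 z (n 0 z
 (n 0 z (n 0 z (n 0 z (n 0 z (n 0 z (n 0 z (n 0 z (n 0 z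
 z))))))))))))))))))))))))))))))))))))))))))))))))) z)))) (n 0 (n 0 z (n 0 z (n 0 z z))) (n 0 (n
 0 z (n 0 z z)) (n 0 (n 0 z z) (n 0 z z))))))))))))) (n 0 (n 1 (n 6554411 z (n 6554411 z (n
 6554411 z (n 6554411 z (n 6554411 z (n 6554411 z z)))))) (n 1 (n 1228 z (n 1228 z (n 1228 z (n
 1228 z (n 1228 z (n 1228 z z)))))) (n 0 z (n 0 z (n 0 z z))))) (n 0 z z)))) (n
 0x19a9d05d6ec22b6d315370b0da4cd0cc2e8671b0330bac0 (n 0 (n 467 (n 3282443 z (n 0 z (n 0 z (n 0 z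
 (n 2 z (n 0 z z)))))) (n 461 (n 0 z (n 0 z (n 0 z (n 0 z (n 3278363 z (n 0 z (n 0 z (n 0 z (n 0
 z (n 0 z (n 0 z (n 0 z (n 0 z (n 0 z (n 0 z (n 0 z (n 0 z (n 0 z (n 0 z (n 0 z (n
 0x6ca8a8040379f85e7df8638de82089f71e8e28a18a075d8618656de81b7dc8a68dd7a371f7a27e175f8600801 z
 (n 10 z (n 0 z (n 0 z (n 6427963 z (n 6427963 z (n
 0x6ca8a804037e17617a37e179f7e089f75d8e18618e079d8a28256df81b7db8a591c76375f7e082179e8a10801 z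
 (n 18 z (n 0 z (n 0 z (n 26 z (n 0 z z)))))))))))))))))))))))))))))))) (n 463 (n 34 z (n 0 z (n
 0 z (n 3212843 z (n 0 z (n 6427963 z z)))))) (n 3 (n 6636323 z (n 42 z (n 0 z (n 50 z (n 0 z (n
 0 z z)))))) (n 1 (n 0 z (n 0 z (n 0 z (n 0 z (n 0 z (n 0 z (n 6636323 z (n 0 z z)))))))) (n 0
 (n 0 z (n 58 z (n 0 z (n 66 z (n
 0x2c86c864078208607e082182281d8617e186181e81d81f8608a079f8207e092289d7e37617e285f8607e00801 z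
 (n 0 z (n 6636323 z (n 0 z z)))))))) z)))))) (n 467 (n 0 (n 179 (n 0 z (n 0 z (n 0 z (n 0 z (n
 2 (n 0 z (n 0 z (n 2 (n 0 z (n 0 (n 8803091 z z) (n 0 z (n 0 z (n 0 z (n 0 z z)))))) (n 2 (n 0
 z (n 0 z (n 0 z (n 0 z (n 0 z (n 0 z z)))))) (n 2 (n 0 z (n 0 z (n 0 z (n 0 z (n 0 z (n 0 z
 z)))))) (n 2 (n 0 z (n 0 z (n 0 z (n 0 z (n 0 z (n 0 z z)))))) (n 2 (n 0 z (n 0 z (n 0 z (n 0 z
 (n 0 z (n 0 z z)))))) z))))))) z))))) (n 179 (n 0 z (n 0 z (n 0 z (n 0 z (n 0 z z))))) (n 179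
 (n 0 z (n 0 z (n 0 z (n 0 z (n 0 z z))))) (n 927 (n 0 z (n 0 z (n 0 z (n 0 z (n 0 z (n 0 z (n 0
 z (n 0 z (n 0 z z))))))))) (n 153 (n 0 z (n 0 z (n 0 z (n 0 z (n 0 z (n 0 z z)))))) (n 153 (n 0
 z (n 0 z (n 0 z (n 0 z (n 0 z (n 0 z z)))))) (n 169 (n 0 z (n 0 z (n 0 z (n 0 z (n 0 z (n 0 z
 z)))))) (n 169 (n 0 z (n 0 z (n 0 z (n 0 z (n 0 z (n 0 z z)))))) z)))))))) (n 0 (n 0 z (n 0 z
 (n 391 (n 0 z (n 2 (n 2 (n 0 (n 220 z (n 220 z z)) (n 0 z (n 0 z (n 0 (n 220 z (n 8652651 z z))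
 (n 0 z (n 0 (n 220 z (n 8652651 z z)) z)))))) (n 2 (n 0 z (n 0 (n 8868627 z z) (n 0 z (n 0 z (n
 0 z (n 0 z z)))))) (n 1 z (n 2 (n 0 z (n 0 (n 212 z (n 212 z z)) (n 0 z (n 0 (n 212 z z) (n 0 z
 (n 0 (n 212 z z) z)))))) z)))) (n 0 z z))) (n 55 (n 0 z (n 0 z (n 2 (n 0 z (n 1 z (n 2 (n 0 z
 (n 0 z (n 0 z (n 0 z (n 0 z (n 0 z z)))))) z))) (n 0 z (n 0 z z))))) (n 55 (n 0 z (n 0 z (n 0 z
 (n 2 (n 2 (n 0 z (n 0 z (n 0 z (n 0 z (n 0 z (n 0 z z)))))) (n 2 (n 0 z (n 0 z (n 0 z (n 0 z (n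
 0 z (n 0 z z)))))) z)) (n 0 z z))))) (n 53 (n 0 z (n 0 z (n 2 (n 0 z z) (n 0 z (n 0 z (n 0 z
 z)))))) (n 53 (n 2 z (n 0 z (n 0 z (n 0 z (n 0 z (n 0 z z)))))) z))))))) (n 0 (n 0 z (n 411 (n
 0 z (n 0 z (n 0 z (n 0 z (n 0 z (n 0 z (n 0 z z))))))) (n 393 (n 0 z (n 0 z (n 0 z (n 0 z (n 0
 z (n 0 z (n 0 z (n 0 z (n 0 z (n 0 z (n 0 z (n 0 z (n 0 z (n 0 z (n 0 z (n 0 z (n 0 z (n 0 z (n
 0 z (n 0 z (n 0 z (n 0 z (n 0 z (n 0 z (n 0 z (n 0 z z)))))))))))))))))))))))))) (n 393 (n 0 z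
 (n 0 z (n 0 z (n 0 z (n 0 z (n 0 z (n 0 z (n 0 z (n 0 z (n 0 z (n 0 z (n 0 z (n 0 z (n 0 z (n 0
 z (n 0 z (n 0 z (n 0 z (n 0 z (n 0 z (n 0 z (n 0 z (n 0 z (n 0 z (n 0 z (n 0 z
 z)))))))))))))))))))))))))) (n 389 (n 0 z (n 0 z (n 0 z (n 0 z (n 0 z (n 0 z (n 0 z (n 0 z (n 0
 z z))))))))) (n 389 (n 0 z (n 0 z (n 0 z (n 0 z (n 0 z (n 0 z (n 0 z (n 0 z (n 0 z z)))))))))
 z)))))) (n 0 (n 807 (n 0 z (n 0 z (n 0 z (n 0 z (n 0 z (n 0 z z)))))) (n 55 (n 0 z (n 0 z (n 0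
 z (n 0 z (n 0 z (n 0 z z)))))) (n 55 (n 0 z (n 0 z (n 0 z (n 0 z (n 0 z (n 0 z z)))))) (n 341
 (n 0 z (n 0 z (n 0 z (n 0 z (n 0 z (n 0 z (n 0 z (n 0 z (n 0 z z))))))))) (n 341 (n 0 z (n 0 z
 (n 0 z (n 0 z (n 0 z (n 0 z (n 0 z (n 0 z (n 0 z z))))))))) z))))) (n 0 (n 251 (n 0 z (n 0 z (n
 0 z (n 0 z (n 0 z (n 0 z (n 0 z z))))))) (n 251 (n 0 z (n 0 z (n 0 z (n 0 z (n 0 z (n 0 z (n 0
 z z))))))) (n 241 (n 0 z (n 0 z (n 0 z (n 0 z (n 0 z (n 0 z (n 0 z (n 0 z (n 0 z (n 0 z (n 0 z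
 (n 0 z (n 0 z z))))))))))))) (n 241 (n 0 z (n 0 z (n 0 z (n 0 z (n 0 z (n 0 z (n 0 z (n 0 z (n
 0 z (n 0 z (n 0 z (n 0 z (n 0 z z))))))))))))) z)))) (n 0 (n 0 z (n 1 (n 0 z (n 0 z (n 0 z (n 0
 z (n 0 z (n 0 z (n 0 z (n 0 z z)))))))) (n 1 (n 0 z (n 0 z (n 0 z (n 0 z (n 0 z (n 0 z (n 0 z
 (n 0 z z)))))))) z))) (n 0 (n 1 (n 0 z (n 0 z (n 0 z (n 0 z (n 0 z (n 0 z (n 0 z (n 0 z (n 0 z
 (n 0 z (n 0 z z))))))))))) (n 1 (n 0 z (n 0 z (n 0 z (n 0 z (n 0 z (n 0 z (n 0 z (n 0 z (n 0 z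
 (n 0 z (n 0 z z))))))))))) z)) (n 0 (n 0 z z) (n 0 z z))))))))) (n 0 (n 1 (n 3282443 z (n
 3282443 z (n 3282443 z (n 3282443 z (n 3282443 z (n 3282443 z z)))))) (n 0 z (n 0 z (n 0 z (n 1
 (n 3692 z (n 3692 z (n 12 z (n 3692 z (n 3692 z (n 3692 z z)))))) (n 0 z z)))))) (n 0 z z))))
 (n 0x51193189ab8c231c7818db2356ee82d55404a910253c8468d22c554609 (n 0 (n 473 (n 6492195 z (n 0 z
 (n 0 z (n 0 z z)))) (n 459 (n 2 z (n 0 z (n 6492195 z (n 0 z (n 0 z (n 0 z (n 0 z (n 0 z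
 z)))))))) (n 9 (n 6566403 z (n 10 z (n 6566403 z (n 18 z (n 26 z (n 6566403 z (n 0 z (n 6562587
 z (n 34 z (n 6562587 z (n 42 z (n 0 z (n 6566403 z z))))))))))))) (n 3 (n 6566403 z (n 6566403
 z (n 0 z (n 50 z (n 58 z (n 0 z z)))))) (n 1 (n 6566403 z (n 0 z (n 0 z (n 0 z (n 0 z (n 66 z
 (n 74 z (n
 0x42ca4ca420374897f7e918a80767f887d7d8171688a826a7b949b7b82739b777b867f7c6681827886777a8692758189857c75887260777e0809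
 z (n 6566403 z (n 0 z (n 6562587 z (n 82 z (n 6562587 z z))))))))))))) (n 0 (n 0 z (n 0 z (n 0
 z (n 0 z (n 6620203 z (n 0 z (n 0 z (n 0 z (n 0 z (n 0 z (n 0 z (n 0 z (n 0 z (n 0 z (n 0 z (n
 0 z z)))))))))))))))) z)))))) (n 473 (n 0 (n 31 (n 0 z (n 2 (n 0 z (n 0 z (n 0 z (n 0 z (n 2 (n
 0 z (n 0 z (n 0 z (n 0 z (n 0 z (n 0 z z)))))) (n 2 (n 0 z (n 0 z (n 0 z (n 0 z (n 0 z (n 0 z
 z)))))) (n 2 (n 0 z (n 0 z (n 0 z (n 0 z (n 0 z (n 0 z z)))))) (n 2 (n 0 z (n 0 z (n 0 z (n 0 z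
 (n 0 z (n 0 z z)))))) (n 2 (n 0 z (n 0 z (n 0 z (n 0 z (n 0 z (n 0 z z)))))) z))))))))) (n 0 z
 (n 0 z (n 0 z (n 0 z (n 0 z (n 0 z (n 0 z (n 0 z z)))))))))) (n 31 (n 0 z (n 0 z (n 0 z (n 2 (n
 0 z (n 0 z (n 0 z (n 1 z (n 1 z (n 1 z (n 1 z (n 2 (n 0 z (n 0 z (n 0 z (n 0 z (n 0 z (n 0 z
 z)))))) z)))))))) (n 0 z (n 0 z (n 0 z (n 0 z (n 0 z (n 0 z z)))))))))) (n 31 (n 0 z (n 0 z (n
 0 z (n 0 z (n 0 z (n 0 z (n 0 z (n 0 z (n 0 z (n 0 z z)))))))))) (n 31 (n 0 z (n 0 z (n 0 z (n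
 0 z (n 0 z (n 0 z (n 0 z (n 0 z (n 0 z (n 0 z z)))))))))) (n 31 (n 0 z (n 0 z (n 0 z (n 0 z (n
 0 z (n 0 z (n 0 z (n 0 z (n 0 z (n 0 z z)))))))))) (n 27 (n 0 z (n 0 z (n 0 z (n 0 z (n 2 (n 0
 z (n 1 z (n 1 z (n 2 (n 0 z (n 0 z (n 0 z (n 0 z (n 0 z (n 0 z z)))))) z)))) (n 0 z z)))))) (n
 27 (n 0 z (n 0 z (n 0 z (n 2 (n 1 z (n 1 z (n 2 (n 0 z (n 0 z (n 0 z (n 0 z (n 0 z (n 0 z
 z)))))) z))) (n 0 z (n 0 z z)))))) (n 3 (n 0 z (n 0 z (n 0 z (n 0 z (n 0 z (n 0 z (n 0 z (n 0 z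
 (n 0 z (n 0 z (n 0 z (n 2 (n 0 z (n 0 z z)) (n 0 z (n 0 z (n 0 z (n 0 z (n 0 z (n 0 z (n 0 z (n
 0 z (n 0 z (n 0 z (n 0 z (n 0 z (n 0 z (n 0 z (n 0 z (n 0 z (n 0 z (n 0 z (n 0 z (n 0 z (n 0 z
 (n 0 z (n 0 z (n 0 z (n 0 z (n 0 z (n 0 z (n 0 z (n 0 z (n 0 z (n 0 z (n 0 z (n 0 z (n 0 z
 z)))))))))))))))))))))))))))))))))))))))))))))) (n 3 (n 0 z (n 0 z (n 0 z (n 0 z (n 0 z (n 0 z
 (n 0 z (n 0 z (n 0 z (n 0 z (n 0 z (n 0 z (n 0 z (n 0 z (n 0 z (n 2 (n 0 z z) (n 0 z (n 0 z (n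
 0 z (n 0 z (n 0 z (n 0 z (n 0 z (n 0 z (n 0 z (n 0 z (n 0 z (n 0 z (n 0 z (n 0 z (n 0 z (n 0 z
 (n 0 z (n 0 z (n 0 z (n 0 z (n 0 z (n 0 z (n 0 z (n 0 z (n 0 z (n 0 z (n 0 z (n 0 z (n 0 z (n 0
 z z)))))))))))))))))))))))))))))))))))))))))))))) (n 3 (n 0 z (n 0 z (n 0 z (n 0 z (n 0 z (n 0
 z (n 0 z (n 0 z (n 0 z (n 0 z (n 0 z (n 0 z (n 0 z (n 0 z (n 0 z (n 0 z (n 0 z (n 0 z (n 0 z (n
 0 z (n 0 z (n 0 z (n 0 z (n 0 z (n 0 z (n 0 z (n 0 z (n 0 z (n 0 z (n 0 z (n 0 z (n 0 z (n 0 z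
 (n 0 z (n 0 z (n 0 z (n 0 z (n 0 z (n 0 z (n 0 z (n 0 z (n 0 z (n 0 z (n 0 z (n 0 z (n 0 z
 z)))))))))))))))))))))))))))))))))))))))))))))) z)))))))))) (n 0 (n 0 z (n 0 z (n 0 z (n 0 z (n
 33 (n 0 z (n 0 z (n 0 z (n 0 z (n 0 z (n 2 (n 0 z (n 2 (n 0 z (n 0 z (n 0 z (n 0 z (n 0 z (n 0
 z z)))))) (n 2 (n 0 (n 8873235 z z) (n 0 (n 8873235 z z) (n 0 z (n 0 z (n 0 z (n 0 (n 8873235 z
 (n 8873235 z z)) z)))))) (n 2 (n 0 z (n 0 z (n 0 z (n 0 z (n 0 z (n 0 z z)))))) z)))) (n 0 z (n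
 0 z (n 0 z z))))))))) (n 33 (n 0 z (n 0 z (n 2 (n 2 (n 0 z (n 0 z (n 0 z (n 0 z (n 0 z (n 0 (n
 2164859 z z) z)))))) (n 2 (n 0 z (n 0 z (n 0 z (n 0 z (n 0 z (n 0 z z)))))) (n 2 (n 0 z (n 0 z
 (n 0 z (n 0 z (n 0 z (n 0 z z)))))) z))) (n 0 z (n 0 z (n 0 z (n 0 z (n 0 z (n 0 z z)))))))))
 (n 937 (n 0 z (n 0 z (n 0 z (n 0 z (n 0 z (n 0 z (n 2 (n 0 z (n 0 z z)) (n 0 z (n 0 z (n 0 z
 z)))))))))) (n 937 (n 0 z (n 0 z (n 0 z (n 0 z (n 0 z (n 0 z (n 0 z (n 2 (n 0 z z) (n 0 z (n 0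
 z z)))))))))) (n 937 (n 2 z (n 0 z (n 0 z (n 0 z (n 0 z (n 0 z (n 0 z (n 0 z (n 0 z (n 0 z
 z)))))))))) z))))))))) (n 0 (n 0 z (n 0 z (n 0 z (n 27 (n 0 z (n 0 z (n 0 z (n 0 z (n 0 z (n 0
 z (n 0 z (n 0 z (n 0 z (n 0 z (n 0 z (n 0 z (n 0 z (n 0 z (n 0 z (n 0 z z)))))))))))))))) (n 27
 (n 0 z (n 0 z (n 0 z (n 0 z (n 0 z (n 0 z (n 0 z (n 0 z (n 0 z (n 0 z (n 0 z (n 0 z (n 0 z (n 0
 z (n 0 z (n 0 z z)))))))))))))))) (n 917 (n 0 z (n 0 z (n 0 z (n 0 z (n 0 z (n 0 z (n 0 z (n 0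
 z (n 0 z (n 0 z (n 0 z (n 0 z (n 0 z z))))))))))))) (n 917 (n 0 z (n 0 z (n 0 z (n 0 z (n 0 z
 (n 0 z (n 0 z (n 0 z (n 0 z (n
 0x398ba8301c01d45cc180600e82c40a07007657651018032a32a081c05d95d8c40602ec8ca6207007546531038032a321880c01d0d94840600ea8c6400380807f808080808080808080808080808080808080808080807f8080808080808180808080808180808080807f80808180805809
 z (n 0 z (n 0 z (n 0 z z))))))))))))) (n 917 (n 0 z (n 2 z (n 0 z (n 0 z (n 0 z (n 0 z (n 0 z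
 (n 0 z (n 0 z (n 0 z (n 0 z (n 0 z (n 0 z z))))))))))))) z)))))))) (n 0 (n 0 z (n 0 z (n 7 (n 0
 z (n 0 z (n 0 z (n 0 z (n 0 z (n 0 z (n 0 z (n 0 z (n 0 z (n 0 z (n 2 (n 0 z (n 2 (n 0 z (n 0 z
 (n 0 z (n 0 z (n 0 z (n 0 (n 8790067 z z) z)))))) (n 2 (n 0 z (n 0 z (n 0 z (n 0 z (n 0 z (n 0
 z z)))))) (n 2 (n 0 z (n 0 z (n 0 z (n 0 z (n 0 z (n 0 z z)))))) z)))) (n 0 z (n 0 z (n 0 z (n
 0 z (n 0 z (n 0 z (n 0 z (n 0 z (n 0 z (n 0 z (n 0 z (n 0 z (n 0 z (n 0 z (n 0 z (n 0 z (n 0 z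
 (n 0 z (n 0 z (n 0 z (n 0 z (n 0 z (n 0 z (n 0 z (n 0 z z))))))))))))))))))))))))))))))))))))
 (n 7 (n 0 z (n 0 z (n 0 z (n 0 z (n 0 z (n 0 z (n 0 z (n 0 z (n 0 z (n 0 z (n 0 z (n 0 z (n 0 z
 (n 0 z (n 2 (n 1 z (n 2 (n 0 z (n 0 z (n 0 z (n 0 z (n 0 (n 13 z z) (n 0 (n 8730155 z (n
 8730155 z z)) z)))))) (n 2 (n 0 z (n 0 z (n 0 z (n 0 z (n 0 z (n 0 z z)))))) z))) (n 0 z (n 0 z
 (n 0 z (n 0 z (n 0 z (n 0 z (n 0 z (n 0 z (n 0 z (n 0 z (n 0 z (n 0 z (n 0 z (n 0 z (n 0 z (n 0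
 z (n 0 z (n 0 z (n 0 z (n 0 z (n 0 z z)))))))))))))))))))))))))))))))))))) (n 51 (n 0 z (n
 7741491 z (n 0 z (n 0 z (n 0 z (n 0 z (n 0 z (n 0 z (n 0 z (n 0 z z)))))))))) (n 51 (n 0 z (n 0
 z (n 2 (n 0 z z) (n 0 z (n 0 z (n 0 z (n 0 z (n 0 z (n 0 z (n 0 z z)))))))))) (n 51 (n 0 z (n 0
 z (n 0 z (n 0 z (n 0 z (n 0 z (n 7741707 z (n 0 z (n 0 z (n 0 z z)))))))))) z))))))) (n 0 (n 0
 z (n 55 (n 0 z (n 0 z (n 0 z (n 2 (n 0 z (n 2 (n 0 z (n 0 z (n 0 z (n 0 z (n 0 z (n 0 (n 12 z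
 z) z)))))) (n 2 (n 0 z (n 0 z (n 0 z (n 0 z (n 0 z (n 0 z z)))))) (n 2 (n 0 z (n 0 z (n 0 z (n
 0 z (n 0 z (n 0 z z)))))) z)))) (n 0 z (n 0 z (n 0 z (n 0 z (n 0 z (n 0 z (n 0 z (n 0 z (n 0 z
 z))))))))))))) (n 55 (n 0 z (n 0 z (n 0 z (n 0 z (n 2 (n 2 (n 0 z (n 0 z (n 0 z (n 0 z (n 0 z
 (n 0 (n 2164859 z z) z)))))) (n 2 (n 0 z (n 0 z (n 0 z (n 0 z (n 0 z (n 0 z z)))))) (n 2 (n 0 z
 (n 0 z (n 0 z (n 0 z (n 0 z (n 0 z z)))))) z))) (n 0 z (n 0 z (n 0 z (n 0 z (n 0 z (n 0 z (n 0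
 z (n 0 z z))))))))))))) (n 3 (n 0 z (n 0 z (n 2 (n 0 z (n 0 z z)) (n 0 z (n 0 z (n 0 z (n 0 z
 (n 0 z (n 0 z (n 0 z z)))))))))) (n 3 (n 0 z (n 0 z (n 0 z (n 2 (n 0 z z) (n 0 z (n 0 z (n 0 z
 (n 0 z (n 0 z (n 0 z z)))))))))) (n 3 (n 0 z (n 0 z (n 0 z (n 0 z (n 0 z (n 0 z (n 0 z (n 0 z
 (n 0 z (n 0 z z)))))))))) z)))))) (n 0 (n 33 (n 0 z (n 0 z (n 0 z z))) (n 33 (n 0 z (n 0 z (n 0
 z z))) (n 913 (n 0 z (n 2 (n 0 z (n 0 z z)) (n 0 z (n 0 z (n 0 z (n 0 z (n 0 z (n 0 z (n 0 z (n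
 0 z (n 0 z z))))))))))) (n 913 (n 0 z (n 0 z (n 0 z (n 0 z (n 0 z (n 0 z (n 0 z (n 0 z (n 0 z
 (n 0 z (n 0 z z))))))))))) (n 913 (n 0 z (n 0 z (n 0 z (n 0 z (n 0 z (n 0 z (n 0 z (n 0 z (n 0
 z (n 0 z (n 0 z z))))))))))) z))))) (n 0 (n 0 z (n 9 (n 0 z (n 0 z (n 0 z (n 0 z (n 0 z (n 0 z
 (n 0 z z))))))) (n 9 (n 0 z (n 0 z (n 0 z (n 0 z (n 0 z (n 0 z (n 0 z z))))))) (n 9 (n 0 z (n 0
 z (n 0 z (n 0 z (n 0 z (n 2 z (n 0 z z))))))) z)))) (n 0 (n 3 (n 0 z (n 0 z (n 0 z (n 0 z (n 0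
 z (n 0 z (n 0 z (n 0 z (n 0 z z))))))))) (n 3 (n 0 z (n 0 z (n 0 z (n 0 z (n 0 z (n 0 z (n 0 z
 (n 0 z (n 0 z z))))))))) (n 3 (n 0 z (n 0 z (n 0 z (n 0 z (n 0 z (n 2 z (n 0 z (n 0 z (n 0 z
 z))))))))) z))) (n 0 (n 0 z (n 0 z z)) (n 0 (n 0 z z) (n 0 z z))))))))))) (n 0 (n 1 (n 6492195
 z (n 6566403 z (n 6492195 z (n 6492195 z (n 6492195 z (n 6492195 z z)))))) (n 0 z (n 0 z (n 0 z
 z)))) (n 0 z z)))) (n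
 0x588aa2bb1d14c26871b37070b8c551461446211b3107638986cb66a08a71825574329c6c0 (n 0 (n 179 (n 0 z
 (n 2 z (n 3282443 z (n 0 z z)))) (n 255 (n 10 z (n 18 z (n
 0x4643530203801b29a18101c00d95150c00e00ca86c640078007f780880c7ff7f97f67e17ef80580280a7ff81a80f84c7e17e480b8087df8007fe82c7fa7f37ed7b781a8687b98057fb7f880b8047e37ee7f58178407f78337db7e67f27fe82d7fb8002011
 z (n 0 z (n 26 z (n 0 z (n 0 z (n 0 z (n 6496595 z (n 6358347 z (n 0 z z))))))))))) (n 131 (n 0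
 z (n 0 z (n 6496595 z z))) (n 3 (n 34 z (n 0 z (n 6496595 z (n 0 z (n 0 z z))))) (n 1 (n 42 z
 (n 50 z (n 0 z (n 58 z (n 66 z (n
 0x2aca6ca64078007fc7f98047fc80b7fc7fd7f58028057f78118008078227ff7f48047fb7fe8018018147fa7e27fd7d581581c7e68067fc8098028158018037f880d8097f18147fb7f57e780081a8007f70811
 z (n
 0x346208007ff8008017ff8017fe7fe7fb8017fd7ff8028048008177fb7f57fb7fe7f98008028088027fc7f97eb80981b7eb7f98027fd8028067f97ff8018078197fc80c7f77f47ff7fd80d7fe8000051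
 z (n 2164299 z (n 0 z (n 74 z (n 0 z (n
 0x4c6508007ff7ff8017ff8027fe7fc7f98017fc7ff8038068008247f97ee7f87fd7f480280380c8027fa7f47df80e82b7de7f58047fb8038097f57fe80380b8267f98137f27ee7fe7fa8147fd8000051
 z (n 0 z (n 0 z z)))))))))))))) (n 0 (n 0 z (n 0 z (n 0 z (n 82 z (n 0 z (n 2164315 z (n 90 z
 (n 98 z (n 106 z z))))))))) z)))))) (n 131 (n 0 (n 235 (n 0 z (n 0 z (n 0 z (n 0 z (n 2 (n 0 z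
 (n 0 z (n 1 z (n 1 z (n 1 z (n 1 z (n 1 z (n 1 z (n 1 z (n 1 z (n 1 z (n 1 z z)))))))))))) (n 0
 z (n 0 z (n 0 z (n 0 z (n 0 z (n 0 z (n 0 z (n 0 z (n 0 z (n 0 z z))))))))))))))) (n 235 (n 0 z
 (n 0 z (n 0 z (n 0 z (n 0 z (n 0 z (n 0 z (n 0 z (n 0 z (n 0 z (n 0 z (n 0 z (n 0 z (n 0 z (n 0
 z z))))))))))))))) (n 235 (n 0 z (n 0 z (n 0 z (n 0 z (n 0 z (n 0 z (n 0 z (n 0 z (n 0 z (n 2
 (n 1 z (n 1 z (n 1 z (n 2 (n 0 z (n 0 z (n 0 z (n 0 z (n 0 z (n 0 (n 1356 z z) z)))))) (n 1 z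
 (n 1 z (n 1 z (n 2 (n 0 z (n 0 z (n 0 z (n 0 z (n 0 z (n 0 z z)))))) (n 1 z (n 2 (n 0 z (n 0 z
 (n 0 z (n 0 z (n 0 z (n 0 z z)))))) z)))))))))) (n 0 z (n 0 z (n 0 z (n 0 z (n 0 z
 z))))))))))))))) (n 233 (n 0 z (n 0 z (n 0 z (n 0 z (n 0 z (n 0 z (n 0 z z))))))) (n 339 (n 0 z
 (n 0 z (n 0 z (n 0 z (n 0 z (n 0 z (n 0 z (n 0 z (n 0 z (n 0 z (n 0 z (n 0 z (n 0 z (n 0 z (n 0
 z (n 0 z (n 0 z z))))))))))))))))) (n 339 (n 0 z (n 0 z (n 0 z (n 0 z (n 0 z (n 0 z (n 0 z (n 0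
 z (n 0 z (n 0 z (n 0 z (n 0 z (n 0 z (n 0 z (n 0 z (n 0 z (n 0 z z))))))))))))))))) (n 339 (n 0
 z (n 0 z (n 0 z (n 2 (n 0 z (n 0 z (n 1 z (n 2 (n 0 z (n 0 z (n 0 z (n 0 z (n 0 z (n 0 z
 z)))))) (n 1 z (n 2 (n 0 z (n 0 z (n 0 z (n 0 z (n 0 z (n 0 z z)))))) z)))))) (n 0 z (n 0 z (n
 0 z (n 0 z (n 0 z (n 0 z (n 0 z (n 0 z (n 0 z (n 0 z (n 0 z (n 0 z (n 0 z z))))))))))))))))) (n
 339 (n 0 z (n 2 (n 0 z (n 1 z (n 2 (n 0 z (n 0 z (n 0 z (n 0 z (n 0 z (n 0 z z)))))) (n 1 z (n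
 2 (n 0 z (n 0 z (n 0 z (n 0 z (n 0 z (n 0 z z)))))) z))))) (n 0 z (n 0 z (n 0 z (n 0 z (n 0 z
 (n 0 z (n 0 z (n 0 z (n 0 z (n 0 z (n 0 z (n 0 z (n 0 z (n 0 z (n 0 z z))))))))))))))))) (n 339
 (n 0 z (n 0 z (n 0 z (n 0 z (n 0 z (n 0 z (n 0 z (n 0 z (n 0 z (n 0 z (n 0 z (n 0 z (n 0 z (n 0
 z (n 0 z (n 0 z (n 0 z z))))))))))))))))) (n 337 (n 0 z (n 0 z (n 0 z (n 0 z (n 0 z (n 0 z (n 0
 z (n 0 z (n 0 z (n 0 z z)))))))))) (n 337 (n 0 z (n 0 z (n 0 z (n 0 z (n 0 z (n 0 z (n 2 (n 0 z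
 (n 0 z z)) (n 0 z (n 0 z (n 0 z z)))))))))) (n 337 (n 0 z (n 0 z (n 0 z (n 0 z (n 0 z (n 0 z (n
 0 z (n 0 z (n 0 z (n 0 z z)))))))))) (n 337 (n 0 z (n 0 z (n 0 z (n 2 z (n 0 z (n 0 z (n 0 z (n
 0 z (n 0 z (n 0 z z)))))))))) z))))))))))))) (n 0 (n 0 z (n 0 z (n 507 (n 0 z (n 0 z (n 0 z (n
 2 (n 1 z (n 1 z (n 1 z (n 1 z (n 1 z (n 1 z (n 1 z (n 1 z (n 1 z z))))))))) (n 0 z (n 0 z (n 0
 z (n 0 z (n 0 z (n 0 z (n 0 z (n 0 z (n 0 z (n 0 z (n 0 z (n 0 z (n 0 z z))))))))))))))))) (n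
 437 (n 0 z (n 0 z (n 0 z (n 0 z (n 0 z (n 0 z (n 0 z (n 0 z (n 0 z (n 0 z (n 0 z (n 0 z (n 0 z
 (n 0 z (n 0 z (n 0 z (n 0 z z))))))))))))))))) (n 437 (n 0 z (n 0 z (n 0 z (n 2 (n 0 z (n 0 z
 (n 0 z (n 1 z (n 2 (n 0 z (n 0 z (n 0 z (n 0 z (n 0 z (n 0 z z)))))) (n 1 z (n 1 z z))))))) (n
 0 z (n 0 z (n 0 z (n 0 z (n 0 z (n 0 z (n 0 z (n 0 z (n 0 z (n 0 z (n 0 z (n 0 z (n 0 z
 z))))))))))))))))) (n 437 (n 0 z (n 0 z (n 0 z (n 0 z (n 0 z (n 0 z (n 0 z (n 2 (n 0 z (n 0 z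
 (n 1 z (n 2 (n 0 z (n 0 z (n 0 z (n 0 z (n 0 z (n 0 z z)))))) (n 1 z (n 2 (n 0 z (n 0 z (n 0 z
 (n 0 z (n 0 z (n 0 (n 2020 z z) z)))))) z)))))) (n 0 z (n 0 z (n 0 z (n 0 z (n 0 z (n 0 z (n 0
 z (n 0 z (n 0 z z))))))))))))))))) (n 437 (n 0 z (n 0 z (n 0 z (n 0 z (n 0 z (n 0 z (n 0 z (n 0
 z (n 0 z (n 0 z (n 0 z (n 0 z (n 0 z (n 0 z (n 0 z (n 0 z (n 0 z z))))))))))))))))) (n 437 (n 0
 z (n 0 z (n 0 z (n 0 z (n 0 z (n 0 z (n 0 z (n 0 z (n 2 (n 1 z (n 1 z (n 1 z (n 1 z z)))) (n 0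
 z (n 0 z (n 0 z (n 0 z (n 0 z (n 0 z (n 0 z (n 0 z z))))))))))))))))) (n 505 (n 0 z (n 0 z (n 2
 (n 0 z (n 0 z (n 0 z z))) (n 0 z (n 0 z (n 0 z (n 0 z (n 0 z z)))))))) (n 505 (n 2 (n 0 z (n 0
 z z)) (n 0 z (n 0 z (n 0 z (n 0 z (n 0 z (n 0 z (n 0 z z)))))))) (n 505 (n 0 z (n 0 z (n 0 z (n
 0 z (n 0 z (n 0 z (n 0 z (n 0 z z)))))))) (n 505 (n 0 z (n 0 z (n 0 z (n 0 z (n 0 z (n 2 z (n 0
 z (n 0 z z)))))))) z)))))))))))) (n 0 (n 0 z (n 11 (n 0 z (n 0 z (n 0 z (n 0 z (n 0 z (n 0 z (n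
 0 z (n 0 z (n 0 z (n 0 z (n 0 z (n 0 z (n 0 z (n 0 z (n 0 z (n 0 z (n 0 z (n 0 z (n 0 z (n 0 z
 (n 0 z (n 0 z (n 0 z (n 0 z (n 0 z z))))))))))))))))))))))))) (n 3 (n 0 z (n 0 z (n 0 z (n 2 (n
 0 z (n 0 z (n 0 z (n 0 z (n 1 z (n 2 (n 0 z (n 0 z (n 0 z (n 0 z (n 0 z (n 0 z z)))))) (n 1 z
 (n 2 (n 0 z (n 0 z (n 0 z (n 0 z (n 0 z (n 0 z z)))))) z)))))))) (n 0 z (n 0 z (n 0 z (n 0 z (n
 0 z (n 0 z (n 0 z (n 0 z (n 0 z (n 0 z (n 0 z (n 0 z (n 0 z (n 0 z (n 0 z (n 0 z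
 z)))))))))))))))))))) (n 3 (n 0 z (n 0 z (n 0 z (n 0 z (n 0 z (n 0 z (n 0 z (n 0 z (n 0 z (n 0
 z (n 0 z (n 0 z (n 0 z (n 0 z (n 0 z (n 0 z (n 0 z (n 0 z (n 0 z (n 0 z z))))))))))))))))))))
 (n 3 (n 0 z (n 0 z (n 0 z (n 0 z (n 0 z (n 0 z (n 2 (n 0 z (n 0 z (n 1 z (n 2 (n 0 z (n 0 z (n
 0 z (n 0 z (n 0 z (n 0 z z)))))) (n 2 (n 0 z (n 0 z (n 0 z (n 0 z (n 0 z (n 0 (n 4 z z) z))))))
 (n 2 (n 0 z (n 0 z (n 0 z (n 0 z (n 0 z (n 0 z z)))))) z)))))) (n 0 z (n 0 z (n 0 z (n 0 z (n 0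
 z (n 0 z (n 0 z (n 0 z (n 0 z (n 0 z (n 0 z (n 0 z (n 0 z z)))))))))))))))))))) (n 3 (n 0 z (n
 0 z (n 0 z (n 0 z (n 0 z (n 0 z (n 0 z (n 2 (n 0 z (n 1 z (n 2 (n 0 z (n 0 z (n 0 z (n 0 z (n 0
 z (n 0 z z)))))) (n 1 z (n 2 (n 0 z (n 0 z (n 0 z (n 0 z (n 0 z (n 0 z z)))))) z))))) (n 0 z (n
 0 z (n 0 z (n 0 z (n 0 z (n 0 z (n 0 z (n 0 z (n 0 z (n 0 z (n 0 z (n 0 z z))))))))))))))))))))
 (n 3 (n 0 z (n 0 z (n 0 z (n 0 z (n 0 z (n 0 z (n 0 z (n 0 z (n 0 z (n 0 z (n 0 z (n 0 z (n 0 z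
 (n 0 z (n 0 z (n 0 z (n 0 z (n 0 z (n 0 z (n 0 z z)))))))))))))))))))) (n 1 (n 0 z (n 0 z (n 0
 z (n 0 z (n 0 z (n 0 z (n 0 z z))))))) (n 1 (n 0 z (n 0 z (n 0 z (n 2 (n 0 z (n 0 z z)) (n 0 z
 (n 0 z (n 0 z z))))))) (n 1 (n 0 z (n 0 z (n 0 z (n 0 z (n 0 z (n 2 (n 0 z z) (n 0 z z)))))))
 (n 1 (n 0 z (n 0 z (n 0 z (n 0 z (n 0 z (n 0 z (n 2 z z))))))) z))))))))))) (n 0 (n 399 (n 0 z
 (n 0 z (n 0 z (n 2 (n 1 z (n 1 z (n 2 (n 0 z (n 0 z (n 0 z (n 0 z (n 0 z (n 0 (n 996 z z)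
 z)))))) (n 1 z (n 1 z (n 1 z (n 2 (n 0 z (n 0 z (n 0 z (n 0 z (n 0 z (n 0 z z)))))) (n 1 z (n 2
 (n 0 z (n 0 z (n 0 z (n 0 z (n 0 z (n 0 z z)))))) z))))))))) (n 6559531 z (n 0 z (n 0 z (n 0 z
 (n 0 z (n 0 z (n 0 z (n 0 z (n 0 z (n 0 z (n 0 z (n 0 z (n 0 z (n 0 z (n 0 z (n 0 z (n 0 z (n 0
 z (n 0 z (n 0 z (n 0 z z))))))))))))))))))))))))) (n 249 (n 0 z (n 0 z (n 0 z (n 0 z (n 0 z (n
 0 z (n 0 z (n 0 z (n 0 z (n 0 z (n 0 z (n 0 z (n 0 z z))))))))))))) (n 249 (n 0 z (n 0 z (n 0 z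
 (n 0 z (n 0 z (n 2 (n 0 z (n 0 z (n 0 z (n 1 z (n 2 (n 0 z (n 0 z (n 0 z (n 0 z (n 0 z (n 0 z
 z)))))) (n 1 z (n 2 (n 0 z (n 0 z (n 0 z (n 0 z (n 0 z (n 0 z z)))))) z))))))) (n 0 z (n 0 z (n
 0 z (n 0 z (n 0 z (n 0 z (n 0 z z))))))))))))) (n 249 (n 2 (n 0 z (n 0 z (n 1 z (n 2 (n 0 z (n
 0 z (n 0 z (n 0 z (n 0 z (n 0 z z)))))) (n 1 z (n 2 (n 0 z (n 0 z (n 0 z (n 0 z (n 0 z (n 0 (n
 1588 z z) z)))))) z)))))) (n 0 z (n 0 z (n 0 z (n 0 z (n 0 z (n 0 z (n 0 z (n 0 z (n 0 z (n 0 z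
 (n 0 z (n 0 z z))))))))))))) (n 249 (n 0 z (n 0 z (n 0 z (n 0 z (n 0 z (n 0 z (n 0 z (n 0 z (n
 0 z (n 0 z (n 0 z (n 0 z (n 0 z z))))))))))))) (n 249 (n 0 z (n 0 z (n 0 z (n 2 (n 1 z (n 2 (n
 0 (n 6492291 z z) (n 0 z (n 0 (n 1588 z z) (n 0 z (n 0 z (n 0 (n 7540867 z (n 1588 z z))
 z)))))) (n 1 z (n 2 (n 0 z (n 0 (n 6428683 z z) (n 0 (n 1588 z z) (n 0 z (n 0 z (n 0 (n 8591115
 z (n 7477259 z z)) z)))))) z)))) (n 0 z (n 0 z (n 0 z (n 0 z (n 0 z (n 0 z (n 0 z (n 0 z (n 0 z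
 z))))))))))))) (n 397 (n 0 z (n 0 z (n 0 z (n 0 z (n 2 (n 0 z (n 0 z (n 0 z z))) (n 0 z (n 0 z
 (n 0 z (n 0 z (n 0 z (n 0 z z))))))))))) (n 397 (n 0 z (n 0 z (n 0 z (n 0 z (n 0 z (n 0 z (n 0
 z (n 0 z (n 0 z (n 0 z (n 0 z z))))))))))) (n 397 (n 0 z (n 0 z (n 2 (n 0 z z) (n 0 z (n 0 z (n
 0 z (n 0 z (n 0 z (n 0 z (n 0 z (n 0 z z))))))))))) (n 397 (n 0 z (n 0 z (n 0 z (n 0 z (n 0 z
 (n 0 z (n 0 z (n 0 z (n 0 z (n 0 z (n 0 z z))))))))))) z)))))))))) (n 0 (n 99 (n 2 (n 0 z (n 0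
 z (n 0 z (n 0 z (n 1 z (n 2 (n 0 z (n 0 z (n 0 z (n 0 z (n 0 z (n 0 z z)))))) (n 1 z (n 1 z
 z)))))))) (n 0 z (n 0 z (n 0 z (n 0 z (n 0 z (n 0 z (n 0 z (n 0 z (n 0 z (n 0 z z))))))))))) (n
 99 (n 0 z (n 0 z (n 0 z (n 0 z (n 0 z (n 0 z (n 0 z (n 0 z (n 0 z (n 0 z (n 0 z z))))))))))) (n
 99 (n 0 z (n 0 z (n 2 (n 0 z (n 0 z (n 1 z (n 2 (n 0 z (n 0 z (n 0 z (n 0 z (n 0 z (n 0 z
 z)))))) (n 1 z (n 2 (n 0 z (n 0 z (n 0 z (n 0 z (n 0 z (n 0 z z)))))) z)))))) (n 0 z (n 0 z (n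
 0 z (n 0 z (n 0 z (n 0 z (n 0 z (n 0 z z))))))))))) (n 99 (n 0 z (n 2 (n 0 z (n 1 z (n 2 (n 0 z
 (n 0 z (n 0 z (n 0 z (n 0 z (n 0 z z)))))) (n 1 z (n 2 (n 0 z (n 0 z (n 0 z (n 0 z (n 0 z (n 0
 z z)))))) z))))) (n 0 z (n 0 z (n 0 z (n 0 z (n 0 z (n 0 z (n 0 z (n 0 z (n 0 z z))))))))))) (n
 99 (n 0 z (n 0 z (n 0 z (n 0 z (n 0 z (n 0 z (n 0 z (n 0 z (n 0 z (n 0 z (n 0 z z))))))))))) (n
 97 (n 0 z (n 0 z (n 0 z (n 0 z (n 0 z (n 0 z (n 0 z (n 0 z (n 0 z (n 0 z z)))))))))) (n 97 (n 0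
 z (n 0 z (n 0 z (n 0 z (n 2 (n 0 z (n 0 z z)) (n 0 z (n 0 z (n 0 z (n 0 z (n 0 z z)))))))))) (n
 97 (n 0 z (n 0 z (n 0 z (n 0 z (n 0 z (n 2 (n 0 z z) (n 0 z (n 0 z (n 0 z (n 0 z z)))))))))) (n
 97 (n 0 z (n 0 z (n 0 z (n 2 z (n 0 z (n 0 z (n 0 z (n 0 z (n 0 z (n 0 z z)))))))))) z)))))))))
 (n 0 (n 0 z (n 0 z (n 0 z (n 0 z (n 1 (n 0 z (n 0 z (n 0 z (n 0 z (n 0 z (n 0 z (n 0 z (n 0 z
 (n 0 z (n 0 z (n 0 z (n 0 z z)))))))))))) (n 1 (n 0 z (n 2 (n 0 z (n 0 z z)) (n 0 z (n 0 z (n 0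
 z (n 0 z (n 0 z (n 0 z (n 0 z (n 0 z (n 0 z (n 0 z z)))))))))))) (n 1 (n 0 z (n 0 z (n 0 z (n 0
 z (n 0 z (n 0 z (n 0 z (n 0 z (n 0 z (n 0 z (n 0 z (n 0 z z)))))))))))) (n 1 (n 0 z (n 0 z (n 0
 z (n 0 z (n 0 z (n 0 z (n 0 z (n 2 z (n 0 z (n 0 z (n 0 z (n 0 z z)))))))))))) z)))))))) (n 0
 (n 0 z (n 0 z (n 0 z (n 25 (n 0 z (n 0 z (n 0 z (n 0 z (n 0 z (n 0 z (n 0 z (n 0 z (n 0 z (n 0
 z (n 0 z (n 0 z z)))))))))))) (n 25 (n 2 (n 0 z (n 0 z z)) (n 0 z (n 0 z (n 0 z (n 0 z (n 0 z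
 (n 0 z (n 0 z (n 0 z (n 0 z (n 0 z (n 0 z z)))))))))))) (n 25 (n 0 z (n 0 z (n 0 z (n 0 z (n 0
 z (n 0 z (n 0 z (n 0 z (n 0 z (n 0 z (n 0 z (n 0 z z)))))))))))) (n 25 (n 0 z (n 0 z (n 0 z (n
 0 z (n 2 z (n 0 z (n 0 z (n 0 z (n 0 z (n 0 z (n 0 z (n 0 z z)))))))))))) z))))))) (n 0 (n 0 z
 (n 0 z (n 25 (n 0 z (n 0 z (n 0 z (n 0 z (n 0 z (n 0 z (n 0 z (n 0 z (n 2 (n 0 z (n 0 z (n 0 z
 z))) (n 0 z (n 0 z (n 0 z (n 0 z (n 0 z z)))))))))))))) (n 25 (n 0 z (n 0 z (n 0 z (n 0 z (n 0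
 z (n 0 z (n 0 z (n 0 z (n 0 z (n 0 z (n 0 z (n 0 z (n 0 z (n 0 z z)))))))))))))) (n 25 (n 0 z
 (n 0 z (n 0 z (n 0 z (n 2 (n 0 z z) (n 0 z (n 0 z (n 0 z (n 0 z (n 0 z (n 0 z (n 0 z (n 0 z (n
 0 z z)))))))))))))) (n 25 (n 0 z (n 0 z (n 0 z (n 0 z (n 0 z (n 0 z (n 0 z (n
 0x1bba9b21901c02594994800e028ca8a640037ff7d683e81683478f7d67b686b8157f68128028538339297a279c82a81c7687ff7ec87f7eb7c97986d888093e70e7af83179687c80c7c57dc8098308eb81889676075a79281a8837a78201811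
 z (n 0 z (n 0 z (n 0 z (n 0 z (n 0 z (n 0 z z)))))))))))))) z)))))) (n 0 (n 0 z (n 5 (n 0 z (n
 0 z (n 0 z (n 0 z (n 2 (n 0 z (n 0 z (n 0 z z))) (n 0 z (n 0 z (n 0 z (n 0 z (n 0 z (n 0 z (n 0
 z z)))))))))))) (n 5 (n 0 z (n 0 z (n 0 z (n 0 z (n 0 z (n 0 z (n 0 z (n 0 z (n 0 z (n 0 z (n 0
 z (n 0 z z)))))))))))) (n 5 (n 0 z (n 0 z (n 2 (n 0 z z) (n 0 z (n 0 z (n 0 z (n 0 z (n 0 z (n
 0 z (n 0 z (n 0 z (n 0 z z)))))))))))) (n 5 (n 0 z (n 0 z (n 0 z (n 0 z (n 0 z (n 0 z (n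
 0x11909d44c06016ea6c864037ff8047fe7fc7f780b7f68007d78068057f780180b8128297f380380a7fe7eb7fe7f380e7fc7e68017cb80c8327cf80b7eb8157ff8057f77ee7fd80b8157f881d7fa7f47ef8078257f77fa1011
 z (n 0 z (n 0 z (n 0 z (n 0 z (n 0 z z)))))))))))) z))))) (n 0 (n 269 (n 0 z (n 0 z (n 0 z (n 0
 z (n 0 z (n 0 z (n 0 z (n 0 z (n 0 z (n 0 z (n 0 z (n 0 z z)))))))))))) (n 269 (n 0 z (n 0 z (n
 0 z (n 0 z (n 0 z (n 0 z (n 0 z (n 0 z (n 0 z (n 0 z (n 0 z (n 0 z z)))))))))))) (n 269 (n 0 z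
 (n 0 z (n 0 z (n 0 z (n 0 z (n 0 z (n 2 (n 0 z z) (n
 0xc7618007ff8008017ff8017fe8017fe8018007ff8018008008017ff8018008007ff8007ff8008008008008008018008008008008008008008008008008008017ff8008007ff8008007ff8008000051
 z (n 0 z (n 0 z (n 0 z (n 0 z z)))))))))))) (n 269 (n 0 z (n 2 z (n 0 z (n 0 z (n 0 z (n 0 z (n
 0 z (n 0 z (n 0 z (n 0 z (n 0 z (n 0 z z)))))))))))) z)))) (n 0 (n 0 z (n 0 z (n 0 z z))) (n 0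
 (n 0 z (n 0 z z)) (n 0 (n 0 z z) (n 0 z z)))))))))))))) (n 0 (n 0 z (n 0 z (n 1 (n 6496595 z (n
 6496595 z (n 6496595 z (n 6496595 z (n 6496595 z (n 6496595 z z)))))) z))) (n 0 z z)))) (n
 0x5849b8424cd82d5ea092e50b4648553d60256844aa222c44c152258d56b0826238424c411 (n 0 (n 599 (n
 6557747 z (n 0 z (n 0 z (n 0 z (n 0 z (n 0 z z)))))) (n 39 (n
 0x6ca8003590802e321005b64200d4c840085908010321000b4207f780a80380c7fa8007f37ff8067fc8117fe7fc7ef80b7f78078037fc8177f582580080981c7e880c8138017f180580080180d7ff7ef8137cc7f380880c8207e881d7bd8107da80b7e97eb0211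
 z (n 2 z (n 0 z (n 0 z (n 0 z (n 0 z (n
 0x2aca6a864038247f47fe7d982f8128288067e280a81d7dc7fd7ae8257e38087ff87d7ad85677e7a583a76385f7e47d77ff8018007bf8068008058637798a383e80277a7bf80a7ca8a17d18a27fc7d08260811
 z (n 0 z (n
 0x12b21006c64200d6c8401a9908034b2100386420026c40000d08003a19000045107f080580680f7d68077e18098188037ef81d7fd8357eb7fa8048017b38377e085d8417c48687bf8198178008007ff8257fb7f67ed7bc87a79f7d07f884d8317e282d77f8217968088137e00291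
 z (n
 0x2ca6ca64038018037fd8027f67fe7f67fc80a7fe7ee80d7ff81b7f88058007ff7e08107ec8198167e781d7f18028028018057fd8068047fb7f97e88207e97f67fb82280a7fe8057e280a7e280680e7fd0811
 z (n 0 z (n 6557747 z (n 0 z (n 0 z (n 0 z (n 0 z (n 10 z (n 0 z (n 0 z (n
 0xca6ca64038008008008008007ff8008008018008008008008008008018007ff8008008008008008008008008007ff8008027ff8008008008008008008008008008008008008008007ff8008018018000811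
 z (n 0 z (n 0 z (n 0 z (n 6557747 z (n 0 z (n 0 z (n 18 z z))))))))))))))))))))))))))) (n 9 (n
 26 z (n 34 z (n 0 z (n 0 z (n 42 z (n 0 z (n 3212843 z (n 0 z (n 50 z (n 0 z (n 58 z
 z))))))))))) (n 27 (n 66 z (n 0 z (n 0 z (n 0 z (n 0 z (n 0 z (n 0 z (n 0 z (n 74 z (n 0 z (n
 2164283 z (n 82 z (n 0 z (n 90 z z)))))))))))))) (n 1 (n 6557747 z (n 0 z (n 0 z (n 0 z (n 98 z
 z))))) (n 0 (n 6624043 z (n 0 z (n 0 z (n 0 z (n 0 z (n 106 z z)))))) z)))))) (n 1 (n 0 (n 0 z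
 (n 0 z (n 1047 (n 0 z (n 0 z (n 0 z (n 0 z (n 0 z (n 0 z (n 0 z (n 0 z (n 0 z (n 2 (n 0 z (n 0
 z (n 0 z (n 0 z (n 1 z (n 1 z (n 1 z (n 1 z (n 1 z (n 1 z z)))))))))) (n 0 z (n 0 z (n 0 z (n 0
 z (n 0 z (n 0 z (n 0 z (n 0 z (n 0 z (n 0 z (n 0 z (n 0 z (n 0 z (n 0 z (n 0 z (n 0 z (n 0 z
 z))))))))))))))))))))))))))) (n 1047 (n 0 z (n 0 z (n 0 z (n 0 z (n 0 z (n 0 z (n 0 z (n 0 z (n
 0 z (n 0 z (n 0 z (n 0 z (n 0 z (n 0 z (n 0 z (n 0 z (n 0 z (n 0 z (n 0 z (n 0 z (n 0 z (n 0 z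
 (n 0 z (n 0 z (n 0 z (n 0 z (n 0 z z))))))))))))))))))))))))))) (n 1047 (n 0 z (n 0 z (n 0 z (n
 0 z (n 0 z (n 0 z (n 0 z (n 0 z (n 0 z (n 0 z (n 0 z (n 0 z (n 0 z (n 0 z (n 0 z (n 0 z (n 0 z
 (n 0 z (n 0 z (n 0 z (n 0 z (n 0 z (n 0 z (n 0 z (n 0 z (n 0 z (n 0 z
 z))))))))))))))))))))))))))) (n 1047 (n 0 z (n 2 (n 0 z (n 1 z (n 2 (n 0 z (n 0 z (n 0 (n 1684
 z z) (n 0 z (n 0 z (n 0 z z)))))) (n 1 z (n 2 (n 0 z (n 0 z (n 0 z (n 0 z (n 0 z (n 0 z z))))))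
 (n 1 z (n 1 z z))))))) (n 0 z (n 0 z (n 0 z (n 0 z (n 0 z (n 0 z (n 0 z (n 0 z (n 0 z (n 0 z (n
 0 z (n 0 z (n 0 z (n 0 z (n 0 z (n 0 z (n 0 z (n 0 z (n 0 z (n 0 z (n 0 z (n 0 z (n 0 z (n 0 z
 (n 0 z z))))))))))))))))))))))))))) (n 1047 (n 0 z (n 0 z (n 0 z (n 0 z (n 0 z (n 0 z (n 0 z (n
 0 z (n 0 z (n 0 z (n 0 z (n 0 z (n 0 z (n 2 (n 1 z (n 1 z (n 1 z (n 2 (n 0 z (n 0 z (n 0 z (n 0
 z (n 0 z (n 0 z z)))))) (n 1 z (n 1 z z)))))) (n 0 z (n 0 z (n 0 z (n 0 z (n 0 z (n 0 z (n 0 z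
 (n 0 z (n 0 z (n 0 z (n 0 z (n 0 z (n 0 z z))))))))))))))))))))))))))) (n 421 (n 0 z (n 0 z (n
 0 z (n 0 z (n 0 z (n 0 z (n 0 z (n 0 z (n 0 z (n 0 z (n 0 z z))))))))))) (n 421 (n 0 z (n 0 z
 (n 0 z (n 2 (n 0 z (n 0 z (n 1 z (n 1 z z)))) (n 0 z (n 0 z (n 0 z (n 0 z (n 0 z (n 0 z (n 0 z
 z))))))))))) (n 421 (n 2 (n 0 z (n 1 z (n 1 z z))) (n 0 z (n 0 z (n 0 z (n 0 z (n 0 z (n 0 z (n
 0 z (n 0 z (n 0 z (n 0 z z))))))))))) (n 421 (n 0 z (n 0 z (n 0 z (n 0 z (n 2 (n 1 z (n 1 z z))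
 (n 0 z (n 0 z (n 0 z (n 0 z (n 0 z (n 0 z z))))))))))) (n 51 (n 0 z (n 0 z (n 0 z (n 0 z (n 0 z
 (n 0 z (n 0 z (n 0 z (n 0 z (n 0 z (n 0 z (n 0 z (n 0 z (n 0 z (n 0 z (n 0 z (n 0 z (n 0 z (n 0
 z (n 0 z (n 2 (n 1 z z) (n 0 z (n 0 z z))))))))))))))))))))))) (n 53 (n 0 z (n 0 z (n 0 z (n 0
 z (n 0 z (n 2 z (n 0 z (n 0 z (n 0 z (n 0 z z)))))))))) z))))))))))))) (n 0 (n 0 z (n 795 (n 2
 (n 0 z (n 0 z (n 0 z (n 0 z (n 1 z (n 2 (n 0 (n 324 z z) (n 0 z (n 0 (n 7407707 z (n 8656731 z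
 z)) (n 0 (n 8734219 z z) (n 0 z (n 0 z z)))))) (n 1 z (n 2 (n 0 (n 324 z z) (n 0 z (n 0 (n 324
 z (n 7684483 z z)) (n 0 z (n 0 z (n 0 (n 6635907 z z) z)))))) (n 1 z (n 1 z z)))))))))) (n 0 z
 (n 0 z (n 0 z (n 0 z (n 0 z (n 0 z (n 0 z (n 0 z (n 0 z (n 0 z (n 0 z (n 0 z (n 0 z (n 0 z (n 0
 z (n 0 z (n 0 z z)))))))))))))))))) (n 795 (n 0 z (n 0 z (n 0 z (n 0 z (n 0 z (n 0 z (n 0 z (n
 0 z (n 0 z (n 0 z (n 0 z (n 0 z (n 0 z (n 0 z (n 0 z (n 0 z (n 0 z (n 0 z z))))))))))))))))))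
 (n 795 (n 0 z (n 0 z (n 0 z (n 0 z (n 0 z (n 0 z (n 0 z (n 0 z (n 0 z (n 0 z (n 0 z (n 0 z (n 0
 z (n 0 z (n 0 z (n 0 z (n 0 z (n 0 z z)))))))))))))))))) (n 795 (n 0 z (n 0 z (n 0 z (n 0 z (n
 0 z (n 0 z (n 0 z (n 0 z (n 0 z (n 0 z (n 0 z (n 0 z (n 0 z (n 0 z (n 2 (n 0 z (n 1 z (n 2 (n 0
 z (n 0 z (n 0 (n 324 z z) (n 0 z (n 0 z (n 0 z z)))))) (n 1 z (n 2 (n 0 z (n 0 z (n 0 z (n 0 z
 (n 0 z (n 0 z z)))))) (n 1 z (n 1 z z))))))) (n 0 z (n 0 z (n 0 z z)))))))))))))))))) (n 795 (n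
 0 z (n 0 z (n 0 z (n 0 z (n 0 z (n 0 z (n 0 z (n 0 z (n 0 z (n 0 z (n 0 z (n 2 (n 1 z (n 2 (n 0
 z (n 0 z (n 0 z (n 0 z (n 0 z (n 0 z z)))))) (n 1 z (n 2 (n 0 z (n 0 z (n 0 z (n 0 z (n 0 z (n
 0 z z)))))) (n 1 z (n 1 z z)))))) (n 0 z (n 0 z (n 0 z (n 0 z (n 0 z (n 0 z z))))))))))))))))))
 (n 81 (n 0 z (n 2 (n 0 z (n 0 z (n 0 z (n 1 z (n 1 z z))))) (n 0 z z))) (n 81 (n 0 z (n 0 z (n
 0 z z))) (n 81 (n 0 z (n 0 z (n 2 (n 0 z (n 1 z (n 1 z z))) z))) (n 81 (n 0 z (n 0 z (n 0 z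
 z))) (n 777 (n 0 z (n 0 z (n 2 (n 1 z z) (n 0 z (n 0 z (n 0 z (n 0 z (n 0 z (n 0 z (n 0 z (n 0
 z (n 0 z (n 0 z z))))))))))))) (n 793 (n 0 z (n 2 z (n 0 z (n 0 z (n 0 z (n 0 z (n 0 z (n 0 z
 (n 0 z (n 0 z (n 0 z z))))))))))) z)))))))))))) (n 0 (n 19 (n 0 z (n 0 z (n 0 z (n 0 z (n 0 z
 (n 0 z (n 0 z (n 0 z (n 0 z (n 0 z (n 0 z (n 0 z (n 0 z (n 0 z (n 0 z (n 0 z (n 0 z (n 0 z (n 0
 z (n 0 z (n 0 z (n 0 z (n 0 z (n 0 z (n 0 z (n 0 z (n 0 z (n 0 z (n 0 z (n 0 z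
 z)))))))))))))))))))))))))))))) (n 19 (n 0 z (n 2 (n 0 z (n 0 z (n 0 z (n 1 z (n 2 (n 0 z (n 0
 z (n 0 z (n 0 z (n 0 z (n 0 z z)))))) (n 1 z (n 2 (n 0 z (n 0 z (n 0 z (n 0 z (n 0 z (n 0 z
 z)))))) (n 1 z (n 1 z z))))))))) (n 0 z (n 0 z (n 0 z (n 0 z (n 0 z (n 0 z (n 0 z (n 0 z (n 0 z
 (n 0 z (n 0 z (n 0 z (n 0 z (n 0 z (n 0 z (n 0 z (n 0 z (n 0 z (n 0 z (n 0 z (n 0 z (n 0 z (n 0
 z (n 0 z (n 0 z (n 0 z (n 0 z (n 0 z z)))))))))))))))))))))))))))))) (n 19 (n 0 z (n 0 z (n 0 z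
 (n 0 z (n 0 z (n 0 z (n 0 z (n 0 z (n 0 z (n 0 z (n 0 z (n 0 z (n 0 z (n 0 z (n 0 z (n 0 z (n 0
 z (n 0 z (n 0 z (n 0 z (n 2 (n 0 z (n 0 z (n 1 z (n 2 (n 0 z (n 0 z (n 0 z (n 0 z (n 0 z (n 0 z
 z)))))) (n 1 z (n 2 (n 0 z (n 0 z (n 0 z (n 0 z (n 0 z (n 0 z z)))))) (n 1 z (n 1 z z))))))))
 (n 0 z (n 0 z (n 0 z (n 0 z (n 0 z (n 0 z (n 0 z (n 0 z (n 0 z z))))))))))))))))))))))))))))))
 (n 19 (n 0 z (n 0 z (n 0 z (n 0 z (n 0 z (n 0 z (n 0 z (n 0 z (n 0 z (n 0 z (n 0 z (n 0 z (n 0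
 z (n 0 z (n 0 z (n 0 z (n 0 z (n 0 z (n 0 z (n 0 z (n 0 z (n 0 z (n 0 z (n 0 z (n 0 z (n 0 z (n
 2 (n 0 z (n 2 (n 0 z (n 0 z (n 0 (n 220 z z) (n 0 z (n 0 z (n 0 z z)))))) (n 2 (n 0 z (n 0 z (n
 0 z (n 0 z (n 0 z (n 0 z z)))))) (n 1 z (n 2 (n 0 z (n 0 z (n 0 z (n 0 z (n 0 z (n 0 z z))))))
 (n 1 z (n 1 z z))))))) (n 0 z (n 0 z (n 0 z z)))))))))))))))))))))))))))))) (n 19 (n 0 z (n 0 z
 (n 0 z (n 0 z (n 0 z (n 0 z (n 0 z (n 0 z (n 0 z (n 0 z (n 0 z (n 0 z (n 0 z (n 0 z (n 0 z (n 0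
 z (n 0 z (n 0 z (n 0 z (n 0 z (n 0 z (n 0 z (n 0 z (n 0 z (n 0 z (n 0 z (n 0 z (n 0 z (n 0 z (n
 0 z z)))))))))))))))))))))))))))))) (n 55 (n 2 (n 0 z (n 0 z (n 0 z (n 1 z (n 1 z z))))) (n 0 z
 (n 0 z (n 0 z (n 0 z (n 0 z (n 0 z (n 0 z (n 0 z (n 0 z z)))))))))) (n 55 (n 0 z (n 0 z (n 0 z
 (n 0 z (n 2 (n 0 z (n 0 z (n 2 (n 0 z (n 0 z (n 0 z (n 0 z (n 0 z (n 0 z z)))))) (n 1 z z))))
 (n 0 z (n 0 z (n 0 z (n 0 z (n 0 z z)))))))))) (n 55 (n 0 z (n 0 z (n 0 z (n 0 z (n 0 z (n 0 z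
 (n 0 z (n 0 z (n 0 z (n 0 z z)))))))))) (n 55 (n 0 z (n 0 z (n 0 z (n 0 z (n 0 z (n 0 z (n 0 z
 (n 0 z (n 0 z (n 2 (n 2 (n 0 z (n 0 z (n 0 z (n 0 z (n 0 z (n 0 z z)))))) (n 2 (n 0 z (n 0 z (n
 0 z (n 0 z (n 0 z (n 0 z z)))))) z)) z)))))))))) (n 3 (n 0 z (n 0 z (n 0 z (n 0 z (n 0 z (n 0 z
 (n 0 z (n 0 z (n 0 z (n 0 z (n 0 z (n 0 z (n 0 z (n 0 z (n 0 z (n 0 z z)))))))))))))))) (n 53
 (n 0 z (n 0 z (n 0 z (n 0 z (n 0 z (n 0 z (n 0 z (n 0 z (n 0 z (n 0 z (n 0 z (n 0 z (n 0 z (n 0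
 z (n 0 z (n 0 z (n 0 z (n 0 z (n 0 z (n 0 z (n 0 z (n 0 z (n 0 z (n 0 z (n 0 z (n 0 z (n 0 z (n
 0 z (n 0 z (n 0 z (n 0 z (n 0 z (n 0 z z))))))))))))))))))))))))))))))))) z))))))))))) (n 0 (n
 0 z (n 0 z (n 0 z (n 0 z (n 1177 (n 0 z (n 0 z (n 0 z (n 0 z (n 2 (n 0 z (n 0 z (n 0 z (n 1 z
 (n 1 z z))))) (n
 0x12bb2006c76400d6ec801a9d90034bb200387640026ca8000d08003a38800045107f080580680f7d68077e18098188037ef81d7fd8357eb7fa8048017b38377e085d8417c48687bf8198178008007ff8257fb7f67ed7bc87a79f7d07f884d8317e282d77f8217968088137e00291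
 z (n 0 z (n 0 z (n 0 z (n 0 z (n 0 z z))))))))))) (n 1177 (n 0 z (n 0 z (n 0 z (n 0 z (n 0 z (n
 0 z (n 0 z (n 0 z (n 0 z (n 2 (n 0 z (n 0 z (n 2 (n 0 z (n 0 z (n 0 z (n 0 z (n 0 z (n 0 z
 z)))))) (n 2 (n 0 z (n 0 (n 68 z z) (n 0 (n 68 z (n 68 z z)) (n 0 z (n 0 (n 6428683 z z) (n 0 z
 z)))))) z)))) (n 0 z z))))))))))) (n 1177 (n 0 z (n 0 z (n 0 z (n 0 z (n 0 z (n 0 z (n 0 z (n 0
 z (n 0 z (n 0 z (n 0 z z))))))))))) (n 1177 (n 0 z (n 0 z (n 0 z (n 0 z (n 0 z (n 0 z (n 0 z (n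
 0 z (n 0 z (n 0 z (n 0 z z))))))))))) (n 21 (n 0 z (n 0 z (n 0 z (n 0 z (n 0 z (n 0 z (n 0 z (n
 0 z z)))))))) (n 17 (n 0 z (n 0 z (n 0 z (n 0 z (n 0 z (n 0 z (n 0 z (n 0 z (n 0 z (n 0 z (n 0
 z z))))))))))) z)))))))))) (n 0 (n 0 z (n 0 z (n 0 z (n 1093 (n 0 z (n 0 z (n 0 z (n 0 z (n 0 z
 (n 0 z (n 0 z (n 0 z (n 0 z (n 0 z (n 0 z (n 0 z z)))))))))))) (n 1093 (n 0 z (n 0 z (n 0 z (n
 0 z (n 0 z (n 0 z (n 0 z (n 0 z (n 2 (n 0 z (n 0 z (n 1 z (n 1 z z)))) (n 0 z (n 0 z (n 0 z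
 z)))))))))))) (n 1093 (n 0 z (n 0 z (n 0 z (n 0 z (n 0 z (n 0 z (n 0 z (n 0 z (n 0 z (n 0 z (n
 0 z (n 0 z z)))))))))))) (n 1093 (n 0 z (n 0 z (n 0 z (n 0 z (n 0 z (n 0 z (n 0 z (n 0 z (n 0 z
 (n 0 z (n 0 z (n 2 (n 2 (n 0 z (n 0 z (n 0 z (n 0 z (n 0 z (n 0 z z)))))) (n 2 (n 0 z (n 0 z (n
 0 (n 68 z z) (n 0 z (n 0 z (n 0 z z)))))) z)) z)))))))))))) (n 15 (n 0 z (n 0 z (n 0 z (n 0 z
 (n 0 z (n 2 (n 1 z z) (n 0 z z))))))) (n 17 (n 0 z (n 0 z (n 0 z (n 0 z (n 0 z (n 0 z (n 0 z (n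
 0 z (n 0 z (n 0 z (n 0 z (n 0 z (n 0 z (n 0 z (n 0 z (n 0 z (n 0 z (n 0 z (n 0 z (n 0 z (n 0 z
 z))))))))))))))))))))) z))))))))) (n 0 (n 0 z (n 0 z (n 1157 (n 0 z (n 0 z (n 0 z (n 2 (n 0 z
 (n 0 z (n 0 z (n 1 z (n 1 z z))))) (n 0 z (n 0 z (n 0 z z))))))) (n 1157 (n 0 z (n 0 z (n 0 z
 (n 0 z (n 0 z (n 0 z (n 0 z z))))))) (n 1157 (n 0 z (n 2 (n 0 z (n 1 z (n 1 z z))) (n 0 z (n 0
 z (n 0 z (n 0 z (n 0 z z))))))) (n 1157 (n 0 z (n 0 z (n 0 z (n 0 z (n 0 z (n 0 z (n 0 z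
 z))))))) (n 15 (n 0 z (n 0 z (n 0 z (n 0 z (n 0 z (n 0 z (n 0 z (n 2 (n 1 z z) z)))))))) (n 841
 (n 2 z (n 0 z (n 0 z (n 0 z (n 0 z (n 0 z (n 0 z (n 0 z (n 0 z (n 0 z (n 0 z (n 0 z (n 0 z (n 0
 z (n 0 z (n 0 z (n 0 z (n 0 z (n 0 z (n 0 z (n 0 z z))))))))))))))))))))) z)))))))) (n 0 (n 0 z
 (n 1153 (n 0 z (n 0 z (n 0 z (n 0 z (n 0 z (n 0 z (n 2 (n 0 z (n 0 z (n 0 z (n 1 z (n 1 z
 z))))) z))))))) (n 1153 (n 0 z (n 0 z (n 0 z (n 0 z (n 0 z (n 0 z (n 0 z z))))))) (n 1153 (n 0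
 z (n 0 z (n 0 z (n 0 z (n 0 z (n 2 (n 0 z (n 1 z (n 1 z z))) (n 0 z z))))))) (n 1153 (n 0 z (n
 0 z (n 0 z (n 0 z (n 0 z (n 0 z (n 0 z z))))))) (n 255 (n 0 z (n 0 z (n 0 z (n 0 z (n 0 z (n 0
 z (n 2 (n 1 z z) z))))))) (n 17 (n 0 z (n 0 z (n 0 z (n 0 z (n 0 z (n 0 z (n 0 z (n 0 z (n 0 z
 (n 0 z (n 0 z (n 0 z (n 0 z (n 0 z (n 2 z (n 0 z (n 0 z (n 0 z z)))))))))))))))))) z))))))) (n
 0 (n 7 (n 0 z (n 0 z (n 0 z (n 0 z (n 0 z (n 0 z (n 0 z (n 0 z (n 0 z (n 0 z (n 0 z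
 z))))))))))) (n 7 (n 0 z (n 0 z (n 0 z (n 2 (n 0 z (n 0 z (n 2 (n 0 z (n 0 z (n 0 z (n 0 z (n 0
 z (n 0 z z)))))) (n 1 z z)))) (n 0 z (n 0 z (n 0 z (n 0 z (n 0 z (n 0 z (n 0 z z))))))))))) (n
 7 (n 0 z (n 0 z (n 0 z (n 0 z (n 0 z (n 0 z (n 0 z (n 0 z (n 0 z (n 0 z (n 0 z z))))))))))) (n
 7 (n 0 z (n 0 z (n 0 z (n 0 z (n 0 z (n 0 z (n 0 z (n 0 z (n 0 z (n 0 z (n 2 (n 2 (n 0 z (n 0 z
 (n 0 z (n 0 z (n 0 z (n 0 z z)))))) (n 2 (n 0 z (n 0 z (n 0 z (n 0 z (n 0 z (n 0 z z)))))) z))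
 z))))))))))) (n 3 (n 0 z (n 0 z (n 0 z (n 0 z (n 0 z (n 0 z (n 0 z (n 0 z z)))))))) (n 1 (n 0 z
 (n 0 z (n 0 z (n 0 z (n 0 z (n 0 z (n 0 z (n 0 z (n 0 z (n 0 z (n 0 z (n 0 z (n 0 z (n 0 z (n 0
 z (n 0 z (n 0 z (n 0 z (n 0 z (n 0 z (n 0 z (n 0 z (n 0 z (n 0 z (n 0 z (n 0 z (n 0 z
 z))))))))))))))))))))))))))) z)))))) (n 0 (n 0 z (n 0 z (n 0 z (n 51 (n 0 z (n 0 z (n 0 z (n 0
 z (n 0 z (n 0 z (n 0 z (n 0 z (n 0 z (n 0 z (n 0 z (n 0 z (n 0 z (n 2 (n 1 z z) (n 0 z (n 0 z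
 z)))))))))))))))) (n 49 (n 0 z (n 0 z (n 0 z (n 0 z (n 0 z (n 0 z (n 0 z z))))))) z))))) (n 0
 (n 0 z (n 0 z (n 51 (n 0 z (n 0 z (n 0 z (n 0 z (n 2 (n 1 z z) z))))) (n 53 (n 0 z (n 0 z (n 0
 z (n 0 z (n 0 z (n 2 z z)))))) z)))) (n 0 (n 0 z (n 111 (n 0 z (n 0 z (n 0 z (n 0 z (n 0 z (n 0
 z (n 0 z (n 0 z (n 0 z (n 0 z z)))))))))) (n 109 (n 0 z (n 0 z (n 0 z (n 0 z (n 0 z (n 0 z (n 0
 z (n 0 z (n 0 z z))))))))) z))) (n 0 (n 57 (n 0 z (n 0 z (n 0 z (n 0 z (n 2 (n 1 z z) (n 0 z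
 z)))))) (n 53 (n 0 z (n 0 z (n 0 z (n 2 z (n 0 z (n 0 z z)))))) z)) (n 0 (n 145 (n 0 z (n 0 z
 (n 0 z (n 0 z (n 0 z (n 0 z (n 0 z (n 0 z (n 0 z z))))))))) z) (n 0 z z)))))))))))))) (n 0 (n 1
 (n 6557747 z (n 6557747 z (n 6557747 z (n 6557747 z (n 6557747 z (n 6557747 z z)))))) (n 0 z (n
 0 z (n 0 z (n 1 (n 4329571 z (n 4331019 z (n 4796 z (n 5506587 z (n 4796 z (n 4796 z z))))))
 z))))) (n 0 z z)))) (n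
 0x4753a2224d04d96b08931c04966851bc48513244a9c40945a0e23588d1ad065c4412c9a29 (n 0 (n 443 (n 0 z
 (n 6557779 z (n 0 z (n 0 z (n 0 z z))))) (n 35 (n 2 z (n
 0xa65365020180832a320100c01190990800e032ca4c6400780d80d80180b7f482e81980a81e8067db7ee7f17ed8017e27f17a883a82d8567e481680e7fb83c7f77e580a8587fd7987c17ac8007e57d67f680482081c7f27f27e28017f27dc81881f7fc2011
 z (n 0 z (n 0 z (n 0 z (n 0 z (n 0 z (n 0 z (n 0 z (n 0 z (n 0 z (n 0 z (n 6557779 z (n 0 z (n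
 0 z (n 10 z (n
 0xdb2a32a181c04d951908c06004ca8a860078087fd8007f98088687fc8027ea80179e8187df8217d07bd7ce7ef84289e86e8347988107a77f183880081580482170279379380585779a83c7e48398597b77fe7c87eb7ff7cc80b82f8071811
 z (n 18 z (n 0 z (n 0 z (n 0 z z))))))))))))))))))))) (n 439 (n 26 z (n 34 z (n 42 z (n 50 z (n
 3212843 z (n 0 z (n
 0xca8ca80038008007ff8008008008008008008008008018008008008008008008008008008008008008008017ff8008008008008008008008008008008008008008008008008008008008008008008000811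
 z (n 58 z (n
 0xca8ca80038008007ff8008008008008008008008008008008008018008008008008008008008008008008008007ff8008008008008008008008008008008008008008008008008008008008008008000811
 z (n 0 z (n 0 z z))))))))))) (n 3 (n 66 z (n 74 z (n 2164283 z (n 0 z (n 0 z z))))) (n 1 (n 0 z
 (n 82 z (n 0 z (n 6557779 z (n 0 z (n 0 z (n 0 z (n 0 z (n 0 z (n 0 z (n 0 z z))))))))))) (n 0
 (n 90 z (n 0 z (n 0 z (n 0 z (n 0 z (n 0 z (n 98 z (n 0 z (n 106 z (n 0 z (n 0 z (n 0 z (n 0 z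
 (n 0 z (n 6624043 z (n 0 z (n 0 z (n 0 z z)))))))))))))))))) z)))))) (n 443 (n 0 (n 0 z (n 0 z
 (n 369 (n 0 z (n 0 z (n 0 z (n 0 z (n 0 z (n 0 z (n 0 z (n 0 z (n 0 z (n 0 z (n 0 z (n 0 z (n 0
 z (n 0 z (n 0 z (n 0 z (n 0 z (n 0 z (n 0 z (n 0 z (n 0 z (n 0 z z)))))))))))))))))))))) (n 369
 (n 0 z (n 0 z (n 0 z (n 0 z (n 0 z (n 0 z (n 0 z (n 0 z (n 0 z (n 2 (n 0 z (n 0 z (n 0 z (n 2
 (n 0 z (n 0 z (n 0 z (n 0 z (n 0 z (n 0 z z)))))) (n 1 z (n 1 z (n 1 z (n 1 z (n 2 (n 0 z (n 0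
 z (n 0 z (n 0 z (n 0 z (n 0 z z)))))) z))))))))) (n 0 z (n 0 z (n 0 z (n 0 z (n 0 z (n 0 z (n 0
 z (n 0 z (n 0 z (n 0 z (n 0 z (n 0 z z)))))))))))))))))))))) (n 369 (n 2 (n 0 z (n 0 z (n 2 (n
 0 z (n 0 z (n 0 z (n 0 z (n 0 z (n 0 (n 1684 z z) z)))))) (n 1 z (n 1 z (n 1 z (n 1 z (n 2 (n 0
 z (n 0 z (n 0 z (n 0 z (n 0 z (n 0 z z)))))) z)))))))) (n 0 z (n 0 z (n 0 z (n 0 z (n 0 z (n 0
 z (n 0 z (n 0 z (n 0 z (n 0 z (n 0 z (n 0 z (n 0 z (n 0 z (n 0 z (n 0 z (n 0 z (n 0 z (n 0 z (n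
 0 z (n 0 z z)))))))))))))))))))))) (n 369 (n 0 z (n 0 z (n 0 z (n 0 z (n 0 z (n 0 z (n 0 z (n 0
 z (n 0 z (n 0 z (n 0 z (n 0 z (n 0 z (n 0 z (n 0 z (n 0 z (n 0 z (n 0 z (n 0 z (n 0 z (n 0 z (n
 0 z z)))))))))))))))))))))) (n 369 (n 0 z (n 0 z (n 0 z (n 0 z (n 0 z (n 0 z (n 0 z (n 0 z (n 0
 z (n 0 z (n 0 z (n 2 (n 2 (n 0 z (n 0 (n 1684 z z) (n 0 z (n 0 (n 2557 z z) (n 0 z (n 0 (n 1684
 z (n 1684 z z)) z)))))) (n 1 z (n 1 z (n 1 z (n 1 z (n 2 (n 0 z (n 0 z (n 0 z (n 0 z (n 0 z (n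
 0 z z)))))) z)))))) (n 0 z (n 0 z (n 0 z (n 0 z (n 0 z (n 0 z (n 0 z (n 0 z (n 0 z (n 0 z
 z)))))))))))))))))))))) (n 421 (n 0 z (n 0 z (n 0 z (n 2 (n 0 z (n 1 z (n 1 z (n 1 z (n 2 (n 0
 z (n 0 z (n 0 z (n 0 z (n 0 z (n 0 z z)))))) z))))) (n 0 z (n 0 z (n 0 z (n 0 z (n 0 z (n 0 z
 (n 0 z (n 0 z z)))))))))))) (n 421 (n 2 (n 1 z (n 1 z (n 1 z (n 1 z z)))) (n 0 z (n 0 z (n 0 z
 (n 0 z (n 0 z (n 0 z (n 0 z (n 0 z (n 0 z (n 0 z (n 0 z z)))))))))))) (n 373 (n 2 (n 1 z (n 1 z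
 (n 1 z z))) (n 0 z (n 0 z (n 0 z (n 0 z (n 0 z (n 0 z (n 0 z (n 0 z (n 0 z (n 0 z (n 0 z (n 0 z
 (n 0 z (n 0 z (n 0 z (n 0 z (n 0 z (n 0 z (n 0 z (n 0 z (n 0 z z)))))))))))))))))))))) (n 793
 (n 0 z (n 0 z (n 0 z (n 0 z (n 0 z (n 0 z (n 0 z (n 0 z z)))))))) (n 793 (n 2 (n 0 z z) (n 0 z
 (n 0 z (n 0 z (n 0 z (n 0 z (n 0 z (n 0 z z)))))))) (n 793 (n 0 z (n 0 z (n 0 z (n 0 z (n 0 z
 (n 0 z (n 2 z (n 0 z z)))))))) z))))))))))))) (n 0 (n 0 z (n 263 (n 0 z (n 0 z (n 0 z (n 0 z (n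
 0 z (n 0 z (n 0 z (n 0 z (n 0 z (n 0 z (n 0 z (n 0 z (n 0 z (n 0 z (n 0 z (n 2 (n 0 z (n 0 z (n
 0 z (n 0 z (n 2 (n 0 z (n 0 z (n 0 z (n 0 z (n 0 z (n 0 z z)))))) (n 1 z (n 1 z (n 2 (n 0 z (n
 0 z (n 0 z (n 0 z (n 0 z (n 0 (n 964 z z) z)))))) (n 1 z (n 2 (n 0 z (n 0 z (n 0 z (n 0 z (n 0
 z (n 0 z z)))))) z)))))))))) (n 0 z (n 0 z (n 0 z (n 0 z (n 0 z (n 0 z (n 0 z
 z))))))))))))))))))))))) (n 263 (n 0 z (n 0 z (n 0 z (n 0 z (n 0 z (n 0 z (n 0 z (n 0 z (n 2 (n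
 0 z (n 0 z (n 0 z (n 2 (n 0 z (n 0 z (n 0 z (n 0 z (n 0 z (n 0 z z)))))) (n 1 z (n 1 z (n 2 (n
 0 z (n 0 z (n 0 z (n 0 z (n 0 z (n 0 z z)))))) (n 1 z (n 2 (n 0 z (n 0 z (n 0 z (n 0 z (n 0 z
 (n 0 z z)))))) z))))))))) (n 0 z (n 0 z (n 0 z (n 0 z (n 0 z (n 0 z (n 0 z (n 0 z (n 0 z (n 0 z
 (n 0 z (n 0 z (n 0 z (n 0 z z))))))))))))))))))))))) (n 263 (n 0 z (n 0 z (n 0 z (n 0 z (n 0 z
 (n 0 z (n 0 z (n 0 z (n 0 z (n 0 z (n 0 z (n 0 z (n 0 z (n 0 z (n 0 z (n 0 z (n 0 z (n 0 z (n 0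
 z (n 0 z (n 0 z (n 0 z (n 0 z z))))))))))))))))))))))) (n 263 (n 2 (n 0 z (n 2 (n 0 z (n 0 z (n
 0 z (n 0 z (n 0 z (n 0 z z)))))) (n 1 z (n 1 z (n 1 z (n 1 z (n 2 (n 0 z (n 0 z (n 0 z (n 0 z
 (n 0 z (n 0 z z)))))) z))))))) (n 0 z (n 0 z (n 0 z (n 0 z (n 0 z (n 0 z (n 0 z (n 0 z (n 0 z
 (n 0 z (n 0 z (n 0 z (n 0 z (n 0 z (n 0 z (n 0 z (n 0 z (n 0 z (n 0 z (n 0 z (n 0 z (n 0 z
 z))))))))))))))))))))))) (n 263 (n 0 z (n 0 z (n 0 z (n 0 z (n 0 z (n 0 z (n 0 z (n 0 z (n 0 z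
 (n 0 z (n 0 z (n 0 z (n 0 z (n 0 z (n 0 z (n 0 z (n 0 z (n 0 z (n 0 z (n 0 z (n 0 z (n 0 z (n 0
 z z))))))))))))))))))))))) (n 299 (n 0 z (n 0 z (n 0 z (n 0 z (n 0 z (n 0 z (n 0 z (n 0 z (n 0
 z (n 0 z (n 0 z (n 0 z (n 0 z (n 0 z (n 0 z (n 0 z (n 0 z (n 0 z (n 0 z (n 0 z (n 0 z (n 0 z (n
 0 z (n 0 z (n 0 z (n 0 z (n 2 (n 0 z (n 1 z (n 2 (n 0 z (n 0 z (n 0 z (n 0 z (n 0 z (n 0 (n 964
 z z) z)))))) (n 1 z (n 2 (n 0 z (n 0 z (n 0 z (n 0 z (n 0 z (n 0 z z)))))) z))))) (n 0 z (n 0 z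
 (n 0 z (n 0 z z))))))))))))))))))))))))))))))) (n 299 (n 0 z (n 0 z (n 0 z (n 0 z (n 0 z (n 0 z
 (n 0 z (n 0 z (n 0 z (n 0 z (n 0 z (n 0 z (n 0 z (n 0 z (n 0 z (n 0 z (n 0 z (n 0 z (n 0 z (n 0
 z (n 0 z (n 0 z (n 0 z (n 0 z (n 0 z (n 0 z (n 0 z (n 0 z (n 0 z (n 0 z (n 0 z
 z))))))))))))))))))))))))))))))) (n 243 (n 0 z (n 0 z (n 0 z (n 0 z (n 0 z (n 0 z (n 0 z (n 0 z
 (n 0 z (n 0 z (n 0 z (n 0 z (n 0 z (n 0 z (n 0 z (n 0 z (n 0 z (n 0 z (n 0 z (n 0 z (n 0 z (n 0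
 z (n 0 z (n 0 z (n 0 z (n 0 z (n 0 z (n 0 z (n 0 z (n 0 z (n 0 z (n 0 z (n 0 z (n 0 z (n 0 z (n
 0 z z)))))))))))))))))))))))))))))))))))) (n 241 (n 2 (n 0 z (n 0 z z)) (n 0 z (n 0 z (n 0 z (n
 0 z (n 0 z (n 0 z z))))))) (n 241 (n 0 z (n 0 z (n 0 z (n 0 z (n 0 z (n 0 z (n 0 z z))))))) (n
 241 (n 0 z (n 0 z (n 0 z (n 0 z (n 2 z (n 0 z (n 0 z z))))))) z)))))))))))) (n 0 (n 459 (n 0 z
 (n 0 z (n 0 z (n 0 z (n 0 z (n 0 z (n 0 z (n 0 z (n 0 z (n 0 z (n 0 z (n 0 z (n 0 z (n 0 z (n 0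
 z z))))))))))))))) (n 459 (n 0 z (n 0 z (n 0 z (n 0 z (n 2 (n 0 z (n 0 z (n 0 z (n 2 (n 0 z (n
 0 z (n 0 z (n 0 z (n 0 z (n 0 z z)))))) (n 1 z (n 1 z (n 2 (n 0 z (n 0 z (n 0 z (n 0 z (n 0 z
 (n 0 (n 1924 z z) z)))))) (n 1 z (n 2 (n 0 z (n 0 z (n 0 z (n 0 z (n 0 z (n 0 z z))))))
 z))))))))) (n 0 z (n 0 z (n 0 z (n 0 z (n 0 z (n 0 z (n 0 z (n 0 z (n 0 z (n 0 z
 z))))))))))))))) (n 459 (n 0 z (n 0 z (n 0 z (n 0 z (n 0 z (n 0 z (n 2 (n 0 z (n 0 z (n 2 (n 0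
 z (n 0 z (n 0 z (n 0 z (n 0 z (n 0 z z)))))) (n 1 z (n 1 z (n 2 (n 0 z (n 0 z (n 0 z (n 0 z (n
 0 z (n 0 z z)))))) (n 1 z (n 2 (n 0 z (n 0 z (n 0 z (n 0 z (n 0 z (n 0 z z)))))) z)))))))) (n 0
 z (n 0 z (n 0 z (n 0 z (n 0 z (n 0 z (n 0 z (n 0 z z))))))))))))))) (n 459 (n 0 z (n 0 z (n 0 z
 (n 0 z (n 0 z (n 0 z (n 0 z (n 0 z (n 0 z (n 0 z (n 0 z (n 0 z (n 0 z (n 0 z (n 0 z
 z))))))))))))))) (n 459 (n 2 (n 2 (n 0 z (n 0 z (n 0 z (n 0 z (n 0 z (n 0 z z)))))) (n 1 z (n 1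
 z (n 1 z (n 1 z (n 2 (n 0 z (n 0 z (n 0 z (n 0 z (n 0 z (n 0 z z)))))) z)))))) (n 0 z (n 0 z (n
 0 z (n 0 z (n 0 z (n 0 z (n 0 z (n 0 z (n 0 z (n 0 z (n 0 z (n 0 z (n 0 z (n 0 z
 z))))))))))))))) (n 491 (n 0 z (n 0 z (n 0 z (n 0 z (n 0 z (n 0 z (n 0 z z))))))) (n 491 (n 0 z
 (n 0 z (n 0 z (n 0 z (n 0 z (n 0 z (n 2 (n 1 z (n 1 z (n 1 z (n 2 (n 0 z (n 0 z (n 0 z (n 0 z
 (n 0 z (n 0 z z)))))) z)))) z))))))) (n 483 (n 0 z (n 0 z (n 0 z (n 0 z (n 0 z (n 0 z (n 0 z (n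
 0 z (n 0 z (n 0 z (n 6426739 z (n 2 (n 1 z (n 1 z (n 2 (n 0 z (n 0 z (n 0 z (n 0 z (n 0 z (n 0
 z z)))))) z))) (n 0 z (n 0 z (n 0 z (n 0 z (n 0 z (n 0 z (n 0 z (n 0 z (n 0 z (n 0 z (n 0 z (n
 0 z (n 0 z (n 0 z (n 0 z (n 0 z (n 0 z z))))))))))))))))))))))))))))) (n 481 (n 2 (n 0 z (n 0 z
 z)) (n 0 z (n 0 z (n 0 z (n 0 z (n 0 z (n 0 z (n 0 z (n 0 z z))))))))) (n 481 (n 0 z (n 0 z (n
 0 z (n 0 z (n 0 z (n 2 (n 0 z z) (n 0 z (n 0 z (n 0 z z))))))))) (n 481 (n 0 z (n 0 z (n 0 z (n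
 0 z (n 0 z (n 0 z (n 0 z (n 0 z (n 0 z z))))))))) z))))))))))) (n 0 (n 0 z (n 0 z (n 0 z (n 0 z
 (n 7 (n 0 z (n 0 z (n 0 z (n 0 z (n 0 z (n 0 z (n 0 z (n 0 z (n 0 z (n 0 z (n 0 z (n 0 z (n 0 z
 (n 0 z (n 0 z (n 0 z (n 0 z (n 0 z (n 0 z (n 0 z (n 0 z z))))))))))))))))))))) (n 7 (n 0 z (n 0
 z (n 0 z (n 0 z (n 0 z (n 0 z (n 0 z (n 0 z (n 2 (n 1 z (n 1 z (n 1 z (n 2 (n 0 z (n 0 z (n 0 z
 (n 0 z (n 0 z (n 0 z z)))))) z)))) (n 0 z (n 0 z (n 0 z (n 0 z (n 0 z (n 0 z (n 0 z (n 0 z (n 0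
 z (n 0 z (n 0 z (n 0 z z))))))))))))))))))))) (n 255 (n 0 z (n 2 (n 1 z (n 1 z (n 2 (n 0 z (n 0
 z (n 0 z (n 0 z (n 0 z (n 0 z z)))))) z))) (n 0 z (n 0 z (n 0 z (n 0 z (n 0 z (n 0 z (n 0 z
 z))))))))) (n 877 (n 0 z (n 0 z (n 0 z (n 2 (n 0 z (n 0 z z)) (n 0 z (n 0 z (n 0 z (n 0 z (n 0
 z (n 0 z (n 0 z z))))))))))) (n 877 (n 0 z (n 0 z (n 2 (n 0 z z) (n 0 z (n 0 z (n 0 z (n 0 z (n
 0 z (n 0 z (n 0 z (n 0 z z))))))))))) (n 877 (n 0 z (n 0 z (n 0 z (n 0 z (n 0 z (n 0 z (n 0 z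
 (n
 0xec8ec80038008017ff8007ff8008008008008007ff8018018008017ff8008008008008018007ff8008008017ff8008007ff8018018008008018007ff8008008008008008018008008008007ff8007ff0811
 z (n 0 z (n 0 z (n 0 z z))))))))))) z)))))))))) (n 0 (n 0 z (n 0 z (n 0 z (n 247 (n 0 z (n 0 z
 (n 0 z (n 0 z (n 0 z (n 0 z (n 0 z (n 0 z (n 0 z (n 0 z (n 0 z (n 0 z (n 0 z (n 0 z (n 0 z
 z))))))))))))))) (n 247 (n 0 z (n 0 z (n 0 z (n 0 z (n 2 (n 1 z (n 1 z (n 1 z (n 2 (n 0 z (n 0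
 z (n 0 z (n 0 z (n 0 z (n 0 z z)))))) z)))) (n 0 z (n 0 z (n 0 z (n 0 z (n 0 z (n 0 z (n 0 z (n
 0 z (n 0 z (n 0 z z))))))))))))))) (n 255 (n 0 z (n 0 z (n 2 (n 1 z (n 1 z (n 2 (n 0 z (n 0 z
 (n 0 z (n 0 z (n 0 z (n 0 z z)))))) z))) (n 0 z (n 0 z (n 0 z (n 0 z (n 0 z z)))))))) (n 881 (n
 0 z (n 0 z (n 0 z (n 0 z (n 0 z (n 0 z (n 0 z (n 0 z (n 2 (n 0 z (n 0 z z)) (n 0 z (n 0 z (n 0
 z (n 0 z z))))))))))))) (n 881 (n 2 (n 0 z z) (n 0 z (n 0 z (n 0 z (n 0 z (n 0 z (n 0 z (n 0 z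
 (n 0 z (n 0 z (n 0 z (n 0 z (n 0 z z))))))))))))) (n 881 (n 0 z (n 0 z (n 0 z (n
 0x6ec8ec80038038057f57f98027fe7f57f37f97fe7f48058018047f87f27fe7ff7fb8108148078057fe7fd7f98077ff7f57ec8167f17ff7ec8067fa7fc8017fd8058067fd8007fd8068087f58028097fd0811
 z (n 0 z (n 0 z (n 0 z (n 0 z (n 0 z (n 0 z (n 0 z (n 0 z (n 0 z z))))))))))))) z))))))))) (n 0
 (n 0 z (n 0 z (n 295 (n 0 z (n 0 z (n 2 (n 0 z (n 1 z (n 2 (n 0 z (n 0 z (n 0 z (n 0 z (n 0 z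
 (n 0 (n 1156 z z) z)))))) (n 1 z (n 2 (n 0 z (n 0 z (n 0 z (n 0 z (n 0 z (n 0 z z)))))) z)))))
 (n 0 z (n 0 z (n 0 z (n 0 z (n 0 z (n 0 z (n 0 z (n 0 z (n 0 z (n 0 z (n 0 z (n 0 z (n 0 z (n 0
 z (n 0 z (n 0 z (n 0 z (n 0 z (n 0 z z)))))))))))))))))))))) (n 295 (n 0 z (n 0 z (n 0 z (n 0 z
 (n 0 z (n 0 z (n 0 z (n 0 z (n 0 z (n 0 z (n 0 z (n 0 z (n 0 z (n 0 z (n 0 z (n 0 z (n 0 z (n 0
 z (n 0 z (n 0 z (n 0 z (n 0 z z)))))))))))))))))))))) (n 531 (n 0 z (n 0 z (n 0 z (n 0 z (n 0 z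
 (n 0 z (n 0 z (n 0 z (n 0 z (n 0 z (n 0 z (n 0 z (n 0 z z))))))))))))) (n 289 (n 0 z (n 0 z (n
 0 z (n 0 z (n 0 z (n 0 z (n 0 z (n 0 z (n 0 z (n 0 z z)))))))))) (n 289 (n 0 z (n 0 z (n 0 z (n
 0 z (n 0 z (n 0 z (n 0 z (n 0 z (n 0 z (n 0 z z)))))))))) (n 289 (n 0 z (n 0 z (n 0 z (n 0 z (n
 2 z (n 0 z (n 0 z (n 0 z (n 0 z (n 0 z z)))))))))) z)))))))) (n 0 (n 0 z (n 1077 (n 0 z (n 0 z
 (n 0 z (n 0 z (n 0 z (n 2 (n 0 z (n 1 z (n 1 z (n 1 z (n 2 (n 0 z (n 0 z (n 0 z (n 0 z (n 0 z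
 (n 0 z z)))))) z))))) (n 0 z (n 0 z (n 0 z (n 0 z (n 0 z (n 0 z (n 0 z (n 0 z (n 0 z (n 0 z (n
 0 z (n 0 z (n 0 z (n 0 z (n 0 z z))))))))))))))))))))) (n 1077 (n 0 z (n 0 z (n 0 z (n 0 z (n 0
 z (n 0 z (n 0 z (n 0 z (n 0 z (n 0 z (n 0 z (n 0 z (n 0 z (n 0 z (n 0 z (n 0 z (n 0 z (n 0 z (n
 0 z (n 0 z (n 0 z z))))))))))))))))))))) (n 255 (n 0 z (n 0 z (n 2 (n 1 z (n 1 z (n 2 (n 0 z (n
 0 z (n 0 z (n 0 z (n 0 z (n 0 (n 3572 z z) z)))))) z))) (n 0 z (n 0 z (n 0 z (n 0 z (n 0 z (n 0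
 z (n 0 z z)))))))))) (n 893 (n 0 z (n 0 z (n 0 z (n 0 z (n 0 z (n 0 z (n 0 z (n 0 z (n 0 z (n 0
 z z)))))))))) (n 893 (n 0 z (n 0 z (n 0 z (n 0 z (n 0 z (n 0 z (n 0 z (n 0 z (n 0 z (n 0 z
 z)))))))))) (n 893 (n 0 z (n 0 z (n 2 z (n 0 z (n 0 z (n 0 z (n 0 z (n 0 z (n 0 z (n 0 z
 z)))))))))) z))))))) (n 0 (n 639 (n 2 (n 0 z (n 1 z (n 1 z (n 1 z (n 2 (n 0 z (n 0 z (n 0 z (n
 0 z (n 0 z (n 0 z z)))))) z))))) (n 0 z (n 0 z (n 0 z (n 0 z (n 0 z (n 0 z z))))))) (n 639 (n 0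
 z (n 0 z (n 0 z (n 0 z (n 0 z (n 0 z (n 0 z z))))))) (n 831 (n 0 z (n 0 z (n 0 z (n 0 z (n 0 z
 (n 0 z z)))))) (n 845 (n 0 z (n 0 z (n 0 z (n 0 z (n 0 z (n 0 z (n 2 (n 0 z (n 0 z z)) (n 0 z
 (n 0 z (n 0 z z)))))))))) (n 845 (n 0 z (n 0 z (n 0 z (n 0 z (n 0 z (n 0 z (n 0 z (n 0 z (n 0 z
 (n 0 z z)))))))))) (n 845 (n 0 z (n 7746067 z (n 0 z (n 0 z (n 0 z (n 0 z (n 0 z (n 0 z (n 0 z
 (n 0 z z)))))))))) z)))))) (n 0 (n 0 z (n 51 (n 0 z (n 0 z (n 0 z (n 0 z (n 0 z (n 2 (n 1 z (n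
 1 z (n 2 (n 0 z (n 0 z (n 0 z (n 0 z (n 0 z (n 0 z z)))))) z))) (n 0 z (n 0 z (n 0 z (n 0 z (n
 0 z (n 0 z (n 0 z (n 0 z (n 0 z (n 0 z z)))))))))))))))) (n 49 (n 0 z (n 0 z (n 0 z (n 0 z
 z)))) (n 49 (n 0 z (n 2 (n 0 z z) (n 0 z (n 0 z z)))) (n 49 (n 0 z (n 0 z (n 0 z (n 0 z z))))
 z))))) (n 0 (n 735 (n 0 z (n 0 z (n 0 z (n 0 z (n 0 z (n 0 z (n 0 z (n 0 z z)))))))) (n 721 (n
 0 z (n 0 z (n 0 z (n 0 z (n 0 z (n 0 z (n 0 z (n 0 z (n 0 z (n 0 z (n 0 z (n 0 z z))))))))))))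
 (n 721 (n 0 z (n 0 z (n 0 z (n 0 z (n 0 z (n 0 z (n 0 z (n 0 z (n 0 z (n 0 z (n 0 z (n 0 z
 z)))))))))))) (n 721 (n 0 z (n 0 z (n 0 z (n 0 z (n 0 z (n 0 z (n 2 z (n 0 z (n 0 z (n 0 z (n 0
 z (n 0 z z)))))))))))) z)))) (n 0 (n 961 (n 2 (n 0 z (n 0 z z)) (n 0 z (n 0 z (n 0 z (n 0 z (n
 0 z (n 0 z (n 0 z (n 0 z (n 0 z (n 0 z (n 0 z (n 0 z (n 0 z z)))))))))))))) (n 961 (n 0 z (n 0
 z (n 0 z (n 0 z (n 0 z (n 0 z (n 0 z (n 0 z (n 0 z (n 0 z (n 0 z (n 0 z (n 0 z (n 0 z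
 z)))))))))))))) (n 961 (n 0 z (n 0 z (n 0 z (n 0 z (n 0 z (n 2 z (n 0 z (n 0 z (n 0 z (n 0 z (n
 0 z (n 0 z (n 0 z (n 0 z z)))))))))))))) z))) (n 0 (n 0 z (n 0 z z)) (n 0 (n 0 z z) (n 0 z
 z)))))))))))))) (n 0 (n 0 z (n 1 (n 6557779 z (n 6557779 z (n 6557779 z (n 6557779 z (n 6557779
 z (n 6557779 z z)))))) (n 0 z (n 0 z (n 0 z z))))) (n 0 z z)))) (n
 0x66e2a3289d0f476870b54288bb8445c61b8a64116de0e26582d379b08bcdc00aca005c2c0 (n 0 (n 279 (n 2 z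
 (n 10 z (n 0 z (n 0 z (n 0 z (n 0 z (n 18 z (n 0 z (n 3282443 z (n 0 z (n 0 z (n 0 z (n 0 z (n
 0xca8ca86037f7f81847f817f837f80827e7e7c7e81828084827e807c827e8680827f80817c7d7f7d80797d83807f828283838181817f800809
 z (n 0 z (n 0 z z)))))))))))))))) (n 33 (n 0 z (n 0 z (n 0 z (n 0 z (n 0 z (n 26 z (n 6496515 z
 (n 0 z (n 0 z (n 0 z z)))))))))) (n 9 (n 0 z (n
 0xca8a826037f818383817e7d868081817c807e8486807b82728376868284808080817f868682818380857e7a81827c7e807f807d7987800809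
 z (n 0 z (n
 0x2ca8ca86037e81848285817f848080827b807f8284807b817284748782847f807f7e83838983808484867c778185797b8280827b7989800809
 z (n 6496515 z (n 0 z (n 0 z (n 0 z z)))))))) (n 267 (n
 0x1eca6a208078008108168148007ea7ee8377fc8038037c97fe7ee8488378017d281477e8227a381c81782f7f28007f48017ff82e83e80a81581280b8277ed7c88098077e27e67fe7f67ff7eb7bf83c8020811
 z (n 34 z (n
 0x6ca6a40803807c7f8583837f847e8381857e7e767e8084838b7585797e7e8a8084807d7f7b7b81777c787d877c80848183828486827b800809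
 z (n
 0x2cca6a2080380706c9f609b6c91518f79a67f675c7180a299e852b8379550928057747d6a636bab757a5962a971668d9c8c967593aa5a860809
 z (n 0 z (n 0 z (n 6496515 z (n 0 z (n 0 z (n 0 z (n
 0x2ca6a20803807e818280817f827e8281827e7f7b7f808281847c827c7f7f848082807f807e7e807d7f7c7f837f80818181818183817e800809
 z (n 0 z (n 0 z (n 0 z (n 42 z (n 0 z (n 0 z (n 0 z (n 0 z (n
 0x2aca8ca20037f581c82b82b8237e27d68538058117f37c280c80381d8377e77dd81677e8057b682680f81f81c8008088137eb82c8307f87ec8088068167fc7c580b7f080d7ea80a7fe80c7f97cb82b8010811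
 z (n
 0x14ca8ca820380827f7e8875838d8b837f8178837c8581827d7c77867a86748e807b81738082937c715e7b7d90797b97907e797996946b7f0809
 z (n 0 z (n 0 z (n 0 z (n 0 z (n 0 z (n 50 z (n
 0x6ca6a20803807f8889837a798e8183817b7a79828a7f7d847380758383828a8082847b8a867e80807c7f7c7b817c7d808386837e78887f0809
 z (n 0 z (n
 0x2ca8ca80037e80807f7f8081807f80808080808080808080808080808081808080808080808080808080808080808080808080808080800809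
 z (n 0 z (n 6496515 z (n 0 z (n 0 z (n 6496515 z (n 0 z z))))))))))))))))))))))))))))))))))))
 (n 1 (n 58 z (n 0 z (n 2164299 z (n 0 z (n 0 z (n 0 z (n 0 z (n 66 z (n 0 z z))))))))) (n 0 (n
 0 z (n 74 z (n
 0x1eb1003c6207f82837a837b858385817f7f7e868684787b7a758379887c887c8089847b8c8c8c897d788c7c817a887b74786f8184727d880089
 z (n 82 z (n 90 z (n 0 z (n 2164315 z (n 98 z (n 106 z (n 0 z (n 0 z (n 0 z z))))))))))))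
 z)))))) (n 9 (n 0 (n 0 z (n 0 z (n 95 (n 0 z (n 0 z (n 0 z (n 0 z (n 0 z (n 0 z (n 2 (n 1 z (n
 1 z (n 1 z (n 1 z (n 1 z (n 1 z (n 1 z (n 1 z (n 1 z (n 1 z z)))))))))) (n 0 z (n 0 z (n 0 z (n
 0 z (n 0 z (n 0 z (n 0 z z)))))))))))))) (n 487 (n 0 z (n 0 z (n 0 z (n 0 z (n 0 z (n 0 z (n 0
 z (n 0 z (n 0 z (n 0 z z)))))))))) (n 487 (n 0 z (n 0 z (n 0 z (n 0 z (n 0 z (n 2 (n 0 z (n 1 z
 (n 2 (n 0 z (n 0 z (n 0 z (n 0 z (n 0 (n 1956 z z) (n 0 z z)))))) (n 1 z (n 1 z (n 1 z (n 2 (n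
 0 z (n 0 z (n 0 z (n 0 z (n 0 z (n 0 z z)))))) (n 1 z z)))))))) (n 0 z (n 0 z (n 0 z (n 0 z
 z)))))))))) (n 487 (n 0 z (n 0 z (n 0 z (n 0 z (n 0 z (n 0 z (n 0 z (n 2 (n 1 z (n 2 (n 0 z (n
 0 z (n 0 z (n 0 z (n 0 (n 8855571 z z) (n 0 z z)))))) (n 1 z (n 1 z (n 2 (n 0 z (n 0 (n 2132 z
 z) (n 0 z (n 0 z (n 0 (n 7542859 z (n 8804155 z z)) (n 0 (n 1157 z z) z)))))) (n 2 (n 0 z (n 0
 z (n 0 z (n 0 z (n 0 z (n 0 z z)))))) (n 2 (n 0 z (n 0 z (n 0 z (n 0 z (n 0 (n 2132 z z) (n 0 z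
 z)))))) z))))))) (n 0 z (n 0 z z)))))))))) (n 489 (n 0 z (n 0 z (n 0 z (n 0 z (n 0 z (n 0 z (n
 0 z (n 0 z (n 0 z (n 0 z z)))))))))) (n 489 (n 0 z (n 0 z (n 0 z (n 0 z (n 0 z (n 0 z (n 0 z (n
 0 z (n 0 z (n 0 z z)))))))))) (n 533 (n 0 z (n 0 z (n 0 z (n 0 z (n 0 z (n 2 (n 0 z (n 0 z (n 0
 z (n 0 z z)))) (n 0 z (n 0 z (n 0 z (n 0 z (n 0 z (n 0 z z)))))))))))) (n 533 (n 0 z (n 0 z (n
 0 z (n 0 z (n 0 z (n 0 z (n 0 z (n 0 z (n 0 z (n 0 z (n 0 z (n 0 z z)))))))))))) (n 533 (n 0 z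
 (n 0 z (n 0 z (n 0 z (n 0 z (n 0 z (n 0 z (n 0 z (n
 0xec8ec86037f81807e808082808080808080808080827f8080817f8081808080807f80807f818080818081808080807f80807f808080810809
 z (n 2 (n 0 z (n 0 z z)) (n 0 z (n 0 z z)))))))))))) (n 533 (n 0 z (n 0 z (n 2 (n 0 z z) (n 0 z
 (n 0 z (n 0 z (n 0 z (n 0 z (n 0 z (n 0 z (n 0 z (n 0 z z)))))))))))) (n 533 (n 0 z (n 0 z (n 0
 z (n 0 z (n 0 z (n 0 z (n 0 z (n 0 z (n 0 z (n 0 z (n 0 z (n 0 z z)))))))))))) z)))))))))))))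
 (n 0 (n 0 z (n 215 (n 0 z (n 2 (n 2 (n 0 z (n 0 z (n 0 z (n 0 z (n 0 (n 2220 z z) (n 0 z
 z)))))) (n 2 (n 0 z (n 0 z (n 0 z (n 0 z (n 0 z (n 0 z z)))))) (n 2 (n 0 z (n 0 z (n 0 z (n 0 z
 (n 0 z (n 0 z z)))))) (n 1 z (n 2 (n 0 z (n 0 z (n 0 z (n 0 z (n 0 z (n 0 z z)))))) (n 2 (n 0 z
 (n 0 z (n 0 z (n 0 z (n 0 z (n 0 z z)))))) (n 2 (n 0 z (n 0 z (n 0 z (n 0 z (n 0 z (n 0 z
 z)))))) (n 2 (n 0 z (n 0 z (n 0 z (n 0 z (n 0 z (n 0 z z)))))) (n 2 (n 0 z (n 0 z (n 0 z (n 0 z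
 (n 0 z (n 0 z z)))))) (n 2 (n 0 z (n 0 z (n 0 z (n 0 z (n 0 z (n 0 z z)))))) z)))))))))) (n 0 z
 (n 0 z (n 0 z (n 0 z (n 0 z z))))))) (n 555 (n 2 (n 0 z (n 0 z (n 1 z (n 1 z (n 1 z (n 1 z (n 2
 (n 0 z (n 0 (n 8803379 z z) (n 0 z (n 0 (n 8803379 z z) (n 0 (n 8803379 z (n 8803379 z z)) (n 0
 z z)))))) (n 2 (n 0 z (n 0 z (n 0 z (n 0 z (n 0 (n 2212 z z) (n 0 z z)))))) (n 2 (n 0 z (n 0 z
 (n 0 z (n 0 z (n 0 (n 2212 z z) (n 0 z z)))))) z))))))))) (n 0 z (n 0 z (n 0 z (n 0 z (n 0 z (n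
 0 z (n 0 z (n 0 z (n 0 z (n 0 z (n 0 z (n 0 z (n 0 z (n 0 z (n 0 z (n 0 z (n 0 z (n 0 z (n 0 z
 (n 0 z (n 0 z (n 0 z (n 0 z (n 0 z (n 0 z (n 0 z (n 0 z (n 0 z (n 0 z (n 0 z (n 0 z (n 0 z (n 0
 z (n 0 z (n 0 z (n 0 z (n 0 z (n 0 z (n 0 z (n 0 z (n 0 z (n 0 z (n 0 z (n 0 z (n 0 z
 z)))))))))))))))))))))))))))))))))))))))))))))) (n 555 (n 0 z (n 0 z (n 0 z (n 0 z (n 0 z (n 0
 z (n 0 z (n 0 z (n 0 z (n 0 z (n 0 z (n 0 z (n 0 z (n 0 z (n 0 z (n 2 (n 0 z (n 2 (n 0 z (n 0 z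
 (n 0 z (n 0 z (n 0 (n 8868643 z z) (n 0 z z)))))) (n 2 (n 0 z (n 0 z (n 0 z (n 0 z (n 0 z (n 0
 z z)))))) (n 2 (n 0 z (n 0 z (n 0 z (n 0 z (n 0 z (n 0 z z)))))) (n 2 (n 0 z (n 0 z (n 0 z (n 0
 z (n 0 z (n 0 z z)))))) (n 2 (n 0 z (n 0 z (n 0 z (n 0 z (n 0 z (n 0 z z)))))) (n 2 (n 0 z (n 0
 z (n 0 z (n 0 z (n 0 z (n 0 z z)))))) (n 2 (n 0 z (n 0 z (n 0 z (n 0 z (n 0 z (n 0 z z))))))
 z)))))))) (n 0 z (n 0 z (n 0 z (n 0 z (n 0 z (n 0 z (n 0 z (n 0 z (n 0 z (n 0 z (n 0 z (n 0 z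
 (n 0 z (n 0 z (n 0 z (n 0 z (n 0 z (n 0 z (n 0 z (n 0 z (n 0 z (n 0 z (n 0 z (n 0 z (n 0 z (n 0
 z (n 0 z (n 0 z (n 0 z (n 0 z z)))))))))))))))))))))))))))))))))))))))))))))) (n 555 (n 0 z (n
 0 z (n 0 z (n 0 z (n 0 z (n 0 z (n 0 z (n 0 z (n 0 z (n 0 z (n 0 z (n 0 z (n 0 z (n 0 z (n 0 z
 (n 0 z (n 0 z (n 0 z (n 0 z (n 0 z (n 0 z (n 0 z (n 0 z (n 0 z (n 0 z (n 0 z (n 0 z (n 0 z (n 0
 z (n 0 z (n 0 z (n 0 z (n 0 z (n 0 z (n 0 z (n 0 z (n 0 z (n 0 z (n 0 z (n 0 z (n 0 z (n 0 z (n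
 0 z (n 0 z (n 0 z (n 0 z z)))))))))))))))))))))))))))))))))))))))))))))) (n 303 (n 0 z (n 0 z
 (n 0 z (n 2 (n 0 z (n 2 (n 0 z (n 0 z (n 0 z (n 0 z (n 0 z (n 0 z z)))))) (n 1 z (n 2 (n 0 (n
 8803379 z z) (n 0 (n 8803379 z z) (n 0 z (n 0 z (n 0 (n 8803379 z (n 8803379 z z)) (n 0 z
 z)))))) (n 2 (n 0 z (n 0 z (n 0 z (n 0 z (n 0 z (n 0 z z)))))) (n 2 (n 0 z (n 0 z (n 0 z (n 0 z
 (n 0 (n 8868643 z z) (n 0 z z)))))) z)))))) (n 0 z (n 0 z (n 0 z (n 0 z (n 0 z z))))))))) (n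
 303 (n 0 z (n 0 z (n 0 z (n 0 z (n 0 z (n 0 z (n 0 z (n 0 z (n 0 z z))))))))) (n 553 (n 0 z (n
 0 z (n 0 z (n 0 z (n 0 z (n 0 z (n
 0x29d91d90c061aec8c84607817e6d8b91947f68927192857c746f607b88919275876b80748f80a283807b747483647b5e6b9c80917783897690848871821009
 z (n
 0x8ec8ec86078181867f7d7a86928b838279859192957969734b874d977da1688080808498b191a38b75996b7379956b6d776084716195860809
 z (n 0 z (n 0 z (n 0 z z))))))))))) (n 553 (n 0 z (n 0 z (n 0 z (n 2 (n 0 z (n 0 z (n 0 z z)))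
 (n 0 z (n 0 z (n 0 z (n 0 z (n 0 z (n 0 z (n 0 z z))))))))))) (n 553 (n 0 z (n 0 z (n 0 z (n 0
 z (n 0 z (n 0 z (n 0 z (n 0 z (n 0 z (n 0 z (n 7754803 z z))))))))))) (n 553 (n 0 z (n 0 z (n 0
 z (n 0 z (n 0 z (n 0 z (n 0 z (n 0 z (n 0 z (n 0 z (n 0 z z))))))))))) (n 553 (n 0 z (n 2 z (n
 0 z (n 0 z (n 0 z (n 0 z (n 0 z (n 0 z (n 0 z (n 0 z (n 0 z z))))))))))) z)))))))))))) (n 0 (n
 663 (n 0 z (n 0 z (n 0 z (n 0 z (n 0 z (n 0 z (n 0 z z))))))) (n 555 (n 2 (n 0 z (n 0 z (n 1 z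
 (n 1 z (n 1 z (n 1 z (n 1 z (n 1 z (n 1 z z))))))))) (n 0 z (n 0 z (n 0 z (n 0 z (n 0 z (n 0 z
 (n 0 z (n 0 z (n 0 z (n 0 z (n 0 z (n 0 z (n 0 z (n 0 z (n 0 z z)))))))))))))))) (n 555 (n 0 z
 (n 0 z (n 0 z (n 0 z (n 0 z (n 0 z (n 0 z (n 0 z (n 0 z (n 0 z (n 0 z (n 0 z (n 0 z (n 0 z (n 0
 z (n 0 z z)))))))))))))))) (n 555 (n 0 z (n 0 z (n 0 z (n 0 z (n 0 z (n 0 z (n 0 z (n 0 z (n 0
 z (n 0 z (n 0 z (n 0 z (n 0 z (n 0 z (n 0 z (n 2 (n 1 z (n 2 (n 0 z (n 0 z (n 0 z (n 0 z (n 0 z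
 (n 0 z z)))))) (n 2 (n 0 z (n 0 z (n 0 z (n 0 z (n 0 z (n 0 z z)))))) (n 1 z (n 1 z (n 2 (n 0 z
 (n 0 z (n 0 z (n 0 z (n 0 z (n 0 z z)))))) (n 1 z z))))))) z)))))))))))))))) (n 303 (n 0 z (n 0
 z (n 0 z (n 0 z (n 0 z (n 0 z (n 0 z (n 0 z (n 0 z (n 0 z (n 0 z (n 0 z z)))))))))))) (n 303 (n
 0 z (n 0 z (n 0 z (n 0 z (n 0 z (n 0 z (n 0 z (n 0 z (n 0 z (n 0 z (n 0 z (n 2 (n 2 (n 0 z (n 0
 z (n 0 z (n 0 z (n 0 z (n 0 z z)))))) (n 1 z (n 1 z (n 2 (n 0 z (n 0 z (n 0 z (n 0 z (n 0 z (n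
 0 z z)))))) (n 1 z z))))) z)))))))))))) (n 557 (n 0 z (n 0 z (n 0 z (n 0 z (n 0 z (n 0 z (n 0 z
 (n 0 z (n 0 z (n 0 z (n 0 z (n 2 (n 0 z (n 0 z (n 0 z (n 0 z z)))) z)))))))))))) (n 557 (n 0 z
 (n 0 z (n 0 z (n 0 z (n 0 z (n 0 z (n 0 z (n 0 z (n 0 z (n 0 z (n 0 z (n 0 z z)))))))))))) (n
 557 (n 0 z (n 0 z (n 0 z (n 0 z (n 0 z (n 0 z (n 0 z (n 0 z (n 0 z (n 0 z (n 0 z (n 0 z
 z)))))))))))) (n 557 (n 0 z (n 0 z (n 0 z (n 0 z (n 0 z (n 0 z (n 0 z (n 0 z (n 0 z (n 2 (n 0 z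
 z) (n 0 z (n 0 z z)))))))))))) (n 557 (n 0 z (n 0 z (n 0 z (n 0 z (n 0 z (n 0 z (n 0 z (n 0 z
 (n 0 z (n 0 z (n 0 z (n 0 z z)))))))))))) z))))))))))) (n 0 (n 55 (n 0 z (n 0 z (n 2 (n 0 z (n
 0 z (n 1 z (n 1 z (n 1 z (n 1 z (n 1 z (n 1 z (n 1 z z))))))))) (n 0 z (n 0 z (n 0 z (n 0 z (n
 0 z (n 0 z (n 0 z (n 0 z (n 0 z (n 0 z (n 0 z (n 0 z (n 0 z (n 0 z (n 0 z (n 0 z (n 0 z (n 0 z
 (n 0 z z)))))))))))))))))))))) (n 55 (n 0 z (n 0 z (n 0 z (n 0 z (n 0 z (n 0 z (n 0 z (n 0 z (n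
 0 z (n 0 z (n 0 z (n 0 z (n 0 z (n 0 z (n 0 z (n 0 z (n 0 z (n 0 z (n 0 z (n 0 z (n 0 z (n 0 z
 z)))))))))))))))))))))) (n 55 (n 0 z (n 0 z (n 0 z (n 0 z (n 0 z (n 0 z (n 0 z (n 0 z (n 0 z (n
 0 z (n 0 z (n 0 z (n 0 z (n 0 z (n 0 z (n 0 z (n 0 z (n 0 z (n 0 z (n
 0xea6ca08038080807f808081807f8080817f7f808181807f81807f808081818081818180808180818080808080807f7f808081807f80800809
 z (n 2 (n 1 z (n 2 (n 0 z (n 0 z (n 0 z (n 0 z (n 0 z (n 0 z z)))))) (n 2 (n 0 z (n 0 z (n 0 z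
 (n 0 z (n 0 (n 8855571 z z) (n 0 z z)))))) (n 1 z (n 1 z (n 2 (n 0 z (n 0 z (n 0 z (n 0 z (n 0
 (n 244 z z) (n 0 z z)))))) (n 1 z z))))))) (n 0 z z)))))))))))))))))))))) (n 63 (n 0 z (n 0 z
 (n 0 z (n 0 z (n 0 z (n 0 z (n 0 z (n 0 z (n 0 z (n 0 z (n 0 z z))))))))))) (n 63 (n 0 z (n 0 z
 (n 0 z (n 0 z (n 0 z (n 0 z (n 0 z (n 0 z (n 0 z (n 0 z (n 2 (n 2 (n 0 z (n 0 z (n 0 z (n 0 z
 (n 0 z (n 0 z z)))))) (n 1 z (n 1 z (n 2 (n 0 z (n 0 z (n 0 z (n 0 z (n 0 z (n 0 z z)))))) (n 1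
 z z))))) z))))))))))) (n 61 (n 0 z (n 0 z (n 2 (n 0 z (n 0 z (n 0 z (n 0 z z)))) (n 0 z (n 0 z
 (n 0 z (n 0 z (n 0 z (n 0 z (n 0 z (n 0 z (n 0 z z)))))))))))) (n 61 (n 0 z (n 0 z (n 0 z (n 2
 (n 0 z (n 0 z (n 0 z z))) (n 0 z (n 0 z (n 0 z (n 0 z (n 0 z (n 0 z (n 0 z (n 0 z z))))))))))))
 (n 61 (n 0 z (n 0 z (n 0 z (n 0 z (n 0 z (n 0 z (n 0 z (n 0 z (n 0 z (n 0 z (n 0 z (n 0 z
 z)))))))))))) (n 61 (n 0 z (n 0 z (n 0 z (n 0 z (n 0 z (n 0 z (n 0 z (n 0 z (n 0 z (n 0 z (n 0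
 z (n 2 (n 0 z z) z)))))))))))) (n 61 (n 0 z (n 0 z (n 0 z (n 0 z (n 0 z (n 0 z (n 0 z (n 0 z (n
 0 z (n 0 z (n 0 z (n 0 z z)))))))))))) z)))))))))) (n 0 (n 0 z (n 0 z (n 483 (n 0 z (n 0 z (n 2
 (n 0 z (n 1 z (n 1 z (n 1 z (n 1 z (n 1 z z)))))) (n 0 z (n 0 z (n 0 z (n 0 z (n 0 z (n 0 z (n
 0 z z)))))))))) (n 483 (n 0 z (n 0 z (n 0 z (n 0 z (n 0 z (n 0 z (n 2 (n 1 z (n 1 z (n 2 (n 0 z
 (n 0 (n 1924 z z) (n 0 z (n 0 z (n 0 (n 1924 z (n 1924 z z)) (n 0 (n 1173 z z) z)))))) (n 2 (n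
 0 z (n 0 z (n 0 z (n 0 z (n 0 z (n 0 z z)))))) (n 2 (n 0 z (n 0 z (n 0 z (n 0 z (n 0 (n 1924 z
 z) (n 0 z z)))))) z))))) (n 0 z (n 0 z (n 0 z z)))))))))) (n 481 (n 0 z (n 0 z (n 0 z (n 0 z (n
 0 z (n 0 z (n 0 z (n 0 z (n 0 z (n 0 z (n 0 z (n 0 z (n 0 z (n 0 z (n 0 z (n 0 z (n 0 z (n 0 z
 (n 0 z (n 0 z (n 0 z (n 0 z (n 0 z (n 0 z (n 0 z (n 0 z (n 0 z (n 0 z (n 0 z (n 0 z (n 0 z (n 0
 z (n 0 z (n 0 z (n 0 z (n 0 z (n 0 z (n 0 z (n 0 z (n 0 z (n 0 z (n 0 z (n 0 z (n 0 z (n 0 z (n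
 0 z (n 0 z z))))))))))))))))))))))))))))))))))))))))))))))) (n 481 (n 0 z (n 0 z (n 0 z (n 0 z
 (n 0 z (n 0 z (n 0 z (n 0 z (n 0 z (n 0 z (n 0 z (n 0 z (n 0 z (n 0 z (n 0 z (n 0 z (n 0 z (n 0
 z (n 0 z (n 0 z (n 0 z (n 0 z (n 0 z (n 0 z (n 0 z (n 0 z (n 0 z (n 0 z (n 0 z (n 0 z (n 0 z (n
 0 z (n 0 z (n 0 z (n 0 z (n 0 z (n 0 z (n 0 z (n 0 z (n 0 z (n 0 z (n 0 z (n 0 z (n 0 z (n 0 z
 (n 0 z (n 0 z z))))))))))))))))))))))))))))))))))))))))))))))) (n 481 (n 0 z (n 0 z (n 0 z (n 0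
 z (n 0 z (n 0 z (n 0 z (n 0 z (n 0 z (n 0 z (n 0 z (n 0 z (n 0 z (n 0 z (n 2 (n 0 z (n 0 z z))
 (n 0 z (n 0 z (n 0 z (n 0 z (n 0 z (n 0 z (n 0 z (n 0 z (n 0 z (n 0 z (n 0 z (n 0 z (n 0 z (n 0
 z (n 0 z (n 0 z (n 0 z (n 0 z (n 0 z (n 0 z (n 0 z (n 0 z (n 0 z (n 0 z (n 0 z (n 0 z (n 0 z (n
 0 z (n 0 z (n 0 z (n 0 z (n 0 z z))))))))))))))))))))))))))))))))))))))))))))))) (n 481 (n 0 z
 (n 0 z (n 0 z (n 0 z (n 0 z (n 0 z (n 0 z (n 0 z (n 0 z (n 0 z (n 0 z (n 0 z (n 0 z (n 0 z (n 0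
 z (n 0 z (n 0 z (n 0 z (n 0 z (n 0 z (n 0 z (n 0 z (n 0 z (n 0 z (n 0 z (n 0 z (n 0 z (n 0 z (n
 0 z (n 0 z (n 0 z (n 0 z (n 0 z (n 0 z (n 0 z (n 0 z (n 0 z (n 0 z (n 0 z (n 0 z (n 0 z (n 0 z
 (n 0 z (n 0 z (n 2 (n 0 z z) (n 0 z (n 0 z z))))))))))))))))))))))))))))))))))))))))))))))) (n
 481 (n 0 z (n 0 z (n 0 z (n 0 z (n 0 z (n 0 z (n 0 z (n 0 z (n 0 z (n 0 z (n 0 z (n 0 z (n 0 z
 (n 0 z (n 0 z (n 0 z (n 0 z (n 0 z (n 0 z (n 0 z (n 0 z (n 0 z (n 0 z (n 0 z (n 0 z (n 0 z (n 0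
 z (n 0 z (n 0 z (n 0 z (n 0 z (n 0 z (n 0 z (n 0 z (n 0 z (n 0 z (n 0 z (n 2 z (n 0 z (n 0 z (n
 0 z (n 0 z (n 0 z (n 0 z (n 0 z (n 0 z (n 0 z z)))))))))))))))))))))))))))))))))))))))))))))))
 z))))))))) (n 0 (n 0 z (n 51 (n 0 z (n 0 z (n 0 z (n 0 z (n 0 z (n 0 z (n 0 z (n 0 z (n 0 z (n
 0 z (n 0 z (n 0 z (n 0 z (n 0 z (n 0 z (n 0 z (n 0 z (n 0 z (n 0 z (n 0 z (n 0 z (n 0 z (n 0 z
 (n 0 z (n 0 z (n 0 z (n 0 z (n 0 z (n 0 z (n 0 z (n 0 z (n 0 z (n 0 z (n 0 z (n 0 z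
 z))))))))))))))))))))))))))))))))))) (n 51 (n 0 z (n 0 z (n 0 z (n 0 z (n 0 z (n 0 z (n 0 z (n
 0 z (n 0 z (n 0 z (n 0 z (n 0 z (n 0 z (n 0 z (n 0 z (n 0 z (n 0 z (n 0 z (n 0 z (n 0 z (n 0 z
 (n 0 z (n 0 z (n 0 z (n 0 z (n 0 z (n 0 z (n 0 z (n 0 z (n 0 z (n 0 z (n 0 z (n 0 z (n 2 (n 2
 (n 0 z (n 0 z (n 0 z (n 0 z (n 0 z (n 0 z z)))))) (n 2 (n 0 z (n 0 z (n 0 z (n 0 z (n 0 z (n 0
 z z)))))) (n 2 (n 0 z (n 0 z (n 0 z (n 0 (n 2132 z z) (n 0 (n 2132 z (n 2132 z z)) (n 0 (n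
 8660539 z z) z)))))) (n 2 (n 0 z (n 0 z (n 0 z (n 0 z (n 0 z (n 0 z z)))))) (n 2 (n 0 z (n 0 z
 (n 0 z (n 0 z (n 0 z (n 0 z z)))))) z))))) (n 0 z z))))))))))))))))))))))))))))))))))) (n 533
 (n 0 z (n 0 z (n 0 z (n 0 z (n 0 z (n 0 z (n 0 z (n 0 z (n 0 z (n 0 z (n 0 z (n 0 z (n 0 z (n 0
 z (n 0 z (n 0 z (n 0 z (n 0 z (n 0 z (n 2 (n 0 z (n 0 z (n 0 z (n 0 z z)))) (n 0 z (n 0 z (n 0
 z (n 0 z (n 0 z z))))))))))))))))))))))))) (n 533 (n 2 (n 0 z (n 0 z (n 0 z z))) (n 0 z (n 0 z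
 (n 0 z (n 0 z (n 0 z (n 0 z (n 0 z (n 0 z (n 0 z (n 0 z (n 0 z (n 0 z (n 0 z (n 0 z (n 0 z (n 0
 z (n 0 z (n 0 z (n 0 z (n 0 z (n 0 z (n 0 z (n 0 z (n 0 z z))))))))))))))))))))))))) (n 533 (n
 0 z (n 0 z (n 0 z (n 0 z (n 0 z (n 0 z (n 0 z (n 0 z (n 0 z (n 0 z (n 0 z (n 0 z (n 0 z (n 0 z
 (n 0 z (n 0 z (n 0 z (n 0 z (n 0 z (n 0 z (n 0 z (n 0 z (n 0 z (n 0 z (n 0 z
 z))))))))))))))))))))))))) (n 533 (n 0 z (n 0 z (n 0 z (n 0 z (n 0 z (n 0 z (n 0 z (n 0 z (n 0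
 z (n 0 z (n 0 z (n 0 z (n 0 z (n 0 z (n 0 z (n 0 z (n 0 z (n 0 z (n 0 z (n 0 z (n 0 z (n 0 z (n
 0 z (n 0 z (n 2 (n 0 z z) z))))))))))))))))))))))))) (n 533 (n 0 z (n 0 z (n 0 z (n 0 z (n 0 z
 (n 0 z (n 0 z (n 0 z (n 0 z (n 0 z (n 0 z (n 0 z (n 0 z (n 0 z (n 0 z (n 0 z (n 0 z (n 0 z (n 0
 z (n 0 z (n 0 z (n 0 z (n 0 z (n 0 z (n 0 z z))))))))))))))))))))))))) z)))))))) (n 0 (n 291 (n
 0 z (n 0 z (n 0 z (n 0 z (n 2 (n 0 z (n 2 (n 0 z (n 0 z (n 0 z (n 0 z (n 0 (n 8790035 z z) (n 0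
 z z)))))) (n 1 z (n 1 z (n 2 (n 0 z (n 0 z (n 0 z (n 0 z (n 0 z (n 0 z z)))))) (n 1 z z))))))
 (n 0 z (n 0 z (n 0 z (n 0 z z))))))))) (n 291 (n 0 z (n 0 z (n 0 z (n 0 z (n 0 z (n 0 z (n 0 z
 (n 0 z (n 0 z z))))))))) (n 289 (n 0 z (n 0 z (n 0 z (n 0 z (n 0 z (n 0 z (n 0 z (n 0 z (n 0 z
 (n 0 z (n 0 z (n 0 z (n 0 z (n 0 z (n 0 z (n 0 z (n 0 z (n 0 z (n 0 z (n 0 z (n 0 z (n 0 z (n 0
 z (n 0 z (n 0 z (n 0 z (n 0 z (n 0 z (n 0 z (n 0 z (n 0 z (n 0 z (n 0 z (n 0 z (n 0 z (n 0 z (n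
 0 z (n 0 z (n 0 z (n 0 z (n 0 z (n 0 z (n 0 z (n 0 z (n 0 z (n 0 z (n 0 z (n 0 z (n 0 z (n 0 z
 (n 0 z (n 0 z (n 0 z (n 0 z (n 0 z (n 0 z
 z)))))))))))))))))))))))))))))))))))))))))))))))))))))))) (n 289 (n 0 z (n 0 z (n 0 z (n 0 z (n
 0 z (n 0 z (n 0 z (n 0 z (n 0 z (n 0 z (n 0 z (n 0 z (n 0 z (n 0 z (n 0 z (n 0 z (n 0 z (n 0 z
 (n 0 z (n 0 z (n 0 z (n 0 z (n 0 z (n 0 z (n 0 z (n 0 z (n 0 z (n 0 z (n 0 z (n 0 z (n 0 z (n 0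
 z (n 0 z (n 0 z (n 0 z (n 0 z (n 0 z (n 0 z (n 0 z (n 0 z (n 0 z (n 0 z (n 0 z (n 0 z (n 0 z (n
 0 z (n 0 z (n 0 z (n 0 z (n 0 z (n 0 z (n 0 z (n 0 z (n 0 z (n 0 z (n 0 z
 z)))))))))))))))))))))))))))))))))))))))))))))))))))))))) (n 289 (n 0 z (n 0 z (n 0 z (n 0 z (n
 0 z (n 0 z (n 0 z (n 0 z (n 0 z (n 0 z (n 2 (n 0 z (n 0 z z)) (n 0 z (n 0 z (n 0 z (n 0 z (n 0
 z (n 0 z (n 0 z (n 0 z (n 0 z (n 0 z (n 0 z (n 0 z (n 0 z (n 0 z (n 0 z (n 0 z (n 0 z (n 0 z (n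
 0 z (n 0 z (n 0 z (n 0 z (n 0 z (n 0 z (n 0 z (n 0 z (n 0 z (n 0 z (n 0 z (n 0 z (n 0 z (n 0 z
 (n 0 z (n 0 z (n 0 z (n 0 z (n 0 z (n 0 z (n 0 z (n 0 z (n 0 z (n 0 z (n 0 z (n 0 z (n 0 z
 z)))))))))))))))))))))))))))))))))))))))))))))))))))))))) (n 289 (n 0 z (n 0 z (n 0 z (n 0 z (n
 0 z (n 0 z (n 0 z (n 0 z (n 0 z (n 0 z (n 0 z (n 0 z (n 0 z (n 0 z (n 0 z (n 0 z (n 0 z (n 0 z
 (n 0 z (n 0 z (n 0 z (n 0 z (n 0 z (n 0 z (n 0 z (n 0 z (n 0 z (n 0 z (n 0 z (n 0 z (n 0 z (n 0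
 z (n 0 z (n 0 z (n 0 z (n 0 z (n 0 z (n 0 z (n 0 z (n 0 z (n 0 z (n 0 z (n 0 z (n 2 (n 0 z z)
 (n 0 z (n 0 z (n 0 z (n 0 z (n 0 z (n 0 z (n 0 z (n 0 z (n 0 z (n 0 z (n 0 z (n 0 z
 z)))))))))))))))))))))))))))))))))))))))))))))))))))))))) (n 289 (n 0 z (n 0 z (n 0 z (n 0 z (n
 0 z (n 0 z (n 0 z (n 0 z (n 0 z (n 0 z (n 0 z (n 0 z (n 0 z (n 0 z (n 0 z (n 0 z (n 0 z (n 0 z
 (n 0 z (n 0 z (n 0 z (n 0 z (n 0 z (n 0 z (n 0 z (n 0 z (n 0 z (n 0 z (n 0 z (n 0 z (n 0 z (n 0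
 z (n 0 z (n 0 z (n 0 z (n 0 z (n 0 z (n 0 z (n 0 z (n 0 z (n 0 z (n 0 z (n 0 z (n 0 z (n 0 z (n
 0 z (n 0 z (n 0 z (n 0 z (n 0 z (n 0 z (n 0 z (n 0 z (n 0 z (n 2 z (n 0 z
 z)))))))))))))))))))))))))))))))))))))))))))))))))))))))) z))))))) (n 0 (n 0 z (n 1 (n 0 z (n 0
 z (n 0 z (n 0 z (n 0 z (n 0 z (n 0 z (n 0 z (n 0 z (n 0 z (n 0 z (n 0 z (n 0 z (n 0 z (n 0 z (n
 0 z (n 0 z (n 0 z (n 0 z (n 0 z (n 0 z (n 0 z (n 0 z (n 0 z (n 0 z (n 0 z (n 0 z (n 0 z (n 0 z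
 (n 0 z (n 0 z (n 0 z (n
 0x10ec6ec64037f7b7971716c9286948c878978918d8b80886f7369887169868880787c8077849f86684c6e8aa1638c9f8e71637e959e5c840809
 z (n 0 z (n 0 z (n 0 z (n 0 z (n 0 z (n 0 z (n 0 z (n 0 z (n 0 z (n 2 (n 0 z (n 0 z (n 0 z (n 0
 z z)))) (n 0 z (n 0 z (n 0 z (n 0 z z))))))))))))))))))))))))))))))))))))))))))))))) (n 1 (n 0
 z (n 0 z (n 0 z (n 0 z (n 0 z (n 0 z (n 0 z (n 0 z (n 0 z (n 0 z (n 0 z (n 0 z (n 0 z (n 0 z (n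
 0 z (n 0 z (n 0 z (n 0 z (n 0 z (n 0 z (n 0 z (n 0 z (n 0 z (n 0 z (n 0 z (n 0 z (n 0 z (n 0 z
 (n 0 z (n 0 z (n 0 z (n 0 z (n 0 z (n 0 z (n 0 z (n 0 z (n 0 z (n 0 z (n 0 z (n 0 z (n 0 z (n 0
 z (n 0 z (n 0 z (n 0 z (n 0 z (n 0 z z))))))))))))))))))))))))))))))))))))))))))))))) (n 1 (n 0
 z (n 0 z (n 0 z (n 0 z (n 0 z (n 0 z (n 0 z (n 0 z (n 0 z (n 0 z (n 0 z (n 0 z (n 0 z (n 0 z (n
 0 z (n 0 z (n 0 z (n 0 z (n 0 z (n 0 z (n 0 z (n 0 z (n 0 z (n 0 z (n 0 z (n 0 z (n 0 z (n 0 z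
 (n 0 z (n 0 z (n 0 z (n 0 z (n 0 z (n 0 z (n 0 z (n 0 z (n 0 z (n 0 z (n 0 z (n 0 z (n 0 z (n 0
 z (n 0 z (n 0 z (n 0 z (n 0 z (n 0 z z))))))))))))))))))))))))))))))))))))))))))))))) (n 1 (n 0
 z (n 0 z (n 0 z (n 0 z (n 0 z (n 0 z (n 0 z (n 0 z (n 0 z (n 0 z (n 0 z (n 0 z (n 0 z (n 0 z (n
 0 z (n 0 z (n 0 z (n 0 z (n 0 z (n 0 z (n 0 z (n 0 z (n 0 z (n 0 z (n 0 z (n 0 z (n
 0x10ec6ec64037f7b7971716c9286948c878978918d8b80886f7369887169868880787c8077849f86684c6e8aa1638c9f8e71637e959e5c840809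
 z (n 0 z (n 0 z (n 0 z (n 0 z (n 0 z (n 0 z (n 0 z (n 0 z (n 0 z (n 0 z (n 2 (n 0 z z) (n 0 z
 (n 0 z (n 0 z (n 0 z (n 0 z (n 0 z (n 0 z (n 0 z (n 0 z
 z))))))))))))))))))))))))))))))))))))))))))))))) (n 1 (n 0 z (n 0 z (n 0 z (n 0 z (n 0 z (n 0 z
 (n 0 z (n 0 z (n 0 z (n 0 z (n 0 z (n 0 z (n 0 z (n 0 z (n 0 z (n 0 z (n 0 z (n 0 z (n 0 z (n 0
 z (n 0 z (n 0 z (n 0 z (n 0 z (n 0 z (n 0 z (n 0 z (n 0 z (n 0 z (n 0 z (n 0 z (n 0 z (n 0 z (n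
 0 z (n 0 z (n 0 z (n 0 z (n 0 z (n 0 z (n 0 z (n 0 z (n 0 z (n 0 z (n 0 z (n 0 z (n 0 z (n 0 z
 z))))))))))))))))))))))))))))))))))))))))))))))) z)))))) (n 0 (n 293 (n 0 z (n 0 z (n 0 z (n 0
 z (n 0 z (n 0 z (n 0 z (n 0 z (n 0 z (n 0 z (n 0 z (n 0 z (n 0 z (n 0 z (n 0 z (n 0 z (n 0 z (n
 0 z (n 0 z (n 0 z (n 0 z (n 0 z (n 0 z (n 0 z (n 0 z (n 0 z (n 0 z (n 0 z (n 0 z (n 0 z (n 0 z
 (n 0 z (n 0 z (n 0 z (n 0 z (n 0 z (n 0 z (n 0 z (n 0 z (n 0 z (n 0 z (n 0 z (n 0 z (n 0 z (n 0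
 z (n 0 z (n 0 z (n 0 z (n 0 z z))))))))))))))))))))))))))))))))))))))))))))))))) (n 293 (n 0 z
 (n 0 z (n 0 z (n 0 z (n 0 z (n 0 z (n 0 z (n 0 z (n 0 z (n 0 z (n 0 z (n 0 z (n 2 (n 0 z (n 0 z
 (n 0 z z))) (n 0 z (n 0 z (n 0 z (n 0 z (n 0 z (n 0 z (n 0 z (n 0 z (n 0 z (n 0 z (n 0 z (n 0 z
 (n 0 z (n 0 z (n 0 z (n 0 z (n 0 z (n 0 z (n 0 z (n 0 z (n 0 z (n 0 z (n 0 z (n 0 z (n 0 z (n 0
 z (n 0 z (n 0 z (n 0 z (n 0 z (n 0 z (n 0 z (n 0 z (n 0 z (n 0 z (n 0 z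
 z))))))))))))))))))))))))))))))))))))))))))))))))) (n 293 (n 0 z (n 0 z (n 0 z (n 0 z (n 0 z (n
 0 z (n 0 z (n 0 z (n 0 z (n 0 z (n 0 z (n 0 z (n 0 z (n 0 z (n 0 z (n 0 z (n 0 z (n 0 z (n 0 z
 (n 0 z (n 0 z (n 0 z (n 0 z (n 0 z (n 0 z (n 0 z (n 0 z (n 0 z (n 0 z (n 0 z (n 0 z (n 2 (n 0 z
 (n 0 z z)) (n 0 z (n 0 z (n 0 z (n 0 z (n 0 z (n 0 z (n 0 z (n 0 z (n 0 z (n 0 z (n 0 z (n 0 z
 (n 0 z (n 0 z (n 0 z (n 0 z (n 0 z z))))))))))))))))))))))))))))))))))))))))))))))))) (n 293 (n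
 0 z (n 0 z (n 0 z (n 0 z (n 0 z (n 0 z (n 0 z (n 0 z (n 0 z (n 0 z (n 0 z (n 0 z (n 0 z (n 0 z
 (n 0 z (n 0 z (n 0 z (n 0 z (n 0 z (n 0 z (n 0 z (n 0 z (n 0 z (n 0 z (n 0 z (n 0 z (n 0 z (n 0
 z (n 0 z (n 0 z (n 0 z (n 0 z (n 0 z (n 0 z (n 0 z (n 0 z (n 0 z (n 0 z (n 0 z (n 0 z (n 0 z (n
 0 z (n 0 z (n 0 z (n 0 z (n 0 z (n 0 z (n 0 z (n 0 z
 z))))))))))))))))))))))))))))))))))))))))))))))))) (n 293 (n 0 z (n 0 z (n 0 z (n 0 z (n 0 z (n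
 0 z (n
 0x10ec6ec64037f7b7971716c9286948c878978918d8b80886f7369887169868880787c8077849f86684c6e8aa1638c9f8e71637e959e5c840809
 z (n 2 z (n 0 z (n 0 z (n 0 z (n 0 z (n 0 z (n 0 z (n 0 z (n 0 z (n 0 z (n 0 z (n 0 z (n 0 z (n
 0 z (n 0 z (n 0 z (n 0 z (n 0 z (n 0 z (n 0 z (n 0 z (n 0 z (n 0 z (n 0 z (n 0 z (n 0 z (n 0 z
 (n 0 z (n 0 z (n 0 z (n 0 z (n 0 z (n 0 z (n 0 z (n 0 z (n 0 z (n 0 z (n 0 z (n 0 z (n 0 z (n 0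
 z (n 0 z z))))))))))))))))))))))))))))))))))))))))))))))))) z))))) (n 0 (n 0 z (n 0 z (n 0 z (n
 0 z z)))) (n 0 (n 0 z (n 0 z (n 0 z z))) (n 0 (n 0 z (n 0 z z)) (n 0 (n 0 z z) (n 0 z
 z)))))))))))))) (n 0 (n 0 z (n 1 (n 2236 z (n 2236 z (n 4329571 z (n 2236 z (n 2236 z (n 2236 z
 z)))))) (n 0 z (n 1 (n 2236 z (n 2236 z (n 2236 z (n 2236 z (n 2236 z (n 2236 z z)))))) (n 1 (n
 6496515 z (n 6496515 z (n 6496515 z (n 6496515 z (n 6496515 z (n 6496515 z z)))))) (n 0 z (n 0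
 z (n 0 z z)))))))) (n 0 z z)))) (n
 0x6364a2dd2d16bb28aeb94450aa0e72542bb2380c4cd0e266a11256b10a8c8255ae80a32c0 (n 0 (n 159 (n 2 z
 (n 0 z (n 6554139 z (n 10 z (n 0 z (n 6554139 z (n 0 z (n 0 z (n 0 z (n 0 z (n 6496339 z (n 0 z
 (n 0 z (n 0 z (n
 0x2ca8ca64077ff8028017f67ec7f78038018047fd8008007fe7fc80e7eb8088117f87f480a8178097f57f67f37f77ef80a7f87fb80880f80e7e07f680682380e7ee7ec80d80b81e8007ff7df8098157e80811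
 z (n 0 z (n 0 z (n 0 z z)))))))))))))))))) (n 255 (n 0 z (n 18 z (n 26 z (n 0 z (n 3278363 z (n
 0 z (n 0 z (n 0 z z)))))))) (n 9 (n 34 z (n 0 z (n 0 z (n 0 z (n 6496339 z (n 0 z (n 0 z (n 0 z
 z)))))))) (n 27 (n 42 z (n 0 z (n 0 z (n 50 z (n 0 z (n 0 z (n 0 z (n 0 z (n 6496339 z (n 0 z
 (n 0 z (n 0 z (n 0 z (n 0 z z)))))))))))))) (n 1 (n 0 z (n 58 z (n 0 z (n 0 z (n 0 z (n 0 z (n
 0 z (n 6554139 z z)))))))) (n 0 (n 66 z (n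
 0x10c86c864038058017f880680f7f77ec7f37ed8177ff80c7fd7f680880f7f07f681080980f7fc80980d7eb80f80a80a7ee7ff80d7ec8097e47f87fe7ef8357f37e47f581380f8198047f57d98028217f60811
 z (n
 0x1cca88426078177f17ed8087f57f17c97d57e883080f8317e37df81c7f27f080782480e82180c8068007c97ee82b8087fe7f781b7fa81c7fd7cd7e480b8708007d17ef80e8288447f87f177e8048507b90811
 z (n
 0x2b2a210981c01594d0c480e19ed84033cb0806786108378007c979c6dc75f7707cb7648e480086e7c97d693576f7ef8d781781a8798db8278176a875b7ee7888067148297f98e28525ea7a77c4b3687f64b6329a3862a4976a81856b7f999877c10d1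
 z (n
 0x18c98c840e01ed88003cb1000786208048007fc7f87e97f57f37fd7f38138008087fc7fb8197f37fe8118027fe80d8108058007e57f48007f88007ee8038038128057d67f77fe8418097dd7db81e80882c7f58037cb7ff8217f708d1
 z (n
 0x28c86c860078288017fd82985c8157a57c17cf8607d68277f181b7f48457837cb83184681b77f8207ec82083e8628817c48068607af7b97818828057f27c07a182484982d7db7b87ee8168177b27f48380811
 z (n
 0x990d90c80e07ed8800fcb1001f862080e8007f27de7a87d37da7f87da84180081c7f27f88597cf7ff8428017fd82884480b7fe7977cd7f17d980f7b580680c84781b7607e67ff8fa82877c77287381b8a27ce80773a8028757e208d1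
 z (n 74 z (n
 0x3b21b21901c00d90d8c840e15ed8402bcb08057861082d8007d37ab7167867827d97828cf80085a7d37db9017847e98a98178028808a98257fe6dd77d7f27a980e73b8238108b782f6457bf7f2ab785969267895784f9d97738065d17fb95c79b10d1
 z (n 82 z (n 90 z (n 98 z (n 106 z (n 2164315 z z)))))))))))))) z)))))) (n 255 (n 0 (n 0 z (n
 91 (n 0 z (n 0 z (n 0 z (n 0 z (n 0 z (n 0 z (n 0 z (n 0 z (n 0 z z))))))))) (n 91 (n 0 z (n 0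
 z (n 0 z (n 0 z (n 0 z (n 0 z (n 0 z (n 2 (n 1 z (n 2 (n 0 z (n 0 z (n 0 z (n 0 z (n 0 z (n 0
 (n 1948 z z) z)))))) (n 1 z (n 1 z (n 2 (n 0 (n 1940 z z) (n 0 z (n 0 z (n 0 z (n 0 (n 1940 z
 z) (n 0 (n 1940 z (n 1940 z z)) z)))))) (n 1 z (n 2 (n 0 z (n 0 z (n 0 z (n 0 z (n 0 z (n 0 z
 z)))))) (n 2 (n 0 z (n 0 z (n 0 z (n 0 z (n 0 z (n 0 z z)))))) (n 2 (n 0 z (n 0 z (n 0 z (n 0 z
 (n 0 z (n 0 z z)))))) (n 2 (n 0 z (n 0 z (n 0 (n 1940 z z) (n 0 z (n 0 (n 1940 z z) (n 0 (n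
 1940 z (n 1940 z z)) z)))))) z)))))))))) (n 0 z z))))))))) (n 219 (n 0 z (n 0 z (n 0 z (n 0 z
 (n 0 z (n 0 z (n 0 z (n 0 z (n 0 z (n 0 z (n 0 z (n 0 z (n 0 z (n 0 z (n 0 z (n 0 z (n 0 z (n 0
 z (n 2 (n 2 (n 0 z (n 0 z (n 0 z (n 0 z (n 0 z (n 0 (n 4262011 z z) z)))))) (n 1 z (n 2 (n 0 z
 (n 0 z (n 0 z (n 0 z (n 0 z (n 0 z z)))))) (n 2 (n 0 z (n 0 z (n 0 z (n 0 z (n 0 (n 8652603 z
 z) (n 0 (n 1940 z (n 8652603 z z)) z)))))) (n 1 z (n 2 (n 0 z (n 0 z (n 0 z (n 0 z (n 0 z (n 0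
 z z)))))) (n 2 (n 0 z (n 0 z (n 0 z (n 0 z (n 0 z (n 0 z z)))))) (n 2 (n 0 z (n 0 (n 8868619 z
 z) (n 0 z (n 0 (n 8868619 z z) (n 0 z (n 0 (n 8868619 z (n 8868619 z z)) z)))))) (n 2 (n 0 z (n
 0 z (n 0 (n 1940 z z) (n 0 z (n 0 (n 1940 z z) (n 0 (n 1940 z (n 1940 z z)) z)))))) z)))))))))
 (n 0 z (n 0 z (n 0 z (n 0 z (n 0 z (n 0 z (n 0 z z)))))))))))))))))))))))))) (n 487 (n
 0x7765521401800000b21b21901c00002dd51d5040e0006bedd88000d7cbb10001af87628000ef7ffff07fff357ffe537ffb6e7ffd6e7ffdae7fff3f7ffdae8003a77ffff08001be7fff197fff8f8004d67ffda57fff9c80037e80003480001c80022c8003808000c57ffff67ffa767ffd2c7fffac7ffdf78000787ffc2980008d80006b80039a80014d7ff7587ffe727fffa9800d418001f87ff9027ff88b80066a80019d80092a7ffd688000597ff5318000028006997ffdee18d9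
 z (n 0 z (n 0 z (n 0 z (n 0 z (n 0 z (n 0 z (n 0 z (n 0 z z))))))))) (n 487 (n 0 z (n 0 z (n 0
 z (n 0 z (n 2 (n 2 (n 0 z (n 0 z (n 0 z (n 0 z (n 0 z (n 0 (n 8660843 z z) z)))))) (n 1 z (n 1
 z (n 2 (n 0 z (n 0 z (n 0 z (n 0 z (n 0 z (n 0 (n 8660843 z z) z)))))) (n 2 (n 0 z (n 0 z (n 0
 z (n 0 z (n 0 z (n 0 z z)))))) (n 2 (n 0 z (n 0 z (n 0 z (n 0 z (n 0 z (n 0 z z)))))) (n 1 z
 z))))))) (n 0 z (n 0 z (n 0 z (n 0 z z))))))))) (n 489 (n 0 z (n 0 z (n 0 z (n 0 z (n 0 z (n 0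
 z (n 0 z (n 0 z (n 0 z (n 0 z (n 0 z (n 6358875 z (n 0 z (n 0 z (n 0 z (n 0 z (n 0 z (n 0 z (n
 0 z (n 0 z (n 0 z (n 0 z (n 0 z (n 0 z (n 0 z z))))))))))))))))))))))))) (n 485 (n 0 z (n 0 z
 (n 0 z (n 0 z (n 0 z (n 0 z (n 0 z (n 0 z (n 0 z (n 0 z (n 0 z (n 0 z (n 0 z (n 0 z (n 0 z (n 0
 z (n 0 z (n 0 z (n 0 z (n 0 z (n 0 z (n 0 z (n 0 z (n 0 z (n 0 z (n 0 z (n 0 z (n 0 z
 z)))))))))))))))))))))))))))) (n 485 (n 0 z (n 0 z (n 0 z (n 0 z (n 2 (n 0 z (n 0 z (n 0 z (n 0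
 z z)))) (n 0 z (n 0 z (n 0 z (n 0 z (n 0 z (n 0 z (n 0 z (n 0 z (n 0 z (n 0 z (n 0 z (n 0 z (n
 0 z (n 0 z (n 0 z (n 0 z (n 0 z (n 0 z (n 0 z (n 0 z (n 0 z (n 0 z (n 0 z
 z)))))))))))))))))))))))))))) (n 485 (n 0 z (n 0 z (n 0 z (n 0 z (n 0 z (n
 0x40ec8ec860784f8027cc7af7fd78078075a78088e7ff89f7937cf8bf7fb79a8ab82589d85d8168318507477c58727cb79d7b17f17bc8597cb7387707809f080a6b175d83b8ae95e80c7fa69382f9287c00811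
 z (n
 0x1a3b0811b7618027f37dc7ac7667bc87382483c78e80e80581f82180a7a288e8807797da7be8ee7fb80579e7b175e72c86d7d776c81e8da8bf7197f77ea93e8bb73e77e7b485d89782e7c67478868697ab0091
 z (n 0 z (n 0 z (n 0 z (n 0 z (n 0 z (n 0 z (n 0 z (n 0 z (n 0 z (n 0 z (n 0 z (n 0 z (n 0 z (n
 0 z (n 0 z (n 0 z (n 0 z (n 0 z (n 0 z (n 0 z (n 0 z z)))))))))))))))))))))))))))) (n 485 (n 0
 z (n 0 z (n 0 z (n 0 z (n 0 z (n 0 z (n 0 z (n 0 z (n 0 z (n 0 z (n 0 z (n 0 z (n 0 z (n 0 z (n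
 0 z (n 6358875 z (n 0 z (n 0 z (n 0 z (n 0 z (n 0 z (n 0 z (n 0 z (n 0 z (n 0 z (n 0 z (n 0 z
 (n 0 z z)))))))))))))))))))))))))))) (n 485 (n 0 z (n 0 z (n 0 z (n 0 z (n 0 z (n 0 z (n 0 z (n
 0 z (n 0 z (n 0 z (n 0 z (n 0 z (n 0 z (n 0 z (n 0 z (n 0 z (n 0 z (n 0 z (n 0 z (n 0 z (n 0 z
 (n 0 z (n 0 z (n 0 z (n 0 z (n 0 z (n 0 z (n 0 z z)))))))))))))))))))))))))))) (n 485 (n 0 z (n
 0 z (n 0 z (n 0 z (n 0 z (n 0 z (n 0 z (n 0 z (n 0 z (n 0 z (n 0 z (n 0 z (n 0 z (n 0 z (n 0 z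
 (n 0 z (n 0 z (n 0 z (n 0 z (n 0 z (n 0 z (n 0 z (n 0 z (n 0 z (n 0 z (n 0 z (n 0 z (n 0 z
 z)))))))))))))))))))))))))))) z))))))))))))) (n 0 (n 211 (n 0 z (n 0 z (n 0 z (n 0 z (n 0 z (n
 2 (n 0 z (n 1 z (n 2 (n 0 z (n 0 z (n 0 z (n 0 z (n 0 z (n 0 z z)))))) (n 2 (n 0 z (n 0 z (n 0
 z (n 0 z (n 0 z (n 0 z z)))))) (n 2 (n 0 z (n 0 z (n 0 z (n 0 z (n 0 z (n 0 (n 3283051 z z)
 z)))))) (n 2 (n 0 z (n 0 z (n 0 z (n 0 z (n 0 z (n 0 z z)))))) (n 1 z (n 2 (n 0 z (n 0 z (n 0 z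
 (n 0 z (n 0 z (n 0 z z)))))) (n 2 (n 0 z (n 0 z (n 0 z (n 0 z (n 0 z (n 0 (n 8791067 z z)
 z)))))) (n 2 (n 0 (n 1268 z z) (n 0 z (n 0 (n 1268 z z) (n 0 z (n 0 z (n 0 (n 1268 z (n 1268 z
 z)) z)))))) (n 2 (n 0 z (n 0 (n 6555739 z z) (n 0 z (n 0 (n 1268 z z) (n 0 z (n 0 (n 7604315 z
 (n 8587035 z z)) z)))))) z))))))))))) (n 0 z (n 0 z (n 0 z (n 0 z (n 0 z (n 0 z (n 0 z
 z))))))))))))) (n 211 (n 0 z (n 0 z (n 0 z (n 0 z (n 0 z (n 0 z (n 0 z (n 0 z (n 0 z (n 0 z (n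
 0 z (n 0 z (n 0 z z))))))))))))) (n 411 (n 2 (n 2 (n 0 z (n 0 z (n 0 z (n 0 z (n 0 z (n 0 (n
 8872771 z z) z)))))) (n 2 (n 0 z (n 0 z (n 0 z (n 0 z (n 0 z (n 0 (n 8791067 z z) z)))))) (n 1
 z (n 2 (n 0 z (n 0 (n 8652603 z z) (n 0 z (n 0 (n 8652603 z z) (n 0 z (n 0 (n 1268 z (n 1268 z
 z)) z)))))) (n 1 z (n 1 z (n 1 z (n 1 z (n 2 (n 0 z (n 0 z (n 0 z (n 0 z (n 0 z (n 0 z z))))))
 z))))))))) (n 0 z (n 0 z (n 0 z (n 0 z (n 0 z z)))))) (n 555 (n 2 (n 0 z (n 1 z (n 2 (n 0 z (n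
 0 z (n 0 z (n 0 z (n 0 z (n 0 z z)))))) (n 2 (n 0 z (n 0 z (n 0 z (n 0 z (n 0 z (n 0 (n 8660843
 z z) z)))))) (n 1 z (n 1 z (n 1 z (n 2 (n 0 z (n 0 z (n 0 z (n 0 (n 1268 z z) (n 0 (n 8663395 z
 z) (n 0 (n 1268 z (n 1268 z z)) z)))))) z)))))))) (n 0 z (n 0 z (n 0 z (n 0 z (n 0 z (n 0 z
 z))))))) (n 555 (n 0 z (n 0 z (n 0 z (n 0 z (n 0 z (n 0 z (n 0 z z))))))) (n 303 (n 0 z (n 0 z
 (n 0 z (n 0 z (n 0 z (n 0 z (n 0 z (n 0 z (n 0 z (n 0 z (n 0 z (n 0 z (n 0 z (n 0 z (n 0 z (n 0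
 z (n 0 z z))))))))))))))))) (n 317 (n 0 z (n 0 z (n 0 z (n 0 z (n 0 z (n 0 z (n 0 z (n 0 z (n 0
 z (n 0 z (n 0 z (n 0 z (n 0 z z))))))))))))) (n 317 (n 0 z (n 0 z (n 0 z (n 0 z (n 0 z (n 0 z
 (n 0 z (n 0 z (n 0 z (n 0 z (n 2 (n 0 z (n 0 z (n 0 z (n 0 z z)))) (n 0 z (n 0 z z)))))))))))))
 (n 317 (n 0 z (n 0 z (n 0 z (n 0 z (n 0 z (n 0 z (n 0 z (n 0 z (n 0 z (n 0 z (n 0 z (n 0 z (n 0
 z z))))))))))))) (n 317 (n 0 z (n 0 z (n 0 z (n 0 z (n 0 z (n 0 z (n 0 z (n 0 z (n 0 z (n 0 z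
 (n 0 z (n 0 z (n 0 z z))))))))))))) (n 317 (n 0 z (n 0 z (n 0 z (n 0 z (n 0 z (n 0 z (n 0 z (n
 0 z (n 0 z (n 0 z (n 0 z (n 0 z (n 0 z z))))))))))))) (n 317 (n 0 z (n 0 z (n 0 z (n 0 z (n 0 z
 (n 0 z (n 0 z (n 0 z (n 0 z (n 0 z (n 0 z (n 0 z (n 0 z z))))))))))))) z)))))))))))) (n 0 (n 0
 z (n 19 (n 2 (n 1 z (n 1 z (n 2 (n 0 z (n 0 z (n 0 z (n 0 z (n 0 z (n 0 (n 12 z z) z)))))) (n 1
 z (n 1 z (n 2 (n 0 z (n 0 z (n 0 z (n 0 z (n 0 z (n 0 z z)))))) (n 2 (n 0 z (n 0 z (n 0 z (n 0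
 z (n 0 z (n 0 z z)))))) (n 2 (n 0 z (n 0 z (n 0 z (n 0 z (n 0 z (n 0 z z)))))) (n 1 z
 z))))))))) (n 0 z (n 0 z (n 0 z (n 0 z (n 0 z (n 0 z z))))))) (n 487 (n 0 z (n 0 z (n 0 z (n 0
 z (n 0 z (n 0 z (n 0 z (n 0 z z)))))))) (n 487 (n 0 z (n 0 z (n 0 z (n 0 z (n 0 z (n 0 z (n 0 z
 (n 0 z z)))))))) (n 3 (n 0 z (n 0 z (n 0 z (n 0 z (n 6358875 z (n 0 z (n 0 z (n 0 z (n 0 z (n 0
 z (n 0 z (n 0 z (n 0 z (n 0 z z)))))))))))))) (n 1 (n 0 z (n 0 z (n 0 z (n 0 z (n 0 z (n 0 z (n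
 0 z (n 0 z (n 0 z (n 0 z (n 0 z (n 0 z (n 0 z (n 0 z (n 0 z (n 0 z (n 0 z (n 0 z (n 0 z (n 0 z
 (n 0 z (n 0 z (n 0 z z))))))))))))))))))))))) (n 1 (n 0 z (n 0 z (n 0 z (n 0 z (n 0 z (n 0 z (n
 0 z (n 0 z (n 0 z (n 0 z (n 2 (n 0 z (n 0 z (n 0 z (n 0 z z)))) (n 0 z (n 0 z (n 0 z (n 0 z (n
 0 z (n 0 z (n 0 z (n 0 z (n 0 z (n 0 z (n 0 z (n 0 z z))))))))))))))))))))))) (n 1 (n 0 z (n 0
 z (n 0 z (n 0 z (n 0 z (n 0 z (n 0 z (n 0 z (n 0 z (n 0 z (n 0 z (n 0 z (n 0 z (n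
 0x40ec8ec860784f8027cc7af7fd78078075a78088e7ff89f7937cf8bf7fb79a8ab82589d85d8168318507477c58727cb79d7b17f17bc8597cb7387707809f080a6b175d83b8ae95e80c7fa69382f9287c00811
 z (n
 0xe3b000437608027f88007fc7fb7fa8038048047fd8088047fc8038028058068057fe8037fe8067f58057f57f38007e980e7fc7f78098118187f07fb80a8188077e87f47e580480f7f77f37f380280d8020091
 z (n 0 z (n 0 z (n 0 z (n 0 z (n 0 z (n 0 z (n 0 z (n 0 z z))))))))))))))))))))))) (n 1 (n 0 z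
 (n 0 z (n 0 z (n 0 z (n 0 z (n 0 z (n 0 z (n 0 z (n 0 z (n 0 z (n 0 z (n 0 z (n 0 z (n 0 z (n 0
 z (n 0 z (n 6358875 z (n 0 z (n 0 z (n 0 z (n 0 z (n 0 z (n 0 z z))))))))))))))))))))))) (n 1
 (n 0 z (n 0 z (n 0 z (n 0 z (n 0 z (n 0 z (n 0 z (n 0 z (n 0 z (n 0 z (n 0 z (n 0 z (n 0 z (n 0
 z (n 0 z (n 0 z (n 0 z (n 0 z (n 0 z (n 0 z (n 0 z (n 0 z (n 0 z z))))))))))))))))))))))) (n 1
 (n 0 z (n 0 z (n 0 z (n 0 z (n 0 z (n 0 z (n 0 z (n 0 z (n 0 z (n 0 z (n 0 z (n 0 z (n 0 z (n 0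
 z (n 0 z (n 0 z (n 0 z (n 0 z (n 0 z (n 0 z (n 0 z (n 0 z (n 0 z z)))))))))))))))))))))))
 z))))))))))) (n 0 (n 129 (n 0 z (n 0 z (n 0 z (n 0 z (n 2 (n 2 (n 0 z (n 0 z (n 0 z (n 0 z (n 0
 z (n 0 (n 8872771 z z) z)))))) (n 1 z (n 1 z (n 2 (n 0 z (n 0 z (n 0 (n 8652603 z z) (n 0 z (n
 0 (n 8652603 z z) (n 0 (n 7473259 z (n 2020 z z)) z)))))) (n 1 z (n 2 (n 0 z (n 0 z (n 0 z (n 0
 z (n 0 z (n 0 z z)))))) (n 1 z (n 1 z (n 2 (n 0 (n 2020 z z) (n 0 z (n 0 (n 2020 z z) (n 0 z (n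
 0 z (n 0 (n 8652603 z (n 2020 z z)) z)))))) z))))))))) (n 0 z (n 0 z z))))))) (n 507 (n 2 (n 0
 z (n 2 (n 0 z (n 0 z (n 0 z (n 0 z (n 0 z (n 0 z z)))))) (n 2 (n 0 z (n 0 (n 8652603 z z) (n 0
 (n 8652603 z z) (n 0 z (n 0 z (n 0 (n 2020 z (n 7473259 z z)) z)))))) (n 1 z (n 2 (n 0 z (n 0 z
 (n 0 z (n 0 z (n 0 z (n 0 z z)))))) (n 1 z (n 2 (n 0 (n 8872771 z z) (n 0 z (n 0 z (n 0 z (n 0
 z (n 0 (n 8872771 z (n 8872771 z z)) z)))))) (n 2 (n 0 z (n 0 (n 6555739 z z) (n 0 z (n 0 z (n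
 0 (n 2020 z z) (n 0 (n 2020 z (n 2020 z z)) z)))))) z)))))))) (n 0 z (n 0 z (n 0 z (n 0 z (n 0
 z (n 0 z z))))))) (n 507 (n 0 z (n 0 z (n 0 z (n 0 z (n 0 z (n 0 z (n 0 z z))))))) (n 63 (n 0 z
 (n 0 z (n 0 z (n 0 z (n 0 z (n 0 z (n 0 z (n 0 z z)))))))) (n 505 (n 0 z (n 0 z (n 0 z (n 0 z
 (n 0 z (n 0 z (n 0 z (n 0 z (n 0 z (n 0 z (n 0 z (n 0 z (n 0 z (n 0 z (n 0 z (n 0 z (n 0 z (n 0
 z (n 0 z (n 0 z z)))))))))))))))))))) (n 505 (n 0 z (n 0 z (n 0 z (n 0 z (n 0 z (n 2 (n 0 z (n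
 0 z (n 0 z (n 0 z z)))) (n 0 z (n 0 z (n 0 z (n 0 z (n 0 z (n 0 z (n 0 z (n 0 z (n 0 z (n 0 z
 (n 0 z (n 0 z (n 0 z (n 0 z z)))))))))))))))))))) (n 505 (n 0 z (n 0 z (n 0 z (n 0 z (n 0 z (n
 0 z (n 0 z (n 0 z (n 0 z (n 0 z (n 0 z (n 0 z (n 0 z (n 0 z (n 0 z (n 0 z (n 0 z (n 0 z (n 0 z
 (n 0 z z)))))))))))))))))))) (n 505 (n 0 z (n 0 z (n 0 z (n 0 z (n 0 z (n 0 z (n 0 z (n 0 z (n
 0 z (n 0 z (n 0 z (n 0 z (n 0 z (n 0 z (n 0 z (n 0 z (n 0 z (n 0 z (n 0 z (n 0 z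
 z)))))))))))))))))))) (n 505 (n 0 z (n 0 z (n 0 z (n 0 z (n 0 z (n 0 z (n 0 z (n 0 z (n 0 z (n
 0 z (n 0 z (n 0 z (n 0 z (n 0 z (n 0 z (n 0 z (n 0 z (n 0 z (n 0 z (n 0 z z))))))))))))))))))))
 (n 505 (n 0 z (n 0 z (n 0 z (n 0 z (n 0 z (n 0 z (n 0 z (n 0 z (n 0 z (n 0 z (n 0 z (n 0 z (n 0
 z (n 0 z (n 0 z (n 0 z (n 0 z (n 0 z (n 0 z (n 0 z z)))))))))))))))))))) z)))))))))) (n 0 (n
 267 (n 0 z (n 0 z (n 0 z (n 0 z (n 0 z (n 0 z (n 0 z (n 0 z (n 0 z z))))))))) (n 267 (n 0 z (n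
 0 z (n 2 (n 1 z (n 1 z (n 1 z (n 1 z (n 1 z (n 1 z (n 1 z z))))))) (n 0 z (n 0 z (n 0 z (n 0 z
 (n 0 z (n 0 z z))))))))) (n 15 (n 0 z (n 0 z (n 2 (n 2 (n 0 z (n 0 z (n 0 (n 6424699 z z) (n 0
 z (n 0 (n 52 z z) (n 0 (n 8652347 z (n 8652347 z z)) z)))))) (n 1 z (n 2 (n 0 z (n 0 z (n 0 z
 (n 0 z (n 0 z (n 0 z z)))))) (n 1 z (n 1 z (n 2 (n 0 (n 8652347 z z) (n 0 z (n 0 (n 52 z z) (n
 0 z (n 0 z (n 0 (n 52 z (n 52 z z)) z)))))) z)))))) (n 0 z (n 0 z (n 0 z (n 0 z (n 0 z (n 0 z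
 (n 0 z z)))))))))) (n 13 (n 0 z (n 0 z (n 0 z (n 0 z (n 0 z (n 0 z (n 0 z (n 0 z (n 0 z (n 0 z
 (n 0 z (n 0 z z)))))))))))) (n 13 (n 0 z (n 0 z (n 0 z (n 0 z (n 0 z (n 0 z (n 7754507 z (n 0 z
 (n 0 z (n 0 z (n 0 z (n 0 z z)))))))))))) (n 13 (n 0 z (n 0 z (n 0 z (n 0 z (n 0 z (n 0 z (n 0
 z (n 0 z (n 2 (n 0 z (n 0 z (n 0 z z))) (n 0 z (n 0 z (n 0 z z)))))))))))) (n 13 (n 0 z (n 0 z
 (n 0 z (n 0 z (n 0 z (n 0 z (n 0 z (n 2 (n 0 z (n 0 z z)) (n 0 z (n 0 z (n 0 z (n 0 z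
 z)))))))))))) (n 13 (n 0 z (n 0 z (n 0 z (n 0 z (n 0 z (n 0 z (n 0 z (n 0 z (n 0 z (n 0 z (n 0
 z (n 0 z z)))))))))))) (n 13 (n 0 z (n 0 z (n 0 z (n 0 z (n 0 z (n 0 z (n 0 z (n 0 z (n 0 z (n
 0 z (n 0 z (n 0 z z)))))))))))) z))))))))) (n 0 (n 0 z (n 51 (n 0 z (n 2 (n 2 (n 0 z (n 0 (n
 196 z z) (n 0 (n 6424699 z z) (n 0 z (n 0 z (n 0 (n 8652347 z (n 8652347 z z)) z)))))) (n 1 z
 (n 2 (n 0 z (n 0 z (n 0 z (n 0 z (n 0 z (n 0 z z)))))) (n 1 z (n 2 (n 0 (n 196 z z) (n 0 z (n 0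
 z (n 0 z (n 0 z (n 0 (n 196 z (n 196 z z)) z)))))) (n 2 (n 0 z (n 0 (n 196 z z) (n 0 z (n 0 z
 (n 0 (n 196 z z) (n 0 (n 7604315 z (n 196 z z)) z)))))) z)))))) (n 0 z (n 0 z (n 0 z (n 0 z (n
 0 z z))))))) (n 49 (n 0 z (n 0 z (n 0 z (n 0 z (n 0 z (n 0 z (n 0 z (n 0 z (n 0 z (n 0 z (n 0 z
 (n 0 z (n 0 z (n 0 z z)))))))))))))) (n 49 (n 0 z (n 0 z (n 0 z (n 0 z (n 0 z (n 0 z (n 0 z (n
 0 z (n 0 z (n 0 z (n 0 z (n 0 z (n 0 z (n 0 z z)))))))))))))) (n 49 (n 0 z (n 0 z (n 0 z (n 0 z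
 (n 0 z (n 0 z (n 0 z (n 0 z (n 0 z (n 0 z (n 2 (n 0 z (n 0 z (n 0 z z))) (n 0 z (n 0 z (n 0 z
 z)))))))))))))) (n 49 (n 0 z (n 0 z (n 0 z (n 0 z (n 0 z (n 0 z (n 0 z (n 0 z (n 0 z (n 2 (n 0
 z (n 0 z z)) (n 0 z (n 0 z (n 0 z (n 0 z z)))))))))))))) (n 49 (n 0 z (n 0 z (n 0 z (n 0 z (n 0
 z (n 0 z (n 0 z (n 0 z (n 0 z (n 0 z (n 0 z (n 0 z (n 0 z (n 0 z z)))))))))))))) (n 49 (n 0 z
 (n 0 z (n 0 z (n 0 z (n 0 z (n 0 z (n 0 z (n 0 z (n 0 z (n 0 z (n 0 z (n 0 z (n 0 z (n 2 z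
 z)))))))))))))) z)))))))) (n 0 (n 495 (n 0 z (n 0 z (n 0 z (n 0 z (n 0 z (n 0 z (n 0 z z)))))))
 (n 493 (n 0 z (n 0 z (n 2 (n 0 z (n 0 z (n 0 z (n 0 z (n 0 z z))))) (n 0 z (n 0 z (n 0 z (n 0 z
 (n 0 z (n 0 z (n 0 z z)))))))))) (n 493 (n 0 z (n 0 z (n 0 z (n 0 z (n 0 z (n 0 z (n 0 z (n 0 z
 (n 0 z (n 0 z z)))))))))) (n 493 (n 0 z (n 0 z (n 0 z (n 0 z (n 2 (n 0 z (n 0 z (n 0 z z))) (n
 0 z (n 0 z (n 0 z (n 0 z (n 0 z z)))))))))) (n 493 (n 0 z (n 0 z (n 0 z (n 0 z (n 0 z (n 0 z (n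
 0 z (n 0 z (n 0 z (n 0 z z)))))))))) (n 493 (n 0 z (n 0 z (n 0 z (n 0 z (n 0 z (n 0 z (n 0 z (n
 0 z (n 0 z (n 0 z z)))))))))) (n 493 (n 0 z (n 0 z (n 0 z (n 0 z (n 0 z (n 0 z (n 0 z (n 0 z (n
 0 z (n 0 z z)))))))))) z))))))) (n 0 (n 1 (n 0 z (n 0 z (n 0 z (n 0 z (n 0 z (n 0 z (n 0 z (n 0
 z (n 0 z (n 0 z (n 0 z (n 0 z z)))))))))))) (n 1 (n 0 z (n 0 z (n 0 z (n 0 z (n 0 z (n 0 z (n 0
 z (n 0 z (n 0 z (n 0 z (n 0 z (n 0 z z)))))))))))) (n 1 (n 0 z (n 0 z (n 0 z (n 0 z (n 0 z (n 0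
 z (n 0 z (n 0 z (n 0 z (n 0 z (n 0 z (n 0 z z)))))))))))) (n 1 (n 0 z (n 0 z (n 0 z (n 0 z (n 0
 z (n 0 z (n 0 z (n 0 z (n 0 z (n 0 z (n 0 z (n 0 z z)))))))))))) (n 1 (n 0 z (n 0 z (n 0 z (n 0
 z (n 0 z (n 0 z (n 0 z (n 0 z (n 0 z (n 0 z (n 0 z (n 0 z z)))))))))))) (n 1 (n 0 z (n 0 z (n 0
 z (n 0 z (n 0 z (n 0 z (n 0 z (n 0 z (n 0 z (n 0 z (n 0 z (n 0 z z)))))))))))) z)))))) (n 0 (n
 0 z (n 0 z (n 0 z (n 0 z (n 0 z z))))) (n 0 (n 0 z (n 0 z (n 0 z (n 0 z z)))) (n 0 (n 0 z (n 0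
 z (n 0 z z))) (n 0 (n 0 z (n 0 z z)) (n 0 (n 0 z z) (n 0 z z)))))))))))))) (n 0 (n 0 z (n 1 (n
 6554139 z (n 1276 z (n 76 z (n 1276 z (n 1276 z (n 1276 z z)))))) (n 1 (n 1276 z (n 1276 z (n
 6554139 z (n 1276 z (n 76 z (n 1276 z z)))))) (n 0 z (n 1 (n 3278363 z (n 6554139 z (n 3278363
 z (n 3278363 z (n 3278363 z (n 3278363 z z)))))) (n 0 z (n 0 z (n 0 z z)))))))) (n 0 z z))))
 z)))))))), by decide +kernel⟩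
theorem i10939 : ∃ t, chkR KT RW t 10939 10941 = true := ⟨(n
 0x2d7150969684993604c98857144246a44192d50e26988d3890252b444a24c12ad61189320352c0139180ad700 (n
 0x893255ae2 (n 399 (n 2 z (n 10 z (n 0 z (n 6619675 z (n 18 z (n 3282443 z (n 0 z (n 26 z
 z)))))))) (n 33 (n 34 z (n 0 z (n 42 z (n 0 z (n 6562131 z z))))) (n 171 (n 50 z (n 0 z (n 58 z
 (n 0 z (n 6562131 z z))))) (n 3 (n 66 z (n 74 z (n 82 z (n 0 z (n 2164283 z (n 0 z z)))))) (n 1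
 (n 90 z (n 0 z (n 98 z (n 0 z (n 0 z (n 0 z (n 106 z (n 6562131 z z)))))))) (n 0 (n 114 z (n
 122 z (n 0 z (n 0 z (n 6619675 z (n
 0x22ca886040380889a7f66958294876f61698b9296806a737a8a6d966787759288716f9569189562acb1868766b4bb818e645881749379770809
 z (n 0x346107dcda731b8efb5991271ec5e7e78978e3710917ec93eaa24d23c8ca90798313520ae19a08240041 z
 (n 0 z (n 130 z (n 6619675 z (n 0 z z))))))))))) z)))))) (n 33 (n 0 (n 0 z (n 0 z (n 0 z (n 215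
 (n 0 z (n 0 z (n 0 z (n 0 z (n 0 z (n 0 z z)))))) (n 215 (n 0 z (n 2 (n 2 (n 0 z (n 0 z (n 0 z
 (n 0 z (n 0 z (n 0 (n 8802883 z z) z)))))) (n 2 (n 0 z (n 0 z (n 0 z (n 0 z (n 0 z (n 0 z
 z)))))) (n 2 (n 0 z (n 0 z (n 0 z (n 0 z (n 0 z (n 0 z z)))))) (n 2 (n 0 z (n 0 z (n 0 z (n 0 z
 (n 0 z (n 0 z z)))))) (n 2 (n 0 z (n 0 z (n 0 z (n 0 z (n 0 z (n 0 z z)))))) (n 2 (n 0 z (n 0 z
 (n 0 z (n 0 z (n 0 z (n 0 z z)))))) (n 2 (n 0 z (n 0 z (n 0 z (n 0 z (n 0 z (n 0 z z)))))) (n 2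
 (n 0 z (n 0 z (n 0 z (n 0 z (n 0 z (n 0 z z)))))) (n 2 (n 0 z (n 0 z (n 0 z (n 0 z (n 0 z (n 0
 z z)))))) (n 2 (n 0 z (n 0 (n 8783659 z z) (n 0 z (n 0 z (n 0 (n 8783659 z z) (n 0 (n 8865323 z
 (n 8865323 z z)) z)))))) (n 2 (n 0 z (n 0 z (n 0 z (n 0 z (n 0 z (n 0 z z)))))) z))))))))))) (n
 0 z (n 0 z (n 0 z (n 0 z z)))))) (n 795 (n 0 z (n 0 z (n 0 z (n 0 z (n 0 z (n 0 z (n 0 z (n 0 z
 (n 0 z z))))))))) (n 795 (n 0 z (n 0 z (n 0 z (n 0 z (n 0 z (n 0 z (n 0 z (n 2 (n 2 (n 0 z (n 0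
 z (n 0 z (n 0 z (n 0 z (n 0 z z)))))) (n 2 (n 0 z (n 0 z (n 0 z (n 0 z (n 0 z (n 0 z z)))))) (n
 2 (n 0 z (n 0 z (n 0 z (n 0 z (n 0 z (n 0 z z)))))) (n 2 (n 0 z (n 0 z (n 0 z (n 0 z (n 0 z (n
 0 z z)))))) (n 2 (n 0 z (n 0 z (n 0 z (n 0 z (n 0 z (n 0 z z)))))) (n 2 (n 0 z (n 0 z (n 0 z (n
 0 z (n 0 z (n 0 z z)))))) (n 2 (n 0 z (n 0 z (n 0 z (n 0 z (n 0 z (n 0 z z)))))) (n 2 (n 0 z (n
 0 (n 8783659 z z) (n 0 z (n 0 z (n 0 (n 8783659 z z) (n 0 (n 8873019 z (n 8722187 z z)) z))))))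
 (n 2 (n 0 z (n 0 z (n 0 z (n 0 z (n 0 z (n 0 z z)))))) z))))))))) (n 0 z z))))))))) (n 535 (n 0
 z (n 0 z (n 0 z (n 0 z (n 0 z (n 0 z (n 0 z (n 0 z (n 0 z (n 0 z (n 0 z (n 0 z (n 0 z
 z))))))))))))) (n 535 (n 0 z (n 0 z (n 0 z (n 0 z (n 0 z (n 0 z (n 0 z (n 0 z (n 0 z (n 0 z (n
 0 z (n 0 z (n 0 z z))))))))))))) (n 535 (n 0 z (n 0 z (n 0 z (n 0 z (n 0 z (n 2 (n 2 (n 0 z (n
 0 z (n 0 z (n 0 z (n 0 z (n 0 z z)))))) (n 2 (n 0 z (n 0 z (n 0 z (n 0 z (n 0 z (n 0 z z))))))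
 (n 2 (n 0 z (n 0 z (n 0 z (n 0 z (n 0 z (n 0 z z)))))) (n 2 (n 0 z (n 0 z (n 0 z (n 0 z (n 0 z
 (n 0 z z)))))) (n 2 (n 0 z (n 0 z (n 0 z (n 0 z (n 0 z (n 0 z z)))))) (n 2 (n 0 z (n 0 z (n 0 z
 (n 0 z (n 0 z (n 0 z z)))))) z)))))) (n 0 z (n 0 z (n 0 z (n 0 z (n 0 z (n 0 z (n 0 z
 z))))))))))))) (n 351 (n 0 z (n 0 z (n 0 z (n 0 z (n 0 z z))))) (n 351 (n 0 z (n 0 z (n 0 z (n
 0 z (n 0 z z))))) (n 351 (n 0 z (n 0 z (n 2 (n 2 (n 0 z (n 0 z (n 0 z (n 0 z (n 0 z (n 0 z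
 z)))))) (n 2 (n 0 z (n 0 z (n 0 z (n 0 z (n 0 z (n 0 z z)))))) (n 2 (n 0 z (n 0 z (n 0 z (n 0 z
 (n 0 z (n 0 z z)))))) z))) (n 0 z (n 0 z z))))) (n 797 (n 0 z (n 0 z (n 0 z (n 0 z (n 0 z (n 2
 (n 0 z (n 0 z z)) (n 0 z (n 0 z (n 0 z (n 0 z (n 0 z (n 0 z (n 0 z z))))))))))))) (n 797 (n 0 z
 (n 0 z (n 0 z (n 0 z (n 0 z (n 0 z (n 0 z (n 0 z (n 0 z (n 0 z (n 0 z (n 0 z (n 0 z
 z))))))))))))) (n 797 (n 0 z (n 0 z (n 0 z (n 0 z (n 0 z (n 0 z (n 0 z (n 0 z (n 0 z (n 0 z (n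
 0 z (n 0 z (n 0 z z))))))))))))) z)))))))))))))))) (n 0 (n 0 z (n 0 z (n 1111 (n 2 (n 0 z (n 1
 z (n 2 (n 0 z (n 0 z (n 0 z (n 0 z (n 0 z (n 0 z z)))))) (n 1 z (n 1 z (n 2 (n 0 z (n 0 z (n 0
 z (n 0 z (n 0 z (n 0 z z)))))) (n 1 z (n 1 z (n 2 (n 0 z (n 0 z (n 0 z (n 0 z (n 0 z (n 0 z
 z)))))) (n 2 (n 0 z (n 0 z (n 0 z (n 0 z (n 0 z (n 0 z z)))))) (n 2 (n 0 (n 3188 z z) (n 0 z (n
 0 z (n 0 z (n 0 z (n 0 (n 3188 z (n 3188 z z)) z)))))) (n 1 z z)))))))))))) (n 0 z (n 0 z (n 0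
 z (n 0 z (n 0 z (n 0 z (n 0 z (n 0 z (n 0 z (n 0 z (n 0 z (n 0 z z))))))))))))) (n 1111 (n 0 z
 (n 0 z (n 0 z (n 0 z (n 0 z (n 2 (n 2 (n 0 z (n 0 z (n 0 z (n 0 z (n 0 z (n 0 z z)))))) (n 2 (n
 0 z (n 0 z (n 0 z (n 0 z (n 0 z (n 0 z z)))))) (n 2 (n 0 z (n 0 z (n 0 z (n 0 z (n 0 z (n 0 z
 z)))))) (n 2 (n 0 z (n 0 z (n 0 z (n 0 z (n 0 z (n 0 z z)))))) (n 2 (n 0 z (n 0 z (n 0 z (n 0 z
 (n 0 z (n 0 z z)))))) (n 2 (n 0 z (n 0 z (n 0 z (n 0 z (n 0 z (n 0 (n 3283051 z z) z)))))) (n 2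
 (n 0 z (n 0 z (n 0 z (n 0 z (n 0 z (n 0 z z)))))) (n 2 (n 0 z (n 0 z (n 0 z (n 0 z (n 0 z (n 0
 z z)))))) (n 2 (n 0 z (n 0 z (n 0 z (n 0 z (n 0 z (n 0 z z)))))) (n 2 (n 0 z (n 0 z (n 0 z (n 0
 z (n 0 z (n 0 z z)))))) (n 2 (n 0 z (n 0 z (n 0 z (n 0 z (n 0 z (n 0 z z)))))) z))))))))))) (n
 0 z (n
 0x2ea8ca840781f86082082182081f86082082082081f8208208208208207e08208218218208208208208200801 z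
 (n 0 z (n 0 z (n 0 z (n 0 z (n 0 z z))))))))))))) (n 795 (n 0 z (n 2 (n 0 z (n 1 z (n 1 z (n 2
 (n 0 z (n 0 z (n 0 z (n 0 z (n 0 z (n 0 z z)))))) (n 1 z (n 1 z (n 2 (n 0 z (n 0 z (n 0 z (n 0
 z (n 0 z (n 0 z z)))))) (n 2 (n 0 z (n 0 z (n 0 z (n 0 z (n 0 z (n 0 z z)))))) (n 1 z (n 1 z
 z)))))))))) (n 0 z (n 0 z (n 0 z (n 0 z (n 0 z z))))))) (n 795 (n 0 z (n 0 z (n 0 z (n 2 (n 2
 (n 0 z (n 0 z (n 0 z (n 0 z (n 0 z (n 0 z z)))))) (n 2 (n 0 z (n 0 z (n 0 z (n 0 z (n 0 z (n 0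
 z z)))))) (n 2 (n 0 z (n 0 z (n 0 z (n 0 z (n 0 z (n 0 (n 8855811 z z) z)))))) (n 2 (n 0 z (n 0
 z (n 0 z (n 0 z (n 0 z (n 0 (n 3283051 z z) z)))))) (n 2 (n 0 z (n 0 z (n 0 z (n 0 z (n 0 z (n
 0 z z)))))) (n 2 (n 0 z (n 0 z (n 0 z (n 0 z (n 0 z (n 0 (n 8855811 z z) z)))))) (n 2 (n 0 z (n
 0 z (n 0 z (n 0 z (n 0 z (n 0 (n 8855811 z z) z)))))) (n 2 (n 0 z (n 0 (n 3188 z z) (n 0 z (n 0
 (n 8865307 z z) (n 0 z (n 0 (n 8656699 z (n 3188 z z)) z)))))) (n 2 (n 0 z (n 0 z (n 0 z (n 0 z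
 (n 0 z (n 0 z z)))))) z))))))))) (n 0 z (n 0 z (n 0 z z))))))) (n 295 (n 0 z (n 0 z (n 0 z (n 0
 z (n 0 z (n 0 z (n 0 z (n 0 z (n 0 z (n 0 z (n 0 z (n 0 z (n 0 z (n 0 z (n 0 z (n 0 z (n 0 z
 z))))))))))))))))) (n 295 (n 0 z (n 0 z (n 0 z (n 0 z (n 0 z (n 0 z (n 0 z (n 0 z (n 0 z (n 0 z
 (n 0 z (n 0 z (n 0 z (n 0 z (n 0 z (n 0 z (n 0 z z))))))))))))))))) (n 295 (n 0 z (n 0 z (n 0 z
 (n 0 z (n 0 z (n 0 z (n 0 z (n 2 (n 2 (n 0 z (n 0 z (n 0 z (n 0 z (n 0 z (n 0 z z)))))) (n 2 (n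
 0 z (n 0 z (n 0 z (n 0 z (n 0 z (n 0 z z)))))) (n 2 (n 0 z (n 0 z (n 0 z (n 0 z (n 0 z (n 0 (n
 8855811 z z) z)))))) (n 2 (n 0 z (n 0 z (n 0 z (n 0 z (n 0 z (n 0 z z)))))) (n 2 (n 0 z (n 0 z
 (n 0 z (n 0 z (n 0 z (n 0 z z)))))) (n 2 (n 0 z (n 0 z (n 0 z (n 0 z (n 0 z (n 0 z z))))))
 z)))))) (n 0 z (n 0 z (n 0 z (n 0 z (n 0 z (n 0 z (n 0 z (n 0 z (n 0 z z))))))))))))))))) (n
 351 (n 0 z (n 0 z (n 0 z (n 0 z (n 0 z (n 0 z (n 0 z (n 0 z (n 0 z (n 0 z z)))))))))) (n 351 (n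
 0 z (n 0 z (n 0 z (n 0 z (n 0 z (n 0 z (n 0 z (n 0 z (n 0 z (n 0 z z)))))))))) (n 351 (n 0 z (n
 0 z (n 0 z (n 2 (n 2 (n 0 z (n 0 z (n 0 z (n 0 z (n 0 z (n 0 z z)))))) (n 2 (n 0 z (n 0 z (n 0
 z (n 0 z (n 0 z (n 0 z z)))))) (n 2 (n 0 z (n 0 z (n 0 z (n 0 z (n 0 z (n 0 z z)))))) z))) (n 0
 z (n 0 z (n 0 z (n 0 z (n 0 z (n 0 z z)))))))))) (n 797 (n 0 z (n 2 (n 0 z (n 0 z z)) (n 0 z (n
 0 z (n 0 z (n 0 z (n 0 z (n 0 z (n 0 z (n 0 z (n 0 z (n 0 z (n 0 z (n 0 z (n 0 z (n 0 z (n 0 z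
 (n 0 z (n 0 z (n 0 z (n 0 z (n 0 z (n 0 z (n 0 z (n 0 z z))))))))))))))))))))))))) (n 797 (n 0
 z (n 0 z (n 0 z (n 0 z (n 0 z (n 0 z (n 0 z (n 0 z (n 0 z (n 0 z (n 0 z (n 0 z (n 0 z (n 0 z (n
 2 (n 0 z z) (n 0 z (n 0 z (n 0 z (n 0 z (n 0 z (n 0 z (n 0 z (n 0 z (n 0 z (n 0 z
 z))))))))))))))))))))))))) (n 797 (n 0 z (n 0 z (n 0 z (n 0 z (n 0 z (n 0 z (n 0 z (n 0 z (n 0
 z (n 0 z (n 0 z (n 0 z (n 0 z (n 0 z (n 0 z (n 0 z (n 0 z (n 0 z (n 0 z (n 0 z (n 0 z (n 0 z (n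
 0 z (n 0 z (n 0 z z))))))))))))))))))))))))) z))))))))))))))) (n 0 (n 0 z (n 995 (n 0 z (n 0 z
 (n 0 z (n 0 z (n 0 z z))))) (n 995 (n 0 z (n 2 (n 1 z (n 2 (n 0 z (n 0 z (n 0 z (n 0 z (n 0 z
 (n 0 (n 8855811 z z) z)))))) (n 2 (n 0 z (n 0 z (n 0 z (n 0 z (n 0 z (n 0 (n 3876 z z) z))))))
 (n 2 (n 0 z (n 0 z (n 0 z (n 0 z (n 0 z (n 0 (n 3876 z z) z)))))) (n 2 (n 0 z (n 0 z (n 0 z (n
 0 z (n 0 z (n 0 z z)))))) (n 1 z (n 2 (n 0 z (n 0 z (n 0 z (n 0 z (n 0 z (n 0 (n 1404 z z)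
 z)))))) (n 2 (n 0 z (n 0 z (n 0 z (n 0 z (n 0 z (n 0 z z)))))) (n 2 (n 0 z (n 0 z (n 0 z (n 0 z
 (n 0 z (n 0 z z)))))) (n 2 (n 0 (n 8872771 z z) (n 0 z (n 0 (n 8872771 z z) (n 0 z (n 0 z (n 0
 (n 8872771 z (n 8872771 z z)) z)))))) (n 2 (n 0 z (n 0 z (n 0 z (n 0 z (n 0 z (n 0 z z))))))
 z))))))))))) (n 0 z (n 0 z (n 0 z z))))) (n 795 (n 0 z (n 0 z (n 0 z (n 0 z z)))) (n 795 (n 0 z
 (n 2 (n 2 (n 0 z (n 0 z (n 0 z (n 0 z (n 0 z (n 0 z z)))))) (n 2 (n 0 z (n 0 z (n 0 z (n 0 z (n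
 0 z (n 0 (n 3876 z z) z)))))) (n 2 (n 0 z (n 0 z (n 0 z (n 0 z (n 0 z (n 0 z z)))))) (n 1 z (n
 2 (n 0 z (n 0 z (n 0 z (n 0 z (n 0 z (n 0 (n 1404 z z) z)))))) (n 2 (n 0 z (n 0 z (n 0 z (n 0 z
 (n 0 z (n 0 z z)))))) (n 2 (n 0 z (n 0 z (n 0 z (n 0 z (n 0 z (n 0 (n 8855811 z z) z)))))) (n 2
 (n 0 z (n 0 z (n 0 (n 8872771 z z) (n 0 z (n 0 z (n 0 (n 8872771 z (n 8872771 z z)) z)))))) (n
 2 (n 0 z (n 0 z (n 0 z (n 0 z (n 0 z (n 0 z z)))))) z))))))))) (n 0 z (n 0 z z)))) (n 969 (n 0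
 z (n 0 z (n 0 z (n 0 z (n 0 z (n 2 (n 0 z (n 0 z (n 2 (n 0 z (n 0 z (n 0 z (n 0 z (n 0 z (n 0
 (n 2164859 z z) z)))))) (n 2 (n 0 z (n 0 z (n 0 z (n 0 z (n 0 z (n 0 z z)))))) (n 2 (n 0 z (n 0
 z (n 0 z (n 0 z (n 0 z (n 0 z z)))))) (n 2 (n 0 z (n 0 z (n 0 z (n 0 z (n 0 z (n 0 z z)))))) (n
 2 (n 0 z (n 0 (n 3188 z z) (n 0 z (n 0 (n 3188 z z) (n 0 z (n 0 (n 3188 z (n 3188 z z)) z))))))
 (n 2 (n 0 z (n 0 z (n 0 z (n 0 z (n 0 z (n 0 z z)))))) z)))))))) (n 0 z (n 0 z (n 0 z (n 0 z (n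
 0 z (n 0 z (n 0 z z))))))))))))) (n 969 (n 2 (n 0 z (n 1 z (n 1 z (n 2 (n 0 z (n 0 z (n 0 z (n
 0 z (n 0 z (n 0 z z)))))) (n 2 (n 0 z (n 0 z (n 0 z (n 0 z (n 0 z (n 0 z z)))))) (n 1 z (n 1 z
 z))))))) (n 0 z (n 0 z (n 0 z (n 0 z (n 0 z (n 0 z (n 0 z (n 0 z (n 0 z (n 0 z (n 0 z (n 0 z
 z))))))))))))) (n 969 (n 0 z (n 0 z (n 2 (n 2 (n 0 z (n 0 z (n 0 z (n 0 z (n 0 z (n 0 z z))))))
 (n 2 (n 0 z (n 0 z (n 0 z (n 0 z (n 0 z (n 0 z z)))))) (n 2 (n 0 z (n 0 z (n 0 z (n 0 z (n 0 z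
 (n 0 z z)))))) (n 2 (n 0 z (n 0 z (n 0 z (n 0 z (n 0 z (n 0 z z)))))) (n 2 (n 0 z (n 0 (n
 8872771 z z) (n 0 z (n 0 (n 8872771 z z) (n 0 z (n 0 (n 8872771 z (n 8872771 z z)) z)))))) (n 2
 (n 0 z (n 0 z (n 0 z (n 0 z (n 0 z (n 0 z z)))))) z)))))) (n 0 z (n 0 z (n 0 z (n 0 z (n 0 z (n
 0 z (n 0 z (n 0 z (n 0 z (n 0 z z))))))))))))) (n 351 (n 0 z (n 0 z z)) (n 351 (n 0 z (n 0 z
 z)) (n 351 (n 0 z (n 0 z z)) (n 797 (n 0 z (n 0 z (n 2 (n 0 z (n 0 z z)) (n 0 z (n 0 z (n 0 z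
 (n 0 z (n 0 z (n 0 z (n 0 z (n 0 z (n 0 z (n 0 z (n 0 z z)))))))))))))) (n 797 (n 0 z (n 0 z (n
 0 z (n 0 z (n 0 z (n 0 z (n 0 z (n 0 z (n 0 z (n 0 z (n 0 z (n 0 z (n 0 z (n 0 z
 z)))))))))))))) (n 797 (n 0 z (n 0 z (n 0 z (n 0 z (n 0 z (n 0 z (n 0 z (n 0 z (n 0 z (n 0 z (n
 0 z (n 0 z (n 0 z (n 0 z z)))))))))))))) z)))))))))))))) (n 0 (n 127 (n 0 z (n 2 (n 0 z (n 1 z
 (n 2 (n 0 z (n 0 z (n 0 z (n 0 z (n 0 z (n 0 z z)))))) (n 2 (n 0 z (n 0 z (n 0 z (n 0 z (n 0 z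
 (n 0 (n 108 z z) z)))))) (n 2 (n 0 z (n 0 z (n 0 z (n 0 z (n 0 z (n 0 (n 8868419 z z) z))))))
 (n 2 (n 0 z (n 0 z (n 0 z (n 0 z (n 0 z (n 0 z z)))))) (n 2 (n 0 z (n 0 z (n 0 z (n 0 z (n 0 z
 (n 0 z z)))))) (n 2 (n 0 z (n 0 z (n 0 z (n 0 z (n 0 z (n 0 (n 3278971 z z) z)))))) (n 2 (n 0 z
 (n 0 z (n 0 z (n 0 z (n 0 z (n 0 z z)))))) (n 2 (n 0 z (n 0 z (n 0 z (n 0 z (n 0 z (n 0 z
 z)))))) (n 2 (n 0 z (n 0 z (n 0 (n 8800043 z z) (n 0 (n 8800043 z z) (n 0 z (n 0 (n 8873019 z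
 (n 8873019 z z)) z)))))) (n 2 (n 0 z (n 0 z (n 0 z (n 0 z (n 0 z (n 0 (n 8868419 z z) z))))))
 z)))))))))))) (n 0 z (n 0 z (n 0 z (n 0 z (n 0 z (n 0 z (n 0 z (n 0 z (n 0 z (n 0 z (n 0 z (n 0
 z (n 0 z (n 0 z (n 0 z (n 0 z (n 0 z (n 0 z z)))))))))))))))))))) (n 127 (n 0 z (n 0 z (n 0 z
 (n 0 z (n 0 z (n 0 z (n 0 z (n 0 z (n 0 z (n 0 z (n 0 z (n 0 z (n 0 z (n 0 z (n 0 z (n 0 z (n 0
 z (n 0 z (n 0 z (n 0 z z)))))))))))))))))))) (n 259 (n 0 z (n 2 (n 0 z (n 2 (n 0 z (n 0 z (n 0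
 z (n 0 z (n 0 z (n 0 z z)))))) (n 2 (n 0 z (n 0 z (n 0 z (n 0 z (n 0 z (n 0 (n 8868419 z z)
 z)))))) (n 2 (n 0 z (n 0 z (n 0 z (n 0 z (n 0 z (n 0 z z)))))) (n 2 (n 0 z (n 0 z (n 0 z (n 0 z
 (n 0 z (n 0 (n 1020 z z) z)))))) (n 2 (n 0 z (n 0 z (n 0 z (n 0 z (n 0 z (n 0 (n 3213435 z z)
 z)))))) (n 2 (n 0 z (n 0 z (n 0 z (n 0 z (n 0 z (n 0 z z)))))) (n 2 (n 0 z (n 0 z (n 0 z (n 0 z
 (n 0 z (n 0 z z)))))) (n 2 (n 0 (n 8800043 z z) (n 0 z (n 0 (n 8800043 z z) (n 0 z (n 0 z (n 0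
 (n 8873019 z (n 8873019 z z)) z)))))) (n 2 (n 0 z (n 0 z (n 0 z (n 0 z (n 0 z (n 0 (n 8868419 z
 z) z)))))) z)))))))))) (n 0 z (n 0 z (n 0 z (n 0 z (n 0 z z))))))) (n 259 (n 0 z (n 0 z (n 0 z
 (n 0 z (n 0 z (n 0 z (n 0 z z))))))) (n 27 (n 0 z (n 2 (n 0 z (n 0 z (n 2 (n 0 z (n 0 z (n 0 z
 (n 0 z (n 0 z (n 0 (n 2164859 z z) z)))))) (n 2 (n 0 z (n 0 z (n 0 z (n 0 z (n 0 z (n 0 z
 z)))))) (n 2 (n 0 z (n 0 z (n 0 z (n 0 z (n 0 z (n 0 z z)))))) (n 2 (n 0 z (n 0 z (n 0 z (n 0 z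
 (n 0 z (n 0 (n 8794131 z z) z)))))) (n 2 (n 0 z (n 0 z (n 0 z (n 0 z (n 0 z (n 0 z z)))))) (n 2
 (n 0 z (n 0 z (n 0 z (n 0 z (n 0 z (n 0 z z)))))) z)))))))) (n 0 z (n 0 z (n 0 z (n 0 z (n 0 z
 (n 0 z (n 0 z (n 0 z (n 0 z (n 0 z (n 0 z (n 0 z z)))))))))))))) (n 27 (n 2 (n 0 z (n 2 (n 0 z
 (n 0 z (n 0 z (n 0 z (n 0 z (n 0 (n 1020 z z) z)))))) (n 2 (n 0 z (n 0 z (n 0 z (n 0 z (n 0 z
 (n 0 z z)))))) (n 2 (n 0 z (n 0 z (n 0 z (n 0 z (n 0 z (n 0 z z)))))) (n 2 (n 0 z (n 0 z (n 0 z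
 (n 0 z (n 0 z (n 0 z z)))))) (n 2 (n 0 z (n 0 z (n 0 z (n 0 (n 8800043 z z) (n 0 (n 8721931 z
 z) (n 0 (n 1012 z (n 1012 z z)) z)))))) (n 2 (n 0 z (n 0 z (n 0 z (n 0 z (n 0 z (n 0 z z))))))
 z))))))) (n 0 z (n 0 z (n 0 z (n 0 z (n 0 z (n 0 z (n 0 z (n 0 z (n 0 z (n 0 z (n 0 z (n 0 z (n
 0 z z)))))))))))))) (n 27 (n 0 z (n 0 z (n 0 z (n 0 z (n 0 z (n 0 z (n 0 z (n 0 z (n 0 z (n 0 z
 (n 0 z (n 0 z (n 0 z (n 0 z z)))))))))))))) (n 255 (n 0 z (n 2 (n 0 z (n 0 z (n 2 (n 0 z (n 0 z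
 (n 0 z (n 0 z (n 0 z (n 0 (n 8794131 z z) z)))))) (n 2 (n 0 (n 1012 z z) (n 0 z (n 0 z (n 0 z
 (n 0 (n 8721931 z z) (n 0 (n 7616619 z (n 1012 z z)) z)))))) (n 2 (n 0 z (n 0 z (n 0 z (n 0 z
 (n 0 z (n 0 z z)))))) z))))) (n 0 z (n 0 z (n 0 z (n 0 z (n 0 z (n 0 z (n 0 z z))))))))) (n 255
 (n 2 (n 0 z (n 2 (n 0 z (n 0 z (n 0 z (n 0 z (n 0 z (n 0 z z)))))) (n 2 (n 0 z (n 0 z (n 0 z (n
 0 (n 213 z z) (n 0 (n 8721931 z z) (n 0 (n 1012 z (n 1012 z z)) z)))))) (n 2 (n 0 z (n 0 z (n 0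
 z (n 0 z (n 0 z (n 0 z z)))))) z)))) (n 0 z (n 0 z (n 0 z (n 0 z (n 0 z (n 0 z (n 0 z (n 0 z
 z))))))))) (n 255 (n 0 z (n 0 z (n 0 z (n 0 z (n 0 z (n 0 z (n 0 z (n 0 z (n 0 z z))))))))) (n
 253 (n 0 z (n 0 z (n 0 z (n 0 z (n 0 z (n 0 z (n 0 z (n 0 z (n 0 z (n 0 z (n 0 z (n 0 z (n 0 z
 (n 0 z z)))))))))))))) (n 253 (n 0 z (n 0 z (n 2 (n 0 z z) (n 0 z (n 0 z (n 0 z (n 0 z (n 0 z
 (n 0 z (n 0 z (n 0 z (n 0 z (n 0 z (n 0 z z)))))))))))))) (n 253 (n 0 z (n 0 z (n 0 z (n 0 z (n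
 0 z (n 0 z (n 0 z (n 0 z (n 0 z (n 2 z (n 0 z (n 0 z (n 0 z (n 0 z z))))))))))))))
 z))))))))))))) (n 0 (n 0 z (n 283 (n 0 z (n 0 z (n 0 z (n 0 z (n 0 z (n 0 z (n 0 z (n 0 z (n 0
 z (n 0 z (n 0 z (n 0 z z)))))))))))) (n 283 (n 0 z (n 0 z (n 2 (n 2 (n 0 z (n 0 z (n 0 z (n 0 z
 (n 0 z (n 0 z z)))))) (n 2 (n 0 z (n 0 z (n 0 z (n 0 z (n 0 z (n 0 z z)))))) (n 2 (n 0 z (n 0 z
 (n 0 z (n 0 z (n 0 z (n 0 z z)))))) (n 2 (n 0 z (n 0 z (n 0 z (n 0 z (n 0 z (n 0 z z)))))) (n 2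
 (n 0 z (n 0 z (n 0 z (n 0 z (n 0 z (n 0 z z)))))) (n 2 (n 0 z (n 0 z (n 0 z (n 0 z (n 0 z (n 0
 z z)))))) (n 2 (n 0 z (n 0 z (n 0 z (n 0 z (n 0 z (n 0 (n 8855811 z z) z)))))) (n 2 (n 0 (n
 8783659 z z) (n 0 z (n 0 z (n 0 (n 8783659 z z) (n 0 z (n 0 (n 8873019 z (n 8873019 z z))
 z)))))) (n 2 (n 0 z (n 0 z (n 0 z (n 0 z (n 0 z (n 0 z z)))))) z))))))))) (n 0 z (n 0 z (n 0 z
 (n 0 z (n 0 z (n 0 z (n 0 z (n 0 z (n 0 z z)))))))))))) (n 59 (n 0 z (n 0 z (n 2 (n 0 z (n 0 z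
 (n 1 z (n 1 z (n 2 (n 0 z (n 0 z (n 0 z (n 0 z (n 0 z (n 0 z z)))))) (n 1 z (n 1 z (n 1 z
 z)))))))) (n 0 z (n 0 z (n 0 z (n 0 z (n 0 z (n 0 z (n 0 z (n 0 z z))))))))))) (n 59 (n 0 z (n
 0 z (n 0 z (n 0 z (n 0 z (n 0 z (n 0 z (n 0 z (n 0 z (n 0 z (n 0 z z))))))))))) (n 59 (n 2 (n 2
 (n 0 z (n 0 z (n 0 z (n 0 z (n 0 z (n 0 z z)))))) (n 2 (n 0 z (n 0 z (n 0 z (n 0 z (n 0 z (n 0
 z z)))))) (n 2 (n 0 z (n 0 z (n 0 z (n 0 z (n 0 z (n 0 z z)))))) (n 2 (n 0 z (n 0 z (n 0 z (n 0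
 z (n 0 z (n 0 z z)))))) (n 2 (n 0 z (n 0 z (n 0 z (n 0 z (n 0 z (n 0 z z)))))) (n 2 (n 0 z (n 0
 z (n 0 z (n 0 z (n 0 z (n 0 z z)))))) z)))))) (n 0 z (n 0 z (n 0 z (n 0 z (n 0 z (n 0 z (n 0 z
 (n 0 z (n 0 z (n 0 z z))))))))))) (n 51 (n 2 (n 0 z (n 0 z (n 1 z (n 1 z (n 1 z z))))) (n 0 z
 (n 0 z (n 0 z (n 0 z (n 0 z (n 0 z (n 0 z (n 0 z (n 0 z (n 0 z (n 0 z (n 0 z (n 0 z (n 0 z (n 0
 z z)))))))))))))))) (n 51 (n 0 z (n 0 z (n 0 z (n 0 z (n 0 z (n 0 z (n 0 z (n 0 z (n 0 z (n 0 z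
 (n 0 z (n 0 z (n 0 z (n 0 z (n 0 z (n 0 z z)))))))))))))))) (n 51 (n 0 z (n 0 z (n 0 z (n 0 z
 (n 0 z (n 2 (n 2 (n 0 z (n 0 z (n 0 z (n 0 z (n 0 z (n 0 z z)))))) (n 2 (n 0 z (n 0 z (n 0 z (n
 0 z (n 0 z (n 0 z z)))))) (n 2 (n 0 z (n 0 z (n 0 z (n 0 z (n 0 z (n 0 z z)))))) z))) (n 0 z (n
 0 z (n 0 z (n 0 z (n 0 z (n 0 z (n 0 z (n 0 z (n 0 z (n 0 z z)))))))))))))))) (n 49 (n 2 (n 0 z
 (n 0 z z)) (n 0 z (n 0 z (n 0 z (n 0 z (n 0 z (n 0 z (n 0 z (n 0 z (n 0 z (n 0 z z)))))))))))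
 (n 49 (n 0 z (n 0 z (n 0 z (n 0 z (n 0 z (n 0 z (n 0 z (n 0 z (n 0 z (n 0 z (n 0 z z)))))))))))
 (n 49 (n 0 z (n 0 z (n 0 z (n 0 z (n 0 z (n 0 z (n 0 z (n 0 z (n 0 z (n 0 z (n 0 z z)))))))))))
 z)))))))))))) (n 0 (n 259 (n 2 (n 0 z (n 2 (n 0 z (n 0 z (n 0 z (n 0 z (n 0 z (n 0 z z)))))) (n
 2 (n 0 z (n 0 z (n 0 z (n 0 z (n 0 z (n 0 (n 8868419 z z) z)))))) (n 2 (n 0 z (n 0 z (n 0 z (n
 0 z (n 0 z (n 0 z z)))))) (n 2 (n 0 z (n 0 z (n 0 z (n 0 z (n 0 z (n 0 (n 12 z z) z)))))) (n 2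
 (n 0 z (n 0 z (n 0 z (n 0 z (n 0 z (n 0 (n 3213435 z z) z)))))) (n 2 (n 0 z (n 0 z (n 0 z (n 0
 z (n 0 z (n 0 z z)))))) (n 2 (n 0 z (n 0 z (n 0 z (n 0 z (n 0 z (n 0 z z)))))) (n 2 (n 0 (n
 8800043 z z) (n 0 z (n 0 (n 8800043 z z) (n 0 z (n 0 z (n 0 (n 8873019 z (n 8873019 z z))
 z)))))) (n 2 (n 0 z (n 0 z (n 0 z (n 0 z (n 0 z (n 0 (n 8868419 z z) z)))))) z)))))))))) (n 0 z
 (n 0 z (n 0 z (n 0 z (n 0 z (n 0 z (n 0 z z)))))))) (n 259 (n 0 z (n 0 z (n 0 z (n 0 z (n 0 z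
 (n 0 z (n 0 z (n 0 z z)))))))) (n 7 (n 2 (n 0 z (n 0 z (n 2 (n 0 z (n 0 z (n 0 z (n 0 z (n 0 z
 (n 0 (n 2164859 z z) z)))))) (n 2 (n 0 z (n 0 z (n 0 z (n 0 z (n 0 z (n 0 z z)))))) (n 2 (n 0 z
 (n 0 z (n 0 z (n 0 z (n 0 z (n 0 z z)))))) (n 2 (n 0 z (n 0 z (n 0 z (n 0 z (n 0 z (n 0 (n
 8790275 z z) z)))))) (n 2 (n 0 z (n 0 z (n 0 z (n 0 z (n 0 z (n 0 z z)))))) (n 2 (n 0 z (n 0 z
 (n 0 z (n 0 z (n 0 z (n 0 z z)))))) z)))))))) (n 0 z (n 0 z (n 0 z (n 0 z (n 0 z (n 0 z (n 0 z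
 z)))))))) (n 7 (n 0 z (n 2 (n 0 z (n 2 (n 0 z (n 0 z (n 0 z (n 0 z (n 0 z (n 0 (n 12 z z)
 z)))))) (n 2 (n 0 z (n 0 z (n 0 z (n 0 z (n 0 z (n 0 z z)))))) (n 2 (n 0 z (n 0 z (n 0 z (n 0 z
 (n 0 z (n 0 z z)))))) (n 2 (n 0 z (n 0 z (n 0 z (n 0 z (n 0 z (n 0 z z)))))) (n 2 (n 0 z (n 0 z
 (n 0 z (n 0 (n 8800043 z z) (n 0 (n 8800043 z z) (n 0 (n 8848939 z (n 8848939 z z)) z)))))) (n
 2 (n 0 z (n 0 z (n 0 z (n 0 z (n 0 z (n 0 z z)))))) z))))))) (n 0 z (n 0 z (n 0 z (n 0 z (n 0 z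
 (n 0 z z)))))))) (n 7 (n 0 z (n 0 z (n 0 z (n 0 z (n 0 z (n 0 z (n 0 z (n 0 z z)))))))) (n 3 (n
 2 (n 0 z (n 0 z (n 2 (n 0 z (n 0 z (n 0 z (n 0 z (n 0 z (n 0 (n 8790275 z z) z)))))) (n 2 (n 0
 (n 4 z z) (n 0 z (n 0 z (n 0 z (n 0 (n 4 z z) (n 0 (n 7616619 z (n 4 z z)) z)))))) (n 2 (n 0 z
 (n 0 z (n 0 z (n 0 z (n 0 z (n 0 z z)))))) z))))) (n 0 z (n 0 z (n 0 z (n 0 z (n 0 z (n 0 z (n
 0 z (n 0 z z))))))))) (n 3 (n 0 z (n 2 (n 0 z (n 2 (n 0 z (n 0 z (n 0 z (n 0 z (n 0 z (n 0 z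
 z)))))) (n 2 (n 0 z (n 0 z (n 0 z (n 0 (n 213 z z) (n 0 (n 4 z z) (n 0 (n 8848939 z (n 8848939
 z z)) z)))))) (n 2 (n 0 z (n 0 z (n 0 z (n 0 z (n 0 z (n 0 z z)))))) z)))) (n 0 z (n 0 z (n 0 z
 (n 0 z (n 0 z (n 0 z (n 0 z z))))))))) (n 3 (n 0 z (n 0 z (n 0 z (n 0 z (n 0 z (n 0 z (n 0 z (n
 0 z (n 0 z z))))))))) (n 1 (n 0 z (n 0 z (n 0 z (n 0 z (n 0 z (n 0 z (n 0 z (n 0 z z)))))))) (n
 1 (n 2 (n 0 z z) (n 0 z (n 0 z (n 0 z (n 0 z (n 0 z (n 0 z (n 0 z z)))))))) (n 1 (n 0 z (n 0 z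
 (n 0 z (n 0 z (n 0 z (n 2 z (n 0 z (n 0 z z)))))))) z))))))))))) (n 0 (n 0 z (n 7 (n 2 (n 0 z
 (n 0 z (n 1 z (n 1 z (n 2 (n 0 z (n 0 z (n 0 z (n 0 z (n 0 z (n 0 z z)))))) (n 1 z (n 1 z (n 1
 z z)))))))) (n 0 z (n 0 z (n 0 z (n 0 z (n 0 z (n 0 z (n 0 z z)))))))) (n 7 (n 0 z (n 0 z (n 0
 z (n 0 z (n 0 z (n 0 z (n 0 z (n 0 z z)))))))) (n 7 (n 0 z (n 2 (n 2 (n 0 z (n 0 z (n 0 z (n 0
 z (n 0 z (n 0 z z)))))) (n 2 (n 0 z (n 0 z (n 0 z (n 0 z (n 0 z (n 0 z z)))))) (n 2 (n 0 z (n 0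
 z (n 0 z (n 0 z (n 0 z (n 0 z z)))))) (n 2 (n 0 z (n 0 z (n 0 z (n 0 z (n 0 z (n 0 z z)))))) (n
 2 (n 0 z (n 0 (n 1364 z z) (n 0 z (n 0 z (n 0 (n 1364 z z) (n 0 (n 8865323 z (n 8722187 z z))
 z)))))) (n 2 (n 0 z (n 0 z (n 0 z (n 0 z (n 0 z (n 0 z z)))))) z)))))) (n 0 z (n 0 z (n 0 z (n
 0 z (n 0 z (n 0 z z)))))))) (n 255 (n 2 (n 0 z (n 0 z (n 1 z (n 1 z (n 1 z z))))) (n 0 z (n 0 z
 (n 0 z (n 0 z (n 0 z (n 0 z (n 0 z (n 0 z (n 0 z (n 0 z (n 0 z (n 0 z z))))))))))))) (n 255 (n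
 0 z (n 0 z (n 0 z (n 0 z (n 0 z (n 0 z (n 0 z (n 0 z (n 0 z (n 0 z (n 0 z (n 0 z (n 0 z
 z))))))))))))) (n 255 (n 0 z (n 0 z (n 0 z (n 0 z (n 2 (n 2 (n 0 z (n 0 z (n 0 z (n 0 z (n 0 z
 (n 0 z z)))))) (n 2 (n 0 z (n 0 (n 1364 z z) (n 0 z (n 0 z (n 0 (n 1364 z z) (n 0 (n 8865323 z
 (n 8722187 z z)) z)))))) (n 2 (n 0 z (n 0 z (n 0 z (n 0 z (n 0 z (n 0 z z)))))) z))) (n 0 z (n
 0 z (n 0 z (n 0 z (n 0 z (n 0 z (n 0 z (n 0 z z))))))))))))) (n 341 (n 0 z (n 2 (n 0 z (n 0 z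
 z)) (n 0 z (n 0 z (n 0 z (n 0 z (n 0 z (n 0 z z)))))))) (n 341 (n 0 z (n 0 z (n 0 z (n 0 z (n 0
 z (n 0 z (n 0 z (n 0 z z)))))))) (n 341 (n 0 z (n 0 z (n 0 z (n 0 z (n 0 z (n 0 z (n 0 z (n 0 z
 z)))))))) z)))))))))) (n 0 (n 535 (n 2 (n 0 z (n 0 z (n 2 (n 0 z (n 0 z (n 0 z (n 0 z (n 0 z (n
 0 (n 2164859 z z) z)))))) (n 2 (n 0 z (n 0 z (n 0 z (n 0 z (n 0 z (n 0 z z)))))) (n 2 (n 0 z (n
 0 z (n 0 z (n 0 z (n 0 z (n 0 (n 8790275 z z) z)))))) (n 1 z (n 2 (n 0 (n 8851555 z z) (n 0 z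
 (n 0 z (n 0 (n 5 z z) (n 0 z (n 0 (n 7616619 z (n 8800027 z z)) z)))))) (n 2 (n 0 z (n 0 z (n 0
 z (n 0 z (n 0 z (n 0 z z)))))) z)))))))) (n 0 z (n 0 z (n 0 z (n 0 z (n 0 z (n 0 z z))))))) (n
 535 (n 0 z (n 2 (n 0 z (n 2 (n 0 z (n 0 z (n 0 z (n 0 z (n 0 z (n 0 z z)))))) (n 2 (n 0 z (n 0
 z (n 0 z (n 0 z (n 0 z (n 0 z z)))))) (n 2 (n 0 z (n 0 z (n 0 z (n 0 z (n 0 z (n 0 z z)))))) (n
 2 (n 0 z (n 0 z (n 0 z (n 0 z (n 0 z (n 0 z z)))))) (n 2 (n 0 z (n 0 z (n 0 z (n 0 (n 197 z z)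
 (n 0 (n 8721931 z z) (n 0 (n 8848939 z (n 8848939 z z)) z)))))) (n 2 (n 0 z (n 0 z (n 0 z (n 0
 z (n 0 z (n 0 z z)))))) z))))))) (n 0 z (n 0 z (n 0 z (n 0 z (n 0 z z))))))) (n 535 (n 0 z (n 0
 z (n 0 z (n 0 z (n 0 z (n 0 z (n 0 z z))))))) (n 291 (n 2 (n 0 z (n 0 z (n 1 z (n 2 (n 0 z (n 0
 z (n 0 (n 1156 z z) (n 0 z (n 0 z (n 0 (n 1156 z (n 1156 z z)) z)))))) (n 2 (n 0 z (n 0 z (n 0
 z (n 0 z (n 0 z (n 0 z z)))))) z))))) (n 0 z (n 0 z (n 0 z (n 0 z (n 0 z (n 0 z (n 0 z (n 0 z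
 z))))))))) (n 291 (n 0 z (n 2 (n 0 z (n 2 (n 0 z (n 0 z (n 0 z (n 0 z (n 0 z (n 0 z z)))))) (n
 2 (n 0 z (n 0 z (n 0 z (n 0 (n 213 z z) (n 0 (n 8721931 z z) (n 0 (n 8848939 z (n 8848939 z z))
 z)))))) (n 2 (n 0 z (n 0 z (n 0 z (n 0 z (n 0 z (n 0 z z)))))) z)))) (n 0 z (n 0 z (n 0 z (n 0
 z (n 0 z (n 0 z (n 0 z z))))))))) (n 291 (n 0 z (n 0 z (n 0 z (n 0 z (n 0 z (n 0 z (n 0 z (n 0
 z (n 0 z z))))))))) (n 289 (n 0 z (n 0 z (n 0 z (n 0 z (n 0 z (n 0 z (n 0 z (n 0 z (n 0 z (n 0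
 z (n 0 z (n 0 z (n 0 z (n 0 z (n 0 z (n 0 z (n 0 z (n 0 z (n 0 z (n 0 z (n 0 z (n 0 z (n 0 z (n
 0 z (n 0 z (n 0 z (n 0 z (n 0 z (n 0 z (n 0 z (n 0 z (n 0 z (n 0 z (n 0 z (n 0 z (n 0 z (n 0 z
 (n 0 z (n 0 z (n 0 z (n 0 z (n 0 z (n 0 z (n 0 z (n 0 z (n 0 z (n 0 z (n 0 z (n 0 z (n 0 z (n 0
 z (n 0 z (n 0 z (n 0 z (n 0 z (n 0 z z))))))))))))))))))))))))))))))))))))))))))))))))))))))))
 (n 289 (n 0 z (n 2 (n 0 z z) (n 0 z (n 0 z (n 0 z (n 0 z (n 0 z (n 0 z (n 0 z (n 0 z (n 0 z (n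
 0 z (n 0 z (n 0 z (n 0 z (n 0 z (n 0 z (n 0 z (n 0 z (n 0 z (n 0 z (n 0 z (n 0 z (n 0 z (n 0 z
 (n 0 z (n 0 z (n 0 z (n 0 z (n 0 z (n 0 z (n 0 z (n 0 z (n 0 z (n 0 z (n 0 z (n 0 z (n 0 z (n 0
 z (n 0 z (n 0 z (n 0 z (n 0 z (n 0 z (n 0 z (n 0 z (n 0 z (n 0 z (n 0 z (n 0 z (n 0 z (n 0 z (n
 0 z (n 0 z (n 0 z (n 0 z z)))))))))))))))))))))))))))))))))))))))))))))))))))))))) (n 289 (n 0
 z (n 0 z (n 0 z (n 0 z (n 0 z (n 0 z (n 0 z (n 0 z (n 0 z (n 0 z (n 0 z (n 0 z (n 0 z (n 0 z (n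
 0 z (n 0 z (n 0 z (n 0 z (n 0 z (n 0 z (n 0 z (n 0 z (n 0 z (n 0 z (n 0 z (n 0 z (n 0 z (n 0 z
 (n 0 z (n 0 z (n 0 z (n 0 z (n 0 z (n 0 z (n 0 z (n 0 z (n 0 z (n 0 z (n 2 z (n 0 z (n 0 z (n 0
 z (n 0 z (n 0 z (n 0 z (n 0 z (n 0 z (n 0 z (n 0 z (n 0 z (n 0 z (n 0 z (n 0 z (n 0 z (n 0 z (n
 0 z z)))))))))))))))))))))))))))))))))))))))))))))))))))))))) z))))))))) (n 0 (n 0 z (n 0 z (n
 3 (n 0 z (n 0 z (n 0 z (n 0 z (n 0 z (n 0 z (n 0 z (n 0 z (n 0 z z))))))))) (n 3 (n 0 z (n 0 z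
 (n 0 z (n 0 z (n 0 z (n 0 z (n 0 z (n 0 z (n 0 z z))))))))) (n 3 (n 2 (n 2 (n 0 z (n 0 z (n 0 z
 (n 0 z (n 0 z (n 0 (n 8855811 z z) z)))))) (n 2 (n 0 z (n 0 z (n 0 z (n 0 z (n 0 z (n 0 z
 z)))))) (n 2 (n 0 z (n 0 z (n 0 z (n 0 z (n 0 z (n 0 z z)))))) z))) (n 0 z (n 0 z (n 0 z (n 0 z
 (n 0 z (n 0 z (n 0 z (n 0 z z))))))))) (n 1 (n 2 (n 0 z (n 0 z z)) (n 0 z (n 0 z (n 0 z (n 0 z
 (n 0 z (n 0 z (n 0 z (n 0 z (n 0 z (n 0 z (n 0 z z)))))))))))) (n 1 (n 0 z (n 0 z (n 2 (n 0 z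
 z) (n 0 z (n 0 z (n 0 z (n 0 z (n 0 z (n 0 z (n 0 z (n 0 z (n 0 z z)))))))))))) (n 1 (n 0 z (n
 0 z (n 0 z (n 0 z (n 0 z (n 0 z (n 0 z (n 0 z (n 0 z (n 0 z (n 0 z (n 0 z z))))))))))))
 z)))))))) (n 0 (n 0 z (n 51 (n 0 z (n 0 z (n 0 z (n 0 z (n 0 z (n 0 z (n 0 z (n 0 z (n 0 z
 z))))))))) (n 51 (n 0 z (n 0 z (n 0 z (n 0 z (n 0 z (n 0 z (n 0 z (n 0 z (n 0 z z))))))))) (n
 51 (n 0 z (n 0 z (n 2 (n 2 (n 0 z (n 0 z (n 0 z (n 0 z (n 0 z (n 0 z z)))))) (n 2 (n 0 z (n 0 z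
 (n 0 z (n 0 z (n 0 z (n 0 z z)))))) (n 2 (n 0 z (n 0 z (n 0 z (n 0 z (n 0 z (n 0 z z)))))) z)))
 (n 0 z (n 0 z (n 0 z (n 0 z (n 0 z (n 0 z z))))))))) (n 49 (n 2 (n 0 z (n 0 z z)) (n 0 z (n 0 z
 (n 0 z (n 0 z (n 0 z (n 0 z (n 0 z (n 0 z (n 0 z (n 0 z (n 0 z z)))))))))))) (n 49 (n 0 z (n 0
 z (n 0 z (n 0 z (n 0 z (n 0 z (n 0 z (n 0 z (n 0 z (n 0 z (n 0 z (n 0 z z)))))))))))) (n 49 (n
 0 z (n 0 z (n 0 z (n 0 z (n 0 z (n 0 z (n 0 z (n 0 z (n 0 z (n 0 z (n 0 z (n 0 z z))))))))))))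
 z))))))) (n 0 (n 15 (n 0 z (n 2 (n 0 z (n 0 z (n 2 (n 0 z (n 0 z (n 0 z (n 0 z (n 0 z (n 0 (n
 8790275 z z) z)))))) (n 2 (n 0 z (n 0 (n 8656443 z z) (n 0 z (n 0 (n 21 z z) (n 0 z (n 0 (n 52
 z (n 52 z z)) z)))))) (n 2 (n 0 z (n 0 z (n 0 z (n 0 z (n 0 z (n 0 z z)))))) z))))) (n 0 z (n 0
 z (n 0 z (n 0 z (n 0 z z))))))) (n 15 (n 2 (n 0 z (n 2 (n 0 z (n 0 z (n 0 z (n 0 z (n 0 z (n 0
 z z)))))) (n 2 (n 0 z (n 0 z (n 0 z (n 0 z (n 0 z (n 0 z z)))))) (n 2 (n 0 z (n 0 z (n 0 z (n 0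
 z (n 0 z (n 0 z z)))))) z)))) (n 0 z (n 0 z (n 0 z (n 0 z (n 0 z (n 0 z z))))))) (n 15 (n 0 z
 (n 0 z (n 0 z (n 0 z (n 0 z (n 0 z (n 0 z z))))))) (n 13 (n 0 z (n 0 z (n 0 z (n 0 z (n 0 z (n
 0 z (n 0 z (n 0 z (n 0 z z))))))))) (n 13 (n 0 z (n 2 (n 0 z z) (n 0 z (n 0 z (n 0 z (n 0 z (n
 0 z (n 0 z (n 0 z z))))))))) (n 13 (n 0 z (n 0 z (n 0 z (n 0 z (n 0 z (n 0 z (n 2 z (n 0 z (n 0
 z z))))))))) z)))))) (n 0 (n 0 z (n 0 z (n 5 (n 0 z (n 0 z (n 0 z (n 0 z (n 0 z (n 2 (n 0 z (n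
 0 z z)) (n 0 z (n 0 z (n 0 z (n 0 z (n 0 z (n 0 z (n 0 z (n 0 z (n 0 z (n 0 z (n 0 z (n 0 z (n
 0 z (n 0 z (n 0 z (n 0 z (n 0 z (n 0 z (n 0 z (n 0 z (n 0 z (n 0 z (n 0 z
 z))))))))))))))))))))))))))))) (n 5 (n 0 z (n 0 z (n 0 z (n 0 z (n 0 z (n 0 z (n 2 (n 0 z z) (n
 0 z (n 0 z (n 0 z (n 0 z (n 0 z (n 0 z (n 0 z (n 0 z (n 0 z (n 0 z (n 0 z (n 0 z (n 0 z (n 0 z
 (n 0 z (n 0 z (n 0 z (n 0 z (n 0 z (n 0 z (n 0 z (n 0 z z))))))))))))))))))))))))))))) (n 5 (n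
 0 z (n 0 z (n 0 z (n 0 z (n 0 z (n 0 z (n 0 z (n 0 z (n 0 z (n 0 z (n 0 z (n 0 z (n 0 z (n 0 z
 (n 0 z (n 0 z (n 0 z (n 0 z (n 0 z (n 0 z (n 0 z (n 0 z (n 0 z (n 0 z (n 0 z (n 0 z (n 0 z (n 0
 z (n 0 z z))))))))))))))))))))))))))))) z))))) (n 0 (n 0 z (n 53 (n 2 (n 0 z (n 0 z z)) (n 0 z
 (n 0 z (n 0 z (n 0 z (n 0 z (n 0 z (n 0 z z)))))))) (n 53 (n 0 z (n 0 z (n 0 z (n 0 z (n 0 z (n
 0 z (n 0 z (n 0 z z)))))))) (n 53 (n 0 z (n 0 z (n 0 z (n 0 z (n 0 z (n 0 z (n 0 z (n 0 z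
 z)))))))) z)))) (n 0 (n 389 (n 0 z (n 0 z (n 0 z (n 0 z (n 0 z (n 0 z (n 0 z (n 0 z (n 0 z (n 0
 z (n 0 z (n 0 z (n 0 z (n 0 z (n 0 z (n 0 z (n 0 z (n 0 z (n 0 z (n 0 z (n 0 z (n 0 z (n 0 z (n
 0 z (n 0 z (n 0 z (n 0 z (n 0 z (n 0 z (n 0 z (n 0 z (n 0 z (n 0 z (n 0 z (n 0 z (n 0 z (n 0 z
 (n 0 z (n 0 z (n 0 z (n 0 z (n 0 z (n 0 z (n 0 z (n 0 z (n 0 z (n 0 z (n 0 z (n 0 z
 z))))))))))))))))))))))))))))))))))))))))))))))))) (n 389 (n 0 z (n 0 z (n 0 z (n 0 z (n 0 z (n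
 0 z (n 0 z (n 0 z (n 0 z (n 0 z (n 0 z (n 0 z (n 0 z (n 0 z (n 0 z (n 0 z (n 0 z (n 0 z (n 0 z
 (n 0 z (n 0 z (n 0 z (n 0 z (n 0 z (n 0 z (n 0 z (n 0 z (n 0 z (n 0 z (n 0 z (n 0 z (n 0 z (n 0
 z (n 2 (n 0 z z) (n 0 z (n 0 z (n 0 z (n 0 z (n 0 z (n 0 z (n 0 z (n 0 z (n 0 z (n 0 z (n 0 z
 (n 0 z (n 0 z (n 0 z (n 0 z z))))))))))))))))))))))))))))))))))))))))))))))))) (n 389 (n 0 z (n
 0 z (n 0 z (n 0 z (n 0 z (n 0 z (n 2 z (n 0 z (n 0 z (n 0 z (n 0 z (n 0 z (n 0 z (n 0 z (n 0 z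
 (n 0 z (n 0 z (n 0 z (n 0 z (n 0 z (n 0 z (n 0 z (n 0 z (n 0 z (n 0 z (n 0 z (n 0 z (n 0 z (n 0
 z (n 0 z (n 0 z (n 0 z (n 0 z (n 0 z (n 0 z (n 0 z (n 0 z (n 0 z (n 0 z (n 0 z (n 0 z (n 0 z (n
 0 z (n 0 z (n 0 z (n 0 z (n 0 z (n 0 z (n 0 z
 z))))))))))))))))))))))))))))))))))))))))))))))))) z))) (n 0 (n 0 z (n 0 z z)) (n 0 (n 0 z z)
 (n 0 z z))))))))))))))))) (n 0 (n 1 (n 3196 z (n 3196 z (n 6619675 z (n 2 z (n 3196 z (n 3196 z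
 z)))))) (n 0 z (n 1 (n 10 z (n 3196 z (n 6619675 z (n 3196 z (n 3196 z (n 3196 z z)))))) (n 0 z
 (n 1 (n 6562131 z (n 6562131 z (n 6562131 z (n 6562131 z (n 6562131 z (n 6562131 z z))))))
 z))))) (n 0 (n 0x11264e61264d70264c71064b71204a712609712640 (n 0 (n 0 (n 7754307 z (n 7754307 z
 (n 7754307 z (n 7754307 z (n 7754307 z (n 7754307 z z)))))) (n 0 (n 6852 z (n 6625035 z (n 45 z
 (n 6852 z (n 6559547 z (n 6852 z z)))))) z)) (n 0 (n 175 (n 1 (n 7668251 z (n 7668251 z (n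
 7668251 z (n 7668251 z (n 7754307 z (n 7668251 z z)))))) (n 1 (n 3282699 z (n 3282699 z (n
 3282699 z (n 3282699 z (n 7754307 z (n 3282699 z z)))))) (n 1 (n 3196 z (n 2 z (n 3196 z (n
 5510923 z (n 7754307 z (n 3196 z z)))))) (n 1 (n 7610707 z (n 7610707 z (n 7610707 z (n 7610707
 z (n 7754307 z (n 7610707 z z)))))) (n 0 z z))))) (n 33 (n 1 (n 7754307 z (n 7754307 z (n
 7754307 z (n 7754307 z (n 7754307 z (n 7754307 z z)))))) (n 0 z (n 1 (n 1820 z (n 1820 z (n 10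
 z (n 1820 z (n 1820 z (n 1820 z z)))))) (n 0 z (n 1 (n 7610707 z (n 7610707 z (n 7610707 z (n
 7610707 z (n 7610707 z (n 7610707 z z)))))) z))))) (n 171 (n 1 (n 7754307 z (n 7754307 z (n
 7754307 z (n 7754307 z (n 7754307 z (n 7754307 z z)))))) (n 0 z (n 1 (n 3196 z (n 6625035 z (n
 18 z (n 3196 z (n 6559547 z (n 3196 z z)))))) (n 0 z (n 1 (n 7754307 z (n 7754307 z (n 7754307
 z (n 7754307 z (n 7754307 z (n 7754307 z z)))))) z))))) (n 3 (n 1 (n 2188 z (n 2188 z (n 2188 z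
 (n 2188 z (n 2188 z (n 2188 z z)))))) (n 1 (n 7754307 z (n 7754307 z (n 7754307 z (n 7754307 z
 (n 7754307 z (n 7754307 z z)))))) (n 1 (n 2188 z (n 6625035 z (n 26 z (n 2188 z (n 6559547 z (n
 2188 z z)))))) (n 0 z (n 1 (n 2164539 z (n 2164539 z (n 2164539 z (n 2164539 z (n 2164539 z (n
 2164539 z z)))))) (n 0 z z)))))) (n 177 (n 1 (n 7668251 z (n 7668251 z (n 7668251 z (n 7668251
 z (n 7668251 z (n 7668251 z z)))))) (n 1 (n 3282699 z (n 3282699 z (n 3282699 z (n 3282699 z (n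
 3282699 z (n 3282699 z z)))))) (n 1 (n 34 z (n 316 z (n 316 z (n 316 z (n 316 z (n 316 z
 z)))))) (n 1 (n 7610707 z (n 7610707 z (n 7610707 z (n 7610707 z (n 7610707 z (n 7610707 z
 z)))))) (n 0 z z))))) (n 171 (n 1 (n 7754307 z (n 7754307 z (n 7754307 z (n 7754307 z (n
 7754307 z (n 7754307 z z)))))) (n 1 (n 7668251 z (n 3196 z (n 42 z (n 4331323 z (n 3196 z (n
 3196 z z)))))) (n 1 (n 7754307 z (n 7754307 z (n 7754307 z (n 7754307 z (n 7754307 z (n 7754307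
 z z)))))) (n 1 (n 4399475 z (n 6498075 z (n 3196 z (n 3196 z (n 3196 z (n 3196 z z)))))) (n 0 z
 (n 1 (n 3196 z (n 3196 z (n 3196 z (n 3196 z (n 6496371 z (n 7668251 z z)))))) (n 1 (n 7754307
 z (n 7754307 z (n 7754307 z (n 7754307 z (n 7754307 z (n 7754307 z z)))))) (n 1 (n 3196 z (n
 7668251 z (n 3196 z (n 3196 z (n 3196 z (n 3196 z z)))))) z)))))))) (n 33 (n 1 (n 7754307 z (n
 7754307 z (n 7754307 z (n 7754307 z (n 7754307 z (n 7754307 z z)))))) (n 0 z (n 1 (n 50 z (n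
 3196 z (n 7668251 z (n 3196 z (n 3196 z (n 3196 z z)))))) (n 0 z (n 1 (n 7610707 z (n 7610707 z
 (n 7610707 z (n 7610707 z (n 7610707 z (n 7610707 z z)))))) z))))) z))))))) (n 0 (n 0 (n 0 z (n
 0 z (n 0 z (n 0 z (n 0 z (n 0 z (n 0 z z))))))) (n 0 (n 0 z (n 0 z (n 0 z (n 0 z (n 0 z (n 0 z
 z)))))) (n 0 (n 0 z (n 0 z (n 0 z (n 0 z (n 0 z z))))) (n 0 (n 0 z (n 0 z (n 0 z (n 0 z z))))
 (n 0 (n 0 z (n 0 z (n 0 z z))) (n 0 (n 0 z (n 0 z z)) (n 0 (n 0 z z) z))))))) (n 0 (n 227 (n 0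
 (n 0 z (n 0 z (n 0 z (n 0 z (n 0 z (n 0 z (n 0 z z))))))) (n 0 (n 0 z (n 0 z (n 0 z (n 0 z (n 0
 z (n 0 z (n 0 z z))))))) (n 0 (n 0 z (n 0 z (n 0 z (n 0 z (n 0 z (n 0 z (n 0 z z))))))) (n 0 (n
 0 z (n 0 z (n 0 z (n 0 z (n 0 z (n 0 z (n 0 z z))))))) (n 0 (n 0 z (n 0 z (n 0 z (n 0 z (n 0 z
 (n 0 z (n 0 z z))))))) (n 0 (n 0 z (n 0 z (n 0 z (n 0 z (n 0 z (n 0 z (n 0 z z))))))) z))))))
 (n 399 (n 0 (n 0 z (n 0 z (n 0 z (n 0 z (n 0 z (n 0 z (n 0 z z))))))) (n 0 (n 0 z (n 0 z (n 0 z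
 (n 0 z (n 0 z (n 0 z (n 0 z z))))))) (n 0 (n 0 z (n 0 z (n 0 z (n 0 z (n 0 z (n 0 z (n 0 z
 z))))))) (n 0 (n 0 z (n 0 z (n 0 z (n 0 z (n 0 z (n 0 z (n 0 z z))))))) (n 0 (n 0 z (n 0 z (n 0
 z (n 0 z (n 0 z (n 0 z (n 0 z z))))))) (n 0 (n 0 z (n 0 z (n 0 z (n 0 z (n 0 z (n 0 z (n 0 z
 z))))))) (n 0 (n 0 z (n 0 z (n 0 z (n 0 z (n 0 z (n 0 z (n 0 z z))))))) (n 0 (n 0 z (n 0 z (n 0
 z (n 0 z (n 0 z (n 0 z (n 0 z z))))))) (n 0 (n 0 z (n 0 z (n 0 z (n 0 z (n 0 z (n 0 z (n 0 z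
 z))))))) z))))))))) (n 261 (n 0 (n 0 z (n 0 z (n 0 z (n 0 z (n 0 z (n 0 z (n 0 z z))))))) (n 0
 (n 0 z (n 0 z (n 0 z (n 0 z (n 0 z (n 0 z (n 0 z z))))))) (n 0 (n 0 z (n 0 z (n 0 z (n 0 z (n 0
 z (n 0 z (n 0 z z))))))) (n 0 (n 0 z (n 0 z (n 0 z (n 0 z (n 0 z (n 0 z (n 0 z z))))))) (n 0 (n
 0 z (n 0 z (n 0 z (n 0 z (n 0 z (n 0 z (n 0 z z))))))) (n 0 (n 0 z (n 0 z (n 0 z (n 0 z (n 0 z
 (n 0 z (n 0 z z))))))) (n 0 (n 0 z (n 0 z (n 0 z (n 0 z (n 0 z (n 0 z (n 0 z z))))))) (n 0 (n 0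
 z (n 0 z (n 0 z (n 0 z (n 0 z (n 0 z (n 0 z z))))))) (n 0 (n 0 z (n 0 z (n 0 z (n 0 z (n 0 z (n
 0 z (n 0 z z))))))) (n 0 (n 0 z (n 0 z (n 0 z (n 0 z (n 0 z (n 0 z (n 0 z z))))))) (n 0 (n 0 z
 (n 0 z (n 0 z (n 0 z (n 0 z (n 0 z (n 0 z z))))))) (n 0 (n 0 z (n 0 z (n 0 z (n 0 z (n 0 z (n 0
 z (n 0 z z))))))) z)))))))))))) (n 273 (n 0 (n 0 z (n 0 z (n 0 z (n 0 z (n 0 z (n 0 z (n 0 z
 z))))))) (n 0 (n 0 z (n 0 z (n 0 z (n 0 z (n 0 z (n 0 z (n 0 z z))))))) (n 0 (n 0 z (n 0 z (n 0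
 z (n 0 z (n 0 z (n 0 z (n 0 z z))))))) (n 0 (n 0 z (n 0 z (n 0 z (n 0 z (n 0 z (n 0 z (n 0 z
 z))))))) (n 0 (n 0 z (n 0 z (n 0 z (n 0 z (n 0 z (n 0 z (n 0 z z))))))) (n 0 (n 0 z (n 0 z (n 0
 z (n 0 z (n 0 z (n 0 z (n 0 z z))))))) (n 0 (n 0 z (n 0 z (n 0 z (n 0 z (n 0 z (n 0 z (n 0 z
 z))))))) (n 0 (n 0 z (n 0 z (n 0 z (n 0 z (n 0 z (n 0 z (n 0 z z))))))) (n 0 (n 0 z (n 0 z (n 0
 z (n 0 z (n 0 z (n 0 z (n 0 z z))))))) (n 0 (n 0 z (n 0 z (n 0 z (n 0 z (n 0 z (n 0 z (n 0 z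
 z))))))) (n 0 (n 0 z (n 0 z (n 0 z (n 0 z (n 0 z (n 0 z (n 0 z z))))))) (n 0 (n 0 z (n 0 z (n 0
 z (n 0 z (n 0 z (n 0 z (n 0 z z))))))) (n 0 (n 0 z (n 0 z (n 0 z (n 0 z (n 0 z (n 0 z (n 0 z
 z))))))) z))))))))))))) (n 35 (n 0 (n 0 z (n 0 z (n 0 z (n 0 z (n 0 z (n 0 z (n 0 z z))))))) (n
 0 (n 0 z (n 0 z (n 0 z (n 0 z (n 0 z (n 0 z (n 0 z z))))))) (n 0 (n 0 z (n 0 z (n 0 z (n 0 z (n
 0 z (n 0 z (n 0 z z))))))) (n 0 (n 0 z (n 0 z (n 0 z (n 0 z (n 0 z (n 0 z (n 0 z z))))))) (n 0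
 (n 0 z (n 0 z (n 0 z (n 0 z (n 0 z (n 0 z (n 0 z z))))))) (n 0 (n 0 z (n 0 z (n 0 z (n 0 z (n 0
 z (n 0 z (n 0 z z))))))) (n 0 (n 0 z (n 0 z (n 0 z (n 0 z (n 0 z (n 0 z (n 0 z z))))))) (n 0 (n
 0 z (n 0 z (n 0 z (n 0 z (n 0 z (n 0 z (n 0 z z))))))) (n 0 (n 0 (n
 0x2c8767f7a98866e837e8f7e7e8178797e8682807e817d7d7f7c817f77ab6c767c9470877e937f818373777f768181817f838382810049
 z z) (n 0 (n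
 0x2c8767f7a98866e837e8f7e7e8178797e8682807e817d7d7f7c817f77ab6c767c9470877e937f818373777f768181817f838382810049
 z z) (n 0 (n
 0x2c8767f7a98866e837e8f7e7e8178797e8682807e817d7d7f7c817f77ab6c767c9470877e937f818373777f768181817f838382810049
 z z) (n 0 z (n 0 z (n 0 z (n 0 (n
 0x348707dcda731b8efb5991271ec5e7e78978e3710917ec93eaa24d23c8ca90798313520ae19a08240041 z z)
 z))))))) (n 0 (n 0 z (n 0 z (n 0 z (n 0 z (n 0 z (n 0 z (n 0 z z))))))) (n 0 (n 0 z (n 0 z (n 0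
 z (n 0 z (n 0 z (n 0 z (n 0 z z))))))) z))))))))))) (n 9 (n 0 (n 0 z (n 0 z (n 0 z (n 0 z (n 0
 z (n 0 z (n 0 z z))))))) (n 0 (n 0 z (n 0 z (n 0 z (n 0 z (n 0 z (n 0 z (n 0 z z))))))) (n 0 (n
 0 z (n 0 z (n 0 z (n 0 z (n 0 z (n 0 z (n 0 z z))))))) (n 0 (n 0 z (n 0 z (n 0 z (n 0 z (n 0 z
 (n 0 z (n 0 z z))))))) (n 0 (n 0 z (n 0 z (n 0 z (n 0 z (n 0 z (n 0 z (n 0 z z))))))) (n 0 (n 0
 z (n 0 z (n 0 z (n 0 z (n 0 z (n 0 z (n 0 z z))))))) (n 0 (n 0 z (n 0 z (n 0 z (n 0 z (n 0 z (n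
 0 z (n 0 z z))))))) (n 0 (n 0 z (n 0 z (n 0 z (n 0 z (n 0 z (n 0 z (n 0 z z))))))) z)))))))) (n
 177 (n 0 (n 0 z (n 0 z (n 0 z (n 0 z (n 0 z (n 0 z (n 0 z z))))))) (n 0 (n 0 z (n 0 z (n 0 z (n
 0 z (n 0 z (n 0 z (n 0 z z))))))) (n 0 (n 0 z (n 0 z (n 0 z (n 0 z (n 0 z (n 0 z (n 0 z
 z))))))) (n 0 (n 0 z (n 0 z (n 0 z (n 0 z (n 0 z (n 0 z (n 0 z z))))))) (n 0 (n 0 (n
 0xc87381e8227e07a37e18608608607e081f81f8608208218208608207e17e182081e7e08208608210041 z (n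
 0xbc8217e6c507f8c6878617e87949daa7d5a7d8699838d877598807f674d9f9b5681e82ea62ea16aa7826965a1929373817f7c8e800049
 z z)) (n 0 (n 8783659 z (n
 0x648217f75687f86747c707f848a8f957f6d7e838d8186847a8d80807266908e6b81b55693569174948074729189897a82807d87800049
 z z)) (n 0 (n 8783659 z (n
 0xbc8217e6c507f8c6878617e87949daa7d5a7d8699838d877598807f674d9f9b5681e82ea62ea16aa7826965a1929373817f7c8e800049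
 z z)) (n 0 z (n 0 z (n 0 z (n 0 (n
 0xc87381e8227e07a37e18608608607e081f81f8608208218208608207e17e182081e7e08208608210041 z (n
 0xbc8217e6c507f8c6878617e87949daa7d5a7d8699838d877598807f674d9f9b5681e82ea62ea16aa7826965a1929373817f7c8e800049
 z z)) z))))))) z))))) (n 39 (n 0 (n 0 z (n 0 z (n 0 z (n 0 z (n 0 z (n 0 z (n 0 z z))))))) (n 0
 (n 0 (n 8865323 z z) (n 0 (n 8865323 z z) (n 0 z (n 0 z (n 0 z (n 0 (n 8865323 z z) (n 0 z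
 z))))))) (n 0 (n 0 z (n 0 z (n 0 z (n 0 z (n 0 z (n 0 z (n 0 z z))))))) (n 0 (n 0 z (n 0 z (n 0
 z (n 0 z (n 0 z (n 0 z (n 0 z z))))))) (n 0 (n 0 z (n 0 z (n 0 z (n 0 z (n 0 z (n 0 z (n 0 z
 z))))))) (n 0 (n 0 z (n 0 z (n 0 z (n 0 z (n 0 z (n 0 z (n 0 z z))))))) (n 0 (n 0 z (n 0 z (n 0
 z (n 0 z (n 0 z (n 0 z (n 0 z z))))))) (n 0 (n 0 z (n 0 z (n 0 z (n 0 z (n 0 z (n 0 z (n 0 z
 z))))))) (n 0 (n 0 z (n 0 z (n 0 z (n 0 z (n 0 z (n 0 z (n 0 z z))))))) (n 0 (n 0 z (n 0 z (n 0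
 z (n 0 z (n 0 z (n 0 z (n 0 z z))))))) (n 0 (n 0 z (n 0 z (n 0 z (n 0 z (n 0 z (n 0 z (n 0 z
 z))))))) (n 0 (n 0 z (n 0 z (n 0 z (n 0 z (n 0 z (n 0 z (n 0 z z))))))) (n 0 (n 0 z (n 0 z (n 0
 z (n 0 z (n 0 z (n 0 z (n 0 z z))))))) (n 0 (n 0 (n
 0xc87381e8227e07a37e18608608607e081f81f8608208218208608207e17e182081e7e08208608210041 z (n
 8722187 z z)) (n 0 (n 8783659 z (n 7538779 z z)) (n 0 (n 8783659 z (n 8722187 z z)) (n 0 z (n 0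
 z (n 0 z (n 0 (n
 0xc87381e8227e07a37e18608608607e081f81f8608208218208608207e17e182081e7e08208608210041 z (n
 8722187 z z)) z))))))) (n 0 (n 0 (n 7755835 z (n
 0x2c8737f7a98866e837e8f7e7e8178797e8682807e817d7d7f7c817f77ab6c767c9470877e937f818373777f768181817f838382810049
 z z)) (n 0 (n 7755835 z (n 8783659 z z)) (n 0 z (n 0 z (n 0 z (n 0 (n 7755835 z (n 8783659 z
 z)) (n 0 z z))))))) (n 0 (n 0 z (n 0 z (n 0 z (n 0 z (n 0 z (n 0 z (n 0 z z)))))))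
 z)))))))))))))))) (n 129 (n 0 (n 0 z (n 0 z (n 0 z (n 0 z (n 0 z (n 0 z (n 0 z z))))))) (n 0 (n
 0 z (n 0 z (n 0 z (n 0 z (n 0 z (n 0 z (n 0 z z))))))) (n 0 (n 0 z (n 0 z (n 0 z (n 0 z (n 0 z
 (n 0 z (n 0 z z))))))) (n 0 (n 0 z (n 0 z (n 0 z (n 0 z (n 0 z (n 0 z (n 0 z z))))))) (n 0 (n 0
 z (n 0 z (n 0 z (n 0 z (n 0 z (n 0 z (n 0 z z))))))) (n 0 (n 0 z (n 0 z (n 0 z (n 0 z (n 0 z (n
 0 z (n 0 z z))))))) (n 0 (n 0 z (n 0 z (n 0 z (n 0 z (n 0 z (n 0 z (n 0 z z))))))) (n 0 (n 0 z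
 (n 0 z (n 0 z (n 0 z (n 0 z (n 0 z (n 0 z z))))))) (n 0 (n 0 z (n 0 z (n 0 z (n 0 z (n 0 z (n 0
 z (n 0 z z))))))) (n 0 (n 0 z (n 0 z (n 0 z (n 0 z (n 0 z (n 0 z (n 0 z z))))))) (n 0 (n 0 z (n
 0 z (n 0 z (n 0 z (n 0 z (n 0 z (n 0 z z))))))) (n 0 (n 0 z (n 0 z (n 0 z (n 0 z (n 0 z (n 0 z
 (n 0 z z))))))) (n 0 (n 0 z (n 0 z (n 0 z (n 0 z (n 0 z (n 0 z (n 0 z z))))))) z)))))))))))))
 (n 27 (n 0 (n 0 z (n 0 z (n 0 z (n 0 z (n 0 z (n 0 z (n 0 z z))))))) (n 0 (n 0 (n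
 0x2c8767f7a98866e837e8f7e7e8178797e8682807e817d7d7f7c817f77ab6c767c9470877e937f818373777f768181817f838382810049
 z z) (n 0 (n
 0x2c8767f7a98866e837e8f7e7e8178797e8682807e817d7d7f7c817f77ab6c767c9470877e937f818373777f768181817f838382810049
 z z) (n 0 (n
 0x2c8767f7a98866e837e8f7e7e8178797e8682807e817d7d7f7c817f77ab6c767c9470877e937f818373777f768181817f838382810049
 z z) (n 0 z (n 0 z (n 0 z (n 0 (n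
 0x348107dcda731b8efb5991271ec5e7e78978e3710917ec93eaa24d23c8ca90798313520ae19a08240041 z z)
 z))))))) (n 0 (n 0 z (n 0 z (n 0 z (n 0 z (n 0 z (n 0 z (n 0 z z))))))) (n 0 (n 0 z (n 0 z (n 0
 z (n 0 z (n 0 z (n 0 z (n 0 z z))))))) (n 0 (n 0 z (n 0 z (n 0 z (n 0 z (n 0 z (n 0 z (n 0 z
 z))))))) (n 0 (n 0 z (n 0 z (n 0 z (n 0 z (n 0 z (n 0 z (n 0 z z))))))) (n 0 (n 0 z (n 0 z (n 0
 z (n 0 z (n 0 z (n 0 z (n 0 z z))))))) (n 0 (n 0 z (n 0 z (n 0 z (n 0 z (n 0 z (n 0 z (n 0 z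
 z))))))) (n 0 (n 0 z (n 0 z (n 0 z (n 0 z (n 0 z (n 0 z (n 0 z z))))))) z))))))))) (n 399 (n 0
 (n 0 z (n 0 z (n 0 z (n 0 z (n 0 z (n 0 z (n 0 z z))))))) (n 0 (n 0 z (n 0 z (n 0 z (n 0 z (n 0
 z (n 0 z (n 0 z z))))))) (n 0 (n 0 z (n 0 z (n 0 z (n 0 z (n 0 z (n 0 z (n 0 z z))))))) (n 0 (n
 0 z (n 0 z (n 0 z (n 0 z (n 0 z (n 0 z (n 0 z z))))))) (n 0 (n 0 z (n 0 z (n 0 z (n 0 z (n 0 z
 (n 0 z (n 0 z z))))))) (n 0 (n 0 z (n 0 z (n 0 z (n 0 z (n 0 z (n 0 z (n 0 z z))))))) (n 0 (n 0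
 z (n 0 z (n 0 z (n 0 z (n 0 z (n 0 z (n 0 z z))))))) (n 0 (n 0 z (n 0 z (n 0 z (n 0 z (n 0 z (n
 0 z (n 0 z z))))))) (n 0 (n 0 z (n 0 z (n 0 z (n 0 z (n 0 z (n 0 z (n 0 z z))))))) (n 0 (n 0 z
 (n 0 z (n 0 z (n 0 z (n 0 z (n 0 z (n 0 z z))))))) (n 0 (n 0 z (n 0 z (n 0 z (n 0 z (n 0 z (n 0
 z (n 0 z z))))))) (n 0 (n 0 z (n 0 z (n 0 z (n 0 z (n 0 z (n 0 z (n 0 z z))))))) (n 0 (n 0 z (n
 0 z (n 0 z (n 0 z (n 0 z (n 0 z (n 0 z z))))))) z))))))))))))) (n 45 (n 0 (n 0 z (n 0 z (n 0 z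
 (n 0 z (n 0 z (n 0 z (n 0 z z))))))) (n 0 (n 0 z (n 0 z (n 0 z (n 0 z (n 0 z (n 0 z (n 0 z
 z))))))) (n 0 (n 0 z (n 0 z (n 0 z (n 0 z (n 0 z (n 0 z (n 0 z z))))))) (n 0 (n 0 z (n 0 z (n 0
 z (n 0 z (n 0 z (n 0 z (n 0 z z))))))) (n 0 (n 0 z (n 0 z (n 0 z (n 0 z (n 0 z (n 0 z (n 0 z
 z))))))) (n 0 (n 0 (n 8802883 z z) (n 0 (n 8802883 z z) (n 0 (n 8802883 z z) (n 0 z (n 0 z (n 0
 z (n 0 (n 8802883 z z) z))))))) (n 0 (n 0 z (n 0 z (n 0 (n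
 0xc87081f8218607e17e18208608207e08208208208208208208208208208217e07e082085f8608200041 z z) (n 0
 z (n 0 z (n 0 (n
 0xc87081f8218207e27e08608608207e082082082082082081f8608208207a17e082082081f8608200041 z z) (n 0
 (n 0xc87081e8228607a17e18208608207e08208208608208208208608608208217e07e082085f8608200041 z z)
 z))))))) (n 0 (n 0 z (n 0 z (n 0 z (n 0 z (n 0 z (n 0 z (n 0 z z))))))) (n 0 (n 0 (n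
 0x2c8727f7a98866e837e8f7e7e8178797e8682807e817d7d7f7c817f77ab6c767c9470877e937f818373777f768181817f838382810049
 z z) (n 0 (n
 0x2c8727f7a98866e837e8f7e7e8178797e8682807e817d7d7f7c817f77ab6c767c9470877e937f818373777f768181817f838382810049
 z z) (n 0 (n
 0x348707dcda731b8efb5991271ec5e7e78978e3710917ec93eaa24d23c8ca90798313520ae19a08240041 z z) (n
 0 z (n 0 z (n 0 z (n 0 (n
 0x2c8727f7a98866e837e8f7e7e8178797e8682807e817d7d7f7c817f77ab6c767c9470877e937f818373777f768181817f838382810049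
 z z) z))))))) (n 0 (n 0 z (n 0 z (n 0 z (n 0 z (n 0 z (n 0 z (n 0 z z))))))) (n 0 (n 0 (n
 8873019 z (n 8873019 z z)) (n 0 (n 8873019 z (n 8873019 z z)) (n 0 z (n 0 z (n 0 z (n 0 (n
 8873019 z (n 8873019 z z)) (n 0 z z))))))) z))))))))))) (n 171 (n 0 (n 0 (n 8802883 z z) (n 0
 (n 8802883 z z) (n 0 (n 8802883 z z) (n 0 z (n 0 z (n 0 z (n 0 (n 8802883 z z) z))))))) (n 0 (n
 0 z (n 0 z (n 0 z (n 0 z (n 0 z (n 0 z (n 0 z z))))))) (n 0 (n 0 z (n 0 z (n 0 z (n 0 z (n 0 z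
 (n 0 z (n 0 z z))))))) (n 0 (n 0 z (n 0 z (n 0 z (n 0 z (n 0 z (n 0 z (n 0 z z))))))) (n 0 (n 0
 z (n 0 z (n 0 z (n 0 z (n 0 z (n 0 z (n 0 z z))))))) (n 0 (n 0 z (n 0 z (n 0 z (n 0 z (n 0 z (n
 0 z (n 0 z z))))))) (n 0 (n 0 z (n 0 z (n 0 z (n 0 z (n 0 z (n 0 z (n 0 z z))))))) (n 0 (n 0 z
 (n 0 z (n 0 z (n 0 z (n 0 z (n 0 z (n 0 z z))))))) z)))))))) (n 29 (n 0 (n 0 z (n 0 z (n 0 z (n
 0 z (n 0 z (n 0 z (n 0 z z))))))) (n 0 (n 0 z (n 0 z (n 0 z (n 0 z (n 0 z (n 0 z (n 0 z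
 z))))))) (n 0 (n 0 z (n 0 z (n 0 z (n 0 z (n 0 z (n 0 z (n 0 z z))))))) (n 0 (n 0 z (n 0 z (n 0
 z (n 0 z (n 0 z (n 0 z (n 0 z z))))))) (n 0 (n 0 (n
 0xc87181e8228607a17e18208608207e08208208608208208208608608208217e07e082085f8608200041 z z) (n 0
 (n 0x348707dcda731b8efb5991271ec5e7e78978e3710917ec93eaa24d23c8ca90798313520ae19a08240041 z z)
 (n 0 (n 0x487181f8218207e18218208608207e08208208208208208208208218207e17e07e07df81f85f8200041 z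
 z) (n 0 z (n 0 z (n 0 z (n 0 (n
 0xc87181e8228607a17e18208608207e08208208608208208208608608208217e07e082085f8608200041 z z)
 z))))))) (n 0 (n 0 z (n 0 z (n 0 z (n 0 z (n 0 z (n 0 z (n 0 z z))))))) (n 0 (n 0 z (n 0 z (n 0
 z (n 0 z (n 0 z (n 0 z (n 0 z z))))))) (n 0 (n 0 z (n 0 z (n 0 z (n 0 z (n 0 z (n 0 z (n 0 z
 z))))))) (n 0 (n 0 z (n 0 z (n 0 z (n 0 z (n 0 z (n 0 z (n 0 z z))))))) (n 0 (n 0 z (n 0 z (n 0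
 z (n 0 z (n 0 z (n 0 z (n 0 z z))))))) (n 0 (n 0 z (n 0 z (n 0 z (n 0 z (n 0 z (n 0 z (n 0 z
 z))))))) (n 0 (n 0 z (n 0 z (n 0 z (n 0 z (n 0 z (n 0 z (n 0 z z))))))) z)))))))))))) (n 28 (n
 0 (n 0 z (n 0 z (n 0 z (n 0 z (n 0 z (n 0 z (n 0 z z))))))) (n 0 (n 0 z (n 0 z (n 0 z (n 0 z (n
 0 z (n 0 z (n 0 z z))))))) (n 0 (n 0 z (n 0 z (n 0 z (n 0 z (n 0 z (n 0 z (n 0 z z))))))) (n 0
 (n 0 z (n 0 z (n 0 z (n 0 z (n 0 z (n 0 z (n 0 z z))))))) (n 0 (n 0 z (n 0 z (n 0 z (n 0 z (n 0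
 z (n 0 z (n 0 z z))))))) (n 0 (n 0 (n 8716827 z z) (n 0 (n 8716827 z z) (n 0 (n 8716827 z z) (n
 0 z (n 0 z (n 0 z (n 0 (n 8716827 z z) z))))))) (n 0 (n 0 z (n 0 z (n 0 z (n 0 z (n 0 z (n 0 z
 (n 0 z z))))))) (n 0 (n 0 z (n 0 z (n 0 z (n 0 z (n 0 z (n 0 z (n 0 z z))))))) z)))))))) (n 399
 (n 0 (n 0 z (n 0 z (n 0 z (n 0 z (n 0 z (n 0 z (n 0 z z))))))) (n 0 (n 0 z (n 0 z (n 0 z (n 0 z
 (n 0 z (n 0 z (n 0 z z))))))) (n 0 (n 0 z (n 0 z (n 0 z (n 0 z (n 0 z (n 0 z (n 0 z z))))))) (n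
 0 (n 0 z (n 0 z (n 0 z (n 0 z (n 0 z (n 0 z (n 0 z z))))))) (n 0 (n 0 z (n 0 z (n 0 z (n 0 z (n
 0 z (n 0 z (n 0 z z))))))) (n 0 (n 0 z (n 0 z (n 0 z (n 0 z (n 0 z (n 0 z (n 0 z z))))))) (n 0
 (n 0 (n 8873019 z (n 8873019 z z)) (n 0 (n 8783659 z (n 8873019 z z)) (n 0 (n 8783659 z (n
 8873019 z z)) (n 0 z (n 0 z (n 0 z (n 0 (n 8873019 z (n 8873019 z z)) z))))))) (n 0 (n 0 z (n 0
 z (n 0 z (n 0 z (n 0 z (n 0 z (n 0 z z))))))) z)))))))) (n 33 (n 0 (n 0 z (n 0 z (n 0 z (n 0 z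
 (n 0 z (n 0 z (n 0 z z))))))) (n 0 (n 0 z (n 0 z (n 0 z (n 0 z (n 0 z (n 0 z (n 0 z z))))))) (n
 0 (n 0 z (n 0 z (n 0 z (n 0 z (n 0 z (n 0 z (n 0 z z))))))) (n 0 (n 0 z (n 0 z (n 0 z (n 0 z (n
 0 z (n 0 z (n 0 z z))))))) (n 0 (n 0 z (n 0 z (n 0 z (n 0 z (n 0 z (n 0 z (n 0 z z)))))))
 z))))) (n 171 (n 0 (n 0 z (n 0 z (n 0 z (n 0 z (n 0 z (n 0 z (n 0 z z))))))) (n 0 (n 0 z (n 0 z
 (n 0 z (n 0 z (n 0 z (n 0 z (n 0 z z))))))) (n 0 (n 0 z (n 0 z (n 0 z (n 0 z (n 0 z (n 0 z (n 0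
 z z))))))) (n 0 (n 0 z (n 0 z (n 0 z (n 0 z (n 0 z (n 0 z (n 0 z z))))))) (n 0 (n 0 z (n 0 z (n
 0 z (n 0 z (n 0 z (n 0 z (n 0 z z))))))) z))))) (n 3 (n 0 (n 0 z (n 0 z (n 0 z (n 0 z (n 0 z (n
 0 z (n 0 z z))))))) (n 0 (n 0 z (n 0 z (n 0 z (n 0 z (n 0 z (n 0 z (n 0 z z))))))) (n 0 (n 0 z
 (n 0 z (n 0 z (n 0 z (n 0 z (n 0 z (n 0 z z))))))) (n 0 (n 0 z (n 0 z (n 0 z (n 0 z (n 0 z (n 0
 z (n 0 z z))))))) (n 0 (n 0 z (n 0 z (n 0 z (n 0 z (n 0 z (n 0 z (n 0 z z))))))) (n 0 (n 0 (n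
 0xc87181f8628207e182081f8608217e08608208208208208208218617e08217e07e17e08608608200041 z z) (n 0
 (n 0x348707dcda731b8efb5991271ec5e7e78978e3710917ec93eaa24d23c8ca90798313520ae19a08240041 z z)
 (n 0 (n 0xc87181e8228607a17e18208608207e08208208608208208208608608208217e07e082085f8608200041 z
 z) (n 0 z (n 0 z (n 0 z (n 0 (n
 0xc87181e8228607a17e18208608207e08208208608208208208608608208217e07e082085f8608200041 z z)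
 z))))))) z)))))) (n 1 (n 0 (n 0 z (n 0 z (n 0 z (n 0 z (n 0 z (n 0 z (n 0 z z))))))) (n 0 (n 0
 z (n 0 z (n 0 z (n 0 z (n 0 z (n 0 z (n 0 z z))))))) (n 0 (n 0 z (n 0 z (n 0 z (n 0 z (n 0 z (n
 0 z (n 0 z z))))))) (n 0 (n 0 z (n 0 z (n 0 z (n 0 z (n 0 z (n 0 z (n 0 z z))))))) (n 0 (n 0 z
 (n 0 z (n 0 z (n 0 z (n 0 z (n 0 z (n 0 z z))))))) (n 0 (n 0 (n 8656699 z z) (n 0 (n
 0x1c87081e8638a17e18208208207e076081f86081f7e081f8208208a18208237e07e181f85f8a08210041 z z) (n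
 0 z (n 0 z (n 0 z (n 0 (n 8656699 z z) (n 0 z z))))))) (n 0 (n 0 z (n 0 z (n 0 z (n 0 z (n 0 z
 (n 0 z (n 0 z z))))))) (n 0 (n 0 z (n 0 z (n 0 z (n 0 z (n 0 z (n 0 z (n 0 z z))))))) z))))))))
 (n 0 (n 0 (n 0 z (n 0 z (n 0 z (n 0 z (n 0 z (n 0 z (n 0 z z))))))) (n 0 (n 0 (n 8873019 z z)
 (n 0 (n 8783659 z z) (n 0 (n 8783659 z z) (n 0 z (n 0 z (n 0 z (n 0 (n 8873019 z z) z))))))) (n
 0 (n 0 z (n 0 z (n 0 z (n 0 z (n 0 z (n 0 z (n 0 z z))))))) (n 0 (n 0 z (n 0 z (n 0 z (n 0 z (n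
 0 z (n 0 z (n 0 z z))))))) (n 0 (n 0 z (n 0 z (n 0 z (n 0 z (n 0 z (n 0 z (n 0 z z))))))) (n 0
 (n 0 z (n 0 z (n 0 z (n 0 z (n 0 z (n 0 z (n 0 z z))))))) (n 0 (n 0 z (n 0 z (n 0 z (n 0 z (n 0
 z (n 0 z (n 0 z z))))))) (n 0 (n 0 (n 8802883 z (n 8802883 z z)) (n 0 (n 8802883 z (n 8802883 z
 z)) (n 0 (n 8802883 z (n 8802883 z z)) (n 0 z (n 0 z (n 0 z (n 0 (n 8802883 z (n 8802883 z z))
 z))))))) (n 0 (n 0 z (n 0 z (n 0 z (n 0 z (n 0 z (n 0 z (n 0 z z))))))) (n 0 (n 0 z (n 0 z (n 0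
 z (n 0 z (n 0 z (n 0 z (n 0 z z))))))) (n 0 (n 0 (n 8722187 z (n 8873019 z z)) (n 0 (n 8783659
 z (n 8873019 z z)) (n 0 (n 8722187 z (n 8873019 z z)) (n 0 z (n 0 z (n 0 z (n 0 (n 8722187 z (n
 8873019 z z)) z))))))) z))))))))))) z))))))))))))))))))))) z)))) (n
 0xad71662d715812d2d2848d46857146a87132988d36ad1126ad6116ad70029c8c0 (n 0 (n 0 (n 7741699 z (n
 7741699 z (n 7741699 z (n 7741699 z (n 7741699 z (n 7741699 z z)))))) z) (n 0 (n 129 (n 1 (n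
 3196 z (n 6563611 z (n 7668251 z (n 2 z (n 3196 z (n 3196 z z)))))) (n 1 (n 3196 z (n 3196 z (n
 10 z (n 7668251 z (n 3196 z (n 3196 z z)))))) (n 1 (n 3196 z (n 3196 z (n 3196 z (n 7668251 z
 (n 1020 z (n 3196 z z)))))) (n 0 z (n 0 z (n 1 (n 7745555 z (n 7745555 z (n 7745555 z (n
 7745555 z (n 7745555 z (n 7745555 z z)))))) (n 1 (n 7610707 z (n 7610707 z (n 7610707 z (n
 7610707 z (n 7610707 z (n 7610707 z z)))))) z))))))) (n 33 (n 1 (n 1468 z (n 7673355 z (n 18 z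
 (n 1468 z (n 7607867 z (n 1468 z z)))))) (n 0 z (n 1 (n 7741699 z (n 7741699 z (n 7741699 z (n
 7741699 z (n 7741699 z (n 7741699 z z)))))) (n 0 z (n 1 (n 7741699 z (n 7741699 z (n 7741699 z
 (n 7741699 z (n 7741699 z (n 7741699 z z)))))) z))))) (n 171 (n 1 (n 1228 z (n 7673355 z (n 26
 z (n 1228 z (n 7607867 z (n 1228 z z)))))) (n 0 z (n 1 (n 7741699 z (n 7741699 z (n 7741699 z
 (n 7741699 z (n 7741699 z (n 7741699 z z)))))) (n 0 z (n 1 (n 7741699 z (n 7741699 z (n 7741699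
 z (n 7741699 z (n 7741699 z (n 7741699 z z)))))) z))))) (n 3 (n 1 (n 34 z (n 7673355 z (n 3196
 z (n 3196 z (n 3196 z (n 3196 z z)))))) (n 1 (n 3196 z (n 7673355 z (n 42 z (n 3196 z (n 3196 z
 (n 3196 z z)))))) (n 1 (n 7741699 z (n 7741699 z (n 7741699 z (n 7741699 z (n 7741699 z (n
 7741699 z z)))))) (n 0 z (n 1 (n 7745555 z (n 7745555 z (n 7745555 z (n 7745555 z (n 7745555 z
 (n 7745555 z z)))))) (n 0 z z)))))) (n 13 (n 1 (n 1660 z (n 1660 z (n 7607867 z (n 1660 z (n 50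
 z (n 1660 z z)))))) (n 1 (n 7607867 z (n 1660 z (n 1660 z (n 58 z (n 1660 z (n 1660 z z))))))
 (n 0 z (n 0 z (n 0 z (n 1 (n 7610707 z (n 7610707 z (n 7610707 z (n 7610707 z (n 7610707 z (n
 7610707 z z)))))) (n 1 (n 7745555 z (n 7745555 z (n 7745555 z (n 7745555 z (n 7745555 z (n
 7745555 z z)))))) z))))))) (n 105 (n 1 (n 7745555 z (n 1852 z (n 1852 z (n 66 z (n 1852 z (n
 7668251 z z)))))) (n 1 (n 7741699 z (n 7741699 z (n 7741699 z (n 7741699 z (n 7741699 z (n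
 7741699 z z)))))) (n 1 (n 7745555 z (n 1852 z (n 1852 z (n 1852 z (n 1756 z (n 7668251 z
 z)))))) (n 1 (n 7741699 z (n 7741699 z (n 7741699 z (n 7741699 z (n 7741699 z (n 7741699 z
 z)))))) (n 0 z (n 1 (n 7745555 z (n 6559531 z (n 7668251 z (n 74 z (n 1852 z (n 1852 z z))))))
 (n 1 (n 7745555 z (n 7673355 z (n 7673355 z (n 7673355 z (n 7673355 z (n 7673355 z z)))))) (n 1
 (n 7745555 z (n 1852 z (n 1852 z (n 1756 z (n 1852 z (n 1852 z z)))))) z)))))))) (n 33 (n 1 (n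
 7745555 z (n 3196 z (n 7668251 z (n 82 z (n 3196 z (n 3196 z z)))))) (n 0 z (n 1 (n 7741699 z
 (n 7741699 z (n 7741699 z (n 7741699 z (n 7741699 z (n 7741699 z z)))))) (n 0 z (n 1 (n 7741699
 z (n 7741699 z (n 7741699 z (n 7741699 z (n 7741699 z (n 7741699 z z)))))) z))))) z))))))) (n 0
 (n 0 (n 0 z (n 0 z (n 0 z (n 0 z (n 0 z (n 0 z (n 0 z (n 0 z (n 0 z (n 0 z (n 0 z z)))))))))))
 (n 0 (n 0 z (n 0 z (n 0 z (n 0 z (n 0 z (n 0 z (n 0 z (n 0 z (n 0 z (n 0 z z)))))))))) (n 0 (n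
 0 z (n 0 z (n 0 z (n 0 z (n 0 z (n 0 z (n 0 z (n 0 z (n 0 z z))))))))) (n 0 (n 0 z (n 0 z (n 0
 z (n 0 z (n 0 z (n 0 z (n 0 z (n 0 z z)))))))) (n 0 (n 0 z (n 0 z (n 0 z (n 0 z (n 0 z (n 0 z
 (n 0 z z))))))) (n 0 (n 0 z (n 0 z (n 0 z (n 0 z (n 0 z (n 0 z z)))))) (n 0 (n 0 z (n 0 z (n 0
 z (n 0 z (n 0 z z))))) (n 0 (n 0 z (n 0 z (n 0 z (n 0 z z)))) (n 0 (n 0 z (n 0 z (n 0 z z))) (n
 0 (n 0 z (n 0 z z)) (n 0 (n 0 z z) z))))))))))) (n 0 (n 183 (n 0 (n 0 z (n 0 z (n 0 z (n 0 z (n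
 0 z (n 0 z (n 0 z (n 0 z (n 0 z (n 0 z (n 0 z z))))))))))) (n 0 (n 0 z (n 0 z (n 0 z (n 0 z (n
 0 z (n 0 z (n 0 z (n 0 z (n 0 z (n 0 z (n 0 z z))))))))))) (n 0 (n 0 z (n 0 z (n 0 z (n 0 z (n
 0 z (n 0 z (n 0 z (n 0 z (n 0 (n
 0x2c8747f7a98866e837e8f7e7e8178797e8682807e817d7d7f7c817f77ab6c767c9470877e937f818373777f768181817f838382810049
 z z) (n 0 z (n 0 z z))))))))))) (n 0 (n 0 z (n 0 z (n 0 z (n 0 z (n 0 z (n 0 z (n 0 z (n 0 z (n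
 0 z (n 0 z (n 0 z z))))))))))) (n 0 (n 0 z (n 0 z (n 0 z (n 0 z (n 0 z (n 0 z (n 0 z (n 0 z (n
 0 z (n 0 z (n 0 z z))))))))))) (n 0 (n 0 z (n 0 z (n 0 z (n 0 z (n 0 z (n 0 z (n 0 z (n 0 z (n
 0 (n 8873019 z z) (n 0 z (n 0 z z))))))))))) (n 0 (n 0 z (n 0 z (n 0 z (n 0 z (n 0 z (n 0 z (n
 0 z (n 0 z (n 0 z (n 0 z (n 0 z z))))))))))) (n 0 (n 0 z (n 0 z (n 0 z (n 0 z (n 0 z (n 0 z (n
 0 z (n 0 z (n 0 (n 8872771 z z) (n 0 z (n 0 z z))))))))))) (n 0 (n 0 z (n 0 z (n 0 z (n 0 z (n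
 0 z (n 0 z (n 0 z (n 0 z (n 0 (n 4401163 z z) (n 0 z (n 0 z z))))))))))) (n 0 (n 0 z (n 0 z (n
 0 z (n 0 z (n 0 z (n 0 z (n 0 z (n 0 z (n 0 (n 4401163 z z) (n 0 z (n 0 z z))))))))))) (n 0 (n
 0 (n 0x1c87481e8638a17e18208208207e076081f86081f7e081f8208208a18208237e07e181f85f8a08210041 z
 (n 7747675 z z)) (n 0 z (n 0 z (n 0 (n 8800043 z (n 8873019 z z)) (n 0 (n 7747675 z (n
 0x10a8a864077e085e85f86086081f8607e082081f85f8217df8208208217e08218217e181f81f8207df8600801 z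
 z)) (n 0 z (n 0 z (n 0 (n
 0x10a8a864077e085e85f86086081f8607e082081f85f8217df8208208217e08218217e181f81f8207df8600801 z
 (n 0xea90a64077df85f86086182081e86081f82081f81f86081f8208208207e082182182181f8208208208610801 z
 z)) (n 0 (n 8873019 z (n 8873019 z z)) (n 0 z (n 0 (n 8873019 z (n 8873019 z z)) z)))))))))))
 (n 0 (n 0 z (n 0 z (n 0 z (n 0 z (n 0 z (n 0 z (n 0 z (n 0 z (n 0 (n 6633483 z z) (n 0 z (n 0 z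
 z))))))))))) (n 0 (n 0 z (n 0 z (n 0 z (n 0 z (n 0 z (n 0 z (n 0 z (n 0 z (n 0 z (n 0 z (n 0 z
 z))))))))))) (n 0 (n 0 z (n 0 z (n 0 z (n 0 z (n 0 z (n 0 z (n 0 z (n 0 z (n 0 z (n 0 z (n 0 z
 z))))))))))) (n 0 (n 0 z (n 0 z (n 0 z (n 0 z (n 0 z (n 0 z (n 0 z (n 0 z (n 0 z (n 0 z (n 0 z
 z))))))))))) (n 0 (n 0 z (n 0 z (n 0 z (n 0 z (n 0 z (n 0 z (n 0 z (n 0 z (n 0 z (n 0 z (n 0 z
 z))))))))))) (n 0 (n 0 z (n 0 z (n 0 z (n 0 z (n 0 z (n 0 z (n 0 z (n 0 z (n 0 z (n 0 z (n 0 z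
 z))))))))))) (n 0 (n 0 z (n 0 z (n 0 (n 8656443 z z) (n 0 z (n 0 (n 8656443 z z) (n 0 z (n 0 z
 (n 0 z (n 0 z (n 0 z (n 0 z z))))))))))) (n 0 (n 0 z (n 0 z (n 0 z (n 0 z (n 0 z (n 0 z (n 0 z
 (n 0 z (n 0 z (n 0 z (n 0 z z))))))))))) (n 0 (n 0 (n
 0xc87581e8228607a17e18208608207e08208208608208208208608608208217e07e082085f8608200041 z (n
 0x30cb0a8407761adc6a092471f7da8a176089f79d75e8e681bd9e7d4b616dc86476a5d58a18e56a18a38e10801 z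
 z)) (n 0 z (n 0 z (n 0 z (n 0 z (n 0 z (n 0 z (n 0 (n
 0xc87581e8228607a18218608208207e181f8208608208208208208608208218208218208608608200041 z (n
 0x30cb0a8407761adc6a092471f7da8a176089f79d75e8e681bd9e7d4b616dc86476a5d58a18e56a18a38e10801 z
 z)) (n 0 z (n 0 z (n 0 z z))))))))))) z)))))))))))))))))))) (n 153 (n 0 (n 0 z (n 0 z (n 0 z (n
 0 z (n 0 z (n 0 z (n 0 z (n 0 z (n 0 z (n 0 z (n 0 z z))))))))))) (n 0 (n 0 z (n 0 z (n 0 z (n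
 0 z (n 0 z (n 0 z (n 0 z (n 0 z (n 0 z (n 0 z (n 0 z z))))))))))) (n 0 (n 0 z (n 0 z (n 0 z (n
 0 z (n 0 z (n 0 z (n 0 z (n 0 z (n 0 z (n 0 z (n 0 z z))))))))))) (n 0 (n 0 z (n 0 z (n 0 z (n
 0 z (n 0 z (n 0 z (n 0 z (n 0 z (n 0 (n 7542827 z z) (n 0 z (n 0 z z))))))))))) (n 0 (n 0 z (n
 0 z (n 0 z (n 0 z (n 0 z (n 0 z (n 0 z (n 0 z (n 0 (n
 0x2c8747f7a98866e837e8f7e7e8178797e8682807e817d7d7f7c817f77ab6c767c9470877e937f818373777f768181817f838382810049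
 z z) (n 0 z (n 0 z z))))))))))) (n 0 (n 0 z (n 0 z (n 0 z (n 0 z (n 0 z (n 0 z (n 0 z (n 0 z (n
 0 (n 8794131 z z) (n 0 z (n 0 z z))))))))))) (n 0 (n 0 z (n 0 z (n 0 z (n 0 z (n 0 z (n 0 z (n
 0 z (n 0 z (n 0 z (n 0 z (n 0 z z))))))))))) z))))))) (n 249 (n 0 (n 0 z (n 0 z (n 0 z (n 0 z
 (n 0 z (n 0 z (n 0 z (n 0 z (n 0 (n 7751723 z z) (n 0 z (n 0 z z))))))))))) (n 0 (n 0 z (n 0 z
 (n 0 z (n 0 z (n 0 z (n 0 z (n 0 z (n 0 z (n 0 (n 8873011 z z) (n 0 z (n 0 z z))))))))))) (n 0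
 (n 0 z (n 0 z (n 0 z (n 0 z (n 0 z (n 0 z (n 0 z (n 0 z (n 0 z (n 0 z (n 0 z z))))))))))) (n 0
 (n 0 z (n 0 z (n 0 z (n 0 z (n 0 z (n 0 z (n 0 z (n 0 z (n 0 z (n 0 z (n 0 z z))))))))))) (n 0
 (n 0 z (n 0 z (n 0 z (n 0 z (n 0 z (n 0 z (n 0 z (n 0 z (n 0 z (n 0 z (n 0 z z))))))))))) (n 0
 (n 0 z (n 0 z (n 0 z (n 0 z (n 0 z (n 0 z (n 0 z (n 0 z (n 0 z (n 0 z (n 0 z z))))))))))) (n 0
 (n 0 z (n 0 z (n 0 z (n 0 z (n 0 z (n 0 z (n 0 z (n 0 z (n 0 z (n 0 z (n 0 z z))))))))))) (n 0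
 (n 0 z (n 0 z (n 0 z (n 0 z (n 0 z (n 0 z (n 0 z (n 0 z (n 0 z (n 0 z (n 0 z z)))))))))))
 z)))))))) (n 399 (n 0 (n 0 z (n 0 z (n 0 z (n 0 z (n 0 z (n 0 z (n 0 z (n 0 z (n 0 z (n 0 z (n
 0 z z))))))))))) (n 0 (n 0 z (n 0 z (n 0 z (n 0 z (n 0 z (n 0 z (n 0 z (n 0 z (n 0 z (n 0 z (n
 0 z z))))))))))) (n 0 (n 0 z (n 0 z (n 0 z (n 0 z (n 0 z (n 0 z (n 0 z (n 0 (n
 0xc87581e8227e07a37e18608608607e081f81f8608208218208608207e17e182081e7e08208608210041 z z) (n 0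
 (n 0x2ea506080782181e86082082082082082082082081f82081f8208208208208208208208208208208208200801
 z (n
 0xb0eb0c840771f9208667288616dd72491a7238658256597a24da8ac404c1ec6ca5a937a5b7977606a46990801 z
 z)) (n 0 z (n 0 z z))))))))))) (n 0 (n 0 z (n 0 z (n 0 z (n 0 z (n 0 z (n 0 z (n 0 z (n 0 z (n
 0 (n 8716827 z z) (n 0 z (n 0 z z))))))))))) (n 0 (n 0 z (n 0 z (n 0 z (n 0 z (n 0 z (n 0 z (n
 0 z (n 0 z (n 0 (n 8872771 z z) (n 0 z (n 0 z z))))))))))) (n 0 (n 0 z (n 0 z (n 0 z (n 0 z (n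
 0 z (n 0 z (n 0 z (n 0 z (n 0 z (n 0 z (n 0 z z))))))))))) (n 0 (n 0 z (n 0 z (n 0 z (n 0 (n
 0x30eb0e280781f85f8607e08208208208208208208208208208208218208208208208208208208208208200801 z
 z) (n 0 (n
 0x348767dcda731b8efb5991271ec5e7e78978e3710917ec93eaa24d23c8ca90798313520ae19a08240041 z z) (n
 0 z (n 0 z (n 0 z (n 0 z (n 0 z (n 0 (n
 0x2c8727f7a98866e837e8f7e7e8178797e8682807e817d7d7f7c817f77ab6c767c9470877e937f818373777f768181817f838382810049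
 z z) z))))))))))) (n 0 (n 0 z (n 0 z (n 0 z (n 0 z (n 0 z (n 0 z (n 0 z (n 0 z (n 0 (n
 0x10a90a84037e17de81f86182181f8608208607df81f8618208207df8208608217e081f81f8208208608220801 z
 (n 0x10a90a84037e17de81f86182181f8608208607df81f8618208207df8208608217e081f81f8208208608220801
 z z)) (n 0 z (n 0 z z))))))))))) (n 0 (n 0 z (n 0 z (n 0 z (n 0 (n 8868419 z z) (n 0 z (n 0 z
 (n 0 z (n 0 (n 8716827 z z) (n 0 (n 8716827 z (n 8716827 z z)) (n 0 z (n 0 (n 8868419 z z)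
 z))))))))))) (n 0 (n 0 z (n 0 z (n 0 z (n 0 z (n 0 z (n 0 z (n 0 z (n 0 z (n 0 z (n 0 z (n 0 z
 z))))))))))) (n 0 (n 0 z (n 0 z (n 0 z (n 0 z (n 0 z (n 0 z (n 0 z (n 0 z (n 0 (n 8794131 z (n
 8794131 z z)) (n 0 z (n 0 z z))))))))))) (n 0 (n 0 z (n 0 z (n 0 z (n 0 z (n 0 (n 8794131 z z)
 (n 0 z (n 0 z (n 0 z (n 0 (n 8794131 z (n 8794131 z z)) (n 0 z (n 0 z z))))))))))) (n 0 (n 0 z
 (n 0 z (n 0 z (n 0 z (n 0 z (n 0 z (n 0 z (n 0 z (n 0 z (n 0 z (n 0 z z))))))))))) (n 0 (n 0 z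
 (n 0 z (n 0 z (n 0 z (n 0 z (n 0 z (n 0 z (n 0 z (n 0 (n
 0x10a90a84037e085e85f86086081f82182082085f81f82182086182082082082082082082081f81f8608600801 z
 (n 0x10a90a84037e081e85f86182081f86082081f82081f82181f8208208208208208618608208207e08208600801
 z z)) (n 0 z (n 0 z z))))))))))) z)))))))))))))) (n 57 (n 0 (n 0 z (n 0 z (n 0 z (n 0 z (n 0 z
 (n 0 z (n 0 z (n 0 z (n 0 (n
 0x2c8747f7a98866e837e8f7e7e8178797e8682807e817d7d7f7c817f77ab6c767c9470877e937f818373777f768181817f838382810049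
 z z) (n 0 z (n 0 z z))))))))))) (n 0 (n 0 z (n 0 z (n 0 z (n 0 z (n 0 z (n 0 z (n 0 z (n 0 z (n
 0 z (n 0 z (n 0 z z))))))))))) (n 0 (n 0 (n
 0x1c87481e8638a17e18208208207e076081f86081f7e081f8208208a18208237e07e181f85f8a08210041 z z) (n
 0 z (n 0 z (n 0 z (n 0 z (n 0 z (n 0 z (n 0 (n
 0x1487681e8628617e18208208208207a081f86081f7df81f8218208a18208227e07e182085f85f8200041 z z) (n
 0 (n 0x348207dcda731b8efb5991271ec5e7e78978e3710917ec93eaa24d23c8ca90798313520ae19a08240041 z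
 (n 0x348207dcda731b8efb5991271ec5e7e78978e3710917ec93eaa24d23c8ca90798313520ae19a08240041 z z))
 (n 0 z (n 0 z z))))))))))) (n 0 (n 0 z (n 0 z (n 0 z (n 0 z (n 0 z (n 0 z (n 0 z (n 0 (n
 0x2c8707f7a98866e837e8f7e7e8178797e8682807e817d7d7f7c817f77ab6c767c9470877e937f818373777f768181817f838382810049
 z z) (n 0 (n
 0xc87281f8218607e18218208208208208208208208208208208608208208217e07e07e08608608210041 z (n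
 0x4ea90864038608208607e18208208208217e086081f7e07e082082081f8a081f8218208208607e082081f0801 z
 z)) (n 0 z (n 0 z z))))))))))) (n 0 (n 0 z (n 0 z (n 0 (n 8659283 z z) (n 0 z (n 0 z (n 0 z (n
 0 z (n 0 z (n 0 (n 8872771 z (n 8872771 z z)) (n 0 z (n 0 z z))))))))))) (n 0 (n 0 z (n 0 z (n
 0 z (n 0 z (n 0 z (n 0 z (n 0 z (n 0 z (n 0 z (n 0 z (n 0 z z))))))))))) (n 0 (n 0 z (n 0 z (n
 0 z (n 0 z (n 0 z (n 0 z (n 0 z (n 0 (n 4327483 z z) (n 0 (n 8872771 z (n 8872771 z z)) (n 0 z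
 (n 0 z z))))))))))) (n 0 (n 0 (n 8790275 z z) (n 0 z (n 0 z (n 0 z (n 0 (n 8790275 z z) (n 0 z
 (n 0 z (n 0 z (n 0 z (n 0 z (n 0 z z))))))))))) z)))))))) (n 387 (n 0 (n 0 z (n 0 z (n 0 z (n 0
 z (n 0 z (n 0 z (n 0 z (n 0 z (n 0 z (n 0 z (n 0 z z))))))))))) (n 0 (n 0 z (n 0 z (n 0 z (n 0
 z (n 0 z (n 0 z (n 0 z (n 0 z (n 0 (n 7751723 z z) (n 0 z (n 0 z z))))))))))) (n 0 (n 0 z (n 0
 z (n 0 z (n 0 z (n 0 z (n 0 z (n 0 z (n 0 (n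
 0xc87081e8227e07a37e18608608607e081f81f8608208218208608207e17e182081e7e08208608210041 z z) (n 0
 (n 0xc87481e8228607a17e18208608207e08208208608208208208608608208217e07e082085f8608200041 z (n
 0x2c8647f7a98866e837e8f7e7e8178797e8682807e817d7d7f7c817f77ab6c767c9470877e937f818373777f768181817f838382810049
 z z)) (n 0 z (n 0 z z))))))))))) (n 0 (n 0 z (n 0 z (n 0 z (n 0 (n 8659283 z z) (n 0 z (n 0 z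
 (n 0 z (n 0 z (n 0 z (n 0 z (n 0 (n 8659283 z z) z))))))))))) (n 0 (n 0 z (n 0 z (n 0 z (n 0 z
 (n 0 z (n 0 z (n 0 z (n 0 z (n 0 z (n 0 z (n 0 z z))))))))))) (n 0 (n 0 z (n 0 z (n 0 z (n 0 z
 (n 0 (n 8794131 z z) (n 0 z (n 0 z (n 0 (n 8794131 z z) (n 0 (n 8794131 z (n 8794131 z z)) (n 0
 z (n 0 z z))))))))))) (n 0 (n 0 z (n 0 z (n 0 z (n 0 z (n 0 z (n 0 z (n 0 z (n 0 z (n 0 (n
 7669819 z (n 8664939 z z)) (n 0 z (n 0 z z))))))))))) z))))))) (n 207 (n 0 (n 0 z (n 0 z (n 0 z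
 (n 0 z (n 0 z (n 0 z (n 0 z (n 0 z (n 0 z (n 0 z (n 0 z z))))))))))) (n 0 (n 0 z (n 0 z (n 0 z
 (n 0 z (n 0 z (n 0 z (n 0 z (n 0 z (n 0 (n
 0x348767dcda731b8efb5991271ec5e7e78978e3710917ec93eaa24d23c8ca90798313520ae19a08240041 z z) (n
 0 z (n 0 z z))))))))))) (n 0 (n 0 z (n 0 z (n 0 z (n 0 z (n 0 z (n 0 z (n 0 z (n 0 z (n 0 (n
 8716827 z z) (n 0 z (n 0 z z))))))))))) (n 0 (n 0 z (n 0 z (n 0 z (n 0 z (n 0 z (n 0 z (n 0 z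
 (n 0 z (n 0 (n
 0x10ed0e640785e8218a07a17e08617e08a07a08618617df7df7df8a286086181e82081f82086079f7e27df0801 z
 z) (n 0 z (n 0 z z))))))))))) (n 0 (n 0 z (n 0 z (n 0 z (n 0 z (n 0 z (n 0 z (n 0 z (n 0 z (n 0
 (n 8794131 z z) (n 0 z (n 0 z z))))))))))) (n 0 (n 0 z (n 0 z (n 0 z (n 0 z (n 0 z (n 0 z (n 0
 z (n 0 z (n 0 (n 8873011 z z) (n 0 z (n 0 z z))))))))))) (n 0 (n 0 z (n 0 z (n 0 (n
 0x1487581f8228607a17e08608208207e082082085f82082081f8608607e07a17e08208208608608210041 z (n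
 0x2c8757f7a98866e837e8f7e7e8178797e8682807e817d7d7f7c817f77ab6c767c9470877e937f818373777f768181817f838382810049
 z z)) (n 0 (n
 0xc87581e8228607a17e18608208207e086082082082082082086082081f82082082082185f8608200041 z (n
 0xbc8217e6c507f8c6878617e87949daa7d5a7d8699838d877598807f674d9f9b5681e82ea62ea16aa7826965a1929373817f7c8e800049
 z z)) (n 0 z (n 0 z (n 0 z (n 0 z (n 0 (n 8848923 z (n 8848923 z z)) (n 0 z (n 0 (n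
 0xc87581f8218207e27e18208608207e08208208208208208208608208208217e07e082086086081f0041 z (n
 0x7c8217f72627f88707b6d7f848d939a7e677e8490818884798f8080706093916581c24c984c94729a81726e948b8b7981807d89800049
 z z)) z))))))))))) (n 0 (n 0 (n 8656443 z (n 8800027 z z)) (n 0 z (n 0 z (n 0 z (n 0 z (n 0 z
 (n 0 z (n 0 z (n 0 z (n 0 z (n 0 z z))))))))))) (n 0 (n 0 z (n 0 z (n 0 z (n 0 (n 8656443 z (n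
 8656443 z z)) (n 0 (n 8656443 z (n 8656443 z z)) (n 0 z (n 0 z (n 0 z (n 0 z (n 0 z (n 0 (n
 8656443 z (n 8656443 z z)) z))))))))))) z))))))))) (n 81 (n 0 (n 0 z (n 0 z (n 0 z (n 0 z (n 0
 z (n 0 z (n 0 z (n 0 z (n 0 z (n 0 z (n 0 z z))))))))))) (n 0 (n 0 z (n 0 z (n 0 z (n 0 z (n 0
 z (n 0 z (n 0 z (n 0 z (n 0 z (n 0 z (n 0 z z))))))))))) (n 0 (n 0 z (n 0 z (n 0 z (n 0 z (n 0
 z (n 0 z (n 0 z (n 0 (n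
 0xc87581e8227e07a37e18608608607e081f81f8608208218208608207e17e182081e7e08208608210041 z z) (n 0
 (n 0xc87381e8228607a17e18208608207e08208208608208208208608608208217e07e082085f8608200041 z (n
 0x10e70e640789f8218207627e182082086082082082082082082082086086181f82081f8208207df8208200801 z
 z)) (n 0 z (n 0 z z))))))))))) (n 0 (n 0 z (n 0 z (n 0 z (n 0 z (n 0 z (n 0 z (n 0 z (n 0 z (n
 0 (n 6424651 z z) (n 0 z (n 0 z z))))))))))) (n 0 (n 0 z (n 0 z (n 0 z (n 0 z (n 0 z (n 0 z (n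
 0 z (n 0 z (n 0 z (n 0 z (n 0 z z))))))))))) (n 0 (n 0 (n
 0x2c8757f7a98866e837e8f7e7e8178797e8682807e817d7d7f7c817f77ab6c767c9470877e937f818373777f768181817f838382810049
 z z) (n 0 z (n 0 z (n 0 z (n 0 z (n 0 z (n 0 z (n 0 z (n 0 z (n 0 z (n 0 z z))))))))))) (n 0 (n
 0 z (n 0 z (n 0 z (n 0 z (n 0 z (n 0 z (n 0 z (n 0 z (n 0 z (n 0 z (n 0 z z))))))))))) (n 0 (n
 0 z (n 0 z (n 0 z (n 0 z (n 0 z (n 0 z (n 0 z (n 0 z (n 0 z (n 0 z (n 0 z z))))))))))) (n 0 (n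
 0 z (n 0 z (n 0 z (n 0 z (n 0 z (n 0 z (n 0 z (n 0 z (n 0 z (n 0 z (n 0 z z)))))))))))
 z))))))))) (n 195 (n 0 (n 0 z (n 0 z (n 0 z (n 0 z (n 0 z (n 0 z (n 0 z (n 0 z (n 0 (n
 0x348767dcda731b8efb5991271ec5e7e78978e3710917ec93eaa24d23c8ca90798313520ae19a08240041 z z) (n
 0 z (n 0 z z))))))))))) (n 0 (n 0 z (n 0 z (n 0 z (n 0 z (n 0 z (n 0 z (n 0 z (n 0 z (n 0 (n
 0x150e70e60078a74837b37657ea7c6746d54ac9cbb807ea672806c8d6640845e42364fa9363fa4aac1e2a95081e89a77933c727189a058770809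
 z z) (n 0 z (n 0 z z))))))))))) (n 0 (n 0 z (n 0 z (n 0 z (n 0 z (n 0 z (n 0 z (n 0 z (n 0 z (n
 0 z (n 0 z (n 0 z z))))))))))) (n 0 (n 0 z (n 0 z (n 0 z (n 0 z (n 0 z (n 0 z (n 0 z (n 0 z (n
 0 (n 8790275 z z) (n 0 z (n 0 z z))))))))))) (n 0 (n 0 z (n 0 z (n 0 z (n 0 z (n 0 z (n 0 z (n
 0 z (n 0 z (n 0 z (n 0 z (n 0 z z))))))))))) (n 0 (n 0 z (n 0 z (n 0 z (n 0 z (n 0 z (n 0 z (n
 0 z (n 0 z (n 0 z (n 0 z (n 0 z z))))))))))) (n 0 (n 0 z (n 0 z (n 0 z (n 0 z (n 0 z (n 0 z (n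
 0 z (n 0 z (n 0 (n 8873011 z z) (n 0 z (n 0 z z))))))))))) (n 0 (n 0 z (n 0 z (n 0 z (n 0 z (n
 0 z (n 0 z (n 0 z (n 0 z (n 0 z (n 0 z (n 0 z z))))))))))) (n 0 (n 0 z (n 0 z (n 0 z (n 0 z (n
 0 z (n 0 z (n 0 z (n 0 z (n 0 z (n 0 z (n 0 z z))))))))))) z))))))))) (n 13 (n 0 (n 0 z (n 0 z
 (n 0 z (n 0 z (n 0 z (n 0 z (n 0 z (n 0 z (n 0 z (n 0 z (n 0 z z))))))))))) (n 0 (n 0 z (n 0 z
 (n 0 z (n 0 z (n 0 z (n 0 z (n 0 z (n 0 z (n 0 (n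
 0x348767dcda731b8efb5991271ec5e7e78978e3710917ec93eaa24d23c8ca90798313520ae19a08240041 z z) (n
 0 z (n 0 z z))))))))))) (n 0 (n 0 z (n 0 z (n 0 z (n 0 (n 8800043 z z) (n 0 (n
 0xc87681e8228207a17e18208608207e082082086082081f8208608608208217a08208208608608210041 z z) (n 0
 z (n 0 z (n 0 z (n 0 z (n 0 z (n 0 (n
 0x2c8627f7a98866e837e8f7e7e8178797e8682807e817d7d7f7c817f77ab6c767c9470877e937f818373777f768181817f838382810049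
 z z) z))))))))))) (n 0 (n 0 z (n 0 z (n 0 z (n 0 z (n 0 z (n 0 z (n 0 z (n 0 z (n 0 z (n 0 z (n
 0 z z))))))))))) (n 0 (n 0 z (n 0 z (n 0 z (n 0 z (n 0 z (n 0 z (n 0 z (n 0 z (n 0 (n 8659283 z
 (n 8659283 z z)) (n 0 z (n 0 z z))))))))))) (n 0 (n 0 z (n 0 z (n 0 z (n 0 z (n 0 z (n 0 z (n 0
 z (n 0 z (n 0 z (n 0 z (n 0 z z))))))))))) (n 0 (n 0 z (n 0 z (n 0 z (n 0 z (n 0 z (n 0 z (n 0
 z (n 0 z (n 0 (n 8794131 z (n 8794131 z z)) (n 0 z (n 0 z z))))))))))) z))))))) (n 231 (n 0 (n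
 0 (n 0x1c87481e8638a17e18208208207e076081f86081f7e081f8208208a18208237e07e181f85f8a08210041 z
 z) (n 0 z (n 0 z (n 0 z (n 0 z (n 0 z (n 0 z (n 0 (n
 0x348767dcda731b8efb5991271ec5e7e78978e3710917ec93eaa24d23c8ca90798313520ae19a08240041 z z) (n
 0 (n 8848923 z (n 8848923 z z)) (n 0 z (n 0 z z))))))))))) (n 0 (n 0 z (n 0 z (n 0 z (n 0 z (n
 0 z (n 0 z (n 0 z (n 0 z (n 0 z (n 0 z (n 0 z z))))))))))) (n 0 (n 0 (n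
 0x2c8747f7a98866e837e8f7e7e8178797e8682807e817d7d7f7c817f77ab6c767c9470877e937f818373777f768181817f838382810049
 z z) (n 0 z (n 0 z (n 0 (n 8800043 z z) (n 0 (n
 0x2c8747f7a98866e837e8f7e7e8178797e8682807e817d7d7f7c817f77ab6c767c9470877e937f818373777f768181817f838382810049
 z z) (n 0 z (n 0 z (n 0 z (n 0 z (n 0 z (n 0 (n 8873019 z z) z))))))))))) (n 0 (n 0 z (n 0 z (n
 0 z (n 0 z (n 0 z (n 0 z (n 0 z (n 0 z (n 0 z (n 0 z (n 0 z z))))))))))) (n 0 (n 0 z (n 0 z (n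
 0 z (n 0 z (n 0 z (n 0 z (n 0 z (n 0 z (n 0 z (n 0 z (n 0 z z))))))))))) (n 0 (n 0 z (n 0 z (n
 0 z (n 0 z (n 0 z (n 0 z (n 0 z (n 0 z (n 0 (n 8664939 z (n
 0x70ed0ec40379867478908686726a86838f827a697c84787e88837985987e897d9d985e8e88616f6a9077a271727f99898e6c8081818a7e0809
 z z)) (n 0 z (n 0 z z))))))))))) (n 0 (n 0 z (n 0 z (n 0 z (n 0 z (n 0 z (n 0 z (n 0 z (n 0 z
 (n 0 (n 8794131 z z) (n 0 z (n 0 z z))))))))))) (n 0 (n 0 z (n 0 z (n 0 z (n 0 z (n 0 z (n 0 z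
 (n 0 z (n 0 z (n 0 z (n 0 z (n 0 z z))))))))))) (n 0 (n 0 z (n 0 z (n 0 z (n 0 z (n 0 z (n 0 z
 (n 0 z (n 0 z (n 0 z (n 0 z (n 0 z z))))))))))) (n 0 (n 0 z (n 0 z (n 0 z (n 0 z (n 0 z (n 0 z
 (n 0 z (n 0 z (n 0 z (n 0 z (n 0 z z))))))))))) (n 0 (n 0 z (n 0 z (n 0 z (n 0 z (n 0 z (n 0 z
 (n 0 z (n 0 z (n 0 (n
 0x2c8737f7a98866e837e8f7e7e8178797e8682807e817d7d7f7c817f77ab6c767c9470877e937f818373777f768181817f838382810049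
 z z) (n 0 z (n 0 z z))))))))))) (n 0 (n 0 z (n 0 z (n 0 z (n 0 z (n 0 z (n 0 z (n 0 z (n 0 z (n
 0 (n 8716827 z (n 8716827 z z)) (n 0 z (n 0 z z))))))))))) (n 0 (n 0 z (n 0 z (n 0 z (n 0 z (n
 0 z (n 0 z (n 0 z (n 0 (n
 0x348727dcda731b8efb5991271ec5e7e78978e3710917ec93eaa24d23c8ca90798313520ae19a08240041 z z) (n
 0 z (n 0 z (n 0 z z))))))))))) (n 0 (n 0 z (n 0 z (n 0 z (n 0 (n 8716827 z z) (n 0 z (n 0 z (n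
 0 z (n 0 z (n 0 z (n 0 z (n 0 (n 8716827 z z) z))))))))))) z)))))))))))))) (n 105 (n 0 (n 0 z
 (n 0 z (n 0 z (n 0 (n 8800043 z z) (n 0 z (n 0 z (n 0 z (n 0 (n
 0x348767dcda731b8efb5991271ec5e7e78978e3710917ec93eaa24d23c8ca90798313520ae19a08240041 z z) (n
 0 (n 8873011 z (n 8873011 z z)) (n 0 z (n 0 (n 8873019 z z) z))))))))))) (n 0 (n 0 z (n 0 z (n
 0 z (n 0 z (n 0 z (n 0 z (n 0 z (n 0 z (n 0 (n 8790275 z z) (n 0 z (n 0 z z))))))))))) (n 0 (n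
 0 z (n 0 z (n 0 z (n 0 z (n 0 z (n 0 z (n 0 z (n 0 z (n 0 (n 8664939 z (n 6424699 z z)) (n 0 z
 (n 0 z z))))))))))) (n 0 (n 0 z (n 0 z (n 0 z (n 0 z (n 0 z (n 0 z (n 0 z (n 0 z (n 0 z (n 0 z
 (n 0 z z))))))))))) (n 0 (n 0 z (n 0 z (n 0 z (n 0 z (n 0 z (n 0 z (n 0 z (n 0 z (n 0 (n
 0xbc8747e6c507f8c6878617e87949daa7d5a7d8699838d877598807f674d9f9b5681e82ea62ea16aa7826965a1929373817f7c8e800049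
 z (n
 0x30e50840078d662679a65d95f82b9a25a58657ed6227de7d63d6bd76637af5ac86c8de7e8a215d98a685c0801 z
 z)) (n 0 z (n 0 z z))))))))))) (n 0 (n 0 z (n 0 z (n 0 z (n 0 z (n 0 z (n 0 z (n 0 z (n 0 z (n
 0 z (n 0 z (n 0 z z))))))))))) (n 0 (n 0 z (n 0 z (n 0 z (n 0 (n 8868419 z z) (n 0 z (n 0 z (n
 0 z (n 0 z (n 0 (n 8721931 z (n 8721931 z z)) (n 0 z (n 0 (n 8868419 z z) z))))))))))) (n 0 (n
 0 z (n 0 z (n 0 z (n 0 z (n 0 z (n 0 z (n 0 z (n 0 z (n 0 z (n 0 z (n 0 z z)))))))))))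
 z)))))))) (n 219 (n 0 (n 0 z (n 0 z (n 0 z (n 0 z (n 0 z (n 0 z (n 0 z (n 0 z (n 0 z (n 0 z (n
 0 z z))))))))))) (n 0 (n 0 z (n 0 z (n 0 z (n 0 z (n 0 z (n 0 z (n 0 z (n 0 z (n 0 z (n 0 z (n
 0 z z))))))))))) (n 0 (n 0 (n
 0x2c8307f7a98866e837e8f7e7e8178797e8682807e817d7d7f7c817f77ab6c767c9470877e937f818373777f768181817f838382810049
 z z) (n 0 z (n 0 z (n 0 (n 8873019 z z) (n 0 (n
 0x2c8307f7a98866e837e8f7e7e8178797e8682807e817d7d7f7c817f77ab6c767c9470877e937f818373777f768181817f838382810049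
 z z) (n 0 z (n 0 z (n 0 z (n 0 z (n 0 z (n 0 (n 8873019 z z) z))))))))))) (n 0 (n 0 z (n 0 z (n
 0 z (n 0 (n 8873019 z z) (n 0 z (n 0 z (n 0 z (n 0 (n
 0x2c8307f7a98866e837e8f7e7e8178797e8682807e817d7d7f7c817f77ab6c767c9470877e937f818373777f768181817f838382810049
 z z) (n 0 (n 8873011 z (n 8873011 z z)) (n 0 z (n 0 (n 8873019 z z) z))))))))))) (n 0 (n 0 z (n
 0 z (n 0 (n
 0x7c8647f73627f87707b6d7f858d939b7e677e8490818885788f8080705f94926580c24c984d95729981716e958b8b7881807d89800049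
 z z) (n 0 z (n 0 z (n 0 z (n 0 z (n 0 z (n 0 (n 8872771 z (n 8872771 z z)) (n 0 z (n 0 z
 z))))))))))) (n 0 (n 0 z (n 0 z (n 0 z (n 0 (n
 0xbc8647e6c507f8c6878617e87949daa7d5a7d8699838d877598807f674d9f9b5681e82ea62ea16aa7826965a1929373817f7c8e800049
 z z) (n 0 z (n 0 z (n 0 z (n 0 z (n 0 z (n 0 z (n 0 (n
 0xbc8647e6c507f8c6878617e87949daa7d5a7d8699838d877598807f674d9f9b5681e82ea62ea16aa7826965a1929373817f7c8e800049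
 z z) z))))))))))) (n 0 (n 0 z (n 0 z (n 0 z (n 0 z (n 0 z (n 0 z (n 0 z (n 0 z (n 0 (n 8872771
 z z) (n 0 z (n 0 z z))))))))))) (n 0 (n 0 z (n 0 z (n 0 z (n 0 (n
 0x348607dcda731b8efb5991271ec5e7e78978e3710917ec93eaa24d23c8ca90798313520ae19a08240041 z z) (n
 0 z (n 0 z (n 0 z (n 0 z (n 0 z (n 0 z (n 0 (n
 0x348607dcda731b8efb5991271ec5e7e78978e3710917ec93eaa24d23c8ca90798313520ae19a08240041 z z)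
 z))))))))))) (n 0 (n 0 z (n 0 z (n 0 z (n 0 (n
 0xc84381e8227e07a37e18608608607e081f81f8608208218208608207e17e182081e7e08208608210041 z z) (n 0
 z (n 0 z (n 0 z (n 0 (n
 0xc87681e8228607a17e18208608207e08208208608208208208608608208217e07e082085f8608200041 z z) (n 0
 (n 8872771 z (n 8872771 z z)) (n 0 z (n 0 (n
 0xc84381e8227e07a37e18608608607e081f81f8608208218208608207e17e182081e7e08208608210041 z z)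
 z))))))))))) (n 0 (n 0 z (n 0 z (n 0 z (n 0 z (n 0 z (n 0 z (n 0 z (n 0 z (n 0 z (n 0 z (n 0 z
 z))))))))))) (n 0 (n 0 z (n 0 z (n 0 z (n 0 z (n 0 z (n 0 z (n 0 z (n 0 z (n 0 z (n 0 z (n 0 z
 z))))))))))) (n 0 (n 0 z (n 0 z (n 0 z (n 0 z (n 0 z (n 0 z (n 0 z (n 0 z (n 0 z (n 0 z (n 0 z
 z))))))))))) (n 0 (n 0 z (n 0 z (n 0 z (n 0 z (n 0 z (n 0 z (n 0 z (n 0 z (n 0 (n 8873011 z (n
 8873011 z z)) (n 0 z (n 0 z z))))))))))) (n 0 (n 0 z (n 0 z (n 0 (n 8873019 z z) (n 0 z (n 0 z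
 (n 0 z (n 0 z (n 0 z (n 0 z (n 0 z (n 0 z z))))))))))) (n 0 (n 0 z (n 0 z (n 0 z (n 0 z (n 0 z
 (n 0 z (n 0 z (n 0 z (n 0 (n 8848923 z (n 8848923 z z)) (n 0 z (n 0 z z))))))))))) (n 0 (n 0 z
 (n 0 z (n 0 z (n 0 z (n 0 z (n 0 z (n 0 z (n 0 z (n 0 (n
 0x2c8747f7a98866e837e8f7e7e8178797e8682807e817d7d7f7c817f77ab6c767c9470877e937f818373777f768181817f838382810049
 z z) (n 0 z (n 0 z z))))))))))) (n 0 (n 0 z (n 0 z (n 0 z (n 0 z (n 0 z (n 0 z (n 0 z (n 0 z (n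
 0 (n 8664939 z (n
 0x348617dcda731b8efb5991271ec5e7e78978e3710917ec93eaa24d23c8ca90798313520ae19a08240041 z z)) (n
 0 z (n 0 z z))))))))))) (n 0 (n 0 z (n 0 z (n 0 z (n 0 z (n 0 z (n 0 z (n 0 z (n 0 z (n 0 (n
 7735371 z (n 3213403 z z)) (n 0 z (n 0 z z))))))))))) (n 0 (n 0 z (n 0 z (n 0 (n
 0xc86381e8227e07a37e18608608607e081f81f8608208218208608207e17e182081e7e08208608210041 z z) (n 0
 z (n 0 z (n 0 z (n 0 z (n 0 z (n 0 (n 8664939 z (n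
 0xc86381e8227e07a37e18608608607e081f81f8608208218208608207e17e182081e7e08208608210041 z z)) (n
 0 z (n 0 z z))))))))))) (n 0 (n 0 z (n 0 z (n 0 (n
 0x2c8437f7a98866e837e8f7e7e8178797e8682807e817d7d7f7c817f77ab6c767c9470877e937f818373777f768181817f838382810049
 z z) (n 0 z (n 0 z (n 0 z (n 0 z (n 0 z (n 0 z (n 0 z (n 0 z z))))))))))) (n 0 (n 0 z (n 0 z (n
 0 (n 0x1c86181e8638a17e18208208207e076081f86081f7e081f8208208a18208237e07e181f85f8a08210041 z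
 (n 0x1c86181e8638a17e18208208207e076081f86081f7e081f8208208a18208237e07e181f85f8a08210041 z z))
 (n 0 z (n 0 z (n 0 z (n 0 z (n 0 z (n 0 z (n 0 z (n 0 z z))))))))))) (n 0 (n 0 z (n 0 z (n 0 z
 (n 0 z (n 0 z (n 0 z (n 0 z (n 0 z (n 0 z (n 0 z (n 0 z z))))))))))) (n 0 (n 0 z (n 0 z (n 0 z
 (n 0 z (n 0 z (n 0 z (n 0 z (n 0 z (n 0 z (n 0 z (n 0 z z))))))))))) (n 0 (n 0 z (n 0 z (n 0 z
 (n 0 z (n 0 z (n 0 z (n 0 z (n 0 z (n 0 z (n 0 z (n 0 z z))))))))))) (n 0 (n 0 (n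
 0xc86181f8618207e182081f8208208208208208208208208208608208208217e07e082085f8608200041 z z) (n 0
 z (n 0 z (n 0 z (n 0 z (n 0 z (n 0 z (n 0 z (n 0 (n
 0xc86181f8218207e27e08208608207e08207e08208208208208608217e07e182082082085f85f8200041 z (n
 8664939 z z)) (n 0 z (n 0 z z))))))))))) (n 0 (n 0 z (n 0 z (n 0 z (n 0 z (n 0 z (n 0 z (n 0 z
 (n 0 z (n 0 (n 8873011 z (n 8873011 z z)) (n 0 z (n 0 z z))))))))))) (n 0 (n 0 z (n 0 z (n 0 z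
 (n 0 (n 8873019 z z) (n 0 z (n 0 z (n 0 z (n 0 z (n 0 (n 8848923 z (n 8848923 z z)) (n 0 z (n 0
 (n 8873019 z z) z))))))))))) (n 0 (n 0 z (n 0 z (n 0 z (n 0 z (n 0 z (n 0 z (n 0 z (n 0 z (n 0
 (n 3213403 z (n 3213403 z z)) (n 0 z (n 0 z z))))))))))) (n 0 (n 0 z (n 0 z (n 0 z (n 0 (n
 6494299 z z) (n 0 z (n 0 z (n 0 z (n 0 z (n 0 (n 6494299 z (n 6494299 z z)) (n 0 z (n 0 (n
 6494299 z z) z))))))))))) (n 0 (n 0 z (n 0 z (n 0 z (n 0 (n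
 0x348617dcda731b8efb5991271ec5e7e78978e3710917ec93eaa24d23c8ca90798313520ae19a08240041 z (n
 0x348617dcda731b8efb5991271ec5e7e78978e3710917ec93eaa24d23c8ca90798313520ae19a08240041 z z)) (n
 0 z (n 0 z (n 0 z (n 0 (n
 0x1c87181e8638a17e18208208207e076081f86081f7e081f8208208a18208237e07e181f85f8a08210041 z (n
 7747675 z z)) (n 0 (n
 0xc87381e8227e07a37e18608608607e081f81f8608208218208608207e17e182081e7e08208608210041 z (n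
 0x348617dcda731b8efb5991271ec5e7e78978e3710917ec93eaa24d23c8ca90798313520ae19a08240041 z z)) (n
 0 z (n 0 (n
 0x348617dcda731b8efb5991271ec5e7e78978e3710917ec93eaa24d23c8ca90798313520ae19a08240041 z (n
 0x348617dcda731b8efb5991271ec5e7e78978e3710917ec93eaa24d23c8ca90798313520ae19a08240041 z z))
 z))))))))))) (n 0 (n 0 z (n 0 z (n 0 z (n 0 z (n 0 z (n 0 z (n 0 z (n 0 z (n 0 z (n 0 z (n 0 z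
 z))))))))))) (n 0 (n 0 z (n 0 z (n 0 z (n 0 (n 8868419 z z) (n 0 z (n 0 z (n 0 z (n 0 z (n 0 z
 (n 0 z (n 0 (n 8868419 z z) z))))))))))) (n 0 (n 0 z (n 0 z (n 0 (n 8868419 z z) (n 0 z (n 0 z
 (n 0 z (n 0 z (n 0 z (n 0 (n 8873011 z (n 8873011 z z)) (n 0 z (n 0 z z))))))))))) (n 0 (n 0 z
 (n 0 z (n 0 z (n 0 (n 8868419 z (n 8868419 z z)) (n 0 z (n 0 z (n 0 z (n 0 (n 8721931 z (n
 8721931 z z)) (n 0 (n 8873011 z (n 8873011 z z)) (n 0 z (n 0 (n 8868419 z (n 8868419 z z))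
 z))))))))))) (n 0 (n 0 z (n 0 z (n 0 z (n 0 z (n 0 z (n 0 z (n 0 z (n 0 z (n 0 z (n 0 z (n 0 z
 z))))))))))) (n 0 (n 0 z (n 0 z (n 0 z (n 0 z (n 0 z (n 0 z (n 0 z (n 0 z (n 0 (n 8721931 z z)
 (n 0 z (n 0 z z))))))))))) (n 0 (n 0 z (n 0 z (n 0 z (n 0 z (n 0 z (n 0 z (n 0 z (n 0 z (n 0 (n
 0x348107dcda731b8efb5991271ec5e7e78978e3710917ec93eaa24d23c8ca90798313520ae19a08240041 z (n
 8664939 z z)) (n 0 z (n 0 z z))))))))))) (n 0 (n 0 z (n 0 z (n 0 z (n 0 z (n 0 z (n 0 z (n 0 z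
 (n 0 z (n 0 z (n 0 z (n 0 z z))))))))))) (n 0 (n 0 z (n 0 z (n 0 z (n 0 z (n 0 z (n 0 z (n 0 z
 (n 0 z (n 0 z (n 0 z (n 0 z z))))))))))) (n 0 (n 0 z (n 0 z (n 0 (n 8868419 z z) (n 0 z (n 0 z
 (n 0 z (n 0 z (n 0 z (n 0 z (n 0 z (n 0 z z))))))))))) (n 0 (n 0 z (n 0 z (n 0 z (n 0 (n
 8868419 z z) (n 0 z (n 0 z (n 0 z (n 0 z (n 0 (n 8721931 z (n 8721931 z z)) (n 0 z (n 0 (n
 8868419 z z) z))))))))))) (n 0 (n 0 z (n 0 z (n 0 (n 8721931 z z) (n 0 z (n 0 z (n 0 z (n 0 z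
 (n 0 z (n 0 (n 8873011 z (n 8873011 z z)) (n 0 z (n 0 z z))))))))))) (n 0 (n 0 z (n 0 z (n 0 (n
 0xc87081e8227e07a37e18608608607e081f81f8608208218208608207e17e182081e7e08208608210041 z (n
 7542859 z z)) (n 0 z (n 0 z (n 0 z (n 0 z (n 0 z (n 0 z (n 0 z (n 0 z z))))))))))) (n 0 (n 0 z
 (n 0 z (n 0 z (n 0 z (n 0 z (n 0 z (n 0 z (n 0 z (n 0 z (n 0 z (n 0 z z))))))))))) (n 0 (n 0 z
 (n 0 z (n 0 z (n 0 z (n 0 z (n 0 z (n 0 z (n 0 z (n 0 z (n 0 z (n 0 z z))))))))))) (n 0 (n 0 z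
 (n 0 z (n 0 (n 8721931 z z) (n 0 z (n 0 z (n 0 z (n 0 z (n 0 z (n 0 z (n 0 z (n 0 z
 z))))))))))) (n 0 (n 0 z (n 0 z (n 0 z (n 0 z (n 0 z (n 0 z (n 0 z (n 0 z (n 0 z (n 0 z (n 0 z
 z))))))))))) (n 0 (n 0 z (n 0 z (n 0 z (n 0 z (n 0 z (n 0 z (n 0 z (n 0 z (n 0 z (n 0 z (n 0 z
 z))))))))))) (n 0 (n 0 z (n 0 z (n 0 z (n 0 z (n 0 z (n 0 z (n 0 z (n 0 z (n 0 (n 8790275 z (n
 8790275 z z)) (n 0 z (n 0 z z))))))))))) (n 0 (n 0 z (n 0 z (n 0 z (n 0 z (n 0 z (n 0 z (n 0 z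
 (n 0 z (n 0 z (n 0 z (n 0 z z))))))))))) (n 0 (n 0 z (n 0 z (n 0 z (n 0 z (n 0 z (n 0 z (n 0 z
 (n 0 z (n 0 (n 7407691 z (n 8664939 z z)) (n 0 z (n 0 z z))))))))))) (n 0 (n 0 z (n 0 z (n 0 z
 (n 0 (n
 0x70e90e8203758a7a78978f89715c8888917d726677817184838f7284a47b9394ab97599e855a5a6f8574a6666a789b86936d82807b90800809
 z z) (n 0 z (n 0 z (n 0 z (n 0 z (n 0 z (n 0 z (n 0 (n
 0x30e90e82036a575cb289583a59287994db8198a19d98b3769ab6b0cbe230c5e36b44d576d8ea5e181da5f0801 z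
 z) z))))))))))) (n 0 (n 0 z (n 0 z (n 0 z (n 0 (n 8721931 z z) (n 0 z (n 0 z (n 0 z (n 0 z (n 0
 (n 8721931 z (n 8721931 z z)) (n 0 z (n 0 (n 8721931 z z) z))))))))))) (n 0 (n 0 z (n 0 z (n 0
 z (n 0 z (n 0 z (n 0 z (n 0 z (n 0 z (n 0 z (n 0 z (n 0 z z))))))))))) (n 0 (n 0 z (n 0 z (n 0
 z (n 0 z (n 0 z (n 0 z (n 0 z (n 0 (n
 0x2c8307f7a98866e837e8f7e7e8178797e8682807e817d7d7f7c817f77ab6c767c9470877e937f818373777f768181817f838382810049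
 z (n
 0x2c8307f7a98866e837e8f7e7e8178797e8682807e817d7d7f7c817f77ab6c767c9470877e937f818373777f768181817f838382810049
 z z)) (n 0 z (n 0 z (n 0 z z))))))))))) (n 0 (n 0 z (n 0 z (n 0 z (n 0 z (n 0 z (n 0 z (n 0 z
 (n 0 z (n 0 z (n 0 z (n 0 z z)))))))))))
 z)))))))))))))))))))))))))))))))))))))))))))))))))))))))) (n 19 (n 0 (n 0 z (n 0 z (n 0 z (n 0
 z (n 0 z (n 0 z (n 0 z (n 0 z (n 0 (n 8794131 z z) (n 0 z (n 0 z z))))))))))) (n 0 (n 0 z (n 0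
 z (n 0 z (n 0 z (n 0 z (n 0 z (n 0 z (n 0 (n
 0x348767dcda731b8efb5991271ec5e7e78978e3710917ec93eaa24d23c8ca90798313520ae19a08240041 z z) (n
 0 (n 8872771 z (n 8872771 z z)) (n 0 z (n 0 z z))))))))))) (n 0 (n 0 z (n 0 z (n 0 z (n 0 z (n
 0 z (n 0 z (n 0 z (n 0 z (n 0 z (n 0 z (n 0 z z))))))))))) (n 0 (n 0 z (n 0 z (n 0 z (n 0 z (n
 0 z (n 0 z (n 0 z (n 0 z (n 0 (n 8664939 z (n 6424699 z z)) (n 0 z (n 0 z z))))))))))) (n 0 (n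
 0 z (n 0 z (n 0 z (n 0 z (n 0 z (n 0 z (n 0 z (n 0 z (n 0 z (n 0 z (n 0 z z))))))))))) (n 0 (n
 0 z (n 0 z (n 0 z (n 0 z (n 0 z (n 0 z (n 0 z (n 0 z (n 0 (n 8716827 z z) (n 0 z (n 0 z
 z))))))))))) (n 0 (n 0 z (n 0 z (n 0 z (n 0 z (n 0 z (n 0 z (n 0 z (n 0 z (n 0 z (n 0 z (n 0 z
 z))))))))))) (n 0 (n 0 z (n 0 z (n 0 z (n 0 z (n 0 z (n 0 z (n 0 z (n 0 z (n 0 z (n 0 z (n 0 z
 z))))))))))) (n 0 (n 0 z (n 0 z (n 0 z (n 0 z (n 0 z (n 0 z (n 0 z (n 0 z (n 0 (n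
 0x348107dcda731b8efb5991271ec5e7e78978e3710917ec93eaa24d23c8ca90798313520ae19a08240041 z (n
 0x348107dcda731b8efb5991271ec5e7e78978e3710917ec93eaa24d23c8ca90798313520ae19a08240041 z z)) (n
 0 z (n 0 z z))))))))))) z))))))))) (n 218 (n 0 (n 0 z (n 0 z (n 0 z (n 0 z (n 0 z (n 0 z (n 0 z
 (n 0 z (n 0 z (n 0 z (n 0 z z))))))))))) (n 0 (n 0 z (n 0 z (n 0 z (n 0 z (n 0 z (n 0 z (n 0 z
 (n 0 z (n 0 z (n 0 z (n 0 z z))))))))))) (n 0 (n 0 z (n 0 z (n 0 z (n 0 z (n 0 z (n 0 z (n 0 z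
 (n 0 (n 0x348317dcda731b8efb5991271ec5e7e78978e3710917ec93eaa24d23c8ca90798313520ae19a08240041
 z z) (n 0 (n
 0x2c8727f7a98866e837e8f7e7e8178797e8682807e817d7d7f7c817f77ab6c767c9470877e937f818373777f768181817f838382810049
 z (n 0x348317dcda731b8efb5991271ec5e7e78978e3710917ec93eaa24d23c8ca90798313520ae19a08240041 z
 z)) (n 0 z (n 0 z z))))))))))) (n 0 (n 0 z (n 0 z (n 0 z (n 0 (n 3213403 z z) (n 0 z (n 0 z (n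
 0 z (n 0 z (n 0 z (n 0 z (n 0 (n 3213403 z z) z))))))))))) (n 0 (n 0 (n 8656443 z (n 8656443 z
 z)) (n 0 z (n 0 z (n 0 (n 8800043 z (n 8656443 z z)) (n 0 (n 8656443 z (n 8800027 z z)) (n 0 z
 (n 0 z (n 0 (n 8656443 z (n 8656443 z z)) (n 0 (n 8656443 z (n 8656443 z z)) (n 0 z (n 0 (n
 8656443 z (n 8656443 z z)) z))))))))))) (n 0 (n 0 z (n 0 z (n 0 z (n 0 (n 8800043 z (n 8656443
 z z)) (n 0 z (n 0 z (n 0 z (n 0 (n 8656443 z (n 8656443 z z)) (n 0 (n 8656443 z (n 8656443 z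
 z)) (n 0 z (n 0 (n 8656443 z (n 8656443 z z)) z))))))))))) (n 0 (n 0 z (n 0 z (n 0 z (n 0 z (n
 0 z (n 0 z (n 0 z (n 0 z (n 0 z (n 0 z (n 0 z z))))))))))) (n 0 (n 0 z (n 0 z (n 0 z (n 0 z (n
 0 z (n 0 z (n 0 z (n 0 z (n 0 z (n 0 z (n 0 z z))))))))))) (n 0 (n 0 z (n 0 z (n 0 z (n 0 z (n
 0 z (n 0 z (n 0 z (n 0 z (n 0 z (n 0 z (n 0 z z))))))))))) (n 0 (n 0 z (n 0 z (n 0 (n
 0x2c8707f7a98866e837e8f7e7e8178797e8682807e817d7d7f7c817f77ab6c767c9470877e937f818373777f768181817f838382810049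
 z z) (n 0 z (n 0 z (n 0 z (n 0 z (n 0 z (n 0 z (n 0 z (n 0 z z))))))))))) (n 0 (n 0 z (n 0 z (n
 0 z (n 0 z (n 0 z (n 0 z (n 0 z (n 0 z (n 0 (n 8848923 z (n 8848923 z z)) (n 0 z (n 0 z
 z))))))))))) (n 0 (n 0 z (n 0 z (n 0 z (n 0 z (n 0 z (n 0 z (n 0 z (n 0 z (n 0 z (n 0 z (n 0 z
 z))))))))))) (n 0 (n 0 z (n 0 z (n 0 z (n 0 z (n 0 z (n 0 z (n 0 z (n 0 z (n 0 (n
 0x348767dcda731b8efb5991271ec5e7e78978e3710917ec93eaa24d23c8ca90798313520ae19a08240041 z z) (n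
 0 z (n 0 z z))))))))))) (n 0 (n 0 z (n 0 z (n 0 z (n 0 z (n 0 z (n 0 z (n 0 z (n 0 z (n 0 (n
 0x10ed0ec40785f8608607a18208607e18208208a08607e081f82086182082081f8208208208207df8208200801 z
 (n 8664939 z z)) (n 0 z (n 0 z z))))))))))) (n 0 (n 0 z (n 0 z (n 0 z (n 0 z (n 0 z (n 0 z (n 0
 z (n 0 z (n 0 z (n 0 z (n 0 z z))))))))))) (n 0 (n 0 z (n 0 z (n 0 z (n 0 z (n 0 z (n 0 z (n 0
 z (n 0 z (n 0 (n 7473211 z (n 6494299 z z)) (n 0 z (n 0 z z))))))))))) (n 0 (n 0 z (n 0 z (n 0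
 z (n 0 (n 8721931 z z) (n 0 z (n 0 z (n 0 z (n 0 z (n 0 z (n 0 z (n 0 (n 8721931 z z)
 z))))))))))) (n 0 (n 0 z (n 0 z (n 0 z (n 0 (n 3213403 z z) (n 0 z (n 0 z (n 0 z (n 0 z (n 0 (n
 8848923 z (n 8848923 z z)) (n 0 z (n 0 (n 3213403 z z) z))))))))))) (n 0 (n 0 z (n 0 z (n 0 z
 (n 0 (n 8656443 z (n 8800043 z z)) (n 0 z (n 0 z (n 0 z (n 0 z (n 0 (n 8656443 z (n 8656443 z
 z)) (n 0 z (n 0 (n 8656443 z (n 8656443 z z)) z))))))))))) (n 0 (n 0 z (n 0 z (n 0 z (n 0 z (n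
 0 z (n 0 z (n 0 z (n 0 z (n 0 (n 8873011 z z) (n 0 z (n 0 z z))))))))))) (n 0 (n 0 z (n 0 z (n
 0 z (n 0 z (n 0 z (n 0 z (n 0 z (n 0 z (n 0 (n 8873011 z z) (n 0 z (n 0 z z))))))))))) (n 0 (n
 0 z (n 0 z (n 0 (n 3283019 z z) (n 0 z (n 0 z (n 0 z (n 0 z (n 0 z (n 0 (n 8873011 z (n 8873011
 z z)) (n 0 z (n 0 z z))))))))))) (n 0 (n 0 z (n 0 z (n 0 z (n 0 z (n 0 z (n 0 z (n 0 z (n 0 z
 (n 0 z (n 0 z (n 0 z z))))))))))) (n 0 (n 0 z (n 0 z (n 0 z (n 0 z (n 0 z (n 0 z (n 0 z (n 0 z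
 (n 0 (n 8721931 z z) (n 0 z (n 0 z z))))))))))) (n 0 (n 0 z (n 0 z (n 0 z (n 0 z (n 0 z (n 0 z
 (n 0 z (n 0 z (n 0 (n
 0x348107dcda731b8efb5991271ec5e7e78978e3710917ec93eaa24d23c8ca90798313520ae19a08240041 z (n
 8664939 z z)) (n 0 z (n 0 z z))))))))))) (n 0 (n 0 z (n 0 z (n 0 (n 8721931 z (n 8721931 z z))
 (n 0 z (n 0 z (n 0 z (n 0 z (n 0 z (n 0 z (n 0 z (n 0 z z))))))))))) (n 0 (n 0 z (n 0 z (n 0 z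
 (n 0 z (n 0 z (n 0 z (n 0 z (n 0 z (n 0 (n
 0xdc8208091b1806d7a82928f71795e7f889d80628a7f7e7690717b7a90d364547ea0397d58b49e81894a878f8b898067847f907d7e0049
 z z) (n 0 z (n 0 z z))))))))))) (n 0 (n 0 z (n 0 z (n 0 z (n 0 (n 8721931 z (n 8721931 z z)) (n
 0 z (n 0 z (n 0 z (n 0 (n 8721931 z (n 8721931 z z)) (n 0 (n 8721931 z (n 8721931 z z)) (n 0 z
 (n 0 (n 8721931 z (n 8721931 z z)) z))))))))))) (n 0 (n 0 z (n 0 z (n 0 z (n 0 z (n 0 z (n 0 z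
 (n 0 z (n 0 z (n 0 z (n 0 z (n 0 z z))))))))))) (n 0 (n 0 z (n 0 z (n 0 z (n 0 z (n 0 z (n 0 z
 (n 0 z (n 0 z (n 0 (n 7735355 z (n
 0xc86381e8227e07a37e18608608607e081f81f8608208218208608207e17e182081e7e08208608210041 z z)) (n
 0 z (n 0 z z))))))))))) (n 0 (n 0 z (n 0 z (n 0 z (n 0 (n 8721931 z z) (n 0 z (n 0 z (n 0 z (n
 0 z (n 0 (n 8721931 z (n 8721931 z z)) (n 0 z (n 0 (n 8721931 z z) z))))))))))) (n 0 (n 0 z (n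
 0 z (n 0 z (n 0 z (n 0 z (n 0 z (n 0 z (n 0 z (n 0 z (n 0 z (n 0 z z))))))))))) (n 0 (n 0 z (n
 0 z (n 0 z (n 0 z (n 0 z (n 0 z (n 0 z (n 0 (n 8656443 z z) (n 0 (n 8873011 z (n 8873011 z z))
 (n 0 z (n 0 z z))))))))))) (n 0 (n 0 z (n 0 z (n 0 z (n 0 z (n 0 z (n 0 z (n 0 z (n 0 (n
 0x348767dcda731b8efb5991271ec5e7e78978e3710917ec93eaa24d23c8ca90798313520ae19a08240041 z z) (n
 0 (n 8873011 z (n 8873011 z z)) (n 0 z (n 0 z z))))))))))) (n 0 (n 0 z (n 0 z (n 0 (n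
 0xc87081e8227e07a37e18608608607e081f81f8608208218208608207e17e182081e7e08208608210041 z (n
 7542859 z z)) (n 0 z (n 0 z (n 0 z (n 0 z (n 0 z (n 0 z (n 0 z (n 0 z z))))))))))) (n 0 (n 0 z
 (n 0 z (n 0 z (n 0 z (n 0 z (n 0 z (n 0 z (n 0 z (n 0 z (n 0 z (n 0 z z))))))))))) (n 0 (n 0 (n
 8851555 z z) (n 0 z (n 0 z (n 0 z (n 0 (n 8851555 z z) (n 0 z (n 0 z (n 0 z (n 0 z (n 0 z (n 0
 z z))))))))))) (n 0 (n 0 z (n 0 z (n 0 z (n 0 z (n 0 z (n 0 z (n 0 z (n 0 z (n 0 z (n 0 z (n 0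
 z z))))))))))) (n 0 (n 0 z (n 0 z (n 0 z (n 0 z (n 0 z (n 0 z (n 0 z (n 0 z (n 0 z (n 0 z (n 0
 z z))))))))))) (n 0 (n 0 z (n 0 z (n 0 z (n 0 z (n 0 z (n 0 z (n 0 z (n 0 z (n 0 z (n 0 z (n 0
 z z))))))))))) (n 0 (n 0 z (n 0 z (n 0 z (n 0 z (n 0 z (n 0 z (n 0 z (n 0 (n
 0xc87681e8228607a17e18208608207e08208208608208208208608608208217e07e082085f8608200041 z z) (n 0
 (n 0x1c82081e8638a17e18208208207e076081f86081f7e081f8208208a18208237e07e181f85f8a08210041 z (n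
 0x1c82081e8638a17e18208208207e076081f86081f7e081f8208208a18208237e07e181f85f8a08210041 z z)) (n
 0 z (n 0 z z))))))))))) (n 0 (n 0 z (n 0 z (n 0 z (n 0 z (n 0 z (n 0 z (n 0 z (n 0 z (n 0 z (n
 0 z (n 0 z z))))))))))) (n 0 (n 0 z (n 0 z (n 0 z (n 0 z (n 0 z (n 0 z (n 0 z (n 0 z (n 0 (n
 7735355 z (n
 0x1482081e8638617e182082082082076081f86081f82081f8208608a181f7e27e07e082086085f7e10041 z z)) (n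
 0 z (n 0 z z))))))))))) (n 0 (n 0 z (n 0 z (n 0 z (n 0 z (n 0 z (n 0 z (n 0 z (n 0 z (n 0 (n
 2164859 z (n 2164859 z z)) (n 0 z (n 0 z z))))))))))) (n 0 (n 0 z (n 0 z (n 0 z (n 0 z (n 0 z
 (n 0 z (n 0 z (n 0 z (n 0 (n
 0xbc8737e6c507f8c6878617e87949daa7d5a7d8699838d877598807f674d9f9b5681e82ea62ea16aa7826965a1929373817f7c8e800049
 z (n
 0xdc8608091b1806d7a82928f71795e7f889d80628a7f7e7690717b7a90d364547ea0397d58b49e81894a878f8b898067847f907d7e0049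
 z z)) (n 0 z (n 0 z z))))))))))) (n 0 (n 0 z (n 0 z (n 0 z (n 0 z (n 0 z (n 0 z (n 0 z (n 0 z
 (n 0 (n 6424699 z (n 6424699 z z)) (n 0 z (n 0 z z))))))))))) (n 0 (n 0 z (n 0 z (n 0 z (n 0 z
 (n 0 z (n 0 z (n 0 z (n 0 (n
 0xc86381e8227e07a37e18608608607e081f81f8608208218208608207e17e182081e7e08208608210041 z (n
 7735355 z z)) (n 0 z (n 0 z (n 0 z z))))))))))) (n 0 (n 0 z (n 0 z (n 0 z (n 0 (n 3213403 z (n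
 7735371 z z)) (n 0 z (n 0 z (n 0 z (n 0 (n 3213403 z (n 3213403 z z)) (n 0 (n 7735371 z (n
 3213403 z z)) (n 0 z (n 0 (n 3213403 z (n 7735371 z z)) z))))))))))) (n 0 (n 0 z (n 0 z (n 0 z
 (n 0 z (n 0 z (n 0 z (n 0 z (n 0 z (n 0 z (n 0 z (n 0 z z)))))))))))
 z))))))))))))))))))))))))))))))))))))))))))))))))) (n 399 (n 0 (n 0 z (n 0 z (n 0 z (n 0 z (n 0
 z (n 0 z (n 0 z (n 0 z (n 0 z (n 0 z (n 0 z z))))))))))) (n 0 (n 0 z (n 0 z (n 0 z (n 0 z (n 0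
 z (n 0 z (n 0 z (n 0 z (n 0 z (n 0 z (n 0 z z))))))))))) (n 0 (n 0 z (n 0 z (n 0 z (n 0 z (n 0
 z (n 0 z (n 0 z (n 0 z (n 0 z (n 0 z (n 0 z z))))))))))) (n 0 (n 0 z (n 0 z (n 0 z (n 0 z (n 0
 z (n 0 z (n 0 z (n 0 z (n 0 z (n 0 z (n 0 z z))))))))))) (n 0 (n 0 z (n 0 z (n 0 z (n 0 z (n 0
 z (n 0 z (n 0 z (n 0 z (n 0 (n 8872771 z z) (n 0 z (n 0 z z))))))))))) (n 0 (n 0 z (n 0 z (n 0
 z (n 0 z (n 0 z (n 0 z (n 0 z (n 0 z (n 0 (n 8794131 z z) (n 0 z (n 0 z z))))))))))) (n 0 (n 0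
 (n 0x1487481e8228a17e082082182082076085f86081f7df81f8208208618208227e17e281f85f8a08200041 z (n
 0x2c8747f7a98866e837e8f7e7e8178797e8682807e817d7d7f7c817f77ab6c767c9470877e937f818373777f768181817f838382810049
 z z)) (n 0 z (n 0 z (n 0 (n 8800043 z (n 8873019 z z)) (n 0 (n
 0x2c8747f7a98866e837e8f7e7e8178797e8682807e817d7d7f7c817f77ab6c767c9470877e937f818373777f768181817f838382810049
 z (n 8800027 z z)) (n 0 z (n 0 z (n 0 (n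
 0x348317dcda731b8efb5991271ec5e7e78978e3710917ec93eaa24d23c8ca90798313520ae19a08240041 z (n
 0x348317dcda731b8efb5991271ec5e7e78978e3710917ec93eaa24d23c8ca90798313520ae19a08240041 z z)) (n
 0 (n 8873019 z (n 8873019 z z)) (n 0 z (n 0 (n 8873019 z (n 8873019 z z)) z))))))))))) (n 0 (n
 0 z (n 0 z (n 0 z (n 0 z (n 0 z (n 0 z (n 0 z (n 0 z (n 0 (n 8794131 z z) (n 0 z (n 0 z
 z))))))))))) z)))))))) (n 33 (n 0 (n 0 z (n 0 z (n 0 z (n 0 z (n 0 z (n 0 z (n 0 z (n 0 z (n 0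
 (n 8873019 z z) (n 0 z (n 0 z z))))))))))) (n 0 (n 0 z (n 0 z (n 0 z (n 0 z (n 0 z (n 0 z (n 0
 z (n 0 z (n 0 z (n 0 z (n 0 z z))))))))))) (n 0 (n 0 z (n 0 z (n 0 z (n 0 z (n 0 z (n 0 z (n 0
 z (n 0 z (n 0 (n 8790275 z z) (n 0 z (n 0 z z))))))))))) (n 0 (n 0 z (n 0 z (n 0 z (n 0 z (n 0
 z (n 0 z (n 0 z (n 0 z (n 0 z (n 0 z (n 0 z z))))))))))) (n 0 (n 0 z (n 0 z (n 0 z (n 0 z (n 0
 z (n 0 z (n 0 z (n 0 z (n 0 z (n 0 z (n 0 z z))))))))))) z))))) (n 171 (n 0 (n 0 z (n 0 z (n 0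
 z (n 0 z (n 0 z (n 0 z (n 0 z (n 0 z (n 0 z (n 0 z (n 0 z z))))))))))) (n 0 (n 0 z (n 0 z (n 0
 z (n 0 z (n 0 z (n 0 z (n 0 z (n 0 z (n 0 z (n 0 z (n 0 z z))))))))))) (n 0 (n 0 z (n 0 z (n 0
 z (n 0 z (n 0 z (n 0 z (n 0 z (n 0 z (n 0 z (n 0 z (n 0 z z))))))))))) (n 0 (n 0 z (n 0 z (n 0
 z (n 0 z (n 0 z (n 0 z (n 0 z (n 0 z (n 0 z (n 0 z (n 0 z z))))))))))) (n 0 (n 0 z (n 0 z (n 0
 z (n 0 z (n 0 z (n 0 z (n 0 z (n 0 z (n 0 z (n 0 z (n 0 z z))))))))))) z))))) (n 3 (n 0 (n 0 z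
 (n 0 z (n 0 z (n 0 z (n 0 z (n 0 z (n 0 z (n 0 z (n 0 z (n 0 z (n 0 z z))))))))))) (n 0 (n 0 z
 (n 0 z (n 0 z (n 0 z (n 0 z (n 0 z (n 0 z (n 0 z (n 0 (n
 0x30e90e84037a086086085f8208a07de82085f8607e07e27e082185f7e185f81f8608607e28217a181f8200801 z
 z) (n 0 z (n 0 z z))))))))))) (n 0 (n 0 z (n 0 z (n 0 z (n 0 z (n 0 z (n 0 z (n 0 z (n 0 z (n 0
 z (n 0 z (n 0 z z))))))))))) (n 0 (n 0 (n 8790275 z z) (n 0 z (n 0 z (n 0 z (n 0 z (n 0 z (n 0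
 z (n 0 (n 8790275 z z) (n 0 (n 8790275 z (n 8790275 z z)) (n 0 z (n 0 z z))))))))))) (n 0 (n 0
 z (n 0 z (n 0 z (n 0 z (n 0 z (n 0 z (n 0 z (n 0 z (n 0 (n 8794131 z (n 8794131 z z)) (n 0 z (n
 0 z z))))))))))) (n 0 (n 0 z (n 0 z (n 0 z (n 0 (n
 0x10a90a84037e17de82086082081f86082085f81f81f86185f8207df8208208218217e085f8208208608610801 z
 z) (n 0 (n
 0x2c8717f7a98866e837e8f7e7e8178797e8682807e817d7d7f7c817f77ab6c767c9470877e937f818373777f768181817f838382810049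
 z z) (n 0 z (n 0 z (n 0 z (n 0 z (n 0 z (n 0 (n
 0x10a90a84037e17de82086082081f86082085f81f81f86185f8207df8208208218217e085f8208208608610801 z
 z) z))))))))))) z)))))) (n 1 (n 0 (n 0 z (n 0 z (n 0 z (n 0 z (n 0 z (n 0 z (n 0 z (n 0 z (n 0
 z (n 0 z (n 0 z z))))))))))) (n 0 (n 0 z (n 0 z (n 0 z (n 0 z (n 0 z (n 0 z (n 0 z (n 0 z (n 0
 z (n 0 z (n 0 z z))))))))))) (n 0 (n 0 z (n 0 z (n 0 z (n 0 z (n 0 z (n 0 z (n 0 z (n 0 z (n 0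
 (n 0x4ea708640379c463ca371d6258ae91c42171c8a76e182a7262adcdb6a35a43665b395f8a195f6db85f91d0801
 z z) (n 0 z (n 0 z z))))))))))) (n 0 (n 0 z (n 0 z (n 0 z (n 0 z (n 0 z (n 0 z (n 0 z (n 0 z (n
 0 (n 8790275 z z) (n 0 z (n 0 z z))))))))))) (n 0 (n 0 z (n 0 z (n 0 z (n 0 z (n 0 z (n 0 z (n
 0 z (n 0 z (n 0 z (n 0 z (n 0 z z))))))))))) (n 0 (n 0 z (n 0 z (n 0 (n
 0x2c8707f7a98866e837e8f7e7e8178797e8682807e817d7d7f7c817f77ab6c767c9470877e937f818373777f768181817f838382810049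
 z z) (n 0 z (n 0 z (n 0 z (n 0 z (n 0 z (n 0 z (n 0 z (n 0 z z))))))))))) (n 0 (n 0 z (n 0 z (n
 0 z (n 0 z (n 0 z (n 0 z (n 0 z (n 0 z (n 0 z (n 0 z (n 0 z z))))))))))) (n 0 (n 0 z (n 0 z (n
 0 z (n 0 z (n 0 z (n 0 z (n 0 z (n 0 z (n 0 z (n 0 z (n 0 z z))))))))))) z)))))))) (n 0 (n 0 (n
 0 z (n 0 z (n 0 z (n 0 z (n 0 z (n 0 z (n 0 z (n 0 z (n 0 (n 8790275 z z) (n 0 z (n 0 z
 z))))))))))) (n 0 (n 0 z (n 0 z (n 0 z (n 0 (n 8800043 z z) (n 0 z (n 0 z (n 0 z (n 0 (n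
 0x30a6e864078208207e081f82082082082082082082082082081f8208208208208208208218607e08208200801 z
 z) (n 0 (n 8873011 z (n 8873011 z z)) (n 0 z (n 0 (n 8873019 z z) z))))))))))) (n 0 (n 0 z (n 0
 z (n 0 z (n 0 z (n 0 z (n 0 z (n 0 z (n 0 z (n 0 (n
 0x7c8737f72628088707b6c7f848d939a7e677e849081888579908080705f94916681c34d984b94729982716e948b8c7881807d89800049
 z (n
 0x10e708640782085f86082182181f82182082081f7df8618208218608217e08218607e085f8208208608200801 z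
 z)) (n 0 z (n 0 z z))))))))))) (n 0 (n 0 z (n 0 z (n 0 z (n 0 z (n 0 z (n 0 z (n 0 z (n 0 z (n
 0 z (n 0 z (n 0 z z))))))))))) (n 0 (n 0 z (n 0 z (n 0 z (n 0 z (n 0 z (n 0 z (n 0 z (n 0 z (n
 0 z (n 0 z (n 0 z z))))))))))) (n 0 (n 0 z (n 0 z (n 0 z (n 0 z (n 0 z (n 0 z (n 0 z (n 0 z (n
 0 (n
 0x2c8737f7a98866e837e8f7e7e8178797e8682807e817d7d7f7c817f77ab6c767c9470877e937f818373777f768181817f838382810049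
 z z) (n 0 z (n 0 z z))))))))))) (n 0 (n 0 z (n 0 z (n 0 z (n 0 z (n 0 z (n 0 z (n 0 z (n 0 z (n
 0 (n 0x348107dcda731b8efb5991271ec5e7e78978e3710917ec93eaa24d23c8ca90798313520ae19a08240041 z
 (n 0x348107dcda731b8efb5991271ec5e7e78978e3710917ec93eaa24d23c8ca90798313520ae19a08240041 z z))
 (n 0 z (n 0 z z))))))))))) (n 0 (n 0 z (n 0 z (n 0 z (n 0 (n 8868419 z (n 8868419 z z)) (n 0 z
 (n 0 z (n 0 z (n 0 z (n 0 (n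
 0x90e908240781788e7f7f7d7a876b858499737f5e89877c7a956f7d79977d789d729e5f917d7b837d83769d79618b85968d687c858e857d0809
 z (n
 0x10e90e84037e181e89f86086081f7e08608208208207e081f81f86082082181f8208208208207e08218200801 z
 z)) (n 0 z (n 0 (n 8868419 z (n 8868419 z z)) z))))))))))) (n 0 (n 0 z (n 0 z (n 0 z (n 0 z (n
 0 z (n 0 z (n 0 z (n 0 z (n 0 z (n 0 z (n 0 z z))))))))))) (n 0 (n 0 z (n 0 z (n 0 z (n 0 z (n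
 0 z (n 0 z (n 0 z (n 0 z (n 0 (n 8716827 z (n 8716827 z z)) (n 0 z (n 0 z z))))))))))) (n 0 (n
 0 z (n 0 z (n 0 z (n 0 (n 8800043 z (n 8873019 z z)) (n 0 z (n 0 z (n 0 z (n 0 (n 3213403 z (n
 3213403 z z)) (n 0 (n 8873019 z (n 8873019 z z)) (n 0 z (n 0 (n 8873019 z (n 8873019 z z))
 z))))))))))) z))))))))))) z))))))))))))))))))))) z)))) z)) z)))) (n
 0x2d45d15baa8593b41a5ab864ec4296a20dd53209d6882d3cb0752ac5491a1a59642946908e593011a58055500 (n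
 0xcb2751a5a (n 153 (n 2 z (n 0 z (n 10 z (n 6619931 z (n 3282443 z (n 18 z (n 0 z z))))))) (n
 33 (n 0 z (n 0 z (n 26 z (n 0 z (n 34 z (n 6496515 z z)))))) (n 9 (n 42 z (n 50 z (n 6496515 z
 (n 58 z z)))) (n 243 (n 66 z (n 0 z (n 74 z (n 6496515 z z)))) (n 1 (n 82 z (n 90 z (n 0 z (n
 2164299 z (n 0 z (n 0 z (n 0 z (n 0 z (n 98 z z))))))))) (n 0 (n 0 z (n 106 z (n 0 z (n 114 z
 (n 6623755 z (n 0 z (n 122 z (n 130 z (n 0 z (n 0 z (n 0 z z))))))))))) z)))))) (n 9 (n 0 (n 0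
 z (n 0 z (n 235 (n 0 z (n 0 z (n 0 z (n 0 z (n 0 z (n 0 z (n 0 z (n 0 z (n 0 z z))))))))) (n
 235 (n 0 z (n 0 z (n 0 z (n 0 z (n 0 z (n 0 z (n 2 (n 2 (n 0 z (n 0 z (n 0 (n 924 z z) (n 0 (n
 924 z (n 8660843 z z)) (n 0 z (n 0 z z)))))) (n 1 z (n 2 (n 0 z (n 0 z (n 0 z (n 0 z (n 0 z (n
 0 z z)))))) (n 2 (n 0 z (n 0 z (n 0 (n 8873003 z z) (n 0 (n 8873003 z (n 8873003 z z)) (n 0 z
 (n 0 z z)))))) (n 2 (n 0 z (n 0 z (n 0 (n 8872995 z z) (n 0 (n 8872995 z (n 8872995 z z)) (n 0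
 z (n 0 z z)))))) (n 2 (n 0 (n 253 z z) (n 0 z (n 0 z (n 0 (n 1212 z (n 1212 z z)) (n 0 z (n 0
 (n 1212 z z) z)))))) (n 2 (n 0 z (n 0 z (n 0 (n 1212 z z) (n 0 (n 1212 z (n 8660843 z z)) (n 0
 z (n 0 z z)))))) (n 2 (n 0 z (n 0 z (n 0 z (n 0 z (n 0 z (n 0 z z)))))) (n 2 (n 0 z (n 0 z (n 0
 z (n 0 z (n 0 z (n 0 z z)))))) (n 2 (n 0 z (n 0 z (n 0 (n 8872995 z z) (n 0 (n 8872995 z (n
 8872995 z z)) (n 0 z (n 0 z z)))))) (n 2 (n 0 (n 261 z z) (n 0 z (n 0 z (n 0 (n 1204 z (n 1204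
 z z)) (n 0 z (n 0 (n 1204 z z) z)))))) (n 2 (n 0 z (n 0 z (n 0 (n 8872995 z z) (n 0 (n 8872995
 z (n 8872995 z z)) (n 0 z (n 0 z z)))))) z)))))))))))) (n 0 z (n 0 z z))))))))) (n 231 (n 0 z
 (n 0 z (n 0 z (n 0 z (n 0 z (n 0 z (n 0 z (n 0 z (n 0 z (n 0 z (n 0 z z))))))))))) (n 231 (n 0
 z (n 0 z (n 0 z (n 0 z (n 0 z (n 0 z (n 0 z (n 2 (n 0 z (n 1 z (n 2 (n 0 z (n 0 z (n 0 (n 932 z
 z) (n 0 (n 932 z (n 932 z z)) (n 0 z (n 0 (n 932 z z) z)))))) (n 2 (n 0 z (n 0 z (n 0 z (n 0 (n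
 3213435 z (n 3213435 z z)) (n 0 z (n 0 (n 3213435 z z) z)))))) (n 1 z (n 2 (n 0 z (n 0 (n
 6498379 z z) (n 0 z (n 0 (n 7538779 z (n 7755803 z z)) (n 0 (n 397 z z) (n 0 z z)))))) (n 1 z
 (n 2 (n 0 z (n 0 z (n 0 (n 1204 z z) (n 0 (n 1204 z (n 1204 z z)) (n 0 z (n 0 (n 1204 z z)
 z)))))) (n 2 (n 0 z (n 0 z (n 0 z (n 0 (n 3213435 z (n 3213435 z z)) (n 0 z (n 0 (n 3213435 z
 z) z)))))) (n 1 z z)))))))))) (n 0 z (n 0 z (n 0 z z))))))))))) (n 231 (n 0 z (n 0 z (n 0 z (n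
 0 z (n 0 z (n 0 z (n 0 z (n 0 z (n 0 z (n 0 z (n 2 (n 2 (n 0 (n 932 z z) (n 0 (n 932 z z) (n 0
 z (n 0 (n 932 z (n 8587099 z z)) (n 0 z (n 0 z z)))))) (n 2 (n 0 z (n 0 (n 8872515 z z) (n 0 z
 (n 0 (n 8872515 z (n 8872515 z z)) (n 0 (n 8872515 z z) (n 0 z z)))))) (n 2 (n 0 z (n 0 z (n 0
 z (n 0 z (n 0 z (n 0 z z)))))) (n 2 (n 0 z (n 0 (n 1212 z z) (n 0 z (n 0 (n 8587099 z (n
 8804155 z z)) (n 0 (n 1212 z z) (n 0 z z)))))) (n 2 (n 0 z (n 0 z (n 0 z (n 0 (n 8868915 z (n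
 8868915 z z)) (n 0 (n 8868915 z z) (n 0 (n 8868915 z z) z)))))) (n 2 (n 0 (n 1204 z z) (n 0 z
 (n 0 z (n 0 (n 1204 z (n 8804155 z z)) (n 0 (n 1204 z z) (n 0 z z)))))) (n 2 (n 0 z (n 0 (n
 8868915 z z) (n 0 z (n 0 (n 8868915 z (n 8868915 z z)) (n 0 (n 8868915 z z) (n 0 z z)))))) (n 2
 (n 0 z (n 0 z (n 0 z (n 0 z (n 0 z (n 0 z z)))))) (n 2 (n 0 (n 1204 z z) (n 0 (n 1204 z z) (n 0
 z (n 0 (n 1204 z (n 1204 z z)) (n 0 z (n 0 z z)))))) z))))))))) z))))))))))) (n 233 (n 0 z (n 0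
 z (n 0 z (n 0 z (n 0 z (n 0 z z)))))) (n 233 (n 0 z (n 0 z (n 0 z (n 0 z (n 2 (n 2 (n 0 (n 2125
 z z) (n 0 z (n 0 (n 1212 z z) (n 0 (n 1212 z (n 8804155 z z)) (n 0 z (n 0 z z)))))) (n 2 (n 0 z
 (n 0 z (n 0 (n 1212 z z) (n 0 (n 7743515 z (n 1212 z z)) (n 0 z (n 0 (n 1212 z z) z)))))) (n 2
 (n 0 z (n 0 (n 8872995 z z) (n 0 z (n 0 (n 8872995 z (n 8872995 z z)) (n 0 (n 8872995 z z) (n 0
 z z)))))) (n 2 (n 0 z (n 0 z (n 0 z (n 0 z (n 0 z (n 0 z z)))))) (n 2 (n 0 (n 8872995 z z) (n 0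
 z (n 0 z (n 0 (n 8872995 z (n 8872995 z z)) (n 0 z (n 0 (n 8872995 z z) z)))))) (n 2 (n 0 (n
 2117 z z) (n 0 z (n 0 (n 1204 z z) (n 0 (n 1204 z (n 7751707 z z)) (n 0 z (n 0 z z)))))) (n 2
 (n 0 z (n 0 z (n 0 (n 8872995 z z) (n 0 (n 8872995 z (n 8872995 z z)) (n 0 z (n 0 (n 8872995 z
 z) z)))))) z))))))) (n 0 z z)))))) (n 303 (n 2 (n 0 z (n 0 z (n 2 (n 0 z (n 0 z (n 0 z (n 0 (n
 1204 z (n 1204 z z)) (n 0 z (n 0 (n 1204 z z) z)))))) (n 2 (n 0 (n 6490203 z z) (n 0 z (n 0 z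
 (n 0 (n 7612523 z (n 1204 z z)) (n 0 (n 5 z z) (n 0 z z)))))) (n 2 (n 0 z (n 0 z (n 0 z (n 0 z
 (n 0 z (n 0 z z)))))) (n 2 (n 0 z (n 0 z (n 0 z (n 0 z (n 0 z (n 0 z z)))))) z)))))) (n 0 z (n
 0 z (n 0 z (n 0 z (n 0 z z)))))) (n 303 (n 0 z (n 0 z (n 0 z (n 0 z (n 0 z (n 0 z z)))))) (n
 303 (n 0 z (n 0 z (n 0 z (n 0 z (n 0 z (n 2 (n 2 (n 0 (n 1204 z z) (n 0 z (n 0 z (n 0 (n
 8595275 z (n 8804155 z z)) (n 0 (n 1204 z z) (n 0 z z)))))) (n 2 (n 0 z (n 0 (n 8872995 z z) (n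
 0 z (n 0 (n 8872995 z (n 8872995 z z)) (n 0 (n 8872995 z z) (n 0 z z)))))) (n 2 (n 0 z (n 0 z
 (n 0 z (n 0 z (n 0 z (n 0 z z)))))) (n 2 (n 0 (n 8872995 z z) (n 0 (n 8872995 z z) (n 0 z (n 0
 (n 8872995 z (n 8872995 z z)) (n 0 z (n 0 z z)))))) z)))) z)))))) (n 301 (n 0 z (n 0 z (n 0 z
 (n 0 z (n 0 z (n 0 z (n 0 z z))))))) (n 301 (n 2 (n 0 z (n 0 z z)) (n 0 z (n 0 z (n 0 z (n 0 z
 (n 0 z (n 0 z z))))))) (n 301 (n 0 z (n 0 z (n 0 z (n 0 z (n 2 (n 0 z z) (n 0 z (n 0 z z)))))))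
 (n 301 (n 0 z (n 0 z (n 0 z (n 0 z (n 0 z (n 0 z (n 0 z z))))))) z)))))))))))))))) (n 0 (n 0 z
 (n 167 (n 0 z (n 0 z (n 0 z (n 0 z (n 0 z (n 0 z (n 0 z (n 0 z (n 0 z z))))))))) (n 167 (n 0 z
 (n 0 z (n 0 z (n 0 z (n 0 z (n 0 z (n 0 z (n 0 z (n 2 (n 2 (n 0 z (n 0 z (n 0 z (n 0 z (n 0 z
 (n 0 z z)))))) (n 2 (n 0 z (n 0 z (n 0 z (n 0 z (n 0 z (n 0 z z)))))) (n 2 (n 0 z (n 0 z (n 0 z
 (n 0 z (n 0 z (n 0 z z)))))) (n 2 (n 0 z (n 0 z (n 0 z (n 0 z (n 0 z (n 0 z z)))))) (n 2 (n 0 z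
 (n 0 z (n 0 z (n 0 z (n 0 z (n 0 z z)))))) (n 2 (n 0 z (n 0 z (n 0 z (n 0 z (n 0 z (n 0 z
 z)))))) (n 2 (n 0 z (n 0 z (n 0 z (n 0 z (n 0 z (n 0 z z)))))) (n 2 (n 0 z (n 0 z (n 0 z (n 0 z
 (n 0 z (n 0 z z)))))) (n 2 (n 0 z (n 0 z (n 0 z (n 0 z (n 0 z (n 0 z z)))))) (n 2 (n 0 z (n 0 z
 (n 0 z (n 0 z (n 0 z (n 0 z z)))))) (n 2 (n 0 z (n 0 z (n 0 z (n 0 z (n 0 z (n 0 z z)))))) (n 2
 (n 0 z (n 0 z (n 0 z (n 0 z (n 0 z (n 0 z z)))))) z)))))))))))) z))))))))) (n 183 (n 0 z (n 0 z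
 (n 0 z (n 0 z (n 0 z (n 0 z (n 0 z (n 0 z z)))))))) (n 183 (n 0 z (n 0 z (n 0 z (n 0 z (n 0 z
 (n 0 z (n 0 z (n 0 z z)))))))) (n 183 (n 0 z (n 0 z (n 0 z (n 0 z (n 0 z (n 0 z (n 0 z (n 2 (n
 2 (n 0 z (n 0 z (n 0 z (n 0 z (n 0 z (n 0 z z)))))) (n 2 (n 0 z (n 0 z (n 0 z (n 0 z (n 0 z (n
 0 z z)))))) (n 2 (n 0 z (n 0 z (n 0 z (n 0 z (n 0 z (n 0 z z)))))) (n 2 (n 0 z (n 0 z (n 0 z (n
 0 z (n 0 z (n 0 z z)))))) (n 2 (n 0 z (n 0 z (n 0 z (n 0 z (n 0 z (n 0 z z)))))) (n 2 (n 0 z (n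
 0 z (n 0 z (n 0 z (n 0 z (n 0 z z)))))) (n 2 (n 0 z (n 0 z (n 0 z (n 0 z (n 0 z (n 0 z z))))))
 (n 2 (n 0 z (n 0 z (n 0 z (n 0 z (n 0 z (n 0 z z)))))) (n 2 (n 0 z (n 0 z (n 0 z (n 0 z (n 0 z
 (n 0 z z)))))) z))))))))) z)))))))) (n 165 (n 0 z (n 0 z (n 0 z (n 0 z (n 0 z (n 0 z (n 0 z
 z))))))) (n 165 (n 0 z (n 0 z (n 0 z (n 2 (n 2 (n 0 z (n 0 z (n 0 z (n 0 z (n 0 z (n 0 z
 z)))))) (n 2 (n 0 z (n 0 z (n 0 z (n 0 z (n 0 z (n 0 z z)))))) (n 2 (n 0 z (n 0 z (n 0 z (n 0 z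
 (n 0 z (n 0 z z)))))) (n 2 (n 0 z (n 0 z (n 0 z (n 0 z (n 0 z (n 0 z z)))))) (n 2 (n 0 z (n 0 z
 (n 0 z (n 0 z (n 0 z (n 0 z z)))))) (n 2 (n 0 z (n 0 z (n 0 z (n 0 z (n 0 z (n 0 z z)))))) (n 2
 (n 0 z (n 0 z (n 0 z (n 0 z (n 0 z (n 0 z z)))))) z))))))) (n 0 z (n 0 z (n 0 z z))))))) (n 531
 (n 0 z (n 0 z (n 0 z (n 0 z (n 0 z (n 0 z (n 0 z z))))))) (n 531 (n 0 z (n 0 z (n 0 z (n 0 z (n
 0 z (n 0 z (n 0 z z))))))) (n 531 (n 0 z (n 0 z (n 0 z (n 0 z (n 0 z (n 0 z (n 2 (n 2 (n 0 z (n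
 0 z (n 0 z (n 0 z (n 0 z (n 0 z z)))))) (n 2 (n 0 z (n 0 z (n 0 z (n 0 z (n 0 z (n 0 z z))))))
 (n 2 (n 0 z (n 0 z (n 0 z (n 0 z (n 0 z (n 0 z z)))))) (n 2 (n 0 z (n 0 z (n 0 z (n 0 z (n 0 z
 (n 0 z z)))))) z)))) z))))))) (n 73 (n 0 z (n 0 z (n 0 z (n 0 z (n 0 z (n 0 z (n 0 z (n 0 z
 z)))))))) (n 73 (n 0 z (n 0 z (n 0 z (n 0 z (n 0 z (n 2 (n 0 z (n 0 z z)) (n 0 z (n 0 z
 z)))))))) (n 73 (n 0 z (n 0 z (n 0 z (n 0 z (n 0 z (n 0 z (n 0 z (n 0 z z)))))))) (n 73 (n 0 z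
 (n 0 z (n 0 z (n 0 z (n 0 z (n 0 z (n 0 z (n 0 z z)))))))) z))))))))))))))) (n 0 (n 1067 (n 0 z
 (n 0 z (n 0 z (n 0 z (n 0 z (n 0 z (n 0 z (n 0 z (n 0 z (n 0 z (n 0 z (n 0 z (n 0 z (n 0 z (n 2
 (n 0 z (n 2 (n 0 z (n 0 z (n 0 z (n 0 z (n 0 z (n 0 z z)))))) (n 2 (n 0 z (n 0 z (n 0 z (n 0 z
 (n 0 z (n 0 z z)))))) (n 2 (n 0 z (n 0 z (n 0 z (n 0 z (n 0 z (n 0 z z)))))) (n 1 z (n 2 (n 0 z
 (n 0 z (n 0 z (n 0 z (n 0 z (n 0 z z)))))) (n 2 (n 0 z (n 0 z (n 0 z (n 0 z (n 0 z (n 0 z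
 z)))))) (n 2 (n 0 z (n 0 z (n 0 z (n 0 z (n 0 z (n 0 z z)))))) (n 2 (n 0 z (n 0 z (n 0 z (n 0 z
 (n 0 z (n 0 z z)))))) (n 2 (n 0 z (n 0 z (n 0 z (n 0 z (n 0 z (n 0 z z)))))) (n 2 (n 0 z (n 0 z
 (n 0 z (n 0 z (n 0 z (n 0 z z)))))) (n 2 (n 0 z (n 0 z (n 0 z (n 0 z (n 0 z (n 0 z z)))))) (n 2
 (n 0 z (n 0 z (n 0 z (n 0 z (n 0 z (n 0 z z)))))) z))))))))))))) (n 0 z z)))))))))))))))) (n
 1067 (n 0 z (n 0 z (n 0 z (n 0 z (n 0 z (n 0 z (n 0 z (n 0 z (n 0 z (n 0 z (n 0 z (n 0 z (n 0 z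
 (n 0 z (n 0 z (n 0 z z)))))))))))))))) (n 155 (n 0 z (n 0 z (n 0 z (n 0 z (n 0 z (n 0 z (n 0 z
 (n 0 z (n 0 z (n 0 z (n 0 z (n 0 z (n 2 (n 0 z (n 0 z (n 2 (n 0 z (n 0 z (n 0 z (n 0 (n 4262011
 z z) (n 0 z (n 0 z z)))))) (n 2 (n 0 z (n 0 z (n 0 z (n 0 z (n 0 z (n 0 z z)))))) (n 2 (n 0 z
 (n 0 z (n 0 z (n 0 z (n 0 z (n 0 z z)))))) (n 2 (n 0 z (n 0 z (n 0 z (n 0 z (n 0 z (n 0 z
 z)))))) (n 2 (n 0 z (n 0 z (n 0 z (n 0 z (n 0 z (n 0 z z)))))) (n 2 (n 0 z (n 0 z (n 0 z (n 0 z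
 (n 0 z (n 0 z z)))))) (n 2 (n 0 z (n 0 z (n 0 z (n 0 z (n 0 z (n 0 z z)))))) (n 2 (n 0 z (n 0 z
 (n 0 z (n 0 z (n 0 z (n 0 z z)))))) (n 2 (n 0 z (n 0 z (n 0 z (n 0 z (n 0 z (n 0 z z))))))
 z))))))))))) (n 0 z (n 0 z z))))))))))))))) (n 155 (n 0 z (n 0 z (n 2 (n 0 z (n 2 (n 0 z (n 0 z
 (n 0 z (n 0 z (n 0 z (n 0 z z)))))) (n 2 (n 0 z (n 0 z (n 0 z (n 0 (n 8794451 z z) (n 0 z (n 0
 z z)))))) (n 2 (n 0 z (n 0 z (n 0 z (n 0 z (n 0 z (n 0 z z)))))) (n 2 (n 0 z (n 0 z (n 0 z (n 0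
 z (n 0 z (n 0 z z)))))) (n 2 (n 0 z (n 0 z (n 0 z (n 0 (n 8803379 z z) (n 0 z (n 0 z z)))))) (n
 2 (n 0 z (n 0 z (n 0 z (n 0 z (n 0 z (n 0 z z)))))) (n 2 (n 0 z (n 0 z (n 0 z (n 0 (n 8803379 z
 z) (n 0 z (n 0 z z)))))) (n 2 (n 0 z (n 0 z (n 0 z (n 0 z (n 0 z (n 0 z z)))))) (n 2 (n 0 z (n
 0 z (n 0 z (n 0 z (n 0 z (n 0 z z)))))) z)))))))))) (n 0 z (n 0 z (n 0 z (n 0 z (n 0 z (n 0 z
 (n 0 z (n 0 z (n 0 z (n 0 z (n 0 z (n 0 z z))))))))))))))) (n 155 (n 0 z (n 0 z (n 0 z (n 0 z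
 (n 0 z (n 0 z (n 0 z (n 0 z (n 0 z (n 0 z (n 0 z (n 0 z (n 0 z (n 0 z (n 0 z z)))))))))))))))
 (n 535 (n 0 z (n 2 (n 0 z (n 2 (n 0 z (n 0 z (n 0 z (n 0 (n 2124 z z) (n 0 z (n 0 z z)))))) (n
 2 (n 0 z (n 0 z (n 0 z (n 0 (n 8851491 z z) (n 0 z (n 0 z z)))))) (n 2 (n 0 z (n 0 z (n 0 z (n
 0 z (n 0 z (n 0 z z)))))) (n 2 (n 0 z (n 0 z (n 0 z (n 0 (n 8851491 z z) (n 0 z (n 0 z z))))))
 (n 2 (n 0 z (n 0 z (n 0 z (n 0 z (n 0 z (n 0 z z)))))) (n 2 (n 0 z (n 0 z (n 0 z (n 0 z (n 0 z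
 (n 0 z z)))))) (n 2 (n 0 z (n 0 z (n 0 z (n 0 z (n 0 z (n 0 z z)))))) z)))))))) (n 0 z (n 0 z
 (n 0 z (n 0 z (n 0 z (n 0 z (n 0 z z))))))))) (n 535 (n 0 z (n 0 z (n 0 z (n 0 z (n 0 z (n 0 z
 (n 0 z (n 0 z (n 0 z z))))))))) (n 531 (n 0 z (n 2 (n 0 z (n 0 z (n 2 (n 0 z (n 0 z (n 0 z (n 0
 z (n 0 z (n 0 z z)))))) (n 2 (n 0 z (n 0 z (n 0 z (n 0 (n 8803379 z z) (n 0 z (n 0 z z)))))) (n
 2 (n 0 z (n 0 z (n 0 z (n 0 z (n 0 z (n 0 z z)))))) (n 2 (n 0 z (n 0 z (n 0 z (n 0 z (n 0 z (n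
 0 z z)))))) z)))))) (n 0 z (n 0 z (n 0 z (n 0 z (n 0 z z))))))) (n 531 (n 0 z (n 0 z (n 2 (n 0
 z (n 2 (n 0 z (n 0 z (n 0 z (n 0 z (n 0 z (n 0 z z)))))) (n 2 (n 0 z (n 0 z (n 0 z (n 0 z (n 0
 z (n 0 z z)))))) (n 2 (n 0 z (n 0 z (n 0 z (n 0 z (n 0 z (n 0 z z)))))) (n 2 (n 0 z (n 0 z (n 0
 z (n 0 z (n 0 z (n 0 z z)))))) z))))) (n 0 z (n 0 z (n 0 z (n 0 z z))))))) (n 531 (n 0 z (n 0 z
 (n 0 z (n 0 z (n 0 z (n 0 z (n 0 z z))))))) (n 533 (n 0 z (n 0 z (n 0 z (n 2 (n 0 z (n 0 z (n 0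
 z z))) (n 0 z (n 0 z (n 0 z (n 0 z (n 0 z (n 0 z z)))))))))) (n 533 (n 0 z (n 0 z (n 0 z (n 0 z
 (n 0 z (n 0 z (n 0 z (n 0 z (n 0 z (n 0 z z)))))))))) (n 533 (n 0 z (n 2 (n 0 z z) (n 0 z (n 0
 z (n 0 z (n 0 z (n 0 z (n 0 z (n 0 z (n 0 z z)))))))))) (n 533 (n 0 z (n 0 z (n 0 z (n 0 z (n 0
 z (n 0 z (n 0 z (n 2 z (n 0 z (n 0 z z)))))))))) z)))))))))))))) (n 0 (n 0 z (n 423 (n 0 z (n 0
 z (n 0 z (n 0 z (n 0 z (n 0 z (n 0 z z))))))) (n 423 (n 0 z (n 0 z (n 0 z (n 2 (n 0 z (n 1 z (n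
 1 z (n 1 z (n 1 z (n 2 (n 0 z (n 0 z (n 0 z (n 0 (n 8718187 z z) (n 0 z (n 0 z z)))))) (n 1 z
 (n 1 z (n 1 z (n 1 z z)))))))))) (n 0 z (n 0 z (n 0 z z))))))) (n 423 (n 0 z (n 0 z (n 0 z (n 0
 z (n 0 z (n 0 z (n 2 (n 2 (n 0 z (n 0 z (n 0 z (n 0 z (n 0 z (n 0 z z)))))) (n 2 (n 0 z (n 0 z
 (n 0 z (n 0 z (n 0 z (n 0 z z)))))) (n 2 (n 0 z (n 0 z (n 0 z (n 0 z (n 0 z (n 0 z z)))))) (n 2
 (n 0 z (n 0 z (n 0 z (n 0 z (n 0 z (n 0 z z)))))) (n 2 (n 0 z (n 0 z (n 0 z (n 0 z (n 0 z (n 0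
 z z)))))) (n 2 (n 0 z (n 0 z (n 0 z (n 0 z (n 0 z (n 0 z z)))))) (n 2 (n 0 z (n 0 z (n 0 z (n 0
 z (n 0 z (n 0 z z)))))) (n 2 (n 0 z (n 0 z (n 0 z (n 0 z (n 0 z (n 0 z z)))))) (n 2 (n 0 z (n 0
 z (n 0 z (n 0 z (n 0 z (n 0 z z)))))) z))))))))) z))))))) (n 315 (n 0 z (n 0 z (n 0 z (n 0 z (n
 0 z (n 0 z (n 0 z (n 0 z (n 0 z (n 0 z (n 0 z (n 0 z (n 0 z (n 0 z (n 0 z (n 0 z
 z)))))))))))))))) (n 315 (n 0 z (n 0 z (n 0 z (n 0 z (n 0 z (n 0 z (n 0 z (n 0 z (n 0 z (n 0 z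
 (n 0 z (n 0 z (n 2 (n 2 (n 0 z (n 0 z (n 0 z (n 0 z (n 0 z (n 0 z z)))))) (n 2 (n 0 z (n 0 z (n
 0 z (n 0 (n 8785955 z z) (n 0 z (n 0 z z)))))) (n 2 (n 0 z (n 0 z (n 0 z (n 0 z (n 0 z (n 0 z
 z)))))) (n 2 (n 0 z (n 0 z (n 0 z (n 0 (n 8785955 z z) (n 0 z (n 0 z z)))))) (n 2 (n 0 z (n 0 z
 (n 0 z (n 0 z (n 0 z (n 0 z z)))))) (n 2 (n 0 z (n 0 z (n 0 z (n 0 z (n 0 z (n 0 z z)))))) (n 2
 (n 0 z (n 0 z (n 0 z (n 0 z (n 0 z (n 0 z z)))))) z))))))) (n 0 z (n 0 z (n 0 z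
 z)))))))))))))))) (n 483 (n 0 z (n 0 z (n 2 (n 0 z (n 0 z (n 1 z (n 1 z (n 1 z (n 1 z z))))))
 (n 0 z (n 0 z (n 0 z (n 0 z (n 0 z (n 0 z (n 0 z (n 0 z (n 0 z (n 0 z (n 0 z z)))))))))))))) (n
 483 (n 0 z (n 0 z (n 0 z (n 0 z (n 0 z (n 0 z (n 0 z (n 0 z (n 0 z (n 0 z (n 0 z (n 0 z (n 0 z
 (n 0 z z)))))))))))))) (n 483 (n 0 z (n 0 z (n 0 z (n 0 z (n 0 z (n 0 z (n 0 z (n 0 z (n 0 z (n
 0 z (n 0 z (n 0 z (n 0 z (n 2 (n 2 (n 0 z (n 0 z (n 0 z (n 0 z (n 0 z (n 0 z z)))))) (n 2 (n 0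
 z (n 0 z (n 0 z (n 0 z (n 0 z (n 0 z z)))))) (n 2 (n 0 z (n 0 z (n 0 z (n 0 z (n 0 z (n 0 z
 z)))))) (n 2 (n 0 z (n 0 z (n 0 z (n 0 z (n 0 z (n 0 z z)))))) z)))) z)))))))))))))) (n 533 (n
 0 z (n 0 z (n 0 z (n 0 z (n 0 z (n 0 z (n 0 z z))))))) (n 533 (n 0 z (n 0 z (n 0 z (n 0 z (n 0
 z (n 2 (n 0 z (n 0 z z)) (n 0 z z))))))) (n 533 (n 0 z (n 2 (n 0 z z) (n 0 z (n 0 z (n 0 z (n 0
 z (n 0 z z))))))) (n 533 (n 0 z (n 0 z (n 0 z (n 0 z (n 0 z (n 0 z (n 0 z z)))))))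
 z))))))))))))) (n 0 (n 123 (n 2 (n 0 z (n 0 z (n 2 (n 0 z (n 0 z (n 0 z (n 0 z (n 0 z (n 0 z
 z)))))) (n 2 (n 0 z (n 0 z (n 0 z (n 0 z (n 0 z (n 0 z z)))))) (n 2 (n 0 z (n 0 z (n 0 z (n 0 z
 (n 0 z (n 0 z z)))))) (n 2 (n 0 z (n 0 z (n 0 z (n 0 z (n 0 z (n 0 z z)))))) (n 2 (n 0 z (n 0 z
 (n 0 z (n 0 z (n 0 z (n 0 z z)))))) (n 2 (n 0 z (n 0 z (n 0 z (n 0 z (n 0 z (n 0 z z)))))) (n 2
 (n 0 z (n 0 z (n 0 z (n 0 z (n 0 z (n 0 z z)))))) (n 2 (n 0 z (n 0 z (n 0 z (n 0 z (n 0 z (n 0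
 z z)))))) (n 2 (n 0 z (n 0 z (n 0 z (n 0 z (n 0 z (n 0 z z)))))) z))))))))))) (n 0 z (n 0 z (n
 0 z (n 0 z (n 0 z (n 0 z (n 0 z z)))))))) (n 123 (n 0 z (n 0 z (n 2 (n 0 z (n 2 (n 0 z (n 0 z
 (n 0 z (n 0 z (n 0 z (n 0 z z)))))) (n 1 z (n 2 (n 0 z (n 0 z (n 0 z (n 0 (n 3213435 z z) (n 0
 z (n 0 z z)))))) (n 2 (n 0 z (n 0 z (n 0 z (n 0 (n 252 z z) (n 0 z (n 0 z z)))))) (n 1 z (n 2
 (n 0 z (n 0 z (n 0 z (n 0 z (n 0 z (n 0 z z)))))) (n 1 z (n 2 (n 0 z (n 0 z (n 0 z (n 0 (n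
 3213435 z z) (n 0 z (n 0 z z)))))) (n 2 (n 0 z (n 0 z (n 0 z (n 0 (n 260 z z) (n 0 z (n 0 z
 z)))))) z)))))))))) (n 0 z (n 0 z (n 0 z (n 0 z (n 0 z z)))))))) (n 123 (n 0 z (n 0 z (n 0 z (n
 0 z (n 0 z (n 0 z (n 0 z (n 0 z z)))))))) (n 507 (n 2 (n 0 z (n 2 (n 0 z (n 0 z (n 0 z (n 0 z
 (n 0 z (n 0 z z)))))) (n 2 (n 0 z (n 0 z (n 0 z (n 0 z (n 0 z (n 0 z z)))))) (n 2 (n 0 z (n 0 z
 (n 0 z (n 0 z (n 0 z (n 0 z z)))))) (n 2 (n 0 z (n 0 z (n 0 z (n 0 z (n 0 z (n 0 z z)))))) (n 2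
 (n 0 z (n 0 z (n 0 z (n 0 z (n 0 z (n 0 z z)))))) (n 2 (n 0 z (n 0 z (n 0 z (n 0 z (n 0 z (n 0
 z z)))))) (n 2 (n 0 z (n 0 z (n 0 z (n 0 z (n 0 z (n 0 z z)))))) z)))))))) (n 0 z (n 0 z (n 0 z
 z)))) (n 507 (n 0 z (n 0 z (n 0 z (n 0 z z)))) (n 63 (n 0 z (n 2 (n 0 z (n 0 z (n 2 (n 0 z (n 0
 z (n 0 z (n 0 z (n 0 z (n 0 z z)))))) (n 2 (n 0 z (n 0 z (n 0 z (n 0 (n 8803379 z z) (n 0 z (n
 0 z z)))))) (n 2 (n 0 z (n 0 z (n 0 z (n 0 z (n 0 z (n 0 z z)))))) (n 2 (n 0 z (n 0 z (n 0 z (n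
 0 z (n 0 z (n 0 z z)))))) z)))))) (n 0 z (n 0 z z)))) (n 63 (n 2 (n 0 z (n 2 (n 0 z (n 0 z (n 0
 z (n 0 z (n 0 z (n 0 z z)))))) (n 2 (n 0 z (n 0 z (n 0 z (n 0 z (n 0 z (n 0 z z)))))) (n 2 (n 0
 z (n 0 z (n 0 z (n 0 z (n 0 z (n 0 z z)))))) (n 2 (n 0 z (n 0 z (n 0 z (n 0 z (n 0 z (n 0 z
 z)))))) z))))) (n 0 z (n 0 z (n 0 z z)))) (n 63 (n 0 z (n 0 z (n 0 z (n 0 z z)))) (n 65 (n 0 z
 (n 0 z (n 2 (n 0 z (n 0 z (n 0 z z))) (n 0 z (n 0 z (n 0 z (n 0 z (n 0 z (n 0 z (n 0 z (n 0 z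
 (n 0 z (n 0 z z))))))))))))) (n 65 (n 0 z (n 0 z (n 0 z (n 0 z (n 0 z (n 0 z (n 0 z (n 0 z (n 0
 z (n 0 z (n 0 z (n 0 z (n 0 z z))))))))))))) (n 65 (n 0 z (n 0 z (n 0 z (n 0 z (n 0 z (n 0 z (n
 0 z (n 0 z (n 0 z (n 0 z (n 0 z (n 0 z (n 2 (n 0 z z) z))))))))))))) (n 65 (n 0 z (n 2 z (n 0 z
 (n 0 z (n 0 z (n 0 z (n 0 z (n 0 z (n 0 z (n 0 z (n 0 z (n 0 z (n 0 z z)))))))))))))
 z)))))))))))) (n 0 (n 0 z (n 0 z (n 661 (n 0 z (n 0 z (n 0 z (n 0 z (n 0 z (n 0 z (n 0 z (n 0 z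
 (n 0 z (n 0 z (n 0 z (n 0 z z)))))))))))) (n 661 (n 0 z (n 0 z (n 0 z (n 0 z (n 0 z (n 2 (n 2
 (n 0 z (n 0 z (n 0 z (n 0 (n 60 z z) (n 0 z (n 0 z z)))))) (n 2 (n 0 z (n 0 z (n 0 z (n 0 z (n
 0 z (n 0 z z)))))) (n 2 (n 0 z (n 0 z (n 0 z (n 0 z (n 0 z (n 0 z z)))))) (n 2 (n 0 z (n 0 z (n
 0 z (n 0 z (n 0 z (n 0 z z)))))) (n 2 (n 0 z (n 0 z (n 0 z (n 0 z (n 0 z (n 0 z z)))))) (n 2 (n
 0 z (n 0 z (n 0 z (n 0 z (n 0 z (n 0 z z)))))) (n 2 (n 0 z (n 0 z (n 0 z (n 0 z (n 0 z (n 0 z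
 z)))))) z))))))) (n 0 z (n 0 z (n 0 z (n 0 z (n 0 z (n 0 z z)))))))))))) (n 15 (n 0 z (n 0 z (n
 0 z (n 0 z (n 0 z (n 0 z (n 0 z (n 0 z (n 0 z z))))))))) (n 15 (n 0 z (n 0 z (n 0 z (n 0 z (n 0
 z (n 0 z (n 0 z (n 0 z (n 0 z z))))))))) (n 15 (n 0 z (n 0 z (n 0 z (n 0 z (n 0 z (n 0 z (n 0 z
 (n 2 (n 2 (n 0 z (n 0 z (n 0 z (n 0 z (n 0 z (n 0 z z)))))) (n 2 (n 0 z (n 0 z (n 0 z (n 0 z (n
 0 z (n 0 z z)))))) (n 2 (n 0 z (n 0 z (n 0 z (n 0 z (n 0 z (n 0 z z)))))) (n 2 (n 0 z (n 0 z (n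
 0 z (n 0 z (n 0 z (n 0 z z)))))) z)))) (n 0 z z))))))))) (n 13 (n 0 z (n 0 z (n 0 z (n 0 z (n 0
 z (n 0 z z)))))) (n 13 (n 0 z (n 0 z (n 2 (n 0 z (n 0 z z)) (n 0 z (n 0 z (n 0 z z)))))) (n 13
 (n 0 z (n 0 z (n 0 z (n 0 z (n 0 z (n 0 z z)))))) (n 13 (n 0 z (n 0 z (n 0 z (n 0 z (n 0 z (n 0
 z z)))))) z))))))))))) (n 0 (n 0 z (n 7 (n 0 z (n 2 (n 0 z (n 1 z (n 1 z (n 2 (n 0 z (n 0 z (n
 0 z (n 0 z (n 0 z (n 0 z z)))))) (n 1 z (n 1 z (n 1 z (n 1 z z)))))))) (n 0 z (n 0 z (n 0 z (n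
 0 z (n 0 z z))))))) (n 7 (n 0 z (n 0 z (n 0 z (n 0 z (n 0 z (n 2 (n 2 (n 0 z (n 0 z (n 0 z (n 0
 (n 3213419 z z) (n 0 z (n 0 z z)))))) (n 2 (n 0 z (n 0 z (n 0 z (n 0 z (n 0 z (n 0 z z)))))) (n
 2 (n 0 z (n 0 z (n 0 z (n 0 z (n 0 z (n 0 z z)))))) (n 2 (n 0 z (n 0 z (n 0 z (n 0 z (n 0 z (n
 0 z z)))))) (n 2 (n 0 z (n 0 z (n 0 z (n 0 (n 2164859 z z) (n 0 z (n 0 z z)))))) (n 2 (n 0 z (n
 0 z (n 0 z (n 0 (n 3213419 z z) (n 0 z (n 0 z z)))))) (n 2 (n 0 z (n 0 z (n 0 z (n 0 z (n 0 z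
 (n 0 z z)))))) z))))))) (n 0 z z))))))) (n 99 (n 0 z (n 0 z (n 0 z (n 0 z (n 0 z (n 0 z (n 0 z
 (n 0 z (n 0 z z))))))))) (n 99 (n 0 z (n 0 z (n 0 z (n 0 z (n 0 z (n 0 z (n 0 z (n 0 z (n 0 z
 z))))))))) (n 99 (n 0 z (n 0 z (n 0 z (n 0 z (n 0 z (n 0 z (n 0 z (n 0 z (n 2 (n 2 (n 0 z (n 0
 z (n 0 z (n 0 z (n 0 z (n 0 z z)))))) (n 2 (n 0 z (n 0 z (n 0 z (n 0 z (n 0 z (n 0 z z)))))) (n
 2 (n 0 z (n 0 z (n 0 z (n 0 z (n 0 z (n 0 z z)))))) (n 2 (n 0 z (n 0 z (n 0 z (n 0 z (n 0 z (n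
 0 z z)))))) z)))) z))))))))) (n 97 (n 0 z (n 0 z (n 0 z (n 0 z (n 0 z (n 0 z z)))))) (n 97 (n 0
 z (n 0 z (n 0 z (n 0 z (n 2 (n 0 z (n 0 z z)) (n 0 z z)))))) (n 97 (n 0 z (n 0 z (n 0 z (n 0 z
 (n 0 z (n 0 z z)))))) (n 97 (n 0 z (n 0 z (n 0 z (n 0 z (n 0 z (n 0 z z)))))) z)))))))))) (n 0
 (n 247 (n 2 (n 0 z (n 2 (n 0 z (n 0 z (n 0 z (n 0 z (n 0 z (n 0 z z)))))) (n 2 (n 0 z (n 0 z (n
 0 z (n 0 z (n 0 z (n 0 z z)))))) (n 2 (n 0 z (n 0 z (n 0 z (n 0 z (n 0 z (n 0 z z)))))) (n 2 (n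
 0 z (n 0 z (n 0 z (n 0 z (n 0 z (n 0 z z)))))) (n 2 (n 0 z (n 0 z (n 0 z (n 0 z (n 0 z (n 0 z
 z)))))) (n 2 (n 0 z (n 0 z (n 0 z (n 0 z (n 0 z (n 0 z z)))))) (n 2 (n 0 z (n 0 z (n 0 z (n 0 z
 (n 0 z (n 0 z z)))))) z)))))))) (n 0 z (n 0 z (n 0 z (n 0 z z))))) (n 247 (n 0 z (n 0 z (n 0 z
 (n 0 z (n 0 z z))))) (n 15 (n 0 z (n 2 (n 0 z (n 0 z (n 2 (n 0 z (n 0 z (n 0 z (n 0 z (n 0 z (n
 0 z z)))))) (n 2 (n 0 z (n 0 z (n 0 z (n 0 z (n 0 z (n 0 z z)))))) (n 2 (n 0 z (n 0 z (n 0 z (n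
 0 z (n 0 z (n 0 z z)))))) (n 2 (n 0 z (n 0 z (n 0 z (n 0 z (n 0 z (n 0 z z)))))) z)))))) (n 0 z
 (n 0 z z)))) (n 15 (n 2 (n 0 z (n 2 (n 0 z (n 0 z (n 0 z (n 0 z (n 0 z (n 0 z z)))))) (n 2 (n 0
 z (n 0 z (n 0 z (n 0 z (n 0 z (n 0 z z)))))) (n 2 (n 0 z (n 0 z (n 0 z (n 0 z (n 0 z (n 0 z
 z)))))) (n 2 (n 0 z (n 0 z (n 0 z (n 0 z (n 0 z (n 0 z z)))))) z))))) (n 0 z (n 0 z (n 0 z
 z)))) (n 15 (n 0 z (n 0 z (n 0 z (n 0 z z)))) (n 17 (n 0 z (n 0 z (n 2 (n 0 z (n 0 z (n 0 z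
 z))) (n 0 z (n 0 z (n 0 z (n 0 z z))))))) (n 17 (n 0 z (n 0 z (n 0 z (n 0 z (n 0 z (n 0 z (n 0
 z z))))))) (n 17 (n 0 z (n 0 z (n 0 z (n 0 z (n 0 z (n 0 z (n 2 (n 0 z z) z))))))) (n 17 (n 0 z
 (n 0 z (n 0 z (n 0 z (n 0 z (n 0 z (n 0 z z))))))) z))))))))) (n 0 (n 0 z (n 483 (n 2 (n 0 z (n
 0 z (n 1 z (n 1 z (n 1 z (n 1 z z)))))) (n 0 z (n 0 z (n 0 z (n 0 z (n 0 z z)))))) (n 483 (n 0
 z (n 0 z (n 0 z (n 0 z (n 0 z (n 0 z z)))))) (n 483 (n 0 z (n 0 z (n 0 z (n 0 z (n 2 (n 2 (n 0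
 z (n 0 z (n 0 z (n 0 z (n 0 z (n 0 z z)))))) (n 2 (n 0 z (n 0 z (n 0 z (n 0 z (n 0 z (n 0 z
 z)))))) (n 2 (n 0 z (n 0 z (n 0 z (n 0 z (n 0 z (n 0 z z)))))) (n 2 (n 0 z (n 0 z (n 0 z (n 0 z
 (n 0 z (n 0 z z)))))) z)))) (n 0 z z)))))) (n 481 (n 0 z (n 0 z (n 0 z (n 0 z (n 0 z (n 0 z (n
 0 z (n 0 z (n 0 z (n 0 z (n 0 z (n 0 z (n 0 z z))))))))))))) (n 481 (n 0 z (n 2 (n 0 z (n 0 z
 z)) (n 0 z (n 0 z (n 0 z (n 0 z (n 0 z (n 0 z (n 0 z (n 0 z (n 0 z (n 0 z (n 0 z z)))))))))))))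
 (n 481 (n 0 z (n 0 z (n 0 z (n 0 z (n 2 (n 0 z z) (n 0 z (n 0 z (n 0 z (n 0 z (n 0 z (n 0 z (n
 0 z (n 0 z z))))))))))))) (n 481 (n 0 z (n 0 z (n 0 z (n 0 z (n 0 z (n 0 z (n 0 z (n 0 z (n 0 z
 (n 0 z (n 0 z (n 0 z (n 0 z z))))))))))))) z)))))))) (n 0 (n 531 (n 0 z (n 2 (n 0 z (n 0 z (n 2
 (n 0 z (n 0 z (n 0 z (n 0 z (n 0 z (n 0 z z)))))) (n 2 (n 0 z (n 0 z (n 0 z (n 0 z (n 0 z (n 0
 z z)))))) (n 2 (n 0 z (n 0 z (n 0 z (n 0 z (n 0 z (n 0 z z)))))) (n 2 (n 0 z (n 0 z (n 0 z (n 0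
 z (n 0 z (n 0 z z)))))) z)))))) (n 0 z (n 0 z (n 0 z z))))) (n 531 (n 2 (n 0 z (n 2 (n 0 z (n 0
 z (n 0 z (n 0 z (n 0 z (n 0 z z)))))) (n 2 (n 0 z (n 0 z (n 0 z (n 0 z (n 0 z (n 0 z z)))))) (n
 2 (n 0 z (n 0 z (n 0 z (n 0 z (n 0 z (n 0 z z)))))) (n 2 (n 0 z (n 0 z (n 0 z (n 0 z (n 0 z (n
 0 z z)))))) z))))) (n 0 z (n 0 z (n 0 z (n 0 z z))))) (n 531 (n 0 z (n 0 z (n 0 z (n 0 z (n 0 z
 z))))) (n 529 (n 0 z (n 2 (n 0 z (n 0 z (n 0 z z))) (n 0 z (n 0 z (n 0 z (n 0 z (n 0 z (n 0 z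
 (n 0 z (n 0 z (n 0 z (n 0 z (n 0 z (n 0 z (n 0 z (n 0 z (n 0 z (n 0 z (n 0 z (n 0 z (n 0 z (n 0
 z (n 0 z (n 0 z (n 0 z (n 0 z (n 0 z (n 0 z (n 0 z (n 0 z (n 0 z (n 0 z (n 0 z
 z))))))))))))))))))))))))))))))))) (n 529 (n 0 z (n 0 z (n 0 z (n 0 z (n 0 z (n 0 z (n 0 z (n 0
 z (n 0 z (n 0 z (n 0 z (n 0 z (n 0 z (n 0 z (n 0 z (n 0 z (n 0 z (n 0 z (n 0 z (n 0 z (n 0 z (n
 0 z (n 0 z (n 0 z (n 0 z (n 0 z (n 0 z (n 0 z (n 0 z (n 0 z (n 0 z (n 0 z (n 0 z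
 z))))))))))))))))))))))))))))))))) (n 529 (n 0 z (n 0 z (n 0 z (n 0 z (n 0 z (n 0 z (n 0 z (n 0
 z (n 0 z (n 0 z (n 0 z (n 0 z (n 0 z (n 0 z (n 0 z (n 0 z (n 0 z (n 0 z (n 0 z (n 2 (n 0 z z)
 (n 0 z (n 0 z (n 0 z (n 0 z (n 0 z (n 0 z (n 0 z (n 0 z (n 0 z (n 0 z (n 0 z (n 0 z (n 0 z
 z))))))))))))))))))))))))))))))))) (n 529 (n 0 z (n 0 z (n 0 z (n 0 z (n 0 z (n 0 z (n 0 z (n 0
 z (n 0 z (n 0 z (n 0 z (n 0 z (n 0 z (n 0 z (n 0 z (n 0 z (n 0 z (n 2 z (n 0 z (n 0 z (n 0 z (n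
 0 z (n 0 z (n 0 z (n 0 z (n 0 z (n 0 z (n 0 z (n 0 z (n 0 z (n 0 z (n 0 z (n 0 z
 z))))))))))))))))))))))))))))))))) z))))))) (n 0 (n 0 z (n 0 z (n 1 (n 0 z (n 0 z (n 0 z (n 0 z
 (n 0 z (n 0 z (n 0 z (n 0 z (n 0 z (n 0 z (n 0 z (n 0 z (n 0 z (n 0 z (n 0 z (n 0 z (n 0 z (n 0
 z (n 0 z (n 0 z (n 0 z (n 0 z (n 0 z (n 0 z (n 0 z z))))))))))))))))))))))))) (n 1 (n 0 z (n 0
 z (n 0 z (n 0 z (n 0 z (n 0 z (n 0 z (n 0 z (n 0 z (n 0 z (n 0 z (n 0 z (n 0 z (n 0 z (n 0 z (n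
 0 z (n 0 z (n 0 z (n 0 z (n 0 z (n 0 z (n 0 z (n 0 z (n 0 z (n 2 (n 0 z (n 0 z z))
 z))))))))))))))))))))))))) (n 1 (n 0 z (n 0 z (n 0 z (n 0 z (n 0 z (n 0 z (n 0 z (n 0 z (n 0 z
 (n 0 z (n 0 z (n 0 z (n 0 z (n 0 z (n 0 z (n 0 z (n 0 z (n 0 z (n 0 z (n 0 z (n 0 z (n 0 z (n 0
 z (n 0 z (n 0 z z))))))))))))))))))))))))) (n 1 (n 0 z (n 0 z (n 0 z (n 0 z (n 0 z (n 0 z (n 0
 z (n 0 z (n 0 z (n 0 z (n 0 z (n 0 z (n 0 z (n 0 z (n 0 z (n 0 z (n 0 z (n 0 z (n 0 z (n 0 z (n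
 0 z (n 2 z (n 0 z (n 0 z (n 0 z z))))))))))))))))))))))))) z)))))) (n 0 (n 0 z (n 1 (n 0 z (n 0
 z (n 0 z (n 0 z (n 0 z (n 0 z (n 0 z (n 0 z (n 0 z (n 0 z (n 0 z (n 0 z (n 0 z (n 0 z (n 0 z (n
 0 z (n 0 z (n 0 z (n 0 z (n 0 z (n 0 z (n 0 z (n 0 z (n 0 z (n 0 z (n 0 z (n 0 z (n 0 z (n 0 z
 (n 0 z (n 0 z (n 0 z (n 0 z z))))))))))))))))))))))))))))))))) (n 1 (n 0 z (n 0 z (n 0 z (n 0 z
 (n 0 z (n 0 z (n 0 z (n 0 z (n 0 z (n 2 (n 0 z (n 0 z z)) (n 0 z (n 0 z (n 0 z (n 0 z (n 0 z (n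
 0 z (n 0 z (n 0 z (n 0 z (n 0 z (n 0 z (n 0 z (n 0 z (n 0 z (n 0 z (n 0 z (n 0 z (n 0 z (n 0 z
 (n 0 z (n 0 z (n 0 z (n 0 z z))))))))))))))))))))))))))))))))) (n 1 (n 0 z (n 0 z (n 0 z (n 0 z
 (n 0 z (n 0 z (n 0 z (n 0 z (n 0 z (n 0 z (n 0 z (n 0 z (n 0 z (n 0 z (n 0 z (n 0 z (n 0 z (n 0
 z (n 0 z (n 0 z (n 0 z (n 0 z (n 0 z (n 0 z (n 0 z (n 0 z (n 0 z (n 0 z (n 0 z (n 0 z (n 0 z (n
 0 z (n 0 z z))))))))))))))))))))))))))))))))) (n 1 (n 0 z (n 0 z (n 0 z (n 0 z (n 0 z (n 0 z (n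
 0 z (n 0 z (n 0 z (n 0 z (n 0 z (n 0 z (n 0 z (n 0 z (n 0 z (n 0 z (n 0 z (n 0 z (n 2 z (n 0 z
 (n 0 z (n 0 z (n 0 z (n 0 z (n 0 z (n 0 z (n 0 z (n 0 z (n 0 z (n 0 z (n 0 z (n 0 z (n 0 z
 z))))))))))))))))))))))))))))))))) z))))) (n 0 (n 1 (n 0 z (n 0 z (n 2 (n 0 z (n 0 z (n 0 z
 z))) (n 0 z (n 0 z (n 0 z (n 0 z (n 0 z (n 0 z (n 0 z z)))))))))) (n 1 (n 0 z (n 0 z (n 0 z (n
 0 z (n 0 z (n 0 z (n 0 z (n 0 z (n 0 z (n 0 z z)))))))))) (n 1 (n 0 z (n 0 z (n 0 z (n 0 z (n 0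
 z (n 0 z (n 0 z (n 2 (n 0 z z) (n 0 z (n 0 z z)))))))))) (n 1 (n 2 z (n 0 z (n 0 z (n 0 z (n 0
 z (n 0 z (n 0 z (n 0 z (n 0 z (n 0 z z)))))))))) z)))) (n 0 (n 0 z (n 0 z (n 0 z z))) (n 0 (n 0
 z (n 0 z z)) (n 0 (n 0 z z) (n 0 z z))))))))))))))))) (n 0 (n 1 (n 2 z (n 6623755 z (n 1228 z
 (n 1228 z (n 1228 z (n 1228 z z)))))) (n 1 (n 1228 z (n 6623755 z (n 1228 z (n 1228 z (n 1228 z
 (n 1228 z z)))))) (n 1 (n 6496515 z (n 6496515 z (n 6496515 z (n 6496515 z (n 6496515 z (n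
 6496515 z z)))))) (n 1 (n 1228 z (n 10 z (n 1228 z (n 1228 z (n 6623755 z (n 1228 z z))))))
 z)))) (n 0 (n 0x1964ee6164ed7864ec7904eb7960ea7964297964c0 (n 0 (n 0 (n 7737379 z (n 7737379 z
 (n 7737379 z (n 7737379 z (n 7737379 z (n 7737379 z z)))))) (n 0 (n 6498123 z (n 6489947 z (n
 45 z (n 5316 z (n 5316 z (n 5316 z z)))))) z)) (n 0 (n 153 (n 1 (n 668 z (n 668 z (n 668 z (n
 668 z (n 668 z (n 668 z z)))))) (n 0 z (n 1 (n 7737379 z (n 7737379 z (n 7737379 z (n 7737379 z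
 (n 7737379 z (n 7737379 z z)))))) (n 1 (n 7737379 z (n 7737379 z (n 7737379 z (n 7737379 z (n
 7737379 z (n 7737379 z z)))))) (n 1 (n 7737379 z (n 7737379 z (n 7737379 z (n 7737379 z (n
 7737379 z (n 7737379 z z)))))) (n 1 (n 6498123 z (n 668 z (n 2 z (n 668 z (n 668 z (n 668 z
 z)))))) (n 0 z z))))))) (n 33 (n 0 z (n 0 z (n 1 (n 7737379 z (n 7737379 z (n 7737379 z (n
 7737379 z (n 7737379 z (n 7737379 z z)))))) (n 0 z (n 1 (n 6498123 z (n 6489947 z (n 10 z (n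
 1628 z (n 1628 z (n 1628 z z)))))) (n 1 (n 7545091 z (n 7545091 z (n 7545091 z (n 7545091 z (n
 7545091 z (n 7545091 z z)))))) z)))))) (n 9 (n 1 (n 3213163 z (n 3213163 z (n 3213163 z (n
 3213163 z (n 3213163 z (n 3213163 z z)))))) (n 1 (n 2668 z (n 2668 z (n 2668 z (n 2668 z (n
 2668 z (n 2668 z z)))))) (n 1 (n 7545091 z (n 7545091 z (n 7545091 z (n 7545091 z (n 7545091 z
 (n 7545091 z z)))))) (n 1 (n 2668 z (n 6489947 z (n 18 z (n 2668 z (n 2668 z (n 2668 z z))))))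
 z)))) (n 243 (n 1 (n 7737379 z (n 7737379 z (n 7737379 z (n 7737379 z (n 7737379 z (n 7737379 z
 z)))))) (n 0 z (n 1 (n 3596 z (n 3596 z (n 26 z (n 3596 z (n 3596 z (n 3596 z z)))))) (n 1 (n
 7545091 z (n 7545091 z (n 7545091 z (n 7545091 z (n 7545091 z (n 7545091 z z)))))) z)))) (n 243
 (n 1 (n 2236 z (n 6631539 z (n 2236 z (n 2236 z (n 7668507 z (n 2236 z z)))))) (n 1 (n 2164555
 z (n 2164555 z (n 2164555 z (n 2164555 z (n 7668507 z (n 2164555 z z)))))) (n 0 z (n 0 z (n 1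
 (n 2236 z (n 6633243 z (n 7668507 z (n 2236 z (n 2236 z (n 34 z z)))))) (n 1 (n 7545091 z (n
 7545091 z (n 7545091 z (n 7545091 z (n 7545091 z (n 7545091 z z)))))) z)))))) (n 11 (n 1 (n
 7545091 z (n 7545091 z (n 7545091 z (n 7545091 z (n 7545091 z (n 7545091 z z)))))) (n 0 z (n 1
 (n 7737379 z (n 42 z (n 5356 z (n 5356 z (n 7672331 z (n 5356 z z)))))) (n 1 (n 7737379 z (n
 7668507 z (n 7668507 z (n 7668507 z (n 7672331 z (n 7668507 z z)))))) (n 0 z (n 0 z z)))))) (n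
 9 (n 1 (n 7737379 z (n 7672331 z (n 3213163 z (n 3213163 z (n 3213163 z (n 3213163 z z)))))) (n
 1 (n 7737379 z (n 7672331 z (n 1228 z (n 1228 z (n 1228 z (n 1228 z z)))))) (n 1 (n 7545091 z
 (n 7545091 z (n 7545091 z (n 7545091 z (n 7545091 z (n 7545091 z z)))))) (n 1 (n 7737379 z (n
 50 z (n 1228 z (n 1228 z (n 7672331 z (n 1228 z z)))))) z)))) z))))))) (n 0 (n 0 (n 0 z (n 0 z
 (n 0 z (n 0 z (n 0 z (n 0 z (n 0 z z))))))) (n 0 (n 0 z (n 0 z (n 0 z (n 0 z (n 0 z (n 0 z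
 z)))))) (n 0 (n 0 z (n 0 z (n 0 z (n 0 z (n 0 z z))))) (n 0 (n 0 z (n 0 z (n 0 z (n 0 z z))))
 (n 0 (n 0 z (n 0 z (n 0 z z))) (n 0 (n 0 z (n 0 z z)) (n 0 (n 0 z z) z))))))) (n 0 (n 203 (n 0
 (n 0 z (n 0 (n 8785955 z z) (n 0 z (n 0 (n 8785955 z z) (n 0 z (n 0 (n 8785955 z z) (n 0 (n
 8785955 z z) z))))))) (n 0 (n 0 z (n 0 z (n 0 z (n 0 z (n 0 z (n 0 z (n 0 z z))))))) (n 0 (n 0
 z (n 0 z (n 0 z (n 0 z (n 0 z (n 0 z (n 0 z z))))))) (n 0 (n 0 z (n 0 z (n 0 z (n 0 z (n 0 z (n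
 0 z (n 0 z z))))))) (n 0 (n 0 z (n 0 z (n 0 z (n 0 z (n 0 z (n 0 z (n 0 z z))))))) (n 0 (n 0 z
 (n 0 z (n 0 z (n 0 z (n 0 z (n 0 z (n 0 z z))))))) (n 0 (n 0 (n 8868915 z z) (n 0 (n 8868915 z
 z) (n 0 z (n 0 z (n 0 z (n 0 z (n 0 (n 8868915 z z) z))))))) (n 0 (n 0 z (n 0 z (n 0 z (n 0 z
 (n 0 z (n 0 z (n 0 z z))))))) (n 0 (n 0 z (n 0 z (n 0 z (n 0 z (n 0 z (n 0 z (n 0 z z)))))))
 z))))))))) (n 333 (n 0 (n 0 z (n 0 (n 4397067 z z) (n 0 z (n 0 (n 4397067 z z) (n 0 z (n 0 (n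
 4397067 z z) (n 0 (n 4397067 z z) z))))))) (n 0 (n 0 z (n 0 z (n 0 z (n 0 z (n 0 z (n 0 z (n 0
 z z))))))) (n 0 (n 0 z (n 0 z (n 0 z (n 0 z (n 0 z (n 0 z (n 0 z z))))))) (n 0 (n 0 z (n 0 (n
 0x10eb0ea6037a08608208208208608208218208a085f8608208208208208208208208208608208208208200801 z
 z) (n 0 z (n 0 (n
 0x2ea70a280785f8607e08207e08607e07e08208a08208607e08208208607e18208208208218208208208200801 z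
 z) (n 0 z (n 0 (n
 0x2ea90826078208208207e07e08218607e08208218208208208208208207e082082082082182085f81f8200801 z
 z) (n 0 (n
 0x10eb0ea6037a08608208208208608208218208a085f8608208208208208208208208208608208208208200801 z
 z) z))))))) (n 0 (n 0 z (n 0 z (n 0 z (n 0 z (n 0 z (n 0 z (n 0 z z))))))) (n 0 (n 0 z (n 0 (n
 7739467 z (n 8804123 z z)) (n 0 z (n 0 (n 7739467 z (n 8804123 z z)) (n 0 z (n 0 (n 7739467 z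
 (n
 0x9d8647b7680717670898a8a94898a7b897b857b8f7c8e6b667b6c92866f5b7f8060718acc927f5284d36c91669961626e889b50840049
 z z)) (n 0 (n 7739467 z (n
 0x9d8647b7680717670898a8a94898a7b897b857b8f7c8e6b667b6c92866f5b7f8060718acc927f5284d36c91669961626e889b50840049
 z z)) z))))))) (n 0 (n 0 z (n 0 z (n 0 z (n 0 z (n 0 z (n 0 z (n 0 z z))))))) (n 0 (n 0 z (n 0
 z (n 0 z (n 0 z (n 0 z (n 0 z (n 0 z z))))))) z)))))))) (n 331 (n 0 (n 0 z (n 0 z (n 0 z (n 0 z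
 (n 0 z (n 0 z (n 0 z z))))))) (n 0 (n 0 (n
 0xd87382081f8208208207a18217e17e17a182181f7e08208618208207df8608608607e07df81f8200041 z (n
 8595275 z z)) (n 0 (n
 0xd87382081f8208208207a18217e17e17a182181f7e08208618208207df8608608607e07df81f8200041 z (n
 8595275 z z)) (n 0 z (n 0 z (n 0 z (n 0 z (n 0 (n
 0xd87382081f8208208207a18217e17e17a182181f7e08208618208207df8608608607e07df81f8200041 z (n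
 8595275 z z)) z))))))) (n 0 (n 0 z (n 0 z (n 0 z (n 0 z (n 0 z (n 0 z (n 0 z z))))))) (n 0 (n 0
 z (n 0 z (n 0 z (n 0 z (n 0 z (n 0 z (n 0 z z))))))) (n 0 (n 0 z (n 0 z (n 0 z (n 0 z (n 0 z (n
 0 z (n 0 z z))))))) (n 0 (n 0 z (n 0 z (n 0 z (n 0 z (n 0 z (n 0 z (n 0 z z))))))) (n 0 (n 0 z
 (n 0 z (n 0 z (n 0 z (n 0 z (n 0 z (n 0 z z))))))) z))))))) (n 449 (n 0 (n 0 z (n 0 (n 8785955
 z z) (n 0 z (n 0 (n 8785955 z z) (n 0 z (n 0 (n 8785955 z z) (n 0 (n 8785955 z z) z))))))) (n 0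
 (n 0 z (n 0 z (n 0 z (n 0 z (n 0 z (n 0 z (n 0 z z))))))) (n 0 (n 0 z (n 0 z (n 0 z (n 0 z (n 0
 z (n 0 z (n 0 z z))))))) (n 0 (n 0 z (n 0 z (n 0 z (n 0 z (n 0 z (n 0 z (n 0 z z))))))) (n 0 (n
 0 (n
 0x50eb0ea207ae17df8de8dd92055f8ec7e36245a589d9579a08d66f072171c82592249d8728a3712732a150801 z
 z) (n 0 (n
 0x170a6ea280380797c7a6f717f9681847e87818d8395797f7a8971908e748188577981837f65a59c7c895c99b5699769af776f3e76b579620809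
 z z) (n 0 z (n 0 z (n 0 z (n 0 z (n 0 (n
 0x70eb0ea207be279f91e8dc96049e8ef8245e44a589d994a209136b36e16db82696239d8768a46ce6f6a920801 z
 z) z))))))) (n 0 (n 0 z (n 0 z (n 0 z (n 0 z (n 0 z (n 0 z (n 0 z z))))))) (n 0 (n 0 z (n 0 z
 (n 0 z (n 0 z (n 0 z (n 0 z (n 0 z z))))))) z))))))) (n 421 (n 0 (n 0 z (n 0 z (n 0 z (n 0 z (n
 0 z (n 0 z (n 0 z z))))))) (n 0 (n 0 z (n 0 z (n 0 z (n 0 z (n 0 z (n 0 z (n 0 z z))))))) (n 0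
 (n 0 (n 8595275 z z) (n 0 z (n 0 z (n 0 (n
 0x9d8647b7680717670898a8a94898a7b897b857b8f7c8e6b667b6c92866f5b7f8060718acc927f5284d36c91669961626e889b50840049
 z z) (n 0 z (n 0 (n 8595275 z z) (n 0 z z))))))) (n 0 (n 0 z (n 0 z (n 0 z (n 0 z (n 0 z (n 0 z
 (n 0 z z))))))) (n 0 (n 0 z (n 0 z (n 0 z (n 0 z (n 0 z (n 0 z (n 0 z z))))))) (n 0 (n 0 z (n 0
 z (n 0 z (n 0 z (n 0 z (n 0 z (n 0 z z))))))) (n 0 (n 0 z (n 0 z (n 0 z (n 0 z (n 0 z (n 0 z (n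
 0 z z))))))) (n 0 (n 0 z (n 0 z (n 0 z (n 0 z (n 0 z (n 0 z (n 0 z z))))))) (n 0 (n 0 z (n 0 z
 (n 0 z (n 0 z (n 0 z (n 0 z (n 0 z z))))))) (n 0 (n 0 z (n 0 z (n 0 z (n 0 z (n 0 z (n 0 z (n 0
 z z))))))) (n 0 (n 0 z (n 0 z (n 0 z (n 0 z (n 0 z (n 0 z (n 0 z z))))))) (n 0 (n 0 z (n 0 z (n
 0 z (n 0 z (n 0 z (n 0 z (n 0 z z))))))) (n 0 (n 0 z (n 0 z (n 0 z (n 0 z (n 0 z (n 0 z (n 0 z
 z))))))) (n 0 (n 0 z (n 0 z (n 0 z (n 0 z (n 0 z (n 0 z (n 0 z z))))))) (n 0 (n 0 z (n 0 z (n 0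
 z (n 0 z (n 0 z (n 0 z (n 0 z z))))))) (n 0 (n 0 z (n 0 z (n 0 z (n 0 z (n 0 z (n 0 z (n 0 z
 z))))))) z)))))))))))))))) (n 450 (n 0 (n 0 z (n 0 z (n 0 z (n 0 z (n 0 z (n 0 z (n 0 z
 z))))))) (n 0 (n 0 z (n 0 z (n 0 z (n 0 z (n 0 z (n 0 z (n 0 z z))))))) (n 0 (n 0 z (n 0 z (n 0
 z (n 0 z (n 0 z (n 0 z (n 0 z z))))))) (n 0 (n 0 z (n 0 z (n 0 z (n 0 z (n 0 z (n 0 z (n 0 z
 z))))))) (n 0 (n 0 (n 7735371 z (n 8804123 z z)) (n 0 z (n 0 z (n 0 (n 7735371 z (n 8804123 z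
 z)) (n 0 z (n 0 (n 7735371 z (n
 0x4d8518b7b7e899d94755e847f6e858683647576867daaa280827b849f9f7966a973555f28919eb389188e7bcc679b95846f97ad710049
 z z)) (n 0 z z))))))) (n 0 (n 0 z (n 0 z (n 0 z (n 0 z (n 0 z (n 0 z (n 0 z z))))))) (n 0 (n 0
 (n 8593667 z z) (n 0 (n 8593667 z z) (n 0 z (n 0 z (n 0 z (n 0 z (n 0 (n 8593667 z z) z)))))))
 (n 0 (n 0 z (n 0 z (n 0 z (n 0 z (n 0 z (n 0 z (n 0 z z))))))) (n 0 (n 0 z (n 0 z (n 0 z (n 0 z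
 (n 0 z (n 0 z (n 0 z z))))))) (n 0 (n 0 z (n 0 z (n 0 z (n 0 z (n 0 z (n 0 z (n 0 z z))))))) (n
 0 (n 0 z (n 0 z (n 0 z (n 0 z (n 0 z (n 0 z (n 0 z z))))))) (n 0 (n 0 z (n 0 z (n 0 z (n 0 z (n
 0 z (n 0 z (n 0 z z))))))) z)))))))))))) (n 279 (n 0 (n 0 z (n 0 z (n 0 z (n 0 z (n 0 z (n 0 z
 (n 0 z z))))))) (n 0 (n 0 z (n 0 z (n 0 z (n 0 z (n 0 z (n 0 z (n 0 z z))))))) (n 0 (n 0 z (n 0
 z (n 0 z (n 0 z (n 0 z (n 0 z (n 0 z z))))))) (n 0 (n 0 z (n 0 z (n 0 z (n 0 z (n 0 z (n 0 z (n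
 0 z z))))))) (n 0 (n 0 z (n 0 z (n 0 z (n 0 z (n 0 z (n 0 z (n 0 z z))))))) (n 0 (n 0 z (n 0 (n
 0x30eaea460785f8208208208207e18208207e07e08208208208208208208208208208208208208208208210801 z
 z) (n 0 z (n 0 (n
 0x2e65082a078208208208208208218208208208208208208208208208208208208208208608208208208200801 z
 z) (n 0 z (n 0 (n
 0x30eb0c62038208208208208208208618208207e082082081f8208208208208208208208208208208208200801 z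
 z) (n 0 (n
 0x30eaea460785f8208208208207e18208207e07e08208208208208208208208208208208208208208208210801 z
 z) z))))))) (n 0 (n 0 z (n 0 z (n 0 z (n 0 z (n 0 z (n 0 z (n 0 z z))))))) z))))))) (n 255 (n 0
 (n 0 z (n 0 z (n 0 z (n 0 z (n 0 z (n 0 z (n 0 z z))))))) (n 0 (n 0 z (n 0 z (n 0 z (n 0 z (n 0
 z (n 0 z (n 0 z z))))))) (n 0 (n 0 z (n 0 z (n 0 z (n 0 z (n 0 z (n 0 z (n 0 z z))))))) (n 0 (n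
 0 z (n 0 z (n 0 z (n 0 z (n 0 z (n 0 z (n 0 z z))))))) (n 0 (n 0 z (n 0 z (n 0 z (n 0 z (n 0 z
 (n 0 z (n 0 z z))))))) (n 0 (n 0 z (n 0 z (n 0 z (n 0 z (n 0 z (n 0 z (n 0 z z))))))) (n 0 (n 0
 z (n 0 z (n 0 z (n 0 z (n 0 z (n 0 z (n 0 z z))))))) (n 0 (n 0 z (n 0 z (n 0 z (n 0 z (n 0 z (n
 0 z (n 0 z z))))))) (n 0 (n 0 z (n 0 (n 8593667 z (n 8593667 z z)) (n 0 z (n 0 (n 8593667 z (n
 8593667 z z)) (n 0 z (n 0 (n 8593667 z (n 8593667 z z)) (n 0 (n 8593667 z (n 8593667 z z))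
 z))))))) (n 0 (n 0 (n 8593667 z z) (n 0 (n 8593667 z z) (n 0 z (n 0 z (n 0 z (n 0 z (n 0 (n
 8593667 z z) z))))))) (n 0 (n 0 z (n 0 z (n 0 z (n 0 z (n 0 z (n 0 z (n 0 z z))))))) (n 0 (n 0
 (n 8593667 z z) (n 0 (n 8593667 z z) (n 0 z (n 0 z (n 0 z (n 0 z (n 0 (n 8593667 z z) z)))))))
 (n 0 (n 0 z (n 0 z (n 0 z (n 0 z (n 0 z (n 0 z (n 0 z z))))))) (n 0 (n 0 z (n 0 z (n 0 z (n 0 z
 (n 0 z (n 0 z (n 0 z z))))))) z)))))))))))))) (n 9 (n 0 (n 0 z (n 0 z (n 0 z (n 0 z (n 0 z (n 0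
 z (n 0 z z))))))) (n 0 (n 0 z (n 0 z (n 0 z (n 0 z (n 0 z (n 0 z (n 0 z z))))))) (n 0 (n 0 z (n
 0 z (n 0 z (n 0 z (n 0 z (n 0 z (n 0 z z))))))) (n 0 (n 0 z (n 0 (n
 0xd87382081f8208208207a18217e17e17a182181f7e08208618208207df8608608607e07df81f8200041 z (n
 8804123 z z)) (n 0 z (n 0 (n
 0x30a8ea62078608207e08208207e18208208208208208208208208208208208208208208208208208208210801 z
 (n 8804123 z z)) (n 0 z (n 0 (n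
 0xd87382081f8208208207a18217e17e17a182181f7e08208618208207df8608608607e07df81f8200041 z (n
 0x30eb0c62038208208208208207e18218208217e082082082082082082082082082082082081f8208208200801 z
 z)) (n 0 (n
 0xd87382081f8208208207a18217e17e17a182181f7e08208618208207df8608608607e07df81f8200041 z (n
 0x30eaea26078608607e08208207e18208208207e18208608208208208207e08208208208208208208208210801 z
 z)) z))))))) (n 0 (n 0 z (n 0 z (n 0 z (n 0 z (n 0 z (n 0 z (n 0 z z))))))) (n 0 (n 0 z (n 0 (n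
 0x10eb0ea6037a08608208208208608208218208a085f8608208208208208208208208208608208208208200801 z
 z) (n 0 z (n 0 (n
 0x30eb0ea0037e182086086081f8207e07e185f82182082082181f82082081f81e81f86086182085f8208200801 z
 z) (n 0 z (n 0 (n
 0x30eb0c26077df8608207e18208618208208208608208608208207e08608208208208208208208608608200801 z
 z) (n 0 (n
 0x10eb0ea6037a08608208208208608208218208a085f8608208208208208208208208208608208208208200801 z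
 z) z))))))) (n 0 (n 0 z (n 0 z (n 0 z (n 0 z (n 0 z (n 0 z (n 0 z z))))))) (n 0 (n 0 z (n 0 z
 (n 0 z (n 0 z (n 0 z (n 0 z (n 0 z z))))))) (n 0 (n 0 z (n 0 z (n 0 z (n 0 z (n 0 z (n 0 z (n 0
 z z))))))) z))))))))) (n 243 (n 0 (n 0 z (n 0 z (n 0 z (n 0 z (n 0 z (n 0 z (n 0 z z))))))) (n
 0 (n 0 z (n 0 z (n 0 z (n 0 z (n 0 z (n 0 z (n 0 z z))))))) (n 0 (n 0 (n 8593667 z z) (n 0 z (n
 0 z (n 0 (n 8593667 z z) (n 0 z (n 0 (n 8593667 z z) (n 0 z z))))))) (n 0 (n 0 z (n 0 z (n 0 z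
 (n 0 z (n 0 z (n 0 z (n 0 z z))))))) (n 0 (n 0 z (n 0 z (n 0 z (n 0 z (n 0 z (n 0 z (n 0 z
 z))))))) (n 0 (n 0 z (n 0 z (n 0 z (n 0 z (n 0 z (n 0 z (n 0 z z))))))) z)))))) (n 669 (n 0 (n
 0 z (n 0 z (n 0 z (n 0 z (n 0 z (n 0 z (n 0 z z))))))) (n 0 (n 0 z (n 0 z (n 0 z (n 0 z (n 0 z
 (n 0 z (n 0 z z))))))) (n 0 (n 0 z (n 0 z (n 0 z (n 0 z (n 0 z (n 0 z (n 0 z z))))))) (n 0 (n 0
 z (n 0 z (n 0 z (n 0 z (n 0 z (n 0 z (n 0 z z))))))) (n 0 (n 0 z (n 0 z (n 0 z (n 0 z (n 0 z (n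
 0 z (n 0 z z))))))) (n 0 (n 0 z (n 0 z (n 0 z (n 0 z (n 0 z (n 0 z (n 0 z z))))))) (n 0 (n 0 z
 (n 0 z (n 0 z (n 0 z (n 0 z (n 0 z (n 0 z z))))))) (n 0 (n 0 z (n 0 z (n 0 z (n 0 z (n 0 z (n 0
 z (n 0 z z))))))) z)))))))) (n 341 (n 0 (n 0 z (n 0 z (n 0 z (n 0 z (n 0 z (n 0 z (n 0 z
 z))))))) (n 0 (n 0 z (n 0 z (n 0 z (n 0 z (n 0 z (n 0 z (n 0 z z))))))) (n 0 (n 0 z (n 0 z (n 0
 z (n 0 z (n 0 z (n 0 z (n 0 z z))))))) (n 0 (n 0 z (n 0 z (n 0 z (n 0 z (n 0 z (n 0 z (n 0 z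
 z))))))) (n 0 (n 0 z (n 0 z (n 0 z (n 0 z (n 0 z (n 0 z (n 0 z z))))))) (n 0 (n 0 z (n 0 z (n 0
 z (n 0 z (n 0 z (n 0 z (n 0 z z))))))) (n 0 (n 0 z (n 0 z (n 0 z (n 0 z (n 0 z (n 0 z (n 0 z
 z))))))) z))))))) (n 11 (n 0 (n 0 z (n 0 z (n 0 z (n 0 z (n 0 z (n 0 z (n 0 z z))))))) (n 0 (n
 0 z (n 0 z (n 0 z (n 0 z (n 0 z (n 0 z (n 0 z z))))))) (n 0 (n 0 z (n 0 z (n 0 z (n 0 z (n 0 z
 (n 0 z (n 0 z z))))))) (n 0 (n 0 z (n 0 z (n 0 z (n 0 z (n 0 z (n 0 z (n 0 z z))))))) (n 0 (n 0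
 z (n 0 z (n 0 z (n 0 z (n 0 z (n 0 z (n 0 z z))))))) (n 0 (n 0 z (n 0 z (n 0 z (n 0 z (n 0 z (n
 0 z (n 0 z z))))))) z)))))) (n 245 (n 0 (n 0 z (n 0 z (n 0 z (n 0 z (n 0 z (n 0 z (n 0 z
 z))))))) (n 0 (n 0 z (n 0 z (n 0 z (n 0 z (n 0 z (n 0 z (n 0 z z))))))) (n 0 (n 0 z (n 0 z (n 0
 z (n 0 z (n 0 z (n 0 z (n 0 z z))))))) (n 0 (n 0 z (n 0 z (n 0 z (n 0 z (n 0 z (n 0 z (n 0 z
 z))))))) (n 0 (n 0 z (n 0 z (n 0 z (n 0 z (n 0 z (n 0 z (n 0 z z))))))) (n 0 (n 0 z (n 0 z (n 0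
 z (n 0 z (n 0 z (n 0 z (n 0 z z))))))) (n 0 (n 0 z (n 0 z (n 0 z (n 0 z (n 0 z (n 0 z (n 0 z
 z))))))) (n 0 (n 0 z (n 0 z (n 0 z (n 0 z (n 0 z (n 0 z (n 0 z z))))))) (n 0 (n 0 z (n 0 z (n 0
 z (n 0 z (n 0 z (n 0 z (n 0 z z))))))) (n 0 (n 0 z (n 0 z (n 0 z (n 0 z (n 0 z (n 0 z (n 0 z
 z))))))) (n 0 (n 0 z (n 0 z (n 0 z (n 0 z (n 0 z (n 0 z (n 0 z z))))))) (n 0 (n 0 z (n 0 z (n 0
 z (n 0 z (n 0 z (n 0 z (n 0 z z))))))) (n 0 (n 0 z (n 0 z (n 0 z (n 0 z (n 0 z (n 0 z (n 0 z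
 z))))))) z))))))))))))) (n 1 (n 0 (n 0 z (n 0 z (n 0 z (n 0 z (n 0 z (n 0 z (n 0 z z))))))) (n
 0 (n 0 z (n 0 z (n 0 z (n 0 z (n 0 z (n 0 z (n 0 z z))))))) (n 0 (n 0 z (n 0 z (n 0 z (n 0 z (n
 0 z (n 0 z (n 0 z z))))))) (n 0 (n 0 z (n 0 z (n 0 z (n 0 z (n 0 z (n 0 z (n 0 z z))))))) (n 0
 (n 0 (n 8868915 z (n 8868915 z z)) (n 0 (n 8868915 z (n 8868915 z z)) (n 0 z (n 0 z (n 0 z (n 0
 z (n 0 (n 8868915 z (n 8868915 z z)) z))))))) (n 0 (n 0 z (n 0 z (n 0 z (n 0 z (n 0 z (n 0 z (n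
 0 z z))))))) (n 0 (n 0 z (n 0 z (n 0 z (n 0 z (n 0 z (n 0 z (n 0 z z))))))) (n 0 (n 0 z (n 0 z
 (n 0 z (n 0 z (n 0 z (n 0 z (n 0 z z))))))) (n 0 (n 0 z (n 0 z (n 0 z (n 0 z (n 0 z (n 0 z (n 0
 z z))))))) (n 0 (n 0 z (n 0 z (n 0 z (n 0 z (n 0 z (n 0 z (n 0 z z))))))) (n 0 (n 0 z (n 0 z (n
 0 z (n 0 z (n 0 z (n 0 z (n 0 z z))))))) (n 0 (n 0 z (n 0 z (n 0 z (n 0 z (n 0 z (n 0 z (n 0 z
 z))))))) (n 0 (n 0 z (n 0 z (n 0 z (n 0 z (n 0 z (n 0 z (n 0 z z))))))) (n 0 (n 0 z (n 0 z (n 0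
 z (n 0 z (n 0 z (n 0 z (n 0 z z))))))) (n 0 (n 0 z (n 0 z (n 0 z (n 0 z (n 0 z (n 0 z (n 0 z
 z))))))) (n 0 (n 0 (n 8868915 z (n 8868915 z z)) (n 0 (n 8868915 z (n 8868915 z z)) (n 0 z (n 0
 z (n 0 z (n 0 z (n 0 (n 8868915 z (n 8868915 z z)) z))))))) (n 0 (n 0 z (n 0 z (n 0 z (n 0 z (n
 0 z (n 0 z (n 0 z z))))))) (n 0 (n 0 z (n 0 z (n 0 z (n 0 z (n 0 z (n 0 z (n 0 z z))))))) (n 0
 (n 0 z (n 0 z (n 0 z (n 0 z (n 0 z (n 0 z (n 0 z z))))))) (n 0 (n 0 z (n 0 z (n 0 z (n 0 z (n 0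
 z (n 0 z (n 0 z z))))))) (n 0 (n 0 z (n 0 z (n 0 z (n 0 z (n 0 z (n 0 z (n 0 z z))))))) (n 0 (n
 0 z (n 0 z (n 0 z (n 0 z (n 0 z (n 0 z (n 0 z z))))))) (n 0 (n 0 z (n 0 z (n 0 z (n 0 z (n 0 z
 (n 0 z (n 0 z z))))))) (n 0 (n 0 z (n 0 z (n 0 z (n 0 z (n 0 z (n 0 z (n 0 z z))))))) (n 0 (n 0
 z (n 0 z (n 0 z (n 0 z (n 0 z (n 0 z (n 0 z z))))))) (n 0 (n 0 z (n 0 z (n 0 z (n 0 z (n 0 z (n
 0 z (n 0 z z))))))) (n 0 (n 0 z (n 0 z (n 0 z (n 0 z (n 0 z (n 0 z (n 0 z z))))))) (n 0 (n 0 z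
 (n 0 z (n 0 z (n 0 z (n 0 z (n 0 z (n 0 z z))))))) (n 0 (n 0 z (n 0 z (n 0 z (n 0 z (n 0 z (n 0
 z (n 0 z z))))))) (n 0 (n 0 z (n 0 z (n 0 z (n 0 z (n 0 z (n 0 z (n 0 z z))))))) (n 0 (n 0 z (n
 0 z (n 0 z (n 0 z (n 0 z (n 0 z (n 0 z z))))))) (n 0 (n 0 z (n 0 z (n 0 z (n 0 z (n 0 z (n 0 z
 (n 0 z z))))))) (n 0 (n 0 z (n 0 z (n 0 z (n 0 z (n 0 z (n 0 z (n 0 z z)))))))
 z))))))))))))))))))))))))))))))))) (n 153 (n 0 (n 0 z (n 0 (n 8804123 z z) (n 0 z (n 0 (n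
 8804123 z z) (n 0 z (n 0 (n 8873003 z z) (n 0 (n 8873003 z z) z))))))) (n 0 (n 0 z (n 0 z (n 0
 z (n 0 z (n 0 z (n 0 z (n 0 z z))))))) (n 0 (n 0 z (n 0 z (n 0 z (n 0 z (n 0 z (n 0 z (n 0 z
 z))))))) (n 0 (n 0 z (n 0 z (n 0 z (n 0 z (n 0 z (n 0 z (n 0 z z))))))) (n 0 (n 0 z (n 0 z (n 0
 z (n 0 z (n 0 z (n 0 z (n 0 z z))))))) (n 0 (n 0 z (n 0 z (n 0 z (n 0 z (n 0 z (n 0 z (n 0 z
 z))))))) (n 0 (n 0 z (n 0 z (n 0 z (n 0 z (n 0 z (n 0 z (n 0 z z))))))) z))))))) (n 33 (n 0 (n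
 0 (n
 0x10eaea460786179f86081f8207a08618207e07e082185f81f8208608608608208208208607e07e08207e00801 z
 z) (n 0 z (n 0 z (n 0 (n
 0xe65082a078617df82085f81e7a08618208207e082185f81f82082086085f81f7e086086182182081f8200801 z z)
 (n 0 z (n 0 (n
 0x30a8a846078617df82182082079f8628607e081f86089f81e7e182085f8608228218208a07e07e07df8200801 z
 z) (n 0 z z))))))) (n 0 (n 0 z (n 0 z (n 0 z (n 0 z (n 0 z (n 0 z (n 0 z z))))))) (n 0 (n 0 z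
 (n 0 z (n 0 z (n 0 z (n 0 z (n 0 z (n 0 z z))))))) (n 0 (n 0 z (n 0 z (n 0 z (n 0 z (n 0 z (n 0
 z (n 0 z z))))))) (n 0 (n 0 z (n 0 z (n 0 z (n 0 z (n 0 z (n 0 z (n 0 z z))))))) (n 0 (n 0 z (n
 0 z (n 0 z (n 0 z (n 0 z (n 0 z (n 0 z z))))))) z)))))) (n 9 (n 0 (n 0 z (n 0 z (n 0 z (n 0 z
 (n 0 z (n 0 z (n 0 z z))))))) (n 0 (n 0 z (n 0 z (n 0 z (n 0 z (n 0 z (n 0 z (n 0 z z))))))) (n
 0 (n 0 z (n 0 z (n 0 z (n 0 z (n 0 z (n 0 z (n 0 z z))))))) (n 0 (n 0 z (n 0 z (n 0 z (n 0 z (n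
 0 z (n 0 z (n 0 z z))))))) z)))) (n 243 (n 0 (n 0 z (n 0 z (n 0 z (n 0 z (n 0 z (n 0 z (n 0 z
 z))))))) (n 0 (n 0 z (n 0 z (n 0 z (n 0 z (n 0 z (n 0 z (n 0 z z))))))) (n 0 (n 0 z (n 0 z (n 0
 z (n 0 z (n 0 z (n 0 z (n 0 z z))))))) (n 0 (n 0 z (n 0 z (n 0 z (n 0 z (n 0 z (n 0 z (n 0 z
 z))))))) z)))) (n 1 (n 0 (n 0 z (n 0 z (n 0 z (n 0 z (n 0 z (n 0 z (n 0 z z))))))) (n 0 (n 0 z
 (n 0 z (n 0 z (n 0 z (n 0 z (n 0 z (n 0 z z))))))) (n 0 (n 0 (n 8804123 z z) (n 0 z (n 0 z (n 0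
 (n 8804123 z z) (n 0 z (n 0 (n
 0x2ea50826037e081f8a082182176086181f7e17a18a37df7e08208608608207e186182086081f7e08207df0801 z
 z) (n 0 z z))))))) (n 0 (n 0 z (n 0 z (n 0 z (n 0 z (n 0 z (n 0 z (n 0 z z))))))) (n 0 (n 0 (n
 0x30eaea46078608208208208207e08208207e07e18208208208208608608208208208208608208208208200801 z
 (n 0x30eaea460785f8208208208207e08208207e07e08208208208208608608208208208208608208208208200801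
 z z)) (n 0 z (n 0 z (n 0 (n
 0x2e65082a078208208218208207e08208208207e08208208208208208208208608208208208208208208200801 z
 (n 0x2e65082a078208208218208207e08208208207e08208208208208208208208608208208208208208208200801
 z z)) (n 0 z (n 0 (n
 0x2ea508260381f82082185f8207e08208217e07e08208208208208608618207e08608618218208208208200801 z
 (n 0x2ea508260381f8208208208207e18208207e17e082081f8208208608218208208208208208208208207e00801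
 z z)) (n 0 z z))))))) (n 0 (n 0 (n 8785955 z (n 8785955 z z)) (n 0 z (n 0 z (n 0 (n 8785955 z
 (n 8785955 z z)) (n 0 z (n 0 (n 8785955 z (n 8785955 z z)) (n 0 z z))))))) (n 0 (n 0 z (n 0 z
 (n 0 z (n 0 z (n 0 z (n 0 z (n 0 z z))))))) (n 0 (n 0 z (n 0 z (n 0 z (n 0 z (n 0 z (n 0 z (n 0
 z z))))))) (n 0 (n 0 z (n 0 z (n 0 z (n 0 z (n 0 z (n 0 z (n 0 z z))))))) z))))))))) (n 0 (n 0
 (n 0 z (n 0 z (n 0 z (n 0 z (n 0 z (n 0 z (n 0 z z))))))) (n 0 (n 0 z (n 0 z (n 0 z (n 0 z (n 0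
 z (n 0 z (n 0 z z))))))) (n 0 (n 0 z (n 0 z (n 0 z (n 0 z (n 0 z (n 0 z (n 0 z z))))))) (n 0 (n
 0 z (n 0 z (n 0 z (n 0 z (n 0 z (n 0 z (n 0 z z))))))) (n 0 (n 0 z (n 0 z (n 0 z (n 0 z (n 0 z
 (n 0 z (n 0 z z))))))) (n 0 (n 0 z (n 0 z (n 0 z (n 0 z (n 0 z (n 0 z (n 0 z z))))))) (n 0 (n 0
 z (n 0 z (n 0 z (n 0 z (n 0 z (n 0 z (n 0 z z))))))) (n 0 (n 0 z (n 0 z (n 0 z (n 0 z (n 0 z (n
 0 z (n 0 z z))))))) (n 0 (n 0 z (n 0 z (n 0 z (n 0 z (n 0 z (n 0 z (n 0 z z))))))) (n 0 (n 0 z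
 (n 0 z (n 0 z (n 0 z (n 0 z (n 0 z (n 0 z z))))))) (n 0 (n 0 z (n 0 z (n 0 z (n 0 z (n 0 z (n 0
 z (n 0 z z))))))) z))))))))))) z))))))))))))))))))))) z)))) (n
 0x8d2d6c2b75560d2d5c837546852d46882d3cab15268d0d268d21168d2c0a55500 (n 0 (n 0 (n 7754803 z (n
 7754803 z (n 7754803 z (n 7754803 z (n 7754803 z (n 7754803 z z)))))) z) (n 0 (n 153 (n 1 (n
 7538267 z (n 7546443 z (n 4268 z (n 4268 z (n 2 z (n 4268 z z)))))) (n 0 z (n 1 (n 7546443 z (n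
 7538267 z (n 10 z (n 4268 z (n 4268 z (n 4268 z z)))))) (n 1 (n 7668507 z (n 7668507 z (n
 7668507 z (n 7668507 z (n 7668507 z (n 7668507 z z)))))) (n 1 (n 6496627 z (n 3282699 z (n
 3282699 z (n 3282699 z (n 3282699 z (n 3282699 z z)))))) (n 1 (n 7754803 z (n 7754803 z (n
 7754803 z (n 7754803 z (n 7754803 z (n 7754803 z z)))))) (n 0 z z))))))) (n 253 (n 1 (n 4316 z
 (n 6498075 z (n 4316 z (n 4316 z (n 18 z (n 7754803 z z)))))) (n 0 z (n 1 (n 7545091 z (n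
 7545091 z (n 7545091 z (n 7545091 z (n 7545091 z (n 7545091 z z)))))) (n 1 (n 7545091 z (n
 7545091 z (n 7545091 z (n 7545091 z (n 7545091 z (n 7545091 z z)))))) z)))) (n 9 (n 1 (n
 7546443 z (n 7538267 z (n 26 z (n 2588 z (n 2588 z (n 2588 z z)))))) (n 1 (n 2588 z (n 7538267
 z (n 2588 z (n 2588 z (n 7546443 z (n 34 z z)))))) (n 1 (n 7545091 z (n 7545091 z (n 7545091 z
 (n 7545091 z (n 7545091 z (n 7545091 z z)))))) (n 1 (n 7754803 z (n 7754803 z (n 7754803 z (n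
 7754803 z (n 7754803 z (n 7754803 z z)))))) z)))) (n 255 (n 1 (n 2188 z (n 2188 z (n 42 z (n
 2188 z (n 2188 z (n 2188 z z)))))) (n 0 z (n 1 (n 7545091 z (n 7545091 z (n 7545091 z (n
 7545091 z (n 7545091 z (n 7545091 z z)))))) (n 1 (n 7545091 z (n 7545091 z (n 7545091 z (n
 7545091 z (n 7545091 z (n 7545091 z z)))))) z)))) (n 33 (n 1 (n 2236 z (n 2236 z (n 50 z (n
 2236 z (n 7668507 z (n 2236 z z)))))) (n 1 (n 2236 z (n 6428475 z (n 7668507 z (n 2236 z (n 58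
 z (n 2236 z z)))))) (n 1 (n 7754803 z (n 7754803 z (n 7754803 z (n 7754803 z (n 7754803 z (n
 7754803 z z)))))) (n 1 (n 7545091 z (n 7545091 z (n 7545091 z (n 7545091 z (n 7545091 z (n
 7545091 z z)))))) z)))) (n 9 (n 1 (n 7545091 z (n 7545091 z (n 7545091 z (n 7545091 z (n
 7545091 z (n 7545091 z z)))))) (n 0 z (n 1 (n 66 z (n 7672331 z (n 2300 z (n 2300 z (n 2300 z
 (n 2300 z z)))))) (n 0 z (n 0 z (n 1 (n 7754803 z (n 7754803 z (n 7754803 z (n 7754803 z (n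
 7754803 z (n 7754803 z z)))))) (n 1 (n 2300 z (n 7672331 z (n 74 z (n 2300 z (n 2300 z (n 2300
 z z)))))) z))))))) (n 9 (n 1 (n 82 z (n 7672331 z (n 1228 z (n 1228 z (n 1228 z (n 1228 z
 z)))))) (n 1 (n 1228 z (n 7672331 z (n 1228 z (n 1228 z (n 1228 z (n 1228 z z)))))) (n 1 (n
 7545091 z (n 7545091 z (n 7545091 z (n 7545091 z (n 7545091 z (n 7545091 z z)))))) (n 1 (n
 7754803 z (n 7754803 z (n 7754803 z (n 7754803 z (n 7754803 z (n 7754803 z z)))))) z))))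
 z))))))) (n 0 (n 0 (n 0 z (n 0 z (n 0 z (n 0 z (n 0 z (n 0 z (n 0 z (n 0 z (n 0 z (n 0 z (n 0 z
 z))))))))))) (n 0 (n 0 z (n 0 z (n 0 z (n 0 z (n 0 z (n 0 z (n 0 z (n 0 z (n 0 z (n 0 z
 z)))))))))) (n 0 (n 0 z (n 0 z (n 0 z (n 0 z (n 0 z (n 0 z (n 0 z (n 0 z (n 0 z z))))))))) (n 0
 (n 0 z (n 0 z (n 0 z (n 0 z (n 0 z (n 0 z (n 0 z (n 0 z z)))))))) (n 0 (n 0 z (n 0 z (n 0 z (n
 0 z (n 0 z (n 0 z (n 0 z z))))))) (n 0 (n 0 z (n 0 z (n 0 z (n 0 z (n 0 z (n 0 z z)))))) (n 0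
 (n 0 z (n 0 z (n 0 z (n 0 z (n 0 z z))))) (n 0 (n 0 z (n 0 z (n 0 z (n 0 z z)))) (n 0 (n 0 z (n
 0 z (n 0 z z))) (n 0 (n 0 z (n 0 z z)) (n 0 (n 0 z z) z))))))))))) (n 0 (n 539 (n 0 (n 0 z (n 0
 z (n 0 z (n 0 z (n 0 z (n 0 (n 8851491 z (n 8851491 z z)) (n 0 z (n 0 z (n 0 z (n 0 z (n 0 z
 z))))))))))) (n 0 (n 0 z (n 0 z (n 0 z (n 0 z (n 0 z (n 0 (n 8586843 z (n 8586843 z z)) (n 0 z
 (n 0 z (n 0 z (n 0 z (n 0 z z))))))))))) (n 0 (n 0 (n 5449739 z (n 5449739 z z)) (n 0 z (n 0 z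
 (n 0 z (n 0 z (n 0 z (n 0 z (n 0 z (n 0 z (n 0 z (n 0 z z))))))))))) (n 0 (n 0 (n 8872995 z (n
 8872995 z z)) (n 0 z (n 0 z (n 0 z (n 0 z (n 0 z (n 0 z (n 0 z (n 0 z (n 0 z (n 0 z
 z))))))))))) (n 0 (n 0 (n 4401163 z (n 4401163 z z)) (n 0 z (n 0 (n 8851491 z z) (n 0 z (n 0 z
 (n 0 z (n 0 z (n 0 z (n 0 z (n 0 z (n 0 (n 8851491 z z) z))))))))))) (n 0 (n 0 (n 8872995 z (n
 8872995 z z)) (n 0 z (n 0 z (n 0 z (n 0 (n 5519371 z z) (n 0 z (n 0 z (n 0 z (n 0 z (n 0 z (n 0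
 z z))))))))))) (n 0 (n 0 z (n 0 z (n 0 z (n 0 z (n 0 z (n 0 z (n 0 z (n 0 z (n 0 z (n 0 z (n 0
 z z))))))))))) (n 0 (n 0 (n 8872515 z (n 8872515 z z)) (n 0 z (n 0 (n 8851491 z (n 8851491 z
 z)) (n 0 z (n 0 (n 7546907 z (n 8586843 z z)) (n 0 (n 8851491 z (n 8851491 z z)) (n 0 z (n 0 z
 (n 0 z (n 0 z (n 0 (n 8851491 z (n 8851491 z z)) z))))))))))) (n 0 (n 0 z (n 0 z (n 0 z (n 0 z
 (n 0 z (n 0 z (n 0 z (n 0 z (n 0 z (n 0 z (n 0 z z))))))))))) (n 0 (n 0 (n 8872515 z (n 8872515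
 z z)) (n 0 z (n 0 (n 8851491 z (n 8851491 z z)) (n 0 z (n 0 z (n 0 (n 8851491 z (n 8851491 z
 z)) (n 0 z (n 0 z (n 0 z (n 0 z (n 0 (n 8851491 z (n 8851491 z z)) z))))))))))) (n 0 (n 0 z (n
 0 z (n 0 (n 8851491 z z) (n 0 z (n 0 z (n 0 z (n 0 z (n 0 z (n 0 z (n 0 z (n 0 (n 8851491 z z)
 z))))))))))) (n 0 (n 0 (n 8872515 z (n 8872515 z z)) (n 0 z (n 0 (n 8851491 z (n 8851491 z z))
 (n 0 z (n 0 (n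
 0x30caeca6078608607e08208207e18208208207e18208608208208208207e08208208208218208208208210801 z
 (n
 0x25875837a7e6a7c879980847d7c8681866f89807b75908386857c7d7376877d807e8b87697e84ab817078728789827684817694830049
 z z)) (n 0 (n 8851491 z (n 8851491 z z)) (n 0 z (n 0 z (n 0 z (n 0 z (n 0 (n 8851491 z (n
 8851491 z z)) z))))))))))) (n 0 (n 0 (n 8872995 z (n 8872995 z z)) (n 0 z (n 0 (n 8873003 z z)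
 (n 0 z (n 0 (n
 0x30caeca6077df85f7e08208207e18607e07e18208208608208208608607e08208208208618208208208210801 z
 z) (n 0 z (n 0 z (n 0 z (n 0 z (n 0 z (n 0 (n 8873003 z z) z))))))))))) (n 0 (n 0 z (n 0 z (n 0
 z (n 0 z (n 0 z (n 0 z (n 0 z (n 0 z (n 0 z (n 0 z (n 0 z z))))))))))) (n 0 (n 0 z (n 0 z (n 0
 z (n 0 z (n 0 z (n 0 z (n 0 z (n 0 z (n 0 z (n 0 z (n 0 z z))))))))))) (n 0 (n 0 z (n 0 z (n 0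
 z (n 0 z (n 0 z (n 0 z (n 0 z (n 0 z (n 0 z (n 0 z (n 0 z z))))))))))) z)))))))))))))))) (n 323
 (n 0 (n 0 (n 4397067 z (n 4397067 z z)) (n 0 z (n 0 (n 4397067 z z) (n 0 z (n 0 z (n 0 z (n 0 z
 (n 0 z (n 0 z (n 0 z (n 0 (n 4397067 z z) z))))))))))) (n 0 (n 0 (n 8872515 z (n 8872515 z z))
 (n 0 z (n 0 (n 8586843 z (n 8586843 z z)) (n 0 z (n 0 (n 8586843 z (n 8586843 z z)) (n 0 (n
 8586843 z (n 8586843 z z)) (n 0 z (n 0 z (n 0 z (n 0 z (n 0 (n 8586843 z (n 8586843 z z))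
 z))))))))))) (n 0 (n 0 (n
 0x30caeca6078208607e08208207e18217e07e18208208208208208208208208208208208608208208208210801 z
 z) (n 0 z (n 0 z (n 0 z (n 0 z (n 0 z (n 0 z (n 0 z (n 0 z (n 0 z (n 0 z z))))))))))) (n 0 (n 0
 z (n 0 z (n 0 z (n 0 z (n 0 z (n 0 z (n 0 z (n 0 z (n 0 z (n 0 z (n 0 z z))))))))))) (n 0 (n 0
 (n 8872515 z z) (n 0 z (n 0 z (n 0 z (n 0 z (n 0 z (n 0 z (n 0 z (n 0 z (n 0 z (n 0 z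
 z))))))))))) (n 0 (n 0 z (n 0 z (n 0 z (n 0 z (n 0 z (n 0 (n
 0x4d8518b7b7e899d94755e847f6e858683647576867daaa280827b849f9f7966a973555f28919eb389188e7bcc679b95846f97ad710049
 z (n 8791835 z z)) (n 0 z (n 0 z (n 0 z (n 0 z (n 0 z z))))))))))) (n 0 (n 0 z (n 0 z (n 0 z (n
 0 z (n 0 z (n 0 (n
 0x4d8518b7b7e899d94755e847f6e858683647576867daaa280827b849f9f7966a973555f28919eb389188e7bcc679b95846f97ad710049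
 z (n
 0x4d8518b7b7e899d94755e847f6e858683647576867daaa280827b849f9f7966a973555f28919eb389188e7bcc679b95846f97ad710049
 z z)) (n 0 z (n 0 z (n 0 z (n 0 z (n 0 z z))))))))))) (n 0 (n 0 (n 8869435 z (n 8869435 z z))
 (n 0 z (n 0 (n
 0x25851837a7e6a7c879980847d7c8681866f89807b75908386857c7d7376877d807e8b87697e84ab817078728789827684817694830049
 z (n 0xd8748608208208208207e08208207e07e08208208208208208208208208208208608208208208200041 z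
 z)) (n 0 z (n 0 (n
 0x25851837a7e6a7c879980847d7c8681866f89807b75908386857c7d7376877d807e8b87697e84ab817078728789827684817694830049
 z (n
 0x25851837a7e6a7c879980847d7c8681866f89807b75908386857c7d7376877d807e8b87697e84ab817078728789827684817694830049
 z z)) (n 0 (n
 0x25851837a7e6a7c879980847d7c8681866f89807b75908386857c7d7376877d807e8b87697e84ab817078728789827684817694830049
 z (n 0xd8748608208208208207e08208207e07e08208208208208208208208208208208608208208208200041 z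
 z)) (n 0 z (n 0 z (n 0 z (n 0 z (n 0 (n
 0x25851837a7e6a7c879980847d7c8681866f89807b75908386857c7d7376877d807e8b87697e84ab817078728789827684817694830049
 z (n 0xd8748608208208208207e08208207e07e08208208208208208208208208208208608208208208200041 z
 z)) z))))))))))) (n 0 (n 0 z (n 0 z (n 0 z (n 0 z (n 0 z (n 0 z (n 0 z (n 0 z (n 0 z (n 0 z (n
 0 z z))))))))))) (n 0 (n 0 (n
 0x9d8757b7680717670898a8a94898a7b897b857b8f7c8e6b667b6c92866f5b7f8060718acc927f5284d36c91669961626e889b50840049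
 z (n
 0x30caeca6078607e08208208207e08608208207e08208208208208208208208208208208208208208208200801 z
 z)) (n 0 z (n 0 (n
 0x75874867c7e63787c928586837a847f845e917a83829a727a847c87857b7960928178826d82988a7f6182898f967b7a807f80976f0049
 z (n 0xd8748608208208208207e08208207e07e08208208208208208208208208208208608208208208200041 z
 z)) (n 0 z (n 0 (n
 0x30caeca6078608208208208207e08208208207e08208208208208208218208208208208208208208208200801 z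
 (n 0x30caeca60785f7e08208208207e08608208208208208208208208208208208208208208208208208208200801
 z z)) (n 0 (n 8869403 z (n 8869403 z z)) (n 0 z (n 0 z (n 0 z (n 0 z (n 0 (n
 0x95874877a7d5c767c9686898479857f855595788383a06e79847c88877a77569682768269829e8c7f59828c939c7a78817e819c6c0049
 z (n 0xd8748608208208208207e08208207e07e08208208208208208208208208208208608208208208200041 z
 z)) z))))))))))) (n 0 (n 0 z (n 0 z (n 0 (n 8595019 z z) (n 0 z (n 0 z (n 0 z (n 0 z (n 0 z (n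
 0 z (n 0 z (n 0 (n 8595019 z z) z))))))))))) (n 0 (n 0 (n 8872515 z (n 8872515 z z)) (n 0 z (n
 0 z (n 0 z (n 0 (n
 0x30caeca6078208607e08208207e18217e07e18208208208208208208208208208208208608208208208210801 z
 z) (n 0 z (n 0 z (n 0 z (n 0 z (n 0 z (n 0 z z))))))))))) (n 0 (n 0 z (n 0 z (n 0 z (n 0 z (n 0
 z (n 0 z (n 0 z (n 0 z (n 0 z (n 0 z (n 0 z z))))))))))) (n 0 (n 0 z (n 0 z (n 0 z (n 0 z (n 0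
 z (n 0 z (n 0 z (n 0 z (n 0 z (n 0 z (n 0 z z))))))))))) (n 0 (n 0 z (n 0 z (n 0 z (n 0 z (n 0
 z (n 0 z (n 0 z (n 0 z (n 0 z (n 0 z (n 0 z z))))))))))) z))))))))))))))) (n 63 (n 0 (n 0 (n
 0x30caeca60781f8607e08208207e18207e07e18208208208208208608608208208208208208208208208210801 z
 z) (n 0 z (n 0 z (n 0 z (n 0 z (n 0 z (n 0 z (n 0 z (n 0 z (n 0 z (n 0 z z))))))))))) (n 0 (n 0
 (n 0x30caeca6078608607e08208208208208208208208208208208208208208208208208208208208208208200801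
 z (n 8660843 z z)) (n 0 z (n 0 z (n 0 z (n 0 (n 8868707 z z) (n 0 z (n 0 z (n 0 (n 8868707 z z)
 (n 0 z (n 0 z (n 0 z z))))))))))) (n 0 (n 0 (n
 0x30caeca6078208607e08208207e18217e07e18208208208208208208208208208208208608208208208210801 z
 z) (n 0 z (n 0 z (n 0 z (n 0 z (n 0 z (n 0 z (n 0 z (n 0 z (n 0 z (n 0 z z))))))))))) (n 0 (n 0
 (n
 0x170caca06078288147eb8058388037e57c27ff7f27b97fe81e8077e182d7df7f180582c84580f81e81b7fa8358247d77cc8537ed7a47dc70282383d87780e70b8237cd8bd80d84581b7ea7ee84e8567e00811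
 z (n
 0x10caeca60785f8208208208208208208208208208208208208208208208208208208208208208208208200801 z
 z)) (n 0 z (n 0 z (n 0 z (n 0 z (n 0 (n
 0x9d8747b7680717670898a8a94898a7b897b857b8f7c8e6b667b6c92866f5b7f8060718acc927f5284d36c91669961626e889b50840049
 z z) (n 0 z (n 0 z (n 0 z (n 0 z (n 0 z z))))))))))) (n 0 (n 0 z (n 0 z (n 0 z (n 0 z (n 0 z (n
 0 z (n 0 z (n 0 z (n 0 z (n 0 z (n 0 z z))))))))))) (n 0 (n 0 (n 8593667 z z) (n 0 z (n 0 z (n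
 0 z (n 0 z (n 0 z (n 0 z (n 0 z (n 0 z (n 0 z (n 0 z z))))))))))) (n 0 (n 0 z (n 0 z (n 0 z (n
 0 z (n 0 z (n 0 z (n 0 z (n 0 z (n 0 z (n 0 z (n 0 z z))))))))))) (n 0 (n 0 z (n 0 z (n 0 z (n
 0 z (n 0 z (n 0 z (n 0 z (n 0 z (n 0 z (n 0 z (n 0 z z))))))))))) z)))))))) (n 273 (n 0 (n 0 (n
 8872995 z (n 8872995 z z)) (n 0 z (n 0 (n 8791835 z z) (n 0 z (n 0 (n
 0x30c6ec2a078608607e08208208218217e08208208208208208208208207e08208208208218208608208210801 z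
 z) (n 0 z (n 0 z (n 0 z (n 0 z (n 0 z (n 0 (n 8873003 z z) z))))))))))) (n 0 (n 0 z (n 0 z (n 0
 z (n 0 z (n 0 z (n 0 z (n 0 z (n 0 z (n 0 z (n 0 z (n 0 z z))))))))))) (n 0 (n 0 z (n 0 z (n 0
 z (n 0 z (n 0 z (n 0 z (n 0 z (n 0 z (n 0 z (n 0 z (n 0 z z))))))))))) (n 0 (n 0 z (n 0 z (n 0
 z (n 0 z (n 0 z (n 0 z (n 0 z (n 0 z (n 0 z (n 0 z (n 0 z z))))))))))) (n 0 (n 0 (n 4331531 z
 (n 4331531 z z)) (n 0 z (n 0 (n 8851491 z z) (n 0 z (n 0 z (n 0 z (n 0 z (n 0 z (n 0 z (n 0 z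
 (n 0 (n 8851491 z z) z))))))))))) (n 0 (n 0 (n 8872515 z (n 8872515 z z)) (n 0 z (n 0 (n
 8794451 z z) (n 0 z (n 0 z (n 0 (n 8794451 z z) (n 0 z (n 0 z (n 0 z (n 0 (n 8794451 z z) (n 0
 (n 8794451 z z) z))))))))))) (n 0 (n 0 z (n 0 z (n 0 z (n 0 z (n 0 z (n 0 z (n 0 z (n 0 z (n 0
 z (n 0 z (n 0 z z))))))))))) (n 0 (n 0 z (n 0 z (n 0 z (n 0 z (n 0 z (n 0 z (n 0 z (n 0 z (n 0
 z (n 0 z (n 0 z z))))))))))) (n 0 (n 0 (n 8794451 z z) (n 0 z (n 0 z (n 0 z (n 0 z (n 0 z (n 0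
 z (n 0 z (n 0 z (n 0 z (n 0 z z))))))))))) z))))))))) (n 255 (n 0 (n 0 (n 7743515 z z) (n 0 z
 (n 0 z (n 0 z (n 0 z (n 0 z (n 0 z (n 0 z (n 0 z (n 0 z (n 0 z z))))))))))) (n 0 (n 0 (n
 8593667 z (n 8593667 z z)) (n 0 z (n 0 z (n 0 z (n 0 z (n 0 z (n 0 z (n 0 z (n 0 z (n 0 z (n 0
 z z))))))))))) (n 0 (n 0 z (n 0 z (n 0 z (n 0 z (n 0 z (n 0 z (n 0 z (n 0 z (n 0 z (n 0 z (n 0
 z z))))))))))) (n 0 (n 0 z (n 0 z (n 0 z (n 0 z (n 0 z (n 0 z (n 0 z (n 0 z (n 0 z (n 0 z (n 0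
 z z))))))))))) z)))) (n 129 (n 0 (n 0 z (n 0 z (n 0 z (n 0 z (n 0 z (n 0 z (n 0 z (n 0 z (n 0 z
 (n 0 z (n 0 z z))))))))))) (n 0 (n 0 z (n 0 z (n 0 z (n 0 z (n 0 z (n 0 z (n 0 z (n 0 z (n 0 z
 (n 0 z (n 0 z z))))))))))) (n 0 (n 0 (n 8593667 z (n 8593667 z z)) (n 0 z (n 0 z (n 0 z (n 0 z
 (n 0 z (n 0 z (n 0 z (n 0 z (n 0 z (n 0 z z))))))))))) (n 0 (n 0 z (n 0 z (n 0 z (n 0 z (n 0 z
 (n 0 z (n 0 z (n 0 z (n 0 z (n 0 z (n 0 z z))))))))))) (n 0 (n 0 z (n 0 z (n 0 z (n 0 z (n 0 z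
 (n 0 z (n 0 z (n 0 z (n 0 z (n 0 z (n 0 z z))))))))))) z))))) (n 279 (n 0 (n 0 (n 8872995 z (n
 8872995 z z)) (n 0 z (n 0 z (n 0 z (n 0 (n
 0x30caeca6078208607e08208207e18217e07e18208208208208208208208208208208208608208208208210801 z
 z) (n 0 z (n 0 z (n 0 z (n 0 z (n 0 z (n 0 z z))))))))))) (n 0 (n 0 z (n 0 z (n 0 z (n 0 z (n 0
 z (n 0 z (n 0 z (n 0 z (n 0 z (n 0 z (n 0 z z))))))))))) (n 0 (n 0 z (n 0 z (n 0 z (n 0 z (n 0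
 z (n 0 z (n 0 z (n 0 z (n 0 z (n 0 z (n 0 z z))))))))))) (n 0 (n 0 (n 8717083 z z) (n 0 z (n 0
 z (n 0 z (n 0 z (n 0 z (n 0 z (n 0 z (n 0 z (n 0 z (n 0 z z))))))))))) (n 0 (n 0 (n 8872995 z
 z) (n 0 z (n 0 z (n 0 z (n 0 z (n 0 z (n 0 z (n 0 z (n 0 z (n 0 z (n 0 z z))))))))))) (n 0 (n 0
 (n 3282955 z (n 3282955 z z)) (n 0 z (n 0 z (n 0 z (n 0 z (n 0 z (n 0 z (n 0 z (n 0 z (n 0 z (n
 0 z z))))))))))) (n 0 (n 0 z (n 0 z (n 0 z (n 0 z (n 0 z (n 0 z (n 0 z (n 0 z (n 0 z (n 0 z (n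
 0 z z))))))))))) z))))))) (n 33 (n 0 (n 0 (n 7743515 z z) (n 0 z (n 0 z (n 0 z (n 0 z (n 0 z (n
 0 z (n 0 z (n 0 z (n 0 z (n 0 z z))))))))))) (n 0 (n 0 z (n 0 z (n 0 z (n 0 z (n 0 z (n 0 z (n
 0 z (n 0 z (n 0 z (n 0 z (n 0 z z))))))))))) (n 0 (n 0 (n 8872995 z (n 8872995 z z)) (n 0 z (n
 0 z (n 0 z (n 0 (n 8803379 z z) (n 0 z (n 0 z (n 0 (n 8803379 z z) (n 0 z (n 0 z (n 0 z
 z))))))))))) (n 0 (n 0 z (n 0 z (n 0 z (n 0 z (n 0 z (n 0 z (n 0 z (n 0 z (n 0 z (n 0 z (n 0 z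
 z))))))))))) z)))) (n 9 (n 0 (n 0 z (n 0 z (n 0 z (n 0 z (n 0 z (n 0 z (n 0 z (n 0 z (n 0 z (n
 0 z (n 0 z z))))))))))) (n 0 (n 0 (n
 0x30caeca6078208607e08208207e18217e07e18208208208208208208208208208208208608208208208210801 z
 z) (n 0 z (n 0 z (n 0 z (n 0 z (n 0 z (n 0 z (n 0 z (n 0 z (n 0 z (n 0 z z))))))))))) (n 0 (n 0
 (n 8803379 z (n 8803379 z z)) (n 0 z (n 0 z (n 0 z (n 0 z (n 0 z (n 0 z (n 0 z (n 0 z (n 0 z (n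
 0 z z))))))))))) (n 0 (n 0 z (n 0 z (n 0 z (n 0 z (n 0 z (n 0 z (n 0 z (n 0 z (n 0 z (n 0 z (n
 0 z z))))))))))) z)))) (n 267 (n 0 (n 0 z (n 0 z (n 0 z (n 0 z (n 0 z (n 0 z (n 0 z (n 0 z (n 0
 z (n 0 z (n 0 z z))))))))))) (n 0 (n 0 (n
 0x30c6ec2a078208207e08208207e18208207e18208208208208208208208208208208208208208208208200801 z
 z) (n 0 z (n 0 z (n 0 z (n 0 z (n 0 z (n 0 z (n 0 z (n 0 z (n 0 z (n 0 z z))))))))))) (n 0 (n 0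
 z (n 0 z (n 0 z (n 0 z (n 0 z (n 0 z (n 0 z (n 0 z (n 0 z (n 0 z (n 0 z z))))))))))) (n 0 (n 0
 (n 8872995 z (n 8872995 z z)) (n 0 z (n 0 z (n 0 z (n 0 (n 2164811 z z) (n 0 z (n 0 z (n 0 z (n
 0 z (n 0 z (n 0 z z))))))))))) (n 0 (n 0 z (n 0 z (n 0 z (n 0 z (n 0 z (n 0 z (n 0 z (n 0 z (n
 0 z (n 0 z (n 0 z z))))))))))) z))))) (n 287 (n 0 (n 0 (n 3282955 z (n 3282955 z z)) (n 0 z (n
 0 z (n 0 z (n 0 z (n 0 z (n 0 z (n 0 z (n 0 z (n 0 z (n 0 z z))))))))))) (n 0 (n 0 z (n 0 z (n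
 0 z (n 0 z (n 0 z (n 0 z (n 0 z (n 0 z (n 0 z (n 0 z (n 0 z z))))))))))) (n 0 (n 0 z (n 0 z (n
 0 z (n 0 z (n 0 z (n 0 z (n 0 z (n 0 z (n 0 z (n 0 z (n 0 z z))))))))))) (n 0 (n 0 z (n 0 z (n
 0 z (n 0 z (n 0 z (n 0 z (n 0 z (n 0 z (n 0 z (n 0 z (n 0 z z))))))))))) (n 0 (n 0 z (n 0 z (n
 0 (n 8791835 z z) (n 0 z (n 0 z (n 0 z (n 0 z (n 0 (n
 0x10ed0ec6037a081f82182082082082082082082082082082082082081f8208208208208218208208207e00801 z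
 z) (n 0 z (n 0 (n
 0x10ed0ec6037a081f82182082082082082082082082082082082082081f8208208208208218208208207e00801 z
 z) (n 0 (n 8873003 z z) z))))))))))) (n 0 (n 0 (n
 0x70caec860399f7e286569681f79d82395f81a864a9f8dd89f9a166691851c8689654e36ee6a781772295c0801 z
 z) (n 0 z (n 0 z (n 0 z (n 0 z (n 0 z (n 0 z (n 0 z (n 0 z (n 0 z (n 0 z z))))))))))) (n 0 (n 0
 (n 8872995 z (n 8872995 z z)) (n 0 z (n 0 (n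
 0x110ed0ec6037b8175947d8b866c7776897f7b72907e8a7585879a88748d757d75788d757a817d9179847e7ba2815e877894736f83866b870809
 z z) (n 0 z (n 0 (n
 0x30caec860382085f8207e18207e18218207e08218208208208208208207e08208208208208208208208200801 z
 z) (n 0 z (n 0 z (n 0 z (n 0 z (n 0 z (n 0 (n
 0xd0c90c8603747b77a9879274767d7a9885746b935e917f84839285648b76807884ab637d868eb27b646973c37a74775e8e736c848e54840809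
 z z) z))))))))))) (n 0 (n 0 z (n 0 z (n 0 z (n 0 z (n 0 z (n 0 z (n 0 z (n 0 z (n 0 z (n 0 z (n
 0 z z))))))))))) (n 0 (n 0 (n 8803379 z z) (n 0 z (n 0 z (n 0 z (n 0 z (n 0 z (n 0 z (n 0 z (n
 0 z (n 0 z (n 0 z z))))))))))) (n 0 (n 0 z (n 0 z (n 0 z (n 0 z (n 0 z (n 0 z (n 0 z (n 0 z (n
 0 z (n 0 z (n 0 z z))))))))))) z)))))))))) (n 33 (n 0 (n 0 (n 8660843 z (n
 0x30caec860381f85f7e17e08208217e082185f86082086081f8207e08207e18208218218217e081f81f8210801 z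
 z)) (n 0 z (n 0 z (n 0 z (n 0 z (n 0 (n 8851491 z z) (n 0 z (n 0 z (n 0 z (n 0 z (n 0 z
 z))))))))))) (n 0 (n 0 z (n 0 z (n 0 z (n 0 z (n 0 z (n 0 z (n 0 z (n 0 z (n 0 z (n 0 z (n 0 z
 z))))))))))) (n 0 (n 0 z (n 0 z (n 0 z (n 0 z (n 0 z (n 0 z (n 0 z (n 0 z (n 0 z (n 0 z (n 0 z
 z))))))))))) (n 0 (n 0 z (n 0 z (n 0 z (n 0 z (n 0 z (n 0 z (n 0 z (n 0 z (n 0 z (n 0 z (n 0 z
 z))))))))))) (n 0 (n 0 (n 8593667 z (n 8593667 z z)) (n 0 z (n 0 (n 8593667 z (n 8593667 z z))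
 (n 0 z (n 0 z (n 0 (n 8593667 z (n 8593667 z z)) (n 0 z (n 0 z (n 0 z (n 0 z (n 0 (n 8593667 z
 (n 8593667 z z)) z))))))))))) (n 0 (n 0 (n 8593667 z (n 8593667 z z)) (n 0 z (n 0 z (n 0 z (n 0
 z (n 0 (n 8593667 z z) (n 0 z (n 0 z (n 0 z (n 0 z (n 0 z z))))))))))) (n 0 (n 0 z (n 0 z (n 0
 z (n 0 z (n 0 z (n 0 z (n 0 z (n 0 z (n 0 z (n 0 z (n 0 z z))))))))))) (n 0 (n 0 z (n 0 z (n 0
 z (n 0 z (n 0 z (n 0 z (n 0 z (n 0 z (n 0 z (n 0 z (n 0 z z))))))))))) (n 0 (n 0 z (n 0 z (n 0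
 z (n 0 z (n 0 z (n 0 z (n 0 z (n 0 z (n 0 z (n 0 z (n 0 z z))))))))))) (n 0 (n 0 z (n 0 z (n 0
 z (n 0 z (n 0 z (n 0 z (n 0 z (n 0 z (n 0 z (n 0 z (n 0 z z))))))))))) (n 0 (n 0 z (n 0 z (n 0
 z (n 0 z (n 0 z (n 0 z (n 0 z (n 0 (n
 0x30caec86038608208208208207e08208208208208208208208208208208208208208208208208208208200801 z
 z) (n 0 z (n 0 z (n 0 z z))))))))))) (n 0 (n 0 (n 8803379 z z) (n 0 z (n 0 z (n 0 z (n 0 z (n 0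
 z (n 0 z (n 0 z (n 0 z (n 0 z (n 0 z z))))))))))) (n 0 (n 0 z (n 0 z (n 0 z (n 0 z (n 0 z (n 0
 z (n 0 z (n 0 z (n 0 z (n 0 z (n 0 z z))))))))))) z))))))))))))) (n 9 (n 0 (n 0 (n 8593667 z z)
 (n 0 z (n 0 z (n 0 z (n 0 z (n 0 z (n 0 z (n 0 z (n 0 z (n 0 z (n 0 z z))))))))))) (n 0 (n 0 (n
 0x30caec860385f89f7e07e18208217a18208608208208208207e07e08207e17e08208208218208608608200801 z
 z) (n 0 z (n 0 z (n 0 z (n 0 z (n 0 z (n 0 z (n 0 z (n 0 z (n 0 z (n 0 z z))))))))))) (n 0 (n 0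
 z (n 0 z (n 0 z (n 0 z (n 0 z (n 0 z (n 0 z (n 0 z (n 0 z (n 0 z (n 0 z z))))))))))) (n 0 (n 0
 z (n 0 z (n 0 z (n 0 z (n 0 z (n 0 z (n 0 z (n 0 z (n 0 z (n 0 z (n 0 z z))))))))))) (n 0 (n 0
 z (n 0 z (n 0 z (n 0 z (n 0 z (n 0 z (n 0 z (n 0 z (n 0 z (n 0 z (n 0 z z))))))))))) (n 0 (n 0
 (n 8803379 z z) (n 0 z (n 0 z (n 0 z (n 0 z (n 0 z (n 0 z (n 0 z (n 0 z (n 0 z (n 0 z
 z))))))))))) (n 0 (n 0 (n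
 0x10ed0ec6037a081f82182082082082082082082082082082082082081f8208208208208218208208207e00801 z
 z) (n 0 z (n 0 z (n 0 z (n 0 z (n 0 z (n 0 z (n 0 z (n 0 z (n 0 z (n 0 z z))))))))))) z)))))))
 (n 269 (n 0 (n 0 z (n 0 z (n 0 z (n 0 z (n 0 (n
 0x10ed0ec0078608208208208207a08618207e07e182186081f82086082082082082182082082082081f8200801 z
 z) (n 0 z (n 0 z (n 0 z (n 0 z (n 0 z (n 0 z z))))))))))) (n 0 (n 0 z (n 0 z (n 0 z (n 0 z (n 0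
 z (n 0 z (n 0 z (n 0 z (n 0 z (n 0 z (n 0 z z))))))))))) (n 0 (n 0 z (n 0 z (n 0 z (n 0 z (n 0
 z (n 0 z (n 0 z (n 0 z (n 0 z (n 0 z (n 0 z z))))))))))) (n 0 (n 0 (n 8593667 z (n 8593667 z
 z)) (n 0 z (n 0 z (n 0 z (n 0 z (n 0 z (n 0 z (n 0 z (n 0 z (n 0 z (n 0 z z))))))))))) (n 0 (n
 0 z (n 0 z (n 0 z (n 0 z (n 0 z (n 0 z (n 0 z (n 0 z (n 0 z (n 0 (n 8720907 z z) (n 0 z
 z))))))))))) (n 0 (n 0 z (n 0 z (n 0 z (n 0 z (n 0 z (n 0 z (n 0 z (n 0 z (n 0 z (n 0 (n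
 8868707 z z) (n 0 z z))))))))))) (n 0 (n 0 z (n 0 z (n 0 z (n 0 z (n 0 z (n 0 z (n 0 z (n 0 z
 (n 0 z (n 0 z (n 0 z z))))))))))) (n 0 (n 0 (n 8872515 z (n 8872515 z z)) (n 0 z (n 0 z (n 0 z
 (n 0 (n 8868707 z z) (n 0 z (n 0 z (n 0 (n 8868707 z z) (n 0 z (n 0 z (n 0 z z))))))))))) (n 0
 (n 0 (n 8872515 z (n 8872515 z z)) (n 0 z (n 0 (n 8720907 z (n 8720907 z z)) (n 0 z (n 0 (n
 8868707 z (n 8868707 z z)) (n 0 (n 8720907 z (n 8720907 z z)) (n 0 z (n 0 (n 8868707 z (n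
 8868707 z z)) (n 0 z (n 0 (n 8868707 z (n 8868707 z z)) (n 0 (n 8720907 z (n 8720907 z z))
 z))))))))))) (n 0 (n 0 z (n 0 z (n 0 z (n 0 z (n 0 z (n 0 z (n 0 z (n 0 (n 8868707 z z) (n 0 z
 (n 0 (n 8868707 z z) (n 0 z z))))))))))) (n 0 (n 0 z (n 0 z (n 0 z (n 0 z (n 0 z (n 0 z (n 0 z
 (n 0 z (n 0 z (n 0 z (n 0 z z))))))))))) (n 0 (n 0 z (n 0 z (n 0 z (n 0 z (n 0 (n 8868707 z (n
 8868707 z z)) (n 0 z (n 0 z (n 0 (n 8868707 z (n 8868707 z z)) (n 0 z (n 0 (n 8868707 z (n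
 8868707 z z)) (n 0 z z))))))))))) (n 0 (n 0 (n 4261979 z (n 4261979 z z)) (n 0 z (n 0 z (n 0 z
 (n 0 (n 8868707 z z) (n 0 z (n 0 z (n 0 z (n 0 z (n 0 (n 8868707 z z) (n 0 z z))))))))))) (n 0
 (n 0 (n 8720907 z z) (n 0 z (n 0 z (n 0 z (n 0 z (n 0 z (n 0 z (n 0 z (n 0 z (n 0 z (n 0 z
 z))))))))))) (n 0 (n 0 (n 8872995 z (n 8872995 z z)) (n 0 z (n 0 (n
 0x2f0a6e42c077fe8087fd8098378278017ea8137f180f7f87f27dd7c37bb81a8098098157cd8027d08227fe8048568677fb7bf83882a7c27e07ea7f883f7e27a58128147d97a880982588080077d83282a0811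
 z (n 0xd87282081f8208208207a18217e17e17a182181f7e08208618208207df8608608607e07df81f8200041 z
 z)) (n 0 z (n 0 (n 7473227 z (n
 0xb0e30e08037186879f89837075797c997675738c5d8d888075807e6d7b81919a99965e957d68c2796c4878be87854469849781876461870809
 z z)) (n 0 (n
 0x70a2e80c037a189f7e181f81f7e18217e082082085f86082081e81e85f7df81f7df8608a18a085f85f8600801 z
 (n 0xd87282081f8208208207a18217e17e17a182181f7e08208618208207df8608608607e07df81f8200041 z z))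
 (n 0 z (n 0 z (n 0 z (n 0 z (n 0 (n
 0x870a6840c077d181d7db79a73974b8628a07e28447f582781786f8ac8de7a68197ec79577d7be86479d8227966bd7148408457bb8638f09e27f17a9636804a6c79585278690c7687516b58169426e97730811
 z (n 0xd87282081f8208208207a18217e17e17a182181f7e08208618208207df8608608607e07df81f8200041 z
 z)) z))))))))))) (n 0 (n 0 z (n 0 z (n 0 z (n 0 z (n 0 z (n 0 z (n 0 z (n 0 z (n 0 z (n 0 z (n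
 0 z z))))))))))) (n 0 (n 0 z (n 0 z (n 0 z (n 0 z (n 0 (n
 0x30a6e80c038208208208208208208608207e07e08208208208208208208208218208208208208208208200801 z
 z) (n 0 z (n 0 z (n 0 z (n 0 z (n 0 z (n 0 z z))))))))))) (n 0 (n 0 (n 8872995 z z) (n 0 z (n 0
 z (n 0 z (n 0 z (n 0 z (n 0 z (n 0 z (n 0 z (n 0 z (n 0 z z))))))))))) (n 0 (n 0 z (n 0 z (n 0
 z (n 0 z (n 0 z (n 0 z (n 0 z (n 0 z (n 0 z (n 0 z (n 0 z z))))))))))) (n 0 (n 0 (n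
 0x30ed0ec2037a18207e18608208207e082182082082082082082082081f82081f8208208208208208208200801 z
 z) (n 0 z (n 0 z (n 0 z (n 0 z (n 0 z (n 0 z (n 0 z (n 0 z (n 0 z (n 0 z z))))))))))) (n 0 (n 0
 z (n 0 z (n 0 z (n 0 z (n 0 z (n 0 z (n 0 z (n 0 z (n 0 z (n 0 z (n 0 z z))))))))))) (n 0 (n 0
 (n 8660843 z (n
 0x25864837a7e6a7c879980847d7c8681866f89807b75908386857c7d7376877d807e8b87697e84ab817078728789827684817694830049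
 z z)) (n 0 z (n 0 z (n 0 z (n 0 (n
 0x25864837a7e6a7c879980847d7c8681866f89807b75908386857c7d7376877d807e8b87697e84ab817078728789827684817694830049
 z z) (n 0 z (n 0 z (n 0 (n
 0x25864837a7e6a7c879980847d7c8681866f89807b75908386857c7d7376877d807e8b87697e84ab817078728789827684817694830049
 z z) (n 0 z (n 0 z (n 0 z z))))))))))) (n 0 (n 0 z (n 0 z (n 0 z (n 0 z (n 0 z (n 0 z (n 0 z (n
 0 (n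
 0x25864837a7e6a7c879980847d7c8681866f89807b75908386857c7d7376877d807e8b87697e84ab817078728789827684817694830049
 z z) (n 0 z (n 0 (n
 0x25864837a7e6a7c879980847d7c8681866f89807b75908386857c7d7376877d807e8b87697e84ab817078728789827684817694830049
 z z) (n 0 z z))))))))))) (n 0 (n 0 z (n 0 z (n 0 z (n 0 z (n 0 z (n 0 z (n 0 z (n 0 z (n 0 z (n
 0 z (n 0 z z))))))))))) (n 0 (n 0 z (n 0 z (n 0 (n 8720907 z z) (n 0 z (n 0 (n 8720907 z z) (n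
 0 (n 8720907 z z) (n 0 z (n 0 z (n 0 z (n 0 z (n 0 (n 8720907 z z) z))))))))))) (n 0 (n 0 z (n
 0 z (n 0 z (n 0 z (n 0 z (n 0 z (n 0 z (n 0 z (n 0 z (n 0 z (n 0 z z))))))))))) (n 0 (n 0 z (n
 0 z (n 0 z (n 0 z (n 0 z (n 0 z (n 0 z (n 0 z (n 0 z (n 0 z (n 0 z z))))))))))) (n 0 (n 0 z (n
 0 z (n 0 z (n 0 z (n 0 z (n 0 z (n 0 z (n 0 z (n 0 z (n 0 z (n 0 z z))))))))))) (n 0 (n 0 z (n
 0 z (n 0 z (n 0 z (n 0 z (n 0 z (n 0 z (n 0 z (n 0 z (n 0 z (n 0 z z))))))))))) (n 0 (n 0 z (n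
 0 z (n 0 z (n 0 z (n 0 z (n 0 z (n 0 z (n 0 z (n 0 z (n 0 z (n 0 z z))))))))))) (n 0 (n 0 (n
 0x30a6e80c0386082082082081f8208208208208208208208208208208208208208208208208208208208200801 z
 (n 0x30a6e80c0386082082082081f8208208208208208208208208208208208208208208208208208208208200801
 z z)) (n 0 z (n 0 z (n 0 z (n 0 z (n 0 z (n 0 z (n 0 z (n 0 z (n 0 (n
 0x30830c0e038208207e08208208208208208208208208208208208208208208208208208208208208208210801 z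
 z) (n 0 z z))))))))))) (n 0 (n 0 z (n 0 z (n 0 z (n 0 z (n 0 z (n 0 z (n 0 z (n 0 z (n 0 z (n 0
 z (n 0 z z))))))))))) (n 0 (n 0 z (n 0 z (n 0 z (n 0 z (n 0 z (n 0 z (n 0 z (n 0 z (n 0 z (n 0
 z (n 0 z z))))))))))) z))))))))))))))))))))))))))))))))) (n 1 (n 0 (n 0 (n 8872995 z z) (n 0 z
 (n 0 z (n 0 z (n 0 z (n 0 z (n 0 z (n 0 z (n 0 z (n 0 z (n 0 z z))))))))))) (n 0 (n 0 (n
 8872995 z (n 8872995 z z)) (n 0 z (n 0 z (n 0 z (n 0 z (n 0 z (n 0 z (n 0 (n 8803379 z z) (n 0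
 z (n 0 z (n 0 z z))))))))))) (n 0 (n 0 z (n 0 z (n 0 z (n 0 z (n 0 z (n 0 z (n 0 z (n 0 z (n 0
 z (n 0 z (n 0 z z))))))))))) (n 0 (n 0 z (n 0 z (n 0 z (n 0 z (n 0 z (n 0 z (n 0 z (n 0 z (n 0
 z (n 0 z (n 0 z z))))))))))) (n 0 (n 0 z (n 0 z (n 0 z (n 0 z (n 0 z (n 0 z (n 0 z (n 0 z (n 0
 z (n 0 z (n 0 z z))))))))))) (n 0 (n 0 z (n 0 z (n 0 (n
 0x30ed0ec6037e08207e18608208207e082181f8208208208208207e08208208208208208618208208208200801 z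
 z) (n 0 z (n 0 z (n 0 z (n 0 z (n 0 (n
 0x10ed0ec6037a081f82182082082082082082082082082082082082081f8208208208208218208208207e00801 z
 z) (n 0 z (n 0 z (n 0 (n
 0x90a8ec060785f81f8217e18207e07e27e08207e18218207e07e08608217a17e08208218618208208208600801 z
 z) z))))))))))) (n 0 (n 0 (n 8717083 z z) (n 0 z (n 0 z (n 0 z (n 0 z (n 0 z (n 0 z (n 0 z (n 0
 z (n 0 z (n 0 z z))))))))))) (n 0 (n 0 z (n 0 z (n 0 z (n 0 z (n 0 z (n 0 z (n 0 z (n 0 z (n 0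
 z (n 0 z (n 0 z z))))))))))) (n 0 (n 0 (n 8803379 z (n 8803379 z z)) (n 0 z (n 0 z (n 0 z (n 0
 z (n 0 z (n 0 z (n 0 z (n 0 z (n 0 z (n 0 z z))))))))))) (n 0 (n 0 z (n 0 z (n 0 z (n 0 z (n 0
 z (n 0 z (n 0 z (n 0 z (n 0 z (n 0 z (n 0 z z))))))))))) z)))))))))) (n 153 (n 0 (n 0 (n
 8872995 z (n 8872995 z z)) (n 0 z (n 0 (n 8791835 z z) (n 0 z (n 0 (n
 0x30caea86038208207e08208207e18617e07e07e08208208208208208208208208208208208208208208210801 z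
 z) (n 0 z (n 0 z (n 0 z (n 0 z (n 0 z (n 0 (n 8873003 z z) z))))))))))) (n 0 (n 0 z (n 0 z (n 0
 z (n 0 z (n 0 z (n 0 z (n 0 z (n 0 z (n 0 z (n 0 z (n 0 z z))))))))))) (n 0 (n 0 z (n 0 z (n 0
 z (n 0 z (n 0 z (n 0 z (n 0 z (n 0 z (n 0 z (n 0 z (n 0 z z))))))))))) (n 0 (n 0 z (n 0 z (n 0
 z (n 0 z (n 0 z (n 0 z (n 0 z (n 0 z (n 0 z (n 0 z (n 0 z z))))))))))) (n 0 (n 0 (n 3282955 z
 (n 3282955 z z)) (n 0 z (n 0 z (n 0 z (n 0 z (n 0 z (n 0 z (n 0 z (n 0 z (n 0 z (n 0 z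
 z))))))))))) (n 0 (n 0 (n 8872995 z z) (n 0 z (n 0 z (n 0 z (n 0 z (n 0 z (n 0 z (n 0 z (n 0 z
 (n 0 z (n 0 z z))))))))))) (n 0 (n 0 z (n 0 z (n 0 z (n 0 z (n 0 z (n 0 z (n 0 z (n 0 z (n 0 z
 (n 0 z (n 0 z z))))))))))) z))))))) (n 33 (n 0 (n 0 (n 8872515 z (n 8872515 z z)) (n 0 z (n 0 z
 (n 0 z (n 0 z (n 0 (n
 0x2e870c2a0782085f7e08218207e18218208208208208208208208208207e08208208208218208208208210801 z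
 z) (n 0 z (n 0 z (n 0 z (n 0 z (n 0 z z))))))))))) (n 0 (n 0 z (n 0 z (n 0 z (n 0 z (n 0 z (n 0
 z (n 0 z (n 0 z (n 0 z (n 0 z (n 0 z z))))))))))) (n 0 (n 0 z (n 0 z (n 0 z (n 0 z (n 0 z (n 0
 z (n 0 z (n 0 z (n 0 z (n 0 z (n 0 z z))))))))))) (n 0 (n 0 z (n 0 z (n 0 z (n 0 z (n 0 z (n 0
 z (n 0 z (n 0 z (n 0 z (n 0 z (n 0 z z))))))))))) (n 0 (n 0 z (n 0 z (n 0 z (n 0 z (n 0 z (n 0
 z (n 0 z (n 0 z (n 0 z (n 0 z (n 0 z z))))))))))) (n 0 (n 0 z (n 0 z (n 0 z (n 0 z (n 0 z (n 0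
 z (n 0 z (n 0 z (n 0 z (n 0 z (n 0 z z))))))))))) z)))))) (n 9 (n 0 (n 0 (n
 0x30caea86038208207e08208207e08607e07e08208208208208208208208208208208208208208208208200801 z
 z) (n 0 z (n 0 z (n 0 z (n 0 z (n 0 z (n 0 z (n 0 z (n 0 z (n 0 z (n 0 z z))))))))))) (n 0 (n 0
 z (n 0 z (n 0 z (n 0 z (n 0 z (n 0 z (n 0 z (n 0 z (n 0 z (n 0 z (n 0 z z))))))))))) (n 0 (n 0
 z (n 0 z (n 0 z (n 0 z (n 0 z (n 0 z (n 0 z (n 0 z (n 0 z (n 0 z (n 0 z z))))))))))) (n 0 (n 0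
 z (n 0 z (n 0 z (n 0 z (n 0 z (n 0 z (n 0 z (n 0 z (n 0 z (n 0 z (n 0 z z))))))))))) z)))) (n
 243 (n 0 (n 0 (n 8873003 z z) (n 0 z (n 0 z (n 0 z (n 0 z (n 0 z (n 0 z (n 0 z (n 0 z (n 0 z (n
 0 z z))))))))))) (n 0 (n 0 z (n 0 z (n 0 z (n 0 z (n 0 z (n 0 z (n 0 z (n 0 z (n 0 z (n 0 z (n
 0 z z))))))))))) (n 0 (n 0 (n 8872995 z z) (n 0 z (n 0 z (n 0 z (n 0 z (n 0 z (n 0 z (n 0 z (n
 0 z (n 0 z (n 0 z z))))))))))) (n 0 (n 0 z (n 0 z (n 0 z (n 0 z (n 0 z (n 0 z (n 0 z (n 0 z (n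
 0 z (n 0 z (n 0 z z))))))))))) z)))) (n 1 (n 0 (n 0 z (n 0 z (n 0 z (n 0 z (n 0 z (n 0 z (n 0 z
 (n 0 z (n 0 z (n 0 z (n 0 z z))))))))))) (n 0 (n 0 (n
 0x30caea460382085f7e08208207e18217e08208208208208208208208208208208208208618208208208200801 z
 z) (n 0 z (n 0 z (n 0 z (n 0 z (n 0 z (n 0 z (n 0 z (n 0 z (n 0 z (n 0 z z))))))))))) (n 0 (n 0
 z (n 0 z (n 0 z (n 0 z (n 0 z (n 0 (n 8791835 z z) (n 0 z (n 0 (n 8848171 z z) (n 0 z (n 0 z (n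
 0 z z))))))))))) (n 0 (n 0 (n 8872995 z (n 8872995 z z)) (n 0 z (n 0 z (n 0 z (n 0 z (n 0 z (n
 0 z (n 0 z (n 0 z (n 0 z (n 0 z z))))))))))) (n 0 (n 0 z (n 0 z (n 0 z (n 0 z (n 0 z (n 0 (n
 0x30a70a64037a181f8218208208208208208208208208207e08207e18208208208208208207e08208208200801 z
 (n 0x30a70a64037a181f8218208208208208208208208208207e08207e18208208208208208207e08208208200801
 z z)) (n 0 z (n 0 (n 8848171 z (n 8848171 z z)) (n 0 z (n 0 z (n 0 z z))))))))))) (n 0 (n 0 z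
 (n 0 z (n 0 z (n 0 z (n 0 z (n 0 (n 8851491 z (n 8851491 z z)) (n 0 z (n 0 z (n 0 z (n 0 z (n 0
 z z))))))))))) (n 0 (n 0 z (n 0 z (n 0 z (n 0 z (n 0 z (n 0 z (n 0 z (n 0 z (n 0 z (n 0 z (n 0
 z z))))))))))) (n 0 (n 0 z (n 0 z (n 0 z (n 0 z (n 0 z (n 0 z (n 0 z (n 0 z (n 0 z (n 0 z (n 0
 z z))))))))))) (n 0 (n 0 z (n 0 z (n 0 z (n 0 z (n 0 z (n 0 z (n 0 z (n 0 z (n 0 z (n 0 z (n 0
 z z))))))))))) z))))))))) (n 0 (n 0 (n 0 z (n 0 z (n 0 z (n 0 z (n 0 z (n 0 z (n 0 z (n 0 z (n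
 0 z (n 0 z (n 0 z z))))))))))) (n 0 (n 0 z (n 0 z (n 0 z (n 0 z (n 0 z (n 0 z (n 0 z (n 0 z (n
 0 z (n 0 z (n 0 z z))))))))))) (n 0 (n 0 z (n 0 z (n 0 z (n 0 z (n 0 z (n 0 z (n 0 z (n 0 z (n
 0 z (n 0 (n 8720907 z (n 8720907 z z)) (n 0 z z))))))))))) (n 0 (n 0 (n 8872995 z z) (n 0 z (n
 0 z (n 0 z (n 0 z (n 0 z (n 0 z (n 0 z (n 0 z (n 0 z (n 0 z z))))))))))) (n 0 (n 0 (n 8803379 z
 z) (n 0 z (n 0 z (n 0 z (n 0 z (n 0 z (n 0 z (n 0 z (n 0 z (n 0 z (n 0 z z))))))))))) (n 0 (n 0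
 z (n 0 z (n 0 z (n 0 z (n 0 (n 8803379 z (n 8803379 z z)) (n 0 z (n 0 z (n 0 (n 8803379 z (n
 8803379 z z)) (n 0 z (n 0 z (n 0 z z))))))))))) (n 0 (n 0 z (n 0 z (n 0 z (n 0 z (n 0 z (n 0 z
 (n 0 z (n 0 z (n 0 z (n 0 z (n 0 z z))))))))))) (n 0 (n 0 (n 8872995 z z) (n 0 z (n 0 z (n 0 z
 (n 0 z (n 0 z (n 0 z (n 0 z (n 0 z (n 0 z (n 0 z z))))))))))) (n 0 (n 0 z (n 0 z (n 0 z (n 0 z
 (n 0 z (n 0 z (n 0 z (n 0 z (n 0 z (n 0 z (n 0 z z))))))))))) (n 0 (n 0 z (n 0 z (n 0 z (n 0 z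
 (n 0 z (n 0 z (n 0 z (n 0 z (n 0 z (n 0 z (n 0 z z))))))))))) (n 0 (n 0 z (n 0 z (n 0 z (n 0 z
 (n 0 z (n 0 z (n 0 z (n 0 z (n 0 z (n 0 z (n 0 z z))))))))))) z)))))))))))
 z))))))))))))))))))))) z)))) z)) z)))) z)), by decide +kernel⟩
theorem i10941 : ∃ t, chkR KT RW t 10941 10951 = true := ⟨(n 0x4c59ba620926418d670a74c580c9640
 (n 0 (n 591 (n 2 z (n
 0x6a84ca06038608208df7a08e082081f82085f8207a08208228218208207a17e082182086081f7e08208200801 z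
 (n 0 z (n 0 z (n 0 z (n 0 z (n 0 z (n 3282443 z (n 4400651 z (n 0 z (n 0 z (n 0 z (n 0 z (n 0 z
 (n 0 z (n 0 z (n 0 z (n 0 z (n 10 z (n
 0xa90b28180c065365320182ca6c862077df81d8a181d85f85e8a17e08dd76082385f8a08608607df8a08648a186179f81c7db85e79f1801
 z (n 0 z z))))))))))))))))))))) (n 589 (n 6558475 z (n 18 z (n 0 z (n 0 z (n 0 z (n 26 z (n 34
 z z))))))) (n 129 (n 0 z (n 0 z (n 0 z (n 3212843 z (n 0 z (n 0 z (n 0 z (n 0 z z)))))))) (n 27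
 (n 0 z (n 0 z (n 0 z (n 0 z (n 2164283 z (n 0 z (n 0 z (n 0 z z)))))))) (n 1 (n 6558475 z (n 0
 z (n 0 z (n 0 z (n 0 z (n 0 z z)))))) (n 0 (n 0 z (n 2164315 z (n 0 z (n
 0x2c86c8600381f7df8207e07df7e18227e085f8208628618607e08208207df8208a282082181f7df8608200801 z
 (n 0 z (n
 0x2c86c860037e27df8a085d81e8208237e281f8217e176281e81e81f8607208e382382086185f6a085f7a10801 z
 (n
 0x142165030380c86c860037e081f82081f81f82082182085f86086082186081f82082082082082082082086081f8208201001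
 z (n 0 z (n 0 z (n
 0x2c86c860037e08208208208207e08218208608208608218208208208208208208208208208207e08208200801 z
 (n 0x2c86c8600376282082181f8208208228618608208607e18207df7e08208618208207df82082081f8208200801
 z (n 0 z (n
 0x2c86c8600376282082181f81f7e08218208608208618218207df7e086082182082081f8208207df8207e00801 z
 (n 0 z (n 0 z (n 0 z (n
 0x6ca68640078a182285f7dd89f8207e27e485f86281e8de7e17a082281c85f86186082082176185e7e28610801 z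
 (n 0 z (n
 0x162163040382c86c840077e081c8208208207df8637e085f8208648208a07df8227e079e8608a182076289f75e86281e1001
 z (n 0 z (n 0 z (n
 0x42165030382c86c8600381f8217a17e07a07df82182085f8208638e082082085f82075f85e8a38618208208217df81f1001
 z (n 42 z (n 0 z (n 0 z (n 0 z (n 0 z (n
 0x2c86c8600381f7df8207e07df7e18227e085f8208628618607e08208207df8208a282082181f7df8608200801 z
 (n 0xcc42c608077e281e8607e18217df7e37df89f89f7e17e086085d8227a07e07df81f8617e07e07de7e08600801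
 z (n 0 z (n
 0x2c86c864037e281f8208207a07df8208207e081e8218608607e08227a081e7e086082086189f75f7e285e0801 z
 (n 0 z (n
 0x2c82c806037e081f82082082082082182085f82082086186082082081f8207e182182082181f7df8208200801 z
 (n 0 z (n
 0xc86c860037e08208208208208208218208208208208218208208208208208208208208208208208208200801 z (n
 0 z (n 0 z (n
 0x2c86c860037e27df8a081f81f8208237e27df8608217a186081f82085f7608a17e381f82181f6e08607e00801 z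
 (n 0 z (n 0 z (n
 0x164264030182ca68640077607df82285e7a08218237208e082185f8248607de8208237a08a18a182072281f85f8e08201001
 z (n 0 z (n 0 z (n 3282523 z (n 0 z (n 0 z z))))))))))))))))))))))))))))))))))))))))))))))
 z)))))) (n 1 (n 0 (n 0 z (n 1003 (n 0 z (n 0 z (n 0 z (n 0 z (n 0 z (n 0 z z)))))) (n 1003 (n 0
 z (n 0 z (n 0 z (n 2 (n 0 z (n 1 z z)) (n 0 z (n 0 z z)))))) (n 1003 (n 0 z (n 0 z (n 0 z (n 0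
 z (n 0 z (n 0 z z)))))) (n 17 (n 0 z (n 0 z (n 0 z (n 0 z (n 0 z (n 0 z (n 0 z (n 0 z (n 0 z (n
 0 z (n 0 z (n 0 z (n 0 z (n 0 z (n 0 z (n 0 z (n 0 z (n 0 z (n 0 z (n 0 z (n 0 z (n 0 z (n 0 z
 (n 0 z (n 0 z (n 0 z (n 0 z (n 0 z (n 0 z (n 0 z (n 0 z (n 0 z (n 0 z (n 0 z (n 0 z (n 0 z (n 0
 z (n 0 z (n 0 z (n 0 z (n 0 z (n 0 z (n 0 z (n 0 z (n 0 z (n 0 z (n 0 z (n 0 z (n 0 z (n 0 z (n
 0 z (n 0 z (n 0 z (n 0 z (n 0 z (n 0 z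
 z)))))))))))))))))))))))))))))))))))))))))))))))))))))))) z))))) (n 0 (n 1185 (n 0 z (n 0 z (n
 0 z (n 0 z (n 0 z (n 0 z (n 0 z (n 0 z z)))))))) (n 1185 (n 0 z (n 0 z (n 0 z (n 0 z (n 0 z (n
 0 z (n 0 z (n 0 z z)))))))) (n 1185 (n 0 z (n 0 z (n 0 z (n 0 z (n 0 z (n 0 z (n 0 z (n 0 z
 z)))))))) (n 365 (n 0 z (n 0 z (n 0 z (n 0 z (n 0 z (n 0 z (n 0 z (n 0 z (n 0 z (n 0 z (n 0 z
 (n 0 z (n 0 z (n 0 z (n 0 z (n 0 z (n 0 z (n 0 z (n 0 z (n 0 z (n 0 z z)))))))))))))))))))))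
 z)))) (n 0 (n 0 z (n 0 z (n 509 (n 0 z (n 0 z (n 0 z (n 0 z (n 0 z (n 0 z (n 0 z (n 0 z (n 0 z
 (n 0 z (n 0 z (n 0 z (n 0 z z))))))))))))) z))) (n 0 (n 0 z (n 509 (n 0 z (n 0 z (n 0 z (n 0 z
 (n 0 z (n 0 z (n 0 z (n 0 z (n 0 z z))))))))) z)) (n 0 (n 485 (n 0 z (n 0 z (n 0 z (n 0 z (n 0
 z (n 0 z (n 0 z (n 0 z (n 0 z (n 0 z (n 0 z (n 0 z (n 0 z (n 0 z (n 0 z (n 0 z (n 0 z (n 0 z
 z)))))))))))))))))) z) (n 0 z z)))))) (n 0 (n 1 (n 6558475 z (n 6558475 z (n 6558475 z (n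
 6558475 z (n 6558475 z (n 6558475 z z)))))) (n 0 z (n 0 z (n 0 z (n 0 z (n 0 z z)))))) (n 0 z
 z)))) (n 0x1b28e871134350aa1689d8c22596214e38094630e22d02916a10238880e1440 (n 0 (n 239 (n
 3282443 z (n 0 z (n 0 z (n 0 z (n 2 z (n 10 z (n 0 z (n 0 z (n
 0x4c86a8640779907c7b7c83897b898286767f71917a887e8082848574827a85797f7b887a6f86847f908186817e7f8a7a8275797188797f0809
 z (n
 0x4ca8a86403808579837a7f868080817b80877a8380877f76818481807f7f87787e757e827b8a7f8284837f7c807f828180847e7f8080800809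
 z (n 18 z (n
 0x8c86a864077e7e837d80808080837f827f807f817f7f7f82817f80818081827f817f80807e7e7f7e8181817f80837f82807f7e8081817f0809
 z (n 0 z (n 0 z (n 0 z (n 0 z (n
 0x8c86c8640777c360a4569f9e8280897b57935cb0728e8b5ea27eb6546a72a44888678d693d7f987ad37190aa677eb16c9343603a9856830809
 z z))))))))))))))))) (n 33 (n 0 z (n 0 z (n 0 z (n 3278363 z (n 0 z z))))) (n 9 (n 26 z (n 0 z
 (n 34 z (n 0 z (n 42 z (n 3212843 z z)))))) (n 3 (n 50 z (n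
 0x595195080602ca8ca040380936f8f73838d80808474798e6f887e8c816f87878d787979916a8071817c70898680957e85887b7c8c7b847979708278801009
 z (n
 0x2ca8ca84037e81807d837d807d8280837f7f7f80818180867e817c7f837e827f8081807f7e82817f7f827e7f8282807f7e8281828080800809
 z (n
 0x6ca8a8040377858071867c84768d7c86807e768779867b907b8a757a8b7c7f847d7f7f847f7e897a7f7b86788480827b7f838682817f800809
 z (n 0 z (n 58 z (n 6488603 z (n 0 z (n 0 z (n 0 z (n 0 z (n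
 0x6ca8ca04077d8287797881867e87787d81777d887583838284847f79858179817f88867d6a8a7f848c837b7a898487787a7c8185847d830809
 z (n 6488603 z z))))))))))))) (n 1 (n 0 z (n 6558507 z (n 0 z (n 0 z z)))) (n 0 (n
 0x6ca8860403817e7e7f7e81807e80827f8185828282827d7f7d817d86807e8080837c7e81877a807e7c7d85807f827e8481867e807f7f800809
 z (n 2164315 z (n 66 z (n 74 z (n 82 z (n 0 z (n
 0x8c86c8640777c360a4569f9e8280897b57935cb0728e8b5ea27eb6546a72a44888678d693d7f987ad37190aa677eb16c9343603a9856830809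
 z (n
 0x6c868624077d887e7f7e83837f8282837b807b877f85807e807e837c7f7f827a837d827c7984808485837f8280817f7f7f7f7b7d807e800809
 z (n
 0x4ca8862403807f817f7e81807f818080807f818180807f81818080808080807e7f818180807f80808180807f80818280807f7f8081817f0809
 z (n 0 z (n
 0x2c86c804077f7f837f7e82817f817f80808080837f807f81817f807f8081807e8182847f7e8080818382817d7e8280817f7e7f818082810809
 z (n 90 z z)))))))))))) z)))))) (n 1 (n 0 (n 0 z (n 0 z (n 23 (n 0 z (n 0 z (n 2 (n 0 z (n 0 z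
 (n 1 z (n 1 z (n 1 z (n 1 z (n 1 z (n 2 (n 0 z (n 0 z (n 0 z (n 0 z (n 0 (n 1173 z z) (n 0 z
 z)))))) z)))))))) (n 0 z (n 0 z (n 0 z (n 0 z (n 0 z z)))))))) (n 23 (n 0 z (n 0 z (n 0 z (n 0
 z (n 0 z (n 0 z (n 0 z (n 0 z z)))))))) (n 23 (n 0 z (n 0 z (n 0 z (n 0 z (n 0 z (n 0 z (n 0 z
 (n 0 z z)))))))) (n 285 (n 0 z (n 0 z (n 0 z (n 0 z (n 0 z (n 2 (n 0 z (n 2 (n 0 z (n 0 z (n 0
 z (n 0 z (n 0 (n 1365 z z) (n 0 z z)))))) (n 1 z (n 1 z (n 2 (n 0 z (n 0 z (n 0 z (n 0 z (n 0 z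
 (n 0 z z)))))) z))))) (n 0 z (n 0 z (n 0 z (n 0 z (n 0 z z))))))))))) (n 285 (n 0 z (n 0 z (n 0
 z (n 0 z (n 0 z (n 0 z (n 0 z (n 0 z (n 0 z (n 0 z (n 0 z z))))))))))) (n 13 (n 0 z (n 2 (n 0 z
 (n 0 z (n 0 z z))) (n 0 z (n 0 z (n 0 z (n 0 z (n 0 z (n 0 z (n 0 z (n 0 z (n 0 z (n 0 z
 z)))))))))))) (n 13 (n 0 z (n 0 z (n 0 z (n 0 z (n 2 (n 0 z (n 0 z z)) (n 0 z (n 0 z (n 0 z (n
 0 z (n 0 z (n 0 z (n 0 z z)))))))))))) (n 13 (n 0 z (n 0 z (n 0 z (n 2 (n 0 z z) (n 0 z (n 0 z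
 (n 0 z (n 0 z (n 0 z (n 0 z (n 0 z (n 0 z z)))))))))))) (n 13 (n 0 z (n 0 z (n 0 z (n 0 z (n 0
 z (n 0 z (n 0 z (n 0 z (n 0 z (n 0 z (n
 0xec8e84603807f82807e818180817f80808080827f807f80807f817f8080807f8181827f7f8180818281817f7f8181807f7f7f818081810809
 z (n 0 z z)))))))))))) z))))))))))) (n 0 (n 0 z (n 275 (n 0 z (n 0 z (n 0 z (n 0 z (n 0 z (n 0
 z (n 0 z (n 0 z (n 2 (n 0 z (n 0 z (n 1 z (n 1 z (n 1 z (n 1 z (n 1 z (n 2 (n 0 z (n 0 z (n 0 z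
 (n 0 z (n 0 z (n 0 z z)))))) z)))))))) (n 0 z (n 0 z (n 0 z (n 0 z (n 0 z (n 0 z (n 0 z (n 0 z
 (n 0 z (n 0 z (n 0 z (n 0 z (n 0 z (n 0 z (n 0 z (n 0 z z))))))))))))))))))))))))) (n 275 (n 0
 z (n 0 z (n 0 z (n 0 z (n 0 z (n 0 z (n 0 z (n 0 z (n 0 z (n 0 z (n 0 z (n 0 z (n
 0xec8ec86037f808080808080808080808080808080808080808080808080808080808080808080808080808080808080808080808080800809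
 z (n 0 z (n 0 z (n 0 z (n 0 z (n 0 z (n 0 z (n 0 z (n 0 z (n 0 z (n 0 z (n 0 z (n 0 z
 z))))))))))))))))))))))))) (n 275 (n 0 z (n 0 z (n 0 z (n 0 z (n 0 z (n 0 z (n 0 z (n 0 z (n 0
 z (n 0 z (n 0 z (n 0 z (n 0 z (n 0 z (n 0 z (n 0 z (n 0 z (n 0 z (n 0 z (n 0 z (n 0 z (n 0 z (n
 0 z (n 0 z (n 0 z z))))))))))))))))))))))))) (n 273 (n 0 z (n 0 z (n 0 z (n 2 (n 0 z (n 2 (n 0
 z (n 0 z (n 0 z (n 0 z (n 0 (n 8656747 z z) (n 0 z z)))))) (n 1 z (n 2 (n 0 z (n 0 z (n 0 z (n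
 0 z (n 0 z (n 0 z z)))))) (n 2 (n 0 z (n 0 z (n 0 z (n 0 z (n 0 z (n 0 z z)))))) z))))) (n 0 z
 (n 0 z (n 0 z (n 0 z (n 0 z (n 0 z (n 0 z z))))))))))) (n 273 (n 0 z (n 0 z (n 0 z (n 0 z (n 0
 z (n 0 z (n 0 z (n 0 z (n 0 z (n 0 z (n 0 z z))))))))))) (n 265 (n 0 z (n 0 z (n 0 z (n 0 z (n
 0 z (n 0 z (n 0 z (n 0 z (n 0 z (n 0 z (n 0 z (n 2 (n 0 z (n 0 z (n 0 z z))) z)))))))))))) (n
 265 (n 0 z (n 0 z (n 0 z (n 0 z (n 0 z (n 0 z (n 0 z (n 0 z (n 0 z (n 0 z (n 0 z (n 0 z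
 z)))))))))))) (n 265 (n 0 z (n 0 z (n 0 z (n 0 z (n 0 z (n 0 z (n 0 z (n 0 z (n 0 z (n 0 z (n 0
 z (n 0 z z)))))))))))) (n 265 (n 0 z (n 0 z (n 0 z (n 0 z (n 0 z (n 0 z (n 0 z (n 0 z (n 0 z (n
 2 z (n 0 z (n 0 z z)))))))))))) z)))))))))) (n 0 (n 43 (n 0 z (n 0 z (n 0 z (n 0 z (n 0 z (n 0
 z (n 0 z (n 0 z (n 0 z (n 0 z (n 0 z z))))))))))) (n 43 (n 0 z (n 0 z (n 0 z (n 0 z (n 0 z (n 0
 z (n 0 z (n 2 (n 0 z (n 1 z (n 1 z (n 2 (n 0 z (n 0 z (n 0 z (n 0 z (n 0 z (n 0 z z)))))) (n 2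
 (n 0 z (n 0 z (n 0 z (n 0 z (n 0 z (n 0 z z)))))) (n 1 z (n 2 (n 0 z (n 0 z (n 0 z (n 0 z (n 0
 z (n 0 z z)))))) z))))))) (n 0 z (n 0 z (n 0 z z))))))))))) (n 43 (n 0 z (n 0 z (n 2 (n 1 z (n
 1 z (n 2 (n 0 z (n 0 z (n 0 z (n 0 z (n 0 z (n 0 z z)))))) (n 2 (n 0 z (n 0 z (n 0 z (n 0 z (n
 0 z (n 0 z z)))))) (n 1 z (n 2 (n 0 z (n 0 z (n 0 z (n 0 z (n 0 z (n 0 z z)))))) z)))))) (n 0 z
 (n 0 z (n 0 z (n 0 z (n 0 z (n 0 z (n 0 z (n 0 z z))))))))))) (n 45 (n 0 z (n 0 z (n 0 z (n 0 z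
 (n 0 z (n 0 z (n 0 z (n 0 z (n 0 z (n 0 z (n 0 z (n 0 z (n 0 z (n 0 z z)))))))))))))) (n 45 (n
 0 z (n 2 (n 2 (n 0 z (n 0 z (n 0 z (n 0 z (n 0 (n 8656747 z z) (n 0 z z)))))) (n 1 z (n 1 z (n
 2 (n 0 z (n 0 z (n 0 z (n 0 z (n 0 z (n 0 z z)))))) z)))) (n 0 z (n 0 z (n 0 z (n 0 z (n 0 z (n
 0 z (n 0 z (n 0 z (n 0 z (n 0 z (n 0 z (n 0 z z)))))))))))))) (n 269 (n 0 z (n 0 z (n 0 z (n 0
 z (n 0 z (n 0 z (n 2 (n 0 z (n 0 z (n 0 z z))) (n 0 z (n 0 z (n 0 z (n 0 z (n 0 z z))))))))))))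
 (n 269 (n 0 z (n 0 z (n 0 z (n 0 z (n 0 z (n 0 z (n 0 z (n 0 z (n 0 z (n 0 z (n 0 z (n 0 z
 z)))))))))))) (n 269 (n 0 z (n 0 z (n 0 z (n 0 z (n 0 z (n 0 z (n 0 z (n 0 z (n 0 z (n 0 z (n 0
 z (n 0 z z)))))))))))) (n 269 (n 0 z (n 0 z (n 0 z (n 2 z (n 0 z (n 0 z (n 0 z (n 0 z (n 0 z (n
 0 z (n 0 z (n 0 z z)))))))))))) z))))))))) (n 0 (n 0 z (n 0 z (n 299 (n 0 z (n 0 z (n 0 z (n 0
 z (n 0 z z))))) (n 299 (n 0 z (n 2 (n 1 z (n 1 z (n 1 z (n 2 (n 0 z (n 0 z (n 0 z (n 0 z (n 0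
 (n 8656747 z z) (n 0 z z)))))) z)))) (n 0 z (n 0 z (n 0 z z))))) (n 293 (n 0 z (n 0 z (n 0 z (n
 0 z (n 0 z (n 0 z (n 0 z (n 0 z (n 0 z (n 0 z (n 0 z z))))))))))) (n 293 (n 0 z (n 0 z (n 0 z
 (n 0 z (n 0 z (n 0 z (n 0 z (n 0 z (n 0 z (n 0 z (n 0 z z))))))))))) (n 293 (n 0 z (n 0 z (n 0
 z (n 0 z (n 0 z (n 0 z (n 0 z (n 2 (n 0 z z) (n 0 z (n 0 z (n 0 z z))))))))))) (n 293 (n 0 z (n
 0 z (n 0 z (n 0 z (n 0 z (n 0 z (n 0 z (n 0 z (n 0 z (n 0 z (n 2 z z))))))))))) z)))))))) (n 0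
 (n 0 z (n 1317 (n 0 z (n 2 (n 0 z (n 2 (n 0 z (n 0 z (n 0 z (n 0 z (n 0 z (n 0 z z)))))) (n 2
 (n 0 z (n 0 z (n 0 z (n 0 z (n 0 z (n 0 z z)))))) (n 1 z (n 2 (n 0 z (n 0 z (n 0 z (n 0 z (n 0
 z (n 0 z z)))))) z))))) (n 0 z (n 0 z (n 0 z (n 0 z (n 0 z (n 0 z (n 0 z (n 0 z (n 0 z (n 0 z
 z)))))))))))) (n 1317 (n 0 z (n 0 z (n 0 z (n 0 z (n 0 z (n 0 z (n 0 z (n 0 z (n 0 z (n 0 z (n
 0 z (n 0 z z)))))))))))) (n 17 (n 0 z (n 0 z (n 0 z (n 0 z (n 0 z (n 0 z (n 0 z (n 0 z (n 0 z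
 (n 0 z (n 0 z (n 0 z (n 0 z (n 0 z (n 0 z (n 0 z (n 0 z (n 0 z (n 0 z (n 0 z (n 2 (n 0 z (n 0 z
 (n 0 z z))) (n 0 z z)))))))))))))))))))))) (n 17 (n 0 z (n 0 z (n 2 (n 0 z (n 0 z z)) (n 0 z (n
 0 z (n 0 z (n 0 z (n 0 z (n 0 z (n 0 z (n 0 z (n 0 z (n 0 z (n 0 z (n 0 z (n 0 z (n 0 z (n 0 z
 (n 0 z (n 0 z (n 0 z (n 0 z z)))))))))))))))))))))) (n 17 (n 0 z (n 0 z (n 0 z (n 0 z (n 0 z (n
 0 z (n 0 z (n 0 z (n 0 z (n 0 z (n 0 z (n 0 z (n 0 z (n 0 z (n 0 z (n 0 z (n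
 0xec8ec86037f808080808080808080808080808080808080808080808080808080808080808080808080808080808080808080808080800809
 z (n 0 z (n 0 z (n 0 z (n 0 z (n 0 z z)))))))))))))))))))))) (n 17 (n 0 z (n 0 z (n 0 z (n 0 z
 (n 0 z (n 0 z (n 0 z (n 0 z (n 0 z (n 0 z (n 0 z (n 0 z (n 0 z (n 0 z (n 0 z (n 0 z (n 0 z (n 0
 z (n 0 z (n 0 z (n 0 z (n 0 z z)))))))))))))))))))))) z))))))) (n 0 (n 295 (n 2 (n 0 z (n 2 (n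
 0 z (n 0 z (n 0 z (n 0 z (n 0 z (n 0 z z)))))) (n 2 (n 0 z (n 0 z (n 0 z (n 0 z (n 0 z (n 0 z
 z)))))) (n 1 z (n 2 (n 0 z (n 0 z (n 0 z (n 0 z (n 0 z (n 0 z z)))))) z))))) (n 0 z (n 0 z (n 0
 z (n 0 z (n 0 z (n 0 z (n 0 z (n 0 z (n 0 z z)))))))))) (n 295 (n 0 z (n 0 z (n 0 z (n 0 z (n 0
 z (n 0 z (n 0 z (n 0 z (n 0 z (n 0 z z)))))))))) (n 293 (n 0 z (n 0 z (n 0 z (n 0 z (n 0 z (n 0
 z (n 0 z (n 0 z (n 0 z (n 0 z (n 0 z (n 0 z (n 0 z (n 0 z (n 0 z (n 0 z (n 0 z (n 0 z (n 0 z (n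
 2 (n 0 z (n 0 z (n 0 z z))) (n 0 z (n 0 z (n 0 z (n 0 z (n 0 z z))))))))))))))))))))))))) (n
 293 (n 2 (n 0 z (n 0 z z)) (n 0 z (n 0 z (n 0 z (n 0 z (n 0 z (n 0 z (n 0 z (n 0 z (n 0 z (n 0
 z (n 0 z (n 0 z (n 0 z (n 0 z (n 0 z (n 0 z (n 0 z (n 0 z (n 0 z (n 0 z (n 0 z (n 0 z (n 0 z (n
 0 z z))))))))))))))))))))))))) (n 293 (n 0 z (n 0 z (n 0 z (n 0 z (n 0 z (n 0 z (n 0 z (n 0 z
 (n 0 z (n 0 z (n 0 z (n 0 z (n 0 z (n 0 z (n 0 z (n 0 z (n 0 z (n 0 z (n 0 z (n 0 z (n 0 z (n 0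
 z (n 0 z (n 0 z (n 0 z z))))))))))))))))))))))))) (n 293 (n 0 z (n 0 z (n 0 z (n 0 z (n 0 z (n
 0 z (n 0 z (n 0 z (n 0 z (n 0 z (n 0 z (n 0 z (n 0 z (n 0 z (n 0 z (n 0 z (n 0 z (n 0 z (n 0 z
 (n 0 z (n 0 z (n 0 z (n 0 z (n 0 z (n 2 z z))))))))))))))))))))))))) z)))))) (n 0 (n 0 z (n 341
 (n 0 z (n 0 z (n 0 z (n 0 z (n 0 z (n 0 z (n 0 z (n 0 z (n 0 z (n 0 z (n 0 z (n 0 z (n 0 z
 z))))))))))))) (n 341 (n 0 z (n 0 z (n 0 z (n 0 z (n 0 z (n 0 z (n 0 z (n 0 z (n 0 z (n 0 z (n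
 0 z (n 0 z (n 0 z z))))))))))))) (n 341 (n 2 (n 0 z z) (n 0 z (n 0 z (n 0 z (n 0 z (n 0 z (n 0
 z (n 0 z (n 0 z (n 0 z (n 0 z (n 0 z (n 0 z z))))))))))))) (n 341 (n 0 z (n 0 z (n 2 z (n 0 z
 (n 0 z (n 0 z (n 0 z (n 0 z (n 0 z (n 0 z (n 0 z (n 0 z (n 0 z z))))))))))))) z))))) (n 0 (n 97
 (n 0 z (n 2 (n 0 z (n 0 z (n 0 z z))) (n 0 z (n 0 z (n 0 z (n 0 z (n 0 z (n 0 z (n 0 z (n 0 z
 (n 0 z (n 0 z z)))))))))))) (n 97 (n 0 z (n 0 z (n 0 z (n 2 (n 0 z (n 0 z z)) (n 0 z (n 0 z (n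
 0 z (n 0 z (n 0 z (n 0 z (n 0 z (n 0 z z)))))))))))) (n 97 (n 0 z (n 0 z (n 0 z (n 0 z (n 0 z
 (n 0 z (n 0 z (n 0 z (n 0 z (n 0 z (n 0 z (n 0 z z)))))))))))) (n 97 (n 0 z (n 0 z (n 0 z (n 0
 z (n 0 z (n 0 z (n 0 z (n 2 z (n 0 z (n 0 z (n 0 z (n 0 z z)))))))))))) z)))) (n 0 (n 0 z (n 0
 z (n 0 z z))) (n 0 (n 0 z (n 0 z z)) (n 0 (n 0 z z) (n 0 z z)))))))))))) (n 0 (n 0 z (n 1 (n
 6558507 z (n 6558507 z (n 6558507 z (n 6558507 z (n 6558507 z (n 6558507 z z)))))) (n 0 z (n 0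
 z z)))) (n 0 z z)))) (n 0x648ea6338e42145a6419 (n 0 (n 401 (n 3282443 z (n 0 z (n 0 z z))) (n
 595 (n 0 z (n 6558475 z (n 0 z (n 2 z (n 0 z (n 6558475 z (n 0 z (n 0 z (n 0 z (n 0 z
 z)))))))))) (n 171 (n 0 z (n 0 z (n 0 z (n 0 z (n 0 z (n 0 z (n 10 z (n 3212843 z (n 0 z (n
 3212843 z (n 5445163 z (n 0 z z)))))))))))) (n 3 (n 0 z (n 0 z (n 18 z (n 2164283 z (n 0 z (n 0
 z z)))))) (n 127 (n 0 z (n 6558475 z (n 0 z (n 0 z z)))) (n 0 (n 3212891 z (n 2164315 z (n 26 z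
 (n 0 z (n 3282523 z (n
 0x321b21900c165243210182864ca02037e281e8208608208218207a18227df7e18238218208207628607a17df79f7a18a275f8a279f1801
 z (n 0 z (n 0 z (n 0 z (n
 0xc84c8420382082081f8208208208208208218208208208218208208208208207e08207df8618208608200801 z
 z)))))))))) z)))))) (n 401 (n 0 (n 1189 (n 0 z (n 0 z (n 0 z (n 0 z (n 0 z (n 0 z (n 0 z (n 0 z
 (n 0 z (n 0 z (n 0 z z))))))))))) (n 487 (n 0 z (n 0 z (n 0 z (n 0 z (n 0 z (n 0 z (n 0 z (n 0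
 z (n 0 z (n 0 z z)))))))))) (n 485 (n 0 z (n 0 z (n 0 z (n 0 z (n 0 z (n 0 z (n 2 z z)))))))
 z))) (n 0 (n 27 (n 0 z (n 0 z (n 0 z (n 0 z (n 0 z (n 0 z (n 2 (n 1 z z) (n 0 z (n 0 z (n 0 z
 (n 0 z (n 0 z (n 0 z (n 0 z (n 0 z (n 0 z (n 0 z (n 0 z (n 0 z (n 0 z (n 0 z (n 0 z (n 0 z (n 0
 z (n 0 z z))))))))))))))))))))))))) (n 781 (n
 0x8ec8c8600782481c8207e17e182081e8208208a28208a082282082081e81e81e81e81e8a28228228208a00801 z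
 (n 2 z (n 0 z (n 0 z (n 0 z (n 0 z (n 0 z (n 0 z (n 0 z (n 0 z z)))))))))) z)) (n 0 (n 5 (n 0 z
 (n 0 z (n 0 z (n 0 z (n 0 z (n 0 z (n 0 z (n 0 z (n 0 z (n 0 z (n 0 z (n 0 z (n 0 z (n 0 z
 z)))))))))))))) z) (n 0 z z)))) (n 0 (n 1 (n 3282443 z (n 6558475 z (n 3282443 z (n 3282443 z
 (n 3282443 z (n 3282443 z z)))))) (n 0 z (n 0 z z))) (n 0 z z)))) (n
 0xb127457a5a0c91d05d92911270d09366c09ab2a0ca8c824d88326c480 (n 0xd893 (n 399 (n 2 z (n 0 z (n 0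
 z (n 0 z (n 3282443 z (n 0 z z)))))) (n 33 (n 0 z (n 10 z (n 18 z (n 0 z (n 6558475 z (n 0 z (n
 0 z (n 26 z z)))))))) (n 129 (n 34 z (n 0 z (n 0 z (n 3212843 z (n 0 z (n 0 z (n 0 z (n 0 z (n
 0 z (n 0 z (n 0 z (n 0 z (n 0 z (n 0 z z)))))))))))))) (n 3 (n 0 z (n 42 z (n 0 z (n 0 z (n 0 z
 (n 0 z (n 2164283 z z))))))) (n 1 (n 0 z (n 50 z (n 0 z (n 0 z (n 6558475 z (n 0 z (n 0 z
 z))))))) (n 0 (n 58 z (n 0 z (n 66 z (n 0 z (n 74 z (n 82 z (n 0 z (n 0 z (n 0 z (n 2164315 z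
 z)))))))))) z)))))) (n 399 (n 0 (n 211 (n 0 z (n 0 z (n 0 z (n 0 z (n 0 z (n 0 z (n 0 z (n 0 z
 (n 0 z (n 0 z (n 0 z z))))))))))) (n 211 (n 0 z (n 0 z (n 0 z (n 0 z (n 0 z (n 0 z (n 0 z (n 0
 z (n 0 z (n 0 z (n 0 z z))))))))))) (n 211 (n 0 z (n 0 z (n 0 z (n 0 z (n 0 z (n 0 z (n 0 z (n
 0 z (n 0 z (n 0 z (n 0 z z))))))))))) (n 795 (n 0 z (n 0 z (n 0 z (n 0 z (n 0 z (n 0 z (n 0 z
 (n 0 z (n 0 z z))))))))) (n 207 (n 0 z (n 0 z (n 0 z (n 0 z (n 0 z (n 0 z (n 0 z z))))))) (n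
 205 (n 0 z (n 0 z (n 0 z (n 0 z (n 0 z (n 0 z (n 0 z (n 0 z (n 0 z (n 0 z z)))))))))) (n 797 (n
 0 z (n 0 z (n 0 z (n 0 z (n 0 z (n 0 z (n 0 z (n 0 z (n 0 z (n 0 z (n 0 z (n 2 (n 0 z (n 0 z (n
 0 z z))) z)))))))))))) (n 797 (n 0 z (n 0 z (n 0 z (n 0 z (n 0 z (n 0 z (n 0 z (n 0 z (n 0 z (n
 0 z (n 0 z (n 0 z z)))))))))))) (n 797 (n 0 z (n 0 z (n 0 z (n 0 z (n 0 z (n 0 z (n 0 z (n 0 z
 (n 0 z (n 2 (n 0 z z) (n 0 z (n 0 z z)))))))))))) (n 797 (n 0 z (n 0 z (n 0 z (n 0 z (n 0 z (n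
 0 z (n 0 z (n 0 z (n 0 z (n 0 z (n 0 z (n 0 z z)))))))))))) z)))))))))) (n 0 (n 0 z (n 0 z (n
 439 (n 0 z (n 0 z (n 0 z (n 0 z (n 0 z (n 0 z (n 0 z (n 0 z z)))))))) (n 491 (n 0 z (n 0 z (n 0
 z (n 0 z (n 0 z (n 0 z (n 0 z (n 0 z z)))))))) (n 489 (n 0 z (n 0 z (n 0 z (n 0 z (n 0 z (n 0 z
 z)))))) (n 481 (n 2 (n 0 z (n 0 z (n 0 z z))) (n 0 z (n 0 z (n 0 z (n 0 z (n 0 z (n 0 z (n 0 z
 (n 0 z (n 0 z (n 0 z (n 0 z z)))))))))))) (n 481 (n 0 z (n 0 z (n 0 z (n 0 z (n 0 z (n 0 z (n 0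
 z (n 0 z (n 0 z (n 0 z (n 0 z (n 0 z z)))))))))))) (n 481 (n 0 z (n 0 z (n 0 z (n 0 z (n 0 z (n
 0 z (n 0 z (n 0 z (n 2 (n 0 z z) (n 0 z (n 0 z (n 0 z z)))))))))))) (n 481 (n 0 z (n 0 z (n 0 z
 (n 0 z (n 0 z (n 0 z (n 0 z (n 0 z (n 0 z (n 0 z (n 0 z (n 0 z z)))))))))))) z))))))))) (n 0 (n
 0 z (n 19 (n 6493995 z (n 0 z (n 0 z (n 0 z (n 0 z (n 0 z (n 0 z (n 0 z (n 0 z z))))))))) (n
 299 (n 0 z (n 0 z (n 0 z (n 0 z (n 0 z (n 0 z (n 0 z (n 0 z z)))))))) (n 297 (n 0 z (n 0 z (n 0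
 z (n 0 z (n 0 z (n 0 z (n 0 z (n 0 z (n 0 z (n 0 z (n 0 z (n 0 z (n 0 z (n 0 z (n 0 z (n 0 z (n
 0 z (n 0 z (n 0 z (n 0 z (n 0 z (n 0 z (n 0 z z))))))))))))))))))))))) (n 1 (n 0 z (n 0 z (n 0
 z (n 0 z (n 0 z (n 0 z (n 0 z (n 0 z (n 0 z (n 0 z (n 0 z (n 0 z (n 0 z (n 0 z (n 0 z
 z))))))))))))))) (n 1 (n
 0x2976080080080b8007ff7f680f7f07fb7f98008007f58008007fa80180d8048067f07e880f8218117e67f780380e7fa80380f7ea8157f78067f97e87f77f980c8067f67dc7ec82282b80a7de8210051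
 z (n 0 z (n 0 z (n 0 z (n 0 z (n 0 z (n 0 z (n 0 z (n 0 z (n 0 z (n 0 z (n 0 z (n 0 z (n 0 z (n
 0 z z))))))))))))))) (n 1 (n 0 z (n 0 z (n 0 z (n 0 z (n 0 z (n 0 z (n 0 z (n 0 z (n 0 z (n 0 z
 (n 0 z (n 0 z (n 0 z (n 0 z (n 0 z z))))))))))))))) (n 1 (n 0 z (n 0 z (n 0 z (n 0 z (n 0 z (n
 0 z (n 0 z (n 0 z (n 0 z (n 0 z (n 0 z (n 0 z (n 0 z (n 0 z (n 0 z z))))))))))))))) z))))))))
 (n 0 (n 171 (n 0 z (n 0 z (n 0 z (n 0 z (n 0 z (n 0 z (n 0 z (n 0 z (n 0 z (n 0 z (n 0 z (n 0 z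
 (n 0 z (n 0 z (n 0 z (n 0 z (n 0 z (n 0 z (n 0 z (n 0 z z)))))))))))))))))))) (n 491 (n 0 z (n
 0 z (n 0 z (n 0 z (n 0 z (n 0 z (n 0 z z))))))) (n 489 (n 0 z (n 0 z (n 0 z (n 0 z (n 0 z (n 0
 z (n 0 z (n 0 z (n 0 z (n 0 z (n 0 z (n 0 z (n 0 z (n 0 z (n 0 z (n 0 z (n 0 z (n 0 z (n 0 z (n
 0 z z)))))))))))))))))))) (n 485 (n 0 z (n 0 z (n 0 z (n 6358875 z (n 0 z (n 0 z (n 0 z (n 0 z
 (n 0 z (n 0 z (n 0 z (n 0 z z)))))))))))) (n 485 (n 0 z (n 0 z (n 0 z (n 0 z (n 0 z (n 0 z (n 2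
 (n 0 z (n 0 z z)) (n 0 z (n 0 z (n 0 z (n 0 z (n 0 z z)))))))))))) (n 485 (n 0 z (n 0 z (n 0 z
 (n 0 z (n 0 z (n 0 z (n 0 z (n 0 z (n 0 z (n 0 z (n 0 z (n 0 z z)))))))))))) (n 485 (n 0 z (n 0
 z (n 0 z (n 0 z (n 0 z (n 0 z (n 0 z (n 0 z (n 0 z (n 0 z (n 0 z (n 0 z z)))))))))))) z)))))))
 (n 0 (n 247 (n 0 z (n 0 z (n 0 z (n 0 z (n 0 z (n 0 z (n 0 z (n 0 z z)))))))) (n 255 (n 0 z (n
 0 z (n 0 z (n 0 z (n 0 z (n 0 z (n 0 z z))))))) (n 253 (n 2 (n 0 z (n 0 z (n 0 z z))) (n 0 z (n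
 0 z (n 0 z (n 0 z (n 0 z (n 0 z (n 0 z (n 0 z (n 0 z (n 0 z (n 0 z (n 0 z (n 0 z
 z)))))))))))))) (n 253 (n 0 z (n 0 z (n 0 z (n 0 z (n 0 z (n 0 z (n 0 z (n 0 z (n 0 z (n 0 z (n
 0 z (n 0 z (n 0 z (n 0 z z)))))))))))))) (n 253 (n 0 z (n 0 z (n 0 z (n 0 z (n 0 z (n 0 z (n 0
 z (n 0 z (n 0 z (n 0 z (n 2 (n 0 z z) (n 0 z (n 0 z (n 0 z z)))))))))))))) (n 253 (n 0 z (n 0 z
 (n 0 z (n 0 z (n 0 z (n 0 z (n 0 z (n 0 z (n 0 z (n 0 z (n 0 z (n 0 z (n 0 z (n 0 z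
 z)))))))))))))) z)))))) (n 0 (n 51 (n 0 z (n 0 z (n 0 z (n 0 z (n 0 z (n 0 z (n 0 z (n 0 z (n 0
 z (n 0 z (n 0 z (n 0 z z)))))))))))) (n 5 (n 0 z (n 0 z (n 0 z (n 0 z (n 0 z (n 0 z (n 0 z (n 0
 z (n 0 z (n 0 z (n 0 z (n 0 z (n 2 (n 0 z (n 0 z (n 0 z z))) (n 0 z z)))))))))))))) (n 5 (n 0 z
 (n 0 z (n 0 z (n 0 z (n 0 z (n 0 z (n 0 z (n 0 z (n 0 z (n 0 z (n 0 z (n 0 z (n 0 z (n 0 z
 z)))))))))))))) (n 5 (n 0 z (n 0 z (n 0 z (n 0 z (n 0 z (n 0 z (n 0 z (n 0 z (n 0 z (n 0 z (n 0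
 z (n 2 (n 0 z z) (n 0 z (n 0 z z)))))))))))))) (n 5 (n 0 z (n 0 z (n 0 z (n 0 z (n 0 z (n 0 z
 (n 0 z (n 0 z (n 0 z (n 0 z (n 0 z (n 0 z (n 0 z (n 0 z z)))))))))))))) z))))) (n 0 (n 253 (n 0
 z (n 0 z (n 0 z (n 0 z (n 0 z (n 0 z (n 0 z (n 0 z (n 0 z (n 2 (n 0 z (n 0 z (n 0 z z)))
 z)))))))))) (n 253 (n 0 z (n 0 z (n 0 z (n 0 z (n 0 z (n 0 z (n 0 z (n 0 z (n 0 z (n 0 z
 z)))))))))) (n 253 (n 0 z (n 0 z (n 0 z (n 0 z (n 0 z (n 0 z (n 0 z (n 0 z (n 0 z (n 0 z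
 z)))))))))) (n 253 (n 0 z (n 0 z (n 0 z (n 0 z (n 0 z (n 0 z (n 0 z (n 0 z (n 0 z (n 0 z
 z)))))))))) z)))) (n 0 (n 0 z (n 0 z (n 0 z z))) (n 0 (n 0 z (n 0 z z)) (n 0 (n 0 z z) (n 0 z
 z))))))))))) (n 0 (n 1 (n 3212843 z (n 268 z (n 2 z (n 6558475 z (n 268 z (n 268 z z)))))) (n 0
 z (n 0 z (n 0 z (n 1 (n 3282443 z (n 6558475 z (n 3282443 z (n 3282443 z (n 3282443 z (n
 3282443 z z)))))) (n 0 z z)))))) (n 0 (n 0xc0bb25 (n 0 (n 0 (n 7733787 z (n 7733787 z (n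
 7733787 z (n 7733787 z (n 7733787 z (n 7733787 z z)))))) z) (n 0 (n 399 (n 1 (n 7733787 z (n
 7733787 z (n 7733787 z (n 7733787 z (n 7733787 z (n 7733787 z z)))))) (n 0 z (n 0 z (n 0 z (n 1
 (n 3282699 z (n 3282699 z (n 3282699 z (n 3282699 z (n 3282699 z (n 3282699 z z)))))) (n 0 z
 z)))))) (n 244 (n 1 (n 7607051 z (n 7607051 z (n 7607051 z (n 7607051 z (n 7607051 z (n 7607051
 z z)))))) (n 0 z (n 1 (n 7607051 z (n 7607051 z (n 7607051 z (n 7607051 z (n 7607051 z (n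
 7607051 z z)))))) (n 0 z (n 0 z (n 0 z z)))))) (n 127 (n 0 z (n 1 (n 3196 z (n 3196 z (n 3196 z
 (n 3196 z (n 7472187 z (n 4396891 z z)))))) (n 1 (n 3213099 z (n 3213099 z (n 6555419 z (n
 3213099 z (n 3213099 z (n 3213099 z z)))))) (n 0 z (n 1 (n 7607051 z (n 7607051 z (n 7607051 z
 (n 7607051 z (n 7607051 z (n 7607051 z z)))))) (n 0 z (n 0 z z))))))) (n 471 (n 0 z (n 0 z (n 1
 (n 4331275 z (n 4331275 z (n 4331275 z (n 4331275 z (n 4331275 z (n 4331275 z z)))))) (n 1 (n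
 7542315 z (n 7542315 z (n 7542315 z (n 7542315 z (n 7542315 z (n 7542315 z z)))))) (n 0 z (n 0
 z (n 0 z z))))))) (n 257 (n 1 (n 7607051 z (n 7607051 z (n 7607051 z (n 7607051 z (n 7607051 z
 (n 7607051 z z)))))) (n 0 z (n 1 (n 7607051 z (n 7607051 z (n 7607051 z (n 7607051 z (n 7607051
 z (n 7607051 z z)))))) (n 0 z (n 0 z (n 0 z z)))))) (n 127 (n 1 (n 2164571 z (n 2164571 z (n
 2164571 z (n 2164571 z (n 7472187 z (n 2164571 z z)))))) (n 0 z (n 1 (n 7607051 z (n 7607051 z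
 (n 7607051 z (n 4399219 z (n 7607051 z (n 7607051 z z)))))) (n 0 z (n 1 (n 3196 z (n 3196 z (n
 3196 z (n 3196 z (n 4 z (n 7472187 z z)))))) (n 1 (n 7607051 z (n 7607051 z (n 7607051 z (n
 7607051 z (n 7607051 z (n 7607051 z z)))))) (n 0 z (n 0 z (n 0 z (n 1 (n 2 z (n 3196 z (n
 7472187 z (n 3196 z (n 3196 z (n 4261723 z z)))))) z)))))))))) (n 399 (n 1 (n 7733787 z (n
 7733787 z (n 7733787 z (n 7607051 z (n 7733787 z (n 7733787 z z)))))) (n 0 z (n 0 z (n 0 z (n 1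
 (n 3282699 z (n 7607051 z (n 3282699 z (n 3282699 z (n 3282699 z (n 3282699 z z)))))) (n 0 z
 z)))))) z))))))) (n 0 (n 0 (n 0 z z) z) (n 0 (n 225 (n 0 (n 0 z z) (n 0 (n 0 z z) (n 0 (n 0 z
 z) (n 0 (n 0 z z) (n 0 (n 0 z z) (n 0 (n 0 z z) (n 0 (n 0 z z) (n 0 (n 0 z z) (n 0 (n 0 z z) (n
 0 (n 0 z z) (n 0 (n 0 z z) z))))))))))) (n 399 (n 0 (n 0 z z) (n 0 (n 0 z z) (n 0 (n 0 z z) (n
 0 (n 0 z z) (n 0 (n 0 z z) (n 0 (n 0 z z) (n 0 (n 0 z z) (n 0 (n 0 z z) (n 0 (n 0 z z)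
 z))))))))) (n 339 (n 0 (n 0 (n
 0x58748007fe8008018008007ff8008008008017ff8007ff8018008008008017ff8008008007ff8008008007ff8008018018008008018008008008008008008008007ff8008008008008008008000051
 z z) z) (n 0 (n 0 z z) (n 0 (n 0 z z) (n 0 (n 0 z z) (n 0 (n 0 z z) (n 0 (n 0 z z) (n 0 (n 0 z
 z) (n 0 (n 0 z z) z)))))))) (n 471 (n 0 (n 0 (n 8782363 z z) z) (n 0 (n 0 z z) (n 0 (n 0 z z)
 (n 0 (n 0 z z) (n 0 (n 0 (n 8590891 z z) z) (n 0 (n 0 z z) (n 0 (n 0 z z) z))))))) (n 251 (n 0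
 (n 0 z z) (n 0 (n 0 z z) (n 0 (n 0 z z) (n 0 (n 0 z z) (n 0 (n 0 z z) (n 0 (n 0 z z) (n 0 (n 0
 (n 6621243 z z) z) (n 0 (n 0 z z) z)))))))) (n 129 (n 0 (n 0 (n 7604331 z z) z) (n 0 (n 0 z z)
 (n 0 (n 0 z z) (n 0 (n 0 z z) (n 0 (n 0 z z) (n 0 (n 0 z z) (n 0 (n 0 z z) (n 0 (n 0 z z)
 z)))))))) (n 591 (n 0 (n 0 z z) (n 0 (n 0 (n 3283019 z (n 3283019 z z)) z) (n 0 (n 0 z z) (n 0
 (n 0 (n 7542859 z (n 7755835 z z)) z) (n 0 (n 0 (n 8782363 z (n 8782363 z z)) z) (n 0 (n 0 z z)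
 (n 0 (n 0 z z) (n 0 (n 0 z z) (n 0 (n 0 (n
 0x218738028007fd8008038007fc8067fe8038007ff8017ff7fb8048027fc7f87fa7fd7fc8058018098018038057fd7fa8008048098087f87fc7fd8058027fd8037fd8007fc8037fe80e7ff7fe8020051
 z (n 8456027 z z)) z) (n 0 (n 0 z z) z)))))))))) (n 257 (n 0 (n 0 z z) (n 0 (n 0 (n 8590891 z
 (n 8590891 z z)) z) (n 0 (n 0 z z) (n 0 (n 0 (n
 0x118768018008008008017ff8008008008008008007ff8007ff8008008008008008007ff8017ff8018008017ff7ff7ff8028008008027ff8008018008008008018008008008008018008008007ff0051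
 z (n
 0x298628028008168008047e684c7bf8117cd8007ff7e87ff7fa8058018168108177e77b382f85881b7d77e57c981682c80381a7ad8368138407e97b77bf8068168207c57a77da84d84a84279f8680051
 z z)) z) (n 0 (n 0 z z) (n 0 (n 0 z z) z)))))) (n 129 (n 0 (n 0 z z) (n 0 (n 0 (n
 0x2e1da1d8c0e00eecb0c8607008862750301803c3b43b000c01a1da1cc0060090ed0e20037f580580e7ff7ea80882d7f48087e87fe7eb80681e81a7f97f481c84883581781479881c7de81c8007e47e18147f67d67c57e782184b80a7fe7d48387d381b80484680e7ed7f97e08087d63011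
 z z) z) (n 0 (n 0 z z) (n 0 (n 0 z z) (n 0 (n 0 (n 8655627 z (n 8655627 z z)) z) (n 0 (n 0 z z)
 (n 0 (n 0 z z) z))))))) (n 27 (n 0 (n 0 z z) (n 0 (n 0 z z) (n 0 (n 0 z z) (n 0 (n 0 z z) (n 0
 (n 0 z z) (n 0 (n 0 z z) (n 0 (n 0 z z) (n 0 (n 0 z z) (n 0 (n 0 z z) (n 0 (n 0 z z) (n 0 (n 0
 (n 2164811 z (n 7473211 z z)) z) (n 0 (n 0 z z) z)))))))))))) (n 399 (n 0 (n 0 (n 3283035 z (n
 3283035 z z)) z) (n 0 (n 0 z z) (n 0 (n 0 z z) (n 0 (n 0 z z) (n 0 (n 0 (n 8520763 z (n 8520763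
 z z)) z) (n 0 (n 0 z z) (n 0 (n 0 z z) (n 0 (n 0 z z) (n 0 (n 0 z z) (n 0 (n 0 z z) (n 0 (n 0 z
 z) (n 0 (n 0 (n 3283067 z (n 3283067 z z)) z) z)))))))))))) (n 261 (n 0 (n 0 (n 3278971 z (n
 3278971 z z)) z) (n 0 (n 0 z z) (n 0 (n 0 z z) (n 0 (n 0 z z) (n 0 (n 0 (n 8590891 z (n 8590891
 z z)) z) (n 0 (n 0 z z) (n 0 (n 0 z z) (n 0 (n 0 z z) (n 0 (n 0 z z) (n 0 (n 0 z z) (n 0 (n 0 z
 z) (n 0 (n 0 (n 3278939 z (n 3278939 z z)) z) z)))))))))))) (n 131 (n 0 (n 0 z z) (n 0 (n 0 z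
 z) (n 0 (n 0 z z) (n 0 (n 0 z z) (n 0 (n 0 z z) (n 0 (n 0 z z) (n 0 (n 0 z z) (n 0 (n 0 z z) (n
 0 (n 0 z z) (n 0 (n 0 z z) (n 0 (n 0 z z) (n 0 (n 0 (n
 0x358747ff8008137f38077e68497bf80d7bf8007ff7ee7ff8007ff7f981b7f27fe7da7ad8558518377ac7da7d882f81e8018307be8457f78257e37be7d47e88277ff7cb77e7df84f86e8437a18810051
 z (n 7750019 z z)) z) (n 0 (n 0 z z) (n 0 (n 0 z z) z)))))))))))))) (n 3 (n 0 (n 0 z z) (n 0 (n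
 0 z z) (n 0 (n 0 z z) (n 0 (n 0 z z) (n 0 (n 0 z z) (n 0 (n 0 z z) (n 0 (n 0 z z) (n 0 (n 0 z
 z) (n 0 (n 0 z z) (n 0 (n 0 z z) (n 0 (n 0 z z) (n 0 (n 0 (n
 0x358747ff8008137f38077e68497bf80d7bf8007ff7ee7ff8007ff7f981b7f27fe7da7ad8558518377ac7da7d882f81e8018307be8457f78257e37be7d47e88277ff7cb77e7df84f86e8437a18810051
 z (n 7749763 z z)) z) (n 0 (n 0 z z) (n 0 (n 0 z z) z)))))))))))))) (n 127 (n 0 (n 0 z z) (n 0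
 (n 0 z z) (n 0 (n 0 z z) (n 0 (n 0 z z) (n 0 (n 0 z z) (n 0 (n 0 z z) (n 0 (n 0 z z) (n 0 (n 0
 (n 3283035 z (n 3283035 z z)) z) (n 0 (n 0 z z) (n 0 (n 0 z z) z)))))))))) (n 399 (n 0 (n 0 z
 z) (n 0 (n 0 (n 4401259 z z) z) (n 0 (n 0 (n 8520763 z z) z) (n 0 (n 0 z z) (n 0 (n 0 z z) (n 0
 (n 0 (n
 0x2cc1080588218008007ff8008057fc7fa8037fa8128008008018008007f47fb8108007fe7fc7f18028048027fe8038167fd7ea7fe8058058047fd7fc7fb80d8038027fe8088067f57f48048077fb8007fe0091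
 z (n 7616539 z z)) z) z)))))) (n 33 (n 0 (n 0 z z) (n 0 (n 0 (n 3278955 z z) z) (n 0 (n 0 z z)
 (n 0 (n 0 z z) (n 0 (n 0 z z) (n 0 (n 0 z z) (n 0 (n 0 (n
 0x2987480280080b8008087ed8237dd8067e48007ff7f28007fa80580080d7ff8027ea7d88258288177d77ed7e881e80980381c7d58227f980b7fc7df7f17f38148047ec7be7ee82a83281b7d683d0051
 z z) z) (n 0 (n 0 z z) z)))))))) (n 129 (n 0 (n 0 (n 3213419 z z) z) (n 0 (n 0 z z) (n 0 (n 0 z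
 z) (n 0 (n 0 z z) (n 0 (n 0 z z) (n 0 (n 0 z z) (n 0 (n 0 z z) (n 0 (n 0 z z) (n 0 (n 0 z z) (n
 0 (n 0 z z) (n 0 (n 0 (n
 0x198738018007ff8018018008008018008018017ff8007ff7fe8018017ff8007ff7ff7ff8007ff8028008037ff7fd7fe8028028008047fe8018018007fe8018027ff8018018008018018007ff7fe0051
 z z) z) (n 0 (n 0 z z) (n 0 (n 0 z z) (n 0 (n 0 z z) z)))))))))))))) (n 3 (n 0 (n 0 z z) (n 0
 (n 0 (n 8782363 z z) z) (n 0 (n 0 z z) (n 0 (n 0 (n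
 0x118748008008008008008008008018008008007fe8018007fe8028017ff7ff8008007ff8008008028008037ff7fd7fe8028018008047fe8018018007fe8018038008008008008008018008007fe0051
 z (n
 0x2cc1080588218008007ff8008057fc7fa8037fa8128008008018008007f47fb8108007fe7fc7f18028048027fe8038167fd7ea7fe8058058047fd7fc7fb80d8038027fe8088067f57f48048077fb8007fe0091
 z z)) z) (n 0 (n 0 z z) (n 0 (n 0 z z) (n 0 (n 0 z z) z))))))) (n 1 (n 0 (n 0 z z) (n 0 (n 0 z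
 z) (n 0 (n 0 z z) (n 0 (n 0 z z) (n 0 (n 0 z z) (n 0 (n 0 z z) (n 0 (n 0 z z) z))))))) (n 0 (n
 0 (n 0 z z) (n 0 (n 0 z z) (n 0 (n 0 z z) (n 0 (n 0 z z) (n 0 (n 0 z z) (n 0 (n 0 z z) (n 0 (n
 0 z z) (n 0 (n 0 (n 3278971 z (n 3278971 z z)) z) (n 0 (n 0 z z) (n 0 (n 0 z z) z))))))))))
 z))))))))))))))))))))) z)))) z) z)))) (n
 0x14b268792742cf4a132cdc1966219273205969849bc98653c8149a80949e09a (n 0 (n 323 (n 3282443 z (n 0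
 z (n 0 z z))) (n 255 (n 3278363 z (n 0 z (n 0 z z))) (n 9 (n
 0x565464130384ca8c806078288d67e786791a75f7a781b7aa71d9234e049976679e7e49d68608e7a1f7e0822b1c9665de1001
 z (n 0 z (n
 0x8ca8ca86036e671b9a28e29db85c8228a086589992085f81d6e382176195c7619229607e27a48e18a279d0801 z
 (n
 0x15951950c0e2b2a2a0981c565254130384c62c620079a68da7a2a2165f69d7a292082281e8de7648207a181d7de85c8de89d8618a676376375f7e12001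
 z (n 2 z (n 10 z (n 18 z (n 3212843 z (n 0 z (n 0 z (n 3212843 z (n 26 z z)))))))))))) (n 27 (n
 0 z (n
 0x6ca6a408078237df7e28208207de82089f8207df8617e07e08208208208208208608207e182085f8608200801 z
 (n 34 z (n 0 z (n 0 z (n 0 z (n 0 z (n 42 z (n 0 z (n 2164283 z z)))))))))) (n 1 (n 0 z (n 0 z
 (n 50 z (n 0 z (n 0 z (n 0 z (n 0 z (n
 0x65365320188ca6ca04037ea5de8676a1915821660917ae481796589692179e7e47649da72182592571f8e39217226e01001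
 z (n 58 z (n 6563131 z z)))))))))) (n 0 (n 66 z (n 0 z (n 74 z (n 0 z (n 82 z (n 90 z (n 0 z (n
 0 z (n 0 z (n 0xca88426070821 z (n 0 z (n 2164315 z (n 3212891 z z))))))))))))) z)))))) (n 323
 (n 0 (n 0 z (n 0 z (n 0 z (n 251 (n 0 z (n 0 z (n 0 z (n 0 z (n 0 z (n 0 z (n 0 z (n 0 z (n 0 z
 (n 0 z (n 0 z (n 0 z (n 0 z (n 0 z (n 0 z (n 0 z (n 0 z (n 0 z (n 0 z (n 0 z (n 0 z (n 0 z (n 0
 z (n 0 z (n 0 z (n 0 z (n 0 z (n 0 z (n 0 z (n 0 z (n 0 z (n 0 z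
 z)))))))))))))))))))))))))))))))) (n 251 (n 0 z (n 0 z (n 0 z (n 0 z (n 0 z (n 0 z (n 0 z (n 0
 z (n 0 z (n 0 z (n 0 z (n 0 z (n 0 z (n 0 z (n 0 z (n 0 z (n 0 z (n 0 z (n 0 z (n 0 z (n 0 z (n
 0 z (n 0 z (n 0 z (n 0 z (n 0 z (n 0 z (n 0 z (n 0 z (n 0 z (n 0 z (n 0 z
 z)))))))))))))))))))))))))))))))) (n 249 (n 0 z (n 0 z (n 0 z (n 0 z (n 0 z (n 0 z (n 0 z (n 0
 z (n 0 z (n 0 z (n 0 z z))))))))))) (n 249 (n 0 z (n 0 z (n 2 (n 1 z (n 2 (n 0 z (n 0 z (n 0 z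
 (n 0 z (n 0 z (n 0 z z)))))) (n 1 z (n 2 (n 0 z (n 0 z (n 0 z (n 0 z (n 0 z (n 0 z z))))))
 z)))) (n 0 z (n 0 z (n 0 z (n 0 z (n 0 z (n 0 z (n 0 z (n 0 z z))))))))))) (n 13 (n 0 z (n 0 z
 (n 0 z (n 0 z (n 0 z (n 0 z (n 0 z (n 0 z (n 0 z (n 0 z (n 0 z (n 0 z z)))))))))))) (n 13 (n 0
 z (n 0 z (n 0 z (n 7754803 z (n 0 z (n 0 z (n 0 z (n 0 z (n 0 z (n 0 z (n 0 z (n 0 z
 z)))))))))))) (n 13 (n 0 z (n 0 z (n 0 z (n 0 z (n 0 z (n 0 z (n 0 z (n 0 z (n 0 z (n 0 z (n 0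
 z (n 0 z z)))))))))))) (n 13 (n 0 z (n 0 z (n 0 z (n 0 z (n 0 z (n 0 z (n 0 z (n 0 z (n 2 z (n
 0 z (n 0 z (n 0 z z)))))))))))) z))))))))))) (n 0 (n 0 z (n 0 z (n 487 (n 6629147 z (n 6627699
 z (n 0 z (n 0 z (n 0 z (n 0 z (n 0 z (n 0 z (n 0 z (n 0 z (n 0 z (n 0 z (n 0 z (n 0 z (n 0 z (n
 0 z (n 0 z (n 0 z (n 0 z (n 0 z (n 0 z (n 0 z (n 0 z (n 0 z (n 0 z z)))))))))))))))))))))))))
 (n 487 (n 0 z (n 0 z (n 0 z (n 0 z (n 0 z (n 0 z (n 0 z (n 0 z (n 0 z (n 0 z (n 0 z (n 0 z (n 0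
 z (n 0 z (n 0 z (n 0 z (n 0 z (n 0 z (n 0 z (n 7741699 z (n 0 z (n 0 z (n 0 z (n 0 z (n 0 z
 z))))))))))))))))))))))))) (n 297 (n 0 z (n 0 z (n 0 z (n 0 z (n 0 z (n 0 z (n 0 z (n 0 z (n 0
 z (n 0 z (n 0 z (n 0 z (n 0 z (n 0 z (n 0 z (n 0 z (n 0 z (n 0 z (n 0 z (n 6629147 z (n 0 z (n
 0 z (n 0 z (n 0 z (n 0 z z))))))))))))))))))))))))) (n 297 (n 0 z (n 0 z (n 0 z (n 0 z (n 0 z
 (n 0 z (n 0 z (n 7741699 z (n 0 z (n 0 z (n 0 z (n 0 z (n 0 z (n 0 z (n 0 z (n 0 z (n 0 z (n 0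
 z (n 0 z (n 0 z (n 0 z (n 0 z (n 0 z (n 0 z (n 0 z z))))))))))))))))))))))))) (n 1 (n 7741699 z
 (n 0 z (n 0 z (n 0 z (n 0 z (n 0 z (n 0 z (n 0 z (n 0 z (n 0 z (n 0 z (n 0 z (n 0 z (n 0 z (n 0
 z (n 0 z (n 0 z (n 0 z (n 0 z (n 0 z (n 0 z (n 0 z (n 0 z (n 0 z (n 0 z
 z))))))))))))))))))))))))) (n 1 (n 0 z (n 0 z (n 0 z (n 0 z (n 2 (n 0 z (n 0 z z)) (n
 0xeea8c426038298dd7de71f8dc6df920a5e6a08618218266e196072789f81f81a75e7a075f7649a079e8a00801 z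
 (n 0 z (n 0 z (n 0 z (n 0 z (n 0 z (n 0 z (n 0 z (n 0 z (n 0 z (n 0 z (n 0 z (n 0 z (n 0 z (n 0
 z (n 0 z (n 0 z (n 0 z (n 0 z (n 0 z z))))))))))))))))))))))))) (n 1 (n 0 z (n 0 z (n 0 z (n 0
 z (n 0 z (n 0 z (n 0 z (n 2 (n 0 z z) (n 0 z (n 0 z (n 0 z (n 0 z (n 0 z (n 0 z (n 0 z (n 0 z
 (n 0 z (n 0 z (n 0 z (n 0 z (n 0 z (n 0 z (n 0 z (n 0 z (n 0 z z))))))))))))))))))))))))) (n 1
 (n 0 z (n 0 z (n 0 z (n 0 z (n 0 z (n 0 z (n 0 z (n 0 z (n 0 z (n 0 z (n 0 z (n 0 z (n 0 z (n 0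
 z (n 0 z (n 0 z (n 0 z (n 0 z (n 0 z (n 0 z (n 0 z (n 0 z (n 0 z (n 0 z (n 0 z
 z))))))))))))))))))))))))) z)))))))))) (n 0 (n 0 z (n 299 (n 0 z (n 0 z (n 0 z (n 0 z (n 0 z (n
 0 z (n 0 z (n 0 z (n 0 z (n 0 z (n 0 z z))))))))))) (n 299 (n 0 z (n 0 z (n 0 z (n 0 z (n 2 (n
 1 z (n 2 (n 0 z (n 0 z (n 0 z (n 0 z (n 0 z (n 0 z z)))))) (n 1 z (n 2 (n 0 z (n 0 z (n 0 z (n
 0 z (n 0 z (n 0 z z)))))) (n 2 (n 0 z (n 0 z (n 0 z (n 0 z (n 0 z (n 0 z z)))))) (n 1 z z))))))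
 (n 0 z (n 0 z (n 0 z (n 0 z (n 0 z (n 0 z z))))))))))) (n 297 (n 0 z (n 0 z (n 0 z (n 0 z (n 0
 z (n 0 z (n 0 z (n 0 z (n 0 z (n 0 z (n 0 z z))))))))))) (n 297 (n 0 z (n 0 z (n 0 z (n 2 (n 1
 z (n 2 (n 0 z (n 0 z (n 0 z (n 0 z (n 0 z (n 0 z z)))))) (n 2 (n 0 z (n 0 z (n 0 z (n 0 z (n 0
 z (n 0 z z)))))) (n 1 z z)))) (n 0 z (n 0 z (n 0 z (n 0 z (n 0 z (n 0 z (n 0 z z))))))))))) (n
 241 (n 0 z (n 2 (n 0 z (n 0 z (n 0 z z))) (n 0 z (n 0 z (n 0 z (n 0 z (n 0 z (n 0 z (n 0 z (n 0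
 z (n 0 z (n 0 z (n 0 z (n 0 z z)))))))))))))) (n 241 (n 0 z (n 0 z (n 0 z (n 0 z (n 0 z (n 0 z
 (n 0 z (n 0 z (n 0 z (n 0 z (n 0 z (n 0 z (n 0 z (n 0 z z)))))))))))))) (n 241 (n 0 z (n 0 z (n
 0 z (n 0 z (n 2 (n 0 z z) (n 0 z (n 0 z (n 0 z (n 0 z (n 0 z (n 0 z (n 0 z (n 0 z (n 0 z
 z)))))))))))))) (n 241 (n 0 z (n 0 z (n 0 z (n 0 z (n 0 z (n 0 z (n 0 z (n 0 z (n 0 z (n 0 z (n
 0 z (n 0 z (n 0 z (n 0 z z)))))))))))))) z))))))))) (n 0 (n 55 (n 0 z (n 0 z (n 0 z (n 0 z (n 0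
 z (n 0 z (n 0 z (n 0 z z)))))))) (n 55 (n 0 z (n 0 z (n 0 z (n 0 z (n 0 z (n 0 z (n 0 z (n 0 z
 z)))))))) (n 3 (n 0 z (n 0 z (n 2 (n 0 z (n 1 z (n 1 z (n 1 z (n 2 (n 0 z (n 0 z (n 0 z (n 0 z
 (n 0 z (n 0 z z)))))) z))))) (n 0 z (n 0 z (n 0 z (n 0 z (n 0 z (n 0 z (n 0 z (n 0 z (n 0 z
 z)))))))))))) (n 3 (n 0 z (n 0 z (n 0 z (n 0 z (n 0 z (n 0 z (n 0 z (n 0 z (n 0 z (n 0 z (n 0 z
 (n 0 z z)))))))))))) (n 49 (n 0 z (n 0 z (n 0 z (n 0 z (n 0 z (n 0 z (n 0 z (n 0 z (n 0 z (n 0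
 z (n 0 z (n 0 z z)))))))))))) (n 49 (n 0 z (n 0 z (n 2 (n 0 z (n 0 z z)) (n 0 z (n 0 z (n 0 z
 (n 0 z (n 0 z (n 0 z (n 0 z (n 0 z (n 0 z z)))))))))))) (n 49 (n 0 z (n 0 z (n 0 z (n 0 z (n 0
 z (n 0 z (n 0 z (n 0 z (n 0 z (n 0 z (n 0 z (n 0 z z)))))))))))) (n 49 (n 0 z (n 0 z (n 0 z (n
 0 z (n 0 z (n 0 z (n 0 z (n 0 z (n 0 z (n 0 z (n 0 z (n 0 z z)))))))))))) z)))))))) (n 0 (n 0 z
 (n 3 (n 0 z (n 0 z (n 0 z (n 0 z (n 0 z (n 0 z (n 0 z (n 0 z (n 0 z (n 0 z (n 0 z (n 0 z (n 0 z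
 (n 0 z z)))))))))))))) (n 3 (n 0 z (n 0 z (n 0 z (n 0 z (n 0 z (n 0 z (n 0 z (n 0 z (n 0 z (n 0
 z (n 0 z (n 2 (n 1 z (n 2 (n 0 z (n 0 z (n 0 z (n 0 z (n 0 z (n 0 z z)))))) (n 1 z (n 2 (n 0 z
 (n 0 z (n 0 z (n 0 z (n 0 (n 8855811 z z) (n 0 z z)))))) z)))) (n 0 z (n 0 z z)))))))))))))) (n
 53 (n 0 z (n 0 z (n 0 z (n 0 z (n 0 z (n 0 z (n 0 z (n 0 z (n 0 z (n 0 z (n 0 z (n 0 z (n 0 z
 (n 0 z (n 0 z (n 0 z (n 0 z (n 0 z (n 0 z (n 0 z (n 0 z (n 0 z (n 0 z (n 0 z (n 0 z (n 0 z (n 0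
 z (n 0 z (n 0 z (n 0 z (n 0 z (n 0 z (n 0 z (n 0 z (n 0 z (n 0 z (n 0 z (n 0 z (n 0 z (n 0 z (n
 0 z (n 0 z (n 0 z (n 0 z (n 0 z (n 0 z z)))))))))))))))))))))))))))))))))))))))))))))) (n 53 (n
 0 z (n 0 z (n 0 z (n 0 z (n 0 z (n 0 z (n 0 z (n 0 z (n 0 z (n 0 z (n 0 z (n 0 z (n 0 z (n 0 z
 (n 0 z (n 0 z (n 0 z (n 0 z (n 0 z (n 0 z (n 0 z (n 0 z (n 0 z (n 0 z (n 0 z (n 0 z (n 0 z (n 0
 z (n 0 z (n 0 z (n 0 z (n 0 z (n 0 z (n 0 z (n 0 z (n 0 z (n 0 z (n 7677467 z (n 0 z (n 0 z (n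
 0 z (n 0 z (n 0 z (n 0 z (n 0 z (n 0 z z)))))))))))))))))))))))))))))))))))))))))))))) (n 53 (n
 0 z (n 0 z (n 0 z (n 0 z (n 0 z (n 0 z (n 0 z (n 0 z (n 0 z (n 0 z (n 0 z (n 0 z (n 0 z (n 0 z
 (n 0 z (n 0 z (n 0 z (n 0 z (n 0 z (n 0 z (n 0 z (n 0 z (n 0 z (n 0 z (n 0 z (n 0 z (n 0 z (n 0
 z (n 0 z (n 0 z (n 0 z (n 0 z (n 0 z (n 0 z (n 0 z (n 0 z (n 0 z (n 0 z (n 0 z (n 0 z (n 0 z (n
 0 z (n 0 z (n 0 z (n 0 z (n 0 z z)))))))))))))))))))))))))))))))))))))))))))))) (n 53 (n 0 z (n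
 0 z (n 0 z (n 0 z (n 0 z (n 0 z (n 0 z (n 0 z (n 0 z (n 0 z (n 0 z (n 0 z (n 0 z (n 0 z (n 0 z
 (n 0 z (n 0 z (n 0 z (n 0 z (n 0 z (n 0 z (n 2 z (n 0 z (n 0 z (n 0 z (n 0 z (n 0 z (n 0 z (n 0
 z (n 0 z (n 0 z (n 0 z (n 0 z (n 0 z (n 0 z (n 0 z (n 0 z (n 0 z (n 0 z (n 0 z (n 0 z (n 0 z (n
 0 z (n 0 z (n 0 z (n 0 z z)))))))))))))))))))))))))))))))))))))))))))))) z))))))) (n 0 (n 63 (n
 0 z (n 2 (n 0 z (n 1 z (n 1 z (n 1 z (n 2 (n 0 z (n 0 z (n 0 z (n 0 z (n 0 z (n 0 z z))))))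
 z))))) (n 0 z (n 0 z (n 0 z (n 0 z (n 0 z (n 0 z z)))))))) (n 63 (n 0 z (n 0 z (n 0 z (n 0 z (n
 0 z (n 0 z (n 0 z (n 0 z z)))))))) (n 581 (n 0 z (n 0 z (n 0 z (n 0 z (n 0 z (n 0 z (n 0 z (n 0
 z (n 0 z (n 0 z (n 0 z (n 0 z (n 0 z (n 0 z (n 0 z (n 0 z (n 0 z (n 0 z (n 0 z (n 0 z (n 0 z (n
 0 z (n 0 z (n 0 z (n 0 z (n 0 z (n 0 z (n 0 z (n 0 z (n 0 z (n 0 z (n 0 z (n 0 z (n 0 z (n 0 z
 (n 0 z (n 0 z (n 0 z (n 0 z (n 0 z (n 0 z (n 0 z (n 0 z (n 0 z (n 0 z (n 0 z (n 0 z (n 0 z (n 0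
 z z))))))))))))))))))))))))))))))))))))))))))))))))) (n 581 (n 0 z (n 0 z (n 0 z (n 0 z (n 0 z
 (n 0 z (n 0 z (n 0 z (n 0 z (n 0 z (n 0 z (n 0 z (n 0 z (n 0 z (n 0 z (n 0 z (n 0 z (n 0 z (n 0
 z (n 0 z (n 0 z (n 0 z (n 0 z (n 0 z (n 0 z (n 0 z (n 0 z (n 0 z (n 0 z (n 0 z (n 0 z (n 0 z (n
 7677515 z (n 0 z (n 0 z (n 0 z (n 0 z (n 0 z (n 0 z (n 0 z (n 0 z (n 0 z (n 0 z (n 0 z (n 0 z
 (n 0 z (n 0 z (n 0 z (n 0 z z))))))))))))))))))))))))))))))))))))))))))))))))) (n 581 (n 0 z (n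
 0 z (n 0 z (n 0 z (n 0 z (n 0 z (n 0 z (n 0 z (n 0 z (n 0 z (n 0 z (n 0 z (n 0 z (n 0 z (n 0 z
 (n 0 z (n 0 z (n 0 z (n 0 z (n 0 z (n 0 z (n 0 z (n 0 z (n 0 z (n 0 z (n 0 z (n 0 z (n 0 z (n 0
 z (n 0 z (n 0 z (n 0 z (n 0 z (n 0 z (n 0 z (n 0 z (n 0 z (n 0 z (n 0 z (n 0 z (n 0 z (n 0 z (n
 0 z (n 0 z (n 0 z (n 0 z (n 0 z (n 0 z (n 0 z
 z))))))))))))))))))))))))))))))))))))))))))))))))) (n 581 (n 0 z (n 0 z (n 0 z (n 0 z (n 0 z (n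
 0 z (n 0 z (n 0 z (n 0 z (n 0 z (n 0 z (n 0 z (n 0 z (n 0 z (n 0 z (n 0 z (n 0 z (n 0 z (n 0 z
 (n 0 z (n 0 z (n 0 z (n 0 z (n 0 z (n 0 z (n 0 z (n 0 z (n 0 z (n 0 z (n 0 z (n 0 z (n 0 z (n 0
 z (n 0 z (n 0 z (n 0 z (n 0 z (n 0 z (n 0 z (n 0 z (n 0 z (n 0 z (n 0 z (n 0 z (n 0 z (n 0 z (n
 0 z (n 0 z (n 0 z z))))))))))))))))))))))))))))))))))))))))))))))))) z)))))) (n 0 (n 0 z (n 1
 (n 0 z (n 0 z (n 0 z (n 0 z (n 0 z (n 0 z (n 0 z (n 2 (n 0 z (n 0 z (n 0 z z))) (n 0 z (n 0 z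
 (n 0 z z))))))))))) (n 1 (n 0 z (n 0 z (n 0 z (n 0 z (n 0 z (n 0 z (n 0 z (n 0 z (n 0 z (n 0 z
 (n 7754803 z z))))))))))) (n 1 (n 0 z (n 0 z (n 0 z (n 0 z (n 0 z (n 0 z (n 0 z (n 0 z (n 0 z
 (n 0 z (n 0 z z))))))))))) (n 1 (n 0 z (n 0 z (n 0 z (n 0 z (n 2 z (n 0 z (n 0 z (n 0 z (n 0 z
 (n 0 z (n 0 z z))))))))))) z))))) (n 0 (n 73 (n 0 z (n 0 z (n 0 z (n 0 z (n 0 z (n 0 z (n 0 z
 (n 0 z (n 0 z (n 0 z (n 0 z (n 0 z (n 0 z (n 0 z (n 0 z (n 0 z (n 0 z (n 0 z (n 0 z (n 0 z (n 0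
 z (n 0 z (n 0 z (n 0 z (n 0 z (n 0 z (n 0 z (n 0 z (n 0 z (n 0 z (n 0 z (n 0 z (n 0 z (n 0 z (n
 0 z (n 0 z (n 0 z (n 0 z (n 0 z (n 0 z (n 0 z (n 0 z (n 0 z (n 0 z (n 0 z (n 0 z (n 0 z
 z))))))))))))))))))))))))))))))))))))))))))))))) (n 73 (n 0 z (n 0 z (n 0 z (n 0 z (n 0 z (n 0
 z (n 0 z (n 0 z (n 0 z (n 0 z (n 0 z (n 0 z (n 0 z (n 0 z (n 0 z (n 0 z (n 0 z (n 0 z (n 0 z (n
 0 z (n 0 z (n 0 z (n 0 z (n 0 z (n 0 z (n 0 z (n 0 z (n 0 z (n 0 z (n 0 z (n 0 z (n 0 z (n 0 z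
 (n 0 z (n 0 z (n 0 z (n 0 z (n 0 z (n 0 z (n 0 z (n 0 z (n 0 z (n 0 z (n 0 z (n 7677515 z (n 0
 z (n 0 z z))))))))))))))))))))))))))))))))))))))))))))))) (n 73 (n 0 z (n 0 z (n 0 z (n 0 z (n
 0 z (n 0 z (n 0 z (n 0 z (n 0 z (n 0 z (n 0 z (n 0 z (n 0 z (n 0 z (n 0 z (n 0 z (n 0 z (n 0 z
 (n 0 z (n 0 z (n 0 z (n 0 z (n 0 z (n 0 z (n 0 z (n 0 z (n 0 z (n 0 z (n 0 z (n 0 z (n 0 z (n 0
 z (n 0 z (n 0 z (n 0 z (n 0 z (n 0 z (n 2 (n 0 z z) (n 0 z (n 0 z (n 0 z (n 0 z (n 0 z (n 0 z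
 (n 0 z (n 0 z (n 0 z z))))))))))))))))))))))))))))))))))))))))))))))) (n 73 (n 0 z (n 0 z (n 0
 z (n 0 z (n 0 z (n 0 z (n 0 z (n 0 z (n 0 z (n 0 z (n 0 z (n 0 z (n 0 z (n 0 z (n 0 z (n 0 z (n
 0 z (n 0 z (n 0 z (n 0 z (n 0 z (n 0 z (n 0 z (n 0 z (n 0 z (n 0 z (n 0 z (n 0 z (n 0 z (n 0 z
 (n 0 z (n 0 z (n 0 z (n 0 z (n 0 z (n 0 z (n 0 z (n 0 z (n 0 z (n 0 z (n 0 z (n 0 z (n 0 z (n 0
 z (n 0 z (n 0 z (n 0 z z))))))))))))))))))))))))))))))))))))))))))))))) z)))) (n 0 (n 0 z (n 0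
 z (n 0 z z))) (n 0 (n 0 z (n 0 z z)) (n 0 (n 0 z z) (n 0 z z)))))))))))) (n 0 (n 1 (n 3282443 z
 (n 3282443 z (n 3282443 z (n 3282443 z (n 3282443 z (n 3282443 z z)))))) (n 0 z (n 0 z z))) (n
 0 z z)))) (n 0xc6c945ba5a2d76515d7288a156c10a720313b102927446ac502362840 (n 0 (n 591 (n 0 z (n
 0 z (n 3282443 z (n 2 z (n 0 z (n 0 z (n 0 z z))))))) (n 257 (n 0 z (n 0 z (n 10 z (n 3278363 z
 (n 0 z (n 0 z (n 0 z (n 0 z z)))))))) (n 135 (n 18 z (n 0 z (n 3212843 z (n 0 z (n 0 z (n 0 z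
 (n 0 z (n 26 z z)))))))) (n 27 (n 0 z (n 0 z (n 0 z (n 0 z (n 0 z (n 0 z (n 34 z (n 42 z (n 0 z
 (n 0 z (n 2164283 z (n 0 z z)))))))))))) (n 1 (n 0 z (n 6554139 z (n 0 z (n 0 z (n 0 z (n 0 z
 (n 0 z z))))))) (n 0 (n 2164315 z (n
 0xd90d90c80606c86c6400381817e8286817e817d7e80817d817683887d7c7b7a8b80817d8f768d80698480927f6771839c8d5e73717d939b857863a08a1009
 z (n 3212891 z (n
 0x14b0802861080807f808080807f8080808081808080808080818080808080807f7f7f81837f817f838280807e85808281807e7f81827e7d0089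
 z (n
 0x14b1002862080807f808080807f8080808081808080808080818080808080807f7f7f81837f817f838280807e85808281807e7f81827e7d0089
 z (n
 0xb318b10200c1d90d8c080e02c64c6420399847ea67b91658250865468a78542b7a44964982da186cd66ad6e8665597a5cb9907b6343a1b066a7368a79cb9d873489991809
 z (n
 0x14b1002862080807f808080807f8080808081808080808080818080808080807f7f7f81837f817f838280807e85808281807e7f81827e7d0089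
 z (n 50 z (n
 0x14b0802861080807f808080807f8080808081808080808080818080808080807f7f7f81837f817f838280807e85808281807e7f81827e7d0089
 z (n 58 z (n 66 z (n 74 z (n 82 z (n 0 z z)))))))))))))) z)))))) (n 591 (n 0 (n 1179 (n 0 z (n
 0 z (n 0 z (n 0 z (n 0 z (n 0 z (n 0 z (n 0 z (n 0 z (n 0 z (n 0 z z))))))))))) (n 19 (n 2 (n 0
 z (n 1 z (n 2 (n 0 z (n 0 z (n 0 z (n 0 z (n 0 z (n 0 z z)))))) (n 1 z (n 2 (n 0 z (n 0 z (n 0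
 z (n 0 z (n 0 z (n 0 z z)))))) (n 2 (n 0 z (n 0 z (n 0 z (n 0 z (n 0 z (n 0 z z)))))) (n 2 (n 0
 z (n 0 z (n 0 z (n 0 (n 52 z z) (n 0 (n 6566019 z z) (n 0 (n 52 z (n 7614595 z z)) z)))))) (n 2
 (n 0 z (n 0 z (n 0 z (n 0 z (n 0 z (n 0 z z)))))) z)))))))) (n 0 z (n 0 z (n 0 z (n 0 z (n 0 z
 (n 0 z (n 0 z (n 0 z z))))))))) (n 19 (n 0 z (n 0 z (n 0 z (n 0 z (n 0 z (n 0 z (n 0 z (n 0 z
 (n 0 z z))))))))) (n 1181 (n 0 z (n 0 z (n 0 z (n 0 z (n 0 z (n 0 z (n 0 z (n 0 z (n 0 z (n 0 z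
 z)))))))))) (n 1181 (n 0 z (n 0 z (n 0 z (n 0 z (n 0 z (n 0 z (n 0 z (n 0 z (n 0 z (n 0 z
 z)))))))))) (n 13 (n 0 z (n 0 z (n 0 z (n 0 z (n 0 z (n 0 z (n 0 z (n 0 z (n 0 z (n 0 z (n 0 z
 (n 0 z z)))))))))))) (n 13 (n 0 z (n 0 z (n 0 z (n 0 z (n 0 z (n 0 z (n 0 z (n 0 z (n 0 z (n 0
 z (n 0 z (n 0 z z)))))))))))) (n 13 (n 0 z (n 0 z (n 0 z (n 0 z (n 0 z (n 0 z (n 0 z (n 0 z (n
 2 (n 0 z (n 0 z z)) (n 0 z (n 0 z (n 0 z z)))))))))))) (n 13 (n 0 z (n 0 z (n 0 z (n 0 z (n 0 z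
 (n 0 z (n 0 z (n 0 z (n 0 z (n 2 (n 0 z z) (n 0 z (n 0 z z)))))))))))) (n 13 (n 0 z (n 0 z (n 0
 z (n 0 z (n 0 z (n 0 z (n 0 z (n 0 z (n 0 z (n 0 z (n 0 z (n 2 z z)))))))))))) z)))))))))) (n 0
 (n 1155 (n 0 z (n 0 z (n 0 z (n 0 z (n 0 z (n 0 z (n 0 z (n 7472699 z z)))))))) (n 1155 (n 0 z
 (n 0 z (n 0 z (n 0 z (n 0 z (n 0 z (n 0 z (n 0 z z)))))))) (n 513 (n 0 z (n 0 z (n 0 z (n 0 z
 (n 0 z (n 0 z z)))))) (n 513 (n 0 z (n 0 z (n 0 z (n 0 z (n 0 z (n 0 z z)))))) (n 505 (n 0 z (n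
 0 z (n 0 z (n 0 z (n 0 z (n 0 z (n 0 z (n 0 z (n 0 z (n 0 z (n 0 z (n 0 z z)))))))))))) (n 505
 (n 0 z (n 0 z (n 0 z (n 7738411 z (n 0 z (n 0 z (n 0 z (n 0 z (n 0 z (n 0 z (n 0 z (n 0 z
 z)))))))))))) (n 505 (n 0 z (n 0 z (n 0 z (n 0 z (n 0 z (n 0 z (n 0 z (n 0 z (n 0 z (n 2 (n 0 z
 (n 0 z z)) (n 0 z (n 0 z z)))))))))))) (n 505 (n 0 z (n 0 z (n 0 z (n 0 z (n 0 z (n 0 z (n 0 z
 (n 0 z (n 2 (n 0 z z) (n 0 z (n 0 z (n 0 z z)))))))))))) (n 505 (n 2 z (n 0 z (n 0 z (n 0 z (n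
 0 z (n 0 z (n 0 z (n 0 z (n 0 z (n 0 z (n 0 z (n 0 z z)))))))))))) z))))))))) (n 0 (n 0 z (n
 1421 (n 0 z (n 0 z (n 0 z (n 0 z (n 0 z (n 0 z (n 0 z (n 0 z (n 0 z (n 0 z (n 0 z (n 2 (n 0 z
 (n 1 z (n 2 (n 0 z (n 0 z (n 0 z (n 0 z (n 0 z (n 0 (n 1078 z z) z)))))) (n 2 (n 0 z (n 0 z (n
 0 z (n 0 z (n 0 z (n 0 z z)))))) (n 2 (n 0 z (n 0 z (n 0 z (n 0 z (n 0 z (n 0 z z)))))) (n 1 z
 z)))))) (n 0 z (n 0 z (n 0 z (n 0 z (n 0 z (n 0 z (n 0 z (n 0 z (n 0 z (n 0 z (n 0 z (n 0 z (n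
 0 z (n 0 z (n 0 z (n 0 z (n 0 z (n 0 z (n 0 z (n 0 z (n 0 z (n 0 z (n 0 z (n 0 z (n 0 z (n 0 z
 (n 0 z (n 0 z (n 0 z (n 0 z (n 0 z (n 0 z (n 0 z (n 0 z (n 0 z (n 0 z (n 0 z (n 0 z (n 0 z
 z))))))))))))))))))))))))))))))))))))))))))))))))))) (n 1421 (n 0 z (n 0 z (n 0 z (n 0 z (n 0 z
 (n 0 z (n 6424379 z (n 0 z (n 0 z (n 0 z (n 0 z (n 0 z (n 0 z (n 0 z (n 0 z (n 0 z (n 0 z (n 0
 z (n 0 z (n 0 z (n 0 z (n 0 z (n 0 z (n 0 z (n 0 z (n 0 z (n 0 z (n 0 z (n 0 z (n 0 z (n 0 z (n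
 0 z (n 0 z (n 0 z (n 0 z (n 0 z (n 0 z (n 0 z (n 0 z (n 0 z (n 0 z (n 0 z (n 0 z (n 0 z (n 0 z
 (n 0 z (n 0 z (n 0 z (n 0 z (n 0 z (n 0 z z)))))))))))))))))))))))))))))))))))))))))))))))))))
 (n 17 (n 0 z (n 0 z (n 0 z (n 0 z (n 0 z (n 0 z (n 0 z (n 6424379 z (n 0 z (n 0 z (n 0 z (n 0 z
 z)))))))))))) (n 17 (n 0 z (n 0 z (n 0 z (n 0 z (n 0 z (n 0 z (n 0 z (n 0 z (n 0 z (n 0 z (n
 0x8ec8ec80037b7e84767d7b8a708b6e8776858a85807e85808a8a807c7586718e687f9b828b638097908e5c6fb579a585875d707ca061540809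
 z (n 0 z z)))))))))))) (n 17 (n 0 z (n 0 z (n 0 z (n 6424411 z (n 0 z (n 0 z (n 0 z (n 0 z (n 0
 z (n 0 z (n 0 z (n 0 z z)))))))))))) (n 17 (n 0 z (n 0 z (n 0 z (n 0 z (n 0 z (n 0 z (n 0 z (n
 0 z (n 0 z (n 0 z (n 0 z (n 0 z z)))))))))))) (n 17 (n 0 z (n 0 z (n 0 z (n 0 z (n 0 z (n 0 z
 (n 0 z (n 0 z (n 0 z (n 0 z (n 0 z (n 0 z z)))))))))))) z)))))))) (n 0 (n 247 (n 0 z (n 0 z (n
 0 z (n 0 z (n 0 z (n 0 z (n 0 z z))))))) (n 247 (n 0 z (n 0 z (n 0 z (n 0 z (n 0 z (n 0 z (n 0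
 z z))))))) (n 245 (n 0 z (n 0 z (n 0 z (n 0 z (n 0 z (n 0 z (n 0 z (n 0 z (n 0 z (n 0 z (n 0 z
 (n 0 z (n 0 z (n 0 z z)))))))))))))) (n 245 (n 0 z (n 0 z (n 0 z (n 0 z (n
 0x14bb082876180807f808080807f8080808081808080808080818080808080807f7f7f81837f817f838280807e85808281807e7f81827e7d0089
 z (n 0 z (n 0 z (n 0 z (n 0 z (n 0 z (n 0 z (n 0 z (n 0 z (n 0 z z)))))))))))))) (n 245 (n 0 z
 (n 0 z (n 0 z (n 0 z (n 0 z (n 0 z (n 0 z (n 0 z (n 0 z (n 0 z (n 0 z (n 2 (n 0 z (n 0 z z)) (n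
 0 z (n 0 z z)))))))))))))) (n 245 (n 0 z (n 0 z (n 0 z (n 0 z (n 0 z (n 0 z (n 0 z (n 0 z (n 0
 z (n 0 z (n 2 (n 0 z z) (n 0 z (n 0 z (n 0 z z)))))))))))))) (n 245 (n 2 z (n 0 z (n 0 z (n 0 z
 (n 0 z (n 0 z (n 0 z (n 0 z (n 0 z (n 0 z (n 0 z (n 0 z (n 0 z (n 0 z z)))))))))))))) z)))))))
 (n 0 (n 0 z (n 493 (n 0 z (n 0 z (n 0 z (n 0 z (n 0 z (n 0 z (n 0 z (n 0 z (n 0 z (n 0 z
 z)))))))))) (n 493 (n 0 z (n 0 z (n 0 z (n 0 z (n 2 (n 0 z (n 0 z (n 0 z z))) (n 0 z (n 0 z (n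
 0 z (n 0 z (n 0 z z)))))))))) (n 493 (n 0 z (n 0 z (n 0 z (n 0 z (n 0 z (n 0 z (n 0 z (n 0 z (n
 0 z (n 0 z z)))))))))) (n 493 (n 0 z (n 0 z (n 0 z (n 0 z (n 0 z (n 0 z (n 0 z (n 0 z (n 0 z (n
 0 z z)))))))))) (n 493 (n 0 z (n 0 z (n 0 z (n 0 z (n 0 z (n 0 z (n 0 z (n 0 z (n 0 z (n 0 z
 z)))))))))) z)))))) (n 0 (n 253 (n 0 z (n 0 z (n 0 z (n 0 z (n 0 z (n 0 z (n 0 z (n 0 z (n 0 z
 (n 0 z z)))))))))) (n 253 (n 0 z (n 0 z (n 0 z (n 0 z (n 0 z (n 0 z (n 0 z (n 0 z (n 0 z (n 0 z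
 z)))))))))) (n 253 (n 0 z (n 0 z (n 0 z (n 0 z (n 2 (n 0 z (n 0 z z)) (n 0 z (n 0 z (n 0 z (n 0
 z (n 0 z z)))))))))) (n 253 (n 0 z (n 0 z (n 0 z (n 0 z (n 0 z (n 0 z (n 0 z (n 0 z (n 0 z (n 0
 z z)))))))))) (n 253 (n 0 z (n 0 z (n 0 z (n 0 z (n 0 z (n 0 z (n 0 z (n 0 z (n 0 z (n 0 z
 z)))))))))) z))))) (n 0 (n 0 z (n 0 z (n 0 z (n 0 z z)))) (n 0 (n 0 z (n 0 z (n 0 z z))) (n 0
 (n 0 z (n 0 z z)) (n 0 (n 0 z z) (n 0 z z))))))))))) (n 0 (n 0 z (n 0 z (n 1 (n 3282443 z (n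
 3282443 z (n 3282443 z (n 3282443 z (n 3282443 z (n 3282443 z z)))))) (n 1 (n 2060 z (n 12 z (n
 2060 z (n 2060 z (n 2060 z (n 2060 z z)))))) (n 0 z (n 0 z (n 0 z z))))))) (n 0 z z)))) (n
 0x5365a2224d81126106cb24049668b2baa0255344aa440946912ac6e109a68a51544322209 (n 0 (n 467 (n
 3282443 z (n 0 z (n 0 z (n 0 z z)))) (n 475 (n 0 z (n 2 z (n
 0x2ca8a86407807281809c727f848a99718a75876c7777907f8986718b81747b9b65798d7e7d797b828e8a7e5e8b90768a7d608975a074820809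
 z (n
 0x594d94900602ca4a6080380607b83b46c6f868ab5679a6889636b6f9b81998d6a937e6e72a95a78937c717879868e828a4e949f6c89724e9a73ac69861009
 z (n 0 z (n 0 z (n 0 z (n 3278363 z (n 0 z (n 0 z (n 0 z (n 0 z (n 0 z (n 0 z (n 0 z (n 0 z (n
 0 z (n 0 z (n 0 z (n 0 z (n 0 z (n
 0x195150c80600ca8a804078079807f92767f80889178887684747a7e8a80898479857f787d916e7c897e7b7a7f818985816c868c7a8a7b6c85799676811009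
 z (n 0 z (n 10 z (n 0 z (n 0 z (n 0 z (n 18 z (n 0 z (n 26 z (n
 0x6ca8860407806f808091777685809b778f71807373818d818e867587807582936f748a817b778182857f8a69868979887c6e8a799577830809
 z (n 0 z z)))))))))))))))))))))))))))))))) (n 129 (n 6566419 z (n 34 z (n 6566419 z (n
 0xec86c86003808678877f7c7d7f786f86887d6e7c8e86778e807781789b828f6d8a897e7f7c9085727a6d81956f777786899b718a7893820809
 z (n 42 z (n 0 z (n 0 z (n 50 z (n 58 z (n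
 0x2c86c8600380827e80847e81807f817d837e7e8081807f8180817e808080827e828180807f817f7f807f818081807e82818080818080800809
 z (n
 0xc86c8600380807f80827f808080807f8180807f81808080808080808080817e82808080818080808080808080808080808080808081800809
 z (n 0 z (n 6566419 z z))))))))))))) (n 3 (n 0 z (n 6566419 z (n 0 z (n 0 z (n 0 z (n 66 z (n 0
 z (n 0 z (n 0 z (n 0 z (n 74 z z))))))))))) (n 1 (n 82 z (n 0 z (n 0 z (n 0 z (n 0 z (n 0 z (n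
 90 z (n 0 z (n 6566419 z (n 0 z (n 0 z (n 0 z (n 0 z (n 0 z (n 0 z (n 0 z (n 0 z (n 0 z
 z)))))))))))))))))) (n 0 (n 0 z (n 0 z (n 2164315 z (n 98 z (n 106 z (n 0 z z)))))) z)))))) (n
 467 (n 0 (n 0 z (n 0 z (n 0 z (n 259 (n 0 z (n 0 z (n 0 z (n 2 (n 0 z (n 0 z (n 0 z (n 2 (n 0 z
 (n 0 z (n 0 z (n 0 z (n 0 z (n 0 (n 8860683 z z) z)))))) (n 1 z (n 1 z (n 1 z (n 1 z (n 2 (n 0
 z (n 0 z (n 0 z (n 0 z (n 0 z (n 0 (n 8860683 z z) z)))))) z))))))))) (n 0 z (n 0 z (n 0 z (n 0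
 z (n 0 z (n 0 z (n 0 z (n 0 z (n 0 z (n 0 z (n 0 z (n 0 z (n 0 z (n 0 z (n 0 z (n 0 z (n 0 z (n
 0 z (n 0 z (n 0 z (n 0 z (n 0 z (n 0 z (n 0 z (n 0 z z))))))))))))))))))))))))))))) (n 259 (n 0
 z (n 0 z (n 0 z (n 0 z (n 0 z (n 0 z (n 0 z (n 0 z (n 0 z (n 0 z (n 0 z (n 0 z (n 0 z (n 0 z (n
 0 z (n 0 z (n 0 z (n 0 z (n 0 z (n 0 z (n 0 z (n 0 z (n 0 z (n 0 z (n 0 z (n 0 z (n 0 z (n 0 z
 (n 0 z z))))))))))))))))))))))))))))) (n 259 (n 0 z (n 0 z (n 0 z (n 0 z (n 0 z (n 0 z (n 0 z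
 (n 0 z (n 0 z (n 0 z (n 0 z (n 0 z (n 0 z (n 0 z (n 0 z (n 2 (n 0 z (n 2 (n 0 z (n 0 (n 28 z z)
 (n 0 (n 1093 z z) (n 0 z (n 0 z (n 0 (n 6359163 z (n 6359163 z z)) z)))))) (n 1 z (n 2 (n 0 z
 (n 0 (n 972 z z) (n 0 (n 1045 z z) (n 0 z (n 0 z (n 0 (n 6359163 z (n 6359163 z z)) z)))))) (n
 1 z (n 1 z (n 2 (n 0 z (n 0 (n 964 z z) (n 0 (n 1077 z z) (n 0 z (n 0 z (n 0 (n 6359163 z (n
 6359163 z z)) z)))))) z))))))) (n 0 z (n 0 z (n 0 z (n 0 z (n 0 z (n 0 z (n 0 z (n 0 z (n 0 z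
 (n 0 z (n 0 z (n 0 z (n 0 z z))))))))))))))))))))))))))))) (n 259 (n 0 z (n 0 z (n 0 z (n 0 z
 (n 0 z (n 0 z (n 0 z (n 0 z (n 0 z (n 0 z (n 0 z (n 0 z (n 0 z (n 0 z (n 0 z (n 0 z (n 0 z (n 0
 z (n 0 z (n 0 z (n 0 z (n 0 z (n 0 z (n 0 z (n 0 z (n 0 z (n 0 z (n 0 z (n 0 z
 z))))))))))))))))))))))))))))) (n 7 (n 0 z (n 0 z (n 0 z (n 2 (n 0 z (n 2 (n 0 z (n 0 z (n 0 z
 (n 0 z (n 0 z (n 0 (n 8872459 z z) z)))))) (n 1 z (n 1 z (n 2 (n 0 z (n 0 z (n 0 z (n 0 z (n 0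
 z (n 0 (n 8872459 z z) z)))))) z))))) (n 0 z (n 0 z (n 0 z (n 0 z (n 0 z (n 0 z (n 0 z (n 0 z
 (n 0 z (n 0 z (n 0 z (n 0 z (n 0 z (n 0 z (n 0 z (n 0 z (n 0 z (n 0 z (n 0 z (n 0 z (n 0 z (n 0
 z (n 0 z (n 0 z (n 0 z z))))))))))))))))))))))))))))) (n 7 (n 0 z (n 0 z (n 0 z (n 0 z (n 0 z
 (n 0 z (n 0 z (n 0 z (n 0 z (n 0 z (n 0 z (n 0 z (n 0 z (n 0 z (n 0 z (n 0 z (n 0 z (n 0 z (n 0
 z (n 0 z (n 0 z (n 0 z (n 0 z (n 0 z (n 0 z (n 0 z (n 0 z (n 0 z (n 0 z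
 z))))))))))))))))))))))))))))) (n 243 (n 2 (n 0 z (n 1 z (n 2 (n 0 z (n 0 z (n 0 z (n 0 z (n 0
 z (n 0 (n 8872459 z z) z)))))) z))) (n 0 z (n 0 z (n 0 z (n 0 z (n 0 z (n 0 z z))))))) (n 243
 (n 0 z (n 0 z (n 0 z (n 0 z (n 0 z (n 0 z (n 0 z z))))))) (n 241 (n 0 z (n 0 z (n 0 z (n 0 z (n
 0 z (n 0 z (n 0 z (n 0 z (n 0 z (n 0 z (n 0 z (n 0 z (n 0 z (n 0 z (n 0 z (n 0 z (n 0 z (n 0 z
 (n 0 z (n 0 z (n 0 z (n 0 z (n 0 z (n 0 z (n 0 z (n 0 z (n 0 z (n 0 z (n 0 z (n 0 z (n 0 z (n 0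
 z (n 0 z (n 0 z (n 0 z z))))))))))))))))))))))))))))))))))) (n 241 (n 0 z (n 0 z (n 0 z (n 0 z
 (n 0 z (n 0 z (n 0 z (n 0 z (n 0 z (n 0 z (n 0 z (n 0 z (n 0 z (n 0 z (n 2 z (n 0 z (n 0 z (n 0
 z (n 0 z (n 0 z (n 0 z (n 0 z (n 0 z (n 0 z (n 0 z (n 0 z (n 0 z (n 0 z (n 0 z (n 0 z (n 0 z (n
 0 z (n 0 z (n 0 z (n 0 z z))))))))))))))))))))))))))))))))))) z))))))))))))) (n 0 (n 0 z (n 0 z
 (n 933 (n 0 z (n 0 z (n 0 z (n 0 z (n 0 z (n 2 (n 0 z (n 0 z (n 0 z (n 2 (n 0 z (n 0 z (n 0 z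
 (n 0 z (n 0 z (n 0 z z)))))) (n 1 z (n 2 (n 0 z (n 0 z (n 0 z (n 0 z (n 0 z (n 0 z z)))))) (n 1
 z (n 1 z (n 2 (n 0 z (n 0 z (n 0 z (n 0 z (n 0 z (n 0 z z)))))) z))))))))) (n 0 z (n 0 z (n 0 z
 z))))))))) (n 933 (n 0 z (n 0 z (n 0 z (n 0 z (n 0 z (n 0 z (n 0 z (n 0 z (n 0 z z))))))))) (n
 933 (n 0 z (n 0 z (n 0 z (n 0 z (n 2 (n 0 z (n 1 z (n 2 (n 0 z (n 0 z (n 0 z (n 0 z (n 0 z (n 0
 z z)))))) (n 2 (n 0 z (n 0 z (n 0 z (n 0 z (n 0 z (n 0 (n 8873275 z z) z)))))) (n 2 (n 0 z (n 0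
 z (n 0 z (n 0 z (n 0 z (n 0 (n 3700 z z) z)))))) (n 2 (n 0 z (n 0 z (n 0 z (n 0 z (n 0 z (n 0
 (n 1636 z z) z)))))) (n 1 z z))))))) (n 0 z (n 0 z (n 0 z (n 0 z z))))))))) (n 933 (n 0 z (n 0
 z (n 0 z (n 0 z (n 0 z (n 0 z (n 0 z (n 0 z (n 0 z z))))))))) (n 421 (n 0 z (n 0 z (n 0 z (n 2
 (n 0 z (n 2 (n 0 z (n 0 z (n 0 z (n 0 z (n 0 z (n 0 z z)))))) (n 2 (n 0 z (n 0 z (n 0 z (n 0 z
 (n 0 z (n 0 z z)))))) (n 2 (n 0 z (n 0 z (n 0 z (n 0 z (n 0 z (n 0 z z)))))) (n 1 z z))))) (n 0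
 z z))))) (n 421 (n 0 z (n 0 z (n 0 z (n 0 z (n 0 z z))))) (n 925 (n 0 z (n 0 z (n 0 z (n 0 z (n
 0 z (n 0 z (n 0 z (n 0 z (n 0 z (n 0 z (n 0 z (n 2 (n 0 z (n 1 z (n 2 (n 0 z (n 0 z (n 0 z (n 0
 z (n 0 z (n 0 z z)))))) z))) (n 0 z (n 0 z z)))))))))))))) (n 925 (n 0 z (n 2 (n 1 z (n 2 (n 0
 z (n 0 z (n 0 z (n 0 z (n 0 z (n 0 z z)))))) z)) (n 0 z (n 0 z (n 0 z (n 0 z (n 0 z (n 0 z (n 0
 z (n 0 z (n 0 z (n 0 z (n 0 z (n 0 z z)))))))))))))) (n 409 (n 0 z (n 0 z (n 0 z (n 0 z (n 0 z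
 (n 0 z (n 0 z (n 0 z (n 0 z z))))))))) (n 409 (n 0 z (n 0 z (n 0 z (n 0 z (n 2 z (n 0 z (n 0 z
 (n 0 z (n 0 z z))))))))) z)))))))))))) (n 0 (n 0 z (n 933 (n 0 z (n 0 z (n 0 z (n 0 z (n 0 z (n
 0 z (n 0 z (n 0 z (n 0 z (n 0 z (n 0 z (n 0 z (n 0 z (n 0 z (n 0 z (n 0 z (n 0 z
 z))))))))))))))))) (n 933 (n 0 z (n 0 z (n 2 (n 0 z (n 0 z (n 1 z (n 1 z (n 1 z (n 1 z (n 1 z
 (n 1 z z)))))))) (n 0 z (n 0 z (n 0 z (n 0 z (n 0 z (n 0 z (n 0 z (n 0 z (n 0 z (n 0 z (n 0 z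
 (n 0 z (n 0 z (n 0 z z))))))))))))))))) (n 933 (n 0 z (n 0 z (n 0 z (n 0 z (n 0 z (n 0 z (n 0 z
 (n 0 z (n 0 z (n 0 z (n 0 z (n 0 z (n 0 z (n 0 z (n 0 z (n 0 z (n 0 z z))))))))))))))))) (n 933
 (n 0 z (n 2 (n 1 z (n 1 z (n 1 z (n 1 z (n 1 z (n 1 z z)))))) (n 0 z (n 0 z (n 0 z (n 0 z (n 0
 z (n 0 z (n 0 z (n 0 z (n 0 z (n 0 z (n 0 z (n 0 z (n 0 z (n 0 z (n 0 z z))))))))))))))))) (n
 75 (n 0 z (n 0 z (n 0 z (n 0 z (n 0 z (n 0 z (n 0 z (n 0 z (n 0 z (n 0 z (n 0 z (n 0 z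
 z)))))))))))) (n 75 (n 0 z (n 0 z (n 0 z (n 0 z (n 0 z (n 0 z (n 0 z (n 0 z (n 0 z (n 0 z (n 0
 z (n 2 (n 1 z (n 1 z (n 1 z (n 1 z z)))) z)))))))))))) (n 805 (n 0 z (n 0 z (n 0 z (n 0 z (n 0
 z (n 0 z (n 0 z (n 0 z z)))))))) (n 805 (n 2 (n 1 z (n 1 z z)) (n 0 z (n 0 z (n 0 z (n 0 z (n 0
 z (n 0 z (n 0 z z)))))))) (n 65 (n 0 z (n 0 z (n 0 z (n 0 z (n 2 (n 0 z z) (n 0 z (n 0 z (n 0 z
 (n 0 z (n 0 z (n 0 z (n 0 z (n 0 z (n 0 z (n 0 z z))))))))))))))) (n 65 (n 0 z (n 0 z (n 0 z (n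
 0 z (n 0 z (n 0 z (n 0 z (n 0 z (n 0 z (n 0 z (n 0 z (n 0 z (n 0 z (n 0 z (n 0 z
 z))))))))))))))) z))))))))))) (n 0 (n 1015 (n 0 z (n 0 z (n 0 z (n 0 z (n 0 z (n 0 z (n 0 z (n
 0 z (n 0 z (n 0 z (n 0 z (n 0 z (n 0 z (n 0 z (n 0 z (n 0 z (n 0 z (n 0 z (n 0 z (n 0 z (n 0 z
 (n 0 z (n 0 z (n 0 z (n 0 z (n 0 z (n 0 z (n 0 z (n 0 z (n 0 z (n 0 z (n 0 z
 z)))))))))))))))))))))))))))))))) (n 1015 (n 0 z (n 0 z (n 0 z (n 0 z (n 0 z (n 0 z (n 0 z (n 0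
 z (n 0 z (n 0 z (n 0 z (n 0 z (n 0 z (n 0 z (n 0 z (n 0 z (n 0 z (n 0 z (n 0 z (n 0 z (n 0 z (n
 0 z (n 0 z (n 0 z (n 0 z (n 0 z (n 0 z (n 0 z (n 0 z (n 0 z (n 0 z (n 0 z
 z)))))))))))))))))))))))))))))))) (n 1015 (n 0 z (n 0 z (n 0 z (n 0 z (n 0 z (n 0 z (n 0 z (n 0
 z (n 0 z (n 0 z (n 0 z (n 0 z (n 0 z (n 0 z (n 0 z (n 0 z (n 0 z (n 0 z (n 0 z (n 0 z (n 0 z (n
 0 z (n 0 z (n 0 z (n 0 z (n 0 z (n 0 z (n 2 (n 0 z (n 1 z (n 1 z (n 1 z (n 1 z (n 1 z (n 1 z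
 z))))))) (n 0 z (n 0 z (n 0 z (n 0 z z)))))))))))))))))))))))))))))))) (n 1015 (n 0 z (n 0 z (n
 0 z (n 0 z (n 0 z (n 0 z (n 0 z (n 0 z (n 0 z (n 0 z (n 0 z (n 0 z (n 0 z (n 0 z (n 0 z (n 0 z
 (n 0 z (n 0 z (n 0 z (n 0 z (n 0 z (n 0 z (n 0 z (n 2 (n 2 (n 0 (n 7743563 z (n 8652571 z z))
 (n 0 (n 4068 z (n 7610499 z z)) (n 0 z (n 0 (n 4068 z (n 7610499 z z)) (n 0 (n 6561923 z (n
 6561923 z z)) (n 0 z z)))))) (n 1 z (n 2 (n 0 z (n 0 (n 252 z (n 8722187 z z)) (n 0 z (n 0 (n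
 8652571 z (n 8722187 z z)) (n 0 (n 252 z (n 8652571 z z)) (n 0 z z)))))) (n 1 z (n 1 z (n 2 (n
 0 (n 7743563 z (n 8652571 z z)) (n 0 (n 260 z (n 7610499 z z)) (n 0 z (n 0 (n 260 z (n 7610499
 z z)) (n 0 (n 6561923 z (n 6561923 z z)) (n 0 z z)))))) z)))))) (n 0 z (n 0 z (n 0 z (n 0 z (n
 0 z (n 0 z (n 0 z (n 0 z z)))))))))))))))))))))))))))))))) (n 1017 (n 0 z (n 0 z (n 0 z (n 0 z
 (n 0 z (n 0 z (n 0 z (n 0 z (n 0 z (n 0 z (n 0 z (n 0 z (n 0 z (n 0 z (n 0 z (n 0 z (n 0 z (n 0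
 z (n 0 z (n 0 z (n 0 z (n 0 z (n 0 z (n 0 z (n 0 z (n 0 z z)))))))))))))))))))))))))) (n 1017
 (n
 0x5909d8140e02ecaca840380667f839f71758a82ab6b926f85697376937f908a6c907f71799f5e75947b777a7c868d81875d8e93728c795a9075a76e841009
 z (n 0 z (n 0 z (n 0 z (n 0 z (n 0 z (n 0 z (n 0 z (n 0 z (n 0 z (n 0 z (n 0 z (n 0 z (n 0 z (n
 0 z (n 0 z (n 0 z (n 0 z (n 0 z (n 0 z (n 0 z (n 0 z (n 0 z (n 0 z (n 0 z (n 0 z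
 z)))))))))))))))))))))))))) (n 63 (n 0 z (n 0 z (n 0 z (n 0 z (n 0 z (n 0 z (n 0 z (n 0 z (n 0
 z (n 0 z (n 0 z (n 0 z (n 0 z (n 0 z (n 0 z (n 0 z (n 0 z (n 0 z (n 0 z (n 0 z (n 0 z (n 0 z (n
 0 z (n 0 z (n 0 z (n 0 z z)))))))))))))))))))))))))) (n 63 (n 0 z (n 0 z (n 0 z (n 0 z (n 0 z
 (n 0 z (n 0 z (n 0 z (n 0 z (n 0 z (n 0 z (n 0 z (n 0 z (n 0 z (n 0 z (n 0 z (n 0 z (n 0 z (n 0
 z (n 0 z (n 0 z (n 0 z (n 0 z (n 0 z (n 0 z (n 0 z z)))))))))))))))))))))))))) (n 65 (n 0 z (n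
 0 z (n 0 z (n 0 z (n 0 z (n 0 z (n 0 z (n 0 z (n 0 z (n 0 z (n 0 z (n 0 z (n 0 z (n 0 z (n 0 z
 (n 0 z (n 0 z (n 0 z (n 0 z (n 0 z (n 0 z (n 0 z (n 0 z (n 0 z (n 0 z (n 0 z (n 0 z (n 0 z (n 0
 z (n 0 z (n 0 z (n 0 z z)))))))))))))))))))))))))))))))) (n 65 (n 0 z (n 0 z (n 0 z (n 0 z (n 0
 z (n 0 z (n 0 z (n 0 z (n 0 z (n 0 z (n 0 z (n 0 z (n 0 z (n 0 z (n 0 z (n 0 z (n 0 z (n 0 z (n
 0 z (n 0 z (n 0 z (n 0 z (n 0 z (n 0 z (n 0 z (n 0 z (n 0 z (n 0 z (n 0 z (n 0 z (n 0 z (n 0 z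
 z)))))))))))))))))))))))))))))))) z)))))))))) (n 0 (n 0 z (n 0 z (n 0 z (n 273 (n 0 z (n 0 z (n
 0 z (n 0 z (n 0 z (n 0 z (n 0 z (n 0 z (n 0 z z))))))))) (n 273 (n 0 z (n 0 z (n 0 z (n 0 z (n
 0 z (n 0 z (n 0 z (n 0 z (n 0 z z))))))))) (n 941 (n 0 z (n 0 z (n 0 z (n 0 z (n 0 z (n 0 z (n
 0 z (n 0 z (n 0 z (n 0 z z)))))))))) (n 941 (n 0 z (n 0 z (n 0 z (n 0 z (n 0 z (n 0 z (n 0 z (n
 0 z (n 0 z (n 0 z z)))))))))) (n 257 (n 0 z (n 0 z (n 0 z (n 0 z (n 0 z (n 2 (n 0 z z) (n 0 z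
 (n 0 z (n 0 z (n 0 z (n 0 z (n 0 z z)))))))))))) (n 257 (n 0 z (n 0 z (n 0 z (n 0 z (n 0 z (n 0
 z (n 0 z (n 0 z (n 0 z (n 0 z (n 0 z (n 0 z z)))))))))))) z))))))))) (n 0 (n 0 z (n 0 z (n 247
 (n 0 z (n 0 z (n 0 z (n 0 z (n 0 z (n 0 z (n 0 z (n 0 z (n 0 z (n 0 z (n 0 z (n 0 z (n 0 z (n 0
 z (n 0 z (n 0 z (n 0 z (n 0 z (n 0 z (n 0 z (n 0 z (n 0 z (n 0 z (n 0 z (n 0 z (n 0 z (n 0 z (n
 0 z (n 0 z (n 0 z (n 0 z (n 0 z (n 0 z (n 0 z (n 0 z (n 0 z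
 z)))))))))))))))))))))))))))))))))))) (n 247 (n 0 z (n 0 z (n 0 z (n 0 z (n 0 z (n 0 z (n 0 z
 (n 0 z (n 0 z (n 0 z (n 0 z (n 0 z (n 0 z (n 0 z (n 0 z (n 0 z (n 0 z (n 0 z (n 0 z (n 0 z (n 0
 z (n 0 z (n 0 z (n 0 z (n 0 z (n 0 z (n 0 z (n 0 z (n 0 z (n 0 z (n 0 z (n 0 z (n 0 z (n 0 z (n
 0 z (n 0 z z)))))))))))))))))))))))))))))))))))) (n 291 (n 0 z (n 0 z (n 0 z (n 0 z (n 0 z (n 0
 z (n 0 z (n 0 z (n 0 z (n 0 z z)))))))))) (n 291 (n 0 z (n 0 z (n 0 z (n 0 z (n 0 z (n 0 z (n 0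
 z (n 0 z (n 0 z (n 0 z z)))))))))) (n 289 (n 0 z (n 0 z (n 0 z (n 0 z (n 0 z (n 0 z (n 0 z (n 0
 z (n 0 z (n 0 z (n 0 z (n 0 z (n 0 z (n 0 z (n 0 z (n 0 z (n 0 z (n 0 z (n 0 z (n 0 z (n 0 z (n
 0 z (n 0 z (n 0 z (n 0 z (n 0 z (n 0 z (n 0 z z)))))))))))))))))))))))))))) (n 289 (n 0 z (n 0
 z (n 0 z (n 0 z (n 0 z (n 0 z (n 0 z (n 0 z (n 0 z (n 0 z (n 0 z (n 0 z (n 0 z (n 0 z (n 0 z (n
 0 z (n 2 z (n 0 z (n 0 z (n 0 z (n 0 z (n 0 z (n 0 z (n 0 z (n 0 z (n 0 z (n 0 z (n 0 z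
 z)))))))))))))))))))))))))))) z)))))))) (n 0 (n 0 z (n 273 (n 0 z (n 0 z (n 0 z (n 0 z (n 0 z
 (n 0 z (n 0 z (n 0 z (n 0 z (n 0 z (n 0 z (n 0 z (n 0 z (n 0 z (n 0 z (n 0 z (n 0 z (n 0 z (n 0
 z (n 0 z (n 0 z (n 0 z (n 0 z z))))))))))))))))))))))) (n 273 (n 0 z (n 0 z (n 0 z (n 0 z (n 0
 z (n 0 z (n 0 z (n 0 z (n 0 z (n 0 z (n 0 z (n 0 z (n 0 z (n 0 z (n 0 z (n 0 z (n 0 z (n 0 z (n
 0 z (n 0 z (n 0 z (n 2 (n 1 z (n 1 z (n 1 z (n 1 z z)))) (n 0 z z))))))))))))))))))))))) (n 261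
 (n 0 z (n 0 z (n 0 z (n 0 z (n 0 z (n 0 z (n 0 z (n 0 z (n 0 z (n 0 z (n 0 z z))))))))))) (n
 261 (n 0 z (n 0 z (n 0 z (n 0 z (n 0 z (n 0 z (n 0 z (n 2 (n 1 z (n 1 z z)) (n 0 z (n 0 z (n 0
 z z))))))))))) (n 269 (n 0 z (n 0 z (n 0 z (n 0 z (n 0 z (n 0 z (n 0 z (n 0 z (n 0 z (n 0 z (n
 2 (n 0 z z) (n 0 z z)))))))))))) (n 269 (n 0 z (n 0 z (n 0 z (n 0 z (n 0 z (n 0 z (n 0 z (n 0 z
 (n 0 z (n 0 z (n 0 z (n 0 z z)))))))))))) z))))))) (n 0 (n 295 (n 0 z (n 0 z (n 2 (n 0 z (n 1 z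
 (n 1 z (n 1 z (n 1 z z))))) (n 0 z (n 0 z (n 0 z (n 0 z (n 0 z (n 0 z (n 0 z (n 0 z (n 0 z (n 0
 z z))))))))))))) (n 295 (n 0 z (n 0 z (n 0 z (n 0 z (n 0 z (n 7741699 z (n 0 z (n 0 z (n 0 z (n
 0 z (n 0 z (n 0 z (n 0 z z))))))))))))) (n 243 (n 2 (n 0 z (n 1 z (n 1 z z))) (n 0 z (n 0 z (n
 0 z (n 0 z (n 0 z (n 0 z (n 0 z (n 0 z (n 0 z z)))))))))) (n 243 (n 0 z (n 0 z (n 0 z (n 0 z (n
 7741699 z (n 0 z (n 0 z (n 0 z (n 0 z (n 0 z z)))))))))) (n 293 (n 0 z (n 0 z (n 0 z (n 0 z (n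
 0 z (n 0 z (n 0 z (n 0 z (n 0 z (n 0 z (n 0 z (n 0 z (n 0 z (n 0 z (n 0 z (n 0 z (n 0 z (n 0 z
 (n 0 z (n 0 z (n 0 z (n 0 z (n 0 z (n 0 z (n 0 z (n 0 z (n 0 z (n 0 z
 z)))))))))))))))))))))))))))) (n 293 (n 0 z (n 0 z (n 2 z (n 0 z (n 0 z (n 0 z (n 0 z (n 0 z (n
 0 z (n 0 z (n 0 z (n 0 z (n 0 z (n 0 z (n 0 z (n 0 z (n 0 z (n 0 z (n 0 z (n 0 z (n 0 z (n 0 z
 (n 0 z (n 0 z (n 0 z (n 0 z (n 0 z (n 0 z z)))))))))))))))))))))))))))) z)))))) (n 0 (n 0 z (n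
 9 (n 0 z (n 0 z (n 0 z (n 0 z (n 0 z (n 0 z (n 0 z (n 0 z (n 0 z (n 0 z (n 0 z (n 0 z (n 0 z (n
 0 z z)))))))))))))) (n 9 (n 0 z (n 0 z (n 0 z (n 0 z (n 0 z (n 0 z (n 0 z (n 0 z (n 0 z (n 0 z
 (n 0 z (n 0 z (n 0 z (n 0 z z)))))))))))))) (n 5 (n 0 z (n 0 z (n 0 z (n 2 (n 0 z z) (n 0 z (n
 0 z (n 0 z (n 0 z (n 0 z (n 0 z z)))))))))) (n 5 (n 0 z (n 0 z (n 0 z (n 0 z (n 0 z (n 0 z (n 0
 z (n 0 z (n 0 z (n 0 z z)))))))))) z))))) (n 0 (n 723 (n 0 z (n 0 z (n 0 z (n 0 z (n 0 z (n 0 z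
 (n 0 z (n 0 z (n 0 z (n 0 z (n 0 z (n 0 z z)))))))))))) (n 723 (n 0 z (n 0 z (n 0 z (n 0 z (n 0
 z (n 0 z (n 0 z (n 0 z (n 0 z (n 0 z (n 0 z (n 0 z z)))))))))))) (n 97 (n 0 z (n 0 z (n 0 z (n
 0 z (n 0 z (n 0 z (n 0 z (n 0 z (n 0 z (n 0 z z)))))))))) (n 97 (n 0 z (n 0 z (n 0 z (n 0 z (n
 0 z (n 0 z (n 2 z (n 0 z (n 0 z (n 0 z z)))))))))) z)))) (n 0 (n 0 z (n 1 (n 0 z (n 0 z (n 0 z
 (n 0 z (n 0 z (n 2 (n 0 z z) (n 0 z (n 0 z (n 0 z (n 0 z (n 0 z (n 0 z (n 0 z (n 0 z (n 0 z (n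
 0 z z)))))))))))))))) (n 1 (n 0 z (n 0 z (n 0 z (n 0 z (n 0 z (n 0 z (n 0 z (n 0 z (n 0 z (n 0
 z (n 0 z (n 0 z (n 0 z (n 0 z (n 0 z (n 0 z z)))))))))))))))) z))) (n 0 (n 961 (n 0 z (n 0 z (n
 0 z (n 0 z (n 0 z (n 0 z (n 0 z (n 0 z (n 0 z (n 0 z (n 0 z (n 0 z (n 0 z (n 0 z
 z)))))))))))))) (n 961 (n 2 z (n 0 z (n 0 z (n 0 z (n 0 z (n 0 z (n 0 z (n 0 z (n 0 z (n 0 z (n
 0 z (n 0 z (n 0 z (n 0 z z)))))))))))))) z)) (n 0 (n 0 z z) (n 0 z z)))))))))))))) (n 0 (n 1 (n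
 3282443 z (n 3282443 z (n 3282443 z (n 3282443 z (n 3282443 z (n 3282443 z z)))))) (n 0 z (n 0
 z (n 0 z z)))) (n 0 z z)))) (n
 0x4649a216cd0f42e873476866c8c4d1c21ed2105b31b1a36606cb6e08d184328c2c12dcc19 (n 0 (n 471 (n
 3282443 z (n 0 z (n 0 z (n 0 z (n 0 z (n 0 z (n 0 z z))))))) (n 459 (n 3278363 z (n 2 z (n 0 z
 (n 0 z (n 10 z (n 0 z (n 0 z z))))))) (n 135 (n 18 z (n 0 z (n 0 z (n 26 z (n 0 z (n 6632003 z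
 (n 0 z (n 0 z (n 0 z z))))))))) (n 3 (n 34 z (n 6632003 z (n 0 z (n 0 z (n 0 z (n 0 z (n 42 z
 (n 0 z (n 0 z (n 0 z (n 0 z (n 0 z (n 0 z (n
 0xca8ca84037f7b7e827e807c7d807e778b80857f7f77837c8a7d8281807d7d767b8b85797a82817f7d7d817f868284807e80817d827b830809
 z (n 0 z (n 0 z z)))))))))))))))) (n 1 (n 50 z (n
 0x6ca8a20407807982807b807c827f807e848283847e807f7c877d84868080827283817f7e7b8482848081837e8583877f7a847d7d847a7f0809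
 z (n 0 z (n
 0x6ca8a20407847783827a807e847f81837a7c7c8d87807c7d7e827e8a7e82857a7f7c8685847e878876807d7d817f8686787f7b818d77800809
 z (n 0 z (n 58 z (n 0 z (n 0 z (n 0 z (n 0 z (n 0 z (n
 0x2ca8a624037f7f81817f808180807f808080808180807f80818081808081807f81808181807f817f7f807f808080817f818080808080800809
 z (n 0 z (n 0 z (n 0 z (n 66 z (n 0 z (n 0 z (n
 0x2ca8a62407807f81807e808180807f80808080808080808080808080808080808080808080808080808080808080817f81807f808180800809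
 z (n 0 z (n 6554411 z (n 74 z (n
 0x4ca8a6240783767e857d807a7b7e7d6c967e8f7e7f6f867895798089807b7f6d7891857a73838184767d847b89858b807882857d8676870809
 z (n
 0x2ca8a204077f7f81807e808180817f8181807f827f818080808081808080817f82817f808080808080818080817f7f8080807f818080800809
 z (n 0 z (n 0 z (n 0 z (n 0 z (n 0 z (n 0 z (n 0 z (n 0 z (n 0 z (n 0 z (n 0 z (n 0 z (n 0 z (n
 0 z (n 0 z (n 0 z (n 0 z (n 0 z (n 0 z (n 0 z (n 6554411 z (n 0 z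
 z)))))))))))))))))))))))))))))))))))))))))))))) (n 0 (n
 0x1758c02e31803b630887b868b7e807d8a7d8482737e818588807f827d827e8278878b857b748287787e828a8091777a7c7b818579797a858e787c00c9
 z (n 82 z (n 90 z (n 98 z (n
 0x2c86c8640788777f897b807c7b7f7e718a81897b7d73867b967b7e837f80827f7c89807d707a7d8a84807d798a848a7e797884838376890809
 z (n 106 z (n
 0x14c86c8640373897e6983808f7c8d738186818c84828c7d7f6f73998d8d75736e7f747e8288938d687c78997d7c82757197a2825e7f89690809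
 z (n
 0x2c86c8640788777f897b807c7b7f7e718a81897b7d73867b967b7e837f80827f7c89807d707a7d8a84807d798a848a7e797884838376890809
 z (n 6632003 z (n 6632003 z (n 6632003 z z))))))))))) z)))))) (n 471 (n 0 (n 0 z (n 915 (n 0 z
 (n 0 z (n 0 z (n 2 (n 0 z (n 1 z (n 1 z (n 1 z (n 2 (n 0 z (n 0 z (n 0 z (n 0 z (n 0 z (n 0 z
 z)))))) (n 1 z (n 2 (n 0 (n 3668 z (n 3668 z z)) (n 0 (n 8728691 z (n 3668 z z)) (n 0 z (n 0 (n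
 8728691 z (n 8734219 z z)) (n 0 z (n 0 z z)))))) (n 1 z (n 1 z (n 1 z (n 1 z z))))))))))) (n 0
 z (n 0 z (n 0 z (n 0 z z)))))))) (n 915 (n 0 z (n 0 z (n 0 z (n 0 z (n 0 z (n 0 z (n 0 z (n 0 z
 z)))))))) (n 87 (n 0 z (n 0 z (n 0 z (n 2 (n 0 z (n 1 z (n 1 z (n 1 z (n 1 z (n 1 z (n 1 z (n 1
 z (n 1 z z))))))))) (n 0 z (n 0 z (n 0 z z))))))) (n 87 (n 0 z (n 0 z (n 0 z (n 0 z (n 0 z (n 0
 z (n 0 z z))))))) (n 917 (n 0 z (n 0 z (n 0 z (n 0 z (n 2 (n 0 z (n 0 z (n 0 z (n 1 z (n 1 z (n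
 1 z (n 1 z z))))))) (n 0 z (n 0 z (n 0 z (n 0 z (n 0 z (n 0 z (n 0 z (n 0 z (n 0 z (n 0 z (n 0
 z (n 0 z (n 0 z (n 0 z (n 0 z (n 0 z (n 0 z (n 0 z (n 0 z (n 0 z (n 0 z (n 0 z (n 0 z (n 0 z (n
 0 z (n 0 z (n 0 z z)))))))))))))))))))))))))))))))) (n 917 (n 0 z (n 0 z (n 0 z (n 0 z (n 0 z
 (n 0 z (n 0 z (n 0 z (n 0 z (n 0 z (n 0 z (n 0 z (n 0 z (n 0 z (n 0 z (n 0 z (n 0 z (n 0 z (n 0
 z (n 0 z (n 0 z (n 0 z (n 0 z (n 0 z (n 0 z (n 0 z (n 0 z (n 0 z (n 0 z (n 0 z (n 0 z (n 0 z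
 z)))))))))))))))))))))))))))))))) (n 917 (n 0 z (n 0 z (n 0 z (n 0 z (n 0 z (n 0 z (n 0 z (n 0
 z (n 0 z (n 0 z (n 0 z (n 0 z (n 0 z (n 0 z (n 0 z (n 0 z (n 0 z (n 0 z (n 0 z (n 0 z (n 0 z (n
 0 z (n 0 z (n 0 z (n 0 z (n 0 z (n 0 z (n 0 z (n 0 z (n 0 z (n 0 z (n 0 z
 z)))))))))))))))))))))))))))))))) (n 917 (n 0 z (n 0 z (n 0 z (n 0 z (n 0 z (n 0 z (n 0 z (n 0
 z (n 0 z (n 0 z (n 0 z (n 0 z (n 0 z (n 0 z (n 0 z (n 0 z (n 0 z (n 0 z (n 0 z (n 0 z (n 0 z (n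
 0 z (n 0 z (n 0 z (n 0 z (n 0 z (n 0 z (n 0 z (n 0 z (n 0 z (n 0 z (n 0 z
 z)))))))))))))))))))))))))))))))) (n 109 (n 0 z (n 0 z (n 0 z (n 0 z (n 0 z (n 0 z (n 0 z (n 0
 z (n 0 z (n 0 z (n 0 z (n 0 z (n 0 z (n 0 z (n 0 z (n 0 z (n 0 z z))))))))))))))))) (n 109 (n 0
 z (n 0 z (n 0 z (n 0 z (n 0 z (n 0 z (n 0 z (n 0 z (n 0 z (n 0 z (n 0 z (n 0 z (n 0 z (n 0 z (n
 0 z (n 0 z (n 0 z z))))))))))))))))) (n 109 (n 0 z (n 0 z (n 0 z (n 0 z (n 0 z (n 0 z (n 0 z (n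
 0 z (n 0 z (n 0 z (n 2 (n 0 z z) (n 0 z (n 0 z (n 0 z (n 0 z (n 0 z (n 0 z z)))))))))))))))))
 (n 109 (n 0 z (n 0 z (n 0 z (n 0 z (n 0 z (n 0 z (n 0 z (n 0 z (n 0 z (n 0 z (n 0 z (n 2 z (n 0
 z (n 0 z (n 0 z (n 0 z (n 0 z z))))))))))))))))) z))))))))))))) (n 0 (n 375 (n 0 z (n 0 z (n 0
 z (n 0 z (n 0 z (n 0 z (n 0 z (n 0 z (n 0 z (n 0 z (n 0 z (n 0 z (n 0 z z))))))))))))) (n 375
 (n 0 z (n 0 z (n 2 (n 1 z (n 1 z (n 1 z (n 2 (n 0 z (n 0 z (n 0 z (n 0 z (n 0 z (n 0 z z))))))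
 (n 1 z (n 2 (n 0 (n 8728675 z (n 8728675 z z)) (n 0 z (n 0 z (n 0 (n 1492 z (n 1492 z z)) (n 0
 (n 8521243 z (n 8734475 z z)) (n 0 (n 1492 z (n 8734475 z z)) z)))))) (n 1 z (n 1 z (n 1 z (n 1
 z z)))))))))) (n 0 z (n 0 z (n 0 z (n 0 z (n 0 z (n 0 z (n 0 z (n 0 z (n 0 z (n 0 z
 z))))))))))))) (n 279 (n 0 z (n 0 z (n 0 z (n 0 z (n 0 z (n 0 z (n 0 z (n 0 z (n 0 z (n 0 z (n
 0 z (n 0 z (n 0 z (n 0 z z)))))))))))))) (n 279 (n 0 z (n 0 z (n 0 z (n 0 z (n 0 z (n 0 z (n 2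
 (n 1 z (n 2 (n 0 z (n 0 z (n 0 z (n 0 z (n 0 z (n 0 z z)))))) (n 1 z (n 2 (n 0 (n 8728675 z (n
 8728675 z z)) (n 0 (n 1492 z (n 1492 z z)) (n 0 z (n 0 (n 1492 z (n 8734475 z z)) (n 0 z (n 0 z
 z)))))) (n 1 z (n 1 z (n 1 z (n 1 z z)))))))) (n 0 z (n 0 z (n 0 z (n 0 z (n 0 z (n 0 z (n 0 z
 z)))))))))))))) (n 373 (n 0 z (n 0 z (n 0 z (n 0 z (n 0 z (n 0 z (n 0 z (n 0 z (n 0 z (n 0 z (n
 0 z (n 0 z (n 0 z (n 0 z (n 0 z (n 0 z (n 0 z (n 0 z (n 0 z (n 0 z (n 0 z (n 0 z (n 0 z (n 0 z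
 (n 0 z (n 0 z (n 0 z (n 0 z (n 0 z (n 0 z (n 0 z (n 0 z (n 0 z (n 0 z (n 0 z (n 0 z (n 0 z (n 0
 z (n 0 z (n 0 z (n 0 z (n 0 z (n 0 z (n 0 z (n 0 z (n 0 z (n 0 z (n 0 z (n 0 z (n 0 z (n 0 z (n
 0 z (n 0 z (n 0 z (n 0 z (n 0 z z)))))))))))))))))))))))))))))))))))))))))))))))))))))))) (n
 373 (n 0 z (n 0 z (n 0 z (n 0 z (n 0 z (n 0 z (n 0 z (n 0 z (n 0 z (n 0 z (n 0 z (n 0 z (n 0 z
 (n 0 z (n 0 z (n 0 z (n 0 z (n 0 z (n 0 z (n 0 z (n 0 z (n 0 z (n 0 z (n 0 z (n 0 z (n 0 z (n 0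
 z (n 0 z (n 0 z (n 0 z (n 0 z (n 0 z (n 0 z (n 0 z (n 0 z (n 0 z (n 0 z (n 0 z (n 0 z (n 0 z (n
 0 z (n 0 z (n 0 z (n 0 z (n 0 z (n 0 z (n 0 z (n 0 z (n 2 (n 0 z (n 0 z (n 2 (n 0 z (n 0 z (n 0
 z (n 0 z (n 0 z (n 0 z z)))))) (n 2 (n 0 z (n 0 z (n 0 z (n 0 z (n 0 z (n 0 z z)))))) (n 2 (n 0
 z (n 0 z (n 0 z (n 0 z (n 0 z (n 0 z z)))))) (n 1 z z)))))) (n 0 z (n 0 z (n 0 z (n 0 z (n 0 z
 (n 0 z (n 0 z z)))))))))))))))))))))))))))))))))))))))))))))))))))))))) (n 373 (n 0 z (n 0 z (n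
 0 z (n 0 z (n 0 z (n 0 z (n 0 z (n 0 z (n 0 z (n 0 z (n 0 z (n 0 z (n 0 z (n 0 z (n 0 z (n 0 z
 (n 0 z (n 0 z (n 0 z (n 0 z (n 0 z (n 0 z (n 0 z (n 0 z (n 0 z (n 0 z (n 0 z (n 0 z (n 0 z (n 0
 z (n 0 z (n 0 z (n 0 z (n 0 z (n 0 z (n 0 z (n 0 z (n 0 z (n 0 z (n 0 z (n 0 z (n 0 z (n 0 z (n
 2 (n 0 z (n 2 (n 0 z (n 0 z (n 0 z (n 0 z (n 0 z (n 0 z z)))))) (n 2 (n 0 z (n 0 z (n 0 z (n 0
 z (n 0 z (n 0 z z)))))) (n 2 (n 0 z (n 0 z (n 0 z (n 0 z (n 0 (n 8790795 z z) (n 0 z z)))))) (n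
 2 (n 0 z (n 0 z (n 0 z (n 0 z (n 0 (n 1012 z z) (n 0 z z)))))) z))))) (n 0 z (n 0 z (n 0 z (n 0
 z (n 0 z (n 0 z (n 0 z (n 0 z (n 0 z (n 0 z (n 0 z (n 0 z
 z)))))))))))))))))))))))))))))))))))))))))))))))))))))))) (n 373 (n 0 z (n 0 z (n 0 z (n 0 z (n
 0 z (n 0 z (n 0 z (n 0 z (n 0 z (n 0 z (n 0 z (n 0 z (n 0 z (n 0 z (n 0 z (n 0 z (n 0 z (n 0 z
 (n 0 z (n 0 z (n 0 z (n 0 z (n 0 z (n 0 z (n 0 z (n 0 z (n 0 z (n 0 z (n 0 z (n 0 z (n 0 z (n 0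
 z (n 0 z (n 0 z (n 0 z (n 0 z (n 0 z (n 0 z (n 0 z (n 0 z (n 0 z (n 0 z (n 0 z (n 0 z (n 0 z (n
 0 z (n 0 z (n 0 z (n 0 z (n 0 z (n 0 z (n 0 z (n 0 z (n 0 z (n 0 z (n 0 z
 z)))))))))))))))))))))))))))))))))))))))))))))))))))))))) (n 253 (n 0 z (n 0 z (n 0 z (n 0 z (n
 2 (n 0 z (n 0 z (n 0 z z))) (n 0 z (n 0 z (n 0 z (n 0 z (n 0 z (n 0 z (n 0 z (n 0 z (n 0 z
 z)))))))))))))) (n 253 (n 0 z (n 0 z (n 0 z (n 2 (n 0 z (n 0 z z)) (n 0 z (n 0 z (n 0 z (n 0 z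
 (n 0 z (n 0 z (n 0 z (n 0 z (n 0 z (n 0 z z)))))))))))))) (n 253 (n 0 z (n 0 z (n 0 z (n 0 z (n
 0 z (n 0 z (n 0 z (n 0 z (n 0 z (n 0 z (n 0 z (n 0 z (n 0 z (n 0 z z)))))))))))))) (n 253 (n 0
 z (n 0 z (n 0 z (n 0 z (n 0 z (n 0 z (n 0 z (n 0 z (n 0 z (n 0 z (n 0 z (n 0 z (n 0 z (n 0 z
 z)))))))))))))) z)))))))))))) (n 0 (n 0 z (n 59 (n 0 z (n 0 z (n 0 z (n 0 z (n 0 z (n 0 z (n 0
 z (n 0 z (n 0 z (n 0 z z)))))))))) (n 59 (n 0 z (n 0 z (n 0 z (n 0 z (n 0 z (n 0 z (n 0 z (n 0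
 z (n 0 z (n 0 z z)))))))))) (n 613 (n 0 z (n 0 z (n 0 z (n 0 z (n 0 z (n 0 z (n 0 z (n 0 z (n 0
 z (n 0 z z)))))))))) (n 613 (n 0 z (n 0 z (n 0 z (n 0 z (n 0 z (n 0 z (n 2 (n 0 z (n 0 z (n 2
 (n 0 z (n 0 z (n 0 z (n 0 z (n 0 z (n 0 z z)))))) (n 2 (n 0 z (n 0 z (n 0 z (n 0 z (n 0 z (n 0
 z z)))))) (n 2 (n 0 z (n 0 z (n 0 z (n 0 z (n 0 z (n 0 z z)))))) (n 1 z z)))))) (n 0 z (n 0 z
 (n 0 z z)))))))))) (n 613 (n 0 z (n 0 z (n 0 z (n 0 z (n 0 z (n 2 (n 0 z (n 2 (n 0 z (n 0 z (n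
 0 z (n 0 z (n 0 z (n 0 z z)))))) (n 2 (n 0 z (n 0 z (n 0 z (n 0 z (n 0 z (n 0 z z)))))) (n 2 (n
 0 z (n 0 z (n 0 z (n 0 z (n 0 (n 8790795 z z) (n 0 z z)))))) (n 2 (n 0 z (n 0 z (n 0 z (n 0 z
 (n 0 (n 1972 z z) (n 0 z z)))))) z))))) (n 0 z (n 0 z (n 0 z (n 0 z z)))))))))) (n 613 (n 0 z
 (n 0 z (n 0 z (n 0 z (n 0 z (n 0 z (n 0 z (n 0 z (n 0 z (n 0 z z)))))))))) (n 493 (n 0 z (n 0 z
 (n 0 z (n 0 z (n 0 z (n 0 z (n 0 z (n 0 z (n 0 z (n 0 z (n 0 z z))))))))))) (n 493 (n 0 z (n 0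
 z (n 2 (n 0 z (n 0 z z)) (n 0 z (n 0 z (n 0 z (n 0 z (n 0 z (n 0 z (n 0 z (n 0 z z)))))))))))
 (n 493 (n 0 z (n 0 z (n 0 z (n 0 z (n 0 z (n 0 z (n 0 z (n 0 z (n 0 z (n 0 z (n 0 z
 z))))))))))) (n 493 (n 0 z (n 0 z (n 0 z (n 0 z (n 0 z (n 0 z (n 0 z (n 0 z (n 0 z (n 0 z (n 0
 z z))))))))))) z))))))))))) (n 0 (n 267 (n 0 z (n 0 z (n 0 z (n 0 z (n 0 z (n 0 z (n 0 z (n 0 z
 (n 0 z (n 0 z (n 0 z (n 0 z z)))))))))))) (n 267 (n 0 z (n 0 z (n 0 z (n 0 z (n 0 z (n 0 z (n 0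
 z (n 0 z (n 0 z (n 0 z (n 0 z (n 0 z z)))))))))))) (n 917 (n 0 z (n 0 z (n 0 z (n 0 z (n 0 z (n
 0 z (n 0 z (n 0 z (n 0 z (n 0 z (n 2 (n 0 z (n 0 z (n 0 z (n 1 z (n 1 z (n 1 z (n 1 z z)))))))
 (n 0 z (n 0 z (n 0 z (n 0 z (n 0 z (n 0 z (n 0 z (n 0 z (n 0 z (n 0 z (n 0 z (n 0 z (n 0 z (n 0
 z (n 0 z (n 0 z (n 0 z (n 0 z z))))))))))))))))))))))))))))) (n 917 (n 0 z (n 0 z (n 0 z (n 0 z
 (n 0 z (n 0 z (n 0 z (n 0 z (n 0 z (n 0 z (n 0 z (n 0 z (n 0 z (n 0 z (n 0 z (n 0 z (n 0 z (n 0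
 z (n 0 z (n 0 z (n 0 z (n 0 z (n 0 z (n 0 z (n 0 z (n 0 z (n 0 z (n 0 z (n 0 z
 z))))))))))))))))))))))))))))) (n 917 (n 0 z (n 0 z (n 0 z (n 0 z (n 0 z (n 0 z (n 0 z (n 0 z
 (n 0 z (n 0 z (n 0 z (n 0 z (n 0 z (n 0 z (n 0 z (n 0 z (n 0 z (n 0 z (n 0 z (n 0 z (n 0 z (n 0
 z (n 0 z (n 0 z (n 0 z (n 0 z (n 0 z (n 0 z (n 0 z z))))))))))))))))))))))))))))) (n 917 (n 0 z
 (n 0 z (n 0 z (n 0 z (n 0 z (n 0 z (n 0 z (n 0 z (n 0 z (n 0 z (n 0 z (n 0 z (n 0 z (n 0 z (n 0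
 z (n 0 z (n 0 z (n
 0x5d95d9440602ca8c86003807f80818080828180818080808080808080818180808080808080808080808181808180807f8080808080807f80808080801009
 z (n 0 z (n 0 z (n 0 z (n 0 z (n 0 z (n 0 z (n 0 z (n 0 z (n 0 z (n 0 z (n 0 z
 z))))))))))))))))))))))))))))) (n 269 (n 0 z (n 0 z (n 0 z (n 0 z (n 0 z (n 0 z (n 0 z (n 0 z
 (n 0 z (n 0 z (n 0 z (n 0 z (n 0 z (n 0 z (n 0 z (n 0 z (n 0 z (n 0 z (n 0 z (n 0 z (n 0 z (n 0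
 z z)))))))))))))))))))))) (n 269 (n 0 z (n 0 z (n 0 z (n 0 z (n 0 z (n 0 z (n 0 z (n 0 z (n 0 z
 (n 0 z (n 0 z (n 0 z (n 0 z (n 0 z (n 0 z (n 0 z (n 0 z (n 0 z (n 0 z (n 0 z (n 0 z (n 7754755
 z z)))))))))))))))))))))) (n 269 (n 0 z (n 0 z (n 0 z (n 0 z (n 0 z (n 0 z (n 0 z (n 0 z (n 0 z
 (n 0 z (n 0 z (n 0 z (n 0 z (n 0 z (n 0 z (n 0 z (n 0 z (n 0 z (n 0 z (n 0 z (n 0 z (n 0 z
 z)))))))))))))))))))))) (n 269 (n 0 z (n 0 z (n 0 z (n 0 z (n 0 z (n 0 z (n 0 z (n 0 z (n 0 z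
 (n 0 z (n 0 z (n 0 z (n 0 z (n 0 z (n 0 z (n 0 z (n 2 z (n 0 z (n 0 z (n 0 z (n 0 z (n 0 z
 z)))))))))))))))))))))) z)))))))))) (n 0 (n 0 z (n 99 (n 0 z (n 0 z (n 0 z (n 0 z (n 0 z (n 0 z
 (n 0 z (n 0 z (n 0 z (n 0 z z)))))))))) (n 99 (n 0 z (n 2 (n 0 z (n 0 z (n 2 (n 0 z (n 0 z (n 0
 z (n 0 z (n 0 z (n 0 z z)))))) (n 2 (n 0 z (n 0 z (n 0 z (n 0 z (n 0 z (n 0 z z)))))) (n 2 (n 0
 z (n 0 z (n 0 z (n 0 z (n 0 z (n 0 z z)))))) (n 2 (n 0 z (n 0 z (n 0 z (n 0 z (n 0 z (n 0 z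
 z)))))) z)))))) (n 0 z (n 0 z (n 0 z (n 0 z (n 0 z (n 0 z (n 0 z (n 0 z z)))))))))) (n 99 (n 0
 z (n 0 z (n 0 z (n 0 z (n 0 z (n 2 (n 0 z (n 1 z (n 1 z (n 1 z (n 2 (n 0 z (n 0 z (n 0 z (n 0 z
 (n 0 (n 52 z z) (n 0 z z)))))) z))))) (n 0 z (n 0 z (n 0 z (n 0 z z)))))))))) (n 99 (n 0 z (n 0
 z (n 0 z (n 0 z (n 0 z (n 0 z (n 0 z (n 0 z (n 0 z (n 0 z z)))))))))) (n 13 (n 0 z (n 0 z (n 0
 z (n 0 z (n 0 z (n 0 z (n 0 z (n 0 z (n 0 z (n 0 z (n 0 z (n 0 z z)))))))))))) (n 13 (n 0 z (n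
 0 z (n 0 z (n 2 (n 0 z (n 0 z z)) (n 0 z (n 0 z (n 0 z (n 0 z (n 0 z (n 0 z (n 0 z (n 0 z
 z)))))))))))) (n 13 (n 0 z (n 0 z (n 0 z (n 0 z (n 0 z (n 0 z (n 0 z (n 0 z (n 0 z (n 0 z (n 0
 z (n 0 z z)))))))))))) (n 13 (n 0 z (n 0 z (n 0 z (n 0 z (n 0 z (n 0 z (n 0 z (n 0 z (n 0 z (n
 0 z (n 0 z (n 0 z z)))))))))))) z))))))))) (n 0 (n 3 (n 2 (n 0 z (n 0 z (n 0 z (n 1 z (n 1 z (n
 1 z (n 1 z z))))))) (n 0 z (n 0 z (n 0 z (n 0 z (n 0 z (n 0 z (n 0 z (n 0 z (n 0 z (n 0 z (n 0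
 z (n 0 z (n 0 z (n 0 z (n 0 z z)))))))))))))))) (n 3 (n 0 z (n 0 z (n 0 z (n 2 (n 0 z (n 0 z (n
 1 z (n 1 z (n 1 z (n 2 (n 0 z (n 0 z (n 0 z (n 0 z (n 0 z (n 0 z z)))))) z)))))) (n 0 z (n 0 z
 (n 0 z (n 0 z (n 0 z (n 0 z (n 0 z (n 0 z (n 0 z (n 0 z (n 0 z (n 0 z z)))))))))))))))) (n 3 (n
 0 z (n 0 z (n 0 z (n 0 z (n 0 z (n 0 z (n 0 z (n 0 z (n 0 z (n 0 z (n 0 z (n 0 z (n 0 z (n 0 z
 (n 0 z (n 0 z z)))))))))))))))) (n 3 (n 0 z (n 0 z (n 0 z (n 0 z (n 0 z (n 0 z (n 0 z (n 0 z (n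
 0 z (n 0 z (n 0 z (n 0 z (n 0 z (n 0 z (n 0 z (n 0 z z)))))))))))))))) (n 5 (n 0 z (n 0 z (n 0
 z (n 0 z (n 0 z (n 0 z (n 0 z (n 0 z (n 0 z (n 0 z (n 0 z (n 0 z z)))))))))))) (n 5 (n 0 z (n 0
 z (n 0 z (n 0 z (n 0 z (n 0 z (n 0 z (n 7754755 z (n 0 z (n 0 z (n 7754755 z (n 0 z
 z)))))))))))) (n 5 (n 0 z (n 0 z (n 0 z (n 0 z (n 0 z (n 0 z (n 0 z (n 0 z (n 0 z (n 0 z (n 0 z
 (n 0 z z)))))))))))) (n 5 (n 0 z (n 0 z (n 0 z (n 0 z (n 0 z (n 0 z (n 0 z (n 0 z (n 2 z (n 0 z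
 (n 0 z (n 0 z z)))))))))))) z)))))))) (n 0 (n 0 z (n 0 z (n 0 z (n 985 (n 0 z (n 0 z (n 0 z (n
 0 z (n 0 z (n 0 z (n 0 z (n 0 z (n 0 z (n 0 z (n 0 z (n 0 z (n 0 z (n 0 z (n 0 z (n 0 z (n 0 z
 (n 0 z (n 0 z (n 0 z (n 0 z (n 0 z (n 0 z (n 0 z (n 0 z (n 0 z (n 0 z (n 0 z (n 0 z (n 0 z (n 0
 z (n 0 z (n 0 z (n 0 z (n 0 z (n 0 z (n 0 z (n 0 z (n 0 z (n 0 z (n 2 (n 0 z (n 0 z (n 0 z z)))
 (n 0 z (n 0 z (n 0 z (n 0 z (n 0 z z)))))))))))))))))))))))))))))))))))))))))))))) (n 985 (n 0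
 z (n 0 z (n 0 z (n 0 z (n 0 z (n 0 z (n 0 z (n 0 z (n 0 z (n 0 z (n 0 z (n 0 z (n 0 z (n 0 z (n
 0 z (n 0 z (n 0 z (n 0 z (n 2 (n 0 z (n 0 z z)) (n 0 z (n 0 z (n 0 z (n 0 z (n 0 z (n 0 z (n 0
 z (n 0 z (n 0 z (n 0 z (n 0 z (n 0 z (n 0 z (n 0 z (n 0 z (n 0 z (n 0 z (n 0 z (n 0 z (n 0 z (n
 0 z (n 0 z (n 0 z (n 0 z (n 0 z (n 0 z (n 0 z z))))))))))))))))))))))))))))))))))))))))))))))
 (n 985 (n 0 z (n 0 z (n 0 z (n 0 z (n 0 z (n 0 z (n 0 z (n 0 z (n 0 z (n 0 z (n 0 z (n 0 z (n 0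
 z (n 0 z (n 0 z (n 0 z (n 0 z (n 0 z (n 0 z (n 0 z (n 0 z (n 0 z (n 0 z (n 0 z (n 0 z (n 0 z (n
 0 z (n 0 z (n 0 z (n 0 z (n 0 z (n 0 z (n 0 z (n 0 z (n 0 z (n 0 z (n 0 z (n 0 z (n 0 z (n 0 z
 (n 0 z (n 0 z (n 0 z (n 0 z (n 0 z (n 0 z z)))))))))))))))))))))))))))))))))))))))))))))) (n
 985 (n 0 z (n 0 z (n 0 z (n 0 z (n 0 z (n 0 z (n 0 z (n 0 z (n 0 z (n 0 z (n 0 z (n 0 z (n 0 z
 (n 0 z (n 0 z (n 0 z (n 0 z (n 0 z (n 0 z (n 0 z (n 0 z (n 0 z (n 0 z (n 0 z (n 0 z (n 0 z (n 0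
 z (n 0 z (n 0 z (n 0 z (n 0 z (n 0 z (n 0 z (n 0 z (n 0 z (n 0 z (n 0 z (n 0 z (n 0 z (n 0 z (n
 0 z (n 0 z (n 0 z (n 0 z (n 0 z (n 0 z z)))))))))))))))))))))))))))))))))))))))))))))) z)))))))
 (n 0 (n 0 z (n 0 z (n 1 (n 0 z (n 0 z (n 0 z (n 0 z (n 0 z (n 0 z (n 0 z (n 0 z (n 0 z (n 0 z
 (n 0 z z))))))))))) (n 1 (n 0 z (n 0 z (n 0 z (n 0 z (n 0 z (n 0 z (n 0 z (n 0 z (n 0 z (n 0 z
 (n 0 z z))))))))))) (n 1 (n 0 z (n 0 z (n 2 (n 0 z z) (n 0 z (n 0 z (n 0 z (n 0 z (n 0 z (n 0 z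
 (n 0 z (n 0 z z))))))))))) (n 1 (n 0 z (n 0 z (n 0 z (n 0 z (n 0 z (n 0 z (n 0 z (n 0 z (n 0 z
 (n 2 z (n 0 z z))))))))))) z)))))) (n 0 (n 0 z (n 1 (n 0 z (n 0 z (n 0 z (n 0 z (n 0 z (n 0 z
 (n 0 z (n 0 z (n 0 z (n 0 z (n 0 z (n 0 z (n 0 z (n 0 z (n 0 z (n 0 z (n 0 z (n 0 z (n 0 z (n 0
 z (n 0 z (n 0 z (n 0 z (n 0 z (n 0 z z))))))))))))))))))))))))) (n 1 (n 0 z (n 0 z (n 0 z (n 0
 z (n 0 z (n 0 z (n 0 z (n 0 z (n 0 z (n 0 z (n 0 z (n 0 z (n 0 z (n 0 z (n 0 z (n 0 z (n 0 z (n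
 0 z (n 0 z (n 0 z (n 0 z (n 0 z (n 0 z (n 0 z (n 0 z z))))))))))))))))))))))))) (n 1 (n 0 z (n
 0 z (n 0 z (n 0 z (n 0 z (n 0 z (n 0 z (n 0 z (n 2 (n 0 z z) (n 0 z (n 0 z (n 0 z (n 0 z (n 0 z
 (n 0 z (n 0 z (n 0 z (n 0 z (n 0 z (n 0 z (n 0 z (n 0 z (n 0 z (n 0 z (n 0 z
 z))))))))))))))))))))))))) (n 1 (n 0 z (n 0 z (n 0 z (n 0 z (n 0 z (n 0 z (n 0 z (n 0 z (n 0 z
 (n 0 z (n 0 z (n 0 z (n 0 z (n 0 z (n 0 z (n 0 z (n 0 z (n 2 z (n 0 z (n 0 z (n 0 z (n 0 z (n 0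
 z (n 0 z (n 0 z z))))))))))))))))))))))))) z))))) (n 0 (n 649 (n 0 z (n 0 z (n 0 z (n 0 z (n 0
 z (n 0 z (n 0 z (n 0 z (n 0 z (n 0 z (n 0 z (n 0 z (n 0 z (n 0 z (n 0 z (n 0 z (n 0 z (n 0 z (n
 0 z (n 0 z (n 0 z (n 0 z (n 0 z (n 0 z (n 0 z (n 0 z (n 0 z (n 0 z (n 0 z (n 0 z (n 0 z (n 0 z
 (n 0 z (n 0 z (n 0 z (n 0 z (n 0 z (n 0 z (n 0 z (n 0 z (n 0 z (n 0 z (n 0 z (n 0 z (n 0 z (n 0
 z z)))))))))))))))))))))))))))))))))))))))))))))) (n 649 (n 0 z (n 0 z (n 0 z (n 0 z (n 0 z (n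
 2 (n 0 z (n 0 z z)) (n 0 z (n 0 z (n 0 z (n 0 z (n 0 z (n 0 z (n 0 z (n 0 z (n 0 z (n 0 z (n 0
 z (n 0 z (n 0 z (n 0 z (n 0 z (n 0 z (n 0 z (n 0 z (n 0 z (n 0 z (n 0 z (n 0 z (n 0 z (n 0 z (n
 0 z (n 0 z (n 0 z (n 0 z (n 0 z (n 0 z (n 0 z (n 0 z (n 0 z (n 0 z (n 0 z (n 0 z (n 0 z (n 0 z
 (n 0 z (n 0 z z)))))))))))))))))))))))))))))))))))))))))))))) (n 649 (n 0 z (n 0 z (n 0 z (n 0
 z (n 0 z (n 0 z (n 0 z (n 0 z (n 0 z (n 0 z (n 0 z (n 0 z (n 0 z (n 0 z (n 0 z (n 0 z (n 0 z (n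
 0 z (n 0 z (n 0 z (n 0 z (n 0 z (n 0 z (n 0 z (n 0 z (n 0 z (n 0 z (n 0 z (n 0 z (n 0 z (n 0 z
 (n 0 z (n 0 z (n 0 z (n 0 z (n 0 z (n 0 z (n 0 z (n 0 z (n 0 z (n 0 z (n 0 z (n 0 z (n 0 z (n 0
 z (n 0 z z)))))))))))))))))))))))))))))))))))))))))))))) (n 649 (n 2 z (n 0 z (n 0 z (n 0 z (n
 0 z (n 0 z (n 0 z (n 0 z (n 0 z (n 0 z (n 0 z (n 0 z (n 0 z (n 0 z (n 0 z (n 0 z (n 0 z (n 0 z
 (n 0 z (n 0 z (n 0 z (n 0 z (n 0 z (n 0 z (n 0 z (n 0 z (n 0 z (n 0 z (n 0 z (n 0 z (n 0 z (n 0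
 z (n 0 z (n 0 z (n 0 z (n 0 z (n 0 z (n 0 z (n 0 z (n 0 z (n 0 z (n 0 z (n 0 z (n 0 z (n 0 z (n
 0 z z)))))))))))))))))))))))))))))))))))))))))))))) z)))) (n 0 (n 0 z (n 0 z (n 0 z z))) (n 0
 (n 0 z (n 0 z z)) (n 0 (n 0 z z) (n 0 z z)))))))))))))) (n 0 (n 1 (n 3282443 z (n 3282443 z (n
 3282443 z (n 3282443 z (n 3282443 z (n 3282443 z z)))))) (n 0 z (n 0 z (n 0 z (n 0 z (n 0 z (n
 0 z z))))))) (n 0 z z)))) (n 0xcb268321770c9388164c68675e38269320958e4804642048520163a0099640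
 (n 0 (n 203 (n 2 z (n
 0xd99518c840e052c64c642077fd80a7ed8458047f57fd85a7b680782a8357c87b18067f68117df8028557ff8217028857eb8657cb7e487c8177f37ee8907f683c75788379b8787ff7ac7de82e84477785d7c681782a7cf1011
 z (n
 0x24ca8ca420700c6526521038005431000aa420050c800c519000b021082186588c7f87ff75d8017e680572c77471885c7bf80d92776582b7a088284383c93e7cb8e589a7eb6ec77f80d78f77083c7d976b7e87878377f877e88b81686c7de81c89e7828388878331151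
 z (n 10 z (n 18 z (n 0 z (n 3282443 z (n 0 z (n 0 z (n
 0x35d4310a5886213610c40e6b10828a6217ef7507cc86f80085275a66e8287eb7f581f8776f67698de7ac7a48228387fd7689e26c78ff77183c8a485e88884f7df7e67488a78578d782173a7ef8859227086dd7407a28a672474e90d0151
 z (n 26 z (n 0 z (n
 0x7d90d90c80607aca6ca62037c17eb8037f48017f48007e28007bb84e7f37d17bf80984584e85188081f7f180283c8077de80a7f37eb8147ff7f07e87d27d377f8327eb8107e27c782a8487de8317fa8138157d080a81c1011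
 z (n 0 z (n
 0x3b29b29900c03d90d90c80e032ca8a864037fa7ed7cf85f7e384d7fd74d7ee7b97b88c67827ab80e7d482b7b28238967f17de74c88384d73684087e89986083f84c84681d83874f8af77e7ec7d17548077c28297e87718528048437ea1811
 z (n 34 z z)))))))))))))))) (n 33 (n 0 z (n 0 z (n 6624267 z z))) (n 135 (n 42 z (n 0 z (n
 3212843 z (n 50 z (n 0 z z))))) (n 3 (n 0 z (n 0 z (n 58 z (n 2164283 z z)))) (n 1 (n 0 z (n 0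
 z (n 0 z (n 66 z (n
 0x26c86a604077fd8098087e58147e680380281c7fd8038007f87fc8057f48068068017fe8048067f980c8028038047f07f67fd7f77fd7fc8057fa7fe7f48057fb8047fd7f480f7fd81180480180f8047fb0811
 z (n 0 z (n
 0x2aca6ca6403010654531203800329b28100c0799494c840e01cca6ca40077e68287e97e68067ff7fc7998638088468a377981a7807dc87b81983380e7ce7bb7fe7cb8217e985681b7b780181e7f77ec87384e7c68527c67ed8207ef76a8387e58817617fd8478307a22811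
 z (n 2164299 z (n 0 z (n 0 z (n 0 z (n
 0x35d4310a5886213610c40e6b18028a6307ef7507cc86f80085275a66e8287eb7f581f8776f67698de7ac7a48228387fd7689e26c78ff77183c8a485e88884f7df7e67488a78578d782173a7ef8859227086dd7407a28a672474e90d0151
 z (n
 0xa32164050180d328b28180c00990d4c4806026c64a642037f583a8167f580b7dd8017c682e7cc8018347c67ea7d481f80e80d81482780f7ec8317de83e8188287c97c780c7f27c48098568057de7f77f78107f180e7988487e884e7c57e48468347d12011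
 z (n 74 z z)))))))))))))) (n 0 (n 82 z (n 0 z (n 0 z (n 0 z (n 90 z (n 6624267 z (n 0 z (n 0 z
 (n 0 z (n
 0x10c86c864037d47c77c17d78138397ef7ed82085c85c8827b880b7de7ac8658318587d77f97bb7cb7fc7c17d481a86681780082f8167c77fd81d83c8187e27f28197fc7c77e27e184578183f7e17d27eb0811
 z z)))))))))) z)))))) (n 33 (n 0 (n 0 z (n 0 z (n 0 z (n 0 z (n 23 (n 0 z (n 0 z (n 0 z (n 0 z
 (n 0 z (n 0 z (n 0 z (n 0 z (n 0 z (n 0 z z)))))))))) (n 23 (n 0 z (n 2 (n 1 z (n 1 z (n 1 z (n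
 1 z (n 1 z z))))) (n 0 z (n 0 z (n 0 z (n 0 z (n 0 z (n 0 z (n 0 z (n 0 z z)))))))))) (n 267 (n
 0 z (n 0 z (n 0 z (n 0 z (n 0 z (n 0 z (n 0 z (n 0 z (n 0 z (n 0 z (n 0 z (n 0 z z))))))))))))
 (n 21 (n 0 z (n 0 z (n 0 z (n 0 z (n 0 z (n 0 z (n 0 z (n 0 z (n 0 z (n 0 z (n 0 z (n 0 z
 z)))))))))))) (n 21 (n 0 z (n 0 z (n 2 (n 1 z (n 1 z z)) (n 0 z (n 0 z (n 0 z (n 0 z (n 0 z (n
 0 z (n 0 z (n 0 z (n 0 z z)))))))))))) (n 265 (n 0 z (n 0 z (n 0 z (n 0 z (n 0 z (n 0 z (n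
 7749651 z (n 0 z (n 0 z (n 0 z z)))))))))) (n 265 (n 0 z (n 0 z (n 0 z (n 0 z (n 0 z (n 0 z (n
 0 z (n 0 z (n 0 z (n 0 z z)))))))))) z))))))))))) (n 0 (n 0 z (n 0 z (n 0 z (n 135 (n 0 z (n 2
 (n 0 z (n 2 (n 0 z (n 0 z (n 0 z (n 0 (n 8656651 z z) (n 0 (n 1620 z (n 8652587 z z)) (n 0 (n
 8656651 z z) z)))))) (n 1 z (n 2 (n 0 z (n 0 z (n 0 z (n 0 z (n 0 z (n 0 z z)))))) (n 1 z (n 1
 z z)))))) (n 0 z (n 0 z z)))) (n 135 (n 0 z (n 0 z (n 0 z (n 0 z z)))) (n 405 (n 0 z (n 0 z (n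
 0 z (n 0 z (n 0 z (n 0 z (n 2 (n 2 (n 0 z (n 0 (n 37 z z) (n 0 z (n 0 z (n 0 (n 7477323 z (n
 7682155 z z)) (n 0 (n 8864355 z z) z)))))) (n 2 (n 0 (n 532 z z) (n 0 z (n 0 z (n 0 (n 532 z z)
 (n 0 (n 532 z (n 532 z z)) (n 0 z z)))))) (n 2 (n 0 (n 1604 z z) (n 0 z (n 0 z (n 0 (n 1604 z
 z) (n 0 (n 1604 z (n 8722235 z z)) (n 0 z z)))))) (n 1 z z)))) (n 0 z z)))))))) (n 133 (n 0 z
 (n 0 z (n 0 z (n 2 (n 0 z (n 1 z (n 1 z z))) (n 0 z (n 0 z (n 0 z (n 0 z (n 0 z (n 0 z (n 0 z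
 (n 0 z (n 0 z z))))))))))))) (n 133 (n 0 z (n 0 z (n 0 z (n 0 z (n 0 z (n 0 z (n 0 z (n 0 z (n
 0 z (n 0 z (n 0 z (n 0 z (n 0 z z))))))))))))) (n 401 (n 0 z (n 0 z (n 0 z (n 0 z (n 0 z (n 0 z
 (n 0 z z))))))) (n 401 (n 0 z (n 2 z (n 0 z (n 0 z (n 0 z (n 0 z (n 0 z z))))))) z)))))))))) (n
 0 (n 0 z (n 0 z (n 107 (n 0 z (n 0 z (n 0 z (n 0 z (n 0 z (n 0 z (n 0 z (n 0 z (n 0 z (n 0 z (n
 6492275 z (n 0 z (n 0 z (n 0 z (n 0 z (n 0 z (n 0 z (n 0 z (n 0 z (n 0 z (n 0 z (n 0 z (n 0 z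
 (n 0 z (n 0 z (n 0 z (n 0 z (n 0 z (n 0 z z))))))))))))))))))))))))))))) (n 107 (n 0 z (n 0 z
 (n 0 z (n 0 z (n 0 z (n 0 z (n 0 z (n 0 z (n 0 z (n 0 z (n 0 z (n 0 z (n 0 z (n 0 z (n 0 z (n 0
 z (n 0 z (n 0 z (n 0 z (n 0 z (n 0 z (n 0 z (n 0 z (n 0 z (n 0 z (n 0 z (n 0 z (n 0 z (n 0 z
 z))))))))))))))))))))))))))))) (n 399 (n 0 z (n 0 z (n 0 z (n 0 z (n 0 z (n 0 z (n 0 z (n 0 z
 (n 0 z (n 0 z (n 0 z (n 0 z (n 0 z (n 0 z (n 2 (n 2 (n 0 z (n 0 z (n 0 z (n 0 z (n 0 (n 396 z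
 (n 396 z z)) (n 0 (n 396 z z) z)))))) (n 2 (n 0 z (n 0 z (n 0 z (n 0 (n 8782363 z z) (n 0 (n
 8782363 z (n 8782363 z z)) (n 0 (n 8782363 z z) z)))))) (n 2 (n 0 z (n 0 z (n 0 z (n 0 z (n 0
 (n 1588 z (n 1588 z z)) (n 0 (n 1588 z z) z)))))) (n 1 z z)))) (n 0 z (n 0 z (n 0 z (n 0 z (n 0
 z (n 0 z (n 0 z (n 0 z (n 0 z (n 0 z z))))))))))))))))))))))))) (n 99 (n 0 z (n 0 z (n 0 z (n 0
 z (n 6492275 z (n 0 z (n 0 z (n 0 z (n 0 z (n 0 z (n 0 z (n 0 z (n 0 z (n 0 z (n 0 z (n 0 z (n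
 0 z (n 0 z (n 0 z (n 0 z (n 0 z (n 0 z (n 0 z (n 0 z (n 0 z (n 0 z (n 0 z (n 0 z (n 0 z (n 0 z
 (n 0 z (n 0 z z)))))))))))))))))))))))))))))))) (n 99 (n 0 z (n 0 z (n 0 z (n 0 z (n 0 z (n 0 z
 (n 0 z (n 0 z (n 0 z (n 0 z (n 0 z (n 0 z (n 0 z (n 0 z (n 0 z (n 0 z (n 0 z (n 0 z (n 0 z (n 0
 z (n 0 z (n 0 z (n 0 z (n 0 z (n 0 z (n 0 z (n 0 z (n 0 z (n 7733787 z (n 7733787 z (n 0 z (n 0
 z z)))))))))))))))))))))))))))))))) (n 397 (n 0 z (n 0 z (n 0 z (n 0 z (n 0 z (n 0 z (n 0 z (n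
 0 z (n 0 z (n 0 z (n 0 z (n 0 z (n 0 z (n 0 z (n 0 z (n 0 z (n 0 z (n 0 z (n 0 z (n 0 z (n
 6358859 z (n 0 z (n 0 z (n 0 z (n 0 z (n 0 z (n 0 z (n 0 z (n 0 z (n 0 z (n 0 z (n 0 z (n 0 z
 (n 0 z (n 0 z (n 0 z (n 0 z (n 0 z (n 0 z (n 0 z (n 0 z (n 0 z (n 0 z (n 0 z (n 0 z (n 0 z
 z)))))))))))))))))))))))))))))))))))))))))))))) (n 397 (n 6492275 z (n 0 z (n 0 z (n 0 z (n 0 z
 (n 0 z (n 0 z (n 0 z (n 0 z (n 0 z (n 0 z (n 0 z (n 0 z (n 0 z (n 0 z (n 0 z (n 0 z (n 0 z (n 0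
 z (n 0 z (n 0 z (n 0 z (n 0 z (n 0 z (n 0 z (n 0 z (n 0 z (n 0 z (n 0 z (n 0 z (n 0 z (n 0 z (n
 0 z (n 0 z (n 0 z (n 0 z (n 0 z (n 0 z (n 0 z (n 0 z (n 0 z (n 0 z (n 0 z (n 0 z (n 0 z (n 0 z
 z)))))))))))))))))))))))))))))))))))))))))))))) z))))))))) (n 0 (n 0 z (n 35 (n 7749651 z (n 0
 z (n 0 z (n 0 z (n 0 z (n 0 z (n 0 z (n 0 z (n 0 z (n 0 z (n 0 z (n 0 z (n 0 z (n 0 z (n 0 z (n
 0 z (n 0 z (n 0 z (n 0 z (n 0 z (n 0 z (n 0 z (n 0 z (n 0 z (n 0 z (n 0 z (n 0 z (n 0 z (n 0 z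
 (n 0 z (n 0 z (n 0 z (n 0 z (n 0 z (n 0 z z))))))))))))))))))))))))))))))))))) (n 35 (n 0 z (n
 0 z (n 0 z (n 0 z (n 0 z (n 0 z (n 0 z (n 0 z (n 0 z (n 0 z (n 0 z (n 0 z (n 0 z (n 0 z (n 0 z
 (n 0 z (n 0 z (n 0 z (n 0 z (n 0 z (n 0 z (n 0 z (n 0 z (n 0 z (n 0 z (n 0 z (n 0 z (n 0 z (n 0
 z (n 0 z (n 0 z (n 0 z (n 0 z (n 2 (n 1 z (n 1 z (n 2 (n 0 z (n 0 z (n 0 z (n 0 z (n 0 z (n 0 z
 z)))))) (n 1 z (n 1 z z))))) (n 0 z z))))))))))))))))))))))))))))))))))) (n 387 (n 0 z (n 0 z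
 (n 0 z (n 0 z (n 0 z (n 0 z (n 0 z (n 2 (n 1 z (n 2 (n 0 (n 8864099 z z) (n 0 (n 148 z z) (n 0
 z (n 0 z (n 0 (n 148 z (n 8804123 z z)) (n 0 z z)))))) (n 1 z (n 1 z z)))) (n 0 z (n 0 z (n 0 z
 (n 0 z (n 0 z (n 0 z (n 0 z (n 0 z (n 0 z (n 0 z (n 0 z (n 0 z (n 0 z (n 0 z (n 0 z (n 0 z (n 0
 z z))))))))))))))))))))))))) (n 37 (n 0 z (n 0 z (n 7749651 z (n 0 z (n 0 z (n 0 z (n 0 z (n 0
 z (n 0 z (n 0 z (n 0 z (n 0 z (n 0 z (n 0 z (n 0 z (n 0 z (n 0 z (n 0 z (n 0 z (n 0 z (n 0 z (n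
 0 z z)))))))))))))))))))))) (n 37 (n 0 z (n 0 z (n 0 z (n 0 z (n 0 z (n 0 z (n 0 z (n 0 z (n 0
 z (n 0 z (n 0 z (n 0 z (n 0 z (n 0 z (n 0 z (n 0 z (n 0 z (n 0 z (n 0 z (n 0 z (n 2 (n 1 z (n 1
 z z)) (n 0 z z)))))))))))))))))))))) (n 385 (n 0 z (n 0 z (n 0 z (n 0 z (n 0 z (n 0 z (n 0 z (n
 0 z (n 0 z (n 0 z (n 0 z (n 0 z (n 0 z (n 0 z (n 0 z (n 0 z (n 0 z (n 0 z (n 0 z (n 0 z (n 0 z
 (n 0 z (n 0 z (n 0 z (n 0 z (n 0 z (n 0 z (n 0 z (n 0 z (n 0 z (n 0 z (n 0 z (n 0 z (n 0 z (n 0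
 z (n 0 z z)))))))))))))))))))))))))))))))))))) (n 385 (n 0 z (n 7749651 z (n 0 z (n 0 z (n 0 z
 (n 0 z (n 0 z (n 0 z (n 0 z (n 0 z (n 0 z (n 0 z (n 0 z (n 0 z (n 0 z (n 0 z (n 0 z (n 0 z (n 0
 z (n 0 z (n 0 z (n 0 z (n 0 z (n 0 z (n 0 z (n 0 z (n 0 z (n 0 z (n 0 z (n 0 z (n 0 z (n 0 z (n
 0 z (n 0 z (n 0 z (n 0 z z)))))))))))))))))))))))))))))))))))) z)))))))) (n 0 (n 1019 (n 2 (n 0
 z (n 2 (n 0 z (n 0 z (n 0 z (n 0 (n 8656651 z z) (n 0 (n 4044 z (n 8652587 z z)) (n 0 (n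
 8656651 z z) z)))))) (n 1 z (n 2 (n 0 z (n 0 z (n 0 z (n 0 z (n 0 z (n 0 z z)))))) (n 1 z (n 1
 z z)))))) (n 0 z (n 0 z (n 0 z (n 0 z (n 0 z (n 0 z (n 0 z z)))))))) (n 1019 (n 0 z (n 0 z (n 0
 z (n 0 z (n 0 z (n 0 z (n 0 z (n 0 z z)))))))) (n 1011 (n 0 z (n 0 z (n 0 z (n 0 z (n 2 (n 2 (n
 0 z (n 0 z (n 0 z (n 0 (n 37 z z) (n 0 (n 1164 z (n 1164 z z)) (n 0 (n 1164 z z) z)))))) (n 2
 (n 0 (n 8782363 z z) (n 0 z (n 0 z (n 0 (n 8782363 z z) (n 0 (n 8782363 z (n 8782363 z z)) (n 0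
 z z)))))) (n 2 (n 0 (n 8660507 z z) (n 0 z (n 0 z (n 0 (n 8721963 z z) (n 0 (n 4036 z (n
 8722235 z z)) (n 0 z z)))))) (n 1 z z)))) (n 0 z (n 0 z (n 0 z (n 0 z (n 0 z (n 0 z (n 0 z (n 0
 z (n 0 z z)))))))))))))) (n 291 (n 0 z (n 0 z (n 0 z (n 0 z (n 2 (n 0 z (n 1 z (n 1 z z))) (n 0
 z (n 0 z (n 0 z (n 0 z (n 0 z (n 0 z (n 0 z (n 0 z (n 0 z (n 0 z (n 0 z (n 0 z
 z))))))))))))))))) (n 291 (n 0 z (n 0 z (n 0 z (n 0 z (n 0 z (n 0 z (n 0 z (n 0 z (n 0 z (n 0 z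
 (n 0 z (n 0 z (n 0 z (n 0 z (n 0 z (n 0 z (n 0 z z))))))))))))))))) (n 1009 (n 0 z (n 0 z (n 0
 z (n 2 (n 0 z z) z)))) (n 1009 (n 0 z (n 2 z (n 0 z (n 0 z z)))) z))))))) (n 0 (n 0 z (n 295 (n
 0 z (n 0 z (n 0 z (n 0 z (n 0 z (n 0 z (n 0 z (n 0 z (n 0 z z))))))))) (n 483 (n 0 z (n 0 z (n
 0 z (n 0 z (n 0 z (n 0 z (n 0 z (n 0 z (n 0 z (n 0 z (n 0 z (n 0 z (n 0 z (n 0 z (n 0 z (n 0 z
 (n 0 z (n 0 z (n 0 z (n 0 z (n 0 z (n 0 z (n 0 z (n 0 z (n 0 z (n 0 z (n 0 z (n 0 z (n 0 z (n 0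
 z (n 0 z (n 0 z (n 0 z (n 0 z (n 0 z (n 0 z (n 0 z (n 0 z (n 0 z (n 0 z (n 0 z (n 0 z (n 0 z (n
 0 z (n 0 z (n 0 z (n 0 z z))))))))))))))))))))))))))))))))))))))))))))))) (n 483 (n 0 z (n 0 z
 (n 0 z (n 0 z (n 0 z (n 0 z (n 0 z (n 0 z (n 0 z (n 0 z (n 0 z (n 0 z (n 0 z (n 0 z (n 0 z (n 0
 z (n 0 z (n 0 z (n 0 z (n 0 z (n 0 z (n 0 z (n 0 z (n 0 z (n 0 z (n 0 z (n 0 z (n 0 z (n 0 z (n
 0 z (n 0 z (n 0 z (n 0 z (n 0 z (n 0 z (n 0 z (n 0 z (n 0 z (n 0 z (n 0 z (n 0 z (n 0 z (n 0 z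
 (n 0 z (n 2 (n 1 z (n 1 z z)) (n 0 z (n 0 z z))))))))))))))))))))))))))))))))))))))))))))))) (n
 481 (n 0 z (n 0 z (n 0 z (n 0 z (n 0 z (n 0 z (n 0 z (n 0 z z)))))))) (n 481 (n 0 z (n 0 z (n 0
 z (n 0 z (n 0 z (n 0 z (n 0 z (n 0 z z)))))))) z)))))) (n 0 (n 1023 (n 0 z (n 0 z (n 0 z (n 2
 (n 1 z (n 1 z (n 1 z (n 1 z z)))) z)))) (n 243 (n 0 z (n 0 z (n 2 (n 0 z (n 1 z (n 1 z z))) (n
 0 z (n 0 z (n 0 z (n 0 z (n 0 z (n 0 z (n 0 z (n 0 z (n 0 z z)))))))))))) (n 243 (n 0 z (n 0 z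
 (n 0 z (n 0 z (n 0 z (n 0 z (n 0 z (n 0 z (n 0 z (n 0 z (n 0 z (n 0 z z)))))))))))) (n 1021 (n
 0 z (n 0 z (n 0 z (n 0 z (n 0 z (n 0 z (n 0 z (n 0 z z)))))))) (n 1021 (n 0 z (n 0 z (n 0 z (n
 0 z (n 0 z (n 0 z (n 0 z (n 0 z z)))))))) z))))) (n 0 (n 9 (n 0 z (n 0 z (n 0 z (n 0 z (n 0 z
 (n 2 (n 0 z (n 1 z (n 1 z z))) (n 0 z (n 0 z z)))))))) (n 9 (n 0 z (n 0 z (n 0 z (n 0 z (n 0 z
 (n 0 z (n 2 (n 1 z (n 1 z z)) (n 0 z z)))))))) (n 5 (n 0 z (n 0 z (n 0 z (n 0 z (n 0 z (n 0 z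
 (n 0 z (n 0 z z)))))))) (n 5 (n 0 z (n 0 z (n 0 z (n 0 z (n 0 z (n 0 z (n 0 z (n 0 z z))))))))
 z)))) (n 0 (n 0 z (n 25 (n 0 z (n 0 z (n 0 z (n 0 z (n 0 z (n 0 z (n 0 z (n 0 z (n 0 z (n 0 z
 (n 0 z (n 0 z (n 7749651 z (n 0 z (n 0 z (n 0 z (n 0 z (n 0 z (n 0 z (n 0 z (n 0 z (n 0 z (n 0
 z (n 0 z (n 0 z (n 0 z (n 0 z (n 0 z (n 0 z (n 0 z (n 0 z (n 0 z (n 0 z (n 0 z (n 0 z (n 0 z (n
 0 z (n 0 z (n 0 z (n 0 z (n 0 z (n 0 z (n 0 z (n 0 z (n 0 z (n 0 z (n 0 z (n 0 z (n 0 z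
 z))))))))))))))))))))))))))))))))))))))))))))))))) (n 25 (n 0 z (n 0 z (n 0 z (n 0 z (n 0 z (n
 0 z (n 0 z (n 0 z (n 0 z (n 0 z (n 0 z (n 0 z (n 0 z (n 0 z (n 0 z (n 0 z (n 0 z (n 0 z (n 0 z
 (n 0 z (n 0 z (n 0 z (n 0 z (n 0 z (n 0 z (n 0 z (n 0 z (n 0 z (n 0 z (n 0 z (n 0 z (n 0 z (n 0
 z (n 0 z (n 0 z (n 0 z (n 0 z (n 0 z (n 0 z (n 0 z (n 0 z (n 0 z (n 0 z (n 0 z (n 0 z (n 0 z (n
 0 z (n 0 z (n 0 z z))))))))))))))))))))))))))))))))))))))))))))))))) z))) (n 0 (n 1 (n 0 z (n 0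
 z (n 2 (n 0 z z) (n 0 z (n 0 z (n 0 z (n 0 z (n 0 z (n 0 z (n 0 z (n 0 z z))))))))))) (n 1 (n 0
 z (n 0 z (n 0 z (n 0 z (n 2 z (n 0 z (n 0 z (n 0 z (n 0 z (n 0 z (n 0 z z))))))))))) z)) (n 0
 (n 0 z z) (n 0 z z)))))))))))) (n 0 (n 0 z (n 0 z (n 1 (n 6624267 z (n 6624267 z (n 6624267 z
 (n 6624267 z (n 6624267 z (n 6624267 z z)))))) z))) (n 0 z z)))) (n
 0x4625415b4b868aca14aa416a9205b4841894846d194224e942a59c209 (n 0 (n 453 (n 3282443 z (n 0 z (n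
 0 z (n 0 z (n 0 z (n 0 z (n 0 z (n 0 z (n 0 z (n 0 z (n 0 z (n 0 z (n 0 z z))))))))))))) (n 451
 (n 3278363 z (n 2 z (n 0 z (n 0 z (n 0 z z))))) (n 450 (n 3212843 z (n 0 z (n 0 z (n 0 z (n 0 z
 (n 0 z (n 0 z (n 0 z (n
 0xca8ca8003827e80827f817f81817f808080817f8180808080808181808080808081807f8082808080807e807f817d80818180807f7f810809
 z (n 0 z (n 0 z (n 10 z (n 6423611 z (n
 0x4ca8c602038087757a8d7e7b858276818d7f817b7c808181807e937c7e7d7c7f817c7985759b88737f7d8c8379896a7e897d7f808085820809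
 z (n 0 z (n 0 z (n 0 z (n 0 z z)))))))))))))))))) (n 3 (n 2164283 z (n 18 z (n 0 z (n 0 z (n 26
 z (n 0 z (n
 0x994944100604ca8a84203896d8f915c927d7a7f82807e79827d888d7a82798571808b7f817a808f816a88767b8977836d798e817e847f917f81757b811009
 z z))))))) (n 1 (n 34 z (n 2164299 z (n 0 z (n 42 z (n 50 z (n 58 z (n 0 z (n 0 z (n
 0x16ca4ca42078b5e8e97629065867b7980877a8675848b7b857f76937b8a7f867f8180837d7b8c8273807f7f6b84867679938480807a83840809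
 z (n 66 z z)))))))))) (n 0 (n 74 z (n 82 z (n 2164315 z (n 0 z (n 0 z (n 0 z (n 0 z (n 0 z
 z)))))))) z)))))) (n 451 (n 0 (n 901 (n 0 z (n 0 z (n 0 z (n 0 z (n 0 z (n 0 z (n 0 z (n 0 z (n
 0 z z))))))))) (n 7 (n 0 z (n 2 (n 0 z (n 1 z (n 2 (n 0 z (n 0 z (n 0 (n 12 z (n 12 z z)) (n 0
 z (n 0 (n 13 z z) (n 0 (n 8521243 z z) z)))))) (n 1 z (n 1 z (n 2 (n 0 z (n 0 z (n 0 (n 12 z (n
 12 z z)) (n 0 (n 8717867 z z) (n 0 (n 6428795 z z) (n 0 z z)))))) (n 1 z (n 1 z z)))))))) (n 0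
 z (n 0 z (n 0 z (n 0 z (n 0 z (n 0 z (n 0 z (n 0 z (n 0 z z))))))))))) (n 7 (n 0 z (n 0 z (n 0
 z (n 0 z (n 2 (n 1 z (n 2 (n 0 z (n 0 (n 8865035 z z) (n 0 (n 8865035 z (n 8865035 z z)) (n 0 z
 (n 0 (n 8865035 z z) (n 0 z z)))))) (n 2 (n 0 z (n 0 (n 8865035 z z) (n 0 (n 8865035 z (n
 8865035 z z)) (n 0 z (n 0 z (n 0 (n 8865035 z z) z)))))) (n 2 (n 0 z (n 0 z (n 0 (n 12 z (n
 8521563 z z)) (n 0 (n 8717867 z z) (n 0 (n 8521243 z z) (n 0 z z)))))) (n 2 (n 0 z (n 0 z (n 0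
 (n 12 z (n 8521563 z z)) (n 0 (n 8717867 z z) (n 0 z (n 0 (n 37 z z) z)))))) (n 1 z (n 1 z
 z))))))) (n 0 z (n 0 z (n 0 z (n 0 z (n 0 z (n 0 z z))))))))))) (n 3 (n 0 z (n 0 z (n 0 z (n 0
 z (n 0 z (n 0 z (n 0 z (n 0 z (n 0 z (n 0 z (n 0 z z))))))))))) (n 3 (n 0 z (n 0 z (n 2 (n 0 z
 (n 0 z (n 0 z (n 2 (n 0 z (n 0 z (n 0 (n 8730379 z (n 8847899 z z)) (n 0 (n 8847899 z z) (n 0 z
 (n 0 (n 8847899 z z) z)))))) (n 2 (n 0 z (n 0 z (n 0 (n 6490187 z (n 6490187 z z)) (n 0 z (n 0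
 (n 20 z z) (n 0 (n 6568027 z z) z)))))) z))))) (n 0 z (n 0 z (n 0 z (n 0 z (n 0 z (n 0 z (n 0 z
 (n 0 z z))))))))))) (n 3 (n 0 z (n 0 z (n 0 z (n 2 (n 0 z (n 0 z (n 2 (n 0 z (n 0 z (n 0 z (n 0
 z (n 0 z (n 0 z z)))))) (n 2 (n 0 z (n 0 z (n 0 (n 6490187 z (n 6490187 z z)) (n 0 z (n 0 z (n
 0 (n 6568027 z z) z)))))) z)))) (n 0 z (n 0 z (n 0 z (n 0 z (n 0 z (n 0 z (n 0 z z)))))))))))
 (n 3 (n 0 z (n 0 z (n 0 z (n 0 z (n 0 z (n 0 z (n 2 (n 0 z (n 2 (n 0 z (n 0 z (n 0 (n 20 z (n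
 7473243 z z)) (n 0 (n 8857099 z z) (n 0 (n 5 z z) (n 0 z z)))))) (n 1 z z))) (n 0 z (n 0 z (n 0
 z (n 0 z z))))))))))) (n 3 (n 0 z (n 0 z (n 0 z (n 0 z (n 0 z (n 0 z (n 0 z (n 0 z (n 0 z (n 0
 z (n 2 (n 2 (n 0 z (n 0 (n 20 z z) (n 0 (n 20 z (n 20 z z)) (n 0 (n 20 z z) (n 0 z (n 0 z
 z)))))) (n 2 (n 0 z (n 0 z (n 0 (n 6490187 z (n 8803187 z z)) (n 0 (n 8717867 z z) (n 0 z (n 0
 (n 6568027 z z) z)))))) z)) z))))))))))) (n 5 (n 0 z (n 0 z (n 2 (n 0 z z) (n 0 z (n 0 z (n 0 z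
 (n 0 z (n 0 z z)))))))) (n 5 (n 0 z (n 0 z (n 0 z (n 0 z (n 0 z (n 0 z (n 0 z (n 0 z z))))))))
 z)))))))))) (n 0 (n 1065 (n 0 z (n 0 z (n 0 z (n 7750403 z (n 0 z (n 0 z (n 0 z (n 0 z (n 0 z
 (n 0 z (n 0 z (n 0 z (n 0 z (n 0 z (n 0 z (n 0 z (n 0 z (n 0 z (n 0 z (n 0 z (n 0 z (n 0 z (n 0
 z z))))))))))))))))))))))) (n 1065 (n 0 z (n 0 z (n 0 z (n 0 z (n 0 z (n 0 z (n 0 z (n 0 z (n 0
 z (n 0 z (n 0 z (n 0 z (n 0 z (n 0 z (n 0 z (n 0 z (n 0 z (n 0 z (n 0 z (n 0 z (n 2 (n 1 z (n 2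
 (n 0 z (n 0 z (n 0 z (n 0 z (n 0 z (n 0 z z)))))) (n 1 z (n 1 z (n 2 (n 0 z (n 0 z (n 0 z (n 0
 z (n 0 z (n 0 z z)))))) (n 1 z (n 1 z z))))))) (n 0 z (n 0 z z))))))))))))))))))))))) (n 15 (n
 0 z (n 7750403 z (n 0 z (n 0 z (n 0 z (n 0 z (n 0 z (n 0 z (n 0 z (n 0 z (n 0 z (n 0 z (n 0 z
 (n 0 z (n 0 z (n 0 z (n 0 z (n 0 z (n 0 z (n 0 z (n 0 z (n 0 z (n 0 z (n 0 z (n 0 z (n 0 z (n 0
 z z))))))))))))))))))))))))))) (n 15 (n 0 z (n 0 z (n 0 z (n 0 z (n 0 z (n 0 z (n 0 z (n 0 z (n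
 0 z (n 0 z (n 0 z (n 0 z (n 0 z (n 0 z (n 0 z (n 0 z (n 2 (n 0 z (n 0 z (n 0 z (n 2 (n 0 z (n 0
 z (n 0 z (n 0 z (n 0 z (n 0 z z)))))) (n 1 z z))))) (n 0 z (n 0 z (n 0 z (n 0 z (n 0 z (n 0 z
 (n 0 z (n 0 z (n 0 z (n 0 z z))))))))))))))))))))))))))) (n 15 (n 0 z (n 0 z (n 0 z (n 0 z (n 0
 z (n 0 z (n 0 z (n 0 z (n 0 z (n 0 z (n 0 z (n 0 z (n 0 z (n 0 z (n 0 z (n 0 z (n 0 z (n 0 z (n
 0 z (n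
 0x1d4dd4c80e02ecaec6203827f7f8180807f7f7f807f817f827f817e82827e817f80818080807e8181807f807f80817f7f7e81827e80818082807f80801009
 z (n 0 z (n 0 z (n 0 z (n 0 z (n 0 z (n 0 z (n 0 z z))))))))))))))))))))))))))) (n 15 (n 0 z (n
 0 z (n 0 z (n 0 z (n 0 z (n 0 z (n 0 z (n 0 z (n 0 z (n 0 z (n 0 z (n 0 z (n 0 z (n 0 z (n 0 z
 (n 0 z (n 0 z (n 0 z (n 0 z (n 0 z (n 0 z (n 0 z (n 0 z (n 0 z (n 0 z (n 0 z (n 0 z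
 z))))))))))))))))))))))))))) (n 15 (n 0 z (n 0 z (n 0 z (n 0 z (n 0 z (n 0 z (n 0 z (n 0 z (n 0
 z (n 0 z (n 0 z (n 0 z (n 0 z (n 0 z (n 0 z (n 0 z (n 0 z (n 0 z (n 0 z (n 0 z (n 0 z (n 0 z (n
 0 z (n 0 z (n 0 z (n 0 z (n 0 z z))))))))))))))))))))))))))) (n 1129 (n 0 z (n 0 z (n 0 z (n 0
 z (n 0 z z))))) (n 1129 (n 0 z (n 0 z (n 0 z (n 0 z (n 0 z z))))) z))))))))) (n 0 (n 0 z (n 3
 (n 0 z (n 0 z (n 0 z (n 0 z (n 0 z (n 0 z (n 0 z (n 0 z (n 0 z (n 0 z (n 0 z (n 0 z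
 z)))))))))))) (n 3 (n 0 z (n 0 z (n 0 z (n 0 z (n 0 z (n 2 (n 0 z (n 0 z (n 0 z (n 2 (n 0 z (n
 0 z (n 0 (n 8847899 z z) (n 0 z (n 0 z (n 0 z z)))))) (n 1 z z))))) (n 0 z (n 0 z (n 0 z (n 0 z
 (n 0 z (n 0 z z)))))))))))) (n 3 (n 0 z (n 0 z (n 0 z (n 0 z (n 7606371 z (n 0 z (n 0 z (n 0 z
 (n 0 z (n 0 z (n 0 z (n 0 z z)))))))))))) (n 3 (n 0 z (n 0 z (n 0 z (n 0 z (n 0 z (n 0 z (n 0 z
 (n 7750403 z (n 0 z (n 0 z (n 0 z (n 0 z z)))))))))))) (n 3 (n 0 z (n 0 z (n 0 z (n 0 z (n 0 z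
 (n 0 z (n 0 z (n 0 z (n 2 (n 2 (n 0 z (n 0 z (n 0 (n 8525675 z z) (n 0 z (n 0 z (n 0 z z))))))
 (n 1 z z)) (n 0 z (n 0 z (n 0 z z)))))))))))) (n 1 (n 0 z (n 2 (n 0 z z) (n 0 z (n 0 z (n 0 z
 (n 0 z (n 0 z (n 0 z (n 0 z (n 0 z (n 0 z (n 0 z (n 0 z (n 0 z (n 0 z (n 0 z (n 0 z (n 0 z (n 0
 z (n 0 z (n 0 z (n 0 z (n 0 z (n 0 z (n 0 z (n 0 z (n 0 z z))))))))))))))))))))))))))) (n 1 (n
 0 z (n 0 z (n 0 z (n 0 z (n 0 z (n 0 z (n 0 z (n 0 z (n 0 z (n 0 z (n 0 z (n 0 z (n 0 z (n 0 z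
 (n 0 z (n 0 z (n 0 z (n 0 z (n 0 z (n 0 z (n 0 z (n 0 z (n 0 z (n 0 z (n 0 z (n 0 z (n 0 z
 z))))))))))))))))))))))))))) z)))))))) (n 0 (n 9 (n 0 z (n 0 z (n 0 z (n 0 z (n 0 z (n 0 z (n 0
 z (n 0 z (n 0 z (n 0 z (n 0 z (n 0 z (n 0 z (n 0 z (n 0 z (n 0 z (n 0 z (n 0 z (n 0 z (n 0 z (n
 2 (n 0 z (n 0 z (n 0 z (n 0 z (n 1 z (n 1 z z)))))) (n 0 z (n 0 z (n 0 z (n 0 z (n 0 z (n 0 z
 (n 0 z (n 0 z z))))))))))))))))))))))))))))) (n 9 (n 0 z (n 0 z (n 0 z (n 0 z (n 0 z (n 0 z (n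
 0 z (n 0 z (n 0 z (n 0 z (n 0 z (n 0 z (n 0 z (n 0 z (n 0 z (n 0 z (n 0 z (n 0 z (n 0 z (n 0 z
 (n 0 z (n 0 z (n 0 z (n 0 z (n 0 z (n 0 z (n 0 z (n 0 z (n 0 z z)))))))))))))))))))))))))))))
 (n 9 (n 0 z (n 0 z (n 0 z (n 0 z (n 0 z (n 0 z (n 0 z (n 0 z (n 0 z (n 0 z (n 0 z (n 0 z (n 0 z
 (n 0 z (n 0 z (n 0 z (n 0 z (n 0 z (n 0 z (n 0 z (n 0 z (n 0 z (n 0 z (n 0 z (n 0 z (n 0 z (n 0
 z (n 0 z (n 0 z z))))))))))))))))))))))))))))) (n 9 (n 0 z (n 0 z (n 2 (n 0 z (n 2 (n 0 z (n 0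
 z (n 0 z (n 0 z (n 0 z (n 0 z z)))))) (n 1 z z))) (n 0 z (n 0 z (n 0 z (n 0 z (n 0 z (n 0 z (n
 0 z (n 0 z (n 0 z (n 0 z (n 0 z (n 0 z (n 0 z (n 0 z (n 0 z (n 0 z (n 0 z (n 0 z (n 0 z (n 0 z
 (n 0 z (n 0 z (n 0 z (n 0 z (n 0 z (n 0 z z))))))))))))))))))))))))))))) (n 9 (n 0 z (n 0 z (n
 0 z (n 0 z (n 0 z (n 0 z (n 0 z (n 0 z (n 0 z (n 0 z (n 0 z (n 0 z (n 0 z (n 0 z (n 0 z (n 0 z
 (n 0 z (n 0 z (n 0 z (n 0 z (n 0 z (n 0 z (n 0 z (n 0 z (n 0 z (n 0 z (n 0 z (n 0 z (n 0 z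
 z))))))))))))))))))))))))))))) (n 5 (n 0 z (n 0 z (n 0 z (n 0 z (n 0 z (n 0 z (n 0 z (n 0 z (n
 0 z (n 0 z (n 0 z z))))))))))) (n 5 (n 0 z (n 0 z (n 0 z (n 0 z (n 0 z (n 0 z (n 2 z (n 0 z (n
 0 z (n 0 z (n 0 z z))))))))))) z))))))) (n 0 (n 0 z (n 0 z (n 0 z (n 0 z (n 5 (n 0 z (n 0 z (n
 0 z (n 0 z (n 2 (n 0 z z) (n 0 z (n 0 z (n 0 z (n 0 z (n 0 z (n 0 z z))))))))))) (n 5 (n 0 z (n
 0 z (n 0 z (n 0 z (n 0 z (n 0 z (n 0 z (n 0 z (n 0 z (n 0 z (n 0 z z))))))))))) z)))))) (n 0 (n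
 0 z (n 0 z (n 0 z (n 1 (n 0 z (n 0 z (n 0 z (n 0 z (n 0 z (n 0 z (n 0 z (n 0 z (n 0 z (n 0 z (n
 0 z z))))))))))) (n 1 (n 0 z (n 0 z (n 0 z (n 0 z (n 0 z (n 0 z (n 0 z (n 2 z (n 0 z (n 0 z (n
 0 z z))))))))))) z))))) (n 0 (n 0 z (n 0 z (n 1 (n 0 z (n 0 z (n 0 z (n 0 z (n 0 z (n 0 z (n 0
 z (n 0 z (n 0 z (n 0 z (n 0 z (n 0 z (n 0 z (n 0 z (n 0 z (n 0 z (n 0 z (n 0 z (n 0 z (n 0 z (n
 0 z (n 0 z z)))))))))))))))))))))) (n 1 (n 0 z (n 0 z (n 6557811 z (n 0 z (n 0 z (n 0 z (n 0 z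
 (n 0 z (n 0 z (n 0 z (n 0 z (n 0 z (n 0 z (n 0 z (n 0 z (n 0 z (n 0 z (n 0 z (n 0 z (n 0 z (n 0
 z (n 0 z z)))))))))))))))))))))) z)))) (n 0 (n 0 z (n 1 (n 2 (n 0 z z) (n 0 z (n 0 z (n 0 z (n
 0 z (n 0 z (n 0 z (n 0 z (n 0 z (n 0 z (n 0 z (n 0 z (n 0 z (n 0 z (n 0 z (n 0 z (n 0 z (n 0 z
 (n 0 z (n 0 z (n 0 z (n 0 z (n 0 z (n 0 z (n 0 z (n 0 z (n 0 z (n 0 z (n 0 z (n 0 z (n 0 z (n 0
 z (n 0 z z))))))))))))))))))))))))))))))))) (n 1 (n 0 z (n 0 z (n 0 z (n 0 z (n 0 z (n 0 z (n 0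
 z (n 0 z (n 0 z (n 0 z (n 0 z (n 0 z (n 0 z (n 0 z (n 7750403 z (n 0 z (n 0 z (n 0 z (n 0 z (n
 0 z (n 0 z (n 0 z (n 0 z (n 0 z (n 0 z (n 0 z (n 0 z (n 0 z (n 0 z (n 0 z (n 0 z (n 0 z (n 0 z
 z))))))))))))))))))))))))))))))))) z))) (n 0 (n 1 (n 0 z (n 0 z (n 0 z (n 0 z (n 0 z (n 0 z (n
 0 z (n 0 z z)))))))) (n 1 (n 0 z (n 0 z (n 0 z (n 0 z (n 2 z (n 0 z (n 0 z (n 0 z z)))))))) z))
 (n 0 (n 0 z z) (n 0 z z))))))))))) (n 0 (n 1 (n 3278363 z (n 3278363 z (n 3278363 z (n 3278363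
 z (n 3278363 z (n 3278363 z z)))))) (n 1 (n 5309995 z (n 3628 z (n 3628 z (n 3628 z (n 3628 z
 (n 3628 z z)))))) (n 0 z (n 0 z (n 0 z z))))) (n 0 z z)))) z)))))))))), by decide +kernel⟩
theorem i10951 : ∃ t, chkR KT RW t 10951 10961 = true := ⟨(n
 0x183ab842714b432594134ed40951404a31089154588a61a56a609 (n 0 (n 323 (n 0 z (n 0 z (n 0 z (n 0 z
 (n 0 z (n 0 z (n 0 z (n 3282443 z (n 0 z (n 0 z (n 0 z (n 0 z z)))))))))))) (n 317 (n 0 z (n 0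
 z (n 0 z (n 2 z (n 0 z (n 0 z (n 3278363 z (n 0 z (n 0 z (n 0 z z)))))))))) (n 9 (n
 0x1b56107fd7d983e7ee7ec7f180c8388037fb7dd84c7aa82c79081480e7cb8017ae7f37e281183380f8717858538247ff85d7d686677e82b83d7f77f77a582a81b8028017d68357d083d8007d67fa0051
 z (n 10 z (n 18 z (n
 0x1926108187df81b81b7dc8038038067e67e57e18127d68297b281584480b8017ca8477ed7ee81d80a8227f38148057cf8107b985077e81682080c81d7e67f47fd8058317f98227dc82681e8047fc0051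
 z (n 26 z (n 0 z (n 0 z (n 0 z (n 0 z (n 3212843 z (n 34 z (n 0 z (n 42 z (n 0 z (n
 0xcca8ca80037f580a7fd7fa8097ff7fc80c7fd8057f38117fd7f17f180b7f27fe80d7fb8127f781b7ff7f981a7fa7f98087ff8097f78017ef80b7ee8128037ee8027f980280d7fb7f67f87fd8138017f80811
 z (n
 0x1926418187df81b81b7dc8038038067e67e57e18127d68297b281584480b8017ca8477ed7ee81d80a8227f38148057cf8107b985077e81682080c81d7e67f47fd8058317f98227dc82681e8047fc0051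
 z z)))))))))))))))) (n 3 (n 50 z (n
 0x1926108187df81b81b7dc8038038067e67e57e18127d68297b281584480b8017ca8477ed7ee81d80a8227f38148057cf8107b985077e81682080c81d7e67f47fd8058317f98227dc82681e8047fc0051
 z (n 0 z (n 2164283 z (n
 0x52ca4ca42038008087ff7e880c7c08008337f47ff7ef8197ff8087e28407f27ea8017d77f08118227fa7f88297e67dc80f80380e7f88237f78057ef81381e7e07fa8047ff8537f38117cb80d81d7f37f70811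
 z (n 58 z (n 0 z (n 0 z (n
 0xca8ca80037ff8008008008008008008008008008008008008008008008008008008008008008008008008008008008008008008008008008008008008008008008008008008008008008008008008000811
 z z))))))))) (n 1 (n 66 z (n 0 z (n 0 z (n 74 z (n 2164299 z (n 0 z z)))))) (n 0 (n 0 z (n 0 z
 (n 6619947 z (n 0 z (n 0 z (n 0 z (n 0 z (n 0 z (n 0 z (n 0 z (n 0 z (n 0 z (n 0 z
 z))))))))))))) z)))))) (n 1 (n 0 (n 23 (n 0 z (n 0 z (n 2 (n 0 z (n 0 z (n 0 z (n 0 z (n 1 z (n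
 2 (n 0 z (n 0 z (n 0 z (n 0 z (n 0 z (n 0 z z)))))) (n 1 z (n 1 z z)))))))) (n 0 z (n 0 z (n 0
 z (n 0 z z))))))) (n 23 (n 0 z (n 0 z (n 0 z (n 0 z (n 0 z (n 0 z (n 0 z z))))))) (n 23 (n 0 z
 (n 0 z (n 0 z (n 0 z (n 2 (n 0 z (n 0 z (n 1 z (n 2 (n 0 z (n 0 z (n 0 z (n 0 z (n 0 z (n 0 z
 z)))))) (n 2 (n 0 z (n 0 z (n 0 z (n 0 z (n 0 z (n 0 (n 8860163 z z) z)))))) (n 2 (n 0 z (n 0 z
 (n 0 z (n 0 z (n 0 z (n 0 z z)))))) z)))))) (n 0 z (n 0 z z))))))) (n 23 (n 0 z (n 0 z (n 0 z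
 (n 0 z (n 0 z (n 0 z (n 0 z z))))))) (n 23 (n 0 z (n 0 z (n 0 z (n 0 z (n 0 z (n 0 z (n 0 z
 z))))))) (n 7 (n 2 (n 0 z (n 1 z (n 2 (n 0 (n 60 z z) (n 0 z (n 0 z (n 0 z (n 0 (n 8717851 z z)
 (n 0 (n 8455995 z (n 60 z z)) z)))))) z))) (n 0 z (n 0 z (n 0 z (n 0 z (n 0 z (n 0 z (n 0 z (n
 0 z (n 0 z (n 0 z z))))))))))) (n 7 (n 0 z (n 0 z (n 0 z (n 0 z (n 0 z (n 0 z (n 0 z (n 0 z (n
 0 z (n 0 z (n 0 z z))))))))))) (n 15 (n 0 z (n 0 z (n 0 z (n 0 z (n 0 z (n 0 z z)))))) (n 15 (n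
 0 z (n 0 z (n 0 z (n 0 z (n 2 z (n 0 z z)))))) z))))))))) (n 0 (n 0 z (n 0 z (n 0 z (n 0 z (n
 681 (n 0 z (n 0 z (n 0 z (n 0 z (n 0 z (n 0 z (n 0 z (n 0 z (n 0 z (n 0 z (n 0 z (n 0 z (n 0 z
 z))))))))))))) (n 681 (n 0 z (n 2 (n 2 (n 0 z (n 0 z (n 0 z (n 0 z (n 0 z (n 0 (n 8794627 z z)
 z)))))) (n 1 z z)) (n 0 z (n 0 z (n 0 z (n 0 z (n 0 z (n 0 z (n 0 z (n 0 z (n 0 z (n 0 z (n 0 z
 z))))))))))))) (n 3 (n 7746051 z (n 0 z (n 0 z (n 0 z (n 0 z (n 0 z (n 0 z (n 0 z (n 0 z (n 0 z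
 (n 0 z (n 0 z (n 0 z z))))))))))))) (n 3 (n 0 z (n 0 z (n 0 z (n 0 z (n 0 z (n 0 z (n 0 z (n 0
 z (n 0 z (n 0 z (n 0 z (n 0 z (n 0 z z))))))))))))) z)))))))) (n 0 (n 0 z (n 0 z (n 0 z (n 709
 (n 0 z (n 2 (n 0 z (n 1 z (n 2 (n 0 z (n 0 (n 6621259 z z) (n 0 (n 8853083 z z) (n 0 z (n 0 z
 (n 0 (n 8659059 z (n 84 z z)) z)))))) z))) (n 0 z (n 0 z (n 0 z (n 0 z (n 0 z (n 0 z (n 0 z
 z))))))))) (n 709 (n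
 0x1927608187df81b81b7dc8038038067e67e57e18127d68297b281584480b8017ca8477ed7ee81d80a8227f38148057cf8107b985077e81682080c81d7e67f47fd8058317f98227dc82681e8047fc0051
 z (n 0 z (n 0 z (n 0 z (n 0 z (n 0 z (n 0 z (n 0 z (n 0 z z))))))))) (n 21 (n 0 z (n
 0x13293a0981c071d8dd8c406008ea6ec42078007ff8107ff7fc7e780781e8017fb7e980f7f48007e08047f68078007fb8158078187f57f981180c7e37fe7ef7fe7fb80e8138017ed81c8067f47fd7de7ea8168077ff7f77f28168067fa1811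
 z (n 0 z (n 0 z (n 0 z (n 0 z (n 0 z (n 0 z (n 0 z z))))))))) (n 21 (n 0 z (n 0 z (n 0 z (n 0 z
 (n 0 z (n 2 z (n 0 z (n 0 z (n 0 z z))))))))) z))))))) (n 0 (n 0 z (n 0 z (n 681 (n 0 z (n 0 z
 (n 0 z (n 0 z (n 0 z (n 0 z (n 0 z (n 0 z (n 0 z (n 0 z (n 0 z (n 7746051 z (n 0 z (n 0 z (n 0
 z (n 0 z (n 0 z (n 0 z (n 0 z (n 0 z (n 0 z (n 0 z (n 0 z (n 0 z (n 0 z (n 0 z (n 0 z (n 0 z (n
 0 z z))))))))))))))))))))))))))))) (n 681 (n 0 z (n 0 z (n 0 z (n 2 (n 2 (n 0 z (n 0 z (n 0 z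
 (n 0 z (n 0 z (n 0 z z)))))) (n 2 (n 0 z (n 0 z (n 0 z (n 0 z (n 0 z (n 0 z z)))))) z)) (n 0 z
 (n 0 z (n 0 z (n 0 z (n 0 z (n 0 z (n 0 z (n 0 z (n 0 z (n 0 z (n 0 z (n 0 z (n 0 z (n 0 z (n 0
 z (n 0 z (n 0 z (n 0 z (n 0 z (n 0 z (n 0 z (n 0 z (n 0 z (n 0 z (n 0 z
 z))))))))))))))))))))))))))))) (n 15 (n 0 z (n 0 z (n 0 z (n 0 z (n 0 z (n 0 z (n 0 z (n 0 z (n
 0 z (n 0 z (n 0 z (n 0 z (n 0 z (n 0 z (n 0 z (n 0 z (n 0 z (n 0 z (n 0 z (n 0 z (n 0 z (n 0 z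
 (n 0 z (n 0 z (n 0 z (n 0 z (n 0 z (n 0 z (n 0 z (n 0 z (n 0 z (n 0 z (n 0 z (n 0 z (n 0 z (n 0
 z (n 0 z (n 0 z (n 0 z (n 0 z (n 0 z (n 0 z (n 0 z (n 0 z (n 0 z (n 0 z
 z)))))))))))))))))))))))))))))))))))))))))))))) (n 15 (n 0 z (n 0 z (n 0 z (n 0 z (n 0 z (n 0 z
 (n 0 z (n 0 z (n 0 z (n 0 z (n 0 z (n 2 z (n 0 z (n 0 z (n 0 z (n 0 z (n 0 z (n 0 z (n 0 z (n 0
 z (n 0 z (n 0 z (n 0 z (n 0 z (n 0 z (n 0 z (n 0 z (n 0 z (n 0 z (n 0 z (n 0 z (n 0 z (n 0 z (n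
 0 z (n 0 z (n 0 z (n 0 z (n 0 z (n 0 z (n 0 z (n 0 z (n 0 z (n 0 z (n 0 z (n 0 z (n 0 z
 z)))))))))))))))))))))))))))))))))))))))))))))) z)))))) (n 0 (n 0 z (n 487 (n 0 z (n 6561907 z
 (n 0 z (n 0 z (n 0 z (n 0 z (n 0 z (n 0 z (n 0 z (n 0 z (n 0 z (n 0 z (n 0 z (n 0 z (n 0 z (n 0
 z (n 0 z (n 0 z (n 0 z (n 0 z (n 0 z (n 0 z (n 0 z (n 0 z (n 0 z (n 0 z (n 0 z (n 0 z (n 0 z (n
 0 z (n 0 z (n 0 z (n 0 z (n 0 z (n 0 z z))))))))))))))))))))))))))))))))))) (n 487 (n 0 z (n 0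
 z (n 0 z (n 0 z (n 0 z (n 0 z (n 0 z (n 0 z (n 0 z (n 0 z (n 0 z (n 0 z (n 0 z (n 0 z (n 0 z (n
 0 z (n 0 z (n 7741707 z (n 0 z (n 0 z (n 0 z (n 0 z (n 0 z (n 0 z (n 0 z (n 0 z (n 0 z (n 0 z
 (n 0 z (n 0 z (n 0 z (n 0 z (n 0 z (n 0 z (n 0 z z))))))))))))))))))))))))))))))))))) (n 3 (n
 0xaea8ca46078008008018017ff8018007ff7ff8007fe8017ff8008018008008008008008007ff7fd8008008018007ff8008018007fe8008018008037ff8008018008007ff8008007ff8007ff7fe8008000811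
 z (n 0 z (n 0 z (n 0 z (n 0 z (n 0 z (n 0 z (n 0 z (n 0 z (n 0 z (n 0 z (n 0 z (n 0 z (n 0 z (n
 0 z (n 0 z (n 0 z (n 0 z (n 0 z (n 0 z (n 0 z (n 0 z (n 0 z (n 0 z (n 0 z (n 0 z (n 0 z (n 0 z
 (n 0 z (n 0 z (n 0 z (n 0 z (n 0 z (n 0 z (n 0 z (n 0 z z))))))))))))))))))))))))))))))))))))
 (n 3 (n 0 z (n 0 z (n 0 z (n 0 z (n 0 z (n 0 z (n 0 z (n 0 z (n 0 z (n 0 z (n 2 z (n 0 z (n 0 z
 (n 0 z (n 0 z (n 0 z (n 0 z (n 0 z (n 0 z (n 0 z (n 0 z (n 0 z (n 0 z (n 0 z (n 0 z (n 0 z (n 0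
 z (n 0 z (n 0 z (n 0 z (n 0 z (n 0 z (n 0 z (n 0 z (n 0 z (n 0 z
 z)))))))))))))))))))))))))))))))))))) z))))) (n 0 (n 7 (n 2 (n 0 z (n 1 z (n 2 (n 0 z (n 0 (n
 204 z z) (n 0 (n 8590859 z z) (n 0 z (n 0 z (n 0 (n 8659059 z (n 204 z z)) z)))))) z))) (n 0 z
 (n 0 z (n 0 z (n 0 z (n 0 z (n 0 z (n 0 z (n 0 z (n 0 z (n 0 z (n 0 z (n 0 z (n 0 z (n 0 z (n 0
 z (n 0 z z))))))))))))))))) (n 7 (n 0 z (n 0 z (n 0 z (n 0 z (n 0 z (n 0 z (n 0 z (n 0 z (n 0 z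
 (n 0 z (n 0 z (n 0 z (n 0 z (n 0 z (n 0 z (n 0 z (n 0 z z))))))))))))))))) (n 51 (n 2 (n 0 z z)
 (n 0 z (n 0 z (n 0 z (n 0 z (n 0 z (n 0 z (n 0 z (n 0 z (n 0 z (n 0 z (n 0 z (n 0 z
 z))))))))))))) (n 51 (n 0 z (n 0 z (n 0 z (n 2 z (n 0 z (n 0 z (n 0 z (n 0 z (n 0 z (n 0 z (n 0
 z (n 0 z (n 0 z z))))))))))))) z)))) (n 0 (n 0 z (n 3 (n 7746051 z (n 0 z (n 0 z (n 0 z (n 0 z
 (n 0 z (n 0 z (n 0 z (n 0 z (n 0 z (n 0 z (n 0 z (n 0 z z))))))))))))) (n 3 (n 0 z (n 0 z (n 0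
 z (n 0 z (n 0 z (n 0 z (n 2 z (n 0 z (n 0 z (n 0 z (n 0 z (n 0 z (n 0 z z))))))))))))) z))) (n
 0 (n 15 (n 0 z (n 2 (n 0 z z) (n 0 z (n 0 z (n 0 z (n 0 z (n 0 z (n 0 z (n 0 z (n 0 z (n 0 z (n
 0 z (n 0 z z))))))))))))) (n 15 (n 0 z (n 0 z (n 0 z (n 0 z (n 2 z (n 0 z (n 0 z (n 0 z (n 0 z
 (n 0 z (n 0 z (n 0 z (n 0 z z))))))))))))) z)) (n 0 (n 0 z z) (n 0 z z)))))))))) (n 0 (n 1 (n
 2588 z (n 2588 z (n 2588 z (n 2588 z (n 2588 z (n 2588 z z)))))) (n 0 z (n 0 z (n 1 (n 2588 z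
 (n 2588 z (n 4261467 z (n 2588 z (n 2588 z (n 2588 z z)))))) (n 1 (n 2164299 z (n 2164299 z (n
 2164299 z (n 2164299 z (n 2164299 z (n 2164299 z z)))))) (n 0 z z)))))) (n 0 z z)))) (n
 0xb293506498813142214a221baca052654280 (n 0 (n 351 (n 2 z (n 3282443 z (n 0 z z))) (n 339 (n 0
 z (n 0 z (n 0 z (n 0 z (n
 0xaca8a806037608208207e08218228607a07608217df81f8227a07e07df8618a08a28607e179f7a18228610801 z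
 (n 0 z (n 0 z (n 3278363 z (n 0 z (n 0 z (n 0 z (n 0 z (n 0 z (n 0 z (n
 0x56536204018aca8c8060379e8207a18608628638207237df99e85d7a07a17e07a382176185f71f8607a37e08607df7e21001
 z z))))))))))))))) (n 135 (n 3212843 z (n 0 z (n
 0xaca8a806037608208207e08218228607a07608217df81f8227a07e07df8618a08a28607e179f7a18228610801 z
 (n 0 z (n 0 z (n 0 z (n 0 z (n 0 z (n 0 z (n 0 z (n
 0x2ca8ca820379f82082081e86086082282082081f7e082081f7a081f8238218a08208208607a07e079f8600801 z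
 (n 0 z z)))))))))))) (n 3 (n 10 z (n 0 z (n 0 z (n 0 z (n 0 z (n 18 z (n 0 z (n 0 z (n 2164283
 z (n 0xca8ca80078608208208208208208208208208208208208208208208208208208208208208208208208200801
 z (n
 0x2ca4ca08078a08207e082181f7a082286082079f8208208607e08208218217e07e08208208208208208200801 z
 (n
 0x5b2084990412c820964081f8208218608a182181f81f8208217df8207e079f8237617dd81f7dd7a47e381f9208e279f0101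
 z (n 0 z z))))))))))))) (n 1 (n
 0x2ca6ca62078a08208207e07e17a07e282082072281f7e189d8a17df81f8628a081f86181f82081f7e18200801 z
 (n 26 z (n 0 z (n 0 z (n 0 z (n 0 z (n 34 z (n 0 z (n 42 z (n
 0x2ca6ca62078a082082082082082081f8608207238e081d8a182082081f82082085e8608218207a08207e00801 z
 (n 0 z (n
 0x2ca6ca62078a082082082082082081f8608207238e081d8a182082081f82082085e8608218207a08207e00801 z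
 (n 0 z (n 0 z (n 0 z (n 0 z (n
 0x2ca6ca02078a08207e082181f7a082286082079f8208208607e08208218217e07e08208208208208208200801 z
 (n 0 z (n 0 z (n 2164299 z (n 0 z (n 0 z (n 0 z (n 0 z (n 0 z (n 0 z (n
 0x2ca6ca62078de8208207a38217e08228607e071f8207e085e8208208228217df7e08208208208208208200801 z
 z))))))))))))))))))))))))))) (n 0 (n 0 z (n 0 z (n 2164315 z (n 50 z z)))) z)))))) (n 351 (n 0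
 (n 87 (n 0 z (n 0 z (n 0 z (n 0 z (n 0 z (n 0 z (n 0 z (n 0 z (n 0 z (n 0 z (n 0 z (n 0 z (n 0
 z (n 0 z (n 0 z (n 0 z (n 0 z (n 0 z (n 0 z (n 0 z (n 0 z (n 0 z (n 0 z (n 0 z (n 0 z (n 0 z (n
 0 z (n 0 z (n 0 z (n 0 z (n 0 z (n 0 z (n 0 z z))))))))))))))))))))))))))))))))) (n 87 (n 0 z
 (n 2 (n 1 z (n 1 z (n 1 z (n 1 z z)))) (n 0 z (n 0 z (n 0 z (n 0 z (n 0 z (n 0 z (n 0 z (n 0 z
 (n 0 z (n 0 z (n 0 z (n 0 z (n 0 z (n 0 z (n 0 z (n 0 z (n 0 z (n 0 z (n 0 z (n 0 z (n 0 z (n 0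
 z (n 0 z (n 0 z (n 0 z (n 0 z (n 0 z (n 0 z (n 0 z (n 0 z (n 0 z
 z))))))))))))))))))))))))))))))))) (n 85 (n 0 z (n 0 z (n 0 z (n 0 z (n 0 z (n 0 z (n 0 z (n 0
 z (n 0 z (n 0 z (n 0 z (n 0 z (n 0 z (n 0 z (n 0 z (n 0 z (n 0 z (n 0 z (n 0 z (n 0 z (n 0 z (n
 0 z z)))))))))))))))))))))) (n 85 (n 0 z (n 0 z (n 0 z (n 0 z (n 0 z (n 0 z (n 0 z (n 0 z (n 0
 z (n 0 z (n 0 z (n 0 z (n 0 z (n 0 z (n 0 z (n 0 z (n 0 z (n 0 z (n 0 z (n 0 z (n 0 z (n 0 z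
 z)))))))))))))))))))))) (n 85 (n 0 z (n 0 z (n 0 z (n 0 z (n 0 z (n 0 z (n 0 z (n 0 z (n 0 z (n
 0 z (n 0 z (n 0 z (n 0 z (n 0 z (n 0 z (n 0 z (n 0 z (n 0 z (n 0 z (n 0 z (n 0 z (n 0 z
 z)))))))))))))))))))))) (n 53 (n 0 z (n 0 z (n 2 z (n 0 z z)))) z)))))) (n 0 (n 0 z (n 853 (n 0
 z (n 0 z (n 0 z (n 0 z (n 0 z (n 0 z (n 0 z (n 0 z (n 0 z (n 0 z (n 0 z z))))))))))) (n 853 (n
 0 z (n 0 z (n 0 z (n 0 z (n 0 z (n 0 z (n 0 z (n 0 z (n 0 z (n 0 z (n 0 z z))))))))))) (n 853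
 (n 0 z (n 0 z (n 0 z (n 0 z (n 0 z (n 0 z (n 0 z (n 0 z (n 0 z (n 0 z (n 0 z z))))))))))) (n
 817 (n 0 z (n 0 z (n 0 z (n 0 z (n 0 z (n 0 z (n 2 z (n 0 z (n 0 z (n 0 z z)))))))))) z))))) (n
 0 (n 1321 (n 0 z (n 0 z (n 0 z (n 0 z (n 0 z (n 0 z (n 0 z (n 0 z (n 0 z (n 0 z (n 0 z (n 0 z
 (n 0 z (n 0 z (n 0 z (n 0 z (n 0 z (n 0 z (n 0 z (n 0 z (n 0 z (n 0 z (n 0 z
 z))))))))))))))))))))))) (n 1321 (n 0 z (n 0 z (n 0 z (n 0 z (n 0 z (n 0 z (n 0 z (n 0 z (n 0 z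
 (n 0 z (n 0 z (n 0 z (n 0 z (n 0 z (n 0 z (n 0 z (n 0 z (n 0 z (n 0 z (n 0 z (n 0 z (n 0 z (n 0
 z z))))))))))))))))))))))) (n 1321 (n 2 (n 1 z z) (n 0 z (n 0 z (n 0 z (n 0 z (n 0 z (n 0 z (n
 0 z (n 0 z (n 0 z (n 0 z (n 0 z (n 0 z (n 0 z (n 0 z (n 0 z (n 0 z (n 0 z (n 0 z (n 0 z (n 0 z
 (n 0 z (n 0 z z))))))))))))))))))))))) (n 5 (n 0 z (n 0 z (n 0 z (n 0 z (n 0 z (n 0 z (n 0 z (n
 0 z (n 0 z (n 0 z (n 0 z (n 0 z (n 0 z (n 0 z (n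
 0x2ec8ec84078a08208207e07e17a07e282082072281f7e189d8a17df81f8628a081f86181f82081f7e18200801 z
 (n 0 z (n 0 z (n 0 z (n 0 z (n 0 z (n 0 z (n 0 z (n 0 z z))))))))))))))))))))))) z)))) (n 0 (n
 0 z (n 0 z (n 25 (n 0 z (n 0 z (n 0 z (n 0 z (n 0 z (n 2 z (n 0 z (n 0 z (n 0 z (n 0 z
 z)))))))))) z))) (n 0 (n 0 z (n 1081 (n 0 z (n 0 z (n 0 z (n 0 z (n 0 z z))))) z)) (n 0 (n 961
 (n 0 z (n 0 z (n 0 z (n 0 z (n 0 z (n 0 z (n 0 z (n 0 z (n 0 z (n 0 z (n 0 z (n 0 z (n 0 z (n 0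
 z (n 0 z (n 0 z (n 0 z (n 0 z (n 0 z (n 0 z (n 0 z z))))))))))))))))))))) z) (n 0 z z))))))) (n
 0 (n 1 (n 28 z (n 2716 z (n 2716 z (n 2716 z (n 2716 z (n 2716 z z)))))) (n 1 (n 3282443 z (n
 3282443 z (n 3282443 z (n 3282443 z (n 3282443 z (n 3282443 z z)))))) (n 0 z z))) (n 0 z z))))
 (n 0x15b2684535686c98c52e4b4325d215acd0d465849bb5b04b34886d6c80cd2c0 (n 0 (n 321 (n 0 z (n 0 z
 (n 2 z (n 3282443 z (n 10 z (n 0 z z)))))) (n 315 (n 3278363 z (n 18 z (n 26 z z))) (n 9 (n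
 3212843 z (n 0 z (n 0 z z))) (n 3 (n 34 z (n 42 z (n 0 z (n 0 z (n 0 z (n 50 z (n 58 z (n
 0x2ca8ca82078a08208607e08208208218218208208208208208208208208208208208208218208208208200801 z
 (n 2164283 z z))))))))) (n 1 (n 0 z (n 66 z (n 0 z (n 0 z (n 74 z (n 2164299 z z)))))) (n 0 (n
 0 z (n 0 z (n 0 z (n 0 z (n 0 z (n 0 z (n 0 z (n 82 z (n 0 z (n 0 z (n 0 z (n 0 z (n 0 z (n 0 z
 (n 0 z (n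
 0x6c82c806038608227e189d8207de8207e091f81d8a28617e18207227e286081f82186085e7e08627de85f0801 z
 (n 0x2c86c8620786081f8608208207e08218208218218208208208208208208208208208208208208208208200801
 z (n 0 z (n 0 z (n 0 z (n 0 z (n 0 z (n 0 z (n 0 z (n
 0xa61086086081f8218207e08208208207e082182082082082082082182082082081f8207e08208200041 z (n 90 z
 (n 0 z (n 0 z (n 2164315 z (n 0 z (n 0 z (n 0 z (n 0 z (n 0 z (n 0 z (n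
 0xa64086086081f8218207e08208208207e08218218208208208208208208208207e07e07e08208200041 z (n 0 z
 (n 0 z (n 0 z (n 0 z (n 0 z z))))))))))))))))))))))))))))))))))))))))) z)))))) (n 315 (n 0 (n 0
 z (n 631 (n 0 z (n 0 z (n 0 z (n 0 z (n 0 z (n 0 z (n 0 z (n 0 z (n 0 z (n 0 z (n 0 z (n 0 z (n
 0 z (n 0 z (n 0 z (n 0 z (n 0 z (n 0 z (n 0 z (n 0 z (n 0 z (n 0 z (n 0 z (n 0 z (n 0 z (n 0 z
 (n 0 z (n 0 z z)))))))))))))))))))))))))))) (n 631 (n 0 z (n 0 z (n 0 z (n 0 z (n 0 z (n 0 z (n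
 0 z (n 0 z (n 0 z (n 0 z (n 0 z (n 0 z (n 0 z (n 0 z (n 0 z (n 0 z (n 0 z (n 0 z (n 2 (n 1 z (n
 2 (n 0 z (n 0 z (n 0 z (n 0 z (n 0 z (n 0 (n 2028 z z) z)))))) (n 1 z (n 1 z (n 1 z (n 1 z (n 2
 (n 0 z (n 0 z (n 0 z (n 0 z (n 0 z (n 0 z z)))))) (n 1 z z)))))))) (n 0 z (n 0 z (n 0 z (n 0 z
 (n 0 z (n 0 z (n 0 z (n 0 z (n 0 z z)))))))))))))))))))))))))))) (n 507 (n
 0x57517604038aea6ca080382186082092082489e7a08e27df7a08a076289e89c7a085f75f91f8256dd76089d7e286085e1001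
 z (n 2 (n 0 z (n 0 z (n 0 z (n 1 z (n 1 z (n 1 z (n 1 z z))))))) (n 0 z (n 0 z (n 0 z (n 0 z (n
 0 z (n 0 z (n 0 z (n 0 z (n 0 z (n 0 z (n 0 z (n 0 z (n 0 z (n 0 z (n 0 z (n 0 z (n 0 z (n 0 z
 (n 0 z (n 0 z (n 0 z (n 0 z (n 0 z (n 0 z (n 0 z (n 0 z (n 0 z (n 0 z (n 0 z (n 0 z (n 0 z (n 0
 z (n 0 z z))))))))))))))))))))))))))))))))))) (n 507 (n 0 z (n 0 z (n 0 z (n 0 z (n 0 z (n 0 z
 (n 0 z (n 0 z (n 0 z (n 0 z (n 0 z (n 0 z (n 0 z (n 0 z (n 0 z (n 0 z (n 0 z (n 0 z (n 0 z (n 0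
 z (n 0 z (n 0 z (n 0 z (n 0 z (n 0 z (n 0 z (n 0 z (n 0 z (n 0 z (n 0 z (n 0 z (n 0 z (n 0 z (n
 0 z (n 0 z z))))))))))))))))))))))))))))))))))) (n 507 (n 0 z (n 0 z (n 0 z (n 0 z (n 0 z (n 0
 z (n 0 z (n 0 z (n 0 z (n 0 z (n 0 z (n 0 z (n 0 z (n 0 z (n 0 z (n 0 z (n 0 z (n 2 (n 0 z (n 2
 (n 0 z (n 0 z (n 0 z (n 0 z (n 0 z (n 0 z z)))))) (n 1 z (n 2 (n 0 z (n 0 z (n 0 z (n 0 z (n 0
 z (n 0 z z)))))) (n 1 z z))))) (n 0 z (n 0 z (n 0 z (n 0 z (n 0 z (n 0 z (n 0 z (n 0 z (n 0 z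
 (n 0 z (n 0 z (n 0 z (n 0 z (n 0 z (n 0 z (n 0 z (n 0 z z))))))))))))))))))))))))))))))))))) (n
 507 (n 0 z (n 0 z (n 0 z (n 0 z (n 0 z (n 0 z (n 0 z (n 0 z (n 0 z (n 0 z (n 0 z (n 0 z (n 0 z
 (n 0 z (n 2 (n 1 z (n 1 z (n 2 (n 0 z (n 0 z (n 0 z (n 0 z (n 0 z (n 0 z z)))))) (n 1 z z))))
 (n 0 z (n 0 z (n 0 z (n 0 z (n 0 z (n 0 z (n 0 z (n 0 z (n 0 z (n 0 z (n 0 z (n 0 z (n 0 z (n 0
 z (n 0 z (n 0 z (n 0 z (n 0 z (n 0 z (n 0 z z))))))))))))))))))))))))))))))))))) (n 483 (n 0 z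
 (n 0 z (n 0 z (n 0 z (n 0 z z))))) (n 483 (n 0 z (n 0 z (n 0 z (n 2 (n 2 (n 0 z (n 0 z (n 0 z
 (n 0 z (n 0 z (n 0 (n 2020 z z) z)))))) (n 1 z z)) (n 0 z z))))) (n 505 (n 0 z (n 0 z (n 2 (n 0
 z z) (n 0 z (n 0 z (n 0 z (n 0 z (n 0 z (n 0 z (n 0 z (n 0 z (n 0 z (n 0 z (n 0 z (n 0 z (n 0 z
 (n 0 z (n 0 z (n 0 z (n 0 z (n 0 z (n 0 z (n 0 z (n 0 z (n 0 z (n 0 z (n 0 z (n 0 z (n 0 z (n 0
 z (n 0 z (n 0 z (n 0 z (n 0 z (n 0 z (n 0 z z)))))))))))))))))))))))))))))))))))) (n 505 (n 0 z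
 (n 0 z (n 0 z (n 0 z (n 0 z (n 0 z (n 0 z (n 0 z (n 0 z (n 0 z (n 2 z (n 0 z (n 0 z (n 0 z (n 0
 z (n 0 z (n 0 z (n 0 z (n 0 z (n 0 z (n 0 z (n 0 z (n 0 z (n 0 z (n 0 z (n 0 z (n 0 z (n 0 z (n
 0 z (n 0 z (n 0 z (n 0 z (n 0 z (n 0 z (n 0 z (n 0 z z))))))))))))))))))))))))))))))))))))
 z))))))))))) (n 0 (n 651 (n 0 z (n 0 z (n 0 z (n 0 z (n 0 z (n 0 z (n 0 z (n 0 z (n 0 z (n 2 (n
 0 z (n 2 (n 0 z (n 0 z (n 0 z (n 0 z (n 0 z (n 0 z z)))))) (n 2 (n 0 z (n 0 z (n 0 z (n 0 z (n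
 0 z (n 0 z z)))))) (n 1 z (n 1 z (n 1 z (n 1 z (n 2 (n 0 z (n 0 z (n 0 z (n 0 z (n 0 z (n 0 z
 z)))))) (n 1 z z))))))))) (n 0 z (n 0 z (n 0 z (n 0 z (n 0 z z))))))))))))))) (n 651 (n 0 z (n
 0 z (n 0 z (n 0 z (n 0 z (n 0 z (n 0 z (n 0 z (n 0 z (n 0 z (n 0 z (n 0 z (n 0 z (n 0 z (n 0 z
 z))))))))))))))) (n 251 (n 0 z (n 0 z (n 0 z (n 0 z (n 0 z (n 0 z (n 0 z (n 0 z (n 2 (n 0 z (n
 0 z (n 0 z (n 1 z (n 1 z (n 1 z (n 1 z z))))))) (n 0 z (n 0 z (n 0 z (n 0 z (n 0 z (n 0 z (n 0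
 z (n 0 z (n 0 z (n 0 z (n 0 z (n 0 z (n 0 z (n 0 z z))))))))))))))))))))))) (n 251 (n 0 z (n 0
 z (n 0 z (n 0 z (n 0 z (n 0 z (n 0 z (n 0 z (n 0 z (n 0 z (n 0 z (n 0 z (n 0 z (n 0 z (n 0 z (n
 2 (n 0 z (n 0 z (n 1 z (n 1 z (n 2 (n 0 z (n 0 z (n 0 z (n 0 z (n 0 z (n 0 z z)))))) (n 1 z
 z)))))) (n 0 z (n 0 z (n 0 z (n 0 z (n 0 z (n 0 z (n 0 z z))))))))))))))))))))))) (n 251 (n 0 z
 (n 0 z (n 0 z (n 0 z (n 0 z (n 0 z (n 0 z (n 0 z (n 0 z (n 0 z (n 0 z (n 0 z (n 0 z (n 0 z (n 0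
 z (n 0 z (n 0 z (n 0 z (n 0 z (n 0 z (n 0 z (n 0 z (n 0 z z))))))))))))))))))))))) (n 251 (n 0
 z (n 0 z (n 0 z (n 0 z (n 0 z (n 0 z (n 0 z (n 0 z (n 0 z (n 0 z (n 0 z (n 0 z (n 0 z (n 0 z (n
 0 z (n 0 z (n 0 z (n 0 z (n 0 z (n 0 z (n 0 z (n 0 z (n 0 z z))))))))))))))))))))))) (n 249 (n
 0 z (n 0 z (n 0 z (n 2 (n 0 z (n 2 (n 0 z (n 0 z (n 0 z (n 0 z (n 0 z (n 0 z z)))))) (n 1 z
 z))) (n 0 z z))))) (n 249 (n 0 z (n 0 z (n 0 z (n 0 z (n 0 z z))))) (n 241 (n 0 z (n 0 z (n 0 z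
 (n 0 z (n 0 z (n 0 z (n 0 z (n 0 z (n 0 z (n 0 z (n 0 z (n 0 z (n 0 z (n 0 z (n 0 z (n 0 z (n 0
 z (n 0 z (n 0 z (n 0 z (n 0 z (n 0 z (n 0 z (n 0 z (n 0 z (n 0 z (n 0 z (n 0 z (n 0 z
 z))))))))))))))))))))))))))))) (n 241 (n 0 z (n 0 z (n 0 z (n 0 z (n 0 z (n 0 z (n 0 z (n 0 z
 (n 0 z (n 0 z (n 0 z (n 0 z (n 0 z (n 0 z (n 0 z (n 0 z (n 0 z (n 0 z (n 0 z (n 0 z (n 0 z (n 0
 z (n 0 z (n 0 z (n 0 z (n 0 z (n 0 z (n 0 z (n 0 z z))))))))))))))))))))))))))))) z))))))))))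
 (n 0 (n 0 z (n 639 (n 2 (n 0 z (n 0 z (n 0 z (n 2 (n 0 z (n 0 z (n 0 z (n 0 z (n 0 z (n 0 z
 z)))))) (n 2 (n 0 z (n 0 z (n 0 z (n 0 z (n 0 z (n 0 (n 2124 z z) z)))))) (n 1 z (n 2 (n 0 z (n
 0 z (n 0 z (n 0 z (n 0 z (n 0 (n 2548 z z) z)))))) z))))))) (n 0 z (n 0 z (n 0 z (n 0 z (n 0 z
 (n 0 z (n 0 z (n 0 z z))))))))) (n 639 (n 0 z (n 0 z (n 0 z (n 0 z (n 0 z (n 0 z (n 0 z (n 0 z
 (n 0 z z))))))))) (n 639 (n 0 z (n 0 z (n 0 z (n 0 z (n 2 (n 0 z (n 2 (n 0 z (n 0 z (n 0 z (n 0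
 z (n 0 z (n 0 z z)))))) (n 2 (n 0 z (n 0 z (n 0 z (n 0 z (n 0 z (n 0 (n 8863827 z z) z)))))) (n
 2 (n 0 z (n 0 z (n 0 z (n 0 z (n 0 z (n 0 z z)))))) (n 2 (n 0 z (n 0 z (n 0 z (n 0 z (n 0 z (n
 0 (n 8855819 z z) z)))))) z))))) (n 0 z (n 0 z (n 0 z (n 0 z z))))))))) (n 639 (n 0 z (n 0 z (n
 0 z (n 2 (n 2 (n 0 z (n 0 z (n 0 z (n 0 z (n 0 z (n 0 z z)))))) (n 1 z (n 2 (n 0 z (n 0 z (n 0
 z (n 0 z (n 0 z (n 0 z z)))))) (n 1 z z)))) (n 0 z (n 0 z (n 0 z (n 0 z (n 0 z z))))))))) (n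
 531 (n 0 z (n 0 z (n 0 z (n 0 z (n 0 z (n 0 z (n 0 z (n 0 z z)))))))) (n 531 (n 0 z (n 0 z (n 2
 (n 2 (n 0 z (n 0 z (n 0 z (n 0 z (n 0 z (n 0 z z)))))) (n 1 z z)) (n 0 z (n 0 z (n 0 z (n 0 z
 (n 0 z z)))))))) (n 637 (n 2 (n 0 z z) (n 0 z (n 0 z (n 0 z (n 0 z (n 0 z (n 0 z (n 0 z (n 0 z
 (n 0 z (n 0 z (n 0 z (n 0 z z))))))))))))) (n 637 (n 0 z (n 0 z (n 0 z (n 2 z (n 0 z (n 0 z (n
 0 z (n 0 z (n 0 z (n 0 z (n 0 z (n 0 z (n 0 z z))))))))))))) z))))))))) (n 0 (n 627 (n 0 z (n 2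
 (n 0 z (n 0 z (n 0 z (n 1 z (n 1 z (n 1 z (n 1 z z))))))) (n 0 z (n 0 z (n 0 z (n 0 z (n 0 z (n
 0 z (n 0 z (n 0 z (n 0 z z))))))))))) (n 627 (n 2 (n 0 z (n 0 z (n 1 z (n 1 z (n 2 (n 0 z (n 0
 z (n 0 z (n 0 z (n 0 z (n 0 z z)))))) (n 1 z z)))))) (n 0 z (n 0 z (n 0 z (n 0 z (n 0 z (n 0 z
 (n 0 z (n 0 z (n 0 z (n 0 z z))))))))))) (n 627 (n 0 z (n 0 z (n 0 z (n 0 z (n 0 z (n 0 z (n 0
 z (n 0 z (n 0 z (n 0 z (n 0 z z))))))))))) (n 627 (n 0 z (n 0 z (n 0 z (n 0 z (n 0 z (n 0 z (n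
 0 z (n 0 z (n 0 z (n 0 z (n 0 z z))))))))))) (n 3 (n 0 z (n 0 z (n 2 (n 0 z (n 2 (n 0 z (n 0 z
 (n 0 z (n 0 z (n 0 z (n 0 z z)))))) (n 1 z z))) (n 0 z (n 0 z (n 0 z (n 0 z (n 0 z z)))))))) (n
 3 (n 0 z (n 0 z (n 0 z (n 0 z (n 0 z (n 0 z (n 0 z (n 0 z z)))))))) (n 1 (n 0 z (n 0 z (n 2 (n
 0 z z) (n 0 z (n 0 z (n 0 z (n 0 z (n 0 z (n 0 z (n 0 z (n 0 z (n 0 z (n 0 z z))))))))))))) (n
 1 (n 0 z (n 0 z (n 0 z (n 0 z (n 0 z (n 0 z (n 0 z (n 0 z (n 0 z (n 0 z (n 0 z (n 0 z (n 0 z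
 z))))))))))))) z)))))))) (n 0 (n 0 z (n 0 z (n 0 z (n 243 (n 0 z (n 0 z (n 0 z (n 0 z (n 0 z (n
 2 (n 0 z (n 1 z (n 1 z z))) (n 0 z (n 0 z (n 0 z (n 0 z (n 0 z (n 0 z (n 0 z z))))))))))))) (n
 243 (n 0 z (n 0 z (n 0 z (n 0 z (n 0 z (n 0 z (n 0 z (n 0 z (n 0 z (n 0 z (n 0 z (n 2 (n 1 z (n
 1 z z)) (n 0 z z))))))))))))) (n 241 (n 0 z (n 0 z (n 0 z (n 0 z (n 0 z (n 0 z (n 0 z (n 0 z (n
 0 z (n 0 z (n 0 z (n 0 z (n 0 z (n 0 z (n 0 z (n 0 z (n 0 z (n 0 z (n 0 z (n 0 z (n 0 z (n 0 z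
 (n 0 z (n 0 z (n 0 z (n 0 z (n 0 z (n 0 z (n 0 z z))))))))))))))))))))))))))))) (n 241 (n 0 z
 (n 0 z (n 0 z (n 0 z (n 0 z (n 0 z (n 0 z (n 0 z (n 0 z (n 0 z (n 2 z (n 0 z (n 0 z (n 0 z (n 0
 z (n 0 z (n 0 z (n 0 z (n 0 z (n 0 z (n 0 z (n 0 z (n 0 z (n 0 z (n 0 z (n 0 z (n 0 z (n 0 z (n
 0 z z))))))))))))))))))))))))))))) z))))))) (n 0 (n 0 z (n 0 z (n 243 (n 0 z (n 0 z (n 0 z (n 0
 z (n 0 z (n 0 z (n 0 z (n 0 z (n 0 z (n 0 z z)))))))))) (n 243 (n 0 z (n 0 z (n 0 z (n 0 z (n 0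
 z (n 0 z (n 2 (n 2 (n 0 z (n 0 z (n 0 z (n 0 z (n 0 z (n 0 (n 101 z z) z)))))) (n 1 z z)) (n 0
 z (n 0 z (n 0 z z)))))))))) (n 241 (n 0 z (n
 0xec8ec82078608208208208208208208208208208208208208208208208208208208208208618208208200801 z (n
 0 z (n 0 z (n 0 z (n 0 z (n 0 z (n 0 z (n 0 z (n 0 z (n 0 z z))))))))))) (n 241 (n 0 z (n 0 z
 (n 0 z (n 0 z (n 0 z (n 0 z (n 0 z (n 0 z (n 0 z (n 2 z (n 0 z z))))))))))) z)))))) (n 0 (n 0 z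
 (n 249 (n 2 (n 0 z (n 2 (n 0 z (n 0 z (n 0 z (n 0 z (n 0 z (n 0 z z)))))) (n 2 (n 0 z (n 0 z (n
 0 z (n 0 z (n 0 z (n 0 z z)))))) z))) (n 0 z (n 0 z (n 0 z (n 0 z z))))) (n 249 (n 0 z (n 0 z
 (n 0 z (n 0 z (n 0 z z))))) (n 1081 (n 0 z (n 0 z (n 0 z (n 0 z (n 0 z (n 0 z (n 0 z (n 0 z
 z)))))))) (n 1081 (n 0 z (n 0 z (n 0 z (n 0 z (n 0 z (n 0 z (n 0 z (n 0 z z)))))))) z))))) (n 0
 (n 255 (n 0 z (n 0 z (n 0 z (n 2 (n 0 z (n 2 (n 0 z (n 0 z (n 0 z (n 0 z (n 0 z (n 0 z z))))))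
 (n 1 z z))) (n 0 z (n 0 z (n 0 z (n 0 z (n 0 z (n 0 z (n 0 z (n 0 z (n 0 z z))))))))))))) (n
 255 (n 0 z (n 0 z (n 0 z (n 0 z (n 0 z (n 0 z (n 0 z (n 0 z (n 0 z (n 0 z (n 0 z (n 0 z (n 0 z
 z))))))))))))) (n 13 (n 2 (n 0 z z) (n 0 z (n 0 z (n 0 z (n 0 z (n 0 z (n 0 z (n 0 z (n 0 z (n
 0 z z)))))))))) (n 13 (n 0 z (n 0 z (n 0 z (n 0 z (n 0 z (n 0 z (n 0 z (n 0 z (n 0 z (n 0 z
 z)))))))))) z)))) (n 0 (n 0 z (n 1 (n 0 z (n 0 z (n 0 z (n 2 (n 0 z z) (n 0 z (n 0 z (n 0 z (n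
 0 z (n 0 z (n 0 z (n 0 z z))))))))))) (n 1 (n 0 z (n 0 z (n 0 z (n 0 z (n 0 z (n 0 z (n 0 z (n
 0 z (n 0 z (n 2 z (n 0 z z))))))))))) z))) (n 0 (n 25 (n 0 z (n 0 z (n 0 z (n 0 z (n 0 z (n 0 z
 (n 0 z (n 0 z (n 0 z (n 0 z (n 0 z (n 0 z (n 0 z (n 0 z (n 0 z (n 0 z (n 0 z (n 0 z (n 0 z (n 0
 z (n 0 z (n 0 z (n 0 z (n 0 z (n 0 z (n 0 z (n 0 z (n 0 z z)))))))))))))))))))))))))))) (n 25
 (n 0 z (n 0 z (n 0 z (n 0 z (n 0 z (n 0 z (n 0 z (n 0 z (n 0 z (n 0 z (n 0 z (n 0 z (n 0 z (n 0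
 z (n 0 z (n 0 z (n 0 z (n 0 z (n 0 z (n 0 z (n 0 z (n 0 z (n 0 z (n 0 z (n 0 z (n 0 z (n 0 z (n
 0 z z)))))))))))))))))))))))))))) z)) (n 0 (n 0 z z) (n 0 z z)))))))))))) (n 0 (n 1 (n 3278363
 z (n 3278363 z (n 3278363 z (n 3278363 z (n 3278363 z (n 3278363 z z)))))) (n 1 (n 2572 z (n
 2572 z (n 76 z (n 2572 z (n 2572 z (n 2572 z z)))))) (n 1 (n 76 z (n 2572 z (n 2572 z (n 2572 z
 (n 2572 z (n 2572 z z)))))) z))) (n 0 z z)))) (n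
 0x3671519a4e849935e0936f309a4ce6064990142c80f3480 (n 0 (n 401 (n 3282443 z (n 0 z (n 3282443 z
 (n
 0x1d95150c80e06ca8a824077e7b867d7f7d8083867b857f7f7c817d7f837e7f7f80827d80797f7a7f8582807e877e817c808281808280807f7f807e80801009
 z (n 2 z (n 10 z (n 18 z (n 0 z (n 0 z (n 0 z (n
 0xca8a8240380817f808180807f8080808080808080808080808080808080808080808080808080808080808080808080808080808080800809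
 z (n 26 z z)))))))))))) (n 33 (n 0 z (n 0 z (n 0 z (n 0 z (n 3278363 z (n 0 z (n 0 z (n 0 z
 z)))))))) (n 171 (n 0 z (n 0 z (n 34 z (n 0 z (n 0 z (n 0 z (n 3212843 z z))))))) (n 3 (n 0 z
 (n 0 z (n 2164283 z (n 0 z (n 0 z (n 42 z (n 0 z z))))))) (n 1 (n 0 z (n 0 z (n 0 z (n 0 z (n 0
 z (n 0 z (n 0 z (n 0 z (n 0 z (n 0 z (n 0 z (n 2164299 z (n 0 z (n 0 z (n 0 z (n 0 z
 z)))))))))))))))) (n 0 (n 0 z (n 50 z (n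
 0xd46108780807d9a6b8087977b6f8a9d9c8c6a518f75768d8e76b860727286865972929d66956e60b6798d7785709370c37560a1870049
 z (n 0 z (n 0 z (n 0 z (n 58 z (n 2164315 z (n 3282523 z (n
 0xd46308780807d9a6b8087977b6f8a9d9c8c6a518f75768d8e76b860727286865972929d66956e60b6798d7785709370c37560a1870049
 z (n 66 z z))))))))))) z)))))) (n 171 (n 0 (n 0 z (n 0 z (n 0 z (n 795 (n 0 z (n 0 z (n 0 z (n
 0 z (n 0 z (n 0 z (n 0 z (n 0 z (n 0 z (n 0 z (n 0 z (n 0 z z)))))))))))) (n 11 (n 0 z (n 0 z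
 (n 0 z (n 0 z (n 0 z (n 0 z (n 0 z (n 0 z (n 0 z (n 0 z (n 0 z (n 0 z (n 0 z (n 0 z (n 0 z
 z))))))))))))))) (n 337 (n 0 z (n 0 z (n 0 z (n 0 z (n 0 z (n 0 z (n 0 z (n 0 z (n 0 z (n 0 z
 (n 0 z z))))))))))) (n 337 (n 0 z (n 0 z (n 0 z (n 0 z (n 0 z (n 0 z (n 0 z (n 0 z (n 0 z (n 0
 z (n 0 z z))))))))))) (n 337 (n 0 z (n 0 z (n 0 z (n 0 z (n 0 z (n 0 z (n 0 z (n 0 z (n 0 z (n
 7754307 z (n 0 z z))))))))))) z)))))))) (n 0 (n 0 z (n 0 z (n 775 (n 0 z (n 0 z (n 0 z (n 0 z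
 (n 0 z (n 0 z (n 0 z (n 6620987 z (n 0 z (n 0 z (n 0 z (n 0 z (n 0 z (n 0 z (n 0 z (n 0 z (n 0
 z (n 0 z (n 0 z (n 0 z (n 0 z (n 0 z (n 0 z (n 0 z (n 0 z z))))))))))))))))))))))))) (n 247 (n
 0 z (n 0 z (n 0 z (n 0 z (n 0 z (n 0 z (n 6620987 z (n 0 z (n 0 z (n 0 z (n 0 z (n 0 z
 z)))))))))))) (n 253 (n 7745555 z (n 0 z (n 0 z (n 0 z (n 0 z (n 0 z (n 0 z (n 0 z (n 0 z (n 0
 z (n 0 z (n 0 z (n 0 z (n 0 z (n 0 z (n 0 z (n 0 z (n 0 z (n 0 z (n 0 z (n 0 z (n 0 z (n 0 z (n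
 0 z (n 0 z z))))))))))))))))))))))))) (n 253 (n 0 z (n 0 z (n 0 z (n 0 z (n 0 z (n 0 z (n 0 z
 (n 0 z (n 0 z (n 0 z (n 0 z (n 0 z (n 0 z (n 0 z (n 0 z (n 0 z (n 0 z (n 0 z (n 0 z (n 2 (n 0 z
 z) (n 0 z (n 0 z (n 0 z (n 0 z (n 0 z z))))))))))))))))))))))))) (n 253 (n 0 z (n 0 z (n 0 z (n
 0 z (n 0 z (n 0 z (n 0 z (n 0 z (n 0 z (n 0 z (n 0 z (n 0 z (n 0 z (n 0 z (n 0 z (n 0 z (n 0 z
 (n 0 z (n 0 z (n 0 z (n 0 z (n 0 z (n 2 z (n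
 0xec8ec8407838081817e81807d837e84817a7d8680817f827c80807c81807d8381817f81847a857d7f80807c837d7f7e807f81807e80800809
 z (n 0 z z))))))))))))))))))))))))) z))))))) (n 0 (n 0 z (n 343 (n 0 z (n 0 z (n 0 z (n 0 z (n
 2 (n 1 z (n 2 (n 0 z (n 0 z (n 0 z (n 0 z (n 0 (n 8794131 z z) (n 0 z z)))))) (n 1 z (n 2 (n 0
 z (n 0 z (n 0 z (n 0 z (n 0 (n 8868419 z z) (n 0 z z)))))) z)))) (n 0 z (n 0 z (n 0 z (n 0 z (n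
 0 z (n 0 z (n 0 z (n 0 z (n 0 z z)))))))))))))) (n 247 (n 0 z (n 0 z (n 0 z (n 0 z (n 0 z (n 2
 (n 2 (n 0 z (n 0 z (n 0 z (n 0 z (n 0 (n 8794131 z z) (n 0 z z)))))) (n 1 z (n 2 (n 0 z (n 0 z
 (n 0 z (n 0 z (n 0 z (n 0 z z)))))) z))) (n 0 z (n 0 z (n 0 z z))))))))) (n 253 (n 0 z (n 0 z
 (n 0 z (n 0 z (n 0 z (n 0 z (n 0 z (n 0 z (n 0 z (n 0 z (n 0 z z))))))))))) (n 253 (n 0 z (n 0
 z (n 0 z (n 0 z (n 0 z (n 0 z (n 0 z (n 0 z (n 0 z (n 0 z (n 0 z z))))))))))) (n 253 (n 0 z (n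
 0 z (n 0 z (n 0 z (n 0 z (n 0 z (n 0 z (n 0 z (n 0 z (n 2 z (n 0 z z))))))))))) z)))))) (n 0 (n
 727 (n 0 z (n 0 z (n 0 z (n 0 z (n 0 z (n 0 z (n 0 z (n 0 z (n 0 z (n 0 z (n 0 z (n 0 z
 z)))))))))))) (n 201 (n 0 z (n 0 z (n 0 z (n 0 z (n 0 z (n 0 z (n 0 z (n 0 z (n 0 z (n 0 z (n 0
 z (n 0 z (n 0 z (n 0 z (n 0 z (n 0 z (n 0 z z))))))))))))))))) (n 773 (n 0 z (n 0 z (n 0 z (n 2
 (n 0 z (n 0 z z)) (n 0 z (n 0 z (n 0 z (n 0 z (n 0 z (n 0 z (n 0 z (n 0 z z)))))))))))) (n 773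
 (n 0 z (n 0 z (n 2 (n 0 z z) (n 0 z (n 0 z (n 0 z (n 0 z (n 0 z (n 0 z (n 0 z (n 0 z (n 0 z
 z)))))))))))) (n 773 (n 0 z (n 0 z (n 0 z (n 0 z (n 0 z (n 0 z (n 0 z (n 0 z (n 0 z (n 0 z (n 0
 z (n 0 z z)))))))))))) z))))) (n 0 (n 247 (n 0 z (n 0 z (n 0 z (n 0 z (n 0 z (n 0 z (n 0 z
 z))))))) (n 337 (n 0 z (n 2 (n 0 z (n 0 z z)) (n 0 z (n 0 z (n 0 z (n 0 z (n 0 z (n 0 z (n 0 z
 (n 0 z (n 0 z (n 0 z z)))))))))))) (n 337 (n 0 z (n 0 z (n 0 z (n 0 z (n 0 z (n 0 z (n 0 z (n 0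
 z (n 0 z (n 0 z (n 0 z (n 0 z z)))))))))))) (n 337 (n 0 z (n 0 z (n 0 z (n 0 z (n 0 z (n 0 z (n
 0 z (n 0 z (n 0 z (n 0 z (n 0 z (n 7754307 z z)))))))))))) z)))) (n 0 (n 1 (n 0 z (n 0 z (n 2
 (n 0 z (n 0 z z)) (n 0 z (n 0 z (n 0 z (n 0 z (n 0 z (n 0 z (n 0 z (n 0 z (n 0 z (n 0 z (n 0 z
 z)))))))))))))) (n 1 (n 0 z (n 0 z (n 0 z (n 0 z (n 0 z (n 0 z (n 0 z (n 0 z (n 0 z (n 0 z (n 0
 z (n 0 z (n 0 z (n 0 z z)))))))))))))) (n 1 (n 0 z (n 0 z (n 0 z (n 0 z (n 0 z (n 0 z (n 0 z (n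
 0 z (n 0 z (n 0 z (n 0 z (n 0 z (n 0 z (n 7754307 z z)))))))))))))) z))) (n 0 (n 0 z (n 0 z z))
 (n 0 (n 0 z z) (n 0 z z))))))))) (n 0 (n 0 z (n 0 z (n 1 (n 3212 z (n 268 z (n 5447779 z (n
 5375547 z (n 3212 z (n 4400731 z z)))))) (n 0 z (n 0 z (n 0 z (n 1 (n 3212843 z (n 3212843 z (n
 3212843 z (n 3212843 z (n 3212843 z (n 3212843 z z)))))) z))))))) (n 0 z z)))) (n
 0x1a126cd0128ea264620a231610e26044d502334209 (n 0 (n 443 (n 0 z (n 3282443 z (n 0 z (n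
 0xca8a824038207e08208208207e28207e08208218208208227a182081e89e8608208208218208208208200801 z (n
 0 z (n 0 z (n 0 z z))))))) (n 437 (n 2 z (n 4392475 z (n 0 z (n 0 z (n 3278363 z (n 0 z (n 0 z
 (n 0 z (n 0 z (n 10 z (n 0 z (n 18 z (n 26 z z))))))))))))) (n 131 (n
 0x594594100e0b29288201c165465410388ca8ca80078a18218227e082086089f7608e07df8207df7df89f85d89e8217e17628608a18627e086181f2001
 z (n 0 z (n 0 z (n 0 z (n 34 z (n 0 z (n 0 z (n 42 z (n 50 z (n 4392491 z (n 3212843 z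
 z))))))))))) (n 3 (n 0 z (n
 0xca8a824038207e08208208207e28207e08208218208208227a182081e89e8608208208218208208208200801 z (n
 0 z (n 2164283 z (n 0 z (n 0 z (n 0 z z))))))) (n 1 (n 0 z (n 0 z (n 0 z (n 0 z (n 0 z (n 0 z
 (n 2164299 z (n 0 z z)))))))) (n 0 (n 0 z (n 0 z (n 0 z (n 0 z (n 0 z (n 0 z (n 0 z (n 0 z (n 0
 z (n 0 z (n 58 z (n 0 z (n 0 z (n 2164315 z z)))))))))))))) z)))))) (n 443 (n 0 (n 0 z (n 0 z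
 (n 0 z (n 867 (n 0 z (n 0 z (n 0 z (n 0 z (n 0 z (n 0 z (n 0 z z))))))) (n 867 (n 0 z (n
 7754307 z (n 0 z (n 0 z (n 0 z (n 0 z (n 0 z z))))))) (n 867 (n 0 z (n 0 z (n 0 z (n 0 z (n 0 z
 (n 0 z (n 0 z z))))))) (n 1 (n 0 z (n 0 z (n 0 z (n 0 z (n 0 z (n 0 z (n 0 z (n 0 z (n 0 z (n 0
 z (n 0 z z))))))))))) z))))))) (n 0 (n 0 z (n 0 z (n 867 (n 0 z (n 7737395 z (n 0 z (n 0 z (n 0
 z (n 0 z (n 0 z (n 0 z (n 0 z (n 0 z (n 0 z (n 0 z (n 0 z (n 0 z (n 0 z (n 0 z (n 0 z (n 0 z (n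
 0 z (n 0 z (n 0 z (n 0 z (n 0 z (n 0 z (n 0 z (n 0 z (n 0 z (n 0 z (n 0 z (n 0 z
 z)))))))))))))))))))))))))))))) (n 867 (n 0 z (n 0 z (n 0 z (n
 0x176476400382ea8ec600781f8218a189f89e7df8e066181f7e47e17df8228637df89e7a17e389f7a079f82189f85d8e11001
 z (n 2 (n 0 z (n 2 (n 0 z (n 0 z (n 0 z (n 0 z (n 0 z (n 0 z z)))))) z)) (n 0 z (n 0 z (n 0 z
 (n 0 z (n 0 z (n 0 z (n 0 z (n 0 z (n 0 z (n 0 z (n 0 z (n 0 z (n 0 z (n 0 z (n 0 z (n 0 z (n 0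
 z (n 0 z (n 0 z (n 0 z (n 0 z (n 0 z (n 0 z (n 0 z (n 0 z z)))))))))))))))))))))))))))))) (n
 867 (n 0 z (n 0 z (n 0 z (n 0 z (n 0 z (n 0 z (n 0 z (n 0 z (n 0 z (n 0 z (n 0 z (n 0 z (n 0 z
 (n 0 z (n 0 z (n 0 z (n 0 z (n 0 z (n 0 z (n 0 z (n 2 (n 1 z z) (n 0 z (n 0 z (n 0 z (n 0 z (n
 0 z (n 0 z (n 0 z (n 0 z (n 0 z z)))))))))))))))))))))))))))))) (n 49 (n 0 z (n 0 z (n 0 z (n 0
 z (n 0 z (n 0 z (n 0 z (n 0 z (n 0 z (n 0 z (n 0 z (n 0 z (n 0 z (n 0 z (n 0 z (n 0 z (n 0 z (n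
 0 z (n 0 z (n 0 z (n 0 z (n 0 z (n 0 z (n 0 z (n 0 z (n 0 z (n 0 z (n 6428427 z (n 0 z (n 0 z
 z)))))))))))))))))))))))))))))) z)))))) (n 0 (n 0 z (n 795 (n 0 z (n 2 (n 0 z (n 0 z (n 1 z
 z))) (n 0 z (n 0 z (n 0 z (n 0 z (n 0 z (n 0 z z)))))))) (n 795 (n 0 z (n 0 z (n 0 z (n 0 z (n
 0 z (n 0 z (n 0 z (n 0 z z)))))))) (n 795 (n 0 z (n 0 z (n 0 z (n 0 z (n 2 (n 1 z z) (n 0 z (n
 0 z (n 0 z z)))))))) (n 361 (n 0 z (n 0 z (n 0 z (n 0 z (n 0 z (n 0 z (n 0 z (n 0 z (n 0 z (n 0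
 z (n 0 z (n 0 z z)))))))))))) z))))) (n 0 (n 879 (n 0 z (n 0 z (n 0 z (n 0 z (n 0 z (n 0 z (n 0
 z z))))))) (n 879 (n 0 z (n 2 (n 0 z (n 1 z z)) (n 0 z (n 0 z (n 0 z (n 0 z (n 0 z z))))))) (n
 879 (n 0 z (n 0 z (n 0 z (n 0 z (n 0 z (n 0 z (n 0 z z))))))) (n 865 (n 2 z (n 0 z (n 0 z (n 0
 z (n 0 z (n 0 z (n 0 z (n 0 z (n 0 z (n 0 z z)))))))))) z)))) (n 0 (n 0 z (n 0 z (n 253 (n 0 z
 (n 0 z (n 0 z (n 0 z (n 0 z (n 0 z (n 0 z (n 0 z (n 0 z (n 0 z (n 0 z (n 0 z (n 0 z (n 0 z (n 2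
 z (n 0 z (n 0 z (n 0 z z)))))))))))))))))) z))) (n 0 (n 0 z (n 17 (n 0 z (n 0 z (n 0 z (n 0 z
 (n 0 z (n 0 z (n 7754307 z z))))))) z)) (n 0 (n 1 (n 0 z (n 0 z (n 0 z (n 0 z (n 0 z (n 0 z (n
 0 z (n 0 z (n 0 z (n 0 z (n 0 z (n 0 z z)))))))))))) z) (n 0 z z)))))))) (n 0 (n 0 z (n 1 (n
 3282443 z (n 3282443 z (n 3282443 z (n 3282443 z (n 3282443 z (n 3282443 z z)))))) (n 0 z (n 1
 (n 3500 z (n 3500 z (n 3500 z (n 3500 z (n 3500 z (n 3500 z z)))))) (n 0 z (n 0 z (n 0 z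
 z))))))) (n 0 z z)))) (n 0x811261444cb1a2658c0a2910256330869502322209 (n 0 (n 477 (n 0 z (n
 3282443 z (n 0 z z))) (n 475 (n 2 z (n 4392475 z (n 0 z (n 3278363 z (n 0 z (n 10 z (n 18 z
 z))))))) (n 476 (n 0 z (n 26 z (n 0 z (n 4392491 z (n 3212843 z (n 0 z (n 0 z (n 0 z (n 0 z (n
 0 z (n 0 z (n 0 z (n 0 z (n 0 z (n 0 z (n 0 z (n 0 z (n 0 z (n 0 z (n 0 z (n 34 z (n
 0x6ca4a208078227e07e38217e07e086081e89e82182076085f7e385f85e85c86085f85f9227de7a181e7e00801 z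
 (n 0 z (n 0 z (n 0 z (n 0 z (n 42 z (n 50 z (n 0 z (n 0 z z)))))))))))))))))))))))))))))) (n 3
 (n 2164283 z (n 0 z (n 0 z z))) (n 1 (n 0 z (n 0 z (n 0 z (n 58 z (n 0 z (n 2164299 z (n 0 z
 z))))))) (n 0 (n 0 z (n 2164315 z (n 0 z z))) z)))))) (n 477 (n 0 (n 0 z (n 0 z (n 933 (n 0 z
 (n 0 z (n 0 z (n 0 z (n 0 z (n 0 z (n 0 z z))))))) (n 933 (n 0 z (n 0 z (n 0 z (n 0 z (n 0 z (n
 0 z (n 0 z z))))))) (n 933 (n 0 z (n 0 z (n 0 z (n 0 z (n 0 z (n 2 (n 0 z (n 1 z z)) (n 0 z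
 z))))))) (n 933 (n 0 z (n 0 z (n 0 z (n 0 z (n 0 z (n 0 z (n 2 (n 1 z z) z))))))) (n 243 (n 0 z
 (n 0 z (n 0 z (n 0 z (n 0 z (n 0 z (n 0 z (n 0 z (n 0 z (n 0 z (n 0 z z))))))))))) z))))))) (n
 0 (n 0 z (n 411 (n 0 z (n 0 z (n 0 z (n 0 z (n 7749939 z (n 0 z (n 0 z (n 0 z (n 0 z (n 0 z (n
 0 z z))))))))))) (n 411 (n 0 z (n 0 z (n 0 z (n 0 z (n 0 z (n 0 z (n 0 z (n 0 z (n 2 (n 0 z (n
 0 z (n 1 z z))) (n 0 z (n 0 z z))))))))))) (n 411 (n 0 z (n 0 z (n 0 z (n 0 z (n 0 z (n 0 z (n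
 0 z (n 0 z (n 0 z (n
 0xecaeca00782186082089f8207de8608208207df86086082086082086282085f7df8207e18208208207df0801 z (n
 0 z z))))))))))) (n 411 (n
 0x6ea4ca08038208228607a08a18208618207208a481f7dc8a27e08207de8207a391c8207a17dd79e7a08200801 z
 (n 0 z (n 0 z (n 0 z (n 0 z (n 0 z (n 0 z (n 0 z (n 0 z (n 0 z (n 0 z z))))))))))) (n 51 (n 0 z
 (n 0 z (n 0 z (n 0 z (n 7749939 z (n 0 z (n 0 z z))))))) z)))))) (n 0 (n 953 (n 0 z (n 0 z (n 0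
 z (n 0 z (n 0 z (n 0 z (n 0 z z))))))) (n 953 (n 0 z (n 0 z (n 0 z (n 0 z (n 0 z (n 0 z (n 0 z
 z))))))) (n 953 (n 0 z (n 0 z (n 0 z (n 0 z (n 0 z (n 7741523 z (n 0 z z))))))) (n 953 (n 0 z
 (n 0 z (n 0 z (n 0 z (n 0 z (n 0 z (n 2 (n 1 z z) z))))))) (n 63 (n 0 z (n 0 z (n 0 z (n 0 z (n
 0 z (n 0 z (n 0 z (n 0 z (n 0 z (n 0 z (n 0 z (n 0 z (n 0 z (n 0 z (n 0 z (n 0 z (n 0 z (n 0 z
 (n 0 z (n 0 z (n 0 z (n 0 z (n 0 z (n 0 z (n 2 z (n 0 z (n 0 z (n 0 z (n 0 z (n 0 z (n 0 z (n 0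
 z z)))))))))))))))))))))))))))))))) z))))) (n 0 (n 0 z (n 0 z (n 0 z (n 531 (n 0 z (n 0 z (n 0
 z (n 0 z (n 0 z (n 0 z (n 0 z (n 0 z (n 0 z (n 0 z (n 0 z (n 0 z z)))))))))))) z)))) (n 0 (n 0
 z (n 0 z (n 255 (n 0 z (n 0 z (n 0 z (n 0 z (n 0 z (n 0 z (n 2 z (n 0 z (n 0 z (n 0 z
 z)))))))))) z))) (n 0 (n 0 z (n 255 (n 0 z (n 0 z (n 0 z (n 0 z (n 0 z (n 0 z (n 0 z (n 0 z (n
 0 z (n 0 z (n 0 z (n 6428427 z (n 0 z z))))))))))))) z)) (n 0 (n 857 (n 0 z (n 0 z (n 0 z (n 0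
 z (n 0 z (n 0 z (n 0 z (n 0 z (n 0 z (n 0 z (n 0 z z))))))))))) z) (n 0 z z)))))))) (n 0 (n 0 z
 (n 1 (n 3282443 z (n 3282443 z (n 3282443 z (n 3282443 z (n 3282443 z (n 3282443 z z)))))) (n 0
 z z))) (n 0 z z)))) (n 0 (n 0 (n 333 (n 0 z (n 6623267 z (n 0 z (n 0 z (n 0 z (n 0 z (n 0 z (n
 0 z (n 0 z z))))))))) (n 317 (n 6623267 z (n 0 z (n 0 z (n 0 z (n 0 z (n 0 z (n 0 z (n 0 z (n 0
 z (n 0 z z)))))))))) (n 9 (n 0 z (n 6566403 z (n 0 z (n 0 z (n 0 z (n 0 z (n 0 z (n 0 z (n 0 z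
 z))))))))) (n 316 (n 0 z (n 6566403 z (n 0 z (n 0 z (n 0 z (n 0 z z)))))) (n 1 (n 6566403 z (n
 0 z (n 0 z (n 0 z (n 0 z (n 0 z (n 0 z (n 0 z (n 0 z (n 0 z z)))))))))) (n 0 (n 0 z (n 6623267
 z (n 0 z (n 0 z (n 0 z (n 0 z z)))))) z)))))) (n 316 z (n 0 (n 0 z (n 1 (n 6566403 z (n 6566403
 z (n 6566403 z (n 6566403 z (n 6566403 z (n 6566403 z z)))))) (n 0 z (n 0 z (n 0 z (n 0 z
 z)))))) (n 0 z z)))) (n 0x1ab46b4194c915c649ac0 (n 0 (n 407 (n 6561843 z (n 0 z (n 2 z (n 0 z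
 (n 0 z (n 0 z z)))))) (n 33 (n 0 z (n 0 z (n 0 z (n 0 z (n 0 z (n 0 z (n 6631747 z (n 0 z (n 0
 z z))))))))) (n 129 (n 0 z (n 0 z (n 0 z (n 6562587 z (n 0 z (n 0 z (n 0 z (n 6561843 z
 z)))))))) (n 3 (n 10 z (n 6631747 z (n 18 z (n 0 z (n 0 z (n 0 z (n 6631747 z z))))))) (n 1 (n
 0 z (n 0 z (n 6561843 z (n 0 z z)))) (n 0 (n 0 z (n 6631747 z (n 0 z (n 0 z (n 0 z (n 26 z (n 0
 z z))))))) z)))))) (n 1 (n 0 (n 181 (n 0 z (n 0 z (n 0 z (n 0 z (n 0 z (n 0 z (n 0 z z)))))))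
 (n 181 (n 0 z (n 7684963 z (n 0 z (n 0 z (n 0 z (n 0 z (n 0 z z))))))) (n 121 (n 0 z (n 2 z (n
 0 z (n 0 z (n 0 z (n 0 z (n 0 z z))))))) z))) (n 0 (n 0 z (n 1 (n 0 z (n 0 z (n 0 z (n 0 z (n 0
 z (n 0 z z)))))) z)) (n 0 (n 253 (n 0 z (n 0 z (n 0 z (n 0 z (n 0 z (n 0 z (n 0 z z))))))) z)
 (n 0 z z)))) (n 0 (n 0 z (n 0 z (n 1 (n 6561843 z (n 6561843 z (n 6561843 z (n 6561843 z (n
 6561843 z (n 6561843 z z)))))) (n 0 z z)))) (n 0 z z)))) (n 0 (n 0 (n 323 (n 3282443 z (n 0 z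
 (n 0 z z))) (n 255 (n 0 z (n 6496515 z (n 0 z (n 0 z (n 0 z (n 0 z (n 0 z (n 0 z z)))))))) (n 9
 (n 0 z (n 6496515 z (n 0 z (n 0 z z)))) (n 27 (n 0 z (n 0 z (n 0 z (n 0 z (n 6496515 z (n 0 z
 (n 0 z (n 0 z (n 0 z (n 0 z (n 0 z (n 0 z (n 6496515 z z))))))))))))) (n 1 (n 0 z (n 0 z (n 0 z
 (n 2164299 z (n 0 z z))))) (n 0 (n 0 z (n 6631955 z (n 0 z (n 0 z (n 0 z (n 0 z (n 0 z (n 0 z
 (n 0 z (n 0 z (n 0 z z))))))))))) z)))))) (n 323 z (n 0 (n 1 (n 6496515 z (n 3282443 z (n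
 3282443 z (n 3282443 z (n 3282443 z (n 3282443 z z)))))) (n 0 z (n 0 z z))) (n 0 z z)))) (n
 0xf5b2831a35a10b74c609 (n 0 (n 179 (n 0 z (n 6627379 z (n 0 z (n 0 z (n 0 z z))))) (n 33 (n 0 z
 (n 3278363 z (n 0 z (n 2 z (n 0 z z))))) (n 129 (n 6628123 z (n 0 z (n 0 z (n 6636051 z (n 0 z
 (n 0 z z)))))) (n 3 (n 10 z (n 6493483 z (n 0 z (n 0 z (n 0 z z))))) (n 1 (n 0 z (n 0 z (n
 6636051 z (n 0 z (n 0 z z))))) (n 0 (n 18 z (n 0 z (n 26 z (n 6636051 z (n 0 z (n 6628123 z (n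
 0 z (n 0 z z)))))))) z)))))) (n 179 (n 0 (n 7 (n 2 (n 1 z (n 1 z z)) (n 0 z (n 0 z (n 0 z (n 0
 z (n 0 z (n 0 z z))))))) (n 5 (n 0 z (n 0 z (n 0 z (n 0 z (n 0 z (n 0 z z)))))) (n 5 (n 0 z (n
 0 z (n 0 z (n 0 z (n 0 z (n 0 z z)))))) z))) (n 0 (n 253 (n 0 z (n 0 z (n 0 z (n 0 z (n 0 z (n
 0 z (n 0 z (n 0 z (n 0 z (n 0 z (n 0 z (n 0 z z)))))))))))) (n 253 (n 0 z (n 2 z (n 0 z (n 0 z
 (n 0 z (n 0 z (n 0 z (n 0 z (n 0 z (n 0 z (n 0 z (n 0 z z)))))))))))) z)) (n 0 (n 0 z z) (n 0 z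
 z)))) (n 0 (n 0 z (n 1 (n 6627379 z (n 6627379 z (n 6627379 z (n 6627379 z (n 6627379 z (n
 6627379 z z)))))) (n 0 z (n 0 z (n 0 z z))))) (n 0 z z)))) z)))))))))), by decide +kernel⟩
theorem i10961 : ∃ t, chkR KT RW t 10961 10971 = true := ⟨(n 0x6749703a4860d33 (n 0 (n 521 (n
 3282443 z (n 0 z z)) (n 435 (n 0 z (n 0 z (n 3278363 z (n 0 z (n 0 z (n 0 z (n 0 z (n 0 z
 z)))))))) (n 517 (n 0 z (n 0 z (n 0 z (n 6631955 z (n 0 z (n 0 z (n 0 z z))))))) (n 3 (n 0 z (n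
 2 z (n 0 z (n 0 z (n 6631955 z (n 0 z (n 0 z (n 0 z (n 0 z (n 0 z z)))))))))) (n 1 (n 0 z (n 0
 z (n 6636323 z (n 0 z (n 0 z (n 10 z (n 0 z z))))))) (n 0 (n 0 z (n 0 z (n 18 z (n 6631955 z (n
 0 z (n 0 z (n 0 z (n 0 z (n 0 z (n 0 z (n 0 z (n 0 z (n 0 z z))))))))))))) z)))))) (n 521 (n 0
 (n 9 (n 0 z (n 0 z (n 0 z (n 0 z (n 0 z (n 0 z (n 0 z z))))))) (n 5 (n 0 z (n 0 z (n 0 z (n 0 z
 z)))) z)) (n 0 (n 1 (n 0 z (n 0 z (n 0 z (n 0 z (n 0 z (n 0 z (n 0 z (n 0 z (n 0 z (n 0 z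
 z)))))))))) z) (n 0 z z))) (n 0 (n 1 (n 3282443 z (n 3282443 z (n 3282443 z (n 3282443 z (n
 3282443 z (n 3282443 z z)))))) (n 0 z z)) (n 0 z z)))) (n 0x2a0626a048b (n 0 (n 333 (n 0 z (n
 3282443 z (n 0 z (n 0 z (n 0 z (n 0 z (n 0 z z))))))) (n 317 (n 3278363 z (n 0 z (n 0 z (n 0 z
 (n 0 z z))))) (n 9 (n 0 z (n 6566483 z (n 0 z (n 0 z (n 0 z (n 0 z (n 0 z (n 0 z z)))))))) (n
 253 (n 2 z (n 0 z (n 6566483 z (n 10 z (n 0 z (n 0 z (n 0 z (n 0 z z)))))))) (n 1 (n 6566483 z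
 (n 0 z (n 0 z (n 0 z (n 0 z z))))) (n 0 (n 0 z (n 2164315 z (n 0 z (n 0 z (n 0 z (n 0 z (n 0 z
 (n 0 z (n 0 z (n 0 z z)))))))))) z)))))) (n 317 (n 0 (n 0 z z) (n 0 z z)) (n 0 (n 1 (n 3278363
 z (n 3278363 z (n 3278363 z (n 3278363 z (n 3278363 z (n 3278363 z z)))))) (n 0 z (n 0 z (n 0 z
 (n 0 z z))))) (n 0 z z)))) (n 0x863558ba48e18c0 (n 0 (n 279 (n 2 z (n 0 z (n 6557731 z (n 0 z
 (n 0 z (n 0 z (n 0 z z))))))) (n 383 (n 0 z (n 6557731 z (n 0 z (n 0 z z)))) (n 11 (n 0 z (n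
 6497307 z (n 0 z z))) (n 3 (n 0 z (n 6497307 z (n 0 z (n 0 z (n 0 z (n 0 z z)))))) (n 1 (n 0 z
 (n 0 z (n 0 z (n 10 z (n 0 z (n 0 z (n 0 z (n
 0x12d6107781897f7f7f8482957b758667a07a8b969d6f6f5f768756b4837c7a8d758d947f9489b681956e5d6484797d783dbe996b7f0049
 z (n 0 z (n 6557731 z z)))))))))) (n 0 (n 0 z (n 0 z (n 0 z (n 18 z (n 0 z (n 2164315 z (n 0 z
 z))))))) z)))))) (n 11 (n 0 (n 133 (n 0 z (n 0 z (n 0 z (n 0 z (n 0 z (n 0 z (n 0 z (n 0 z (n 0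
 z (n 2 (n 1 z z) z)))))))))) (n 101 (n 0 z (n 0 z (n 0 z (n 0 z z)))) z)) (n 0 (n 1 (n 0 z (n 0
 z (n 0 z (n 0 z z)))) z) (n 0 z z))) (n 0 (n 0 z (n 1 (n 6497307 z (n 6497307 z (n 6557731 z (n
 6497307 z (n 6497307 z (n 6497307 z z)))))) (n 0 z z))) (n 0 z z)))) (n
 0x2c31d06346da0c6ea10b6c868b (n 0 (n 177 (n 0 z (n 0 z (n 6623299 z (n 0 z z)))) (n 33 (n 0 z
 (n 0 z (n 0 z (n
 0x14ca8ca86077c7c877f898a98719e7b8579946c96644788816f9a70c34d919083af878a8064586a77a54d9371837b80827f966e8f8c92830809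
 z (n 0 z (n 0 z (n 0 z (n 6623299 z (n 0 z (n 0 z z)))))))))) (n 129 (n 0 z (n 0 z (n 0 z (n
 3212843 z (n 0 z (n 0 z (n 0 z (n 0 z (n 0 z (n 0 z (n 0 z z))))))))))) (n 3 (n 2 z (n 0 z (n 0
 z (n 10 z (n 18 z (n 2164283 z (n 0 z z))))))) (n 1 (n 0 z (n 2164299 z (n 0 z z))) (n 0 (n 26
 z (n 0 z (n 6623299 z (n 0 z (n 0 z (n 34 z (n 0 z (n 0 z z)))))))) z)))))) (n 1 (n 0 (n 0 z (n
 0 z (n 97 (n 0 z (n 0 z (n 0 z (n 0 z (n 0 z (n 0 z (n 0 z (n 0 z (n 0 z (n 0 z z)))))))))) (n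
 97 (n 0 z (n 0 z (n 0 z (n 0 z (n 0 z (n 0 z (n 0 z (n 0 z (n 0 z (n 0 z z)))))))))) z)))) (n 0
 (n 0 z (n 253 (n 0 z (n 0 z (n 0 z (n 0 z (n 0 z (n 0 z (n 0 z (n 0 z (n 0 z (n 0 z (n 0 z (n 0
 z z)))))))))))) (n 253 (n 0 z (n 0 z (n 0 z (n 0 z (n 0 z (n 0 z (n 0 z (n 0 z (n 0 z (n 0 z (n
 0 z (n 0 z z)))))))))))) z))) (n 0 (n 49 (n 0 z (n 0 z (n 0 z (n 0 z (n 0 z (n 0 z z)))))) (n
 49 (n 0 z (n 0 z (n 0 z (n 0 z (n 0 z (n 0 z z)))))) z)) (n 0 (n 0 z z) (n 0 z z))))) (n 0 (n 0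
 z (n 1 (n 2164299 z (n 2164299 z (n 6623299 z (n 2164299 z (n 2164299 z (n 2164299 z z)))))) (n
 0 z z))) (n 0 z z)))) (n 0x18535c650b956416b6a432d1211 (n 0 (n 573 (n 6627379 z (n 0 z (n 0 z
 (n 0 z (n 0 z z))))) (n 574 (n 3278363 z (n 2 z (n 0 z (n 10 z (n 0 z (n 0 z z)))))) (n 572 (n
 0 z (n 0 z (n 6627379 z (n 0 z (n 0 z (n 0 z (n 18 z (n 0 z (n 0 z (n 0 z (n 0 z (n 0 z (n 0 z
 (n 0 z (n 0 z (n 0 z (n 0 z (n 0 z (n 0 z (n 26 z z)))))))))))))))))))) (n 27 (n 0 z (n 0 z (n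
 2164283 z (n 0 z (n 0 z (n 0 z (n 0 z (n 0 z z)))))))) (n 1 (n 6554139 z (n 0 z (n 0 z (n 0 z
 (n 34 z (n 0 z z)))))) (n 0 (n 0 z (n 0 z (n 6627379 z (n 0 z (n 0 z (n 0 z (n 0 z (n 0 z
 z)))))))) z)))))) (n 573 (n 0 (n 0 z (n 885 (n 0 z (n 0 z (n 0 z (n 0 z (n 2 (n 0 z (n 1 z z))
 (n 0 z (n 0 z z))))))) (n 885 (n 0 z (n 0 z (n 0 z (n 0 z (n 0 z (n 0 z (n 0 z z))))))) (n 531
 (n 0 z (n 0 z (n 0 z (n 0 z (n 0 z (n 0 z (n 0 z (n 0 z (n 2 z z))))))))) z)))) (n 0 (n 1141 (n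
 0 z (n 0 z (n 0 z (n 0 z (n 0 z (n 0 z (n 2 (n 0 z (n 1 z z)) z))))))) (n 1141 (n 0 z (n 0 z (n
 0 z (n 0 z (n 0 z (n 0 z (n 0 z z))))))) (n 483 (n 0 z (n 0 z (n 0 z (n 0 z (n 0 z (n 0 z (n 0
 z z))))))) z))) (n 0 (n 0 z (n 543 (n 0 z (n 0 z (n 0 z (n 0 z (n 0 z (n 0 z z)))))) z)) (n 0
 (n 255 (n 0 z (n 0 z (n 0 z (n 0 z (n 0 z (n 0 z (n 0 z (n 0 z (n 0 z z))))))))) z) (n 0 z
 z))))) (n 0 (n 1 (n 6627379 z (n 6627379 z (n 6627379 z (n 6627379 z (n 6627379 z (n 6627379 z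
 z)))))) (n 0 z (n 0 z (n 0 z (n 0 z z))))) (n 0 z z)))) (n 0x4acca1daad (n 0 (n 519 (n 0 z (n 0
 z (n 0 z (n 0 z (n 3282443 z (n 0 z (n 0 z (n 0 z (n 0 z (n 0 z z)))))))))) (n 261 (n 3278363 z
 (n 0 z (n 0 z (n 0 z (n 0 z (n 0 z (n 0 z (n 0 z (n 0 z z))))))))) (n 517 (n 0 z (n 3212843 z
 (n 0 z (n 0 z (n 0 z (n 0 z (n 0 z (n 0 z (n 0 z (n 0 z (n 0 z z))))))))))) (n 29 (n 2164283 z
 (n 0 z (n 0 z (n 0 z (n 0 z (n 0 z z)))))) (n 1 (n 0 z (n 0 z (n 0 z (n 0 z (n 0 z (n 0 z (n 0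
 z (n 0 z (n 2164299 z (n 0 z (n 0 z (n 0 z (n 0 z z))))))))))))) (n 0 (n 0 z (n 2 z (n 0 z (n
 10 z (n 0 z (n 0 z (n 2164315 z z))))))) z)))))) (n 29 (n 0 (n 0 z z) (n 0 z z)) (n 0 (n 1 (n
 2164283 z (n 2164283 z (n 2164283 z (n 2164283 z (n 2164283 z (n 2164283 z z)))))) (n 0 z (n 0
 z (n 0 z (n 0 z (n 0 z z)))))) (n 0 z z)))) (n 0 (n 0 (n 177 (n 0 z (n 0 z (n 3282443 z (n 0 z
 (n 0 z (n 0 z (n 0 z z))))))) (n 33 (n 0 z (n 0 z (n 0 z (n 0 z (n 0 z (n 0 z (n 0 z (n 0 z (n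
 0 z (n 0 z (n 0 z (n 0 z (n 0 z (n 0 z (n 6558475 z (n 0 z (n 0 z (n 0 z z)))))))))))))))))) (n
 129 (n 0 z (n 0 z (n 0 z (n 0 z (n 0 z (n 0 z (n 0 z (n 3212843 z (n 0 z z))))))))) (n 3 (n
 2164283 z (n 0 z (n 0 z (n 0 z (n 0 z (n 0 z z)))))) (n 1 (n 6558475 z (n 0 z (n 0 z (n 0 z (n
 0 z (n 0 z (n 0 z (n 0 z z)))))))) (n 0 (n 0 z (n 0 z (n 6619675 z (n 0 z (n 0 z (n 0 z (n 0 z
 (n 0 z (n 0 z (n 0 z (n 0 z z))))))))))) z)))))) (n 3 z (n 0 (n 1 (n 2164283 z (n 6558475 z (n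
 2164283 z (n 2164283 z (n 2164283 z (n 2164283 z z)))))) (n 0 z (n 0 z (n 0 z (n 0 z (n 0 z
 z)))))) (n 0 z z)))) (n
 0x3554a116e5a1552205b92b1546906e34887156828a441355aa8048b605d55023288122280 (n 0 (n 573 (n 2 z
 (n 0 z (n 10 z (n 3282443 z (n 18 z (n 26 z (n 34 z (n
 0xa90b28200c2594d50480614ca4ca42076a97799c769da27c6e898f787f6070789a7b8465a168857486aa8194687d88ae8c64837fa07d887f2d93648bae748c7192811809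
 z (n 0 z (n
 0x2c6327f8082837f80827f7f80807f807e807f80807d807f7f7f807f8080807f7f817f817f7e80818281817f7f827f7f81817f7f800049
 z (n 0 z (n
 0xcca4ca4203876884778f667f8d8188828a80806a9388727f97888b81907c7c8f73848f7a816f8b6c71a3785a917f6e9a886f5f78aa87600809
 z (n 0 z z))))))))))))) (n 574 (n 0 z (n 3278363 z (n 0 z (n 0 z (n 0 z (n 0 z (n 0 z (n 0 z (n
 0 z (n 0 z z)))))))))) (n 572 (n 3212843 z (n 0 z (n 42 z (n 50 z (n 58 z (n 0 z (n 0 z (n 0 z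
 (n 0 z z))))))))) (n 3 (n 66 z (n 0 z (n 0 z (n 6566411 z (n 0 z (n 0 z (n
 0x299455008060eca8a840077984858a7f8296857981907f77767383967a7f7b8f7d79877e8d8c857786848c806b8481917b7a7f6c7f8a86947f858086841009
 z (n 6566411 z (n 74 z z))))))))) (n 1 (n 0 z (n 82 z (n 6566411 z (n 0 z (n 0 z (n 90 z
 z)))))) (n 0 (n 98 z (n 2164315 z (n 0 z (n 0 z (n 106 z (n 0 z (n 0 z z))))))) z)))))) (n 1 (n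
 0 (n 0 z (n 0 z (n 0 z (n 0 z (n 1141 (n 0 z (n 0 z (n 0 z (n 0 z (n 0 z (n 0 z (n 0 z (n 0 z
 (n 0 z (n 0 z (n 0 z (n 0 z z)))))))))))) (n 1141 (n 0 z (n 0 z (n 0 z (n 0 z (n 0 z (n 0 z (n
 0 z (n 0 z (n 0 z (n 0 z (n 0 z (n 0 z z)))))))))))) (n 1141 (n 0 z (n 0 z (n 7742795 z (n 0 z
 (n 0 z (n 0 z (n 0 z (n 0 z (n 0 z (n 0 z (n 0 z (n 0 z z)))))))))))) (n 55 (n 0 z (n 0 z (n 0
 z (n 0 z (n 0 z (n 0 z (n 0 z z))))))) (n 55 (n 0 z (n 0 z (n 0 z (n 0 z (n 0 z (n 0 z (n 0 z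
 z))))))) (n 51 (n 2 (n 0 z (n 2 (n 0 z (n 0 z (n 0 z (n 0 z (n 0 z (n 0 z z)))))) (n 2 (n 0 z
 (n 0 z (n 0 z (n 0 z (n 0 z (n 0 z z)))))) z))) (n 0 z (n 0 z (n 0 z (n 0 z (n 0 z (n 0 z (n 0
 z (n 0 z (n 0 z (n 0 z z))))))))))) (n 51 (n 0 z (n 0 z (n 0 z (n
 0x12ecaea24037886798c7a8e7d76848083857e6f7b7e897a867e797b7f7d808581817d7d838387838385848986836f8371798675837982830809
 z (n 0 z (n 0 z (n 0 z (n 0 z (n 0 z (n 0 z (n 0 z z))))))))))) (n 49 (n 0 z (n 0 z (n 0 z (n 0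
 z (n 0 z (n 0 z (n 0 z (n 0 z (n 0 z (n 0 z z)))))))))) (n 49 (n 0 z (n 0 z (n 0 z (n 0 z (n 0
 z (n 0 z (n 0 z (n 0 z (n 0 z (n 0 z z)))))))))) z))))))))))))) (n 0 (n 0 z (n 0 z (n 0 z (n
 103 (n 0 z (n 0 z (n 0 z (n 0 z (n 0 z (n 0 z (n 0 z (n 0 z (n 0 z (n 0 z (n 0 z z)))))))))))
 (n 103 (n 0 z (n 0 z (n 0 z (n 0 z (n 2 (n 0 z (n 2 (n 0 z (n 0 z (n 0 z (n 0 z (n 0 z (n 0 (n
 28 z z) z)))))) (n 2 (n 0 z (n 0 z (n 0 z (n 0 z (n 0 z (n 0 z z)))))) (n 2 (n 0 z (n 0 z (n 0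
 z (n 0 z (n 0 z (n 0 z z)))))) (n 2 (n 0 z (n 0 z (n 0 z (n 0 z (n 0 z (n 0 (n 8855891 z z)
 z)))))) (n 2 (n 0 z (n 0 z (n 0 z (n 0 z (n 0 z (n 0 z z)))))) (n 2 (n 0 z (n 0 z (n 0 z (n 0 z
 (n 0 z (n 0 z z)))))) z))))))) (n 0 z (n 0 z (n 0 z (n 0 z (n 0 z (n 0 z z))))))))))) (n 103 (n
 0x243ba90b28200c03034590d9048060099daec8ec820300da5b653742101801ff33a1ba1800c00fd1dd4550400e000e46ea6a6200700659b7515310018042fdd7610138d36ec204be0a9d8413045cbb081310887617f9d3780b8977fea3d7f849d7f936a805fb28155b7805cd07f539c81979b8005c77f2d717fdde07f3a748162118094f480a2b87eb3f9803fa47e81aa8091f07ea55a8041a88210b07fadb880d77a7e9da5806f897f5d6a81b4967f9f6a80d16d811ed67f7aa37feefe7f4e077f4e5e8128507f68607f56f67e9a227ff7917ff3ac7f9c2281fe967e677080797e8040888129908001064159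
 z (n 0 z (n 0 z (n 0 z (n 0 z (n 0 z (n 0 z (n 0 z (n 0 z (n 0 z (n 0 z z))))))))))) (n 7 (n 2
 (n 0 z (n 2 (n 0 z (n 0 z (n 0 z (n 0 z (n 0 z (n 0 z z)))))) (n 2 (n 0 z (n 0 z (n 0 z (n 0 z
 (n 0 z (n 0 z z)))))) (n 2 (n 0 z (n 0 z (n 0 z (n 0 z (n 0 z (n 0 z z)))))) (n 2 (n 0 z (n 0 z
 (n 0 z (n 0 z (n 0 z (n 0 z z)))))) z))))) (n 0 z (n 0 z (n 0 z (n 0 z (n 0 z (n 0 z (n 0 z (n
 0 z (n 0 z (n 0 z z))))))))))) (n 7 (n 0 z (n 0 z (n 0 z (n 0 z (n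
 0x2384f74275160181874fb29b10a00c213705951950c0611594eca8c846071089a7521650303959d91b29a18901c231d1d90d90c406119086e84a8400349b8636c86aafa8e990e886c8cb21a64eed864384330875769c7d8c5568c59e85eeae6c36ad6c76c4983cb39d53d3b3ca9375f9cc8e800a7275725ac1598d1367a16dcd9d4d6c438a3490b6f986fab53f61d97559aa797292dd82d87103ec7668f168c333687f158e977898d560736b575e7fc3839f0bb47ce1660f7771bc3669ce8d9879034f6c29996580adfa846138b6980a5c5c34bd68013c415d4274fc76aa247397be135e53ce4119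
 z (n 0 z (n 0 z (n 0 z (n 0 z (n 0 z (n 0 z z))))))))))) (n 15 (n 2 (n 0 z (n 2 (n 0 z (n 0 z
 (n 0 z (n 0 z (n 0 z (n 0 z z)))))) (n 2 (n 0 z (n 0 z (n 0 z (n 0 z (n 0 z (n 0 z z)))))) z)))
 (n 0 z (n 0 z (n 0 z (n 0 z (n 0 z (n 0 z (n 0 z (n 0 z (n 0 z (n 0 z (n 0 z z)))))))))))) (n
 15 (n 0 z (n 0 z (n 0 z (n 0 z (n 0 z (n 0 z (n 0 z (n 2 (n 2 (n 0 z (n 0 z (n 0 z (n 0 z (n 0
 z (n 0 z z)))))) (n 2 (n 0 z (n 0 z (n 0 z (n 0 z (n 0 z (n 0 (n 8868899 z z) z)))))) z)) (n 0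
 z (n 0 z (n 0 z (n 0 z z)))))))))))) (n 13 (n 2 (n 0 z z) (n 0 z (n 0 z (n 0 z (n 0 z (n 0 z (n
 0 z (n 0 z z)))))))) (n 13 (n 0 z (n 0 z (n 0 z (n 2 z (n 0 z (n 0 z (n 0 z (n 0 z z))))))))
 z)))))))))))) (n 0 (n 0 z (n 0 z (n 1145 (n 0 z (n 0 z (n 0 z (n 2 (n 0 z (n 0 z (n 1 z (n 1 z
 (n 2 (n 0 z (n 0 z (n 0 z (n 0 z (n 0 z (n 0 z z)))))) (n 1 z (n 2 (n 0 z (n 0 z (n 0 z (n 0 z
 (n 0 z (n 0 z z)))))) (n 1 z z)))))))) (n 0 z (n 0 z (n 0 z (n 0 z z)))))))) (n 1145 (n 0 z (n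
 0 z (n 0 z (n 0 z (n 0 z (n 0 z (n 0 z (n 0 z z)))))))) (n 1145 (n 0 z (n 0 z (n 0 z (n 0 z (n
 0 z (n 0 z (n 0 z (n 2 (n 2 (n 0 (n 8856907 z z) (n 0 z (n 0 z (n 0 z (n 0 z (n 0 (n 8856907 z
 (n 8856907 z z)) z)))))) (n 1 z (n 2 (n 0 z (n 0 (n 3213435 z z) (n 0 z (n 0 z (n 0 (n 8728931
 z z) (n 0 (n 6633547 z (n 6633547 z z)) z)))))) (n 1 z (n 2 (n 0 z (n 0 (n 3213435 z z) (n 0 z
 (n 0 z (n 0 (n 8728931 z z) (n 0 (n 8730443 z (n 3213435 z z)) z)))))) (n 1 z z)))))) z))))))))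
 (n 491 (n 0 z (n 2 (n 0 z (n 2 (n 0 z (n 0 z (n 0 z (n 0 z (n 0 z (n 0 z z)))))) (n 1 z (n 2 (n
 0 z (n 0 z (n 0 z (n 0 z (n 0 z (n 0 z z)))))) (n 1 z z))))) (n 0 z (n 0 z (n 0 z (n 0 z
 z)))))) (n 491 (n 0 z (n 0 z (n 0 z (n 0 z (n 0 z (n 0 z z)))))) (n 357 (n 0 z (n 0 z (n 0 z (n
 0 z (n 0 z (n 2 (n 0 z (n 2 (n 0 z (n 0 z (n 0 z (n 0 z (n 0 z (n 0 z z)))))) (n 2 (n 0 (n 3524
 z z) (n 0 z (n 0 z (n 0 z (n 0 z (n 0 (n 7407675 z (n 3524 z z)) z)))))) z))) (n 0 z (n 0 z (n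
 0 z (n 0 z (n 0 z (n 0 z (n 0 z z))))))))))))) (n 357 (n 0 z (n 0 z (n 0 z (n 0 z (n 0 z (n 0 z
 (n 0 z (n 0 z (n 0 z (n 0 z (n 0 z (n 0 z (n 0 z z))))))))))))) (n 881 (n 0 z (n 0 z (n 2 (n 0
 z z) (n 0 z (n 0 z z))))) (n 881 (n 0 z (n 0 z (n 0 z (n 0 z (n 0 z z))))) z))))))))))) (n 0 (n
 0 z (n 747 (n 0 z (n 0 z (n 0 z (n 0 z (n 0 z (n 0 z (n 0 z (n 7742795 z (n 0 z (n 0 z (n 0 z
 (n 0 z (n 0 z (n 0 z z)))))))))))))) (n 747 (n 0 z (n 0 z (n 0 z (n 0 z (n 0 z (n 0 z (n 0 z (n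
 0 z (n 0 z (n 0 z (n 0 z (n 0 z (n 0 z (n 0 z z)))))))))))))) (n 747 (n 0 z (n 0 z (n 0 z (n 0
 z (n 0 z (n 0 z (n 0 z (n 0 z (n 0 z (n 0 z (n 0 z (n 0 z (n 0 z (n 0 z z)))))))))))))) (n 181
 (n 0 z (n 0 z (n 0 z (n 0 z (n 0 z (n 0 z (n 0 z (n 0 z (n 0 z (n 0 z (n 0 z z))))))))))) (n
 181 (n 0 z (n 0 z (n 0 z (n 0 z (n 0 z (n 0 z (n 0 z (n 0 z (n 0 z (n 0 z (n 0 z z)))))))))))
 (n 133 (n 0 z (n 0 z (n 0 z (n 0 z (n 0 z (n 0 z (n 0 z (n 0 z (n 0 z (n 0 z (n 0 z (n 0 z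
 z)))))))))))) (n 133 (n 0 z (n 0 z (n 0 z (n 0 z (n 0 z (n 2 (n 2 (n 0 z (n 0 z (n 0 z (n 0 z
 (n 0 z (n 0 z z)))))) (n 1 z z)) (n 0 z (n 0 z (n 0 z (n 0 z (n 0 z (n 0 z z)))))))))))) (n 745
 (n 0 z (n 0 z (n 0 z (n 0 z (n 0 z (n 0 z (n 0 z (n 0 z (n 0 z (n 0 z (n 0 z (n 0 z
 z)))))))))))) (n 745 (n 0 z (n 0 z (n 0 z (n 0 z (n 0 z (n 0 z (n 0 z (n 0 z (n 0 z (n 0 z (n 0
 z (n 0 z z)))))))))))) z)))))))))) (n 0 (n 867 (n 0 z (n 0 z (n 0 z (n 0 z (n 0 z (n 0 z (n 0 z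
 (n 0 z (n 0 z (n 0 z (n 0 z (n 0 z z)))))))))))) (n 867 (n 0 z (n 0 z (n 0 z (n 0 z (n 0 z (n 0
 z (n 0 z (n 0 z (n 0 z (n 0 z (n 0 z (n 0 z z)))))))))))) (n 867 (n 0 z (n 0 z (n 0 z (n 0 z (n
 0 z (n 0 z (n 0 z (n 0 z (n 0 z (n 0 z (n 0 z (n 0 z z)))))))))))) (n 27 (n 0 z (n 0 z (n 0 z
 (n 0 z (n 0 z (n 0 z (n 0 z (n 0 z (n 0 z (n 0 z (n 0 z (n 0 z (n 0 z z))))))))))))) (n 27 (n 0
 z (n 0 z (n 0 z (n 0 z (n 0 z (n 0 z (n 0 z (n 0 z (n 0 z (n 0 z (n 0 z (n 0 z (n 0 z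
 z))))))))))))) (n 339 (n 2 (n 0 z (n 2 (n 0 z (n 0 z (n 0 z (n 0 z (n 0 z (n 0 z z)))))) (n 1 z
 z))) (n 0 z (n 0 z (n 0 z (n 0 z (n 0 z (n 0 z (n 0 z (n 0 z (n 0 z (n 0 z (n 0 z (n 0 z
 z))))))))))))) (n 339 (n 0 z (n 0 z (n 0 z (n 0 z (n 0 z (n 0 z (n 0 z (n 0 z (n 0 z (n 0 z (n
 0 z (n 0 z (n 0 z z))))))))))))) (n 865 (n 0 z (n 0 z (n 0 z (n 0 z (n 0 z (n 0 z (n 0 z (n 0 z
 (n 0 z (n 0 z (n 0 z z))))))))))) (n 865 (n 0 z (n 0 z (n 0 z (n 0 z (n 0 z (n 0 z (n 0 z (n 0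
 z (n 0 z (n 0 z (n 0 z z))))))))))) z))))))))) (n 0 (n 0 z (n 0 z (n 247 (n 7742795 z (n 0 z (n
 0 z (n 0 z (n 0 z (n 0 z (n 0 z (n 0 z (n 0 z (n 0 z (n 0 z z))))))))))) (n 247 (n 0 z (n 0 z
 (n 0 z (n 0 z (n 0 z (n 0 z (n 0 z (n 0 z (n 0 z (n 0 z (n 0 z z))))))))))) (n 243 (n 0 z (n 0
 z (n 0 z (n 0 z (n 0 z (n 0 z (n 0 z z))))))) (n 243 (n 0 z (n 0 z (n 0 z (n 0 z (n 0 z (n 0 z
 (n 0 z z))))))) (n 241 (n 2 (n 0 z z) (n 0 z (n 0 z (n 0 z (n 0 z (n 0 z (n 0 z (n 0 z (n 0 z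
 (n 0 z z)))))))))) (n 241 (n 0 z (n 0 z (n 0 z (n 0 z (n 0 z (n 0 z (n 0 z (n 0 z (n 0 z (n 0 z
 z)))))))))) z)))))))) (n 0 (n 0 z (n 247 (n 0 z (n 0 z (n 0 z (n 0 z (n 0 z z))))) (n 247 (n 0
 z (n 0 z (n 0 z (n 0 z (n 0 z z))))) (n 255 (n 0 z (n 0 z (n 0 z (n 0 z z)))) (n 255 (n 0 z (n
 0 z (n 0 z (n 0 z z)))) (n 893 (n 0 z (n 0 z (n 0 z (n 0 z (n 0 z (n 0 z (n 0 z (n 0 z (n 0 z
 (n 0 z z)))))))))) (n 893 (n 0 z (n 0 z (n 0 z (n 0 z (n 0 z (n 0 z (n 0 z (n 0 z (n 0 z (n 0 z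
 z)))))))))) z))))))) (n 0 (n 247 (n 0 z (n 0 z (n 0 z (n 0 z (n 0 z (n 0 z (n 0 z (n 0 z
 z)))))))) (n 247 (n 0 z (n 0 z (n 0 z (n 0 z (n 0 z (n 0 z (n 0 z (n 0 z z)))))))) (n 837 (n 0
 z (n 0 z (n 0 z (n 0 z (n 0 z (n 0 z (n 0 z (n 0 z z)))))))) (n 837 (n 0 z (n 0 z (n 0 z (n 0 z
 (n 0 z (n 0 z (n 0 z (n 0 z z)))))))) (n 845 (n 0 z (n 0 z (n 0 z (n 0 z (n 0 z (n 0 z (n 0 z
 z))))))) (n 845 (n 0 z (n 0 z (n 0 z (n 0 z (n 0 z (n 0 z (n 0 z z))))))) z)))))) (n 0 (n 0 z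
 (n 3 (n 0 z (n 0 z (n 0 z (n 0 z (n 0 z (n 0 z (n 0 z z))))))) (n 3 (n 0 z (n 0 z (n 0 z (n 0 z
 (n 0 z (n 0 z (n 2 (n 1 z (n 1 z z)) z))))))) (n 1 (n 0 z (n 0 z (n 0 z (n 0 z (n 0 z (n 0 z (n
 0 z (n 0 z (n 0 z (n 0 z (n 0 z (n 0 z z)))))))))))) (n 1 (n 0 z (n 0 z (n 0 z (n 0 z (n 0 z (n
 0 z (n 0 z (n 0 z (n 0 z (n 0 z (n 0 z (n 0 z z)))))))))))) z))))) (n 0 (n 3 (n 0 z (n 2 (n 0 z
 (n 2 (n 0 z (n 0 z (n 0 z (n 0 z (n 0 z (n 0 z z)))))) (n 2 (n 0 z (n 0 z (n 0 z (n 0 z (n 0 z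
 (n 0 z z)))))) z))) (n 0 z (n 0 z (n 0 z (n 0 z (n 0 z (n 0 z z)))))))) (n 3 (n 0 z (n 0 z (n 0
 z (n 0 z (n 0 z (n 0 z (n 0 z (n 0 z z)))))))) (n 1 (n 0 z (n 0 z (n 0 z (n 0 z (n 0 z (n 0 z
 (n 0 z (n 0 z (n 0 z (n 0 z (n 0 z (n 0 z (n 0 z z))))))))))))) (n 1 (n 0 z (n 0 z (n 0 z (n 0
 z (n 0 z (n 0 z (n 0 z (n 0 z (n 0 z (n 0 z (n 0 z (n 0 z (n 0 z z))))))))))))) z)))) (n 0 (n 0
 z (n 1 (n 0 z (n 0 z (n 0 z (n 0 z (n 0 z (n 0 z (n 0 z (n 0 z (n 0 z (n 0 z (n 0 z (n 0 z (n 0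
 z (n 0 z (n 0 z (n 0 z (n 0 z (n 0 z (n 0 z (n 0 z (n 0 z (n 0 z (n 0 z (n 0 z (n 0 z (n 0 z (n
 0 z (n 0 z (n 0 z (n 0 z (n 0 z (n 0 z (n 0 z (n 0 z (n 0 z (n 0 z (n 0 z (n 0 z (n 0 z (n 0 z
 (n 0 z (n 0 z (n 0 z (n 0 z (n 0 z (n 0 z (n 0 z (n 0 z (n 0 z (n 0 z (n 0 z
 z))))))))))))))))))))))))))))))))))))))))))))))))))) (n 1 (n 0 z (n 0 z (n 0 z (n 0 z (n 0 z (n
 0 z (n 0 z (n 0 z (n 0 z (n 0 z (n 0 z (n 0 z (n 0 z (n 0 z (n 0 z (n 0 z (n 0 z (n 0 z (n 0 z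
 (n 0 z (n 0 z (n 2 z (n 0 z (n 0 z (n 0 z (n 0 z (n 0 z (n 0 z (n 0 z (n 0 z (n 0 z (n 0 z (n 0
 z (n 0 z (n 0 z (n 0 z (n 0 z (n 0 z (n 0 z (n 0 z (n 0 z (n 0 z (n 0 z (n 0 z (n 0 z (n 0 z (n
 0 z (n 0 z (n 0 z (n 0 z (n 0 z z))))))))))))))))))))))))))))))))))))))))))))))))))) z))) (n 0
 (n 1 (n 0 z (n 0 z (n 0 z (n 0 z (n 0 z (n 0 z (n 2 (n 0 z z) (n 0 z (n 0 z (n 0 z (n 0 z (n 0
 z z)))))))))))) (n 1 (n 0 z (n 0 z (n 0 z (n 0 z (n 0 z (n 0 z (n 0 z (n 0 z (n 0 z (n 0 z (n 0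
 z (n 0 z z)))))))))))) z)) (n 0 (n 0 z z) (n 0 z z)))))))))))))) (n 0 (n 0 z (n 1 (n 4588 z (n
 4596 z (n 4588 z (n 4588 z (n 4588 z (n 4588 z z)))))) (n 1 (n 6566411 z (n 6566411 z (n
 6566411 z (n 6566411 z (n 6566411 z (n 6566411 z z)))))) (n 0 z (n 0 z (n 1 (n 4261435 z (n
 4588 z (n 4596 z (n 5518875 z (n 4588 z (n 4588 z z)))))) z)))))) (n 0 z z)))) (n 0xe10d2 (n 0
 (n 693 (n 3282443 z (n 0 z (n 0 z (n 0 z (n 0 z (n 0 z (n 0 z z))))))) (n 461 (n 3278363 z (n 0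
 z (n 0 z (n 0 z (n 0 z (n 0 z z)))))) (n 9 (n 0 z (n 2 z (n 0 z (n 6562059 z z)))) (n 3 (n 0 z
 (n 2164283 z (n 0 z (n 0 z z)))) (n 1 (n 0 z (n 0 z (n 0 z (n 6562059 z (n 0 z (n 0 z (n 0 z (n
 0 z (n 0 z (n 0 z z)))))))))) (n 0 (n 0 z (n 6624315 z (n 0 z (n 0 z z)))) z)))))) (n 9 (n 0 z
 z) (n 0 (n 0 z (n 1 (n 5548 z (n 5548 z (n 5548 z (n 5548 z (n 5548 z (n 5548 z z)))))) (n 0 z
 (n 1 (n 6562059 z (n 6562059 z (n 6562059 z (n 6562059 z (n 6562059 z (n 6562059 z z))))))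
 z)))) (n 0 z z)))) (n 0xcd934129ab8364cd8325b2134f66094c90d2d9b04b2504766c80c94c0 (n 0x366c9 (n
 345 (n 2 z (n 0 z (n 3282443 z (n 10 z z)))) (n 435 (n 3278363 z (n 18 z (n 26 z z))) (n 433 (n
 3212843 z (n 34 z (n 42 z z))) (n 125 (n 50 z (n 2164283 z (n 0 z (n 58 z z)))) (n 1 (n 0 z (n
 0 z (n 2164299 z (n 66 z (n 0 z z))))) (n 0 (n 74 z (n 0 z (n 82 z (n 2164315 z z)))) z))))))
 (n 435 (n 0 (n 0 z (n 127 (n 0 z (n 0 z (n 0 z (n 0 z (n 0 z (n 0 z (n 0 z z))))))) (n 127 (n 0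
 z (n 0 z (n 0 z (n 0 z (n 0 z (n 2 (n 1 z (n 1 z (n 1 z (n 1 z (n 1 z (n 1 z (n 1 z z))))))) (n
 0 z z))))))) (n 123 (n 0 z (n 0 z (n 0 z (n 0 z (n 0 z z))))) (n 123 (n 0 z (n 0 z (n 0 z (n 0
 z (n 0 z z))))) (n 675 (n 0 z (n 0 z (n 0 z (n 0 z (n 0 z (n 0 z z)))))) (n 675 (n 0 z (n 0 z
 (n 0 z (n 0 z (n 2 (n 1 z (n 1 z (n 1 z z))) (n 0 z z)))))) (n 673 (n 0 z (n 0 z (n 0 z (n 0 z
 (n 0 z (n 0 z (n 0 z z))))))) (n 125 (n 0 z (n 0 z (n 0 z z))) (n 125 (n 0 z (n 0 z (n 0 z z)))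
 z)))))))))) (n 0 (n 891 (n 0 z (n 0 z (n 0 z (n 2 (n 0 z (n 1 z (n 1 z (n 1 z (n 1 z (n 1 z (n
 1 z (n 1 z z)))))))) (n 0 z (n 0 z (n 0 z z))))))) (n 891 (n 0 z (n 0 z (n 0 z (n 0 z (n 0 z (n
 0 z (n 0 z z))))))) (n 23 (n 0 z (n 0 z (n 0 z (n 0 z (n 0 z (n 0 z (n 0 z (n 0 z (n 0 z (n 0 z
 z)))))))))) (n 23 (n 0 z (n 0 z (n 0 z (n 0 z (n 0 z (n 0 z (n 0 z (n 0 z (n 0 z (n 0 z
 z)))))))))) (n 687 (n 0 z (n 2 (n 0 z (n 1 z (n 1 z (n 1 z z)))) (n 0 z (n 0 z z)))) (n 687 (n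
 0 z (n 0 z (n 0 z (n 0 z z)))) (n 685 (n 0 z (n 0 z (n 0 z (n 0 z (n 0 z (n 0 z z)))))) (n 241
 (n 0 z (n 0 z z)) (n 241 (n 0 z (n 0 z z)) z))))))))) (n 0 (n 0 z (n 363 (n 0 z (n 0 z (n 0 z
 (n 0 z (n 0 z z))))) (n 363 (n 0 z (n 0 z (n 0 z (n 0 z (n 2 (n 1 z (n 1 z (n 1 z (n 1 z (n 1 z
 z))))) z))))) (n 387 (n 0 z (n 0 z (n 0 z (n 0 z (n 0 z (n 0 z (n 0 z (n 0 z (n 0 z (n 0 z (n 0
 z (n 0 z (n 0 z (n 0 z (n 0 z (n 0 z (n 0 z z))))))))))))))))) (n 387 (n 0 z (n 0 z (n 0 z (n 0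
 z (n 0 z (n 0 z (n 0 z (n 0 z (n 0 z (n 0 z (n 0 z (n 0 z (n 0 z (n 0 z (n 0 z (n 2 (n 1 z (n 1
 z (n 1 z z))) (n 0 z z))))))))))))))))) (n 339 (n 0 z (n 0 z (n 0 z (n 0 z (n 0 z (n 0 z (n 2
 (n 1 z (n 1 z z)) (n 0 z z)))))))) (n 361 (n 0 z (n 0 z (n 0 z (n 0 z (n 0 z z))))) (n 361 (n 0
 z (n 0 z (n 2 z (n 0 z (n 0 z z))))) z)))))))) (n 0 (n 19 (n 0 z (n 0 z (n 2 (n 0 z (n 1 z (n 1
 z (n 1 z (n 1 z (n 1 z z)))))) (n 0 z z)))) (n 19 (n 0 z (n 0 z (n 0 z (n 0 z z)))) (n 7 (n 0 z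
 (n 0 z (n 0 z (n 0 z (n 0 z (n 2 (n 0 z (n 1 z (n 1 z (n 1 z z)))) (n 0 z (n 0 z (n 0 z (n 0 z
 (n 0 z (n 0 z (n 0 z z))))))))))))) (n 7 (n 0 z (n 0 z (n 0 z (n 0 z (n 0 z (n 0 z (n 0 z (n 0
 z (n 0 z (n 0 z (n 0 z (n 0 z (n 0 z z))))))))))))) (n 3 (n 0 z (n 0 z (n 0 z (n 0 z (n 0 z (n
 0 z z)))))) (n 13 (n 2 (n 0 z z) (n 0 z (n 0 z (n 0 z (n 0 z (n 0 z (n 0 z z))))))) (n 13 (n 0
 z (n 0 z (n 0 z (n 0 z (n 0 z (n 0 z (n 0 z z))))))) z))))))) (n 0 (n 0 z (n 627 (n 0 z (n 0 z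
 (n 0 z (n 0 z (n 0 z (n 0 z z)))))) (n 627 (n 0 z (n 0 z (n 0 z (n 0 z (n 2 (n 1 z (n 1 z (n 1
 z z))) (n 0 z z)))))) (n 579 (n 0 z (n 0 z (n 0 z z))) (n 601 (n 0 z (n 0 z (n 0 z (n 0 z (n 0
 z (n 0 z (n 0 z (n 0 z z)))))))) (n 601 (n 0 z (n 0 z (n 0 z (n 0 z (n 0 z (n 0 z (n 0 z (n 0 z
 z)))))))) z)))))) (n 0 (n 251 (n 2 (n 0 z (n 1 z (n 1 z (n 1 z z)))) (n 0 z (n 0 z (n 0 z (n 0
 z (n 0 z (n 0 z z))))))) (n 251 (n 0 z (n 0 z (n 0 z (n 0 z (n 0 z (n 0 z (n 0 z z))))))) (n 51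
 (n 0 z (n 0 z (n 0 z z))) (n 49 (n 0 z (n 0 z (n 0 z (n 0 z (n 0 z (n 0 z (n 0 z z))))))) (n 49
 (n 0 z (n 0 z (n 0 z (n 0 z (n 0 z (n 0 z (n 0 z z))))))) z))))) (n 0 (n 0 z (n 3 (n 0 z (n 0 z
 (n 0 z (n 0 z (n 0 z (n 0 z (n 2 (n 1 z (n 1 z z)) (n 0 z z)))))))) (n 1 (n 0 z (n 0 z (n 0 z
 (n 0 z (n 0 z (n 0 z (n 0 z (n 0 z z)))))))) (n 1 (n 0 z (n 0 z (n 0 z (n 0 z (n 0 z (n 0 z (n
 0 z (n 2 z z)))))))) z)))) (n 0 (n 255 (n 0 z (n 0 z (n 0 z (n 0 z (n 0 z (n 0 z (n 0 z (n 0 z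
 z)))))))) (n 13 (n 2 (n 0 z z) (n 0 z (n 0 z (n 0 z (n 0 z z))))) (n 13 (n 0 z (n 0 z (n 0 z (n
 0 z (n 0 z z))))) z))) (n 0 (n 25 (n 0 z (n 0 z (n 0 z (n 0 z (n 0 z (n 0 z z)))))) (n 25 (n 0
 z (n 0 z (n 0 z (n 0 z (n 0 z (n 0 z z)))))) z)) (n 0 (n 0 z z) (n 0 z z))))))))))) (n 0 (n 1
 (n 3278363 z (n 3278363 z (n 3278363 z (n 3278363 z (n 3278363 z (n 3278363 z z)))))) (n 1 (n
 2764 z (n 2764 z (n 12 z (n 2764 z (n 4261435 z (n 2764 z z)))))) (n 1 (n 2 z (n 2764 z (n 2764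
 z (n 2764 z (n 5379643 z (n 2764 z z)))))) z))) (n 0 (n 0xac84d3ac9411 (n 0 (n 0 (n 7754051 z
 (n 7754051 z (n 7754051 z (n 7754051 z (n 7754051 z (n 7754051 z z)))))) z) (n 0 (n 120 (n 1 (n
 3282699 z (n 3282699 z (n 3282699 z (n 3282699 z (n 3282699 z (n 7750483 z z)))))) (n 1 (n
 7754051 z (n 7754051 z (n 7754051 z (n 7754051 z (n 7754051 z (n 7754051 z z)))))) z)) (n 435
 (n 1 (n 7754051 z (n 7754051 z (n 7754051 z (n 7754051 z (n 7754051 z (n 7754051 z z)))))) (n 1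
 (n 6629147 z (n 3580 z (n 6555451 z (n 3580 z (n 2 z (n 3580 z z)))))) (n 1 (n 7754051 z (n
 7754051 z (n 7754051 z (n 7754051 z (n 7754051 z (n 7754051 z z)))))) z))) (n 433 (n 1 (n
 7741707 z (n 7741707 z (n 7741707 z (n 7741707 z (n 7741707 z (n 7741707 z z)))))) (n 1 (n
 7677499 z (n 2204 z (n 7603739 z (n 2204 z (n 2204 z (n 2204 z z)))))) (n 1 (n 7754051 z (n
 7754051 z (n 7754051 z (n 7754051 z (n 7754051 z (n 7754051 z z)))))) z))) (n 345 (n 1 (n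
 7750483 z (n 7750483 z (n 7750483 z (n 7750483 z (n 7750483 z (n 7750483 z z)))))) (n 1 (n
 5375771 z (n 10 z (n 7741707 z (n 460 z (n 460 z (n 460 z z)))))) (n 1 (n 7741707 z (n 4331275
 z (n 4331275 z (n 4331275 z (n 4331275 z (n 4331275 z z)))))) (n 1 (n 460 z (n 460 z (n 1052 z
 (n 460 z (n 7741707 z (n 460 z z)))))) z)))) (n 75 (n 1 (n 7741707 z (n 7741707 z (n 7741707 z
 (n 7741707 z (n 7741707 z (n 7741707 z z)))))) (n 1 (n 7750483 z (n 7750483 z (n 7750483 z (n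
 7750483 z (n 7750483 z (n 7750483 z z)))))) (n 0 z z))) (n 225 (n 1 (n 7741707 z (n 3282699 z
 (n 3282699 z (n 3282699 z (n 3282699 z (n 3282699 z z)))))) (n 1 (n 7754051 z (n 7754051 z (n
 7754051 z (n 7754051 z (n 7754051 z (n 7754051 z z)))))) z)) (n 435 (n 1 (n 7754051 z (n
 7754051 z (n 7754051 z (n 7754051 z (n 7754051 z (n 7754051 z z)))))) (n 1 (n 2764 z (n 7741707
 z (n 12 z (n 2764 z (n 4261691 z (n 2764 z z)))))) (n 1 (n 7754051 z (n 7754051 z (n 7754051 z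
 (n 7754051 z (n 7754051 z (n 7754051 z z)))))) z))) z))))))) (n 0 (n 0 (n 0 z (n 0 z z)) (n 0
 (n 0 z z) z)) (n 0 (n 447 (n 0 (n 0 z (n 0 z z)) (n 0 (n 0 z (n 0 z z)) (n 0 (n 0 z (n 0 z z))
 (n 0 (n 0 z (n 0 z z)) (n 0 (n 0 z (n 0 (n
 0x30caeca8078208208208208208208608207e08208208208208208208208208208208208208208208208200801 z
 z) z)) (n 0 (n 0 z (n 0 z z)) (n 0 (n 0 z (n 0 z z)) z))))))) (n 275 (n 0 (n 0 z (n 0 z z)) (n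
 0 (n 0 z (n 0 z z)) (n 0 (n 0 z (n 0 z z)) (n 0 (n 0 z (n 0 z z)) (n 0 (n 0 z (n 0 z z)) (n 0
 (n 0 z (n 0 z z)) (n 0 (n 0 z (n 0 z z)) (n 0 (n 0 z (n 0 (n 8865051 z z) z)) (n 0 (n 0 z (n 0
 z z)) (n 0 (n 0 z (n 0 z z)) z)))))))))) (n 33 (n 0 (n 0 z (n 0 z z)) (n 0 (n 0 z (n 0 z z)) (n
 0 (n 0 z (n 0 z z)) (n 0 (n 0 z (n 0 z z)) z)))) (n 345 (n 0 (n 0 z (n 0 z z)) (n 0 (n 0 z (n 0
 z z)) (n 0 (n 0 z (n 0 z z)) (n 0 (n 0 z (n 0 z z)) z)))) (n 57 (n 0 (n 0 z (n 0 z z)) (n 0 (n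
 0 z (n 0 z z)) (n 0 (n 0 z (n 0 z z)) (n 0 (n 0 z (n 0 z z)) (n 0 (n 0 z (n 0 z z)) (n 0 (n 0 z
 (n 0 z z)) (n 0 (n 0 z (n 0 z z)) (n 0 (n 0 z (n 0 z z)) (n 0 (n 0 z (n 0 z z)) (n 0 (n 0 z (n
 0 (n 8851491 z z) z)) (n 0 (n 0 z (n 0 z z)) (n 0 (n 0 (n
 0x30caeca8078208208208208208208208208208208208208208208208208208208208218208208208208200801 z
 z) (n 0 (n
 0x30caeca8078208208208208208208208208208208208208208208208208208208208218208208208208200801 z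
 z) z)) (n 0 (n 0 z (n 0 z z)) z))))))))))))) (n 131 (n 0 (n 0 z (n 0 z z)) (n 0 (n 0 z (n 0 (n
 0xd8418207e082082082081f86186081f89f81f86181f85f8208208a189e8208207dd8208e085f8610041 z z) z))
 (n 0 (n 0 z (n 0 z z)) (n 0 (n 0 z (n 0 z z)) (n 0 (n 0 z (n 0 (n
 0x5d85082381f8207a282182089f89d8208218e085e82085b8e17a18628207e086071f7a281e7de89d0041 z z) z))
 (n 0 (n 0 z (n 0 z z)) (n 0 (n 0 z (n 0 z z)) z))))))) (n 347 (n 0 (n 0 z (n 0 z z)) (n 0 (n 0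
 z (n 0 z z)) (n 0 (n 0 z (n 0 z z)) (n 0 (n 0 z (n 0 z z)) (n 0 (n 0 z (n 0 z z)) (n 0 (n 0 z
 (n 0 z z)) z)))))) (n 81 (n 0 (n 0 z (n 0 z z)) (n 0 (n 0 z (n 0 z z)) (n 0 (n 0 z (n 0 z z))
 (n 0 (n 0 z (n 0 z z)) (n 0 (n 0 z (n 0 z z)) (n 0 (n 0 z (n 0 z z)) z)))))) (n 75 (n 0 (n 0 z
 (n 0 z z)) (n 0 (n 0 z (n 0 z z)) (n 0 (n 0 z (n 0 z z)) z))) (n 133 (n 0 (n 0 z (n 0 z z)) (n
 0 (n 0 z (n 0 z z)) (n 0 (n 0 z (n 0 z z)) (n 0 (n 0 z (n 0 z z)) (n 0 (n 0 z (n 0 z z)) (n 0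
 (n 0 z (n 0 z z)) (n 0 (n 0 z (n 0 z z)) (n 0 (n 0 z (n 0 z z)) z)))))))) (n 225 (n 0 (n 0 z (n
 0 z z)) (n 0 (n 0 z (n 0 z z)) z)) (n 111 (n 0 (n 0 z (n 0 z z)) (n 0 (n 0 z (n 0 z z)) (n 0 (n
 0 z (n 0 z z)) (n 0 (n 0 z (n 0 z z)) (n 0 (n 0 z (n 0 z z)) (n 0 (n 0 z (n 0 z z)) (n 0 (n 0 z
 (n 0 z z)) z))))))) (n 99 (n 0 (n 0 z (n 0 z z)) (n 0 (n 0 z (n 0 z z)) (n 0 (n 0 z (n 0 z z))
 (n 0 (n 0 z (n 0 z z)) (n 0 (n 0 z (n 0 z z)) (n 0 (n 0 z (n 0 z z)) (n 0 (n 0 z (n 0 z z))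
 z))))))) (n 19 (n 0 (n 0 z (n 0 z z)) (n 0 (n 0 z (n 0 z z)) (n 0 (n 0 z (n 0 z z)) (n 0 (n 0 z
 (n 0 z z)) (n 0 (n 0 z (n 0 z z)) z))))) (n 18 (n 0 (n 0 z (n 0 z z)) (n 0 (n 0 z (n 0 z z)) (n
 0 (n 0 z (n 0 z z)) (n 0 (n 0 z (n 0 z z)) (n 0 (n 0 z (n 0 z z)) (n 0 (n 0 z (n 0 z z))
 z)))))) (n 345 (n 0 (n 0 z (n 0 z z)) (n 0 (n 0 z (n 0 z z)) (n 0 (n 0 z (n 0 z z)) (n 0 (n 0 z
 (n 0 z z)) z)))) (n 435 (n 0 (n 0 z (n 0 z z)) (n 0 (n 0 z (n 0 z z)) (n 0 (n 0 z (n 0 z z))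
 z))) (n 433 (n 0 (n 0 z (n 0 z z)) (n 0 (n 0 z (n 0 z z)) (n 0 (n 0 z (n 0 z z)) z))) (n 125 (n
 0 (n 0 z (n 0 z z)) (n 0 (n 0 z (n 0 z z)) (n 0 (n 0 z (n 0 z z)) (n 0 (n 0 z (n 0 z z)) z))))
 (n 1 (n 0 (n 0 z (n 0 z z)) (n 0 (n 0 z (n 0 z z)) (n 0 (n 0 z (n 0 z z)) (n 0 (n 0 z (n 0 z
 z)) (n 0 (n 0 z (n 0 z z)) z))))) (n 0 (n 0 (n 0 z (n 0 z z)) (n 0 (n 0 z (n 0 z z)) (n 0 (n 0
 z (n 0 z z)) (n 0 (n 0 z (n 0 z z)) z)))) z))))))))))))))))))))) z)))) z) z)))) z)))))))))),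
 by decide +kernel⟩
theorem i10971 : ∃ t, chkR KT RW t 10971 10976 = true := ⟨(n
 0xd927422c9b0164c9824dc4192ca10b73609a88825198288ac265a1480c8e804459014ac8054840 (n 0 (n 153 (n
 2 z (n 10 z (n 0 z (n 18 z (n 3282443 z (n 26 z (n 34 z z))))))) (n 33 (n 6631747 z (n 0 z z))
 (n 9 (n 42 z (n 50 z (n 0 z (n 0 z (n 58 z (n
 0x6ca4a806078008007ff7ff7ff8008007fe8018008018018008008008007ff8008008018017ff8008018018007ff7ff7ff8007ff8007ff8008008008008007ff8008008018017ff8018008007ff8018010811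
 z (n 0 z (n 66 z (n
 0x2ca6ca60038008007ff8007ff7ff8008008008007ff8008008008018008008008008018018008018008018017fe8008008008008007fe8007fe8018018017ff8018018008008008008008017ff8008000811
 z (n 6427979 z (n 0 z (n 3212843 z z)))))))))))) (n 3 (n 74 z (n 0 z (n 0 z (n
 0x22ca6a8040784c7937f180b7fe7c37a380880f82187d80a80c84e81a85f7f47ae84280f7f77f37dd8577d07b280e77e7d387f7da7d17dd82484e8247ae81f7e284483b7aa8507c67da7c27f084f7c37f50811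
 z (n 0 z (n 82 z (n 90 z (n 6636307 z z)))))))) (n 1 (n 0 z (n 0 z (n 0 z (n 6636307 z (n 0 z
 (n 98 z (n 0 z (n 0 z (n 0 z (n 0 z (n 0 z z))))))))))) (n 0 (n 0 z (n 0 z (n 0 z (n 106 z (n
 0x20ca68604078097ee7f77f88167e47fd7e18148008187f881a8197cf81a80e7f581480980f7fa8078117e680d80a7cf7cb81f7ef7fb7e57f982f80f7f07fe7f282a80f7dc8207d980d7fa7f98157d780d0811
 z (n 0 z (n 6636307 z (n 0 z (n 0 z (n 0 z (n 0 z (n 6632475 z (n 6636307 z (n 114 z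
 z)))))))))))))) z)))))) (n 33 (n 0 (n 0 z (n 0 z (n 0 z (n 0 z (n 47 (n 0 z (n 0 z (n 0 z (n 0
 z (n 0 z (n 0 z (n 0 z (n 2 (n 0 z (n 0 z (n 0 z (n 2 (n 0 z (n 0 z (n 0 z (n 0 z (n 0 z (n 0 z
 z)))))) (n 2 (n 0 z (n 0 z (n 0 z (n 0 z (n 0 z (n 0 z z)))))) (n 2 (n 0 z (n 0 z (n 0 z (n 0 z
 (n 0 z (n 0 z z)))))) (n 2 (n 0 z (n 0 z (n 0 z (n 0 z (n 0 z (n 0 z z)))))) (n 2 (n 0 z (n 0 z
 (n 0 z (n 0 z (n 0 z (n 0 z z)))))) (n 2 (n 0 z (n 0 z (n 0 z (n 0 z (n 0 z (n 0 z z))))))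
 z))))))))) (n 0 z (n 0 z (n 0 z z))))))))))) (n 47 (n 0 z (n 0 z (n 0 z (n 0 z (n 0 z (n 0 z (n
 0 z (n 0 z (n 0 z (n 2 (n 0 z (n 0 z (n 2 (n 0 z (n 0 z (n 0 z (n 0 z (n 0 (n 8799515 z z) (n 0
 z z)))))) (n 2 (n 0 z (n 0 z (n 0 z (n 0 z (n 0 (n 180 z z) (n 0 z z)))))) (n 2 (n 0 z (n 0 z
 (n 0 z (n 0 z (n 0 z (n 0 z z)))))) (n 1 z (n 1 z (n 2 (n 0 z (n 0 z (n 0 z (n 0 z (n 0 z (n 0
 z z)))))) z)))))))) (n 0 z z))))))))))) (n 47 (n 0 z (n 0 z (n 0 z (n 0 z (n 0 z (n 0 z (n 0 z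
 (n 0 z (n 0 z (n 0 z (n 0 z z))))))))))) (n 47 (n 0 z (n 0 z (n 0 z (n 0 z (n 0 z (n 0 z (n 0 z
 (n 0 z (n 0 z (n 0 z (n 2 (n 2 (n 0 z (n 0 z (n 0 z (n 0 z (n 0 z (n 0 z z)))))) (n 2 (n 0 z (n
 0 z (n 0 z (n 0 z (n 0 z (n 0 z z)))))) (n 2 (n 0 z (n 0 z (n 0 z (n 0 z (n 0 z (n 0 z z))))))
 (n 2 (n 0 z (n 0 z (n 0 z (n 0 z (n 0 (n 148 z z) (n 0 z z)))))) (n 2 (n 0 z (n 0 z (n 0 z (n 0
 z (n 0 z (n 0 z z)))))) (n 2 (n 0 z (n 0 z (n 0 z (n 0 z (n 0 (n 8852539 z z) (n 0 z z))))))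
 z)))))) z))))))))))) (n 45 (n 0 z (n 0 z (n 0 z (n 0 z (n 0 z (n 0 z (n 0 z (n 0 z (n 0 z (n 0
 z (n 0 z (n 0 z z)))))))))))) (n 45 (n 0 z (n 0 z (n 0 z (n 2 (n 0 z (n 1 z (n 1 z (n 2 (n 0 z
 (n 0 z (n 0 z (n 0 z (n 0 z (n 0 z z)))))) z)))) (n 0 z (n 0 z (n 0 z (n 0 z (n 0 z (n 0 z (n 0
 z (n 0 z z)))))))))))) (n 45 (n 0 z (n 0 z (n 2 (n 2 (n 0 z (n 0 z (n 0 z (n 0 z (n 0 (n 148 z
 z) (n 0 z z)))))) (n 2 (n 0 z (n 0 z (n 0 z (n 0 z (n 0 (n 100 z z) (n 0 z z)))))) (n 2 (n 0 z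
 (n 0 z (n 0 z (n 0 z (n 0 (n 8847899 z z) (n 0 z z)))))) z))) (n 0 z (n 0 z (n 0 z (n 0 z (n 0
 z (n 0 z (n 0 z (n 0 z (n 0 z z)))))))))))) (n 37 (n 0 z (n 0 z (n 0 z (n 0 z (n 0 z (n 0 z (n
 0 z (n 0 z (n 0 z (n 0 z z)))))))))) (n 25 (n 0 z (n 0 z (n 2 (n 0 z z) (n 0 z (n 0 z (n 0 z (n
 0 z (n 0 z (n 0 z (n 0 z (n 0 z (n 0 z (n 0 z (n 0 z (n 0 z (n 0 z (n 0 z (n 0 z (n 0 z (n 0 z
 (n 0 z (n 0 z z)))))))))))))))))))))) (n 25 (n 0 z (n 0 z (n 0 z (n 0 z (n 0 z (n 0 z (n 0 z (n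
 0 z (n 0 z (n 0 z (n 0 z (n 0 z (n 0 z (n 0 z (n 0 z (n 0 z (n 0 z (n 0 z (n 0 z (n 0 z (n 2 z
 (n 0 z z)))))))))))))))))))))) z)))))))))))))) (n 0 (n 0 z (n 0 z (n 0 z (n 47 (n 0 z (n 0 z (n
 0 z (n 0 z (n 0 z (n 0 z (n 0 z (n 0 z (n 0 z (n 0 z (n 0 z (n 0 z z)))))))))))) (n 47 (n 0 z
 (n 0 z (n 0 z (n 0 z (n 0 z (n 0 z (n 0 z (n 0 z (n 0 z (n 0 z (n 0 z (n 0 z z)))))))))))) (n
 47 (n 0 z (n 0 z (n 0 z (n 0 z (n 0 z (n 0 z (n 0 z (n 0 z (n 0 z (n 0 z (n 0 z (n 0 z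
 z)))))))))))) (n 47 (n 0 z (n 0 z (n 0 z (n 0 z (n 0 z (n 0 z (n 0 z (n 0 z (n 0 z (n 0 z (n 0
 z (n 2 (n 2 (n 0 z (n 0 z (n 0 z (n 0 z (n 0 z (n 0 z z)))))) (n 2 (n 0 z (n 0 z (n 0 z (n 0 z
 (n 0 z (n 0 z z)))))) (n 2 (n 0 z (n 0 (n 4262011 z z) (n 0 z (n 0 z (n 0 (n 8656683 z (n
 4262011 z z)) (n 0 (n 4262011 z z) z)))))) (n 2 (n 0 z (n 0 z (n 0 z (n 0 (n 996 z z) (n 0 (n
 996 z (n 996 z z)) (n 0 (n 996 z z) z)))))) (n 2 (n 0 z (n 0 (n 980 z z) (n 0 z (n 0 z (n 0 (n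
 980 z (n 980 z z)) (n 0 (n 980 z z) z)))))) (n 2 (n 0 (n 8852539 z z) (n 0 z (n 0 z (n 0 (n
 8852539 z z) (n 0 (n 8852539 z (n 8852539 z z)) (n 0 z z)))))) z)))))) z)))))))))))) (n 251 (n
 0 z (n 0 z (n 2 (n 0 z (n 0 z (n 1 z (n 1 z (n 2 (n 0 (n 5 z z) (n 0 (n 980 z z) (n 0 z (n 0 z
 (n 0 (n 8802675 z (n 980 z z)) (n 0 z z)))))) z))))) (n 0 z (n 0 z (n 0 z (n 0 z (n 0 z (n 0 z
 (n 0 z (n 0 z (n 0 z z)))))))))))) (n 251 (n 0 z (n 0 z (n 0 z (n 0 z (n 0 z (n 0 z (n 0 z (n 0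
 z (n 0 z (n 0 z (n 0 z (n 0 z z)))))))))))) (n 251 (n 0 z (n 0 z (n 0 z (n 0 z (n 0 z (n 0 z (n
 0 z (n 0 z (n 0 z (n 0 z (n 0 z (n 2 (n 2 (n 0 z (n 0 (n 996 z z) (n 0 z (n 0 (n 996 z z) (n 0
 (n 996 z (n 996 z z)) (n 0 z z)))))) (n 2 (n 0 z (n 0 z (n 0 z (n 0 (n 980 z z) (n 0 (n 980 z
 (n 980 z z)) (n 0 (n 980 z z) z)))))) (n 2 (n 0 (n 8847899 z z) (n 0 z (n 0 z (n 0 (n 8847899 z
 z) (n 0 (n 8847899 z (n 8847899 z z)) (n 0 z z)))))) z))) z)))))))))))) (n 249 (n 2 (n 1 z (n 1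
 z z)) (n 0 z (n 0 z (n 0 z (n 0 z (n 0 z (n 0 z (n 0 z (n 0 z (n 0 z (n 0 z (n 0 z (n 0 z (n 0
 z (n 0 z (n 0 z z)))))))))))))))) (n 245 (n 2 (n 0 z z) (n 0 z (n 0 z (n 0 z (n 0 z (n 0 z (n 0
 z (n 0 z (n 0 z (n 0 z (n 0 z (n 0 z (n 0 z (n 0 z (n 0 z (n 0 z z)))))))))))))))) (n 245 (n 0
 z (n 0 z (n 0 z (n 0 z (n 0 z (n 0 z (n 0 z (n 0 z (n 0 z (n 0 z (n 0 z (n 0 z (n 0 z (n 0 z (n
 0 z (n 2 z z)))))))))))))))) z))))))))))))) (n 0 (n 0 z (n 0 z (n 19 (n 0 z (n 0 z (n 0 z (n 0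
 z (n 0 z (n 0 z (n 0 z (n 0 z (n 0 z (n 0 z (n 0 z z))))))))))) (n 19 (n 0 z (n 0 z (n 0 z (n 0
 z (n 0 z (n 0 z (n 0 z (n 0 z (n 0 z (n 0 z (n 0 z z))))))))))) (n 19 (n 0 z (n 0 z (n 0 z (n 0
 z (n 0 z (n 0 z (n 0 z (n 0 z (n 0 z (n 0 z (n 0 z z))))))))))) (n 19 (n 0 z (n 2 (n 2 (n 0 z
 (n 0 z (n 0 z (n 0 z (n 0 z (n 0 z z)))))) (n 2 (n 0 z (n 0 z (n 0 z (n 0 z (n 0 z (n 0 z
 z)))))) (n 2 (n 0 z (n 0 z (n 0 z (n 0 z (n 0 z (n 0 z z)))))) (n 2 (n 0 z (n 0 z (n 0 z (n 0 z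
 (n 0 (n 8799003 z z) (n 0 z z)))))) (n 2 (n 0 z (n 0 z (n 0 z (n 0 z (n 0 z (n 0 z z)))))) (n 2
 (n 0 z (n 0 z (n 0 z (n 0 z (n 0 (n 8852539 z z) (n 0 z z)))))) z)))))) (n 0 z (n 0 z (n 0 z (n
 0 z (n 0 z (n 0 z (n 0 z (n 0 z (n 0 z z))))))))))) (n 247 (n 2 (n 0 z (n 0 z (n 1 z (n 1 z (n
 2 (n 0 z (n 0 z (n 0 z (n 0 z (n 0 (n 8656747 z z) (n 0 z z)))))) z))))) (n 0 z (n 0 z (n 0 z
 (n 0 z (n 0 z (n 0 z (n 0 z (n 0 z (n 0 z (n 0 z (n 0 z z)))))))))))) (n 247 (n 0 z (n 0 z (n 0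
 z (n 0 z (n 0 z (n 0 z (n 0 z (n 0 z (n 0 z (n 0 z (n 0 z (n 0 z z)))))))))))) (n 247 (n 0 z (n
 0 z (n 0 z (n 0 z (n 0 z (n 0 z (n 2 (n 2 (n 0 z (n 0 z (n 0 z (n 0 z (n 0 (n 8799003 z z) (n 0
 z z)))))) (n 2 (n 0 z (n 0 z (n 0 z (n 0 z (n 0 (n 8799003 z z) (n 0 z z)))))) (n 2 (n 0 z (n 0
 z (n 0 z (n 0 z (n 0 (n 8847899 z z) (n 0 z z)))))) z))) (n 0 z (n 0 z (n 0 z (n 0 z (n 0 z
 z)))))))))))) (n 15 (n 0 z (n 0 z (n 0 z (n 0 z (n 0 z (n 0 z (n 0 z (n 0 z (n 0 z (n 0 z (n 0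
 z (n 0 z (n 0 z (n 0 z z)))))))))))))) (n 17 (n 0 z (n 0 z (n 0 z (n 0 z (n 0 z (n 0 z (n 0 z
 (n 0 z (n 0 z (n 0 z (n 0 z (n 0 z z)))))))))))) (n 17 (n 0 z (n 0 z (n 2 z (n 0 z (n 0 z (n 0
 z (n 0 z (n 0 z (n 0 z (n 0 z (n 0 z (n 0 z z)))))))))))) z)))))))))))) (n 0 (n 0 z (n 123 (n 0
 z (n 0 z (n 0 z (n 0 z (n 0 z (n 0 z (n 0 z (n 0 z z)))))))) (n 123 (n 0 z (n 0 z (n 0 z (n 0 z
 (n 0 z (n 0 z (n 0 z (n 0 z z)))))))) (n 123 (n 0 z (n 0 z (n 2 (n 0 z (n 2 (n 0 z (n 0 z (n 0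
 z (n 0 z (n 0 z (n 0 z z)))))) (n 2 (n 0 z (n 0 z (n 0 z (n 0 z (n 0 z (n 0 z z)))))) (n 2 (n 0
 z (n 0 z (n 0 z (n 0 z (n 0 z (n 0 z z)))))) (n 1 z (n 1 z (n 2 (n 0 z (n 0 z (n 0 z (n 0 z (n
 0 z (n 0 z z)))))) z))))))) (n 0 z (n 0 z (n 0 z (n 0 z (n 0 z z)))))))) (n 123 (n 0 z (n 0 z
 (n 0 z (n 0 z (n 0 z (n 0 z (n 0 z (n 0 z z)))))))) (n 969 (n 0 z (n 0 z (n 0 z (n 0 z (n 0 z
 (n 0 z (n 0 z (n 0 z (n 0 z (n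
 0x6ecaca84038008317f67de8377ce8357e68537e47df8068097eb7d18097f38027f08017fb7f581b7ff81582e8297de7da7f780b7dc7ea82f7fc8187f78137ec80f7e17c780a7f68117f58018007ff7fc0811
 z (n 0 z (n 0 z (n 0 z (n 0 z (n 0 z (n 0 z (n 0 z z))))))))))))))))) (n 969 (n 0 z (n 0 z (n 0
 z (n 0 z (n 0 z (n 2 (n 0 z (n 2 (n 0 z (n 0 z (n 0 z (n 0 z (n 0 z (n 0 z z)))))) (n 2 (n 0 z
 (n 0 z (n 0 z (n 0 z (n 0 (n 8855811 z z) (n 0 z z)))))) (n 2 (n 0 z (n 0 z (n 0 z (n 0 z (n 0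
 z (n 0 z z)))))) z)))) (n 0 z (n 0 z (n 0 z (n 0 z (n 0 z (n 0 z (n 0 z (n 0 z (n 0 z (n 0 z (n
 0 z z))))))))))))))))) (n 969 (n 0 z (n 0 z (n 0 z (n 0 z (n 0 z (n 0 z (n 0 z (n 0 z (n 0 z (n
 0 z (n 0 z (n 0 z (n 0 z (n 0 z (n 0 z (n 0 z (n 0 z z))))))))))))))))) (n 723 (n 0 z (n 0 z (n
 0 z (n 0 z (n 2 (n 1 z (n 2 (n 0 z (n 0 z (n 0 z (n 0 z (n 0 z (n 0 z z)))))) z)) (n 0 z (n 0 z
 (n 0 z z)))))))) (n 121 (n 0 z (n 0 z (n 0 z (n 2 (n 0 z z) (n 0 z (n 0 z (n 0 z (n 0 z (n 0 z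
 (n 0 z (n 0 z (n 0 z (n 0 z z))))))))))))) (n 121 (n 0 z (n 0 z (n 0 z (n 0 z (n 0 z (n 0 z (n
 0 z (n 0 z (n 0 z (n 0 z (n 0 z (n 0 z (n 0 z z))))))))))))) z))))))))))) (n 0 (n 103 (n 0 z (n
 0 z (n 0 z (n 0 z (n 0 z (n 0 z (n 0 z (n 0 z z)))))))) (n 103 (n 0 z (n 0 z (n 0 z (n 0 z (n 0
 z (n 0 z (n 0 z (n 0 z z)))))))) (n 103 (n 0 z (n 0 z (n 0 z (n 6492275 z (n 0 z (n 0 z (n 0 z
 (n 0 z z)))))))) (n 103 (n 0 z (n 0 z (n 0 z (n 0 z (n 0 z (n 0 z (n 0 z (n 0 z z)))))))) (n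
 247 (n 0 z (n 0 z (n 0 z (n 0 z (n 0 z (n 0 z (n 0 z (n 0 z (n 0 z (n 0 z (n 0 z (n 0 z (n 0 z
 (n 0 z (n 0 z (n 0 z (n 0 z z))))))))))))))))) (n 247 (n 0 z (n 0 z (n 0 z (n 0 z (n 0 z (n 0 z
 (n 0 z (n 0 z (n 0 z (n 0 z (n 2 (n 0 z (n 1 z (n 1 z (n 2 (n 0 z (n 0 z (n 0 z (n 0 z (n 0 z
 (n 0 z z)))))) z)))) (n 0 z (n 0 z (n 0 z (n 0 z (n 0 z (n 0 z z))))))))))))))))) (n 247 (n 0 z
 (n 0 z (n 0 z (n 0 z (n 0 z (n 0 z (n 0 z (n 0 z (n 0 z (n 0 z (n 0 z (n 0 z (n 0 z (n 0 z (n 0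
 z (n 0 z (n 0 z z))))))))))))))))) (n 99 (n 0 z (n 0 z (n 0 z (n 0 z (n 6492275 z (n 0 z (n 0 z
 z))))))) (n 97 (n 0 z (n 0 z (n 0 z (n 0 z (n 6492275 z (n 0 z (n 0 z (n 0 z (n 0 z (n 0 z (n 0
 z (n 0 z (n 0 z (n 0 z (n 0 z (n 0 z (n 0 z (n 0 z (n 0 z (n 0 z (n 0 z (n 0 z (n 0 z (n 0 z (n
 0 z (n 0 z (n 0 z (n 0 z (n 0 z (n 0 z (n 0 z (n 0 z z)))))))))))))))))))))))))))))))) (n 97 (n
 0 z (n 0 z (n 0 z (n 0 z (n 0 z (n 0 z (n 0 z (n 0 z (n 0 z (n 0 z (n 0 z (n 0 z (n 0 z (n 0 z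
 (n 0 z (n 0 z (n 0 z (n 0 z (n 0 z (n 0 z (n 0 z (n 0 z (n 0 z (n 0 z (n 0 z (n 0 z (n 0 z (n 0
 z (n 7733787 z (n 7733787 z (n 0 z (n 0 z z)))))))))))))))))))))))))))))))) z)))))))))) (n 0 (n
 0 z (n 0 z (n 0 z (n 713 (n 0 z (n 2 (n 0 z (n 0 z (n 2 (n 0 z (n 0 z (n 0 z (n 0 z (n 0 z (n 0
 z z)))))) (n 2 (n 0 z (n 0 z (n 0 z (n 0 z (n 0 (n 8734571 z z) (n 0 z z)))))) (n 2 (n 0 z (n 0
 z (n 0 z (n 0 z (n 0 z (n 0 z z)))))) z))))) (n 0 z (n 0 z z)))) (n 713 (n 0 z (n 0 z (n 0 z (n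
 0 z z)))) (n 713 (n 0 z (n 0 z (n 0 z (n 2 (n 2 (n 0 z (n 0 z (n 0 z (n 0 z (n 0 z (n 0 z
 z)))))) (n 2 (n 0 z (n 0 z (n 0 z (n 0 z (n 0 z (n 0 z z)))))) (n 1 z z))) z)))) (n 21 (n 0 z
 (n 0 z (n 0 z (n 0 z (n 0 z (n 0 z (n 0 z (n 0 z (n 0 z (n 0 z z)))))))))) (n 17 (n 0 z (n 0 z
 (n 0 z (n 0 z (n 0 z (n 0 z (n 0 z (n 0 z (n 0 z (n 0 z (n 0 z (n 0 z (n 0 z z))))))))))))) (n
 17 (n 0 z (n 0 z (n 0 z (n 0 z (n 0 z (n 0 z (n 0 z (n 0 z (n 0 z (n 0 z (n 0 z (n 0 z (n 2 z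
 z))))))))))))) z))))))))) (n 0 (n 0 z (n 0 z (n 693 (n 0 z (n 0 z (n 0 z (n 0 z (n 0 z (n 0 z
 (n 0 z (n 0 z (n 0 z (n 0 z (n 2 (n 0 z (n 0 z (n 1 z (n 1 z (n 2 (n 0 z (n 0 z (n 0 z (n 0 z
 (n 0 z (n 0 z z)))))) z))))) (n 0 z (n 0 z (n 0 z (n 0 z (n 0 z (n 0 z (n 0 z (n 0 z (n 0 z (n
 0 z (n 0 z (n 0 z (n 0 z (n 0 z (n 0 z (n 0 z (n 0 z (n 0 z z))))))))))))))))))))))))))))) (n
 693 (n
 0x18ca4ea08077f88147fa7e18257ec8037f980c7fd7ee7fa80f7f07e77f17ee8128157f982b7fe80b7e78018168077f87ed7fe7f37de7fe7e981380880f8018078088137e981f7e780380a7fb8097f58080811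
 z (n 0 z (n 0 z (n 0 z (n 0 z (n 0 z (n 0 z (n 0 z (n 0 z (n 0 z (n 0 z (n 0 z (n 0 z (n 0 z (n
 0 z (n 0 z (n 0 z (n 0 z (n 0 z (n 0 z (n 0 z (n 0 z (n 0 z (n 0 z (n 0 z (n 0 z (n 0 z (n 0 z
 (n 0 z z))))))))))))))))))))))))))))) (n 693 (n 0 z (n 0 z (n 0 z (n 0 z (n 0 z (n 0 z (n 0 z
 (n 0 z (n 0 z (n 0 z (n 0 z (n 0 z (n 2 (n 2 (n 0 z (n 0 z (n 0 z (n 0 z (n 0 z (n 0 z z))))))
 (n 2 (n 0 z (n 0 z (n 0 z (n 0 z (n 0 z (n 0 z z)))))) (n 1 z z))) (n 0 z (n 0 z (n 0 z (n 0 z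
 (n 0 z (n 0 z (n 0 z (n 0 z (n 0 z (n 0 z (n 0 z (n 0 z (n 0 z (n 0 z (n 0 z (n 0 z
 z))))))))))))))))))))))))))))) (n 15 (n 0 z (n 0 z (n 0 z (n 0 z (n 0 z (n 0 z (n 0 z (n 0 z (n
 0 z z))))))))) (n 13 (n 0 z (n 0 z (n 0 z (n 0 z (n 0 z (n 0 z (n 0 z (n 0 z (n 0 z (n 0 z (n 0
 z (n 0 z (n 0 z (n 0 z (n 0 z (n 0 z (n 0 z (n 0 z (n 0 z (n 0 z (n 0 z (n 0 z
 z)))))))))))))))))))))) (n 13 (n 0 z (n 0 z (n 0 z (n 0 z (n 0 z (n 0 z (n 0 z (n 0 z (n 0 z (n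
 0 z (n 0 z (n 0 z (n 0 z (n 0 z (n 0 z (n 0 z (n 0 z (n 0 z (n 0 z (n 0 z (n 2 z (n 0 z
 z)))))))))))))))))))))) z)))))))) (n 0 (n 0 z (n 535 (n 2 (n 0 z (n 0 z (n 1 z (n 1 z (n 2 (n 0
 z (n 0 z (n 0 z (n 0 z (n 0 z (n 0 z z)))))) z))))) (n 0 z (n 0 z (n 0 z (n 0 z (n 0 z (n 0 z
 (n 0 z (n 0 z (n 0 z (n 0 z (n 0 z (n 0 z (n 0 z (n 0 z (n 0 z (n 0 z (n 0 z (n 0 z (n 0 z (n 0
 z (n 0 z (n 0 z (n 0 z (n 0 z (n 0 z (n 0 z (n 0 z (n 0 z (n 0 z (n 0 z (n 0 z (n 0 z (n 0 z (n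
 0 z z))))))))))))))))))))))))))))))))))) (n 535 (n 0 z (n 0 z (n 0 z (n 0 z (n 0 z (n 0 z (n 0
 z (n 0 z (n 0 z (n 0 z (n 0 z (n 0 z (n 0 z (n 0 z (n 0 z (n 0 z (n 0 z (n 0 z (n 0 z (n 0 z (n
 0 z (n 0 z (n 0 z (n 0 z (n 0 z (n 0 z (n 0 z (n 0 z (n 0 z (n 0 z (n 0 z (n 0 z (n 0 z (n 0 z
 (n 0 z z))))))))))))))))))))))))))))))))))) (n 535 (n 0 z (n 0 z (n 0 z (n 0 z (n 0 z (n 0 z (n
 0 z (n 0 z (n 0 z (n 0 z (n 0 z (n 0 z (n 0 z (n 2 (n 2 (n 0 z (n 0 z (n 0 z (n 0 z (n 0 (n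
 8790275 z z) (n 0 z z)))))) (n 2 (n 0 z (n 0 z (n 0 z (n 0 z (n 0 (n 8790275 z z) (n 0 z
 z)))))) (n 2 (n 0 z (n 0 z (n 0 z (n 0 z (n 0 z (n 0 z z)))))) z))) (n 0 z (n 0 z (n 0 z (n 0 z
 (n 0 z (n 0 z (n 0 z (n 0 z (n 0 z (n 0 z (n 0 z (n 0 z (n 0 z (n 0 z (n 0 z (n 0 z (n 0 z (n 0
 z (n 0 z (n 0 z (n 0 z z))))))))))))))))))))))))))))))))))) (n 483 (n 0 z (n 0 z (n 0 z (n 0 z
 (n 0 z (n 0 z (n 0 z (n 0 z (n 0 z z))))))))) (n 481 (n 0 z (n 0 z (n 0 z (n 0 z (n 0 z (n 0 z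
 (n 0 z (n 0 z (n 0 z (n 0 z (n 0 z (n 0 z (n 0 z (n 0 z (n 0 z (n 0 z (n 0 z (n 0 z (n 0 z (n 0
 z (n 0 z (n 0 z (n 0 z (n 0 z (n 0 z (n 0 z (n 0 z (n 0 z (n 0 z (n 0 z (n 0 z (n 0 z (n 0 z (n
 0 z (n 0 z (n 0 z (n 0 z (n 0 z (n 0 z (n 0 z (n 0 z (n 0 z (n 0 z (n 0 z (n 0 z (n 0 z (n 0 z
 z))))))))))))))))))))))))))))))))))))))))))))))) (n 481 (n 0 z (n 0 z (n 0 z (n 0 z (n 0 z (n 0
 z (n 0 z (n 0 z (n 0 z (n 0 z (n 0 z (n 0 z (n 0 z (n 0 z (n 0 z (n 0 z (n 0 z (n 0 z (n 0 z (n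
 0 z (n 0 z (n 0 z (n 0 z (n 0 z (n 0 z (n 0 z (n 0 z (n 0 z (n 0 z (n 0 z (n 0 z (n 0 z (n 0 z
 (n 0 z (n 0 z (n 0 z (n 0 z (n 0 z (n 0 z (n 0 z (n 0 z (n 0 z (n 0 z (n 0 z (n 2 z (n 0 z (n 0
 z z))))))))))))))))))))))))))))))))))))))))))))))) z))))))) (n 0 (n 247 (n 2 (n 0 z (n 0 z (n 1
 z (n 1 z (n 1 z z))))) (n 0 z (n 0 z (n 0 z (n 0 z (n 0 z (n 0 z (n 0 z (n 0 z (n 0 z (n 0 z (n
 0 z (n 0 z (n 0 z (n 0 z (n 0 z z)))))))))))))))) (n 247 (n 0 z (n 0 z (n 0 z (n 0 z (n 0 z (n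
 0 z (n 0 z (n 0 z (n 0 z (n 0 z (n 2 (n 0 z (n 2 (n 0 z (n 0 z (n 0 z (n 0 z (n 0 (n 8855811 z
 z) (n 0 z z)))))) (n 2 (n 0 z (n 0 z (n 0 z (n 0 z (n 0 z (n 0 z z)))))) (n 2 (n 0 z (n 0 z (n
 0 z (n 0 z (n 0 (n 8787003 z z) (n 0 z z)))))) z)))) (n 0 z (n 0 z (n 0 z (n 0 z (n 0 z
 z)))))))))))))))) (n 247 (n 0 z (n 0 z (n 0 z (n 0 z (n 0 z (n 0 z (n 0 z (n 0 z (n 0 z (n 0 z
 (n 0 z (n 0 z (n 0 z (n 0 z (n 0 z (n 0 z z)))))))))))))))) (n 243 (n 0 z (n 0 z (n 0 z (n 0 z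
 (n 0 z (n 0 z (n 0 z (n 0 z (n 0 z (n 0 z (n 0 z (n 0 z (n 0 z (n 0 z (n 0 z (n 0 z
 z)))))))))))))))) (n 241 (n 0 z (n 0 z (n 2 (n 0 z z) (n 0 z (n 0 z (n 0 z (n 0 z (n 0 z (n 0 z
 (n 0 z (n 0 z (n 0 z z)))))))))))) (n 241 (n 0 z (n 0 z (n 0 z (n 0 z (n 0 z (n 0 z (n 0 z (n 0
 z (n 0 z (n 0 z (n 0 z (n 0 z z)))))))))))) z)))))) (n 0 (n 0 z (n 0 z (n 3 (n 0 z (n 0 z (n 0
 z (n 0 z (n 0 z (n 0 z (n 0 z (n 2 (n 1 z (n 2 (n 0 z (n 0 z (n 0 z (n 0 z (n 0 (n 4 z z) (n 0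
 z z)))))) z)) (n 0 z (n 0 z (n 0 z (n 0 z (n 0 z z))))))))))))) (n 1 (n 0 z (n 2 (n 0 z z) (n 0
 z (n 0 z (n 0 z (n 0 z (n 0 z (n 0 z (n 0 z (n 0 z (n 0 z z))))))))))) (n 1 (n 0 z (n 0 z (n 0
 z (n 0 z (n 0 z (n 0 z (n 2 z (n 0 z (n 0 z (n 0 z (n 0 z z))))))))))) z))))) (n 0 (n 0 z (n 15
 (n 0 z (n 0 z (n 0 z (n 0 z (n 0 z (n 0 z (n 0 z (n 0 z (n 0 z z))))))))) (n 13 (n 0 z (n 0 z
 (n 0 z (n 0 z (n 0 z (n 0 z (n 0 z (n 0 z (n 0 z (n 0 z (n 0 z (n 0 z z)))))))))))) (n 13 (n 0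
 z (n 0 z (n 0 z (n 0 z (n 0 z (n 0 z (n 0 z (n 2 z (n 0 z (n 0 z (n 0 z (n 0 z z))))))))))))
 z)))) (n 0 (n 3 (n 0 z (n 0 z (n 0 z (n 2 (n 1 z (n 2 (n 0 z (n 0 z (n 0 z (n 0 z (n 0 z (n 0 z
 z)))))) z)) z)))) (n 1 (n 0 z (n 0 z (n 2 (n 0 z z) (n 0 z (n 0 z (n 0 z (n 0 z (n 0 z (n 0 z
 (n 0 z (n 0 z (n 0 z (n 0 z (n 0 z z)))))))))))))) (n 1 (n 0 z (n 0 z (n 0 z (n 0 z (n 0 z (n 0
 z (n 0 z (n 0 z (n 0 z (n 0 z (n 0 z (n 0 z (n 0 z (n 0 z z)))))))))))))) z))) (n 0 (n 25 (n 0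
 z (n 0 z (n 0 z (n 0 z (n 0 z (n 0 z (n 0 z (n 0 z (n 0 z (n 0 z (n 0 z (n 0 z (n 0 z (n 0 z (n
 0 z (n 0 z (n 0 z (n 0 z (n 0 z (n 0 z (n 0 z (n 0 z (n 0 z (n 0 z (n 0 z (n 0 z (n 0 z (n 0 z
 (n 0 z (n 0 z (n 0 z (n 0 z (n 0 z (n 0 z (n 0 z (n 0 z (n 0 z (n 0 z (n 0 z (n 0 z (n 0 z (n 0
 z (n 0 z (n 0 z (n 0 z (n 0 z (n 0 z (n 0 z (n 0 z
 z))))))))))))))))))))))))))))))))))))))))))))))))) (n 25 (n 0 z (n 0 z (n 0 z (n 0 z (n 0 z (n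
 0 z (n 0 z (n 0 z (n 0 z (n 0 z (n 0 z (n 0 z (n 0 z (n 0 z (n 0 z (n 0 z (n 0 z (n 0 z (n 0 z
 (n 0 z (n 0 z (n 0 z (n 0 z (n 0 z (n 0 z (n 0 z (n 0 z (n 0 z (n 0 z (n 0 z (n 0 z (n 0 z (n 2
 z (n 0 z (n 0 z (n 0 z (n 0 z (n 0 z (n 0 z (n 0 z (n 0 z (n 0 z (n 0 z (n 0 z (n 0 z (n 0 z (n
 0 z (n 0 z (n 0 z z))))))))))))))))))))))))))))))))))))))))))))))))) z)) (n 0 (n 0 z z) (n 0 z
 z))))))))))))))) (n 0 (n 1 (n 6631747 z (n 6631747 z (n 6636307 z (n 6631747 z (n 6631747 z (n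
 6631747 z z)))))) (n 0 z z)) (n 0 z z)))) (n
 0x92d743a9ca1551d073b28365768b2b902ae44158e10a352912b660b5b2c469d34568b41a54d940 (n 0 (n 153 (n
 0 z (n 6496275 z (n 2 z (n 0 z z)))) (n 33 (n 0 z (n 0 z (n 0 z (n 0 z (n 0 z (n 6496515 z (n 0
 z z))))))) (n 9 (n 10 z (n
 0x2ca8ca86038008047fe8018018018017fe80e7f58007fd7fe8018038008008048017fa7f88047ff7fd8057fe7fa7f780c8017f780180080d7fc7fc8037fc8057fd8057f37fe7fe7fc8008028058048020811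
 z (n 6496523 z (n 18 z (n 6496275 z (n 6496515 z (n 6496523 z (n
 0xca8ca82037ff8017ff7fe8017ff8017ff8018008008008008008008008008008017ff8018007ff8018008007ff8008008008008008008008008008008008008008008008008008008008008008008000811
 z (n 0 z z))))))))) (n 27 (n 26 z (n 34 z (n 0 z (n 0 z (n 6496515 z (n 42 z z)))))) (n 7 (n 50
 z (n 0 z (n 58 z (n 0 z (n 0 z (n 0 z (n 66 z (n 0 z (n 0 z (n 6558219 z (n 74 z (n 0 z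
 z)))))))))))) (n 0 (n 82 z (n 90 z (n
 0x1526108008387fe80080179f80a8017e481b7fa7da8068298368548097f78287b581a7df7d98027d97d48287b082b7e184c8727bc7c07807978177f38397b381f82d83285082486181475d8088460051
 z (n 98 z (n 0 z (n 106 z (n 0 z (n 114 z (n 0 z (n 0 z (n 2164315 z (n 0 z (n 0 z (n 0 z
 z)))))))))))))) z)))))) (n 153 (n 0 (n 369 (n 0 z (n 0 z (n 0 z (n 0 z (n 0 z (n 0 z (n 0 z (n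
 0 z (n 0 z (n 0 z (n 0 z (n 0 z (n 0 z (n 2 (n 0 z (n 2 (n 0 z (n 0 z (n 0 z (n 0 z (n 0 z (n 0
 z z)))))) (n 2 (n 0 z (n 0 z (n 0 z (n 0 z (n 0 z (n 0 z z)))))) (n 2 (n 0 z (n 0 z (n 0 z (n 0
 z (n 0 z (n 0 z z)))))) (n 2 (n 0 z (n 0 z (n 0 z (n 0 z (n 0 z (n 0 z z)))))) (n 2 (n 0 z (n 0
 z (n 0 z (n 0 z (n 0 z (n 0 z z)))))) (n 2 (n 0 z (n 0 z (n 0 z (n 0 z (n 0 z (n 0 z z)))))) (n
 2 (n 0 z (n 0 z (n 0 z (n 0 z (n 0 z (n 0 z z)))))) (n 2 (n 0 z (n 0 z (n 0 z (n 0 z (n 0 z (n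
 0 z z)))))) (n 2 (n 0 z (n 0 z (n 0 z (n 0 z (n 0 z (n 0 z z)))))) (n 2 (n 0 z (n 0 z (n 0 z (n
 0 z (n 0 z (n 0 z z)))))) (n 2 (n 0 z (n 0 z (n 0 z (n 0 z (n 0 z (n 0 z z)))))) (n 2 (n 0 z (n
 0 z (n 0 z (n 0 z (n 0 z (n 0 z z)))))) z))))))))))))) (n 0 z (n 0 z (n 0 z (n 0 z (n 0 z (n 0
 z (n 0 z z))))))))))))))))))))) (n 369 (n 0 z (n 0 z (n 0 z (n 0 z (n 0 z (n 0 z (n 0 z (n 0 z
 (n 0 z (n 0 z (n 0 z (n 0 z (n 0 z (n 0 z (n 0 z (n 0 z (n 0 z (n 0 z (n 0 z (n 0 z (n 0 z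
 z))))))))))))))))))))) (n 555 (n 0 z (n 2 (n 0 z (n 0 z (n 2 (n 0 z (n 0 z (n 0 z (n 0 z (n 0 z
 (n 0 z z)))))) (n 2 (n 0 z (n 0 z (n 0 z (n 0 z (n 0 z (n 0 z z)))))) (n 2 (n 0 z (n 0 z (n 0 z
 (n 0 z (n 0 z (n 0 z z)))))) (n 2 (n 0 z (n 0 z (n 0 z (n 0 z (n 0 z (n 0 (n 8798547 z z)
 z)))))) (n 2 (n 0 z (n 0 z (n 0 z (n 0 z (n 0 z (n 0 (n 8782619 z z) z)))))) (n 2 (n 0 z (n 0 z
 (n 0 z (n 0 (n 1220 z z) (n 0 (n 8728931 z z) (n 0 (n 7608427 z (n 1220 z z)) z)))))) (n 2 (n 0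
 z (n 0 z (n 0 z (n 0 z (n 0 z (n 0 z z)))))) (n 2 (n 0 z (n 0 z (n 0 z (n 0 z (n 0 z (n 0 z
 z)))))) (n 2 (n 0 z (n 0 z (n 0 z (n 0 z (n 0 z (n 0 z z)))))) z))))))))))) (n 0 z (n 0 z (n 0
 z (n 0 z (n 0 z z))))))) (n 555 (n 2 (n 0 z (n 2 (n 0 z (n 0 z (n 0 z (n 0 z (n 0 z (n 0 z
 z)))))) (n 2 (n 0 z (n 0 z (n 0 z (n 0 z (n 0 z (n 0 z z)))))) (n 2 (n 0 z (n 0 z (n 0 z (n 0 z
 (n 0 z (n 0 (n 1428 z z) z)))))) (n 1 z (n 1 z (n 1 z (n 2 (n 0 z (n 0 z (n 0 z (n 0 z (n 0 z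
 (n 0 z z)))))) (n 2 (n 0 z (n 0 z (n 0 z (n 0 z (n 0 z (n 0 (n 1220 z z) z)))))) (n 1 z
 z)))))))))) (n 0 z (n 0 z (n 0 z (n 0 z (n 0 z (n 0 z z))))))) (n 555 (n 0 z (n 0 z (n 0 z (n 0
 z (n 0 z (n 0 z (n 0 z z))))))) (n 357 (n 0 z (n 0 z (n 0 z (n 0 z (n 0 z z))))) (n 357 (n 0 z
 (n 0 z (n 0 z (n 0 z (n 0 z z))))) (n 357 (n 0 z (n 0 z (n 0 z (n 0 z (n 0 z z))))) (n 357 (n 0
 z (n 0 z (n 0 z (n 0 z (n 0 z z))))) (n 305 (n 0 z (n 0 z (n 0 z (n 0 z (n 0 z (n 0 z (n 0 z (n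
 0 z (n 0 z (n 0 z (n 0 z (n 0 z (n 0 z (n 0 z (n 0 z (n 0 z z)))))))))))))))) (n 305 (n 0 z (n
 2 (n 0 z (n 0 z (n 0 z z))) (n 0 z (n 0 z (n 0 z (n 0 z (n 0 z (n 0 z (n 0 z (n 0 z (n 0 z (n 0
 z (n 0 z (n 0 z (n 0 z (n 0 z z)))))))))))))))) (n 305 (n 0 z (n 0 z (n 0 z (n 0 z (n 0 z (n 0
 z (n 2 (n 0 z (n 0 z z)) (n 0 z (n 0 z (n 0 z (n 0 z (n 0 z (n 0 z (n 0 z (n 0 z (n 0 z
 z)))))))))))))))) (n 305 (n 0 z (n 0 z (n 0 z (n 0 z (n 0 z (n 0 z (n 0 z (n 0 z (n 7680355 z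
 (n 0 z (n 0 z (n 0 z (n 0 z (n 0 z (n 0 z (n 0 z z)))))))))))))))) (n 305 (n 0 z (n 0 z (n 0 z
 (n 0 z (n 0 z (n 0 z (n 0 z (n 0 z (n 0 z (n 0 z (n 0 z (n 0 z (n 0 z (n 0 z (n 0 z (n 0 z
 z)))))))))))))))) z)))))))))))))) (n 0 (n 0 z (n 7 (n 0 z (n 0 z (n 0 z (n 0 z (n 0 z (n 0 z (n
 0 z (n 0 z (n 0 z (n 0 z (n 0 z (n 0 z z)))))))))))) (n 7 (n 2 (n 0 z (n 1 z (n 2 (n 0 z (n 0 z
 (n 0 z (n 0 z (n 0 z (n 0 (n 2892 z z) z)))))) (n 2 (n 0 z (n 0 z (n 0 z (n 0 z (n 0 z (n 0 z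
 z)))))) (n 2 (n 0 z (n 0 z (n 0 z (n 0 z (n 0 z (n 0 (n 2892 z z) z)))))) (n 1 z (n 1 z (n 2 (n
 0 z (n 0 z (n 0 z (n 0 z (n 0 z (n 0 (n 22 z z) z)))))) (n 2 (n 0 z (n 0 z (n 0 z (n 0 z (n 0 z
 (n 0 (n 8803355 z z) z)))))) (n 2 (n 0 z (n 0 z (n 0 z (n 0 z (n 0 z (n 0 z z)))))) z))))))))))
 (n 0 z (n 0 z (n 0 z (n 0 z (n 0 z (n 0 z (n 0 z (n 0 z (n 0 z (n 0 z (n 0 z z)))))))))))) (n 7
 (n 0 z (n 0 z (n 0 z (n 0 z (n 0 z (n 0 z (n 0 z (n 0 z (n 2 (n 2 (n 0 z (n 0 z (n 0 z (n 0 z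
 (n 0 z (n 0 (n 8786699 z z) z)))))) (n 2 (n 0 z (n 0 z (n 0 z (n 0 z (n 0 z (n 0 z z)))))) (n 2
 (n 0 z (n 0 z (n 0 z (n 0 z (n 0 z (n 0 z z)))))) (n 2 (n 0 z (n 0 z (n 0 z (n 0 z (n 0 z (n 0
 z z)))))) (n 2 (n 0 z (n 0 z (n 0 z (n 0 z (n 0 z (n 0 z z)))))) (n 2 (n 0 z (n 0 z (n 0 z (n 0
 z (n 0 z (n 0 z z)))))) (n 2 (n 0 z (n 0 z (n 0 z (n 0 z (n 0 z (n 0 z z)))))) (n 2 (n 0 z (n 0
 z (n 0 z (n 0 z (n 0 z (n 0 z z)))))) (n 2 (n 0 z (n 0 z (n 0 z (n 0 z (n 0 z (n 0 z z))))))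
 z))))))))) (n 0 z (n 0 z (n 0 z z)))))))))))) (n 723 (n 0 z (n 0 z (n 0 z (n 0 z (n 0 z (n 0 z
 (n 0 z (n 0 z (n 0 z (n 0 z z)))))))))) (n 723 (n 2 (n 0 z (n 0 z (n 2 (n 0 z (n 0 z (n 0 z (n
 0 z (n 0 z (n 0 (n 388 z z) z)))))) (n 2 (n 0 z (n 0 z (n 0 z (n 0 (n 388 z z) (n 0 (n 53 z z)
 (n 0 (n 388 z (n 388 z z)) z)))))) (n 1 z (n 1 z (n 2 (n 0 z (n 0 z (n 0 z (n 0 z (n 0 z (n 0 z
 z)))))) z))))))) (n 0 z (n 0 z (n 0 z (n 0 z (n 0 z (n 0 z (n 0 z (n 0 z (n 0 z z)))))))))) (n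
 723 (n 0 z (n 0 z (n 0 z (n 0 z (n 2 (n 0 z (n 2 (n 0 z (n 0 z (n 0 z (n 0 z (n 0 z (n 0 z
 z)))))) (n 2 (n 0 (n 8455755 z z) (n 0 z (n 0 (n 8864099 z z) (n 0 z (n 0 z (n 0 (n 8787787 z
 (n 388 z z)) z)))))) (n 2 (n 0 z (n 0 z (n 0 z (n 0 z (n 0 z (n 0 (n 8591211 z z) z)))))) (n 2
 (n 0 z (n 0 z (n 0 z (n 0 z (n 0 z (n 0 (n 8872979 z z) z)))))) (n 2 (n 0 z (n 0 z (n 0 z (n 0
 z (n 0 z (n 0 z z)))))) z)))))) (n 0 z (n 0 z (n 0 z (n 0 z (n 0 z z)))))))))) (n 723 (n 0 z (n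
 0 z (n 0 z (n 0 z (n 0 z (n 0 z (n 0 z (n 2 (n 2 (n 0 z (n 0 z (n 0 z (n 0 z (n 0 z (n 0 z
 z)))))) (n 2 (n 0 z (n 0 z (n 0 z (n 0 z (n 0 z (n 0 z z)))))) (n 2 (n 0 z (n 0 z (n 0 z (n 0 z
 (n 0 z (n 0 z z)))))) (n 2 (n 0 z (n 0 z (n 0 z (n 0 z (n 0 z (n 0 z z)))))) (n 2 (n 0 z (n 0 z
 (n 0 z (n 0 z (n 0 z (n 0 z z)))))) z))))) (n 0 z (n 0 z z)))))))))) (n 97 (n 2 (n 0 z (n 0 z
 (n 0 z (n 0 z z)))) (n 0 z (n 0 z (n 0 z (n 0 z (n 0 z (n 0 z (n 0 z (n 0 z (n 0 z (n 0 z (n 0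
 z (n 0 z (n 0 z (n 0 z (n 0 z (n 0 z (n 0 z (n 0 z (n 0 z (n 0 z (n 0 z (n 0 z (n 0 z (n 0 z (n
 0 z (n 0 z (n 0 z z)))))))))))))))))))))))))))) (n 97 (n 0 z (n 0 z (n 2 (n 0 z (n 0 z (n 0 z
 z))) (n 0 z (n 0 z (n 0 z (n 0 z (n 0 z (n 0 z (n 0 z (n 0 z (n 0 z (n 0 z (n 0 z (n 0 z (n 0 z
 (n 0 z (n 0 z (n 0 z (n 0 z (n 0 z (n 0 z (n 0 z (n 0 z (n 0 z (n 0 z (n 0 z (n 0 z
 z)))))))))))))))))))))))))))) (n 97 (n 0 z (n 0 z (n 0 z (n 0 z (n 0 z (n 0 z (n 0 z (n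
 0x2ec8ec82037ff8087fe8058008038057fe81a7e88017f58007fc80880280180a7fe7f37f380e8008008067fd7fb7ea80c7fd7ef8068008167f17fd8038027fe7fa8077e58008067f88097fe8068048060811
 z (n 0 z (n 0 z (n 0 z (n 0 z (n 0 z (n 0 z (n 0 z (n 0 z (n 0 z (n 0 z (n 0 z (n 0 z (n 0 z (n
 0 z (n 0 z (n 0 z (n 0 z (n 0 z (n 0 z (n 0 z z)))))))))))))))))))))))))))) (n 97 (n 0 z (n 0 z
 (n 0 z (n 0 z (n 0 z (n 0 z (n 0 z (n 0 z (n 0 z (n 0 z (n 0 z (n 7754779 z (n 0 z (n 0 z (n 0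
 z (n 0 z (n 0 z (n 0 z (n 0 z (n 0 z (n 0 z (n 0 z (n 0 z (n 0 z (n 0 z (n 0 z (n 0 z (n 0 z
 z)))))))))))))))))))))))))))) (n 97 (n 0 z (n 0 z (n 0 z (n 0 z (n 0 z (n 0 z (n 0 z (n 0 z (n
 0 z (n 0 z (n 0 z (n 0 z (n 2 z (n 0 z (n 0 z (n 0 z (n 0 z (n 0 z (n 0 z (n 0 z (n 0 z (n 0 z
 (n 0 z (n 0 z (n 0 z (n 0 z (n 0 z (n 0 z z)))))))))))))))))))))))))))) z))))))))))))) (n 0 (n
 27 (n 0 z (n 2 (n 0 z (n 0 z (n 2 (n 0 z (n 0 z (n 0 z (n 0 z (n 0 z (n 0 z z)))))) (n 2 (n 0 z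
 (n 0 z (n 0 z (n 0 z (n 0 z (n 0 z z)))))) (n 2 (n 0 z (n 0 z (n 0 z (n 0 z (n 0 z (n 0 z
 z)))))) (n 2 (n 0 z (n 0 z (n 0 z (n 0 z (n 0 z (n 0 (n 8798547 z z) z)))))) (n 2 (n 0 z (n 0 z
 (n 0 z (n 0 z (n 0 z (n 0 (n 8782619 z z) z)))))) (n 2 (n 0 z (n 0 z (n 0 (n 68 z z) (n 0 z (n
 0 (n 8728931 z z) (n 0 (n 68 z (n 68 z z)) z)))))) (n 2 (n 0 z (n 0 z (n 0 z (n 0 z (n 0 z (n 0
 z z)))))) (n 2 (n 0 z (n 0 z (n 0 z (n 0 z (n 0 z (n 0 z z)))))) (n 2 (n 0 z (n 0 z (n 0 z (n 0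
 z (n 0 z (n 0 z z)))))) z))))))))))) (n 0 z (n 0 z (n 0 z (n 0 z (n 0 z (n 0 z (n 0 z (n 0 z (n
 0 z z))))))))))) (n 27 (n 2 (n 0 z (n 2 (n 0 z (n 0 z (n 0 z (n 0 z (n 0 z (n 0 (n 8456043 z z)
 z)))))) (n 2 (n 0 z (n 0 z (n 0 z (n 0 z (n 0 z (n 0 (n 8456043 z z) z)))))) (n 2 (n 0 z (n 0 z
 (n 0 z (n 0 z (n 0 z (n 0 (n 8456043 z z) z)))))) (n 1 z (n 1 z (n 1 z (n 2 (n 0 z (n 0 z (n 0
 z (n 0 z (n 0 z (n 0 (n 8456043 z z) z)))))) (n 1 z (n 1 z z)))))))))) (n 0 z (n 0 z (n 0 z (n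
 0 z (n 0 z (n 0 z (n 0 z (n 0 z (n 0 z (n 0 z z))))))))))) (n 27 (n 0 z (n 0 z (n 0 z (n 0 z (n
 0 z (n 0 z (n 0 z (n 0 z (n 0 z (n 0 z (n 0 z z))))))))))) (n 729 (n 0 z (n 0 z (n 0 z (n 0 z
 (n 0 z (n 0 z (n 0 z (n 0 z (n 0 z (n 2 (n 0 z (n 0 z (n 0 z (n 2 (n 0 z (n 0 z (n 0 z (n 0 z
 (n 0 z (n 0 z z)))))) (n 2 (n 0 z (n 0 z (n 0 z (n 0 z (n 0 z (n 0 z z)))))) (n 2 (n 0 z (n 0 z
 (n 0 z (n 0 z (n 0 z (n 0 z z)))))) (n 2 (n 0 z (n 0 z (n 0 z (n 0 z (n 0 z (n 0 z z)))))) (n 2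
 (n 0 z (n 0 z (n 0 z (n 0 z (n 0 z (n 0 z z)))))) z)))))))) (n 0 z (n 0 z (n 0 z (n 0 z (n 0 z
 (n 0 z (n 0 z (n 0 z (n 0 z (n 0 z (n 0 z (n 0 z z)))))))))))))))))))))) (n 729 (n 0 z (n 0 z
 (n 0 z (n 0 z (n 0 z (n 0 z (n 0 z (n 0 z (n 0 z (n 0 z (n 0 z (n 0 z (n 0 z (n 0 z (n 0 z (n 0
 z (n 0 z (n
 0x5d85d81406002ea8ca46038008267fc8058057f98237ff8557a67ff7d57fd8118217fa80483f80f7aa7cd7f17e07fb8177ea7ee7ac84b7d77d383f7f38827a17db8187e281e7eb81b79b80c8467bf84b7f37ec82a7f31011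
 z (n 0 z (n 0 z (n 0 z (n 0 z z)))))))))))))))))))))) (n 729 (n 0 z (n 0 z (n 0 z (n 0 z (n 0 z
 (n 0 z (n 0 z (n 0 z (n 0 z (n 0 z (n 0 z (n 0 z (n 0 z (n 0 z (n 0 z (n 0 z (n 0 z (n 0 z (n 0
 z (n 0 z (n 0 z (n 0 z z)))))))))))))))))))))) (n 729 (n 0 z (n 0 z (n 0 z (n 0 z (n 0 z (n 0 z
 (n 0 z (n 0 z (n 0 z (n 0 z (n 0 z (n 0 z (n 0 z (n 0 z (n 0 z (n 0 z (n 0 z (n 0 z (n 0 z (n 0
 z (n 0 z (n 0 z z)))))))))))))))))))))) (n 17 (n 0 z (n 0 z (n 0 z (n 0 z (n 0 z (n 0 z (n 0 z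
 (n 0 z (n 0 z (n 0 z z)))))))))) (n 17 (n 2 (n 0 z (n 0 z (n 0 z z))) (n 0 z (n 0 z (n 0 z (n 0
 z (n 0 z (n 0 z (n 0 z (n 0 z (n 0 z z)))))))))) (n 17 (n 0 z (n 0 z (n 2 (n 0 z (n 0 z z)) (n
 0 z (n 0 z (n 0 z (n 0 z (n 0 z (n 0 z (n 0 z z)))))))))) (n 17 (n 0 z (n 0 z (n 0 z (n 0 z (n
 0 z (n 0 z (n 0 z (n 7680355 z (n 0 z (n 0 z z)))))))))) (n 17 (n 0 z (n 0 z (n 0 z (n 2 z (n 0
 z (n 0 z (n 0 z (n 0 z (n 0 z (n 0 z z)))))))))) z)))))))))))) (n 0 (n 0 z (n 0 z (n 3 (n 0 z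
 (n 0 z (n 0 z (n 0 z (n 0 z (n 0 z (n 0 z z))))))) (n 3 (n 0 z (n 2 (n 0 z (n 0 z (n 2 (n 0 z
 (n 0 z (n 0 z (n 0 z (n 0 z (n 0 z z)))))) (n 2 (n 0 (n 8455755 z z) (n 0 (n 212 z z) (n 0 z (n
 0 z (n 0 z (n 0 (n 212 z (n 8803187 z z)) z)))))) (n 1 z (n 2 (n 0 z (n 0 z (n 0 z (n 0 z (n 0
 z (n 0 (n 8803355 z z) z)))))) (n 2 (n 0 z (n 0 z (n 0 z (n 0 z (n 0 z (n 0 z z)))))) z)))))))
 (n 0 z (n 0 z (n 0 z (n 0 z (n 0 z z))))))) (n 3 (n 0 z (n 0 z (n 0 z (n 0 z (n 2 (n 0 z (n 2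
 (n 0 z (n 0 z (n 0 z (n 0 z (n 0 z (n 0 z z)))))) (n 2 (n 0 (n 8455755 z z) (n 0 z (n 0 (n
 8864099 z z) (n 0 z (n 0 z (n 0 (n 8787787 z (n 212 z z)) z)))))) (n 2 (n 0 z (n 0 z (n 0 z (n
 0 z (n 0 z (n 0 z z)))))) (n 2 (n 0 z (n 0 z (n 0 z (n 0 z (n 0 z (n 0 z z)))))) (n 2 (n 0 z (n
 0 z (n 0 z (n 0 z (n 0 z (n 0 z z)))))) z)))))) (n 0 z (n 0 z z))))))) (n 3 (n 0 z (n 0 z (n 0
 z (n 0 z (n 0 z (n 0 z (n 2 (n 2 (n 0 z (n 0 z (n 0 z (n 0 z (n 0 z (n 0 z z)))))) (n 2 (n 0 z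
 (n 0 z (n 0 z (n 0 z (n 0 z (n 0 z z)))))) (n 2 (n 0 z (n 0 z (n 0 z (n 0 z (n 0 z (n 0 z
 z)))))) (n 2 (n 0 z (n 0 z (n 0 z (n 0 z (n 0 z (n 0 z z)))))) (n 2 (n 0 z (n 0 z (n 0 z (n 0 z
 (n 0 z (n 0 z z)))))) z))))) z))))))) (n 53 (n 0 z (n 0 z (n 0 z (n 0 z (n 0 z (n 0 z (n 0 z (n
 0 z (n 0 z (n 0 z (n 0 z (n 0 z (n 2 (n 0 z (n 0 z (n 0 z (n 0 z z)))) (n 0 z (n 0 z (n 0 z (n
 0 z (n 0 z (n 0 z (n 0 z (n 0 z (n 0 z (n 0 z (n 0 z (n 0 z (n 0 z (n 0 z (n 0 z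
 z)))))))))))))))))))))))))))) (n 53 (n 0 z (n 0 z (n 0 z (n 0 z (n 0 z (n 0 z (n 0 z (n 0 z (n
 0 z (n 0 z (n 0 z (n 0 z (n 0 z (n 0 z (n 0 z (n 0 z (n 2 (n 0 z (n 0 z (n 0 z z))) (n 0 z (n 0
 z (n 0 z (n 0 z (n 0 z (n 0 z (n 0 z (n 0 z (n 0 z (n 0 z (n 0 z z))))))))))))))))))))))))))))
 (n 53 (n 0 z (n 0 z (n 0 z (n 0 z (n 0 z (n 0 z (n 0 z (n 0 z (n 0 z (n 0 z (n 0 z (n 0 z (n 0
 z (n 0 z (n 0 z (n 0 z (n 0 z (n 0 z (n 0 z (n 0 z (n 0 z (n 0 z (n 0 z (n 0 z (n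
 0x2ec8ec82037ff8077fe8048018028047fe8157ed8017f78007fd8078028018097ff7f57f680b8008008057fe7fc7ef80a7fe7f28058008117f47fe8028017fe7fb8057ea8008067f98078008058038050811
 z (n 0 z (n 0 z (n 0 z z)))))))))))))))))))))))))))) (n 53 (n 0 z (n 0 z (n 0 z (n 0 z (n 0 z
 (n 0 z (n 0 z (n 0 z (n 0 z (n 0 z (n 0 z (n 0 z (n 0 z (n 0 z (n 0 z (n 0 z (n 0 z (n 0 z (n 0
 z (n 0 z (n 0 z (n 0 z (n 0 z (n 0 z (n 0 z (n 0 z (n 0 z (n 0 z z))))))))))))))))))))))))))))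
 (n 53 (n 2 z (n 0 z (n 0 z (n 0 z (n 0 z (n 0 z (n 0 z (n 0 z (n 0 z (n 0 z (n 0 z (n 0 z (n 0
 z (n 0 z (n 0 z (n 0 z (n 0 z (n 0 z (n 0 z (n 0 z (n 0 z (n 0 z (n 0 z (n 0 z (n 0 z (n 0 z (n
 0 z (n 0 z z)))))))))))))))))))))))))))) z))))))))))) (n 0 (n 0 z (n 3 (n 2 (n 0 z (n 0 z (n 0
 z (n 1 z (n 1 z (n 2 (n 0 z (n 0 z (n 0 z (n 0 z (n 0 z (n 0 z z)))))) (n 2 (n 0 z (n 0 z (n 0
 z (n 0 z (n 0 z (n 0 z z)))))) (n 2 (n 0 z (n 0 z (n 0 z (n 0 z (n 0 z (n 0 z z)))))) z))))))))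
 (n 0 z (n 0 z (n 0 z (n 0 z (n 0 z (n 0 z (n 0 z z)))))))) (n 3 (n 0 z (n 0 z (n 0 z (n 2 (n 0
 z (n 0 z (n 2 (n 0 z (n 0 z (n 0 z (n 0 z (n 0 z (n 0 z z)))))) (n 2 (n 0 z (n 0 z (n 0 z (n 0
 z (n 0 z (n 0 z z)))))) (n 2 (n 0 z (n 0 z (n 0 z (n 0 z (n 0 z (n 0 z z)))))) (n 2 (n 0 z (n 0
 z (n 0 z (n 0 z (n 0 z (n 0 z z)))))) (n 2 (n 0 z (n 0 z (n 0 z (n 0 z (n 0 z (n 0 z z))))))
 z))))))) (n 0 z (n 0 z (n 0 z (n 0 z z)))))))) (n 3 (n 0 z (n 0 z (n 0 z (n 0 z (n 0 z (n 2 (n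
 0 z (n 2 (n 0 z (n 0 z (n 0 z (n 0 z (n 0 z (n 0 (n 212 z z) z)))))) (n 2 (n 0 (n 6359131 z z)
 (n 0 z (n 0 z (n 0 z (n 0 (n 8855907 z z) (n 0 (n 212 z (n 212 z z)) z)))))) (n 2 (n 0 z (n 0 z
 (n 0 z (n 0 z (n 0 z (n 0 z z)))))) (n 2 (n 0 z (n 0 z (n 0 z (n 0 z (n 0 z (n 0 z z)))))) (n 2
 (n 0 z (n 0 z (n 0 z (n 0 z (n 0 z (n 0 (n 8782363 z z) z)))))) z)))))) (n 0 z (n 0 z z))))))))
 (n 3 (n 0 z (n 0 z (n 0 z (n 0 z (n 0 z (n 0 z (n 2 (n 1 z (n 2 (n 0 z (n 0 (n 8873235 z z) (n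
 0 z (n 0 z (n 0 z (n 0 (n 8873235 z (n 8873235 z z)) z)))))) (n 2 (n 0 z (n 0 z (n 0 z (n 0 z
 (n 0 z (n 0 z z)))))) (n 2 (n 0 z (n 0 z (n 0 z (n 0 z (n 0 z (n 0 (n 8456043 z z) z)))))) (n 1
 z z))))) (n 0 z z)))))))) (n 53 (n 0 z (n 0 z (n 0 z (n 2 (n 0 z (n 0 z (n 0 z (n 0 z z)))) (n
 0 z (n 0 z (n 0 z (n 0 z (n 0 z (n 0 z (n 0 z (n 0 z (n 0 z z))))))))))))) (n 53 (n 0 z (n 0 z
 (n 0 z (n 0 z (n 0 z (n 0 z (n 2 (n 0 z (n 0 z (n 0 z z))) (n 0 z (n 0 z (n 0 z (n 0 z (n 0 z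
 (n 0 z z))))))))))))) (n 53 (n 0 z (n 0 z (n 0 z (n 0 z (n 0 z (n 0 z (n 0 z (n 0 z (n 0 z (n
 0xec8ec82037ff8007ff7fe8018008007ff8018008007ff8018018017ff8018008017ff8028017ff8017ff7ff7ff8008008017ff8008007ff8008008008008007ff8018008007ff8018008008008008010811
 z (n 0 z (n 0 z (n 0 z z))))))))))))) (n 53 (n 0 z (n 0 z (n 0 z (n 0 z (n 0 z (n 0 z (n 0 z (n
 0 z (n 0 z (n 0 z (n
 0xec8ec82038008017ff8008017ff8007ff8018008017ff8007ff8018008008008017ff8018017ff8018008017fe8008008007ff8008008008008018008008008008008008008008008008008018008000811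
 z (n 0 z (n 0 z z))))))))))))) (n 53 (n 0 z (n 0 z (n 0 z (n 0 z (n 0 z (n 0 z (n 0 z (n 0 z (n
 0 z (n 0 z (n 0 z (n 0 z (n 0 z z))))))))))))) z)))))))))) (n 0 (n 51 (n 0 z (n 0 z (n 2 (n 0 z
 (n 0 z (n 0 z (n 2 (n 0 z (n 0 z (n 0 z (n 0 z (n 0 z (n 0 z z)))))) (n 2 (n 0 z (n 0 z (n 0 z
 (n 0 z (n 0 z (n 0 z z)))))) (n 2 (n 0 z (n 0 z (n 0 z (n 0 z (n 0 z (n 0 z z)))))) (n 2 (n 0 z
 (n 0 z (n 0 z (n 0 z (n 0 z (n 0 z z)))))) (n 2 (n 0 z (n 0 z (n 0 z (n 0 z (n 0 z (n 0 z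
 z)))))) z)))))))) (n 0 z (n 0 z (n 0 z (n 0 z (n 0 z (n 0 z (n 0 z (n 0 z (n 0 z (n 0 z (n 0 z
 (n 0 z (n 0 z (n 0 z (n 0 z (n 0 z (n 0 z (n 0 z (n 0 z (n 0 z (n 0 z (n 0 z (n 0 z (n 0 z (n 0
 z (n 0 z (n 0 z (n 0 z z))))))))))))))))))))))))))))))) (n 51 (n 0 z (n 0 z (n 0 z (n 0 z (n 0
 z (n 0 z (n 0 z (n 0 z (n 0 z (n 0 z (n 0 z (n 0 z (n 0 z (n 0 z (n 0 z (n 0 z (n 0 z (n 0 z (n
 0 z (n 0 z (n 0 z (n 0 z (n 0 z (n 0 z (n 0 z (n 0 z (n 0 z (n 0 z (n 0 z (n 0 z (n 0 z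
 z))))))))))))))))))))))))))))))) (n 51 (n 0 z (n 0 z (n 0 z (n 0 z (n 0 z (n 0 z (n 0 z (n 0 z
 (n 0 z (n 0 z (n 0 z (n 0 z (n 0 z (n 0 z (n 0 z (n 0 z (n 0 z (n 0 z (n 0 z (n 0 z (n 0 z (n 0
 z (n 0 z (n 0 z (n 0 z (n 0 z (n 0 z (n 0 z (n 0 z (n 0 z (n 0 z
 z))))))))))))))))))))))))))))))) (n 51 (n 0 z (n 0 z (n 0 z (n 0 z (n 0 z (n 0 z (n 0 z (n 0 z
 (n 0 z (n 0 z (n 0 z (n 0 z (n 0 z (n 0 z (n 0 z (n 0 z (n 0 z (n 0 z (n 0 z (n 0 z (n 0 z (n 0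
 z (n 0 z (n 0 z (n 0 z (n 0 z (n 0 z (n 0 z (n 0 z (n 0 z (n 0 z
 z))))))))))))))))))))))))))))))) (n 53 (n 0 z (n 0 z (n 0 z (n 0 z (n 0 z (n 0 z (n 0 z (n 0 z
 (n 0 z (n 0 z z)))))))))) (n 53 (n 0 z (n 0 z (n 0 z (n 0 z (n 0 z (n 0 z (n 0 z (n 0 z (n 0 z
 (n 0 z z)))))))))) (n 53 (n 0 z (n 2 (n 0 z (n 0 z z)) (n 0 z (n 0 z (n 0 z (n 0 z (n 0 z (n 0
 z (n 0 z (n 0 z z)))))))))) (n 53 (n 0 z (n 0 z (n 0 z (n 0 z (n 0 z (n 2 (n 0 z z) (n 0 z (n 0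
 z (n 0 z (n 0 z z)))))))))) (n 53 (n 0 z (n 0 z (n 2 z (n 0 z (n 0 z (n 0 z (n 0 z (n 0 z (n 0
 z (n 0 z z)))))))))) z))))))))) (n 0 (n 0 z (n 0 z (n 0 z (n 13 (n 0 z (n 0 z (n 0 z (n 0 z (n
 0 z (n 0 z (n 0 z (n 2 (n 0 z (n 0 z (n 0 z (n 0 z z)))) (n 0 z (n 0 z (n 0 z (n 0 z (n 0 z (n
 0 z z)))))))))))))) (n 13 (n 0 z (n 0 z (n 0 z (n 0 z (n 0 z (n 0 z (n 0 z (n 0 z (n 0 z (n 0 z
 (n 2 (n 0 z (n 0 z (n 0 z z))) (n 0 z (n 0 z (n 0 z z)))))))))))))) (n 13 (n 0 z (n 0 z (n 0 z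
 (n 0 z (n 0 z (n 0 z (n 0 z (n 0 z (n 0 z (n 0 z (n 0 z (n 0 z (n 0 z (n 0 z z)))))))))))))) (n
 13 (n 0 z (n 0 z (n 0 z (n 0 z (n 0 z (n 0 z (n 0 z (n 0 z (n 0 z (n 0 z (n 0 z (n 0 z (n 0 z
 (n 0 z z)))))))))))))) (n 13 (n 2 z (n 0 z (n 0 z (n 0 z (n 0 z (n 0 z (n 0 z (n 0 z (n 0 z (n
 0 z (n 0 z (n 0 z (n 0 z (n 0 z z)))))))))))))) z)))))))) (n 0 (n 0 z (n 0 z (n 13 (n 0 z (n 0
 z (n 0 z (n 0 z (n 0 z (n 0 z (n 0 z (n 0 z (n 0 z (n 0 z z)))))))))) (n 13 (n 0 z (n 0 z (n 0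
 z (n 0 z (n 0 z (n 0 z (n 0 z (n 0 z (n 0 z (n 0 z z)))))))))) (n 13 (n 0 z (n 0 z (n 0 z (n 0
 z (n 0 z (n 0 z (n 0 z (n 0 z (n 0 z (n 0 z z)))))))))) (n 13 (n 0 z (n 0 z (n 0 z (n 0 z (n 0
 z (n 0 z (n 0 z (n 0 z (n 0 z (n 0 z z)))))))))) (n 13 (n 0 z (n 0 z (n 0 z (n 2 z (n 0 z (n 0
 z (n 0 z (n 0 z (n 0 z (n 0 z z)))))))))) z))))))) (n 0 (n 0 z (n 253 (n 0 z (n 0 z (n 0 z (n 0
 z (n 0 z (n 0 z (n 0 z (n 0 z (n 0 z (n 0 z z)))))))))) (n 253 (n 0 z (n 0 z (n 0 z (n 0 z (n 0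
 z (n 0 z (n 0 z (n 0 z (n 0 z (n 0 z z)))))))))) (n 253 (n 0 z (n 0 z (n 0 z (n 0 z (n 0 z (n 0
 z (n 0 z (n 0 z (n 0 z (n 0 z z)))))))))) (n 253 (n 0 z (n 0 z (n 0 z (n 0 z (n 0 z (n 0 z (n 0
 z (n 0 z (n 0 z (n 0 z z)))))))))) (n 253 (n 0 z (n 0 z (n 0 z (n 0 z (n 0 z (n 0 z (n 2 z (n 0
 z (n 0 z (n 0 z z)))))))))) z)))))) (n 0 (n 1 (n 0 z (n 0 z (n 0 z (n 0 z (n 0 z (n 0 z (n 0 z
 (n 0 z z)))))))) (n 1 (n 0 z (n 0 z (n 0 z (n 0 z (n 0 z (n 0 z (n 0 z (n 0 z z)))))))) (n 1 (n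
 0 z (n 2 (n 0 z (n 0 z z)) (n 0 z (n 0 z (n 0 z (n 0 z (n 0 z (n 0 z z)))))))) (n 1 (n 0 z (n 0
 z (n 0 z (n 0 z (n 7680355 z (n 0 z (n 0 z (n 0 z z)))))))) (n 1 (n 0 z (n 0 z (n 0 z (n 0 z (n
 0 z (n 0 z (n 0 z (n 0 z z)))))))) z))))) (n 0 (n 0 z (n 0 z (n 0 z (n 0 z z)))) (n 0 (n 0 z (n
 0 z (n 0 z z))) (n 0 (n 0 z (n 0 z z)) (n 0 (n 0 z z) (n 0 z z))))))))))))))) (n 0 (n 0 z (n 1
 (n 6496515 z (n 6496275 z (n 6496275 z (n 6496275 z (n 6496275 z (n 6496275 z z)))))) (n 1 (n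
 6496515 z (n 268 z (n 268 z (n 6558219 z (n 5443683 z (n 268 z z)))))) (n 0 z z)))) (n 0 z
 z)))) (n 0x330ec748ba37844d94244f281a4cc15a (n 0 (n 179 (n 0 z (n 6496275 z (n 0 z (n 0 z z))))
 (n 33 (n 0 z (n 6496515 z (n 0 z (n 0 z z)))) (n 365 (n 2 z (n 0 z (n 0 z (n 0 z (n
 0x2ca8ca82037f827e7e827f817e81807e82807f7f807e80827f8180818280817e8081817f7f8080807f7f808080808180807f8180817f810809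
 z (n 10 z (n 6496515 z (n 0 z (n 0 z (n 0 z (n 0 z (n 0 z (n
 0xb29298a00c01951950c0602ca8c82603016425413018032a32a081c0190d90c40600ca8a802078480807d828182827d80847b7c837c807e807c7c7d7c8184808081837e7e807d85807e867d7e817e7f8082807b7f7b847b853809
 z (n 0 z z)))))))))))))) (n 27 (n 18 z (n 6496515 z (n 6496523 z (n 6496515 z (n 0 z (n 0 z (n
 6496515 z (n 0 z (n 0 z (n 0 z (n
 0x2ca8a842077f807f7f81808180807f7f81827f80807e80817f8180808180807f8081807f7f818080817f808180808080807f8080807f810809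
 z (n 0 z (n 0 z (n 0 z (n 26 z (n 0 z (n 0 z (n 0 z (n 0 z (n 34 z (n 6496515 z (n 0 z (n 0 z
 (n 0 z (n 0 z (n 0 z (n
 0x1990d50480e0cca8c842037e7a8082828579837c80757f857e79857c807f7c88878483897b817f808579817a7f7f79837d7e7e837c7a7e7b83838085821009
 z (n
 0x190d50480e00ca8a842077f8081807f808181807f7f7f827f81807e80818080808181808081808080817f818080817f80808080808080808080807f811009
 z (n 0 z (n 42 z (n 0 z (n 6496275 z (n 0 z (n 0 z (n 0 z (n 0 z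
 z)))))))))))))))))))))))))))))))))))) (n 7 (n 6554395 z (n 0 z (n 0 z (n 0 z (n 0 z z))))) (n 0
 (n 0 z (n 0 z (n 6631747 z (n 0 z (n 0 z (n 0 z (n 0 z (n 0 z (n 0 z z))))))))) z)))))) (n 179
 (n 0 (n 0 z (n 1065 (n 0 z (n 0 z (n 0 z (n 0 z (n 0 z (n 0 z (n 0 z (n 0 z (n 0 z (n 0 z (n 0
 z (n 0 z (n 0 z (n 0 z (n 0 z (n 0 z (n 0 z (n 0 z (n 0 z (n 0 z (n 0 z (n 0 z (n 0 z (n 0 z (n
 0 z (n 0 z (n 0 z (n 0 z (n 0 z z))))))))))))))))))))))))))))) (n 1065 (n 0 z (n 0 z (n 0 z (n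
 0 z (n 0 z (n 0 z (n 0 z (n
 0x29d4d94900e00ec4ea28030a65275140384b2a3b1880c09d09d0840e02ea8c8420302754542101813a92a1081c0dd95d9000600ea8e840077480787a937785857e7e729e90716c845280b56d82797b917f967a7e898a81876e7d7f7c7a757c767b888486758e797a76905009
 z (n 0 z (n 0 z (n 0 z (n 0 z (n 0 z (n 0 z (n 0 z (n 0 z (n 0 z (n 0 z (n 0 z (n 0 z (n 0 z (n
 0 z (n 0 z (n 0 z (n 0 z (n 0 z (n 0 z (n 0 z (n 0 z z))))))))))))))))))))))))))))) (n 1065 (n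
 0 z (n 0 z (n 0 z (n 0 z (n 0 z (n 0 z (n 0 z (n 0 z (n 0 z (n 0 z (n 0 z (n 0 z (n 0 z (n 0 z
 (n 0 z (n 0 z (n 0 z (n 0 z (n 0 z (n 0 z (n 0 z (n 0 z (n 0 z (n 0 z (n 2 (n 0 z z) (n 0 z (n
 0 z (n 0 z (n 0 z z))))))))))))))))))))))))))))) (n 1065 (n 0 z (n 0 z (n 0 z (n 0 z (n 0 z (n
 0 z (n 0 z (n 0 z (n 0 z (n 0 z (n 0 z (n 0 z (n 0 z (n 0 z (n 0 z (n 0 z (n 0 z (n 2 z (n 0 z
 (n 0 z (n 0 z (n 0 z (n 0 z (n 0 z (n 0 z (n 0 z (n 0 z (n 0 z (n 0 z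
 z))))))))))))))))))))))))))))) z))))) (n 0 (n 7 (n 0 z (n 0 z (n 0 z (n 0 z (n 0 z (n 0 z (n 0
 z (n 0 z (n 0 z (n 0 z (n 0 z (n 0 z (n 0 z (n 0 z (n 0 z (n 0 z (n 0 z (n 0 z (n 0 z (n 0 z (n
 0 z (n 0 z (n 0 z (n 0 z (n 0 z z))))))))))))))))))))))))) (n 7 (n 0 z (n 0 z (n 0 z (n 0 z (n
 0 z (n 0 z (n 0 z (n 0 z (n 0 z (n 0 z (n 0 z (n 0 z (n 0 z (n
 0x765765403833a9b29200c05949d4500600ca6ca28030276576510180bb2bb2080c25d95d5040e0cec8ca8207758971738e7a6d608f6c68938a7e81896b809e84938395aa868d6f79798c648072798a57775c70817a877e82828d62857caa4009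
 z (n 7538251 z (n 0 z (n 0 z (n 0 z (n 0 z (n 0 z (n 0 z (n 0 z (n 0 z (n 0 z (n 0 z
 z))))))))))))))))))))))))) (n 7 (n 0 z (n 0 z (n 0 z (n 0 z (n 0 z (n 0 z (n 0 z (n 0 z (n 0 z
 (n 0 z (n 0 z (n 0 z (n 0 z (n 0 z (n 0 z (n 0 z (n 0 z (n 0 z (n 0 z (n 0 z (n 0 z (n 0 z (n 0
 z (n 0 z (n 0 z z))))))))))))))))))))))))) (n 7 (n 0 z (n 0 z (n 0 z (n 0 z (n 0 z (n 0 z (n 0
 z (n 0 z (n 0 z (n 0 z (n 0 z (n 0 z (n 0 z (n 0 z (n 0 z (n 0 z (n 0 z (n 0 z (n 0 z (n 0 z (n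
 0 z (n 0 z (n 0 z (n 0 z (n 0 z z))))))))))))))))))))))))) z)))) (n 0 (n 0 z (n 0 z (n 0 z z)))
 (n 0 (n 0 z (n 0 z z)) (n 0 (n 0 z z) (n 0 z z)))))) (n 0 (n 0 z (n 1 (n 6496515 z (n 6496275 z
 (n 6496275 z (n 6496275 z (n 6496275 z (n 6496275 z z)))))) (n 0 z (n 0 z z)))) (n 0 z z)))) (n
 0x8cd942649b0324c80b6644092e26094632218990498cd01a860113240 (n 0x22649 (n 309 (n 0 z (n 0 z (n
 0 z (n 0 z (n 2 z (n 10 z (n 0 z (n 0 z (n 6631459 z (n 6631459 z (n 6619947 z (n 18 z (n 0 z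
 (n 0 z (n 0 z (n 0 z (n
 0x4ca8ca82039a95de99f6247e16e381e61d81d8a08a28218a481f9dc79895d862a1f82179d82069f8a289f0801 z
 z))))))))))))))))) (n 293 (n 26 z (n 3278363 z (n 34 z (n 0 z z)))) (n 9 (n 0 z (n 6627379 z (n
 42 z (n 0 z z)))) (n 3 (n 0 z (n 0 z (n 0 z (n 6631459 z (n 50 z (n 0 z (n 0 z (n 0 z (n 0 z (n
 0 z (n 0 z (n 0 z z)))))))))))) (n 1 (n 0 z (n 0 z (n 0 z (n 0 z (n 58 z (n 0 z (n 0 z (n 66 z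
 (n 0 z (n 0 z (n 6563131 z z))))))))))) (n 0 (n 6631459 z (n 0 z (n 6631459 z (n 0 z (n 74 z (n
 6631459 z (n
 0x8ca88602038e171f8a08a27e17638248a07a27dd85e85f7e17e079f86389e8608217e27dd86189f82181e0801 z
 (n 0x8ca8860203a2179ea215df81b5658e37da71d6649e19db9677db8dd99ea62862aa481d7dd79f69c8a47da0801
 z (n 0 z (n 0 z (n 0 z (n 0 z (n 0 z (n 0 z (n 0 z (n
 0x4c86c862039a95de99f6247e16e381e61d81d8a08a28218a481f9dc79895d862a1f82179d82069f8a289f0801 z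
 (n 82 z (n 0 z (n 0 z (n 0 z (n 0 z (n 6627379 z (n 0 z (n 0 z (n 0 z (n 0 z (n 0 z (n
 0xec84c842038886737897777e807a80719c71907685818771758482906d87936795a16c707997757668917f90807d6d8c7e896f857e7e810809
 z (n 6631459 z (n 6631459 z (n
 0x2c84c826078a075f91f8a07e17647e37e07a176085e8dd8a272289e79f8de7de8608607dd89f85e7e18600801 z
 (n 6619947 z z)))))))))))))))))))))))))))))))) z)))))) (n 293 (n 0 (n 0 z (n 0 z (n 503 (n 0 z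
 (n 0 z (n 0 z (n 0 z (n 0 z (n 0 z (n 0 z (n 0 z (n 0 z (n 0 z (n 0 z z))))))))))) (n 503 (n 0
 z (n 0 z (n 0 z (n 2 (n 1 z (n 1 z (n 1 z (n 1 z (n 1 z (n 1 z z)))))) (n 0 z (n 0 z (n 0 z (n
 0 z (n 0 z (n 0 z (n 0 z z))))))))))) (n 31 (n 0 z (n 0 z (n 0 z (n 0 z (n 0 z (n 0 z (n 0 z (n
 0 z z)))))))) (n 55 (n 0 z (n 0 z (n 0 z (n 0 z (n 0 z (n 0 z (n 0 z (n 0 z (n 0 z (n 0 z (n 0
 z (n 0 z z)))))))))))) (n 51 (n 0 z (n 0 z (n 0 z (n 0 z (n 0 z (n 0 z (n 0 z (n 0 z z))))))))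
 (n 51 (n 0 z (n 0 z (n 0 z (n 0 z (n 0 z (n 0 z (n 0 z (n 0 z z)))))))) (n 53 (n 0 z (n 0 z (n
 0 z (n 0 z (n 0 z (n 0 z (n 0 z (n 0 z (n 0 z (n 0 z (n 0 z (n 0 z z)))))))))))) (n 53 (n 0 z
 (n 0 z (n 0 z (n 2 z (n 0 z (n 0 z (n 0 z (n 0 z (n 0 z (n 0 z (n 0 z (n 0 z z))))))))))))
 z)))))))))) (n 0 (n 0 z (n 523 (n 0 z (n 0 z (n 0 z (n 0 z (n 0 z (n 0 z (n 0 z (n 0 z (n 0 z
 (n 0 z (n 0 z z))))))))))) (n 523 (n 0 z (n 0 z (n 0 z (n 0 z (n 0 z (n 2 (n 1 z (n 1 z (n 1 z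
 (n 1 z (n 1 z (n 1 z z)))))) (n 0 z (n 0 z (n 0 z (n 0 z (n 0 z z))))))))))) (n 971 (n 0 z (n 0
 z (n 0 z (n 0 z (n 0 z (n 0 z (n 0 z (n 0 z (n 0 z (n 0 z (n 0 z (n 0 z (n 0 z (n 0 z (n 0 z (n
 0 z (n 0 z (n 0 z (n 0 z z))))))))))))))))))) (n 525 (n 2 (n 1 z (n 1 z (n 1 z (n 1 z z)))) (n
 0 z (n 0 z (n 0 z (n 0 z (n 0 z (n 0 z (n 0 z (n 0 z (n 0 z (n 0 z (n 0 z z)))))))))))) (n 521
 (n 0 z (n 0 z (n 0 z (n 0 z (n 0 z (n 0 z (n 0 z (n 0 z (n 0 z (n 0 z (n 0 z (n 0 z (n 2 (n 0 z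
 (n 2 (n 0 z (n 0 z (n 0 z (n 0 z (n 0 z (n 0 z z)))))) (n 2 (n 0 z (n 0 z (n 0 z (n 0 z (n 0 (n
 8521499 z (n 308 z z)) (n 0 (n 8521499 z z) z)))))) z))) (n 0 z (n 0 z (n 0 z (n 0 z (n 0 z (n
 0 z (n 0 z (n 0 z (n 0 z (n 0 z (n 0 z (n 0 z z))))))))))))))))))))))))) (n 521 (n 0 z (n 0 z
 (n 0 z (n 0 z (n 0 z (n 0 z (n 0 z (n 0 z (n 0 z (n 0 z (n 0 z (n 0 z (n 0 z (n 0 z (n 0 z (n 0
 z (n 0 z (n 0 z (n 0 z (n 0 z (n 0 z (n 0 z (n 0 z (n 0 z (n 0 z z))))))))))))))))))))))))) (n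
 77 (n 0 z (n 0 z (n 2 (n 0 z z) (n 0 z (n 0 z (n 0 z (n 0 z (n 0 z (n 0 z (n 0 z (n 0 z (n 0 z
 (n 0 z (n 0 z (n 0 z (n 0 z (n 0 z (n 0 z (n 0 z (n 0 z (n 0 z (n 0 z z))))))))))))))))))))))
 (n 77 (n 0 z (n 0 z (n 0 z (n 0 z (n 0 z (n 0 z (n 0 z (n 0 z (n 0 z (n 0 z (n 0 z (n 0 z (n 0
 z (n 0 z (n 0 z (n 0 z (n 2 z (n 0 z (n 0 z (n 0 z (n 0 z (n 0 z z))))))))))))))))))))))
 z))))))))) (n 0 (n 91 (n 0 z (n 2 (n 0 z (n 2 (n 0 z (n 0 z (n 0 z (n 0 z (n 0 z (n 0 z z))))))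
 (n 1 z (n 1 z (n 1 z (n 1 z (n 2 (n 0 z (n 0 z (n 0 z (n 0 z (n 0 z (n 0 z z)))))) z))))))) (n
 0 z (n 0 z (n 0 z (n 0 z (n 0 z (n 0 z (n 0 z (n 0 z (n 0 z (n 0 z (n 0 z (n 0 z
 z)))))))))))))) (n 91 (n 0 z (n 0 z (n 0 z (n 0 z (n 0 z (n 0 z (n 0 z (n 0 z (n 0 z (n 0 z (n
 0 z (n 0 z (n 0 z (n 0 z z)))))))))))))) (n 1233 (n 0 z (n 2 (n 1 z (n 1 z (n 1 z (n 1 z (n 2
 (n 0 z (n 0 z (n 0 z (n 0 z (n 0 z (n 0 z z)))))) z))))) (n 0 z (n 0 z (n 0 z (n 0 z (n 0 z (n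
 0 z (n 0 z (n 0 z (n 0 z (n 0 z (n 0 z (n 0 z (n 0 z (n 0 z (n 0 z z))))))))))))))))) (n 93 (n
 2 (n 1 z (n 1 z (n 1 z (n 2 (n 0 z (n 0 z (n 0 z (n 0 z (n 0 z (n 0 z z)))))) z)))) (n 0 z (n 0
 z (n 0 z (n 0 z (n 0 z (n 0 z (n 0 z z)))))))) (n 89 (n 0 z (n 0 z (n 0 z (n 0 z z)))) (n 89 (n
 0 z (n 2 (n 1 z (n 2 (n 0 z (n 0 z (n 0 z (n 0 z (n 0 z (n 0 z z)))))) z)) (n 0 z (n 0 z z))))
 (n 497 (n 2 (n 0 z z) (n 0 z (n 0 z (n 0 z (n 0 z (n 0 z (n 0 z (n 0 z (n 0 z (n 0 z (n 0 z (n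
 0 z (n 0 z (n 0 z (n 0 z (n 0 z z)))))))))))))))) (n 497 (n 0 z (n 0 z (n 0 z (n 0 z (n 0 z (n
 0 z (n 0 z (n 0 z (n 0 z (n 0 z (n 0 z (n 0 z (n 0 z (n 0 z (n 0 z (n 0 z z))))))))))))))))
 z)))))))) (n 0 (n 0 z (n 19 (n 0 z (n 0 z (n 0 z (n 0 z (n 0 z (n 0 z (n 0 z (n 0 z z))))))))
 (n 295 (n 0 z (n 0 z (n 0 z (n 0 z (n 0 z (n 0 z (n 0 z (n 0 z (n 0 z (n 0 z z)))))))))) (n 291
 (n 0 z (n 0 z (n 0 z (n 0 z (n 0 z (n 0 z (n 0 z (n 0 z (n 0 z (n 0 z (n 0 z (n 0 z (n 0 z (n 0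
 z z)))))))))))))) (n 291 (n 0 z (n 0 z (n 0 z (n 0 z (n 0 z (n 0 z (n 0 z (n 0 z (n 0 z (n 0 z
 (n 0 z (n 0 z (n 0 z (n 0 z z)))))))))))))) (n 293 (n 0 z (n 0 z (n 0 z (n 0 z (n 0 z (n 0 z (n
 0 z (n 0 z (n 0 z (n 0 z (n 0 z z))))))))))) (n 293 (n 0 z (n 0 z (n 2 z (n 0 z (n 0 z (n 0 z
 (n 0 z (n 0 z (n 0 z (n 0 z (n 0 z z))))))))))) z))))))) (n 0 (n 1275 (n 0 z (n 0 z z)) (n 327
 (n 0 z (n 0 z (n 0 z (n 0 z z)))) (n 329 (n 0 z (n 0 z (n 0 z (n 0 z (n 0 z (n 0 z (n 0 z (n 0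
 z (n 0 z (n 0 z (n 0 z (n 0 z (n 0 z (n 0 z z)))))))))))))) (n 329 (n 0 z (n 0 z (n 0 z (n 0 z
 (n 0 z (n 0 z (n 0 z (n 0 z (n 0 z (n 0 z (n 0 z (n 0 z (n 0 z (n 0 z z)))))))))))))) (n 541 (n
 0 z (n 0 z (n 0 z (n 0 z (n 0 z (n 0 z (n 0 z (n 0 z (n 2 (n 0 z z) (n 0 z (n 0 z (n 0 z (n 0 z
 (n 0 z (n 0 z (n 0 z (n 0 z (n 0 z (n 0 z (n 0 z (n 0 z (n 0 z (n 0 z (n 0 z (n 0 z
 z))))))))))))))))))))))))) (n 541 (n 0 z (n 0 z (n 0 z (n 0 z (n 0 z (n 0 z (n 0 z (n 0 z (n 0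
 z (n 0 z (n 0 z (n 0 z (n 0 z (n 0 z (n 0 z (n 0 z (n 0 z (n 0 z (n 0 z (n 0 z (n 0 z (n 0 z (n
 0 z (n 0 z (n 0 z z))))))))))))))))))))))))) z)))))) (n 0 (n 535 (n 0 z (n 0 z (n 0 z (n 0 z (n
 0 z z))))) (n 51 (n 0 z (n 0 z (n 0 z (n 0 z (n 0 z z))))) (n 51 (n 0 z (n 0 z (n 0 z (n 0 z (n
 0 z z))))) (n 533 (n 0 z (n 0 z (n 0 z (n 0 z (n 0 z (n 0 z (n 0 z (n 0 z (n 0 z (n 0 z (n 0 z
 (n 0 z (n 0 z (n 0 z (n 0 z (n 0 z (n 0 z (n 0 z (n 0 z (n 0 z (n 0 z (n 0 z (n 0 z (n 0 z (n 0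
 z z))))))))))))))))))))))))) (n 533 (n 0 z (n 0 z (n 0 z (n 0 z (n 0 z (n 0 z (n 2 z (n 0 z (n
 0 z (n 0 z (n 0 z (n 0 z (n 0 z (n 0 z (n 0 z (n 0 z (n 0 z (n 0 z (n 0 z (n 0 z (n 0 z (n 0 z
 (n 0 z (n 0 z (n 0 z z))))))))))))))))))))))))) z))))) (n 0 (n 723 (n 0 z (n 0 z (n 0 z (n 0 z
 (n 0 z (n 0 z (n 0 z (n 0 z z)))))))) (n 723 (n 0 z (n 0 z (n 0 z (n 0 z (n 0 z (n 0 z (n 0 z
 (n 0 z z)))))))) (n 721 (n 0 z (n 0 z (n 0 z (n 0 z (n 0 z (n 0 z (n 0 z (n 0 z (n 0 z (n 0 z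
 (n 0 z (n 0 z (n 0 z (n 0 z (n 0 z (n 0 z (n 0 z (n 0 z (n 0 z (n 0 z (n 0 z (n 0 z (n 0 z (n 0
 z (n 0 z (n 0 z (n 0 z (n 0 z (n 0 z (n 0 z (n 0 z (n 0 z (n 0 z (n 0 z (n 0 z (n 0 z (n 0 z (n
 0 z (n 0 z (n 0 z (n 0 z (n 0 z (n 0 z (n 0 z (n 0 z (n 0 z (n 0 z
 z))))))))))))))))))))))))))))))))))))))))))))))) (n 721 (n 0 z (n 0 z (n 0 z (n 0 z (n 0 z (n 0
 z (n 0 z (n 0 z (n 0 z (n 0 z (n 0 z (n 0 z (n 0 z (n 0 z (n 0 z (n 0 z (n 2 z (n 0 z (n 0 z (n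
 0 z (n 0 z (n 0 z (n 0 z (n 0 z (n 0 z (n 0 z (n 0 z (n 0 z (n 0 z (n 0 z (n 0 z (n 0 z (n 0 z
 (n 0 z (n 0 z (n 0 z (n 0 z (n 0 z (n 0 z (n 0 z (n 0 z (n 0 z (n 0 z (n 0 z (n 0 z (n 0 z (n 0
 z z))))))))))))))))))))))))))))))))))))))))))))))) z)))) (n 0 (n 0 z (n 985 (n 0 z (n 0 z (n 0
 z (n 0 z (n 0 z (n 0 z (n 0 z (n 0 z (n 0 z (n 0 z (n 0 z (n 0 z (n 0 z (n 0 z (n 0 z (n 0 z (n
 0 z (n 0 z (n 0 z (n 0 z (n 0 z (n 0 z (n 0 z (n 0 z (n 0 z (n 0 z (n 0 z (n 0 z (n 0 z (n 0 z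
 (n 0 z (n 0 z (n 0 z (n 0 z (n 0 z (n 0 z (n 0 z (n 0 z (n 0 z (n 0 z (n 0 z (n 0 z (n 0 z (n 0
 z (n 0 z (n 0 z z)))))))))))))))))))))))))))))))))))))))))))))) (n 985 (n 0 z (n 0 z (n 0 z (n
 0 z (n 0 z (n 0 z (n 0 z (n 0 z (n 0 z (n 0 z (n 0 z (n 0 z (n 0 z (n 0 z (n 0 z (n 0 z (n 0 z
 (n 0 z (n 0 z (n 0 z (n 0 z (n 0 z (n 0 z (n 0 z (n 0 z (n 0 z (n 0 z (n 0 z (n 0 z (n 0 z (n 0
 z (n 0 z (n 0 z (n 0 z (n 0 z (n 0 z (n 0 z (n 0 z (n 0 z (n 0 z (n 0 z (n 0 z (n 0 z (n 0 z (n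
 0 z (n 0 z z)))))))))))))))))))))))))))))))))))))))))))))) z))) (n 0 (n 961 (n 0 z (n 0 z (n 0
 z (n 0 z (n 0 z (n 0 z (n 0 z (n 0 z (n 0 z (n 0 z (n 0 z (n 0 z (n 0 z (n 0 z (n 0 z (n 0 z (n
 0 z (n 0 z (n 0 z (n 0 z (n 0 z (n 0 z (n 0 z (n 0 z (n 0 z (n 0 z (n 0 z (n 0 z (n 0 z (n 0 z
 (n 0 z (n 0 z (n 0 z (n 0 z (n 0 z (n 0 z (n 0 z (n 0 z (n 0 z (n 0 z (n 0 z (n 0 z (n 0 z (n 0
 z (n 0 z (n 0 z (n 0 z (n 0 z (n 0 z (n 0 z (n 0 z (n 0 z (n 0 z (n 0 z (n 0 z (n 0 z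
 z)))))))))))))))))))))))))))))))))))))))))))))))))))))))) (n 961 (n 0 z (n 0 z (n 0 z (n 0 z (n
 0 z (n 0 z (n 0 z (n 0 z (n 0 z (n 0 z (n 2 z (n 0 z (n 0 z (n 0 z (n 0 z (n 0 z (n 0 z (n 0 z
 (n 0 z (n 0 z (n 0 z (n 0 z (n 0 z (n 0 z (n 0 z (n 0 z (n 0 z (n 0 z (n 0 z (n 0 z (n 0 z (n 0
 z (n 0 z (n 0 z (n 0 z (n 0 z (n 0 z (n 0 z (n 0 z (n 0 z (n 0 z (n 0 z (n 0 z (n 0 z (n 0 z (n
 0 z (n 0 z (n 0 z (n 0 z (n 0 z (n 0 z (n 0 z (n 0 z (n 0 z (n 0 z (n 0 z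
 z)))))))))))))))))))))))))))))))))))))))))))))))))))))))) z)) (n 0 (n 0 z z) (n 0 z
 z))))))))))) (n 0 (n 1 (n 2 z (n 6628379 z (n 2476 z (n 2476 z (n 2476 z (n 2476 z z)))))) (n 1
 (n 3278363 z (n 3278363 z (n 6628379 z (n 3278363 z (n 3278363 z (n 3278363 z z)))))) (n 1 (n
 2476 z (n 2476 z (n 2476 z (n 6628379 z (n 76 z (n 2476 z z)))))) (n 0 z z)))) (n 0 (n
 0x623365663340 (n 0 (n 0 (n 7475299 z (n 7746059 z (n 7746059 z (n 7746059 z (n 7746059 z (n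
 7746059 z z)))))) z) (n 0 (n 15 (n 0 z (n 1 (n 2 z (n 7680035 z (n 7668523 z (n 2476 z (n
 7750171 z (n 2476 z z)))))) (n 1 (n 7675955 z (n 7680035 z (n 7675955 z (n 7675955 z (n 7675955
 z (n 7675955 z z)))))) (n 1 (n 7475299 z (n 7680035 z (n 7475299 z (n 7475299 z (n 7475299 z (n
 7475299 z z)))))) (n 1 (n 7675955 z (n 7680035 z (n 7675955 z (n 7675955 z (n 7675955 z (n
 7675955 z z)))))) (n 1 (n 7675955 z (n 7680035 z (n 7675955 z (n 7675955 z (n 7675955 z (n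
 7675955 z z)))))) (n 1 (n 2476 z (n 7680035 z (n 7668523 z (n 2476 z (n 2476 z (n 2476 z
 z)))))) (n 0 z z)))))))) (n 293 (n 1 (n 7475299 z (n 7746059 z (n 7746059 z (n 7746059 z (n
 7746059 z (n 7746059 z z)))))) (n 1 (n 7475299 z (n 3278619 z (n 3278619 z (n 3278619 z (n
 3278619 z (n 3278619 z z)))))) (n 1 (n 7475299 z (n 2204 z (n 76 z (n 7673355 z (n 2204 z (n
 2204 z z)))))) (n 0 z z)))) (n 9 (n 0 z (n 1 (n 7675955 z (n 7675955 z (n 7675955 z (n 7675955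
 z (n 7675955 z (n 7675955 z z)))))) (n 1 (n 7475299 z (n 3213163 z (n 3213163 z (n 3213163 z (n
 3213163 z (n 3213163 z z)))))) (n 0 z z)))) (n 387 (n 1 (n 7475299 z (n 7680035 z (n 7475299 z
 (n 7475299 z (n 7475299 z (n 7475299 z z)))))) (n 0 z (n 0 z (n 1 (n 7546123 z (n 7680035 z (n
 7546123 z (n 7546123 z (n 7546123 z (n 7546123 z z)))))) (n 0 z z))))) (n 75 (n 1 (n 7675955 z
 (n 7680035 z (n 7675955 z (n 7675955 z (n 7675955 z (n 7675955 z z)))))) (n 0 z (n 0 z (n 0 z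
 (n 1 (n 7611707 z (n 7680035 z (n 7750171 z (n 7746059 z (n 7611707 z (n 7668523 z z))))))
 z))))) (n 653 (n 1 (n 7680035 z (n 7680035 z (n 7680035 z (n 7680035 z (n 7680035 z (n 7680035
 z z)))))) (n 1 (n 7680035 z (n 7680035 z (n 7680035 z (n 7680035 z (n 7680035 z (n 7680035 z
 z)))))) (n 1 (n 7750171 z (n 5276 z (n 5276 z (n 7676955 z (n 10 z (n 5276 z z)))))) (n 1 (n
 3213163 z (n 5276 z (n 5276 z (n 7750171 z (n 5276 z (n 7676955 z z)))))) (n 1 (n 7475299 z (n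
 7475299 z (n 7475299 z (n 7475299 z (n 7475299 z (n 7475299 z z)))))) (n 0 z (n 1 (n 7750171 z
 (n 7676955 z (n 5276 z (n
 0xaea8860203aa279dae152081a4a69637d86dc624a61ad99ea79a91c9dcae28a2b6581c7dd75f61c8e58190801 z
 (n 5276 z (n 5276 z z)))))) (n 1 (n 7475299 z (n 7475299 z (n 7475299 z (n 7475299 z (n 7475299
 z (n 7475299 z z)))))) (n 0 z (n 1 (n 5276 z (n 5276 z (n 7750171 z (n 5276 z (n 4812 z (n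
 0x4e86e862039a95de99f6247e16e381e61d81d8a08a28218a481f9dc79895d862a1f82179d82069f8a289f0801 z
 z)))))) (n 1 (n 7668523 z (n 7668523 z (n 7668523 z (n 7668523 z (n 7668523 z (n 4399475 z
 z)))))) z))))))))))) (n 293 (n 1 (n 7746059 z (n 7746059 z (n 7746059 z (n 7746059 z (n 7746059
 z (n 7746059 z z)))))) (n 1 (n 3278619 z (n 3278619 z (n 7750171 z (n 3278619 z (n 3278619 z (n
 3278619 z z)))))) (n 1 (n 7750171 z (n 2476 z (n 2476 z (n 7676955 z (n 76 z (n 2476 z z))))))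
 (n 0 z z)))) z))))))) (n 0 (n 0 (n 0 z (n 0 z z)) (n 0 (n 0 z z) z)) (n 0 (n 275 (n 0 (n 0 z (n
 0 z z)) (n 0 (n 0 z (n 0 z z)) (n 0 (n 0 z (n 0 z z)) (n 0 (n 0 z (n 0 z z)) (n 0 (n 0 z (n 0 z
 z)) (n 0 (n 0 z (n 0 z z)) (n 0 (n 0 z (n 0 z z)) (n 0 (n 0 z (n 0 z z)) (n 0 (n 0 z (n 0 z z))
 (n 0 (n 0 z (n 0 z z)) (n 0 (n 0 z (n 0 z z)) z))))))))))) (n 279 (n 0 (n 0 z (n 0 z z)) (n 0
 (n 0 z (n 0 z z)) (n 0 (n 0 z (n 0 z z)) (n 0 (n 0 z (n 0 z z)) (n 0 (n 0 z (n 0 z z)) (n 0 (n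
 0 z (n 0 z z)) (n 0 (n 0 z (n 0 z z)) (n 0 (n 0 z (n 0 z z)) z)))))))) (n 33 (n 0 (n 0 z (n 0 z
 z)) (n 0 (n 0 z (n 0 z z)) (n 0 (n 0 z (n 0 z z)) (n 0 (n 0 z (n 0 z z)) (n 0 (n 0 z (n 0 z z))
 (n 0 (n 0 z (n 0 z z)) (n 0 (n 0 z (n 0 z z)) (n 0 (n 0 z (n 0 z z)) z)))))))) (n 417 (n 0 (n 0
 z (n 0 z z)) (n 0 (n 0 z (n 0 (n 8728611 z z) z)) (n 0 (n 0 z (n 0 z z)) (n 0 (n 0 z (n 0 z z))
 (n 0 (n 0 z (n 0 z z)) (n 0 (n 0 z (n 0 z z)) (n 0 (n 0 z (n 0 z z)) (n 0 (n 0 z (n 0 z z)) (n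
 0 (n 0 z (n 0 z z)) (n 0 (n 0 z (n 0 z z)) (n 0 (n 0 z (n 0 z z)) (n 0 (n 0 z (n 0 z z))
 z)))))))))))) (n 411 (n 0 (n 0 z (n 0 (n 8728611 z (n 8728611 z z)) z)) (n 0 (n 0 z (n 0 z z))
 (n 0 (n 0 z (n 0 z z)) (n 0 (n 0 z (n 0 z z)) (n 0 (n 0 z (n 0 z z)) (n 0 (n 0 z (n 0 z z)) (n
 0 (n 0 z (n 0 (n
 0xc18ba8201c0865854003830a90a80037e08208208208208207e082082082082082082082082081f8208208208208208208208208201801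
 z z) z)) (n 0 (n 0 z (n 0 z z)) (n 0 (n 0 z (n 0 z z)) (n 0 (n 0 z (n 0 z z)) z)))))))))) (n
 387 (n 0 (n 0 z (n 0 z z)) (n 0 (n 0 z (n 0 z z)) (n 0 (n 0 z (n 0 z z)) (n 0 (n 0 z (n 0 z z))
 (n 0 (n 0 z (n 0 z z)) z))))) (n 537 (n 0 (n 0 (n 8660283 z z) (n 0 z z)) (n 0 (n 0 z (n 0 z
 z)) (n 0 (n 0 z (n 0 z z)) (n 0 (n 0 z (n 0 z z)) (n 0 (n 0 z (n 0 z z)) (n 0 (n 0 z (n 0 z z))
 (n 0 (n 0 z (n 0 z z)) (n 0 (n 0 z (n 0 z z)) z)))))))) (n 531 (n 0 (n 0 z (n 0 z z)) (n 0 (n 0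
 z (n 0 z z)) (n 0 (n 0 z (n 0 z z)) (n 0 (n 0 z (n 0 (n
 0x1876873003830e70e60038207e082082081f82182082082082082182082082082082182081f8208208208208208208201001
 z (n
 0x30ed0e06038208208208218208218208208208208218208208208208208208208208208608208208608200801 z
 z)) z)) (n 0 (n 0 z (n 0 (n 0x10ed0e06030821 z (n
 0x1ec3903c8727f7a88887482808a858185778d768e7b73788a8f87908188736c90675e9798946e908c7f7a93766d859372808094718382850089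
 z z)) z)) (n 0 (n 0 z (n 0 z z)) (n 0 (n 0 z (n 0 z z)) (n 0 (n 0 z (n 0 (n 8868867 z (n
 8868867 z z)) z)) (n 0 (n 0 z (n 0 z z)) (n 0 (n 0 z (n 0 z z)) (n 0 (n 0 z (n 0 z z)) (n 0 (n
 0 z (n 0 z z)) (n 0 (n 0 z (n 0 z z)) (n 0 (n 0 z (n 0 z z)) z)))))))))))))) (n 75 (n 0 (n 0 z
 (n 0 z z)) (n 0 (n 0 z (n 0 z z)) (n 0 (n 0 z (n 0 z z)) (n 0 (n 0 z (n 0 z z)) (n 0 (n 0 z (n
 0 z z)) z))))) (n 481 (n 0 (n 0 z (n 0 z z)) (n 0 (n 0 z (n 0 z z)) (n 0 (n 0 z (n 0 z z)) (n 0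
 (n 0 z (n 0 z z)) (n 0 (n 0 z (n 0 z z)) (n 0 (n 0 z (n 0 z z)) (n 0 (n 0 z (n 0 z z)) (n 0 (n
 0 z (n 0 z z)) z)))))))) (n 659 (n 0 (n 0 z (n 0 z z)) (n 0 (n 0 z (n 0 z z)) (n 0 (n 0 z (n 0
 z z)) (n 0 (n 0 z (n 0 z z)) (n 0 (n 0 z (n 0 z z)) (n 0 (n 0 z (n 0 z z)) (n 0 (n 0 z (n 0 z
 z)) (n 0 (n 0 z (n 0 z z)) (n 0 (n 0 z (n 0 (n 7612443 z z) z)) (n 0 (n 0 z (n 0 z z)) (n 0 (n
 0 z (n 0 z z)) (n 0 (n 0 z (n 0 z z)) z)))))))))))) (n 653 (n 0 (n 0 z (n 0 z z)) (n 0 (n 0 z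
 (n 0 (n 8728611 z z) z)) (n 0 (n 0 z (n 0 z z)) (n 0 (n 0 z (n 0 z z)) (n 0 (n 0 z (n 0 z z))
 (n 0 (n 0 z (n 0 z z)) (n 0 (n 0 z (n 0 z z)) (n 0 (n 0 z (n 0 z z)) (n 0 (n 0 z (n 0 z z)) (n
 0 (n 0 z (n 0 z z)) (n 0 (n 0 z (n 0 z z)) z))))))))))) (n 629 (n 0 (n 0 z (n 0 z z)) (n 0 (n 0
 z (n 0 z z)) (n 0 (n 0 z (n 0 z z)) (n 0 (n 0 z (n 0 (n 8868867 z (n 8868867 z z)) z)) (n 0 (n
 0 z (n 0 z z)) (n 0 (n 0 z (n 0 z z)) (n 0 (n 0 z (n 0 z z)) (n 0 (n 0 z (n 0 z z)) (n 0 (n 0 z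
 (n 0 z z)) (n 0 (n 0 z (n 0 z z)) (n 0 (n 0 z (n 0 z z)) (n 0 (n 0 z (n 0 z z)) (n 0 (n 0 z (n
 0 z z)) (n 0 (n 0 z (n 0 z z)) (n 0 (n 0 z (n 0 z z)) (n 0 (n 0 z (n 0 (n
 0x873843101810e90e80038607a08608217e082181f82082082082082081f86086182081f8208207e08208208218208201001
 z (n 8595307 z z)) z)) (n 0 (n 0 z (n 0 (n
 0x874873103810e90e80038a17618618227e07e085f7e082185f81f7e082085f7e081f81f86281f7e17e07e08208208201001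
 z (n 8595307 z z)) z)) (n 0 (n 0 z (n 0 z z)) (n 0 (n 0 z (n 0 z z)) (n 0 (n 0 z (n 0 z z)) (n
 0 (n 0 (n
 0x70e90e86078608a07e081f82181f82086082082082082082081f7e081f7e08607e08218218208217e17e00801 z
 (n 8595307 z z)) (n 0 (n
 0x30e90e86078608608207df82081f8208208607e182082082082082081f8217e07e08218208208207e18200801 z
 (n 8595307 z z)) z)) (n 0 (n 0 z (n 0 (n
 0x87376040180c630a0807021d2184c060439c39881c0874863103830e70c62038208607e086082082082082082082081f8208208208208208218208208208618208208208203001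
 z (n 8595307 z z)) z)) (n 0 (n 0 z (n 0 z z)) (n 0 (n 0 z (n 0 z z)) (n 0 (n 0 z (n 0 z z))
 z))))))))))))))))))))))))) (n 601 (n 0 (n 0 z (n 0 z z)) (n 0 (n 0 z (n 0 z z)) (n 0 (n 0 (n
 0x1ec3083c8617f7a88887482808a858185778d768e7b73788a8f87908188736c90675e9798946e908c7f7a93766d859372808094718382850089
 z z) (n 0 (n
 0x1ec3083c8617f7a88887482808a858185778d768e7b73788a8f87908188736c90675e9798946e908c7f7a93766d859372808094718382850089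
 z z) z)) (n 0 (n 0 z (n 0 (n
 0x30e90e80037608a07e07df82089f7df8208608618607e07e181f82081f8208208208218607e082082081f0801 z
 z) z)) (n 0 (n 0 z (n 0 (n 8794635 z (n 8794635 z z)) z)) (n 0 (n 0 (n
 0x1ec3103c8627f7a88887482808a858185778d768e7b73788a8f87908188736c90675e9798946e908c7f7a93766d859372808094718382850089
 z z) (n 0 (n
 0x1ec3103c8627f7a88887482808a858185778d768e7b73788a8f87908188736c90675e9798946e908c7f7a93766d859372808094718382850089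
 z z) z)) (n 0 (n 0 z (n 0 z z)) (n 0 (n 0 z (n 0 z z)) (n 0 (n 0 z (n 0 (n 7612443 z (n
 0x1ec3903c8727f7a88887482808a858185778d768e7b73788a8f87908188736c90675e9798946e908c7f7a93766d859372808094718382850089
 z z)) z)) (n 0 (n 0 z (n 0 (n 7612443 z z) z)) (n 0 (n 0 z (n 0 (n 7612443 z z) z)) (n 0 (n 0 z
 (n 0 z z)) (n 0 (n 0 z (n 0 z z)) (n 0 (n 0 z (n 0 z z)) (n 0 (n 0 z (n 0 (n 8725531 z z) z))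
 (n 0 (n 0 z (n 0 z z)) (n 0 (n 0 z (n 0 z z)) (n 0 (n 0 z (n 0 z z)) (n 0 (n 0 z (n 0 z z)) (n
 0 (n 0 z (n 0 z z)) (n 0 (n 0 z (n 0 z z)) (n 0 (n 0 z (n 0 z z)) (n 0 (n 0 z (n 0 z z)) (n 0
 (n 0 z (n 0 (n 8868867 z z) z)) (n 0 (n 0 z (n 0 (n 8721931 z (n 8721931 z z)) z)) (n 0 (n 0 z
 (n 0 z z)) (n 0 (n 0 z (n 0 z z)) (n 0 (n 0 z (n 0 (n 8868867 z (n 8868867 z z)) z)) (n 0 (n 0
 z (n 0 (n 8868867 z z) z)) (n 0 (n 0 z (n 0 (n 8728611 z (n 8728611 z z)) z)) (n 0 (n 0 z (n 0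
 z z)) (n 0 (n 0 z (n 0 z z)) (n 0 (n 0 z (n 0 z z)) (n 0 (n 0 z (n 0 z z)) (n 0 (n 0 z (n 0 (n
 8868867 z (n 8868867 z z)) z)) (n 0 (n 0 z (n 0 z z)) (n 0 (n 0 z (n 0 z z)) (n 0 (n 0 z (n 0 z
 z)) (n 0 (n 0 z (n 0 z z)) (n 0 (n 0 z (n 0 z z)) (n 0 (n 0 z (n 0 (n 8794635 z z) z)) (n 0 (n
 0 z (n 0 z z)) (n 0 (n 0 z (n 0 z z)) (n 0 (n 0 z (n 0 z z)) (n 0 (n 0 z (n 0 z z)) (n 0 (n 0 z
 (n 0 z z)) (n 0 (n 0 z (n 0 z z)) z))))))))))))))))))))))))))))))))))))))))))))))) (n 600 (n 0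
 (n 0 z (n 0 z z)) (n 0 (n 0 z (n 0 z z)) (n 0 (n 0 z (n 0 z z)) (n 0 (n 0 z (n 0 (n 8728611 z
 z) z)) (n 0 (n 0 (n 8724531 z (n 8724531 z z)) (n 0 (n 8724531 z (n 8724531 z z)) z)) (n 0 (n 0
 z (n 0 (n 8724531 z (n 8724531 z z)) z)) (n 0 (n 0 (n 8724531 z (n 8724531 z z)) (n 0 (n
 8724531 z (n 8724531 z z)) z)) (n 0 (n 0 z (n 0 (n 8868867 z (n 8868867 z z)) z)) (n 0 (n 0 z
 (n 0 (n 8724531 z z) z)) (n 0 (n 0 z (n 0 z z)) (n 0 (n 0 z (n 0 z z)) (n 0 (n 0 z (n 0 z z))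
 (n 0 (n 0 z (n 0 z z)) (n 0 (n 0 (n 8721931 z (n 8721931 z z)) (n 0 (n 8721931 z (n 8721931 z
 z)) z)) (n 0 (n 0 z (n 0 (n 8721931 z (n 8721931 z z)) z)) (n 0 (n 0 z (n 0 (n 8868867 z (n
 8868867 z z)) z)) (n 0 (n 0 z (n 0 (n 8868867 z (n 8868867 z z)) z)) (n 0 (n 0 z (n 0 z z)) (n
 0 (n 0 (n
 0x1b0e40c8728607e08208618208208608207e07e181f86082081f8208618218208207e07e082182082081f0081 z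
 (n 0x1b0400c82085f8208208a18207e08218607e07a08208208208208208608217e081f8208207e07e08207e00081
 z z)) (n 0 (n
 0x1b0e40c8728607e08208618207e08208207e07e18208608208208208608208208207e182081f8608217e00081 z
 (n 0x2b0401482089f7df7e08e18207e08228a07a07a081f85f8608208208608217e181f7e08208207e08218200081
 z z)) z)) (n 0 (n 0 (n
 0x1b0e40c8728607e08618207e081f8608207e08208208617e08208208208208208207e17e08208608217df0081 z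
 (n 0x1b0e40c8728607e08208618207e08208207e07e18208608208208208608208208207e182081f8608217e00081
 z z)) (n 0 (n
 0x1b0e40c8728607e08208607e07e08208207e07e082086182085f8208618208208207e18208208618217e00081 z
 (n 0x30e50e40078608208208208208208208208208208208208608208208208208208208208208208208208200801
 z z)) z)) (n 0 (n 0 z (n 0 z z)) (n 0 (n 0 z (n 0 z z)) (n 0 (n 0 z (n 0 z z)) (n 0 (n 0 z (n 0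
 z z)) (n 0 (n 0 z (n 0 z z)) (n 0 (n 0 z (n 0 z z)) (n 0 (n 0 z (n 0 (n 8721931 z (n 8721931 z
 z)) z)) (n 0 (n 0 z (n 0 (n 8595307 z z) z)) (n 0 (n 0 z (n 0 (n 8868867 z (n 8868867 z z)) z))
 (n 0 (n 0 z (n 0 z z)) (n 0 (n 0 z (n 0 z z)) (n 0 (n 0 z (n 0 (n 8728611 z (n 8728611 z z))
 z)) (n 0 (n 0 (n 8728611 z (n 8728611 z z)) (n 0 (n 8728611 z (n 8728611 z z)) z)) (n 0 (n 0 z
 (n 0 z z)) (n 0 (n 0 z (n 0 z z)) (n 0 (n 0 z (n 0 (n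
 0x876871301830e6ec620382082082082082082082082082082082082082081f8208208207e08208218208208208208201001
 z (n 8595307 z z)) z)) (n 0 (n 0 z (n 0 (n
 0x143b438980c087687310380e86e862078607a08608617e08218208208208208218208207df82082082081f86086081f8208208208601801
 z (n 8595307 z z)) z)) (n 0 (n 0 z (n 0 z z)) (n 0 (n 0 z (n 0 z z)) (n 0 (n 0 (n
 0x1b0e40c8728607e082086182081f8608207e07e081f8608208208608218208208207e17e08218208217df0081 z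
 (n 0x1b0e40c8728607e08208618207e08208207e07e18208608208208208608208208207e182081f8608217e00081
 z z)) (n 0 (n
 0x1b0e40c8728607e08208618207e08208207e07e18208608208208208608208208207e182081f8608217e00081 z
 (n 0x30e50e40078608208208208208208208208208208208208608208208208208208208208208208208208200801
 z z)) z)) (n 0 (n 0 z (n 0 (n 8868867 z (n 8868867 z z)) z)) (n 0 (n 0 (n 8728611 z (n 8728611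
 z z)) (n 0 (n 8728611 z (n 8728611 z z)) z)) (n 0 (n 0 z (n 0 z z)) (n 0 (n 0 z (n 0 z z)) (n 0
 (n 0 z (n 0 (n
 0x30e70e62037a18607e079f8208607de7e18a08e08218217e085f8207de7e17e08217e18617e08608607e00801 z
 z) z)) (n 0 (n 0 (n
 0x1ec3983c8737f7a88887482808a858185778d768e7b73788a8f87908188736c90675e9798946e908c7f7a93766d859372808094718382850089
 z (n
 0x50ed0ec60781f8627a27de82185d89e85e8608207dd7a47df8de7618607a186571e7248227e17e18607df0801 z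
 z)) (n 0 (n
 0x50ed0ec60781f8a27a27de7e189c89e89e86086081d7647de91e76186076282671e7248227e17a18a07de0801 z
 (n 7546955 z z)) z)) (n 0 (n 0 z (n 0 z z)) (n 0 (n 0 z (n 0 z z)) (n 0 (n 0 z (n 0 z z)) (n 0
 (n 0 z (n 0 (n
 0x876876301830e30e06038217a08607e182082281f82182085f8218207e08208208208207df8228208208208208208201001
 z z) z)) (n 0 (n 0 z (n 0 (n 8798747 z z) z)) (n 0 (n 0 z (n 0 z z)) (n 0 (n 0 z (n 0 (n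
 0x4c86101c0e0439c39081c0832832101810e8ec60077e08608207df82086081f8208208608208207e082082082082281f8208208a08208208208202001
 z (n
 0x50ed0ec60381f85f7d976b9a67218d88dd6dd8ac92d85a79e8597278df72781daaa8538e669e6256df9670801 z
 z)) z)) (n 0 (n 0 z (n 0 z z)) (n 0 (n 0 z (n 0 z z)) (n 0 (n 0 z (n 0 z z))
 z)))))))))))))))))))))))))))))))))))))))))))))))))))))))) (n 309 (n 0 (n 0 z (n 0 z z)) (n 0 (n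
 0 z (n 0 z z)) (n 0 (n 0 z (n 0 z z)) (n 0 (n 0 (n 8728611 z (n 8728611 z z)) (n 0 z z)) (n 0
 (n 0 z (n 0 z z)) (n 0 (n 0 z (n 0 z z)) (n 0 (n 0 z (n 0 z z)) (n 0 (n 0 z (n 0 z z)) (n 0 (n
 0 z (n 0 z z)) (n 0 (n 0 z (n 0 z z)) (n 0 (n 0 z (n 0 z z)) (n 0 (n 0 z (n 0 z z)) (n 0 (n 0 z
 (n 0 z z)) (n 0 (n 0 z (n 0 z z)) (n 0 (n 0 z (n 0 z z)) (n 0 (n 0 z (n 0 z z)) (n 0 (n 0 z (n
 0 z z)) z))))))))))))))))) (n 293 (n 0 (n 0 z (n 0 z z)) (n 0 (n 0 z (n 0 z z)) (n 0 (n 0 z (n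
 0 z z)) (n 0 (n 0 z (n 0 z z)) z)))) (n 9 (n 0 (n 0 z (n 0 z z)) (n 0 (n 0 z (n 0 z z)) (n 0 (n
 0 z (n 0 z z)) (n 0 (n 0 z (n 0 z z)) z)))) (n 3 (n 0 (n 0 z (n 0 z z)) (n 0 (n 0 z (n 0 z z))
 (n 0 (n 0 (n 8728611 z (n 8728611 z z)) (n 0 (n 8728611 z (n 8728611 z z)) z)) (n 0 (n 0 z (n 0
 z z)) (n 0 (n 0 z (n 0 z z)) (n 0 (n 0 z (n 0 z z)) (n 0 (n 0 z (n 0 z z)) (n 0 (n 0 z (n 0 z
 z)) (n 0 (n 0 z (n 0 z z)) (n 0 (n 0 z (n 0 z z)) (n 0 (n 0 z (n 0 z z)) (n 0 (n 0 z (n 0 z z))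
 z)))))))))))) (n 1 (n 0 (n 0 z (n 0 z z)) (n 0 (n 0 z (n 0 z z)) (n 0 (n 0 z (n 0 z z)) (n 0 (n
 0 z (n 0 z z)) (n 0 (n 0 z (n 0 z z)) (n 0 (n 0 z (n 0 z z)) (n 0 (n 0 z (n 0 z z)) (n 0 (n 0 z
 (n 0 z z)) (n 0 (n 0 z (n 0 (n 8868867 z z) z)) (n 0 (n 0 z (n 0 z z)) (n 0 (n 0 z (n 0 z z))
 z))))))))))) (n 0 (n 0 (n 0 z (n 0 z z)) (n 0 (n 0 z (n 0 z z)) (n 0 (n 0 z (n 0 z z)) (n 0 (n
 0 z (n 0 z z)) (n 0 (n 0 z (n 0 z z)) (n 0 (n 0 z (n 0 z z)) (n 0 (n 0 z (n 0 z z)) (n 0 (n 0 z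
 (n 0 z z)) (n 0 (n 0 (n 8728611 z (n 8728611 z z)) (n 0 (n 8728611 z (n 8728611 z z)) z)) (n 0
 (n 0 z (n 0 z z)) (n 0 (n 0 (n 8728611 z (n 8728611 z z)) (n 0 (n 8728611 z (n 8728611 z z))
 z)) (n 0 (n 0 (n
 0x874741301830e70e62070210e10c4060421c20080c0854740103810a88620078e17208a08227e17e089f7e07e08608208207df89f82082085f8208207e08208208208208203001
 z (n
 0x160c61c100601087086203028737431018042a3a0081c121510c040601087062003a989798e8b8548938b714d95b58594564c67809dc991a7797a769a2218a2d9ae82a8b68e9ac8684280985e897ba16a938f783009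
 z z)) (n 0 (n
 0x439b88201c0874841001810e8e820038a07a08608617e07e08608207e081f82082082086082182185f8217e08208218208218208201801
 z (n
 0x20c6101c0e0c39c38200c0873843101810e90e60078208208218208207e08208208608608208208208608208208218208208208208218208218202001
 z z)) z)) (n 0 (n 0 z (n 0 z z)) (n 0 (n 0 (n 8728611 z (n 8728611 z z)) (n 0 (n 8728611 z (n
 8728611 z z)) z)) (n 0 (n 0 z (n 0 z z)) (n 0 (n 0 z (n 0 z z)) (n 0 (n 0 z (n 0 z z)) (n 0 (n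
 0 z (n 0 z z)) (n 0 (n 0 z (n 0 z z)) (n 0 (n 0 z (n 0 z z)) (n 0 (n 0 z (n 0 z z)) (n 0 (n 0 z
 (n 0 z z)) (n 0 (n 0 z (n 0 (n 8868867 z z) z)) (n 0 (n 0 z (n 0 z z)) (n 0 (n 0 z (n 0 z z))
 (n 0 (n 0 (n 8717099 z (n 8717099 z z)) (n 0 z z)) (n 0 (n 0 (n
 0x2b0601483089f7df7e08e18207e08228a07a07a081f85f8608208208608217e181f7e08208207e08218200081 z
 (n 0x2b0601483085f7df8208e08207e08228a07e17a081f81f82081f8208608227e08208208608207e08207df0081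
 z z)) (n 0 z z)) (n 0 (n 0 z (n 0 z z)) (n 0 (n 0 z (n 0 z z)) (n 0 (n 0 z (n 0 z z)) (n 0 (n 0
 z (n 0 z z)) (n 0 (n 0 z (n 0 z z)) z)))))))))))))))))))))))))))))))) z)))))))))))))))))))))
 z)))) z) z)))) (n 0x3652d0aed284ac541d74b86b34c235641ae921174688513870d115434a1d4430eb80 (n
 0x21d74 (n 155 (n 2 z (n 0 z (n 6496275 z (n 0 z z)))) (n 33 (n 0 z (n 0 z (n 0 z (n 0 z (n 10
 z (n 6496515 z z)))))) (n 51 (n 18 z (n 0 z (n 0 z (n 6496523 z (n 0 z (n 0 z (n 0 z (n 6496515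
 z (n 0 z (n 0 z (n 0 z (n 0 z (n 0 z (n 26 z (n 6496515 z (n 0 z z)))))))))))))))) (n 27 (n
 0x1ac420862181e8207e18628a18628209207df85e72082081d7e28627e38a28207e27e086079f85f81f8e00081 z
 (n 0x6ca8c842038a07a485d91c9a07a08247e47e57656a17de8217db89d7667a58228e181f6a07dc7dd8a27e20801
 z (n 34 z (n 0 z (n
 0x2ca8ca82037a17a08e285c89f7a585c6e07dc8a681e81f82b7a27e485a8609607a08618207a189f7de7df0801 z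
 (n 0 z (n 0 z (n 0 z (n 0 z (n 42 z (n 0 z (n 6496275 z (n 0 z (n 0 z (n 0 z (n
 0xca8ca82037e182086086082082081e86081f8208208208208208208208208208208207e082081f8208200801 z (n
 6496515 z (n 0 z (n 6496515 z (n 0 z (n 0 z (n 0 z z)))))))))))))))))))))) (n 1 (n 0 z (n 0 z
 (n 0 z (n 50 z (n 2164299 z (n 58 z (n 66 z z))))))) (n 0 (n 74 z (n 82 z (n 90 z (n 0 z (n
 2164315 z (n 0 z (n 0 z (n 0 z (n 98 z z))))))))) z)))))) (n 155 (n 0 (n 979 (n 0 z (n 0 z (n 0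
 z (n 0 z z)))) (n 189 (n 0 z (n 0 z (n 0 z (n 0 z (n 0 z (n 0 z (n 0 z (n 0 z (n 0 z (n 0 z (n
 0 z (n 0 z (n 0 z (n 0 z (n 0 z (n 0 z (n 0 z (n 0 z (n 0 z (n 0 z (n 0 z (n 0 z (n 0 z (n 0 z
 (n 2 (n 0 z (n 1 z (n 2 (n 0 z (n 0 (n 4331627 z z) (n 0 (n 8798323 z (n 4331627 z z)) (n 0 z
 (n 0 (n 4331627 z z) (n 0 z z)))))) (n 2 (n 0 z (n 0 z (n 0 z (n 0 z (n 0 z (n 0 z z)))))) (n 2
 (n 0 (n 6498379 z (n 6498379 z z)) (n 0 (n 1236 z (n 1236 z z)) (n 0 z (n 0 (n 1236 z (n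
 8798323 z z)) (n 0 z (n 0 (n 1236 z (n 8798323 z z)) z)))))) (n 2 (n 0 z (n 0 z (n 0 z (n 0 z
 (n 0 z (n 0 z z)))))) (n 2 (n 0 z (n 0 (n 8782619 z z) (n 0 (n 8798323 z (n 8782619 z z)) (n 0
 z (n 0 (n 8782619 z z) (n 0 z z)))))) (n 1 z (n 2 (n 0 (n 1220 z z) (n 0 (n 6568059 z z) (n 0
 (n 1220 z (n 8798323 z z)) (n 0 z (n 0 z (n 0 z z)))))) (n 2 (n 0 (n 1220 z z) (n 0 (n 1220 z
 z) (n 0 (n 7546971 z (n 8798323 z z)) (n 0 z (n 0 z (n 0 z z)))))) z)))))))))) (n 0 z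
 z)))))))))))))))))))))))))) (n 189 (n 0 z (n 0 z (n 0 z (n 0 z (n 0 z (n 0 z (n 0 z (n 0 z (n 0
 z (n 0 z (n 0 z (n 0 z (n 0 z (n 0 z (n 0 z (n 0 z (n 0 z (n 0 z (n 0 z (n 0 z (n 0 z (n 0 z (n
 0 z (n 0 z (n 0 z (n 0 z z)))))))))))))))))))))))))) (n 573 (n 2 (n 0 z (n 2 (n 0 z (n 0 z (n 0
 z (n 0 z (n 0 z (n 0 z z)))))) (n 2 (n 0 z (n 0 z (n 0 (n 1236 z (n 1236 z z)) (n 0 (n 1236 z
 z) (n 0 (n 1236 z z) (n 0 z z)))))) (n 2 (n 0 z (n 0 z (n 0 z (n 0 z (n 0 z (n 0 z z)))))) (n 1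
 z (n 1 z (n 2 (n 0 z (n 0 z (n 0 z (n 0 z (n 0 z (n 0 z z)))))) (n 2 (n 0 z (n 0 z (n 0 z (n 0
 z (n 0 z (n 0 z z)))))) z)))))))) (n 0 z (n 0 z (n 0 z (n 0 z z))))) (n 573 (n 0 z (n 0 z (n 0
 z (n 0 z (n 0 z z))))) (n 309 (n 0 z (n 0 z (n 0 z (n 0 z (n 0 z z))))) (n 309 (n 0 z (n 0 z (n
 0 z (n 0 z (n 0 z z))))) (n 309 (n 0 z (n 0 z (n 0 z (n 0 z (n 0 z z))))) (n 305 (n 0 z (n 0 z
 (n 0 z (n 0 z z)))) (n 305 (n 0 z (n 0 z (n 0 z (n 0 z z)))) (n 305 (n 0 z (n 0 z (n 0 z (n 0 z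
 z)))) (n 305 (n 0 z (n 0 z (n 0 z (n 2 z z)))) z)))))))))))) (n 0 (n 123 (n 2 (n 0 z (n 1 z (n
 2 (n 0 z (n 0 z (n 0 z (n 0 z (n 0 z (n 0 z z)))))) (n 2 (n 0 z (n 0 z (n 0 z (n 0 z (n 0 z (n
 0 z z)))))) (n 2 (n 0 (n 6498379 z (n 6498379 z z)) (n 0 (n 276 z (n 276 z z)) (n 0 (n 276 z (n
 8798323 z z)) (n 0 z (n 0 z (n 0 (n 8586843 z (n 8798323 z z)) z)))))) (n 2 (n 0 z (n 0 z (n 0
 z (n 0 z (n 0 z (n 0 z z)))))) (n 2 (n 0 z (n 0 (n 3278955 z z) (n 0 (n 8798323 z (n 3278955 z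
 z)) (n 0 z (n 0 (n 3278955 z z) (n 0 z z)))))) (n 1 z (n 2 (n 0 (n 260 z z) (n 0 (n 6568059 z
 z) (n 0 (n 260 z (n 8798323 z z)) (n 0 z (n 0 z (n 0 z z)))))) (n 2 (n 0 (n 260 z z) (n 0 (n
 260 z z) (n 0 (n 7546971 z (n 8798323 z z)) (n 0 z (n 0 z (n 0 z z)))))) z)))))))))) (n 0 z (n
 0 z (n 0 z (n 0 z (n 0 z (n 0 z z))))))) (n 123 (n 0 z (n 0 z (n 0 z (n 0 z (n 0 z (n 0 z (n 0
 z z))))))) (n 81 (n 2 (n 0 z (n 2 (n 0 z (n 0 z (n 0 (n 8873227 z z) (n 0 z (n 0 z (n 0 z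
 z)))))) (n 2 (n 0 z (n 0 z (n 0 (n 276 z (n 276 z z)) (n 0 z (n 0 z (n 0 (n 8586843 z z)
 z)))))) (n 2 (n 0 z (n 0 z (n 0 z (n 0 z (n 0 z (n 0 z z)))))) (n 1 z (n 1 z (n 2 (n 0 z (n 0 z
 (n 0 (n 260 z z) (n 0 z (n 0 z (n 0 z z)))))) (n 2 (n 0 z (n 0 z (n 0 (n 8868643 z z) (n 0 z (n
 0 z (n 0 z z)))))) z)))))))) (n 0 z (n 0 z (n 0 z (n 0 z (n 0 z (n 0 z (n 0 z (n 0 z (n 0 z (n
 0 z (n 0 z (n 0 z z))))))))))))) (n 81 (n 0 z (n 0 z (n 0 z (n 0 z (n 0 z (n 0 z (n 0 z (n 0 z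
 (n 0 z (n 0 z (n 0 z (n 0 z (n 0 z z))))))))))))) (n 69 (n 0 z (n 0 z (n 0 z (n 0 z (n 0 z
 z))))) (n 69 (n 0 z (n 0 z (n 0 z (n 0 z (n 0 z z))))) (n 69 (n 0 z (n 0 z (n 0 z (n 0 z (n 0 z
 z))))) (n 65 (n 0 z (n 0 z (n 0 z (n 0 z (n 0 z (n 0 z (n 0 z (n 0 z (n 0 z (n 0 z (n 0 z (n 0
 z (n 0 z (n 0 z z)))))))))))))) (n 65 (n 0 z (n 0 z (n 0 z (n 0 z (n 0 z (n 0 z (n 0 z (n 0 z
 (n 0 z (n 0 z (n 0 z (n 0 z (n 0 z (n 0 z z)))))))))))))) (n 65 (n 0 z (n 0 z (n 0 z (n 0 z (n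
 0 z (n 0 z (n 0 z (n 0 z (n 0 z (n 0 z (n 0 z (n 0 z (n 0 z (n 0 z z)))))))))))))) (n 65 (n 0 z
 (n 0 z (n 0 z (n 0 z (n 0 z (n 0 z (n 0 z (n 0 z (n 0 z (n 0 z (n 0 z (n 0 z (n 0 z (n 2 z
 z)))))))))))))) z))))))))))) (n 0 (n 0 z (n 7 (n 0 z (n 0 z (n 0 z (n 0 z (n 0 z (n 0 z (n
 0x6ea6ca280781d8208227a075e9237a082285d8228637e181f8a282385d82171f7a08a08a082385e81f7e00801 z
 (n 0 z (n 0 z (n 0 z (n 0 z (n 0 z (n 0 z (n 0 z (n 0 z (n 0 z (n 0 z (n 0 z (n 0 z (n 0 z (n 0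
 z (n 0 z (n 0 z (n 0 z (n 0 z (n 0 z (n 0 z z))))))))))))))))))))))))))) (n 7 (n 0 z (n 0 z (n
 0 z (n 0 z (n 0 z (n 0 z (n 0 z (n 0 z (n 0 z (n 0 z (n 0 z (n 0 z (n 0 z (n 0 z (n 0 z (n 0 z
 (n 2 (n 2 (n 0 z (n 0 z (n 0 z (n 0 z (n 0 z (n 0 z z)))))) (n 2 (n 0 (n 60 z (n 60 z z)) (n 0
 (n 8863843 z (n 8863843 z z)) (n 0 (n 7546955 z (n 60 z z)) (n 0 z (n 0 z (n 0 (n 7546955 z (n
 1957 z z)) z)))))) (n 2 (n 0 z (n 0 z (n 0 z (n 0 z (n 0 z (n 0 z z)))))) (n 2 (n 0 z (n 0 (n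
 8863843 z z) (n 0 (n 2164859 z (n 2164859 z z)) (n 0 z (n 0 (n 2164859 z z) (n 0 z z)))))) (n 1
 z (n 2 (n 0 (n 52 z z) (n 0 (n 8863843 z z) (n 0 (n 52 z (n 7616619 z z)) (n 0 z (n 0 z (n 0 z
 z)))))) (n 2 (n 0 (n 6498395 z z) (n 0 (n 8863843 z z) (n 0 (n 52 z (n 52 z z)) (n 0 z (n 0 z
 (n 0 z z)))))) z))))))) (n 0 z (n 0 z (n 0 z (n 0 z (n 0 z (n 0 z (n 0 z (n 0 z (n 0 z (n 0 z
 z))))))))))))))))))))))))))) (n 15 (n 0 z (n 0 z (n 0 z (n 2 (n 0 z (n 0 z (n 2 (n 0 z (n 0 z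
 (n 0 z (n 0 z (n 0 z (n 0 z z)))))) (n 1 z (n 2 (n 0 z (n 0 z (n 0 z (n 0 z (n 0 z (n 0 z
 z)))))) (n 2 (n 0 z (n 0 z (n 0 z (n 0 z (n 0 z (n 0 z z)))))) z)))))) (n 0 z (n 0 z (n 0 z (n
 0 z (n 0 z (n 0 z z)))))))))) (n 15 (n 0 z (n 0 z (n 0 z (n 0 z (n 0 z (n 0 z (n 0 z (n 0 z (n
 0 z (n 2 (n 0 z (n 2 (n 0 (n 6490203 z (n 6490203 z z)) (n 0 (n 8595275 z (n 965 z z)) (n 0 z
 (n 0 z (n 0 (n 8595275 z (n 52 z z)) (n 0 z z)))))) (n 1 z (n 2 (n 0 (n 52 z (n 8595275 z z))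
 (n 0 (n 52 z (n 7751691 z z)) (n 0 z (n 0 z (n 0 (n 8595275 z (n 52 z z)) (n 0 z z)))))) (n 2
 (n 0 (n 6498395 z (n 6498395 z z)) (n 0 (n 52 z (n 52 z z)) (n 0 z (n 0 z (n 0 (n 52 z (n 52 z
 z)) (n 0 z z)))))) z))))) z)))))))))) (n 15 (n 0 z (n 0 z (n 0 z (n 0 z (n 0 z (n 0 z (n 0 z (n
 0 z (n 0 z (n 0 z z)))))))))) (n 13 (n 2 (n 0 z (n 0 z (n 0 z z))) (n 0 z (n 0 z (n 0 z (n 0 z
 (n 0 z (n 0 z (n 0 z (n 0 z (n 0 z (n 0 z (n 0 z (n 0 z (n 0 z (n 0 z (n 0 z (n 0 z (n 0 z (n 0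
 z (n 0 z (n 0 z (n 0 z (n 0 z (n 0 z (n 0 z (n 0 z (n 0 z (n 0 z (n 0 z (n 0 z (n 0 z (n 0 z (n
 0 z z))))))))))))))))))))))))))))))))) (n 13 (n 0 z (n 0 z (n 0 z (n 0 z (n
 0x8ea8c8460781e8207e081c99d95f89fba269e8e56a16de81c65f82885e7a87e27e07228e37de72875a81e0801 z
 (n 0 z (n 0 z (n 0 z (n 0 z (n 0 z (n 0 z (n 0 z (n 0 z (n 0 z (n 0 z (n 0 z (n 0 z (n 0 z (n 0
 z (n 0 z (n 0 z (n 0 z (n 0 z (n 0 z (n 0 z (n 0 z (n 0 z (n 0 z (n 0 z (n 0 z (n 0 z (n 0 z (n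
 0 z z))))))))))))))))))))))))))))))))) (n 13 (n 0 z (n 0 z (n 0 z (n 0 z (n 0 z (n 0 z (n 0 z
 (n 0 z (n 0 z (n 0 z (n 0 z (n 0 z (n 0 z (n 0 z (n 0 z (n 0 z (n 0 z (n 0 z (n 0 z (n 0 z (n 0
 z (n 0 z (n 0 z (n 0 z (n 0 z (n 0 z (n 0 z (n 0 z (n 0 z (n 0 z (n 0 z (n 0 z (n 0 z
 z))))))))))))))))))))))))))))))))) (n 13 (n 0 z (n 0 z (n 0 z (n 0 z (n 0 z (n 0 z (n 0 z (n 0
 z (n 0 z (n 0 z (n 0 z (n 0 z (n 0 z (n 0 z (n 0 z (n 0 z (n 0 z (n 0 z (n 0 z (n 0 z (n 0 z (n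
 0 z (n 0 z (n 0 z (n 0 z (n 0 z (n 0 z (n 0 z (n 0 z (n 0 z (n 0 z (n 0 z (n 0 z
 z))))))))))))))))))))))))))))))))) z)))))))))) (n 0 (n 1065 (n 0 z (n 0 z (n 0 z (n 0 z (n 0 z
 (n 0 z (n 0 z (n 0 z (n 0 z (n 0 z (n 0 z (n 2 (n 0 z (n 2 (n 0 z (n 0 z (n 0 (n 8873227 z z)
 (n 0 z (n 0 z (n 0 z z)))))) (n 2 (n 0 z (n 0 z (n 0 (n 84 z (n 84 z z)) (n 0 z (n 0 (n 84 z z)
 (n 0 (n 8586843 z z) z)))))) (n 2 (n 0 z (n 0 z (n 0 z (n 0 z (n 0 z (n 0 z z)))))) (n 1 z (n 1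
 z (n 2 (n 0 z (n 0 z (n 0 (n 404 z z) (n 0 z (n 0 z (n 0 z z)))))) (n 2 (n 0 z (n 0 z (n 0 (n
 8868643 z z) (n 0 z (n 0 z (n 0 z z)))))) z)))))))) (n 0 z z))))))))))))) (n 1065 (n 0 z (n 0 z
 (n 0 z (n 0 z (n 0 z (n 0 z (n 0 z (n 0 z (n 0 z (n 0 z (n 0 z (n 0 z (n 0 z z))))))))))))) (n
 21 (n 0 z (n 0 z (n 0 z (n 0 z (n 0 z (n 0 z (n 0 z (n 0 z (n 0 z (n 0 z (n 0 z (n 0 z (n 0 z
 (n 0 z (n 0 z (n 0 z (n 0 z (n 0 z (n 0 z (n 0 z (n 0 z (n 0 z (n 0 z (n 0 z (n 0 z (n 0 z (n 0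
 z (n 0 z (n 0 z z))))))))))))))))))))))))))))) (n 21 (n 0 z (n 0 z (n 0 z (n 0 z (n 0 z (n 0 z
 (n 0 z (n 0 z (n 0 z (n 0 z (n 0 z (n 0 z (n 0 z (n 0 z (n 0 z (n 0 z (n 0 z (n 0 z (n 0 z (n 0
 z (n 0 z (n 0 z (n 0 z (n 0 z (n 0 z (n 0 z (n 0 z (n 0 z (n 0 z z)))))))))))))))))))))))))))))
 (n 21 (n 0 z (n 0 z (n 0 z (n 0 z (n 0 z (n 0 z (n 0 z (n 0 z (n 0 z (n 0 z (n 0 z (n 0 z (n 0
 z (n 0 z (n 0 z (n 0 z (n 0 z (n 0 z (n 0 z (n 0 z (n 0 z (n 0 z (n 0 z (n 0 z (n 0 z (n 0 z (n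
 0 z (n 0 z (n 0 z z))))))))))))))))))))))))))))) (n 101 (n 0 z (n 0 z (n 0 z (n 0 z (n 0 z (n 0
 z (n 0 z (n 0 z (n 0 z (n 0 z (n 0 z z))))))))))) (n 101 (n 0 z (n 0 z (n 0 z (n 0 z (n 0 z (n
 0 z (n 2 (n 0 z (n 0 z z)) (n 0 z (n 0 z (n 0 z (n 0 z z))))))))))) (n 101 (n 0 z (n 0 z (n 2
 (n 0 z z) (n 0 z (n 0 z (n 0 z (n 0 z (n 0 z (n 0 z (n 0 z (n 0 z z))))))))))) (n 101 (n 0 z (n
 0 z (n 0 z (n 0 z (n 0 z (n 0 z (n 0 z (n 0 z (n 0 z (n 0 z (n 2 z z))))))))))) z))))))))) (n 0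
 (n 0 z (n 483 (n 0 z (n 0 z (n 0 z (n 0 z (n 0 z (n 0 z (n 0 z (n 0 z (n 0 z (n 0 z (n 0 z (n 0
 z (n 0 z (n 2 (n 0 z (n 0 z (n 2 (n 0 z (n 0 z (n 0 z (n 0 z (n 0 z (n 0 z z)))))) (n 1 z (n 2
 (n 0 z (n 0 z (n 0 z (n 0 z (n 0 z (n 0 z z)))))) (n 2 (n 0 z (n 0 z (n 0 z (n 0 z (n 0 z (n 0
 z z)))))) z)))))) (n 0 z (n 0 z (n 0 z (n 0 z (n 0 z (n 0 z (n 0 z (n 0 z (n 0 z (n 0 z (n 0 z
 (n 0 z (n 0 z z))))))))))))))))))))))))))) (n 483 (n 0 z (n 0 z (n 0 z (n 0 z (n 0 z (n 0 z (n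
 0 z (n 0 z (n 0 z (n 0 z (n 0 z (n 0 z (n 0 z (n 0 z (n 0 z (n 0 z (n 0 z (n 0 z (n 0 z (n 0 z
 (n 0 z (n 0 z (n 0 z (n 0 z (n 0 z (n 0 z (n 0 z z))))))))))))))))))))))))))) (n 483 (n 0 z (n
 0 z (n 0 z (n 0 z (n 0 z (n 0 z (n 0 z (n 0 z (n 0 z (n 0 z (n 0 z (n 0 z (n 0 z (n 0 z (n 0 z
 (n 0 z (n 0 z (n 0 z (n 0 z (n 0 z (n 0 z (n 0 z (n 0 z (n 0 z (n 0 z (n 0 z (n 0 z
 z))))))))))))))))))))))))))) (n 49 (n 2 (n 0 z (n 0 z (n 0 z z))) (n 0 z (n 0 z (n 0 z (n 0 z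
 (n 0 z (n 0 z (n 0 z (n 0 z (n 0 z (n 0 z z))))))))))) (n 49 (n 0 z (n 0 z (n 0 z (n 2 (n 0 z
 (n 0 z z)) (n 0 z (n 0 z (n 0 z (n 0 z (n 0 z (n 0 z (n 0 z z))))))))))) (n 49 (n 0 z (n 0 z (n
 0 z (n 0 z (n 2 (n 0 z z) (n 0 z (n 0 z (n 0 z (n 0 z (n 0 z (n 0 z z))))))))))) (n 49 (n 0 z
 (n 0 z (n 0 z (n 0 z (n 0 z (n 0 z (n 0 z (n 7754531 z (n 0 z (n 0 z (n 0 z z)))))))))))
 z)))))))) (n 0 (n 489 (n 0 z (n 0 z (n 0 z (n 0 z (n 0 z (n 0 z (n 0 z (n 0 z (n 0 z (n 0 z (n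
 0 z (n 0 z (n 0 z (n 0 z (n 0 z z))))))))))))))) (n 489 (n 0 z (n 0 z (n 0 z (n 0 z (n 0 z (n 0
 z (n 0 z (n 0 z (n 0 z (n 0 z (n 0 z (n 0 z (n 0 z (n 0 z (n 0 z z))))))))))))))) (n 489 (n 0 z
 (n 0 z (n 0 z (n 0 z (n 0 z (n 0 z (n 0 z (n 0 z (n 0 z (n 0 z (n 0 z (n 0 z (n 0 z (n 0 z (n 0
 z z))))))))))))))) (n 53 (n 0 z (n 0 z (n 0 z (n 0 z (n 0 z (n 0 z (n 0 z (n 0 z (n 0 z (n 0 z
 z)))))))))) (n 53 (n 0 z (n 0 z (n 0 z (n 0 z (n 0 z (n 2 (n 0 z (n 0 z z)) (n 0 z (n 0 z (n 0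
 z (n 0 z z)))))))))) (n 53 (n 0 z (n 0 z (n 0 z (n 2 (n 0 z z) (n 0 z (n 0 z (n 0 z (n 0 z (n 0
 z (n 0 z z)))))))))) (n 53 (n 0 z (n 0 z (n 0 z (n 0 z (n 0 z (n 0 z (n 0 z (n 0 z (n 0 z (n 2
 z z)))))))))) z))))))) (n 0 (n 0 z (n 0 z (n 1 (n 0 z (n 0 z (n 0 z (n 0 z (n 0 z (n 0 z (n 0 z
 (n 0 z (n 0 z (n 0 z z)))))))))) (n 1 (n 0 z (n 0 z (n 0 z (n 0 z (n 0 z (n 0 z (n 2 (n 0 z (n
 0 z z)) (n 0 z (n 0 z (n 0 z z)))))))))) (n 1 (n 0 z (n 0 z (n 0 z (n 0 z (n 0 z (n 0 z (n 0 z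
 (n 0 z (n 0 z (n 0 z z)))))))))) (n 1 (n 0 z (n 0 z (n 0 z (n 0 z (n 0 z (n 0 z (n 0 z (n 0 z
 (n 2 z (n 0 z z)))))))))) z)))))) (n 0 (n 0 z (n 241 (n 0 z (n 0 z (n 0 z (n 0 z (n 0 z (n 0 z
 (n 0 z (n 0 z (n 0 z z))))))))) (n 241 (n 0 z (n 0 z (n 0 z (n 0 z (n 0 z (n 0 z (n 0 z (n 0 z
 (n 0 z z))))))))) (n 241 (n 0 z (n 0 z (n 0 z (n 0 z (n 0 z (n 0 z (n 0 z (n 0 z (n 0 z
 z))))))))) (n 241 (n 0 z (n 0 z (n 0 z (n 0 z (n 2 z (n 0 z (n 0 z (n 0 z (n 0 z z)))))))))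
 z))))) (n 0 (n 241 (n 0 z (n 0 z (n 0 z (n 0 z (n 0 z (n 0 z (n 0 z (n 0 z (n 0 z (n 0 z
 z)))))))))) (n 241 (n 0 z (n 0 z (n 0 z (n 0 z (n 0 z (n 0 z (n 0 z (n 0 z (n 0 z (n 0 z
 z)))))))))) (n 241 (n 0 z (n 0 z (n 0 z (n 0 z (n 0 z (n 0 z (n 0 z (n 0 z (n 0 z (n 0 z
 z)))))))))) (n 241 (n 0 z (n 0 z (n 0 z (n 0 z (n 2 z (n 0 z (n 0 z (n 0 z (n 0 z (n 0 z
 z)))))))))) z)))) (n 0 (n 0 z (n 0 z (n 0 z z))) (n 0 (n 0 z (n 0 z z)) (n 0 (n 0 z z) (n 0 z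
 z))))))))))))) (n 0 (n 1 (n 6496515 z (n 268 z (n 268 z (n 2 z (n 268 z (n 6496523 z z)))))) (n
 0 z (n 1 (n 6496515 z (n 6496275 z (n 6496275 z (n 6496275 z (n 6496275 z (n 6496275 z z))))))
 (n 0 z z)))) (n 0 (n 0xc3652d2885134550d2 (n 0 (n 0 (n 7734043 z (n 7734043 z (n 7734043 z (n
 7734043 z (n 7734043 z (n 7734043 z z)))))) z) (n 0 (n 155 (n 1 (n 7734043 z (n 7734043 z (n
 7734043 z (n 7734043 z (n 7734043 z (n 7734043 z z)))))) (n 0 z (n 1 (n 7544851 z (n 7544851 z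
 (n 7544851 z (n 7544851 z (n 7544851 z (n 7544851 z z)))))) (n 0 z z)))) (n 513 (n 1 (n 7545091
 z (n 268 z (n 268 z (n 3278683 z (n 268 z (n 6566003 z z)))))) (n 0 z (n 1 (n 7545091 z (n
 4400907 z (n 4400907 z (n 4400907 z (n 4400907 z (n 4400907 z z)))))) (n 1 (n 7545091 z (n
 4400923 z (n 4400923 z (n 4400923 z (n 4400923 z (n 4400923 z z)))))) z)))) (n 63 (n 1 (n
 7544851 z (n 6557811 z (n 2 z (n 2684 z (n 7734043 z (n 2684 z z)))))) (n 1 (n 7544851 z (n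
 2684 z (n 2684 z (n 412 z (n 7545099 z (n 6566259 z z)))))) (n 1 (n 7544851 z (n 7545099 z (n
 2684 z (n 2684 z (n 7734043 z (n 2684 z z)))))) (n 1 (n 7545091 z (n 7545091 z (n 7545091 z (n
 7545091 z (n 7545091 z (n 7545091 z z)))))) (n 1 (n 7545091 z (n 7545091 z (n 7545091 z (n
 7545091 z (n 7545091 z (n 7545091 z z)))))) (n 1 (n 7544851 z (n 2684 z (n 2684 z (n 2684 z (n
 7545099 z (n 7734043 z z)))))) (n 1 (n 7545091 z (n 7545091 z (n 7545091 z (n 7545091 z (n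
 7545091 z (n 7545091 z z)))))) z))))))) (n 287 (n 1 (n 7545091 z (n 10 z (n 332 z (n 7545099 z
 (n 332 z (n 332 z z)))))) (n 0 z (n 1 (n 7545091 z (n 7544851 z (n 7544851 z (n 7544851 z (n
 7544851 z (n 7544851 z z)))))) (n 1 (n 7545091 z (n 7544851 z (n 7544851 z (n 7544851 z (n
 7544851 z (n 7544851 z z)))))) (n 1 (n 7545091 z (n 332 z (n 332 z (n 7545099 z (n 4452 z (n
 332 z z)))))) z))))) (n 155 (n 1 (n 7545091 z (n 284 z (n 284 z (n 7545099 z (n 284 z (n 284 z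
 z)))))) (n 1 (n 7545091 z (n 2164555 z (n 3282763 z (n 3282763 z (n 7545099 z (n 3282763 z
 z)))))) (n 0 z (n 1 (n 7545091 z (n 7544851 z (n 7544851 z (n 7544851 z (n 7544851 z (n 7544851
 z z)))))) (n 1 (n 7545091 z (n 284 z (n 284 z (n 7545099 z (n 284 z (n 284 z z)))))) z))))) (n
 153 (n 1 (n 7545091 z (n 7544851 z (n 7544851 z (n 7544851 z (n 7544851 z (n 7544851 z z))))))
 (n 1 (n 7545091 z (n 3282779 z (n 3282779 z (n 2164571 z (n 7545099 z (n 3282779 z z)))))) (n 0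
 z (n 1 (n 7545091 z (n 268 z (n 268 z (n 7545099 z (n 18 z (n 6566003 z z)))))) z)))) (n 155 (n
 1 (n 7545091 z (n 7734043 z (n 7734043 z (n 7734043 z (n 7734043 z (n 7545099 z z)))))) (n 0 z
 (n 1 (n 7545091 z (n 7544851 z (n 7544851 z (n 7544851 z (n 7544851 z (n 7544851 z z)))))) (n 0
 z z)))) z))))))) (n 0 (n 0 (n 0 z (n 0 z (n 0 z z))) (n 0 (n 0 z (n 0 z z)) (n 0 (n 0 z z) z)))
 (n 0 (n 513 (n 0 (n 0 (n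
 0x1b0ea0887581e8207e18628a18628209207df85e72082081d7e28627e38a28207e27e086079f85f81f8e00081 z
 z) (n 0 z (n 0 z z))) (n 0 (n 0 z (n 0 z (n 0 z z))) (n 0 (n 0 z (n 0 z (n 0 z z))) (n 0 (n 0 z
 (n 0 z (n 0 z z))) z)))) (n 335 (n 0 (n 0 z (n 0 z (n 0 z z))) (n 0 (n 0 z (n 0 z (n 0 (n
 8593427 z z) z))) (n 0 (n 0 z (n 0 z (n 0 z z))) (n 0 (n 0 z (n 0 z (n 0 z z))) (n 0 (n 0 z (n
 0 z (n 0 z z))) (n 0 (n 0 z (n 0 z (n 0 z z))) (n 0 (n 0 z (n 0 z (n 0 z z))) (n 0 (n 0 z (n 0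
 z (n 0 z z))) (n 0 (n 0 (n 8593427 z (n 8593427 z z)) (n 0 z (n 0 z z))) (n 0 (n 0 z (n 0 z (n
 0 z z))) (n 0 (n 0 z (n 0 z (n 0 z z))) (n 0 (n 0 z (n 0 z (n 0 z z))) (n 0 (n 0 z (n 0 z (n 0
 z z))) (n 0 (n 0 (n
 0x30caeca60781f8608208208208218208208208218208208208608608207e082082082081f82082081f8200801 z
 (n 0x30caeca60781f8208208208208208208208218208208208208208208208208208208208208208208208200801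
 z z)) (n 0 z (n 0 z z))) (n 0 (n 0 z (n 0 z (n 0 z z))) (n 0 (n 0 z (n 0 z (n 0 z z))) (n 0 (n
 0 (n
 0x1b0c80886481e8207e18628a18628209207df85e72082081d7e28627e38a28207e27e086079f85f81f8e00081 z
 (n 0x1b0c80886481e8207e18628a18628209207df85e72082081d7e28627e38a28207e27e086079f85f81f8e00081
 z z)) (n 0 z (n 0 z z))) (n 0 (n 0 z (n 0 z (n 0 z z))) (n 0 (n 0 (n
 0x1b0c80886481e8207e18628a18628209207df85e72082081d7e28627e38a28207e27e086079f85f81f8e00081 z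
 (n 0x1b0c80886481e8207e18628a18628209207df85e72082081d7e28627e38a28207e27e086079f85f81f8e00081
 z z)) (n 0 z (n 0 z z))) (n 0 (n 0 (n
 0x865854303810a90a86037a27e085f86086186081e8608207e08207e08227e08208218208218208207a07df81e8208211001
 z (n
 0x865854303810a90a86037a27e085f86086186081e8608207e08207e08227e08208218208218208207a07df81e8208211001
 z z)) (n 0 z (n 0 z z))) (n 0 (n 0 z (n 0 (n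
 0x10a90a82037e07e08a185e8a07e481e79c7e086479e82082582182181d8208a07a082089f7e18217df85f0801 z
 (n 0x2ec70c2a0781f8218208208207e08608217e18608218208208208208218208608208207e082081f8208200801
 z z)) (n 0 z z))) (n 0 (n 0 z (n 0 z (n 0 (n 8791867 z (n 8799091 z z)) z))) (n 0 (n 0 (n
 5511291 z (n 5511291 z z)) (n 0 z (n 0 z z))) (n 0 (n 0 z (n 0 z (n 0 z z))) (n 0 (n 0 z (n 0 z
 (n 0 z z))) (n 0 (n 0 z (n 0 z (n 0 z z))) z)))))))))))))))))))))))))) (n 63 (n 0 (n 0 z (n 0 z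
 (n 0 z z))) (n 0 (n 0 z (n 0 z (n 0 z z))) (n 0 (n 0 z (n 0 z (n 0 z z))) (n 0 (n 0 z (n 0 z (n
 0 z z))) (n 0 (n 0 z (n 0 z (n 0 z z))) (n 0 (n 0 z (n 0 z (n 0 z z))) (n 0 (n 0 z (n 0 z (n 0
 z z))) z))))))) (n 287 (n 0 (n 0 z (n 0 z (n 0 z z))) (n 0 (n 0 z (n 0 z (n 0 z z))) (n 0 (n 0
 z (n 0 z (n 0 z z))) (n 0 (n 0 z (n 0 z (n 0 z z))) (n 0 (n 0 z (n 0 z (n 0 z z))) z))))) (n 41
 (n 0 (n 0 z (n 0 z (n 0 z z))) (n 0 (n 0 (n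
 0x10c6ec0a077e082081f82182086181e82082086082186082082082081f8607e082082082082081f8208210801 z
 (n 0x358768227e089f81d8dc7df86b9a05ddae57e569b81a7969a58977e06e585e7e38249e056a7d96a30041 z z))
 (n 0 z (n 0 z z))) (n 0 (n 0 z (n 0 z (n 0 z z))) (n 0 (n 0 (n
 0x50a90a80078dd7e071e72872182286691e7a68577a382281281e8dc86396062082079d95e8e17268219210801 z
 z) (n 0 z (n 0 z z))) (n 0 (n 0 (n 8798323 z (n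
 0x1b0c80886481f8207e08628e08617e09207e085e6e282181d7e18628238a479e8207608617218207e095f0081 z
 z)) (n 0 z (n 0 (n
 0xca1d81cc3b10d8648469838677858e939d8f8f8b7e80b57370808e7a517881828062667f86827f9a8196858670a364727d7164769d79906aae7f00c9
 z z) z))) (n 0 (n 0 (n
 0x1b0ea0887581e8207e18628a18628209207df85e72082081d7e28627e38a28207e27e086079f85f81f8e00081 z
 (n
 0x1ad8757f79828073739a9b80977d7c7f809c4e819e8673567d827e806b804b895f83ae89537f726ea26c654b6289899b919b5fd37f0049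
 z z)) (n 0 z (n 0 z z))) (n 0 (n 0 z (n 0 z (n 0 z z))) (n 0 (n 0 (n 8593667 z (n 8593667 z z))
 (n 0 z (n 0 z z))) (n 0 (n 0 z (n 0 z (n 0 z z))) (n 0 (n 0 (n
 0x1b0ea0887581e8207e18628a186282092079f81e72086081d7a18a37a38a281f7a282086079f85f8208e00081 z
 z) (n 0 z (n 0 z z))) (n 0 (n 0 z (n 0 z (n 0 z z))) (n 0 (n 0 z (n 0 z (n 0 z z))) (n 0 (n 0
 (n 8586843 z (n 8798323 z z)) (n 0 z (n 0 z z))) z))))))))))))) (n 556 (n 0 (n 0 z (n 0 z (n 0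
 z z))) (n 0 (n 0 z (n 0 z (n 0 z z))) (n 0 (n 0 z (n 0 z (n 0 z z))) (n 0 (n 0 (n
 0x10caeca2078208218207e07e086081e82081f82082086082181f82081f82082081f82181f81f82081f8210801 z
 (n 0x458758237e08df81c8db7de86e9e151db667e669a819754a268947a06a685e7a4825a624ad7d76630041 z z))
 (n 0 z (n 0 z z))) (n 0 (n 0 z (n 0 z (n 0 z z))) (n 0 (n 0 z (n 0 z (n 0 z z))) (n 0 (n 0 z (n
 0 z (n 0 z z))) (n 0 (n 0 z (n 0 (n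
 0x10cb0ca2037e17df8608a08608227df8207df82082082082182082082086082082082082082079f7e08210801 z
 z) (n 0 z z))) (n 0 (n 0 z (n 0 z (n 0 z z))) (n 0 (n 0 z (n 0 (n 8724595 z (n
 0x10cb0ca2037e181f82086082082181f82081f8208207e08208208608208208218208208208207a08208200801 z
 z)) (n 0 (n 8860003 z (n 8860003 z z)) z))) (n 0 (n 0 z (n 0 z (n 0 z z))) (n 0 (n 0 z (n 0 z
 (n 0 z z))) (n 0 (n 0 z (n 0 z (n 0 z z))) z))))))))))))) (n 155 (n 0 (n 0 z (n 0 z (n 0 z z)))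
 (n 0 (n 0 (n 3283019 z (n 3283019 z z)) (n 0 z (n 0 z z))) (n 0 (n 0 z (n 0 z (n 0 (n 8791867 z
 (n 8799091 z z)) z))) (n 0 (n 0 z (n 0 z (n 0 z z))) (n 0 (n 0 z (n 0 z (n 0 z z))) z))))) (n
 35 (n 0 (n 0 z (n 0 z (n 0 z z))) (n 0 (n 0 (n 3278923 z (n 3278923 z z)) (n 0 z (n 0 z z))) (n
 0 (n 0 z (n 0 z (n 0 z z))) (n 0 (n 0 (n
 0x1b0ea0887581e8207e18628a18628209207df85e72082081d7e28627e38a28207e27e086079f85f81f8e00081 z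
 z) (n 0 z (n 0 z z))) (n 0 (n 0 z (n 0 z (n 0 z z))) z))))) (n 11 (n 0 (n 0 z (n 0 z (n 0 z
 z))) (n 0 (n 0 (n 8798323 z (n
 0x30caeca60781f8208208208208208208208218208208208208208208208208208208208208208208208200801 z
 z)) (n 0 z (n 0 z z))) (n 0 (n 0 z (n 0 z (n 0 z z))) (n 0 (n 0 (n 5445707 z (n 5445707 z z))
 (n 0 z (n 0 z z))) (n 0 (n 0 z (n 0 z (n 0 z z))) (n 0 (n 0 z (n 0 z (n 0 z z))) (n 0 (n 0 z (n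
 0 z (n 0 z z))) (n 0 (n 0 (n 8593667 z (n 8593667 z z)) (n 0 z (n 0 z z))) (n 0 (n 0 (n 8869387
 z (n 8869387 z z)) (n 0 z (n 0 z z))) (n 0 (n 0 (n 8869387 z (n 8869387 z z)) (n 0 z (n 0 z
 z))) (n 0 (n 0 (n 8869387 z (n 8869387 z z)) (n 0 z (n 0 z z))) (n 0 (n 0 z (n 0 z (n 0 z z)))
 (n 0 (n 0 (n 8593667 z (n 8593667 z z)) (n 0 z (n 0 z z))) (n 0 (n 0 z (n 0 (n
 0x10eb0ea2037e182085f82082082081e8608208208208208208208208207e082082082081f82081f8208200801 z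
 (n 0x10eb0ea2037e182086082086082081e8607df82082182082086082182082082182082081f82081f81f8200801
 z z)) (n 0 z z))) (n 0 (n 0 z (n 0 z (n 0 z z))) (n 0 (n 0 z (n 0 z (n 0 z z))) (n 0 (n 0 z (n
 0 z (n 0 z z))) (n 0 (n 0 (n 8593667 z (n 8593667 z z)) (n 0 z (n 0 z z))) (n 0 (n 0 (n 8593675
 z (n 8593675 z z)) (n 0 z (n 0 z z))) (n 0 (n 0 (n 7739483 z (n 8798323 z z)) (n 0 (n
 0x865865301810caca62077de7a18a08208e28a581f75d7628266de7e182676282081e82386282179f89f75e7227a18201001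
 z z) (n 0 z z))) (n 0 (n 0 z (n 0 z (n 0 z z))) (n 0 (n 0 (n 8798323 z (n 8593675 z z)) (n 0 z
 (n 0 z z))) (n 0 (n 0 z (n 0 z (n 0 z z))) (n 0 (n 0 z (n 0 z (n 0 z z))) (n 0 (n 0 z (n 0 z (n
 0 z z))) (n 0 (n 0 z (n 0 z (n 0 (n 8593667 z (n 8593667 z z)) z))) (n 0 (n 0 (n 8593427 z (n
 8593427 z z)) (n 0 z (n 0 z z))) (n 0 (n 0 (n
 0x10ed0ca6077e082181f86182186081d82081f7e08208218218208608218208208208207a081f7df8208210801 z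
 (n 0x58758208208208208208208228607a08618217df81f81f86181f81f8218208218218607a281f8200041 z z))
 (n 0 z (n 0 z z))) (n 0 (n 0 z (n 0 z (n 0 z z))) z))))))))))))))))))))))))))))) (n 245 (n 0 (n
 0 z (n 0 z (n 0 z z))) (n 0 (n 0 z (n 0 z (n 0 z z))) (n 0 (n 0 z (n 0 z (n 0 z z))) (n 0 (n 0
 z (n 0 z (n 0 z z))) (n 0 (n 0 z (n 0 z (n 0 z z))) (n 0 (n 0 z (n 0 z (n 0 z z))) (n 0 (n 0 z
 (n 0 z (n 0 z z))) (n 0 (n 0 z (n 0 z (n 0 z z))) (n 0 (n 0 z (n 0 z (n 0 z z))) (n 0 (n 0 z (n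
 0 z (n 0 z z))) (n 0 (n 0 z (n 0 (n
 0xc38c30280c1863610503810eb0ea20781b7e992379e8e47e989e4d876682e6188a28367257de7dd7a4a2076279e89f6a07e272291d1801
 z z) (n 0 z z))) (n 0 (n 0 z (n 0 (n 8724595 z (n
 0x10eb0ea2037e082082082082186081e8607df8218208208208208218208208217e08207e082081f8208200801 z
 z)) (n 0 (n
 0x10ed0ec2037e082081f82082082181e8208208208208208208208608208208208208208208208208208200801 z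
 (n 8799091 z z)) z))) (n 0 (n 0 z (n 0 z (n 0 z z))) (n 0 (n 0 z (n 0 z (n 0 z z))) (n 0 (n 0 z
 (n 0 z (n 0 z z))) z))))))))))))))) (n 153 (n 0 (n 0 z (n 0 z (n 0 z z))) (n 0 (n 0 z (n 0 z (n
 0 z z))) (n 0 (n 0 z (n 0 z (n 0 z z))) (n 0 (n 0 z (n 0 z (n 0 z z))) z)))) (n 33 (n 0 (n 0 z
 (n 0 z (n 0 z z))) (n 0 (n 0 (n 0x10caec46070821 z (n
 0x30caec46078208208208208208608608208208208208208208208208208208208208208208208208208200801 z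
 z)) (n 0 z (n 0 z z))) (n 0 (n 0 (n
 0x10caec460781f82086181f8207e28607a079f8647de8218237a282281c8218617e07e08617e07e081f8200801 z
 z) (n 0 z (n 0 z z))) (n 0 (n 0 z (n 0 z (n 0 z z))) (n 0 (n 0 (n
 0x30ed0ec60376575c99e8d895c8a082086379f92392281d81f81d86281981e7e386185f7a281f81e8df7230801 z
 (n 0x458748237e08df81c8db7de86e9e151db667e669a819754a268947a06a685e7a4825a624ad7d76630041 z z))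
 (n 0 z (n 0 z z))) (n 0 (n 0 z (n 0 z (n 0 z z))) (n 0 (n 0 (n
 0x30caec46077e18208218608208608208607e082182082082182082182082082082082081f8208208208200801 z
 (n 0x30caec46077e18208208208218208208607e186082082082082082082082082082082081f82082081f8200801
 z z)) (n 0 z (n 0 z z))) (n 0 (n 0 (n
 0x30caec46077e18208218608208608208607e082182082082182082182082082082082081f8208208208200801 z
 (n 0x10caec46070821 z z)) (n 0 z (n 0 z z))) (n 0 (n 0 z (n 0 z (n 0 z z))) (n 0 (n 0 z (n 0 z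
 (n 0 z z))) (n 0 (n 0 z (n 0 z (n 0 z z))) (n 0 (n 0 z (n 0 z (n 0 z z))) (n 0 (n 0 (n
 0x1587682182086081e85e7df8668e06de96382375d81d7db8e385b7e07a38607e17e391f6a581c7610041 z (n
 0x10ed0ec6037e182081f8208218607de8208208208208208208208208208208208208207e082081f8208200801 z
 z)) (n 0 z (n 0 z z))) (n 0 (n 0 z (n 0 z (n 0 z z))) z)))))))))))))) (n 51 (n 0 (n 0 z (n 0 z
 (n 0 z z))) (n 0 (n 0 z (n 0 z (n 0 z z))) (n 0 (n 0 z (n 0 z (n 0 z z))) (n 0 (n 0 z (n 0 z (n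
 0 z z))) (n 0 (n 0 z (n 0 z (n 0 z z))) (n 0 (n 0 z (n 0 z (n 0 z z))) (n 0 (n 0 z (n 0 z (n 0
 z z))) (n 0 (n 0 z (n 0 z (n 0 z z))) (n 0 (n 0 z (n 0 z (n 0 z z))) (n 0 (n 0 z (n 0 z (n 0 z
 z))) (n 0 (n 0 z (n 0 z (n 0 z z))) z))))))))))) (n 27 (n 0 (n 0 z (n 0 z (n 0 z z))) (n 0 (n 0
 z (n 0 z (n 0 z z))) (n 0 (n 0 (n
 0x1b0c80886481e8207e18628a186282092079f81e71f86081d7e18638238a28207e17a086079f85f8608e00081 z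
 (n 0x458748237e08df81c8db7de86e9e151db667e669a819754a268947a06a685e7a4825a624ad7d76630041 z z))
 (n 0 z (n 0 z z))) (n 0 (n 0 z (n 0 z (n 0 z z))) (n 0 (n 0 z (n 0 z (n 0 z z))) (n 0 (n 0 z (n
 0 z (n 0 z z))) (n 0 (n 0 z (n 0 z (n 0 z z))) (n 0 (n 0 (n 8798323 z (n 8593675 z z)) (n 0 z
 (n 0 z z))) (n 0 (n 0 z (n 0 z (n 0 z z))) (n 0 (n 0 z (n 0 z (n 0 z z))) z)))))))))) (n 1 (n 0
 (n 0 (n 2164811 z (n 2164811 z z)) (n 0 z (n 0 z z))) (n 0 (n 0 z (n 0 z (n 0 z z))) (n 0 (n 0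
 (n 8798323 z (n
 0x30ed0ec20785f8218207e08208208618208218608208608208207e082082082082082082082081f8208200801 z
 z)) (n 0 z (n 0 z z))) (n 0 (n 0 (n 8869387 z (n 8869387 z z)) (n 0 z (n 0 z z))) (n 0 (n 0 z
 (n 0 z (n 0 z z))) (n 0 (n 0 z (n 0 (n 3213403 z z) (n 0 z z))) (n 0 (n 0 z (n 0 z (n 0 z z)))
 (n 0 (n 0 (n
 0x10caec460382082081f82086082085e8208208208208608208208208208208208208208208208208208200801 z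
 (n 0x30ed0ec6037a07e0a6485b85f7e581c32089a7e88dc8a08368257258578daadc79f86275d76499c75e81d0801
 z z)) (n 0 z (n 0 z z))) (n 0 (n 0 z (n 0 z (n 0 z z))) (n 0 (n 0 z (n 0 z (n 0 z z)))
 z)))))))))) (n 155 (n 0 (n 0 z (n 0 z (n 0 z z))) (n 0 (n 0 z (n 0 z (n 0 z z))) (n 0 (n 0 z (n
 0 z (n 0 z z))) (n 0 (n 0 z (n 0 z (n 0 z z))) z)))) (n 33 (n 0 (n 0 (n
 0x1b0ea0887581e8207e18628a18628209207df85e72082081d7e28627e38a28207e27e086079f85f81f8e00081 z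
 z) (n 0 z (n 0 z z))) (n 0 (n 0 z (n 0 z (n 0 z z))) (n 0 (n 0 z (n 0 z (n 0 z z))) (n 0 (n 0 z
 (n 0 z (n 0 z z))) (n 0 (n 0 z (n 0 z (n 0 z z))) (n 0 (n 0 z (n 0 z (n 0 z z))) z)))))) (n 51
 (n 0 (n 0 z (n 0 z (n 0 z z))) (n 0 (n 0 z (n 0 z (n 0 z z))) (n 0 (n 0 z (n 0 z (n 0 z z))) (n
 0 (n 0 z (n 0 z (n 0 z z))) (n 0 (n 0 (n
 0x1b0ea0887581e8207e18628a18628209207df85e72082081d7e28627e38a28207e27e086079f85f81f8e00081 z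
 (n 0xd87585f8218208218617e082281f7df86082182082181f8618218208208218207e08607e07df8200041 z z))
 (n 0 z (n 0 z z))) (n 0 (n 0 z (n 0 z (n 0 z z))) (n 0 (n 0 z (n 0 z (n 0 z z))) (n 0 (n 0 z (n
 0 z (n 0 z z))) (n 0 (n 0 z (n 0 z (n 0 z z))) (n 0 (n 0 z (n 0 z (n 0 z z))) (n 0 (n 0 z (n 0
 z (n 0 z z))) (n 0 (n 0 (n 8593427 z (n 8593427 z z)) (n 0 z (n 0 z z))) (n 0 (n 0 (n 8593427 z
 (n 8593427 z z)) (n 0 z (n 0 z z))) (n 0 (n 0 z (n 0 z (n 0 z z))) (n 0 (n 0 z (n 0 z (n 0 z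
 z))) (n 0 (n 0 z (n 0 z (n 0 z z))) z)))))))))))))))) (n 27 (n 0 (n 0 z (n 0 z (n 0 z z))) (n 0
 (n 0 z (n 0 z (n 0 (n 8595291 z (n 8799091 z z)) z))) (n 0 (n 0 z (n 0 z (n 0 z z))) (n 0 (n 0
 z (n 0 z (n 0 z z))) (n 0 (n 0 (n
 0x30e90a82037a181e8608608608a081e81f81f82082082082086182181f8607df82082085f82082081f8200801 z
 (n 0x258758227e085f81d8dc7a086996165ea257e471d81c7d89648597e172485e7e38649615e881a6e20041 z z))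
 (n 0 z (n 0 z z))) (n 0 (n 0 (n
 0x4361d4194388398718469838677858e939d8f8f8b7e80b57370808e7a517881828062667f86827f9a8196858670a364727d7164769d79906aae7f00c9
 z (n 8798323 z z)) (n 0 z (n 0 z z))) (n 0 (n 0 (n
 0x4361d4194388398718469838677858e939d8f8f8b7e80b57370808e7a517881828062667f86827f9a8196858670a364727d7164769d79906aae7f00c9
 z (n 8798323 z z)) (n 0 (n
 0x10eb0a82077e182082086082082181f8208208218208208208208608208208208208208208208208208200801 z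
 z) (n 0 z z))) (n 0 (n 0 z (n 0 z (n 0 z z))) (n 0 (n 0 z (n 0 z (n 0 (n 8593427 z (n 8593427 z
 z)) z))) (n 0 (n 0 z (n 0 z (n 0 z z))) (n 0 (n 0 (n
 0x10a30a08037e082086086082086081e85f82082082082082086082186082082082082081f8207e08208210801 z
 z) (n 0 z (n 0 z z))) (n 0 (n 0 (n 8593427 z (n 8593427 z z)) (n 0 z (n 0 z z))) (n 0 (n 0 z (n
 0 z (n 0 (n 8593667 z (n 8593667 z z)) z))) (n 0 (n 0 z (n 0 z (n 0 (n 8593667 z z) z))) (n 0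
 (n 0 (n 8593667 z (n 8593667 z z)) (n 0 z (n 0 z z))) (n 0 (n 0 (n
 0x10a90a82037e182086086082082081e86081f8208208208208208208208208208208207e082081f8208200801 z
 z) (n 0 z (n 0 z z))) (n 0 (n 0 z (n 0 z (n 0 z z))) (n 0 (n 0 z (n 0 z (n 0 (n 8593667 z (n
 8593667 z z)) z))) (n 0 (n 0 z (n 0 z (n 0 z z))) (n 0 (n 0 z (n 0 z (n 0 (n 8593667 z z) z)))
 (n 0 (n 0 (n 8593427 z (n 8593427 z z)) (n 0 z (n 0 z z))) (n 0 (n 0 (n 8593675 z z) (n 0 z (n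
 0 z z))) z)))))))))))))))))))))) (n 1 (n 0 (n 0 z (n 0 z (n 0 z z))) (n 0 (n 0 z (n 0 z (n 0 z
 z))) (n 0 (n 0 z (n 0 z (n 0 z z))) (n 0 (n 0 z (n 0 z (n 0 z z))) (n 0 (n 0 z (n 0 z (n 0 z
 z))) (n 0 (n 0 (n
 0xd87585f8218208218617e082281f7df86082182082181f8618218208208218207e08607e07df8200041 z (n
 8798323 z z)) (n 0 (n
 0x30e7020a0781f8608208208207e18218208208218208208208608618208208208208208608208208208200801 z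
 z) (n 0 z z))) (n 0 (n 0 z (n 0 z (n 0 z z))) z))))))) (n 0 (n 0 (n 0 z (n 0 z (n 0 z z))) (n 0
 (n 0 z (n 0 z (n 0 z z))) (n 0 (n 0 z (n 0 z (n 0 z z))) (n 0 (n 0 z (n 0 (n 0xe650a28070821 z
 z) (n 0 z z))) (n 0 (n 0 z (n 0 z (n 0 z z))) (n 0 (n 0 (n 8782619 z z) (n 0 z (n 0 z z))) (n 0
 (n 0 (n 0x458748237e08df81c8db7de86e9e151db667e669a819754a268947a06a685e7a4825a624ad7d76630041
 z (n 8798323 z z)) (n 0 (n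
 0x2e650a280786082181f7e082181f8208208208208208208208208608208208208208207e082081f8208200801 z
 z) (n 0 z z))) (n 0 (n 0 (n
 0x508708640376376095e899a1f92282079e7238a975e79f8286e08207dd76486482179f82271e6a37a07e20801 z
 z) (n 0 z (n 0 z z))) (n 0 (n 0 z (n 0 z (n 0 z z))) z))))))))) z))))))))))))))))))))) z)))) z)
 z)))) z))))), by decide +kernel⟩

theorem g7_63 : RgOk KT RW [10931, 10939, 10941, 10951, 10961, 10971, 10976] := ⟨i10931, ⟨i10939, ⟨i10941, ⟨i10951, ⟨i10961, ⟨i10971, True.intro⟩⟩⟩⟩⟩⟩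

end Pool.Agent.Lib.EPS9
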