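import Pool.Agent.Lib.MP_c7e7f6_eps.Core4
import Pool.Agent.Lib.MP_c7e7f6_eps.KtAll

/-!
Extensions of the words from number 11084 on.
-/

set_option autoImplicit false

namespace Pool.Agent.Lib.EPS9

open Tr

theorem i11084 : ∃ t, chkR KT RW t 11084 11094 = true := ⟨(n
 0x5a9ca2c2d515b8a84ac96885a8c371474389db034ab82e5121227588926446ad8422eb611 (n 0 (n 153 (n 0 z
 (n 3282443 z (n 0 z (n 0 z z)))) (n 57 (n 0 z (n 0 z (n 0 z (n 2 z (n 0 z (n 0 z (n 0 z (n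
 6496515 z (n 0 z (n 10 z z)))))))))) (n 51 (n 18 z (n 6496515 z (n
 0x1595190400602c86c820077f897e87808382837e83677d8378777f8b85827d7a7d7e83808d7c847d7d7f78847b7c838a817b7e7b8b7d7e7e86807f80801009
 z (n 0 z (n 26 z (n 34 z (n
 0x595195040e06ca8ca0207888a8085807f78818083757785837e8285807f837f7b817e8092817e72848070807f87888182798482827d7e86817d7f827f1009
 z (n 42 z (n 0 z (n 50 z (n 0 z (n 0 z (n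
 0x2ca8ca800380817e808080807f8080808180807f818080808080808080807f817f7f817f80807f808080807f81808080808080808180800809
 z (n 6496515 z (n 0 z z))))))))))))))) (n 123 (n 6496515 z (n 58 z (n 0 z (n 0 z z)))) (n 1 (n
 66 z (n 0 z (n 0 z (n 0 z (n 0 z (n 0 z (n 0 z (n 6554395 z (n 0 z (n 74 z (n 0 z (n 0 z
 z)))))))))))) (n 0 (n 0 z (n 82 z (n
 0x159510c480e08c86c804077d7c817a85808282827d818682827c7b807f84758683867b7e7f8286807e8385897e837f8280827f827b7e84867a807f80841009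
 z (n 2164315 z (n 0 z (n 0 z (n 0 z (n 0 z (n 0 z (n 0 z (n
 0x4c84c840078280808180807f817d807e808180808082818080827f828080818080807f807e81808080807f828180808180808080817e800809
 z (n
 0x2a6208283817f86757e817c7e7d827d837388877e807c8986817f7f89827c827d867f807a837e837d87808180868b877b817a7b820049
 z (n 0 z (n 0 z (n 0 z (n 0 z (n 0 z (n 0 z (n 0 z (n 0 z (n 0 z (n 0 z (n 0 z (n
 0xc6108381807f80807f7f83817e827e827d7f827f7c857e7e7a83808480807e80807a817f83827e7f7e7f81837d7f7e817f8081820049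
 z (n 0 z (n 0 z (n 0 z (n
 0x4b18809610817f808080817e8080817f818181817d7d807f827f81817f817f8082817f807d8081807f7f818080817e817e7f817f80817e0089
 z (n 0 z (n 0 z (n 0 z (n 0 z (n 0 z (n 0 z (n 90 z (n 0 z (n 6632475 z (n 98 z (n 106 z (n 0 z
 (n 0 z (n 0 z (n 0 z (n
 0xd909904c0e04ca8862407898081857d7b79867d7a818480827c8786778781867f7a868085817d827b857687827b847d8282818680827e7b7d807f7d801009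
 z (n 0 z (n 0 z (n 0 z (n 6632475 z (n
 0x2ca8862407837f7f827c827f82807e818180808482807d8180807f7f82807f7c7e81827d7e8282808180817e828180807e7f80808282800809
 z (n 0 z (n 0 z (n 0 z (n 0 z (n 0 z (n
 0x2ca88640037e7f807f7e84837f817a7f80807f857e7f81817e8086807f807d7e8080857c7c7e827e84837d7d84807d81827e80818380810809
 z (n 0 z z)))))))))))))))))))))))))))))))))))))))))))))))))))))))) z)))))) (n 153 (n 0 (n 0 z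
 (n 747 (n 0 z (n 0 z (n 0 z (n 0 z (n 0 z (n 0 z (n 0 z (n 0 z (n 0 z (n 0 z (n 0 z (n 0 z
 z)))))))))))) (n 747 (n 0 z (n 0 z (n 0 z (n 0 z (n 0 z (n 0 z (n 0 z (n 0 z (n 0 z (n 0 z (n 0
 z (n 0 z z)))))))))))) (n 747 (n 0 z (n 0 z (n 0 z (n 0 z (n 2 (n 0 z (n 0 z (n 2 (n 0 z (n 0 z
 (n 0 z (n 0 z (n 0 z (n 0 (n 8795435 z z) z)))))) (n 1 z (n 2 (n 0 z (n 0 z (n 0 z (n 0 z (n 0
 z (n 0 z z)))))) (n 2 (n 0 z (n 0 z (n 0 z (n 0 z (n 0 z (n 0 (n 8864051 z z) z)))))) (n 2 (n 0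
 z (n 0 z (n 0 z (n 0 z (n 0 z (n 0 (n 8802867 z z) z)))))) (n 2 (n 0 z (n 0 z (n 0 z (n 0 z (n
 0 z (n 0 z z)))))) (n 2 (n 0 z (n 0 z (n 0 z (n 0 z (n 0 z (n 0 z z)))))) z))))))))) (n 0 z (n
 0 z (n 0 z (n 0 z (n 0 z (n 0 z (n 0 z z)))))))))))) (n 747 (n 0 z (n 0 z (n 0 z (n 0 z (n 0 z
 (n 0 z (n 0 z (n 0 z (n 0 z (n 0 z (n 0 z (n 0 z z)))))))))))) (n 747 (n 0 z (n 0 z (n 0 z (n 0
 z (n 0 z (n 2 (n 1 z (n 1 z (n 2 (n 0 z (n 0 z (n 0 z (n 0 z (n 0 z (n 0 (n 8864083 z z)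
 z)))))) (n 2 (n 0 z (n 0 z (n 0 z (n 0 z (n 0 z (n 0 (n 8652651 z z) z)))))) (n 1 z (n 2 (n 0 z
 (n 0 z (n 0 z (n 0 z (n 0 z (n 0 (n 8873283 z z) z)))))) (n 1 z z))))))) (n 0 z (n 0 z (n 0 z
 (n 0 z (n 0 z (n 0 z z)))))))))))) (n 55 (n 0 z (n 0 z (n 0 z (n 0 z (n 0 z (n 0 z (n 0 z
 z))))))) (n 111 (n 0 z (n 0 z (n 0 z (n 0 z (n 0 z (n 0 z (n 0 z (n 0 z (n 0 z (n 0 z (n 0 z
 z))))))))))) (n 111 (n 0 z (n 0 z (n 0 z (n 0 z (n 0 z (n 0 z (n 0 z (n 0 z (n 0 z (n 0 z (n 0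
 z z))))))))))) (n 109 (n 0 z (n 0 z (n 2 (n 0 z (n 0 z (n 0 z z))) (n 0 z (n 0 z (n 0 z (n 0 z
 (n 0 z (n 0 z (n 0 z (n 0 z (n 0 z z)))))))))))) (n 109 (n 0 z (n 0 z (n 0 z (n 0 z (n 0 z (n 0
 z (n 0 z (n 0 z (n 0 z (n 0 z (n 0 z (n 0 z z)))))))))))) (n 109 (n 0 z (n 0 z (n 0 z (n 0 z (n
 0 z (n 2 (n 0 z z) (n 0 z (n 0 z (n 0 z (n 0 z (n 0 z (n 0 z z)))))))))))) (n 109 (n 0 z (n 0 z
 (n 0 z (n 0 z (n 0 z (n 0 z (n 0 z (n 0 z (n 7677499 z (n 0 z (n 0 z (n 0 z z))))))))))))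
 z))))))))))))) (n 0 (n 753 (n 0 z (n 0 z (n 0 z (n 0 z (n 0 z (n 0 z (n 0 z (n 0 z (n 0 z (n 0
 z (n 0 z (n 0 z (n 0 z (n 0 z (n 2 (n 0 z (n 0 z (n 0 z (n 0 z (n 2 (n 0 z (n 0 z (n 0 z (n 0 z
 (n 0 z (n 0 z z)))))) (n 2 (n 0 z (n 0 z (n 0 z (n 0 z (n 0 z (n 0 z z)))))) (n 2 (n 0 z (n 0 z
 (n 0 z (n 0 z (n 0 z (n 0 z z)))))) (n 2 (n 0 z (n 0 z (n 0 z (n 0 z (n 0 z (n 0 z z)))))) (n 2
 (n 0 z (n 0 z (n 0 z (n 0 z (n 0 z (n 0 z z)))))) (n 2 (n 0 z (n 0 z (n 0 z (n 0 z (n 0 z (n 0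
 z z)))))) (n 2 (n 0 z (n 0 z (n 0 z (n 0 z (n 0 z (n 0 z z)))))) z))))))))))) (n 0 z (n 0 z (n
 0 z (n 0 z (n 0 z z)))))))))))))))))))) (n 753 (n 0 z (n 0 z (n 0 z (n 2 (n 0 z (n 0 z (n 0 z
 (n 2 (n 0 z (n 0 z (n 0 z (n 0 z (n 0 z (n 0 z z)))))) (n 2 (n 0 z (n 0 z (n 0 z (n 0 z (n 0 z
 (n 0 z z)))))) (n 2 (n 0 z (n 0 z (n 0 z (n 0 z (n 0 z (n 0 z z)))))) (n 2 (n 0 z (n 0 z (n 0 z
 (n 0 z (n 0 z (n 0 z z)))))) (n 2 (n 0 z (n 0 z (n 0 z (n 0 z (n 0 z (n 0 z z)))))) (n 2 (n 0 z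
 (n 0 z (n 0 z (n 0 z (n 0 z (n 0 z z)))))) (n 2 (n 0 z (n 0 z (n 0 z (n 0 z (n 0 z (n 0 z
 z)))))) z)))))))))) (n 0 z (n 0 z (n 0 z (n 0 z (n 0 z (n 0 z (n 0 z (n 0 z (n 0 z (n 0 z (n 0
 z (n 0 z (n 0 z (n 0 z (n 0 z (n 0 z z)))))))))))))))))))) (n 753 (n 0 z (n 0 z (n 0 z (n 0 z
 (n 0 z (n 0 z (n 0 z (n 0 z (n 0 z (n 0 z (n 0 z (n 0 z (n 0 z (n 0 z (n 0 z (n 0 z (n 0 z (n 0
 z (n
 0x4ea4ca28038a847f86838278807c81747d797d7786847f7c8080827d847f8c817e7b867b727b7e7d8181817c877e8382807b827e837c7e0809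
 z (n 0 z z)))))))))))))))))))) (n 753 (n 0 z (n 0 z (n 0 z (n 0 z (n 0 z (n 0 z (n 0 z (n 0 z
 (n 0 z (n 0 z (n 0 z (n 0 z (n 0 z (n 0 z (n 0 z (n 0 z (n 0 z (n 0 z (n 0 z (n 0 z
 z)))))))))))))))))))) (n 753 (n 0 z (n 0 z (n 0 z (n 0 z (n 0 z (n 0 z (n 0 z (n 0 z (n 0 z (n
 0 z (n 0 z (n 0 z (n 0 z (n 0 z (n 0 z (n 0 z (n 0 z (n 0 z (n 0 z (n 0 z z))))))))))))))))))))
 (n 487 (n 0 z (n 0 z (n 2 (n 2 (n 0 z (n 0 z (n 0 z (n 0 z (n 0 z (n 0 z z)))))) (n 2 (n 0 z (n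
 0 z (n 0 z (n 0 z (n 0 z (n 0 z z)))))) (n 2 (n 0 z (n 0 z (n 0 z (n 0 z (n 0 z (n 0 z z))))))
 (n 2 (n 0 z (n 0 z (n 0 z (n 0 z (n 0 z (n 0 z z)))))) (n 2 (n 0 z (n 0 z (n 0 z (n 0 z (n 0 z
 (n 0 z z)))))) (n 2 (n 0 z (n 0 z (n 0 z (n 0 z (n 0 z (n 0 z z)))))) z)))))) (n 0 z (n 0 z
 z))))) (n 483 (n 0 z (n 0 z (n 0 z (n 0 z (n 0 z (n 0 z (n 0 z (n 0 z (n 0 z (n 0 z (n 0 z
 z))))))))))) (n 483 (n 0 z (n 0 z (n 0 z (n 0 z (n 0 z (n 0 z (n 0 z (n 0 z (n 0 z (n 0 z (n 0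
 z z))))))))))) (n 481 (n 0 z (n
 0x1d958c90061eea4c628030176563040180bb2321180c0195194c80e00ea8c8640792957e828d6e78738d846e8a6f8a5889997c6ca27d776d8c80ab8780756f91647c739083807c7780798e79858a79807683843009
 z (n 0 z (n 0 z (n 0 z (n 0 z (n 0 z (n 0 z (n 0 z (n 0 z (n 0 z z))))))))))) (n 481 (n 0 z (n
 0 z (n 0 z (n 0 z (n 2 (n 0 z (n 0 z z)) (n 0 z (n 0 z (n 0 z (n 0 z (n 0 z (n 0 z z)))))))))))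
 (n 481 (n 0 z (n 0 z (n 0 z (n 0 z (n 0 z (n 0 z (n 0 z (n 0 z (n 0 z (n 0 z (n 0 z
 z))))))))))) (n 481 (n 0 z (n 0 z (n 0 z (n 0 z (n 0 z (n 0 z (n 0 z (n 0 z (n 7677467 z (n 0 z
 (n 0 z z))))))))))) z)))))))))))) (n 0 (n 0 z (n 0 z (n 0 z (n 0 z (n 267 (n 0 z (n 0 z (n 0 z
 (n 0 z (n 0 z (n 0 z (n 0 z (n 0 z (n 0 z (n 0 z (n 0 z (n 0 z z)))))))))))) (n 99 (n 0 z (n 0
 z (n 0 z (n 0 z (n 0 z (n 0 z (n 0 z (n 0 z (n 0 z (n 0 z (n 0 z z))))))))))) (n 99 (n 0 z (n 0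
 z (n 0 z (n 0 z (n 0 z (n 0 z (n 0 z (n 0 z (n 2 (n 2 (n 0 z (n 0 z (n 0 z (n 0 z (n 0 z (n 0 z
 z)))))) (n 2 (n 0 z (n 0 z (n 0 z (n 0 z (n 0 z (n 0 z z)))))) (n 2 (n 0 z (n 0 z (n 0 z (n 0 z
 (n 0 z (n 0 z z)))))) (n 2 (n 0 z (n 0 z (n 0 z (n 0 z (n 0 z (n 0 z z)))))) z)))) (n 0 z (n 0
 z z))))))))))) (n 97 (n 0 z (n 0 z (n 0 z (n 0 z (n 0 z (n 0 z (n 0 z (n 0 z (n 0 z (n 0 z (n 0
 z (n 0 z (n 0 z (n 0 z (n 0 z (n 0 z (n 0 z (n 0 z (n 0 z (n 0 z (n 0 z (n 0 z (n 0 z (n 0 z (n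
 0 z (n 0 z (n 0 z (n 0 z (n 0 z (n 0 z (n 0 z (n 0 z (n 0 z (n 0 z (n 0 z (n 0 z (n 0 z (n 0 z
 (n 0 z (n 0 z (n 0 z (n 0 z (n 0 z (n 0 z (n 0 z (n 0 z
 z)))))))))))))))))))))))))))))))))))))))))))))) (n 97 (n 0 z (n 0 z (n 0 z (n 0 z (n 0 z (n 0 z
 (n 0 z (n 0 z (n 0 z (n 0 z (n 0 z (n 0 z (n 0 z (n 0 z (n 0 z (n 0 z (n 0 z (n 0 z (n 0 z (n 0
 z (n 0 z (n 0 z (n 0 z (n 0 z (n 0 z (n 0 z (n 0 z (n 0 z (n 0 z (n 0 z (n 2 (n 0 z (n 0 z z))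
 (n 0 z (n 0 z (n 0 z (n 0 z (n 0 z (n 0 z (n 0 z (n 0 z (n 0 z (n 0 z (n 0 z (n 0 z (n 0 z (n 0
 z (n 0 z z)))))))))))))))))))))))))))))))))))))))))))))) (n 97 (n 0 z (n 0 z (n 0 z (n 0 z (n 0
 z (n 0 z (n 0 z (n 0 z (n 0 z (n 0 z (n 0 z (n 0 z (n 0 z (n 0 z (n 0 z (n 0 z (n 0 z (n 0 z (n
 0 z (n 0 z (n 0 z (n 0 z (n 0 z (n 0 z (n 0 z (n 0 z (n 0 z (n 0 z (n 0 z (n 0 z (n 0 z (n 0 z
 (n 2 (n 0 z z) (n 0 z (n 0 z (n 0 z (n 0 z (n 0 z (n 0 z (n 0 z (n 0 z (n 0 z (n 0 z (n 0 z (n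
 0 z (n 0 z z)))))))))))))))))))))))))))))))))))))))))))))) (n 97 (n 0 z (n 0 z (n 0 z (n 0 z (n
 0 z (n 0 z (n 0 z (n 0 z (n 0 z (n 0 z (n 0 z (n 0 z (n 0 z (n 0 z (n 0 z (n 0 z (n 0 z (n 0 z
 (n 0 z (n 0 z (n 0 z (n 0 z (n 0 z (n 0 z (n 0 z (n 0 z (n 0 z (n 0 z (n 0 z (n 0 z (n 0 z (n 0
 z (n 0 z (n 0 z (n
 0x2ec8ec800380817e808080807f808081817f80808180808080807f8080808080807f818080817f808080807f80808080808080808180800809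
 z (n 0 z (n 0 z (n 0 z (n 0 z (n 0 z (n 0 z (n 0 z (n 0 z (n 0 z (n 0 z (n 0 z
 z)))))))))))))))))))))))))))))))))))))))))))))) z))))))))))) (n 0 (n 0 z (n 0 z (n 0 z (n 267
 (n 0 z (n 0 z (n 0 z (n 0 z (n 0 z (n 0 z (n 0 z (n 0 z (n 0 z (n 0 z (n 0 z (n 0 z (n 0 z
 z))))))))))))) (n 99 (n 0 z (n 0 z (n 0 z (n 0 z (n 0 z (n 0 z (n 0 z (n 0 z (n 0 z (n 0 z (n 0
 z (n 0 z z)))))))))))) (n 99 (n 0 z (n 0 z (n 0 z (n 0 z (n 0 z (n 0 z (n 0 z (n 0 z (n 0 z (n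
 0 z (n 0 z (n 0 z z)))))))))))) (n 97 (n 0 z (n 2 (n 0 z (n 0 z (n 0 z z))) (n 0 z (n 0 z (n 0
 z (n 0 z (n 0 z (n 0 z (n 0 z (n 0 z (n 0 z (n 0 z (n 0 z (n 0 z z)))))))))))))) (n 97 (n 0 z
 (n 0 z (n 0 z (n 0 z (n 0 z (n 0 z (n 0 z (n 0 z (n 0 z (n 0 z (n 0 z (n 0 z (n 0 z (n 0 z
 z)))))))))))))) (n 97 (n 0 z (n 0 z (n 0 z (n 0 z (n 0 z (n 0 z (n 0 z (n 0 z (n 0 z (n 0 z (n
 0 z (n 0 z (n 0 z (n 0 z z)))))))))))))) (n 97 (n 0 z (n 0 z (n 0 z (n 0 z (n 0 z (n 0 z (n 0 z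
 (n 0 z (n 0 z (n 0 z (n 2 z (n 0 z (n 0 z (n 0 z z)))))))))))))) z)))))))))) (n 0 (n 0 z (n 0 z
 (n 267 (n 0 z (n 0 z (n 0 z (n 0 z (n 0 z (n 0 z (n 0 z z))))))) (n 99 (n 0 z (n 0 z (n 0 z (n
 0 z (n 0 z z))))) (n 99 (n 0 z (n 0 z (n 0 z (n 0 z (n 0 z z))))) (n 101 (n 0 z (n 0 z (n 0 z
 (n 0 z (n 0 z (n 0 z (n 0 z (n 0 z (n 0 z (n 0 z (n 0 z (n 0 z (n 0 z (n 0 z z)))))))))))))) (n
 101 (n 0 z (n 0 z (n 0 z (n 0 z (n 0 z (n 0 z (n 0 z (n 0 z (n 0 z (n 2 (n 0 z (n 0 z z)) (n 0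
 z (n 0 z (n 0 z (n 0 z z)))))))))))))) (n 101 (n 0 z (n 0 z (n 0 z (n 0 z (n 0 z (n 0 z (n 0 z
 (n 0 z (n 0 z (n 0 z (n 0 z (n 0 z (n
 0x2d8c9d4500602c64ea08078e887e868b7676728682727e7a836a90837f78947c7d7f827f9385787c7e7e657b7c858577887f87808b7f797b807f827e801009
 z (n 0 z z)))))))))))))) (n 101 (n 0 z (n 0 z (n 0 z (n 0 z (n 0 z (n 0 z (n 0 z (n 0 z (n 0 z
 (n 0 z (n 0 z (n 0 z (n 0 z (n 0 z z)))))))))))))) z))))))))) (n 0 (n 0 z (n 273 (n 0 z (n 0 z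
 (n 0 z (n 0 z (n 0 z z))))) (n 105 (n 0 z (n 0 z (n 0 z (n 0 z (n 0 z z))))) (n 105 (n 0 z (n 0
 z (n 0 z (n 0 z (n 0 z z))))) (n 101 (n 0 z (n 0 z (n 0 z (n 0 z (n 0 z (n 0 z z)))))) (n 101
 (n 0 z (n 0 z (n 0 z (n 0 z (n 0 z (n 0 z z)))))) (n 101 (n 0 z (n 0 z (n 0 z (n 0 z (n 0 z (n
 0 z z)))))) (n 101 (n 0 z (n 0 z (n 0 z (n 0 z (n 0 z (n 0 z z)))))) z)))))))) (n 0 (n 7 (n 0 z
 (n 0 z (n 0 z (n 0 z (n 2 (n 1 z (n 2 (n 0 z (n 0 z (n 0 z (n 0 z (n 0 z (n 0 z z)))))) (n 2 (n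
 0 z (n 0 z (n 0 z (n 0 z (n 0 z (n 0 z z)))))) (n 2 (n 0 z (n 0 z (n 0 z (n 0 z (n 0 z (n 0 (n
 8873283 z z) z)))))) (n 2 (n 0 z (n 0 z (n 0 z (n 0 z (n 0 z (n 0 z z)))))) (n 2 (n 0 z (n 0 z
 (n 0 z (n 0 z (n 0 z (n 0 z z)))))) z)))))) (n 0 z (n 0 z (n 0 z (n 0 z (n 0 z (n 0 z (n 0 z (n
 0 z (n 0 z z)))))))))))))) (n 15 (n 0 z (n 0 z (n 0 z (n 0 z (n 0 z (n 0 z (n 0 z (n 0 z (n 0 z
 (n 0 z (n 0 z (n 0 z z)))))))))))) (n 15 (n 0 z (n 0 z (n 0 z (n 0 z (n 0 z (n 0 z (n 0 z (n 0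
 z (n 0 z (n 0 z (n 0 z (n 0 z z)))))))))))) (n 13 (n 0 z (n 0 z (n
 0x1d958c100e06ec8ec820786808181897e7b7b818078837f806a83867e7c858683827f7d8f8c86797e88777f7d818281827f817d817d81837b7d7b7c831009
 z (n 0 z (n 0 z (n 0 z (n 0 z (n 0 z (n 0 z (n 0 z (n 0 z (n 0 z (n 0 z (n 0 z z))))))))))))))
 (n 13 (n 0 z (n 0 z (n 0 z (n 0 z (n 0 z (n 0 z (n 0 z (n 0 z (n 0 z (n 0 z (n 0 z (n 0 z (n 0
 z (n 0 z z)))))))))))))) (n 13 (n 0 z (n 0 z (n 0 z (n 0 z (n 0 z (n 0 z (n 0 z (n 0 z (n 0 z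
 (n 0 z (n 0 z (n 0 z (n 0 z (n 0 z z)))))))))))))) (n 13 (n 0 z (n 0 z (n 0 z (n 0 z (n 0 z (n
 0 z (n 0 z (n 0 z (n 0 z (n 2 z (n 0 z (n 0 z (n 0 z (n 0 z z)))))))))))))) z))))))) (n 0 (n 51
 (n 0 z (n 0 z (n 0 z (n 0 z (n 0 z (n 0 z (n 0 z (n 0 z z)))))))) (n 51 (n 0 z (n 0 z (n 0 z (n
 0 z (n 0 z (n 0 z (n 0 z (n 0 z z)))))))) (n 49 (n 0 z (n 0 z (n 2 (n 0 z (n 0 z (n 0 z z))) (n
 0 z (n 0 z (n 0 z (n 0 z (n 0 z (n 0 z (n 0 z (n 0 z (n 0 z (n 0 z (n 0 z (n 0 z (n 0 z (n 0 z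
 (n 0 z (n 0 z (n 0 z (n 0 z (n 0 z (n 0 z z))))))))))))))))))))))) (n 49 (n 0 z (n 0 z (n 0 z
 (n 0 z (n 0 z (n 0 z (n 0 z (n 0 z (n 0 z (n 0 z (n 0 z (n 0 z (n 0 z (n 0 z (n 0 z (n 0 z (n 0
 z (n 0 z (n 0 z (n 0 z (n 0 z (n 0 z (n 0 z z))))))))))))))))))))))) (n 49 (n 0 z (n 0 z (n 0 z
 (n 0 z (n 0 z (n 0 z (n 0 z (n 0 z (n 0 z (n 0 z (n 0 z (n 0 z (n 2 (n 0 z z) (n 0 z (n 0 z (n
 0 z (n 0 z (n 0 z (n 0 z (n 0 z (n 0 z (n 0 z (n 0 z z))))))))))))))))))))))) (n 49 (n 0 z (n 0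
 z (n 0 z (n 0 z (n 0 z (n 0 z (n 0 z (n 0 z (n 0 z (n 0 z (n 0 z (n 0 z (n 0 z (n 0 z (n 0 z (n
 0 z (n 7677499 z (n 0 z (n 0 z (n 0 z (n 0 z (n 0 z (n 0 z z))))))))))))))))))))))) z)))))) (n
 0 (n 0 z (n 1 (n 0 z (n 0 z (n 0 z (n 0 z (n 0 z (n 0 z (n 0 z (n 0 z (n 0 z (n 0 z (n 0 z (n 0
 z (n 0 z (n 0 z (n 0 z (n 0 z (n 0 z (n 0 z (n 0 z (n 0 z (n 0 z (n 0 z (n 0 z (n 0 z (n 0 z (n
 0 z (n 0 z (n 2 (n 0 z (n 0 z (n 0 z z))) (n 0 z (n 0 z (n 0 z (n 0 z (n 0 z (n 0 z (n 0 z (n 0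
 z (n 0 z (n 0 z (n 0 z (n 0 z (n 0 z (n 0 z (n 0 z (n 0 z (n 0 z (n 0 z (n 0 z
 z))))))))))))))))))))))))))))))))))))))))))))))) (n 1 (n 0 z (n 0 z (n 0 z (n 0 z (n 0 z (n 0 z
 (n 0 z (n 0 z (n 0 z (n 0 z (n 0 z (n 0 z (n 0 z (n 0 z (n 0 z (n 0 z (n 0 z (n 0 z (n 0 z (n 0
 z (n 0 z (n 0 z (n 0 z (n 0 z (n 0 z (n 0 z (n 0 z (n 0 z (n 0 z (n 0 z (n 0 z (n 0 z (n 0 z (n
 0 z (n 0 z (n 0 z (n 0 z (n 0 z (n 0 z (n 0 z (n 0 z (n 0 z (n 0 z (n 0 z (n 0 z (n 0 z (n 0 z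
 z))))))))))))))))))))))))))))))))))))))))))))))) (n 1 (n 0 z (n 0 z (n 0 z (n 0 z (n 0 z (n 0 z
 (n 0 z (n 0 z (n 0 z (n 0 z (n 0 z (n 0 z (n 0 z (n 0 z (n 0 z (n 0 z (n 0 z (n 0 z (n 0 z (n 0
 z (n 0 z (n 0 z (n 0 z (n 0 z (n 0 z (n 0 z (n 0 z (n 0 z (n 0 z (n 0 z (n 0 z (n 0 z (n 0 z (n
 0 z (n 0 z (n 0 z (n 0 z (n 0 z (n 0 z (n 0 z (n 0 z (n 0 z (n 0 z (n 0 z (n 0 z (n 0 z (n 0 z
 z))))))))))))))))))))))))))))))))))))))))))))))) (n 1 (n 0 z (n 0 z (n 0 z (n 0 z (n 0 z (n 0 z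
 (n 0 z (n 0 z (n 0 z (n 0 z (n 0 z (n 0 z (n 0 z (n 0 z (n 0 z (n 0 z (n 0 z (n 0 z (n 0 z (n 0
 z (n 0 z (n 0 z (n 0 z (n 0 z (n 0 z (n 0 z (n 0 z (n 0 z (n 0 z (n 0 z (n 0 z (n 0 z (n 0 z (n
 7677499 z (n 0 z (n 0 z (n 0 z (n 0 z (n 0 z (n 0 z (n 0 z (n 0 z (n 0 z (n 0 z (n 0 z (n 0 z
 (n 0 z z))))))))))))))))))))))))))))))))))))))))))))))) z))))) (n 0 (n 1 (n 0 z (n 0 z (n 0 z
 (n 0 z (n 0 z (n 0 z (n 0 z (n 0 z (n 0 z (n 0 z (n 0 z (n 0 z (n 0 z (n 0 z (n 0 z (n 0 z (n 0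
 z (n 0 z (n 0 z (n 0 z (n 0 z (n 0 z (n 0 z (n 0 z (n 0 z (n 0 z (n 0 z (n 0 z (n 0 z (n 0 z (n
 0 z (n 0 z (n 0 z (n
 0x57536432018ab21ba9080c15d958c84061aec6ec02037f8a8071976581797977807a807d5f9d8a758170a290896f7e8a976c807f8a8a9b647f6e837a907b777d87988879817276882009
 z (n 0 z (n 0 z (n 0 z (n 0 z (n 0 z (n 0 z (n 0 z (n 0 z (n 0 z (n 0 z (n 0 z (n 0 z (n 0 z (n
 0 z (n 0 z z))))))))))))))))))))))))))))))))))))))))))))))))) (n 1 (n 0 z (n 0 z (n 0 z (n 0 z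
 (n 0 z (n 0 z (n 0 z (n 0 z (n 0 z (n 0 z (n 0 z (n 0 z (n 0 z (n 0 z (n 0 z (n 0 z (n 0 z (n 0
 z (n 0 z (n 0 z (n 0 z (n 0 z (n 0 z (n 0 z (n 0 z (n 0 z (n 0 z (n 0 z (n 0 z (n 0 z (n 0 z (n
 0 z (n 0 z (n 0 z (n 0 z (n 0 z (n 0 z (n 0 z (n 0 z (n 0 z (n 0 z (n 0 z (n 0 z (n 0 z (n 0 z
 (n 0 z (n 0 z (n 0 z (n 0 z z))))))))))))))))))))))))))))))))))))))))))))))))) (n 1 (n 0 z (n 0
 z (n 0 z (n 0 z (n 0 z (n 0 z (n 0 z (n 0 z (n 0 z (n 0 z (n 0 z (n 0 z (n 0 z (n 0 z (n 0 z (n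
 0 z (n 0 z (n 0 z (n 0 z (n 0 z (n 0 z (n 0 z (n 0 z (n 0 z (n 0 z (n 0 z (n 0 z (n 0 z (n 0 z
 (n 0 z (n 0 z (n 0 z (n 0 z (n 0 z (n 0 z (n 0 z (n 0 z (n 0 z (n 0 z (n 0 z (n 0 z (n 0 z (n 0
 z (n 0 z (n 0 z (n 0 z (n 0 z (n 0 z (n 0 z z)))))))))))))))))))))))))))))))))))))))))))))))))
 (n 1 (n 0 z (n 0 z (n 0 z (n 0 z (n 0 z (n 0 z (n 7677467 z (n 0 z (n 0 z (n 0 z (n 0 z (n 0 z
 (n 0 z (n 0 z (n 0 z (n 0 z (n 0 z (n 0 z (n 0 z (n 0 z (n 0 z (n 0 z (n 0 z (n 0 z (n 0 z (n 0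
 z (n 0 z (n 0 z (n 0 z (n 0 z (n 0 z (n 0 z (n 0 z (n 0 z (n 0 z (n 0 z (n 0 z (n 0 z (n 0 z (n
 0 z (n 0 z (n 0 z (n 0 z (n 0 z (n 0 z (n 0 z (n 0 z (n 0 z (n 0 z
 z))))))))))))))))))))))))))))))))))))))))))))))))) z)))) (n 0 (n 0 z (n 0 z (n 0 z z))) (n 0 (n
 0 z (n 0 z z)) (n 0 (n 0 z z) (n 0 z z)))))))))))))) (n 0 (n 0 z (n 1 (n 6496515 z (n 3282443 z
 (n 3282443 z (n 3282443 z (n 3282443 z (n 3282443 z z)))))) (n 0 z (n 0 z z)))) (n 0 z z)))) (n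
 0x228a50ec6a851934270bad085baa02534c16aa8c12d381950b2018a202a8c80d3840 (n 0 (n 395 (n 2 z (n
 0x2ca8a864077df92176182282085c85e8e08607e279f8607df8607df7dc85f9228637e27e081f8de7de89f0801 z
 (n 10 z (n
 0x2ca6ca480381e82082081f82181f8208208208208208208208208208208208208208208208208208208200801 z
 (n 18 z (n 26 z (n 3282443 z (n 3282443 z (n 0 z (n 0 z (n 6488603 z (n 0 z (n
 0x2ca8ca840381f7e082082082082082082082082082082082082081f8208208208208208208208208208200801 z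
 z))))))))))))) (n 249 (n 0 z (n 34 z (n 3278363 z (n 0 z (n 42 z z))))) (n 129 (n 0 z (n 0 z (n
 0 z (n 50 z (n 0 z (n 58 z (n 6632003 z z))))))) (n 3 (n 66 z (n 0 z (n 6632003 z (n 0 z (n 0 z
 z))))) (n 1 (n 0 z (n 0 z (n 0 z (n 0 z (n 0 z (n 6558507 z z)))))) (n 0 (n 74 z (n 82 z (n
 0x5b2a218100c164343200182c64c820036d2ae95a37db7e2a8aa14bdb8245f2556a1d8579de6e075291d7e88a291f6e68619e16df85c1801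
 z (n 0 z (n 90 z (n 98 z (n 6632003 z (n 6632003 z (n 0 z (n 6632003 z (n 0 z (n 0 z (n
 0x2c86c860037e07e182081f82082081f82082082082182081f82081f81f8208208208208208208208208200801 z
 (n 0 z (n 0 z z))))))))))))))) z)))))) (n 249 (n 0 (n 0 z (n 0 z (n 0 z (n 827 (n 0 z (n 0 z (n
 0 z (n 0 z (n 0 z (n 0 z (n 0 z (n 0 z (n 0 z (n 0 z (n 0 z (n 0 z (n 0 z (n 0 z (n 0 z (n 0 z
 (n 0 z z))))))))))))))))) (n 827 (n 0 z (n 0 z (n 0 z (n 0 z (n 0 z (n 0 z (n 0 z (n 0 z (n 0 z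
 (n 0 z (n 0 z (n 0 z (n 0 z (n 0 z (n 0 z (n 0 z (n 0 z z))))))))))))))))) (n 31 (n 0 z (n 0 z
 (n 0 z (n 0 z (n 0 z (n 0 z (n 0 z (n 0 z (n 0 z (n 0 z (n 0 z (n 0 z z)))))))))))) (n 31 (n 0
 z (n 0 z (n 0 z (n 0 z (n 0 z (n 0 z (n 0 z (n 2 (n 2 (n 0 z (n 0 z (n 0 z (n 0 z (n 0 z (n 0 z
 z)))))) (n 2 (n 0 z (n 0 z (n 0 z (n 0 z (n 0 z (n 0 z z)))))) (n 2 (n 0 z (n 0 z (n 0 z (n 0 z
 (n 0 z (n 0 z z)))))) (n 2 (n 0 z (n 0 z (n 0 z (n 0 z (n 0 z (n 0 z z)))))) (n 2 (n 0 z (n 0 z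
 (n 0 z (n 0 z (n 0 z (n 0 z z)))))) z))))) (n 0 z (n 0 z (n 0 z (n 0 z z)))))))))))) (n 33 (n 0
 z (n 0 z (n 0 z (n 0 z (n 0 z (n 0 z (n 0 z (n 0 z (n 0 z (n 0 z (n 0 z (n 0 z (n 0 z (n 0 z (n
 0 z (n 0 z (n 0 z (n 0 z (n 0 z (n 0 z z)))))))))))))))))))) (n 253 (n 0 z (n 0 z (n 0 z (n 0 z
 (n 0 z (n 0 z (n 0 z (n 0 z (n 0 z (n 0 z (n 0 z (n 0 z z)))))))))))) (n 253 (n 0 z (n 0 z (n 0
 z (n 0 z (n 0 z (n 0 z (n 0 z (n 0 z (n 0 z (n 0 z (n 0 z (n 0 z z)))))))))))) (n 253 (n 0 z (n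
 0 z (n 2 (n 0 z z) (n 0 z (n 0 z (n 0 z (n 0 z (n 0 z (n 0 z (n 0 z (n 0 z (n 0 z z))))))))))))
 (n 253 (n 0 z (n 0 z (n 0 z (n 0 z (n 0 z (n 0 z (n 2 z (n 0 z (n 0 z (n 0 z (n 0 z (n 0 z
 z)))))))))))) z)))))))))))) (n 0 (n 0 z (n 0 z (n 587 (n 0 z (n 0 z (n 0 z (n 0 z (n 0 z (n 0 z
 (n 0 z (n 0 z (n 0 z (n 0 z (n 0 z (n 0 z (n 0 z z))))))))))))) (n 587 (n 0 z (n 0 z (n 0 z (n
 0 z (n 0 z (n 0 z (n 0 z (n 0 z (n 0 z (n 0 z (n 0 z (n 0 z (n 0 z z))))))))))))) (n 31 (n 0 z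
 (n 0 z (n 0 z (n 0 z (n 0 z (n 2 (n 0 z (n 1 z (n 1 z (n 2 (n 0 z (n 0 z (n 0 z (n 0 z (n 0 z
 (n 0 (n 8871955 z z) z)))))) (n 1 z (n 2 (n 0 z (n 0 z (n 0 z (n 0 z (n 0 z (n 0 (n 8656747 z
 z) z)))))) z)))))) (n 0 z (n 0 z (n 0 z (n 0 z (n 0 z (n 0 z (n 0 z z))))))))))))) (n 31 (n 0 z
 (n 0 z (n 0 z (n 0 z (n 0 z (n 0 z (n 0 z (n 0 z (n 0 z (n 0 z (n 0 z (n 0 z (n 0 z
 z))))))))))))) (n 247 (n 0 z (n 0 z (n 0 z (n 2 (n 2 (n 0 z (n 0 z (n 0 z (n 0 z (n 0 z (n 0 z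
 z)))))) (n 2 (n 0 z (n 0 z (n 0 z (n 0 z (n 0 z (n 0 z z)))))) (n 2 (n 0 z (n 0 z (n 0 z (n 0 z
 (n 0 z (n 0 (n 8656747 z z) z)))))) (n 2 (n 0 z (n 0 z (n 0 z (n 0 z (n 0 z (n 0 (n 8656747 z
 z) z)))))) z)))) (n 0 z (n 0 z (n 0 z (n 0 z (n 0 z (n 0 z (n 0 z (n 0 z (n 0 z (n 0 z
 z)))))))))))))) (n 241 (n 0 z (n 0 z (n 0 z (n 0 z (n 0 z (n 0 z (n 0 z (n 0 z (n 0 z (n 0 z (n
 0 z (n 0 z z)))))))))))) (n 241 (n 0 z (n 0 z (n 0 z (n 0 z (n 0 z (n 0 z (n 0 z (n 0 z (n 0 z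
 (n 0 z (n 0 z (n 0 z z)))))))))))) (n 241 (n 0 z (n 0 z (n 0 z (n 2 (n 0 z z) (n 0 z (n 0 z (n
 0 z (n 0 z (n 0 z (n 0 z (n 0 z (n 0 z z)))))))))))) (n 241 (n 0 z (n 0 z (n 0 z (n 0 z (n 0 z
 (n 0 z (n 0 z (n 0 z (n 0 z (n 0 z (n 0 z (n 0 z z)))))))))))) z))))))))))) (n 0 (n 0 z (n 223
 (n 2 (n 0 z (n 1 z (n 2 (n 0 z (n 0 z (n 0 z (n 0 z (n 0 z (n 0 z z)))))) (n 2 (n 0 z (n 0 z (n
 0 z (n 0 z (n 0 z (n 0 (n 8860939 z z) z)))))) (n 2 (n 0 z (n 0 z (n 0 z (n 0 z (n 0 z (n 0 (n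
 8867891 z z) z)))))) (n 2 (n 0 z (n 0 z (n 0 z (n 0 z (n 0 z (n 0 z z)))))) (n 2 (n 0 z (n 0 z
 (n 0 z (n 0 z (n 0 z (n 0 (n 1348 z z) z)))))) (n 1 z z)))))))) (n 0 z (n 0 z (n 0 z (n 0 z (n
 0 z (n 0 z (n 0 z (n 0 z (n 0 z (n 0 z z))))))))))) (n 223 (n 0 z (n 0 z (n 0 z (n 0 z (n 0 z
 (n 0 z (n 0 z (n 0 z (n 0 z (n 0 z (n 0 z z))))))))))) (n 219 (n 2 (n 0 z (n 2 (n 0 z (n 0 z (n
 0 z (n 0 z (n 0 z (n 0 (n 8860939 z z) z)))))) (n 2 (n 0 z (n 0 z (n 0 z (n 0 z (n 0 z (n 0 (n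
 8867891 z z) z)))))) (n 2 (n 0 z (n 0 z (n 0 z (n 0 z (n 0 z (n 0 z z)))))) (n 2 (n 0 z (n 0 z
 (n 0 z (n 0 z (n 0 z (n 0 z z)))))) (n 2 (n 0 z (n 0 z (n 0 z (n 0 z (n 0 z (n 0 (n 8794643 z
 z) z)))))) z)))))) (n 0 z (n 0 z (n 0 z (n 0 z (n 0 z (n 0 z (n 0 z (n 0 z (n 0 z (n 0 z
 z))))))))))) (n 219 (n 0 z (n 6620971 z (n 0 z (n 0 z (n 0 z (n 0 z (n 0 z (n 0 z (n 0 z (n 0 z
 (n 0 z z))))))))))) (n 195 (n 0 z (n 2 (n 2 (n 0 z (n 0 z (n 0 z (n 0 z (n 0 z (n 0 z z))))))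
 (n 2 (n 0 z (n 0 z (n 0 z (n 0 z (n 0 z (n 0 z z)))))) (n 2 (n 0 z (n 0 z (n 0 z (n 0 z (n 0 z
 (n 0 z z)))))) (n 1 z z)))) (n 0 z (n 0 z (n 0 z (n 0 z z)))))) (n 337 (n 2 (n 0 z (n 0 z (n 0
 z z))) (n 0 z (n 0 z (n 0 z (n 0 z (n 0 z (n 0 z (n 0 z z)))))))) (n 337 (n 0 z (n 0 z (n 0 z
 (n 0 z (n 0 z (n 0 z (n 0 z (n 0 z z)))))))) (n 337 (n 0 z (n 0 z (n 0 z (n 0 z (n 0 z (n 0 z
 (n 0 z (n 0 z z)))))))) (n 337 (n 0 z (n 0 z (n 0 z (n 0 z (n 0 z (n 0 z (n 0 z (n 0 z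
 z)))))))) z)))))))))) (n 0 (n 139 (n 0 z (n 6620987 z (n 0 z (n 0 z (n 0 z (n 0 z (n 0 z (n 0 z
 (n 0 z (n 0 z (n 0 z (n 0 z (n 0 z (n 0 z z)))))))))))))) (n 139 (n 6620971 z (n 0 z (n 0 z (n
 0 z (n 0 z (n 0 z (n 0 z (n 0 z (n 0 z (n 0 z (n 0 z (n 0 z (n 0 z (n 0 z z)))))))))))))) (n
 107 (n 6620987 z (n 0 z (n 0 z (n 0 z (n 0 z (n 0 z (n 0 z (n 0 z (n 0 z (n 0 z (n 0 z (n 0 z
 z)))))))))))) (n 107 (n 0 z (n 0 z (n 6620971 z (n 0 z (n 0 z (n 0 z (n 0 z (n 0 z (n 0 z (n 0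
 z (n 0 z (n 0 z z)))))))))))) (n 247 (n 0 z (n 0 z (n 0 z (n 0 z (n 0 z (n 0 z (n 6620987 z (n
 0 z (n 0 z (n 0 z (n 0 z (n 0 z (n 0 z (n 0 z (n 0 z (n 0 z (n 0 z (n 0 z (n 0 z (n 0 z
 z)))))))))))))))))))) (n 13 (n 0 z (n 2 (n 0 z (n 0 z (n 0 z z))) (n 0 z (n 0 z (n 0 z (n 0 z
 (n 0 z (n 0 z (n 0 z (n 0 z (n 0 z (n 0 z (n 0 z (n 0 z (n 0 z z))))))))))))))) (n 13 (n 2 (n 0
 z (n 0 z z)) (n 0 z (n 0 z (n 0 z (n 0 z (n 0 z (n 0 z (n 0 z (n 0 z (n 0 z (n 0 z (n 0 z (n 0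
 z (n 0 z (n 0 z z))))))))))))))) (n 13 (n 0 z (n 0 z (n 0 z (n 0 z (n 0 z (n 0 z (n 0 z (n 0 z
 (n 0 z (n 0 z (n 0 z (n 0 z (n 0 z (n 0 z (n 0 z z))))))))))))))) (n 13 (n 0 z (n 0 z (n 0 z (n
 0 z (n 0 z (n 0 z (n 0 z (n 0 z (n 0 z (n 0 z (n 0 z (n 0 z (n 0 z (n 0 z (n 0 z
 z))))))))))))))) z))))))))) (n 0 (n 0 z (n 391 (n 0 z (n 0 z (n 0 z (n 0 z (n 0 z (n 0 z
 z)))))) (n 391 (n 0 z (n 0 z (n 0 z (n 0 z (n 0 z (n 0 z z)))))) (n 55 (n 0 z (n 0 z (n 0 z (n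
 0 z (n 0 z (n 0 z (n 0 z (n 0 z (n 0 z z))))))))) (n 493 (n 0 z (n 0 z (n 0 z (n 0 z (n 0 z (n
 0 z (n 0 z (n 0 z (n 0 z (n 0 z (n 0 z (n 0 z z)))))))))))) (n 493 (n 0 z (n 0 z (n 0 z (n 0 z
 (n 0 z (n 0 z (n 0 z (n 0 z (n 0 z (n 0 z (n 0 z (n 0 z z)))))))))))) (n 493 (n 0 z (n 0 z (n 0
 z (n 0 z (n 0 z (n 0 z (n 0 z (n 0 z (n 0 z (n 0 z (n 0 z (n 0 z z)))))))))))) (n 493 (n 0 z (n
 0 z (n 0 z (n 0 z (n 0 z (n 0 z (n 0 z (n 0 z (n 0 z (n 0 z (n 0 z (n 0 z z))))))))))))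
 z)))))))) (n 0 (n 271 (n 0 z (n 0 z (n 0 z (n 0 z (n 0 z z))))) (n 271 (n 0 z (n 0 z (n 0 z (n
 0 z (n 0 z z))))) (n 7 (n 0 z (n 0 z (n 0 z (n 0 z (n 0 z z))))) (n 49 (n 0 z (n 0 z (n 0 z (n
 0 z (n 0 z (n 0 z (n 0 z (n 0 z z)))))))) (n 49 (n 0 z (n 0 z (n 0 z (n 0 z (n 0 z (n 0 z (n 0
 z (n 0 z z)))))))) (n 49 (n 0 z (n 0 z (n 2 (n 0 z z) (n 0 z (n 0 z (n 0 z (n 0 z (n 0 z
 z)))))))) (n 49 (n 0 z (n 0 z (n 0 z (n 0 z (n 0 z (n 0 z (n 0 z (n 0 z z)))))))) z))))))) (n 0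
 (n 0 z (n 295 (n 0 z (n 0 z (n 0 z (n 0 z (n 0 z (n 0 z (n 0 z (n 0 z (n 0 z (n 0 z z))))))))))
 (n 289 (n 0 z (n 0 z (n 0 z (n 0 z (n 0 z (n 0 z (n 0 z (n 0 z (n 0 z (n 0 z (n 0 z (n 0 z
 z)))))))))))) (n 289 (n 0 z (n 2 (n 0 z (n 0 z z)) (n 0 z (n 0 z (n 0 z (n 0 z (n 0 z (n 0 z (n
 0 z (n 0 z (n 0 z (n 0 z z)))))))))))) (n 289 (n 0 z (n 0 z (n 0 z (n 0 z (n 0 z (n 0 z (n 0 z
 (n 0 z (n 0 z (n 0 z (n 0 z (n 0 z z)))))))))))) (n 289 (n 0 z (n 0 z (n 0 z (n 0 z (n 2 z (n 0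
 z (n 0 z (n 0 z (n 0 z (n 0 z (n 0 z (n 0 z z)))))))))))) z)))))) (n 0 (n 535 (n 0 z (n 0 z (n
 0 z (n 0 z z)))) (n 241 (n 2 (n 0 z (n 0 z (n 0 z z))) (n 0 z (n 0 z (n 0 z (n 0 z (n 0 z (n 0
 z (n 0 z (n 0 z (n 0 z (n 0 z (n 0 z (n 0 z (n 0 z (n 0 z (n 0 z (n 0 z (n 0 z (n 0 z (n 0 z (n
 0 z (n 0 z (n 0 z z))))))))))))))))))))))) (n 241 (n 0 z (n 0 z (n 0 z (n 0 z (n 0 z (n 0 z (n
 0 z (n 0 z (n 0 z (n 0 z (n 0 z (n 0 z (n 0 z (n 0 z (n 0 z (n 0 z (n 0 z (n 0 z (n 0 z (n 0 z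
 (n 0 z (n 0 z (n 0 z z))))))))))))))))))))))) (n 241 (n 0 z (n 0 z (n 0 z (n 0 z (n 0 z (n 2 (n
 0 z z) (n 0 z (n 0 z (n 0 z (n 0 z (n 0 z (n 0 z (n 0 z (n 0 z (n 0 z (n 0 z (n 0 z (n 0 z (n 0
 z (n 0 z (n 0 z (n 0 z (n 0 z z))))))))))))))))))))))) (n 241 (n 0 z (n 0 z (n 0 z (n 0 z (n 0
 z (n 0 z (n 0 z (n 0 z (n 0 z (n 0 z (n 6561907 z (n 0 z (n 0 z (n 0 z (n 0 z (n 0 z (n 0 z (n
 0 z (n 0 z (n 0 z (n 0 z (n 0 z (n 0 z z))))))))))))))))))))))) z))))) (n 0 (n 1 (n 0 z (n 0 z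
 (n 0 z (n 0 z (n 0 z (n 0 z (n 0 z (n 0 z (n 0 z (n 0 z (n 0 z z))))))))))) (n 1 (n 2 (n 0 z (n
 0 z z)) (n 0 z (n 0 z (n 0 z (n 0 z (n 0 z (n 0 z (n 0 z (n 0 z (n 0 z (n 0 z z))))))))))) (n 1
 (n 0 z (n 0 z (n 0 z (n 0 z (n 0 z (n 0 z (n 0 z (n 0 z (n 0 z (n 0 z (n 0 z z))))))))))) (n 1
 (n 0 z (n 0 z (n 0 z (n 0 z (n 0 z (n 0 z (n 0 z (n 0 z (n 0 z (n 0 z (n 0 z z))))))))))) z))))
 (n 0 (n 0 z (n 0 z (n 0 z z))) (n 0 (n 0 z (n 0 z z)) (n 0 (n 0 z z) (n 0 z z))))))))))))) (n 0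
 (n 0 z (n 1 (n 12 z (n 5310011 z (n 5443683 z (n 6488603 z (n 3164 z (n 3164 z z)))))) (n 1 (n
 3278363 z (n 6488603 z (n 3278363 z (n 3278363 z (n 3278363 z (n 3278363 z z)))))) (n 0 z (n 1
 (n 28 z (n 5309995 z (n 6488603 z (n 3164 z (n 3164 z (n 3164 z z)))))) z))))) (n 0 z z)))) (n
 0xf46a851934270bb9404a6982d28590328c80d3840 (n 0 (n 395 (n 0 z (n 0 z (n 0 z (n 0 z (n 2 z (n
 10 z (n 0 z (n 0 z (n 0 z (n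
 0xcca8a864038008017ff8038078007ff8007ff7fd8017ff8007ff7fd8007fc8018007fc8027ff8007fb8017fe8058008058007ff8077fe8037fd8007fd8038048007fb7fb8008027fe7ff8017ff8028000811
 z (n 18 z (n 3282443 z (n 0 z (n 0 z (n 0 z z))))))))))))))) (n 249 (n 0 z (n 3278363 z (n 0 z
 z))) (n 129 (n 0 z (n 0 z (n 26 z (n 0 z (n 34 z (n 0 z (n 6632003 z z))))))) (n 3 (n 0 z (n 0
 z (n 0 z (n 0 z (n 0 z (n 6632003 z (n 0 z z))))))) (n 1 (n 0 z (n 0 z (n 0 z (n 6558507 z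
 z)))) (n 0 (n
 0xa46207fc80a80d83c7f57fd81481b7ee7f17eb8257f18057d78147f98187fd80d7e47e07eb8308047fb8077eb8377c87fc7f18167e382b80a8108437ec7f57d47cb81a7f380480b80080d8178020051
 z (n 42 z (n 50 z (n
 0x13c6107f780182c8907fa7f682c8347cf7c97cd85e7d780178d8387f38327fe81a7b57a37d087680a7f88187d089577a7e37e28367cd8498118218a37f47f979878582a7ee7ec82a80b8148278100051
 z (n 58 z (n 0 z (n
 0xc86c864078018017ff8008008008007ff8008008008008008008008008018008008008008008008008008017fe8018007ff8008008017ff8008008018008018008008018008008008008007ff8008000811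
 z (n 0 z (n 0 z (n 0 z (n 6632003 z (n 0 z (n 6632003 z (n 6632003 z z)))))))))))))) z)))))) (n
 249 (n 0 (n 0 z (n 0 z (n 31 (n 0 z (n 0 z (n 0 z (n 0 z (n 0 z (n 0 z (n 0 z (n 0 z (n 0 z (n
 0 z (n 0 z (n 0 z z)))))))))))) (n 31 (n 0 z (n 0 z (n 0 z (n 0 z (n 0 z (n 0 z (n 0 z (n 0 z
 (n 0 z (n 0 z (n 0 z (n 2 (n 2 (n 0 z (n 0 z (n 0 z (n 0 z (n 0 z (n 0 z z)))))) (n 2 (n 0 z (n
 0 z (n 0 z (n 0 z (n 0 z (n 0 z z)))))) (n 2 (n 0 z (n 0 z (n 0 z (n 0 z (n 0 z (n 0 z z))))))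
 z))) z)))))))))))) (n 253 (n 0 z (n 0 z (n 0 z (n 0 z (n 0 z (n 0 z (n 0 z (n 0 z (n 0 z (n 0 z
 (n 0 z z))))))))))) (n 253 (n 0 z (n 0 z (n 0 z (n 0 z (n 0 z (n 0 z (n 0 z (n 0 z (n 0 z (n 0
 z (n 0 z z))))))))))) (n 253 (n 0 z (n 2 z (n 0 z (n 0 z (n 0 z (n 0 z (n 0 z (n 0 z (n 0 z (n
 0 z (n 0 z z))))))))))) z))))))) (n 0 (n 0 z (n 31 (n 0 z (n 0 z (n 0 z (n 0 z (n 2 (n 0 z (n 1
 z (n 2 (n 0 z (n 0 z (n 0 z (n 0 z (n 0 (n 8871955 z z) (n 0 z z)))))) (n 1 z z)))) (n 0 z (n 0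
 z (n 0 z z)))))))) (n 31 (n 0 z (n 0 z (n 0 z (n 0 z (n 0 z (n 0 z (n 0 z (n 0 z z)))))))) (n
 241 (n 0 z (n 0 z (n 0 z (n 0 z (n 0 z (n 0 z (n 0 z (n 0 z (n 0 z (n 0 z (n 0 z z)))))))))))
 (n 241 (n 0 z (n 0 z (n 0 z (n 0 z (n 0 z (n 0 z (n 0 z (n 0 z (n 0 z (n 0 z (n 0 z
 z))))))))))) (n 241 (n 0 z (n 0 z (n 2 z (n 0 z (n 0 z (n 0 z (n 0 z (n 0 z (n 0 z (n 0 z (n 0
 z z))))))))))) z)))))) (n 0 (n 107 (n 0 z (n 6620987 z (n 0 z (n 0 z (n 0 z (n 0 z (n 0 z (n 0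
 z (n 0 z (n 0 z (n 0 z z))))))))))) (n 107 (n 0 z (n 0 z (n 0 z (n 0 z (n 6620971 z (n 0 z (n 0
 z (n 0 z (n 0 z (n 0 z (n 0 z z))))))))))) (n 13 (n 0 z (n 0 z (n 2 (n 0 z (n 0 z z)) (n 0 z (n
 0 z (n 0 z (n 0 z (n 0 z (n 0 z (n 0 z (n 0 z (n 0 z (n 0 z (n 0 z z)))))))))))))) (n 13 (n 0 z
 (n 2 (n 0 z z) (n 0 z (n 0 z (n 0 z (n 0 z (n 0 z (n 0 z (n 0 z (n 0 z (n 0 z (n 0 z (n 0 z (n
 0 z z)))))))))))))) (n 13 (n 0 z (n 0 z (n 0 z (n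
 0xcc7617fb80181c85c7fb7f981d8217e17dd7df83d7e58017b68247f88207ff8117d07c57e284d8077fb8107e18607ab7ee7ed8227e082f80a8158687f87fb7bd7b181b7f57f481b80780d81a80a0051
 z (n 0 z (n 0 z (n 0 z (n 0 z (n 0 z (n 0 z (n 0 z (n 0 z (n 0 z (n 0 z z)))))))))))))) z)))))
 (n 0 (n 0 z (n 289 (n 0 z (n 0 z (n 0 z (n 0 z (n 0 z (n 0 z (n 0 z (n 0 z (n 0 z (n 0 z (n 0 z
 (n 0 z z)))))))))))) (n 289 (n 0 z (n 2 (n 0 z z) (n 0 z (n 0 z (n 0 z (n 0 z (n 0 z (n 0 z (n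
 0 z (n 0 z (n 0 z (n 0 z z)))))))))))) (n 289 (n 0 z (n 0 z (n 0 z (n 0 z (n 0 z (n 0 z (n 0 z
 (n 0 z (n 0 z (n 0 z (n 0 z (n 0 z z)))))))))))) z)))) (n 0 (n 241 (n 2 (n 0 z (n 0 z z)) (n 0
 z (n 0 z (n 0 z (n 0 z (n 0 z (n 0 z (n 0 z (n 0 z (n 0 z (n 0 z (n 0 z (n 0 z (n 0 z (n 0 z (n
 0 z (n 0 z (n 0 z (n 0 z (n 0 z (n 0 z (n 0 z (n 0 z (n 0 z (n 0 z z)))))))))))))))))))))))))
 (n 241 (n 0 z (n 0 z (n 0 z (n 0 z (n 0 z (n 0 z (n 0 z (n 0 z (n 0 z (n 0 z (n 0 z (n 0 z (n 0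
 z (n 0 z (n 0 z (n 0 z (n 0 z (n 0 z (n 0 z (n 0 z (n 0 z (n 0 z (n 0 z (n 0 z (n 0 z
 z))))))))))))))))))))))))) (n 241 (n 0 z (n 0 z (n 0 z (n 0 z (n 0 z (n 0 z (n 0 z (n 2 z (n 0
 z (n 0 z (n 0 z (n 0 z (n 0 z (n 0 z (n 0 z (n 0 z (n 0 z (n 0 z (n 0 z (n 0 z (n 0 z (n 0 z (n
 0 z (n 0 z (n 0 z z))))))))))))))))))))))))) z))) (n 0 (n 0 z (n 0 z z)) (n 0 (n 0 z z) (n 0 z
 z)))))))) (n 0 (n 0 z (n 1 (n 3278363 z (n 6488603 z (n 3278363 z (n 3278363 z (n 3278363 z (n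
 3278363 z z)))))) (n 0 z z))) (n 0 z z)))) (n
 0xd9394688ba3289d0ded2a0a27161137b405a5904d6d1067298531bc2168c08aca06768880b2880 (n 0x16513 (n
 153 (n 0 z (n 2 z (n
 0x2a82c604070386400a8c800c9900083208181807f817e7f8081828080808080808080807e7f8280817e808080808080817f7f808080807f827f7f7e827f8080827c800909
 z (n 3282443 z (n 0 z (n 0 z (n 0 z (n 10 z z)))))))) (n 57 (n
 0xd8590d50c806001796c86a8040300065f543610203800107b29a99001c000efd50994400e0013dea64c420070003bfac4000077f1880005e7d3100012779620003c2f864000b75a8c80019c249900023c583207ffa6b800ed88000007ffb548000ea8005bf7ff00d7fe326801165803c2b7ffa1f7ffba07ffe277ff3878014e57fdb618009908010617ff4187ff5f27fdfab8003d77ff96580055b800e0f7ffd458004608005528004d27fe3ee7fff287ffc4e7ff0fe8006a5800d4b800d697febbb8003108001bc7feee17ff3987ffe567fdcb0802fbc8001ac7ff71a800c2e800e227fe3747ff9b63219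
 z (n 0 z (n 18 z (n 26 z (n 6496515 z (n 0 z (n 34 z (n 6496515 z (n 6496515 z (n 0 z (n 42 z
 (n 50 z z)))))))))))) (n 51 (n 0 z (n 0 z (n 0 z (n 0 z (n 58 z (n 0 z (n 0 z (n 0 z (n 0 z (n
 0 z (n 0 z (n 0 z (n 0 z (n 6496515 z (n 66 z z))))))))))))))) (n 27 (n 0 z (n 6496515 z (n 74
 z (n 0 z (n 0 z z))))) (n 1 (n 82 z (n 0 z (n 0 z (n 0 z (n 0 z (n 0 z (n 0 z (n 0 z (n 0 z (n
 0 z (n 0 z (n 0 z (n 6554411 z (n 0 z (n 0 z z))))))))))))))) (n 0 (n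
 0xcca88642077a7f807d7d8486827a827c7f827c877980867e6f81848880817e8177807c7b8a817c84798382807b7c83837f868578847f820809
 z (n 0 z (n 0 z (n 0 z (n
 0x2c86c864037f81807f8081807f8381807f7e828380808381807b7e7f81807e817e84807d80807e7f8181817c8082807d817e808282817f0809
 z (n 0 z (n 0 z (n 0 z (n
 0x190d90c80e08c86c862037e80807f81817f808180847e7f818081807f80808080807f807d827f82847e7f8180818081807f807e807f807f7f808180801009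
 z (n 0 z (n 2164315 z (n 90 z (n 0 z (n 0 z (n 6632491 z (n 0 z (n
 0x6b2a218900c3d90cc4080e5e9880bcb101786203b8640ee8c819c9901583208f7c8088766f5d7285cc81837d718d6b8e8d638b43926b9386817d88785898976c98748f677b8c7f5d8b4cba746aa6a04c6c11c9
 z (n 0 z (n 0 z (n 0 z (n
 0xf65443120180321a18900c0190d90c40e14ca88642076e9d767691888a609384747d847e965b7d998d84636c84878580778e85558b70707b848f738a7671948a7c7d8b848b828c7a2009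
 z (n 0 z (n 0 z (n 0 z (n 0 z (n 0 z (n
 0x4c84c82603807f80807f827f7f8380837f7d80837f82838282797b7d84827d818086807b80807d7d8280807b8085837a807b82868483800809
 z (n 6632491 z (n 0 z (n 0 z (n 0 z (n 0 z (n
 0x4c86c864037f81807e8082807e8681817e7d83868080858281777b7e83807b817c87817981807c7f8180827881848479807e818784837e0809
 z (n
 0x8c84c8060381807f7f81837e7a898884807b82837d80868487737279867f7d807e8a83757d817e8284818176818881757d7b808588857b0809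
 z (n 0 z (n 0 z (n 0 z (n 98 z (n 6632491 z (n 6632491 z (n 0 z (n 0 z (n 106 z (n 0 z (n 114 z
 (n 0 z (n 0 z z))))))))))))))))))))))))))))))))))))))))))))))) z)))))) (n 27 (n 0 (n 0 z (n 763
 (n 0 z (n 0 z (n 0 z (n 0 z (n 0 z (n 0 z (n 0 z (n 0 z (n 0 z (n 0 z (n 0 z (n 0 z (n 0 z (n 0
 z (n 0 z (n 0 z (n 0 z z))))))))))))))))) (n 763 (n 0 z (n 0 z (n 0 z (n 0 z (n 0 z (n 2 (n 0 z
 (n 0 z (n 0 z (n 1 z (n 2 (n 0 z (n 0 z (n 0 z (n 0 z (n 0 z (n 0 z z)))))) (n 1 z (n 1 z (n 2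
 (n 0 z (n 0 z (n 0 z (n 0 z (n 0 z (n 0 z z)))))) (n 1 z (n 1 z (n 1 z z))))))))))) (n 0 z (n 0
 z (n 0 z (n 0 z (n 0 z (n 0 z (n 0 z (n 0 z (n 0 z (n 0 z (n 0 z z))))))))))))))))) (n 763 (n 0
 z (n 0 z (n 0 z (n 0 z (n 0 z (n 0 z (n 0 z (n 0 z (n 0 z (n 0 z (n 0 z (n 0 z (n 0 z (n 0 z (n
 0 z (n 0 z (n 0 z z))))))))))))))))) (n 763 (n 0 z (n 0 z (n 0 z (n 0 z (n 0 z (n 0 z (n 0 z (n
 0 z (n 0 z (n 0 z (n 0 z (n 0 z (n 0 z (n 0 z (n 0 z (n 0 z (n 0 z z))))))))))))))))) (n 763 (n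
 0 z (n 0 z (n 0 z (n 0 z (n 0 z (n 0 z (n 0 z (n 0 z (n 0 z (n 0 z (n 0 z (n 0 z (n 0 z (n 0 z
 (n 0 z (n 0 z (n 0 z z))))))))))))))))) (n 731 (n 0 z (n 0 z (n 0 z (n 0 z (n 0 z (n 0 z
 z)))))) (n 731 (n 0 z (n 0 z (n 0 z (n 0 z (n 0 z (n 2 (n 2 (n 0 z (n 0 z (n 0 z (n 0 z (n 0 z
 (n 0 z z)))))) (n 1 z (n 2 (n 0 z (n 0 z (n 0 z (n 0 z (n 0 z (n 0 z z)))))) (n 2 (n 0 z (n 0 z
 (n 0 z (n 0 z (n 0 z (n 0 z z)))))) (n 2 (n 0 z (n 0 z (n 0 z (n 0 z (n 0 z (n 0 z z)))))) (n 2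
 (n 0 z (n 0 z (n 0 z (n 0 z (n 0 z (n 0 z z)))))) z)))))) z)))))) (n 295 (n 0 z (n 0 z (n 0 z
 (n 0 z (n 0 z (n 0 z (n 0 z (n 0 z z)))))))) (n 303 (n 0 z (n 0 z (n 0 z (n 0 z (n 0 z (n 0 z
 (n 0 z (n 0 z (n 0 z (n 0 z z)))))))))) (n 301 (n 0 z (n 0 z (n 0 z (n 0 z (n 0 z (n 0 z (n 0 z
 (n 0 z (n 0 z (n 0 z (n 0 z (n 0 z (n 0 z (n 0 z (n 0 z (n 2 (n 0 z (n 0 z (n 0 z z))) (n 0 z
 (n 0 z (n 0 z (n 0 z (n 0 z (n 0 z (n 0 z (n 0 z (n 0 z (n 0 z (n 0 z (n 0 z (n 0 z (n 0 z (n 0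
 z (n 0 z z)))))))))))))))))))))))))))))))) (n 301 (n 0 z (n 0 z (n 0 z (n 0 z (n 0 z (n 0 z (n
 0 z (n 0 z (n 0 z (n 0 z (n 0 z (n 0 z (n 0 z (n 0 z (n 0 z (n 0 z (n 0 z (n 0 z (n 0 z (n 0 z
 (n 0 z (n 0 z (n 0 z (n 0 z (n 0 z (n 0 z (n 0 z (n 0 z (n 0 z (n 0 z (n 0 z (n 0 z
 z)))))))))))))))))))))))))))))))) (n 301 (n 0 z (n 0 z (n 0 z (n 0 z (n 0 z (n 0 z (n 0 z (n 0
 z (n 0 z (n 0 z (n 0 z (n 0 z (n 0 z (n 0 z (n 0 z (n 0 z (n 0 z (n 0 z (n 0 z (n 0 z (n 0 z (n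
 0 z (n 0 z (n 0 z (n 0 z (n 0 z (n 0 z (n 0 z (n 0 z (n 0 z (n 0 z (n 0 z
 z)))))))))))))))))))))))))))))))) (n 301 (n 0 z (n 0 z (n 0 z (n 0 z (n 0 z (n 0 z (n 0 z (n 0
 z (n 0 z (n 0 z (n 0 z (n 0 z (n 0 z (n 0 z (n 0 z (n 0 z (n 0 z (n 0 z (n 0 z (n 0 z (n 0 z (n
 0 z (n 0 z (n 0 z (n 0 z (n 0 z (n 0 z (n 0 z (n 0 z (n 0 z (n 0 z (n 7673403 z
 z)))))))))))))))))))))))))))))))) z)))))))))))))) (n 0 (n 499 (n 0 z (n 0 z (n 0 z (n 0 z (n 0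
 z (n 0 z (n 0 z (n 0 z (n 0 z (n 0 z (n 0 z (n 0 z (n 0 z (n 0 z (n 0 z (n 0 z (n 0 z
 z))))))))))))))))) (n 499 (n 0 z (n 0 z (n 0 z (n 2 (n 0 z (n 0 z (n 0 z (n 1 z (n 2 (n 0 z (n
 0 z (n 0 z (n 0 z (n 0 z (n 0 z z)))))) (n 2 (n 0 z (n 0 z (n 0 z (n 0 z (n 0 z (n 0 z z))))))
 (n 1 z (n 2 (n 0 z (n 0 z (n 0 z (n 0 z (n 0 z (n 0 z z)))))) (n 2 (n 0 z (n 0 z (n 0 z (n 0 z
 (n 0 z (n 0 z z)))))) (n 2 (n 0 z (n 0 z (n 0 z (n 0 z (n 0 z (n 0 z z)))))) (n 2 (n 0 z (n 0 z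
 (n 0 z (n 0 z (n 0 z (n 0 z z)))))) z))))))))))) (n 0 z (n 0 z (n 0 z (n 0 z (n 0 z (n 0 z (n 0
 z (n 0 z (n 0 z (n 0 z (n 0 z (n 0 z (n 0 z z))))))))))))))))) (n 499 (n 0 z (n 0 z (n 0 z (n 0
 z (n 0 z (n 0 z (n 0 z (n 0 z (n 0 z (n 0 z (n 0 z (n 0 z (n 0 z (n 0 z (n 0 z (n 0 z (n 0 z
 z))))))))))))))))) (n 499 (n 0 z (n 0 z (n 0 z (n 0 z (n 0 z (n 0 z (n 0 z (n 0 z (n 0 z (n 0 z
 (n 0 z (n 0 z (n 0 z (n 0 z (n 0 z (n 0 z (n 0 z z))))))))))))))))) (n 499 (n 0 z (n 0 z (n 0 z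
 (n 0 z (n 0 z (n 0 z (n 0 z (n 0 z (n 0 z (n 0 z (n 0 z (n 0 z (n 0 z (n 0 z (n 0 z (n 0 z (n 0
 z z))))))))))))))))) (n 259 (n 2 (n 0 z (n 1 z (n 1 z (n 2 (n 0 z (n 0 z (n 0 z (n 0 z (n 0 z
 (n 0 z z)))))) (n 1 z (n 2 (n 0 z (n 0 z (n 0 z (n 0 z (n 0 z (n 0 z z)))))) (n 2 (n 0 z (n 0 z
 (n 0 z (n 0 z (n 0 (n 8873283 z z) (n 0 z z)))))) z))))))) (n 0 z (n 0 z (n 0 z (n 0 z (n 0 z
 (n 0 z z))))))) (n 259 (n 0 z (n 0 z (n 0 z (n 0 z (n 0 z (n 0 z (n 0 z z))))))) (n 295 (n 0 z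
 (n 2 (n 1 z (n 2 (n 0 z (n 0 z (n 0 z (n 0 z (n 0 z (n 0 z z)))))) (n 2 (n 0 z (n 0 z (n 0 z (n
 0 z (n 0 z (n 0 z z)))))) (n 2 (n 0 z (n 0 z (n 0 z (n 0 z (n 0 z (n 0 z z)))))) (n 2 (n 0 z (n
 0 z (n 0 z (n 0 z (n 0 z (n 0 z z)))))) z))))) (n 0 z (n 0 z (n 0 z z))))) (n 291 (n 0 z (n 0 z
 (n 0 z (n 0 z (n 0 z (n 0 z (n 0 z (n 0 z (n 0 z (n 0 z (n 0 z z))))))))))) (n 289 (n 0 z (n 0
 z (n 0 z (n 0 z (n 0 z (n 0 z (n 0 z (n 0 z (n 0 z (n 0 z (n 0 z (n 0 z (n 0 z (n 0 z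
 z)))))))))))))) (n 289 (n 0 z (n 0 z (n 0 z (n 0 z (n 0 z (n 0 z (n 0 z (n 0 z (n 0 z (n 0 z (n
 0 z (n 0 z (n 0 z (n 0 z z)))))))))))))) (n 289 (n 0 z (n 0 z (n 0 z (n 0 z (n 0 z (n 0 z (n 0
 z (n 0 z (n 0 z (n 0 z (n 0 z (n 0 z (n 0 z (n 0 z z)))))))))))))) (n 289 (n 0 z (n 0 z (n 0 z
 (n 0 z (n 0 z (n 0 z (n 0 z (n 0 z (n 0 z (n 0 z (n 0 z (n 0 z (n 0 z (n 7673387 z
 z)))))))))))))) z))))))))))))) (n 0 (n 0 z (n 0 z (n 0 z (n 0 z (n 731 (n 0 z (n 0 z (n 0 z (n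
 0 z (n 0 z (n 0 z (n 0 z (n 0 z (n 0 z (n 0 z (n 0 z z))))))))))) (n 731 (n 0 z (n 0 z (n 0 z
 (n 0 z (n 0 z (n 0 z (n 0 z (n 0 z (n 0 z (n 0 z (n 2 (n 2 (n 0 z (n 0 z (n 0 z (n 0 z (n 0 z
 (n 0 z z)))))) (n 2 (n 0 z (n 0 z (n 0 z (n 0 z (n 0 z (n 0 z z)))))) (n 2 (n 0 z (n 0 z (n 0 z
 (n 0 z (n 0 z (n 0 z z)))))) (n 2 (n 0 z (n 0 z (n 0 z (n 0 z (n 0 z (n 0 z z)))))) (n 2 (n 0 z
 (n 0 z (n 0 z (n 0 z (n 0 z (n 0 z z)))))) (n 2 (n 0 z (n 0 z (n 0 z (n 0 z (n 0 z (n 0 z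
 z)))))) z)))))) z))))))))))) (n 75 (n 0 z (n 0 z (n 0 z (n 0 z (n 0 z (n 0 z (n 0 z (n 0 z
 z)))))))) (n 111 (n 0 z (n 0 z (n 0 z (n 0 z (n 0 z (n 0 z (n 0 z (n 0 z z)))))))) (n 113 (n 0
 z (n 0 z (n 0 z (n 0 z (n 0 z (n 0 z (n 0 z (n 0 z (n 0 z (n 2 (n 0 z (n 0 z (n 0 z z))) (n 0 z
 (n 0 z z)))))))))))) (n 113 (n 0 z (n 0 z (n 0 z (n 0 z (n 0 z (n 0 z (n 0 z (n 0 z (n 0 z (n 0
 z (n 0 z (n 0 z z)))))))))))) (n 113 (n 0 z (n 0 z (n 0 z (n 0 z (n 0 z (n 0 z (n 0 z (n 0 z (n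
 0 z (n 0 z (n 0 z (n 0 z z)))))))))))) (n 113 (n 0 z (n 0 z (n 0 z (n 0 z (n 0 z (n 0 z (n 0 z
 (n 0 z (n 0 z (n 0 z (n 0 z (n 2 z z)))))))))))) z)))))))))))) (n 0 (n 0 z (n 0 z (n 0 z (n 779
 (n 0 z (n 0 z (n 0 z (n 0 z (n 0 z (n 0 z (n 0 z (n 0 z (n 0 z (n 0 z (n 0 z z))))))))))) (n
 779 (n 0 z (n 0 z (n 0 z (n 0 z (n 0 z (n 0 z (n 0 z (n 0 z (n 0 z (n 0 z (n 2 (n 2 (n 0 z (n 0
 z (n 0 z (n 0 z (n 0 z (n 0 z z)))))) (n 2 (n 0 z (n 0 z (n 0 z (n 0 z (n 0 z (n 0 z z)))))) (n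
 2 (n 0 z (n 0 z (n 0 z (n 0 z (n 0 z (n 0 z z)))))) (n 2 (n 0 z (n 0 z (n 0 z (n 0 z (n 0 z (n
 0 z z)))))) (n 2 (n 0 z (n 0 z (n 0 z (n 0 z (n 0 z (n 0 z z)))))) (n 2 (n 0 z (n 0 z (n 0 z (n
 0 z (n 0 z (n 0 z z)))))) z)))))) z))))))))))) (n 75 (n 0 z (n 0 z (n 0 z (n 0 z (n 0 z (n 0 z
 (n 0 z (n 0 z (n 0 z (n 0 z (n 0 z z))))))))))) (n 777 (n 0 z (n 0 z (n 0 z (n 0 z (n 0 z (n 0
 z (n 0 z (n 0 z (n 0 z (n 0 z (n 0 z (n 0 z (n 0 z z))))))))))))) (n 721 (n 0 z (n 0 z (n 0 z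
 (n 0 z (n 0 z (n 0 z (n 0 z (n 0 z (n 0 z (n 0 z (n 0 z (n 0 z (n 0 z (n 0 z (n 0 z (n 0 z (n 0
 z (n 0 z (n 0 z (n 0 z (n 0 z (n 0 z (n 0 z (n 0 z (n 0 z (n 0 z (n 0 z (n 0 z (n 0 z (n 0 z (n
 0 z (n 0 z (n 0 z (n 0 z (n 0 z (n 0 z (n 0 z (n 0 z (n 0 z (n 0 z (n 0 z (n 0 z (n 0 z (n 0 z
 (n 0 z (n 0 z z)))))))))))))))))))))))))))))))))))))))))))))) (n 721 (n 0 z (n 0 z (n 0 z (n 0
 z (n 0 z (n 0 z (n 0 z (n 0 z (n 0 z (n 0 z (n 0 z (n 0 z (n 0 z (n 0 z (n 0 z (n 0 z (n 0 z (n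
 0 z (n 0 z (n 0 z (n 0 z (n 0 z (n 0 z (n 0 z (n 0 z (n 0 z (n 0 z (n 0 z (n 0 z (n 0 z (n 0 z
 (n 0 z (n 0 z (n 0 z (n 0 z (n 0 z (n 0 z (n 0 z (n 0 z (n 0 z (n 2 (n 0 z (n 0 z z)) (n 0 z (n
 0 z (n 0 z (n 0 z (n 0 z z)))))))))))))))))))))))))))))))))))))))))))))) (n 721 (n 0 z (n 0 z
 (n 0 z (n 0 z (n 0 z (n 0 z (n 0 z (n 0 z (n 0 z (n 0 z (n 0 z (n 0 z (n 0 z (n 0 z (n 0 z (n 0
 z (n 0 z (n 0 z (n 0 z (n 0 z (n 0 z (n 0 z (n 0 z (n 0 z (n 0 z (n 0 z (n 0 z (n 0 z (n 0 z (n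
 0 z (n 0 z (n 0 z (n 0 z (n 0 z (n 0 z (n 0 z (n 0 z (n 2 (n 0 z z) (n 0 z (n 0 z (n 0 z (n 0 z
 (n 0 z (n 0 z (n 0 z (n 0 z z)))))))))))))))))))))))))))))))))))))))))))))) (n 721 (n 0 z (n 0
 z (n 0 z (n 0 z (n 0 z (n 0 z (n 0 z (n 0 z (n 0 z (n 0 z (n 0 z (n 0 z (n 0 z (n 0 z (n 0 z (n
 0 z (n 0 z (n 0 z (n 0 z (n 0 z (n 0 z (n 0 z (n 0 z (n 0 z (n 0 z (n 0 z (n 0 z (n 0 z (n 0 z
 (n 0 z (n 0 z (n 0 z (n 0 z (n 0 z (n 0 z (n 0 z (n 0 z (n 0 z (n 0 z (n 0 z (n 0 z (n 0 z (n 0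
 z (n 0 z (n 0 z (n 0 z z)))))))))))))))))))))))))))))))))))))))))))))) z))))))))))) (n 0 (n 0 z
 (n 0 z (n 129 (n 0 z (n 0 z (n 0 z (n 0 z (n 0 z (n 0 z (n 0 z (n 0 z (n 0 z (n 0 z (n 0 z (n 0
 z (n 0 z (n 0 z (n 0 z (n 0 z (n 0 z (n 0 z (n 0 z (n 0 z (n 2 (n 0 z (n 2 (n 0 z (n 0 z (n 0 z
 (n 0 z (n 0 (n 8860955 z z) (n 0 z z)))))) (n 1 z (n 2 (n 0 z (n 0 z (n 0 z (n 0 z (n 0 (n
 8798771 z z) (n 0 z z)))))) (n 2 (n 0 z (n 0 z (n 0 z (n 0 z (n 0 (n 8868147 z z) (n 0 z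
 z)))))) (n 2 (n 0 z (n 0 z (n 0 z (n 0 z (n 0 z (n 0 z z)))))) (n 2 (n 0 z (n 0 z (n 0 z (n 0 z
 (n 0 z (n 0 z z)))))) z))))))) (n 0 z z)))))))))))))))))))))) (n 129 (n 0 z (n 0 z (n 0 z (n 0
 z (n 0 z (n 0 z (n 0 z (n 0 z (n 0 z (n 0 z (n 0 z (n 0 z (n 0 z (n 0 z (n 0 z (n 0 z (n 0 z (n
 0 z (n 0 z (n 0 z (n 0 z (n 0 z z)))))))))))))))))))))) (n 75 (n 0 z (n 0 z (n 0 z (n 0 z (n 0
 z z))))) (n 117 (n 0 z (n 0 z (n 0 z (n 0 z (n 0 z (n 0 z (n 0 z (n 0 z (n 0 z (n 0 z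
 z)))))))))) (n 113 (n 0 z (n 0 z (n 0 z (n 0 z (n 0 z (n 0 z (n 0 z (n 0 z (n 0 z (n 0 z (n 0 z
 z))))))))))) (n 113 (n 0 z (n 0 z (n 0 z (n 0 z (n 0 z (n 0 z (n 0 z (n 0 z (n 0 z (n 0 z (n 2
 (n 0 z (n 0 z z)) z))))))))))) (n 113 (n 0 z (n 0 z (n 0 z (n 0 z (n 0 z (n 0 z (n 0 z (n 0 z
 (n 0 z (n 0 z (n 0 z z))))))))))) (n 113 (n 0 z (n 0 z (n 0 z (n 0 z (n 0 z (n 0 z (n 0 z (n 0
 z (n 0 z (n 0 z (n 0 z z))))))))))) z)))))))))) (n 0 (n 0 z (n 129 (n 0 z (n 0 z (n 0 z (n 0 z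
 (n 0 z (n 0 z (n 0 z (n 0 z z)))))))) (n 129 (n 0 z (n 0 z (n 0 z (n 0 z (n 0 z (n 0 z (n 0 z
 (n 0 z z)))))))) (n 81 (n 0 z (n 0 z (n 0 z (n 0 z (n 0 z (n 0 z (n 0 z (n 0 z (n 0 z
 z))))))))) (n 117 (n 0 z (n 0 z (n 0 z (n 0 z (n 0 z (n 0 z (n 0 z z))))))) (n 113 (n 0 z (n 0
 z (n 0 z (n 0 z (n 0 z (n 0 z (n 0 z (n 0 z z)))))))) (n 113 (n 0 z (n 0 z (n 0 z (n 0 z (n 0 z
 (n 0 z (n 0 z (n 0 z z)))))))) (n 113 (n 0 z (n 0 z (n 0 z (n 0 z (n 0 z (n 0 z (n 0 z (n 0 z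
 z)))))))) (n 113 (n 0 z (n 0 z (n 0 z (n 0 z (n 0 z (n 0 z (n 0 z (n 0 z z)))))))) z)))))))))
 (n 0 (n 123 (n 0 z (n 0 z (n 0 z (n 0 z (n 2 (n 0 z (n 1 z (n 1 z (n 1 z (n 1 z (n 2 (n 0 z (n
 0 z (n 0 z (n 0 z (n 0 (n 8873283 z z) (n 0 z z)))))) (n 1 z z))))))) (n 0 z (n 0 z (n 0 z (n 0
 z (n 0 z (n 0 z (n 0 z z)))))))))))) (n 123 (n 0 z (n 0 z (n 0 z (n 0 z (n 0 z (n 0 z (n 0 z (n
 0 z (n 0 z (n 0 z (n 0 z (n 0 z z)))))))))))) (n 75 (n 0 z (n 0 z (n 2 (n 1 z (n 2 (n 0 z (n 0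
 z (n 0 z (n 0 z (n 0 (n 8652651 z z) (n 0 z z)))))) (n 2 (n 0 z (n 0 z (n 0 z (n 0 z (n 0 (n
 8873283 z z) (n 0 z z)))))) (n 2 (n 0 z (n 0 z (n 0 z (n 0 z (n 0 z (n 0 z z)))))) (n 2 (n 0 z
 (n 0 z (n 0 z (n 0 z (n 0 z (n 0 z z)))))) z))))) (n 0 z (n 0 z (n 0 z (n 0 z (n 0 z (n 0 z
 z))))))))) (n 63 (n 0 z (n 0 z (n 0 z (n 0 z (n 0 z (n 0 z (n 0 z (n 0 z z)))))))) (n 65 (n 0 z
 (n 0 z (n 0 z (n 0 z (n 0 z (n 0 z (n 0 z (n 0 z (n 0 z (n 0 z (n 0 z (n 0 z z)))))))))))) (n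
 65 (n 0 z (n 0 z (n 0 z (n 0 z (n 0 z (n 0 z (n 0 z (n 0 z (n 0 z (n 0 z (n 0 z (n 0 z
 z)))))))))))) (n 65 (n 0 z (n 0 z (n 0 z (n 0 z (n 0 z (n 0 z (n 0 z (n 0 z (n 0 z (n 0 z (n 0
 z (n 0 z z)))))))))))) (n 65 (n 0 z (n 0 z (n 2 z (n 0 z (n 0 z (n 0 z (n 0 z (n 0 z (n 0 z (n
 0 z (n 0 z (n 0 z z)))))))))))) z)))))))) (n 0 (n 0 z (n 247 (n 0 z (n 0 z (n 0 z (n 0 z (n 0 z
 (n 0 z (n 0 z (n 0 z z)))))))) (n 99 (n 0 z (n 0 z (n 0 z (n 0 z (n 0 z (n 0 z (n 0 z (n 0 z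
 z)))))))) (n 101 (n 0 z (n 0 z (n 0 z (n 0 z (n 0 z (n 0 z (n 0 z (n 0 z (n 0 z (n 2 (n 0 z (n
 0 z (n 0 z z))) (n 0 z z))))))))))) (n 101 (n 0 z (n 0 z (n 0 z (n 0 z (n 0 z (n 0 z (n 0 z (n
 0 z (n 0 z (n 0 z (n 0 z z))))))))))) (n 101 (n 0 z (n 0 z (n 0 z (n 2 (n 0 z z) (n 0 z (n 0 z
 (n 0 z (n 0 z (n 0 z (n 0 z (n 0 z z))))))))))) (n 101 (n 0 z (n 0 z (n 0 z (n 0 z (n 0 z (n 0
 z (n 0 z (n 0 z (n 0 z (n 0 z (n 7673403 z z))))))))))) z))))))) (n 0 (n 247 (n 0 z (n 0 z (n 0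
 z (n 2 (n 2 (n 0 z (n 0 z (n 0 z (n 0 z (n 0 z (n 0 z z)))))) (n 2 (n 0 z (n 0 z (n 0 z (n 0 z
 (n 0 z (n 0 z z)))))) (n 2 (n 0 z (n 0 z (n 0 z (n 0 z (n 0 z (n 0 z z)))))) (n 2 (n 0 z (n 0 z
 (n 0 z (n 0 z (n 0 z (n 0 z z)))))) (n 2 (n 0 z (n 0 z (n 0 z (n 0 z (n 0 z (n 0 z z))))))
 z))))) (n 0 z (n 0 z (n 0 z z))))))) (n 15 (n 0 z (n 0 z (n 2 (n 2 (n 0 z (n 0 z (n 0 z (n 0 z
 (n 0 z (n 0 z z)))))) (n 2 (n 0 z (n 0 z (n 0 z (n 0 z (n 0 z (n 0 z z)))))) (n 2 (n 0 z (n 0 z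
 (n 0 z (n 0 z (n 0 z (n 0 z z)))))) (n 2 (n 0 z (n 0 z (n 0 z (n 0 z (n 0 z (n 0 z z))))))
 z)))) (n 0 z (n 0 z (n 0 z (n 0 z (n 0 z (n 0 z (n 0 z (n 0 z (n 0 z (n 0 z (n 0 z (n 0 z (n 0
 z (n 0 z (n 0 z (n 0 z (n 0 z (n 0 z (n 0 z (n 0 z z))))))))))))))))))))))) (n 101 (n 0 z (n 0
 z (n 0 z (n 0 z (n 0 z (n 0 z (n 0 z (n 0 z (n 0 z (n 0 z (n 0 z (n 0 z (n 0 z z)))))))))))))
 (n 101 (n 0 z (n 0 z (n 0 z (n 0 z (n 2 (n 0 z (n 0 z z)) (n 0 z (n 0 z (n 0 z (n 0 z (n 0 z (n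
 0 z (n 0 z (n 0 z z))))))))))))) (n 101 (n 0 z (n 0 z (n 0 z (n 0 z (n 0 z (n 0 z (n 0 z (n 0 z
 (n 0 z (n 0 z (n 0 z (n 0 z (n 0 z z))))))))))))) (n 101 (n 0 z (n 0 z (n 7673387 z (n 0 z (n 0
 z (n 0 z (n 0 z (n 0 z (n 0 z (n 0 z (n 0 z (n 0 z (n 0 z z))))))))))))) z)))))) (n 0 (n 243 (n
 0 z (n 0 z (n 0 z (n 0 z (n 0 z (n 0 z (n 0 z (n 0 z (n 0 z z))))))))) (n 53 (n 0 z (n 0 z (n 0
 z (n 0 z (n 0 z (n 0 z (n 0 z (n 0 z (n 0 z (n 0 z (n 0 z (n 0 z (n 0 z (n 0 z (n 0 z (n 0 z (n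
 0 z (n 0 z (n 0 z (n 0 z (n 0 z (n 0 z (n 0 z (n 2 (n 0 z (n 0 z (n 0 z z))) (n 0 z
 z))))))))))))))))))))))))) (n 53 (n 0 z (n 0 z (n 0 z (n 0 z (n 0 z (n 0 z (n 0 z (n 0 z (n 0 z
 (n 0 z (n 0 z (n 0 z (n 0 z (n 0 z (n 0 z (n 0 z (n 0 z (n 0 z (n 0 z (n 0 z (n 0 z (n 0 z (n 0
 z (n 0 z (n 0 z z))))))))))))))))))))))))) (n 53 (n 0 z (n 0 z (n 0 z (n 0 z (n 0 z (n 0 z (n 0
 z (n 2 (n 0 z z) (n 0 z (n 0 z (n 0 z (n 0 z (n 0 z (n 0 z (n 0 z (n 0 z (n 0 z (n 0 z (n 0 z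
 (n 0 z (n 0 z (n 0 z (n 0 z (n 0 z (n 0 z z))))))))))))))))))))))))) (n 53 (n 0 z (n 0 z (n 0 z
 (n 0 z (n 0 z (n 0 z (n 0 z (n 0 z (n 0 z (n 0 z (n 0 z (n 0 z (n 0 z (n 0 z (n 0 z (n 0 z (n 0
 z (n 0 z (n 0 z (n 0 z (n 0 z (n 0 z (n 0 z (n 0 z (n 7673403 z z)))))))))))))))))))))))))
 z))))) (n 0 (n 1 (n 0 z (n 0 z (n 0 z (n 0 z (n 0 z (n 0 z (n 0 z (n 0 z (n 0 z (n 0 z (n 0 z
 (n 0 z (n 0 z (n 0 z (n 0 z (n 0 z (n 0 z (n 0 z (n 0 z (n 0 z (n 0 z (n 0 z (n 0 z (n 0 z (n 0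
 z (n 0 z (n 0 z (n 0 z (n 0 z (n 0 z (n 0 z (n 0 z (n 0 z (n 0 z (n 0 z (n 0 z (n 0 z (n 0 z (n
 0 z (n 0 z (n 0 z (n 0 z (n 0 z (n 0 z (n 0 z (n 0 z (n 0 z (n 2 (n 0 z (n 0 z (n 0 z z))) (n 0
 z (n 0 z (n 0 z (n 0 z (n 0 z (n 0 z (n 0 z (n 0 z
 z)))))))))))))))))))))))))))))))))))))))))))))))))))))))) (n 1 (n 0 z (n 0 z (n 0 z (n 0 z (n 0
 z (n 0 z (n 0 z (n 0 z (n 0 z (n 0 z (n 0 z (n 0 z (n 0 z (n 0 z (n 0 z (n 0 z (n 0 z (n 0 z (n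
 0 z (n 0 z (n 0 z (n 0 z (n 0 z (n 0 z (n 0 z (n 0 z (n 0 z (n 0 z (n 0 z (n 0 z (n 0 z (n 0 z
 (n 0 z (n 0 z (n 0 z (n 0 z (n 0 z (n 0 z (n 0 z (n 0 z (n 0 z (n 0 z (n 0 z (n 0 z (n 0 z (n 0
 z (n 0 z (n 0 z (n 0 z (n 0 z (n 0 z (n 0 z (n 0 z (n 0 z (n 0 z (n 0 z
 z)))))))))))))))))))))))))))))))))))))))))))))))))))))))) (n 1 (n 0 z (n 0 z (n 0 z (n 0 z (n 0
 z (n 0 z (n 0 z (n 0 z (n 0 z (n 0 z (n 0 z (n 0 z (n 0 z (n 0 z (n 0 z (n 0 z (n 0 z (n 0 z (n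
 0 z (n 0 z (n 0 z (n 0 z (n 0 z (n 0 z (n 0 z (n 0 z (n 0 z (n 0 z (n 0 z (n 0 z (n 0 z (n 0 z
 (n 0 z (n 0 z (n 0 z (n 0 z (n 0 z (n 0 z (n 0 z (n 0 z (n 0 z (n 0 z (n 0 z (n 0 z (n 0 z (n 0
 z (n 0 z (n 0 z (n 0 z (n 0 z (n 0 z (n 0 z (n 0 z (n 0 z (n 0 z (n 0 z
 z)))))))))))))))))))))))))))))))))))))))))))))))))))))))) (n 1 (n 0 z (n 0 z (n 0 z (n 0 z (n 0
 z (n 0 z (n 0 z (n 0 z (n 0 z (n 0 z (n 0 z (n 0 z (n 0 z (n 0 z (n 0 z (n 0 z (n 0 z (n 0 z (n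
 0 z (n 0 z (n 0 z (n 0 z (n 0 z (n 0 z (n 0 z (n 0 z (n 0 z (n 0 z (n 0 z (n 0 z (n 0 z (n 0 z
 (n 0 z (n 0 z (n 0 z (n 0 z (n 0 z (n 0 z (n 0 z (n 0 z (n 0 z (n 0 z (n 0 z (n 0 z (n 0 z (n 0
 z (n 0 z (n 0 z (n 0 z (n 0 z (n 0 z (n 0 z (n 0 z (n 0 z (n 7673403 z (n 0 z
 z)))))))))))))))))))))))))))))))))))))))))))))))))))))))) z)))) (n 0 (n 0 z (n 0 z (n 0 z z)))
 (n 0 (n 0 z (n 0 z z)) (n 0 (n 0 z z) (n 0 z z))))))))))))))) (n 0 (n 0 z (n 1 (n 6496515 z (n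
 6496515 z (n 6496515 z (n 6496515 z (n 6496515 z (n 6496515 z z)))))) (n 1 (n 1228 z (n 2 z (n
 1228 z (n 6554411 z (n 1228 z (n 1228 z z)))))) (n 0 z (n 0 z z))))) (n 0 (n 0xc1bda57b405a (n
 0 (n 0 (n 7754035 z (n 7754035 z (n 7754035 z (n 7754035 z (n 7754035 z (n 7754035 z z)))))) z)
 (n 0 (n 365 (n 1 (n 4400907 z (n 7681067 z (n 1228 z (n 1212 z (n 1228 z (n 1228 z z)))))) (n 1
 (n 3282699 z (n 4396811 z (n 4396811 z (n 4396811 z (n 4396811 z (n 4396811 z z)))))) (n 1 (n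
 4396843 z (n 4396843 z (n 7602987 z (n 4396843 z (n 4396843 z (n 4396843 z z)))))) (n 1 (n
 6498059 z (n 1228 z (n 1228 z (n 7681067 z (n 1228 z (n 1228 z z)))))) (n 0 z (n 1 (n 6428427 z
 (n 3052 z (n 1228 z (n 7602987 z (n 1228 z (n 7681067 z z)))))) z)))))) (n 37 (n 0 z (n 1 (n
 0x41baa390301c0000099519504060000c6ecaea4007000007542751003800003a99390801c000036b90000006c7200000056e400003429c80000664b900000c1872000028986400008c28c80000ad499000006e83207fffdf80003c8000427fff447fffd27fff2d7fff217fff4380004e8002bd7fff718000247fffd37fffd38000897fff1c8000748001107fffbd7fffd07ffde180008a7fff898000887fffe280003b7fffdc8000107fffe67ffe128000ae8000737fff6d8000027fff788000457fff088000d38000927fff5b7fff328000d57ffdd98001e27ffff07fff4b8001598001277ffe057fff182a99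
 z (n 7754035 z (n 7673403 z (n 3244 z (n 7602987 z (n 3244 z z)))))) (n 1 (n 7545091 z (n
 7545091 z (n 7545091 z (n 7545091 z (n 7545091 z (n 7545091 z z)))))) (n 1 (n 7545091 z (n
 7545091 z (n 7545091 z (n 7545091 z (n 7545091 z (n 7545091 z z)))))) (n 1 (n 7545091 z (n
 7545091 z (n 7545091 z (n 7545091 z (n 7545091 z (n 7545091 z z)))))) (n 1 (n 7545091 z (n
 7545091 z (n 7545091 z (n 7545091 z (n 7545091 z (n 7545091 z z)))))) (n 1 (n 3244 z (n 7754035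
 z (n 7673403 z (n 3244 z (n 3244 z (n 3244 z z)))))) (n 0 z z)))))))) (n 419 (n 1 (n 7545091 z
 (n 2972 z (n 2972 z (n 2972 z (n 2972 z (n 2972 z z)))))) (n 1 (n 7545091 z (n 4396811 z (n
 4396811 z (n 4396811 z (n 4396811 z (n 4396811 z z)))))) (n 1 (n 7545091 z (n 4396843 z (n
 4396843 z (n 4396843 z (n 4396843 z (n 4396843 z z)))))) (n 1 (n 7545091 z (n 2972 z (n 412 z
 (n 2972 z (n 2972 z (n 2972 z z)))))) (n 0 z (n 1 (n 7545091 z (n 2972 z (n 2 z (n 2972 z (n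
 2972 z (n 2972 z z)))))) z)))))) (n 27 (n 0 z (n 1 (n 7545091 z (n 7545091 z (n 7545091 z (n
 7545091 z (n 7545091 z (n 7545091 z z)))))) (n 1 (n 7746843 z (n 7680355 z (n 7746843 z (n
 7746843 z (n 7746843 z (n 7746843 z z)))))) (n 0 z (n 0 z z))))) (n 57 (n 0 z (n 1 (n 6493963 z
 (n 1228 z (n 1228 z (n 1228 z (n 1228 z (n 1228 z z)))))) (n 1 (n 7545091 z (n 7545091 z (n
 7545091 z (n 7545091 z (n 7545091 z (n 7545091 z z)))))) (n 1 (n 1228 z (n 1228 z (n 7746843 z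
 (n 7734043 z (n 1228 z (n 1228 z z)))))) (n 1 (n 7545091 z (n 7545091 z (n 7545091 z (n 7545091
 z (n 7545091 z (n 7545091 z z)))))) (n 1 (n 7545091 z (n 7545091 z (n 7545091 z (n 7545091 z (n
 7545091 z (n 7545091 z z)))))) (n 0 z (n 1 (n 7602987 z (n 7602987 z (n 7734043 z (n 7602987 z
 (n 7602987 z (n 7746843 z z)))))) z)))))))) (n 51 (n 1 (n 7754035 z (n 7754035 z (n 7754035 z
 (n 7754035 z (n 7754035 z (n 7754035 z z)))))) (n 1 (n 7754035 z (n 7754035 z (n 7754035 z (n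
 7754035 z (n 7754035 z (n 7754035 z z)))))) (n 1 (n 6498059 z (n 1244 z (n 1244 z (n 7681067 z
 (n
 0x14bb2218900c00004dd0cc4080e0000ca9c80000194b90000032872000002786400001468c800004a499000005683207fffff8000128000008000307ffff680000d7fffab7fffeb80002280007b80000380000e8000017fffb68000137fffaf80002a8000087fffe780004f7fffa48000077fffb880003b80002f8000347ffff28000537fffd47fff9c80005d7fffe17ffff98000607ffff18000207fffab7fffd68000427fffe67fffd28000167fffbe8000787fffe87fffef8000548000077fffc87ffffa11d9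
 z (n 1244 z z)))))) (n 1 (n 6428427 z (n 1244 z (n 1244 z (n 7602987 z (n 1244 z (n 7681067 z
 z)))))) (n 1 (n 7545091 z (n 7545091 z (n 7545091 z (n 7545091 z (n 7545091 z (n 7545091 z
 z)))))) (n 0 z (n 0 z (n 1 (n 7545091 z (n 7545091 z (n 7545091 z (n 7545091 z (n 7545091 z (n
 7545091 z z)))))) (n 0 z (n 1 (n 1244 z (n 1244 z (n 7602987 z (n 1244 z (n 1244 z (n 10 z
 z)))))) (n 1 (n 7673403 z (n 7673403 z (n 7673403 z (n 7673403 z (n 7673403 z (n 6566515 z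
 z)))))) z))))))))))) (n 27 (n 0 z (n 1 (n 7545091 z (n 7545091 z (n 7545091 z (n 7545091 z (n
 7545091 z (n 7545091 z z)))))) (n 1 (n 7746843 z (n 7754035 z (n 7746843 z (n 7746843 z (n
 7746843 z (n 7746843 z z)))))) (n 0 z (n 0 z z))))) z))))))) (n 0 (n 0 (n 0 z (n 0 z z)) (n 0
 (n 0 z z) z)) (n 0 (n 405 (n 0 (n 0 z (n 0 z z)) (n 0 (n 0 z (n 0 z z)) (n 0 (n 0 z (n 0 z z))
 (n 0 (n 0 z (n 0 (n 8802611 z (n 8802611 z z)) z)) (n 0 (n 0 z (n 0 z z)) (n 0 (n 0 z (n 0 z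
 z)) (n 0 (n 0 (n 8802611 z z) (n 0 (n 8802611 z z) z)) (n 0 (n 0 (n 8722219 z z) (n 0 (n
 8860227 z z) z)) (n 0 (n 0 z (n 0 z z)) (n 0 (n 0 z (n 0 z z)) (n 0 (n 0 z (n 0 z z)) (n 0 (n 0
 z (n 0 z z)) (n 0 (n 0 z (n 0 z z)) (n 0 (n 0 (n 8728931 z (n 8728931 z z)) (n 0 (n 8864307 z
 (n 8864307 z z)) z)) (n 0 (n 0 (n 8802611 z z) (n 0 (n 8802611 z z) z)) (n 0 (n 0 z (n 0 z z))
 (n 0 (n 0 z (n 0 z z)) z))))))))))))))))) (n 419 (n 0 (n 0 z (n 0 z z)) (n 0 (n 0 z (n 0 z z))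
 (n 0 (n 0 z (n 0 z z)) (n 0 (n 0 z (n 0 z z)) (n 0 (n 0 z (n 0 z z)) (n 0 (n 0 z (n 0 z z))
 z)))))) (n 371 (n 0 (n 0 z (n 0 z z)) (n 0 (n 0 z (n 0 z z)) (n 0 (n 0 z (n 0 z z)) (n 0 (n 0 z
 (n 0 z z)) (n 0 (n 0 z (n 0 z z)) (n 0 (n 0 z (n 0 z z)) (n 0 (n 0 z (n 0 z z)) (n 0 (n 0 z (n
 0 z z)) (n 0 (n 0 z (n 0 z z)) (n 0 (n 0 z (n 0 z z)) (n 0 (n 0 z (n 0 z z)) z))))))))))) (n
 153 (n 0 (n 0 z (n 0 z z)) (n 0 (n 0 z (n 0 z z)) (n 0 (n 0 z (n 0 z z)) (n 0 (n 0 z (n 0 z z))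
 (n 0 (n 0 z (n 0 z z)) (n 0 (n 0 z (n 0 z z)) (n 0 (n 0 z (n 0 z z)) (n 0 (n 0 z (n 0 z z))
 z)))))))) (n 39 (n 0 (n 0 z (n 0 z z)) (n 0 (n 0 z (n 0 z z)) (n 0 (n 0 z (n 0 z z)) (n 0 (n 0
 z (n 0 z z)) (n 0 (n 0 z (n 0 z z)) (n 0 (n 0 z (n 0 z z)) (n 0 (n 0 z (n 0 z z)) (n 0 (n 0 z
 (n 0 z z)) z)))))))) (n 129 (n 0 (n 0 z (n 0 z z)) (n 0 (n 0 z (n 0 z z)) (n 0 (n 0 z (n 0 z
 z)) (n 0 (n 0 z (n 0 z z)) (n 0 (n 0 z (n 0 z z)) (n 0 (n 0 z (n 0 z z)) (n 0 (n 0 z (n 0 z z))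
 (n 0 (n 0 z (n 0 z z)) z)))))))) (n 153 (n 0 (n 0 z (n 0 z z)) (n 0 (n 0 z (n 0 z z)) (n 0 (n 0
 z (n 0 z z)) (n 0 (n 0 z (n 0 z z)) (n 0 (n 0 z (n 0 z z)) (n 0 (n 0 z (n 0 z z)) (n 0 (n 0 z
 (n 0 z z)) (n 0 (n 0 z (n 0 z z)) (n 0 (n 0 z (n 0 z z)) (n 0 (n 0 z (n 0 z z)) z)))))))))) (n
 57 (n 0 (n 0 z (n 0 z z)) (n 0 (n 0 (n 8722219 z z) (n 0 z z)) (n 0 (n 0 z (n 0 z z)) (n 0 (n 0
 z (n 0 z z)) (n 0 (n 0 z (n 0 z z)) (n 0 (n 0 (n 8593667 z z) (n 0 z z)) (n 0 (n 0 (n 8864339 z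
 z) (n 0 z z)) (n 0 (n 0 z (n 0 z z)) z)))))))) (n 51 (n 0 (n 0 z (n 0 z z)) (n 0 (n 0 z (n 0 z
 z)) (n 0 (n 0 z (n 0 z z)) (n 0 (n 0 z (n 0 z z)) (n 0 (n 0 z (n 0 z z)) (n 0 (n 0 z (n 0 z z))
 (n 0 (n 0 z (n 0 z z)) (n 0 (n 0 z (n 0 z z)) z)))))))) (n 123 (n 0 (n 0 z (n 0 z z)) (n 0 (n 0
 (n
 0x22e19422c3888b8719492777e976f847e845d6d818f9c6ea169746f73a6b5965969769070759f86948483827e8084909e6a79978b8a626a86628100c9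
 z (n 8787723 z z)) (n 0 z z)) (n 0 (n 0 z (n 0 z z)) (n 0 (n 0 z (n 0 z z)) (n 0 (n 0 z (n 0 z
 z)) (n 0 (n 0 z (n 0 z z)) (n 0 (n 0 z (n 0 z z)) (n 0 (n 0 z (n 0 z z)) (n 0 (n 0 z (n 0 z z))
 z))))))))) (n 155 (n 0 (n 0 z (n 0 z z)) (n 0 (n 0 z (n 0 z z)) (n 0 (n 0 (n 8802611 z z) (n 0
 z z)) (n 0 (n 0 z (n 0 z z)) (n 0 (n 0 z (n 0 z z)) (n 0 (n 0 z (n 0 z z)) (n 0 (n 0 z (n 0 z
 z)) (n 0 (n 0 z (n 0 z z)) (n 0 (n 0 (n 8802611 z (n 8802611 z z)) (n 0 (n 8802611 z (n 8802611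
 z z)) z)) (n 0 (n 0 z (n 0 (n 8802611 z (n 8802611 z z)) z)) (n 0 (n 0 z (n 0 z z)) (n 0 (n 0
 (n
 0x1387181807f80818080808080808180827e8081817f81807f7f80807f8180808080818080808280808080807f7f80807f7f817f800049
 z (n
 0x30eaec2807807f818080808080808080808080808080808080808080808080817f808080808080808080808080808080808080808080800809
 z z)) (n 0 (n 8864307 z (n 8864307 z z)) z)) (n 0 (n 0 (n 8652651 z z) (n 0 z z)) (n 0 (n 0 (n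
 8802611 z (n 8802611 z z)) (n 0 z z)) (n 0 (n 0 (n 8722219 z z) (n 0 z z)) (n 0 (n 0 z (n 0 z
 z)) (n 0 (n 0 z (n 0 z z)) (n 0 (n 0 z (n 0 z z)) (n 0 (n 0 z (n 0 z z)) (n 0 (n 0 (n 8855571 z
 z) (n 0 z z)) (n 0 (n 0 (n 8855571 z z) (n 0 z z)) (n 0 (n 0 (n 8728931 z (n 8728931 z z)) (n 0
 (n 8728931 z (n 8728931 z z)) z)) (n 0 (n 0 z (n 0 (n 8802611 z z) z)) (n 0 (n 0 (n 8855571 z
 z) (n 0 (n 8864307 z z) z)) (n 0 (n 0 z (n 0 z z)) (n 0 (n 0 z (n 0 z z)) (n 0 (n 0 z (n 0 (n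
 8856635 z (n 8790387 z z)) z)) (n 0 (n 0 z (n 0 z z)) (n 0 (n 0 z (n 0 z z)) (n 0 (n 0 (n
 8802611 z z) (n 0 z z)) (n 0 (n 0 z (n 0 z z)) (n 0 (n 0 z (n 0 z z))
 z)))))))))))))))))))))))))))))))) (n 57 (n 0 (n 0 z (n 0 z z)) (n 0 (n 0 z (n 0 z z)) (n 0 (n 0
 z (n 0 z z)) (n 0 (n 0 z (n 0 z z)) (n 0 (n 0 z (n 0 z z)) (n 0 (n 0 z (n 0 z z)) (n 0 (n 0 (n
 8593667 z z) (n 0 z z)) (n 0 (n 0 z (n 0 z z)) (n 0 (n 0 z (n 0 (n 8864307 z z) z)) (n 0 (n 0 z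
 (n 0 z z)) (n 0 (n 0 z (n 0 z z)) (n 0 (n 0 z (n 0 z z)) z)))))))))))) (n 51 (n 0 (n 0 z (n 0 z
 z)) (n 0 (n 0 z (n 0 (n 8802611 z z) z)) (n 0 (n 0 z (n 0 z z)) (n 0 (n 0 z (n 0 z z)) (n 0 (n
 0 z (n 0 z z)) (n 0 (n 0 z (n 0 z z)) (n 0 (n 0 z (n 0 z z)) (n 0 (n 0 z (n 0 z z)) (n 0 (n 0 z
 (n 0 z z)) (n 0 (n 0 z (n 0 z z)) (n 0 (n 0 z (n 0 z z)) z))))))))))) (n 27 (n 0 (n 0 z (n 0 z
 z)) (n 0 (n 0 z (n 0 z z)) (n 0 (n 0 z (n 0 (n 8728931 z (n 8728931 z z)) z)) (n 0 (n 0 z (n 0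
 z z)) (n 0 (n 0 z (n 0 z z)) (n 0 (n 0 z (n 0 (n 8728931 z z) z)) (n 0 (n 0 z (n 0 z z)) (n 0
 (n 0 z (n 0 z z)) (n 0 (n 0 z (n 0 z z)) (n 0 (n 0 z (n 0 z z)) (n 0 (n 0 z (n 0 z z)) (n 0 (n
 0 z (n 0 z z)) (n 0 (n 0 z (n 0 z z)) (n 0 (n 0 z (n 0 (n 8729643 z (n 8729643 z z)) z)) (n 0
 (n 0 (n 8593667 z z) (n 0 z z)) (n 0 (n 0 z (n 0 z z)) (n 0 (n 0 z (n 0 (n 8860227 z (n 8860227
 z z)) z)) (n 0 (n 0 z (n 0 z z)) (n 0 (n 0 (n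
 0x121da1d90060aca8ca820776807e7c7d8b8882817f7982807f8e7881888377737e7d82858077818b77777f81817a887485837d7f887b81827f87877f7f1009
 z (n 8787723 z z)) (n 0 (n
 0x1b872827f7e8081818080807f808180827e8081817e8180807f80807e8380808080817f808082807f7f81807f808080807f817f800049
 z (n
 0x5387285807b7b8a817d76877a81857f866f7e8a85828e807b79867f7e857f7d797e7e807d7d8281827c7f8e867d808184858184810049
 z z)) z)) (n 0 (n 0 z (n 0 z z)) (n 0 (n 0 (n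
 0x36e1d036c388db8719f9c727da366867d8649618297ab64b35d6e666cbcd3a2425b7199676fb08aa18584827b808698af5e77a49290505f8b518200c9
 z (n 8787723 z z)) (n 0 z z)) (n 0 (n 0 z (n 0 (n 8847899 z (n 8790387 z z)) z)) (n 0 (n 0 z (n
 0 (n 8860227 z z) z)) (n 0 (n 0 z (n 0 z z)) (n 0 (n 0 z (n 0 z z)) z)))))))))))))))))))))))))
 (n 1 (n 0 (n 0 z (n 0 z z)) (n 0 (n 0 z (n 0 z z)) (n 0 (n 0 z (n 0 z z)) (n 0 (n 0 z (n 0 (n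
 8802611 z z) z)) (n 0 (n 0 (n 8728931 z (n 8728931 z z)) (n 0 z z)) (n 0 (n 0 z (n 0 (n 8728931
 z (n 8728931 z z)) z)) (n 0 (n 0 z (n 0 z z)) (n 0 (n 0 z (n 0 (n 8728931 z (n 8728931 z z))
 z)) (n 0 (n 0 z (n 0 (n 8728931 z z) z)) (n 0 (n 0 z (n 0 z z)) (n 0 (n 0 z (n 0 z z)) (n 0 (n
 0 z (n 0 z z)) (n 0 (n 0 z (n 0 z z)) (n 0 (n 0 (n 8721979 z (n 8722219 z z)) (n 0 (n 8864307 z
 (n 8864307 z z)) z)) (n 0 (n 0 z (n 0 (n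
 0x10ecec6407827f80817f807f818080808080807f8080807f81808080808080817f7f80808080808081807f7f81807f80818081808080810809
 z (n 8790387 z z)) z)) (n 0 (n 0 z (n 0 z z)) (n 0 (n 0 z (n 0 (n 8651563 z (n 8790387 z z))
 z)) (n 0 (n 0 z (n 0 z z)) (n 0 (n 0 (n
 0x22e0c422c0808b8109492777f9670847e845c6c818f9c6ea16a747073a6b5965968769070759f86958383817d81838f9e6a7a978b8a626b87638200c9
 z (n 8652651 z z)) (n 0 z z)) (n 0 (n 0 (n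
 0x90c70c64078979807d847b7b86787a808481886a838a8179828c8e81787b858582757a8684818379837a818a867c8084897f7e837c78840809
 z (n
 0x6b871878079798c817c73897881887e876a7e8d858291817a77887f7e86807c777e7d807c7e8282837a7f92887e7f8185878086810049
 z z)) (n 0 (n 8861211 z (n 8861211 z z)) z)) (n 0 (n 0 (n 8722219 z z) (n 0 z z)) (n 0 (n 0 z
 (n 0 (n 8651563 z z) z)) (n 0 (n 0 z (n 0 z z)) (n 0 (n 0 z (n 0 z z)) (n 0 (n 0 z (n 0 z z))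
 (n 0 (n 0 z (n 0 z z)) (n 0 (n 0 z (n 0 z z)) (n 0 (n 0 z (n 0 z z)) (n 0 (n 0 z (n 0 z z)) (n
 0 (n 0 z (n 0 z z)) (n 0 (n 0 z (n 0 z z)) (n 0 (n 0 z (n 0 (n 8802611 z (n 8802611 z z)) z))
 (n 0 (n 0 (n 8802611 z (n 8802611 z z)) (n 0 z z)) (n 0 (n 0 z (n 0 (n 8802611 z z) z)) (n 0 (n
 0 z (n 0 (n 8864307 z z) z)) (n 0 (n 0 z (n 0 z z)) (n 0 (n 0 z (n 0 (n 8864307 z (n 8864307 z
 z)) z)) (n 0 (n 0 z (n 0 z z)) (n 0 (n 0 z (n 0 (n 8664875 z (n 8721979 z z)) z)) (n 0 (n 0 (n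
 0x30e70e0c037f8180808181807f8180827f80808080807f817f807f8080807e8180808280808081818080808080807f7f807f7f808080800809
 z (n
 0x5387185807a7b8a817d76877a81867f866f7e8a84828e817b79867f7e857f7d797e7e807d7e8282827b808e867d808184848183810049
 z z)) (n 0 (n 8847899 z (n 8847899 z z)) z)) (n 0 (n 0 z (n 0 z z)) (n 0 (n 0 (n 8802611 z (n
 8802611 z z)) (n 0 z z)) (n 0 (n 0 z (n 0 z z)) (n 0 (n 0 z (n 0 z z)) (n 0 (n 0 z (n 0 (n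
 8864307 z z) z)) (n 0 (n 0 (n 0x10a8c62e070821 z (n 7747659 z z)) (n 0 (n 8864307 z (n 8864307
 z z)) z)) (n 0 (n 0 z (n 0 (n 8864307 z z) z)) (n 0 (n 0 z (n 0 z z)) (n 0 (n 0 z (n 0 z z)) (n
 0 (n 0 z (n 0 (n
 0x61ca1c180600ec8ec840780818081808080808080808081808080818080808080807f80807f807f8080808080808080808080808080808080808080801009
 z z) z)) (n 0 (n 0 z (n 0 z z)) (n 0 (n 0 z (n 0 z z)) (n 0 (n 0 z (n 0 z z)) (n 0 (n 0 z (n 0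
 z z)) (n 0 (n 0 z (n 0 z z)) (n 0 (n 0 z (n 0 (n 8721979 z z) z))
 z)))))))))))))))))))))))))))))))))))))))))))))))))))))))) (n 153 (n 0 (n 0 z (n 0 z z)) (n 0 (n
 0 z (n 0 z z)) (n 0 (n 0 z (n 0 z z)) (n 0 (n 0 z (n 0 z z)) (n 0 (n 0 z (n 0 z z)) (n 0 (n 0
 (n 8864339 z z) (n 0 z z)) (n 0 (n 0 z (n 0 z z)) (n 0 (n 0 z (n 0 z z)) z)))))))) (n 57 (n 0
 (n 0 z (n 0 z z)) (n 0 (n 0 z (n 0 (n 8802611 z z) z)) (n 0 (n 0 z (n 0 z z)) (n 0 (n 0 z (n 0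
 z z)) (n 0 (n 0 z (n 0 z z)) (n 0 (n 0 z (n 0 z z)) (n 0 (n 0 z (n 0 z z)) (n 0 (n 0 z (n 0 z
 z)) (n 0 (n 0 z (n 0 z z)) (n 0 (n 0 z (n 0 z z)) (n 0 (n 0 z (n 0 (n
 0x30eb086403808080808080808180808080818080808080808080808080808080807f8080808080808080807f80808080818080808080800809
 z z) z)) (n 0 (n 0 z (n 0 z z)) z)))))))))))) (n 51 (n 0 (n 0 z (n 0 z z)) (n 0 (n 0 z (n 0 z
 z)) (n 0 (n 0 (n 8593667 z z) (n 0 z z)) (n 0 (n 0 z (n 0 z z)) (n 0 (n 0 z (n 0 z z)) (n 0 (n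
 0 z (n 0 z z)) (n 0 (n 0 z (n 0 z z)) (n 0 (n 0 z (n 0 z z)) (n 0 (n 0 z (n 0 z z)) (n 0 (n 0 z
 (n 0 z z)) (n 0 (n 0 (n
 0x30eaea2807807f81808080808080808081808080808080808080808080807f8180808081808080808080808080808080808080808080800809
 z z) (n 0 (n 8860227 z z) z)) (n 0 (n 0 z (n 0 z z)) (n 0 (n 0 z (n 0 (n 8795419 z z) z)) (n 0
 (n 0 z (n 0 z z)) (n 0 (n 0 z (n 0 z z)) z))))))))))))))) (n 27 (n 0 (n 0 z (n 0 z z)) (n 0 (n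
 0 z (n 0 z z)) (n 0 (n 0 z (n 0 z z)) (n 0 (n 0 z (n 0 z z)) (n 0 (n 0 z (n 0 z z)) z))))) (n 1
 (n 0 (n 0 z (n 0 z z)) (n 0 (n 0 z (n 0 z z)) (n 0 (n 0 z (n 0 z z)) (n 0 (n 0 z (n 0 z z)) (n
 0 (n 0 z (n 0 z z)) (n 0 (n 0 z (n 0 z z)) (n 0 (n 0 z (n 0 z z)) (n 0 (n 0 z (n 0 z z)) (n 0
 (n 0 z (n 0 z z)) (n 0 (n 0 z (n 0 (n 8864307 z z) z)) (n 0 (n 0 z (n 0 (n 8864307 z (n 8864307
 z z)) z)) (n 0 (n 0 z (n 0 z z)) (n 0 (n 0 z (n 0 z z)) (n 0 (n 0 z (n 0 z z)) (n 0 (n 0 (n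
 8864339 z (n 8864339 z z)) (n 0 (n
 0x6b871868079798c817c74897881877f876b7e8c868292817a77877f7e877f7c777e7d807c7d8382837a7f91887d7f8185868185810049
 z (n
 0x10e70e6207827e81817f807f818080808180807f8080817f8180808080807f827f7f80808080808081807f7f81807f80808081818080800809
 z z)) z)) z))))))))))))))) (n 0 (n 0 (n 0 z (n 0 z z)) (n 0 (n 0 z (n 0 z z)) (n 0 (n 0 (n
 0x5382085807b7b8a817d76877a81857f866f7e8a84828e817b79867f7e857f7d797e7d7f7c7d8282827b7f8e867f808084858185810049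
 z z) (n 0 z z)) (n 0 (n 0 z (n 0 z z)) (n 0 (n 0 z (n 0 z z)) (n 0 (n 0 (n
 0xa38308a80757593817a6d8e73828b7e8b5e7d9588839b8177728c7e7d8a7f79727d7b807a7b848484777f9b8c7b7f81888a8189820049
 z z) (n 0 z z)) (n 0 (n 0 z (n 0 z z)) (n 0 (n 0 z (n 0 (n 8782619 z z) z)) (n 0 (n 0 z (n 0 (n
 8864307 z (n 8864307 z z)) z)) (n 0 (n 0 z (n 0 (n 8864307 z z) z)) (n 0 (n 0 z (n 0 (n 8864307
 z z) z)) (n 0 (n 0 z (n 0 z z)) (n 0 (n 0 z (n 0 (n 8860227 z z) z)) (n 0 (n 0 (n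
 0xa38718a80757593817a6d8e73828b7e8b5e7d9588839b8177728c7e7d8a7f79727d7b807a7b848484777f9b8c7b7f81888a8189820049
 z (n 8722219 z z)) (n 0 (n 8860227 z (n 8860227 z z)) z)) (n 0 (n 0 z (n 0 (n 8860227 z z) z))
 (n 0 (n 0 (n 8782619 z (n 8782619 z z)) (n 0 (n 8860227 z (n 8860227 z z)) z)) (n 0 (n 0 z (n 0
 z z)) (n 0 (n 0 z (n 0 z z)) (n 0 (n 0 z (n 0 (n 8864307 z z) z)) (n 0 (n 0 z (n 0 z z)) (n 0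
 (n 0 z (n 0 z z)) (n 0 (n 0 z (n 0 (n 8847899 z (n 8847899 z z)) z)) (n 0 (n 0 z (n 0 z z)) (n
 0 (n 0 z (n 0 z z)) (n 0 (n 0 z (n 0 (n 8664875 z (n 8790387 z z)) z)) (n 0 (n 0 z (n 0 (n
 8782619 z (n 8782619 z z)) z)) (n 0 (n 0 z (n 0 (n 8802611 z z) z)) (n 0 (n 0 z (n 0 z z)) (n 0
 (n 0 z (n 0 z z)) (n 0 (n 0 z (n 0 (n 8802611 z (n 8802611 z z)) z)) (n 0 (n 0 (n 8802611 z (n
 8802611 z z)) (n 0 (n 8802611 z (n 8802611 z z)) z)) (n 0 (n 0 (n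
 0x83871888078778f817b718b7682897e89657c90878396817975897e7d877f7b757d7c807b7c838383797f968a7c7f8186888187810049
 z (n 8722219 z z)) (n 0 (n 8864307 z (n 8864307 z z)) z)) (n 0 (n 0 z (n 0 z z)) (n 0 (n 0 z (n
 0 (n 8664875 z (n 8856635 z z)) z)) (n 0 (n 0 z (n 0 (n 8664875 z (n 8790387 z z)) z)) (n 0 (n
 0 z (n 0 z z)) (n 0 (n 0 z (n 0 z z)) (n 0 (n 0 z (n 0 z z)) (n 0 (n 0 z (n 0 z z)) (n 0 (n 0 z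
 (n 0 (n 8802611 z z) z)) (n 0 (n 0 z (n 0 (n 8864307 z z) z)) (n 0 (n 0 (n 8873283 z (n 8873283
 z z)) (n 0 (n 8864307 z (n 8864307 z z)) z)) (n 0 (n 0 z (n 0 z z)) (n 0 (n 0 z (n 0 (n 8729643
 z (n 8729643 z z)) z)) (n 0 (n 0 z (n 0 z z)) (n 0 (n 0 z (n 0 (n 8856635 z z) z)) (n 0 (n 0 z
 (n 0 z z)) z))))))))))))))))))))))))))))))))))))))))))))))) z))))))))))))))))))))) z)))) z)
 z)))) (n 0x8f3943889a1a8550b44ea0a151310a79c04a4d029671025350226988031e60385101350819c440 (n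
 0x1350a (n 465 (n 0 z (n 0 z (n 0 z (n 2 z (n 0 z (n 10 z (n 0 z (n 0 z (n 0 z (n 3282443 z (n
 0 z (n 18 z (n 0 z (n 0 z (n 26 z (n 0 z (n 34 z z))))))))))))))))) (n 33 (n 0 z (n 0 z (n 42 z
 (n 0 z (n 0 z (n 0 z (n 0 z (n 3278363 z (n 50 z z))))))))) (n 9 (n 0 z (n 0 z (n 58 z (n 0 z
 (n 0 z (n 66 z (n 0 z (n 6632003 z z)))))))) (n 3 (n 0 z (n 0 z (n 74 z (n 6632003 z (n 0 z (n
 0 z (n 0 z z))))))) (n 1 (n 0 z (n 82 z (n 0 z (n 0 z (n 0 z (n 0 z (n 0 z (n 6558507 z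
 z)))))))) (n 0 (n
 0x63b2a218900c0000d59510c080600020ec8686040700001164343200180009ab21318800c0006ceb100000d9c6200001b36c4000099a9880000e14b100001c286200002338420000ade8840001cb49080001f882108000828000be80002780004e7fff5680004280001b80009d8001957ffee07ffe847fff648000b18001b67ffffc7fffda7fff028001bb7fff628000a07ffd2980015f7fffae80021d7ffecb7fff347fff528000348000347fff668000dd8000f67fff1c8000917fff908000327fffa88002db7ffe947ffdf37fffcc7ffec78002768000398003108000c07fff2d80049c8001c08003c12a99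
 z (n 0 z (n 90 z (n 98 z (n 106 z (n 0 z (n 114 z (n
 0x6ca88624038218a281e8de89c7218217e28227e079e7e082281d8607df86086082282171f8208a08208200801 z
 (n 0 z (n 0 z (n 6632003 z (n 6632003 z z)))))))))))) z)))))) (n 3 (n 0 (n 0 z (n 0 z (n 0 z (n
 0 z (n 499 (n 0 z (n 0 z (n 0 z (n 0 z (n 0 z (n 0 z (n 0 z (n 0 z (n 0 z (n 0 z (n 0 z (n 0 z
 (n 0 z (n 0 z (n 0 z (n 0 z z)))))))))))))))) (n 499 (n 0 z (n 0 z (n 0 z (n 0 z (n 0 z (n 0 z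
 (n 0 z (n 0 z (n 0 z (n 0 z (n 0 z (n 0 z (n 0 z (n 0 z (n 0 z (n 0 z z)))))))))))))))) (n 271
 (n 0 z (n 0 z (n 2 (n 0 z (n 1 z (n 1 z (n 1 z (n 1 z (n 2 (n 0 z (n 0 z (n 0 z (n 0 z (n 0 (n
 8871955 z z) (n 0 z z)))))) (n 2 (n 0 z (n 0 z (n 0 z (n 0 z (n 0 (n 8656747 z z) (n 0 z
 z)))))) z))))))) (n 0 z (n 0 z (n 0 z (n 0 z (n 0 z z)))))))) (n 271 (n 0 z (n 0 z (n 0 z (n 0
 z (n 0 z (n 0 z (n 0 z (n 0 z z)))))))) (n 267 (n 0 z (n 0 z (n 0 z (n 2 (n 1 z (n 2 (n 0 z (n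
 0 z (n 0 z (n 0 z (n 0 (n 8656747 z z) (n 0 z z)))))) (n 2 (n 0 z (n 0 z (n 0 z (n 0 z (n 0 z
 (n 0 z z)))))) (n 2 (n 0 z (n 0 z (n 0 z (n 0 z (n 0 z (n 0 z z)))))) (n 2 (n 0 z (n 0 z (n 0 z
 (n 0 z (n 0 z (n 0 z z)))))) z))))) (n 0 z (n 0 z (n 0 z (n 0 z (n 0 z z))))))))) (n 3 (n 0 z
 (n 0 z (n 0 z (n 0 z (n 0 z (n 0 z (n 0 z (n 0 z (n 0 z (n 0 z (n 0 z (n 0 z (n 0 z
 z))))))))))))) (n 265 (n 0 z (n 0 z (n 0 z (n 0 z (n 0 z (n 0 z (n 0 z (n 0 z (n 0 z (n 0 z (n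
 0 z (n 2 (n 0 z (n 0 z (n 0 z z))) z)))))))))))) (n 265 (n 0 z (n 0 z (n 0 z (n 0 z (n 0 z (n 0
 z (n 0 z (n 0 z (n 0 z (n 0 z (n 0 z (n 0 z z)))))))))))) (n 265 (n 0 z (n 0 z (n 0 z (n 0 z (n
 0 z (n 0 z (n 0 z (n 0 z (n 0 z (n 0 z (n 0 z (n 0 z z)))))))))))) (n 265 (n 0 z (n 0 z (n 0 z
 (n 0 z (n
 0x174374320382ea8c8640785e8a27207e18207df8618208218217df8208228207e081d7a07e28207e28618608618208201001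
 z (n 0 z (n 0 z (n 0 z (n 0 z (n 0 z (n 0 z (n 0 z z)))))))))))) z)))))))))))))) (n 0 (n 0 z (n
 0 z (n 0 z (n 763 (n 0 z (n 0 z (n 0 z (n 0 z (n 0 z (n 0 z (n 0 z (n 0 z (n 0 z (n 0 z (n 0 z
 (n 0 z (n 0 z (n 0 z (n 0 z z))))))))))))))) (n 763 (n 0 z (n 0 z (n 0 z (n 0 z (n 0 z (n 0 z
 (n 0 z (n 0 z (n 0 z (n 0 z (n 0 z (n 0 z (n 0 z (n 0 z (n 0 z z))))))))))))))) (n 23 (n 0 z (n
 0 z (n 0 z (n 0 z (n 0 z (n 0 z (n 0 z (n 0 z (n 0 z (n 0 z (n 0 z z))))))))))) (n 23 (n 0 z (n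
 0 z (n 2 (n 2 (n 0 z (n 0 z (n 0 z (n 0 z (n 0 z (n 0 z z)))))) (n 2 (n 0 z (n 0 z (n 0 z (n 0
 z (n 0 z (n 0 z z)))))) (n 2 (n 0 z (n 0 z (n 0 z (n 0 z (n 0 z (n 0 z z)))))) (n 2 (n 0 z (n 0
 z (n 0 z (n 0 z (n 0 z (n 0 z z)))))) (n 2 (n 0 z (n 0 z (n 0 z (n 0 z (n 0 z (n 0 z z)))))) (n
 2 (n 0 z (n 0 z (n 0 z (n 0 z (n 0 z (n 0 z z)))))) z)))))) (n 0 z (n 0 z (n 0 z (n 0 z (n 0 z
 (n 0 z (n 0 z (n 0 z z))))))))))) (n 267 (n 0 z (n 0 z (n 0 z (n 0 z (n 0 z (n 0 z (n 0 z (n 0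
 z (n 0 z (n 0 z (n 0 z (n 0 z z)))))))))))) (n 21 (n 0 z (n 0 z (n 0 z (n 0 z (n 0 z (n 0 z (n
 0 z (n 0 z (n 0 z (n 0 z (n 0 z (n 0 z (n 0 z (n 0 z (n 0 z (n 0 z (n 0 z (n 0 z (n 0 z (n 0 z
 (n 0 z (n 0 z (n 0 z (n 0 z (n 0 z (n 0 z (n 0 z (n 0 z (n 0 z (n 0 z (n 0 z (n 0 z
 z)))))))))))))))))))))))))))))))) (n 269 (n 0 z (n 0 z (n 0 z (n 0 z (n 0 z (n 0 z (n 2 (n 0 z
 (n 0 z (n 0 z z))) (n 0 z (n 0 z (n 0 z (n 0 z (n 0 z z)))))))))))) (n 269 (n 0 z (n 0 z (n 0 z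
 (n 0 z (n 0 z (n 0 z (n 0 z (n 0 z (n 0 z (n 0 z (n 0 z (n 0 z z)))))))))))) (n 269 (n 0 z (n 0
 z (n 0 z (n 0 z (n 0 z (n 0 z (n 0 z (n 0 z (n 0 z (n 0 z (n 0 z (n 0 z z)))))))))))) (n 269 (n
 0 z (n 0 z (n 0 z (n 0 z (n 0 z (n 0 z (n 0 z (n 0 z (n 0 z (n 0 z (n 2 z (n 0 z z))))))))))))
 z))))))))))))) (n 0 (n 0 z (n 0 z (n 119 (n 0 z (n 0 z (n 0 z (n 0 z (n 6620987 z (n 0 z (n 0 z
 (n 0 z (n 0 z z))))))))) (n 119 (n 0 z (n 0 z (n 0 z (n 0 z (n 0 z (n 6620971 z (n 0 z (n 0 z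
 (n 0 z z))))))))) (n 107 (n 0 z (n 6620987 z (n 0 z (n 0 z (n 0 z (n 0 z (n 0 z (n 0 z
 z)))))))) (n 107 (n 0 z (n 0 z (n 0 z (n 6620971 z (n 0 z (n 0 z (n 0 z (n 0 z z)))))))) (n 11
 (n 0 z (n 0 z (n 0 z (n 0 z (n 0 z (n 6620987 z (n 0 z (n 0 z (n 0 z (n 0 z (n 0 z (n 0 z
 z)))))))))))) (n 99 (n 0 z (n 6620987 z (n 0 z (n 0 z (n 0 z (n 0 z (n 0 z (n 0 z (n 0 z (n 0 z
 (n 0 z (n 0 z z)))))))))))) (n 13 (n 0 z (n 0 z (n 0 z (n 0 z (n 0 z (n 0 z (n 0 z (n 0 z (n 0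
 z (n 0 z (n 0 z (n 0 z z)))))))))))) (n 13 (n 0 z (n 0 z (n 0 z (n 0 z (n 2 (n 0 z (n 0 z z))
 (n 0 z (n 0 z (n 0 z (n 0 z (n 0 z (n 0 z (n 0 z z)))))))))))) (n 13 (n 0 z (n 0 z (n 0 z (n 2
 (n 0 z z) (n 0 z (n 0 z (n 0 z (n 0 z (n 0 z (n 0 z (n 0 z (n 0 z z)))))))))))) (n 13 (n 0 z (n
 0 z (n 0 z (n 0 z (n 0 z (n 0 z (n 0 z (n 0 z (n 0 z (n 0 z (n 0 z (n 0 z z))))))))))))
 z)))))))))))) (n 0 (n 0 z (n 1235 (n 0 z (n 0 z (n 0 z (n 0 z (n 0 z z))))) (n 1235 (n 0 z (n 0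
 z (n 0 z (n 0 z (n 0 z z))))) (n 1227 (n 0 z (n 0 z (n 0 z (n 2 (n 0 z (n 2 (n 0 z (n 0 z (n 0
 z (n 0 z (n 0 (n 8860939 z z) (n 0 z z)))))) (n 1 z (n 2 (n 0 z (n 0 z (n 0 z (n 0 z (n 0 (n
 1556 z z) (n 0 z z)))))) (n 2 (n 0 z (n 0 z (n 0 z (n 0 z (n 0 (n 8867891 z z) (n 0 z z))))))
 (n 2 (n 0 z (n 0 z (n 0 z (n 0 z (n 0 z (n 0 z z)))))) (n 2 (n 0 z (n 0 z (n 0 z (n 0 z (n 0 z
 (n 0 z z)))))) z))))))) (n 0 z (n 0 z (n 0 z (n 0 z (n 0 z (n 0 z (n 0 z (n 0 z (n 0 z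
 z))))))))))))) (n 1227 (n 0 z (n 0 z (n 0 z (n 0 z (n
 0x275265040184c86c8640789d75956275f867958962a9f75f8a286595d8607a04a399a76486485c61b9e776195c7e28df1001
 z (n 0 z (n 0 z (n 0 z (n 0 z (n 0 z (n 0 z (n 0 z (n 0 z z))))))))))))) (n 201 (n 0 z (n 0 z
 (n 0 z (n 0 z (n 2 (n 2 (n 0 z (n 0 z (n 0 z (n 0 z (n 0 z (n 0 z z)))))) (n 2 (n 0 z (n 0 z (n
 0 z (n 0 z (n 0 z (n 0 z z)))))) (n 2 (n 0 z (n 0 z (n 0 z (n 0 z (n 0 z (n 0 z z)))))) (n 2 (n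
 0 z (n 0 z (n 0 z (n 0 z (n 0 z (n 0 z z)))))) (n 2 (n 0 z (n 0 z (n 0 z (n 0 z (n 0 z (n 0 z
 z)))))) z))))) (n 0 z (n 0 z (n 0 z z)))))))) (n 1225 (n 0 z (n 0 z (n 2 (n 2 (n 0 z (n 0 z (n
 0 z (n 0 z (n 0 z (n 0 z z)))))) (n 2 (n 0 z (n 0 z (n 0 z (n 0 z (n 0 z (n 0 z z)))))) (n 2 (n
 0 z (n 0 z (n 0 z (n 0 z (n 0 z (n 0 z z)))))) (n 2 (n 0 z (n 0 z (n 0 z (n 0 z (n 0 z (n 0 z
 z)))))) z)))) (n 0 z (n 0 z (n 0 z (n 0 z (n 0 z z)))))))) (n 389 (n 0 z (n 0 z (n 0 z (n 0 z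
 (n 0 z (n 0 z (n 0 z z))))))) (n 389 (n 0 z (n 0 z (n 0 z (n 2 (n 0 z (n 0 z z)) (n 0 z (n 0 z
 (n 0 z z))))))) (n 389 (n 0 z (n
 0x275464320384c86c864078628a475f82382269d8e379d82381f9217de86575e7e181e79c86479c76286291d92282289e1001
 z (n 0 z (n 0 z (n 0 z (n 0 z (n 0 z z))))))) (n 389 (n 0 z (n 0 z (n 0 z (n 0 z (n 0 z (n 0 z
 (n 0 z z))))))) z))))))))))) (n 0 (n 139 (n 0 z (n 0 z (n 0 z (n 0 z (n 0 z z))))) (n 139 (n 0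
 z (n 0 z (n 0 z (n 0 z (n 0 z z))))) (n 135 (n 0 z (n 0 z (n 0 z (n 0 z (n 0 z (n 0 z (n 0 z (n
 0 z (n 0 z (n 0 z (n 0 z z))))))))))) (n 135 (n 0 z (n 0 z (n 0 z (n 0 z (n 0 z (n 0 z (n 0 z
 (n 0 z (n 0 z (n 0 z (n 0 z z))))))))))) (n 195 (n 0 z (n 0 z (n 0 z (n 0 z (n 0 z (n 0 z (n 0
 z z))))))) (n 133 (n 0 z (n 0 z (n 0 z (n 0 z (n 0 z (n 0 z (n 0 z (n 0 z (n 0 z (n 0 z (n 0 z
 (n 0 z (n 0 z (n 0 z z)))))))))))))) (n 97 (n 0 z (n 0 z (n 0 z (n 0 z (n 0 z (n 0 z (n 0 z (n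
 0 z z)))))))) (n 97 (n 0 z (n 0 z (n 0 z (n 0 z (n 0 z (n 0 z (n 0 z (n 0 z z)))))))) (n 97 (n
 0 z (n 0 z (n
 0x15a19308380c000035d51908c0600002eec4ec260700003b75164020180002ab98b20100c00004dd91d0c40e00002eec4e84207000249842000063e88400003a490800000982107fffe88000527fffa18000d47fff0280002180006f8000317fffd37fff507fffda8000657fffe68000f57fff6b8000cd7fffde80014580001080009380001f7fff3b7ffecd8000b87fffca7fff857fffc77ffeb180006b7ffeae7fffa07ffecc80016a7ffe3280029780007a8001f88002ae7ffe8e7ffdbe7ffdb67fff8e80002580004580015a7fff2c8000408003158000d78001923919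
 z (n 0 z (n 0 z (n 0 z (n 0 z (n 0 z z)))))))) (n 97 (n 0 z (n 0 z (n 0 z (n 0 z (n 0 z (n 0 z
 (n 0 z (n 0 z z)))))))) z)))))))))) (n 0 (n 0 z (n 347 (n 0 z (n 0 z (n 0 z (n 0 z (n 0 z (n 0
 z z)))))) (n 347 (n 0 z (n 0 z (n 2 (n 2 (n 0 z (n 0 z (n 0 z (n 0 z (n 0 z (n 0 z z)))))) (n 1
 z (n 2 (n 0 z (n 0 z (n 0 z (n 0 z (n 0 (n 244 z z) (n 0 z z)))))) (n 2 (n 0 z (n 0 z (n 0 z (n
 0 z (n 0 z (n 0 z z)))))) (n 2 (n 0 z (n 0 z (n 0 z (n 0 z (n 0 z (n 0 z z)))))) (n 2 (n 0 z (n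
 0 z (n 0 z (n 0 z (n 0 z (n 0 z z)))))) z)))))) (n 0 z (n 0 z (n 0 z z)))))) (n 55 (n 0 z (n 0
 z (n 0 z (n 0 z (n 0 z (n 0 z (n 0 z z))))))) (n 63 (n 0 z (n 0 z (n 0 z (n 0 z (n 0 z (n 0 z
 (n 0 z (n 0 z (n 0 z (n 0 z z)))))))))) (n 61 (n 0 z (n 0 z (n 0 z (n 0 z (n 0 z (n 0 z (n 0 z
 (n 0 z (n 0 z (n 0 z (n 0 z z))))))))))) (n 61 (n 0 z (n 0 z (n 0 z (n 0 z (n 0 z (n 0 z (n 0 z
 (n 0 z (n 0 z (n 0 z (n 0 z z))))))))))) (n 61 (n 0 z (n 0 z (n 0 z (n 0 z (n 0 z (n 0 z (n 0 z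
 (n 0 z (n 0 z (n 0 z (n 0 z z))))))))))) (n 61 (n 0 z (n 0 z (n 0 z (n 0 z (n 0 z (n 0 z (n 0 z
 (n 0 z (n 0 z (n 0 z (n 0 z z))))))))))) z))))))))) (n 0 (n 19 (n 0 z (n 2 (n 0 z (n 1 z (n 1 z
 (n 1 z (n 1 z (n 2 (n 0 z (n 0 z (n 0 z (n 0 z (n 0 (n 8790275 z z) (n 0 z z)))))) (n 2 (n 0 z
 (n 0 z (n 0 z (n 0 z (n 0 (n 196 z z) (n 0 z z)))))) z))))))) (n 0 z (n 0 z (n 0 z (n 0 z (n 0
 z (n 0 z z)))))))) (n 19 (n 0 z (n 0 z (n 0 z (n 0 z (n 0 z (n 0 z (n 0 z (n 0 z z)))))))) (n 7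
 (n 2 (n 1 z (n 2 (n 0 z (n 0 z (n 0 z (n 0 z (n 0 (n 196 z z) (n 0 z z)))))) (n 2 (n 0 z (n 0 z
 (n 0 z (n 0 z (n 0 z (n 0 z z)))))) (n 2 (n 0 z (n 0 z (n 0 z (n 0 z (n 0 z (n 0 z z)))))) (n 2
 (n 0 z (n 0 z (n 0 z (n 0 z (n 0 z (n 0 z z)))))) z))))) (n 0 z (n 0 z (n 0 z (n 0 z z))))) (n
 51 (n 0 z (n 0 z (n 0 z (n 0 z (n 0 z (n 0 z (n 0 z (n 0 z (n 0 z (n 0 z (n 0 z z))))))))))) (n
 49 (n 0 z (n 0 z (n 0 z (n 0 z (n 2 (n 0 z (n 0 z (n 0 z z))) (n 0 z (n 0 z (n 0 z (n 0 z (n 0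
 z (n 0 z z))))))))))) (n 49 (n 0 z (n 0 z (n 0 z (n 0 z (n 0 z (n 0 z (n 0 z (n 0 z (n 0 z (n 0
 z (n 0 z z))))))))))) (n 49 (n 0 z (n 0 z (n 0 z (n 0 z (n 0 z (n 0 z (n 0 z (n 0 z (n 0 z (n 0
 z (n 0 z z))))))))))) (n 49 (n 0 z (n 0 z (n 0 z (n 0 z (n 0 z (n 0 z (n 0 z (n 0 z (n 0 z (n 0
 z (n 0 z z))))))))))) z)))))))) (n 0 (n 0 z (n 295 (n 0 z (n 0 z (n 0 z (n 0 z (n 0 z (n 0 z (n
 0 z (n 0 z (n 0 z (n 0 z (n 0 z (n 0 z (n 0 z (n 0 z (n 0 z z))))))))))))))) (n 291 (n 0 z (n 0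
 z (n 0 z (n 0 z (n 0 z (n 0 z (n 0 z (n 0 z z)))))))) (n 293 (n 0 z (n 0 z (n 0 z (n 0 z (n 0 z
 (n 0 z (n 0 z (n 0 z (n 0 z (n 0 z (n 0 z z))))))))))) (n 293 (n 0 z (n 0 z (n 0 z (n 0 z (n 0
 z (n 0 z (n 0 z (n 0 z (n 0 z (n 0 z (n 0 z z))))))))))) (n 293 (n 0 z (n 0 z (n 0 z (n 0 z (n
 0 z (n 0 z (n 0 z (n 2 (n 0 z z) (n 0 z (n 0 z (n 0 z z))))))))))) (n 293 (n 0 z (n 0 z (n 2 z
 (n 0 z (n 0 z (n 0 z (n 0 z (n 0 z (n 0 z (n 0 z (n 0 z z))))))))))) z))))))) (n 0 (n 295 (n 0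
 z (n 0 z (n 0 z (n 0 z (n 0 z z))))) (n 3 (n 2 (n 2 (n 0 z (n 0 z (n 0 z (n 0 z (n 0 z (n 0 z
 z)))))) (n 2 (n 0 z (n 0 z (n 0 z (n 0 z (n 0 z (n 0 z z)))))) (n 2 (n 0 z (n 0 z (n 0 z (n 0 z
 (n 0 z (n 0 z z)))))) (n 2 (n 0 z (n 0 z (n 0 z (n 0 z (n 0 z (n 0 z z)))))) z)))) (n 0 z (n 0
 z (n 0 z (n 0 z (n 0 z (n 0 z (n 0 z (n 0 z z))))))))) (n 293 (n 0 z (n 0 z (n 0 z (n 0 z (n 0
 z (n 0 z (n 0 z (n 0 z (n 0 z (n 0 z (n 0 z (n 0 z (n 0 z (n 0 z (n 0 z (n 0 z (n 0 z (n 0 z (n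
 0 z (n 2 (n 0 z (n 0 z (n 0 z z))) (n 0 z (n 0 z (n 0 z (n 0 z (n 0 z
 z))))))))))))))))))))))))) (n 293 (n 2 (n 0 z (n 0 z z)) (n 0 z (n 0 z (n 0 z (n 0 z (n 0 z (n
 0 z (n 0 z (n 0 z (n 0 z (n 0 z (n 0 z (n 0 z (n 0 z (n 0 z (n 0 z (n 0 z (n 0 z (n 0 z (n 0 z
 (n 0 z (n 0 z (n 0 z (n 0 z (n 0 z z))))))))))))))))))))))))) (n 293 (n 0 z (n 0 z (n 0 z (n 0
 z (n 0 z (n 0 z (n 0 z (n 0 z (n 0 z (n 0 z (n 0 z (n 0 z (n 0 z (n 0 z (n 0 z (n 0 z (n 0 z (n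
 0 z (n 0 z (n 0 z (n 0 z (n 0 z (n 0 z (n 0 z (n 0 z z))))))))))))))))))))))))) (n 293 (n 0 z
 (n 0 z (n 0 z (n 0 z (n 0 z (n 0 z (n
 0x563275040184e86e8640781c9a08607e27e07dd85e8dd81f8e292089d8a57a076679b7206618da7e17e585f8617e87de1001
 z (n 0 z (n 0 z (n 0 z (n 0 z (n 0 z (n 0 z (n 0 z (n 0 z (n 0 z (n 0 z (n 0 z (n 0 z (n 0 z (n
 0 z (n 0 z (n 0 z (n 0 z (n 0 z z))))))))))))))))))))))))) z)))))) (n 0 (n 255 (n 0 z (n 0 z (n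
 0 z (n 0 z (n 0 z (n 0 z (n 0 z (n 0 z (n 0 z (n 0 z (n 0 z (n 0 z (n 0 z (n 0 z (n 0 z (n 0 z
 (n 0 z (n 0 z (n 0 z (n 0 z (n 0 z (n 0 z (n 0 z z))))))))))))))))))))))) (n 341 (n 0 z (n 0 z
 (n 0 z (n 0 z (n 0 z (n 0 z (n 0 z (n 0 z (n 0 z (n 0 z (n 0 z (n 0 z (n 0 z z))))))))))))) (n
 341 (n 0 z (n 0 z (n 0 z (n 0 z (n 0 z (n 0 z (n 0 z (n 0 z (n 0 z (n 0 z (n 0 z (n 0 z (n 0 z
 z))))))))))))) (n 341 (n 2 (n 0 z z) (n 0 z (n 0 z (n 0 z (n 0 z (n 0 z (n 0 z (n 0 z (n 0 z (n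
 0 z (n 0 z (n 0 z (n 0 z z))))))))))))) (n 341 (n 0 z (n 0 z (n 0 z (n 0 z (n 0 z (n 0 z (n 0 z
 (n 0 z (n 0 z (n 0 z (n 0 z (n 0 z (n 0 z z))))))))))))) z))))) (n 0 (n 265 (n 0 z (n 0 z (n 0
 z (n 0 z (n 0 z (n 0 z (n 0 z (n 0 z (n 0 z (n 0 z (n 0 z (n 0 z (n 0 z (n 0 z (n 0 z (n 0 z (n
 0 z (n 0 z (n 0 z (n 0 z (n 0 z (n 0 z (n 0 z (n 0 z (n 0 z (n 0 z (n 0 z (n 0 z (n 0 z (n 0 z
 (n 0 z (n 0 z (n 0 z (n 0 z (n 0 z (n 0 z (n 0 z (n 0 z (n 0 z (n 0 z (n 2 (n 0 z (n 0 z (n 0 z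
 z))) (n 0 z (n 0 z (n 0 z (n 0 z (n 0 z z)))))))))))))))))))))))))))))))))))))))))))))) (n 265
 (n 0 z (n 0 z (n 0 z (n 0 z (n 0 z (n 0 z (n 0 z (n 0 z (n 0 z (n 0 z (n 0 z (n 0 z (n 0 z (n 0
 z (n 0 z (n 0 z (n 0 z (n 0 z (n 0 z (n 0 z (n 0 z (n 0 z (n 0 z (n 0 z (n 0 z (n 0 z (n 0 z (n
 0 z (n 0 z (n 0 z (n 0 z (n 0 z (n 0 z (n 0 z (n 0 z (n 0 z (n 0 z (n 0 z (n 0 z (n 0 z (n 0 z
 (n 0 z (n 0 z (n 0 z (n 0 z (n 0 z z)))))))))))))))))))))))))))))))))))))))))))))) (n 265 (n 0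
 z (n 0 z (n 0 z (n 0 z (n 0 z (n 0 z (n 0 z (n 0 z (n 0 z (n 0 z (n 0 z (n 0 z (n 0 z (n 0 z (n
 0 z (n 0 z (n 0 z (n 0 z (n 0 z (n 0 z (n 0 z (n 0 z (n 0 z (n 0 z (n 0 z (n 0 z (n 0 z (n 0 z
 (n 0 z (n 0 z (n 0 z (n 0 z (n 0 z (n 0 z (n 0 z (n 0 z (n 0 z (n 0 z (n 0 z (n 0 z (n 0 z (n 0
 z (n 0 z (n 0 z (n 0 z (n 0 z z)))))))))))))))))))))))))))))))))))))))))))))) (n 265 (n 0 z (n
 0 z (n 0 z (n 0 z (n 0 z (n 0 z (n 0 z (n 0 z (n 0 z (n 0 z (n 0 z (n 0 z (n 0 z (n 0 z (n 0 z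
 (n 0 z (n 0 z (n 0 z (n 0 z (n 0 z (n 0 z (n 0 z (n 0 z (n 0 z (n 0 z (n 0 z (n 0 z (n 0 z (n 0
 z (n 0 z (n 0 z (n 0 z (n 0 z (n 0 z (n 0 z (n 0 z (n 0 z (n 0 z (n 0 z (n 0 z (n 0 z (n 0 z (n
 0 z (n 0 z (n 0 z (n 0 z z)))))))))))))))))))))))))))))))))))))))))))))) z)))) (n 0 (n 0 z (n 0
 z (n 0 z z))) (n 0 (n 0 z (n 0 z z)) (n 0 (n 0 z z) (n 0 z z))))))))))))))) (n 0 (n 0 z (n 0 z
 (n 1 (n 3724 z (n 2 z (n 3724 z (n 6558507 z (n 3724 z (n 3724 z z)))))) (n 1 (n 6632003 z (n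
 6632003 z (n 6632003 z (n 6632003 z (n 6632003 z (n 6632003 z z)))))) (n 0 z (n 0 z (n 0 z
 z))))))) (n 0 (n 0 (n 0 (n 0 (n 7753779 z (n 7753779 z (n 7753779 z (n 7753779 z (n 7753779 z
 (n 7753779 z z)))))) z) (n 0 (n 11 (n 0 z (n 1 (n 3724 z (n 3724 z (n 3724 z (n 7537179 z (n
 3724 z (n 7607083 z z)))))) (n 1 (n 7537179 z (n 3052 z (n 3724 z (n 7607083 z (n 3724 z (n
 6629195 z z)))))) (n 1 (n 3724 z (n 3724 z (n 7537179 z (n 3724 z (n 3724 z (n 3052 z z))))))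
 (n 1 (n 7680099 z (n 7680099 z (n 7680099 z (n 7680099 z (n 7680099 z (n 7680099 z z)))))) (n 1
 (n 6496627 z (n 7669307 z (n 7669307 z (n 7669307 z (n 7669307 z (n 7669307 z z)))))) (n 1 (n
 7753779 z (n 7753779 z (n 7753779 z (n 7753779 z (n 7753779 z (n 7753779 z z)))))) (n 1 (n
 7753779 z (n 7753779 z (n 7753779 z (n 7753779 z (n 7753779 z (n 7753779 z z)))))) (n 0 z (n 1
 (n 7680579 z (n 7680579 z (n 7680579 z (n 7680579 z (n 7680579 z (n 7680579 z z)))))) (n 1 (n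
 7680579 z (n 7680579 z (n 7680579 z (n 7680579 z (n 7680579 z (n 7680579 z z)))))) z)))))))))))
 (n 173 (n 1 (n 3244 z (n 3244 z (n 6563611 z (n 7607083 z (n 3244 z (n 268 z z)))))) (n 1 (n
 7542283 z (n 7542283 z (n 7542283 z (n 7542283 z (n 7542283 z (n 7542283 z z)))))) (n 1 (n 3244
 z (n 3244 z (n 3244 z (n 7607083 z (n 3244 z (n 6629195 z z)))))) (n 1 (n 3244 z (n 3244 z (n
 6498075 z (n 3244 z (n 3244 z (n 3244 z z)))))) (n 0 z (n 1 (n 7680579 z (n 7680579 z (n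
 7680579 z (n 7680579 z (n 7680579 z (n 7680579 z z)))))) z)))))) (n 293 (n 1 (n 2204 z (n 2204
 z (n 2204 z (n 2204 z (n 2204 z (n 2204 z z)))))) (n 1 (n 7542283 z (n 7542283 z (n 7542283 z
 (n 7542283 z (n 7542283 z (n 7542283 z z)))))) (n 1 (n 1180 z (n 6625099 z (n 5310251 z (n 2204
 z (n 2204 z (n 2204 z z)))))) (n 1 (n 2204 z (n 2204 z (n 76 z (n 2204 z (n 2204 z (n 2204 z
 z)))))) (n 0 z (n 1 (n 7680579 z (n 7680579 z (n 7680579 z (n 7680579 z (n 7680579 z (n 7680579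
 z z)))))) z)))))) (n 33 (n 1 (n 7680579 z (n 7680579 z (n 7680579 z (n 7680579 z (n 7680579 z
 (n 7680579 z z)))))) (n 0 z (n 0 z (n 0 z (n 1 (n 7542283 z (n 7542283 z (n 7542283 z (n
 7542283 z (n 7542283 z (n 7542283 z z)))))) (n 0 z (n 1 (n 1372 z (n 7537179 z (n 5310251 z (n
 1468 z (n 1468 z (n 1468 z z)))))) z))))))) (n 195 (n 0 z (n 0 z (n 0 z (n 1 (n 4172 z (n 4172
 z (n 4172 z (n 7537179 z (n 4172 z (n 7607083 z z)))))) (n 1 (n 3213099 z (n 3213099 z (n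
 7537179 z (n 3213099 z (n 3213099 z (n 3213099 z z)))))) (n 0 z (n 1 (n 7537179 z (n 4172 z (n
 4172 z (n 7607083 z (n 4172 z (n 6629195 z z)))))) (n 1 (n 7750971 z (n 7537179 z (n 7750971 z
 (n 7750971 z (n 7750971 z (n 7607083 z z)))))) z)))))))) (n 35 (n 1 (n
 0xe575464120380008fbaa320101c003285d4590080e00056aec48402070002077647420018007c7d720000f8f8e4000039adc800050553900002d297200012470e4000465e8840018654908001f3282107ff8568006347ffe1b801e4e7ffe0e8011eb7ff84b800c117ff9908008be7ff59d8018c67ff4f87ffbf07ff3a880000e7ffaed8001128009047ffc7d7fe6b07fe7747ff62380113c7ffae27ffdb17ffd8f80005280201a7ff6c38003ff8002c37ffc167ff1657ff36c8004d580125d8019027fe8b080073f7ffa7d7fe0ca801e957ff8e27ffb927ff4e47ff31c800f658023968016542a59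
 z (n 1916 z (n 1916 z (n 1916 z (n 7537179 z (n 1916 z z)))))) (n 0 z (n 1 (n 7542283 z (n
 7542283 z (n 7542283 z (n 7542283 z (n 7542283 z (n 7542283 z z)))))) (n 1 (n 1916 z (n 2164555
 z (n 1916 z (n 1916 z (n 1916 z (n 7537179 z z)))))) (n 0 z (n 0 z (n 0 z (n 0 z (n 1 (n
 7753779 z (n 7753779 z (n 7753779 z (n 7753779 z (n 7753779 z (n 7753779 z z)))))) (n 0 z (n 1
 (n 7680579 z (n 7680579 z (n 7680579 z (n 7680579 z (n 7680579 z (n 7680579 z z))))))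
 z))))))))))) (n 3 (n 0 z (n 0 z (n 1 (n 7746827 z (n 7753779 z (n 7746827 z (n 7746827 z (n
 7746827 z (n 7746827 z z)))))) (n 1 (n 7680579 z (n 7753779 z (n 7680579 z (n 7680579 z (n
 7680579 z (n 7680579 z z)))))) (n 0 z (n 0 z (n 0 z z))))))) z))))))) (n 0 z (n 0 (n 405 (n 0 z
 (n 0 z (n 0 z (n 0 z (n 0 z (n 0 z (n 0 z (n 0 z (n 0 z (n 0 z (n 0 z (n 0 z (n 0 z (n 0 z (n 0
 z z))))))))))))))) (n 275 (n 0 z (n 0 z (n 0 z (n 0 z (n 0 z (n 0 z (n 0 z (n 0 z (n 0 z (n 0 z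
 (n 0 z z))))))))))) (n 293 (n 0 z (n 0 z (n 0 z (n 0 z (n 0 z (n 0 z z)))))) (n 183 (n 0 z (n 0
 z (n 0 z (n 0 z (n 0 z (n 0 z (n 0 z (n 0 z (n 0 z (n 0 z (n 0 z (n 0 z z)))))))))))) (n 33 (n
 0 z (n 0 z (n 0 z (n 0 z (n 0 z (n 0 z (n 0 z z))))))) (n 171 (n 0 z (n 0 z (n 0 z (n 0 z (n 0
 z (n 0 z (n 0 z (n 0 z (n 0 z (n 0 z (n 0 z (n 0 z (n 0 z (n 0 z (n 0 z z))))))))))))))) (n 521
 (n 0 z (n 0 z (n 0 z (n 0 z (n 0 z (n 0 z (n 0 z (n 0 z (n 0 z (n 0 z (n 0 z (n 0 z (n 0 z (n 0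
 z (n 0 z (n 0 z (n 0 z (n 0 z (n 0 z (n 0 z (n 0 z (n 0 z (n 0 z (n 0 z (n 0 z (n 0 z (n 0 z (n
 0 z (n 0 z (n 0 z (n 0 z (n 0 z z)))))))))))))))))))))))))))))))) (n 33 (n 0 z (n 0 z (n 0 z (n
 0 z (n 0 z (n 0 z (n 0 z (n 0 z (n 0 z (n 0 z z)))))))))) (n 195 (n 0 z (n 0 z (n 0 z (n 0 z (n
 0 z (n 0 z (n 0 z (n 0 z z)))))))) (n 133 (n 0 z (n 0 z (n 0 z (n 0 z (n 0 z (n 0 z (n 0 z (n 0
 z (n 0 z (n 0 z (n 0 z (n 0 z (n 0 z (n 0 z (n 0 z (n 0 z (n 0 z (n 0 z (n 0 z (n 0 z (n 0 z (n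
 0 z (n 0 z z))))))))))))))))))))))) (n 239 (n 0 z (n 0 z (n 0 z (n 0 z (n 0 z (n 0 z (n 0 z (n
 0 z (n 0 z (n 0 z (n 0 z (n 0 z z)))))))))))) (n 35 (n 0 z (n 0 z (n 0 z (n 0 z (n 0 z (n 0 z
 (n 0 z (n 0 z (n 0 z (n 0 z (n 0 z z))))))))))) (n 221 (n 0 z (n 0 z (n 0 z (n 0 z (n 0 z (n 0
 z (n 0 z (n 0 z (n 0 z (n 0 z (n 0 z z))))))))))) (n 220 (n 0 z (n 0 z (n 0 z (n 0 z (n 0 z (n
 0 z (n 0 z (n 0 z (n 0 z (n 0 z (n 0 z (n 0 z (n 0 z z))))))))))))) (n 138 (n 0 z (n 0 z (n 0 z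
 (n 0 z (n 0 z (n 0 z (n 0 z (n 0 z (n 0 z (n 0 z (n 0 z (n 0 z (n 0 z (n 0 z (n 0 z (n 0 z (n 0
 z (n 0 z (n 0 z (n 0 z (n 0 z (n 0 z (n 0 z (n 0 z (n 0 z (n 0 z (n 0 z (n 0 z (n 0 z (n 0 z (n
 0 z (n 0 z (n 0 z (n 0 z (n 0 z (n 0 z (n 0 z (n 0 z (n 0 z (n 0 z (n 0 z (n 0 z (n 0 z (n 0 z
 (n 0 z (n 0 z z)))))))))))))))))))))))))))))))))))))))))))))) (n 465 (n 0 z (n 0 z (n 0 z (n 0
 z (n 0 z (n 0 z (n 0 z (n 0 z (n 0 z (n 0 z (n 0 z (n 0 z (n 0 z (n 0 z (n 0 z (n 0 z (n 0 z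
 z))))))))))))))))) (n 33 (n 0 z (n 0 z (n 0 z (n 0 z (n 0 z (n 0 z (n 0 z (n 0 z (n 0 z
 z))))))))) (n 9 (n 0 z (n 0 z (n 0 z (n 0 z (n 0 z (n 0 z (n 0 z (n 0 z z)))))))) (n 3 (n 0 z
 (n 0 z (n 0 z (n 0 z (n 0 z (n 0 z (n 0 z z))))))) (n 1 (n 0 z (n 0 z (n 0 z (n 0 z (n 0 z (n 0
 z (n 0 z (n 0 z z)))))))) (n 0 (n 0 z (n 0 z (n 0 z (n 0 z (n 0 z (n 0 z (n 0 z (n 0 z (n 0 z
 (n 0 z (n 0 z (n 0 z z)))))))))))) z))))))))))))))))))))) z)))) z) z)))) (n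
 0x16a4e961c4cb4225ad4192d308eb5202bce80eab40 (n 0 (n 153 (n 0 z (n 0 z (n 0 z (n 6358347 z (n 0
 z (n 0 z (n 2 z (n 0 z (n 0 z (n 6496339 z (n 10 z (n 0 z (n 0 z (n 18 z (n 0 z (n 0 z (n 0 z
 z))))))))))))))))) (n 33 (n 0 z (n 26 z (n 0 z (n 6358347 z (n 3278363 z (n 34 z (n 0 z (n 0 z
 z)))))))) (n 11 (n 0 z (n 42 z (n 0 z (n 0 z (n 6496339 z (n 0 z (n 0 z z))))))) (n 27 (n 50 z
 (n 6496339 z (n 0 z (n 0 z z)))) (n 1 (n 0 z (n 2164299 z (n 0 z (n 0 z (n 0 z (n 0 z (n 0 z (n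
 0 z z)))))))) (n 0 (n
 0x14b08028610807f827f80808282808082827f807e83807f80807f7f807d837f808181817f82817f81807d837f8280817f81817f7f7d817f0089
 z (n 2164315 z (n
 0x14b10028620807f827f80808282808082827f807e83807f80807f7f807d837f808181817f82817f81807d837f8280817f81817f7f7d817f0089
 z (n 0 z (n 0 z (n 0 z (n
 0x2c86c80207817f8181808081807f7f7e8181827f807f80807f807f7f8080808080817f8180808180817f8080817f80808080808080807f0809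
 z (n 58 z (n
 0x14b10028620807f827f80808282808082827f807e83807f80807f7f807d837f808181817f82817f81807d837f8280817f81817f7f7d817f0089
 z (n 0 z (n 0 z (n
 0x14b08028610807f827f80808282808082827f807e83807f80807f7f807d837f808181817f82817f81807d837f8280817f81817f7f7d817f0089
 z z)))))))))))) z)))))) (n 27 (n 0 (n 0 z (n 0 z (n 1179 (n 0 z (n 0 z (n 0 z (n 2 (n 0 z (n 1
 z (n 1 z (n 1 z z)))) (n 0 z (n 0 z (n 0 z (n 0 z (n 0 z (n 0 z (n 0 z (n 0 z (n 0 z (n 0 z (n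
 0 z (n 0 z (n 0 z z))))))))))))))))) (n 1179 (n 0 z (n 0 z (n 0 z (n 0 z (n 0 z (n 0 z (n 0 z
 (n 0 z (n 0 z (n 0 z (n 0 z (n 0 z (n 0 z (n 0 z (n 0 z (n 0 z (n 0 z z))))))))))))))))) (n 135
 (n 0 z (n 0 z (n 2 (n 1 z (n 1 z z)) (n 0 z (n 0 z (n 0 z (n 0 z (n 0 z (n 0 z (n 0 z (n 0 z (n
 0 z (n 0 z z))))))))))))) (n 1177 (n 0 z (n 0 z (n 0 z (n 0 z (n 0 z (n 2 (n 1 z z) (n 0 z (n 0
 z (n 0 z (n 0 z (n 0 z (n 0 z (n 0 z z))))))))))))) (n 305 (n 0 z (n 0 z (n 0 z (n 0 z (n 0 z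
 (n 0 z (n 0 z (n 0 z (n 0 z (n 0 z (n 0 z (n 0 z (n 0 z z))))))))))))) z))))))) (n 0 (n 0 z (n
 1179 (n
 0xac84ec2a07837886837c81898786797e84838a7980807f7f7e7e8182797e7f7b827f848281857f7d847886808580877583837683777f800809
 z (n 0 z (n 0 z (n 0 z (n 0 z (n 0 z (n 0 z (n 0 z (n 0 z (n 0 z (n 0 z (n 0 z (n 0 z (n 0 z (n
 0 z z))))))))))))))) (n 1179 (n 0 z (n 0 z (n 0 z (n 0 z (n 0 z (n 0 z (n 0 z (n 0 z (n 0 z (n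
 0 z (n 0 z (n 0 z (n 0 z (n 0 z (n 0 z z))))))))))))))) (n 1161 (n 0 z (n 0 z (n 0 z (n 0 z (n
 0 z (n 0 z z)))))) (n 1177 (n 0 z (n 0 z (n 0 z (n 0 z (n 0 z (n 0 z (n 0 z (n 0 z (n 0 z (n 0
 z (n
 0x8ec8ec820796668b90758a978a8a656e8f89996b89817f67787e848f777985727e7c818381968c6d8a6c9980887783568e7e5e936078870809
 z (n 0x329320980c000005d95d9040e000000ca6ca62031821 z (n 0 z (n 0 z (n 0 z (n 0 z (n 0 z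
 z))))))))))))))))) (n 305 (n 0 z (n 0 z (n 0 z (n 0 z (n 0 z (n 2 z (n 0 z (n 0 z z))))))))
 z)))))) (n 0 (n 1185 (n 0 z (n 0 z (n 0 z (n 0 z (n 0 z (n 0 z (n 0 z (n 0 z (n 0 z (n 2 (n 0 z
 (n 1 z (n 2 (n 0 z (n 0 z (n 0 z (n 0 z (n 0 z (n 0 z z)))))) (n 1 z z)))) (n 0 z (n 0 z (n 0 z
 z))))))))))))) (n 1185 (n 0 z (n 0 z (n 0 z (n 0 z (n 0 z (n 0 z (n 0 z (n 0 z (n 0 z (n 0 z (n
 0 z (n 0 z (n 0 z z))))))))))))) (n 259 (n 2 (n 2 (n 0 z (n 0 z (n 0 z (n 0 z (n 0 z (n 0 (n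
 4262011 z z) z)))))) (n 1 z z)) (n 0 z (n 0 z (n 0 z (n 0 z (n 0 z z)))))) (n 535 (n 2 (n 1 z
 z) (n 0 z (n 0 z (n 0 z (n 0 z (n 0 z (n 0 z z))))))) (n 289 (n 0 z (n 0 z (n 0 z (n 0 z (n 0 z
 (n 0 z (n 0 z (n 0 z (n 0 z (n 0 z (n 0 z (n 0 z (n 0 z z))))))))))))) z))))) (n 0 (n 0 z (n
 1287 (n 0 z (n 0 z (n 0 z (n 0 z (n 0 z (n 0 z (n 0 z (n 0 z (n 0 z (n 0 z (n 0 z (n 0 z
 z)))))))))))) (n 1285 (n 0 z (n 0 z (n 0 z (n 0 z (n 0 z (n 0 z (n 0 z (n 0 z (n 0 z (n 0 z (n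
 0 z (n 0 z (n 0 z (n 0 z (n 0 z (n 0 z (n 0 z (n 0 z (n 0 z (n 0 z (n 0 z (n 0 z (n 0 z (n 0 z
 (n 0 z (n 0 z (n 0 z (n 0 z (n 0 z (n 0 z (n 0 z (n 0 z (n 0 z (n 0 z (n 0 z (n 0 z (n 0 z (n 0
 z (n 0 z (n 0 z (n 0 z (n 0 z (n 0 z (n 0 z (n 0 z (n 0 z (n 0 z (n 0 z (n 0 z (n 0 z (n 0 z
 z))))))))))))))))))))))))))))))))))))))))))))))))))) (n 49 (n 0 z (n 0 z (n 0 z (n 0 z (n 0 z
 (n 0 z (n 0 z (n 0 z (n 0 z (n 0 z (n 0 z (n 0 z (n 0 z (n 0 z (n 0 z (n 2 z (n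
 0x2ec8e846078280808280818080827e7e827e827f8281807f7e807f827e80807f7d81807f8281837f7d827f827f7e7d7983817d817d81820809
 z (n 0 z (n 0 z (n 0 z (n 0 z (n 0 z (n 0 z (n 0 z (n 0 z (n 0 z (n 0 z (n 0 z
 z)))))))))))))))))))))))))))) z)))) (n 0 (n 107 (n 0 z (n 0 z (n 0 z (n 0 z (n 2 (n 2 (n 0 z (n
 0 z (n 0 z (n 0 z (n 0 z (n 0 z z)))))) (n 1 z z)) (n 0 z (n 0 z z))))))) (n 487 (n 2 (n 1 z z)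
 (n 0 z (n 0 z (n 0 z (n 0 z (n 0 z (n 0 z z))))))) (n 485 (n 0 z (n 0 z (n 0 z (n 0 z (n 0 z (n
 0 z (n 0 z (n 0 z (n 0 z (n 0 z (n 0 z (n 0 z (n 0 z (n 0 z (n 0 z (n 0 z (n 0 z (n 0 z (n 0 z
 (n 0 z z)))))))))))))))))))) z))) (n 0 (n 1333 (n 0 z (n 0 z (n 0 z (n 0 z (n 0 z (n 0 z (n 0 z
 z))))))) (n 13 (n 0 z (n 0 z (n 0 z (n 0 z (n 0 z (n 2 z (n 0 z (n 0 z (n 0 z (n 0 z (n 0 z
 z))))))))))) z)) (n 0 (n 49 (n 0 z (n 0 z (n 0 z (n 0 z (n 0 z (n 0 z (n 0 z (n 2 z (n 0 z (n 0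
 z (n 0 z (n 0 z z)))))))))))) z) (n 0 z z)))))))) (n 0 (n 1 (n 1228 z (n 1228 z (n 1228 z (n
 1228 z (n 1228 z (n 1228 z z)))))) (n 1 (n 6496339 z (n 6496339 z (n 6496339 z (n 6496339 z (n
 6496339 z (n 6496339 z z)))))) (n 0 z (n 0 z z)))) (n 0 z z)))) (n 0x851a8a3d00 (n 0 (n 179 (n
 6619675 z (n 3282443 z (n
 0x2a6438de8628dea18a9a95d9aa72066a6216268a38236ad99372275d86186849b92a7a07616b1a1a0041 z (n 2 z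
 (n 0 z (n 0 z (n 0 z z))))))) (n 39 (n 0 z (n 0 z (n 6496595 z (n 0 z (n 0 z (n 0 z (n 0 z
 z))))))) (n 129 (n 0 z (n 0 z (n 0 z (n 0 z (n 6496595 z (n 0 z (n 0 z (n 0 z (n 0 z z)))))))))
 (n 27 (n 0 z (n 0 z (n 0 z (n 0 z (n 6496595 z (n 6496595 z (n 0 z (n 0 z (n 0 z z))))))))) (n
 1 (n 10 z (n 2164299 z (n 0 z (n 0 z (n 0 z (n 0 z (n 0 z (n 0 z z)))))))) (n 0 (n 6619675 z (n
 0 z (n 0 z (n 0 z (n 0 z (n 0 z z)))))) z)))))) (n 0 (n 0 (n 351 (n 0 z (n 0 z (n 0 z (n 0 z (n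
 0 z (n 0 z (n 0 z (n 0 z (n 0 z z))))))))) z) (n 0 z z)) (n 0 (n 1 (n 6619675 z (n 6619675 z (n
 6619675 z (n 6496595 z (n 6619675 z (n 6619675 z z)))))) (n 0 z (n 0 z (n 0 z (n 0 z (n 0 z
 z)))))) (n 0 z z)))) (n 0x354229aa812d5480 (n 0 (n 153 (n 0 z (n 0 z (n 0 z (n 0 z (n 0 z (n 0
 z (n 0 z (n 0 z (n 2 z (n 3282443 z (n 0 z (n 0 z (n 0 z (n 0 z (n 0 z (n 0 z (n 0 z (n 0 z (n
 0 z (n 0 z (n 0 z (n 0 z (n 0 z (n 0 z (n 0 z (n 0 z z)))))))))))))))))))))))))) (n 261 (n 10 z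
 (n 0 z (n 0 z (n 3278363 z (n 0 z (n 0 z (n 0 z (n 0 z z)))))))) (n 129 (n 3212843 z (n 0 z (n
 0 z (n 18 z (n 0 z (n 0 z (n 0 z (n 0 z z)))))))) (n 29 (n 0 z (n 0 z (n 0 z (n 0 z (n 0 z (n
 6636291 z z)))))) (n 1 (n 0 z (n 0 z (n 0 z (n 0 z (n 0 z (n 0 z (n 0 z (n 6636291 z z))))))))
 (n 0 (n 0 z (n 0 z (n 0 z (n 0 z (n 0 z (n 0 z (n 0 z (n 0 z (n 0 z (n 6636291 z z))))))))))
 z)))))) (n 29 (n 0 (n 523 (n 0 z (n 0 z (n 0 z (n 0 z (n 0 z (n 0 z (n 0 z (n 0 z (n 0 z (n 0 z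
 (n 0 z (n 0 z (n 0 z (n 0 z (n 0 z (n 0 z (n 0 z (n 0 z (n 0 z (n 0 z (n 0 z (n 0 z (n 0 z (n 0
 z (n 0 z (n 0 z z)))))))))))))))))))))))))) (n 35 (n 0 z (n 0 z (n 0 z (n 0 z (n 0 z (n 0 z (n
 0 z (n 0 z (n 0 z (n 0 z (n 0 z (n 0 z (n 0 z (n 0 z (n 0 z (n 0 z (n 0 z (n 0 z (n 0 z (n 0 z
 (n 0 z (n 0 z (n 0 z (n 0 z (n 0 z (n 0 z z)))))))))))))))))))))))))) z)) (n 0 (n 275 (n 0 z (n
 0 z (n 0 z (n 0 z (n 0 z (n 0 z (n 0 z (n 0 z z)))))))) z) (n 0 z z))) (n 0 (n 0 z (n 0 z (n 0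
 z (n 0 z (n 0 z (n 1 (n 6636291 z (n 6636291 z (n 6636291 z (n 6636291 z (n 6636291 z (n
 6636291 z z)))))) z)))))) (n 0 z z)))) (n 0x23a1151d409ce4404cd3023a900e6700 (n 0 (n 153 (n 0 z
 (n 0 z (n 0 z (n 0 z (n 2 z (n 10 z (n 3282443 z (n 18 z (n 0 z (n 0 z (n 0 z (n 26 z (n 0 z
 z))))))))))))) (n 261 (n 0 z (n 34 z (n 0 z (n 0 z (n 3278363 z (n 0 z (n 0 z (n 0 z (n 0 z
 z))))))))) (n 129 (n 0 z (n 3212843 z (n 0 z (n 0 z (n 42 z (n 0 z (n 0 z (n 0 z (n 0 z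
 z))))))))) (n 29 (n 0 z (n 0 z (n 0 z (n 0 z (n 0 z (n 0 z (n 0 z (n 0 z (n 0 z (n 0 z (n 0 z
 (n 0 z (n 6636291 z z))))))))))))) (n 1 (n 0 z (n 0 z (n 0 z (n 0 z (n 0 z (n 0 z (n 0 z (n 0 z
 (n 0 z (n 6636291 z z)))))))))) (n 0 (n 0 z (n 0 z (n 0 z (n 0 z (n 0 z (n 0 z (n 0 z (n 0 z (n
 0 z (n 0 z (n 0 z (n 0 z (n 0 z (n 0 z (n 0 z (n 6636291 z z)))))))))))))))) z)))))) (n 261 (n
 0 (n 0 z (n 0 z (n 0 z (n 95 (n 0 z (n 0 z (n 0 z (n 0 z (n 0 z (n 0 z (n 0 z (n 0 z (n 2 (n 1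
 z z) (n 0 z (n 0 z z))))))))))) (n 203 (n 0 z (n 0 z (n 0 z (n 0 z (n 0 z (n 0 z (n 0 z (n 0 z
 (n 0 z (n 2 z (n 0 z (n 0 z (n 0 z (n 0 z z)))))))))))))) z))))) (n 0 (n 0 z (n 0 z (n 523 (n 0
 z (n 0 z (n 0 z (n 0 z (n 0 z (n 0 z (n 0 z (n 0 z (n 0 z (n 0 z (n 0 z (n 0 z (n 0 z
 z))))))))))))) (n 35 (n 0 z (n 0 z (n 0 z (n 0 z (n 0 z (n 0 z (n 0 z (n 0 z (n 0 z (n 0 z (n 0
 z (n 0 z (n 0 z z))))))))))))) z)))) (n 0 (n 0 z (n 523 (n 0 z (n 2 (n 1 z z) (n 0 z (n 0 z (n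
 0 z z))))) (n 23 (n 0 z (n 2 z (n 0 z (n 0 z (n 0 z (n 0 z (n 0 z (n 0 z (n 0 z (n 0 z (n 0 z
 z))))))))))) z))) (n 0 (n 163 (n 0 z (n 0 z (n 0 z (n 0 z (n 0 z (n 2 (n 1 z z) (n 0 z (n 0 z
 (n 0 z (n 0 z (n 0 z (n 0 z (n 0 z (n 0 z z)))))))))))))) (n 259 (n 0 z (n 0 z (n 2 z (n 0 z (n
 0 z z))))) z)) (n 0 (n 275 (n 0 z (n 0 z (n 0 z (n 0 z (n 0 z (n 0 z (n 0 z (n 0 z (n 0 z
 z))))))))) z) (n 0 z z)))))) (n 0 (n 0 z (n 1 (n 1228 z (n 236 z (n 1228 z (n 1228 z (n 1228 z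
 (n 1228 z z)))))) (n 0 z (n 0 z (n 1 (n 3278363 z (n 3278363 z (n 3278363 z (n 3278363 z (n
 3278363 z (n 3278363 z z)))))) (n 0 z (n 0 z (n 0 z (n 0 z z))))))))) (n 0 z z)))) (n
 0x2185d0e166bc126d60f46982cbd98513d0269460949c0ca (n 0 (n 399 (n 0 z (n 3282443 z (n 0 z (n 0 z
 (n 0 z (n 0 z (n 0 z z))))))) (n 263 (n 6558475 z (n 0 z (n
 0x2ca8ca86037e7f8081817e8181808084807d7c8080857f848181807c867f818080808081817f80817e7f807f8080808180838180807f800809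
 z (n
 0x2c86c8640780817e7f837f817f82808181827f7e817b8385837b807e837b807e84827c807c7f827f8480808182837d80817f7f7f7f837f0809
 z (n 0 z (n 0 z (n 0 z (n 0 z (n 0 z (n 0 z (n 0 z (n 0 z (n
 0x6ca8a84607827a7f84817f787c85848583807b7c8181808885778880877b80817d7f83837b807d82807b7a81808880818180887d7a7e7b0809
 z z))))))))))))) (n 129 (n 3212843 z (n 2 z (n 10 z (n
 0xaca8ca260781807e8c88857b79807b897a837b7e88767e8884788588867c7f7e847f81827e817b837c857c80808a84808283807b827e7f0809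
 z (n 18 z (n 0 z (n
 0x2ca8ca86037c7f80858180837d857a87867d78777e858188887a85818980867f7e807d7f7a83817d8283817f7e86807f857c877d8380810809
 z (n 0 z (n 0 z (n 0 z (n 0 z (n 0 z (n
 0xeca6ca080784767e9c7d85608372829e93716171838c7a9e9589977ca26d8d7c868479855f925f816a8483807d957a978785896f7783770809
 z (n 26 z z)))))))))))))) (n 3 (n 34 z (n 0 z (n 42 z (n 0 z (n 50 z (n
 0x2ca6a42803817f827f807f7f7f827f808082807f817c807f847e7f8280807d817f807f7f8080838282827e808082807e7e7b8080817f820809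
 z (n 0 z (n 0 z (n 0 z (n 2164283 z (n 0 z (n 0 z (n
 0x2ca6a42807807f807f808080808080808080808080808080808080808080808080808080808080808080808080808080808080808080800809
 z z))))))))))))) (n 1 (n 0 z (n 0 z (n 0 z (n 0 z (n 0 z (n 0 z (n 6558475 z (n 0 z (n 0 z (n 0
 z z)))))))))) (n 0 (n 0 z (n 58 z (n 66 z (n 0 z (n 6620219 z z))))) z)))))) (n 0 (n 0 (n 0 z
 (n 0 z (n 0 z (n 55 (n 0 z (n 0 z (n 0 z (n 0 z (n 0 z (n 0 z (n 0 z (n 0 z (n 0 z (n 0 z (n 0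
 z (n 0 z z)))))))))))) (n 55 (n 0 z (n 0 z (n 2 (n 0 z (n 2 (n 0 z (n 0 z (n 0 z (n 0 z (n 0 z
 (n 0 z z)))))) (n 2 (n 0 z (n 0 z (n 0 z (n 0 z (n 0 z (n 0 z z)))))) z))) (n 0 z (n 0 z (n 0 z
 (n 0 z (n 0 z (n 0 z (n 0 z (n 0 z (n 0 z z)))))))))))) (n 55 (n 0 z (n 0 z (n 0 z (n 0 z (n 0
 z (n 0 z (n 0 z (n 0 z (n 0 z (n 0 z (n 0 z (n 0 z z)))))))))))) (n 253 (n 0 z (n 0 z (n 0 z (n
 0 z (n 0 z (n 0 z (n 0 z (n 0 z (n 0 z (n 0 z (n 0 z (n 0 z (n 0 z (n 0 z (n 0 z (n 0 z (n 0 z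
 (n 0 z (n 0 z (n 0 z (n 0 z (n 0 z (n 0 z (n 0 z (n 0 z (n 0 z (n 0 z (n 0 z (n 0 z (n 0 z (n 0
 z (n 0 z (n 0 z (n 0 z (n 0 z (n 0 z (n 0 z (n 0 z (n 0 z (n 0 z (n 0 z (n 0 z (n 0 z (n 0 z (n
 0 z (n 0 z z)))))))))))))))))))))))))))))))))))))))))))))) (n 253 (n 0 z (n 0 z (n 0 z (n 0 z
 (n 0 z (n 0 z (n 0 z (n 0 z (n 0 z (n 0 z (n 0 z (n 0 z (n 0 z (n 0 z (n 0 z (n 0 z (n 0 z (n 0
 z (n 0 z (n 0 z (n 0 z (n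
 0x2ea8c84607817d808380807a7d807f8781827981807c808d867e83808b757a7e80807e827d7e807f7e7f8080808782808082867b7f80800809
 z (n
 0x51760868472928b8176707382848883796c8a8377868f738c8f9483968883788084727a6c80827e8e6e7f97948c837782758f807b0049
 z (n 0 z (n 0 z (n 0 z (n 0 z (n 0 z (n 0 z (n 0 z (n 0 z (n 0 z (n 0 z (n 0 z (n 0 z (n 0 z (n
 0 z (n 0 z (n 0 z (n 0 z (n 0 z (n 0 z (n 0 z (n 0 z (n 0 z (n 0 z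
 z)))))))))))))))))))))))))))))))))))))))))))))) z)))))))) (n 0 (n 0 z (n 0 z (n 7 (n 7741699 z
 (n 0 z (n 0 z (n 0 z (n 0 z (n 0 z (n 0 z (n 0 z (n 0 z (n 0 z (n 0 z (n 0 z (n 0 z (n 0 z (n 0
 z (n 0 z (n 0 z (n 0 z (n 0 z (n 0 z (n 0 z (n 0 z (n 0 z (n 0 z (n 0 z
 z))))))))))))))))))))))))) (n 7 (n 0 z (n 0 z (n 0 z (n 0 z (n
 0xcecaeca80372887c96958c85626b7b85809179638f954b7d927e8da59d8c947b7b727c8880825c808b909b657a88a3958a697a71a2807b0809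
 z (n
 0x4ecaeca8037a7f80868280847d877889887d76757d8681898a7987818a7f887e7e807d7f7984817c838481807d87827f867a887c8480800809
 z (n 0 z (n 0 z (n 0 z (n 0 z (n 0 z (n 0 z (n 0 z (n 0 z (n 0 z (n 0 z (n 0 z (n 0 z (n 0 z (n
 0 z (n 0 z (n 0 z (n 0 z (n 0 z (n 0 z z))))))))))))))))))))))))) (n 7 (n 0 z (n 0 z (n 0 z (n
 0 z (n 0 z (n 0 z (n 0 z (n 2 (n 1 z (n 1 z z)) (n 0 z (n 0 z (n 0 z (n 0 z (n 0 z (n 0 z (n 0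
 z (n 0 z (n 0 z (n 0 z (n 0 z (n 0 z (n 0 z (n 0 z (n 0 z (n 0 z (n 0 z
 z))))))))))))))))))))))))) (n 241 (n 0 z (n 0 z (n 0 z (n 0 z (n 0 z (n 0 z (n 0 z (n 0 z (n 0
 z (n 0 z (n 0 z (n 0 z (n 0 z (n 0 z (n 0 z (n 0 z (n 0 z (n 0 z (n 0 z (n 0 z (n 0 z (n 0 z (n
 0 z (n 0 z (n 0 z (n 0 z (n 0 z (n 0 z (n 0 z (n 0 z (n 0 z (n 0 z (n 0 z (n 0 z (n 0 z (n 0 z
 (n 0 z (n 0 z (n 0 z (n 0 z (n 0 z (n 0 z (n 0 z (n 0 z (n 0 z (n 0 z (n 0 z (n 0 z (n 0 z (n 0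
 z (n 0 z (n 0 z (n 0 z (n 0 z (n 0 z (n 0 z
 z)))))))))))))))))))))))))))))))))))))))))))))))))))))))) (n 241 (n 0 z (n 0 z (n 0 z (n 0 z (n
 0 z (n 0 z (n 0 z (n 0 z (n 0 z (n 0 z (n 0 z (n 0 z (n 0 z (n 0 z (n 0 z (n 0 z (n 0 z (n 0 z
 (n 0 z (n 0 z (n 0 z (n 0 z (n 0 z (n 0 z (n 0 z (n 0 z (n 0 z (n 0 z (n 0 z (n 0 z (n 0 z (n 0
 z (n 0 z (n 0 z (n 0 z (n 0 z (n 0 z (n 0 z (n 0 z (n 0 z (n 0 z (n 0 z (n 0 z (n 0 z (n 0 z (n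
 0 z (n 0 z (n 0 z (n 0 z (n 0 z (n 0 z (n 0 z (n 0 z (n 0 z (n 0 z (n 0 z
 z)))))))))))))))))))))))))))))))))))))))))))))))))))))))) z))))))) (n 0 (n 0 z (n 27 (n 0 z (n
 0 z (n 0 z (n 0 z (n 0 z (n 0 z (n 0 z (n 0 z (n 0 z (n 0 z (n 0 z (n 0 z z)))))))))))) (n 27
 (n 0 z (n 0 z (n 0 z (n 2 (n 0 z (n 2 (n 0 z (n 0 z (n 0 z (n 0 z (n 0 z (n 0 z z)))))) (n 2 (n
 0 z (n 0 z (n 0 z (n 0 z (n 0 z (n 0 z z)))))) z))) (n 0 z (n 0 z (n 0 z (n 0 z (n 0 z (n 0 z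
 (n 0 z (n 0 z z)))))))))))) (n 27 (n 0 z (n 0 z (n 0 z (n 0 z (n 0 z (n 0 z (n 0 z (n 0 z (n 0
 z (n 0 z (n 0 z (n 0 z z)))))))))))) (n 253 (n 0 z (n 0 z (n 2 (n 0 z z) (n 0 z (n 0 z (n 0 z
 (n 0 z (n 0 z (n 0 z (n 0 z (n 0 z z))))))))))) (n 253 (n 0 z (n 0 z (n 0 z (n 0 z (n 0 z (n 0
 z (n 0 z (n 2 z (n 0 z (n 0 z (n 0 z z))))))))))) z)))))) (n 0 (n 33 (n 0 z (n 0 z (n 0 z (n 0
 z (n 0 z (n 0 z (n 0 z (n 0 z (n 0 z (n 0 z (n 0 z (n 2 (n 0 z (n 0 z (n 2 (n 0 z (n 0 z (n 0 z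
 (n 0 z (n 0 (n 8855811 z z) (n 0 z z)))))) (n 2 (n 0 z (n 0 z (n 0 z (n 0 z (n 0 z (n 0 z
 z)))))) z)))) z)))))))))))) (n 33 (n 0 z (n 0 z (n 0 z (n 0 z (n 0 z (n 0 z (n 0 z (n 0 z (n 0
 z (n 0 z (n 0 z (n 0 z z)))))))))))) (n 33 (n 0 z (n 0 z (n 0 z (n 0 z (n 2 (n 2 (n 0 z (n 0 z
 (n 0 z (n 0 z (n 0 (n 8656747 z z) (n 0 z z)))))) (n 2 (n 0 z (n 0 z (n 0 z (n 0 z (n 0 z (n 0
 z z)))))) z)) (n 0 z (n 0 z (n 0 z (n 0 z (n 0 z (n 0 z (n 0 z z)))))))))))) (n 337 (n 0 z (n 0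
 z (n 0 z (n 2 (n 0 z z) (n 0 z (n 0 z (n 0 z (n 0 z (n 0 z (n 0 z (n 0 z z))))))))))) (n 337 (n
 0 z (n 0 z (n 0 z (n 0 z (n 2 z (n 0 z (n 0 z (n 0 z (n 0 z (n 0 z (n 0 z z))))))))))) z)))))
 (n 0 (n 0 z (n 0 z (n 61 (n 0 z (n 0 z (n 0 z (n 0 z (n 0 z (n 0 z (n 0 z (n 0 z (n 0 z (n 0 z
 (n 0 z (n 0 z (n 0 z (n 0 z (n 0 z (n 0 z (n 0 z (n 0 z (n 0 z (n 0 z (n 0 z (n 0 z (n 0 z (n 0
 z (n 0 z (n 0 z (n 0 z (n 0 z (n 0 z (n 0 z (n 0 z (n 0 z (n 0 z (n 0 z (n 0 z (n 0 z (n 0 z (n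
 0 z (n 0 z (n 0 z (n 0 z (n 0 z (n 0 z (n 0 z (n 0 z (n 0 z (n 0 z
 z))))))))))))))))))))))))))))))))))))))))))))))) (n 61 (n 0 z (n 0 z (n 0 z (n 0 z (n 0 z (n 0
 z (n 0 z (n 0 z (n 0 z (n 0 z (n 0 z (n 0 z (n 0 z (n 0 z (n 0 z (n 0 z (n
 0xac64ea2807837c81848080777c80808684847a80827a7b8e867e83828c727a7c807f80807c817f827a808280808c81807c8285777f81820809
 z (n 0 z (n 0 z (n 0 z (n 0 z (n 0 z (n 0 z (n 0 z (n 0 z (n 0 z (n 0 z (n 0 z (n 0 z (n 0 z (n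
 0 z (n 0 z (n 0 z (n 0 z (n 0 z (n 0 z (n 0 z (n 0 z (n 0 z (n 0 z (n 0 z (n 0 z (n 0 z (n 0 z
 (n 0 z (n 0 z (n 0 z z))))))))))))))))))))))))))))))))))))))))))))))) z)))) (n 0 (n 0 z (n 5 (n
 0 z (n 2 (n 0 z z) (n 0 z (n 0 z (n 0 z (n 0 z (n 0 z (n 0 z (n 0 z (n 0 z (n 0 z z)))))))))))
 (n 5 (n 0 z (n 0 z (n 0 z (n 0 z (n 0 z (n 0 z (n 0 z (n 0 z (n 0 z (n 0 z (n 0 z z)))))))))))
 z))) (n 0 (n 5 (n 0 z (n 0 z (n 0 z (n 0 z (n 0 z (n 0 z (n 0 z (n 2 (n 0 z z) (n 0 z (n 0 z (n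
 0 z z))))))))))) (n 5 (n 0 z (n 0 z (n 2 z (n 0 z (n 0 z (n 0 z (n 0 z (n 0 z (n 0 z (n 0 z (n
 0 z z))))))))))) z)) (n 0 (n 0 z z) (n 0 z z))))))))) (n 0 (n 0 z (n 1 (n 3196 z (n 3196 z (n
 3196 z (n 5506587 z (n 3196 z (n 3196 z z)))))) (n 1 (n 3196 z (n 3196 z (n 3196 z (n 3196 z (n
 3196 z (n 3196 z z)))))) (n 0 z (n 1 (n 6620219 z (n 6620219 z (n 6620219 z (n 6620219 z (n
 6620219 z (n 6620219 z z)))))) z))))) (n 0 z z)))) z)))))))))), by decide +kernel⟩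
theorem i11094 : ∃ t, chkR KT RW t 11094 11103 = true := ⟨(n
 0x4c94a169ad0a186e10c310c9499410a990294541294c144a6421 (n 0 (n 323 (n 3282443 z (n 0 z (n 0 z
 (n 0 z (n 0 z z))))) (n 255 (n 3278363 z (n 2 z (n 0 z (n 0 z z)))) (n 9 (n 0 z (n 0 z (n 10 z
 (n 18 z (n 26 z (n 3212843 z (n 0 z (n 0 z (n 34 z z))))))))) (n 27 (n 0 z (n 0 z (n 0 z (n 0 z
 (n 0 z (n 0 z (n 0 z (n 0 z (n 0 z (n 0 z (n 0 z (n 0 z (n 0 z (n 2164283 z z)))))))))))))) (n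
 1 (n 0 z (n 0 z (n 42 z (n 0 z (n 0 z (n 0 z (n 0 z (n 0 z (n 0 z (n 0 z (n 0 z (n 50 z (n
 6563131 z z))))))))))))) (n 0 (n 58 z (n 66 z (n 74 z (n 0 z (n 2164315 z z))))) z)))))) (n 255
 (n 0 (n 443 (n 0 z (n 0 z (n 0 z (n 0 z (n 0 z (n 0 z (n 0 z (n 0 z (n 0 z (n 0 z (n 0 z (n 0 z
 (n 0 z (n 0 z (n 0 z (n 0 z (n 0 z (n 0 z (n 0 z (n 0 z (n 0 z (n 0 z z))))))))))))))))))))))
 (n 443 (n 0 z (n 0 z (n 0 z (n 0 z (n 0 z (n 0 z (n 0 z (n 0 z (n 0 z (n 0 z (n 0 z (n 0 z (n 0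
 z (n 0 z (n 0 z (n 0 z (n 7677467 z (n 0 z (n 0 z (n 0 z (n 0 z (n 0 z z))))))))))))))))))))))
 (n 443 (n 0 z (n 0 z (n 0 z (n 0 z (n 0 z (n 0 z (n 0 z (n 0 z (n 0 z (n 0 z (n 0 z (n 0 z (n 0
 z (n 0 z (n 0 z (n 0 z (n 0 z (n 0 z (n 0 z (n 0 z (n 0 z (n 0 z z)))))))))))))))))))))) (n 443
 (n 0 z (n 0 z (n 0 z (n 0 z (n 0 z (n 0 z (n 2 (n 1 z (n 2 (n 0 z (n 0 z (n 0 z (n 0 z (n 0 z
 (n 0 z z)))))) (n 1 z (n 2 (n 0 z (n 0 z (n 0 z (n 0 z (n 0 z (n 0 z z)))))) (n 1 z z))))) (n 0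
 z (n 0 z (n 0 z (n 0 z (n 0 z (n 0 z (n 0 z (n 0 z (n 0 z (n 0 z (n 0 z (n 0 z (n 0 z (n 0 z (n
 0 z z)))))))))))))))))))))) (n 483 (n 0 z (n 0 z (n 0 z (n 0 z (n 0 z (n 0 z (n 0 z (n 0 z (n 0
 z (n 0 z (n 0 z z))))))))))) (n 483 (n 0 z (n 0 z (n 0 z (n 0 z (n 0 z (n 0 z (n 0 z (n 0 z (n
 0 z (n 0 z (n 0 z z))))))))))) (n 505 (n 0 z (n 0 z (n 2 (n 0 z (n 0 z z)) (n 0 z (n 0 z (n 0 z
 (n 0 z (n 0 z z)))))))) (n 505 (n 0 z (n 0 z (n 0 z (n 0 z (n 0 z (n 0 z (n 0 z (n 7754803 z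
 z)))))))) (n 505 (n 0 z (n 0 z (n 0 z (n 0 z (n 0 z (n 0 z (n 0 z (n 0 z z)))))))) z)))))))))
 (n 0 (n 0 z (n 0 z (n 0 z (n 249 (n 0 z (n 0 z (n 0 z (n 0 z (n 0 z (n 0 z (n 0 z z))))))) (n
 249 (n 0 z (n 2 (n 1 z (n 2 (n 0 z (n 0 z (n 0 z (n 0 z (n 0 z (n 0 z z)))))) (n 1 z z))) (n 0
 z (n 0 z (n 0 z (n 0 z (n 0 z z))))))) (n 13 (n 0 z (n 0 z (n 0 z (n 0 z (n 0 z (n 0 z (n 0 z
 z))))))) (n 13 (n 0 z (n 0 z (n 7754803 z (n 0 z (n 0 z (n 0 z (n 0 z z))))))) (n 13 (n 0 z (n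
 0 z (n 0 z (n 0 z (n 0 z (n 0 z (n 0 z z))))))) z)))))))) (n 0 (n 0 z (n 0 z (n 297 (n 0 z (n 0
 z (n 0 z (n 0 z (n 0 z (n 0 z (n 0 z (n 0 z (n 0 z (n 0 z (n 0 z (n 0 z (n 0 z (n 0 z (n
 6629147 z (n 0 z (n 0 z (n 0 z z)))))))))))))))))) (n 297 (n 0 z (n 0 z (n 0 z (n 0 z (n 0 z (n
 0 z (n 0 z (n 0 z (n 7741699 z (n 0 z (n 0 z (n 0 z (n 0 z (n 0 z (n 0 z (n 0 z (n 0 z (n 0 z
 z)))))))))))))))))) (n 1 (n 0 z (n 0 z (n 0 z (n 0 z (n 7741699 z (n 0 z (n 0 z (n 0 z (n 0 z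
 (n 0 z (n 0 z (n 0 z (n 0 z (n 0 z (n 0 z (n 0 z (n 0 z (n 0 z z)))))))))))))))))) (n 1 (n 0 z
 (n 0 z (n 0 z (n 0 z (n 0 z (n 0 z (n 0 z (n 0 z (n 0 z (n 0 z (n 0 z (n 0 z (n 0 z (n 0 z (n 0
 z (n 0 z (n 0 z (n 0 z z)))))))))))))))))) (n 1 (n 0 z (n 0 z (n 0 z (n 0 z (n 0 z (n 0 z (n 0
 z (n 0 z (n 2 z (n 0 z (n 0 z (n 0 z (n 0 z (n 0 z (n 0 z (n 0 z (n 0 z (n 0 z
 z)))))))))))))))))) z))))))) (n 0 (n 0 z (n 297 (n 0 z (n 0 z (n 0 z (n 0 z (n 0 z (n 0 z (n 0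
 z (n 0 z z)))))))) (n 297 (n 0 z (n 0 z (n 2 (n 1 z (n 2 (n 0 z (n 0 z (n 0 z (n 0 z (n 0 z (n
 0 z z)))))) (n 2 (n 0 z (n 0 z (n 0 z (n 0 z (n 0 z (n 0 z z)))))) z))) (n 0 z (n 0 z (n 0 z (n
 0 z (n 0 z z)))))))) (n 241 (n 2 (n 0 z (n 0 z z)) (n 0 z (n 0 z (n 0 z (n 0 z (n 0 z (n 0 z
 z))))))) (n 241 (n 0 z (n 0 z (n 0 z (n 0 z (n 0 z (n 0 z (n 0 z z))))))) (n 241 (n 0 z (n 0 z
 (n 2 z (n 0 z (n 0 z (n 0 z (n 0 z z))))))) z)))))) (n 0 (n 3 (n 2 (n 0 z (n 1 z (n 1 z (n 1 z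
 z)))) (n 0 z (n 0 z (n 0 z (n 0 z (n 0 z (n 0 z (n 0 z z)))))))) (n 3 (n 0 z (n 0 z (n 0 z (n 0
 z (n 0 z (n 0 z (n 0 z (n 0 z z)))))))) (n 49 (n 0 z (n 0 z (n 0 z (n 0 z (n 0 z (n 0 z (n 0 z
 (n 0 z (n 0 z z))))))))) (n 49 (n 0 z (n 0 z (n 2 (n 0 z z) (n 0 z (n 0 z (n 0 z (n 0 z (n 0 z
 (n 0 z z))))))))) (n 49 (n 0 z (n 0 z (n 0 z (n 0 z (n 0 z (n 0 z (n 0 z (n 0 z (n 0 z
 z))))))))) z))))) (n 0 (n 0 z (n 1 (n 0 z (n 0 z (n 0 z (n 0 z (n 0 z (n 2 (n 0 z (n 0 z z)) (n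
 0 z (n 0 z z)))))))) (n 1 (n 0 z (n 0 z (n 0 z (n 0 z (n 0 z (n 0 z (n 0 z (n 7754803 z
 z)))))))) (n 1 (n 0 z (n 0 z (n 0 z (n 0 z (n 0 z (n 0 z (n 0 z (n 0 z z)))))))) z)))) (n 0 (n
 73 (n 0 z (n 0 z (n 0 z (n 0 z (n 0 z (n 0 z (n 0 z (n 0 z (n 0 z (n 0 z (n 0 z (n 0 z (n 0 z
 (n 0 z (n 0 z (n 0 z (n 0 z (n 0 z (n 0 z (n 0 z (n 0 z (n 0 z (n 0 z (n 0 z (n 0 z (n 0 z
 z)))))))))))))))))))))))))) (n 73 (n 0 z (n 0 z (n 0 z (n 0 z (n 0 z (n 0 z (n 0 z (n 0 z (n 0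
 z (n 0 z (n 0 z (n 0 z (n 0 z (n 0 z (n 0 z (n 0 z (n 0 z (n 0 z (n 0 z (n 0 z (n 0 z (n 0 z (n
 0 z (n 0 z (n 0 z (n 7677515 z z)))))))))))))))))))))))))) (n 73 (n 0 z (n 0 z (n 0 z (n 0 z (n
 0 z (n 0 z (n 0 z (n 0 z (n 0 z (n 0 z (n 0 z (n 0 z (n 0 z (n 0 z (n 0 z (n 0 z (n 0 z (n 0 z
 (n 0 z (n 0 z (n 2 z (n 0 z (n 0 z (n 0 z (n 0 z (n 0 z z)))))))))))))))))))))))))) z))) (n 0
 (n 0 z (n 0 z z)) (n 0 (n 0 z z) (n 0 z z)))))))))) (n 0 (n 1 (n 3278363 z (n 3278363 z (n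
 3278363 z (n 3278363 z (n 3278363 z (n 3278363 z z)))))) (n 1 (n 2588 z (n 2588 z (n 2588 z (n
 2588 z (n 3212875 z (n 2588 z z)))))) (n 0 z (n 0 z z)))) (n 0 z z)))) (n
 0x6a62a2d6d51114686513682898856d44242a56112d50da6988535686956510139080ad6c0 (n 0 (n 183 (n 0 z
 (n 2 z (n 10 z (n 0 z (n
 0x2ca8a82407807f8180808080818080807f818080808080807f807f808081818080808080808080808080808080808080808080808080800809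
 z (n
 0x8ca8a86407806b858086967f8a6a8f918879807f80856a7b85707172977f7dab8775879285707d7fa26778688a7a90737378828a7e6f8b0809
 z (n 0 z (n 0 z (n 3282443 z (n 0 z (n
 0x2ca8a864077f80817e827f80808080817e818080808080817f807f808081808181808080817f808081808080808180817f807f808081800809
 z (n 0 z (n 0 z (n 0 z (n 0 z (n 18 z (n 0 z (n 0 z (n 0 z (n 0 z z)))))))))))))))))))) (n 33
 (n 0 z (n 0 z (n 3278363 z (n 0 z (n 0 z z))))) (n 129 (n 26 z (n 0 z (n 0 z (n 0 z (n 0 z (n 0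
 z (n 3212843 z (n 0 z z)))))))) (n 3 (n 34 z (n 42 z (n 0 z (n 0 z (n 0 z (n 50 z (n 2164283 z
 (n 0 z z)))))))) (n 1 (n 58 z (n 66 z (n 0 z (n 0 z (n 0 z (n 0 z (n 74 z (n 0 z (n 2164299 z
 z))))))))) (n 0 (n 0 z (n 82 z (n
 0xaca88604077b817f77a781816c937a808b77824b82997c849469867d7b81a6b0976474a5628b6e808076856f7090678274a77784678e820809
 z (n 90 z (n 0 z (n 98 z (n 2164315 z (n 106 z z)))))))) z)))))) (n 33 (n 0 (n 0 z (n 0 z (n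
 411 (n 0 z (n 0 z (n 0 z (n 0 z (n 0 z (n 0 z (n 0 z z))))))) (n 195 (n 0 z (n 0 z (n 0 z (n 2
 (n 0 z (n 0 z (n 1 z (n 1 z (n 2 (n 0 z (n 0 z (n 0 z (n 0 z (n 0 z (n 0 z z)))))) (n 2 (n 0 z
 (n 0 z (n 0 z (n 0 z (n 0 z (n 0 z z)))))) (n 1 z (n 1 z (n 2 (n 0 z (n 0 z (n 0 z (n 0 (n 1460
 z z) (n 0 (n 1460 z z) (n 0 (n 1460 z (n 1460 z z)) z)))))) z))))))))) (n 0 z (n 0 z (n 0 z (n
 0 z (n 0 z (n 0 z (n 0 z (n 0 z (n 0 z (n 0 z (n 0 z (n 0 z (n 0 z z))))))))))))))))) (n 195 (n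
 0 z (n 0 z (n 0 z (n 0 z (n 0 z (n 0 z (n 0 z (n 0 z (n 0 z (n 0 z (n 0 z (n 0 z (n 0 z (n 0 z
 (n 0 z (n 0 z (n 0 z z))))))))))))))))) (n 195 (n 0 z (n 2 (n 2 (n 0 z (n 0 z (n 0 z (n 0 z (n
 0 z (n 0 z z)))))) (n 2 (n 0 z (n 0 z (n 0 z (n 0 z (n 0 z (n 0 z z)))))) (n 2 (n 0 z (n 0 z (n
 0 z (n 0 z (n 0 z (n 0 z z)))))) (n 2 (n 0 z (n 0 z (n 0 z (n 0 z (n 0 z (n 0 z z)))))) (n 2 (n
 0 z (n 0 z (n 0 z (n 0 z (n 0 z (n 0 z z)))))) (n 2 (n 0 z (n 0 z (n 0 z (n 0 z (n 0 z (n 0 (n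
 8802883 z z) z)))))) (n 2 (n 0 z (n 0 z (n 0 z (n 0 z (n 0 z (n 0 z z)))))) z))))))) (n 0 z (n
 0 z (n 0 z (n 0 z (n 0 z (n 0 z (n 0 z (n 0 z (n 0 z (n 0 z (n 0 z (n 0 z (n 0 z (n 0 z (n 0 z
 z))))))))))))))))) (n 351 (n 0 z (n 0 z (n 2 (n 0 z (n 0 z (n 2 (n 0 z (n 0 z (n 0 z (n 0 z (n
 0 z (n 0 z z)))))) (n 1 z (n 1 z (n 2 (n 0 (n 8656427 z z) (n 0 z (n 0 (n 1460 z z) (n 0 z (n 0
 z (n 0 (n 1460 z (n 1460 z z)) z)))))) z)))))) (n 0 z (n 0 z (n 0 z (n 0 z (n 0 z (n 0 z (n 0 z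
 (n 0 z (n 0 z (n 0 z (n 0 z (n 0 z (n 0 z (n 0 z (n 0 z (n 0 z (n 0 z (n 0 z (n 0 z (n 0 z (n 0
 z (n 0 z (n 0 z z)))))))))))))))))))))))))) (n 351 (n 0 z (n 0 z (n 0 z (n 0 z (n 0 z (n 0 z (n
 0 z (n 0 z (n 0 z (n 0 z (n 0 z (n 0 z (n 0 z (n 0 z (n 0 z (n 0 z (n 0 z (n 0 z (n 0 z (n 0 z
 (n 0 z (n 0 z (n 0 z (n 0 z (n 0 z (n 0 z z)))))))))))))))))))))))))) (n 351 (n 0 z (n 0 z (n 0
 z (n 0 z (n 0 z (n 0 z (n 0 z (n 0 z (n 0 z (n 0 z (n 0 z (n 0 z (n 0 z (n 0 z (n 0 z (n 0 z (n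
 0 z (n 0 z (n 2 (n 2 (n 0 z (n 0 z (n 0 z (n 0 z (n 0 z (n 0 z z)))))) (n 2 (n 0 z (n 0 z (n 0
 z (n 0 z (n 0 z (n 0 z z)))))) (n 2 (n 0 z (n 0 z (n 0 z (n 0 z (n 0 z (n 0 z z)))))) (n 2 (n 0
 z (n 0 z (n 0 z (n 0 z (n 0 z (n 0 z z)))))) z)))) (n 0 z (n 0 z (n 0 z (n 0 z (n 0 z (n 0 z (n
 0 z z)))))))))))))))))))))))))) (n 365 (n 0 z (n 0 z (n 0 z (n 0 z (n 0 z (n 2 (n 0 z (n 0 z (n
 0 z z))) (n 0 z (n 0 z (n 0 z (n 0 z (n 0 z z))))))))))) (n 365 (n 0 z (n 0 z (n 0 z (n 0 z (n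
 2 (n 0 z (n 0 z z)) (n 0 z (n 0 z (n 0 z (n 0 z (n 0 z (n 0 z z))))))))))) (n 365 (n 0 z (n 0 z
 (n 0 z (n 0 z (n 0 z (n 0 z (n 0 z (n 0 z (n 0 z (n 0 z (n 0 z z))))))))))) (n 365 (n 0 z (n 2
 z (n 0 z (n 0 z (n 0 z (n 0 z (n 0 z (n 0 z (n 0 z (n 0 z (n 0 z z))))))))))) z))))))))))))) (n
 0 (n 0 z (n 271 (n 0 z (n 2 (n 1 z (n 1 z (n 2 (n 0 z (n 0 z (n 0 z (n 0 z (n 0 z (n 0 z
 z)))))) (n 1 z (n 1 z (n 2 (n 0 z (n 0 z (n 0 z (n 0 z (n 0 z (n 0 z z)))))) (n 2 (n 0 z (n 0 z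
 (n 0 z (n 0 z (n 0 z (n 0 z z)))))) (n 1 z (n 1 z (n 2 (n 0 (n 1076 z z) (n 0 z (n 0 (n 1076 z
 z) (n 0 z (n 0 z (n 0 (n 8656683 z (n 1076 z z)) z)))))) z)))))))))) (n 0 z (n 0 z (n 0 z (n 0
 z (n 0 z (n 0 z (n 0 z z))))))))) (n 267 (n 0 z (n 0 z (n 0 z (n 0 z (n 0 z (n 0 z (n 0 z (n 0
 z (n 0 z (n 0 z (n 0 z (n 0 z (n 0 z (n 0 z (n 0 z (n 0 z (n 0 z (n 0 z (n 0 z (n 0 z
 z)))))))))))))))))))) (n 267 (n 0 z (n 0 z (n 0 z (n 2 (n 0 z (n 1 z (n 1 z (n 2 (n 0 z (n 0 z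
 (n 0 z (n 0 z (n 0 z (n 0 z z)))))) (n 2 (n 0 z (n 0 z (n 0 z (n 0 z (n 0 z (n 0 z z)))))) (n 1
 z (n 1 z (n 2 (n 0 z (n 0 z (n 0 (n 1076 z z) (n 0 z (n 0 (n 1076 z z) (n 0 (n 1076 z (n 1076 z
 z)) z)))))) z)))))))) (n 0 z (n 0 z (n 0 z (n 0 z (n 0 z (n 0 z (n 0 z (n 0 z (n 0 z (n 0 z (n
 0 z (n 0 z (n 0 z (n 0 z (n 0 z (n 0 z z)))))))))))))))))))) (n 267 (n 0 z (n 0 z (n 0 z (n 0 z
 (n 0 z (n 0 z (n 0 z (n 0 z (n 0 z (n 0 z (n 0 z (n 0 z (n 0 z (n 0 z (n 2 (n 2 (n 0 z (n 0 z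
 (n 0 z (n 0 z (n 0 z (n 0 (n 8871955 z z) z)))))) (n 2 (n 0 z (n 0 z (n 0 z (n 0 z (n 0 z (n 0
 z z)))))) (n 2 (n 0 z (n 0 z (n 0 z (n 0 z (n 0 z (n 0 z z)))))) (n 2 (n 0 z (n 0 z (n 0 z (n 0
 z (n 0 z (n 0 z z)))))) (n 2 (n 0 z (n 0 z (n 0 z (n 0 z (n 0 z (n 0 z z)))))) (n 2 (n 0 z (n 0
 z (n 0 z (n 0 z (n 0 z (n 0 z z)))))) (n 2 (n 0 z (n 0 z (n 0 z (n 0 z (n 0 z (n 0 z z))))))
 z))))))) (n 0 z (n 0 z (n 0 z (n 0 z (n 0 z z)))))))))))))))))))) (n 255 (n 0 z (n 0 z (n 0 z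
 (n 0 z (n 0 z (n 0 z (n 0 z (n 0 z (n 0 z z))))))))) (n 255 (n 0 z (n 2 (n 0 z (n 2 (n 0 z (n 0
 z (n 0 z (n 0 z (n 0 z (n 0 z z)))))) (n 1 z (n 1 z (n 2 (n 0 z (n 0 z (n 0 (n 1076 z z) (n 0 z
 (n 0 (n 1076 z z) (n 0 (n 1076 z (n 1076 z z)) z)))))) z))))) (n 0 z (n 0 z (n 0 z (n 0 z (n 0
 z (n 0 z (n 0 z z))))))))) (n 255 (n 0 z (n 0 z (n 0 z (n 0 z (n 0 z (n 0 z (n 2 (n 1 z (n 1 z
 (n 2 (n 0 z (n 0 z (n 0 z (n 0 z (n 0 z (n 0 z z)))))) (n 2 (n 0 (n 8804171 z z) (n 0 z (n 0 z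
 (n 0 (n 8804171 z z) (n 0 z (n 0 (n 8589427 z (n 1076 z z)) z)))))) z)))) (n 0 z (n 0 z
 z))))))))) (n 269 (n 0 z (n 0 z (n 0 z (n 2 (n 0 z (n 0 z (n 0 z z))) (n 0 z (n 0 z (n 0 z (n 0
 z (n 0 z (n 0 z (n 0 z (n 0 z (n 0 z (n 0 z (n 0 z (n 0 z (n 0 z (n 0 z (n 0 z (n 0 z (n 0 z (n
 0 z (n 0 z (n 0 z (n 0 z z))))))))))))))))))))))))) (n 269 (n 0 z (n 0 z (n 0 z (n 0 z (n 0 z
 (n 0 z (n 0 z (n 0 z (n 0 z (n 0 z (n 0 z (n 0 z (n 0 z (n 0 z (n 0 z (n 0 z (n 0 z (n 0 z (n 0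
 z (n 0 z (n 0 z (n 0 z (n 0 z (n 0 z (n 0 z z))))))))))))))))))))))))) (n 269 (n 0 z (n 0 z (n
 0 z (n 0 z (n 0 z (n 0 z (n 2 (n 0 z z) (n 0 z (n 0 z (n 0 z (n 0 z (n 0 z (n 0 z (n 0 z (n 0 z
 (n 0 z (n 0 z (n 0 z (n 0 z (n 0 z (n 0 z (n 0 z (n 0 z (n 0 z (n 0 z
 z))))))))))))))))))))))))) (n 269 (n 0 z (n 0 z (n 0 z (n 0 z (n 0 z (n 0 z (n 0 z (n 0 z (n 0
 z (n 0 z (n 0 z (n 0 z (n 0 z (n 0 z (n 0 z (n 0 z (n 0 z (n 0 z (n 0 z (n 0 z (n 0 z (n 0 z (n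
 0 z (n 0 z (n 0 z z))))))))))))))))))))))))) z)))))))))))) (n 0 (n 19 (n 0 z (n 2 (n 2 (n 0 z
 (n 0 z (n 0 z (n 0 z (n 0 z (n 0 z z)))))) (n 2 (n 0 z (n 0 z (n 0 z (n 0 z (n 0 z (n 0 (n
 8868419 z z) z)))))) (n 2 (n 0 z (n 0 z (n 0 z (n 0 z (n 0 z (n 0 z z)))))) (n 2 (n 0 z (n 0 z
 (n 0 z (n 0 z (n 0 z (n 0 (n 60 z z) z)))))) (n 2 (n 0 z (n 0 z (n 0 z (n 0 z (n 0 z (n 0 (n
 3213435 z z) z)))))) (n 2 (n 0 z (n 0 z (n 0 z (n 0 z (n 0 z (n 0 z z)))))) (n 2 (n 0 z (n 0 z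
 (n 0 z (n 0 z (n 0 z (n 0 z z)))))) (n 2 (n 0 z (n 0 z (n 0 z (n 0 z (n 0 z (n 0 z z)))))) (n 2
 (n 0 z (n 0 z (n 0 z (n 0 z (n 0 z (n 0 (n 8868419 z z) z)))))) (n 2 (n 0 z (n 0 (n 52 z z) (n
 0 z (n 0 z (n 0 (n 52 z z) (n 0 (n 52 z (n 52 z z)) z)))))) z)))))))))) (n 0 z (n 0 z (n 0 z (n
 0 z (n 0 z z))))))) (n 267 (n 0 z (n 2 (n 0 z (n 0 z (n 2 (n 0 z (n 0 z (n 0 z (n 0 z (n 0 z (n
 0 (n 8871955 z z) z)))))) (n 2 (n 0 z (n 0 z (n 0 z (n 0 z (n 0 z (n 0 z z)))))) (n 2 (n 0 z (n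
 0 z (n 0 z (n 0 z (n 0 z (n 0 z z)))))) (n 2 (n 0 z (n 0 z (n 0 z (n 0 z (n 0 z (n 0 (n 8871955
 z z) z)))))) (n 2 (n 0 z (n 0 z (n 0 z (n 0 z (n 0 z (n 0 (n 8799003 z z) z)))))) (n 2 (n 0 z
 (n 0 z (n 0 z (n 0 z (n 0 z (n 0 z z)))))) (n 2 (n 0 z (n 0 z (n 0 z (n 0 z (n 0 z (n 0 z
 z)))))) z))))))))) (n 0 z (n 0 z (n 0 z (n 0 z (n 0 z (n 0 z (n 0 z (n 0 z (n 0 z (n 0 z (n 0 z
 (n 0 z z)))))))))))))) (n 267 (n 2 (n 0 z (n 2 (n 0 z (n 0 z (n 0 z (n 0 z (n 0 z (n 0 z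
 z)))))) (n 2 (n 0 z (n 0 z (n 0 z (n 0 z (n 0 z (n 0 (n 8847899 z z) z)))))) (n 2 (n 0 z (n 0 z
 (n 0 z (n 0 z (n 0 z (n 0 z z)))))) (n 2 (n 0 z (n 0 z (n 0 z (n 0 z (n 0 z (n 0 z z)))))) (n 2
 (n 0 z (n 0 z (n 0 z (n 0 z (n 0 z (n 0 z z)))))) (n 2 (n 0 z (n 0 z (n 0 z (n 0 z (n 0 z (n 0
 z z)))))) (n 2 (n 0 z (n 0 z (n 0 z (n 0 z (n 0 z (n 0 z z)))))) z)))))))) (n 0 z (n 0 z (n 0 z
 (n 0 z (n 0 z (n 0 z (n 0 z (n 0 z (n 0 z (n 0 z (n 0 z (n 0 z (n 0 z z)))))))))))))) (n 267 (n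
 0 z (n 0 z (n 0 z (n 0 z (n 0 z (n 0 z (n 0 z (n 0 z (n 0 z (n 0 z (n 0 z (n 0 z (n 0 z (n 0 z
 z)))))))))))))) (n 15 (n 0 z (n 2 (n 0 z (n 0 z (n 2 (n 0 z (n 0 z (n 0 z (n 0 z (n 0 z (n 0 (n
 8871955 z z) z)))))) (n 1 z (n 2 (n 0 z (n 0 z (n 0 z (n 0 z (n 0 z (n 0 z z)))))) (n 2 (n 0 z
 (n 0 (n 52 z z) (n 0 z (n 0 (n 1077 z z) (n 0 z (n 0 (n 52 z (n 52 z z)) z)))))) z)))))) (n 0 z
 (n 0 z (n 0 z (n 0 z (n 0 z (n 0 z (n 0 z z))))))))) (n 15 (n 2 (n 0 z (n 2 (n 0 z (n 0 z (n 0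
 z (n 0 z (n 0 z (n 0 z z)))))) (n 2 (n 0 z (n 0 z (n 0 z (n 0 z (n 0 z (n 0 z z)))))) (n 2 (n 0
 z (n 0 z (n 0 z (n 0 z (n 0 z (n 0 z z)))))) (n 2 (n 0 z (n 0 z (n 0 z (n 0 z (n 0 z (n 0 z
 z)))))) z))))) (n 0 z (n 0 z (n 0 z (n 0 z (n 0 z (n 0 z (n 0 z (n 0 z z))))))))) (n 15 (n 0 z
 (n 0 z (n 0 z (n 0 z (n 0 z (n 0 z (n 0 z (n 0 z (n 0 z z))))))))) (n 13 (n 0 z (n 0 z (n 0 z
 (n 0 z (n 0 z (n 0 z (n 0 z (n 0 z (n 0 z (n 0 z (n 0 z (n 0 z (n 0 z (n 0 z z)))))))))))))) (n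
 13 (n 0 z (n 0 z (n 0 z (n 0 z (n 0 z (n 0 z (n 0 z (n 0 z (n 0 z (n 0 z (n 0 z (n 0 z (n 0 z
 (n 0 z z)))))))))))))) (n 13 (n 0 z (n 0 z (n 0 z (n 0 z (n 0 z (n 0 z (n 0 z (n 0 z (n 0 z (n
 2 (n 0 z z) (n 0 z (n 0 z (n 0 z (n 0 z z)))))))))))))) (n 13 (n 0 z (n 0 z (n 0 z (n 0 z (n 0
 z (n 0 z (n 0 z (n 0 z (n 0 z (n 0 z (n 0 z (n 0 z (n
 0x14ea8c86407759f7575a05e8d57b4685e7f8f76597584a283847c92a66886a5758677698b54af5b954e908d8b5f9b429968c38b8d5da4880809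
 z (n 0 z z)))))))))))))) z))))))))))) (n 0 (n 7 (n 0 z (n 0 z (n 2 (n 0 z (n 0 z (n 1 z (n 1 z
 (n 1 z (n 1 z (n 1 z (n 1 z (n 1 z z))))))))) (n 0 z (n 0 z (n 0 z (n 0 z (n 0 z (n 0 z (n 0 z
 (n 0 z (n 0 z (n 0 z (n 0 z z)))))))))))))) (n 7 (n 0 z (n 0 z (n 0 z (n 0 z (n 0 z (n 0 z (n 0
 z (n 0 z (n 0 z (n 0 z (n 0 z (n 0 z (n 0 z (n 0 z z)))))))))))))) (n 7 (n 0 z (n 0 z (n 0 z (n
 0 z (n 0 z (n 0 z (n 0 z (n 0 z (n 2 (n 2 (n 0 z (n 0 z (n 0 z (n 0 z (n 0 z (n 0 (n 12 z z)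
 z)))))) (n 2 (n 0 z (n 0 z (n 0 z (n 0 z (n 0 z (n 0 (n 3213419 z z) z)))))) (n 2 (n 0 z (n 0 z
 (n 0 z (n 0 z (n 0 z (n 0 z z)))))) (n 2 (n 0 z (n 0 z (n 0 z (n 0 z (n 0 z (n 0 z z)))))) (n 2
 (n 0 z (n 0 z (n 0 z (n 0 z (n 0 z (n 0 z z)))))) (n 2 (n 0 z (n 0 z (n 0 z (n 0 z (n 0 z (n 0
 (n 8802883 z z) z)))))) (n 2 (n 0 z (n 0 (n 389 z z) (n 0 z (n 0 z (n 0 (n 1028 z z) (n 0 (n
 1028 z (n 1028 z z)) z)))))) z))))))) (n 0 z (n 0 z (n 0 z (n 0 z (n 0 z z)))))))))))))) (n 3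
 (n 0 z (n 2 (n 0 z (n 0 z (n 1 z (n 1 z (n 1 z (n 1 z z)))))) (n 0 z (n 0 z (n 0 z (n 0 z (n 0
 z (n 0 z (n 0 z (n 0 z (n 0 z (n 0 z z)))))))))))) (n 3 (n 0 z (n 0 z (n 0 z (n 0 z (n 0 z (n 0
 z (n 0 z (n 0 z (n 0 z (n 0 z (n 0 z (n 0 z z)))))))))))) (n 3 (n 0 z (n 0 z (n 0 z (n 2 (n 2
 (n 0 z (n 0 z (n 0 z (n 0 z (n 0 z (n 0 (n 8855811 z z) z)))))) (n 1 z (n 2 (n 0 z (n 0 z (n 0
 z (n 0 z (n 0 z (n 0 z z)))))) (n 2 (n 0 z (n 0 z (n 0 z (n 0 z (n 0 z (n 0 z z)))))) z)))) (n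
 0 z (n 0 z (n 0 z (n 0 z (n 0 z (n 0 z (n 0 z (n 0 z z)))))))))))) (n 257 (n 0 z (n 0 z (n 0 z
 (n 0 z (n 0 z (n 2 (n 0 z (n 0 z (n 0 z z))) (n 0 z (n 0 z (n 0 z (n 0 z (n 0 z (n 0 z
 z)))))))))))) (n 257 (n 0 z (n 0 z (n 0 z (n 0 z (n 0 z (n 0 z (n 2 (n 0 z (n 0 z z)) (n 0 z (n
 0 z (n 0 z (n 0 z (n 0 z z)))))))))))) (n 257 (n 0 z (n 0 z (n 0 z (n 0 z (n 0 z (n 0 z (n 0 z
 (n 0 z (n 0 z (n 0 z (n 0 z (n 0 z z)))))))))))) (n 257 (n 0 z (n 2 z (n 0 z (n 0 z (n 0 z (n 0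
 z (n 0 z (n 0 z (n 0 z (n 0 z (n 0 z (n 0 z z)))))))))))) z)))))))))) (n 0 (n 0 z (n 0 z (n 255
 (n 0 z (n 0 z (n 0 z (n 0 z (n 0 z (n 0 z (n 0 z (n 0 z (n 0 z (n 0 z (n 0 z (n 0 z (n 0 z (n 0
 z (n 0 z (n 0 z z)))))))))))))))) (n 255 (n 0 z (n 0 z (n 2 (n 0 z (n 1 z (n 1 z (n 1 z (n 1 z
 z))))) (n 0 z (n 0 z (n 0 z (n 0 z (n 0 z (n 0 z (n 0 z (n 0 z (n 0 z (n 0 z (n 0 z (n 0 z (n 0
 z z)))))))))))))))) (n 255 (n 0 z (n 0 z (n 0 z (n 0 z (n 0 z (n 0 z (n 0 z (n 2 (n 1 z (n 1 z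
 (n 2 (n 0 z (n 0 z (n 0 z (n 0 z (n 0 z (n 0 z z)))))) (n 2 (n 0 (n 8804171 z z) (n 0 (n
 8804171 z z) (n 0 z (n 0 z (n 0 z (n 0 (n 8589427 z (n 1364 z z)) z)))))) z)))) (n 0 z (n 0 z
 (n 0 z (n 0 z (n 0 z (n 0 z (n 0 z (n 0 z z)))))))))))))))) (n 341 (n 2 (n 0 z (n 0 z (n 0 z
 z))) (n 0 z (n 0 z (n 0 z (n 0 z (n 0 z (n 0 z (n 0 z z)))))))) (n 341 (n 0 z (n 0 z (n 0 z (n
 0 z (n 0 z (n 0 z (n 0 z (n 0 z z)))))))) (n 341 (n 0 z (n 0 z (n 0 z (n 2 (n 0 z z) (n 0 z (n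
 0 z (n 0 z (n 0 z z)))))))) (n 341 (n 0 z (n 0 z (n 0 z (n 0 z (n 0 z (n 0 z (n 0 z (n 0 z
 z)))))))) z))))))))) (n 0 (n 0 z (n 3 (n 2 (n 0 z (n 0 z (n 1 z (n 1 z (n 1 z (n 1 z z)))))) (n
 0 z (n 0 z (n 0 z (n 0 z (n 0 z (n 0 z (n 0 z (n 0 z z))))))))) (n 3 (n 0 z (n 0 z (n 0 z (n 0
 z (n 0 z (n 0 z (n 0 z (n 0 z (n 0 z z))))))))) (n 3 (n 0 z (n 0 z (n 0 z (n 2 (n 2 (n 0 z (n 0
 z (n 0 z (n 0 z (n 0 z (n 0 z z)))))) (n 2 (n 0 z (n 0 z (n 0 z (n 0 z (n 0 z (n 0 (n 8855811 z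
 z) z)))))) (n 2 (n 0 z (n 0 z (n 0 z (n 0 z (n 0 z (n 0 z z)))))) (n 2 (n 0 z (n 0 z (n 0 z (n
 0 z (n 0 z (n 0 z z)))))) z)))) (n 0 z (n 0 z (n 0 z (n 0 z (n 0 z z))))))))) (n 1 (n 0 z (n 0
 z (n 2 (n 0 z (n 0 z (n 0 z z))) (n 0 z (n 0 z (n 0 z (n 0 z (n 0 z (n 0 z (n 0 z (n 0 z
 z))))))))))) (n 1 (n 0 z (n 0 z (n 0 z (n 0 z (n 0 z (n 0 z (n 2 (n 0 z (n 0 z z)) (n 0 z (n 0
 z (n 0 z (n 0 z z))))))))))) (n 1 (n 0 z (n 0 z (n 0 z (n 0 z (n 0 z (n 0 z (n 0 z (n 0 z (n 0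
 z (n 0 z (n 0 z z))))))))))) (n 1 (n 0 z (n 0 z (n 0 z (n 0 z (n 0 z (n 0 z (n 0 z (n 0 z (n 0
 z (n 2 z (n 0 z z))))))))))) z)))))))) (n 0 (n 99 (n 0 z (n 2 (n 0 z (n 0 z (n 2 (n 0 z (n 0 z
 (n 0 z (n 0 z (n 0 z (n 0 (n 8790275 z z) z)))))) (n 1 z (n 2 (n 0 z (n 0 z (n 0 z (n 0 z (n 0
 z (n 0 z z)))))) (n 2 (n 0 z (n 0 (n 388 z z) (n 0 z (n 0 (n 388 z z) (n 0 z (n 0 (n 388 z (n
 388 z z)) z)))))) z)))))) (n 0 z (n 0 z (n 0 z (n 0 z (n 0 z z))))))) (n 99 (n 2 (n 0 z (n 2 (n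
 0 z (n 0 z (n 0 z (n 0 z (n 0 z (n 0 z z)))))) (n 2 (n 0 z (n 0 z (n 0 z (n 0 z (n 0 z (n 0 z
 z)))))) (n 2 (n 0 z (n 0 z (n 0 z (n 0 z (n 0 z (n 0 z z)))))) (n 2 (n 0 z (n 0 z (n 0 z (n 0 z
 (n 0 z (n 0 z z)))))) z))))) (n 0 z (n 0 z (n 0 z (n 0 z (n 0 z (n 0 z z))))))) (n 99 (n 0 z (n
 0 z (n 0 z (n 0 z (n 0 z (n 0 z (n 0 z z))))))) (n 97 (n 0 z (n 0 z (n 0 z (n 0 z (n 0 z (n 0 z
 (n 0 z (n 0 z (n 0 z z))))))))) (n 97 (n 0 z (n 0 z (n 0 z (n 0 z (n 0 z (n 0 z (n 0 z (n 0 z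
 (n 0 z z))))))))) (n 97 (n 0 z (n 0 z (n 0 z (n 0 z (n 0 z (n 0 z (n 2 (n 0 z z) (n 0 z (n 0 z
 z))))))))) (n 97 (n 0 z (n 0 z (n 0 z (n 0 z (n 0 z (n 0 z (n 0 z (n 0 z (n 0 z z)))))))))
 z))))))) (n 0 (n 0 z (n 0 z (n 269 (n 0 z (n 0 z (n 0 z (n 0 z (n 0 z (n 2 (n 0 z (n 0 z (n 0 z
 z))) (n 0 z (n 0 z (n 0 z (n 0 z (n 0 z (n 0 z (n 0 z (n 0 z (n 0 z (n 0 z (n 0 z (n 0 z (n 0 z
 (n 0 z (n 0 z (n 0 z (n 0 z (n 0 z (n 0 z (n 0 z (n 0 z (n 0 z (n 0 z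
 z))))))))))))))))))))))))))))) (n 269 (n
 0x2c760807e83807f807e827f7f827f81807f808080807f8180807f827f80817e817e807e7f7f837f827d82817f8181807f828081810049
 z (n 0 z (n 0 z (n 0 z (n 0 z (n 0 z (n 0 z (n 0 z (n 0 z (n 0 z (n 0 z (n 0 z (n 0 z (n 0 z (n
 0 z (n 0 z (n 0 z (n 0 z (n 0 z (n 0 z (n 0 z (n 0 z (n 0 z (n 0 z (n 0 z (n 0 z (n 0 z (n 0 z
 (n 0 z z))))))))))))))))))))))))))))) (n 269 (n 0 z (n 0 z (n 0 z (n 0 z (n 0 z (n 0 z (n 0 z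
 (n 0 z (n 2 (n 0 z z) (n 0 z (n 0 z (n 0 z (n 0 z (n 0 z (n 0 z (n 0 z (n 0 z (n 0 z (n 0 z (n
 0 z (n 0 z (n 0 z (n 0 z (n 0 z (n 0 z (n 0 z (n 0 z (n 0 z (n 0 z
 z))))))))))))))))))))))))))))) (n 269 (n 0 z (n 0 z (n 0 z (n 0 z (n 0 z (n 0 z (n 0 z (n 0 z
 (n 0 z (n 0 z (n 0 z (n 0 z (n 0 z (n 0 z (n 0 z (n 0 z (n 0 z (n 0 z (n 0 z (n 0 z (n 0 z (n 0
 z (n 0 z (n 0 z (n 0 z (n 0 z (n 0 z (n 0 z (n 0 z z))))))))))))))))))))))))))))) z)))))) (n 0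
 (n 0 z (n 5 (n 2 (n 0 z (n 0 z (n 0 z z))) (n 0 z (n 0 z (n 0 z (n 0 z (n 0 z (n 0 z (n 0 z (n
 0 z (n 0 z (n 0 z (n 0 z z)))))))))))) (n 5 (n 0 z (n 2 (n 0 z (n 0 z z)) (n 0 z (n 0 z (n 0 z
 (n 0 z (n 0 z (n 0 z (n 0 z (n 0 z (n 0 z (n 0 z z)))))))))))) (n 5 (n 0 z (n 0 z (n 0 z (n 0 z
 (n 0 z (n 0 z (n 0 z (n 0 z (n 0 z (n 0 z (n 0 z (n 0 z z)))))))))))) (n 5 (n 0 z (n 0 z (n 0 z
 (n 0 z (n 0 z (n 2 z (n 0 z (n 0 z (n 0 z (n 0 z (n 0 z (n 0 z z)))))))))))) z))))) (n 0 (n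
 1013 (n 0 z (n 0 z (n 0 z (n 0 z (n 0 z (n 0 z (n 0 z (n 0 z (n 0 z (n 0 z (n 0 z (n 0 z (n 0 z
 (n 0 z (n 0 z (n 0 z (n 0 z (n 0 z (n 0 z (n 0 z (n 0 z (n 0 z (n 0 z (n 0 z (n 0 z (n 0 z (n 0
 z (n 0 z (n 0 z (n 0 z (n 0 z (n 0 z (n 0 z (n 0 z (n 0 z (n 0 z (n 0 z (n 0 z (n 0 z (n 0 z (n
 0 z (n 0 z (n 0 z (n 0 z (n 0 z (n 0 z (n 0 z (n 0 z (n 0 z
 z))))))))))))))))))))))))))))))))))))))))))))))))) (n 1013 (n 0 z (n 0 z (n 0 z (n 0 z (n 0 z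
 (n 0 z (n 0 z (n 0 z (n 0 z (n 0 z (n 0 z (n 0 z (n 0 z (n 0 z (n 0 z (n 0 z (n 0 z (n 0 z (n 0
 z (n 0 z (n 0 z (n 0 z (n 0 z (n 0 z (n 0 z (n 0 z (n 0 z (n 0 z (n 0 z (n 0 z (n 0 z (n 0 z (n
 0 z (n 0 z (n 0 z (n 0 z (n 0 z (n 0 z (n 0 z (n 0 z (n 0 z (n 0 z (n 0 z (n 0 z (n 0 z (n 0 z
 (n 0 z (n 0 z (n 0 z z))))))))))))))))))))))))))))))))))))))))))))))))) (n 1013 (n 0 z (n 0 z
 (n 0 z (n 0 z (n 0 z (n 0 z (n 2 (n 0 z z) (n 0 z (n 0 z (n 0 z (n 0 z (n 0 z (n 0 z (n 0 z (n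
 0 z (n 0 z (n 0 z (n 0 z (n 0 z (n 0 z (n 0 z (n 0 z (n 0 z (n 0 z (n 0 z (n 0 z (n 0 z (n 0 z
 (n 0 z (n 0 z (n 0 z (n 0 z (n 0 z (n 0 z (n 0 z (n 0 z (n 0 z (n 0 z (n 0 z (n 0 z (n 0 z (n 0
 z (n 0 z (n 0 z (n 0 z (n 0 z (n 0 z (n 0 z (n 0 z
 z))))))))))))))))))))))))))))))))))))))))))))))))) (n 1013 (n 0 z (n 0 z (n 0 z (n 0 z (n 0 z
 (n 0 z (n 0 z (n 0 z (n 0 z (n 0 z (n 0 z (n 0 z (n 0 z (n 0 z (n 0 z (n 0 z (n 0 z (n 0 z (n 0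
 z (n 0 z (n 0 z (n 0 z (n 0 z (n 0 z (n 0 z (n 0 z (n 0 z (n 0 z (n 0 z (n 0 z (n 0 z (n 0 z (n
 0 z (n 0 z (n 0 z (n 0 z (n 0 z (n 0 z (n 0 z (n 0 z (n 0 z (n 0 z (n 0 z (n 0 z (n 0 z (n 0 z
 (n 0 z (n 0 z (n 0 z z))))))))))))))))))))))))))))))))))))))))))))))))) z)))) (n 0 (n 0 z (n 0
 z (n 0 z z))) (n 0 (n 0 z (n 0 z z)) (n 0 (n 0 z z) (n 0 z z)))))))))))))) (n 0 (n 0 z (n 0 z
 (n 1 (n 3278363 z (n 3278363 z (n 3278363 z (n 3278363 z (n 3278363 z (n 3278363 z z)))))) (n 0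
 z (n 0 z z))))) (n 0 z z)))) (n
 0xd8a745caba2a65505a66e18a710cab8834ccdb04d6486a91a3448b0ca45a04ed8a015ca808b4c0 (n 0 (n 153 (n
 2 z (n 10 z (n 0 z (n 3282443 z (n 18 z z))))) (n 39 (n 26 z (n 0 z (n 6623755 z (n 0 z z))))
 (n 9 (n 0 z (n 34 z (n 42 z (n 0 z (n 3212843 z (n 0 z (n 50 z (n 0 z (n 58 z z))))))))) (n 27
 (n 0 z (n 0 z (n 2164283 z (n 0 z z)))) (n 1 (n 66 z (n 74 z (n 0 z (n 2164299 z (n 82 z z)))))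
 (n 0 (n
 0x2ec86c642038047f07f97f77d48287e481b7de8177fd8217f480b7f57e58237f47fe8427ee8027f98088007eb7cf8228247e38017c382281680d8077f980082e7f68248117d17dc7f681b81f7f57c78240811
 z (n 90 z (n
 0x2a6108008037ff8007fb8097fd8117f38087fd7ff8008068057fc7fa8037fd8018098007fd7fd7fd7fb7f980e8057fc8057fd8117f98008028078008057f87f97f78008038027fc8047fa8057fe0051
 z (n 6623755 z (n 6623755 z (n 0 z (n 0 z (n 0 z (n 0 z (n 0 z (n 0 z (n 0 z (n 0 z (n 6623755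
 z (n
 0x5aca28406038017d57f48207778797998cb79987080283d7d482a81f7ac8288007f381383081f7cf7fa7df7c478984c85c7fe7fc7ce8ca8508107b884280088d7a481373883c8168557667fa7f58497910811
 z (n 0 z (n
 0x14c84c842078008058067ff7e680a8008118038097fc80480080a80a7ee80b8037fa8048038077ef7ff7f87fc7e98148087ee8137ea8118108048057e580080f7fd8017ff7f07fc80c8048087f37e98000811
 z (n 98 z (n 0 z (n 106 z (n 0 z (n 0 z (n 0 z (n 0 z (n 0 z (n 0 z (n 0 z (n 0 z (n 0 z (n 0 z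
 (n
 0x26c86c864037ed8077eb7f58327ed7f281e7fc8087f97eb81a7f17e981d7ea7f97ff8157d180281f80b81e7f88327fa7f082d8067d38207f18048358028007e87f98327d17fb7d77f582d82e80f7de82a0811
 z (n 114 z (n 0 z z))))))))))))))))))))))))))))))))) z)))))) (n 39 (n 0 (n 0 z (n 0 z (n 187 (n
 0 z (n 0 z (n 0 z (n 0 z (n 0 z z))))) (n 189 (n 0 z (n 0 z (n 0 z (n 0 z (n 0 z (n 0 z (n 0 z
 (n 0 z z)))))))) (n 189 (n 0 z (n 0 z (n 0 z (n 0 z (n 0 z (n 0 z (n 0 z (n 2 (n 0 z (n 0 z (n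
 1 z (n 1 z (n 2 (n 0 z (n 0 z (n 0 z (n 0 z (n 0 z (n 0 z z)))))) (n 2 (n 0 z (n 0 z (n 0 z (n
 0 (n 8803099 z (n 8803099 z z)) (n 0 z (n 0 (n 8803099 z z) z)))))) (n 1 z (n 2 (n 0 (n 3956 z
 z) (n 0 z (n 0 (n 3956 z z) (n 0 (n 3956 z (n 3956 z z)) (n 0 z (n 0 z z)))))) (n 2 (n 0 z (n 0
 z (n 0 z (n 0 z (n 0 z (n 0 z z)))))) z))))))))) z)))))))) (n 189 (n 0 z (n 0 z (n 0 z (n 0 z
 (n 0 z (n 2 (n 0 z (n 1 z (n 1 z (n 2 (n 0 z (n 0 z (n 0 z (n 0 z (n 0 z (n 0 z z)))))) (n 2 (n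
 0 z (n 0 z (n 0 z (n 0 z (n 0 z (n 0 z z)))))) (n 1 z (n 1 z (n 2 (n 0 z (n 0 z (n 0 z (n 0 z
 (n 0 z (n 0 z z)))))) z)))))))) (n 0 z (n 0 z z)))))))) (n 189 (n 0 z (n 0 z (n 0 z (n 2 (n 2
 (n 0 z (n 0 z (n 0 z (n 0 z (n 0 z (n 0 z z)))))) (n 2 (n 0 z (n 0 z (n 0 z (n 0 z (n 0 z (n 0
 z z)))))) (n 2 (n 0 z (n 0 z (n 0 z (n 0 z (n 0 z (n 0 z z)))))) (n 2 (n 0 z (n 0 z (n 0 z (n 0
 z (n 0 z (n 0 z z)))))) (n 2 (n 0 z (n 0 z (n 0 z (n 0 z (n 0 z (n 0 z z)))))) (n 2 (n 0 z (n 0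
 z (n 0 z (n 0 z (n 0 z (n 0 z z)))))) (n 2 (n 0 z (n 0 z (n 0 z (n 0 z (n 0 z (n 0 z z))))))
 z))))))) (n 0 z (n 0 z (n 0 z (n 0 z z)))))))) (n 531 (n 0 z (n 0 z (n 0 z (n 0 z (n 0 z (n 0 z
 z)))))) (n 531 (n 0 z (n 2 (n 0 z (n 1 z (n 1 z (n 1 z (n 1 z z))))) (n 0 z (n 0 z (n 0 z (n 0
 z z)))))) (n 531 (n 0 z (n 0 z (n 0 z (n 0 z (n 0 z (n 0 z z)))))) (n 989 (n 0 z (n 0 z (n 0 z
 (n 0 z (n 0 z (n 0 z (n 0 z (n 0 z (n 0 z (n 0 z (n 0 z (n 0 z (n 0 z (n 0 z (n 0 z (n 0 z (n 0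
 z (n 0 z (n 0 z (n 0 z (n 0 z (n 0 z (n 0 z z))))))))))))))))))))))) (n 989 (n 0 z (n 0 z (n 0
 z (n 0 z (n 0 z (n 0 z (n 0 z (n 0 z (n 0 z (n 0 z (n 0 z (n 0 z (n 0 z (n 0 z (n 0 z (n 0 z (n
 0 z (n 0 z (n 0 z (n 0 z (n 0 z (n 0 z (n 0 z z))))))))))))))))))))))) (n 989 (n 0 z (n 0 z (n
 0 z (n 0 z (n 0 z (n 0 z (n 0 z (n 0 z (n 0 z (n 0 z (n 0 z (n 0 z (n 2 (n 0 z z) (n 0 z (n 0 z
 (n 0 z (n 0 z (n 0 z (n 0 z (n 0 z (n 0 z (n 0 z (n 0 z z))))))))))))))))))))))) (n 989 (n 0 z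
 (n 0 z (n 2 z (n 0 z (n 0 z (n 0 z (n 0 z (n 0 z (n 0 z (n 0 z (n 0 z (n 0 z (n 0 z (n 0 z (n 0
 z (n 0 z (n 0 z (n 0 z (n 0 z (n 0 z (n 0 z (n 0 z (n 0 z z)))))))))))))))))))))))
 z)))))))))))))) (n 0 (n 0 z (n 215 (n 2 (n 1 z (n 1 z (n 1 z (n 1 z (n 1 z (n 1 z (n 1 z (n 1 z
 (n 1 z (n 1 z (n 1 z z))))))))))) (n 0 z (n 0 z (n 0 z z)))) (n 885 (n 0 z (n 0 z (n 0 z (n 0 z
 (n 0 z (n 0 z (n 0 z (n 2 (n 0 z (n 0 z (n 0 z (n 1 z (n 1 z (n 2 (n 0 z (n 0 z (n 0 z (n 0 z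
 (n 0 z (n 0 z z)))))) (n 1 z (n 1 z (n 1 z (n 2 (n 0 z (n 0 z (n 0 z (n 0 z (n 0 z (n 0 z
 z)))))) z)))))))))) (n 0 z (n 0 z (n 0 z (n 0 z (n 0 z (n 0 z z)))))))))))))) (n 885 (n 0 z (n
 0 z (n 0 z (n 0 z (n 0 z (n 0 z (n 0 z (n 0 z (n 0 z (n 0 z (n 0 z (n 0 z (n 0 z (n 0 z
 z)))))))))))))) (n 885 (n 0 z (n 0 z (n 0 z (n 0 z (n 0 z (n 0 z (n 0 z (n 0 z (n 0 z (n 0 z (n
 0 z (n 0 z (n 0 z (n 0 z z)))))))))))))) (n 885 (n 0 z (n 0 z (n 0 z (n 0 z (n 0 z (n 0 z (n 0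
 z (n 0 z (n 0 z (n 0 z (n 0 z (n 2 (n 2 (n 0 z (n 0 z (n 0 z (n 0 z (n 0 z (n 0 z z)))))) (n 1
 z (n 2 (n 0 z (n 0 z (n 0 z (n 0 (n 8873267 z z) (n 0 z (n 0 z z)))))) (n 2 (n 0 z (n 0 z (n 0
 z (n 0 z (n 0 z (n 0 z z)))))) (n 2 (n 0 z (n 0 z (n 0 z (n 0 (n 2132 z z) (n 0 z (n 0 z
 z)))))) (n 1 z (n 2 (n 0 z (n 0 z (n 0 z (n 0 (n 8873267 z z) (n 0 z (n 0 z z)))))) z))))))) (n
 0 z (n 0 z z)))))))))))))) (n 531 (n 0 z (n 2 (n 0 z (n 0 z (n 1 z (n 1 z (n 1 z (n 1 z z))))))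
 (n 0 z (n 0 z (n 0 z (n 0 z z)))))) (n 531 (n 0 z (n 0 z (n 0 z (n 0 z (n 0 z (n 0 z z)))))) (n
 531 (n 0 z (n 0 z (n 0 z (n 0 z (n 0 z (n 2 (n 2 (n 0 z (n 0 z (n 0 z (n 0 z (n 0 z (n 0 z
 z)))))) (n 2 (n 0 z (n 0 z (n 0 z (n 0 z (n 0 z (n 0 z z)))))) (n 2 (n 0 z (n 0 z (n 0 z (n 0
 (n 8873267 z z) (n 0 z (n 0 z z)))))) (n 2 (n 0 z (n 0 z (n 0 z (n 0 z (n 0 z (n 0 z z))))))
 z)))) z)))))) (n 533 (n 0 z (n 0 z (n 2 (n 0 z (n 0 z (n 0 z z))) (n 0 z (n 0 z (n 0 z (n 0 z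
 z))))))) (n 533 (n 0 z (n 0 z (n 0 z (n 0 z (n 0 z (n 0 z (n 0 z z))))))) (n 533 (n 0 z (n 0 z
 (n 0 z (n 0 z (n 0 z (n 0 z (n 0 z z))))))) (n 533 (n 0 z (n 0 z (n 0 z (n 0 z (n 0 z (n 0 z (n
 2 z z))))))) z))))))))))))) (n 0 (n 511 (n 2 (n 2 (n 0 z (n 0 z (n 0 z (n 0 z (n 0 z (n 0 z
 z)))))) (n 2 (n 0 z (n 0 z (n 0 z (n 0 z (n 0 z (n 0 z z)))))) (n 1 z (n 2 (n 0 z (n 0 z (n 0 z
 (n 0 (n 8794451 z z) (n 0 z (n 0 z z)))))) (n 2 (n 0 z (n 0 z (n 0 z (n 0 z (n 0 z (n 0 z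
 z)))))) (n 2 (n 0 z (n 0 z (n 0 z (n 0 z (n 0 z (n 0 z z)))))) (n 2 (n 0 z (n 0 z (n 0 z (n 0 z
 (n 0 z (n 0 z z)))))) (n 2 (n 0 z (n 0 z (n 0 z (n 0 z (n 0 z (n 0 z z)))))) (n 2 (n 0 z (n 0 z
 (n 0 z (n 0 (n 2132 z z) (n 0 z (n 0 z z)))))) (n 2 (n 0 z (n 0 z (n 0 z (n 0 z (n 0 z (n 0 z
 z)))))) (n 2 (n 0 z (n 0 z (n 0 z (n 0 z (n 0 z (n 0 z z)))))) z))))))))))) (n 0 z (n 0 z (n 0
 z (n 0 z (n 0 z (n 0 z (n 0 z z)))))))) (n 885 (n 0 z (n 0 z (n 0 z (n 0 z (n 0 z (n 0 z (n 0 z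
 (n 0 z (n 0 z (n 0 z (n 0 z (n 0 z (n 2 (n 0 z (n 0 z (n 0 z (n 2 (n 0 z (n 0 z (n 0 z (n 0 z
 (n 0 z (n 0 z z)))))) (n 2 (n 0 z (n 0 z (n 0 z (n 0 z (n 0 z (n 0 z z)))))) (n 2 (n 0 z (n 0 z
 (n 0 z (n 0 z (n 0 z (n 0 z z)))))) (n 2 (n 0 z (n 0 z (n 0 z (n 0 z (n 0 z (n 0 z z)))))) (n 2
 (n 0 z (n 0 z (n 0 z (n 0 z (n 0 z (n 0 z z)))))) (n 2 (n 0 z (n 0 z (n 0 z (n 0 z (n 0 z (n 0
 z z)))))) (n 2 (n 0 z (n 0 z (n 0 z (n 0 z (n 0 z (n 0 z z)))))) z)))))))))) (n 0 z (n 0 z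
 z))))))))))))))) (n 885 (n 0 z (n 0 z (n 0 z (n 0 z (n 0 z (n 0 z (n 0 z (n 0 z (n 0 z (n 0 z
 (n 0 z (n 0 z (n 0 z (n 0 z (n 0 z z))))))))))))))) (n 885 (n 0 z (n 0 z (n 0 z (n 0 z (n 0 z
 (n 0 z (n 0 z (n 0 z (n 0 z (n 0 z (n 0 z (n 0 z (n 0 z (n 0 z (n 0 z z))))))))))))))) (n 885
 (n 0 z (n 0 z (n 0 z (n 0 z (n 0 z (n 0 z (n 0 z (n 0 z (n 0 z (n 0 z (n 0 z (n 0 z (n 0 z (n 0
 z (n 0 z z))))))))))))))) (n 531 (n 0 z (n 0 z (n 0 z (n 0 z z)))) (n 531 (n 0 z (n 2 (n 0 z (n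
 2 (n 0 z (n 0 z (n 0 z (n 0 z (n 0 z (n 0 z z)))))) (n 2 (n 0 z (n 0 z (n 0 z (n 0 z (n 0 z (n
 0 z z)))))) (n 2 (n 0 z (n 0 z (n 0 z (n 0 z (n 0 z (n 0 z z)))))) (n 2 (n 0 z (n 0 z (n 0 z (n
 0 z (n 0 z (n 0 z z)))))) z))))) (n 0 z (n 0 z z)))) (n 531 (n 0 z (n 0 z (n 0 z (n 0 z z))))
 (n 533 (n 0 z (n 0 z (n 2 (n 0 z (n 0 z (n 0 z z))) (n 0 z (n 0 z (n 0 z (n 0 z z))))))) (n 533
 (n 0 z (n 0 z (n 0 z (n 0 z (n 0 z (n 0 z (n 0 z z))))))) (n 533 (n 0 z (n 0 z (n 0 z (n 0 z (n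
 0 z (n 0 z (n 2 (n 0 z z) z))))))) (n 533 (n 0 z (n 0 z (n 0 z (n 0 z (n 0 z (n 0 z (n 0 z
 z))))))) z)))))))))))) (n 0 (n 395 (n 0 z (n 0 z (n 0 z (n 0 z (n 0 z (n 0 z (n 0 z (n 0 z (n 0
 z (n 0 z (n 0 z z))))))))))) (n 395 (n 0 z (n 0 z (n 0 z (n 0 z (n 0 z (n 2 (n 0 z (n 0 z (n 1
 z (n 1 z (n 2 (n 0 z (n 0 z (n 0 z (n 0 (n 12 z (n 7677979 z z)) (n 0 (n 61 z z) (n 0 (n 12 z
 z) z)))))) (n 1 z (n 1 z (n 2 (n 0 z (n 0 z (n 0 (n 20 z z) (n 0 (n 20 z (n 20 z z)) (n 0 z (n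
 0 (n 20 z z) z)))))) (n 2 (n 0 z (n 0 z (n 0 z (n 0 (n 20 z (n 20 z z)) (n 0 (n 69 z z) (n 0 (n
 20 z z) z)))))) z))))))))) (n 0 z (n 0 z (n 0 z (n 0 z (n 0 z z))))))))))) (n 395 (n 0 z (n 2
 (n 0 z (n 1 z (n 1 z (n 2 (n 0 z (n 0 z (n 0 z (n 0 z (n 0 z (n 0 z z)))))) (n 2 (n 0 z (n 0 z
 (n 0 z (n 0 (n 8790275 z z) (n 0 z (n 0 z z)))))) (n 1 z (n 1 z (n 2 (n 0 z (n 0 z (n 0 z (n 0
 z (n 0 z (n 0 z z)))))) z)))))))) (n 0 z (n 0 z (n 0 z (n 0 z (n 0 z (n 0 z (n 0 z (n 0 z (n 0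
 z z))))))))))) (n 395 (n 0 z (n 0 z (n 0 z (n 0 z (n 0 z (n 0 z (n 0 z (n 0 z (n 0 z (n 0 z (n
 2 (n 2 (n 0 z (n 0 z (n 0 z (n 0 z (n 0 z (n 0 z z)))))) (n 2 (n 0 z (n 0 z (n 0 z (n 0 z (n 0
 z (n 0 z z)))))) (n 2 (n 0 z (n 0 z (n 0 z (n 0 z (n 0 z (n 0 z z)))))) (n 2 (n 0 z (n 0 z (n 0
 z (n 0 z (n 0 z (n 0 z z)))))) (n 2 (n 0 z (n 0 z (n 0 z (n 0 z (n 0 z (n 0 z z)))))) (n 2 (n 0
 z (n 0 z (n 0 z (n 0 z (n 0 z (n 0 z z)))))) (n 2 (n 0 z (n 0 z (n 0 z (n 0 z (n 0 z (n 0 z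
 z)))))) z))))))) z))))))))))) (n 3 (n 0 z (n 0 z (n 0 z (n 0 z (n 0 z (n 0 z (n 0 z (n 0 z (n 0
 z (n 0 z z)))))))))) (n 3 (n 0 z (n 2 (n 0 z (n 1 z (n 1 z (n 1 z (n 1 z z))))) (n 0 z (n 0 z
 (n 0 z (n 0 z (n 0 z (n 0 z (n 0 z (n 0 z z)))))))))) (n 3 (n 0 z (n 0 z (n 0 z (n 0 z (n 0 z
 (n 0 z (n 0 z (n 0 z (n 0 z (n 2 (n 2 (n 0 z (n 0 z (n 0 z (n 0 (n 8790275 z z) (n 0 z (n 0 z
 z)))))) (n 2 (n 0 z (n 0 z (n 0 z (n 0 (n 20 z z) (n 0 z (n 0 z z)))))) (n 2 (n 0 z (n 0 z (n 0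
 z (n 0 z (n 0 z (n 0 z z)))))) (n 2 (n 0 z (n 0 z (n 0 z (n 0 z (n 0 z (n 0 z z)))))) z))))
 z)))))))))) (n 5 (n 0 z (n 0 z (n 0 z (n 0 z (n 0 z (n 0 z (n 0 z (n 0 z (n 0 z (n 0 z (n 0 z
 z))))))))))) (n 5 (n 0 z (n 0 z (n 0 z (n 0 z (n 0 z (n 0 z (n 0 z (n 0 z (n 0 z (n 0 z (n 0 z
 z))))))))))) (n 5 (n 0 z (n 0 z (n 0 z (n 0 z (n 0 z (n 0 z (n 0 z (n 0 z (n 0 z (n 2 (n 0 z z)
 (n 0 z z))))))))))) (n 5 (n 0 z (n 0 z (n 0 z (n 0 z (n 0 z (n 0 z (n 0 z (n 0 z (n 0 z (n 0 z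
 (n 2 z z))))))))))) z))))))))))) (n 0 (n 0 z (n 0 z (n 0 z (n 51 (n 0 z (n 0 z (n 0 z (n 0 z (n
 0 z (n 0 z (n 0 z (n 0 z (n 0 z (n 0 z (n 0 z (n 0 z z)))))))))))) (n 51 (n 0 z (n 2 (n 0 z (n
 1 z (n 1 z (n 2 (n 0 z (n 0 z (n 0 z (n 0 (n 2164859 z z) (n 0 z (n 0 z z)))))) (n 2 (n 0 z (n
 0 z (n 0 z (n 0 z (n 0 z (n 0 z z)))))) z))))) (n 0 z (n 0 z (n 0 z (n 0 z (n 0 z (n 0 z (n 0 z
 (n 0 z (n 0 z (n 0 z z)))))))))))) (n 51 (n 0 z (n 0 z (n 0 z (n 0 z (n 0 z (n 0 z (n 0 z (n 0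
 z (n 0 z (n 0 z (n 0 z (n 2 (n 2 (n 0 z (n 0 z (n 0 z (n 0 (n 8790275 z z) (n 0 z (n 0 z
 z)))))) (n 2 (n 0 z (n 0 z (n 0 z (n 0 z (n 0 z (n 0 z z)))))) (n 2 (n 0 z (n 0 z (n 0 z (n 0 z
 (n 0 z (n 0 z z)))))) (n 2 (n 0 z (n 0 z (n 0 z (n 0 z (n 0 z (n 0 z z)))))) z))))
 z)))))))))))) (n 505 (n 0 z (n 0 z (n 0 z (n 0 z (n 0 z (n 0 z (n 0 z (n 0 z (n 0 z (n 0 z (n 0
 z (n 0 z (n 0 z (n 0 z (n 0 z (n 0 z (n 0 z (n 0 z (n 0 z (n 0 z (n 0 z (n 0 z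
 z)))))))))))))))))))))) (n 505 (n 0 z (n 0 z (n 0 z (n 0 z (n 0 z (n 0 z (n 0 z (n 0 z (n 0 z
 (n 0 z (n 0 z (n 0 z (n 0 z (n 0 z (n 0 z (n 0 z (n 0 z (n 0 z (n 0 z (n 0 z (n 0 z (n 0 z
 z)))))))))))))))))))))) (n 505 (n 0 z (n 0 z (n 0 z (n 0 z (n 0 z (n 0 z (n 0 z (n 0 z (n 0 z
 (n 0 z (n 0 z (n 0 z (n 0 z (n 0 z (n 0 z (n 0 z (n 0 z (n 0 z (n 0 z (n 0 z (n 2 (n 0 z z) (n
 0 z z)))))))))))))))))))))) (n 505 (n 0 z (n 0 z (n 0 z (n 0 z (n 0 z (n 0 z (n 0 z (n 0 z (n 0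
 z (n 0 z (n 0 z (n 0 z (n 0 z (n 0 z (n 0 z (n 0 z (n 0 z (n 2 z (n 0 z (n 0 z (n 0 z (n 0 z
 z)))))))))))))))))))))) z)))))))))) (n 0 (n 0 z (n 0 z (n 15 (n 0 z (n 2 (n 0 z (n 0 z (n 2 (n
 0 z (n 0 z (n 0 z (n 0 (n 8855811 z (n 8855811 z z)) (n 0 z (n 0 (n 8855811 z z) z)))))) (n 1 z
 (n 2 (n 0 (n 68 z z) (n 0 z (n 0 (n 68 z z) (n 0 (n 68 z (n 68 z z)) (n 0 z (n 0 z z)))))) (n 2
 (n 0 z (n 0 z (n 0 z (n 0 z (n 0 z (n 0 z z)))))) z)))))) (n 0 z (n 0 z (n 0 z (n 0 z (n 0 z (n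
 0 z (n 0 z (n 0 z (n 0 z z))))))))))) (n 15 (n 0 z (n 0 z (n 0 z (n 0 z (n 0 z (n 0 z (n 0 z (n
 0 z (n 0 z (n 0 z (n 0 z z))))))))))) (n 15 (n 0 z (n 0 z (n 0 z (n 0 z (n 0 z (n 0 z (n 0 z (n
 0 z (n 0 z (n 0 z (n 0 z z))))))))))) (n 17 (n 2 (n 0 z (n 0 z (n 0 z z))) (n 0 z (n 0 z (n 0 z
 (n 0 z (n 0 z z)))))) (n 17 (n 0 z (n 0 z (n 0 z (n 0 z (n 0 z (n 0 z z)))))) (n 17 (n 0 z (n 0
 z (n 0 z (n 0 z (n 0 z (n 0 z z)))))) (n 17 (n 0 z (n 0 z (n 0 z (n 0 z (n 0 z (n 0 z z))))))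
 z))))))))) (n 0 (n 0 z (n 15 (n 0 z (n 0 z (n 2 (n 0 z (n 0 z (n 2 (n 0 z (n 0 z (n 0 z (n 0 z
 (n 0 z (n 0 z z)))))) (n 1 z (n 1 z (n 2 (n 0 z (n 0 z (n 0 z (n 0 z (n 0 z (n 0 z z))))))
 z)))))) (n 0 z (n 0 z (n 0 z z)))))) (n 15 (n 0 z (n 0 z (n 0 z (n 0 z (n 0 z (n 0 z z)))))) (n
 15 (n 0 z (n 0 z (n 0 z (n 0 z (n 0 z (n 0 z z)))))) (n 17 (n 0 z (n 0 z (n 0 z (n 2 (n 0 z (n
 0 z (n 0 z z))) (n 0 z (n 0 z (n 0 z (n 0 z (n 0 z z))))))))) (n 17 (n 0 z (n 0 z (n 0 z (n 0 z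
 (n 0 z (n 0 z (n 0 z (n 0 z (n 0 z z))))))))) (n 17 (n 0 z (n 0 z (n 0 z (n 0 z (n 0 z (n 0 z
 (n 0 z (n 0 z (n 0 z z))))))))) (n 17 (n 0 z (n 0 z (n 0 z (n 0 z (n 0 z (n 0 z (n 0 z (n 0 z
 (n 0 z z))))))))) z)))))))) (n 0 (n 15 (n 0 z (n 0 z (n 2 (n 0 z (n 0 z (n 2 (n 0 z (n 0 z (n 0
 z (n 0 z (n 0 z (n 0 z z)))))) (n 2 (n 0 z (n 0 z (n 0 z (n 0 z (n 0 z (n 0 z z)))))) (n 2 (n 0
 z (n 0 z (n 0 z (n 0 z (n 0 z (n 0 z z)))))) (n 2 (n 0 z (n 0 z (n 0 z (n 0 z (n 0 z (n 0 z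
 z)))))) z)))))) (n 0 z (n 0 z (n 0 z (n 0 z z))))))) (n 15 (n 0 z (n 2 (n 0 z (n 2 (n 0 z (n 0
 z (n 0 z (n 0 z (n 0 z (n 0 z z)))))) (n 2 (n 0 z (n 0 z (n 0 z (n 0 z (n 0 z (n 0 z z)))))) (n
 2 (n 0 z (n 0 z (n 0 z (n 0 z (n 0 z (n 0 z z)))))) (n 2 (n 0 z (n 0 z (n 0 z (n 0 (n 8873267 z
 z) (n 0 z (n 0 z z)))))) z))))) (n 0 z (n 0 z (n 0 z (n 0 z (n 0 z z))))))) (n 15 (n 0 z (n 0 z
 (n 0 z (n 0 z (n 0 z (n 0 z (n 0 z z))))))) (n 17 (n 0 z (n 0 z (n 0 z (n 2 (n 0 z (n 0 z (n 0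
 z z))) (n 0 z (n 0 z (n 0 z (n 0 z (n 0 z (n 0 z z)))))))))) (n 17 (n 0 z (n 0 z (n 0 z (n 0 z
 (n 0 z (n 0 z (n 0 z (n 2 (n 0 z (n 0 z z)) (n 0 z (n 0 z z)))))))))) (n 17 (n 0 z (n 2 (n 0 z
 z) (n 0 z (n 0 z (n 0 z (n 0 z (n 0 z (n 0 z (n 0 z (n 0 z z)))))))))) (n 17 (n 0 z (n 0 z (n 0
 z (n 0 z (n 0 z (n 0 z (n 0 z (n 0 z (n 0 z (n 0 z z)))))))))) z))))))) (n 0 (n 0 z (n 0 z (n
 53 (n 0 z (n 0 z (n 0 z (n 0 z (n 0 z (n 0 z (n 0 z (n 0 z (n 0 z (n 0 z (n 0 z (n 0 z (n 0 z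
 (n 0 z (n 0 z (n 0 z (n 0 z (n 0 z (n 0 z (n 0 z (n 0 z (n 0 z (n 0 z (n 0 z (n 0 z
 z))))))))))))))))))))))))) (n 53 (n 0 z (n 0 z (n 0 z (n 0 z (n 0 z (n 0 z (n 0 z (n 0 z (n 0 z
 (n 0 z (n 0 z (n 0 z (n 0 z (n 0 z (n 0 z (n 0 z (n 0 z (n 0 z (n 0 z (n 0 z (n 0 z (n 0 z (n 0
 z (n 0 z (n 0 z z))))))))))))))))))))))))) (n 53 (n 0 z (n 0 z (n 0 z (n 0 z (n 0 z (n 0 z (n 0
 z (n 0 z (n 0 z (n 0 z (n 0 z (n 0 z (n 0 z (n 0 z (n 0 z (n 2 (n 0 z z) (n 0 z (n 0 z (n 0 z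
 (n 0 z (n 0 z (n 0 z (n 0 z (n 0 z (n 0 z z))))))))))))))))))))))))) (n 53 (n 0 z (n 0 z (n 0 z
 (n 0 z (n 0 z (n 0 z (n 0 z (n 0 z (n 0 z (n 0 z (n 0 z (n 0 z (n 0 z (n 0 z (n 0 z (n 0 z (n 0
 z (n 0 z (n 0 z (n 0 z (n 0 z (n 2 z (n 0 z (n 0 z (n 0 z z))))))))))))))))))))))))) z)))))) (n
 0 (n 0 z (n 1 (n 0 z (n 0 z (n 2 (n 0 z (n 0 z (n 0 z z))) (n 0 z (n 0 z (n 0 z (n 0 z (n 0 z
 (n 0 z (n 0 z (n 0 z (n 0 z (n 0 z (n 0 z (n 0 z (n 0 z (n 0 z (n 0 z (n 0 z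
 z))))))))))))))))))) (n 1 (n 0 z (n 0 z (n 0 z (n 0 z (n 0 z (n 0 z (n 0 z (n 0 z (n 0 z (n 0 z
 (n 0 z (n 0 z (n 0 z (n 0 z (n 0 z (n 2 (n 0 z (n 0 z z)) (n 0 z (n 0 z (n 0 z
 z))))))))))))))))))) (n 1 (n 0 z (n 0 z (n 0 z (n 0 z (n 0 z (n 0 z (n 0 z (n 0 z (n 0 z (n 0 z
 (n 0 z (n 0 z (n 0 z (n 0 z (n 0 z (n 0 z (n 0 z (n 0 z (n 0 z z))))))))))))))))))) (n 1 (n 0 z
 (n 0 z (n 0 z (n 0 z (n 0 z (n 0 z (n 0 z (n 0 z (n 2 z (n 0 z (n 0 z (n 0 z (n 0 z (n 0 z (n 0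
 z (n 0 z (n 0 z (n 0 z (n 0 z z))))))))))))))))))) z))))) (n 0 (n 533 (n 0 z (n 0 z (n 2 (n 0 z
 (n 0 z (n 0 z z))) (n 0 z (n 0 z (n 0 z (n 0 z (n 0 z (n 0 z (n 0 z z)))))))))) (n 533 (n 2 (n
 0 z (n 0 z z)) (n 0 z (n 0 z (n 0 z (n 0 z (n 0 z (n 0 z (n 0 z (n 0 z (n 0 z z)))))))))) (n
 533 (n 0 z (n 0 z (n 0 z (n 0 z (n 0 z (n 0 z (n 0 z (n 2 (n 0 z z) (n 0 z (n 0 z z))))))))))
 (n 533 (n 0 z (n 0 z (n 0 z (n 0 z (n 0 z (n 0 z (n 0 z (n 0 z (n 0 z (n 0 z z)))))))))) z))))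
 (n 0 (n 0 z (n 0 z (n 0 z z))) (n 0 (n 0 z (n 0 z z)) (n 0 (n 0 z z) (n 0 z z))))))))))))))) (n
 0 (n 1 (n 1228 z (n 1228 z (n 220 z (n 1228 z (n 1228 z (n 1228 z z)))))) (n 0 z (n 1 (n
 6623755 z (n 6623755 z (n 6623755 z (n 6623755 z (n 6623755 z (n 6623755 z z)))))) (n 0 z z))))
 (n 0 z z)))) (n 0x64a2ba0453c8651cc144d61b4732112460912c70866482332500 (n 0 (n 693 (n 3282443 z
 (n 2 z (n 0 z (n 0 z (n 0 z z))))) (n 461 (n 0 z (n 10 z (n 3278363 z (n 0 z (n 0 z (n 0 z (n 0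
 z (n 18 z z)))))))) (n 135 (n 0 z (n 0 z (n 0 z (n 0 z (n 0 z (n 0 z (n
 0x2594594100600c8482060780877b9b7983847a827885676f7b668c997e5ea566825a639288a56b6762bd6874978a91c3785f7179828d7a796693628f871009
 z (n 0 z (n 0 z (n 0 z (n
 0x4c86c8620380838085827e8281827e7f817b7e7b85867e7a817685817f828a7e7b7d81837b82847d7b85837e7c7e7985808e778680837f0809
 z (n 26 z (n 0 z (n 0 z (n 0 z (n 0 z (n 0 z (n 0 z (n 0 z (n 0 z (n 0 z (n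
 0xd909504c0e00ca8ca620780877e8d818482817c83787a7d8673797c8b828b6a81778482878e7a79748b6e7f878c8b8e767088867c7d788385877e79811009
 z (n 34 z (n 0 z (n 0 z (n 0 z (n 0 z (n 0 z (n 0 z (n 0 z (n 0 z (n 0 z (n 0 z (n
 0x1a65465430180000d32a32a081c00062d3280000ce865080000080002580000080010e7fff9180004e8000257ffff17fff827ffff17fffcc7fff347ffeef7fff627fff9d80009a7fffcc8000c47ffece80017c7ffe388001708000407ffed07ffeb18001698000987ffe6d7fff347ffcdf8004497fff847fffc880011780005e7fffbd8004ea8001e47ffcc17fff267ffe7180016c8000368001567ffe5c7fffca7ffeaa80003f8000878000091099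
 z (n 0 z (n 0 z (n 0 z (n 0 z (n 0 z (n 0 z (n 0 z (n 0 z (n 0 z (n 0 z (n 3212843 z (n 0 z (n
 0 z (n 0 z (n 0 z (n 0 z (n 0 z z))))))))))))))))))))))))))))))))))))))))))))))))))) (n 3 (n
 0x22ca8a824030000598ca00000b2d94000011cb28000050865080000080004b7fffee8000247fffe47fffc680002d8000308000148000308000008000007ffff37fffe37ffff27fffec7fffa680002680003480006a7fffba8000a680002a7fffda80002680008e7ffff77ffffc8000007fffdb8000487fffb18000558000907fffd47fffd78000df7fff7b7fffe67ffff88000217fffe88000008000008000268000008000008000008000008000000919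
 z (n 2164283 z (n
 0x219519508060aca4ca4207238c8046d9008cb2023864080a0777a736494978a976c83887b8a7a488e8cb56aca9b6c88b0807e8376a16ea4b57b64da4271868c8580807c80808080801109
 z (n 42 z (n
 0x432a32a101c0995150480e22ca4a84203807a8a666e71917196764f8aa277bd88457880a5c480936e708c7a7797b0756e876a8aa859827e974fd37f8f467c6da963851809
 z (n
 0x1595150480e04ca8ca8203807783887a7d7e80867c8b6c828778818e8472937582777f897796776e77927d7888878c9279777d7a8d857e7a7a838777801009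
 z (n 50 z (n
 0x1321aa0901c0995194080604ca8ca800380857c8a7d7f847d827b7e77798474838684708c6b8b7478827f9178796f987d818b84819b7b7380807b8280827b897184841809
 z (n
 0x35654642101800035c62100006b6c420000d61884000b8532800016786508000008000808000008002c87fff248000c58000807fffc67ffeea7fffc68000297ffeab7ffd867ffeb77ffe718000d87fffbd80019d7ffe558002197ffbb28003a48000ed7ffe487ffd7780039f80009b7ffd847ffeab7ff98c8008337ffea980000780024e7fffba7ffef380095b8004177ffa517ffdcd7ffda48001508000008002e27ffeb87fffca7ffd547fffc18001957ffff70959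
 z (n 58 z (n
 0x595194480e34ca8ca04078084677d767a8f4ba46c6994717f93a58a6a839ed37b69608790736a74a0bc7496817b8c9a836a6558c8a89147465faa795f1009
 z (n 66 z z)))))))))))) (n 1 (n 0 z (n 0 z (n 2164299 z (n 0 z z)))) (n 0 (n 0 z (n 0 z (n 0 z
 (n 2164315 z (n 0 z (n 74 z (n 0 z z))))))) z)))))) (n 1 (n 0 (n 923 (n 0 z (n 0 z (n 0 z (n 0
 z (n 0 z (n 0 z (n 0 z (n 0 z z)))))))) (n 923 (n 0 z (n 0 z (n 0 z (n 0 z (n 0 z (n 0 z (n 0 z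
 (n 2 (n 1 z (n 1 z (n 1 z (n 1 z (n 1 z (n 2 (n 0 z (n 0 z (n 0 z (n 0 z (n 0 (n 4196 z z) (n 0
 z z)))))) (n 1 z z))))))) z)))))))) (n 921 (n 0 z (n 0 z (n 0 z (n 0 z (n 0 z (n 0 z (n 0 z (n
 0 z (n 0 z z))))))))) (n 921 (n 0 z (n 0 z (n 0 z (n 0 z (n 0 z (n 0 z (n 0 z (n 0 z (n 0 z
 z))))))))) (n 1049 (n 0 z (n 0 z (n 0 z (n 0 z (n 0 z (n 0 z (n 0 z (n 0 z (n 0 z (n 0 z (n 2
 (n 0 z (n 0 z (n 0 z (n 1 z z)))) (n 0 z (n 0 z (n 0 z (n 0 z (n 0 z (n 0 z (n 0 z (n 0 z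
 z))))))))))))))))))) (n 1049 (n 0 z (n 0 z (n 0 z (n 0 z (n 0 z (n 0 z (n 0 z (n 0 z (n 0 z (n
 0 z (n 0 z (n 0 z (n 0 z (n 0 z (n 0 z (n 0 z (n 0 z (n 0 z (n 0 z z))))))))))))))))))) (n 1049
 (n 0 z (n 0 z (n 0 z (n 0 z (n 0 z (n 0 z (n 0 z (n 0 z (n 0 z (n 0 z (n 0 z (n 0 z (n 0 z (n 0
 z (n 0 z (n 0 z (n 0 z (n 0 z (n 0 z z))))))))))))))))))) (n 1049 (n 0 z (n 0 z (n 0 z (n 0 z
 (n 0 z (n 0 z (n 0 z (n 0 z (n 0 z (n 0 z (n 0 z (n 0 z (n 0 z (n 0 z (n 0 z (n 0 z (n 0 z (n 0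
 z (n 0 z z))))))))))))))))))) (n 61 (n 0 z (n 0 z (n 0 z (n 0 z z)))) z))))))))) (n 0 (n 0 z (n
 915 (n 0 z (n 0 z (n 0 z (n 0 z (n 0 z (n 0 z (n 0 z (n 0 z (n 0 z (n 0 z (n 0 z (n 0 z (n 0 z
 (n 0 z (n 0 z (n 0 z (n 0 z (n 0 z (n 0 z (n 0 z (n 0 z (n 0 z (n 0 z (n 0 z (n 0 z (n 0 z (n 0
 z (n 0 z (n 0 z (n 0 z (n 0 z (n 0 z z)))))))))))))))))))))))))))))))) (n 915 (n 0 z (n 0 z (n
 0 z (n 0 z (n 0 z (n 0 z (n 0 z (n 0 z (n 0 z (n 0 z (n 0 z (n 0 z (n 0 z (n 0 z (n 0 z (n 0 z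
 (n 0 z (n 0 z (n 0 z (n 0 z (n 0 z (n 0 z (n 0 z (n 0 z (n 0 z (n 0 z (n 0 z (n 0 z (n 0 z (n 0
 z (n 0 z (n 0 z z)))))))))))))))))))))))))))))))) (n 11 (n 0 z (n 0 z (n 0 z (n 0 z (n 0 z (n 0
 z (n 0 z (n 0 z (n 0 z (n 0 z (n 0 z (n 0 z (n 0 z (n 0 z (n 0 z (n 0 z (n 0 z
 z))))))))))))))))) (n 11 (n 0 z (n 0 z (n 0 z (n 0 z (n 0 z (n 0 z (n 0 z (n 0 z (n 0 z (n 0 z
 (n 0 z (n 0 z (n 0 z (n 0 z (n 0 z (n 0 z (n 0 z z))))))))))))))))) (n 11 (n 0 z (n 0 z (n 0 z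
 (n 0 z (n 0 z (n 0 z (n 0 z (n 0 z (n 0 z (n 0 z (n 0 z (n 0 z (n 0 z (n 0 z (n 0 z (n 0 z (n 0
 z z))))))))))))))))) (n 11 (n 0 z (n 0 z (n 0 z (n 0 z (n 0 z (n 0 z (n 0 z (n 0 z (n 0 z (n 0
 z (n 0 z (n 0 z (n 0 z (n 0 z (n 0 z (n 0 z (n 0 z z))))))))))))))))) (n 13 (n 0 z (n 0 z (n 0
 z (n 0 z (n 0 z (n 0 z z)))))) z)))))))) (n 0 (n 927 (n 0 z (n 0 z (n 0 z (n 0 z (n 0 z (n 0 z
 (n 0 z (n 0 z (n 0 z (n 0 z (n 0 z (n 0 z (n 0 z (n 0 z z)))))))))))))) (n 927 (n 0 z (n 0 z (n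
 0 z (n 0 z (n 0 z (n 0 z (n 0 z (n 0 z (n 0 z (n 0 z (n 0 z (n 0 z (n 0 z (n 0 z
 z)))))))))))))) (n 1257 (n 0 z (n 0 z (n 0 z (n 0 z (n 0 z (n 0 z (n 0 z (n 0 z (n 0 z (n 0 z
 (n 0 z (n 0 z (n 0 z (n 0 z (n 0 z (n 0 z (n 0 z z))))))))))))))))) (n 1257 (n 0 z (n 0 z (n 0
 z (n 0 z (n 0 z (n 0 z (n 0 z (n 0 z (n 0 z (n 0 z (n 0 z (n 0 z (n 0 z (n 0 z (n 0 z (n 0 z (n
 0 z z))))))))))))))))) (n 1257 (n 0 z (n 0 z (n 0 z (n 0 z (n 0 z (n 0 z (n 0 z (n 0 z (n 0 z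
 (n 0 z (n 0 z (n 0 z (n 0 z (n 0 z (n 0 z (n 0 z (n 0 z z))))))))))))))))) (n 1257 (n 0 z (n 0
 z (n 0 z (n 0 z (n 0 z (n 0 z (n 0 z (n 0 z (n 0 z (n 0 z (n 0 z (n 0 z (n 0 z (n 0 z (n 0 z (n
 0 z (n 0 z z))))))))))))))))) (n 773 (n 2 z (n 0 z (n 0 z (n 0 z (n 0 z (n 0 z (n 0 z z)))))))
 z))))))) (n 0 (n 0 z (n 665 (n 0 z (n 0 z (n 0 z (n 0 z (n 0 z (n 0 z (n 0 z (n 0 z (n 0 z (n 0
 z (n 0 z (n 0 z (n 0 z (n 0 z (n 0 z (n 0 z (n 0 z (n 0 z (n 0 z (n 0 z (n 0 z (n 0 z (n 0 z (n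
 0 z (n 0 z (n 0 z (n 0 z (n 0 z (n 0 z (n 0 z (n 0 z (n 0 z (n 0 z (n 0 z (n 0 z (n 0 z (n 0 z
 (n 0 z (n 0 z (n 0 z (n 0 z (n 0 z (n 0 z (n 0 z (n 0 z (n 0 z (n 0 z (n 0 z (n 0 z (n 0 z (n 0
 z z))))))))))))))))))))))))))))))))))))))))))))))))))) (n 665 (n 0 z (n 0 z (n 0 z (n 0 z (n 0
 z (n 0 z (n 0 z (n 0 z (n 0 z (n 0 z (n 0 z (n 0 z (n 0 z (n 0 z (n 0 z (n 0 z (n 0 z (n 0 z (n
 0 z (n 0 z (n 0 z (n 0 z (n 0 z (n 0 z (n 0 z (n 0 z (n 0 z (n 0 z (n 0 z (n 0 z (n 0 z (n 0 z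
 (n 0 z (n 0 z (n 0 z (n 0 z (n 0 z (n 0 z (n 0 z (n 0 z (n 0 z (n 0 z (n 0 z (n 0 z (n 0 z (n 0
 z (n 0 z (n 0 z (n 0 z (n 0 z (n 0 z z))))))))))))))))))))))))))))))))))))))))))))))))))) (n
 665 (n 0 z (n 0 z (n 0 z (n 0 z (n 0 z (n 0 z (n 0 z (n 0 z (n 0 z (n 0 z (n 0 z (n 0 z (n 0 z
 (n 0 z (n 0 z (n 0 z (n 0 z (n 0 z (n 0 z (n 0 z (n 0 z (n 0 z (n 7540835 z (n 0 z (n 0 z (n 0
 z (n 0 z (n 0 z (n 0 z (n 0 z (n 0 z (n 0 z (n 0 z (n 0 z (n 0 z (n 0 z (n 0 z (n 0 z (n 0 z (n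
 0 z (n 0 z (n 0 z (n 0 z (n 0 z (n 0 z (n 0 z (n 0 z (n 0 z (n 0 z (n 0 z (n 0 z
 z))))))))))))))))))))))))))))))))))))))))))))))))))) (n 665 (n 0 z (n 0 z (n 0 z (n 0 z (n 0 z
 (n 0 z (n 0 z (n 0 z (n 0 z (n 0 z (n 0 z (n 0 z (n 0 z (n 0 z (n 0 z (n 0 z (n 0 z (n 0 z (n 0
 z (n 0 z (n 0 z (n 0 z (n 0 z (n 0 z (n 0 z (n 0 z (n 0 z (n 0 z (n 0 z (n 0 z (n 0 z (n 0 z (n
 0 z (n 0 z (n 0 z (n 0 z (n 0 z (n 0 z (n 0 z (n 0 z (n 0 z (n 0 z (n 0 z (n 0 z (n 0 z (n 0 z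
 (n 0 z (n 0 z (n 0 z (n 0 z (n 0 z z))))))))))))))))))))))))))))))))))))))))))))))))))) (n 269
 (n 0 z (n 0 z (n 0 z (n 0 z (n 0 z (n 0 z (n 0 z (n 0 z (n 0 z (n 0 z (n 0 z (n 0 z (n 0 z (n 0
 z (n 0 z (n 0 z (n 0 z (n 0 z (n 0 z (n 0 z (n 0 z (n 0 z (n 0 z (n 0 z (n 0 z
 z))))))))))))))))))))))))) z)))))) (n 0 (n 267 (n 0 z (n 0 z (n 0 z (n 0 z (n 0 z (n 0 z (n 0 z
 (n 0 z (n 0 z (n 0 z (n 0 z (n 0 z (n 0 z (n 0 z (n 0 z (n 0 z (n 0 z (n 0 z (n 0 z (n 0 z (n 0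
 z (n 0 z z)))))))))))))))))))))) (n 267 (n 0 z (n 0 z (n 0 z (n 0 z (n 0 z (n 0 z (n 0 z (n 0 z
 (n 0 z (n 0 z (n 0 z (n 0 z (n 0 z (n 0 z (n 0 z (n 0 z (n 0 z (n 0 z (n 0 z (n 0 z (n 0 z (n 0
 z z)))))))))))))))))))))) (n 267 (n 0 z (n 0 z (n 0 z (n 0 z (n 0 z (n 0 z (n 0 z (n 0 z (n 0 z
 (n 0 z (n 0 z (n 0 z (n 0 z (n 0 z (n 0 z (n 0 z (n 0 z (n 0 z (n 0 z (n 0 z (n 0 z (n 0 z
 z)))))))))))))))))))))) (n 267 (n 0 z (n 0 z (n 0 z (n 0 z (n 0 z (n 0 z (n 0 z (n 0 z (n 0 z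
 (n 0 z (n 0 z (n 0 z (n 0 z (n 0 z (n 0 z (n 0 z (n 0 z (n 0 z (n 0 z (n 0 z (n 0 z (n 0 z
 z)))))))))))))))))))))) (n 269 (n 0 z (n 0 z (n 0 z (n 0 z (n 0 z (n 0 z (n 0 z z))))))) z)))))
 (n 0 (n 0 z (n 0 z (n 0 z (n 5 (n 0 z (n 0 z (n 0 z (n 0 z (n 0 z (n 2 z (n 0 z (n 0 z (n 0 z
 z))))))))) z)))) (n 0 (n 0 z (n 0 z (n 1 (n 0 z (n 0 z (n 0 z (n 0 z (n 0 z (n 0 z (n 0 z (n 0
 z (n 0 z (n 0 z (n 0 z z))))))))))) z))) (n 0 (n 0 z (n 269 (n 0 z (n 0 z (n 0 z (n 0 z (n 0 z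
 (n 0 z (n 0 z (n 0 z (n 0 z (n 0 z (n 0 z z))))))))))) z)) (n 0 (n 257 (n 7746051 z (n 7746051
 z (n 0 z (n 0 z (n 0 z (n 0 z (n 0 z (n 0 z (n 0 z (n 0 z (n 0 z z))))))))))) z) (n 0 z
 z)))))))))) (n 0 (n 0 z (n 0 z (n 1 (n 2164299 z (n 2164299 z (n 6423883 z (n 2164299 z (n
 2164299 z (n 2164299 z z)))))) (n 0 z z)))) (n 0 z z)))) (n
 0x4c126e20c965085b2882d4c520165a0129240d224065b400a30808a840 (n 0 (n 179 (n 2 z (n 0 z (n 10 z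
 (n 18 z (n
 0xeca8a864078237e481582180d81a7b68047b28217a181781b82679881b7e17fe7a68257c181e85080c7f482782181c80a7dd8107b67ef7cb8187cd8098257f47fd82c7ee82780b8267ec80c7e581d7e30811
 z (n 3282443 z (n 26 z (n
 0xca8ca84038008018008008007ff8008008008008007ff8008017ff8018018008017ff8018008008017ff8018008018017ff8008008008007ff8018018008008008028018018008018008008008008010811
 z (n 34 z (n 42 z (n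
 0xcca8c864077ed8308048208177d18277f08387e78447f37dd7af7e67e68827f384f8008517ce7a37ee81087782082c7cb7f382a7f47e77c08158328287d67bf81f7988117ff8118257ed7ea7fb8027fb0811
 z (n 50 z z)))))))))))) (n 33 (n 0 z (n 6558475 z z)) (n 173 (n 58 z (n 0 z (n 0 z (n 3212843 z
 (n 0 z z))))) (n 3 (n 66 z (n 0 z (n 0 z (n 2164283 z (n 0 z (n 74 z (n 82 z (n 0 z z))))))))
 (n 1 (n 0 z (n 0 z (n 0 z (n 0 z (n 6558475 z (n 0 z (n 0 z (n 0 z z)))))))) (n 0 (n 0 z (n 0 z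
 (n 2164315 z (n 0 z z)))) z)))))) (n 33 (n 0 (n 0 z (n 0 z (n 0 z (n 0 z (n 0 z (n 0 z (n 259
 (n 0 z (n 0 z (n 0 z (n 0 z (n 0 z (n 0 z (n 0 z (n 0 z (n 0 z (n 0 z (n 0 z (n 0 z (n 0 z (n 0
 z (n 0 z (n 0 z (n 0 z (n 0 z (n 0 z (n 0 z (n 0 z (n 0 z (n 0 z (n 0 z (n 0 z (n 0 z (n 0 z (n
 0 z (n 0 z (n 0 z (n 0 z (n 0 z (n 0 z (n 0 z (n 0 z (n 0 z (n 0 z (n 0 z (n 0 z (n 0 z (n 0 z
 (n 0 z (n 0 z (n 0 z (n 0 z (n 0 z z)))))))))))))))))))))))))))))))))))))))))))))) (n 33 (n 0 z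
 (n 0 z (n 0 z (n 0 z (n 0 z (n 0 z (n 0 z (n 0 z (n 0 z (n 0 z (n 0 z (n 0 z z)))))))))))) (n
 33 (n 0 z (n 0 z (n 0 z (n 0 z (n 7745555 z (n 0 z (n 0 z (n 0 z (n 0 z (n 0 z (n 0 z (n 0 z
 z)))))))))))) (n 33 (n 0 z (n 0 z (n 0 z (n 0 z (n 0 z (n 0 z (n 0 z (n 0 z (n 0 z (n 0 z (n 0
 z (n 0 z z)))))))))))) z)))))))))) (n 0 (n 0 z (n 0 z (n 0 z (n 0 z (n 0 z (n 107 (n 0 z (n 0 z
 (n 0 z (n 0 z (n 0 z (n 0 z (n 0 z (n 0 z (n 0 z (n 0 z (n 0 z (n 0 z (n 0 z (n 0 z (n 0 z (n 0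
 z (n 0 z (n 0 z (n 0 z (n 0 z (n 0 z (n 0 z (n 0 z (n 0 z (n 0 z (n 0 z (n 0 z (n 0 z (n 0 z (n
 0 z (n 0 z (n 0 z (n 0 z (n 0 z (n 0 z (n 0 z (n 0 z (n 0 z (n 0 z (n 0 z (n 0 z (n 0 z (n 0 z
 (n 0 z (n 0 z (n 0 z (n 0 z z))))))))))))))))))))))))))))))))))))))))))))))) (n 45 (n 0 z (n 0
 z (n 0 z (n 0 z (n 0 z (n 0 z (n 0 z (n 0 z (n 0 z (n 0 z (n 0 z (n 0 z z)))))))))))) (n 45 (n
 0 z (n 0 z (n 0 z (n 7745555 z (n 0 z (n 0 z (n 0 z (n 0 z (n 0 z (n 0 z (n 0 z (n 0 z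
 z)))))))))))) (n 45 (n 0 z (n 0 z (n 2 z (n 0 z (n 0 z (n 0 z (n 0 z (n 0 z (n 0 z (n 0 z (n 0
 z (n 0 z z)))))))))))) z))))))))) (n 0 (n 0 z (n 0 z (n 0 z (n 0 z (n 813 (n 0 z (n 0 z (n 0 z
 (n 0 z (n 0 z (n 0 z (n 0 z (n 0 z (n 0 z (n 0 z (n 0 z (n 0 z (n 0 z z))))))))))))) (n 969 (n
 0 z (n 0 z (n 0 z (n 0 z (n 0 z (n 0 z (n 0 z (n 0 z (n 0 z (n 0 z (n 0 z (n 0 z (n 0 z (n 0 z
 (n 0 z (n 0 z (n 0 z z))))))))))))))))) (n 969 (n 0 z (n 0 z (n 0 z (n 0 z (n 0 z (n 2 (n 0 z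
 z) (n 0 z (n 0 z (n 0 z (n 0 z (n 0 z (n 0 z (n 0 z (n 0 z (n 0 z (n 0 z (n 0 z
 z))))))))))))))))) (n 969 (n 0 z (n 0 z (n 0 z (n 0 z (n 0 z (n 0 z (n 0 z (n 0 z (n 0 z (n 0 z
 (n 0 z (n 0 z (n 0 z (n 0 z (n 0 z (n 0 z (n 0 z z))))))))))))))))) z)))))))) (n 0 (n 0 z (n 0
 z (n 0 z (n 807 (n 0 z (n 0 z (n 0 z (n 0 z (n 0 z (n 0 z (n 0 z (n 0 z (n 0 z (n 0 z (n 0 z (n
 0 z (n 0 z (n 0 z (n 0 z (n 0 z (n 0 z (n 0 z (n 0 z (n 0 z (n 0 z (n 0 z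
 z)))))))))))))))))))))) (n 247 (n 0 z (n 0 z (n 0 z (n 0 z (n 0 z (n 0 z (n 0 z (n 0 z (n 0 z
 (n 0 z (n 0 z (n 0 z (n 0 z (n 0 z (n 0 z (n 0 z (n 0 z z))))))))))))))))) (n 247 (n 0 z (n 0 z
 (n 0 z (n 0 z (n 0 z (n 0 z (n 0 z (n 0 z (n 0 z (n 0 z (n 2 (n 0 z z) (n 0 z (n 0 z (n 0 z (n
 0 z (n 0 z (n 0 z z))))))))))))))))) (n 247 (n 0 z (n 0 z (n 0 z (n 0 z (n 0 z (n 0 z (n 0 z (n
 0 z (n 0 z (n 0 z (n 0 z (n 0 z (n 0 z (n 0 z (n 0 z (n 0 z (n 0 z z))))))))))))))))) z)))))))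
 (n 0 (n 0 z (n 0 z (n 779 (n 0 z (n 0 z (n 0 z (n 0 z (n 0 z (n 0 z (n 0 z (n 0 z (n 0 z (n 0 z
 (n 0 z (n 0 z (n 0 z (n 0 z (n 0 z (n 0 z (n 0 z (n 0 z (n 0 z (n 0 z (n 0 z (n 0 z (n 0 z (n 0
 z (n 0 z (n 0 z (n 0 z (n 0 z (n 0 z (n 0 z (n 0 z (n 0 z (n 0 z (n 0 z (n 0 z
 z))))))))))))))))))))))))))))))))))) (n 11 (n 0 z (n 0 z (n 0 z (n 0 z (n 0 z (n 0 z (n 0 z (n
 0 z z)))))))) (n 11 (n 0 z (n 0 z (n 0 z (n 7745555 z (n 0 z (n 0 z (n 0 z (n 0 z z)))))))) (n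
 11 (n 0 z (n 0 z (n 0 z (n 0 z (n 0 z (n 0 z (n 0 z (n 0 z z)))))))) z)))))) (n 0 (n 0 z (n 807
 (n 0 z (n 0 z (n 0 z (n 0 z (n 2 (n 1 z (n 1 z (n 2 (n 0 z (n 0 z (n 0 z (n 0 z (n 0 (n 4836 z
 z) (n 0 z z)))))) z))) (n 0 z (n 0 z (n 0 z (n 0 z (n 0 z (n 0 z (n 0 z (n 0 z (n 0 z (n 0 z (n
 0 z (n 0 z (n 0 z (n 0 z (n 0 z (n 0 z (n 0 z (n 0 z (n 0 z (n 0 z (n 0 z (n 0 z (n 0 z (n 0 z
 (n 0 z (n 0 z (n 0 z z)))))))))))))))))))))))))))))))) (n 1209 (n 0 z (n 0 z (n 0 z (n 0 z (n 0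
 z (n 0 z (n 0 z (n 0 z (n 0 z (n 0 z (n 0 z (n 2 (n 0 z (n 0 z z)) (n 0 z (n 0 z (n 0 z (n 0 z
 (n 0 z z))))))))))))))))) (n 1209 (n 0 z (n 0 z (n 0 z (n 2 (n 0 z z) (n 0 z (n 0 z (n 0 z (n 0
 z (n 0 z (n 0 z (n 0 z (n 0 z (n 0 z (n 0 z (n 0 z (n 0 z (n 0 z z))))))))))))))))) (n 1209 (n
 0 z (n 0 z (n 0 z (n 0 z (n 0 z (n 0 z (n 0 z (n 0 z (n 0 z (n 0 z (n 0 z (n 0 z (n 0 z (n 0 z
 (n 0 z (n 0 z (n 0 z z))))))))))))))))) z))))) (n 0 (n 779 (n 0 z (n 0 z (n 0 z (n 2 (n 1 z (n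
 1 z (n 1 z z))) (n 0 z (n 0 z (n 0 z (n 0 z (n 0 z (n 0 z (n 0 z (n 0 z (n 0 z (n 0 z
 z)))))))))))))) (n 251 (n 0 z (n 0 z (n 0 z (n 0 z (n 2 (n 0 z (n 0 z z)) (n 0 z (n 0 z (n 0 z
 (n 0 z (n 0 z (n 0 z (n 0 z (n 0 z (n 0 z (n 0 z (n 0 z (n 0 z z))))))))))))))))) (n 251 (n 0 z
 (n 0 z (n 0 z (n 0 z (n 0 z (n 2 (n 0 z z) (n 0 z (n 0 z (n 0 z (n 0 z (n 0 z (n 0 z (n 0 z (n
 0 z (n 0 z (n 0 z (n 0 z z))))))))))))))))) (n 251 (n 0 z (n 0 z (n 0 z (n 0 z (n 0 z (n 0 z (n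
 0 z (n 0 z (n 0 z (n 0 z (n 0 z (n 0 z (n 0 z (n 0 z (n 0 z (n 0 z (n 0 z z)))))))))))))))))
 z)))) (n 0 (n 573 (n 0 z (n 0 z (n 0 z (n 0 z (n 0 z (n 0 z (n 0 z (n 0 z (n 0 z (n 0 z
 z)))))))))) (n 573 (n 7745555 z (n 0 z (n 0 z (n 0 z (n 0 z (n 0 z (n 0 z (n 0 z (n 0 z (n 0 z
 z)))))))))) (n 573 (n 0 z (n 0 z (n 0 z (n 0 z (n 0 z (n 2 z (n 0 z (n 0 z (n 0 z (n 0 z
 z)))))))))) z))) (n 0 (n 0 z (n 0 z z)) (n 0 (n 0 z z) (n 0 z z))))))))))) (n 0 (n 0 z (n 1 (n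
 6558475 z (n 6558475 z (n 6558475 z (n 6558475 z (n 6558475 z (n 6558475 z z)))))) z)) (n 0 z
 z)))) (n 0x462568312901d64214aa6c26af41a5760513a8449ca2e8e21ac690753 (n 0 (n 573 (n 3282443 z
 (n 0 z (n 0 z z))) (n 571 (n 0 z (n 3278363 z (n 0 z (n 0 z (n 0 z z))))) (n 570 (n 3212843 z
 (n 0 z (n 0 z (n 0 z (n 0 z (n 0 z (n 0 z (n 6423611 z (n 0 z z))))))))) (n 3 (n 2164283 z (n 2
 z (n 10 z (n 18 z (n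
 0x14ca4ca42078a74939d559875847d866d8a848d74817687748f807b8477828a717f8e826a817f7e7684887c727c6d8e758b72837c8b8d7b0809
 z (n
 0x39620847e8b866a8b7c7d83757281818a7c8280807e877f857e8382847c7d8483737b717d71838280738383937f907c807d828c7c0049
 z (n 26 z (n
 0x10ca4ca420788768f975e9377837d857188838b76817886768d7f7c83788288757f8b816f81807e7883877d757d718b788973837d898b7b0809
 z (n 34 z (n 42 z (n 50 z z))))))))))) (n 1 (n 2164299 z (n 58 z (n 0 z (n 0 z (n 66 z (n 0 z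
 (n 0 z (n 74 z (n 0 z (n 0 z (n 0 z z))))))))))) (n 0 (n 6619675 z (n 82 z (n 0 z (n 0 z (n 0 z
 (n 0 z (n 0 z (n 0 z z)))))))) z)))))) (n 573 (n 0 (n 0 z (n 0 z (n 0 z (n 0 z (n 0 z (n 0 z (n
 51 (n 7750403 z (n 0 z (n 0 z (n 0 z (n 0 z (n 0 z (n 0 z (n 0 z (n 0 z (n 0 z (n 0 z
 z))))))))))) (n 51 (n 0 z (n 0 z (n 0 z (n 0 z (n 0 z (n 0 z (n 0 z (n 0 z (n 0 z (n 0 z (n 0 z
 z))))))))))) (n 51 (n 0 z (n 0 z (n 0 z (n 0 z (n 0 z (n 0 z (n 0 z (n 0 z (n 0 z (n 0 z (n 0 z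
 z))))))))))) (n 49 (n 0 z (n 0 z (n 0 z (n 0 z (n 7750403 z (n 0 z (n 0 z (n 0 z (n 0 z (n 0 z
 (n 0 z (n 0 z (n 0 z (n 0 z (n 0 z (n 0 z (n 0 z (n 0 z (n 0 z (n 0 z (n 0 z (n 0 z (n 0 z (n 0
 z (n 0 z (n 0 z (n 0 z (n 0 z (n 0 z (n 0 z (n 0 z (n 0 z (n 0 z
 z))))))))))))))))))))))))))))))))) z)))))))))) (n 0 (n 0 z (n 0 z (n 0 z (n 0 z (n 0 z (n 3 (n
 0 z (n 0 z (n 2 (n 0 z (n 0 z (n 1 z z))) (n 0 z (n 0 z (n 0 z (n 0 z (n 0 z (n 0 z (n 0 z (n 0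
 z (n 0 z (n 0 z (n 0 z (n 0 z (n 0 z (n 0 z (n 0 z (n 0 z (n 0 z (n 0 z (n 0 z (n 0 z (n 0 z (n
 0 z (n 0 z (n 0 z (n 0 z (n 0 z z))))))))))))))))))))))))))))) (n 3 (n 0 z (n 0 z (n 0 z (n 0 z
 (n 0 z (n 0 z (n 0 z (n 0 z (n 0 z (n 0 z (n 0 z (n 0 z (n 0 z (n 0 z (n 0 z (n 0 z (n 0 z (n 0
 z (n 0 z (n 0 z (n 0 z (n 0 z (n 0 z (n 0 z (n 0 z (n 0 z (n 0 z (n 0 z (n 0 z
 z))))))))))))))))))))))))))))) (n 3 (n 0 z (n 0 z (n 0 z (n 0 z (n 0 z (n 0 z (n 0 z (n 0 z (n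
 0 z (n 0 z (n 0 z (n 0 z (n 0 z (n 0 z (n 0 z (n 0 z (n 0 z (n 0 z (n 0 z (n 0 z (n 2 (n 1 z z)
 (n 0 z (n 0 z (n 0 z (n 0 z (n 0 z (n 0 z (n 0 z (n 0 z z))))))))))))))))))))))))))))) (n 5 (n
 0 z (n 2 z (n 0 z (n 0 z (n 0 z (n 0 z (n 0 z z))))))) z))))))))) (n 0 (n 0 z (n 0 z (n 0 z (n
 0 z (n 51 (n 2 (n 0 z (n 0 z (n 1 z z))) (n 0 z (n 0 z (n 0 z (n 0 z (n 0 z (n 0 z (n 0 z (n 0
 z (n 0 z (n 0 z (n 0 z (n 0 z (n 0 z (n 0 z (n 0 z (n 0 z (n 0 z (n 0 z (n 0 z (n 0 z (n 0 z (n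
 0 z (n 0 z (n 0 z (n 0 z (n 0 z (n 0 z (n 0 z z))))))))))))))))))))))))))))) (n 51 (n 0 z (n 0
 z (n 0 z (n 0 z (n 0 z (n 0 z (n 0 z (n 0 z (n 0 z (n 0 z (n 0 z (n 0 z (n 0 z (n 0 z (n 0 z (n
 0 z (n 0 z (n 0 z (n 0 z (n 0 z (n 0 z (n 0 z (n 0 z (n 0 z (n 0 z (n 0 z (n 0 z (n 0 z (n 0 z
 z))))))))))))))))))))))))))))) (n 51 (n 0 z (n 0 z (n 0 z (n 0 z (n 0 z (n 0 z (n 0 z (n 0 z (n
 0 z (n 0 z (n 0 z (n 0 z (n 0 z (n 0 z (n 0 z (n 0 z (n 0 z (n 0 z (n 0 z (n 0 z (n 0 z (n 0 z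
 (n 0 z (n 0 z (n 0 z (n 0 z (n 0 z (n 0 z (n 0 z z))))))))))))))))))))))))))))) (n 5 (n 0 z (n
 0 z (n 0 z (n 0 z (n 0 z (n 0 z (n 0 z (n 0 z (n 0 z (n 0 z (n 0 z (n 0 z (n 0 z (n 0 z (n 0 z
 (n 0 z z)))))))))))))))) z)))))))) (n 0 (n 0 z (n 0 z (n 0 z (n 3 (n 0 z (n 7750403 z (n 0 z (n
 0 z (n 0 z (n 0 z (n 0 z (n 0 z z)))))))) (n 3 (n 0 z (n 0 z (n 0 z (n 0 z (n 2 (n 0 z (n 1 z
 z)) (n 0 z (n 0 z (n 0 z z)))))))) (n 3 (n 0 z (n 0 z (n 0 z (n 0 z (n 0 z (n 0 z (n 0 z (n 0 z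
 z)))))))) (n 1 (n 0 z (n 0 z (n 0 z (n 0 z (n 0 z (n 0 z (n 0 z (n 0 z (n 0 z (n 0 z (n 0 z (n
 0 z (n 0 z (n 0 z (n 0 z (n 0 z (n 0 z (n 0 z (n 0 z (n 0 z (n 0 z (n 0 z (n 0 z (n 0 z (n 0 z
 (n 0 z (n 0 z z))))))))))))))))))))))))))) z))))))) (n 0 (n 0 z (n 0 z (n 51 (n 7750403 z (n 0
 z (n 0 z (n 0 z (n 0 z (n 0 z (n 0 z (n 0 z z)))))))) (n 51 (n 0 z (n 0 z (n 0 z (n 0 z (n 0 z
 (n 0 z (n 0 z (n 0 z z)))))))) (n 51 (n 0 z (n 0 z (n 0 z (n 0 z (n 0 z (n 0 z (n 0 z (n 0 z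
 z)))))))) (n 49 (n 0 z (n 0 z (n 0 z (n 0 z (n 0 z (n 0 z (n 0 z (n 0 z (n 0 z (n 0 z (n 0 z (n
 0 z (n 0 z (n 0 z (n 0 z (n 0 z (n 0 z (n 0 z (n 0 z (n 0 z (n 0 z (n 0 z (n 0 z
 z))))))))))))))))))))))) z)))))) (n 0 (n 0 z (n 243 (n 0 z (n 0 z (n 2 (n 0 z (n 0 z (n 2 (n 0
 z (n 0 z (n 0 (n 8864515 z z) (n 0 z (n 0 z (n 0 z z)))))) z))) (n 0 z (n 0 z (n 0 z (n 0 z (n
 0 z (n 0 z (n 0 z (n 0 z (n 0 z (n 0 z (n 0 z (n 0 z (n 0 z (n 0 z (n 0 z (n 0 z (n 0 z (n 0 z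
 (n 0 z (n 0 z (n 0 z (n 0 z (n 0 z (n 0 z (n 0 z (n 0 z (n 0 z (n 0 z (n 0 z (n 0 z (n 0 z (n 0
 z (n 0 z z)))))))))))))))))))))))))))))))))))) (n 243 (n 0 z (n 0 z (n 0 z (n 0 z (n 0 z (n 0 z
 (n 0 z (n 0 z (n 0 z (n 0 z (n 0 z (n 0 z (n 0 z (n 0 z (n 0 z (n 0 z (n 0 z (n 0 z (n 0 z (n 0
 z (n 0 z (n 0 z (n 0 z (n 0 z (n 0 z (n 0 z (n 0 z (n 0 z (n 0 z (n 0 z (n 0 z (n 0 z (n 0 z (n
 0 z (n 0 z (n 0 z z)))))))))))))))))))))))))))))))))))) (n 243 (n 0 z (n 0 z (n 0 z (n 0 z (n 0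
 z (n 0 z (n 0 z (n 0 z (n 0 z (n 0 z (n 0 z (n 0 z (n 0 z (n 0 z (n 0 z (n 0 z (n 0 z (n 0 z (n
 0 z (n 0 z (n 0 z (n 0 z (n 0 z (n 0 z (n 0 z (n 0 z (n 0 z (n 0 z (n 0 z (n 0 z (n 2 (n 1 z z)
 (n 0 z (n 0 z (n 0 z (n 0 z (n 0 z z)))))))))))))))))))))))))))))))))))) (n 5 (n 0 z (n 2 z (n
 0 z (n 0 z (n 0 z (n 0 z (n 0 z (n 0 z (n 0 z (n 0 z (n 0 z (n 0 z (n 0 z (n 0 z (n 0 z
 z))))))))))))))) z))))) (n 0 (n 483 (n 2 (n 0 z (n 0 z (n 2 (n 0 z (n 0 z (n 0 (n 8864515 z z)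
 (n 0 z (n 0 z (n 0 z z)))))) z))) (n 0 z (n 0 z (n 0 z (n 0 z (n 0 z (n 0 z (n 0 z (n 0 z (n 0
 z (n 0 z (n 0 z (n 0 z (n 0 z (n 0 z (n 0 z (n 0 z (n 0 z (n 0 z (n 0 z (n 0 z (n 0 z (n 0 z (n
 0 z (n 0 z (n 0 z (n 0 z (n 0 z (n 0 z (n 0 z (n 0 z (n 0 z (n 0 z (n 0 z (n 0 z (n 0 z
 z)))))))))))))))))))))))))))))))))))) (n 483 (n 0 z (n 0 z (n 0 z (n 0 z (n 0 z (n 0 z (n 0 z
 (n 0 z (n 0 z (n 0 z (n 0 z (n 0 z (n 0 z (n 0 z (n 0 z (n 0 z (n 0 z (n 0 z (n 0 z (n 0 z (n 0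
 z (n 0 z (n 0 z (n 0 z (n 0 z (n 0 z (n 0 z (n 0 z (n 0 z (n 0 z (n 0 z (n 0 z (n 0 z (n 0 z (n
 0 z (n 0 z z)))))))))))))))))))))))))))))))))))) (n 483 (n 0 z (n 0 z (n 0 z (n 0 z (n 0 z (n 0
 z (n 0 z (n 0 z (n 0 z (n 0 z (n 0 z (n 0 z (n 0 z (n 0 z (n 0 z (n 0 z (n 0 z (n 0 z (n 0 z (n
 0 z (n 0 z (n 0 z (n 0 z (n 0 z (n 0 z (n 0 z (n 0 z (n 0 z (n 0 z (n 0 z (n 0 z (n 0 z (n 0 z
 (n 0 z (n 0 z (n 0 z z)))))))))))))))))))))))))))))))))))) (n 5 (n 0 z (n 0 z (n 0 z (n 0 z (n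
 0 z (n 0 z (n 0 z z))))))) z)))) (n 0 (n 0 z (n 0 z (n 1 (n 0 z (n 0 z (n 0 z (n 0 z (n 0 z (n
 0 z (n 0 z (n 0 z (n 0 z (n 0 z (n 0 z (n 0 z (n 0 z (n 0 z (n 7750403 z (n 0 z (n 0 z (n 0 z
 (n 0 z (n 0 z (n 0 z (n 0 z (n 0 z (n 0 z (n 0 z (n 0 z (n 0 z (n 0 z (n 0 z (n 0 z (n 0 z (n 0
 z (n 0 z z))))))))))))))))))))))))))))))))) z))) (n 0 (n 0 z (n 1 (n 2 z (n 0 z (n 0 z (n 0 z
 (n 0 z (n 0 z (n 0 z (n 0 z (n 0 z (n 0 z z)))))))))) z)) (n 0 (n 5 (n 0 z (n 0 z (n 0 z (n 0 z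
 (n 0 z (n 0 z (n 0 z (n 0 z (n 0 z (n 0 z (n 0 z z))))))))))) z) (n 0 z z))))))))))) (n 0 (n 1
 (n 3282443 z (n 3282443 z (n 3282443 z (n 3282443 z (n 3282443 z (n 3282443 z z)))))) (n 0 z (n
 0 z z))) (n 0 z z)))) (n 0x2d6a51532a874a742699b8529c61a66674269a61959d21969a04ab70a542c12d34c0
 (n 0 (n 279 (n 2 z (n 3282443 z (n 0 z z))) (n 255 (n
 0x14a64ca2807807e827f817c7d7c817f8a877d7c8682857980808189897d817f8486847f80818185787e7e878380808285877e7f83837a810809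
 z (n 0 z (n 10 z (n 0 z (n 18 z (n 26 z (n 6562131 z (n 6562131 z (n 0 z (n 3278363 z (n 0 z (n
 34 z (n 0 z z))))))))))))) (n 9 (n 0 z (n 0 z (n 42 z (n 0 z (n 0 z (n 6562131 z (n 0 z (n
 6562131 z (n 0 z (n 0 z (n 50 z (n 0 z (n 0 z z))))))))))))) (n 243 (n 0 z (n 2164283 z (n 0 z
 (n 0 z z)))) (n 1 (n 58 z (n 0 z (n 0 z (n 0 z (n 6562131 z (n 0 z (n 0 z (n 66 z z)))))))) (n
 0 (n 74 z (n 0 z (n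
 0x6ca88642078180808280808080807f7e8281817f827f80807f7f80827f7f80817f817e808181818080818281807f7f81807f7f808080800809
 z (n
 0x1a65442130382b20a10180c5194d0c480e00c62c604031165143020182321b08100c0d9098c840e20ca88642070965243010384329219000c258c58c400e0aca486200386788b9385888984877d757981806870867f717982767787848786857f7e81947b8a80708484888076798b75748a738d7a7a6009
 z (n 0 z (n 82 z (n 0 z (n 0 z (n 0 z (n 0 z (n 6619675 z (n 0 z (n 90 z (n 6619675 z (n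
 3278427 z (n 0 z (n 98 z (n 0 z (n 0 z (n 0 z (n 0 z (n 0 z (n
 0x332a210981c21885900c0602842c806031b64162030188b28a18101c0990d0c040e04ca486400789a289a275838879786d7f7e7677928c8c80868d88767189727c807382847c7b83738b8f877578807580766f9e76777e91963809
 z z))))))))))))))))))))))) z)))))) (n 279 (n 0 (n 79 (n 7673403 z (n 0 z (n 0 z (n 0 z (n 0 z
 (n 0 z (n 0 z (n 0 z (n 0 z (n 0 z (n 0 z z))))))))))) (n 79 (n 0 z (n 0 z (n 0 z (n 2 (n 0 z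
 (n 0 z (n 1 z (n 1 z (n 1 z (n 2 (n 0 (n 2124 z z) (n 0 z (n 0 z (n 0 (n 2124 z z) (n 0 z (n 0
 (n 2124 z (n 2124 z z)) z)))))) (n 1 z (n 1 z (n 1 z (n 1 z z)))))))))) (n 0 z (n 0 z (n 0 z (n
 0 z (n 0 z (n 0 z (n 0 z z))))))))))) (n 79 (n 0 z (n 0 z (n 0 z (n 0 z (n 0 z (n 0 z (n 0 z (n
 0 z (n 0 z (n 0 z (n 0 z z))))))))))) (n 79 (n 0 z (n 0 z (n 0 z (n 0 z (n 0 z (n 0 z (n 0 z (n
 0 z (n 0 z (n 0 z (n 2 (n 1 z (n 1 z (n 1 z (n 1 z (n 1 z (n 1 z (n 1 z (n 1 z z))))))))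
 z))))))))))) (n 151 (n 0 z (n 0 z (n 0 z (n 0 z (n 0 z (n 0 z (n 0 z z))))))) (n 151 (n 0 z (n
 0 z (n 0 z (n 0 z (n 0 z (n 0 z (n 0 z z))))))) (n 531 (n 0 z (n 0 z (n 0 z (n 0 z (n 0 z (n 0
 z (n 0 z (n 0 z (n 0 z z))))))))) (n 531 (n 0 z (n 0 z (n 0 z (n 0 z (n 0 z (n 0 z (n 0 z (n 0
 z (n 0 z z))))))))) (n 533 (n 0 z (n 0 z (n 0 z (n 0 z (n 0 z (n 0 z (n 0 z (n 0 z (n 0 z (n 0
 z (n 0 z (n 0 z (n 0 z (n 0 z (n 0 z (n 0 z (n 0 z (n 0 z (n 0 z (n 0 z (n 0 z (n 0 z (n 0 z (n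
 0 z (n 0 z (n 0 z (n 0 z (n 0 z z)))))))))))))))))))))))))))) (n 533 (n 0 z (n 0 z (n 0 z (n 0
 z (n 0 z (n 0 z (n 0 z (n 0 z (n 0 z (n 0 z (n 0 z (n 0 z (n 0 z (n 0 z (n 0 z (n 0 z (n 0 z (n
 0 z (n 0 z (n 0 z (n 0 z (n 0 z (n 0 z (n 0 z (n 0 z (n 0 z (n 0 z (n 0 z
 z)))))))))))))))))))))))))))) (n 533 (n 0 z (n 0 z (n 0 z (n 0 z (n 0 z (n 0 z (n 0 z (n 0 z (n
 0 z (n 0 z (n 0 z (n 0 z (n 0 z (n 0 z (n 0 z (n 0 z (n 0 z (n 0 z (n 0 z (n 0 z (n 0 z (n 0 z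
 (n 0 z (n 0 z (n 0 z (n 0 z (n 0 z (n 0 z z)))))))))))))))))))))))))))) (n 533 (n 0 z (n 0 z (n
 0 z (n 0 z (n 0 z (n 0 z (n 0 z (n 0 z (n 0 z (n 0 z (n 0 z (n 0 z (n 0 z (n 0 z (n 0 z (n
 7673403 z (n
 0x1abb23a0981ca5d0d90c40e16a84c402077daf766c8c849352a077603f8879ad6a8c87974186617b7b788870867e727a64798f9da06d99a580a2947a7f5d896c7c5c891809
 z (n 0 z (n 0 z (n 0 z (n 0 z (n 0 z (n 0 z (n 0 z (n 0 z (n 0 z (n 0 z (n 0 z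
 z)))))))))))))))))))))))))))) z)))))))))))) (n 0 (n 0 z (n 0 z (n 0 z (n 347 (n 7741699 z (n 0
 z (n 0 z (n 0 z (n 0 z (n 0 z (n 0 z (n 0 z (n 0 z (n 0 z (n 0 z (n 0 z z)))))))))))) (n 347 (n
 0 z (n 0 z (n 0 z (n 0 z (n 0 z (n 0 z (n 0 z (n 0 z (n 0 z (n 0 z (n 0 z (n 0 z z))))))))))))
 (n 345 (n 7741699 z (n 0 z (n 0 z (n 0 z (n 0 z (n 0 z (n 0 z (n 0 z z)))))))) (n 345 (n 0 z (n
 0 z (n 0 z (n 0 z (n 0 z (n 0 z (n 0 z (n 0 z z)))))))) (n 253 (n 7741699 z (n 0 z (n 0 z (n 0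
 z (n 0 z (n 0 z (n 0 z (n 0 z (n 0 z (n 0 z (n 0 z z))))))))))) (n 253 (n 0 z (n 0 z (n 0 z (n
 0 z (n 0 z (n 0 z (n 0 z (n 0 z (n 0 z (n 0 z (n 0 z z))))))))))) (n 253 (n 0 z (n 0 z (n 0 z
 (n 0 z (n 2 (n 0 z z) (n 0 z (n 0 z (n 0 z (n 0 z (n 0 z (n 0 z z))))))))))) (n 253 (n 0 z (n 0
 z (n 0 z (n 0 z (n 0 z (n 2 z (n
 0x8ec6ec48078087797a8a84807b847f80807e7f827d7884837d838180807c7d7d7d83857f7d8a7f818782838580857d7c7e7d807b7d837c0809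
 z (n 0 z (n 0 z (n 0 z (n 0 z z))))))))))) z))))))))))) (n 0 (n 0 z (n 0 z (n 765 (n 0 z (n 0 z
 (n 0 z (n 0 z (n 0 z (n 2 (n 0 z (n 1 z (n 2 (n 0 (n 276 z z) (n 0 (n 276 z z) (n 0 z (n 0 z (n
 0 z (n 0 (n 8652587 z (n 8587035 z z)) z)))))) (n 2 (n 0 z (n 0 z (n 0 z (n 0 z (n 0 z (n 0 (n
 8855811 z z) z)))))) (n 1 z (n 2 (n 0 z (n 0 z (n 0 z (n 0 z (n 0 z (n 0 (n 8803139 z z)
 z)))))) (n 1 z z))))))) (n 0 z (n 0 z (n 0 z (n 0 z (n 0 z (n 0 z (n 0 z z))))))))))))) (n 765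
 (n 0 z (n 0 z (n 0 z (n 0 z (n 0 z (n 0 z (n 0 z (n 0 z (n 0 z (n 0 z (n 0 z (n 0 z (n 0 z
 z))))))))))))) (n 69 (n 0 z (n 0 z (n 2 (n 0 z (n 2 (n 0 z (n 0 z (n 0 z (n 0 z (n 0 z (n 0 (n
 8855811 z z) z)))))) (n 1 z (n 2 (n 0 z (n 0 z (n 0 z (n 0 z (n 0 z (n 0 (n 8803139 z z)
 z)))))) (n 1 z z))))) (n 0 z (n 0 z z))))) (n 69 (n 0 z (n 0 z (n 0 z (n 0 z (n 0 z z))))) (n
 509 (n 0 z (n 0 z (n 0 z (n 0 z (n 0 z (n 0 z (n 0 z (n 2 (n 0 z (n 0 z (n 0 z z))) z))))))))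
 (n 509 (n 0 z (n 0 z (n 0 z (n 0 z (n 0 z (n 0 z (n 0 z (n 0 z z)))))))) (n 509 (n 0 z (n 0 z
 (n 0 z (n 0 z (n 0 z (n 0 z (n 0 z (n 0 z z)))))))) (n 509 (n 0 z (n 0 z (n 0 z (n 0 z (n 0 z
 (n 0 z (n 0 z (n 0 z z)))))))) z)))))))))) (n 0 (n 0 z (n 271 (n 0 z (n 0 z (n 0 z (n 0 z (n 0
 z (n 0 z (n 0 z (n 0 z (n 0 z (n 0 z (n 0 z (n 0 z z)))))))))))) (n 271 (n 0 z (n 0 z (n 0 z (n
 0 z (n 0 z (n 0 z (n 0 z (n 0 z (n 0 z (n 0 z (n 2 (n 1 z (n 2 (n 0 z (n 0 (n 8586779 z z) (n 0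
 z (n 0 z (n 0 (n 3213435 z z) (n 0 (n 3213435 z (n 3213435 z z)) z)))))) (n 1 z (n 1 z (n 2 (n
 0 z (n 0 z (n 0 z (n 0 z (n 0 z (n 0 (n 4 z z) z)))))) (n 2 (n 0 z (n 0 z (n 0 z (n 0 z (n 0 z
 (n 0 (n 7604315 z z) z)))))) z)))))) (n 0 z z)))))))))))) (n 3 (n 0 z (n 0 z (n 0 z (n 0 z (n 0
 z (n 0 z (n 0 z (n 0 z (n 0 z (n 0 z (n 0 z (n 0 z z)))))))))))) (n 3 (n 0 z (n 0 z (n 0 z (n 0
 z (n 0 z (n 0 z (n 0 z (n 0 z (n 0 z (n 0 z (n 0 z (n 2 (n 2 (n 0 z (n 0 z (n 0 z (n 0 z (n 0 z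
 (n 0 (n 8790275 z z) z)))))) (n 2 (n 0 z (n 0 z (n 0 z (n 0 z (n 0 z (n 0 z z)))))) (n 2 (n 0 z
 (n 0 z (n 0 z (n 0 z (n 0 z (n 0 z z)))))) (n 2 (n 0 z (n 0 z (n 0 z (n 0 z (n 0 z (n 0 z
 z)))))) z)))) z)))))))))))) (n 1 (n 0 z (n 0 z (n 0 z (n 0 z (n 0 z (n 0 z (n 0 z (n 0 z (n 0 z
 (n 0 z (n 0 z (n 0 z (n 0 z (n 0 z z)))))))))))))) (n 1 (n 0 z (n 0 z (n 0 z (n 0 z (n 2 (n 0 z
 (n 0 z z)) (n 0 z (n 0 z (n 0 z (n 0 z (n 0 z (n 0 z (n 0 z (n 0 z (n 0 z z)))))))))))))) (n 1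
 (n 0 z (n 0 z (n 0 z (n 0 z (n 0 z (n 0 z (n 0 z (n 0 z (n 0 z (n 0 z (n 0 z (n 0 z (n 0 z (n 0
 z z)))))))))))))) (n 1 (n 0 z (n 0 z (n 0 z (n 0 z (n 0 z (n 0 z (n 0 z (n 0 z (n 0 z (n 0 z (n
 2 z (n 0 z (n 0 z (n 0 z z)))))))))))))) z))))))))) (n 0 (n 765 (n 0 z (n 0 z (n 2 (n 0 z (n 1
 z (n 1 z (n 1 z (n 1 z (n 1 z (n 1 z z))))))) (n 0 z (n 0 z (n 0 z (n 0 z (n 0 z z)))))))) (n
 765 (n 0 z (n 0 z (n 0 z (n 0 z (n 0 z (n 0 z (n 0 z (n 0 z z)))))))) (n 483 (n 2 (n 0 z (n 1 z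
 (n 1 z (n 1 z (n 1 z z))))) (n 0 z (n 0 z (n 0 z (n 0 z (n 0 z (n 0 z (n 0 z (n 0 z (n 0 z (n 0
 z (n 0 z (n 0 z (n 0 z z)))))))))))))) (n 483 (n 0 z (n 0 z (n 0 z (n 0 z (n 0 z (n 0 z (n 0 z
 (n 0 z (n 0 z (n 0 z (n 0 z (n 0 z (n 0 z (n 0 z z)))))))))))))) (n 485 (n 0 z (n 2 (n 0 z (n 0
 z (n 0 z z))) (n 0 z (n 0 z (n 0 z (n 0 z (n 0 z (n 0 z (n 0 z (n 0 z (n 0 z z))))))))))) (n
 485 (n 0 z (n 0 z (n 0 z (n 0 z (n 0 z (n 0 z (n 0 z (n 0 z (n 0 z (n 0 z (n 0 z z)))))))))))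
 (n 485 (n 2 (n 0 z z) (n 0 z (n 0 z (n 0 z (n 0 z (n 0 z (n 0 z (n 0 z (n 0 z (n 0 z (n 0 z
 z))))))))))) (n 485 (n 0 z (n 0 z (n 0 z (n 0 z (n 0 z (n 0 z (n 0 z (n 0 z (n 2 z (n 0 z (n 0
 z z))))))))))) z)))))))) (n 0 (n 0 z (n 51 (n 0 z (n 0 z (n 0 z (n 0 z (n 0 z (n 0 z (n 0 z (n
 0 z (n 0 z (n 0 z z)))))))))) (n 51 (n 0 z (n 0 z (n 0 z (n 0 z (n 0 z (n 0 z (n 0 z (n 0 z (n
 2 (n 1 z (n 1 z (n 2 (n 0 z (n 0 z (n 0 z (n 0 z (n 0 z (n 0 z z)))))) (n 2 (n 0 z (n 0 z (n 0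
 z (n 0 z (n 0 z (n 0 z z)))))) z)))) (n 0 z z)))))))))) (n 49 (n 0 z (n 0 z (n 0 z (n 0 z (n 0
 z (n 0 z (n 0 z (n 0 z (n 0 z (n 0 z (n 0 z (n 0 z z)))))))))))) (n 49 (n 0 z (n 0 z (n 0 z (n
 0 z (n 0 z (n 0 z (n 0 z (n 0 z (n 0 z (n 0 z (n 0 z (n 0 z z)))))))))))) (n 49 (n 0 z (n 0 z
 (n 0 z (n 0 z (n 0 z (n 2 (n 0 z z) (n 0 z (n 0 z (n 0 z (n 0 z (n 0 z (n 0 z z)))))))))))) (n
 49 (n 0 z (n 0 z (n 0 z (n 0 z (n 0 z (n 0 z (n 0 z (n 0 z (n 7673403 z (n 0 z (n 0 z (n 0 z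
 z)))))))))))) z))))))) (n 0 (n 15 (n 0 z (n 0 z (n 0 z (n 2 (n 0 z (n 1 z (n 1 z (n 1 z (n 1 z
 z))))) (n 0 z (n 0 z (n 0 z (n 0 z (n 0 z z))))))))) (n 15 (n 0 z (n 0 z (n 0 z (n 0 z (n 0 z
 (n 0 z (n 0 z (n 0 z (n 0 z z))))))))) (n 13 (n 0 z (n 0 z (n 0 z (n 0 z (n 0 z (n 0 z (n 0 z
 (n 0 z (n 0 z (n 0 z (n 0 z (n 0 z z)))))))))))) (n 13 (n 0 z (n 0 z (n 0 z (n 0 z (n 0 z (n 0
 z (n 0 z (n 0 z (n 0 z (n 0 z (n 0 z (n 0 z z)))))))))))) (n 13 (n 0 z (n 0 z (n 0 z (n 0 z (n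
 0 z (n 0 z (n 0 z (n 2 (n 0 z z) (n 0 z (n 0 z (n 0 z (n 0 z z)))))))))))) (n 13 (n 0 z (n 0 z
 (n 0 z (n 0 z (n 0 z (n 2 z (n 0 z (n 0 z (n 0 z (n 0 z (n 0 z (n 0 z z)))))))))))) z)))))) (n
 0 (n 0 z (n 53 (n 0 z (n 0 z (n 0 z (n 0 z (n 0 z (n 0 z (n 0 z (n 0 z (n 0 z (n 0 z (n 0 z (n
 0 z (n 0 z (n 0 z (n 0 z (n 0 z (n 0 z (n 0 z (n 0 z (n 0 z (n 0 z (n 0 z (n 0 z (n 0 z (n 0 z
 (n 0 z (n 0 z (n 0 z (n 0 z (n 0 z (n 0 z (n 0 z (n 0 z (n 0 z (n 0 z (n 0 z (n 0 z (n 0 z (n 0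
 z (n 0 z (n 0 z (n 0 z (n 0 z (n 0 z (n 0 z (n 0 z (n 0 z
 z))))))))))))))))))))))))))))))))))))))))))))))) (n 53 (n 0 z (n 0 z (n 0 z (n 0 z (n 0 z (n 0
 z (n 0 z (n 0 z (n 0 z (n 0 z (n 0 z (n 0 z (n 0 z (n 0 z (n 0 z (n 0 z (n 0 z (n 0 z (n 0 z (n
 0 z (n 0 z (n 0 z (n 0 z (n 0 z (n 0 z (n 0 z (n 0 z (n 0 z (n 0 z (n 0 z (n 0 z (n 0 z (n 2 (n
 0 z (n 0 z z)) (n 0 z (n 0 z (n 0 z (n 0 z (n 0 z (n 0 z (n 0 z (n 0 z (n 0 z (n 0 z (n 0 z (n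
 0 z (n 0 z (n 0 z z))))))))))))))))))))))))))))))))))))))))))))))) (n 53 (n 0 z (n 0 z (n 0 z
 (n 0 z (n 0 z (n 0 z (n 0 z (n 0 z (n 0 z (n 0 z (n 0 z (n 0 z (n 0 z (n 0 z (n 0 z (n 0 z (n 0
 z (n 0 z (n 0 z (n 0 z (n 0 z (n 0 z (n 0 z (n 0 z (n 0 z (n 0 z (n 0 z (n 0 z (n 0 z (n 0 z (n
 0 z (n 0 z (n 0 z (n 0 z (n 0 z (n 0 z (n 0 z (n 0 z (n 0 z (n 0 z (n 0 z (n 0 z (n 0 z (n 0 z
 (n 0 z (n 0 z (n 0 z z))))))))))))))))))))))))))))))))))))))))))))))) (n 53 (n 0 z (n 0 z (n 0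
 z (n 0 z (n 0 z (n 0 z (n 0 z (n 0 z (n 0 z (n 0 z (n 0 z (n 0 z (n 0 z (n 0 z (n 0 z (n 0 z (n
 0 z (n 0 z (n 0 z (n 0 z (n 0 z (n 0 z (n 0 z (n 0 z (n 0 z (n 0 z (n 0 z (n 0 z (n 0 z (n 0 z
 (n 0 z (n 0 z (n 0 z (n 7673403 z (n 0 z (n 0 z (n 0 z (n 0 z (n 0 z (n 0 z (n 0 z (n 0 z (n 0
 z (n 0 z (n 0 z (n 0 z (n 0 z z))))))))))))))))))))))))))))))))))))))))))))))) z))))) (n 0 (n
 533 (n 0 z (n 0 z (n 2 (n 0 z (n 0 z (n 0 z z))) (n 0 z (n 0 z (n 0 z (n 0 z (n 0 z (n 0 z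
 z))))))))) (n 533 (n 0 z (n 0 z (n 0 z (n 0 z (n 0 z (n 0 z (n 0 z (n 0 z (n 0 z z))))))))) (n
 533 (n 2 (n 0 z z) (n 0 z (n 0 z (n 0 z (n 0 z (n 0 z (n 0 z (n 0 z (n 0 z z))))))))) (n 533 (n
 0 z (n 0 z (n 0 z (n 0 z (n 0 z (n 2 z (n 0 z (n 0 z (n 0 z z))))))))) z)))) (n 0 (n 0 z (n 0 z
 (n 0 z z))) (n 0 (n 0 z (n 0 z z)) (n 0 (n 0 z z) (n 0 z z))))))))))))) (n 0 (n 1 (n 1948 z (n
 5310011 z (n 5443683 z (n 2044 z (n 2044 z (n 2044 z z)))))) (n 1 (n 3282443 z (n 3282443 z (n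
 3282443 z (n 3282443 z (n 3282443 z (n 3282443 z z)))))) (n 0 z z))) (n 0 z z)))) (n
 0x1b3528c99543c53a1c95d0b5d284d33586998d04cb6986534d02542c12d34c0 (n 0x1a699 (n 279 (n 0 z (n 2
 z (n 0 z (n 3282443 z z)))) (n 255 (n 0 z (n
 0x22a64ca280789b92379d69391cb66818923b4f8188abd9789f970a619e386a39c7a5b20a64a2e45eaa251b0801 z
 (n 0 z (n 10 z (n 18 z (n 3278363 z (n 6562131 z (n 6562131 z z)))))))) (n 9 (n 0 z (n 0 z (n 0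
 z (n 0 z (n 26 z (n 4392491 z (n 0 z (n 0 z (n 0 z (n 0 z (n 6562131 z (n 0 z z)))))))))))) (n
 243 (n 0 z (n 34 z (n 0 z (n 0 z (n 2164283 z z))))) (n 1 (n 42 z (n 0 z (n 0 z (n 0 z (n 0 z
 (n 6562131 z z)))))) (n 0 (n 50 z (n
 0x2ca88602038207e08208208207e08618207e182182082086082082081f8208208208208207e07e08207e00801 z
 (n
 0xb28990201c065441030382ca88642078617e086082082079f8a181f7a181f8208207e08208208208608217e18608208207e18207e01801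
 z (n 0 z (n
 0x6ca886420786082282082081f7a28617e27e08207e08a07e081f85e82086182086286081f8607e08208200801 z
 (n 58 z (n 66 z (n 74 z (n 0 z (n 6619675 z (n
 0xcca88642038617a089f8a182086085f7e07e082081f7df8207de86081e7a17e07e07e07a17df8227e18a00801 z
 (n 0 z (n 0 z (n 0 z (n 0 z (n 0 z (n 0 z (n 0 z (n 0 z (n 82 z (n 0 z (n 0 z (n 3278427 z (n
 6619675 z (n 90 z z))))))))))))))))))))))))) z)))))) (n 279 (n 0 (n 79 (n 0 z (n 0 z (n 0 z (n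
 0 z (n 7673403 z (n 0 z (n 0 z (n 0 z (n 0 z (n 0 z (n 0 z (n 0 z (n 0 z (n 0 z (n 0 z (n 0 z
 (n 0 z z))))))))))))))))) (n 79 (n 0 z (n 0 z (n 0 z (n 0 z (n 0 z (n 0 z (n 0 z (n 0 z (n 0 z
 (n 0 z (n 0 z (n 0 z (n 0 z (n 0 z (n 0 z (n 0 z (n 0 z z))))))))))))))))) (n 151 (n 0 z (n 0 z
 (n 0 z (n 0 z (n 0 z (n 0 z (n 0 z z))))))) (n 535 (n 0 z (n 0 z (n 0 z (n 0 z (n 0 z (n 0 z (n
 0 z z))))))) (n 531 (n 0 z (n 0 z (n 0 z (n 0 z (n 0 z (n 0 z (n 0 z (n 0 z z)))))))) (n 533 (n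
 0 z (n 0 z (n 0 z (n 0 z (n 0 z (n 0 z (n 0 z (n 0 z (n 0 z (n 0 z (n 0 z (n 0 z (n 0 z (n 0 z
 (n 0 z (n 0 z (n 0 z (n 0 z (n 0 z (n 0 z (n 0 z (n 0 z (n 0 z (n 0 z (n 0 z (n 0 z (n 0 z (n 0
 z (n 0 z (n 0 z (n 0 z (n 0 z z)))))))))))))))))))))))))))))))) (n 533 (n 0 z (n 0 z (n 0 z (n
 0 z (n 0 z (n 0 z (n 0 z (n 0 z (n 0 z (n 0 z (n 0 z (n 0 z (n 0 z (n 0 z (n 0 z (n 0 z (n 0 z
 (n 0 z (n 0 z (n 0 z (n 0 z (n 0 z (n 0 z (n 0 z (n 0 z (n 0 z (n 0 z (n 0 z (n 0 z (n 2 (n 0 z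
 (n 0 z (n 0 z (n 0 z z)))) (n 0 z (n 0 z z)))))))))))))))))))))))))))))))) (n 533 (n 0 z (n 0 z
 (n 0 z (n 0 z (n 0 z (n 0 z (n 0 z (n 0 z (n 0 z (n 0 z (n 0 z (n 0 z (n 0 z (n 0 z (n 0 z (n 0
 z (n 2 (n 0 z (n 0 z (n 0 z z))) (n 0 z (n 0 z (n 0 z (n 0 z (n 0 z (n 0 z (n 0 z (n 0 z (n 0 z
 (n 0 z (n 0 z (n 0 z (n 0 z (n 0 z (n 0 z z)))))))))))))))))))))))))))))))) (n 533 (n 0 z (n 0
 z (n 0 z (n 0 z (n 0 z (n 0 z (n 0 z (n 0 z (n 0 z (n 0 z (n 0 z (n 0 z (n 0 z (n 0 z (n 0 z (n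
 0 z (n 0 z (n 0 z (n 0 z (n 0 z (n 0 z (n 0 z (n 0 z (n 0 z (n 0 z (n 0 z (n 0 z (n 0 z (n 0 z
 (n 0 z (n 0 z (n 0 z z)))))))))))))))))))))))))))))))) (n 533 (n 0 z (n 0 z (n 0 z (n 0 z (n 0
 z (n 0 z (n 0 z (n 0 z (n 0 z (n 0 z (n 0 z (n 0 z (n 0 z (n 0 z (n 0 z (n 0 z (n 0 z (n 0 z (n
 0 z (n 0 z (n 0 z (n 0 z (n 0 z (n 0 z (n 0 z (n 0 z (n 0 z (n 0 z (n 0 z (n 0 z (n 0 z (n 0 z
 z)))))))))))))))))))))))))))))))) (n 533 (n 0 z (n 0 z (n 0 z (n 0 z (n 0 z (n 0 z (n 0 z (n 0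
 z (n 0 z (n 0 z (n 0 z (n 0 z (n 0 z (n 0 z (n 0 z (n 0 z (n 0 z (n 0 z (n 0 z (n 0 z (n 0 z (n
 0 z (n 0 z (n 0 z (n 0 z (n 0 z (n 0 z (n 0 z (n 0 z (n 0 z (n 0 z (n 7673403 z
 z)))))))))))))))))))))))))))))))) z))))))))))) (n 0 (n 0 z (n 347 (n 0 z (n 7741699 z (n 0 z (n
 0 z (n 0 z (n 0 z (n 0 z (n 0 z (n 0 z (n 0 z (n 0 z z))))))))))) (n 55 (n 0 z (n 7741699 z (n
 0 z (n 0 z (n 0 z (n 0 z (n 0 z (n 0 z z)))))))) (n 345 (n 7741699 z (n 0 z (n 0 z (n 0 z (n 0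
 z (n 0 z (n 0 z (n 0 z (n 0 z (n 0 z (n 0 z (n 0 z (n 0 z z))))))))))))) (n 253 (n 0 z (n
 7741699 z (n 0 z (n 0 z (n 0 z (n 0 z (n 0 z (n 0 z (n 0 z (n 0 z (n 0 z z))))))))))) (n 253 (n
 0 z (n 0 z (n 0 z (n 0 z (n 0 z (n 0 z (n 0 z (n 0 z (n 0 z (n 0 z (n 0 z z))))))))))) (n 253
 (n 0 z (n 0 z (n 0 z (n 0 z (n 0 z (n 0 z (n 0 z (n 0 z (n 0 z (n 0 z (n 0 z z))))))))))) (n
 253 (n 0 z (n 0 z (n 2 (n 0 z (n 0 z z)) (n 0 z (n 0 z (n 0 z (n 0 z (n 0 z (n 0 z (n 0 z (n 0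
 z z))))))))))) (n 253 (n 0 z (n 0 z (n 0 z (n 0 z (n 0 z (n 0 z (n 2 (n 0 z z) (n 0 z (n 0 z (n
 0 z (n 0 z z))))))))))) (n 253 (n 0 z (n 0 z (n 0 z (n 0 z (n 0 z (n 0 z (n 0 z (n 0 z (n 2 z
 (n 0 z (n 0 z z))))))))))) z)))))))))) (n 0 (n 271 (n 0 z (n 0 z (n 0 z (n 0 z (n 0 z (n 0 z (n
 0 z (n 0 z (n 0 z (n 0 z (n 0 z (n 0 z z)))))))))))) (n 7 (n 0 z (n 0 z (n 0 z (n 0 z (n 0 z (n
 0 z (n 0 z (n 0 z (n 0 z (n 0 z (n 0 z (n 0 z (n 0 z (n 0 z z)))))))))))))) (n 3 (n 0 z (n 0 z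
 (n 0 z (n 0 z (n 0 z (n 0 z (n 0 z (n 0 z (n 0 z (n 0 z (n 0 z (n 0 z (n 0 z (n 0 z
 z)))))))))))))) (n 1 (n 0 z (n 0 z (n 0 z (n 0 z (n 0 z (n 0 z (n 0 z (n 0 z (n 0 z (n 0 z (n 0
 z z))))))))))) (n 1 (n 0 z (n 2 (n 0 z (n 0 z (n 0 z (n 0 z z)))) (n 0 z (n 0 z (n 0 z (n 0 z
 (n 0 z (n 0 z (n 0 z (n 0 z (n 0 z z))))))))))) (n 1 (n 0 z (n 0 z (n 2 (n 0 z (n 0 z (n 0 z
 z))) (n 0 z (n 0 z (n 0 z (n 0 z (n 0 z (n 0 z (n 0 z (n 0 z z))))))))))) (n 1 (n 0 z (n 0 z (n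
 0 z (n 2 (n 0 z (n 0 z z)) (n 0 z (n 0 z (n 0 z (n 0 z (n 0 z (n 0 z (n 0 z z))))))))))) (n 1
 (n 0 z (n 0 z (n 0 z (n 0 z (n 0 z (n 0 z (n 0 z (n 0 z (n 0 z (n 0 z (n 0 z z))))))))))) (n 1
 (n 0 z (n 0 z (n 0 z (n 0 z (n 0 z (n 0 z (n 0 z (n 0 z (n 0 z (n 0 z (n 2 z z)))))))))))
 z))))))))) (n 0 (n 55 (n 0 z (n 0 z (n 0 z (n 0 z (n 0 z (n 0 z (n 0 z (n 0 z (n 0 z (n 0 z (n
 0 z (n 0 z (n 0 z (n 0 z z)))))))))))))) (n 51 (n 0 z (n 0 z (n 0 z (n 0 z (n 0 z (n 0 z (n 0 z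
 (n 0 z (n 0 z (n 0 z (n 0 z z))))))))))) (n 49 (n 0 z (n 0 z (n 0 z (n 0 z (n 0 z (n 0 z (n 0 z
 (n 0 z (n 0 z (n 0 z (n 0 z (n 0 z z)))))))))))) (n 49 (n 0 z (n 0 z (n 2 (n 0 z (n 0 z (n 0 z
 (n 0 z z)))) (n 0 z (n 0 z (n 0 z (n 0 z (n 0 z (n 0 z (n 0 z (n 0 z (n 0 z z)))))))))))) (n 49
 (n 0 z (n 0 z (n 0 z (n 2 (n 0 z (n 0 z (n 0 z z))) (n 0 z (n 0 z (n 0 z (n 0 z (n 0 z (n 0 z
 (n 0 z (n 0 z z)))))))))))) (n 49 (n 0 z (n 0 z (n 0 z (n 0 z (n 0 z (n 0 z (n 0 z (n 0 z (n 0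
 z (n 0 z (n 0 z (n 0 z z)))))))))))) (n 49 (n 0 z (n 0 z (n 0 z (n 0 z (n 0 z (n 0 z (n 0 z (n
 2 (n 0 z z) (n 0 z (n 0 z (n 0 z (n 0 z z)))))))))))) (n 49 (n 0 z (n 0 z (n 0 z (n 0 z (n 0 z
 (n 0 z (n 0 z (n 0 z (n 0 z (n 0 z (n 0 z (n 7673403 z z)))))))))))) z)))))))) (n 0 (n 51 (n 0
 z (n 0 z (n 0 z (n 0 z (n 0 z (n 0 z (n 0 z (n 0 z (n 0 z (n 0 z (n 0 z (n 0 z (n 0 z
 z))))))))))))) (n 49 (n 0 z (n 0 z (n 0 z (n 0 z (n 0 z (n 0 z (n 0 z (n 0 z (n 0 z (n 0 z (n 0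
 z (n 0 z (n 0 z (n 0 z (n 0 z (n 0 z (n 0 z (n 0 z (n 0 z (n 0 z (n 0 z (n 0 z (n 0 z (n 0 z (n
 0 z (n 0 z (n 0 z (n 0 z (n 0 z (n 0 z (n 0 z (n 0 z (n 0 z (n 0 z (n 0 z (n 0 z (n 0 z (n 0 z
 (n 0 z (n 0 z (n 0 z (n 0 z (n 0 z (n 0 z (n 0 z (n 0 z (n 0 z (n 0 z (n 0 z (n 0 z (n 0 z (n 0
 z (n 0 z (n 0 z (n 0 z (n 0 z z)))))))))))))))))))))))))))))))))))))))))))))))))))))))) (n 49
 (n 0 z (n 0 z (n 0 z (n 2 (n 0 z (n 0 z (n 0 z (n 0 z z)))) (n 0 z (n 0 z (n 0 z (n 0 z (n 0 z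
 (n 0 z (n 0 z (n 0 z (n 0 z (n 0 z (n 0 z (n 0 z (n 0 z (n 0 z (n 0 z (n 0 z (n 0 z (n 0 z (n 0
 z (n 0 z (n 0 z (n 0 z (n 0 z (n 0 z (n 0 z (n 0 z (n 0 z (n 0 z (n 0 z (n 0 z (n 0 z (n 0 z (n
 0 z (n 0 z (n 0 z (n 0 z (n 0 z (n 0 z (n 0 z (n 0 z (n 0 z (n 0 z (n 0 z (n 0 z (n 0 z (n 0 z
 (n 0 z (n 0 z (n 0 z (n 0 z (n 0 z (n 0 z
 z)))))))))))))))))))))))))))))))))))))))))))))))))))))))) (n 49 (n 0 z (n 0 z (n 0 z (n 0 z (n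
 0 z (n 0 z (n 0 z (n 0 z (n 0 z (n 0 z (n 2 (n 0 z (n 0 z (n 0 z z))) (n 0 z (n 0 z (n 0 z (n 0
 z (n 0 z (n 0 z (n 0 z (n 0 z (n 0 z (n 0 z (n 0 z (n 0 z (n 0 z (n 0 z (n 0 z (n 0 z (n 0 z (n
 0 z (n 0 z (n 0 z (n 0 z (n 0 z (n 0 z (n 0 z (n 0 z (n 0 z (n 0 z (n 0 z (n 0 z (n 0 z (n 0 z
 (n 0 z (n 0 z (n 0 z (n 0 z (n 0 z (n 0 z (n 0 z (n 0 z (n 0 z (n 0 z (n 0 z (n 0 z (n 0 z (n 0
 z z)))))))))))))))))))))))))))))))))))))))))))))))))))))))) (n 49 (n 0 z (n 0 z (n 0 z (n 0 z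
 (n 0 z (n 0 z (n 0 z (n 0 z (n 0 z (n 0 z (n 0 z (n 0 z (n 0 z (n 0 z (n 0 z (n 0 z (n 0 z (n 0
 z (n 0 z (n 0 z (n 0 z (n 0 z (n 0 z (n 0 z (n 0 z (n 0 z (n 0 z (n 0 z (n 0 z (n 0 z (n 0 z (n
 0 z (n 0 z (n 0 z (n 0 z (n 0 z (n 0 z (n 0 z (n 0 z (n 0 z (n 0 z (n 0 z (n 0 z (n 0 z (n 0 z
 (n 0 z (n 0 z (n 0 z (n 0 z (n 0 z (n 0 z (n 0 z (n 0 z (n 0 z (n 0 z (n 0 z
 z)))))))))))))))))))))))))))))))))))))))))))))))))))))))) (n 49 (n 0 z (n 0 z (n 0 z (n 0 z (n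
 0 z (n 0 z (n 0 z (n 0 z (n 0 z (n 0 z (n 0 z (n 0 z (n 0 z (n 0 z (n 0 z (n 0 z (n 0 z (n 0 z
 (n 0 z (n 0 z (n 0 z (n 0 z (n 0 z (n 0 z (n 0 z (n 0 z (n 0 z (n 0 z (n 0 z (n 0 z (n 0 z (n 0
 z (n 0 z (n 0 z (n 0 z (n 0 z (n 0 z (n 0 z (n 0 z (n 0 z (n 0 z (n 0 z (n 0 z (n 0 z (n 0 z (n
 0 z (n 0 z (n 0 z (n 2 (n 0 z z) (n 0 z (n 0 z (n 0 z (n 0 z (n 0 z (n 0 z (n 0 z
 z)))))))))))))))))))))))))))))))))))))))))))))))))))))))) (n 49 (n 0 z (n 0 z (n 0 z (n 0 z (n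
 0 z (n 0 z (n 0 z (n 0 z (n 0 z (n 0 z (n 0 z (n 0 z (n 0 z (n 0 z (n 0 z (n 0 z (n 0 z (n 0 z
 (n 0 z (n 0 z (n 0 z (n 0 z (n 0 z (n 0 z (n 0 z (n 0 z (n 0 z (n 0 z (n 0 z (n 0 z (n 0 z (n 0
 z (n 0 z (n 0 z (n 0 z (n 0 z (n 0 z (n 0 z (n 0 z (n 0 z (n 0 z (n 0 z (n 0 z (n 0 z (n 0 z (n
 0 z (n 0 z (n 0 z (n 0 z (n 0 z (n 0 z (n 0 z (n 0 z (n 0 z (n 7673403 z (n 0 z
 z)))))))))))))))))))))))))))))))))))))))))))))))))))))))) z))))))) (n 0 (n 53 (n 0 z (n 0 z (n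
 0 z (n 0 z (n 0 z (n 0 z (n 0 z (n 0 z (n 0 z (n 0 z (n 0 z (n 0 z (n 0 z (n 0 z (n 0 z (n 0 z
 (n 0 z (n 0 z (n 0 z (n 0 z (n 0 z (n 0 z (n 0 z (n 0 z (n 0 z (n 0 z (n 0 z (n 0 z (n 0 z (n 0
 z (n 0 z (n 0 z (n 0 z (n 0 z (n 0 z (n 0 z (n 0 z (n 0 z (n 0 z (n 0 z (n 0 z (n 0 z (n 0 z (n
 0 z (n 0 z (n 0 z (n 0 z z))))))))))))))))))))))))))))))))))))))))))))))) (n 53 (n 0 z (n 0 z
 (n 0 z (n 0 z (n 0 z (n 0 z (n 0 z (n 0 z (n 0 z (n 0 z (n 0 z (n 0 z (n 0 z (n 0 z (n 0 z (n 0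
 z (n 0 z (n 0 z (n 0 z (n 0 z (n 0 z (n 0 z (n 0 z (n 0 z (n 0 z (n 0 z (n 0 z (n 0 z (n 0 z (n
 0 z (n 0 z (n 0 z (n 0 z (n 0 z (n 0 z (n 0 z (n 0 z (n 0 z (n 0 z (n 0 z (n 0 z (n 0 z (n 0 z
 (n 0 z (n 0 z (n 0 z (n 0 z z))))))))))))))))))))))))))))))))))))))))))))))) (n 53 (n 0 z (n 0
 z (n 0 z (n 0 z (n 0 z (n 0 z (n 0 z (n 0 z (n 0 z (n 0 z (n 0 z (n 0 z (n 0 z (n 0 z (n 0 z (n
 0 z (n 2 (n 0 z (n 0 z (n 0 z z))) (n 0 z (n 0 z (n 0 z (n 0 z (n 0 z (n 0 z (n 0 z (n 0 z (n 0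
 z (n 0 z (n 0 z (n 0 z (n 0 z (n 0 z (n 0 z (n 0 z (n 0 z (n 0 z (n 0 z (n 0 z (n 0 z (n 0 z (n
 0 z (n 0 z (n 0 z (n 0 z (n 0 z (n 0 z (n 0 z (n 0 z
 z))))))))))))))))))))))))))))))))))))))))))))))) (n 53 (n 0 z (n 0 z (n 0 z (n 0 z (n 0 z (n 0
 z (n 0 z (n 0 z (n 0 z (n 0 z (n 0 z (n 0 z (n 0 z (n 0 z (n 0 z (n 0 z (n 0 z (n 0 z (n 0 z (n
 0 z (n 0 z (n 0 z (n 0 z (n 0 z (n 0 z (n 0 z (n 0 z (n 0 z (n 0 z (n 0 z (n 0 z (n 0 z (n 0 z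
 (n 0 z (n 0 z (n 0 z (n 0 z (n 0 z (n 0 z (n 0 z (n 0 z (n 0 z (n 2 (n 0 z (n 0 z z)) (n 0 z (n
 0 z (n 0 z (n 0 z z))))))))))))))))))))))))))))))))))))))))))))))) (n 53 (n 0 z (n 0 z (n 0 z
 (n 0 z (n 0 z (n 0 z (n 0 z (n 0 z (n 0 z (n 0 z (n 0 z (n 0 z (n 0 z (n 0 z (n 0 z (n 0 z (n 0
 z (n 0 z (n 0 z (n 0 z (n 0 z (n 0 z (n 0 z (n 0 z (n 0 z (n 0 z (n 0 z (n 0 z (n 0 z (n 0 z (n
 0 z (n 0 z (n 0 z (n 0 z (n 0 z (n 0 z (n 0 z (n 0 z (n 0 z (n 0 z (n 0 z (n 0 z (n 0 z (n 0 z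
 (n 0 z (n 0 z (n 0 z z))))))))))))))))))))))))))))))))))))))))))))))) (n 53 (n 0 z (n 0 z (n 0
 z (n 0 z (n 0 z (n 0 z (n 0 z (n 0 z (n 0 z (n 0 z (n 0 z (n 0 z (n 0 z (n 0 z (n 0 z (n 0 z (n
 0 z (n 0 z (n 0 z (n 0 z (n 0 z (n 0 z (n 0 z (n 0 z (n 0 z (n 0 z (n 0 z (n 0 z (n 0 z (n 0 z
 (n 0 z (n 0 z (n 0 z (n 0 z (n 0 z (n 0 z (n 0 z (n 0 z (n 0 z (n 0 z (n 0 z (n 0 z (n 0 z (n 0
 z (n 7673403 z (n 0 z (n 0 z z))))))))))))))))))))))))))))))))))))))))))))))) z)))))) (n 0 (n 0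
 z (n 0 z (n 0 z (n 0 z (n 0 z z))))) (n 0 (n 0 z (n 0 z (n 0 z (n 0 z z)))) (n 0 (n 0 z (n 0 z
 (n 0 z z))) (n 0 (n 0 z (n 0 z z)) (n 0 (n 0 z z) (n 0 z z)))))))))))) (n 0 (n 0 z (n 1 (n 2 z
 (n 5310011 z (n 5443683 z (n 2044 z (n 2044 z (n 2044 z z)))))) (n 0 z (n 1 (n 3282443 z (n
 3282443 z (n 3282443 z (n 3282443 z (n 3282443 z (n 3282443 z z)))))) z)))) (n 0 (n 0x21c95d (n
 0 (n 0 (n 7741699 z (n 7741699 z (n 7741699 z (n 7741699 z (n 7741699 z (n 7741699 z z)))))) z)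
 (n 0 (n 279 (n 0 z (n 1 (n 7754035 z (n 7754035 z (n 7754035 z (n 7754035 z (n 7754035 z (n
 7754035 z z)))))) (n 0 z (n 1 (n 3282699 z (n 3282699 z (n 7680355 z (n 3282699 z (n 3282699 z
 (n 3282699 z z)))))) z)))) (n 255 (n 0 z (n 1 (n 7754795 z (n 7754795 z (n 7680355 z (n 7754795
 z (n 7754795 z (n 7754795 z z)))))) (n 0 z (n 1 (n 7741699 z (n 7741699 z (n 7741699 z (n
 7741699 z (n 7741699 z (n 7741699 z z)))))) (n 1 (n 7741699 z (n 7741699 z (n 7741699 z (n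
 7741699 z (n 7741699 z (n 7741699 z z)))))) (n 1 (n 7741699 z (n 7741699 z (n 7741699 z (n
 7741699 z (n 7741699 z (n 7741699 z z)))))) (n 1 (n 7610707 z (n 7610707 z (n 7610707 z (n
 7610707 z (n 7610707 z (n 7610707 z z)))))) (n 1 (n 7741699 z (n 7741699 z (n 7741699 z (n
 7741699 z (n 7741699 z (n 7741699 z z)))))) z)))))))) (n 321 (n 1 (n 7741699 z (n 76 z (n 2044
 z (n 2044 z (n 2044 z (n 2044 z z)))))) (n 1 (n 7741699 z (n 2044 z (n 2044 z (n 2044 z (n 2044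
 z (n 2044 z z)))))) (n 0 z (n 1 (n 7741699 z (n 4396811 z (n 4396811 z (n 4396811 z (n 4396811
 z (n 4396811 z z)))))) (n 0 z (n 1 (n 7741699 z (n 7610707 z (n 7610707 z (n 7610707 z (n
 7610707 z (n 7610707 z z)))))) (n 1 (n 7741699 z (n 7610707 z (n 7610707 z (n 7610707 z (n
 7610707 z (n 7610707 z z)))))) z))))))) (n 243 (n 0 z (n 1 (n 7741699 z (n 7741699 z (n 7741699
 z (n 7741699 z (n 7741699 z (n 7741699 z z)))))) (n 0 z (n 0 z (n 1 (n 7746843 z (n 7746843 z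
 (n 7680355 z (n 7746843 z (n 7746843 z (n 7746843 z z)))))) z))))) (n 1 (n 1 (n 7741699 z (n
 7741699 z (n 7741699 z (n 7741699 z (n 7741699 z (n 7741699 z z)))))) (n 0 z (n 0 z (n 0 z (n 0
 z (n 1 (n 7610707 z (n 7610707 z (n 7610707 z (n 7610707 z (n 7610707 z (n 7610707 z z))))))
 z)))))) (n 105 (n 1 (n 6559531 z (n 7538203 z (n 2300 z (n 7668251 z (n 2300 z (n 2300 z
 z)))))) (n 1 (n 6559531 z (n 7538203 z (n 2300 z (n 6494027 z (n 7668251 z (n 228 z z)))))) (n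
 1 (n 6559499 z (n 2300 z (n 2300 z (n 7668251 z (n 2 z (n 2300 z z)))))) (n 1 (n 4331275 z (n
 2300 z (n 2300 z (n 7538203 z (n 2300 z (n 2300 z z)))))) (n 1 (n 7741699 z (n 7741699 z (n
 7741699 z (n 7741699 z (n 7741699 z (n 7741699 z z)))))) (n 0 z (n 0 z (n 1 (n 7741699 z (n
 7741699 z (n 7741699 z (n 7741699 z (n 7741699 z (n 7741699 z z)))))) (n 0 z (n 1 (n 7754035 z
 (n 7754035 z (n 7754035 z (n 7754035 z (n 7754035 z (n 7754035 z z)))))) (n 1 (n 7673403 z (n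
 7673403 z (n 7668251 z (n 7673403 z (n 7673403 z (n 6566259 z z)))))) z))))))))))) (n 279 (n 0
 z (n 1 (n 7741699 z (n 7754035 z (n 7754035 z (n 7754035 z (n 7754035 z (n 7754035 z z)))))) (n
 0 z (n 1 (n 7741699 z (n 3282699 z (n 3282699 z (n 3282699 z (n 3282699 z (n 3282699 z z))))))
 z)))) z))))))) (n 0 (n 0 (n 0 z z) z) (n 0 (n 159 (n 0 (n 0 (n
 0x16c3b08e1d8350ec318767e381f82281e89f7de8a089e7e086086076181d86079f79e8608a37a08208207a18e08237a10101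
 z z) z) (n 0 (n 0 z z) (n 0 (n 0 z z) (n 0 (n 0 z z) (n 0 (n 0 z z) (n 0 (n 0 z z) (n 0 (n 0 z
 z) (n 0 (n 0 z z) (n 0 (n 0 z z) (n 0 (n 0 z z) (n 0 (n 0 z z) (n 0 (n 0 z z) (n 0 (n 0 (n
 7612443 z z) z) (n 0 (n 0 z z) (n 0 (n 0 z z) (n 0 (n 0 z z) (n 0 (n 0 z z) z)))))))))))))))))
 (n 321 (n 0 (n 0 z z) (n 0 (n 0 z z) (n 0 (n 0 (n
 0x187276130382ea908620381f82182181f8608208207e181f82082082082082085f8207e182086082081f8607e08208201001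
 z z) z) (n 0 (n 0 z z) (n 0 (n 0 (n
 0x16c3b08e1d8350ec318767e381f82281e89f7de8a089e7e086086076181d86079f79e8608a37a08208207a18e08237a10101
 z z) z) (n 0 (n 0 z z) (n 0 (n 0 z z) z))))))) (n 255 (n 0 (n 0 z z) (n 0 (n 0 (n
 0x87487430182ea90846078208208208208208208208208207e08208208208208208208208208208208208208208208201001
 z z) z) (n 0 (n 0 z z) (n 0 (n 0 z z) (n 0 (n 0 z z) (n 0 (n 0 z z) (n 0 (n 0 z z) (n 0 (n 0 z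
 z) (n 0 (n 0 z z) (n 0 (n 0 z z) (n 0 (n 0 z z) (n 0 (n 0 z z) z)))))))))))) (n 273 (n 0 (n 0 z
 z) (n 0 (n 0 z z) (n 0 (n 0 z z) (n 0 (n 0 z z) (n 0 (n 0 z z) (n 0 (n 0 z z) (n 0 (n 0 z z)
 z))))))) (n 57 (n 0 (n 0 (n
 0x16c3b08e1d8350ec318767e381f82281e89f7de8a089e7e086086076181d86079f79e8608a37a08208207a18e08237a10101
 z z) z) (n 0 (n 0 z z) (n 0 (n 0 z z) (n 0 (n 0 z z) (n 0 (n 0 z z) (n 0 (n 0 z z) (n 0 (n 0 (n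
 0x2ea908640382081f8208208208208218208208208208208208208208208208208208208208208208208200801 z
 z) z) (n 0 (n 0 z z) (n 0 (n 0 z z) (n 0 (n 0 z z) (n 0 (n 0 z z) (n 0 (n 0 z z) (n 0 (n 0 z z)
 (n 0 (n 0 z z) z)))))))))))))) (n 51 (n 0 (n 0 (n 8790275 z z) z) (n 0 (n 0 z z) (n 0 (n 0 z z)
 (n 0 (n 0 z z) (n 0 (n 0 z z) (n 0 (n 0 z z) (n 0 (n 0 z z) (n 0 (n 0 z z) (n 0 (n 0 z z) (n 0
 (n 0 (n 8790275 z z) z) (n 0 (n 0 z z) (n 0 (n 0 z z) (n 0 (n 0 z z) (n 0 (n 0 z z)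
 z)))))))))))))) (n 279 (n 0 (n 0 z z) (n 0 (n 0 (n 3283067 z z) z) (n 0 (n 0 z z) (n 0 (n 0 z
 z) (n 0 (n 0 (n 8652331 z z) z) (n 0 (n 0 z z) (n 0 (n 0 z z) (n 0 (n 0 z z) z)))))))) (n 81 (n
 0 (n 0 (n
 0x16c3b08e1d8350ec318767e381f82281e89f7de8a089e7e086086076181d86079f79e8608a37a08208207a18e08237a10101
 z z) z) (n 0 (n 0 (n
 0x1752841303810e70e640382181f82081f86081f81f86082082086082081f8208218208208218218208208208218207e01001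
 z z) z) (n 0 (n 0 z z) (n 0 (n 0 z z) (n 0 (n 0 z z) (n 0 (n 0 z z) (n 0 (n 0 z z) (n 0 (n 0 z
 z) (n 0 (n 0 z z) (n 0 (n 0 z z) (n 0 (n 0 z z) (n 0 (n 0 z z) (n 0 (n 0 z z) (n 0 (n 0 z z)
 z)))))))))))))) (n 75 (n 0 (n 0 (n
 0x30c30a060306146140c060431c31880c0743743103830eb0602078217e18207df8207df8608607e085f82082082082082081f8208218618208208207e08208202801
 z (n
 0x10e70e6203061d618c40603a1ba1881c0875830103810e706020782279f86081f8207a08608607e182082082082082081f81f8218217e18208208217e18208202801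
 z z)) z) (n 0 (n 0 z z) (n 0 (n 0 z z) (n 0 (n 0 (n
 0x16c3b08e1d8350ec318767e381f82281e89f7de8a089e7e086086076181d86079f79e8608a37a08208207a18e08237a10101
 z (n
 0x30eb0c620382181f82082182081f82086082081f82082082082082081f8208208208208208208208208200801 z
 z)) z) (n 0 (n 0 (n 8790275 z z) z) (n 0 (n 0 (n 8790275 z z) z) (n 0 (n 0 z z) (n 0 (n 0 z z)
 (n 0 (n 0 z z) (n 0 (n 0 z z) (n 0 (n 0 z z) z))))))))))) (n 27 (n 0 (n 0 z z) (n 0 (n 0 z z)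
 (n 0 (n 0 z z) (n 0 (n 0 z z) (n 0 (n 0 z z) (n 0 (n 0 z z) (n 0 (n 0 z z) (n 0 (n 0 z z) (n 0
 (n 0 z z) (n 0 (n 0 (n 8659283 z z) z) (n 0 (n 0 z z) (n 0 (n 0 (n 8659283 z (n 8659283 z z))
 z) (n 0 (n 0 (n 8659283 z z) z) z))))))))))))) (n 287 (n 0 (n 0 z z) (n 0 (n 0 z z) (n 0 (n 0
 (n 8652331 z z) z) (n 0 (n 0 (n 8716827 z z) z) (n 0 (n 0 z z) (n 0 (n 0 z z) (n 0 (n 0 z z) (n
 0 (n 0 (n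
 0x16c3b08e1d8350ec318767e381f82281e89f7de8a089e7e086086076181d86079f79e8608a37a08208207a18e08237a10101
 z z) z) (n 0 (n 0 z z) (n 0 (n 0 z z) (n 0 (n 0 z z) (n 0 (n 0 z z) (n 0 (n 0 z z) (n 0 (n 0 z
 z) (n 0 (n 0 z z) (n 0 (n 0 z z) (n 0 (n 0 z z) (n 0 (n 0 z z) (n 0 (n 0 (n
 0x16c3b08e1d8350ec318767e381f82281e89f7de8a089e7e086086076181d86079f79e8608a37a08208207a18e08237a10101
 z z) z) (n 0 (n 0 (n 8586779 z z) z) (n 0 (n 0 z z) (n 0 (n 0 z z) (n 0 (n 0 z z) (n 0 (n 0 z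
 z) (n 0 (n 0 z z) (n 0 (n 0 z z) (n 0 (n 0 z z) (n 0 (n 0 z z) (n 0 (n 0 z z) (n 0 (n 0 z z) (n
 0 (n 0 z z) (n 0 (n 0 z z) z)))))))))))))))))))))))))))))))) (n 105 (n 0 (n 0 z z) (n 0 (n 0 z
 z) (n 0 (n 0 z z) (n 0 (n 0 z z) (n 0 (n 0 z z) (n 0 (n 0 z z) (n 0 (n 0 z z) (n 0 (n 0 z z) (n
 0 (n 0 (n 7612443 z z) z) (n 0 (n 0 z z) (n 0 (n 0 z z) z))))))))))) (n 99 (n 0 (n 0 z z) (n 0
 (n 0 z z) (n 0 (n 0 z z) (n 0 (n 0 z z) (n 0 (n 0 z z) (n 0 (n 0 z z) (n 0 (n 0 z z) (n 0 (n 0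
 z z) (n 0 (n 0 z z) (n 0 (n 0 z z) (n 0 (n 0 z z) (n 0 (n 0 z z) z)))))))))))) (n 29 (n 0 (n 0
 z z) (n 0 (n 0 (n
 0x21da1d040e043a43a080c1764873101810e90e420382182082082082081f81f86082082082082081f8208208208208208208208208208208208202001
 z z) z) (n 0 (n 0 z z) (n 0 (n 0 z z) (n 0 (n 0 z z) (n 0 (n 0 z z) (n 0 (n 0 z z) (n 0 (n 0 z
 z) (n 0 (n 0 z z) (n 0 (n 0 z z) (n 0 (n 0 z z) (n 0 (n 0 z z) (n 0 (n 0 z z) (n 0 (n 0 z z) (n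
 0 (n 0 z z) (n 0 (n 0 z z) (n 0 (n 0 z z) (n 0 (n 0 z z) (n 0 (n 0 z z) (n 0 (n 0 z z) (n 0 (n
 0 z z) (n 0 (n 0 z z) (n 0 (n 0 z z) (n 0 (n 0 (n
 0x16c3b08e1d8350ec318767e381f82281e89f7de8a089e7e086086076181d86079f79e8608a37a08208207a18e08237a10101
 z z) z) (n 0 (n 0 z z) (n 0 (n 0 z z) (n 0 (n 0 (n
 0xdb0ec6c8768a48a27a595d81f6d88a279b7a181e8da62271e71c86179f7e39a48226e07df75d8e279f7e20081 z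
 (n 0x30e90e82037e281f85f85e85f81f7df89f86085e85f7e182081f82081f7e08217e18608218608217e07e10801
 z z)) z) (n 0 (n 0 z z) (n 0 (n 0 (n 8803371 z (n 8803371 z z)) z) (n 0 (n 0 (n 8803371 z z) z)
 (n 0 (n 0 (n 8586779 z z) z) (n 0 (n 0 z z) (n 0 (n 0 z z) (n 0 (n 0 z z) (n 0 (n 0 z z) (n 0
 (n 0 z z) (n 0 (n 0 z z) (n 0 (n 0 z z) (n 0 (n 0 z z) (n 0 (n 0 z z) (n 0 (n 0 (n 8716827 z (n
 8716827 z z)) z) (n 0 (n 0 z z) (n 0 (n 0 z z) (n 0 (n 0 z z) (n 0 (n 0 z z) (n 0 (n 0 z z) (n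
 0 (n 0 z z) (n 0 (n 0 z z) (n 0 (n 0 z z) (n 0 (n 0 z z) (n 0 (n 0 z z) (n 0 (n 0 z z) (n 0 (n
 0 (n 8716827 z (n 8716827 z z)) z) (n 0 (n 0 (n 8800011 z z) z) (n 0 (n 0 z z) (n 0 (n 0 z z)
 z)))))))))))))))))))))))))))))))))))))))))))))))))))))))) (n 28 (n 0 (n 0 z z) (n 0 (n 0 z z)
 (n 0 (n 0 z z) (n 0 (n 0 z z) (n 0 (n 0 (n 8652331 z (n 8652331 z z)) z) (n 0 (n 0 z z) (n 0 (n
 0 z z) (n 0 (n 0 z z) (n 0 (n 0 z z) (n 0 (n 0 z z) (n 0 (n 0 z z) (n 0 (n 0 z z) (n 0 (n 0 z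
 z) (n 0 (n 0 z z) (n 0 (n 0 z z) (n 0 (n 0 z z) (n 0 (n 0 z z) (n 0 (n 0 z z) (n 0 (n 0 z z) (n
 0 (n 0 (n 8800011 z z) z) (n 0 (n 0 z z) (n 0 (n 0 (n 8716827 z (n 8716827 z z)) z) (n 0 (n 0 z
 z) (n 0 (n 0 z z) (n 0 (n 0 z z) (n 0 (n 0 (n 8652331 z (n 8652331 z z)) z) (n 0 (n 0 z z) (n 0
 (n 0 (n
 0x21ca184c060439408181c0873763101810e6e602078227e08208208207e086086082082082082082082082081f8218218218208208208608218202001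
 z (n
 0xc39408181c187387320180e86e8620782479f8a17e07df7608a08a07a081f82086081f7e081f7df8638228218208608207a07e17e11801
 z z)) z) (n 0 (n 0 z z) (n 0 (n 0 z z) (n 0 (n 0 z z) (n 0 (n 0 z z) (n 0 (n 0 z z) (n 0 (n 0 z
 z) (n 0 (n 0 z z) (n 0 (n 0 z z) (n 0 (n 0 z z) (n 0 (n 0 z z) (n 0 (n 0 z z) (n 0 (n 0 z z) (n
 0 (n 0 z z) (n 0 (n 0 z z) (n 0 (n 0 z z) (n 0 (n 0 (n
 0x10e70e640382282082081f8607e081f85f82081f86082082082082181f8208217e18208208208218207e00801 z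
 (n 0x30e50e260382182082081f82081f82085f82081f8208208208208208208208208208208208208208208210801
 z z)) z) (n 0 (n 0 z z) (n 0 (n 0 z z) (n 0 (n 0 (n 8800011 z z) z)
 z))))))))))))))))))))))))))))))))))))))))))))))) (n 279 (n 0 (n 0 z z) (n 0 (n 0 z z) (n 0 (n 0
 (n
 0x853852403810eb0628070215215080e0421c21901c1754843101810e8e8620386086182281f86086082082085f7e082086082081f8208208208208208208208208208218203001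
 z z) z) (n 0 (n 0 z z) z)))) (n 255 (n 0 (n 0 z z) (n 0 (n 0 z z) (n 0 (n 0 z z) (n 0 (n 0 z z)
 (n 0 (n 0 z z) (n 0 (n 0 z z) (n 0 (n 0 z z) (n 0 (n 0 z z) z)))))))) (n 9 (n 0 (n 0 z z) (n 0
 (n 0 (n 8799547 z z) z) (n 0 (n 0 z z) (n 0 (n 0 z z) (n 0 (n 0 z z) (n 0 (n 0 z z) (n 0 (n 0 z
 z) (n 0 (n 0 z z) (n 0 (n 0 (n 8790275 z z) z) (n 0 (n 0 z z) (n 0 (n 0 z z) (n 0 (n 0 z z)
 z)))))))))))) (n 243 (n 0 (n 0 z z) (n 0 (n 0 z z) (n 0 (n 0 z z) (n 0 (n 0 z z) (n 0 (n 0 z z)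
 z))))) (n 1 (n 0 (n 0 z z) (n 0 (n 0 z z) (n 0 (n 0 z z) (n 0 (n 0 z z) (n 0 (n 0 z z) (n 0 (n
 0 z z) z)))))) (n 0 (n 0 (n 0 z z) (n 0 (n 0 z z) (n 0 (n 0 z z) (n 0 (n 0 (n
 0xe64821007020c9041c060439408181c0854410303810e6e8620382179f86181f86079f8a281f7e17df7e082081f7e082081f8608617e08208607e07e08207e02801
 z (n
 0x1832841703810e70e64038227e186081f8207df8608607e185f82081f7e07e082081f8218617e08208208207e18207e01001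
 z z)) z) (n 0 (n 0 z z) (n 0 (n 0 z z) (n 0 (n 0 z z) (n 0 (n 0 z z) (n 0 (n 0 z z) (n 0 (n 0 z
 z) (n 0 (n 0 (n
 0x3065082e0786082086081f8208208207df82081f8208208208208208208208207e08208208208208208200801 z
 z) z) (n 0 (n 0 z z) (n 0 (n 0 z z) (n 0 (n 0 (n
 0x10e70e640382282082081f8607e081f85f82081f86082082082082181f8208217e18208208208218207e00801 z
 (n 0x30e50e260382182082081f82081f82085f82081f8208208208208208208208208208208208208208208210801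
 z z)) z) (n 0 (n 0 (n 8790275 z z) z) (n 0 (n 0 z z) (n 0 (n 0 z z) (n 0 (n 0 z z) (n 0 (n 0 z
 z) (n 0 (n 0 z z) (n 0 (n 0 z z) (n 0 (n 0 z z) (n 0 (n 0 z z) (n 0 (n 0 z z) (n 0 (n 0 z z)
 z))))))))))))))))))))))))) z))))))))))))))))))))) z)))) z) z)))) (n
 0xb94942ba5a1164dc298e515d92875c9032cc80b2644192d50e271104a88b04aa9846a758111640 (n 0x222c9 (n
 201 (n 0 z (n 0 z (n 0 z (n 2 z (n 0 z (n 3282443 z (n 0 z (n 10 z (n 0 z (n 0 z z)))))))))) (n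
 33 (n 18 z (n 26 z (n 0 z (n 0 z (n 3278363 z (n 0 z (n 0 z (n 0 z (n 0 z z))))))))) (n 135 (n
 0 z (n 0 z (n 0 z (n 34 z (n 0 z (n 3212843 z (n 0 z (n 0 z z)))))))) (n 3 (n 2164283 z (n 0 z
 (n 42 z (n 0 z (n 0 z (n 0 z (n 50 z (n 0 z z)))))))) (n 1 (n 58 z (n 0 z (n 66 z (n 74 z (n 82
 z (n 2164299 z (n 90 z (n 0 z (n 0 z z))))))))) (n 0 (n
 0x546207e47ed6db4226a176180e89c9568e676175d9eb5e052699771e5e28998248b6961b598ee8dd0041 z (n 0 z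
 (n
 0x1ad8c584c62d16317e17a26a76df8248a185a9d8a1daa48ea9a59214d75e97d969baa4719524bd795fa617de99900c1
 z (n 0 z (n 0 z (n 98 z (n 106 z (n
 0x1ad84184c20d16107e17a26a76df8248a185a9d8a1daa48ea9a59214d75e97d969baa4719524bd795fa617de99900c1
 z (n 6619675 z (n 6619675 z (n
 0x2c86c864037a47a08208208208217dd85e86089e8608208218218208608607e081f8207e08218208617e00801 z
 (n 0 z (n 0 z (n 0 z (n 0 z (n 0 z (n 0 z (n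
 0x1ad90184c80d16407e17a26a76df8248a185a9d8a1daa48ea9a59214d75e97d969baa4719524bd795fa617de99900c1
 z (n 0 z (n 0 z (n 114 z (n 0 z (n 0 z (n 0 z (n 6619675 z (n 0 z (n 0 z (n 4261467 z (n 0 z
 z))))))))))))))))))))))))))))) z)))))) (n 135 (n 0 (n 0 z (n 127 (n 0 z (n 2 (n 0 z (n 1 z (n 1
 z (n 1 z (n 1 z (n 2 (n 0 z (n 0 z (n 0 z (n 0 z (n 0 z (n 0 z z)))))) (n 2 (n 0 z (n 0 z (n 0
 z (n 0 z (n 0 z (n 0 z z)))))) (n 2 (n 0 z (n 0 z (n 0 z (n 0 z (n 0 z (n 0 z z)))))) (n 2 (n 0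
 z (n 0 z (n 0 z (n 0 z (n 0 z (n 0 z z)))))) (n 1 z (n 2 (n 0 z (n 0 z (n 0 z (n 0 z (n 0 z (n
 0 z z)))))) (n 2 (n 0 (n 8718139 z z) (n 0 z (n 0 (n 8718139 z z) (n 0 z (n 0 z (n 0 (n 1060 z
 (n 1060 z z)) z)))))) z)))))))))))) (n 0 z (n 0 z (n 0 z (n 0 z (n 0 z (n 0 z (n 0 z z)))))))))
 (n 127 (n 0 z (n 0 z (n 0 z (n 0 z (n 0 z (n 0 z (n 0 z (n 0 z (n 0 z z))))))))) (n 271 (n 0 z
 (n 0 z (n 0 z (n 0 z (n 0 z (n 0 z (n 0 z (n 0 z (n 0 z (n 0 z z)))))))))) (n 267 (n 2 (n 0 z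
 (n 1 z (n 2 (n 0 z (n 0 z (n 0 z (n 0 z (n 0 z (n 0 z z)))))) (n 2 (n 0 z (n 0 z (n 0 z (n 0 z
 (n 0 z (n 0 z z)))))) (n 2 (n 0 z (n 0 z (n 0 z (n 0 z (n 0 z (n 0 z z)))))) (n 2 (n 0 z (n 0 z
 (n 0 z (n 0 z (n 0 z (n 0 z z)))))) (n 1 z (n 2 (n 0 z (n 0 z (n 0 z (n 0 z (n 0 z (n 0 z
 z)))))) (n 2 (n 0 (n 8718139 z z) (n 0 z (n 0 (n 8718139 z z) (n 0 z (n 0 z (n 0 (n 1060 z (n
 1060 z z)) z)))))) z))))))))) (n 0 z (n 0 z (n 0 z (n 0 z (n 0 z (n 0 z (n 0 z (n 0 z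
 z))))))))) (n 267 (n 0 z (n 0 z (n 0 z (n 0 z (n 0 z (n 0 z (n 0 z (n 0 z (n 0 z z))))))))) (n
 15 (n 0 z (n 0 z (n 0 z (n 0 z (n 0 z (n 0 z (n 0 z (n 0 z z)))))))) (n 15 (n 0 z (n 0 z (n 0 z
 (n 0 z (n 0 z (n 0 z (n 0 z (n 0 z z)))))))) (n 15 (n 0 z (n 0 z (n 0 z (n 0 z (n 0 z (n 0 z (n
 2 (n 0 z (n 0 z (n 2 (n 0 z (n 0 z (n 0 z (n 0 z (n 0 z (n 0 z z)))))) (n 2 (n 0 z (n 0 z (n 0
 z (n 0 z (n 0 z (n 0 z z)))))) (n 2 (n 0 z (n 0 z (n 0 z (n 0 z (n 0 z (n 0 z z)))))) z))))) (n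
 0 z z)))))))) (n 15 (n 0 z (n 0 z (n 0 z (n 0 z (n 0 z (n
 0x176576320382ea8ca240775d99d921899a1d8d88e696561e8e569f8228998179646da6649256df79f9dd99a81f6e599c1001
 z (n 0 z (n 0 z z)))))))) (n 15 (n 0 z (n 0 z (n 0 z (n 0 z (n 0 z (n 0 z (n 0 z (n 0 z
 z)))))))) (n 265 (n 0 z (n 0 z (n 0 z (n 0 z (n 0 z (n 0 z (n 0 z (n 0 z (n 0 z (n 0 z (n 0 z
 (n 0 z (n 0 z (n 0 z (n 0 z (n 0 z (n 0 z (n 0 z (n 0 z (n 0 z (n 0 z (n 0 z (n 0 z (n 0 z (n 0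
 z (n 0 z (n 0 z (n 0 z (n 0 z z))))))))))))))))))))))))))))) (n 265 (n 0 z (n 0 z (n 0 z (n 0 z
 (n 0 z (n 0 z (n 0 z (n 0 z (n 0 z (n 0 z (n 0 z (n 0 z (n 0 z (n 0 z (n 0 z (n 0 z (n 0 z (n 0
 z (n 0 z (n 0 z (n 2 (n 0 z z) (n 0 z (n 0 z (n 0 z (n 0 z (n 0 z (n 0 z (n 0 z (n 0 z
 z))))))))))))))))))))))))))))) (n 265 (n 0 z (n 0 z (n 0 z (n 0 z (n 0 z (n 0 z (n 0 z (n 0 z
 (n 0 z (n 0 z (n 0 z (n 0 z (n 0 z (n 0 z (n 0 z (n 0 z (n 0 z (n 0 z (n 0 z (n 0 z (n 0 z (n 0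
 z (n 0 z (n 0 z (n 2 z (n 0 z (n 0 z (n 0 z (n 0 z z)))))))))))))))))))))))))))))
 z)))))))))))))) (n 0 (n 175 (n 2 (n 0 z (n 2 (n 0 z (n 0 z (n 0 z (n 0 z (n 0 z (n 0 z z))))))
 (n 1 z (n 2 (n 0 z (n 0 z (n 0 z (n 0 z (n 0 z (n 0 z z)))))) (n 2 (n 0 z (n 0 z (n 0 z (n 0 z
 (n 0 z (n 0 z z)))))) (n 2 (n 0 z (n 0 z (n 0 z (n 0 z (n 0 z (n 0 z z)))))) (n 1 z (n 1 z (n 2
 (n 0 z (n 0 (n 6621259 z z) (n 0 z (n 0 z (n 0 (n 8868451 z z) (n 0 (n 8728691 z (n 8718139 z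
 z)) z)))))) (n 2 (n 0 z (n 0 z (n 0 z (n 0 z (n 0 z (n 0 z z)))))) (n 1 z (n 2 (n 0 (n 8718139
 z z) (n 0 z (n 0 z (n 0 z (n 0 z (n 0 (n 4036 z (n 8718139 z z)) z)))))) z)))))))))))) (n 0 z
 (n 0 z (n 0 z (n 0 z (n 0 z (n 0 z (n 0 z (n 0 z (n 0 z (n 0 z (n 0 z (n 0 z z))))))))))))) (n
 175 (n 0 z (n 0 z (n 0 z (n 0 z (n 0 z (n 2 (n 2 (n 0 z (n 0 z (n 0 z (n 0 z (n 0 z (n 0 (n
 8855811 z z) z)))))) (n 2 (n 0 z (n 0 z (n 0 z (n 0 z (n 0 z (n 0 z z)))))) (n 2 (n 0 z (n 0 z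
 (n 0 z (n 0 z (n 0 z (n 0 z z)))))) (n 2 (n 0 z (n 0 z (n 0 z (n 0 z (n 0 z (n 0 z z)))))) (n 2
 (n 0 z (n 0 z (n 0 z (n 0 z (n 0 z (n 0 z z)))))) (n 2 (n 0 z (n 0 z (n 0 z (n 0 z (n 0 z (n 0
 z z)))))) (n 2 (n 0 z (n 0 z (n 0 z (n 0 z (n 0 z (n 0 z z)))))) (n 2 (n 0 z (n 0 z (n 0 z (n 0
 z (n 0 z (n 0 z z)))))) (n 2 (n 0 z (n 0 z (n 0 z (n 0 z (n 0 z (n 0 (n 8855811 z z) z)))))) (n
 2 (n 0 z (n 0 z (n 0 z (n 0 z (n 0 z (n 0 z z)))))) (n 2 (n 0 z (n 0 z (n 0 z (n 0 z (n 0 z (n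
 0 z z)))))) z))))))))))) (n 0 z (n 0 z (n 0 z (n 0 z (n 0 z (n 0 z (n 0 z z))))))))))))) (n
 1015 (n 0 z (n 0 z (n 0 z (n 2 (n 2 (n 0 z (n 0 z (n 0 z (n 0 z (n 0 z (n 0 z z)))))) (n 2 (n 0
 z (n 0 z (n 0 z (n 0 z (n 0 z (n 0 (n 8855811 z z) z)))))) (n 1 z (n 2 (n 0 z (n 0 z (n 0 z (n
 0 z (n 0 z (n 0 z z)))))) (n 2 (n 0 z (n 0 z (n 0 z (n 0 z (n 0 z (n 0 z z)))))) (n 2 (n 0 z (n
 0 z (n 0 z (n 0 z (n 0 z (n 0 z z)))))) (n 2 (n 0 z (n 0 z (n 0 z (n 0 z (n 0 z (n 0 z z))))))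
 (n 1 z (n 2 (n 0 z (n 0 z (n 0 z (n 0 z (n 0 z (n 0 z z)))))) (n 2 (n 0 z (n 0 (n 4036 z z) (n
 0 z (n 0 (n 8730139 z z) (n 0 z (n 0 (n 4036 z (n 8722187 z z)) z)))))) z)))))))))) (n 0 z (n 0
 z (n 0 z z))))))) (n 1011 (n 2 (n 0 z (n 2 (n 0 z (n 0 z (n 0 z (n 0 z (n 0 z (n 0 z z)))))) (n
 2 (n 0 z (n 0 z (n 0 z (n 0 z (n 0 z (n 0 z z)))))) (n 1 z (n 1 z (n 2 (n 0 z (n 0 z (n 0 z (n
 0 z (n 0 z (n 0 z z)))))) (n 2 (n 0 z (n 0 z (n 0 z (n 0 z (n 0 z (n 0 z z)))))) (n 2 (n 0 (n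
 4036 z z) (n 0 z (n 0 z (n 0 z (n 0 z (n 0 (n 4036 z (n 4036 z z)) z)))))) (n 2 (n 0 z (n 0 z
 (n 0 z (n 0 z (n 0 z (n 0 z z)))))) z))))))))) (n 0 z (n 0 z (n 0 z (n 0 z (n 0 z (n 0 z (n 0 z
 z)))))))) (n 1011 (n 0 z (n 0 z (n 0 z (n 0 z (n 0 z (n 0 z (n 0 z (n 2 (n 2 (n 0 z (n 0 z (n 0
 z (n 0 z (n 0 z (n 0 z z)))))) (n 2 (n 0 z (n 0 z (n 0 z (n 0 z (n 0 z (n 0 z z)))))) (n 2 (n 0
 z (n 0 z (n 0 z (n 0 z (n 0 z (n 0 z z)))))) (n 2 (n 0 z (n 0 z (n 0 z (n 0 z (n 0 z (n 0 z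
 z)))))) (n 2 (n 0 z (n 0 z (n 0 z (n 0 z (n 0 z (n 0 z z)))))) (n 2 (n 0 z (n 0 z (n 0 z (n 0 z
 (n 0 z (n 0 (n 8855811 z z) z)))))) (n 2 (n 0 z (n 0 z (n 0 z (n 0 z (n 0 z (n 0 z z)))))) (n 2
 (n 0 z (n 0 z (n 0 z (n 0 z (n 0 z (n 0 z z)))))) z)))))))) z)))))))) (n 303 (n 0 z (n 0 z (n 0
 z (n 0 z (n 0 z (n 0 z (n 0 z (n 2 (n 0 z (n 0 z (n 0 z (n 0 z (n 1 z (n 2 (n 0 z (n 0 z (n 0 z
 (n 0 z (n 0 z (n 0 z z)))))) (n 2 (n 0 z (n 0 z (n 0 z (n 0 z (n 0 z (n 0 z z)))))) z))))))) (n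
 0 z (n 0 z (n 0 z (n 0 z (n 0 z (n 0 z (n 0 z (n 0 z (n 0 z z))))))))))))))))) (n 303 (n 0 z (n
 0 z (n 0 z (n 0 z (n 0 z (n 0 z (n 0 z (n 0 z (n 0 z (n 0 z (n
 0x20ea8ca2403888b789e7f857fad597e77a0684b645ba26465759f95776394a18fa87372a99c71745b75a76e86864f8c77998b559a7e6d890809
 z (n
 0xaea8ca2407762a1971d890b998d682ecac569b2151c8ad70a6cbbe43d97af9243a5820d97b595f366989d0801 z
 (n 0 z (n 0 z (n 0 z (n 0 z (n 0 z z))))))))))))))))) (n 303 (n 0 z (n 0 z (n 0 z (n 0 z (n 0 z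
 (n 0 z (n 0 z (n 0 z (n 0 z (n 0 z (n 0 z (n 0 z (n 0 z (n 0 z (n 0 z (n 0 z (n 0 z
 z))))))))))))))))) (n 303 (n 0 z (n 0 z (n 0 z (n 0 z (n 0 z (n 0 z (n 0 z (n 0 z (n 0 z (n 0 z
 (n 0 z (n 0 z (n 0 z (n 0 z (n 0 z (n 0 z (n 0 z z))))))))))))))))) (n 303 (n 0 z (n 0 z (n 0 z
 (n 0 z (n 0 z (n 0 z (n 0 z (n 0 z (n 0 z (n 0 z (n 0 z (n 0 z (n 0 z (n 0 z (n 0 z (n 0 z (n 0
 z z))))))))))))))))) (n 1009 (n 0 z (n 2 (n 0 z (n 0 z z)) (n 0 z (n 0 z (n 0 z (n 0 z (n 0 z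
 (n 0 z (n 0 z (n 0 z (n 0 z (n 0 z (n 0 z (n 0 z (n 0 z (n 0 z (n 0 z (n 0 z (n 0 z (n 0 z (n 0
 z (n 0 z (n 0 z (n 0 z (n 0 z z))))))))))))))))))))))))) (n 1009 (n 0 z (n 0 z (n 0 z (n 0 z (n
 0 z (n 0 z (n 0 z (n 0 z (n 0 z (n 0 z (n 0 z (n 0 z (n 0 z (n 0 z (n 2 (n 0 z z) (n 0 z (n 0 z
 (n 0 z (n 0 z (n 0 z (n 0 z (n 0 z (n 0 z (n 0 z (n 0 z z))))))))))))))))))))))))) (n 1009 (n 0
 z (n 0 z (n 0 z (n 0 z (n 0 z (n 0 z (n 0 z (n 0 z (n 0 z (n 0 z (n 0 z (n 0 z (n 0 z (n 0 z (n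
 0 z (n 0 z (n 0 z (n 0 z (n 0 z (n 0 z (n 0 z (n 0 z (n 0 z (n 0 z (n 0 z
 z))))))))))))))))))))))))) z))))))))))))) (n 0 (n 0 z (n 779 (n 0 z (n 2 (n 1 z (n 1 z (n 1 z
 (n 1 z (n 2 (n 0 z (n 0 z (n 0 z (n 0 z (n 0 z (n 0 z z)))))) (n 2 (n 0 z (n 0 z (n 0 z (n 0 z
 (n 0 z (n 0 z z)))))) (n 2 (n 0 (n 204 z z) (n 0 (n 8728675 z z) (n 0 z (n 0 z (n 0 z (n 0 (n
 8589427 z (n 7669835 z z)) z)))))) (n 1 z (n 2 (n 0 (n 8872715 z z) (n 0 z (n 0 z (n 0 (n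
 8872715 z z) (n 0 z (n 0 (n 8589427 z (n 8872715 z z)) z)))))) (n 2 (n 0 z (n 0 z (n 0 (n 196 z
 z) (n 0 z (n 0 (n 1925 z z) (n 0 (n 8717883 z (n 8717883 z z)) z)))))) z)))))))))) (n 0 z (n 0
 z (n 0 z (n 0 z (n 0 z z))))))) (n 55 (n 0 z (n 0 z (n 0 z (n 0 z (n 0 z (n 0 z (n 0 z (n 0 z
 (n 0 z (n 0 z (n 0 z (n 0 z (n 0 z (n 0 z (n 0 z (n 0 z z)))))))))))))))) (n 55 (n 0 z (n 0 z
 (n 0 z (n 0 z (n 0 z (n 2 (n 1 z (n 2 (n 0 z (n 0 z (n 0 z (n 0 z (n 0 z (n 0 z z)))))) (n 2 (n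
 0 z (n 0 z (n 0 z (n 0 z (n 0 z (n 0 z z)))))) (n 2 (n 0 z (n 0 z (n 0 z (n 0 z (n 0 z (n 0 z
 z)))))) (n 2 (n 0 z (n 0 z (n 0 z (n 0 z (n 0 z (n 0 z z)))))) (n 1 z (n 2 (n 0 z (n 0 z (n 0 z
 (n 0 z (n 0 z (n 0 z z)))))) (n 2 (n 0 (n 196 z z) (n 0 z (n 0 (n 196 z z) (n 0 z (n 0 z (n 0
 (n 8717883 z (n 8717883 z z)) z)))))) z)))))))) (n 0 z (n 0 z (n 0 z (n 0 z (n 0 z (n 0 z (n 0
 z (n 0 z (n 0 z (n 0 z z)))))))))))))))) (n 51 (n 0 z (n 0 z (n 0 z (n 2 (n 0 z (n 0 z (n 0 z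
 (n 0 z (n 1 z (n 2 (n 0 z (n 0 z (n 0 z (n 0 z (n 0 z (n 0 z z)))))) (n 2 (n 0 z (n 0 (n
 8728675 z z) (n 0 z (n 0 (n 196 z z) (n 0 z (n 0 (n 8783659 z (n 8722187 z z)) z)))))) z)))))))
 (n 0 z (n 0 z (n 0 z (n 0 z (n 0 z (n 0 z (n 0 z (n 0 z z)))))))))))) (n 51 (n 0 z (n 0 z (n 0
 z (n 0 z (n 0 z (n 2 (n 0 z (n 0 z (n 0 z (n 1 z (n 2 (n 0 z (n 0 z (n 0 z (n 0 z (n 0 z (n 0 z
 z)))))) (n 2 (n 0 z (n 0 (n 8728675 z z) (n 0 z (n 0 (n 8861195 z z) (n 0 z (n 0 (n 8717883 z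
 (n 8726283 z z)) z)))))) z)))))) (n 0 z (n 0 z (n 0 z (n 0 z (n 0 z (n 0 z z)))))))))))) (n 51
 (n 0 z (n 0 z (n 0 z (n 0 z (n 0 z (n 0 z (n 0 z (n 2 (n 0 z (n 0 z (n 2 (n 0 z (n 0 z (n 0 z
 (n 0 z (n 0 z (n 0 z z)))))) (n 2 (n 0 (n 196 z z) (n 0 z (n 0 z (n 0 z (n 0 z (n 0 (n 196 z (n
 196 z z)) z)))))) (n 2 (n 0 z (n 0 z (n 0 z (n 0 z (n 0 z (n 0 z z)))))) z))))) (n 0 z (n 0 z
 (n 0 z (n 0 z z)))))))))))) (n 51 (n 0 z (n 0 z (n 0 z (n 0 z (n 0 z (n 0 z (n 0 z (n 0 z (n 2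
 (n 0 z (n 2 (n 0 z (n 0 z (n 0 z (n 0 z (n 0 z (n 0 z z)))))) (n 2 (n 0 (n 8804139 z z) (n 0 z
 (n 0 z (n 0 z (n 0 z (n 0 (n 196 z (n 8804139 z z)) z)))))) (n 2 (n 0 z (n 0 z (n 0 z (n 0 z (n
 0 z (n 0 z z)))))) z)))) (n 0 z (n 0 z (n 0 z z)))))))))))) (n 51 (n 0 z (n 0 z (n 0 z (n 0 z
 (n 0 z (n 0 z (n 0 z (n 0 z (n 0 z (n 0 z (n 0 z (n 0 z z)))))))))))) (n 49 (n 0 z (n 0 z (n 0
 z (n 2 (n 0 z (n 0 z z)) (n 0 z (n 0 z (n 0 z (n 0 z (n 0 z (n 0 z (n 0 z (n 0 z (n 0 z (n 0 z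
 (n 0 z (n 0 z (n 0 z (n 0 z (n 0 z (n 0 z (n 0 z (n 0 z (n 0 z (n 0 z (n 0 z
 z))))))))))))))))))))))))) (n 49 (n 0 z (n 0 z (n 0 z (n 0 z (n 0 z (n 0 z (n 0 z (n 0 z (n 0 z
 (n 0 z (n 0 z (n 0 z (n 0 z (n 0 z (n 0 z (n 0 z (n 0 z (n 0 z (n 0 z (n 0 z (n 0 z (n 0 z (n 0
 z (n 0 z (n 0 z z))))))))))))))))))))))))) (n 49 (n 0 z (n 0 z (n 0 z (n 0 z (n 0 z (n 0 z (n 0
 z (n 0 z (n 0 z (n 0 z (n 0 z (n 0 z (n 0 z (n 0 z (n 2 z (n 0 z (n 0 z (n 0 z (n 0 z (n 0 z (n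
 0 z (n 0 z (n 0 z (n 0 z (n 0 z z))))))))))))))))))))))))) z)))))))))))) (n 0 (n 259 (n 0 z (n
 0 z (n 0 z (n 0 z (n 0 z (n 0 z (n 0 z (n 0 z (n 0 z (n 0 z z)))))))))) (n 7 (n 0 z (n 2 (n 0 z
 (n 1 z (n 2 (n 0 z (n 0 z (n 0 z (n 0 z (n 0 z (n 0 z z)))))) (n 2 (n 0 z (n 0 z (n 0 z (n 0 z
 (n 0 z (n 0 z z)))))) (n 2 (n 0 z (n 0 z (n 0 z (n 0 z (n 0 z (n 0 z z)))))) (n 2 (n 0 z (n 0 z
 (n 0 z (n 0 z (n 0 z (n 0 z z)))))) (n 1 z (n 2 (n 0 z (n 0 z (n 0 z (n 0 z (n 0 z (n 0 z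
 z)))))) (n 2 (n 0 (n 8718139 z z) (n 0 z (n 0 (n 8718139 z z) (n 0 z (n 0 z (n 0 (n 1028 z (n
 1028 z z)) z)))))) z))))))))) (n 0 z (n 0 z (n 0 z (n 0 z (n 0 z (n 0 z (n 0 z z))))))))) (n 7
 (n 0 z (n 0 z (n 0 z (n 0 z (n 0 z (n 0 z (n 0 z (n 0 z (n 0 z z))))))))) (n 255 (n 0 z (n 0 z
 (n 0 z (n 0 z (n 0 z (n 0 z (n 0 z (n 0 z (n 0 z (n 0 z (n 0 z (n 0 z (n 0 z (n 0 z (n 0 z (n 0
 z z)))))))))))))))) (n 255 (n 0 z (n 0 z (n 0 z (n 0 z (n 0 z (n 0 z (n 0 z (n 0 z (n 0 z (n 0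
 z (n 0 z (n 0 z (n 0 z (n 0 z (n 0 z (n 0 z z)))))))))))))))) (n 255 (n 0 z (n 0 z (n 0 z (n 0
 z (n 0 z (n 0 z (n 0 z (n 0 z (n 0 z (n 2 (n 0 z (n 0 z (n 2 (n 0 z (n 0 z (n 0 z (n 0 z (n 0 z
 (n 0 z z)))))) (n 2 (n 0 z (n 0 z (n 0 z (n 0 z (n 0 z (n 0 z z)))))) (n 2 (n 0 z (n 0 z (n 0 z
 (n 0 z (n 0 z (n 0 z z)))))) z))))) (n 0 z (n 0 z (n 0 z (n 0 z (n 0 z (n 0 z z))))))))))))))))
 (n 255 (n 0 z (n 0 z (n 0 z (n 0 z (n 0 z (n 0 z (n 0 z (n 0 z (n 0 z (n 0 z (n 0 z (n 0 z (n 0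
 z (n 0 z (n 0 z (n 0 z z)))))))))))))))) (n 255 (n 0 z (n 0 z (n 0 z (n 0 z (n 0 z (n 0 z (n 0
 z (n 0 z (n 0 z (n 0 z (n 0 z (n 0 z (n 0 z (n 0 z (n 0 z (n 0 z z)))))))))))))))) (n 257 (n 0
 z (n 0 z (n 0 z (n 0 z (n 0 z (n 0 z (n 0 z (n 0 z (n 0 z (n 0 z (n 0 z (n 0 z (n 0 z (n 0 z (n
 0 z (n 0 z (n 0 z (n 0 z (n 0 z (n 0 z (n 0 z (n 0 z (n 0 z (n 0 z (n 0 z (n 0 z (n 0 z (n 0 z
 (n 0 z z))))))))))))))))))))))))))))) (n 257 (n 0 z (n 0 z (n 0 z (n 0 z (n 0 z (n 0 z (n 0 z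
 (n 0 z (n 0 z (n 0 z (n 0 z (n 0 z (n 0 z (n 0 z (n 0 z (n 0 z (n 0 z (n 0 z (n 0 z (n 0 z (n 0
 z (n 0 z (n 0 z (n 0 z (n 2 (n 0 z z) (n 0 z (n 0 z (n 0 z (n 0 z
 z))))))))))))))))))))))))))))) (n 257 (n 0 z (n 0 z (n 0 z (n 0 z (n 0 z (n 0 z (n 2 z (n 0 z
 (n 0 z (n 0 z (n 0 z (n 0 z (n 0 z (n 0 z (n 0 z (n 0 z (n 0 z (n 0 z (n 0 z (n 0 z (n 0 z (n 0
 z (n 0 z (n 0 z (n 0 z (n 0 z (n 0 z (n 0 z (n 0 z z))))))))))))))))))))))))))))) z)))))))))))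
 (n 0 (n 295 (n 0 z (n 2 (n 0 z (n 1 z (n 1 z (n 2 (n 0 z (n 0 z (n 0 z (n 0 z (n 0 z (n 0 z
 z)))))) (n 2 (n 0 z (n 0 z (n 0 z (n 0 z (n 0 z (n 0 z z)))))) (n 2 (n 0 (n 8589411 z z) (n 0 z
 (n 0 z (n 0 (n 1932 z z) (n 0 z (n 0 (n 1932 z (n 1932 z z)) z)))))) (n 1 z (n 2 (n 0 z (n 0 (n
 1924 z z) (n 0 z (n 0 (n 197 z z) (n 0 z (n 0 (n 8848939 z (n 8848939 z z)) z)))))) (n 2 (n 0 z
 (n 0 z (n 0 (n 8718139 z z) (n 0 z (n 0 (n 8718139 z z) (n 0 (n 1924 z (n 1924 z z)) z))))))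
 z))))))))) (n 0 z (n 0 z (n 0 z (n 0 z (n 0 z (n 0 z (n 0 z z))))))))) (n 295 (n 0 z (n 0 z (n
 0 z (n 0 z (n 0 z (n 0 z (n 0 z (n 0 z (n 0 z z))))))))) (n 483 (n 0 z (n 0 z (n 0 z (n 0 z (n
 0 z (n 0 z (n 0 z (n 0 z (n 0 z (n 0 z (n 0 z (n 0 z z)))))))))))) (n 483 (n 0 z (n 0 z (n 0 z
 (n 0 z (n 0 z (n 0 z (n 0 z (n 0 z (n 0 z (n 0 z (n 0 z (n 0 z z)))))))))))) (n 483 (n 0 z (n 0
 z (n 0 z (n 0 z (n 2 (n 0 z (n 0 z (n 1 z (n 2 (n 0 z (n 0 z (n 0 z (n 0 z (n 0 z (n 0 z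
 z)))))) (n 2 (n 0 (n 8589411 z z) (n 0 (n 1924 z z) (n 0 z (n 0 z (n 0 z (n 0 (n 1924 z (n 1924
 z z)) z)))))) z))))) (n 0 z (n 0 z (n 0 z (n 0 z (n 0 z (n 0 z (n 0 z z)))))))))))) (n 483 (n 0
 z (n 0 z (n 0 z (n 0 z (n 0 z (n 0 z (n 0 z (n 0 z (n 0 z (n 0 z (n 0 z (n 0 z z)))))))))))) (n
 483 (n 0 z (n 0 z (n 0 z (n 0 z (n 0 z (n 0 z (n 0 z (n 0 z (n 0 z (n 0 z (n 0 z (n 0 z
 z)))))))))))) (n 481 (n 0 z (n 0 z (n 0 z (n 0 z (n 0 z (n 0 z (n 0 z (n 0 z (n 0 z (n 0 z (n 0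
 z (n 0 z (n 0 z (n 0 z (n 0 z (n 0 z (n 0 z (n 0 z (n 0 z (n 0 z (n 0 z (n 0 z (n 0 z (n 0 z (n
 0 z (n 0 z (n 0 z (n 0 z (n 0 z (n 0 z (n 0 z (n 0 z (n 0 z (n 0 z (n 0 z (n 0 z (n 0 z (n 0 z
 (n 0 z (n 0 z (n 0 z (n 0 z (n 0 z (n 0 z (n 0 z (n 0 z (n 0 z (n 0 z (n 0 z
 z))))))))))))))))))))))))))))))))))))))))))))))))) (n 481 (n 0 z (n 2 (n 0 z z) (n 0 z (n 0 z
 (n 0 z (n 0 z (n 0 z (n 0 z (n 0 z (n 0 z (n 0 z (n 0 z (n 0 z (n 0 z (n 0 z (n 0 z (n 0 z (n 0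
 z (n 0 z (n 0 z (n 0 z (n 0 z (n 0 z (n 0 z (n 0 z (n 0 z (n 0 z (n 0 z (n 0 z (n 0 z (n 0 z (n
 0 z (n 0 z (n 0 z (n 0 z (n 0 z (n 0 z (n 0 z (n 0 z (n 0 z (n 0 z (n 0 z (n 0 z (n 0 z (n 0 z
 (n 0 z (n 0 z (n 0 z (n 0 z z))))))))))))))))))))))))))))))))))))))))))))))))) (n 481 (n 0 z (n
 0 z (n 0 z (n 0 z (n 0 z (n 0 z (n 0 z (n 0 z (n 0 z (n 0 z (n 0 z (n 0 z (n 0 z (n 0 z (n 0 z
 (n 0 z (n 0 z (n 0 z (n 0 z (n 0 z (n 0 z (n 0 z (n 0 z (n 0 z (n 0 z (n 0 z (n 0 z (n 0 z (n 0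
 z (n 0 z (n 2 z (n 0 z (n 0 z (n 0 z (n 0 z (n 0 z (n 0 z (n 0 z (n 0 z (n 0 z (n 0 z (n 0 z (n
 0 z (n 0 z (n 0 z (n 0 z (n 0 z (n 0 z (n 0 z
 z))))))))))))))))))))))))))))))))))))))))))))))))) z)))))))))) (n 0 (n 0 z (n 51 (n 0 z (n 0 z
 (n 2 (n 0 z (n 0 z (n 0 z (n 0 z (n 1 z (n 2 (n 0 z (n 0 z (n 0 z (n 0 z (n 0 z (n 0 z z))))))
 (n 2 (n 0 (n 196 z z) (n 0 (n 196 z z) (n 0 z (n 0 z (n 0 z (n 0 (n 8589427 z (n 8783659 z z))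
 z)))))) z))))))) (n 0 z (n 0 z (n 0 z (n 0 z (n 0 z (n 0 z z))))))))) (n 51 (n 2 (n 0 z (n 0 z
 (n 0 z (n 1 z (n 2 (n 0 z (n 0 z (n 0 z (n 0 z (n 0 z (n 0 z z)))))) (n 2 (n 0 (n 196 z z) (n 0
 (n 196 z z) (n 0 z (n 0 z (n 0 z (n 0 (n 8790131 z (n 8717883 z z)) z)))))) z)))))) (n 0 z (n 0
 z (n 0 z (n 0 z (n 0 z (n 0 z (n 0 z (n 0 z z))))))))) (n 51 (n 0 z (n 0 z (n 0 z (n 0 z (n 2
 (n 0 z (n 0 z (n 2 (n 0 z (n 0 z (n 0 z (n 0 z (n 0 z (n 0 z z)))))) (n 2 (n 0 (n 196 z z) (n 0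
 z (n 0 z (n 0 z (n 0 z (n 0 (n 196 z (n 196 z z)) z)))))) (n 2 (n 0 (n 196 z z) (n 0 z (n 0 z
 (n 0 z (n 0 z (n 0 (n 8717883 z (n 8717883 z z)) z)))))) z))))) (n 0 z (n 0 z (n 0 z (n 0 z
 z))))))))) (n 51 (n 0 z (n 0 z (n 0 z (n 2 (n 0 z (n 2 (n 0 z (n 0 z (n 0 z (n 0 z (n 0 z (n 0
 z z)))))) (n 2 (n 0 (n 8804139 z z) (n 0 z (n 0 z (n 0 z (n 0 z (n 0 (n 196 z (n 8804139 z z))
 z)))))) (n 2 (n 0 (n 196 z z) (n 0 z (n 0 z (n 0 z (n 0 z (n 0 (n 8717883 z (n 8717883 z z))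
 z)))))) z)))) (n 0 z (n 0 z (n 0 z (n 0 z (n 0 z z))))))))) (n 51 (n 0 z (n 0 z (n 0 z (n 0 z
 (n 0 z (n 2 (n 2 (n 0 (n 6492291 z z) (n 0 z (n 0 z (n 0 (n 196 z z) (n 0 z (n 0 (n 7540867 z
 (n 196 z z)) z)))))) (n 2 (n 0 (n 8718155 z (n 196 z z)) (n 0 (n 196 z (n 196 z z)) (n 0 (n
 8718155 z (n 196 z z)) (n 0 z (n 0 (n 8717883 z (n 8717883 z z)) (n 0 z z)))))) (n 1 z z))) (n
 0 z (n 0 z (n 0 z z))))))))) (n 49 (n 2 (n 0 z (n 0 z z)) (n 0 z (n 0 z (n 0 z (n 0 z (n 0 z (n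
 0 z (n 0 z z)))))))) (n 49 (n 0 z (n 0 z (n 0 z (n 0 z (n 0 z (n 0 z (n 0 z (n 0 z z)))))))) (n
 49 (n 0 z (n 0 z (n 0 z (n 0 z (n 2 z (n 0 z (n 0 z (n 0 z z)))))))) z))))))))) (n 0 (n 15 (n 0
 z (n 0 z (n 0 z (n 0 z (n 0 z (n 0 z (n 0 z z))))))) (n 15 (n 0 z (n 0 z (n 0 z (n 0 z (n 0 z
 (n 0 z (n 0 z z))))))) (n 15 (n 0 z (n 0 z (n 0 z (n 0 z (n 0 z (n 2 (n 0 z (n 0 z (n 2 (n 0 z
 (n 0 z (n 0 z (n 0 z (n 0 z (n 0 z z)))))) (n 2 (n 0 z (n 0 z (n 0 z (n 0 z (n 0 z (n 0 z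
 z)))))) (n 2 (n 0 z (n 0 z (n 0 z (n 0 z (n 0 z (n 0 z z)))))) z))))) (n 0 z z))))))) (n 15 (n
 0 z (n 0 z (n 0 z (n 0 z (n 0 z (n 0 z (n 0 z z))))))) (n 15 (n 0 z (n 0 z (n 0 z (n 0 z (n 0 z
 (n 0 z (n 0 z z))))))) (n 341 (n 0 z (n 0 z (n 0 z (n 0 z (n 0 z (n 0 z (n 0 z (n 0 z (n 0 z (n
 0 z (n 0 z (n 0 z (n 0 z (n 0 z (n 0 z (n 0 z (n 0 z (n 0 z (n 0 z (n 0 z (n 0 z (n 0 z (n 0 z
 (n 0 z (n 0 z (n 0 z (n 0 z (n 0 z (n 0 z (n 0 z (n 0 z (n 0 z (n 0 z (n 0 z (n 0 z (n 0 z (n 0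
 z (n 0 z (n 0 z (n 0 z (n 0 z (n 0 z (n 0 z (n 0 z (n 0 z (n 0 z (n 0 z (n 0 z (n 0 z
 z))))))))))))))))))))))))))))))))))))))))))))))))) (n 341 (n 0 z (n 0 z (n 0 z (n 0 z (n 0 z (n
 0 z (n 0 z (n 0 z (n 0 z (n 0 z (n 0 z (n 0 z (n 0 z (n 0 z (n 0 z (n 0 z (n 0 z (n 0 z (n 0 z
 (n 0 z (n 0 z (n 0 z (n 0 z (n 0 z (n 0 z (n 0 z (n 0 z (n 0 z (n 0 z (n 0 z (n 0 z (n 0 z (n 0
 z (n 2 (n 0 z z) (n 0 z (n 0 z (n 0 z (n 0 z (n 0 z (n 0 z (n 0 z (n 0 z (n 0 z (n 0 z (n 0 z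
 (n 0 z (n 0 z (n 0 z (n 0 z z))))))))))))))))))))))))))))))))))))))))))))))))) (n 341 (n 0 z (n
 2 z (n 0 z (n 0 z (n 0 z (n 0 z (n 0 z (n 0 z (n 0 z (n 0 z (n 0 z (n 0 z (n 0 z (n 0 z (n 0 z
 (n 0 z (n 0 z (n 0 z (n 0 z (n 0 z (n 0 z (n 0 z (n 0 z (n 0 z (n 0 z (n 0 z (n 0 z (n 0 z (n 0
 z (n 0 z (n 0 z (n 0 z (n 0 z (n 0 z (n 0 z (n 0 z (n 0 z (n 0 z (n 0 z (n 0 z (n 0 z (n 0 z (n
 0 z (n 0 z (n 0 z (n 0 z (n 0 z (n 0 z (n 0 z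
 z))))))))))))))))))))))))))))))))))))))))))))))))) z)))))))) (n 0 (n 0 z (n 0 z (n 0 z (n 0 z
 (n 25 (n 0 z (n 0 z (n 0 z (n 0 z (n 0 z (n 0 z (n 0 z (n 0 z (n 0 z (n 0 z (n 0 z (n 0 z (n 0
 z (n 0 z (n 0 z (n 0 z (n 0 z (n 0 z (n 0 z (n 0 z (n 0 z (n 0 z (n 0 z (n 0 z (n 0 z (n 0 z (n
 0 z (n 0 z (n 0 z (n 0 z (n 0 z (n 0 z (n 0 z (n 0 z (n 0 z (n 0 z (n 0 z (n 0 z (n 0 z (n 0 z
 (n 0 z (n 0 z (n 0 z (n 0 z (n 0 z (n 0 z (n 0 z (n 0 z (n 0 z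
 z))))))))))))))))))))))))))))))))))))))))))))))))) (n 25 (n 0 z (n 0 z (n 0 z (n 0 z (n 0 z (n
 0 z (n 0 z (n 0 z (n 0 z (n 0 z (n 0 z (n 0 z (n 0 z (n 0 z (n 0 z (n 0 z (n 0 z (n 0 z (n 0 z
 (n 0 z (n 0 z (n 0 z (n 0 z (n 0 z (n 0 z (n 0 z (n 0 z (n 0 z (n 0 z (n 0 z (n 2 (n 0 z z) (n
 0 z (n 0 z (n 0 z (n 0 z (n 0 z (n 0 z (n 0 z (n 0 z (n 0 z (n 0 z (n 0 z (n 0 z (n 0 z (n 0 z
 (n 0 z (n 0 z (n 0 z (n 0 z z))))))))))))))))))))))))))))))))))))))))))))))))) (n 25 (n 0 z (n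
 0 z (n 0 z (n 0 z (n 0 z (n 0 z (n 0 z (n 0 z (n 0 z (n 0 z (n 0 z (n 0 z (n 0 z (n 0 z (n 0 z
 (n 0 z (n 0 z (n 0 z (n 0 z (n 0 z (n 0 z (n 0 z (n 0 z (n 0 z (n 0 z (n 0 z (n 0 z (n 0 z (n 0
 z (n 0 z (n 0 z (n 0 z (n 0 z (n 2 z (n 0 z (n 0 z (n 0 z (n 0 z (n 0 z (n 0 z (n 0 z (n 0 z (n
 0 z (n 0 z (n 0 z (n 0 z (n 0 z (n 0 z (n 0 z
 z))))))))))))))))))))))))))))))))))))))))))))))))) z))))))) (n 0 (n 0 z (n 0 z (n 0 z (n 73 (n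
 0 z (n 0 z (n 0 z (n 0 z (n 0 z (n 0 z (n 0 z (n 0 z (n 0 z (n 0 z (n 0 z (n 0 z (n 0 z (n 0 z
 (n 0 z (n 0 z (n 0 z (n 0 z (n 0 z (n 0 z (n 0 z (n 0 z (n 0 z (n 0 z (n 0 z (n 0 z (n 0 z (n 0
 z (n 0 z (n 0 z (n 0 z (n 0 z (n 0 z (n 0 z (n 0 z (n 0 z (n 0 z (n 0 z (n 0 z (n 0 z (n 0 z (n
 0 z (n 0 z (n 0 z (n 0 z (n 0 z (n 0 z z))))))))))))))))))))))))))))))))))))))))))))))) (n 73
 (n 0 z (n 0 z (n 0 z (n 0 z (n 0 z (n 0 z (n 0 z (n 0 z (n 0 z (n 0 z (n 0 z (n 0 z (n 0 z (n 0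
 z (n 0 z (n 0 z (n 0 z (n 0 z (n 0 z (n 0 z (n 0 z (n 0 z (n 0 z (n 0 z (n 0 z (n 0 z (n 0 z (n
 0 z (n 0 z (n 0 z (n 0 z (n 0 z (n 0 z (n 0 z (n 0 z (n 0 z (n 0 z (n 0 z (n 0 z (n 0 z (n 0 z
 (n 0 z (n 0 z (n 0 z (n 0 z (n 0 z (n 0 z z))))))))))))))))))))))))))))))))))))))))))))))) (n
 73 (n 0 z (n 0 z (n 0 z (n 0 z (n 0 z (n 0 z (n 0 z (n 0 z (n 0 z (n 0 z (n 0 z (n 0 z (n 0 z
 (n 0 z (n 0 z (n 0 z (n 0 z (n 0 z (n 0 z (n 0 z (n 0 z (n 0 z (n 0 z (n 0 z (n 0 z (n 0 z (n 0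
 z (n 0 z (n 0 z (n 0 z (n 0 z (n 0 z (n 0 z (n 0 z (n 0 z (n 0 z (n 0 z (n 0 z (n 0 z (n 0 z (n
 0 z (n 0 z (n 0 z (n 0 z (n 0 z (n 0 z (n 0 z z)))))))))))))))))))))))))))))))))))))))))))))))
 z)))))) (n 0 (n 0 z (n 0 z (n 1 (n 2 (n 0 z (n 0 z z)) (n 0 z (n 0 z (n 0 z (n 0 z (n 0 z (n 0
 z (n 0 z (n 0 z (n 0 z (n 0 z (n 0 z z)))))))))))) (n 1 (n 0 z (n 0 z (n 2 (n 0 z z) (n 0 z (n
 0 z (n 0 z (n 0 z (n 0 z (n 0 z (n 0 z (n 0 z (n 0 z z)))))))))))) (n 1 (n 0 z (n 0 z (n 0 z (n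
 0 z (n 0 z (n 0 z (n 0 z (n 0 z (n 0 z (n 0 z (n 0 z (n 0 z z)))))))))))) z))))) (n 0 (n 0 z (n
 1 (n 0 z (n 0 z (n 0 z (n 0 z (n 0 z (n 0 z (n 0 z (n 0 z (n
 0x8b76079085f82a3599ddc5d8a1aa5615ee07de92c81a8138eb69a8248a75d74a6cd3a2caa66e071b0041 z (n 0 z
 (n 0 z (n 0 z z)))))))))))) (n 1 (n 0 z (n 0 z (n 0 z (n 0 z (n 0 z (n 0 z (n 0 z (n 0 z (n 0 z
 (n 0 z (n 0 z (n 0 z z)))))))))))) (n 1 (n 0 z (n 0 z (n 0 z (n 0 z (n 0 z (n 0 z (n 0 z (n 0 z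
 (n 0 z (n 0 z (n 0 z (n 0 z z)))))))))))) z)))) (n 0 (n 1 (n 0 z (n 0 z (n 0 z (n 0 z (n 0 z (n
 0 z (n 0 z (n 0 z z)))))))) (n 1 (n 0 z (n 0 z (n 0 z (n 0 z (n 0 z (n 0 z (n 0 z (n 0 z
 z)))))))) (n 1 (n 0 z (n 0 z (n 0 z (n 0 z (n 0 z (n 0 z (n 0 z (n 0 z z)))))))) z))) (n 0 (n 0
 z (n 0 z z)) (n 0 (n 0 z z) (n 0 z z))))))))))))))) (n 0 (n 0 z (n 0 z (n 0 z (n 1 (n 3280995 z
 (n 1612 z (n 2 z (n 1612 z (n 1612 z (n 1612 z z)))))) (n 0 z (n 1 (n 3212843 z (n 6619675 z (n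
 3212843 z (n 3212843 z (n 3212843 z (n 3212843 z z)))))) (n 0 z (n 0 z z)))))))) (n 0 (n
 0xa2e525815d2d543ae46a87136aa611553ac0 (n 0 (n 0 (n 7741699 z (n 7741699 z (n 7741699 z (n
 7741699 z (n 7741699 z (n 7741699 z z)))))) z) (n 0 (n 7 (n 1 (n 1612 z (n 1612 z (n 1612 z (n
 1612 z (n 1612 z (n 1612 z z)))))) (n 1 (n 7540835 z (n 7540835 z (n 7540835 z (n 7540835 z (n
 7540835 z (n 7540835 z z)))))) (n 1 (n 1612 z (n 1612 z (n 1612 z (n 1612 z (n 1612 z (n 1612 z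
 z)))))) (n 1 (n 7749651 z (n 7749651 z (n 7749651 z (n 7749651 z (n 7749651 z (n 7749651 z
 z)))))) (n 0 z (n 1 (n 1612 z (n 1612 z (n 1612 z (n 1612 z (n 5517683 z (n 1612 z z)))))) (n 1
 (n 5519131 z (n 2 z (n 1612 z (n 1612 z (n 1612 z (n 1612 z z)))))) (n 1 (n 7749651 z (n
 7749651 z (n 7749651 z (n 7749651 z (n 7749651 z (n 7749651 z z)))))) z)))))))) (n 183 (n 0 z
 (n 1 (n 7741699 z (n 10 z (n 7673355 z (n 268 z (n 268 z (n 268 z z)))))) (n 1 (n 7741699 z (n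
 7540835 z (n 7540835 z (n 7540835 z (n 7540835 z (n 7540835 z z)))))) (n 0 z (n 1 (n 7741699 z
 (n 7540835 z (n 7540835 z (n 7540835 z (n 7540835 z (n 7540835 z z)))))) (n 0 z (n 1 (n 7741699
 z (n 7540835 z (n 7540835 z (n 7540835 z (n 7540835 z (n 7540835 z z)))))) (n 1 (n 7741699 z (n
 7673355 z (n 268 z (n 268 z (n 268 z (n 268 z z)))))) (n 0 z z))))))))) (n 135 (n 0 z (n 0 z (n
 0 z (n 1 (n 7741699 z (n 7741699 z (n 7741699 z (n 7741699 z (n 7741699 z (n 7741699 z z))))))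
 (n 0 z (n 1 (n 7741699 z (n 7741699 z (n 7741699 z (n 7741699 z (n 7741699 z (n 7741699 z
 z)))))) (n 0 z (n 0 z z)))))))) (n 7 (n 1 (n 1468 z (n 1468 z (n 1468 z (n 5506875 z (n 18 z (n
 1468 z z)))))) (n 1 (n 7540835 z (n 7540835 z (n 7540835 z (n 7540835 z (n 7540835 z (n 7540835
 z z)))))) (n 0 z (n 0 z (n 0 z (n 1 (n 1468 z (n 460 z (n 1468 z (n 1468 z (n 1468 z (n 4327259
 z z)))))) (n 1 (n 7749651 z (n 7749651 z (n 7749651 z (n 7749651 z (n 7749651 z (n 7749651 z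
 z)))))) z))))))) (n 13 (n 1 (n 4156 z (n 4156 z (n 4156 z (n 4156 z (n 4156 z (n 4156 z z))))))
 (n 1 (n 7540835 z (n 7540835 z (n 7540835 z (n 7540835 z (n 7540835 z (n 7540835 z z)))))) (n 0
 z (n 0 z (n 0 z (n 1 (n 4156 z (n 3278683 z (n 26 z (n 4156 z (n 4156 z (n 4156 z z)))))) (n 1
 (n 7749651 z (n 7749651 z (n 7749651 z (n 7749651 z (n 7749651 z (n 7749651 z z)))))) z)))))))
 (n 237 (n 1 (n 7741699 z (n 7540835 z (n 7540835 z (n 7540835 z (n 7540835 z (n 7540835 z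
 z)))))) (n 0 z (n 1 (n 7741699 z (n 7540835 z (n 7540835 z (n 7540835 z (n 7540835 z (n 7540835
 z z)))))) (n 0 z (n 0 z (n 1 (n 7741699 z (n 7749651 z (n 7749651 z (n 7749651 z (n 7749651 z
 (n 7749651 z z)))))) (n 1 (n 7741699 z (n 7668251 z (n 7668251 z (n 7673355 z (n 7668251 z (n
 7668251 z z)))))) (n 1 (n 7741699 z (n 4940 z (n 7673355 z (n 3213147 z (n 4940 z (n 4940 z
 z)))))) (n 1 (n 7741699 z (n 7673355 z (n 4940 z (n 4940 z (n 4940 z (n 4940 z z)))))) (n 1 (n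
 7741699 z (n 7673355 z (n 4940 z (n 4940 z (n 4940 z (n 4940 z z)))))) (n 1 (n 7741699 z (n
 4940 z (n 4940 z (n 7673355 z (n 4828 z (n 4940 z z)))))) (n 0 z (n 0 z (n 0 z (n 0 z (n 0 z (n
 0 z (n 1 (n 7741699 z (n 7749651 z (n 7749651 z (n 7749651 z (n 7749651 z (n 7749651 z z))))))
 (n 0 z (n 0 z (n 1 (n 7741699 z (n 4940 z (n 4940 z (n 7673355 z (n 34 z (n 4940 z z)))))) (n 0
 z (n 0 z (n 0 z (n 1 (n 7741699 z (n 4940 z (n 4940 z (n 42 z (n 7673355 z (n 4940 z z)))))) (n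
 0 z (n 0 z (n 1 (n 7741699 z (n 4940 z (n 4940 z (n 4940 z (n 7673355 z (n 4940 z z)))))) (n 0
 z z))))))))))))))))))))))))))))) (n 135 (n 0 z (n 0 z (n 0 z (n 1 (n 7741699 z (n 7741699 z (n
 7741699 z (n 7741699 z (n 7741699 z (n 7741699 z z)))))) (n 0 z (n 1 (n 7741699 z (n 7741699 z
 (n 7741699 z (n 7741699 z (n 7741699 z (n 7741699 z z)))))) (n 0 z (n 0 z z)))))))) z))))))) (n
 0 (n 0 (n 0 z (n 0 z (n 0 z (n 0 z (n 0 z (n 0 z z)))))) (n 0 (n 0 z (n 0 z (n 0 z (n 0 z (n 0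
 z z))))) (n 0 (n 0 z (n 0 z (n 0 z (n 0 z z)))) (n 0 (n 0 z (n 0 z (n 0 z z))) (n 0 (n 0 z (n 0
 z z)) (n 0 (n 0 z z) z)))))) (n 0 (n 183 (n 0 (n 0 z (n 0 z (n 0 z (n 0 z (n 0 (n
 0x1f0e90e84070387586420384c2a42a101c7e1da1cc806050eb0864039c8980bf8398a8e8307480b7443e3438df532b5ecaab534f968dabca6954dfdb4d854174d763789a1e74679b8129a3785a8c2809
 z z) (n 0 (n
 0x30e70e48038208208208208208207df82082186082082082182081f8208208208208208208208208208200801 z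
 z) z)))))) (n 0 (n 0 z (n 0 z (n 0 z (n 0 z (n 0 z (n 0 z z)))))) (n 0 (n 0 z (n 0 z (n 0 z (n
 0 z (n 0 z (n 0 z z)))))) (n 0 (n 0 z (n 0 z (n 0 z (n 0 z (n 0 (n
 0x30e90e640781f8608208208208208207e08208208208208208208208208208208208208218208208208200801 z
 z) (n 0 (n
 0x87387240182ea90864078208208208208608207df85f86185f8607e082182082081f81f8208207e082082082082081f1001
 z z) z)))))) (n 0 (n 0 z (n 0 z (n 0 z (n 0 z (n 0 z (n 0 z z)))))) (n 0 (n 0 z (n 0 z (n 0 z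
 (n 0 z (n 0 z (n 0 z z)))))) (n 0 (n 0 z (n 0 z (n 0 z (n 0 z (n 0 (n 8589411 z z) (n 0 (n
 8589411 z z) z)))))) (n 0 (n 0 z (n 0 z (n 0 z (n 0 z (n 0 z (n 0 z z)))))) (n 0 (n 0 z (n 0 z
 (n 0 z (n 0 z (n 0 (n 7682123 z (n
 0x548747e47ed6db4226a176180e89c9568e676175d9eb5e052699771e5e28998248b6961b598ee8dd0041 z z)) (n
 0 (n 7747627 z (n 7682123 z z)) z)))))) z))))))))) (n 159 (n 0 (n 0 z (n 0 z (n 0 z (n 0 z (n 0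
 (n
 0x1ae0c585062d18317e17a26a76df8248a185a9d8a1daa48ea9a59214d75e97d969baa4719524bd795fa617de99900c1
 z z) (n 0 (n
 0x1ae0c585062d18317e17a26a76df8248a185a9d8a1daa48ea9a59214d75e97d969baa4719524bd795fa617de99900c1
 z z) z)))))) (n 0 (n 0 z (n 0 z (n 0 z (n 0 z (n 0 (n
 0xb0e70e62036218de5e0664920b2559495dadcd9f7e15e779891892675c7a27a279b6e4a9a9e572686679d0801 z
 z) (n 0 (n
 0x30e90e26037e079d82186086182282081f89f7e186081f85e7e086082286179f81f82089f7e07e081f7df0801 z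
 z) z)))))) (n 0 (n 0 z (n 0 z (n 0 z (n 0 z (n 0 z (n 0 z z)))))) (n 0 (n 0 z (n 0 z (n 0 z (n
 0 z (n 0 z (n 0 z z)))))) (n 0 (n 0 z (n 0 z (n 0 z (n 0 z (n 0 z (n 0 z z)))))) (n 0 (n 0 z (n
 0 z (n 0 z (n 0 z (n 0 z (n 0 z z)))))) (n 0 (n 0 z (n 0 z (n 0 z (n 0 z (n 0 (n 7755819 z z)
 (n 0 (n
 0xe38538781769f63874d69768c818e7b68ac7c788ead78719797917476764b89946c5d8c8d90725f7b867eb4968d7060ab728e79800049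
 z z) z)))))) (n 0 (n 0 z (n 0 z (n 0 z (n 0 z (n 0 z (n 0 z z)))))) (n 0 (n 0 z (n 0 z (n 0 z
 (n 0 z (n 0 z (n 0 z z)))))) (n 0 (n 0 (n 8872731 z z) (n 0 z (n 0 z (n 0 z (n 0 z (n 0 z
 z)))))) z)))))))))) (n 249 (n 0 (n 0 z (n 0 z (n 0 z (n 0 z (n 0 z (n 0 z z)))))) (n 0 (n 0 z
 (n 0 z (n 0 z (n 0 z (n 0 (n 8872715 z z) (n 0 (n 7669819 z z) z)))))) (n 0 (n 0 z (n 0 z (n 0
 z (n 0 z (n 0 z (n 0 z z)))))) (n 0 (n 0 z (n 0 z (n 0 z (n 0 z (n 0 (n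
 0x548307e47ed6db4226a176180e89c9568e676175d9eb5e052699771e5e28998248b6961b598ee8dd0041 z z) (n
 0 (n 0x548307e47ed6db4226a176180e89c9568e676175d9eb5e052699771e5e28998248b6961b598ee8dd0041 z
 z) z)))))) (n 0 (n 0 z (n 0 z (n 0 z (n 0 z (n 0 z (n 0 z z)))))) (n 0 (n 0 z (n 0 z (n 0 z (n
 0 z (n 0 z (n 0 z z)))))) (n 0 (n 0 z (n 0 z (n 0 z (n 0 z (n 0 z (n 0 z z)))))) (n 0 (n 0 z (n
 0 z (n 0 z (n 0 z (n 0 (n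
 0x7b8747908a36ad4db5e5c5e81892389ac598a0a2b71f95572a59585ba245606a9d9f9a772e72075a0041 z z) (n
 0 (n
 0x11b853888174a75c884064749082917a61b67b7692b9746e9c9d957074733d8b9a67549090946f577a877dc29b916c59b66e9177800049
 z z) z)))))) (n 0 (n 0 z (n 0 z (n 0 z (n 0 z (n 0 z (n 0 z z)))))) (n 0 (n 0 z (n 0 z (n 0 z
 (n 0 z (n 0 z (n 0 z z)))))) z)))))))))) (n 183 (n 0 (n 0 z (n 0 z (n 0 z (n 0 z (n 0 z (n 0 z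
 z)))))) (n 0 (n 0 z (n 0 z (n 0 z (n 0 z (n 0 z (n 0 z z)))))) (n 0 (n 0 z (n 0 z (n 0 z (n 0 z
 (n 0 z (n 0 z z)))))) (n 0 (n 0 z (n 0 z (n 0 z (n 0 z (n 0 z (n 0 z z)))))) (n 0 (n 0 z (n 0 z
 (n 0 z (n 0 z (n 0 z (n 0 z z)))))) (n 0 (n 0 z (n 0 z (n 0 z (n 0 z (n 0 z (n 0 z z)))))) (n 0
 (n 0 z (n 0 z (n 0 z (n 0 z (n 0 z (n 0 z z)))))) (n 0 (n 0 z (n 0 z (n 0 z (n 0 (n
 0x1875875201810a90a84077e282082082081f8207de86082185f82082082182081f81f82082082082082082081f8208201001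
 z (n 8730395 z z)) (n 0 z (n 0 z z)))))) (n 0 (n 0 (n 8853067 z (n 8853067 z z)) (n 0 (n
 0x10eb0a48077e182082081f82082081e85f86085f8607e07e182082081f85f8208208208208208608208200801 z
 (n 0x30a50a28037a67e27a081f76082275989d8a191d8e18608238208a085e82081e7e089f7e28207e18617e20801
 z z)) (n 0 z (n 0 z (n 0 z (n 0 z z)))))) z))))))))) (n 57 (n 0 (n 0 z (n 0 z (n 0 z (n 0 z (n
 0 z (n 0 z z)))))) (n 0 (n 0 z (n 0 z (n 0 z (n 0 z (n 0 z (n 0 z z)))))) (n 0 (n 0 z (n 0 z (n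
 0 z (n 0 z (n 0 z (n 0 z z)))))) (n 0 (n 0 z (n 0 z (n 0 z (n 0 z (n 0 z (n 0 z z)))))) (n 0 (n
 0 z (n 0 z (n 0 z (n 0 z (n 0 (n 8790275 z z) (n 0 (n 8790275 z z) z)))))) (n 0 (n 0 z (n 0 z
 (n 0 z (n 0 (n
 0xd0eb0ea00381a06b978a878195736a6e9e6f5b895977848155999896648d9c74918b7a919287806c747f7392835d7b83999074977f6a880809
 z z) (n 0 (n
 0x90e8138747df8628607e07e185f81f8208208608207e17e281f82081f7e08608207e17e18208608218200081 z (n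
 7676035 z z)) (n 0 (n
 0x876876403810c8ea84038608208208208208208208608208208208208218208208608208208208208208208208208201001
 z (n 7676035 z z)) z)))))) (n 0 (n 0 z (n 0 z (n 0 z (n 0 z (n 0 z (n 0 z z)))))) (n 0 (n 0 z
 (n 0 z (n 0 z (n 0 z (n 0 z (n 0 z z)))))) (n 0 (n 0 z (n 0 z (n 0 z (n 0 z (n 0 z (n 0 z
 z)))))) z))))))))) (n 171 (n 0 (n 0 z (n 0 z (n 0 z (n 0 z (n 0 z (n 0 z z)))))) (n 0 (n 0 z (n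
 0 z (n 0 z (n 0 z (n 0 (n
 0xa0c9901c060c193a8200c085485410182ea90860078e16a472682a5618ac651592c5b814b6381d8ed86f55ab6591581ba5e820565625a9989779f2001
 z z) (n 0 (n 7669819 z z) z)))))) (n 0 (n 0 z (n 0 z (n 0 z (n 0 z (n 0 z (n 0 z z)))))) (n 0
 (n 0 z (n 0 z (n 0 z (n 0 z (n 0 z (n 0 z z)))))) (n 0 (n 0 z (n 0 z (n 0 z (n 0 z (n 0 z (n 0
 z z)))))) (n 0 (n 0 z (n 0 z (n 0 z (n 0 z (n 0 z (n 0 z z)))))) (n 0 (n 0 z (n 0 z (n 0 z (n 0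
 z (n 0 (n
 0x1b87485c7e57a969f75b9227dc91c79ead78e59a67de7da8667617de92265c6e5a5b9659a47df75e0041 z z) (n
 0 (n 8853067 z z) z)))))) (n 0 (n 0 z (n 0 z (n 0 z (n 0 z (n 0 (n 8790275 z z) (n 0 (n 8790275
 z z) z)))))) (n 0 (n 0 z (n 0 z (n 0 z (n 0 z (n 0 (n
 0x1ae1c1850e0d18707e17a26a76df8248a185a9d8a1daa48ea9a59214d75e97d969baa4719524bd795fa617de99900c1
 z (n 7669835 z z)) (n 0 (n
 0x1ae1d1850e8d18747e17a26a76df8248a185a9d8a1daa48ea9a59214d75e97d969baa4719524bd795fa617de99900c1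
 z (n
 0x8ecb06480765e6de55b24f7f2a5f8d6ba69a6ee665d77056170d826509aa0bdf4ec81bced8d95b262475f0801 z
 z)) z)))))) z))))))))) (n 519 (n 0 (n 0 z (n 0 z (n 0 z (n 0 z (n 0 z (n 0 z z)))))) (n 0 (n 0
 z (n 0 z (n 0 z (n 0 z (n 0 z (n 0 z z)))))) (n 0 (n 0 z (n 0 z (n 0 z (n 0 z (n 0 (n
 0x1765843203830e70e420391a7e67a16647a08247df7de7e391f82281d8238a08208627e076079e81f6df86285f8617611001
 z z) (n 0 (n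
 0x187472130183086ea24078208218208608208207de85f8208608207e082181f82085f8608208608208208208208208201001
 z z) z)))))) (n 0 (n 0 z (n 0 z (n 0 z (n 0 z (n 0 z (n 0 z z)))))) (n 0 (n 0 z (n 0 z (n 0 z
 (n 0 z (n 0 z (n 0 z z)))))) (n 0 (n 0 z (n 0 z (n 0 z (n 0 z (n 0 (n
 0x2ecb08640381f82082081f8208208208208208208208208208208208208208208208208208208608208200801 z
 (n 7680387 z z)) (n 0 (n
 0x1865865203830e70e62037e086182081f82181f81f8207e18608208207e18208607df7df8608218218208208608208601001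
 z (n 7680387 z z)) z)))))) (n 0 (n 0 z (n 0 z (n 0 z (n 0 z (n 0 z (n 0 z z)))))) (n 0 (n 0 z
 (n 0 z (n 0 z (n 0 (n 8798227 z z) (n 0 z (n 0 z z)))))) z)))))))) (n 495 (n 0 (n 0 z (n 0 z (n
 0 z (n 0 z (n 0 z (n 0 z z)))))) (n 0 (n 0 z (n 0 z (n 0 z (n 0 z (n 0 z (n 0 z z)))))) (n 0 (n
 0 z (n 0 z (n 0 z (n 0 z (n 0 (n 8872715 z z) (n 0 (n 7669819 z z) z)))))) (n 0 (n 0 z (n 0 z
 (n 0 z (n 0 z (n 0 (n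
 0x638726d395c92589d827b569616a689a86391e7a269c9d7760759820ae49a17e4b9e85e5e459c81b0041 z (n
 0x7b8727908a36ad4db5e5c5e81892389ac598a0a2b71f95572a59585ba245606a9d9f9a772e72075a0041 z z)) (n
 0 (n 0x8b86079085f82a3599ddc5d8a1aa5615ee07de92c81a8138eb69a8248a75d74a6cd3a2caa66e071b0041 z
 (n 0x8b86079085f82a3599ddc5d8a1aa5615ee07de92c81a8138eb69a8248a75d74a6cd3a2caa66e071b0041 z z))
 z)))))) (n 0 (n 0 z (n 0 z (n 0 (n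
 0x3387585b7e776d61f6d99a379a9db75dc52968a6979d7d68aa6e27dc9e451b628b979e8a6779e71d0041 z z) (n
 0 z (n 0 (n 6424699 z (n 6424699 z z)) (n 0 (n
 0x7b8727908a36ad4db5e5c5e81892389ac598a0a2b71f95572a59585ba245606a9d9f9a772e72075a0041 z (n
 0x1c38308d826cbd488d1d546d99839b7750d579709bd96e63acada1686d6b1891a8593b9899a06640778b7be6ab9a6143d4649a72800049
 z z)) z)))))) (n 0 (n 0 z (n 0 z (n 0 z (n 0 z (n 0 z (n 0 z z)))))) (n 0 (n 0 z (n 0 z (n 0 z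
 (n 0 z (n 0 z (n 0 z z)))))) (n 0 (n 0 z (n 0 z (n 0 z (n 0 z (n 0 (n 8790275 z z) (n 0 (n
 8790275 z z) z)))))) (n 0 (n 0 z (n 0 z (n 0 z (n 0 z (n 0 (n
 0x4387271891e8a485e825a598e076489c8628df7a171e95a7e075b7e09e39217e3a5f81f6a265e81c0041 z (n
 0x8b86079085f82a3599ddc5d8a1aa5615ee07de92c81a8138eb69a8248a75d74a6cd3a2caa66e071b0041 z z)) (n
 0 (n 0x8b86079085f82a3599ddc5d8a1aa5615ee07de92c81a8138eb69a8248a75d74a6cd3a2caa66e071b0041 z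
 (n 0x8b86079085f82a3599ddc5d8a1aa5615ee07de92c81a8138eb69a8248a75d74a6cd3a2caa66e071b0041 z z))
 z)))))) (n 0 (n 0 z (n 0 z (n 0 z (n 0 z (n 0 z (n 0 z z)))))) (n 0 (n 0 z (n 0 z (n 0 z (n 0 z
 (n 0 z (n 0 z z)))))) (n 0 (n 0 z (n 0 z (n 0 z (n 0 z (n 0 (n
 0x3387285b7e776d61f6d99a379a9db75dc52968a6979d7d68aa6e27dc9e451b628b979e8a6779e71d0041 z (n
 0x16b8308a8171b1538b315c719482957859c47a7296c77269a3a49a6d71702c8ea061499394996c4d79887cd1a394674fc3699575800049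
 z z)) (n 0 (n
 0xb3830858078996986576e788a828a7d6da37d7a8ba4797592928e75787755879070648a8a8e75667d847eaa918a7468a3758b7a800049
 z (n
 0xe38308780769f63874d69768d828e7b67ab7c788ead77719697917476764b88946c5c8c8d90735f7b867db5968d7061ab728d78800049
 z z)) z)))))) (n 0 (n 0 z (n 0 z (n 0 z (n 0 z (n 0 z (n 0 z z)))))) (n 0 (n 0 z (n 0 z (n 0 z
 (n 0 z (n 0 (n
 0x638726d395c92589d827b569616a689a86391e7a269c9d7760759820ae49a17e4b9e85e5e459c81b0041 z (n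
 0x87387320182ecb0864037e08208207df8218208207df82185f86081f82182082081f81f8208208208208208208208201001
 z z)) (n 0 (n
 0x218a1814060c3a3b1181c0765843201810a70a40077e07e082181f7e186081f82081e8218207e181e8608a18628217e081f8207e07e17df8217e02001
 z (n
 0xc3ac19301c086586520182ecb0864078607638207217e17e286081f8228a08208207e281f7e085f8618608207e07e17e08208208201801
 z z)) z)))))) (n 0 (n 0 z (n 0 z (n 0 z (n 0 z (n 0 z (n 0 z z)))))) (n 0 (n 0 z (n 0 z (n 0 z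
 (n 0 z (n 0 z (n 0 z z)))))) z)))))))))))))))) (n 483 (n 0 (n 0 z (n 0 z (n 0 z (n 0 z (n 0 z
 (n 0 z z)))))) (n 0 (n 0 z (n 0 (n 8867891 z z) (n 0 (n
 0x7b8317908a36ad4db5e5c5e81892389ac598a0a2b71f95572a59585ba245606a9d9f9a772e72075a0041 z z) (n
 0 z (n 0 z (n 0 z z)))))) (n 0 (n 0 z (n 0 z (n 0 z (n 0 z (n 0 z (n 0 z z)))))) (n 0 (n 0 z (n
 0 z (n 0 z (n 0 z (n 0 z (n 0 z z)))))) (n 0 (n 0 z (n 0 z (n 0 z (n 0 z (n 0 z (n 0 z z))))))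
 (n 0 (n 0 z (n 0 z (n 0 z (n 0 z (n 0 (n
 0x7b8307908a36ad4db5e5c5e81892389ac598a0a2b71f95572a59585ba245606a9d9f9a772e72075a0041 z (n
 0x7b8307908a36ad4db5e5c5e81892389ac598a0a2b71f95572a59585ba245606a9d9f9a772e72075a0041 z z)) (n
 0 (n 0x638736d395c92589d827b569616a689a86391e7a269c9d7760759820ae49a17e4b9e85e5e459c81b0041 z
 (n 0x7b8307908a36ad4db5e5c5e81892389ac598a0a2b71f95572a59585ba245606a9d9f9a772e72075a0041 z z))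
 z)))))) (n 0 (n 0 z (n 0 z (n 0 z (n 0 z (n 0 (n 8790275 z z) (n 0 (n 8790275 z z) z)))))) (n 0
 (n 0 z (n 0 z (n 0 z (n 0 z (n 0 z (n 0 z z)))))) (n 0 (n 0 z (n 0 z (n 0 z (n 0 z (n 0 (n
 0x8b86079085f82a3599ddc5d8a1aa5615ee07de92c81a8138eb69a8248a75d74a6cd3a2caa66e071b0041 z (n
 0x8b86079085f82a3599ddc5d8a1aa5615ee07de92c81a8138eb69a8248a75d74a6cd3a2caa66e071b0041 z z)) (n
 0 (n 0x8b86079085f82a3599ddc5d8a1aa5615ee07de92c81a8138eb69a8248a75d74a6cd3a2caa66e071b0041 z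
 (n 0x8b86079085f82a3599ddc5d8a1aa5615ee07de92c81a8138eb69a8248a75d74a6cd3a2caa66e071b0041 z z))
 z)))))) (n 0 (n 0 z (n 0 z (n 0 z (n 0 z (n 0 (n
 0x8b86079085f82a3599ddc5d8a1aa5615ee07de92c81a8138eb69a8248a75d74a6cd3a2caa66e071b0041 z (n
 0x8b86079085f82a3599ddc5d8a1aa5615ee07de92c81a8138eb69a8248a75d74a6cd3a2caa66e071b0041 z z)) (n
 0 (n 0x8b86079085f82a3599ddc5d8a1aa5615ee07de92c81a8138eb69a8248a75d74a6cd3a2caa66e071b0041 z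
 (n 0x8b86079085f82a3599ddc5d8a1aa5615ee07de92c81a8138eb69a8248a75d74a6cd3a2caa66e071b0041 z z))
 z)))))) (n 0 (n 0 z (n 0 z (n 0 z (n 0 z (n 0 (n 8798227 z (n 8798227 z z)) (n 0 (n 8798227 z
 (n 8798227 z z)) z)))))) (n 0 (n 0 z (n 0 z (n 0 z (n 0 z (n 0 (n 8790275 z (n 8790275 z z)) (n
 0 (n 8790275 z (n 8790275 z z)) z)))))) z)))))))))))) (n 13 (n 0 (n 0 z (n 0 z (n 0 z (n 0 z (n
 0 (n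
 0x7086ea24076de71f5db3537ef9df8d8ae5965da469d76d5e17517e558ea20b1f5aa81cbeb89a66e66479f0801 z
 z) (n 0 (n 7669819 z z) z)))))) (n 0 (n 0 z (n 0 z (n 0 z (n 0 z (n 0 z (n 0 z z)))))) (n 0 (n
 0 (n 0x3387685b7e776d61f6d99a379a9db75dc52968a6979d7d68aa6e27dc9e451b628b979e8a6779e71d0041 z
 z) (n 0 z (n 0 z (n 0 z (n 0 z (n 0 z z)))))) (n 0 (n 0 z (n 0 z (n 0 z (n 0 z (n 0 z (n 0 z
 z)))))) (n 0 (n 0 z (n 0 z (n 0 z (n 0 z (n 0 (n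
 0x638726d395c92589d827b569616a689a86391e7a269c9d7760759820ae49a17e4b9e85e5e459c81b0041 z (n
 0x8b86079085f82a3599ddc5d8a1aa5615ee07de92c81a8138eb69a8248a75d74a6cd3a2caa66e071b0041 z z)) (n
 0 (n 0x8b86079085f82a3599ddc5d8a1aa5615ee07de92c81a8138eb69a8248a75d74a6cd3a2caa66e071b0041 z
 (n 0x8b86079085f82a3599ddc5d8a1aa5615ee07de92c81a8138eb69a8248a75d74a6cd3a2caa66e071b0041 z z))
 z)))))) (n 0 (n 0 z (n 0 z (n 0 z (n 0 z (n 0 z (n 0 z z)))))) (n 0 (n 0 z (n 0 z (n 0 z (n 0 z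
 (n 0 (n 8798227 z (n 8798227 z z)) (n 0 (n 8798227 z (n 8798227 z z)) z)))))) z))))))) (n 237
 (n 0 (n 0 z (n 0 z (n 0 z (n 0 z (n 0 z (n 0 z z)))))) (n 0 (n 0 z (n 0 z (n 0 z (n 0 (n
 8589411 z z) (n 0 z (n 0 z z)))))) (n 0 (n 0 z (n 0 z (n 0 z (n 0 z (n 0 z (n 0 z z)))))) (n 0
 (n 0 (n 8589411 z z) (n 0 z (n 0 z (n 0 (n 8589411 z z) (n 0 (n 8589411 z (n 8589411 z z)) (n 0
 (n 8589411 z (n 8589411 z z)) z)))))) (n 0 (n 0 z (n 0 (n 8718139 z (n 8728691 z z)) (n 0 z (n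
 0 z (n 0 z (n 0 z z)))))) (n 0 (n 0 z (n 0 z (n 0 z (n 0 z (n 0 z (n 0 z z)))))) (n 0 (n 0 z (n
 0 z (n 0 z (n 0 z (n 0 z (n 0 z z)))))) (n 0 (n 0 z (n 0 z (n 0 z (n 0 z (n 0 z (n 0 z z))))))
 (n 0 (n 0 z (n 0 z (n 0 z (n 0 z (n 0 z (n 0 z z)))))) (n 0 (n 0 (n 8872731 z z) (n 0 z (n 0 z
 (n 0 z (n 0 (n
 0x538217d58627295dc6a3adf81a8a285cadc86096776091976765985d9a365f726ba092376976079d0041 z (n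
 0x7b8217908a36ad4db5e5c5e81892389ac598a0a2b71f95572a59585ba245606a9d9f9a772e72075a0041 z z)) (n
 0 (n 8853067 z (n 8853067 z z)) z)))))) (n 0 (n 0 z (n 0 z (n 0 z (n 0 z (n 0 (n
 0x548747e47ed6db4226a176180e89c9568e676175d9eb5e052699771e5e28998248b6961b598ee8dd0041 z (n
 0x1874874203830e70e64039a172a82392c56083251554aba674ebea8d481f8a794eaee7dd8d5a25ada2e36608da95b6251001
 z z)) (n 0 (n
 0x90e4138727df8628607e07e185f81f8208208608207e17e281f82081f7e08608207e17e18208608218200081 z (n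
 0x30e70e480381f8208208208208208208208208208208208208208208208208208208208208208208208200801 z
 z)) z)))))) (n 0 (n 0 z (n 0 (n
 0x7b8727908a36ad4db5e5c5e81892389ac598a0a2b71f95572a59585ba245606a9d9f9a772e72075a0041 z z) (n
 0 (n 0x7b8727908a36ad4db5e5c5e81892389ac598a0a2b71f95572a59585ba245606a9d9f9a772e72075a0041 z
 z) (n 0 z (n 0 z (n 0 z z)))))) (n 0 (n 0 z (n 0 z (n 0 z (n 0 z (n 0 z (n 0 z z)))))) (n 0 (n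
 0 z (n 0 z (n 0 z (n 0 z (n 0 z (n 0 z z)))))) (n 0 (n 0 z (n 0 z (n 0 z (n 0 z (n 0 (n 8848923
 z (n 8848923 z z)) (n 0 (n
 0x8b87379085f82a3599ddc5d8a1aa5615ee07de92c81a8138eb69a8248a75d74a6cd3a2caa66e071b0041 z (n
 0x43b439a00c1875632401810e8ec860382379f81f7df8a086081e8de8a08dd8607e07e27e07df89d8a08608607e18207df8207e08201801
 z z)) z)))))) (n 0 (n 0 z (n 0 z (n 0 z (n 0 z (n 0 z (n 0 z z)))))) (n 0 (n 0 z (n 0 z (n 0 z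
 (n 0 z (n 0 z (n 0 z z)))))) (n 0 (n 0 z (n 0 z (n 0 z (n 0 z (n 0 z (n 0 z z)))))) (n 0 (n 0 z
 (n 0 z (n 0 z (n 0 z (n 0 (n 8848923 z (n 7745923 z z)) (n 0 (n
 0x30870864037a47a08208208208217dd85e86089e8608208218218208608607e081f8207e08218208617e00801 z
 (n 7745923 z z)) z)))))) (n 0 (n 0 z (n 0 z (n 0 z (n 0 z (n 0 (n 8848923 z (n 8848923 z z)) (n
 0 (n
 0x10870864037e27e082081f82082081f8208208a082082082082082081f8208208208208208208208208200801 z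
 (n
 0x874842303810e6e864077e282085f8208208207df8208218608208208208208208608208207e082085f82081f8208201001
 z z)) z)))))) (n 0 (n 0 z (n 0 (n
 0x1873843203830a8e864079264a885955d7247ef793b0ea32b0a965aa06e9556a4d79cb6298c626c1a46b7648f195d5e11001
 z z) (n 0 (n
 0x864873201810a8e864078627a37a07607a07e379c89d8e28db8608a08657df81e85d8e07dd79f89f7628238638a07df1001
 z z) (n 0 z (n 0 z (n 0 z z)))))) (n 0 (n 0 z (n 0 z (n 0 z (n 0 z (n 0 (n 8848923 z (n 8848923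
 z z)) (n 0 (n
 0x7b8727908a36ad4db5e5c5e81892389ac598a0a2b71f95572a59585ba245606a9d9f9a772e72075a0041 z (n
 0x43a43a180c0874871301810e70e64077e282082081f7e18207df8208218208608208217e082081f86081f8208208208208208208201801
 z z)) z)))))) (n 0 (n 0 z (n 0 z (n 0 z (n 0 z (n 0 (n
 0x121c8170e40287281f8218607df7e082081f82081f82182082082081f82082082182081f8217e082082082182000c1
 z (n 0x8b83279085f82a3599ddc5d8a1aa5615ee07de92c81a8138eb69a8248a75d74a6cd3a2caa66e071b0041 z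
 z)) (n 0 (n 8853067 z (n 8853067 z z)) z)))))) (n 0 (n 0 z (n 0 z (n 0 z (n 0 z (n 0 (n
 0x90e4138727df8628607e07e185f81f8208208608207e17e281f82081f7e08608207e17e18208608218200081 z (n
 0x3387285b7e776d61f6d99a379a9db75dc52968a6979d7d68aa6e27dc9e451b628b979e8a6779e71d0041 z z)) (n
 0 (n 6498427 z (n 6498427 z z)) z)))))) (n 0 (n 0 z (n 0 z (n 0 z (n 0 z (n 0 z (n 0 z z))))))
 (n 0 (n 0 z (n 0 (n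
 0x90e60b87381f8228a07e07e086081f8208208608607e17e181f82081f7e08218207e18208208608218200081 z (n
 0x8b84179085f82a3599ddc5d8a1aa5615ee07de92c81a8138eb69a8248a75d74a6cd3a2caa66e071b0041 z z)) (n
 0 (n 0x8b84179085f82a3599ddc5d8a1aa5615ee07de92c81a8138eb69a8248a75d74a6cd3a2caa66e071b0041 z
 (n 0x8b84179085f82a3599ddc5d8a1aa5615ee07de92c81a8138eb69a8248a75d74a6cd3a2caa66e071b0041 z z))
 (n 0 z (n 0 (n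
 0x90e4138727df8628607e07e185f81f8208208608207e17e281f82081f7e08608207e17e18208608218200081 z (n
 0x3387285b7e776d61f6d99a379a9db75dc52968a6979d7d68aa6e27dc9e451b628b979e8a6779e71d0041 z z)) (n
 0 (n 3283067 z (n 3283067 z z)) z)))))) (n 0 (n 0 (n 8798227 z z) (n 0 z (n 0 z (n 0 (n 8798227
 z z) (n 0 (n 8798227 z (n 8798227 z z)) (n 0 (n 8798227 z (n 8798227 z z)) z)))))) (n 0 (n 0 z
 (n 0 z (n 0 z (n 0 z (n 0 (n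
 0x43a421180c0876873203830e6ec640385f8618208208608208608208208208208208208208208208208208608208208208208208201801
 z (n
 0x872871301810e6ec64038ad76a9219296595e9693852822751ae7a1696f7e88dea2385e61a7dba6042182991caa16611001
 z z)) (n 0 (n 6494331 z (n 6494331 z z)) z)))))) (n 0 (n 0 z (n 0 (n
 0x90e6138737df8628607e07e185f81f8208208608207e17e281f82081f7e08608207e17e18208608218200081 z (n
 8728691 z z)) (n 0 z (n 0 z (n 0 z (n 0 z z)))))) z))))))))))))))))))))))))))))) (n 617 (n 0 (n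
 0 z (n 0 z (n 0 z (n 0 z (n 0 z (n 0 z z)))))) (n 0 (n 0 z (n 0 z (n 0 z (n 0 (n 8790275 z z)
 (n 0 z (n 0 z z)))))) (n 0 (n 0 z (n 0 z (n 0 z (n 0 z (n 0 z (n 0 z z)))))) (n 0 (n 0 (n
 8790275 z z) (n 0 z (n 0 z (n 0 (n 8790275 z z) (n 0 (n 8790275 z (n 8790275 z z)) (n 0 (n
 8790275 z (n 8790275 z z)) z)))))) (n 0 (n 0 z (n 0 (n
 0x90e6138737df8628607e07e185f81f8208208608207e17e281f82081f7e08608207e17e18208608218200081 z (n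
 8728691 z z)) (n 0 z (n 0 z (n 0 z (n 0 z z)))))) (n 0 (n 0 z (n 0 z (n 0 z (n 0 z (n 0 z (n 0
 z z)))))) (n 0 (n 0 z (n 0 z (n 0 z (n 0 z (n 0 z (n 0 z z)))))) (n 0 (n 0 z (n 0 z (n 0 z (n 0
 z (n 0 z (n 0 z z)))))) (n 0 (n 0 z (n 0 z (n 0 z (n 0 z (n 0 z (n 0 z z)))))) (n 0 (n 0 (n
 0x7b8407908a36ad4db5e5c5e81892389ac598a0a2b71f95572a59585ba245606a9d9f9a772e72075a0041 z z) (n
 0 z (n 0 z (n 0 z (n 0 (n 8872715 z (n 8872715 z z)) (n 0 (n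
 0x3387385b7e776d61f6d99a379a9db75dc52968a6979d7d68aa6e27dc9e451b628b979e8a6779e71d0041 z (n
 0x7b8407908a36ad4db5e5c5e81892389ac598a0a2b71f95572a59585ba245606a9d9f9a772e72075a0041 z z))
 z)))))) (n 0 (n 0 z (n 0 z (n 0 z (n 0 z (n 0 (n
 0x90e8138747df8628607e07e185f81f8208208608207e17e281f82081f7e08608207e17e18208608218200081 z (n
 0x30e90e460381f8208208208208208208208208208208208208208208208208208208208208208208208200801 z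
 z)) (n 0 (n
 0x30870864037a47a08208208208217dd85e86089e8608208218218208608607e081f8207e08218208617e00801 z
 (n
 0xc3b438200c0873870401810e4e8060786d6659e19e77186aa7138918e274fb279979297268999e689e6da85d9e045f7a599a99e6e11801
 z z)) z)))))) (n 0 (n 0 z (n 0 (n 8848939 z z) (n 0 (n 8848939 z z) (n 0 z (n 0 z (n 0 z
 z)))))) (n 0 (n 0 z (n 0 z (n 0 z (n 0 z (n 0 z (n 0 z z)))))) (n 0 (n 0 z (n 0 z (n 0 z (n 0 z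
 (n 0 z (n 0 z z)))))) (n 0 (n 0 z (n 0 z (n 0 z (n 0 z (n 0 (n 8721931 z (n 8721931 z z)) (n 0
 (n 8721931 z (n 8721931 z z)) z)))))) (n 0 (n 0 z (n 0 z (n 0 z (n 0 z (n 0 z (n 0 z z)))))) (n
 0 (n 0 z (n 0 z (n 0 z (n 0 z (n 0 z (n 0 z z)))))) (n 0 (n 0 z (n 0 z (n 0 z (n 0 z (n 0 z (n
 0 z z)))))) (n 0 (n 0 z (n 0 z (n 0 z (n 0 z (n 0 (n 8721931 z (n 7741571 z z)) (n 0 (n 8721931
 z (n 7741571 z z)) z)))))) (n 0 (n 0 z (n 0 z (n 0 z (n 0 z (n 0 (n 8721931 z (n 8721931 z z))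
 (n 0 (n 8721931 z (n 8721931 z z)) z)))))) (n 0 (n 0 z (n 0 (n 8867891 z z) (n 0 (n 8721931 z
 z) (n 0 z (n 0 z (n 0 z z)))))) (n 0 (n 0 z (n 0 z (n 0 z (n 0 z (n 0 (n 8721931 z (n 8721931 z
 z)) (n 0 (n 8721931 z (n 8721931 z z)) z)))))) (n 0 (n 0 z (n 0 z (n 0 z (n 0 z (n 0 (n 8872715
 z (n 8872715 z z)) (n 0 (n
 0x90e4138727df8628607e07e185f81f8208208608207e17e281f82081f7e08608207e17e18208608218200081 z (n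
 0x8b84279085f82a3599ddc5d8a1aa5615ee07de92c81a8138eb69a8248a75d74a6cd3a2caa66e071b0041 z z))
 z)))))) (n 0 (n 0 z (n 0 z (n 0 z (n 0 z (n 0 (n 4327547 z (n 4327547 z z)) (n 0 (n
 0x90e4138727df8628607e07e185f81f8208208608207e17e281f82081f7e08608207e17e18208608218200081 z (n
 7747627 z z)) z)))))) (n 0 (n 0 z (n 0 z (n 0 z (n 0 z (n 0 z (n 0 z z)))))) (n 0 (n 0 z (n 0
 (n 0x90e6138737df8628607e07e185f81f8208208608207e17e281f82081f7e08608207e17e18208608218200081 z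
 (n 0x8b86379085f82a3599ddc5d8a1aa5615ee07de92c81a8138eb69a8248a75d74a6cd3a2caa66e071b0041 z z))
 (n 0 (n 0x7b8727908a36ad4db5e5c5e81892389ac598a0a2b71f95572a59585ba245606a9d9f9a772e72075a0041
 z (n 0x8b86379085f82a3599ddc5d8a1aa5615ee07de92c81a8138eb69a8248a75d74a6cd3a2caa66e071b0041 z
 z)) (n 0 z (n 0 (n 4327547 z (n 4327547 z z)) (n 0 (n
 0x90e4138727df8628607e07e185f81f8208208608207e17e281f82081f7e08608207e17e18208608218200081 z (n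
 0x3387285b7e776d61f6d99a379a9db75dc52968a6979d7d68aa6e27dc9e451b628b979e8a6779e71d0041 z z))
 z)))))) (n 0 (n 0 (n 8589411 z z) (n 0 z (n 0 z (n 0 (n 8589411 z z) (n 0 (n 8589411 z (n
 8589411 z z)) (n 0 (n 8589411 z (n 8589411 z z)) z)))))) (n 0 (n 0 z (n 0 z (n 0 z (n 0 z (n 0
 (n 6424699 z (n 6424699 z z)) (n 0 (n
 0x90e4138727df8628607e07e185f81f8208208608207e17e281f82081f7e08608207e17e18208608218200081 z (n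
 0x30650e080782082082081f82082081f8208208208208208208208208208208208208208208208208208200801 z
 z)) z)))))) (n 0 (n 0 z (n 0 (n 8718139 z (n 8728691 z z)) (n 0 z (n 0 z (n 0 z (n 0 z z))))))
 z))))))))))))))))))))))))))))) (n 603 (n 0 (n 0 z (n 0 (n 8718139 z z) (n 0 z (n 0 z (n 0 (n
 0x548617e47ed6db4226a176180e89c9568e676175d9eb5e052699771e5e28998248b6961b598ee8dd0041 z (n
 0x90e8138747df8628607e07e185f81f8208208608207e17e281f82081f7e08608207e17e18208608218200081 z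
 z)) (n 0 (n 6490235 z (n 6490235 z z)) z)))))) (n 0 (n 0 z (n 0 z (n 0 z (n 0 z (n 0 z (n 0 z
 z)))))) (n 0 (n 0 z (n 0 (n 8718139 z z) (n 0 (n 8718139 z z) (n 0 z (n 0 z (n 0 z z)))))) (n 0
 (n 0 z (n 0 z (n 0 z (n 0 z (n 0 z (n 0 z z)))))) (n 0 (n 0 (n
 0x7b8407908a36ad4db5e5c5e81892389ac598a0a2b71f95572a59585ba245606a9d9f9a772e72075a0041 z (n
 8730395 z z)) (n 0 (n 8872715 z (n 8872715 z z)) (n 0 (n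
 0x7b8407908a36ad4db5e5c5e81892389ac598a0a2b71f95572a59585ba245606a9d9f9a772e72075a0041 z (n
 8718139 z z)) (n 0 (n
 0x638736d395c92589d827b569616a689a86391e7a269c9d7760759820ae49a17e4b9e85e5e459c81b0041 z (n
 0x7b8407908a36ad4db5e5c5e81892389ac598a0a2b71f95572a59585ba245606a9d9f9a772e72075a0041 z z)) (n
 0 z (n 0 z z)))))) (n 0 (n 0 z (n 0 (n 8872715 z (n 8872715 z z)) (n 0 (n
 0x3387085b7e776d61f6d99a379a9db75dc52968a6979d7d68aa6e27dc9e451b628b979e8a6779e71d0041 z (n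
 0x7b8407908a36ad4db5e5c5e81892389ac598a0a2b71f95572a59585ba245606a9d9f9a772e72075a0041 z z)) (n
 0 z (n 0 (n 8872715 z (n 8872715 z z)) (n 0 (n 6494331 z (n 6494331 z z)) z)))))) (n 0 (n 0 z
 (n 0 z (n 0 z (n 0 z (n 0 z (n 0 z z)))))) (n 0 (n 0 z (n 0 z (n 0 z (n 0 z (n 0 (n
 0x7b8307908a36ad4db5e5c5e81892389ac598a0a2b71f95572a59585ba245606a9d9f9a772e72075a0041 z (n
 0x7b8307908a36ad4db5e5c5e81892389ac598a0a2b71f95572a59585ba245606a9d9f9a772e72075a0041 z z)) (n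
 0 (n 0x7b8307908a36ad4db5e5c5e81892389ac598a0a2b71f95572a59585ba245606a9d9f9a772e72075a0041 z
 (n 0x7b8307908a36ad4db5e5c5e81892389ac598a0a2b71f95572a59585ba245606a9d9f9a772e72075a0041 z z))
 z)))))) (n 0 (n 0 z (n 0 z (n 0 z (n 0 z (n 0 z (n 0 z z)))))) (n 0 (n 0 z (n 0 z (n 0 z (n 0 z
 (n 0 z (n 0 z z)))))) (n 0 (n 0 z (n 0 z (n 0 z (n 0 z (n 0 (n 8721931 z (n 8721931 z z)) (n 0
 (n 8721931 z (n 8721931 z z)) z)))))) (n 0 (n 0 z (n 0 z (n 0 z (n 0 z (n 0 z (n 0 z z)))))) (n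
 0 (n 0 z (n 0 z (n 0 z (n 0 z (n 0 z (n 0 z z)))))) (n 0 (n 0 z (n 0 z (n 0 z (n 0 z (n 0 (n
 8848923 z (n 8848923 z z)) (n 0 (n
 0x1874740303810e70e600785f8617e082082082081f8208208208208208208208608208208208208208208208208208201001
 z (n
 0x43a43a180c0874871301810e70e60077a082082081f7e182081f81f82086186081f8208208608208208208208208208208208208211801
 z z)) z)))))) (n 0 (n 0 z (n 0 z (n 0 z (n 0 z (n 0 z (n 0 z z)))))) (n 0 (n 0 z (n 0 z (n 0 z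
 (n 0 z (n 0 z (n 0 z z)))))) (n 0 (n 0 z (n 0 (n 8718139 z z) (n 0 z (n 0 z (n 0 z (n 0 z
 z)))))) (n 0 (n 0 z (n 0 z (n 0 z (n 0 z (n 0 z (n 0 z z)))))) (n 0 (n 0 z (n 0 z (n 0 z (n 0 z
 (n 0 (n 8872715 z (n 8872715 z z)) (n 0 (n
 0x8b87079085f82a3599ddc5d8a1aa5615ee07de92c81a8138eb69a8248a75d74a6cd3a2caa66e071b0041 z (n
 0x874874301810e90e60077e282082085f8208207df8608608608607e082182082081f8208208208208208208208208201001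
 z z)) z)))))) (n 0 (n 0 z (n 0 z (n 0 z (n 0 z (n 0 (n 8872715 z z) (n 0 (n
 0x1874874301830e90e800782081f82082086082082082082082082081f82182086081f82082082082082082081f8208201001
 z z) z)))))) (n 0 (n 0 z (n 0 z (n 0 z (n 0 z (n 0 z (n 0 z z)))))) (n 0 (n 0 z (n 0 z (n 0 z
 (n 0 z (n 0 z (n 0 z z)))))) (n 0 (n 0 z (n 0 z (n 0 z (n 0 z (n 0 z (n 0 z z)))))) (n 0 (n 0 z
 (n 0 z (n 0 z (n 0 z (n 0 (n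
 0x190870e2007878b7a91887b8a986f81788e766876668e7b67718f977d6f868f838c7f73949479747a788d818b7d5e8c768086658d8373870809
 z z) (n 0 (n 8872203 z z) z)))))) (n 0 (n 0 z (n 0 z (n 0 z (n 0 z (n 0 (n
 0x548747e47ed6db4226a176180e89c9568e676175d9eb5e052699771e5e28998248b6961b598ee8dd0041 z (n
 0x8b86179085f82a3599ddc5d8a1aa5615ee07de92c81a8138eb69a8248a75d74a6cd3a2caa66e071b0041 z z)) (n
 0 (n 0x638736d395c92589d827b569616a689a86391e7a269c9d7760759820ae49a17e4b9e85e5e459c81b0041 z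
 (n 0x8b86179085f82a3599ddc5d8a1aa5615ee07de92c81a8138eb69a8248a75d74a6cd3a2caa66e071b0041 z z))
 z)))))) (n 0 (n 0 z (n 0 (n 8728691 z (n 8718139 z z)) (n 0 z (n 0 z (n 0 z (n 0 z z)))))) (n 0
 (n 0 z (n 0 z (n 0 z (n 0 z (n 0 z (n 0 z z)))))) (n 0 (n 0 z (n 0 (n 8728691 z (n 8718139 z
 z)) (n 0 (n
 0x90e0138707df8628607e07e185f81f8208208608207e17e281f82081f7e08608207e17e18208608218200081 z (n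
 0x1b87085c7e57a86a075c9227dd91d79ead88e69a57de79a8a67617dd92361c6e6a5b9659a47df79e0041 z z)) (n
 0 z (n 0 z (n 0 z z)))))) (n 0 (n 0 z (n 0 z (n 0 z (n 0 z (n 0 z (n 0 z z)))))) (n 0 (n 0 z (n
 0 z (n 0 z (n 0 z (n 0 (n
 0x3383085b7e776d61f6d99a379a9db75dc52968a6979d7d68aa6e27dc9e451b628b979e8a6779e71d0041 z (n
 0x2383085b7e676a65f71b9627db99c75eb959269e779d7d88687217de9a459c6a7adb9a79e67de75e0041 z z)) (n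
 0 (n 0x3383085b7e776d61f6d99a379a9db75dc52968a6979d7d68aa6e27dc9e451b628b979e8a6779e71d0041 z
 (n 0x3383085b7e776d61f6d99a379a9db75dc52968a6979d7d68aa6e27dc9e451b628b979e8a6779e71d0041 z z))
 z)))))) (n 0 (n 0 z (n 0 z (n 0 z (n 0 z (n 0 z (n 0 z z)))))) (n 0 (n 0 z (n 0 z (n 0 z (n 0 z
 (n 0 (n 4261979 z (n 4261979 z z)) (n 0 (n 4261979 z (n 4261979 z z)) z)))))) (n 0 (n 0 z (n 0
 z (n 0 z (n 0 z (n 0 (n 8872715 z (n 8872715 z z)) (n 0 (n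
 0x7b8407908a36ad4db5e5c5e81892389ac598a0a2b71f95572a59585ba245606a9d9f9a772e72075a0041 z (n
 0x7b8407908a36ad4db5e5c5e81892389ac598a0a2b71f95572a59585ba245606a9d9f9a772e72075a0041 z z))
 z)))))) (n 0 (n 0 z (n 0 (n 8867891 z z) (n 0 (n 8721931 z z) (n 0 z (n 0 z (n 0 z z)))))) (n 0
 (n 0 z (n 0 (n 8867891 z (n 8867891 z z)) (n 0 z (n 0 z (n 0 z (n 0 z z)))))) (n 0 (n 0 z (n 0
 (n 8867891 z (n 8867891 z z)) (n 0 z (n 0 z (n 0 z (n 0 z z)))))) (n 0 (n 0 (n 8790275 z z) (n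
 0 z (n 0 z (n 0 (n 8790275 z z) (n 0 (n 8790275 z (n 8790275 z z)) (n 0 (n 8790275 z (n 8790275
 z z)) z)))))) (n 0 (n 0 z (n 0 z (n 0 z (n 0 z (n 0 z (n 0 z z)))))) (n 0 (n 0 z (n 0 z (n 0 z
 (n 0 z (n 0 z (n 0 z z)))))) (n 0 (n 0 z (n 0 z (n 0 z (n 0 z (n 0 z (n 0 z z)))))) (n 0 (n 0 z
 (n 0 z (n 0 z (n 0 z (n 0 z (n 0 z z)))))) (n 0 (n 0 z (n 0 z (n 0 z (n 0 z (n 0 z (n 0 z
 z)))))) (n 0 (n 0 z (n 0 z (n 0 z (n 0 z (n 0 (n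
 0x90e8138747df8628607e07e185f81f8208208608207e17e281f82081f7e08608207e17e18208608218200081 z (n
 0x3387485b7e776d61f6d99a379a9db75dc52968a6979d7d68aa6e27dc9e451b628b979e8a6779e71d0041 z z)) (n
 0 (n 0x638416d395c92589d827b569616a689a86391e7a269c9d7760759820ae49a17e4b9e85e5e459c81b0041 z
 (n 0x4384171891e8e385e825a598e076485c8628df7e271d91a7e079b8209e29217e3a5f85f6a265e81c0041 z z))
 z)))))) (n 0 (n 0 z (n 0 z (n 0 z (n 0 z (n 0 (n 6559835 z (n 6559835 z z)) (n 0 (n 6559835 z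
 (n 6559835 z z)) z)))))) (n 0 (n 0 z (n 0 z (n 0 z (n 0 z (n 0 (n 8848923 z (n 7745923 z z)) (n
 0 (n
 0x1ae04185020d18107e17a26a76df8248a185a9d8a1daa48ea9a59214d75e97d969baa4719524bd795fa617de99900c1
 z (n 7745923 z z)) z)))))) (n 0 (n 0 z (n 0 z (n 0 z (n 0 z (n 0 (n 8848923 z (n 8848923 z z))
 (n 0 (n 4261979 z (n 4261979 z z)) z)))))) (n 0 (n 0 z (n 0 z (n 0 z (n 0 z (n 0 z (n 0 z
 z)))))) (n 0 (n 0 z (n 0 (n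
 0x90e6138737df8628607e07e185f81f8208208608207e17e281f82081f7e08608207e17e18208608218200081 z (n
 0x2383085b7e676b66071b9627db95c79db958e79e879e7d88687217dd9a459c667ad99a6a2679f75d0041 z z)) (n
 0 (n 0x3383085b7e776d61f6d99a379a9db75dc52968a6979d7d68aa6e27dc9e451b628b979e8a6779e71d0041 z
 (n 0x3383085b7e776d61f6d99a379a9db75dc52968a6979d7d68aa6e27dc9e451b628b979e8a6779e71d0041 z z))
 (n 0 z (n 0 (n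
 0x90e8138747df8628607e07e185f81f8208208608207e17e281f82081f7e08608207e17e18208608218200081 z (n
 0x3383085b7e776d61f6d99a379a9db75dc52968a6979d7d68aa6e27dc9e451b628b979e8a6779e71d0041 z z)) (n
 0 (n 6494331 z (n 6494331 z z)) z)))))) (n 0 (n 0 z (n 0 z (n 0 z (n 0 z (n 0 z (n 0 z z))))))
 z))))))))))))))))))))))))))))))))))))))))))))))))) (n 220 (n 0 (n 0 z (n 0 (n 6559835 z z) (n 0
 z (n 0 z (n 0 (n 6559835 z (n 6559835 z z)) (n 0 (n 6559835 z (n 6559835 z z)) z)))))) (n 0 (n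
 0 z (n 0 z (n 0 z (n 0 z (n 0 z (n 0 z z)))))) (n 0 (n 0 z (n 0 (n
 0x7b8727908a36ad4db5e5c5e81892389ac598a0a2b71f95572a59585ba245606a9d9f9a772e72075a0041 z z) (n
 0 (n 0x7b8727908a36ad4db5e5c5e81892389ac598a0a2b71f95572a59585ba245606a9d9f9a772e72075a0041 z
 z) (n 0 z (n 0 z (n 0 z z)))))) (n 0 (n 0 z (n 0 z (n 0 z (n 0 z (n 0 z (n 0 z z)))))) (n 0 (n
 0 (n 8853067 z (n 8730395 z z)) (n 0 (n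
 0x7b8627908a36ad4db5e5c5e81892389ac598a0a2b71f95572a59585ba245606a9d9f9a772e72075a0041 z (n
 0x7b8627908a36ad4db5e5c5e81892389ac598a0a2b71f95572a59585ba245606a9d9f9a772e72075a0041 z z)) (n
 0 (n 0x7b8627908a36ad4db5e5c5e81892389ac598a0a2b71f95572a59585ba245606a9d9f9a772e72075a0041 z
 (n 0x7b8627908a36ad4db5e5c5e81892389ac598a0a2b71f95572a59585ba245606a9d9f9a772e72075a0041 z z))
 (n 0 (n
 0x90ec138767df8628607e07e185f81f8208208608207e17e281f82081f7e08608207e17e18208608218200081 z (n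
 0x3387685b7e776d61f6d99a379a9db75dc52968a6979d7d68aa6e27dc9e451b628b979e8a6779e71d0041 z z)) (n
 0 z (n 0 z z)))))) (n 0 (n 0 z (n 0 (n 4261979 z (n 4261979 z z)) (n 0 (n 4261979 z (n 4261979
 z z)) (n 0 z (n 0 (n 4261979 z (n 4261979 z z)) (n 0 (n 8853067 z (n 8853067 z z)) z)))))) (n 0
 (n 0 z (n 0 z (n 0 z (n 0 z (n 0 z (n 0 z z)))))) (n 0 (n 0 z (n 0 z (n 0 z (n 0 z (n 0 (n
 0x90e8138747df8628607e07e185f81f8208208608207e17e281f82081f7e08608207e17e18208608218200081 z (n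
 0x3387485b7e776d61f6d99a379a9db75dc52968a6979d7d68aa6e27dc9e451b628b979e8a6779e71d0041 z z)) (n
 0 (n 0x7b8407908a36ad4db5e5c5e81892389ac598a0a2b71f95572a59585ba245606a9d9f9a772e72075a0041 z
 (n 0x638407d38a36ab55c664b9f7da8e389bb9a8a09a971f9577a861785d9e45e06e7c5f96576b76079b0041 z z))
 z)))))) (n 0 (n 0 z (n 0 z (n 0 z (n 0 z (n 0 z (n 0 z z)))))) (n 0 (n 0 z (n 0 z (n 0 z (n 0 z
 (n 0 z (n 0 z z)))))) (n 0 (n 0 z (n 0 z (n 0 z (n 0 z (n 0 (n 8848923 z (n 8848923 z z)) (n 0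
 (n 4261979 z (n 4261979 z z)) z)))))) (n 0 (n 0 z (n 0 z (n 0 z (n 0 z (n 0 z (n 0 z z)))))) (n
 0 (n 0 z (n 0 z (n 0 z (n 0 z (n 0 z (n 0 z z)))))) (n 0 (n 0 z (n 0 z (n 0 z (n 0 z (n 0 (n
 0x10ed0e840781e8618608208208208208207e082182182082081f8608207e08208208207e08208608208200801 z
 (n 0x2c84e210038207e17e07a07e182279d85e8a08608228208207e08608628217de85f8608617e08208607e00801
 z z)) (n 0 (n 8872203 z (n 8872203 z z)) z)))))) (n 0 (n 0 z (n 0 z (n 0 z (n 0 z (n 0 z (n 0 z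
 z)))))) (n 0 (n 0 z (n 0 z (n 0 z (n 0 z (n 0 z (n 0 z z)))))) (n 0 (n 0 z (n 0 (n 8721931 z z)
 (n 0 z (n 0 z (n 0 z (n 0 z z)))))) (n 0 (n 0 z (n 0 z (n 0 z (n 0 z (n 0 z (n 0 z z)))))) (n 0
 (n 0 z (n 0 z (n 0 z (n 0 z (n 0 (n
 0x90e8138747df8628607e07e185f81f8208208608207e17e281f82081f7e08608207e17e18208608218200081 z (n
 0x2ec90e640785f8218208208208207e081f8208208207e08208208208618207e081f7e08207e17e08208200801 z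
 z)) (n 0 (n 8872203 z (n 8872203 z z)) z)))))) (n 0 (n 0 z (n 0 z (n 0 z (n 0 z (n 0 (n
 0x2387485b7e676b66071b9627dc99c75db959269e77dd7998a77227dd9a459c6a6ada967a267de71e0041 z z) (n
 0 (n 8853067 z z) z)))))) (n 0 (n 0 z (n 0 z (n 0 z (n 0 z (n 0 z (n 0 z z)))))) (n 0 (n 0 z (n
 0 z (n 0 z (n 0 z (n 0 z (n 0 z z)))))) (n 0 (n 0 z (n 0 z (n 0 z (n 0 z (n 0 z (n 0 z z))))))
 (n 0 (n 0 z (n 0 z (n 0 z (n 0 z (n 0 (n 8721931 z z) (n 0 (n 8721931 z z) z)))))) (n 0 (n 0 z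
 (n 0 z (n 0 z (n 0 z (n 0 (n
 0x8b81079085f82a3599ddc5d8a1aa5615ee07de92c81a8138eb69a8248a75d74a6cd3a2caa66e071b0041 z (n
 0x8b81079085f82a3599ddc5d8a1aa5615ee07de92c81a8138eb69a8248a75d74a6cd3a2caa66e071b0041 z z)) (n
 0 (n 0x548727e47ed6db4226a176180e89c9568e676175d9eb5e052699771e5e28998248b6961b598ee8dd0041 z
 (n 0x8b81079085f82a3599ddc5d8a1aa5615ee07de92c81a8138eb69a8248a75d74a6cd3a2caa66e071b0041 z z))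
 z)))))) (n 0 (n 0 z (n 0 (n 8728691 z (n 8721931 z z)) (n 0 z (n 0 z (n 0 z (n 0 z z)))))) (n 0
 (n 0 z (n 0 z (n 0 z (n 0 z (n 0 z (n 0 z z)))))) (n 0 (n 0 z (n 0 (n 8728691 z (n 8721931 z
 z)) (n 0 (n 8721931 z (n 8721931 z z)) (n 0 z (n 0 z (n 0 z z)))))) (n 0 (n 0 z (n 0 z (n 0 z
 (n 0 z (n 0 z (n 0 z z)))))) (n 0 (n 0 z (n 0 z (n 0 z (n 0 z (n 0 (n
 0x90e8138747df8628607e07e185f81f8208208608207e17e281f82081f7e08608207e17e18208608218200081 z (n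
 7735371 z z)) (n 0 (n
 0x3386485b7e776d61f6d99a379a9db75dc52968a6979d7d68aa6e27dc9e451b628b979e8a6779e71d0041 z (n
 0x3386485b7e776d61f6d99a379a9db75dc52968a6979d7d68aa6e27dc9e451b628b979e8a6779e71d0041 z z))
 z)))))) (n 0 (n 0 z (n 0 z (n 0 z (n 0 z (n 0 z (n 0 z z)))))) (n 0 (n 0 z (n 0 z (n 0 z (n 0 z
 (n 0 (n 6424699 z (n 6424699 z z)) (n 0 (n
 0x3387285b7e776d61f6d99a379a9db75dc52968a6979d7d68aa6e27dc9e451b628b979e8a6779e71d0041 z (n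
 0x7b8217908a36ad4db5e5c5e81892389ac598a0a2b71f95572a59585ba245606a9d9f9a772e72075a0041 z z))
 z)))))) (n 0 (n 0 z (n 0 z (n 0 z (n 0 z (n 0 (n
 0x7b8217908a36ad4db5e5c5e81892389ac598a0a2b71f95572a59585ba245606a9d9f9a772e72075a0041 z (n
 0x7b8217908a36ad4db5e5c5e81892389ac598a0a2b71f95572a59585ba245606a9d9f9a772e72075a0041 z z)) (n
 0 (n 8853067 z (n 8853067 z z)) z)))))) (n 0 (n 0 z (n 0 (n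
 0xd0ed0ec4037e9572898b8b8d8c7b727d8d79707f6a7d7d776491858f728a9c7d997a7e92858a7a797c7b7887835e7d799291748a7d7a7c0809
 z z) (n 0 (n
 0xd0ed0ec4037e9572898b8b8d8c7b727d8d79707f6a7d7d776491858f728a9c7d997a7e92858a7a797c7b7887835e7d799291748a7d7a7c0809
 z z) (n 0 z (n 0 z (n 0 z z)))))) (n 0 (n 0 z (n 0 (n
 0x90e0138707df8628607e07e185f81f8208208608207e17e281f82081f7e08608207e17e18208608218200081 z (n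
 0x638106d395c92589d827b569616a689a86391e7a269c9d7760759820ae49a17e4b9e85e5e459c81b0041 z z)) (n
 0 z (n 0 z (n 0 z (n 0 z z)))))) (n 0 (n 0 z (n 0 (n 8721931 z (n 8721931 z z)) (n 0 z (n 0 z
 (n 0 z (n 0 z z)))))) (n 0 (n 0 (n 8589411 z z) (n 0 z (n 0 z (n 0 (n 8589411 z z) (n 0 (n
 8589411 z (n 8589411 z z)) (n 0 (n 8589411 z (n 8589411 z z)) z)))))) (n 0 (n 0 z (n 0 z (n 0 z
 (n 0 z (n 0 z (n 0 z z)))))) (n 0 (n 0 z (n 0 z (n 0 z (n 0 z (n 0 z (n 0 z z)))))) (n 0 (n 0 z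
 (n 0 z (n 0 z (n 0 z (n 0 z (n 0 z z)))))) (n 0 (n 0 z (n 0 z (n 0 z (n 0 z (n 0 z (n 0 z
 z)))))) (n 0 (n 0 z (n 0 z (n 0 z (n 0 z (n 0 z (n 0 z z)))))) (n 0 (n 0 z (n 0 z (n 0 z (n 0 z
 (n 0 (n 0x638206d395c92589d827b569616a689a86391e7a269c9d7760759820ae49a17e4b9e85e5e459c81b0041
 z (n 7735371 z z)) (n 0 (n
 0x90e4138727df8628607e07e185f81f8208208608207e17e281f82081f7e08608207e17e18208608218200081 z (n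
 0x3387285b7e776d61f6d99a379a9db75dc52968a6979d7d68aa6e27dc9e451b628b979e8a6779e71d0041 z z))
 z)))))) (n 0 (n 0 z (n 0 z (n 0 z (n 0 z (n 0 (n 2164859 z (n 2164859 z z)) (n 0 (n
 0x90e4138727df8628607e07e185f81f8208208608207e17e281f82081f7e08608207e17e18208608218200081 z (n
 0x1ae181850c0d18607e17a26a76df8248a185a9d8a1daa48ea9a59214d75e97d969baa4719524bd795fa617de99900c1
 z z)) z)))))) (n 0 (n 0 z (n 0 z (n 0 z (n 0 z (n 0 (n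
 0x1ae181850c0d18607e17a26a76df8248a185a9d8a1daa48ea9a59214d75e97d969baa4719524bd795fa617de99900c1
 z (n 7606403 z z)) (n 0 (n 8872203 z (n 7606403 z z)) z)))))) (n 0 (n 0 z (n 0 z (n 0 z (n 0 z
 (n 0 (n 6424699 z (n 6424699 z z)) (n 0 (n 8872203 z (n 8872203 z z)) z)))))) (n 0 (n 0 z (n 0
 z (n 0 z (n 0 z (n 0 z (n 0 z z)))))) (n 0 (n 0 z (n 0 (n 4261979 z (n 4261979 z z)) (n 0 (n
 4261979 z (n 4261979 z z)) (n 0 z (n 0 (n 4261979 z (n 4261979 z z)) (n 0 (n 4261979 z (n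
 4261979 z z)) z)))))) (n 0 (n 0 z (n 0 z (n 0 z (n 0 z (n 0 z (n 0 z z))))))
 z))))))))))))))))))))))))))))))))))))))))))))))))) (n 18 (n 0 (n 0 z (n 0 (n
 0x90e6138737df8628607e07e185f81f8208208608207e17e281f82081f7e08608207e17e18208608218200081 z z)
 (n 0 z (n 0 z (n 0 (n 2164859 z (n 2164859 z z)) (n 0 (n
 0x638736d395c92589d827b569616a689a86391e7a269c9d7760759820ae49a17e4b9e85e5e459c81b0041 z (n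
 0x548307e47ed6db4226a176180e89c9568e676175d9eb5e052699771e5e28998248b6961b598ee8dd0041 z z))
 z)))))) (n 0 (n 0 z (n 0 z (n 0 z (n 0 z (n 0 z (n 0 z z)))))) (n 0 (n 0 z (n 0 (n 8867891 z z)
 (n 0 (n 8721931 z z) (n 0 z (n 0 z (n 0 z z)))))) (n 0 (n 0 z (n 0 z (n 0 z (n 0 z (n 0 z (n 0
 z z)))))) (n 0 (n 0 (n 8721931 z (n 8721931 z z)) (n 0 (n 8867891 z (n 8867891 z z)) (n 0 (n
 8721931 z (n 8721931 z z)) (n 0 (n 8721931 z (n 8721931 z z)) (n 0 z (n 0 z z)))))) (n 0 (n 0 z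
 (n 0 (n 8867891 z (n 8867891 z z)) (n 0 (n 8716827 z (n 8716827 z z)) (n 0 z (n 0 (n 8716827 z
 (n 8716827 z z)) (n 0 (n 8716827 z (n 8716827 z z)) z)))))) (n 0 (n 0 z (n 0 z (n 0 z (n 0 z (n
 0 z (n 0 z z)))))) (n 0 (n 0 z (n 0 z (n 0 z (n 0 z (n 0 (n
 0x7b8217908a36ad4db5e5c5e81892389ac598a0a2b71f95572a59585ba245606a9d9f9a772e72075a0041 z (n
 0x7b8217908a36ad4db5e5c5e81892389ac598a0a2b71f95572a59585ba245606a9d9f9a772e72075a0041 z z)) (n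
 0 (n 0x90e4138727df8628607e07e185f81f8208208608207e17e281f82081f7e08608207e17e18208608218200081
 z (n 0x3387285b7e776d61f6d99a379a9db75dc52968a6979d7d68aa6e27dc9e451b628b979e8a6779e71d0041 z
 z)) z)))))) (n 0 (n 0 z (n 0 z (n 0 z (n 0 z (n 0 z (n 0 z z)))))) (n 0 (n 0 z (n 0 z (n 0 z (n
 0 z (n 0 z (n 0 z z)))))) (n 0 (n 0 z (n 0 z (n 0 z (n 0 z (n 0 (n 6424699 z (n 6424699 z z))
 (n 0 (n 8872203 z (n 8872203 z z)) z)))))) (n 0 (n 0 z (n 0 z (n 0 z (n 0 z (n 0 z (n 0 z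
 z)))))) (n 0 (n 0 z (n 0 z (n 0 z (n 0 z (n 0 z (n 0 z z)))))) (n 0 (n 0 z (n 0 z (n 0 z (n 0 z
 (n 0 (n 8721931 z (n 8721931 z z)) (n 0 (n 8721931 z (n 8721931 z z)) z)))))) (n 0 (n 0 z (n 0
 z (n 0 z (n 0 z (n 0 z (n 0 z z)))))) (n 0 (n 0 z (n 0 z (n 0 z (n 0 z (n 0 z (n 0 z z)))))) (n
 0 (n 0 z (n 0 (n
 0xd0ed0ec4037e9572898b8b8d8c7b727d8d79707f6a7d7d776491858f728a9c7d997a7e92858a7a797c7b7887835e7d799291748a7d7a7c0809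
 z z) (n 0 z (n 0 z (n 0 z (n 0 z z)))))) (n 0 (n 0 z (n 0 z (n 0 z (n 0 z (n 0 z (n 0 z z))))))
 (n 0 (n 0 z (n 0 z (n 0 z (n 0 z (n 0 (n 8721931 z (n 8721931 z z)) (n 0 (n 8721931 z (n
 8721931 z z)) z)))))) (n 0 (n 0 z (n 0 z (n 0 z (n 0 z (n 0 (n 8716827 z z) (n 0 (n 8716827 z
 z) z)))))) (n 0 (n 0 z (n 0 z (n 0 z (n 0 z (n 0 z (n 0 z z)))))) (n 0 (n 0 z (n 0 z (n 0 z (n
 0 z (n 0 z (n 0 z z)))))) (n 0 (n 0 z (n 0 z (n 0 z (n 0 z (n 0 z (n 0 z z)))))) (n 0 (n 0 z (n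
 0 z (n 0 z (n 0 z (n 0 (n 8848923 z z) (n 0 (n
 0x638727d386372a59d664b9f8198a389bb5a8609a972091776861785d9a3620767c9f96672c76079b0041 z z)
 z)))))) (n 0 (n 0 z (n 0 z (n 0 z (n 0 z (n 0 (n
 0x4b87271691d92489f826a989206e485b8628df7a171d9597a075a7e0a639617e4ade85e6635dd81b0041 z (n
 0x8b86079085f82a3599ddc5d8a1aa5615ee07de92c81a8138eb69a8248a75d74a6cd3a2caa66e071b0041 z z)) (n
 0 (n 0x8b86079085f82a3599ddc5d8a1aa5615ee07de92c81a8138eb69a8248a75d74a6cd3a2caa66e071b0041 z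
 (n 0x8b86079085f82a3599ddc5d8a1aa5615ee07de92c81a8138eb69a8248a75d74a6cd3a2caa66e071b0041 z z))
 z)))))) (n 0 (n 0 z (n 0 (n 8728691 z (n
 0x638106d395c92589d827b569616a689a86391e7a269c9d7760759820ae49a17e4b9e85e5e459c81b0041 z z)) (n
 0 z (n 0 z (n 0 z (n 0 z z)))))) (n 0 (n 0 z (n 0 z (n 0 z (n 0 z (n 0 z (n 0 z z)))))) (n 0 (n
 0 z (n 0 (n 8728691 z (n
 0x8b81079085f82a3599ddc5d8a1aa5615ee07de92c81a8138eb69a8248a75d74a6cd3a2caa66e071b0041 z z)) (n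
 0 (n 0x638766d395c92589d827b569616a689a86391e7a269c9d7760759820ae49a17e4b9e85e5e459c81b0041 z
 (n 0x7b8767908a36ad4db5e5c5e81892389ac598a0a2b71f95572a59585ba245606a9d9f9a772e72075a0041 z z))
 (n 0 z (n 0 z (n 0 z z)))))) (n 0 (n 0 z (n 0 z (n 0 z (n 0 z (n 0 z (n 0 z z)))))) (n 0 (n 0 z
 (n 0 z (n 0 z (n 0 z (n 0 (n
 0x3382185b7e776d61f6d99a379a9db75dc52968a6979d7d68aa6e27dc9e451b628b979e8a6779e71d0041 z (n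
 0x3382185b7e776d61f6d99a379a9db75dc52968a6979d7d68aa6e27dc9e451b628b979e8a6779e71d0041 z z)) (n
 0 (n 0x90e4138727df8628607e07e085f81f8208208608207e17e181f82081f8208618208217e08218608217e00081
 z (n 7739435 z z)) z)))))) (n 0 (n 0 z (n 0 z (n 0 z (n 0 z (n 0 z (n 0 z z)))))) (n 0 (n 0 z
 (n 0 z (n 0 z (n 0 z (n 0 (n
 0x90e4138727df8628607e07e185f81f8208208608207e17e281f82081f7e08608207e17e18208608218200081 z (n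
 0x7b8307908a36ad4db5e5c5e81892389ac598a0a2b71f95572a59585ba245606a9d9f9a772e72075a0041 z z)) (n
 0 (n 6494331 z (n 6494331 z z)) z)))))) (n 0 (n 0 z (n 0 z (n 0 z (n 0 z (n 0 (n 8716827 z (n
 8716827 z z)) (n 0 (n 8716827 z (n 8716827 z z)) z)))))) (n 0 (n 0 z (n 0 (n 8718139 z z) (n 0
 (n 8718139 z z) (n 0 z (n 0 z (n 0 z z)))))) (n 0 (n 0 z (n 0 (n
 0x90e6138737df8628607e07e185f81f8208208608207e17e281f82081f7e08608207e17e18208608218200081 z (n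
 0x638606d395c92589d827b569616a689a86391e7a269c9d7760759820ae49a17e4b9e85e5e459c81b0041 z z)) (n
 0 z (n 0 z (n 0 z (n 0 z z)))))) (n 0 (n 0 z (n 0 (n
 0x90e6138737df8628607e07e185f81f8208208608207e17e281f82081f7e08608207e17e18208608218200081 z (n
 0x3382185b7e776d61f6d99a379a9db75dc52968a6979d7d68aa6e27dc9e451b628b979e8a6779e71d0041 z z)) (n
 0 z (n 0 z (n 0 z (n 0 z z)))))) (n 0 (n 0 (n 8798227 z z) (n 0 z (n 0 z (n 0 (n 8798227 z z)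
 (n 0 (n 8798227 z (n 8798227 z z)) (n 0 (n 8798227 z (n 8798227 z z)) z)))))) (n 0 (n 0 z (n 0
 z (n 0 z (n 0 z (n 0 z (n 0 z z)))))) (n 0 (n 0 z (n 0 z (n 0 z (n 0 z (n 0 z (n 0 z z)))))) (n
 0 (n 0 z (n 0 z (n 0 z (n 0 z (n 0 z (n 0 z z)))))) (n 0 (n 0 z (n 0 z (n 0 z (n 0 z (n 0 z (n
 0 z z)))))) (n 0 (n 0 z (n 0 z (n 0 z (n 0 z (n 0 z (n 0 z z)))))) (n 0 (n 0 z (n 0 z (n 0 z (n
 0 z (n 0 (n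
 0x638636d395c92589d827b569616a689a86391e7a269c9d7760759820ae49a17e4b9e85e5e459c81b0041 z (n
 0x638636d395c92589d827b569616a689a86391e7a269c9d7760759820ae49a17e4b9e85e5e459c81b0041 z z)) (n
 0 (n 0x638636d395c92589d827b569616a689a86391e7a269c9d7760759820ae49a17e4b9e85e5e459c81b0041 z
 (n 7739435 z z)) z)))))) (n 0 (n 0 z (n 0 z (n 0 z (n 0 z (n 0 (n
 0x1ae185850c2d18617e17a26a76df8248a185a9d8a1daa48ea9a59214d75e97d969baa4719524bd795fa617de99900c1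
 z (n
 0x1ae185850c2d18617e17a26a76df8248a185a9d8a1daa48ea9a59214d75e97d969baa4719524bd795fa617de99900c1
 z z)) (n 0 (n 6490235 z (n 6490235 z z)) z)))))) (n 0 (n 0 z (n 0 z (n 0 z (n 0 z (n 0 (n
 8721931 z (n 7741571 z z)) (n 0 (n 8721931 z (n 7741571 z z)) z)))))) (n 0 (n 0 z (n 0 z (n 0 z
 (n 0 z (n 0 (n 8721931 z (n 8721931 z z)) (n 0 (n 8721931 z (n 8721931 z z)) z)))))) (n 0 (n 0
 z (n 0 z (n 0 z (n 0 z (n 0 z (n 0 z z)))))) (n 0 (n 0 z (n 0 (n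
 0x90e6138737df8628607e07e185f81f8208208608207e17e281f82081f7e08608207e17e18208608218200081 z (n
 0x3382185b7e776d61f6d99a379a9db75dc52968a6979d7d68aa6e27dc9e451b628b979e8a6779e71d0041 z z)) (n
 0 (n 0x3382185b7e776d61f6d99a379a9db75dc52968a6979d7d68aa6e27dc9e451b628b979e8a6779e71d0041 z
 (n 0x3382185b7e776d61f6d99a379a9db75dc52968a6979d7d68aa6e27dc9e451b628b979e8a6779e71d0041 z z))
 (n 0 z (n 0 (n 6424699 z (n 6424699 z z)) (n 0 (n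
 0x90e4138727df8628607e07e185f81f8208208608207e17e281f82081f7e08608207e17e18208608218200081 z (n
 0x3382185b7e776d61f6d99a379a9db75dc52968a6979d7d68aa6e27dc9e451b628b979e8a6779e71d0041 z z))
 z)))))) (n 0 (n 0 z (n 0 z (n 0 z (n 0 z (n 0 z (n 0 z z))))))
 z))))))))))))))))))))))))))))))))))))))))))))))))) (n 201 (n 0 (n 0 z (n 0 z (n 0 z (n 0 z (n 0
 (n
 0x16b8528a8171b1538a305d709483947959c47b7396c77269a3a49b6d71702d8da061499394996c4d78897cd2a395674fc36a9575800049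
 z z) (n 0 (n 7673915 z z) z)))))) (n 0 (n 0 z (n 0 z (n 0 z (n 0 z (n 0 z (n 0 z z)))))) (n 0
 (n 0 z (n 0 z (n 0 z (n 0 z (n 0 z (n 0 z z)))))) (n 0 (n 0 z (n 0 z (n 0 z (n 0 z (n 0 z (n 0
 z z)))))) (n 0 (n 0 z (n 0 z (n 0 z (n 0 z (n 0 z (n 0 z z)))))) (n 0 (n 0 z (n 0 z (n 0 z (n 0
 z (n 0 z (n 0 z z)))))) (n 0 (n 0 z (n 0 z (n 0 z (n 0 z (n 0 z (n 0 z z)))))) (n 0 (n 0 z (n 0
 z (n 0 z (n 0 z (n 0 z (n 0 z z)))))) (n 0 (n 0 z (n 0 (n 8798227 z z) (n 0 z (n 0 z (n 0 (n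
 8798227 z (n 8798227 z z)) (n 0 (n 8798227 z (n 8798227 z z)) z)))))) (n 0 (n 0 z (n 0 z (n 0 z
 (n 0 z (n 0 z (n 0 z z)))))) z)))))))))) (n 33 (n 0 (n 0 z (n 0 z (n 0 z (n 0 z (n 0 (n 8872715
 z z) (n 0 (n 7669819 z z) z)))))) (n 0 (n 0 z (n 0 z (n 0 z (n 0 z (n 0 z (n 0 z z)))))) (n 0
 (n 0 z (n 0 z (n 0 z (n 0 z (n 0 z (n 0 z z)))))) (n 0 (n 0 z (n 0 z (n 0 z (n 0 z (n 0 z (n 0
 z z)))))) (n 0 (n 0 z (n 0 z (n 0 z (n 0 z (n 0 (n 8790275 z z) (n 0 (n 8790275 z z) z)))))) (n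
 0 (n 0 z (n 0 z (n 0 z (n 0 z (n 0 z (n 0 z z)))))) (n 0 (n 0 z (n 0 z (n 0 z (n 0 z (n 0 z (n
 0 z z)))))) (n 0 (n 0 z (n 0 (n
 0x3387085b7e776d61f6d99a379a9db75dc52968a6979d7d68aa6e27dc9e451b628b979e8a6779e71d0041 z z) (n
 0 z (n 0 z (n 0 (n
 0x638726d395c92589d827b569616a689a86391e7a269c9d7760759820ae49a17e4b9e85e5e459c81b0041 z (n
 0x123830888174a75c884063749082917a61b67c7591b9756d9c9d957174733e8b9a67548f909470577a877dc29c906c59b56e9177800049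
 z z)) (n 0 (n
 0x1c38308d826cbd488d1d546d99839b7750d579709bd96e63acada1686d6b1891a8593b9899a06640778b7be6ab9a6143d4649a72800049
 z (n 7604283 z z)) z)))))) (n 0 (n 0 z (n 0 (n
 0x90e6138737df8628607e07e185f81f8208208608207e17e281f82081f7e08608207e17e18208608218200081 z (n
 0x7b8307908a36ad4db5e5c5e81892389ac598a0a2b71f95572a59585ba245606a9d9f9a772e72075a0041 z z)) (n
 0 z (n 0 z (n 0 z (n 0 z z)))))) z))))))))) (n 135 (n 0 (n 0 z (n 0 z (n 0 z (n 0 z (n 0 z (n 0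
 z z)))))) (n 0 (n 0 z (n 0 z (n 0 z (n 0 z (n 0 z (n 0 z z)))))) (n 0 (n 0 z (n 0 z (n 0 z (n 0
 z (n 0 z (n 0 z z)))))) (n 0 (n 0 z (n 0 z (n 0 z (n 0 z (n 0 z (n 0 z z)))))) (n 0 (n 0 z (n 0
 z (n 0 z (n 0 z (n 0 z (n 0 z z)))))) (n 0 (n 0 z (n 0 z (n 0 z (n 0 z (n 0 z (n 0 z z)))))) (n
 0 (n 0 (n
 0x90e8138747df8628607e07e185f81f8208208608207e17e281f82081f7e08608207e17e18208608218200081 z z)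
 (n 0 z (n 0 z (n 0 z (n 0 z (n 0 z z)))))) (n 0 (n 0 z (n 0 z (n 0 z (n 0 (n 8790275 z z) (n 0
 z (n 0 z z)))))) z)))))))) (n 3 (n 0 (n 0 z (n 0 z (n 0 z (n 0 z (n 0 z (n 0 z z)))))) (n 0 (n
 0 z (n 0 z (n 0 z (n 0 z (n 0 z (n 0 z z)))))) (n 0 (n 0 z (n 0 z (n 0 z (n 0 z (n 0 (n
 0x3086ea240779f7e071e61b8268e085d9628a2a6279e7e571f7da8227188e095f7647df9e485e7677a17e00801 z
 z) (n 0 (n 7669819 z z) z)))))) (n 0 (n 0 z (n 0 z (n 0 z (n 0 z (n 0 z (n 0 z z)))))) (n 0 (n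
 0 z (n 0 z (n 0 z (n 0 z (n 0 z (n 0 z z)))))) (n 0 (n 0 z (n 0 (n 8860939 z z) (n 0 z (n 0 z
 (n 0 z (n 0 z z)))))) (n 0 (n 0 z (n 0 z (n 0 z (n 0 z (n 0 z (n 0 z z)))))) (n 0 (n 0 z (n 0 z
 (n 0 z (n 0 z (n 0 z (n 0 z z)))))) z)))))))) (n 1 (n 0 (n 0 z (n 0 z (n 0 z (n 0 z (n 0 z (n 0
 z z)))))) (n 0 (n 0 (n
 0x7b8737908a36ad4db5e5c5e81892389ac598a0a2b71f95572a59585ba245606a9d9f9a772e72075a0041 z z) (n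
 0 z (n 0 z (n 0 z (n 0 z (n 0 z z)))))) (n 0 (n 0 z (n 0 z (n 0 z (n 0 z (n 0 z (n 0 z z))))))
 (n 0 (n 0 z (n 0 z (n 0 z (n 0 z (n 0 z (n 0 z z)))))) (n 0 (n 0 z (n 0 z (n 0 z (n 0 z (n 0 (n
 0x10e50e26038228208208608208207df82082081f82082082182082081f8208208208208208208208208200801 z
 z) (n 0 (n
 0x7b8727908a36ad4db5e5c5e81892389ac598a0a2b71f95572a59585ba245606a9d9f9a772e72075a0041 z z)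
 z)))))) (n 0 (n 0 z (n 0 z (n 0 z (n 0 (n 8798227 z z) (n 0 z (n 0 z z)))))) (n 0 (n 0 z (n 0 z
 (n 0 z (n 0 z (n 0 (n 7669835 z (n
 0x3086ea240782082182081f8218208208208208208208208208208208208208208208207e08208207e08200801 z
 z)) (n 0 (n
 0x1b0e70e6203739d85886583758a717f809c5d558e6f9b78956f8a8a7f7d8a848e748b828270808a667483718c7c9386938c64948d8a70830809
 z (n 7669835 z z)) z)))))) (n 0 (n 0 z (n 0 z (n 0 z (n 0 z (n 0 (n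
 0x638726d395c92589d827b569616a689a86391e7a269c9d7760759820ae49a17e4b9e85e5e459c81b0041 z (n
 0x7b8727908a36ad4db5e5c5e81892389ac598a0a2b71f95572a59585ba245606a9d9f9a772e72075a0041 z z)) (n
 0 (n
 0x5086ea24077e382081f8618207e17de89e86081f8218208207e086086082179f85f82081f8218208617e00801 z
 (n
 0x1853851201810a8a624038227a17e07a08207e37dc85e82291e86085f8237e17e085f8a082081f8207e07e086081f8201001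
 z z)) z)))))) (n 0 (n 0 z (n 0 (n
 0x853851201830a8ea24078218208208608207e07df8608208208208208207e08208208208208208208208208208208201001
 z z) (n 0 (n
 0x853851201830a8ea24078218208208608207e07df8608208208208208207e08208208208208208208208208208208201001
 z z) (n 0 z (n 0 z (n 0 z z)))))) z))))))))) (n 0 (n 0 (n 0 z (n 0 z (n 0 z (n 0 z (n 0 z (n 0
 z z)))))) (n 0 (n 0 z (n 0 z (n 0 z (n 0 (n 8798227 z z) (n 0 z (n 0 z z)))))) (n 0 (n 0 z (n 0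
 z (n 0 z (n 0 z (n 0 z (n 0 z z)))))) (n 0 (n 0 (n 8798227 z z) (n 0 z (n 0 z (n 0 (n 8798227 z
 z) (n 0 (n 8798227 z (n 8798227 z z)) (n 0 (n 8798227 z (n 8798227 z z)) z)))))) (n 0 (n 0 z (n
 0 (n 0x90e6138737df8628607e07e185f81f8208208608207e17e281f82081f7e08608207e17e18208608218200081
 z (n 8728691 z z)) (n 0 z (n 0 z (n 0 z (n 0 z z)))))) (n 0 (n 0 z (n 0 z (n 0 z (n 0 z (n 0 z
 (n 0 z z)))))) (n 0 (n 0 z (n 0 z (n 0 z (n 0 z (n 0 z (n 0 z z)))))) (n 0 (n 0 z (n 0 z (n 0 z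
 (n 0 z (n 0 z (n 0 z z)))))) (n 0 (n 0 z (n 0 z (n 0 z (n 0 z (n 0 z (n 0 z z)))))) (n 0 (n 0
 (n 8716827 z z) (n 0 z (n 0 z (n 0 z (n 0 (n 8716827 z (n 8716827 z z)) (n 0 (n 8716827 z (n
 8716827 z z)) z)))))) (n 0 (n 0 z (n 0 z (n 0 z (n 0 z (n 0 (n
 0x30870864037a47a08208208208217dd85e86089e8608208218218208608607e081f8207e08218208617e00801 z
 (n
 0x1871870301810e8e6240782b6e59a19a67596e77568938a2792aa691a8e87658da9a589f71b85d9a051f7e391b95f7211001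
 z z)) (n 0 (n
 0x548727e47ed6db4226a176180e89c9568e676175d9eb5e052699771e5e28998248b6961b598ee8dd0041 z (n
 0x1874874301830e70e64079a172a82392c56083251554aba674ebea8d481f8a794eaee7dd8d5a25ada2e36608da95b6251001
 z z)) z)))))) (n 0 (n 0 z (n 0 (n 8867891 z z) (n 0 (n 3213403 z z) (n 0 z (n 0 z (n 0 z
 z)))))) (n 0 (n 0 z (n 0 z (n 0 z (n 0 z (n 0 z (n 0 z z)))))) (n 0 (n 0 z (n 0 z (n 0 z (n 0 z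
 (n 0 z (n 0 z z)))))) (n 0 (n 0 z (n 0 z (n 0 z (n 0 z (n 0 (n
 0x1ae1cd850e6d18737e17a26a76df8248a185a9d8a1daa48ea9a59214d75e97d969baa4719524bd795fa617de99900c1
 z (n 0x419420381c0000061d21cc80e0000010e70e64031821 z z)) (n 0 (n 8872203 z (n 8872203 z z))
 z)))))) (n 0 (n 0 z (n 0 z (n 0 z (n 0 z (n 0 z (n 0 z z)))))) (n 0 (n 0 z (n 0 z (n 0 z (n 0 z
 (n 0 z (n 0 z z)))))) (n 0 (n 0 z (n 0 z (n 0 z (n 0 z (n 0 z (n 0 z z)))))) (n 0 (n 0 z (n 0 z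
 (n 0 z (n 0 z (n 0 (n
 0x10e70e04038227e27e07a07e082279d81e8618de86181f82282086085f86081f8208607e08218208207e00801 z
 (n 7606403 z z)) (n 0 (n 8872203 z (n 7606403 z z)) z)))))) (n 0 (n 0 z (n 0 z (n 0 z (n 0 z (n
 0 (n
 0x10870864037e27e082081f82082081f8208208a082082082082082081f8208208208208208208208208200801 z
 (n
 0x1873873201830e50e420782082182081f7e082082081f8208218608208208208208608208208208208208208208208201001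
 z z)) (n 0 (n 8872203 z (n 8872203 z z)) z)))))) (n 0 (n 0 z (n 0 (n 8718139 z z) (n 0 (n
 8718139 z z) (n 0 z (n 0 z (n 0 z z)))))) (n 0 (n 0 z (n 0 z (n 0 z (n 0 z (n 0 (n
 0x874842301810e6e8640385f86082081f8208208208208208208208208208208208208208208208208208208208208201001
 z (n
 0x872871301810e6e624078257e382082079e7a179c85e82289d86181f8247e081f85e8207df81f8607a18608208218211001
 z z)) (n 0 (n 8872203 z (n 8872203 z z)) z)))))) (n 0 (n 0 z (n 0 z (n 0 z (n 0 z (n 0 (n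
 8716827 z (n 8716827 z z)) (n 0 (n 8716827 z (n 8716827 z z)) z)))))) (n 0 (n 0 z (n 0 z (n 0 z
 (n 0 z (n 0 (n 4397147 z (n 7473227 z z)) (n 0 (n 4397147 z (n 4397147 z z)) z)))))) (n 0 (n 0
 z (n 0 z (n 0 z (n 0 z (n 0 z (n 0 z z)))))) (n 0 (n 0 z (n 0 (n 8867891 z (n 8867891 z z)) (n
 0 (n 8718139 z (n 3213403 z z)) (n 0 z (n 0 (n 3213403 z (n 3213403 z z)) (n 0 (n 3213403 z (n
 3213403 z z)) z)))))) (n 0 (n 0 (n 8790275 z z) (n 0 z (n 0 z (n 0 (n 8790275 z z) (n 0 (n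
 8790275 z (n 8790275 z z)) (n 0 (n 8790275 z (n 8790275 z z)) z)))))) (n 0 (n 0 z (n 0 z (n 0 z
 (n 0 z (n 0 (n 4261979 z (n 4261979 z z)) (n 0 (n 4261979 z (n 4261979 z z)) z)))))) (n 0 (n 0
 z (n 0 (n
 0x90e6138737df8628607e07e185f81f8208208608207e17e281f82081f7e08608207e17e18208608218200081 z (n
 8728691 z z)) (n 0 z (n 0 z (n 0 z (n 0 z z)))))) z)))))))))))))))))))))))))))))
 z))))))))))))))))))))) z)))) z) z)))) z))))))))), by decide +kernel⟩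
theorem i11103 : ∃ t, chkR KT RW t 11103 11113 = true := ⟨(n
 0x167ad09966e19eb282c98c1d64c83d5a21d4f2c35596629453089465032cf014c540 (n 0x32cf5 (n 693 (n
 3282443 z (n 0 z (n 0 z (n 0 z (n 0 z (n 0 z (n 0 z (n 6619675 z (n 0 z (n 0 z (n 2 z (n 10 z
 (n 18 z (n 0 z z)))))))))))))) (n 33 (n 0 z (n 26 z (n 0 z (n 0 z (n 0 z (n 34 z (n 3278363 z
 z))))))) (n 9 (n 0 z (n 0 z (n 0 z (n 0 z (n 42 z (n 3212843 z z)))))) (n 27 (n 50 z (n 2164283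
 z (n 0 z (n 58 z z)))) (n 1 (n 66 z (n 2164299 z (n 0 z (n 0 z (n 74 z (n 0 z (n 0 z (n 0 z (n
 82 z z))))))))) (n 0 (n 0 z (n 0 z (n 0 z (n 90 z (n 98 z (n 6619675 z z)))))) z)))))) (n 27 (n
 0 (n 0 z (n 0 z (n 163 (n 2 (n 0 z (n 2 (n 0 z (n 0 z (n 0 (n 4020 z z) (n 0 (n 4020 z (n 4020
 z z)) (n 0 z (n 0 z z)))))) (n 1 z (n 2 (n 0 (n 1685 z z) (n 0 z (n 0 z (n 0 (n 660 z (n 660 z
 z)) (n 0 z (n 0 (n 660 z z) z)))))) (n 2 (n 0 z (n 0 (n 2124 z (n 2124 z z)) (n 0 (n 8728691 z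
 (n 2124 z z)) (n 0 z (n 0 (n 2124 z (n 2124 z z)) (n 0 (n 8728691 z (n 2124 z z)) z)))))) (n 1
 z (n 2 (n 0 z (n 0 (n 2124 z z) (n 0 z (n 0 (n 8728691 z (n 2124 z z)) (n 0 (n 6359131 z z) (n
 0 z z)))))) (n 2 (n 0 z (n 0 z (n 0 z (n 0 (n 644 z (n 644 z z)) (n 0 z (n 0 (n 644 z z)
 z)))))) (n 2 (n 0 (n 197 z z) (n 0 z (n 0 z (n 0 (n 644 z (n 8718139 z z)) (n 0 z (n 0 (n 644 z
 z) z)))))) z))))))))) (n 0 z (n 0 z (n 0 z (n 0 z (n 0 z (n 0 z z))))))) (n 163 (n 0 z (n 0 z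
 (n 0 z (n 0 z (n 0 z (n 0 z (n 2 (n 1 z (n 2 (n 0 (n 1949 z z) (n 0 z (n 0 z (n 0 (n 6621243 z
 (n 6621243 z z)) (n 0 z (n 0 (n 660 z z) z)))))) (n 2 (n 0 (n 8855891 z z) (n 0 z (n 0 (n
 8855891 z z) (n 0 (n 8855891 z (n 8855891 z z)) (n 0 z (n 0 z z)))))) (n 2 (n 0 (n 6621259 z (n
 6621259 z z)) (n 0 (n 7669835 z (n 2124 z z)) (n 0 z (n 0 z (n 0 z (n 0 (n 2124 z (n 7669835 z
 z)) z)))))) (n 2 (n 0 z (n 0 (n 2124 z z) (n 0 z (n 0 (n 2124 z (n 2124 z z)) (n 0 z (n 0 (n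
 2124 z z) z)))))) (n 1 z (n 2 (n 0 z (n 0 z (n 0 z (n 0 z (n 0 z (n 0 z z)))))) (n 2 (n 0 (n
 3278971 z z) (n 0 z (n 0 (n 3278971 z z) (n 0 (n 3278971 z (n 3278971 z z)) (n 0 z (n 0 z
 z)))))) z)))))))) z))))))) (n 1005 (n 0 z (n 0 z (n 0 z (n 0 z (n 2 (n 2 (n 0 z (n 0 z (n 0 (n
 660 z z) (n 0 (n 6621243 z (n 6621243 z z)) (n 0 z (n 0 z z)))))) (n 1 z (n 2 (n 0 (n 6621259 z
 (n 6621259 z z)) (n 0 (n 8456027 z (n 2124 z z)) (n 0 (n 2124 z (n 7669835 z z)) (n 0 (n 2124 z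
 (n 7669835 z z)) (n 0 z (n 0 z z)))))) (n 2 (n 0 z (n 0 z (n 0 (n 2124 z z) (n 0 (n 2124 z (n
 2124 z z)) (n 0 z (n 0 z z)))))) (n 1 z (n 2 (n 0 z (n 0 z (n 0 z (n 0 z (n 0 z (n 0 z z))))))
 (n 1 z z))))))) z))))) (n 165 (n 0 z (n 0 z (n 0 z (n 0 z (n 2 (n 0 z (n 2 (n 0 (n 6621259 z (n
 6621259 z z)) (n 0 (n 2124 z (n 2124 z z)) (n 0 (n 8718139 z (n 2124 z z)) (n 0 z (n 0 z (n 0
 (n 8718139 z (n 2124 z z)) z)))))) (n 1 z (n 2 (n 0 z (n 0 (n 2124 z z) (n 0 z (n 0 (n 7407707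
 z (n 7680387 z z)) (n 0 z (n 0 (n 6631811 z z) z)))))) (n 2 (n 0 z (n 0 z (n 0 z (n 0 z (n 0 z
 (n 0 z z)))))) (n 2 (n 0 (n 197 z z) (n 0 z (n 0 z (n 0 (n 644 z (n 8718139 z z)) (n 0 z (n 0
 (n 644 z z) z)))))) z)))))) (n 0 z z)))))) (n 165 (n 0 z (n 0 z (n 0 z (n 0 z (n 0 z (n 2 (n 2
 (n 0 (n 6621259 z (n 6621259 z z)) (n 0 (n 7669835 z (n 2124 z z)) (n 0 z (n 0 z (n 0 z (n 0 (n
 2124 z (n 7669835 z z)) z)))))) (n 2 (n 0 z (n 0 (n 2124 z z) (n 0 z (n 0 (n 2124 z (n 2124 z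
 z)) (n 0 z (n 0 (n 2124 z z) z)))))) (n 1 z (n 2 (n 0 z (n 0 z (n 0 z (n 0 z (n 0 z (n 0 z
 z)))))) (n 2 (n 0 (n 8868883 z z) (n 0 z (n 0 (n 8868883 z z) (n 0 (n 8868883 z (n 8868883 z
 z)) (n 0 z (n 0 z z)))))) z))))) z)))))) (n 531 (n 0 z (n 0 z (n 0 z (n 0 z z)))) (n 531 (n 0 z
 (n 0 z (n 0 z (n 0 z z)))) (n 531 (n 0 z (n 0 z (n 0 z (n 2 (n 2 (n 0 z (n 0 z (n 0 z (n 0 z (n
 0 z (n 0 z z)))))) (n 1 z z)) z)))) (n 161 (n 0 z (n 0 z (n 0 z (n 0 z (n 0 z (n 0 z (n 0 z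
 z))))))) (n 161 (n 0 z (n 0 z (n 0 z (n 0 z (n 0 z (n 0 z (n 2 z z))))))) z)))))))))))) (n 0 (n
 0 z (n 167 (n 0 z (n 0 z (n 0 z (n 0 z (n 0 z (n 0 z (n 0 z (n 2 (n 0 z (n 1 z (n 1 z (n 1 z (n
 2 (n 0 z (n 0 (n 6621259 z z) (n 0 z (n 0 (n 8728691 z (n 1212 z z)) (n 0 z (n 0 (n 8728931 z
 z) z)))))) (n 2 (n 0 z (n 0 z (n 0 z (n 0 z (n 0 z (n 0 z z)))))) (n 1 z (n 2 (n 0 z (n 0 z (n
 0 z (n 0 (n 1204 z z) (n 0 z (n 0 z z)))))) (n 1 z z))))))))) (n 0 z (n 0 z (n 0 z (n 0 z (n 0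
 z (n 0 z z)))))))))))))) (n 167 (n 0 z (n 0 z (n 0 z (n 0 z (n 0 z (n 0 z (n 0 z (n 0 z (n 0 z
 (n 0 z (n 0 z (n 0 z (n 0 z (n 0 z z)))))))))))))) (n 1385 (n 0 z (n 0 z (n 0 z (n 0 z (n 0 z
 (n 0 z (n 0 z (n 0 z (n 0 z (n 0 z (n 0 z (n 0 z (n 0 z (n 0 z (n 0 z z))))))))))))))) (n 165
 (n 0 z (n 0 z (n 0 z (n 0 z (n 0 z (n 0 z (n 0 z (n 0 z (n 0 z (n 0 z (n 0 z (n 0 z (n 2 (n 0 z
 (n 2 (n 0 z (n 0 z (n 0 z (n 0 z (n 0 z (n 0 z z)))))) (n 2 (n 0 z (n 0 z (n 0 z (n 0 z (n 0 z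
 (n 0 z z)))))) (n 1 z (n 2 (n 0 z (n 0 z (n 0 z (n 0 z (n 0 z (n 0 z z)))))) (n 1 z z)))))) (n
 0 z (n 0 z z))))))))))))))) (n 165 (n 0 z (n 0 z (n 0 z (n 0 z (n 0 z (n 0 z (n 0 z (n 0 z (n 0
 z (n 0 z (n 0 z (n 0 z (n 0 z (n 0 z (n 0 z z))))))))))))))) (n 303 (n 0 z (n 0 z (n 0 z (n 0 z
 (n 0 z (n 0 z (n 0 z (n 0 z (n 0 z (n 0 z (n 0 z (n 0 z (n 0 z (n 0 z (n 0 z z)))))))))))))))
 (n 303 (n 0 z (n 0 z (n 0 z (n 0 z (n 0 z (n 0 z (n 0 z (n 0 z (n 0 z (n 0 z (n 0 z (n 0 z (n 0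
 z (n 0 z (n 0 z z))))))))))))))) (n 303 (n 0 z (n 0 z (n 0 z (n 0 z (n 0 z (n 0 z (n 0 z (n 0 z
 (n 0 z (n 0 z (n 0 z (n 0 z (n 0 z (n 0 z (n 0 z z))))))))))))))) (n 301 (n 0 z (n 0 z (n 0 z
 (n 0 z (n 0 z (n 0 z (n 0 z (n 2 (n 0 z z) (n 0 z (n 0 z (n 0 z (n 0 z (n 0 z (n 0 z
 z)))))))))))))) (n 301 (n 0 z (n 0 z (n 0 z (n 0 z (n 0 z (n 0 z (n 0 z (n 0 z (n 0 z (n 0 z (n
 0 z (n 0 z (n 0 z (n 0 z z)))))))))))))) z))))))))))) (n 0 (n 227 (n 0 z (n 0 z (n 0 z (n 0 z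
 (n 0 z (n 0 z z)))))) (n 227 (n 0 z (n 0 z (n 0 z (n 0 z (n 0 z (n 2 (n 1 z (n 2 (n 0 (n
 6621243 z z) (n 0 z (n 0 z (n 0 (n 932 z (n 7669819 z z)) (n 0 z (n 0 (n 932 z z) z)))))) (n 2
 (n 0 (n 8855891 z z) (n 0 z (n 0 (n 8855891 z z) (n 0 (n 8855891 z (n 8855891 z z)) (n 0 z (n 0
 z z)))))) (n 2 (n 0 (n 548 z (n 7743579 z z)) (n 0 (n 6621259 z (n 6621259 z z)) (n 0 z (n 0 z
 (n 0 z (n 0 (n 548 z (n 7669835 z z)) z)))))) (n 2 (n 0 z (n 0 (n 548 z z) (n 0 z (n 0 (n 548 z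
 (n 548 z z)) (n 0 z (n 0 (n 548 z z) z)))))) (n 1 z (n 2 (n 0 z (n 0 z (n 0 z (n 0 z (n 0 z (n
 0 z z)))))) (n 2 (n 0 (n 6359131 z z) (n 0 z (n 0 (n 3278971 z z) (n 0 (n 3278971 z (n 3278971
 z z)) (n 0 z (n 0 z z)))))) z)))))))) z)))))) (n 225 (n 0 z (n 0 z (n 0 z (n 0 z (n 0 z (n 0 z
 (n 0 z (n 2 (n 2 (n 0 z (n 0 z (n 0 (n 932 z z) (n 0 (n 932 z (n 932 z z)) (n 0 z (n 0 z
 z)))))) (n 1 z (n 2 (n 0 (n 8456027 z (n 548 z z)) (n 0 (n 6621259 z (n 6621259 z z)) (n 0 (n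
 548 z (n 7669835 z z)) (n 0 (n 548 z (n 7669835 z z)) (n 0 z (n 0 z z)))))) (n 2 (n 0 z (n 0 z
 (n 0 (n 548 z z) (n 0 (n 548 z (n 548 z z)) (n 0 z (n 0 z z)))))) (n 1 z (n 2 (n 0 z (n 0 z (n
 0 z (n 0 z (n 0 z (n 0 z z)))))) (n 1 z z))))))) (n 0 z z))))))))) (n 233 (n 0 z (n 0 z (n 0 z
 (n 0 z (n 0 z (n 0 z (n 0 z (n 0 z (n 0 z (n 0 z (n 0 z z))))))))))) (n 233 (n 0 z (n 0 z (n 0
 z (n 0 z (n 0 z (n 0 z (n 0 z (n 0 z (n 0 z (n 0 z (n 2 (n 2 (n 0 (n 548 z (n 7743579 z z)) (n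
 0 (n 6621259 z (n 6621259 z z)) (n 0 z (n 0 z (n 0 z (n 0 (n 548 z (n 7669835 z z)) z)))))) (n
 2 (n 0 z (n 0 (n 548 z z) (n 0 z (n 0 (n 548 z (n 548 z z)) (n 0 z (n 0 (n 548 z z) z)))))) (n
 1 z (n 2 (n 0 z (n 0 z (n 0 z (n 0 z (n 0 z (n 0 z z)))))) (n 2 (n 0 (n 8868883 z z) (n 0 z (n
 0 (n 8868883 z z) (n 0 (n 8868883 z (n 8868883 z z)) (n 0 z (n 0 z z)))))) z))))) z)))))))))))
 (n 137 (n 0 z (n 0 z (n 0 z (n 0 z (n 0 z (n 0 z (n 0 z z))))))) (n 137 (n 0 z (n 0 z (n 0 z (n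
 0 z (n 0 z (n 0 z (n 0 z z))))))) (n 137 (n 0 z (n 0 z (n 0 z (n 0 z (n 0 z (n 2 (n 2 (n 0 z (n
 0 z (n 0 z (n 0 z (n 0 z (n 0 z z)))))) (n 1 z z)) (n 0 z z))))))) (n 125 (n 0 z (n 0 z (n 2 (n
 0 z z) (n 0 z (n 0 z (n 0 z (n 0 z z))))))) (n 125 (n 0 z (n 0 z (n 0 z (n 0 z (n 0 z (n 2 z (n
 0 z z))))))) z)))))))))) (n 0 (n 0 z (n 423 (n 0 z (n 0 z (n 0 z (n 0 z (n 0 z (n 0 z (n 0 z (n
 0 z (n 0 z (n 0 z (n 2 (n 1 z (n 1 z (n 2 (n 0 z (n 0 (n 8728675 z z) (n 0 z (n 0 (n 7669835 z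
 (n 8728947 z z)) (n 0 z (n 0 (n 204 z z) z)))))) (n 2 (n 0 z (n 0 z (n 0 z (n 0 z (n 0 z (n 0 z
 z)))))) (n 1 z (n 2 (n 0 z (n 0 z (n 0 z (n 0 z (n 0 z (n 0 z z)))))) (n 1 z z))))))) (n 0 z
 z)))))))))))) (n 421 (n 0 z (n 0 z (n 0 z (n 0 z (n 0 z (n 0 z (n 0 z (n 0 z (n 0 z (n 0 z (n 0
 z (n 0 z z)))))))))))) (n 421 (n 0 z (n 0 z (n 0 z (n 0 z (n 0 z (n 2 (n 2 (n 0 z (n 0 z (n 0 z
 (n 0 z (n 0 z (n 0 z z)))))) (n 2 (n 0 z (n 0 z (n 0 z (n 0 z (n 0 z (n 0 z z)))))) (n 1 z (n 2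
 (n 0 z (n 0 z (n 0 z (n 0 z (n 0 z (n 0 z z)))))) (n 1 z z))))) (n 0 z (n 0 z (n 0 z (n 0 z (n
 0 z (n 0 z z)))))))))))) (n 51 (n 0 z (n 0 z (n 0 z (n 0 z (n 0 z (n 0 z (n 0 z (n 0 z (n 0 z
 z))))))))) (n 51 (n 0 z (n 0 z (n 0 z (n 2 (n 0 z (n 1 z (n 2 (n 0 z (n 0 z (n 0 z (n 0 z (n 0
 z (n 0 z z)))))) z))) (n 0 z (n 0 z (n 0 z (n 0 z (n 0 z z))))))))) (n 51 (n 0 z (n 0 z (n 0 z
 (n 0 z (n 0 z (n 0 z (n 0 z (n 0 z (n 2 (n 2 (n 0 z (n 0 z (n 0 z (n 0 z (n 0 z (n 0 z z))))))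
 (n 1 z z)) z))))))))) (n 49 (n 0 z (n 0 z (n 0 z (n 0 z (n 0 z (n 0 z (n 0 z (n 0 z (n 2 (n 0 z
 z) (n 0 z (n 0 z (n 0 z (n 0 z (n 0 z (n 0 z (n 0 z (n 0 z (n 0 z (n 0 z (n 0 z (n 0 z (n 0 z
 (n 0 z (n 0 z (n 0 z (n 0 z (n 0 z z))))))))))))))))))))))))))) (n 49 (n 0 z (n 0 z (n 0 z (n 0
 z (n 0 z (n 0 z (n 0 z (n 0 z (n 0 z (n 2 z (n 0 z (n 0 z (n 0 z (n 0 z (n 0 z (n 0 z (n 0 z (n
 0 z (n 0 z (n 0 z (n 0 z (n 0 z (n 0 z (n 0 z (n 0 z (n 0 z (n 0 z z)))))))))))))))))))))))))))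
 z))))))))) (n 0 (n 921 (n 0 z (n 0 z (n 0 z (n 0 z z)))) (n 487 (n 2 (n 0 z (n 2 (n 0 z (n 0 z
 (n 0 z (n 0 z (n 0 z (n 0 z z)))))) (n 2 (n 0 z (n 0 z (n 0 z (n 0 z (n 0 z (n 0 z z)))))) (n 1
 z (n 2 (n 0 z (n 0 z (n 0 z (n 0 z (n 0 z (n 0 z z)))))) (n 2 (n 0 z (n 0 z (n 0 z (n 0 z (n 0
 z (n 0 z z)))))) z)))))) (n 0 z (n 0 z (n 0 z (n 0 z z))))) (n 487 (n 0 z (n 0 z (n 0 z (n 0 z
 (n 0 z z))))) (n 63 (n 0 z (n 0 z (n 0 z (n 0 z (n 0 z (n 0 z z)))))) (n 63 (n 0 z (n 0 z (n 0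
 z (n 0 z (n 0 z (n 0 z z)))))) (n 63 (n 0 z (n 0 z (n 0 z (n 0 z (n 0 z (n 0 z z)))))) (n 65 (n
 2 (n 0 z z) (n 0 z (n 0 z (n 0 z (n 0 z (n 0 z (n 0 z z))))))) (n 65 (n 0 z (n 0 z (n 0 z (n 0
 z (n 0 z (n 0 z (n 0 z z))))))) z)))))))) (n 0 (n 27 (n 2 (n 0 z (n 2 (n 0 z (n 0 z (n 0 z (n 0
 (n 84 z (n 84 z z)) (n 0 (n 84 z z) (n 0 (n 8728931 z z) z)))))) (n 2 (n 0 z (n 0 z (n 0 z (n 0
 z (n 0 z (n 0 z z)))))) (n 1 z (n 2 (n 0 z (n 0 z (n 0 z (n 0 z (n 0 z (n 0 z z)))))) (n 1 z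
 z)))))) (n 0 z (n 0 z (n 0 z (n 0 z (n 0 z (n 0 z (n 0 z z)))))))) (n 27 (n 0 z (n 0 z (n 0 z
 (n 0 z (n 0 z (n 0 z (n 0 z (n 0 z z)))))))) (n 21 (n 0 z (n 0 z (n 0 z (n 0 z (n 0 z (n 0 z
 z)))))) (n 21 (n 0 z (n 0 z (n 0 z (n 0 z (n 0 z (n 0 z z)))))) (n 21 (n 0 z (n 0 z (n 0 z (n 0
 z (n 0 z (n 0 z z)))))) (n 17 (n 0 z (n 2 (n 0 z z) (n 0 z (n 0 z (n 0 z (n 0 z (n 0 z (n 0 z
 (n 0 z (n 0 z (n 0 z z))))))))))) (n 17 (n 0 z (n 0 z (n 0 z (n 0 z (n 0 z (n 0 z (n 0 z (n 0 z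
 (n 0 z (n 0 z (n 0 z z))))))))))) z))))))) (n 0 (n 0 z (n 51 (n 0 z (n 2 (n 0 z (n 0 z (n 2 (n
 0 z (n 0 z (n 0 z (n 0 z (n 0 z (n 0 z z)))))) (n 2 (n 0 z (n 0 (n 6359131 z z) (n 0 z (n 0 (n
 8718155 z (n 196 z z)) (n 0 z (n 0 (n 8717883 z z) z)))))) z)))) (n 0 z (n 0 z (n 0 z (n 0 z (n
 0 z (n 0 z (n 0 z z))))))))) (n 51 (n 0 z (n 0 z (n 0 z (n 0 z (n 0 z (n 0 z (n 0 z (n 0 z (n 0
 z z))))))))) (n 51 (n 0 z (n 0 z (n 0 z (n 0 z (n 0 z (n 0 z (n 0 z (n 0 z (n 0 z z))))))))) (n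
 49 (n 2 (n 0 z z) (n 0 z (n 0 z (n 0 z (n 0 z (n 0 z z)))))) (n 49 (n 0 z (n 0 z (n 2 z (n 0 z
 (n 0 z (n 0 z z)))))) z)))))) (n 0 (n 51 (n 0 z (n 0 z (n 0 z (n 0 z z)))) (n 51 (n 0 z (n 0 z
 (n 0 z (n 0 z z)))) (n 51 (n 0 z (n 0 z (n 0 z (n 0 z z)))) (n 53 (n 2 (n 0 z z) (n 0 z (n 0 z
 (n 0 z (n 0 z (n 0 z (n 0 z z))))))) (n 53 (n 0 z (n 0 z (n 0 z (n 0 z (n 0 z (n 0 z (n 0 z
 z))))))) z))))) (n 0 (n 0 z (n 0 z (n 1 (n 0 z (n 0 z (n 0 z (n 0 z (n 0 z (n 0 z z)))))) (n 1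
 (n 0 z (n 0 z (n 0 z (n 0 z (n 0 z (n 0 z z)))))) z)))) (n 0 (n 0 z (n 25 (n 0 z (n 0 z (n 0 z
 (n 0 z (n 0 z (n 0 z (n 0 z (n 0 z (n 0 z (n 0 z (n 0 z (n 0 z (n 0 z (n 0 z (n 0 z (n 0 z (n 0
 z (n 0 z (n 0 z (n 0 z (n 0 z (n 0 z (n 0 z (n 0 z (n 0 z (n 0 z (n 0 z (n 0 z (n 0 z (n 0 z (n
 0 z (n 0 z (n 0 z z))))))))))))))))))))))))))))))))) (n 25 (n 0 z (n 0 z (n 0 z (n 0 z (n 0 z
 (n 0 z (n 0 z (n 0 z (n 0 z (n 0 z (n 0 z (n 0 z (n 0 z (n 0 z (n 0 z (n 0 z (n 0 z (n 0 z (n 0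
 z (n 0 z (n 0 z (n 0 z (n 0 z (n 0 z (n 0 z (n 0 z (n 0 z (n 0 z (n 0 z (n 0 z (n 0 z (n 0 z (n
 0 z z))))))))))))))))))))))))))))))))) z))) (n 0 (n 1 (n 0 z (n 2 (n 0 z z) (n 0 z (n 0 z (n 0
 z (n 0 z (n 0 z (n 0 z (n 0 z z))))))))) (n 1 (n 0 z (n 0 z (n 0 z (n 0 z (n 0 z (n 0 z (n 0 z
 (n 0 z (n 0 z z))))))))) z)) (n 0 (n 0 z z) (n 0 z z))))))))))))) (n 0 (n 1 (n 5548 z (n 5548 z
 (n 5548 z (n 5548 z (n 5548 z (n 5548 z z)))))) (n 1 (n 2164283 z (n 2164283 z (n 2164283 z (n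
 2164283 z (n 2164283 z (n 2164283 z z)))))) (n 0 z (n 1 (n 5548 z (n 3212891 z (n 5548 z (n
 5548 z (n 5548 z (n 2 z z)))))) z)))) (n 0 (n 0x4132cd68a611a5194034c540 (n 0 (n 0 (n 7754771 z
 (n 7754771 z (n 7754771 z (n 7754771 z (n 7754771 z (n 7754771 z z)))))) z) (n 0 (n 693 (n 1 (n
 3282699 z (n 3282699 z (n 3282699 z (n 3282699 z (n 3282699 z (n 7680355 z z)))))) (n 0 z (n 0
 z (n 0 z (n 0 z (n 0 z (n 0 z (n 1 (n 7668251 z (n 7668251 z (n 7668251 z (n 7668251 z (n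
 7668251 z (n 7680355 z z)))))) (n 0 z (n 0 z (n 1 (n 2 z (n 668 z (n 668 z (n 668 z (n 7407195
 z (n 7680355 z z)))))) (n 1 (n 7754771 z (n 7754771 z (n 7754771 z (n 7754771 z (n 7754771 z (n
 7754771 z z)))))) (n 1 (n 7407195 z (n 668 z (n 668 z (n 668 z (n 10 z (n 7680355 z z)))))) (n
 0 z z)))))))))))))) (n 460 (n 1 (n 1628 z (n 5447795 z (n 18 z (n 1628 z (n 5375803 z (n 1628 z
 z)))))) (n 1 (n 7741779 z (n 7741779 z (n 7741779 z (n 7741779 z (n 7741779 z (n 7741779 z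
 z)))))) (n 0 z (n 1 (n 7741779 z (n 7741779 z (n 7741779 z (n 7741779 z (n 7741779 z (n 7741779
 z z)))))) z)))) (n 461 (n 1 (n 5548 z (n 5443699 z (n 5310267 z (n 5548 z (n 76 z (n 7754771 z
 z)))))) (n 1 (n 7741779 z (n 7741779 z (n 7741779 z (n 7741779 z (n 7741779 z (n 7754771 z
 z)))))) (n 0 z (n 1 (n 7741779 z (n 7741779 z (n 7741779 z (n 7741779 z (n 7741779 z (n 7754771
 z z)))))) z)))) (n 27 (n 1 (n 3596 z (n 7407195 z (n 204 z (n 3596 z (n 3596 z (n 7680355 z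
 z)))))) (n 1 (n 2164539 z (n 2164539 z (n 2164539 z (n 2164539 z (n 2164539 z (n 7680355 z
 z)))))) (n 0 z (n 1 (n 7754771 z (n 7754771 z (n 7754771 z (n 7754771 z (n 7754771 z (n 7754771
 z z)))))) z)))) (n 27 (n 0 z (n 1 (n 7680355 z (n 7680355 z (n 7680355 z (n 7680355 z (n
 7680355 z (n 7680355 z z)))))) (n 1 (n 7754771 z (n 7754771 z (n 7754771 z (n 7754771 z (n
 7754771 z (n 7754771 z z)))))) (n 1 (n 1228 z (n 5449483 z (n 12 z (n 1228 z (n 1228 z (n 1228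
 z z)))))) z)))) (n 0 (n 0 z (n 0 z (n 0 z (n 1 (n 1244 z (n 26 z (n 1244 z (n 1244 z (n 1244 z
 (n 7680355 z z)))))) (n 1 (n 7754771 z (n 7754771 z (n 7754771 z (n 7754771 z (n 7754771 z (n
 7754771 z z)))))) (n 1 (n 7754771 z (n 7754771 z (n 7754771 z (n 7754771 z (n 7754771 z (n
 7754771 z z)))))) z)))))) (n 27 (n 1 (n 5548 z (n 5548 z (n 5548 z (n 5548 z (n 5548 z (n 5548
 z z)))))) (n 1 (n 2164539 z (n 2164539 z (n 2164539 z (n 2164539 z (n 2164539 z (n 2164539 z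
 z)))))) (n 0 z (n 1 (n 7754771 z (n 7754771 z (n 7754771 z (n 7754771 z (n 7754771 z (n 7754771
 z z)))))) z)))) z))))))) (n 0 (n 0 (n 0 z (n 0 z (n 0 z (n 0 z z)))) (n 0 (n 0 z (n 0 z (n 0 z
 z))) (n 0 (n 0 z (n 0 z z)) (n 0 (n 0 z z) z)))) (n 0 (n 203 (n 0 (n 0 z (n 0 z (n 0 z (n 0 z
 z)))) (n 0 (n 0 z (n 0 z (n 0 z (n 0 z z)))) (n 0 (n 0 z (n 0 z (n 0 z (n 0 z z)))) (n 0 (n 0 z
 (n 0 z (n 0 z (n 0 z z)))) (n 0 (n 0 (n 7615107 z (n 8455771 z z)) (n 0 (n 7615107 z (n 8455771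
 z z)) (n 0 z (n 0 z z)))) (n 0 (n 0 z (n 0 z (n 0 z (n 0 z z)))) (n 0 (n 0 (n
 0x2ec50c2a077df8a27e28a182089e89e82085d82282181f86185f82186279f86185f7df7e07e081e8618200801 z
 (n 0x2ec50c2a0781f86082082082082082082082082082082082085f82086082082082081f8207e082081f8200801
 z z)) (n 0 (n
 0x2ec50c2a0782082082082082082085f7e082082082082082186082086082082082081f7e082082086085f0801 z
 (n
 0x21ec3a83f287582991b7529465a981c7617f07ec862706a147925a59a065579384187884565b7009798d798f8758d985366f90f920a5a5fab076b78b85015bd8328a07ad89d75f976864a5b90d7de7947bc0091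
 z z)) (n 0 z (n 0 z z)))) (n 0 (n 0 z (n 0 z (n 0 z (n 0 z z)))) (n 0 (n 0 z (n 0 z (n 0 z (n 0
 z z)))) (n 0 (n 0 z (n 0 z (n 0 (n 8867891 z (n 8867891 z z)) (n 0 z z)))) (n 0 (n 0 z (n 0 z
 (n 0 (n 8867891 z z) (n 0 z z)))) (n 0 (n 0 z (n 0 z (n 0 z (n 0 z z)))) (n 0 (n 0 z (n 0 z (n
 0 z (n 0 z z)))) (n 0 (n 0 z (n 0 z (n 0 z (n 0 z z)))) z)))))))))))))) (n 693 (n 0 (n 0 z (n 0
 z (n 0 z (n 0 z z)))) (n 0 (n 0 (n 8873243 z (n 8873243 z z)) (n 0 (n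
 0x6d8637f280a7f38157fa8067e77f37ed81680a7fc8057ef8057f68077f181c81a7f27f27f281380180280f7f57ec8038157f37d581d80a8127f07f57ec80d8138137ff80780e8037fc8157f67fc0051
 z (n 0x358636656ab7634d95ab95e8988db8d8bad65966a860a1a5a2adb2af96961b5a6aa88249e17ab71e0041 z
 z)) (n 0 z (n 0 z z)))) (n 0 (n 0 z (n 0 z (n 0 z (n 0 z z)))) (n 0 (n 0 z (n 0 z (n 0 z (n 0 z
 z)))) (n 0 (n 0 (n
 0x21ec3a03f287482991b7529465a981c7617f07ec862706a147925a59a065579384187884565b7009798d798f8758d985366f90f920a5a5fab076b78b85015bd8328a07ad89d75f976864a5b90d7de7947bc0091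
 z z) (n 0 (n 8873275 z z) (n 0 z (n 0 z z)))) (n 0 (n 0 z (n 0 z (n 0 z (n 0 z z)))) (n 0 (n 0
 z (n 0 z (n 0 (n 8867891 z (n 8867891 z z)) (n 0 z z)))) (n 0 (n 0 (n 8455771 z (n 8455771 z
 z)) (n 0 (n 8455771 z (n 8455771 z z)) (n 0 z (n 0 z z)))) (n 0 (n 0 z (n 0 z (n 0 z (n 0 z
 z)))) (n 0 (n 0 (n
 0xd0caeca2077df7a57269a481b7a59959de5da76865b6e2a1d8de8648e562a66969876385a7a556592085d0801 z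
 (n 0x30caeca20781f8608208208208208608208208208207e08208208208208208208208208208208208208200801
 z z)) (n 0 (n 8869403 z (n 8869403 z z)) (n 0 z (n 0 z z)))) (n 0 (n 0 z (n 0 z (n 0 z (n 0 z
 z)))) (n 0 (n 0 z (n 0 z (n 0 (n 8867891 z z) (n 0 z z)))) (n 0 (n 0 z (n 0 z (n 0 z (n 0 z
 z)))) (n 0 (n 0 (n
 0x30caeca2078208a17e085f82081f82082082082182082081f85f8208608208208208207e08207e08208200801 z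
 z) (n 0 (n
 0x30caeca2078208607e081f82082082082082082081f82082085f8208608208208208208208208208208200801 z
 z) (n 0 z (n 0 z z)))) (n 0 (n 0 z (n 0 z (n 0 z (n 0 z z)))) z))))))))))))))) (n 461 (n 0 (n 0
 (n 7669819 z z) (n 0 (n 8873275 z z) (n 0 z (n 0 z z)))) (n 0 (n 0 z (n 0 z (n 0 z (n 0 z z))))
 (n 0 (n 0 z (n 0 z (n 0 z (n 0 z z)))) (n 0 (n 0 z (n 0 z (n 0 z (n 0 z z)))) z)))) (n 449 (n 0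
 (n 0 z (n 0 z (n 0 z (n 0 z z)))) (n 0 (n 0 (n 8455771 z (n 8455771 z z)) (n 0 (n 8455771 z (n
 8455771 z z)) (n 0 z (n 0 z z)))) (n 0 (n 0 z (n 0 z (n 0 z (n 0 z z)))) (n 0 (n 0 z (n 0 z (n
 0 z (n 0 z z)))) (n 0 (n 0 (n 8853067 z z) (n 0 (n
 0x30caeca2078208a17e085f82081f82082082082182082081f85f8208608208208208207e08207e08208200801 z
 z) (n 0 z (n 0 z z)))) (n 0 (n 0 z (n 0 z (n 0 z (n 0 z z)))) (n 0 (n 0 z (n 0 z (n 0 (n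
 7612523 z (n
 0x158748208617e082082085f86082085f82182081f81f85f8608207a08218208208228208208218200041 z z)) (n
 0 z z)))) (n 0 (n 0 (n
 0x558527f58087f68117fb8057ec7f57f08118097fd8047f28047f88057f48178157f67f57f580f80180180d7f87f08038117f67dd81780880e7f37f87f080a81080f7ff80680b8027fd8117f87fc0051
 z (n 0x458525e662f7243d84eea1e8d58da956cb05d75ed862a994e2b981739ec5594a8b6c825a2276e65d0041 z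
 z)) (n 0 (n 8869403 z (n 8869403 z z)) (n 0 z (n 0 z z)))) (n 0 (n 0 z (n 0 z (n 0 z (n 0 z
 z)))) (n 0 (n 0 (n 8873243 z (n 8873243 z z)) (n 0 (n
 0x200d04e36a8208a082086086081f82082081f8208208207df85f8208207a08228208218208607a08207e00801 z
 (n 0x30caeca20781f8608208208208208608208208208207e08208208208208208208208208208208208208200801
 z z)) (n 0 z (n 0 z z)))) (n 0 (n 0 z (n 0 z (n 0 z (n 0 z z)))) (n 0 (n 0 z (n 0 z (n 0 (n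
 0x30c4ec2a078208607e081f8208208208208208208208208208608208208208208208208208208208208200801 z
 z) (n 0 z z)))) (n 0 (n 0 z (n 0 z (n 0 z (n 0 z z)))) (n 0 (n 0 (n
 0x30caeca2078208607e081f82082082082082082081f82082085f8208608208208208208208208208208200801 z
 z) (n 0 (n
 0x30caeca2078208607e081f82082082082082082082082082085f8208208208208208208208208208208200801 z
 z) (n 0 z (n 0 z z)))) (n 0 (n 0 z (n 0 z (n 0 z (n 0 z z)))) z))))))))))))))) (n 249 (n 0 (n 0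
 z (n 0 z (n 0 z (n 0 z z)))) (n 0 (n 0 z (n 0 z (n 0 z (n 0 z z)))) (n 0 (n 0 z (n 0 z (n 0 z
 (n 0 z z)))) (n 0 (n 0 z (n 0 z (n 0 z (n 0 z z)))) (n 0 (n 0 z (n 0 z (n 0 z (n 0 z z))))
 z))))) (n 15 (n 0 (n 0 (n 7669819 z z) (n 0 (n
 0x30caeca2078208607e081f82082082082082082082082082085f8208208208208208208208208208208200801 z
 z) (n 0 z (n 0 z z)))) (n 0 (n 0 z (n 0 z (n 0 z (n 0 (n 8728931 z z) z)))) (n 0 (n 0 z (n 0 z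
 (n 0 z (n 0 z z)))) (n 0 (n 0 (n
 0x30caeca2078208207e082082082086082082082082082082086082082082082182082082082181f8208200801 z
 (n 0x858748695ee35c62772a5ad8cabd06288a339aa669aa8e07dfae94b385d3569a472e59d87499b7600041 z z))
 (n 0 (n 7755851 z (n
 0x30caeca2078208208208208208208608208208208208208208208208208208208208208208208208208200801 z
 z)) (n 0 z (n 0 z z)))) (n 0 (n 0 (n 8853067 z (n 8853067 z z)) (n 0 (n 7407675 z (n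
 0x10caeca2077df86182186082085e85f82085f7e18207e082085f8208217e08218208207e08207e08208200801 z
 z)) (n 0 z (n 0 z z)))) (n 0 (n 0 (n 8853067 z z) (n 0 (n
 0x30caeca2078208a17e085f82081f82082082082182082081f85f8208608208208208207e08207e08208200801 z
 z) (n 0 z (n 0 z z)))) (n 0 (n 0 z (n 0 z (n 0 z (n 0 z z)))) (n 0 (n 0 (n 8790355 z z) (n 0 (n
 8790355 z z) (n 0 z (n 0 z z)))) z)))))))) (n 153 (n 0 (n 0 z (n 0 z (n 0 z (n 0 z z)))) (n 0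
 (n 0 (n
 0x6d8527f280a7f38157fa8067e77f37ed81680a7fc8057ef8057f68077f181c81a7f27f27f281380180280f7f57ec8038157f37d581d80a8127f07f57ec80d8138137ff80780e8037fc8157f67fc0051
 z (n
 0x6d8527f280a7f38157fa8067e77f37ed81680a7fc8057ef8057f68077f181c81a7f27f27f281380180280f7f57ec8038157f37d581d80a8127f07f57ec80d8138137ff80780e8037fc8157f67fc0051
 z z)) (n 0 (n 8869403 z (n 8869403 z z)) (n 0 z (n 0 z z)))) (n 0 (n 0 z (n 0 z (n 0 z (n 0 z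
 z)))) (n 0 (n 0 z (n 0 z (n 0 z (n 0 z z)))) (n 0 (n 0 (n 8716827 z z) (n 0 (n 8716827 z z) (n
 0 z (n 0 z z)))) (n 0 (n 0 z (n 0 z (n 0 z (n 0 z z)))) (n 0 (n 0 z (n 0 z (n 0 (n 8718139 z (n
 0x5586392f6ed5593d28d75e25ceea539ec6921746daa08d2971a1533b36365581fbaaa2776ca6a8df0041 z z)) (n
 0 z z)))) (n 0 (n 0 (n 8873243 z (n 8873243 z z)) (n 0 (n
 0x6d8637f280a7f38157fa8067e77f37ed81680a7fc8057ef8057f68077f181c81a7f27f27f281380180280f7f57ec8038157f37d581d80a8127f07f57ec80d8138137ff80780e8037fc8157f67fc0051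
 z (n
 0x558637f58087f68117fb8057ec7f67f18118097fd8047f38047f88057f48178147f57f57f580f80180280c7f77f08038117f67de81780980e7f37f87f080a80f80f7ff80680b8027fd8117f87fc0051
 z z)) (n 0 z (n 0 z z)))) (n 0 (n 0 z (n 0 z (n 0 z (n 0 z z)))) (n 0 (n 0 (n 8455771 z (n
 8455771 z z)) (n 0 (n 8455771 z (n 8455771 z z)) (n 0 z (n 0 z z)))) (n 0 (n 0 z (n 0 z (n 0 z
 (n 0 z z)))) (n 0 (n 0 z (n 0 z (n 0 (n 8718139 z z) (n 0 z z)))) (n 0 (n 0 z (n 0 z (n 0 z (n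
 0 z z)))) (n 0 (n 0 (n
 0x30caeca2078208607e081f82082082082082082082082082085f8208208208208208208208208208208200801 z
 z) (n 0 (n
 0x30caeca2078208a17e085f82081f82082082082182082081f85f8208608208208208207e08207e08208200801 z
 z) (n 0 z (n 0 z z)))) (n 0 (n 0 z (n 0 z (n 0 z (n 0 z z)))) z))))))))))))))) (n 33 (n 0 (n 0
 z (n 0 z (n 0 z (n 0 z z)))) (n 0 (n 0 (n 7669819 z z) (n 0 (n 8873275 z z) (n 0 z (n 0 z z))))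
 (n 0 (n 0 z (n 0 z (n 0 z (n 0 z z)))) (n 0 (n 0 z (n 0 z (n 0 (n 8860939 z (n 8860939 z z)) (n
 0 (n
 0x1862860501810cb0ca4037e18207e081f8208207df8218608208208207e182082082182081f8218208208208208208201001
 z (n 0x5587092f6ed5593d28d75e25ceea539ec6921746daa08d2971a1533b36365581fbaaa2776ca6a8df0041 z
 z)) z)))) (n 0 (n 0 z (n 0 z (n 0 z (n 0 z z)))) (n 0 (n 0 (n 8790355 z z) (n 0 (n 8790355 z z)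
 (n 0 z (n 0 z z)))) z)))))) (n 11 (n 0 (n 0 z (n 0 z (n 0 (n 8803347 z (n 8803347 z z)) (n 0 (n
 8803347 z (n 8803347 z z)) z)))) (n 0 (n 0 (n 8803347 z (n 8803347 z z)) (n 0 (n 8803347 z (n
 8803347 z z)) (n 0 z (n 0 z z)))) (n 0 (n 0 z (n 0 z (n 0 z (n 0 z z)))) (n 0 (n 0 (n
 0x10caca02077df86182186082085e85f82085f7e18207e082085f8208217e08218208207e08207e08208200801 z
 (n 0x30caeca2078208208208208208208608208208208208208208208208208208208208208208208208208200801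
 z z)) (n 0 (n 8873275 z (n 8873275 z z)) (n 0 z (n 0 (n 8587035 z z) z)))) (n 0 (n 0 z (n 0 z
 (n 0 z (n 0 z z)))) (n 0 (n 0 (n 8790355 z z) (n 0 (n 8790355 z z) (n 0 z (n 0 z z)))) z))))))
 (n 27 (n 0 (n 0 (n 7669819 z z) (n 0 (n
 0x30caeca2078208607e081f82082082082082082082082082085f8208208208208208208208208208208200801 z
 z) (n 0 z (n 0 z z)))) (n 0 (n 0 z (n 0 z (n 0 z (n 0 z z)))) (n 0 (n 0 (n 8803347 z (n 8803347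
 z z)) (n 0 (n 8803347 z (n 8803347 z z)) (n 0 z (n 0 z z)))) (n 0 (n 0 z (n 0 z (n 0 z (n 0 z
 z)))) z)))) (n 155 (n 0 (n 0 z (n 0 z (n 0 z (n 0 z z)))) (n 0 (n 0 z (n 0 z (n 0 z (n 0 z
 z)))) (n 0 (n 0 z (n 0 z (n 0 z (n 0 z z)))) (n 0 (n 0 z (n 0 z (n 0 z (n 0 z z)))) (n 0 (n 0
 (n 7615107 z (n
 0x858328695ee35c62772a5ad8cabd06288a339aa669aa8e07dfae94b385d3569a472e59d87499b7600041 z z)) (n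
 0 (n 7615107 z (n 8869403 z z)) (n 0 z (n 0 z z)))) (n 0 (n 0 z (n 0 z (n 0 z (n 0 z z)))) (n 0
 (n 0 (n
 0x30caec62077e08207e182082082081f81f82082082082086086082082081f8208208207e082081f8208200801 z
 (n
 0x1b2c3b03228768218e27759046208167817f47f084f7389aa7a861d94d6ab7a98348608386af73392e8ad93f85e8ae8426bf8d98e69e2662a6c6f989359a6318288807bd87e77f92b8519e38d77e57a97ca0091
 z z)) (n 0 (n
 0x50caec42038607e185f7e17df7a08e185f7a082182081f81f7de85f85e8608237df86081f82181f8618200801 z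
 (n 0x30caec62077df8e17e185f86081e81f7e181f82182085f7e18a082186179f8208607e07a181f81f8607e00801
 z z)) (n 0 z (n 0 z z)))) (n 0 (n 0 z (n 0 z (n 0 z (n 0 z z)))) (n 0 (n 0 z (n 0 z (n 0 z (n 0
 z z)))) (n 0 (n 0 z (n 0 z (n 0 (n 7612523 z (n
 0x158738208a07e086082081f8207e081f7e182082082085f8228207e082282082082181f8208218200041 z z)) (n
 0 z z)))) (n 0 (n 0 z (n 0 z (n 0 (n
 0x10a4e62c0782082082081f8208208208208208208208208208208208208208208208208218208608208200801 z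
 z) (n 0 z z)))) (n 0 (n 0 z (n 0 z (n 0 z (n 0 z z)))) (n 0 (n 0 z (n 0 z (n 0 z (n 0 z z))))
 (n 0 (n 0 z (n 0 z (n 0 z (n 0 z z)))) z)))))))))))))) (n 33 (n 0 (n 0 z (n 0 z (n 0 z (n 0 z
 z)))) (n 0 (n 0 (n
 0x2e650a2c078208607e081f86082082082082082182086082082082082081f82082081f8218208608208200801 z
 z) (n 0 (n 0xe650a2c030821 z z) (n 0 z (n 0 z z)))) (n 0 (n 0 z (n 0 z (n 0 z (n 0 z z)))) (n 0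
 (n 0 z (n 0 z (n 0 z (n 0 z z)))) (n 0 (n 0 (n
 0x6e650a2c0775f9227a38e186089c91e7a085b7a386085d8638df7a28a376086289f75f72082185e8a18200801 z
 (n 0xe650a2c0781f8608208208208208207e08208218208608208608208207e08208208208218208208618200801 z
 z)) (n 0 (n 4401275 z (n 4401275 z z)) (n 0 z (n 0 z z)))) (n 0 (n 0 z (n 0 z (n 0 z (n 0 z
 z)))) (n 0 (n 0 (n 8728931 z z) (n 0 (n 8728931 z z) (n 0 z (n 0 z z)))) z))))))) (n 9 (n 0 (n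
 0 (n
 0x30caec62078208607e08208208208208208208208208208208608208208208208208208208218208208200801 z
 (n 0x858748695ee35c62772a5ad8cabd06288a339aa669aa8e07dfae94b385d3569a472e59d87499b7600041 z z))
 (n 0 (n
 0x90caec82077a56e77a07a17e26e9757a1c6e39216dc7a692285e8618e37686e361c7e28207a482685f7de0801 z
 (n 0x10caec62070821 z z)) (n 0 z (n 0 z z)))) (n 0 (n 0 z (n 0 z (n 0 z (n 0 z z)))) (n 0 (n 0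
 (n 0x5586392f6ed5593d28d75e25ceea539ec6921746daa08d2971a1533b36365581fbaaa2776ca6a8df0041 z z)
 (n 0 (n 7735339 z z) (n 0 z (n 0 z z)))) (n 0 (n 0 (n
 0x1b2c3a03228748208e27759056218177817f47f084f7389a97a861e94d6ab7a98348608376af73392e8ad94085e8ae8426c08d98e69e3661a6d6f989259a63182787f7be87e77f92b8519e28d77e57aa7c90091
 z z) (n 0 (n
 0x30caec62078208207e081f8208208208208208208208208208608208208208208208208208218208208200801 z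
 z) (n 0 z (n 0 z z)))) (n 0 (n 0 z (n 0 z (n 0 z (n 0 z z)))) (n 0 (n 0 z (n 0 z (n 0 z (n 0 z
 z)))) (n 0 (n 0 (n 7735339 z (n
 0x21ec0803f281082991b7529465a981c7617f07ec862706a147925a59a065579384187884565b7009798d798f8758d985366f90f920a5a5fab076b78b85015bd8328a07ad89d75f976864a5b90d7de7947bc0091
 z z)) (n 0 (n
 0x21ec0803f281082991b7529465a981c7617f07ec862706a147925a59a065579384187884565b7009798d798f8758d985366f90f920a5a5fab076b78b85015bd8328a07ad89d75f976864a5b90d7de7947bc0091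
 z (n
 0x1b2c0803228108218e27749056218177817f37f084f7389aa7a861e94d6aa7a98338608386b073392e8ac94085c8ae8426c08d98e79e2662a6c6f989259b63182787f7bd87e77f92b8509e28d77e57aa7ca0091
 z z)) (n 0 z (n 0 z z)))) (n 0 (n 0 z (n 0 z (n 0 z (n 0 z z)))) (n 0 (n 0 z (n 0 z (n 0 (n
 8803347 z (n 8803347 z z)) (n 0 z z)))) (n 0 (n 0 z (n 0 z (n 0 z (n 0 z z)))) (n 0 (n 0 z (n 0
 z (n 0 z (n 0 z z)))) z))))))))))) (n 27 (n 0 (n 0 z (n 0 z (n 0 z (n 0 z z)))) (n 0 (n 0 z (n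
 0 z (n 0 z (n 0 z z)))) (n 0 (n 0 z (n 0 z (n 0 z (n 0 z z)))) (n 0 (n 0 z (n 0 z (n 0 z (n 0 z
 z)))) (n 0 (n 0 (n
 0xd8748208607e08208208208208208208208208208208608208208208218208208218208208208200041 z (n
 0x158748208a07e086082081f8207e081f7e182082082085f8228207e082282082082181f8208218200041 z z)) (n
 0 (n 0x158748208a07e086082081f8207e081f7e182082082085f8228207e082282082082181f8208218200041 z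
 (n
 0x6d8747f280a7f38157fa8067e77f37ed81680a7fc8057ef8057f68077f181c81a7f27f27f281380180280f7f57ec8038157f37d581d80a8127f07f57ec80d8138137ff80780e8037fc8157f67fc0051
 z z)) (n 0 z (n 0 z z)))) (n 0 (n 0 z (n 0 z (n 0 z (n 0 z z)))) (n 0 (n 0 z (n 0 z (n 0 z (n 0
 z z)))) z))))))) (n 1 (n 0 (n 0 z (n 0 z (n 0 z (n 0 z z)))) (n 0 (n 0 z (n 0 z (n 0 z (n 0 z
 z)))) (n 0 (n 0 z (n 0 z (n 0 z (n 0 z z)))) (n 0 (n 0 z (n 0 z (n 0 z (n 0 z z)))) (n 0 (n 0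
 (n 0x30caec62078208607e081f86082082082082082082086082082082082082081f82081f82181f8a08208200801
 z z) (n 0 (n
 0x30caec620382082082082082082086082082082082082082082082082082082082081f8208208208208200801 z
 z) (n 0 z (n 0 z z)))) (n 0 (n 0 z (n 0 z (n 0 z (n 0 z z)))) (n 0 (n 0 z (n 0 z (n 0 z (n 0 z
 z)))) (n 0 (n 0 z (n 0 z (n 0 z (n 0 z z)))) (n 0 (n 0 z (n 0 z (n 0 z (n 0 z z)))) z)))))))))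
 (n 693 (n 0 (n 0 z (n 0 z (n 0 z (n 0 z z)))) (n 0 (n 0 z (n 0 z (n 0 z (n 0 z z)))) (n 0 (n 0
 z (n 0 z (n 0 z (n 0 z z)))) (n 0 (n 0 z (n 0 z (n 0 z (n 0 z z)))) (n 0 (n 0 (n 7615107 z (n
 8873243 z z)) (n 0 (n 7615107 z (n
 0x858328695ee35c62772a5ad8cabd06288a339aa669aa8e07dfae94b385d3569a472e59d87499b7600041 z z)) (n
 0 z (n 0 z z)))) (n 0 (n 0 z (n 0 z (n 0 z (n 0 z z)))) (n 0 (n 0 (n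
 0x30caea620782082085f8218207e08608207e082181f7e182081f82081f8218227e08a086082081f8618200801 z
 (n 0x30caea82037df8e17e185f86081e81f7e181f82182085f7e18a082186179f8208607e07a181f81f8607e00801
 z z)) (n 0 (n
 0x30caea820379f8607e28a182085e8df82085e7e182081f86185f8208627df8608607df7e17e181e86085f0801 z
 (n 0x30caea820381f86082082082082082082082082082082082085f82086082082082081f8207e082081f8200801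
 z z)) (n 0 z (n 0 z z)))) (n 0 (n 0 z (n 0 z (n 0 z (n 0 z z)))) (n 0 (n 0 z (n 0 z (n 0 z (n 0
 z z)))) (n 0 (n 0 z (n 0 z (n 0 (n 8718139 z (n
 0xd8748208607e08208208208208208208208208208208608208208208218208208218208208208200041 z z)) (n
 0 z z)))) (n 0 (n 0 z (n 0 z (n 0 (n 8718139 z z) (n 0 z z)))) (n 0 (n 0 z (n 0 z (n 0 z (n 0 z
 z)))) (n 0 (n 0 z (n 0 z (n 0 z (n 0 z z)))) (n 0 (n 0 z (n 0 z (n 0 z (n 0 z z))))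
 z)))))))))))))) (n 33 (n 0 (n 0 z (n 0 z (n 0 z (n 0 z z)))) (n 0 (n 0 (n 7669819 z z) (n 0 (n
 8873275 z z) (n 0 z (n 0 z z)))) (n 0 (n 0 (n 4401275 z (n 4401275 z z)) (n 0 (n 8873275 z (n
 8873275 z z)) (n 0 z (n 0 z z)))) (n 0 (n 0 z (n 0 z (n 0 z (n 0 z z)))) (n 0 (n 0 (n 4401275 z
 (n 4401275 z z)) (n 0 (n
 0x2e850c2a0779f8a17e28a082185e89f7e085e7e286081e8228607e18627a08228607df7a182181f8608200801 z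
 (n 0x2e850c2a077df8a07e082082081f82082082082282081f82085f81f8207e08208618208218208208218200801
 z z)) (n 0 z (n 0 z z)))) (n 0 (n 0 z (n 0 z (n 0 z (n 0 z z)))) (n 0 (n 0 (n 8790355 z z) (n 0
 (n 8790355 z z) (n 0 z (n 0 z z)))) z))))))) (n 9 (n 0 (n 0 z (n 0 z (n 0 z (n 0 z z)))) (n 0
 (n 0 z (n 0 z (n 0 z (n 0 z z)))) (n 0 (n 0 z (n 0 z (n 0 (n 8873275 z z) (n 0 z z)))) (n 0 (n
 0 z (n 0 z (n 0 z (n 0 z z)))) (n 0 (n 0 z (n 0 z (n 0 z (n 0 z z)))) (n 0 (n 0 z (n 0 z (n 0 z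
 (n 0 z z)))) z)))))) (n 27 (n 0 (n 0 (n 7669819 z z) (n 0 (n
 0x30caea82038208607e081f82082082082082082081f82082085f8208608208208208208208208208208200801 z
 z) (n 0 z (n 0 z z)))) (n 0 (n 0 z (n 0 z (n 0 z (n 0 z z)))) (n 0 (n 0 z (n 0 z (n 0 z (n 0 z
 z)))) (n 0 (n 0 z (n 0 z (n 0 z (n 0 z z)))) z)))) (n 1 (n 0 (n 0 (n 7669835 z (n
 0x6d8727f280a7f38157fa8067e77f37ed81680a7fc8057ef8057f68077f181c81a7f27f27f281380180280f7f57ec8038157f37d581d80a8127f07f57ec80d8138137ff80780e8037fc8157f67fc0051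
 z z)) (n 0 (n 0x10caea42070821 z (n 7669835 z z)) (n 0 z (n 0 z z)))) (n 0 (n 0 z (n 0 z (n 0 z
 (n 0 z z)))) (n 0 (n 0 (n
 0x158728208a07e082081f81f8208208207e182081f82089f8208217e08618208208218208208218210041 z (n
 0x30caea420782082082082082082086082082082081f8208208208208208208208208208208208608208200801 z
 z)) (n 0 (n 7546971 z (n
 0xf0a50a42037eb4616df7e65eb63c59f7508e691d857a2a922768695be196895959889bb627e896f71c8dc0801 z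
 z)) (n 0 (n 8867891 z (n 8867891 z z)) (n 0 (n
 0xd87282086081f82086081f82086082082182082081f85f8208207e08218208208218208207e18200041 z (n
 0xb0c6ea42038ed57065b4df76742f711d9616592b2d8866b1e5dc9e7ad46f36e251691ec667204f39a489d0801 z
 z)) z)))) (n 0 (n 0 (n 3283067 z (n 3283067 z z)) (n 0 (n 8873275 z (n 8873275 z z)) (n 0 z (n
 0 (n 8587035 z (n
 0xd87081f86082082082081f8208207e07e182081f82085f8218607e086185f7e08218208208218200041 z z))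
 z)))) (n 0 (n 0 (n
 0xf0caea42075677b14e76209665a6745d9785e7aa4956acc2b6a45259726353697924238a961fa68a5f81e0801 z
 z) (n 0 (n
 0x1b2c39832a8738218e27749056218177817f47f084f7389aa7a861d94d6aa7a88348608376b073392e8ac94085d8ae8426c08d98e69e2662a6d6f989259a6318288807be87e77f92a84f9e38d87e57a97c90091
 z z) (n 0 z (n 0 z z)))) (n 0 (n 0 (n
 0x30caea42078608207e07df8207e07e18208218208208208208207e082086081f8a082086181f8618208200801 z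
 (n 0x30caea42078607e07e07df8218208208208208208208208208207e182086081f8608208218208608208200801
 z z)) (n 0 (n
 0x130a50a42037fe8137ef80b7f87fb7fb8038018017f38187fd7f58127fd7fd8068148047ec7f87fe80c80a8028067ef7f28058068077ed8237f68087f27eb7f780680f8017f78148098018008058047f20811
 z (n
 0x21ec3983f287382991b7529465a981c7617f07ec862706a147925a59a065579384187884565b7009798d798f8758d985366f90f920a5a5fab076b78b85015bd8328a07ad89d75f976864a5b90d7de7947bc0091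
 z z)) (n 0 z (n 0 z z)))) (n 0 (n 0 z (n 0 z (n 0 z (n 0 z z)))) (n 0 (n 0 z (n 0 z (n 0 z (n 0
 z z)))) (n 0 (n 0 z (n 0 z (n 0 z (n 0 z z)))) z))))))))) (n 0 (n 0 (n 0 (n 3283067 z (n
 3283067 z z)) (n 0 (n
 0x50cae862077e086182392181f85e8de7df81c7e286181e8638df7e186176086185f7a079f7e085e86185f0801 z
 (n 0x30cae8620782086082082082081f8208208208208208208208608208207e08208208208208208208208200801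
 z z)) (n 0 z (n 0 z z)))) (n 0 (n 0 (n 8803347 z (n 8803347 z z)) (n 0 (n 8803347 z (n 8803347
 z z)) (n 0 (n 8803347 z (n 8803347 z z)) (n 0 z z)))) (n 0 (n 0 (n 8716827 z (n 8716827 z z))
 (n 0 (n 8716827 z (n 8716827 z z)) (n 0 z (n 0 z z)))) (n 0 (n 0 z (n 0 z (n 0 z (n 0 z z))))
 (n 0 (n 0 z (n 0 z (n 0 z (n 0 z z)))) (n 0 (n 0 z (n 0 z (n 0 z (n 0 z z)))) z))))))
 z))))))))))))))))))))) z)))) z) z)))) (n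
 0x19b5d09226829a568a4a941b5c633b610d353611d758b5b70389d6456ab3432e1611 (n 0 (n 153 (n 3282443 z
 (n 0 z z)) (n 33 (n 0 z (n 2 z (n 10 z (n 3278363 z (n 0 z (n 0 z (n 0 z (n 0 z z)))))))) (n 9
 (n 0 z (n 3212843 z (n 18 z z))) (n 3 (n 0 z (n 0 z (n 0 z (n 0 z (n 0 z (n 0 z (n
 0x1d6108208217e08207a182082082086186075f86082182282181f8208208a279e85f85f79e7a28df0041 z (n 26
 z (n 0 z (n 0 z (n 0 z (n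
 0x2c842d6208208227a181f76382082081e8628a16dc8a08617e38a081f79f8a08e175d82081e79d7a291e0081 z (n
 0 z (n 0 z (n 0 z (n 0 z (n 2164283 z (n 0 z (n 34 z (n 0 z (n 0 z (n 0 z (n 0 z (n
 0x1d6218208217e08207a182082082086186075f86082182186181f7df8a086079f8617de7e07e28210041 z (n 0 z
 (n 0 z (n 0 z (n 42 z z)))))))))))))))))))))))))))) (n 1 (n 50 z (n
 0x2ca6ca620789e8227e07e07e17a28618208217a07e082081f81f8208218218208207e08218218208208200801 z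
 (n 58 z (n 66 z (n 74 z (n 0 z (n
 0x4ca6ca64078de7e27e17a17a27a28a179f7e17e17a08a08217e282181e89f85f7a085f8608208207df8200801 z
 (n 2164299 z (n 0 z z))))))))) (n 0 (n 82 z (n
 0x3a62082081d81e85f91f65f8e88277de61d7e689a89e76079f8229206a079d8a18e58e97a191f71f0041 z (n 90
 z (n 98 z (n 0 z (n 0 z (n
 0x2c86c8640789e8227e07e07e17a28618208217a07e082081f81f8208218218208207e08218218208208200801 z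
 (n 0x4c86c862078de7e27e17a17a27a28a179f7e17e17a08a08217e282181e89f85f7a085f8608208207df8200801
 z (n
 0x2c86c862078a08208208208207a08608208208207e18208208208208208208208218207e18208208208200801 z
 (n 0 z (n 2164315 z (n 0 z (n 0 z z))))))))))))) z)))))) (n 153 (n 0 (n 0 z (n 775 (n 0 z (n 0
 z (n 0 z (n 0 z (n 2 (n 1 z (n 1 z (n 2 (n 0 (n 6428731 z (n 6428731 z z)) (n 0 (n 7477307 z (n
 220 z z)) (n 0 z (n 0 z (n 0 (n 220 z (n 220 z z)) (n 0 (n 7477307 z (n 220 z z)) z)))))) (n 1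
 z (n 1 z (n 1 z (n 1 z (n 2 (n 0 z (n 0 z (n 0 z (n 0 z (n 0 z (n 0 (n 3092 z z) z)))))) (n 2
 (n 0 z (n 0 z (n 0 z (n 0 z (n 0 z (n 0 (n 3092 z z) z)))))) (n 1 z z)))))))))) (n 0 z z))))))
 (n 55 (n 0 z (n 0 z (n 0 z (n 0 z (n 0 z z))))) (n 55 (n 0 z (n 0 z (n 0 z (n 0 z (n 0 z z)))))
 (n 55 (n 0 z (n 0 z (n 0 z (n 0 z (n 0 z z))))) (n 339 (n 2 (n 0 z (n 0 z (n 0 z (n 1 z (n 1 z
 (n 1 z z)))))) (n 0 z (n 0 z (n 0 z (n 0 z (n 0 z (n 0 z (n 0 z (n 0 z z))))))))) (n 339 (n 0 z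
 (n 0 z (n 0 z (n 0 z (n 0 z (n 0 z (n 0 z (n 0 z (n 0 z z))))))))) (n 339 (n 0 z (n 0 z (n 0 z
 (n 0 z (n 0 z (n 2 (n 0 z (n 2 (n 0 z (n 0 z (n 0 z (n 0 z (n 0 z (n 0 z z)))))) (n 2 (n 0 z (n
 0 z (n 0 z (n 0 z (n 0 z (n 0 z z)))))) (n 1 z z)))) (n 0 z (n 0 z (n 0 z z))))))))) (n 339 (n
 0 z (n 0 z (n 0 z (n 0 z (n 2 (n 2 (n 0 z (n 0 z (n 0 z (n 0 z (n 0 z (n 0 z z)))))) (n 2 (n 0
 z (n 0 z (n 0 z (n 0 z (n 0 z (n 0 (n 8855571 z z) z)))))) (n 1 z z))) (n 0 z (n 0 z (n 0 z (n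
 0 z z))))))))) (n 773 (n 0 z (n 0 z (n 0 z (n 2 (n 0 z (n 0 z z)) (n 0 z (n 0 z (n 0 z (n 0 z
 (n 0 z (n 0 z (n 0 z z))))))))))) (n 773 (n 0 z (n 0 z (n 0 z (n 0 z (n 0 z (n 0 z (n 0 z (n 0
 z (n 0 z (n 0 z (n 0 z z))))))))))) (n 773 (n 0 z (n 0 z (n 0 z (n 0 z (n 0 z (n 0 z (n 0 z (n
 0 z (n 0 z (n 2 z (n 0 z z))))))))))) z)))))))))))) (n 0 (n 775 (n 0 z (n 0 z (n 0 z (n 0 z (n
 0 z (n 0 z (n 0 z (n 0 z z)))))))) (n 519 (n 0 z (n 0 z (n 0 z (n 0 z (n 0 z (n 0 z (n 0 z (n 0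
 z z)))))))) (n 519 (n 0 z (n 0 z (n 0 z (n 0 z (n 0 z (n 0 z (n 0 z (n 0 z z)))))))) (n 519 (n
 0 z (n 0 z (n 0 z (n 0 z (n 0 z (n 0 z (n 0 z (n 0 z z)))))))) (n 771 (n 2 (n 0 z (n 0 z (n 0 z
 (n 2 (n 0 z (n 0 z (n 0 z (n 0 z (n 0 z (n 0 (n 8868635 z z) z)))))) (n 2 (n 0 z (n 0 z (n 0 z
 (n 0 z (n 0 z (n 0 z z)))))) (n 1 z z)))))) (n 0 z (n 0 z (n 0 z (n 0 z (n 0 z (n 0 z (n 0 z (n
 0 z (n 0 z z)))))))))) (n 771 (n 0 z (n 0 z (n 0 z (n 0 z (n 0 z (n 0 z (n 0 z (n 0 z (n 0 z (n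
 0 z z)))))))))) (n 771 (n 0 z (n 0 z (n 0 z (n 0 z (n 0 z (n 0 z (n 0 z (n 0 z (n 0 z (n 0 z
 z)))))))))) (n 771 (n 0 z (n 0 z (n 0 z (n 0 z (n 0 z (n 0 z (n 0 z (n 0 z (n 0 z (n 0 z
 z)))))))))) (n 773 (n 0 z (n 0 z (n 0 z (n 0 z (n 2 (n 0 z (n 0 z z)) (n 0 z (n 0 z (n 0 z (n 0
 z (n 0 z (n 0 z (n 0 z z)))))))))))) (n 773 (n 0 z (n 2 (n 0 z z) (n 0 z (n 0 z (n 0 z (n 0 z
 (n 0 z (n 0 z (n 0 z (n 0 z (n 0 z (n 0 z z)))))))))))) (n 773 (n 0 z (n 0 z (n 0 z (n 0 z (n 0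
 z (n 0 z (n 0 z (n 0 z (n 0 z (n 0 z (n 0 z (n 0 z z)))))))))))) z))))))))))) (n 0 (n 27 (n 0 z
 (n 0 z (n 0 z (n 0 z (n 0 z (n 0 z (n 2 (n 0 z (n 0 z (n 1 z (n 1 z (n 1 z (n 2 (n 0 z (n 0 z
 (n 0 z (n 0 z (n 0 z (n 0 z z)))))) (n 2 (n 0 z (n 0 z (n 0 z (n 0 z (n 0 z (n 0 z z)))))) (n 2
 (n 0 z (n 0 z (n 0 z (n 0 z (n 0 z (n 0 z z)))))) (n 1 z z))))))))) (n 0 z (n 0 z (n 0 z (n 0 z
 (n 0 z (n 0 z (n 0 z (n 0 z z))))))))))))))) (n 27 (n 0 z (n 0 z (n 0 z (n 0 z (n 0 z (n 0 z (n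
 0 z (n 0 z (n 0 z (n 0 z (n 0 z (n 0 z (n 0 z (n 0 z (n 0 z z))))))))))))))) (n 27 (n 0 z (n 0
 z (n 0 z (n 0 z (n 0 z (n 0 z (n 0 z (n 0 z (n 0 z (n 0 z (n 0 z (n 0 z (n 0 z (n 0 z (n 0 z
 z))))))))))))))) (n 15 (n 0 z (n 2 (n 0 z (n 0 z (n 0 z (n 2 (n 0 z (n 0 z (n 0 z (n 0 z (n 0 z
 (n 0 (n 8868635 z z) z)))))) (n 2 (n 0 z (n 0 z (n 0 z (n 0 z (n 0 z (n 0 z z)))))) (n 1 z
 z)))))) (n 0 z (n 0 z (n 0 z (n 0 z (n 0 z (n 0 z (n 0 z (n 0 z (n 0 z z))))))))))) (n 15 (n 0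
 z (n 0 z (n 0 z (n 0 z (n 0 z (n 0 z (n 0 z (n 0 z (n 0 z (n 0 z (n 0 z z))))))))))) (n 15 (n 0
 z (n 0 z (n 0 z (n 0 z (n 0 z (n 0 z (n 0 z (n 0 z (n 0 z (n 0 z (n 0 z z))))))))))) (n 15 (n 0
 z (n 0 z (n 0 z (n 0 z (n 0 z (n 0 z (n 0 z (n 0 z (n 0 z (n 0 z (n 0 z z))))))))))) (n 821 (n
 0 z (n 0 z (n 2 (n 0 z (n 0 z z)) (n 0 z (n 0 z (n 0 z (n 0 z (n 0 z (n 0 z (n 0 z (n 0 z (n 0
 z (n 0 z z))))))))))))) (n 821 (n 2 (n 0 z z) (n 0 z (n 0 z (n 0 z (n 0 z (n 0 z (n 0 z (n 0 z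
 (n 0 z (n 0 z (n 0 z (n 0 z (n 0 z z))))))))))))) (n 821 (n 0 z (n 0 z (n 0 z (n 0 z (n 0 z (n
 0 z (n 0 z (n 0 z (n 0 z (n 0 z (n 0 z (n 0 z (n 0 z z))))))))))))) z)))))))))) (n 0 (n 0 z (n
 0 z (n 51 (n 0 z (n 2 (n 0 z (n 0 z (n 0 z (n 1 z (n 1 z (n 1 z z)))))) (n 0 z (n 0 z (n 0 z (n
 0 z (n 0 z (n 0 z (n 0 z (n 0 z (n 0 z (n 0 z (n 0 z (n 0 z (n 0 z (n 0 z (n 0 z (n 0 z (n 0 z
 (n 0 z (n 0 z (n 0 z (n 0 z (n 0 z (n 0 z (n 0 z (n 0 z (n 0 z (n 0 z (n 0 z (n 0 z (n 0 z (n 0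
 z (n 0 z (n 0 z z))))))))))))))))))))))))))))))))))) (n 51 (n 0 z (n 0 z (n 0 z (n 0 z (n 0 z
 (n 0 z (n 0 z (n 0 z (n 0 z (n 0 z (n
 0x76576510382ea8ca620786281f81f8df8207208627dd8a27a079d8608a086081f82182186081f82081f8207e08208201001
 z (n 0 z (n 0 z (n 0 z (n 0 z (n 0 z (n 0 z (n 0 z (n 0 z (n 0 z (n 0 z (n 0 z (n 0 z (n 0 z (n
 0 z (n 0 z (n 0 z (n 0 z (n 0 z (n 0 z (n 0 z (n 0 z (n 0 z (n 0 z (n 0 z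
 z))))))))))))))))))))))))))))))))))) (n 51 (n 0 z (n 0 z (n 0 z (n 0 z (n 0 z (n 0 z (n 0 z (n
 0 z (n 0 z (n 0 z (n 0 z (n 0 z (n 0 z (n 0 z (n 2 (n 0 z (n 2 (n 0 z (n 0 z (n 0 z (n 0 z (n 0
 z (n 0 z z)))))) (n 2 (n 0 z (n 0 z (n 0 z (n 0 z (n 0 z (n 0 z z)))))) (n 1 z z)))) (n 0 z (n
 0 z (n 0 z (n 0 z (n 0 z (n 0 z (n 0 z (n 0 z (n 0 z (n 0 z (n 0 z (n 0 z (n 0 z (n 0 z (n 0 z
 (n 0 z (n 0 z (n 0 z (n 0 z (n 0 z z))))))))))))))))))))))))))))))))))) (n 51 (n 0 z (n 0 z (n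
 0 z (n 0 z (n 0 z (n 0 z (n 0 z (n 0 z (n 0 z (n 0 z (n 0 z (n 0 z (n 0 z (n 0 z (n 0 z (n 0 z
 (n 0 z (n 2 (n 2 (n 0 z (n 0 z (n 0 z (n 0 z (n 0 z (n 0 z z)))))) (n 2 (n 0 z (n 0 z (n 0 z (n
 0 z (n 0 z (n 0 z z)))))) (n 2 (n 0 z (n 0 z (n 0 z (n 0 z (n 0 z (n 0 (n 8847899 z z) z))))))
 z))) (n 0 z (n 0 z (n 0 z (n 0 z (n 0 z (n 0 z (n 0 z (n 0 z (n 0 z (n 0 z (n 0 z (n 0 z (n 0 z
 (n 0 z (n 0 z (n 0 z (n 0 z z))))))))))))))))))))))))))))))))))) (n 49 (n 0 z (n 0 z (n 2 (n 0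
 z (n 0 z z)) (n 0 z (n 0 z (n 0 z (n 0 z (n 0 z (n 0 z (n 0 z (n 0 z (n 0 z (n 0 z (n 0 z (n 0
 z (n 0 z (n 0 z (n 0 z (n 0 z (n 0 z (n 0 z (n 0 z (n 0 z (n 0 z (n 0 z (n 0 z (n 0 z (n 0 z (n
 0 z (n 0 z (n 0 z (n 0 z (n 0 z (n 0 z (n 0 z (n 0 z z)))))))))))))))))))))))))))))))))))) (n
 49 (n 0 z (n 0 z (n 0 z (n 0 z (n 0 z (n 0 z (n 0 z (n 0 z (n 0 z (n 0 z (n 0 z (n 0 z (n 0 z
 (n 0 z (n 0 z (n 0 z (n 0 z (n 0 z (n 0 z (n 0 z (n 0 z (n 0 z (n 0 z (n 0 z (n 0 z (n 0 z (n 0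
 z (n 0 z (n 0 z (n 0 z (n 0 z (n 0 z (n 0 z (n 0 z (n 0 z (n 0 z
 z)))))))))))))))))))))))))))))))))))) (n 49 (n 0 z (n 0 z (n 0 z (n 0 z (n 0 z (n 0 z (n 0 z (n
 0 z (n 0 z (n 0 z (n 2 z (n 0 z (n 0 z (n 0 z (n 0 z (n 0 z (n 0 z (n 0 z (n 0 z (n 0 z (n 0 z
 (n 0 z (n 0 z (n 0 z (n 0 z (n 0 z (n 0 z (n 0 z (n 0 z (n 0 z (n 0 z (n 0 z (n 0 z (n 0 z (n 0
 z (n 0 z z)))))))))))))))))))))))))))))))))))) z))))))))) (n 0 (n 0 z (n 489 (n 0 z (n 0 z (n 0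
 z (n 0 z (n 0 z (n 0 z (n 0 z (n 0 z (n 0 z (n 2 (n 0 z (n 0 z (n 0 z (n 2 (n 0 z (n 0 z (n 0 z
 (n 0 z (n 0 z (n 0 (n 8868635 z z) z)))))) (n 2 (n 0 z (n 0 z (n 0 z (n 0 z (n 0 z (n 0 z
 z)))))) (n 1 z z)))))) (n 0 z (n 0 z (n 0 z (n 0 z (n 0 z (n 0 z (n 0 z (n 0 z (n 0 z (n 0 z (n
 0 z (n 0 z z)))))))))))))))))))))) (n 489 (n 0 z (n 0 z (n 0 z (n 0 z (n 0 z (n 0 z (n 0 z (n 0
 z (n 0 z (n 0 z (n 0 z (n 0 z (n 0 z (n 0 z (n 0 z (n 0 z (n 0 z (n 0 z (n 0 z (n 0 z (n 0 z (n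
 0 z z)))))))))))))))))))))) (n 489 (n 0 z (n 0 z (n 0 z (n 0 z (n 0 z (n 0 z (n 0 z (n 0 z (n 0
 z (n 0 z (n 0 z (n 0 z (n 0 z (n 0 z (n 0 z (n 0 z (n 0 z (n 0 z (n 0 z (n 0 z (n 0 z (n 0 z
 z)))))))))))))))))))))) (n 489 (n 0 z (n 0 z (n 0 z (n 0 z (n 0 z (n 0 z (n 0 z (n 0 z (n 0 z
 (n 0 z (n 0 z (n 0 z (n 0 z (n 0 z (n 0 z (n 0 z (n 0 z (n 0 z (n 0 z (n 0 z (n 0 z (n 0 z
 z)))))))))))))))))))))) (n 5 (n 0 z (n 0 z (n 0 z (n 0 z (n 2 (n 0 z (n 0 z z)) (n 0 z (n 0 z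
 (n 0 z (n 0 z (n 0 z (n 0 z (n 0 z (n 0 z (n 0 z (n 0 z (n 0 z (n 0 z z))))))))))))))))) (n 5
 (n 0 z (n 0 z (n 0 z (n 0 z (n 0 z (n 2 (n 0 z z) (n 0 z (n 0 z (n 0 z (n 0 z (n 0 z (n 0 z (n
 0 z (n 0 z (n 0 z (n 0 z (n 0 z z))))))))))))))))) (n 5 (n 0 z (n 0 z (n 0 z (n 0 z (n 0 z (n 0
 z (n 0 z (n 0 z (n 0 z (n 0 z (n 0 z (n 0 z (n 0 z (n 0 z (n 0 z (n 0 z (n 0 z
 z))))))))))))))))) z)))))))) (n 0 (n 489 (n 0 z (n 0 z (n 0 z (n 0 z (n 0 z (n 0 z (n 0 z (n 0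
 z (n 0 z (n 0 z (n 0 z (n 0 z (n 0 z (n 0 z (n 0 z (n 0 z (n 0 z (n 0 z (n 0 z (n 0 z (n 0 z (n
 0 z (n 0 z (n 0 z (n 0 z (n 0 z (n 0 z (n 0 z z)))))))))))))))))))))))))))) (n 489 (n 0 z (n 0
 z (n 0 z (n 0 z (n 0 z (n 0 z (n 0 z (n 0 z (n 0 z (n 0 z (n 0 z (n 0 z (n 0 z (n 0 z (n 0 z (n
 0 z (n 0 z (n 0 z (n 2 (n 0 z (n 0 z (n 2 (n 0 z (n 0 z (n 0 z (n 0 z (n 0 z (n 0 z z)))))) (n
 2 (n 0 z (n 0 z (n 0 z (n 0 z (n 0 z (n 0 z z)))))) (n 1 z z))))) (n 0 z (n 0 z (n 0 z (n 0 z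
 (n 0 z (n 0 z (n 0 z (n 0 z (n 0 z z)))))))))))))))))))))))))))) (n 489 (n 0 z (n 0 z (n 0 z (n
 0 z (n 0 z (n 0 z (n 0 z (n 0 z (n 0 z (n 0 z (n 0 z (n 0 z (n 0 z (n 0 z (n 0 z (n 0 z (n 0 z
 (n 0 z (n 0 z (n 0 z (n 0 z (n 0 z (n 0 z (n 0 z (n 0 z (n 0 z (n 0 z (n 0 z
 z)))))))))))))))))))))))))))) (n 489 (n 0 z (n 0 z (n 0 z (n 0 z (n 0 z (n 0 z (n 0 z (n 0 z (n
 0 z (n 0 z (n 0 z (n 0 z (n 0 z (n 0 z (n 0 z (n 0 z (n 0 z (n 0 z (n 0 z (n 0 z (n 0 z (n 0 z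
 (n 0 z (n 0 z (n 0 z (n 0 z (n 0 z (n 0 z z)))))))))))))))))))))))))))) (n 289 (n 0 z (n 0 z (n
 0 z (n 0 z (n 0 z (n 0 z (n 0 z (n 0 z (n 0 z (n 0 z (n 0 z (n 0 z (n 0 z (n 0 z (n 0 z (n 0 z
 (n 0 z (n 0 z (n 0 z (n 0 z (n 0 z (n 0 z (n 0 z (n 0 z (n 0 z (n 0 z (n 0 z (n 0 z
 z)))))))))))))))))))))))))))) (n 289 (n 0 z (n 0 z (n 0 z (n 0 z (n 0 z (n 0 z (n 0 z (n 0 z (n
 0 z (n 0 z (n 0 z (n 0 z (n 0 z (n 0 z (n 0 z (n 0 z (n 0 z (n 0 z (n 0 z (n 0 z (n 0 z (n 0 z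
 (n 0 z (n 0 z (n 0 z (n 0 z (n 0 z (n 0 z z)))))))))))))))))))))))))))) (n 289 (n 0 z (n 0 z (n
 0 z (n 0 z (n 0 z (n 0 z (n 0 z (n 0 z (n 0 z (n 0 z (n 0 z (n 0 z (n 0 z (n 0 z (n 0 z (n 0 z
 (n 0 z (n 0 z (n 0 z (n 0 z (n 0 z (n 0 z (n 0 z (n 0 z (n 0 z (n 0 z (n 0 z (n 0 z
 z)))))))))))))))))))))))))))) z))))))) (n 0 (n 0 z (n 0 z (n 0 z (n 53 (n 0 z (n 0 z (n 0 z (n
 0 z (n 0 z (n 0 z (n 0 z (n 0 z (n 0 z (n 0 z (n 0 z (n 0 z (n 0 z (n 0 z (n 0 z (n 0 z (n 0 z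
 (n 0 z (n 0 z (n 0 z (n 0 z (n 0 z (n 0 z (n 0 z (n 0 z (n 0 z (n 0 z (n 0 z
 z)))))))))))))))))))))))))))) (n 53 (n 0 z (n 0 z (n 0 z (n 0 z (n 0 z (n 0 z (n 0 z (n 0 z (n
 0 z (n 0 z (n 0 z (n 0 z (n 0 z (n 0 z (n 0 z (n 0 z (n 0 z (n 0 z (n 0 z (n 0 z (n 0 z (n 0 z
 (n 0 z (n 0 z (n 0 z (n 0 z (n 0 z (n 0 z z)))))))))))))))))))))))))))) (n 53 (n 2 z (n 0 z (n
 0 z (n 0 z (n 0 z (n 0 z (n 0 z (n 0 z (n 0 z (n 0 z (n 0 z (n 0 z (n 0 z (n 0 z (n 0 z (n 0 z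
 (n 0 z (n 0 z (n 0 z (n 0 z (n 0 z (n 0 z (n 0 z (n 0 z (n 0 z (n 0 z (n 0 z (n 0 z
 z)))))))))))))))))))))))))))) z)))))) (n 0 (n 0 z (n 0 z (n 1 (n 0 z (n 0 z (n 0 z (n 0 z (n 0
 z (n 0 z z)))))) (n 1 (n 0 z (n 0 z (n 0 z (n 0 z (n 0 z (n 0 z z)))))) (n 1 (n 0 z (n 0 z (n 0
 z (n 0 z (n 0 z (n 0 z z)))))) z))))) (n 0 (n 0 z (n 1 (n 0 z (n 0 z (n 0 z (n 0 z (n 0 z (n 2
 (n 0 z (n 0 z z)) (n 0 z (n 0 z (n 0 z (n 0 z z)))))))))) (n 1 (n 0 z (n 0 z (n 0 z (n 0 z (n 2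
 (n 0 z z) (n 0 z (n 0 z (n 0 z (n 0 z (n 0 z z)))))))))) (n 1 (n 0 z (n 0 z (n 0 z (n 0 z (n 0
 z (n 0 z (n 0 z (n 0 z (n 0 z (n 0 z z)))))))))) z)))) (n 0 (n 293 (n 2 (n 0 z (n 0 z z)) (n 0
 z (n 0 z (n 0 z (n 0 z (n 0 z (n 0 z (n 0 z (n 0 z (n 0 z z)))))))))) (n 293 (n 0 z (n 0 z (n 0
 z (n 0 z (n 0 z (n 0 z (n 0 z (n 0 z (n 0 z (n 0 z z)))))))))) (n 293 (n 0 z (n 0 z (n 0 z (n 0
 z (n 0 z (n 0 z (n 0 z (n 0 z (n 0 z (n 0 z z)))))))))) z))) (n 0 (n 0 z (n 0 z z)) (n 0 (n 0 z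
 z) (n 0 z z))))))))))))) (n 0 (n 1 (n 3282443 z (n 3282443 z (n 3282443 z (n 3282443 z (n
 3282443 z (n 3282443 z z)))))) (n 0 z z)) (n 0 z z)))) (n
 0x1b3568c99543c53a134cdcf04d3342292619493409 (n 0 (n 281 (n 3282443 z (n 0 z (n 0 z z))) (n 257
 (n 0 z (n 2 z (n 3278363 z (n 0 z (n 0 z (n 0 z (n 0 z z))))))) (n 9 (n
 0x30ca6a60203818b70828a859d609e61898d776b5e83a47a72807a867c8286857882778678925f797575756b8280808aaa7797819185758c0809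
 z (n 10 z (n 18 z (n 3212843 z (n 0 z (n 0 z (n 3212843 z (n 26 z z)))))))) (n 243 (n 0 z (n 0
 z (n 0 z (n 0 z (n 2164283 z z))))) (n 1 (n 0 z (n 2164299 z (n 0 z (n 0 z z)))) (n 0 (n 0 z (n
 0 z (n 34 z (n 0 z (n 0 z (n 2164315 z (n 3212891 z (n 0 z (n 42 z (n 0 z (n 0 z (n 0 z (n 0 z
 (n
 0x6ca6864207818180817f7f817e7f817b8281827f807e8180857e7f8182807f807d817f7e807c7f7f807f7e80808083837f808382817e820809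
 z (n 0 z (n 50 z (n 0 z (n 0 z (n 58 z z))))))))))))))))))) z)))))) (n 281 (n 0 (n 275 (n 0 z
 (n 0 z (n 0 z (n 0 z (n 0 z (n 0 z (n 0 z (n 0 z (n 0 z (n 0 z z)))))))))) (n 275 (n 0 z (n 0 z
 (n 0 z (n 0 z (n 0 z (n 7741699 z (n 0 z (n 0 z (n 0 z (n 0 z z)))))))))) (n 275 (n 0 z (n 0 z
 (n 0 z (n 0 z (n 0 z (n 0 z (n 0 z (n 0 z (n 0 z (n 2 (n 1 z (n 2 (n 0 z (n 0 z (n 0 z (n 0 (n
 8868915 z z) (n 0 z (n 0 z z)))))) (n 1 z (n 2 (n 0 z (n 0 z (n 0 z (n 0 (n 8868915 z z) (n 0 z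
 (n 0 z z)))))) z)))) z)))))))))) (n 1 (n 0 z (n 0 z (n 0 z (n 0 z (n 0 z (n 0 z (n 0 z (n 0 z
 (n 0 z (n 0 z (n 0 z z))))))))))) (n 1 (n 0 z (n 0 z (n 0 z (n 2 (n 0 z (n 0 z z)) (n 0 z (n 0
 z (n 0 z (n 0 z (n 0 z (n 0 z (n 0 z z))))))))))) (n 1 (n 0 z (n 0 z (n 0 z (n 0 z (n 0 z (n 0
 z (n 0 z (n 0 z (n 0 z (n 0 z (n 0 z z))))))))))) (n 1 (n 0 z (n 0 z (n 0 z (n 0 z (n 0 z (n 0
 z (n 0 z (n 0 z (n 0 z (n 0 z (n 7677515 z z))))))))))) z))))))) (n 0 (n 0 z (n 0 z (n 49 (n 0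
 z (n 0 z (n 0 z (n 0 z (n 0 z (n 0 z (n 0 z (n 0 z (n 0 z z))))))))) (n 49 (n 0 z (n 0 z (n 0 z
 (n 0 z (n 0 z (n 0 z (n 0 z (n 0 z (n 0 z z))))))))) (n 49 (n 0 z (n 0 z (n 0 z (n 0 z (n 0 z
 (n 0 z (n 2 (n 0 z z) (n 0 z (n 0 z z))))))))) (n 49 (n 0 z (n 0 z (n 0 z (n 0 z (n 0 z (n 0 z
 (n 0 z (n 0 z (n 2 z z))))))))) z)))))) (n 0 (n 0 z (n 1 (n 0 z (n 7741699 z (n 0 z (n 0 z (n 0
 z (n 0 z (n 0 z z))))))) (n 1 (n 0 z (n 0 z (n 0 z (n 2 (n 0 z (n 0 z z)) (n 0 z (n 0 z (n 0 z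
 z))))))) (n 1 (n 0 z (n 0 z (n 0 z (n 0 z (n
 0x4ea6c86207818080817d80817e81817e847e7f7e8082807f857a827d817f817e7f82807f807f817e7f83807f8080817f7f807f7e82817d0809
 z (n 0 z (n 0 z z))))))) (n 1 (n 0 z (n 0 z (n 0 z (n 0 z (n 0 z (n 0 z (n
 0x2ec8ec860380807f80837e807d838080847e807e7e847e80828080808180857f80807f80807d7e807f81807e807d868083827c81837f800809
 z z))))))) z))))) (n 0 (n 13 (n 0 z (n 0 z (n 0 z (n 0 z (n 0 z (n 0 z (n 0 z (n 0 z z))))))))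
 (n 13 (n 0 z (n 0 z (n 0 z (n 0 z (n 0 z (n 0 z (n 0 z (n 0 z z)))))))) (n 13 (n 0 z (n 0 z (n
 0 z (n 0 z (n 0 z (n 0 z (n 0 z (n 2 (n 0 z z) z)))))))) (n 13 (n 0 z (n 0 z (n 0 z (n 0 z (n 0
 z (n 7754803 z (n 0 z (n 0 z z)))))))) z)))) (n 0 (n 0 z (n 0 z (n 0 z z))) (n 0 (n 0 z (n 0 z
 z)) (n 0 (n 0 z z) (n 0 z z)))))))) (n 0 (n 1 (n 3282443 z (n 3282443 z (n 3282443 z (n 3282443
 z (n 3282443 z (n 3282443 z z)))))) (n 0 z (n 0 z z))) (n 0 z z)))) (n 0xed162 (n 0 (n 201 (n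
 3282443 z (n 0 z (n 0 z (n 0 z (n 0 z (n 0 z (n 0 z (n 0 z z)))))))) (n 35 (n 6496515 z (n 0 z
 (n 0 z (n 0 z (n 0 z (n 0 z (n 0 z (n 0 z z)))))))) (n 9 (n 6496515 z (n 2 z (n 0 z (n 0 z (n 0
 z (n 0 z z)))))) (n 3 (n 0 z (n 6496515 z (n 0 z (n 0 z z)))) (n 25 (n 0 z (n 0 z (n 0 z (n
 2164299 z (n 0 z (n 0 z (n 0 z z))))))) (n 0 (n 0 z (n 0 z (n
 0x136207da7a082081e7e09a089d79f8608a389f82179d8208de8208617de7e18a185f82179f81f7df0041 z (n 0 z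
 (n 6627635 z (n 0 z (n 0 z (n 0 z (n 0 z (n 0 z z)))))))))) z)))))) (n 3 (n 0 z z) (n 0 (n 0 z
 (n 1 (n 6496515 z (n 6496515 z (n 6496515 z (n 6496515 z (n 6496515 z (n 6496515 z z)))))) (n 0
 z (n 0 z z)))) (n 0 z z)))) (n 0 (n 0 (n 201 (n 0 z (n 0 z (n 3282443 z (n 0 z (n 0 z (n 0 z (n
 0 z z))))))) (n 59 (n 6496515 z (n 0 z (n 0 z (n 0 z (n 0 z (n 0 z (n 0 z (n 0 z (n 0 z (n 0 z
 (n 0 z (n 0 z (n 0 z (n 0 z (n 0 z z))))))))))))))) (n 9 (n 0 z (n 0 z (n 0 z (n 0 z (n 0 z (n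
 6496515 z (n 0 z (n 0 z (n 0 z (n 0 z (n 0 z (n 0 z z)))))))))))) (n 3 (n 0 z (n 6496515 z (n 0
 z (n 0 z (n 0 z (n 0 z (n 0 z (n 0 z (n 0 z (n 0 z z)))))))))) (n 1 (n 0 z (n 6559035 z (n 0 z
 (n 0 z (n 0 z z))))) (n 0 (n 0 z (n 0 z (n 2164315 z (n 0 z (n 0 z (n 0 z (n 0 z (n 0 z (n 0 z
 (n 0 z z)))))))))) z)))))) (n 1 z (n 0 (n 0 z (n 1 (n 6559035 z (n 6559035 z (n 6559035 z (n
 6559035 z (n 6559035 z (n 6559035 z z)))))) (n 0 z (n 0 z (n 0 z z))))) (n 0 z z)))) (n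
 0x6ce1a99132 (n 0 (n 395 (n 0 z (n 0 z (n 0 z (n 0 z (n 0 z (n 0 z (n 0 z (n 0 z (n 0 z (n
 6561875 z (n 0 z (n 0 z (n 0 z (n 0 z (n 0 z z))))))))))))))) (n 315 (n 0 z (n 3278363 z (n 0 z
 (n 0 z (n 0 z (n 0 z z)))))) (n 173 (n 0 z (n 0 z (n 6636083 z (n 2 z (n 0 z z))))) (n 27 (n
 6632491 z (n 0 z (n 0 z z))) (n 1 (n 0 z (n 0 z (n 0 z (n 0 z (n 0 z (n 0 z (n 0 z (n 6636083 z
 (n 0 z (n 0 z z)))))))))) (n 0 (n 0 z (n 0 z (n 0 z (n 0 z (n 0 z (n 0 z (n 0 z (n 0 z (n 0 z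
 (n 0 z (n 0 z (n 0 z (n 0 z (n 0 z (n 0 z (n 6636083 z (n 0 z (n 0 z (n 0 z (n 10 z
 z)))))))))))))))))))) z)))))) (n 27 (n 0 (n 337 (n 0 z (n 0 z (n 0 z (n 0 z z)))) z) (n 0 z z))
 (n 0 (n 1 (n 6632491 z (n 6636083 z (n 6632491 z (n 6632491 z (n 6632491 z (n 6632491 z z))))))
 (n 0 z (n 0 z z))) (n 0 z z)))) (n 0x106e28a3409 (n 0 (n 177 (n 0 z (n 0 z (n 6557747 z z))) (n
 35 (n 0 z (n
 0xca64ca280395d6e282075d89e6a38a375f8217237a39e186179f75f8a292081c79f89f7237a291f89f7e10801 z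
 (n 0 z (n 0 z (n 0 z (n 0 z (n 2 z (n 6557747 z (n 0 z z))))))))) (n 9 (n 0 z (n 0 z (n 3212843
 z z))) (n 29 (n 0 z (n 6566227 z (n 0 z (n 0 z (n 0 z (n 0 z (n 0 z (n 0 z (n 0 z z))))))))) (n
 1 (n 0 z (n 10 z (n 0 z (n 0 z (n 0 z (n 0 z (n 0 z (n 6557747 z (n 0 z z))))))))) (n 0 (n 0 z
 (n 0 z (n 0 z (n 0 z (n 0 z (n 0 z (n 0 z (n 0 z (n 0 z (n 0 z (n 0 z (n 0 z (n 0 z (n 6632475
 z z)))))))))))))) z)))))) (n 177 (n 0 (n 3 (n 0 z (n 0 z (n 0 z (n 0 z (n 0 z (n 0 z (n 0 z (n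
 0 z (n 0 z (n 0 z z)))))))))) z) (n 0 z z)) (n 0 (n 0 z (n 0 z (n 1 (n 6557747 z (n 6557747 z
 (n 6557747 z (n 6557747 z (n 6557747 z (n 6557747 z z)))))) z))) (n 0 z z)))) (n 0x950d (n 0 (n
 321 (n 0 z (n 0 z (n 0 z (n 0 z (n 0 z (n 0 z (n 3282443 z (n 0 z (n 0 z z))))))))) (n 315 (n 0
 z (n 0 z (n 0 z (n 0 z (n 0 z (n 3278363 z z)))))) (n 9 (n 0 z (n 0 z (n 0 z (n 3212843 z z))))
 (n 3 (n 0 z (n 0 z (n 0 z (n 0 z (n 0 z (n 0 z (n 0 z (n 0 z (n 6636307 z (n 0 z (n 0 z (n 0 z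
 (n 0 z (n 0 z (n 0 z z))))))))))))))) (n 1 (n 0 z (n 0 z (n 0 z (n 0 z (n 0 z (n 0 z (n 0 z (n
 0 z (n 0 z (n 6636307 z (n 0 z z))))))))))) (n 0 (n 2 z (n 0 z (n 0 z (n 0 z (n 0 z (n 0 z (n 0
 z (n 0 z (n 0 z (n 6636307 z z)))))))))) z)))))) (n 9 (n 0 z z) (n 0 (n 0 z (n 0 z (n 0 z (n 1
 (n 3212843 z (n 3212843 z (n 3212843 z (n 3212843 z (n 3212843 z (n 3212843 z z)))))) z)))) (n
 0 z z)))) (n 0xf40a2 (n 0 (n 237 (n 3282443 z (n 0 z (n 0 z z))) (n 255 (n 6496515 z (n 0 z (n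
 0 z z))) (n 9 (n 0 z (n 0 z (n 0 z (n 0 z (n 2 z (n 0 z (n 6496515 z (n 0 z (n 0 z (n 0 z (n 0
 z z))))))))))) (n 27 (n 0 z (n 0 z (n 0 z (n 0 z (n 0 z (n 0 z (n 0 z (n 0 z (n 0 z (n 0 z (n 0
 z (n 0 z (n 0 z (n 0 z (n 0 z (n 0 z (n 0 z (n 0 z (n 0 z (n 6496515 z z)))))))))))))))))))) (n
 1 (n 0 z (n 0 z (n 2164299 z (n 0 z (n 0 z z))))) (n 0 (n 2164315 z (n 0 z (n 0 z (n 0 z (n 0 z
 (n 0 z (n 0 z (n 0 z (n 0 z (n 0 z (n 0 z z))))))))))) z)))))) (n 237 (n 0 z z) (n 0 (n 1 (n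
 6496515 z (n 3282443 z (n 3282443 z (n 3282443 z (n 3282443 z (n 3282443 z z)))))) (n 0 z (n 0
 z z))) (n 0 z z)))) (n 0 (n 0 (n 279 (n 0 z (n 0 z (n 6557731 z (n 0 z (n 0 z z))))) (n 383 (n
 0 z (n 6557731 z (n 0 z (n 0 z (n 0 z (n 0 z (n 0 z z))))))) (n 11 (n 6497307 z (n 0 z (n 0 z
 z))) (n 3 (n 6497307 z (n 0 z (n 0 z (n 0 z (n 0 z (n 0 z z)))))) (n 1 (n 0 z (n 0 z (n 0 z (n
 0 z (n 0 z (n 6557731 z (n 0 z z))))))) (n 0 (n 0 z (n 0 z (n 0 z (n 0 z (n 0 z (n 0 z (n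
 2164315 z (n 0 z (n 0 z (n 0 z (n 0 z (n 0 z z)))))))))))) z)))))) (n 11 z (n 0 (n 1 (n 6497307
 z (n 6557731 z (n 6497307 z (n 6497307 z (n 6497307 z (n 6497307 z z)))))) (n 0 z (n 0 z z)))
 (n 0 z z)))) z)))))))))), by decide +kernel⟩
theorem i11113 : ∃ t, chkR KT RW t 11113 11123 = true := ⟨(n 0x2195505aaab06a52d0e56e5240 (n 0
 (n 225 (n 0 z (n 0 z (n 3282443 z (n 2 z z)))) (n 255 (n 6496515 z (n 0 z (n 0 z (n 0 z z))))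
 (n 9 (n 0 z (n 6496515 z (n 0 z z))) (n 27 (n 0 z (n 0 z (n 0 z (n 6496515 z (n 10 z (n 0 z
 z)))))) (n 1 (n 0 z (n 0 z (n 0 z (n 0 z (n 18 z (n 0 z (n 0 z (n 0 z (n 0 z (n 0 z (n 0 z (n 0
 z (n 0 z (n 0 z (n 0 z (n 0 z (n 6554395 z z))))))))))))))))) (n 0 (n 26 z (n 0 z (n 0 z (n 0 z
 (n 0 z (n 0 z (n 0 z (n 0 z (n 0 z (n 34 z (n 0 z (n 0 z (n 0 z (n 6619947 z z))))))))))))))
 z)))))) (n 9 (n 0 (n 11 (n 0 z (n 0 z (n 0 z (n 2 (n 1 z (n 1 z (n 1 z z))) (n 0 z (n 0 z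
 z)))))) (n 9 (n 0 z (n 0 z (n 0 z (n 0 z (n 0 z (n 0 z (n 0 z (n 0 z (n 0 z (n 0 z (n 0 z
 z))))))))))) (n 53 (n 0 z (n 0 z (n 0 z (n 0 z (n 0 z (n 0 z (n 0 z (n 0 z (n 0 z (n 0 z
 z)))))))))) (n 53 (n 0 z (n 0 z (n 0 z (n 0 z (n 0 z (n 0 z (n 0 z (n 0 z (n 0 z (n 0 z
 z)))))))))) z)))) (n 0 (n 9 (n 0 z (n 0 z (n 0 z (n 0 z (n 0 z (n 0 z (n 0 z (n 0 z (n 0 z (n 0
 z z)))))))))) (n 53 (n 0 z (n 0 z (n 0 z (n 0 z (n 0 z (n 0 z (n 0 z (n 0 z (n 0 z (n 0 z (n 0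
 z z))))))))))) (n 53 (n 0 z (n 0 z (n 0 z (n 0 z (n 0 z (n 0 z (n 0 z (n 0 z (n 0 z (n 0 z (n 0
 z z))))))))))) z))) (n 0 (n 1 (n 0 z (n 0 z (n 0 z (n 0 z (n 0 z (n 0 z (n 0 z (n 0 z (n 0 z (n
 0 z (n 0 z (n 0 z (n 0 z (n 0 z (n 0 z (n 0 z (n 0 z (n 0 z (n 0 z z))))))))))))))))))) (n 1 (n
 0 z (n 0 z (n 0 z (n 0 z (n 0 z (n 0 z (n 0 z (n 0 z (n 0 z (n 0 z (n 0 z (n 0 z (n 0 z (n 0 z
 (n 0 z (n 0 z (n 0 z (n 0 z (n 0 z z))))))))))))))))))) z)) (n 0 (n 0 z z) (n 0 z z))))) (n 0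
 (n 0 z (n 1 (n 6496515 z (n 6496515 z (n 6496515 z (n 6496515 z (n 6496515 z (n 6496515 z
 z)))))) (n 0 z z))) (n 0 z z)))) (n
 0x506a71864984289c2444dc444cab21d44a09ab084d58686495032e3209 (n 0 (n 597 (n 3282443 z (n 0 z (n
 0 z (n 0 z z)))) (n 595 (n 2 z (n 3278363 z (n 0 z (n 0 z (n 10 z (n 0 z (n 18 z z))))))) (n
 596 (n 3212843 z (n 26 z (n 34 z (n
 0x8ca6ca6003a3426cae6e9c6d803d8ea58991899d7866739862c06a858b896d69a29187768c9662838284887477666b739a978d865b947d0809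
 z (n 42 z (n
 0xca6ca600381807f807f7f8080808080827f8083808080807f8080808080808080808081818080808080808080807f80808180808080800809
 z (n 50 z (n 0 z z)))))))) (n 3 (n 58 z (n 0 z (n 0 z (n 0 z (n 0 z (n 0 z (n 2164283 z (n 0 z
 (n 0 z (n 0 z (n 0 z (n 0 z (n 0 z (n 0 z z)))))))))))))) (n 1 (n 66 z (n 2164299 z (n 74 z (n
 0 z (n 82 z (n 0 z (n 0 z z))))))) (n 0 (n 0 z (n 2164315 z (n 0 z (n 0 z (n 0 z (n 0 z z))))))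
 z)))))) (n 597 (n 0 (n 0 z (n 0 z (n 1193 (n 0 z (n 0 z (n 0 z (n 0 z (n 0 z (n 0 z (n 0 z (n 0
 z (n 0 z z))))))))) (n 1193 (n 0 z (n 2 (n 0 z (n 0 z (n 1 z (n 1 z (n 1 z (n 1 z z)))))) (n 0
 z (n 0 z (n 0 z (n 0 z (n 0 z (n 0 z (n 0 z z))))))))) (n 1193 (n 0 z (n 0 z (n 0 z (n 0 z (n 2
 (n 0 z (n 1 z (n 2 (n 0 z (n 0 z (n 0 z (n 0 z (n 0 z (n 0 z z)))))) (n 1 z (n 1 z z))))) (n 0
 z (n 0 z (n 0 z (n 0 z z))))))))) (n 1193 (n 0 z (n 0 z (n 0 z (n 0 z (n 0 z (n 0 z (n 0 z (n 2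
 (n 2 (n 0 z (n 0 z (n 0 z (n 0 z (n 0 z (n 0 z z)))))) (n 2 (n 0 z (n 0 z (n 0 z (n 0 z (n 0 z
 (n 0 z z)))))) (n 1 z (n 2 (n 0 z (n 0 z (n 0 z (n 0 z (n 0 z (n 0 z z)))))) z)))) (n 0 z
 z))))))))) (n 251 (n 2 (n 2 (n 0 z (n 0 z (n 0 z (n 0 z (n 0 z (n 0 (n 8860179 z z) z)))))) (n
 1 z (n 2 (n 0 z (n 0 z (n 0 z (n 0 z (n 0 z (n 0 z z)))))) z))) (n 0 z (n 0 z (n 0 z (n 0 z (n
 0 z (n 0 z (n 0 z z)))))))) (n 243 (n 2 (n 0 z (n 0 z z)) (n 0 z (n 0 z (n 0 z (n 0 z (n 0 z (n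
 0 z (n 0 z (n 0 z (n 0 z (n 0 z (n 0 z (n 0 z (n 0 z (n 0 z (n 0 z (n 0 z z))))))))))))))))) (n
 243 (n 0 z (n 0 z (n 0 z (n 0 z (n 0 z (n 0 z (n 0 z (n 0 z (n 0 z (n 0 z (n 0 z (n 0 z (n 0 z
 (n 0 z (n 0 z (n 0 z (n 0 z z))))))))))))))))) (n 243 (n 0 z (n 0 z (n 0 z (n 0 z (n 0 z (n 0 z
 (n 0 z (n 0 z (n 0 z (n 0 z (n 0 z (n 0 z (n 0 z (n 0 z (n 0 z (n 0 z (n 0 z z)))))))))))))))))
 z)))))))))) (n 0 (n 0 z (n 429 (n 0 z (n 0 z (n 0 z (n 2 (n 0 z (n 0 z (n 0 z (n 2 (n 0 z (n 0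
 z (n 0 z (n 0 z (n 0 z (n 0 z z)))))) (n 2 (n 0 z (n 0 z (n 0 z (n 0 z (n 0 z (n 0 z z)))))) (n
 1 z (n 2 (n 0 z (n 0 z (n 0 z (n 0 z (n 0 z (n 0 z z)))))) z))))))) (n 0 z (n 0 z (n 0 z (n 0 z
 (n 0 z (n 0 z (n 0 z (n 0 z (n 0 z z))))))))))))) (n 429 (n 0 z (n 0 z (n 0 z (n 0 z (n 0 z (n
 0 z (n 0 z (n 0 z (n 0 z (n 0 z (n 0 z (n 0 z (n 0 z z))))))))))))) (n 429 (n 0 z (n 0 z (n 0 z
 (n 0 z (n 0 z (n 0 z (n 2 (n 0 z (n 2 (n 0 z (n 0 z (n 0 z (n 0 z (n 0 z (n 0 z z)))))) (n 2 (n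
 0 z (n 0 z (n 0 z (n 0 z (n 0 z (n 0 z z)))))) (n 1 z (n 2 (n 0 z (n 0 z (n 0 z (n 0 z (n 0 z
 (n 0 (n 8855635 z z) z)))))) z))))) (n 0 z (n 0 z (n 0 z (n 0 z (n 0 z (n 0 z z))))))))))))) (n
 429 (n 0 z (n 0 z (n 0 z (n 0 z (n 0 z (n 0 z (n 0 z (n 0 z (n 0 z (n 0 z (n 0 z (n 0 z (n 0 z
 z))))))))))))) (n 469 (n 0 z (n 0 z (n 0 z (n 0 z (n 0 z (n 0 z (n 0 z (n 0 z z)))))))) (n 457
 (n 0 z (n 0 z (n 0 z (n 0 z (n 0 z (n 0 z (n 0 z (n 0 z (n 0 z z))))))))) (n 457 (n 2 (n 0 z z)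
 (n 0 z (n 0 z (n 0 z (n 0 z (n 0 z (n 0 z (n 0 z (n 0 z z))))))))) (n 457 (n 0 z (n 0 z (n 0 z
 (n 0 z (n 0 z (n 2 z (n 0 z (n 0 z (n 0 z z))))))))) z))))))))) (n 0 (n 1193 (n 0 z (n 0 z (n 0
 z (n 0 z (n 0 z (n 0 z (n 0 z (n 0 z (n 0 z (n 0 z z)))))))))) (n 1193 (n 0 z (n 0 z (n 2 (n 0
 z (n 0 z (n 2 (n 0 z (n 0 z (n 0 z (n 0 z (n 0 z (n 0 z z)))))) (n 2 (n 0 z (n 0 z (n 0 z (n 0
 z (n 0 z (n 0 z z)))))) (n 1 z (n 1 z z)))))) (n 0 z (n 0 z (n 0 z (n 0 z (n 0 z (n 0 z (n 0 z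
 z)))))))))) (n 1193 (n 0 z (n 0 z (n 0 z (n 7741523 z (n 0 z (n 0 z (n 0 z (n 0 z (n 0 z (n 0 z
 z)))))))))) (n 1193 (n 0 z (n 0 z (n 0 z (n 0 z (n 0 z (n 0 z (n 0 z (n 0 z (n 0 z (n 0 z
 z)))))))))) (n 59 (n 2 (n 2 (n 0 z (n 0 z (n 0 z (n 0 z (n 0 z (n 0 z z)))))) (n 1 z (n 2 (n 0
 z (n 0 z (n 0 z (n 0 z (n 0 z (n 0 (n 8860179 z z) z)))))) z))) (n 0 z (n 0 z (n 0 z (n 0 z (n
 0 z (n 0 z (n 0 z (n 0 z (n 0 z (n 0 z (n 0 z z)))))))))))) (n 345 (n 0 z (n 0 z (n 0 z (n 0 z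
 (n 0 z (n 0 z (n 0 z (n 0 z (n 0 z (n 0 z (n 0 z (n 0 z (n 0 z (n 2 (n 0 z (n 0 z z)) (n 0 z (n
 0 z (n 0 z (n 0 z (n 0 z (n 0 z (n 0 z z))))))))))))))))))))) (n 345 (n 0 z (n 0 z (n 0 z (n 0
 z (n 0 z (n 0 z (n 0 z (n 0 z (n 0 z (n 0 z (n 0 z (n 0 z (n 0 z (n 0 z (n 0 z (n 0 z (n 0 z (n
 0 z (n 0 z (n 0 z (n 0 z z))))))))))))))))))))) (n 345 (n 0 z (n 0 z (n 0 z (n 0 z (n 0 z (n 0
 z (n 0 z (n 0 z (n 0 z (n 0 z (n 0 z (n 0 z (n 0 z (n 0 z (n 0 z (n 0 z (n 0 z (n 0 z (n 0 z (n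
 0 z (n 0 z z))))))))))))))))))))) z)))))))) (n 0 (n 0 z (n 0 z (n 0 z (n 247 (n 7746067 z (n 0
 z (n 0 z (n 0 z (n 0 z (n 0 z (n 0 z (n 0 z (n 0 z z))))))))) (n 591 (n 7746067 z (n 0 z (n 0 z
 (n 0 z (n 0 z (n 0 z (n 0 z (n 0 z (n 0 z z))))))))) (n 591 (n 0 z (n 0 z (n 0 z (n 0 z (n 0 z
 (n 0 z (n 0 z (n 0 z (n 0 z z))))))))) (n 591 (n 0 z (n 0 z (n 0 z (n 0 z (n 0 z (n 0 z (n 0 z
 (n 0 z (n 0 z z))))))))) z))))))) (n 0 (n 0 z (n 0 z (n 665 (n 0 z (n 0 z (n 0 z (n 0 z (n 0 z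
 (n 0 z (n 0 z (n 0 z (n 0 z (n 0 z z)))))))))) (n 701 (n 0 z (n 0 z (n 0 z (n 0 z (n 0 z (n 0 z
 (n 0 z (n 0 z (n 0 z (n 0 z (n 0 z (n 0 z (n 0 z (n 0 z (n 0 z (n 0 z (n 0 z (n 0 z (n 0 z (n 0
 z (n 0 z (n 0 z (n 0 z (n 0 z (n 0 z (n 0 z (n 0 z (n 0 z (n 0 z (n 0 z (n 0 z (n 0 z (n 0 z (n
 0 z (n 0 z (n 0 z (n 0 z (n 0 z (n 0 z (n 0 z (n 0 z (n 0 z (n 0 z (n 0 z (n 0 z (n 0 z
 z)))))))))))))))))))))))))))))))))))))))))))))) (n 701 (n 6426739 z (n 2 (n 0 z z) (n 0 z (n 0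
 z (n 0 z (n 0 z (n 0 z (n 0 z (n 0 z (n 0 z (n 0 z (n 0 z (n 0 z (n 0 z (n 0 z (n 0 z (n 0 z (n
 0 z (n 0 z (n 0 z (n 0 z (n 0 z (n 0 z (n 0 z (n 0 z (n 0 z (n 0 z (n 0 z (n 0 z (n 0 z (n 0 z
 (n 0 z (n 0 z (n 0 z (n 0 z (n 0 z (n 0 z (n 0 z (n 0 z (n 0 z (n 0 z (n 0 z (n 0 z (n 0 z (n 0
 z (n 0 z z)))))))))))))))))))))))))))))))))))))))))))))) (n 701 (n 0 z (n 0 z (n 0 z (n 0 z (n
 0 z (n 0 z (n 0 z (n 0 z (n 0 z (n 0 z (n 0 z (n 7746067 z (n 0 z (n 0 z (n 0 z (n 0 z (n 0 z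
 (n 0 z (n 0 z (n 0 z (n 0 z (n 0 z (n 0 z (n 0 z (n 0 z (n 0 z (n 0 z (n 0 z (n 0 z (n 0 z (n 0
 z (n 0 z (n 0 z (n 0 z (n 0 z (n 0 z (n 0 z (n 0 z (n 0 z (n 0 z (n 0 z (n 0 z (n 0 z (n 0 z (n
 0 z (n 0 z z)))))))))))))))))))))))))))))))))))))))))))))) z)))))) (n 0 (n 0 z (n 1169 (n 0 z
 (n 0 z (n 0 z (n 0 z (n 2 (n 2 (n 0 z (n 0 z (n 0 z (n 0 z (n 0 z (n 0 z z)))))) (n 1 z (n 2 (n
 0 z (n 0 z (n 0 z (n 0 z (n 0 z (n 0 (n 8860179 z z) z)))))) z))) (n 0 z (n 0 z (n 0 z (n 0 z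
 (n 0 z (n 0 z (n 0 z (n 0 z (n 0 z (n 0 z z))))))))))))))) (n 837 (n 0 z (n 0 z (n 0 z (n 0 z
 (n 0 z (n 0 z (n 0 z (n 0 z (n 2 (n 0 z (n 0 z z)) (n 0 z (n 0 z (n 0 z (n 0 z (n 0 z (n 0 z (n
 0 z (n 0 z (n 0 z (n 0 z (n 0 z (n 0 z (n 0 z (n 0 z z))))))))))))))))))))))) (n 837 (n 6428427
 z (n 0 z (n 0 z (n 0 z (n 0 z (n 0 z (n 0 z (n 0 z (n 0 z (n 0 z (n 0 z (n 0 z (n 0 z (n 0 z (n
 0 z (n 0 z (n 0 z (n 0 z (n 0 z (n 0 z (n 0 z (n 0 z (n 0 z z))))))))))))))))))))))) (n 837 (n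
 0 z (n 0 z (n 0 z (n 0 z (n 0 z (n 0 z (n 0 z (n 0 z (n 0 z (n 7741523 z (n 0 z (n 0 z (n 0 z
 (n 0 z (n 0 z (n 0 z (n 0 z (n 0 z (n 0 z (n 0 z (n 0 z (n 0 z (n 0 z z)))))))))))))))))))))))
 z))))) (n 0 (n 1181 (n 0 z (n 0 z (n 0 z (n 0 z (n 0 z (n 0 z (n 0 z z))))))) (n 837 (n 0 z (n
 0 z (n 0 z (n 0 z (n 0 z (n 0 z (n 0 z (n 0 z z)))))))) (n 837 (n 2 (n 0 z z) (n 0 z (n 0 z (n
 0 z (n 0 z (n 0 z (n 0 z (n 0 z z)))))))) (n 837 (n 0 z (n 0 z (n 0 z (n 0 z (n 0 z (n 0 z (n 0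
 z (n 0 z z)))))))) z)))) (n 0 (n 3 (n 0 z (n 0 z (n 0 z (n 0 z (n 0 z (n 0 z (n 0 z (n 0 z (n 0
 z (n 0 z (n 0 z (n 0 z (n 0 z (n 0 z (n 0 z (n 0 z z)))))))))))))))) (n 3 (n 0 z (n 0 z (n 0 z
 (n 0 z (n 0 z (n 2 (n 0 z z) (n 0 z (n 0 z (n 0 z (n 0 z (n 0 z (n 0 z (n 0 z (n 0 z (n 0 z (n
 0 z z)))))))))))))))) (n 3 (n 0 z (n 0 z (n 0 z (n 0 z (n 0 z (n 0 z (n 0 z (n 0 z (n 7746067 z
 (n 0 z (n 0 z (n 0 z (n 0 z (n 0 z (n 0 z (n 0 z z)))))))))))))))) z))) (n 0 (n 0 z (n 0 z z))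
 (n 0 (n 0 z z) (n 0 z z))))))))))) (n 0 (n 1 (n 3282443 z (n 3282443 z (n 3282443 z (n 3282443
 z (n 3282443 z (n 3282443 z z)))))) (n 0 z (n 0 z (n 0 z z)))) (n 0 z z)))) (n
 0x8d27444c9a1ace5c1672609931869399a0e2cd6606899026ae0091640 (n 0 (n 443 (n 3282443 z (n 2 z (n
 10 z (n 18 z (n 0 z (n 0 z (n 0 z (n 26 z z)))))))) (n 571 (n 0 z (n 3278363 z (n 0 z (n 0 z (n
 0 z (n 0 z (n 0 z (n 0 z (n 0 z (n 0 z z)))))))))) (n 397 (n 0 z (n 0 z (n 0 z (n 0 z (n 0 z (n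
 0 z (n 3212843 z (n 0 z (n 34 z (n 0 z z)))))))))) (n 3 (n 0 z (n 2164283 z (n 0 z (n 0 z (n 0
 z (n 0 z (n 0 z (n 0 z (n 0 z z))))))))) (n 1 (n 2164299 z (n 42 z (n 0 z (n 50 z (n 58 z (n 0
 z z)))))) (n 0 (n 0 z (n 0 z (n 0 z (n 2164315 z (n 0 z (n 0 z (n 66 z (n 74 z (n 0 z (n 82 z
 (n 0 z (n 0 z (n
 0x7d90d90080e00cc86c840038257e98197fe7b38377ae81e7af8397dc7f382482d7f880f7eb7c97ef8177d282583b8447de7ed8277ed7ce7da8288147cc8517f67e37b083b7eb7d981d7de81a8238828167be7d98437dd1011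
 z z))))))))))))) z)))))) (n 1 (n 0 (n 0 z (n 0 z (n 0 z (n 727 (n 0 z (n 0 z (n 0 z (n 0 z (n 0
 z (n 0 z (n 0 z (n 0 z (n 0 z (n 0 z (n 0 z (n 0 z (n 0 z (n 0 z (n 0 z (n 0 z (n 0 z (n 0 z (n
 0 z (n 0 z (n 0 z (n 0 z (n 0 z (n 0 z (n 0 z (n 0 z (n 0 z (n 0 z (n 0 z (n 0 z (n 0 z (n 0 z
 (n 0 z (n 0 z (n 0 z (n 0 z (n 0 z (n 0 z (n 0 z (n 0 z (n 0 z (n 0 z (n 0 z (n 2 (n 1 z (n 2
 (n 0 z (n 0 z (n 0 z (n 0 z (n 0 (n 8794131 z z) (n 0 z z)))))) (n 2 (n 0 z (n 0 z (n 0 z (n 0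
 z (n 0 z (n 0 z z)))))) (n 2 (n 0 z (n 0 z (n 0 z (n 0 z (n 0 z (n 0 z z)))))) (n 2 (n 0 z (n 0
 z (n 0 z (n 0 z (n 0 (n 8794131 z z) (n 0 z z)))))) (n 2 (n 0 z (n 0 z (n 0 z (n 0 z (n 0 (n
 2900 z z) (n 0 z z)))))) z)))))) (n 0 z (n 0 z (n 0 z (n 0 z (n 0 z (n 0 z (n 0 z (n 0 z (n 0 z
 (n 0 z (n 0 z (n 0 z z)))))))))))))))))))))))))))))))))))))))))))))))))))))))) (n 105 (n
 6620987 z (n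
 0xcea8ca64077fe8028007fe8017ff8008028008008028018028027fe8018018008028008028008018007ff8017fe7fe7ff8018008028018008027fe8007ff7ff7ff8018017ff8017ff8027ff8018018010811
 z (n 0 z (n 0 z (n 0 z (n 0 z (n 0 z (n 0 z (n 0 z (n 0 z (n 0 z (n 0 z (n 0 z (n 0 z (n 0 z (n
 0 z (n 0 z (n 0 z (n 0 z (n 0 z (n 0 z (n 0 z (n 0 z (n 0 z (n 0 z z)))))))))))))))))))))))))
 (n 105 (n 0 z (n 0 z (n 0 z (n 0 z (n 0 z (n 0 z (n 0 z (n 7745555 z (n 0 z (n 0 z (n 0 z (n 0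
 z (n 0 z (n 0 z (n 0 z (n 0 z (n 0 z (n 0 z (n 0 z (n 0 z (n 0 z (n 0 z (n 0 z (n 0 z (n 0 z
 z))))))))))))))))))))))))) (n 105 (n 0 z (n 0 z (n 0 z (n 0 z (n 0 z (n 0 z (n 0 z (n 0 z (n 0
 z (n 0 z (n 0 z (n 0 z (n 0 z (n 0 z (n 0 z (n 0 z (n 0 z (n 0 z (n 0 z (n 0 z (n 0 z (n 0 z (n
 0 z (n 0 z (n 2 (n 2 (n 0 z (n 0 z (n 0 z (n 0 z (n 0 z (n 0 z z)))))) (n 2 (n 0 z (n 0 z (n 0
 z (n 0 z (n 0 z (n 0 z z)))))) (n 2 (n 0 z (n 0 z (n 0 z (n 0 z (n 0 z (n 0 z z)))))) z)))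
 z))))))))))))))))))))))))) (n 725 (n 0 z (n 0 z (n 0 z (n 0 z (n 0 z (n 0 z (n 0 z (n 0 z (n 2
 (n 0 z (n 0 z z)) (n 0 z (n 0 z (n 0 z z)))))))))))) (n 725 (n 0 z (n 0 z (n 0 z (n 7745555 z
 (n 0 z (n 0 z (n 0 z (n 0 z (n 0 z (n 0 z (n 0 z (n 0 z z)))))))))))) (n 725 (n 0 z (n 2 z (n 0
 z (n 0 z (n 0 z (n 0 z (n 0 z (n 0 z (n 0 z (n 0 z (n 0 z (n 0 z z)))))))))))) z)))))))))) (n 0
 (n 0 z (n 0 z (n 885 (n 0 z (n 0 z (n 0 z (n 0 z (n 0 z (n 0 z z)))))) (n 357 (n 0 z (n 2 (n 0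
 z (n 0 z (n 1 z (n 2 (n 0 z (n 0 (n 3188 z z) (n 0 z (n 0 (n 3188 z z) (n 0 (n 8718139 z (n
 3188 z z)) (n 0 z z)))))) (n 1 z z))))) (n 0 z (n 0 z (n 0 z (n 0 z (n 0 z (n 0 z (n 0 z (n 0 z
 (n 0 z (n 0 z (n 0 z (n 0 z z)))))))))))))) (n 357 (n 0 z (n 0 z (n 0 z (n 0 z (n 0 z (n 0 z (n
 0 z (n 0 z (n 0 z (n 0 z (n 0 z (n 0 z (n 0 z (n 0 z z)))))))))))))) (n 357 (n 0 z (n 0 z (n 0
 z (n 0 z (n 0 z (n 0 z (n 0 z (n 0 z (n 0 z (n 0 z (n 0 z (n 0 z (n 0 z (n 0 z z))))))))))))))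
 (n 797 (n 0 z (n 0 z (n 0 z (n 0 z z)))) (n 797 (n 0 z (n 0 z (n 0 z (n 0 z z)))) (n 797 (n 2 z
 (n 0 z (n 0 z (n 0 z z)))) z))))))))) (n 0 (n 0 z (n 343 (n 0 z (n 0 z (n 0 z (n 0 z (n 0 z (n
 0 z (n 7741523 z (n 0 z (n 0 z (n 0 z (n 0 z z))))))))))) (n 255 (n 0 z (n 0 z (n 0 z (n 0 z (n
 0 z (n 0 z (n 0 z (n 0 z (n 0 z (n 0 z (n 0 z z))))))))))) (n 255 (n 0 z (n 0 z (n 0 z (n 0 z
 (n 0 z (n 0 z (n 0 z (n 0 z (n 0 z (n 0 z (n 0 z z))))))))))) (n 255 (n 0 z (n 0 z (n 0 z (n 0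
 z (n 0 z (n 0 z (n 0 z (n 0 z (n 0 z (n 0 z (n 7741523 z z))))))))))) (n 253 (n 0 z (n 0 z (n 0
 z (n 0 z (n 2 (n 0 z (n 0 z z)) (n 0 z (n 0 z (n 0 z (n 0 z (n 0 z (n 0 z (n 0 z (n 0 z
 z))))))))))))) (n 253 (n 0 z (n 0 z (n 0 z (n 0 z (n 0 z (n 0 z (n 0 z (n 0 z (n 0 z (n 0 z (n
 0 z (n 0 z (n 0 z z))))))))))))) (n 253 (n 0 z (n 0 z (n 0 z (n 0 z (n 0 z (n 0 z (n 0 z (n 0 z
 (n 0 z (n 0 z (n 0 z (n 0 z (n 0 z z))))))))))))) z)))))))) (n 0 (n 879 (n 0 z (n 0 z (n 0 z (n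
 0 z (n 0 z (n 0 z (n 0 z (n 0 z (n 0 z (n 0 z (n 0 z (n 0 z z)))))))))))) (n 777 (n 0 z (n 0 z
 (n 0 z (n 0 z (n 2 (n 0 z (n 0 z (n 1 z (n 1 z (n 1 z z))))) (n 0 z (n 0 z (n 0 z (n 0 z (n 0 z
 (n 0 z (n 0 z z)))))))))))) (n 777 (n 0 z (n 0 z (n 0 z (n 0 z (n 0 z (n 0 z (n 7741523 z (n 0
 z (n 0 z (n 0 z (n 0 z (n 0 z z)))))))))))) (n 777 (n 0 z (n 0 z (n 0 z (n 0 z (n 0 z (n 0 z (n
 0 z (n 0 z (n 0 z (n 0 z (n 0 z (n 0 z z)))))))))))) (n 793 (n 0 z (n 0 z (n 0 z (n 0 z (n 0 z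
 (n 0 z (n 0 z (n 0 z (n 0 z (n 0 z (n 0 z (n 0 z z)))))))))))) (n 793 (n 0 z (n 0 z (n 0 z (n 2
 (n 0 z z) (n 0 z (n 0 z (n 0 z (n 0 z (n 0 z (n 0 z (n 0 z (n 0 z z)))))))))))) (n 793 (n 0 z
 (n 0 z (n 2 z (n 0 z (n 0 z (n 0 z (n 0 z (n 0 z (n 0 z (n 0 z (n 0 z (n 0 z z))))))))))))
 z))))))) (n 0 (n 339 (n 0 z (n 0 z (n 0 z (n 0 z (n 0 z (n 0 z (n 2 (n 0 z (n 0 z (n 1 z (n 1 z
 (n 1 z z))))) (n 0 z (n 0 z (n 0 z (n 0 z (n 0 z (n 0 z (n 0 z z)))))))))))))) (n 339 (n 0 z (n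
 0 z (n 0 z (n 0 z (n 0 z (n 0 z (n 0 z (n 0 z (n 0 z (n 0 z (n 0 z (n 0 z (n 7741523 z (n 0 z
 z)))))))))))))) (n 339 (n 0 z (n 0 z (n 0 z (n 0 z (n 0 z (n 0 z (n 0 z (n 0 z (n 0 z (n 0 z (n
 0 z (n 0 z (n 0 z (n 0 z z)))))))))))))) (n 797 (n 0 z (n 0 z (n 0 z (n 0 z (n 0 z (n 0 z (n 0
 z (n 0 z (n 0 z (n 0 z z)))))))))) (n 797 (n 2 (n 0 z z) (n 0 z (n 0 z (n 0 z (n 0 z (n 0 z (n
 0 z (n 0 z (n 0 z (n 0 z z)))))))))) (n 797 (n 0 z (n 0 z (n 0 z (n 0 z (n 0 z (n 2 z (n 0 z (n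
 0 z (n 0 z (n 0 z z)))))))))) z)))))) (n 0 (n 0 z (n 0 z (n 1 (n 0 z (n 0 z (n 0 z (n 0 z (n 0
 z (n 0 z (n 0 z (n 0 z (n 0 z (n 0 z (n 0 z (n 0 z (n 0 z (n 0 z (n 0 z (n 0 z (n 0 z (n 0 z (n
 0 z (n 0 z (n 0 z (n 0 z (n 0 z (n 0 z (n 0 z (n 0 z (n 0 z (n 0 z (n 0 z (n 0 z (n 0 z (n 0 z
 (n 0 z (n 0 z (n 0 z (n 0 z (n 0 z (n 2 (n 0 z (n 0 z z)) (n 0 z (n 0 z (n 0 z (n 0 z (n 0 z (n
 0 z (n 0 z (n 0 z z)))))))))))))))))))))))))))))))))))))))))))))) (n 1 (n 0 z (n 0 z (n 0 z (n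
 0 z (n 0 z (n 0 z (n 0 z (n 0 z (n 0 z (n 0 z (n 0 z (n 0 z (n 0 z (n 0 z (n 0 z (n 0 z (n 0 z
 (n 0 z (n 0 z (n 0 z (n 0 z (n 0 z (n 0 z (n 0 z (n 0 z (n 0 z (n 0 z (n 0 z (n 0 z (n 0 z (n 0
 z (n 0 z (n 0 z (n 0 z (n 0 z (n 0 z (n 0 z (n 0 z (n 0 z (n 0 z (n 0 z (n 0 z (n 0 z (n 0 z (n
 0 z (n 0 z z)))))))))))))))))))))))))))))))))))))))))))))) (n 1 (n 0 z (n 0 z (n 0 z (n 0 z (n
 0 z (n 0 z (n 0 z (n 0 z (n 0 z (n 0 z (n 0 z (n 0 z (n 0 z (n 0 z (n 0 z (n 0 z (n 0 z (n 0 z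
 (n 0 z (n 0 z (n 0 z (n 0 z (n 0 z (n 0 z (n 0 z (n 0 z (n 0 z (n 0 z (n 0 z (n 0 z (n 0 z (n 0
 z (n 0 z (n 0 z (n 0 z (n 0 z (n 0 z (n 0 z (n 0 z (n 0 z (n 0 z (n 0 z (n 0 z (n 0 z (n 0 z (n
 0 z z)))))))))))))))))))))))))))))))))))))))))))))) z))))) (n 0 (n 0 z (n 389 (n 0 z (n 0 z (n
 0 z (n 0 z (n 0 z (n 0 z (n 0 z (n 0 z (n 0 z (n 0 z (n 0 z (n 0 z (n 0 z (n 0 z (n 0 z (n 0 z
 (n 0 z (n 0 z (n 0 z (n 0 z (n 0 z (n 0 z (n 0 z (n 0 z (n 0 z (n 0 z (n 0 z (n 0 z (n 0 z (n 0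
 z (n 0 z (n 0 z (n 2 (n 0 z (n 0 z z)) (n 0 z (n 0 z (n 0 z (n 0 z (n 0 z (n 0 z (n 0 z (n 0 z
 (n 0 z (n 0 z (n 0 z (n 0 z (n 0 z (n 0 z (n 0 z (n 0 z
 z))))))))))))))))))))))))))))))))))))))))))))))))) (n 389 (n 0 z (n 0 z (n 0 z (n 0 z (n 0 z (n
 0 z (n 0 z (n 0 z (n 0 z (n 0 z (n 0 z (n 0 z (n 0 z (n 0 z (n 0 z (n 0 z (n 0 z (n 0 z (n 0 z
 (n 0 z (n 0 z (n 0 z (n 0 z (n 0 z (n 0 z (n 0 z (n 0 z (n 0 z (n 0 z (n 0 z (n 0 z (n 0 z (n 0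
 z (n 0 z (n 0 z (n 0 z (n 0 z (n 0 z (n 0 z (n 0 z (n 0 z (n 0 z (n 0 z (n 0 z (n 0 z (n 0 z (n
 0 z (n 0 z (n 0 z z))))))))))))))))))))))))))))))))))))))))))))))))) (n 389 (n 0 z (n 0 z (n 0
 z (n 0 z (n 0 z (n 0 z (n 0 z (n 0 z (n 0 z (n 0 z (n 0 z (n 0 z (n 0 z (n 0 z (n 0 z (n 0 z (n
 0 z (n 0 z (n 0 z (n 0 z (n 0 z (n 0 z (n 0 z (n 0 z (n 0 z (n 0 z (n 0 z (n 0 z (n 0 z (n 0 z
 (n 0 z (n 0 z (n 0 z (n 0 z (n 0 z (n 0 z (n 0 z (n 0 z (n 0 z (n 0 z (n 0 z (n 0 z (n 0 z (n 0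
 z (n 0 z (n 0 z (n 0 z (n 0 z (n 0 z z))))))))))))))))))))))))))))))))))))))))))))))))) z))))
 (n 0 (n 1 (n 0 z (n 0 z (n 0 z (n 0 z (n 0 z (n 0 z (n 0 z (n 0 z (n 0 z (n 0 z (n 0 z
 z))))))))))) (n 1 (n 0 z (n 2 (n 0 z z) (n 0 z (n 0 z (n 0 z (n 0 z (n 0 z (n 0 z (n 0 z (n 0 z
 (n 0 z z))))))))))) (n 1 (n 0 z (n 0 z (n 0 z (n 0 z (n 0 z (n 0 z (n 2 z (n 0 z (n 0 z (n 0 z
 (n 0 z z))))))))))) z))) (n 0 (n 0 z (n 0 z z)) (n 0 (n 0 z z) (n 0 z z))))))))))) (n 0 (n 1 (n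
 2164299 z (n 2164299 z (n 2164299 z (n 2164299 z (n 2164299 z (n 2164299 z z)))))) (n 1 (n
 5506619 z (n 3548 z (n 5517411 z (n 3548 z (n 3548 z (n 3548 z z)))))) (n 0 z (n 1 (n 3548 z (n
 3548 z (n 3548 z (n 4572 z (n 5510667 z (n 5506603 z z)))))) (n 1 (n 3548 z (n 3548 z (n 4572 z
 (n 3548 z (n 3548 z (n 3548 z z)))))) (n 0 z z)))))) (n 0 z z)))) (n 0x30b14904dac (n 0 (n 563
 (n 0 z (n 3282443 z (n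
 0x396527e572b86382285d72285c81a82589b81e81f86e66499e7e271b7237dd72391a76192575e8620041 z (n 0 z
 (n 0 z (n 0 z (n 0 z (n 0 z (n 0 z (n 0 z z)))))))))) (n 451 (n 3278363 z (n 0 z (n 0 z (n 0 z
 (n 0 z (n 0 z (n 0 z (n 0 z (n 0 z (n 0 z (n 0 z z))))))))))) (n 517 (n 0 z (n 0 z (n 0 z (n 0
 z (n 0 z (n 0 z (n 3212843 z (n 0 z (n 0 z (n 0 z (n 0 z (n 0 z z)))))))))))) (n 3 (n 6631691 z
 (n 0 z (n 0 z (n 0 z (n 0 z z))))) (n 1 (n 0 z (n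
 0x4ca4ca420371a71d89f82286495c96382275e8a28da69c9e581a7207997e59258de96072386176385b89f0801 z
 (n 0 z (n 0 z (n 2164299 z (n 0 z (n 2 z (n 0 z (n 0 z (n 10 z z)))))))))) (n 0 (n 0 z (n 0 z
 (n 6631691 z (n 0 z (n 0 z (n 0 z (n 0 z (n 0 z (n 0 z (n 0 z (n 0 z (n 0 z (n 0 z
 z))))))))))))) z)))))) (n 3 (n 0 (n 0 z z) (n 0 z z)) (n 0 (n 1 (n 6631691 z (n 6631691 z (n
 6631691 z (n 6631691 z (n 6631691 z (n 6631691 z z)))))) (n 0 z (n 0 z (n 0 z (n 0 z z))))) (n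
 0 z z)))) (n 0x56e1b6b10a (n 0 (n 563 (n 0 z (n 3282443 z (n
 0x616527a86728a582285b6a581981486981789d85f876527a9d7a27186647dc6a69966e29a869e8220041 z (n 0 z
 (n 0 z (n
 0x616547a86728a582285b6a581981486981789d85f876527a9d7a27186647dc6a69966e29a869e8220041 z (n 0 z
 (n 0 z (n 0 z (n 0 z (n
 0x616217a86728a582285b6a581981486981789d85f876527a9d7a27186647dc6a69966e29a869e8220041 z (n 0 z
 (n 0 z (n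
 0x396217e572c8637e285d6e281c85882681a85e82086e66499e7e275b6e27dd72491a76292571f8210041 z
 z)))))))))))))) (n 451 (n 3278363 z (n 0 z (n 0 z (n 0 z (n 0 z (n 0 z (n 0 z (n 0 z z))))))))
 (n 517 (n 0 z (n 2 z (n 0 z (n 3212843 z (n 0 z z))))) (n 3 (n 6631691 z (n 0 z (n 0 z (n 0 z
 (n 0 z (n 0 z (n 0 z z))))))) (n 1 (n 0 z (n 0 z (n 0 z (n 2164299 z (n 0 z (n 0 z (n 0 z
 z))))))) (n 0 (n 6631691 z (n 0 z (n 0 z (n 0 z (n 10 z (n 0 z (n 0 z (n 0 z (n 0 z (n 0 z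
 z)))))))))) z)))))) (n 517 (n 0 (n 1033 (n 0 z (n 0 z (n 0 z (n 0 z (n 0 z (n 0 z (n 0 z (n 0 z
 (n 0 z (n 0 z (n 0 z (n 0 z (n 0 z (n 0 z (n 0 z (n 0 z (n 0 z (n 0 z (n 0 z (n 0 z (n 0 z
 z))))))))))))))))))))) z) (n 0 z z)) (n 0 (n 0 z (n 1 (n 4508 z (n 5375515 z (n 4508 z (n 4508
 z (n 4508 z (n 4508 z z)))))) (n 0 z (n 1 (n 3212843 z (n 3212843 z (n 3212843 z (n 3212843 z
 (n 3212843 z (n 3212843 z z)))))) (n 0 z z))))) (n 0 z z)))) (n 0x11c12a (n 0 (n 465 (n 3282443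
 z (n 0 z (n 0 z (n 0 z (n 0 z z))))) (n 33 (n 3278363 z (n 0 z (n 0 z (n 0 z (n 0 z (n 0 z (n 0
 z z))))))) (n 129 (n 0 z (n 0 z (n 0 z (n 2 z (n 3212843 z (n 0 z (n 0 z z))))))) (n 3 (n
 6631947 z (n 0 z (n 0 z (n 0 z (n 0 z (n 0 z (n 0 z (n 0 z (n 0 z z))))))))) (n 1 (n 0 z (n 0 z
 (n 0 z (n 0 z (n 0 z (n 6558507 z (n 0 z z))))))) (n 0 (n 0 z (n 0 z (n 0 z (n 0 z (n 6631947 z
 (n 0 z (n 0 z z))))))) z)))))) (n 465 (n 0 z z) (n 0 (n 1 (n 6631947 z (n 3282443 z (n 3282443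
 z (n 3282443 z (n 3282443 z (n 3282443 z z)))))) (n 0 z (n 0 z (n 0 z (n 0 z z))))) (n 0 z
 z)))) (n 0 (n 0 (n 323 (n 0 z (n 0 z (n 0 z (n 3282443 z (n 0 z z))))) (n 257 (n 0 z (n 0 z (n
 0 z (n 3278363 z (n 0 z (n 0 z (n 0 z (n 0 z z)))))))) (n 9 (n 0 z (n 0 z (n 0 z (n 0 z (n
 6497563 z (n 6497563 z (n 0 z (n 0 z (n 0 z (n 0 z (n 0 z (n 0 z z)))))))))))) (n 27 (n 0 z (n
 0 z (n 0 z (n
 0xcca8ca800789d8218a185d89f8de89e75c8e18207df8a086081e8a079f8a18218217e17de7e18218a17e10801 z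
 (n 0 z (n 0 z (n 6497563 z (n 6497563 z (n 0 z (n 0 z (n 0 z (n 0 z (n
 0x4ca8a8420381f8218208208208608607e085f82082082081f8208208208208208608207e181f8208607e00801 z
 (n 4326971 z z)))))))))))))) (n 1 (n 0 z (n 0 z (n 0 z (n 0 z (n 0 z (n 0 z (n 0 z (n 0 z (n
 2164299 z z))))))))) (n 0 (n 0 z (n 0 z (n 0 z (n 0 z (n 0 z (n 0 z (n 0 z (n 0 z (n 6624043 z
 (n 0 z z)))))))))) z)))))) (n 323 z (n 0 (n 0 z (n 0 z (n 0 z (n 1 (n 3282443 z (n 3282443 z (n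
 3282443 z (n 3282443 z (n 3282443 z (n 3282443 z z)))))) (n 0 z z))))) (n 0 z z)))) (n 0xc85d
 (n 0 (n 201 (n 0 z (n 0 z (n 0 z (n 0 z (n 3282443 z (n 0 z (n 0 z (n 0 z (n 0 z (n 0 z (n 0 z
 (n 0 z (n 0 z (n 0 z (n 0 z (n 0 z z)))))))))))))))) (n 35 (n 3278363 z (n 0 z (n 0 z (n 0 z (n
 0 z (n 0 z (n 0 z z))))))) (n 135 (n 0 z (n 0 z (n 0 z (n 0 z (n 0 z (n 0 z (n 0 z (n 3212843 z
 (n 0 z (n 0 z (n 0 z (n 0 z (n 0 z (n 0 z (n 0 z (n 0 z (n 0 z (n 0 z (n 0 z (n 0 z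
 z)))))))))))))))))))) (n 3 (n 0 z (n 0 z (n 0 z (n 0 z (n 2164283 z (n 0 z (n 0 z (n 0 z (n 0 z
 z))))))))) (n 1 (n 6636043 z (n 0 z (n 0 z (n 0 z (n 0 z (n 0 z (n 0 z (n 0 z (n 0 z (n 0 z (n
 0 z (n 6636043 z (n 0 z z))))))))))))) (n 0 (n 2 z (n 0 z (n 0 z (n 0 z (n 0 z (n 0 z (n 0 z (n
 0 z (n 0 z (n 6636043 z z)))))))))) z)))))) (n 35 (n 0 z z) (n 0 (n 1 (n 3278363 z (n 3278363 z
 (n 3278363 z (n 3278363 z (n 3278363 z (n 3278363 z z)))))) (n 0 z (n 0 z (n 0 z (n 0 z (n 0 z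
 (n 0 z z))))))) (n 0 z z)))) (n 0x6912a1271dc244a6c224e20e371211ada408c498676910112700 (n 0 (n
 345 (n 2 z (n 0 z (n 3282443 z (n 10 z z)))) (n 435 (n 3278363 z (n 18 z (n 26 z z))) (n 433 (n
 3212843 z (n 34 z (n 0 z z))) (n 125 (n 42 z (n 2164283 z (n 0 z (n 50 z z)))) (n 1 (n 0 z (n 0
 z (n 0 z (n 2164299 z (n 58 z (n 0 z z)))))) (n 0 (n 66 z (n 0 z (n 0 z (n 74 z (n 2164315 z
 z))))) z)))))) (n 435 (n 0 (n 0 z (n 127 (n 0 z (n 0 z (n 0 z (n 0 z (n 0 z (n 0 z (n 0 z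
 z))))))) (n 127 (n 0 z (n 0 z (n 0 z (n 0 z (n 0 z (n 2 (n 1 z (n 1 z (n 1 z (n 1 z (n 1 z (n 1
 z z)))))) (n 0 z z))))))) (n 123 (n 0 z (n 0 z (n 0 z (n 0 z (n 0 z (n 0 z (n 0 z (n 0 z (n 0 z
 (n 0 z (n 0 z (n 0 z (n 0 z (n 0 z (n 0 z (n 0 z (n 0 z z))))))))))))))))) (n 675 (n 0 z (n 0 z
 (n 0 z (n 0 z (n 0 z (n 0 z z)))))) (n 675 (n 0 z (n 0 z (n 0 z (n 0 z (n 2 (n 1 z (n 1 z (n 1
 z z))) (n 0 z z)))))) (n 673 (n 0 z (n 0 z (n 0 z (n 0 z (n 0 z (n 0 z (n 0 z z))))))) (n 125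
 (n 0 z (n 0 z (n 0 z (n 0 z z)))) (n 125 (n 0 z (n 0 z (n 0 z (n 0 z z)))) z))))))))) (n 0 (n
 891 (n 0 z (n 0 z (n 0 z (n 0 z (n 0 z (n 0 z (n 0 z (n 0 z (n 0 z (n 0 z (n 0 z (n 0 z (n 0 z
 (n 2 (n 0 z (n 1 z (n 1 z (n 1 z (n 1 z (n 1 z (n 1 z z))))))) (n 0 z (n 0 z (n 0 z (n 0 z (n 0
 z (n 0 z (n 0 z (n 0 z z)))))))))))))))))))))) (n 891 (n 0 z (n 0 z (n 0 z (n 0 z (n 0 z (n 0 z
 (n 0 z (n 0 z (n 0 z (n 0 z (n 0 z (n 0 z (n 0 z (n 0 z (n 0 z (n 0 z (n 0 z (n 0 z (n 0 z (n 0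
 z (n 0 z (n 0 z z)))))))))))))))))))))) (n 23 (n 0 z (n 0 z (n 0 z (n 0 z (n 0 z (n 0 z (n 0 z
 (n 0 z (n 0 z (n 0 z (n 0 z (n 0 z (n 0 z (n 0 z (n 0 z (n 0 z (n 0 z (n 0 z (n 0 z (n 0 z (n 0
 z (n 0 z (n 0 z z))))))))))))))))))))))) (n 687 (n 0 z (n 2 (n 0 z (n 1 z (n 1 z (n 1 z z))))
 (n 0 z (n 0 z z)))) (n 687 (n 0 z (n 0 z (n 0 z (n 0 z z)))) (n 685 (n 0 z (n 0 z (n 0 z (n 0 z
 (n 0 z (n 0 z z)))))) (n 241 (n 0 z (n 0 z z)) (n 241 (n 0 z (n 0 z z)) z)))))))) (n 0 (n 0 z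
 (n 363 (n 0 z (n 0 z (n 0 z (n 0 z (n 0 z z))))) (n 387 (n 0 z (n 0 z (n 0 z (n 0 z (n 0 z (n 0
 z (n 0 z (n 0 z (n 0 z (n 0 z (n 0 z (n 0 z (n 0 z (n 0 z (n 0 z (n 0 z (n 0 z (n 0 z (n 0 z (n
 0 z (n 0 z (n 0 z (n 0 z (n 0 z (n 0 z (n 0 z z)))))))))))))))))))))))))) (n 387 (n 0 z (n 0 z
 (n 0 z (n 0 z (n 0 z (n 0 z (n 0 z (n 0 z (n 0 z (n 0 z (n 0 z (n 0 z (n 0 z (n 0 z (n 0 z (n 0
 z (n 0 z (n 0 z (n 0 z (n 0 z (n 0 z (n 0 z (n 0 z (n 2 (n 1 z (n 1 z (n 1 z z))) (n 0 z (n 0 z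
 z)))))))))))))))))))))))))) (n 339 (n 0 z (n 0 z (n 0 z (n 0 z (n 0 z (n 0 z (n 2 (n 1 z (n 1 z
 z)) (n 0 z z)))))))) (n 361 (n 0 z (n 0 z (n 0 z (n 0 z (n 0 z (n 0 z (n 0 z (n 0 z z))))))))
 (n 361 (n 0 z (n 0 z (n 2 z (n 0 z (n 0 z (n 0 z (n 0 z (n 0 z z)))))))) z))))))) (n 0 (n 19 (n
 0 z (n 0 z (n 2 (n 1 z (n 1 z (n 1 z (n 1 z (n 1 z z))))) (n 0 z z)))) (n 7 (n 0 z (n 0 z (n 0
 z (n 0 z (n 0 z (n 0 z (n 0 z (n 0 z (n 0 z (n 2 (n 0 z (n 1 z (n 1 z (n 1 z z)))) (n 0 z (n 0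
 z (n 0 z (n 0 z (n 0 z (n 0 z (n 0 z z))))))))))))))))) (n 7 (n 0 z (n 0 z (n 0 z (n 0 z (n 0 z
 (n 0 z (n 0 z (n 0 z (n 0 z (n 0 z (n 0 z (n 0 z (n 0 z (n 0 z (n 0 z (n 0 z (n 0 z
 z))))))))))))))))) (n 3 (n 0 z (n 0 z (n 0 z (n 0 z (n 0 z (n 0 z z)))))) (n 13 (n 2 (n 0 z z)
 (n 0 z (n 0 z (n 0 z (n 0 z (n 0 z (n 0 z z))))))) (n 13 (n 0 z (n 0 z (n 0 z (n 0 z (n 0 z (n
 0 z (n 0 z z))))))) z)))))) (n 0 (n 627 (n 0 z (n 0 z (n 0 z (n 0 z (n 0 z (n 0 z z)))))) (n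
 627 (n 0 z (n 0 z (n 0 z (n 0 z (n 2 (n 1 z (n 1 z (n 1 z z))) (n 0 z z)))))) (n 579 (n 0 z (n
 0 z (n 0 z z))) (n 601 (n 0 z (n 0 z (n 0 z (n 0 z (n 0 z (n 0 z (n 0 z (n 0 z (n 0 z
 z))))))))) (n 601 (n 0 z (n 0 z (n 0 z (n 0 z (n 0 z (n 0 z (n 0 z (n 0 z (n 0 z z)))))))))
 z))))) (n 0 (n 0 z (n 3 (n 0 z (n 0 z (n 0 z (n 0 z (n 2 (n 1 z (n 1 z z)) (n 0 z (n 0 z
 z))))))) (n 1 (n 0 z (n 0 z (n 0 z (n 0 z (n 0 z (n 0 z (n 0 z (n 0 z z)))))))) (n 1 (n 0 z (n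
 0 z (n 0 z (n 0 z (n 0 z (n 0 z (n 0 z (n 2 z z)))))))) z)))) (n 0 (n 255 (n 0 z (n 0 z (n 0 z
 (n 0 z (n 0 z (n 0 z (n 0 z (n 0 z (n 0 z z))))))))) (n 13 (n 2 (n 0 z z) (n 0 z (n 0 z (n 0 z
 (n 0 z z))))) (n 13 (n 0 z (n 0 z (n 0 z (n 0 z (n 0 z z))))) z))) (n 0 (n 25 (n 0 z (n 0 z (n
 0 z (n 0 z (n 0 z (n 0 z (n 0 z (n 0 z (n 0 z z))))))))) (n 25 (n 0 z (n 0 z (n 0 z (n 0 z (n 0
 z (n 0 z (n 0 z (n 0 z (n 0 z z))))))))) z)) (n 0 (n 0 z z) (n 0 z z)))))))))) (n 0 (n 1 (n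
 3278363 z (n 3278363 z (n 3278363 z (n 3278363 z (n 3278363 z (n 3278363 z z)))))) (n 1 (n 2764
 z (n 2764 z (n 2764 z (n 12 z (n 4261435 z (n 2764 z z)))))) (n 1 (n 2764 z (n 3468 z (n 2764 z
 (n 2764 z (n 5379643 z (n 2764 z z)))))) z))) (n 0 z z)))) (n
 0x5b14a1576509966d15d92875c9032cc80b26440b2e26194a2112aab10c4c826aae81132c0 (n 0x22659 (n 321
 (n 0 z (n 3282443 z (n 2 z (n 10 z (n 0 z z))))) (n 255 (n 0 z (n 0 z (n 0 z (n 0 z (n 18 z (n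
 0 z (n 0 z (n 0 z (n 3278363 z (n 0 z (n 0 z (n 26 z (n 0 z z))))))))))))) (n 9 (n 34 z (n 0 z
 (n 0 z (n 0 z (n 0 z (n 42 z (n 0 z (n 0 z (n 3212843 z (n 0 z (n 0 z (n 0 z (n 0 z (n 0 z (n 0
 z (n 0 z z)))))))))))))))) (n 27 (n 0 z (n 0 z (n 2164283 z (n 0 z (n 0 z (n 0 z (n 50 z (n 0 z
 z)))))))) (n 1 (n 58 z (n 0 z (n 66 z (n 74 z (n 82 z (n 0 z (n 2164299 z (n 0 z (n 0 z
 z))))))))) (n 0 (n 90 z (n 98 z (n 0 z (n 6619675 z (n 106 z (n 6619675 z (n 4327003 z (n 0 z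
 z)))))))) z)))))) (n 321 (n 0 (n 0 z (n 511 (n 0 z (n 0 z (n 0 z (n 0 z (n 0 z (n 0 z (n 0 z (n
 0 z (n 0 z (n 0 z (n 0 z (n 0 z (n 0 z (n 0 z (n 0 z (n 0 z (n 0 z (n 0 z (n 0 z (n 0 z
 z)))))))))))))))))))) (n 511 (n 0 z (n 0 z (n 0 z (n 0 z (n 0 z (n 0 z (n 0 z (n 0 z (n 0 z (n
 0 z (n 0 z (n 0 z (n 0 z (n 0 z (n 2 (n 1 z (n 2 (n 0 z (n 0 z (n 0 z (n 0 z (n 0 z (n 0 z
 z)))))) (n 2 (n 0 z (n 0 z (n 0 z (n 0 z (n 0 z (n 0 z z)))))) (n 2 (n 0 z (n 0 z (n 0 z (n 0 z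
 (n 0 z (n 0 z z)))))) (n 2 (n 0 z (n 0 z (n 0 z (n 0 z (n 0 z (n 0 z z)))))) (n 2 (n 0 z (n 0 z
 (n 0 z (n 0 z (n 0 z (n 0 z z)))))) (n 2 (n 0 z (n 0 z (n 0 z (n 0 z (n 0 z (n 0 z z)))))) (n 2
 (n 0 z (n 0 z (n 0 z (n 0 z (n 0 z (n 0 z z)))))) (n 2 (n 0 z (n 0 z (n 0 z (n 0 z (n 0 z (n 0
 z z)))))) (n 2 (n 0 z (n 0 z (n 0 z (n 0 z (n 0 z (n 0 z z)))))) z)))))))))) (n 0 z (n 0 z (n 0
 z (n 0 z (n 0 z z)))))))))))))))))))) (n 151 (n 0 z (n 0 z (n 2 (n 0 z (n 1 z (n 1 z (n 2 (n 0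
 z (n 0 z (n 0 z (n 0 z (n 0 z (n 0 z z)))))) (n 2 (n 0 z (n 0 z (n 0 z (n 0 z (n 0 z (n 0 z
 z)))))) (n 2 (n 0 z (n 0 z (n 0 z (n 0 z (n 0 z (n 0 z z)))))) (n 1 z (n 2 (n 0 z (n 0 z (n 0 z
 (n 0 z (n 0 z (n 0 z z)))))) (n 1 z z))))))))) (n 0 z (n 6620987 z (n 0 z (n 0 z (n 0 z (n 0 z
 (n 0 z (n 0 z (n 0 z (n 0 z (n 0 z (n 0 z (n 0 z (n 0 z (n 0 z (n 0 z (n 0 z (n 0 z (n 0 z (n 0
 z (n 0 z (n 0 z (n 0 z z)))))))))))))))))))))))))) (n 151 (n 0 z (n 0 z (n 0 z (n 0 z (n 0 z (n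
 0 z (n 0 z (n 0 z (n 0 z (n 0 z (n 0 z (n 0 z (n 0 z (n 0 z (n 0 z (n 0 z (n 0 z (n 0 z (n 0 z
 (n 0 z (n 0 z (n 0 z (n 0 z (n 0 z (n 0 z (n 0 z z)))))))))))))))))))))))))) (n 507 (n 0 z (n 0
 z (n 0 z (n 0 z (n 0 z (n 0 z (n 0 z (n 0 z (n 0 z z))))))))) (n 483 (n 0 z (n 0 z (n 0 z (n 0
 z (n 0 z (n 0 z (n 0 z (n 0 z (n 0 z (n 0 z (n 0 z (n 0 z z)))))))))))) (n 483 (n 0 z (n 0 z (n
 0 z (n 0 z (n 0 z (n 0 z (n 0 z (n 0 z (n 0 z (n 0 z (n 0 z (n 0 z z)))))))))))) (n 483 (n 0 z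
 (n 0 z (n 0 z (n 0 z (n 0 z (n
 0x4ecaeca2038181807e837e838282817f847c777b84887e7d827a7d7b887e86877a78847a7c8684827c798080817f7c7f7b8d7e87827a830809
 z (n
 0x1d95d9440e08ea8ca4207848479868d7f7b7183787a828686808d777f7e857b7e888e7987718385877e6a9272837a74927c798b8886848f797e8d867b1009
 z (n 0 z (n 0 z (n 0 z (n 0 z (n 0 z z)))))))))))) (n 483 (n 0 z (n 0 z (n 0 z (n 0 z (n 0 z (n
 0 z (n 0 z (n 0 z (n 2 (n 2 (n 0 z (n 0 z (n 0 z (n 0 z (n 0 z (n 0 z z)))))) (n 2 (n 0 z (n 0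
 z (n 0 z (n 0 z (n 0 z (n 0 z z)))))) (n 2 (n 0 z (n 0 z (n 0 z (n 0 z (n 0 z (n 0 (n 2020 z z)
 z)))))) z))) (n 0 z (n 0 z (n 0 z z)))))))))))) (n 505 (n 0 z (n 0 z (n 0 z (n 0 z (n 0 z (n 0
 z (n 0 z (n 0 z (n 0 z (n 0 z (n 0 z (n 0 z z)))))))))))) (n 505 (n 0 z (n 0 z (n 0 z (n 0 z (n
 0 z (n 0 z (n 0 z (n 2 (n 0 z z) (n 0 z (n 0 z (n 0 z (n 0 z z)))))))))))) (n 505 (n 0 z (n 0 z
 (n 0 z (n 0 z (n 0 z (n 2 z (n 0 z (n 0 z (n 0 z (n 0 z (n 0 z (n 0 z z))))))))))))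
 z))))))))))))) (n 0 (n 1063 (n 0 z (n 0 z (n 0 z (n 0 z (n 0 z (n 0 z (n 0 z (n 2 (n 0 z (n 1 z
 (n 2 (n 0 z (n 0 z (n 0 z (n 0 z (n 0 z (n 0 z z)))))) (n 2 (n 0 z (n 0 z (n 0 z (n 0 z (n 0 z
 (n 0 z z)))))) (n 2 (n 0 z (n 0 z (n 0 z (n 0 z (n 0 z (n 0 z z)))))) (n 2 (n 0 z (n 0 z (n 0 z
 (n 0 z (n 0 z (n 0 z z)))))) (n 2 (n 0 z (n 0 z (n 0 z (n 0 z (n 0 z (n 0 z z)))))) (n 1 z (n 2
 (n 0 z (n 0 z (n 0 z (n 0 z (n 0 z (n 0 z z)))))) (n 2 (n 0 z (n 0 z (n 0 z (n 0 z (n 0 z (n 0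
 z z)))))) (n 2 (n 0 z (n 0 z (n 0 z (n 0 z (n 0 z (n 0 (n 4228 z z) z)))))) z))))))))))) (n 0 z
 z))))))))) (n 1063 (n 0 z (n 0 z (n 0 z (n 0 z (n 0 z (n 0 z (n 0 z (n 0 z (n 0 z z))))))))) (n
 927 (n 0 z (n 0 z (n 0 z (n 0 z (n 2 (n 0 z (n 2 (n 0 z (n 0 z (n 0 z (n 0 z (n 0 z (n 0 z
 z)))))) (n 2 (n 0 z (n 0 z (n 0 z (n 0 z (n 0 z (n 0 z z)))))) (n 2 (n 0 z (n 0 z (n 0 z (n 0 z
 (n 0 z (n 0 z z)))))) (n 1 z (n 1 z (n 2 (n 0 z (n 0 z (n 0 z (n 0 z (n 0 z (n 0 z z)))))) (n 1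
 z (n 1 z z))))))))) (n 0 z z)))))) (n 927 (n 0 z (n 2 (n 2 (n 0 z (n 0 z (n 0 z (n 0 z (n 0 z
 (n 0 z z)))))) (n 2 (n 0 z (n 0 z (n 0 z (n 0 z (n 0 z (n 0 z z)))))) (n 2 (n 0 z (n 0 z (n 0 z
 (n 0 z (n 0 z (n 0 z z)))))) (n 2 (n 0 z (n 0 z (n 0 z (n 0 z (n 0 z (n 0 (n 8790355 z z)
 z)))))) (n 1 z (n 2 (n 0 z (n 0 z (n 0 z (n 0 z (n 0 z (n 0 z z)))))) (n 2 (n 0 z (n 0 z (n 0 z
 (n 0 z (n 0 z (n 0 (n 8872731 z z) z)))))) (n 2 (n 0 z (n 0 z (n 0 z (n 0 z (n 0 z (n 0 (n 4228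
 z z) z)))))) z)))))))) (n 0 z (n 0 z (n 0 z (n 0 z z)))))) (n 1059 (n 0 z (n 0 z (n 0 z (n 0 z
 (n 0 z (n 0 z (n 0 z (n 2 (n 2 (n 0 z (n 0 z (n 0 z (n 0 z (n 0 z (n 0 z z)))))) (n 2 (n 0 z (n
 0 z (n 0 z (n 0 z (n 0 z (n 0 z z)))))) (n 2 (n 0 z (n 0 z (n 0 z (n 0 z (n 0 z (n 0 z z))))))
 (n 1 z (n 2 (n 0 z (n 0 z (n 0 z (n 0 z (n 0 z (n 0 z z)))))) (n 2 (n 0 z (n 0 z (n 0 z (n 0 z
 (n 0 z (n 0 z z)))))) (n 2 (n 0 z (n 0 z (n 0 z (n 0 z (n 0 z (n 0 (n 4228 z z) z))))))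
 z))))))) z)))))))) (n 303 (n 0 z (n 0 z (n 0 z (n 0 z (n 0 z (n 0 z (n 0 z (n 0 z (n
 0x10ea8ca42079897528a827f994b8c7b69a78782929669816b9065848d966f8b71748390765fa8848170669f8376759189a39d7e69779a6a0809
 z (n 0 z (n 0 z (n 0 z (n 0 z z))))))))))))) (n 303 (n 0 z (n 0 z (n 0 z (n 0 z (n 0 z (n 2 (n
 0 z (n 0 z (n 2 (n 0 z (n 0 z (n 0 z (n 0 z (n 0 z (n 0 z z)))))) (n 2 (n 0 z (n 0 z (n 0 z (n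
 0 z (n 0 z (n 0 z z)))))) (n 2 (n 0 z (n 0 z (n 0 z (n 0 z (n 0 z (n 0 z z)))))) z))))) (n 0 z
 (n 0 z (n 0 z (n 0 z (n 0 z (n 0 z (n 0 z z))))))))))))) (n 303 (n 0 z (n 0 z (n 0 z (n 0 z (n
 0 z (n 0 z (n 0 z (n 0 z (n 0 z (n 0 z (n 0 z (n 0 z (n 0 z z))))))))))))) (n 303 (n 0 z (n 0 z
 (n 0 z (n 0 z (n 0 z (n 0 z (n 0 z (n 0 z (n 0 z (n 0 z (n 0 z (n 0 z (n 0 z z))))))))))))) (n
 1057 (n 0 z (n 0 z (n 0 z (n 0 z (n 0 z (n 2 (n 0 z (n 0 z z)) (n 0 z (n 0 z (n 0 z (n 0 z (n 0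
 z (n 0 z (n 0 z z))))))))))))) (n 1057 (n 0 z (n 0 z (n 0 z (n 0 z (n 0 z (n 0 z (n 0 z (n 0 z
 (n 0 z (n 0 z (n 0 z (n 0 z (n 0 z z))))))))))))) (n 1057 (n 0 z (n 0 z (n 0 z (n 0 z (n 0 z (n
 0 z (n 0 z (n 0 z (n 0 z (n 0 z (n 0 z (n 0 z (n 0 z z))))))))))))) z)))))))))))) (n 0 (n 0 z
 (n 19 (n 0 z (n 2 (n 0 z (n 1 z (n 1 z (n 1 z (n 2 (n 0 z (n 0 z (n 0 z (n 0 z (n 0 z (n 0 z
 z)))))) (n 2 (n 0 z (n 0 z (n 0 z (n 0 z (n 0 z (n 0 z z)))))) (n 1 z (n 2 (n 0 z (n 0 z (n 0 z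
 (n 0 z (n 0 z (n 0 (n 2132 z z) z)))))) (n 1 z z))))))))) (n 0 z (n 0 z (n 0 z (n 0 z (n 0 z (n
 0 z (n 0 z (n 0 z (n 0 z (n 0 z z)))))))))))) (n 19 (n 0 z (n 0 z (n 0 z (n 0 z (n 0 z (n 0 z
 (n 0 z (n 0 z (n 0 z (n 0 z (n 0 z (n 0 z z)))))))))))) (n 535 (n 0 z (n 0 z (n 0 z (n 0 z (n 0
 z (n 0 z (n 0 z (n 0 z (n 0 z z))))))))) (n 3 (n 0 z (n 0 z (n 0 z (n 0 z (n 0 z (n 0 z (n 0 z
 (n 0 z z)))))))) (n 3 (n 0 z (n 0 z (n 0 z (n 0 z (n 0 z (n 0 z (n 0 z (n 0 z z)))))))) (n 3 (n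
 0 z (n 0 z (n 0 z (n 0 z (n
 0x4ea76079d8028287d78427da7308287948527fe73b89d80b7cb7af8e07bc7e37ba87b7907e48957e778b8368e670779f89188186178e8267b084f83e79b7cb8927c680a74a91972d8ae88179a8580051
 z (n 0 z (n 0 z (n 0 z z)))))))) (n 3 (n 0 z (n 0 z (n 0 z (n 0 z (n 0 z (n 2 (n 2 (n 0 z (n 0
 z (n 0 z (n 0 z (n 0 z (n 0 z z)))))) (n 2 (n 0 z (n 0 z (n 0 z (n 0 z (n 0 z (n 0 z z)))))) (n
 2 (n 0 z (n 0 z (n 0 z (n 0 z (n 0 z (n 0 (n 2132 z z) z)))))) z))) (n 0 z (n 0 z z)))))))) (n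
 533 (n 0 z (n 0 z (n 0 z (n 0 z (n 0 z (n 0 z (n 0 z (n 0 z (n 0 z z))))))))) (n 533 (n 0 z (n
 0 z (n 0 z (n 0 z (n 0 z (n 2 (n 0 z z) (n 0 z (n 0 z (n 0 z z))))))))) (n 533 (n 0 z (n 0 z (n
 0 z (n 0 z (n 0 z (n 0 z (n 0 z (n 2 z (n 0 z z))))))))) z))))))))))) (n 0 (n 765 (n 0 z (n 0 z
 (n 0 z (n 0 z (n 0 z (n 0 z (n 0 z (n 0 z (n 0 z (n 0 z (n 0 z (n 0 z z)))))))))))) (n 765 (n 0
 z (n 0 z (n 2 (n 2 (n 0 z (n 0 z (n 0 z (n 0 z (n 0 z (n 0 z z)))))) (n 2 (n 0 z (n 0 z (n 0 z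
 (n 0 z (n 0 z (n 0 z z)))))) (n 2 (n 0 z (n 0 z (n 0 z (n 0 z (n 0 z (n 0 z z)))))) (n 2 (n 0 z
 (n 0 z (n 0 z (n 0 z (n 0 z (n 0 z z)))))) (n 2 (n 0 z (n 0 z (n 0 z (n 0 z (n 0 z (n 0 z
 z)))))) (n 2 (n 0 z (n 0 z (n 0 z (n 0 z (n 0 z (n 0 z z)))))) (n 2 (n 0 z (n 0 z (n 0 z (n 0 z
 (n 0 z (n 0 z z)))))) (n 2 (n 0 z (n 0 z (n 0 z (n 0 z (n 0 z (n 0 z z)))))) z)))))))) (n 0 z
 (n 0 z (n 0 z (n 0 z (n 0 z (n 0 z (n 0 z (n 0 z (n 0 z z)))))))))))) (n 627 (n 0 z (n 0 z (n 0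
 z (n 0 z (n 0 z z))))) (n 63 (n 0 z (n 0 z (n 0 z (n 0 z (n 0 z (n 0 z (n 0 z (n 0 z z))))))))
 (n 63 (n 0 z (n 2 (n 0 z (n 0 z (n 2 (n 0 z (n 0 z (n 0 z (n 0 z (n 0 z (n 0 z z)))))) (n 2 (n
 0 z (n 0 z (n 0 z (n 0 z (n 0 z (n 0 z z)))))) (n 2 (n 0 z (n 0 z (n 0 z (n 0 z (n 0 z (n 0 z
 z)))))) z))))) (n 0 z (n 0 z (n 0 z (n 0 z (n 0 z (n 0 z z)))))))) (n 63 (n 0 z (n 0 z (n 0 z
 (n 0 z (n 0 z (n 0 z (n 0 z (n 0 z z)))))))) (n 63 (n 0 z (n 0 z (n 0 z (n 0 z (n 0 z (n 0 z (n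
 0 z (n 0 z z)))))))) (n 625 (n 0 z (n 2 (n 0 z (n 0 z z)) (n 0 z (n 0 z (n 0 z (n 0 z (n 0 z (n
 0 z z)))))))) (n 625 (n 0 z (n 0 z (n 0 z (n 0 z (n 0 z (n 0 z (n 0 z (n 0 z z)))))))) (n 625
 (n 0 z (n 0 z (n 0 z (n 0 z (n 0 z (n 0 z (n 0 z (n 0 z z)))))))) z)))))))))) (n 0 (n 0 z (n 7
 (n 0 z (n 2 (n 1 z (n 1 z (n 2 (n 0 z (n 0 z (n 0 z (n 0 z (n 0 z (n 0 z z)))))) (n 2 (n 0 z (n
 0 z (n 0 z (n 0 z (n 0 z (n 0 z z)))))) (n 1 z (n 2 (n 0 z (n 0 z (n 0 z (n 0 z (n 0 z (n 0 (n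
 52 z z) z)))))) (n 1 z z))))))) (n 0 z (n 0 z (n 0 z (n 0 z (n 0 z (n 0 z (n 0 z z))))))))) (n
 15 (n 0 z (n 0 z (n 0 z (n 0 z (n 0 z (n 2 (n 0 z (n 0 z (n 0 z (n 1 z (n 2 (n 0 z (n 0 z (n 0
 z (n 0 z (n 0 z (n 0 z z)))))) (n 2 (n 0 z (n 0 z (n 0 z (n 0 z (n 0 z (n 0 (n 101 z z) z))))))
 z)))))) (n 0 z (n 0 z (n 0 z (n 0 z (n 0 z (n 0 z z)))))))))))) (n 15 (n 0 z (n 0 z (n 0 z (n 2
 (n 0 z (n 0 z (n 1 z (n 2 (n 0 z (n 0 z (n 0 z (n 0 z (n 0 z (n 0 z z)))))) (n 2 (n 0 z (n 0 z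
 (n 0 z (n 0 z (n 0 z (n 0 (n 293 z z) z)))))) z))))) (n 0 z (n 0 z (n 0 z (n 0 z (n 0 z (n 0 z
 (n 0 z (n 0 z z)))))))))))) (n 15 (n 0 z (n 0 z (n 0 z (n 0 z (n 0 z (n 0 z (n 0 z (n 0 z (n 2
 (n 0 z (n 2 (n 0 z (n 0 z (n 0 z (n 0 z (n 0 z (n 0 z z)))))) (n 1 z (n 1 z z)))) (n 0 z (n 0 z
 (n 0 z z)))))))))))) (n 15 (n 0 z (n 0 z (n 0 z (n 0 z (n 0 z (n 0 z (n 0 z (n 2 (n 2 (n 0 z (n
 0 z (n 0 z (n 0 z (n 0 z (n 0 z z)))))) (n 1 z (n 1 z z))) (n 0 z (n 0 z (n 0 z (n 0 z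
 z)))))))))))) (n 13 (n 0 z (n 0 z (n 0 z (n 2 (n 0 z (n 0 z z)) (n 0 z (n 0 z (n 0 z (n 0 z (n
 0 z (n 0 z (n 0 z (n 0 z (n 0 z (n 0 z (n 0 z (n 0 z (n 0 z (n 0 z (n 0 z (n 0 z (n 0 z (n 0 z
 (n 0 z (n 0 z (n 0 z z))))))))))))))))))))))))) (n 13 (n 0 z (n 0 z (n 0 z (n 0 z (n 0 z (n 0 z
 (n 0 z (n 0 z (n 0 z (n 0 z (n 0 z (n 0 z (n 0 z (n 0 z (n 0 z (n 0 z (n 0 z (n 0 z (n 0 z (n 0
 z (n 0 z (n 0 z (n 0 z (n 0 z (n 0 z z))))))))))))))))))))))))) (n 13 (n 0 z (n 0 z (n 0 z (n 0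
 z (n 0 z (n 0 z (n 0 z (n 0 z (n 0 z (n 0 z (n 0 z (n 0 z (n 0 z (n 0 z (n 2 z (n 0 z (n 0 z (n
 0 z (n 0 z (n 0 z (n 0 z (n 0 z (n 0 z (n 0 z (n 0 z z))))))))))))))))))))))))) z))))))))) (n 0
 (n 55 (n 0 z (n 0 z (n 0 z (n 0 z (n 0 z (n 0 z (n 0 z (n 0 z (n 0 z z))))))))) (n 51 (n 0 z (n
 0 z (n 0 z (n 0 z (n 0 z (n 0 z (n 0 z (n 0 z (n 0 z z))))))))) (n 51 (n 0 z (n 0 z (n 0 z (n 0
 z (n 0 z (n 0 z (n 0 z (n 0 z (n 0 z z))))))))) (n 51 (n 0 z (n 0 z (n 0 z (n 0 z (n 0 z (n 0 z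
 (n 0 z (n 0 z (n 0 z z))))))))) (n 51 (n 0 z (n 0 z (n 0 z (n 0 z (n 0 z (n 2 (n 2 (n 0 z (n 0
 z (n 0 z (n 0 z (n 0 z (n 0 z z)))))) (n 2 (n 0 z (n 0 z (n 0 z (n 0 z (n 0 z (n 0 z z)))))) (n
 2 (n 0 z (n 0 z (n 0 z (n 0 z (n 0 z (n 0 (n 196 z z) z)))))) z))) (n 0 z (n 0 z (n 0 z
 z))))))))) (n 49 (n 0 z (n 0 z (n 0 z (n 0 z (n 0 z (n 0 z (n 0 z (n 0 z (n 0 z (n 0 z (n 0 z
 (n 0 z z)))))))))))) (n 49 (n 0 z (n 0 z (n 2 (n 0 z z) (n 0 z (n 0 z (n 0 z (n 0 z (n 0 z (n 0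
 z (n 0 z (n 0 z (n 0 z z)))))))))))) (n 49 (n 0 z (n 0 z (n 0 z (n 0 z (n 0 z (n 0 z (n 0 z (n
 0 z (n 2 z (n 0 z (n 0 z (n 0 z z)))))))))))) z)))))))) (n 0 (n 63 (n 0 z (n 0 z (n 0 z (n 0 z
 (n 0 z (n 0 z (n 0 z z))))))) (n 63 (n 0 z (n 0 z (n 0 z (n 0 z (n 0 z (n 0 z (n 0 z z)))))))
 (n 63 (n 0 z (n 0 z (n 0 z (n 0 z (n 0 z (n 0 z (n 0 z z))))))) (n 63 (n 0 z (n 0 z (n 0 z (n 0
 z (n 0 z (n 2 (n 2 (n 0 z (n 0 z (n 0 z (n 0 z (n 0 z (n 0 z z)))))) (n 2 (n 0 z (n 0 z (n 0 z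
 (n 0 z (n 0 z (n 0 z z)))))) (n 2 (n 0 z (n 0 z (n 0 z (n 0 z (n 0 z (n 0 (n 2324 z z) z))))))
 z))) (n 0 z z))))))) (n 581 (n 0 z (n 0 z (n 0 z (n 0 z (n 0 z (n 0 z (n 0 z (n 0 z (n 0 z (n 0
 z (n 0 z (n 0 z (n 0 z (n 0 z (n 0 z (n 0 z (n 0 z (n 0 z (n 0 z (n 0 z (n 0 z (n 0 z (n 0 z (n
 0 z (n 0 z (n 0 z (n 0 z (n 0 z (n 0 z (n 0 z (n 0 z (n 0 z (n 0 z (n 0 z (n 0 z (n 0 z (n 0 z
 (n 0 z (n 0 z (n 0 z (n 0 z (n 0 z (n 0 z (n 0 z (n 0 z (n 0 z (n 0 z (n 0 z (n 0 z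
 z))))))))))))))))))))))))))))))))))))))))))))))))) (n 581 (n 0 z (n 0 z (n 0 z (n 0 z (n 0 z (n
 0 z (n 0 z (n 0 z (n 0 z (n 0 z (n 0 z (n 0 z (n 0 z (n 0 z (n 0 z (n 0 z (n 0 z (n 0 z (n 0 z
 (n 2 (n 0 z z) (n 0 z (n 0 z (n 0 z (n 0 z (n 0 z (n 0 z (n 0 z (n 0 z (n 0 z (n 0 z (n 0 z (n
 0 z (n 0 z (n 0 z (n 0 z (n 0 z (n 0 z (n 0 z (n 0 z (n 0 z (n 0 z (n 0 z (n 0 z (n 0 z (n 0 z
 (n 0 z (n 0 z (n 0 z (n 0 z z))))))))))))))))))))))))))))))))))))))))))))))))) (n 581 (n 0 z (n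
 2 z (n 0 z (n 0 z (n 0 z (n 0 z (n 0 z (n 0 z (n 0 z (n 0 z (n 0 z (n 0 z (n 0 z (n 0 z (n 0 z
 (n 0 z (n 0 z (n 0 z (n 0 z (n 0 z (n 0 z (n 0 z (n 0 z (n 0 z (n 0 z (n 0 z (n 0 z (n 0 z (n 0
 z (n 0 z (n 0 z (n 0 z (n 0 z (n 0 z (n 0 z (n 0 z (n 0 z (n 0 z (n 0 z (n 0 z (n 0 z (n 0 z (n
 0 z (n 0 z (n 0 z (n 0 z (n 0 z (n 0 z (n 0 z
 z))))))))))))))))))))))))))))))))))))))))))))))))) z))))))) (n 0 (n 0 z (n 0 z (n 0 z (n 25 (n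
 0 z (n 0 z (n 0 z (n 0 z (n 0 z (n 0 z (n 0 z (n 0 z (n 0 z (n 0 z (n 0 z (n 0 z (n 0 z (n 0 z
 (n 0 z (n 0 z (n 0 z (n 0 z (n 0 z (n 0 z (n 0 z (n 0 z (n 0 z (n 0 z (n 0 z (n 0 z (n 0 z (n 0
 z (n 0 z (n 0 z (n 0 z (n 0 z (n 0 z (n 0 z (n 0 z (n 0 z (n 0 z (n 0 z (n 0 z (n 0 z (n 0 z (n
 0 z (n 0 z (n 0 z (n 0 z (n 0 z (n 0 z (n 0 z (n 0 z
 z))))))))))))))))))))))))))))))))))))))))))))))))) (n 25 (n 0 z (n 0 z (n 0 z (n 0 z (n 0 z (n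
 0 z (n 0 z (n 0 z (n 0 z (n 0 z (n 0 z (n 0 z (n 0 z (n 0 z (n 0 z (n 0 z (n 0 z (n 0 z (n 0 z
 (n 0 z (n 0 z (n 0 z (n 0 z (n 0 z (n
 0x4ea76079d8028287d78427da7308287948527fe73b89d80b7cb7af8e07bc7e37ba87b7907e48957e778b8368e670779f89188186178e8267b084f83e79b7cb8927c680a74a91972d8ae88179a8580051
 z (n 0 z (n 0 z (n 0 z (n 0 z (n 0 z (n 0 z (n 0 z (n 0 z (n 0 z (n 0 z (n 0 z (n 0 z (n 0 z (n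
 0 z (n 0 z (n 0 z (n 0 z (n 0 z (n 0 z (n 0 z (n 0 z (n 0 z (n 0 z (n 0 z
 z))))))))))))))))))))))))))))))))))))))))))))))))) (n 25 (n 0 z (n 0 z (n 0 z (n 0 z (n 0 z (n
 0 z (n 0 z (n 0 z (n 0 z (n 0 z (n 0 z (n 0 z (n 0 z (n 0 z (n 0 z (n 0 z (n 0 z (n 0 z (n 0 z
 (n 0 z (n 0 z (n 0 z (n 0 z (n 0 z (n 0 z (n 0 z (n 0 z (n 0 z (n 0 z (n 0 z (n 0 z (n 0 z (n 0
 z (n 0 z (n 0 z (n 0 z (n 0 z (n 0 z (n 0 z (n 0 z (n 0 z (n 0 z (n 0 z (n 0 z (n 0 z (n 0 z (n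
 0 z (n 0 z (n 0 z z))))))))))))))))))))))))))))))))))))))))))))))))) z)))))) (n 0 (n 0 z (n 0 z
 (n 73 (n 0 z (n 0 z (n 0 z (n 0 z (n 0 z (n 0 z (n 0 z (n 0 z (n 0 z (n 0 z (n 0 z (n 0 z (n 0
 z (n 0 z (n 0 z (n 0 z (n 0 z (n 0 z (n 0 z (n 0 z (n 0 z (n 0 z (n 0 z (n 0 z (n 0 z (n 0 z (n
 0 z (n 0 z (n 0 z (n 0 z (n 0 z (n 0 z (n 0 z (n 0 z (n 0 z (n 0 z (n 0 z (n 0 z (n 0 z (n 0 z
 (n 0 z (n 0 z (n 0 z (n 0 z (n 0 z (n 0 z (n 0 z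
 z))))))))))))))))))))))))))))))))))))))))))))))) (n 73 (n 0 z (n 0 z (n 0 z (n 0 z (n 0 z (n 0
 z (n 0 z (n 0 z (n 0 z (n 0 z (n 0 z (n 0 z (n 0 z (n 0 z (n 0 z (n 0 z (n 0 z (n 0 z (n 0 z (n
 0 z (n 0 z (n 0 z (n 0 z (n 0 z (n 0 z (n 0 z (n 0 z (n 0 z (n 0 z (n 0 z (n 0 z (n 0 z (n 0 z
 (n 2 (n 0 z z) (n 0 z (n 0 z (n 0 z (n 0 z (n 0 z (n 0 z (n 0 z (n 0 z (n 0 z (n 0 z (n 0 z (n
 0 z (n 0 z z))))))))))))))))))))))))))))))))))))))))))))))) (n 73 (n 0 z (n 0 z (n 0 z (n 0 z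
 (n 0 z (n 0 z (n 0 z (n 0 z (n 0 z (n 0 z (n 0 z (n 0 z (n 0 z (n 0 z (n 0 z (n 0 z (n 0 z (n 0
 z (n 0 z (n 0 z (n 0 z (n 0 z (n 0 z (n 0 z (n 0 z (n 0 z (n 0 z (n 2 z (n 0 z (n 0 z (n 0 z (n
 0 z (n 0 z (n 0 z (n 0 z (n 0 z (n 0 z (n 0 z (n 0 z (n 0 z (n 0 z (n 0 z (n 0 z (n 0 z (n 0 z
 (n 0 z (n 0 z z))))))))))))))))))))))))))))))))))))))))))))))) z))))) (n 0 (n 0 z (n 1 (n 0 z
 (n 0 z (n 0 z (n 0 z (n 0 z (n 0 z (n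
 0x54c85d4180e02ca6ca240386828479886d8e7e9b777e8c6f7e6e95927684836d7d78987ca27f6e839682608c878e71618078838b7786779b93858374851009
 z (n 0 z (n 0 z (n
 0x4ea76079d8028287d78427da7308287948527fe73b89d80b7cb7af8e07bc7e37ba87b7907e48957e778b8368e670779f89188186178e8267b084f83e79b7cb8927c680a74a91972d8ae88179a8580051
 z (n 0 z (n 0 z z)))))))))))) (n 1 (n 0 z (n 0 z (n 0 z (n 0 z (n 0 z (n 0 z (n 0 z (n 0 z (n 0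
 z (n 0 z (n 0 z (n 0 z z)))))))))))) (n 1 (n 0 z (n 0 z (n 0 z (n 0 z (n 0 z (n 0 z (n 0 z (n 0
 z (n 0 z (n 0 z (n 0 z (n 0 z z)))))))))))) z)))) (n 0 (n 1 (n 2 (n 0 z (n 0 z z)) (n 0 z (n 0
 z (n 0 z (n 0 z (n 0 z (n 0 z (n 0 z (n 0 z (n 0 z (n 0 z (n 0 z z)))))))))))) (n 1 (n 0 z (n 0
 z (n 0 z (n 0 z (n 0 z (n 0 z (n 0 z (n 0 z (n 0 z (n 0 z (n 0 z (n 0 z z)))))))))))) (n 1 (n 0
 z (n 0 z (n 0 z (n 0 z (n 0 z (n 0 z (n 0 z (n 0 z (n 0 z (n 0 z (n 0 z (n 0 z z))))))))))))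
 z))) (n 0 (n 0 z (n 0 z z)) (n 0 (n 0 z z) (n 0 z z)))))))))))))) (n 0 (n 0 z (n 1 (n 3282443 z
 (n 3282443 z (n 3282443 z (n 3282443 z (n 3282443 z (n 3282443 z z)))))) (n 1 (n 2 z (n 2044 z
 (n 2044 z (n 2044 z (n 2044 z (n 2044 z z)))))) (n 1 (n 2044 z (n 2044 z (n 2044 z (n 76 z (n
 5443683 z (n 2044 z z)))))) (n 0 z z))))) (n 0 (n 0xa2d8a54157655457642a2112555740 (n 0 (n 0 (n
 7741699 z (n 7741699 z (n 7741699 z (n 7741699 z (n 7741699 z (n 7741699 z z)))))) z) (n 0 (n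
 321 (n 0 z (n 1 (n 7749667 z (n 7749667 z (n 7749667 z (n 7749667 z (n 7749667 z (n 7749667 z
 z)))))) (n 1 (n 7749667 z (n 7749667 z (n 7749667 z (n 7749667 z (n 7749667 z (n 7749667 z
 z)))))) (n 1 (n 2044 z (n 2 z (n 2044 z (n 2044 z (n 6631795 z (n 2044 z z)))))) (n 0 z z)))))
 (n 1 (n 1 (n 2236 z (n 5517427 z (n 6567691 z (n 2044 z (n 5506875 z (n 2236 z z)))))) (n 0 z
 (n 0 z (n 1 (n 7741699 z (n 7741699 z (n 7741699 z (n 7741699 z (n 7741699 z (n 7741699 z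
 z)))))) (n 1 (n 2236 z (n 2236 z (n 2236 z (n 5519131 z (n 2236 z (n 4327259 z z)))))) (n 1 (n
 2236 z (n 2140 z (n 2236 z (n 2236 z (n 2236 z (n 2236 z z)))))) (n 0 z (n 1 (n 7749667 z (n
 7749667 z (n 7749667 z (n 7749667 z (n 7749667 z (n 7749667 z z)))))) z)))))))) (n 27 (n 1 (n
 2572 z (n 10 z (n 2572 z (n 2572 z (n 2572 z (n 2572 z z)))))) (n 1 (n 7538203 z (n 7538203 z
 (n 7538203 z (n 7538203 z (n 7538203 z (n 7538203 z z)))))) (n 0 z (n 0 z (n 0 z (n 0 z (n 1 (n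
 7741699 z (n 7741699 z (n 7741699 z (n 7741699 z (n 7741699 z (n 7741699 z z)))))) (n 0 z (n 0
 z z))))))))) (n 31 (n 1 (n 7538203 z (n 7538203 z (n 7538203 z (n 7538203 z (n 7538203 z (n
 7538203 z z)))))) (n 1 (n 2428 z (n 2428 z (n 2428 z (n 220 z (n 5506875 z (n 2428 z z)))))) (n
 0 z (n 0 z (n 0 z (n 1 (n 2428 z (n 2332 z (n 2428 z (n 2428 z (n 2428 z (n 4261723 z z))))))
 (n 1 (n 7749667 z (n 7749667 z (n 7749667 z (n 7749667 z (n 7749667 z (n 7749667 z z))))))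
 z))))))) (n 37 (n 1 (n 7538203 z (n 7538203 z (n 7538203 z (n 7538203 z (n 7538203 z (n 7538203
 z z)))))) (n 1 (n 2572 z (n 2572 z (n 2572 z (n 2572 z (n 2572 z (n 2572 z z)))))) (n 0 z (n 0
 z (n 0 z (n 1 (n 2572 z (n 3213147 z (n 2572 z (n 2572 z (n 18 z (n 2572 z z)))))) (n 1 (n
 7749667 z (n 7749667 z (n 7749667 z (n 7749667 z (n 7749667 z (n 7749667 z z)))))) z))))))) (n
 0 (n 1 (n 7741699 z (n 7741699 z (n 7741699 z (n 7741699 z (n 7741699 z (n 7741699 z z)))))) (n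
 1 (n 2860 z (n 26 z (n 2860 z (n 7677451 z (n 7538203 z (n 2860 z z)))))) (n 0 z (n 1 (n
 7668251 z (n 7668251 z (n 7677451 z (n 7668251 z (n 7668251 z (n 7668251 z z)))))) (n 1 (n 2860
 z (n 7538203 z (n 6563643 z (n 7677451 z (n 34 z (n 2860 z z)))))) (n 1 (n 7668251 z (n 7668251
 z (n 7668251 z (n 7677451 z (n 7668251 z (n 7668251 z z)))))) (n 1 (n 4327259 z (n 4327259 z (n
 7538203 z (n 7677451 z (n 4327259 z (n 4327259 z z)))))) (n 0 z z)))))))) (n 321 (n 0 z (n 1 (n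
 7741699 z (n 7749667 z (n 7749667 z (n 7749667 z (n 7749667 z (n 7749667 z z)))))) (n 1 (n
 7741699 z (n 7749667 z (n 7749667 z (n 7749667 z (n 7749667 z (n 7749667 z z)))))) (n 1 (n
 7741699 z (n 2044 z (n 2044 z (n 76 z (n 5443699 z (n 2044 z z)))))) (n 0 z z))))) z))))))) (n
 0 (n 0 (n 0 z (n 0 z (n 0 z (n 0 z (n 0 z z))))) (n 0 (n 0 z (n 0 z (n 0 z (n 0 z z)))) (n 0 (n
 0 z (n 0 z (n 0 z z))) (n 0 (n 0 z (n 0 z z)) (n 0 (n 0 z z) z))))) (n 0 (n 279 (n 0 (n 0 z (n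
 0 z (n 0 z (n 0 z (n 0 z z))))) (n 0 (n 0 z (n 0 z (n 0 z (n 0 z (n 0 z z))))) (n 0 (n 0 z (n 0
 z (n 0 z (n 0 z (n 0 z z))))) (n 0 (n 0 (n
 0x3a87489816b8b4f6fa89499917f92835f926fa2a4558f5e7e5292797291734f63787aa2b5837b82866c7a5868876eb0998b6d7e880049
 z (n 8728947 z z)) (n 0 (n
 0xc87680807f807f808080807f808081817f8081807f8080808080807f81818080818180807f7f817f7f818080808180817f807f800049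
 z (n
 0x594e14500e02e650a2807807f7f807f8080817f80808181827f8080807e818080807e828080807f80818181807f80827f7f818080818180807f8080801009
 z z)) (n 0 z (n 0 z (n 0 z z))))) (n 0 (n 0 z (n 0 (n
 0x8243b00e38767bc82387779f8cc82b79d8367f38057dd77a80f84b7b57ec7827c88407bd88680985179380d80883783783080a80c83777876c7ff82f83d7c97dd84b8107ed7c47d579d7b17f78197da80f0091
 z (n
 0x7d87585815d834b65c4a6a5aa8f8c9059767abe9a4d72535c49988c6ba772315b8a88aff48977767d687058367848c7b5a7497a940049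
 z z)) (n 0 z (n 0 z (n 0 (n 8660795 z (n 8799091 z z)) z))))) (n 0 (n 0 z (n 0 z (n 0 z (n 0 z
 (n 0 z z))))) (n 0 (n 0 z (n 0 z (n 0 z (n 0 z (n 0 z z))))) (n 0 (n 0 z (n 0 z (n 0 z (n 0 z
 (n 0 z z))))) (n 0 (n 0 z (n 0 z (n 0 z (n 0 z (n 0 z z))))) (n 0 (n 0 z (n 0 z (n 0 z (n 0 z
 (n 0 z z))))) (n 0 (n 0 z (n 0 z (n 0 z (n 0 z (n 0 z z))))) (n 0 (n 0 z (n 0 z (n 0 z (n 0 z
 (n 0 z z))))) (n 0 (n 0 z (n 0 z (n 0 z (n 0 z (n 0 z z))))) (n 0 (n 0 z (n 0 z (n 0 z (n 0 z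
 (n 0 z z))))) (n 0 (n 0 z (n 0 z (n 0 z (n 0 z (n 0 z z))))) (n 0 (n 0 z (n 0 z (n 0 z (n 0 z
 (n 0 z z))))) (n 0 (n 0 z (n 0 z (n 0 z (n 0 z (n 0 z z))))) (n 0 (n 0 z (n 0 (n 8728691 z (n
 8718139 z z)) (n 0 z (n 0 z (n 0 (n
 0x70eb064807a78a26ac1e78e169b2947ed78143a768c0b71bb33c7f32b16e5b8170356b646ad2e26f5b7fa45a573a66947ce880928ba5710809
 z (n
 0x30eb06480787846f876d8399828b898090806b8b738b90658a75826b857c6f8b79697474838f9b7a7d8981747e6574817e987f827b877b0809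
 z z)) z))))) (n 0 (n 0 z (n 0 z (n 0 z (n 0 z (n 0 z z))))) (n 0 (n 0 (n 8857163 z (n 8728947 z
 z)) (n 0 z (n 0 z (n 0 z (n 0 z z))))) z)))))))))))))))))))) (n 321 (n 0 (n 0 z (n 0 z (n 0 z
 (n 0 z (n 0 z z))))) (n 0 (n 0 z (n 0 z (n 0 z (n 0 z (n 0 z z))))) (n 0 (n 0 z (n 0 z (n 0 z
 (n 0 z (n 0 z z))))) (n 0 (n 0 z (n 0 z (n 0 z (n 0 z (n 0 z z))))) (n 0 (n 0 z (n 0 z (n 0 z
 (n 0 z (n 0 z z))))) (n 0 (n 0 (n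
 0x3a87489816b8b4f6fa89499917f92835f926fa2a4558f5e7e5292797291734f63787aa2b5837b82866c7a5868876eb0998b6d7e880049
 z (n 8728947 z z)) (n 0 (n
 0xc87680807f807f808080807f808081817f8081807f8080808080807f81818080818180807f7f817f7f818080808180817f807f800049
 z (n
 0x10c90a820380817f7e817f817f80817f8180817f8081807f818080808080808080807f8081808080808080808180808080807f818180800809
 z z)) (n 0 z (n 0 z (n 0 z z))))) (n 0 (n 0 z (n 0 z (n 0 z (n 0 z (n 0 z z))))) (n 0 (n 0 z (n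
 0 z (n 0 z (n 0 z (n 0 z z))))) (n 0 (n 0 z (n 0 z (n 0 z (n 0 z (n 0 z z))))) (n 0 (n 0 z (n 0
 z (n 0 z (n 0 z (n 0 z z))))) (n 0 (n 0 z (n 0 z (n 0 z (n 0 z (n 0 z z))))) (n 0 (n 0 z (n 0 z
 (n 0 z (n 0 z (n 0 z z))))) (n 0 (n 0 z (n 0 z (n 0 z (n 0 z (n 0 z z))))) (n 0 (n 0 z (n 0 z
 (n 0 z (n 0 z (n 0 z z))))) (n 0 (n 0 z (n 0 z (n 0 z (n 0 z (n 0 z z))))) (n 0 (n 0 z (n 0 z
 (n 0 z (n 0 z (n 0 z z))))) (n 0 (n 0 z (n 0 z (n 0 z (n 0 z (n 0 z z))))) (n 0 (n 0 z (n 0 z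
 (n 0 z (n 0 z (n 0 z z))))) (n 0 (n 0 z (n 0 z (n 0 z (n 0 z (n 0 z z))))) (n 0 (n 0 z (n 0 z
 (n 0 z (n 0 z (n 0 z z))))) (n 0 (n 0 z (n 0 z (n 0 z (n 0 z (n 0 z z))))) (n 0 (n 0 z (n 0 z
 (n 0 z (n 0 z (n 0 z z))))) (n 0 (n 0 z (n 0 z (n 0 z (n 0 z (n 0 z z))))) (n 0 (n 0 z (n 0 (n
 0x2121d8005c3a81da8757e980a7f07fa7df7ed83587586580c7eb7d58417b07ce7e18498777b98077c883376c7f07eb7b986979c7357dd7ac80381a88281a8428537c27988517867887e679e88583a8017d67ea81300d1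
 z (n
 0x8c3ac28a00c00a1ce14500e0170a90a82037df7d087a7b790f7f372585f7f282381278b80b81f73b88e77977d9257598237d68807ef7f687281a7dc8758947d579b7b77a984683e7607f987f81893e7617ec7717a57f583982f7aa83c1811
 z z)) (n 0 z (n 0 z (n 0 (n 7542827 z (n 8799091 z z)) z))))) (n 0 (n 0 z (n 0 z (n 0 z (n 0 z
 (n 0 z z))))) (n 0 (n 0 z (n 0 (n
 0x548738282628f3a7cbaa8a9a18d8d8d44a33ba2bb4c7b70794e767f43a4843b447e959ad2827e9d815b764942834aae999b757c8e0049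
 z (n 8728691 z z)) (n 0 z (n 0 z (n 0 z z))))) z)))))))))))))))))))))))))) (n 33 (n 0 (n 0 z (n
 0 z (n 0 z (n 0 z (n 0 z z))))) (n 0 (n 0 z (n 0 z (n 0 z (n 0 z (n 0 z z))))) (n 0 (n 0 z (n 0
 z (n 0 z (n 0 z (n 0 z z))))) (n 0 (n 0 z (n 0 z (n 0 z (n 0 z (n 0 z z))))) (n 0 (n 0 z (n 0 z
 (n 0 z (n 0 z (n 0 z z))))) (n 0 (n 0 z (n 0 z (n 0 z (n 0 z (n 0 z z))))) (n 0 (n 0 z (n 0 z
 (n 0 z (n 0 z (n 0 z z))))) (n 0 (n 0 z (n 0 z (n 0 z (n 0 z (n 0 z z))))) (n 0 (n 0 z (n 0 z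
 (n 0 z (n 0 z (n 0 z z))))) (n 0 (n 0 z (n 0 (n
 0x2e1c00bd438006c8607ee8087f47fc7e57f182b85e8518097ef7dd8347c07d87e783a85f7c78057d382978a7f37f07c88547b075d7e47bd8038158688158348427cf7ac84179e7a07eb7b186a82e8017de7ee81000d1
 z z) (n 0 z (n 0 z (n 0 z z))))) (n 0 (n 0 z (n 0 z (n 0 z (n 0 z (n 0 z z))))) (n 0 (n 0 z (n
 0 (n
 0x1b21d8005c3a817a8757ee8087f37fb7e67f182b85e85080a7ef7de8347c07d67e783b85f7c78067d38297897f37ef7c88547b075d7e47bd8038158688158348427cf7ad84179f7a07eb7b186a82e8017de7ef80f00d1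
 z (n
 0x587585040186c39c28200c021d21d0c0e0f0e90a80038992846bd3907770958c7277838b5c9f3c56a45e8b80ae63848d8b7c9f9e6b885466798d7e7d8687956e6c7d4e61718e95702009
 z z)) (n 0 z (n 0 z (n 0 (n
 0xa0c5d410060d0e90e86076575b574a48751ad7a8a8e3e8c8b6d65766aa05faa7d956f876f859c8a6ca0975a5590869c6b6592957177536b7d8e946f8e1009
 z (n
 0x130eb06080785946e719d938b797fa5768a81737978875d5b7e866d7a9b7f67989c6679869f938573648d8c696d6d656c74a44b93868f770809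
 z z)) z))))) z)))))))))))) (n 303 (n 0 (n 0 z (n 0 z (n 0 z (n 0 z (n 0 z z))))) (n 0 (n 0 z (n
 0 z (n 0 z (n 0 z (n 0 z z))))) (n 0 (n 0 z (n 0 z (n 0 z (n 0 z (n 0 z z))))) (n 0 (n 0 z (n 0
 z (n 0 z (n 0 z (n 0 z z))))) (n 0 (n 0 z (n 0 z (n 0 z (n 0 z (n 0 z z))))) (n 0 (n 0 z (n 0 z
 (n 0 z (n 0 z (n 0 z z))))) (n 0 (n 0 (n
 0x548748282628f3a7cbaa8a9a18d8d8d44a33ba2bb4c7b70794e767f43a4843b447e959ad2827e9d815b764942834aae999b757c8e0049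
 z (n
 0x7d82185815d834b65c4a6a5aa8f8c9059767abe9a4d72535c49988c6ba772315b8a88aff48977767d687058367848c7b5a7497a940049
 z z)) (n 0 (n
 0x548758282628f3a7cbaa8a9a18d8d8d44a33ba2bb4c7b70794e767f43a4843b447e959ad2827e9d815b764942834aae999b757c8e0049
 z (n
 0x7d82185815d834b65c4a6a5aa8f8c9059767abe9a4d72535c49988c6ba772315b8a88aff48977767d687058367848c7b5a7497a940049
 z z)) (n 0 z (n 0 z (n 0 (n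
 0x7d82185815d834b65c4a6a5aa8f8c9059767abe9a4d72535c49988c6ba772315b8a88aff48977767d687058367848c7b5a7497a940049
 z (n
 0x7d82185815d834b65c4a6a5aa8f8c9059767abe9a4d72535c49988c6ba772315b8a88aff48977767d687058367848c7b5a7497a940049
 z z)) z))))) (n 0 (n 0 z (n 0 z (n 0 z (n 0 z (n 0 z z))))) (n 0 (n 0 z (n 0 z (n 0 z (n 0 z (n
 0 z z))))) z))))))))) (n 291 (n 0 (n 0 z (n 0 z (n 0 z (n 0 z (n 0 z z))))) (n 0 (n 0 z (n 0 z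
 (n 0 z (n 0 z (n 0 z z))))) (n 0 (n 0 z (n 0 z (n 0 z (n 0 z (n 0 z z))))) (n 0 (n 0 z (n 0 z
 (n 0 z (n 0 z (n 0 z z))))) (n 0 (n 0 z (n 0 z (n 0 z (n 0 z (n 0 z z))))) (n 0 (n 0 z (n 0 z
 (n 0 z (n 0 z (n 0 z z))))) (n 0 (n 0 z (n 0 z (n 0 z (n 0 z (n 0 z z))))) (n 0 (n 0 z (n 0 z
 (n 0 z (n 0 z (n 0 z z))))) (n 0 (n 0 z (n 0 z (n 0 z (n 0 z (n 0 z z))))) z))))))))) (n 51 (n
 0 (n 0 z (n 0 z (n 0 z (n 0 z (n 0 z z))))) (n 0 (n 0 z (n 0 z (n 0 z (n 0 z (n 0 z z))))) (n 0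
 (n 0 z (n 0 z (n 0 z (n 0 z (n 0 z z))))) (n 0 (n 0 z (n 0 z (n 0 z (n 0 z (n 0 z z))))) (n 0
 (n 0 z (n 0 z (n 0 z (n 0 z (n 0 z z))))) (n 0 (n 0 z (n 0 z (n 0 z (n 0 z (n 0 z z))))) (n 0
 (n 0 z (n 0 z (n 0 z (n 0 z (n 0 z z))))) (n 0 (n 0 z (n 0 z (n 0 z (n 0 z (n 0 z z))))) (n 0
 (n 0 z (n 0 z (n 0 z (n 0 z (n 0 z z))))) z))))))))) (n 321 (n 0 (n 0 z (n 0 z (n 0 z (n 0 z (n
 0 z z))))) (n 0 (n 0 z (n 0 z (n 0 z (n 0 z (n 0 (n 8716827 z (n 8799091 z z)) z))))) (n 0 (n 0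
 z (n 0 z (n 0 z (n 0 z (n 0 (n 8586779 z z) z))))) (n 0 (n 0 z (n 0 z (n 0 z (n 0 z (n 0 z
 z))))) (n 0 (n 0 z (n 0 z (n 0 z (n 0 z (n 0 z z))))) (n 0 (n 0 z (n 0 z (n 0 z (n 0 z (n 0 z
 z))))) (n 0 (n 0 (n 8855891 z z) (n 0 z (n 0 z (n 0 z (n 0 z z))))) (n 0 (n 0 z (n 0 (n 8728691
 z (n 8718139 z z)) (n 0 z (n 0 z (n 0 (n
 0x548718f855c993d81b37f8f8a7ba1845fa55e99aa479b6c8556877468877e5264748b91b1747f92906479457f8a83a5807a828c7b0049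
 z (n
 0x7d87185815d834b65c4a6a5aa8f8c9059767abe9a4d72535c49988c6ba772315b8a88aff48977767d687058367848c7b5a7497a940049
 z z)) z))))) (n 0 (n 0 z (n 0 z (n 0 z (n 0 z (n 0 z z))))) (n 0 (n 0 z (n 0 (n
 0x7d82185815d834b65c4a6a5aa8f8c9059767abe9a4d72535c49988c6ba772315b8a88aff48977767d687058367848c7b5a7497a940049
 z z) (n 0 z (n 0 z (n 0 (n
 0x3a87189816b8b4f6fa89499917f92835f926fa2a4558f5e7e5292797291734f63787aa2b5837b82866c7a5868876eb0998b6d7e880049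
 z z) z))))) (n 0 (n 0 z (n 0 z (n 0 z (n 0 z (n 0 z z))))) (n 0 (n 0 z (n 0 z (n 0 z (n 0 z (n
 0 z z))))) z)))))))))))) (n 81 (n 0 (n 0 z (n 0 z (n 0 z (n 0 z (n 0 z z))))) (n 0 (n 0 z (n 0
 z (n 0 z (n 0 z (n 0 (n
 0x4ea82079d8028287d78427da7308287948527fe73b89d80b7cb7af8e07bc7e37ba87b7907e48957e778b8368e670779f89188186178e8267b084f83e79b7cb8927c680a74a91972d8ae88179a8580051
 z z) z))))) (n 0 (n 0 z (n 0 (n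
 0x92873828169914e75a29495807e87925f7c6cacb1678f698e4b7d7d6f8d673f6e6a8d7ab67d9d987368865d6b9067a08c8e9085850049
 z (n 8795915 z z)) (n 0 z (n 0 z (n 0 (n
 0x4ea86279d8028287d78427da7308287948527fe73b89d80b7cb7af8e07bc7e37ba87b7907e48957e778b8368e670779f89188186178e8267b084f83e79b7cb8927c680a74a91972d8ae88179a8580051
 z (n
 0x3f28627b18018207df8357e275981f7aa8427fe76287e8097d47c08b47c87e97ca8607a87e88797eb7a382e8b97377b387686784c7a681c7c183e8337af7d38767d08077718df75888b8667b18470051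
 z z)) z))))) (n 0 (n 0 z (n 0 z (n 0 z (n 0 z (n 0 z z))))) (n 0 (n 0 z (n 0 z (n 0 z (n 0 z (n
 0 z z))))) (n 0 (n 0 z (n 0 z (n 0 z (n 0 z (n 0 z z))))) (n 0 (n 0 z (n 0 (n 8718139 z z) (n 0
 z (n 0 z (n 0 z z))))) (n 0 (n 0 z (n 0 (n 8798243 z z) (n 0 z (n 0 z (n 0 z z))))) z))))))))
 (n 75 (n 0 (n 0 z (n 0 z (n 0 z (n 0 z (n 0 z z))))) (n 0 (n 0 z (n 0 (n
 0x4ea87679d8028287d78427da7308287948527fe73b89d80b7cb7af8e07bc7e37ba87b7907e48957e778b8368e670779f89188186178e8267b084f83e79b7cb8927c680a74a91972d8ae88179a8580051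
 z z) (n 0 z (n 0 z (n 0 z z))))) (n 0 (n 0 z (n 0 z (n 0 z (n 0 z (n 0 z z))))) (n 0 (n 0 z (n
 0 z (n 0 z (n 0 z (n 0 z z))))) (n 0 (n 0 z (n 0 z (n 0 z (n 0 z (n 0 z z))))) (n 0 (n 0 z (n 0
 z (n 0 z (n 0 z (n 0 z z))))) (n 0 (n 0 z (n 0 z (n 0 z (n 0 z (n 0 z z))))) (n 0 (n 0 z (n 0
 (n
 0xe1d61d440e050a8ca6203a98c2fa64284bf528d8278cb84609d82b29b29b550874fb968677f6b487e6161d6b1756578ab6465557d95a1e86c7b8a9b701009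
 z z) (n 0 z (n 0 z (n 0 (n 8853051 z z) z))))) (n 0 (n 0 z (n 0 (n 3213387 z z) (n 0 z (n 0 z
 (n 0 z z))))) z))))))))) (n 37 (n 0 (n 0 z (n 0 z (n 0 z (n 0 z (n 0 z z))))) (n 0 (n 0 z (n 0
 z (n 0 z (n 0 z (n 0 z z))))) (n 0 (n 0 z (n 0 z (n 0 z (n 0 z (n 0 z z))))) (n 0 (n 0 z (n 0 z
 (n 0 z (n 0 z (n 0 z z))))) (n 0 (n 0 z (n 0 z (n 0 z (n 0 z (n 0 z z))))) (n 0 (n 0 z (n 0 z
 (n 0 z (n 0 z (n 0 z z))))) (n 0 (n 0 z (n 0 z (n 0 z (n 0 z (n 0 z z))))) z))))))) (n 357 (n 0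
 (n 0 z (n 0 z (n 0 z (n 0 z (n 0 z z))))) (n 0 (n 0 z (n 0 z (n 0 z (n 0 z (n 0 z z))))) (n 0
 (n 0 z (n 0 (n 8867891 z z) (n 0 z (n 0 z (n 0 (n 8716827 z z) z))))) (n 0 (n 0 (n 8872731 z z)
 (n 0 z (n 0 z (n 0 z (n 0 z z))))) (n 0 (n 0 z (n 0 (n
 0x7d82185815d834b65c4a6a5aa8f8c9059767abe9a4d72535c49988c6ba772315b8a88aff48977767d687058367848c7b5a7497a940049
 z z) (n 0 z (n 0 z (n 0 (n
 0x3a87189816b8b4f6fa89499917f92835f926fa2a4558f5e7e5292797291734f63787aa2b5837b82866c7a5868876eb0998b6d7e880049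
 z z) z))))) (n 0 (n 0 z (n 0 z (n 0 z (n 0 z (n 0 z z))))) (n 0 (n 0 z (n 0 z (n 0 z (n 0 z (n
 0 z z))))) (n 0 (n 0 z (n 0 z (n 0 z (n 0 z (n 0 z z))))) (n 0 (n 0 z (n 0 z (n 0 z (n 0 z (n 0
 z z))))) (n 0 (n 0 z (n 0 z (n 0 z (n 0 z (n 0 z z))))) (n 0 (n 0 z (n 0 z (n 0 z (n 0 z (n 0 z
 z))))) (n 0 (n 0 z (n 0 z (n 0 z (n 0 z (n 0 z z))))) z)))))))))))) (n 341 (n 0 (n 0 z (n 0 z
 (n 0 z (n 0 z (n 0 z z))))) (n 0 (n 0 z (n 0 z (n 0 z (n 0 z (n 0 (n 8726027 z z) z))))) (n 0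
 (n 0 z (n 0 z (n 0 z (n 0 z (n 0 z z))))) (n 0 (n 0 z (n 0 z (n 0 z (n 0 z (n 0 z z))))) (n 0
 (n 0 z (n 0 z (n 0 z (n 0 z (n 0 z z))))) (n 0 (n 0 z (n 0 z (n 0 z (n 0 z (n 0 z z))))) (n 0
 (n 0 z (n 0 z (n 0 z (n 0 z (n 0 z z))))) (n 0 (n 0 z (n 0 z (n 0 z (n 0 z (n 0 z z))))) (n 0
 (n 0 z (n 0 z (n 0 z (n 0 z (n 0 z z))))) z))))))))) (n 99 (n 0 (n 0 z (n 0 z (n 0 z (n 0 z (n
 0 z z))))) (n 0 (n 0 z (n 0 z (n 0 z (n 0 z (n 0 z z))))) (n 0 (n 0 z (n 0 z (n 0 z (n 0 z (n 0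
 z z))))) (n 0 (n 0 z (n 0 z (n 0 z (n 0 z (n 0 z z))))) (n 0 (n 0 z (n 0 z (n 0 z (n 0 z (n 0 z
 z))))) (n 0 (n 0 z (n 0 z (n 0 z (n 0 z (n 0 z z))))) (n 0 (n 0 z (n 0 z (n 0 z (n 0 z (n 0 z
 z))))) (n 0 (n 0 z (n 0 z (n 0 z (n 0 z (n 0 z z))))) (n 0 (n 0 z (n 0 z (n 0 z (n 0 z (n 0 z
 z))))) (n 0 (n 0 z (n 0 z (n 0 z (n 0 z (n 0 z z))))) (n 0 (n 0 z (n 0 z (n 0 z (n 0 z (n 0 (n
 8726027 z z) z))))) (n 0 (n 0 z (n 0 z (n 0 z (n 0 z (n 0 z z))))) z)))))))))))) (n 340 (n 0 (n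
 0 z (n 0 z (n 0 z (n 0 z (n 0 z z))))) (n 0 (n 0 z (n 0 z (n 0 z (n 0 z (n 0 z z))))) (n 0 (n 0
 z (n 0 z (n 0 z (n 0 z (n 0 (n 8872459 z z) z))))) (n 0 (n 0 z (n 0 (n 4327515 z z) (n 0 z (n 0
 z (n 0 (n 4327515 z z) z))))) (n 0 (n 0 z (n 0 z (n 0 z (n 0 z (n 0 (n 8872459 z (n 8799091 z
 z)) z))))) (n 0 (n 0 z (n 0 (n 4327515 z (n 4327515 z z)) (n 0 z (n 0 z (n 0 (n 8857163 z (n
 8799091 z z)) z))))) (n 0 (n 0 z (n 0 z (n 0 z (n 0 z (n 0 z z))))) (n 0 (n 0 z (n 0 z (n 0 z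
 (n 0 z (n 0 z z))))) (n 0 (n 0 z (n 0 z (n 0 z (n 0 z (n 0 z z))))) (n 0 (n 0 (n 8795979 z z)
 (n 0 z (n 0 z (n 0 z (n 0 z z))))) (n 0 (n 0 z (n 0 z (n 0 z (n 0 z (n 0 z z))))) (n 0 (n 0 z
 (n 0 z (n 0 z (n 0 z (n 0 z z))))) (n 0 (n 0 z (n 0 z (n 0 z (n 0 z (n 0 z z))))) (n 0 (n 0 z
 (n 0 z (n 0 z (n 0 z (n 0 z z))))) (n 0 (n 0 z (n 0 z (n 0 z (n 0 z (n 0 z z))))) (n 0 (n 0 z
 (n 0 (n 8586779 z z) (n 0 z (n 0 z (n 0 z z))))) (n 0 (n 0 z (n 0 z (n 0 z (n 0 z (n 0 z z)))))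
 (n 0 (n 0 z (n 0 (n 4327515 z z) (n 0 z (n 0 z (n 0 z z))))) (n 0 (n 0 z (n 0 (n 8728691 z (n
 0x4ea87679d8028287d78427da7308287948527fe73b89d80b7cb7af8e07bc7e37ba87b7907e48957e778b8368e670779f89188186178e8267b084f83e79b7cb8927c680a74a91972d8ae88179a8580051
 z z)) (n 0 z (n 0 z (n 0 (n 8872459 z (n 8872459 z z)) z))))) (n 0 (n 0 z (n 0 z (n 0 z (n 0 z
 (n 0 z z))))) (n 0 (n 0 z (n 0 z (n 0 z (n 0 z (n 0 z z))))) (n 0 (n 0 (n 4331643 z z) (n 0 z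
 (n 0 z (n 0 z (n 0 z z))))) (n 0 (n 0 z (n 0 z (n 0 z (n 0 z (n 0 z z))))) (n 0 (n 0 z (n 0 z
 (n 0 z (n 0 z (n 0 z z))))) (n 0 (n 0 z (n 0 z (n 0 z (n 0 z (n 0 z z))))) (n 0 (n 0 (n 8726027
 z (n 8728947 z z)) (n 0 z (n 0 z (n 0 z (n 0 z z))))) (n 0 (n 0 z (n 0 z (n 0 z (n 0 z (n 0 z
 z))))) (n 0 (n 0 z (n 0 (n 8726027 z (n 8726027 z z)) (n 0 z (n 0 z (n 0 (n 8726027 z (n
 8726027 z z)) z))))) (n 0 (n 0 z (n 0 z (n 0 z (n 0 z (n 0 z z))))) (n 0 (n 0 z (n 0 (n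
 0x548768282628f3a7cbaa8a9a18d8d8d44a33ba2bb4c7b70794e767f43a4843b447e959ad2827e9d815b764942834aae999b757c8e0049
 z z) (n 0 z (n 0 z (n 0 z z))))) (n 0 (n 0 z (n 0 (n 8726027 z z) (n 0 z (n 0 z (n 0 z z)))))
 (n 0 (n 0 z (n 0 z (n 0 z (n 0 z (n 0 z z))))) (n 0 (n 0 z (n 0 z (n 0 z (n 0 z (n 0 z z)))))
 (n 0 (n 0 z (n 0 z (n 0 z (n 0 z (n 0 (n
 0x90e6ec28079183529d3d80b96f968381b07e639c689ba951a4638a5a88776a6d7668666c7a95a772798e916e6f58879b879f887e929b740809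
 z z) z))))) (n 0 (n 0 (n 8795979 z (n 8728947 z z)) (n 0 (n
 0x548708282628f3a7cbaa8a9a18d8d8d44a33ba2bb4c7b70794e767f43a4843b447e959ad2827e9d815b764942834aae999b757c8e0049
 z (n
 0x252190012410009382081181a7d382479f8038677ef8237ff7e782280a7da8597bf8028527898347f18147d27e88007ec80e7fc7bf7c77f580d8038387df80a81f8037c880a75e8288038278278157ec7df8197ea00d1
 z z)) (n 0 z (n 0 z (n 0 z z))))) (n 0 (n 0 z (n 0 (n 8726027 z (n 8726027 z z)) (n 0 z (n 0 z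
 (n 0 z z))))) (n 0 (n 0 z (n 0 z (n 0 z (n 0 z (n 0 z z))))) (n 0 (n 0 z (n 0 z (n 0 z (n 0 z
 (n 0 z z))))) (n 0 (n 0 z (n 0 (n 8728691 z (n 8586779 z z)) (n 0 z (n 0 z (n 0 z z))))) (n 0
 (n 0 z (n 0 (n 8728691 z (n 8726027 z z)) (n 0 z (n 0 z (n 0 z z))))) (n 0 (n 0 z (n 0 z (n 0 z
 (n 0 z (n 0 z z))))) (n 0 (n 0 z (n 0 z (n 0 z (n 0 z (n 0 z z))))) (n 0 (n 0 z (n 0 (n
 0x548768282628f3a7cbaa8a9a18d8d8d44a33ba2bb4c7b70794e767f43a4843b447e959ad2827e9d815b764942834aae999b757c8e0049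
 z z) (n 0 z (n 0 z (n 0 z z))))) (n 0 (n 0 z (n 0 z (n 0 z (n 0 z (n 0 z z))))) (n 0 (n 0 z (n
 0 z (n 0 z (n 0 z (n 0 z z))))) (n 0 (n 0 z (n 0 z (n 0 z (n 0 z (n 0 z z))))) (n 0 (n 0 z (n 0
 (n
 0x4643b001c8648118057c283777e8058507e88157f38028388047d88517bb82f8507a48427ed81a7b97fb7ee7cd7f08057cc7d77f680e81783e7e87fd8388167d37ef79c8208198238267f37ec81c81a7f30091
 z (n
 0x3487681806d8a537da5999a9589888859975396a65f7c767b607a7f599782545a7f8e91b5827f9381687a5d58825d9d9091797d890049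
 z z)) (n 0 z (n 0 z (n 0 z z))))) (n 0 (n 0 z (n 0 (n 4327515 z (n 4327515 z z)) (n 0 z (n 0 z
 (n 0 (n 4327515 z (n 8799091 z z)) z))))) (n 0 (n 0 z (n 0 (n 8728691 z (n 8795915 z z)) (n 0 z
 (n 0 z (n 0 z z))))) z))))))))))))))))))))))))))))))))))))))))))))))))) (n 42 (n 0 (n 0 z (n 0
 z (n 0 z (n 0 z (n 0 z z))))) (n 0 (n 0 z (n 0 z (n 0 z (n 0 z (n 0 z z))))) (n 0 (n 0 z (n 0 z
 (n 0 z (n 0 z (n 0 z z))))) (n 0 (n 0 z (n 0 z (n 0 z (n 0 z (n 0 (n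
 0x4ea82079d8028287d78427da7308287948527fe73b89d80b7cb7af8e07bc7e37ba87b7907e48957e778b8368e670779f89188186178e8267b084f83e79b7cb8927c680a74a91972d8ae88179a8580051
 z z) z))))) (n 0 (n 0 z (n 0 z (n 0 z (n 0 z (n 0 z z))))) (n 0 (n 0 z (n 0 z (n 0 z (n 0 z (n
 0 z z))))) (n 0 (n 0 z (n 0 z (n 0 z (n 0 z (n 0 (n 8726027 z (n 8799091 z z)) z))))) (n 0 (n 0
 z (n 0 (n 8867891 z (n 8867891 z z)) (n 0 z (n 0 z (n 0 (n 8716827 z (n 8799091 z z)) z))))) (n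
 0 (n 0 z (n 0 z (n 0 z (n 0 z (n 0 z z))))) (n 0 (n 0 z (n 0 z (n 0 z (n 0 z (n 0 z z))))) (n 0
 (n 0 z (n 0 z (n 0 z (n 0 z (n 0 z z))))) (n 0 (n 0 z (n 0 z (n 0 z (n 0 z (n 0 z z))))) (n 0
 (n 0 z (n 0 (n 8728691 z (n
 0x4ea87679d8028287d78427da7308287948527fe73b89d80b7cb7af8e07bc7e37ba87b7907e48957e778b8368e670779f89188186178e8267b084f83e79b7cb8927c680a74a91972d8ae88179a8580051
 z z)) (n 0 z (n 0 z (n 0 z z))))) (n 0 (n 0 (n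
 0x3a87689816b8b4f6fa89499917f92835f926fa2a4558f5e7e5292797291734f63787aa2b5837b82866c7a5868876eb0998b6d7e880049
 z (n
 0x92876828169914e75a29495807e87925f7c6cacb1678f698e4b7d7d6f8d673f6e6a8d7ab67d9d987368865d6b9067a08c8e9085850049
 z z)) (n 0 z (n 0 z (n 0 z (n 0 z z))))) (n 0 (n 0 z (n 0 z (n 0 z (n 0 z (n 0 z z))))) (n 0 (n
 0 (n 8726027 z (n 8726027 z z)) (n 0 z (n 0 z (n 0 z (n 0 z z))))) (n 0 (n 0 z (n 0 z (n 0 z (n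
 0 z (n 0 z z))))) (n 0 (n 0 z (n 0 z (n 0 z (n 0 z (n 0 z z))))) (n 0 (n 0 z (n 0 (n 8728691 z
 (n 8718139 z z)) (n 0 z (n 0 z (n 0 z z))))) (n 0 (n 0 z (n 0 (n
 0x1a43b0da8768ea7437b7f639a4e9577639c9c93659ac16c4597597671c67587798146879b6bd284955175a15f678873927ce8708c9a83820089
 z (n 8795915 z z)) (n 0 z (n 0 z (n 0 (n
 0x3ea8727b18018207e08357e27598217a98427ff76287e8087d57be8b37c97ea7c78637a77ea8777ec7a382c8b87387b287586884c7a38207c28408307ae7d68747d180876f8df75988b8687b08470051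
 z (n
 0x61d1d84c0e010e70e6407807f7f7f807f80817f80808082827f8081807e808180807f827f80807f7f808181807f81817f7f81807f7f8180807f807f811009
 z z)) z))))) (n 0 (n 0 z (n 0 z (n 0 z (n 0 z (n 0 z z))))) (n 0 (n 0 z (n 0 (n 8728691 z (n
 8718139 z z)) (n 0 z (n 0 z (n 0 (n
 0x448718c8563944a81aa7f8c887b9a84659e6494a2529670845e85766d867e5a6977898ea8767f8f8d697a508088829e807c81897c0049
 z (n
 0x7d87185815d834b65c4a6a5aa8f8c9059767abe9a4d72535c49988c6ba772315b8a88aff48977767d687058367848c7b5a7497a940049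
 z z)) z))))) (n 0 (n 0 z (n 0 z (n 0 z (n 0 z (n 0 z z))))) (n 0 (n 0 z (n 0 z (n 0 z (n 0 z (n
 0 (n
 0x548608f855c993d81b37f8f8a7ba1845fa55e99aa479b6c8556877468877e5264748b91b1747f92906479457f8a83a5807a828c7b0049
 z z) z))))) (n 0 (n 0 z (n 0 z (n 0 z (n 0 z (n 0 z z))))) (n 0 (n 0 z (n 0 (n 8728691 z (n
 8726027 z z)) (n 0 z (n 0 z (n 0 (n 8726027 z (n 8726027 z z)) z))))) (n 0 (n 0 z (n 0 z (n 0 z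
 (n 0 z (n 0 z z))))) (n 0 (n 0 z (n 0 z (n 0 z (n 0 z (n 0 z z))))) (n 0 (n 0 z (n 0 z (n 0 z
 (n 0 z (n 0 (n 8872459 z z) z))))) (n 0 (n 0 z (n 0 (n
 0x7d82185815d834b65c4a6a5aa8f8c9059767abe9a4d72535c49988c6ba772315b8a88aff48977767d687058367848c7b5a7497a940049
 z z) (n 0 z (n 0 z (n 0 (n 3213435 z z) z))))) (n 0 (n 0 (n
 0x548768282628f3a7cbaa8a9a18d8d8d44a33ba2bb4c7b70794e767f43a4843b447e959ad2827e9d815b764942834aae999b757c8e0049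
 z (n
 0x64108ac81082875e8a2d7abea192917caa894c9c32a8c23eaa719c45736e4e91634647678f8dbe848eac895e893c569261a08c6a897f870089
 z z)) (n 0 (n
 0x348768c82579e2d74c995ae938a9e874ba04dabbf46935f804383765a877b4151768898ce7d84988c5372435b9359b394918b8d860049
 z (n
 0x64108ac81082875e8a2d7abea192917caa894c9c32a8c23eaa719c45736e4e91634647678f8dbe848eac895e893c569261a08c6a897f870089
 z z)) (n 0 z (n 0 z (n 0 (n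
 0x64108ac81082875e8a2d7abea192917caa894c9c32a8c23eaa719c45736e4e91634647678f8dbe848eac895e893c569261a08c6a897f870089
 z (n
 0x641088c810828565883d7cb19b8e8c7da287569642a0b64aa27496517672588e6951536c8c8bb2828ba38864874a5e8e6799896e877f860089
 z z)) z))))) (n 0 (n 0 (n
 0x1243b07b8108b815e9e3d81b688a08d8897875ea6589cb44f8d6d7d4e827a5b7e8149587c8c90bb7181938a5e6a4d7b876ea48f8e8992800089
 z (n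
 0xe084754108448107485787d6f769bbcb486756aa1576670a5bd5c84649a3477765cb64d186e55818dc38da1ab5f4aaa4242724dc49d816a758c00c9
 z z)) (n 0 z (n 0 z (n 0 z (n 0 z z))))) (n 0 (n 0 z (n 0 z (n 0 z (n 0 z (n 0 z z))))) (n 0 (n
 0 z (n 0 z (n 0 z (n 0 z (n 0 z z))))) (n 0 (n 0 z (n 0 z (n 0 z (n 0 z (n 0 z z))))) (n 0 (n 0
 z (n 0 z (n 0 z (n 0 z (n 0 z z))))) (n 0 (n 0 z (n 0 z (n 0 z (n 0 z (n 0 z z))))) (n 0 (n 0 z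
 (n 0 z (n 0 z (n 0 z (n 0 z z))))) (n 0 (n 0 z (n 0 z (n 0 z (n 0 z (n 0 (n 8872459 z (n
 8799091 z z)) z))))) (n 0 (n 0 z (n 0 (n
 0x921d8049c3b009482181181a7d382479f8038677ef8237ff7e782280a7da8597bf8028527898347f18147d27e88007ec80e7fc7bf7c77f580d8038387df80a81f8037c880a75e8288038278278157ec7df8197ea00d1
 z (n
 0x7d82185815d834b65c4a6a5aa8f8c9059767abe9a4d72535c49988c6ba772315b8a88aff48977767d687058367848c7b5a7497a940049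
 z z)) (n 0 z (n 0 z (n 0 (n 8853051 z (n 8799091 z z)) z))))) (n 0 (n 0 z (n 0 z (n 0 z (n 0 z
 (n 0 z z))))) (n 0 (n 0 (n
 0x1243b07b8108b815e9e3d81b688a08d8897875ea6589cb44f8d6d7d4e827a5b7e8149587c8c90bb7181938a5e6a4d7b876ea48f8e8992800089
 z (n
 0x2e1d80ed43b00848107e980a7f07fa7df7ed83587586580c7eb7d58417b07ce7e18498777b98077c883376c7f07eb7b986979c7357dd7ac80381a88281a8428537c27988517867887e679e88583a8017d67ea81300d1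
 z z)) (n 0 z (n 0 z (n 0 z (n 0 z z))))) (n 0 (n 0 z (n 0 z (n 0 z (n 0 z (n 0 z z))))) (n 0 (n
 0 z (n 0 (n 8728691 z (n
 0x4ea87679d8028287d78427da7308287948527fe73b89d80b7cb7af8e07bc7e37ba87b7907e48957e778b8368e670779f89188186178e8267b084f83e79b7cb8927c680a74a91972d8ae88179a8580051
 z z)) (n 0 z (n 0 z (n 0 (n 8872459 z (n 8872459 z z)) z))))) (n 0 (n 0 z (n 0 (n
 0x548768f855c993d81b37f8f8a7ba1845fa55e99aa479b6c8556877468877e5264748b91b1747f92906479457f8a83a5807a828c7b0049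
 z (n 8718139 z z)) (n 0 z (n 0 z (n 0 z z))))) (n 0 (n 0 z (n 0 (n 8728691 z (n
 0xa2430011b8607ab82c8957868fe8357848447ef8067d475881385e7a27e67637bb8507ac8a780c86577881080a84484583b80d8108467577477ff83b84c7bb7d485d8137e87b67cb78479e7f581f7d08130091
 z z)) (n 0 z (n 0 z (n 0 z z))))) (n 0 (n 0 z (n 0 (n
 0x92873828169914e75a29495807e87925f7c6cacb1678f698e4b7d7d6f8d673f6e6a8d7ab67d9d987368865d6b9067a08c8e9085850049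
 z (n 8795915 z z)) (n 0 z (n 0 z (n 0 (n
 0x548718282628f3a7cbaa8a9a18d8d8d44a33ba2bb4c7b70794e767f43a4843b447e959ad2827e9d815b764942834aae999b757c8e0049
 z (n
 0x3a87189816b8b4f6fa89499917f92835f926fa2a4558f5e7e5292797291734f63787aa2b5837b82866c7a5868876eb0998b6d7e880049
 z z)) z))))) z))))))))))))))))))))))))))))))))))))))))))))))) (n 321 (n 0 (n 0 z (n 0 z (n 0 z
 (n 0 z (n 0 z z))))) (n 0 (n 0 z (n 0 z (n 0 z (n 0 z (n 0 z z))))) (n 0 (n 0 z (n 0 z (n 0 z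
 (n 0 z (n 0 z z))))) (n 0 (n 0 z (n 0 z (n 0 z (n 0 z (n 0 z z))))) (n 0 (n 0 z (n 0 (n
 0x7d82185815d834b65c4a6a5aa8f8c9059767abe9a4d72535c49988c6ba772315b8a88aff48977767d687058367848c7b5a7497a940049
 z (n
 0x7d82185815d834b65c4a6a5aa8f8c9059767abe9a4d72535c49988c6ba772315b8a88aff48977767d687058367848c7b5a7497a940049
 z z)) (n 0 z (n 0 z (n 0 (n 7542827 z (n 8799091 z z)) z))))) z))))) (n 255 (n 0 (n 0 z (n 0 z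
 (n 0 z (n 0 z (n 0 z z))))) (n 0 (n 0 z (n 0 z (n 0 z (n 0 z (n 0 z z))))) (n 0 (n 0 z (n 0 z
 (n 0 z (n 0 z (n 0 z z))))) (n 0 (n 0 z (n 0 z (n 0 z (n 0 z (n 0 z z))))) (n 0 (n 0 z (n 0 z
 (n 0 z (n 0 z (n 0 z z))))) (n 0 (n 0 z (n 0 z (n 0 z (n 0 z (n 0 z z))))) (n 0 (n 0 z (n 0 z
 (n 0 z (n 0 z (n 0 z z))))) (n 0 (n 0 z (n 0 z (n 0 z (n 0 z (n 0 z z))))) (n 0 (n 0 z (n 0 z
 (n 0 z (n 0 z (n 0 z z))))) (n 0 (n 0 z (n 0 z (n 0 z (n 0 z (n 0 z z))))) (n 0 (n 0 z (n 0 z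
 (n 0 z (n 0 z (n 0 z z))))) (n 0 (n 0 z (n 0 z (n 0 z (n 0 z (n 0 z z))))) (n 0 (n 0 z (n 0 z
 (n 0 z (n 0 z (n 0 z z))))) z))))))))))))) (n 9 (n 0 (n 0 z (n 0 z (n 0 z (n 0 z (n 0 z z)))))
 (n 0 (n 0 (n 8872731 z z) (n 0 z (n 0 z (n 0 z (n 0 z z))))) (n 0 (n 0 z (n 0 z (n 0 z (n 0 z
 (n 0 z z))))) (n 0 (n 0 z (n 0 z (n 0 z (n 0 z (n 0 z z))))) (n 0 (n 0 z (n 0 z (n 0 z (n 0 z
 (n 0 z z))))) (n 0 (n 0 z (n 0 z (n 0 z (n 0 z (n 0 z z))))) (n 0 (n 0 z (n 0 z (n 0 z (n 0 z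
 (n 0 z z))))) (n 0 (n 0 z (n 0 z (n 0 z (n 0 z (n 0 z z))))) (n 0 (n 0 z (n 0 z (n 0 z (n 0 z
 (n 0 z z))))) (n 0 (n 0 z (n 0 z (n 0 z (n 0 z (n 0 z z))))) (n 0 (n 0 z (n 0 z (n 0 z (n 0 z
 (n 0 z z))))) (n 0 (n 0 z (n 0 z (n 0 z (n 0 z (n 0 z z))))) (n 0 (n 0 z (n 0 (n 8867891 z z)
 (n 0 z (n 0 z (n 0 z z))))) (n 0 (n 0 z (n 0 z (n 0 z (n 0 z (n 0 (n
 0x130eb06080785946e719d938b797fa5768a81737978875d5b7e866d7a9b7f67989c6679869f938573648d8c696d6d656c74a44b93868f770809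
 z (n 8799091 z z)) z))))) (n 0 (n 0 (n 7682123 z (n
 0x2e1d00ed43a00848107e980a7f07fa7df7ed83587586580c7eb7d58417b07ce7e18498777b98077c883376c7f07eb7b986979c7357dd7ac80381a88281a8428537c27988517867887e679e88583a8017d67ea81300d1
 z z)) (n 0 z (n 0 z (n 0 z (n 0 z z))))) (n 0 (n 0 z (n 0 z (n 0 z (n 0 z (n 0 z z)))))
 z)))))))))))))))) (n 27 (n 0 (n 0 z (n 0 z (n 0 z (n 0 z (n 0 z z))))) (n 0 (n 0 z (n 0 z (n 0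
 z (n 0 z (n 0 z z))))) (n 0 (n 0 z (n 0 z (n 0 z (n 0 z (n 0 z z))))) (n 0 (n 0 z (n 0 z (n 0 z
 (n 0 z (n 0 z z))))) (n 0 (n 0 z (n 0 z (n 0 z (n 0 z (n 0 z z))))) (n 0 (n 0 (n 8795979 z z)
 (n 0 z (n 0 z (n 0 z (n 0 z z))))) (n 0 (n 0 z (n 0 z (n 0 z (n 0 z (n 0 z z))))) (n 0 (n 0 z
 (n 0 z (n 0 z (n 0 z (n 0 z z))))) z)))))))) (n 1 (n 0 (n 0 z (n 0 z (n 0 z (n 0 z (n 0 z
 z))))) (n 0 (n 0 z (n 0 z (n 0 z (n 0 z (n 0 z z))))) (n 0 (n 0 z (n 0 z (n 0 z (n 0 z (n 0 z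
 z))))) (n 0 (n 0 z (n 0 z (n 0 z (n 0 z (n 0 z z))))) (n 0 (n 0 z (n 0 z (n 0 z (n 0 z (n 0 z
 z))))) (n 0 (n 0 z (n 0 z (n 0 z (n 0 z (n 0 z z))))) (n 0 (n 0 z (n 0 z (n 0 z (n 0 z (n 0 z
 z))))) (n 0 (n 0 z (n 0 (n
 0x30a8ea420781807f808180807f81808081807f80807f808080808080817f7f7f808180818180807f80808080808080808080808180807f0809
 z z) (n 0 z (n 0 z (n 0 z z))))) (n 0 (n 0 z (n 0 z (n 0 z (n 0 z (n 0 (n 8872459 z z) z)))))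
 z))))))))) (n 0 (n 0 (n 0 z (n 0 z (n 0 z (n 0 z (n 0 z z))))) (n 0 (n 0 z (n 0 z (n 0 z (n 0 z
 (n 0 z z))))) (n 0 (n 0 z (n 0 z (n 0 z (n 0 z (n 0 z z))))) (n 0 (n 0 z (n 0 z (n 0 z (n 0 z
 (n 0 z z))))) (n 0 (n 0 z (n 0 z (n 0 z (n 0 z (n 0 z z))))) (n 0 (n 0 z (n 0 (n 8867891 z z)
 (n 0 z (n 0 z (n 0 (n 8716827 z z) z))))) (n 0 (n 0 z (n 0 z (n 0 z (n 0 z (n 0 z z))))) (n 0
 (n 0 z (n 0 (n 8728691 z (n 8795915 z z)) (n 0 z (n 0 z (n 0 z z))))) z))))))))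
 z))))))))))))))))))))) z)))) z) z)))) z)))))))))), by decide +kernel⟩
theorem i11123 : ∃ t, chkR KT RW t 11123 11133 = true := ⟨(n
 0x9e768459370cf594164cc8675aa854b261d593c29a8b04e4f3029350151640 (n 0 (n 453 (n 3282443 z (n
 6619675 z (n 2 z (n 0 z (n 0 z (n 0 z (n 10 z (n 18 z z)))))))) (n 451 (n 3278363 z (n 0 z (n
 26 z (n 0 z (n 0 z (n 0 z (n 34 z z))))))) (n 450 (n 0 z (n 3212843 z (n 0 z (n 0 z (n 0 z (n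
 42 z (n 0 z (n 50 z (n 0 z (n 0 z (n 0 z (n 0 z z)))))))))))) (n 3 (n 2164283 z (n 0 z (n 0 z
 (n 58 z z)))) (n 1 (n 2164299 z (n 0 z (n 0 z (n 0 z (n 66 z (n 0 z (n 0 z (n 0 z (n 74 z
 z))))))))) (n 0 (n 82 z (n 0 z (n 90 z (n 6619675 z (n 0 z (n 0 z z)))))) z)))))) (n 3 (n 0 (n
 0 z (n 0 z (n 875 (n 0 z (n 0 z (n 0 z (n 0 z (n 0 z (n 0 z (n 0 z (n 0 z (n 0 z z))))))))) (n
 875 (n 0 z (n 0 z (n 0 z (n 0 z (n 0 z (n 0 z (n 0 z (n 0 z (n 2 (n 2 (n 0 z (n 0 z (n 0 z (n 0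
 z (n 0 z (n 0 z z)))))) (n 1 z (n 2 (n 0 z (n 0 z (n 0 z (n 0 z (n 0 z (n 0 z z)))))) (n 2 (n 0
 z (n 0 z (n 0 z (n 0 z (n 0 z (n 0 z z)))))) (n 2 (n 0 z (n 0 z (n 0 z (n 0 z (n 0 z (n 0 z
 z)))))) (n 2 (n 0 z (n 0 z (n 0 z (n 0 z (n 0 z (n 0 z z)))))) (n 2 (n 0 z (n 0 z (n 0 z (n 0 z
 (n 0 z (n 0 z z)))))) z))))))) z))))))))) (n 873 (n 0 z (n 0 z (n 0 z (n 2 (n 0 z (n 2 (n 0 z
 (n 0 z (n 0 z (n 0 z (n 0 z (n 0 z z)))))) (n 2 (n 0 z (n 0 z (n 0 z (n 0 z (n 0 z (n 0 z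
 z)))))) (n 2 (n 0 z (n 0 z (n 0 z (n 0 z (n 0 z (n 0 z z)))))) (n 2 (n 0 z (n 0 z (n 0 z (n 0
 (n 8872731 z z) (n 0 z (n 0 z z)))))) (n 2 (n 0 z (n 0 z (n 0 z (n 0 z (n 0 z (n 0 z z))))))
 z)))))) (n 0 z (n 0 z (n 0 z z))))))) (n 873 (n 0 z (n 0 z (n 0 z (n 0 z (n 0 z (n 0 z (n 0 z
 z))))))) (n 247 (n 0 z (n 0 z (n 0 z (n 0 z (n 0 z (n 2 (n 2 (n 0 z (n 0 z (n 0 z (n 0 z (n 0 z
 (n 0 z z)))))) (n 2 (n 0 z (n 0 z (n 0 z (n 0 z (n 0 z (n 0 z z)))))) (n 2 (n 0 z (n 0 z (n 0 z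
 (n 0 z (n 0 z (n 0 z z)))))) (n 2 (n 0 z (n 0 z (n 0 z (n 0 z (n 0 z (n 0 z z)))))) z)))) (n 0
 z z))))))) (n 15 (n 0 z (n 0 z (n 0 z (n 0 z (n 0 z (n 0 z (n 0 z z))))))) (n 15 (n 0 z (n 0 z
 (n 0 z (n 0 z (n 0 z (n 0 z (n 0 z z))))))) (n 745 (n 0 z (n 0 z (n 0 z (n 0 z (n 0 z (n 0 z (n
 0 z (n 0 z z)))))))) (n 745 (n 0 z (n 0 z (n 0 z (n 0 z (n 0 z (n 2 z (n 0 z (n 0 z z))))))))
 z))))))))))) (n 0 (n 0 z (n 875 (n 0 z (n 0 z (n 0 z (n 0 z (n 0 z z))))) (n 875 (n 0 z (n 0 z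
 (n 0 z (n 0 z (n 2 (n 2 (n 0 z (n 0 z (n 0 z (n 0 z (n 0 z (n 0 z z)))))) (n 1 z (n 2 (n 0 z (n
 0 z (n 0 z (n 0 z (n 0 z (n 0 z z)))))) (n 1 z (n 2 (n 0 z (n 0 z (n 0 z (n 0 (n 8855891 z z)
 (n 0 z (n 0 z z)))))) (n 1 z (n 2 (n 0 z (n 0 z (n 0 z (n 0 z (n 0 z (n 0 z z)))))) z)))))))
 z))))) (n 873 (n 0 z (n 0 z (n 0 z (n 0 z (n 0 z (n 0 z (n 0 z (n 0 z (n 2 (n 0 z (n 2 (n 0 z
 (n 0 z (n 0 z (n 0 z (n 0 z (n 0 z z)))))) (n 1 z (n 2 (n 0 z (n 0 z (n 0 z (n 0 z (n 0 z (n 0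
 z z)))))) (n 1 z (n 2 (n 0 z (n 0 z (n 0 z (n 0 z (n 0 z (n 0 z z)))))) z)))))) (n 0 z (n 0 z
 (n 0 z (n 0 z (n 0 z (n 0 z (n 0 z (n 0 z (n 0 z (n 0 z z))))))))))))))))))) (n 873 (n 0 z (n 0
 z (n 0 z (n 0 z (n 0 z (n 0 z (n 0 z (n 0 z (n 0 z (n 0 z (n 0 z (n 0 z (n 0 z (n 2 (n 1 z (n 1
 z (n 2 (n 0 z (n 0 z (n 0 (n 420 z z) (n 0 (n 420 z (n 420 z z)) (n 0 z (n 0 z z)))))) (n 1 z
 (n 1 z z))))) (n 0 z (n 0 z (n 0 z (n 0 z (n 0 z z))))))))))))))))))) (n 153 (n 0 z (n 0 z (n 0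
 z (n 0 z (n 0 z (n 2 (n 1 z (n 2 (n 0 z (n 0 z (n 0 z (n 0 (n 8855891 z z) (n 0 z (n 0 z
 z)))))) (n 1 z (n 2 (n 0 z (n 0 z (n 0 z (n 0 z (n 0 z (n 0 z z)))))) z)))) z)))))) (n 105 (n 0
 z (n 0 z (n 0 z (n 0 z (n 0 z (n 0 z (n 0 z z))))))) (n 105 (n 0 z (n 0 z (n 0 z (n 0 z (n 0 z
 (n 0 z (n 0 z z))))))) (n 121 (n 0 z (n 0 z (n 0 z (n 0 z (n 0 z z))))) (n 121 (n 0 z (n 0 z (n
 0 z (n 0 z (n 0 z z))))) z)))))))))) (n 0 (n 903 (n 0 z (n 0 z (n 0 z (n 2 (n 0 z (n 2 (n 0 z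
 (n 0 z (n 0 z (n 0 z (n 0 z (n 0 z z)))))) (n 1 z (n 2 (n 0 z (n 0 z (n 0 z (n 0 z (n 0 z (n 0
 z z)))))) (n 2 (n 0 z (n 0 z (n 0 z (n 0 z (n 0 z (n 0 z z)))))) (n 2 (n 0 z (n 0 z (n 0 z (n 0
 z (n 0 z (n 0 z z)))))) (n 2 (n 0 z (n 0 z (n 0 z (n 0 (n 8855811 z z) (n 0 z (n 0 z z)))))) (n
 2 (n 0 z (n 0 z (n 0 z (n 0 z (n 0 z (n 0 z z)))))) z)))))))) (n 0 z (n 0 z (n 0 z z))))))) (n
 903 (n 0 z (n 0 z (n 0 z (n 0 z (n 0 z (n 0 z (n 0 z z))))))) (n 901 (n 0 z (n 0 z (n 0 z (n 0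
 z (n 0 z (n 0 z (n 0 z (n 0 z z)))))))) (n 901 (n 0 z (n 0 z (n 0 z (n 0 z (n 2 (n 1 z (n 2 (n
 0 z (n 0 z (n 0 z (n 0 z (n 0 z (n 0 z z)))))) (n 1 z (n 2 (n 0 z (n 0 z (n 0 z (n 0 z (n 0 z
 (n 0 z z)))))) (n 1 z z))))) (n 0 z (n 0 z (n 0 z z)))))))) (n 153 (n 0 z (n 0 z (n 0 z (n 0 z
 (n 0 z (n 0 z (n 0 z (n 0 z (n 0 z (n 0 z (n 0 z (n 0 z (n 0 z (n 0 z (n 0 z z)))))))))))))))
 (n 303 (n 0 z (n 0 z (n 0 z (n 0 z (n 0 z (n 0 z (n 0 z (n 0 z (n 0 z (n 0 z (n 0 z (n 0 z (n 0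
 z (n 2 (n 0 z (n 1 z (n 2 (n 0 z (n 0 z (n 0 z (n 0 z (n 0 z (n 0 z z)))))) z))) (n 0 z (n 0 z
 z)))))))))))))))) (n 303 (n 0 z (n 0 z (n 0 z (n 0 z (n 0 z (n 0 z (n 0 z (n 0 z (n 0 z (n 0 z
 (n 0 z (n 0 z (n 0 z (n 0 z (n 0 z (n 0 z z)))))))))))))))) (n 1105 (n 0 z (n 0 z (n 2 (n 0 z
 z) (n 0 z (n 0 z (n 0 z (n 0 z z))))))) (n 1105 (n 0 z (n 0 z (n 0 z (n 0 z (n 0 z (n 0 z (n 0
 z z))))))) z))))))))) (n 0 (n 0 z (n 795 (n 0 z (n 0 z (n 0 z (n 0 z (n 0 z (n 0 z (n 0 z (n 0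
 z (n 0 z (n 0 z (n 0 z (n 0 z (n 2 (n 0 z (n 2 (n 0 z (n 0 z (n 0 z (n 0 z (n 0 z (n 0 z
 z)))))) (n 2 (n 0 z (n 0 z (n 0 z (n 0 z (n 0 z (n 0 z z)))))) (n 2 (n 0 z (n 0 z (n 0 z (n 0 z
 (n 0 z (n 0 z z)))))) (n 2 (n 0 z (n 0 z (n 0 z (n 0 (n 8790275 z z) (n 0 z (n 0 z z)))))) (n 2
 (n 0 z (n 0 z (n 0 z (n 0 z (n 0 z (n 0 z z)))))) z)))))) (n 0 z (n 0 z (n 0 z
 z)))))))))))))))) (n 795 (n 0 z (n 0 z (n 0 z (n 0 z (n 0 z (n 0 z (n 0 z (n 0 z (n 0 z (n 0 z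
 (n 0 z (n 0 z (n 0 z (n 0 z (n 0 z (n 0 z z)))))))))))))))) (n 7 (n 0 z (n 0 z (n 0 z (n 0 z (n
 0 z (n 0 z z)))))) (n 255 (n 0 z (n 0 z (n 0 z (n 0 z (n 0 z (n 0 z (n 0 z (n 0 z (n 0 z (n 0 z
 (n 0 z (n 0 z (n 0 z (n 0 z z)))))))))))))) (n 255 (n 0 z (n 0 z (n 0 z (n 0 z (n 0 z (n 0 z (n
 0 z (n 0 z (n 0 z (n 0 z (n 0 z (n 0 z (n 0 z (n 0 z z)))))))))))))) (n 341 (n 0 z (n 0 z (n 0
 z (n 0 z (n 0 z (n 0 z (n 0 z z))))))) (n 341 (n 0 z (n 0 z (n 0 z (n 0 z (n 0 z (n 2 z (n 0 z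
 z))))))) z)))))))) (n 0 (n 901 (n 0 z (n 0 z (n 0 z (n 0 z (n 0 z z))))) (n 901 (n 0 z (n 0 z
 (n 0 z (n 0 z (n 2 (n 1 z (n 2 (n 0 z (n 0 z (n 0 z (n 0 z (n 0 z (n 0 z z)))))) (n 1 z (n 2 (n
 0 z (n 0 z (n 0 z (n 0 z (n 0 z (n 0 z z)))))) (n 1 z z))))) z))))) (n 75 (n 0 z (n 0 z (n 0 z
 (n 0 z (n 0 z (n 0 z (n 0 z (n 0 z z)))))))) (n 69 (n 0 z (n 2 (n 0 z (n 1 z (n 2 (n 0 z (n 0 z
 (n 0 z (n 0 z (n 0 z (n 0 z z)))))) z))) (n 0 z (n 0 z z)))) (n 69 (n 0 z (n 0 z (n 0 z (n 0 z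
 z)))) (n 1117 (n 0 z (n 2 (n 0 z z) (n 0 z (n 0 z (n 0 z (n 0 z z)))))) (n 1117 (n 0 z (n 0 z
 (n 0 z (n 0 z (n 0 z (n 0 z z)))))) z))))))) (n 0 (n 0 z (n 247 (n 0 z (n 0 z (n 0 z (n 0 z (n
 0 z z))))) (n 15 (n 0 z (n 0 z (n 0 z (n 0 z (n 2 (n 0 z (n 1 z (n 2 (n 0 z (n 0 z (n 0 z (n 0
 z (n 0 z (n 0 z z)))))) z))) (n 0 z z)))))) (n 15 (n 0 z (n 0 z (n 0 z (n 0 z (n 0 z (n 0 z
 z)))))) (n 1129 (n 2 (n 0 z z) (n 0 z (n 0 z (n 0 z (n 0 z (n 0 z (n 0 z (n 0 z (n 0 z (n 0 z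
 (n 0 z (n 0 z (n 0 z (n 0 z (n 0 z (n 0 z (n 0 z (n 0 z (n 0 z (n 0 z (n 0 z (n 0 z (n 0 z
 z))))))))))))))))))))))) (n 1129 (n 0 z (n 0 z (n 0 z (n 0 z (n 0 z (n 0 z (n 0 z (n 0 z (n 0 z
 (n 0 z (n 0 z (n 0 z (n 0 z (n 0 z (n 0 z (n 0 z (n 0 z (n 0 z (n 0 z (n 0 z (n 0 z (n 0 z (n 0
 z z))))))))))))))))))))))) z)))))) (n 0 (n 7 (n 0 z (n 0 z (n 0 z (n 0 z (n 0 z (n 2 (n 2 (n 0
 z (n 0 z (n 0 z (n 0 z (n 0 z (n 0 z z)))))) (n 1 z (n 2 (n 0 z (n 0 z (n 0 z (n 0 z (n 0 z (n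
 0 z z)))))) (n 1 z z)))) (n 0 z z))))))) (n 15 (n 0 z (n 0 z (n 0 z (n 0 z (n 0 z (n 0 z (n 0 z
 (n 0 z (n 0 z z))))))))) (n 15 (n 0 z (n 0 z (n 0 z (n 0 z (n 0 z (n 0 z (n 0 z (n 2 (n 2 (n 0
 z (n 0 z (n 0 z (n 0 z (n 0 z (n 0 z z)))))) (n 2 (n 0 z (n 0 z (n 0 z (n 0 z (n 0 z (n 0 z
 z)))))) z)) (n 0 z z))))))))) (n 13 (n 0 z (n 0 z (n 0 z (n 0 z (n 0 z (n 0 z (n 0 z (n 0 z (n
 2 (n 0 z z) (n 0 z (n 0 z (n 0 z (n 0 z (n 0 z (n 0 z (n 0 z (n 0 z (n 0 z (n 0 z (n 0 z (n 0 z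
 (n 0 z (n 0 z (n 0 z (n 0 z (n 0 z (n 0 z z))))))))))))))))))))))))))) (n 13 (n 0 z (n 0 z (n 0
 z (n 0 z (n 0 z (n 0 z (n 0 z (n 0 z (n 0 z (n 2 z (n 0 z (n 0 z (n 0 z (n 0 z (n 0 z (n 0 z (n
 0 z (n 0 z (n 0 z (n 0 z (n 0 z (n 0 z (n 0 z (n 0 z (n 0 z (n 0 z (n 0 z
 z))))))))))))))))))))))))))) z))))) (n 0 (n 3 (n 0 z (n 0 z (n 0 z (n 2 (n 0 z (n 1 z (n 2 (n 0
 z (n 0 z (n 0 z (n 0 z (n 0 z (n 0 z z)))))) z))) z)))) (n 3 (n 0 z (n 0 z (n 0 z (n 0 z z))))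
 (n 5 (n 2 (n 0 z z) (n 0 z (n 0 z (n 0 z (n 0 z (n 0 z (n 0 z z))))))) (n 5 (n 0 z (n 0 z (n 0
 z (n 0 z (n 0 z (n 0 z (n 0 z z))))))) z)))) (n 0 (n 0 z (n 25 (n 0 z (n 0 z (n 0 z (n 0 z (n 0
 z (n 0 z (n 0 z (n 0 z (n 0 z (n 0 z (n 0 z (n 0 z (n 0 z (n 0 z (n 0 z (n 0 z (n 0 z (n 0 z (n
 0 z (n 0 z (n 0 z (n 0 z (n 0 z (n 0 z (n 0 z (n 0 z (n 0 z (n 0 z (n 0 z (n 0 z (n 0 z (n 0 z
 (n 0 z z))))))))))))))))))))))))))))))))) (n 25 (n 0 z (n 0 z (n 0 z (n 0 z (n 0 z (n 0 z (n 0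
 z (n 0 z (n 0 z (n 2 z (n 0 z (n 0 z (n 0 z (n 0 z (n 0 z (n 0 z (n 0 z (n 0 z (n 0 z (n 0 z (n
 0 z (n 0 z (n 0 z (n 0 z (n 0 z (n 0 z (n 0 z (n 0 z (n 0 z (n 0 z (n 0 z (n 0 z (n 0 z
 z))))))))))))))))))))))))))))))))) z))) (n 0 (n 1 (n 0 z (n 0 z (n 0 z (n 0 z (n 0 z (n 0 z (n
 0 z (n 0 z (n 0 z z))))))))) (n 1 (n 0 z (n 0 z (n 0 z (n 0 z (n 0 z (n 0 z (n 0 z (n 0 z (n 0
 z z))))))))) z)) (n 0 (n 0 z z) (n 0 z z)))))))))))) (n 0 (n 1 (n 2164283 z (n 2164283 z (n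
 2164283 z (n 2164283 z (n 2164283 z (n 2164283 z z)))))) (n 0 z (n 0 z (n 1 (n 3628 z (n
 3278427 z (n 12 z (n 3628 z (n 3628 z (n 3628 z z)))))) z)))) (n 0 z z)))) (n 0 (n 0 (n 545 (n
 0 z (n 0 z (n 3282443 z (n 0 z (n 0 z (n 0 z (n 0 z (n 0 z (n 0 z (n 0 z (n 0 z (n 0 z (n 0 z
 (n 0 z (n 0 z (n 0 z (n 0 z z))))))))))))))))) (n 541 (n 0 z (n 0 z (n 0 z (n 0 z (n 0 z (n 0 z
 (n 3278363 z (n 0 z (n 0 z (n 0 z z)))))))))) (n 474 (n 0 z (n 3212843 z (n 0 z (n 0 z (n 0 z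
 (n 0 z (n 0 z (n 0 z z)))))))) (n 3 (n 6631947 z (n 0 z (n 0 z (n 0 z (n 0 z (n 0 z (n 0 z (n 0
 z (n 0 z z))))))))) (n 1 (n 0 z (n 0 z (n 0 z (n 0 z (n 2164299 z (n 0 z (n 0 z (n 0 z (n 0 z
 (n 0 z z)))))))))) (n 0 (n 0 z (n 0 z (n 6631947 z (n 0 z (n 0 z (n 0 z (n 0 z (n 0 z (n 0 z (n
 0 z (n 0 z z))))))))))) z)))))) (n 474 z (n 0 (n 0 z (n 1 (n 3212843 z (n 6631947 z (n 3212843
 z (n 3212843 z (n 3212843 z (n 3212843 z z)))))) (n 0 z (n 0 z (n 0 z (n 0 z (n 0 z (n 0 z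
 z)))))))) (n 0 z z)))) (n 0 (n 0 (n 209 (n 0 z (n 3282443 z (n 0 z (n 0 z z)))) (n 35 (n 0 z (n
 0 z (n 3278363 z (n 0 z (n 0 z (n 0 z (n 0 z (n 0 z (n 0 z (n 0 z z)))))))))) (n 195 (n 0 z (n
 0 z (n 0 z (n 0 z (n 0 z (n 3212843 z (n 0 z (n 0 z (n 0 z z))))))))) (n 3 (n 0 z (n 0 z (n 0 z
 (n 2164283 z z)))) (n 1 (n 0 z (n 0 z (n 0 z (n 2164299 z (n 0 z z))))) (n 0 (n 0 z (n 0 z (n 0
 z (n 0 z (n 2164315 z (n 0 z (n 0 z (n 0 z (n 0 z (n 0 z (n 0 z z))))))))))) z)))))) (n 209 z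
 (n 0 (n 0 z (n 1 (n 3282443 z (n 3282443 z (n 3282443 z (n 3282443 z (n 3282443 z (n 3282443 z
 z)))))) (n 0 z (n 0 z z)))) (n 0 z z)))) (n
 0x1614a888b341521b422cc62d4a30a431942152e0e24a06558832a15442ca809 (n 0 (n 597 (n 0 z (n 6561843
 z (n 0 z (n 0 z z)))) (n 581 (n 0 z (n 2 z (n 3278363 z (n 10 z (n 0 z (n 0 z (n 0 z (n 0 z (n
 0 z (n 0 z z)))))))))) (n 580 (n
 0x48ca02365081f7e08218218207e089e89e7608208207a08247e57a18a075e8228e07608638607608a18a00081 z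
 (n 18 z (n 0 z (n 26 z (n 34 z (n 6562571 z (n 0 z (n 42 z (n 6566403 z (n
 0x20ca6a6020781b9205e08288af79796eb253dfc2c75b2da7216e579d82981e813a9e9a5ae88142b292669a0801 z
 (n 6566403 z (n 6566403 z (n 0 z (n 0 z (n
 0x48c202361081f7e08218218207e089e89e7608208207a08247e57a18a075e8228e07608638607608a18a00081 z
 (n 0 z (n 0 z z))))))))))))))))) (n 3 (n 0 z (n 0 z (n 0 z (n 0 z (n 0 z (n 6566403 z (n 0 z (n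
 0 z z)))))))) (n 1 (n 6566403 z (n 50 z (n 6562571 z (n 0 z (n 58 z (n 0 z (n
 0x6ca6a6420781f7e07df7e18237a281f8dd7638e28a071f7a375f8627a27e08208a086086189e6a18637a10801 z
 (n 0 z (n 0 z (n 66 z (n 0 z (n 0 z (n 0 z (n 0 z (n 0 z z))))))))))))))) (n 0 (n 74 z (n 0 z
 (n 6636307 z (n 82 z (n 0 z (n 6636307 z (n 90 z z))))))) z)))))) (n 597 (n 0 (n 0 z (n 391 (n
 0 z (n 0 z (n 0 z (n 0 z (n 0 z (n 2 (n 0 z (n 0 z (n 0 z (n 2 (n 0 z (n 0 z (n 0 z (n 0 z (n 0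
 z (n 0 z z)))))) (n 1 z (n 2 (n 0 z (n 0 z (n 0 z (n 0 z (n 0 z (n 0 (n 8859987 z z) z)))))) (n
 2 (n 0 z (n 0 z (n 0 z (n 0 z (n 0 z (n 0 z z)))))) (n 2 (n 0 z (n 0 z (n 0 z (n 0 z (n 0 z (n
 0 z z)))))) (n 2 (n 0 z (n 0 z (n 0 z (n 0 z (n 0 z (n 0 z z)))))) z))))))))) (n 0 z (n 0 z (n
 0 z (n 0 z (n 0 z (n 0 z z)))))))))))) (n 391 (n 0 z (n 2 (n 0 z (n 0 z (n 2 (n 0 z (n 0 z (n 0
 z (n 0 z (n 0 z (n 0 z z)))))) (n 1 z (n 2 (n 0 z (n 0 z (n 0 z (n 0 z (n 0 z (n 0 z z)))))) (n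
 2 (n 0 z (n 0 z (n 0 z (n 0 z (n 0 z (n 0 z z)))))) (n 2 (n 0 z (n 0 z (n 0 z (n 0 z (n 0 z (n
 0 z z)))))) (n 2 (n 0 z (n 0 z (n 0 z (n 0 z (n 0 z (n 0 z z)))))) z)))))))) (n 0 z (n 0 z (n 0
 z (n 0 z (n 0 z (n 0 z (n 0 z (n 0 z (n 0 z (n 0 z z)))))))))))) (n 391 (n 0 z (n 0 z (n 0 z (n
 0 z (n 0 z (n 0 z (n 0 z (n 0 z (n 0 z (n 0 z (n 0 z (n 0 z z)))))))))))) (n 391 (n 0 z (n 0 z
 (n 0 z (n 0 z (n 0 z (n 0 z (n 0 z (n 0 z (n 0 z (n 0 z (n 0 z (n 0 z z)))))))))))) (n 261 (n 0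
 z (n 0 z (n 0 z (n 0 z (n 0 z (n 0 z (n 0 z z))))))) (n 261 (n 0 z (n 0 z (n 0 z (n 0 z (n 0 z
 (n 2 (n 0 z (n 2 (n 0 z (n 0 z (n 0 z (n 0 z (n 0 z (n 0 (n 8795147 z z) z)))))) (n 1 z (n 1 z
 z)))) (n 0 z z))))))) (n 261 (n 2 (n 2 (n 0 z (n 0 z (n 0 z (n 0 z (n 0 z (n 0 z z)))))) (n 2
 (n 0 z (n 0 z (n 0 z (n 0 z (n 0 z (n 0 z z)))))) (n 2 (n 0 z (n 0 z (n 0 z (n 0 z (n 0 z (n 0
 z z)))))) z))) (n 0 z (n 0 z (n 0 z (n 0 z (n 0 z (n 0 z z))))))) (n 269 (n 0 z (n 0 z (n 0 z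
 (n 0 z (n 0 z (n 0 z (n 0 z (n 0 z (n 0 z (n 0 z z)))))))))) (n 269 (n 0 z (n 0 z (n 0 z (n 0 z
 (n 0 z (n 0 z (n 0 z (n 0 z (n 0 z (n 0 z z)))))))))) (n 269 (n 0 z (n 0 z (n 0 z (n 0 z (n 0 z
 (n 0 z (n 0 z (n 0 z (n 0 z (n 0 z z)))))))))) z))))))))))) (n 0 (n 417 (n 0 z (n 0 z (n 0 z (n
 0 z (n 0 z (n 0 z (n 0 z (n 0 z (n 0 z (n 0 z (n 0 z (n 0 z (n 0 z (n 0 z (n 0 z (n 0 z (n 0 z
 (n 0 z (n 0 z (n 0 z (n 0 z (n 0 z (n 0 z (n 0 z (n 0 z z))))))))))))))))))))))))) (n 417 (n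
 0x12ca2ea06078208dd81d85f8e185b8e68687da7a171c8248dcad56e781f89f7da86266282175f86679e8dd0801 z
 (n 0 z (n 0 z (n 0 z (n 0 z (n 0 z (n 0 z (n 0 z (n 0 z (n 0 z (n 0 z (n 0 z (n 0 z (n 0 z (n 0
 z (n 0 z (n 0 z (n 0 z (n 0 z (n 0 z (n 0 z (n 0 z (n 0 z (n 0 z (n 0 z
 z))))))))))))))))))))))))) (n 417 (n 0 z (n 0 z (n 0 z (n 0 z (n 0 z (n 0 z (n 0 z (n 0 z (n 0
 z (n 0 z (n 0 z (n 0 z (n 0 z (n 0 z (n 0 z (n 0 z (n 0 z (n 0 z (n 0 z (n 0 z (n 0 z (n 0 z (n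
 0 z (n 0 z (n 0 z z))))))))))))))))))))))))) (n 417 (n 0 z (n 2 (n 2 (n 0 z (n 0 z (n 0 z (n 0
 z (n 0 z (n 0 z z)))))) (n 1 z (n 2 (n 0 z (n 0 z (n 0 z (n 0 z (n 0 z (n 0 z z)))))) (n 2 (n 0
 z (n 0 z (n 0 z (n 0 z (n 0 z (n 0 z z)))))) (n 2 (n 0 z (n 0 z (n 0 z (n 0 z (n 0 z (n 0 z
 z)))))) (n 2 (n 0 z (n 0 z (n 0 z (n 0 z (n 0 z (n 0 z z)))))) z)))))) (n 0 z (n 0 z (n 0 z (n
 0 z (n 0 z (n 0 z (n 0 z (n 0 z (n 0 z (n 0 z (n 0 z (n 0 z (n 0 z (n 0 z (n 0 z (n 0 z (n 0 z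
 (n 0 z (n 0 z (n 0 z (n 0 z (n 0 z (n 0 z z))))))))))))))))))))))))) (n 771 (n 0 z (n 0 z (n 0
 z (n 2 (n 0 z (n 0 z (n 2 (n 0 z (n 0 z (n 0 z (n 0 z (n 0 z (n 0 z z)))))) (n 2 (n 0 z (n 0 z
 (n 0 z (n 0 z (n 0 z (n 0 z z)))))) (n 2 (n 0 z (n 0 z (n 0 z (n 0 z (n 0 z (n 0 z z))))))
 z))))) (n 0 z (n 0 z (n 0 z (n 0 z (n 0 z (n 0 z (n 0 z (n 0 z (n 0 z (n 0 z (n 0 z
 z))))))))))))))) (n 771 (n 0 z (n 0 z (n 0 z (n 0 z (n 0 z (n 0 z (n 2 (n 0 z (n 1 z (n 1 z (n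
 1 z z)))) (n 0 z (n 0 z (n 0 z (n 0 z (n 0 z (n 0 z (n 0 z (n 0 z z))))))))))))))) (n 771 (n 0
 z (n 0 z (n 0 z (n 0 z (n 0 z (n 0 z (n 0 z (n 0 z (n 0 z (n 0 z (n 0 z (n 0 z (n 0 z (n 0 z (n
 0 z z))))))))))))))) (n 409 (n 0 z (n 2 (n 0 z (n 0 z z)) (n 0 z (n 0 z (n 0 z (n 0 z (n 0 z (n
 0 z (n 0 z z))))))))) (n 409 (n 0 z (n 0 z (n 0 z (n 0 z (n 0 z (n 0 z (n 0 z (n 0 z (n 0 z
 z))))))))) (n 409 (n 0 z (n 0 z (n 0 z (n 0 z (n 0 z (n 0 z (n 0 z (n 0 z (n 0 z z)))))))))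
 z)))))))))) (n 0 (n 0 z (n 0 z (n 0 z (n 51 (n 0 z (n 0 z (n 0 z (n 2 (n 0 z (n 0 z (n 2 (n 0 z
 (n 0 z (n 0 z (n 0 z (n 0 z (n 0 z z)))))) (n 2 (n 0 z (n 0 z (n 0 z (n 0 z (n 0 z (n 0 z
 z)))))) (n 2 (n 0 z (n 0 z (n 0 z (n 0 z (n 0 z (n 0 z z)))))) z))))) (n 0 z (n 0 z (n 0 z (n 0
 z (n 0 z (n 0 z (n 0 z (n 0 z (n 0 z (n 0 z z)))))))))))))) (n 51 (n 0 z (n 0 z (n 0 z (n 0 z
 (n 2 (n 0 z (n 1 z (n 1 z (n 1 z z)))) (n 0 z (n 0 z (n 0 z (n 0 z (n 0 z (n 0 z (n 0 z (n 0 z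
 (n 0 z z)))))))))))))) (n 51 (n 0 z (n 0 z (n 0 z (n 0 z (n 0 z (n 0 z (n 0 z (n 0 z (n 0 z (n
 0 z (n 0 z (n 0 z (n 0 z (n 0 z z)))))))))))))) (n 49 (n 2 (n 0 z (n 0 z z)) (n 0 z (n 0 z (n 0
 z (n 0 z (n 0 z (n 0 z (n 0 z (n 0 z (n 0 z (n 0 z (n 0 z z)))))))))))) (n 49 (n 0 z (n 0 z (n
 0 z (n 0 z (n 0 z (n 0 z (n 0 z (n 0 z (n 0 z (n 0 z (n 0 z (n 0 z z)))))))))))) (n 49 (n 0 z
 (n 0 z (n 0 z (n 0 z (n 0 z (n 0 z (n 0 z (n 2 z (n 0 z (n 0 z (n 0 z (n 0 z z))))))))))))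
 z))))))))) (n 0 (n 0 z (n 0 z (n 51 (n 0 z (n 0 z (n 0 z (n 0 z (n 0 z (n 0 z (n 2 (n 0 z (n 0
 z (n 2 (n 0 z (n 0 z (n 0 z (n 0 z (n 0 z (n 0 z z)))))) (n 2 (n 0 z (n 0 z (n 0 z (n 0 z (n 0
 z (n 0 z z)))))) (n 2 (n 0 z (n 0 z (n 0 z (n 0 z (n 0 z (n 0 z z)))))) z))))) (n 0 z (n 0 z (n
 0 z (n 0 z (n 0 z (n 0 z (n 0 z (n 0 z (n 0 z (n 0 z (n 0 z (n 0 z (n 0 z z))))))))))))))))))))
 (n 51 (n 0 z (n 0 z (n 0 z (n 0 z (n 0 z (n 0 z (n 0 z (n 2 (n 0 z (n 2 (n 0 z (n 0 z (n 0 z (n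
 0 z (n 0 z (n 0 z z)))))) (n 1 z (n 1 z z)))) (n 0 z (n 0 z (n 0 z (n 0 z (n 0 z (n 0 z (n 0 z
 (n 0 z (n 0 z (n 0 z (n 0 z (n 0 z z)))))))))))))))))))) (n 51 (n 0 z (n 0 z (n 0 z (n 0 z (n 0
 z (n 0 z (n 0 z (n 0 z (n 0 z (n 0 z (n 0 z (n 0 z (n 0 z (n 0 z (n 2 (n 2 (n 0 z (n 0 z (n 0 z
 (n 0 z (n 0 z (n 0 z z)))))) (n 1 z (n 1 z z))) (n 0 z (n 0 z (n 0 z (n 0 z (n 0 z
 z)))))))))))))))))))) (n 53 (n 0 z (n 2 (n 0 z (n 0 z z)) (n 0 z (n 0 z (n 0 z (n 0 z (n 0 z (n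
 0 z (n 0 z (n 0 z (n 0 z (n 0 z z)))))))))))) (n 53 (n 0 z (n 0 z (n 0 z (n 0 z (n 0 z (n 0 z
 (n 0 z (n 0 z (n 0 z (n 0 z (n 0 z (n 0 z z)))))))))))) (n 53 (n 0 z (n 0 z (n 0 z (n 0 z (n 2
 z (n 0 z (n 0 z (n 0 z (n 0 z (n 0 z (n 0 z (n 0 z z)))))))))))) z)))))))) (n 0 (n 0 z (n 243
 (n 0 z (n 0 z (n 0 z (n 0 z (n 0 z (n 0 z (n 0 z (n 0 z (n 0 z (n 0 z (n 0 z z))))))))))) (n
 243 (n 0 z (n 0 z (n 0 z (n 0 z (n 2 (n 0 z (n 2 (n 0 (n 980 z z) (n 0 z (n 0 z (n 0 z (n 0 z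
 (n 0 (n 980 z (n 980 z z)) z)))))) (n 1 z (n 1 z z)))) (n 0 z (n 0 z (n 0 z (n 0 z (n 0 z (n 0
 z z))))))))))) (n 243 (n 0 z (n 0 z (n 0 z (n 0 z (n 0 z (n 0 z (n 0 z (n 0 z (n 0 z (n 0 z (n
 0 z z))))))))))) (n 245 (n 0 z (n 0 z (n 0 z (n 0 z (n 0 z (n 0 z (n 0 z (n 0 z z)))))))) (n
 245 (n 0 z (n 2 (n 0 z z) (n 0 z (n 0 z (n 0 z (n 0 z (n 0 z (n 0 z z)))))))) (n 245 (n 0 z (n
 0 z (n 0 z (n 0 z (n 0 z (n 7741763 z (n 0 z (n 0 z z)))))))) z))))))) (n 0 (n 501 (n 0 z (n 0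
 z (n 0 z (n 0 z (n 0 z (n 0 z (n 0 z (n 0 z (n 0 z (n 0 z (n 0 z (n 0 z (n 0 z (n 0 z (n 0 z (n
 0 z (n 0 z (n 0 z (n 0 z (n 0 z z)))))))))))))))))))) (n 501 (n 0 z (n 0 z (n 0 z (n 2 (n 0 z
 (n 2 (n 0 z (n 0 z (n 0 z (n 0 z (n 0 z (n 0 (n 8795147 z z) z)))))) (n 1 z (n 1 z z)))) (n 0 z
 (n 0 z (n 0 z (n 0 z (n 0 z (n 0 z (n 0 z (n 0 z (n 0 z (n 0 z (n 0 z (n 0 z (n 0 z (n 0 z (n 0
 z (n 0 z z)))))))))))))))))))) (n 501 (n 0 z (n 0 z (n 0 z (n 0 z (n 0 z (n 0 z (n 0 z (n 2 (n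
 2 (n 0 z (n 0 z (n 0 z (n 0 z (n 0 z (n 0 z z)))))) (n 2 (n 0 z (n 0 z (n 0 z (n 0 z (n 0 z (n
 0 z z)))))) (n 2 (n 0 z (n 0 z (n 0 z (n 0 z (n 0 z (n 0 z z)))))) z))) (n 0 z (n 0 z (n 0 z (n
 0 z (n 0 z (n 0 z (n 0 z (n 0 z (n 0 z (n 0 z (n 0 z (n 0 z z)))))))))))))))))))) (n 509 (n 0 z
 (n 0 z (n 0 z (n 0 z (n 0 z (n 0 z (n 0 z (n 0 z (n 0 z (n 0 z (n 0 z z))))))))))) (n 509 (n 0
 z (n 2 (n 0 z z) (n 0 z (n 0 z (n 0 z (n 0 z (n 0 z (n 0 z (n 0 z (n 0 z (n 0 z z))))))))))) (n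
 509 (n 0 z (n 0 z (n 0 z (n 0 z (n 0 z (n 0 z (n 0 z (n 0 z (n 0 z (n 0 z (n 0 z z)))))))))))
 z)))))) (n 0 (n 0 z (n 0 z (n 985 (n 0 z (n 0 z (n 0 z (n 0 z (n 0 z (n 0 z (n 0 z (n 0 z (n 0
 z (n 0 z (n 0 z (n 0 z (n 0 z (n 0 z (n 0 z (n 0 z (n 0 z (n 0 z (n 0 z (n 0 z (n 0 z (n 0 z (n
 0 z (n 0 z (n 0 z z))))))))))))))))))))))))) (n 985 (n 0 z (n 2 (n 0 z z) (n 0 z (n 0 z (n 0 z
 (n 0 z (n 0 z (n 0 z (n 0 z (n 0 z (n 0 z (n 0 z (n 0 z (n 0 z (n 0 z (n 0 z (n 0 z (n 0 z (n 0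
 z (n 0 z (n 0 z (n 0 z (n 0 z (n 0 z (n 0 z z))))))))))))))))))))))))) (n 985 (n 6555419 z (n 0
 z (n 0 z (n 0 z (n 0 z (n 0 z (n 0 z (n 0 z (n 0 z (n 0 z (n 0 z (n 0 z (n 0 z (n 0 z (n 0 z (n
 0 z (n 0 z (n 0 z (n 0 z (n 0 z (n 0 z (n 0 z (n 0 z (n 0 z (n 0 z z)))))))))))))))))))))))))
 z))))) (n 0 (n 0 z (n 25 (n 0 z (n 0 z (n 2 (n 0 z (n 0 z z)) (n 0 z (n 0 z (n 0 z (n 0 z (n 0
 z (n 0 z (n 0 z (n 0 z z))))))))))) (n 25 (n 2 (n 0 z z) (n 0 z (n 0 z (n 0 z (n 0 z (n 0 z (n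
 0 z (n 0 z (n 0 z (n 0 z (n 0 z z))))))))))) (n 25 (n 0 z (n 0 z (n 0 z (n 0 z (n
 0x12ea6c8620381e7e27a27a58657a579f9dc6e9a6491e5596a07a195e7e58248df85c89d9df8995a27a46610801 z
 (n 0 z (n 0 z (n 0 z (n 0 z (n 0 z (n 0 z z))))))))))) z)))) (n 0 (n 977 (n 0 z (n 0 z (n 0 z
 (n 0 z (n 2 (n 0 z (n 0 z z)) (n 0 z (n 0 z (n 0 z (n 0 z (n 0 z (n 0 z (n 0 z z)))))))))))) (n
 977 (n 0 z (n 0 z (n 0 z (n 0 z (n 0 z (n 0 z (n 0 z (n 0 z (n 0 z (n 0 z (n 0 z (n 0 z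
 z)))))))))))) (n 977 (n 0 z (n 2 z (n 0 z (n 0 z (n 0 z (n 0 z (n 0 z (n 0 z (n 0 z (n 0 z (n 0
 z (n 0 z z)))))))))))) z))) (n 0 (n 0 z (n 0 z z)) (n 0 (n 0 z z) (n 0 z z)))))))))))) (n 0 (n
 0 z (n 1 (n 6561843 z (n 6561843 z (n 6566403 z (n 6561843 z (n 6561843 z (n 6561843 z z))))))
 (n 0 z (n 0 z z)))) (n 0 z z)))) (n 0x646aa2aa550b656854a341a89b9508ad90a95582a96c2e46a052 (n 0
 (n 201 (n 0 z (n 3282443 z (n 0 z (n 0 z z)))) (n 33 (n 0 z (n 0 z (n 6627635 z (n 0 z (n 0 z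
 (n 0 z z)))))) (n 135 (n 2 z (n 6628123 z (n 10 z (n 18 z (n 26 z (n 6631955 z (n 34 z z)))))))
 (n 3 (n 0 z (n 0 z (n 6631955 z (n 0 z (n 0 z (n 0 z (n 0 z z))))))) (n 1 (n 0 z (n 0 z (n 0 z
 (n 0 z (n 6559035 z z))))) (n 0 (n 42 z (n 50 z (n 58 z (n 0 z (n 0 z (n 66 z (n 74 z (n
 6631955 z (n 6628123 z z))))))))) z)))))) (n 201 (n 0 (n 0 z (n 0 z (n 0 z (n 0 z (n 245 (n 0 z
 (n 0 z (n 0 z (n 2 (n 0 z (n 0 z (n 0 z (n 0 z z)))) (n 0 z (n 0 z (n 0 z (n 0 z z)))))))) (n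
 245 (n 0 z (n 0 z (n 0 z (n 0 z (n 0 z (n 0 z (n 0 z (n 0 z z)))))))) (n 245 (n 0 z (n 0 z (n 0
 z (n 0 z (n 0 z (n 0 z (n 0 z (n 0 z z)))))))) (n 245 (n 0 z (n 0 z (n 0 z (n 0 z (n 0 z (n 0 z
 (n 0 z (n 0 z z)))))))) (n 245 (n
 0x10ea8c846034eb655933a205e086289f9ce7e0a93cda9967947b58ec89fb207589aa7589174288606e0c1e0801 z
 (n 0 z (n 0 z (n 0 z (n 0 z (n 0 z (n 0 z (n 0 z z)))))))) z))))))))) (n 0 (n 0 z (n 0 z (n 0 z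
 (n 269 (n 0 z (n 0 z (n 0 z (n 0 z (n 0 z z))))) (n 269 (n 0 z (n 0 z (n 0 z (n 0 z (n 0 z
 z))))) (n 269 (n 0 z (n 0 z (n 0 z (n 2 (n 0 z (n 0 z z)) (n 0 z z))))) (n 269 (n 0 z (n 0 z (n
 2 (n 0 z z) (n 0 z (n 0 z z))))) (n 269 (n 0 z (n 0 z (n 0 z (n 0 z (n 0 z z))))) z)))))))) (n
 0 (n 0 z (n 0 z (n 265 (n 0 z (n 0 z (n 0 z (n 2 (n 0 z (n 0 z (n 0 z (n 0 z z)))) (n 0 z (n 0
 z (n 0 z z))))))) (n 265 (n 0 z (n 0 z (n 0 z (n 0 z (n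
 0x76476430184ea8c846036a46dd8a795d6a082181da587e38dbb9a85989a82a8a795f99d6db6e381b81c7247df6de99a1001
 z (n 0 z (n 0 z z))))))) (n 265 (n 0 z (n 0 z (n 0 z (n 0 z (n 0 z (n 0 z (n 0 z z))))))) (n
 265 (n 0 z (n 0 z (n 0 z (n 0 z (n 0 z (n 0 z (n 0 z z))))))) (n 265 (n 0 z (n 0 z (n 0 z (n 0
 z (n 0 z (n 0 z (n 0 z z))))))) z))))))) (n 0 (n 0 z (n 13 (n 0 z (n 0 z (n 0 z (n 0 z (n 0 z
 (n 0 z (n 0 z z))))))) (n 13 (n 0 z (n 0 z (n 0 z (n 0 z (n 0 z (n 0 z (n 0 z z))))))) (n 13 (n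
 0 z (n 0 z (n 0 z (n 0 z (n 0 z (n 0 z (n 0 z z))))))) (n 13 (n 0 z (n 0 z (n 0 z (n 0 z (n
 0x76476430184ea8c846037e18607a182182085f82082085f82082081f82082081f81f7e08208208608218208207e08201001
 z (n 0 z (n 0 z z))))))) (n 13 (n 0 z (n 0 z (n 0 z (n 0 z (n 0 z (n 0 z (n 0 z z)))))))
 z)))))) (n 0 (n 1 (n 0 z (n 0 z (n 0 z (n 0 z (n 0 z (n 0 z (n 0 z (n 0 z z)))))))) (n 1 (n 0 z
 (n 0 z (n 0 z (n 0 z (n 0 z (n 0 z (n 0 z (n 0 z z)))))))) (n 1 (n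
 0x76476430392ea8c8460367b5108f299d46055f8e9b579db815dd07558576f68e9910d547938a5756b1386989971cb1c1001
 z (n 0 z (n 0 z (n 0 z (n 0 z (n 0 z (n 0 z (n 0 z z)))))))) (n 1 (n 0 z (n 0 z (n 0 z (n 0 z
 (n 0 z (n 0 z (n 0 z (n 0 z z)))))))) (n 1 (n 0 z (n 0 z (n 0 z (n 0 z (n 0 z (n 0 z (n 0 z (n
 0 z z)))))))) z))))) (n 0 (n 0 z (n 0 z (n 0 z (n 0 z z)))) (n 0 (n 0 z (n 0 z (n 0 z z))) (n 0
 (n 0 z (n 0 z z)) (n 0 (n 0 z z) (n 0 z z)))))))))) (n 0 (n 0 z (n 1 (n 3282443 z (n 3282443 z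
 (n 3282443 z (n 3282443 z (n 3282443 z (n 3282443 z z)))))) (n 0 z (n 0 z z)))) (n 0 z z)))) (n
 0x666ba2ba5d0f676874b341ac9b9d0cad98ad5783a9ec2e46b05a (n 0 (n 201 (n 0 z (n 0 z (n 3282443 z
 (n 5518859 z (n 0 z (n 0 z (n 0 z (n 0 z z)))))))) (n 33 (n 0 z (n 0 z (n 0 z (n 0 z (n 6627635
 z (n 0 z (n 0 z (n 0 z (n 0 z z))))))))) (n 135 (n 2 z (n 6628123 z (n 10 z (n 18 z (n 26 z (n
 6631955 z (n 34 z z))))))) (n 3 (n 0 z (n 0 z (n 0 z (n 6631955 z (n 0 z (n 0 z (n 0 z z)))))))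
 (n 1 (n 0 z (n 0 z (n 0 z (n 6559035 z z)))) (n 0 (n 42 z (n 50 z (n 58 z (n 0 z (n 0 z (n 66 z
 (n 74 z (n 6631955 z (n 6628123 z z))))))))) z)))))) (n 1 (n 0 (n 0 z (n 0 z (n 0 z (n 0 z (n
 245 (n 0 z (n 0 z (n 0 z (n 0 z (n 2 (n 0 z (n 0 z (n 0 z (n 0 z z)))) (n 0 z (n 0 z (n 0 z (n
 0 z z))))))))) (n 245 (n 0 z (n 0 z (n 0 z (n 0 z (n 0 z (n 0 z (n 0 z (n 0 z (n 0 z z)))))))))
 (n 245 (n 0 z (n 0 z (n 0 z (n 0 z (n 0 z (n 0 z (n 0 z (n 0 z (n 0 z z))))))))) (n 245 (n 0 z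
 (n 0 z (n 0 z (n 0 z (n 0 z (n 0 z (n 0 z (n 0 z (n 0 z z))))))))) (n 245 (n 0 z (n
 0xeea8c846034ea6568f1a1f5a086381ca907619d6d999178947f38e895cb2069a7e88587d856789d61eb990801 z
 (n 0 z (n 0 z (n 0 z (n 0 z (n 0 z (n 0 z (n 0 z z))))))))) z))))))))) (n 0 (n 0 z (n 0 z (n 0
 z (n 269 (n 0 z (n 0 z (n 0 z (n 0 z (n 0 z z))))) (n 269 (n 0 z (n 0 z (n 0 z (n 0 z (n 0 z
 z))))) (n 269 (n 0 z (n 0 z (n 0 z (n 2 (n 0 z (n 0 z z)) (n 0 z z))))) (n 269 (n 0 z (n 0 z (n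
 2 (n 0 z z) (n 0 z (n 0 z z))))) (n 269 (n 0 z (n 0 z (n 0 z (n 0 z (n 0 z z))))) z)))))))) (n
 0 (n 0 z (n 0 z (n 265 (n 0 z (n 0 z (n 0 z (n 2 (n 0 z (n 0 z (n 0 z (n 0 z z)))) (n 0 z (n 0
 z (n 0 z z))))))) (n 265 (n 0 z (n 0 z (n 0 z (n 0 z (n
 0x76476430188ea8c8460366369d8a899c5e08a17dcb5872485ac588188d982a8a799e9dc69a5e485a7db7e579f65c9981001
 z (n 0 z (n 0 z z))))))) (n 265 (n 0 z (n 0 z (n 0 z (n 0 z (n 0 z (n 0 z (n 0 z z))))))) (n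
 265 (n 0 z (n 0 z (n 0 z (n 0 z (n 0 z (n 0 z (n 0 z z))))))) (n 265 (n 0 z (n 0 z (n 0 z (n 0
 z (n 0 z (n 0 z (n 0 z z))))))) z))))))) (n 0 (n 0 z (n 13 (n 0 z (n 0 z (n 0 z (n 0 z (n 0 z
 (n 0 z (n 0 z z))))))) (n 13 (n 0 z (n 0 z (n 0 z (n 0 z (n 0 z (n 0 z (n 0 z z))))))) (n 13 (n
 0 z (n 0 z (n 0 z (n 0 z (n 0 z (n 0 z (n 0 z z))))))) (n 13 (n 0 z (n 0 z (n 0 z (n 0 z (n
 0x76476430184ea8c846037e18607a182182085f82181f82082082085f82082081f81f7e18208208608218208207e08201001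
 z (n 0 z (n 0 z z))))))) (n 13 (n 0 z (n 0 z (n 0 z (n 0 z (n 0 z (n 0 z (n 0 z z)))))))
 z)))))) (n 0 (n 1 (n 0 z (n 0 z (n 0 z (n 0 z (n 0 z (n 0 z (n 0 z (n 0 z (n 0 z z))))))))) (n
 1 (n 0 z (n 0 z (n 0 z (n 0 z (n 0 z (n 0 z (n 0 z (n 0 z (n 0 z z))))))))) (n 1 (n 0 z (n
 0x76476430190ea8c84603678552771a5e3e05647e5c1a95c758f0d7159547758669cccda7146e48579558689575dcad61001
 z (n 0 z (n 0 z (n 0 z (n 0 z (n 0 z (n 0 z (n 0 z z))))))))) (n 1 (n 0 z (n 0 z (n 0 z (n 0 z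
 (n 0 z (n 0 z (n 0 z (n 0 z (n 0 z z))))))))) (n 1 (n 0 z (n 0 z (n 0 z (n 0 z (n 0 z (n 0 z (n
 0 z (n 0 z (n 0 z z))))))))) z))))) (n 0 (n 0 z (n 0 z (n 0 z (n 0 z z)))) (n 0 (n 0 z (n 0 z
 (n 0 z z))) (n 0 (n 0 z (n 0 z z)) (n 0 (n 0 z z) (n 0 z z)))))))))) (n 0 (n 0 z (n 0 z (n 0 z
 (n 1 (n 6559035 z (n 6559035 z (n 6559035 z (n 6559035 z (n 6559035 z (n 6559035 z z))))))
 z)))) (n 0 z z)))) (n 0x66aba2ba9d0f6768753542ad2b9d0d2d98ad5783a9ec2e4ab09a (n 0 (n 201 (n 0 z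
 (n 0 z (n 0 z (n 3282443 z (n 0 z (n 0 z (n 0 z (n 0 z z)))))))) (n 33 (n 0 z (n 6627635 z (n 0
 z (n 0 z (n 0 z z))))) (n 135 (n 2 z (n 6628123 z (n 10 z (n 18 z (n 26 z (n 6631955 z (n 34 z
 z))))))) (n 3 (n 0 z (n 6631955 z (n 0 z (n 0 z (n 0 z z))))) (n 1 (n 0 z (n 0 z (n 0 z (n
 6559035 z z)))) (n 0 (n 42 z (n 50 z (n 58 z (n 0 z (n 66 z (n 74 z (n 6631955 z (n 6628123 z
 z)))))))) z)))))) (n 1 (n 0 (n 0 z (n 0 z (n 0 z (n 0 z (n 245 (n 0 z (n 0 z (n 0 z (n 0 z (n 2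
 (n 0 z (n 0 z (n 0 z (n 0 z z)))) (n 0 z (n 0 z (n 0 z (n 0 z z))))))))) (n 245 (n 0 z (n 0 z
 (n 0 z (n 0 z (n 0 z (n 0 z (n 0 z (n 0 z (n 0 z z))))))))) (n 245 (n 0 z (n 0 z (n 0 z (n 0 z
 (n 0 z (n 0 z (n 0 z (n 0 z (n 0 z z))))))))) (n 245 (n 0 z (n 0 z (n 0 z (n 0 z (n 0 z (n 0 z
 (n 0 z (n 0 z (n 0 z z))))))))) (n 245 (n 0 z (n
 0xeec8ec86036949284a18e1960a217db71d91c81f6df9db8558de81b96072d8e38a97e35652a38a066789f0801 z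
 (n 0 z (n 0 z (n 0 z (n 0 z (n 0 z (n 0 z (n 0 z z))))))))) z))))))))) (n 0 (n 0 z (n 0 z (n 0
 z (n 269 (n 0 z (n 0 z (n 0 z (n 0 z (n 0 z z))))) (n 269 (n 0 z (n 0 z (n 0 z (n 0 z (n 0 z
 z))))) (n 269 (n 0 z (n 0 z (n 0 z (n 2 (n 0 z (n 0 z z)) (n 0 z z))))) (n 269 (n 0 z (n 0 z (n
 2 (n 0 z z) (n 0 z (n 0 z z))))) (n 269 (n 0 z (n 0 z (n 0 z (n 0 z (n 0 z z))))) z)))))))) (n
 0 (n 0 z (n 0 z (n 265 (n 0 z (n 0 z (n 0 z (n 2 (n 0 z (n 0 z (n 0 z (n 0 z z)))) (n 0 z (n 0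
 z (n 0 z z))))))) (n 265 (n 0 z (n 0 z (n 0 z (n 0 z (n
 0xeec8ec86036949284a18e1960a217db71d91c81f6df9db8558de81b96072d8e38a97e35652a38a066789f0801 z
 (n 0 z (n 0 z z))))))) (n 265 (n 0 z (n 0 z (n 0 z (n 0 z (n 0 z (n 0 z (n 0 z z))))))) (n 265
 (n 0 z (n 0 z (n 0 z (n 0 z (n 0 z (n 0 z (n 0 z z))))))) (n 265 (n 0 z (n 0 z (n 0 z (n 0 z (n
 0 z (n 0 z (n 0 z z))))))) z))))))) (n 0 (n 0 z (n 13 (n 0 z (n 0 z (n 0 z (n 0 z (n 0 z (n 0 z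
 (n 0 z z))))))) (n 13 (n 0 z (n 0 z (n 0 z (n 0 z (n 0 z (n 0 z (n 0 z z))))))) (n 13 (n 0 z (n
 0 z (n 0 z (n 0 z (n 0 z (n 0 z (n 0 z z))))))) (n 13 (n 0 z (n 0 z (n 0 z (n 0 z (n
 0xaec8ec86036d68e65618a09209e17db75d8dd82071f99b85789e81b92076a8e28a77e36253e28606e585f0801 z
 (n 0 z (n 0 z z))))))) (n 13 (n 0 z (n 0 z (n 0 z (n 0 z (n 0 z (n 0 z (n 0 z z))))))) z))))))
 (n 0 (n 1 (n 0 z (n 0 z (n 0 z (n 0 z (n 0 z (n 0 z (n 0 z (n 0 z (n 0 z z))))))))) (n 1 (n 0 z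
 (n 0 z (n 0 z (n 0 z (n 0 z (n 0 z (n 0 z (n 0 z (n 0 z z))))))))) (n 1 (n 0 z (n
 0xaec8ec86037168e65208a19209a17dc75d91d82076099b85789e81b9a076b8e38677e26243e28606e685f0801 z
 (n 0 z (n 0 z (n 0 z (n 0 z (n 0 z (n 0 z (n 0 z z))))))))) (n 1 (n 0 z (n 0 z (n 0 z (n 0 z (n
 0 z (n 0 z (n 0 z (n 0 z (n 0 z z))))))))) (n 1 (n 0 z (n 0 z (n 0 z (n 0 z (n 0 z (n 0 z (n 0
 z (n 0 z (n 0 z z))))))))) z))))) (n 0 (n 0 z (n 0 z (n 0 z (n 0 z z)))) (n 0 (n 0 z (n 0 z (n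
 0 z z))) (n 0 (n 0 z (n 0 z z)) (n 0 (n 0 z z) (n 0 z z)))))))))) (n 0 (n 0 z (n 0 z (n 0 z (n
 1 (n 6559035 z (n 6559035 z (n 6559035 z (n 6559035 z (n 6559035 z (n 6559035 z z)))))) z))))
 (n 0 z z)))) (n 0xcc275d62b4dd1b36d055bcf075568349da334d615a (n 0 (n 153 (n 0 z (n 0 z (n
 6496275 z (n 0 z (n 0 z (n 0 z z)))))) (n 33 (n 0 z (n 0 z (n 0 z (n 0 z (n 0 z (n 6496515 z (n
 0 z (n 0 z z)))))))) (n 9 (n 2 z (n 10 z (n 6496515 z (n 6496523 z (n 18 z (n 26 z (n 0 z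
 z))))))) (n 27 (n 0 z (n 34 z (n 42 z (n 0 z (n 50 z (n 58 z (n 6496515 z (n 6496523 z
 z)))))))) (n 1 (n 6558219 z (n 0 z (n 0 z (n 0 z z)))) (n 0 (n 6619931 z (n 0 z (n 0 z (n 0 z
 (n 0 z z))))) z)))))) (n 1 (n 0 (n 0 z (n 0 z (n 0 z (n 1157 (n 0 z (n 0 z (n 0 z (n 0 z (n 0 z
 (n 0 z (n 0 z z))))))) (n 1157 (n 0 z (n 0 z (n 0 z (n 0 z (n 0 z (n 0 z (n 0 z z))))))) (n
 1157 (n 0 z (n 0 z (n 0 z (n 0 z (n 0 z (n 0 z (n 0 z z))))))) (n 1157 (n 0 z (n 0 z (n 0 z (n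
 0 z (n 0 z (n 0 z (n 0 z z))))))) z))))))) (n 0 (n 0 z (n 0 z (n 33 (n 0 z (n 0 z (n 0 z (n 0 z
 (n 0 z (n 0 z z)))))) (n 33 (n 0 z (n 0 z (n 0 z (n 0 z (n 0 z (n 0 z z)))))) (n 33 (n 0 z (n 0
 z (n 0 z (n 0 z (n 0 z (n 0 z z)))))) (n 33 (n 0 z (n 0 z (n 0 z (n 0 z (n 0 z (n 0 z z))))))
 z)))))) (n 0 (n 0 z (n 27 (n 0 z (n 0 z (n 0 z (n 0 z (n 0 z (n 0 z (n 0 z z))))))) (n 27 (n 0
 z (n 0 z (n 0 z (n 0 z (n 0 z (n 0 z (n 0 z z))))))) (n 27 (n 0 z (n 0 z (n 0 z (n 0 z (n 0 z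
 (n 0 z (n 0 z z))))))) (n 27 (n 0 z (n 0 z (n 0 z (n 0 z (n 0 z (n 0 z (n 0 z z))))))) z)))))
 (n 0 (n 1153 (n 0 z (n 0 z (n 0 z (n 0 z (n 0 z (n 0 z z)))))) (n 1153 (n 0 z (n 0 z (n 0 z (n
 0 z (n 0 z (n 0 z z)))))) (n 1153 (n 0 z (n 0 z (n 0 z (n 0 z (n 0 z (n 0 z z)))))) (n 1153 (n
 0 z (n 0 z (n 0 z (n 0 z (n 0 z (n 0 z z)))))) z)))) (n 0 (n 0 z (n 0 z (n 0 z z))) (n 0 (n 0 z
 (n 0 z z)) (n 0 (n 0 z z) (n 0 z z)))))))) (n 0 (n 1 (n 6558219 z (n 6558219 z (n 6558219 z (n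
 6558219 z (n 6558219 z (n 6558219 z z)))))) (n 0 z (n 0 z (n 0 z z)))) (n 0 z z)))) (n
 0x340e5760b1b946d1c61d8db12b7b41aad309558c46a5a3451e162 (n 0 (n 153 (n 0 z (n 0 z (n
 0x14ca6ca62077f7f8080807f80808081807f8181807b7f808083797d8083837e7f76807b83827d717c807b7f84807f837a848381857f84860809
 z (n 0 z (n
 0x2d951944c0e00ca6ca64077f7e73997b8289828a727c8a8582707b807a767a68827e717696749d716fb09c7f958882716b9e9b678e78888898ab4b5d9b1009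
 z (n 0 z (n 0 z (n 0 z (n 6496275 z (n 0 z (n 0 z (n 0 z (n 0 z (n 0 z (n 0 z z)))))))))))))))
 (n 33 (n 6357803 z (n 0 z (n 0 z (n 0 z (n 0 z (n 0 z (n 0 z (n 0 z (n 0 z (n 0 z (n 6496515 z
 (n 0 z (n 0 z z))))))))))))) (n 9 (n 2 z (n 10 z (n 6496515 z (n 6496515 z (n 6496523 z (n 18 z
 (n 26 z (n 34 z z)))))))) (n 27 (n 42 z (n 50 z (n 58 z (n 0 z (n 0 z (n 66 z (n 74 z (n
 6496515 z (n 6496515 z (n 6496523 z z)))))))))) (n 1 (n 6558219 z (n 6558219 z (n 0 z (n 0 z (n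
 0 z (n 0 z (n 0 z (n 0 z z)))))))) (n 0 (n 6619931 z (n 0 z (n 0 z (n 0 z (n 0 z z))))) z))))))
 (n 0 (n 0 (n 0 z (n 0 z (n 0 z (n 0 z (n 1157 (n 0 z (n 0 z (n 0 z (n 0 z (n 0 z (n 0 z (n 0 z
 z))))))) (n 1157 (n 0 z (n 0 z (n 0 z (n 0 z (n 0 z (n 0 z (n 0 z z))))))) (n 1157 (n 0 z (n 0
 z (n 0 z (n 0 z (n 0 z (n 0 z (n 0 z z))))))) (n 1157 (n 0 z (n 0 z (n 0 z (n 0 z (n 0 z (n 0 z
 (n 0 z z))))))) (n 1157 (n 0 z (n 0 z (n 0 z (n 0 z (n 0 z (n 0 z (n 0 z z))))))) z))))))))) (n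
 0 (n 0 z (n 0 z (n 0 z (n 33 (n 2 (n 0 z (n 0 z (n 0 z (n 0 z z)))) (n 0 z (n 0 z (n 0 z (n 0 z
 (n 0 z z)))))) (n 33 (n 0 z (n 0 z (n 0 z (n 0 z (n 0 z (n 0 z z)))))) (n 33 (n 0 z (n 0 z (n 0
 z (n 0 z (n 0 z (n 0 z z)))))) (n 33 (n 0 z (n 0 z (n 0 z (n 0 z (n 0 z (n 0 z z)))))) (n 33 (n
 0 z (n 0 z (n 0 z (n 0 z (n 0 z (n 0 z z)))))) z)))))))) (n 0 (n 0 z (n 0 z (n 27 (n 0 z (n 0 z
 (n 2 (n 0 z (n 0 z (n 0 z (n 0 z z)))) (n 0 z (n 0 z (n 0 z (n 0 z z))))))) (n 27 (n 0 z (n 0 z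
 (n 0 z (n 0 z (n 0 z (n 0 z (n 0 z z))))))) (n 27 (n 0 z (n 0 z (n 0 z (n 0 z (n 0 z (n 0 z (n
 0 z z))))))) (n 27 (n 0 z (n 0 z (n 0 z (n 0 z (n 0 z (n 0 z (n 0 z z))))))) (n 27 (n 0 z (n 0
 z (n 0 z (n 0 z (n 0 z (n 0 z (n 0 z z))))))) z))))))) (n 0 (n 0 z (n 1153 (n 0 z (n 0 z (n 0 z
 (n 0 z (n 0 z (n 0 z z)))))) (n 1153 (n 0 z (n 0 z (n 0 z (n 0 z (n 0 z (n 0 z z)))))) (n 1153
 (n 0 z (n 0 z (n 0 z (n 0 z (n 0 z (n 0 z z)))))) (n 1153 (n 0 z (n 0 z (n 0 z (n 0 z (n 0 z (n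
 0 z z)))))) (n 1153 (n 0 z (n 0 z (n 0 z (n 0 z (n 0 z (n 0 z z)))))) z)))))) (n 0 (n 33 (n 0 z
 (n 0 z (n 0 z (n 0 z (n 0 z z))))) (n 33 (n 0 z (n 0 z (n 0 z (n 0 z (n 0 z z))))) (n 33 (n 2
 (n 0 z (n 0 z z)) (n 0 z (n 0 z (n 0 z (n 0 z z))))) (n 33 (n 0 z (n 2 (n 0 z z) (n 0 z (n 0 z
 (n 0 z z))))) (n 33 (n 0 z (n 0 z (n 0 z (n 0 z (n 0 z z))))) z))))) (n 0 (n 0 z (n 0 z (n 0 z
 (n 0 z z)))) (n 0 (n 0 z (n 0 z (n 0 z z))) (n 0 (n 0 z (n 0 z z)) (n 0 (n 0 z z) (n 0 z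
 z)))))))))) (n 0 (n 1 (n 6619931 z (n 6619931 z (n 6619931 z (n 6619931 z (n 6619931 z (n
 6619931 z z)))))) (n 0 z (n 0 z (n 0 z (n 0 z z))))) (n 0 z z)))) (n
 0x1a072bb058dca368e30ec6d895bd309558c46a5a3451e162 (n 0 (n 153 (n 0 z (n 0 z (n 0 z (n 0 z (n
 6496275 z (n 0 z (n 0 z z))))))) (n 33 (n 0 z (n 0 z (n 0 z (n 0 z (n 0 z (n 0 z (n 0 z (n 0 z
 (n 6496515 z (n 0 z (n 0 z z))))))))))) (n 9 (n 2 z (n 10 z (n 6496515 z (n 6496523 z (n 18 z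
 (n 26 z (n 0 z z))))))) (n 27 (n 34 z (n 42 z (n 50 z (n 0 z (n 0 z (n 58 z (n 66 z (n 6496515
 z (n 6496523 z z))))))))) (n 1 (n 6558219 z (n 0 z (n 0 z (n 0 z z)))) (n 0 (n 6619931 z (n 0 z
 (n 0 z (n 0 z (n 0 z z))))) z)))))) (n 1 (n 0 (n 0 z (n 0 z (n 0 z (n 1157 (n 0 z (n 0 z (n 0 z
 (n 0 z (n 0 z (n 0 z (n 0 z z))))))) (n 1157 (n 0 z (n 0 z (n 0 z (n 0 z (n 0 z (n 0 z (n 0 z
 z))))))) (n 1157 (n 0 z (n 0 z (n 0 z (n 0 z (n 0 z (n 0 z (n 0 z z))))))) (n 1157 (n 0 z (n 0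
 z (n 0 z (n 0 z (n 0 z (n 0 z (n 0 z z))))))) (n 1157 (n 0 z (n 0 z (n 0 z (n 0 z (n 0 z (n 0 z
 (n 0 z z))))))) z)))))))) (n 0 (n 0 z (n 0 z (n 33 (n 2 (n 0 z (n 0 z (n 0 z (n 0 z z)))) (n 0
 z (n 0 z (n 0 z (n 0 z (n 0 z z)))))) (n 33 (n 0 z (n 0 z (n 0 z (n 0 z (n 0 z (n 0 z z))))))
 (n 33 (n 0 z (n 0 z (n 0 z (n 0 z (n 0 z (n 0 z z)))))) (n 33 (n 0 z (n 0 z (n 0 z (n 0 z (n 0
 z (n 0 z z)))))) (n 33 (n 0 z (n 0 z (n 0 z (n 0 z (n 0 z (n 0 z z)))))) z))))))) (n 0 (n 0 z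
 (n 27 (n 0 z (n 0 z (n 0 z (n 0 z (n 0 z (n 0 z (n 0 z z))))))) (n 27 (n 0 z (n 0 z (n 0 z (n 0
 z (n 0 z (n 0 z (n 0 z z))))))) (n 27 (n 0 z (n 0 z (n 0 z (n 0 z (n 0 z (n 0 z (n 0 z z)))))))
 (n 27 (n 0 z (n 0 z (n 0 z (n 0 z (n 0 z (n 0 z (n 0 z z))))))) (n 27 (n 0 z (n 0 z (n 0 z (n 0
 z (n 0 z (n 0 z (n 0 z z))))))) z)))))) (n 0 (n 1153 (n 0 z (n 0 z (n 0 z (n 0 z (n 0 z (n 0 z
 z)))))) (n 1153 (n 0 z (n 0 z (n 0 z (n 0 z (n 0 z (n 0 z z)))))) (n 1153 (n 0 z (n 0 z (n 0 z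
 (n 0 z (n 0 z (n 0 z z)))))) (n 1153 (n 0 z (n 0 z (n 0 z (n 0 z (n 0 z (n 0 z z)))))) (n 1153
 (n 0 z (n 0 z (n 0 z (n 0 z (n 0 z (n 0 z z)))))) z))))) (n 0 (n 0 z (n 0 z (n 0 z (n 0 z z))))
 (n 0 (n 0 z (n 0 z (n 0 z z))) (n 0 (n 0 z (n 0 z z)) (n 0 (n 0 z z) (n 0 z z))))))))) (n 0 (n
 1 (n 6558219 z (n 6558219 z (n 6558219 z (n 6558219 z (n 6558219 z (n 6558219 z z)))))) (n 0 z
 (n 0 z (n 0 z z)))) (n 0 z z)))) z)))))))))), by decide +kernel⟩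
theorem i11133 : ∃ t, chkR KT RW t 11133 11143 = true := ⟨(n
 0x272aa0eba5c169640b5908562843954c44d5c22e8d10ea660b13284a9c38688c422453152 (n 0 (n 153 (n 0 z
 (n 0 z (n 0 z (n 0 z (n 0 z (n 0 z (n 6496275 z z))))))) (n 33 (n 0 z (n 0 z (n 0 z (n 0 z (n
 6496515 z z))))) (n 9 (n 2 z (n 0 z (n 0 z (n 10 z (n 0 z (n 0 z (n 0 z (n 0 z (n 0 z (n 0 z (n
 0 z (n 0 z (n 0 z (n 18 z (n 6496515 z (n 0 z z)))))))))))))))) (n 27 (n 26 z (n 34 z (n 42 z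
 (n 0 z (n 50 z (n 6496515 z (n 0 z (n 58 z z)))))))) (n 7 (n 66 z (n 74 z (n
 0x2ca8a406077e09e16e28e281e85c7a085f91e6df85e75f76189f7a381f8dd81e89e8a189c8e17e07de7a10801 z
 (n 0 z (n 82 z (n 0 z (n 6558219 z (n 0 z (n 90 z (n 0 z z)))))))))) (n 0 (n 0 z (n 98 z (n 106
 z (n 0 z (n 0 z (n 6619675 z (n 0 z (n 0 z (n 0 z z))))))))) z)))))) (n 33 (n 0 (n 0 z (n 0 z
 (n 27 (n 0 z (n 0 z (n 0 z (n 0 z (n 0 z (n 0 z (n 0 z (n 0 z (n 0 z (n 0 z (n 0 z (n 0 z (n 0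
 z (n 0 z (n 0 z (n 0 z (n 0 z (n 0 z (n 0 z (n 0 z (n 0 z (n 0 z (n 0 z (n 0 z (n 0 z (n 0 z (n
 0 z (n 0 z (n 0 z (n 0 z z)))))))))))))))))))))))))))))) (n 27 (n 0 z (n 2 (n 0 z (n 0 z (n 0 z
 (n 1 z (n 1 z (n 1 z (n 2 (n 0 z (n 0 z (n 0 (n 8718187 z z) (n 0 z (n 0 z (n 0 z z)))))) (n 1
 z (n 1 z z))))))))) (n 0 z (n 0 z (n 0 z (n 0 z (n 0 z (n 0 z (n 0 z (n 0 z (n 0 z (n 0 z (n 0
 z (n 0 z (n 0 z (n 0 z (n 0 z (n 0 z (n 0 z (n 0 z (n 0 z (n 0 z (n 0 z (n 0 z (n 0 z (n 0 z (n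
 0 z (n 0 z (n 0 z (n 0 z z)))))))))))))))))))))))))))))) (n 27 (n 0 z (n 0 z (n 0 z (n 0 z (n 0
 z (n 0 z (n 0 z (n 0 z (n 0 z (n 0 z (n 0 z (n 0 z (n 0 z (n 0 z (n 0 z (n 0 z (n 0 z (n 0 z (n
 0 z (n 0 z (n 0 z (n 0 z (n 0 z (n 0 z (n 0 z (n 0 z (n 0 z (n 0 z (n 0 z (n 0 z
 z)))))))))))))))))))))))))))))) (n 27 (n 0 z (n 0 z (n 0 z (n 0 z (n 0 z (n 0 z (n 0 z (n 0 z
 (n 0 z (n 0 z (n 0 z (n 0 z (n 0 z (n 0 z (n 0 z (n 0 z (n 0 z (n 0 z (n 0 z (n 0 z (n 2 (n 0 z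
 (n 2 (n 0 z (n 0 z (n 0 (n 3213419 z (n 3213419 z z)) (n 0 z (n 0 z (n 0 (n 3213419 z z)
 z)))))) (n 1 z (n 2 (n 0 z (n 0 z (n 0 z (n 0 z (n 0 z (n 0 z z)))))) (n 2 (n 0 z (n 0 z (n 0 z
 (n 0 z (n 0 z (n 0 z z)))))) (n 2 (n 0 z (n 0 z (n 0 z (n 0 z (n 0 z (n 0 z z)))))) (n 2 (n 0 z
 (n 0 z (n 0 (n 8790083 z (n 8790083 z z)) (n 0 z (n 0 z (n 0 (n 8790083 z z) z)))))) z)))))))
 (n 0 z (n 0 z (n 0 z (n 0 z (n 0 z (n 0 z (n 0 z (n 0 z (n 0 z z))))))))))))))))))))))))))))))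
 (n 27 (n 0 z (n 0 z (n 0 z (n 0 z (n 0 z (n 0 z (n 0 z (n 0 z (n 0 z (n 0 z (n 0 z (n 0 z (n 0
 z (n 0 z (n 0 z (n 0 z (n 0 z (n 0 z (n 0 z (n 0 z (n 0 z (n 0 z (n 0 z (n 0 z (n 0 z (n 0 z (n
 2 (n 2 (n 0 z (n 0 (n 3213419 z z) (n 0 (n 3213419 z (n 3213419 z z)) (n 0 z (n 0 (n 3213419 z
 z) (n 0 z z)))))) (n 2 (n 0 z (n 0 z (n 0 (n 396 z z) (n 0 z (n 0 z (n 0 z z)))))) (n 2 (n 0 z
 (n 0 z (n 0 z (n 0 z (n 0 z (n 0 z z)))))) (n 2 (n 0 z (n 0 z (n 0 z (n 0 z (n 0 z (n 0 z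
 z)))))) (n 2 (n 0 z (n 0 z (n 0 z (n 0 z (n 0 z (n 0 z z)))))) (n 2 (n 0 (n 8790083 z z) (n 0
 (n 8790083 z z) (n 0 (n 8790083 z (n 8790083 z z)) (n 0 z (n 0 z (n 0 z z)))))) z)))))) (n 0 z
 (n 0 z (n 0 z z)))))))))))))))))))))))))))))) (n 99 (n 0 z (n 0 z (n 0 z (n 0 z (n 0 z (n 0 z
 (n 0 z (n 0 z (n 0 z (n 0 z z)))))))))) (n 99 (n 2 (n 0 z (n 0 z (n 1 z (n 1 z z)))) (n 0 z (n
 0 z (n 0 z (n 0 z (n 0 z (n 0 z (n 0 z (n 0 z (n 0 z z)))))))))) (n 99 (n 0 z (n 0 z (n 0 z (n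
 0 z (n 2 (n 0 z (n 2 (n 0 z (n 0 z (n 0 z (n 0 z (n 0 z (n 0 z z)))))) (n 2 (n 0 z (n 0 z (n 0
 (n 8790083 z (n 8790083 z z)) (n 0 z (n 0 z (n 0 (n 8790083 z z) z)))))) z))) (n 0 z (n 0 z (n
 0 z (n 0 z (n 0 z z)))))))))) (n 99 (n 0 z (n 0 z (n 0 z (n 0 z (n 0 z (n 0 z (n 0 z (n 0 z (n
 0 z (n 2 (n 2 (n 0 z (n 0 z (n 0 z (n 0 z (n 0 z (n 0 z z)))))) (n 2 (n 0 (n 8790083 z z) (n 0
 z (n 0 (n 8790083 z (n 8790083 z z)) (n 0 z (n 0 (n 8790083 z z) (n 0 z z)))))) z)) z))))))))))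
 (n 97 (n 2 (n 0 z z) (n 0 z (n 0 z (n 0 z (n 0 z (n 0 z (n 0 z (n 0 z (n 0 z (n 0 z (n 0 z (n 0
 z (n 0 z (n 0 z (n 0 z (n 0 z (n 0 z (n 0 z (n 0 z (n 0 z (n 0 z (n 0 z (n 0 z (n 0 z (n 0 z (n
 0 z (n 0 z (n 0 z (n 0 z (n 0 z (n 0 z (n 0 z (n 0 z z))))))))))))))))))))))))))))))))) (n 97
 (n 0 z (n 0 z (n 0 z (n 0 z (n 0 z (n 0 z (n 0 z (n 0 z (n 0 z (n 0 z (n 0 z (n 0 z (n 0 z (n 0
 z (n 0 z (n 0 z (n 0 z (n 0 z (n 0 z (n 0 z (n 0 z (n 0 z (n 0 z (n 0 z (n 0 z (n 0 z (n 0 z (n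
 0 z (n 0 z (n 0 z (n 0 z (n 0 z (n 0 z z))))))))))))))))))))))))))))))))) z))))))))))))) (n 0
 (n 0 z (n 7 (n 2 (n 0 z (n 0 z (n 0 z (n 0 z (n 1 z (n 1 z (n 1 z (n 1 z (n 1 z (n 1 z
 z)))))))))) (n 0 z (n 0 z (n 0 z (n 0 z (n 0 z (n 0 z z))))))) (n 7 (n 0 z (n 0 z (n 0 z (n 0 z
 (n 0 z (n 0 z (n 0 z z))))))) (n 7 (n 0 z (n 0 z (n 2 (n 0 z (n 0 z (n 1 z (n 1 z (n 1 z (n 1 z
 (n 1 z (n 1 z z)))))))) (n 0 z (n 0 z (n 0 z (n 0 z z))))))) (n 7 (n 0 z (n 0 z (n 0 z (n 0 z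
 (n 0 z (n 0 z (n 0 z z))))))) (n 7 (n 0 z (n 0 z (n 0 z (n 0 z (n 0 z (n 2 (n 2 (n 0 z (n 0 z
 (n 0 z (n 0 z (n 0 z (n 0 z z)))))) (n 1 z (n 2 (n 0 z (n 0 z (n 0 z (n 0 z (n 0 z (n 0 z
 z)))))) (n 2 (n 0 z (n 0 z (n 0 z (n 0 z (n 0 z (n 0 z z)))))) (n 1 z (n 2 (n 0 z (n 0 z (n 0 z
 (n 0 z (n 0 z (n 0 z z)))))) z)))))) (n 0 z z))))))) (n 99 (n 2 (n 0 z (n 0 z (n 0 z (n 1 z (n
 1 z z))))) (n 0 z (n 0 z (n 0 z (n 0 z (n 0 z (n 0 z (n 0 z (n 0 z (n 0 z (n 0 z (n 0 z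
 z)))))))))))) (n 99 (n 0 z (n 0 z (n 0 z (n 0 z (n 0 z (n 0 z (n 0 z (n 0 z (n 0 z (n 0 z (n 0
 z (n 0 z z)))))))))))) (n 99 (n 0 z (n 0 z (n 0 z (n 0 z (n 2 (n 0 z (n 2 (n 0 z (n 0 z (n 0 z
 (n 0 z (n 0 z (n 0 z z)))))) (n 1 z z))) (n 0 z (n 0 z (n 0 z (n 0 z (n 0 z (n 0 z (n 0 z
 z)))))))))))) (n 99 (n 0 z (n 0 z (n 0 z (n 0 z (n 0 z (n 0 z (n 0 z (n 0 z (n 2 (n 2 (n 0 z (n
 0 z (n 0 z (n 0 z (n 0 z (n 0 z z)))))) (n 2 (n 0 z (n 0 z (n 0 (n 8591211 z z) (n 0 z (n 0 z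
 (n 0 z z)))))) z)) (n 0 z (n 0 z (n 0 z z)))))))))))) (n 97 (n 0 z (n 2 (n 0 z z) (n 0 z (n 0 z
 (n 0 z (n 0 z (n 0 z (n 0 z (n 0 z (n 0 z (n 0 z (n 0 z (n 0 z (n 0 z (n 0 z (n 0 z (n 0 z (n 0
 z (n 0 z (n 0 z (n 0 z (n 0 z (n 0 z z))))))))))))))))))))))) (n 97 (n 0 z (n 0 z (n 0 z (n 2 z
 (n 0 z (n 0 z (n 0 z (n 0 z (n 0 z (n 0 z (n 0 z (n 0 z (n 0 z (n 0 z (n 0 z (n 0 z (n 0 z (n 0
 z (n 0 z (n 0 z (n 0 z (n 0 z (n 0 z z))))))))))))))))))))))) z)))))))))))) (n 0 (n 27 (n 2 (n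
 0 z (n 0 z (n 0 z (n 0 z (n 2 (n 0 z (n 0 z (n 0 (n 2164859 z z) (n 0 z (n 0 z (n 0 z z))))))
 (n 1 z (n 2 (n 0 z (n 0 z (n 0 z (n 0 z (n 0 z (n 0 z z)))))) (n 2 (n 0 z (n 0 z (n 0 z (n 0 z
 (n 0 z (n 0 z z)))))) (n 2 (n 0 z (n 0 z (n 0 z (n 0 z (n 0 z (n 0 z z)))))) (n 2 (n 0 z (n 0 z
 (n 0 (n 8855619 z z) (n 0 z (n 0 z (n 0 z z)))))) z)))))))))) (n 0 z (n 0 z (n 0 z (n 0 z (n 0
 z (n 0 z z))))))) (n 27 (n 0 z (n 0 z (n 0 z (n 0 z (n 0 z (n 0 z (n 0 z z))))))) (n 27 (n 0 z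
 (n 0 z (n 2 (n 0 z (n 0 z (n 1 z (n 1 z (n 2 (n 0 z (n 0 z (n 0 z (n 0 z (n 0 z (n 0 z z))))))
 (n 2 (n 0 z (n 0 z (n 0 z (n 0 z (n 0 z (n 0 z z)))))) (n 1 z (n 2 (n 0 z (n 0 z (n 0 (n 68 z
 (n 68 z z)) (n 0 (n 68 z z) (n 0 (n 68 z z) (n 0 z z)))))) z)))))))) (n 0 z (n 0 z (n 0 z (n 0
 z z))))))) (n 27 (n 0 z (n 0 z (n 0 z (n 0 z (n 0 z (n 0 z (n 0 z z))))))) (n 27 (n 0 z (n 0 z
 (n 0 z (n 0 z (n 0 z (n 2 (n 1 z (n 1 z (n 1 z (n 1 z (n 1 z (n 2 (n 0 z (n 0 z (n 0 z (n 0 z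
 (n 0 z (n 0 z z)))))) z)))))) (n 0 z z))))))) (n 105 (n 0 z (n 0 z (n 0 z (n 0 z (n 2 (n 0 z (n
 0 z (n 0 z (n 2 (n 0 z (n 0 z (n 0 z (n 0 z (n 0 z (n 0 z z)))))) (n 2 (n 0 (n 2164859 z z) (n
 0 (n 8869387 z z) (n 0 (n 2164859 z (n 2164859 z z)) (n 0 z (n 0 z (n 0 z z)))))) z))))) (n 0 z
 (n 0 z (n 0 z (n 0 z (n 0 z (n 0 z (n 0 z (n 0 z (n 0 z (n 0 z (n 0 z (n 0 z (n 0 z (n 0 z (n 0
 z (n 0 z (n 0 z (n 0 z (n 0 z (n 0 z (n 0 z (n 0 z (n 0 z (n 0 z z)))))))))))))))))))))))))))))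
 (n 105 (n 0 z (n 0 z (n 0 z (n 0 z (n 0 z (n 0 z (n 0 z (n 0 z (n 0 z (n 0 z (n 0 z (n 0 z (n 0
 z (n 0 z (n 0 z (n 0 z (n 0 z (n 0 z (n 0 z (n 0 z (n 2 (n 0 z (n 0 z (n 2 (n 0 z (n 0 z (n 0 z
 (n 0 z (n 0 z (n 0 z z)))))) (n 2 (n 0 z (n 0 z (n 0 z (n 0 z (n 0 z (n 0 z z)))))) z)))) (n 0
 z (n 0 z (n 0 z (n 0 z (n 0 z (n 0 z (n 0 z (n 0 z z))))))))))))))))))))))))))))) (n 105 (n 0 z
 (n 0 z (n 0 z (n 0 z (n 0 z (n 0 z (n 0 z (n 0 z (n 0 z (n 0 z (n 0 z (n 0 z (n 0 z (n 0 z (n 0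
 z (n 0 z (n 0 z (n 0 z (n 0 z (n 0 z (n 0 z (n 0 z (n 0 z (n 0 z (n 0 z (n 0 z (n 0 z (n 0 z (n
 0 z z))))))))))))))))))))))))))))) (n 105 (n 0 z (n 0 z (n 0 z (n 0 z (n 0 z (n 0 z (n 0 z (n 0
 z (n 0 z (n 0 z (n 0 z (n 0 z (n 0 z (n 0 z (n 0 z (n 0 z (n 0 z (n 0 z (n 0 z (n 0 z (n 0 z (n
 0 z (n 0 z (n 0 z (n 0 z (n 0 z (n 0 z (n 0 z (n 0 z z))))))))))))))))))))))))))))) (n 17 (n 0
 z (n 0 z (n 0 z (n 0 z (n 0 z (n 0 z (n 0 z (n 0 z (n 0 z (n 0 z (n 0 z z))))))))))) (n 17 (n 0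
 z (n 2 z (n 0 z (n 0 z (n 0 z (n 0 z (n 0 z (n 0 z (n 0 z (n 0 z (n 0 z z)))))))))))
 z))))))))))) (n 0 (n 0 z (n 0 z (n 0 z (n 0 z (n 51 (n 0 z (n 0 z (n 0 z (n 0 z (n 0 z (n 0 z
 (n 0 z (n 0 z (n 0 z (n 0 z (n 0 z z))))))))))) (n 51 (n 0 z (n 0 z (n 0 z (n 0 z (n 0 z (n 0 z
 (n 0 z (n 0 z (n 0 z (n 0 z (n 0 z z))))))))))) (n 51 (n 0 z (n 0 z (n 0 z (n 2 (n 0 z (n 2 (n
 0 z (n 0 z (n 0 z (n 0 z (n 0 z (n 0 z z)))))) (n 1 z z))) (n 0 z (n 0 z (n 0 z (n 0 z (n 0 z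
 (n 0 z (n 0 z z))))))))))) (n 51 (n 0 z (n 0 z (n 0 z (n 0 z (n 0 z (n 0 z (n 0 z (n 0 z (n 0 z
 (n 0 z (n 2 (n 2 (n 0 z (n 0 z (n 0 z (n 0 z (n 0 z (n 0 z z)))))) (n 2 (n 0 z (n 0 z (n 0 z (n
 0 z (n 0 z (n 0 z z)))))) z)) z))))))))))) (n 53 (n 0 z (n 0 z (n 2 (n 0 z z) (n 0 z (n 0 z (n
 0 z (n 0 z (n 0 z (n 0 z (n 0 z (n 0 z (n 0 z (n 0 z (n 0 z (n 0 z (n 0 z (n 0 z (n 0 z (n 0 z
 (n 0 z (n 0 z (n 0 z (n 0 z (n 0 z (n 0 z (n 0 z (n 0 z z))))))))))))))))))))))))))) (n 53 (n 0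
 z (n 0 z (n 0 z (n 0 z (n 0 z (n 0 z (n 0 z (n 0 z (n 0 z (n 0 z (n 0 z (n 0 z (n 0 z (n 0 z (n
 0 z (n 0 z (n 0 z (n 0 z (n 0 z (n 0 z (n 0 z (n 0 z (n 0 z (n 0 z (n 0 z (n 0 z (n 0 z
 z))))))))))))))))))))))))))) z)))))))))) (n 0 (n 0 z (n 0 z (n 0 z (n 3 (n 0 z (n 0 z (n 0 z (n
 0 z (n 0 z (n 0 z (n 0 z (n 0 z (n 0 z (n 0 z (n 0 z z))))))))))) (n 3 (n 0 z (n 0 z (n 0 z (n
 0 z (n 0 z (n 0 z (n 0 z (n 0 z (n 0 z (n 0 z (n 0 z z))))))))))) (n 3 (n 0 z (n 0 z (n 2 (n 0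
 z (n 2 (n 0 z (n 0 z (n 0 z (n 0 z (n 0 z (n 0 z z)))))) (n 1 z z))) (n 0 z (n 0 z (n 0 z (n 0
 z (n 0 z (n 0 z (n 0 z (n 0 z z))))))))))) (n 3 (n 0 z (n 0 z (n 0 z (n 0 z (n 0 z (n 0 z (n 0
 z (n 0 z (n 0 z (n 2 (n 2 (n 0 z (n 0 z (n 0 z (n 0 z (n 0 z (n 0 z z)))))) (n 2 (n 0 z (n 0 z
 (n 0 z (n 0 z (n 0 z (n 0 z z)))))) z)) (n 0 z z))))))))))) (n 53 (n 0 z (n 0 z (n 0 z (n 0 z
 (n 0 z (n 0 z (n 0 z (n 0 z (n 0 z (n 0 z (n 2 (n 0 z z) (n 0 z (n 0 z (n 0 z (n 0 z (n 0 z (n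
 0 z (n 0 z (n 0 z (n 0 z (n 0 z (n 0 z (n 0 z z))))))))))))))))))))))) (n 53 (n 0 z (n 0 z (n 0
 z (n 0 z (n 0 z (n 0 z (n 0 z (n 0 z (n 0 z (n 0 z (n 0 z (n 0 z (n 0 z (n 0 z (n 0 z (n 0 z (n
 0 z (n 0 z (n 0 z (n 0 z (n 0 z (n 0 z (n 0 z z))))))))))))))))))))))) z))))))))) (n 0 (n 0 z
 (n 0 z (n 51 (n 0 z (n 0 z (n 0 z (n 0 z (n 0 z (n 0 z (n 0 z (n 0 z (n 0 z (n 0 z (n 0 z
 z))))))))))) (n 51 (n 0 z (n 2 (n 0 z (n 0 z (n 1 z (n 1 z z)))) (n 0 z (n 0 z (n 0 z (n 0 z (n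
 0 z (n 0 z (n 0 z (n 0 z (n 0 z z))))))))))) (n 51 (n 0 z (n 0 z (n 0 z (n 0 z (n 0 z (n 0 z (n
 0 z (n 0 z (n 0 z (n 0 z (n 0 z z))))))))))) (n 51 (n 0 z (n 0 z (n 0 z (n 0 z (n 0 z (n 0 z (n
 0 z (n 0 z (n 0 z (n 0 z (n 0 z z))))))))))) (n 53 (n 2 (n 0 z z) (n 0 z (n 0 z (n 0 z (n 0 z
 (n 0 z (n 0 z (n 0 z (n 0 z (n 0 z (n 0 z z))))))))))) (n 53 (n 0 z (n
 0x2ec8ec820381f7e08607e085f8218208207e08207e081f7e082082081f8208208608218208608208208200801 z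
 (n 0 z (n 0 z (n 0 z (n 0 z (n 0 z (n 0 z (n 0 z (n 0 z (n 0 z z))))))))))) z)))))))) (n 0 (n 0
 z (n 51 (n 2 (n 0 z (n 0 z (n 0 z (n 2 (n 0 z (n 0 z (n 0 z (n 0 z (n 0 z (n 0 z z)))))) (n 2
 (n 0 z (n 0 z (n 0 z (n 0 z (n 0 z (n 0 z z)))))) z))))) (n 0 z (n 0 z (n 0 z (n 0 z (n 0 z (n
 0 z (n 0 z (n 0 z (n 0 z (n 0 z (n 0 z (n 0 z (n 0 z (n 0 z (n 0 z (n 0 z (n 0 z (n 0 z (n 0 z
 (n 0 z (n 0 z (n 0 z (n 0 z (n 0 z (n 0 z (n 0 z (n 0 z (n 0 z z)))))))))))))))))))))))))))))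
 (n 51 (n 0 z (n 0 z (n 2 (n 0 z (n 0 z (n 1 z (n 2 (n 0 z (n 0 z (n 0 z (n 0 z (n 0 z (n 0 z
 z)))))) z)))) (n 0 z (n 0 z (n 0 z (n 0 z (n 0 z (n 0 z (n 0 z (n 0 z (n 0 z (n 0 z (n 0 z (n 0
 z (n 0 z (n 0 z (n 0 z (n 0 z (n 0 z (n 0 z (n 0 z (n 0 z (n 0 z (n 0 z (n 0 z (n 0 z (n 0 z (n
 0 z z))))))))))))))))))))))))))))) (n 51 (n 0 z (n 0 z (n 0 z (n 0 z (n 0 z (n 0 z (n 0 z (n 0
 z (n 0 z (n 0 z (n 0 z (n 0 z (n 0 z (n 0 z (n 0 z (n 0 z (n 0 z (n 0 z (n 0 z (n 0 z (n 0 z (n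
 0 z (n 0 z (n 0 z (n 0 z (n 0 z (n 0 z (n 0 z (n 0 z z))))))))))))))))))))))))))))) (n 51 (n 0
 z (n 0 z (n 0 z (n 0 z (n 0 z (n 0 z (n 0 z (n 0 z (n 0 z (n 0 z (n 0 z (n 0 z (n 0 z (n 0 z (n
 0 z (n 0 z (n 0 z (n 0 z (n 0 z (n 0 z (n 0 z (n 0 z (n 0 z (n 0 z (n 0 z (n 0 z (n 0 z (n 0 z
 (n 0 z z))))))))))))))))))))))))))))) (n 53 (n 0 z (n 0 z (n 0 z (n 0 z (n 0 z (n 0 z (n 0 z (n
 0 z (n 0 z (n 0 z (n 0 z (n 0 z z)))))))))))) (n 53 (n 0 z (n 0 z (n 2 z (n 0 z (n 0 z (n 0 z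
 (n 0 z (n 0 z (n 0 z (n 0 z (n 0 z (n 0 z z)))))))))))) z))))))) (n 0 (n 483 (n 2 (n 0 z (n 0 z
 (n 0 z (n 2 (n 0 z (n 0 z (n 0 z (n 0 z (n 0 z (n 0 z z)))))) (n 2 (n 0 z (n 0 z (n 0 z (n 0 z
 (n 0 z (n 0 z z)))))) z))))) (n 0 z (n 0 z (n 0 z (n 0 z (n 0 z (n 0 z (n 0 z (n 0 z (n 0 z (n
 0 z (n 0 z (n 0 z (n 0 z (n 0 z (n 0 z (n 0 z (n 0 z (n 0 z (n 0 z (n 0 z (n 0 z (n 0 z (n 0 z
 (n 0 z (n 0 z (n 0 z (n 0 z (n 0 z (n 0 z (n 0 z (n 0 z (n 0 z (n 0 z (n 0 z (n 0 z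
 z)))))))))))))))))))))))))))))))))))) (n 483 (n 0 z (n 0 z (n 2 (n 0 z (n 0 z (n 1 z (n 2 (n 0
 z (n 0 z (n 0 z (n 0 z (n 0 z (n 0 z z)))))) z)))) (n 0 z (n 0 z (n 0 z (n 0 z (n 0 z (n 0 z (n
 0 z (n 0 z (n 0 z (n 0 z (n 0 z (n 0 z (n 0 z (n 0 z (n 0 z (n 0 z (n 0 z (n 0 z (n 0 z (n 0 z
 (n 0 z (n 0 z (n 0 z (n 0 z (n 0 z (n 0 z (n 0 z (n 0 z (n 0 z (n 0 z (n 0 z (n 0 z (n 0 z
 z)))))))))))))))))))))))))))))))))))) (n 483 (n 0 z (n 0 z (n 0 z (n 0 z (n 0 z (n 0 z (n 0 z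
 (n 0 z (n 0 z (n 0 z (n 0 z (n 0 z (n 0 z (n 0 z (n 0 z (n 0 z (n 0 z (n 0 z (n 0 z (n 0 z (n 0
 z (n 0 z (n 0 z (n 0 z (n 0 z (n 0 z (n 0 z (n 0 z (n 0 z (n 0 z (n 0 z (n 0 z (n 0 z (n 0 z (n
 0 z (n 0 z z)))))))))))))))))))))))))))))))))))) (n 483 (n 0 z (n 0 z (n 0 z (n 0 z (n 0 z (n 0
 z (n 0 z (n 0 z (n 0 z (n 0 z (n 0 z (n 0 z (n 0 z (n 0 z (n 0 z (n 0 z (n 0 z (n 0 z (n 0 z (n
 0 z (n 0 z (n 0 z (n 0 z (n 0 z (n 0 z (n 0 z (n 0 z (n 0 z (n 0 z (n 0 z (n 0 z (n 0 z (n 0 z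
 (n 0 z (n 0 z (n 0 z z)))))))))))))))))))))))))))))))))))) (n 485 (n 0 z (n 0 z (n 0 z (n 0 z
 (n 0 z (n 0 z (n 0 z (n 0 z (n 0 z (n 0 z (n 0 z (n 0 z z)))))))))))) (n 485 (n 0 z (n 0 z (n 0
 z (n 0 z (n 2 z (n 0 z (n 0 z (n 0 z (n 0 z (n 0 z (n 0 z (n 0 z z)))))))))))) z)))))) (n 0 (n
 0 z (n 0 z (n 0 z (n 13 (n 0 z (n 0 z (n 0 z (n 0 z (n 0 z (n 0 z (n 0 z (n 0 z (n 0 z
 z))))))))) (n 13 (n 0 z (n 0 z (n 0 z (n 0 z (n 0 z (n 0 z (n 0 z (n 0 z (n 0 z z)))))))))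
 z))))) (n 0 (n 0 z (n 0 z (n 13 (n 0 z (n 0 z (n 0 z (n 0 z (n 0 z (n 2 (n 0 z z) (n 0 z (n 0 z
 (n 0 z z))))))))) (n 13 (n 0 z (n 0 z (n 0 z (n 0 z (n 0 z (n 0 z (n 0 z (n 0 z (n 0 z
 z))))))))) z)))) (n 0 (n 0 z (n 13 (n 0 z (n 0 z (n 0 z (n 0 z (n 0 z (n 0 z (n 0 z z))))))) (n
 13 (n 0 z (n 0 z (n 0 z (n 0 z (n 0 z (n 0 z (n 0 z z))))))) z))) (n 0 (n 253 (n 0 z (n 0 z (n
 0 z (n 0 z (n 0 z (n 0 z (n 0 z z))))))) (n 253 (n 0 z (n 0 z (n 0 z (n 0 z (n 0 z (n 0 z (n 0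
 z z))))))) z)) (n 0 (n 0 z z) (n 0 z z)))))))))))))) (n 0 (n 0 z (n 0 z (n 0 z (n 0 z (n 1 (n
 6496515 z (n 6496515 z (n 6496515 z (n 6496515 z (n 6496515 z (n 6496515 z z)))))) z))))) (n 0
 z z)))) (n 0x367151a46a894b34439dbb0713d0325ed98459905309640 (n 0 (n 183 (n 0 z (n 0 z (n 0 z
 (n 0 z (n 3282443 z (n 0 z (n 0 z (n 2 z (n 0 z (n 0 z (n 0 z z))))))))))) (n 257 (n 6635811 z
 (n 0 z (n 6635811 z (n 0 z (n 6624299 z (n 6627651 z (n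
 0x6ca6ca4003817f7e817e7d817f7e80847f818180828182807f807f81808080807f7f7d807f808181807f8282817f7f82818081808080810809
 z (n
 0x4ca6ca4003817f7f817f7e80807e7f837f808180828081807f807f80808080807f7f7d817f80818080808182817f8082818081808081800809
 z (n 0 z (n 0 z (n 0 z (n 0 z (n 0 z (n 0 z (n 0 z (n
 0x994d94800602ca6c6400781847a787c837f7c777e887f7e878183867d807b83817f837f807d817a7e827f8180837f7b818783837e80828184807d81811009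
 z (n 10 z (n 0 z (n 0 z (n 0 z (n 0 z (n 6558475 z (n 0 z (n 0 z (n 0 z (n 0 z (n 0 z (n
 0x8c86c860037c827c7e7d807d818583898183858383847f828181877d7b7b7e7f817a838181808385877e7e84827e7a7c80857d857e867f0809
 z (n 0 z (n 6627651 z (n 0 z (n 18 z z)))))))))))))))))))))))))))))))) (n 129 (n 0 z (n 6627651
 z (n 0 z (n 0 z (n 0 z (n 0 z (n 0 z z))))))) (n 27 (n 0 z (n 0 z (n 0 z (n 0 z (n
 0xd94d44100e02ca6a802030365465400180b28b28801c1195190400604ca6a820077e887f7a847f807e7e8183807d847e84847d817b7e808283807f7e7f817d8280808383817e808181817f8181817e82807e7f3009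
 z (n 0 z (n 2164283 z (n 0 z (n
 0x2ca8c8240380818180808080817f8081807e807f808180817e818080807f8080808080808180807f7e81808081807e817f81807f8080800809
 z (n
 0x594994500606ca6a820077f80817e837d80838381828281807d82837e817c827f817e808380817d828082808080817c81817f827e807e84807e7f81811009
 z (n 2164283 z (n 26 z (n
 0x2ca4ca02037f80807f8080818080817f80807f7f80817f8080807f8081807f8080808080808080808080808080808080808080807f80800809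
 z (n 34 z z)))))))))))))) (n 1 (n 0 z (n 0 z (n 6635811 z (n 0 z (n 0 z (n 0 z (n 0 z (n 0 z (n
 0 z (n 0 z z)))))))))) (n 0 (n 0 z (n 0 z (n 0 z (n 6635811 z (n 0 z (n 6635811 z (n 6635811 z
 (n 0 z (n 0 z (n
 0x164364300180321321001c1194d0c400e02c868620077e81807f80807f818180817f81817f81818082808081818080808080808080808081817f808080807f7f7f80807f808080802009
 z (n 0 z (n 0 z (n
 0x6c86c860037d827e7e7d7f7e8185838781828482828380828180857e7c7c7f80827b8281807f8384867e7e83817e7b7c80847e857f867f0809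
 z (n 0 z (n 0 z (n 0 z (n
 0x8ca6864007817f7f81817e7e7f827f828081818082818181808080818080807f808080808080818180808181807f7e7f808180808080800809
 z (n 0 z (n 42 z (n 0 z (n 0 z (n 50 z (n
 0x2a630807f807d867f827f7b7e7b7c7e7d7e80847e807e807e8486857d7e7c817f817b8182807c84837e7f837f7d7f81837c807b800049
 z (n 0 z (n 0 z (n 0 z (n 0 z (n 6624299 z (n
 0x190d90480600c82c604037f8180808080818080808080807f8080808080807f7f80808080808080808080807f808080808180808080818080808080801009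
 z (n 0 z (n
 0x2c86c60403808080807f81808081807f807f808080817f80818080807f807f807f7f82807f7f8080808180818180807f7f7e7f808181800809
 z (n 0 z (n
 0xd94d0c400e02c868620077e827f808180838081827c7e8180828083807f807c7f8380817e807f817f807e82837f7f84837f7f807e7d807f7e7d80827e1009
 z (n 0 z (n
 0xc86c860037f80808080808080808081808081808080808080807f808080808080808080808080808080808080808080808080808081800809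
 z (n 0 z (n 0 z (n 6624299 z (n 0 z (n 0 z (n 58 z (n 0 z (n 0 z (n 66 z (n 0 z (n 0 z
 z)))))))))))))))))))))))))))))))))))))))))))))) z)))))) (n 129 (n 0 (n 175 (n 0 z (n 0 z (n 0 z
 (n 0 z (n 0 z (n 0 z (n 0 z (n 0 z z)))))))) (n 175 (n 0 z (n 0 z (n 0 z (n 0 z (n 0 z (n 0 z
 (n 0 z (n 0 z z)))))))) (n 147 (n 0 z (n 0 z (n 0 z (n 0 z (n 0 z (n 0 z (n 0 z (n 0 z (n 0 z
 (n 0 z (n 7745555 z (n 0 z (n 0 z (n 0 z z)))))))))))))) (n 147 (n 0 z (n 0 z (n 0 z (n 0 z (n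
 0 z (n 0 z (n 0 z (n 0 z (n 0 z (n 0 z (n 0 z (n 0 z (n 0 z (n 0 z z)))))))))))))) (n 17 (n 0 z
 (n 0 z (n 0 z (n 0 z (n 0 z (n 0 z (n 0 z (n 0 z (n 0 z (n 0 z (n 0 z (n 0 z (n 0 z (n 0 z (n 0
 z (n 0 z (n 0 z (n 0 z (n 0 z (n 0 z (n 0 z (n 0 z (n 0 z (n 0 z (n 0 z (n 0 z (n 0 z (n 0 z (n
 0 z (n 0 z (n 0 z (n 0 z (n 0 z (n 0 z (n 0 z (n 0 z (n 0 z (n 0 z (n 0 z (n 0 z (n 0 z (n 0 z
 (n 0 z (n 0 z (n 0 z (n 0 z (n 0 z (n 0 z (n 2 (n 0 z (n 0 z (n 0 z z))) (n 0 z (n 0 z (n 0 z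
 (n 0 z (n 0 z (n 0 z (n 0 z z)))))))))))))))))))))))))))))))))))))))))))))))))))))))) (n 17 (n
 0 z (n 0 z (n 0 z (n 0 z (n 0 z (n 0 z (n 0 z (n 0 z (n 0 z (n 0 z (n 0 z (n 0 z (n 0 z (n 0 z
 (n 0 z (n 0 z (n 0 z (n 0 z (n 0 z (n 0 z (n 0 z (n 0 z (n 0 z (n 0 z (n 0 z (n 0 z (n 0 z (n 0
 z (n 0 z (n 0 z (n 0 z (n 0 z (n 0 z (n 0 z (n 0 z (n 0 z (n 0 z (n 0 z (n 0 z (n 0 z (n 0 z (n
 0 z (n 0 z (n 0 z (n 0 z (n 0 z (n 0 z (n 0 z (n 0 z (n 0 z (n 0 z (n 0 z (n 0 z (n 0 z (n 0 z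
 (n 0 z z)))))))))))))))))))))))))))))))))))))))))))))))))))))))) (n 17 (n 0 z (n 0 z (n 0 z (n
 0 z (n 0 z (n 0 z (n 0 z (n 0 z (n 0 z (n 0 z (n 0 z (n 0 z (n 0 z (n 0 z (n 0 z (n 0 z (n 0 z
 (n 0 z (n 0 z (n 0 z (n 0 z (n 0 z (n 0 z (n 0 z (n 0 z (n 0 z (n 0 z (n 2 (n 0 z z) (n 0 z (n
 0 z (n 0 z (n 0 z (n 0 z (n 0 z (n 0 z (n 0 z (n 0 z (n 0 z (n 0 z (n 0 z (n 0 z (n 0 z (n 0 z
 (n 0 z (n 0 z (n 0 z (n 0 z (n 0 z (n 0 z (n 0 z (n 0 z (n 0 z (n 0 z (n 0 z (n 0 z (n 0 z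
 z)))))))))))))))))))))))))))))))))))))))))))))))))))))))) (n 17 (n 0 z (n 0 z (n 0 z (n 0 z (n
 0 z (n 0 z (n 0 z (n 0 z (n 0 z (n 0 z (n 0 z (n 0 z (n 0 z (n 0 z (n 0 z (n 0 z (n 0 z (n 0 z
 (n 0 z (n 0 z (n 0 z (n 0 z (n 0 z (n 0 z (n 0 z (n 0 z (n 0 z (n 0 z (n 0 z (n 0 z (n 0 z (n 0
 z (n 0 z (n 0 z (n 0 z (n 0 z (n 0 z (n 0 z (n 0 z (n 0 z (n 0 z (n 0 z (n 0 z (n 0 z (n 0 z (n
 0 z (n 0 z (n 0 z (n 0 z (n 0 z (n 0 z (n 0 z (n 0 z (n 0 z (n 0 z (n 0 z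
 z)))))))))))))))))))))))))))))))))))))))))))))))))))))))) z)))))))) (n 0 (n 0 z (n 1049 (n 0 z
 (n 0 z (n 0 z (n 0 z (n 0 z (n 2 (n 0 z (n 2 (n 0 (n 2036 z z) (n 0 z (n 0 z (n 0 (n 2036 z z)
 (n 0 (n 8722235 z (n 2036 z z)) (n 0 z z)))))) (n 2 (n 0 z (n 0 z (n 0 z (n 0 z (n 0 (n 8855811
 z (n 8855811 z z)) (n 0 (n 8855811 z z) z)))))) (n 2 (n 0 z (n 0 z (n 0 z (n 0 z (n 0 z (n 0 z
 z)))))) (n 2 (n 0 z (n 0 z (n 0 z (n 0 z (n 0 z (n 0 z z)))))) z))))) (n 0 z (n 0 z (n 0 z (n 0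
 z (n 0 z (n 0 z (n 0 z (n 0 z (n 0 z (n 0 z (n 0 z (n 0 z (n 0 z (n 0 z (n 0 z (n 0 z (n 0 z (n
 0 z (n 0 z (n 0 z (n 0 z (n 0 z (n 0 z (n 0 z (n 0 z (n 0 z (n 0 z (n 0 z (n 0 z (n 0 z (n 0 z
 (n 0 z (n 0 z (n 0 z (n 0 z (n 0 z (n 0 z (n 0 z (n 0 z (n 0 z
 z)))))))))))))))))))))))))))))))))))))))))))))) (n 1049 (n 0 z (n 0 z (n 0 z (n 0 z (n 0 z (n 0
 z (n 0 z (n 0 z (n 0 z (n 0 z (n 0 z (n 0 z (n 0 z (n 0 z (n 0 z (n 0 z (n 0 z (n 0 z (n 0 z (n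
 0 z (n 0 z (n 0 z (n 0 z (n 0 z (n 0 z (n 0 z (n 0 z (n 0 z (n 0 z (n 0 z (n 0 z (n 0 z (n 0 z
 (n 0 z (n 0 z (n 0 z (n 0 z (n 0 z (n 0 z (n 0 z (n 0 z (n 0 z (n 0 z (n 0 z (n 0 z (n 0 z
 z)))))))))))))))))))))))))))))))))))))))))))))) (n 509 (n 0 z (n 0 z (n 0 z (n 0 z (n 0 z (n 0
 z (n 0 z (n 0 z (n 0 z (n 0 z (n 0 z (n 0 z (n 0 z (n 0 z (n 0 z (n 0 z (n 0 z (n 0 z (n 0 z (n
 0 z (n 0 z (n 0 z (n 0 z (n 0 z (n 0 z (n 0 z (n 0 z (n 0 z (n 0 z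
 z))))))))))))))))))))))))))))) (n 509 (n 0 z (n 0 z (n 0 z (n 0 z (n 0 z (n 0 z (n 0 z (n 0 z
 (n 0 z (n 0 z (n 0 z (n 0 z (n 0 z (n 0 z (n 0 z (n 0 z (n 0 z (n 0 z (n 0 z (n 0 z (n 0 z (n 0
 z (n 0 z (n 0 z (n
 0xbb23b2181c29d91d88c0626ecac8460308654650303823b2b20180c09d8dd8c8060aca6ca640708631730201803b1b18100c1190d8c080e08ec8ec600700763763001803b2b21800c099498c800e1aea8c62007706982a6967e6c7b98738e509d682c9e4a89ad897f71a2778b6cae69b978928c808d645d7c9142498d7a916b9981929782ab7809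
 z (n 0 z (n 0 z (n 0 z (n 0 z z))))))))))))))))))))))))))))) (n 509 (n 0 z (n 0 z (n 0 z (n 0 z
 (n 0 z (n 0 z (n 0 z (n 0 z (n 0 z (n 0 z (n 0 z (n 0 z (n 0 z (n 0 z (n 0 z (n 0 z (n 0 z (n 0
 z (n 0 z (n 0 z (n 0 z (n 0 z (n 0 z (n 0 z (n 0 z (n 0 z (n 0 z (n 0 z (n 0 z
 z))))))))))))))))))))))))))))) (n 509 (n 0 z (n 0 z (n 0 z (n 0 z (n 0 z (n 0 z (n 0 z (n 0 z
 (n 0 z (n 0 z (n 0 z (n 0 z (n 0 z (n 0 z (n 0 z (n 0 z (n 0 z (n 0 z (n 0 z (n 0 z (n 0 z (n 0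
 z (n 0 z (n 0 z (n 0 z (n 0 z (n 0 z (n 0 z (n 0 z z))))))))))))))))))))))))))))) z))))))) (n 0
 (n 513 (n 0 z (n 0 z (n 2 (n 0 z (n 2 (n 0 z (n 0 z (n 0 z (n 0 z (n 0 z (n 0 z z)))))) (n 2 (n
 0 z (n 0 z (n 0 z (n 0 z (n 0 z (n 0 z z)))))) (n 2 (n 0 z (n 0 z (n 0 z (n 0 z (n 0 z (n 0 z
 z)))))) (n 2 (n 0 z (n 0 z (n 0 z (n 0 z (n 0 z (n 0 z z)))))) z))))) (n 0 z (n 0 z (n 0 z (n 0
 z (n 0 z (n 0 z (n 0 z (n 0 z z))))))))))) (n 513 (n 0 z (n 0 z (n 0 z (n 0 z (n 0 z (n 0 z (n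
 0 z (n 0 z (n 0 z (n 0 z (n 0 z z))))))))))) (n 53 (n 0 z (n 0 z (n 0 z (n 0 z (n 0 z (n 0 z (n
 0 z (n 0 z (n 0 z (n 0 z (n 0 z (n 0 z z)))))))))))) (n 53 (n 0 z (n 0 z (n 0 z (n 0 z (n 0 z
 (n 0 z (n 0 z (n 0 z (n 2 (n 0 z (n 0 z z)) (n 0 z (n 0 z (n 0 z z)))))))))))) (n 53 (n 0 z (n
 0 z (n 0 z (n 0 z (n 0 z (n 0 z (n 2 (n 0 z z) (n 0 z (n 0 z (n 0 z (n 0 z (n 0 z z))))))))))))
 (n 53 (n 0 z (n 0 z (n 0 z (n 0 z (n 0 z (n 0 z (n 0 z (n 0 z (n 0 z (n 0 z (n 0 z (n 0 z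
 z)))))))))))) z)))))) (n 0 (n 0 z (n 13 (n 0 z (n 0 z (n 0 z (n 0 z (n 0 z (n 0 z (n 0 z (n 0 z
 (n 0 z (n 0 z (n 0 z (n 0 z (n 0 z (n 0 z (n 0 z (n 0 z (n 0 z (n 0 z (n 0 z (n 0 z (n 0 z (n 0
 z (n 0 z (n 0 z (n 0 z (n 0 z (n 0 z (n 2 (n 0 z (n 0 z (n 0 z z))) (n 0 z (n 0 z (n 0 z (n 0 z
 (n 0 z (n 0 z (n 0 z (n 0 z (n 0 z (n 0 z (n 0 z (n 0 z (n 0 z (n 0 z (n 0 z (n 0 z (n 0 z (n 0
 z (n 0 z (n 0 z (n 0 z (n 0 z (n 0 z (n 0 z (n 0 z (n 0 z (n 0 z (n 0 z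
 z)))))))))))))))))))))))))))))))))))))))))))))))))))))))) (n 13 (n 0 z (n 0 z (n 0 z (n 0 z (n
 0 z (n 0 z (n 0 z (n 0 z (n 0 z (n 0 z (n 0 z (n 0 z (n 0 z (n 0 z (n 0 z (n 0 z (n 0 z (n 0 z
 (n 0 z (n 0 z (n 0 z (n 0 z (n 0 z (n 0 z (n 0 z (n 0 z (n 0 z (n 0 z (n 0 z (n 0 z (n 0 z (n 0
 z (n 0 z (n 0 z (n 0 z (n 0 z (n 0 z (n 0 z (n 0 z (n 0 z (n 0 z (n 0 z (n 0 z (n 0 z (n 0 z (n
 0 z (n 0 z (n 0 z (n 0 z (n 0 z (n 0 z (n 0 z (n 0 z (n 0 z (n 0 z (n 0 z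
 z)))))))))))))))))))))))))))))))))))))))))))))))))))))))) (n 13 (n 0 z (n 0 z (n 0 z (n 0 z (n
 0 z (n 0 z (n 0 z (n 0 z (n 0 z (n 0 z (n 0 z (n 0 z (n 0 z (n 0 z (n 0 z (n 0 z (n 0 z (n 0 z
 (n 0 z (n 0 z (n 0 z (n 0 z (n 0 z (n 0 z (n 0 z (n 0 z (n 0 z (n 0 z (n 0 z (n 0 z (n 0 z (n 0
 z (n 0 z (n 0 z (n 0 z (n 0 z (n 0 z (n 0 z (n 0 z (n 0 z (n 0 z (n 0 z (n 0 z (n 0 z (n 0 z (n
 0 z (n 0 z (n 0 z (n 2 (n 0 z z) (n 0 z (n 0 z (n 0 z (n 0 z (n 0 z (n 0 z (n 0 z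
 z)))))))))))))))))))))))))))))))))))))))))))))))))))))))) (n 13 (n 0 z (n 0 z (n 0 z (n 0 z (n
 0 z (n 0 z (n 0 z (n 0 z (n 0 z (n 0 z (n 0 z (n 0 z (n 0 z (n 0 z (n 0 z (n 0 z (n 0 z (n 0 z
 (n 0 z (n 0 z (n 0 z (n 0 z (n 0 z (n 0 z (n 0 z (n 0 z (n 0 z (n 0 z (n 0 z (n 0 z (n 0 z (n 0
 z (n 0 z (n 0 z (n 0 z (n 0 z (n 0 z (n 0 z (n 0 z (n 0 z (n 0 z (n 0 z (n 0 z (n 2 z (n 0 z (n
 0 z (n 0 z (n 0 z (n 0 z (n 0 z (n 0 z (n 0 z (n 0 z (n 0 z (n 0 z (n 0 z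
 z)))))))))))))))))))))))))))))))))))))))))))))))))))))))) z))))) (n 0 (n 49 (n 0 z (n 0 z (n 0
 z (n 0 z (n 0 z (n 0 z (n 0 z (n 0 z (n 0 z (n 0 z (n 0 z z))))))))))) (n 49 (n 0 z (n 0 z (n 0
 z (n 0 z (n 2 (n 0 z (n 0 z z)) (n 0 z (n 0 z (n 0 z (n 0 z (n 0 z (n 0 z z))))))))))) (n 49 (n
 0 z (n 0 z (n 0 z (n 0 z (n 0 z (n 0 z (n 0 z (n 0 z (n 0 z (n 0 z (n 0 z z))))))))))) (n 49 (n
 0 z (n 0 z (n 0 z (n 0 z (n 0 z (n 0 z (n 0 z (n 0 z (n 0 z (n 0 z (n 0 z z))))))))))) z)))) (n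
 0 (n 0 z (n 0 z (n 0 z z))) (n 0 (n 0 z (n 0 z z)) (n 0 (n 0 z z) (n 0 z z))))))))) (n 0 (n 0 z
 (n 1 (n 6627651 z (n 6635811 z (n 6627651 z (n 6627651 z (n 6627651 z (n 6627651 z z)))))) (n 0
 z (n 0 z (n 0 z (n 0 z (n 0 z z))))))) (n 0 z z)))) (n
 0xdab54666ba2564dc33aa31ab510ac9883a5c22c2a3d83494a0948b05ac5ea033730117480a5640 (n 0 (n 183 (n
 0 z (n 2 z (n 10 z (n 18 z (n 6627395 z (n 26 z z)))))) (n 249 (n 0 z (n 0 z (n 0 z (n 0 z (n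
 6562099 z (n 0 z z)))))) (n 129 (n 0 z (n 0 z (n 6566419 z (n 0 z (n 0 z (n 0 z (n 34 z (n 0 z
 (n 42 z (n 0 z (n 50 z (n 0 z (n 0 z (n 6566419 z z)))))))))))))) (n 3 (n 0 z (n 0 z (n 0 z (n
 6566419 z z)))) (n 1 (n 58 z (n 66 z (n 74 z (n 82 z (n 0 z (n 6566419 z (n 0 z (n 0 z (n 90 z
 z))))))))) (n 0 (n 0 z (n 0 z (n 0 z (n 98 z (n 6627395 z (n 106 z (n 0 z (n 0 z (n 114 z
 z))))))))) z)))))) (n 3 (n 0 (n 0 z (n 0 z (n 0 z (n 47 (n 0 z (n 2 (n 0 z (n 0 z (n 1 z (n 1 z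
 (n 1 z (n 1 z (n 1 z (n 1 z (n 1 z (n 1 z z)))))))))) (n 0 z (n 0 z (n 0 z (n 0 z (n 0 z
 z))))))) (n 47 (n 0 z (n 0 z (n 0 z (n 0 z (n 0 z (n 0 z (n 0 z z))))))) (n 47 (n 0 z (n 0 z (n
 0 z (n 0 z (n 0 z (n 0 z (n 2 (n 2 (n 0 (n 972 z z) (n 0 z (n 0 z (n 0 (n 8804123 z (n 972 z
 z)) (n 0 (n 972 z z) (n 0 z z)))))) (n 2 (n 0 z (n 0 z (n 0 z (n 0 (n 972 z z) (n 0 z (n 0 z
 z)))))) (n 2 (n 0 z (n 0 z (n 0 z (n 0 z (n 0 z (n 0 z z)))))) (n 2 (n 0 z (n 0 z (n 0 z (n 0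
 (n 3213435 z z) (n 0 z (n 0 z z)))))) (n 2 (n 0 z (n 0 z (n 0 z (n 0 z (n 0 z (n 0 z z)))))) (n
 2 (n 0 z (n 0 z (n 0 z (n 0 z (n 0 z (n 0 z z)))))) (n 2 (n 0 z (n 0 z (n 0 z (n 0 z (n 0 z (n
 0 z z)))))) (n 2 (n 0 z (n 0 z (n 0 z (n 0 z (n 0 z (n 0 z z)))))) z)))))))) z))))))) (n 243 (n
 0 z (n 0 z (n 0 z (n 0 z (n 0 z (n 0 z (n 0 z (n 0 z (n 0 z (n 0 z z)))))))))) (n 243 (n 0 z (n
 0 z (n 0 z (n 0 z (n 0 z (n 0 z (n 0 z (n 0 z (n 0 z (n 0 z z)))))))))) (n 243 (n 0 z (n 0 z (n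
 0 z (n 0 z (n 0 z (n 0 z (n 0 z (n 0 z (n 0 z (n 0 z z)))))))))) (n 243 (n 0 z (n 0 z (n 2 (n 0
 z (n 2 (n 0 z (n 0 z (n 0 z (n 0 z (n 0 z (n 0 z z)))))) (n 2 (n 0 z (n 0 z (n 0 z (n 0 z (n 0
 z (n 0 z z)))))) (n 2 (n 0 z (n 0 z (n 0 z (n 0 (n 2164859 z z) (n 0 z (n 0 z z)))))) z)))) (n
 0 z (n 0 z (n 0 z (n 0 z (n 0 z (n 0 z (n 0 z z)))))))))) (n 243 (n 0 z (n 0 z (n 0 z (n 0 z (n
 0 z (n 0 z (n 0 z (n 0 z (n 0 z (n 2 (n 2 (n 0 z (n 0 (n 3283051 z z) (n 0 z (n 0 (n 3283051 z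
 (n 3283051 z z)) (n 0 (n 3283051 z z) (n 0 z z)))))) (n 2 (n 0 z (n 0 z (n 0 z (n 0 z (n 0 z (n
 0 z z)))))) (n 1 z z))) z)))))))))) (n 245 (n 0 z (n 0 z (n 0 z (n 0 z (n 0 z (n 0 z (n 0 z (n
 0 z (n 0 z (n 0 z (n 0 z (n 0 z z)))))))))))) (n 245 (n 0 z (n 0 z (n 0 z (n 0 z (n 0 z (n 0 z
 (n 0 z (n 0 z (n 0 z (n 0 z (n 0 z (n 0 z z)))))))))))) (n 245 (n 0 z (n 0 z (n 0 z (n 0 z (n 0
 z (n 0 z (n 0 z (n 0 z (n 0 z (n 0 z (n 0 z (n 0 z z)))))))))))) z)))))))))))))) (n 0 (n 0 z (n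
 0 z (n 35 (n 0 z (n 0 z (n 0 z (n 0 z (n 0 z (n 0 z (n 0 z (n 0 z (n 0 z (n 0 z (n 0 z
 z))))))))))) (n 35 (n 0 z (n 0 z (n 0 z (n 0 z (n 0 z (n 2 (n 0 z (n 1 z (n 1 z (n 1 z (n 1 z
 (n 1 z (n 1 z (n 1 z (n 1 z z))))))))) (n 0 z (n 0 z (n 0 z (n 0 z (n 0 z z))))))))))) (n 35 (n
 0 z (n 0 z (n 0 z (n 0 z (n 0 z (n 0 z (n 0 z (n 0 z (n 0 z (n 2 (n 2 (n 0 z (n 0 z (n 0 z (n 0
 (n 1020 z z) (n 0 z (n 0 z z)))))) (n 1 z (n 1 z (n 1 z (n 1 z (n 2 (n 0 z (n 0 z (n 0 z (n 0 z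
 (n 0 z (n 0 z z)))))) (n 2 (n 0 z (n 0 z (n 0 z (n 0 z (n 0 z (n 0 z z)))))) (n 1 z z))))))))
 (n 0 z z))))))))))) (n 255 (n 2 (n 0 z (n 0 z (n 0 z (n 0 z (n 1 z (n 1 z (n 1 z z))))))) (n 0
 z (n 0 z (n 0 z (n 0 z (n 0 z (n 0 z (n 0 z (n 0 z (n 0 z z)))))))))) (n 255 (n 0 z (n 0 z (n 0
 z (n 0 z (n 0 z (n 0 z (n 0 z (n 0 z (n 0 z (n 0 z z)))))))))) (n 255 (n 0 z (n 0 z (n 0 z (n 0
 z (n 0 z (n 0 z (n 0 z (n 0 z (n 0 z (n 0 z z)))))))))) (n 255 (n 0 z (n 2 (n 0 z (n 1 z (n 1 z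
 (n 1 z z)))) (n 0 z (n 0 z (n 0 z (n 0 z (n 0 z (n 0 z (n 0 z (n 0 z z)))))))))) (n 255 (n 0 z
 (n 0 z (n 0 z (n 0 z (n 0 z (n 0 z (n 0 z (n 0 z (n 2 (n 2 (n 0 z (n 0 z (n 0 z (n 0 z (n 0 z
 (n 0 z z)))))) (n 2 (n 0 z (n 0 z (n 0 z (n 0 z (n 0 z (n 0 z z)))))) (n 1 z z))) (n 0 z
 z)))))))))) (n 29 (n 0 z (n 0 z (n 0 z (n 0 z (n 0 z (n 0 z (n 0 z (n 0 z (n 0 z z))))))))) (n
 29 (n 0 z (n 0 z (n 0 z (n 0 z (n 0 z (n 0 z (n 0 z (n 0 z (n 0 z z))))))))) (n 29 (n 0 z (n 0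
 z (n 0 z (n 0 z (n 2 z (n 0 z (n 0 z (n 0 z (n 0 z z))))))))) z))))))))))))) (n 0 (n 0 z (n 967
 (n 0 z (n 0 z (n 0 z (n 0 z (n 2 (n 0 z (n 0 z (n 1 z (n 1 z (n 1 z (n 1 z (n 2 (n 0 z (n 0 z
 (n 0 z (n 0 z (n 0 z (n 0 z z)))))) (n 1 z (n 1 z (n 2 (n 0 z (n 0 z (n 0 z (n 0 z (n 0 z (n 0
 z z)))))) z)))))))))) (n 0 z (n 0 z (n 0 z (n 0 z (n 0 z (n 0 z (n 0 z (n 0 z (n 0 z
 z)))))))))))))) (n 967 (n 0 z (n 0 z (n 0 z (n 0 z (n 0 z (n 0 z (n 2 (n 0 z (n 1 z (n 1 z (n 1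
 z (n 2 (n 0 z (n 0 z (n 0 z (n 0 (n 1404 z z) (n 0 z (n 0 z z)))))) (n 2 (n 0 z (n 0 z (n 0 z
 (n 0 z (n 0 z (n 0 z z)))))) (n 2 (n 0 z (n 0 z (n 0 z (n 0 (n 8855811 z (n 8855811 z z)) (n 0
 z (n 0 (n 8855811 z z) z)))))) (n 2 (n 0 z (n 0 z (n 0 z (n 0 z (n 0 z (n 0 z z)))))) (n 2 (n 0
 z (n 0 z (n 0 z (n 0 z (n 0 z (n 0 z z)))))) z))))))))) (n 0 z (n 0 z (n 0 z (n 0 z (n 0 z (n 0
 z (n 0 z z)))))))))))))) (n 967 (n 0 z (n 0 z (n 0 z (n 0 z (n 0 z (n 0 z (n 0 z (n 0 z (n 0 z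
 (n 0 z (n 0 z (n 0 z (n 0 z (n 0 z z)))))))))))))) (n 351 (n 0 z (n 0 z (n 0 z (n 0 z (n 0 z (n
 0 z (n 0 z (n 0 z (n 0 z (n 0 z (n 0 z (n 0 z (n 0 z (n 0 z (n 0 z z))))))))))))))) (n 351 (n 0
 z (n 0 z (n 0 z (n 0 z (n 0 z (n 0 z (n 0 z (n 2 (n 0 z (n 0 z (n 0 z (n 2 (n 0 z (n 0 z (n 0 z
 (n 0 z (n 0 z (n 0 z z)))))) (n 1 z (n 2 (n 0 z (n 0 z (n 0 z (n 0 z (n 0 z (n 0 z z))))))
 z)))))) (n 0 z (n 0 z (n 0 z (n 0 z (n 0 z (n 0 z (n 0 z z))))))))))))))) (n 351 (n 0 z (n 0 z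
 (n 0 z (n 0 z (n 0 z (n 0 z (n 0 z (n 0 z (n 2 (n 0 z (n 0 z (n 1 z (n 1 z (n 1 z z))))) (n 0 z
 (n 0 z (n 0 z (n 0 z (n 0 z (n 0 z z))))))))))))))) (n 351 (n 0 z (n 0 z (n 0 z (n 0 z (n 0 z
 (n 0 z (n 0 z (n 0 z (n 0 z (n 0 z (n 0 z (n 0 z (n 0 z (n 0 z (n 0 z z))))))))))))))) (n 351
 (n 0 z (n 0 z (n 0 z (n 0 z (n 0 z (n 0 z (n 0 z (n 0 z (n 0 z (n 0 z (n 0 z (n 0 z (n 0 z (n 0
 z (n 0 z z))))))))))))))) (n 965 (n 0 z (n 2 (n 0 z (n 0 z z)) (n 0 z (n 0 z (n 0 z (n 0 z (n 0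
 z (n 0 z (n 0 z z))))))))) (n 965 (n 0 z (n 0 z (n 0 z (n 0 z (n 0 z (n 0 z (n 0 z (n 0 z (n 0
 z z))))))))) (n 965 (n 0 z (n 0 z (n 0 z (n 0 z (n 0 z (n 0 z (n 0 z (n 0 z (n 0 z z)))))))))
 z)))))))))))) (n 0 (n 987 (n 0 z (n 2 (n 0 z (n 0 z (n 2 (n 0 z (n 0 z (n 0 z (n 0 z (n 0 z (n
 0 z z)))))) (n 1 z (n 2 (n 0 z (n 0 z (n 0 z (n 0 z (n 0 z (n 0 z z)))))) (n 1 z (n 2 (n 0 z (n
 0 z (n 0 z (n 0 z (n 0 z (n 0 z z)))))) (n 2 (n 0 z (n 0 z (n 0 z (n 0 z (n 0 z (n 0 z z))))))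
 (n 2 (n 0 z (n 0 z (n 0 z (n 0 z (n 0 z (n 0 z z)))))) (n 2 (n 0 z (n 0 z (n 0 z (n 0 z (n 0 z
 (n 0 z z)))))) z)))))))))) (n 0 z (n 0 z (n 0 z (n 0 z (n 0 z (n 0 z (n 0 z z))))))))) (n 987
 (n 0 z (n 0 z (n 2 (n 0 z (n 2 (n 0 z (n 0 z (n 0 z (n 0 z (n 0 z (n 0 z z)))))) (n 2 (n 0 z (n
 0 z (n 0 z (n 0 z (n 0 z (n 0 z z)))))) (n 2 (n 0 z (n 0 z (n 0 z (n 0 z (n 0 z (n 0 z z))))))
 (n 2 (n 0 z (n 0 z (n 0 z (n 0 z (n 0 z (n 0 z z)))))) (n 2 (n 0 z (n 0 z (n 0 z (n 0 z (n 0 z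
 (n 0 z z)))))) (n 2 (n 0 (n 8855811 z z) (n 0 z (n 0 z (n 0 (n 8855811 z (n 8855811 z z)) (n 0
 (n 8855811 z z) (n 0 z z)))))) (n 2 (n 0 z (n 0 z (n 0 z (n 0 z (n 0 z (n 0 z z)))))) (n 2 (n 0
 z (n 0 z (n 0 z (n 0 z (n 0 z (n 0 z z)))))) z))))))))) (n 0 z (n 0 z (n 0 z (n 0 z (n 0 z (n 0
 z z))))))))) (n 987 (n 0 z (n 0 z (n 0 z (n 0 z (n 0 z (n 0 z (n 0 z (n 0 z (n 0 z z)))))))))
 (n 783 (n 0 z (n 0 z (n 0 z (n 0 z (n 0 z (n 0 z (n 0 z (n 0 z (n 0 z (n 0 z (n 0 z (n 0 z (n 0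
 z (n 0 z (n 0 z (n 0 z z)))))))))))))))) (n 783 (n 0 z (n 0 z (n 0 z (n 0 z (n 0 z (n 0 z (n 2
 (n 0 z (n 0 z (n 0 z (n 2 (n 0 z (n 0 z (n 0 z (n 0 z (n 0 z (n 0 z z)))))) (n 1 z (n 2 (n 0 z
 (n 0 z (n 0 z (n 0 z (n 0 z (n 0 z z)))))) z)))))) (n 0 z (n 0 z (n 0 z (n 0 z (n 0 z (n 0 z (n
 0 z (n 0 z (n 0 z z)))))))))))))))) (n 783 (n 0 z (n 0 z (n 0 z (n 0 z (n 0 z (n 0 z (n 0 z (n
 0 z (n 2 (n 0 z (n 0 z (n 2 (n 0 z (n 0 z (n 0 z (n 0 z (n 0 z (n 0 z z)))))) (n 2 (n 0 z (n 0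
 z (n 0 z (n 0 z (n 0 z (n 0 z z)))))) (n 2 (n 0 z (n 0 z (n 0 z (n 0 z (n 0 z (n 0 z z))))))
 z))))) (n 0 z (n 0 z (n 0 z (n 0 z (n 0 z (n 0 z (n 0 z z)))))))))))))))) (n 783 (n 0 z (n 0 z
 (n 0 z (n 0 z (n 0 z (n 0 z (n 0 z (n 0 z (n 0 z (n 0 z (n 0 z (n 0 z (n 0 z (n 0 z (n 0 z (n 0
 z z)))))))))))))))) (n 783 (n 0 z (n 0 z (n 0 z (n 0 z (n 0 z (n 0 z (n 0 z (n 0 z (n 0 z (n 0
 z (n 0 z (n 0 z (n 0 z (n 0 z (n 0 z (n 0 z z)))))))))))))))) (n 985 (n 0 z (n 0 z (n 0 z (n 0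
 z (n 0 z (n 0 z (n 0 z (n 0 z (n 0 z z))))))))) (n 985 (n 0 z (n 0 z (n 0 z (n 0 z (n 0 z (n 0
 z (n 0 z (n 0 z (n 0 z z))))))))) (n 985 (n 0 z (n 0 z (n 0 z (n 0 z (n 0 z (n 0 z (n 0 z (n 0
 z (n 0 z z))))))))) z))))))))))) (n 0 (n 0 z (n 0 z (n 291 (n 2 (n 0 z (n 0 z (n 0 z (n 0 z (n
 1 z (n 1 z (n 2 (n 0 z (n 0 z (n 0 z (n 0 (n 2212 z z) (n 0 z (n 0 z z)))))) z))))))) (n 0 z (n
 0 z (n 0 z (n 0 z (n 0 z (n 0 z (n 0 z (n 0 z z))))))))) (n 291 (n 0 z (n 0 z (n 0 z (n 0 z (n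
 0 z (n 0 z (n 0 z (n 0 z (n 0 z z))))))))) (n 291 (n 0 z (n 2 (n 0 z (n 0 z (n 1 z (n 1 z (n 1
 z z))))) (n 0 z (n 0 z (n 0 z (n 0 z (n 0 z (n 0 z (n 0 z z))))))))) (n 291 (n 0 z (n 0 z (n 0
 z (n 0 z (n 0 z (n 0 z (n 0 z (n 0 z (n 0 z z))))))))) (n 291 (n 0 z (n 0 z (n 0 z (n 0 z (n 0
 z (n 0 z (n 0 z (n 0 z (n 2 (n 2 (n 0 z (n 0 z (n 0 z (n 0 z (n 0 z (n 0 z z)))))) (n 2 (n 0 z
 (n 0 z (n 0 z (n 0 z (n 0 z (n 0 z z)))))) (n 1 z z))) z))))))))) (n 553 (n 0 z (n 0 z (n 0 z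
 (n 0 z (n 0 z (n 0 z (n 0 z (n 0 z (n 0 z (n 0 z (n 0 z (n 0 z (n 2 (n 0 z (n 0 z z)) (n 0 z (n
 0 z (n 0 z (n 0 z (n 0 z (n 0 z (n 0 z (n 0 z (n 0 z z)))))))))))))))))))))) (n 553 (n 0 z (n 0
 z (n 0 z (n 0 z (n 0 z (n 0 z (n 0 z (n 0 z (n 0 z (n 0 z (n 0 z (n 0 z (n 0 z (n 0 z (n 0 z (n
 0 z (n 0 z (n 0 z (n 0 z (n 0 z (n 0 z (n 0 z z)))))))))))))))))))))) (n 553 (n 0 z (n 0 z (n 0
 z (n 0 z (n 0 z (n 0 z (n 0 z (n 0 z (n 0 z (n 0 z (n 0 z (n 0 z (n 0 z (n 0 z (n 0 z (n 0 z (n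
 0 z (n 2 z (n 0 z (n 0 z (n 0 z (n 0 z z)))))))))))))))))))))) z)))))))))) (n 0 (n 0 z (n 243
 (n 0 z (n 0 z (n 0 z (n 0 z (n 0 z (n 0 z (n 0 z (n 0 z (n 0 z (n 0 z (n 0 z (n 0 z (n 0 z (n 0
 z (n 0 z (n 0 z (n 0 z (n 0 z (n 0 z z))))))))))))))))))) (n 243 (n 0 z (n 0 z (n 2 (n 0 z (n 0
 z (n 0 z (n 1 z (n 1 z (n 1 z z)))))) (n 0 z (n 0 z (n 0 z (n 0 z (n 0 z (n 0 z (n 0 z (n 0 z
 (n 0 z (n 0 z (n 0 z (n 0 z (n 0 z (n 0 z (n 0 z (n 0 z z))))))))))))))))))) (n 243 (n 0 z (n 0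
 z (n 0 z (n 0 z (n 0 z (n 0 z (n 0 z (n 0 z (n 0 z (n 0 z (n 0 z (n 0 z (n 0 z (n 0 z (n 0 z (n
 0 z (n 0 z (n 0 z (n 0 z z))))))))))))))))))) (n 243 (n 0 z (n 0 z (n 0 z (n 0 z (n 0 z (n 0 z
 (n 0 z (n 0 z (n 2 (n 0 z (n 2 (n 0 z (n 0 z (n 0 z (n 0 z (n 0 z (n 0 z z)))))) (n 2 (n 0 z (n
 0 z (n 0 z (n 0 z (n 0 z (n 0 z z)))))) (n 2 (n 0 z (n 0 z (n 0 z (n 0 z (n 0 z (n 0 z z))))))
 z)))) (n 0 z (n 0 z (n 0 z (n 0 z (n 0 z (n 0 z (n 0 z (n 0 z (n 0 z (n 0 z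
 z))))))))))))))))))) (n 243 (n 0 z (n 0 z (n 0 z (n 0 z (n 0 z (n 0 z (n 0 z (n 0 z (n 0 z (n 0
 z (n 0 z (n 0 z (n 0 z (n 0 z (n 0 z (n 0 z (n 0 z (n 0 z (n 2 (n 2 (n 0 z (n 0 (n 8790275 z z)
 (n 0 z (n 0 (n 8790275 z (n 8790275 z z)) (n 0 (n 8790275 z z) (n 0 z z)))))) (n 2 (n 0 z (n 0
 z (n 0 z (n 0 z (n 0 z (n 0 z z)))))) (n 2 (n 0 z (n 0 z (n 0 z (n 0 (n 964 z z) (n 0 z (n 0 z
 z)))))) z))) z))))))))))))))))))) (n 241 (n 0 z (n 0 z (n 0 z (n 0 z (n 0 z (n 0 z (n 0 z (n 0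
 z (n 0 z (n 0 z (n 0 z (n 0 z (n 0 z (n 0 z (n 0 z (n 0 z (n 0 z (n 0 z (n 0 z (n 0 z (n 0 z (n
 0 z (n 0 z (n 0 z (n 0 z (n 0 z (n 0 z (n 0 z (n 0 z (n 0 z (n 0 z (n 0 z (n 0 z
 z))))))))))))))))))))))))))))))))) (n 241 (n 0 z (n 0 z (n 0 z (n 0 z (n 0 z (n 0 z (n 0 z (n 0
 z (n 0 z (n 0 z (n 0 z (n 0 z (n 0 z (n 0 z (n 0 z (n 0 z (n 0 z (n 0 z (n 0 z (n 0 z (n 0 z (n
 0 z (n 0 z (n 0 z (n 0 z (n 0 z (n 0 z (n 0 z (n 0 z (n 0 z (n 0 z (n 0 z (n 0 z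
 z))))))))))))))))))))))))))))))))) (n 241 (n 0 z (n 0 z (n 0 z (n 0 z (n 0 z (n 0 z (n 0 z (n 0
 z (n 0 z (n 0 z (n 0 z (n 0 z (n 0 z (n 0 z (n 0 z (n 0 z (n 0 z (n 0 z (n 0 z (n 0 z (n 0 z (n
 0 z (n 0 z (n 0 z (n 0 z (n 0 z (n 0 z (n 0 z (n 0 z (n 0 z (n 0 z (n 2 z (n 0 z
 z))))))))))))))))))))))))))))))))) z))))))))) (n 0 (n 255 (n 2 (n 0 z (n 0 z (n 0 z (n 0 z (n 2
 (n 0 (n 1061 z z) (n 0 z (n 0 z (n 0 (n 8787723 z (n 1028 z z)) (n 0 (n 1028 z z) (n 0 z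
 z)))))) (n 2 (n 0 z (n 0 z (n 0 z (n 0 z (n 0 z (n 0 z z)))))) (n 1 z z))))))) (n 0 z (n 0 z (n
 0 z (n 0 z (n 0 z (n 0 z (n 0 z z)))))))) (n 255 (n 0 z (n 0 z (n 0 z (n 0 z (n 0 z (n 0 z (n 0
 z (n 0 z z)))))))) (n 255 (n 0 z (n 0 z (n 2 (n 0 z (n 0 z (n 2 (n 0 z (n 0 z (n 0 z (n 0 z (n
 0 z (n 0 z z)))))) (n 2 (n 0 z (n 0 z (n 0 z (n 0 z (n 0 z (n 0 z z)))))) (n 2 (n 0 z (n 0 z (n
 0 z (n 0 z (n 0 z (n 0 z z)))))) z))))) (n 0 z (n 0 z (n 0 z (n 0 z (n 0 z z)))))))) (n 255 (n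
 0 z (n 0 z (n 0 z (n 0 z (n 0 z (n 0 z (n 0 z (n 0 z z)))))))) (n 255 (n 0 z (n 0 z (n 0 z (n 0
 z (n 0 z (n 2 (n 2 (n 0 z (n 0 z (n 0 z (n 0 z (n 0 z (n 0 z z)))))) (n 1 z (n 1 z z))) (n 0 z
 (n 0 z z)))))))) (n 257 (n 2 (n 0 z (n 0 z z)) (n 0 z (n 0 z (n 0 z (n 0 z (n 0 z (n 0 z (n 0 z
 (n 0 z (n 0 z z)))))))))) (n 257 (n 0 z (n 0 z (n 0 z (n 0 z (n 0 z (n 0 z (n 0 z (n 0 z (n 0 z
 (n 2 (n 0 z z) z)))))))))) (n 257 (n 0 z (n 0 z (n 0 z (n 0 z (n 0 z (n 0 z (n 0 z (n 0 z (n 0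
 z (n 0 z z)))))))))) z)))))))) (n 0 (n 0 z (n 0 z (n 0 z (n 0 z (n 265 (n 0 z (n 0 z (n 0 z (n
 0 z (n 0 z (n 0 z (n 0 z (n 0 z (n 0 z (n 0 z (n 0 z z))))))))))) (n 265 (n 0 z (n 0 z (n 0 z
 (n 2 (n 0 z z) (n 0 z (n 0 z (n 0 z (n 0 z (n 0 z (n 0 z (n 0 z z))))))))))) (n 265 (n 0 z (n 0
 z (n 0 z (n 0 z (n 0 z (n 0 z (n 0 z (n 0 z (n 0 z (n 2 z (n 0 z z))))))))))) z))))))) (n 0 (n
 0 z (n 0 z (n 0 z (n 5 (n 0 z (n 0 z (n 0 z (n 0 z (n 0 z (n 0 z (n 0 z (n 0 z (n 0 z (n 0 z (n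
 0 z (n 0 z (n 0 z (n 0 z (n 0 z (n 0 z (n 0 z (n 0 z (n 0 z (n 0 z (n 0 z (n 0 z
 z)))))))))))))))))))))) (n 5 (n 0 z (n 0 z (n 0 z (n 0 z (n 0 z (n 0 z (n 0 z (n 0 z (n 0 z (n
 0 z (n 0 z (n 0 z (n 0 z (n 0 z (n 0 z (n 0 z (n 0 z (n 0 z (n 0 z (n 0 z (n 0 z (n 0 z
 z)))))))))))))))))))))) (n 5 (n 0 z (n 0 z (n 0 z (n 0 z (n 0 z (n 0 z (n 0 z (n 0 z (n 0 z (n
 0 z (n 0 z (n 0 z (n 0 z (n 0 z (n 0 z (n 0 z (n 0 z (n 0 z (n 0 z (n 0 z (n 2 z (n 0 z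
 z)))))))))))))))))))))) z)))))) (n 0 (n 0 z (n 0 z (n 25 (n 0 z (n 0 z (n 0 z (n 0 z (n 0 z (n
 0 z (n 0 z (n 0 z (n 0 z (n 0 z (n 0 z (n 0 z (n 0 z (n 0 z (n 0 z (n 0 z (n 0 z (n 0 z (n 0 z
 (n 0 z (n 0 z z))))))))))))))))))))) (n 25 (n 0 z (n 0 z (n 0 z (n 0 z (n 0 z (n 0 z (n 0 z (n
 0 z (n 0 z (n
 0x4a7607208a281d9e88d971b8217dfa608228558e57e271991f95c69b8da95d8e58207a28a29229a30041 z (n 0 z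
 (n 0 z (n 0 z (n 0 z (n 0 z (n 0 z (n 0 z (n 0 z (n 0 z (n 0 z (n 0 z z))))))))))))))))))))) (n
 25 (n 0 z (n 0 z (n 0 z (n 0 z (n 0 z (n 0 z (n 0 z (n 0 z (n 0 z (n 0 z (n 0 z (n 0 z (n 0 z
 (n 0 z (n 0 z (n 0 z (n 0 z (n 0 z (n 0 z (n 2 z (n 0 z z))))))))))))))))))))) z))))) (n 0 (n 0
 z (n 5 (n 0 z (n 0 z (n 0 z (n 0 z (n 2 (n 0 z (n 0 z z)) (n 0 z (n 0 z (n 0 z (n 0 z (n 0 z (n
 0 z z))))))))))) (n 5 (n 0 z (n 0 z (n 0 z (n 2 (n 0 z z) (n 0 z (n 0 z (n 0 z (n 0 z (n 0 z (n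
 0 z (n 0 z z))))))))))) (n 5 (n 0 z (n 0 z (n 0 z (n 0 z (n 0 z (n 0 z (n 0 z (n 0 z (n 0 z (n
 0 z (n 0 z z))))))))))) z)))) (n 0 (n 53 (n 0 z (n 0 z (n 0 z (n 0 z (n 0 z (n 0 z (n 0 z (n 2
 (n 0 z (n 0 z z)) (n 0 z (n 0 z (n 0 z z))))))))))) (n 53 (n 0 z (n 0 z (n 2 (n 0 z z) (n 0 z
 (n 0 z (n 0 z (n 0 z (n 0 z (n 0 z (n 0 z (n 0 z z))))))))))) (n 53 (n 0 z (n 0 z (n 0 z (n 0 z
 (n 0 z (n 0 z (n 0 z (n 0 z (n 0 z (n 0 z (n 0 z z))))))))))) z))) (n 0 (n 0 z (n 0 z z)) (n 0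
 (n 0 z z) (n 0 z z))))))))))))))) (n 0 (n 0 z (n 0 z (n 0 z (n 1 (n 6566419 z (n 6566419 z (n
 6566419 z (n 6566419 z (n 6566419 z (n 6566419 z z)))))) z)))) (n 0 z z)))) (n
 0x1a6968b0c345309a2636512d32e10c334c2c536172328316b042ae8255a6221 (n 0 (n 203 (n 3282443 z (n 0
 z (n 0 z (n 0 z (n 0 z z))))) (n 255 (n 0 z (n 0 z (n 0 z (n 0 z (n 0 z (n 6627651 z (n 0 z (n
 0 z (n 0 z (n 0 z (n 2 z z))))))))))) (n 137 (n 10 z (n 18 z (n 26 z (n 6628379 z (n 6636051 z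
 (n 34 z (n 42 z z))))))) (n 3 (n 0 z (n 0 z (n 0 z (n 0 z (n 2164283 z z))))) (n 1 (n 0 z (n 0
 z (n 6636051 z (n 0 z (n 0 z (n 0 z (n 0 z (n 0 z (n 0 z (n 0 z (n 0 z (n 50 z (n 0 z
 z))))))))))))) (n 0 (n 6636051 z (n 58 z (n 66 z (n 74 z (n 0 z (n 82 z (n 90 z (n 6628379 z
 z)))))))) z)))))) (n 203 (n 0 (n 1155 (n 0 z (n 0 z (n 0 z (n 0 z (n 0 z (n 0 z (n 0 z (n 0 z
 (n 0 z (n 0 z (n 0 z (n 0 z (n 0 z (n 0 z (n 0 z (n 0 z (n 0 z (n 0 z (n 0 z (n 0 z (n 0 z (n 0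
 z z)))))))))))))))))))))) (n 1155 (n 0 z (n 0 z (n 0 z (n 0 z (n 0 z (n 0 z (n 2 (n 0 z (n 0 z
 (n 0 z (n 1 z (n 1 z (n 1 z (n 2 (n 0 z (n 0 z (n 0 z (n 0 z (n 0 z (n 0 z z)))))) (n 1 z (n 1
 z z))))))))) (n 0 z (n 0 z (n 0 z (n 0 z (n 0 z (n 0 z (n 0 z (n 0 z (n 0 z (n 0 z (n 0 z (n 0
 z (n 0 z (n 0 z (n 0 z z)))))))))))))))))))))) (n 1155 (n 0 z (n 0 z (n 0 z (n 0 z (n 0 z (n 0
 z (n 0 z (n 0 z (n 0 z (n 0 z (n 0 z (n 0 z (n 0 z (n 0 z (n 0 z (n 0 z (n 0 z (n 0 z (n 0 z (n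
 0 z (n 0 z (n 0 z z)))))))))))))))))))))) (n 1155 (n 0 z (n 0 z (n 0 z (n 0 z (n 0 z (n 0 z (n
 0 z (n 0 z (n 0 z (n 0 z (n 0 z (n 0 z (n 0 z (n 0 z (n 0 z (n 0 z (n 0 z (n 0 z (n 0 z (n 0 z
 (n 0 z (n 0 z z)))))))))))))))))))))) (n 1155 (n 0 z (n 0 z (n 0 z (n 0 z (n 0 z (n 0 z (n 0 z
 (n 0 z (n 0 z (n 0 z (n 0 z (n 0 z (n 0 z (n 0 z (n 0 z (n 0 z (n 0 z (n 0 z (n 0 z (n 0 z (n 0
 z (n 0 z z)))))))))))))))))))))) (n 483 (n 0 z (n 0 z (n 0 z (n 0 z z)))) (n 485 (n 0 z (n 0 z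
 (n 0 z (n 0 z (n 0 z (n 0 z (n 0 z (n 0 z z)))))))) (n 485 (n 0 z (n 0 z (n 0 z (n 0 z (n 0 z
 (n 0 z (n 0 z (n 0 z z)))))))) (n 485 (n 0 z (n 0 z (n 0 z (n 0 z (n 0 z (n 0 z (n 0 z (n 0 z
 z)))))))) (n 485 (n 0 z (n 0 z (n 2 (n 0 z z) (n 0 z (n 0 z (n 0 z (n 0 z (n 0 z z)))))))) (n
 485 (n 0 z (n 0 z (n 0 z (n 0 z (n 0 z (n 0 z (n 0 z (n 0 z z)))))))) z))))))))))) (n 0 (n 0 z
 (n 0 z (n 0 z (n 0 z (n 21 (n 0 z (n 0 z (n 0 z (n 0 z (n 0 z (n 0 z (n 0 z (n 0 z (n 0 z (n 0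
 z (n 0 z (n 0 z z)))))))))))) (n 269 (n 0 z (n 0 z (n 0 z (n 0 z (n 0 z (n 0 z (n 0 z z)))))))
 (n 269 (n 0 z (n 0 z (n 0 z (n 0 z (n 0 z (n 0 z (n 0 z z))))))) (n 269 (n 0 z (n 2 (n 0 z (n 0
 z z)) (n 0 z (n 0 z (n 0 z (n 0 z (n 0 z z))))))) (n 269 (n 0 z (n 0 z (n 0 z (n 0 z (n 0 z (n
 0 z (n 0 z z))))))) (n 269 (n 0 z (n 0 z (n 0 z (n 0 z (n 0 z (n 0 z (n 0 z z)))))))
 z)))))))))) (n 0 (n 0 z (n 0 z (n 0 z (n 3 (n 0 z (n 0 z (n 0 z (n 0 z (n 0 z (n 0 z (n 0 z (n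
 0 z z)))))))) (n 1 (n 0 z (n 0 z (n 0 z (n 0 z (n 0 z (n 0 z (n 0 z (n 0 z (n 0 z z))))))))) (n
 1 (n 0 z (n 0 z (n 0 z (n 0 z (n 0 z (n 0 z (n 0 z (n 0 z (n 0 z z))))))))) (n 1 (n 0 z (n 0 z
 (n 0 z (n 0 z (n 0 z (n 0 z (n 0 z (n 0 z (n 0 z z))))))))) (n 1 (n 0 z (n 0 z (n 0 z (n 0 z (n
 0 z (n 0 z (n 0 z (n 0 z (n 0 z z))))))))) (n 1 (n 0 z (n 0 z (n 0 z (n 0 z (n 0 z (n 0 z (n 0
 z (n 0 z (n 0 z z))))))))) z))))))))) (n 0 (n 0 z (n 0 z (n 565 (n 0 z (n 0 z (n 0 z (n 0 z (n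
 0 z (n 0 z z)))))) (n 245 (n 0 z (n 0 z (n 0 z (n 0 z (n 0 z (n 0 z (n 0 z (n 0 z (n 0 z
 z))))))))) (n 245 (n 0 z (n 0 z (n 0 z (n 0 z (n 0 z (n 0 z (n 0 z (n 0 z (n 0 z z))))))))) (n
 245 (n 2 (n 0 z (n 0 z z)) (n 0 z (n 0 z (n 0 z (n 0 z (n 0 z (n 0 z (n 0 z (n 0 z z)))))))))
 (n 245 (n 0 z (n 0 z (n 0 z (n 0 z (n 0 z (n 0 z (n 0 z (n 0 z (n 0 z z))))))))) (n 245 (n 0 z
 (n 0 z (n 0 z (n 0 z (n 0 z (n 0 z (n 0 z (n 0 z (n 0 z z))))))))) z)))))))) (n 0 (n 0 z (n 21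
 (n 0 z (n 0 z (n 0 z (n 0 z (n 0 z z))))) (n 269 (n 0 z (n 2 (n 0 z (n 0 z (n 0 z (n 0 z z))))
 (n 0 z (n 0 z (n 0 z z))))) (n 269 (n 0 z (n 0 z (n 0 z (n 0 z (n 0 z z))))) (n 269 (n 0 z (n 0
 z (n 0 z (n 0 z (n 0 z z))))) (n 269 (n 0 z (n 0 z (n 0 z (n 0 z (n 0 z z))))) (n 269 (n 2 z (n
 0 z (n 0 z (n 0 z (n 0 z z))))) z))))))) (n 0 (n 15 (n 0 z (n 0 z (n 0 z (n 0 z (n 0 z (n 0 z
 (n 0 z (n 0 z (n 2 (n 1 z (n 1 z (n 2 (n 0 z (n 0 z (n 0 z (n 0 z (n 0 z (n 0 z z)))))) (n 1 z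
 (n 1 z z))))) z))))))))) (n 17 (n 0 z (n 0 z (n 0 z (n 0 z (n 0 z (n 0 z (n 0 z z))))))) (n 17
 (n 0 z (n 0 z (n 0 z (n 0 z (n 0 z (n 0 z (n 0 z z))))))) (n 17 (n 0 z (n 0 z (n 0 z (n 0 z (n
 0 z (n 0 z (n 0 z z))))))) (n 17 (n 0 z (n 0 z (n 0 z (n 0 z (n 0 z (n 0 z (n 0 z z))))))) (n
 17 (n 0 z (n 0 z (n 0 z (n 0 z (n 0 z (n 0 z (n 0 z z))))))) z)))))) (n 0 (n 73 (n 0 z (n 0 z
 (n 0 z (n 0 z (n 0 z (n 0 z (n 0 z (n 0 z (n 0 z (n 0 z (n 0 z (n 0 z (n 0 z (n 0 z (n 0 z (n 0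
 z (n 0 z (n 0 z (n 0 z (n 0 z (n 0 z (n 0 z (n 0 z (n 0 z (n 0 z (n 0 z
 z)))))))))))))))))))))))))) (n 73 (n 0 z (n 0 z (n 0 z (n 0 z (n 0 z (n 0 z (n 0 z (n 0 z (n 0
 z (n 0 z (n 0 z (n 0 z (n 0 z (n 0 z (n 0 z (n 0 z (n 0 z (n 0 z (n 0 z (n 0 z (n 0 z (n 0 z (n
 0 z (n 0 z (n 2 (n 0 z (n 0 z (n 0 z z))) (n 0 z z)))))))))))))))))))))))))) (n 73 (n 0 z (n 0
 z (n 0 z (n 0 z (n 0 z (n 0 z (n 0 z (n 0 z (n 0 z (n 0 z (n 0 z (n 0 z (n 0 z (n 0 z (n 0 z (n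
 0 z (n 0 z (n 0 z (n 0 z (n 0 z (n 0 z (n 0 z (n 0 z (n 0 z (n 0 z (n 0 z
 z)))))))))))))))))))))))))) (n 73 (n 0 z (n 0 z (n 0 z (n 0 z (n 0 z (n 0 z (n 0 z (n 0 z (n 0
 z (n 0 z (n 0 z (n 0 z (n 0 z (n 0 z (n 0 z (n 0 z (n 0 z (n 0 z (n 0 z (n 0 z (n 0 z (n 0 z (n
 0 z (n 0 z (n 0 z (n 0 z z)))))))))))))))))))))))))) (n 73 (n 0 z (n 0 z (n 0 z (n 0 z (n 0 z
 (n 0 z (n 0 z (n 0 z (n 0 z (n 0 z (n 0 z (n 0 z (n 0 z (n 0 z (n 0 z (n 0 z (n 0 z (n 0 z (n 0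
 z (n 0 z (n 0 z (n 0 z (n 0 z (n 0 z (n 0 z (n 0 z z)))))))))))))))))))))))))) z))))) (n 0 (n 0
 z (n 0 z (n 0 z (n 0 z z)))) (n 0 (n 0 z (n 0 z (n 0 z z))) (n 0 (n 0 z (n 0 z z)) (n 0 (n 0 z
 z) (n 0 z z)))))))))))) (n 0 (n 1 (n 3282443 z (n 3282443 z (n 3282443 z (n 3282443 z (n
 3282443 z (n 3282443 z z)))))) (n 0 z (n 0 z (n 0 z (n 0 z z))))) (n 0 z z)))) (n
 0x69a5a2c30d14c26898d944b4cba61629b0b919418b582157412a (n 0 (n 203 (n 3282443 z (n 5518859 z (n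
 0 z (n 0 z (n 0 z (n 0 z (n 0 z (n 0 z z)))))))) (n 255 (n 0 z (n 0 z (n 0 z (n 6627651 z (n 0
 z (n 0 z (n 0 z z))))))) (n 137 (n 2 z (n 10 z (n 18 z (n 6628379 z (n 6636051 z (n 26 z (n 34
 z z))))))) (n 3 (n 0 z (n 0 z (n 0 z (n 0 z (n 2164283 z z))))) (n 1 (n 0 z (n 0 z (n 6636051 z
 (n 0 z (n 0 z (n 0 z (n 0 z (n 0 z z)))))))) (n 0 (n 0 z (n 6636051 z (n 42 z (n 50 z (n 58 z
 (n 0 z (n 66 z (n 74 z (n 6628379 z z))))))))) z)))))) (n 3 (n 0 (n 0 z (n 0 z (n 0 z (n 0 z (n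
 269 (n 0 z (n 0 z (n 0 z (n 0 z (n 0 z (n 0 z (n 0 z z))))))) (n 269 (n 0 z (n 0 z (n 0 z (n 0
 z (n 0 z (n 0 z (n 0 z z))))))) (n 269 (n 0 z (n 2 (n 0 z (n 0 z z)) (n 0 z (n 0 z (n 0 z (n 0
 z (n 0 z z))))))) (n 269 (n 0 z (n 0 z (n 0 z (n 0 z (n 0 z (n 0 z (n 0 z z))))))) (n 269 (n 0
 z (n 0 z (n 0 z (n 0 z (n 0 z (n 0 z (n 0 z z))))))) z))))))))) (n 0 (n 0 z (n 0 z (n 0 z (n 1
 (n 0 z (n 0 z (n 0 z (n 0 z (n 0 z (n 0 z (n 0 z (n 0 z (n 0 z z))))))))) (n 1 (n 0 z (n 0 z (n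
 0 z (n 0 z (n 0 z (n 0 z (n 0 z (n 0 z (n 0 z z))))))))) (n 1 (n 0 z (n 0 z (n 0 z (n 0 z (n 0
 z (n 0 z (n 0 z (n 0 z (n 0 z z))))))))) (n 1 (n 0 z (n 0 z (n 0 z (n 0 z (n 0 z (n 0 z (n 0 z
 (n 0 z (n 0 z z))))))))) (n 1 (n 0 z (n 0 z (n 0 z (n 0 z (n 0 z (n 0 z (n 0 z (n 0 z (n 0 z
 z))))))))) z)))))))) (n 0 (n 0 z (n 0 z (n 245 (n 0 z (n 0 z (n 0 z (n 0 z (n 0 z (n 0 z (n 0 z
 (n 0 z (n 0 z z))))))))) (n 245 (n 0 z (n 0 z (n 0 z (n 0 z (n 0 z (n 0 z (n 0 z (n 0 z (n 0 z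
 z))))))))) (n 245 (n 2 (n 0 z (n 0 z z)) (n 0 z (n 0 z (n 0 z (n 0 z (n 0 z (n 0 z (n 0 z (n 0
 z z))))))))) (n 245 (n 0 z (n 0 z (n 0 z (n 0 z (n 0 z (n 0 z (n 0 z (n 0 z (n 0 z z)))))))))
 (n 245 (n 0 z (n 0 z (n 0 z (n 0 z (n 0 z (n 0 z (n 0 z (n 0 z (n 0 z z))))))))) z))))))) (n 0
 (n 0 z (n 269 (n 0 z (n 2 (n 0 z (n 0 z (n 0 z (n 0 z z)))) (n 0 z (n 0 z (n 0 z z))))) (n 269
 (n 0 z (n 0 z (n 0 z (n 0 z (n 0 z z))))) (n 269 (n 0 z (n 0 z (n 0 z (n 0 z (n 0 z z))))) (n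
 269 (n 0 z (n 0 z (n 0 z (n 0 z (n 0 z z))))) (n 269 (n 2 z (n 0 z (n 0 z (n 0 z (n 0 z z)))))
 z)))))) (n 0 (n 17 (n 0 z (n 0 z (n 0 z (n 0 z (n 0 z (n 0 z (n 0 z z))))))) (n 17 (n 0 z (n 0
 z (n 0 z (n 0 z (n 0 z (n 0 z (n 0 z z))))))) (n 17 (n 0 z (n 0 z (n 0 z (n 0 z (n 0 z (n 0 z
 (n 0 z z))))))) (n 17 (n 0 z (n 0 z (n 0 z (n 0 z (n 0 z (n 0 z (n 0 z z))))))) (n 17 (n 0 z (n
 0 z (n 0 z (n 0 z (n 0 z (n 0 z (n 0 z z))))))) z))))) (n 0 (n 0 z (n 0 z (n 0 z (n 0 z z))))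
 (n 0 (n 0 z (n 0 z (n 0 z z))) (n 0 (n 0 z (n 0 z z)) (n 0 (n 0 z z) (n 0 z z)))))))))) (n 0 (n
 0 z (n 0 z (n 0 z (n 0 z (n 1 (n 2164283 z (n 2164283 z (n 2164283 z (n 2164283 z (n 2164283 z
 (n 2164283 z z)))))) z))))) (n 0 z z)))) (n
 0x69a5a2c5151544a8995944b54ba61629b0b929428b582257412a (n 0 (n 203 (n 0 z (n 3282443 z (n 0 z
 (n 0 z (n 0 z (n 0 z (n 0 z (n 0 z z)))))))) (n 255 (n 0 z (n 0 z (n 6627651 z (n 0 z (n 0 z (n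
 0 z (n 0 z (n 0 z z)))))))) (n 137 (n 2 z (n 10 z (n 18 z (n 6628379 z (n 6636051 z (n 26 z (n
 34 z z))))))) (n 3 (n 0 z (n 0 z (n 0 z (n 0 z (n 2164283 z z))))) (n 1 (n 0 z (n 0 z (n 0 z (n
 0 z (n 6636051 z (n 0 z (n 0 z (n 0 z (n 0 z (n 0 z (n 0 z z))))))))))) (n 0 (n 0 z (n 6636051
 z (n 42 z (n 50 z (n 58 z (n 0 z (n 66 z (n 74 z (n 6628379 z z))))))))) z)))))) (n 3 (n 0 (n 0
 z (n 0 z (n 0 z (n 0 z (n 269 (n 0 z (n 0 z (n 0 z (n 0 z (n 0 z (n 0 z (n 0 z z))))))) (n 269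
 (n 0 z (n 0 z (n 0 z (n 0 z (n 0 z (n 0 z (n 0 z z))))))) (n 269 (n 0 z (n 2 (n 0 z (n 0 z z))
 (n 0 z (n 0 z (n 0 z (n 0 z (n 0 z z))))))) (n 269 (n 0 z (n 0 z (n 0 z (n 0 z (n 0 z (n 0 z (n
 0 z z))))))) (n 269 (n 0 z (n 0 z (n 0 z (n 0 z (n 0 z (n 0 z (n 0 z z))))))) z))))))))) (n 0
 (n 0 z (n 0 z (n 0 z (n 1 (n 0 z (n 0 z (n 0 z (n 0 z (n 0 z (n 0 z (n 0 z (n 0 z z)))))))) (n
 1 (n 0 z (n 0 z (n 0 z (n 0 z (n 0 z (n 0 z (n 0 z (n 0 z z)))))))) (n 1 (n 0 z (n 0 z (n 0 z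
 (n 0 z (n 0 z (n 0 z (n 0 z (n 0 z z)))))))) (n 1 (n 0 z (n 0 z (n 0 z (n 0 z (n 0 z (n 0 z (n
 0 z (n 0 z z)))))))) (n 1 (n 0 z (n 0 z (n 0 z (n 0 z (n 0 z (n 0 z (n 0 z (n 0 z z))))))))
 z)))))))) (n 0 (n 0 z (n 0 z (n 245 (n 0 z (n 0 z (n 0 z (n 0 z (n 0 z (n 0 z (n 0 z (n 0 z
 z)))))))) (n 245 (n 0 z (n 0 z (n 0 z (n 0 z (n 0 z (n 0 z (n 0 z (n 0 z z)))))))) (n 245 (n 2
 (n 0 z (n 0 z z)) (n 0 z (n 0 z (n 0 z (n 0 z (n 0 z (n 0 z (n 0 z z)))))))) (n 245 (n 0 z (n 0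
 z (n 0 z (n 0 z (n 0 z (n 0 z (n 0 z (n 0 z z)))))))) (n 245 (n 0 z (n 0 z (n 0 z (n 0 z (n 0 z
 (n 0 z (n 0 z (n 0 z z)))))))) z))))))) (n 0 (n 0 z (n 269 (n 0 z (n 2 (n 0 z (n 0 z (n 0 z (n
 0 z z)))) (n 0 z (n 0 z (n 0 z z))))) (n 269 (n 0 z (n 0 z (n 0 z (n 0 z (n 0 z z))))) (n 269
 (n 0 z (n 0 z (n 0 z (n 0 z (n 0 z z))))) (n 269 (n 0 z (n 0 z (n 0 z (n 0 z (n 0 z z))))) (n
 269 (n 2 z (n 0 z (n 0 z (n 0 z (n 0 z z))))) z)))))) (n 0 (n 17 (n 0 z (n 0 z (n 0 z (n 0 z (n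
 0 z (n 0 z (n 0 z z))))))) (n 17 (n 0 z (n 0 z (n 0 z (n 0 z (n 0 z (n 0 z (n 0 z z))))))) (n
 17 (n 0 z (n 0 z (n 0 z (n 0 z (n 0 z (n 0 z (n 0 z z))))))) (n 17 (n 0 z (n 0 z (n 0 z (n 0 z
 (n 0 z (n 0 z (n 0 z z))))))) (n 17 (n 0 z (n 0 z (n 0 z (n 0 z (n 0 z (n 0 z (n 0 z z)))))))
 z))))) (n 0 (n 0 z (n 0 z (n 0 z (n 0 z z)))) (n 0 (n 0 z (n 0 z (n 0 z z))) (n 0 (n 0 z (n 0 z
 z)) (n 0 (n 0 z z) (n 0 z z)))))))))) (n 0 (n 0 z (n 0 z (n 0 z (n 0 z (n 1 (n 2164283 z (n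
 2164283 z (n 2164283 z (n 2164283 z (n 2164283 z (n 2164283 z z)))))) z))))) (n 0 z z)))) (n
 0x364e51a22e8ca2744a5ba21b1dd822dcc138ca05a7b4419c8c08cd90866c98066500 (n 0 (n 153 (n 0 z (n 2
 z (n 0 z (n 0 z (n 3282443 z (n 4331019 z (n 0 z (n 10 z (n
 0x2ca8ca260705951504c060b29b29880c165364310182ca4ca420779a96076672475f76e6dc554b1e7636e189d82489d79e7e476585a91a9637e47229e08e47612801
 z (n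
 0x65465430182ca6a864077e081e85f86082082082082081f8218208208608208227e07df7e081f82082182081f8618201001
 z (n 0 z (n 0 z z)))))))))))) (n 33 (n 0 z (n 18 z (n 0 z (n 0 z (n 6496515 z (n 6496515 z (n
 0x2ca8ca84038207e08207df89e8247a08a082085f82289e7e082092079e89e8608a37a28a082089d8618a00801 z
 (n 26 z (n 0 z (n 6496515 z (n 34 z z))))))))))) (n 51 (n 0 z (n 0 z (n 6496515 z (n 0 z (n 0 z
 (n 0 z (n 0 z (n 0 z (n 0 z z))))))))) (n 27 (n 42 z (n 6632491 z (n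
 0xb2a329001c0652652003828c8092640383208207a08607e082382182082082085f8e381f7a07e08208218218e07a08e67e18627df7e17e010c1
 z (n 6496515 z (n 0 z (n 0 z (n 0 z (n 0 z (n 0 z (n 0 z (n 6636323 z (n 0 z (n
 0x65465120380ca8a842078218e07e172279f81b8a085e82085f79d8618a086272089d85f8207df7de8df7e086289f8611001
 z (n 50 z (n
 0x6ca8ca240781f8e07637a376085e8207a081d8227a07e28208228247e37637de79b8e27e076485d8e17200801 z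
 (n 0 z (n 0 z (n
 0x1d8c90414062329aa0901c565465410182ca8ca02037de8df6e77a28de92f59f3dcc1b7db59b8e38eb8b189e8dd79c7d8ba161c8238249e38207622001
 z (n 0 z (n 0 z (n 0 z (n 0 z (n 6496515 z (n 6636323 z (n 0 z (n 0 z (n 0 z (n 0 z (n 0 z (n
 0xca8ca82037e082086082082082081e82081f8208208218218208218208208208208208208208208208200801 z (n
 0 z (n 0 z (n 0 z (n 58 z (n 0 z z))))))))))))))))))))))))))))))))))) (n 1 (n 6636323 z (n 0 z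
 (n 0 z (n 0 z (n 0 z (n 0 z (n 0 z (n 0 z (n 0 z z))))))))) (n 0 (n
 0x164343120386ca686420381f7de85f7e089f8a27a079c92289e82281d8608e271c89b86281d82282185f82182281f7e01001
 z (n 0 z (n 0 z (n 0 z (n
 0x4c86c864037e07a08217e18208257a082082082082082086081f92271f85f8617e182182182085f8628200801 z
 (n 0 z (n 0 z (n 0 z (n 6632003 z (n 0 z (n 6632003 z (n 6632003 z (n 0 z (n 0 z (n 6636323 z
 (n 0 z (n 66 z (n 0 z (n 0 z (n 0 z (n 74 z (n 0 z (n 0 z (n 0 z (n 0 z (n 0 z (n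
 0x4c86c864037e07a08217e18208257a082082082082082086081f92271f85f8617e182182182085f8628200801 z
 (n 6632491 z (n 0 z (n 0 z (n 0 z (n 0 z (n
 0x4c86c864037e07a08217e18208257a082082082082082086081f92271f85f8617e182182182085f8628200801 z
 (n 0x2c86c864038207e08207df89e8247a08a082085f82289e7e082092079e89e8608a37a28a082089d8618a00801
 z (n 0 z (n 0 z (n 0 z (n 82 z (n 6632491 z (n 0 z (n 0 z (n 0 z (n 90 z (n 0 z (n 98 z (n 0 z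
 (n 0 z z))))))))))))))))))))))))))))))))))))))))))))))) z)))))) (n 51 (n 0 (n 0 z (n 215 (n 0 z
 (n 0 z (n 0 z (n 0 z (n 0 z (n 0 z (n 0 z (n 2 (n 0 z (n 0 z (n 2 (n 0 z (n 0 z (n 0 z (n 0 z
 (n 0 z (n 0 z z)))))) (n 2 (n 0 z (n 0 z (n 0 z (n 0 z (n 0 z (n 0 z z)))))) (n 2 (n 0 z (n 0 z
 (n 0 z (n 0 z (n 0 z (n 0 z z)))))) (n 2 (n 0 (n 1204 z z) (n 0 z (n 0 (n 1204 z z) (n 0 z (n 0
 (n 1204 z (n 1204 z z)) (n 0 z z)))))) (n 2 (n 0 z (n 0 z (n 0 (n 1204 z z) (n 0 (n 6563867 z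
 z) (n 0 (n 1204 z (n 1204 z z)) (n 0 z z)))))) (n 2 (n 0 z (n 0 z (n 0 z (n 0 z (n 0 z (n 0 z
 z)))))) (n 2 (n 0 z (n 0 z (n 0 z (n 0 z (n 0 z (n 0 z z)))))) (n 2 (n 0 z (n 0 z (n 0 z (n 0 z
 (n 0 z (n 0 z z)))))) z)))))))))) z)))))))) (n 215 (n 0 z (n 0 z (n 0 z (n 0 z (n 0 z (n 0 z (n
 0 z (n 0 z z)))))))) (n 215 (n 0 z (n 0 z (n 0 z (n 0 z (n 0 z (n 0 z (n 0 z (n 0 z z))))))))
 (n 213 (n 0 z (n 0 z (n 0 z (n 0 z (n 0 z (n 0 z (n 0 z (n 0 z (n 0 z (n 0 z (n 2 (n 0 z (n 0 z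
 (n 1 z (n 1 z (n 1 z (n 1 z (n 2 (n 0 z (n 0 z (n 0 z (n 0 z (n 0 (n 1204 z z) (n 0 z z))))))
 z))))))) (n 0 z (n 0 z (n 0 z (n 0 z (n 0 z (n 0 z (n 0 z (n 0 z (n 0 z (n 0 z (n 0 z (n 0 z (n
 0 z (n 0 z (n 0 z (n 0 z (n 0 z (n 0 z z))))))))))))))))))))))))))))) (n 213 (n 0 z (n 0 z (n 0
 z (n 0 z (n 0 z (n 0 z (n 0 z (n 0 z (n 0 z (n 0 z (n 0 z (n 0 z (n 2 (n 0 z (n 2 (n 0 z (n 0 z
 (n 0 z (n 0 z (n 0 (n 1204 z (n 1204 z z)) (n 0 (n 1204 z z) z)))))) (n 2 (n 0 z (n 0 z (n 0 z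
 (n 0 z (n 0 (n 1204 z (n 1204 z z)) (n 0 (n 1204 z z) z)))))) (n 2 (n 0 z (n 0 z (n 0 z (n 0 z
 (n 0 z (n 0 z z)))))) (n 2 (n 0 z (n 0 z (n 0 z (n 0 z (n 0 z (n 0 z z)))))) (n 2 (n 0 z (n 0 z
 (n 0 z (n 0 z (n 0 z (n 0 z z)))))) z)))))) (n 0 z (n 0 z (n 0 z (n 0 z (n 0 z (n 0 z (n 0 z (n
 0 z (n 0 z (n 0 z (n 0 z (n 0 z (n 0 z (n 0 z (n 0 z (n 0 z z))))))))))))))))))))))))))))) (n
 213 (n 0 z (n 0 z (n 0 z (n 0 z (n 0 z (n 0 z (n 0 z (n 0 z (n 0 z (n 0 z (n 0 z (n 0 z (n 0 z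
 (n 0 z (n 0 z (n 0 z (n 0 z (n 0 z (n 0 z (n 0 z (n 0 z (n 0 z (n 0 z (n 0 z (n 0 z (n 0 z (n 0
 z (n 0 z (n 0 z z))))))))))))))))))))))))))))) (n 301 (n 0 z (n 0 z (n 0 z (n 0 z (n 0 z (n 0 z
 (n 0 z (n 0 z (n 0 z (n 0 z (n 0 z (n 0 z (n 0 z (n 0 z (n 0 z (n 0 z (n 0 z (n 0 z (n 0 z (n 0
 z (n 0 z (n 0 z z)))))))))))))))))))))) (n 301 (n 0 z (n 0 z (n 0 z (n 0 z (n 0 z (n 0 z (n 0 z
 (n 0 z (n 0 z (n 0 z (n 0 z (n 0 z (n 0 z (n 0 z (n 0 z (n 0 z (n 0 z (n 0 z (n 0 z (n 0 z (n 0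
 z (n 0 z z)))))))))))))))))))))) (n 301 (n 0 z (n 0 z (n 0 z (n 0 z (n 0 z (n 0 z (n 0 z (n 0 z
 (n 0 z (n 0 z (n 0 z (n 0 z (n 0 z (n 0 z (n 0 z (n 0 z (n 0 z (n 0 z (n 0 z (n 0 z (n 0 z (n 0
 z z)))))))))))))))))))))) (n 301 (n 0 z (n 0 z (n 0 z (n 0 z (n 0 z (n 0 z (n 0 z (n 0 z (n 0 z
 (n 0 z (n 0 z (n 0 z (n 0 z (n 0 z (n 0 z (n 0 z (n 0 z (n 0 z (n 0 z (n 0 z (n 0 z (n 0 z
 z)))))))))))))))))))))) (n 301 (n 0 z (n 0 z (n 0 z (n 0 z (n 0 z (n 0 z (n 0 z (n 0 z (n 0 z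
 (n 0 z (n 0 z (n 0 z (n 0 z (n 0 z (n 0 z (n 0 z (n 0 z (n 0 z (n 0 z (n 0 z (n 2 z (n 0 z
 z)))))))))))))))))))))) z)))))))))))) (n 0 (n 527 (n 0 z (n 0 z (n 0 z (n 0 z (n 0 z (n 0 z (n
 0 z z))))))) (n 527 (n 0 z (n 0 z (n 0 z (n 0 z (n 0 z (n 0 z (n 0 z z))))))) (n 527 (n 0 z (n
 0 z (n 0 z (n 0 z (n 0 z (n 0 z (n 0 z z))))))) (n 535 (n 2 (n 0 z (n 0 z (n 1 z (n 1 z (n 1 z
 (n 1 z (n 1 z z))))))) (n 0 z (n 0 z (n 0 z (n 0 z (n 0 z (n 0 z (n 0 z (n 0 z (n 0 z (n 0 z (n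
 0 z (n 0 z (n 0 z (n 0 z (n 0 z z)))))))))))))))) (n 535 (n 0 z (n 0 z (n 0 z (n 0 z (n 0 z (n
 0 z (n 0 z (n 0 z (n 0 z (n 0 z (n 0 z (n 0 z (n 0 z (n 0 z (n 0 z (n 0 z z)))))))))))))))) (n
 535 (n 0 z (n 0 z (n 0 z (n 0 z (n 0 z (n 0 z (n 0 z (n 0 z (n 0 z (n 0 z (n 0 z (n 0 z (n 0 z
 (n 0 z (n 0 z (n 2 (n 2 (n 0 z (n 0 z (n 0 z (n 0 z (n 0 z (n 0 z z)))))) (n 1 z (n 2 (n 0 z (n
 0 z (n 0 z (n 0 z (n 0 (n 8660843 z z) (n 0 z z)))))) (n 2 (n 0 z (n 0 z (n 0 z (n 0 z (n 0 z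
 (n 0 z z)))))) (n 2 (n 0 z (n 0 z (n 0 z (n 0 z (n 0 (n 8791099 z z) (n 0 z z)))))) z)))))
 z)))))))))))))))) (n 529 (n 0 z (n 0 z (n 0 z (n 0 z (n 0 z (n 0 z (n 0 z (n 0 z (n 0 z (n 0 z
 (n 0 z (n 0 z z)))))))))))) (n 529 (n 0 z (n 0 z (n 0 z (n 0 z (n 0 z (n 0 z (n 0 z (n 0 z (n 0
 z (n 0 z (n 0 z (n 0 z z)))))))))))) (n 529 (n 0 z (n 0 z (n 0 z (n 0 z (n 0 z (n 0 z (n 0 z (n
 0 z (n 0 z (n 2 (n 0 z (n 0 z z)) (n 0 z (n 0 z z)))))))))))) (n 529 (n 0 z (n 0 z (n 0 z (n 0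
 z (n 0 z (n 0 z (n 0 z (n 0 z (n 0 z (n 0 z (n 0 z (n 2 (n 0 z z) z)))))))))))) (n 529 (n 0 z
 (n 0 z (n 0 z (n 0 z (n 0 z (n 0 z (n 0 z (n 0 z (n 0 z (n 0 z (n 0 z (n 0 z z))))))))))))
 z))))))))))) (n 0 (n 0 z (n 0 z (n 75 (n 0 z (n 0 z (n 2 (n 0 z (n 0 z (n 2 (n 0 z (n 0 z (n 0
 z (n 0 z (n 0 (n 260 z (n 260 z z)) (n 0 (n 260 z z) z)))))) (n 1 z (n 2 (n 0 z (n 0 z (n 0 z
 (n 0 z (n 0 (n 260 z z) (n 0 z z)))))) (n 2 (n 0 z (n 0 z (n 0 z (n 0 z (n 0 (n 260 z z) (n 0 z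
 z)))))) (n 2 (n 0 z (n 0 z (n 0 z (n 0 z (n 0 z (n 0 z z)))))) z))))))) (n 0 z (n 0 z (n 0 z (n
 0 z (n 0 z (n 0 z (n 0 z (n 0 z (n 0 z (n 0 z (n 0 z (n 0 z (n 0 z (n 0 z (n 0 z (n 0 z (n 0 z
 (n 0 z (n 0 z z)))))))))))))))))))))) (n 75 (n 0 z (n 0 z (n 0 z (n 0 z (n 0 z (n 0 z (n 0 z (n
 0 z (n 0 z (n 0 z (n 0 z (n 0 z (n 0 z (n 0 z (n 0 z (n 0 z (n 0 z (n 0 z (n 0 z (n 0 z (n 0 z
 (n 0 z z)))))))))))))))))))))) (n 75 (n 0 z (n 0 z (n 0 z (n 0 z (n 0 z (n 0 z (n 0 z (n 0 z (n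
 0 z (n 0 z (n 0 z (n 0 z (n 0 z (n 0 z (n 0 z (n 0 z (n 0 z (n 0 z (n 0 z (n 0 z (n 2 (n 2 (n 0
 z (n 0 z (n 0 z (n 0 z (n 0 z (n 0 z z)))))) (n 2 (n 0 z (n 0 z (n 0 z (n 0 z (n 0 z (n 0 z
 z)))))) (n 2 (n 0 z (n 0 z (n 0 z (n 0 z (n 0 z (n 0 z z)))))) (n 2 (n 0 z (n 0 z (n 0 z (n 0 z
 (n 0 z (n 0 z z)))))) (n 2 (n 0 z (n 0 z (n 0 z (n 0 z (n 0 z (n 0 z z)))))) z))))) (n 0 z
 z)))))))))))))))))))))) (n 65 (n 0 z (n 0 z (n 0 z (n 0 z (n 0 z (n 0 z (n 0 z (n 0 z (n 0 z (n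
 0 z (n 0 z (n 0 z z)))))))))))) (n 65 (n
 0x17752631403805318ba8201c01dd49841006022ec8ec8607009764640303803b21320181c011d0d0c480600ce86e862038357ff7b888280482082a7eb83280f7c88337f77dc8067e77e48097de80f81b81d8027e87e88427ec7f882580c7ed8287fe7fe7fe80c7fa80c80980e7ce7f880f7f87ff7de7ee81c7ef7fb4011
 z (n 0 z (n 0 z (n 0 z (n 0 z (n 0 z (n 0 z (n 0 z (n 0 z (n 0 z (n 0 z (n 0 z z)))))))))))) (n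
 65 (n 0 z (n 0 z (n 0 z (n 0 z (n 0 z (n 0 z (n 0 z (n 0 z (n 0 z (n 0 z (n 0 z (n 2 (n 0 z (n
 0 z z)) z)))))))))))) (n 65 (n 0 z (n 0 z (n 2 (n 0 z z) (n 0 z (n 0 z (n 0 z (n 0 z (n 0 z (n
 0 z (n 0 z (n 0 z (n 0 z z)))))))))))) (n 65 (n 0 z (n 0 z (n 0 z (n 0 z (n 0 z (n 0 z (n 0 z
 (n 0 z (n 0 z (n 0 z (n 0 z (n 0 z z)))))))))))) z)))))))))) (n 0 (n 0 z (n 75 (n 0 z (n 0 z (n
 0x15cc990540e1ba9b28a01c665265040184ea8ca84035239d271d8e871d9d289ba5d8e1a2282462181989a6a279e7e1723659aa495d82585f8de65f2001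
 z (n 0 z (n 0 z (n 0 z (n 0 z (n 0 z (n 0 z (n 0 z (n 0 z (n 0 z (n 0 z (n 0 z (n 0 z (n 0 z (n
 0 z (n 0 z (n 0 z (n 0 z (n 0 z (n 0 z (n 0 z (n 0 z (n 0 z (n 0 z (n 0 z (n 0 z (n 0 z (n 0 z
 (n 0 z (n 0 z z)))))))))))))))))))))))))))))))) (n 75 (n 0 z (n 0 z (n 0 z (n 0 z (n 0 z (n 0 z
 (n 0 z (n 0 z (n 0 z (n 0 z (n 0 z (n 0 z (n 0 z (n 0 z (n 0 z (n 0 z (n 0 z (n 0 z (n 0 z (n 0
 z (n 0 z (n 0 z (n 0 z (n 0 z (n 0 z (n 0 z (n 0 z (n 0 z (n 0 z (n 0 z (n 0 z (n 0 z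
 z)))))))))))))))))))))))))))))))) (n 75 (n 0 z (n 0 z (n 0 z (n 0 z (n 0 z (n 0 z (n 0 z (n 0 z
 (n 0 z (n 0 z (n 0 z (n 0 z (n 0 z (n 0 z (n 0 z (n 0 z (n 0 z (n 0 z (n 0 z (n 0 z (n 0 z (n 0
 z (n 0 z (n 0 z (n 0 z (n 0 z (n 0 z (n 0 z (n 0 z (n 0 z (n 0 z (n 2 (n 2 (n 0 z (n 0 z (n 0 z
 (n 0 z (n 0 z (n 0 z z)))))) (n 2 (n 0 z (n 0 (n 2884 z z) (n 0 z (n 0 z (n 0 (n 2884 z (n
 8803443 z z)) (n 0 (n 1157 z z) z)))))) (n 2 (n 0 z (n 0 z (n 0 z (n 0 z (n 0 z (n 0 z z))))))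
 (n 2 (n 0 z (n 0 z (n 0 z (n 0 z (n 0 z (n 0 z z)))))) (n 2 (n 0 z (n 0 z (n 0 z (n 0 z (n 0 z
 (n 0 z z)))))) z))))) z)))))))))))))))))))))))))))))))) (n 721 (n 0 z (n 0 z (n 0 z (n 0 z (n 0
 z (n 0 z (n 0 z (n 0 z (n 0 z (n 0 z (n 0 z (n 0 z (n 0 z (n 0 z (n 0 z (n 0 z (n 0 z (n 0 z (n
 0 z (n 0 z (n 0 z (n 2 (n 0 z (n 0 z (n 0 z (n 0 z z)))) (n 0 z (n 0 z (n 0 z (n 0 z (n 0 z (n
 0 z (n 0 z (n 0 z (n 0 z (n 0 z (n 0 z (n 0 z (n 0 z (n 0 z (n 0 z (n 0 z (n 0 z (n 0 z (n 0 z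
 (n 0 z (n 0 z (n 0 z (n 0 z (n 0 z z)))))))))))))))))))))))))))))))))))))))))))))) (n 721 (n 0
 z (n 0 z (n 0 z (n 0 z (n 0 z (n 0 z (n 0 z (n 0 z (n 0 z (n 0 z (n 0 z (n 0 z (n 0 z (n 0 z (n
 0 z (n 0 z (n 0 z (n 0 z (n
 0x8b99388201c029d91d08c0e004ca8ca8407002763763203801ba1ba1880c015d510c8406006e86e802038057f87d980e8038048167ef81a80b7fe82b7f27fe7fa8147fc7f87f77fb8058078037f97f58137fb8038147fe8048138087fd80480081181b8028107e78058058027f97eb7fb8047f27f53811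
 z (n 0 z (n 0 z (n 0 z (n 0 z (n 0 z (n 0 z (n 0 z (n 0 z (n 0 z (n 0 z (n 0 z (n 0 z (n 0 z (n
 0 z (n 0 z (n 0 z (n 0 z (n 0 z (n 0 z (n 0 z (n 0 z (n 0 z (n 0 z (n 0 z (n 0 z (n 0 z (n 0 z
 z)))))))))))))))))))))))))))))))))))))))))))))) (n 721 (n 0 z (n 0 z (n 0 z (n 0 z (n 0 z (n 0
 z (n 0 z (n 0 z (n 0 z (n 0 z (n 0 z (n 0 z (n 0 z (n 0 z (n 0 z (n 0 z (n 0 z (n 0 z (n 0 z (n
 0 z (n 0 z (n 0 z (n 0 z (n 0 z (n 0 z (n 0 z (n 0 z (n 0 z (n 0 z (n 0 z (n 0 z (n 0 z (n 0 z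
 (n 0 z (n 0 z (n 0 z (n 0 z (n 0 z (n 0 z (n 0 z (n 2 (n 0 z (n 0 z z)) (n 0 z (n 0 z (n 0 z (n
 0 z (n 0 z z)))))))))))))))))))))))))))))))))))))))))))))) (n 721 (n 0 z (n 0 z (n 0 z (n 0 z
 (n 0 z (n 0 z (n 0 z (n 0 z (n 0 z (n 0 z (n 0 z (n 0 z (n 0 z (n 0 z (n 0 z (n 0 z (n 0 z (n 0
 z (n 0 z (n 0 z (n 0 z (n 0 z (n 0 z (n 0 z (n 0 z (n 0 z (n 0 z (n 0 z (n 0 z (n 0 z (n 0 z (n
 0 z (n 0 z (n 0 z (n 0 z (n 0 z (n 0 z (n 2 (n 0 z z) (n 0 z (n 0 z (n 0 z (n 0 z (n 0 z (n 0 z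
 (n 0 z (n 0 z z)))))))))))))))))))))))))))))))))))))))))))))) (n 721 (n 0 z (n 0 z (n 0 z (n 0
 z (n 0 z (n 0 z (n 0 z (n 0 z (n 0 z (n 0 z (n 0 z (n 0 z (n 0 z (n 0 z (n 0 z (n 0 z (n 0 z (n
 0 z (n 0 z (n 0 z (n 0 z (n 0 z (n 0 z (n 0 z (n 0 z (n 0 z (n 0 z (n 0 z (n 0 z (n 0 z (n 0 z
 (n 0 z (n 0 z (n 0 z (n 0 z (n 0 z (n 0 z (n 0 z (n 0 z (n 0 z (n 0 z (n 0 z (n 0 z (n 0 z (n 0
 z (n 0 z z)))))))))))))))))))))))))))))))))))))))))))))) z))))))))) (n 0 (n 487 (n 2 (n 0 z (n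
 0 z (n 2 (n 0 z (n 0 z (n 0 z (n 0 z (n 0 (n 260 z (n 260 z z)) (n 0 (n 1925 z z) z)))))) (n 1
 z (n 2 (n 0 z (n 0 z (n 0 z (n 0 z (n 0 (n 260 z z) (n 0 z z)))))) (n 2 (n 0 z (n 0 z (n 0 z (n
 0 z (n 0 (n 3278955 z z) (n 0 z z)))))) (n 2 (n 0 z (n 0 z (n 0 z (n 0 z (n 0 z (n 0 z z))))))
 z))))))) (n 0 z (n 0 z (n 0 z (n 0 z (n 0 z (n 0 z (n 0 z (n 0 z (n 0 z (n 0 z (n 0 z
 z)))))))))))) (n 487 (n 0 z (n 0 z (n 0 z (n 0 z (n 0 z (n 0 z (n 2 (n 0 z (n 2 (n 0 (n 260 z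
 z) (n 0 (n 260 z z) (n 0 z (n 0 z (n 0 (n 260 z (n 260 z z)) (n 0 z z)))))) (n 1 z (n 2 (n 0 z
 (n 0 z (n 0 z (n 0 z (n 0 (n 8660843 z z) (n 0 z z)))))) (n 2 (n 0 z (n 0 z (n 0 z (n 0 z (n 0
 z (n 0 z z)))))) (n 2 (n 0 z (n 0 z (n 0 z (n 0 z (n 0 z (n 0 z z)))))) z)))))) (n 0 z (n 0 z
 (n 0 z (n 0 z (n 0 z z)))))))))))) (n 487 (n 0 z (n 0 z (n 0 z (n 0 z (n 0 z (n 0 z (n 0 z (n 0
 z (n 0 z (n 0 z (n 0 z (n 0 z z)))))))))))) (n 65 (n 0 z (n 0 z (n 0 z (n 0 z (n 0 z (n 0 z (n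
 0 z (n 0 z (n 0 z (n 0 z (n 2 (n 0 z (n 0 z (n 0 z (n 0 z z)))) (n 0 z z)))))))))))) (n 65 (n 0
 z (n 0 z (n 0 z (n
 0x11cc9d85006024ca6ca080701d732710403800bb23b2181c021d51904c0e00ae84c82603007762740301806baa218901c019d0dd0c406004a86ca200380a7db7e781e7f68247cc8037f97fb8098687e48237bd83180e7e57ea7e97e480682b7f780b80880381a8357fb8018078067fb8077df8238137f28157e780c8058118037ec7f98027f28025011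
 z (n 0 z (n 0 z (n 0 z (n 0 z (n 0 z (n 0 z (n 0 z (n 0 z z)))))))))))) (n 65 (n 0 z (n 0 z (n
 0 z (n 0 z (n 0 z (n 0 z (n 0 z (n 0 z (n 0 z (n 0 z (n 0 z (n 0 z z)))))))))))) (n 65 (n 0 z
 (n 0 z (n 0 z (n 0 z (n 0 z (n 0 z (n 0 z (n 0 z (n 0 z (n 0 z (n 0 z (n 0 z z)))))))))))) (n
 65 (n 0 z (n 0 z (n 2 z (n 0 z (n 0 z (n 0 z (n 0 z (n 0 z (n 0 z (n 0 z (n 0 z (n 0 z
 z)))))))))))) z)))))))) (n 0 (n 0 z (n 0 z (n 481 (n 0 z (n 0 z (n 0 z (n 0 z (n 0 z (n 0 z (n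
 0 z (n 0 z (n 0 z (n 0 z (n 0 z (n 0 z (n 0 z (n 0 z (n 0 z (n 0 z (n 0 z (n 0 z (n 0 z (n 0 z
 (n 0 z (n 0 z (n 0 z (n 0 z (n 0 z (n 0 z (n 0 z (n 2 (n 0 z (n 0 z (n 0 z (n 0 z z)))) (n 0 z
 (n 0 z (n 0 z (n 0 z (n 0 z (n 0 z (n 0 z (n 0 z (n 0 z (n 0 z (n 0 z (n 0 z (n 0 z (n 0 z (n 0
 z (n 0 z (n 0 z (n 0 z (n 0 z (n 0 z (n 0 z (n 0 z (n 0 z (n 0 z (n 0 z (n 0 z (n 0 z (n 0 z
 z)))))))))))))))))))))))))))))))))))))))))))))))))))))))) (n 481 (n 0 z (n 0 z (n 0 z (n 0 z (n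
 0 z (n 0 z (n 0 z (n 0 z (n 0 z (n 0 z (n 0 z (n 0 z (n 0 z (n 0 z (n 0 z (n 0 z (n 0 z (n 0 z
 (n 0 z (n 0 z (n 0 z (n 0 z (n 0 z (n 0 z (n 0 z (n 0 z (n 0 z (n 0 z (n 0 z (n 0 z (n 0 z (n 0
 z (n 0 z (n 0 z (n 0 z (n 0 z (n 0 z (n 0 z (n 0 z (n 0 z (n 0 z (n 0 z (n 0 z (n 0 z (n 0 z (n
 0 z (n 0 z (n 0 z (n 0 z (n 0 z (n 0 z (n 0 z (n 0 z (n 0 z (n 0 z (n 0 z
 z)))))))))))))))))))))))))))))))))))))))))))))))))))))))) (n 481 (n 0 z (n 0 z (n 0 z (n 0 z (n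
 0 z (n 0 z (n 0 z (n 0 z (n 0 z (n 0 z (n 0 z (n 0 z (n 0 z (n 0 z (n 0 z (n 0 z (n 0 z (n 0 z
 (n 0 z (n 0 z (n 0 z (n 0 z (n 0 z (n 0 z (n 0 z (n 0 z (n 0 z (n 0 z (n 0 z (n 0 z (n 0 z (n 0
 z (n 0 z (n 0 z (n 0 z (n 0 z (n 0 z (n 0 z (n 0 z (n 0 z (n 0 z (n 0 z (n 0 z (n 0 z (n 0 z (n
 0 z (n 0 z (n 0 z (n 0 z (n 0 z (n 0 z (n 0 z (n 0 z (n 0 z (n 2 (n 0 z (n 0 z z)) (n 0 z
 z)))))))))))))))))))))))))))))))))))))))))))))))))))))))) (n 481 (n 0 z (n 0 z (n 0 z (n 0 z (n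
 0 z (n 0 z (n 0 z (n 0 z (n 0 z (n 0 z (n 0 z (n 0 z (n 0 z (n 0 z (n 0 z (n 0 z (n 0 z (n 0 z
 (n 0 z (n 0 z (n 0 z (n 0 z (n 0 z (n 0 z (n 0 z (n 0 z (n 0 z (n 0 z (n 0 z (n 0 z (n 0 z (n 0
 z (n 0 z (n 0 z (n 0 z (n 0 z (n 0 z (n 0 z (n 0 z (n 0 z (n 0 z (n 0 z (n 0 z (n 0 z (n 0 z (n
 0 z (n 0 z (n 0 z (n 2 (n 0 z z) (n 0 z (n 0 z (n 0 z (n 0 z (n 0 z (n 0 z (n 0 z
 z)))))))))))))))))))))))))))))))))))))))))))))))))))))))) (n 481 (n 0 z (n 0 z (n 0 z (n 0 z (n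
 0 z (n 0 z (n 0 z (n 0 z (n 0 z (n 0 z (n 0 z (n 0 z (n 0 z (n 0 z (n 0 z (n 0 z (n 0 z (n 0 z
 (n 0 z (n 0 z (n 0 z (n 0 z (n 0 z (n 0 z (n 0 z (n 0 z (n 0 z (n 0 z (n 0 z (n 0 z (n 0 z (n 0
 z (n 0 z (n 0 z (n 0 z (n 0 z (n 0 z (n 0 z (n 0 z (n 0 z (n 0 z (n 0 z (n 0 z (n 2 z (n 0 z (n
 0 z (n 0 z (n 0 z (n 0 z (n 0 z (n 0 z (n 0 z (n 0 z (n 0 z (n 0 z (n 0 z
 z)))))))))))))))))))))))))))))))))))))))))))))))))))))))) z))))))) (n 0 (n 0 z (n 529 (n 0 z (n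
 0 z (n 0 z (n 0 z (n 0 z (n 0 z (n 0 z (n 0 z (n 0 z (n 0 z (n 0 z (n 0 z (n 0 z (n 0 z (n 0 z
 (n 0 z (n 0 z (n 0 z (n 0 z (n 0 z (n 0 z (n 0 z (n 0 z (n 0 z (n 0 z
 z))))))))))))))))))))))))) (n 529 (n 0 z (n 0 z (n 0 z (n 0 z (n 0 z (n 0 z (n 0 z (n 0 z (n 0
 z (n 0 z (n 0 z (n 0 z (n 0 z (n 0 z (n 0 z (n 0 z (n 0 z (n 0 z (n 0 z (n 0 z (n 0 z (n 0 z (n
 0 z (n 0 z (n 0 z z))))))))))))))))))))))))) (n 529 (n 0 z (n 0 z (n 0 z (n 0 z (n 0 z (n 0 z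
 (n 0 z (n 0 z (n 0 z (n 0 z (n 0 z (n 0 z (n 0 z (n 0 z (n 0 z (n 0 z (n 0 z (n 0 z (n 0 z (n 0
 z (n 0 z (n 0 z (n 0 z (n 0 z (n 2 (n 0 z (n 0 z z)) z))))))))))))))))))))))))) (n 529 (n 0 z
 (n 0 z (n 0 z (n 0 z (n 0 z (n 0 z (n 0 z (n 0 z (n 0 z (n 0 z (n 0 z (n 0 z (n 0 z (n 0 z (n 0
 z (n 0 z (n 0 z (n 0 z (n 0 z (n 2 (n 0 z z) (n 0 z (n 0 z (n 0 z (n 0 z (n 0 z
 z))))))))))))))))))))))))) (n 529 (n 0 z (n 0 z (n 0 z (n 0 z (n 0 z (n 0 z (n 0 z (n 0 z (n 0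
 z (n 0 z (n 0 z (n 0 z (n 0 z (n 0 z (n 0 z (n 0 z (n 0 z (n 0 z (n 0 z (n 0 z (n 0 z (n 0 z (n
 0 z (n 0 z (n 0 z z))))))))))))))))))))))))) z)))))) (n 0 (n 289 (n 0 z (n 0 z (n 0 z (n 0 z (n
 0 z (n 0 z (n 0 z (n 0 z (n 0 z (n 0 z (n 0 z (n 0 z z)))))))))))) (n 289 (n 0 z (n 0 z (n 0 z
 (n 0 z (n 0 z (n 0 z (n 0 z (n 0 z (n 0 z (n 0 z (n 0 z (n 0 z z)))))))))))) (n 289 (n 0 z (n 0
 z (n 0 z (n 0 z (n 0 z (n 0 z (n 0 z (n 0 z (n 2 (n 0 z (n 0 z z)) (n 0 z (n 0 z (n 0 z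
 z)))))))))))) (n 289 (n 0 z (n 0 z (n 0 z (n 0 z (n 0 z (n 0 z (n 0 z (n 0 z (n 0 z (n 0 z (n 0
 z (n 0 z z)))))))))))) (n 289 (n 0 z (n 0 z (n 0 z (n 0 z (n 0 z (n 0 z (n 0 z (n 2 z (n 0 z (n
 0 z (n 0 z (n 0 z z)))))))))))) z))))) (n 0 (n 0 z (n 0 z (n 0 z (n 0 z z)))) (n 0 (n 0 z (n 0
 z (n 0 z z))) (n 0 (n 0 z (n 0 z z)) (n 0 (n 0 z z) (n 0 z z))))))))))))) (n 0 (n 0 z (n 0 z (n
 1 (n 6496515 z (n 6496515 z (n 6496515 z (n 6496515 z (n 6496515 z (n 6496515 z z)))))) (n 0 z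
 (n 0 z (n 0 z (n 0 z (n 0 z (n 0 z z))))))))) (n 0 z z)))) (n
 0xc8c54450aa16ca50a14683113728115b21128b0512d84c8c40a594209 (n 0 (n 201 (n 0 z (n 3282443 z (n
 0 z (n 0 z z)))) (n 33 (n 0 z (n 0 z (n 6627635 z (n 0 z (n 2 z (n 0 z (n 0 z z))))))) (n 135
 (n 10 z (n 0 z (n 6628123 z (n 18 z (n 6631955 z (n 0 z (n 26 z (n 6631955 z (n
 0x223288b36517f767e89708b7e787580838675788a71799d7a8c82857b8a8179899e7c72998479808480757f7b817a816d7c81968c5d7c800089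
 z (n 34 z (n 6631955 z (n 42 z z)))))))))))) (n 3 (n 0 z (n 0 z (n 6631955 z (n 0 z (n 0 z (n 0
 z (n 0 z z))))))) (n 1 (n 0 z (n
 0xca6c624077f81807f8080817f8080807f7f80817f7f81807f8180807f807f80808180808180807f7f818081807f8080817f807f80817f0809
 z (n 0 z (n
 0x1b2a298900c0d90d4c480e02c84a402037b7e81807e8180807e80857c7f7b8c777989837b8881827c807f7c8083847f8482807b7d7b83837c7f7e83807f857d7d857d1809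
 z (n
 0xd9514c480606c86a624077c82807d7e8284807b80877f7e7a89777b89857b8b80827d807b8082847f8084837f7f7e7d83847b7e7e7d827e857d7b867d1009
 z (n 6559035 z (n 0 z (n 0 z (n
 0x2ca8a624037f7e81827e8080807f80827f7f7d837d7e85807f8280807e8080817f807f80827f817f7f7e81817f7f817e817f85807d80820809
 z (n 6559035 z z)))))))))) (n 0 (n 50 z (n 58 z (n 66 z (n
 0x223100ab6207f767e89718b7e787580838575788a71799d7a8b83857b8981788a9e7c72998379808481747f7b817a806d7c81978c5e7b800089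
 z (n 0 z (n 74 z (n 0 z (n 82 z (n 6631955 z (n 6631955 z (n
 0x223080b361080767e88708b7e787480828675798b71799d798b82857c8981788a9e7c72988579808481757f7a817a816d7b81988d5e7c800089
 z (n 6628123 z z)))))))))))) z)))))) (n 201 (n 0 (n 271 (n 0 z (n 2 (n 0 z (n 0 z (n 0 z (n 0 z
 (n 1 z (n 1 z (n 2 (n 0 z (n 0 z (n 0 z (n 0 z (n 0 z (n 0 z z)))))) (n 2 (n 0 z (n 0 z (n 0 z
 (n 0 z (n 0 z (n 0 z z)))))) (n 2 (n 0 z (n 0 z (n 0 z (n 0 z (n 0 z (n 0 z z)))))) z)))))))))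
 (n 0 z (n 0 z (n 0 z (n 0 z (n 0 z (n 0 z z)))))))) (n 271 (n 0 z (n 0 z (n 0 z (n 0 z (n 0 z
 (n 0 z (n 0 z (n 0 z z)))))))) (n 271 (n 0 z (n 0 z (n 0 z (n 0 z (n 0 z (n 0 z (n 0 z (n 0 z
 z)))))))) (n 271 (n 0 z (n 0 z (n 0 z (n 0 z (n 0 z (n 0 z (n 2 (n 0 z (n 2 (n 0 z (n 0 z (n 0
 z (n 0 z (n 0 z (n 0 z z)))))) (n 2 (n 0 z (n 0 z (n 0 z (n 0 z (n 0 z (n 0 z z)))))) (n 2 (n 0
 z (n 0 z (n 0 z (n 0 z (n 0 z (n 0 z z)))))) (n 2 (n 0 z (n 0 z (n 0 z (n 0 z (n 0 z (n 0 z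
 z)))))) (n 2 (n 0 z (n 0 z (n 0 z (n 0 z (n 0 z (n 0 z z)))))) z)))))) (n 0 z z)))))))) (n 271
 (n 0 z (n 0 z (n 0 z (n 0 z (n 0 z (n 0 z (n 0 z (n 0 z z)))))))) (n 49 (n 0 z (n 0 z (n 0 z (n
 0 z (n 0 z (n 0 z (n 0 z (n 0 z (n 0 z (n 0 z (n 0 z (n 0 z (n 0 z (n 0 z (n 0 z (n 0 z (n 0 z
 (n 0 z (n 0 z (n 0 z (n 0 z (n 0 z (n 0 z (n 0 z (n 0 z z))))))))))))))))))))))))) (n 49 (n 0 z
 (n 0 z (n 0 z (n 0 z (n 0 z (n 0 z (n 0 z (n 0 z (n 0 z (n 0 z (n 0 z (n 0 z (n 0 z (n 0 z (n 0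
 z (n 0 z (n 0 z (n 0 z (n 0 z (n 0 z (n 0 z (n 0 z (n 0 z (n 0 z (n 0 z
 z))))))))))))))))))))))))) (n 49 (n 0 z (n 0 z (n 0 z (n 0 z (n
 0x6ea8c864077f7d847f7c8082817e807a837c837e7e7f898184827f7d847f83817f7f7b7f7d7e817f817e7e7f8282817c7e818984787d850809
 z (n
 0x1d91d90c0e06ec8e8460382877f7d7e837f7e7f80787d7f82867c827e807d847e7e8080847c848082807a837a807e827e8280847b867c827e808080801009
 z (n 0 z (n 0 z (n 0 z (n 0 z (n 0 z (n 0 z (n 0 z (n 0 z (n 0 z (n 0 z (n 0 z (n 0 z (n 0 z (n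
 0 z (n 0 z (n 0 z (n 0 z (n 0 z (n 0 z z))))))))))))))))))))))))) (n 49 (n 0 z (n 0 z (n 0 z (n
 0 z (n 0 z (n 0 z (n 0 z (n 0 z (n 0 z (n
 0x2475d4d88500e00090aec6c864070000697546412038002a0b21ba8101c0004958c5d40806001482e86c204070008b57437301038000113b23b2000c0012399519500060003faca4ca4007001b5f7546420038002e7ba1ba0800c000b55d498840060066ca8840024f6c90800303a821080016d8000627ffd8c80069b80000080027480006280011b800d168000008005b57ff59e8007ba800c2e7ff6ac8005918006a27ffd098005b57ff97e7ff9928006ba8008407ff7997ffeaa8009ec7ffe8a8003728004817fef5f8002fc800ba38009878001f08001aa7fffaf8009447ffde77ffaae8001018008228002097fea0e7ffbd37ff216800c557fee9680148f800f6280385668d9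
 z (n
 0xa3b0043760807d7f827a84807c7b8080827b7e847a7d8d7d8581837e85807d848d80768a817f8082807c7f7d817e8076817f8b886e7e820089
 z (n 0 z (n 0 z (n 0 z (n 0 z (n 0 z (n 0 z (n 0 z (n 0 z (n 0 z (n 0 z (n 0 z (n 0 z (n 0 z (n
 0 z z))))))))))))))))))))))))) (n 49 (n 0 z (n 0 z (n 0 z (n 0 z (n 0 z (n 0 z (n 0 z (n 0 z (n
 0 z (n 0 z (n 0 z (n 0 z (n 0 z (n 0 z (n 0 z (n 0 z (n 0 z (n 0 z (n 0 z (n 2 z (n 0 z (n 0 z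
 (n 0 z (n 0 z (n 0 z z))))))))))))))))))))))))) z)))))))))) (n 0 (n 0 z (n 0 z (n 0 z (n 0 z (n
 245 (n 0 z (n 0 z (n 0 z (n 0 z (n 2 (n 0 z (n 0 z (n 0 z (n 0 z z)))) (n 0 z (n 0 z (n 0 z (n
 0 z (n 0 z (n 0 z z))))))))))) (n 245 (n 0 z (n 0 z (n 0 z (n 0 z (n 0 z (n 0 z (n 0 z (n 0 z
 (n 0 z (n 0 z (n 0 z z))))))))))) (n 245 (n 0 z (n 0 z (n 0 z (n 0 z (n 0 z (n 0 z (n 0 z (n 0
 z (n 0 z (n 0 z (n 0 z z))))))))))) (n 245 (n 0 z (n 0 z (n 0 z (n 0 z (n 0 z (n 0 z (n 0 z (n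
 0 z (n 0 z (n 0 z (n 0 z z))))))))))) (n 245 (n
 0x1d91d90c0610ea8c846037d7b877f748188887f8086827f7f7b8b807e7d807f808382837f817e82807c837c878182818382807d897b827f7e7f86807d1009
 z (n
 0x5d85cc100e00ec8ec8607818181817e817f808080807e7f8082807f81807e7f80808080818082817f817f8080817f7f80818080817e808081807e80801009
 z (n 0 z (n 0 z (n 0 z (n 0 z (n 0 z (n 0 z (n 0 z (n 0 z (n 0 z z))))))))))) z))))))))) (n 0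
 (n 0 z (n 0 z (n 0 z (n 269 (n 0 z (n 0 z (n 0 z (n 0 z (n 0 z (n 0 z (n 0 z (n 0 z (n 0 z
 z))))))))) (n 269 (n 0 z (n 0 z (n 0 z (n 0 z (n 0 z (n 0 z (n 0 z (n 0 z (n 0 z z))))))))) (n
 269 (n 0 z (n 0 z (n 0 z (n 0 z (n 0 z (n 2 (n 0 z (n 0 z z)) (n 0 z (n 0 z (n 0 z z)))))))))
 (n 269 (n 0 z (n 0 z (n 0 z (n 0 z (n 2 (n 0 z z) (n 0 z (n 0 z (n 0 z (n 0 z z))))))))) (n 269
 (n 0 z (n 0 z (n 0 z (n 0 z (n 0 z (n 0 z (n 0 z (n 0 z (n 0 z z))))))))) z)))))))) (n 0 (n 0 z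
 (n 0 z (n 265 (n 0 z (n 0 z (n 0 z (n 0 z (n 0 z (n 2 (n 0 z (n 0 z (n 0 z (n 0 z z)))) (n 0 z
 (n 0 z (n 0 z (n 0 z (n 0 z z))))))))))) (n 265 (n 0 z (n 0 z (n 0 z (n 0 z (n 0 z (n 0 z (n
 0xcec8ec8603767d7d827783867e8080857f81798876827d8478887c877583727e7e848187808885807e7e8b817c777d7286807d76868a780809
 z (n
 0x5d91d90c0e02ea8c862077f7f82827c827d807e80817e817f817f8180837f827d807f81808084817e82827e7f807f807f817f7f837f83807f7f7f80801009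
 z (n 0 z (n 0 z (n 0 z z))))))))))) (n 265 (n 0 z (n 0 z (n 0 z (n 0 z (n 0 z (n 0 z (n 0 z (n
 0 z (n 0 z (n 0 z (n 0 z z))))))))))) (n 265 (n 0 z (n 0 z (n 0 z (n 0 z (n 0 z (n 0 z (n 0 z
 (n 0 z (n 0 z (n 0 z (n 0 z z))))))))))) (n 265 (n 0 z (n 0 z (n 0 z (n 0 z (n 0 z (n 0 z (n 0
 z (n 0 z (n 0 z (n 0 z (n 0 z z))))))))))) z))))))) (n 0 (n 0 z (n 13 (n 0 z (n 0 z (n 0 z (n 0
 z (n 0 z (n 0 z (n 0 z (n 0 z (n 0 z (n 0 z (n 0 z z))))))))))) (n 13 (n 0 z (n 0 z (n 0 z (n 0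
 z (n 0 z (n 0 z (n 0 z (n 0 z (n 0 z (n 0 z (n 0 z z))))))))))) (n 13 (n 0 z (n 0 z (n 0 z (n 0
 z (n 0 z (n 0 z (n 0 z (n 0 z (n 0 z (n 0 z (n 0 z z))))))))))) (n 13 (n 0 z (n 0 z (n 0 z (n 0
 z (n 0 z (n 0 z (n
 0x1d91d90c0608ea8c846037c84807c7d8382827f80807e817d847c7f7b847b897e827c827e7d7c82887d7f84827d7d8083827d7f7e84837f797b86877a1009
 z (n
 0xbb2b08200c05d91d90c0e02ca8ca20077f7e83817c817e807e80847c837d837d7f8280818281817e7f7e8080807e80837f8181808081817f7e827f8181807f7f82801809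
 z (n 0 z (n 0 z (n 0 z z))))))))))) (n 13 (n 0 z (n 0 z (n 0 z (n 0 z (n 0 z (n 0 z (n 0 z (n 0
 z (n 0 z (n 0 z (n 0 z z))))))))))) z)))))) (n 0 (n 1 (n 0 z (n 0 z (n 0 z (n 0 z (n 0 z (n 0 z
 (n 0 z (n 0 z (n 0 z (n 0 z (n 0 z z))))))))))) (n 1 (n 0 z (n 0 z (n 0 z (n 0 z (n 0 z (n 0 z
 (n 0 z (n 0 z (n 0 z (n 0 z (n 0 z z))))))))))) (n 1 (n
 0x5d91d90c0608ea8c846037b8a7b787b86857f7a807b827f82897584827e7d8a7b7f7a817a7c83807d83778b7c817c8183817d81787f8284837d7887811009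
 z (n
 0x5d91d90c0e02e84e806037f7e82837c827e817e80837d827f8082817e7f827c818082817f8082807f81827e7e8180827f7f817f837f80807f81807f801009
 z (n 0 z (n 0 z (n 0 z (n 0 z (n 0 z (n 0 z (n 0 z (n 0 z (n 0 z z))))))))))) (n 1 (n 0 z (n 0
 z (n 0 z (n 0 z (n 0 z (n 0 z (n 0 z (n 0 z (n 0 z (n 0 z (n 0 z z))))))))))) (n 1 (n 0 z (n 0
 z (n 0 z (n 0 z (n 0 z (n 0 z (n 0 z (n 0 z (n 0 z (n 0 z (n 0 z z))))))))))) z))))) (n 0 (n 0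
 z (n 0 z (n 0 z (n 0 z z)))) (n 0 (n 0 z (n 0 z (n 0 z z))) (n 0 (n 0 z (n 0 z z)) (n 0 (n 0 z
 z) (n 0 z z))))))))))) (n 0 (n 0 z (n 1 (n 3282443 z (n 3282443 z (n 3282443 z (n 3282443 z (n
 3282443 z (n 3282443 z z)))))) (n 0 z (n 0 z z)))) (n 0 z z)))) (n
 0x679da2b2cd14b26878d743b4bb9e15a7b0b917416b56195730ea (n 0 (n 203 (n 3282443 z (n 0 z (n 0 z
 (n 0 z z)))) (n 257 (n 0 z (n 6627651 z (n 0 z (n 0 z (n 0 z (n 0 z (n 0 z z))))))) (n 137 (n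
 0x365254130180c82ca0607059519500060b29b29800c265354300380c86a860078607a57a07df7a085b7e08a191e81e8618608248228e18a095885d8a17df72382291d86379d3001
 z (n 2 z (n 10 z (n 18 z (n 6636051 z (n 6628379 z (n 6636051 z (n 6636051 z (n 26 z (n 34 z
 z)))))))))) (n 3 (n 0 z (n 0 z (n 0 z (n 0 z (n 2164283 z z))))) (n 1 (n 0 z (n 6636051 z (n 0
 z (n 0 z (n 0 z (n 0 z (n 0 z (n 0 z (n 0 z z))))))))) (n 0 (n 6636051 z (n 6636051 z (n 42 z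
 (n 50 z (n 58 z (n
 0x1329908201c064364320382ca68604038208e27a07a186081d8e081f81f81e7e082181f9616608a06e182381e7227e07e17e07e07e11801
 z (n 0 z (n 66 z (n
 0x6c64c64203458c98c040e2b21b21801cf64164100384c62c62007920c6376579a7608ca81a6d97e282282589f7db85fade761bdb85f8617248266dd91e7e29602801
 z (n 74 z (n 6628379 z z))))))))))) z)))))) (n 203 (n 0 (n 0 z (n 0 z (n 0 z (n 0 z (n 269 (n 0
 z (n 0 z (n 0 z (n 0 z (n 0 z (n 0 z (n 0 z (n 0 z z)))))))) (n 269 (n 0 z (n 0 z (n 0 z (n 0 z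
 (n 0 z (n 0 z (n 0 z (n 0 z z)))))))) (n 269 (n 0 z (n 0 z (n 2 (n 0 z (n 0 z z)) (n 0 z (n 0 z
 (n 0 z (n 0 z (n 0 z z)))))))) (n 269 (n 0 z (n 0 z (n 0 z (n 0 z (n 0 z (n 0 z (n
 0x176476430182ca8ca860782095f6618658207e09dd95f81e6e58227a17dc96256081e9208a781d5a585a79d85d86479d1001
 z (n 0 z z)))))))) (n 269 (n 0 z (n 0 z (n 0 z (n 0 z (n 0 z (n 0 z (n 0 z (n 0 z z))))))))
 z))))))))) (n 0 (n 0 z (n 0 z (n 0 z (n 1 (n 0 z (n 0 z (n 0 z (n 0 z (n 0 z (n 0 z (n 0 z (n 0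
 z (n 0 z z))))))))) (n 1 (n 0 z (n 0 z (n 0 z (n 0 z (n 0 z (n 0 z (n 0 z (n 0 z (n 0 z
 z))))))))) (n 1 (n 0 z (n 0 z (n 0 z (n 0 z (n 0 z (n 0 z (n 0 z (n 0 z (n 0 z z))))))))) (n 1
 (n 0 z (n 0 z (n 0 z (n 0 z (n 0 z (n 0 z (n 0 z (n 0 z (n 0 z z))))))))) (n 1 (n 0 z (n 0 z (n
 0 z (n 0 z (n 0 z (n 0 z (n 0 z (n
 0x3b23b2180c375464230392ea8c42607927a568977a392065f6a385fa1e5ad6ea6657a0c5e51ea59955a9b99952398fa55a5e9dc8221801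
 z (n 0 z z))))))))) z)))))))) (n 0 (n 0 z (n 0 z (n 245 (n 0 z (n 0 z (n 0 z (n 0 z (n 0 z (n 0
 z (n 0 z (n 0 z (n 0 z z))))))))) (n 245 (n 0 z (n 0 z (n 0 z (n 0 z (n 0 z (n 0 z (n 0 z (n
 0x1d91d90c060bb23b0981c976476030182c84ea06037abb5171882d8e05dc9a2b1b9da5287ab628798d1b422993bd0b649d5326a04b55a17a1f89c2001
 z (n 0 z z))))))))) (n 245 (n 2 (n 0 z (n 0 z z)) (n 0 z (n 0 z (n 0 z (n 0 z (n 0 z (n 0 z (n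
 0 z (n 0 z z))))))))) (n 245 (n 0 z (n 0 z (n 0 z (n 0 z (n 0 z (n 0 z (n 0 z (n 0 z (n 0 z
 z))))))))) (n 245 (n 0 z (n 0 z (n 0 z (n 0 z (n 0 z (n 0 z (n 0 z (n 0 z (n 0 z z)))))))))
 z))))))) (n 0 (n 0 z (n 269 (n 0 z (n 0 z (n 2 (n 0 z (n 0 z (n 0 z (n 0 z z)))) (n 0 z (n 0 z
 (n 0 z (n 0 z z))))))) (n 269 (n 0 z (n 0 z (n 0 z (n 0 z (n 0 z (n 0 z (n 0 z z))))))) (n 269
 (n 0 z (n 0 z (n 0 z (n 0 z (n 0 z (n 0 z (n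
 0xac62ec080305d8d84100e3baa321181c476376300182ea8c640077da86279e8198607d77e07dc91f7a776196281faa05dd95d91e8e38e276481889e89e8617e02801
 z z))))))) (n 269 (n 0 z (n 0 z (n 0 z (n 0 z (n 0 z (n 0 z (n 0 z z))))))) (n 269 (n 0 z (n 2
 z (n 0 z (n 0 z (n 0 z (n 0 z (n 0 z z))))))) z)))))) (n 0 (n 17 (n 0 z (n 0 z (n 0 z (n 0 z (n
 0 z (n 0 z (n
 0x176476430186ea8c846037de9e56e59207208e17978207608228e185c8209226a07a26267e07627e06e37208a07a485d1001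
 z (n 0 z z)))))))) (n 17 (n 0 z (n 0 z (n 0 z (n 0 z (n 0 z (n 0 z (n 0 z (n 0 z z)))))))) (n
 17 (n 0 z (n 0 z (n 0 z (n 0 z (n 0 z (n 0 z (n 0 z (n 0 z z)))))))) (n 17 (n 0 z (n 0 z (n 0 z
 (n 0 z (n 0 z (n 0 z (n 0 z (n 0 z z)))))))) (n 17 (n 0 z (n 0 z (n 0 z (n 0 z (n 0 z (n 0 z (n
 0 z (n 0 z z)))))))) z))))) (n 0 (n 0 z (n 0 z (n 0 z (n 0 z z)))) (n 0 (n 0 z (n 0 z (n 0 z
 z))) (n 0 (n 0 z (n 0 z z)) (n 0 (n 0 z z) (n 0 z z)))))))))) (n 0 (n 1 (n 3282443 z (n 3282443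
 z (n 3282443 z (n 3282443 z (n 3282443 z (n 3282443 z z)))))) (n 0 z (n 0 z (n 0 z z)))) (n 0 z
 z)))) (n 0x340a5760b13946d1c4158d212a7b41aad309558844a5a34516162 (n 0 (n 153 (n 0 z (n 0 z (n 0
 z (n 6496275 z (n 0 z (n 0 z (n 0 z z))))))) (n 33 (n 0 z (n 0 z (n 0 z (n 0 z (n 0 z (n 0 z (n
 0 z (n 0 z (n 0 z (n 0 z (n 6496515 z (n 0 z (n 0 z (n 0 z z)))))))))))))) (n 9 (n 0 z (n
 0xb2a328981c064364310382ca8a8620381e8237a07a57e17df86085f81f7217df92085f86091f8608e07e389e7a481e81f8618208a11801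
 z (n 2 z (n 10 z (n 6496515 z (n 6496515 z (n 6496523 z (n 6496515 z (n 18 z (n 26 z (n 34 z
 z))))))))))) (n 27 (n
 0xb29aa0900c164165020182ca6a204038de86279f7238217df82082082082082085f82086082081f81f81e89f7a08a08a085f7e285f1801
 z (n
 0x3b29aa0900c765341020180ca6a40207ad2aab4653702a976081f8a08df8218e086181d8de82176071e81d82179d8e1a5e85d7238981801
 z (n 42 z (n 0 z (n 50 z (n 58 z (n 0 z (n 66 z (n 74 z (n 6496515 z (n 6496515 z (n 6496523 z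
 z)))))))))))) (n 1 (n 6558219 z (n 0 z (n 0 z (n 0 z (n 0 z (n 0 z (n 0 z (n 0 z z)))))))) (n 0
 (n 6619931 z (n 0 z (n 0 z (n 0 z (n 0 z z))))) z)))))) (n 0 (n 0 (n 0 z (n 0 z (n 0 z (n 0 z
 (n 1157 (n 0 z (n 0 z (n 0 z (n 0 z (n 0 z (n 0 z (n 0 z z))))))) (n 1157 (n 0 z (n 0 z (n 0 z
 (n 0 z (n 0 z (n 0 z (n 0 z z))))))) (n 1157 (n 0 z (n 0 z (n 0 z (n 0 z (n 0 z (n 0 z (n 0 z
 z))))))) (n 1157 (n 0 z (n 0 z (n 0 z (n 0 z (n 0 z (n 0 z (n 0 z z))))))) (n 1157 (n 0 z (n 0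
 z (n 0 z (n 0 z (n 0 z (n 0 z (n 0 z z))))))) z))))))))) (n 0 (n 0 z (n 0 z (n 0 z (n 33 (n 2
 (n 0 z (n 0 z (n 0 z (n 0 z z)))) (n 0 z (n 0 z (n 0 z (n 0 z (n 0 z (n 0 z z))))))) (n 33 (n 0
 z (n 0 z (n 0 z (n 0 z (n 0 z (n 0 z (n 0 z z))))))) (n 33 (n 0 z (n 0 z (n 0 z (n 0 z (n 0 z
 (n 0 z (n 0 z z))))))) (n 33 (n 0 z (n 0 z (n 0 z (n 0 z (n 0 z (n 0 z (n 0 z z))))))) (n 33 (n
 0 z (n 0 z (n 0 z (n 0 z (n 0 z (n 0 z (n 0 z z))))))) z)))))))) (n 0 (n 0 z (n 0 z (n 27 (n 0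
 z (n 0 z (n 2 (n 0 z (n 0 z (n 0 z (n 0 z z)))) (n 0 z (n 0 z (n 0 z (n 0 z z))))))) (n 27 (n 0
 z (n 0 z (n 0 z (n 0 z (n 0 z (n 0 z (n 0 z z))))))) (n 27 (n 0 z (n 0 z (n 0 z (n 0 z (n 0 z
 (n 0 z (n 0 z z))))))) (n 27 (n 0 z (n 0 z (n 0 z (n 0 z (n 0 z (n 0 z (n 0 z z))))))) (n 27 (n
 0 z (n 0 z (n 0 z (n 0 z (n 0 z (n 0 z (n 0 z z))))))) z))))))) (n 0 (n 0 z (n 1153 (n 0 z (n 0
 z (n 0 z (n 0 z (n 0 z (n 0 z (n 0 z z))))))) (n 1153 (n 0 z (n 0 z (n 0 z (n 0 z (n 0 z (n 0 z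
 (n 0 z z))))))) (n 1153 (n 0 z (n 0 z (n 0 z (n 0 z (n 0 z (n 0 z (n 0 z z))))))) (n 1153 (n 0
 z (n 0 z (n 0 z (n 0 z (n 0 z (n 0 z (n 0 z z))))))) (n 1153 (n 0 z (n 0 z (n 0 z (n 0 z (n 0 z
 (n 0 z (n 0 z z))))))) z)))))) (n 0 (n 33 (n 0 z (n 0 z (n 0 z (n 0 z (n 0 z (n 0 z z)))))) (n
 33 (n 0 z (n 0 z (n 0 z (n 0 z (n 0 z (n 0 z z)))))) (n 33 (n 2 (n 0 z (n 0 z z)) (n 0 z (n 0 z
 (n 0 z (n 0 z (n 0 z z)))))) (n 33 (n 0 z (n 2 (n 0 z z) (n 0 z (n 0 z (n 0 z (n 0 z z)))))) (n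
 33 (n 0 z (n 0 z (n 0 z (n 0 z (n 0 z (n 0 z z)))))) z))))) (n 0 (n 0 z (n 0 z (n 0 z (n 0 z
 z)))) (n 0 (n 0 z (n 0 z (n 0 z z))) (n 0 (n 0 z (n 0 z z)) (n 0 (n 0 z z) (n 0 z z))))))))))
 (n 0 (n 1 (n 6619931 z (n 6619931 z (n 6619931 z (n 6619931 z (n 6619931 z (n 6619931 z z))))))
 (n 0 z (n 0 z (n 0 z (n 0 z z))))) (n 0 z z)))) z)))))))))), by decide +kernel⟩

theorem g7_67 : RgOk KT RW [11084, 11094, 11103, 11113, 11123, 11133, 11143] := ⟨i11084, ⟨i11094, ⟨i11103, ⟨i11113, ⟨i11123, ⟨i11133, True.intro⟩⟩⟩⟩⟩⟩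

end Pool.Agent.Lib.EPS9
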