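import Pool.Agent.Lib.MP_c7e7f6_eps.Core4
import Pool.Agent.Lib.MP_c7e7f6_eps.KtAll

/-!
Extensions of the words from number 11259 on.
-/

set_option autoImplicit false

namespace Pool.Agent.Lib.EPS9

open Tr

theorem i11259 : ∃ t, chkR KT RW t 11259 11267 = true := ⟨(n 0 (n 0 (n 165 (n 0 z (n 0 z (n
 6627347 z (n 0 z (n 0 z (n 0 z (n 0 z (n 0 z (n 0 z z))))))))) (n 257 (n 0 z (n 0 z (n 6496515
 z (n 0 z (n 0 z (n 0 z (n 0 z (n 0 z (n 0 z z))))))))) (n 9 (n 0 z (n 0 z (n 6496515 z (n 0 z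
 (n 0 z (n 0 z (n 0 z (n 0 z (n 0 z z))))))))) (n 243 (n 6496515 z z) (n 148 (n 6557731 z z) (n
 0 (n 6627347 z z) z)))))) (n 243 z (n 0 (n 1 (n 6496515 z (n 6496515 z (n 6496515 z (n 6496515
 z (n 6496515 z (n 6496515 z z)))))) z) (n 0 z z)))) (n 0 (n 0 (n 165 (n 0 z (n 0 z (n 0 z (n
 6627347 z (n 0 z (n 0 z z)))))) (n 257 (n 0 z (n 0 z (n 0 z (n 6496515 z (n 0 z (n 0 z z))))))
 (n 9 (n 0 z (n 0 z (n 0 z (n 6496515 z (n 0 z (n 0 z z)))))) (n 243 (n 0 z (n 0 z (n 0 z (n 0 z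
 (n 6496515 z z))))) (n 148 (n 0 z (n 0 z (n 0 z (n 0 z (n 6557731 z z))))) (n 0 (n 0 z (n 0 z
 (n 0 z (n 0 z (n 6627347 z z))))) z)))))) (n 243 z (n 0 (n 0 z (n 0 z (n 0 z (n 0 z (n 1 (n
 6496515 z (n 6496515 z (n 6496515 z (n 6496515 z (n 6496515 z (n 6496515 z z)))))) z))))) (n 0
 z z)))) (n 0 (n 0 (n 351 (n 0 z (n 0 z (n 0 z (n 0 z (n 6492195 z (n 0 z (n 0 z (n 0 z (n 0 z
 (n 0 z z)))))))))) (n 435 (n 0 z (n 0 z (n 0 z (n 0 z (n 0 z (n 0 z (n 0 z (n 0 z (n 0 z (n 0 z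
 (n 6492195 z z))))))))))) (n 436 (n 0 z (n 0 z (n 0 z (n 0 z (n 6566403 z (n 0 z (n 0 z (n 0 z
 (n 0 z (n 0 z z)))))))))) (n 3 (n 0 z (n 0 z (n 0 z (n 0 z (n 6566403 z (n 0 z (n 0 z (n 0 z (n
 0 z (n 0 z z)))))))))) (n 348 (n 0 z (n 0 z (n 0 z (n 0 z (n 0 z (n 0 z (n 0 z (n 0 z (n 0 z (n
 0 z (n 6566403 z z))))))))))) (n 0 (n 0 z (n 0 z (n 0 z (n 0 z (n 0 z (n 0 z (n 0 z (n 0 z (n 0
 z (n 0 z (n 6627379 z z))))))))))) z)))))) (n 351 z (n 0 (n 0 z (n 0 z (n 0 z (n 0 z (n 1 (n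
 6492195 z (n 6566403 z (n 6492195 z (n 6492195 z (n 6492195 z (n 6492195 z z)))))) (n 0 z (n 0
 z (n 0 z (n 0 z (n 0 z z)))))))))) (n 0 z z)))) (n
 0x15da5c24765125720bb4910da3aa0ad28b0a62b842a2d00 (n 0 (n 477 (n 6557747 z (n 0 z (n 0 z (n 2 z
 (n 0 z z))))) (n 475 (n 6557747 z (n 0 z (n 0 z (n 0 z (n 0 z (n 0 z (n 10 z (n 18 z z))))))))
 (n 474 (n 6496523 z (n 0 z (n 0 z (n 0 z (n 26 z (n 0 z z)))))) (n 3 (n 6631491 z (n 0 z (n 34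
 z (n 0 z z)))) (n 1 (n 6557747 z (n 0 z (n 42 z (n 0 z (n 0 z (n 50 z (n 58 z (n 0 z (n 0 z
 z))))))))) (n 0 (n 66 z (n 6631491 z (n 0 z (n 0 z (n 0 z (n 0 z (n 0 z (n 0 z z))))))))
 z)))))) (n 3 (n 0 (n 923 (n 0 z (n 0 z (n 0 z (n 0 z (n 0 z z))))) (n 923 (n 0 z (n 0 z (n 0 z
 (n 0 z (n 0 z z))))) (n 921 (n 0 z (n 2 (n 1 z (n 1 z (n 1 z (n 1 z (n 1 z z))))) (n 0 z (n 0 z
 (n 0 z (n 0 z (n 0 z (n 0 z (n 0 z z))))))))) (n 1237 (n 0 z (n 0 z z)) (n 757 (n 0 z (n 0 z (n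
 0 z (n 0 z (n 0 z (n 0 z (n 0 z z))))))) (n 757 (n 0 z (n 2 (n 0 z (n 1 z z)) (n 0 z (n 0 z (n
 0 z (n 0 z (n 0 z z))))))) (n 757 (n 2 (n 1 z z) (n 0 z (n 0 z (n 0 z (n 0 z (n 0 z (n 0 z
 z))))))) (n 725 (n 0 z (n 0 z (n 0 z (n 0 z (n 0 z (n 2 z (n 0 z z))))))) z)))))))) (n 0 (n 0 z
 (n 949 (n 0 z (n 0 z (n 0 z (n 0 z (n 0 z (n 0 z (n 0 z z))))))) (n 1017 (n 0 z (n 0 z (n 0 z
 (n 0 z (n 0 z (n 0 z z)))))) (n 69 (n 0 z (n 0 z (n 0 z (n 0 z (n 0 z (n 0 z z)))))) (n 69 (n 0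
 z (n 0 z (n 0 z (n 0 z (n 0 z (n 0 z z)))))) (n 69 (n 0 z (n 0 z (n 0 z (n 0 z (n 0 z (n 0 z
 z)))))) (n 65 (n 0 z (n 0 z (n 0 z (n 0 z (n 0 z (n 0 z (n 0 z (n 0 z (n 0 z (n 0 z (n 0 z (n 0
 z (n 0 z (n 0 z (n 0 z (n 0 z (n 0 z (n 0 z (n 0 z (n 0 z (n 0 z (n 0 z (n 0 z (n 0 z (n 0 z (n
 0 z z)))))))))))))))))))))))))) z))))))) (n 0 (n 933 (n 0 z (n 2 (n 1 z (n 2 (n 0 z (n 0 z (n 0
 z (n 0 z (n 0 z (n 0 z z)))))) (n 1 z (n 2 (n 0 z (n 0 z (n 0 z (n 0 z (n 0 z (n 0 z z)))))) (n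
 2 (n 0 z (n 0 z (n 0 z (n 0 z (n 0 z (n 0 z z)))))) z))))) (n 0 z (n 0 z (n 0 z (n 0 z (n 0 z
 (n 0 z z)))))))) (n 1285 (n 0 z (n 0 z (n 2 (n 1 z (n 1 z (n 1 z (n 1 z z)))) z))) (n 925 (n 0
 z (n 0 z (n 0 z (n 0 z (n 0 z (n 0 z (n 0 z z))))))) (n 925 (n 2 (n 0 z (n 2 (n 0 z (n 0 z (n 0
 z (n 0 z (n 0 z (n 0 z z)))))) z)) (n 0 z (n 0 z (n 0 z (n 0 z (n 0 z (n 0 z z))))))) (n 925 (n
 0 z (n 2 (n 2 (n 0 z (n 0 z (n 0 z (n 0 z (n 0 z (n 0 z z)))))) z) (n 0 z (n 0 z (n 0 z (n 0 z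
 (n 0 z z))))))) (n 793 (n 0 z (n 0 z (n 0 z (n 0 z (n 0 z (n 0 z (n 0 z (n 0 z (n 0 z (n 0 z (n
 0 z (n 0 z (n 0 z (n 0 z (n 0 z (n 0 z (n 0 z (n 0 z (n 0 z (n 0 z (n 0 z (n 0 z (n 0 z (n 2 z
 (n 0 z (n 0 z z)))))))))))))))))))))))))) z)))))) (n 0 (n 1065 (n 0 z (n 0 z (n 0 z (n 0 z (n 0
 z (n 0 z (n 0 z (n 0 z (n 0 z (n 0 z (n 0 z (n 0 z (n 2 (n 1 z (n 1 z (n 1 z (n 1 z z)))) (n 0
 z (n 0 z z))))))))))))))) (n 15 (n 0 z (n 0 z (n 0 z (n 0 z (n 0 z (n 0 z (n 0 z (n 0 z (n 0 z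
 (n 0 z (n 0 z (n 0 z (n 0 z (n 0 z (n 0 z z))))))))))))))) (n 15 (n 0 z (n 0 z (n 0 z (n 0 z (n
 0 z (n 0 z (n 0 z (n 0 z (n 0 z (n 0 z (n 0 z (n 0 z (n 0 z (n 0 z (n 0 z z))))))))))))))) (n
 15 (n 0 z (n 0 z (n 0 z (n 0 z (n 0 z (n 0 z (n 0 z (n 0 z (n 0 z (n 0 z (n 0 z (n 0 z (n 0 z
 (n 0 z (n 0 z z))))))))))))))) (n 17 (n 2 z (n 0 z (n 0 z (n 0 z (n 0 z (n 0 z z)))))) z)))))
 (n 0 (n 9 (n 0 z (n 0 z (n 0 z (n 0 z (n 0 z (n 0 z (n 0 z (n 0 z (n 0 z (n 0 z (n 0 z (n 0 z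
 (n 0 z (n 0 z (n 0 z (n 0 z (n 0 z z))))))))))))))))) (n 9 (n 0 z (n 0 z (n 0 z (n 2 (n 0 z (n
 1 z z)) (n 0 z (n 0 z (n 0 z (n 0 z (n 0 z (n 0 z (n 0 z (n 0 z (n 0 z (n 0 z (n 0 z (n 0 z (n
 0 z z))))))))))))))))) (n 9 (n 0 z (n 0 z (n 0 z (n 0 z (n 0 z (n 0 z (n 0 z (n 0 z (n 0 z (n 0
 z (n 0 z (n 0 z (n 0 z (n 0 z (n 0 z (n 0 z (n 0 z z))))))))))))))))) (n 5 (n 0 z (n 0 z (n 0 z
 (n 0 z (n 0 z (n 0 z (n 0 z z))))))) z)))) (n 0 (n 0 z (n 0 z (n 1 (n 0 z (n 0 z (n 0 z (n 0 z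
 (n 0 z z))))) z))) (n 0 (n 0 z (n 1 (n 2 z (n 0 z (n 0 z (n 0 z (n 0 z (n 0 z (n 0 z (n 0 z (n
 0 z z))))))))) z)) (n 0 (n 241 (n 0 z (n 0 z (n 0 z (n 0 z (n 0 z (n 0 z (n 0 z (n 0 z (n 0 z
 z))))))))) z) (n 0 z z))))))))) (n 0 (n 1 (n 6631491 z (n 6631491 z (n 6557747 z (n 6631491 z
 (n 6631491 z (n 6631491 z z)))))) (n 0 z (n 1 (n 3820 z (n 3278427 z (n 6557747 z (n 3820 z (n
 3820 z (n 3820 z z)))))) (n 0 z z)))) (n 0 z z)))) (n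
 0x5849a2990d135328975958321918acb74485b8358e38194e910a74c04c72825d3200e5d40 (n 0x1d321 (n 299
 (n 2 z (n 0 z (n 0 z (n 3282443 z (n 0 z (n 10 z (n
 0x2ca8a864078208608207df82181e8208208208208208208208608208207e08207e185f82082086081f8600801 z
 (n 0 z (n 0 z (n 0 z z)))))))))) (n 371 (n 18 z (n
 0x2ca8a8040782186082085f8607e07e17e086082082081f7e182082181f7df81f8208608608608607e08200801 z
 (n 6562131 z (n 0 z (n 0 z (n 0 z (n 0 z (n 26 z (n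
 0x2ca8a864078208608207df82181e8208208208208208208208608208207e08207e185f82082086081f8600801 z
 (n 0 z (n 0 z z))))))))))) (n 135 (n 0 z (n 34 z (n 42 z (n 6632003 z (n 0 z z))))) (n 3 (n 50
 z (n 58 z (n 66 z (n 6632003 z (n 0 z z))))) (n 1 (n 74 z (n 0 z (n 0 z (n 0 z (n 6562131 z
 z))))) (n 0 (n 82 z (n 90 z (n 98 z (n 106 z (n 0 z (n 6632003 z (n 6632003 z z))))))) z))))))
 (n 135 (n 0 (n 0 z (n 1235 (n 0 z (n 0 z (n 0 z (n 0 z (n 0 z (n 2 (n 0 z (n 2 (n 0 z (n 0 z (n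
 0 z (n 0 z (n 0 z (n 0 z z)))))) (n 1 z (n 1 z (n 1 z (n 1 z (n 1 z (n 1 z (n 1 z (n 2 (n 0 z
 (n 0 z (n 0 z (n 0 z (n 0 z (n 0 z z)))))) (n 2 (n 0 z (n 0 z (n 0 z (n 0 z (n 0 z (n 0 z
 z)))))) z))))))))))) (n
 0x2ea8ca84078208608207df82181e8208208208208208208208608208207e08207e185f82082086081f8600801 z
 (n 0 z (n 0 z (n 0 z z)))))))))) (n 1235 (n 0 z (n 0 z (n 0 z (n 2 (n 2 (n 0 z (n 0 z (n 0 z (n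
 0 z (n 0 z (n 0 z z)))))) (n 1 z (n 1 z (n 1 z (n 1 z (n 1 z (n 1 z (n 2 (n 0 z (n 0 z (n 0 z
 (n 0 z (n 0 z (n 0 z z)))))) (n 2 (n 0 z (n 0 z (n 0 z (n 0 z (n 0 z (n 0 z z)))))) (n 2 (n 0 z
 (n 0 z (n 0 z (n 0 z (n 0 z (n 0 z z)))))) z)))))))))) (n 0 z (n 0 z (n 0 z (n 0 z (n 0 z (n 0
 z z)))))))))) (n 1233 (n 0 z (n 0 z (n 0 z (n 0 z (n 0 z (n 0 z (n 0 z (n 0 z (n 0 z (n 0 z (n
 0 z z))))))))))) (n 1233 (n 0 z (n 0 z (n 0 z (n 0 z (n 0 z (n 2 (n 1 z (n 1 z (n 1 z (n 1 z (n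
 1 z (n 1 z (n 1 z (n 2 (n 0 z (n 0 z (n 0 z (n 0 z (n 0 z (n 0 z z)))))) z)))))))) (n
 0x2ea8ca86078208207e18608217df8218607e07e07df82081f7e086081f81f8617e182082081f7e08208200801 z
 (n 0 z (n 0 z (n 0 z (n 0 z z))))))))))) (n 1011 (n 0 z (n 0 z (n 0 z (n 0 z (n 0 z (n 0 z (n 0
 z (n 0 z (n 0 z (n 0 z z)))))))))) (n 1011 (n 0 z (n 0 z (n 0 z (n 0 z (n 0 z (n 0 z (n 0 z (n
 0 z (n 0 z (n 0 z z)))))))))) (n 1011 (n 0 z (n 0 z (n 0 z (n 2 (n 1 z (n 1 z (n 2 (n 0 z (n 0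
 z (n 0 z (n 0 z (n 0 z (n 0 z z)))))) (n 2 (n 0 z (n 0 z (n 0 z (n 0 z (n 0 z (n 0 z z)))))) (n
 2 (n 0 z (n 0 z (n 0 z (n 0 z (n 0 z (n 0 z z)))))) z))))) (n 0 z (n 0 z (n 0 z (n 0 z (n 0 z
 (n 0 z z)))))))))) (n 597 (n 0 z (n 0 z (n 0 z (n 0 z (n 0 z (n 2 (n 1 z (n 1 z (n 1 z (n 2 (n
 0 z (n 0 z (n 0 z (n 0 z (n 0 z (n 0 z z)))))) z)))) (n 0 z (n 0 z (n 0 z (n 0 z (n 0 z
 z))))))))))) (n 1009 (n 0 z (n 0 z (n 0 z (n 0 z (n 0 z (n 0 z (n 0 z (n 0 z (n 0 z (n 0 z (n 0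
 z z))))))))))) (n 1009 (n 0 z (n 0 z (n 0 z (n 0 z (n 0 z (n 0 z (n 0 z (n 0 z (n 0 z (n 0 z (n
 0 z z))))))))))) (n 1009 (n 0 z (n 0 z (n 0 z (n 0 z (n 0 z (n 0 z (n 0 z (n 0 z (n 0 z (n 0 z
 (n 0 z z))))))))))) (n 1009 (n 0 z (n 0 z (n 0 z (n 0 z (n 0 z (n 0 z (n 0 z (n 0 z (n 0 z (n 0
 z (n 0 z z))))))))))) z))))))))))))) (n 0 (n 139 (n 0 z (n 2 (n 0 z (n 1 z (n 1 z (n 1 z (n 1 z
 (n 1 z (n 1 z (n 1 z (n 1 z (n 1 z (n 1 z z))))))))))) (n 0 z (n 0 z (n 0 z z))))) (n 139 (n 0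
 z (n 0 z (n 0 z (n 0 z (n 0 z z))))) (n 135 (n 0 z (n 0 z (n 0 z (n 0 z z)))) (n 135 (n 2 (n 1
 z (n 1 z (n 1 z (n 1 z (n 1 z (n 1 z (n 1 z (n 1 z z)))))))) (n 0 z (n 0 z (n 0 z z)))) (n 387
 (n 0 z (n 0 z (n 0 z (n 0 z (n 0 z (n 0 z (n 0 z (n 0 z (n 0 z (n 0 z (n 0 z (n 0 z (n 0 z (n 0
 z z)))))))))))))) (n 387 (n 0 z (n 0 z (n 0 z (n 0 z (n 0 z (n 0 z (n 0 z (n 0 z (n 0 z (n 0 z
 (n 0 z (n 0 z (n 0 z (n 0 z z)))))))))))))) (n 387 (n 0 z (n 0 z (n 0 z (n 0 z (n 2 (n 1 z (n 1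
 z (n 1 z (n 1 z (n 2 (n 0 z (n 0 z (n 0 z (n 0 z (n 0 z (n 0 z z)))))) z))))) (n
 0x2ea8ca840782186082085f8607e07e17e086082082081f7e182082181f7df81f8208608608608607e08200801 z
 (n 0 z (n 0 z (n 0 z (n 0 z (n 0 z (n 0 z (n 0 z (n 0 z z)))))))))))))) (n 137 (n 0 z (n 0 z (n
 0 z (n 0 z (n 0 z (n 0 z (n 0 z z))))))) (n 733 (n 0 z (n 0 z (n 0 z (n 0 z (n 0 z z))))) (n
 733 (n 0 z (n 0 z (n 0 z (n 0 z (n 0 z z))))) (n 733 (n 0 z (n 0 z (n 0 z (n 0 z (n 0 z z)))))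
 (n 733 (n 0 z (n 0 z (n 0 z (n 0 z (n 0 z z))))) z)))))))))))) (n 0 (n 0 z (n 271 (n 0 z (n 2
 (n 0 z (n 1 z (n 1 z (n 1 z (n 1 z (n 2 (n 0 z (n 0 z (n 0 z (n 0 z (n 0 z (n 0 z z)))))) (n 2
 (n 0 z (n 0 z (n 0 z (n 0 z (n 0 z (n 0 z z)))))) (n 1 z (n 1 z z))))))))) (n 0 z (n 0 z (n 0 z
 (n 0 z (n 0 z z))))))) (n 271 (n 0 z (n 0 z (n 0 z (n 0 z (n 0 z (n 0 z (n 0 z z))))))) (n 273
 (n 0 z (n 0 z (n 0 z (n 0 z (n 0 z (n 0 z (n 0 z (n 0 z (n 0 z (n 0 z (n 0 z (n 0 z (n 0 z (n 0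
 z (n 2 (n 0 z (n 0 z (n 1 z (n 1 z (n 1 z (n 1 z (n 2 (n 0 z (n 0 z (n 0 z (n 0 z (n 0 z (n 0 z
 z)))))) z))))))) z))))))))))))))) (n 273 (n 0 z (n 0 z (n 0 z (n 0 z (n 2 (n 0 z (n 1 z (n 1 z
 (n 1 z (n 1 z (n 1 z z)))))) (n 0 z (n 0 z (n 0 z (n 0 z (n 0 z (n 0 z (n 0 z (n 0 z (n 0 z (n
 0 z z))))))))))))))) (n 273 (n 0 z (n 0 z (n 0 z (n 0 z (n 0 z (n 0 z (n 0 z (n 0 z (n 0 z (n 0
 z (n 0 z (n 0 z (n 0 z (n 0 z (n 0 z z))))))))))))))) (n 15 (n 0 z (n 0 z (n 0 z (n 0 z (n 0 z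
 (n 0 z (n 0 z (n 2 (n 1 z (n 1 z (n 1 z (n 1 z z)))) (n 0 z (n 0 z (n 0 z (n 0 z (n 0 z (n 0 z
 (n 0 z (n 0 z (n 0 z z))))))))))))))))) (n 13 (n 0 z (n 2 (n 0 z (n 0 z (n 0 z z))) (n 0 z (n 0
 z (n 0 z (n 0 z (n 0 z z))))))) (n 13 (n 2 (n 0 z (n 0 z z)) (n 0 z (n 0 z (n 0 z (n 0 z (n 0 z
 (n 0 z z))))))) (n 13 (n 0 z (n 0 z (n 0 z (n 2 (n 0 z z) (n 0 z (n 0 z (n 0 z z))))))) (n 13
 (n 0 z (n 0 z (n 2 z (n 0 z (n 0 z (n 0 z (n 0 z z))))))) z))))))))))) (n 0 (n 347 (n 0 z (n 0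
 z (n 0 z (n 0 z (n 0 z (n 0 z (n 0 z z))))))) (n 347 (n 2 (n 1 z (n 1 z (n 1 z (n 1 z (n 1 z (n
 1 z (n 1 z (n 1 z z)))))))) (n 0 z (n 0 z (n 0 z (n 0 z (n 0 z (n 0 z z))))))) (n 7 (n 0 z (n 0
 z (n 2 (n 0 z (n 0 z (n 1 z (n 1 z (n 1 z (n 1 z (n 2 (n 0 z (n 0 z (n 0 z (n 0 z (n 0 z (n 0 z
 z)))))) z))))))) (n 0 z (n 0 z (n 0 z (n 0 z (n 0 z (n 0 z (n 0 z (n 0 z (n 0 z (n 0 z (n 0 z
 (n 0 z z))))))))))))))) (n 7 (n 0 z (n 0 z (n 0 z (n 0 z (n 0 z (n 0 z (n 0 z (n 0 z (n 0 z (n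
 0 z (n 0 z (n 0 z (n 0 z (n 0 z (n 0 z z))))))))))))))) (n 7 (n 0 z (n 0 z (n 0 z (n 0 z (n 2
 (n 1 z (n 2 (n 0 z (n 0 z (n 0 z (n 0 z (n 0 z (n 0 z z)))))) (n 2 (n 0 z (n 0 z (n 0 z (n 0 z
 (n 0 z (n 0 z z)))))) (n 2 (n 0 z (n 0 z (n 0 z (n 0 z (n 0 z (n 0 z z)))))) (n 1 z z))))) (n 0
 z (n 0 z (n 0 z (n 0 z (n 0 z (n 0 z (n 0 z (n 0 z (n 0 z (n 0 z z))))))))))))))) (n 345 (n 0 z
 (n 0 z (n 0 z (n 0 z (n 0 z (n 0 z (n 0 z (n 0 z (n 0 z z))))))))) (n 253 (n 0 z (n 0 z (n 2 (n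
 0 z (n 0 z (n 0 z z))) (n 0 z (n 0 z (n 0 z (n 0 z z))))))) (n 253 (n 0 z (n 0 z (n 0 z (n 0 z
 (n 0 z (n 0 z (n 0 z z))))))) (n 253 (n 0 z (n 0 z (n 0 z (n 0 z (n 0 z (n 0 z (n 0 z z)))))))
 (n 253 (n 0 z (n 0 z (n 0 z (n 0 z (n 0 z (n 0 z (n 0 z z))))))) z)))))))))) (n 0 (n 0 z (n 7
 (n 0 z (n 0 z (n 0 z (n 0 z z)))) (n 7 (n 0 z (n 0 z (n 0 z (n 0 z z)))) (n 7 (n 2 (n 1 z (n 2
 (n 0 z (n 0 z (n 0 z (n 0 z (n 0 z (n 0 z z)))))) (n 2 (n 0 z (n 0 z (n 0 z (n 0 z (n 0 z (n 0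
 z z)))))) (n 2 (n 0 z (n 0 z (n 0 z (n 0 z (n 0 z (n 0 z z)))))) (n 1 z z))))) (n 0 z (n 0 z (n
 0 z z)))) (n 585 (n 0 z (n 0 z (n 0 z (n 0 z (n 0 z (n 0 z z)))))) (n 493 (n 0 z (n 0 z (n 0 z
 (n 0 z (n 0 z (n 0 z (n 0 z (n 0 z z)))))))) (n 493 (n 0 z (n 0 z (n 0 z (n 0 z (n 0 z (n 0 z
 (n 0 z (n 0 z z)))))))) (n 493 (n 0 z (n 0 z (n 0 z (n 0 z (n 0 z (n 0 z (n 0 z (n 0 z
 z)))))))) (n 493 (n 0 z (n 0 z (n 0 z (n 0 z (n 0 z (n 0 z (n 0 z (n 0 z z)))))))) z)))))))))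
 (n 0 (n 55 (n 2 (n 0 z (n 0 z (n 1 z (n 1 z (n 1 z (n 1 z (n 1 z z))))))) (n 0 z (n 0 z (n 0 z
 (n 0 z (n 0 z (n 0 z z))))))) (n 55 (n 0 z (n 2 (n 0 z (n 1 z (n 1 z (n 1 z (n 1 z (n 1 z
 z)))))) (n 0 z (n 0 z (n 0 z (n 0 z (n 0 z z))))))) (n 55 (n 0 z (n 0 z (n 0 z (n 0 z (n 0 z (n
 0 z (n 0 z z))))))) (n 51 (n 2 (n 1 z (n 1 z (n 1 z (n 1 z z)))) (n 0 z (n 0 z (n 0 z (n 0 z
 z))))) (n 49 (n 0 z (n 0 z (n 2 (n 0 z (n 0 z (n 0 z z))) (n 0 z (n 0 z (n 0 z (n 0 z (n 0 z (n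
 0 z z))))))))) (n 49 (n 0 z (n 0 z (n 0 z (n 2 (n 0 z (n 0 z z)) (n 0 z (n 0 z (n 0 z (n 0 z (n
 0 z z))))))))) (n 49 (n 0 z (n 0 z (n 0 z (n 0 z (n 2 (n 0 z z) (n 0 z (n 0 z (n 0 z (n 0 z
 z))))))))) (n 49 (n 0 z (n 0 z (n 0 z (n 0 z (n 0 z (n 0 z (n 2 z (n 0 z (n 0 z z)))))))))
 z)))))))) (n 0 (n 0 z (n 0 z (n 3 (n 2 (n 1 z (n 1 z (n 1 z (n 1 z z)))) (n 0 z (n 0 z (n 0 z
 z)))) (n 5 (n 0 z (n 0 z (n 0 z (n 0 z (n 0 z (n 0 z (n 0 z z))))))) (n 5 (n 0 z (n 0 z (n 0 z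
 (n 0 z (n 0 z (n 0 z (n 0 z z))))))) (n 5 (n 0 z (n 0 z (n 0 z (n 0 z (n 0 z (n 0 z (n 0 z
 z))))))) (n 5 (n 0 z (n 0 z (n 0 z (n 0 z (n 0 z (n 0 z (n 0 z z))))))) z))))))) (n 0 (n 0 z (n
 99 (n 0 z (n 0 z (n 0 z (n 0 z (n 0 z (n 0 z (n 0 z z))))))) (n 13 (n 0 z (n 0 z (n 0 z (n 0 z
 (n 0 z (n 0 z (n 0 z (n 0 z (n 0 z z))))))))) (n 13 (n 0 z (n 0 z (n 0 z (n 0 z (n 0 z (n 0 z
 (n 0 z (n 0 z (n 0 z z))))))))) (n 13 (n 0 z (n 0 z (n 0 z (n 0 z (n 0 z (n 0 z (n 0 z (n 0 z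
 (n 0 z z))))))))) (n 13 (n 0 z (n 0 z (n 0 z (n 0 z (n 0 z (n 0 z (n 0 z (n 0 z (n 0 z
 z))))))))) z)))))) (n 0 (n 15 (n 2 (n 1 z (n 1 z (n 1 z (n 1 z z)))) (n 0 z (n 0 z (n 0 z (n 0
 z (n 0 z (n 0 z z))))))) (n 13 (n 0 z (n 0 z (n 0 z (n 2 (n 0 z (n 0 z (n 0 z z))) (n 0 z (n 0
 z (n 0 z (n 0 z (n 0 z z))))))))) (n 13 (n 0 z (n 0 z (n 2 (n 0 z (n 0 z z)) (n 0 z (n 0 z (n 0
 z (n 0 z (n 0 z (n 0 z z))))))))) (n 13 (n 0 z (n 0 z (n 0 z (n 0 z (n 0 z (n 0 z (n 2 (n 0 z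
 z) (n 0 z (n 0 z z))))))))) (n 13 (n 0 z (n 0 z (n 0 z (n 0 z (n 2 z (n 0 z (n 0 z (n 0 z (n 0
 z z))))))))) z))))) (n 0 (n 985 (n 0 z (n 0 z (n 0 z (n 0 z (n 0 z (n 0 z (n 0 z (n 0 z (n 0 z
 (n 0 z (n 0 z (n 2 (n 0 z (n 0 z (n 0 z z))) (n 0 z z))))))))))))) (n 985 (n 0 z (n 0 z (n 0 z
 (n 0 z (n 0 z (n 0 z (n 0 z (n 0 z (n 0 z (n 0 z (n 0 z (n 0 z (n 0 z z))))))))))))) (n 985 (n
 0 z (n 0 z (n 0 z (n 0 z (n 0 z (n 0 z (n 0 z (n 0 z (n 0 z (n 0 z (n 0 z (n 0 z (n 0 z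
 z))))))))))))) (n 985 (n 0 z (n 0 z (n 0 z (n 0 z (n 0 z (n 0 z (n 0 z (n 0 z (n 0 z (n 0 z (n
 0 z (n 0 z (n 0 z z))))))))))))) z)))) (n 0 (n 0 z (n 0 z (n 0 z z))) (n 0 (n 0 z (n 0 z z)) (n
 0 (n 0 z z) (n 0 z z)))))))))))))) (n 0 (n 0 z (n 1 (n 6554411 z (n 2396 z (n 2396 z (n 2 z (n
 2396 z (n 2396 z z)))))) (n 1 (n 2396 z (n 2396 z (n 2396 z (n 4326939 z (n 2396 z (n 2396 z
 z)))))) (n 1 (n 6632003 z (n 6632003 z (n 6632003 z (n 6632003 z (n 6632003 z (n 6632003 z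
 z)))))) (n 0 z z))))) (n 0 (n 0x318acb31c0ca31ca09 (n 0 (n 0 (n 7742219 z (n 7742219 z (n
 7742219 z (n 7742219 z (n 7742219 z (n 7742219 z z)))))) z) (n 0 (n 67 (n 1 (n 2396 z (n 2396 z
 (n 7754267 z (n 7602987 z (n 2396 z (n 2396 z z)))))) (n 1 (n 4396811 z (n 4396811 z (n 3282699
 z (n 4396811 z (n 4396811 z (n 4396811 z z)))))) (n 0 z (n 1 (n 7680579 z (n 7680579 z (n
 7680579 z (n 7680579 z (n 7680579 z (n 7680579 z z)))))) z)))) (n 189 (n 1 (n 7610707 z (n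
 7610707 z (n 7610707 z (n 7610707 z (n 7610707 z (n 7610707 z z)))))) (n 1 (n 2 z (n 1388 z (n
 6620987 z (n 7742219 z (n 2972 z (n 2972 z z)))))) (n 1 (n 4400907 z (n 4400907 z (n 7742219 z
 (n 4400907 z (n 4400907 z (n 4400907 z z)))))) (n 1 (n 2972 z (n 2972 z (n 2972 z (n 2972 z (n
 7742219 z (n 2972 z z)))))) (n 0 z z))))) (n 309 (n 1 (n 10 z (n 2348 z (n 6620987 z (n 7742219
 z (n 2348 z (n 2348 z z)))))) (n 1 (n 4396811 z (n 4396811 z (n 7742219 z (n 4396811 z (n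
 4396811 z (n 4396811 z z)))))) (n 0 z (n 1 (n 7680579 z (n 7680579 z (n 7680579 z (n 7680579 z
 (n 7680579 z (n 7680579 z z)))))) z)))) (n 9 (n 1 (n 1660 z (n 1660 z (n 7754267 z (n 4327195 z
 (n 18 z (n 1660 z z)))))) (n 1 (n 7680579 z (n 7680579 z (n 7680579 z (n 7680579 z (n 7680579 z
 (n 7680579 z z)))))) (n 0 z (n 1 (n 7680579 z (n 7680579 z (n 7680579 z (n 7680579 z (n 7680579
 z (n 7680579 z z)))))) z)))) (n 1 (n 1 (n 7742219 z (n 7742219 z (n 7742219 z (n 7742219 z (n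
 7742219 z (n 7742219 z z)))))) (n 0 z (n 0 z (n 0 z (n 1 (n 7610707 z (n 7610707 z (n 7610707 z
 (n 7610707 z (n 7610707 z (n 7610707 z z)))))) z))))) (n 471 (n 0 z (n 1 (n 3282699 z (n
 3282699 z (n 7742219 z (n 3282699 z (n 3282699 z (n 3282699 z z)))))) (n 0 z (n 0 z (n 1 (n
 7680579 z (n 7680579 z (n 7680579 z (n 7680579 z (n 7680579 z (n 7680579 z z)))))) z))))) (n
 135 (n 0 z (n 1 (n 7742219 z (n 7742219 z (n 7742219 z (n 7742219 z (n 7742219 z (n 7742219 z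
 z)))))) (n 1 (n 2396 z (n 2396 z (n 7754267 z (n 4327195 z (n 2396 z (n 2396 z z)))))) (n 1 (n
 7680579 z (n 7680579 z (n 7680579 z (n 7680579 z (n 7680579 z (n 7680579 z z)))))) (n 0 z
 z))))) z))))))) (n 0 (n 0 (n 0 z (n 0 z (n 0 z z))) (n 0 (n 0 z (n 0 z z)) (n 0 (n 0 z z) z)))
 (n 0 (n 189 (n 0 (n 0 z (n 0 z (n 0 z z))) (n 0 (n 0 z (n 0 z (n 0 z z))) (n 0 (n 0 z (n 0 z (n
 0 z z))) (n 0 (n 0 z (n 0 z (n 0 z z))) (n 0 (n 0 z (n 0 z (n 0 z z))) z))))) (n 309 (n 0 (n 0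
 z (n 0 z (n 0 z z))) (n 0 (n 0 z (n 0 z (n 0 z z))) (n 0 (n 0 z (n 0 z (n 0 z z))) (n 0 (n 0 z
 (n 0 z (n 0 z z))) z)))) (n 293 (n 0 (n 0 z (n 0 z (n 0 z z))) (n 0 (n 0 z (n 0 z (n 0 z z)))
 (n 0 (n 0 z (n 0 z (n 0 z z))) (n 0 (n 0 z (n 0 z (n 0 (n 8859747 z z) z))) (n 0 (n 0 z (n 0 z
 (n 0 z z))) (n 0 (n 0 z (n 0 z (n 0 z z))) (n 0 (n 0 z (n 0 z (n 0 z z))) z))))))) (n 207 (n 0
 (n 0 z (n 0 z (n 0 z z))) (n 0 (n 0 z (n 0 z (n 0 z z))) (n 0 (n 0 z (n 0 z (n 0 z z))) (n 0 (n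
 0 z (n 0 z (n 0 z z))) (n 0 (n 0 z (n 0 z (n 0 z z))) (n 0 (n 0 z (n 0 z (n 0 z z))) (n 0 (n 0
 z (n 0 z (n 0 z z))) (n 0 (n 0 z (n 0 z (n 0 z z))) (n 0 (n 0 z (n 0 z (n 0 z z))) (n 0 (n 0 z
 (n 0 z (n 0 z z))) (n 0 (n 0 z (n 0 z (n 0 z z))) (n 0 (n 0 z (n 0 z (n 0 z z))) (n 0 (n 0 z (n
 0 z (n 0 z z))) (n 0 (n 0 z (n 0 z (n 0 z z))) z)))))))))))))) (n 57 (n 0 (n 0 z (n 0 z (n 0 z
 z))) (n 0 (n 0 z (n 0 (n 8729155 z z) (n 0 z z))) (n 0 (n 0 z (n 0 z (n 0 z z))) (n 0 (n 0 (n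
 0x30a8ea840785f8618607df8208208208208207e08208208218218608208208208208208218208208208200801 z
 z) (n 0 z (n 0 (n
 0x30a8ea84078608608207e08208208208208208208208208208608208217e08208208208218208207e08200801 z
 z) z))) (n 0 (n 0 z (n 0 z (n 0 z z))) (n 0 (n 0 z (n 0 z (n 0 z z))) (n 0 (n 0 z (n 0 z (n 0 z
 z))) (n 0 (n 0 z (n 0 z (n 0 z z))) (n 0 (n 0 z (n 0 z (n 0 z z))) (n 0 (n 0 z (n 0 (n
 0x854854201830a8ca84038607e08207e082085f81f8208208208207e08208608607e18208207e08207e08207e18208201001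
 z (n
 0x854854201830a8ca84038607e08207e082085f81f8208208208207e08208608607e18208207e08207e08207e18208201001
 z z)) (n 0 z z))) (n 0 (n 0 z (n 0 z (n 0 z z))) (n 0 (n 0 z (n 0 z (n 0 z z))) (n 0 (n 0 z (n
 0 (n 8729155 z z) (n 0 z z))) (n 0 (n 0 z (n 0 (n 8659283 z z) (n 0 z z))) (n 0 (n 0 z (n 0 z
 (n 0 z z))) z))))))))))))))) (n 9 (n 0 (n 0 z (n 0 z (n 0 z z))) (n 0 (n 0 z (n 0 z (n 0 z z)))
 (n 0 (n 0 z (n 0 z (n 0 z z))) (n 0 (n 0 z (n 0 z (n 0 z z))) z)))) (n 575 (n 0 (n 0 z (n 0 z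
 (n 0 z z))) (n 0 (n 0 z (n 0 z (n 0 z z))) (n 0 (n 0 z (n 0 z (n 0 z z))) (n 0 (n 0 z (n 0 z (n
 0 z z))) (n 0 (n 0 z (n 0 z (n 0 z z))) (n 0 (n 0 z (n 0 z (n 0 z z))) (n 0 (n 0 z (n 0 z (n 0
 z z))) z))))))) (n 557 (n 0 (n 0 z (n 0 z (n 0 z z))) (n 0 (n 0 z (n 0 z (n 0 z z))) (n 0 (n 0
 z (n 0 z (n 0 z z))) (n 0 (n 0 z (n 0 z (n 0 z z))) (n 0 (n 0 z (n 0 z (n 0 z z))) (n 0 (n 0 z
 (n 0 z (n 0 z z))) (n 0 (n 0 z (n 0 z (n 0 z z))) (n 0 (n 0 z (n 0 z (n 0 z z))) (n 0 (n 0 z (n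
 0 z (n 0 z z))) z))))))))) (n 556 (n 0 (n 0 z (n 0 z (n 0 z z))) (n 0 (n 0 z (n 0 z (n 0 z z)))
 (n 0 (n 0 z (n 0 z (n 0 z z))) (n 0 (n 0 z (n 0 z (n 0 z z))) (n 0 (n 0 z (n 0 z (n 0 z z))) (n
 0 (n 0 z (n 0 z (n 0 z z))) z)))))) (n 73 (n 0 (n 0 z (n 0 z (n 0 z z))) (n 0 (n 0 z (n 0 z (n
 0 z z))) (n 0 (n 0 z (n 0 z (n 0 z z))) (n 0 (n 0 z (n 0 z (n 0 z z))) (n 0 (n 0 z (n 0 z (n 0
 z z))) (n 0 (n 0 z (n 0 z (n 0 z z))) (n 0 (n 0 z (n 0 z (n 0 z z))) z))))))) (n 471 (n 0 (n 0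
 z (n 0 z (n 0 z z))) (n 0 (n 0 z (n 0 z (n 0 z z))) (n 0 (n 0 z (n 0 z (n 0 z z))) (n 0 (n 0 z
 (n 0 z (n 0 z z))) (n 0 (n 0 z (n 0 z (n 0 z z))) z))))) (n 615 (n 0 (n 0 z (n 0 z (n 0 z z)))
 (n 0 (n 0 z (n 0 z (n 0 z z))) (n 0 (n 0 z (n 0 z (n 0 z z))) (n 0 (n 0 z (n 0 z (n 0 z z))) (n
 0 (n 0 z (n 0 z (n 0 z z))) (n 0 (n 0 z (n 0 z (n 0 z z))) (n 0 (n 0 z (n 0 z (n 0 z z)))
 z))))))) (n 613 (n 0 (n 0 z (n 0 z (n 0 z z))) (n 0 (n 0 z (n 0 z (n 0 z z))) (n 0 (n 0 z (n 0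
 z (n 0 (n 8790795 z (n 8790795 z z)) z))) (n 0 (n 0 z (n 0 z (n 0 z z))) (n 0 (n 0 z (n 0 z (n
 0 z z))) (n 0 (n 0 z (n 0 z (n 0 z z))) (n 0 (n 0 z (n 0 z (n 0 z z))) (n 0 (n 0 z (n 0 z (n 0
 z z))) z)))))))) (n 19 (n 0 (n 0 z (n 0 z (n 0 z z))) (n 0 (n 0 z (n 0 z (n 0 z z))) (n 0 (n 0
 z (n 0 z (n 0 z z))) (n 0 (n 0 z (n 0 z (n 0 z z))) (n 0 (n 0 z (n 0 z (n 0 z z))) (n 0 (n 0 z
 (n 0 z (n 0 z z))) (n 0 (n 0 z (n 0 z (n 0 z z))) (n 0 (n 0 z (n 0 z (n 0 z z))) (n 0 (n 0 z (n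
 0 z (n 0 z z))) z))))))))) (n 612 (n 0 (n 0 z (n 0 (n 8802843 z z) (n 0 z z))) (n 0 (n 0 z (n 0
 z (n 0 z z))) (n 0 (n 0 z (n 0 z (n 0 z z))) (n 0 (n 0 z (n 0 z (n 0 z z))) (n 0 (n 0 z (n 0 z
 (n 0 z z))) (n 0 (n 0 z (n 0 z (n 0 z z))) (n 0 (n 0 (n 8652571 z z) (n 0 z (n 0 z z))) (n 0 (n
 0 z (n 0 z (n 0 z z))) (n 0 (n 0 z (n 0 z (n 0 z z))) (n 0 (n 0 z (n 0 (n
 0xb06506420795f8628a17a086082082185d8a08a19218218627df7a185f7e685f81f75e8638219217e17e00801 z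
 z) (n 0 z z))) (n 0 (n 0 z (n 0 z (n 0 z z))) (n 0 (n 0 z (n 0 z (n 0 z z))) (n 0 (n 0 z (n 0 z
 (n 0 z z))) z))))))))))))) (n 299 (n 0 (n 0 z (n 0 z (n 0 z z))) (n 0 (n 0 z (n 0 z (n 0 z z)))
 (n 0 (n 0 z (n 0 z (n 0 z z))) (n 0 (n 0 z (n 0 z (n 0 z z))) (n 0 (n 0 z (n 0 z (n 0 z z))) (n
 0 (n 0 z (n 0 z (n 0 z z))) (n 0 (n 0 z (n 0 z (n 0 z z))) (n 0 (n 0 z (n 0 z (n 0 z z))) (n 0
 (n 0 z (n 0 z (n 0 z z))) (n 0 (n 0 z (n 0 z (n 0 z z))) z)))))))))) (n 371 (n 0 (n 0 z (n 0 z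
 (n 0 z z))) (n 0 (n 0 z (n 0 z (n 0 z z))) (n 0 (n 0 z (n 0 z (n 0 z z))) (n 0 (n 0 z (n 0 z (n
 0 z z))) (n 0 (n 0 z (n 0 z (n 0 z z))) (n 0 (n 0 z (n 0 z (n 0 z z))) (n 0 (n 0 z (n 0 z (n 0
 z z))) (n 0 (n 0 z (n 0 z (n 0 z z))) (n 0 (n 0 z (n 0 z (n 0 z z))) (n 0 (n 0 z (n 0 z (n 0 z
 z))) (n 0 (n 0 z (n 0 (n 8659283 z z) (n 0 z z))) z))))))))))) (n 135 (n 0 (n 0 z (n 0 z (n 0 z
 z))) (n 0 (n 0 z (n 0 z (n 0 z z))) (n 0 (n 0 z (n 0 z (n 0 z z))) (n 0 (n 0 z (n 0 z (n 0 z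
 z))) (n 0 (n 0 z (n 0 z (n 0 z z))) z))))) (n 3 (n 0 (n 0 z (n 0 z (n 0 z z))) (n 0 (n 0 z (n 0
 z (n 0 z z))) (n 0 (n 0 z (n 0 z (n 0 z z))) (n 0 (n 0 z (n 0 z (n 0 z z))) (n 0 (n 0 z (n 0 z
 (n 0 z z))) z))))) (n 1 (n 0 (n 0 z (n 0 z (n 0 z z))) (n 0 (n 0 z (n 0 z (n 0 z z))) (n 0 (n 0
 z (n 0 z (n 0 z z))) (n 0 (n 0 z (n 0 z (n 0 z z))) (n 0 (n 0 z (n 0 z (n 0 z z))) z))))) (n 0
 (n 0 (n 0 z (n 0 z (n 0 z z))) (n 0 (n 0 z (n 0 z (n 0 z z))) (n 0 (n 0 z (n 0 z (n 0 z z))) (n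
 0 (n 0 z (n 0 z (n 0 z z))) (n 0 (n 0 z (n 0 z (n 0 z z))) (n 0 (n 0 z (n 0 z (n 0 z z))) (n 0
 (n 0 z (n 0 z (n 0 z z))) z))))))) z))))))))))))))))))))) z)))) z) z)))) (n
 0x58e3a2b8dd12dd288f59488e386871b844adc24568d8234651a284c0c9b1864d8e0065b80 (n 0xd8e3 (n 155 (n
 0 z (n 0 z (n 0 z (n 0 z (n 0 z (n 0 z (n 0 z (n 0 z (n 0 z (n 0 z (n 0 z (n 0 z (n 0 z (n 0 z
 (n 0 z (n 0 z (n 2 z (n 0 z (n 0 z (n 0 z (n 0 z (n 0 z (n 0 z (n 0 z (n 0 z (n 4331019 z (n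
 3282443 z (n 0 z (n
 0x4ca8a8420382082082085f8218e07e082086082085f79e8208208207e186086182181f7a082081f8608200801 z
 (n 10 z (n 0 z z))))))))))))))))))))))))))))))) (n 435 (n 18 z (n 26 z (n 6627651 z z))) (n 9
 (n 34 z (n 42 z (n 0 z (n 50 z (n 6627651 z z))))) (n 245 (n
 0x2ca8a802038218218608208208207a082082181f82081f8217e08608207e07e08207e07df8208208208600801 z
 (n 58 z (n 6566227 z (n 6566227 z (n 0 z (n 0 z (n 0 z (n 0 z (n 0 z (n 0 z (n 0 z (n 0 z (n 0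
 z (n 0 z (n 0 z (n 0 z (n 0 z (n 0 z (n 0 z (n 0 z (n 0 z (n 0 z (n 0 z (n 0 z (n 0 z (n 0 z (n
 0 z (n 0 z (n 0 z (n 0 z (n
 0x4ca8a8420382082082085f8218e07e082086082085f79e8208208207e186086182181f7a082081f8608200801 z
 (n 66 z (n
 0x990588140606aca4ca080312b6516504038c5b29288200c47d95195040e23ec84c4020703a65465400188fb2a2a0801c45994d484006022c64a4200783388389884f84483a80980b83983f7ba7b67ed8928dd83688b7e387386c7dc7fb8b17b07be8cf86e7cf8a77e67f87bc7fb75c7b783c8477fe7fa8447a57d37817178cc8227d882f89a8385011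
 z (n 0 z (n 0 z (n 0 z z)))))))))))))))))))))))))))))))))))) (n 1 (n 74 z (n 6566227 z (n 0 z
 (n 0 z z)))) (n 0 (n 82 z (n 90 z (n 0 z (n 0 z (n 98 z (n 106 z (n 6627651 z (n 6627651 z
 z)))))))) z)))))) (n 435 (n 0 (n 0 z (n 1223 (n 0 z (n 0 z (n 0 z (n 0 z (n 0 z (n 0 z (n 0 z
 (n 0 z (n 0 z (n 0 z (n 0 z (n 0 z (n 0 z (n 0 z (n 0 z (n 0 z (n 0 z (n 0 z (n 0 z (n 0 z (n 0
 z (n 0 z (n 0 z (n 0 z (n 0 z (n 0 z z)))))))))))))))))))))))))) (n 1223 (n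
 0x2ca4ea280382181f82081f8208217a286082181f82081f81f7e082082082082081f8218608208208207e00801 z
 (n 2 (n 1 z (n 1 z (n 1 z (n 1 z (n 1 z (n 1 z (n 1 z (n 1 z (n 2 (n 0 z (n 0 z (n 0 z (n 0 z
 (n 0 z (n 0 z z)))))) (n 1 z z)))))))))) (n 0 z (n 0 z (n 0 z (n 0 z (n 0 z (n 0 z (n 0 z (n 0
 z (n 0 z (n 0 z (n 0 z (n 0 z (n 0 z (n 0 z (n 0 z (n 0 z (n 0 z (n 0 z (n 0 z (n 0 z (n 0 z (n
 0 z (n 0 z (n 0 z z)))))))))))))))))))))))))) (n 1107 (n 0 z (n 0 z (n 0 z (n 0 z (n 0 z (n 0 z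
 (n 0 z (n 0 z (n 0 z (n 0 z (n 0 z (n 0 z (n 0 z (n 0 z (n 0 z (n 0 z (n 0 z (n 0 z (n 0 z (n 0
 z (n 0 z (n 0 z (n 0 z (n 0 z (n 0 z (n 0 z (n 0 z (n 0 z (n 0 z (n 0 z (n 0 z
 z))))))))))))))))))))))))))))))) (n 1107 (n 0 z (n 0 z (n 0 z (n 0 z (n 0 z (n 0 z (n 0 z (n 0
 z (n 0 z (n 0 z (n 0 z (n 0 z (n 0 z (n 0 z (n 0 z (n 0 z (n 0 z (n 0 z (n 0 z (n 0 z (n 0 z (n
 0 z (n 0 z (n 0 z (n 0 z (n 0 z (n 0 z (n 0 z (n 0 z (n 0 z (n 0 z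
 z))))))))))))))))))))))))))))))) (n 1107 (n 0 z (n 0 z (n 0 z (n 0 z (n 0 z (n 0 z (n 0 z (n 0
 z (n 0 z (n 0 z (n 0 z (n 0 z (n 0 z (n 0 z (n 0 z (n 0 z (n 0 z (n 0 z (n 0 z (n 0 z (n 0 z (n
 0 z (n 0 z (n 0 z (n 0 z (n
 0x4ea8ca820382082082085f8218e07e082086082085f79e8208208207e186086182181f7a082081f8608200801 z
 (n 2 (n 1 z (n 2 (n 0 z (n 0 z (n 0 z (n 0 z (n 0 z (n 0 z z)))))) (n 1 z (n 2 (n 0 z (n 0 z (n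
 0 z (n 0 z (n 0 z (n 0 z z)))))) (n 1 z (n 2 (n 0 z (n 0 z (n 0 z (n 0 z (n 0 z (n 0 z z))))))
 (n 2 (n 0 z (n 0 z (n 0 z (n 0 z (n 0 z (n 0 z z)))))) z))))))) (n 0 z (n 0 z (n 0 z (n 0 z
 z))))))))))))))))))))))))))))))) (n 1221 (n 0 z (n 0 z (n 0 z (n 0 z (n 0 z (n 0 z (n 0 z (n 0
 z (n 0 z (n 0 z (n 0 z (n 0 z (n 0 z (n 0 z (n 0 z (n 0 z (n 0 z (n 0 z (n 0 z (n 0 z (n 0 z (n
 0 z (n 0 z (n 0 z (n 0 z (n 0 z (n 0 z (n 0 z (n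
 0x4ea8ca820382082082085f8218e07e082086082085f79e8208208207e186086182181f7a082081f8608200801 z
 (n 2 (n 0 z (n 1 z (n 1 z (n 1 z (n 2 (n 0 z (n 0 z (n 0 z (n 0 z (n 0 z (n 0 z z)))))) (n 2 (n
 0 z (n 0 z (n 0 z (n 0 z (n 0 z (n 0 z z)))))) z)))))) (n 0 z z)))))))))))))))))))))))))))))))
 (n 1221 (n 0 z (n 0 z (n 0 z (n 0 z (n 0 z (n 0 z (n 0 z (n 0 z (n 0 z (n 0 z (n 0 z (n 0 z (n
 0 z (n 0 z (n 0 z (n 0 z (n 0 z (n 0 z (n 0 z (n 0 z (n 0 z (n 0 z (n 0 z (n 0 z (n 0 z (n 0 z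
 (n 2 (n 1 z (n 2 (n 0 z (n 0 z (n 0 z (n 0 z (n 0 z (n 0 z z)))))) (n 1 z (n 2 (n 0 z (n 0 z (n
 0 z (n 0 z (n 0 z (n 0 z z)))))) (n 2 (n 0 z (n 0 z (n 0 z (n 0 z (n 0 z (n 0 z z)))))) z)))))
 (n 0 z (n 0 z (n 0 z (n 0 z z))))))))))))))))))))))))))))))) (n 309 (n 0 z (n 2 (n 1 z (n 1 z
 (n 2 (n 0 z (n 0 z (n 0 z (n 0 z (n 0 z (n 0 z z)))))) (n 1 z z)))) (n 0 z (n 0 z (n 0 z (n 0 z
 (n 0 z (n 0 z (n 0 z (n 0 z (n 0 z (n 0 z (n 0 z (n 0 z (n 0 z (n 0 z (n 0 z (n 0 z (n 0 z (n 0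
 z (n 0 z (n 0 z (n 0 z (n 0 z (n 0 z (n 0 z z)))))))))))))))))))))))))) (n 1105 (n 0 z (n 0 z
 (n 0 z (n 0 z (n 0 z (n 0 z (n 0 z (n 0 z (n 0 z (n 0 z (n 0 z (n 0 z (n 0 z (n 0 z (n 0 z (n 0
 z (n 0 z (n 0 z (n 0 z (n 0 z (n 0 z (n 0 z (n 0 z (n 0 z (n 0 z (n 0 z
 z)))))))))))))))))))))))))) (n 1105 (n 0 z (n 0 z (n 0 z (n 0 z (n 0 z (n 0 z (n 0 z (n 0 z (n
 0 z (n 0 z (n 0 z (n 0 z (n 0 z (n 0 z (n 0 z (n 0 z (n 0 z (n 0 z (n 0 z (n 0 z (n 0 z (n 0 z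
 (n 0 z (n 0 z (n 0 z (n 0 z z)))))))))))))))))))))))))) (n 1105 (n 0 z (n 0 z (n 0 z (n 0 z (n
 0 z (n 0 z (n 0 z (n 0 z (n 0 z (n 0 z (n 0 z (n 0 z (n 0 z (n 0 z (n 0 z (n 0 z (n 0 z (n 0 z
 (n 0 z (n 0 z (n 0 z (n 0 z (n 0 z (n 0 z (n 0 z (n 0 z z)))))))))))))))))))))))))) (n 1105 (n
 0 z (n 0 z (n 0 z (n 0 z (n 0 z (n 0 z (n 0 z (n 0 z (n 0 z (n 0 z (n 0 z (n 0 z (n 0 z (n 0 z
 (n 0 z (n 0 z (n 0 z (n 0 z (n 0 z (n 0 z (n 0 z (n 0 z (n 0 z (n 0 z (n 0 z (n 0 z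
 z)))))))))))))))))))))))))) z))))))))))))) (n 0 (n 211 (n 0 z (n 0 z (n 0 z (n 0 z (n 0 z
 z))))) (n 211 (n 2 (n 1 z (n 1 z (n 1 z (n 1 z (n 1 z (n 1 z (n 1 z (n 1 z (n 1 z (n 1 z
 z)))))))))) (n 0 z (n 0 z (n 0 z (n 0 z z))))) (n 867 (n 0 z (n 0 z (n 0 z (n 0 z (n 0 z (n 0 z
 (n 0 z (n 0 z (n 0 z (n 0 z (n 0 z (n 0 z (n 0 z (n 0 z (n 0 z (n 0 z (n 0 z (n 0 z (n 0 z (n 0
 z (n 0 z (n 0 z (n 0 z (n 0 z (n 0 z (n 0 z (n 0 z (n 0 z (n 0 z (n 0 z (n 0 z (n 0 z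
 z)))))))))))))))))))))))))))))))) (n 867 (n 0 z (n 0 z (n 0 z (n 0 z (n 0 z (n 0 z (n 0 z (n 0
 z (n 0 z (n 0 z (n 0 z (n 0 z (n 0 z (n 0 z (n 0 z (n 0 z (n 0 z (n 0 z (n 0 z (n 0 z (n 0 z (n
 0 z (n 0 z (n 0 z (n 0 z (n 0 z (n 0 z (n 0 z (n 0 z (n 0 z (n 0 z (n 0 z
 z)))))))))))))))))))))))))))))))) (n 867 (n 0 z (n 0 z (n 0 z (n 0 z (n 0 z (n 0 z (n 0 z (n 0
 z (n 0 z (n 0 z (n 0 z (n 0 z (n 0 z (n 0 z (n 0 z (n 0 z (n 0 z (n 0 z (n 0 z (n 0 z (n 0 z (n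
 0 z (n 0 z (n 0 z (n
 0x2ea8ca82038218218608208208207a082082181f82081f8217e08608207e07e08207e07df8208208208600801 z
 (n 2 (n 1 z (n 1 z (n 1 z (n 1 z (n 1 z (n 2 (n 0 z (n 0 z (n 0 z (n 0 z (n 0 z (n 0 z z))))))
 (n 1 z z))))))) (n 0 z (n 0 z (n 0 z (n 0 z (n 0 z (n 0 z z)))))))))))))))))))))))))))))))) (n
 207 (n 0 z (n 2 (n 0 z (n 1 z (n 1 z (n 1 z (n 1 z (n 1 z z)))))) (n 0 z (n 0 z (n 0 z z)))))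
 (n 207 (n 0 z (n 0 z (n 0 z (n 0 z (n 0 z z))))) (n 205 (n 0 z (n 0 z (n 0 z (n 0 z (n 0 z (n 0
 z z)))))) (n 529 (n 0 z (n 0 z (n 0 z z))) (n 529 (n 0 z (n 0 z (n 0 z z))) (n 529 (n 0 z (n 0
 z (n 0 z z))) (n 529 (n 0 z (n 0 z (n 0 z z))) z)))))))))))) (n 0 (n 0 z (n 867 (n 0 z (n 0 z
 (n 0 z (n 0 z z)))) (n 867 (n 0 z (n 0 z (n 0 z (n 0 z z)))) (n 867 (n 0 z (n 0 z (n 2 (n 1 z
 (n 1 z (n 1 z (n 2 (n 0 z (n 0 z (n 0 z (n 0 z (n 0 z (n 0 z z)))))) (n 2 (n 0 z (n 0 z (n 0 z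
 (n 0 z (n 0 z (n 0 z z)))))) (n 1 z (n 2 (n 0 z (n 0 z (n 0 z (n 0 z (n 0 z (n 0 z z))))))
 z))))))) (n 0 z z)))) (n 491 (n 2 (n 0 z (n 1 z (n 2 (n 0 z (n 0 z (n 0 z (n 0 z (n 0 z (n 0 z
 z)))))) (n 2 (n 0 z (n 0 z (n 0 z (n 0 z (n 0 z (n 0 z z)))))) (n 1 z (n 1 z z)))))) (n 0 z (n
 0 z (n 0 z (n 0 z (n 0 z (n 0 z (n 0 z z)))))))) (n 491 (n 0 z (n 0 z (n 0 z (n 0 z (n 0 z (n 0
 z (n 0 z (n 0 z z)))))))) (n 51 (n 0 z (n 0 z (n 0 z (n 0 z (n 0 z (n 0 z (n 0 z z))))))) (n 49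
 (n 0 z (n 0 z (n 0 z (n 0 z (n 0 z (n 0 z z)))))) (n 49 (n 0 z (n 0 z (n 0 z (n 0 z (n 0 z (n 0
 z z)))))) (n 49 (n 0 z (n 0 z (n 0 z (n 0 z (n 0 z (n 0 z z)))))) (n 49 (n 0 z (n 0 z (n 0 z (n
 0 z (n 0 z (n 0 z z)))))) z))))))))))) (n 0 (n 363 (n 0 z (n 2 (n 0 z (n 0 z (n 1 z (n 1 z (n 1
 z (n 1 z (n 1 z (n 1 z (n 1 z z))))))))) (n 0 z (n 0 z (n 0 z (n 0 z z)))))) (n 363 (n 2 (n 0 z
 (n 1 z (n 1 z (n 1 z (n 1 z (n 1 z (n 1 z (n 1 z z)))))))) (n 0 z (n 0 z (n 0 z (n 0 z (n 0 z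
 z)))))) (n 363 (n 0 z (n 0 z (n 0 z (n 0 z (n 0 z (n 0 z z)))))) (n 387 (n 0 z (n 0 z (n 0 z (n
 0 z (n 0 z (n 0 z z)))))) (n 387 (n 2 (n 1 z (n 1 z (n 1 z (n 1 z (n 1 z z))))) (n 0 z (n 0 z
 (n 0 z (n 0 z (n 0 z z)))))) (n 339 (n 2 (n 1 z (n 1 z (n 1 z (n 1 z z)))) (n 0 z (n 0 z (n 0 z
 (n 0 z (n 0 z z)))))) (n 361 (n 0 z (n 0 z (n 0 z (n 0 z (n 0 z (n 0 z (n 2 (n 0 z (n 0 z (n 0
 z z))) (n 0 z (n 0 z (n 0 z z)))))))))) (n 361 (n 0 z (n 0 z (n 0 z (n 0 z (n 0 z (n 2 (n 0 z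
 (n 0 z z)) (n 0 z (n 0 z (n 0 z (n 0 z z)))))))))) (n 361 (n 0 z (n 2 (n 0 z z) (n 0 z (n 0 z
 (n 0 z (n 0 z (n 0 z (n 0 z (n 0 z (n 0 z z)))))))))) (n 361 (n 2 z (n 0 z (n 0 z (n 0 z (n 0 z
 (n 0 z (n 0 z (n 0 z (n 0 z (n 0 z z)))))))))) z)))))))))) (n 0 (n 0 z (n 0 z (n 681 (n 0 z (n
 0 z (n 0 z (n 0 z (n 0 z (n 0 z (n 0 z (n 0 z (n 0 z (n 0 z (n 0 z (n 0 z (n 0 z (n 0 z (n 0 z
 (n 0 z (n 0 z (n 0 z (n 0 z (n 0 z (n 0 z (n 0 z (n 0 z (n 0 z (n 0 z (n 0 z (n 0 z (n 2 (n 0 z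
 (n 1 z (n 1 z (n 1 z (n 2 (n 0 z (n 0 z (n 0 z (n 0 z (n 0 z (n 0 z z)))))) (n 1 z z)))))) (n 0
 z (n 0 z (n 0 z (n 0 z z)))))))))))))))))))))))))))))))) (n 681 (n 0 z (n 0 z (n 0 z (n 0 z (n
 0 z (n 0 z (n 0 z (n 0 z (n 0 z (n 0 z (n 0 z (n 0 z (n 0 z (n 0 z (n 0 z (n 0 z (n 0 z (n 0 z
 (n 0 z (n 0 z (n 0 z (n 0 z (n 0 z (n 0 z (n 0 z (n 2 (n 1 z (n 1 z (n 1 z (n 2 (n 0 z (n 0 z
 (n 0 z (n 0 z (n 0 z (n 0 z z)))))) (n 1 z z))))) (n 0 z (n 0 z (n 0 z (n 0 z (n 0 z (n 0 z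
 z)))))))))))))))))))))))))))))))) (n 15 (n 2 (n 1 z (n 1 z (n 1 z (n 1 z z)))) (n 0 z (n 0 z (n
 0 z (n 0 z z))))) (n 17 (n 0 z (n 0 z (n 0 z (n 0 z (n 0 z (n 0 z z)))))) (n 17 (n 0 z (n 0 z
 (n 0 z (n 0 z (n 0 z (n 0 z z)))))) (n 17 (n 0 z (n 0 z (n 0 z (n 0 z (n 0 z (n 0 z z)))))) (n
 17 (n 0 z (n 0 z (n 0 z (n 0 z (n 0 z (n 0 z z)))))) z))))))))) (n 0 (n 0 z (n 7 (n 0 z (n 0 z
 (n 0 z (n 0 z (n 0 z (n 0 z (n 0 z (n 0 z (n 0 z (n 0 z (n 0 z (n 0 z (n 0 z (n 0 z (n 0 z (n 0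
 z (n 0 z (n 2 (n 0 z (n 1 z (n 1 z (n 1 z (n 1 z (n 1 z z)))))) (n 0 z (n 0 z (n 0 z (n 0 z (n
 0 z (n 0 z (n 0 z (n 0 z z)))))))))))))))))))))))))) (n 7 (n 0 z (n 0 z (n 0 z (n 0 z (n 0 z (n
 0 z (n 0 z (n 0 z (n 0 z (n 0 z (n 0 z (n 0 z (n 0 z (n 0 z (n 0 z (n 0 z (n 0 z (n 0 z (n 0 z
 (n 0 z (n 0 z (n 0 z (n 0 z (n 0 z (n 0 z (n 0 z z)))))))))))))))))))))))))) (n 3 (n 0 z (n 0 z
 (n 0 z (n 0 z (n 0 z (n 0 z (n 0 z (n 0 z (n 0 z z))))))))) (n 13 (n 0 z (n 0 z (n 0 z (n 0 z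
 (n 0 z (n 0 z (n 0 z z))))))) (n 13 (n 0 z (n 0 z (n 0 z (n 0 z (n 0 z (n 0 z (n 0 z z)))))))
 (n 13 (n 0 z (n 0 z (n 0 z (n 0 z (n 0 z (n 0 z (n 0 z z))))))) (n 13 (n 0 z (n 0 z (n 0 z (n 0
 z (n 0 z (n 0 z (n 0 z z))))))) z)))))))) (n 0 (n 633 (n 0 z (n 0 z (n 0 z (n 0 z (n 0 z (n 0 z
 (n 0 z (n 0 z (n 0 z (n 0 z (n 0 z (n 0 z (n 0 z (n 0 z (n 0 z (n 0 z (n 0 z (n 0 z (n 0 z (n 0
 z (n 0 z (n 0 z (n 0 z (n 0 z (n 0 z (n 0 z z)))))))))))))))))))))))))) (n 633 (n 0 z (n 0 z (n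
 0 z (n 0 z (n 0 z (n 0 z (n 0 z (n 0 z (n 0 z (n 0 z (n 0 z (n 0 z (n 0 z (n 0 z (n 0 z (n 0 z
 (n 0 z (n 2 (n 1 z (n 2 (n 0 z (n 0 z (n 0 z (n 0 z (n 0 z (n 0 z z)))))) (n 2 (n 0 z (n 0 z (n
 0 z (n 0 z (n 0 z (n 0 z z)))))) (n 1 z (n 2 (n 0 z (n 0 z (n 0 z (n 0 z (n 0 z (n 0 z z))))))
 z))))) (n 0 z (n 0 z (n 0 z (n 0 z (n 0 z (n 0 z (n 0 z (n 0 z z)))))))))))))))))))))))))) (n
 819 (n 2 (n 1 z (n 1 z (n 1 z (n 1 z z)))) (n 0 z (n 0 z (n 0 z (n 0 z (n 0 z (n 0 z (n 0 z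
 z)))))))) (n 841 (n 0 z (n 0 z (n 0 z (n 0 z (n 0 z (n 2 (n 0 z (n 0 z (n 0 z z))) (n 0 z (n 0
 z (n 0 z (n 0 z z)))))))))) (n 841 (n 0 z (n 0 z (n 0 z (n 0 z (n 0 z (n 0 z (n 2 (n 0 z (n 0 z
 z)) (n 0 z (n 0 z (n 0 z z)))))))))) (n 841 (n 2 (n 0 z z) (n 0 z (n 0 z (n 0 z (n 0 z (n 0 z
 (n 0 z (n 0 z (n 0 z (n 0 z z)))))))))) (n 841 (n 0 z (n 2 z (n 0 z (n 0 z (n 0 z (n 0 z (n 0 z
 (n 0 z (n 0 z (n 0 z z)))))))))) z))))))) (n 0 (n 0 z (n 51 (n 0 z (n 0 z (n 2 (n 1 z (n 1 z (n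
 1 z (n 1 z z)))) (n 0 z (n 0 z (n 0 z (n 0 z (n 0 z (n 0 z (n 0 z (n 0 z (n 0 z (n 0 z (n 0 z
 (n 0 z (n 0 z (n 0 z (n 0 z (n 0 z (n 0 z (n 0 z (n 0 z (n 0 z (n 0 z (n 0 z (n 0 z (n 0 z (n 0
 z (n 0 z z))))))))))))))))))))))))))))) (n 49 (n 0 z (n 2 (n 0 z (n 0 z (n 0 z z))) (n 0 z (n 0
 z (n 0 z (n 0 z (n 0 z (n 0 z z)))))))) (n 49 (n 2 (n 0 z (n 0 z z)) (n 0 z (n 0 z (n 0 z (n 0
 z (n 0 z (n 0 z (n 0 z z)))))))) (n 49 (n 0 z (n 0 z (n 0 z (n 0 z (n 0 z (n 2 (n 0 z z) (n 0 z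
 (n 0 z z)))))))) (n 49 (n 0 z (n 0 z (n 0 z (n 0 z (n 2 z (n 0 z (n 0 z (n 0 z z))))))))
 z)))))) (n 0 (n 483 (n 0 z (n 0 z (n 0 z (n 0 z (n 0 z (n 0 z (n 0 z (n 0 z (n 0 z (n 0 z
 z)))))))))) (n 49 (n 0 z (n 0 z (n 0 z (n 0 z (n 0 z (n 0 z z)))))) (n 49 (n 0 z (n 0 z (n 2 (n
 0 z (n 0 z z)) (n 0 z (n 0 z (n 0 z z)))))) (n 49 (n 0 z (n 0 z (n 0 z (n 0 z (n 0 z (n 0 z
 z)))))) (n 49 (n 0 z (n 0 z (n 0 z (n 0 z (n 0 z (n 0 z z)))))) z))))) (n 0 (n 53 (n 0 z (n 0 z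
 (n 0 z (n 0 z (n 0 z (n 0 z (n 0 z (n 0 z (n 0 z (n 0 z z)))))))))) (n 53 (n 0 z (n 0 z (n 0 z
 (n 2 (n 0 z (n 0 z z)) (n 0 z (n 0 z (n 0 z (n 0 z (n 0 z (n 0 z z)))))))))) (n 53 (n 0 z (n 0
 z (n 0 z (n 0 z (n 0 z (n 0 z (n 0 z (n 0 z (n 0 z (n 0 z z)))))))))) (n 53 (n 0 z (n 0 z (n 0
 z (n 0 z (n 0 z (n 0 z (n 0 z (n 0 z (n 0 z (n 0 z z)))))))))) z)))) (n 0 (n 0 z (n 0 z (n 0 z
 z))) (n 0 (n 0 z (n 0 z z)) (n 0 (n 0 z z) (n 0 z z)))))))))))))) (n 0 (n 1 (n 1244 z (n 1244 z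
 (n 6554139 z (n 2 z (n 1244 z (n 1244 z z)))))) (n 1 (n 1244 z (n 1244 z (n 1244 z (n 6554139 z
 (n 1244 z (n 1244 z z)))))) (n 1 (n 6627651 z (n 6627651 z (n 6627651 z (n 6627651 z (n 6627651
 z (n 6627651 z z)))))) z))) (n 0 (n 0x70895b70915a709819 (n 0 (n 0 (n 7737867 z (n 7737867 z (n
 7737867 z (n 7737867 z (n 7737867 z (n 7737867 z z)))))) z) (n 0 (n 264 (n 0 z (n 1 (n 3282699
 z (n 3282699 z (n 3282699 z (n 3282699 z (n 3282699 z (n 7614803 z z)))))) (n 1 (n 7676227 z (n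
 7676227 z (n 7676227 z (n 7676227 z (n 7676227 z (n 7676227 z z)))))) z))) (n 435 (n 1 (n
 7737867 z (n 7737867 z (n 7737867 z (n 7737867 z (n 7737867 z (n 7737867 z z)))))) (n 1 (n
 7407163 z (n 1804 z (n 2 z (n 6555451 z (n 1804 z (n 1804 z z)))))) (n 1 (n 7676227 z (n
 7676227 z (n 7676227 z (n 7676227 z (n 7676227 z (n 7676227 z z)))))) z))) (n 435 (n 0 z (n 1
 (n 7676227 z (n 7676227 z (n 7676227 z (n 7676227 z (n 7676227 z (n 7676227 z z)))))) (n 1 (n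
 7754523 z (n 3580 z (n 3580 z (n 4261691 z (n 10 z (n 3580 z z)))))) (n 1 (n 7676227 z (n
 7676227 z (n 7676227 z (n 7676227 z (n 7676227 z (n 7676227 z z)))))) z)))) (n 471 (n 1 (n
 7614803 z (n 7614803 z (n 7614803 z (n 7614803 z (n 7614803 z (n 7614803 z z)))))) (n 1 (n
 6620971 z (n 2012 z (n 18 z (n 7737867 z (n 2012 z (n 2012 z z)))))) (n 0 z (n 1 (n 7737867 z
 (n 4331275 z (n 4331275 z (n 4331275 z (n 4331275 z (n 4331275 z z)))))) (n 1 (n 2012 z (n 2012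
 z (n 2012 z (n 2012 z (n 7737867 z (n 2012 z z)))))) z))))) (n 1 (n 1 (n 7737867 z (n 7737867 z
 (n 7737867 z (n 7737867 z (n 7737867 z (n 7737867 z z)))))) (n 1 (n 7614803 z (n 7614803 z (n
 7614803 z (n 7614803 z (n 7614803 z (n 7614803 z z)))))) (n 0 z (n 0 z z)))) (n 285 (n 0 z (n 1
 (n 7737867 z (n 3282699 z (n 3282699 z (n 3282699 z (n 3282699 z (n 3282699 z z)))))) (n 1 (n
 7676227 z (n 7676227 z (n 7676227 z (n 7676227 z (n 7676227 z (n 7676227 z z)))))) z))) (n 435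
 (n 1 (n 7737867 z (n 7737867 z (n 7737867 z (n 7737867 z (n 7737867 z (n 7737867 z z)))))) (n 1
 (n 7754523 z (n 1244 z (n 1244 z (n 7602715 z (n 1244 z (n 1244 z z)))))) (n 1 (n 7676227 z (n
 7676227 z (n 7676227 z (n 7676227 z (n 7676227 z (n 7676227 z z)))))) z))) z))))))) (n 0 (n 0
 (n 0 z (n 0 z (n 0 z z))) (n 0 (n 0 z (n 0 z z)) (n 0 (n 0 z z) z))) (n 0 (n 225 (n 0 (n 0 z (n
 0 z (n 0 z z))) (n 0 (n 0 z (n 0 z (n 0 z z))) (n 0 (n 0 z (n 0 z (n 0 z z))) (n 0 (n 0 z (n 0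
 z (n 0 z z))) (n 0 (n 0 z (n 0 z (n 0 z z))) z))))) (n 447 (n 0 (n 0 (n
 0x30a8a8620382182082082082082082186082081f8207a08208208608208208208208208208208208208200801 z
 z) (n 0 z (n 0 z z))) (n 0 (n 0 z (n 0 (n 8652603 z z) (n 0 z z))) (n 0 (n 0 z (n 0 (n 8652603
 z z) (n 0 (n 8652603 z z) z))) (n 0 (n 0 (n 8868923 z (n 8868923 z z)) (n 0 z (n 0 z z))) (n 0
 (n 0 z (n 0 z (n 0 z z))) (n 0 (n 0 z (n 0 z (n 0 z z))) (n 0 (n 0 z (n 0 z (n 0 (n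
 0x2764854101830a8ca820786182082081f8208208618207e08208208208208208208208608208208207e08208208208201001
 z z) z))) (n 0 (n 0 z (n 0 z (n 0 z z))) (n 0 (n 0 z (n 0 z (n 0 z z))) (n 0 (n 0 z (n 0 (n
 0xd8538207e081f8608208208207e18a08207e08208208208208618208207e07e181f8207e085f8600041 z z) (n 0
 z z))) (n 0 (n 0 z (n 0 z (n 0 z z))) (n 0 (n 0 z (n 0 z (n 0 z z))) (n 0 (n 0 z (n 0 (n
 0xd8538208207df8208208208208208a08208207e085f82082081f8208207e08208208207e081f8200041 z z) (n 0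
 (n 0xd8538208207df8208208208208208a08208207e085f82082081f8208207e08208208207e081f8200041 z z)
 z))) (n 0 (n 0 z (n 0 z (n 0 z z))) (n 0 (n 0 (n 8868923 z z) (n 0 z (n 0 z z))) (n 0 (n 0 z (n
 0 z (n 0 z z))) (n 0 (n 0 z (n 0 z (n 0 z z))) (n 0 (n 0 z (n 0 z (n 0 z z))) (n 0 (n 0 z (n 0
 z (n 0 z z))) (n 0 (n 0 z (n 0 z (n 0 z z))) (n 0 (n 0 z (n 0 z (n 0 z z))) (n 0 (n 0 z (n 0 z
 (n 0 z z))) (n 0 (n 0 z (n 0 (n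
 0x854754101910a8a862038618208a081f86195f6e47e17e37de81e6de7de8628227a189f7a176081e86181f79f8608611001
 z z) (n 0 z z))) (n 0 (n 0 z (n 0 z (n 0 z z))) (n 0 (n 0 z (n 0 z (n 0 z z))) (n 0 (n 0 z (n 0
 z (n 0 z z))) (n 0 (n 0 z (n 0 z (n 0 z z))) (n 0 (n 0 z (n 0 z (n 0 z z))) (n 0 (n 0 (n
 0x30a4ea28078208208208208208208208208608208208208208208208208208208208208208208208208200801 z
 (n 0xd8738208207e08208208208608208607df8207e08208208207e07e086082182082182081f8208210041 z z))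
 (n 0 z (n 0 z z))) (n 0 (n 0 (n
 0x1852751403830a8ca820382182182182082081f7e082086081f82081f8218608608207e08207e08208207e081f8208201001
 z z) (n 0 z (n 0 z z))) (n 0 (n 0 z (n 0 z (n 0 z z))) (n 0 (n 0 z (n 0 z (n 0 z z)))
 z)))))))))))))))))))))))))))))))) (n 435 (n 0 (n 0 z (n 0 z (n 0 z z))) (n 0 (n 0 z (n 0 z (n 0
 z z))) (n 0 (n 0 z (n 0 z (n 0 z z))) (n 0 (n 0 z (n 0 z (n 0 z z))) z)))) (n 471 (n 0 (n 0 z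
 (n 0 z (n 0 z z))) (n 0 (n 0 z (n 0 z (n 0 z z))) (n 0 (n 0 z (n 0 z (n 0 z z))) (n 0 (n 0 z (n
 0 z (n 0 z z))) (n 0 (n 0 z (n 0 z (n 0 z z))) z))))) (n 251 (n 0 (n 0 z (n 0 z (n 0 z z))) (n
 0 (n 0 z (n 0 z (n 0 z z))) (n 0 (n 0 z (n 0 (n
 0x2ea50a280782082082082082082086081f8208208208208208208208208208208208208208208208208200801 z
 (n 0xd8748208207df8208208208208208a08208207e085f82082081f8208207e08208208207e081f8200041 z z))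
 (n 0 (n
 0x2ea50a280782082082082082082086081f8208208208208208208208208208208208208208208208208200801 z
 (n 0xd8748208207df8208208208208208a08208207e085f82082081f8208207e08208208207e081f8200041 z z))
 z))) (n 0 (n 0 z (n 0 (n
 0x2ea50a28078208208208207e08208608208208208208208208208208208208208208208208208208208200801 z
 z) (n 0 (n
 0x2ea50a28078208208208207e08208608208208208208208208208208208208208208208208208208208200801 z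
 z) z))) (n 0 (n 0 z (n 0 z (n 0 z z))) (n 0 (n 0 z (n 0 z (n 0 z z))) (n 0 (n 0 z (n 0 z (n 0
 (n 8724803 z z) z))) (n 0 (n 0 z (n 0 z (n 0 z z))) z)))))))) (n 9 (n 0 (n 0 z (n 0 z (n 0 z
 z))) (n 0 (n 0 z (n 0 z (n 0 (n
 0x30a8ea82078208208208208208208608208208208208208208208208208208208208208208208208208200801 z
 (n 0xd8748208207e082182082082082086082081f82086081f8608207e08607e08208208207e08208200041 z z))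
 z))) (n 0 (n 0 (n
 0x30a4ea28078208208208208208208208208608208208208208208208208208208208208208208208208200801 z
 (n 0xd87482082081f86086082082082086082081f82085f8208208208208208208208208207e081f8200041 z z))
 (n 0 z (n 0 z z))) (n 0 (n 0 (n
 0x30a8a8020781f81f82082082086082182086082082082081f8208208208208208208208208608208208200801 z
 (n 0xd8748208207df8208208208208208a08208207e085f82082081f8208207e08208208207e081f8200041 z z))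
 (n 0 z (n 0 z z))) (n 0 (n 0 z (n 0 z (n 0 z z))) (n 0 (n 0 (n
 0x30a8a8020781f81f82081f82086082182086082082082081f8208208208208208208208208208208208200801 z
 z) (n 0 z (n 0 z z))) (n 0 (n 0 (n
 0x10a8a8020781f8208208208208608207e08608208208208208208208208208208208208208208208208200801 z
 (n 0xd8768208207df8208208208208208a08208207e085f82082081f8208207e08208208207e081f8200041 z z))
 (n 0 z (n 0 z z))) (n 0 (n 0 z (n 0 z (n 0 z z))) (n 0 (n 0 (n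
 0x30a4ea28078208208208208208208208208608208208208208208208208208208208208208208208208200801 z
 z) (n 0 z (n 0 z z))) (n 0 (n 0 (n 7749763 z (n
 0x30a4ea28078208208208208208208208208218208208208208208208208208208208208208208208208200801 z
 z)) (n 0 (n
 0x43ac32081c0854654103830a8ea02078208208208208208608218208208208208208208208208208208208208208208608208208201801
 z (n
 0x30a8ea82078208208208208208208208208608208208208208208208208208208208208208208208208210801 z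
 z)) (n 0 (n
 0x43ac32081c0854654103830a8ea02078208208208208208608218208208208208208208208208208208208208208208608208208201801
 z (n
 0x30a8ea82078208208208208208208608208208208208208208208208208208208208208208208208208200801 z
 z)) z))) (n 0 (n 0 z (n 0 z (n 0 z z))) (n 0 (n 0 z (n 0 z (n 0 z z))) (n 0 (n 0 z (n 0 z (n 0
 z z))) (n 0 (n 0 z (n 0 (n 7 (n
 0x8e86e860030000057437420038000003a13a1001c000015d0dcc800e00000ae84e6400700000e7327320018000013a1a19000c000009d090c800e00000ae64864007000001743741001800001ba13a0800c000001d05d04006000004e86e62003000001742731001800004399398801c000005d05cc400e000002e62e62007000005743431001800000ba1218800c000009cc90c4006000004864862007000000741431001800001b98a18800c0000010c50c400e00000ce86e4200700000174272100180000cb99390800c00001dd05c8400600000ee62e42007000012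7217210018000013a1a10800c000011d0908400e00000ee64842007000000741421001800002a18a10800c000009c8508400e000004842842003000001742321001800005b99190801c0000050c8c8400e000002e82642007000003731321003800004218990800c000049c84c8400e0000048426420030000043213210038000048003918ea8000014001c8c724000006000e4636d0000090007231928000008003918a54000014001c8c60200000800482616e0000070024130d3000001001209825800001c00104c36a00000800082616d00000200041304a8000030002098314ec01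
 z (n
 0x2c3a1ba1800c0000f1d0dd0800e000026e84e840070000177437320038000003a1399001c00013dcc9cc8006000058e8686400700000574243200180000b399219001c000061d0dd04006000048e84e8200700002a7417410018000133a1b98800c000005d09cc400e000014e64e6200700000b74173100380000a398b98801c000061d0d0c400600001ce8486200300000a732431001800002a19218801c00005dd050c400e00001ce6286200300001b431431001800004ba1b90801c000101d09c84006000096e64e4200300000d741721003800018398b90801c00014dc85c84006000048e8684200300004074242100380000cb99210801c0000710c908400e00004ce82842003000020731421001800009218a10800c000061c8508400e00003884284200300000b743321001800012ba1190801c000041cc8c8400e00002e86464200300001b741321003800015b98990801c00001d0c4c84006000104e42642007000000421321003800011190990801c0000d61c9cc1006000001042e6080300001b87381040180000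9439188201c00005e1d21d0c060000250e908260700001487274130180000b43a3a0181c0000de105d00c0e000006e83040607000022874874101800004c21ba1881c000051d0e10840e00003f0e908020300002a87373010180000cba1c10080c00004e1d21cc00e0000070e7086007000008843843001800006ba1c39001c00003e1d21c40060000010e30e2003000004743841003800006c38c20800c0000361ce0c400e00000b087062003000021832731001800011420a18800c000005cc608400600008e000e463920000260007231b68000100003918c9400000402104c35c00002201082615a00000f00841304b000003004209860800006800904c36c00001200082615d00004200041306e80000780020981356400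
 z (n
 0x1e1da1d800600000f0ed0e4003000011876862001800006439431001c00004218a18800e0000230ecec400300002287276200180001a4313b1001c000111d89d880060000450ed0e200700000087187100380001143b430800c0000b21ca1840060000530c50c200300001c87186100380000cc30c30801c0000da1d9d8400e0000370e4ec200700002786276100380000ebb13b0800c00019e1c5d840060000690c2ec200700003376176100180000243b410801c0000361ca08400e00001f0c504200700000d871821001800007430c10800c00000208608400e00002d0ece4200300000d872721001800011c31390800c00004dd89c8400e0000030e2e4200700003d86172100380001b3b0b90800c000072085c84006000038e42e4200700000f876621001800000c39310801c00000e189884006000018ec4c42007000005871621001800019430b10801c0000c9d85884006000037042c4200300001a721621003800000310b10801cc000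
 z z))) z) (n 0 (n 7 (n
 0x14e86e8600300000c7437410038000163a0ba0800c00000dd0dcc400600000ee64e62003000013741731003800001b98b98800c000039d0d0c400e00001ae8486200300003373243100180000ea19218801c000055d050c4006000036e62862007000024431431001800003ba1a10801c000041d05084006000008e62842007000000431421003800009a10a10800c000025d0cc8400e000020e8464200300000f732321001800003219190801c00005dd04c8400e000004e62642007000001431321001800001b90990800c0000b5084c8400e0000046426420030000010047321d90000040023990ea8000014011cc86a400000a008e643860000050047321a10000030003990e5800001c001cc86ac000002000e642860000090007321b28000038003990c84000030001cc86ba00002c000e642d500001b00073218280000b8003990b1400000001d04c36c00001200e8261920000000024130db00000380120985b800003000104c36a00003000082612500003400041306e80000380010a00a0cc01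
 z (n
 0x270ed0ec00700000e876873003800000439c39801c00005e1da18c0060000010e70c6003000001863863003800003c3b3b1800c0000561cdd8c00e0000590c6ec600700002d763763001800016c3b438800c0000021ce1c400e0000130ed0c2003000018873861003800012c31c30800c0000621c61840060000450c30c200700006587676100180000dc39bb0800c00007e18dd8400e000032ec6ec200300008187176100380000e430bb0800c000061d85d8400e0000150ed062007000013873831003800011431c18800c00004e1c60c40060000430c306200700000083183100380001643b398801c00004e1cdcc400600000b0c6e6200300002a76373100380000a430b98800c000005d85cc4006000055062e6200300002a731731003800016c3b318800c0000661cd8c400e00004d0c6c62007000019763631001800000c38b18800c00007a1858c400e000054ec2c62003000044831631003800021b98b18800cbc00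
 z (n
 0x23dd0dd0c00e000046e86e82003000057741741001800079ba1b98801c000091cc9cc40060000a6e82e6200300002b73173100380007eba1a18800c000319d090c4006000012e648620070000624324310018000383a0a18801c0003a9cc50c40060000a48628620070000a9743421003800012ba0a10800c000175cc508400e00009086284200700002242142100180004b3a1990800c0000e1d08c84006000032e6464200300001043232100380004b3a0990801c000061cc4c8400600009a86264200700000d72132100380001e210990801c000010c84c8400e00007b086420e0700001a87187040180004eb90c38200c000119c860c100600000f0e30e040300001e841870201800009438c20100c00006a10a1084060000510e6e8420300002287484010180001bc3a410080c0000321ca08040600000b0e6e40203000022843420101800008c3a421000c0000fa10dd0800e000036e85064003000006871871001800007438c20801c00006e10610400600008d0e9042003000039871821003800026c20c10800c00008e0860840060000990e4e420030000a2842721003800017439210801c000084011cc8754000012008e6432200000a0047321a90000010023990d38000080011cc8684000022000e642960000060007321928000078003990d34000058001cc859a000010000e6428900000d000732126800002804213862800001002109c11400006c00e8261920000060074130c5000008803a09842800000801d04c09c00001c00082612500005c0004130ce80001380020983753000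
 z z))) z) z))) (n 0 (n 0 z (n 0 (n
 0x764854101810a8ca82078208208208208208608608208208208208208208208208208208218208208208208208208201001
 z z) (n 0 (n
 0x1764854101810a8ca82078208218218208208208217e08208208207e08208208208208208208208208208208218208201001
 z z) z))) (n 0 (n 0 z (n 0 z (n 0 z z))) (n 0 (n 0 z (n 0 z (n 0 z z))) (n 0 (n 0 z (n 0 z (n 0
 z z))) (n 0 (n 0 z (n 0 (n
 0x30a8ea820782082082082082082086081f8208208208208208208208208208208208208208208208208200801 z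
 (n 0xd8748208207e08208207e08218208608208207e182082082085f7e08208208208208217e085f8600041 z z))
 (n 0 (n
 0x30a8ea820782082082082082082086081f8208208208208208208208208208208208208208208208208200801 z
 (n 0xd87482082081f8208608208208208218207e08208207a08208207e08208207e08207e08208208a00041 z z))
 z))) (n 0 (n 0 z (n 0 (n
 0x30a8ea82078208208208207e08208608208208208208208208208208208208208208208208208208208200801 z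
 z) (n 0 (n
 0x30a8ea82078208208208207e08208608208208208208208208208208208208208208208208208208208200801 z
 z) z))) (n 0 (n 0 z (n 0 z (n 0 z z))) (n 0 (n 0 z (n 0 z (n 0 z z))) (n 0 (n 0 (n 8855651 z z)
 (n 0 z (n 0 z z))) (n 0 (n 0 z (n 0 z (n 0 z z))) (n 0 (n 0 z (n 0 z (n 0 z z))) (n 0 (n 0 z (n
 0 z (n 0 z z))) z)))))))))))))))))))))))))) (n 591 (n 0 (n 0 z (n 0 z (n 0 z z))) (n 0 (n 0 z
 (n 0 z (n 0 z z))) (n 0 (n 0 z (n 0 z (n 0 z z))) (n 0 (n 0 z (n 0 z (n 0 z z))) (n 0 (n 0 z (n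
 0 z (n 0 z z))) (n 0 (n 0 z (n 0 z (n 0 z z))) z)))))) (n 39 (n 0 (n 0 z (n 0 z (n 0 z z))) (n
 0 (n 0 z (n 0 z (n 0 z z))) (n 0 (n 0 z (n 0 z (n 0 z z))) (n 0 (n 0 z (n 0 z (n 0 z z))) (n 0
 (n 0 z (n 0 z (n 0 z z))) (n 0 (n 0 z (n 0 z (n 0 z z))) (n 0 (n 0 z (n 0 z (n 0 z z)))
 z))))))) (n 15 (n 0 (n 0 z (n 0 z (n 0 z z))) (n 0 (n 0 z (n 0 z (n 0 z z))) (n 0 (n 0 (n
 0x3084e62a0382082082082082086082082082081f8208208208208208208208208208208208208208208200801 z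
 z) (n 0 z (n 0 z z))) (n 0 (n 0 z (n 0 z (n 0 z z))) (n 0 (n 0 z (n 0 z (n 0 z z))) (n 0 (n 0 z
 (n 0 z (n 0 z z))) (n 0 (n 0 z (n 0 z (n 0 z z))) (n 0 (n 0 z (n 0 z (n 0 z z))) (n 0 (n 0 z (n
 0 z (n 0 z z))) z))))))))) (n 243 (n 0 (n 0 z (n 0 z (n 0 z z))) (n 0 (n 0 z (n 0 z (n 0 z z)))
 (n 0 (n 0 z (n 0 z (n 0 z z))) (n 0 (n 0 z (n 0 z (n 0 z z))) (n 0 (n 0 z (n 0 z (n 0 z z))) (n
 0 (n 0 z (n 0 z (n 0 z z))) (n 0 (n 0 z (n 0 z (n 0 z z))) (n 0 (n 0 z (n 0 z (n 0 z z))) (n 0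
 (n 0 z (n 0 z (n 0 z z))) (n 0 (n 0 z (n 0 z (n 0 z z))) z)))))))))) (n 285 (n 0 (n 0 z (n 0 z
 (n 0 z z))) (n 0 (n 0 z (n 0 z (n 0 z z))) (n 0 (n 0 z (n 0 z (n 0 z z))) z))) (n 45 (n 0 (n 0
 z (n 0 z (n 0 z z))) (n 0 (n 0 (n 7746179 z (n 8455739 z z)) (n 0 (n 8455739 z (n 8455739 z z))
 (n 0 (n 8455739 z (n 8455739 z z)) z))) (n 0 (n 0 z (n 0 (n 8455739 z z) (n 0 z z))) (n 0 (n 0
 z (n 0 z (n 0 z z))) (n 0 (n 0 z (n 0 z (n 0 z z))) (n 0 (n 0 z (n 0 z (n 0 z z))) z)))))) (n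
 11 (n 0 (n 0 z (n 0 z (n 0 z z))) (n 0 (n 0 z (n 0 z (n 0 z z))) (n 0 (n 0 z (n 0 z (n 0 z z)))
 (n 0 (n 0 z (n 0 z (n 0 z z))) (n 0 (n 0 z (n 0 z (n 0 z z))) (n 0 (n 0 z (n 0 z (n 0 z z))) (n
 0 (n 0 z (n 0 z (n 0 z z))) z))))))) (n 29 (n 0 (n 0 z (n 0 z (n 0 z z))) (n 0 (n 0 z (n 0 z (n
 0 z z))) (n 0 (n 0 z (n 0 z (n 0 z z))) (n 0 (n 0 z (n 0 z (n 0 z z))) (n 0 (n 0 z (n 0 z (n 0
 z z))) (n 0 (n 0 z (n 0 z (n 0 z z))) z)))))) (n 28 (n 0 (n 0 z (n 0 z (n 0 z z))) (n 0 (n 0 z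
 (n 0 (n 8803099 z z) (n 0 (n 8803099 z z) z))) (n 0 (n 0 z (n 0 z (n 0 z z))) (n 0 (n 0 z (n 0
 z (n 0 z z))) (n 0 (n 0 z (n 0 z (n 0 z z))) (n 0 (n 0 z (n 0 z (n 0 z z))) (n 0 (n 0 z (n 0 z
 (n 0 z z))) (n 0 (n 0 z (n 0 z (n 0 z z))) (n 0 (n 0 z (n 0 z (n 0 z z))) (n 0 (n 0 z (n 0 z (n
 0 z z))) z)))))))))) (n 155 (n 0 (n 0 z (n 0 z (n 0 (n
 0xd8428208207df8208208208208208a08208207e085f82082081f8208207e08208208207e081f8200041 z (n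
 0xd8428208207df82182082082082086182081f82086082082081f8208607e08208208207e081f8200041 z z))
 z))) (n 0 (n 0 (n 7684995 z (n 8868923 z z)) (n 0 (n 8868923 z (n 8868923 z z)) (n 0 (n
 0x854842101830a8a842038608208208208208607e18208218208207e07e082082082082082082082081f8208208208201001
 z (n 8804139 z z)) z))) (n 0 (n 0 (n 8868923 z (n 8868923 z z)) (n 0 z (n 0 z z))) (n 0 (n 0 z
 (n 0 (n 8804139 z z) (n 0 z z))) (n 0 (n 0 (n 8651291 z (n 8651291 z z)) (n 0 z (n 0 z z))) (n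
 0 (n 0 z (n 0 z (n 0 z z))) (n 0 (n 0 z (n 0 z (n 0 z z))) (n 0 (n 0 (n 7680643 z (n 8865067 z
 z)) (n 0 (n
 0x30a8a842038207e082082082086082182082181f81f7e08208208608208208218208208208207e08208200801 z
 (n 0x30a8ea82078208208208208208208208208608208208208208208208208208208208208208208208208210801
 z z)) (n 0 (n 8865067 z (n 8865067 z z)) z))) (n 0 (n 0 z (n 0 z (n 0 z z))) (n 0 (n 0 z (n 0 z
 (n 0 z z))) (n 0 (n 0 z (n 0 (n 8804139 z z) (n 0 (n 8804139 z z) z))) (n 0 (n 0 z (n 0 (n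
 8803099 z z) (n 0 (n 8803099 z z) z))) (n 0 (n 0 z (n 0 z (n 0 z z))) (n 0 (n 0 (n 8651291 z z)
 (n 0 z (n 0 z z))) (n 0 (n 0 z (n 0 z (n 0 z z))) (n 0 (n 0 z (n 0 z (n 0 z z))) (n 0 (n 0 z (n
 0 z (n 0 z z))) (n 0 (n 0 z (n 0 (n 7612427 z (n 8803099 z z)) (n 0 (n 7612427 z (n 8803099 z
 z)) z))) (n 0 (n 0 z (n 0 (n 8652603 z z) (n 0 (n 8652603 z z) z))) (n 0 (n 0 z (n 0 z (n 0 z
 z))) (n 0 (n 0 z (n 0 z (n 0 (n 8803099 z z) z))) (n 0 (n 0 z (n 0 (n 8804139 z z) (n 0 z z)))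
 (n 0 (n 0 z (n 0 z (n 0 z z))) (n 0 (n 0 z (n 0 z (n 0 z z))) (n 0 (n 0 z (n 0 z (n 0 z z))) (n
 0 (n 0 z (n 0 z (n 0 z z))) (n 0 (n 0 z (n 0 z (n 0 z z))) (n 0 (n 0 z (n 0 z (n 0 z z))) (n 0
 (n 0 z (n 0 z (n 0 z z))) (n 0 (n 0 z (n 0 z (n 0 z z))) (n 0 (n 0 (n
 0x532851403830a8a862038218218208208208207e182186081f8207e08218208608208208208208208208208208208201001
 z z) (n 0 z (n 0 z z))) z))))))))))))))))))))))))))))))) (n 435 (n 0 (n 0 z (n 0 z (n 0 z z)))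
 (n 0 (n 0 z (n 0 z (n 0 z z))) (n 0 (n 0 z (n 0 z (n 0 z z))) z))) (n 9 (n 0 (n 0 z (n 0 z (n 0
 z z))) (n 0 (n 0 z (n 0 z (n 0 z z))) (n 0 (n 0 z (n 0 z (n 0 z z))) (n 0 (n 0 z (n 0 z (n 0 z
 z))) (n 0 (n 0 z (n 0 z (n 0 z z))) z))))) (n 245 (n 0 (n 0 z (n 0 z (n 0 z z))) (n 0 (n 0 z (n
 0 z (n 0 z z))) (n 0 (n 0 z (n 0 z (n 0 z z))) (n 0 (n 0 z (n 0 z (n 0 z z))) (n 0 (n 0 z (n 0
 (n 0x67084ad81089969fa587ac9649ea79a8e66e16d785c5a3a1e79e56569e8a6a1e8628646a162a42479a7610081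
 z (n 0xd8748207e081f86086082086082086082081f7e08607e08208208208607e082081f82082081f8600041 z
 z)) (n 0 (n 8865067 z (n 8865067 z z)) z))) (n 0 (n 0 (n 7684227 z (n
 0x30a4ea28078208208208208208208208208218208208208208208208208208208208208208208208208200801 z
 z)) (n 0 (n
 0x854842101830a8a842038608208208208208607e18208218208207e07e082082082082082082082081f8208208208201001
 z (n
 0x30a8ea82078208208208208208208208208608208208208208208208208208208208208208208208208210801 z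
 z)) (n 0 (n
 0x854842101830a8a842038608208208208208607e18208218208207e07e082082082082082082082081f8208208208201001
 z (n 8804139 z z)) z))) (n 0 (n 0 (n
 0x581086082082081f82081f82082085f8218208208227e17a27de85f7df8608208608227a17e089f0041 z z) (n 0
 z (n 0 z z))) (n 0 (n 0 (n
 0x30a8a8420382182082082082082082186082081f8207a08208208608208208208208208208208208208200801 z
 (n 0x30a4ea28078208208208208208208208208608208208208208208208208208208208208208208208208200801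
 z z)) (n 0 z (n 0 z z))) (n 0 (n 0 z (n 0 (n 8804139 z z) (n 0 z z))) (n 0 (n 0 z (n 0 (n
 8804139 z z) (n 0 (n 8804139 z z) z))) (n 0 (n 0 z (n 0 z (n 0 z z))) (n 0 (n 0 z (n 0 (n
 0x30a8a842038208208208208208207e18208618208207e08208208208208208217e18207e081f7e08208610801 z
 z) (n 0 z z))) (n 0 (n 0 (n
 0x30a4ea28078208208208208208208208208608208208208208208208208208208208208208208208208200801 z
 z) (n 0 z (n 0 z z))) (n 0 (n 0 z (n 0 z (n 0 z z))) (n 0 (n 0 z (n 0 z (n 0 z z))) (n 0 (n 0 z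
 (n 0 z (n 0 z z))) (n 0 (n 0 z (n 0 (n 8804139 z z) (n 0 z z))) (n 0 (n 0 z (n 0 z (n 0 (n
 0x854754103810a8ea020782182082081f8208208607e082082082082082082081f8208208208208207e08208218208201001
 z z) z))) (n 0 (n 0 z (n 0 z (n 0 z z))) (n 0 (n 0 z (n 0 z (n 0 z z))) (n 0 (n 0 z (n 0 z (n 0
 z z))) (n 0 (n 0 z (n 0 z (n 0 z z))) (n 0 (n 0 z (n 0 z (n 0 z z))) (n 0 (n 0 z (n 0 z (n 0 z
 z))) (n 0 (n 0 z (n 0 z (n 0 z z))) (n 0 (n 0 z (n 0 (n 8804139 z z) (n 0 (n 8865067 z z) z)))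
 (n 0 (n 0 z (n 0 z (n 0 z z))) (n 0 (n 0 z (n 0 (n
 0x8854542101810a8a802038618208a081f86195f6e47e17e37de81e6de7de8628227a189f7a176081e86181f79f8608611001
 z z) (n 0 z z))) (n 0 (n 0 z (n 0 z (n 0 z z))) (n 0 (n 0 z (n 0 z (n 0 (n 8786443 z z) z))) (n
 0 (n 0 z (n 0 z (n 0 z z))) (n 0 (n 0 z (n 0 z (n 0 z z))) (n 0 (n 0 z (n 0 z (n 0 z z))) (n 0
 (n 0 z (n 0 z (n 0 z z))) (n 0 (n 0 z (n 0 z (n 0 z z))) (n 0 (n 0 z (n 0 z (n 0 z z)))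
 z)))))))))))))))))))))))))))))))))))) (n 1 (n 0 (n 0 z (n 0 z (n 0 z z))) (n 0 (n 0 z (n 0 z (n
 0 z z))) (n 0 (n 0 z (n 0 z (n 0 z z))) (n 0 (n 0 z (n 0 z (n 0 z z))) z)))) (n 0 (n 0 (n 0 z
 (n 0 z (n 0 z z))) (n 0 (n 0 z (n 0 z (n 0 z z))) (n 0 (n 0 z (n 0 z (n 0 z z))) (n 0 (n 0 z (n
 0 z (n 0 z z))) (n 0 (n 0 z (n 0 z (n 0 z z))) (n 0 (n 0 z (n 0 z (n 0 z z))) (n 0 (n 0 z (n 0
 z (n 0 z z))) (n 0 (n 0 z (n 0 z (n 0 z z))) z)))))))) z))))))))))))))))))))) z)))) z) z)))) (n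
 0xa4d944b09b8584c809b26c0caf41097a504ad2c04d5282499853a5840 (n 0x34b09 (n 599 (n 6635571 z (n 2
 z (n 0 z (n 0 z z)))) (n 411 (n 10 z (n 0 z (n 0 z (n 0 z (n 0 z (n 0 z (n 0 z (n 0 z (n 0 z (n
 0 z (n 0 z (n 0 z (n 0 z (n 18 z (n 0 z (n 0 z (n 0 z (n 26 z (n 3278363 z (n 0 z (n 0 z
 z))))))))))))))))))))) (n 594 (n 0 z (n 34 z (n 0 z (n 6566403 z (n 0 z (n 0 z (n 0 z (n 0 z (n
 0 z (n 0 z (n 0 z z))))))))))) (n 3 (n 6566403 z (n 0 z (n 6566403 z (n 0 z (n 0 z (n 42 z (n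
 50 z z))))))) (n 1 (n 0 z (n 6566403 z (n 0 z (n 58 z (n 0 z (n 0 z (n 66 z z))))))) (n 0 (n
 6635571 z (n 0 z (n 0 z (n 0 z (n 0 z (n 74 z (n 82 z (n 0 z (n 0 z (n 0 z z)))))))))) z))))))
 (n 599 (n 0 (n 1197 (n 0 z (n 0 z (n 0 z (n 0 z (n 0 z (n 0 z (n 0 z (n 2 (n 0 z (n 0 z (n 2 (n
 0 z (n 0 z (n 0 z (n 0 z (n 0 z (n 0 z z)))))) (n 2 (n 0 z (n 0 z (n 0 (n 8782891 z z) (n 0 z
 (n 0 z (n 0 z z)))))) (n 2 (n 0 z (n 0 z (n 0 z (n 0 z (n 0 z (n 0 z z)))))) (n 2 (n 0 z (n 0 z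
 (n 0 (n 2364 z z) (n 0 z (n 0 z (n 0 z z)))))) (n 2 (n 0 z (n 0 z (n 0 z (n 0 z (n 0 z (n 0 z
 z)))))) (n 2 (n 0 z (n 0 z (n 0 (n 8782891 z z) (n 0 z (n 0 z (n 0 z z)))))) (n 2 (n 0 z (n 0 z
 (n 0 z (n 0 z (n 0 z (n 0 z z)))))) z))))))))) z)))))))) (n 1197 (n 0 z (n 0 z (n 0 z (n 0 z (n
 0 z (n 0 z (n 0 z (n 0 z z)))))))) (n 1197 (n 0 z (n 0 z (n 0 z (n 0 z (n 0 z (n 0 z (n 0 z (n
 0 z z)))))))) (n 1189 (n 0 z (n 0 z (n 0 z (n 0 z (n 0 z (n 0 z (n 0 z (n 0 z z)))))))) (n 247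
 (n 0 z (n 0 z (n 0 z (n 0 z (n 0 z (n 0 z z)))))) (n 247 (n 0 z (n 0 z (n 0 z (n 0 z (n 0 z (n
 2 (n 2 (n 0 z (n 0 z (n 0 z (n 0 z (n 0 z (n 0 z z)))))) (n 2 (n 0 z (n 0 z (n 0 z (n 0 z (n 0
 z (n 0 z z)))))) (n 2 (n 0 z (n 0 z (n 0 z (n 0 z (n 0 z (n 0 z z)))))) (n 2 (n 0 z (n 0 z (n 0
 z (n 0 z (n 0 z (n 0 z z)))))) z)))) z)))))) (n 591 (n 0 z (n 0 z (n 0 z (n 0 z (n 0 z (n 0 z
 (n 0 z (n 2 (n 0 z (n 1 z (n 1 z z))) (n 0 z z))))))))) (n 591 (n 0 z (n 0 z (n 0 z (n 0 z (n 0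
 z (n 0 z (n 0 z (n 0 z (n 0 z z))))))))) (n 593 (n 0 z (n 0 z (n 0 z (n 0 z (n 0 z (n 0 z (n 0
 z (n 0 z (n 0 z (n 0 z (n 0 z (n 0 z (n 0 z z))))))))))))) (n 593 (n 0 z (n 0 z (n 0 z (n 0 z
 (n 0 z (n 0 z (n 0 z (n 0 z (n 0 z (n 0 z (n 2 z (n 0 z (n 0 z z))))))))))))) z)))))))))) (n 0
 (n 0 z (n 0 z (n 1173 (n 0 z (n 2 (n 1 z (n 2 (n 0 z (n 0 z (n 0 z (n 0 z (n 0 z (n 0 z z))))))
 (n 1 z (n 1 z (n 1 z (n 1 z z)))))) (n 0 z (n 0 z (n 0 z (n 0 z (n 0 z (n 0 z (n 0 z (n 0 z (n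
 0 z (n 0 z (n 0 z (n 0 z (n 0 z (n 0 z (n 0 z (n 0 z (n 0 z (n 0 z (n 0 z (n 0 z (n 0 z (n 0 z
 (n 0 z (n 0 z (n 0 z z))))))))))))))))))))))))))) (n 1165 (n 0 z (n 0 z (n 0 z (n 0 z (n 2 (n 0
 z (n 1 z (n 1 z (n 1 z (n 1 z z))))) (n 0 z (n 0 z z))))))) (n 1165 (n 0 z (n 0 z (n 0 z (n 0 z
 (n 0 z (n 0 z (n 0 z z))))))) (n 825 (n 0 z (n 0 z (n 0 z (n 0 z (n 0 z (n 2 (n 0 z (n 1 z (n 1
 z z))) (n 0 z z))))))) (n 825 (n 0 z (n 0 z (n 0 z (n 0 z (n 0 z (n 0 z (n 2 (n 1 z (n 1 z z))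
 z))))))) (n 821 (n 0 z (n 0 z (n 0 z (n 0 z (n 0 z (n 0 z (n 0 z (n 0 z (n 2 (n 0 z z) (n 0 z
 (n 0 z z))))))))))) (n 821 (n 0 z (n 0 z (n 0 z (n 0 z (n 0 z (n 0 z (n 0 z (n 0 z (n 0 z (n 0
 z (n 2 z z))))))))))) z))))))))) (n 0 (n 0 z (n 1189 (n 2 (n 1 z (n 2 (n 0 z (n 0 z (n 0 (n 108
 z z) (n 0 z (n 0 z (n 0 z z)))))) (n 1 z (n 1 z (n 1 z (n 1 z z)))))) (n 0 z (n 0 z (n 0 z (n 0
 z (n 0 z (n 0 z (n 0 z (n 0 z (n 0 z (n 0 z (n 0 z (n 0 z (n 0 z (n 0 z (n 0 z (n 0 z (n 0 z (n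
 0 z (n 0 z (n 0 z z))))))))))))))))))))) (n 27 (n 0 z (n 0 z (n 0 z (n 0 z (n 0 z (n 0 z (n 0 z
 (n 0 z (n 0 z (n 0 z (n 0 z (n 0 z (n 0 z (n 0 z (n 0 z (n 0 z (n 0 z (n 0 z (n 0 z (n 0 z (n 2
 (n 0 z (n 1 z (n 1 z (n 1 z (n 1 z z))))) (n 0 z (n 0 z z))))))))))))))))))))))) (n 27 (n 0 z
 (n 0 z (n 0 z (n 0 z (n 0 z (n 0 z (n 0 z (n 0 z (n 0 z (n 0 z (n 0 z (n 0 z (n 0 z (n 0 z (n 0
 z (n 0 z (n 0 z (n 0 z (n 0 z (n 0 z (n 0 z (n 0 z (n 0 z z))))))))))))))))))))))) (n 825 (n 0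
 z (n 0 z (n 0 z (n 0 z (n 0 z (n 0 z (n 0 z (n 0 z (n 0 z (n 0 z (n 0 z (n 0 z (n 0 z (n 0 z (n
 0 z (n 0 z (n 0 z (n 0 z (n 0 z (n 0 z (n 2 (n 0 z (n 1 z (n 1 z z))) (n 0 z (n 0 z
 z))))))))))))))))))))))) (n 825 (n 0 z (n 0 z (n 0 z (n 0 z (n 0 z (n 0 z (n 0 z (n 0 z (n 0 z
 (n 0 z (n 0 z (n 0 z (n 0 z (n 0 z (n 0 z (n 0 z (n 0 z (n 0 z (n 0 z (n 0 z (n 0 z (n 0 z (n 0
 z z))))))))))))))))))))))) (n 29 (n 0 z (n 0 z (n 0 z (n 0 z (n 0 z (n 0 z (n 0 z (n 0 z (n 0 z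
 (n 0 z (n 0 z (n 0 z (n 0 z (n 0 z (n 0 z (n 0 z (n 0 z (n 0 z (n 0 z (n 0 z (n 0 z
 z))))))))))))))))))))) (n 29 (n 2 z (n 0 z (n 0 z (n 0 z (n 0 z (n 0 z (n 0 z (n 0 z (n 0 z (n
 0 z (n 0 z (n 0 z (n 0 z (n 0 z (n 0 z (n 0 z (n 0 z (n 0 z (n 0 z (n 0 z (n 0 z
 z))))))))))))))))))))) z)))))))) (n 0 (n 1189 (n 0 z (n 0 z (n 0 z (n 0 z (n 0 z (n 0 z (n 0 z
 (n 0 z (n 0 z (n 0 z (n 0 z z))))))))))) (n 27 (n 0 z (n 0 z (n 0 z (n 0 z (n 0 z (n 0 z (n 0 z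
 z))))))) (n 27 (n 0 z (n 0 z (n 0 z (n 0 z (n 0 z (n 2 (n 2 (n 0 z (n 0 z (n 0 z (n 0 z (n 0 z
 (n 0 z z)))))) (n 2 (n 0 z (n 0 z (n 0 z (n 0 z (n 0 z (n 0 z z)))))) (n 2 (n 0 z (n 0 z (n 0 z
 (n 0 z (n 0 z (n 0 z z)))))) (n 2 (n 0 z (n 0 z (n 0 z (n 0 z (n 0 z (n 0 z z)))))) z)))) (n 0
 z z))))))) (n 825 (n 0 z (n 0 z (n 0 z (n 0 z (n 0 z (n 0 z (n 0 z (n 0 z (n 2 (n 0 z (n 1 z (n
 1 z z))) (n 0 z (n 0 z z))))))))))) (n 825 (n 0 z (n 0 z (n 0 z (n 0 z (n 0 z (n 0 z (n 0 z (n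
 0 z (n 0 z (n 0 z (n 0 z z))))))))))) (n 821 (n 0 z (n 0 z (n 0 z (n 0 z (n 0 z (n 0 z (n 0 z
 (n 0 z (n 0 z (n 0 z (n 0 z (n 0 z (n 0 z (n 0 z (n 0 z (n 0 z (n 0 z (n 0 z
 z)))))))))))))))))) (n 821 (n 0 z (n 0 z (n 0 z (n 0 z (n 0 z (n 0 z (n 0 z (n 0 z (n 0 z (n 0
 z (n 0 z (n 0 z (n 0 z (n 0 z (n 2 z (n 0 z (n 0 z (n 0 z z)))))))))))))))))) z))))))) (n 0 (n
 55 (n 0 z (n 0 z (n 0 z (n 0 z (n 0 z (n 0 z (n 0 z (n 0 z (n 0 z (n 0 z (n 0 z z))))))))))) (n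
 55 (n 0 z (n 0 z (n 0 z (n 0 z (n 0 z (n 0 z (n 0 z (n 0 z (n 0 z (n 0 z (n 2 (n 2 (n 0 z (n 0
 z (n 0 z (n 0 z (n 0 z (n 0 z z)))))) (n 2 (n 0 z (n 0 z (n 0 z (n 0 z (n 0 z (n 0 z z)))))) (n
 2 (n 0 z (n 0 z (n 0 z (n 0 z (n 0 z (n 0 z z)))))) (n 2 (n 0 z (n 0 z (n 0 z (n 0 z (n 0 z (n
 0 z z)))))) z)))) z))))))))))) (n 3 (n 0 z (n 0 z (n 0 z (n 0 z (n 2 (n 0 z (n 1 z (n 1 z z)))
 (n 0 z (n 0 z (n 0 z (n 0 z (n 0 z (n 0 z z))))))))))) (n 3 (n 0 z (n 0 z (n 0 z (n 0 z (n 0 z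
 (n 0 z (n 0 z (n 0 z (n 0 z (n 0 z (n 0 z z))))))))))) (n 1 (n 0 z (n 0 z (n 0 z (n 0 z (n 0 z
 (n 0 z (n 0 z (n 0 z (n 0 z (n 0 z (n 0 z (n 0 z (n 0 z (n 0 z (n 0 z (n 0 z (n 0 z (n 0 z (n 0
 z (n 0 z (n 0 z (n 0 z (n 0 z (n 0 z (n 0 z (n 0 z (n 0 z (n 0 z (n 0 z (n 0 z (n 0 z (n 0 z (n
 0 z z))))))))))))))))))))))))))))))))) (n 1 (n 0 z (n 0 z (n 0 z (n 0 z (n 0 z (n 0 z (n 0 z (n
 0 z (n 0 z (n 0 z (n 0 z (n 0 z (n 0 z (n 0 z (n 0 z (n 0 z (n 2 z (n 0 z (n 0 z (n 0 z (n 0 z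
 (n 0 z (n 0 z (n 0 z (n 0 z (n 0 z (n 0 z (n 0 z (n 0 z (n 0 z (n 0 z (n 0 z (n 0 z
 z))))))))))))))))))))))))))))))))) z)))))) (n 0 (n 0 z (n 15 (n 0 z (n 0 z (n 0 z (n 0 z (n 2
 (n 0 z (n 1 z (n 1 z z))) (n 0 z (n 0 z (n 0 z z)))))))) (n 15 (n 0 z (n 0 z (n 0 z (n 0 z (n 0
 z (n 0 z (n 0 z (n 0 z z)))))))) (n 13 (n 0 z (n 0 z (n 0 z (n 0 z (n 0 z (n 0 z (n 0 z (n 0 z
 (n 0 z (n 0 z (n 0 z (n 0 z (n 0 z (n 0 z (n 0 z (n 0 z (n 0 z (n 0 z (n 0 z (n 0 z (n 0 z (n 0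
 z (n 0 z z))))))))))))))))))))))) (n 13 (n 0 z (n 0 z (n 0 z (n 0 z (n 0 z (n 0 z (n 0 z (n 0 z
 (n 0 z (n 0 z (n 2 z (n 0 z (n 0 z (n 0 z (n 0 z (n 0 z (n 0 z (n 0 z (n 0 z (n 0 z (n 0 z (n 0
 z (n 0 z z))))))))))))))))))))))) z))))) (n 0 (n 243 (n 0 z (n 0 z (n 0 z (n 0 z (n 0 z (n 0 z
 (n 0 z z))))))) (n 243 (n 0 z (n 0 z (n 0 z (n 0 z (n 0 z (n 0 z (n 2 (n 2 (n 0 z (n 0 z (n 0 z
 (n 0 z (n 0 z (n 0 z z)))))) (n 2 (n 0 z (n 0 z (n 0 z (n 0 z (n 0 z (n 0 z z)))))) z))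
 z))))))) (n 5 (n 0 z (n 0 z (n 0 z (n 0 z (n 0 z (n 0 z (n 0 z (n 0 z (n 2 (n 0 z z) (n 0 z (n
 0 z z))))))))))) (n 5 (n 0 z (n 0 z (n 0 z (n 0 z (n 0 z (n 0 z (n 0 z (n 0 z (n 0 z (n 0 z (n
 0 z z))))))))))) z)))) (n 0 (n 0 z (n 601 (n 2 (n 0 z z) (n 0 z (n 0 z (n 0 z (n 0 z (n 0 z (n
 0 z (n 0 z (n 0 z (n 0 z (n 0 z z))))))))))) (n 601 (n 0 z (n 0 z (n 0 z (n 0 z (n 0 z (n 0 z
 (n 0 z (n 0 z (n 0 z (n 0 z (n 0 z z))))))))))) z))) (n 0 (n 25 (n 0 z (n 0 z (n 0 z (n 0 z (n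
 0 z (n 0 z (n 0 z (n 0 z (n 0 z (n 0 z (n 0 z z))))))))))) (n 25 (n 2 z (n 0 z (n 0 z (n 0 z (n
 0 z (n 0 z (n 0 z (n 0 z (n 0 z (n 0 z (n 0 z z))))))))))) z)) (n 0 (n 0 z z) (n 0 z
 z))))))))))) (n 0 (n 1 (n 6635571 z (n 6566403 z (n 6635571 z (n 6635571 z (n 6635571 z (n
 6635571 z z)))))) (n 1 (n 2 z (n 6566403 z (n 3292 z (n 3292 z (n 3292 z (n 3292 z z)))))) (n 0
 z (n 0 z z)))) (n 0 (n 0xc29365d01364db032bc4cc29 (n 0 (n 0 (n 7741707 z (n 7741707 z (n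
 7741707 z (n 7741707 z (n 7741707 z (n 7741707 z z)))))) z) (n 0 (n 599 (n 1 (n 7684147 z (n
 7684147 z (n 7684147 z (n 7684147 z (n 7684147 z (n 7684147 z z)))))) (n 1 (n 7669275 z (n
 7734315 z (n 7734315 z (n 7734315 z (n 7734315 z (n 7734315 z z)))))) (n 0 z (n 0 z z)))) (n 13
 (n 1 (n 7614979 z (n 7614979 z (n 7614979 z (n 7614979 z (n 7614979 z (n 7614979 z z)))))) (n 1
 (n 4796 z (n 7684147 z (n 4796 z (n 2 z (n 4796 z (n 4796 z z)))))) (n 1 (n 7614979 z (n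
 7614979 z (n 7614979 z (n 7614979 z (n 7614979 z (n 7614979 z z)))))) (n 1 (n 4796 z (n 7684147
 z (n 6489883 z (n 4796 z (n 4796 z (n 4796 z z)))))) (n 0 z (n 1 (n 4796 z (n 7684147 z (n 4796
 z (n 4796 z (n 4796 z (n 6636403 z z)))))) (n 1 (n 4327195 z (n 7684147 z (n 3278619 z (n
 4327195 z (n 4327195 z (n 4327195 z z)))))) z))))))) (n 599 (n 1 (n 7684147 z (n 7614979 z (n
 7684147 z (n 7684147 z (n 7684147 z (n 7684147 z z)))))) (n 0 z (n 1 (n 4396843 z (n 7614979 z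
 (n 4396843 z (n 4396843 z (n 4396843 z (n 4396843 z z)))))) (n 0 z (n 0 z (n 0 z (n 1 (n 4764 z
 (n 7614979 z (n 4764 z (n 4756 z (n 7741707 z (n 4764 z z)))))) (n 0 z z)))))))) (n 177 (n 0 z
 (n 1 (n 4331323 z (n 7614979 z (n 7741707 z (n 4331323 z (n 4331323 z (n 4331323 z z)))))) (n 0
 z (n 0 z (n 1 (n 7741707 z (n 7614979 z (n 4331275 z (n 4331275 z (n 4331275 z (n 4331275 z
 z)))))) (n 1 (n 508 z (n 7614979 z (n 508 z (n 7741707 z (n 10 z (n 6635635 z z)))))) z))))))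
 (n 1 (n 0 z (n 1 (n 7614979 z (n 7614979 z (n 7614979 z (n 7614979 z (n 7614979 z (n 7614979 z
 z)))))) (n 0 z (n 1 (n 2380 z (n 2380 z (n 2380 z (n 2380 z (n 7669275 z (n 18 z z)))))) (n 0 z
 (n 0 z (n 1 (n 7741707 z (n 7741707 z (n 7741707 z (n 7741707 z (n 7741707 z (n 7741707 z
 z)))))) z))))))) (n 0 (n 1 (n 7684147 z (n 7684147 z (n 7684147 z (n 7684147 z (n 7684147 z (n
 7684147 z z)))))) (n 0 z (n 0 z (n 0 z (n 0 z (n 1 (n 7741707 z (n 7741707 z (n 7741707 z (n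
 7741707 z (n 7741707 z (n 7741707 z z)))))) (n 1 (n 2380 z (n 2380 z (n 2380 z (n 2380 z (n
 7669275 z (n 26 z z)))))) (n 0 z (n 0 z (n 0 z z)))))))))) (n 599 (n 1 (n 7684147 z (n 7614979
 z (n 7684147 z (n 7684147 z (n 7684147 z (n 7684147 z z)))))) (n 1 (n 7741707 z (n 7614979 z (n
 7734315 z (n 7734315 z (n 7734315 z (n 7734315 z z)))))) (n 0 z (n 0 z z)))) z))))))) (n 0 (n 0
 (n 0 z (n 0 z (n 0 z (n 0 z z)))) (n 0 (n 0 z (n 0 z (n 0 z z))) (n 0 (n 0 z (n 0 z z)) (n 0 (n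
 0 z z) z)))) (n 0 (n 599 (n 0 (n 0 z (n 0 z (n 0 z (n 0 z z)))) (n 0 (n 0 z (n 0 z (n 0 (n
 4401179 z z) (n 0 (n 4401179 z z) z)))) (n 0 (n 0 z (n 0 z (n 0 z (n 0 z z)))) (n 0 (n 0 z (n 0
 z (n 0 z (n 0 z z)))) (n 0 (n 0 (n
 0x876876201850ececa4038208208208208218227e08208608208608618217e07e07a07e08207e07e08608608608208201001
 z (n
 0x550e82887480aa1b7608277a65a78a061a71c71c82882271fa5c82092689f85782a9da5e7720adf8967e60081 z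
 z)) (n 0 z (n 0 (n 8783707 z (n
 0x587587260180c3b3b1a81c061d9d89406150caec840780997798788070807f8973788281838c847a7b8e7c807f7f859977898775815e886c8086767b7d867d8d8186847d887f7f822009
 z z)) (n 0 (n 8783707 z (n
 0x187676240182ecb0c840781b8d292095dc1a8db918bd785cc0bb17a2b514a9f7218ad52195881f6637e785ba616656e51001
 z z)) z)))) (n 0 (n 0 z (n 0 z (n 0 z (n 0 z z)))) (n 0 (n 0 (n 8861003 z z) (n 0 (n 8872275 z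
 z) (n 0 z (n 0 z z)))) (n 0 (n 0 z (n 0 z (n 0 z (n 0 z z)))) z)))))))) (n 599 (n 0 (n 0 z (n 0
 z (n 0 z (n 0 z z)))) (n 0 (n 0 z (n 0 z (n 0 z (n 0 z z)))) (n 0 (n 0 z (n 0 z (n 0 z (n 0 z
 z)))) (n 0 (n 0 z (n 0 (n
 0x4ec70c4a0381f82082082082081f7e08608208218208607e185f7e185f7df81f7e08608208208208218610801 z
 (n 8803443 z z)) (n 0 z (n 0 z z)))) (n 0 (n 0 z (n 0 z (n 0 z (n 0 z z)))) (n 0 (n 0 z (n 0 z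
 (n 0 z (n 0 z z)))) (n 0 (n 0 z (n 0 z (n 0 z (n 0 z z)))) (n 0 (n 0 z (n 0 z (n 0 z (n 0 z
 z)))) z)))))))) (n 595 (n 0 (n 0 z (n 0 z (n 0 z (n 0 z z)))) (n 0 (n 0 z (n 0 z (n 0 z (n 0 z
 z)))) (n 0 (n 0 z (n 0 z (n 0 z (n 0 z z)))) (n 0 (n 0 z (n 0 z (n 0 z (n 0 z z)))) (n 0 (n 0 z
 (n 0 z (n 0 z (n 0 z z)))) (n 0 (n 0 z (n 0 z (n 0 z (n 0 z z)))) (n 0 (n 0 (n
 0x1753872603810ed0ec60381f82082082082082182086081f7e181f82081f7a08a07e08207de8608608618208208218201001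
 z z) (n 0 z (n 0 z (n 0 z z)))) (n 0 (n 0 z (n 0 z (n 0 z (n 0 z z)))) (n 0 (n 0 z (n 0 z (n 0
 z (n 0 z z)))) (n 0 (n 0 z (n 0 z (n 0 z (n 0 z z)))) (n 0 (n 0 z (n 0 z (n 0 z (n 0 z z))))
 z))))))))))) (n 177 (n 0 (n 0 z (n 0 z (n 0 z (n 0 z z)))) (n 0 (n 0 z (n 0 z (n 0 z (n 0 z
 z)))) (n 0 (n 0 z (n 0 z (n 0 z (n 0 z z)))) (n 0 (n 0 (n
 0x876876201850ececa4038208208208208218227e08208608208608618217e07e07a07e08207e07e08608608608208201001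
 z (n
 0x550e82887480aa1b7608277a65a78a061a71c71c82882271fa5c82092689f85782a9da5e7720adf8967e60081 z
 z)) (n 0 z (n 0 (n 8783707 z (n
 0x1a1d61c980e0d0ecec4a038092739786807675808491737b7d86869b6f8088798181a2778b7f8a79828b7379718888717a6e8b808289928d817e8980851009
 z z)) (n 0 (n 8783707 z (n
 0x187676240182ecb0c840781b8d292095dc1a8db918bd785cc0bb17a2b514a9f7218ad52195881f6637e785ba616656e51001
 z z)) z)))) (n 0 (n 0 z (n 0 z (n 0 z (n 0 z z)))) (n 0 (n 0 z (n 0 z (n 0 z (n 0 z z))))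
 z)))))) (n 63 (n 0 (n 0 z (n 0 z (n 0 z (n 0 z z)))) (n 0 (n 0 z (n 0 z (n 0 z (n 0 z z)))) (n
 0 (n 0 z (n 0 z (n 0 z (n 0 z z)))) (n 0 (n 0 z (n 0 z (n 0 z (n 0 z z)))) (n 0 (n 0 z (n 0 z
 (n 0 z (n 0 z z)))) (n 0 (n 0 z (n 0 z (n 0 z (n 0 z z)))) (n 0 (n 0 z (n 0 z (n 0 z (n 0 z
 z)))) z))))))) (n 51 (n 0 (n 0 z (n 0 z (n 0 z (n 0 z z)))) (n 0 (n 0 z (n 0 z (n 0 z (n 0 z
 z)))) (n 0 (n 0 z (n 0 z (n 0 z (n 0 z z)))) (n 0 (n 0 z (n 0 z (n 0 z (n 0 z z)))) (n 0 (n 0 z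
 (n 0 z (n 0 z (n 0 z z)))) (n 0 (n 0 z (n 0 z (n 0 z (n 0 z z)))) (n 0 (n 0 z (n 0 z (n 0 z (n
 0 z z)))) (n 0 (n 0 z (n 0 z (n 0 z (n 0 z z)))) (n 0 (n 0 z (n 0 z (n 0 z (n 0 z z)))) (n 0 (n
 0 z (n 0 z (n 0 z (n 0 z z)))) (n 0 (n 0 z (n 0 z (n 0 z (n 0 z z)))) z))))))))))) (n 297 (n 0
 (n 0 z (n 0 z (n 0 z (n 0 z z)))) (n 0 (n 0 z (n 0 z (n 0 z (n 0 z z)))) (n 0 (n 0 (n 7673915 z
 (n 0x10ececa40382082082082082082081f8207e08208208208208208208208208208208208208208208208200801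
 z z)) (n 0 z (n 0 (n
 0x30ecec4a078208208208208208208208208208208208208208208208608208208208208208208208208200801 z
 (n
 0xd4328208650970e612a1cc48c39830873805e89788580847d7a8c74867f857c6d6f847e687b96818b707d927676878d8c7e888878739d867a817b827995776a74847a0189
 z z)) (n 0 (n
 0x2ecb0c84038208208208208208208208208208208208208207e18208208208208208608208208208208200801 z
 (n
 0xd4328208650970e612a1cc48c39830873805e89788580847d7a8c74867f857c6d6f847e687b96818b707d927676878d8c7e888878739d867a817b827995776a74847a0189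
 z z)) z)))) (n 0 (n 0 z (n 0 z (n 0 z (n 0 z z)))) (n 0 (n 0 z (n 0 z (n 0 (n
 0x6e1d8350ec158728207a58606225e98a17ea81f6e03e45e7a15a2086875d9a189a81c86575f8e38a28d9a2185e00c1
 z (n
 0x30ecec4a078208208208208208208208208208208208208208208208208208208208218208208208208200801 z
 z)) (n 0 (n
 0x6e1d8350ec158728207a58606225e98a17ea81f6e03e45e7a15a2086875d9a189a81c86575f8e38a28d9a2185e00c1
 z (n 0xecb0c84030821 z z)) z)))) (n 0 (n 0 z (n 0 z (n 0 z (n 0 z z)))) (n 0 (n 0 (n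
 0x270ec1287681d8228a075f7657df8227a07a075c7258607638617a08a08dc89e72689e86181f8df7de7a10081 z
 (n 0x30e6ea4c038218608207df82181f82082081f8207e08207e08208208607e082082081f8627e08208208210801
 z z)) (n 0 z (n 0 z (n 0 z z)))) (n 0 (n 0 z (n 0 z (n 0 z (n 0 z z)))) (n 0 (n 0 z (n 0 z (n 0
 z (n 0 z z)))) z))))))))) (n 413 (n 0 (n 0 z (n 0 (n 8872275 z z) (n 0 z (n 0 z z)))) (n 0 (n 0
 z (n 0 z (n 0 z (n 0 z z)))) (n 0 (n 0 (n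
 0x30ececa4038207e08208208208218208208208208208208207e18207e082082082086181f8618208208200801 z
 (n 7473259 z z)) (n 0 (n
 0x6e1d8350ec158708207a58606225e98a17ea81f6e03e45e7a15a2086875d9a189a81c86575f8e38a28d9a2185e00c1
 z (n
 0x30ecec4a078208208208208208208208208208208208208208208208208208208208218208208208208200801 z
 z)) (n 0 z (n 0 (n 8783707 z (n 7473259 z z)) z)))) (n 0 (n 0 z (n 0 z (n 0 (n 7754627 z (n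
 7538715 z z)) (n 0 (n 0xecb0c84030821 z (n
 0x186586520180ec8ec820781f7e086082082182185e8a089b7e179f89f81e81f8a082089f8208a18df8217a07a08628231001
 z z)) z)))) (n 0 (n 0 z (n 0 z (n 0 z (n 0 z z)))) (n 0 (n 0 (n
 0x30ecec040782275e9a079e82292181f85f7df6e572191d85b9a176092379f89d82275f9a189f75f7e77600801 z
 (n 8800091 z z)) (n 0 z (n 0 z (n 0 z z)))) (n 0 (n 0 z (n 0 z (n 0 z (n 0 z z)))) (n 0 (n 0 z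
 (n 0 z (n 0 z (n 0 z z)))) (n 0 (n 0 z (n 0 z (n 0 z (n 0 z z)))) (n 0 (n 0 z (n 0 z (n 0 z (n
 0 z z)))) (n 0 (n 0 z (n 0 z (n 0 z (n 0 z z)))) z))))))))))) (n 15 (n 0 (n 0 z (n 0 z (n 0 z
 (n 0 z z)))) (n 0 (n 0 z (n 0 z (n 0 z (n 0 z z)))) (n 0 (n 0 z (n 0 z (n 0 z (n 0 z z)))) (n 0
 (n 0 z (n 0 z (n 0 (n 7680387 z (n 7538715 z z)) (n 0 (n
 0x175384260181084ea02078208208608218208207e08208208207e081f82085f82086082081f8208208207e08218218211001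
 z (n 7538715 z z)) z)))) (n 0 (n 0 z (n 0 z (n 0 z (n 0 z z)))) (n 0 (n 0 (n
 0x70ed0ec603805a08aa0b25cdb6ae7d75d6919d0db5b8e5390a5fa1a875761845b65a5b7a860da1c5dd5e70801 z
 (n 0x2ea70e4c078208208208208208208208208208208208208208207e08208208208208208208208208218200801
 z z)) (n 0 (n
 0x6e1d8350ec158708207a58606225e98a17ea81f6e03e45e7a15a2086875d9a189a81c86575f8e38a28d9a2185e00c1
 z (n
 0xb8760950ec1061d81c43b05d81020702044a04094c0802b510802d9c508680988b83928b79898bb43e607472327b9991b76535a572798299d26f9990607eaf7b6982828574967f817b84840249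
 z z)) (n 0 z (n 0 (n
 0x842751601810e8e62c0781d85f8208208a07a381f7df7df85f86081f7a089f8218217e081d8628607e379f8df81e7e21001
 z (n
 0x1d4e10980e090ed0ec607047658643038243b438981c1e1d618c40612ecb0c620780a267b97d80606b6a8f4a967d7b4495838d83b37094678969d36486866a8d2ea76086915f99948889797b818b845b5e8b783009
 z z)) z)))) (n 0 (n 0 z (n 0 z (n 0 z (n 0 z z)))) (n 0 (n 0 z (n 0 z (n 0 z (n 0 z z)))) (n 0
 (n 0 z (n 0 z (n 0 z (n 0 z z)))) (n 0 (n 0 z (n 0 z (n 0 z (n 0 z z)))) (n 0 (n 0 z (n 0 z (n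
 0 z (n 0 z z)))) z))))))))))) (n 13 (n 0 (n 0 z (n 0 z (n 0 z (n 0 z z)))) (n 0 (n 0 z (n 0 z
 (n 0 z (n 0 z z)))) (n 0 (n 0 z (n 0 z (n 0 z (n 0 z z)))) (n 0 (n 0 (n 8663555 z z) (n 0 z (n
 0 z (n 0 z z)))) (n 0 (n 0 z (n 0 z (n 0 z (n 0 z z)))) (n 0 (n 0 z (n 0 z (n 0 z (n 0 z z))))
 (n 0 (n 0 z (n 0 z (n 0 z (n 0 z z)))) (n 0 (n 0 z (n 0 z (n 0 z (n 0 z z)))) z)))))))) (n 297
 (n 0 (n 0 z (n 0 z (n 0 z (n 0 z z)))) (n 0 (n 0 (n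
 0x25c3b04a8761230ec0c21d80d410820821805e89788580847d7a8c74867f857c6d6f847e687b96818b707d927676878d8c7e888878739d867a817b827995776a74847a0189
 z z) (n 0 z (n 0 (n 8848171 z z) (n 0 z z)))) (n 0 (n 0 z (n 0 z (n 0 z (n 0 z z)))) (n 0 (n 0
 z (n 0 z (n 0 z (n 0 z z)))) (n 0 (n 0 z (n 0 z (n 0 z (n 0 z z)))) (n 0 (n 0 (n
 0x1c39c39300c08768762018f0caec64078088513e0b75d13534a1ecd215cc44f92a1888985baa17ec6ad75fc1a73012a563e88b52aa31801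
 z (n
 0x550e82887480aa1b7608277a65a78a061a71c71c82882271fa5c82092689f85782a9da5e7720adf8967e60081 z
 z)) (n 0 z (n 0 (n
 0x30caec840382082082082082086082082082081f8208208208208218218218208208208208208208208200801 z
 (n
 0x5d0e14980e043b43b181c1865764203810e70e620781f8208208218207e182175e7238608a07a182186189c8a086089f82186081f7e08227dc8602001
 z z)) (n 0 (n
 0x2ec50e28078208208208208208218208218208208208208208208207e082082082082182082081f8208200801 z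
 (n 0x30e90e6c078168a576079f7a56627e26de79e7df6e97e476585a82099d9218df72695b7627e2a9b6db85d0801
 z z)) z)))) (n 0 (n 0 z (n 0 z (n 0 z (n 0 z z)))) (n 0 (n 0 z (n 0 z (n 0 (n
 0x9875732601910eae62c03121d5c858061c32bb2100c476485020192ecaeca2078394aad603547ec9c5d55bedb9279e2677734af7653259cd8cfc226a35219f185a7e25685633001
 z z) (n 0 (n 0x10ec96d0821 z z) z)))) (n 0 (n 0 z (n 0 z (n 0 z (n 0 z z)))) (n 0 (n 0 z (n 0 z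
 (n 0 z (n 0 z z)))) (n 0 (n 0 z (n 0 z (n 0 z (n 0 z z)))) (n 0 (n 0 z (n 0 z (n 0 z (n 0 z
 z)))) (n 0 (n 0 z (n 0 z (n 0 z (n 0 z z)))) z))))))))))))) (n 411 (n 0 (n 0 z (n 0 z (n 0 z (n
 0 z z)))) (n 0 (n 0 z (n 0 z (n 0 z (n 0 z z)))) (n 0 (n 0 z (n 0 z (n 0 z (n 0 z z)))) (n 0 (n
 0 (n 8732723 z z) (n 0 z (n 0 z (n 0 (n 8732723 z z) z)))) (n 0 (n 0 (n
 0x270e41287281d8228a075f7657df8227a07a075c7258607638617a08a08dc89e72689e86181f8df7de7a10081 z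
 (n 0x30ecec84078208208208208208208208208208208208208208207e08608208208208608208208208208200801
 z z)) (n 0 z (n 0 (n
 0x550e42887280aa1b7608277a65a78a061a71c71c82882271fa5c82092689f85782a9da5e7720adf8967e60081 z
 (n 0x558728285dec606553ede625a64ecc1d17626a75bcdbce12f072769f8607a03e4d989a93a0a326940041 z z))
 (n 0 (n
 0x287384260184ec70e28078208218207e082081f8208607e07df7e081f81f85e82081f8a08608618607e17e07e08618211001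
 z (n
 0x43b3b1a00c087386240180ec50e280382c6716e059e5a76a37a56678215ad66685b9b062581d88e9d67e76617e48618a88dd89e91b1801
 z z)) z)))) (n 0 (n 0 (n
 0x30ecec84078208208208208208208208208208208208208218207e08608208208208208208208208208200801 z
 z) (n 0 z (n 0 z (n 0 (n
 0xf0ea864c030e87542060183432432101c1e19590c80e0f0e90e8003802d967c778088987895868378838d6575625e7a67a1898e7a4d9464897ca2b18e8b846a8e9c9f5969906f918f83907484962809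
 z z) z)))) (n 0 (n 0 z (n 0 z (n 0 z (n 0 (n
 0x1876762403810ed0ec4078208208208208208208208207e08208208208218218218a08208208208208208208208208201001
 z z) z)))) (n 0 (n 0 z (n 0 z (n 0 z (n 0 z z)))) (n 0 (n 0 z (n 0 (n
 0x270e81287481d8228a075f7657df8227a07a075c7258607638617a08a08dc89e72689e86181f8df7de7a10081 z
 (n 8803443 z z)) (n 0 z (n 0 z z)))) (n 0 (n 0 z (n 0 z (n 0 z (n 0 z z)))) (n 0 (n 0 z (n 0 z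
 (n 0 z (n 0 z z)))) (n 0 (n 0 z (n 0 z (n 0 z (n 0 z z)))) (n 0 (n 0 z (n 0 z (n 0 z (n 0 z
 z)))) (n 0 (n 0 z (n 0 z (n 0 (n
 0x743852603810caec840781f8208208208208207e08208608207e081f81f85f7e282081f8208218208207e08208628211001
 z z) (n 0 (n
 0xc3a439301c0876876401810ecec480382081f8207e08207e085f85f89f8208208a08218207e082082081f8208208618208208208201801
 z z) z)))) (n 0 (n 0 z (n 0 z (n 0 z (n 0 z z)))) (n 0 (n 0 z (n 0 z (n 0 z (n 0 z z)))) (n 0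
 (n 0 z (n 0 z (n 0 z (n 0 z z)))) (n 0 (n 0 z (n 0 z (n 0 z (n 0 z z)))) z)))))))))))))))))) (n
 21 (n 0 (n 0 z (n 0 z (n 0 z (n 0 z z)))) (n 0 (n 0 z (n 0 (n 7538715 z (n 8803443 z z)) (n 0 z
 (n 0 z z)))) (n 0 (n 0 z (n 0 z (n 0 z (n 0 (n 0x10c7082e070821 z z) z)))) (n 0 (n 0 z (n 0 z
 (n 0 z (n 0 z z)))) (n 0 (n 0 z (n 0 z (n 0 z (n 0 z z)))) (n 0 (n 0 z (n 0 z (n 0 z (n 0 z
 z)))) (n 0 (n 0 (n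
 0xd42182084309702012a04048c08030810805e89788580847d7a8c74867f857c6d6f847e687b96818b707d927676878d8c7e888878739d867a817b827995776a74847a0189
 z (n
 0xd42182084309702012a04048c08030810805e89788580847d7a8c74867f857c6d6f847e687b96818b707d927676878d8c7e888878739d867a817b827995776a74847a0189
 z z)) (n 0 (n
 0xd42182084309702012a04048c08030810805e89788580847d7a8c74867f857c6d6f847e687b96818b707d927676878d8c7e888878739d867a817b827995776a74847a0189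
 z (n 8803443 z z)) (n 0 (n
 0x4587382665eba06d74aad226255a9b5d2b23a979cbdbbe13ed7666df8207e04a2c5a9274619af7170041 z (n
 0x270e61287381d8228a075f7657df8227a07a075c7258607638617a08a08dc89e72689e86181f8df7de7a10081 z
 z)) (n 0 z z)))) (n 0 (n 0 z (n 0 z (n 0 z (n 0 z z)))) (n 0 (n 0 z (n 0 z (n 0 z (n 0 z z))))
 (n 0 (n 0 z (n 0 z (n 0 z (n 0 z z)))) (n 0 (n 0 (n 8663555 z (n 8663555 z z)) (n 0 (n 8663555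
 z (n 8663555 z z)) (n 0 (n 8663555 z (n 8663555 z z)) (n 0 (n 8663555 z (n 8663555 z z)) z))))
 (n 0 (n 0 z (n 0 z (n 0 (n
 0x2e870a4c038208208208208218608208207e08208208208218208208208208208208208208208208608210801 z
 z) (n 0 z z)))) (n 0 (n 0 z (n 0 z (n 0 z (n 0 z z)))) (n 0 (n 0 z (n 0 z (n 0 z (n 0 z z))))
 (n 0 (n 0 z (n 0 z (n 0 z (n 0 z z)))) (n 0 (n 0 (n 8663555 z z) (n 0 z (n 0 z (n 0 (n 8663555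
 z z) z)))) (n 0 (n 0 z (n 0 z (n 0 z (n 0 z z)))) (n 0 (n 0 z (n 0 z (n 0 z (n 0 z z)))) (n 0
 (n 0 z (n 0 z (n 0 (n 8663555 z z) (n 0 (n 8663555 z z) z)))) (n 0 (n 0 z (n 0 z (n 0 z (n 0 z
 z)))) (n 0 (n 0 z (n 0 (n 8663555 z z) (n 0 z (n 0 z z)))) (n 0 (n 0 z (n 0 z (n 0 z (n 0 z
 z)))) (n 0 (n 0 z (n 0 z (n 0 z (n 0 z z)))) (n 0 (n 0 (n
 0x270e81287481d8228a075f7657df8227a07a075c7258607638617a08a08dc89e72689e86181f8df7de7a10081 z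
 (n 0x2e870e4c038208208208208208208208208208208208208208608208608208208208208208208208208200801
 z z)) (n 0 z (n 0 (n
 0xba1c29301c0852741603810eae62c0381f7e17a08608608637e17e07a185e8207a082076195d7e08617df8618a082086082081f8601801
 z (n
 0x743852603810a4e82c078208208208208208218208207df81f8207e08208208a082082081f8608608208208208208201001
 z z)) (n 0 (n
 0x10e90e82078208208207df7e185f8217df82081f82081f8208a07a18617a086182182082181f81f7a18210801 z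
 (n
 0xc32418381c021da1cd00e010ecec68038097739e7e806b7a6f8e767f7d8672928c7f73976f8b788082a26a89827a805e926c818874848680868281887e837f7981801809
 z z)) z)))) (n 0 (n 0 z (n 0 z (n 0 z (n 0 z z)))) (n 0 (n 0 (n
 0x270e81287481d8228a075f7657df8227a07a075c7258607638617a08a08dc89e72689e86181f8df7de7a10081 z
 (n 0x2e870e4c038208208208208208208208208208208208208208608208608208208208608208208208208200801
 z z)) (n 0 z (n 0 (n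
 0x1432ba0980c2865740101810a4e802038128de8208a46e8a5d76795d8995576298639d799e7a686d76285e8a379c76282589fa618211801
 z (n
 0x1743852603810a4e82c078208208208208208208208607df82082082082082089f8208208208218608208207e08618211001
 z z)) (n 0 (n
 0x30e90e82078207e08607a082189f8217df82081f7e17de8219207a08dd7e08617e282082281f81e8217e10801 z
 (n 0xf0e2ec080780ca89820ca6a18a6285d9d781da51a1b8e37059958e773b6f37d7aa1a5771a79875f76b7a10801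
 z z)) z)))) (n 0 (n 0 (n
 0x2e870e4c038208208208208208208208207e08208208208218208208208208208208608208208208208200801 z
 z) (n 0 z (n 0 z (n 0 (n
 0x230ed0e280700d876860403806c3a43a080c05e1d21c040e0270e8e8020780075d8307c77e180084782c8027f68158257ed8017f47ca7f07d77f17ec80082580880980578f8587987e783682886e7ee86c7fe7e381a81e82b7d67c47fc7ef81382d7d080781c8147f22811
 z z) z)))) (n 0 (n 0 z (n 0 z (n 0 z (n 0 z z)))) (n 0 (n 0 z (n 0 z (n 0 (n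
 0x10ed0ec6078208208207e08208608217a082082082081f8218a07e085f7e082082182182182081f8208200801 z
 (n
 0x1876876303830c90c860382082082082082082082082082082082082081f8208208227e07e08218208218208208207e01001
 z z)) (n 0 (n
 0x10ed0ec6078208208207e08208608217a082082082081f8218a07e085f7e082082182182182081f8208200801 z
 (n
 0x218e1c5006070ed0e08070d87187040185c3b318200c0a1d9d90c0e010ecec8007802aa618a480ca8dbb59869a86606f528686c83cb2607280692abe67807c74df62a97d4ec082857680745e466c926e7d698c3009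
 z z)) z)))) (n 0 (n 0 z (n 0 z (n 0 (n 0x21da1d8c0e0000010c90c86031021 z z) (n 0 z z)))) (n 0
 (n 0 z (n 0 z (n 0 z (n 0 z z)))) (n 0 (n 0 (n
 0x2e870e4c038208208208208218608208207e08208207e08218208208208218208208208208208208208210801 z
 z) (n 0 z (n 0 (n
 0x30ed0ec6078208208207e08208608207e07e28208207df8218607a28a07e08207e07e08618208608208200801 z
 z) (n 0 z z)))) (n 0 (n 0 z (n 0 z (n 0 (n
 0x10ed0ec60782082082081f82081f82182082182082081f8208207e18607e08207e081f8218208607e18600801 z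
 z) (n 0 z z)))) z))))))))))))))))))))))))))))))))) (n 19 (n 0 (n 0 z (n 0 z (n 0 (n
 0x30cac824038208208207df8218207e08208207e181f8a082086082086082081f7e182086181f8208218200801 z
 (n 7751771 z z)) (n 0 (n
 0x10e8ec82038208208208208208208208208208208208208208208208208208208208208208208208218200801 z
 (n 0x30e90e2c078208208208208208208208208208208208208208208208608208208208208208208208208200801
 z z)) z)))) (n 0 (n 0 z (n 0 z (n 0 z (n 0 z z)))) (n 0 (n 0 z (n 0 z (n 0 (n 8663555 z z) (n 0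
 (n 8663555 z z) z)))) (n 0 (n 0 z (n 0 z (n 0 z (n 0 z z)))) (n 0 (n 0 z (n 0 z (n 0 (n
 0x30cac8240382085f8208208207df7e082086082082185f7e08a07e089f81f81f7e08208218208608217e00801 z
 (n 0x30cac824038208608207e08207df7e082086082082085f7e08607e08a082081f7e082086181f8608218210801
 z z)) (n 0 (n
 0x30ece4280382082082082082082082082085f8207e082081f85f8208208208208218608207e08208618210801 z
 (n 0x30ea842c0782082082082082182081f8607df8208208207e08607e18608208207e08208208208208218210801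
 z z)) z)))) (n 0 (n 0 z (n 0 z (n 0 (n
 0x219210480e0f0cac82403805e896694808b7899787b857d6e786e7f7d9f63907f819962709a73797f8e9877868b6d7d8b7b7f82887b6f8f84657c71831009
 z (n
 0x30e9042c078208208208208208208208208208208208208208208208208208208208608208208208208200801 z
 z)) (n 0 (n
 0x50ed04280381d81d8e082386176389f7a081d7e182095d85e8a082086181f81d8a18208637dd81e8627a00801 z
 (n 0x10e90e82038208208208208207e081f86089f82081f8608217e082082082081f8208208207e08608218600801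
 z z)) z)))) (n 0 (n 0 (n 8663555 z (n 8663555 z z)) (n 0 (n 8663555 z (n 8663555 z z)) (n 0 (n
 8663555 z (n 8663555 z z)) (n 0 (n 8663555 z (n 8663555 z z)) z)))) (n 0 (n 0 z (n 0 z (n 0 z
 (n 0 z z)))) (n 0 (n 0 (n 8663555 z z) (n 0 z (n 0 z (n 0 (n 8663555 z z) z)))) (n 0 (n 0 (n
 0x30ecec84078208208208208208208208207e08208208208218208208608208208208208208208208208200801 z
 z) (n 0 z (n 0 z (n 0 (n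
 0x1876762403810ed0ec4078208208208208208208208207e08208208208218218218608208208208218208208208208201001
 z z) z)))) (n 0 (n 0 z (n 0 z (n 0 z (n 0 z z)))) (n 0 (n 0 z (n 0 z (n 0 z (n 0 z z)))) (n 0
 (n 0 z (n 0 z (n 0 z (n 0 z z)))) (n 0 (n 0 z (n 0 z (n 0 (n
 0x61d5c4180e1c32bb2101c3764850201830cae82007807b0a8a0c64b1ca1a8dd9d681aac795c8e6684b948a273866b852ba49d87a17157e18287242001
 z z) (n 0 (n 0x10ec96d0821 z z) z)))) (n 0 (n 0 z (n 0 z (n 0 z (n 0 z z)))) (n 0 (n 0 z (n 0 z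
 (n 0 z (n 0 z z)))) (n 0 (n 0 (n
 0x30ecec84078208208208208208208208208208208208208218207e08608208208208208208208208208200801 z
 z) (n 0 z (n 0 z (n 0 (n
 0x15d8a1c500e1c3b390a01c0864864201890e8e842078198f54205a846b12b82b2e23e14e976d99493779d85ca0aa9b82846ea624e36eae50791a9b2001
 z z) z)))) (n 0 (n 0 z (n 0 z (n 0 z (n 0 z z)))) (n 0 (n 0 (n 8865323 z (n 8865323 z z)) (n 0
 z (n 0 (n
 0x762761503830c90c840381e8198208e492289c8a2ae189981689c9df8558a28608657dd81b85f7a17e57de89e8e67611001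
 z (n
 0x762761503830c90c840381e81a8208e38e285d8a2a2185b81889d9df8178a18608247dd81c85f7e17e47de85e8a57611001
 z z)) (n 0 (n
 0x2ec50e28078208208208208208208208208208208208208208208208208208208208218207e08208208200801 z
 (n
 0x43b439200c0876762403810c90c840381f7e082082182181f81f86189d82282081f81f8a07e185f81f81f8208218207df8208228211801
 z z)) z)))) (n 0 (n 0 (n
 0x10ecec84078208208208208208208208208208208208208218207e18608208208208208208208208208200801 z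
 z) (n 0 z (n 0 z (n 0 (n
 0x1876721401810c90c840382082082082082082082082081f8208208208208208208208208208208208208208208208211001
 z z) z)))) (n 0 (n 0 z (n 0 z (n 0 z (n 0 z z)))) (n 0 (n 0 z (n 0 z (n 0 z (n 0 z z)))) (n 0
 (n 0 z (n 0 z (n 0 z (n 0 z z)))) z))))))))))))))))))))))) (n 18 (n 0 (n 0 z (n 0 z (n 0 z (n 0
 z z)))) (n 0 (n 0 z (n 0 z (n 0 z (n 0 z z)))) (n 0 (n 0 z (n 0 z (n 0 z (n 0 z z)))) (n 0 (n 0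
 z (n 0 z (n 0 z (n 0 z z)))) (n 0 (n 0 z (n 0 z (n 0 z (n 0 z z)))) (n 0 (n 0 z (n 0 z (n 0 z
 (n 0 z z)))) (n 0 (n 0 z (n 0 z (n 0 z (n 0 z z)))) (n 0 (n 0 z (n 0 z (n 0 z (n 0 z z)))) (n 0
 (n 0 z (n 0 z (n 0 z (n 0 z z)))) (n 0 (n 0 z (n 0 z (n 0 z (n 0 z z)))) (n 0 (n 0 z (n 0 z (n
 0 z (n 0 z z)))) z))))))))))) (n 599 (n 0 (n 0 z (n 0 z (n 0 z (n 0 z z)))) (n 0 (n 0 z (n 0 z
 (n 0 z (n 0 z z)))) (n 0 (n 0 (n 7673915 z (n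
 0x550e82887480aa1b7608277a65a78a061a71c71c82882271fa5c82092689f85782a9da5e7720adf8967e60081 z
 z)) (n 0 z (n 0 (n
 0x30ece42a038208208608208208208208208208208208218208207e08208208208208208208208208208200801 z
 (n
 0x1872871503830caea24038208207e07df82081f82182082182082081f8218a082089f7e082082081f8218207e08218201001
 z z)) (n 0 (n
 0x30ece428038207e08208208208618207e082082082082082082182082082182082086181f8208208208200801 z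
 (n
 0xa1d9cc500e0c323aa100c0864751201830eb0824078374f28e04d55a969e7e166d9216f15a57e18b66e76608c59928a945f628a9e9257e26a27992001
 z z)) z)))) (n 0 (n 0 z (n 0 z (n 0 z (n 0 z z)))) z)))) (n 411 (n 0 (n 0 z (n 0 z (n 0 z (n 0
 z z)))) (n 0 (n 0 z (n 0 z (n 0 (n
 0x30ece40a038228e08207df86179d89f85f89e7e08208a07e28a281e82079f81e85f81f8a281f7e08208210801 z
 z) (n 0 z z)))) (n 0 (n 0 z (n 0 z (n 0 (n
 0x1876320503810a50a40078208208208208208207e08208208207e081f82086082089f81f82082182082081f8208618211001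
 z z) (n 0 z z)))) (n 0 (n 0 z (n 0 z (n 0 z (n 0 z z)))) (n 0 (n 0 z (n 0 z (n 0 (n
 0x30ece40a038208208208208208208208208208208208218218208208208208208208208608208208208200801 z
 z) (n 0 (n
 0x30e50e400782082082081f8218608207e07e18608207a08218607e18607a082082081f8208208208608210801 z
 z) z)))) (n 0 (n 0 z (n 0 z (n 0 z (n 0 z z)))) (n 0 (n 0 z (n 0 (n
 0x270e81287481d8228a075f7657df8227a07a075c7258607638617a08a08dc89e72689e86181f8df7de7a10081 z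
 (n 7538715 z z)) (n 0 z (n 0 z z)))) (n 0 (n 0 z (n 0 z (n 0 (n 8783707 z z) (n 0 z z)))) (n 0
 (n 0 z (n 0 z (n 0 z (n 0 z z)))) (n 0 (n 0 z (n 0 z (n 0 z (n 0 z z)))) (n 0 (n 0 (n 8800091 z
 z) (n 0 z (n 0 z (n 0 z z)))) (n 0 (n 0 (n
 0x30c4a60e038208208208208218207e081f8208207e081f8208607e18608208208608208607e08208218210801 z
 (n 0x10c4a60e0381f8208607e082182081f89f81f8217e185f8208607e185f7e082082181f8218208208227e10801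
 z z)) (n 0 z (n 0 (n 8783707 z (n
 0x2d8738246dfa6075a5e6b616e4666a1e4ac5257dda9daa05697a376086081f5e3adc8e45df92a75a0041 z z)) (n
 0 z z)))) (n 0 (n 0 z (n 0 z (n 0 z (n 0 z z)))) (n 0 (n 0 z (n 0 z (n 0 z (n 0 z z)))) (n 0 (n
 0 z (n 0 z (n 0 z (n 0 z z)))) (n 0 (n 0 z (n 0 z (n 0 z (n 0 z z)))) (n 0 (n 0 z (n 0 z (n 0 z
 (n 0 (n 8848171 z z) z)))) (n 0 (n 0 z (n 0 z (n 0 z (n 0 z z)))) (n 0 (n 0 z (n 0 z (n 0 (n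
 3278875 z z) (n 0 (n 3278875 z z) z)))) (n 0 (n 0 z (n 0 z (n 0 (n 5507099 z z) (n 0 z z)))) (n
 0 (n 0 z (n 0 z (n 0 z (n 0 z z)))) z))))))))))))))))))))) (n 594 (n 0 (n 0 z (n 0 z (n 0 z (n
 0 z z)))) (n 0 (n 0 z (n 0 z (n 0 z (n 0 z z)))) (n 0 (n 0 z (n 0 z (n 0 z (n 0 z z)))) (n 0 (n
 0 z (n 0 z (n 0 z (n 0 z z)))) (n 0 (n 0 z (n 0 z (n 0 z (n 0 z z)))) (n 0 (n 0 z (n 0 (n
 0x270e81287481d8228a075f7657df8227a07a075c7258607638617a08a08dc89e72689e86181f8df7de7a10081 z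
 (n 7538715 z z)) (n 0 z (n 0 z z)))) (n 0 (n 0 z (n 0 z (n 0 z (n 0 z z)))) (n 0 (n 0 z (n 0 z
 (n 0 z (n 0 z z)))) (n 0 (n 0 z (n 0 z (n 0 z (n 0 z z)))) (n 0 (n 0 z (n 0 z (n 0 z (n 0 z
 z)))) (n 0 (n 0 z (n 0 z (n 0 z (n 0 z z)))) z))))))))))) (n 3 (n 0 (n 0 z (n 0 z (n 0 z (n 0 z
 z)))) (n 0 (n 0 z (n 0 z (n 0 (n
 0x1876721503810eb0ea2038208208208608208208208218208208208a08208208208208208208207e08208208208208201001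
 z z) (n 0 (n
 0x1876721403810e90e820382079b9a081f99f7e185b91d89e9da89e86469f8a379e8a079d89c86072286481b8de7617621001
 z z) z)))) (n 0 (n 0 z (n 0 z (n 0 z (n 0 z z)))) (n 0 (n 0 z (n 0 z (n 0 z (n 0 z z)))) (n 0
 (n 0 z (n 0 z (n 0 z (n 0 z z)))) (n 0 (n 0 z (n 0 z (n 0 z (n 0 z z)))) (n 0 (n 0 z (n 0 z (n
 0 z (n 0 z z)))) z))))))) (n 1 (n 0 (n 0 z (n 0 z (n 0 z (n 0 z z)))) (n 0 (n 0 z (n 0 z (n 0 z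
 (n 0 z z)))) (n 0 (n 0 (n
 0x1865751201810ecea04078208208208208208618207e182081f8218208218217e17e082082082082181f82085f7e07df1001
 z (n 7473259 z z)) (n 0 (n
 0x550e02887080aa1b7608277a65a78a061a71c71c82882271fa5c82092689f85782a9da5e7720adf8967e60081 z
 (n 0x30ece42a0382082082082082186082082082081f8208208218208218208208208208208608208208208210801
 z z)) (n 0 z (n 0 (n 8783707 z (n 7473259 z z)) z)))) (n 0 (n 0 z (n 0 z (n 0 z (n 0 z z)))) (n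
 0 (n 0 z (n 0 z (n 0 z (n 0 z z)))) (n 0 (n 0 z (n 0 z (n 0 z (n 0 z z)))) (n 0 (n 0 z (n 0 z
 (n 0 z (n 0 z z)))) z))))))) (n 0 (n 0 (n 0 z (n 0 z (n 0 z (n 0 z z)))) (n 0 (n 0 z (n 0 z (n
 0 z (n 0 z z)))) (n 0 (n 0 z (n 0 z (n 0 z (n 0 z z)))) (n 0 (n 0 z (n 0 z (n 0 (n
 0x25c1884a8311230620c20c40d410820821805e89788580847d7a8c74867f857c6d6f847e687b96818b707d927676878d8c7e888878739d867a817b827995776a74847a0189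
 z z) (n 0 (n
 0x25c1884a8311230620c20c40d410820821805e89788580847d7a8c74867f857c6d6f847e687b96818b707d927676878d8c7e888878739d867a817b827995776a74847a0189
 z z) z)))) (n 0 (n 0 z (n 0 z (n 0 z (n 0 z z)))) (n 0 (n 0 z (n 0 z (n 0 z (n 0 z z)))) (n 0
 (n 0 z (n 0 z (n 0 z (n 0 z z)))) (n 0 (n 0 z (n 0 z (n 0 z (n 0 z z)))) (n 0 (n 0 z (n 0 z (n
 0 z (n 0 z z)))) (n 0 (n 0 z (n 0 z (n 0 z (n 0 z z)))) z)))))))))) z)))))))))))))))))))))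
 z)))) z) z)))) (n 0x2d45d0f2768395970c9d9984ebd98d56790a73c980ce540 (n 0 (n 279 (n 6557731 z (n
 2 z (n 0 z (n 0 z (n 6557731 z (n 0 z (n 10 z z))))))) (n 255 (n 0 z (n 0 z (n 0 z (n 0 z (n 0
 z (n 0 z (n 0 z (n 0 z (n 0 z (n 0 z (n 6496515 z (n 0 z (n 0 z (n 18 z z)))))))))))))) (n 9 (n
 0 z (n 0 z (n 0 z (n 0 z (n 6496515 z (n 0 z (n 0 z (n 0 z (n 26 z z))))))))) (n 243 (n 0 z (n
 0 z (n 0 z (n 0 z (n 34 z (n 6496515 z z)))))) (n 1 (n 0 z (n 6557731 z (n 0 z (n 0 z (n 0 z (n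
 0 z (n 0 z (n 0 z (n 42 z z))))))))) (n 0 (n 50 z (n 0 z (n 0 z (n 0 z (n 0 z (n 0 z (n 0 z (n
 6623755 z (n 0 z (n 58 z (n 0 z (n 0 z (n 0 z (n 0 z (n 0 z (n 0 z (n 0 z (n 0 z (n 66 z (n
 6619931 z (n 0 z (n 0 z (n 0 z (n 0 z (n 0 z (n 0 z (n 0 z (n 0 z (n 0 z (n 0 z (n 0 z (n 0 z
 (n 0 z z))))))))))))))))))))))))))))))))) z)))))) (n 243 (n 0 (n 0 z (n 983 (n 0 z (n 0 z (n 0
 z (n 0 z (n 0 z (n 0 z (n 0 z (n 0 z (n 2 (n 2 (n 0 z (n 0 z (n 0 z (n 0 z (n 0 z (n 0 z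
 z)))))) (n 2 (n 0 z (n 0 z (n 0 z (n 0 z (n 0 z (n 0 z z)))))) (n 2 (n 0 z (n 0 z (n 0 z (n 0 z
 (n 0 z (n 0 z z)))))) (n 2 (n 0 z (n 0 z (n 0 z (n 0 z (n 0 z (n 0 z z)))))) (n 2 (n 0 z (n 0 z
 (n 0 z (n 0 z (n 0 z (n 0 z z)))))) (n 2 (n 0 z (n 0 z (n 0 z (n 0 z (n 0 z (n 0 z z))))))
 z)))))) z))))))))) (n 999 (n 0 z (n 0 z (n 0 z (n 0 z (n 0 z (n 0 z (n 0 z (n 0 z z)))))))) (n
 981 (n 0 z (n 0 z (n 0 z (n 2 (n 2 (n 0 z (n 0 z (n 0 z (n 0 z (n 0 z (n 0 z z)))))) (n 2 (n 0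
 z (n 0 z (n 0 z (n 0 z (n 0 z (n 0 z z)))))) (n 2 (n 0 z (n 0 z (n 0 z (n 0 z (n 0 z (n 0 z
 z)))))) (n 2 (n 0 z (n 0 z (n 0 z (n 0 z (n 0 z (n 0 z z)))))) z)))) (n 0 z (n 0 z (n 0 z
 z))))))) (n 303 (n 0 z (n 0 z (n 0 z (n 0 z (n 0 z (n 2 (n 2 (n 0 z (n 0 z (n 0 z (n 0 z (n 0 z
 (n 0 z z)))))) (n 2 (n 0 z (n 0 z (n 0 z (n 0 z (n 0 z (n 0 z z)))))) (n 2 (n 0 z (n 0 z (n 0 z
 (n 0 z (n 0 z (n 0 z z)))))) z))) (n 0 z z))))))) (n 1057 (n 0 z (n 0 z (n 0 z (n 0 z (n 0 z (n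
 0 z (n 0 z (n 0 z z)))))))) (n 1057 (n 0 z (n 0 z (n 0 z (n 0 z (n 0 z (n 2 (n 0 z z) (n 0 z (n
 0 z z)))))))) (n 1057 (n 0 z (n 0 z (n 0 z (n 0 z (n 0 z (n 0 z (n 0 z (n 0 z z))))))))
 z)))))))) (n 0 (n 631 (n 0 z (n 0 z (n 0 z (n 0 z (n 0 z (n 0 z (n 0 z (n 0 z (n 0 z (n 0 z (n
 0 z (n 0 z z)))))))))))) (n 363 (n 0 z (n 0 z (n 0 z (n 0 z (n 0 z (n 0 z (n 0 z (n 0 z (n 0 z
 (n 0 z (n 0 z (n 0 z (n 0 z (n 0 z (n 0 z (n 0 z z)))))))))))))))) (n 639 (n 0 z (n 0 z (n 0 z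
 (n 0 z (n 0 z (n 0 z (n 0 z (n 0 z (n 0 z (n 0 z (n 0 z (n 0 z z)))))))))))) (n 531 (n 0 z (n 0
 z (n 0 z (n 0 z (n 0 z (n 0 z (n 0 z z))))))) (n 553 (n 0 z (n 0 z (n 0 z (n 0 z (n 0 z (n 0 z
 (n 2 (n 0 z (n 0 z z)) (n 0 z (n 0 z z))))))))) (n 553 (n 0 z (n 0 z (n 0 z (n 0 z (n 0 z (n 0
 z (n 0 z (n 0 z (n 0 z z))))))))) (n 553 (n 0 z (n 0 z (n 0 z (n 0 z (n 0 z (n 2 z (n 0 z (n 0
 z (n 0 z z))))))))) z))))))) (n 0 (n 129 (n 0 z (n 0 z (n 0 z (n 0 z z)))) (n 627 (n 0 z (n 0 z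
 (n 0 z (n 0 z (n 0 z (n 0 z (n 0 z (n 0 z (n 0 z (n 0 z z)))))))))) (n 63 (n 0 z (n 0 z (n 0 z
 (n 0 z z)))) (n 625 (n 0 z (n 0 z (n 0 z (n 0 z (n 2 (n 0 z (n 0 z z)) (n 0 z (n 0 z z)))))))
 (n 625 (n 0 z (n 0 z (n 0 z (n 0 z (n 0 z (n 0 z (n 0 z z))))))) (n 625 (n 0 z (n 0 z (n 0 z (n
 0 z (n 0 z (n 0 z (n 0 z z))))))) z)))))) (n 0 (n 33 (n 0 z (n 0 z (n 0 z (n 0 z (n 0 z (n 0 z
 z)))))) (n 99 (n 0 z (n 0 z (n 0 z (n 0 z z)))) (n 17 (n 0 z (n 0 z (n 0 z (n 0 z (n 0 z (n 0 z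
 (n 0 z (n 0 z (n 0 z z))))))))) (n 17 (n 0 z (n 0 z (n 0 z (n 0 z (n 0 z (n 0 z (n 0 z (n 0 z
 (n 0 z z))))))))) (n 17 (n 0 z (n 0 z (n 0 z (n 0 z (n 0 z (n 0 z (n 0 z (n 0 z (n 0 z
 z))))))))) z))))) (n 0 (n 531 (n 0 z (n 0 z (n 0 z (n 0 z (n 0 z z))))) (n 485 (n 0 z (n 2 (n 0
 z (n 0 z z)) (n 0 z (n 0 z (n 0 z (n 0 z (n 0 z (n 0 z (n 0 z (n 0 z (n 0 z (n 0 z (n 0 z (n 0
 z (n 0 z (n 0 z (n 0 z (n 0 z (n 0 z (n 0 z (n 0 z (n 0 z (n 0 z (n 0 z (n 0 z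
 z))))))))))))))))))))))))) (n 485 (n 0 z (n 0 z (n 0 z (n 0 z (n 0 z (n 0 z (n 0 z (n 0 z (n 0
 z (n 0 z (n 0 z (n 0 z (n 0 z (n 0 z (n 0 z (n 0 z (n 0 z (n 0 z (n 0 z (n 0 z (n 0 z (n 0 z (n
 0 z (n 0 z (n 0 z z))))))))))))))))))))))))) (n 485 (n 0 z (n 0 z (n 0 z (n 0 z (n 0 z (n 0 z
 (n 0 z (n 0 z (n 0 z (n 0 z (n 0 z (n 0 z (n 0 z (n 0 z (n 0 z (n 0 z (n 0 z (n 0 z (n 0 z (n 0
 z (n 0 z (n 0 z (n 0 z (n 0 z (n 0 z z))))))))))))))))))))))))) z)))) (n 0 (n 1 (n 0 z (n 2 (n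
 0 z (n 0 z z)) (n 0 z (n 0 z (n 0 z (n 0 z (n 0 z (n 0 z (n 0 z (n 0 z z)))))))))) (n 1 (n 0 z
 (n 0 z (n 0 z (n 0 z (n 0 z (n 0 z (n 0 z (n 0 z (n 0 z (n 0 z z)))))))))) (n 1 (n 2 z (n 0 z
 (n 0 z (n 0 z (n 0 z (n 0 z (n 0 z (n 0 z (n 0 z (n 0 z z)))))))))) z))) (n 0 (n 0 z (n 0 z z))
 (n 0 (n 0 z z) (n 0 z z))))))))) (n 0 (n 0 z (n 0 z (n 0 z (n 0 z (n 1 (n 2236 z (n 5518875 z
 (n 6619931 z (n 2236 z (n 2236 z (n 76 z z)))))) (n 1 (n 6496515 z (n 6496515 z (n 6496515 z (n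
 6496515 z (n 6496515 z (n 6496515 z z)))))) z)))))) (n 0 z z)))) z)))))))), by decide +kernel⟩
theorem i11267 : ∃ t, chkR KT RW t 11267 11274 = true := ⟨(n
 0x4ca3b83ae4a0eb2319471c0a37591627308d399065cca004b4c0 (n 0x1cca3 (n 599 (n 3282443 z (n 0 z (n
 2 z (n 10 z (n 0 z (n 0 z (n 0 z z))))))) (n 581 (n 3278363 z (n 0 z (n 0 z (n 0 z (n 0 z (n 0
 z (n 0 z (n 0 z (n
 0xaa84ca2007056a200a94402ca88028510807f7f817e817f808281817d83847e7f808380808180808180807a807a80807f8081827f7f808081817f81807f818080807f0909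
 z (n 0 z (n
 0x4ca6c864038082808380808180808080827d7d8381817e8080807e7e8080807f7f8383808080818080808082807f808081807f817f80800809
 z (n 18 z (n 0 z (n 0 z (n 0 z (n 0 z (n 0 z (n 0 z (n 0 z (n 0 z (n 0 z (n 0 z (n 0 z (n 0 z
 (n 0 z (n 0 z (n 0 z (n 0 z z)))))))))))))))))))))))))))) (n 9 (n
 0x4ca2a82007026a2004944014a8801051080807f807f8180818180817e82827e7f7f8080808180808280807f817f7e80808180807e7f80818080807f817f7f807f81800909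
 z (n
 0xca4a2060780807f817f8081808080808080818080808080808080808080807f80808080808080808080808180808080808080808080810809
 z (n 0 z (n
 0xca4a2060780807f817f8081808180808080808081808080808080808080817e8080807f808080808081808180808080808080808080810809
 z (n 0 z (n
 0x47f6536104038006e9b2a328181c003885945940c0e001246c848206030015aa65365310180069bb292a0080c00031590d8c0406001e5eca8ca6003000a9d65454300380025ab29aa1801c001f0590d94400e000172a86ca200700016d651641003800251b20b20801c00a2bd94950400e003a66ca4a6200300238d6515310018008abb29218800c001c880010946d4000dfc00084a36d001c43aca8001c42595000ca7ea88002060c510004ee36a2000d4329440010304a8800008685108000007ffb4a7feb9a800a577fe92d8000ee8003e3800a2680138c7ffd59800e107ff35f7fd92180001c7ffb817ff699803b98802c2c7ff7ba800db680085a7ffea77ffd737ffa3f8008638017bb7fed1a80021c7fb0e07ff4de7fff88800fd18005168011ac8003167fede87fff138000008012be8005bd8008477ff6d3801ce87ffd1580147480292b7feeb8800f2680045a8000c5a219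
 z (n 0 z (n 0 z (n 0 z (n 0 z (n 0 z (n
 0x2ca4a8260380807f8180818080808080808080808080808080808080808080808080808080807f80808080808080808080807f808080800809
 z (n 0 z (n 0 z (n 0 z (n 26 z (n 0 z (n 0 z (n 0 z (n 0 z (n 3212843 z (n 34 z (n
 0x2ca4a8260780807f817f80808080808080808080808080808080808080807f8080808081808080807f80808180808080818080808080800809
 z (n
 0x1949504c0e00ca4a2060780807f817f8181808080808080808081807f80808080808180807e8081817f808080807f80808181808080808180808080801009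
 z (n 0 z (n 0 z (n 0 z (n 0 z (n 0 z (n 0 z (n 0 z (n 0 z (n 0 z (n 0 z (n 0 z (n 0 z (n 0 z (n
 0 z (n 0 z (n 0 z (n 0 z (n 0 z (n 0 z (n 0 z (n 0 z (n 0 z
 z)))))))))))))))))))))))))))))))))))))))))))))) (n 27 (n 0 z (n 42 z (n 6636323 z (n 0 z (n 0 z
 (n 0 z z)))))) (n 1 (n 6636323 z (n
 0x4ca4ca0203026a2004944014a8801051080807f807f8180818180817e82827e7f7f8080808180808280807f817f7e80808180807e7f80818080807f817f7f807f81800909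
 z (n
 0x2ca6a6040780807f817f8182808080808080808080808080808080808080817f80808080808080808080808080808080808080808080810809
 z (n 0 z (n 0 z (n 0 z (n 0 z (n 0 z (n 0 z (n 0 z (n 6554139 z (n 0 z (n 0 z (n 0 z (n 50 z (n
 0 z (n 0 z (n 0 z (n 0 z (n 58 z (n
 0x2ca6ca620380807f817f8080808080808080808080808080807f80808080817f8080807e808080808080808181808081808280808080800809
 z (n 0 z (n 0 z (n 0 z (n 0 z (n 0 z (n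
 0x3eb10b28180c0001f5485900c0e000016ca2c60403000005531630203800020b19299081c0002e58c948040600006ac86a640030000356325320038000cbb18b18800c00011d94d88400e00012aa62c420070000fbac42000082d8840010acb1080019786210002b16a20000562944000044ca880000aa851080000080001e7fff217fffee7fff098000bb7fff587fffe08000987fffb28000287fff847fff1f8000597fffeb80000a8001ca8000867fffa580002780000c7fff9a7fffa17fffd080001f8000a07fffc67fff237ffe2c7fff2280017a80004780005e8000d280005a7ffed37fff8b8000008000a48000a87fffe77fffd08000d78000178000a280014c7fffd680000980003180006f5a19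
 z (n
 0x194d4c480e00ca6a6420380817e827f8081808080807f8080808080817f807f80808080817f807f7f81818181807f80808280808080808080808080801009
 z (n 0 z (n 66 z (n 0 z (n 0 z (n 0 z (n 0 z (n 0 z (n 0 z
 z)))))))))))))))))))))))))))))))))))) (n 0 (n 6636323 z (n 0 z (n 0 z (n 0 z (n 0 z (n 0 z (n
 0x4c84c826038082808380808180808080827d7d8381817e8080807e7e8080807f7f8383808080818080808082807f808081807f817f80800809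
 z (n 74 z (n 0 z (n 0 z (n 0 z (n 0 z (n 0 z (n 0 z (n 0 z z))))))))))))))) z)))))) (n 27 (n 0
 (n 0 z (n 1007 (n 0 z (n 0 z (n 0 z (n 0 z (n 0 z (n 2 (n 1 z (n 2 (n 0 z (n 0 z (n 0 z (n 0 z
 (n 0 z (n 0 z z)))))) (n 1 z (n 1 z (n 2 (n 0 z (n 0 z (n 0 z (n 0 z (n 0 z (n 0 z z)))))) (n 1
 z (n 1 z z))))))) (n 0 z (n 0 z (n 0 z (n 0 z (n 0 z (n 0 z (n 0 z (n 0 z z)))))))))))))) (n
 1005 (n 0 z (n 0 z (n 0 z (n 0 z (n 0 z (n 0 z (n 0 z (n 0 z (n 0 z (n 0 z (n 0 z (n 0 z (n 0 z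
 (n 2 (n 0 z (n 1 z (n 1 z (n 2 (n 0 z (n 0 z (n 0 z (n 0 z (n 0 (n 8800043 z z) (n 0 (n 2124 z
 (n 8800043 z z)) z)))))) (n 1 z (n 1 z z)))))) (n 0 z (n 0 z (n 0 z (n 0 z (n 0 z (n 0 z (n 0 z
 (n 0 z (n 0 z (n 0 z (n 0 z (n 0 z (n 0 z (n 0 z (n 0 z (n 0 z (n 0 z (n 0 z (n 0 z (n 0 z (n 0
 z z))))))))))))))))))))))))))))))))))) (n 1005 (n 0 z (n 0 z (n 0 z (n 0 z (n 0 z (n 0 z (n 0 z
 (n 0 z (n 0 z (n 0 z (n 0 z (n 0 z (n 0 z (n 0 z (n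
 0x3b23b2081c01d95d4c40e00ec8ea620780817e827e8081808180808080808081808180808080808180817e807f8080818081807f80808181808080808180808080801809
 z (n 0 z (n 0 z (n 0 z (n 0 z (n 0 z (n 0 z (n 0 z (n 0 z (n 0 z (n 0 z (n 0 z (n 0 z (n 0 z (n
 0 z (n 0 z (n 0 z (n 0 z (n 0 z (n 0 z (n 0 z z))))))))))))))))))))))))))))))))))) (n 185 (n 0
 z (n 0 z (n 2 (n 1 z (n 1 z (n 1 z (n 1 z z)))) (n 0 z (n 0 z (n 0 z z)))))) (n 531 (n 0 z (n 0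
 z (n 0 z (n 0 z (n 0 z (n 0 z (n 0 z (n 0 z (n 0 z (n 0 z (n 0 z (n 0 z (n 2 (n 0 z (n 0 z (n 1
 z z))) (n 0 z (n 0 z (n 0 z (n 0 z (n 0 z (n 0 z (n 0 z (n 0 z (n 0 z (n 0 z (n 0 z (n 0 z (n 0
 z (n 0 z (n 0 z (n 0 z z))))))))))))))))))))))))))))) (n 531 (n 0 z (n 0 z (n 0 z (n 0 z (n 0 z
 (n 0 z (n 0 z (n 0 z (n 0 z (n 0 z (n 0 z (n 0 z (n 0 z (n 0 z (n 0 z (n
 0x2e64ec2a0380807e817e80808081807f817e7f8182827f80808080808080817f7e818181808081817e80808181808081808180807f80810809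
 z (n 0 z (n 0 z (n 0 z (n 0 z (n 0 z (n 0 z (n 0 z (n 0 z (n 0 z (n 0 z (n 0 z (n 0 z (n 0 z
 z))))))))))))))))))))))))))))) (n 531 (n 0 z (n 0 z (n 0 z (n 0 z (n 0 z (n 0 z (n 0 z (n 0 z
 (n 0 z (n 0 z (n 0 z (n 0 z (n 0 z (n 0 z (n 0 z (n 0 z (n 0 z (n 0 z (n 0 z (n 0 z (n 0 z (n 0
 z (n 0 z (n 0 z (n 0 z (n 0 z (n 0 z (n 0 z (n 0 z z))))))))))))))))))))))))))))) (n 989 (n 0 z
 (n 0 z (n 0 z (n 0 z (n 0 z (n 0 z (n 0 z (n 0 z (n 0 z (n 0 z (n 0 z (n 0 z (n 0 z (n 0 z (n 0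
 z (n 0 z (n 0 z (n 0 z (n 0 z (n 0 z (n 0 z (n 0 z (n 2 z (n 0 z (n 0 z (n 0 z (n 0 z (n 0 z (n
 0 z (n 0 z (n 0 z (n 0 z (n 0 z (n 0 z (n 0 z (n 0 z (n 0 z (n 0 z (n 0 z (n 0 z (n 0 z (n 0 z
 (n 0 z (n 0 z (n 0 z (n 0 z (n 0 z (n 0 z (n 0 z (n 0 z (n 0 z
 z))))))))))))))))))))))))))))))))))))))))))))))))))) z))))))))) (n 0 (n 1191 (n 0 z (n 0 z (n 0
 z (n 0 z (n 0 z (n 0 z (n 0 z (n 0 z (n 0 z z))))))))) (n 1189 (n 0 z (n 0 z (n 0 z (n 0 z (n 0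
 z (n 0 z (n 0 z (n 0 z (n 0 z (n 0 z (n 0 z (n 0 z (n 0 z (n 0 z z)))))))))))))) (n 1189 (n 0 z
 (n 0 z (n 0 z (n 0 z (n 0 z (n 0 z (n 0 z (n 0 z (n 0 z (n 0 z (n 0 z (n 0 z (n 0 z (n 0 z
 z)))))))))))))) (n 535 (n 0 z (n 0 z (n 0 z (n 0 z (n 0 z (n 0 z (n 0 z z))))))) (n 531 (n 0 z
 (n 0 z (n 0 z (n 0 z (n 0 z (n 0 z (n 0 z (n 0 z (n 0 z (n 0 z (n 0 z (n 0 z (n 0 z (n 0 z
 z)))))))))))))) (n 531 (n 0 z (n 0 z (n 0 z (n 0 z (n 0 z (n 0 z (n 0 z (n 0 z (n 0 z (n 0 z (n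
 0 z (n 0 z (n 0 z (n 0 z z)))))))))))))) (n 531 (n 0 z (n 0 z (n 0 z (n 0 z (n 0 z (n 0 z (n 0
 z (n 0 z (n 0 z (n 0 z (n 0 z (n 0 z (n 0 z (n 0 z z)))))))))))))) (n 529 (n 0 z (n 0 z (n 0 z
 (n 0 z (n 0 z (n 0 z (n 0 z (n 0 z (n 0 z z))))))))) z)))))))) (n 0 (n 1161 (n 0 z (n 0 z (n 0
 z (n 0 z (n 0 z (n 0 z (n 0 z (n 0 z (n 0 z (n 0 z (n 0 z (n 0 z (n 0 z (n 0 z (n 0 z (n 0 z (n
 0 z (n 0 z (n 0 z (n 0 z (n 0 z (n 0 z (n 0 z (n 0 z (n 0 z (n 0 z (n 0 z (n 0 z (n 0 z (n 0 z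
 (n 0 z (n 0 z z)))))))))))))))))))))))))))))))) (n 1161 (n 0 z (n 0 z (n 0 z (n 0 z (n 0 z (n 0
 z (n 0 z (n 0 z (n 0 z (n 0 z (n 0 z (n 0 z (n 0 z (n 0 z (n 0 z (n 0 z (n 0 z (n 0 z (n 0 z (n
 0 z (n 0 z (n 0 z (n 0 z (n 0 z (n 0 z (n 0 z (n 0 z (n 0 z (n 0 z (n 0 z (n 0 z (n 0 z
 z)))))))))))))))))))))))))))))))) (n 487 (n 0 z (n 0 z (n 0 z (n 0 z (n 0 z (n 0 z (n 0 z (n 0
 z (n 0 z (n 0 z (n 0 z (n 0 z (n 0 z (n 0 z (n 0 z (n 0 z (n 0 z (n 0 z (n 0 z (n 0 z (n 0 z (n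
 0 z (n 0 z (n 0 z (n 0 z (n 0 z (n 0 z (n 0 z (n 0 z (n 0 z (n 0 z (n 0 z (n 0 z (n 0 z (n 0 z
 (n 0 z (n 0 z (n 0 z (n 0 z (n 0 z (n 0 z (n 0 z (n 0 z (n 0 z (n 0 z (n 0 z (n 0 z (n 0 z (n 0
 z (n 0 z (n 0 z z))))))))))))))))))))))))))))))))))))))))))))))))))) (n 483 (n 0 z (n 0 z (n 0
 z (n 0 z (n 0 z (n 0 z (n 0 z (n 0 z (n 0 z (n 0 z (n 0 z (n 0 z (n 0 z (n 0 z (n 0 z (n 0 z (n
 0 z (n 0 z (n 0 z (n 0 z (n 0 z (n 0 z z)))))))))))))))))))))) (n 483 (n 0 z (n 0 z (n 0 z (n 0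
 z (n 0 z (n 0 z (n 0 z (n 0 z (n 0 z (n 0 z (n 0 z (n 0 z (n 0 z (n 0 z (n 0 z (n 0 z (n 0 z (n
 0 z (n 0 z (n 0 z (n 0 z (n 0 z z)))))))))))))))))))))) (n 483 (n 0 z (n 0 z (n 0 z (n 0 z (n 0
 z (n 0 z (n 0 z (n 0 z (n 0 z (n 0 z (n 0 z (n 0 z (n 0 z (n 0 z (n 0 z (n 0 z (n 0 z (n 0 z (n
 0 z (n 0 z (n 0 z (n 0 z z)))))))))))))))))))))) (n 485 (n 0 z (n 0 z (n 0 z (n 0 z (n 0 z (n 0
 z (n 0 z z))))))) z))))))) (n 0 (n 0 z (n 1157 (n 0 z (n 0 z (n 0 z (n 0 z (n 0 z (n 0 z (n 0 z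
 (n 0 z (n 0 z (n 0 z (n 0 z (n 0 z (n 0 z (n 0 z (n 0 z (n 0 z (n 0 z (n 0 z (n 0 z (n 0 z (n 0
 z (n 0 z (n 0 z (n 0 z (n 0 z (n 0 z (n 0 z (n 0 z (n 0 z z))))))))))))))))))))))))))))) (n 15
 (n 0 z (n 0 z (n 0 z (n 0 z (n 0 z (n 0 z (n 0 z (n 0 z (n 0 z (n 0 z (n 0 z (n 0 z (n 0 z (n 0
 z (n 0 z (n 0 z z)))))))))))))))) (n 15 (n 0 z (n 0 z (n 0 z (n 0 z (n 0 z (n 0 z (n 0 z (n 0 z
 (n 0 z (n 0 z (n 0 z (n 0 z (n 0 z (n 0 z (n 0 z (n 0 z z)))))))))))))))) (n 15 (n 0 z (n 0 z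
 (n 0 z (n 0 z (n 0 z (n 0 z (n 0 z (n 0 z (n 0 z (n 0 z (n 0 z (n 0 z (n 0 z (n 0 z (n 0 z (n 0
 z z)))))))))))))))) (n 17 (n 0 z (n 0 z (n 0 z (n 0 z (n 0 z (n 0 z (n 0 z (n 0 z (n 0 z (n 0 z
 (n 0 z (n 0 z (n 0 z (n 0 z (n 0 z (n 0 z (n 0 z (n 0 z (n 0 z (n 0 z (n 0 z (n 0 z (n 0 z (n 0
 z (n 0 z z))))))))))))))))))))))))) z)))))) (n 0 (n 1157 (n 0 z (n 0 z (n 0 z (n 0 z (n 0 z (n
 0 z (n 0 z (n 0 z (n 0 z (n 0 z (n 0 z (n 0 z (n 0 z (n 0 z (n 2 (n 1 z (n 1 z (n 1 z (n 1 z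
 z)))) (n 0 z (n 0 z (n 0 z (n 0 z (n 0 z (n 0 z (n 0 z (n 0 z z))))))))))))))))))))))) (n 21 (n
 0 z (n 0 z (n 0 z (n 0 z (n 0 z (n 0 z (n 0 z (n 0 z (n 0 z (n 0 z (n 0 z (n 0 z (n 0 z (n 0 z
 (n 0 z (n 0 z (n 0 z (n 0 z (n 0 z (n 0 z (n 0 z (n 0 z (n 0 z z))))))))))))))))))))))) (n 21
 (n 0 z (n 0 z (n 0 z (n 0 z (n 0 z (n 0 z (n 0 z (n 0 z (n 0 z (n 0 z (n 0 z (n 0 z (n 0 z (n 0
 z (n 0 z (n 0 z (n 0 z (n 0 z (n 0 z (n 0 z (n 0 z (n 0 z (n 0 z z))))))))))))))))))))))) (n 21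
 (n 0 z (n 0 z (n 0 z (n 0 z (n 0 z (n 0 z (n 0 z (n 0 z (n 0 z (n 0 z (n 0 z (n 0 z (n 0 z (n 0
 z (n 2 (n 1 z z) (n 0 z (n 0 z (n 0 z (n 0 z (n 0 z (n 0 z (n 0 z (n 0 z
 z))))))))))))))))))))))) (n 841 (n 0 z (n 0 z (n 0 z (n 0 z (n 0 z (n 0 z (n 0 z (n 0 z (n 0 z
 (n 0 z (n 0 z (n 0 z (n 0 z (n 0 z (n 0 z (n 0 z (n 0 z (n 0 z (n 0 z (n 0 z (n 0 z (n 0 z (n 0
 z (n 0 z (n 0 z (n 0 z (n 0 z (n 0 z (n 0 z (n 0 z (n 0 z (n 0 z (n 0 z (n 0 z (n 0 z (n 0 z (n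
 0 z (n 0 z (n 0 z (n 0 z (n 0 z (n 0 z (n 0 z (n 0 z (n 0 z (n 0 z
 z)))))))))))))))))))))))))))))))))))))))))))))) z))))) (n 0 (n 483 (n 0 z (n 0 z (n 0 z (n 0 z
 (n 0 z (n 0 z (n 0 z (n 0 z (n 0 z (n 0 z (n 0 z (n 0 z (n 0 z (n 0 z (n 0 z (n 0 z (n 0 z (n 0
 z (n 0 z (n 0 z (n 0 z (n 0 z (n 0 z (n 0 z (n 0 z (n 0 z (n 0 z (n 0 z (n 0 z (n 0 z (n 0 z (n
 0 z (n 0 z (n 0 z (n 0 z z))))))))))))))))))))))))))))))))))) (n 483 (n 0 z (n 0 z (n 0 z (n 0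
 z (n 0 z (n 0 z (n 0 z (n 0 z (n 0 z (n 0 z (n 0 z (n 0 z (n 0 z (n 0 z (n 0 z (n 0 z (n 0 z (n
 0 z (n 0 z (n 0 z (n 0 z (n 0 z (n 0 z (n 0 z (n 0 z (n 0 z (n 0 z (n 0 z (n 0 z (n 0 z (n 0 z
 (n 0 z (n 0 z (n 0 z (n 0 z z))))))))))))))))))))))))))))))))))) (n 483 (n 0 z (n 0 z (n 0 z (n
 0 z (n 0 z (n 0 z (n 0 z (n 0 z (n 0 z (n 0 z (n 0 z (n 0 z (n 0 z (n 0 z (n 0 z (n 0 z (n 0 z
 (n 0 z (n 0 z (n 0 z (n 0 z (n 0 z (n 0 z (n 0 z (n 0 z (n 0 z (n 0 z (n 0 z (n 0 z (n 0 z (n 0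
 z (n 0 z (n 0 z (n 0 z (n 0 z z))))))))))))))))))))))))))))))))))) (n 481 (n 0 z (n 0 z (n 0 z
 (n 0 z (n 0 z (n 0 z (n 0 z (n 0 z (n 0 z (n 0 z (n 0 z (n 0 z (n 0 z (n 0 z z))))))))))))))
 z)))) (n 0 (n 0 z (n 0 z (n 1 (n 0 z (n 0 z (n 0 z (n 0 z (n 0 z (n 0 z (n 0 z (n 0 z (n 0 z (n
 0 z (n 0 z (n 0 z (n 0 z (n 0 z (n 0 z (n 0 z (n 0 z (n 0 z (n 0 z (n 0 z (n 0 z (n 0 z (n 0 z
 (n 0 z (n 0 z z))))))))))))))))))))))))) z))) (n 0 (n 0 z (n 1 (n 0 z (n 0 z (n 0 z (n 0 z (n 0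
 z (n 0 z (n 0 z z))))))) z)) (n 0 (n 1 (n 0 z (n 0 z (n 0 z (n 0 z (n 0 z (n 0 z (n 0 z (n 0 z
 (n 0 z (n 0 z (n 0 z (n 0 z (n 0 z (n 0 z (n 0 z (n 0 z (n 0 z (n 0 z (n 0 z (n 0 z (n 0 z (n 0
 z (n 0 z (n 0 z (n 0 z (n 0 z (n 0 z (n 0 z (n 0 z (n 0 z (n 0 z (n 0 z (n 0 z (n 0 z (n 0 z
 z))))))))))))))))))))))))))))))))))) z) (n 0 z z)))))))))) (n 0 (n 0 z (n 1 (n 4796 z (n 4796 z
 (n 4796 z (n 6423611 z (n 4796 z (n 2 z z)))))) (n 1 (n 6636323 z (n 6636323 z (n 6636323 z (n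
 6636323 z (n 6636323 z (n 6636323 z z)))))) (n 0 z (n 0 z (n 0 z z)))))) (n 0 (n 0x44b4c0 (n 0
 (n 0 (n 7741763 z (n 7741763 z (n 7741763 z (n 7741763 z (n 7741763 z (n 7741763 z z)))))) z)
 (n 0 (n 599 (n 1 (n 3282699 z (n 3282699 z (n 3282699 z (n 3282699 z (n 3282699 z (n 3282699 z
 z)))))) (n 0 z (n 1 (n 4764 z (n 2 z (n 4764 z (n 4764 z (n 4764 z (n 4764 z z)))))) (n 1 (n
 7741763 z (n 7741763 z (n 7741763 z (n 7741763 z (n 7741763 z (n 7741763 z z)))))) (n 0 z (n 0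
 z (n 0 z z))))))) (n 242 (n 0 z (n 0 z (n 0 z (n 0 z (n 1 (n 4780 z (n 4652 z (n 4780 z (n 4780
 z (n 4780 z (n 4780 z z)))))) (n 1 (n 7741763 z (n 7741763 z (n 7741763 z (n 7741763 z (n
 7741763 z (n 7741763 z z)))))) (n 1 (n 7684899 z (n 7684899 z (n 7684899 z (n 7684899 z (n
 7684899 z (n 7684899 z z)))))) z))))))) (n 599 (n 1 (n 7741763 z (n 7741763 z (n 7741763 z (n
 7741763 z (n 7741763 z (n 7741763 z z)))))) (n 1 (n 4396811 z (n 4396811 z (n 4396811 z (n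
 4396811 z (n 4396811 z (n 4396811 z z)))))) (n 1 (n
 0x2ec8ca820380807f817f808180818180817f8081818080807f8080808080827f8081817f808080807f808081807f8080808080808080810809
 z (n 4652 z (n 4652 z (n 4652 z (n 4652 z (n 4652 z z)))))) (n 0 z (n 0 z (n 0 z (n 0 z (n 0 z
 (n 0 z (n 0 z (n 1 (n
 0x2c7647640018bbb23a0801cbdd85cc400e5f5c4104b880887108f6a211e94414ca882985108089576e4ea14e87a46c9457788c6975ca8d6494836e92858e8a768b244cc87d7fa6873f5e80aa9b6663b3787fd57b958d6a19c9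
 z (n
 0x2ec8c8020780807f817f8182808080808080808080808080808080808080817f80808080808080808080808080808080808080808080810809
 z (n 4652 z (n 4652 z (n 4652 z (n 4652 z z)))))) (n 0 z (n 1 (n 4652 z (n 4652 z (n 4652 z (n
 4652 z (n 4652 z (n 4652 z z)))))) (n 0 z z)))))))))))))) (n 27 (n 0 z (n 1 (n 7741763 z (n
 7741763 z (n 7741763 z (n 7741763 z (n 7741763 z (n 7741763 z z)))))) (n 1 (n 7684899 z (n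
 7684899 z (n 7684899 z (n 7684899 z (n 7684899 z (n 7684899 z z)))))) (n 0 z (n 0 z (n 0 z
 z)))))) (n 279 (n 1 (n 7684899 z (n 7684899 z (n 7684899 z (n 7684899 z (n 7684899 z (n 7684899
 z z)))))) (n 1 (n
 0x1775273200196399399000cbdd85cc400e5f5c4104b880887108f6a211e94414ca882985108089576e4ea14e87a46c9457788c6975ca8d6494836e92858e8a768b244cc87d7fa6873f5e80aa9b6663b3787fd57b958d6a19c9
 z (n
 0x2ea6a6040780807f817f8182808080808080808080808080808080808080817f80808080808080808080808080808080808080808080810809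
 z (n 2044 z (n 2044 z (n 2044 z (n 2044 z z)))))) (n 1 (n 2044 z (n 2044 z (n 2044 z (n 2044 z
 (n 2044 z (n 2044 z z)))))) (n 0 z (n 0 z (n 0 z (n 0 z (n 0 z (n 0 z (n 0 z (n 1 (n 3282699 z
 (n 3282699 z (n 3282699 z (n 3282699 z (n 3282699 z (n 3282699 z z)))))) (n 0 z (n 1 (n 2044 z
 (n
 0x1b5ba1a90b01c0073c5d89d8140e00287eec8c42603000b21762760303800995ba1328181c00008dd91440c0e002686ec6ec620300023376376210180010abb2319080c007119d89d88006005572ea4ca4007000cd77637510038036c4398b98800c012dadd8dc8400e0073f6e42c420070083bdae4200ed52dc8405ffccb90807e1a872101125b6a200224b69440037a3ca8800abb685108000008004357f7a1b7ff5f87f794480605d7fbc287ffae0805e417fec628069437fa61a7ff7a78011257fbbd37fea1080a0828027607fc2f1801bf28014ee7fe5ee8029a47ff02b8028a580658f800aff7fd8b57f59287f947c80c59d802980801f0e805d6e8034ac7f46127fa64d80000080746d80484a7ff94f7fcab48066e880096e7fff128092e97fe689802dd98014528029227a19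
 z (n 2044 z (n 2044 z (n 2044 z (n 2044 z z)))))) (n 0 z z)))))))))))))) (n 263 (n 0 z (n 0 z
 (n 0 z (n 0 z (n 1 (n 2284 z (n 2284 z (n 2284 z (n 2284 z (n 2284 z (n 7602715 z z)))))) (n 1
 (n 7741763 z (n 7741763 z (n 7741763 z (n 7741763 z (n 7741763 z (n 7741763 z z)))))) (n 1 (n
 7684899 z (n 7684899 z (n 7684899 z (n 7684899 z (n 7684899 z (n 7684899 z z)))))) z))))))) (n
 27 (n 0 z (n 1 (n 7741763 z (n 7741763 z (n 7741763 z (n 7741763 z (n 7741763 z (n 7741763 z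
 z)))))) (n 1 (n 7684899 z (n 7684899 z (n 7684899 z (n 7684899 z (n 7684899 z (n 7684899 z
 z)))))) (n 0 z (n 0 z (n 0 z z)))))) z))))))) (n 0 (n 0 (n 0 z z) z) (n 0 (n 597 (n 0 (n 0 z z)
 (n 0 (n 0 z z) (n 0 (n 0 z z) (n 0 (n 0 z z) (n 0 (n 0 z z) (n 0 (n 0 z z) (n 0 (n 0 z z) (n 0
 (n 0 z z) (n 0 (n 0 z z) z))))))))) (n 599 (n 0 (n 0 z z) (n 0 (n 0 z z) (n 0 (n 0 z z) (n 0 (n
 0 z z) (n 0 (n 0 z z) (n 0 (n 0 z z) (n 0 (n 0 z z) (n 0 (n 0 z z) (n 0 (n 0 z z) (n 0 (n 0 z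
 z) (n 0 (n 0 z z) (n 0 (n 0 z z) (n 0 (n 0 z z) (n 0 (n 0 z z) z)))))))))))))) (n 581 (n 0 (n 0
 z z) (n 0 (n 0 z z) (n 0 (n 0 z z) (n 0 (n 0 z z) (n 0 (n 0 z z) (n 0 (n 0 z z) (n 0 (n 0 z z)
 (n 0 (n 0 z z) (n 0 (n 0 z z) (n 0 (n 0 z z) (n 0 (n 0 z z) (n 0 (n 0 z z) (n 0 (n 0 z z) (n 0
 (n 0 z z) (n 0 (n 0 z z) (n 0 (n 0 z z) (n 0 (n 0 z z) (n 0 (n 0 z z) (n 0 (n 0 z z) (n 0 (n 0
 z z) (n 0 (n 0 z z) (n 0 (n 0 z z) (n 0 (n 0 z z) (n 0 (n 0 z z) (n 0 (n 0 z z) (n 0 (n 0 z z)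
 (n 0 (n 0 z z) (n 0 (n 0 z z) (n 0 (n 0 z z) (n 0 (n 0 z z) (n 0 (n 0 z z) (n 0 (n 0 z z)
 z)))))))))))))))))))))))))))))))) (n 273 (n 0 (n 0 z z) (n 0 (n 0 z z) (n 0 (n 0 z z) (n 0 (n 0
 z z) (n 0 (n 0 z z) (n 0 (n 0 z z) (n 0 (n 0 z z) z))))))) (n 249 (n 0 (n 0 z z) (n 0 (n 0 z z)
 (n 0 (n 0 z z) (n 0 (n 0 z z) (n 0 (n 0 z z) (n 0 (n 0 z z) (n 0 (n 0 z z) (n 0 (n 0 z z) (n 0
 (n 0 z z) (n 0 (n 0 z z) (n 0 (n 0 z z) (n 0 (n 0 z z) (n 0 (n 0 z z) (n 0 (n 0 z z) (n 0 (n 0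
 z z) (n 0 (n 0 z z) (n 0 (n 0 z z) (n 0 (n 0 z z) (n 0 (n 0 z z) (n 0 (n 0 z z) (n 0 (n 0 z z)
 (n 0 (n 0 z z) (n 0 (n 0 z z) (n 0 (n 0 z z) (n 0 (n 0 z z) (n 0 (n 0 z z) (n 0 (n 0 z z) (n 0
 (n 0 z z) (n 0 (n 0 z z) (n 0 (n 0 z z) (n 0 (n 0 z z) (n 0 (n 0 z z) (n 0 (n 0 z z) (n 0 (n 0
 z z) (n 0 (n 0 z z) (n 0 (n 0 z z) (n 0 (n 0 z z) (n 0 (n 0 z z) (n 0 (n 0 z z) (n 0 (n 0 z z)
 (n 0 (n 0 z z) (n 0 (n 0 z z) (n 0 (n 0 z z) (n 0 (n 0 z z) (n 0 (n 0 z z) (n 0 (n 0 z z) (n 0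
 (n 0 z z) (n 0 (n 0 z z) (n 0 (n 0 z z) (n 0 (n 0 z z) (n 0 (n 0 z z)
 z))))))))))))))))))))))))))))))))))))))))))))))))))) (n 580 (n 0 (n 0 z z) (n 0 (n 0 z z) (n 0
 (n 0 z z) (n 0 (n 0 z z) (n 0 (n 0 z z) (n 0 (n 0 z z) (n 0 (n 0 z z) (n 0 (n 0 z z) (n 0 (n 0
 z z) (n 0 (n 0 z z) (n 0 (n 0 z z) (n 0 (n 0 z z) (n 0 (n 0 z z) (n 0 (n 0 z z) (n 0 (n 0 z z)
 (n 0 (n 0 z z) (n 0 (n 0 z z) (n 0 (n 0 z z) (n 0 (n 0 z z) (n 0 (n 0 z z) (n 0 (n 0 z z) (n 0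
 (n 0 z z) (n 0 (n 0 z z) (n 0 (n 0 z z) (n 0 (n 0 z z) (n 0 (n 0 z z) (n 0 (n 0 z z) (n 0 (n 0
 z z) (n 0 (n 0 z z) z))))))))))))))))))))))))))))) (n 279 (n 0 (n 0 z z) (n 0 (n 0 z z) (n 0 (n
 0 z z) (n 0 (n 0 z z) (n 0 (n 0 z z) (n 0 (n 0 z z) (n 0 (n 0 z z) (n 0 (n 0 z z) (n 0 (n 0 z
 z) (n 0 (n 0 z z) (n 0 (n 0 z z) (n 0 (n 0 z z) (n 0 (n 0 z z) (n 0 (n 0 z z) z))))))))))))))
 (n 255 (n 0 (n 0 z z) (n 0 (n 0 z z) (n 0 (n 0 z z) (n 0 (n 0 z z) (n 0 (n 0 z z) (n 0 (n 0 z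
 z) (n 0 (n 0 z z) (n 0 (n 0 z z) (n 0 (n 0 z z) (n 0 (n 0 z z) (n 0 (n 0 z z) (n 0 (n 0 z z) (n
 0 (n 0 z z) (n 0 (n 0 z z) (n 0 (n 0 z z) (n 0 (n 0 z z) (n 0 (n 0 z z) (n 0 (n 0 z z) (n 0 (n
 0 z z) (n 0 (n 0 z z) (n 0 (n 0 z z) (n 0 (n 0 z z) z)))))))))))))))))))))) (n 9 (n 0 (n 0 z z)
 (n 0 (n 0 z z) (n 0 (n 0 z z) (n 0 (n 0 z z) (n 0 (n 0 z z) (n 0 (n 0 z z) (n 0 (n 0 z z) (n 0
 (n 0 z z) (n 0 (n 0 z z) (n 0 (n 0 z z) (n 0 (n 0 z z) (n 0 (n 0 z z) (n 0 (n 0 z z) (n 0 (n 0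
 z z) (n 0 (n 0 z z) (n 0 (n 0 z z) z)))))))))))))))) (n 243 (n 0 (n 0 z z) (n 0 (n 0 z z) (n 0
 (n 0 z z) (n 0 (n 0 z z) (n 0 (n 0 z z) (n 0 (n 0 z z) (n 0 (n 0 z z) (n 0 (n 0 z z) (n 0 (n 0
 z z) (n 0 (n 0 z z) (n 0 (n 0 z z) (n 0 (n 0 z z) (n 0 (n 0 z z) (n 0 (n 0 z z) (n 0 (n 0 z z)
 (n 0 (n 0 z z) (n 0 (n 0 z z) (n 0 (n 0 z z) (n 0 (n 0 z z) (n 0 (n 0 z z) (n 0 (n 0 z z) (n 0
 (n 0 z z) (n 0 (n 0 z z) (n 0 (n 0 z z) (n 0 (n 0 z z) (n 0 (n 0 z z) (n 0 (n 0 z z) (n 0 (n 0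
 z z) (n 0 (n 0 z z) (n 0 (n 0 z z) (n 0 (n 0 z z) (n 0 (n 0 z z) (n 0 (n 0 z z) (n 0 (n 0 z z)
 (n 0 (n 0 z z) z))))))))))))))))))))))))))))))))))) (n 285 (n 0 (n 0 z z) (n 0 (n 0 z z) (n 0
 (n 0 z z) (n 0 (n 0 z z) (n 0 (n 0 z z) (n 0 (n 0 z z) (n 0 (n 0 z z) (n 0 (n 0 z z) (n 0 (n 0
 z z) z))))))))) (n 263 (n 0 (n 0 z z) (n 0 (n 0 z z) (n 0 (n 0 z z) (n 0 (n 0 z z) (n 0 (n 0 z
 z) (n 0 (n 0 z z) (n 0 (n 0 z z) z))))))) (n 9 (n 0 (n 0 z z) (n 0 (n 0 z z) (n 0 (n 0 z z) (n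
 0 (n 0 z z) (n 0 (n 0 z z) (n 0 (n 0 z z) (n 0 (n 0 z z) (n 0 (n 0 z z) (n 0 (n 0 z z) (n 0 (n
 0 z z) (n 0 (n 0 z z) (n 0 (n 0 z z) (n 0 (n 0 z z) (n 0 (n 0 z z) (n 0 (n 0 z z) (n 0 (n 0 z
 z) (n 0 (n 0 z z) (n 0 (n 0 z z) (n 0 (n 0 z z) (n 0 (n 0 z z) (n 0 (n 0 z z) (n 0 (n 0 z z) (n
 0 (n 0 z z) (n 0 (n 0 z z) (n 0 (n 0 z z) z))))))))))))))))))))))))) (n 245 (n 0 (n 0 z z) (n 0
 (n 0 z z) (n 0 (n 0 z z) (n 0 (n 0 z z) (n 0 (n 0 z z) (n 0 (n 0 z z) (n 0 (n 0 z z) (n 0 (n 0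
 z z) (n 0 (n 0 z z) (n 0 (n 0 z z) (n 0 (n 0 z z) (n 0 (n 0 z z) (n 0 (n 0 z z) (n 0 (n 0 z z)
 z)))))))))))))) (n 1 (n 0 (n 0 z z) (n 0 (n 0 z z) (n 0 (n 0 z z) (n 0 (n 0 z z) (n 0 (n 0 z z)
 (n 0 (n 0 z z) (n 0 (n 0 z z) (n 0 (n 0 z z) (n 0 (n 0 z z) (n 0 (n 0 z z) (n 0 (n 0 z z) (n 0
 (n 0 z z) (n 0 (n 0 z z) (n 0 (n 0 z z) (n 0 (n 0 z z) (n 0 (n 0 z z) (n 0 (n 0 z z) (n 0 (n 0
 z z) (n 0 (n 0 z z) (n 0 (n 0 z z) (n 0 (n 0 z z) (n 0 (n 0 z z) (n 0 (n 0 z z) (n 0 (n 0 z z)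
 (n 0 (n 0 z z) z))))))))))))))))))))))))) (n 599 (n 0 (n 0 z z) (n 0 (n 0 z z) (n 0 (n 0 z z)
 (n 0 (n 0 z z) (n 0 (n 0 z z) (n 0 (n 0 z z) (n 0 (n 0 z z) z))))))) (n 581 (n 0 (n 0 z z) (n 0
 (n 0 z z) (n 0 (n 0 z z) (n 0 (n 0 z z) (n 0 (n 0 z z) (n 0 (n 0 z z) (n 0 (n 0 z z) (n 0 (n 0
 z z) (n 0 (n 0 z z) (n 0 (n 0 z z) (n 0 (n 0 z z) (n 0 (n 0 z z) (n 0 (n 0 z z) (n 0 (n 0 z z)
 (n 0 (n 0 z z) (n 0 (n 0 z z) (n 0 (n 0 z z) (n 0 (n 0 z z) (n 0 (n 0 z z) (n 0 (n 0 z z) (n 0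
 (n 0 z z) (n 0 (n 0 z z) (n 0 (n 0 z z) (n 0 (n 0 z z) (n 0 (n 0 z z) (n 0 (n 0 z z) (n 0 (n 0
 z z) (n 0 (n 0 z z) z)))))))))))))))))))))))))))) (n 9 (n 0 (n 0 z z) (n 0 (n 0 z z) (n 0 (n 0
 z z) (n 0 (n 0 z z) (n 0 (n 0 z z) (n 0 (n 0 z z) (n 0 (n 0 z z) (n 0 (n 0 z z) (n 0 (n 0 z z)
 (n 0 (n 0 z z) (n 0 (n 0 z z) (n 0 (n 0 z z) (n 0 (n 0 z z) (n 0 (n 0 z z) (n 0 (n 0 z z) (n 0
 (n 0 z z) (n 0 (n 0 z z) (n 0 (n 0 z z) (n 0 (n 0 z z) (n 0 (n 0 z z) (n 0 (n 0 z z) (n 0 (n 0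
 z z) (n 0 (n 0 z z) (n 0 (n 0 z z) (n 0 (n 0 z z) (n 0 (n 0 z z) (n 0 (n 0 z z) (n 0 (n 0 z z)
 (n 0 (n 0 z z) (n 0 (n 0 z z) (n 0 (n 0 z z) (n 0 (n 0 z z) (n 0 (n 0 z z) (n 0 (n 0 z z) (n 0
 (n 0 z z) (n 0 (n 0 z z) (n 0 (n 0 z z) (n 0 (n 0 z z) (n 0 (n 0 z z) (n 0 (n 0 z z) (n 0 (n 0
 z z) (n 0 (n 0 z z) (n 0 (n 0 z z) (n 0 (n 0 z z) (n 0 (n 0 z z) (n 0 (n 0 z z)
 z)))))))))))))))))))))))))))))))))))))))))))))) (n 27 (n 0 (n 0 z z) (n 0 (n 0 z z) (n 0 (n 0 z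
 z) (n 0 (n 0 z z) (n 0 (n 0 z z) (n 0 (n 0 z z) z)))))) (n 1 (n 0 (n 0 z z) (n 0 (n 0 z z) (n 0
 (n 0 z z) (n 0 (n 0 z z) (n 0 (n 0 z z) (n 0 (n 0 z z) (n 0 (n 0 z z) (n 0 (n 0 z z) (n 0 (n 0
 z z) (n 0 (n 0 z z) (n 0 (n 0 z z) (n 0 (n 0 z z) (n 0 (n 0 z z) (n 0 (n 0 z z) (n 0 (n 0 z z)
 (n 0 (n 0 z z) (n 0 (n 0 z z) (n 0 (n 0 z z) (n 0 (n 0 z z) (n 0 (n 0 z z) (n 0 (n 0 z z) (n 0
 (n 0 z z) (n 0 (n 0 z z) (n 0 (n 0 z z) (n 0 (n 0 z z) (n 0 (n 0 z z) (n 0 (n 0 z z) (n 0 (n 0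
 z z) (n 0 (n 0 z z) (n 0 (n 0 z z) (n 0 (n 0 z z) (n 0 (n 0 z z) (n 0 (n 0 z z) (n 0 (n 0 z z)
 (n 0 (n 0 z z) (n 0 (n 0 z z) z)))))))))))))))))))))))))))))))))))) (n 0 (n 0 (n 0 z z) (n 0 (n
 0 z z) (n 0 (n 0 z z) (n 0 (n 0 z z) (n 0 (n 0 z z) (n 0 (n 0 z z) (n 0 (n 0 z z) (n 0 (n 0 z
 z) (n 0 (n 0 z z) (n 0 (n 0 z z) (n 0 (n 0 z z) (n 0 (n 0 z z) (n 0 (n 0 z z) (n 0 (n 0 z z) (n
 0 (n 0 z z) z))))))))))))))) z))))))))))))))))))))) z)))) z) z)))) (n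
 0x234d51134a86b47712224a204a3104916b064c4c2262680 (n 0 (n 155 (n 0 z (n 0 z (n 0 z (n 0 z (n 0
 z (n 0 z (n 0 z (n 0 z (n 0 z (n 0 z (n 0 z (n 3282443 z (n 2 z (n 0 z z)))))))))))))) (n 437
 (n 3278363 z (n 6627651 z (n 0 z (n 10 z (n 0 z (n 0 z (n 0 z (n 18 z z)))))))) (n 433 (n 26 z
 (n 0 z (n 34 z (n 0 z (n 6627651 z (n 42 z z)))))) (n 125 (n 6567195 z (n 0 z (n 0 z (n 0 z (n
 0 z (n 0 z (n 0 z (n 0 z (n 0 z z))))))))) (n 1 (n 6567195 z (n 0 z (n 0 z (n 0 z (n 0 z (n 0 z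
 (n 0 z (n 0 z (n 0 z (n 0 z (n 0 z (n 0 z (n 0 z (n 0 z (n 0 z (n 3278411 z (n 6554139 z (n 0 z
 z)))))))))))))))))) (n 0 (n 50 z (n 0 z (n 0 z (n 58 z (n 66 z (n 6627651 z (n 0 z z)))))))
 z)))))) (n 433 (n 0 (n 223 (n 0 z (n 0 z (n 0 z (n 0 z (n 0 z (n 0 z (n 0 z (n 0 z z)))))))) (n
 223 (n 0 z (n 0 z (n 0 z (n 0 z (n 0 z (n 0 z (n 0 z (n 0 z z)))))))) (n 219 (n 0 z (n 0 z (n 0
 z (n 0 z (n 0 z (n 0 z z)))))) (n 219 (n 0 z (n 0 z (n 0 z (n 0 z (n 0 z (n 0 z z)))))) (n 219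
 (n 2 (n 1 z (n 2 (n 0 z (n 0 z (n 0 z (n 0 z (n 0 z (n 0 z z)))))) (n 1 z z))) (n 0 z (n 0 z (n
 0 z (n 0 z (n 0 z z)))))) (n 289 (n 2 (n 0 z (n 0 z z)) (n 0 z (n 0 z (n 0 z z)))) (n 289 (n 0
 z (n 0 z (n 0 z (n 0 z z)))) (n 289 (n 0 z (n 0 z (n 0 z (n 0 z z)))) z)))))))) (n 0 (n 0 z (n
 867 (n 0 z (n 0 z (n 0 z (n 0 z (n 0 z (n 0 z (n 0 z (n 0 z (n 0 z (n 0 z (n 0 z (n 0 z (n 0 z
 (n 0 z (n 0 z (n 0 z (n 0 z (n 0 z (n 0 z (n 0 z (n 0 z z))))))))))))))))))))) (n 867 (n 0 z (n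
 0 z (n 0 z (n 0 z (n 0 z (n 0 z (n 0 z (n 0 z (n 0 z (n 0 z (n 0 z (n 0 z (n 0 z (n 0 z (n 0 z
 (n 0 z (n 0 z (n 0 z (n 0 z (n 0 z (n 0 z z))))))))))))))))))))) (n 867 (n 0 z (n 0 z (n 0 z (n
 0 z (n 0 z (n 0 z (n 0 z (n 0 z (n 0 z (n 0 z (n 0 z (n 0 z (n 0 z (n 0 z (n 0 z (n 0 z (n 0 z
 (n 0 z (n 0 z (n 2 (n 1 z (n 2 (n 0 z (n 0 z (n 0 z (n 0 z (n 0 z (n 0 z z)))))) (n 1 z z))) (n
 0 z z))))))))))))))))))))) (n 49 (n 0 z (n 0 z (n 0 z (n 0 z (n 0 z (n 0 z (n 0 z (n 0 z (n 2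
 (n 0 z (n 0 z z)) (n 0 z (n 0 z (n 0 z (n 0 z (n 0 z (n 0 z (n 0 z (n 0 z (n 0 z (n 0 z (n 0 z
 (n 0 z z))))))))))))))))))))) (n 49 (n 0 z (n 0 z (n 0 z (n 0 z (n 0 z (n 0 z (n 0 z (n 0 z (n
 0 z (n 0 z (n 0 z (n 0 z (n 0 z (n 0 z (n 0 z (n 0 z (n 0 z (n 0 z (n 0 z (n 0 z (n 0 z
 z))))))))))))))))))))) (n 49 (n 0 z (n 0 z (n 0 z (n 0 z (n 0 z (n 0 z (n 0 z (n 0 z (n 0 z (n
 0 z (n 0 z (n 0 z (n 0 z (n 0 z (n 0 z (n 0 z (n 0 z (n 0 z (n 0 z (n 0 z (n 0 z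
 z))))))))))))))))))))) z))))))) (n 0 (n 879 (n 0 z (n 0 z (n 0 z (n 0 z (n 0 z (n 0 z (n 0 z (n
 0 z z)))))))) (n 879 (n 0 z (n 0 z (n 0 z (n 0 z (n 0 z (n 0 z (n 0 z (n 0 z z)))))))) (n 879
 (n 0 z (n 0 z (n 0 z (n 0 z (n 0 z (n 0 z (n 0 z (n 2 (n 1 z (n 2 (n 0 z (n 0 z (n 0 z (n 0 z
 (n 0 z (n 0 z z)))))) (n 1 z z))) z)))))))) (n 865 (n 0 z (n 0 z (n 0 z (n 0 z (n 0 z (n 0 z
 z)))))) (n 865 (n 0 z (n 0 z (n 2 (n 0 z z) (n 0 z (n 0 z (n 0 z z)))))) (n 865 (n 0 z (n 0 z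
 (n 0 z (n 0 z (n 0 z (n 0 z z)))))) z)))))) (n 0 (n 0 z (n 0 z (n 1 (n 0 z (n 0 z (n 0 z (n 0 z
 (n 0 z (n 0 z (n 0 z (n 0 z (n 0 z z))))))))) (n 1 (n 0 z (n 0 z (n 0 z (n 0 z (n 0 z (n 0 z (n
 0 z (n 0 z (n 0 z z))))))))) (n 1 (n 0 z (n 0 z (n 0 z (n 0 z (n 0 z (n 0 z (n 0 z (n 0 z (n 0
 z z))))))))) z))))) (n 0 (n 0 z (n 49 (n 0 z (n 0 z (n 0 z (n 0 z (n 0 z (n 0 z (n 0 z (n 0 z
 z)))))))) (n 49 (n 0 z (n 0 z (n 0 z (n 0 z (n 0 z (n 0 z (n 0 z (n 0 z z)))))))) (n 49 (n 0 z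
 (n 0 z (n 0 z (n 0 z (n 2 z (n 0 z (n 0 z (n 0 z z)))))))) z)))) (n 0 (n 841 (n 0 z (n 0 z (n 0
 z (n 0 z (n 2 (n 0 z (n 0 z z)) (n 0 z (n 0 z (n 0 z z)))))))) (n 841 (n 0 z (n 0 z (n 0 z (n 0
 z (n 0 z (n 0 z (n 0 z (n 0 z z)))))))) (n 841 (n 0 z (n 0 z (n 0 z (n 0 z (n 0 z (n 0 z (n 0 z
 (n 0 z z)))))))) z))) (n 0 (n 0 z (n 0 z z)) (n 0 (n 0 z z) (n 0 z z))))))))) (n 0 (n 1 (n 1244
 z (n 3280995 z (n 1004 z (n 1244 z (n 1244 z (n 1244 z z)))))) (n 0 z (n 1 (n 3282443 z (n 1244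
 z (n 1244 z (n 1244 z (n 1244 z (n 1244 z z)))))) (n 0 z (n 1 (n 6627651 z (n 6627651 z (n
 6627651 z (n 6627651 z (n 6627651 z (n 6627651 z z)))))) (n 1 (n 1244 z (n 1244 z (n 1244 z (n
 6554139 z (n 1244 z (n 5449291 z z)))))) z)))))) (n 0 z z)))) (n
 0x2324da192658092ec60954c0ea99889147086974437562130b08ccd046c641363240 (n 0x2c649 (n 477 (n
 6557747 z (n 2 z (n 0 z (n 0 z (n 0 z (n 0 z (n 0 z z))))))) (n 461 (n 10 z (n 6557747 z (n 0 z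
 (n 18 z (n 6557747 z (n 26 z (n 34 z (n 0 z (n 42 z (n 6557747 z (n 50 z (n 0 z z))))))))))))
 (n 129 (n 0 z (n 0 z (n 0 z (n 0 z (n 58 z (n 6566419 z (n 66 z (n 0 z (n 0 z (n 0 z (n 74 z (n
 6566419 z (n 0 z (n 0 z (n
 0xca8ca600781f8607e08218208208208208208208208208208208208208208208208208208208208208200801 z (n
 0 z (n 0 z (n 0 z (n 0 z (n 0 z (n 0 z (n 0 z (n 0 z (n 0 z (n 0 z (n 0 z (n 0 z (n 0 z (n 0 z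
 z))))))))))))))))))))))))))))) (n 3 (n 6566419 z (n 0 z (n 0 z (n 0 z (n 0 z (n 0 z (n 0 z (n 0
 z (n 82 z (n 0 z (n 0 z (n 0 z (n 0 z (n 0 z (n 0 z (n 0 z z)))))))))))))))) (n 1 (n 0 z (n 0 z
 (n 0 z (n 0 z (n 0 z (n 0 z (n 0 z (n 0 z (n 6566419 z (n 0 z (n 0 z (n 0 z (n 90 z (n 6566419
 z (n 0 z (n 0 z (n 0 z (n 0 z z)))))))))))))))))) (n 0 (n 0 z (n 6632459 z (n 0 z (n 0 z (n 98
 z (n 0 z (n 0 z (n 0 z z)))))))) z)))))) (n 477 (n 0 (n 951 (n 0 z (n 0 z (n 0 z (n 0 z (n 0 z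
 (n 0 z (n 0 z (n 0 z (n 0 z z))))))))) (n 951 (n 0 z (n 0 z (n 2 (n 0 z (n 0 z (n 0 z (n 0 z (n
 2 (n 0 z (n 0 z (n 0 z (n 0 z (n 0 (n 4393083 z z) (n 0 (n 4393083 z (n 4393083 z z)) z))))))
 (n 2 (n 0 z (n 0 z (n 0 z (n 0 z (n 0 z (n 0 z z)))))) (n 2 (n 0 z (n 0 z (n 0 z (n 0 z (n 0 z
 (n 0 z z)))))) (n 2 (n 0 z (n 0 z (n 0 z (n 0 z (n 0 z (n 0 (n 8782363 z z) z)))))) (n 1 z (n 1
 z z)))))))))) (n 0 z (n 0 z (n 0 z (n 0 z (n 0 z (n 0 z z))))))))) (n 951 (n 0 z (n 0 z (n 0 z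
 (n 0 z (n 0 z (n 0 z (n 0 z (n 0 z (n 0 z z))))))))) (n 951 (n 0 z (n 0 z (n 0 z (n 0 z (n 0 z
 (n 0 z (n 0 z (n 0 z (n 0 z z))))))))) (n 951 (n 0 z (n 0 z (n 0 z (n 0 z (n 0 z (n 2 (n 0 z (n
 2 (n 0 z (n 0 z (n 0 z (n 0 z (n 0 z (n 0 z z)))))) (n 2 (n 0 z (n 0 z (n 0 z (n 0 z (n 0 z (n
 0 z z)))))) (n 1 z (n 1 z (n 1 z (n 1 z z))))))) (n 0 z (n 0 z (n 0 z z))))))))) (n 951 (n 0 z
 (n 0 z (n 0 z (n 0 z (n 0 z (n 0 z (n 0 z (n 0 z (n 2 (n 2 (n 0 (n 3812 z z) (n 0 (n 8525323 z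
 z) (n 0 z (n 0 z (n 0 z (n 0 (n 3812 z (n 3812 z z)) z)))))) (n 2 (n 0 z (n 0 z (n 0 z (n 0 z
 (n 0 z (n 0 z z)))))) (n 1 z (n 1 z (n 1 z (n 1 z z)))))) z))))))))) (n 953 (n 0 z (n 0 z (n 0
 z (n 0 z (n 0 z (n 0 z (n 0 z (n 0 z (n 0 z (n 0 z (n 0 z (n 0 z (n 0 z (n 0 z (n 0 z (n 2 (n 0
 z (n 0 z (n 2 (n 0 z (n 0 z (n 0 z (n 0 z (n 0 z (n 0 z z)))))) (n 2 (n 0 z (n 0 z (n 0 z (n 0
 z (n 0 z (n 0 (n 8782363 z z) z)))))) (n 1 z z))))) (n 0 z (n 0 z (n 0 z (n 0 z (n 0 z (n 0 z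
 (n 0 z (n 0 z (n 0 z (n 0 z (n 0 z (n 0 z (n 0 z (n 0 z (n 0 z (n 0 z (n 0 z (n 0 z (n 0 z (n 0
 z (n 0 z (n 0 z (n 0 z (n 0 z (n 0 z (n 0 z (n 0 z (n 0 z (n 0 z (n 0 z
 z)))))))))))))))))))))))))))))))))))))))))))))) (n 953 (n 0 z (n 0 z (n 0 z (n 0 z (n 0 z (n 0
 z (n 0 z (n 0 z (n 0 z (n 0 z (n 0 z (n 0 z (n 0 z (n 0 z (n 0 z (n 0 z (n 0 z (n 0 z (n 0 z (n
 0 z (n 0 z (n 7476747 z (n 0 z (n 0 z (n 0 z (n 0 z (n 0 z (n 0 z (n 0 z (n 0 z (n 0 z (n 0 z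
 (n 0 z (n 0 z (n 0 z (n 0 z (n 0 z (n 0 z (n 0 z (n 0 z (n 0 z (n 0 z (n 0 z (n 0 z (n 0 z (n 0
 z z)))))))))))))))))))))))))))))))))))))))))))))) (n 953 (n 0 z (n 0 z (n 0 z (n 0 z (n 0 z (n
 0 z (n 0 z (n 0 z (n 0 z (n 0 z (n 0 z (n 0 z (n 0 z (n 0 z (n 0 z (n 0 z (n 0 z (n 0 z (n 0 z
 (n 0 z (n 0 z (n 0 z (n 0 z (n 0 z (n 0 z (n 0 z (n 0 z (n 0 z (n 0 z (n 0 z (n 0 z (n 0 z (n 0
 z (n 0 z (n 0 z (n 0 z (n 0 z (n 0 z (n 0 z (n 0 z (n 0 z (n 0 z (n 0 z (n 0 z (n 0 z (n 0 z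
 z)))))))))))))))))))))))))))))))))))))))))))))) (n 7 (n 0 z (n 0 z (n 0 z (n 0 z (n 0 z (n 0 z
 (n 0 z z))))))) (n 3 (n 0 z (n 0 z (n 0 z (n 0 z (n 0 z (n 0 z (n 0 z (n 0 z (n 0 z (n 0 z (n 0
 z (n 0 z (n 0 z (n 0 z (n 0 z (n 0 z z)))))))))))))))) (n 1 (n 0 z (n 0 z (n 0 z (n 0 z (n 0 z
 (n 0 z (n 0 z (n 0 z (n 0 z (n 0 z z)))))))))) z)))))))))))) (n 0 (n 0 z (n 0 z (n 0 z (n 0 z
 (n 0 z (n 921 (n 0 z (n 0 z (n 0 z (n 2 (n 0 z (n 0 z (n 2 (n 0 z (n 0 z (n 0 z (n 0 z (n 0 z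
 (n 0 z z)))))) (n 2 (n 0 z (n 0 z (n 0 z (n 0 z (n 0 z (n 0 (n 8790275 z z) z)))))) (n 1 z
 z))))) (n 0 z (n 0 z (n 0 z (n 0 z (n 0 z (n 0 z (n 0 z (n 0 z (n 0 z z))))))))))))) (n 921 (n
 0 z (n 0 z (n 0 z (n 0 z (n 0 z (n 0 z (n 0 z (n 2 (n 0 z (n 1 z (n 1 z (n 1 z z)))) (n 0 z (n
 0 z (n 0 z (n 0 z (n 0 z z))))))))))))) (n 921 (n 0 z (n 0 z (n 0 z (n 0 z (n 0 z (n 0 z (n 0 z
 (n 0 z (n 0 z (n 0 z (n 0 z (n 0 z (n 0 z z))))))))))))) (n 7 (n 0 z (n 0 z (n 0 z (n 0 z (n 0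
 z (n 0 z (n 0 z (n 0 z (n 0 z (n 0 z (n 0 z (n 0 z (n 0 z (n 0 z (n 0 z (n 0 z (n 0 z
 z))))))))))))))))) (n 3 (n 0 z (n 0 z (n 0 z (n 0 z (n 0 z (n 0 z (n 0 z (n 0 z (n 0 z (n 0 z
 z)))))))))) (n 1 (n 0 z (n 0 z (n 0 z (n 0 z (n 0 z (n 0 z (n 0 z (n 0 z (n 0 z (n 0 z (n 0 z
 (n 0 z (n 0 z z))))))))))))) z))))))))))) (n 0 (n 0 z (n 0 z (n 0 z (n 0 z (n 921 (n 0 z (n 0 z
 (n 0 z (n 0 z (n 0 z (n 0 z (n 0 z z))))))) (n 921 (n 0 z (n 0 z (n 0 z (n 0 z (n 0 z (n 0 z (n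
 0 z z))))))) (n 921 (n 0 z (n 0 z (n 0 z (n 2 (n 2 (n 0 z (n 0 z (n 0 z (n 0 z (n 0 z (n 0 (n
 8855811 z z) z)))))) (n 1 z (n 1 z z))) (n 0 z (n 0 z (n 0 z z))))))) (n 59 (n 0 z (n 0 z (n 0
 z (n 0 z (n 0 z (n 2 (n 1 z (n 1 z z)) (n 0 z z))))))) (n 51 (n 0 z (n 0 z (n 0 z (n 0 z (n 0 z
 (n 0 z (n 2 (n 1 z z) (n 0 z (n 0 z (n 0 z z)))))))))) (n 49 (n 0 z (n 0 z (n 0 z (n 2 z (n 0 z
 (n 0 z (n 0 z z))))))) z)))))))))) (n 0 (n 0 z (n 0 z (n 0 z (n 807 (n 0 z (n 0 z (n 0 z (n 0 z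
 (n 0 z (n 0 z (n 0 z (n 0 z (n 0 z (n 0 z (n 0 z (n 0 z (n 0 z (n 0 z (n 0 z (n 0 z (n 0 z (n 0
 z (n 0 z (n 0 z (n 0 z (n 0 z (n 0 z (n 0 z (n 2 (n 0 z (n 0 z (n 1 z (n 1 z (n 1 z z))))) (n 0
 z (n 0 z (n 0 z z)))))))))))))))))))))))))))) (n 807 (n 0 z (n 0 z (n 2 (n 0 z (n 1 z (n 1 z (n
 1 z z)))) (n 0 z (n 0 z (n 0 z (n 0 z (n 0 z (n 0 z (n 0 z (n 0 z (n 0 z (n 0 z (n 0 z (n 0 z
 (n 0 z (n 0 z (n 0 z (n 0 z (n 0 z (n 0 z (n 0 z (n 0 z (n 0 z (n 0 z (n 0 z (n 0 z (n 0 z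
 z)))))))))))))))))))))))))))) (n 807 (n 0 z (n 0 z (n 0 z (n 0 z (n 0 z (n 0 z (n 0 z (n 0 z (n
 0 z (n 0 z (n 0 z (n 0 z (n 2 (n 1 z (n 1 z (n 1 z z))) (n 0 z (n 0 z (n 0 z (n 0 z (n 0 z (n 0
 z (n 0 z (n 0 z (n 0 z (n 0 z (n 0 z (n 0 z (n 0 z (n 0 z (n 0 z z))))))))))))))))))))))))))))
 (n 59 (n 0 z (n 0 z (n 0 z (n 2 (n 1 z (n 1 z z)) (n 0 z (n 0 z (n 0 z (n 0 z (n 0 z (n 0 z (n
 0 z z))))))))))) (n 373 (n 0 z (n 0 z (n 0 z (n 0 z (n 0 z (n 0 z (n 0 z (n 0 z (n 0 z (n 0 z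
 z)))))))))) (n 773 (n 0 z (n 0 z (n 0 z (n 0 z (n 0 z (n 0 z (n 0 z (n 0 z (n 0 z (n 0 z (n 0 z
 z))))))))))) z))))))))) (n 0 (n 0 z (n 0 z (n 921 (n 0 z (n 0 z (n 0 z (n 0 z (n 0 z (n 0 z (n
 0 z (n 0 z z)))))))) (n 921 (n 0 z (n 0 z (n 0 z (n 0 z (n 0 z (n 0 z (n 0 z (n 0 z z))))))))
 (n 921 (n 0 z (n 0 z (n 0 z (n 0 z (n 0 z (n 0 z (n 0 z (n 0 z z)))))))) (n 491 (n 0 z (n 0 z
 (n 0 z (n 0 z (n 0 z (n 2 (n 1 z (n 1 z z)) (n 0 z (n 0 z z)))))))) (n 917 (n 0 z (n 0 z (n 0 z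
 (n 2 (n 1 z z) (n 0 z (n 0 z (n 0 z (n 0 z (n 0 z (n 0 z z)))))))))) (n 65 (n 0 z (n 0 z (n 0 z
 (n 0 z (n 0 z (n 0 z (n 0 z (n 0 z z)))))))) z)))))))) (n 0 (n 0 z (n 949 (n 0 z (n 0 z (n 0 z
 (n 0 z (n 0 z (n 0 z (n 0 z (n 0 z (n 0 z (n 0 z (n 0 z (n 0 z (n 0 z z))))))))))))) (n 949 (n
 0 z (n 2 (n 0 z (n 1 z (n 1 z (n 1 z z)))) (n 0 z (n 0 z (n 0 z (n 0 z (n 0 z (n 0 z (n 0 z (n
 0 z (n 0 z (n 0 z (n 0 z z))))))))))))) (n 949 (n 0 z (n 0 z (n 0 z (n 0 z (n 0 z (n 0 z (n 0 z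
 (n 0 z (n 0 z (n 0 z (n 0 z (n 0 z (n 0 z z))))))))))))) (n 1017 (n 0 z (n 0 z (n 0 z (n 0 z (n
 0 z (n 0 z (n 0 z (n 0 z (n 0 z (n 0 z (n 0 z (n 0 z (n 0 z (n 0 z (n 0 z z))))))))))))))) (n
 913 (n 2 (n 1 z z) (n 0 z (n 0 z (n 0 z (n 0 z (n 0 z (n 0 z (n 0 z (n 0 z (n 0 z (n 0 z (n 0 z
 (n 0 z (n 0 z (n 0 z (n 0 z (n 0 z (n 0 z (n 0 z (n 0 z (n 0 z (n 0 z (n 0 z
 z))))))))))))))))))))))) (n 1033 (n 0 z (n 0 z (n 0 z (n 0 z (n 0 z (n 0 z (n 0 z (n 0 z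
 z)))))))) z))))))) (n 0 (n 813 (n 0 z (n 0 z (n 0 z (n 0 z (n 0 z (n 0 z (n 0 z (n
 0x75175040180ea2e608070dd494410060b2a32a100c365465320388ca8c86403019519008062b28aa0100c176576400384ea8ea800301d519500060321bb1000c064374200380e84c8200385d8218a07637a089e81f8217df75f7e182289f89f7df81f96275d7e085f7a37e07208e17a07001
 z (n 0 z (n 0 z (n 0 z (n 0 z (n 0 z (n 0 z (n 0 z (n 0 z (n 0 z (n 0 z (n 0 z (n 0 z (n 0 z (n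
 0 z (n 0 z (n 0 z (n 0 z (n 0 z (n 0 z (n 0 z z)))))))))))))))))))))))))))) (n 813 (n 0 z (n 0
 z (n 0 z (n 0 z (n 0 z (n 0 z (n 0 z (n 0 z (n 0 z (n 0 z (n 0 z (n 0 z (n 0 z (n 0 z (n 0 z (n
 0 z (n 2 (n 0 z (n 1 z (n 1 z (n 1 z z)))) (n 0 z (n 0 z (n 0 z (n 0 z (n 0 z (n 0 z (n 0 z (n
 0 z (n 0 z (n 0 z (n 0 z z)))))))))))))))))))))))))))) (n 813 (n 2 (n 1 z (n 1 z (n 1 z z))) (n
 0 z (n 0 z (n 0 z (n 0 z (n 0 z (n 0 z (n 0 z (n 0 z (n 0 z (n 0 z (n 0 z (n 0 z (n 0 z (n 0 z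
 (n 0 z (n 0 z (n 0 z (n 0 z (n 0 z (n 0 z (n 0 z (n 0 z (n 0 z (n 0 z (n 0 z (n 0 z (n 0 z
 z)))))))))))))))))))))))))))) (n 469 (n 2 (n 1 z (n 1 z z)) (n 0 z (n 0 z (n 0 z (n 0 z (n 0 z
 (n 0 z (n 0 z (n 0 z z))))))))) (n 925 (n 2 (n 1 z z) (n 0 z (n 0 z (n 0 z (n 0 z (n 0 z (n 0 z
 z))))))) (n 793 (n 2 z (n 0 z (n 0 z (n 0 z (n 0 z (n 0 z (n 0 z (n 0 z (n 0 z (n 0 z
 z)))))))))) z)))))) (n 0 (n 0 z (n 0 z (n 267 (n 0 z (n 0 z (n 0 z (n 0 z (n 0 z (n 0 z (n 0 z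
 (n 0 z (n 0 z (n 0 z (n 0 z (n 0 z (n 0 z (n 0 z (n 0 z (n 0 z (n 2 (n 1 z (n 1 z z)) (n 0 z (n
 0 z (n 0 z (n 0 z (n 0 z z)))))))))))))))))))))) (n 15 (n 0 z (n 0 z (n 0 z (n 0 z (n 0 z (n 0
 z (n 0 z (n 0 z (n 0 z (n 0 z (n 0 z (n 0 z (n 0 z (n 0 z (n 0 z (n 0 z (n 0 z (n 0 z (n 0 z (n
 0 z (n 0 z (n 0 z (n 0 z (n 0 z (n 0 z (n 2 (n 1 z z) (n 0 z (n 0 z (n 0 z (n 0 z (n 0 z (n 0 z
 (n 0 z (n 0 z (n 0 z (n 0 z (n 0 z (n 0 z (n 0 z (n 0 z (n 0 z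
 z))))))))))))))))))))))))))))))))))))))))) (n 257 (n 2 z (n 0 z (n 0 z (n 0 z z)))) z))))) (n 0
 (n 0 z (n 1071 (n 0 z (n 0 z (n 0 z (n 0 z (n 0 z (n 6428427 z (n 0 z (n 0 z (n 0 z (n 0 z (n 0
 z z))))))))))) (n 21 (n 0 z (n 0 z (n 0 z (n 0 z (n 0 z (n 0 z (n 6428427 z (n 0 z (n 0 z
 z))))))))) (n 257 (n 0 z (n 0 z (n 0 z (n 0 z (n 0 z (n 0 z (n 0 z (n 0 z (n 0 z (n 0 z (n 0 z
 (n 6428427 z (n 0 z z))))))))))))) z)))) (n 0 (n 247 (n 0 z (n 0 z (n 0 z (n 0 z (n 0 z (n 0 z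
 (n 0 z (n 0 z (n 0 z (n 0 z (n 0 z (n 0 z (n 0 z (n 0 z (n 0 z (n 0 z (n 0 z (n 0 z (n 0 z (n 0
 z (n 0 z (n 0 z (n 0 z (n 0 z (n 0 z (n 0 z (n 0 z (n 0 z (n 0 z (n 0 z (n 0 z (n 0 z (n 0 z (n
 0 z (n 0 z z))))))))))))))))))))))))))))))))))) (n 3 (n 0 z (n 0 z (n 0 z (n 0 z (n 0 z (n 0 z
 (n 0 z (n 0 z (n 0 z (n 0 z z)))))))))) (n 241 (n 0 z (n 0 z (n 0 z (n 0 z (n 0 z (n 0 z (n 0 z
 (n 0 z (n 0 z (n 0 z (n 0 z (n 0 z (n 0 z (n 0 z (n 0 z (n 0 z (n 0 z (n 0 z (n 0 z (n 0 z (n 0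
 z (n 0 z (n 0 z (n 0 z (n 0 z (n 0 z z)))))))))))))))))))))))))) z))) (n 0 (n 99 (n 0 z (n 0 z
 (n 0 z (n 0 z (n 0 z (n 0 z (n 0 z (n 0 z z)))))))) (n 97 (n 0 z (n 0 z (n 0 z (n 0 z (n 0 z (n
 0 z (n 0 z (n 0 z (n 0 z (n 0 z z)))))))))) z)) (n 0 (n 145 (n 0 z (n 0 z (n 0 z (n 0 z (n 0 z
 (n 0 z (n 0 z (n 0 z (n 0 z (n 0 z (n 0 z (n 0 z (n 0 z (n 0 z z)))))))))))))) z) (n 0 z
 z))))))))))))) (n 0 (n 1 (n 6557747 z (n 6557747 z (n 6557747 z (n 6557747 z (n 6557747 z (n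
 6557747 z z)))))) (n 1 (n 2 z (n 3692 z (n 3692 z (n 6632459 z (n 3692 z (n 3692 z z)))))) (n 0
 z (n 0 z (n 0 z (n 0 z (n 0 z z))))))) (n 0 (n 0x733112a51c21733411 (n 0 (n 0 (n 7741699 z (n
 7741699 z (n 7741699 z (n 7741699 z (n 7741699 z (n 7741699 z z)))))) z) (n 0 (n 477 (n 1 (n
 7606323 z (n 7606323 z (n 7606323 z (n 7606323 z (n 7606323 z (n 7606323 z z)))))) (n 1 (n
 7475299 z (n 7733787 z (n 7733787 z (n 7733787 z (n 7733787 z (n 7733787 z z)))))) (n 0 z (n 0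
 z (n 0 z (n 0 z (n 0 z z))))))) (n 477 (n 1 (n 7741699 z (n 7606323 z (n 7606323 z (n 7606323 z
 (n 7606323 z (n 7606323 z z)))))) (n 1 (n 7741699 z (n 7606323 z (n 7606323 z (n 7606323 z (n
 7606323 z (n 7606323 z z)))))) (n 1 (n 7741699 z (n 2 z (n 7476747 z (n 3692 z (n 3692 z (n
 7681035 z z)))))) (n 1 (n 7741699 z (n 7606323 z (n 7606323 z (n 7606323 z (n 7606323 z (n
 7606323 z z)))))) (n 0 z (n 1 (n 7741699 z (n 3692 z (n 7476747 z (n 3684 z (n 3692 z (n 3692 z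
 z)))))) (n 0 z (n 0 z (n 1 (n 7741699 z (n 7681035 z (n 6489947 z (n 10 z (n 7476747 z (n 3692
 z z)))))) z))))))))) (n 1 (n 1 (n 7606323 z (n 7606323 z (n 7606323 z (n 7606323 z (n 7606323 z
 (n 7606323 z z)))))) (n 1 (n 7614995 z (n 7614995 z (n 7614995 z (n 7614995 z (n 7614995 z (n
 7614995 z z)))))) (n 1 (n 3820 z (n 3820 z (n 7681035 z (n 3820 z (n 3820 z (n 3692 z z))))))
 (n 0 z (n 1 (n 3820 z (n 7681035 z (n 3820 z (n 7472459 z (n 3820 z (n 18 z z)))))) (n 1 (n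
 7614995 z (n 7614995 z (n 7614995 z (n 7614995 z (n 7614995 z (n 7614995 z z)))))) (n 1 (n
 7741699 z (n 7741699 z (n 7741699 z (n 7741699 z (n 7741699 z (n 7741699 z z)))))) (n 1 (n
 7476747 z (n 7476747 z (n 7476747 z (n 7476747 z (n 6635635 z (n 7476747 z z)))))) (n 1 (n 3820
 z (n 3820 z (n 3820 z (n 7681035 z (n 6636403 z (n 3820 z z)))))) (n 1 (n 7475299 z (n 7475299
 z (n 7475299 z (n 7475299 z (n 7475299 z (n 7475299 z z)))))) z)))))))))) (n 393 (n 1 (n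
 7741699 z (n 7614995 z (n 7614995 z (n 7614995 z (n 7614995 z (n 7614995 z z)))))) (n 0 z (n 1
 (n 7741699 z (n 7475299 z (n 7475299 z (n 7475299 z (n 7475299 z (n 7475299 z z)))))) (n 0 z (n
 1 (n 7741699 z (n 7614995 z (n 7614995 z (n 7614995 z (n 7614995 z (n 7614995 z z)))))) (n 0 z
 (n 0 z z))))))) (n 73 (n 1 (n 7614995 z (n 7614995 z (n 7614995 z (n 7614995 z (n 7614995 z (n
 7614995 z z)))))) (n 1 (n 7614995 z (n 7614995 z (n 7614995 z (n 7614995 z (n 7614995 z (n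
 7614995 z z)))))) (n 1 (n 4108 z (n 7606323 z (n 4108 z (n 4108 z (n 4108 z (n 4108 z z))))))
 (n 0 z (n 1 (n 7614995 z (n 7614995 z (n 7614995 z (n 7614995 z (n 7614995 z (n 7614995 z
 z)))))) (n 0 z (n 0 z (n 0 z z)))))))) (n 0 (n 0 z (n 1 (n 7475299 z (n 7681035 z (n 7681035 z
 (n 7681035 z (n 7681035 z (n 7681035 z z)))))) (n 0 z (n 0 z (n 1 (n 7741699 z (n 7741699 z (n
 7741699 z (n 7741699 z (n 7741699 z (n 7741699 z z)))))) (n 0 z (n 0 z (n 0 z z)))))))) (n 477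
 (n 1 (n 7741699 z (n 7606323 z (n 7606323 z (n 7606323 z (n 7606323 z (n 7606323 z z)))))) (n 1
 (n 7741699 z (n 7733787 z (n 7733787 z (n 7681035 z (n 7733787 z (n 7733787 z z)))))) (n 0 z (n
 0 z (n 0 z (n 0 z (n 0 z z))))))) z))))))) (n 0 (n 0 (n 0 z (n 0 z (n 0 z z))) (n 0 (n 0 z (n 0
 z z)) (n 0 (n 0 z z) z))) (n 0 (n 477 (n 0 (n 0 z (n 0 z (n 0 z z))) (n 0 (n 0 z (n 0 z (n 0 z
 z))) (n 0 (n 0 z (n 0 (n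
 0x1876876503810ed0ec80381f82082182082082182086082082082082085f7e07e082086181f8208208208207e08607e01001
 z z) (n 0 z z))) (n 0 (n 0 z (n 0 z (n 0 z z))) (n 0 (n 0 z (n 0 (n
 0x1765765203830a90a84038607e08208208208208208607e07e082182186082082082186181f7e081f7e08217e08a17e01001
 z z) (n 0 z z))) (n 0 (n 0 z (n 0 z (n 0 z z))) (n 0 (n 0 (n 8654899 z z) (n 0 z (n 0 z z))) (n
 0 (n 0 z (n 0 z (n 0 z z))) (n 0 (n 0 z (n 0 z (n 0 (n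
 0x1876876503830ed0ec80381f82082082082082182086082082082082085f8207e082086081f8208208208207e08608201001
 z z) z))) z))))))))) (n 477 (n 0 (n 0 z (n 0 z (n 0 z z))) (n 0 (n 0 z (n 0 z (n 0 z z))) (n 0
 (n 0 z (n 0 z (n 0 z z))) (n 0 (n 0 z (n 0 z (n 0 z z))) (n 0 (n 0 (n 8663571 z (n 8663571 z
 z)) (n 0 z (n 0 z z))) (n 0 (n 0 z (n 0 z (n 0 z z))) (n 0 (n 0 z (n 0 z (n 0 z z))) (n 0 (n 0
 z (n 0 z (n 0 z z))) (n 0 (n 0 z (n 0 z (n 0 z z))) (n 0 (n 0 z (n 0 z (n 0 z z))) (n 0 (n 0 z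
 (n 0 z (n 0 z z))) (n 0 (n 0 z (n 0 z (n 0 z z))) (n 0 (n 0 z (n 0 (n 8663571 z z) (n 0 (n
 8663571 z z) z))) (n 0 (n 0 (n 8663571 z z) (n 0 z (n 0 z z))) (n 0 (n 0 (n
 0x1876874501830ed0ea80781f8608208208208607e08617e07e18208218608208608218207e07e08208208207df8607e01001
 z z) (n 0 z (n 0 z z))) (n 0 (n 0 z (n 0 z (n 0 z z))) (n 0 (n 0 (n 8521035 z (n 8521035 z z))
 (n 0 (n 8521035 z (n 8734523 z z)) (n 0 z z))) (n 0 (n 0 z (n 0 z (n 0 z z))) (n 0 (n 0 z (n 0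
 z (n 0 z z))) (n 0 (n 0 z (n 0 z (n 0 z z))) (n 0 (n 0 z (n 0 z (n 0 z z))) (n 0 (n 0 z (n 0 z
 (n 0 z z))) (n 0 (n 0 z (n 0 z (n 0 z z))) (n 0 (n 0 z (n 0 z (n 0 z z))) (n 0 (n 0 (n 8726299
 z z) (n 0 (n
 0x43b43b281c086576540382ecb0a48038608618207df8208208208218207e18207e18607e07e082182082082081f8208217e08608201801
 z z) (n 0 z z))) (n 0 (n 0 z (n 0 z (n 0 (n 8654899 z (n 8654899 z z)) z))) (n 0 (n 0 (n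
 8654899 z (n 8654899 z z)) (n 0 (n 8654899 z (n 8654899 z z)) (n 0 (n 8654899 z (n 8654899 z
 z)) z))) (n 0 (n 0 (n
 0x10ed0eca038607a08208207e08218208208208208218208608208208218608208208208208217e086081f0801 z
 (n 0x21da1d90060000030ed0ea8071021 z z)) (n 0 (n
 0x1876876403830cb0ca8038608208607e07e086081f8207e07e18218218608208208208208207e081f7e08207e08607e01001
 z (n 8734523 z z)) (n 0 (n
 0x10cb0ca803021da1c500e043b430a01c0875874103810eaea820781f8208208218208207df8207e07e07e17e18608208208208617df7e081f7e17e17e08a17e12801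
 z (n
 0x30ed0eca0381f7e08208217e08217e086181f8208218208608208208208a17de7e081f7e28207e08617e00801 z
 z)) z))) (n 0 (n 0 z (n 0 z (n 0 z z))) (n 0 (n 0 z (n 0 z (n 0 z z))) (n 0 (n 0 z (n 0 z (n 0
 z z))) (n 0 (n 0 z (n 0 (n 8859971 z z) (n 0 z z))) (n 0 (n 0 (n
 0x10ed0c8a038208208208208208208208208208218208208208208208208208208208208208208208208600801 z
 (n 0x30ed0c8a0381f86082082082081f8208208208218208208208208208208208208208208208208208208200801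
 z z)) (n 0 (n 8859971 z (n 8859971 z z)) (n 0 z z))) (n 0 (n 0 z (n 0 z (n 0 z z))) (n 0 (n 0 z
 (n 0 (n 8859971 z z) (n 0 (n
 0x10ed0eca0300000187687450180000043b438a80c0000021da1d900e0000010ececa8072821 z z) z))) (n 0 (n
 0 z (n 0 (n 8859971 z z) (n 0 z z))) (n 0 (n 0 z (n 0 z (n 0 z z))) (n 0 (n 0 z (n 0 z (n 0 z
 z))) (n 0 (n 0 z (n 0 z (n 0 (n
 0x3485385d8228a07a08608df86082089e85f8e186082075f76572291f8617e385f8637a385c9237220041 z z)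
 z))) (n 0 (n 0 z (n 0 z (n 0 z z))) (n 0 (n 0 z (n 0 (n 0x10ed0c8a070821 z z) (n 0 z z))) (n 0
 (n 0 (n 8654899 z (n 8654899 z z)) (n 0 z (n 0 (n 8654899 z (n 8654899 z z)) z))) (n 0 (n 0 z
 (n 0 z (n 0 (n
 0x2c8758608208228217df82086082385985f8df8618e27d98677e085f8e37a38998618e579c9658220041 z (n
 8783675 z z)) z))) (n 0 (n 0 (n
 0x194e109c0e043ac39b00c1876875403830eb0ca803061da18d00e0bb1c39201c0865861403810a4ca280381f8608208208208207e08608208218208208618608608218617df7e081f8218207df8207df4001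
 z (n
 0x43ac3aa00c0876865403850ed0e680781f8208208208208207e08607e07e082182086082082082182181f7e082082182081f8607e01801
 z z)) (n 0 (n 8734523 z (n
 0x1287581f8618207e07e085f8208208218208228208608208208208208208207e17e082081f81f81f0041 z z)) (n
 0 (n
 0x432c31a00c0865751403810eb0e820781f8208207e07e08207df8607e07e18217e18608608208218617df7df81f7e18227e08a17e11801
 z (n 8783675 z z)) z))) (n 0 (n 0 (n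
 0x30e90e6c030a1da1d500e043b432a01c187686340382ec70e48078608208208208208608208207e07e18208208608208208208208208208208208208208207e02801
 z (n 7750019 z z)) (n 0 z (n 0 (n
 0x10c90a2e030594e101c06043aba8a01c0865751403810a4ca28038208208607e08218608208607e07a18207e18608208218218218208208207e08208208207e02801
 z (n 8783675 z z)) z))) (n 0 (n 0 (n
 0x21d9d91406043ac32a00c086586340180ec70e48077e082085f81f82086086186085e8228638617e281f86479f85f7de7df82182182281f8a27222001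
 z (n
 0x10eb0ea803021da19500e043ac32a00c187687340382ec70e48078208208208208208208208208207e08208208208208208208208207e082082081f7e08207e02801
 z z)) (n 0 z (n 0 z z))) z)))))))))))))))))))))))))))))))))))))))))))))) (n 461 (n 0 (n 0 z (n
 0 z (n 0 z z))) (n 0 (n 0 z (n 0 z (n 0 z z))) (n 0 (n 0 z (n 0 z (n 0 z z))) (n 0 (n 0 z (n 0
 (n
 0x61da1d940e043b43b200c0876865403810eb0ca80385f8218208208208217df8208207e08218208608207e08218a181f7e081f8208617e18617e02001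
 z z) (n 0 z z))) (n 0 (n 0 z (n 0 z (n 0 z z))) (n 0 (n 0 z (n 0 z (n 0 z z))) (n 0 (n 0 z (n 0
 z (n 0 z z))) (n 0 (n 0 z (n 0 z (n 0 z z))) (n 0 (n 0 z (n 0 z (n 0 z z))) (n 0 (n 0 (n
 7669835 z z) (n 0 z (n 0 z z))) (n 0 (n 0 z (n 0 (n
 0x3aa439301c0876863403810cb0c680301d95d5080603aa3a1900c076575020380ec6ea04038608208208208208218208208208208218208608208208218618208208208208207e08608203801
 z z) (n 0 z z))) (n 0 (n 0 z (n 0 z (n 0 z z))) (n 0 (n 0 (n 8654899 z z) (n 0 z (n 0 z z)))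
 z))))))))))))) (n 393 (n 0 (n 0 z (n 0 z (n 0 z z))) (n 0 (n 0 z (n 0 z (n 0 z z))) (n 0 (n 0 z
 (n 0 z (n 0 z z))) (n 0 (n 0 z (n 0 (n
 0x1876876503810ed0ec80381f82082182082082182086082082082082085f7e07e082086181f8208208208207e08607e01001
 z z) (n 0 z z))) (n 0 (n 0 z (n 0 z (n 0 z z))) (n 0 (n 0 z (n 0 z (n 0 z z))) (n 0 (n 0 z (n 0
 z (n 0 z z))) z))))))) (n 57 (n 0 (n 0 z (n 0 z (n 0 z z))) (n 0 (n 0 (n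
 0x1876876503810ed0ec80381f82082182082082182086082082082082085f7e07e082086181f8208208208207e08607e01001
 z z) (n 0 z (n 0 z z))) (n 0 (n 0 z (n 0 z (n 0 z z))) (n 0 (n 0 z (n 0 z (n 0 z z))) (n 0 (n 0
 z (n 0 z (n 0 z z))) (n 0 (n 0 z (n 0 z (n 0 z z))) (n 0 (n 0 z (n 0 z (n 0 z z))) (n 0 (n 0 z
 (n 0 z (n 0 z z))) (n 0 (n 0 (n
 0x1c8628208208628217df89f85f82185b85f89f8218637dc82581f85f8627a385c8218a381e8e38210041 z z) (n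
 0 z (n 0 z z))) (n 0 (n 0 z (n 0 z (n 0 z z))) (n 0 (n 0 z (n 0 z (n 0 z z))) (n 0 (n 0 z (n 0
 z (n 0 z z))) (n 0 (n 0 z (n 0 (n 8729611 z z) (n 0 z z))) (n 0 (n 0 z (n 0 z (n 0 z z))) (n 0
 (n 0 z (n 0 z (n 0 z z))) (n 0 (n 0 z (n 0 z (n 0 z z))) (n 0 (n 0 (n
 0x21da1d14060000010eb0e48071021 z z) (n 0 z (n 0 z z))) z))))))))))))))))) (n 129 (n 0 (n 0 z
 (n 0 z (n 0 z z))) (n 0 (n 0 z (n 0 z (n 0 z z))) (n 0 (n 0 z (n 0 z (n 0 z z))) (n 0 (n 0 z (n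
 0 z (n 0 z z))) (n 0 (n 0 z (n 0 z (n 0 z z))) (n 0 (n 0 (n 8794379 z z) (n 0 (n 8794379 z z)
 (n 0 z z))) (n 0 (n 0 (n
 0x21d61d180e043b43b201c1875765401810caeca80301d9614900e0c313a8a01c0852751403830a8ea80038218208608207e08218608218218208208208608207e08208208208207df8208208208208214001
 z (n
 0x10ed0ec803021da1d500e0432bb2a01c2865871403810ecea08078608208208208208607e08207e07e082182185f86082082186181f7e081f7e18207e08607e02801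
 z z)) (n 0 (n
 0x30c4a80e070575487260380c39aa0301c36189041406090ed0ca8070576583240180c3b428200c0e19614100e030a4e208070076574020382bb1aa0101c0619219000e010e90a80035763918f9c456e817fa2937b8ea6957b90ad6b8e94d0815a7e7492b03999546ba4852f188c5546db7e824c9cc6978a50278f6809
 z (n 0x1287581f8618207e07e085f8208208218208228208608208208208208208207e17e082081f81f81f0041 z
 z)) (n 0 z z))) (n 0 (n 0 (n
 0x10eb0e8c07061da1d940e04293a8a00c0751850401830c90c82038208208208208208208208218208208208208608208208208608208208208208208208208202801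
 z (n
 0x4213b0a81c1876876401810ed0ea80701d95d490060429328a01c1865870403850e6ec08070218614100e0c293a8201c165474320180e86e8640789e8218217e18208df79f86175f7227e17a189f85f7e18228a179e79f81f7e181f7618a17e15801
 z z)) (n 0 z (n 0 z z))) (n 0 (n 0 z (n 0 z (n 0 z z))) (n 0 (n 0 (n 8794379 z z) (n 0 (n
 8859971 z z) (n 0 z z))) (n 0 (n 0 (n 7669835 z z) (n 0 z (n 0 z z))) (n 0 (n 0 z (n 0 z (n 0 z
 z))) (n 0 (n 0 z (n 0 z (n 0 z z))) (n 0 (n 0 z (n 0 (n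
 0x1876876503830ed0ec80381f82082082082082182086082082082082085f8207e082086081f8208208208207e08608201001
 z z) (n 0 z z))) (n 0 (n 0 z (n 0 z (n 0 z z))) (n 0 (n 0 z (n 0 z (n 0 z z))) (n 0 (n 0 (n
 8525323 z (n 8525323 z z)) (n 0 (n 8859971 z (n 8859971 z z)) (n 0 z z))) (n 0 (n 0 z (n 0 z (n
 0 z z))) (n 0 (n 0 z (n 0 z (n 0 z z))) (n 0 (n 0 (n
 0x1876864501810e90e80078208208208208208208608208208208208208608208208208208208208208208208208208201001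
 z (n
 0x1876864501810e90e800782086082081f82181f82082082082181f8208208208208208208218208208208208208208201001
 z z)) (n 0 (n 8859971 z (n 8859971 z z)) (n 0 z z))) (n 0 (n 0 (n 8525323 z (n 8525323 z z)) (n
 0 z (n 0 z z))) (n 0 (n 0 z (n 0 z (n 0 z z))) (n 0 (n 0 z (n 0 z (n 0 z z))) (n 0 (n 0 z (n 0
 z (n 0 z z))) (n 0 (n 0 z (n 0 z (n 0 z z))) (n 0 (n 0 z (n 0 z (n 0 z z))) (n 0 (n 0 z (n 0 z
 (n 0 z z))) (n 0 (n 0 z (n 0 z (n 0 z z))) (n 0 (n 0 z (n 0 z (n 0 z z))) (n 0 (n 0 z (n 0 z (n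
 0 z z))) (n 0 (n 0 z (n 0 z (n 0 (n 8790275 z z) z))) (n 0 (n 0 z (n 0 z (n 0 (n 8663571 z z)
 z))) (n 0 (n 0 z (n 0 z (n 0 z z))) (n 0 (n 0 z (n 0 z (n 0 z z))) (n 0 (n 0 z (n 0 (n 8794379
 z (n 8794379 z z)) (n 0 z z))) z))))))))))))))))))))))))))))))))))) (n 513 (n 0 (n 0 z (n 0 z
 (n 0 z z))) (n 0 (n 0 z (n 0 z (n 0 (n
 0x43b43b281c0864762501810ed0e2a0701d95d4500e03b2b98201c0875875103810caca420785f7e18617e082082181f8608207e07e17e185f7e07a08618a182082081f8608207a08607e03801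
 z z) z))) (n 0 (n 0 (n 8654899 z (n 8654899 z z)) (n 0 z (n 0 (n 8654899 z (n 8654899 z z))
 z))) (n 0 (n 0 z (n 0 z (n 0 z z))) (n 0 (n 0 z (n 0 z (n 0 z z))) (n 0 (n 0 z (n 0 z (n 0 z
 z))) (n 0 (n 0 z (n 0 z (n 0 z z))) (n 0 (n 0 z (n 0 z (n 0 z z))) (n 0 (n 0 z (n 0 z (n 0 z
 z))) (n 0 (n 0 z (n 0 z (n 0 z z))) (n 0 (n 0 z (n 0 (n
 0x876872501810c8ec4a070618a1c54060432390a80c0875875201810caea240782082086082082081f8208208208208208208208608608208208208208218208208208208203001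
 z z) (n 0 z z))) (n 0 (n 0 z (n 0 z (n 0 z z))) (n 0 (n 0 z (n 0 z (n 0 (n 8523875 z z) z))) (n
 0 (n 0 z (n 0 z (n 0 (n 8663571 z z) z))) (n 0 (n 0 z (n 0 z (n 0 z z))) (n 0 (n 0 (n
 0x1282181f8618207e07e085f8208208218208228208608208208208208208207e17e082081f81f81f0041 z (n
 8726299 z z)) (n 0 z (n 0 (n
 0x1282185f8618207e07df81f8207e18218208218208608208208608208217e07e17e17e182081f7df0041 z (n
 0x1282181f8618207e07e085f8208208218208228208608208208208208208207e17e082081f81f81f0041 z z))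
 z))) z)))))))))))))))) (n 81 (n 0 (n 0 (n
 0x187687650382ea8ea840381f8208608218208218208608208208208208607e07e08208617df7e081f8218217e08617e01001
 z z) (n 0 z (n 0 z z))) (n 0 (n 0 (n 8654899 z z) (n 0 z (n 0 z z))) (n 0 (n 0 z (n 0 z (n 0 z
 z))) (n 0 (n 0 z (n 0 z (n 0 z z))) (n 0 (n 0 z (n 0 z (n 0 z z))) (n 0 (n 0 z (n 0 z (n 0 z
 z))) (n 0 (n 0 z (n 0 z (n 0 z z))) (n 0 (n 0 z (n 0 z (n 0 z z))) (n 0 (n 0 z (n 0 (n 8525323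
 z z) (n 0 z z))) (n 0 (n 0 z (n 0 z (n 0 z z))) z)))))))))) (n 15 (n 0 (n 0 z (n 0 z (n 0 z
 z))) (n 0 (n 0 z (n 0 z (n 0 z z))) (n 0 (n 0 z (n 0 z (n 0 z z))) (n 0 (n 0 z (n 0 z (n 0 z
 z))) (n 0 (n 0 z (n 0 z (n 0 z z))) (n 0 (n 0 z (n 0 z (n 0 z z))) (n 0 (n 0 z (n 0 z (n 0 z
 z))) (n 0 (n 0 z (n 0 z (n 0 z z))) (n 0 (n 0 z (n 0 (n
 0x187687650182ecaeca4078208208608218208208208208208208208208208208208208208208208208208208208208201001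
 z z) (n 0 z z))) (n 0 (n 0 z (n 0 z (n 0 z z))) z)))))))))) (n 73 (n 0 (n 0 z (n 0 z (n 0 z
 z))) (n 0 (n 0 z (n 0 z (n 0 z z))) (n 0 (n 0 z (n 0 z (n 0 z z))) (n 0 (n 0 z (n 0 z (n 0 z
 z))) (n 0 (n 0 z (n 0 z (n 0 z z))) (n 0 (n 0 (n
 0x1876876501830eb0ea4078608208607e07e086081f8207e07e18218218608208208208208207e081f7e08207e08607e01001
 z z) (n 0 z (n 0 z z))) (n 0 (n 0 z (n 0 z (n 0 z z))) (n 0 (n 0 z (n 0 z (n 0 z z))) z))))))))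
 (n 633 (n 0 (n 0 z (n 0 z (n 0 z z))) (n 0 (n 0 z (n 0 (n 8859971 z z) (n 0 z z))) (n 0 (n 0 z
 (n 0 z (n 0 z z))) (n 0 (n 0 z (n 0 z (n 0 z z))) (n 0 (n 0 z (n 0 z (n 0 z z))) (n 0 (n 0 (n
 8654899 z (n 8654899 z z)) (n 0 (n 8654899 z (n 8654899 z z)) (n 0 z z))) (n 0 (n 0 z (n 0 z (n
 0 z z))) (n 0 (n 0 z (n 0 z (n 0 z z))) (n 0 (n 0 z (n 0 z (n 0 z z))) (n 0 (n 0 (n 8717867 z
 (n 8717867 z z)) (n 0 (n 8717867 z (n 8717867 z z)) (n 0 z z))) z)))))))))) (n 105 (n 0 (n 0 z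
 (n 0 z (n 0 z z))) (n 0 (n 0 (n
 0x875743601810eae80c03021da1d9006043abb1a01c0876872401810ed0ec60782085f8208618208217e082081f8207e08208608208208208a07df7e08208208217e08208203001
 z z) (n 0 z (n 0 z z))) (n 0 (n 0 z (n 0 z (n 0 z z))) (n 0 (n 0 z (n 0 z (n 0 z z))) (n 0 (n 0
 z (n 0 (n
 0x431c39201c1876872303830e90864078208608208208208208208208208208208208208208208208208208208208208208208208201801
 z (n 0x863872403800000c3a43a100c0000021ce1cc80e0000010e90864072021 z z)) (n 0 z z))) (n 0 (n 0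
 z (n 0 (n 8654899 z z) (n 0 z z))) (n 0 (n 0 (n 8783675 z z) (n 0 z (n 0 z z))) (n 0 (n 0 z (n
 0 (n 8729611 z z) (n 0 z z))) (n 0 (n 0 z (n 0 z (n 0 z z))) (n 0 (n 0 z (n 0 z (n 0 (n 8523875
 z z) z))) (n 0 (n 0 z (n 0 z (n 0 z z))) (n 0 (n 0 z (n 0 z (n 0 (n 8717867 z (n 8717867 z z))
 z))) (n 0 (n 0 (n 0x43a43a181c0000061d210c80e0000010870864031821 z (n 7743547 z z)) (n 0 z (n 0
 z z))) z))))))))))))) (n 141 (n 0 (n 0 z (n 0 z (n 0 z z))) (n 0 (n 0 z (n 0 z (n 0 z z))) (n 0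
 (n 0 z (n 0 z (n 0 z z))) (n 0 (n 0 z (n 0 z (n 0 z z))) (n 0 (n 0 z (n 0 (n 8859971 z z) (n 0
 z z))) (n 0 (n 0 (n 0x61d21cd8060000010e70e08071021 z z) (n 0 (n 8859971 z z) (n 0 z z))) (n 0
 (n 0 z (n 0 (n 8859971 z z) (n 0 z z))) (n 0 (n 0 (n 8525323 z (n 8525323 z z)) (n 0 (n 8859971
 z (n 8859971 z z)) (n 0 z z))) (n 0 (n 0 (n 8525323 z (n 8525323 z z)) (n 0 (n 8859971 z (n
 8859971 z z)) (n 0 z z))) (n 0 (n 0 (n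
 0x1876864301810e90e80078208208208208208208608208208208208208608208208208208208208208208208208208201001
 z (n 0x10eae86c070821 z z)) (n 0 (n 8859971 z (n 8859971 z z)) (n 0 z z))) (n 0 (n 0 z (n 0 z
 (n 0 z z))) (n 0 (n 0 z (n 0 z (n 0 z z))) (n 0 (n 0 (n 8525323 z (n 8525323 z z)) (n 0 (n
 8525323 z (n 8525323 z z)) (n 0 z z))) (n 0 (n 0 (n 7751771 z (n 0x10e90e6c030821 z z)) (n 0 (n
 0x3876863403830ed0ec6078208608208208208208208208208208208208208208208208208208208208208208208208201001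
 z (n
 0x3876863403830ed0ec6078208608208208208218208208208208208208207e08208208208208208208208208208208201001
 z z)) (n 0 (n
 0x1876864301810e90e80078208608208208208208208208208208208208608208208208208208208208208208208208201001
 z (n
 0x1876864301810e90e800782086082081f82081f8208208208218208208608208208208208208208208208208208208201001
 z z)) z))) (n 0 (n 0 (n 6559835 z (n 6559835 z z)) (n 0 z (n 0 z z))) (n 0 (n 0 z (n 0 (n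
 8525323 z (n 8525323 z z)) (n 0 z z))) (n 0 (n 0 z (n 0 z (n 0 z z))) (n 0 (n 0 z (n 0 (n
 0x3876863403830ed0ec6078208608208208208208208208208208208208607e07e08208208208208208208208208208201001
 z (n
 0x10ed0ec80382082082082081f8218208208208208208208208608208208a081f8208208208208208208200801 z
 z)) (n 0 z z))) (n 0 (n 0 z (n 0 z (n 0 z z))) (n 0 (n 0 z (n 0 z (n 0 z z))) (n 0 (n 0 (n
 8783675 z z) (n 0 z (n 0 z z))) (n 0 (n 0 z (n 0 z (n 0 z z))) (n 0 (n 0 z (n 0 (n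
 0x1863840703830ed0ec803021da18d00e043b43a181c187686430180ca8ca84078218208208608208228208608208208208208208207e082086081f8207df8208208208208203001
 z z) (n 0 z z))) (n 0 (n 0 (n
 0x1643850701810ed0ec80701d8e14900e0432432180c0864841303810e90c80038608208208208208217e086082082082082082082082082086181f7e081f8218207e08608203001
 z (n 8783675 z z)) (n 0 z (n 0 z z))) (n 0 (n 0 z (n 0 z (n 0 z z))) (n 0 (n 0 z (n 0 z (n 0 z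
 z))) z)))))))))))))))))))))))))) (n 97 (n 0 (n 0 z (n 0 z (n 0 z z))) (n 0 (n 0 (n
 0x432a10381c0875740601830ed0ec80301d95d9500e0c3b439200c0743743203810e50e400785f8208208628608617e08607df8207df7e08608207e08208607de7e08208208207e08608213801
 z z) (n 0 z (n 0 z z))) (n 0 (n 0 z (n 0 z (n 0 z z))) (n 0 (n 0 z (n 0 z (n 0 z z))) (n 0 (n 0
 (n 8729611 z z) (n 0 z (n 0 z z))) (n 0 (n 0 z (n 0 z (n 0 z z))) (n 0 (n 0 z (n 0 z (n 0 z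
 z))) (n 0 (n 0 z (n 0 z (n 0 z z))) (n 0 (n 0 (n 6563963 z z) (n 0 z (n 0 z z))) (n 0 (n 0 z (n
 0 z (n 0 z z))) z)))))))))) (n 96 (n 0 (n 0 z (n 0 z (n 0 z z))) (n 0 (n 0 z (n 0 z (n 0 z z)))
 (n 0 (n 0 z (n 0 z (n 0 z z))) (n 0 (n 0 z (n 0 z (n 0 z z))) (n 0 (n 0 z (n 0 z (n 0 z z))) (n
 0 (n 0 z (n 0 z (n 0 z z))) (n 0 (n 0 z (n 0 (n 8663571 z z) (n 0 z z))) (n 0 (n 0 z (n 0 z (n
 0 z z))) (n 0 (n 0 z (n 0 (n 0x10a8e624030821 z (n 8734523 z z)) (n 0 z z))) (n 0 (n 0 z (n 0 z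
 (n 0 z z))) (n 0 (n 0 z (n 0 z (n 0 z z))) (n 0 (n 0 z (n 0 z (n 0 z z))) (n 0 (n 0 (n 8783675
 z z) (n 0 z (n 0 z z))) (n 0 (n 0 z (n 0 z (n 0 z z))) z)))))))))))))) (n 477 (n 0 (n 0 z (n 0
 z (n 0 z z))) (n 0 (n 0 z (n 0 z (n 0 z z))) (n 0 (n 0 z (n 0 z (n 0 z z))) (n 0 (n 0 z (n 0 z
 (n 0 z z))) (n 0 (n 0 z (n 0 z (n 0 z z))) (n 0 (n 0 (n 8654899 z z) (n 0 z (n 0 z z))) (n 0 (n
 0 (n 8782363 z (n 8782363 z z)) (n 0 z (n 0 z z))) z))))))) (n 461 (n 0 (n 0 z (n 0 z (n 0 z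
 z))) (n 0 (n 0 z (n 0 z (n 0 z z))) (n 0 (n 0 z (n 0 z (n 0 z z))) (n 0 (n 0 z (n 0 z (n 0 z
 z))) (n 0 (n 0 z (n 0 z (n 0 z z))) (n 0 (n 0 z (n 0 z (n 0 z z))) (n 0 (n 0 z (n 0 z (n 0 z
 z))) (n 0 (n 0 z (n 0 z (n 0 z z))) (n 0 (n 0 z (n 0 z (n 0 z z))) (n 0 (n 0 z (n 0 z (n 0 z
 z))) (n 0 (n 0 z (n 0 z (n 0 z z))) (n 0 (n 0 (n 8654899 z z) (n 0 z (n 0 z z))) z))))))))))))
 (n 129 (n 0 (n 0 (n 8521035 z z) (n 0 z (n 0 z z))) (n 0 (n 0 (n 7669835 z z) (n 0 z (n 0 z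
 z))) (n 0 (n 0 (n
 0x43a438280c0871840503830ecea08038208608207e082081f8208208208208208208208208208208208208208208208208208208201801
 z z) (n 0 z (n 0 z z))) (n 0 (n 0 z (n 0 z (n 0 z z))) (n 0 (n 0 z (n 0 (n
 0xc32ba8200c085275040380ea8ea840781f8208208208218608208208207e08208208607e07e08218618208208207e08207e08608201801
 z z) (n 0 z z))) (n 0 (n 0 z (n 0 z (n 0 z z))) (n 0 (n 0 z (n 0 z (n 0 z z))) (n 0 (n 0 z (n 0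
 z (n 0 z z))) (n 0 (n 0 z (n 0 (n 8859971 z z) (n 0 z z))) (n 0 (n 0 z (n 0 (n 8859971 z z) (n
 0 z z))) (n 0 (n 0 z (n 0 z (n 0 z z))) (n 0 (n 0 z (n 0 z (n 0 z z))) (n 0 (n 0 z (n 0 (n
 7682091 z z) (n 0 z z))) (n 0 (n 0 z (n 0 z (n 0 z z))) (n 0 (n 0 z (n 0 z (n 0 z z))) (n 0 (n
 0 z (n 0 z (n 0 z z))) (n 0 (n 0 z (n 0 z (n 0 z z))) (n 0 (n 0 z (n 0 (n 8859971 z z) (n 0 z
 z))) (n 0 (n 0 (n 0x10a4ea08030821 z (n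
 0x30eb0a800381f8608208208208208208208208218208208208208208208208208208208208208208208200801 z
 z)) (n 0 (n 8859971 z (n 8859971 z z)) (n 0 z z))) (n 0 (n 0 (n
 0xc3aba8201c0000021d61500060000010a90a80031821 z z) (n 0 z (n 0 z z))) (n 0 (n 0 z (n 0 z (n 0
 z z))) (n 0 (n 0 z (n 0 z (n 0 z z))) (n 0 (n 0 z (n 0 z (n 0 z z))) (n 0 (n 0 (n 8790275 z z)
 (n 0 z (n 0 z z))) (n 0 (n 0 z (n 0 z (n 0 z z))) (n 0 (n 0 z (n 0 z (n 0 z z))) (n 0 (n 0 (n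
 8794379 z z) (n 0 z (n 0 z z))) (n 0 (n 0 z (n 0 z (n 0 z z))) (n 0 (n 0 (n 8790275 z (n
 8790275 z z)) (n 0 z (n 0 z z))) z))))))))))))))))))))))))))))) (n 3 (n 0 (n 0 z (n 0 z (n 0 z
 z))) (n 0 (n 0 z (n 0 z (n 0 z z))) (n 0 (n 0 z (n 0 z (n 0 z z))) (n 0 (n 0 (n
 0x1284181f8618207e07e085f8208208218208228208608208208208208208207e17e082081f81f81f0041 z z) (n
 0 z (n 0 z z))) (n 0 (n 0 z (n 0 z (n 0 z z))) (n 0 (n 0 z (n 0 z (n 0 z z))) (n 0 (n 0 z (n 0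
 z (n 0 z z))) (n 0 (n 0 z (n 0 z (n 0 z z))) (n 0 (n 0 z (n 0 z (n 0 z z))) (n 0 (n 0 z (n 0 z
 (n 0 z z))) (n 0 (n 0 z (n 0 z (n 0 z z))) (n 0 (n 0 (n
 0x30850e0a078208608208208208208208208208218208208208208208208208208208208208208208208200801 z
 (n
 0x842871503830850e0a078208208208208208208208208208218208208608208208208208208208208208208208208201001
 z z)) (n 0 (n 8859971 z (n 8859971 z z)) (n 0 (n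
 0x30e5080a078208608208208208208208208208218208208208208208208208208208208208208208208200801 z
 (n 0x30e2e80a078208208208208208208208208218208208208208208208208208208208208208208208208200801
 z z)) z))) (n 0 (n 0 z (n 0 (n 8663571 z z) (n 0 z z))) (n 0 (n 0 z (n 0 z (n 0 z z))) (n 0 (n
 0 z (n 0 (n 8729611 z z) (n 0 z z))) (n 0 (n 0 z (n 0 (n 8729611 z z) (n 0 z z)))
 z)))))))))))))))) (n 1 (n 0 (n 0 (n 8794379 z z) (n 0 z (n 0 z z))) (n 0 (n 0 z (n 0 z (n 0 z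
 z))) (n 0 (n 0 (n 8654899 z z) (n 0 z (n 0 z z))) (n 0 (n 0 (n 8654899 z z) (n 0 z (n 0 z z)))
 (n 0 (n 0 z (n 0 z (n 0 z z))) (n 0 (n 0 z (n 0 z (n 0 z z))) (n 0 (n 0 z (n 0 z (n 0 z z))) (n
 0 (n 0 (n 8726299 z z) (n 0 z (n 0 z z))) (n 0 (n 0 z (n 0 z (n 0 z z))) (n 0 (n 0 z (n 0 (n
 0x10a70a640782086082082082081f8208208208208208208207e08208207a07e08208208208608208608600801 z
 z) (n 0 (n 7669835 z z) z))) (n 0 (n 0 (n 8726299 z z) (n 0 z (n 0 z z))) (n 0 (n 0 z (n 0 z (n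
 0 z z))) (n 0 (n 0 z (n 0 z (n 0 z z))) (n 0 (n 0 z (n 0 z (n 0 z z))) (n 0 (n 0 z (n 0 z (n 0
 z z))) (n 0 (n 0 (n
 0x30e70e640381f7e08208217e08217e082182081f8218208608207e082086081f82182082082082082081f0801 z
 (n 0x30e70e64038208208208217df8217e08208208208208218608208208208607df82081f8208207e08618200801
 z z)) (n 0 z (n 0 z z))) (n 0 (n 0 (n 8663571 z z) (n 0 z (n 0 z z))) (n 0 (n 0 z (n 0 z (n 0 z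
 z))) z)))))))))))))))))) (n 0 (n 0 (n 0 z (n 0 z (n 0 z z))) (n 0 (n 0 z (n 0 z (n 0 z z))) (n
 0 (n 0 z (n 0 z (n 0 z z))) (n 0 (n 0 (n
 0x30e708640782086082082082182082082082082081f8208208208208208208208208208608208208208200801 z
 (n
 0x873873201830e708640782082082082082082182082082082082082082082082082086081f82082082082082082081f1001
 z z)) (n 0 (n
 0x439c39901c0874843203870a8e864078208208208208208208208208208208208208208208208208208208208218208208208208201801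
 z (n 0xc3a43a100c0000021ce1cc80e0000010e90864071821 z z)) (n 0 (n
 0x1287081f8618207e07e085f8208208218208228208608208208208208208207e17e082081f81f81f0041 z (n
 0x30cae648078608208208208208208208208207e18208208608208208218218207e081f8208207e08617e00801 z
 z)) z))) (n 0 (n 0 z (n 0 z (n 0 z z))) (n 0 (n 0 z (n 0 (n 8729611 z z) (n 0 z z))) (n 0 (n 0
 z (n 0 z (n 0 z z))) (n 0 (n 0 z (n 0 (n
 0x2e4286100302195c8500603b2bb2901c076565420380ea8ca8403021ce1cc806043a421901c0875743203810e30804078208208208208208208208608208218208208608208208218608608208208208228208608204801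
 z z) (n 0 z z))) z)))))))) z))))))))))))))))))))) z)))) z) z)))) (n
 0x195268b51341c75ac2a4c611aa106e71942a4ca211 (n 0 (n 327 (n 0 z (n 0 z (n 0 z (n 0 z (n 0 z (n
 3282443 z (n 0 z z))))))) (n 315 (n 0 z (n 2 z (n 6562131 z z))) (n 9 (n 0 z (n 0 z (n 0 z (n 0
 z (n 0 z (n 10 z (n 0 z (n 0 z (n 0 z (n 0 z (n 0 z (n 0 z (n 6562131 z z))))))))))))) (n 3 (n
 0 z (n 6631963 z (n 0 z (n 0 z z)))) (n 7 (n 18 z (n 0 z (n 26 z (n 34 z (n 6562131 z (n 0 z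
 z)))))) (n 0 (n 0 z (n 42 z (n 0 z (n 50 z (n 0 z (n 6631963 z (n 58 z z))))))) z)))))) (n 315
 (n 0 (n 391 (n 0 z (n 0 z (n 0 z (n 0 z (n 0 z (n 0 z (n 0 z (n 0 z (n 0 z (n 0 z (n 0 z (n 0 z
 (n 0 z (n 0 z (n 0 z (n 0 z (n 0 z z))))))))))))))))) (n 291 (n 0 z (n 0 z (n 0 z (n 0 z (n 0 z
 (n 0 z (n 0 z (n 0 z z)))))))) (n 291 (n 0 z (n 0 z (n 0 z (n 0 z (n 0 z (n 0 z (n 0 z (n 0 z
 z)))))))) (n 291 (n 0 z (n 0 z (n 0 z (n 0 z (n 0 z (n 0 z (n 0 z (n 0 z z)))))))) (n 313 (n 0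
 z (n 0 z (n 0 z (n 0 z (n 0 z z))))) (n 313 (n 0 z (n 0 z (n 0 z (n 0 z (n 0 z z))))) (n 313 (n
 0 z (n 0 z (n 0 z (n 0 z (n 0 z z))))) z))))))) (n 0 (n 937 (n 0 z (n 0 z (n 0 z (n 0 z (n 0 z
 (n 0 z (n 0 z (n 0 z (n 0 z (n 0 z (n 0 z (n 0 z (n 0 z (n 0 z (n 0 z (n 0 z (n 2 (n 0 z (n 0 z
 (n 1 z (n 2 (n 0 z (n 0 z (n 0 z (n 0 z (n 0 z (n 0 z z)))))) (n 2 (n 0 z (n 0 z (n 0 z (n 0 z
 (n 0 z (n 0 z z)))))) z))))) z))))))))))))))))) (n 937 (n 0 z (n 0 z (n 0 z (n 0 z (n 0 z (n 0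
 z (n 0 z (n 0 z (n 0 z (n 0 z (n 0 z (n 0 z (n 0 z (n 0 z (n 0 z (n 0 z (n 0 z
 z))))))))))))))))) (n 937 (n 0 z (n 0 z (n 0 z (n 0 z (n 0 z (n 0 z (n 0 z (n 0 z (n 0 z (n 0 z
 (n 0 z (n 0 z (n 0 z (n 0 z (n 0 z (n 0 z (n 0 z z))))))))))))))))) (n 13 (n 0 z (n 0 z (n 0 z
 (n 0 z (n 0 z (n 0 z (n 0 z (n 0 z (n 0 z (n 0 z (n 0 z (n 0 z (n 0 z (n 0 z (n 0 z (n 0 z (n 0
 z z))))))))))))))))) (n 13 (n 0 z (n 0 z (n 0 z (n 0 z (n 0 z (n 0 z (n 0 z (n 0 z (n 0 z (n 0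
 z (n 0 z (n 0 z (n 0 z (n
 0x6ea8c862037a18607a07e27a07a07a08207a289e7a289f8609208a089f82185e85e86081f86089e8e38200801 z
 (n 0 z (n 0 z (n 0 z z))))))))))))))))) (n 13 (n 0 z (n 0 z (n 0 z (n 0 z (n 0 z (n 0 z (n 0 z
 (n 0 z (n 0 z (n 0 z (n 0 z (n 0 z (n 0 z (n 0 z (n 0 z (n 0 z (n 2 z z)))))))))))))))))
 z)))))) (n 0 (n 0 z (n 0 z (n 13 (n 0 z (n 0 z (n 0 z (n 0 z (n 0 z (n 7754771 z (n 0 z
 z))))))) (n 13 (n 0 z (n 0 z (n 0 z (n 0 z (n 0 z (n 0 z (n 2 (n 0 z z) z))))))) (n 13 (n 0 z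
 (n 0 z (n 0 z (n 2 z (n 0 z (n 0 z (n 0 z z))))))) z))))) (n 0 (n 0 z (n 1061 (n 0 z (n 0 z (n
 0 z (n 0 z (n 0 z (n 0 z (n 0 z (n 0 z z)))))))) (n 1061 (n 0 z (n 0 z (n 0 z (n 0 z (n 0 z (n
 0 z (n 0 z (n 0 z z)))))))) (n 1061 (n 0 z (n 0 z (n 0 z (n 0 z (n 0 z (n 0 z (n 0 z (n 0 z
 z)))))))) z)))) (n 0 (n 149 (n 0 z (n 0 z (n 0 z (n 0 z (n 0 z (n 0 z z)))))) (n 149 (n 0 z (n
 0 z (n 0 z (n 0 z (n 0 z (n 0 z z)))))) (n 149 (n 0 z (n 0 z (n 0 z (n 0 z (n 0 z (n 0 z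
 z)))))) z))) (n 0 (n 0 z (n 0 z z)) (n 0 (n 0 z z) (n 0 z z)))))))) (n 0 (n 0 z (n 1 (n 6631963
 z (n 2620 z (n 4261419 z (n 2620 z (n 2620 z (n 2620 z z)))))) (n 1 (n 6562131 z (n 6562131 z
 (n 6562131 z (n 6562131 z (n 6562131 z (n 6562131 z z)))))) z))) (n 0 z z)))) (n
 0x19d4a8b5a542cb5b03a9481aae20ae92262b513419 (n 0 (n 327 (n 0 z (n 0 z (n 0 z (n 0 z (n 0 z (n
 0 z (n
 0x8ca8a862037e282182089e7e182179e82185e81f85f8a17e38608a186182085b8208207e17e08a08608200801 z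
 (n 0 z (n 0 z (n 0 z (n 0 z (n 0 z (n
 0x1d64382286182082186079d8a282086081d8208a082279e8627a28a07e07a17df7a07e08a37df8600041 z (n 0 z
 (n 0 z (n 0 z (n 5510667 z (n 3282443 z (n 0 z (n 0 z (n 0 z (n 0 z z)))))))))))))))))))))) (n
 315 (n 0 z (n 2 z (n 6562131 z z))) (n 9 (n 0 z (n 0 z (n 0 z (n 0 z (n 0 z (n 0 z (n 0 z (n 0
 z (n 0 z (n 10 z (n 0 z (n 0 z (n 0 z (n 0 z (n 0 z (n 6562131 z (n 0 z z))))))))))))))))) (n 3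
 (n 0 z (n 6631963 z (n 0 z (n 0 z z)))) (n 7 (n 18 z (n 0 z (n 26 z (n 34 z (n 6562131 z (n 0 z
 z)))))) (n 0 (n 0 z (n 42 z (n 0 z (n 50 z (n 0 z (n 6631963 z (n 58 z z))))))) z)))))) (n 315
 (n 0 (n 391 (n 0 z (n 0 z (n 0 z (n 0 z (n 0 z (n 0 z (n 0 z (n 0 z (n 0 z (n 0 z (n 0 z (n 0 z
 (n 0 z (n 0 z (n 0 z (n 0 z (n 0 z (n 0 z (n 0 z (n 0 z (n 0 z (n 0 z (n 0 z (n 0 z (n 0 z (n 0
 z z)))))))))))))))))))))))))) (n 291 (n 0 z (n 0 z (n 0 z (n 0 z (n 0 z (n 0 z (n 0 z (n 0 z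
 z)))))))) (n 291 (n 0 z (n 0 z (n 0 z (n 0 z (n 0 z (n 0 z (n 0 z (n 0 z z)))))))) (n 291 (n 0
 z (n 0 z (n 0 z (n 0 z (n 0 z (n 0 z (n 0 z (n 0 z z)))))))) (n 313 (n 0 z (n 0 z (n 0 z (n 0 z
 (n 0 z (n 0 z (n 0 z (n 0 z z)))))))) (n 313 (n 0 z (n 0 z (n 0 z (n 0 z (n 0 z (n 0 z (n 0 z
 (n 0 z z)))))))) (n 313 (n 0 z (n 0 z (n 0 z (n 0 z (n 0 z (n 0 z (n 0 z (n 0 z z))))))))
 z))))))) (n 0 (n 937 (n 0 z (n 0 z (n 0 z (n 0 z (n 0 z (n 0 z (n 0 z (n 0 z (n 0 z (n 0 z (n 0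
 z (n 0 z (n 0 z (n 0 z (n 0 z (n 0 z (n 0 z (n 0 z (n 0 z (n 0 z (n 0 z (n 0 z (n 0 z (n 0 z (n
 2 (n 0 z (n 0 z (n 1 z (n 2 (n 0 z (n 0 z (n 0 z (n 0 z (n 0 z (n 0 z z)))))) (n 2 (n 0 z (n 0
 z (n 0 z (n 0 z (n 0 z (n 0 z z)))))) z))))) (n 0 z z)))))))))))))))))))))))))) (n 937 (n 0 z
 (n 0 z (n 0 z (n 0 z (n 0 z (n 0 z (n 0 z (n 0 z (n 0 z (n 0 z (n 0 z (n 0 z (n 0 z (n 0 z (n 0
 z (n 0 z (n 0 z (n 0 z (n 0 z (n 0 z (n 0 z (n 0 z (n 0 z (n 0 z (n 0 z (n 0 z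
 z)))))))))))))))))))))))))) (n 937 (n 0 z (n 0 z (n 0 z (n 0 z (n 0 z (n 0 z (n 0 z (n 0 z (n 0
 z (n 0 z (n 0 z (n 0 z (n 0 z (n 0 z (n 0 z (n 0 z (n 0 z (n 0 z (n 0 z (n 0 z (n 0 z (n 0 z (n
 0 z (n 0 z (n 0 z (n 0 z z)))))))))))))))))))))))))) (n 13 (n 0 z (n 0 z (n 0 z (n 0 z (n 0 z
 (n 0 z (n 0 z (n 0 z (n 0 z (n 0 z (n 0 z (n 0 z (n 0 z (n 0 z (n 0 z (n 0 z (n 0 z (n 0 z (n 0
 z (n 0 z (n 0 z (n 0 z (n 0 z (n 0 z (n 0 z (n 0 z z)))))))))))))))))))))))))) (n 13 (n 0 z (n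
 0 z (n 0 z (n 0 z (n 0 z (n 0 z (n 0 z (n 0 z (n 0 z (n 0 z (n 0 z (n 0 z (n 0 z (n 0 z (n 0 z
 (n 0 z (n 0 z (n 0 z (n 0 z (n 0 z (n 0 z (n 0 z (n
 0x4ea8c862037e18607e08208207e07e082082086082082082082086086082082081f8208608208608208200801 z
 (n 0 z (n 0 z (n 0 z z)))))))))))))))))))))))))) (n 13 (n 0 z (n 0 z (n 0 z (n 0 z (n 0 z (n 0
 z (n 0 z (n 0 z (n 0 z (n 0 z (n 0 z (n 0 z (n 0 z (n 0 z (n 0 z (n 0 z (n 0 z (n 0 z (n 0 z (n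
 0 z (n 0 z (n 0 z (n 0 z (n 0 z (n 2 z (n 0 z z)))))))))))))))))))))))))) z)))))) (n 0 (n 0 z
 (n 0 z (n 13 (n 0 z (n 0 z (n 0 z (n 0 z (n 0 z (n 7754771 z (n 0 z z))))))) (n 13 (n 0 z (n 0
 z (n 0 z (n 0 z (n 0 z (n 0 z (n 2 (n 0 z z) z))))))) (n 13 (n 0 z (n 0 z (n 0 z (n 2 z (n 0 z
 (n 0 z (n 0 z z))))))) z))))) (n 0 (n 0 z (n 1061 (n 0 z (n 0 z (n 0 z (n 0 z (n 0 z (n 0 z (n
 0 z z))))))) (n 1061 (n 0 z (n 0 z (n 0 z (n 0 z (n 0 z (n 0 z (n 0 z z))))))) (n 1061 (n 0 z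
 (n 0 z (n 0 z (n 0 z (n 0 z (n 0 z (n 0 z z))))))) z)))) (n 0 (n 149 (n 0 z (n 0 z (n 0 z (n 0
 z (n 0 z (n 0 z (n 0 z (n 0 z (n 0 z z))))))))) (n 149 (n 0 z (n 0 z (n 0 z (n 0 z (n 0 z (n 0
 z (n 0 z (n 0 z (n 0 z z))))))))) (n 149 (n 0 z (n 0 z (n 0 z (n 0 z (n 0 z (n 0 z (n 0 z (n 0
 z (n 0 z z))))))))) z))) (n 0 (n 0 z (n 0 z z)) (n 0 (n 0 z z) (n 0 z z)))))))) (n 0 (n 0 z (n
 1 (n 2620 z (n 6631963 z (n 2620 z (n 4261419 z (n 2620 z (n 2620 z z)))))) (n 1 (n 6562131 z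
 (n 6562131 z (n 6562131 z (n 6562131 z (n 6562131 z (n 6562131 z z)))))) z))) (n 0 z z)))) (n
 0x81e764ac12a161d469132a5c0ccac826178532b240 (n 0 (n 467 (n 6561875 z (n 0 z (n 2 z (n 0 z (n 0
 z (n 0 z z)))))) (n 33 (n 0 z (n 0 z (n 0 z (n 0 z (n 0 z (n 0 z (n 0 z (n 0 z (n 0 z (n 0 z (n
 0 z (n 0 z (n 0 z (n 0 z (n 0 z (n 0 z (n 0 z (n 0 z (n 0 z (n 0 z (n
 0x6ca8a8640382081f7df82285e81e8e18207e18a08617a07e28627e082081d8a386289d86282475d8628610801 z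
 (n 10 z (n 0 z (n 0 z (n
 0x6ca8a8640382181d9207e379f7df85f79e7e189f8207a18258227a48208608618a189c82472275e8628a00801 z
 (n 18 z (n
 0x6ca8a8640382181d9207e379f7df85f79e7e189f8207a18258227a48208608618a189c82472275e8628a00801 z
 (n 26 z (n 0 z (n 0 z (n 3278363 z (n 0 z z)))))))))))))))))))))))))))))))) (n 129 (n 34 z (n 0
 z (n 0 z (n 0 z (n 42 z (n 50 z (n 6561875 z (n 6561875 z (n 0 z z))))))))) (n 3 (n 6632459 z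
 (n 0 z (n 0 z (n 0 z z)))) (n 1 (n 0 z (n 0 z (n 0 z (n 0 z (n 58 z (n 0 z (n 6561875 z
 z))))))) (n 0 (n 0 z (n 0 z (n 0 z (n 0 z (n 0 z (n 6632459 z z)))))) z)))))) (n 3 (n 0 (n 923
 (n 0 z (n 0 z (n 0 z (n 0 z (n 0 z (n 0 z (n 0 z (n 0 z (n 0 z (n 0 z (n 0 z (n 0 z (n 0 z (n 0
 z (n 0 z (n 0 z (n 0 z (n 0 z (n 0 z (n 0 z (n 0 z (n 0 z (n 0 z (n 0 z (n 2 (n 0 z (n 0 z (n 2
 (n 0 z (n 0 (n 8730475 z z) (n 0 z (n 0 z (n 0 z (n 0 z z)))))) (n 2 (n 0 z (n 0 z (n 0 z (n 0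
 z (n 0 z (n 0 z z)))))) (n 2 (n 0 z (n 0 z (n 0 z (n 0 z (n 0 z (n 0 z z)))))) (n 2 (n 0 z (n 0
 z (n 0 z (n 0 z (n 0 z (n 0 z z)))))) z)))))) (n 0 z z)))))))))))))))))))))))))) (n 923 (n 0 z
 (n 0 z (n 0 z (n 0 z (n 0 z (n 0 z (n 0 z (n 0 z (n 0 z (n 0 z (n 0 z (n 0 z (n 0 z (n 0 z (n 0
 z (n 0 z (n 0 z (n 0 z (n 0 z (n 0 z (n 0 z (n 0 z (n 0 z (n 0 z (n 0 z (n 0 z
 z)))))))))))))))))))))))))) (n 923 (n 0 z (n 0 z (n 0 z (n 0 z (n 0 z (n 0 z (n 0 z (n 0 z (n 0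
 z (n 0 z (n 0 z (n 0 z (n 0 z (n 0 z (n 0 z (n 0 z (n 0 z (n 7476747 z (n 0 z (n 0 z (n 0 z (n
 0 z (n 0 z (n 0 z (n 0 z (n 0 z z)))))))))))))))))))))))))) (n 259 (n 0 z (n 0 z (n 0 z (n 0 z
 (n 0 z (n 0 z (n 0 z z))))))) (n 259 (n 2 (n 0 z (n 2 (n 0 z (n 0 z (n 0 z (n 0 z (n 0 z (n 0 z
 z)))))) z)) (n 0 z (n 0 z (n 0 z (n 0 z (n 0 z (n 0 z z))))))) (n 259 (n 0 z (n 0 z (n 0 z (n 0
 z (n 0 z (n 0 z (n 0 z z))))))) (n 3 (n 0 z (n 0 z (n 0 z (n 0 z (n 0 z (n 0 z (n 0 z (n 0 z (n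
 0 z (n 0 z (n 0 z z))))))))))) z))))))) (n 0 (n 0 z (n 0 z (n 933 (n 0 z (n 0 z (n 0 z (n 0 z
 (n 0 z (n 2 (n 0 z (n 0 z (n 2 (n 0 z (n 0 z (n 0 z (n 0 z (n 0 z (n 0 z z)))))) z))) z))))))
 (n 933 (n 0 z (n 0 z (n 0 z (n 0 z (n 0 z (n 0 z z)))))) (n 933 (n 0 z (n 0 z (n 0 z (n 0 z (n
 0 z (n 0 z z)))))) (n 925 (n 0 z (n 0 z (n 0 z (n 0 z (n 0 z z))))) z)))))) (n 0 (n 0 z (n 927
 (n 0 z (n 0 z (n 0 z (n 2 (n 0 z (n 0 z (n 2 (n 0 z (n 0 z (n 0 z (n 0 z (n 0 z (n 0 z z))))))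
 z))) (n 0 z (n 0 z z)))))) (n 927 (n 0 z (n 0 z (n 0 z (n 0 z (n 0 z (n 0 z z)))))) (n 927 (n 0
 z (n 0 z (n 0 z (n 0 z (n 0 z (n 0 z z)))))) (n 243 (n 2 z (n 0 z (n 0 z (n 0 z (n 0 z (n 0 z
 (n 0 z (n 0 z z)))))))) z))))) (n 0 (n 411 (n 0 z (n 0 z (n 0 z (n 0 z (n 0 z (n 0 z (n 0 z (n
 0 z (n 0 z z))))))))) (n 411 (n 0 z (n 0 z (n 0 z (n 0 z (n 0 z (n 2 (n 0 z (n 2 (n 0 z (n 0 z
 (n 0 z (n 0 z (n 0 z (n 0 z z)))))) z)) (n 0 z (n 0 z (n 0 z z))))))))) (n 411 (n 0 z (n 0 z (n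
 0 z (n 0 z (n 2 (n 2 (n 0 z (n 0 z (n 0 z (n 0 z (n 0 z (n 0 z z)))))) z) (n 0 z (n 0 z (n 0 z
 (n 0 z z))))))))) (n 51 (n 0 z (n 6428491 z (n 0 z (n 0 z z)))) z)))) (n 0 (n 0 z (n 0 z (n 857
 (n 0 z (n 0 z (n 0 z (n 0 z (n 2 z (n 0 z (n 0 z (n 0 z z)))))))) z))) (n 0 (n 0 z (n 941 (n 0
 z (n 0 z (n 0 z (n 0 z (n 0 z (n 0 z (n 0 z (n 0 z (n 0 z (n 0 z (n 0 z (n 0 z (n 0 z (n 0 z (n
 0 z (n 0 z (n 0 z (n 0 z (n 0 z (n 0 z (n 0 z (n 0 z (n 0 z (n 0 z (n 0 z (n 0 z (n 0 z (n 0 z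
 (n 0 z (n 0 z (n 0 z (n 0 z z)))))))))))))))))))))))))))))))) z)) (n 0 (n 531 (n 0 z (n 2 z (n
 0 z (n 0 z (n 0 z (n 0 z (n 0 z (n 0 z (n 0 z (n 0 z z)))))))))) z) (n 0 z z)))))))) (n 0 (n 1
 (n 6632459 z (n 6632459 z (n 6632459 z (n 6632459 z (n 6632459 z (n 6632459 z z)))))) (n 0 z (n
 0 z (n 0 z z)))) (n 0 z z)))) (n
 0x1ac268794543489a0d35d812261065b2308965896b8d0251645aa34813122808d220328c01d508071b00 (n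
 0x23489 (n 327 (n 2 z (n 0 z (n 0 z (n 10 z (n 18 z (n
 0xca8ca42038228207e07df8207a07e08608218607e07df86086082082182082081f8208608207e08208200801 z (n
 26 z (n 34 z (n 0 z (n 0 z (n 0 z (n 3282443 z (n 0 z (n 0 z (n 0 z z))))))))))))))) (n 315 (n
 0 z (n 0 z (n 42 z (n 0 z (n 6562131 z (n 0 z (n 0 z z))))))) (n 129 (n 50 z (n
 0x2ca8a802078228217e07e08207a08208607e08617e07df8608607df86182082182082185f82082081f8200801 z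
 (n 0 z (n 0 z (n 0 z (n 0 z (n 0 z (n 0 z (n 0 z (n 0 z (n 0 z (n 0 z (n 0 z (n 0 z (n 0 z (n
 58 z (n
 0x2ca8a862078228207e07e08207a08208607e08607e07e086082082082182082082082185f82086081f8200801 z
 (n 6562131 z (n 0 z (n 0 z (n 0 z z))))))))))))))))))))) (n 3 (n 66 z (n 6631963 z (n 0 z (n 0
 z (n 0 z (n 0 z (n 74 z z))))))) (n 1 (n 82 z (n 0 z (n 0 z (n 0 z (n 0 z (n 90 z (n 0 z (n
 6562131 z (n 0 z z))))))))) (n 0 (n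
 0x4ca886020382481d85f81f7a079f8218a085f8e089e7e57de8e17a38617a675f95d76291e7e181e8a285f0801 z
 (n 0 z (n 0 z (n 98 z (n 0 z (n 0 z (n 0 z (n
 0x2ca88602037e385f7e17a17e07607e08608218617e075e8618a079f82281f82085f86186082181f81f7e00801 z
 (n 0 z (n 0 z (n 6631963 z (n 106 z (n 114 z (n 0 z (n 0 z (n 6631963 z (n 0 z (n
 0xc86c862038218607e07e08207e07e08608208207e08208208607e08218208208208208208208208208200801 z (n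
 0 z (n 0 z (n 0 z (n 0 z (n 0 z (n 0 z (n 122 z (n 0 z (n 0 z (n 0 z (n 0 z
 z))))))))))))))))))))))))))))) z)))))) (n 315 (n 0 (n 0 z (n 0 z (n 0 z (n 0 z (n 919 (n 0 z (n
 0 z (n 0 z (n 0 z (n 0 z (n 0 z (n 0 z (n 0 z z)))))))) (n 759 (n 0 z (n 0 z (n 0 z (n 0 z (n 0
 z (n 0 z (n 0 z (n 0 z (n 0 z (n 0 z (n 0 z (n 0 z (n 0 z (n 0 z (n 0 z (n 0 z (n 0 z (n 0 z (n
 0 z (n 0 z (n 0 z (n 0 z (n 0 z (n 0 z (n 0 z (n 0 z (n 0 z (n 0 z (n 0 z (n 0 z (n 0 z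
 z))))))))))))))))))))))))))))))) (n 759 (n 0 z (n 0 z (n 0 z (n 0 z (n 0 z (n 0 z (n 0 z (n 0 z
 (n 0 z (n 0 z (n 0 z (n 0 z (n 0 z (n 0 z (n 0 z (n 0 z (n 0 z (n 0 z (n 0 z (n 0 z (n 0 z (n 0
 z (n 0 z (n 0 z (n 0 z (n 0 z (n 0 z (n 0 z (n 0 z (n 0 z (n 0 z
 z))))))))))))))))))))))))))))))) (n 645 (n 0 z (n 0 z (n 0 z (n 0 z (n 0 z (n 0 z (n 0 z (n 0 z
 (n 0 z (n 0 z (n 0 z (n 0 z z)))))))))))) (n 645 (n 0 z (n 0 z (n 0 z (n 0 z (n 0 z (n 0 z (n 0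
 z (n 0 z (n 0 z (n 0 z (n 0 z (n 0 z z)))))))))))) (n 757 (n 0 z (n 0 z (n 0 z (n 0 z (n 0 z (n
 0 z (n 0 z (n 0 z (n 0 z (n 0 z (n 0 z (n 0 z (n 0 z (n 0 z (n 0 z (n 0 z (n 0 z
 z))))))))))))))))) (n 757 (n 0 z (n 0 z (n 0 z (n 0 z (n 0 z (n 0 z (n 0 z (n 0 z (n 0 z (n 0 z
 (n 0 z (n 0 z (n 0 z (n 0 z (n 0 z (n 0 z (n 0 z z))))))))))))))))) (n 721 (n 0 z (n 0 z (n 0 z
 (n 0 z (n 0 z (n 0 z (n 0 z (n 0 z (n 0 z (n 0 z (n 0 z (n 0 z (n 0 z (n 0 z (n 0 z (n 0 z (n 0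
 z (n 0 z (n 0 z (n 0 z (n 0 z (n 0 z (n 0 z (n 0 z (n 0 z (n 0 z (n 0 z (n 0 z (n 0 z (n 0 z (n
 0 z (n 0 z z)))))))))))))))))))))))))))))))) (n 721 (n 0 z (n 0 z (n 0 z (n 0 z (n 0 z (n 0 z
 (n 0 z (n 0 z (n 0 z (n 0 z (n 0 z (n 0 z (n 0 z (n 0 z (n 0 z (n 0 z (n 0 z (n 0 z (n 0 z (n 0
 z (n 0 z (n 0 z (n 0 z (n 0 z (n 0 z (n 0 z (n 0 z (n 0 z (n 0 z (n 0 z (n 0 z (n 0 z
 z)))))))))))))))))))))))))))))))) (n 721 (n 0 z (n 0 z (n 0 z (n 0 z (n 0 z (n 0 z (n 0 z (n 0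
 z (n 0 z (n 0 z (n 0 z (n 0 z (n 0 z (n 0 z (n 0 z (n 0 z (n 0 z (n 0 z (n 0 z (n 0 z (n 0 z (n
 0 z (n 0 z (n 0 z (n 0 z (n 0 z (n 0 z (n 0 z (n 0 z (n 0 z (n 0 z (n 0 z
 z)))))))))))))))))))))))))))))))) (n 721 (n 0 z (n 0 z (n 0 z (n 0 z (n 0 z (n 0 z (n 0 z (n 0
 z (n 0 z (n 0 z (n 0 z (n 0 z (n 0 z (n 0 z (n 0 z (n 0 z (n 0 z (n 0 z (n 0 z (n 0 z (n 0 z (n
 0 z (n 0 z (n 0 z (n 0 z (n 0 z (n 0 z (n 0 z (n 0 z (n 2 z (n 0 z (n 0 z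
 z)))))))))))))))))))))))))))))))) z))))))))))))))) (n 0 (n 0 z (n 0 z (n 0 z (n 919 (n 0 z (n 0
 z (n 0 z (n 2 (n 2 (n 0 z (n 0 z (n 0 z (n 0 z (n 0 z (n 0 (n 3660 z z) z)))))) (n 2 (n 0 z (n
 0 z (n 0 z (n 0 z (n 0 z (n 0 z z)))))) (n 2 (n 0 z (n 0 z (n 0 z (n 0 z (n 0 z (n 0 z z))))))
 (n 2 (n 0 z (n 0 z (n 0 z (n 0 z (n 0 z (n 0 z z)))))) (n 2 (n 0 z (n 0 z (n 0 z (n 0 z (n 0 z
 (n 0 (n 3652 z z) z)))))) (n 2 (n 0 z (n 0 z (n 0 z (n 0 z (n 0 z (n 0 z z)))))) (n 2 (n 0 z (n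
 0 z (n 0 z (n 0 z (n 0 z (n 0 (n 965 z z) z)))))) (n 2 (n 0 z (n 0 z (n 0 z (n 0 z (n 0 z (n 0
 z z)))))) (n 2 (n 0 z (n 0 z (n 0 z (n 0 z (n 0 z (n 0 z z)))))) (n 2 (n 0 z (n 0 z (n 0 z (n 0
 (n 52 z z) (n 0 (n 52 z z) (n 0 (n 52 z (n 52 z z)) z)))))) z)))))))))) (n 0 z (n 0 z (n 0 z (n
 0 z (n 0 z z))))))))) (n 915 (n 0 z (n 0 z (n 0 z (n 2 (n 0 z (n 1 z (n 1 z (n 1 z (n 2 (n 0 z
 (n 0 z (n 0 z (n 0 z (n 0 z (n 0 (n 3652 z z) z)))))) (n 1 z (n 2 (n 0 z (n 0 z (n 0 z (n 0 z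
 (n 0 z (n 0 (n 52 z z) z)))))) (n 2 (n 0 z (n 0 z (n 0 z (n 0 z (n 0 z (n 0 z z)))))) (n 1 z
 z))))))))) (n 0 z (n 0 z (n 0 z (n 0 z (n 0 z (n 0 z (n 0 z z))))))))))) (n 915 (n 0 z (n 0 z
 (n 2 (n 1 z (n 1 z (n 1 z (n 1 z (n 1 z (n 1 z (n 2 (n 0 z (n 0 z (n 0 z (n 0 z (n 0 z (n 0 z
 z)))))) (n 1 z z)))))))) (n 0 z (n 0 z (n 0 z (n 0 z (n 0 z (n 0 z (n 0 z (n 0 z z)))))))))))
 (n 251 (n 0 z (n 0 z (n 0 z (n 0 z (n 0 z (n 2 (n 0 z (n 1 z (n 2 (n 0 z (n 0 z (n 0 z (n 0 z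
 (n 0 z (n 0 z z)))))) (n 1 z (n 2 (n 0 z (n 0 z (n 0 z (n 0 z (n 0 z (n 0 z z)))))) (n 2 (n 0 z
 (n 0 z (n 0 z (n 0 (n 52 z z) (n 0 (n 4342 z z) (n 0 (n 52 z (n 52 z z)) z)))))) (n 1 z
 z))))))) (n 0 z (n 0 z (n 0 z (n 0 z (n 0 z (n 0 z (n 0 z (n 0 z (n 0 z (n 0 z (n 0 z (n 0 z (n
 0 z (n 0 z (n 0 z z))))))))))))))))))))) (n 251 (n 0 z (n 0 z (n 0 z (n 0 z (n 0 z (n 0 z (n 0
 z (n 0 z (n 2 (n 1 z (n 1 z (n 1 z (n 1 z (n 2 (n 0 z (n 0 z (n 0 z (n 0 z (n 0 z (n 0 z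
 z)))))) (n 1 z z)))))) (n 0 z (n 0 z (n 0 z (n 0 z (n 0 z (n 0 z (n 0 z (n 0 z (n 0 z (n 0 z (n
 0 z (n 0 z z))))))))))))))))))))) (n 913 (n 0 z (n 0 z (n 0 z (n 2 (n 0 z (n 1 z (n 2 (n 0 z (n
 0 z (n 0 z (n 0 z (n 0 z (n 0 (n 52 z z) z)))))) (n 2 (n 0 z (n 0 z (n 0 z (n 0 (n 52 z z) (n 0
 (n 5 z z) (n 0 (n 52 z (n 52 z z)) z)))))) (n 1 z z))))) (n 0 z (n 0 z (n 0 z (n 0 z (n 0 z (n
 0 z (n 0 z z))))))))))) (n 913 (n 0 z (n 0 z (n 2 (n 1 z (n 1 z (n 2 (n 0 z (n 0 z (n 0 z (n 0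
 z (n 0 z (n 0 z z)))))) (n 1 z z)))) (n 0 z (n 0 z (n 0 z (n 0 z (n 0 z (n 0 z (n 0 z (n 0 z
 z))))))))))) (n 13 (n 2 (n 0 z (n 0 z (n 0 z z))) (n 0 z (n 0 z (n 0 z (n 0 z (n 0 z (n 0 z (n
 0 z (n 0 z z))))))))) (n 13 (n 0 z (n 2 (n 0 z (n 0 z z)) (n 0 z (n 0 z (n 0 z (n 0 z (n 0 z (n
 0 z (n 0 z z))))))))) (n 13 (n 0 z (n 0 z (n 2 (n 0 z z) (n 0 z (n 0 z (n 0 z (n 0 z (n 0 z (n
 0 z z))))))))) (n 13 (n 0 z (n 0 z (n 0 z (n 0 z (n 0 z (n 0 z (n 0 z (n 0 z (n 0 z z)))))))))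
 z)))))))))))))) (n 0 (n 0 z (n 0 z (n 79 (n 0 z (n 0 z (n 0 z (n 0 z (n 0 z (n 2 (n 2 (n 0 z (n
 0 z (n 0 z (n 0 z (n 0 z (n 0 z z)))))) (n 2 (n 0 z (n 0 z (n 0 z (n 0 z (n 0 z (n 0 z z))))))
 (n 2 (n 0 z (n 0 z (n 0 z (n 0 z (n 0 z (n 0 z z)))))) (n 2 (n 0 z (n 0 z (n 0 z (n 0 z (n 0 z
 (n 0 z z)))))) (n 2 (n 0 z (n 0 z (n 0 z (n 0 z (n 0 z (n 0 z z)))))) (n 2 (n 0 z (n 0 z (n 0 z
 (n 0 z (n 0 z (n 0 (n 8852267 z z) z)))))) (n 2 (n 0 z (n 0 z (n 0 z (n 0 z (n 0 z (n 0 z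
 z)))))) (n 2 (n 0 z (n 0 z (n 0 z (n 0 z (n 0 z (n 0 (n 8852267 z z) z)))))) (n 2 (n 0 z (n 0 z
 (n 0 z (n 0 z (n 0 z (n 0 z z)))))) (n 2 (n 0 z (n 0 z (n 0 z (n 0 z (n 0 z (n 0 z z))))))
 z)))))))))) (n 0 z (n 0 z (n 0 z (n 0 z z)))))))))) (n 915 (n 0 z (n 0 z (n 0 z (n 0 z (n 0 z
 (n 0 z (n 0 z (n 0 z (n 0 z (n 2 (n 0 z (n 1 z (n 1 z (n 1 z (n 1 z (n 1 z (n 1 z (n 2 (n 0 z
 (n 0 z (n 0 z (n 0 z (n 0 z (n 0 z z)))))) (n 1 z z))))))))) (n 0 z (n 0 z (n 0 z (n 0 z (n 0 z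
 (n 0 z (n 0 z (n 0 z (n 0 z (n 0 z (n 0 z (n 0 z (n 0 z z))))))))))))))))))))))) (n 915 (n 0 z
 (n 0 z (n 0 z (n 0 z (n 0 z (n 0 z (n 0 z (n 0 z (n 2 (n 2 (n 0 z (n 0 z (n 0 z (n 0 z (n 0 z
 (n 0 z z)))))) (n 1 z (n 1 z (n 1 z (n 1 z (n 1 z (n 2 (n 0 z (n 0 z (n 0 z (n 0 z (n 0 z (n 0
 z z)))))) (n 1 z z)))))))) (n 0 z (n 0 z (n 0 z (n 0 z (n 0 z (n 0 z (n 0 z (n 0 z (n 0 z (n 0
 z (n 0 z (n 0 z (n 0 z (n 0 z z))))))))))))))))))))))) (n 507 (n 0 z (n 0 z (n 2 (n 0 z (n 1 z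
 (n 2 (n 0 z (n 0 z (n 0 z (n 0 z (n 0 z (n 0 z z)))))) (n 1 z (n 2 (n 0 z (n 0 z (n 0 z (n 0 z
 (n 0 z (n 0 z z)))))) (n 2 (n 0 z (n 0 z (n 0 z (n 0 z (n 0 z (n 0 z z)))))) (n 2 (n 0 z (n 0
 (n 308 z z) (n 0 z (n 0 z (n 0 z (n 0 (n 308 z (n 308 z z)) z)))))) z))))))) (n 0 z (n 0 z (n 0
 z (n 0 z (n 0 z (n 0 z (n 0 z (n 0 z (n 0 z (n 0 z (n 0 z (n 0 z (n 0 z (n 0 z (n 0 z (n 0 z (n
 0 z (n 0 z (n 0 z z)))))))))))))))))))))) (n 507 (n 0 z (n 0 z (n 0 z (n 0 z (n 0 z (n 0 z (n 0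
 z (n 0 z (n 0 z (n 2 (n 1 z (n 1 z (n 1 z (n 1 z (n 2 (n 0 z (n 0 z (n 0 z (n 0 z (n 0 z (n 0 z
 z)))))) (n 1 z z)))))) (n 0 z (n 0 z (n 0 z (n 0 z (n 0 z (n 0 z (n 0 z (n 0 z (n 0 z (n 0 z (n
 0 z (n 0 z z)))))))))))))))))))))) (n 917 (n 0 z (n 0 z (n 0 z (n 0 z (n 0 z (n 0 z (n 2 (n 0 z
 (n 1 z (n 1 z (n 2 (n 0 z (n 0 z (n 0 z (n 0 z (n 0 z (n 0 z z)))))) (n 1 z z))))) (n 0 z (n 0
 z (n 0 z (n 0 z z))))))))))) (n 917 (n 2 (n 1 z (n 1 z (n 2 (n 0 (n 308 z z) (n 0 (n 8865323 z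
 z) (n 0 z (n 0 z (n 0 z (n 0 (n 308 z (n 8794739 z z)) z)))))) (n 1 z z)))) (n 0 z (n 0 z (n 0
 z (n 0 z (n 0 z (n 0 z (n 0 z (n 0 z (n 0 z (n 0 z z))))))))))) (n 77 (n 0 z (n 0 z (n 0 z (n 0
 z (n 0 z (n 0 z (n 0 z (n 0 z (n 0 z (n 0 z (n 0 z (n 0 z (n 0 z (n 0 z (n 0 z (n 0 z (n 0 z (n
 7754795 z (n 0 z (n 0 z (n 0 z (n 0 z (n 0 z (n 0 z (n 0 z (n 0 z (n 0 z (n 0 z (n 0 z (n 0 z
 (n 0 z (n 0 z (n 0 z (n 0 z (n 0 z z))))))))))))))))))))))))))))))))))) (n 77 (n 0 z (n 2 (n 0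
 z (n 0 z z)) (n 0 z (n 0 z (n 0 z (n 0 z (n 0 z (n 0 z (n 0 z (n 0 z (n 0 z (n 0 z (n 0 z (n 0
 z (n 0 z (n 0 z (n 0 z (n 0 z (n 0 z (n 0 z (n 0 z (n 0 z (n 0 z (n 0 z (n 0 z (n 0 z (n 0 z (n
 0 z (n 0 z (n 0 z (n 0 z (n 0 z (n 0 z (n 0 z (n 0 z z))))))))))))))))))))))))))))))))))) (n 77
 (n 0 z (n 0 z (n 0 z (n 0 z (n 0 z (n 0 z (n 0 z (n 0 z (n 0 z (n 0 z (n 0 z (n 0 z (n 0 z (n 2
 (n 0 z z) (n 0 z (n 0 z (n 0 z (n 0 z (n 0 z (n 0 z (n 0 z (n 0 z (n 0 z (n 0 z (n 0 z (n 0 z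
 (n 0 z (n 0 z (n 0 z (n 0 z (n 0 z (n 0 z (n 0 z (n 0 z (n 0 z
 z))))))))))))))))))))))))))))))))))) (n 77 (n 0 z (n 0 z (n 0 z (n 0 z (n 0 z (n 0 z (n 0 z (n
 0 z (n 0 z (n 0 z (n 0 z (n 0 z (n 0 z (n 0 z (n 0 z (n 0 z (n 0 z (n 0 z (n 0 z (n 0 z (n 0 z
 (n 0 z (n 0 z (n 0 z (n 0 z (n 0 z (n 0 z (n 0 z (n 0 z (n 0 z (n 0 z (n 0 z (n 0 z (n 0 z (n 0
 z z))))))))))))))))))))))))))))))))))) z))))))))))))) (n 0 (n 0 z (n 631 (n 0 z (n 0 z (n 0 z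
 (n 0 z (n 0 z (n 0 z (n 0 z (n 0 z z)))))))) (n 19 (n 2 (n 0 z (n 1 z (n 2 (n 0 z (n 0 z (n 0 z
 (n 0 z (n 0 z (n 0 (n 4331627 z z) z)))))) (n 1 z (n 2 (n 0 z (n 0 z (n 0 z (n 0 z (n 0 z (n 0
 z z)))))) (n 1 z (n 2 (n 0 z (n 0 z (n 0 z (n 0 z (n 0 z (n 0 (n 8786731 z z) z)))))) (n 2 (n 0
 z (n 0 z (n 0 z (n 0 z (n 0 z (n 0 z z)))))) (n 2 (n 0 z (n 0 (n 8787787 z z) (n 0 z (n 0 z (n
 0 z (n 0 (n 4 z (n 8787787 z z)) z)))))) z))))))))) (n 0 z (n 0 z (n 0 z (n 0 z (n 0 z (n 0 z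
 (n 0 z (n 0 z (n 0 z (n 0 z (n 0 z (n 0 z (n 0 z (n 0 z (n 0 z (n 0 z (n 0 z (n 0 z (n 0 z (n 0
 z (n 0 z (n 0 z z))))))))))))))))))))))) (n 19 (n 0 z (n 0 z (n 0 z (n 0 z (n 0 z (n 0 z (n 0 z
 (n 0 z (n 0 z (n 0 z (n 0 z (n 0 z (n 0 z (n 0 z (n 0 z (n 0 z (n 0 z (n 0 z (n 0 z (n 0 z (n 0
 z (n 0 z (n 0 z z))))))))))))))))))))))) (n 7 (n 2 (n 0 z (n 1 z (n 2 (n 0 z (n 0 z (n 0 z (n 0
 z (n 0 z (n 0 z z)))))) (n 1 z (n 2 (n 0 z (n 0 z (n 0 z (n 0 z (n 0 z (n 0 z z)))))) (n 2 (n 0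
 z (n 0 z (n 0 z (n 0 z (n 0 z (n 0 z z)))))) (n 2 (n 0 z (n 0 z (n 0 z (n 0 z (n 0 z (n 0 z
 z)))))) z))))))) (n 0 z (n 0 z (n 0 z (n 0 z (n 0 z (n 0 z (n 0 z (n 0 z (n 0 z (n 0 z
 z))))))))))) (n 7 (n 0 z (n 0 z (n 0 z (n 0 z (n 0 z (n 0 z (n 0 z (n 0 z (n 0 z (n 0 z (n 0 z
 z))))))))))) (n 15 (n 2 (n 0 z (n 1 z (n 2 (n 0 z (n 0 z (n 0 z (n 0 z (n 0 z (n 0 z z)))))) (n
 2 (n 0 z (n 0 z (n 0 z (n 0 z (n 0 z (n 0 z z)))))) (n 2 (n 0 z (n 0 (n 8787787 z z) (n 0 z (n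
 0 z (n 0 z (n 0 (n 4 z (n 8787787 z z)) z)))))) z))))) (n 0 z (n 0 z (n 0 z (n 0 z (n 0 z (n 0
 z (n 0 z (n 0 z (n 0 z (n 0 z (n 0 z z)))))))))))) (n 15 (n 0 z (n 0 z (n 0 z (n 0 z (n 0 z (n
 0 z (n 0 z (n 0 z (n 0 z (n 0 z (n 0 z (n 0 z z)))))))))))) (n 1 (n 0 z (n 2 (n 0 z (n 0 z (n 0
 z z))) (n 0 z (n 0 z (n 0 z (n 0 z (n 0 z (n 0 z (n 0 z (n 0 z (n 0 z (n 0 z (n 0 z
 z))))))))))))) (n 1 (n 0 z (n 0 z (n 0 z (n 0 z (n 0 z (n 0 z (n 0 z (n 0 z (n 0 z (n 0 z (n 0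
 z (n 0 z (n 0 z z))))))))))))) (n 1 (n 0 z (n 0 z (n 0 z (n 2 (n 0 z z) (n 0 z (n 0 z (n 0 z (n
 0 z (n 0 z (n 0 z (n 0 z (n 0 z (n 0 z z))))))))))))) (n 1 (n 0 z (n 0 z (n 0 z (n 0 z (n 0 z
 (n 0 z (n 0 z (n 0 z (n 0 z (n 0 z (n 0 z (n 0 z (n 0 z z))))))))))))) z)))))))))))) (n 0 (n
 511 (n 0 z (n 0 z (n 0 z (n 0 z (n 0 z (n 0 z (n 0 z (n 0 z (n 0 z (n 0 z (n 0 z (n 0 z (n 0 z
 (n 0 z (n 0 z (n 0 z z)))))))))))))))) (n 915 (n 0 z (n 0 z (n 0 z (n 0 z (n 0 z (n 0 z z))))))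
 (n 915 (n 0 z (n 0 z (n 0 z (n 0 z (n 0 z (n 0 z z)))))) (n 507 (n 0 z (n 0 z (n 0 z (n 0 z (n
 0 z (n 0 z (n 0 z (n 0 z (n 0 z (n 0 z z)))))))))) (n 507 (n 0 z (n 0 z (n 0 z (n 0 z (n 0 z (n
 0 z (n 0 z (n 0 z (n 0 z (n 0 z z)))))))))) (n 63 (n 0 z (n 0 z (n 0 z (n 0 z (n 0 z (n 0 z (n
 0 z (n 0 z (n 0 z (n 0 z (n 0 z (n 0 z z)))))))))))) (n 63 (n 0 z (n 0 z (n 0 z (n 0 z (n 0 z
 (n 0 z (n 0 z (n 0 z (n 0 z (n 0 z (n 0 z (n 0 z z)))))))))))) (n 509 (n 0 z (n 0 z (n 0 z (n 0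
 z (n 0 z (n 0 z z)))))) (n 509 (n 0 z (n 0 z (n 0 z (n 0 z (n 0 z (n 0 z z)))))) (n 509 (n 0 z
 (n 0 z (n 0 z (n 0 z (n 0 z (n 0 z z)))))) (n 509 (n 0 z (n 0 z (n 0 z (n 0 z (n 0 z (n 0 z
 z)))))) z))))))))))) (n 0 (n 259 (n 2 (n 0 z (n 1 z (n 2 (n 0 z (n 0 z (n 0 z (n 0 z (n 0 z (n
 0 (n 4327531 z z) z)))))) (n 1 z (n 2 (n 0 z (n 0 z (n 0 z (n 0 z (n 0 z (n 0 z z)))))) (n 1 z
 (n 2 (n 0 z (n 0 z (n 0 z (n 0 z (n 0 z (n 0 (n 8786731 z z) z)))))) (n 2 (n 0 z (n 0 z (n 0 z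
 (n 0 z (n 0 z (n 0 z z)))))) (n 2 (n 0 z (n 0 (n 8787787 z z) (n 0 z (n 0 z (n 0 z (n 0 (n 964
 z (n 8787787 z z)) z)))))) z))))))))) (n 0 z (n 0 z (n 0 z (n 0 z (n 0 z (n 0 z (n 0 z
 z)))))))) (n 259 (n 0 z (n 0 z (n 0 z (n 0 z (n 0 z (n 0 z (n 0 z (n 0 z z)))))))) (n 247 (n 2
 (n 0 z (n 1 z (n 2 (n 0 z (n 0 z (n 0 z (n 0 z (n 0 z (n 0 z z)))))) (n 1 z (n 2 (n 0 z (n 0 z
 (n 0 z (n 0 z (n 0 z (n 0 z z)))))) (n 2 (n 0 z (n 0 z (n 0 z (n 0 z (n 0 z (n 0 z z)))))) (n 2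
 (n 0 z (n 0 z (n 0 z (n 0 z (n 0 z (n 0 z z)))))) z))))))) (n 0 z (n 0 z (n 0 z (n 0 z (n 0 z
 z)))))) (n 247 (n 0 z (n 0 z (n 0 z (n 0 z (n 0 z (n 0 z z)))))) (n 243 (n 2 (n 0 z (n 1 z (n 2
 (n 0 z (n 0 z (n 0 z (n 0 z (n 0 z (n 0 z z)))))) (n 2 (n 0 z (n 0 z (n 0 z (n 0 z (n 0 z (n 0
 z z)))))) (n 2 (n 0 z (n 0 (n 8787787 z z) (n 0 z (n 0 z (n 0 z (n 0 (n 964 z (n 8787787 z z))
 z)))))) z))))) (n 0 z (n 0 z (n 0 z (n 0 z (n 0 z (n 0 z (n 0 z (n 0 z (n 0 z z)))))))))) (n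
 243 (n 0 z (n 0 z (n 0 z (n 0 z (n 0 z (n 0 z (n 0 z (n 0 z (n 0 z (n 0 z z)))))))))) (n 241 (n
 0 z (n 0 z (n 0 z (n 0 z (n 0 z (n 0 z (n 0 z (n 0 z (n 0 z (n 0 z (n 0 z (n 0 z (n 0 z (n 0 z
 (n 0 z (n 0 z (n 0 z (n 0 z (n 0 z (n 0 z (n 0 z (n 0 z (n 0 z (n 0 z (n 0 z (n 0 z (n 0 z (n 0
 z (n 0 z (n 0 z (n 0 z (n 0 z (n 0 z (n 0 z (n 0 z (n 0 z (n 0 z (n 0 z (n 0 z (n 0 z (n 0 z
 z))))))))))))))))))))))))))))))))))))))))) (n 241 (n 0 z (n 0 z (n 0 z (n 0 z (n 0 z (n 0 z (n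
 0 z (n 0 z (n 0 z (n 0 z (n 0 z (n 0 z (n 0 z (n 0 z (n 0 z (n 0 z (n 0 z (n 0 z (n 0 z (n 0 z
 (n 0 z (n 0 z (n 0 z (n 0 z (n 0 z (n 0 z (n 0 z (n 0 z (n 0 z (n 0 z (n 0 z (n 0 z (n 0 z (n 0
 z (n 0 z (n 0 z (n 0 z (n 0 z (n 0 z (n 0 z (n 0 z z)))))))))))))))))))))))))))))))))))))))))
 (n 241 (n 0 z (n 0 z (n 0 z (n 0 z (n 0 z (n 0 z (n 0 z (n 0 z (n 0 z (n 0 z (n 0 z (n 0 z (n 0
 z (n 0 z (n 0 z (n 0 z (n 2 (n 0 z z) (n 0 z (n 0 z (n 0 z (n 0 z (n 0 z (n 0 z (n 0 z (n 0 z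
 (n 0 z (n 0 z (n 0 z (n 0 z (n 0 z (n 0 z (n 0 z (n 0 z (n 0 z (n 0 z (n 0 z (n 0 z (n 0 z (n 0
 z (n 0 z (n 0 z z))))))))))))))))))))))))))))))))))))))))) (n 241 (n 0 z (n 0 z (n 0 z (n 0 z
 (n 0 z (n 0 z (n 0 z (n 0 z (n 0 z (n 0 z (n 0 z (n 0 z (n 0 z (n 0 z (n 0 z (n 0 z (n 0 z (n 0
 z (n 0 z (n 0 z (n 0 z (n 0 z (n 0 z (n 0 z (n 0 z (n 0 z (n 0 z (n 0 z (n 0 z (n 0 z (n 0 z (n
 0 z (n 0 z (n 0 z (n 0 z (n 0 z (n 0 z (n 0 z (n 0 z (n 0 z (n 0 z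
 z))))))))))))))))))))))))))))))))))))))))) z)))))))))) (n 0 (n 0 z (n 713 (n 0 z (n 0 z (n 0 z
 (n 0 z (n 0 z (n 0 z (n 0 z (n 0 z (n 0 z (n 0 z (n 0 z (n 0 z z)))))))))))) (n 713 (n 2 (n 1 z
 (n 1 z (n 1 z (n 1 z (n 2 (n 0 (n 2420 z z) (n 0 z (n 0 (n 8853067 z z) (n 0 z (n 0 z (n 0 (n
 2420 z (n 2420 z z)) z)))))) (n 1 z z)))))) (n 0 z (n 0 z (n 0 z (n 0 z (n 0 z (n 0 z (n 0 z (n
 0 z (n 0 z (n 0 z (n 0 z z)))))))))))) (n 857 (n 0 z (n 0 z (n 0 z (n 0 z (n 0 z (n 0 z (n 0 z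
 (n 0 z z)))))))) (n 857 (n 2 (n 1 z (n 1 z (n 2 (n 0 z (n 0 z (n 0 z (n 0 z (n 0 z (n 0 z
 z)))))) (n 1 z z)))) (n 0 z (n 0 z (n 0 z (n 0 z (n 0 z (n 0 z (n 0 z z)))))))) (n 605 (n 0 z
 (n 0 z (n 0 z (n 0 z (n 0 z (n 0 z (n 0 z (n 0 z (n 7754771 z (n 0 z (n 0 z (n 0 z (n 0 z (n 0
 z (n 0 z (n 0 z (n 0 z (n 0 z (n 0 z (n 0 z (n 0 z (n 0 z z)))))))))))))))))))))) (n 605 (n 2
 (n 0 z (n 0 z z)) (n 0 z (n 0 z (n 0 z (n 0 z (n 0 z (n 0 z (n 0 z (n 0 z (n 0 z (n 0 z (n 0 z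
 (n 0 z (n 0 z (n 0 z (n 0 z (n 0 z (n 0 z (n 0 z (n 0 z (n 0 z (n 0 z z))))))))))))))))))))))
 (n 605 (n 0 z (n 0 z (n 0 z (n 0 z (n 0 z (n 0 z (n 0 z (n 0 z (n 0 z (n 0 z (n 0 z (n 0 z (n 0
 z (n 0 z (n 0 z (n 0 z (n 0 z (n 0 z (n 0 z (n 0 z (n 0 z (n 0 z z)))))))))))))))))))))) (n 605
 (n 0 z (n 0 z (n 0 z (n 0 z (n 0 z (n 0 z (n 0 z (n 0 z (n 0 z (n 0 z (n 0 z (n 0 z (n 0 z (n 0
 z (n 0 z (n 0 z (n 0 z (n 0 z (n 0 z (n 0 z (n 0 z (n 0 z z)))))))))))))))))))))) z))))))))) (n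
 0 (n 487 (n 2 (n 0 z (n 1 z (n 2 (n 0 z (n 0 z (n 0 z (n 0 z (n 0 z (n 0 z z)))))) (n 1 z (n 2
 (n 0 z (n 0 z (n 0 z (n 0 z (n 0 z (n 0 (n 8872203 z z) z)))))) (n 2 (n 0 z (n 0 z (n 0 z (n 0
 z (n 0 z (n 0 z z)))))) (n 1 z z))))))) (n 0 z (n 0 z (n 0 z (n 0 z (n 0 z (n 0 z (n 0 z (n 0 z
 (n 0 z (n 0 z (n 0 z (n 0 z (n 0 z (n 0 z (n 0 z (n 0 z (n 0 z (n 0 z (n 0 z (n 0 z (n 0 z (n 0
 z (n 0 z (n 0 z (n 0 z (n 0 z (n 0 z (n 0 z (n 0 z (n 0 z z))))))))))))))))))))))))))))))) (n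
 487 (n 0 z (n 0 z (n 0 z (n 0 z (n 0 z (n 0 z (n 0 z (n 0 z (n 0 z (n 0 z (n 0 z (n 0 z (n 0 z
 (n 0 z (n 0 z (n 0 z (n 0 z (n 0 z (n 0 z (n 0 z (n 0 z (n 0 z (n 0 z (n 0 z (n 0 z (n 0 z (n 0
 z (n 0 z (n 0 z (n 0 z (n 0 z z))))))))))))))))))))))))))))))) (n 531 (n 2 (n 0 z (n 1 z (n 1 z
 (n 2 (n 0 z (n 0 z (n 0 z (n 0 z (n 0 z (n 0 z z)))))) (n 1 z z))))) (n 0 z (n 0 z (n 0 z (n 0
 z (n 0 z (n 0 z z))))))) (n 531 (n 0 z (n 0 z (n 0 z (n 0 z (n 0 z (n 0 z (n 0 z z))))))) (n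
 529 (n 0 z (n 0 z (n 0 z (n 0 z (n 0 z (n 0 z (n 0 z (n 0 z (n 0 z (n 0 z (n 0 z (n 0 z (n 0 z
 (n 0 z (n 0 z (n 0 z (n 0 z (n 0 z (n 0 z (n 0 z (n 0 z (n 0 z (n 0 z (n 0 z (n 0 z (n 0 z (n 0
 z (n 0 z (n 0 z (n 0 z (n 0 z (n 0 z (n 0 z (n 0 z (n 0 z (n 0 z
 z)))))))))))))))))))))))))))))))))))) (n 529 (n 0 z (n 0 z (n 0 z (n 0 z (n 0 z (n 0 z (n 0 z
 (n 0 z (n 0 z (n 0 z (n 0 z (n 0 z (n 0 z (n 0 z (n 0 z (n 0 z (n 0 z (n 0 z (n 0 z (n 0 z (n 0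
 z (n 0 z (n 0 z (n 0 z (n 0 z (n 0 z (n 0 z (n 0 z (n 0 z (n 0 z (n 0 z (n 0 z (n 0 z (n 0 z (n
 0 z (n 0 z z)))))))))))))))))))))))))))))))))))) (n 529 (n 0 z (n 0 z (n 0 z (n 0 z (n 0 z (n 0
 z (n 0 z (n 0 z (n 0 z (n 0 z (n 0 z (n 0 z (n 0 z (n 0 z (n 2 (n 0 z z) (n 0 z (n 0 z (n 0 z
 (n 0 z (n 0 z (n 0 z (n 0 z (n 0 z (n 0 z (n 0 z (n 0 z (n 0 z (n 0 z (n 0 z (n 0 z (n 0 z (n 0
 z (n 0 z (n 0 z (n 0 z (n 0 z z)))))))))))))))))))))))))))))))))))) (n 529 (n 0 z (n 0 z (n 0 z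
 (n 0 z (n 0 z (n 0 z (n 0 z (n 0 z (n 0 z (n 0 z (n 0 z (n 0 z (n 0 z (n 0 z (n 0 z (n 0 z (n 0
 z (n 0 z (n 0 z (n 0 z (n 0 z (n 0 z (n 0 z (n 0 z (n 0 z (n 0 z (n 0 z (n 0 z (n 0 z (n 0 z (n
 0 z (n 0 z (n 0 z (n 0 z (n 0 z (n 0 z z)))))))))))))))))))))))))))))))))))) z)))))))) (n 0 (n
 0 z (n 3 (n 0 z (n 0 z (n 0 z (n 0 z (n 0 z (n 0 z (n 0 z z))))))) (n 3 (n 0 z (n 0 z (n 0 z (n
 0 z (n 2 (n 1 z (n 2 (n 0 z (n 0 z (n 0 z (n 0 z (n 0 z (n 0 z z)))))) (n 2 (n 0 z (n 0 z (n 0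
 z (n 0 z (n 0 z (n 0 z z)))))) (n 2 (n 0 z (n 0 (n 8872203 z z) (n 0 z (n 0 z (n 0 z (n 0 (n
 8872203 z (n 8872203 z z)) z)))))) z)))) (n 0 z (n 0 z z))))))) (n 5 (n 0 z (n 0 z (n 0 z (n
 7754771 z (n 0 z (n 0 z (n 0 z (n 0 z (n 0 z (n 0 z z)))))))))) (n 5 (n 0 z (n 0 z (n 2 (n 0 z
 (n 0 z z)) (n 0 z (n 0 z (n 0 z (n 0 z (n 0 z (n 0 z (n 0 z z)))))))))) (n 5 (n 0 z (n 0 z (n 0
 z (n 0 z (n 0 z (n
 0x2ea8c862078218208207e08207e08208608208608207e08218207e08228208208208208208208208208200801 z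
 (n 0 z (n 0 z (n 0 z (n 0 z z)))))))))) (n 5 (n 0 z (n 0 z (n 0 z (n 0 z (n 0 z (n 0 z (n 0 z
 (n 0 z (n 0 z (n 0 z z)))))))))) z))))))) (n 0 (n 723 (n 0 z (n 2 (n 0 z (n 1 z (n 1 z (n 2 (n
 0 z (n 0 z (n 0 z (n 0 z (n 0 z (n 0 z z)))))) (n 1 z z))))) (n 0 z (n 0 z (n 0 z (n 0 z
 z)))))) (n 723 (n 0 z (n 0 z (n 0 z (n 0 z (n 0 z (n 0 z z)))))) (n 721 (n 0 z (n 0 z (n 0 z (n
 0 z (n 0 z (n 0 z (n 0 z (n 0 z (n 0 z (n 0 z z)))))))))) (n 721 (n 0 z (n 0 z (n 0 z (n 0 z (n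
 0 z (n 0 z (n 0 z (n 0 z (n 0 z (n 0 z z)))))))))) (n 721 (n 0 z (n 2 (n 0 z z) (n 0 z (n 0 z
 (n 0 z (n 0 z (n 0 z (n 0 z (n 0 z (n 0 z z)))))))))) (n 721 (n 0 z (n 0 z (n 0 z (n 0 z (n 0 z
 (n 0 z (n 0 z (n 0 z (n 0 z (n 2 z z)))))))))) z)))))) (n 0 (n 0 z (n 1 (n 0 z (n 0 z (n 0 z (n
 0 z (n 7754771 z (n 0 z (n 0 z (n 0 z (n 0 z z))))))))) (n 1 (n 0 z (n 2 (n 0 z (n 0 z z)) (n 0
 z (n 0 z (n 0 z (n 0 z (n 0 z (n 0 z (n 0 z z))))))))) (n 1 (n 0 z (n 0 z (n 0 z (n 0 z (n 0 z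
 (n 0 z (n 0 z (n 0 z (n 0 z z))))))))) (n 1 (n 0 z (n 0 z (n 0 z (n 0 z (n 0 z (n 0 z (n 0 z (n
 0 z (n 0 z z))))))))) z))))) (n 0 (n 961 (n 0 z (n 0 z (n 0 z (n 0 z (n 0 z (n 0 z (n 0 z (n 0
 z (n 0 z (n 0 z (n 0 z (n 0 z (n 0 z (n 0 z (n 0 z (n 0 z (n 2 (n 0 z (n 0 z (n 0 z z))) (n 0 z
 (n 0 z (n 0 z (n 0 z (n 0 z (n 0 z (n 0 z (n 0 z (n 0 z (n 0 z (n 0 z
 z)))))))))))))))))))))))))))) (n 961 (n 0 z (n 0 z (n 0 z (n 0 z (n 0 z (n 0 z (n 0 z (n 0 z (n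
 0 z (n 0 z (n 0 z (n 0 z (n 0 z (n 0 z (n 0 z (n 0 z (n 0 z (n 0 z (n 0 z (n 0 z (n 0 z (n 0 z
 (n 0 z (n 0 z (n 0 z (n 0 z (n 0 z (n 0 z z)))))))))))))))))))))))))))) (n 961 (n 0 z (n 0 z (n
 0 z (n 0 z (n 0 z (n 0 z (n 0 z (n 0 z (n 0 z (n 0 z (n 0 z (n 0 z (n 0 z (n 0 z (n 0 z (n 0 z
 (n 0 z (n 0 z (n 0 z (n 0 z (n 0 z (n 0 z (n 0 z (n 0 z (n 2 (n 0 z z) (n 0 z (n 0 z (n 0 z
 z)))))))))))))))))))))))))))) (n 961 (n 0 z (n 0 z (n 0 z (n 0 z (n 0 z (n 0 z (n 0 z (n 0 z (n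
 0 z (n 0 z (n 0 z (n 0 z (n 0 z (n 0 z (n 0 z (n 0 z (n 0 z (n 0 z (n 0 z (n 0 z (n 2 z (n 0 z
 (n 0 z (n 0 z (n 0 z (n 0 z (n 0 z (n 0 z z)))))))))))))))))))))))))))) z)))) (n 0 (n 0 z (n 0
 z (n 0 z z))) (n 0 (n 0 z (n 0 z z)) (n 0 (n 0 z z) (n 0 z z)))))))))))))))) (n 0 (n 0 z (n 0 z
 (n 1 (n 2 z (n 6631963 z (n 2620 z (n 2620 z (n 2620 z (n 2620 z z)))))) (n 0 z (n 1 (n 6562131
 z (n 6562131 z (n 6562131 z (n 6562131 z (n 6562131 z (n 6562131 z z)))))) (n 0 z (n 0 z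
 z))))))) (n 0 (n 0x61e51564196c65896b65916a4ca3002ea840 (n 0 (n 0 (n 7476747 z (n 7738155 z (n
 7738155 z (n 7738155 z (n 7738155 z (n 7738155 z z)))))) z) (n 0 (n 315 (n 0 z (n 1 (n 2 z (n
 2620 z (n 2620 z (n 7680539 z (n 2620 z (n 2620 z z)))))) (n 1 (n 7680539 z (n 2620 z (n
 6559531 z (n 10 z (n 2620 z (n 2620 z z)))))) (n 1 (n 4396811 z (n 2620 z (n 2620 z (n 2620 z
 (n 7680539 z (n 76 z z)))))) (n 1 (n 7610707 z (n 7610707 z (n 7610707 z (n 7610707 z (n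
 7610707 z (n 7610707 z z)))))) (n 0 z (n 1 (n 3282699 z (n 4400907 z (n 4400907 z (n 4400907 z
 (n 4400907 z (n 4400907 z z)))))) (n 0 z z)))))))) (n 123 (n 1 (n 2572 z (n 2572 z (n 2572 z (n
 7738155 z (n 2572 z (n 2572 z z)))))) (n 1 (n 4327227 z (n 4327227 z (n 7738155 z (n 4327227 z
 (n 4327227 z (n 4327227 z z)))))) (n 0 z (n 1 (n 7610707 z (n 7610707 z (n 7610707 z (n 7610707
 z (n 7610707 z (n 7610707 z z)))))) (n 0 z (n 0 z z)))))) (n 265 (n 1 (n 2188 z (n 2188 z (n 18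
 z (n 2188 z (n 4396891 z (n 2188 z z)))))) (n 1 (n 2188 z (n 2188 z (n 2188 z (n 2188 z (n 2188
 z (n 1996 z z)))))) (n 1 (n 2188 z (n 2188 z (n 4396907 z (n 6559499 z (n 1996 z (n 2188 z
 z)))))) (n 0 z (n 1 (n 4396843 z (n 2188 z (n 2188 z (n 2188 z (n 2188 z (n 1996 z z)))))) (n 1
 (n 7610707 z (n 7610707 z (n 7610707 z (n 7610707 z (n 7610707 z (n 7610707 z z)))))) (n 1 (n
 7610707 z (n 7610707 z (n 7610707 z (n 7610707 z (n 7610707 z (n 7610707 z z)))))) z))))))) (n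
 369 (n 1 (n 3148 z (n 3148 z (n 3148 z (n 7680539 z (n 26 z (n 3148 z z)))))) (n 1 (n 4327227 z
 (n 4327227 z (n 7680539 z (n 4327227 z (n 4327227 z (n 4327227 z z)))))) (n 0 z (n 1 (n 7610707
 z (n 7610707 z (n 7610707 z (n 7610707 z (n 7610707 z (n 7610707 z z)))))) (n 0 z (n 0 z
 z)))))) (n 481 (n 1 (n 7680539 z (n 7680539 z (n 7680539 z (n 7680539 z (n 7680539 z (n 7680539
 z z)))))) (n 1 (n 34 z (n 4156 z (n 4156 z (n 7738155 z (n 4156 z (n 4156 z z)))))) (n 0 z (n 0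
 z (n 0 z (n 1 (n 7610707 z (n 7610707 z (n 7610707 z (n 7610707 z (n 7610707 z (n 7610707 z
 z)))))) z)))))) (n 601 (n 1 (n 5020 z (n 6566515 z (n 5068 z (n 5068 z (n 5068 z (n 5068 z
 z)))))) (n 1 (n 5068 z (n 7738155 z (n 5068 z (n 5068 z (n 5068 z (n 42 z z)))))) (n 1 (n 5068
 z (n 5068 z (n 5068 z (n 7738155 z (n 5068 z (n 5068 z z)))))) (n 0 z (n 1 (n 7680539 z (n
 7680539 z (n 7680539 z (n 7680539 z (n 7680539 z (n 7680539 z z)))))) (n 1 (n 7680539 z (n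
 7680539 z (n 7680539 z (n 7680539 z (n 7680539 z (n 7680539 z z)))))) (n 1 (n 5068 z (n 4876 z
 (n 6567707 z (n 6493963 z (n 5068 z (n 5068 z z)))))) (n 1 (n 4396891 z (n 5068 z (n 5068 z (n
 7738155 z (n 6566259 z (n 5068 z z)))))) (n 1 (n 7680539 z (n 7680539 z (n 7680539 z (n 7680539
 z (n 4399475 z (n 7680539 z z)))))) (n 1 (n 5068 z (n 3213163 z (n 5068 z (n 7738155 z (n 5068
 z (n 5068 z z)))))) z)))))))))) (n 315 (n 0 z (n 0 z (n 1 (n 7738155 z (n 7680539 z (n 7738155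
 z (n 7738155 z (n 7738155 z (n 7738155 z z)))))) (n 0 z (n 1 (n 7610707 z (n 7610707 z (n
 7610707 z (n 7610707 z (n 7610707 z (n 7610707 z z)))))) (n 0 z (n 0 z z))))))) z))))))) (n 0
 (n 0 (n 0 z (n 0 z (n 0 z (n 0 z (n 0 z (n 0 z z)))))) (n 0 (n 0 z (n 0 z (n 0 z (n 0 z (n 0 z
 z))))) (n 0 (n 0 z (n 0 z (n 0 z (n 0 z z)))) (n 0 (n 0 z (n 0 z (n 0 z z))) (n 0 (n 0 z (n 0 z
 z)) (n 0 (n 8871971 z z) z)))))) (n 0 (n 321 (n 0 (n 0 z (n 0 z (n 0 z (n 0 (n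
 0xc8757e185f8207e17e081f8218208608218207e08608a07df8608208208208208208207a08208200041 z z) (n 0
 z (n 0 z z)))))) (n 0 (n 0 z (n 0 z (n 0 z (n 0 z (n 0 z (n 0 z z)))))) (n 0 (n 0 z (n 0 z (n 0
 z (n 0 z (n 0 z (n 0 z z)))))) (n 0 (n 0 z (n 0 z (n 0 z (n 0 z (n 0 z (n 0 z z)))))) (n 0 (n 0
 z (n 0 z (n 0 z (n 0 z (n 0 z (n 0 z z)))))) (n 0 (n 0 (n 8659283 z z) (n 0 z (n 0 z (n 0 z (n
 0 z (n 0 z z)))))) (n 0 (n 0 z (n 0 (n 4401163 z z) (n 0 z (n 0 z (n 0 (n 4401163 z z) (n 0 z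
 z)))))) (n 0 (n 0 z (n 0 z (n 0 (n
 0xc8757e185f8207e17e081f8218208608218207e08608a07df8608208208208208208207a08208200041 z (n
 0x2ecb0a28038218208217df8207e08208607e086081f7e081f86081f8208208208217e08207e081f81f8200801 z
 z)) (n 0 z (n 0 (n
 0xc8757e185f8207e17e081f8218208608218207e08608a07df8608208208208208208207a08208200041 z (n
 0x2ec9042a038228208207e08207a08208607e08617e07e08218608208207e082082182082082081f8208200801 z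
 z)) (n 0 z z)))))) z)))))))) (n 273 (n 0 (n 0 z (n 0 z (n 0 z (n 0 z (n 0 z (n 0 z z)))))) (n 0
 (n 0 z (n 0 z (n 0 z (n 0 z (n 0 z (n 0 (n
 0x148738218608207e17a07df8218608608218207e18608a182082082081f8208a08617e17a082181f0041 z (n
 0x2ea90862078218208207e08208208208208208208208208208208208208208208208208208208208208200801 z
 z)) z)))))) (n 0 (n 0 z (n 0 z (n 0 z (n 0 z (n 0 z (n 0 (n
 0xc8737e185f8207e17e081f8218208608218207e08608a07df8608208208208208208207a08208200041 z (n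
 8660843 z z)) z)))))) (n 0 (n 0 z (n 0 z (n 0 z (n 0 z (n 0 z (n 0 z z)))))) (n 0 (n 0 z (n 0 z
 (n 0 z (n 0 z (n 0 z (n 0 z z)))))) (n 0 (n 0 z (n 0 z (n 0 z (n 0 (n
 0xc8758208607e07e17a07e08218208608217e07e086086081f86081f82082185f8a08207a085f8210041 z z) (n 0
 z (n 0 z z)))))) (n 0 (n 0 z (n 0 z (n 0 z (n 0 z (n 0 z (n 0 (n
 0xc8738218608207e17e07df8218608208208207e082086082082182081f8208208208207e08208200041 z (n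
 0x5f21cc6cc398b58538c6f8b729574619581a97c728d81968689757daea5906c7c5b7bae855289989f7cb18c676998847f69857c87787b6289766100c9
 z z)) z)))))) (n 0 (n 0 z (n 0 z (n 0 z (n 0 z (n 0 z (n 0 (n 0xea90862070821 z (n 8660843 z
 z)) z)))))) (n 0 (n 0 z (n 0 z (n 0 z (n 0 z (n 0 z (n 0 z z)))))) (n 0 (n 0 z (n 0 z (n 0 z (n
 0 z (n 0 z (n 0 z z)))))) (n 0 (n 0 z (n 0 z (n 0 z (n 0 z (n 0 z (n 0 z z)))))) (n 0 (n 0 z (n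
 0 z (n 0 (n
 0x4e43a0548738c6c8b776b8374877c91757e8c6c9f829e7073a39f7871827272979c558a90887b9c6c7c6b8b7c767d95757f7693796c9d7b0089
 z (n 8591195 z z)) (n 0 z (n 0 z (n 0 z z)))))) (n 0 (n 0 z (n 0 z (n 0 z (n 0 z (n 0 z (n 0 (n
 0x10e70e62078608208208208208208608208208208208208208208208208208208208208208208208208200801 z
 (n 0x5d5210c40e000000e86e862031021 z z)) z)))))) (n 0 (n 0 z (n 0 z (n 0 z (n 0 z (n 0 z (n 0 z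
 z)))))) (n 0 (n 0 z (n 0 z (n 0 z (n 0 z (n 0 z (n 0 (n 0xea90862070821 z (n 7542827 z z))
 z)))))) (n 0 (n 0 z (n 0 z (n 0 z (n 0 z (n 0 z (n 0 z z)))))) (n 0 (n 0 z (n 0 z (n 0 z (n 0 z
 (n 0 z (n 0 z z)))))) (n 0 (n 0 z (n 0 z (n 0 (n 8659283 z z) (n 0 z (n 0 (n 8659283 z z) (n 0
 z z)))))) (n 0 (n 0 (n
 0x30a90a62038238207e07a08207208608a07a08a17e07e08608207df8217e082081f8208607e08208608600801 z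
 z) (n 0 z (n 0 z (n 0 z (n 0 z (n 0 z z)))))) (n 0 (n 0 z (n 0 z (n 0 z (n 0 z (n 0 z (n 0 (n
 7682059 z (n
 0x30eb08620382181f8207e08207e082089f8208608208208218208208218208208208208208207e08208200801 z
 z)) z)))))) (n 0 (n 0 z (n 0 z (n 0 z (n 0 z (n 0 z (n 0 z z)))))) (n 0 (n 0 z (n 0 z (n 0 z (n
 0 z (n 0 z (n 0 (n 4397067 z (n 4397067 z z)) z)))))) (n 0 (n 0 z (n 0 z (n 0 z (n 0 (n
 0x30cb0a28078218217e07e08207e07e08607e08607e07df8208208208608208208208208208208608208210801 z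
 z) (n 0 (n 8591195 z z) (n 0 z z)))))) z))))))))))))))))))))))) (n 249 (n 0 (n 0 z (n 0 z (n 0
 z (n 0 z (n 0 z (n 0 z z)))))) (n 0 (n 0 z (n 0 z (n 0 z (n 0 z (n 0 z (n 0 (n
 0x60c5d4100e03b23a0181c074374300380e86e640078208608208208208607e17e082182082082085f8618208208208208208208208208208208202001
 z z) z)))))) (n 0 (n 0 z (n 0 z (n 0 z (n 0 z (n 0 z (n 0 z z)))))) (n 0 (n 0 z (n 0 z (n 0 z
 (n 0 z (n 0 z (n 0 z z)))))) (n 0 (n 0 z (n 0 z (n 0 z (n 0 z (n 0 z (n 0 z z)))))) (n 0 (n 0 z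
 (n 0 z (n 0 z (n 0 z (n 0 z (n 0 z z)))))) (n 0 (n 0 z (n 0 z (n 0 z (n 0 z (n 0 (n 8591195 z
 z) (n 0 z z)))))) (n 0 (n 0 z (n 0 z (n 0 (n
 0xc8757e185f8207e17e081f8218208608218207e08608a07df8608208208208208208207a08208200041 z (n
 7747659 z z)) (n 0 z (n 0 z (n 0 z z)))))) z)))))))) (n 393 (n 0 (n 0 z (n 0 z (n 0 z (n 0 z (n
 0 z (n 0 z z)))))) (n 0 (n 0 z (n 0 z (n 0 z (n 0 z (n 0 z (n 0 z z)))))) (n 0 (n 0 z (n 0 z (n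
 0 z (n 0 z (n 0 z (n 0 z z)))))) (n 0 (n 0 z (n 0 z (n 0 z (n 0 z (n 0 z (n 0 z z)))))) (n 0 (n
 0 z (n 0 (n
 0xc8747e185f8207e17e081f8218208608218207e08608a07df8608208208208208208207a08208200041 z z) (n 0
 z (n 0 z (n 0 (n
 0x30eb0e42078218208208208208208208208208208208208208208208208208208208208208208207e08200801 z
 z) (n 0 z z)))))) (n 0 (n 0 z (n 0 z (n 0 z (n 0 z (n 0 z (n 0 z z)))))) (n 0 (n 0 z (n 0 z (n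
 0 (n 8591195 z z) (n 0 z (n 0 z (n 0 (n 8871971 z (n 8871971 z z)) z)))))) (n 0 (n 0 z (n 0 z
 (n 0 z (n 0 z (n 0 z (n 0 z z)))))) (n 0 (n 0 z (n 0 (n 8860259 z z) (n 0 z (n 0 z (n 0 z (n 0
 (n 8871971 z (n 8871971 z z)) z)))))) (n 0 (n 0 z (n 0 z (n 0 z (n 0 z (n 0 z (n 0 z z)))))) (n
 0 (n 0 (n 8868163 z z) (n 0 z (n 0 z (n 0 z (n 0 z (n 0 z z)))))) z))))))))))) (n 369 (n 0 (n 0
 z (n 0 z (n 0 z (n 0 z (n 0 z (n 0 z z)))))) (n 0 (n 0 z (n 0 z (n 0 z (n 0 z (n 0 z (n 0 z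
 z)))))) (n 0 (n 0 z (n 0 z (n 0 z (n 0 z (n 0 z (n 0 z z)))))) (n 0 (n 0 z (n 0 z (n 0 z (n 0 z
 (n 0 z (n 0 z z)))))) (n 0 (n 0 z (n 0 z (n 0 (n
 0x1c8758218608207e17a07df8228608618217e07e08608a181f8218a081e82189f8617a17e08608200041 z (n
 0x14d8338636524018af548432432100c458f5595218c80e0831230cb0c040701586f865850203836f60b21b08101c1313261521500060989930a90a400705e9d86326320038138a1ba9428800c58c28ec212cd6cec8428bc6c170857450a2a10a9dd774c212249198842931c789b251b7fa2ffa1ce47745154966f1f8bb7fa923f615c1b2f8d42b077360076504271b9c76da6c09a479aba388994a8786e6d936170f96536f27bb6fc70e9fa57e3c084464b818deb70ddb18b7c4e83cf339886a350e0717753ea8c3168a1f04a75e6297805fd82881d623a1c7d3f3f7c234992260b8ce4327d596e850e279b487e85c6a187667b86e9ca9dc93e77a7927224855199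
 z z)) (n 0 (n 8787787 z (n 7677963 z z)) (n 0 (n
 0x5f21d46cc3a8b58428c6f8b729574619581a97c728d81968689757daea5906c7c5b7bae855289989f7cb18c676998847f69857c87787b6289766100c9
 z (n
 0x64132000c48285001cc7000635060832880801b8a85a81fe94c00dc5412c0e63a6004e2a16a01a4db0027150ab01e36e80138a825832fb2c009c542941b05aa00100a42c1b05ab0008052061149b3c84227088d708493068ea108d82d5cc21113d5c88428e7279673c478ecff2855b30513850a6b4bd911a6c81d8d6921b2b81c37d7945c483674584c3425eddc9a9de9a7a33009fd8be5e3a405c6ecaa14a418a161b7a416a68644d760d5887ff6a78461d931bf5bc97e961bbbe7a8f3396842f7080bd85a96f7a4b707cc8608c9e2c74655bab141e7b85cb67a6547b11c994c5ec6fb0da7dc2ff58d047a7ad1c79788b580a98b86c088bc1325159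
 z z)) (n 0 z z)))))) (n 0 (n 0 z (n 0 (n 8860259 z (n 8860259 z z)) (n 0 z (n 0 z (n 0 z (n 0 z
 z)))))) z)))))) (n 363 (n 0 (n 0 z (n 0 z (n 0 z (n 0 z (n 0 z (n 0 z z)))))) (n 0 (n 0 z (n 0
 z (n 0 z (n 0 z (n 0 z (n 0 z z)))))) (n 0 (n 0 z (n 0 z (n 0 z (n 0 z (n 0 z (n 0 z z)))))) (n
 0 (n 0 z (n 0 z (n 0 z (n 0 z (n 0 z (n 0 (n 4261947 z z) z)))))) (n 0 (n 0 z (n 0 z (n 0 z (n
 0 z (n 0 z (n 0 (n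
 0x5e43b07486094758b757379708d7e9b7774817a9683a0797ca3a67e66836877a19b4c80a18f70b66d867a836a77758b727b7191726b967b0089
 z z) z)))))) (n 0 (n 0 z (n 0 z (n 0 z (n 0 z (n 0 z (n 0 z z)))))) (n 0 (n 0 z (n 0 z (n 0 z
 (n 0 z (n 0 z (n 0 z z)))))) (n 0 (n 0 z (n 0 z (n 0 z (n 0 z (n 0 z (n 0 (n
 0x1d89d04c0e03b13a0181c087487410382ea90862038218608208208207e08208608208208207e08608207e08208208208208208208208208208202001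
 z z) z)))))) (n 0 (n 0 z (n 0 z (n 0 z (n 0 z (n 0 z (n 0 z z)))))) (n 0 (n 0 z (n 0 z (n 0 z
 (n 0 z (n 0 z (n 0 (n 7735355 z z) z)))))) (n 0 (n 0 z (n 0 z (n 0 z (n 0 z (n 0 z (n 0 (n
 0x5e43b07486094758b767479708d7f9b7674827a9684a0797ca3a67e66836878a29a4c80a19070b56d867a836a77758a747b7191736b967b0089
 z z) z)))))) (n 0 (n 0 z (n 0 z (n 0 z (n 0 z (n 0 z (n 0 z z)))))) (n 0 (n 0 z (n 0 z (n 0 z
 (n 0 z (n 0 z (n 0 (n 7751739 z z) z)))))) (n 0 (n 0 z (n 0 z (n 0 z (n 0 z (n 0 z (n 0 z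
 z)))))) (n 0 (n 0 z (n 0 (n 8860259 z z) (n 0 z (n 0 z (n 0 z (n 0 (n 0xea90862070821 z (n
 0x2ea908620782082082082081f8208208208208208208208608208208208208208208208208208208208200801 z
 z)) z)))))) (n 0 (n 0 z (n 0 (n 8860259 z z) (n 0 z (n 0 z (n 0 z (n 0 (n
 0x2ea908620782082082082082082082082082082082082086082082082082082082082082082082082081f0801 z
 (n 0x2ea908620782082082082081f8208208208208208208208608208208208208208208208208208208208200801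
 z z)) z)))))) (n 0 (n 0 z (n 0 z (n 0 z (n 0 z (n 0 z (n 0 z z)))))) (n 0 (n 0 z (n 0 z (n 0 z
 (n 0 z (n 0 z (n 0 z z)))))) (n 0 (n 0 z (n 0 z (n 0 z (n 0 z (n 0 z (n 0 z z)))))) (n 0 (n 0 z
 (n 0 z (n 0 z (n 0 z (n 0 z (n 0 (n
 0x5f21d86cc3b0b58608c6f8b729574619581a97c728d81968689757daea5906c7c5b7bae855289989f7cb18c676998847f69857c87787b6289766100c9
 z z) z)))))) (n 0 (n 0 z (n 0 z (n 0 z (n 0 z (n 0 z (n 0 z z)))))) (n 0 (n 0 z (n 0 z (n 0 z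
 (n 0 z (n 0 z (n 0 z z)))))) (n 0 (n 0 z (n 0 z (n 0 z (n 0 z (n 0 z (n 0 z z)))))) (n 0 (n 0 z
 (n 0 z (n 0 z (n 0 z (n 0 z (n 0 z z)))))) (n 0 (n 0 z (n 0 z (n 0 (n 8787787 z z) (n 0 z (n 0
 z (n 0 (n 0xea90862070821 z (n
 0x3062ea080382082082082082081f8208208208208207e08208208208208208208208208208208208208200801 z
 z)) z)))))) (n 0 (n 0 (n 7735387 z (n
 0x30a8a802078228217e07e08207a08208607e08617e07df8608607df86182082182082185f82082081f8200801 z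
 z)) (n 0 (n
 0x30a8a802078228217e07e08207a08208607e08617e07df8608607df86182082182082185f82082081f8200801 z
 (n 7735387 z z)) (n 0 z (n 0 z (n 0 (n 8872203 z (n 8872203 z z)) (n 0 z z)))))) (n 0 (n 0 z (n
 0 z (n 0 z (n 0 z (n 0 z (n 0 z z)))))) (n 0 (n 0 z (n 0 (n 8860259 z z) (n 0 (n 8591195 z z)
 (n 0 z (n 0 z (n 0 (n 7739435 z (n
 0x3062ea08078218607e07e086081f8208208608607e082082086086082082081f8208208208207e08208200801 z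
 z)) z)))))) (n 0 (n 0 z (n 0 (n 8860259 z z) (n 0 z (n 0 z (n 0 z (n 0 (n 8525323 z (n 8525323
 z z)) z)))))) (n 0 (n 0 z (n 0 z (n 0 z (n 0 (n 8525323 z z) (n 0 z (n 0 (n 8525323 z (n
 8525323 z z)) z)))))) (n 0 (n 0 z (n 0 z (n 0 z (n 0 z (n 0 z (n 0 (n 8525323 z (n 8525323 z
 z)) z)))))) z))))))))))))))))))))))))))))))) (n 519 (n 0 (n 0 z (n 0 z (n 0 z (n 0 z (n 0 z (n
 0 z z)))))) (n 0 (n 0 z (n 0 z (n 0 z (n 0 z (n 0 z (n 0 z z)))))) (n 0 (n 0 z (n 0 z (n 0 z (n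
 0 z (n 0 z (n 0 (n 0x1086ea42070821 z (n 8660843 z z)) z)))))) (n 0 (n 0 z (n 0 z (n 0 z (n 0 z
 (n 0 z (n 0 (n 0x1086ea42070821 z (n 8660843 z z)) z)))))) (n 0 (n 0 z (n 0 z (n 0 z (n 0 z (n
 0 z (n 0 z z)))))) (n 0 (n 0 z (n 0 z (n 0 z (n 0 z (n 0 z (n 0 z z)))))) (n 0 (n 0 z (n 0 z (n
 0 z (n 0 z (n 0 z (n 0 z z)))))) (n 0 (n 0 z (n 0 z (n 0 z (n 0 z (n 0 z (n 0 (n
 0x148728218617e07a171f7df8618608618218208218608607df82186081f86089f8618208608a07e20041 z (n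
 7542827 z z)) z)))))) (n 0 (n 0 z (n 0 z (n 0 z (n 0 z (n 0 z (n 0 z z)))))) (n 0 (n 0 z (n 0 z
 (n 0 z (n 0 z (n 0 z (n 0 z z)))))) (n 0 (n 0 z (n 0 z (n 0 z (n 0 z (n 0 z (n 0 z z)))))) (n 0
 (n 0 z (n 0 z (n 0 (n 8591195 z z) (n 0 z (n 0 (n 8591195 z z) (n 0 z z)))))) z)))))))))))) (n
 489 (n 0 (n 0 z (n 0 z (n 0 z (n 0 z (n 0 z (n 0 z z)))))) (n 0 (n 0 z (n 0 (n
 0x1c8728218608207e17a07df8228608618217e07e08608a181f8218a081e82189f8617a17e08608200041 z (n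
 0x7082e40a0381f8607a18237df81d89d86085d79e7df85d89f95d72485e96289f7dd86285e8217e07a26a00801 z
 z)) (n 0 (n
 0x9873873003830a8e6400796291f8616e07a261f81ba1d7a28e5a216e06639a16247e57ab71e95c7a88dd8dca218606e21001
 z (n
 0x8c875997a8a7e71857d907890637b8861a27a9d6c7694a670608e6374a88f55868e907aa6638882746d88827d7c7e75997c6d89820049
 z z)) (n 0 z (n 0 (n
 0x2490ea00002aa1d400001e419000007b8327ffff980000080000d7ffff67fffef7fffec7fffd27ffffa7fffd47fffdc80000a7fffdd80001a7ffffd7ffff780001b80001c7ffff68000167fffd980001d7ffff580002a8000018000197fffc280004d7fffbc7fffce8000407fffee7ffffc80001a8000438000067fffd38000017fff9d7ffff18000308000117fffbe8000287ffffd8000447fffe580000f80001c7fff7d80001c0119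
 z (n
 0x8c875997a8a7e71857d907890637b8861a27a9d6c7694a670608e6374a88f55868e907aa6638882746d88827d7c7e75997c6d89820049
 z z)) (n 0 z z)))))) (n 0 (n 0 z (n 0 z (n 0 z (n 0 z (n 0 z (n 0 (n 8871971 z z) z)))))) (n 0
 (n 0 z (n 0 z (n 0 z (n 0 z (n 0 z (n 0 z z)))))) (n 0 (n 0 z (n 0 z (n 0 z (n 0 z (n 0 z (n 0
 z z)))))) (n 0 (n 0 z (n 0 z (n 0 z (n 0 (n
 0x30eb0e40078218208217e08207e08218608208207e07e08608207e082082081f8217e082082081f8208200801 z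
 z) (n 0 z (n 0 z z)))))) (n 0 (n 0 z (n 0 z (n 0 z (n 0 z (n 0 z (n 0 z z)))))) (n 0 (n 0 z (n
 0 z (n 0 z (n 0 z (n 0 z (n 0 z z)))))) (n 0 (n 0 z (n 0 z (n 0 z (n 0 (n 8786731 z z) (n 0 (n
 8786731 z z) (n 0 z z)))))) (n 0 (n 0 z (n 0 z (n 0 z (n 0 (n
 0x10eb0a04038218208207e08207e08208608208208207e082082082082082081f8208208208608208208200801 z
 (n
 0x875850201810e70a04037e281f8207a08207a08208a08208607e07e18618207e082182081f82182082082081f8208201001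
 z z)) (n 0 (n
 0xc8758218608207e17e07df82182086082081f7df8208a082082082081f8218218208207e08208200041 z (n
 0x875850201810e70a04037e281f8207a08207a08208a08208607e07e18618207e082182081f82182082082081f8208201001
 z z)) (n 0 z z)))))) z)))))))))) (n 507 (n 0 (n 0 z (n 0 z (n 0 z (n 0 z (n 0 z (n 0 z z))))))
 (n 0 (n 0 z (n 0 z (n 0 z (n 0 z (n 0 z (n 0 z z)))))) (n 0 (n 0 z (n 0 z (n 0 z (n 0 z (n 0 z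
 (n 0 z z)))))) (n 0 (n 0 z (n 0 z (n 0 z (n 0 z (n 0 z (n 0 z z)))))) (n 0 (n 0 z (n 0 z (n 0 z
 (n 0 z (n 0 z (n 0 z z)))))) (n 0 (n 0 z (n 0 z (n 0 z (n 0 z (n 0 z (n 0 z z)))))) (n 0 (n 0 z
 (n 0 z (n 0 z (n 0 z (n 0 z (n 0 z z)))))) z))))))) (n 481 (n 0 (n 0 z (n 0 z (n 0 z (n 0 z (n
 0 z (n 0 z z)))))) (n 0 (n 0 z (n 0 z (n 0 z (n 0 z (n 0 z (n 0 z z)))))) (n 0 (n 0 z (n 0 z (n
 0 z (n 0 z (n 0 z (n 0 (n 8871971 z z) z)))))) (n 0 (n 0 z (n 0 z (n 0 z (n 0 z (n 0 z (n 0 (n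
 8871971 z z) z)))))) (n 0 (n 0 z (n 0 z (n 0 z (n 0 z (n 0 z (n 0 z z)))))) (n 0 (n 0 z (n 0 z
 (n 0 z (n 0 z (n 0 z (n 0 z z)))))) z)))))) (n 633 (n 0 (n 0 z (n 0 z (n 0 z (n 0 z (n 0 z (n 0
 z z)))))) (n 0 (n 0 z (n 0 z (n 0 z (n 0 z (n 0 z (n 0 z z)))))) (n 0 (n 0 z (n 0 z (n 0 z (n 0
 z (n 0 z (n 0 z z)))))) (n 0 (n 0 z (n 0 z (n 0 (n
 0x30a8e862078218208207e08207e08208608208608207e08218207e08228208208208208208208208208200801 z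
 z) (n 0 z (n 0 z (n 0 (n 8871971 z (n 8871971 z z)) z)))))) (n 0 (n 0 z (n 0 z (n 0 z (n 0 z (n
 0 z (n 0 z z)))))) (n 0 (n 0 z (n 0 z (n 0 z (n 0 z (n 0 z (n 0 z z)))))) (n 0 (n 0 z (n 0 (n
 8860259 z z) (n 0 z (n 0 z (n 0 z (n 0 (n 8871971 z (n 8871971 z z)) z)))))) (n 0 (n 0 z (n 0 z
 (n 0 z (n 0 z (n 0 z (n 0 z z)))))) (n 0 (n 0 z (n 0 z (n 0 z (n 0 z (n 0 z (n 0 z z)))))) (n 0
 (n 0 z (n 0 z (n 0 z (n 0 z (n 0 z (n 0 z z)))))) (n 0 (n 0 (n 8868163 z z) (n 0 z (n 0 z (n 0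
 z (n 0 z (n 0 z z)))))) (n 0 (n 0 z (n 0 z (n 0 z (n 0 z (n 0 z (n 0 z z)))))) (n 0 (n 0 z (n 0
 z (n 0 (n 8787787 z z) (n 0 z (n 0 (n 8787787 z z) (n 0 z z)))))) z))))))))))))) (n 609 (n 0 (n
 0 z (n 0 z (n 0 z (n 0 z (n 0 (n
 0x5f21cc6cc398b58428c6f8b729574619581a97c728d81968689757daea5906c7c5b7bae855289989f7cb18c676998847f69857c87787b6289766100c9
 z z) (n 0 z z)))))) (n 0 (n 0 z (n 0 z (n 0 (n
 0x5f21d06cc3a0b58428c6f8b729574619581a97c728d81968689757daea5906c7c5b7bae855289989f7cb18c676998847f69857c87787b6289766100c9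
 z z) (n 0 z (n 0 (n
 0x10e70e400782281f8207e08207e08208608208617e18208218208208218208208208208208208208208200801 z
 z) (n 0 z z)))))) (n 0 (n 0 z (n 0 z (n 0 z (n 0 z (n 0 z (n 0 z z)))))) (n 0 (n 0 z (n 0 z (n
 0 (n
 0x5f21d06cc3a0b58428c6f8b729574619581a97c728d81968689757daea5906c7c5b7bae855289989f7cb18c676998847f69857c87787b6289766100c9
 z z) (n 0 z (n 0 (n
 0x30a2c608078208618208208208207e08217e07e07df7a085f8a082082082082082082181f82182081f8200801 z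
 z) (n 0 z z)))))) (n 0 (n 0 z (n 0 z (n 0 z (n 0 (n 8525323 z z) (n 0 z (n 0 z z)))))) (n 0 (n
 0 z (n 0 z (n 0 (n
 0x1c8738218608207e17a07df8228608618217e07e08608a181f8218a081e82189f8617a17e08608200041 z (n
 0x30a2e6080382281f8207e08207a082086182086182081f82182082082182082081f8208608208208218200801 z
 z)) (n 0 (n 8787787 z (n
 0x50ed0e80078218208208208207e08208208208208207e086181f7e18218608608207e08608208218208200801 z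
 z)) (n 0 (n
 0x4d21cc54c3988d842897389759076679180a17d748b80928588777ea49e8d707d627ca5845b8893987ca78a6c6e94837f6d847c867a7b6888786800c9
 z (n
 0x873873003830e70e400386082081f8208208208608208208208208208208208208208208208208208208208208208201001
 z z)) (n 0 z z)))))) (n 0 (n 0 (n
 0x30a2e6080382082082082082081f8618208208208207e08608208208208208208208208208208208208200801 z
 (n 8591211 z z)) (n 0 z (n 0 z (n 0 z (n 0 (n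
 0x1c8738218608207e17a07df8228608618217e07e08608a181f8218a081e82189f8617a17e08608200041 z (n
 0x50c5060e038238207e17df8207a17e08a07df8a07e07e07e181f82082181f82085f86185f8208608608600801 z
 z)) (n 0 z z)))))) (n 0 (n 0 z (n 0 z (n 0 z (n 0 z (n 0 z (n 0 (n 8871971 z z) z)))))) (n 0 (n
 0 z (n 0 z (n 0 z (n 0 z (n 0 z (n 0 z z)))))) (n 0 (n 0 z (n 0 z (n 0 z (n 0 (n 8525323 z (n
 8525323 z z)) (n 0 (n 8525323 z (n 8525323 z z)) (n 0 z z)))))) (n 0 (n 0 z (n 0 z (n 0 z (n 0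
 z (n 0 z (n 0 z z)))))) (n 0 (n 0 z (n 0 z (n 0 z (n 0 (n 8525323 z z) (n 0 (n 8525323 z z) (n
 0 z z)))))) (n 0 (n 0 z (n 0 z (n 0 z (n 0 z (n 0 z (n 0 z z)))))) (n 0 (n 0 z (n 0 z (n 0 z (n
 0 z (n 0 z (n 0 z z)))))) (n 0 (n 0 z (n 0 z (n 0 z (n 0 (n
 0x30a2e608078208208208208208208208208208208207e08208208208208208208208208208208208208200801 z
 z) (n 0 (n
 0x1c8738218608207e17a07df8228608618217e07e08608a181f8218a081e82189f8617a17e08608200041 z z) (n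
 0 z z)))))) (n 0 (n 0 z (n 0 z (n 0 z (n 0 z (n 0 z (n 0 z z)))))) (n 0 (n 0 z (n 0 z (n 0 (n
 0x30a2e608037e285f8217e08207a07e085f8218618207df8618617df82281f82186082186082081f8207df0801 z
 z) (n 0 z (n 0 z (n 0 (n 8871971 z (n 8871971 z z)) z)))))) (n 0 (n 0 z (n 0 z (n 0 z (n 0 (n
 8525323 z (n 8525323 z z)) (n 0 (n 8525323 z (n 8525323 z z)) (n 0 z z)))))) (n 0 (n 0 z (n 0 z
 (n 0 z (n 0 z (n 0 z (n 0 z z)))))) (n 0 (n 0 z (n 0 z (n 0 (n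
 0x1c8738218608207e17a07df8228608618217e07e08608a181f8218a081e82189f8617a17e08608200041 z z) (n
 0 z (n 0 (n
 0x1c8738218608207e17a07df8228608618217e07e08608a181f8218a081e82189f8617a17e08608200041 z z) (n
 0 z z)))))) (n 0 (n 0 z (n 0 z (n 0 z (n 0 z (n 0 z (n 0 z z)))))) (n 0 (n 0 z (n 0 z (n 0 z (n
 0 z (n 0 z (n 0 z z)))))) (n 0 (n 0 z (n 0 (n 8860259 z z) (n 0 z (n 0 z (n 0 z (n 0 z z))))))
 (n 0 (n 0 z (n 0 z (n 0 (n 8525323 z (n 8525323 z z)) (n 0 z (n 0 (n 8525323 z (n 8525323 z z))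
 (n 0 z z)))))) (n 0 (n 0 (n 8868163 z z) (n 0 z (n 0 z (n 0 z (n 0 z (n 0 z z)))))) (n 0 (n 0 z
 (n 0 z (n 0 z (n 0 z (n 0 z (n 0 z z)))))) (n 0 (n 0 (n 8868163 z z) (n 0 z (n 0 z (n 0 z (n 0
 z (n 0 z z)))))) (n 0 (n 0 z (n 0 z (n 0 z (n 0 z (n 0 z (n 0 z z)))))) (n 0 (n 0 z (n 0 z (n 0
 z (n 0 z (n 0 z (n 0 z z)))))) (n 0 (n 0 z (n 0 z (n 0 (n 8787787 z z) (n 0 z (n 0 (n 8787787 z
 z) (n 0 z z)))))) (n 0 (n 0 (n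
 0xc8738218608207e07a07df8218608218218207e082086182082182081f82189f8a18207a08208200041 z z) (n 0
 z (n 0 z (n 0 z (n 0 z (n 0 z z)))))) (n 0 (n 0 z (n 0 z (n 0 z (n 0 z (n 0 z (n 0 z z)))))) (n
 0 (n 0 z (n 0 z (n 0 (n 8787787 z z) (n 0 z (n 0 (n 8787787 z z) (n 0 z z)))))) (n 0 (n 0 z (n
 0 z (n 0 (n 6424667 z (n 6424667 z z)) (n 0 z (n 0 (n 6424667 z (n 6424667 z z)) (n 0 z z))))))
 (n 0 (n 0 z (n 0 z (n 0 z (n 0 z (n 0 z (n 0 z z)))))) (n 0 (n 0 z (n 0 z (n 0 z (n 0 z (n 0 z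
 (n 0 (n 8525323 z (n 8525323 z z)) z)))))) (n 0 (n 0 z (n 0 z (n 0 z (n 0 (n
 0x30870860037e08607e07e08207e17e182182082082082082082081f8218208218208608208218208208200801 z
 (n 0x30e90e80037e18208207e08207e07a085f8208218208208608608208618208208208208208208208208200801
 z z)) (n 0 (n
 0x30870860037e08607e07e08207e17e182182082082082082082081f8218208218208608208218208208200801 z
 (n 0x30870860037e08607e07e08207e17e182182082082082082082081f8218208218208608208218208208200801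
 z z)) (n 0 z z)))))) (n 0 (n 0 z (n 0 z (n 0 z (n 0 z (n 0 z (n 0 z z)))))) (n 0 (n 0 z (n 0 z
 (n 0 (n
 0x4e43a0548738c6c8b776b8374877c91757e8c6c9f829e7073a39f7871827272979c558a90887b9c6c7c6b8b7c767d95757f7693796c9d7b0089
 z (n
 0x30e90e80037e18208207e08207e07a085f8208218208208608608208618208208208208208208208208200801 z
 z)) (n 0 z (n 0 (n
 0x350e6188737df89e7e07e18a085f8218607e081f7df85e8df82282281d79e8218df8208e189f71e8208e00081 z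
 (n 0x30870860037a08608208208207e07e18218208208208208208608208208208218208608208208208208210801
 z z)) (n 0 z z)))))) (n 0 (n 0 z (n 0 z (n 0 (n 8787787 z z) (n 0 z (n 0 (n 8787787 z z) (n 0 z
 z)))))) (n 0 (n 0 z (n 0 z (n 0 z (n 0 (n
 0x30a2e608038208208208208208208208208208208207e08608208208208208208208208208208208208200801 z
 (n 0x10a2e608030821 z z)) (n 0 (n
 0xc8737e185f8207e17e081f8218208608218207e08608a07df8608208208208208208207a08208200041 z (n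
 0x30e90406038218208208208207e08208208208218208208618208208208208208208208208208208208200801 z
 z)) (n 0 z z)))))) z))))))))))))))))))))))))))))))))))))))))) (n 627 (n 0 (n 0 z (n 0 z (n 0 z
 (n 0 z (n 0 z (n 0 z z)))))) (n 0 (n 0 z (n 0 z (n 0 z (n 0 z (n 0 z (n 0 (n 3213355 z z)
 z)))))) (n 0 (n 0 z (n 0 z (n 0 z (n 0 z (n 0 z (n 0 (n 8525323 z z) z)))))) (n 0 (n 0 z (n 0 z
 (n 0 z (n 0 z (n 0 z (n 0 (n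
 0x9643b0ac8609e6e91706d7567947da9716e8375a286b37579b7bb7d56855b73b4a92f80b39968d4628877845f726f906c79689b6a5fa3780089
 z z) z)))))) (n 0 (n 0 z (n 0 z (n 0 (n 8872203 z (n 8872203 z z)) (n 0 z (n 0 z (n 0 z z))))))
 (n 0 (n 0 z (n 0 z (n 0 z (n 0 (n 8872203 z (n 8872203 z z)) (n 0 (n 8872203 z (n 8872203 z z))
 (n 0 z z)))))) (n 0 (n 0 z (n 0 z (n 0 z (n 0 z (n 0 z (n 0 z z)))))) (n 0 (n 0 z (n 0 z (n 0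
 (n 8872203 z (n 8872203 z z)) (n 0 z (n 0 (n 8872203 z (n 8872203 z z)) (n 0 z z)))))) (n 0 (n
 0 z (n 0 z (n 0 (n 8872203 z (n 8872203 z z)) (n 0 (n 8872203 z (n 8872203 z z)) (n 0 (n
 8872203 z (n 8872203 z z)) (n 0 z z)))))) (n 0 (n 0 z (n 0 z (n 0 (n 8525323 z (n 8525323 z z))
 (n 0 (n 8525323 z (n 8525323 z z)) (n 0 (n 8525323 z (n 8525323 z z)) (n 0 z z)))))) (n 0 (n 0
 z (n 0 z (n 0 z (n 0 z (n 0 z (n 0 z z)))))) (n 0 (n 0 (n 8800027 z z) (n 0 z (n 0 z (n 0 z (n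
 0 z (n 0 z z)))))) (n 0 (n 0 (n
 0xc8717e181f82082082081f8218608218208207e08208618208218208208218208208208208208600041 z (n
 0x30a2e608038218208208208207e08218208218218207df8208607e08218208208208208208208208208200801 z
 z)) (n 0 z (n 0 z (n 0 (n 8872203 z (n 8872203 z z)) (n 0 z (n 0 z z)))))) (n 0 (n 0 z (n 0 z
 (n 0 z (n 0 z (n 0 z (n 0 z z)))))) (n 0 (n 0 z (n 0 z (n 0 (n
 0x30a8e862078218208207e08207e08208608208608207e08218207e08228208208208208208208208208200801 z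
 z) (n 0 z (n 0 z (n 0 (n 3213435 z (n 3213435 z z)) z)))))) (n 0 (n 0 z (n 0 (n
 0x1c90e822a1d01a41885b8317a808a78736f5b7b5d638964957d7996967892619778a281944ebd4958b3727e95b6855b813174a68d4ba17db86b8c9619970109
 z (n
 0x30a8e8620382086082082082081f82082082082082082182086081f8208208208208208208208208207e00801 z
 z)) (n 0 z (n 0 z (n 0 (n 8872203 z (n 8872203 z z)) (n 0 z z)))))) (n 0 (n 0 z (n 0 z (n 0 (n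
 8872203 z (n 8872203 z z)) (n 0 z (n 0 (n 8872203 z (n 8872203 z z)) (n 0 z z)))))) (n 0 (n 0 z
 (n 0 z (n 0 z (n 0 z (n 0 z (n 0 z z)))))) (n 0 (n 0 z (n 0 (n 8860259 z z) (n 0 z (n 0 z (n 0
 z (n 0 z z)))))) (n 0 (n 0 (n 8868163 z z) (n 0 z (n 0 z (n 0 z (n 0 z (n 0 z z)))))) (n 0 (n 0
 z (n 0 z (n 0 z (n 0 z (n 0 z (n 0 z z)))))) (n 0 (n 0 z (n 0 z (n 0 (n 8872203 z (n 8872203 z
 z)) (n 0 (n 8872203 z (n 8872203 z z)) (n 0 (n 8872203 z (n 8872203 z z)) (n 0 z z)))))) (n 0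
 (n 0 z (n 0 z (n 0 (n 0x10a8e862070821 z z) (n 0 z (n 0 z (n 0 z z)))))) (n 0 (n 0 z (n 0 z (n
 0 z (n 0 z (n 0 (n
 0x490c67c810b179a35207657e855f8d0d5eb98634bde45f55ebee29fc637345a66a961b72465c62e690c5f0081 z
 z) (n 0 z z)))))) (n 0 (n 0 (n 8868163 z z) (n 0 z (n 0 z (n 0 z (n 0 z (n 0 z z)))))) (n 0 (n
 0 (n 8868163 z z) (n 0 z (n 0 z (n 0 z (n 0 z (n 0 z z)))))) (n 0 (n 0 z (n 0 (n 8860259 z z)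
 (n 0 (n 8787787 z z) (n 0 z (n 0 z (n 0 (n 8660843 z (n 7542891 z z)) z)))))) (n 0 (n 0 z (n 0
 (n 8860259 z z) (n 0 z (n 0 z (n 0 z (n 0 (n
 0x1c8738218608207e17a07df8228608618217e07e08608a181f8218a081e82189f8617a17e08608200041 z (n
 0x187474310181086e862038218208208208208208208208208208208208208208208208208208208208208208208208201001
 z z)) z)))))) (n 0 (n 0 z (n 0 z (n 0 (n 8868883 z (n 8868883 z z)) (n 0 (n 8868883 z (n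
 8868883 z z)) (n 0 (n 8868883 z (n 8868883 z z)) (n 0 z z)))))) (n 0 (n 0 z (n 0 z (n 0 z (n 0
 z (n 0 z (n 0 z z)))))) (n 0 (n 0 z (n 0 (n 8525323 z z) (n 0 z (n 0 z (n 0 (n 8525323 z z) (n
 0 (n 8525323 z (n 8525323 z z)) z)))))) (n 0 (n 0 z (n 0 z (n 0 z (n 0 (n 8872203 z z) (n 0 z
 (n 0 z z)))))) (n 0 (n 0 z (n 0 z (n 0 z (n 0 z (n 0 z (n 0 z z)))))) (n 0 (n 0 z (n 0 z (n 0 z
 (n 0 z (n 0 (n 8787787 z z) (n 0 z z)))))) (n 0 (n 0 z (n 0 (n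
 0x1c8748218608207e17a07df8228608618217e07e08608a181f8218a081e82189f8617a17e08608200041 z (n
 0x7643a08c86098728e7470776c907da1757282789b85a8777bacb07e5f846375a9a14080a9946dc3688779846475728d707a6d966f659b7a0089
 z z)) (n 0 (n
 0x1c8738218608207e17a07df8228608618217e07e08608a181f8218a081e82189f8617a17e08608200041 z (n
 0x30a8e8620782082082082082081f8208208208208207e08608208208208208208208208208208208208200801 z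
 z)) (n 0 (n
 0x34870a9e91f6a27a776751e8d3b9db18768c194e651bc663e39a677052281b62385f79f6eb7989210041 z (n
 0x30a8e8620782082082082082081f8208208208208207e08608208208208208208208208208208208208200801 z
 z)) (n 0 (n
 0x7643988486098728e7371776c907da1757282789c84a8787bacb07e5f856375aaa13f80a9936cc2688778846575728d707b6d976f659c790089
 z (n 0xe870a42070821 z z)) (n 0 z z)))))) (n 0 (n 0 z (n 0 (n
 0xc8747e185f8207e17e081f8218208608218207e08608a07df8608208208208208208207a08208200041 z (n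
 0xc8748218608207e17a07e08218608208218207e086086082082182081f8208608618217a08208200041 z z)) (n
 0 (n 8872203 z (n 8872203 z z)) (n 0 z (n 0 z (n 0 z z))))))
 z)))))))))))))))))))))))))))))))))))) (n 601 (n 0 (n 0 z (n 0 z (n 0 z (n 0 z (n 0 z (n 0 (n
 8871971 z z) z)))))) (n 0 (n 0 z (n 0 z (n 0 z (n 0 z (n 0 z (n 0 (n 8871971 z z) z)))))) (n 0
 (n 0 z (n 0 z (n 0 z (n 0 z (n 0 z (n 0 z z)))))) (n 0 (n 0 z (n 0 z (n 0 z (n 0 z (n 0 z (n 0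
 z z)))))) (n 0 (n 0 z (n 0 z (n 0 z (n 0 z (n 0 z (n 0 (n 8729115 z z) z)))))) (n 0 (n 0 z (n 0
 z (n 0 z (n 0 z (n 0 z (n 0 z z)))))) (n 0 (n 0 z (n 0 z (n 0 z (n 0 z (n 0 z (n 0 z z)))))) (n
 0 (n 0 z (n 0 z (n 0 z (n 0 z (n 0 z (n 0 z z)))))) (n 0 (n 0 (n 8868163 z z) (n 0 z (n 0 z (n
 0 z (n 0 z (n 0 z z)))))) (n 0 (n 0 z (n 0 z (n 0 z (n 0 z (n 0 z (n 0 z z)))))) z)))))))))) (n
 600 (n 0 (n 0 z (n 0 z (n 0 z (n 0 z (n 0 z (n 0 z z)))))) (n 0 (n 0 (n 7538779 z (n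
 0x70630e040786181f81f7e07e07e081f85f7e182281f82082085f81f82082079f82086089f7e18608608200801 z
 z)) (n 0 (n 7538779 z (n 8800043 z z)) (n 0 (n 8872203 z (n 8872203 z z)) (n 0 z (n 0 z (n 0 z
 z)))))) (n 0 (n 0 (n 8787723 z z) (n 0 z (n 0 z (n 0 z (n 0 z (n 0 z z)))))) (n 0 (n 0 z (n 0 z
 (n 0 z (n 0 z (n 0 z (n 0 z z)))))) (n 0 (n 0 z (n 0 z (n 0 z (n 0 z (n 0 z (n 0 z z)))))) (n 0
 (n 0 z (n 0 z (n 0 (n 8872203 z (n 8872203 z z)) (n 0 z (n 0 (n 8872203 z (n 8872203 z z)) (n 0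
 z z)))))) (n 0 (n 0 z (n 0 z (n 0 (n 8872203 z (n 8872203 z z)) (n 0 (n 8872203 z (n 8872203 z
 z)) (n 0 (n 8872203 z (n 8872203 z z)) (n 0 z z)))))) (n 0 (n 0 z (n 0 z (n 0 z (n 0 z (n 0 z
 (n 0 z z)))))) (n 0 (n 0 z (n 0 z (n 0 (n 8868883 z (n 8868883 z z)) (n 0 z (n 0 (n 8868883 z
 (n 8868883 z z)) (n 0 z z)))))) (n 0 (n 0 z (n 0 z (n 0 z (n 0 z (n 0 z (n 0 z z)))))) (n 0 (n
 0 (n 0xc8717e185f8207e17e081f8218208608218207e08608a07df8608208208208208208207a08208200041 z (n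
 8591211 z z)) (n 0 z (n 0 z (n 0 (n 8872203 z (n 8872203 z z)) (n 0 (n 8872203 z (n 8872203 z
 z)) (n 0 z z)))))) (n 0 (n 0 z (n 0 z (n 0 z (n 0 z (n 0 z (n 0 z z)))))) (n 0 (n 0 z (n 0 z (n
 0 z (n 0 z (n 0 z (n 0 z z)))))) (n 0 (n 0 (n 8800027 z z) (n 0 (n 3278923 z z) (n 0 z (n 0 z
 (n 0 z (n 0 (n 3278923 z (n 3278923 z z)) z)))))) (n 0 (n 0 z (n 0 z (n 0 z (n 0 z (n 0 z (n 0
 z z)))))) (n 0 (n 0 (n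
 0xc8717e18608207e18207e08218208208217e07e086186082082082081f8218208208207e08208600041 z (n
 8591211 z z)) (n 0 z (n 0 (n 8872203 z (n 8872203 z z)) (n 0 z (n 0 (n 8872203 z (n 8872203 z
 z)) (n 0 z z)))))) (n 0 (n 0 z (n 0 z (n 0 z (n 0 z (n 0 z (n 0 z z)))))) (n 0 (n 0 z (n 0 z (n
 0 z (n 0 z (n 0 z (n 0 z z)))))) (n 0 (n 0 z (n 0 z (n 0 z (n 0 z (n 0 z (n 0 z z)))))) (n 0 (n
 0 z (n 0 z (n 0 (n
 0x30a8e402078218207e07a08207e08608618208607e082182082081f82082082082082082082081f8207e00801 z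
 z) (n 0 z (n 0 (n
 0x30430c0e0782182082082082081f82086082082082082082082082082082081f8208208208208207e08200801 z
 z) (n 0 z z)))))) (n 0 (n 0 z (n 0 z (n 0 z (n 0 z (n 0 z (n 0 z z)))))) (n 0 (n 0 z (n 0 z (n
 0 z (n 0 z (n 0 z (n 0 z z)))))) (n 0 (n 0 (n 8787723 z (n 8591211 z z)) (n 0 (n
 0x364390bc81094758b767379708d7e9a777582799683a0797ca3a67e66846978a19b4c80a18f70b66c857a836b77758a737b7191726a967b0089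
 z (n
 0x2243907c810897189796f8376867d8e777e8a7099819873769c997a7481757593975d888d867c97707d6f897d787d90777f788f7a70977c0089
 z z)) (n 0 (n
 0x148738208608607e181f7df8218608208207e07e08608a082086182081f8208608607e17e08608200041 z (n
 0x30e30e200782086082086186085f8617e08217e08207e08208617e08608a07de82181e7a07e08208208200801 z
 z)) (n 0 z (n 0 z (n 0 z z)))))) (n 0 (n 0 z (n 0 z (n 0 z (n 0 z (n 0 z (n 0 (n 8871971 z (n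
 8871971 z z)) z)))))) (n 0 (n 0 z (n 0 z (n 0 z (n 0 z (n 0 z (n 0 (n 8871971 z (n 8871971 z
 z)) z)))))) (n 0 (n 0 z (n 0 z (n 0 (n
 0xc8737e185f8207e17e081f8218208608218207e08608a07df8608208208208208208207a08208200041 z (n
 0x50a8ec42038228218217df82076085f8617a08217e07df81f8a085f81f8208218207e185f82181f81f8200801 z
 z)) (n 0 z (n 0 (n
 0xc8737e185f8207e17e081f8218208608218207e08608a07df8608208208208208208207a08208200041 z (n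
 0x30ed0e42038228617e17e08207a07df8a081f8207e07e08208a082082086081f8207e081f8208208208200801 z
 z)) (n 0 z z)))))) (n 0 (n 0 z (n 0 z (n 0 z (n 0 z (n 0 z (n 0 z z)))))) (n 0 (n 0 z (n 0 z (n
 0 z (n 0 z (n 0 z (n 0 z z)))))) z)))))))))))))))))))))))))))) (n 327 (n 0 (n 0 z (n 0 z (n 0 z
 (n 0 z (n 0 z (n 0 z z)))))) (n 0 (n 0 z (n 0 z (n 0 z (n 0 z (n 0 z (n 0 z z)))))) (n 0 (n 0 z
 (n 0 z (n 0 z (n 0 z (n 0 z (n 0 z z)))))) (n 0 (n 0 z (n 0 z (n 0 z (n 0 z (n 0 z (n 0 z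
 z)))))) (n 0 (n 0 z (n 0 z (n 0 z (n 0 z (n 0 z (n 0 z z)))))) (n 0 (n 0 z (n 0 z (n 0 z (n 0 z
 (n 0 z (n 0 z z)))))) (n 0 (n 0 z (n 0 z (n 0 z (n 0 z (n 0 z (n 0 z z)))))) (n 0 (n 0 z (n 0 z
 (n 0 z (n 0 z (n 0 z (n 0 z z)))))) (n 0 (n 0 z (n 0 z (n 0 z (n 0 z (n 0 z (n 0 z z)))))) (n 0
 (n 0 (n 8800027 z z) (n 0 (n 8786731 z z) (n 0 z (n 0 z (n 0 z (n 0 (n 8786731 z (n 7546907 z
 z)) z)))))) (n 0 (n 0 z (n 0 z (n 0 (n 8786731 z z) (n 0 z (n 0 z (n 0 (n 8786731 z (n 7546907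
 z z)) z)))))) (n 0 (n 0 z (n 0 (n 3282955 z z) (n 0 z (n 0 z (n 0 (n 3282955 z z) (n 0 z
 z)))))) (n 0 (n 0 z (n 0 (n
 0xc8727e185f8207e17e081f8218208608218207e08608a07df8608208208208208208207a08208200041 z z) (n 0
 (n 8591195 z z) (n 0 z (n 0 z (n 0 (n
 0x3d214d130a66d8429d59d7b5832d87b756a60ba49997bde2a51d21dfa20e6bf477f9d04af8a04247a56dd36664c00c1
 z (n
 0x5f214c6cc298b58428c6f8b729574619581a97c728d81968689757daea5906c7c5b7bae855289989f7cb18c676998847f69857c87787b6289766100c9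
 z z)) z)))))) (n 0 (n 0 z (n 0 (n
 0xc8727e18608207e082081f8218208608618207e08608608208218208208208208218207a08208200041 z z) (n 0
 z (n 0 (n
 0x4e4298548428f778978767a738b7f957977827b91839a7a7d9d9e7f6b836d799b9557809b8c74ab71847b836f797788767c748e756e927c0089
 z z) (n 0 (n 8591195 z z) (n 0 (n
 0x7642988484298728e7370776c907da1757182789b85a9777babaf7e5f856275a9a14081a9946dc2688778836575728d707b6d966f659c790089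
 z (n
 0x4e42985484290778978767b738a7e947877827b9283997a7d9c9e7e6b836d7a9b9556809a8d74aa70847b836f797889767d738e756f927c0089
 z z)) z)))))) (n 0 (n 0 z (n 0 z (n 0 z (n 0 z (n 0 z (n 0 z z)))))) z))))))))))))))) (n 315 (n
 0 (n 0 z (n 0 z (n 0 z (n 0 z (n 0 z (n 0 (n 8871971 z z) z)))))) (n 0 (n 0 z (n 0 (n 8786731 z
 z) (n 0 z (n 0 z (n 0 (n 8786731 z z) (n 0 z z)))))) (n 0 (n 0 z (n 0 z (n 0 z (n 0 z (n 0 z (n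
 0 z z)))))) (n 0 (n 0 z (n 0 z (n 0 (n 8786731 z z) (n 0 z (n 0 z (n 0 (n 8786731 z (n 7546907
 z z)) z)))))) (n 0 (n 0 z (n 0 z (n 0 z (n 0 z (n 0 z (n 0 z z)))))) (n 0 (n 0 z (n 0 z (n 0 z
 (n 0 z (n 0 z (n 0 z z)))))) (n 0 (n 0 z (n 0 z (n 0 (n
 0x854873001810a90a60037e281f8207e08207e082085f8208617e07e082085f8208218208208218208208208208208201001
 z (n 7680131 z z)) (n 0 (n 8787787 z (n
 0x5e43a86484293758b767479708d7e9a767581799683a1797ca3a67f65846878a19a4d81a18f70b56d857a856a77758a737c7191726b967b0089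
 z z)) (n 0 (n
 0x6243986c84293758b767479708d7e9b767583799682a0797ca3a77e66846877a19a4c80a19071b56d8579836a77758a737c7192726b97790089
 z (n
 0x1042e80a077e181f8207e08207e08208608208608207e082082082082182082086182082082081f8208200801 z
 z)) (n 0 z z)))))) z))))))) (n 129 (n 0 (n 0 z (n 0 z (n 0 z (n 0 z (n 0 z (n 0 z z)))))) (n 0
 (n 0 z (n 0 z (n 0 z (n 0 z (n 0 z (n 0 z z)))))) (n 0 (n 0 z (n 0 z (n 0 z (n 0 z (n 0 z (n 0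
 (n
 0x76274130382ea90862038208608208208208208208208208208208208208607e08208208208208208208208208208201001
 z z) z)))))) (n 0 (n 0 z (n 0 (n
 0x30a8ea82078218207e07e08207e08208607e086082082085f86081f8608208208208208208208208208200801 z
 (n 0x30a8ea82078208208208208207e08208207e082081f82082086081f8608208208208218208208208208200801
 z z)) (n 0 z (n 0 z (n 0 z (n 0 z z)))))) (n 0 (n 0 z (n 0 (n
 0x10a8a862078238207e07e08607618208a07e08617a17e082182082082186082182086081f82082081f8210801 z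
 (n 0x10a8a862078228208207e08207a18208607e08a08207e08218208208208208218208208608208208208200801
 z z)) (n 0 (n 8872203 z (n 8872203 z z)) (n 0 z (n 0 z (n 0 z z)))))) (n 0 (n 0 z (n 0 z (n 0 z
 (n 0 z (n 0 z (n 0 (n
 0x10e90e8207021cdd0c40e0421ba1881c0854540103830a90a80038218208207e08207e08208608208208208208608618208208208208208208208208208608202801
 z z) z)))))) (n 0 (n 0 z (n 0 (n
 0x10a8a862078228207e17e08207a082089f7e086082082082086082082081f8217e08218208208208207e00801 z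
 (n 0x10a8a862078228217e07e08207a18208607e08a08207e082182082082182082182082181f86086081f8210801
 z z)) (n 0 (n 8872203 z (n 8872203 z z)) (n 0 (n 8872203 z (n 8872203 z z)) (n 0 (n 8872203 z
 (n 8872203 z z)) (n 0 z z)))))) (n 0 (n 0 z (n 0 z (n 0 z (n 0 z (n 0 z (n 0 z z)))))) (n 0 (n
 0 z (n 0 z (n 0 z (n 0 z (n 0 z (n 0 (n
 0xf90a624870b179a35207657e855f8d0d5eb98634bde45f55ebee29fc637345a66a961b72465c62e690c5f0081 z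
 z) z)))))) (n 0 (n 0 z (n 0 z (n 0 z (n 0 z (n 0 z (n 0 z z)))))) (n 0 (n 0 z (n 0 z (n 0 z (n
 0 z (n 0 z (n 0 z z)))))) (n 0 (n 0 z (n 0 z (n 0 z (n 0 z (n 0 z (n 0 z z)))))) (n 0 (n 0 z (n
 0 z (n 0 z (n 0 z (n 0 z (n 0 z z)))))) (n 0 (n 0 z (n 0 z (n 0 z (n 0 z (n 0 z (n 0 (n
 0xea90862070821 z (n 0x1062ea08030821 z z)) z)))))) (n 0 (n 0 z (n 0 z (n 0 z (n 0 z (n 0 z (n
 0 (n 4261995 z z) z)))))) (n 0 (n 0 z (n 0 z (n 0 z (n 0 z (n 0 z (n 0 z z)))))) (n 0 (n 0 z (n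
 0 z (n 0 z (n 0 z (n 0 z (n 0 (n 4261995 z z) z)))))) (n 0 (n 0 z (n 0 z (n 0 z (n 0 z (n 0 z
 (n 0 z z)))))) (n 0 (n 0 z (n 0 (n
 0x1487482085f81f7e07df7df8218618618217e07e086086282082086081f8208a08e27e17a18207e00041 z z) (n
 0 (n 8591195 z z) (n 0 z (n 0 z (n 0 (n
 0x5f214c6cc298b58108c6f8b729574619581a97c728d81968689757daea5906c7c5b7bae855289989f7cb18c676998847f69857c87787b6289766100c9
 z (n
 0x5f214c6cc298b58108c6f8b729574619581a97c728d81968689757daea5906c7c5b7bae855289989f7cb18c676998847f69857c87787b6289766100c9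
 z z)) z)))))) (n 0 (n 0 z (n 0 (n
 0x148747e18608207e17a07df8618208617e07e08208618617e08208a181f82185f7e17a18618608200041 z z) (n
 0 z (n 0 z (n 0 z (n 0 z z)))))) (n 0 (n 0 z (n 0 z (n 0 z (n 0 z (n 0 z (n 0 z z))))))
 z))))))))))))))))))))) (n 3 (n 0 (n 0 z (n 0 z (n 0 z (n 0 z (n 0 z (n 0 z z)))))) (n 0 (n 0 z
 (n 0 z (n 0 z (n 0 z (n 0 z (n 0 (n 8729115 z z) z)))))) (n 0 (n 0 z (n 0 z (n 0 z (n 0 z (n 0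
 z (n 0 (n 8871971 z z) z)))))) (n 0 (n 0 z (n 0 z (n 0 z (n 0 z (n 0 z (n 0 z z)))))) (n 0 (n 0
 z (n 0 (n 8800043 z (n
 0x1243a10a1d00b0401c82081f91a42b8a055569d9d7a9cc4c79c8938a7c95be32b495b96e3e1696818c1d89d5a3ade7e80101
 z z)) (n 0 (n 8872203 z (n 8872203 z z)) (n 0 z (n 0 (n 8872203 z (n 8872203 z z)) (n 0 z
 z)))))) (n 0 (n 0 (n
 0x364210bc87193758b767379708d7e9b767482799683a1797ca3a67e66846878a19a4c80a19070b56d857a836a77748b737b7291736b967b0089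
 z (n
 0x30a2ea08038218208207e08207e08208208208218207e08608208208208208208208208208208208208200801 z
 z)) (n 0 (n 8800043 z (n
 0x3890e8000042a1d000003241000000c38207ffff68000018000147ffff17fffe67fffe07fffb87ffff67fffbb7fffc88000107fffc98000287ffffb7ffff280002b80002b7ffff08000227fffc380002d7ffff08000418000018000267fff9e8000787fff947fffb28000647fffe47ffffa80002980006980000b7fffb88000027fff657fffe980004a8000197fff9880003f7ffffb80006c7fffd680001980002d7fff3580002c0119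
 z z)) (n 0 (n 8872203 z (n 8872203 z z)) (n 0 z (n 0 z (n 0 z z)))))) (n 0 (n 0 z (n 0 z (n 0 z
 (n 0 z (n 0 z (n 0 z z)))))) z))))))) (n 1 (n 0 (n 0 z (n 0 z (n 0 z (n 0 z (n 0 z (n 0 z
 z)))))) (n 0 (n 0 z (n 0 z (n 0 z (n 0 z (n 0 z (n 0 z z)))))) (n 0 (n 0 z (n 0 z (n 0 z (n 0 z
 (n 0 z (n 0 z z)))))) (n 0 (n 0 z (n 0 z (n 0 z (n 0 z (n 0 z (n 0 z z)))))) (n 0 (n 0 z (n 0 z
 (n 0 z (n 0 z (n 0 z (n 0 z z)))))) (n 0 (n 0 z (n 0 z (n 0 z (n 0 z (n 0 z (n 0 z z)))))) (n 0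
 (n 0 z (n 0 z (n 0 z (n 0 z (n 0 z (n 0 (n 0x1086ea42070821 z (n
 0x1086ea42078208208208208208208608208208208208208608207e08208208208208208208208208208200801 z
 z)) z)))))) (n 0 (n 0 z (n 0 z (n 0 z (n 0 z (n 0 z (n 0 z z)))))) (n 0 (n 0 z (n 0 z (n 0 z (n
 0 z (n 0 z (n 0 z z)))))) z))))))))) (n 0 (n 0 (n 0 z (n 0 z (n 0 z (n 0 z (n 0 z (n 0 z
 z)))))) (n 0 (n 0 z (n 0 (n 8800043 z (n
 0x1243a10a1d00b0401c82081f91a42b8a055569d9d7a9cc4c79c8938a7c95be32b495b96e3e1696818c1d89d5a3ade7e80101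
 z z)) (n 0 (n 8872203 z (n 8872203 z z)) (n 0 z (n 0 (n 8872203 z (n 8872203 z z)) (n 0 z
 z)))))) (n 0 (n 0 (n
 0x364210bc87193758c767379708d7e9a777482799683a0797ca2a67e66836877a19b4d80a19070b56d857b826a78758a737c7192736a967b0089
 z (n
 0x30a2e608038228607e07e08207df8218208208617e081f8208208208218208208208208608208208208200801 z
 z)) (n 0 (n 8800043 z (n
 0x1c90e820a1d0164100638207b818a78736f5b7b5d638864947e7996967892619778a180944ebd4958b3727d95b5855c813174a68d4ba17eb76b8d9718970109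
 z z)) (n 0 (n 8872203 z (n 8872203 z z)) (n 0 z (n 0 z (n 0 z z)))))) (n 0 (n 0 z (n 0 z (n 0 z
 (n 0 z (n 0 z (n 0 z z)))))) (n 0 (n 0 z (n 0 z (n 0 z (n 0 z (n 0 z (n 0 z z)))))) (n 0 (n 0 z
 (n 0 (n 8800043 z (n
 0x2c90e8000036a1d0000026410800009b8217ffff88000018000107ffff37fffeb7fffe67fffc67ffff87fffc97fffd380000d7fffd48000207ffffc7ffff58000228000237ffff380001b7fffcf8000247ffff380003480000180001f7fffb18000607fffab7fffc18000517fffea7ffffb8000208000548000087fffc68000017fff857fffed80003b8000147fffad8000337ffffc8000567fffde8000148000237fff5d8000240119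
 z z)) (n 0 (n
 0x5f21cc6cc398b58428c6f8b729574619581a97c728d81968689757daea5906c7c5b7bae855289989f7cb18c676998847f69857c87787b6289766100c9
 z (n
 0x1851730401810a8e8620782082082182182082081f85f8208208607e08218207e082182086086082085f81f8208218201001
 z z)) (n 0 z (n 0 (n
 0x30e70e600782181f82082082082082085f8218608207e08617e08208218208208218208218208208208200801 z
 (n 0x6e870a420791e89f85f8217a289e71f7dea5f7e2a5e7a475da1f6e08a67667a085c76475d91f8a179e79f0801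
 z z)) (n 0 z z)))))) (n 0 (n 0 z (n 0 z (n 0 z (n 0 (n 8868883 z z) (n 0 z (n 0 z z)))))) (n 0
 (n 0 z (n 0 (n 8786731 z (n 8786731 z z)) (n 0 (n 8872203 z (n 8872203 z z)) (n 0 (n 8872203 z
 (n 8872203 z z)) (n 0 (n 8872203 z (n 8872203 z z)) (n 0 z z)))))) (n 0 (n 0 z (n 0 (n 8868907
 z (n 8868907 z z)) (n 0 z (n 0 z (n 0 z (n 0 z z)))))) (n 0 (n 0 z (n 0 z (n 0 z (n 0 (n
 0x30a8e862078218208207e08207e08208208208218208208208208208208208208208208208208208208210801 z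
 (n 0x30e50e420385c91f89b75d8636e481aa5c6267e986479a6e68e472185f75d99c92785f7e27a68a781ca1e0801
 z z)) (n 0 (n
 0xc8737e185f8207e17e081f8218208608218207e08608a07df8608208208208208208207a08208200041 z (n
 0x30e50e420385c91f89b75d8636e481aa5c6267e986479a6e68e472185f75d99c92785f7e27a68a781ca1e0801 z
 z)) (n 0 z z)))))) (n 0 (n 0 z (n 0 z (n 0 z (n 0 z (n 0 z (n 0 (n 8729115 z z) z)))))) (n 0 (n
 0 z (n 0 z (n 0 z (n 0 z (n 0 z (n 0 z z)))))) (n 0 (n 0 z (n 0 z (n 0 z (n 0 z (n 0 z (n 0 (n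
 8871971 z (n 8871971 z z)) z)))))) (n 0 (n 0 (n
 0xc8717e185f8207e17e081f8218208608218207e08608a07df8608208208208208208207a08208200041 z (n
 0x30870862037e18608207e08207e07e18608208208208208208607e08218208208208208208208208208200801 z
 z)) (n 0 z (n 0 z (n 0 z (n 0 z (n 0 z z)))))) (n 0 (n 0 z (n 0 (n 8729115 z z) (n 0 z (n 0 z
 (n 0 z (n 0 z z)))))) (n 0 (n 0 z (n 0 z (n 0 z (n 0 z (n 0 z (n 0 z z)))))) (n 0 (n 0 z (n 0 z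
 (n 0 z (n 0 (n 8729115 z z) (n 0 z (n 0 z z)))))) (n 0 (n 0 z (n 0 z (n 0 z (n 0 z (n 0 z (n 0
 z z)))))) (n 0 (n 0 z (n 0 (n
 0x1c8738218608207e17a07df8228608618217e07e08608a181f8218a081e82189f8617a17e08608200041 z z) (n
 0 z (n 0 z (n 0 (n 8787787 z z) (n 0 z z)))))) (n 0 (n 0 z (n 0 z (n 0 z (n 0 z (n 0 z (n 0 z
 z)))))) (n 0 (n 0 z (n 0 z (n 0 z (n 0 (n 8787787 z z) (n 0 (n 8787787 z z) (n 0 z z)))))) (n 0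
 (n 0 z (n 0 z (n 0 z (n 0 z (n 0 z (n 0 z z)))))) (n 0 (n 0 z (n 0 z (n 0 z (n 0 z (n 0 z (n 0
 z z)))))) (n 0 (n 0 z (n 0 z (n 0 z (n 0 z (n 0 z (n 0 z z)))))) (n 0 (n 0 z (n 0 z (n 0 z (n 0
 z (n 0 z (n 0 z z)))))) (n 0 (n 0 z (n 0 z (n 0 z (n 0 (n 8786731 z z) (n 0 z (n 0 z z)))))) (n
 0 (n 0 z (n 0 (n
 0x148748218608207e17a07df82181f8618207e07e08208a282086086081e8208608607617e081f7e00041 z (n
 8800043 z z)) (n 0 (n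
 0x1c8738218608207e17a07df8228608618217e07e08608a181f8218a081e82189f8617a17e08608200041 z (n
 0x312108e30845d810997959ada42a8767999e1ae391a7f8ce859e35ede2225b707ba99356c89f5237a371d4646d000c1
 z z)) (n 0 (n
 0x8c870997a8a7e71857d907890637b8861a27a9d6c7694a670608e6374a88f55868e907aa6638882746d88827d7c7e75997c6d89820049
 z (n
 0x3d21091308475810a159d8b9932d87a757a60ba49987bee2a4dd21dfa30a6bf47bfa1046f8e04647656dc36664c00c1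
 z z)) (n 0 (n
 0x5f21086cc210b58108c6f8b729574619581a97c728d81968689757daea5906c7c5b7bae855289989f7cb18c676998847f69857c87787b6289766100c9
 z (n 7473179 z z)) (n 0 z z)))))) (n 0 (n 0 z (n 0 z (n 0 (n 8872203 z (n 8872203 z z)) (n 0 z
 (n 0 z (n 0 z z)))))) (n 0 (n 0 z (n 0 z (n 0 z (n 0 (n
 0x30a2e608038208208208208208208208208208208207e08608208208208208208208208208208208208200801 z
 (n 0x6145cc10060000010e90e82031021 z z)) (n 0 (n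
 0xc8737e185f8207e17e081f8218208608218207e08608a07df8608208208208208208207a08208200041 z (n
 0x30e90642037e18608207e08207e182086082082082082082082082082082082082082082082081f8208200801 z
 z)) (n 0 z z)))))) z))))))))))))))))))))))))))))) z))))))))))))))))))))) z)))) z) z))))
 z))))))), by decide +kernel⟩
theorem i11274 : ∃ t, chkR KT RW t 11274 11276 = true := ⟨(n
 0xcda94584aa19ae508d8e832d75896b883714a46b1bc146d916b6584d3660ad33286516c22ccb40 (n 0x1996b (n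
 153 (n 0 z (n 2 z (n 6557747 z (n 0 z (n 0 z z))))) (n 33 (n 0 z (n 0 z (n 0 z (n 0 z (n 0 z (n
 0 z (n 0 z (n 0 z (n
 0x2ca2a408038218207e18207a17dd8a082081f8207a08a28217e17e08218207a082081e8217e08608a08210801 z
 (n 10 z (n
 0x65465430380ca6a864038608227a181f8207df8608208207e07e18a08618207e08208208218208208217a086089f8211001
 z (n 0x1a6408208207a28207608208607e089e82086089f86282379e89d81f81f7a07e07e082086085d8220041 z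
 (n 18 z (n
 0x65465430382ca6a864038df8227627df7e17df7e27e08a07e075e8608237a27e08a082282086081e7e075e8a089f8221001
 z (n
 0x65465430382ca6a864038a18207a281f79f79e8a37a181f79e8209218628227a08a48217df82081e7e17e18e08a07e11001
 z (n 0 z (n 0 z (n 4326939 z (n 6557747 z (n 0 z (n 0 z (n 0 z (n 0 z (n 0 z (n 6557747 z
 z))))))))))))))))))))))))) (n 9 (n 0 z (n 0 z (n 0 z (n 0 z (n 26 z (n 0 z (n 6496523 z (n 0 z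
 z)))))))) (n 3 (n 0 z (n
 0x2ca2a408038218207e18207df7df8607df85f81f7e18a18618607e08228207a08208208207a08a08a07e10801 z
 (n 34 z (n 0 z (n 0 z (n 0 z (n 0 z (n 0 z (n 0 z (n 0 z (n 42 z (n 0 z (n 0 z (n 0 z (n 50 z
 (n 0 z (n 0 z (n 0 z (n 0 z (n 58 z (n 6496523 z (n 0 z (n 0 z (n 0 z (n 0 z (n 0 z (n 4326971
 z (n 6496523 z (n 0 z (n
 0xca8ca84037e081e86082082082082082081f8208208218608208208208208208208208208208208208200801 z (n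
 0 z (n 0 z (n 0 z (n 0 z (n 0 z (n 0 z z)))))))))))))))))))))))))))))))))))) (n 1 (n 66 z (n 0
 z (n 74 z (n 6557747 z (n 0 z z))))) (n 0 (n 82 z (n
 0x364261030182ca886040389d7e185f7de81e8637e07e082186189e82085e89e8608217e089f7e07e28208a08227df85f1001
 z (n 90 z (n 0 z (n 0 z (n 0 z (n 0 z (n 0 z (n 0 z (n 0 z (n 98 z (n 0 z (n 0 z (n 0 z (n 0 z
 (n 0 z (n 2164315 z (n 0 z (n 0 z (n 106 z (n 0 z (n 0 z (n 114 z (n 0 z (n 0 z (n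
 0x2c86c8640379f81e8208217e08e07de7df89e8a08607e386286281f8207e28208607e07e276076385f7e30801 z
 z)))))))))))))))))))))))))) z)))))) (n 153 (n 0 (n 995 (n 0 z (n 0 z (n 0 z (n 0 z (n 0 z (n 0
 z (n 0 z (n 0 z (n 0 z (n 0 z (n 2 (n 0 z (n 2 (n 0 z (n 0 z (n 0 z (n 0 z (n 0 z (n 0 (n
 4397163 z z) z)))))) (n 1 z (n 2 (n 0 z (n 0 z (n 0 z (n 0 z (n 0 z (n 0 (n 8782363 z z)
 z)))))) (n 2 (n 0 z (n 0 z (n 0 z (n 0 z (n 0 (n 8783691 z z) (n 0 (n 724 z (n 8783691 z z))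
 z)))))) (n 2 (n 0 z (n 0 z (n 0 z (n 0 z (n 0 z (n 0 z z)))))) (n 1 z (n 2 (n 0 z (n 0 z (n 0 z
 (n 0 z (n 0 z (n 0 z z)))))) (n 2 (n 0 z (n 0 z (n 0 z (n 0 z (n 0 z (n 0 z z)))))) (n 2 (n 0 z
 (n 0 z (n 0 z (n 0 z (n 0 z (n 0 z z)))))) (n 2 (n 0 z (n 0 z (n 0 z (n 0 z (n 0 z (n 0 (n 1220
 z z) z)))))) (n 2 (n 0 z (n 0 z (n 0 z (n 0 z (n 0 z (n 0 (n 8864515 z z) z)))))) (n 2 (n 0 z
 (n 0 z (n 0 z (n 0 z (n 0 (n 8783691 z z) (n 0 (n 1220 z (n 8783691 z z)) z))))))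
 z))))))))))))) (n 0 z (n 0 z (n 0 z z)))))))))))))) (n 995 (n 0 z (n 0 z (n 0 z (n 0 z (n 0 z
 (n 0 z (n 0 z (n 0 z (n 0 z (n 0 z (n 0 z (n 0 z (n 0 z (n 0 z z)))))))))))))) (n 987 (n 0 z (n
 0 z (n 0 z (n 0 z (n 0 z z))))) (n 181 (n 0 z (n 0 z (n 0 z (n 0 z (n 0 z (n 0 z (n 0 z (n 0 z
 (n 0 z (n 0 z (n 0 z (n 0 z (n 0 z (n 0 z (n 0 z (n 0 z (n 0 z (n 0 z (n 0 z (n 0 z (n 0 z (n 0
 z z)))))))))))))))))))))) (n 181 (n 0 z (n 0 z (n 0 z (n 0 z (n 0 z (n 0 z (n 0 z (n 0 z (n 0 z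
 (n 0 z (n 0 z (n 0 z (n 0 z (n 0 z (n 0 z (n 0 z (n 0 z (n 0 z (n 0 z (n 0 z (n 0 z (n 0 z
 z)))))))))))))))))))))) (n 181 (n 0 z (n 0 z (n 0 z (n 0 z (n 0 z (n 0 z (n 0 z (n 0 z (n 0 z
 (n 0 z (n 0 z (n 0 z (n 0 z (n 0 z (n 0 z (n 0 z (n 0 z (n 0 z (n 0 z (n 0 z (n 0 z (n 0 z
 z)))))))))))))))))))))) (n 181 (n 0 z (n 0 z (n 0 z (n 0 z (n 0 z (n 0 z (n 0 z (n 0 z (n 0 z
 (n 0 z (n 0 z (n 0 z (n 0 z (n 0 z (n 0 z (n 0 z (n 2 (n 2 (n 0 z (n 0 z (n 0 z (n 0 z (n 0 z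
 (n 0 z z)))))) (n 2 (n 0 z (n 0 z (n 0 z (n 0 z (n 0 z (n 0 z z)))))) (n 2 (n 0 (n 8873235 z z)
 (n 0 z (n 0 z (n 0 z (n 0 (n 8873235 z z) (n 0 (n 8873235 z (n 8873235 z z)) z)))))) (n 2 (n 0
 z (n 0 z (n 0 z (n 0 z (n 0 z (n 0 z z)))))) (n 2 (n 0 z (n 0 z (n 0 z (n 0 z (n 0 z (n 0 z
 z)))))) (n 2 (n 0 z (n 0 z (n 0 z (n 0 (n 8782363 z z) (n 0 (n 8782363 z z) (n 0 (n 7477259 z
 (n 8782363 z z)) z)))))) (n 2 (n 0 z (n 0 z (n 0 z (n 0 z (n 0 z (n 0 z z)))))) z))))))) (n 0 z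
 (n 0 z (n 0 z (n 0 z (n 0 z z)))))))))))))))))))))) (n 309 (n 2 (n 0 z (n 2 (n 0 z (n 0 z (n 0
 z (n 0 z (n 0 z (n 0 z z)))))) (n 2 (n 0 z (n 0 z (n 0 z (n 0 z (n 0 z (n 0 z z)))))) (n 2 (n 0
 z (n 0 z (n 0 z (n 0 z (n 0 z (n 0 z z)))))) (n 2 (n 0 z (n 0 z (n 0 z (n 0 z (n 0 z (n 0 z
 z)))))) (n 2 (n 0 z (n 0 z (n 0 z (n 0 z (n 0 (n 8783691 z z) (n 0 (n 1220 z (n 8783691 z z))
 z)))))) z)))))) (n 0 z (n 0 z (n 0 z (n 0 z (n 0 z z)))))) (n 309 (n 0 z (n 0 z (n 0 z (n 0 z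
 (n 0 z (n 0 z z)))))) (n 305 (n 0 z (n 0 z (n 0 z (n 0 z (n 0 z (n 0 z (n 0 z (n 0 z z))))))))
 (n 305 (n 0 z (n 2 (n 0 z (n 0 z (n 0 z z))) (n 0 z (n 0 z (n 0 z (n 0 z (n 0 z (n 0 z
 z)))))))) (n 305 (n 0 z (n 0 z (n 0 z (n 0 z (n 2 (n 0 z (n 0 z z)) (n 0 z (n 0 z (n 0 z
 z)))))))) (n 305 (n 0 z (n 0 z (n 0 z (n 0 z (n 0 z (n 0 z (n 0 z (n 0 z z)))))))) (n 305 (n 0
 z (n 0 z (n 0 z (n 0 z (n 0 z (n 0 z (n 0 z (n 0 z z)))))))) z)))))))))))))) (n 0 (n 0 z (n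
 1015 (n 2 (n 1 z (n 1 z (n 1 z (n 2 (n 0 (n 8848971 z z) (n 0 z (n 0 (n 1572 z z) (n 0 z (n 0 z
 (n 0 (n 1572 z (n 1572 z z)) z)))))) (n 1 z (n 1 z (n 2 (n 0 z (n 0 z (n 0 z (n 0 z (n 0 z (n 0
 (n 3213435 z z) z)))))) (n 1 z (n 1 z (n 1 z (n 1 z z))))))))))) (n 0 z (n 0 z (n 0 z z)))) (n
 393 (n 0 z (n 0 z (n 0 z (n 0 z (n 0 z (n 0 z (n 0 z (n 7750403 z (n 0 z (n 0 z (n 0 z (n 0 z
 (n 0 z (n 0 z (n 0 z (n 0 z (n 0 z (n 0 z (n 0 z (n 0 z (n 0 z (n 0 z (n 0 z (n 0 z (n 0 z (n 0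
 z (n 0 z (n 0 z (n 0 z (n 0 z (n 0 z (n 0 z (n 0 z (n 0 z (n 0 z (n 0 z (n 0 z (n 0 z (n 0 z (n
 0 z (n 0 z z))))))))))))))))))))))))))))))))))))))))) (n 393 (n 0 z (n 0 z (n 0 z (n 0 z (n 0 z
 (n 0 z (n 0 z (n 0 z (n 0 z (n 0 z (n 0 z (n 0 z (n 0 z (n 0 z (n 0 z (n 0 z (n 0 z (n 0 z (n 0
 z (n 0 z (n 0 z (n 0 z (n 0 z (n 0 z (n 0 z (n 2 (n 0 z (n 0 z (n 1 z (n 1 z (n 2 (n 0 z (n 0 z
 (n 0 z (n 0 z (n 0 z (n 0 (n 8847899 z z) z)))))) (n 1 z (n 1 z (n 1 z (n 1 z z))))))))) (n 0 z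
 (n 0 z (n 0 z (n 0 z (n 0 z (n 0 z (n 0 z (n 0 z (n 0 z (n 0 z (n 0 z (n 0 z (n 0 z (n 0 z (n 0
 z z))))))))))))))))))))))))))))))))))))))))) (n 393 (n 0 z (n 0 z (n 0 z (n 0 z (n 0 z (n 0 z
 (n 0 z (n 0 z (n 0 z (n 0 z (n 0 z (n 0 z (n 0 z (n 0 z (n 0 z (n 0 z (n 0 z (n 0 z (n 0 z (n 0
 z (n 0 z (n 0 z (n 0 z (n 0 z (n 0 z (n 0 z (n 0 z (n 0 z (n 0 z (n 0 z (n 0 z (n 0 z (n 0 z (n
 0 z (n 0 z (n 0 z (n 0 z (n 0 z (n 0 z (n 0 z (n 0 z z)))))))))))))))))))))))))))))))))))))))))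
 (n 393 (n 0 z (n 0 z (n 0 z (n 0 z (n 0 z (n 0 z (n 0 z (n 0 z (n 0 z (n 0 z (n 0 z (n 0 z (n 0
 z (n 0 z (n 0 z (n 0 z (n 0 z (n 0 z (n 0 z (n 0 z (n 0 z (n 0 z (n 0 z (n 0 z (n 0 z (n 0 z (n
 0 z (n 0 z (n 0 z (n 0 z (n 0 z (n 0 z (n 0 z (n 0 z (n 0 z (n 0 z (n 0 z (n 0 z (n 0 z (n 0 z
 (n 0 z z))))))))))))))))))))))))))))))))))))))))) (n 51 (n 0 z (n 0 z (n 0 z (n 0 z (n 0 z (n 0
 z (n 0 z z))))))) (n 51 (n 0 z (n 0 z (n 0 z (n 2 (n 2 (n 0 z (n 0 z (n 0 z (n 0 z (n 0 z (n 0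
 z z)))))) (n 2 (n 0 z (n 0 z (n 0 z (n 0 z (n 0 z (n 0 (n 4052 z z) z)))))) (n 1 z (n 2 (n 0 z
 (n 0 z (n 0 z (n 0 z (n 0 z (n 0 z z)))))) (n 1 z z))))) (n 0 z (n 0 z (n 0 z z))))))) (n 1013
 (n 0 z (n 0 z (n 0 z (n 0 z (n 0 z (n 0 z (n 0 z (n 0 z (n 0 z (n 0 z (n 2 (n 0 z (n 0 z (n 0 z
 (n 0 z z)))) (n 0 z (n 0 z (n 0 z (n 0 z (n 0 z (n 0 z (n 0 z (n 0 z (n 0 z (n 0 z (n 0 z (n 0
 z (n 0 z (n 0 z (n 0 z (n 0 z (n 0 z (n 0 z z))))))))))))))))))))))))))))) (n 1013 (n 0 z (n 0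
 z (n 0 z (n 0 z (n 0 z (n 2 (n 0 z (n 0 z (n 0 z z))) (n 0 z (n 0 z (n 0 z (n 0 z (n 0 z (n 0 z
 (n 0 z (n 0 z (n 0 z (n 0 z (n 0 z (n 0 z (n 0 z (n 0 z (n 0 z (n 0 z (n 0 z (n 0 z (n 0 z (n 0
 z (n 0 z (n 0 z (n 0 z z))))))))))))))))))))))))))))) (n 1013 (n 0 z (n 0 z (n 0 z (n 0 z (n 0
 z (n 0 z (n 2 (n 0 z (n 0 z z)) (n 0 z (n 0 z (n 0 z (n 0 z (n 0 z (n 0 z (n 0 z (n 0 z (n 0 z
 (n 0 z (n 0 z (n 0 z (n 0 z (n 0 z (n 0 z (n 0 z (n 0 z (n 0 z (n 0 z (n 0 z (n 0 z (n 0 z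
 z))))))))))))))))))))))))))))) (n 1013 (n 0 z (n 0 z (n 0 z (n 0 z (n 0 z (n 0 z (n 0 z (n 0 z
 (n 0 z (n 0 z (n 0 z (n 0 z (n 0 z (n 0 z (n 0 z (n 0 z (n 0 z (n 0 z (n 0 z (n 0 z (n 0 z (n 0
 z (n 0 z (n 0 z (n 0 z (n 0 z (n 0 z (n 0 z (n 0 z z))))))))))))))))))))))))))))) (n 1013 (n 0
 z (n 0 z (n 0 z (n 0 z (n 0 z (n 0 z (n 0 z (n 0 z (n 0 z (n 0 z (n 0 z (n 0 z (n 0 z (n 0 z (n
 0 z (n 0 z (n 0 z (n 0 z (n 0 z (n 0 z (n 0 z (n 0 z (n 0 z (n 0 z (n 0 z (n 0 z (n 0 z (n 0 z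
 (n 0 z z))))))))))))))))))))))))))))) z))))))))))))) (n 0 (n 1015 (n 0 z (n 0 z (n 0 z (n 0 z
 (n 0 z (n 0 z (n 0 z (n 0 z (n 0 z (n 0 z (n 0 z (n 0 z (n 0 z (n 0 z (n 0 z (n 0 z (n 0 z (n 0
 z (n 0 z (n 0 z (n 0 z (n 0 z (n 0 z (n 0 z (n 0 z (n 0 z (n 0 z (n 0 z (n 0 z (n 0 z (n 0 z (n
 0 z z)))))))))))))))))))))))))))))))) (n 1017 (n 0 z (n 0 z (n 0 z (n 0 z (n 0 z (n 0 z (n 0 z
 (n 0 z (n 0 z (n 0 z (n 0 z (n 0 z (n 0 z (n 0 z (n 0 z (n 0 z (n 0 z (n 0 z (n 0 z (n 0 z (n 0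
 z (n 0 z (n 0 z (n 0 z (n 0 z (n 0 z (n 0 z (n 0 z (n 0 z z))))))))))))))))))))))))))))) (n
 1017 (n 0 z (n 0 z (n 0 z (n 0 z (n 0 z (n 0 z (n 0 z (n 0 z (n 0 z (n 0 z (n 0 z (n 0 z (n 0 z
 (n 0 z (n 0 z (n 0 z (n 0 z (n 0 z (n 0 z (n 0 z (n 0 z (n 0 z (n 0 z (n 0 z (n 0 z (n 0 z (n 0
 z (n 0 z (n 0 z z))))))))))))))))))))))))))))) (n 1017 (n 0 z (n 0 z (n 0 z (n 0 z (n 0 z (n 0
 z (n 0 z (n
 0xecaeca0037e082082082082082085e81f81f8207e08a08618217e08208218208208208207e08608608210801 z (n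
 0 z (n 0 z (n 0 z (n 0 z (n 0 z (n 0 z (n 0 z (n 0 z (n 0 z (n 0 z (n 0 z (n 0 z (n 0 z (n 0 z
 (n 0 z (n 0 z (n 0 z (n 0 z (n 0 z (n 0 z (n 0 z z))))))))))))))))))))))))))))) (n 1017 (n 0 z
 (n 0 z (n 0 z (n 0 z (n 0 z (n 0 z (n 0 z (n 0 z (n 0 z (n 0 z (n 0 z (n 0 z (n 0 z (n 0 z (n 0
 z (n 0 z (n 0 z (n 0 z (n 0 z (n 0 z (n 0 z (n 0 z (n 0 z (n 0 z (n 2 (n 2 (n 0 z (n 0 z (n 0 z
 (n 0 z (n 0 z (n 0 z z)))))) (n 2 (n 0 z (n 0 z (n 0 z (n 0 z (n 0 z (n 0 z z)))))) (n 2 (n 0 z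
 (n 0 z (n 0 z (n 0 z (n 0 z (n 0 z z)))))) (n 2 (n 0 z (n 0 z (n 0 z (n 0 z (n 0 z (n 0 z
 z)))))) (n 2 (n 0 (n 260 z z) (n 0 z (n 0 (n 260 z z) (n 0 z (n 0 z (n 0 (n 260 z (n 260 z z))
 z)))))) (n 2 (n 0 z (n 0 z (n 0 z (n 0 z (n 0 z (n 0 z z)))))) (n 2 (n 0 (n 260 z (n 260 z z))
 (n 0 z (n 0 (n 260 z (n 260 z z)) (n 0 (n 6428731 z (n 6428731 z z)) (n 0 z (n 0 z z))))))
 z))))))) (n 0 z (n 0 z (n 0 z (n 0 z z))))))))))))))))))))))))))))) (n 69 (n 0 z (n 2 (n 0 z (n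
 2 (n 0 z (n 0 z (n 0 z (n 0 z (n 0 z (n 0 z z)))))) (n 1 z (n 1 z (n 2 (n 0 z (n 0 z (n 0 z (n
 0 z (n 0 z (n 0 z z)))))) (n 1 z z)))))) (n 0 z (n 0 z (n 0 z (n 0 z (n 0 z (n 0 z (n 0 z (n 0
 z (n 0 z (n 0 z (n 0 z (n 0 z (n 0 z (n 0 z z)))))))))))))))) (n 69 (n 0 z (n 0 z (n 0 z (n 0 z
 (n 0 z (n 0 z (n 0 z (n 0 z (n 0 z (n 0 z (n 0 z (n 0 z (n 0 z (n 0 z (n 0 z (n 0 z
 z)))))))))))))))) (n 65 (n 0 z (n 0 z (n 0 z (n 0 z (n 0 z (n 0 z (n 0 z (n 0 z (n 0 z (n 0 z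
 (n 0 z (n 0 z (n 0 z (n 0 z (n 0 z (n 0 z (n 0 z (n 0 z (n 0 z (n 0 z (n 0 z (n 0 z (n 0 z (n 0
 z (n 0 z (n 0 z (n 0 z (n 0 z (n 0 z (n 0 z (n 0 z (n 0 z (n 0 z (n 0 z (n 0 z (n 0 z (n 0 z (n
 0 z (n 0 z (n 0 z (n 0 z (n 0 z (n 0 z (n 0 z (n 0 z (n 0 z
 z)))))))))))))))))))))))))))))))))))))))))))))) (n 65 (n 0 z (n 0 z (n 0 z (n 0 z (n 0 z (n 0 z
 (n 0 z (n 0 z (n 0 z (n 0 z (n 0 z (n 2 (n 0 z (n 0 z (n 0 z z))) (n 0 z (n 0 z (n 0 z (n 0 z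
 (n 0 z (n 0 z (n 0 z (n 0 z (n 0 z (n 0 z (n 0 z (n 0 z (n 0 z (n 0 z (n 0 z (n 0 z (n 0 z (n 0
 z (n 0 z (n 0 z (n 0 z (n 0 z (n 0 z (n 0 z (n 0 z (n 0 z (n 0 z (n 0 z (n 0 z (n 0 z (n 0 z (n
 0 z (n 0 z (n 0 z z)))))))))))))))))))))))))))))))))))))))))))))) (n 65 (n 0 z (n 0 z (n 0 z (n
 0 z (n 0 z (n 0 z (n 0 z (n 0 z (n 0 z (n 0 z (n 0 z (n 0 z (n 0 z (n 0 z (n 0 z (n 0 z (n 0 z
 (n 0 z (n 0 z (n 0 z (n 0 z (n 2 (n 0 z (n 0 z z)) (n 0 z (n 0 z (n 0 z (n 0 z (n 0 z (n 0 z (n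
 0 z (n 0 z (n 0 z (n 0 z (n 0 z (n 0 z (n 0 z (n 0 z (n 0 z (n 0 z (n 0 z (n 0 z (n 0 z (n 0 z
 (n 0 z (n 0 z (n 0 z (n 0 z z)))))))))))))))))))))))))))))))))))))))))))))) (n 65 (n 0 z (n 0 z
 (n 0 z (n 0 z (n 0 z (n 0 z (n 0 z (n 0 z (n 0 z (n 0 z (n 0 z (n 0 z (n 0 z (n 0 z (n 0 z (n 0
 z (n 0 z (n 0 z (n 0 z (n 0 z (n 0 z (n 0 z (n 0 z (n 0 z (n 0 z (n 0 z (n 0 z (n 0 z (n 0 z (n
 0 z (n 0 z (n 0 z (n 0 z (n 0 z (n 0 z (n 0 z (n 0 z (n 0 z (n 0 z (n 0 z (n 0 z (n 0 z (n 0 z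
 (n 0 z (n 0 z (n 0 z z)))))))))))))))))))))))))))))))))))))))))))))) (n 65 (n 0 z (n 0 z (n 0 z
 (n 0 z (n 0 z (n 0 z (n 0 z (n 0 z (n 0 z (n 0 z (n 0 z (n 0 z (n 0 z (n 0 z (n 0 z (n 0 z (n 0
 z (n 0 z (n 0 z (n 0 z (n 0 z (n 0 z (n 0 z (n 0 z (n 0 z (n 0 z (n 0 z (n 0 z (n 0 z (n 0 z (n
 0 z (n 0 z (n 0 z (n 0 z (n 0 z (n 0 z (n 0 z (n 0 z (n 0 z (n 0 z (n 0 z (n 0 z (n 0 z (n 0 z
 (n 0 z (n 0 z z)))))))))))))))))))))))))))))))))))))))))))))) z)))))))))))) (n 0 (n 27 (n 0 z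
 (n 0 z (n 0 z (n 0 z (n 0 z (n 0 z (n 0 z (n 0 z (n 0 z (n 0 z (n 0 z z))))))))))) (n 27 (n 0 z
 (n 0 z (n 0 z (n 0 z (n 0 z (n 0 z (n 0 z (n 0 z (n 0 z (n 0 z (n 0 z z))))))))))) (n 27 (n 0 z
 (n 0 z (n 0 z (n 0 z (n 0 z (n 0 z (n 0 z (n 0 z (n 0 z (n 0 z (n 0 z z))))))))))) (n 27 (n 0 z
 (n 0 z (n 0 z (n 0 z (n 0 z (n 2 (n 2 (n 0 z (n 0 z (n 0 z (n 0 z (n 0 z (n 0 z z)))))) (n 2 (n
 0 z (n 0 z (n 0 z (n 0 z (n 0 z (n 0 z z)))))) (n 2 (n 0 z (n 0 z (n 0 z (n 0 z (n 0 z (n 0 z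
 z)))))) (n 2 (n 0 z (n 0 z (n 0 z (n 0 z (n 0 z (n 0 z z)))))) (n 2 (n 0 (n 68 z z) (n 0 z (n 0
 (n 68 z z) (n 0 z (n 0 z (n 0 (n 68 z (n 68 z z)) z)))))) (n 2 (n 0 z (n 0 z (n 0 z (n 0 z (n 0
 z (n 0 z z)))))) (n 2 (n 0 (n 8656747 z (n 68 z z)) (n 0 z (n 0 (n 68 z (n 68 z z)) (n 0 (n
 6428731 z (n 6428731 z z)) (n 0 z (n 0 z z)))))) z))))))) (n 0 z (n 0 z (n 0 z (n 0 z (n 0 z
 z))))))))))) (n 15 (n 0 z (n 0 z (n 2 (n 0 z (n 2 (n 0 z (n 0 z (n 0 z (n 0 z (n 0 z (n 0 z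
 z)))))) (n 1 z (n 1 z (n 2 (n 0 z (n 0 z (n 0 z (n 0 z (n 0 z (n 0 z z)))))) (n 1 z z)))))) (n
 0 z (n 0 z (n 0 z (n 0 z z))))))) (n 15 (n 0 z (n 0 z (n 0 z (n 0 z (n 0 z (n 0 z (n 0 z
 z))))))) (n 17 (n 0 z (n 0 z (n 0 z (n 0 z (n 0 z (n 0 z (n 0 z (n 0 z (n 0 z (n 0 z (n 0 z (n
 0 z (n 0 z z))))))))))))) (n 17 (n 0 z (n 0 z (n 0 z (n 0 z (n 0 z (n 2 (n 0 z (n 0 z (n 0 z
 z))) (n 0 z (n 0 z (n 0 z (n 0 z (n 0 z (n 0 z (n 0 z z))))))))))))) (n 17 (n 0 z (n 0 z (n 0 z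
 (n 0 z (n 0 z (n 0 z (n 0 z (n 0 z (n 0 z (n 0 z (n 2 (n 0 z (n 0 z z)) (n 0 z (n 0 z
 z))))))))))))) (n 17 (n 0 z (n 0 z (n 0 z (n 0 z (n 0 z (n 0 z (n 0 z (n 0 z (n 0 z (n 0 z (n 0
 z (n 0 z (n 0 z z))))))))))))) (n 17 (n 0 z (n 0 z (n 0 z (n 0 z (n 0 z (n 0 z (n 0 z (n 0 z (n
 0 z (n 0 z (n 0 z (n 0 z (n 0 z z))))))))))))) z))))))))))) (n 0 (n 0 z (n 0 z (n 0 z (n 51 (n
 7750403 z (n 0 z (n 0 z (n 0 z (n 0 z (n 0 z (n 0 z (n 0 z (n 0 z (n 0 z z)))))))))) (n 51 (n 0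
 z (n 0 z (n 2 (n 2 (n 0 z (n 0 z (n 0 z (n 0 z (n 0 z (n 0 z z)))))) (n 2 (n 0 z (n 0 z (n 0 z
 (n 0 z (n 0 z (n 0 (n 5 z z) z)))))) (n 1 z (n 2 (n 0 z (n 0 z (n 0 z (n 0 z (n 0 z (n 0 z
 z)))))) (n 1 z z))))) (n 0 z (n 0 z (n 0 z (n 0 z (n 0 z (n 0 z (n 0 z z)))))))))) (n 49 (n 2
 (n 0 z (n 0 z (n 0 z (n 0 z z)))) (n 0 z (n 0 z (n 0 z (n 0 z (n 0 z (n 0 z (n 0 z (n 0 z (n 0
 z (n 0 z (n 0 z (n 0 z (n 0 z (n 0 z (n 0 z (n 0 z (n 0 z (n 0 z (n 0 z (n 0 z (n 0 z (n 0 z (n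
 0 z (n 0 z (n 0 z (n 0 z (n 0 z z)))))))))))))))))))))))))))) (n 49 (n 0 z (n 0 z (n 0 z (n 0 z
 (n 0 z (n 0 z (n 0 z (n 2 (n 0 z (n 0 z (n 0 z z))) (n 0 z (n 0 z (n 0 z (n 0 z (n 0 z (n 0 z
 (n 0 z (n 0 z (n 0 z (n 0 z (n 0 z (n 0 z (n 0 z (n 0 z (n 0 z (n 0 z (n 0 z (n 0 z (n 0 z (n 0
 z z)))))))))))))))))))))))))))) (n 49 (n 0 z (n 0 z (n 0 z (n 0 z (n 0 z (n 0 z (n 0 z (n 0 z
 (n 0 z (n 0 z (n 0 z (n 7746587 z (n 0 z (n 0 z (n 0 z (n 0 z (n 0 z (n 0 z (n 0 z (n 0 z (n 0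
 z (n 0 z (n 0 z (n 0 z (n 0 z (n 0 z (n 0 z (n 0 z z)))))))))))))))))))))))))))) (n 49 (n 0 z
 (n 0 z (n 0 z (n 0 z (n 0 z (n 0 z (n 0 z (n 0 z (n 0 z (n 0 z (n 0 z (n 0 z (n 0 z (n 0 z (n 0
 z (n 0 z (n 0 z (n 0 z (n 0 z (n 0 z (n 7750403 z (n 0 z (n 0 z (n 0 z (n 0 z (n 0 z (n 0 z (n
 0 z z)))))))))))))))))))))))))))) (n 49 (n 0 z (n 0 z (n 0 z (n 0 z (n 0 z (n 0 z (n 0 z (n 0 z
 (n 0 z (n 0 z (n 0 z (n 0 z (n 0 z (n 0 z (n 0 z (n 0 z (n 0 z (n 0 z (n 0 z (n 0 z (n 0 z (n 0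
 z (n 0 z (n 0 z (n 0 z (n 0 z (n 0 z (n 0 z z)))))))))))))))))))))))))))) z)))))))))) (n 0 (n 0
 z (n 0 z (n 57 (n 2 (n 0 z (n 2 (n 0 z (n 0 z (n 0 z (n 0 z (n 0 z (n 0 z z)))))) (n 2 (n 0 z
 (n 0 z (n 0 z (n 0 z (n 0 z (n 0 (n 20 z z) z)))))) (n 1 z (n 2 (n 0 z (n 0 z (n 0 z (n 0 z (n
 0 z (n 0 z z)))))) (n 1 z z)))))) (n 0 z (n 0 z (n 0 z (n 0 z (n 0 z (n 0 z (n 0 z (n 0 z (n 0
 z (n 0 z (n 0 z (n 0 z (n 0 z (n 0 z (n 0 z (n 0 z z))))))))))))))))) (n 57 (n 0 z (n 0 z (n 0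
 z (n 0 z (n 0 z (n 0 z (n 0 z (n 0 z (n 0 z (n 0 z (n 0 z (n 0 z (n 0 z (n 0 z (n 0 z (n 0 z (n
 0 z z))))))))))))))))) (n 5 (n 0 z (n 0 z (n 0 z (n 0 z (n 0 z (n 0 z (n 0 z (n 0 z (n 0 z (n 0
 z z)))))))))) (n 5 (n 0 z (n 0 z (n 2 (n 0 z (n 0 z (n 0 z z))) (n 0 z (n 0 z (n 0 z (n 0 z (n
 0 z (n 0 z (n 0 z z)))))))))) (n 5 (n 0 z (n 0 z (n 0 z (n 0 z (n 0 z (n 0 z (n 0 z (n 2 (n 0 z
 (n 0 z z)) (n 0 z (n 0 z z)))))))))) (n 5 (n 0 z (n 0 z (n 0 z (n 0 z (n 0 z (n 0 z (n 0 z (n 0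
 z (n 0 z (n 0 z z)))))))))) (n 5 (n 0 z (n 0 z (n 0 z (n 0 z (n 0 z (n 0 z (n 0 z (n 0 z (n 0 z
 (n 0 z z)))))))))) z))))))))) (n 0 (n 0 z (n 483 (n 0 z (n 0 z (n 0 z (n 0 z (n 0 z (n 0 z (n 0
 z (n 0 z (n 0 z (n 0 z (n 0 z (n 0 z (n 0 z (n 0 z (n 0 z (n 0 z (n 0 z (n 0 z (n 0 z (n 0 z (n
 0 z (n 0 z (n 0 z (n 0 z (n 0 z (n 0 z (n 0 z (n 0 z (n 0 z (n 0 z (n 0 z (n 0 z (n 0 z (n 0 z
 (n 0 z z))))))))))))))))))))))))))))))))))) (n 483 (n 0 z (n 0 z (n 0 z (n 0 z (n 0 z (n 0 z (n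
 0 z (n 0 z (n 0 z (n 0 z (n 0 z (n 0 z (n 0 z (n 0 z (n 0 z (n 0 z (n 0 z (n 0 z (n 0 z (n 0 z
 (n 0 z (n 0 z (n 0 z (n 0 z (n 0 z (n 0 z (n 0 z (n 0 z (n 0 z (n 0 z (n 0 z (n 0 z (n 0 z (n 0
 z (n 0 z z))))))))))))))))))))))))))))))))))) (n 5 (n 0 z (n 0 z (n 0 z (n 0 z (n 0 z (n 0 z (n
 0 z (n 0 z (n 0 z (n 0 z (n 0 z (n 0 z (n 0 z (n 0 z (n 0 z (n 0 z (n 0 z (n 0 z (n 0 z (n 0 z
 (n 0 z (n 0 z (n 0 z (n 0 z (n 0 z z))))))))))))))))))))))))) (n 5 (n 0 z (n 0 z (n 0 z (n 0 z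
 (n 0 z (n 0 z (n 0 z (n 0 z (n 0 z (n 0 z (n 0 z (n 0 z (n 0 z (n 0 z (n 0 z (n 0 z (n 0 z (n 0
 z (n 0 z (n 0 z (n 0 z (n 0 z (n 0 z (n 0 z (n 0 z z))))))))))))))))))))))))) (n 5 (n 0 z (n 0
 z (n 0 z (n 0 z (n 0 z (n 0 z (n 0 z (n 0 z (n 0 z (n 0 z (n 0 z (n 0 z (n 0 z (n 0 z (n 0 z (n
 0 z (n 0 z (n 0 z (n 0 z (n 0 z (n 0 z (n 0 z (n 0 z (n 0 z (n 0 z z)))))))))))))))))))))))))
 (n 5 (n 0 z (n 0 z (n 0 z (n 0 z (n 0 z (n 0 z (n 0 z (n 0 z (n 0 z (n 0 z (n 0 z (n 0 z (n 0 z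
 (n 0 z (n 0 z (n 0 z (n 0 z (n 0 z (n 0 z (n 0 z (n 0 z (n 0 z (n 0 z (n 0 z (n 0 z
 z))))))))))))))))))))))))) (n 5 (n 0 z (n 0 z (n 0 z (n 0 z (n 0 z (n 0 z (n 0 z (n 0 z (n 0 z
 (n 0 z (n 0 z (n 0 z (n 0 z (n 0 z (n 0 z (n 0 z (n 0 z (n 0 z (n 0 z (n 0 z (n 0 z (n 0 z (n 0
 z (n 0 z (n 2 z z))))))))))))))))))))))))) z)))))))) (n 0 (n 57 (n 0 z (n 0 z (n 0 z (n 0 z (n
 0 z (n 0 z (n 0 z (n 0 z (n 0 z (n 0 z (n 0 z (n 0 z (n 0 z (n 0 z (n 0 z (n 0 z (n 0 z (n 0 z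
 (n 0 z (n 0 z (n 0 z (n 0 z (n 0 z (n 0 z (n 0 z (n 0 z (n 0 z (n 0 z (n 0 z (n 0 z (n 0 z
 z))))))))))))))))))))))))))))))) (n 57 (n 2 (n 2 (n 0 z (n 0 z (n 0 z (n 0 z (n 0 z (n 0 z
 z)))))) (n 2 (n 0 z (n 0 z (n 0 z (n 0 z (n 0 z (n 0 z z)))))) (n 2 (n 0 z (n 0 z (n 0 z (n 0 z
 (n 0 z (n 0 z z)))))) (n 2 (n 0 z (n 0 z (n 0 z (n 0 z (n 0 z (n 0 z z)))))) (n 2 (n 0 z (n 0 z
 (n 0 z (n 0 z (n 0 z (n 0 z z)))))) z))))) (n 0 z (n 0 z (n 0 z (n 0 z (n 0 z (n 0 z (n 0 z (n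
 0 z (n 0 z (n 0 z (n 0 z (n 0 z (n 0 z (n 0 z (n 0 z (n 0 z (n 0 z (n 0 z (n 0 z (n 0 z (n 0 z
 (n 0 z (n 0 z (n 0 z (n 0 z (n 0 z (n 0 z (n 0 z (n 0 z (n 0 z z)))))))))))))))))))))))))))))))
 (n 5 (n 2 (n 0 z (n 0 z (n 0 z (n 0 z z)))) (n 0 z (n 0 z (n 0 z (n 0 z (n 0 z (n 0 z z)))))))
 (n 5 (n 0 z (n 2 (n 0 z (n 0 z (n 0 z z))) (n 0 z (n 0 z (n 0 z (n 0 z (n 0 z z))))))) (n 5 (n
 0 z (n 0 z (n 0 z (n 0 z (n 2 (n 0 z (n 0 z z)) (n 0 z (n 0 z z))))))) (n 5 (n 0 z (n 0 z (n 0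
 z (n 0 z (n 0 z (n 0 z (n 0 z z))))))) (n 5 (n 0 z (n 0 z (n 0 z (n 0 z (n 0 z (n 0 z (n 0 z
 z))))))) z))))))) (n 0 (n 0 z (n 1 (n 2 (n 0 z (n 0 z (n 0 z (n 0 z z)))) (n 0 z (n 0 z (n 0 z
 (n 0 z (n 0 z (n 0 z (n 0 z (n 0 z (n 0 z (n 0 z (n 0 z (n 0 z (n 0 z (n 0 z (n 0 z (n 0 z (n 0
 z (n 0 z (n 0 z (n 0 z (n 0 z (n 0 z (n 0 z (n 0 z (n 0 z (n 0 z (n 0 z
 z)))))))))))))))))))))))))))) (n 1 (n 0 z (n 0 z (n 0 z (n 0 z (n 0 z (n 0 z (n 0 z (n 0 z (n 0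
 z (n 0 z (n 0 z (n 0 z (n 2 (n 0 z (n 0 z (n 0 z z))) (n 0 z (n 0 z (n 0 z (n 0 z (n 0 z (n 0 z
 (n 0 z (n 0 z (n 0 z (n 0 z (n 0 z (n 0 z (n 0 z (n 0 z (n 0 z z)))))))))))))))))))))))))))) (n
 1 (n 0 z (n 0 z (n 0 z (n 0 z (n 0 z (n 0 z (n 0 z (n 0 z (n 0 z (n 0 z (n 0 z (n 0 z (n 0 z (n
 0 z (n 0 z (n 0 z (n 2 (n 0 z (n 0 z z)) (n 0 z (n 0 z (n 0 z (n 0 z (n 0 z (n 0 z (n 0 z (n 0
 z (n 0 z (n 0 z (n 0 z z)))))))))))))))))))))))))))) (n 1 (n 0 z (n 0 z (n 0 z (n 0 z (n 0 z (n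
 0 z (n 0 z (n 0 z (n 0 z (n 0 z (n 0 z (n 0 z (n 0 z (n 0 z (n 0 z (n 0 z (n 0 z (n 0 z (n 0 z
 (n 0 z (n 7750403 z (n 0 z (n 0 z (n 0 z (n 0 z (n 0 z (n 0 z (n 0 z
 z)))))))))))))))))))))))))))) (n 1 (n 0 z (n 0 z (n 0 z (n 0 z (n 0 z (n 0 z (n 0 z (n 0 z (n 0
 z (n 0 z (n 0 z (n 0 z (n 0 z (n 0 z (n 0 z (n 0 z (n 0 z (n 0 z (n 0 z (n 0 z (n 0 z (n 0 z (n
 0 z (n 0 z (n 0 z (n 0 z (n 0 z (n 0 z z)))))))))))))))))))))))))))) z)))))) (n 0 (n 1 (n 0 z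
 (n 0 z (n 0 z (n 0 z (n 0 z (n 0 z (n 0 z (n 0 z (n 0 z (n 0 z (n 0 z (n 0 z (n 0 z
 z))))))))))))) (n 1 (n 0 z (n 0 z (n 0 z (n 2 (n 0 z (n 0 z (n 0 z z))) (n 0 z (n 0 z (n 0 z (n
 0 z (n 0 z (n 0 z (n 0 z (n 0 z (n 0 z z))))))))))))) (n 1 (n 0 z (n 0 z (n 0 z (n 0 z (n 0 z
 (n 0 z (n 2 (n 0 z (n 0 z z)) (n 0 z (n 0 z (n 0 z (n 0 z (n 0 z (n 0 z z))))))))))))) (n 1 (n
 0 z (n 0 z (n 0 z (n 0 z (n 0 z (n 0 z (n 0 z (n 0 z (n 0 z (n 0 z (n 0 z (n 0 z (n 0 z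
 z))))))))))))) (n 1 (n 0 z (n 0 z (n 0 z (n 0 z (n 0 z (n 0 z (n 0 z (n 0 z (n 0 z (n 0 z (n
 0xec6ec64037e081f86082082086081e81f81f8608208608608218208208208208208208208208208208200801 z (n
 0 z (n 0 z z))))))))))))) z))))) (n 0 (n 0 z (n 0 z (n 0 z (n 0 z z)))) (n 0 (n 0 z (n 0 z (n 0
 z z))) (n 0 (n 0 z (n 0 z z)) (n 0 (n 0 z z) (n 0 z z))))))))))))))) (n 0 (n 0 z (n 1 (n 268 z
 (n 268 z (n 2 z (n 268 z (n 6496523 z (n 268 z z)))))) (n 1 (n 6557747 z (n 6557747 z (n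
 6557747 z (n 6557747 z (n 6557747 z (n 6557747 z z)))))) (n 0 z (n 0 z z))))) (n 0 (n
 0xa19ae5611b1d283714348d6328b611 (n 0 (n 0 (n 7733787 z (n 7733787 z (n 7733787 z (n 7733787 z
 (n 7733787 z (n 7733787 z z)))))) z) (n 0 (n 153 (n 0 z (n 1 (n 7733787 z (n 7733787 z (n
 7733787 z (n 7733787 z (n 7733787 z (n 7733787 z z)))))) (n 1 (n 7606323 z (n 7606323 z (n
 7606323 z (n 7606323 z (n 7606323 z (n 7606323 z z)))))) (n 0 z (n 0 z z))))) (n 521 (n 1 (n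
 260 z (n 268 z (n 268 z (n 6566003 z (n 268 z (n 268 z z)))))) (n 1 (n 7606323 z (n 7606323 z
 (n 7606323 z (n 7606323 z (n 7606323 z (n 7606323 z z)))))) (n 1 (n 7606323 z (n 7606323 z (n
 7606323 z (n 7606323 z (n 7606323 z (n 7606323 z z)))))) (n 0 z (n 0 z (n 0 z (n 0 z (n 0 z (n
 0 z (n 0 z (n 1 (n
 0x376162050182ecaa604078218607a47e075f75f8df75f85c7dd69e9e28e28228237e87a685d7e08627e0699a6089e7e11001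
 z (n 2 z (n 268 z (n 268 z (n 268 z (n 268 z z)))))) (n 0 z (n 1 (n 268 z (n 268 z (n 268 z (n
 268 z (n 268 z (n 268 z z)))))) (n 0 z z)))))))))))))) (n 543 (n 0 z (n 1 (n 76 z (n 76 z (n
 4252 z (n 7545099 z (n 4252 z (n 4252 z z)))))) (n 1 (n 7606323 z (n 7606323 z (n 7606323 z (n
 7606323 z (n 7606323 z (n 7606323 z z)))))) (n 1 (n 7545099 z (n 4396843 z (n 4396843 z (n
 4396843 z (n 4396843 z (n 4396843 z z)))))) (n 0 z z))))) (n 2 (n 1 (n 7407195 z (n 3628 z (n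
 5511019 z (n 3628 z (n 10 z (n 3628 z z)))))) (n 1 (n 7407195 z (n 3628 z (n 3628 z (n 3628 z
 (n 3628 z (n 3628 z z)))))) (n 1 (n 3628 z (n 3628 z (n 6637323 z (n 3628 z (n 3628 z (n 3628 z
 z)))))) (n 1 (n 2164571 z (n 2164571 z (n 7407195 z (n 2164571 z (n 2164571 z (n 2164571 z
 z)))))) (n 1 (n 7545099 z (n 7545099 z (n 7545099 z (n 7545099 z (n 7545099 z (n 7545099 z
 z)))))) (n 1 (n 7545099 z (n 5509235 z (n 7545099 z (n 7545099 z (n 7545099 z (n 7545099 z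
 z)))))) (n 1 (n 3628 z (n 3628 z (n 3628 z (n 5310283 z (n 3628 z (n 6620987 z z)))))) (n 1 (n
 3628 z (n 3628 z (n 3628 z (n 3628 z (n 6637339 z (n 124 z z)))))) (n 0 z (n 1 (n 4460 z (n
 3628 z (n 3628 z (n 3628 z (n 6635891 z (n 3628 z z)))))) z)))))))))) (n 1 (n 1 (n 18 z (n
 7407195 z (n 1244 z (n 6424379 z (n 1244 z (n 1244 z z)))))) (n 0 z (n 1 (n 7733787 z (n
 7733787 z (n 7733787 z (n 7733787 z (n 7733787 z (n 7733787 z z)))))) (n 1 (n 7606323 z (n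
 7606323 z (n 7606323 z (n 7606323 z (n 7606323 z (n 7606323 z z)))))) (n 0 z z))))) (n 153 (n 0
 z (n 1 (n 268 z (n 268 z (n 26 z (n 7545099 z (n 268 z (n 268 z z)))))) (n 1 (n 7606323 z (n
 7606323 z (n 7606323 z (n 7606323 z (n 7606323 z (n 7606323 z z)))))) (n 1 (n 3282779 z (n
 3282779 z (n 2164571 z (n 3282779 z (n 7545099 z (n 3282779 z z)))))) (n 1 (n 6555419 z (n 268
 z (n 7545099 z (n 34 z (n 268 z (n 268 z z)))))) (n 0 z (n 1 (n 268 z (n 7545099 z (n 4327259 z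
 (n 268 z (n 268 z (n 268 z z)))))) (n 0 z z)))))))) (n 153 (n 0 z (n 1 (n 7733787 z (n 7733787
 z (n 7733787 z (n 7733787 z (n 7545099 z (n 7733787 z z)))))) (n 1 (n 7606323 z (n 7606323 z (n
 7606323 z (n 7606323 z (n 7606323 z (n 7606323 z z)))))) (n 0 z (n 0 z z))))) z))))))) (n 0 (n
 0 (n 0 z (n 0 z (n 0 z (n 0 z (n 0 z z))))) (n 0 (n 8873235 z (n 0 z (n 0 z (n 0 z z)))) (n 0
 (n 0 z (n 0 z (n 0 z z))) (n 0 (n 0 z (n 0 z z)) (n 0 (n 0 z z) z))))) (n 0 (n 521 (n 0 (n 0 z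
 (n 0 z (n 0 z (n 0 z (n 0 z z))))) (n 0 (n 0 z (n 0 z (n 0 z (n 0 z (n 0 z z))))) (n 0 (n 0 z
 (n 0 z (n 0 z (n 0 z (n 0 z z))))) (n 0 (n 0 z (n 0 z (n 0 z (n 0 z (n 0 z z))))) (n 0 (n 0 z
 (n 0 z (n 0 (n 8654899 z (n 8654899 z z)) (n 0 z (n 0 z z))))) (n 0 (n 0 z (n 0 z (n 0 z (n 0 z
 (n 0 z z))))) (n 0 (n 0 (n 8783691 z z) (n 0 z (n 0 z (n 0 z (n 0 z z))))) (n 0 (n 0 (n
 0x10cb0c860381f8247e186185e89c89c6e791c89d71f8218a681d72779d86085f82075e7637de91d8a48210801 z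
 (n 8521531 z z)) (n 0 z (n 0 (n
 0xa8768208208208208207e08218218607e08208608618208208208208207e08207e182086081f8210041 z (n
 0x10cb0c860381f8247e186185e89c89c6e791c89d71f8218a681d72779d86085f82075e7637de91d8a48210801 z
 z)) (n 0 z (n 0 z z))))) (n 0 (n 0 (n
 0x1873852403810cb0ca6037e27dc76189e65e7248e46de89e7237e39e196286081d7a67e981f7e09237a161e9e395b6e51001
 z (n 7750531 z z)) (n 0 z (n 0 (n
 0xa8768208208208208207e08608208207e08208a086082081f81f8208208208208207e08618608200041 z (n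
 0x432431a80c0865865301830e90a46037e08197218a065c7248a47a185d6a27a1a20a6086389f8a27a082076081e8258608609e37621801
 z z)) (n 0 z (n 0 z z))))) (n 0 (n 0 z (n 0 z (n 0 z (n 0 z (n 0 z z))))) (n 0 (n 0 z (n 0 z (n
 0 z (n 0 z (n 0 z z))))) (n 0 (n 0 z (n 0 z (n 0 z (n 0 z (n 0 z z))))) (n 0 (n 0 z (n 0 z (n 0
 (n 0x90ec0a8768208207e182079e8228207a081e8218a18a18e08a381d8e17e081e7e081f8608207a091f7620081 z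
 (n 8521531 z z)) (n 0 (n 8521579 z (n 8783707 z z)) (n 0 z z))))) (n 0 (n 0 z (n 0 z (n 0 (n
 0xa8768208208218207e08208607e081f8207e086082086281f85f82081f7e07e08207e086085f7e10041 z (n
 0xa8768208208208208207e086182181f7e08608608608208208208208207e08207e17e086081f8210041 z z)) (n
 0 (n
 0x10a70a480702196148c0e0432aa1181c2876763203810a70a64037a185d72576185c65f95e791a1e8a48e28258a27a375a7db8667e47608e18a25628e499b7662801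
 z (n 8521579 z z)) (n 0 z z))))) z)))))))))))))) (n 543 (n 0 (n 0 z (n 0 z (n 0 z (n 0 z (n 0 z
 z))))) (n 0 (n 0 z (n 0 z (n 0 z (n 0 z (n 0 z z))))) (n 0 (n 0 z (n 0 z (n 0 z (n 0 z (n 0 z
 z))))) (n 0 (n 0 z (n 0 z (n 0 z (n 0 z (n 0 z z))))) (n 0 (n 0 z (n 0 z (n 0 z (n 0 z (n 0 z
 z))))) z))))) (n 531 (n 0 (n 0 z (n 0 z (n 0 z (n 0 z (n 0 z z))))) (n 0 (n 0 z (n 0 z (n 0 z
 (n 0 z (n 0 z z))))) (n 0 (n 0 z (n 0 z (n 0 z (n 0 z (n 0 z z))))) (n 0 (n 0 z (n 0 z (n 0 z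
 (n 0 z (n 0 z z))))) (n 0 (n 0 z (n 0 z (n 0 z (n 0 z (n 0 z z))))) (n 0 (n 0 z (n 0 z (n 0 z
 (n 0 z (n 0 z z))))) (n 0 (n 0 z (n 0 z (n 0 z (n 0 z (n 0 z z))))) (n 0 (n 0 z (n 0 z (n 0 z
 (n 0 z (n 0 z z))))) (n 0 (n 0 (n 8864515 z z) (n 0 z (n 0 z (n 0 z (n 0 z z))))) (n 0 (n 0 z
 (n 0 z (n 0 z (n 0 z (n 0 z z))))) (n 0 (n 0 z (n 0 z (n 0 z (n 0 z (n 0 z z))))) (n 0 (n 0 z
 (n 0 (n
 0x30e2e80a0381f81f81f82082086086082086082082082081f8207e08208208208208208208208208208200801 z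
 (n 8656747 z z)) (n 0 z (n 0 z (n 0 z z))))) (n 0 (n 0 z (n 0 z (n 0 z (n 0 z (n 0 z z))))) (n
 0 (n 0 (n 8864515 z z) (n 0 z (n 0 z (n 0 z (n 0 z z))))) (n 0 (n 0 z (n 0 z (n 0 z (n 0 z (n 0
 z z))))) (n 0 (n 0 z (n 0 z (n 0 z (n 0 z (n 0 z z))))) (n 0 (n 0 z (n 0 z (n 0 z (n 0 z (n 0 z
 z))))) (n 0 (n 0 z (n 0 z (n 0 z (n 0 z (n 0 z z))))) (n 0 (n 0 z (n 0 z (n 0 z (n 0 z (n 0 z
 z))))) (n 0 (n 0 z (n 0 z (n 0 z (n 0 z (n 0 z z))))) (n 0 (n 0 z (n 0 (n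
 0xa8748208208208208207e08208608a07e08208608608208208208608207e08207e07e08608208200041 z z) (n 0
 z (n 0 z (n 0 z z))))) (n 0 (n 0 z (n 0 z (n 0 z (n 0 z (n 0 z z))))) (n 0 (n 0 (n 8864515 z z)
 (n 0 z (n 0 (n 8864515 z z) (n 0 z (n 0 z z))))) (n 0 (n 0 z (n 0 z (n 0 z (n 0 z (n 0 z z)))))
 (n 0 (n 0 z (n 0 (n 5507195 z z) (n 0 z (n 0 z (n 0 z z))))) (n 0 (n 0 z (n 0 z (n 0 z (n 0 z
 (n 0 z z))))) (n 0 (n 0 z (n 0 z (n 0 z (n 0 z (n 0 z z))))) (n 0 (n 0 z (n 0 (n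
 0x1c8748207a07a18207de8248207a085f8228618a18e18637e18dc75d7dd76081d8e29a175f9257200041 z (n
 7735387 z z)) (n 0 z (n 0 z (n 0 z z))))) (n 0 (n 0 (n 8864515 z (n 8864515 z z)) (n 0 z (n 0
 (n 8864515 z (n 8864515 z z)) (n 0 (n 8654899 z (n 8654899 z z)) (n 0 z z))))) (n 0 (n 0 (n
 8864515 z (n 8864515 z z)) (n 0 z (n 0 (n 8864515 z (n 8864515 z z)) (n 0 z (n 0 z z))))) (n 0
 (n 0 (n
 0x3865850301830a70a600395e82082182081f6608245e082166069e8de8a882681c9a67a99208a085e72079c9a389d7221001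
 z (n 0x1a8768208207a28207608208607e089e82086089f86282379e89d81f81f7a07e07e082086085d8220041 z
 z)) (n 0 z (n 0 (n
 0xa8758208208208208207e08218208607e08208608608208208208207e08207e08207df8218208220041 z (n
 0x3865850301830a70a600395e82082182081f6608245e082166069e8de8a882681c9a67a99208a085e72079c9a389d7221001
 z z)) (n 0 z (n 0 z z))))) (n 0 (n 0 (n 8873227 z (n 7680131 z z)) (n 0 z (n 0 (n 8873227 z (n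
 8873227 z z)) (n 0 z (n 0 z z))))) z)))))))))))))))))))))))))))))))) (n 453 (n 0 (n 0 z (n 0 z
 (n 0 z (n 0 z (n 0 z z))))) (n 0 (n 0 z (n 0 z (n 0 z (n 0 z (n 0 z z))))) (n 0 (n 0 z (n 0 z
 (n 0 (n 0xa8648208208218207e08208607e081f8207e086082082281f85f81f81f7e07e082082082081f8200041 z
 z) (n 0 z (n 0 z z))))) (n 0 (n 0 z (n 0 z (n 0 (n 8455771 z (n 8455771 z z)) (n 0 z (n 0 z
 z))))) (n 0 (n 0 z (n 0 z (n 0 z (n 0 z (n 0 z z))))) (n 0 (n 0 z (n 0 z (n 0 z (n 0 z (n 0 z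
 z))))) (n 0 (n 0 (n 8455771 z (n 8783691 z z)) (n 0 z (n 0 (n 8455771 z (n 8455771 z z)) (n 0 z
 (n 0 (n 8800027 z (n 8455771 z z)) z))))) (n 0 (n 0 z (n 0 z (n 0 z (n 0 (n 8859715 z z) (n 0 z
 z))))) (n 0 (n 0 z (n 0 (n 8873235 z z) (n 0 z (n 0 z (n 0 z z))))) (n 0 (n 0 z (n 0 z (n 0 z
 (n 0 z (n 0 z z))))) (n 0 (n 0 (n 8455771 z (n 8455771 z z)) (n 0 z (n 0 z (n 0 z (n 0 z z)))))
 (n 0 (n 0 z (n 0 z (n 0 z (n 0 z (n 0 z z))))) (n 0 (n 0 z (n 0 z (n 0 z (n 0 z (n 0 z z)))))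
 (n 0 (n 0 z (n 0 z (n 0 z (n 0 z (n 0 z z))))) (n 0 (n 0 z (n 0 (n
 0x439430a80c0873621501810ecea240782181f82082082082082081f8608608608218208207e08207e082082082086082086081f8201801
 z (n 7751707 z z)) (n 0 z (n 0 z (n 0 z z))))) (n 0 (n 0 z (n 0 z (n 0 (n
 0x1a8768208208208208207e082182189f7e08208a086182081f85f8607e18208207a07e086085f8210041 z z) (n
 0 z (n 0 z z))))) (n 0 (n 0 (n
 0xa8748208208208208207e08218208607e182086086082082085f8208208208208207e08608208200041 z z) (n 0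
 (n 8873235 z (n 8873235 z z)) (n 0 z (n 0 z (n 0 z z))))) (n 0 (n 0 (n
 0x432c32900c0653653203810cb0ca2037e085e7a08607df85f86082189e7e07e18608a282181f86086086182081f7e17e08a089f8611801
 z (n 0x1a8748208207a28207608208607e089e82086089f86282379e89d81f81f7a07e07e082086085d8220041 z
 z)) (n 0 z (n 0 (n
 0x128758208208218208207e082182185f7e08208608608208208208607e17e08207e07e086081e8210041 z (n
 0x432c32900c0653653203810cb0ca2037e085e7a08607df85f86082189e7e07e18608a282181f86086086182081f7e17e08a089f8611801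
 z z)) (n 0 z (n 0 z z))))) (n 0 (n 0 (n 6637627 z (n 6637627 z z)) (n 0 z (n 0 (n 6637627 z (n
 6637627 z z)) (n 0 z (n 0 z z))))) (n 0 (n 0 (n 8782363 z (n 8782363 z z)) (n 0 z (n 0 (n
 8782363 z (n 8782363 z z)) (n 0 z (n 0 z z))))) (n 0 (n 0 (n 8782363 z (n 8782363 z z)) (n 0 z
 (n 0 (n 8782363 z (n 8782363 z z)) (n 0 z (n 0 z z))))) (n 0 (n 0 (n 8782363 z (n 8782363 z z))
 (n 0 z (n 0 z (n 0 z (n 0 (n 8782363 z (n 8782363 z z)) z))))) z)))))))))))))))))))))) (n 557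
 (n 0 (n 0 z (n 0 z (n 0 z (n 0 z (n 0 z z))))) (n 0 (n 0 z (n 0 z (n 0 z (n 0 z (n 0 z z)))))
 (n 0 (n 0 (n
 0x321430a80c0654863201830cb0ca0037a08207df82082086181c81f85f8a08218a18637e082081f8208208208207e08208608608201801
 z (n 8783691 z z)) (n 0 z (n 0 z (n 0 (n 8873219 z (n 8873219 z z)) (n 0 (n
 0x90e40a8728208207e182079e8228207a081e8218a18a18e08a381d8e17e081e7e081f8608207a091f7620081 z (n
 0x30ecec840782082082082082086082082082082082082081f8208208208608208208208208208208208200801 z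
 z)) z))))) (n 0 (n 0 z (n 0 (n 4327451 z z) (n 0 z (n 0 z (n 0 z z))))) (n 0 (n 0 z (n 0 (n
 4327451 z (n 4327451 z z)) (n 0 (n 4327451 z z) (n 0 z (n 0 (n 4327451 z z) z))))) (n 0 (n 0 z
 (n 0 z (n 0 z (n 0 z (n 0 z z))))) (n 0 (n 0 z (n 0 z (n 0 z (n 0 z (n 0 z z))))) (n 0 (n 0 z
 (n 0 z (n 0 z (n 0 z (n 0 z z))))) (n 0 (n 0 (n 8864515 z (n 8864515 z z)) (n 0 z (n 0 (n
 8864515 z (n 8864515 z z)) (n 0 (n 8800011 z (n 8455771 z z)) (n 0 z z))))) (n 0 (n 0 (n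
 8455771 z (n 8783691 z z)) (n 0 z (n 0 (n 8455771 z (n 8455771 z z)) (n 0 z (n 0 z z))))) (n 0
 (n 0 z (n 0 z (n 0 z (n 0 z (n 0 z z))))) (n 0 (n 0 z (n 0 z (n 0 z (n 0 z (n 0 z z))))) (n 0
 (n 0 z (n 0 z (n 0 z (n 0 (n 8859715 z z) (n 0 z z))))) (n 0 (n 0 z (n 0 z (n 0 (n
 0x10cb0ca4037e081e82082182082082086081f82082082186082082081f8208208208208208208208208200801 z
 (n 0x10cb0ca4037e081e86082082082082082081f8208208218608208208208208208208208208208208208200801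
 z z)) (n 0 z (n 0 (n 7678027 z (n 0xea90c64030821 z z)) z))))) (n 0 (n 0 z (n 0 z (n 0 z (n 0 z
 (n 0 z z))))) (n 0 (n 0 z (n 0 (n
 0x2ec50e2a0382082081f82082086082082086086086082181f8208208208208208208208608208208208600801 z
 (n
 0x1762871501810ed0ca40382082081f82082086082082086086086082181f8208208208208208208208608208208208601001
 z z)) (n 0 z (n 0 z (n 0 (n 8855907 z z) z))))) (n 0 (n 0 z (n 0 z (n 0 z (n 0 z (n 0 z z)))))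
 (n 0 (n 0 z (n 0 z (n 0 z (n 0 z (n 0 (n 8855907 z z) z))))) (n 0 (n 0 z (n 0 z (n 0 z (n 0 z
 (n 0 z z))))) (n 0 (n 0 (n 8455771 z z) (n 0 z (n 0 (n 8455771 z z) (n 0 z (n 0 z z))))) (n 0
 (n 0 (n
 0x8a1d8230ec1a87586281d6a486065c6a686b8dc7a06aaa288e091a8a08dc8208257607e08e27a276372295f5e400c1
 z z) (n 0 z (n 0 z (n 0 z (n 0 z z))))) (n 0 (n 0 z (n 0 z (n 0 z (n 0 z (n 0 z z))))) (n 0 (n
 0 (n 0x128768208208218208207e082182185f7e182086086082082085f8608207e081f7e18208208208210041 z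
 z) (n 0 z (n 0 (n
 0xa8768208208208218207e08218208607e08208608618207e08608607e17e07e07e08218608208200041 z z) (n 0
 z (n 0 z z))))) (n 0 (n 0 z (n 0 (n 8455771 z (n 8455771 z z)) (n 0 z (n 0 z (n 0 z z))))) (n 0
 (n 0 (n 0xa87482082082082082082082082185f7e08208608608208208608207e08208207a08208608208210041 z
 z) (n 0 (n 4327547 z (n 4327547 z z)) (n 0 z (n 0 z (n 0 z z))))) (n 0 (n 0 z (n 0 z (n 0 z (n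
 0 z (n 0 z z))))) (n 0 (n 0 z (n 0 z (n 0 (n
 0x128768208207e18217608208207a089f82082085f8a28227de85e81f7df7a08207df8208a085e8220041 z (n
 0x128768208208218208207e082182185f7e08208608608208208208607e17e08207e07e086081e8210041 z z)) (n
 0 (n 8873219 z (n 8873219 z z)) (n 0 z z))))) (n 0 (n 0 (n
 0x50eb0a840775f85a89e8a182182182085f85f7e08a18218217e17e08207df81f7e082185f8a07e17de8200801 z
 (n 0x1287482082082181f7a08208207a089f82181f8608628227de85f81f7df8208207e07e08a085d8220041 z z))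
 (n 0 z (n 0 (n
 0xa8758208208208208207e08218608607e08208608608208208208208207e08207e182082081f8210041 z (n
 0xc30b10281c3875865201810cb0a040376275a99b7608a17a77e08d57a68e3a227e17e07669159598597e27207e191f9a66a481c8df1801
 z z)) (n 0 z (n 0 z z))))) (n 0 (n 0 (n
 0x10cb0ca0037e082082082082086081e82081f8207e086086082182082082082082082082082081f8608200801 z
 (n 0x1287482086076182176082082082089f8208208608628227de85e81f8207e08207e07e086085e8210041 z z))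
 (n 0 z (n 0 (n
 0x128758208208218208207e082182185f7e08208608608208208208607e17e08207e07e086081e8210041 z (n
 0x10cb0ca0037e082082082082086081e82081f8207e086086082182082082082082082082082081f8608200801 z
 z)) (n 0 z (n 0 z z))))) z))))))))))))))))))))))))))))) (n 15 (n 0 (n 0 z (n 0 z (n 0 z (n 0 z
 (n 0 z z))))) (n 0 (n 0 z (n 0 (n 8873235 z z) (n 0 z (n 0 z (n 0 z z))))) (n 0 (n 0 z (n 0 z
 (n 0 z (n 0 z (n 0 z z))))) (n 0 (n 0 z (n 0 (n 8593675 z z) (n 0 z (n 0 z (n 0 z z))))) (n 0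
 (n 0 (n 8864515 z z) (n 0 z (n 0 (n 8864515 z z) (n 0 z (n 0 z z))))) (n 0 (n 0 z (n 0 (n
 8873235 z z) (n 0 z (n 0 z (n 0 z z))))) (n 0 (n 0 z (n 0 z (n 0 z (n 0 z (n 0 z z))))) (n 0 (n
 0 z (n 0 z (n 0 z (n 0 z (n 0 z z))))) (n 0 (n 0 z (n 0 z (n 0 z (n 0 (n 8859715 z z) (n 0 z
 z))))) (n 0 (n 0 z (n 0 z (n 0 z (n 0 z (n 0 z z))))) (n 0 (n 0 z (n 0 (n 8873235 z (n 8873235
 z z)) (n 0 z (n 0 z (n 0 (n 8855907 z z) z))))) z))))))))))) (n 155 (n 0 (n 0 z (n 0 z (n 0 z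
 (n 0 z (n 0 z z))))) (n 0 (n 0 z (n 0 z (n 0 z (n 0 z (n 0 z z))))) (n 0 (n 0 z (n 0 z (n 0 z
 (n 0 z (n 0 z z))))) (n 0 (n 0 z (n 0 z (n 0 z (n 0 z (n 0 z z))))) (n 0 (n 0 z (n 0 z (n 0 z
 (n 0 z (n 0 z z))))) (n 0 (n 0 z (n 0 z (n 0 z (n 0 z (n 0 z z))))) z)))))) (n 35 (n 0 (n 0 z
 (n 0 z (n 0 z (n 0 z (n 0 z z))))) (n 0 (n 0 z (n 0 z (n 0 z (n 0 z (n 0 z z))))) (n 0 (n 0 z
 (n 0 z (n 0 z (n 0 z (n 0 z z))))) (n 0 (n 0 z (n 0 z (n 0 z (n 0 z (n 0 z z))))) (n 0 (n 0 z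
 (n 0 z (n 0 z (n 0 z (n 0 z z))))) (n 0 (n 0 z (n 0 z (n 0 z (n 0 z (n 0 z z))))) (n 0 (n 0 z
 (n 0 z (n 0 z (n 0 z (n 0 z z))))) (n 0 (n 0 z (n 0 z (n 0 z (n 0 z (n 0 z z))))) (n 0 (n 0 z
 (n 0 z (n 0 z (n 0 z (n 0 z z))))) (n 0 (n 0 z (n 0 z (n 0 z (n 0 z (n 0 z z))))) (n 0 (n 0 z
 (n 0 z (n 0 z (n 0 z (n 0 z z))))) (n 0 (n 0 z (n 0 z (n 0 z (n 0 z (n 0 z z))))) (n 0 (n 0 z
 (n 0 z (n 0 z (n 0 z (n 0 z z))))) (n 0 (n 0 z (n 0 z (n 0 z (n 0 z (n 0 z z))))) (n 0 (n 0 z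
 (n 0 z (n 0 z (n 0 z (n 0 z z))))) (n 0 (n 0 z (n 0 z (n 0 (n 8864515 z (n 8864515 z z)) (n 0
 (n 8654899 z (n 8654899 z z)) (n 0 z z))))) z)))))))))))))))) (n 9 (n 0 (n 0 z (n 0 z (n 0 z (n
 0 z (n 0 z z))))) (n 0 (n 0 z (n 0 z (n 0 z (n 0 z (n 0 z z))))) (n 0 (n 0 z (n 0 z (n 0 z (n 0
 z (n 0 z z))))) (n 0 (n 0 z (n 0 z (n 0 z (n 0 z (n 0 z z))))) (n 0 (n 0 z (n 0 z (n 0 z (n 0 z
 (n 0 z z))))) (n 0 (n 0 z (n 0 z (n 0 z (n 0 z (n 0 z z))))) (n 0 (n 0 z (n 0 z (n 0 z (n 0 z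
 (n 0 z z))))) z))))))) (n 29 (n 0 (n 0 z (n 0 z (n 0 z (n 0 z (n 0 z z))))) (n 0 (n 0 z (n 0 z
 (n 0 z (n 0 z (n 0 z z))))) (n 0 (n 0 z (n 0 z (n 0 z (n 0 z (n 0 z z))))) (n 0 (n 0 z (n 0 (n
 8873235 z (n 8873235 z z)) (n 0 z (n 0 z (n 0 z z))))) (n 0 (n 0 z (n 0 z (n 0 z (n 0 z (n 0 z
 z))))) (n 0 (n 0 z (n 0 z (n 0 z (n 0 z (n 0 z z))))) (n 0 (n 0 z (n 0 z (n 0 z (n 0 (n 8593675
 z z) (n 0 z z))))) (n 0 (n 0 z (n 0 z (n 0 (n 8864515 z z) (n 0 z (n 0 z z))))) (n 0 (n 0 z (n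
 0 z (n 0 z (n 0 z (n 0 z z))))) (n 0 (n 0 z (n 0 z (n 0 z (n 0 z (n 0 (n 8855907 z z) z))))) (n
 0 (n 0 z (n 0 z (n 0 z (n 0 (n 8593675 z z) (n 0 z z))))) (n 0 (n 0 z (n 0 z (n 0 z (n 0 z (n 0
 z z))))) (n 0 (n 0 z (n 0 z (n 0 z (n 0 z (n 0 z z))))) (n 0 (n 0 z (n 0 z (n 0 z (n 0 z (n 0 z
 z))))) (n 0 (n 0 z (n 0 z (n 0 z (n 0 z (n 0 z z))))) (n 0 (n 0 z (n 0 z (n 0 (n
 0x30caeca20782082081f8208208208608208608208208208608208208208208218608207e08208208208200801 z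
 z) (n 0 z (n 0 z z))))) (n 0 (n 0 (n
 0x10cb0ca0037e081f86082082086081e81f81f8608208608608218208208208208208208208208208208200801 z
 z) (n 0 z (n 0 (n
 0x1876865103810cb0ca2037e081e85f82182086081e81f81f8207e08618a08208208208208208208207e08208208208201001
 z z) (n 0 z (n 0 z z))))) z))))))))))))))))) (n 153 (n 0 (n 0 z (n 0 z (n 0 z (n 0 z (n 0 z
 z))))) (n 0 (n 0 z (n 0 z (n 0 z (n 0 z (n 0 z z))))) (n 0 (n 0 z (n 0 z (n 0 z (n 0 z (n 0 z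
 z))))) (n 0 (n 0 z (n 0 z (n 0 (n 8521531 z z) (n 0 z (n 0 (n 3283035 z z) z))))) (n 0 (n 0 z
 (n 0 z (n 0 z (n 0 z (n 0 z z))))) (n 0 (n 0 z (n 0 (n 8873235 z (n 8873235 z z)) (n 0 z (n 0 z
 (n 0 z z))))) (n 0 (n 0 z (n 0 z (n 0 z (n 0 z (n 0 z z))))) (n 0 (n 0 (n
 0xa87682082082082082082086082181f8208208608208208208208208207e08207e17e08218208210041 z (n
 0x50ed0c46038618208218607df7e086195f6a07a286081f85881d9607a385e7a18a08607e082061f82281f0801 z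
 z)) (n 0 z (n 0 (n
 0x128768208208218208207e082182185f7e08208608608208208208607e17e08207e07e086081e8210041 z (n
 0x50ed0c46038618208218607df7e086195f6a07a286081f85881d9607a385e7a18a08607e082061f82281f0801 z
 z)) (n 0 z (n 0 z z))))) z)))))))) (n 33 (n 0 (n 0 z (n 0 z (n 0 z (n 0 z (n 0 z z))))) (n 0 (n
 0 z (n 0 z (n 0 z (n 0 z (n 0 z z))))) (n 0 (n 0 z (n 0 (n 4327547 z (n 4327547 z z)) (n 0 z (n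
 0 z (n 0 z z))))) (n 0 (n 0 z (n 0 z (n 0 z (n 0 z (n 0 z z))))) (n 0 (n 0 z (n 0 z (n 0 z (n 0
 z (n 0 z z))))) (n 0 (n 0 (n
 0xa8768208207e18207df8218207e081f8218608608a086281e89f7e081f7e081f86085f7e08e07a10041 z (n
 8521531 z z)) (n 0 z (n 0 z (n 0 (n 8521579 z (n 8800011 z z)) (n 0 (n
 0x1a8738208208208208207e082182189f7e08208a086182081f85f8607e18208207a07e086085f8210041 z (n
 0x10ecec64078207e08208208208a08608208208207e082085f8207e08208608208208207e08208208208200801 z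
 z)) z))))) (n 0 (n 0 z (n 0 z (n 0 z (n 0 (n
 0x1c8648207a07a18207de8248207a085f8228618a18e18637e18dc75d7dd76081d8e29a175f9257200041 z (n
 8800011 z z)) (n 0 (n
 0x1c8648207a07a18207de8248207a085f8228618a18e18637e18dc75d7dd76081d8e29a175f9257200041 z (n
 0x1c8648207a07a18207de8248207a085f8228618a18e18637e18dc75d7dd76081d8e29a175f9257200041 z z))
 z))))) (n 0 (n 0 z (n 0 z (n 0 z (n 0 z (n 0 z z))))) (n 0 (n 0 z (n 0 z (n 0 z (n 0 (n 8873219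
 z z) (n 0 z z))))) (n 0 (n 0 (n
 0x128748208208218208207e082182185f7e08208608608208208208607e17e08207e07e086081e8210041 z z) (n
 0 z (n 0 (n
 0x128768208208218208207e082182185f7e08208608608208208208607e17e08207e07e086081e8210041 z z) (n
 0 z (n 0 z z))))) (n 0 (n 0 (n
 0xa8748208208208208207e08218608607e082086086082082081f8607e08207e08207e18608608210041 z z) (n 0
 z (n 0 z (n 0 z (n 0 z z))))) (n 0 (n 0 z (n 0 z (n 0 z (n 0 z (n 0 z z))))) (n 0 (n 0 z (n 0 z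
 (n 0 z (n 0 z (n 0 z z))))) (n 0 (n 0 (n
 0x128748208208218208207e082182185f7e08208608608208208208607e17e08207e07e086081e8210041 z z) (n
 0 z (n 0 (n
 0x650ec1a84082182076385e6df7247a781d8e17268a68208208a081c8a18237df6e08e381f7618a48197220081 z
 z) (n 0 z (n 0 z z))))) (n 0 (n 0 z (n 0 (n 8656747 z (n
 0x10c50c06038208207e08207df7e08208208208608208618627e17e085f8208208208208608208a08608200801 z
 z)) (n 0 z (n 0 z (n 0 z z))))) (n 0 (n 0 z (n 0 (n 3278939 z (n 3278939 z z)) (n 0 z (n 0 z (n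
 0 z z))))) (n 0 (n 0 (n
 0x90e80a8748208207e182079e8228207a081e8218a18a18e08a381d8e17e081e7e081f8608207a091f7620081 z (n
 7747675 z z)) (n 0 z (n 0 z (n 0 z (n 0 (n
 0x128738208208208208207e08218218207e07e08a08618207e085f8208208208207e07e08618208210041 z (n
 0x10ed0c64077e081e8608208208208208208208208208208208208208208208208208208208208208208200801 z
 z)) z))))) (n 0 (n 0 z (n 0 z (n 0 z (n 0 z (n 0 z z))))) (n 0 (n 0 z (n 0 z (n 0 z (n 0 z (n 0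
 z z))))) (n 0 (n 0 z (n 0 z (n 0 z (n 0 (n
 0x10ecec640782086082082081f81f8207a189f81f8208218627e081f8208208208208208208208208608200801 z
 z) (n 0 z z))))) (n 0 (n 0 z (n 0 z (n 0 z (n 0 z (n 0 z z))))) (n 0 (n 0 z (n 0 z (n 0 z (n 0
 z (n 0 z z))))) (n 0 (n 0 z (n 0 z (n 0 z (n 0 z (n 0 z z))))) (n 0 (n 0 z (n 0 z (n 0 z (n 0 z
 (n 0 (n 8855907 z z) z))))) (n 0 (n 0 (n 8783691 z z) (n 0 z (n 0 z (n 0 z (n 0 z z))))) (n 0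
 (n 0 (n 8864515 z (n 8864515 z z)) (n 0 z (n 0 (n 8864515 z (n 8864515 z z)) (n 0 z (n 0 z
 z))))) (n 0 (n 0 (n 8864515 z (n 8864515 z z)) (n 0 z (n 0 (n 8864515 z (n 8864515 z z)) (n 0 z
 (n 0 z z))))) (n 0 (n 0 z (n 0 z (n 0 z (n 0 z (n 0 z z))))) (n 0 (n 0 z (n 0 (n
 0x187687620380ca6ca64038208218618208208218208207e082082086081f82082181f81f8207e08208208208208208201001
 z (n 7612507 z z)) (n 0 z (n 0 (n 8521579 z z) (n 0 (n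
 0x128738208208207e08207e086182185f7e182086086082082085f8207e18208207e17e18208208210041 z z)
 z))))) (n 0 (n 0 z (n 0 z (n 0 z (n 0 z (n 0 z z))))) (n 0 (n 0 z (n 0 z (n 0 z (n 0 (n 8654899
 z z) (n 0 z z))))) (n 0 (n 0 z (n 0 z (n 0 z (n 0 z (n 0 z z))))) (n 0 (n 0 (n 8654899 z (n
 8654899 z z)) (n 0 z (n 0 (n 8654899 z (n 8654899 z z)) (n 0 z (n 0 z z))))) (n 0 (n 0 z (n 0 z
 (n 0 z (n 0 z (n 0 z z))))) (n 0 (n 0 z (n 0 z (n 0 z (n 0 z (n 0 z z))))) (n 0 (n 0 z (n 0 z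
 (n 0 z (n 0 z (n 0 z z))))) (n 0 (n 0 z (n 0 z (n 0 z (n 0 z (n 0 z z))))) (n 0 (n 0 z (n 0 z
 (n 0 (n 8864515 z z) (n 0 z (n 0 z z))))) (n 0 (n 0 z (n 0 (n
 0x1a8728208208208208207e082182189f7e08208a086182081f85f8607e18208207a07e086085f8210041 z (n
 0x30e90e84078207e18208208208208a082086082082082081f8207e086082082082082082082082081f8210801 z
 z)) (n 0 z (n 0 z (n 0 z z))))) (n 0 (n 0 z (n 0 z (n 0 z (n 0 z (n 0 (n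
 0xc3b43b181c0876876201810ed0e84037e085f8208218608208608208608208208608208208208208208208208208208208208208201801
 z z) z))))) (n 0 (n 0 z (n 0 (n
 0x128768208208208208207e08218218607e08208608218207e085f81f8218208207e082186085f8210041 z (n
 0x1876874203810c70c64038207e18208208208208208208608208218608608207e082082082082082082082082085f8611001
 z z)) (n 0 z (n 0 z (n 0 z z))))) (n 0 (n 0 z (n 0 z (n 0 (n 8864515 z (n 8864515 z z)) (n 0 z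
 (n 0 z z))))) (n 0 (n 0 (n
 0xb19428a01c0864862301850c6c864038228227627dd7e391799e85e89b91b69e9a286086071f7e48a386482085f85f49eaa08db8a51801
 z (n 8521531 z z)) (n 0 z (n 0 (n
 0xa8768208208218208207e082082085f7e082086182082081f8608208217e08207e08208608208200041 z (n
 0x128768208208218208207e082182185f7e18208608608208208208607e17e08207e07e082081f8210041 z z)) (n
 0 z (n 0 (n
 0x90e40a8728208207e182079e8228207a081e8218a18a18e08a381d8e17e081e7e081f8608207a091f7620081 z (n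
 0x874872601810ed0ec0037e07df81f81f8208a085e82085f8608218618608207e08208608618208207e08208208608201001
 z z)) z))))) (n 0 (n 0 (n
 0x2862860301830c6c8640376185e8208628219d78d986291b99a79f8228a77e766491c89d7e572075b79f6de9e189b8e51001
 z (n 8521531 z z)) (n 0 z (n 0 (n
 0x1a8768208208208208207e082182189f7e08208a086182081f85f8607e18208207a07e086085f8210041 z (n
 0x2862860301830c6c8640376185e8208628219d78d986291b99a79f8228a77e766491c89d7e572075b79f6de9e189b8e51001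
 z z)) (n 0 z (n 0 z z))))) (n 0 (n 0 (n
 0x1874862301850c90c460389d7e256871e7176dbb2075699b7e185c9a5a1e7a471c81d81f7a66a085d9647618e4adc8281001
 z (n 7750531 z z)) (n 0 z (n 0 (n
 0xa8768208208208208207a08618208207e082086186082081f8208608208208207e07e082185f8200041 z (n
 0x1874862301830c90c460389d7e262671f75971ca6079991c7e185d96399e7e379d81d81f7a46a081d9247a18a4a5d8671001
 z z)) (n 0 z (n 0 z z))))) (n 0 (n 0 (n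
 0x1a8748208208208208207e082182189f7e08208a086182081f85f8607e18208207a07e086085f8210041 z (n
 0x128748208208218208207e082182185f7e08208608608208208208607e17e08207e07e086081e8210041 z z)) (n
 0 z (n 0 (n
 0x128768208208218208207e082182185f7e08208608608208208208607e17e08207e07e086081e8210041 z (n
 0x10c70864037e081f8208207e07e08207e08607e07e186086282181f85f8208218208207e07e086085f8210801 z
 z)) (n 0 z (n 0 z z))))) z)))))))))))))))))))))))))))))))))))))))))))))) (n 9 (n 0 (n 0 z (n 0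
 z (n 0 z (n 0 z (n 0 z z))))) (n 0 (n 0 z (n 0 z (n 0 z (n 0 z (n 0 z z))))) (n 0 (n 0 z (n 0 z
 (n 0 z (n 0 z (n 0 z z))))) (n 0 (n 0 z (n 0 z (n 0 z (n 0 z (n 0 z z))))) (n 0 (n 0 z (n 0 z
 (n 0 z (n 0 (n 8859715 z z) (n 0 z z))))) (n 0 (n 0 z (n 0 z (n 0 z (n 0 z (n 0 z z))))) (n 0
 (n 0 z (n 0 z (n 0 z (n 0 z (n 0 z z))))) (n 0 (n 0 z (n 0 z (n 0 z (n 0 z (n 0 z z))))) (n 0
 (n 0 z (n 0 z (n 0 z (n 0 z (n 0 z z))))) (n 0 (n 0 z (n 0 z (n 0 z (n 0 z (n 0 z z))))) (n 0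
 (n 0 z (n 0 z (n 0 z (n 0 z (n 0 z z))))) (n 0 (n 0 z (n 0 z (n 0 z (n 0 z (n 0 z z))))) (n 0
 (n 0 z (n 0 (n 8873235 z (n 8873235 z z)) (n 0 z (n 0 z (n 0 (n 8855907 z z) z)))))
 z))))))))))))) (n 3 (n 0 (n 0 (n
 0xa8748208208208208207e08208208607e18208608618207e08608608207e08207e07e08a08208200041 z z) (n 0
 (n 8873235 z (n 8873235 z z)) (n 0 z (n 0 z (n 0 z z))))) (n 0 (n 0 z (n 0 z (n 0 z (n 0 z (n 0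
 z z))))) (n 0 (n 0 z (n 0 z (n 0 z (n 0 z (n 0 z z))))) (n 0 (n 0 z (n 0 z (n 0 z (n 0 z (n 0 z
 z))))) (n 0 (n 0 z (n 0 z (n 0 z (n 0 z (n 0 z z))))) (n 0 (n 0 z (n 0 z (n 0 z (n 0 z (n 0 z
 z))))) (n 0 (n 0 z (n 0 z (n 0 z (n 0 z (n 0 z z))))) (n 0 (n 0 z (n 0 z (n 0 z (n 0 z (n 0 z
 z))))) (n 0 (n 0 z (n 0 (n 8873235 z (n 8873235 z z)) (n 0 z (n 0 z (n 0 (n 8855907 z z) z)))))
 (n 0 (n 0 z (n 0 z (n 0 z (n 0 z (n 0 z z))))) z)))))))))) (n 1 (n 0 (n 0 z (n 0 z (n 0 z (n 0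
 z (n 0 z z))))) (n 0 (n 0 z (n 0 z (n 0 z (n 0 z (n 0 z z))))) (n 0 (n 0 z (n 0 (n 8656747 z (n
 0x90ec0a8768208207e182079e8228207a081e8218a18a18e08a381d8e17e081e7e081f8608207a091f7620081 z
 z)) (n 0 z (n 0 z (n 0 z z))))) (n 0 (n 0 z (n 0 z (n 0 z (n 0 z (n 0 z z))))) (n 0 (n 0 z (n 0
 z (n 0 z (n 0 z (n 0 z z))))) (n 0 (n 0 z (n 0 z (n 0 z (n 0 z (n 0 z z))))) (n 0 (n 0 z (n 0 z
 (n 0 z (n 0 z (n 0 z z))))) (n 0 (n 0 z (n 0 z (n 0 z (n 0 z (n 0 (n 8855907 z z) z))))) (n 0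
 (n 0 z (n 0 z (n 0 z (n 0 (n 8654899 z z) (n 0 z z))))) (n 0 (n 0 z (n 0 z (n 0 z (n 0 (n
 8873219 z z) (n 0 z z))))) (n 0 (n 0 z (n 0 z (n 0 z (n 0 z (n 0 z z))))) (n 0 (n 0 (n
 0x431430180c0863763203810e70c60037a085e85f8218208a085e81e82089f8608618208617e081f85f8207e082089f86186181f8211801
 z (n 8521531 z z)) (n 0 z (n 0 (n
 0x439c10b01c1862860301810c6ec64077a17dc85e86075f82486185f7617e28a29208df86185f86181f81e8208218618e17e28607df1801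
 z (n 8521531 z z)) (n 0 (n
 0x128738208208218208207e082182185f7e08208608608208208208607e17e08207e07e086081e8210041 z (n
 8800011 z z)) (n 0 z z))))) (n 0 (n 0 (n
 0x70c50e2603021da1d88060c31bb1901c086386310182ca6ca62077a085e8df8607df8e175a79d9e099f8e17a37e68298d895d7e08226e085d89c7a18e58187e72801
 z (n 8521531 z z)) (n 0 z (n 0 (n
 0x30c50e26030618dd8c80e0431c31880c0653653103810ed0c42037e07df89f7df8a082179d8199639208df7a17e47288d591b81d7e572085f8de7e47e58188e32801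
 z (n 8521531 z z)) (n 0 (n 8873219 z (n 8873219 z z)) (n 0 z z))))) z))))))))))))) (n 153 (n 0
 (n 0 z (n 0 (n 8782363 z z) (n 0 z (n 0 z (n 0 z z))))) (n 0 (n 0 z (n 0 z (n 0 z (n 0 z (n 0 z
 z))))) (n 0 (n 0 z (n 0 z (n 0 z (n 0 z (n 0 z z))))) (n 0 (n 0 z (n 0 (n 8782363 z (n 8782363
 z z)) (n 0 (n 8782363 z z) (n 0 z (n 0 (n 8782363 z z) z))))) (n 0 (n 0 (n 8782363 z z) (n 0 (n
 7477259 z (n 8782363 z z)) (n 0 z (n 0 z (n 0 z z))))) z))))) (n 33 (n 0 (n 0 z (n 0 z (n 0 z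
 (n 0 z (n 0 z z))))) (n 0 (n 0 z (n 0 z (n 0 z (n 0 z (n 0 z z))))) (n 0 (n 0 z (n 0 z (n 0 z
 (n 0 z (n 0 z z))))) (n 0 (n 0 z (n 0 z (n 0 z (n 0 z (n 0 z z))))) (n 0 (n 0 z (n 0 z (n 0 z
 (n 0 z (n 0 z z))))) (n 0 (n 0 z (n 0 z (n 0 z (n 0 z (n 0 z z))))) (n 0 (n 0 z (n 0 z (n 0 z
 (n 0 z (n 0 z z))))) (n 0 (n 0 z (n 0 (n
 0x90e80a8748208207e182079e8228207a081e8218a18a18e08a381d8e17e081e7e081f8608207a091f7620081 z (n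
 0x2e850e2a0382082082082082082082082086086082082181f8208208208208208208208208208208208200801 z
 z)) (n 0 z (n 0 z (n 0 z z))))) (n 0 (n 0 z (n 0 z (n 0 z (n 0 z (n 0 z z))))) (n 0 (n 0 z (n 0
 z (n 0 z (n 0 z (n 0 z z))))) (n 0 (n 0 z (n 0 z (n 0 z (n 0 z (n 0 z z))))) (n 0 (n 0 z (n 0 z
 (n 0 z (n 0 z (n 0 z z))))) (n 0 (n 0 z (n 0 z (n 0 z (n 0 z (n 0 z z))))) (n 0 (n 0 z (n 0 z
 (n 0 z (n 0 z (n 0 z z))))) (n 0 (n 0 z (n 0 z (n 0 z (n 0 z (n 0 z z))))) (n 0 (n 0 z (n 0 z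
 (n 0 z (n 0 z (n 0 z z))))) (n 0 (n 0 z (n 0 z (n 0 z (n 0 z (n 0 z z))))) (n 0 (n 0 z (n 0 z
 (n 0 z (n 0 z (n 0 z z))))) (n 0 (n 0 z (n 0 z (n 0 z (n 0 z (n 0 z z))))) (n 0 (n 0 z (n 0 z
 (n 0 z (n 0 z (n 0 z z))))) (n 0 (n 0 z (n 0 z (n 0 z (n 0 z (n 0 z z))))) (n 0 (n 0 z (n 0 (n
 4327531 z (n 4327531 z z)) (n 0 (n 4327531 z z) (n 0 z (n 0 (n 4327531 z z) z))))) (n 0 (n 0 z
 (n 0 z (n 0 (n 8654899 z z) (n 0 z (n 0 z z))))) (n 0 (n 0 z (n 0 z (n 0 z (n 0 z (n 0 z z)))))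
 (n 0 (n 0 z (n 0 z (n 0 (n 8864515 z z) (n 0 z (n 0 z z))))) z))))))))))))))))))))))))) (n 9 (n
 0 (n 0 z (n 0 z (n 0 z (n 0 z (n 0 z z))))) (n 0 (n 0 z (n 0 z (n 0 z (n 0 z (n 0 z z))))) (n 0
 (n 0 z (n 0 z (n 0 z (n 0 z (n 0 z z))))) (n 0 (n 0 z (n 0 z (n 0 z (n 0 z (n 0 z z))))) (n 0
 (n 0 z (n 0 z (n 0 z (n 0 z (n 0 z z))))) (n 0 (n 0 z (n 0 z (n 0 z (n 0 z (n 0 z z))))) (n 0
 (n 0 z (n 0 (n 8593675 z z) (n 0 z (n 0 z (n 0 z z))))) (n 0 (n 0 z (n 0 z (n 0 z (n 0 z (n 0 z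
 z))))) z)))))))) (n 3 (n 0 (n 0 z (n 0 z (n 0 z (n 0 z (n 0 z z))))) (n 0 (n 0 z (n 0 z (n 0 z
 (n 0 z (n 0 z z))))) (n 0 (n 0 z (n 0 z (n 0 z (n 0 z (n 0 z z))))) (n 0 (n 0 z (n 0 z (n 0 z
 (n 0 z (n 0 z z))))) (n 0 (n 0 (n 8782363 z (n 8782363 z z)) (n 0 z (n 0 (n 8782363 z (n
 8782363 z z)) (n 0 z (n 0 z z))))) (n 0 (n 0 (n 8782363 z (n 8782363 z z)) (n 0 z (n 0 (n
 8782363 z (n 8782363 z z)) (n 0 z (n 0 z z))))) (n 0 (n 0 z (n 0 z (n 0 z (n 0 z (n 0 z z)))))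
 (n 0 (n 0 (n 8782363 z (n 8782363 z z)) (n 0 z (n 0 (n 8782363 z (n 8782363 z z)) (n 0 z (n 0 z
 z))))) (n 0 (n 0 (n 8782363 z (n 8782363 z z)) (n 0 z (n 0 z (n 0 z (n 0 z z))))) (n 0 (n 0 (n
 0xa8748208208208208207e08218208607e08208608618207e08608208207e08207e082086081f8210041 z (n
 0xc21438a80c1862741501810a90842078207df82081f7a085e81f82089f85f82082286082079e86082086086082186086086089e8611801
 z z)) (n 0 z (n 0 z (n 0 z (n 0 z z))))) (n 0 (n 0 z (n 0 z (n 0 z (n 0 z (n 0 z z))))) (n 0 (n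
 0 z (n 0 (n 4327531 z (n 4327531 z z)) (n 0 z (n 0 z (n 0 z z))))) (n 0 (n 0 z (n 0 z (n 0 z (n
 0 z (n 0 z z))))) (n 0 (n 0 (n 8782363 z (n 8782363 z z)) (n 0 z (n 0 (n 8782363 z (n 8782363 z
 z)) (n 0 z (n 0 (n 8782363 z (n 8782363 z z)) z))))) (n 0 (n 0 z (n 0 z (n 0 z (n 0 z (n 0 z
 z))))) (n 0 (n 0 z (n 0 z (n 0 z (n 0 (n 8859715 z (n 8859715 z z)) (n 0 z z))))) (n 0 (n 0 (n
 8782363 z (n 8782363 z z)) (n 0 z (n 0 (n 8782363 z (n 8782363 z z)) (n 0 z (n 0 z z))))) (n 0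
 (n 0 (n 8782363 z (n 8782363 z z)) (n 0 z (n 0 (n 8782363 z (n 8782363 z z)) (n 0 z (n 0 (n
 8782363 z (n 8782363 z z)) z))))) (n 0 (n 0 z (n 0 z (n 0 z (n 0 z (n 0 z z))))) (n 0 (n 0 z (n
 0 (n 8873235 z (n 8873235 z z)) (n 0 z (n 0 z (n 0 z z))))) (n 0 (n 0 z (n 0 z (n 0 z (n 0 z (n
 0 z z))))) (n 0 (n 0 (n 8873227 z (n 8873227 z z)) (n 0 z (n 0 z (n 0 z (n 0 z z))))) (n 0 (n 0
 z (n 0 z (n 0 (n 8864515 z z) (n 0 z (n 0 z z))))) (n 0 (n 0 z (n 0 z (n 0 (n 8864515 z z) (n 0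
 z (n 0 z z))))) (n 0 (n 0 z (n 0 (n 8593675 z (n 8593675 z z)) (n 0 z (n 0 z (n 0 z z))))) (n 0
 (n 0 z (n 0 (n 8873235 z (n 8873235 z z)) (n 0 z (n 0 z (n 0 z z))))) (n 0 (n 0 z (n 0 z (n 0 z
 (n 0 (n 8859715 z z) (n 0 z z))))) (n 0 (n 0 z (n 0 z (n 0 z (n 0 z (n 0 z z))))) (n 0 (n 0 (n
 8593675 z (n 8593675 z z)) (n 0 z (n 0 z (n 0 z (n 0 z z))))) (n 0 (n 0 z (n 0 z (n 0 z (n 0 z
 (n 0 z z))))) (n 0 (n 0 z (n 0 z (n 0 z (n 0 (n 8783707 z z) (n 0 z z))))) (n 0 (n 0 z (n 0 z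
 (n 0 z (n 0 z (n 0 z z))))) (n 0 (n 0 z (n 0 (n 8782363 z (n 8782363 z z)) (n 0 (n 8782363 z z)
 (n 0 z (n 0 (n 8782363 z z) z))))) (n 0 (n 0 z (n 0 z (n 0 (n
 0x30a50a08037a081e8608208218218208608208208208608207e28a181e7de8228207a17a186085f81f8200801 z
 z) (n 0 z (n 0 z z))))) (n 0 (n 0 z (n 0 z (n 0 (n
 0x432baa081c5865540101810a90a80037df85e66579f79b7a481a896adb9668688278a57e37618147a17e16208608635e3aa48db7241801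
 z (n 8783691 z z)) (n 0 (n 8873219 z (n 8873219 z z)) (n 0 z z))))) (n 0 (n 0 z (n 0 z (n 0 z
 (n 0 (n 8873219 z (n 8873219 z z)) (n 0 z z))))) z)))))))))))))))))))))))))))))))))))) (n 1 (n
 0 (n 0 z (n 0 z (n 0 z (n 0 z (n 0 z z))))) (n 0 (n 0 z (n 0 z (n 0 z (n 0 z (n 0 z z))))) (n 0
 (n 0 z (n 0 z (n 0 z (n 0 z (n 0 z z))))) (n 0 (n 0 z (n 0 z (n 0 z (n 0 z (n 0 z z))))) (n 0
 (n 0 z (n 0 z (n 0 z (n 0 z (n 0 z z))))) z))))) (n 0 (n 0 (n 0 z (n 0 z (n 0 z (n 0 z (n 0 z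
 z))))) (n 0 (n 0 (n 8782363 z (n 8782363 z z)) (n 0 z (n 0 z (n 0 (n 8873219 z (n 8873219 z z))
 (n 0 (n 8782363 z (n 8782363 z z)) z))))) (n 0 (n 0 z (n 0 z (n 0 z (n 0 z (n 0 z z))))) (n 0
 (n 0 z (n 0 z (n 0 z (n 0 z (n 0 z z))))) (n 0 (n 0 z (n 0 z (n 0 z (n 0 z (n 0 z z))))) (n 0
 (n 0 (n 0x128748208208218208207e082182185f7e08208608608208208208607e17e08207e07e086081e8210041
 z z) (n 0 z (n 0 z (n 0 z (n 0 z z))))) (n 0 (n 0 z (n 0 z (n 0 z (n 0 z (n 0 z z))))) (n 0 (n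
 0 (n 8782363 z (n 8782363 z z)) (n 0 z (n 0 (n 8782363 z (n 8782363 z z)) (n 0 z (n 0 z z)))))
 (n 0 (n 0 (n 8782363 z (n 8782363 z z)) (n 0 z (n 0 z (n 0 z (n 0 z z))))) (n 0 (n 0 (n 8783691
 z (n
 0xa10c03086018108608208208218207e08617a181f7e08208608618607e182082081f8607e082081f85f8617e000c1
 z z)) (n 0 z (n 0 (n 8783691 z (n
 0xa10c03086018108608208208218207e08617a181f7e08208608618607e182082081f8607e082081f85f8617e000c1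
 z z)) (n 0 z (n 0 z z))))) (n 0 (n 0 z (n 0 z (n 0 z (n 0 z (n 0 z z))))) (n 0 (n 0 z (n 0 (n
 0x30e90e82078208208208208207e08608208608608208618218207df85f8208208208208607e082081f8210801 z
 (n
 0x329b29900c0872872103830e508420782082086082082082082086082086186082181f8607e182081f7e08208607e07e07e08208201801
 z z)) (n 0 z (n 0 z (n 0 z z))))) (n 0 (n 0 (n 8782363 z (n 8782363 z z)) (n 0 z (n 0 z (n 0 z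
 (n 0 (n 8782363 z (n 8782363 z z)) z))))) (n 0 (n 0 z (n 0 z (n 0 z (n 0 z (n 0 z z))))) (n 0
 (n 0 (n
 0x30e70e64078608208208207df7e08218208a08218a182186081f81f8608208208208208208207e17df8200801 z
 (n 0x30e70e64037a08208208208a08a081c7df8de89e75f82282081d8227618237df7e086082179f9618a18210801
 z z)) (n 0 z (n 0 (n
 0x2e1ce1cc8060090e90642077f47fc7fd8048157fb7fa8008128078167fc8007df7e980f8187ec8197e17e37ee80080b7fa80c8017f57fd81a7f58017fe7fb80a7f47fd8007f87ff8078038037f48237f97f980b8107f81011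
 z (n
 0x10e70e64037e081f86082082086081e81f81f8608208608608218208208208208208208208208208208200801 z
 z)) (n 0 z (n 0 (n 4327547 z (n 4327547 z z)) z))))) (n 0 (n 0 z (n 0 z (n 0 z (n 0 z (n 0 (n
 8782363 z (n 8782363 z z)) z))))) (n 0 (n 0 z (n 0 z (n 0 (n 8521531 z z) (n 0 z (n 0 (n
 2164827 z z) z))))) (n 0 (n 0 z (n 0 z (n 0 (n
 0x10e70e64037e082082082082086081e82081f8207e086086082182082082082082082082082081f8608200801 z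
 (n 8783691 z z)) (n 0 z (n 0 (n
 0x30ece8640781f82081f82082086086082086082082082081f8207e08208208208208208208208208208200801 z
 (n 0x30ece8640782082082082082086086082086082082082085f8207e08208208208208208208208208208200801
 z z)) z))))) (n 0 (n 0 z (n 0 z (n 0 z (n 0 z (n 0 z z))))) (n 0 (n 0 z (n 0 z (n 0 z (n 0 z (n
 0 z z))))) (n 0 (n 0 (n 8521531 z z) (n 0 z (n 0 (n 8521531 z z) (n 0 z (n 0 z z))))) (n 0 (n 0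
 z (n 0 z (n 0 z (n 0 z (n 0 (n 8860699 z z) z))))) (n 0 (n 0 z (n 0 z (n 0 z (n 0 z (n 0 z
 z))))) (n 0 (n 0 (n
 0x1a8748208208208208207e082182189f7e08208a086182081f85f8607e18208207a07e086085f8210041 z (n
 0x128748208208218208207e082182185f7e08208608608208208208607e17e08207e07e086081e8210041 z z)) (n
 0 z (n 0 (n
 0x88a084022438018a8708008077fd7ff8137fe8187dd7d48157dd8088018437ed82e7d880b7d28057f77fc8407ea80c80080b8077ee7d181f85581380f7ef7d27de8007f882e7f77e07e07e78478247ff77e7fa81100d1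
 z (n
 0x30a6e864038208218208208208208208218208208208208208208208208208208208208208208208208200801 z
 z)) (n 0 z (n 0 (n 8800027 z (n
 0x187287140180ca6ca640782081f8208208208208208208208208208208208208208208208208208208208208208208601001
 z z)) z))))) (n 0 (n 0 z (n 0 z (n 0 z (n 0 z (n 0 z z))))) (n 0 (n 0 z (n 0 z (n 0 z (n 0 z (n
 0 (n
 0x10e50e28037e081f85f86082086085e82085f8208208608608208208208608208208207e08208608608200801 z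
 z) z))))) z)))))))))))))))))))))))))) z))))))))))))))))))))) z)))) z) z)))) (n
 0xd93b46a8ba32d6d1954e846c550c9d8452d458275940b4d6c1d4b64292a908ad9301945008d500 (n 0x16c9d (n
 155 (n 2 z (n 0 z (n 10 z (n 0 z (n 0 z (n 3282443 z (n 0 z (n 18 z (n 0 z z))))))))) (n 33 (n
 26 z (n 0 z (n 0 z (n 0 z (n 34 z (n 0 z (n 0 z (n 0 z (n 6496515 z (n 0 z z)))))))))) (n 51 (n
 0 z (n 0 z (n 0 z (n 6496515 z (n 42 z (n 0 z z)))))) (n 27 (n 50 z (n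
 0x2ca8ca82078a08208208208207608a47e07a27a086085f82082082182082182082081f8208208208208200801 z
 (n
 0x994d4410061329aa0080c164354010182ca884020781f7e07a07e37a06aa8207e275f7e38e285d7df89e86189e8e88618608a091e8206df7216a22001
 z (n 0 z (n 58 z (n 0 z (n 0 z (n 0 z (n 0 z (n
 0x2ca8ca82078a07e07e08208207a28a48607a27a27e281f81f75e85f7dc8dd92182381e85f85e7628208610801 z
 (n 0 z (n 0 z (n 0 z (n 0 z (n 0 z (n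
 0x2ca8ca82037a08608207e082189f79c8208de8a08dd7e182186081f85e8207e17a08607e085f85f82081f0801 z
 (n 6496515 z (n 0 z (n 0 z (n 0 z (n 0 z (n 0 z z)))))))))))))))))))))) (n 1 (n 0 z (n 66 z (n
 0 z (n 74 z (n 0 z (n 0 z (n 6554411 z (n 0 z (n 0 z (n 0 z (n 0 z z))))))))))) (n 0 (n 0 z (n
 82 z (n 0 z (n 0 z (n 0 z (n 0 z (n 0 z (n 0 z (n 0 z (n 0 z (n 0 z (n 0 z (n 0 z (n 2164315 z
 (n 0 z (n 90 z (n 0 z (n 98 z (n 0 z (n 0 z (n 0 z (n 106 z (n 0 z (n 0 z (n 114 z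
 z))))))))))))))))))))))))) z)))))) (n 51 (n 0 (n 0 z (n 0 z (n 167 (n 0 z (n 0 z (n 0 z (n 0 z
 (n 0 z (n 0 z (n 0 z (n 0 z (n 0 z (n 0 z (n 0 z (n 0 z (n 0 z (n 0 z z)))))))))))))) (n 167 (n
 0 z (n 0 z (n 0 z (n 0 z (n 0 z (n 0 z (n 0 z (n 0 z (n 0 z (n 0 z (n 0 z (n 0 z (n 0 z (n 0 z
 z)))))))))))))) (n 183 (n 0 z (n 0 z (n 0 z (n 0 z (n 0 z (n 0 z (n 0 z z))))))) (n 165 (n 0 z
 (n 0 z (n 0 z (n 0 z (n 0 z (n 0 z (n 0 z (n 0 z (n 0 z (n 0 z (n 0 z (n 0 z (n 0 z (n 0 z (n 0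
 z (n 0 z (n 0 z (n 0 z (n 0 z (n 0 z (n 0 z (n 0 z (n 0 z (n 0 z (n 0 z (n 0 z (n 0 z
 z))))))))))))))))))))))))))) (n 165 (n 0 z (n 0 z (n 0 z (n 0 z (n 0 z (n 0 z (n 0 z (n 0 z (n
 0 z (n 0 z (n 0 z (n 2 (n 1 z (n 1 z (n 1 z (n 1 z (n 1 z (n 2 (n 0 z (n 0 z (n 0 z (n 0 (n
 8873251 z (n 8873251 z z)) (n 0 z (n 0 (n 8873251 z z) z)))))) (n 2 (n 0 (n 8873251 z z) (n 0 z
 (n 0 (n 8873251 z z) (n 0 (n 8873251 z (n 8873251 z z)) (n 0 z (n 0 z z)))))) z))))))) (n 0 z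
 (n 0 z (n 0 z (n 0 z (n 0 z (n 0 z (n 0 z (n 0 z (n 0 z (n 0 z (n 0 z (n 0 z (n 0 z (n 0 z (n 0
 z z))))))))))))))))))))))))))) (n 303 (n 0 z (n 0 z (n 0 z (n 0 z (n 0 z (n 0 z (n 0 z z)))))))
 (n 303 (n 2 (n 1 z (n 1 z (n 1 z (n 2 (n 0 z (n 0 z (n 0 z (n 0 (n 8873251 z (n 8873251 z z))
 (n 0 z (n 0 (n 8873251 z z) z)))))) (n 2 (n 0 (n 8873251 z z) (n 0 z (n 0 (n 8873251 z z) (n 0
 (n 8873251 z (n 8873251 z z)) (n 0 z (n 0 z z)))))) z))))) (n 0 z (n 0 z (n 0 z (n 0 z (n 0 z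
 (n 0 z z))))))) (n 301 (n 0 z (n 0 z (n 0 z (n 2 (n 0 z (n 0 z (n 0 z (n 0 z z)))) (n 0 z (n 0
 z (n 0 z (n 0 z (n 0 z (n 0 z (n 0 z (n 0 z (n 0 z (n 0 z (n 0 z (n 0 z (n 0 z (n 0 z (n 0 z (n
 0 z (n 0 z (n 0 z (n 0 z z))))))))))))))))))))))) (n 301 (n 0 z (n 0 z (n 0 z (n 0 z (n 0 z (n
 0 z (n 0 z (n 0 z (n 0 z (n 0 z (n 0 z (n 0 z (n 0 z (n 0 z (n 0 z (n 0 z (n 0 z (n 0 z (n 0 z
 (n 0 z (n 0 z (n 0 z (n 0 z z))))))))))))))))))))))) (n 301 (n 0 z (n 0 z (n 0 z (n 0 z (n 0 z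
 (n 0 z (n 0 z (n 0 z (n 0 z (n 0 z (n 0 z (n 0 z (n 0 z (n 0 z (n 0 z (n 0 z (n 0 z (n 0 z (n 0
 z (n 0 z (n 0 z (n 0 z (n 0 z z))))))))))))))))))))))) (n 301 (n 0 z (n 0 z (n 0 z (n 0 z (n 0
 z (n 0 z (n 0 z (n 0 z (n 0 z (n 0 z (n 0 z (n 0 z (n 0 z (n 0 z (n 0 z (n 0 z (n 0 z (n 0 z (n
 0 z (n 0 z (n 0 z (n 0 z (n 0 z z))))))))))))))))))))))) (n 301 (n 0 z (n 0 z (n 0 z (n 0 z (n
 0 z (n 0 z (n 0 z (n 0 z (n 0 z (n 0 z (n 0 z (n 0 z (n 0 z (n 0 z (n 0 z (n 2 z (n 0 z (n 0 z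
 (n 0 z (n 0 z (n 0 z (n 0 z (n 0 z z))))))))))))))))))))))) z)))))))))))))) (n 0 (n 0 z (n 79
 (n 7737379 z (n 0 z (n 0 z (n 0 z (n 0 z (n 0 z (n 0 z (n 0 z (n 0 z z))))))))) (n 79 (n 0 z (n
 0 z (n 2 (n 2 (n 0 z (n 0 z (n 0 z (n 0 z (n 0 z (n 0 z z)))))) (n 1 z (n 1 z (n 1 z (n 1 z (n
 1 z (n 1 z (n 2 (n 0 z (n 0 z (n 0 z (n 0 (n 8795179 z z) (n 0 z (n 0 z z)))))) (n 2 (n 0 z (n
 0 z (n 0 z (n 0 (n 261 z z) (n 0 z (n 0 z z)))))) (n 2 (n 0 z (n 0 z (n 0 z (n 0 z (n 0 z (n 0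
 z z)))))) z)))))))))) (n 0 z (n 0 z (n 0 z (n 0 z (n 0 z (n 0 z z))))))))) (n 171 (n 0 z (n 0 z
 (n 0 z (n 0 z (n 0 z (n 0 z (n 0 z (n 0 z (n 0 z (n 0 z (n 0 z (n 0 z (n 0 z (n 0 z
 z)))))))))))))) (n 491 (n 0 z (n 0 z (n 0 z (n 0 z (n 0 z (n 7737379 z (n 0 z (n 0 z (n 0 z (n
 0 z (n 0 z (n 0 z (n 0 z (n 0 z (n 0 z (n 0 z (n 0 z (n 0 z (n 0 z (n 0 z (n 0 z (n 0 z (n 0 z
 (n 0 z (n 0 z (n 0 z z)))))))))))))))))))))))))) (n 491 (n 0 z (n 0 z (n 0 z (n 0 z (n 0 z (n 0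
 z (n 0 z (n 0 z (n 0 z (n 0 z (n 0 z (n 0 z (n 0 z (n 0 z (n 0 z (n 0 z (n 0 z (n 0 z (n 0 z (n
 0 z (n 0 z (n 0 z (n 0 z (n 0 z (n 0 z (n 0 z z)))))))))))))))))))))))))) (n 489 (n 0 z (n 0 z
 (n 0 z (n 0 z (n 7737379 z (n 0 z (n 0 z (n 0 z (n 0 z (n 0 z (n 0 z z))))))))))) (n 489 (n 0 z
 (n 0 z (n 0 z (n 0 z (n 0 z (n 0 z (n 0 z (n 0 z (n 0 z (n 0 z (n 0 z z))))))))))) (n 485 (n 0
 z (n 0 z (n 0 z (n 0 z (n 0 z (n 0 z (n 0 z (n 0 z (n 0 z (n 0 z (n 0 z (n 0 z (n 0 z (n 0 z (n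
 0 z (n 0 z (n 0 z (n 0 z (n 0 z (n 0 z (n 0 z (n 0 z z)))))))))))))))))))))) (n 485 (n 0 z (n 0
 z (n 0 z (n 0 z (n 0 z (n 0 z (n 0 z (n 0 z (n 0 z (n 0 z (n 0 z (n 0 z (n 0 z (n 0 z (n 0 z (n
 0 z (n 0 z (n 0 z (n 0 z (n 0 z (n 0 z (n 0 z z)))))))))))))))))))))) (n 485 (n 0 z (n 0 z (n 0
 z (n 0 z (n 0 z (n 0 z (n 0 z (n 0 z (n 0 z (n 0 z (n 0 z (n 0 z (n 0 z (n 0 z (n 0 z (n 0 z (n
 0 z (n 0 z (n 0 z (n 0 z (n 0 z (n 0 z z)))))))))))))))))))))) (n 485 (n 0 z (n 0 z (n 0 z (n 0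
 z (n 0 z (n 0 z (n 0 z (n 0 z (n 0 z (n 0 z (n 0 z (n 0 z (n 0 z (n 0 z (n 0 z (n 2 (n 0 z z)
 (n 0 z (n 0 z (n 0 z (n 0 z (n 0 z (n 0 z z)))))))))))))))))))))) (n 485 (n 0 z (n 0 z (n 0 z
 (n 0 z (n 0 z (n 0 z (n 0 z (n 0 z (n 0 z (n 0 z (n 0 z (n 0 z (n 0 z (n 0 z (n 0 z (n 0 z (n 0
 z (n 0 z (n 0 z (n 0 z (n 0 z (n 2 z z)))))))))))))))))))))) z))))))))))))) (n 0 (n 683 (n 0 z
 (n 0 z (n 0 z (n 0 z (n 0 z (n 0 z (n 0 z (n 0 z (n 0 z (n 0 z (n 0 z (n 0 z (n 2 (n 0 z (n 2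
 (n 0 z (n 0 z (n 0 z (n 0 z (n 0 z (n 0 z z)))))) (n 1 z (n 1 z (n 1 z (n 1 z (n 1 z (n 1 z (n
 2 (n 0 z (n 0 z (n 0 z (n 0 z (n 0 z (n 0 z z)))))) (n 2 (n 0 z (n 0 z (n 0 z (n 0 (n 2116 z z)
 (n 0 z (n 0 z z)))))) (n 2 (n 0 z (n 0 z (n 0 z (n 0 z (n 0 z (n 0 z z)))))) z))))))))))) (n 0
 z (n 0 z z))))))))))))))) (n 683 (n 0 z (n 0 z (n 0 z (n 0 z (n 0 z (n 0 z (n 0 z (n 0 z (n 0 z
 (n 0 z (n 0 z (n 0 z (n 0 z (n 0 z (n 0 z z))))))))))))))) (n 795 (n 0 z (n 0 z (n 0 z (n 0 z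
 (n 0 z (n 0 z (n 0 z (n 0 z (n 0 z (n 0 z (n 0 z (n 0 z (n 0 z (n 0 z z)))))))))))))) (n 539 (n
 0 z (n 0 z (n 0 z (n 0 z (n 0 z (n 0 z (n 2 (n 0 z (n 1 z (n 1 z (n 1 z (n 1 z (n 2 (n 0 z (n 0
 z (n 0 z (n 0 z (n 0 z (n 0 z z)))))) (n 1 z (n 2 (n 0 z (n 0 z (n 0 z (n 0 (n 8791099 z z) (n
 0 z (n 0 z z)))))) z)))))))) (n 0 z (n 0 z (n 0 z (n 0 z (n 0 z (n 0 z (n 0 z z))))))))))))))
 (n 539 (n 0 z (n 0 z (n 0 z (n 0 z (n 0 z (n 0 z (n 0 z (n 0 z (n 0 z (n 0 z (n 0 z (n 0 z (n 0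
 z (n 0 z z)))))))))))))) (n 537 (n 0 z (n 0 z (n 0 z (n 2 (n 0 z (n 2 (n 0 z (n 0 z (n 0 z (n 0
 (n 8791835 z (n 2116 z z)) (n 0 z (n 0 (n 8791835 z z) z)))))) (n 2 (n 0 z (n 0 z (n 0 z (n 0
 (n 2116 z z) (n 0 z (n 0 z z)))))) (n 2 (n 0 z (n 0 z (n 0 z (n 0 z (n 0 z (n 0 z z)))))) (n 2
 (n 0 z (n 0 z (n 0 z (n 0 z (n 0 z (n 0 z z)))))) (n 2 (n 0 z (n 0 z (n 0 z (n 0 z (n 0 z (n 0
 z z)))))) z)))))) (n 0 z (n 0 z (n 0 z (n 0 z (n 0 z (n 0 z z)))))))))) (n 537 (n 0 z (n 0 z (n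
 0 z (n 0 z (n 0 z (n 0 z (n 0 z (n 0 z (n 0 z (n 0 z z)))))))))) (n 529 (n 0 z (n 0 z (n 0 z (n
 0 z (n 0 z (n 0 z (n 0 z (n 0 z z)))))))) (n 529 (n 0 z (n 0 z (n 0 z (n 0 z (n 0 z (n 2 (n 0 z
 (n 0 z (n 0 z z))) (n 0 z (n 0 z z)))))))) (n 529 (n 0 z (n 0 z (n 0 z (n 0 z (n 0 z (n 0 z (n
 0 z (n 0 z z)))))))) (n 529 (n 0 z (n 0 z (n 0 z (n 0 z (n 0 z (n 0 z (n 0 z (n 2 (n 0 z z)
 z)))))))) (n 529 (n 0 z (n 0 z (n 0 z (n 0 z (n 0 z (n 0 z (n 0 z (n 0 z z))))))))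
 z)))))))))))) (n 0 (n 0 z (n 123 (n 0 z (n 0 z (n 0 z (n 2 (n 1 z (n 2 (n 0 z (n 0 z (n 0 z (n
 0 z (n 0 z (n 0 z z)))))) (n 1 z (n 2 (n 0 z (n 0 z (n 0 z (n 0 z (n 0 z (n 0 z z)))))) (n 2 (n
 0 z (n 0 z (n 0 z (n 0 (n 8857115 z (n 8857115 z z)) (n 0 z (n 0 (n 1924 z z) z)))))) (n 2 (n 0
 z (n 0 z (n 0 z (n 0 z (n 0 z (n 0 z z)))))) (n 2 (n 0 z (n 0 z (n 0 z (n 0 z (n 0 z (n 0 z
 z)))))) (n 2 (n 0 z (n 0 z (n 0 z (n 0 z (n 0 z (n 0 z z)))))) (n 2 (n 0 z (n 0 z (n 0 z (n 0 z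
 (n 0 z (n 0 z z)))))) z))))))))) (n 0 z (n 0 z z)))))) (n 327 (n 0 z (n 0 z (n 0 z (n 0 z (n 0
 z (n 0 z (n 0 z (n 0 z (n 0 z (n 0 z (n 0 z z))))))))))) (n 327 (n 0 z (n 0 z (n 0 z (n 0 z (n
 0 z (n 0 z (n 0 z (n 0 z (n 0 z (n 2 (n 1 z (n 1 z (n 1 z (n 1 z (n 2 (n 0 z (n 0 z (n 0 z (n 0
 (n 1924 z z) (n 0 z (n 0 z z)))))) (n 1 z (n 2 (n 0 z (n 0 z (n 0 z (n 0 z (n 0 z (n 0 z
 z)))))) z))))))) (n 0 z z))))))))))) (n 537 (n 0 z (n 0 z (n 0 z (n 0 z (n 0 z (n 0 z (n 0 z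
 z))))))) (n 537 (n 0 z (n 0 z (n 0 z (n 0 z (n 0 z (n 2 (n 1 z (n 1 z (n 2 (n 0 z (n 0 z (n 0 z
 (n 0 (n 1924 z z) (n 0 z (n 0 z z)))))) (n 1 z (n 2 (n 0 z (n 0 z (n 0 z (n 0 z (n 0 z (n 0 z
 z)))))) z))))) (n 0 z z))))))) (n 481 (n 0 z (n 0 z (n 0 z (n 0 z (n 0 z (n 0 z (n 0 z (n 0 z
 (n 0 z (n 0 z (n 0 z (n 0 z (n 0 z (n 0 z (n 0 z (n 0 z (n 0 z (n 0 z (n 0 z (n 0 z (n 0 z (n 0
 z z)))))))))))))))))))))) (n 481 (n 0 z (n 0 z (n 0 z (n 0 z (n 0 z (n 0 z (n 0 z (n 0 z (n 0 z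
 (n 0 z (n 0 z (n 0 z (n 0 z (n 0 z (n 0 z (n 0 z (n 0 z (n 2 (n 0 z (n 0 z (n 0 z z))) (n 0 z
 (n 0 z (n 0 z (n 0 z z)))))))))))))))))))))) (n 481 (n 0 z (n 0 z (n 0 z (n 0 z (n 0 z (n 0 z
 (n 0 z (n 0 z (n 0 z (n 0 z (n 0 z (n 0 z (n 0 z (n 0 z (n 0 z (n 0 z (n 0 z (n 0 z (n 0 z (n 0
 z (n 0 z (n 0 z z)))))))))))))))))))))) (n 481 (n 0 z (n 0 z (n 0 z (n 0 z (n 0 z (n 0 z (n 0 z
 (n 0 z (n 0 z (n 0 z (n 0 z (n 0 z (n 0 z (n 0 z (n 0 z (n 0 z (n 0 z (n 0 z (n 0 z (n 0 z (n 2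
 (n 0 z z) (n 0 z z)))))))))))))))))))))) (n 481 (n 0 z (n 0 z (n 0 z (n 0 z (n 0 z (n 0 z (n 0
 z (n 0 z (n 0 z (n 0 z (n 0 z (n 0 z (n 0 z (n 0 z (n 0 z (n 0 z (n 0 z (n 0 z (n 0 z (n 0 z (n
 0 z (n 2 z z)))))))))))))))))))))) z))))))))))) (n 0 (n 129 (n 0 z (n 0 z (n 0 z (n 0 z (n 0 z
 (n 0 z (n 0 z (n 0 z (n 0 z (n 0 z (n 0 z z))))))))))) (n 81 (n 0 z (n 2 (n 0 z (n 1 z (n 1 z
 (n 1 z (n 1 z (n 2 (n 0 z (n 0 z (n 0 z (n 0 z (n 0 z (n 0 z z)))))) (n 2 (n 0 z (n 0 z (n 0 z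
 (n 0 (n 260 z z) (n 0 z (n 0 z z)))))) (n 2 (n 0 z (n 0 z (n 0 z (n 0 z (n 0 z (n 0 z z))))))
 z)))))))) (n 0 z (n 0 z (n 0 z (n 0 z (n 0 z z))))))) (n 81 (n 0 z (n 0 z (n 0 z (n 0 z (n 0 z
 (n 0 z (n 0 z z))))))) (n 69 (n 0 z (n 0 z (n 2 (n 0 z (n 2 (n 0 z (n 0 z (n 0 z (n 0 (n 260 z
 (n 260 z z)) (n 0 z (n 0 (n 260 z z) z)))))) (n 2 (n 0 z (n 0 z (n 0 z (n 0 z (n 0 z (n 0 z
 z)))))) (n 2 (n 0 z (n 0 z (n 0 z (n 0 z (n 0 z (n 0 z z)))))) (n 2 (n 0 z (n 0 z (n 0 z (n 0 z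
 (n 0 z (n 0 z z)))))) (n 2 (n 0 z (n 0 z (n 0 z (n 0 z (n 0 z (n 0 z z)))))) z)))))) (n 0 z (n
 0 z (n 0 z (n 0 z (n 0 z (n 0 z (n 0 z (n 0 z (n 0 z (n 0 z z))))))))))))) (n 69 (n 0 z (n 0 z
 (n 0 z (n 0 z (n 0 z (n 0 z (n 0 z (n 0 z (n 0 z (n 0 z (n 0 z (n 0 z (n 0 z z))))))))))))) (n
 65 (n 0 z (n 0 z (n 0 z (n 0 z (n 0 z (n 0 z (n 0 z (n 0 z (n 0 z (n 0 z (n 0 z (n 0 z
 z)))))))))))) (n 65 (n 0 z (n 0 z (n 0 z (n 0 z (n 0 z (n 0 z (n 0 z (n 0 z (n 0 z (n 0 z (n 0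
 z (n 2 (n 0 z (n 0 z (n 0 z z))) z)))))))))))) (n 65 (n 0 z (n 0 z (n 0 z (n 0 z (n 0 z (n 0 z
 (n 0 z (n 0 z (n 0 z (n 0 z (n 0 z (n 0 z z)))))))))))) (n 65 (n 0 z (n 2 (n 0 z z) (n 0 z (n 0
 z (n 0 z (n 0 z (n 0 z (n 0 z (n 0 z (n 0 z (n 0 z (n 0 z z)))))))))))) (n 65 (n 0 z (n 0 z (n
 0 z (n 0 z (n 0 z (n 0 z (n 0 z (n 0 z (n 0 z (n 0 z (n 0 z (n 0 z z)))))))))))) z)))))))))) (n
 0 (n 33 (n 0 z (n 0 z (n 2 (n 0 z (n 1 z (n 2 (n 0 z (n 0 z (n 0 z (n 0 (n 3213419 z z) (n 0 z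
 (n 0 z z)))))) (n 2 (n 0 z (n 0 z (n 0 z (n 0 (n 8791835 z (n 404 z z)) (n 0 z (n 0 (n 8791835
 z z) z)))))) (n 2 (n 0 z (n 0 z (n 0 z (n 0 (n 404 z z) (n 0 z (n 0 z z)))))) (n 2 (n 0 z (n 0
 z (n 0 z (n 0 z (n 0 z (n 0 z z)))))) (n 2 (n 0 z (n 0 z (n 0 z (n 0 z (n 0 z (n 0 z z)))))) (n
 2 (n 0 z (n 0 z (n 0 z (n 0 z (n 0 z (n 0 z z)))))) z)))))))) (n 0 z (n 0 z (n 0 z (n 0 z
 z))))))) (n 33 (n 0 z (n 0 z (n 0 z (n 0 z (n 0 z (n 0 z (n 0 z z))))))) (n 21 (n 0 z (n 0 z (n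
 2 (n 0 z (n 2 (n 0 z (n 0 z (n 0 z (n 0 z (n 0 z (n 0 z z)))))) (n 2 (n 0 z (n 0 z (n 0 z (n 0
 z (n 0 z (n 0 z z)))))) (n 2 (n 0 z (n 0 z (n 0 z (n 0 z (n 0 z (n 0 z z)))))) (n 2 (n 0 z (n 0
 z (n 0 z (n 0 z (n 0 z (n 0 z z)))))) (n 2 (n 0 z (n 0 z (n 0 z (n 0 z (n 0 z (n 0 z z))))))
 z)))))) (n 0 z (n 0 z (n 0 z (n 0 z z))))))) (n 21 (n 0 z (n 0 z (n 0 z (n 0 z (n 0 z (n 0 z (n
 0 z z))))))) (n 101 (n 0 z (n 0 z (n 0 z (n 0 z (n 0 z (n 0 z (n 0 z (n 0 z (n 0 z z)))))))))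
 (n 101 (n 0 z (n 0 z (n 0 z (n 0 z (n 0 z (n 0 z (n 0 z (n 0 z (n 2 (n 0 z (n 0 z (n 0 z z)))
 z))))))))) (n 101 (n 0 z (n 0 z (n 0 z (n 0 z (n 0 z (n 0 z (n 0 z (n 0 z (n 0 z z))))))))) (n
 101 (n 0 z (n 0 z (n 0 z (n 0 z (n 2 (n 0 z z) (n 0 z (n 0 z (n 0 z (n 0 z z))))))))) (n 101 (n
 0 z (n 0 z (n 0 z (n 0 z (n 0 z (n 0 z (n 0 z (n 0 z (n 0 z z))))))))) z))))))))) (n 0 (n 0 z
 (n 483 (n 0 z (n 0 z (n 0 z (n 0 z (n 0 z (n 0 z (n 0 z (n 0 z (n 0 z (n 0 z (n 0 z (n 0 z (n 0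
 z z))))))))))))) (n 483 (n 0 z (n 2 (n 1 z (n 1 z (n 2 (n 0 z (n 0 z (n 0 z (n 0 z (n 0 z (n 0
 z z)))))) (n 1 z (n 2 (n 0 z (n 0 z (n 0 z (n 0 (n 2164859 z z) (n 0 z (n 0 z z)))))) z))))) (n
 0 z (n 0 z (n 0 z (n 0 z (n 0 z (n 0 z (n 0 z (n 0 z (n 0 z (n 0 z (n 0 z z))))))))))))) (n 481
 (n 0 z (n 0 z (n 0 z (n 0 z (n 0 z (n 0 z (n 2 (n 0 z (n 0 z (n 0 z (n 0 z z)))) (n 0 z (n 0 z
 (n 0 z (n 0 z (n 0 z (n 0 z (n 0 z (n 0 z (n 0 z (n 0 z (n 0 z (n 0 z (n 0 z (n 0 z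
 z))))))))))))))))))))) (n 481 (n 0 z (n 0 z (n 0 z (n 0 z (n 0 z (n 0 z (n 0 z (n 0 z (n 0 z (n
 0 z (n 0 z (n 0 z (n 0 z (n 0 z (n 0 z (n 0 z (n 0 z (n 0 z (n 0 z (n 0 z (n 2 (n 0 z (n 0 z (n
 0 z z))) z))))))))))))))))))))) (n 481 (n 0 z (n 0 z (n 0 z (n 0 z (n 0 z (n 0 z (n 0 z (n 0 z
 (n 0 z (n 0 z (n 0 z (n 0 z (n 0 z (n 0 z (n 0 z (n 0 z (n 0 z (n 0 z (n 0 z (n 0 z (n 0 z
 z))))))))))))))))))))) (n 481 (n 0 z (n 0 z (n 0 z (n 0 z (n 0 z (n 0 z (n 0 z (n 0 z (n 0 z (n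
 0 z (n 0 z (n 0 z (n 0 z (n 0 z (n 0 z (n 0 z (n 0 z (n 0 z (n 0 z (n 2 (n 0 z z) (n 0 z
 z))))))))))))))))))))) (n 481 (n 0 z (n 0 z (n 0 z (n 0 z (n 0 z (n 0 z (n 0 z (n 0 z (n 0 z (n
 0 z (n 0 z (n 0 z (n 0 z (n 0 z (n 0 z (n 0 z (n 0 z (n 2 z (n 0 z (n 0 z (n 0 z
 z))))))))))))))))))))) z)))))))) (n 0 (n 531 (n 0 z (n 2 (n 0 z (n 1 z (n 1 z (n 2 (n 0 z (n 0
 z (n 0 z (n 0 z (n 0 z (n 0 z z)))))) (n 2 (n 0 z (n 0 z (n 0 z (n 0 z (n 0 z (n 0 z z)))))) (n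
 2 (n 0 z (n 0 z (n 0 z (n 0 z (n 0 z (n 0 z z)))))) z)))))) (n 0 z (n 0 z (n 0 z (n 0 z (n 0 z
 (n 0 z (n 0 z (n 0 z (n 0 z (n 0 z (n 0 z (n 0 z (n 0 z (n 0 z (n 0 z (n 0 z (n 0 z (n 0 z (n 0
 z (n 0 z (n 0 z (n 0 z (n 0 z (n 0 z (n 0 z (n 0 z (n 0 z (n 0 z (n 0 z (n 0 z (n 0 z
 z))))))))))))))))))))))))))))))))) (n 531 (n 0 z (n 0 z (n 0 z (n 0 z (n 0 z (n 0 z (n 0 z (n 0
 z (n 0 z (n 0 z (n 0 z (n 0 z (n 0 z (n 0 z (n 0 z (n 0 z (n 0 z (n 0 z (n 0 z (n 0 z (n 0 z (n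
 0 z (n 0 z (n 0 z (n 0 z (n 0 z (n 0 z (n 0 z (n 0 z (n 0 z (n 0 z (n 0 z (n 0 z
 z))))))))))))))))))))))))))))))))) (n 529 (n 0 z (n 0 z (n 0 z (n 0 z (n 0 z (n 0 z (n 0 z (n 0
 z (n 0 z (n 0 z (n 0 z (n 0 z (n 0 z (n 0 z (n 0 z (n 0 z (n 0 z (n 0 z (n 0 z
 z))))))))))))))))))) (n 529 (n 0 z (n 0 z (n 0 z (n 0 z (n 0 z (n 0 z (n 0 z (n 0 z (n 0 z (n 0
 z (n 0 z (n 0 z (n 0 z (n 0 z (n 0 z (n 0 z (n 0 z (n 0 z (n 2 (n 0 z (n 0 z (n 0 z z)))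
 z))))))))))))))))))) (n 529 (n 0 z (n 0 z (n 0 z (n 0 z (n 0 z (n 0 z (n 0 z (n 0 z (n 0 z (n 0
 z (n 0 z (n 0 z (n 0 z (n 0 z (n 0 z (n 0 z (n 0 z (n 0 z (n 0 z z))))))))))))))))))) (n 529 (n
 0 z (n 0 z (n 0 z (n 0 z (n 0 z (n 0 z (n 0 z (n 0 z (n 0 z (n 0 z (n 0 z (n 0 z (n 0 z (n 0 z
 (n 0 z (n 2 (n 0 z z) (n 0 z (n 0 z (n 0 z z))))))))))))))))))) (n 529 (n 0 z (n 0 z (n 0 z (n
 0 z (n 0 z (n 0 z (n 0 z (n 0 z (n 0 z (n 0 z (n 0 z (n 0 z (n 0 z (n 0 z (n 0 z (n 0 z (n 0 z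
 (n 0 z (n 0 z z))))))))))))))))))) z))))))) (n 0 (n 0 z (n 1 (n 0 z (n 0 z (n 0 z (n 0 z (n 0 z
 (n 0 z (n 0 z (n 0 z (n 0 z (n 0 z (n 0 z (n 0 z (n 0 z (n 0 z (n 0 z (n 0 z (n 0 z (n 0 z (n 0
 z (n 0 z (n 0 z (n 0 z (n 0 z (n 0 z (n 0 z (n 0 z (n 0 z (n 0 z (n 0 z (n 0 z (n 0 z (n 0 z (n
 0 z z))))))))))))))))))))))))))))))))) (n 1 (n 0 z (n 0 z (n 0 z (n 0 z (n 0 z (n 0 z (n 0 z (n
 0 z (n 0 z (n 0 z (n 0 z (n 0 z (n 0 z (n 0 z (n 0 z (n 0 z (n 0 z (n 0 z (n 0 z (n 2 (n 0 z (n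
 0 z (n 0 z z))) (n 0 z (n 0 z (n 0 z (n 0 z (n 0 z (n 0 z (n 0 z (n 0 z (n 0 z (n 0 z (n 0 z (n
 0 z (n 0 z z))))))))))))))))))))))))))))))))) (n 1 (n 0 z (n 0 z (n 0 z (n 0 z (n 0 z (n 0 z (n
 0 z (n 0 z (n 0 z (n 0 z (n 0 z (n 0 z (n 0 z (n 0 z (n 0 z (n 0 z (n 0 z (n 0 z (n 0 z (n 0 z
 (n 0 z (n 0 z (n 0 z (n 0 z (n 0 z (n 0 z (n 0 z (n 0 z (n 0 z (n 0 z (n 0 z (n 0 z (n 0 z
 z))))))))))))))))))))))))))))))))) (n 1 (n 0 z (n 0 z (n 0 z (n 0 z (n 0 z (n 0 z (n 0 z (n 0 z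
 (n 0 z (n 0 z (n 0 z (n 0 z (n 0 z (n 0 z (n 0 z (n 0 z (n 0 z (n 0 z (n 2 (n 0 z z) (n 0 z (n
 0 z (n 0 z (n 0 z (n 0 z (n 0 z (n 0 z (n 0 z (n 0 z (n 0 z (n 0 z (n 0 z (n 0 z (n 0 z
 z))))))))))))))))))))))))))))))))) (n 1 (n 0 z (n 0 z (n 0 z (n 0 z (n 0 z (n 0 z (n 0 z (n 0 z
 (n 0 z (n 2 z (n 0 z (n 0 z (n 0 z (n 0 z (n 0 z (n 0 z (n 0 z (n 0 z (n 0 z (n 0 z (n 0 z (n 0
 z (n 0 z (n 0 z (n 0 z (n 0 z (n 0 z (n 0 z (n 0 z (n 0 z (n 0 z (n 0 z (n 0 z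
 z))))))))))))))))))))))))))))))))) z)))))) (n 0 (n 1 (n 0 z (n 0 z (n 0 z (n 0 z (n 0 z (n 0 z
 (n 0 z (n 0 z (n 0 z (n 0 z z)))))))))) (n 1 (n 0 z (n 0 z (n 0 z (n 0 z (n 0 z (n 0 z (n 2 (n
 0 z (n 0 z (n 0 z z))) (n 0 z (n 0 z (n 0 z z)))))))))) (n 1 (n 0 z (n 0 z (n 0 z (n 0 z (n 0 z
 (n 0 z (n 0 z (n 0 z (n 0 z (n 0 z z)))))))))) (n 1 (n 2 (n 0 z z) (n 0 z (n 0 z (n 0 z (n 0 z
 (n 0 z (n 0 z (n 0 z (n 0 z (n 0 z z)))))))))) (n 1 (n 0 z (n 0 z (n 0 z (n 0 z (n 0 z (n 0 z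
 (n 0 z (n 0 z (n 0 z (n 0 z z)))))))))) z))))) (n 0 (n 0 z (n 0 z (n 0 z (n 0 z z)))) (n 0 (n 0
 z (n 0 z (n 0 z z))) (n 0 (n 0 z (n 0 z z)) (n 0 (n 0 z z) (n 0 z z))))))))))))))) (n 0 (n 0 z
 (n 0 z (n 0 z (n 1 (n 6496515 z (n 6496515 z (n 6496515 z (n 6496515 z (n 6496515 z (n 6496515
 z z)))))) (n 1 (n 1244 z (n 2 z (n 1244 z (n 1244 z (n 1244 z (n 6554411 z z)))))) (n 0 z
 z)))))) (n 0 (n 0x43545dc32a9d6452d46502d3655211 (n 0 (n 0 (n 7742523 z (n 7742523 z (n 7742523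
 z (n 7742523 z (n 7742523 z (n 7742523 z z)))))) z) (n 0 (n 264 (n 1 (n 1244 z (n 1244 z (n
 3180 z (n 6629131 z (n 5449499 z (n 1244 z z)))))) (n 1 (n 1244 z (n 2732 z (n 1244 z (n 1244 z
 (n 7546459 z (n 1244 z z)))))) (n 1 (n 5448051 z (n 3282699 z (n 3282699 z (n 3282699 z (n
 3282699 z (n 3282699 z z)))))) (n 1 (n 1244 z (n 1244 z (n 1244 z (n 1244 z (n 1244 z (n
 6631795 z z)))))) (n 1 (n 3282779 z (n 7546459 z (n 3282779 z (n 3282779 z (n 3282779 z (n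
 3282779 z z)))))) (n 1 (n 1244 z (n 1244 z (n 1244 z (n 1244 z (n 1244 z (n 6625083 z z))))))
 (n 0 z (n 1 (n 1244 z (n 6625067 z (n 1244 z (n 1244 z (n 1244 z (n 1244 z z)))))) z)))))))) (n
 40 (n 1 (n 2780 z (n 7602987 z (n 2780 z (n 2780 z (n 2780 z (n 7742523 z z)))))) (n 1 (n
 4400907 z (n 6498075 z (n 2780 z (n 2780 z (n 2 z (n 2780 z z)))))) (n 1 (n 2780 z (n 2780 z (n
 2780 z (n 2780 z (n 7602987 z (n 7742523 z z)))))) (n 1 (n 7545091 z (n 7545091 z (n 7545091 z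
 (n 7545091 z (n 7545091 z (n 7545091 z z)))))) (n 1 (n 2780 z (n 2780 z (n 7602987 z (n 2780 z
 (n 2780 z (n 2780 z z)))))) (n 0 z (n 1 (n 7545091 z (n 7545091 z (n 7545091 z (n 7545091 z (n
 7545091 z (n 7545091 z z)))))) z))))))) (n 51 (n 0 z (n 0 z (n 0 z (n 1 (n 7545091 z (n 7545091
 z (n 7545091 z (n 7545091 z (n 7545091 z (n 7545091 z z)))))) (n 1 (n 7742523 z (n 7742523 z (n
 7742523 z (n 7742523 z (n 7742523 z (n 7742523 z z)))))) (n 0 z z)))))) (n 41 (n 1 (n 2204 z (n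
 2204 z (n 4331371 z (n 2204 z (n 6428507 z (n 2204 z z)))))) (n 1 (n 4331275 z (n 2204 z (n 10
 z (n 2204 z (n 2204 z (n 2204 z z)))))) (n 1 (n 2204 z (n 2204 z (n 2204 z (n 2204 z (n 2204 z
 (n 2204 z z)))))) (n 1 (n 7545091 z (n 7545091 z (n 7545091 z (n 7545091 z (n 7545091 z (n
 7545091 z z)))))) (n 1 (n 2204 z (n 4331323 z (n 2204 z (n 2204 z (n 2204 z (n 2204 z z))))))
 (n 0 z (n 1 (n 7545091 z (n 7545091 z (n 7545091 z (n 7545091 z (n 7545091 z (n 7545091 z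
 z)))))) z))))))) (n 11 (n 1 (n 7545091 z (n 7545091 z (n 7545091 z (n 7545091 z (n 7545091 z (n
 7545091 z z)))))) (n 0 z (n 1 (n 18 z (n 2252 z (n 2252 z (n 2252 z (n 7602987 z (n 2252 z
 z)))))) (n 0 z (n 0 z (n 1 (n 2252 z (n 3278699 z (n 2252 z (n 2252 z (n 284 z (n 6496627 z
 z)))))) (n 1 (n 3213131 z (n 3213131 z (n 7602987 z (n 3213131 z (n 3213131 z (n 3213131 z
 z)))))) z))))))) (n 285 (n 1 (n 7545091 z (n 268 z (n 268 z (n 268 z (n 268 z (n 268 z z))))))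
 (n 1 (n 7545091 z (n 268 z (n 268 z (n 268 z (n 268 z (n 268 z z)))))) (n 1 (n 7545091 z (n
 3282699 z (n 3282699 z (n 3282699 z (n 3282699 z (n 3282699 z z)))))) (n 1 (n 7545091 z (n 268
 z (n 268 z (n 268 z (n 268 z (n 6492275 z z)))))) (n 1 (n 7545091 z (n 3282779 z (n 3282779 z
 (n 2164571 z (n 3282779 z (n 3282779 z z)))))) (n 1 (n 7545091 z (n 268 z (n 26 z (n 268 z (n
 268 z (n 268 z z)))))) (n 0 z (n 1 (n 7545091 z (n 268 z (n 34 z (n 6424411 z (n 4327275 z (n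
 268 z z)))))) z)))))))) (n 51 (n 0 z (n 0 z (n 0 z (n 1 (n 7545091 z (n 7545091 z (n 7545091 z
 (n 7545091 z (n 7545091 z (n 7545091 z z)))))) (n 1 (n 7742523 z (n 7742523 z (n 7742523 z (n
 7742523 z (n 7742523 z (n 7602987 z z)))))) (n 0 z z)))))) z))))))) (n 0 (n 0 (n 0 z (n 0 z (n
 0 z (n 0 z (n 0 z z))))) (n 0 (n 0 z (n 0 z (n 0 z (n 0 z z)))) (n 0 (n 0 z (n 0 z (n 0 z z)))
 (n 0 (n 0 z (n 0 z z)) (n 0 (n 0 z z) z))))) (n 0 (n 347 (n 0 (n 0 z (n 0 z (n 0 z (n 0 z (n 0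
 (n 4401163 z z) z))))) (n 0 (n 0 z (n 0 z (n 0 z (n 0 z (n 0 z z))))) (n 0 (n 0 z (n 0 z (n 0 z
 (n 0 z (n 0 (n 8873251 z z) z))))) (n 0 (n 0 z (n 0 z (n 0 z (n 0 z (n 0 z z))))) (n 0 (n 0 z
 (n 0 z (n 0 z (n 0 z (n 0 z z))))) (n 0 (n 0 (n 8851491 z (n 8851491 z z)) (n 0 (n 8851491 z (n
 8851491 z z)) (n 0 z (n 0 z (n 0 (n 7677979 z (n 8651563 z z)) z))))) (n 0 (n 0 (n
 0x876765301850c8ea86078189267636e176286186191f6a27a486c89a6626a88608a079b7629ae79a6a47dc81c79d8e41001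
 z (n 0xd87282386181e7a281f7238237e17e17df8df8628207de81f89c8617df7df81e8e18a08218208620041 z
 z)) (n 0 (n
 0x76384150182ec70c28077e081f7a17e081f82182182082086082086085f82082085f82081f81f8218608218208208201001
 z (n 0xd87282386181e7a281f7238237e17e17df8df8628207de81f89c8617df7df81e8e18a08218208620041 z
 z)) (n 0 z (n 0 z (n 0 (n 8873251 z (n 8873251 z z)) z))))) (n 0 (n 0 z (n 0 z (n 0 z (n 0 z (n
 0 z z))))) (n 0 (n 0 z (n 0 z (n 0 z (n 0 z (n 0 z z))))) (n 0 (n 0 z (n 0 z (n 0 (n 8851491 z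
 (n 8851491 z z)) (n 0 z (n 0 (n
 0x30c8ec86038208228218207e082082082081f8208208218208208208208218208208208208207e08208200801 z
 (n
 0x2aecb0c280301487687630182f432c32180c071d96190c060290c8ec860309586585430381d43232a181c066151950c06014ca8a8020779981082f7e07ed7c779a8537cd7e17f47ea8257e97df7d17d78368258358158a382d7cd7f28288378068207a17ed7d58037a97b57fe7eb8358038317c98297ec80d83881283e7e87f280c4811
 z z)) z))))) (n 0 (n 0 z (n 0 z (n 0 z (n 0 z (n 0 z z))))) (n 0 (n 0 z (n 0 z (n 0 z (n 0 z (n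
 0 z z))))) (n 0 (n 0 z (n 0 z (n 0 z (n 0 z (n 0 z z))))) (n 0 (n 0 z (n 0 z (n 0 z (n 0 z (n 0
 z z))))) (n 0 (n 0 (n
 0x876864303810c90a86037a085f7df8218207e281d7e07e082182189e86186085f86082181f81f7e08607e07df8218201001
 z (n
 0x30ed0c86077e081c7de86186082081e81f85f86182182086085f82086081f82081f8208608208208208200801 z
 z)) (n 0 z (n 0 (n
 0x30c90a86038208627e07e18217e27dc81e7e07e182185f7e18618a08207e18208208208207e079e8218610801 z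
 (n 0x10ed0ec6037e082081f8208208627de8208208208208208208208608208208208208207e082081f8208210801
 z z)) (n 0 z (n 0 z z))))) z))))))))))))))) (n 399 (n 0 (n 0 z (n 0 z (n 0 z (n 0 z (n 0 (n
 8595035 z z) z))))) (n 0 (n 0 z (n 0 z (n 0 z (n 0 z (n 0 z z))))) (n 0 (n 0 z (n 0 z (n 0 z (n
 0 z (n 0 z z))))) (n 0 (n 0 z (n 0 z (n 0 z (n 0 z (n 0 (n
 0x1d85481f82089f85f8208627a08208618217df8a281f8a179f8e17df8608607e181e8a086181e81f0041 z z)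
 z))))) (n 0 (n 0 z (n 0 z (n 0 z (n 0 z (n 0 (n 8855571 z (n 8855571 z z)) z))))) (n 0 (n 0 z
 (n 0 z (n 0 z (n 0 z (n 0 (n 8855571 z z) z))))) (n 0 (n 0 z (n 0 z (n 0 z (n 0 z (n 0 z z)))))
 (n 0 (n 0 z (n 0 z (n 0 z (n 0 z (n 0 z z))))) (n 0 (n 0 z (n 0 z (n 0 z (n 0 z (n 0 z z)))))
 (n 0 (n 0 (n
 0x30c8ec86078608208208208208208208208208208208208208208608208208208208208208208208208210801 z
 (n 0xd87482386181e7a281f7238237e17e17df8df8628207de81f89c8617df7df81e8e18a08218208620041 z z))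
 (n 0 z (n 0 z (n 0 z (n 0 (n
 0xd8748608228607e18207e18228607df7e082082181f82082085f8208208608208208607e081f8210041 z (n
 0x30c8ec86038208228218207e082082082081f8208208218208208208208218208208208208207e08208200801 z
 z)) z))))) (n 0 (n 0 z (n 0 z (n 0 z (n 0 z (n 0 (n
 0x30c8ec860382082182081f8207e082186082085f82082185f82082082082082081f82082182082181f8200801 z
 z) z))))) (n 0 (n 0 z (n 0 z (n 0 z (n 0 z (n 0 z z))))) (n 0 (n 0 z (n 0 z (n 0 z (n 0 z (n 0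
 (n 8855571 z z) z))))) (n 0 (n 0 z (n 0 z (n 0 z (n 0 z (n 0 z z))))) z)))))))))))))) (n 65 (n
 0 (n 0 z (n 0 z (n 0 z (n 0 z (n 0 z z))))) (n 0 (n 0 z (n 0 z (n 0 z (n 0 z (n 0 z z))))) (n 0
 (n 0 z (n 0 z (n 0 z (n 0 z (n 0 z z))))) (n 0 (n 0 z (n 0 z (n 0 z (n 0 z (n 0 z z))))) (n 0
 (n 0 z (n 0 z (n 0 z (n 0 z (n 0 z z))))) (n 0 (n 0 z (n 0 z (n 0 z (n 0 z (n 0 z z))))) (n 0
 (n 0 z (n 0 z (n 0 z (n 0 z (n 0 z z))))) (n 0 (n 0 z (n 0 z (n 0 z (n 0 z (n 0 z z))))) (n 0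
 (n 0 (n 7538779 z (n
 0x50ed0ec6036de81f91f7db7a195d79a91d9219a57e58227607a281f8625dc8e08617e07648208598a591f0801 z
 z)) (n 0 z (n 0 (n 7538779 z (n
 0x10ed0ec6037e082081f8208208627de8208208208208208208208608208208208208207e082081f8208210801 z
 z)) (n 0 z (n 0 z z))))) (n 0 (n 0 z (n 0 z (n 0 z (n 0 z (n 0 z z))))) (n 0 (n 0 z (n 0 z (n 0
 z (n 0 z (n 0 z z))))) z))))))))))) (n 275 (n 0 (n 0 z (n 0 z (n 0 (n 8791835 z (n 8873259 z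
 z)) (n 0 z (n 0 z z))))) (n 0 (n 0 z (n 0 z (n 0 z (n 0 z (n 0 z z))))) (n 0 (n 0 z (n 0 z (n 0
 z (n 0 z (n 0 z z))))) (n 0 (n 0 z (n 0 z (n 0 z (n 0 z (n 0 z z))))) (n 0 (n 0 z (n 0 (n
 8873259 z (n 8873259 z z)) (n 0 z (n 0 z (n 0 z z))))) (n 0 (n 0 z (n 0 (n 8595035 z (n 8595035
 z z)) (n 0 z (n 0 z (n 0 z z))))) (n 0 (n 0 z (n 0 z (n 0 z (n 0 z (n 0 z z))))) (n 0 (n 0 z (n
 0 z (n 0 z (n 0 z (n 0 z z))))) (n 0 (n 0 z (n 0 z (n 0 z (n 0 z (n 0 (n 8855571 z z) z))))) (n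
 0 (n 0 z (n 0 z (n 0 z (n 0 z (n 0 z z))))) (n 0 (n 0 z (n 0 z (n 0 z (n 0 z (n 0 z z))))) (n 0
 (n 0 (n 8595035 z z) (n 0 (n 8595035 z z) (n 0 z (n 0 z (n 0 z z))))) (n 0 (n 0 z (n 0 z (n 0
 (n 0x30c6ca280789d7e48617e08218628208a08207de8227e17617647e18608607a18a77de7637df7e18208600801
 z z) (n 0 z (n 0 z z))))) (n 0 (n 0 z (n 0 z (n 0 z (n 0 z (n 0 z z))))) z)))))))))))))) (n 41
 (n 0 (n 0 z (n 0 z (n 0 z (n 0 z (n 0 z z))))) (n 0 (n 0 z (n 0 z (n 0 z (n 0 z (n 0 z z)))))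
 (n 0 (n 0 z (n 0 z (n 0 z (n 0 z (n 0 z z))))) (n 0 (n 0 z (n 0 z (n 0 z (n 0 z (n 0 z z)))))
 (n 0 (n 0 z (n 0 z (n 0 z (n 0 z (n 0 z z))))) (n 0 (n 0 z (n 0 z (n 0 z (n 0 z (n 0 z z)))))
 (n 0 (n 0 z (n 0 z (n 0 z (n 0 z (n 0 z z))))) z))))))) (n 17 (n 0 (n 0 z (n 0 z (n 0 z (n 0 z
 (n 0 z z))))) (n 0 (n 0 z (n 0 z (n 0 z (n 0 z (n 0 z z))))) (n 0 (n 0 z (n 0 z (n 0 z (n 0 z
 (n 0 z z))))) (n 0 (n 0 z (n 0 z (n 0 z (n 0 z (n 0 z z))))) (n 0 (n 0 z (n 0 z (n 0 z (n 0 z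
 (n 0 z z))))) (n 0 (n 0 z (n 0 z (n 0 z (n 0 z (n 0 z z))))) (n 0 (n 0 z (n 0 z (n 0 z (n 0 z
 (n 0 z z))))) z))))))) (n 281 (n 0 (n 0 z (n 0 z (n 0 z (n 0 z (n 0 (n 8855571 z z) z))))) (n 0
 (n 0 z (n 0 z (n 0 z (n 0 z (n 0 z z))))) (n 0 (n 0 z (n 0 z (n 0 z (n 0 z (n 0 z z))))) (n 0
 (n 0 z (n 0 z (n 0 z (n 0 z (n 0 z z))))) (n 0 (n 0 z (n 0 z (n 0 z (n 0 z (n 0 z z))))) (n 0
 (n 0 z (n 0 z (n 0 z (n 0 z (n 0 z z))))) (n 0 (n 0 z (n 0 z (n 0 z (n 0 z (n 0 z z))))) (n 0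
 (n 0 z (n 0 z (n 0 z (n 0 z (n 0 z z))))) (n 0 (n 0 z (n 0 z (n 0 z (n 0 z (n 0 z z))))) (n 0
 (n 0 z (n 0 z (n 0 z (n 0 z (n 0 z z))))) z)))))))))) (n 35 (n 0 (n 0 z (n 0 z (n 0 z (n 0 z (n
 0 (n 8869419 z z) z))))) (n 0 (n 0 z (n 0 z (n 0 z (n 0 z (n 0 z z))))) (n 0 (n 0 z (n 0 z (n 0
 z (n 0 z (n 0 z z))))) (n 0 (n 0 z (n 0 z (n 0 z (n 0 z (n 0 z z))))) (n 0 (n 0 z (n 0 z (n 0
 (n 8593667 z (n 8593667 z z)) (n 0 z (n 0 (n 8593667 z (n 8593667 z z)) z))))) (n 0 (n 0 z (n 0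
 z (n 0 z (n 0 z (n 0 (n 8593667 z z) z))))) (n 0 (n 0 (n 8651563 z z) (n 0 z (n 0 (n 8651563 z
 z) (n 0 (n 8651563 z z) (n 0 z z))))) (n 0 (n 0 z (n 0 z (n 0 z (n 0 z (n 0 z z))))) (n 0 (n 0
 z (n 0 z (n 0 z (n 0 z (n 0 z z))))) (n 0 (n 0 z (n 0 (n 8660747 z z) (n 0 z (n 0 z (n 0 z
 z))))) (n 0 (n 0 (n
 0x30eb0ca6078608208208208208218218207e08218208208208208608207e08208208208208207df8208200801 z
 z) (n 0 z (n 0 z (n 0 (n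
 0x10ed0ec0037e082081f82082082081e82082082082082082082082082082082081f82082082082081f8610801 z
 z) (n 0 z z))))) (n 0 (n 0 z (n 0 z (n 0 z (n 0 z (n 0 z z))))) (n 0 (n 0 z (n 0 z (n 0 z (n 0
 z (n 0 z z))))) z))))))))))))) (n 11 (n 0 (n 0 z (n 0 z (n 0 z (n 0 z (n 0 z z))))) (n 0 (n 0 z
 (n 0 z (n 0 z (n 0 z (n 0 z z))))) (n 0 (n 0 z (n 0 z (n 0 z (n 0 z (n 0 z z))))) (n 0 (n 0 z
 (n 0 z (n 0 z (n 0 z (n 0 z z))))) (n 0 (n 0 z (n 0 z (n 0 z (n 0 z (n 0 z z))))) (n 0 (n 0 z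
 (n 0 z (n 0 z (n 0 z (n 0 z z))))) (n 0 (n 0 z (n 0 z (n 0 z (n 0 z (n 0 z z))))) z))))))) (n
 267 (n 0 (n 0 z (n 0 (n
 0x1e1da1d840e01d0ed0e42078087e77fd8227f281a7ec7f67f98077f98047ff7fd80a7fe8057fe80380d7ff8088067f98058017fc7f48017f98087fe8037f87f97fe80280b8017f37e47fd8027f18008057fb7f87ff7fd1011
 z z) (n 0 z (n 0 z (n 0 z z))))) (n 0 (n 0 z (n 0 z (n 0 z (n 0 z (n 0 z z))))) (n 0 (n 0 z (n
 0 z (n 0 z (n 0 z (n 0 z z))))) (n 0 (n 0 z (n 0 z (n 0 z (n 0 z (n 0 z z))))) (n 0 (n 0 z (n 0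
 z (n 0 z (n 0 z (n 0 z z))))) (n 0 (n 0 z (n 0 z (n 0 z (n 0 z (n 0 z z))))) (n 0 (n 0 z (n 0 z
 (n 0 z (n 0 z (n 0 z z))))) (n 0 (n 0 z (n 0 (n
 0x2a8658208e67617a576086082075e7a37e266481d7e37df89b7e46a185f76376471e8638de9a285e0041 z z) (n
 0 z (n 0 (n 8864611 z z) (n 0 z z))))) (n 0 (n 0 z (n 0 (n
 0x2a8658208e67228256e086082079e7a27655e47df8217de8db7a36e285f7a176471f8a58209637de0041 z (n
 0x2a8658208e676176676086182071e7a38216e27dd8237e185d7e366181f7a272472182285e9e37df0041 z z)) (n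
 0 z (n 0 (n 8864611 z (n 8864611 z z)) (n 0 z z))))) (n 0 (n 0 z (n 0 z (n 0 z (n 0 (n 8864611
 z z) (n 0 z z))))) (n 0 (n 0 z (n 0 z (n 0 z (n 0 z (n 0 z z))))) (n 0 (n 0 z (n 0 (n
 0x30c30c200789f8a48a282082089f82081e82179c89b89e81f82485f82282179e8218a16df7e186189e85e0801 z
 (n 0x30ed0ec2037a36dc9e096195b9219a075a5618269226de79e7668e57217e18ea6da8618e06e361a7658a50801
 z z)) (n 0 z (n 0 (n 8864611 z (n 8864611 z z)) (n 0 z z))))) (n 0 (n 0 z (n 0 z (n 0 z (n 0 z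
 (n 0 z z))))) (n 0 (n 0 z (n 0 z (n 0 z (n 0 z (n 0 z z))))) (n 0 (n 0 z (n 0 z (n 0 (n
 0x70e6ea0c038208207a28228a07a186082079e82396279f7a27e186186075f8218e381f86075e79f7de8a20801 z
 (n 0xd87282386181e7a281f7238237e17e17df8df8628207de81f89c8617df7df81e8e18a08218208620041 z z))
 (n 0 z (n 0 z z))))) (n 0 (n 0 (n 8593667 z z) (n 0 z (n 0 z (n 0 z (n 0 z z))))) (n 0 (n 0 z
 (n 0 z (n 0 z (n 0 z (n 0 z z))))) (n 0 (n 0 z (n 0 z (n 0 z (n 0 z (n 0 z z))))) (n 0 (n 0 z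
 (n 0 z (n 0 z (n 0 z (n 0 z z))))) (n 0 (n 0 z (n 0 z (n 0 z (n 0 z (n 0 z z))))) (n 0 (n 0 z
 (n 0 z (n 0 z (n 0 z (n 0 z z))))) (n 0 (n 0 z (n 0 (n
 0x2a86581f9267227a76e08a082075e7227e26e27dd8627e189e7a176181f7e07236e282479f96481f0041 z z) (n
 0 z (n 0 (n
 0x2a8658208e67617a576086082075e7a37e266481d7e37df89b7e46a185f76376471e8638de9a285e0041 z z) (n
 0 z z))))) (n 0 (n 0 z (n 0 z (n 0 z (n 0 (n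
 0x2a86581f8e67217a76e189f8207de7a37e16a27dc86076091b7a56a089d82176371e86281ea2289f0041 z z) (n
 0 z z))))) (n 0 (n 0 z (n 0 z (n 0 (n
 0x30eb0ca00785f81e81f8218608227e181f8218208207e08208208608208208218208208208208208208200801 z
 z) (n 0 z (n 0 z z))))) (n 0 (n 0 z (n 0 z (n 0 (n
 0x2a8528208e67617a576086082075e7a37e266481d7e37df89b7e46a185f76376471e8638de9a285e0041 z z) (n
 0 z (n 0 z z))))) (n 0 (n 0 z (n 0 z (n 0 (n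
 0x30e6ea0c0386082282086082182181e7e08208208207e07e086086082082082182181e8208207a08208610801 z
 z) (n 0 z (n 0 z z))))) (n 0 (n 0 (n 8791835 z (n
 0xd87582386181e7a281f7238237e17e17df8df8628207de81f89c8617df7df81e8e18a08218208620041 z z)) (n
 0 z (n 0 (n 8791835 z (n
 0x30eb0ca00782085f8208608607e18218208218208207e082082082082082082082081f8208208208208200801 z
 z)) (n 0 z (n 0 z z))))) (n 0 (n 0 z (n 0 z (n 0 z (n 0 z (n 0 z z))))) (n 0 (n 0 z (n 0 z (n 0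
 z (n 0 z (n 0 z z))))) (n 0 (n 0 z (n 0 z (n 0 z (n 0 z (n 0 z z))))) (n 0 (n 0 (n
 0x30ed0ca0078208208208208208207e08608608208207e08208208208208208208208208208207e08208200801 z
 z) (n 0 z (n 0 z (n 0 (n
 0x10ed0ec0037e082081f82082082081e82082082082082082082082082082082081f82082082082081f8610801 z
 z) (n 0 z z))))) (n 0 (n 0 z (n 0 z (n 0 z (n 0 z (n 0 z z))))) (n 0 (n 0 z (n 0 z (n 0 z (n 0
 z (n 0 z z))))) z))))))))))))))))))))))))))))))))) (n 285 (n 0 (n 0 z (n 0 z (n 0 z (n 0 z (n 0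
 z z))))) (n 0 (n 0 z (n 0 z (n 0 z (n 0 z (n 0 (n 8873251 z z) z))))) (n 0 (n 0 z (n 0 z (n 0 z
 (n 0 z (n 0 z z))))) (n 0 (n 0 z (n 0 z (n 0 z (n 0 z (n 0 z z))))) (n 0 (n 0 z (n 0 z (n 0 z
 (n 0 z (n 0 z z))))) (n 0 (n 0 z (n 0 z (n 0 z (n 0 z (n 0 z z))))) (n 0 (n 0 z (n 0 z (n 0 z
 (n 0 z (n 0 z z))))) (n 0 (n 0 z (n 0 z (n 0 z (n 0 z (n 0 z z))))) z)))))))) (n 33 (n 0 (n 0 z
 (n 0 z (n 0 z (n 0 z (n 0 z z))))) (n 0 (n 0 z (n 0 z (n 0 z (n 0 z (n 0 z z))))) (n 0 (n 0 z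
 (n 0 z (n 0 z (n 0 z (n 0 z z))))) (n 0 (n 0 z (n 0 z (n 0 z (n 0 z (n 0 z z))))) (n 0 (n 0 z
 (n 0 z (n 0 z (n 0 z (n 0 (n 8593667 z z) z))))) (n 0 (n 0 z (n 0 z (n 0 z (n 0 z (n 0 (n
 8593667 z (n 8593667 z z)) z))))) (n 0 (n 0 z (n 0 z (n 0 z (n 0 z (n 0 (n 8593667 z z) z)))))
 (n 0 (n 0 z (n 0 z (n 0 z (n 0 z (n 0 z z))))) (n 0 (n 0 z (n 0 z (n 0 z (n 0 z (n 0 z z)))))
 (n 0 (n 0 z (n 0 z (n 0 z (n 0 (n 8864611 z z) (n 0 z z))))) (n 0 (n 0 z (n 0 z (n 0 z (n 0 z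
 (n 0 z z))))) (n 0 (n 0 z (n 0 z (n 0 z (n 0 z (n 0 z z))))) z)))))))))))) (n 51 (n 0 (n 0 z (n
 0 z (n 0 z (n 0 z (n 0 (n 8855571 z z) z))))) (n 0 (n 0 z (n 0 z (n 0 z (n 0 z (n 0 z z))))) (n
 0 (n 0 (n 8660747 z z) (n 0 z (n 0 z (n 0 (n 3213403 z z) (n 0 z z))))) (n 0 (n 0 z (n 0 z (n 0
 z (n 0 z (n 0 z z))))) (n 0 (n 0 z (n 0 z (n 0 z (n 0 z (n 0 z z))))) (n 0 (n 0 z (n 0 z (n 0 z
 (n 0 z (n 0 z z))))) (n 0 (n 0 z (n 0 z (n 0 z (n 0 z (n 0 z z))))) (n 0 (n 0 z (n 0 z (n 0 z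
 (n 0 z (n 0 z z))))) (n 0 (n 0 z (n 0 z (n 0 z (n 0 z (n 0 z z))))) z))))))))) (n 269 (n 0 (n 0
 z (n 0 z (n 0 z (n 0 z (n 0 z z))))) (n 0 (n 0 z (n 0 (n
 0x30ed0c82038208228218207a082182081e8228608618208207a18207e081f81f86181c7e17e081f8218620801 z
 (n 0x30c90c02078df82286185f8208208247e076076079d7e281e86086281f82186176285f82081e82285f7e10801
 z z)) (n 0 z (n 0 z (n 0 z z))))) (n 0 (n 0 z (n 0 z (n 0 z (n 0 z (n 0 z z))))) (n 0 (n 0 z (n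
 0 z (n 0 z (n 0 z (n 0 z z))))) (n 0 (n 0 (n 8851491 z (n 8851491 z z)) (n 0 (n 8851491 z (n
 8851491 z z)) (n 0 z (n 0 z (n 0 (n 8787755 z (n
 0x1d82181f82089f85f8208627a08208618217df8a281f8a179f8e17df8608607e181e8a086181e81f0041 z z))
 z))))) (n 0 (n 0 z (n 0 z (n 0 z (n 0 (n 8864611 z z) (n 0 z z))))) (n 0 (n 0 z (n 0 z (n 0 z
 (n 0 z (n 0 z z))))) (n 0 (n 0 z (n 0 z (n 0 z (n 0 z (n 0 z z))))) (n 0 (n 0 z (n 0 z (n 0 z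
 (n 0 z (n 0 z z))))) (n 0 (n 0 (n 8851491 z (n 8851491 z z)) (n 0 z (n 0 z (n 0 z (n 0 (n
 8868451 z (n 8868451 z z)) z))))) (n 0 (n 0 z (n 0 z (n 0 z (n 0 z (n 0 z z))))) (n 0 (n 0 z (n
 0 z (n 0 z (n 0 z (n 0 z z))))) (n 0 (n 0 z (n 0 z (n 0 z (n 0 z (n 0 z z))))) (n 0 (n 0 z (n 0
 z (n 0 z (n 0 z (n 0 z z))))) (n 0 (n 0 z (n 0 z (n 0 z (n 0 z (n 0 z z))))) (n 0 (n 0 z (n 0 z
 (n 0 z (n 0 z (n 0 z z))))) (n 0 (n 0 z (n 0 z (n 0 z (n 0 z (n 0 z z))))) (n 0 (n 0 (n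
 0x2a8408208a67217a76e186382071e7e37e16e27dd8237e181c7e47227df7a47a372086589d9a381d0041 z z) (n
 0 (n 0x2a8408208e67617a576086082075e7a37e266481d7e37df89b7e46a185f76376471e8638de9a285e0041 z
 z) (n 0 z (n 0 z (n 0 z z))))) (n 0 (n 0 z (n 0 z (n 0 z (n 0 z (n 0 z z)))))
 z))))))))))))))))))) (n 1 (n 0 (n 0 z (n 0 z (n 0 z (n 0 z (n 0 z z))))) (n 0 (n 0 z (n 0 z (n
 0 z (n 0 z (n 0 z z))))) (n 0 (n 0 z (n 0 z (n 0 z (n 0 z (n 0 z z))))) (n 0 (n 0 z (n 0 z (n 0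
 z (n 0 z (n 0 z z))))) (n 0 (n 0 z (n 0 z (n 0 z (n 0 z (n 0 z z))))) (n 0 (n 0 z (n 0 z (n 0 z
 (n 0 z (n 0 z z))))) (n 0 (n 0 z (n 0 z (n 0 z (n 0 z (n 0 z z))))) (n 0 (n 0 z (n 0 z (n 0 z
 (n 0 z (n 0 z z))))) (n 0 (n 0 z (n 0 z (n 0 z (n 0 (n 8864611 z z) (n 0 z z))))) (n 0 (n 0 z
 (n 0 z (n 0 z (n 0 z (n 0 z z))))) z)))))))))) (n 155 (n 0 (n 0 z (n 0 z (n 0 z (n 0 z (n 0 z
 z))))) (n 0 (n 0 z (n 0 z (n 0 z (n 0 z (n 0 z z))))) (n 0 (n 0 z (n 0 z (n 0 z (n 0 z (n 0 z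
 z))))) (n 0 (n 0 z (n 0 z (n 0 z (n 0 z (n 0 z z))))) (n 0 (n 0 (n 8791099 z (n 8791099 z z))
 (n 0 (n 8791099 z (n 8791099 z z)) (n 0 (n 8791099 z (n 8791099 z z)) (n 0 z (n 0 z z))))) (n 0
 (n 0 z (n 0 z (n 0 z (n 0 z (n 0 z z))))) (n 0 (n 0 z (n 0 z (n 0 z (n 0 z (n 0 z z))))) (n 0
 (n 0 z (n 0 z (n 0 z (n 0 z (n 0 z z))))) (n 0 (n 0 z (n 0 z (n 0 z (n 0 z (n 0 z z)))))
 z))))))))) (n 33 (n 0 (n 0 z (n 0 z (n 0 z (n 0 z (n 0 z z))))) (n 0 (n 0 z (n 0 z (n 0 z (n 0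
 z (n 0 z z))))) (n 0 (n 0 z (n 0 z (n 0 z (n 0 z (n 0 z z))))) (n 0 (n 0 z (n 0 z (n 0 z (n 0 z
 (n 0 z z))))) (n 0 (n 0 z (n 0 z (n 0 z (n 0 z (n 0 z z))))) (n 0 (n 0 z (n 0 z (n 0 z (n 0 z
 (n 0 z z))))) (n 0 (n 0 z (n 0 z (n 0 (n 8593667 z (n 8593667 z z)) (n 0 z (n 0 (n 8593667 z (n
 8593667 z z)) z))))) (n 0 (n 0 z (n 0 z (n 0 z (n 0 z (n 0 (n 8593667 z z) z))))) (n 0 (n 0 z
 (n 0 z (n 0 z (n 0 z (n 0 z z))))) (n 0 (n 0 z (n 0 z (n 0 z (n 0 z (n 0 z z))))) z))))))))))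
 (n 51 (n 0 (n 0 z (n 0 z (n 0 z (n 0 z (n 0 z z))))) (n 0 (n 0 z (n 0 (n 8791099 z (n 8791099 z
 z)) (n 0 z (n 0 z (n 0 z z))))) (n 0 (n 0 z (n 0 z (n 0 (n 8791835 z (n
 0xd87582386181e7a281f7238237e17e17df8df8628207de81f89c8617df7df81e8e18a08218208620041 z z)) (n
 0 z (n 0 z z))))) (n 0 (n 0 z (n 0 z (n 0 z (n 0 z (n 0 z z))))) (n 0 (n 0 z (n 0 z (n 0 z (n 0
 z (n 0 z z))))) (n 0 (n 0 z (n 0 z (n 0 z (n 0 z (n 0 z z))))) z)))))) (n 27 (n 0 (n 0 z (n 0 z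
 (n 0 z (n 0 z (n 0 z z))))) (n 0 (n 0 z (n 0 z (n 0 z (n 0 z (n 0 z z))))) (n 0 (n 0 z (n 0 z
 (n 0 z (n 0 z (n 0 z z))))) (n 0 (n 0 z (n 0 z (n 0 z (n 0 z (n 0 z z))))) (n 0 (n 0 z (n 0 z
 (n 0 z (n 0 z (n 0 z z))))) (n 0 (n 0 (n
 0x30a8a8020381f82086185f8208647a07dc86181f9208207de8a281e8a085e8a27e27df6e27e085e8218200801 z
 (n 0xf0a6ea280762195f99e75f7588de8d8698923a9d829a247e08e17d87db49791a6df722963a269de9239a40801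
 z z)) (n 0 (n
 0x30a8ea82078218217e082085f81f89f86082082181f8208217e07e086082082081f86189f8217e081f8200801 z
 (n 8791835 z z)) (n 0 (n
 0x30a8a8020381f82086185f8208647a07dc86181f9208207de8a281e8a085e8a27e27df6e27e085e8218200801 z
 (n
 0x1431ba0a80c0863410503830c6a2080391f82485e7e08227e17a08e181f7e38617a27e17e08a18607e08228617df76081f7de8608201801
 z z)) (n 0 (n
 0x30c6ea280385f8208208208208208217e08207e082086081f8208208208208208208208208208208208200801 z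
 (n 0x30c6ea280385f8208208208208208217e08207e082082081f8208208208208208208208208208208208200801
 z z)) (n 0 z z))))) (n 0 (n 0 z (n 0 (n
 0x30a8ea82078218217e082085f7e085f86181f82185f82082282082186082181f81f82185f8217e081f8200801 z
 z) (n 0 z (n 0 z (n 0 z z))))) (n 0 (n 0 z (n 0 z (n 0 z (n 0 z (n 0 z z))))) (n 0 (n 0 z (n 0
 z (n 0 z (n 0 z (n 0 z z))))) (n 0 (n 0 (n
 0x1d87281f82089f85f8208627a08208618217df8a281f8a179f8e17df8608607e181e8a086181e81f0041 z (n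
 0x30a90a82078a07e07e08208207a28a48607a27a27e281f81f75e85f7dc8dd92182381e85f85e7628208610801 z
 z)) (n 0 (n
 0x1d87281f82089f85f8208627a08208618217df8a281f8a179f8e17df8608607e181e8a086181e81f0041 z (n
 0x30a90a82078a07e07e08208207a28a48607a27a27e281f81f75e85f7dc8dd92182381e85f85e7628208610801 z
 z)) (n 0 z (n 0 z (n 0 z z))))) (n 0 (n 0 z (n 0 z (n 0 (n 7473243 z (n 7612523 z z)) (n 0 z (n
 0 z z))))) (n 0 (n 0 z (n 0 z (n 0 z (n 0 z (n 0 z z))))) (n 0 (n 0 z (n 0 z (n 0 z (n 0 z (n 0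
 z z))))) (n 0 (n 0 (n 8593667 z z) (n 0 z (n 0 (n 8593667 z z) (n 0 z (n 0 z z))))) (n 0 (n 0
 (n 8593667 z z) (n 0 z (n 0 z (n 0 z (n 0 z z))))) (n 0 (n 0 z (n 0 z (n 0 z (n 0 z (n 0 z
 z))))) (n 0 (n 0 z (n 0 z (n 0 z (n 0 z (n 0 z z))))) (n 0 (n 0 z (n 0 z (n 0 (n 8593667 z z)
 (n 0 z (n 0 z z))))) (n 0 (n 0 z (n 0 z (n 0 (n 8593667 z z) (n 0 z (n 0 z z))))) (n 0 (n 0 (n
 8593667 z z) (n 0 z (n 0 (n 8593667 z z) (n 0 z (n 0 z z))))) (n 0 (n 0 z (n 0 z (n 0 z (n 0 z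
 (n 0 z z))))) (n 0 (n 0 z (n 0 z (n 0 z (n 0 z (n 0 z z))))) z)))))))))))))))))))))) (n 1 (n 0
 (n 0 z (n 0 z (n 0 z (n 0 z (n 0 z z))))) (n 0 (n 0 z (n 0 z (n 0 z (n 0 z (n 0 z z))))) (n 0
 (n 0 z (n 0 z (n 0 z (n 0 z (n 0 z z))))) (n 0 (n 0 z (n 0 z (n 0 z (n 0 z (n 0 z z))))) (n 0
 (n 0 z (n 0 z (n 0 z (n 0 z (n 0 z z))))) (n 0 (n 0 (n 7538779 z (n
 0x2a8318208e67617a576086082075e7a37e266481d7e37df89b7e46a185f76376471e8638de9a285e0041 z z)) (n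
 0 (n 0x2a8318208e67617a576086082075e7a37e266481d7e37df89b7e46a185f76376471e8638de9a285e0041 z
 (n 0x2a8318208e67617a576086082075e7a37e266481d7e37df89b7e46a185f76376471e8638de9a285e0041 z z))
 (n 0 (n 8791835 z (n
 0x2a8318208e67617a576086082075e7a37e266481d7e37df89b7e46a185f76376471e8638de9a285e0041 z z)) (n
 0 (n 0x2a83181f8e67627a67208a182071e7627e36a37dd82382285d8237218207e17636e182381ea237df0041 z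
 (n 8787771 z z)) (n 0 z z))))) (n 0 (n 0 z (n 0 z (n 0 z (n 0 z (n 0 z z))))) (n 0 (n 0 z (n 0
 z (n 0 z (n 0 z (n 0 z z))))) (n 0 (n 0 z (n 0 z (n 0 z (n 0 z (n 0 z z))))) (n 0 (n 0 z (n 0 z
 (n 0 (n 8651563 z z) (n 0 z (n 0 z z))))) (n 0 (n 0 (n
 0x2a8528208e67617a576086082075e7a37e266481d7e37df89b7e46a185f76376471e8638de9a285e0041 z z) (n
 0 z (n 0 z (n 0 z (n 0 z z))))) z))))))))))) (n 0 (n 0 (n 0 (n 8660747 z z) (n 0 (n 8660747 z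
 z) (n 0 z (n 0 z (n 0 z z))))) (n 0 (n 0 z (n 0 z (n 0 z (n 0 z (n 0 z z))))) (n 0 (n 0 z (n 0
 z (n 0 z (n 0 z (n 0 z z))))) (n 0 (n 0 z (n 0 (n 8660747 z z) (n 0 z (n 0 (n
 0x10e90e820789f8607e07e18607a18248617e076286081f81f7e082186081f7e08608208a082082081f8200801 z
 z) (n 0 z z))))) (n 0 (n 0 z (n 0 (n
 0xd87286082289f7e18207e18228207e082082082182081f8208607e182082082081f8607e081f8200041 z (n
 0x2e650a280781f82082082082082082082082181f82082081f8208208208208208217e08208218208208200801 z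
 z)) (n 0 z (n 0 (n
 0x10e90e820785f8608207a18207e18227e08217e082086082082082082082081f8208208208208208608200801 z
 (n 0x10ece648038208617e07a18207e18217e08207e082086082085f82086082081f81f8208208208208208200801
 z z)) (n 0 z z))))) (n 0 (n 0 z (n 0 z (n 0 z (n 0 (n 8848155 z z) (n 0 z z))))) (n 0 (n 0 z (n
 0 z (n 0 z (n 0 z (n 0 z z))))) (n 0 (n 0 z (n 0 (n 8660747 z z) (n 0 z (n 0 (n
 0x2a8318208e67617a576086082075e7a37e266481d7e37df89b7e46a185f76376471e8638de9a285e0041 z z) (n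
 0 z z))))) (n 0 (n 0 z (n 0 z (n 0 z (n 0 z (n 0 z z))))) (n 0 (n 0 z (n 0 z (n 0 z (n 0 (n
 0x2a8318208e67617a576086082075e7a37e266481d7e37df89b7e46a185f76376471e8638de9a285e0041 z z) (n
 0 z z))))) (n 0 (n 0 z (n 0 z (n 0 z (n 0 z (n 0 z z))))) (n 0 (n 0 z (n 0 z (n 0 z (n 0 z (n 0
 z z))))) (n 0 (n 0 z (n 0 z (n 0 z (n 0 z (n 0 z z))))) (n 0 (n 0 (n 8660747 z z) (n 0 z (n 0 z
 (n 0 (n 2164827 z z) (n 0 z z))))) (n 0 (n 0 z (n 0 (n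
 0xd8728608228607e18207e18228607df7e082082181f82082085f8208208608208208607e081f8210041 z (n
 0xd87282386181e7a281f7238237e17e17df8df8628207de81f89c8617df7df81e8e18a08218208620041 z z)) (n
 0 z (n 0 z (n 0 z z))))) (n 0 (n 0 z (n 0 z (n 0 z (n 0 z (n 0 z z))))) (n 0 (n 0 z (n 0 z (n 0
 z (n 0 (n
 0x10e50e28037e082082086082086081d82085f82082082082082082082082081f8208207e08207e08208200801 z
 z) (n 0 z z))))) (n 0 (n 0 z (n 0 z (n 0 z (n 0 z (n 0 z z))))) (n 0 (n 0 (n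
 0xd87482386181e7a281f7238237e17e17df8df8628207de81f89c8617df7df81e8e18a08218208620041 z (n
 0x10c8e846070821 z z)) (n 0 (n
 0x2e650a28078208628208208207e08208617e08208208207e08208a08208218208208207e08207df8208200801 z
 (n 0x30870864037a175c9608e18dc8de8e07dc6608658e579e7df7e58e37a17a086679b8618627236db7a48640801
 z z)) (n 0 (n 8791835 z (n
 0x30cae846078608218208208208208218207e07e082082081f8208608208208208208208208208208208200801 z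
 z)) (n 0 (n 8787771 z (n
 0x2a8718208e67617a672086182071e7a37e26a37dd82385f85b8626e37e17647e271e86485f9627dd0041 z z)) (n
 0 z z))))) (n 0 (n 0 z (n 0 (n 8660747 z z) (n 0 z (n 0 z (n 0 z z))))) (n 0 (n 0 (n
 0xd87482386181e7a281f7238237e17e17df8df8628207de81f89c8617df7df81e8e18a08218208620041 z (n
 0x10870864037e181e81f8608208208208208208208208208208208208208208208208208608208208208200801 z
 z)) (n 0 (n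
 0xd87482386181e7a281f7238237e17e17df8df8628207de81f89c8617df7df81e8e18a08218208620041 z (n
 0x2e650a28078208218208208208208208208208208208208208208208608208208208208208208208208200801 z
 z)) (n 0 z (n 0 (n 4331643 z (n 4331643 z z)) (n 0 z z))))) (n 0 (n 0 z (n 0 z (n 0 z (n 0 z (n
 0 z z))))) (n 0 (n 0 (n
 0xd87482386181e7a281f7238237e17e17df8df8628207de81f89c8617df7df81e8e18a08218208620041 z (n
 0x10870864037e181e81f8608208208208208208208208208208208208208208208208208608208208208200801 z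
 z)) (n 0 (n
 0xd87482386181e7a281f7238237e17e17df8df8628207de81f89c8617df7df81e8e18a08218208620041 z (n
 0x10870864037e181e81f8608208208208208208208208208208208208208208208208208608208208208200801 z
 z)) (n 0 z (n 0 (n 8787771 z (n
 0x2a8718208e67617a576086182075e7637e266381d82382085d82272182076272372182385f9a381e0041 z z)) (n
 0 z z))))) (n 0 (n 0 (n
 0x10870864037e181e81f8608208208208208208208208208208208208208208208208208608208208208200801 z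
 z) (n 0 z (n 0 z (n 0 (n
 0x10e90e84037e082082082082082181e82081f82082082082082086082082082082082081f82081f8208200801 z
 z) (n 0 z z))))) (n 0 (n 0 z (n 0 z (n 0 z (n 0 z (n 0 z z))))) z)))))))))))))))))))))))))
 z))))))))))))))))))))) z)))) z) z)))) z)), by decide +kernel⟩
theorem i11276 : ∃ t, chkR KT RW t 11276 11286 = true := ⟨(n
 0x9226829a5604d293049b88225c21a4cd0d470a680 (n 0 (n 155 (n 0 z (n 0 z (n 2 z (n 0 z (n 0 z (n 0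
 z (n 6561875 z (n 0 z z)))))))) (n 33 (n 0 z (n 0 z (n 6623755 z (n 0 z (n 0 z (n 0 z (n 0 z
 z))))))) (n 9 (n 0 z (n 0 z (n 0 z (n 0 z (n 0 z (n 6561875 z z)))))) (n 3 (n 6632459 z (n
 0xc62181e8628a27e06e189f89e6e081e85d8618e27e48627627e475a7df8627a27e17a092086081f0041 z (n 10 z
 (n 0 z (n 0 z (n 0 z (n 0 z (n 0 z (n
 0xca4ca08037e181e86085f82086082082085f86081f82181f8208208207e08208208208a08208208208200801 z (n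
 18 z (n 26 z (n 0 z (n 0 z (n 34 z (n 0 z (n 0 z (n 0 z (n 6632459 z (n 0 z (n 0 z (n 0 z (n 0
 z z)))))))))))))))))))))) (n 1 (n 0 z (n 0 z (n 0 z (n 0 z (n 0 z (n 0 z (n 0 z (n 0 z (n 0 z
 (n 42 z (n 0 z (n 6561875 z (n 0 z (n 0 z (n 0 z z))))))))))))))) (n 0 (n 50 z (n
 0xc62081e8628a27e06e189f89e6e081e85d8618e27e48627627e475a7df8627a27e17a092086081f0041 z (n 58 z
 (n 6632459 z (n 0 z (n 0 z (n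
 0xc86c8640785e8627e07a27e18208207e086181f7e082082181f8217e08208207e081f85f8608208218210801 z (n
 6623755 z (n 6623755 z (n 0 z (n 0 z (n 0 z (n 0 z z))))))))))))) z)))))) (n 9 (n 0 (n 299 (n 0
 z (n 0 z (n 0 z (n 0 z (n 0 z (n 0 z (n 0 z (n 0 z (n 0 z (n 0 z (n 0 z (n 0 z (n 0 z (n 0 z (n
 0 z (n 2 (n 0 z (n 0 z (n 0 z (n 2 (n 0 z (n 0 z (n 0 z (n 0 z (n 0 z (n 0 z z)))))) (n 2 (n 0
 z (n 0 z (n 0 z (n 0 z (n 0 z (n 0 (n 8798259 z z) z)))))) (n 2 (n 0 z (n 0 z (n 0 z (n 0 z (n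
 0 z (n 0 (n 8798259 z z) z)))))) z)))))) (n 0 z (n 0 z (n 0 z (n 0 z (n 0 z (n 0 z (n 0 z
 z))))))))))))))))))))))) (n 299 (n 0 z (n 0 z (n 0 z (n 0 z (n 0 z (n 0 z (n 0 z (n 0 z (n 0 z
 (n 0 z (n 0 z (n 0 z (n 0 z (n 0 z (n 0 z (n 0 z (n 0 z (n 0 z (n 0 z (n 0 z (n 0 z (n 0 z (n 0
 z z))))))))))))))))))))))) (n 299 (n 0 z (n 0 z (n 0 z (n 0 z (n 0 z (n 0 z (n 0 z (n 0 z (n 0
 z (n 0 z (n 0 z (n 0 z (n 0 z (n 0 z (n 0 z (n 0 z (n 0 z (n 0 z (n 0 z (n 0 z (n 0 z (n 0 z (n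
 0 z z))))))))))))))))))))))) (n 299 (n 0 z (n 0 z (n 0 z (n 0 z (n 0 z (n 0 z (n 0 z (n 0 z (n
 0 z (n 0 z (n 0 z (n 0 z (n 0 z (n 0 z (n 0 z (n 0 z (n 0 z (n 0 z (n 0 z (n 0 z (n 0 z (n 0 z
 (n 0 z z))))))))))))))))))))))) (n 291 (n 0 z (n 0 z (n 0 z (n 0 z (n 0 z (n 0 z (n 0 z (n 0 z
 z)))))))) (n 169 (n 0 z (n 0 z (n 0 z (n 0 z (n 0 z (n 0 z (n 0 z (n 0 z (n 0 z (n 0 z
 z)))))))))) (n 169 (n 0 z (n 0 z (n 0 z (n 0 z (n 0 z (n 0 z (n 0 z (n 0 z (n 0 z (n 0 z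
 z)))))))))) z))))))) (n 0 (n 0 z (n 0 z (n 0 z (n 291 (n 0 z (n 0 z (n 0 z (n 0 z (n 0 z (n 0 z
 (n 2 (n 1 z (n 1 z z)) (n 0 z (n 0 z (n 0 z z)))))))))) (n 289 (n 2 (n 0 z z) (n 0 z (n 0 z (n
 0 z (n 0 z (n 0 z (n 0 z (n 0 z (n 0 z z))))))))) (n 289 (n 0 z (n 0 z (n 0 z (n 0 z (n 0 z (n
 0 z (n 0 z (n 0 z (n 0 z z))))))))) z)))))) (n 0 (n 0 z (n 0 z (n 243 (n 0 z (n 0 z (n 0 z (n 0
 z (n 0 z (n 0 z (n 0 z (n 0 z (n 0 z (n 0 z (n 0 z (n 0 z (n 0 z z))))))))))))) (n 1 (n 0 z (n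
 0 z (n 0 z (n 0 z (n 0 z (n 0 z (n 0 z (n 0 z (n 0 z (n 0 z z)))))))))) (n 1 (n 0 z (n 0 z (n 0
 z (n 0 z (n 0 z (n 0 z (n 0 z (n 0 z (n 0 z (n 0 z z)))))))))) z))))) (n 0 (n 0 z (n 255 (n 0 z
 (n 0 z (n 0 z (n 0 z (n 0 z (n 0 z (n 0 z (n 0 z z)))))))) (n 13 (n 0 z (n 0 z (n 0 z (n 0 z (n
 0 z (n 0 z (n 0 z (n 0 z (n 0 z (n 0 z z)))))))))) (n 13 (n 0 z (n 0 z (n 0 z (n 0 z (n 0 z (n
 0 z (n 0 z (n 0 z (n 0 z (n 0 z z)))))))))) z)))) (n 0 (n 291 (n 0 z (n 0 z (n 0 z (n 0 z (n 0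
 z (n 0 z (n 0 z (n 0 z (n 0 z (n 0 z (n 0 z (n 0 z (n 0 z z))))))))))))) (n 289 (n 0 z (n 0 z
 (n 0 z (n 0 z (n 0 z (n 0 z (n 0 z (n 0 z (n 0 z (n 0 z (n 0 z (n 0 z (n 0 z z))))))))))))) (n
 289 (n 0 z (n 0 z (n 0 z (n 0 z (n 0 z (n 0 z (n 0 z (n 0 z (n 0 z (n 0 z (n 0 z (n 0 z (n 0 z
 z))))))))))))) z))) (n 0 (n 5 (n 0 z (n 0 z (n 0 z (n 0 z (n 0 z (n 0 z (n 0 z (n 0 z (n 0 z (n
 0 z (n 0 z (n 0 z (n 0 z (n 0 z (n 0 z (n 0 z (n 0 z (n 0 z (n 0 z (n 0 z (n 0 z (n 0 z (n 0 z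
 (n 0 z (n 0 z (n 0 z z)))))))))))))))))))))))))) (n 5 (n 0 z (n 0 z (n 0 z (n 0 z (n 0 z (n 0 z
 (n 0 z (n 0 z (n 0 z (n 0 z (n 0 z (n 0 z (n 0 z (n 0 z (n 0 z (n 0 z (n 0 z (n 0 z (n 0 z (n 0
 z (n 0 z (n 0 z (n 0 z (n 0 z (n 0 z (n 0 z z)))))))))))))))))))))))))) z)) (n 0 (n 0 z z) (n 0
 z z)))))))) (n 0 (n 0 z (n 0 z (n 0 z (n 0 z (n 0 z (n 1 (n 6561875 z (n 6561875 z (n 6561875 z
 (n 6561875 z (n 6561875 z (n 6561875 z z)))))) z)))))) (n 0 z z)))) (n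
 0x1b24e8cb6b4b4224f2c2931d10969845e5b00a9900 (n 0 (n 153 (n 0 z (n 0 z (n 0 z (n 0 z (n 0 z (n
 6358347 z (n 0 z (n 2 z (n 0 z (n
 0x5ac842c6428a07e07e189d75f8217df8238a279c82081f7e18228df71e7df8207a48a38217e07dd81c81e0081 z
 (n 10 z (n 0 z (n 6496339 z (n 0 z (n 0 z (n 0 z (n 0 z (n 0 z (n 0 z z))))))))))))))))))) (n
 33 (n 0 z (n 18 z (n 0 z (n 26 z (n 6358347 z (n 0 z (n 34 z (n 0 z (n 3278363 z z))))))))) (n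
 11 (n 0 z (n 0 z (n 0 z (n 0 z (n 0 z (n 42 z (n 0 z (n 6496339 z (n 0 z (n 0 z (n 0 z (n 0 z
 (n 0 z z))))))))))))) (n 27 (n 0 z (n 0 z (n 6496339 z z))) (n 1 (n 0 z (n 0 z (n 2164299 z (n
 0 z (n 0 z (n 0 z z)))))) (n 0 (n 0 z (n
 0x5ac202c6108a07e07e189d75f8217df8238a279c82081f7e18228df71e7df8207a48a38217e07dd81c81e0081 z
 (n 2164315 z (n 0 z (n
 0x5ac402c6208a07e07e189d75f8217df8238a279c82081f7e18228df71e7df8207a48a38217e07dd81c81e0081 z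
 (n 0 z (n 0 z (n 0 z (n 0 z (n 50 z (n 58 z z))))))))))) z)))))) (n 27 (n 0 (n 0 z (n 139 (n 0
 z (n 0 z (n 0 z (n 0 z (n 0 z z))))) (n 139 (n 0 z (n 0 z (n 0 z (n 0 z (n 0 z z))))) (n 139 (n
 0 z (n 0 z (n 0 z (n 0 z (n 0 z z))))) (n 135 (n 0 z (n 0 z (n 0 z (n 0 z (n 0 z (n 0 z (n 0 z
 (n 0 z z)))))))) (n 721 (n 0 z (n 0 z (n 0 z (n 0 z (n 0 z z))))) (n 721 (n 0 z (n 0 z (n 0 z
 (n 0 z (n 0 z z))))) z))))))) (n 0 (n 1179 (n 0 z (n 0 z (n 0 z (n 0 z (n 0 z (n 2 (n 0 z (n 0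
 z (n 1 z (n 1 z (n 1 z z))))) (n 0 z (n 0 z (n 0 z (n 0 z (n 0 z (n 0 z (n 0 z (n 0 z (n 0 z (n
 0 z (n 0 z (n 0 z (n 0 z z))))))))))))))))))) (n 1179 (n 0 z (n 0 z (n 0 z (n 0 z (n 0 z (n 0 z
 (n 0 z (n 0 z (n 0 z (n
 0x5aeca2c7658a07e07e189d75f8217df8238a279c82081f7e18228df71e7df8207a48a38217e07dd81c81e0081 z
 (n 0 z (n 0 z (n 0 z (n 0 z (n 0 z (n 0 z (n 0 z (n 0 z (n 0 z z))))))))))))))))))) (n 1179 (n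
 0 z (n 0 z (n 0 z (n 0 z (n 0 z (n 0 z (n 0 z (n 0 z (n 0 z (n 0 z (n 0 z (n 0 z (n 0 z (n 0 z
 (n 0 z (n 0 z (n 0 z (n 0 z (n 0 z z))))))))))))))))))) (n 135 (n 0 z (n 0 z (n 0 z (n 0 z (n 0
 z (n 2 (n 1 z (n 1 z z)) (n 0 z (n 0 z (n 0 z (n 0 z (n 0 z (n 0 z (n 0 z (n 0 z (n 0 z (n 0 z
 z)))))))))))))))) (n 305 (n 0 z (n 0 z (n 0 z (n 0 z (n 0 z (n 0 z (n 0 z (n 0 z (n 0 z (n 0 z
 (n 0 z (n 0 z (n 0 z (n 0 z (n 0 z (n 0 z z)))))))))))))))) (n 305 (n 0 z (n 0 z (n 0 z (n 0 z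
 (n 0 z (n 0 z (n 0 z (n 0 z (n 0 z (n 0 z (n 0 z (n 0 z (n 0 z (n 0 z (n 0 z (n 0 z
 z)))))))))))))))) z)))))) (n 0 (n 0 z (n 0 z (n 1287 (n 0 z (n 0 z (n 0 z (n 0 z (n 0 z (n 0 z
 (n 0 z z))))))) (n 49 (n 0 z (n 0 z (n 0 z (n 0 z (n 0 z (n 0 z (n 0 z (n 0 z (n 0 z (n 0 z (n
 0 z (n 0 z (n 0 z (n 0 z (n 0 z (n 0 z (n 0 z (n 0 z (n 0 z (n 0 z (n 0 z (n 0 z (n 0 z (n 0 z
 (n 0 z (n 0 z (n 0 z (n 0 z (n 0 z (n 2 (n 0 z z) (n 0 z (n 0 z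
 z)))))))))))))))))))))))))))))))) (n 49 (n 0 z (n 0 z (n 0 z (n 0 z (n 0 z (n 0 z (n 0 z (n 0 z
 (n 0 z (n 0 z (n 0 z (n 0 z (n 0 z (n 0 z (n 0 z (n 0 z (n 0 z (n 0 z (n 0 z (n 0 z (n 0 z (n 0
 z (n 0 z (n 0 z (n 0 z (n 0 z (n 0 z (n 0 z (n 0 z (n 0 z (n 0 z (n 2 z
 z)))))))))))))))))))))))))))))))) z))))) (n 0 (n 0 z (n 1293 (n 0 z (n 0 z (n 0 z (n 0 z (n 2
 (n 2 (n 0 z (n 0 (n 260 z z) (n 0 z (n 0 z (n 0 (n 260 z (n 7610755 z z)) (n 0 (n 6562179 z z)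
 z)))))) (n 2 (n 0 z (n 0 z (n 0 z (n 0 z (n 0 z (n 0 z z)))))) z)) (n 0 z (n 0 z (n 0 z (n 0 z
 z))))))))) (n 65 (n 0 z (n 0 z (n 0 z (n 0 z (n 0 z (n 0 z (n 0 z (n 0 z (n 0 z (n 0 z (n 0 z
 (n 0 z (n 0 z (n 0 z z)))))))))))))) (n 65 (n 0 z (n 0 z (n 0 z (n 0 z (n 0 z (n 0 z (n 0 z (n
 0 z (n 0 z (n 0 z (n 0 z (n 0 z (n 0 z (n 0 z z)))))))))))))) z)))) (n 0 (n 779 (n 0 z (n 0 z
 (n 0 z (n 0 z z)))) (n 65 (n 0 z (n 0 z (n 0 z (n 0 z (n 0 z (n 0 z (n 0 z (n 0 z z)))))))) (n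
 65 (n 0 z (n 0 z (n 0 z (n 0 z (n 0 z (n 0 z (n 0 z (n 0 z z)))))))) z))) (n 0 (n 13 (n 0 z (n
 0 z (n 0 z (n 0 z (n 0 z (n 0 z (n 0 z (n 0 z (n 0 z (n 0 z (n 0 z z))))))))))) (n 13 (n 0 z (n
 0 z (n 0 z (n 0 z (n 0 z (n 0 z (n 0 z (n 0 z (n 0 z (n 0 z (n 2 z z))))))))))) z)) (n 0 (n 0 z
 z) (n 0 z z)))))))) (n 0 (n 0 z (n 0 z (n 1 (n 6496339 z (n 6496339 z (n 6496339 z (n 6496339 z
 (n 6496339 z (n 6496339 z z)))))) z))) (n 0 z z)))) (n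
 0xb5c545693a12d2d09326b0d271d613512d004cd6067230142c80eb480 (n 0 (n 401 (n 6561875 z (n 0 z (n
 0 z (n 2 z (n
 0xd95150c80602ca8a8240381837f8180817f7f7e817e8080828081807f827f80807e8280838183827e7e807f7d818081807f80808080808080808280801009
 z (n
 0x28c86c864077771937784ab8a9a90a081726b7b717881698890754b9472987f6e817961767174a69787945d668175849153a14eb4a662a50809
 z (n 10 z (n 6561875 z (n 0 z (n 0 z (n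
 0x8ca8a824077a75807d85817e7f847d8a867d7d7c7d7e847f81867d897881757a767f87857e808781827d7f7e807f818281837c807c81800809
 z (n
 0xeca8a62407807c827e8282808283857e7f80838081817d86808576827b828183837e8480837f85897f827483847f817e7b7e7e7f8277800809
 z (n 0 z (n 18 z (n 26 z (n 0 z (n 0 z (n 0 z (n 34 z (n 0 z z)))))))))))))))))))) (n 33 (n 0 z
 (n 3278363 z (n 0 z z))) (n 171 (n 0 z (n 0 z (n 42 z (n 0 z (n 0 z (n 0 z (n 0 z (n 6561875 z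
 (n 0 z z))))))))) (n 3 (n 2164283 z (n 0 z (n 0 z (n 0 z (n 0 z z))))) (n 1 (n 50 z (n 0 z (n 0
 z (n 6561875 z (n 0 z (n 0 z z)))))) (n 0 (n 58 z (n 66 z (n 0 z (n 0 z (n 74 z (n 2164315 z (n
 0 z (n 0 z (n 82 z (n 0 z (n 0 z z))))))))))) z)))))) (n 33 (n 0 (n 0 z (n 0 z (n 0 z (n 0 z (n
 795 (n 0 z (n 0 z (n 0 z (n 0 z (n 0 z (n 0 z (n 0 z (n 0 z (n 0 z (n 0 z (n 0 z (n 0 z
 z)))))))))))) (n 339 (n 0 z (n 0 z (n 0 z (n 0 z (n 0 z (n 0 z (n 0 z (n 0 z (n 0 z (n 0 z (n 0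
 z (n 0 z (n 0 z (n 0 z (n 0 z (n 0 z (n 0 z (n 0 z (n 0 z (n 0 z (n 0 z (n 0 z (n 0 z (n 0 z (n
 0 z (n 0 z (n 0 z (n 0 z z)))))))))))))))))))))))))))) (n 337 (n 0 z (n 0 z (n 0 z (n 0 z (n 0
 z (n 0 z (n 0 z (n 0 z (n 0 z (n 0 z (n 0 z (n 0 z z)))))))))))) (n 337 (n 0 z (n 2 (n 0 z (n 0
 z z)) (n 0 z (n 0 z (n 0 z (n 0 z (n 0 z (n 0 z (n 0 z (n 0 z (n 0 z (n 0 z z)))))))))))) (n
 337 (n 0 z (n 0 z (n 0 z (n 0 z (n 0 z (n 0 z (n 0 z (n 0 z (n 0 z (n 0 z (n 0 z (n 0 z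
 z)))))))))))) (n 337 (n 0 z (n 0 z (n 0 z (n 0 z (n 0 z (n 0 z (n 0 z (n 7754307 z (n 0 z (n 0
 z (n 0 z (n 0 z z)))))))))))) z)))))))))) (n 0 (n 0 z (n 0 z (n 0 z (n 775 (n 0 z (n 0 z (n 0 z
 (n 0 z (n 0 z (n 6620987 z (n 0 z (n 0 z (n 0 z (n 0 z (n 0 z (n 0 z (n 0 z (n 0 z (n 0 z (n 0
 z (n 0 z (n 0 z (n 0 z (n 0 z (n 0 z (n 0 z (n 0 z z))))))))))))))))))))))) (n 105 (n 6620987 z
 (n 0 z (n 0 z (n 0 z (n 0 z (n 0 z (n 0 z (n 0 z (n 0 z (n 0 z (n 0 z (n 0 z (n 0 z (n 0 z (n 0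
 z (n 0 z (n 0 z (n 0 z (n 0 z (n 0 z (n 0 z (n 0 z (n 0 z z))))))))))))))))))))))) (n 253 (n
 7745555 z (n 0 z (n 0 z (n 0 z (n 0 z (n 0 z (n 0 z (n 0 z (n 0 z (n 0 z (n 0 z (n 0 z (n 0 z
 (n 0 z (n 0 z (n 0 z (n 0 z (n 0 z (n 0 z (n 0 z (n 0 z (n 0 z (n 0 z z)))))))))))))))))))))))
 (n 253 (n 0 z (n 0 z (n 0 z (n 0 z (n 0 z (n 0 z (n 0 z (n 0 z (n 0 z (n 0 z (n 0 z (n 0 z (n 0
 z (n 0 z (n 0 z (n 0 z (n 0 z (n 0 z (n 0 z (n 0 z (n 0 z (n 0 z (n 0 z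
 z))))))))))))))))))))))) (n 253 (n 0 z (n 0 z (n 0 z (n 0 z (n 0 z (n 0 z (n 0 z (n 0 z (n 0 z
 (n 0 z (n 0 z (n 0 z (n 2 (n 0 z z) (n 0 z (n 0 z (n 0 z (n 0 z (n 0 z (n 0 z (n 0 z (n 0 z (n
 0 z (n 0 z z))))))))))))))))))))))) (n 253 (n 0 z (n 0 z (n 0 z (n 0 z (n 0 z (n 0 z (n 0 z (n
 0 z (n 0 z (n 0 z (n 0 z (n 0 z (n 0 z (n 0 z (n 0 z (n 0 z (n 0 z (n 0 z (n 0 z (n 0 z (n 0 z
 (n 0 z (n 0 z z))))))))))))))))))))))) z))))))))) (n 0 (n 0 z (n 0 z (n 801 (n 0 z (n 0 z (n 0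
 z (n 0 z (n 0 z (n 2 (n 1 z (n 1 z (n 2 (n 0 (n 8656683 z z) (n 0 z (n 0 z (n 0 z (n 0 z (n 0
 (n 6359131 z (n 8656683 z z)) z)))))) (n 1 z (n 1 z z))))) (n 0 z z))))))) (n 351 (n 0 z (n 0 z
 (n 0 z (n 2 (n 1 z (n 2 (n 0 z (n 0 z (n 0 z (n 0 z (n 0 z (n 0 z z)))))) (n 1 z (n 1 z z))))
 (n 0 z (n 0 z (n 0 z (n 0 z z)))))))) (n 797 (n 0 z (n 2 (n 0 z (n 0 z (n 0 z z))) (n 0 z (n 0
 z (n 0 z (n 0 z (n 0 z (n 0 z (n 0 z (n 0 z (n 0 z (n 0 z (n 0 z (n 0 z (n 0 z (n 0 z (n 0 z (n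
 0 z (n 0 z (n 0 z (n 0 z (n 0 z (n 0 z (n 0 z (n 0 z z))))))))))))))))))))))))) (n 797 (n 0 z
 (n 0 z (n 0 z (n 0 z (n 0 z (n 0 z (n 0 z (n 0 z (n 0 z (n 0 z (n 0 z (n 0 z (n 0 z (n 0 z (n
 0x276376320380b2a329900c0994d94c80600ea8c8240700753631203803aa320101c0dd510c080e00ea4c84207818079898477807a86867d7b8481877e8a86827d8d82787f81807b88848c80837e7a8285767e9085827b7a7e7d8385796a7d4009
 z (n 0 z (n 0 z (n 0 z (n 0 z (n 0 z (n 0 z (n 0 z (n 0 z (n 0 z (n 0 z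
 z))))))))))))))))))))))))) (n 797 (n 0 z (n 0 z (n 0 z (n 0 z (n 0 z (n 0 z (n 0 z (n 0 z (n 0
 z (n 0 z (n 0 z (n 2 (n 0 z z) (n 0 z (n 0 z (n 0 z (n 0 z (n 0 z (n 0 z (n 0 z (n 0 z (n 0 z
 (n 0 z (n 0 z (n 0 z (n 0 z z))))))))))))))))))))))))) (n 797 (n 0 z (n 0 z (n 0 z (n 0 z (n 0
 z (n 0 z (n 0 z (n 0 z (n 0 z (n 0 z (n 0 z (n 0 z (n 0 z (n 0 z (n 0 z (n 0 z (n 0 z (n 0 z (n
 0 z (n 0 z (n 0 z (n 0 z (n 0 z (n 0 z (n 0 z z))))))))))))))))))))))))) z)))))))) (n 0 (n 0 z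
 (n 727 (n 0 z (n 0 z (n 0 z (n 0 z (n 0 z (n 0 z (n 0 z (n 0 z (n 0 z (n 0 z (n 0 z (n 0 z
 z)))))))))))) (n 729 (n 0 z (n 0 z (n 0 z (n 0 z (n 0 z (n 0 z (n 0 z (n 0 z z)))))))) (n 773
 (n 0 z (n 2 (n 0 z (n 0 z (n 0 z z))) (n 0 z (n 0 z (n 0 z (n 0 z (n 0 z (n 0 z (n 0 z (n 0 z
 (n 0 z z))))))))))) (n 773 (n 0 z (n 0 z (n 0 z (n 0 z (n 0 z (n 0 z (n 0 z (n 0 z (n 0 z (n 2
 (n 0 z (n 0 z z)) (n 0 z z))))))))))) (n 773 (n 2 (n 0 z z) (n 0 z (n 0 z (n 0 z (n 0 z (n 0 z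
 (n 0 z (n 0 z (n 0 z (n 0 z (n 0 z z))))))))))) (n 773 (n 0 z (n 0 z (n 0 z (n 2 z (n 0 z (n 0
 z (n 0 z (n 0 z (n 0 z (n 0 z (n 0 z z))))))))))) z))))))) (n 0 (n 795 (n 0 z (n 0 z (n 0 z (n
 0 z (n 0 z (n 0 z (n 2 (n 1 z (n 2 (n 0 z (n 0 z (n 0 z (n 0 z (n 0 z (n 0 z z)))))) (n 2 (n 0
 z (n 0 z (n 0 z (n 0 z (n 0 z (n 0 z z)))))) (n 1 z (n 1 z z))))) (n 0 z (n 0 z (n 0 z (n 0 z
 (n 0 z (n 0 z (n 0 z (n 0 z (n 0 z (n 0 z (n 0 z (n 0 z (n 0 z (n 0 z (n 0 z (n 0 z (n 0 z (n 0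
 z z))))))))))))))))))))))))) (n 777 (n 0 z (n 2 (n 2 (n 0 z (n 0 z (n 0 z (n 0 z (n 0 z (n 0 z
 z)))))) (n 2 (n 0 z (n 0 z (n 0 z (n 0 z (n 0 z (n 0 z z)))))) (n 1 z (n 2 (n 0 z (n 0 z (n 0 z
 (n 0 z (n 0 z (n 0 z z)))))) z)))) (n 0 z (n 0 z (n 0 z (n 0 z (n 0 z (n 0 z (n 0 z z)))))))))
 (n 793 (n 0 z (n 0 z (n
 0xcc64ea280381837f7e827d81807c8080807f7f84817f807e817b857b897d7e7e817e81807f807b7b808086827e7e827e7f8182848181830809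
 z (n 0 z (n 0 z (n 0 z (n 0 z (n 0 z (n 0 z z))))))))) (n 793 (n 0 z (n 0 z (n 0 z (n 0 z (n 0
 z (n 0 z (n 0 z (n 0 z (n 0 z z))))))))) (n 793 (n 0 z (n 2 (n 0 z z) (n 0 z (n 0 z (n 0 z (n 0
 z (n 0 z (n 0 z (n 0 z z))))))))) (n 793 (n 0 z (n 0 z (n 0 z (n 0 z (n 0 z (n 0 z (n 0 z (n 0
 z (n 0 z z))))))))) z)))))) (n 0 (n 339 (n 0 z (n 0 z (n 0 z (n 0 z (n 0 z (n 0 z (n 0 z (n 0 z
 (n 0 z (n 0 z z)))))))))) (n 337 (n 0 z (n 2 (n 0 z (n 0 z (n 0 z z))) (n 0 z (n 0 z (n 0 z (n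
 0 z (n 0 z (n 0 z (n 0 z (n 0 z (n 0 z (n 0 z z)))))))))))) (n 337 (n 0 z (n 0 z (n 2 (n 0 z (n
 0 z z)) (n 0 z (n 0 z (n 0 z (n 0 z (n 0 z (n 0 z (n 0 z (n 0 z (n 0 z z)))))))))))) (n 337 (n
 0 z (n 0 z (n 0 z (n 0 z (n 0 z (n 0 z (n 0 z (n 0 z (n 0 z (n 0 z (n 0 z (n 0 z z))))))))))))
 (n 337 (n 0 z (n 0 z (n 0 z (n 0 z (n 0 z (n 0 z (n 0 z (n 0 z (n 7754307 z (n 0 z (n 0 z (n 0
 z z)))))))))))) z))))) (n 0 (n 1 (n 0 z (n 0 z (n 0 z (n 0 z (n 0 z (n 0 z (n 0 z (n 0 z (n 0 z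
 (n 0 z (n 0 z (n 0 z (n 0 z (n 0 z (n 0 z (n 0 z (n 0 z (n 0 z (n 0 z (n 0 z (n 0 z (n 0 z (n 0
 z (n 0 z (n 0 z (n 0 z (n 0 z (n 0 z (n 0 z (n 0 z (n 0 z (n 0 z (n 0 z (n 0 z (n 0 z (n 0 z (n
 0 z (n 0 z (n 0 z (n 0 z (n 0 z (n 0 z (n 0 z (n 0 z (n 0 z (n 0 z
 z)))))))))))))))))))))))))))))))))))))))))))))) (n 1 (n 0 z (n 0 z (n 0 z (n 0 z (n 0 z (n 0 z
 (n 0 z (n 0 z (n 0 z (n 0 z (n 0 z (n 0 z (n 0 z (n 0 z (n 0 z (n 0 z (n 0 z (n 0 z (n 0 z (n 0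
 z (n 0 z (n 0 z (n 0 z (n 0 z (n 0 z (n 0 z (n 0 z (n 0 z (n 2 (n 0 z (n 0 z z)) (n 0 z (n 0 z
 (n 0 z (n 0 z (n 0 z (n 0 z (n 0 z (n 0 z (n 0 z (n 0 z (n 0 z (n 0 z (n 0 z (n 0 z (n 0 z (n 0
 z (n 0 z z)))))))))))))))))))))))))))))))))))))))))))))) (n 1 (n 0 z (n 0 z (n 0 z (n 0 z (n 0
 z (n 0 z (n 0 z (n 0 z (n 0 z (n 0 z (n 0 z (n 0 z (n 0 z (n 0 z (n 0 z (n 0 z (n 0 z (n 0 z (n
 0 z (n 0 z (n 0 z (n 0 z (n 0 z (n 0 z (n 0 z (n 0 z (n 0 z (n 0 z (n 0 z (n 0 z (n 0 z (n 0 z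
 (n 0 z (n 0 z (n 0 z (n 0 z (n 0 z (n 0 z (n 0 z (n 0 z (n 0 z (n 0 z (n 0 z (n 0 z (n 0 z (n 0
 z z)))))))))))))))))))))))))))))))))))))))))))))) (n 1 (n 0 z (n 0 z (n 0 z (n 0 z (n 0 z (n 0
 z (n 0 z (n 0 z (n 0 z (n 0 z (n 0 z (n 0 z (n 0 z (n 0 z (n 0 z (n 0 z (n 0 z (n 0 z (n 0 z (n
 0 z (n 0 z (n 0 z (n 0 z (n 0 z (n 0 z (n 0 z (n 0 z (n 0 z (n 0 z (n 0 z (n 0 z (n 0 z (n
 7669307 z (n 0 z (n 0 z (n 0 z (n 0 z (n 0 z (n 0 z (n 0 z (n 0 z (n 0 z (n 0 z (n 0 z (n 0 z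
 (n 0 z z)))))))))))))))))))))))))))))))))))))))))))))) z)))) (n 0 (n 0 z (n 0 z (n 0 z z))) (n
 0 (n 0 z (n 0 z z)) (n 0 (n 0 z z) (n 0 z z))))))))))) (n 0 (n 0 z (n 1 (n 3278363 z (n 3278363
 z (n 3278363 z (n 3278363 z (n 3278363 z (n 3278363 z z)))))) (n 0 z z))) (n 0 z z)))) (n
 0x19baa874b542caca1545d583a9a60b4dac2c4b31524e908b595013a580b3740 (n 0 (n 279 (n 0 z (n 2 z (n
 10 z (n 6619931 z (n 18 z (n 0 z (n 3282443 z z))))))) (n 33 (n 26 z (n 0 z (n 0 z (n 6496515 z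
 z)))) (n 9 (n 0 z (n 34 z (n 42 z (n 6496515 z z)))) (n 267 (n 50 z (n 58 z (n 0 z (n 0 z (n
 6496515 z z))))) (n 1 (n 0 z (n 0 z (n 0 z (n 0 z (n 0 z (n 0 z (n 0 z (n 0 z (n 6566227 z
 z))))))))) (n 0 (n 66 z (n 74 z (n 82 z (n 0 z (n 0 z (n 0 z (n 6619931 z (n 90 z (n 0 z (n
 6623755 z z)))))))))) z)))))) (n 33 (n 0 (n 0 z (n 0 z (n 211 (n 0 z (n 0 z (n 0 z (n 2 (n 2 (n
 0 z (n 0 z (n 0 z (n 0 z (n 0 z (n 0 z z)))))) (n 2 (n 0 z (n 0 z (n 0 z (n 0 z (n 0 z (n 0 z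
 z)))))) (n 1 z (n 2 (n 0 z (n 0 z (n 0 z (n 0 z (n 0 z (n 0 z z)))))) (n 2 (n 0 z (n 0 z (n 0 z
 (n 0 z (n 0 z (n 0 z z)))))) (n 2 (n 0 z (n 0 z (n 0 z (n 0 z (n 0 z (n 0 z z)))))) (n 2 (n 0 z
 (n 0 z (n 0 z (n 0 z (n 0 z (n 0 z z)))))) (n 2 (n 0 z (n 0 z (n 0 z (n 0 z (n 0 z (n 0 z
 z)))))) z)))))))) (n 0 z (n 0 z (n 0 z (n 0 z (n 0 z (n 0 z (n 0 z (n 0 z (n 0 z (n 0 z (n 0 z
 (n 0 z z)))))))))))))))) (n 775 (n 0 z (n 0 z (n 0 z (n 0 z (n 0 z (n 0 z (n 0 z (n 0 z (n 0 z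
 (n 0 z (n 0 z (n 0 z (n 0 z (n 0 z (n 0 z z))))))))))))))) (n 775 (n 0 z (n 0 z (n 2 (n 2 (n 0
 z (n 0 z (n 0 z (n 0 z (n 0 z (n 0 z z)))))) (n 2 (n 0 z (n 0 z (n 0 z (n 0 z (n 0 z (n 0 z
 z)))))) (n 2 (n 0 z (n 0 z (n 0 z (n 0 z (n 0 z (n 0 z z)))))) (n 2 (n 0 z (n 0 z (n 0 z (n 0
 (n 8868915 z (n 8868915 z z)) (n 0 (n 8868915 z z) (n 0 (n 8868915 z z) z)))))) (n 2 (n 0 z (n
 0 z (n 0 z (n 0 z (n 0 z (n 0 z z)))))) (n 2 (n 0 z (n 0 z (n 0 z (n 0 z (n 0 z (n 0 z z))))))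
 z)))))) (n 0 z (n 0 z (n 0 z (n 0 z (n 0 z (n 0 z (n 0 z (n 0 z (n 0 z (n 0 z (n 0 z (n 0 z
 z))))))))))))))) (n 555 (n 0 z (n 2 (n 0 z (n 1 z (n 2 (n 0 z (n 0 z (n 0 z (n 0 z (n 0 z (n 0
 z z)))))) (n 1 z (n 1 z z))))) (n 0 z (n 0 z (n 0 z (n 0 z (n 0 z (n 0 z z)))))))) (n 555 (n 0
 z (n 0 z (n 0 z (n 0 z (n 0 z (n 0 z (n 0 z (n 0 z z)))))))) (n 557 (n 0 z (n 0 z (n 0 z (n 0 z
 (n 0 z (n 0 z (n 0 z (n 2 (n 0 z (n 0 z (n 0 z z))) z)))))))) (n 557 (n 0 z (n 0 z (n 0 z (n 0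
 z (n 2 (n 0 z (n 0 z z)) (n 0 z (n 0 z (n 0 z z)))))))) (n 557 (n 0 z (n 0 z (n 0 z (n 0 z (n 0
 z (n 0 z (n 0 z (n 0 z z)))))))) (n 557 (n 0 z (n 0 z (n 0 z (n 0 z (n 0 z (n 0 z (n 0 z (n 0 z
 z)))))))) z))))))))))) (n 0 (n 0 z (n 511 (n 0 z (n 0 z (n 0 z (n 0 z (n 0 z (n 0 z (n 0 z (n 0
 z (n 0 z (n 0 z (n 0 z (n 0 z z)))))))))))) (n 343 (n 0 z (n 0 z (n 0 z (n 0 z (n 0 z (n 0 z (n
 0 z (n 0 z (n 0 z (n 0 z (n 0 z (n 0 z (n 0 z (n 0 z (n 0 z (n 0 z z)))))))))))))))) (n 343 (n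
 0 z (n 2 (n 2 (n 0 z (n 0 z (n 0 z (n 0 z (n 0 z (n 0 z z)))))) (n 2 (n 0 z (n 0 z (n 0 z (n 0
 z (n 0 z (n 0 z z)))))) (n 2 (n 0 z (n 0 z (n 0 z (n 0 z (n 0 z (n 0 z z)))))) (n 2 (n 0 z (n 0
 z (n 0 z (n 0 z (n 0 z (n 0 z z)))))) (n 2 (n 0 z (n 0 z (n 0 z (n 0 z (n 0 z (n 0 z z)))))) (n
 2 (n 0 z (n 0 z (n 0 z (n 0 z (n 0 z (n 0 z z)))))) z)))))) (n 0 z (n 0 z (n 0 z (n 0 z (n 0 z
 (n 0 z (n 0 z (n 0 z (n 0 z (n 0 z (n 0 z (n 0 z (n 0 z (n 0 z z)))))))))))))))) (n 487 (n 0 z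
 (n 0 z (n 0 z (n 0 z (n 0 z (n 0 z (n 0 z (n 0 z (n 0 z (n 0 z (n 0 z (n 0 z z)))))))))))) (n
 487 (n 0 z (n 2 (n 2 (n 0 z (n 0 z (n 0 z (n 0 z (n 0 z (n 0 z z)))))) (n 2 (n 0 z (n 0 z (n 0
 z (n 0 z (n 0 z (n 0 z z)))))) (n 2 (n 0 z (n 0 z (n 0 z (n 0 z (n 0 z (n 0 z z)))))) (n 2 (n 0
 z (n 0 z (n 0 z (n 0 z (n 0 z (n 0 z z)))))) z)))) (n 0 z (n 0 z (n 0 z (n 0 z (n 0 z (n 0 z (n
 0 z (n 0 z (n 0 z (n 0 z z)))))))))))) (n 533 (n 0 z (n 0 z (n 0 z (n 0 z (n 0 z (n 2 (n 0 z (n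
 0 z (n 0 z z))) (n 0 z (n 0 z (n 0 z z))))))))) (n 533 (n 0 z (n 0 z (n 0 z (n 0 z (n 0 z (n 0
 z (n 2 (n 0 z (n 0 z z)) (n 0 z (n 0 z z))))))))) (n 533 (n 0 z (n 0 z (n 0 z (n 0 z (n 0 z (n
 0 z (n 0 z (n 0 z (n 0 z z))))))))) (n 533 (n 0 z (n 0 z (n 0 z (n 0 z (n 0 z (n 0 z (n 0 z (n
 0 z (n 0 z z))))))))) z)))))))))) (n 0 (n 83 (n 0 z (n 0 z (n 0 z (n 0 z (n 0 z (n 0 z (n 0 z
 (n 0 z (n 0 z (n 0 z (n 0 z (n 0 z (n 0 z (n 0 z (n 2 (n 2 (n 0 z (n 0 z (n 0 z (n 0 z (n 0 z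
 (n 0 z z)))))) (n 2 (n 0 z (n 0 z (n 0 z (n 0 z (n 0 z (n 0 z z)))))) (n 1 z (n 2 (n 0 z (n 0 z
 (n 0 z (n 0 z (n 0 z (n 0 z z)))))) (n 1 z (n 2 (n 0 z (n 0 z (n 0 z (n 0 z (n 0 z (n 0 z
 z)))))) (n 2 (n 0 z (n 0 z (n 0 z (n 0 z (n 0 z (n 0 z z)))))) (n 2 (n 0 z (n 0 z (n 0 z (n 0 z
 (n 0 z (n 0 z z)))))) z)))))))) (n 0 z z)))))))))))))))) (n 971 (n 0 z (n 0 z (n 2 (n 0 z (n 2
 (n 0 z (n 0 z (n 0 z (n 0 z (n 0 z (n 0 z z)))))) (n 1 z (n 1 z (n 1 z (n 2 (n 0 z (n 0 z (n 0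
 z (n 0 z (n 0 z (n 0 z z)))))) (n 2 (n 0 z (n 0 z (n 0 z (n 0 z (n 0 z (n 0 z z)))))) z)))))))
 (n 0 z (n 0 z (n 0 z (n 0 z (n 0 z (n 0 z (n 0 z (n 0 z (n 0 z (n 0 z (n 0 z (n 0 z
 z))))))))))))))) (n 971 (n 0 z (n 0 z (n 0 z (n 0 z (n 0 z (n 0 z (n 0 z (n 0 z (n 0 z (n 0 z
 (n 0 z (n 0 z (n 0 z (n 0 z (n 0 z z))))))))))))))) (n 555 (n 0 z (n 2 (n 0 z (n 1 z (n 2 (n 0
 z (n 0 z (n 0 z (n 0 z (n 0 z (n 0 z z)))))) (n 2 (n 0 z (n 0 z (n 0 z (n 0 z (n 0 z (n 0 z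
 z)))))) (n 2 (n 0 z (n 0 z (n 0 z (n 0 z (n 0 z (n 0 z z)))))) z))))) (n 0 z (n 0 z (n 0 z (n 0
 z (n 0 z (n 0 z (n 0 z z))))))))) (n 555 (n 0 z (n 0 z (n 0 z (n 0 z (n 0 z (n 0 z (n 0 z (n 0
 z (n 0 z z))))))))) (n 553 (n 0 z (n 0 z (n 0 z (n 0 z (n 0 z (n 0 z (n 0 z (n 2 (n 0 z (n 0 z
 (n 0 z z))) (n 0 z (n 0 z z)))))))))) (n 553 (n 0 z (n 0 z (n 0 z (n 0 z (n 0 z (n 0 z (n 0 z
 (n 0 z (n 0 z (n 0 z z)))))))))) (n 553 (n 0 z (n 0 z (n 0 z (n 2 (n 0 z z) (n 0 z (n 0 z (n 0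
 z (n 0 z (n 0 z (n 0 z z)))))))))) (n 553 (n 0 z (n 2 z (n 0 z (n 0 z (n 0 z (n 0 z (n 0 z (n 0
 z (n 0 z (n 0 z z)))))))))) z))))))))) (n 0 (n 107 (n 0 z (n 0 z (n 0 z (n 0 z z)))) (n 107 (n
 0 z (n 0 z (n 0 z (n 0 z z)))) (n 535 (n 0 z (n 0 z (n 0 z (n 0 z (n 0 z (n 0 z (n 0 z (n 0 z
 (n 0 z (n 0 z z)))))))))) (n 535 (n 0 z (n 2 (n 1 z (n 1 z (n 2 (n 0 z (n 0 z (n 0 z (n 0 z (n
 0 z (n 0 z z)))))) (n 2 (n 0 z (n 0 z (n 0 z (n 0 z (n 0 z (n 0 z z)))))) z)))) (n 0 z (n 0 z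
 (n 0 z (n 0 z (n 0 z (n 0 z (n 0 z (n 0 z z)))))))))) (n 533 (n 0 z (n 0 z (n 0 z (n 0 z (n 0 z
 (n 0 z (n 0 z z))))))) (n 533 (n 0 z (n 0 z (n 0 z (n 0 z (n 2 (n 0 z (n 0 z z)) (n 0 z (n 0 z
 z))))))) (n 533 (n 0 z (n 0 z (n 0 z (n 0 z (n 0 z (n 0 z (n 0 z z))))))) (n 533 (n 0 z (n 0 z
 (n 0 z (n 2 z (n 0 z (n 0 z (n 0 z z))))))) z)))))))) (n 0 (n 0 z (n 7 (n 0 z (n 0 z (n 0 z (n
 0 z (n 0 z (n 0 z z)))))) (n 7 (n 0 z (n 0 z (n 0 z (n 0 z (n 0 z (n 0 z z)))))) (n 97 (n 0 z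
 (n 0 z (n 0 z (n 0 z (n 2 (n 0 z (n 0 z (n 0 z z))) (n 0 z (n 0 z (n 0 z (n 0 z z))))))))) (n
 97 (n 0 z (n 0 z (n 2 (n 0 z (n 0 z z)) (n 0 z (n 0 z (n 0 z (n 0 z (n 0 z (n 0 z z))))))))) (n
 97 (n 0 z (n 0 z (n 0 z (n 0 z (n 0 z (n 0 z (n 0 z (n 0 z (n 0 z z))))))))) (n 97 (n 0 z (n 0
 z (n 0 z (n 0 z (n 0 z (n 0 z (n 0 z (n 0 z (n 0 z z))))))))) z))))))) (n 0 (n 267 (n 2 (n 0 z
 (n 2 (n 0 z (n 0 z (n 0 z (n 0 z (n 0 z (n 0 z z)))))) (n 2 (n 0 z (n 0 z (n 0 z (n 0 z (n 0 z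
 (n 0 z z)))))) (n 2 (n 0 z (n 0 z (n 0 z (n 0 z (n 0 z (n 0 z z)))))) (n 2 (n 0 z (n 0 z (n 0 z
 (n 0 z (n 0 z (n 0 z z)))))) z))))) (n 0 z (n 0 z (n 0 z (n 0 z z))))) (n 267 (n 0 z (n 0 z (n
 0 z (n 0 z (n 0 z z))))) (n 13 (n 0 z (n 0 z (n 0 z (n 0 z (n 0 z (n 0 z (n 0 z z))))))) (n 13
 (n 0 z (n 0 z (n 0 z (n 0 z (n 0 z (n 0 z (n 0 z z))))))) (n 13 (n 0 z (n 0 z (n 2 (n 0 z z) (n
 0 z (n 0 z (n 0 z (n 0 z z))))))) (n 13 (n 0 z (n 0 z (n 0 z (n 0 z (n 0 z (n 0 z (n 2 z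
 z))))))) z)))))) (n 0 (n 0 z (n 481 (n 0 z (n 0 z (n 0 z (n 0 z (n 0 z (n 0 z (n 0 z (n 0 z (n
 0 z (n 0 z (n 0 z (n 0 z (n 0 z (n 0 z (n 0 z (n 0 z (n 0 z (n 0 z (n 0 z (n 0 z (n 0 z (n 0 z
 (n 0 z (n 0 z (n 0 z z))))))))))))))))))))))))) (n 481 (n 0 z (n 2 (n 0 z (n 0 z z)) (n 0 z (n
 0 z (n 0 z (n 0 z (n 0 z (n 0 z (n 0 z (n 0 z (n 0 z (n 0 z (n 0 z (n 0 z (n 0 z (n 0 z (n 0 z
 (n 0 z (n 0 z (n 0 z (n 0 z (n 0 z (n 0 z (n 0 z (n 0 z z))))))))))))))))))))))))) (n 481 (n 0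
 z (n 0 z (n 0 z (n 0 z (n 0 z (n 0 z (n 0 z (n 0 z (n 0 z (n 0 z (n 0 z (n 0 z (n 0 z (n 0 z (n
 0 z (n 0 z (n 0 z (n 0 z (n 0 z (n 0 z (n 0 z (n 0 z (n 0 z (n 0 z (n 0 z
 z))))))))))))))))))))))))) (n 481 (n 0 z (n 0 z (n 0 z (n 0 z (n 0 z (n 0 z (n 0 z (n 0 z (n 0
 z (n 0 z (n 0 z (n 0 z (n 0 z (n 0 z (n 0 z (n 2 z (n 0 z (n 0 z (n 0 z (n 0 z (n 0 z (n 0 z (n
 0 z (n 0 z (n 0 z z))))))))))))))))))))))))) z))))) (n 0 (n 533 (n 0 z (n 0 z (n 0 z (n 0 z (n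
 0 z (n 0 z (n 0 z (n 0 z (n 0 z (n 0 z (n 0 z (n 0 z (n 0 z (n 0 z (n 0 z (n 2 (n 0 z (n 0 z (n
 0 z z))) (n 0 z (n 0 z (n 0 z z))))))))))))))))))) (n 533 (n 0 z (n 0 z (n 0 z (n 0 z (n 0 z (n
 0 z (n 0 z (n 0 z (n 0 z (n 0 z (n 0 z (n 0 z (n 0 z (n 2 (n 0 z (n 0 z z)) (n 0 z (n 0 z (n 0
 z (n 0 z (n 0 z z))))))))))))))))))) (n 533 (n 0 z (n 0 z (n 2 (n 0 z z) (n 0 z (n 0 z (n 0 z
 (n 0 z (n 0 z (n 0 z (n 0 z (n 0 z (n 0 z (n 0 z (n 0 z (n 0 z (n 0 z (n 0 z (n 0 z (n 0 z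
 z))))))))))))))))))) (n 533 (n 0 z (n 0 z (n 0 z (n 0 z (n 0 z (n 0 z (n 0 z (n 0 z (n 0 z (n 0
 z (n 0 z (n 0 z (n 0 z (n 0 z (n 0 z (n 0 z (n 0 z (n 0 z (n 0 z z))))))))))))))))))) z)))) (n
 0 (n 0 z (n 0 z (n 0 z z))) (n 0 (n 0 z (n 0 z z)) (n 0 (n 0 z z) (n 0 z z)))))))))))) (n 0 (n
 1 (n 2236 z (n 2236 z (n 76 z (n 2236 z (n 6619931 z (n 2236 z z)))))) (n 0 z (n 0 z (n 1 (n
 6496515 z (n 6496515 z (n 6496515 z (n 6496515 z (n 6496515 z (n 6496515 z z)))))) z)))) (n 0 z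
 z)))) (n 0x639da0dd9dc1b5622834b2a41271c29 (n 0 (n 153 (n
 0x2ca8a8420386082081f81f8218a16e17e18e07df8217df81f81e89f8207e181f8207e08217e08208228210801 z
 (n 0 z (n 0 z (n 0 z (n 0 z (n 3282443 z (n 0 z z))))))) (n 33 (n 0 z (n 2 z (n 0 z (n 3278363
 z (n 0 z (n 0 z (n 10 z z))))))) (n 9 (n 18 z (n 0 z (n 0 z (n 0 z (n 6496523 z (n 0 z (n 0 z
 (n 0 z (n 0 z (n 0 z z)))))))))) (n 27 (n
 0x2ca8a8420386082081f81f8218a16e17e18e07df8217df81f81e89f8207e181f8207e08217e08208228210801 z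
 (n 0 z (n 0 z (n 6496523 z (n 0 z (n 0 z (n 0 z (n 0 z (n 0 z (n 0 z (n 0 z (n 0 z (n 0 z (n 0
 z z)))))))))))))) (n 1 (n 0 z (n 0 z (n 0 z (n 0 z (n 2164299 z (n 26 z (n 0 z (n 0 z z))))))))
 (n 0 (n 34 z (n 2164315 z (n 42 z (n 0 z (n 0 z (n 0 z z)))))) z)))))) (n 0 (n 0 (n 0 z (n 927
 (n 0 z (n 0 z (n 0 z z))) (n 925 (n 0 z (n 0 z (n 0 z (n 0 z (n 0 z (n 0 z (n 0 z z))))))) (n
 65 (n 0 z (n 0 z (n 0 z (n 0 z (n 0 z (n 0 z z)))))) (n 65 (n 0 z (n 0 z (n 0 z (n 0 z (n 0 z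
 (n 0 z z)))))) z))))) (n 0 (n 31 (n 0 z (n 0 z (n 0 z (n 0 z z)))) (n 51 (n 0 z (n 0 z (n 0 z
 (n 0 z (n 0 z (n 0 z (n 0 z z))))))) (n 5 (n 0 z (n 2 (n 0 z z) (n 0 z (n 0 z (n 0 z (n 0 z
 z)))))) (n 5 (n 0 z (n 0 z (n 0 z (n 0 z (n 0 z (n 0 z z)))))) z)))) (n 0 (n 937 (n 0 z (n 0 z
 (n 0 z (n 0 z (n 0 z (n 0 z (n 0 z (n 0 z (n 0 z z))))))))) (n 13 (n 0 z (n 0 z (n 0 z (n 0 z
 (n 0 z (n 0 z (n 0 z (n 0 z (n 0 z z))))))))) (n 13 (n 0 z (n 0 z (n 0 z (n 0 z (n 0 z (n 0 z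
 (n 0 z (n 0 z (n 0 z z))))))))) z))) (n 0 (n 241 (n 0 z (n 0 z (n 0 z (n 0 z (n 0 z (n 0 z
 z)))))) (n 241 (n 0 z (n 2 z (n 0 z (n 0 z (n 0 z (n 0 z z)))))) z)) (n 0 (n 0 z z) (n 0 z
 z)))))) (n 0 (n 1 (n 1228 z (n 1228 z (n 1228 z (n 1228 z (n 1228 z (n 1228 z z)))))) (n 1 (n
 2164315 z (n 2164315 z (n 2164315 z (n 2164315 z (n 2164315 z (n 2164315 z z)))))) (n 1 (n 1228
 z (n 1228 z (n 1228 z (n 1228 z (n 1228 z (n 1228 z z)))))) (n 0 z (n 0 z (n 0 z z)))))) (n 0 z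
 z)))) (n 0x51c7688e39438dc81eb2541c6d312b7730924d0ad34c5693503396980 (n 0 (n 693 (n 0 z (n 0 z
 (n 0 z (n 0 z (n 0 z (n 0 z (n 0 z (n 4331019 z (n 3282443 z (n 0 z (n 0 z (n 0 z (n 0 z (n 0 z
 (n 0 z (n 0 z (n 0 z (n 0 z (n 0 z (n 0 z (n 0 z (n 0 z (n 2 z (n 0 z (n 0 z (n 0 z
 z)))))))))))))))))))))))))) (n 461 (n
 0x2a64ca280382082082086082082082082085f8208208208608208218217e08208608207e08208208208200801 z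
 (n 3278363 z (n
 0x2a64ca280381f82082185f7e08a082086185f82081f8208208208208618607df81f81f82185f82089f8600801 z
 (n 0 z (n 0 z (n
 0xca2a408038208618208208608607df8208607df7df82082082082082181f8608208208208208208208200801 z (n
 0 z (n 10 z (n 0 z (n
 0x2ca264080386082082082082086081f82085f7e082082081f8208208207e08208208208208208208208200801 z
 (n 0 z (n 0 z (n 0 z z))))))))))))) (n 11 (n 18 z (n 0 z (n 26 z (n 3212843 z (n 0 z (n 34 z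
 z)))))) (n 27 (n
 0x1d61082079f8a08607de8207e082086082082276086081f82081e7e082085f86286281e85e7e089f0041 z (n 42
 z (n 4331067 z (n 2164283 z (n 0 z (n 0 z (n 0 z (n 0 z (n 0 z (n 0 z (n 0 z (n 0 z (n 0 z (n
 0x1d64282079f8a08607de8207e082086082082276086081f82081e7e082085f86286281e85e7e089f0041 z (n 50
 z (n 0 z (n 0 z z))))))))))))))))) (n 1 (n 58 z (n 2164299 z (n 0 z (n 66 z (n 74 z (n 0 z (n 0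
 z z))))))) (n 0 (n 0 z (n 6619675 z (n
 0x2ca88602078208208208208a089f81e7a089e8217608238228208208207a28207a082081e8208e08208200801 z
 (n 0 z (n 82 z (n 6619675 z (n 0 z (n 0 z (n 0 z (n 0 z (n 6619675 z (n 0 z (n 0 z (n 0 z (n 0
 z (n
 0xaca88602037e182276082082282086086089f8618207a082081f7e28236e38217df7e27e47e281f86381f0801 z
 (n 0 z (n 0 z (n 0 z (n 0 z z)))))))))))))))))))) z)))))) (n 11 (n 0 (n 167 (n 0 z (n 0 z (n 0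
 z (n 0 z (n 0 z (n 0 z (n 0 z (n 0 z (n 2 (n 1 z (n 1 z (n 1 z (n 1 z (n 1 z (n 1 z (n 1 z (n 1
 z (n 1 z z))))))))) (n 0 z (n 0 z (n 0 z (n 0 z (n 0 z (n 0 z (n 0 z (n 0 z (n 0 z (n 0 z (n 0
 z (n 0 z (n 0 z (n 0 z (n 0 z (n 0 z (n 0 z z)))))))))))))))))))))))))) (n 1385 (n 0 z (n 0 z
 (n 0 z (n 0 z (n 0 z (n 0 z (n 0 z (n 0 z (n 0 z (n 0 z (n 0 z (n 0 z (n 0 z (n 0 z (n 0 z (n 0
 z (n 0 z (n 0 z (n 0 z (n 0 z (n 0 z (n 0 z (n 0 z z))))))))))))))))))))))) (n 1385 (n 0 z (n 0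
 z (n 0 z (n 0 z (n 0 z (n 0 z (n 0 z (n 0 z (n 0 z (n 0 z (n 0 z (n 0 z (n 0 z (n 0 z (n 0 z (n
 0 z (n 0 z (n 0 z (n 0 z (n 0 z (n 0 z (n 0 z (n 0 z z))))))))))))))))))))))) (n 1385 (n 0 z (n
 0 z (n 0 z (n 0 z (n 0 z (n 0 z (n 0 z (n 0 z (n 0 z (n 0 z (n 0 z (n 0 z (n 0 z (n 0 z (n 0 z
 (n 0 z (n 0 z (n 0 z (n 0 z (n 0 z (n 0 z (n 0 z (n 0 z z))))))))))))))))))))))) (n 165 (n 0 z
 (n 0 z (n 0 z (n 0 z (n 0 z (n 0 z (n 0 z (n 0 z (n 0 z (n 0 z (n 0 z (n 0 z (n 0 z (n 0 z (n 0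
 z (n 0 z (n 0 z (n 0 z (n 0 z (n 0 z (n 0 z (n 0 z (n 0 z z))))))))))))))))))))))) (n 165 (n 0
 z (n 0 z (n 0 z (n 0 z (n 0 z (n 0 z (n 0 z (n 0 z (n 0 z (n 0 z (n 0 z (n 0 z (n 0 z (n 0 z (n
 0 z (n 0 z (n 0 z (n 0 z (n 0 z (n 0 z (n 0 z (n 0 z (n 0 z z))))))))))))))))))))))) (n 303 (n
 0 z (n 0 z (n 0 z (n 0 z (n 0 z (n 0 z (n 0 z (n 0 z (n 0 z (n 0 z (n 0 z (n 0 z (n 0 z (n 0 z
 (n 0 z (n 0 z (n 0 z (n 0 z (n 0 z (n 0 z (n 0 z (n 0 z (n 0 z z))))))))))))))))))))))) (n 303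
 (n 0 z (n 0 z (n 0 z (n 0 z (n 0 z (n 0 z (n 0 z (n 0 z (n 0 z (n 0 z (n 0 z (n 0 z (n 0 z (n 0
 z (n 0 z (n 0 z (n 0 z (n 0 z (n 0 z (n 0 z (n 0 z (n 0 z (n 0 z z))))))))))))))))))))))) (n
 303 (n 0 z (n 0 z (n 0 z (n 0 z (n 0 z (n 0 z (n 0 z (n 0 z (n 0 z (n 0 z (n 0 z (n 0 z (n 0 z
 (n 0 z (n 0 z (n 0 z (n 0 z (n 0 z (n 0 z (n 0 z (n 0 z (n 0 z (n 0 z z)))))))))))))))))))))))
 (n 301 (n 0 z (n 0 z (n 0 z (n 0 z (n 0 z (n 0 z (n 0 z (n 0 z (n 2 z (n 0 z (n 0 z (n 0 z (n 0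
 z (n 0 z (n 0 z (n 0 z (n 0 z (n 0 z (n 0 z (n 0 z (n 0 z (n 0 z (n 0 z (n 0 z (n 0 z (n 0 z
 z)))))))))))))))))))))))))) z)))))))))) (n 0 (n 375 (n 0 z (n 0 z (n 0 z (n 0 z (n 0 z (n 0 z
 (n 0 z (n 0 z (n 0 z z))))))))) (n 375 (n 0 z (n 0 z (n 0 z (n 0 z (n 0 z (n 0 z (n 0 z (n 0 z
 (n 0 z z))))))))) (n 375 (n 0 z (n 0 z (n 0 z (n 0 z (n 0 z (n 0 z (n 0 z (n 0 z (n 0 z
 z))))))))) (n 441 (n 0 z (n 0 z (n 0 z (n 0 z (n 0 z (n 0 z (n 0 z z))))))) (n 441 (n 0 z (n 0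
 z (n 0 z (n 0 z (n 0 z (n 0 z (n 0 z z))))))) (n 373 (n 0 z (n 0 z (n 0 z (n 0 z (n 0 z (n 0 z
 (n 2 (n 0 z (n 0 z (n 1 z z))) (n 0 z (n 0 z z))))))))) (n 373 (n 0 z (n 0 z (n 0 z (n 0 z (n 0
 z (n 0 z (n 0 z (n 0 z (n 0 z z))))))))) (n 373 (n 0 z (n 0 z (n 0 z (n 0 z (n 0 z (n 0 z (n 0
 z (n 0 z (n 0 z z))))))))) (n 341 (n 0 z (n 0 z (n 0 z (n 0 z (n 2 z (n 0 z (n 0 z (n 0 z (n 0
 z (n 0 z (n 0 z (n 0 z (n 0 z (n 0 z (n 0 z z))))))))))))))) z))))))))) (n 0 (n 0 z (n 0 z (n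
 633 (n 0 z (n 0 z (n 0 z (n 0 z (n 0 z (n 0 z z)))))) (n 633 (n 0 z (n 0 z (n 0 z (n 2 (n 2 (n
 0 z (n 0 z (n 0 z (n 0 z (n 0 z (n 0 z z)))))) (n 1 z (n 1 z (n 1 z z)))) (n 0 z (n 0 z z))))))
 (n 937 (n 0 z (n 0 z (n 0 z (n 0 z (n 0 z (n 0 z (n 0 z (n 0 z z)))))))) (n 937 (n 0 z (n 0 z
 (n 0 z (n 0 z (n 0 z (n 0 z (n 0 z (n 0 z z)))))))) (n 937 (n 0 z (n 0 z (n 0 z (n 0 z (n 0 z
 (n 0 z (n 0 z (n 0 z z)))))))) (n 13 (n 0 z (n 0 z (n 0 z (n 0 z (n 0 z (n 0 z (n 0 z (n 0 z (n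
 0 z (n 0 z (n 0 z (n 0 z (n 0 z (n 0 z (n 0 z (n 0 z (n 0 z (n 0 z (n 0 z (n 0 z (n 0 z (n 0 z
 (n 0 z (n 0 z (n 0 z (n 0 z z)))))))))))))))))))))))))) z)))))))) (n 0 (n 0 z (n 681 (n 0 z (n
 0 z (n 0 z (n 0 z (n 0 z (n 0 z z)))))) (n 681 (n 0 z (n 0 z (n 2 (n 2 (n 0 z (n 0 z (n 0 z (n
 0 z (n 0 z (n 0 z z)))))) (n 1 z (n 1 z (n 1 z z)))) (n 0 z (n 0 z (n 0 z z)))))) (n 853 (n 0 z
 (n 0 z (n 0 z (n 0 z (n 0 z (n 2 (n 0 z (n 0 z (n 1 z z))) (n 0 z (n 0 z (n 0 z z))))))))) (n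
 853 (n 0 z (n 0 z (n 0 z (n 0 z (n 0 z (n 0 z (n 0 z (n 0 z (n 0 z z))))))))) (n 853 (n 0 z (n
 0 z (n 0 z (n 0 z (n 0 z (n 0 z (n 0 z (n 0 z (n 0 z z))))))))) (n 581 (n 0 z (n 0 z (n 0 z (n
 0 z (n 0 z (n 0 z z)))))) z))))))) (n 0 (n 59 (n 0 z (n 0 z (n 0 z (n 0 z (n 0 z (n 0 z (n 0 z
 (n 0 z (n 0 z (n 0 z (n 0 z (n 0 z (n 0 z (n 0 z (n 0 z (n 0 z (n 0 z z))))))))))))))))) (n 59
 (n 0 z (n 0 z (n 0 z (n 2 (n 2 (n 0 z (n 0 z (n 0 z (n 0 z (n 0 z (n 0 z z)))))) (n 2 (n 0 z (n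
 0 z (n 0 z (n 0 z (n 0 z (n 0 z z)))))) (n 2 (n 0 z (n 0 z (n 0 z (n 0 z (n 0 z (n 0 z z))))))
 (n 1 z z)))) (n 0 z (n 0 z (n 0 z (n 0 z (n 0 z (n 0 z (n 0 z (n 0 z (n 0 z (n 0 z (n 0 z (n 0
 z (n 0 z z))))))))))))))))) (n 51 (n 0 z (n 0 z (n 0 z (n 0 z (n 0 z (n 0 z (n 0 z (n 0 z (n 0
 z z))))))))) (n 51 (n 0 z (n 0 z (n 0 z (n 0 z (n 0 z (n 0 z (n 0 z (n 0 z (n 0 z z))))))))) (n
 51 (n 0 z (n 0 z (n 0 z (n 0 z (n 0 z (n 2 (n 1 z z) (n 0 z (n 0 z (n 0 z z))))))))) (n 49 (n 0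
 z (n 2 z (n 0 z (n 0 z (n 0 z z))))) z)))))) (n 0 (n 0 z (n 51 (n 0 z (n 2 (n 0 z (n 0 z (n 1 z
 z))) (n 0 z (n 0 z (n 0 z (n 0 z (n 0 z z))))))) (n 51 (n 0 z (n 0 z (n 0 z (n 0 z (n 2 (n 0 z
 (n 1 z z)) (n 0 z (n 0 z z))))))) (n 51 (n 0 z (n 0 z (n 0 z (n 2 (n 1 z z) (n 0 z (n 0 z (n 0
 z z))))))) (n 49 (n 0 z (n 0 z (n 0 z (n 0 z z)))) z))))) (n 0 (n 51 (n 0 z (n 0 z (n 0 z (n 0
 z (n 0 z z))))) (n 51 (n 0 z (n 0 z (n 0 z (n 0 z (n 0 z z))))) (n 51 (n 0 z (n 0 z (n 0 z (n 0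
 z (n 0 z z))))) (n 49 (n 0 z (n 0 z (n 0 z (n 0 z (n 0 z (n 0 z (n 0 z (n 0 z (n 0 z z)))))))))
 z)))) (n 0 (n 0 z (n 0 z (n 1 (n 0 z (n 0 z (n 0 z (n 0 z z)))) z))) (n 0 (n 0 z (n 5 (n 0 z (n
 0 z (n 0 z (n 0 z (n 0 z (n 0 z (n 0 z (n 0 z z)))))))) z)) (n 0 (n 53 (n 0 z (n 0 z (n 0 z (n
 0 z (n 0 z (n 0 z (n 0 z (n 0 z (n 0 z z))))))))) z) (n 0 z z))))))))))) (n 0 (n 1 (n 5548 z (n
 5548 z (n 5447779 z (n 5548 z (n 6619675 z (n 5548 z z)))))) (n 0 z (n 1 (n 5548 z (n 5548 z (n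
 5548 z (n 5548 z (n 6619675 z (n 5548 z z)))))) (n 1 (n 3212843 z (n 6619675 z (n 3212843 z (n
 3212843 z (n 3212843 z (n 3212843 z z)))))) (n 0 z (n 1 (n 5548 z (n 3282443 z (n 5548 z (n
 5548 z (n 5548 z (n 5548 z z)))))) z)))))) (n 0 z z)))) (n 0x31ced2156a54134da17364ec29 (n 0 (n
 153 (n 3282443 z (n 0 z z)) (n 39 (n 0 z (n 2 z (n 0 z (n 0 z (n 0 z (n 0 z (n 3278363 z
 z))))))) (n 9 (n 0 z (n 0 z (n 6496523 z (n 0 z z)))) (n 27 (n 10 z (n 0 z (n 0 z (n 18 z (n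
 6496523 z (n 0 z (n 0 z z))))))) (n 1 (n 26 z (n 2164299 z (n 0 z (n 0 z (n 0 z z))))) (n 0 (n
 6619675 z (n 0 z (n 34 z (n 0 z (n 0 z (n 0 z z)))))) z)))))) (n 153 (n 0 (n 1165 (n 0 z (n 0 z
 (n 0 z (n 0 z (n 2 (n 0 z (n 2 (n 0 z (n 0 z (n 0 z (n 0 z (n 0 z (n 0 z z)))))) (n 2 (n 0 z (n
 0 z (n 0 z (n 0 z (n 0 z (n 0 z z)))))) z))) (n 0 z (n 0 z z))))))) (n 1165 (n 0 z (n 0 z (n 0
 z (n 0 z (n 0 z (n 0 z (n 0 z z))))))) (n 69 (n 0 z (n 0 z (n 0 z (n 0 z z)))) (n 77 (n 0 z (n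
 0 z (n 0 z (n 0 z (n 0 z (n 0 z z)))))) z)))) (n 0 (n 0 z (n 51 (n 0 z (n 0 z (n 0 z (n 0 z (n
 0 z z))))) (n 53 (n 0 z (n 0 z (n 0 z z))) z))) (n 0 (n 51 (n 0 z (n 7750403 z (n 0 z (n 0 z (n
 0 z z))))) (n 49 (n 0 z (n 0 z (n 0 z (n 0 z (n 0 z z))))) z)) (n 0 (n 1 (n 0 z (n 0 z (n 0 z
 (n 0 z (n 0 z z))))) z) (n 0 z z))))) (n 0 (n 1 (n 6496523 z (n 3282443 z (n 3282443 z (n
 3282443 z (n 3282443 z (n 3282443 z z)))))) (n 0 z z)) (n 0 z z)))) (n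
 0xd23b4592ba8495c41d8e262c6da54329ba19 (n 0 (n 153 (n 0 z (n 3282443 z (n 0 z z))) (n 33 (n 2 z
 (n 0 z (n 10 z (n 0 z (n 0 z (n 3278363 z z)))))) (n 9 (n 0 z (n 0 z (n 6496523 z z))) (n 3 (n
 0xd6207e082082182082086082089f8218607df7a082081e82081e8218607e085f8218618628a07a00041 z (n 18 z
 (n 0xd6107e082082182082086082089f8218607df7a082081e82081e8218607e085f8218618628a07a00041 z (n 0
 z (n 0 z (n 0 z (n 0 z (n 0 z (n 0 z (n 0 z (n 0 z (n 0 z (n 0 z (n 6496523 z (n 6496523 z (n 0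
 z (n 0 z z))))))))))))))))) (n 1 (n 26 z (n 34 z (n 2164299 z (n 0 z (n 0 z z))))) (n 0 (n 0 z
 (n 0 z (n 6619675 z (n 0 z (n 0 z (n 42 z (n 50 z (n 0 z (n 0 z z))))))))) z)))))) (n 153 (n 0
 (n 0 z (n 441 (n 0 z (n 0 z (n 0 z (n 0 z (n 0 z (n 0 z z)))))) (n 63 (n 0 z (n 0 z (n 0 z (n 0
 z (n 0 z (n 0 z (n 0 z (n 0 z (n 0 z (n 0 z (n 0 z (n 0 z (n 0 z (n 0 z (n 0 z (n 0 z (n 0 z (n
 0 z (n 0 z (n 0 z (n 0 z (n 0 z (n 0 z (n 0 z (n 0 z (n 0 z z)))))))))))))))))))))))))) (n 63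
 (n 0 z (n 0 z (n 0 z (n 0 z (n 0 z (n 0 z (n 0 z (n 0 z (n 0 z (n 0 z (n 0 z (n 0 z (n 0 z (n 0
 z (n 0 z (n 0 z (n 0 z (n 0 z (n 0 z (n 0 z (n 0 z (n 0 z (n 0 z (n 0 z (n 0 z (n 0 z
 z)))))))))))))))))))))))))) (n 877 (n 0 z (n 0 z (n 0 z (n 0 z (n 0 z (n 0 z (n 0 z (n 0 z
 z)))))))) (n 877 (n 0 z (n 0 z (n 0 z (n 0 z (n 0 z (n 0 z (n 0 z (n 0 z z)))))))) z)))))) (n 0
 (n 393 (n 0 z (n 0 z (n 0 z (n 0 z (n 0 z (n 0 z z)))))) (n 345 (n 0 z (n 0 z (n 0 z (n 0 z (n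
 0 z (n 0 z z)))))) (n 345 (n 0 z (n 0 z (n 0 z (n 0 z (n 0 z (n 0 z z)))))) (n 793 (n 0 z (n 0
 z (n 0 z (n 0 z (n 0 z (n 0 z (n 0 z (n 0 z (n 0 z z))))))))) (n 793 (n 0 z (n 0 z (n 2 z (n 0
 z (n 0 z (n 0 z (n 0 z (n 0 z (n 0 z z))))))))) z))))) (n 0 (n 3 (n 0 z (n 0 z (n 0 z (n 0 z (n
 0 z (n 0 z (n 0 z z))))))) (n 3 (n 0 z (n 0 z (n 0 z (n 0 z (n 0 z (n 0 z (n 0 z z))))))) (n 1
 (n 0 z (n 0 z (n 0 z (n 0 z z)))) (n 1 (n 0 z (n 0 z (n 0 z (n 0 z z)))) z)))) (n 0 (n 0 z (n 1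
 (n 0 z (n 0 z (n 0 z (n 0 z (n 0 z (n 0 z (n 0 z (n 0 z z)))))))) (n 1 (n 0 z (n 0 z (n 0 z (n
 0 z (n 0 z (n 0 z (n 0 z (n 0 z z)))))))) z))) (n 0 (n 1 (n 0 z (n 0 z (n 0 z (n 0 z (n 0 z (n
 0 z (n 0 z (n 0 z (n 0 z z))))))))) (n 1 (n 0 z (n 0 z (n 0 z (n 0 z (n 0 z (n 0 z (n 0 z (n 0
 z (n 0 z z))))))))) z)) (n 0 (n 0 z z) (n 0 z z))))))) (n 0 (n 0 z (n 1 (n 3282443 z (n 6496523
 z (n 3282443 z (n 3282443 z (n 3282443 z (n 3282443 z z)))))) (n 0 z z))) (n 0 z z)))) (n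
 0x5ad4a2b4cd0932ad49845d6812a1609 (n 0 (n 153 (n 0 z (n 0 z (n 0 z (n 0 z (n 0 z (n 0 z (n 0 z
 (n 3282443 z (n 0 z z))))))))) (n 33 (n 0 z (n 2 z (n 10 z (n 18 z (n 3278363 z (n 0 z z))))))
 (n 9 (n 0 z (n 0 z (n 0 z (n 0 z (n 0 z (n 0 z (n 0 z (n 6562059 z (n 0 z (n 0 z (n 0 z
 z))))))))))) (n 3 (n 0 z (n 0 z (n 0 z (n 0 z (n 0 z (n 0 z (n 0 z (n 2164283 z (n 0 z (n 0 z
 (n 0 z (n 0 z (n 0 z (n 0 z (n 0 z (n 0 z (n 0 z (n 0 z z)))))))))))))))))) (n 1 (n 0 z (n 0 z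
 (n 0 z (n 0 z (n 6562059 z (n 0 z (n 0 z (n 0 z z)))))))) (n 0 (n 26 z (n 0 z (n 0 z (n 34 z (n
 2164315 z (n 42 z (n 0 z (n 0 z z)))))))) z)))))) (n 33 (n 0 (n 0 z (n 0 z (n 253 (n 0 z (n 0 z
 (n 2 (n 0 z (n 0 z z)) (n 0 z (n 0 z (n 0 z (n 0 z (n 0 z (n 0 z (n 0 z (n 0 z (n 0 z (n 0 z (n
 0 z (n 0 z (n 0 z z)))))))))))))))) (n 253 (n 0 z (n 0 z (n 0 z (n 0 z (n 0 z (n 0 z (n 0 z (n
 7741699 z (n 0 z (n 0 z (n 0 z (n 0 z (n 0 z (n 0 z (n 0 z (n 0 z z)))))))))))))))) (n 253 (n 0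
 z (n 0 z (n 0 z (n 0 z (n 0 z (n 0 z (n 0 z (n 0 z (n 0 z (n 0 z (n 0 z (n 0 z (n 0 z (n 0 z (n
 0 z (n 0 z z)))))))))))))))) z))))) (n 0 (n 0 z (n 1 (n 0 z (n 0 z (n 0 z (n 0 z (n 0 z (n 0 z
 (n 0 z (n 0 z (n 0 z z))))))))) (n 1 (n 0 z (n 0 z (n 0 z (n 0 z (n 0 z (n 0 z (n 0 z (n 0 z (n
 0 z z))))))))) (n 1 (n 0 z (n 0 z (n 0 z (n 0 z (n 7754307 z (n 0 z (n 0 z (n 0 z (n 0 z
 z))))))))) z)))) (n 0 (n 49 (n 0 z (n 0 z (n 0 z (n 0 z (n 0 z (n 0 z (n 0 z (n 0 z (n 0 z (n 0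
 z (n 0 z (n 0 z z)))))))))))) (n 49 (n 0 z (n 0 z (n 0 z (n 0 z (n 0 z (n 0 z (n 0 z (n 0 z (n
 0 z (n 0 z (n 0 z (n 0 z z)))))))))))) (n 49 (n 0 z (n 0 z (n 0 z (n 0 z (n 0 z (n 0 z (n 0 z
 (n 0 z (n 2 z (n 0 z (n 0 z (n 0 z z)))))))))))) z))) (n 0 (n 0 z (n 0 z z)) (n 0 (n 0 z z) (n
 0 z z)))))) (n 0 (n 0 z (n 1 (n 6562059 z (n 1228 z (n 1228 z (n 1228 z (n 1228 z (n 1228 z
 z)))))) (n 1 (n 6562059 z (n 1228 z (n 1228 z (n 1228 z (n 1228 z (n 4396635 z z)))))) (n 1 (n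
 1228 z (n 4395107 z (n 4261435 z (n 5445195 z (n 1228 z (n 1228 z z)))))) (n 1 (n 6562059 z (n
 3278363 z (n 3278363 z (n 3278363 z (n 3278363 z (n 3278363 z z)))))) (n 0 z z)))))) (n 0 z
 z)))) (n 0xc364e38e02612c439a580 (n 0 (n 575 (n 0 z (n 3282443 z (n 0 z (n
 0xa594d88500e000052d90c000284b21800050864380003180000180001e7fff9d7ffff07fffd480004280000180000b7fffd280002180000d8000507fffe07fffef7ffffc7fffe680001f7ffffd7ffff38000307fffe080001a8000157fffe180004e8000007fffd48000507ffff87ffff77fffb87ffff280000580004a7fffb080000a80003c7fffff7fffd78000337fffee7fff8d8000528000047fffc680001080002e7fffb080001908d9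
 z (n 6358347 z (n 0 z (n 2 z (n 0 z z)))))))) (n 571 (n 0 z (n 0 z (n 0 z (n 0 z (n 3278363 z
 (n 10 z (n 18 z z))))))) (n 570 (n 0 z (n 0 z (n 0 z (n 0 z (n 0 z (n 3212843 z (n 0 z (n 0 z
 (n 0 z (n 0 z z)))))))))) (n 3 (n 0 z (n 0 z (n 0 z (n 0 z (n 0 z (n 6566411 z (n 0 z (n 0 z (n
 0 z (n 0 z (n 0 z (n 0 z (n 0 z z))))))))))))) (n 1 (n
 0x8b0ca4ca26030041c96216503038022f1b29308180c003dad94d94480e030952ca2a604070013c4652532103800c62a99320081c007c0594d8c040600014ec86a6020300786b653651003800b66b19328800c000d1d94d88400e00014ec62c42003000f2c6216210018007b5b29290801c008c6d8c948400e012f2ec82a42003018ffb6ca613ae4e994c275c9cb29800f80b6107d4c8c825e987e87ef849ba17ce5f280eb187b5d637f0fc87a8ba58252c27bcf0a831ff27cbe808277cd8143608101d084cc497c13667e900d81ec8780ed7e80131a84729f80df6484a2b17830c2800000836c607c78b58160f6815ff387b12f802ee07f6c4f7d3e3b83874b8259087bc5ec7afdc6859dc382aef17ffff07d3b2d7f37527c814f82079f7adfdb7461808826cb85b2508919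
 z (n 0 z (n
 0xa329329080c0000a54c9900406000052d8400002fd30800005f96107fffc18000317fffdd80005e7fffce8000107fffbe7fffe87fff9f80002f7fffc180002d7fffc980002d80000880003a8000677fff927ffff880001180000f7ffff98000598000178000577fff7280000080004e7fffbd80003f80000e80008e80001a7fffdf7fffc08000438000217fffc47fffaa80005880002b8000057ffff77fffe17fffca8000017fffaf7fff5a8000a480005610d9
 z (n 6566411 z (n 0 z (n 0 z (n 0 z (n 0 z (n 0 z (n 0 z (n 26 z z))))))))))) (n 0 (n 0 z (n 0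
 z (n 0 z (n 2164315 z (n 0 z (n 0 z (n 0 z (n 0 z (n 0 z (n 0 z z)))))))))) z)))))) (n 571 (n 0
 (n 871 (n 0 z (n 0 z (n 0 z (n 0 z (n 0 z (n
 0x2964362150180000a329329080c00038d3b200007197647fff6e8000887fff7e8000ed7fffb680007e7fffb07fffd37fff648000537fff9f8000657fff978000148000368000448000847fff6d80000a7ffffb7fffe77fffee8000608000208000737fff307fffd680007c7fff828000428000588000e08000507fffc47fff8280007e80001e7fffac7fff848000728000258000098000307fffb07fffda80001e7fffa77ffed88000fd8000741099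
 z (n 0 z (n 0 z (n 0 z (n 0 z (n 0 z z))))))))))) (n 871 (n 0 z (n 2 (n 1 z z) (n 0 z (n 0 z (n
 0 z (n 0 z (n 0 z (n 0 z (n 0 z (n 0 z (n 0 z z))))))))))) (n 579 (n 0 z (n 0 z (n 0 z (n 0 z
 (n 0 z (n 0 z (n 0 z (n 0 z (n 0 z (n 0 z (n 0 z (n 0 z (n 0 z (n 0 z (n 0 z z)))))))))))))))
 z))) (n 0 (n 0 z (n 783 (n 0 z (n 0 z (n 0 z (n 0 z (n 0 z (n 0 z (n 0 z (n 0 z (n 0 z (n 0 z
 (n 0 z (n 0 z (n 0 z (n 0 z (n 0 z (n 0 z (n 0 z (n 0 z (n 0 z (n 0 z (n 0 z (n 0 z (n 0 z (n 0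
 z (n 0 z z))))))))))))))))))))))))) z)) (n 0 (n 15 (n 0 z (n 0 z (n 0 z (n 0 z (n 0 z (n 0 z (n
 0 z (n 0 z (n 0 z (n 0 z (n 0 z (n 0 z (n 0 z (n 0 z (n 0 z (n 0 z (n 0 z (n 0 z (n 0 z (n 0 z
 (n 0 z (n 0 z (n 0 z (n 0 z (n 0 z (n 0 z (n 0 z (n 0 z (n 0 z (n 0 z (n 0 z (n 2 z
 z)))))))))))))))))))))))))))))))) z) (n 0 z z)))) (n 0 (n 0 z (n 0 z (n 0 z (n 0 z (n 1 (n
 3278363 z (n 3278363 z (n 3278363 z (n 3278363 z (n 3278363 z (n 3278363 z z)))))) (n 1 (n 4604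
 z (n 4604 z (n 4604 z (n 4604 z (n 4604 z (n 3212875 z z)))))) (n 1 (n 4604 z (n 4604 z (n 4604
 z (n 4604 z (n 4604 z (n 4604 z z)))))) z))))))) (n 0 z z)))) z)))))))))), by decide +kernel⟩
theorem i11286 : ∃ t, chkR KT RW t 11286 11296 = true := ⟨(n
 0xb6154532ba1c44d0ca8a830d75888994835b6c22594146e5b0814c340 (n 0 (n 549 (n 0 z (n 3282443 z (n
 0 z (n 0 z (n 0 z (n 2 z (n 10 z (n 0 z z)))))))) (n 315 (n 0 z (n 0 z (n 3278363 z (n 0 z (n 0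
 z (n 0 z (n 0 z (n 0 z z)))))))) (n 9 (n 0 z (n 0 z (n 0 z (n 0 z (n 6562587 z (n 0 z (n 0 z (n
 0 z z)))))))) (n 3 (n 18 z (n
 0x2c82c8200786081f85f7e081f7e18a37e082186086082085f86085f8608218608217e082182182085f81f0801 z
 (n 26 z (n 34 z (n 0 z (n
 0xca8ca820782081f8607e08207e08627e07e182086086081f82085f82082082082082182082082081f8200801 z (n
 0 z (n 2164283 z (n 0 z (n 0 z z)))))))))) (n 1 (n 42 z (n 0 z (n 6562587 z (n 0 z (n 0 z (n 0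
 z (n 0 z (n 0 z z)))))))) (n 0 (n 50 z (n 0 z (n 0 z (n
 0xc86c8620785f8208208208607e18628208218208208208208208208208208208208208208208208208200801 z (n
 58 z (n 66 z (n 2164315 z (n 0 z (n 74 z (n 82 z (n
 0x2c64081f8218217df81f8617e56a08228a185f82089e8a28e285f7e285d8207a08df7a279f86185e0041 z (n 0 z
 z)))))))))))) z)))))) (n 549 (n 0 (n 0 z (n 1065 (n 0 z (n 0 z (n 0 z (n 0 z (n 0 z (n 0 z (n 0
 z (n 0 z (n 0 z (n 2 (n 0 z (n 0 z (n 2 (n 0 z (n 0 z (n 0 z (n 0 z (n 0 z (n 0 z z)))))) (n 2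
 (n 0 z (n 0 z (n 0 z (n 0 z (n 0 z (n 0 z z)))))) (n 2 (n 0 z (n 0 z (n 0 z (n 0 z (n 0 z (n 0
 z z)))))) (n 2 (n 0 z (n 0 z (n 0 z (n 0 z (n 0 z (n 0 z z)))))) (n 2 (n 0 z (n 0 z (n 0 z (n 0
 z (n 0 z (n 0 (n 8803347 z z) z)))))) (n 2 (n 0 z (n 0 z (n 0 z (n 0 z (n 0 z (n 0 z z))))))
 z)))))))) (n 0 z (n 0 z (n 0 z (n 0 z (n 0 z (n 0 z (n 0 z (n 0 z (n 0 z (n 0 z (n 0 z (n 0 z
 z)))))))))))))))))))))) (n 1065 (n 2 (n 0 z (n 2 (n 0 z (n 0 z (n 0 z (n 0 z (n 0 z (n 0 (n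
 8868107 z z) z)))))) (n 1 z (n 2 (n 0 z (n 0 z (n 0 z (n 0 z (n 0 z (n 0 z z)))))) (n 2 (n 0 z
 (n 0 z (n 0 z (n 0 z (n 0 z (n 0 (n 8868107 z z) z)))))) (n 1 z (n 2 (n 0 z (n 0 z (n 0 z (n 0
 z (n 0 z (n 0 (n 2885 z z) z)))))) z))))))) (n 0 z (n 0 z (n 0 z (n 0 z (n 0 z (n 0 z (n 0 z (n
 0 z (n 0 z (n 0 z (n 0 z (n 0 z (n 0 z (n 0 z (n 0 z (n 0 z (n 0 z (n 0 z (n 0 z (n 0 z (n 0 z
 z)))))))))))))))))))))) (n 1065 (n 0 z (n 0 z (n 0 z (n 0 z (n 0 z (n 0 z (n 0 z (n 0 z (n 0 z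
 (n 0 z (n 0 z (n 0 z (n 0 z (n 0 z (n 0 z (n 0 z (n 0 z (n 0 z (n 0 z (n 0 z (n 0 z (n 0 z
 z)))))))))))))))))))))) (n 495 (n 0 z (n 0 z (n 0 z (n 0 z (n 0 z (n 0 z (n 2 (n 1 z (n 2 (n 0
 z (n 0 z (n 0 z (n 0 z (n 0 z (n 0 z z)))))) (n 2 (n 0 z (n 0 z (n 0 z (n 0 z (n 0 z (n 0 z
 z)))))) (n 1 z (n 2 (n 0 z (n 0 z (n 0 z (n 0 z (n 0 z (n 0 (n 581 z z) z)))))) z))))) (n 0 z
 (n 0 z (n 0 z (n 0 z (n 0 z (n 0 z (n 0 z (n 0 z z))))))))))))))) (n 509 (n 0 z (n 0 z (n 0 z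
 (n 0 z (n 0 z (n 0 z (n 0 z (n 0 z (n 0 z (n 0 z (n 0 z (n 0 z (n 0 z (n 0 z (n 0 z (n 0 z (n 0
 z z))))))))))))))))) (n 509 (n 0 z (n 0 z (n 0 z (n 0 z (n 2 (n 0 z (n 0 z (n 0 z z))) (n 0 z
 (n 0 z (n 0 z (n 0 z (n 0 z (n 0 z (n 0 z (n 0 z (n 0 z (n 0 z (n 0 z (n 0 z z)))))))))))))))))
 (n 509 (n 0 z (n 0 z (n 2 (n 0 z (n 0 z z)) (n 0 z (n 0 z (n 0 z (n 0 z (n 0 z (n 0 z (n 0 z (n
 0 z (n 0 z (n 0 z (n 0 z (n 0 z (n 0 z (n 0 z z))))))))))))))))) (n 509 (n 0 z (n 0 z (n 0 z (n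
 0 z (n 0 z (n 0 z (n 0 z (n 0 z (n 0 z (n 0 z (n 0 z (n 0 z (n 0 z (n 0 z (n 0 z (n 0 z (n 0 z
 z))))))))))))))))) (n 509 (n 0 z (n 0 z (n 0 z (n
 0x1476281f8208207df8208217e376082186281f86185f8608a181f82181e8207e08a07e17df86085f0041 z (n 0 z
 (n 0 z (n 0 z (n 0 z (n 0 z (n 0 z (n 0 z (n 0 z (n 0 z (n 0 z (n 0 z (n 0 z (n 0 z
 z))))))))))))))))) z)))))))))) (n 0 (n 1097 (n 0 z (n 0 z (n 0 z (n 0 z (n 0 z (n 0 z (n 0 z (n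
 0 z (n 0 z (n 0 z (n 0 z (n 0 z (n 0 z (n 0 z (n 0 z (n 0 z (n 0 z (n 0 z (n 0 z (n 0 z (n 0 z
 (n 0 z z)))))))))))))))))))))) (n 1097 (n 2 (n 0 z (n 2 (n 0 z (n 0 z (n 0 z (n 0 z (n 0 z (n 0
 (n 8871955 z z) z)))))) (n 1 z (n 2 (n 0 z (n 0 z (n 0 z (n 0 z (n 0 z (n 0 z z)))))) (n 2 (n 0
 z (n 0 z (n 0 z (n 0 z (n 0 z (n 0 (n 8871955 z z) z)))))) (n 1 z (n 2 (n 0 z (n 0 z (n 0 z (n
 0 z (n 0 z (n 0 (n 8871955 z z) z)))))) z))))))) (n 0 z (n 0 z (n 0 z (n 0 z (n 0 z (n 0 z (n 0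
 z (n 0 z (n 0 z (n 0 z (n 0 z (n 0 z (n 0 z (n 0 z (n 0 z (n 0 z (n 0 z (n 0 z (n 0 z (n 0 z (n
 0 z z)))))))))))))))))))))) (n 1097 (n 0 z (n 0 z (n 0 z (n 0 z (n 0 z (n 0 z (n 0 z (n 0 z (n
 0 z (n 0 z (n 0 z (n 0 z (n 0 z (n 0 z (n 0 z (n 0 z (n
 0x2c76281f8218217df81f8617e56a08228a185f82089e8a28e285f7e285d8207a08df7a279f86185e0041 z (n 0 z
 (n 0 z (n 0 z (n 0 z (n 0 z z)))))))))))))))))))))) (n 243 (n 0 z (n 0 z (n 0 z (n 0 z (n 0 z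
 (n 0 z (n 0 z (n 0 z (n 2 (n 1 z (n 2 (n 0 z (n 0 z (n 0 z (n 0 z (n 0 z (n 0 z z)))))) (n 2 (n
 0 z (n 0 z (n 0 z (n 0 z (n 0 z (n 0 z z)))))) (n 1 z (n 2 (n 0 z (n 0 z (n 0 z (n 0 z (n 0 z
 (n 0 (n 8871955 z z) z)))))) z))))) (n 0 z (n 0 z (n 0 z (n 0 z (n 0 z (n 0 z (n 0 z (n 0 z
 z))))))))))))))))) (n 241 (n
 0x2c76281f8218217df81f8617e56a08228a185f82089e8a28e285f7e285d8207a08df7a279f86185e0041 z (n 0 z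
 (n 0 z (n 0 z (n 0 z (n 0 z (n 0 z (n 0 z (n 0 z (n 0 z (n 0 z (n 0 z (n 0 z (n 0 z (n 0 z
 z))))))))))))))) (n 241 (n 0 z (n 0 z (n 0 z (n 2 (n 0 z (n 0 z (n 0 z z))) (n 0 z (n 0 z (n 0
 z (n 0 z (n 0 z (n 0 z (n 0 z (n 0 z (n 0 z (n 0 z (n 0 z z))))))))))))))) (n 241 (n 0 z (n 0 z
 (n 0 z (n 0 z (n 2 (n 0 z (n 0 z z)) (n 0 z (n 0 z (n 0 z (n 0 z (n 0 z (n 0 z (n 0 z (n 0 z (n
 0 z (n 0 z z))))))))))))))) (n 241 (n 0 z (n 0 z (n 0 z (n 0 z (n 0 z (n 0 z (n 0 z (n 0 z (n 0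
 z (n 0 z (n 0 z (n 0 z (n 0 z (n 0 z (n 0 z z))))))))))))))) (n 241 (n 0 z (n 0 z (n 0 z (n 0 z
 (n 0 z (n 0 z (n 0 z (n 0 z (n 0 z (n 0 z (n 0 z (n 0 z (n 0 z (n 0 z (n 0 z z)))))))))))))))
 z))))))))) (n 0 (n 0 z (n 0 z (n 3 (n 0 z (n 0 z (n 2 (n 2 (n 0 z (n 0 z (n 0 z (n 0 z (n 0 z
 (n 0 z z)))))) (n 2 (n 0 z (n 0 z (n 0 z (n 0 z (n 0 z (n 0 (n 8871971 z z) z)))))) (n 2 (n 0 z
 (n 0 z (n 0 z (n 0 z (n 0 z (n 0 z z)))))) (n 2 (n 0 z (n 0 z (n 0 z (n 0 z (n 0 z (n 0 z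
 z)))))) (n 2 (n 0 z (n 0 z (n 0 z (n 0 z (n 0 z (n 0 z z)))))) z))))) (n 0 z (n 0 z (n 0 z (n 0
 z (n 0 z z)))))))) (n 649 (n 0 z (n 0 z (n 0 z (n 0 z (n 0 z (n 0 z (n 2 (n 0 z (n 0 z (n 0 z
 (n 0 z z)))) (n 0 z (n 0 z (n 0 z z)))))))))) (n 649 (n 0 z (n 0 z (n 0 z (n 0 z (n 0 z (n 0 z
 (n 0 z (n 0 z (n 0 z (n 0 z z)))))))))) (n 649 (n 2 (n 0 z (n 0 z z)) (n 0 z (n 0 z (n 0 z (n 0
 z (n 0 z (n 0 z (n 0 z (n 0 z (n 0 z z)))))))))) (n 649 (n 0 z (n 0 z (n 0 z (n 0 z (n 0 z (n 0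
 z (n 0 z (n
 0x2ec8ec820785f81e89f7a085f7e18637e07e28a186082086086082082086181f8217e08608208208608200801 z
 (n 0 z (n 0 z z)))))))))) (n 649 (n 0 z (n 0 z (n 0 z (n 0 z (n 0 z (n 0 z (n 0 z (n 0 z (n 0 z
 (n 0 z z)))))))))) z)))))))) (n 0 (n 0 z (n 723 (n 0 z (n 0 z (n 0 z (n 0 z (n 0 z (n 0 z (n 0
 z (n 0 z (n 0 z (n 0 z (n 0 z (n 0 z (n 0 z z))))))))))))) (n 721 (n 0 z (n 0 z (n 0 z (n 0 z
 (n 0 z (n 0 z (n 0 z (n 0 z (n 0 z (n 0 z z)))))))))) (n 721 (n 0 z (n 2 (n 0 z (n 0 z (n 0 z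
 z))) (n 0 z (n 0 z (n 0 z (n 0 z (n 0 z (n 0 z (n 0 z (n 0 z z)))))))))) (n 721 (n 0 z (n 0 z
 (n 0 z (n 0 z (n 0 z (n 0 z (n 0 z (n 0 z (n 0 z (n 0 z z)))))))))) (n 721 (n 0 z (n 0 z (n 0 z
 (n 0 z (n 0 z (n 0 z (n 0 z (n 2 (n 0 z z) (n 0 z (n 0 z z)))))))))) (n 721 (n 0 z (n 0 z (n 0
 z (n 0 z (n 0 z (n 0 z (n 2 z (n 0 z (n 0 z (n 0 z z)))))))))) z))))))) (n 0 (n 579 (n 0 z (n 0
 z (n 2 (n 1 z (n 2 (n 0 z (n 0 z (n 0 z (n 0 z (n 0 z (n 0 z z)))))) (n 2 (n 0 z (n 0 z (n 0 z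
 (n 0 z (n 0 z (n 0 (n 8868107 z z) z)))))) (n 1 z (n 2 (n 0 z (n 0 z (n 0 z (n 0 z (n 0 z (n 0
 (n 581 z z) z)))))) z))))) (n 0 z (n 0 z (n 0 z (n 0 z (n 0 z (n 0 z (n 0 z (n 0 z z)))))))))))
 (n 601 (n 0 z (n 0 z (n 0 z (n 0 z (n 0 z (n 0 z (n 0 z (n 0 z (n 0 z (n 0 z z)))))))))) (n 601
 (n 0 z (n 0 z (n 0 z (n 0 z (n 0 z (n 2 (n 0 z (n 0 z (n 0 z z))) (n 0 z (n 0 z (n 0 z (n 0 z
 z)))))))))) (n 601 (n 0 z (n 0 z (n 0 z (n 0 z (n 0 z (n 0 z (n 0 z (n 0 z (n 0 z (n 0 z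
 z)))))))))) (n 601 (n 0 z (n 0 z (n 0 z (n 0 z (n 0 z (n 0 z (n 0 z (n 7754771 z (n 0 z (n 0 z
 z)))))))))) (n 601 (n 0 z (n
 0xc76282082082081f8208208227a08218608608208208218608207e181f8208208608217df82081f0041 z (n 0 z
 (n 0 z (n 0 z (n 0 z (n 0 z (n 0 z (n 0 z (n 0 z z)))))))))) z)))))) (n 0 (n 145 (n 0 z (n 0 z
 (n 0 z (n 0 z (n 0 z (n 0 z (n 0 z (n 0 z (n 0 z (n 0 z (n 0 z (n 0 z (n 2 (n 0 z (n 0 z (n 0 z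
 (n 0 z z)))) (n 0 z (n 0 z (n 0 z (n 0 z (n 0 z (n 0 z (n 0 z (n 0 z (n 0 z (n 0 z (n 0 z (n 0
 z (n 0 z (n 0 z (n 0 z z)))))))))))))))))))))))))))) (n 145 (n 0 z (n 0 z (n 0 z (n 0 z (n 0 z
 (n 0 z (n 0 z (n 0 z (n 0 z (n 0 z (n 0 z (n 0 z (n 0 z (n 0 z (n 0 z (n 0 z (n 0 z (n 0 z (n 0
 z (n 0 z (n 0 z (n 0 z (n 0 z (n 0 z (n 0 z (n 0 z (n 0 z (n 0 z z))))))))))))))))))))))))))))
 (n 145 (n 0 z (n 0 z (n 0 z (n 0 z (n 0 z (n 0 z (n 0 z (n 0 z (n 0 z (n 0 z (n 0 z (n 0 z (n 0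
 z (n 0 z (n 0 z (n 0 z (n 0 z (n 0 z (n 0 z (n 0 z (n 0 z (n 0 z (n 0 z (n 0 z (n 0 z (n 0 z (n
 0 z (n 0 z z)))))))))))))))))))))))))))) (n 145 (n 2 (n 0 z z) (n 0 z (n 0 z (n 0 z (n 0 z (n 0
 z (n 0 z (n 0 z (n 0 z (n 0 z (n 0 z (n 0 z (n 0 z (n 0 z (n 0 z (n 0 z (n 0 z (n 0 z (n 0 z (n
 0 z (n 0 z (n 0 z (n 0 z (n 0 z (n 0 z (n 0 z (n 0 z (n 0 z z)))))))))))))))))))))))))))) (n
 145 (n 0 z (n 0 z (n 0 z (n 0 z (n 0 z (n 0 z (n 0 z (n 0 z (n 0 z (n 0 z (n 0 z (n 0 z (n 0 z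
 (n 0 z (n 0 z (n 0 z (n 0 z (n 0 z (n 0 z (n 0 z (n 2 z (n 0 z (n 0 z (n 0 z (n 0 z (n 0 z (n 0
 z (n 0 z z)))))))))))))))))))))))))))) z))))) (n 0 (n 0 z (n 0 z (n 0 z (n 0 z z)))) (n 0 (n 0
 z (n 0 z (n 0 z z))) (n 0 (n 0 z (n 0 z z)) (n 0 (n 0 z z) (n 0 z z))))))))))) (n 0 (n 0 z (n 1
 (n 3282443 z (n 3282443 z (n 3282443 z (n 3282443 z (n 3282443 z (n 3282443 z z)))))) (n 0 z (n
 0 z (n 0 z (n 1 (n 2524 z (n 2524 z (n 2524 z (n 2164299 z (n 2524 z (n 2524 z z)))))) (n 1 (n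
 2524 z (n 2524 z (n 2524 z (n 2524 z (n 2524 z (n 2524 z z)))))) (n 0 z z)))))))) (n 0 z z))))
 (n 0xd9ab464caa2a9550f14e84d335069999e09a6684524c329268139e280 (n 0 (n 279 (n 0 z (n 0 z (n 0 z
 (n 0 z (n 3282443 z (n 2 z z)))))) (n 255 (n 0 z (n 10 z (n 0 z (n 0 z (n 6623755 z (n 0 z (n 0
 z z))))))) (n 9 (n 0 z (n 18 z (n 26 z (n 0 z (n 0 z (n 0 z (n 3212843 z (n 34 z z)))))))) (n
 243 (n 0 z (n 0 z (n 0 z (n 0 z (n 2164283 z z))))) (n 1 (n 42 z (n 2164299 z (n 0 z (n 0 z (n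
 0 z z))))) (n 0 (n 0 z (n 0 z (n 50 z (n 0 z (n 0 z (n 0 z (n 6623755 z (n 0 z (n 58 z (n 0 z
 (n 0 z (n 0 z (n 0 z (n 66 z (n 0 z (n 74 z (n 0 z (n 0 z (n 82 z z))))))))))))))))))) z))))))
 (n 243 (n 0 (n 515 (n 0 z (n 0 z (n 0 z (n 0 z (n 0 z (n 0 z z)))))) (n 31 (n 0 z (n 0 z (n 0 z
 (n 0 z (n 0 z (n 0 z (n 0 z (n 0 z (n 0 z (n 0 z (n 0 z (n 0 z (n 0 z (n 0 z (n 0 z
 z))))))))))))))) (n 31 (n 0 z (n 0 z (n 0 z (n 0 z (n 7677467 z (n 0 z (n 0 z (n 0 z (n 0 z (n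
 0 z (n 0 z (n 0 z (n 0 z (n 0 z (n 0 z z))))))))))))))) (n 31 (n 0 z (n 0 z (n 0 z (n 0 z (n 0
 z (n 0 z (n 0 z (n 0 z (n 0 z (n 0 z (n 0 z (n 0 z (n 0 z (n 0 z (n 0 z z))))))))))))))) (n 531
 (n 0 z (n 0 z (n 0 z (n 0 z z)))) (n 485 (n 0 z (n 0 z (n 0 z (n 0 z (n 0 z (n 0 z (n 0 z (n 0
 z (n 0 z z))))))))) (n 485 (n 0 z (n 0 z (n 0 z (n 0 z (n 0 z (n 0 z (n 0 z (n 0 z (n 0 z
 z))))))))) (n 485 (n 0 z (n 0 z (n 2 (n 0 z (n 0 z z)) (n 0 z (n 0 z (n 0 z (n 0 z (n 0 z (n 0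
 z z))))))))) (n 485 (n 0 z (n 0 z (n 0 z (n 0 z (n 2 (n 0 z z) (n 0 z (n 0 z (n 0 z (n 0 z
 z))))))))) (n 485 (n 0 z (n 0 z (n 0 z (n 0 z (n 0 z (n 0 z (n 0 z (n 0 z (n 7754803 z
 z))))))))) z)))))))))) (n 0 (n 275 (n 0 z (n 0 z (n 0 z (n 0 z (n 0 z (n 0 z (n 0 z (n 0 z (n 0
 z (n 0 z z)))))))))) (n 275 (n 0 z (n 0 z (n 0 z (n 0 z (n 0 z (n 7741699 z (n 0 z (n 0 z (n 0
 z (n 0 z z)))))))))) (n 275 (n 0 z (n 0 z (n 0 z (n 0 z (n 0 z (n 0 z (n 0 z (n 0 z (n 0 z (n 2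
 (n 1 z (n 1 z (n 1 z (n 1 z (n 1 z (n 1 z z)))))) z)))))))))) (n 3 (n 0 z (n 0 z (n 0 z (n 0 z
 (n 0 z (n 0 z (n 0 z (n 0 z (n 0 z (n 0 z z)))))))))) (n 1 (n 0 z (n 0 z (n 0 z (n 0 z (n 0 z
 (n 0 z (n 0 z (n 0 z (n 0 z (n 0 z (n 0 z z))))))))))) (n 1 (n 0 z (n 0 z (n 0 z (n 2 (n 0 z (n
 0 z (n 0 z z))) (n 0 z (n 0 z (n 0 z (n 0 z (n 0 z (n 0 z (n 0 z z))))))))))) (n 1 (n 0 z (n 0
 z (n 0 z (n 0 z (n 0 z (n 2 (n 0 z (n 0 z z)) (n 0 z (n 0 z (n 0 z (n 0 z (n 0 z z)))))))))))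
 (n 1 (n 0 z (n 0 z (n 0 z (n 0 z (n 0 z (n 0 z (n 0 z (n 0 z (n 0 z (n 0 z (n 0 z z)))))))))))
 (n 1 (n 0 z (n 0 z (n 0 z (n 0 z (n 0 z (n 0 z (n 0 z (n 0 z (n 0 z (n 0 z (n 7677515 z
 z))))))))))) z))))))))) (n 0 (n 0 z (n 0 z (n 51 (n 0 z (n 0 z (n 0 z (n 0 z (n 0 z (n 0 z (n 0
 z (n 0 z (n 0 z (n 0 z (n 0 z (n 0 z z)))))))))))) (n 49 (n 0 z (n 0 z (n 0 z (n 0 z (n 0 z (n
 0 z (n 0 z (n 0 z (n 0 z z))))))))) (n 49 (n 0 z (n 0 z (n 0 z (n 0 z (n 0 z (n 0 z (n 0 z (n 0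
 z (n 0 z z))))))))) (n 49 (n 0 z (n 0 z (n 0 z (n 0 z (n 0 z (n 2 (n 0 z (n 0 z z)) (n 0 z (n 0
 z (n 0 z z))))))))) (n 49 (n 0 z (n 0 z (n 0 z (n 0 z (n 0 z (n 0 z (n 2 (n 0 z z) (n 0 z (n 0
 z z))))))))) (n 49 (n 0 z (n 0 z (n 0 z (n 0 z (n 0 z (n 0 z (n 0 z (n 0 z (n 2 z z)))))))))
 z)))))))) (n 0 (n 0 z (n 3 (n 0 z (n 7741699 z (n 0 z (n 0 z (n 0 z (n 0 z (n 0 z (n 0 z (n 0 z
 z))))))))) (n 1 (n 0 z (n 7741699 z (n 0 z (n 0 z (n 0 z (n 0 z (n 0 z z))))))) (n 1 (n 0 z (n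
 0 z (n 0 z (n 2 (n 0 z (n 0 z (n 0 z z))) (n 0 z (n 0 z (n 0 z z))))))) (n 1 (n 0 z (n 0 z (n 0
 z (n 0 z (n 0 z (n 0 z (n 0 z z))))))) (n 1 (n 0 z (n 0 z (n 0 z (n 0 z (n 2 (n 0 z z) (n 0 z
 (n 0 z z))))))) (n 1 (n 0 z (n 0 z (n 0 z (n 0 z (n 0 z (n 0 z (n 2 z z))))))) z))))))) (n 0 (n
 15 (n 0 z (n 0 z (n 2 (n 1 z (n 1 z (n 2 (n 0 z (n 0 z (n 0 z (n 0 (n 52 z z) (n 0 z (n 0 z
 z)))))) (n 1 z (n 2 (n 0 z (n 0 z (n 0 z (n 0 z (n 0 z (n 0 z z)))))) z))))) (n 0 z (n 0 z (n 0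
 z (n 0 z z))))))) (n 13 (n 0 z (n 0 z (n 0 z (n 0 z (n 0 z (n 0 z (n 0 z (n 0 z z)))))))) (n 13
 (n 0 z (n 0 z (n 0 z (n 0 z (n 0 z (n 0 z (n 0 z (n 0 z z)))))))) (n 13 (n 0 z (n 0 z (n 0 z (n
 0 z (n 2 (n 0 z (n 0 z z)) (n 0 z (n 0 z (n 0 z z)))))))) (n 13 (n 0 z (n 0 z (n 0 z (n 0 z (n
 0 z (n 0 z (n 0 z (n 2 (n 0 z z) z)))))))) (n 13 (n 0 z (n 0 z (n 0 z (n 0 z (n 0 z (n 7754803
 z (n 0 z (n 0 z z)))))))) z)))))) (n 0 (n 53 (n 0 z (n 0 z (n 0 z (n 0 z (n 0 z (n 0 z (n 0 z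
 (n 0 z (n 0 z (n 0 z (n 0 z (n 0 z (n 0 z (n 0 z (n 0 z (n 0 z (n 0 z (n 0 z (n 0 z (n 0 z (n 0
 z (n 0 z (n 0 z (n 0 z (n 0 z z))))))))))))))))))))))))) (n 53 (n 0 z (n 0 z (n 0 z (n 0 z (n 0
 z (n 0 z (n 0 z (n 0 z (n 0 z (n 0 z (n 0 z (n 0 z (n 0 z (n 0 z (n 0 z (n 0 z (n 0 z (n 0 z (n
 0 z (n 0 z (n 0 z (n 2 (n 0 z (n 0 z (n 0 z z))) (n 0 z (n 0 z (n 0 z
 z))))))))))))))))))))))))) (n 53 (n 0 z (n 2 (n 0 z (n 0 z z)) (n 0 z (n 0 z (n 0 z (n 0 z (n 0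
 z (n 0 z (n 0 z (n 0 z (n 0 z (n 0 z (n 0 z (n 0 z (n 0 z (n 0 z (n 0 z (n 0 z (n 0 z (n 0 z (n
 0 z (n 0 z (n 0 z (n 0 z (n 0 z z))))))))))))))))))))))))) (n 53 (n 0 z (n 0 z (n 0 z (n 0 z (n
 0 z (n 0 z (n 0 z (n 0 z (n 0 z (n 0 z (n 0 z (n 0 z (n 0 z (n 0 z (n 0 z (n 0 z (n 0 z (n 0 z
 (n 0 z (n 0 z (n 0 z (n 0 z (n 0 z (n 0 z (n 0 z z))))))))))))))))))))))))) (n 53 (n 0 z (n 0 z
 (n 0 z (n 0 z (n 0 z (n 0 z (n 0 z (n 0 z (n 0 z (n 0 z (n 0 z (n 0 z (n 0 z (n 0 z (n 0 z (n 0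
 z (n 0 z (n 0 z (n 0 z (n 0 z (n 0 z (n 0 z (n 0 z (n 0 z (n 7677515 z
 z))))))))))))))))))))))))) z))))) (n 0 (n 0 z (n 0 z (n 0 z (n 0 z z)))) (n 0 (n 0 z (n 0 z (n
 0 z z))) (n 0 (n 0 z (n 0 z z)) (n 0 (n 0 z z) (n 0 z z))))))))))) (n 0 (n 0 z (n 0 z (n 0 z (n
 0 z (n 1 (n 2164283 z (n 2164283 z (n 2164283 z (n 2164283 z (n 2164283 z (n 2164283 z z))))))
 z))))) (n 0 z z)))) (n 0x1532a8862542aa2a1428d05a66a0625084ca9b052b (n 0 (n 165 (n 3282443 z (n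
 0 z (n 0 z z))) (n 39 (n 0 z (n 0 z (n 0 z (n 0 z (n
 0x2ca8a6040382082082081f8208208217e08607e08207e082085f7e18228628208a082079e7e082081f8200801 z
 (n 0 z (n 0 z (n 3278363 z (n 0 z (n 0 z (n 0 z (n
 0x32a32a181c165465420182ca8a8640786082279f8628a08227e28237e17e27607df7e085f85f8227627e08207e18207e08208208211801
 z (n 0 z (n 0 z (n 0 z z))))))))))))))) (n 9 (n 0 z (n 0 z (n 0 z (n 3212843 z z)))) (n 27 (n 0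
 z (n 0 z (n 0 z (n 0 z (n
 0x2ca6a804038208208208208208208218a28207a27e17a17e07e08208208208218207e08207e17a081e8210801 z
 (n 0 z (n 0 z (n 0 z (n
 0x165465420182ca8ca82078207a282081f8208208a27e28207a07608608207de82082282081e8208208218208238228201001
 z (n 0 z (n 0 z (n 2164283 z (n 0 z (n 0 z (n
 0x2ca8ca84078a082081f8a08208208218227e079f7e081f82081f7e08218a08228207e181f8607e08218200801 z
 (n 0 z (n 0 z (n 2 z z)))))))))))))))))) (n 1 (n 10 z (n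
 0x2ca6ca640785c8a27a281f8208208607e08208208208208208608a08207a082082081e8208208208208200801 z
 (n 18 z (n 0 z (n
 0x2ca6ca640789c8a17a27e285f81e8607dc86181f7df85f85f8207df81f82282186081f85f79e7e28607e20801 z
 (n 0 z (n 0 z (n 0 z (n 0 z (n
 0xca6ca640785e8617e082082082082082082082082082082082085f8207e08208208207e18208208218200801 z (n
 0 z (n 0 z (n 0 z (n 0 z (n 0 z (n 2164299 z (n 0 z (n 0 z (n 0 z (n 0 z (n 0 z (n 0 z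
 z)))))))))))))))))))))) (n 0 (n
 0x2c86c862078a082082086081f8208208208207a082182082082082082085f8607e08208208607e17e07e10801 z
 (n 26 z (n
 0x2c64c6420785c8a27a281f8208208607e08208208208208208608a08207a082082081e8208208208208200801 z
 (n 34 z (n 42 z (n 0 z (n 0 z (n 0 z (n 0 z (n 0 z (n 0 z (n 0 z (n 0 z (n 0 z (n 50 z (n 0 z
 (n 0xc84c8420785e8617e082082082082082082082082082082082085f8207e08208208207e18208208218200801 z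
 (n 58 z (n 0 z (n
 0x2c86c8620789c8a17a27e285f81e8607dc86181f7df85f85f8207df81f82282186081f85f79e7e28607e20801 z
 (n 0 z (n 0 z (n 0 z (n 0 z (n 0 z (n 0 z (n 0 z (n 0 z (n 0 z (n 0 z (n 2164315 z (n
 0x4c84c806078e08207e07e185e8227e08207e086085e7df8a082181e82081e85f82082182282086081f85f0801 z
 (n 0 z z))))))))))))))))))))))))))))))))) z)))))) (n 165 (n 0 (n 249 (n 0 z (n 0 z (n 0 z (n 0
 z (n 0 z (n 0 z (n 0 z (n 0 z (n 0 z (n 0 z (n 0 z (n 0 z (n 0 z (n 0 z (n 0 z (n 0 z (n 0 z (n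
 0 z z)))))))))))))))))) (n 249 (n 0 z (n 0 z (n 0 z (n 0 z (n 0 z (n 0 z (n 0 z (n 0 z (n 0 z
 (n 0 z (n 0 z (n 0 z (n 0 z (n 0 z (n 0 z (n 0 z (n 0 z (n 0 z z)))))))))))))))))) (n 529 (n 0
 z (n 0 z (n 0 z (n 0 z (n 0 z (n 0 z (n 0 z (n 0 z (n 0 z (n 0 z (n 0 z (n 0 z (n 0 z (n 0 z (n
 0 z (n 0 z (n 0 z (n 0 z z)))))))))))))))))) (n 529 (n 0 z (n 0 z (n 0 z (n 0 z (n 0 z (n 0 z
 (n 0 z (n 0 z (n 0 z (n 0 z (n 0 z (n 0 z (n 0 z (n 0 z (n 0 z (n 0 z (n 0 z (n 0 z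
 z)))))))))))))))))) (n 529 (n 0 z (n 0 z (n 0 z (n 0 z (n 0 z (n 0 z (n 0 z (n 0 z (n 0 z (n 0
 z (n 0 z (n 0 z (n 0 z (n 0 z (n 0 z (n 0 z (n 0 z (n 0 z z)))))))))))))))))) (n 529 (n 0 z (n
 0 z (n 0 z (n 0 z (n 0 z (n 0 z (n 0 z (n 0 z (n 0 z (n 0 z (n 0 z (n 0 z (n 0 z (n 0 z (n 0 z
 (n 0 z (n 0 z (n 0 z z)))))))))))))))))) (n 529 (n 0 z (n 0 z (n 0 z (n 0 z (n 0 z (n 0 z (n 0
 z (n 0 z (n 0 z (n 0 z (n 0 z (n 0 z (n 0 z (n 0 z (n 0 z (n 0 z (n 0 z (n 0 z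
 z)))))))))))))))))) z))))))) (n 0 (n 0 z (n 245 (n 0 z (n 0 z (n 0 z (n 0 z (n 0 z (n 0 z (n 0
 z (n 0 z (n 0 z (n 0 z (n 0 z (n 0 z (n 0 z (n 0 z (n 0 z (n 0 z (n 0 z (n 0 z (n 0 z (n 0 z (n
 0 z z))))))))))))))))))))) (n 245 (n 0 z (n 0 z (n 0 z (n 0 z (n 0 z (n 0 z (n 0 z (n 0 z (n 0
 z (n 0 z (n 0 z (n 0 z (n 0 z (n 0 z (n 0 z (n 0 z (n 0 z (n 0 z (n 0 z (n 0 z (n 0 z
 z))))))))))))))))))))) (n 245 (n 0 z (n 0 z (n 0 z (n 0 z (n 0 z (n 0 z (n 0 z (n 0 z (n 0 z (n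
 0 z (n 0 z (n 0 z (n 0 z (n 0 z (n 0 z (n 0 z (n 0 z (n 0 z (n 0 z (n 0 z (n 0 z
 z))))))))))))))))))))) (n 245 (n 0 z (n 0 z (n 0 z (n 0 z (n 0 z (n 0 z (n 0 z (n 0 z (n 0 z (n
 0 z (n 0 z (n 0 z (n 0 z (n 0 z (n 0 z (n 0 z (n 0 z (n 0 z (n 0 z (n 0 z (n 0 z
 z))))))))))))))))))))) (n 245 (n 0 z (n 0 z (n 0 z (n 0 z (n 0 z (n 0 z (n 0 z (n 0 z (n 0 z (n
 0 z (n 0 z (n 0 z (n 0 z (n 0 z (n 0 z (n 0 z (n 0 z (n 0 z (n 0 z (n 0 z (n 0 z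
 z))))))))))))))))))))) z)))))) (n 0 (n 5 (n 0 z (n 0 z (n 0 z (n 0 z (n 0 z (n 0 z (n 0 z (n 0
 z (n 0 z (n 0 z (n 0 z z))))))))))) (n 5 (n 0 z (n 0 z (n 0 z (n 0 z (n 0 z (n 0 z (n 0 z (n 0
 z (n 0 z (n 0 z (n 0 z z))))))))))) (n 5 (n 0 z (n 0 z (n 0 z (n 0 z (n 0 z (n 0 z (n 0 z (n 0
 z (n 0 z (n 0 z (n 0 z z))))))))))) (n 5 (n 0 z (n 0 z (n 0 z (n 0 z (n 0 z (n 0 z (n 0 z (n 0
 z (n 0 z (n 0 z (n 0 z z))))))))))) (n 5 (n 0 z (n 0 z (n 0 z (n 0 z (n 0 z (n 0 z (n 0 z (n 0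
 z (n 0 z (n 0 z (n 0 z z))))))))))) z))))) (n 0 (n 0 z (n 0 z (n 0 z (n 0 z z)))) (n 0 (n 0 z
 (n 0 z (n 0 z z))) (n 0 (n 0 z (n 0 z z)) (n 0 (n 0 z z) (n 0 z z)))))))) (n 0 (n 1 (n 3282443
 z (n 3282443 z (n 3282443 z (n 3282443 z (n 3282443 z (n 3282443 z z)))))) (n 0 z (n 0 z z)))
 (n 0 z z)))) (n 0x16b72a12132a154662112 (n 0 (n 527 (n 0 z (n 3282443 z (n 0 z (n 0 z (n 0 z (n
 0 z (n 0 z (n 0 z z)))))))) (n 59 (n 0 z (n 3278363 z (n 0 z (n 0 z (n 0 z (n 0 z (n 0 z (n 0 z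
 z)))))))) (n 135 (n 2 z (n
 0x164231050382ca6a602038a17a381f7e17a182186176089e7e17e28217e38207618608a079d8a085e81f7e281f81f8611001
 z (n 0 z (n
 0x2ca8c8260385e8238227227617e181d85f8607de7e18208618627de81f91f81d7e189e75f7e08df85f7e00801 z
 (n 0 z (n 0 z (n 0 z (n 0 z (n 0 z (n 0 z (n 0 z (n 3212843 z (n 3212843 z (n
 0xc86c862078608218207e17e082082082082081f8618208208208208208607df82185f7e08218207e08200801 z (n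
 0x2ca2ca06038207e082082081f82282086281f85f81f8208207a18218218a17a082181f8618607df8218200801 z
 (n 0 z (n 0 z (n 0 z (n 0 z (n 0 z (n 0 z (n
 0xca6ca62038217e08208207e07e081f82082082082182086182082082085f7e082085f8208217e08208200801 z (n
 0 z (n 0 z (n 0 z z))))))))))))))))))))))))) (n 3 (n 0 z (n 2164283 z (n 10 z z))) (n 1 (n 0 z
 (n 0 z (n 0 z (n
 0x6c84620a078de7a38207e17e17a181e8208a086076182082286276081e89f7a07e381e7de8208208228200801 z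
 (n 0 z (n 18 z (n 3212875 z (n 2164299 z (n 0 z (n 0 z (n 0 z (n 0 z (n
 0x65453120380ca6ca420385f82081f7e27e17e18208208208208218208218218208208607e082185e8208218208208611001
 z (n 0xca4ca42078608218207e17e08208208208207df7e18208208208208218617df82185f8208208208207e10801
 z (n
 0x2ca6ca240785e8238227227617e181d85f8607de7e18208618627de81f91f81d7e189e75f7e08df85f7e00801 z
 (n 0 z (n 0 z (n 0 z (n
 0xca4ca420781e8628227227a18207df8a082181d76189f7e082182281f8a181d72091f7df8219208617a00801 z (n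
 0 z (n 0 z (n 0 z (n
 0xca6ca42038607e081f8218218218208208208208218208207e08208208607e082181f8208218208208200801 z (n
 0 z (n 0 z z))))))))))))))))))))))))) (n 0 (n 2164315 z (n 0 z (n 26 z (n 0 z z)))) z)))))) (n
 3 (n 0 (n 267 (n 0 z (n 0 z (n 0 z (n 0 z (n 0 z (n 0 z (n 0 z (n 0 z (n 0 z (n 0 z (n 0 z (n 0
 z (n 0 z (n 0 z (n 0 z (n 0 z (n 0 z (n 0 z (n 0 z (n 0 z (n 0 z (n 0 z (n 0 z (n 0 z (n 0 z (n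
 0 z (n 0 z (n 0 z (n 0 z (n 0 z (n 0 z (n 0 z (n 0 z (n 0 z (n 0 z (n 0 z (n 0 z (n 0 z (n 0 z
 (n 0 z (n 0 z (n 0 z (n 0 z (n 0 z (n 0 z (n 0 z (n 0 z (n 0 z (n 0 z (n 0 z (n 0 z
 z))))))))))))))))))))))))))))))))))))))))))))))))))) (n 677 (n 0 z (n 0 z (n 0 z (n 0 z (n 0 z
 (n 0 z (n 0 z (n 0 z (n 0 z (n 0 z (n 0 z (n 0 z (n 0 z (n 0 z (n 0 z (n 0 z (n 0 z (n 0 z (n 0
 z (n 0 z (n 0 z (n 0 z (n 0 z (n 0 z (n 0 z (n 0 z (n 0 z (n 0 z z))))))))))))))))))))))))))))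
 (n 265 (n 0 z (n 0 z (n 0 z (n 0 z (n 0 z (n 0 z (n 0 z (n 0 z (n 0 z (n
 0x2ec8e8260389d8238217227a17a18208208608208218208618218208208607df82185e79f8228208608610801 z
 (n 0 z (n 0 z z)))))))))))) z))) (n 0 (n 9 (n 0 z (n 0 z (n 0 z (n 0 z (n 0 z (n 0 z (n 2 (n 2
 (n 0 z (n 0 z (n 0 z (n 0 z (n 0 z (n 0 z z)))))) z) (n 0 z (n 0 z (n 0 z (n 0 z (n 0 z (n 0 z
 (n 0 z (n 0 z (n 0 z (n 0 z (n 0 z (n 0 z (n 0 z z)))))))))))))))))))) (n 269 (n 2 z (n 0 z (n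
 0 z (n 0 z z)))) z)) (n 0 (n 25 (n 0 z (n 0 z (n 0 z (n 0 z (n 0 z (n 0 z (n 0 z (n 0 z (n 0 z
 (n 0 z (n 0 z (n 0 z (n 0 z (n 0 z (n 0 z z))))))))))))))) z) (n 0 z z)))) (n 0 (n 0 z (n 1 (n
 2164283 z (n 2164283 z (n 2164283 z (n 2164283 z (n 2164283 z (n 2164283 z z)))))) (n 1 (n 4220
 z (n 4220 z (n 4220 z (n 4220 z (n 4220 z (n 4220 z z)))))) z))) (n 0 z z)))) (n
 0x16a4e8574b6542250c0a29530898b501d5681ad480 (n 0 (n 693 (n 3282443 z (n 0 z (n 2 z (n 6423883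
 z (n 6423883 z (n 0 z (n 0 z (n 0 z (n 10 z (n 0 z (n 0 z (n 18 z z)))))))))))) (n 691 (n
 3278363 z (n 0 z (n 0 z (n 0 z (n 26 z (n 0 z (n 0 z z))))))) (n 690 (n 0 z (n 0 z (n 0 z (n 0
 z (n 0 z (n 0 z (n 3212843 z (n 0 z (n 0 z (n 0 z (n 0 z (n 34 z (n 0 z (n 0 z (n 0 z (n 0 z (n
 0 z (n 0 z (n 0 z (n 0 z (n 0 z (n 42 z (n
 0x165254010180ca8ca80078607e17e181f8207df8217df8207e185e8a181f7e085e8617df85f8618608608608208617e11001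
 z (n 0 z (n 0 z (n 0 z (n 0 z (n 0 z (n 0 z (n 0 z (n 0 z (n 0 z (n 0 z (n
 0x1b6318208207a082081f7df8e08208608208617e07e179f7e08227a07e285f7e07df82089f85e8610041 z (n 0 z
 (n 0 z (n 0 z (n 0 z (n 0 z (n 0 z (n 0 z (n 0 z (n 0 z (n 0 z (n 0 z (n 0 z (n 0 z (n 0 z (n 0
 z (n 0 z (n 0 z z))))))))))))))))))))))))))))))))))))))))))))))))))) (n 3 (n 2164283 z (n 0 z
 (n 0 z (n 0 z z)))) (n 1 (n 0 z (n 2164299 z (n 0 z (n 0 z (n 0 z (n 0 z (n 0 z z))))))) (n 0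
 (n 0x54c40296207e17e07e189f7e082179f82086175e7a07608e081f86082181f82182085f8e089e86282179f0081
 z (n 2164315 z (n 50 z (n 0 z (n 0 z (n
 0x2c86c840037df8217a185e81f8608617e08208a182086082176181f7e07607e082082186181f8208208600801 z
 (n 0x54c20296107e17e07e189f7e082179f82086175e7a07608e081f86082181f82182085f8e089e86282179f0081
 z (n 58 z (n 0 z (n 0 z (n 0 z (n
 0x54c40296207e17e07e189f7e082179f82086175e7a07608e081f86082181f82182085f8e089e86282179f0081 z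
 z)))))))))))) z)))))) (n 3 (n 0 (n 0 z (n 0 z (n 1389 (n 0 z (n 0 z (n 0 z (n 0 z (n 0 z (n 0 z
 (n 0 z (n 0 z (n 2 (n 1 z (n 1 z (n 1 z (n 1 z z)))) z))))))))) (n 1385 (n 0 z (n 0 z (n 0 z (n
 0 z (n 0 z (n 0 z (n 0 z z))))))) (n 1385 (n 0 z (n 0 z (n 0 z (n 0 z (n 0 z (n 0 z (n 2 (n 1 z
 (n 1 z z)) z))))))) (n 289 (n 0 z (n 0 z (n 0 z (n 2 (n 0 z z) (n 0 z (n 0 z (n 0 z (n 0 z (n 0
 z (n 0 z (n 0 z z))))))))))) (n 289 (n 0 z (n 0 z (n 0 z (n 0 z (n 0 z (n 0 z (n 0 z (n 0 z (n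
 0 z (n 0 z (n 0 z z))))))))))) z))))))) (n 0 (n 0 z (n 923 (n 0 z (n 0 z (n 0 z (n 0 z (n 2 (n
 1 z (n 1 z (n 1 z (n 1 z z)))) (n 0 z (n 0 z (n 0 z (n 0 z (n 0 z (n 0 z (n 0 z (n 0 z (n 0 z
 z)))))))))))))) (n 921 (n 0 z (n 0 z (n 0 z (n 0 z (n 0 z (n 0 z (n 0 z (n 0 z (n 0 z (n 0 z (n
 0 z (n 0 z z)))))))))))) (n 921 (n 0 z (n 0 z (n 0 z (n 0 z (n 2 (n 1 z (n 1 z z)) (n 0 z (n 0
 z (n 0 z (n 0 z (n 0 z (n 0 z (n 0 z z)))))))))))) (n 305 (n 0 z (n 0 z (n 0 z (n 0 z (n 0 z (n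
 0 z (n 0 z (n 0 z (n 0 z (n 0 z (n 0 z (n 0 z (n 0 z (n 0 z (n 0 z (n 0 z (n 0 z
 z))))))))))))))))) (n 305 (n 0 z (n 0 z (n 0 z (n 0 z (n 0 z (n 0 z (n 0 z (n 0 z (n 0 z (n 0 z
 (n 0 z (n 0 z (n 0 z (n 0 z (n 0 z (n 0 z (n 0 z z))))))))))))))))) z)))))) (n 0 (n 1355 (n 0 z
 (n 0 z (n 0 z (n 0 z (n 0 z (n 0 z (n 0 z (n 0 z (n 0 z z))))))))) (n 1353 (n 0 z (n 2 (n 0 z
 (n 1 z (n 2 (n 0 z (n 0 z (n 0 z (n 0 z (n 0 z (n 0 (n 6559787 z z) z)))))) z))) (n 0 z (n 0 z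
 (n 0 z (n 0 z (n 0 z (n 0 z (n 0 z (n 0 z (n 0 z (n 0 z z)))))))))))) (n 1353 (n 0 z (n 0 z (n
 0 z (n 0 z (n 0 z (n 0 z (n 0 z (n 0 z (n 0 z (n 0 z (n 0 z (n 0 z z)))))))))))) (n 745 (n 0 z
 (n 0 z (n 0 z (n 0 z (n 0 z (n 0 z (n 0 z (n 0 z (n 0 z (n 0 z (n 0 z (n 0 z (n 0 z (n 0 z (n 0
 z (n 0 z (n 0 z (n 0 z (n 0 z (n 0 z (n 0 z (n 0 z (n 0 z (n 2 (n 0 z z) (n 0 z (n 0 z
 z)))))))))))))))))))))))))) (n 745 (n 0 z (n 0 z (n 0 z (n 0 z (n 0 z (n 0 z (n 0 z (n 0 z (n 0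
 z (n 0 z (n 0 z (n 0 z (n 0 z (n 0 z (n 0 z (n 0 z (n 0 z (n 0 z (n 0 z (n 0 z (n 0 z (n 0 z (n
 0 z (n 0 z (n 0 z (n 0 z z)))))))))))))))))))))))))) z))))) (n 0 (n 1381 (n 0 z (n 0 z (n 0 z
 (n 0 z (n 0 z (n 0 z (n 0 z (n 0 z (n 0 z (n 0 z (n 0 z (n 0 z z)))))))))))) (n 1381 (n 0 z (n
 0 z (n 0 z (n 0 z (n 0 z (n 0 z (n 0 z (n 0 z (n 0 z (n 0 z (n 0 z (n 0 z z)))))))))))) (n 49
 (n 0 z (n 0 z (n 0 z (n 0 z (n 0 z (n 0 z (n 0 z (n 0 z (n 0 z (n 0 z (n 0 z z))))))))))) (n 49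
 (n 0 z (n 0 z (n 0 z (n 0 z (n 0 z (n 2 z (n 0 z (n 0 z (n 0 z (n 0 z (n 0 z z))))))))))) z))))
 (n 0 (n 0 z (n 13 (n 0 z (n 0 z (n 0 z (n 0 z (n 0 z (n 0 z (n 2 (n 0 z z) (n 0 z (n 0 z (n 0 z
 (n 0 z (n 0 z (n 0 z (n 0 z (n 0 z (n 0 z (n 0 z (n 0 z (n 0 z (n 0 z (n 0 z (n 0 z (n 0 z (n 0
 z (n 0 z (n 0 z (n 0 z (n 0 z (n 0 z (n 0 z (n 0 z (n 0 z (n 0 z (n 0 z (n 0 z (n 0 z (n 0 z (n
 0 z (n 0 z (n 0 z (n 0 z (n 0 z (n 0 z (n 0 z (n 0 z (n 0 z (n 0 z (n 0 z (n 0 z (n 0 z (n 0 z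
 z))))))))))))))))))))))))))))))))))))))))))))))))))) (n 13 (n 0 z (n 0 z (n 0 z (n 0 z (n 0 z
 (n 0 z (n 0 z (n 0 z (n 0 z (n 0 z (n 0 z (n 0 z (n 0 z (n 0 z (n 0 z (n 0 z (n 0 z (n 0 z (n 0
 z (n 0 z (n 0 z (n 0 z (n 0 z (n 0 z (n 0 z (n 0 z (n 0 z (n 0 z (n 0 z (n 0 z (n 0 z (n 0 z (n
 0 z (n 0 z (n 0 z (n 0 z (n 0 z (n 0 z (n 0 z (n 0 z (n 0 z (n 0 z (n 0 z (n 0 z (n 0 z (n 0 z
 (n 0 z (n 0 z (n 0 z (n 0 z (n 0 z z))))))))))))))))))))))))))))))))))))))))))))))))))) z))) (n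
 0 (n 13 (n 0 z (n 0 z (n 0 z (n 0 z (n 0 z (n 0 z (n 0 z (n 0 z (n 0 z (n 0 z (n 0 z (n 0 z (n
 0 z (n 0 z (n 0 z (n 0 z (n 0 z (n 0 z (n 0 z (n 0 z (n 0 z (n 0 z (n 0 z (n 0 z (n 0 z (n 0 z
 (n 0 z (n 0 z z)))))))))))))))))))))))))))) (n 13 (n 0 z (n 0 z (n 0 z (n 0 z (n 0 z (n 0 z (n
 0 z (n 0 z (n 0 z (n 0 z (n 0 z (n 0 z (n 0 z (n 0 z (n 0 z (n 2 z (n 0 z (n 0 z (n 0 z (n 0 z
 (n 0 z (n 0 z (n 0 z (n 0 z (n 0 z (n 0 z (n 0 z (n 0 z z)))))))))))))))))))))))))))) z)) (n 0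
 (n 0 z z) (n 0 z z)))))))) (n 0 (n 1 (n 2164283 z (n 2164283 z (n 2164283 z (n 2164283 z (n
 2164283 z (n 2164283 z z)))))) (n 0 z (n 0 z (n 0 z z)))) (n 0 z z)))) (n
 0x184314a19ae309131846c8d844b283719a46aa9a1d4da04a6d204945884a2d80da440 (n 0 (n 473 (n
 0x6a62ca0803808180817f8080808180818081808080808081808180807e7f8181807f808080808080808080808081817f808080808080810809
 z (n 2 z (n 3282443 z (n 0 z (n 0 z (n 0 z (n 0 z (n 0 z (n 0 z (n 0 z (n 10 z (n 0 z (n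
 0x4ca8ca8207818081817d8180827e81807f7f808181837e817e81807f8181807f828082817f80807e817e808180847e817f8080807e81800809
 z (n 0 z z)))))))))))))) (n 469 (n 0 z (n 18 z (n 26 z (n 3278363 z (n 0 z z))))) (n 690 (n 34
 z (n 0 z (n 0 z (n 0 z (n 0 z (n 0 z (n 0 z (n 3212843 z (n 42 z (n 0 z (n 0 z (n 0 z (n 0 z (n
 0 z (n
 0x2ca2ca080380807f80808080828081808081808080808081808080808080808080808080818080808080808080808080808080808080800809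
 z (n 0 z (n 50 z (n 0 z (n 0 z (n 0 z (n 0 z (n 0 z z)))))))))))))))))))))) (n 3 (n 58 z (n
 2164283 z (n 0 z (n 0 z (n 66 z (n 0 z z)))))) (n 1 (n 0 z (n 74 z (n 82 z (n 2164299 z (n 90 z
 (n 0 z (n 98 z (n 0 z z)))))))) (n 0 (n 0 z (n 2164315 z (n 0 z (n 0 z (n 0 z z))))) z)))))) (n
 469 (n 0 (n 0 z (n 919 (n 0 z (n 0 z (n 0 z (n 0 z (n
 0x16e62ca080380807f808281817f8180828280817d7f817f7e827f80818080827f838080807e807e8081808180808082808080827f8082800809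
 z (n 2 (n 0 z (n 1 z (n 2 (n 0 z (n 0 z (n 0 z (n 0 z (n 0 z (n 0 z z)))))) (n 2 (n 0 z (n 0 z
 (n 0 z (n 0 z (n 0 z (n 0 z z)))))) (n 1 z (n 1 z (n 2 (n 0 z (n 0 z (n 0 z (n 0 z (n 0 z (n 0
 z z)))))) (n 1 z (n 2 (n 0 z (n 0 z (n 0 z (n 0 z (n 0 z (n 0 z z)))))) (n 2 (n 0 z (n 0 z (n 0
 z (n 0 z (n 0 z (n 0 z z)))))) z)))))))))) (n 0 z (n 0 z (n 0 z (n 0 z (n 0 z (n 0 z (n 0 z (n
 0 z (n 0 z (n 0 z (n 0 z (n 0 z (n 0 z (n 0 z (n 0 z (n 0 z (n 0 z (n 0 z (n 0 z (n 0 z (n 0 z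
 (n 0 z (n 0 z (n 0 z (n 0 z (n 0 z z)))))))))))))))))))))))))))))))) (n 919 (n 0 z (n 0 z (n 0
 z (n 0 z (n 0 z (n 0 z (n 0 z (n 0 z (n 0 z (n 0 z (n 0 z (n 0 z (n 0 z (n 0 z (n 0 z (n 0 z (n
 0 z (n 0 z (n 0 z (n 0 z (n 0 z (n 0 z (n 0 z (n 0 z (n 0 z (n 0 z (n 0 z (n 0 z (n 0 z (n 0 z
 (n 0 z (n 0 z z)))))))))))))))))))))))))))))))) (n 921 (n 0 z (n 0 z (n 0 z (n 0 z (n 0 z (n 0
 z (n 0 z (n 0 z (n 0 z (n 0 z (n 0 z (n 0 z (n 0 z (n 0 z (n 0 z (n 0 z (n 0 z (n 0 z (n 0 z (n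
 0 z (n 0 z (n 0 z (n 0 z (n 0 z (n 0 z (n 0 z (n 0 z (n 0 z (n 0 z
 z))))))))))))))))))))))))))))) (n 921 (n 0 z (n 0 z (n 0 z (n 0 z (n 0 z (n 0 z (n 0 z (n 0 z
 (n 0 z (n 0 z (n 0 z (n 0 z (n 0 z (n 0 z (n 0 z (n 0 z (n 0 z (n 0 z (n 0 z (n 0 z (n 0 z (n 0
 z (n 0 z (n 0 z (n 0 z (n 0 z (n 0 z (n 0 z (n 0 z z))))))))))))))))))))))))))))) (n 921 (n 0 z
 (n 0 z (n 0 z (n 0 z (n 0 z (n 0 z (n 0 z (n 0 z (n 0 z (n 0 z (n 0 z (n 0 z (n 0 z (n 0 z (n 0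
 z (n 0 z (n 0 z (n 0 z (n 0 z (n 0 z (n 0 z (n 0 z (n 0 z (n 0 z (n 2 (n 2 (n 0 z (n 0 z (n 0 z
 (n 0 z (n 0 z (n 0 z z)))))) (n 2 (n 0 z (n 0 z (n 0 z (n 0 z (n 0 z (n 0 z z)))))) (n 2 (n 0 z
 (n 0 z (n 0 z (n 0 z (n 0 z (n 0 z z)))))) (n 2 (n 0 z (n 0 z (n 0 z (n 0 z (n 0 z (n 0 z
 z)))))) (n 2 (n 0 z (n 0 z (n 0 (n 8525323 z z) (n 0 z (n 0 (n 12 z z) (n 0 (n 12 z (n 7682059
 z z)) z)))))) (n 2 (n 0 z (n 0 z (n 0 z (n 0 z (n 0 z (n 0 z z)))))) z)))))) (n 0 z (n 0 z (n 0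
 z (n 0 z z))))))))))))))))))))))))))))) (n 7 (n
 0x16e62ca080380807f808281817f8180828280817d7f817f7e827f80818080827f838080807e807e8081808180808082808080827f8082800809
 z (n 2 (n 0 z (n 2 (n 0 z (n 0 z (n 0 z (n 0 z (n 0 z (n 0 (n 12 z z) z)))))) (n 1 z (n 1 z (n
 2 (n 0 z (n 0 z (n 0 z (n 0 z (n 0 z (n 0 z z)))))) z))))) (n 0 z (n 0 z (n 0 z (n 0 z (n 0 z
 (n 0 z (n 0 z (n 0 z (n 0 z (n 0 z (n 0 z (n 0 z (n 0 z (n 0 z z)))))))))))))))) (n 7 (n 0 z (n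
 0 z (n 0 z (n 0 z (n 0 z (n 0 z (n 0 z (n 0 z (n 0 z (n 0 z (n 0 z (n 0 z (n 0 z (n 0 z (n 0 z
 (n 0 z z)))))))))))))))) (n 3 (n 0 z (n 0 z (n 0 z (n 0 z (n 0 z (n 0 z (n 0 z (n 0 z (n 0 z (n
 0 z (n 0 z (n 2 (n 0 z (n 0 z (n 0 z z))) (n 0 z (n 0 z (n 0 z (n 0 z (n 0 z (n 0 z (n 0 z (n 0
 z (n 0 z (n 0 z (n 0 z (n 0 z (n 0 z (n 0 z (n 0 z (n 0 z (n 0 z (n 0 z (n 0 z (n 0 z (n 0 z (n
 0 z (n 0 z (n 0 z (n 0 z (n 0 z (n 0 z (n 0 z (n 0 z (n 0 z (n 0 z (n 0 z (n 0 z (n 0 z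
 z)))))))))))))))))))))))))))))))))))))))))))))) (n 3 (n 0 z (n 0 z (n 0 z (n 0 z (n 0 z (n 0 z
 (n 0 z (n 0 z (n 0 z (n 0 z (n 0 z (n 0 z (n 0 z (n 0 z (n 0 z (n 0 z (n 0 z (n 0 z (n 0 z (n 0
 z (n 0 z (n 0 z (n 0 z (n 0 z (n 0 z (n 0 z (n 0 z (n 0 z (n 0 z (n 0 z (n 0 z (n 0 z (n 0 z (n
 0 z (n 0 z (n 0 z (n 0 z (n 0 z (n 0 z (n 0 z (n 0 z (n 0 z (n 0 z (n 0 z (n 0 z (n 0 z
 z)))))))))))))))))))))))))))))))))))))))))))))) (n 3 (n 0 z (n 0 z (n 0 z (n 0 z (n 0 z (n 0 z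
 (n 0 z (n 0 z (n 0 z (n 0 z (n 0 z (n 0 z (n 0 z (n 0 z (n 0 z (n 0 z (n 0 z (n 0 z (n 0 z (n 0
 z (n 0 z (n 2 (n 0 z z) (n 0 z (n 0 z (n 0 z (n 0 z (n 0 z (n 0 z (n 0 z (n 0 z (n 0 z (n 0 z
 (n 0 z (n 0 z (n 0 z (n 0 z (n 0 z (n 0 z (n 0 z (n 0 z (n 0 z (n 0 z (n 0 z (n 0 z (n 0 z (n 0
 z z)))))))))))))))))))))))))))))))))))))))))))))) (n 3 (n 0 z (n 0 z (n 0 z (n 0 z (n 0 z (n 0
 z (n 0 z (n 0 z (n 0 z (n 0 z (n 0 z (n 0 z (n 0 z (n 0 z (n 0 z (n 0 z (n 0 z (n 0 z (n 0 z (n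
 0 z (n 0 z (n 0 z (n 0 z (n 0 z (n 0 z (n 0 z (n 0 z (n 0 z (n 0 z (n 0 z (n 0 z (n 0 z (n 0 z
 (n 0 z (n 0 z (n 0 z (n 0 z (n 0 z (n 0 z (n 0 z (n 0 z (n 0 z (n 0 z (n 0 z (n 0 z (n 0 z
 z)))))))))))))))))))))))))))))))))))))))))))))) z)))))))))))) (n 0 (n 227 (n 0 z (n 0 z (n 0 z
 (n 0 z (n 0 z (n 0 z (n 0 z (n 0 z (n 0 z (n 0 z (n 0 z (n 0 z (n 0 z (n 0 z (n 0 z (n 0 z (n 0
 z (n 0 z (n 0 z (n 0 z (n 0 z (n 0 z (n 0 z (n 0 z (n 0 z z))))))))))))))))))))))))) (n 227 (n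
 0xae62ca0803847b7f81807e81807e817f807f857a83818183817b7f7c837d7f8181817d8283817e817d7f7c837f7f7e81808481877e7f830809
 z (n 2 (n 1 z (n 2 (n 0 z (n 0 z (n 0 z (n 0 z (n 0 z (n 0 z z)))))) (n 2 (n 0 (n 8869435 z z)
 (n 0 z (n 0 (n 900 z z) (n 0 z (n 0 z (n 0 (n 900 z (n 7538779 z z)) z)))))) (n 1 z (n 1 z (n 2
 (n 0 z (n 0 z (n 0 z (n 0 z (n 0 z (n 0 (n 3044 z z) z)))))) (n 1 z (n 1 z (n 2 (n 0 z (n 0 z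
 (n 0 z (n 0 z (n 0 z (n 0 z z)))))) z))))))))) (n 0 z (n 0 z (n 0 z (n 0 z (n 0 z (n 0 z (n 0 z
 (n 0 z (n 0 z (n 0 z (n 0 z (n 0 z (n 0 z (n 0 z (n 0 z (n 0 z (n 0 z (n 0 z (n 0 z (n 0 z (n 0
 z (n 0 z (n 0 z z))))))))))))))))))))))))) (n 225 (n 0 z (n
 0xae62ca0803847b7f81807e81807e817f807f857a83818183817b7f7c837d7f8181817d8283817e817d7f7c837f7f7e81808481877e7f830809
 z (n 2 (n 0 z (n 0 z (n 1 z (n 1 z (n 2 (n 0 z (n 0 z (n 0 z (n 0 z (n 0 z (n 0 (n 3044 z z)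
 z)))))) (n 1 z (n 1 z (n 2 (n 0 z (n 0 z (n 0 z (n 0 z (n 0 z (n 0 z z)))))) z)))))))) (n 0 z
 (n 0 z (n 0 z (n 0 z (n 0 z (n 0 z (n 0 z (n 0 z (n 0 z (n 0 z (n 0 z (n 0 z (n 0 z (n 0 z (n 0
 z (n 0 z (n 0 z (n 0 z (n 0 z (n 0 z (n 0 z (n 0 z (n 0 z (n 0 z (n 0 z (n 0 z (n 0 z (n 0 z (n
 0 z (n 0 z (n 0 z (n 0 z (n 0 z z)))))))))))))))))))))))))))))))))))) (n 225 (n 0 z (n 0 z (n 0
 z (n 0 z (n 0 z (n 0 z (n 0 z (n 0 z (n 0 z (n 0 z (n 2 (n 0 z (n 1 z (n 1 z (n 2 (n 0 z (n 0 z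
 (n 0 z (n 0 z (n 0 z (n 0 (n 3044 z z) z)))))) (n 2 (n 0 z (n 0 z (n 0 z (n 0 z (n 0 z (n 0 (n
 3044 z z) z)))))) (n 1 z (n 2 (n 0 z (n 0 z (n 0 z (n 0 z (n 0 z (n 0 z z)))))) z))))))) (n 0 z
 (n 0 z (n 0 z (n 0 z (n 0 z (n 0 z (n 0 z (n 0 z (n 0 z (n 0 z (n 0 z (n 0 z (n 0 z (n 0 z (n 0
 z (n 0 z (n 0 z (n 0 z (n 0 z (n 0 z (n 0 z (n 0 z (n 0 z (n 0 z (n 0 z
 z)))))))))))))))))))))))))))))))))))) (n 225 (n 0 z (n 0 z (n 0 z (n 0 z (n 0 z (n 0 z (n 0 z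
 (n 0 z (n 0 z (n 0 z (n 0 z (n 0 z (n 0 z (n 0 z (n 0 z (n 0 z (n 0 z (n 0 z (n 0 z (n 0 z (n 0
 z (n 0 z (n 0 z (n 0 z (n 0 z (n 0 z (n 0 z (n 0 z (n 0 z (n 0 z (n 0 z (n 0 z (n 0 z (n 0 z (n
 0 z (n 0 z z)))))))))))))))))))))))))))))))))))) (n 233 (n 0 z (n 0 z (n 0 z (n 0 z (n 0 z (n 0
 z (n 0 z (n 0 z (n 0 z (n 0 z (n 0 z (n 0 z (n 0 z (n 0 z (n 0 z (n 0 z z)))))))))))))))) (n
 233 (n
 0xae62ca0803847b7f81807e81807e817f807f857a83818183817b7f7c837d7f8181817d8283817e817d7f7c837f7f7e81808481877e7f830809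
 z (n 2 (n 2 (n 0 z (n 0 z (n 0 z (n 0 z (n 0 z (n 0 (n 3044 z z) z)))))) (n 1 z (n 1 z (n 2 (n
 0 z (n 0 z (n 0 z (n 0 z (n 0 z (n 0 z z)))))) z)))) (n 0 z (n 0 z (n 0 z (n 0 z (n 0 z (n 0 z
 (n 0 z (n 0 z (n 0 z (n 0 z (n 0 z (n 0 z (n 0 z (n 0 z z)))))))))))))))) (n 761 (n 0 z (n 0 z
 (n 0 z (n 0 z (n 0 z (n 0 z (n 0 z (n 0 z (n 0 z (n 0 z (n 0 z (n 0 z (n 0 z (n 0 z (n 0 z (n 0
 z (n 0 z (n 0 z (n 0 z (n 0 z (n 0 z (n 0 z (n 0 z (n 0 z (n 0 z (n 0 z (n 0 z (n 0 z (n 0 z (n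
 0 z (n 0 z (n 0 z (n 0 z (n 0 z (n 0 z z))))))))))))))))))))))))))))))))))) (n 761 (n
 0xaea4ca4203837a7f84817e7f7f7c807e817f857a847f8383807a807d867c7d8080827b8285817f807d7f7d837f7e7f82828481847e80810809
 z (n 2 (n 0 z (n 0 z z)) (n 0 z (n 0 z (n 0 z (n 0 z (n 0 z (n 0 z (n 0 z (n 0 z (n 0 z (n 0 z
 (n 0 z (n 0 z (n 0 z (n 0 z (n 0 z (n 0 z (n 0 z (n 0 z (n 0 z (n 0 z (n 0 z (n 0 z (n 0 z (n 0
 z (n 0 z (n 0 z (n 0 z (n 0 z (n 0 z (n 0 z (n 0 z (n 0 z (n 0 z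
 z))))))))))))))))))))))))))))))))))) (n 761 (n 0 z (n 0 z (n 0 z (n 0 z (n 0 z (n 0 z (n 0 z (n
 0 z (n 0 z (n 0 z (n 0 z (n 0 z (n 0 z (n 0 z (n 2 (n 0 z z) (n 0 z (n 0 z (n 0 z (n 0 z (n 0 z
 (n 0 z (n 0 z (n 0 z (n 0 z (n 0 z (n 0 z (n 0 z (n 0 z (n 0 z (n 0 z (n 0 z (n 0 z (n 0 z (n 0
 z (n 0 z z))))))))))))))))))))))))))))))))))) (n 761 (n 0 z (n 0 z (n 0 z (n 0 z (n 0 z (n 0 z
 (n 0 z (n 0 z (n 0 z (n 0 z (n 0 z (n 0 z (n 2 z (n 0 z (n 0 z (n 0 z (n 0 z (n 0 z (n 0 z (n 0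
 z (n 0 z (n 0 z (n 0 z (n 0 z (n 0 z (n 0 z (n 0 z (n 0 z (n 0 z (n 0 z (n 0 z (n 0 z (n 0 z (n
 0 z (n 0 z z))))))))))))))))))))))))))))))))))) z))))))))))) (n 0 (n 0 z (n 465 (n 2 (n 0 z (n
 0 z (n 1 z (n 1 z (n 2 (n 0 z (n 0 z (n 0 z (n 0 z (n 0 z (n 0 z z)))))) (n 1 z (n 2 (n 0 z (n
 0 z (n 0 z (n 0 z (n 0 z (n 0 z z)))))) (n 2 (n 0 z (n 0 z (n 0 z (n 0 z (n 0 z (n 0 z z))))))
 z)))))))) (n 0 z (n 0 z (n 0 z (n 0 z (n 0 z (n 0 z (n 0 z (n 0 z z))))))))) (n 465 (n 0 z (n 0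
 z (n 0 z (n 2 (n 0 z (n 2 (n 0 z (n 0 z (n 0 z (n 0 z (n 0 z (n 0 z z)))))) (n 2 (n 0 z (n 0 z
 (n 0 z (n 0 z (n 0 z (n 0 (n 1892 z z) z)))))) (n 2 (n 0 z (n 0 z (n 0 z (n 0 z (n 0 z (n 0 z
 z)))))) (n 2 (n 0 z (n 0 z (n 0 z (n 0 z (n 0 z (n 0 z z)))))) (n 1 z (n 2 (n 0 z (n 0 z (n 0 z
 (n 0 z (n 0 z (n 0 z z)))))) z))))))) (n 0 z (n 0 z (n 0 z (n 0 z (n 0 z z))))))))) (n 465 (n 0
 z (n 0 z (n 0 z (n 0 z (n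
 0x491d90a639882273170688a9d90698972976892a48b727e7343c296ae578b51765fa6796d894c7389819f594b9b7194726272a286c37693918e6f00c9
 z (n 0 z (n 0 z (n 0 z (n 0 z z))))))))) (n 473 (n 0 z (n 0 z (n 0 z (n 0 z (n 0 z (n 0 z
 z)))))) (n 473 (n 2 (n 2 (n 0 z (n 0 z (n 0 z (n 0 z (n 0 z (n 0 z z)))))) (n 1 z (n 2 (n 0 z
 (n 0 z (n 0 z (n 0 z (n 0 z (n 0 z z)))))) (n 2 (n 0 z (n 0 z (n 0 z (n 0 z (n 0 z (n 0 z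
 z)))))) z)))) (n 0 z (n 0 z (n 0 z (n 0 z (n 0 z z)))))) (n 809 (n 0 z (n 0 z (n 0 z (n 0 z (n
 0 z (n 0 z (n 0 z (n 0 z (n 0 z (n 0 z (n 0 z (n 0 z (n 0 z z))))))))))))) (n 809 (n 2 (n 0 z
 (n 0 z z)) (n 0 z (n 0 z (n 0 z (n 0 z (n 0 z (n 0 z (n 0 z (n 0 z (n 0 z (n 0 z (n 0 z (n 0 z
 z))))))))))))) (n 809 (n 0 z (n 0 z (n 0 z (n 2 (n 0 z z) (n 0 z (n 0 z (n 0 z (n 0 z (n 0 z (n
 0 z (n 0 z (n 0 z (n 0 z z))))))))))))) (n 809 (n 0 z (n 2 z (n 0 z (n 0 z (n 0 z (n 0 z (n 0 z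
 (n 0 z (n 0 z (n 0 z (n 0 z (n 0 z (n 0 z z))))))))))))) z)))))))))) (n 0 (n 263 (n 0 z (n 0 z
 (n 0 z (n 0 z (n 0 z (n 0 z (n 0 z (n 0 z (n 0 z (n 0 z (n 0 z z))))))))))) (n 263 (n 0 z (n 2
 (n 0 z (n 2 (n 0 z (n 0 z (n 0 z (n 0 z (n 0 z (n 0 z z)))))) (n 2 (n 0 z (n 0 z (n 0 z (n 0 z
 (n 0 z (n 0 z z)))))) (n 2 (n 0 z (n 0 z (n 0 z (n 0 z (n 0 z (n 0 z z)))))) (n 2 (n 0 z (n 0 z
 (n 0 z (n 0 z (n 0 z (n 0 z z)))))) (n 1 z (n 2 (n 0 z (n 0 z (n 0 z (n 0 z (n 0 z (n 0 z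
 z)))))) z))))))) (n 0 z (n 0 z (n 0 z (n 0 z (n 0 z (n 0 z (n 0 z (n 0 z (n 0 z z))))))))))) (n
 263 (n 0 z (n 0 z (n 0 z (n 0 z (n 0 z (n 2 (n 2 (n 0 z (n 0 z (n 0 z (n 0 z (n 0 z (n 0 z
 z)))))) (n 2 (n 0 z (n 0 z (n 0 z (n 0 z (n 0 z (n 0 z z)))))) (n 2 (n 0 z (n 0 z (n 0 z (n 0 z
 (n 0 z (n 0 z z)))))) (n 2 (n 0 z (n 0 z (n 0 z (n 0 z (n 0 z (n 0 z z)))))) (n 2 (n 0 z (n 0 z
 (n 0 (n 972 z z) (n 0 z (n 0 (n 972 z z) (n 0 (n 972 z (n 7682059 z z)) z)))))) (n 2 (n 0 z (n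
 0 z (n 0 z (n 0 z (n 0 z (n 0 z z)))))) z)))))) (n 0 z (n 0 z (n 0 z (n 0 z (n 0 z z)))))))))))
 (n 251 (n 0 z (n 0 z (n 2 (n 0 z (n 2 (n 0 z (n 0 z (n 0 z (n 0 z (n 0 z (n 0 (n 972 z z)
 z)))))) (n 1 z (n 1 z (n 2 (n 0 z (n 0 z (n 0 z (n 0 z (n 0 z (n 0 z z)))))) z))))) (n 0 z (n 0
 z (n 0 z (n 0 z z))))))) (n 251 (n 0 z (n 0 z (n 0 z (n 0 z (n 0 z (n 0 z (n 0 z z))))))) (n
 243 (n 0 z (n 0 z (n 0 z (n 0 z (n 0 z (n 2 (n 0 z (n 0 z (n 0 z z))) (n 0 z (n 0 z (n 0 z (n 0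
 z (n 0 z (n 0 z (n 0 z z))))))))))))) (n 243 (n 0 z (n 0 z (n 0 z (n 0 z (n 0 z (n 0 z (n 0 z
 (n 0 z (n 0 z (n 0 z (n 0 z (n 0 z (n 0 z z))))))))))))) (n 243 (n 0 z (n 0 z (n 0 z (n 0 z (n
 0 z (n 0 z (n 0 z (n 0 z (n 0 z (n 0 z (n 2 (n 0 z z) (n 0 z (n 0 z z))))))))))))) (n 243 (n 0
 z (n 0 z (n 0 z (n 0 z (n 0 z (n 0 z (n 0 z (n 0 z (n 0 z (n 0 z (n 0 z (n 0 z (n 0 z
 z))))))))))))) z))))))))) (n 0 (n 0 z (n 0 z (n 535 (n 2 (n 0 z (n 2 (n 0 z (n 0 z (n 0 z (n 0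
 z (n 0 z (n 0 z z)))))) (n 1 z (n 1 z (n 2 (n 0 z (n 0 z (n 0 z (n 0 z (n 0 z (n 0 z z))))))
 z))))) (n 0 z (n 0 z (n 0 z (n 0 z (n 0 z (n 0 z (n 0 z (n 0 z (n 0 z (n 0 z (n 0 z (n 0 z (n 0
 z (n 0 z (n 0 z (n 0 z z))))))))))))))))) (n 535 (n 0 z (n 0 z (n 0 z (n 0 z (n 0 z (n 0 z (n 0
 z (n 0 z (n 0 z (n 0 z (n 0 z (n 0 z (n 0 z (n 0 z (n 0 z (n 0 z (n 0 z z))))))))))))))))) (n
 483 (n 0 z (n 0 z (n 2 (n 0 z (n 0 z (n 0 z z))) (n 0 z (n 0 z (n 0 z (n 0 z (n 0 z (n 0 z (n 0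
 z z)))))))))) (n 483 (n 0 z (n 0 z (n 0 z (n 0 z (n 0 z (n 0 z (n 0 z (n 0 z (n 0 z (n 0 z
 z)))))))))) (n 483 (n 0 z (n 0 z (n 0 z (n 0 z (n 0 z (n 0 z (n 0 z (n 2 (n 0 z z) (n 0 z (n 0
 z z)))))))))) (n 483 (n 0 z (n 0 z (n 0 z (n 0 z (n 0 z (n 0 z (n 0 z (n 0 z (n 0 z (n 0 z
 z)))))))))) z)))))))) (n 0 (n 0 z (n 645 (n 0 z (n 0 z (n 0 z (n 0 z (n 0 z (n 0 z (n 0 z (n 0
 z (n 0 z (n 0 z (n 0 z (n 0 z (n 0 z (n 2 (n 0 z (n 2 (n 0 z (n 0 z (n 0 z (n 0 z (n 0 z (n 0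
 (n 60 z z) z)))))) (n 2 (n 0 z (n 0 z (n 0 z (n 0 z (n 0 z (n 0 z z)))))) (n 1 z (n 2 (n 0 z (n
 0 z (n 0 (n 60 z z) (n 0 (n 8869403 z z) (n 0 z (n 0 (n 8790387 z (n 8791835 z z)) z))))))
 z))))) (n 0 z (n 0 z (n 0 z (n 0 z (n 0 z (n 0 z (n 0 z z))))))))))))))))))))) (n 645 (n 0 z (n
 0 z (n 0 z (n 0 z (n 0 z (n 0 z (n 0 z (n 0 z (n 0 z (n 0 z (n 0 z (n 0 z (n 0 z (n 0 z (n 0 z
 (n 0 z (n 0 z (n 0 z (n 0 z (n 0 z (n 0 z z))))))))))))))))))))) (n 15 (n 0 z (n 0 z (n 0 z (n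
 0 z (n 0 z (n 0 z (n 0 z (n 0 z (n 0 z (n 0 z (n 0 z (n 0 z (n 0 z (n 0 z (n 0 z (n 0 z (n 0 z
 (n 0 z (n 0 z (n 0 z (n 0 z z))))))))))))))))))))) (n 15 (n 0 z (n 0 z (n 0 z (n 0 z (n 0 z (n
 0 z (n 0 z (n 0 z (n 2 (n 0 z (n 0 z z)) (n 0 z (n 0 z (n 0 z (n 0 z (n 0 z (n 0 z (n 0 z (n 0
 z (n 0 z (n 0 z (n 0 z (n 0 z z))))))))))))))))))))) (n 15 (n 0 z (n 0 z (n 0 z (n 0 z (n 0 z
 (n 0 z (n 0 z (n 0 z (n 0 z (n 0 z (n 0 z (n 0 z (n 0 z (n 0 z (n 0 z (n 0 z (n 0 z (n 0 z (n 0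
 z (n 0 z (n 0 z z))))))))))))))))))))) (n 15 (n 0 z (n 0 z (n 0 z (n 0 z (n 0 z (n 0 z (n 0 z
 (n 0 z (n 0 z (n 0 z (n 0 z (n 0 z (n 0 z (n 0 z (n 0 z (n 0 z (n 0 z (n 0 z (n 0 z (n 0 z (n 0
 z z))))))))))))))))))))) z))))))) (n 0 (n 1333 (n 0 z (n 0 z (n 0 z (n 0 z (n 0 z (n 0 z (n 0 z
 (n 0 z (n 0 z (n 0 z (n 0 z (n 0 z z)))))))))))) (n 1333 (n 2 (n 2 (n 0 z (n 0 z (n 0 z (n 0 z
 (n 0 z (n 0 z z)))))) (n 2 (n 0 z (n 0 z (n 0 z (n 0 z (n 0 z (n 0 z z)))))) (n 2 (n 0 z (n 0 z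
 (n 0 z (n 0 z (n 0 z (n 0 z z)))))) (n 2 (n 0 (n 7542859 z (n 3748 z z)) (n 0 z (n 0 (n 3748 z
 (n 3748 z z)) (n 0 (n 7542859 z (n 3748 z z)) (n 0 (n 6494283 z (n 6494283 z z)) (n 0 z z))))))
 z)))) (n 0 z (n 0 z (n 0 z (n 0 z (n 0 z (n 0 z (n 0 z (n 0 z (n 0 z (n 0 z (n 0 z
 z)))))))))))) (n 937 (n 0 z (n 0 z (n 0 z (n 0 z (n 0 z (n 0 z (n 0 z (n 2 (n 0 z (n 0 z (n 0 z
 z))) z)))))))) (n 937 (n 2 (n 0 z (n 0 z z)) (n 0 z (n 0 z (n 0 z (n 0 z (n 0 z (n 0 z (n 0 z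
 z)))))))) (n 937 (n 0 z (n 0 z (n 0 z (n 0 z (n 0 z (n 0 z (n 2 (n 0 z z) (n 0 z z)))))))) (n
 937 (n 0 z (n 0 z (n 0 z (n 0 z (n 0 z (n 0 z (n 0 z (n 0 z z)))))))) z)))))) (n 0 (n 0 z (n 3
 (n 0 z (n 0 z (n 0 z (n 0 z (n 0 z (n 0 z (n 0 z (n 0 z (n 0 z z))))))))) (n 3 (n 0 z (n 2 (n 0
 z (n 0 z z)) (n 0 z (n 0 z (n 0 z (n 0 z (n 0 z (n 0 z (n 0 z z))))))))) (n 3 (n 0 z (n 0 z (n
 0 z (n 0 z (n 2 (n 0 z z) (n 0 z (n 0 z (n 0 z (n 0 z z))))))))) (n 3 (n 0 z (n 0 z (n 0 z (n 0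
 z (n 0 z (n 0 z (n 0 z (n 2 z (n 0 z z))))))))) z))))) (n 0 (n 723 (n 0 z (n 0 z (n 0 z (n 2 (n
 0 z (n 0 z (n 0 z z))) (n 0 z (n 0 z (n 0 z (n 0 z (n 0 z (n 0 z (n 0 z (n 0 z (n 0 z
 z))))))))))))) (n 723 (n 0 z (n 0 z (n 0 z (n 0 z (n 0 z (n 0 z (n 0 z (n 0 z (n 0 z (n 0 z (n
 0 z (n 0 z (n 0 z z))))))))))))) (n 723 (n 0 z (n 0 z (n 0 z (n 0 z (n 0 z (n 0 z (n 2 (n 0 z
 z) (n 0 z (n 0 z (n 0 z (n 0 z (n 0 z (n 0 z z))))))))))))) (n 723 (n 0 z (n 0 z (n 0 z (n 0 z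
 (n 0 z (n 0 z (n 0 z (n 0 z (n 0 z (n 0 z (n 0 z (n 0 z (n 0 z z))))))))))))) z)))) (n 0 (n 0 z
 (n 0 z (n 0 z z))) (n 0 (n 0 z (n 0 z z)) (n 0 (n 0 z z) (n 0 z z))))))))))))) (n 0 (n 0 z (n 1
 (n 3788 z (n 3788 z (n 5524 z (n 3788 z (n 3788 z (n 3788 z z)))))) (n 1 (n 4 z (n 3788 z (n
 3788 z (n 3788 z (n 3788 z (n 3788 z z)))))) (n 1 (n 3278363 z (n 3278363 z (n 3278363 z (n
 3278363 z (n 3278363 z (n 3278363 z z)))))) (n 0 z z))))) (n 0 z z)))) (n 0x5659a1164d (n 0 (n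
 525 (n 3282443 z (n 0 z (n 0 z (n 0 z (n 0 z (n 0 z (n 0 z (n 0 z z)))))))) (n 33 (n 0 z (n
 3278363 z (n 0 z (n 0 z (n 0 z (n 0 z (n 0 z (n 0 z z)))))))) (n 135 (n 0 z (n 0 z (n 0 z (n 0
 z (n 0 z (n 0 z (n 0 z (n 0 z (n 0 z (n 0 z (n 0 z (n 3212843 z (n 0 z (n 0 z (n 0 z (n 0 z (n
 0 z z))))))))))))))))) (n 3 (n 0 z (n 0 z (n 0 z (n 0 z (n 0 z (n 0 z (n 2164283 z (n 0 z (n 0
 z (n 0 z (n 0 z z))))))))))) (n 1 (n 0 z (n 2164299 z (n 0 z (n 0 z (n 0 z (n 0 z z)))))) (n 0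
 (n
 0x16ca68604038083808082807b827f7f817d7e8080807e80808080807e80807b807d807e81808281827e818180807e827d82817d818080820809
 z (n 0 z (n 0 z (n 0 z (n 0 z (n 2 z (n
 0x2c8686040380807f807f80817e837e7f7f828080807f807f828080837e8380817e7f80808180818081817e7e80817f81807f7f8083827e0809
 z (n 2164315 z (n
 0x6ca6860407807e80808080808282807f817f807d807f8082817f7e7f80817e837d8181807f828182808180807f837d80807d7f808380800809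
 z (n
 0xc36307f8a9e97888985906c7f8c7a7481797d7a85677d8c887674789e859d847c77656e6872897a92887f5e7b95779372987b7a8b0049
 z (n 0 z (n 0 z (n 0 z (n 0 z (n 0 z (n 0 z (n 0 z (n 10 z (n 0 z (n 0 z (n 0 z (n 0 z (n 0 z
 (n 0 z (n 0 z (n 0 z (n 0 z (n
 0x5909900c0600c86c864037e81807c827f837f8380827f7f808082807e817f807f8080817d817e82817f818082808080808180817f817f7e7f7f81807f1009
 z (n 0 z z))))))))))))))))))))))))))))) z)))))) (n 1 (n 0 (n 0 z z) (n 0 z z)) (n 0 (n 0 z (n 1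
 (n 2164299 z (n 2164299 z (n 2164299 z (n 2164299 z (n 2164299 z (n 2164299 z z)))))) (n 0 z (n
 0 z (n 0 z (n 0 z z)))))) (n 0 z z)))) (n 0x1e49d0b3d284cb350c939930ca790293501293c135932c0 (n
 0 (n 321 (n 0 z (n 0 z (n 0 z (n 0 z (n 3282443 z (n 0 z (n 2 z z))))))) (n 255 (n 0 z (n 0 z
 (n 3278363 z (n 0 z (n 0 z (n 0 z (n 0 z z))))))) (n 9 (n 0 z (n 0 z (n 0 z (n 0 z (n 10 z (n
 18 z (n 26 z (n 0 z (n 0 z (n 0 z (n 3212843 z (n 34 z z)))))))))))) (n 27 (n 0 z (n 0 z (n 0 z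
 (n 0 z (n 0 z (n 0 z (n 0 z (n 0 z (n 0 z (n 0 z (n 0 z (n 0 z (n 0 z (n 0 z (n 0 z (n 0 z (n 0
 z (n 0 z (n 0 z (n 0 z (n 0 z (n 2164283 z (n 0 z z))))))))))))))))))))))) (n 1 (n 0 z (n 0 z
 (n 0 z (n 0 z (n 42 z (n 0 z (n 0 z (n 0 z (n 0 z (n 0 z (n 0 z (n 0 z (n 0 z (n 0 z (n 2164299
 z z))))))))))))))) (n 0 (n 50 z (n 0 z (n 58 z (n 0 z (n 66 z (n
 0x5c2ca88206030000c564361020380008cb29a08101c000af50c994040e000232ca48420030003056c8000060a9900001f7cb200001cac4200007a968400010069080002e1ca1000038c84208000007ff6168001b37ff66e8000008001237fffa87ffdbb8003408005e78009d47ffa4180007180001680099d7ff8d58001307ff20d7ff93a7ffd88800693800e168001f17ff7188000237fe9818003068003788011d17ffc978002557ffd627ff68f7ffa9f8001dd800dda7ff8dc800efc7ffdeb7fff6b8011c47ffa2c800f8f7ff8a27fef037ff7447ffb3a8010bf7ff10b8003982a19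
 z (n 0 z (n 0 z (n 0 z (n 0 z (n 0 z (n 0 z (n 2164315 z z))))))))))))) z)))))) (n 321 (n 0 (n
 151 (n 0 z (n 0 z (n 0 z (n 0 z (n 0 z (n 0 z (n 0 z (n 0 z (n 0 z (n 0 z (n 0 z (n 0 z (n 0 z
 (n 0 z (n 0 z (n 0 z (n 0 z z))))))))))))))))) (n 151 (n 0 z (n 0 z (n 0 z (n 0 z (n 0 z (n
 7677515 z (n 0 z (n 0 z (n 0 z (n 0 z (n 0 z (n 0 z (n 0 z (n 0 z (n 0 z (n 0 z (n 0 z
 z))))))))))))))))) (n 151 (n 0 z (n 0 z (n 0 z (n 2 (n 0 z (n 1 z (n 2 (n 0 z (n 0 z (n 0 z (n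
 0 z (n 0 z (n 0 z z)))))) (n 2 (n 0 z (n 0 z (n 0 z (n 0 z (n 0 z (n 0 z z)))))) (n 2 (n 0 z (n
 0 z (n 0 z (n 0 z (n 0 (n 2020 z z) (n 0 z z)))))) z))))) (n 0 z (n 0 z (n 0 z (n 0 z (n 0 z (n
 0 z (n 0 z (n 0 z (n 0 z (n 0 z (n 0 z (n 0 z (n 0 z z))))))))))))))))) (n 151 (n 0 z (n 0 z (n
 0 z (n 0 z (n 0 z (n 0 z (n 0 z (n 0 z (n 0 z (n 0 z (n 0 z (n 0 z (n 0 z (n 0 z (n 0 z (n 0 z
 (n 0 z z))))))))))))))))) (n 483 (n 0 z (n 2 (n 2 (n 0 z (n 0 z (n 0 z (n 0 z (n 0 (n 8798243 z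
 z) (n 0 z z)))))) (n 2 (n 0 z (n 0 z (n 0 z (n 0 z (n 0 (n 8868915 z z) (n 0 z z)))))) (n 1 z
 z))) (n 0 z (n 0 z (n 0 z (n 0 z (n 0 z (n 0 z z)))))))) (n 505 (n 0 z (n 0 z (n 0 z (n 0 z (n
 0 z (n 0 z (n 0 z (n 0 z (n 0 z (n 0 z (n 0 z (n 0 z (n 0 z (n 0 z z)))))))))))))) (n 505 (n 0
 z (n 0 z (n 0 z (n 0 z (n 0 z (n 0 z (n 0 z (n 0 z (n 0 z (n 0 z (n 0 z (n 0 z (n 0 z (n
 7677515 z z)))))))))))))) (n 505 (n 0 z (n 0 z (n 0 z (n 0 z (n 0 z (n 0 z (n 0 z (n 0 z (n 0 z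
 (n 0 z (n 0 z (n 0 z (n 0 z (n 0 z z)))))))))))))) z)))))))) (n 0 (n 0 z (n 0 z (n 0 z (n 249
 (n 0 z (n 0 z (n 0 z (n 0 z (n 0 z (n 0 z (n 0 z (n 0 z (n 0 z (n 0 z (n 0 z z))))))))))) (n 13
 (n 0 z (n 0 z (n 0 z (n 0 z (n 0 z (n 0 z (n 0 z (n 0 z (n 0 z (n 0 z (n 0 z (n 0 z
 z)))))))))))) (n 13 (n 0 z (n 0 z (n 0 z (n 7754803 z (n 0 z (n 0 z (n 0 z (n 0 z (n 0 z (n 0 z
 (n 0 z (n 0 z z)))))))))))) (n 13 (n 0 z (n 0 z (n 0 z (n 0 z (n 0 z (n 0 z (n 0 z (n 0 z (n 0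
 z (n 0 z (n 0 z (n 0 z z)))))))))))) z))))))) (n 0 (n 0 z (n 0 z (n 297 (n 0 z (n 0 z (n 0 z (n
 0 z (n 0 z (n 0 z (n 0 z (n 0 z (n 0 z (n 0 z (n 0 z (n 0 z (n 0 z (n 0 z (n 0 z (n 0 z (n 0 z
 (n 0 z (n 0 z (n 6629147 z (n 0 z (n 0 z (n 0 z (n 0 z (n 0 z z))))))))))))))))))))))))) (n 1
 (n 7741699 z (n 0 z (n 0 z (n 0 z (n 0 z (n 0 z (n 0 z (n 0 z (n 0 z (n 0 z (n 0 z (n 0 z (n 0
 z (n 0 z (n 0 z (n 0 z (n 0 z (n 0 z (n 0 z (n 0 z (n 0 z (n 0 z (n 0 z (n 0 z (n 0 z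
 z))))))))))))))))))))))))) (n 1 (n 0 z (n 0 z (n 0 z (n 0 z (n 0 z (n 2 (n 0 z z) (n 0 z (n 0 z
 (n 0 z (n 0 z (n 0 z (n 0 z (n 0 z (n 0 z (n 0 z (n 0 z (n 0 z (n 0 z (n 0 z (n 0 z (n 0 z (n 0
 z (n 0 z (n 0 z (n 0 z z))))))))))))))))))))))))) (n 1 (n 0 z (n 0 z (n 0 z (n 0 z (n 0 z (n 0
 z (n 0 z (n 2 z (n 0 z (n 0 z (n 0 z (n 0 z (n 0 z (n 0 z (n 0 z (n 0 z (n 0 z (n 0 z (n 0 z (n
 0 z (n 0 z (n 0 z (n 0 z (n 0 z (n 0 z z))))))))))))))))))))))))) z)))))) (n 0 (n 0 z (n 297 (n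
 0 z (n 0 z (n 0 z (n 0 z (n 0 z (n 0 z (n 0 z (n 0 z (n 0 z (n 0 z (n 0 z z))))))))))) (n 241
 (n 0 z (n 2 (n 0 z (n 0 z z)) (n 0 z (n 0 z (n 0 z (n 0 z (n 0 z (n 0 z (n 0 z (n 0 z (n 0 z (n
 0 z (n 0 z (n 0 z z)))))))))))))) (n 241 (n 0 z (n 0 z (n 0 z (n 0 z (n 0 z (n 0 z (n 0 z (n 0
 z (n 0 z (n 0 z (n 0 z (n 0 z (n 0 z (n 0 z z)))))))))))))) (n 241 (n 0 z (n 0 z (n 0 z (n 0 z
 (n 2 z (n 0 z (n 0 z (n 0 z (n 0 z (n 0 z (n 0 z (n 0 z (n 0 z (n 0 z z)))))))))))))) z))))) (n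
 0 (n 3 (n 0 z (n 0 z (n 2 (n 2 (n 0 z (n 0 z (n 0 z (n 0 z (n 0 (n 8790275 z z) (n 0 z z))))))
 (n 2 (n 0 z (n 0 z (n 0 z (n 0 z (n 0 (n 8868915 z z) (n 0 z z)))))) (n 1 z z))) (n 0 z (n 0 z
 (n 0 z (n 0 z (n 0 z (n 0 z (n 0 z (n 0 z (n 0 z z)))))))))))) (n 49 (n 0 z (n 0 z (n 0 z (n 0
 z (n 0 z (n 0 z (n 0 z (n 0 z (n 0 z (n 0 z (n 0 z (n 0 z z)))))))))))) (n 49 (n 0 z (n 0 z (n
 2 (n 0 z z) (n 0 z (n 0 z (n 0 z (n 0 z (n 0 z (n 0 z (n 0 z (n 0 z (n 0 z z)))))))))))) (n 49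
 (n 0 z (n 0 z (n 0 z (n 0 z (n 0 z (n 0 z (n 0 z (n 0 z (n 0 z (n 0 z (n 0 z (n 0 z
 z)))))))))))) z)))) (n 0 (n 1 (n 0 z (n 0 z (n 0 z (n 0 z (n 0 z (n 0 z (n 0 z (n 2 (n 0 z (n 0
 z z)) (n 0 z (n 0 z (n 0 z z))))))))))) (n 1 (n 0 z (n 0 z (n 0 z (n 0 z (n 0 z (n 0 z (n 0 z
 (n 0 z (n 0 z (n 0 z (n 7754803 z z))))))))))) (n 1 (n 0 z (n 0 z (n 0 z (n 0 z (n 0 z (n 0 z
 (n 0 z (n 0 z (n 0 z (n 0 z (n 0 z z))))))))))) z))) (n 0 (n 0 z (n 0 z z)) (n 0 (n 0 z z) (n 0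
 z z))))))))) (n 0 (n 0 z (n 0 z (n 0 z (n 0 z (n 1 (n 3282443 z (n 3282443 z (n 3282443 z (n
 3282443 z (n 3282443 z (n 3282443 z z)))))) (n 0 z (n 1 (n 2044 z (n 5310011 z (n 5375563 z (n
 2044 z (n 2044 z (n 2044 z z)))))) z))))))) (n 0 z z)))) (n 0x1852dc62b2e6c0b6f6a4324dc21 (n 0
 (n 201 (n 0 z (n 0 z (n 6631491 z (n 0 z (n 0 z (n 0 z z)))))) (n 57 (n 2 z (n 6496515 z (n
 6496515 z (n 0 z (n 0 z (n 0 z (n 10 z z))))))) (n 9 (n 0 z (n 0 z (n 0 z (n 0 z (n 0 z (n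
 6496515 z (n 0 z z))))))) (n 3 (n 0 z (n 0 z (n 0 z (n 0 z (n 0 z (n 0 z (n 0 z (n 0 z (n 0 z
 (n 0 z (n 0 z (n 0 z (n 6496515 z (n 18 z z)))))))))))))) (n 1 (n 0 z (n 0 z (n 0 z (n 6562099
 z (n 26 z (n 0 z (n 34 z z))))))) (n 0 (n 0 z (n 0 z (n 6631491 z (n 0 z (n 0 z z))))) z))))))
 (n 0 (n 0 (n 0 z (n 421 (n 0 z (n 0 z (n 0 z (n 0 z (n 0 z (n 0 z (n 0 z (n 0 z (n 0 z (n 0 z
 (n 0 z (n 0 z (n 0 z (n 0 z (n 0 z z))))))))))))))) (n 111 (n 0 z (n 0 z (n 0 z (n 0 z (n 0 z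
 (n 0 z (n 0 z (n 0 z (n 0 z (n 0 z z)))))))))) (n 111 (n 0 z (n 0 z (n 0 z (n 0 z (n 0 z (n 0 z
 (n 0 z (n 0 z (n 0 z (n 0 z z)))))))))) z)))) (n 0 (n 487 (n 0 z (n 0 z (n 0 z (n 0 z (n 0 z (n
 0 z (n 0 z z))))))) (n 63 (n 0 z (n 0 z (n 0 z (n 0 z (n 0 z (n 0 z z)))))) (n 63 (n 0 z (n 0 z
 (n 0 z (n 0 z (n 0 z (n 0 z z)))))) z))) (n 0 (n 51 (n 0 z (n 0 z (n 0 z (n 0 z (n 0 z (n 0 z
 z)))))) (n 51 (n 0 z (n 0 z (n 0 z (n 0 z (n 0 z (n 0 z z)))))) z)) (n 0 (n 0 z z) (n 0 z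
 z))))) (n 0 (n 0 z (n 0 z (n 1 (n 6631491 z (n 6631491 z (n 6631491 z (n 6631491 z (n 6631491 z
 (n 6631491 z z)))))) (n 0 z (n 0 z z))))) (n 0 z z)))) (n 0x1eced6296e3c156cd0636f315a (n 0 (n
 201 (n 0 z (n 0 z (n 0 z (n 3282443 z z)))) (n 33 (n 0 z (n 0 z (n 0 z (n 0 z (n 0 z (n 6496515
 z z)))))) (n 9 (n 0 z (n 0 z (n 0 z (n 6496515 z (n 2 z (n 0 z z)))))) (n 3 (n 0 z (n 10 z (n
 18 z (n 0 z (n 0 z (n 6496515 z z)))))) (n 25 (n 0 z (n 0 z (n 0 z (n 0 z (n 26 z (n 0 z (n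
 6636323 z z))))))) (n 0 (n 0 z (n 0 z (n 34 z (n 0 z (n 0 z (n 0 z (n 0 z (n 0 z (n 0 z (n
 6636323 z z)))))))))) z)))))) (n 201 (n 0 (n 267 (n 7681579 z (n 0 z (n 0 z (n 0 z (n 0 z (n 0
 z (n 0 z z))))))) (n 267 (n 0 z (n 0 z (n 0 z (n 0 z (n 0 z (n 0 z (n 0 z z))))))) (n 99 (n 0 z
 (n 0 z (n 0 z (n 0 z (n 0 z (n 0 z (n 0 z z))))))) (n 17 (n 0 z (n 0 z (n 0 z (n 0 z (n 0 z (n
 0 z (n 0 z z))))))) z)))) (n 0 (n 0 z (n 51 (n 0 z (n 0 z (n 0 z (n 0 z (n 0 z (n 0 z (n 0 z (n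
 0 z (n 0 z (n 0 z (n 0 z (n 0 z (n 0 z z))))))))))))) (n 5 (n 0 z (n 0 z (n 0 z (n 0 z (n 0 z
 (n 0 z (n 0 z (n 0 z (n 0 z (n 0 z (n 0 z (n 0 z (n 0 z (n 0 z z)))))))))))))) z))) (n 0 (n 51
 (n 0 z (n 0 z (n 0 z (n 0 z (n 0 z (n 0 z (n 0 z (n 0 z (n 0 z (n 0 z (n 0 z (n 0 z (n 0 z (n 0
 z z)))))))))))))) (n 5 (n 0 z (n 0 z (n 0 z (n 0 z (n 0 z (n 0 z (n 0 z z))))))) z)) (n 0 (n 49
 (n 0 z (n 0 z (n 0 z (n 0 z (n 0 z (n 0 z (n 0 z (n 0 z (n 0 z (n 2 z z)))))))))) z) (n 0 z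
 z))))) (n 0 (n 0 z (n 0 z (n 0 z (n 1 (n 6496515 z (n 3282443 z (n 3282443 z (n 3282443 z (n
 3282443 z (n 3282443 z z)))))) z)))) (n 0 z z)))) z)))))))))), by decide +kernel⟩
theorem i11296 : ∃ t, chkR KT RW t 11296 11306 = true := ⟨(n 0x18635c60b46345826b3980d1680 (n 0
 (n 573 (n 6623283 z (n 0 z (n 2 z (n 0 z (n 0 z (n 0 z (n 10 z z))))))) (n 571 (n 0 z (n 0 z (n
 18 z (n 0 z (n 6623283 z (n 0 z (n 0 z (n 0 z (n 0 z (n 0 z (n 0 z (n 0 z (n 0 z (n 0 z (n 0 z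
 z))))))))))))))) (n 570 (n 0 z (n 0 z (n 0 z (n 3212843 z (n 0 z (n 0 z z)))))) (n 3 (n 0 z (n
 0 z (n 2164283 z (n 0 z (n 0 z (n 0 z (n 0 z (n 0 z (n 0 z (n 0 z z)))))))))) (n 1 (n 2164299 z
 (n 26 z (n 0 z (n 0 z (n 0 z (n 0 z (n 34 z z))))))) (n 0 (n 6623283 z (n 0 z (n 0 z (n 0 z (n
 0 z (n 0 z (n 0 z (n 0 z (n 0 z (n 0 z (n 0 z (n 0 z (n 0 z z))))))))))))) z)))))) (n 570 (n 0
 (n 0 z (n 875 (n 0 z (n 0 z (n 0 z (n 0 z (n 0 z (n 0 z z)))))) (n 105 (n 0 z (n 0 z (n 0 z (n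
 0 z (n 0 z (n 0 z (n 0 z z))))))) (n 105 (n 0 z (n 0 z (n 0 z (n 0 z (n 0 z (n 0 z (n 0 z
 z))))))) z)))) (n 0 (n 875 (n 0 z (n 0 z (n 0 z (n 0 z (n 0 z (n 0 z z)))))) (n 729 (n 0 z (n 0
 z (n 0 z (n 0 z (n 0 z z))))) (n 729 (n 0 z (n 0 z (n 0 z (n 0 z (n 0 z z))))) z))) (n 0 (n 255
 (n 0 z (n 0 z (n 0 z (n 0 z (n 0 z (n 0 z (n 0 z z))))))) (n 255 (n 0 z (n 0 z (n 0 z (n 0 z (n
 0 z (n 0 z (n 0 z z))))))) z)) (n 0 (n 0 z z) (n 0 z z))))) (n 0 (n 0 z (n 0 z (n 0 z (n 1 (n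
 3212843 z (n 3212843 z (n 6619675 z (n 3212843 z (n 3212843 z (n 3212843 z z)))))) (n 0 z (n 0
 z z)))))) (n 0 z z)))) (n 0 (n 0 (n 347 (n 3282443 z (n 0 z (n 0 z (n 0 z (n 0 z (n 0 z (n 0 z
 (n 0 z z)))))))) (n 375 (n 0 z (n 0 z (n 0 z (n 0 z (n 0 z (n 0 z (n 0 z (n 6496515 z (n 0 z (n
 0 z (n 0 z (n 0 z z)))))))))))) (n 373 (n 0 z (n 6496515 z (n 0 z (n 0 z (n 0 z (n 0 z (n 0 z
 (n 0 z (n 0 z (n 0 z (n 0 z z))))))))))) (n 27 (n 0 z (n 0 z (n 0 z (n 0 z (n 6496515 z (n 0 z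
 (n 0 z (n 0 z (n 0 z z))))))))) (n 1 (n
 0x18ca6c642079148d87a45219a56e962771f5207b08e55e281289bb1d8238dd71ea217d99d87613de960c970801 z
 (n 0 z (n 0 z (n 0 z (n 0 z (n 0 z (n 0 z (n 0 z (n 0 z (n 2164299 z (n 0 z (n 0 z (n 0 z (n 0
 z z)))))))))))))) (n 0 (n 0 z (n 0 z (n 0 z (n 6619931 z (n 0 z (n 0 z (n 0 z (n 0 z z))))))))
 z)))))) (n 347 z (n 0 (n 1 (n 6496515 z (n 3282443 z (n 3282443 z (n 3282443 z (n 3282443 z (n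
 3282443 z z)))))) (n 0 z (n 0 z (n 0 z (n 0 z (n 0 z (n 0 z (n 0 z z)))))))) (n 0 z z)))) (n
 0x3195719c833b3a31 (n 0 (n 549 (n 0 z (n 0 z (n 0 z (n 0 z (n 0 z (n 0 z (n 3282443 z (n 0 z (n
 0 z (n 0 z (n 0 z (n 0 z (n 0 z (n 0 z (n 0 z (n 0 z (n 0 z (n 0 z (n 0 z (n 0 z
 z)))))))))))))))))))) (n 317 (n 3278363 z (n 0 z (n 0 z (n 2 z (n 0 z (n 10 z (n 0 z z)))))))
 (n 129 (n 0 z (n 0 z (n 3212843 z (n 0 z (n 0 z (n 0 z (n 0 z (n 0 z (n 0 z (n 0 z (n 0 z (n 0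
 z (n 0 z (n 0 z (n 0 z z))))))))))))))) (n 27 (n 0 z (n 0 z (n 0 z (n 0 z (n 0 z (n 0 z (n
 0xd9459440061aca6a42007816b968b637f6cab698881867867897d8d81947385726f877b9a80867e7d807389777a7d74867f7b7085787e9083868180851009
 z (n
 0x1aca2ca20036b92635b6e76869635e877899f7560398b786f9b9e9f808e60a674913338956b644e8dbf89a84d7e52a8856d81695f82798a0809
 z (n 0 z (n
 0x12ca8ca20078d9f9298bb837d60c3408660788f819871857a787d7880729270aa9392988a91769670708b547493a1727dac848e938088650809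
 z (n 0 z (n 0 z (n 2164283 z z))))))))))))) (n 1 (n 0 z (n 2164299 z (n 18 z (n 0 z (n 0 z (n 0
 z z)))))) (n 0 (n 0 z (n 2164315 z (n 0 z (n 0 z (n 0 z (n 0 z (n 0 z (n 0 z (n 0 z (n 0 z (n 0
 z (n 0 z (n 0 z (n 0 z z)))))))))))))) z)))))) (n 1 (n 0 (n 0 z (n 501 (n 0 z (n 0 z (n 0 z (n
 0 z (n 0 z z))))) z)) (n 0 (n 483 (n 0 z (n 0 z (n 0 z (n 0 z (n 0 z (n 0 z (n 0 z z))))))) z)
 (n 0 z z))) (n 0 (n 0 z (n 1 (n 2164299 z (n 2164299 z (n 2164299 z (n 2164299 z (n 2164299 z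
 (n 2164299 z z)))))) (n 1 (n 4396 z (n 4396 z (n 4396 z (n 4396 z (n 4396 z (n 4396 z z))))))
 (n 0 z (n 0 z (n 0 z z)))))) (n 0 z z)))) (n 0x5a63a2b2cd0aa4edac32ab80949a052 (n 0 (n 159 (n 0
 z (n 0 z (n 0 z (n 3282443 z (n 0 z (n 0 z (n 0 z (n 0 z z)))))))) (n 33 (n 0 z (n 0 z (n
 3278363 z (n 0 z (n 0 z (n 0 z (n 0 z z))))))) (n 9 (n 0 z (n 0 z (n 2 z (n 0 z (n 0 z (n 0 z
 (n 0 z (n 0 z (n 10 z (n 0 z (n 18 z (n 0 z (n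
 0x56516504018aca4a208037a171e81e8608e082085f7de81e89f8617a07a07a085c85f96186182482275d8218608228221001
 z (n 3212843 z z)))))))))))))) (n 3 (n 0 z (n 0 z (n 0 z (n 2164283 z (n 0 z (n 0 z (n 0 z (n 0
 z z)))))))) (n 1 (n
 0x5908c4140e0b2a288100c365452100182ca864200781f81f81f7e282082082079e7a08207a07a081d89e8218607e08a281f8e285f8207e08207e02001
 z (n 0 z (n 0 z (n 0 z (n 0 z (n 0 z (n 0 z (n 0 z (n 0 z (n 2164299 z (n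
 0x6ca6ca42070194d94c00e1b29b19000c163163100182c62c420078a071e82381e9207e67616168e07e96e67627a08246da8dc8e59258e382681a6999de81c8212801
 z (n 0 z (n 2164299 z z))))))))))))) (n 0 (n 0 z (n 0 z (n 0 z (n 26 z (n 0 z (n 0 z (n 0 z (n
 0 z (n 2164315 z (n 34 z (n 42 z (n 0 z (n 0 z (n 0 z z)))))))))))))) z)))))) (n 33 (n 0 (n 0 z
 (n 0 z (n 293 (n 0 z (n 0 z (n 0 z (n 0 z (n 0 z (n 0 z (n 0 z (n 0 z (n 0 z (n 0 z (n 0 z (n 0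
 z (n 0 z (n 0 z z)))))))))))))) (n 293 (n 0 z (n 0 z (n 0 z (n 0 z (n 2 (n 0 z z) (n 0 z (n 0 z
 (n 0 z (n 0 z (n 0 z (n 0 z (n 0 z (n 0 z (n 0 z z)))))))))))))) (n 293 (n 0 z (n 0 z (n 0 z (n
 0 z (n 0 z (n 0 z (n 0 z (n 0 z (n 0 z (n 0 z (n 7669307 z (n 0 z (n 0 z (n 0 z z))))))))))))))
 z))))) (n 0 (n 0 z (n 293 (n 0 z (n 0 z (n 0 z (n 0 z (n 0 z (n 0 z (n 0 z (n 0 z (n 0 z (n 0 z
 (n 0 z (n 0 z (n 6563611 z (n 0 z (n 0 z (n 0 z (n 0 z (n 0 z (n 0 z (n 0 z (n 0 z (n 0 z (n 0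
 z z))))))))))))))))))))))) (n 293 (n 0 z (n 0 z (n 0 z (n 0 z (n 0 z (n 7741699 z (n 0 z (n 0 z
 (n 0 z (n 0 z (n 0 z (n 0 z (n 0 z (n 0 z (n 0 z (n 0 z (n 0 z (n 0 z (n 0 z (n 0 z (n 0 z (n 0
 z (n 0 z z))))))))))))))))))))))) (n 293 (n 0 z (n 0 z (n 0 z (n 0 z (n 0 z (n 0 z (n 0 z (n 0
 z (n 0 z (n 0 z (n 0 z (n 0 z (n 0 z (n 0 z (n 0 z (n 0 z (n 2 z (n 0 z (n 0 z (n 0 z (n 0 z (n
 0 z (n 0 z z))))))))))))))))))))))) z)))) (n 0 (n 1 (n 2 (n 0 z (n 0 z z)) (n 0 z (n 0 z (n 0 z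
 (n 0 z (n 0 z (n 0 z (n 0 z (n 0 z (n 0 z (n 0 z z))))))))))) (n 1 (n 0 z (n 0 z (n 0 z (n 0 z
 (n 0 z (n 0 z (n 0 z (n 0 z (n 0 z (n 0 z (n 0 z z))))))))))) (n 1 (n 0 z (n 0 z (n 0 z (n 0 z
 (n 0 z (n 0 z (n 0 z (n 0 z (n 7754563 z (n 0 z (n 0 z z))))))))))) z))) (n 0 (n 0 z (n 0 z z))
 (n 0 (n 0 z z) (n 0 z z)))))) (n 0 (n 0 z (n 0 z (n 1 (n 3278363 z (n 3278363 z (n 3278363 z (n
 3278363 z (n 3278363 z (n 3278363 z z)))))) (n 0 z (n 0 z (n 0 z (n 0 z z))))))) (n 0 z z))))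
 (n 0xcd93706c98c84d3648696cd82592822c94c0 (n 0 (n 345 (n 2 z (n 0 z (n 3282443 z (n 0 z z))))
 (n 435 (n 3278363 z (n 10 z (n 0 z (n 18 z z)))) (n 433 (n 3212843 z (n 26 z (n 0 z z))) (n 125
 (n 34 z (n 2164283 z (n 0 z (n 0 z z)))) (n 1 (n 0 z (n 0 z (n 0 z (n 0 z (n 0 z (n 2164299 z
 (n 42 z (n 0 z z)))))))) (n 0 (n 0 z (n 0 z (n 0 z (n 0 z (n 50 z (n 2164315 z z)))))) z))))))
 (n 433 (n 0 (n 127 (n 0 z (n 0 z (n 0 z (n 0 z (n 0 z (n 0 z (n 0 z z))))))) (n 127 (n 0 z (n 0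
 z (n 0 z (n 0 z (n 0 z (n 0 z (n 0 z z))))))) (n 123 (n 0 z (n 0 z (n 0 z (n 0 z (n 0 z (n 0 z
 (n 0 z (n 0 z (n 0 z (n 0 z (n 0 z z))))))))))) (n 675 (n 0 z (n 0 z (n 0 z (n 0 z (n 0 z (n 0
 z z)))))) (n 673 (n 0 z (n 0 z (n 0 z (n 0 z (n 0 z (n 0 z (n 0 z (n 0 z z)))))))) (n 125 (n 0
 z (n 0 z (n 0 z (n 0 z z)))) z)))))) (n 0 (n 0 z (n 363 (n 0 z (n 0 z (n 0 z (n 0 z (n 0 z
 z))))) (n 387 (n 0 z (n 0 z (n 0 z (n 0 z (n 0 z (n 0 z (n 0 z (n 0 z (n 0 z (n 0 z (n 0 z (n 0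
 z (n 0 z (n 0 z (n 0 z (n 0 z (n 0 z (n 0 z (n 0 z (n 0 z (n 0 z z))))))))))))))))))))) (n 339
 (n 0 z (n 0 z (n 0 z (n 0 z (n 0 z (n 0 z (n 0 z (n 2 (n 1 z z) (n 0 z z))))))))) (n 361 (n 0 z
 (n 0 z (n 0 z (n 0 z (n 0 z (n 0 z (n 0 z (n 0 z (n 0 z (n 0 z (n 0 z (n 0 z (n 0 z (n 0 z (n 0
 z (n 0 z (n 0 z (n 0 z (n 0 z (n 0 z (n 0 z (n 0 z (n 0 z (n 0 z (n 0 z (n 0 z
 z)))))))))))))))))))))))))) z))))) (n 0 (n 19 (n 0 z (n 0 z (n 0 z (n 0 z z)))) (n 7 (n 0 z (n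
 0 z (n 0 z (n 2 (n 1 z (n 1 z z)) (n 0 z (n 0 z (n 0 z (n 0 z z)))))))) (n 3 (n 0 z (n 0 z (n 0
 z (n 0 z (n 0 z (n 0 z z)))))) (n 13 (n 0 z (n 0 z (n 0 z (n 0 z (n 0 z (n 0 z (n 0 z (n 0 z
 z)))))))) z)))) (n 0 (n 627 (n 0 z (n 0 z (n 0 z (n 0 z (n 0 z (n 0 z z)))))) (n 579 (n 0 z (n
 0 z (n 0 z (n 0 z (n 0 z z))))) (n 601 (n 0 z (n 0 z (n 0 z (n 0 z (n 0 z (n 0 z (n 0 z (n 0 z
 z)))))))) z))) (n 0 (n 3 (n 0 z (n 0 z (n 0 z (n 0 z (n 0 z (n 0 z (n 0 z (n 0 z (n 0 z (n 0 z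
 (n 0 z (n 0 z (n 0 z (n 0 z (n 0 z (n 0 z (n 0 z (n 0 z (n 0 z (n 0 z (n 0 z (n 0 z (n 0 z (n 0
 z (n 0 z (n 0 z (n 0 z (n 0 z (n 0 z z))))))))))))))))))))))))))))) (n 1 (n 0 z (n 0 z (n 0 z
 (n 0 z (n 0 z (n 0 z (n 0 z (n 0 z (n 2 z z))))))))) z)) (n 0 (n 25 (n 0 z (n 0 z (n 0 z (n 0 z
 (n 0 z (n 0 z (n 0 z (n 0 z (n 0 z (n 0 z (n 0 z (n 0 z (n 0 z (n 0 z (n 0 z (n 0 z (n 0 z (n 0
 z (n 0 z (n 0 z (n 0 z (n 0 z (n 0 z (n 0 z (n 0 z (n 0 z (n 0 z (n 0 z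
 z)))))))))))))))))))))))))))) z) (n 0 z z))))))) (n 0 (n 1 (n 3212843 z (n 3212843 z (n 3212843
 z (n 3212843 z (n 3212843 z (n 3212843 z z)))))) (n 1 (n 2764 z (n 12 z (n 4326971 z (n 2764 z
 (n 2764 z (n 2764 z z)))))) (n 0 z z))) (n 0 z z)))) (n
 0x1612a886c74196bb44b5cb4129d22d6d205174c15a (n 0 (n 153 (n 0 z (n
 0x2c86c862078a18217e089f7e07e18228228207e082186085f85f82082082181f8208208208218208208200801 z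
 (n 0 z (n 0 z (n 0 z (n 3282443 z (n 0 z (n 6423611 z (n 0 z (n 0 z (n 0 z (n 0 z z))))))))))))
 (n 39 (n 0 z (n 0 z (n 0 z (n 0 z (n 3278363 z (n 0 z (n 0 z (n 0 z z)))))))) (n 9 (n 0 z (n
 6632003 z (n 0 z (n 0 z (n 0 z (n 2 z (n 0 z (n 0 z (n 0 z z))))))))) (n 27 (n
 0x2ca8a842038237e081e8608228237607e28217df7df85f86282199c82086185d8a086081f81e7a181f8200801 z
 (n 6632491 z (n 6496523 z (n 10 z (n 0 z (n 0 z (n 0 z (n 0 z (n 0 z (n 0 z (n 0 z (n 0 z (n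
 0x2a6108218268648608607e182082081f7e081f7df7e082082086082182181f85f8208208a28608200041 z (n
 0x2ca8ca80078a18217e089f7e07e18228228207e082186085f85f82082082181f8208208208218208208200801 z
 (n 18 z (n 0 z (n 0 z (n 26 z (n 0 z (n 0 z (n 0 z (n 0 z (n 0 z (n 6636323 z (n 0 z (n 0 z (n
 0 z (n 0 z (n 0 z (n
 0xca8ca82037df8208208208608a081e82081f8608208218208208227e08208208208208208208208208200801 z (n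
 0 z (n 0 z (n 0 z (n
 0x2a6418218268648608607e182082081f7e081f7df7e082082086082182181f85f8208208a28608200041 z (n 0 z
 z))))))))))))))))))))))))))))))))))) (n 1 (n 0 z (n 0 z (n 6636323 z (n 0 z (n 0 z (n 0 z (n 0
 z (n 34 z (n 0 z (n 0 z (n 0 z (n 0 z (n 0 z z))))))))))))) (n 0 (n 42 z (n
 0xa6108208628218207e082082082082082186082082082082081f82082082082082182082182081f0041 z (n
 0x2a6108218268648608607e182082081f7e081f7df7e082082086082182181f85f8208208a28608200041 z (n 0 z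
 (n 0 z (n 0 z (n 0 z (n
 0xc86c864078608228208208218208208208208208208208208208208208208208208208208208208208200801 z (n
 0 z (n 0 z (n 0 z (n 6636323 z (n 50 z (n
 0x1a62081f8648227e17e182082082082082182081f8208208208207e07e182082082181f86182081f0041 z (n 0 z
 (n 0 z (n 6632491 z (n 0 z (n 0 z (n 0 z (n 58 z (n 0 z (n 6632491 z (n 0 z (n
 0xc86c864078608228208208218208208208208208208208208208208208208208208208208208208208200801 z (n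
 0 z (n 0 z (n
 0xc86c864037e081f82086086186081f82085f85f8618208208208607df8208618208208207e08208208210801 z
 z)))))))))))))))))))))))))))) z)))))) (n 39 (n 0 (n 1065 (n 0 z (n 0 z (n 0 z (n 2 (n 0 z (n 0
 z (n 2 (n 0 z (n 0 z (n 0 z (n 0 z (n 0 z (n 0 z z)))))) (n 2 (n 0 z (n 0 z (n 0 z (n 0 z (n 0
 z (n 0 z z)))))) (n 2 (n 0 z (n 0 z (n 0 z (n 0 z (n 0 z (n 0 z z)))))) (n 2 (n 0 z (n 0 z (n 0
 z (n 0 z (n 0 z (n 0 (n 8851491 z z) z)))))) z)))))) (n 0 z (n 0 z (n 0 z (n 0 z (n 0 z (n 0 z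
 (n 0 z (n 0 z (n 0 z (n 0 z (n 0 z (n 0 z (n 0 z (n 0 z (n 0 z (n 0 z (n 0 z (n 0 z (n 0 z
 z))))))))))))))))))))))) (n 1065 (n 0 z (n 0 z (n 0 z (n 0 z (n 0 z (n 0 z (n 0 z (n 0 z (n 0 z
 (n 0 z (n 0 z (n 0 z (n 0 z (n 0 z (n 0 z (n 0 z (n 0 z (n 0 z (n 0 z (n 0 z (n 0 z (n 0 z (n 0
 z z))))))))))))))))))))))) (n 1065 (n 0 z (n 0 z (n 0 z (n 0 z (n 0 z (n 0 z (n 0 z (n 0 z (n 0
 z (n 0 z (n 0 z (n 0 z (n 0 z (n 0 z (n 0 z (n 0 z (n 0 z (n 0 z (n 0 z (n 0 z (n 0 z (n 0 z (n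
 0 z z))))))))))))))))))))))) (n 15 (n 0 z (n 0 z (n 0 z (n 0 z (n 0 z (n 0 z z)))))) (n 17 (n 0
 z (n 0 z (n 0 z (n 0 z (n 0 z (n 0 z (n 0 z (n 0 z (n 0 z (n 0 z z)))))))))) (n 17 (n 0 z (n 0
 z (n 0 z (n 0 z (n 0 z (n 0 z (n 0 z (n 0 z (n 0 z (n 0 z z)))))))))) (n 17 (n 0 z (n 0 z (n 0
 z (n 0 z (n 0 z (n 0 z (n 0 z (n 0 z (n 0 z (n 0 z z)))))))))) z))))))) (n 0 (n 0 z (n 0 z (n
 495 (n 0 z (n 0 z (n 0 z (n 0 z (n 0 z (n 0 z (n 2 (n 2 (n 0 z (n 0 z (n 0 z (n 0 z (n 0 z (n 0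
 z z)))))) (n 2 (n 0 z (n 0 z (n 0 z (n 0 z (n 0 z (n 0 z z)))))) (n 2 (n 0 z (n 0 z (n 0 z (n 0
 z (n 0 z (n 0 z z)))))) z))) (n 0 z (n 0 z (n 0 z z)))))))))) (n 61 (n 2 (n 0 z (n 0 z z)) (n 0
 z (n 0 z (n 0 z (n 0 z (n 0 z (n 0 z (n 0 z (n 0 z (n 0 z (n 0 z (n 0 z (n 0 z (n 0 z
 z)))))))))))))) (n 61 (n 0 z (n 0 z (n 0 z (n 0 z (n 0 z (n 0 z (n 0 z (n 2 (n 0 z z) (n 0 z (n
 0 z (n 0 z (n 0 z (n 0 z (n 0 z z)))))))))))))) (n 61 (n 0 z (n 0 z (n 0 z (n 0 z (n 0 z (n 0 z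
 (n 0 z (n 0 z (n 0 z (n 0 z (n 0 z (n 0 z (n 0 z (n 0 z z)))))))))))))) z)))))) (n 0 (n 0 z (n
 489 (n 0 z (n 0 z (n 0 z (n 0 z (n 0 z (n 0 z (n 0 z (n 0 z (n 0 z (n 0 z (n 0 z (n 0 z (n 0 z
 (n 0 z (n 0 z (n 0 z (n 0 z (n 0 z (n 0 z (n 0 z (n 0 z (n 0 z z)))))))))))))))))))))) (n 53 (n
 0 z (n 0 z (n 0 z (n 0 z (n 0 z (n 0 z (n 0 z (n 0 z (n 0 z (n 0 z z)))))))))) (n 53 (n 0 z (n
 0 z (n 0 z (n 2 (n 0 z z) (n 0 z (n 0 z (n 0 z (n 0 z (n 0 z (n 0 z z)))))))))) (n 53 (n 0 z (n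
 0 z (n 0 z (n 0 z (n 0 z (n 0 z (n 0 z (n 0 z (n 0 z (n 0 z z)))))))))) z))))) (n 0 (n 531 (n 0
 z (n 0 z (n 0 z (n 0 z (n 0 z (n 0 z (n 0 z (n 0 z z)))))))) (n 529 (n 0 z (n 0 z (n 0 z (n 0 z
 (n 0 z (n 0 z (n 0 z (n 0 z (n 0 z (n 0 z z)))))))))) (n 529 (n 0 z (n 0 z (n 0 z (n 0 z (n 0 z
 (n 0 z (n 0 z (n 0 z (n 0 z (n 0 z z)))))))))) (n 529 (n 0 z (n 0 z (n 0 z (n 0 z (n 0 z (n 0 z
 (n 0 z (n 0 z (n 0 z (n 0 z z)))))))))) z)))) (n 0 (n 1 (n 0 z (n 0 z (n 0 z (n 0 z (n 0 z (n 0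
 z (n 0 z (n 0 z (n 0 z (n 0 z (n 0 z (n 0 z (n 0 z z))))))))))))) (n 1 (n 0 z (n 0 z (n 0 z (n
 2 (n 0 z z) (n 0 z (n 0 z (n 0 z (n 0 z (n 0 z (n 0 z (n 0 z (n 0 z (n 0 z z))))))))))))) (n 1
 (n 0 z (n 0 z (n 0 z (n 0 z (n 0 z (n 0 z (n 0 z (n 0 z (n 0 z (n 0 z (n 0 z (n 0 z (n 0 z
 z))))))))))))) z))) (n 0 (n 0 z (n 0 z z)) (n 0 (n 0 z z) (n 0 z z)))))))) (n 0 (n 0 z (n 0 z
 (n 0 z (n 0 z (n 1 (n 6496523 z (n 3278363 z (n 3278363 z (n 3278363 z (n 3278363 z (n 3278363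
 z z)))))) (n 0 z (n 0 z (n 0 z z)))))))) (n 0 z z)))) (n 0xd9394688ba3289d10d8ee46045e883276421
 (n 0 (n 285 (n 6623267 z (n 0 z (n 0 z (n 0 z (n 0 z z))))) (n 33 (n 6623267 z (n 2 z (n 0 z (n
 0 z (n 6496515 z (n 10 z (n 6496515 z (n 18 z (n
 0xaca6ca480301053265140381ab2a32a181c1ad509944c06000ca4c80607004654654201813b29b29900c06d94d90c806042c86c86407007654654001801329aa1001c02194d8c800603aa84c6200783378b8228457dc8267e183982c8067f58908868427f98627727cd7a77d17af7b08837c781e7ca7cd80e8977f380189e7978337ee7bb80685a75d7c57d480c8238348288088398247f38006811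
 z (n 0 z z)))))))))) (n 51 (n 6496515 z (n 0 z (n 0 z (n 0 z (n 0 z (n 0 z (n 0 z (n 0 z (n 0 z
 (n 0 z (n 0 z (n 0 z (n 0 z z))))))))))))) (n 245 (n 6496515 z (n 0 z (n 0 z (n 0 z (n 0 z (n 0
 z (n 0 z (n 0 z (n 0 z z))))))))) (n 1 (n 0 z (n 0 z (n 0 z (n 0 z (n 0 z (n 6563099 z (n 0 z
 (n 0 z z)))))))) (n 0 (n
 0x326108008028038077ff8017ff8018008048008018037ff7fd8027fe8018017ff7fc7fa8007ff7ff8027fe8008027ff7ff8057fb8047fb7fd7ff8037fc7fb7fa8018038008027ff8058027ff7ff0051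
 z (n 0 z (n 0 z (n 0 z (n
 0x2c86c864037fe8007ff7fd8017ff8007ff7ff8018018007ff7ff8008008027ff8028018028008008008007ff8018007ff7ff8007ff8008008008017ff8008018008018008008008017ff7ff7ff8008010811
 z (n 0 z (n 0 z (n 0 z (n
 0x2c86c864037fd8008017fd8007ff8018018018008018008007ff8008007ff8008018018018008007ff8008008008008018008008008008008008008008008008008008008008008008008008008008000811
 z (n 0 z (n 0 z (n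
 0x3643641201801b21a18101c00d90d8c8406000c64c64207007654432101804b29218080c00990d904006002ca886200780280a7fc7ff8007f87fe7ff8068027ee8038008018027fd7f28018018168098077fc7f07fd80480780080d8007fe7f67f97f780080380d7f980680380f8027f97fd7f27f77f87fa80880f4011
 z (n 0 z (n 0 z (n 0 z (n 0 z (n 26 z (n 0 z (n 0 z (n 0 z (n 6623267 z (n 0 z (n 0 z (n 0 z (n
 0 z (n 0 z (n
 0x2c86c864037fe8017ff7fd8017ff8017fe8008008028007fe7ff8007ff8037ff8028018028017ff8008007fe8018007ff7ff8017ff8007ff8008017ff8008018008018008008008008008007ff8008010811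
 z (n 6627595 z (n 0 z (n 0 z (n 0 z (n 0 z (n
 0x2c86c864037fe8017ff7fd8017ff8017fe8008008028007fe7ff8007ff8037ff8028018028017ff8008007fe8018007ff7ff8017ff8007ff8008017ff8008018008018008008008008008007ff8008010811
 z (n
 0xc84c806037ff8007ff7fe8008008017ff8008008017ff8008008008008027ff8018028018007ff8018007ff8008007ff8008017ff8007ff8008007ff8008018008018008018008008008007ff7ff8000811
 z (n 0 z (n 0 z (n 0 z (n 34 z (n 0 z (n 0 z (n 0 z (n 0 z (n 42 z (n 0 z (n 50 z (n 0 z (n 0 z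
 z))))))))))))))))))))))))))))))))))))))))))))))) z)))))) (n 285 (n 0 (n 0 z (n 0 z (n 65 (n 0 z
 (n 0 z (n 0 z (n 0 z (n 0 z (n 0 z (n 0 z (n 0 z (n 0 z (n 0 z (n 0 z (n 0 z z)))))))))))) (n
 65 (n 0 z (n 0 z (n 0 z (n 0 z (n 0 z (n 0 z (n 0 z (n 0 z (n 0 z (n 0 z (n 0 z (n 2 (n 0 z (n
 0 z z)) z)))))))))))) (n 65 (n 0 z (n 0 z (n 2 (n 0 z z) (n 0 z (n 0 z (n 0 z (n 0 z (n 0 z (n
 0 z (n 0 z (n 0 z (n 0 z z)))))))))))) (n 65 (n 0 z (n 0 z (n 0 z (n 0 z (n 0 z (n 0 z (n 0 z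
 (n 0 z (n 0 z (n 0 z (n 0 z (n 0 z z)))))))))))) z)))))) (n 0 (n 0 z (n 65 (n 0 z (n 0 z (n 0 z
 (n 0 z (n 0 z (n 0 z (n 0 z (n 0 z (n 0 z (n 0 z (n
 0x753420601807bb2b19200c091d498c500e002ec6ec0803001632650401804bb23b2180c049d95908c0e044ec8c846070226546423018072a1328980c049d51884c0e012c84ea060701a654650301807328aa0180c029d91d9080e004e86c8240300276476300380332a321801c011d89d8800e006ecac840078227e27da7ff8277eb81481182180c7b98828188497f481b7dc7db7a98217ea80b82d7c88027bd7de7fa8217f18098237d580b7fc7e17f680d7b78127f28337ff82880d7ea7db8097f0841a011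
 z (n 0 z z)))))))))))) (n 65 (n 0 z (n 0 z (n 0 z (n 0 z (n 0 z (n 0 z (n 0 z (n 0 z (n 0 z (n
 0 z (n 0 z (n 0 z z)))))))))))) (n 65 (n 0 z (n 0 z (n 0 z (n 0 z (n 0 z (n 0 z (n 0 z (n 0 z
 (n 0 z (n 0 z (n 0 z (n 0 z z)))))))))))) (n 65 (n 0 z (n 0 z (n 2 z (n 0 z (n 0 z (n 0 z (n 0
 z (n 0 z (n 0 z (n 0 z (n 0 z (n 0 z z)))))))))))) z))))) (n 0 (n 721 (n 0 z (n 0 z (n 0 z (n 0
 z (n 0 z (n 0 z (n 0 z (n 0 z (n 0 z (n 0 z (n 0 z (n 0 z (n 0 z (n 0 z (n 0 z (n 0 z (n 0 z (n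
 0 z (n 0 z (n 0 z (n 0 z (n 2 (n 0 z (n 0 z (n 0 z z))) (n 0 z (n 0 z (n 0 z (n 0 z (n 0 z (n 0
 z (n 0 z (n 0 z (n 0 z (n 0 z (n 0 z (n 0 z (n 0 z (n 0 z (n 0 z (n 0 z (n 0 z (n 0 z (n 0 z (n
 0 z (n 0 z (n 0 z (n 0 z (n 0 z z)))))))))))))))))))))))))))))))))))))))))))))) (n 721 (n 0 z
 (n 0 z (n 0 z (n 0 z (n 0 z (n 0 z (n 0 z (n 0 z (n 0 z (n 0 z (n 0 z (n 0 z (n 0 z (n 0 z (n 0
 z (n 0 z (n 0 z (n 0 z (n 0 z (n 0 z (n 0 z (n 0 z (n 0 z (n 0 z (n 0 z (n 0 z (n 0 z (n 0 z (n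
 0 z (n 0 z (n 0 z (n 0 z (n 0 z (n 0 z (n 0 z (n 0 z (n 0 z (n 0 z (n 0 z (n 0 z (n 2 (n 0 z (n
 0 z z)) (n 0 z (n 0 z (n 0 z (n 0 z (n 0 z z)))))))))))))))))))))))))))))))))))))))))))))) (n
 721 (n 0 z (n 0 z (n 0 z (n 0 z (n 0 z (n 0 z (n 0 z (n 0 z (n 0 z (n 0 z (n 0 z (n 0 z (n 0 z
 (n 0 z (n 0 z (n 0 z (n 0 z (n 0 z (n 0 z (n 0 z (n 0 z (n 0 z (n 0 z (n 0 z (n 0 z (n 0 z (n 0
 z (n 0 z (n 0 z (n 0 z (n 0 z (n 0 z (n 0 z (n 0 z (n 0 z (n 0 z (n 0 z (n 2 (n 0 z z) (n 0 z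
 (n 0 z (n 0 z (n 0 z (n 0 z (n 0 z (n 0 z (n 0 z
 z)))))))))))))))))))))))))))))))))))))))))))))) (n 721 (n 0 z (n 0 z (n 0 z (n 0 z (n 0 z (n 0
 z (n 0 z (n 0 z (n 0 z (n 0 z (n 0 z (n 0 z (n 0 z (n 0 z (n 0 z (n 0 z (n 0 z (n 0 z (n 0 z (n
 0 z (n 0 z (n 0 z (n 0 z (n 0 z (n 0 z (n 0 z (n 0 z (n 0 z (n 0 z (n 0 z (n 0 z (n 0 z (n 0 z
 (n 0 z (n 0 z (n 0 z (n 0 z (n 0 z (n 0 z (n 0 z (n 0 z (n 0 z (n 0 z (n 0 z (n 0 z (n 0 z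
 z)))))))))))))))))))))))))))))))))))))))))))))) z)))) (n 0 (n 0 z (n 0 z (n 0 z z))) (n 0 (n 0
 z (n 0 z z)) (n 0 (n 0 z z) (n 0 z z))))))) (n 0 (n 1 (n 6496515 z (n 6623267 z (n 6623267 z (n
 6623267 z (n 6623267 z (n 6623267 z z)))))) (n 0 z (n 0 z (n 0 z (n 0 z z))))) (n 0 z z)))) (n
 0x5a8ca2652dc329661255340a579095394231ed06ab4c25531162968316990a729023a6500 (n 0x34ca5 (n 279
 (n 6557731 z (n 0 z (n 2 z z))) (n 255 (n 6496515 z (n 0 z (n 0 z (n 10 z (n 0 z (n 18 z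
 z)))))) (n 9 (n 0 z (n 26 z (n 34 z (n 6496515 z (n 0 z (n 6496515 z (n 42 z (n 50 z z))))))))
 (n 243 (n 0 z (n 6496515 z (n 58 z (n 0 z (n 0 z (n 66 z (n 74 z (n 0 z z)))))))) (n 1 (n 0 z
 (n 0 z (n 0 z (n 0 z (n 0 z (n 0 z (n 0 z (n 0 z (n 0 z (n 0 z (n 0 z (n 0 z (n 0 z (n 0 z (n
 82 z (n 0 z (n 6557731 z (n 90 z z)))))))))))))))))) (n 0 (n 0 z (n 0 z (n 0 z (n 0 z (n 0 z (n
 0 z (n 98 z (n 0 z (n 0 z (n 0 z (n 0 z (n 106 z (n 0 z (n 0 z (n 6619931 z (n 0 z (n 0 z (n 0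
 z (n 0 z (n 0 z (n 0 z (n 0 z (n 0 z z))))))))))))))))))))))) z)))))) (n 279 (n 0 (n 631 (n 0 z
 (n 0 z (n 0 z (n 0 z (n 2 (n 0 z (n 1 z (n 1 z (n 1 z (n 1 z (n 1 z (n 1 z (n 1 z (n 1 z (n 1 z
 (n 1 z (n 1 z z)))))))))))) z))))) (n 631 (n 0 z (n 0 z (n 0 z (n 0 z (n 0 z z))))) (n 381 (n 0
 z (n 0 z (n 2 (n 0 z (n 0 z (n 0 z (n 1 z (n 1 z (n 1 z (n 1 z (n 1 z (n 1 z (n 1 z z))))))))))
 (n 0 z (n 0 z (n 0 z (n 0 z (n 0 z (n 0 z (n 0 z (n 0 z (n 0 z (n 0 z (n 0 z (n 0 z (n 0 z (n 0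
 z z))))))))))))))))) (n 381 (n 0 z (n 0 z (n 0 z (n 0 z (n 0 z (n 0 z (n 0 z (n 0 z (n 0 z (n 0
 z (n 0 z (n 0 z (n 0 z (n 0 z (n 0 z (n 0 z (n 0 z z))))))))))))))))) (n 381 (n 0 z (n 0 z (n 0
 z (n 0 z (n 0 z (n 0 z (n 0 z (n 0 z (n 0 z (n 0 z (n 0 z (n 0 z (n 0 z (n 0 z (n 0 z (n 0 z (n
 0 z z))))))))))))))))) (n 381 (n 0 z (n 0 z (n 0 z (n 0 z (n 0 z (n 0 z (n 0 z (n 0 z (n 0 z (n
 0 z (n 0 z (n 0 z (n 0 z (n 0 z (n 0 z (n 0 z (n 0 z z))))))))))))))))) (n 555 (n 0 z (n 2 (n 0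
 z (n 0 z (n 1 z (n 1 z (n 1 z (n 1 z z)))))) (n 0 z (n 0 z (n 0 z (n 0 z (n 0 z (n 0 z
 z)))))))) (n 555 (n 0 z (n 0 z (n 0 z (n 0 z (n 0 z (n 0 z (n 0 z (n 2 (n 0 z (n 1 z (n 1 z (n
 1 z (n 1 z z))))) z)))))))) (n 555 (n 0 z (n 0 z (n 0 z (n 0 z (n 0 z (n 0 z (n 0 z (n 0 z
 z)))))))) (n 309 (n 0 z (n 0 z (n 0 z (n 0 z (n 0 z (n 0 z (n 2 (n 0 z (n 1 z (n 1 z z)))
 z))))))) (n 309 (n 0 z (n 0 z (n 0 z (n 0 z (n 0 z (n 0 z (n 0 z z))))))) (n 553 (n 0 z (n 0 z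
 (n 0 z (n 0 z (n 0 z (n 0 z (n 0 z (n 0 z (n 0 z z))))))))) (n 553 (n 0 z (n 0 z (n 0 z (n 0 z
 (n 0 z (n 2 z (n 0 z (n 0 z (n 0 z z))))))))) z))))))))))))) (n 0 (n 0 z (n 103 (n 2 (n 0 z (n
 0 z (n 0 z (n 1 z (n 1 z (n 1 z (n 1 z (n 1 z (n 1 z (n 1 z z)))))))))) (n 0 z (n 0 z (n 0 z (n
 0 z (n 0 z (n 0 z z))))))) (n 103 (n 0 z (n 2 (n 0 z (n 0 z (n 1 z (n 1 z (n 1 z (n 1 z (n 1 z
 (n 1 z (n 1 z z))))))))) (n 0 z (n 0 z (n 0 z (n 0 z (n 0 z z))))))) (n 103 (n 0 z (n 0 z (n 0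
 z (n 0 z (n 0 z (n 2 (n 0 z (n 1 z (n 1 z (n 1 z (n 1 z (n 1 z (n 1 z (n 1 z z)))))))) (n 0 z
 z))))))) (n 103 (n 0 z (n 0 z (n 0 z (n 0 z (n 0 z (n 0 z (n 2 (n 1 z (n 1 z (n 1 z (n 1 z (n 1
 z (n 1 z (n 1 z z))))))) z))))))) (n 507 (n 0 z (n 0 z (n 2 (n 0 z (n 0 z (n 1 z (n 1 z (n 1 z
 (n 1 z z)))))) (n 0 z (n 0 z (n 0 z (n 0 z z))))))) (n 507 (n 0 z (n 0 z (n 0 z (n 0 z (n 0 z
 (n 0 z (n 0 z z))))))) (n 507 (n 0 z (n 0 z (n 0 z (n 0 z (n 0 z (n 0 z (n 2 (n 1 z (n 1 z (n 1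
 z (n 1 z z)))) z))))))) (n 111 (n 0 z (n 0 z (n 0 z (n 0 z (n 0 z (n 0 z (n 0 z (n 0 z (n 0 z
 z))))))))) (n 111 (n 0 z (n 0 z (n 0 z (n 0 z (n 0 z (n 0 z (n 0 z (n 0 z (n 2 (n 1 z (n 1 z
 z)) z))))))))) (n 509 (n 0 z (n 0 z (n 0 z (n 0 z (n 0 z (n 0 z (n 0 z (n 0 z (n 0 z (n 0 z (n
 0 z (n 0 z (n 0 z (n 0 z (n 0 z (n 0 z (n 0 z (n 0 z (n 0 z (n 0 z (n 2 (n 0 z z)
 z))))))))))))))))))))) (n 509 (n 0 z (n 0 z (n 0 z (n 0 z (n 0 z (n 0 z (n 0 z (n 0 z (n 0 z (n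
 0 z (n 0 z (n 0 z (n 0 z (n 0 z (n 0 z (n 0 z (n 0 z (n 0 z (n 0 z (n 2 z (n 0 z
 z))))))))))))))))))))) z)))))))))))) (n 0 (n 765 (n 0 z (n 0 z (n 0 z (n 0 z (n 0 z z))))) (n
 765 (n 0 z (n 0 z (n 0 z (n 0 z (n 0 z z))))) (n 765 (n 0 z (n 0 z (n 0 z (n 0 z (n 0 z z)))))
 (n 765 (n 0 z (n 0 z (n 0 z (n 0 z (n 0 z z))))) (n 627 (n 0 z (n 0 z (n 0 z (n 0 z (n 0 z (n 0
 z z)))))) (n 627 (n 0 z (n 0 z (n 0 z (n 0 z (n 0 z (n 2 (n 0 z (n 1 z (n 1 z (n 1 z (n 2 (n 0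
 z (n 0 z (n 0 z (n 0 z (n 0 z (n 0 z z)))))) z))))) z)))))) (n 627 (n 0 z (n 0 z (n 0 z (n 0 z
 (n 0 z (n 0 z z)))))) (n 117 (n 0 z (n 0 z (n 0 z (n 2 (n 0 z (n 1 z (n 2 (n 0 z (n 0 z (n 0 z
 (n 0 z (n 0 z (n 0 z z)))))) z))) z)))) (n 117 (n 0 z (n 0 z (n 0 z (n 0 z z)))) (n 625 (n 0 z
 (n 0 z (n 0 z (n 0 z (n 0 z z))))) (n 625 (n 0 z (n 0 z (n 0 z (n 0 z (n 0 z z)))))
 z))))))))))) (n 0 (n 0 z (n 0 z (n 0 z (n 251 (n 0 z (n 0 z (n 0 z (n 0 z (n 0 z (n 0 z (n 0 z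
 (n 0 z (n 0 z z))))))))) (n 251 (n 0 z (n 0 z (n 2 (n 0 z (n 1 z (n 2 (n 0 z (n 0 z (n 0 z (n 0
 z (n 0 z (n 0 z z)))))) (n 1 z (n 1 z z))))) (n 0 z (n 0 z (n 0 z (n 0 z (n 0 z (n 0 z
 z))))))))) (n 251 (n 0 z (n 0 z (n 0 z (n 0 z (n 0 z (n 0 z (n 0 z (n 0 z (n 0 z z))))))))) (n
 15 (n 0 z (n 0 z (n 0 z (n 0 z (n 0 z (n 0 z (n 0 z (n 0 z (n 0 z (n 0 z (n 0 z (n 0 z (n 0 z
 (n 0 z (n 0 z (n 0 z (n 0 z (n 0 z (n 0 z (n 0 z (n 2 (n 0 z (n 1 z (n 1 z z)))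
 z))))))))))))))))))))) (n 15 (n 0 z (n 0 z (n 0 z (n 0 z (n 0 z (n 0 z (n 0 z (n 0 z (n 0 z (n
 0 z (n 0 z (n 0 z (n 0 z (n 0 z (n 0 z (n 2 (n 1 z (n 1 z z)) (n 0 z (n 0 z (n 0 z (n 0 z (n 0
 z z))))))))))))))))))))) (n 17 (n 0 z (n 0 z (n 0 z (n 0 z (n 0 z (n 0 z (n 0 z (n 0 z (n 0 z
 (n 0 z (n 0 z (n 0 z (n 0 z (n 0 z (n 0 z (n 0 z (n 0 z (n 0 z (n 0 z z))))))))))))))))))) (n
 17 (n 0 z (n 0 z (n 0 z (n 0 z (n 0 z (n 0 z (n 0 z (n 0 z (n 0 z (n 0 z (n 0 z (n 0 z (n 0 z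
 (n 0 z (n 0 z (n 0 z (n 0 z (n 0 z (n 0 z z))))))))))))))))))) z)))))))))) (n 0 (n 0 z (n 0 z
 (n 33 (n 0 z (n 0 z (n 0 z (n 0 z (n 0 z (n 0 z (n 0 z z))))))) (n 33 (n 0 z (n 0 z (n 0 z (n 2
 (n 0 z (n 1 z (n 2 (n 0 z (n 0 z (n 0 z (n 0 z (n 0 z (n 0 z z)))))) (n 1 z (n 1 z z))))) (n 0
 z (n 0 z (n 0 z z))))))) (n 33 (n 0 z (n 0 z (n 0 z (n 0 z (n 0 z (n 0 z (n 0 z z))))))) (n 99
 (n 0 z (n 0 z (n 0 z (n 0 z (n 0 z (n 0 z (n 0 z (n 0 z (n 0 z (n 0 z (n 0 z (n 0 z (n 0 z (n 0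
 z (n 0 z (n 0 z (n 0 z (n 0 z (n 0 z (n 2 (n 0 z (n 1 z (n 1 z z))) (n 0 z
 z))))))))))))))))))))) (n 99 (n 0 z (n 0 z (n 0 z (n 0 z (n 0 z (n 0 z (n 0 z (n 0 z (n 0 z (n
 0 z (n 0 z (n 0 z (n 0 z (n 0 z (n 0 z (n 0 z (n 0 z (n 0 z (n 0 z (n 0 z (n 0 z
 z))))))))))))))))))))) (n 17 (n 0 z (n 0 z (n 0 z (n 0 z (n 0 z z))))) (n 17 (n 0 z (n 0 z (n 0
 z (n 0 z (n 0 z z))))) z))))))))) (n 0 (n 0 z (n 285 (n 0 z (n 0 z (n 0 z (n 0 z (n 0 z (n 0 z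
 (n 0 z z))))))) (n 285 (n 0 z (n 0 z (n 0 z (n 0 z (n 2 (n 0 z (n 1 z (n 2 (n 0 z (n 0 z (n 0 z
 (n 0 z (n 0 z (n 0 z z)))))) (n 1 z (n 2 (n 0 z (n 0 z (n 0 z (n 0 z (n 0 z (n 0 z z))))))
 z))))) (n 0 z (n 0 z z))))))) (n 285 (n 0 z (n 0 z (n 0 z (n 0 z (n 0 z (n 0 z (n 0 z z)))))))
 (n 21 (n 0 z (n 0 z (n 0 z (n 0 z (n 0 z (n 0 z (n 2 (n 0 z (n 1 z (n 2 (n 0 z (n 0 z (n 0 z (n
 0 z (n 0 z (n 0 z z)))))) z))) z))))))) (n 21 (n 0 z (n 0 z (n 0 z (n 0 z (n 0 z (n 0 z (n 0 z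
 z))))))) (n 17 (n 0 z (n 0 z (n 0 z (n 0 z (n 0 z (n 0 z z)))))) (n 17 (n 0 z (n 0 z (n 0 z (n
 0 z (n 0 z (n 0 z z)))))) z)))))))) (n 0 (n 33 (n 0 z (n 0 z (n 0 z (n 0 z (n 0 z z))))) (n 33
 (n 0 z (n 0 z (n 0 z (n 2 (n 0 z (n 1 z (n 2 (n 0 z (n 0 z (n 0 z (n 0 z (n 0 z (n 0 z z))))))
 (n 1 z (n 2 (n 0 z (n 0 z (n 0 z (n 0 z (n 0 z (n 0 z z)))))) z))))) (n 0 z z))))) (n 33 (n 0 z
 (n 0 z (n 0 z (n 0 z (n 0 z z))))) (n 105 (n 0 z (n 0 z (n 2 (n 0 z (n 1 z (n 2 (n 0 z (n 0 z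
 (n 0 z (n 0 z (n 0 z (n 0 z z)))))) z))) (n 0 z (n 0 z (n 0 z (n 0 z z))))))) (n 105 (n 0 z (n
 0 z (n 0 z (n 0 z (n 0 z (n 0 z (n 0 z z))))))) (n 17 (n 0 z (n 0 z (n 0 z (n 0 z (n 0 z (n 0 z
 z)))))) (n 17 (n 0 z (n 0 z (n 0 z (n 0 z (n 0 z (n 0 z z)))))) z))))))) (n 0 (n 0 z (n 0 z (n
 291 (n 0 z (n 0 z (n 0 z (n 0 z (n 0 z (n 0 z (n 0 z (n 0 z (n 0 z (n 0 z (n 0 z (n 0 z (n 0 z
 (n 0 z (n 0 z (n 0 z (n 0 z (n 0 z (n 0 z (n 0 z (n 0 z (n 0 z (n 0 z (n 0 z (n 0 z (n 2 (n 0 z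
 (n 1 z (n 1 z z))) z)))))))))))))))))))))))))) (n 291 (n 0 z (n 0 z (n 0 z (n 0 z (n 0 z (n 0 z
 (n 0 z (n 0 z (n 0 z (n 0 z (n 0 z (n 0 z (n 0 z (n 0 z (n 0 z (n 0 z (n 0 z (n 0 z (n 0 z (n 0
 z (n 2 (n 1 z (n 1 z z)) (n 0 z (n 0 z (n 0 z (n 0 z (n 0 z z)))))))))))))))))))))))))) (n 485
 (n 0 z (n 0 z (n 0 z (n 0 z (n 0 z (n 0 z (n 0 z (n 0 z (n 0 z (n 0 z (n 0 z (n 0 z (n 0 z (n 0
 z (n 0 z (n 0 z (n 0 z (n 0 z (n 0 z (n 0 z (n 0 z (n 0 z (n 0 z z))))))))))))))))))))))) (n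
 485 (n 0 z (n 0 z (n 0 z (n 0 z (n 0 z (n 0 z (n 0 z (n 0 z (n 0 z (n 0 z (n 0 z (n 0 z (n 0 z
 (n 0 z (n 0 z (n 0 z (n 0 z (n 0 z (n 0 z (n 0 z (n 0 z (n 0 z (n 0 z z)))))))))))))))))))))))
 z)))))) (n 0 (n 0 z (n 51 (n 0 z (n 0 z (n 0 z (n 0 z (n 0 z (n 0 z (n 0 z (n 0 z (n 0 z (n 0 z
 (n 0 z (n 0 z (n 0 z (n 0 z (n 0 z (n 0 z (n 0 z (n 0 z z)))))))))))))))))) (n 51 (n 0 z (n 0 z
 (n 0 z (n 0 z (n 0 z (n 0 z (n 0 z (n 0 z (n 0 z (n 0 z (n 0 z (n 0 z (n 0 z (n 0 z (n 0 z (n 0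
 z (n 0 z (n 2 (n 1 z (n 2 (n 0 z (n 0 z (n 0 z (n 0 z (n 0 z (n 0 z z)))))) z))
 z)))))))))))))))))) (n 485 (n 0 z (n 0 z (n 0 z (n 0 z (n 0 z (n 0 z (n 0 z (n 0 z (n 0 z (n 0
 z (n 0 z (n 0 z (n 0 z (n 0 z (n 2 (n 0 z z) (n 0 z (n 0 z (n 0 z z)))))))))))))))))) (n 485 (n
 0 z (n 0 z (n 0 z (n 0 z (n 0 z (n 0 z (n 0 z (n 0 z (n 0 z (n 0 z (n 0 z (n 0 z (n 0 z (n 0 z
 (n 0 z (n 0 z (n 2 z (n 0 z z)))))))))))))))))) z))))) (n 0 (n 249 (n 0 z (n 0 z (n 0 z (n 0 z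
 (n 0 z (n 0 z (n 0 z (n 0 z (n 0 z (n 0 z (n 0 z (n 0 z (n 0 z (n 0 z (n 0 z (n 0 z (n 0 z (n 2
 (n 0 z (n 1 z (n 1 z z))) z)))))))))))))))))) (n 249 (n 0 z (n 0 z (n 0 z (n 0 z (n 0 z (n 0 z
 (n 0 z (n 0 z (n 0 z (n 0 z (n 0 z (n 0 z (n 0 z (n 0 z (n 0 z (n 0 z (n 0 z (n 0 z
 z)))))))))))))))))) (n 485 (n 0 z (n 0 z (n 0 z (n 0 z (n 0 z (n 0 z (n 0 z (n 0 z (n 0 z (n 0
 z (n 0 z (n 0 z (n 0 z (n 0 z (n 0 z (n 0 z (n 0 z (n 0 z (n 0 z (n 0 z (n 0 z (n 0 z (n 0 z (n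
 0 z (n 0 z (n 0 z z)))))))))))))))))))))))))) (n 485 (n 0 z (n 0 z (n 0 z (n 0 z (n 0 z (n 0 z
 (n 0 z (n 0 z (n 0 z (n 0 z (n 0 z (n 0 z (n 0 z (n 0 z (n 0 z (n 0 z (n 0 z (n 0 z (n 0 z (n 0
 z (n 0 z (n 0 z (n 0 z (n 0 z (n 0 z (n 0 z z)))))))))))))))))))))))))) z)))) (n 0 (n 0 z (n 1
 (n 0 z (n 0 z (n 0 z (n 0 z (n 0 z (n 0 z (n 0 z (n 0 z (n 0 z (n 0 z (n 0 z (n 0 z (n 0 z (n 0
 z (n 0 z (n 0 z (n 0 z (n 0 z (n 0 z (n 0 z (n 0 z (n 0 z (n 0 z (n 0 z (n 0 z (n 2 (n 0 z z)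
 z)))))))))))))))))))))))))) (n 1 (n 0 z (n 0 z (n 0 z (n 0 z (n 0 z (n 0 z (n 0 z (n 0 z (n 0 z
 (n 0 z (n 0 z (n 0 z (n 0 z (n 0 z (n 0 z (n 0 z (n 0 z (n 0 z (n 0 z (n 0 z (n 0 z (n 0 z (n 0
 z (n 0 z (n 2 z (n 0 z z)))))))))))))))))))))))))) z))) (n 0 (n 1 (n 0 z (n 0 z (n 0 z (n 0 z
 (n 0 z (n 0 z (n 0 z (n 0 z z)))))))) (n 1 (n 0 z (n 2 z (n 0 z (n 0 z (n 0 z (n 0 z (n 0 z (n
 0 z z)))))))) z)) (n 0 (n 0 z z) (n 0 z z)))))))))))))) (n 0 (n 1 (n 6496515 z (n 6557731 z (n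
 6557731 z (n 6557731 z (n 6557731 z (n 6557731 z z)))))) (n 0 z (n 1 (n 6496515 z (n 5310027 z
 (n 2044 z (n 2044 z (n 2 z (n 2044 z z)))))) z))) (n 0 (n 0xd84954d90953d94811 (n 0 (n 0 (n
 7742491 z (n 7742491 z (n 7742491 z (n 7742491 z (n 7742491 z (n 7742491 z z)))))) z) (n 0 (n
 279 (n 1 (n 7606307 z (n 7606307 z (n 7606307 z (n 7606307 z (n 7606307 z (n 7606307 z z))))))
 (n 0 z (n 1 (n 7742491 z (n 7742491 z (n 7742491 z (n 7742491 z (n 7742491 z (n 7742491 z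
 z)))))) z))) (n 58 (n 1 (n 7545091 z (n 7545091 z (n 7545091 z (n 7545091 z (n 7545091 z (n
 7545091 z z)))))) (n 1 (n 7606307 z (n 7606307 z (n 7606307 z (n 7606307 z (n 7606307 z (n
 7606307 z z)))))) (n 0 z (n 1 (n 2572 z (n 2 z (n 2572 z (n 2572 z (n 6563643 z (n 7673419 z
 z)))))) z)))) (n 383 (n 0 z (n 1 (n 7545091 z (n 7545091 z (n 7545091 z (n 7545091 z (n 7545091
 z (n 7545091 z z)))))) (n 1 (n 7545091 z (n 7545091 z (n 7545091 z (n 7545091 z (n 7545091 z (n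
 7545091 z z)))))) (n 1 (n 1532 z (n 7742491 z (n 1532 z (n 7668507 z (n 1532 z (n 1532 z
 z)))))) (n 0 z z))))) (n 315 (n 1 (n 7545091 z (n 7545091 z (n 7545091 z (n 7545091 z (n
 7545091 z (n 7545091 z z)))))) (n 0 z (n 1 (n 7545091 z (n 7545091 z (n 7545091 z (n 7545091 z
 (n 7545091 z (n 7545091 z z)))))) (n 0 z (n 0 z (n 1 (n 2236 z (n 7742491 z (n 2236 z (n
 5310283 z (n 10 z (n 2236 z z)))))) z)))))) (n 59 (n 1 (n 7545091 z (n 7545091 z (n 7545091 z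
 (n 7545091 z (n 7545091 z (n 7545091 z z)))))) (n 1 (n 7606307 z (n 7606307 z (n 7606307 z (n
 7606307 z (n 7606307 z (n 7606307 z z)))))) (n 0 z (n 1 (n 1244 z (n 6428475 z (n 1244 z (n
 7668507 z (n 18 z (n 1244 z z)))))) z)))) (n 317 (n 1 (n 7545091 z (n 7545091 z (n 7545091 z (n
 7545091 z (n 7545091 z (n 7545091 z z)))))) (n 1 (n 7673419 z (n 7668507 z (n 7673419 z (n
 7673419 z (n 7673419 z (n 7742491 z z)))))) (n 1 (n 2252 z (n 7742491 z (n 2252 z (n 7668507 z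
 (n 2252 z (n 2252 z z)))))) (n 0 z (n 0 z z))))) (n 279 (n 1 (n 7545091 z (n 7606307 z (n
 7606307 z (n 7606307 z (n 7606307 z (n 7606307 z z)))))) (n 0 z (n 1 (n 7545091 z (n 7742491 z
 (n 7742491 z (n 7742491 z (n 7742491 z (n 7742491 z z)))))) z))) z))))))) (n 0 (n 0 (n 0 z (n 0
 z (n 0 z z))) (n 0 (n 0 z (n 0 z z)) (n 0 (n 0 z z) z))) (n 0 (n 321 (n 0 (n 0 z (n 0 z (n 0 z
 z))) (n 0 (n 0 z (n 0 z (n 0 z z))) (n 0 (n 0 z (n 0 z (n 0 z z))) (n 0 (n 0 z (n 0 z (n 0 z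
 z))) (n 0 (n 0 z (n 0 z (n 0 z z))) z))))) (n 191 (n 0 (n 0 z (n 0 z (n 0 z z))) (n 0 (n 0 z (n
 0 z (n 0 z z))) (n 0 (n 0 z (n 0 z (n 0 z z))) (n 0 (n 0 z (n 0 z (n 0 z z))) (n 0 (n 0 (n
 8791867 z z) (n 0 z (n 0 z z))) (n 0 (n 0 z (n 0 z (n 0 (n
 0x21da1d94060c3b3b0a81c0765765301830ececa2038de7e489f7df7df85f8a37607616e285f8a186289b86179e8618647628a091e8207a17e07e02001
 z z) z))) (n 0 (n 0 (n 8791867 z z) (n 0 z (n 0 z z))) (n 0 (n 0 z (n 0 z (n 0 z z))) (n 0 (n 0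
 (n
 0x1876764503810eb0ca80781f8608208208207e082082082082082082081f8208608208208208208208208208208208201001
 z z) (n 0 z (n 0 z z))) (n 0 (n 0 z (n 0 z (n 0 z z))) (n 0 (n 0 z (n 0 z (n 0 z z))) (n 0 (n 0
 z (n 0 z (n 0 z z))) (n 0 (n 0 z (n 0 z (n 0 z z))) (n 0 (n 0 z (n 0 z (n 0 z z))) (n 0 (n 0 z
 (n 0 z (n 0 z z))) (n 0 (n 0 z (n 0 z (n 0 z z))) (n 0 (n 0 z (n 0 z (n 0 z z)))
 z))))))))))))))))) (n 383 (n 0 (n 0 z (n 0 z (n 0 z z))) (n 0 (n 0 z (n 0 z (n 0 z z))) (n 0 (n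
 0 z (n 0 z (n 0 z z))) (n 0 (n 0 z (n 0 z (n 0 z z))) (n 0 (n 0 z (n 0 z (n 0 z z))) z))))) (n
 279 (n 0 (n 0 z (n 0 z (n 0 z z))) (n 0 (n 0 z (n 0 z (n 0 z z))) (n 0 (n 0 z (n 0 z (n 0 z
 z))) (n 0 (n 0 z (n 0 z (n 0 z z))) (n 0 (n 0 z (n 0 z (n 0 z z))) (n 0 (n 0 z (n 0 z (n 0 z
 z))) (n 0 (n 0 z (n 0 z (n 0 z z))) (n 0 (n 0 z (n 0 z (n 0 z z))) z)))))))) (n 315 (n 0 (n 0 z
 (n 0 z (n 0 z z))) (n 0 (n 0 z (n 0 z (n 0 z z))) (n 0 (n 0 z (n 0 z (n 0 z z))) (n 0 (n 0 z (n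
 0 z (n 0 z z))) (n 0 (n 0 z (n 0 z (n 0 z z))) (n 0 (n 0 z (n 0 z (n 0 z z))) z)))))) (n 143 (n
 0 (n 0 z (n 0 z (n 0 z z))) (n 0 (n 0 z (n 0 z (n 0 z z))) (n 0 (n 0 z (n 0 z (n 0 z z))) (n 0
 (n 0 z (n 0 z (n 0 z z))) (n 0 (n 0 z (n 0 z (n 0 z z))) (n 0 (n 0 z (n 0 z (n 0 z z))) (n 0 (n
 0 z (n 0 z (n 0 z z))) z))))))) (n 155 (n 0 (n 0 z (n 0 z (n 0 z z))) (n 0 (n 0 z (n 0 z (n 0 z
 z))) (n 0 (n 0 z (n 0 z (n 0 z z))) (n 0 (n 0 z (n 0 z (n 0 z z))) (n 0 (n 0 z (n 0 z (n 0 z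
 z))) (n 0 (n 0 z (n 0 z (n 0 z z))) (n 0 (n 0 z (n 0 z (n 0 z z))) z))))))) (n 59 (n 0 (n 0 z
 (n 0 z (n 0 z z))) (n 0 (n 0 z (n 0 z (n 0 z z))) (n 0 (n 0 z (n 0 z (n 0 z z))) (n 0 (n 0 z (n
 0 z (n 0 z z))) z)))) (n 11 (n 0 (n 0 z (n 0 z (n 0 z z))) (n 0 (n 0 z (n 0 z (n 0 z z))) (n 0
 (n 0 z (n 0 z (n 0 z z))) (n 0 (n 0 z (n 0 z (n 0 z z))) (n 0 (n 0 z (n 0 z (n 0 z z))) (n 0 (n
 0 z (n 0 z (n 0 z z))) (n 0 (n 0 z (n 0 z (n 0 z z))) z))))))) (n 125 (n 0 (n 0 z (n 0 z (n 0 z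
 z))) (n 0 (n 0 z (n 0 z (n 0 z z))) (n 0 (n 0 z (n 0 z (n 0 z z))) (n 0 (n 0 z (n 0 z (n 0 z
 z))) (n 0 (n 0 z (n 0 z (n 0 z z))) (n 0 (n 0 z (n 0 z (n 0 z z))) (n 0 (n 0 z (n 0 z (n 0 z
 z))) (n 0 (n 0 z (n 0 z (n 0 z z))) (n 0 (n 0 z (n 0 z (n 0 z z))) (n 0 (n 0 z (n 0 z (n 0 z
 z))) (n 0 (n 0 z (n 0 z (n 0 z z))) (n 0 (n 0 z (n 0 z (n 0 z z))) (n 0 (n 0 z (n 0 z (n 0 z
 z))) (n 0 (n 0 z (n 0 z (n 0 z z))) (n 0 (n 0 z (n 0 z (n 0 z z))) (n 0 (n 0 z (n 0 z (n 0 z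
 z))) (n 0 (n 0 z (n 0 z (n 0 z z))) (n 0 (n 0 z (n 0 z (n 0 z z))) z)))))))))))))))))) (n 281
 (n 0 (n 0 z (n 0 z (n 0 z z))) (n 0 (n 0 z (n 0 z (n 0 z z))) (n 0 (n 0 z (n 0 z (n 0 z z))) (n
 0 (n 0 z (n 0 z (n 0 z z))) (n 0 (n 0 z (n 0 z (n 0 z z))) (n 0 (n 0 z (n 0 z (n 0 z z))) (n 0
 (n 0 z (n 0 z (n 0 z z))) (n 0 (n 0 z (n 0 z (n 0 z z))) (n 0 (n 0 z (n 0 z (n 0 z z)))
 z))))))))) (n 317 (n 0 (n 0 z (n 0 z (n 0 z z))) (n 0 (n 0 z (n 0 z (n 0 z z))) (n 0 (n 0 z (n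
 0 z (n 0 z z))) (n 0 (n 0 z (n 0 z (n 0 z z))) (n 0 (n 0 z (n 0 z (n 0 z z))) z))))) (n 9 (n 0
 (n 0 z (n 0 z (n 0 z z))) (n 0 (n 0 z (n 0 z (n 0 z z))) (n 0 (n 0 z (n 0 z (n 0 z z))) (n 0 (n
 0 z (n 0 z (n 0 z z))) (n 0 (n 0 z (n 0 z (n 0 z z))) (n 0 (n 0 z (n 0 z (n 0 z z))) z)))))) (n
 243 (n 0 (n 0 z (n 0 z (n 0 z z))) (n 0 (n 0 z (n 0 z (n 0 z z))) (n 0 (n 0 z (n 0 z (n 0 z
 z))) (n 0 (n 0 z (n 0 z (n 0 z z))) (n 0 (n 0 z (n 0 z (n 0 z z))) (n 0 (n 0 z (n 0 z (n 0 z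
 z))) (n 0 (n 0 (n 8718155 z z) (n 0 z (n 0 z z))) (n 0 (n 0 (n
 0x30caec28038208208208208207e182082082082082082081f8208208208208208208208208208208208200801 z
 z) (n 0 z (n 0 z z))) (n 0 (n 0 z (n 0 z (n 0 z z))) (n 0 (n 0 (n
 0x30caec280381f86081f82086082186081f8208218e08208208208208208208208208208207a08208208200801 z
 z) (n 0 z (n 0 z z))) (n 0 (n 0 z (n 0 z (n 0 z z))) (n 0 (n 0 z (n 0 z (n 0 z z))) (n 0 (n 0 z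
 (n 0 z (n 0 z z))) (n 0 (n 0 z (n 0 z (n 0 z z))) (n 0 (n 0 z (n 0 z (n 0 z z))) (n 0 (n 0 z (n
 0 z (n 0 z z))) (n 0 (n 0 z (n 0 z (n 0 z z))) (n 0 (n 0 z (n 0 z (n 0 z z))) (n 0 (n 0 z (n 0
 z (n 0 z z))) (n 0 (n 0 z (n 0 z (n 0 z z))) (n 0 (n 0 z (n 0 z (n 0 z z))) (n 0 (n 0 z (n 0 z
 (n 0 z z))) (n 0 (n 0 z (n 0 z (n 0 z z))) (n 0 (n 0 z (n 0 z (n 0 z z))) (n 0 (n 0 z (n 0 z (n
 0 z z))) (n 0 (n 0 z (n 0 z (n 0 z z))) z)))))))))))))))))))))))))) (n 1 (n 0 (n 0 z (n 0 z (n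
 0 z z))) (n 0 (n 0 z (n 0 z (n 0 z z))) (n 0 (n 0 z (n 0 z (n 0 z z))) (n 0 (n 0 z (n 0 z (n 0
 z z))) (n 0 (n 0 z (n 0 z (n 0 z z))) (n 0 (n 0 z (n 0 z (n 0 z z))) (n 0 (n 0 z (n 0 z (n 0 z
 z))) (n 0 (n 0 z (n 0 z (n 0 z z))) z)))))))) (n 279 (n 0 (n 0 z (n 0 z (n 0 z z))) (n 0 (n 0 z
 (n 0 z (n 0 z z))) (n 0 (n 0 z (n 0 z (n 0 z z))) z))) (n 255 (n 0 (n 0 z (n 0 z (n 0 z z))) (n
 0 (n 0 z (n 0 z (n 0 z z))) (n 0 (n 0 z (n 0 z (n 0 z z))) (n 0 (n 0 z (n 0 z (n 0 z z))) (n 0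
 (n 0 z (n 0 z (n 0 z z))) (n 0 (n 0 z (n 0 z (n 0 z z))) z)))))) (n 9 (n 0 (n 0 z (n 0 z (n 0 z
 z))) (n 0 (n 0 z (n 0 z (n 0 z z))) (n 0 (n 0 z (n 0 z (n 0 z z))) (n 0 (n 0 z (n 0 z (n 0 z
 z))) (n 0 (n 0 z (n 0 z (n 0 z z))) (n 0 (n 0 z (n 0 z (n 0 z z))) (n 0 (n 0 z (n 0 z (n 0 z
 z))) (n 0 (n 0 z (n 0 z (n 0 z z))) z)))))))) (n 243 (n 0 (n 0 z (n 0 z (n 0 z z))) (n 0 (n 0 z
 (n 0 z (n 0 z z))) (n 0 (n 0 z (n 0 z (n 0 z z))) (n 0 (n 0 z (n 0 z (n 0 z z))) (n 0 (n 0 z (n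
 0 z (n 0 z z))) (n 0 (n 0 z (n 0 z (n 0 z z))) (n 0 (n 0 z (n 0 z (n 0 z z))) (n 0 (n 0 z (n 0
 z (n 0 z z))) z)))))))) (n 1 (n 0 (n 0 z (n 0 z (n 0 z z))) (n 0 (n 0 z (n 0 z (n 0 z z))) (n 0
 (n 0 z (n 0 z (n 0 z z))) (n 0 (n 0 z (n 0 z (n 0 z z))) (n 0 (n 0 z (n 0 z (n 0 z z))) (n 0 (n
 0 z (n 0 z (n 0 z z))) (n 0 (n 0 z (n 0 z (n 0 z z))) (n 0 (n 0 z (n 0 z (n 0 z z))) (n 0 (n 0
 z (n 0 z (n 0 z z))) (n 0 (n 0 z (n 0 z (n 0 z z))) (n 0 (n 0 z (n 0 z (n 0 z z))) (n 0 (n 0 z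
 (n 0 z (n 0 z z))) (n 0 (n 0 z (n 0 z (n 0 z z))) (n 0 (n 0 z (n 0 z (n 0 z z))) (n 0 (n 0 z (n
 0 z (n 0 z z))) (n 0 (n 0 z (n 0 z (n 0 z z))) (n 0 (n 0 z (n 0 z (n 0 z z))) (n 0 (n 0 z (n 0
 z (n 0 z z))) z)))))))))))))))))) (n 0 (n 0 (n 0 z (n 0 z (n 0 z z))) (n 0 (n 0 z (n 0 z (n 0 z
 z))) (n 0 (n 0 z (n 0 z (n 0 z z))) (n 0 (n 0 z (n 0 z (n 0 z z))) (n 0 (n 0 z (n 0 z (n 0 z
 z))) (n 0 (n 0 z (n 0 z (n 0 z z))) (n 0 (n 0 z (n 0 z (n 0 z z))) (n 0 (n 0 z (n 0 z (n 0 z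
 z))) (n 0 (n 0 z (n 0 z (n 0 z z))) (n 0 (n 0 z (n 0 z (n 0 z z))) (n 0 (n 0 z (n 0 z (n 0 z
 z))) (n 0 (n 0 z (n 0 z (n 0 z z))) (n 0 (n 0 z (n 0 z (n 0 z z))) (n 0 (n 0 z (n 0 z (n 0 z
 z))) (n 0 (n 0 z (n 0 z (n 0 z z))) (n 0 (n 0 z (n 0 z (n 0 z z))) (n 0 (n 0 z (n 0 z (n 0 z
 z))) (n 0 (n 0 z (n 0 z (n 0 z z))) (n 0 (n 0 z (n 0 z (n 0 z z))) (n 0 (n 0 z (n 0 z (n 0 z
 z))) (n 0 (n 0 z (n 0 z (n 0 z z))) (n 0 (n 0 z (n 0 z (n 0 z z))) (n 0 (n 0 z (n 0 z (n 0 z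
 z))) z))))))))))))))))))))))) z))))))))))))))))))))) z)))) z) z)))) (n
 0x5849a2990d135328975950321910a8b54485a8358e28114a910a54c04c5282553200a5d40 (n 0x15321 (n 299
 (n 0 z (n 0 z (n 0 z (n 0 z (n 0 z (n 0 z (n 0 z (n 0 z (n 2 z (n 0 z (n 0 z (n 0 z (n 0 z (n 0
 z (n 0 z (n 0 z (n 3282443 z (n 0 z (n 10 z (n 0 z (n 0 z (n 0 z (n 0 z
 z))))))))))))))))))))))) (n 371 (n 18 z (n 0 z (n 6562131 z (n 0 z (n 0 z (n 0 z (n 0 z (n 0 z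
 (n 0 z (n 0 z (n 0 z (n 0 z (n 0 z (n 0 z (n 0 z (n 26 z (n 0 z (n 0 z (n 0 z
 z))))))))))))))))))) (n 135 (n 0 z (n 34 z (n 42 z (n 6632003 z (n 0 z z))))) (n 3 (n 50 z (n
 58 z (n 66 z (n 6632003 z (n 0 z z))))) (n 1 (n 74 z (n 0 z (n 0 z (n 0 z (n 6562131 z z)))))
 (n 0 (n 82 z (n 90 z (n 98 z (n 106 z (n 0 z (n 6632003 z (n 6632003 z z))))))) z)))))) (n 135
 (n 0 (n 0 z (n 1235 (n 0 z (n 0 z (n 0 z (n 0 z (n 0 z (n 0 z (n 0 z (n 0 z (n 0 z (n 0 z (n 0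
 z (n 0 z (n 0 z (n 0 z (n 0 z (n 0 z (n 0 z (n 0 z (n 2 (n 0 z (n 2 (n 0 z (n 0 z (n 0 z (n 0 z
 (n 0 z (n 0 z z)))))) (n 1 z (n 1 z (n 1 z (n 1 z (n 1 z (n 1 z (n 1 z (n 2 (n 0 z (n 0 z (n 0
 z (n 0 z (n 0 z (n 0 z z)))))) (n 2 (n 0 z (n 0 z (n 0 z (n 0 z (n 0 z (n 0 z z))))))
 z))))))))))) (n 0 z (n 0 z (n 0 z (n 0 z z))))))))))))))))))))))) (n 1235 (n 0 z (n 0 z (n 0 z
 (n 0 z (n 0 z (n 0 z (n 0 z (n 0 z (n 0 z (n 0 z (n 0 z (n 0 z (n 0 z (n 0 z (n 0 z (n 0 z (n 2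
 (n 2 (n 0 z (n 0 z (n 0 z (n 0 z (n 0 z (n 0 z z)))))) (n 1 z (n 1 z (n 1 z (n 1 z (n 1 z (n 1
 z (n 2 (n 0 z (n 0 z (n 0 z (n 0 z (n 0 z (n 0 z z)))))) (n 2 (n 0 z (n 0 z (n 0 z (n 0 z (n 0
 z (n 0 z z)))))) (n 2 (n 0 z (n 0 z (n 0 z (n 0 z (n 0 z (n 0 z z)))))) z)))))))))) (n 0 z (n 0
 z (n 0 z (n 0 z (n 0 z (n 0 z z))))))))))))))))))))))) (n 1233 (n 0 z (n 0 z (n 0 z (n 0 z (n 0
 z (n 0 z (n 0 z (n 0 z (n 0 z (n 0 z (n 0 z (n 0 z (n 0 z (n 0 z (n 0 z (n 0 z (n 0 z (n 0 z (n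
 0 z (n 0 z (n 0 z (n 0 z (n 0 z (n 0 z (n 0 z (n 0 z z)))))))))))))))))))))))))) (n 1233 (n 0 z
 (n 0 z (n 0 z (n 0 z (n 0 z (n 0 z (n 0 z (n 2 (n 1 z (n 1 z (n 1 z (n 1 z (n 1 z (n 1 z (n 1 z
 (n 2 (n 0 z (n 0 z (n 0 z (n 0 z (n 0 z (n 0 z z)))))) z)))))))) (n 0 z (n 0 z (n 0 z (n 0 z (n
 0 z (n 0 z (n 0 z (n 0 z (n 0 z (n 0 z (n 0 z (n 0 z (n 0 z (n 0 z (n 0 z (n 0 z (n 0 z (n 0 z
 z)))))))))))))))))))))))))) (n 1011 (n 0 z (n 0 z (n 0 z (n 0 z (n 0 z (n 0 z (n 0 z (n 0 z (n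
 0 z (n 0 z (n 0 z (n 0 z (n 0 z (n 0 z (n 0 z (n 0 z (n 0 z (n 0 z (n 0 z (n 0 z (n 0 z (n 0 z
 (n 0 z z))))))))))))))))))))))) (n 1011 (n 0 z (n 0 z (n 0 z (n 0 z (n 0 z (n 0 z (n 0 z (n 0 z
 (n 0 z (n 0 z (n 0 z (n 0 z (n 0 z (n 0 z (n 0 z (n 0 z (n 0 z (n 0 z (n 0 z (n 0 z (n 0 z (n 0
 z (n 0 z z))))))))))))))))))))))) (n 1011 (n 0 z (n 0 z (n 0 z (n 0 z (n 0 z (n 0 z (n 0 z (n 0
 z (n 0 z (n 0 z (n 0 z (n 0 z (n 0 z (n 0 z (n 0 z (n 0 z (n 2 (n 1 z (n 1 z (n 2 (n 0 z (n 0 z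
 (n 0 z (n 0 z (n 0 z (n 0 z z)))))) (n 2 (n 0 z (n 0 z (n 0 z (n 0 z (n 0 z (n 0 z z)))))) (n 2
 (n 0 z (n 0 z (n 0 z (n 0 z (n 0 z (n 0 z z)))))) z))))) (n 0 z (n 0 z (n 0 z (n 0 z (n 0 z (n
 0 z z))))))))))))))))))))))) (n 597 (n 0 z (n 0 z (n 0 z (n 0 z (n 0 z (n 0 z (n 0 z (n 2 (n 1
 z (n 1 z (n 1 z (n 2 (n 0 z (n 0 z (n 0 z (n 0 z (n 0 z (n 0 z z)))))) z)))) (n 0 z (n 0 z (n 0
 z (n 0 z (n 0 z (n 0 z (n 0 z (n 0 z (n 0 z (n 0 z (n 0 z (n 0 z (n 0 z (n 0 z (n 0 z (n 0 z (n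
 0 z (n 0 z z)))))))))))))))))))))))))) (n 1009 (n 0 z (n 0 z (n 0 z (n 0 z (n 0 z (n 0 z (n 0 z
 (n 0 z (n 0 z (n 0 z (n 0 z (n 0 z (n 0 z (n 0 z (n 0 z (n 0 z (n 0 z (n 0 z (n 0 z (n 0 z (n 0
 z (n 0 z (n 0 z (n 0 z (n 0 z (n 0 z z)))))))))))))))))))))))))) (n 1009 (n 0 z (n 0 z (n 0 z
 (n 0 z (n 0 z (n 0 z (n 0 z (n 0 z (n 0 z (n 0 z (n 0 z (n 0 z (n 0 z (n 0 z (n 0 z (n 0 z (n 0
 z (n 0 z (n 0 z (n 0 z (n 0 z (n 0 z (n 0 z (n 0 z (n 0 z (n 0 z z)))))))))))))))))))))))))) (n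
 1009 (n 0 z (n 0 z (n 0 z (n 0 z (n 0 z (n 0 z (n 0 z (n 0 z (n 0 z (n 0 z (n 0 z (n 0 z (n 0 z
 (n 0 z (n 0 z (n 0 z (n 0 z (n 0 z (n 0 z (n 0 z (n 0 z (n 0 z (n 0 z (n 0 z (n 0 z (n 0 z
 z)))))))))))))))))))))))))) (n 1009 (n 0 z (n 0 z (n 0 z (n 0 z (n 0 z (n 0 z (n 0 z (n 0 z (n
 0 z (n 0 z (n 0 z (n 0 z (n 0 z (n 0 z (n 0 z (n 0 z (n 0 z (n 0 z (n 0 z (n 0 z (n 0 z (n 0 z
 (n 0 z (n 0 z (n 0 z (n 0 z z)))))))))))))))))))))))))) z))))))))))))) (n 0 (n 139 (n 0 z (n 2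
 (n 0 z (n 1 z (n 1 z (n 1 z (n 1 z (n 1 z (n 1 z (n 1 z (n 1 z (n 1 z (n 1 z z))))))))))) (n 0
 z (n 0 z (n 0 z z))))) (n 139 (n 0 z (n 0 z (n 0 z (n 0 z (n 0 z z))))) (n 135 (n 0 z (n 0 z (n
 0 z (n 0 z (n 0 z z))))) (n 135 (n 2 (n 1 z (n 1 z (n 1 z (n 1 z (n 1 z (n 1 z (n 1 z (n 1 z
 z)))))))) (n 0 z (n 0 z (n 0 z (n 0 z z))))) (n 387 (n 0 z (n 0 z (n 0 z (n 0 z (n 0 z (n 0 z
 (n 0 z (n 0 z (n 0 z (n 0 z (n 0 z (n 0 z (n 0 z (n 0 z (n 0 z (n 0 z (n 0 z (n 0 z (n 0 z (n 0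
 z (n 0 z (n 0 z z)))))))))))))))))))))) (n 387 (n 0 z (n 0 z (n 0 z (n 0 z (n 0 z (n 0 z (n 0 z
 (n 0 z (n 0 z (n 0 z (n 0 z (n 0 z (n 0 z (n 0 z (n 0 z (n 0 z (n 0 z (n 0 z (n 0 z (n 0 z (n 0
 z (n 0 z z)))))))))))))))))))))) (n 387 (n 0 z (n 0 z (n 0 z (n 0 z (n 0 z (n 0 z (n 0 z (n 0 z
 (n 0 z (n 0 z (n 0 z (n 0 z (n 2 (n 1 z (n 1 z (n 1 z (n 1 z (n 2 (n 0 z (n 0 z (n 0 z (n 0 z
 (n 0 z (n 0 z z)))))) z))))) (n 0 z (n 0 z (n 0 z (n 0 z (n 0 z (n 0 z (n 0 z (n 0 z (n 0 z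
 z)))))))))))))))))))))) (n 137 (n 0 z (n 0 z (n 0 z (n 0 z (n 0 z (n 0 z (n 0 z z))))))) (n 733
 (n 0 z (n 0 z (n 0 z (n 0 z (n 0 z z))))) (n 733 (n 0 z (n 0 z (n 0 z (n 0 z (n 0 z z))))) (n
 733 (n 0 z (n 0 z (n 0 z (n 0 z (n 0 z z))))) (n 733 (n 0 z (n 0 z (n 0 z (n 0 z (n 0 z z)))))
 z)))))))))))) (n 0 (n 0 z (n 271 (n 0 z (n 2 (n 0 z (n 1 z (n 1 z (n 1 z (n 1 z (n 2 (n 0 z (n
 0 z (n 0 z (n 0 z (n 0 z (n 0 z z)))))) (n 2 (n 0 z (n 0 z (n 0 z (n 0 z (n 0 z (n 0 z z))))))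
 (n 1 z (n 1 z z))))))))) (n 0 z (n 0 z (n 0 z (n 0 z (n 0 z z))))))) (n 271 (n 0 z (n 0 z (n 0
 z (n 0 z (n 0 z (n 0 z (n 0 z z))))))) (n 273 (n 0 z (n 0 z (n 0 z (n 0 z (n 0 z (n 0 z (n 0 z
 (n 0 z (n 2 (n 0 z (n 0 z (n 1 z (n 1 z (n 1 z (n 1 z (n 2 (n 0 z (n 0 z (n 0 z (n 0 z (n 0 z
 (n 0 z z)))))) z))))))) z))))))))) (n 273 (n 0 z (n 0 z (n 0 z (n 2 (n 0 z (n 1 z (n 1 z (n 1 z
 (n 1 z (n 1 z z)))))) (n 0 z (n 0 z (n 0 z (n 0 z (n 0 z z))))))))) (n 273 (n 0 z (n 0 z (n 0 z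
 (n 0 z (n 0 z (n 0 z (n 0 z (n 0 z (n 0 z z))))))))) (n 15 (n 0 z (n 0 z (n 0 z (n 0 z (n 2 (n
 1 z (n 1 z (n 1 z (n 1 z z)))) (n 0 z (n 0 z (n 0 z (n 0 z (n 0 z (n 0 z (n 0 z (n 0 z (n 0 z
 (n 0 z z))))))))))))))) (n 13 (n 0 z (n 2 (n 0 z (n 0 z (n 0 z z))) (n 0 z (n 0 z (n 0 z (n 0 z
 (n 0 z z))))))) (n 13 (n 2 (n 0 z (n 0 z z)) (n 0 z (n 0 z (n 0 z (n 0 z (n 0 z (n 0 z z)))))))
 (n 13 (n 0 z (n 0 z (n 0 z (n 2 (n 0 z z) (n 0 z (n 0 z (n 0 z z))))))) (n 13 (n 0 z (n 0 z (n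
 2 z (n 0 z (n 0 z (n 0 z (n 0 z z))))))) z))))))))))) (n 0 (n 347 (n 0 z (n 0 z (n 0 z (n 0 z
 (n 0 z (n 0 z z)))))) (n 347 (n 2 (n 1 z (n 1 z (n 1 z (n 1 z (n 1 z (n 1 z (n 1 z (n 1 z
 z)))))))) (n 0 z (n 0 z (n 0 z (n 0 z (n 0 z z)))))) (n 7 (n 0 z (n 0 z (n 2 (n 0 z (n 0 z (n 1
 z (n 1 z (n 1 z (n 1 z (n 2 (n 0 z (n 0 z (n 0 z (n 0 z (n 0 z (n 0 z z)))))) z))))))) (n 0 z
 (n 0 z (n 0 z (n 0 z (n 0 z (n 0 z z))))))))) (n 7 (n 0 z (n 0 z (n 0 z (n 0 z (n 0 z (n 0 z (n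
 0 z (n 0 z (n 0 z z))))))))) (n 7 (n 0 z (n 0 z (n 0 z (n 2 (n 1 z (n 2 (n 0 z (n 0 z (n 0 z (n
 0 z (n 0 z (n 0 z z)))))) (n 2 (n 0 z (n 0 z (n 0 z (n 0 z (n 0 z (n 0 z z)))))) (n 2 (n 0 z (n
 0 z (n 0 z (n 0 z (n 0 z (n 0 z z)))))) (n 1 z z))))) (n 0 z (n 0 z (n 0 z (n 0 z (n 0 z
 z))))))))) (n 345 (n 0 z (n 0 z (n 0 z (n 0 z (n 0 z (n 0 z (n 0 z (n 0 z z)))))))) (n 253 (n 0
 z (n 0 z (n 2 (n 0 z (n 0 z (n 0 z z))) (n 0 z (n 0 z (n 0 z (n 0 z z))))))) (n 253 (n 0 z (n 0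
 z (n 0 z (n 0 z (n 0 z (n 0 z (n 0 z z))))))) (n 253 (n 0 z (n 0 z (n 0 z (n 0 z (n 0 z (n 0 z
 (n 0 z z))))))) (n 253 (n 0 z (n 0 z (n 0 z (n 0 z (n 0 z (n 0 z (n 0 z z))))))) z)))))))))) (n
 0 (n 0 z (n 7 (n 0 z (n 0 z (n 0 z (n 0 z z)))) (n 7 (n 0 z (n 0 z (n 0 z (n 0 z z)))) (n 7 (n
 2 (n 1 z (n 2 (n 0 z (n 0 z (n 0 z (n 0 z (n 0 z (n 0 z z)))))) (n 2 (n 0 z (n 0 z (n 0 z (n 0
 z (n 0 z (n 0 z z)))))) (n 2 (n 0 z (n 0 z (n 0 z (n 0 z (n 0 z (n 0 z z)))))) (n 1 z z))))) (n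
 0 z (n 0 z (n 0 z z)))) (n 585 (n 0 z (n 0 z (n 0 z (n 0 z (n 0 z z))))) (n 493 (n 0 z (n 0 z
 (n 0 z (n 0 z (n 0 z (n 0 z z)))))) (n 493 (n 0 z (n 0 z (n 0 z (n 0 z (n 0 z (n 0 z z)))))) (n
 493 (n 0 z (n 0 z (n 0 z (n 0 z (n 0 z (n 0 z z)))))) (n 493 (n 0 z (n 0 z (n 0 z (n 0 z (n 0 z
 (n 0 z z)))))) z))))))))) (n 0 (n 55 (n 2 (n 0 z (n 0 z (n 1 z (n 1 z (n 1 z (n 1 z (n 1 z
 z))))))) (n 0 z (n 0 z (n 0 z (n 0 z (n 0 z (n 0 z z))))))) (n 55 (n 0 z (n 2 (n 0 z (n 1 z (n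
 1 z (n 1 z (n 1 z (n 1 z z)))))) (n 0 z (n 0 z (n 0 z (n 0 z (n 0 z z))))))) (n 55 (n 0 z (n 0
 z (n 0 z (n 0 z (n 0 z (n 0 z (n 0 z z))))))) (n 51 (n 0 z (n 2 (n 1 z (n 1 z (n 1 z (n 1 z
 z)))) (n 0 z (n 0 z (n 0 z (n 0 z z)))))) (n 49 (n 0 z (n 2 (n 0 z (n 0 z (n 0 z z))) (n 0 z (n
 0 z (n 0 z (n 0 z (n 0 z (n 0 z z)))))))) (n 49 (n 0 z (n 0 z (n 2 (n 0 z (n 0 z z)) (n 0 z (n
 0 z (n 0 z (n 0 z (n 0 z z)))))))) (n 49 (n 0 z (n 0 z (n 0 z (n 0 z (n 0 z (n 0 z (n 0 z (n 0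
 z z)))))))) (n 49 (n 0 z (n 0 z (n 0 z (n 0 z (n 0 z (n 2 z (n 0 z (n 0 z z)))))))) z))))))))
 (n 0 (n 0 z (n 0 z (n 3 (n 2 (n 1 z (n 1 z (n 1 z (n 1 z z)))) (n 0 z (n 0 z (n 0 z (n 0 z
 z))))) (n 5 (n 0 z (n 0 z (n 0 z (n 0 z (n 0 z (n 0 z (n 0 z z))))))) (n 5 (n 0 z (n 0 z (n 0 z
 (n 0 z (n 0 z (n 0 z (n 0 z z))))))) (n 5 (n 0 z (n 0 z (n 0 z (n 0 z (n 0 z (n 0 z (n 0 z
 z))))))) (n 5 (n 0 z (n 0 z (n 0 z (n 0 z (n 0 z (n 0 z (n 0 z z))))))) z))))))) (n 0 (n 0 z (n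
 99 (n 0 z (n 0 z (n 0 z (n 0 z (n 0 z (n 0 z (n 0 z (n 0 z z)))))))) (n 13 (n 0 z (n 0 z (n 0 z
 (n 0 z (n 0 z (n 0 z (n 0 z (n 0 z (n 0 z z))))))))) (n 13 (n 0 z (n 0 z (n 0 z (n 0 z (n 0 z
 (n 0 z (n 0 z (n 0 z (n 0 z z))))))))) (n 13 (n 0 z (n 0 z (n 0 z (n 0 z (n 0 z (n 0 z (n 0 z
 (n 0 z (n 0 z z))))))))) (n 13 (n 0 z (n 0 z (n 0 z (n 0 z (n 0 z (n 0 z (n 0 z (n 0 z (n 0 z
 z))))))))) z)))))) (n 0 (n 15 (n 2 (n 1 z (n 1 z (n 1 z (n 1 z z)))) (n 0 z (n 0 z (n 0 z (n 0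
 z (n 0 z z)))))) (n 13 (n 0 z (n 0 z (n 2 (n 0 z (n 0 z (n 0 z z))) (n 0 z (n 0 z (n 0 z (n 0 z
 (n 0 z z)))))))) (n 13 (n 0 z (n 2 (n 0 z (n 0 z z)) (n 0 z (n 0 z (n 0 z (n 0 z (n 0 z (n 0 z
 z)))))))) (n 13 (n 0 z (n 0 z (n 0 z (n 0 z (n 0 z (n 2 (n 0 z z) (n 0 z (n 0 z z)))))))) (n 13
 (n 0 z (n 0 z (n 0 z (n 0 z (n 0 z (n 0 z (n 0 z (n 0 z z)))))))) z))))) (n 0 (n 985 (n 0 z (n
 0 z (n 0 z (n 0 z (n 0 z (n 0 z (n 0 z (n 0 z (n 0 z (n 0 z (n 0 z (n 0 z (n 0 z (n 0 z (n 0 z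
 (n 0 z (n 0 z (n 0 z (n 0 z (n 2 (n 0 z (n 0 z (n 0 z z))) (n 0 z z))))))))))))))))))))) (n 985
 (n 0 z (n 0 z (n 0 z (n 0 z (n 0 z (n 0 z (n 0 z (n 0 z (n 0 z (n 0 z (n 0 z (n 0 z (n 0 z (n 0
 z (n 0 z (n 0 z (n 0 z (n 0 z (n 0 z (n 0 z (n 0 z z))))))))))))))))))))) (n 985 (n 0 z (n 0 z
 (n 0 z (n 0 z (n 0 z (n 0 z (n 0 z (n 0 z (n 0 z (n 0 z (n 0 z (n 0 z (n 0 z (n 0 z (n 0 z (n 0
 z (n 0 z (n 0 z (n 0 z (n 0 z (n 0 z z))))))))))))))))))))) (n 985 (n 0 z (n 0 z (n 0 z (n 0 z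
 (n 0 z (n 0 z (n 0 z (n 0 z (n 0 z (n 0 z (n 0 z (n 0 z (n 0 z (n 0 z (n 0 z (n 0 z (n 0 z (n 0
 z (n 0 z (n 0 z (n 0 z z))))))))))))))))))))) z)))) (n 0 (n 0 z (n 0 z (n 0 z z))) (n 0 (n 0 z
 (n 0 z z)) (n 0 (n 0 z z) (n 0 z z)))))))))))))) (n 0 (n 0 z (n 1 (n 6554411 z (n 2396 z (n
 2396 z (n 2 z (n 2396 z (n 2396 z z)))))) (n 1 (n 2396 z (n 2396 z (n 2396 z (n 4326939 z (n
 2396 z (n 2396 z z)))))) (n 1 (n 6632003 z (n 6632003 z (n 6632003 z (n 6632003 z (n 6632003 z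
 (n 6632003 z z)))))) (n 0 z z))))) (n 0 (n 0x310a8b314a09 (n 0 (n 0 (n 7742219 z (n 7742219 z
 (n 7742219 z (n 7742219 z (n 7742219 z (n 7742219 z z)))))) z) (n 0 (n 69 (n 1 (n 7610707 z (n
 7610707 z (n 7610707 z (n 7610707 z (n 7610707 z (n 7610707 z z)))))) (n 1 (n 7472667 z (n 2396
 z (n 2396 z (n 2396 z (n 7754267 z (n 2396 z z)))))) (n 1 (n 3282699 z (n 4400907 z (n 4400907
 z (n 4400907 z (n 4400907 z (n 4400907 z z)))))) (n 1 (n 2396 z (n 7472667 z (n 2396 z (n 2396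
 z (n 540 z (n 7754267 z z)))))) (n 0 z z))))) (n 189 (n 1 (n 7610707 z (n 7610707 z (n 7610707
 z (n 7610707 z (n 7610707 z (n 7610707 z z)))))) (n 1 (n 2 z (n 6620987 z (n 2972 z (n 7742219
 z (n 2972 z (n 2972 z z)))))) (n 1 (n 4400907 z (n 7742219 z (n 4400907 z (n 4400907 z (n
 4400907 z (n 4400907 z z)))))) (n 1 (n 2972 z (n 2972 z (n 2972 z (n 2972 z (n 7742219 z (n
 2972 z z)))))) (n 0 z z))))) (n 3 (n 1 (n 7742219 z (n 2476 z (n 2476 z (n 1972 z (n 4392731 z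
 (n 2476 z z)))))) (n 1 (n 7680579 z (n 7680579 z (n 7680579 z (n 7680579 z (n 7680579 z (n
 7680579 z z)))))) (n 0 z (n 1 (n 7680579 z (n 7680579 z (n 7680579 z (n 7680579 z (n 7680579 z
 (n 7680579 z z)))))) z)))) (n 9 (n 1 (n 1660 z (n 7754267 z (n 1660 z (n 4327195 z (n 10 z (n
 1660 z z)))))) (n 1 (n 7680579 z (n 7680579 z (n 7680579 z (n 7680579 z (n 7680579 z (n 7680579
 z z)))))) (n 0 z (n 1 (n 7680579 z (n 7680579 z (n 7680579 z (n 7680579 z (n 7680579 z (n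
 7680579 z z)))))) z)))) (n 556 (n 1 (n 4604 z (n 7754267 z (n 4604 z (n 7602987 z (n 4604 z (n
 4604 z z)))))) (n 1 (n 7610707 z (n 7610707 z (n 7610707 z (n 7610707 z (n 7610707 z (n 7610707
 z z)))))) (n 1 (n 7610707 z (n 7610707 z (n 7610707 z (n 7610707 z (n 7610707 z (n 7610707 z
 z)))))) (n 0 z (n 0 z z))))) (n 471 (n 0 z (n 1 (n 3282699 z (n 7742219 z (n 3282699 z (n
 3282699 z (n 3282699 z (n 3282699 z z)))))) (n 0 z (n 0 z (n 1 (n 7680579 z (n 7680579 z (n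
 7680579 z (n 7680579 z (n 7680579 z (n 7680579 z z)))))) z))))) (n 135 (n 0 z (n 1 (n 7742219 z
 (n 7742219 z (n 7742219 z (n 7742219 z (n 7742219 z (n 7742219 z z)))))) (n 1 (n 2396 z (n
 7754267 z (n 2396 z (n 4327195 z (n 2396 z (n 2396 z z)))))) (n 1 (n 7680579 z (n 7680579 z (n
 7680579 z (n 7680579 z (n 7680579 z (n 7680579 z z)))))) (n 0 z z))))) z))))))) (n 0 (n 0 (n 0
 z (n 0 z z)) (n 0 (n 0 z z) z)) (n 0 (n 189 (n 0 (n 0 z (n 0 z z)) (n 0 (n 0 z (n 0 z z)) (n 0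
 (n 0 z (n 0 z z)) (n 0 (n 0 z (n 0 z z)) (n 0 (n 0 z (n 0 z z)) z))))) (n 309 (n 0 (n 0 z (n 0
 z z)) (n 0 (n 0 z (n 0 z z)) (n 0 (n 0 z (n 0 z z)) (n 0 (n 0 z (n 0 z z)) (n 0 (n 0 z (n 0 z
 z)) z))))) (n 293 (n 0 (n 0 z (n 0 z z)) (n 0 (n 0 z (n 0 z z)) (n 0 (n 0 z (n 0 z z)) (n 0 (n
 0 z (n 0 z z)) (n 0 (n 0 z (n 0 z z)) (n 0 (n 0 z (n 0 z z)) z)))))) (n 207 (n 0 (n 0 (n
 8859747 z (n 8859747 z z)) (n 0 (n 8859747 z (n 8859747 z z)) z)) (n 0 (n 0 (n 8859747 z z) (n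
 0 (n 8859747 z z) z)) (n 0 (n 0 (n 8859747 z z) (n 0 (n 8859747 z z) z)) (n 0 (n 0 z (n 0 z z))
 (n 0 (n 0 z (n 0 (n 8859747 z z) z)) (n 0 (n 0 z (n 0 z z)) (n 0 (n 0 z (n 0 z z)) (n 0 (n 0 z
 (n 0 z z)) (n 0 (n 0 z (n 0 z z)) (n 0 (n 0 z (n 0 z z)) (n 0 (n 0 z (n 0 z z)) (n 0 (n 0 z (n
 0 (n
 0x30a8ea84078208608208208208208208208208208208208208208208208208208208208208208208208200801 z
 z) z)) (n 0 (n 0 z (n 0 z z)) (n 0 (n 0 z (n 0 z z)) (n 0 (n 0 z (n 0 z z)) (n 0 (n 0 z (n 0 z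
 z)) (n 0 (n 0 z (n 0 z z)) (n 0 (n 0 z (n 0 z z)) (n 0 (n 0 z (n 0 z z)) (n 0 (n 0 z (n 0 z z))
 (n 0 (n 0 z (n 0 z z)) (n 0 (n 0 z (n 0 z z)) z)))))))))))))))))))))) (n 57 (n 0 (n 0 z (n 0 z
 z)) (n 0 (n 0 z (n 0 z z)) (n 0 (n 0 z (n 0 z z)) (n 0 (n 0 z (n 0 z z)) (n 0 (n 0 z (n 0 z z))
 (n 0 (n 0 z (n 0 z z)) (n 0 (n 0 z (n 0 z z)) (n 0 (n 0 z (n 0 z z)) (n 0 (n 0 z (n 0 z z))
 z))))))))) (n 9 (n 0 (n 0 z (n 0 z z)) (n 0 (n 0 z (n 0 z z)) (n 0 (n 0 z (n 0 z z)) (n 0 (n 0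
 z (n 0 z z)) z)))) (n 575 (n 0 (n 0 z (n 0 z z)) (n 0 (n 0 z (n 0 z z)) (n 0 (n 0 z (n 0 z z))
 (n 0 (n 0 z (n 0 z z)) (n 0 (n 0 z (n 0 z z)) (n 0 (n 0 z (n 0 z z)) (n 0 (n 0 z (n 0 z z))
 z))))))) (n 557 (n 0 (n 0 z (n 0 z z)) (n 0 (n 0 z (n 0 z z)) (n 0 (n 0 z (n 0 z z)) (n 0 (n 0
 z (n 0 z z)) (n 0 (n 0 z (n 0 z z)) (n 0 (n 0 z (n 0 z z)) (n 0 (n 0 z (n 0 z z)) (n 0 (n 0 z
 (n 0 z z)) z)))))))) (n 556 (n 0 (n 0 z (n 0 z z)) (n 0 (n 0 z (n 0 z z)) (n 0 (n 0 z (n 0 z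
 z)) (n 0 (n 0 z (n 0 z z)) (n 0 (n 0 z (n 0 z z)) z))))) (n 73 (n 0 (n 0 z (n 0 z z)) (n 0 (n 0
 z (n 0 z z)) (n 0 (n 0 z (n 0 z z)) (n 0 (n 0 z (n 0 z z)) (n 0 (n 0 z (n 0 z z)) (n 0 (n 0 z
 (n 0 z z)) (n 0 (n 0 z (n 0 z z)) (n 0 (n 0 z (n 0 z z)) z)))))))) (n 471 (n 0 (n 0 z (n 0 z
 z)) (n 0 (n 0 z (n 0 z z)) (n 0 (n 0 z (n 0 z z)) (n 0 (n 0 z (n 0 z z)) (n 0 (n 0 z (n 0 z z))
 z))))) (n 615 (n 0 (n 0 z (n 0 z z)) (n 0 (n 0 z (n 0 z z)) (n 0 (n 0 z (n 0 z z)) (n 0 (n 0 z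
 (n 0 z z)) (n 0 (n 0 z (n 0 z z)) (n 0 (n 0 z (n 0 z z)) (n 0 (n 0 z (n 0 z z)) z))))))) (n 613
 (n 0 (n 0 z (n 0 z z)) (n 0 (n 0 z (n 0 z z)) (n 0 (n 0 z (n 0 z z)) (n 0 (n 0 z (n 0 z z)) (n
 0 (n 0 z (n 0 z z)) (n 0 (n 0 z (n 0 z z)) z)))))) (n 19 (n 0 (n 0 z (n 0 z z)) (n 0 (n 0 z (n
 0 z z)) (n 0 (n 0 z (n 0 z z)) (n 0 (n 0 z (n 0 z z)) (n 0 (n 0 z (n 0 z z)) (n 0 (n 0 z (n 0 z
 z)) (n 0 (n 0 z (n 0 z z)) (n 0 (n 0 z (n 0 z z)) (n 0 (n 0 z (n 0 z z)) z))))))))) (n 612 (n 0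
 (n 0 z (n 0 z z)) (n 0 (n 0 z (n 0 z z)) (n 0 (n 0 z (n 0 z z)) (n 0 (n 0 z (n 0 z z)) (n 0 (n
 0 z (n 0 z z)) (n 0 (n 0 z (n 0 z z)) (n 0 (n 0 z (n 0 z z)) (n 0 (n 0 z (n 0 z z)) (n 0 (n 0 z
 (n 0 z z)) (n 0 (n 0 z (n 0 z z)) (n 0 (n 0 z (n 0 z z)) (n 0 (n 0 z (n 0 z z)) (n 0 (n 0 z (n
 0 z z)) (n 0 (n 0 z (n 0 z z)) (n 0 (n 0 z (n 0 z z)) (n 0 (n 0 z (n 0 z z)) (n 0 (n 0 z (n 0 z
 z)) (n 0 (n 0 z (n 0 z z)) (n 0 (n 0 z (n 0 z z)) (n 0 (n 0 z (n 0 z z)) (n 0 (n 0 z (n 0 z z))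
 z))))))))))))))))))))) (n 299 (n 0 (n 0 z (n 0 z z)) (n 0 (n 0 (n 8652571 z (n
 0x130a20d8317df86086381f8df89d8648e18217e275f7607dd7a07df81f8207df7e07a07df81f8237df7de0081 z
 z)) (n 0 (n 8652571 z (n
 0x130a20d8317e081f8e57637e189e8238257a08a281e81e7df7a086281e7a285e7e07606e27e18618e289d0081 z
 z)) z)) (n 0 (n 0 (n
 0x30a8ea84078208608208208208208208208208208208208208208208208208208208208208208208208200801 z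
 z) (n 0 (n
 0x30a8ea84078208608208208208208208208208208208208208208208208208208208208208208208208200801 z
 z) z)) (n 0 (n 0 (n
 0x854754203850a8ea24078208a08217e086085e7e18607e18608208208227e185e82079f86086085f86082081f82185f1001
 z (n
 0x30a8ea84078208608208208217e08208208208208208208208208208208208208208208208208208208200801 z
 z)) (n 0 z z)) (n 0 (n 0 (n
 0x30a8ea840782086082082082082082082082082082082082082081f8208208208208208208208208208200801 z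
 z) (n 0 (n
 0x30a8ea840782086082082082082082082082082082082082082081f8208208208208208208208208208200801 z
 z) z)) (n 0 (n 0 z (n 0 z z)) (n 0 (n 0 z (n 0 (n 8804155 z z) z)) (n 0 (n 0 z (n 0 z z)) (n 0
 (n 0 z (n 0 z z)) (n 0 (n 0 (n
 0x10a8ea84078208608208208207e082082082082082082082182082082082082082082082082082081f8200801 z
 z) (n 0 (n
 0x10a8ea84078208608208208207e082082082082082082082182082082082082082082082082082081f8200801 z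
 z) z)) (n 0 (n 0 z (n 0 z z)) (n 0 (n 0 (n 7616523 z (n 8802843 z z)) (n 0 (n 7616523 z (n
 8802843 z z)) z)) (n 0 (n 0 z (n 0 z z)) (n 0 (n 0 z (n 0 z z)) (n 0 (n 0 z (n 0 z z)) (n 0 (n
 0 z (n 0 (n 8802843 z z) z)) (n 0 (n 0 z (n 0 z z)) (n 0 (n 0 z (n 0 z z)) (n 0 (n 0 z (n 0 z
 z)) (n 0 (n 0 z (n 0 z z)) (n 0 (n 0 z (n 0 z z)) (n 0 (n 0 z (n 0 z z)) (n 0 (n 0 z (n 0 z z))
 z))))))))))))))))))))))) (n 371 (n 0 (n 0 z (n 0 z z)) (n 0 (n 0 z (n 0 z z)) (n 0 (n 0 z (n 0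
 z z)) (n 0 (n 0 z (n 0 z z)) (n 0 (n 0 (n 8872195 z (n 8872195 z z)) (n 0 (n 8872195 z (n
 8872195 z z)) z)) (n 0 (n 0 (n 8872195 z z) (n 0 (n 8872195 z z) z)) (n 0 (n 0 (n 8865083 z (n
 8865083 z z)) (n 0 (n
 0x854543203830a8a8040789d8a09e17e479e81d8a682a8dc7de9de8608557637e07996a381876276272b82396695e8621001
 z (n 0xd87082082082081f82082082082081f8208208208207e08218208207e08208208208218207e08200041 z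
 z)) z)) (n 0 (n 0 (n 8872195 z z) (n 0 (n 8872195 z z) z)) (n 0 (n 0 z (n 0 z z)) (n 0 (n 0 z
 (n 0 (n 8872195 z z) z)) (n 0 (n 0 z (n 0 z z)) (n 0 (n 0 (n 8872195 z z) (n 0 (n 8872195 z z)
 z)) (n 0 (n 0 z (n 0 z z)) (n 0 (n 0 z (n 0 (n 8872195 z z) z)) (n 0 (n 0 z (n 0 z z)) (n 0 (n
 0 z (n 0 z z)) (n 0 (n 0 z (n 0 z z)) (n 0 (n 0 z (n 0 z z)) (n 0 (n 0 z (n 0 z z))
 z))))))))))))))))))) (n 135 (n 0 (n 0 z (n 0 z z)) (n 0 (n 0 z (n 0 z z)) (n 0 (n 0 z (n 0 z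
 z)) (n 0 (n 0 z (n 0 z z)) (n 0 (n 0 z (n 0 z z)) z))))) (n 3 (n 0 (n 0 z (n 0 z z)) (n 0 (n 0
 z (n 0 z z)) (n 0 (n 0 z (n 0 z z)) (n 0 (n 0 z (n 0 z z)) (n 0 (n 0 z (n 0 z z)) z))))) (n 1
 (n 0 (n 0 z (n 0 z z)) (n 0 (n 0 z (n 0 z z)) (n 0 (n 0 z (n 0 z z)) (n 0 (n 0 z (n 0 z z)) (n
 0 (n 0 z (n 0 z z)) z))))) (n 0 (n 0 (n 0 z (n 0 z z)) (n 0 (n 0 z (n 0 z z)) (n 0 (n 0 z (n 0
 z z)) (n 0 (n 0 z (n 0 z z)) (n 0 (n 0 z (n 0 z z)) (n 0 (n 0 z (n 0 z z)) (n 0 (n 0 z (n 0 z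
 z)) z))))))) z))))))))))))))))))))) z)))) z) z)))) (n
 0xaa274488ba1d4e50acb2da226d408b6984e3b504d2901693a1c49d4c0 (n 0 (n 279 (n 0 z (n 2 z (n 0 z (n
 0 z (n 0 z (n 0 z (n 6557731 z (n 0 z (n 0 z z))))))))) (n 255 (n 0 z (n 0 z (n 0 z (n 0 z (n 0
 z (n 0 z (n 6496515 z (n 0 z z)))))))) (n 9 (n 10 z (n 18 z (n 0 z (n 0 z (n 6496515 z (n 26 z
 (n 0 z (n 0 z (n 0 z z))))))))) (n 243 (n 34 z (n 42 z (n 0 z (n 0 z (n 0 z (n 50 z (n 6496515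
 z z))))))) (n 1 (n 0 z (n 0 z (n 0 z (n 0 z (n 0 z (n 0 z (n 0 z (n 6557731 z (n 0 z z)))))))))
 (n 0 (n 0 z (n 58 z (n 0 z (n 0 z (n 0 z (n 0 z (n 66 z (n
 0x353188816317f7c826e7f6b616b638477817e8e8d837c8f9996727980a2727e7869918a7e6b8d55a0796c779580a6887f7a798085777b8c0089
 z (n 0 z (n 0 z (n 0 z (n 0 z (n 74 z (n 0 z (n 0 z (n 0 z (n 0 z (n 0 z (n 0 z (n 82 z (n 0 z
 (n 0 z (n 0 z (n 0 z (n 0 z (n 0 z (n 0 z (n 0 z (n 0 z (n 0 z (n 6628363 z (n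
 0x353200816407f7c826e7f6b616b638477817e8e8d837c8f9996727980a2727e7869918a7e6b8d55a0796c779580a6887f7a798085777b8c0089
 z (n
 0x353200816407f7c826e7f6b616b638477817e8e8d837c8f9996727980a2727e7869918a7e6b8d55a0796c779580a6887f7a798085777b8c0089
 z (n 0 z (n 0 z (n 0 z (n 0 z (n 0 z (n 0 z (n 0 z (n 0 z (n 0 z (n 0 z (n 0 z (n 0 z (n 0 z (n
 0 z (n 0 z (n 0 z z))))))))))))))))))))))))))))))))))))))))))))))))) z)))))) (n 243 (n 0 (n 363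
 (n 0 z (n 0 z (n 0 z (n 0 z (n 0 z (n 0 z (n 0 z (n 0 z (n 0 z (n 0 z (n 0 z (n 0 z (n 0 z (n 0
 z (n 0 z (n 0 z (n 0 z (n 0 z (n 0 z (n 0 z (n 0 z (n 0 z (n 0 z (n 0 z (n 0 z (n 0 z
 z)))))))))))))))))))))))))) (n 363 (n 0 z (n 0 z (n 2 (n 0 z (n 1 z (n 1 z (n 2 (n 0 z (n 0 z
 (n 0 z (n 0 z (n 0 z (n 0 z z)))))) (n 2 (n 0 z (n 0 z (n 0 z (n 0 z (n 0 z (n 0 z z)))))) (n 2
 (n 0 z (n 0 z (n 0 z (n 0 z (n 0 z (n 0 z z)))))) (n 2 (n 0 z (n 0 z (n 0 z (n 0 z (n 0 z (n 0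
 z z)))))) (n 2 (n 0 z (n 0 z (n 0 z (n 0 z (n 0 z (n 0 z z)))))) z)))))))) (n 0 z (n 0 z (n 0 z
 (n 0 z (n 0 z (n 0 z (n 0 z (n 0 z (n 0 z (n 0 z (n 0 z (n 0 z (n 0 z (n 0 z (n 0 z (n 0 z (n 0
 z (n 0 z (n 0 z (n 0 z (n 0 z (n 0 z (n 0 z z)))))))))))))))))))))))))) (n 363 (n 0 z (n 0 z (n
 0 z (n 0 z (n 0 z (n 0 z (n 0 z (n 0 z (n 0 z (n 0 z (n 0 z (n 0 z (n 0 z (n 0 z (n 0 z (n 0 z
 (n 0 z (n 0 z (n 0 z (n 0 z (n 0 z (n 0 z (n 2 (n 2 (n 0 z (n 0 z (n 0 z (n 0 z (n 0 z (n 0 (n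
 8791067 z z) z)))))) (n 2 (n 0 z (n 0 z (n 0 z (n 0 z (n 0 z (n 0 z z)))))) (n 2 (n 0 z (n 0 z
 (n 0 z (n 0 z (n 0 z (n 0 (n 8863827 z z) z)))))) (n 2 (n 0 z (n 0 z (n 0 z (n 0 z (n 0 z (n 0
 z z)))))) (n 2 (n 0 z (n 0 z (n 0 z (n 0 z (n 0 z (n 0 z z)))))) (n 2 (n 0 z (n 0 z (n 0 z (n 0
 z (n 0 z (n 0 z z)))))) (n 2 (n 0 z (n 0 z (n 0 z (n 0 z (n 0 z (n 0 (n 8848155 z z) z))))))
 z))))))) (n 0 z (n 0 z (n 0 z z)))))))))))))))))))))))))) (n 555 (n 0 z (n 0 z (n 0 z (n 0 z (n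
 0 z (n 0 z (n 0 z (n 0 z (n 0 z z))))))))) (n 555 (n 2 (n 0 z (n 2 (n 0 z (n 0 z (n 0 z (n 0 z
 (n 0 z (n 0 z z)))))) (n 2 (n 0 z (n 0 z (n 0 z (n 0 z (n 0 z (n 0 (n 8791067 z z) z)))))) (n 1
 z (n 1 z z))))) (n 0 z (n 0 z (n 0 z (n 0 z (n 0 z (n 0 z (n 0 z (n 0 z z))))))))) (n 555 (n 0
 z (n 0 z (n 0 z (n 0 z (n 0 z (n 2 (n 2 (n 0 z (n 0 z (n 0 z (n 0 z (n 0 z (n 0 z z)))))) (n 2
 (n 0 z (n 0 z (n 0 z (n 0 z (n 0 z (n 0 z z)))))) (n 2 (n 0 z (n 0 z (n 0 z (n 0 z (n 0 z (n 0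
 z z)))))) (n 2 (n 0 z (n 0 z (n 0 z (n 0 z (n 0 z (n 0 z z)))))) z)))) (n 0 z (n 0 z (n 0 z
 z))))))))) (n 553 (n 0 z (n 0 z (n 0 z (n 0 z (n 0 z (n 0 z (n 0 z (n 0 z (n 2 (n 0 z (n 0 z (n
 0 z z))) (n 0 z (n 0 z (n 0 z z)))))))))))) (n 553 (n 0 z (n 0 z (n 0 z (n 0 z (n 0 z (n 0 z (n
 0 z (n 0 z (n 0 z (n 0 z (n 0 z (n 0 z z)))))))))))) (n 553 (n 0 z (n 0 z (n 0 z (n 0 z (n 2 (n
 0 z z) (n 0 z (n 0 z (n 0 z (n 0 z (n 0 z (n 0 z (n 0 z z)))))))))))) (n 553 (n 0 z (n 0 z (n 2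
 z (n 0 z (n 0 z (n 0 z (n 0 z (n 0 z (n 0 z (n 0 z (n 0 z (n 0 z z)))))))))))) z)))))))))) (n 0
 (n 0 z (n 0 z (n 27 (n 0 z (n 0 z (n 0 z (n 0 z (n 0 z (n 0 z (n 0 z (n 0 z (n 0 z (n 0 z (n 0
 z (n 0 z z)))))))))))) (n 27 (n 0 z (n 0 z (n 0 z (n 0 z (n 0 z (n 0 z (n 0 z (n 0 z (n 0 z (n
 0 z (n 0 z (n 0 z z)))))))))))) (n 27 (n 0 z (n 0 z (n 0 z (n 0 z (n 0 z (n 0 z (n 0 z (n 0 z
 (n 2 (n 2 (n 0 z (n 0 z (n 0 z (n 0 z (n 0 z (n 0 z z)))))) (n 2 (n 0 z (n 0 z (n 0 z (n 0 z (n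
 0 z (n 0 z z)))))) (n 2 (n 0 z (n 0 z (n 0 z (n 0 z (n 0 z (n 0 z z)))))) (n 2 (n 0 z (n 0 z (n
 0 z (n 0 z (n 0 z (n 0 z z)))))) z)))) (n 0 z (n 0 z (n 0 z z)))))))))))) (n 17 (n 0 z (n 0 z
 (n 0 z (n 0 z (n 0 z (n 2 (n 0 z (n 0 z (n 0 z z))) (n 0 z (n 0 z (n 0 z (n 0 z (n 0 z (n 0 z
 z)))))))))))) (n 17 (n 0 z (n 0 z (n 0 z (n 0 z (n 0 z (n 0 z (n 0 z (n 0 z (n 0 z (n 0 z (n 0
 z (n 0 z z)))))))))))) (n 17 (n 0 z (n 0 z (n 0 z (n 0 z (n 0 z (n 0 z (n 0 z (n 0 z (n 0 z (n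
 0 z (n 0 z (n 0 z z)))))))))))) (n 17 (n 0 z (n 0 z (n 0 z (n 0 z (n 0 z (n 0 z (n 0 z (n 2 z
 (n 0 z (n 0 z (n 0 z (n 0 z z)))))))))))) z))))))))) (n 0 (n 0 z (n 247 (n 0 z (n 0 z (n 0 z (n
 0 z (n 0 z (n 0 z (n 0 z (n 0 z z)))))))) (n 247 (n 0 z (n 0 z (n 0 z (n 0 z (n 0 z (n 0 z (n 0
 z (n 0 z z)))))))) (n 247 (n 0 z (n 0 z (n 0 z (n 0 z (n 0 z (n 0 z (n 2 (n 2 (n 0 z (n 0 z (n
 0 z (n 0 z (n 0 z (n 0 z z)))))) (n 2 (n 0 z (n 0 z (n 0 z (n 0 z (n 0 z (n 0 z z)))))) (n 2 (n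
 0 z (n 0 z (n 0 z (n 0 z (n 0 z (n 0 (n 8790035 z z) z)))))) (n 2 (n 0 z (n 0 z (n 0 z (n 0 z
 (n 0 z (n 0 z z)))))) z)))) (n 0 z z)))))))) (n 17 (n 0 z (n 0 z (n 0 z (n 0 z (n 0 z (n 0 z (n
 0 z (n 0 z (n 0 z (n 0 z (n 0 z (n 0 z (n 0 z (n 0 z (n 0 z (n 0 z (n 0 z (n 0 z (n 0 z (n 0 z
 (n 0 z (n 0 z (n 0 z (n 0 z (n 0 z (n 0 z (n 0 z (n 0 z (n 0 z z)))))))))))))))))))))))))))))
 (n 17 (n 0 z (n 0 z (n 0 z (n 0 z (n 0 z (n 0 z (n 0 z (n 0 z (n 0 z (n 0 z (n 0 z (n 0 z (n 0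
 z (n 0 z (n 0 z (n 0 z (n 0 z (n 0 z (n 0 z (n 0 z (n 0 z (n 0 z (n 0 z (n 0 z (n 0 z (n 0 z (n
 0 z (n 0 z (n 0 z z))))))))))))))))))))))))))))) (n 17 (n 0 z (n 0 z (n 0 z (n 0 z (n 0 z (n 0
 z (n 0 z (n 0 z (n 0 z (n 0 z (n 0 z (n 0 z (n 0 z (n 0 z (n 0 z (n 0 z (n 0 z (n 0 z (n 0 z (n
 0 z (n 0 z (n 0 z (n 0 z (n 0 z (n 0 z (n 0 z (n 0 z (n 0 z (n 0 z
 z))))))))))))))))))))))))))))) (n 17 (n 0 z (n 0 z (n 0 z (n 0 z (n 0 z (n 0 z (n 0 z (n 0 z (n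
 2 z (n 0 z (n 0 z (n 0 z (n 0 z (n 0 z (n 0 z (n 0 z (n 0 z (n 0 z (n 0 z (n 0 z (n 0 z (n 0 z
 (n 0 z (n 0 z (n 0 z (n 0 z (n 0 z (n 0 z (n 0 z z))))))))))))))))))))))))))))) z)))))))) (n 0
 (n 247 (n 2 (n 0 z (n 0 z (n 2 (n 0 z (n 0 z (n 0 z (n 0 z (n 0 z (n 0 z z)))))) (n 2 (n 0 z (n
 0 z (n 0 z (n 0 z (n 0 z (n 0 z z)))))) (n 2 (n 0 z (n 0 z (n 0 z (n 0 z (n 0 z (n 0 z z))))))
 (n 2 (n 0 z (n 0 z (n 0 z (n 0 z (n 0 z (n 0 z z)))))) z)))))) (n 0 z (n 0 z (n 0 z (n 0 z (n 0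
 z (n 0 z (n 0 z (n 0 z (n 0 z (n 0 z (n 0 z (n 0 z (n 0 z z)))))))))))))) (n 247 (n 0 z (n 2 (n
 0 z (n 2 (n 0 z (n 0 z (n 0 z (n 0 z (n 0 z (n 0 z z)))))) (n 2 (n 0 z (n 0 z (n 0 z (n 0 z (n
 0 z (n 0 z z)))))) (n 2 (n 0 z (n 0 z (n 0 z (n 0 z (n 0 z (n 0 z z)))))) (n 2 (n 0 z (n 0 z (n
 0 z (n 0 z (n 0 z (n 0 z z)))))) z))))) (n 0 z (n 0 z (n 0 z (n 0 z (n 0 z (n 0 z (n 0 z (n 0 z
 (n 0 z (n 0 z (n 0 z (n 0 z z)))))))))))))) (n 247 (n 0 z (n 0 z (n 0 z (n 0 z (n 0 z (n 0 z (n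
 0 z (n 0 z (n 0 z (n 0 z (n 0 z (n 0 z (n 0 z (n 0 z z)))))))))))))) (n 17 (n 0 z (n 0 z (n 0 z
 (n 0 z (n 0 z (n 0 z (n 0 z (n 0 z (n 0 z (n 0 z (n 0 z (n 0 z (n 0 z (n 0 z z)))))))))))))) (n
 17 (n 0 z (n 0 z (n 0 z (n 0 z (n 0 z (n 0 z (n 0 z (n 0 z (n 0 z (n 2 (n 0 z (n 0 z z)) (n 0 z
 (n 0 z (n 0 z (n 0 z z)))))))))))))) (n 17 (n 0 z (n 0 z (n 0 z (n 2 (n 0 z z) (n 0 z (n 0 z (n
 0 z (n 0 z (n 0 z (n 0 z (n 0 z (n 0 z (n 0 z (n 0 z z)))))))))))))) (n 17 (n 0 z (n 0 z (n 0 z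
 (n 0 z (n 0 z (n 0 z (n 0 z (n 0 z (n 0 z (n 0 z (n 0 z (n 0 z (n 0 z (n 0 z z))))))))))))))
 z))))))) (n 0 (n 0 z (n 0 z (n 485 (n 0 z (n 0 z (n 0 z (n 0 z (n 0 z (n 0 z (n 0 z (n 0 z (n 0
 z (n 0 z (n 0 z (n 0 z (n 0 z (n 0 z (n 0 z (n 0 z (n 0 z (n 0 z (n 0 z (n 0 z (n 0 z (n 0 z (n
 0 z (n 0 z (n 0 z (n 0 z (n 0 z (n 2 (n 0 z (n 0 z (n 0 z z))) (n 0 z (n 0 z (n 0 z (n 0 z (n 0
 z (n 0 z (n 0 z (n 0 z (n 0 z (n 0 z (n 0 z (n 0 z (n 0 z (n 0 z (n 0 z (n 0 z (n 0 z (n 0 z (n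
 0 z z))))))))))))))))))))))))))))))))))))))))))))))) (n 485 (n 0 z (n 0 z (n 0 z (n 0 z (n 0 z
 (n 0 z (n 0 z (n 0 z (n 0 z (n 0 z (n 0 z (n 0 z (n 0 z (n 0 z (n 0 z (n 0 z (n 0 z (n 0 z (n 0
 z (n 0 z (n 0 z (n 0 z (n 0 z (n 0 z (n 0 z (n 0 z (n 0 z (n 0 z (n 0 z (n 0 z (n 0 z (n 0 z (n
 0 z (n 0 z (n 0 z (n 0 z (n 0 z (n 0 z (n 0 z (n 0 z (n 0 z (n 0 z (n 0 z (n 0 z (n 0 z (n 0 z
 (n 0 z z))))))))))))))))))))))))))))))))))))))))))))))) (n 485 (n 0 z (n 0 z (n 0 z (n 0 z (n 0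
 z (n 0 z (n 0 z (n 0 z (n 0 z (n 0 z (n 0 z (n 0 z (n 0 z (n 0 z (n 0 z (n 0 z (n 0 z (n 0 z (n
 0 z (n 0 z (n 0 z (n 0 z (n 0 z (n 0 z (n 0 z (n 0 z (n 0 z (n 0 z (n 0 z (n 0 z (n 0 z (n 0 z
 (n 0 z (n 0 z (n 0 z (n 0 z (n 0 z (n 0 z (n 0 z (n 0 z (n 0 z (n 0 z (n 0 z (n 0 z (n 0 z (n 0
 z (n 0 z z))))))))))))))))))))))))))))))))))))))))))))))) (n 485 (n 0 z (n 0 z (n 0 z (n 0 z (n
 0 z (n 0 z (n 0 z (n 0 z (n 0 z (n 0 z (n 0 z (n 0 z (n 0 z (n 0 z (n 0 z (n 0 z (n 0 z (n 0 z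
 (n 0 z (n 0 z (n 0 z (n 0 z (n 0 z (n 0 z (n 0 z (n 0 z (n 0 z (n 0 z (n 0 z (n 0 z (n 0 z (n 0
 z (n 0 z (n 2 z (n 0 z (n 0 z (n 0 z (n 0 z (n 0 z (n 0 z (n 0 z (n 0 z (n 0 z (n 0 z (n 0 z (n
 0 z (n 0 z z))))))))))))))))))))))))))))))))))))))))))))))) z)))))) (n 0 (n 0 z (n 485 (n 0 z
 (n 0 z (n 0 z (n 0 z (n 0 z (n 0 z (n 0 z (n 0 z (n 0 z (n 0 z (n 0 z (n 0 z (n 0 z (n 0 z (n 0
 z (n 0 z (n 0 z (n 0 z (n 0 z (n 0 z (n 0 z (n 0 z (n 0 z (n 0 z (n 0 z (n 0 z (n 0 z (n 0 z (n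
 0 z (n 0 z (n 0 z (n 0 z (n 0 z (n 0 z (n 0 z (n 0 z (n 0 z (n 0 z (n 0 z (n 0 z (n 0 z (n 0 z
 (n 0 z (n 0 z (n 0 z (n 0 z (n 0 z (n 0 z (n 0 z
 z))))))))))))))))))))))))))))))))))))))))))))))))) (n 485 (n 0 z (n 0 z (n 0 z (n 0 z (n 0 z (n
 0 z (n 0 z (n 0 z (n 0 z (n 0 z (n 0 z (n 0 z (n 0 z (n 0 z (n 0 z (n 0 z (n 0 z (n 0 z (n 0 z
 (n 0 z (n 0 z (n 0 z (n 0 z (n 0 z (n 0 z (n 0 z (n 0 z (n 0 z (n 0 z (n 0 z (n 0 z (n 0 z (n 0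
 z (n 0 z (n 0 z (n 0 z (n 0 z (n 0 z (n 0 z (n 0 z (n 0 z (n 0 z (n 0 z (n 0 z (n 0 z (n 0 z (n
 0 z (n 0 z (n 0 z z))))))))))))))))))))))))))))))))))))))))))))))))) (n 485 (n 0 z (n 0 z (n 0
 z (n 0 z (n 0 z (n 0 z (n 0 z (n 0 z (n 0 z (n 0 z (n 0 z (n 0 z (n 0 z (n 0 z (n 0 z (n 0 z (n
 0 z (n 0 z (n 0 z (n 0 z (n 0 z (n 0 z (n 0 z (n 0 z (n 0 z (n 0 z (n 0 z (n 0 z (n 0 z (n 0 z
 (n 0 z (n 0 z (n 0 z (n 0 z (n 0 z (n 0 z (n 0 z (n 0 z (n 0 z (n 0 z (n 0 z (n 0 z (n 0 z (n 0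
 z (n 0 z (n 0 z (n 0 z (n 0 z (n 0 z z))))))))))))))))))))))))))))))))))))))))))))))))) (n 485
 (n 0 z (n 0 z (n 0 z (n 0 z (n 0 z (n 0 z (n 2 z (n 0 z (n 0 z (n 0 z (n 0 z (n 0 z (n 0 z (n 0
 z (n 0 z (n 0 z (n 0 z (n 0 z (n 0 z (n 0 z (n 0 z (n 0 z (n 0 z (n 0 z (n 0 z (n 0 z (n 0 z (n
 0 z (n 0 z (n 0 z (n 0 z (n 0 z (n 0 z (n 0 z (n 0 z (n 0 z (n 0 z (n 0 z (n 0 z (n 0 z (n 0 z
 (n 0 z (n 0 z (n 0 z (n 0 z (n 0 z (n 0 z (n 0 z (n 0 z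
 z))))))))))))))))))))))))))))))))))))))))))))))))) z))))) (n 0 (n 485 (n 0 z (n 0 z (n 0 z (n 0
 z (n 0 z (n 0 z (n 0 z (n 0 z (n 0 z z))))))))) (n 485 (n 0 z (n 0 z (n 0 z (n 0 z (n 0 z (n 0
 z (n 2 (n 0 z (n 0 z z)) (n 0 z (n 0 z z))))))))) (n 485 (n 0 z (n 0 z (n 2 (n 0 z z) (n 0 z (n
 0 z (n 0 z (n 0 z (n 0 z (n 0 z z))))))))) (n 485 (n 0 z (n 0 z (n 0 z (n 0 z (n 0 z (n 0 z (n
 0 z (n 0 z (n 0 z z))))))))) z)))) (n 0 (n 0 z (n 0 z (n 0 z z))) (n 0 (n 0 z (n 0 z z)) (n 0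
 (n 0 z z) (n 0 z z))))))))))) (n 0 (n 1 (n 2236 z (n 2236 z (n 2236 z (n 2236 z (n 2044 z (n
 2236 z z)))))) (n 1 (n 2236 z (n 2236 z (n 2236 z (n 2236 z (n 2236 z (n 2236 z z)))))) (n 0 z
 (n 0 z (n 0 z (n 1 (n 2236 z (n 2236 z (n 2236 z (n 2236 z (n 2236 z (n 4400731 z z)))))) (n 1
 (n 6496515 z (n 6496515 z (n 6496515 z (n 6496515 z (n 6496515 z (n 6496515 z z)))))) z)))))))
 (n 0 z z)))) z)))))))))), by decide +kernel⟩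

theorem g7_70 : RgOk KT RW [11259, 11267, 11274, 11276, 11286, 11296, 11306] := ⟨i11259, ⟨i11267, ⟨i11274, ⟨i11276, ⟨i11286, ⟨i11296, True.intro⟩⟩⟩⟩⟩⟩

end Pool.Agent.Lib.EPS9
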