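import Mathlib

/-!
Squared distances between points of the plane in general position: the relations used by the
certificates.
-/

set_option autoImplicit false

namespace Pool.Agent.Lib.EPS9

/-- sixteen times the squared area of a triangle with squared sides `a`, `b`, `c` -/
def tri {R : Type*} [CommRing R] (a b c : R) : R := 2 * (a * b + b * c + c * a) - a ^ 2 - b ^ 2 - c ^ 2

/-- twice the inner product of the vectors from `b` to `i` and from `b` to `j` -/
def gr {ι R : Type*} [CommRing R] (D : ι → ι → R) (b i j : ι) : R := D b i + D b j - D i j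

/-- a determinant of size three -/
def det3 {R : Type*} [CommRing R] (m : Fin 3 → Fin 3 → R) : R :=
  m 0 0 * (m 1 1 * m 2 2 - m 1 2 * m 2 1) - m 0 1 * (m 1 0 * m 2 2 - m 1 2 * m 2 0)
    + m 0 2 * (m 1 0 * m 2 1 - m 1 1 * m 2 0)

/-- `D` behaves like the squared distances of plane points, no three on a line and no four on a
circle -/
structure Geo {ι : Type*} (D : ι → ι → ℝ) : Prop where
  self : ∀ i, D i i = 0
  symm : ∀ i j, D i j = D j i
  pos : ∀ i j, i ≠ j → 0 < D i j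
  minor : ∀ (b : ι) (r c : Fin 3 → ι), det3 (fun s t => gr D b (r s) (c t)) = 0
  tri_pos : ∀ i j k, i ≠ j → i ≠ k → j ≠ k → 0 < tri (D i j) (D i k) (D j k)
  kite : ∀ a d b c, a ≠ d → b ≠ c → D a b = D a c → D d b = D d c →
    tri (D a d) (D a b) (D d b) = D a d * D b c
  para : ∀ a b c d, a ≠ b → a ≠ c → a ≠ d → b ≠ c → b ≠ d → c ≠ d →
    D a c = D b d → D a d = D b c → D a b + D c d = 2 * (D a c + D a d)
  paraP : ∀ a b c d p, a ≠ b → a ≠ c → a ≠ d → b ≠ c → b ≠ d → c ≠ d →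
    D a c = D b d → D a d = D b c → 2 * (D p a + D p b - D p c - D p d) = D a b - D c d
  star : ∀ v a b c d, a ≠ b → a ≠ c → a ≠ d → b ≠ c → b ≠ d → c ≠ d →
    ¬ (D v a = D v b ∧ D v a = D v c ∧ D v a = D v d)
  bis : ∀ a b u v w, a ≠ b → u ≠ v → u ≠ w → v ≠ w →
    ¬ (D a u = D b u ∧ D a v = D b v ∧ D a w = D b w)

theorem Geo.comp {ι κ : Type*} {D : ι → ι → ℝ} (h : Geo D) {f : κ → ι}
    (hf : Function.Injective f) : Geo (fun i j => D (f i) (f j)) where
  self i := h.self _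
  symm i j := h.symm _ _
  pos i j hij := h.pos _ _ (hf.ne hij)
  minor b r c := h.minor (f b) (fun s => f (r s)) (fun t => f (c t))
  tri_pos i j k h1 h2 h3 := h.tri_pos _ _ _ (hf.ne h1) (hf.ne h2) (hf.ne h3)
  kite a d b c h1 h2 h3 h4 := h.kite _ _ _ _ (hf.ne h1) (hf.ne h2) h3 h4
  para a b c d h1 h2 h3 h4 h5 h6 h7 h8 := h.para _ _ _ _ (hf.ne h1) (hf.ne h2) (hf.ne h3)
    (hf.ne h4) (hf.ne h5) (hf.ne h6) h7 h8
  paraP a b c d p h1 h2 h3 h4 h5 h6 h7 h8 := h.paraP _ _ _ _ _ (hf.ne h1) (hf.ne h2) (hf.ne h3)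
    (hf.ne h4) (hf.ne h5) (hf.ne h6) h7 h8
  star v a b c d h1 h2 h3 h4 h5 h6 := h.star _ _ _ _ _ (hf.ne h1) (hf.ne h2) (hf.ne h3)
    (hf.ne h4) (hf.ne h5) (hf.ne h6)
  bis a b u v w h1 h2 h3 h4 := h.bis _ _ _ _ _ (hf.ne h1) (hf.ne h2) (hf.ne h3) (hf.ne h4)

/-! ### Coordinates -/

/-- twice the area of a triangle -/
def crs {ι : Type*} (X Y : ι → ℝ) (i j k : ι) : ℝ :=
  (X j - X i) * (Y k - Y i) - (X k - X i) * (Y j - Y i)

/-- the squared distance in coordinates -/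
def dsq {ι : Type*} (X Y : ι → ℝ) (i j : ι) : ℝ := (X i - X j) ^ 2 + (Y i - Y j) ^ 2

/-- points in coordinates, no three on a line and no four on a circle -/
structure Pts {ι : Type*} (X Y : ι → ℝ) : Prop where
  inj : ∀ i j, i ≠ j → X i ≠ X j ∨ Y i ≠ Y j
  ncol : ∀ i j k, i ≠ j → i ≠ k → j ≠ k → crs X Y i j k ≠ 0
  ncon : ∀ i j k l, i ≠ j → i ≠ k → i ≠ l → j ≠ k → j ≠ l → k ≠ l → ∀ u v : ℝ,
    ¬ ((X i - u) ^ 2 + (Y i - v) ^ 2 = (X j - u) ^ 2 + (Y j - v) ^ 2 ∧
      (X i - u) ^ 2 + (Y i - v) ^ 2 = (X k - u) ^ 2 + (Y k - v) ^ 2 ∧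
      (X i - u) ^ 2 + (Y i - v) ^ 2 = (X l - u) ^ 2 + (Y l - v) ^ 2)

lemma crs_zero {a b c d u v : ℝ} (h : u ≠ 0 ∨ v ≠ 0) (h1 : a * u + b * v = 0)
    (h2 : c * u + d * v = 0) : a * d - c * b = 0 := by
  rcases h with h | h
  · have : u * (a * d - c * b) = 0 := by linear_combination d * h1 - b * h2
    exact (mul_eq_zero.1 this).resolve_left h
  · have : v * (a * d - c * b) = 0 := by linear_combination a * h2 - c * h1
    exact (mul_eq_zero.1 this).resolve_left h

namespace Pts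

variable {ι : Type*} {X Y : ι → ℝ} (h : Pts X Y)
include h

lemma sub_ne (i j : ι) (hij : i ≠ j) : X i - X j ≠ 0 ∨ Y i - Y j ≠ 0 := by
  rcases h.inj i j hij with h1 | h1
  · exact Or.inl (sub_ne_zero.2 h1)
  · exact Or.inr (sub_ne_zero.2 h1)

lemma dsq_pos (i j : ι) (hij : i ≠ j) : 0 < dsq X Y i j := by
  unfold dsq
  rcases h.sub_ne i j hij with h1 | h1
  · have := pow_pos (abs_pos.2 h1) 2
    rw [sq_abs] at this
    nlinarith [sq_nonneg (Y i - Y j)]
  · have := pow_pos (abs_pos.2 h1) 2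
    rw [sq_abs] at this
    nlinarith [sq_nonneg (X i - X j)]

lemma kite' (a d b c : ι) (hbc : b ≠ c) (h1 : dsq X Y a b = dsq X Y a c)
    (h2 : dsq X Y d b = dsq X Y d c) :
    tri (dsq X Y a d) (dsq X Y a b) (dsq X Y d b) = dsq X Y a d * dsq X Y b c := by
  unfold dsq at h1 h2
  -- orthogonality
  have e1 : (X d - X a) * (X b - X c) + (Y d - Y a) * (Y b - Y c) = 0 := by
    linear_combination (h1 - h2) / 2
  have e2 : ((X b + X c) / 2 - X a) * (X b - X c) + ((Y b + Y c) / 2 - Y a) * (Y b - Y c) = 0 := by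
    linear_combination h1 / 2
  have e3 := crs_zero (h.sub_ne b c hbc) e1 e2
  have e4 : (X d - X a) * (Y b - Y a) - (X b - X a) * (Y d - Y a) =
      ((X d - X a) * (Y b - Y c) - (X b - X c) * (Y d - Y a)) / 2 := by
    linear_combination e3
  have e5 : tri (dsq X Y a d) (dsq X Y a b) (dsq X Y d b) =
      4 * ((X d - X a) * (Y b - Y a) - (X b - X a) * (Y d - Y a)) ^ 2 := by
    unfold tri dsq
    ring
  rw [e5, e4]
  unfold dsq
  linear_combination (-1) * ((X d - X a) * (X b - X c) + (Y d - Y a) * (Y b - Y c)) * e1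

/-- opposite sides of equal length: a parallelogram -/
lemma mid (a b c d : ι) (hab : a ≠ b) (hac : a ≠ c) (had : a ≠ d) (hbc : b ≠ c) (hbd : b ≠ d)
    (hcd : c ≠ d) (h1 : dsq X Y a c = dsq X Y b d) (h2 : dsq X Y a d = dsq X Y b c) :
    X a + X b = X c + X d ∧ Y a + Y b = Y c + Y d := by
  unfold dsq at h1 h2
  by_contra hs
  have hs0 : 0 < (X a + X b - X c - X d) ^ 2 + (Y a + Y b - Y c - Y d) ^ 2 := by
    by_contra hn
    apply hs
    have e1 := sq_nonneg (X a + X b - X c - X d)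
    have e2 := sq_nonneg (Y a + Y b - Y c - Y d)
    have e3 : (X a + X b - X c - X d) ^ 2 = 0 := by linarith
    have e4 : (Y a + Y b - Y c - Y d) ^ 2 = 0 := by linarith
    have e5 := pow_eq_zero_iff (two_ne_zero) |>.1 e3
    have e6 := pow_eq_zero_iff (two_ne_zero) |>.1 e4
    constructor <;> linarith
  have e1 : (X a - X b) * (X a + X b - X c - X d) + (Y a - Y b) * (Y a + Y b - Y c - Y d) = 0 := by
    linear_combination (h1 + h2) / 2
  have e2 : (X c - X d) * (X a + X b - X c - X d) + (Y c - Y d) * (Y a + Y b - Y c - Y d) = 0 := by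
    linear_combination (h2 - h1) / 2
  obtain ⟨t, ht⟩ : ∃ t : ℝ, (1 + 2 * t) * ((X a + X b - X c - X d) ^ 2 +
      (Y a + Y b - Y c - Y d) ^ 2) = ((X a - X b) ^ 2 + (Y a - Y b) ^ 2) -
        ((X c - X d) ^ 2 + (Y c - Y d) ^ 2) := by
    refine ⟨((((X a - X b) ^ 2 + (Y a - Y b) ^ 2) - ((X c - X d) ^ 2 + (Y c - Y d) ^ 2)) /
      ((X a + X b - X c - X d) ^ 2 + (Y a + Y b - Y c - Y d) ^ 2) - 1) / 2, ?_⟩
    have hs1 := hs0.ne'
    field_simp
    ring
  refine h.ncon a b c d hab hac had hbc hbd hcd ((X a + X b) / 2 + t * (X a + X b - X c - X d) / 2)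
    ((Y a + Y b) / 2 + t * (Y a + Y b - Y c - Y d) / 2) ⟨?_, ?_, ?_⟩
  · linear_combination (-t) * e1
  · linear_combination (-1 / 4) * ht + (-t / 2) * e1 + ((1 + t) / 2) * e2
  · linear_combination (-1 / 4) * ht + (-t / 2) * e1 - ((1 + t) / 2) * e2

theorem geo : Geo (dsq X Y) where
  self i := by unfold dsq; ring
  symm i j := by unfold dsq; ring
  pos := h.dsq_pos
  minor b r c := by
    have e : ∀ i j, gr (dsq X Y) b i j =
        2 * ((X i - X b) * (X j - X b) + (Y i - Y b) * (Y j - Y b)) := by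
      intro i j
      unfold gr dsq
      ring
    simp only [e]
    unfold det3
    ring
  tri_pos i j k h1 h2 h3 := by
    have e : tri (dsq X Y i j) (dsq X Y i k) (dsq X Y j k) = 4 * crs X Y i j k ^ 2 := by
      unfold tri dsq crs
      ring
    rw [e]
    have := pow_pos (abs_pos.2 (h.ncol i j k h1 h2 h3)) 2
    rw [sq_abs] at this
    linarith
  kite a d b c _ h2 h3 h4 := h.kite' a d b c h2 h3 h4
  para a b c d h1 h2 h3 h4 h5 h6 h7 h8 := by
    obtain ⟨e1, e2⟩ := h.mid a b c d h1 h2 h3 h4 h5 h6 h7 h8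
    unfold dsq
    linear_combination (X b - 3 * X a + X c + X d) * e1 + (Y b - 3 * Y a + Y c + Y d) * e2
  paraP a b c d p h1 h2 h3 h4 h5 h6 h7 h8 := by
    obtain ⟨e1, e2⟩ := h.mid a b c d h1 h2 h3 h4 h5 h6 h7 h8
    unfold dsq
    linear_combination (X a + X b + X c + X d - 4 * X p) * e1 +
      (Y a + Y b + Y c + Y d - 4 * Y p) * e2
  star v a b c d h1 h2 h3 h4 h5 h6 := by
    rintro ⟨e1, e2, e3⟩
    unfold dsq at e1 e2 e3
    refine h.ncon a b c d h1 h2 h3 h4 h5 h6 (X v) (Y v) ⟨?_, ?_, ?_⟩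
    · linear_combination e1
    · linear_combination e2
    · linear_combination e3
  bis a b u v w h1 h2 h3 h4 := by
    rintro ⟨e1, e2, e3⟩
    unfold dsq at e1 e2 e3
    apply h.ncol u v w h2 h3 h4
    unfold crs
    have e4 : (X v - X u) * (X a - X b) + (Y v - Y u) * (Y a - Y b) = 0 := by
      linear_combination (e1 - e2) / 2
    have e5 : (X w - X u) * (X a - X b) + (Y w - Y u) * (Y a - Y b) = 0 := by
      linear_combination (e1 - e3) / 2
    exact crs_zero (h.sub_ne a b h1) e4 e5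

end Pts

lemma dist_sq_eq (p q : EuclideanSpace ℝ (Fin 2)) :
    dist p q ^ 2 = (p 0 - q 0) ^ 2 + (p 1 - q 1) ^ 2 := by
  rw [EuclideanSpace.dist_eq, Real.sq_sqrt (Finset.sum_nonneg fun _ _ => sq_nonneg _),
    Fin.sum_univ_two, Real.dist_eq, Real.dist_eq, sq_abs, sq_abs]

lemma pts_of_points {ι : Type*} (P : ι → EuclideanSpace ℝ (Fin 2)) (hinj : Function.Injective P)
    (hcol : ∀ i j k, i ≠ j → i ≠ k → j ≠ k →
      ¬ Collinear ℝ ({P i, P j, P k} : Set (EuclideanSpace ℝ (Fin 2))))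
    (hconc : ∀ i j k l, i ≠ j → i ≠ k → i ≠ l → j ≠ k → j ≠ l → k ≠ l →
      ¬ EuclideanGeometry.Concyclic ({P i, P j, P k, P l} : Set (EuclideanSpace ℝ (Fin 2)))) :
    Pts (fun i => P i 0) (fun i => P i 1) := by
  have hne : ∀ i j, i ≠ j → P i 0 ≠ P j 0 ∨ P i 1 ≠ P j 1 := by
    intro i j hij
    by_contra hn
    push Not at hn
    apply hij
    apply hinj
    ext k
    fin_cases k
    · exact hn.1
    · exact hn.2
  refine ⟨hne, ?_, ?_⟩
  · intro i j k hij hik hjk h0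
    unfold crs at h0
    dsimp only at h0
    apply hcol i j k hij hik hjk
    rw [collinear_iff_of_mem (p₀ := P i) (by simp)]
    refine ⟨P j - P i, ?_⟩
    have hS : 0 < (P j 0 - P i 0) ^ 2 + (P j 1 - P i 1) ^ 2 := by
      rcases hne j i hij.symm with h1 | h1
      · have := pow_pos (abs_pos.2 (sub_ne_zero.2 h1)) 2
        rw [sq_abs] at this
        nlinarith [sq_nonneg (P j 1 - P i 1)]
      · have := pow_pos (abs_pos.2 (sub_ne_zero.2 h1)) 2
        rw [sq_abs] at this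
        nlinarith [sq_nonneg (P j 0 - P i 0)]
    have hS' := hS.ne'
    intro p hp
    simp only [Set.mem_insert_iff, Set.mem_singleton_iff] at hp
    rcases hp with rfl | rfl | rfl
    · exact ⟨0, by simp⟩
    · exact ⟨1, by simp⟩
    · refine ⟨((P j 0 - P i 0) * (P k 0 - P i 0) + (P j 1 - P i 1) * (P k 1 - P i 1)) /
        ((P j 0 - P i 0) ^ 2 + (P j 1 - P i 1) ^ 2), ?_⟩
      ext l
      fin_cases l
      · show P k 0 = _ * (P j 0 - P i 0) + P i 0
        field_simp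
        linear_combination (-1) * (P j 1 - P i 1) * h0
      · show P k 1 = _ * (P j 1 - P i 1) + P i 1
        field_simp
        linear_combination (P j 0 - P i 0) * h0
  · intro i j k l h1 h2 h3 h4 h5 h6 u v
    rintro ⟨e1, e2, e3⟩
    dsimp only at e1 e2 e3
    apply hconc i j k l h1 h2 h3 h4 h5 h6
    refine ⟨⟨(!₂[u, v] : EuclideanSpace ℝ (Fin 2)), dist (P i) !₂[u, v], ?_⟩,
      coplanar_of_finrank_eq_two _ (by simp)⟩
    have key : ∀ q : EuclideanSpace ℝ (Fin 2), (P i 0 - u) ^ 2 + (P i 1 - v) ^ 2 =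
        (q 0 - u) ^ 2 + (q 1 - v) ^ 2 → dist q !₂[u, v] = dist (P i) !₂[u, v] := by
      intro q hq
      have e4 : dist q !₂[u, v] ^ 2 = dist (P i) !₂[u, v] ^ 2 := by
        rw [dist_sq_eq, dist_sq_eq]
        simpa using hq.symm
      exact (sq_eq_sq₀ dist_nonneg dist_nonneg).1 e4
    intro p hp
    simp only [Set.mem_insert_iff, Set.mem_singleton_iff] at hp
    rcases hp with rfl | rfl | rfl | rfl
    · rfl
    · exact key _ e1
    · exact key _ e2
    · exact key _ e3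

theorem geo_of_points {ι : Type*} (P : ι → EuclideanSpace ℝ (Fin 2)) (hinj : Function.Injective P)
    (hcol : ∀ i j k, i ≠ j → i ≠ k → j ≠ k →
      ¬ Collinear ℝ ({P i, P j, P k} : Set (EuclideanSpace ℝ (Fin 2))))
    (hconc : ∀ i j k l, i ≠ j → i ≠ k → i ≠ l → j ≠ k → j ≠ l → k ≠ l →
      ¬ EuclideanGeometry.Concyclic ({P i, P j, P k, P l} : Set (EuclideanSpace ℝ (Fin 2)))) :
    Geo (fun i j => dist (P i) (P j) ^ 2) := by
  have h := (pts_of_points P hinj hcol hconc).geo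
  have e : (fun i j => dist (P i) (P j) ^ 2) = dsq (fun i => P i 0) (fun i => P i 1) := by
    funext i j
    exact dist_sq_eq _ _
  rw [e]
  exact h

end Pool.Agent.Lib.EPS9
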