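import Pool.Agent.Lib.MP_c7e7f6_eps.DenseT
import Pool.Agent.Lib.MP_c7e7f6_eps.Geo

/-!
The weighted sum of the fifty minors as a form: norm, degree, value at plane points.
-/

set_option autoImplicit false
set_option linter.unusedVariables false
set_option linter.style.longLine false

namespace Pool.Agent.Lib.EPS9

open MvPolynomial

/-- `P` is homogeneous of degree `d` and the sum of the absolute values of its coefficients is at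
most `B` -/
def Nb (P : MvPolynomial (Fin 6) ℤ) (d B : ℕ) : Prop := P.IsHomogeneous d ∧ norm1 P ≤ B

theorem Nb.mono {P : MvPolynomial (Fin 6) ℤ} {d B C : ℕ} (h : Nb P d B) (hBC : B ≤ C) : Nb P d C :=
  ⟨h.1, h.2.trans hBC⟩

theorem Nb.add {P Q : MvPolynomial (Fin 6) ℤ} {d B C : ℕ} (h : Nb P d B) (h' : Nb Q d C) :
    Nb (P + Q) d (B + C) :=
  ⟨h.1.add h'.1, (norm1_add_le _ _).trans (Nat.add_le_add h.2 h'.2)⟩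

theorem Nb.sub {P Q : MvPolynomial (Fin 6) ℤ} {d B C : ℕ} (h : Nb P d B) (h' : Nb Q d C) :
    Nb (P - Q) d (B + C) :=
  ⟨h.1.sub h'.1, (norm1_sub_le _ _).trans (Nat.add_le_add h.2 h'.2)⟩

theorem Nb.mul {P Q : MvPolynomial (Fin 6) ℤ} {d e B C : ℕ} (h : Nb P d B) (h' : Nb Q e C) :
    Nb (P * Q) (d + e) (B * C) :=
  ⟨h.1.mul h'.1, (norm1_mul_le _ _).trans (Nat.mul_le_mul h.2 h'.2)⟩

theorem Nb.const (c : ℤ) : Nb (C c) 0 c.natAbs := ⟨isHomogeneous_C _ _, (norm1_C c).le⟩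

theorem Nb.zero (d B : ℕ) : Nb 0 d B := ⟨isHomogeneous_zero _ _ _, by rw [norm1_zero]; omega⟩

theorem Nb.var (i : Fin 6) : Nb (X i) 1 1 := ⟨isHomogeneous_X _ _, (norm1_X i).le⟩

theorem Nb.two_mul {P : MvPolynomial (Fin 6) ℤ} {d B : ℕ} (h : Nb P d B) : Nb (2 * P) d (2 * B) := by
  rw [_root_.two_mul, _root_.two_mul]
  exact h.add h

theorem Nb.det9 {m : ℕ} {a b c d e f g h i : MvPolynomial (Fin 6) ℤ} (ha : Nb a 1 m) (hb : Nb b 1 m)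
    (hc : Nb c 1 m) (hd : Nb d 1 m) (he : Nb e 1 m) (hf : Nb f 1 m) (hg : Nb g 1 m)
    (hh : Nb h 1 m) (hi : Nb i 1 m) : Nb (EPS9.det9 a b c d e f g h i) 3 (6 * m ^ 3) := by
  refine Nb.mono (Nb.add (Nb.sub (ha.mul ((he.mul hi).sub (hf.mul hh)))
    (hb.mul ((hd.mul hi).sub (hf.mul hg)))) (hc.mul ((hd.mul hh).sub (he.mul hg)))) (le_of_eq ?_)
  ring

theorem Nb.leaf {c B : ℕ} {w P : MvPolynomial (Fin 6) ℤ} (hw : Nb w 0 c) (hP : Nb P 3 B) :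
    Nb (w * P) 3 (c * B) := by
  have := hw.mul hP
  rwa [zero_add] at this

theorem add0 {R : Type*} [CommRing R] {a b : R} (ha : a = 0) (hb : b = 0) : a + b = 0 := by
  rw [ha, hb, add_zero]

/-- the weighted sum of the fifty minors of the Gram matrix of six points with squared distances `f i
  j`, `i < j` -/
def dsumf {R : Type*} [CommRing R] (w : ℕ → R) (f : ℕ → ℕ → R) : R := dsum w (2 * f 0
  1) (f 0 1 + f 0 2 - f 1 2) (f 0 1 + f 0 3 - f 1 3) (f 0 1 + f 0 4 - f 1 4) (f 0 1 + f 0 5 - f 1 5) (2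
  * f 0 2) (f 0 2 + f 0 3 - f 2 3) (f 0 2 + f 0 4 - f 2 4) (f 0 2 + f 0 5 - f 2 5) (2 * f 0 3) (f 0 3 +
  f 0 4 - f 3 4) (f 0 3 + f 0 5 - f 3 5) (2 * f 0 4) (f 0 4 + f 0 5 - f 4 5) (2 * f 0 5)

theorem map_dsumf {R S : Type*} [CommRing R] [CommRing S] (φ : R →+* S) (w : ℕ → R)
    (f : ℕ → ℕ → R) : φ (dsumf w f) = dsumf (fun t => φ (w t)) (fun i j => φ (f i j)) := by
  simp only [dsumf, dsum, det9, map_add, map_sub, map_mul, map_ofNat]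

theorem dsum_nb {w : ℕ → MvPolynomial (Fin 6) ℤ} {c m : ℕ} (hw : ∀ t, Nb (w t) 0 c) {z00 z01 z02 z03
  z04 z11 z12 z13 z14 z22 z23 z24 z33 z34 z44 : MvPolynomial (Fin 6) ℤ} (Hz00 : Nb z00 1 m) (Hz01 : Nb
  z01 1 m) (Hz02 : Nb z02 1 m) (Hz03 : Nb z03 1 m) (Hz04 : Nb z04 1 m) (Hz11 : Nb z11 1 m) (Hz12 : Nb
  z12 1 m) (Hz13 : Nb z13 1 m) (Hz14 : Nb z14 1 m) (Hz22 : Nb z22 1 m) (Hz23 : Nb z23 1 m) (Hz24 : Nb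
  z24 1 m) (Hz33 : Nb z33 1 m) (Hz34 : Nb z34 1 m) (Hz44 : Nb z44 1 m) : Nb (dsum w z00 z01 z02 z03 z04
  z11 z12 z13 z14 z22 z23 z24 z33 z34 z44) 3 (50 * (c * (6 * m ^ 3))) := by
  refine Nb.mono (Nb.add (Nb.add (Nb.add (Nb.add (Nb.add (Nb.leaf (hw 0) (Nb.det9 Hz00 Hz01 Hz02 Hz01
    Hz11 Hz12 Hz02 Hz12 Hz22)) (Nb.add (Nb.leaf (hw 1) (Nb.det9 Hz00 Hz01 Hz03 Hz01 Hz11 Hz13 Hz02 Hz12
    Hz23)) (Nb.leaf (hw 2) (Nb.det9 Hz00 Hz01 Hz04 Hz01 Hz11 Hz14 Hz02 Hz12 Hz24)))) (Nb.add (Nb.leaf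
    (hw 3) (Nb.det9 Hz00 Hz02 Hz03 Hz01 Hz12 Hz13 Hz02 Hz22 Hz23)) (Nb.add (Nb.leaf (hw 4) (Nb.det9
    Hz00 Hz02 Hz04 Hz01 Hz12 Hz14 Hz02 Hz22 Hz24)) (Nb.leaf (hw 5) (Nb.det9 Hz00 Hz03 Hz04 Hz01 Hz13
    Hz14 Hz02 Hz23 Hz24))))) (Nb.add (Nb.add (Nb.leaf (hw 6) (Nb.det9 Hz01 Hz02 Hz03 Hz11 Hz12 Hz13
    Hz12 Hz22 Hz23)) (Nb.add (Nb.leaf (hw 7) (Nb.det9 Hz01 Hz02 Hz04 Hz11 Hz12 Hz14 Hz12 Hz22 Hz24))
    (Nb.leaf (hw 8) (Nb.det9 Hz01 Hz03 Hz04 Hz11 Hz13 Hz14 Hz12 Hz23 Hz24)))) (Nb.add (Nb.leaf (hw 9)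
    (Nb.det9 Hz02 Hz03 Hz04 Hz12 Hz13 Hz14 Hz22 Hz23 Hz24)) (Nb.add (Nb.leaf (hw 10) (Nb.det9 Hz00 Hz01
    Hz03 Hz01 Hz11 Hz13 Hz03 Hz13 Hz33)) (Nb.leaf (hw 11) (Nb.det9 Hz00 Hz01 Hz04 Hz01 Hz11 Hz14 Hz03
    Hz13 Hz34)))))) (Nb.add (Nb.add (Nb.add (Nb.leaf (hw 12) (Nb.det9 Hz00 Hz02 Hz03 Hz01 Hz12 Hz13
    Hz03 Hz23 Hz33)) (Nb.add (Nb.leaf (hw 13) (Nb.det9 Hz00 Hz02 Hz04 Hz01 Hz12 Hz14 Hz03 Hz23 Hz34))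
    (Nb.leaf (hw 14) (Nb.det9 Hz00 Hz03 Hz04 Hz01 Hz13 Hz14 Hz03 Hz33 Hz34)))) (Nb.add (Nb.leaf (hw 15)
    (Nb.det9 Hz01 Hz02 Hz03 Hz11 Hz12 Hz13 Hz13 Hz23 Hz33)) (Nb.add (Nb.leaf (hw 16) (Nb.det9 Hz01 Hz02
    Hz04 Hz11 Hz12 Hz14 Hz13 Hz23 Hz34)) (Nb.leaf (hw 17) (Nb.det9 Hz01 Hz03 Hz04 Hz11 Hz13 Hz14 Hz13
    Hz33 Hz34))))) (Nb.add (Nb.add (Nb.leaf (hw 18) (Nb.det9 Hz02 Hz03 Hz04 Hz12 Hz13 Hz14 Hz23 Hz33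
    Hz34)) (Nb.add (Nb.leaf (hw 19) (Nb.det9 Hz00 Hz01 Hz04 Hz01 Hz11 Hz14 Hz04 Hz14 Hz44)) (Nb.leaf
    (hw 20) (Nb.det9 Hz00 Hz02 Hz04 Hz01 Hz12 Hz14 Hz04 Hz24 Hz44)))) (Nb.add (Nb.add (Nb.leaf (hw 21)
    (Nb.det9 Hz00 Hz03 Hz04 Hz01 Hz13 Hz14 Hz04 Hz34 Hz44)) (Nb.leaf (hw 22) (Nb.det9 Hz01 Hz02 Hz04
    Hz11 Hz12 Hz14 Hz14 Hz24 Hz44))) (Nb.add (Nb.leaf (hw 23) (Nb.det9 Hz01 Hz03 Hz04 Hz11 Hz13 Hz14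
    Hz14 Hz34 Hz44)) (Nb.leaf (hw 24) (Nb.det9 Hz02 Hz03 Hz04 Hz12 Hz13 Hz14 Hz24 Hz34 Hz44)))))))
    (Nb.add (Nb.add (Nb.add (Nb.add (Nb.leaf (hw 25) (Nb.det9 Hz00 Hz02 Hz03 Hz02 Hz22 Hz23 Hz03 Hz23
    Hz33)) (Nb.add (Nb.leaf (hw 26) (Nb.det9 Hz00 Hz02 Hz04 Hz02 Hz22 Hz24 Hz03 Hz23 Hz34)) (Nb.leaf
    (hw 27) (Nb.det9 Hz00 Hz03 Hz04 Hz02 Hz23 Hz24 Hz03 Hz33 Hz34)))) (Nb.add (Nb.leaf (hw 28) (Nb.det9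
    Hz01 Hz02 Hz03 Hz12 Hz22 Hz23 Hz13 Hz23 Hz33)) (Nb.add (Nb.leaf (hw 29) (Nb.det9 Hz01 Hz02 Hz04
    Hz12 Hz22 Hz24 Hz13 Hz23 Hz34)) (Nb.leaf (hw 30) (Nb.det9 Hz01 Hz03 Hz04 Hz12 Hz23 Hz24 Hz13 Hz33
    Hz34))))) (Nb.add (Nb.add (Nb.leaf (hw 31) (Nb.det9 Hz02 Hz03 Hz04 Hz22 Hz23 Hz24 Hz23 Hz33 Hz34))
    (Nb.add (Nb.leaf (hw 32) (Nb.det9 Hz00 Hz02 Hz04 Hz02 Hz22 Hz24 Hz04 Hz24 Hz44)) (Nb.leaf (hw 33)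
    (Nb.det9 Hz00 Hz03 Hz04 Hz02 Hz23 Hz24 Hz04 Hz34 Hz44)))) (Nb.add (Nb.leaf (hw 34) (Nb.det9 Hz01
    Hz02 Hz04 Hz12 Hz22 Hz24 Hz14 Hz24 Hz44)) (Nb.add (Nb.leaf (hw 35) (Nb.det9 Hz01 Hz03 Hz04 Hz12
    Hz23 Hz24 Hz14 Hz34 Hz44)) (Nb.leaf (hw 36) (Nb.det9 Hz02 Hz03 Hz04 Hz22 Hz23 Hz24 Hz24 Hz34
    Hz44)))))) (Nb.add (Nb.add (Nb.add (Nb.leaf (hw 37) (Nb.det9 Hz00 Hz03 Hz04 Hz03 Hz33 Hz34 Hz04
    Hz34 Hz44)) (Nb.add (Nb.leaf (hw 38) (Nb.det9 Hz01 Hz03 Hz04 Hz13 Hz33 Hz34 Hz14 Hz34 Hz44))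
    (Nb.leaf (hw 39) (Nb.det9 Hz02 Hz03 Hz04 Hz23 Hz33 Hz34 Hz24 Hz34 Hz44)))) (Nb.add (Nb.leaf (hw 40)
    (Nb.det9 Hz11 Hz12 Hz13 Hz12 Hz22 Hz23 Hz13 Hz23 Hz33)) (Nb.add (Nb.leaf (hw 41) (Nb.det9 Hz11 Hz12
    Hz14 Hz12 Hz22 Hz24 Hz13 Hz23 Hz34)) (Nb.leaf (hw 42) (Nb.det9 Hz11 Hz13 Hz14 Hz12 Hz23 Hz24 Hz13
    Hz33 Hz34))))) (Nb.add (Nb.add (Nb.leaf (hw 43) (Nb.det9 Hz12 Hz13 Hz14 Hz22 Hz23 Hz24 Hz23 Hz33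
    Hz34)) (Nb.add (Nb.leaf (hw 44) (Nb.det9 Hz11 Hz12 Hz14 Hz12 Hz22 Hz24 Hz14 Hz24 Hz44)) (Nb.leaf
    (hw 45) (Nb.det9 Hz11 Hz13 Hz14 Hz12 Hz23 Hz24 Hz14 Hz34 Hz44)))) (Nb.add (Nb.add (Nb.leaf (hw 46)
    (Nb.det9 Hz12 Hz13 Hz14 Hz22 Hz23 Hz24 Hz24 Hz34 Hz44)) (Nb.leaf (hw 47) (Nb.det9 Hz11 Hz13 Hz14
    Hz13 Hz33 Hz34 Hz14 Hz34 Hz44))) (Nb.add (Nb.leaf (hw 48) (Nb.det9 Hz12 Hz13 Hz14 Hz23 Hz33 Hz34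
    Hz24 Hz34 Hz44)) (Nb.leaf (hw 49) (Nb.det9 Hz22 Hz23 Hz24 Hz23 Hz33 Hz34 Hz24 Hz34 Hz44)))))))) ?_
  generalize c * (6 * m ^ 3) = B
  omega

theorem dsum_zero {R : Type*} [CommRing R] (w : ℕ → R) (Z : ℕ → ℕ → R) (h : ∀ a b c d e g : ℕ, det9 (Z
  (min a d) (max a d)) (Z (min a e) (max a e)) (Z (min a g) (max a g)) (Z (min b d) (max b d)) (Z (min
  b e) (max b e)) (Z (min b g) (max b g)) (Z (min c d) (max c d)) (Z (min c e) (max c e)) (Z (min c g)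
  (max c g)) = 0) : dsum w (Z 0 0) (Z 0 1) (Z 0 2) (Z 0 3) (Z 0 4) (Z 1 1) (Z 1 2) (Z 1 3) (Z 1 4) (Z 2
  2) (Z 2 3) (Z 2 4) (Z 3 3) (Z 3 4) (Z 4 4) = 0 :=
  (add0 (add0 (add0 (add0 (add0 (mul_eq_zero_of_right _ (h 0 1 2 0 1 2)) (add0 (mul_eq_zero_of_right _
    (h 0 1 2 0 1 3)) (mul_eq_zero_of_right _ (h 0 1 2 0 1 4)))) (add0 (mul_eq_zero_of_right _ (h 0 1 2
    0 2 3)) (add0 (mul_eq_zero_of_right _ (h 0 1 2 0 2 4)) (mul_eq_zero_of_right _ (h 0 1 2 0 3 4)))))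
    (add0 (add0 (mul_eq_zero_of_right _ (h 0 1 2 1 2 3)) (add0 (mul_eq_zero_of_right _ (h 0 1 2 1 2 4))
    (mul_eq_zero_of_right _ (h 0 1 2 1 3 4)))) (add0 (mul_eq_zero_of_right _ (h 0 1 2 2 3 4)) (add0
    (mul_eq_zero_of_right _ (h 0 1 3 0 1 3)) (mul_eq_zero_of_right _ (h 0 1 3 0 1 4)))))) (add0 (add0
    (add0 (mul_eq_zero_of_right _ (h 0 1 3 0 2 3)) (add0 (mul_eq_zero_of_right _ (h 0 1 3 0 2 4))
    (mul_eq_zero_of_right _ (h 0 1 3 0 3 4)))) (add0 (mul_eq_zero_of_right _ (h 0 1 3 1 2 3)) (add0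
    (mul_eq_zero_of_right _ (h 0 1 3 1 2 4)) (mul_eq_zero_of_right _ (h 0 1 3 1 3 4))))) (add0 (add0
    (mul_eq_zero_of_right _ (h 0 1 3 2 3 4)) (add0 (mul_eq_zero_of_right _ (h 0 1 4 0 1 4))
    (mul_eq_zero_of_right _ (h 0 1 4 0 2 4)))) (add0 (add0 (mul_eq_zero_of_right _ (h 0 1 4 0 3 4))
    (mul_eq_zero_of_right _ (h 0 1 4 1 2 4))) (add0 (mul_eq_zero_of_right _ (h 0 1 4 1 3 4))
    (mul_eq_zero_of_right _ (h 0 1 4 2 3 4))))))) (add0 (add0 (add0 (add0 (mul_eq_zero_of_right _ (h 0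
    2 3 0 2 3)) (add0 (mul_eq_zero_of_right _ (h 0 2 3 0 2 4)) (mul_eq_zero_of_right _ (h 0 2 3 0 3
    4)))) (add0 (mul_eq_zero_of_right _ (h 0 2 3 1 2 3)) (add0 (mul_eq_zero_of_right _ (h 0 2 3 1 2 4))
    (mul_eq_zero_of_right _ (h 0 2 3 1 3 4))))) (add0 (add0 (mul_eq_zero_of_right _ (h 0 2 3 2 3 4))
    (add0 (mul_eq_zero_of_right _ (h 0 2 4 0 2 4)) (mul_eq_zero_of_right _ (h 0 2 4 0 3 4)))) (add0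
    (mul_eq_zero_of_right _ (h 0 2 4 1 2 4)) (add0 (mul_eq_zero_of_right _ (h 0 2 4 1 3 4))
    (mul_eq_zero_of_right _ (h 0 2 4 2 3 4)))))) (add0 (add0 (add0 (mul_eq_zero_of_right _ (h 0 3 4 0 3
    4)) (add0 (mul_eq_zero_of_right _ (h 0 3 4 1 3 4)) (mul_eq_zero_of_right _ (h 0 3 4 2 3 4)))) (add0
    (mul_eq_zero_of_right _ (h 1 2 3 1 2 3)) (add0 (mul_eq_zero_of_right _ (h 1 2 3 1 2 4))
    (mul_eq_zero_of_right _ (h 1 2 3 1 3 4))))) (add0 (add0 (mul_eq_zero_of_right _ (h 1 2 3 2 3 4))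
    (add0 (mul_eq_zero_of_right _ (h 1 2 4 1 2 4)) (mul_eq_zero_of_right _ (h 1 2 4 1 3 4)))) (add0
    (add0 (mul_eq_zero_of_right _ (h 1 2 4 2 3 4)) (mul_eq_zero_of_right _ (h 1 3 4 1 3 4))) (add0
    (mul_eq_zero_of_right _ (h 1 3 4 2 3 4)) (mul_eq_zero_of_right _ (h 2 3 4 2 3 4))))))))
theorem dsumf_nb {w : ℕ → MvPolynomial (Fin 6) ℤ} {c n : ℕ} (hw : ∀ t, Nb (w t) 0 c)
    {f : ℕ → ℕ → MvPolynomial (Fin 6) ℤ} (hf : ∀ i j, i < j → j < 6 → Nb (f i j) 1 n) :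
    Nb (dsumf w f) 3 (8100 * (c * n ^ 3)) := by
  have h2 : ∀ j, 0 < j → j < 6 → Nb (2 * f 0 j) 1 (3 * n) := fun j h0 h1 =>
    (hf 0 j h0 h1).two_mul.mono (by omega)
  have h3 : ∀ i j, 0 < i → i < j → j < 6 → Nb (f 0 i + f 0 j - f i j) 1 (3 * n) := fun i j h0 h1 h2 =>
    (((hf 0 i h0 (by omega)).add (hf 0 j (by omega) h2)).sub (hf i j h1 h2)).mono (by omega)
  unfold dsumf
  refine (dsum_nb (m := 3 * n) hw (h2 1 (by omega) (by omega))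
    (h3 1 2 (by omega) (by omega) (by omega)) (h3 1 3 (by omega) (by omega) (by omega))
    (h3 1 4 (by omega) (by omega) (by omega)) (h3 1 5 (by omega) (by omega) (by omega))
    (h2 2 (by omega) (by omega))
    (h3 2 3 (by omega) (by omega) (by omega))
    (h3 2 4 (by omega) (by omega) (by omega)) (h3 2 5 (by omega) (by omega) (by omega))
    (h2 3 (by omega) (by omega))
    (h3 3 4 (by omega) (by omega) (by omega)) (h3 3 5 (by omega) (by omega) (by omega))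
    (h2 4 (by omega) (by omega)) (h3 4 5 (by omega) (by omega) (by omega))
    (h2 5 (by omega) (by omega))).mono (le_of_eq ?_)
  ring

theorem dsumf_zero {D : Fin 6 → Fin 6 → ℝ} (hD : Geo D) (w : ℕ → ℝ) {f : ℕ → ℕ → ℝ}
    (hf : ∀ i j (hi : i < j) (hj : j < 6), f i j = D ⟨i, hi.trans hj⟩ ⟨j, hj⟩) :
    dsumf w f = 0 := by
  let e : ℕ → Fin 6 := fun i => if h : i < 5 then ⟨i + 1, by omega⟩ else 0
  have he : ∀ i (h : i < 5), e i = ⟨i + 1, by omega⟩ := fun i h => dif_pos h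
  let Z : ℕ → ℕ → ℝ := fun i j => gr D 0 (e i) (e j)
  have hZs : ∀ i j, Z i j = Z j i := by
    intro i j
    show gr D 0 (e i) (e j) = gr D 0 (e j) (e i)
    unfold gr
    rw [hD.symm (e i) (e j)]
    ring
  have hZm : ∀ i j, Z (min i j) (max i j) = Z i j := by
    intro i j
    rcases le_total i j with h | h
    · rw [min_eq_left h, max_eq_right h]
    · rw [min_eq_right h, max_eq_left h, hZs]
  have h0 := dsum_zero w Z (by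
    intro a b c d e' g
    rw [hZm, hZm, hZm, hZm, hZm, hZm, hZm, hZm, hZm]
    have := hD.minor 0 ![e a, e b, e c] ![e d, e e', e g]
    unfold det3 at this
    simpa [det9] using this)
  have h1 : ∀ i, i < 5 → Z i i = 2 * f 0 (i + 1) := by
    intro i hi
    show gr D 0 (e i) (e i) = _
    rw [hf 0 (i + 1) (by omega) (by omega), he i hi]
    unfold gr
    rw [hD.self]
    show D 0 _ + D 0 _ - 0 = 2 * D 0 _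
    ring
  have h2 : ∀ i j, i < j → j < 5 → Z i j = f 0 (i + 1) + f 0 (j + 1) - f (i + 1) (j + 1) := by
    intro i j hij hj
    show gr D 0 (e i) (e j) = _
    rw [hf 0 (i + 1) (by omega) (by omega), hf 0 (j + 1) (by omega) (by omega),
      hf (i + 1) (j + 1) (by omega) (by omega), he i (by omega), he j hj]
    rfl
  rw [h1 0 (by omega), h1 1 (by omega), h1 2 (by omega), h1 3 (by omega), h1 4 (by omega),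
    h2 0 1 (by omega) (by omega), h2 0 2 (by omega) (by omega), h2 0 3 (by omega) (by omega),
    h2 0 4 (by omega) (by omega), h2 1 2 (by omega) (by omega), h2 1 3 (by omega) (by omega),
    h2 1 4 (by omega) (by omega), h2 2 3 (by omega) (by omega), h2 2 4 (by omega) (by omega),
    h2 3 4 (by omega) (by omega)] at h0
  exact h0

end Pool.Agent.Lib.EPS9
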