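import Mathlib

/-!
Packed cubic forms in six variables: a form of degree three in six variables is read off from one
number, by substituting suitable powers of two for the variables.
-/

set_option autoImplicit false

namespace Pool.Agent.Lib.EPS9

open MvPolynomial

/-- the weights of the six variables; the sums of three of them are distinct -/
def kw : Fin 6 → ℕ := ![0, 2, 11, 26, 42, 45]

/-- sum of the absolute values of the coefficients -/
noncomputable def norm1 (P : MvPolynomial (Fin 6) ℤ) : ℕ :=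
  ∑ m ∈ P.support, (P.coeff m).natAbs

lemma norm1_eq_sum {P : MvPolynomial (Fin 6) ℤ} {s : Finset (Fin 6 →₀ ℕ)} (hs : P.support ⊆ s) :
    norm1 P = ∑ m ∈ s, (P.coeff m).natAbs := by
  unfold norm1
  refine Finset.sum_subset hs fun m _ hm => ?_
  rw [notMem_support_iff.1 hm]
  rfl

@[simp] lemma norm1_zero : norm1 0 = 0 := by simp [norm1]

lemma norm1_add_le (P Q : MvPolynomial (Fin 6) ℤ) : norm1 (P + Q) ≤ norm1 P + norm1 Q := by
  classical
  rw [norm1_eq_sum (P := P + Q) (s := P.support ∪ Q.support) support_add,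
    norm1_eq_sum (P := P) (s := P.support ∪ Q.support) Finset.subset_union_left,
    norm1_eq_sum (P := Q) (s := P.support ∪ Q.support) Finset.subset_union_right,
    ← Finset.sum_add_distrib]
  refine Finset.sum_le_sum fun m _ => ?_
  rw [coeff_add]
  exact Int.natAbs_add_le _ _

@[simp] lemma norm1_neg (P : MvPolynomial (Fin 6) ℤ) : norm1 (-P) = norm1 P := by
  unfold norm1
  rw [support_neg]
  exact Finset.sum_congr rfl fun m _ => by rw [coeff_neg, Int.natAbs_neg]

lemma norm1_sub_le (P Q : MvPolynomial (Fin 6) ℤ) : norm1 (P - Q) ≤ norm1 P + norm1 Q := by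
  rw [sub_eq_add_neg, ← norm1_neg Q]
  exact norm1_add_le _ _

lemma norm1_sum_le {ι : Type*} (s : Finset ι) (f : ι → MvPolynomial (Fin 6) ℤ) :
    norm1 (∑ i ∈ s, f i) ≤ ∑ i ∈ s, norm1 (f i) := by
  classical
  induction s using Finset.induction_on with
  | empty => simp
  | insert a s ha ih =>
    rw [Finset.sum_insert ha, Finset.sum_insert ha]
    exact (norm1_add_le _ _).trans (Nat.add_le_add_left ih _)

lemma norm1_monomial (m : Fin 6 →₀ ℕ) (c : ℤ) : norm1 (monomial m c) = c.natAbs := by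
  classical
  rw [norm1_eq_sum (s := {m}) support_monomial_subset, Finset.sum_singleton, coeff_monomial,
    if_pos rfl]

@[simp] lemma norm1_C (c : ℤ) : norm1 (C c) = c.natAbs := norm1_monomial 0 c

@[simp] lemma norm1_one : norm1 1 = 1 := by
  have := norm1_C 1
  rwa [C_1] at this

@[simp] lemma norm1_X (i : Fin 6) : norm1 (X i) = 1 := norm1_monomial _ 1

lemma norm1_mul_le (P Q : MvPolynomial (Fin 6) ℤ) : norm1 (P * Q) ≤ norm1 P * norm1 Q := by
  rw [mul_def]
  refine (norm1_sum_le _ _).trans ?_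
  have : norm1 P * norm1 Q = ∑ m ∈ P.support, ∑ n ∈ Q.support,
      (P.coeff m).natAbs * (Q.coeff n).natAbs := by
    unfold norm1
    rw [Finset.sum_mul_sum]
  rw [this]
  refine Finset.sum_le_sum fun m _ => ?_
  refine (norm1_sum_le _ _).trans ?_
  refine Finset.sum_le_sum fun n _ => ?_
  rw [norm1_monomial, Int.natAbs_mul]
  rfl

/-- the modulus -/
def modN (b : ℕ) : ℕ := 2 ^ (136 * b)

/-- the mask of the top bits of the first `n` digits -/
def topMaskN (b : ℕ) : ℕ → ℕ
  | 0 => 0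
  | n + 1 => 2 ^ (b * n + (b - 1)) + topMaskN b n

/-- the mask of the top bits -/
def topMask (b : ℕ) : ℕ := topMaskN b 136

/-- value of a form at the powers of two, modulo `modN b` -/
noncomputable def kap (b : ℕ) : MvPolynomial (Fin 6) ℤ →+* ZMod (modN b) :=
  eval₂Hom (Int.castRingHom (ZMod (modN b))) fun i => (2 : ZMod (modN b)) ^ (b * kw i)

@[simp] lemma kap_C (b : ℕ) (c : ℤ) : kap b (C c) = (c : ZMod (modN b)) := by
  simp [kap]

@[simp] lemma kap_X (b : ℕ) (i : Fin 6) : kap b (X i) = (2 : ZMod (modN b)) ^ (b * kw i) := by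
  simp [kap]

/-- weight of a monomial -/
def wtm (m : Fin 6 →₀ ℕ) : ℕ := ∑ i, m i * kw i

/-- value of a form at the powers of two -/
noncomputable def kapZ (b : ℕ) (P : MvPolynomial (Fin 6) ℤ) : ℤ :=
  ∑ m ∈ P.support, P.coeff m * (2 ^ b) ^ wtm m

lemma kap_eq (b : ℕ) (P : MvPolynomial (Fin 6) ℤ) : kap b P = (kapZ b P : ZMod (modN b)) := by
  unfold kap kapZ
  rw [coe_eval₂Hom, eval₂_eq']
  push_cast
  refine Finset.sum_congr rfl fun m _ => ?_
  rw [Int.coe_castRingHom]
  congr 1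
  unfold wtm
  rw [← Finset.prod_pow_eq_pow_sum]
  refine Finset.prod_congr rfl fun i _ => ?_
  rw [← pow_mul, ← pow_mul]
  congr 1
  ring

lemma topMaskN_lt {b : ℕ} (hb : 1 ≤ b) (n : ℕ) : topMaskN b n < 2 ^ (b * n) := by
  induction n with
  | zero => simp [topMaskN]
  | succ n ih =>
    have h1 : b * (n + 1) = (b * n + (b - 1)) + 1 := by
      rw [mul_add, mul_one]
      omega
    have h2 : 2 ^ (b * n) ≤ 2 ^ (b * n + (b - 1)) :=
      Nat.pow_le_pow_right (by norm_num) (Nat.le_add_right _ _)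
    rw [h1, pow_succ]
    unfold topMaskN
    omega

lemma topMaskN_testBit {b : ℕ} (hb : 1 ≤ b) (n : ℕ) : ∀ j < n,
    (topMaskN b n).testBit (b * j + (b - 1)) = true := by
  induction n with
  | zero => intro j hj; omega
  | succ n ih =>
    intro j hj
    unfold topMaskN
    rcases Nat.lt_or_ge j n with h | h
    · rw [Nat.testBit_two_pow_add_gt (by
        have : b * j < b * n := Nat.mul_lt_mul_of_pos_left h (by omega)
        omega)]
      exact ih j h
    · have hjn : j = n := by omega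
      subst hjn
      rw [Nat.testBit_two_pow_add_eq, Nat.testBit_lt_two_pow]
      · rfl
      · exact (topMaskN_lt hb j).trans_le
          (Nat.pow_le_pow_right (by norm_num) (Nat.le_add_right _ _))

/-- the digits of a number without top bits are small -/
lemma digit_lt {b : ℕ} (hb : 1 ≤ b) {v n : ℕ} (h : v &&& topMaskN b n = 0) {j : ℕ} (hj : j < n) :
    v / 2 ^ (b * j) % 2 ^ b < 2 ^ (b - 1) := by
  have h1 : v.testBit (b * j + (b - 1)) = false := by
    have h2 : (v &&& topMaskN b n).testBit (b * j + (b - 1)) = false := by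
      rw [h, Nat.zero_testBit]
    rw [Nat.testBit_and, topMaskN_testBit hb n j hj, Bool.and_true] at h2
    exact h2
  apply Nat.lt_pow_two_of_testBit
  intro i hi
  rcases Nat.lt_or_ge i b with h3 | h3
  · have hib : i = b - 1 := by omega
    subst hib
    rw [Nat.testBit_mod_two_pow, Nat.testBit_div_two_pow, Nat.add_comm, h1, Bool.and_false]
  · apply Nat.testBit_lt_two_pow
    exact (Nat.mod_lt _ (by positivity)).trans_le (Nat.pow_le_pow_right (by norm_num) h3)

lemma sum_digits (B v : ℕ) (n : ℕ) :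
    ∑ j ∈ Finset.range n, (v / B ^ j % B) * B ^ j = v % B ^ n := by
  induction n with
  | zero => simp [Nat.mod_one]
  | succ n ih =>
    rw [Finset.sum_range_succ, ih, Nat.mod_pow_succ, mul_comm (v / B ^ n % B)]

lemma uniq_digits (B : ℤ) (n : ℕ) : ∀ x y : ℕ → ℤ, (∀ j < n, 2 * |x j| < B) →
    (∀ j < n, 2 * |y j| < B) →
    B ^ n ∣ ∑ j ∈ Finset.range n, x j * B ^ j - ∑ j ∈ Finset.range n, y j * B ^ j →
    ∀ j < n, x j = y j := by
  induction n with
  | zero => intro x y _ _ _ j hj; omega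
  | succ n ih =>
    intro x y hx hy h
    have hB : 0 < B := by
      have h1 := hx 0 (by omega)
      have h2 := abs_nonneg (x 0)
      linarith
    rw [Finset.sum_range_succ', Finset.sum_range_succ'] at h
    have e : ∀ z : ℕ → ℤ, ∑ k ∈ Finset.range n, z (k + 1) * B ^ (k + 1) =
        B * ∑ k ∈ Finset.range n, z (k + 1) * B ^ k := by
      intro z
      rw [Finset.mul_sum]
      exact Finset.sum_congr rfl fun k _ => by rw [pow_succ]; ring
    rw [e, e] at h
    have h0 : x 0 = y 0 := by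
      have h1 : B ∣ x 0 - y 0 := by
        have h2 : B ∣ B ^ (n + 1) := dvd_pow_self B (by omega)
        have h3 := h2.trans h
        have h4 : B * ∑ k ∈ Finset.range n, x (k + 1) * B ^ k + x 0 * B ^ 0 -
            (B * ∑ k ∈ Finset.range n, y (k + 1) * B ^ k + y 0 * B ^ 0) =
            B * (∑ k ∈ Finset.range n, x (k + 1) * B ^ k -
              ∑ k ∈ Finset.range n, y (k + 1) * B ^ k) + (x 0 - y 0) := by ring
        rw [h4] at h3
        exact (dvd_add_right (dvd_mul_right _ _)).1 h3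
      have h2 : |x 0 - y 0| < B := by
        have h3 := hx 0 (by omega)
        have h4 := hy 0 (by omega)
        have h5 := abs_sub (x 0) (y 0)
        linarith
      have h3 := Int.eq_zero_of_abs_lt_dvd h1 h2
      linarith
    have h1 : B ^ n ∣ ∑ j ∈ Finset.range n, x (j + 1) * B ^ j -
        ∑ j ∈ Finset.range n, y (j + 1) * B ^ j := by
      rw [h0] at h
      have h4 : B * ∑ k ∈ Finset.range n, x (k + 1) * B ^ k + y 0 * B ^ 0 -
            (B * ∑ k ∈ Finset.range n, y (k + 1) * B ^ k + y 0 * B ^ 0) =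
            B * (∑ k ∈ Finset.range n, x (k + 1) * B ^ k -
              ∑ k ∈ Finset.range n, y (k + 1) * B ^ k) := by ring
      rw [h4, pow_succ', mul_dvd_mul_iff_left hB.ne'] at h
      exact h
    have h2 := ih (fun j => x (j + 1)) (fun j => y (j + 1)) (fun j hj => hx (j + 1) (by omega))
      (fun j hj => hy (j + 1) (by omega)) h1
    intro j hj
    rcases j with _ | j
    · exact h0
    · exact h2 j (by omega)

lemma wt_inj_aux : ∀ i j k i' j' k' : Fin 6, i ≤ j → j ≤ k → i' ≤ j' → j' ≤ k' →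
    kw i + kw j + kw k = kw i' + kw j' + kw k' → i = i' ∧ j = j' ∧ k = k' := by
  decide +kernel

lemma wtm_add (m n : Fin 6 →₀ ℕ) : wtm (m + n) = wtm m + wtm n := by
  unfold wtm
  rw [← Finset.sum_add_distrib]
  exact Finset.sum_congr rfl fun i _ => by rw [Finsupp.add_apply, add_mul]

lemma wtm_single (i : Fin 6) : wtm (Finsupp.single i 1) = kw i := by
  unfold wtm
  rw [Finset.sum_eq_single i]
  · simp
  · intro j _ hj
    rw [Finsupp.single_eq_of_ne hj, zero_mul]
  · intro h
    exact absurd (Finset.mem_univ i) h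

lemma exists_sorted {m : Fin 6 →₀ ℕ} (h : m.degree = 3) : ∃ i j k : Fin 6, i ≤ j ∧ j ≤ k ∧
    m = Finsupp.single i 1 + Finsupp.single j 1 + Finsupp.single k 1 := by
  have hc : (Finsupp.toMultiset m).card = 3 := by
    rw [Finsupp.card_toMultiset]
    exact h
  have hl : ((Finsupp.toMultiset m).sort (· ≤ ·)).length = 3 := by
    rw [Multiset.length_sort, hc]
  obtain ⟨i, j, k, hijk⟩ := List.length_eq_three.1 hl
  have hs := Multiset.pairwise_sort (Finsupp.toMultiset m) (· ≤ ·)
  rw [hijk] at hs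
  have he := Multiset.sort_eq (Finsupp.toMultiset m) (· ≤ ·)
  rw [hijk] at he
  simp only [List.pairwise_cons, List.mem_cons] at hs
  refine ⟨i, j, k, hs.1 j (Or.inl rfl), hs.2.1 k (Or.inl rfl), ?_⟩
  have hinj : Function.Injective (Finsupp.toMultiset : (Fin 6 →₀ ℕ) → Multiset (Fin 6)) :=
    (Finsupp.orderIsoMultiset (ι := Fin 6)).injective
  apply hinj
  rw [← he, map_add, map_add, Finsupp.toMultiset_single, Finsupp.toMultiset_single,
    Finsupp.toMultiset_single]
  simp only [one_smul]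
  rfl

lemma wtm_inj {m n : Fin 6 →₀ ℕ} (hm : m.degree = 3) (hn : n.degree = 3) (h : wtm m = wtm n) :
    m = n := by
  obtain ⟨i, j, k, h1, h2, rfl⟩ := exists_sorted hm
  obtain ⟨i', j', k', h3, h4, rfl⟩ := exists_sorted hn
  rw [wtm_add, wtm_add, wtm_add, wtm_add, wtm_single, wtm_single, wtm_single, wtm_single,
    wtm_single, wtm_single] at h
  obtain ⟨rfl, rfl, rfl⟩ := wt_inj_aux i j k i' j' k' h1 h2 h3 h4 h
  rfl

lemma kw_le (i : Fin 6) : kw i ≤ 45 := by
  revert i
  decide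

lemma wtm_lt {m : Fin 6 →₀ ℕ} (hm : m.degree = 3) : wtm m < 136 := by
  obtain ⟨i, j, k, h1, h2, rfl⟩ := exists_sorted hm
  rw [wtm_add, wtm_add, wtm_single, wtm_single, wtm_single]
  have := kw_le i
  have := kw_le j
  have := kw_le k
  omega

lemma degree_of_mem {P : MvPolynomial (Fin 6) ℤ} (hP : P.IsHomogeneous 3) {m : Fin 6 →₀ ℕ}
    (hm : m ∈ P.support) : m.degree = 3 := by
  have h := hP (mem_support_iff.1 hm)
  have e : (Finsupp.weight (1 : Fin 6 → ℕ)) m = m.degree := by
    rw [Finsupp.degree_eq_weight_one]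
    rfl
  rwa [e] at h

/-- the digits of a form -/
noncomputable def dg (P : MvPolynomial (Fin 6) ℤ) (j : ℕ) : ℤ :=
  ∑ m ∈ P.support.filter (fun m => wtm m = j), P.coeff m

lemma abs_dg_le (P : MvPolynomial (Fin 6) ℤ) (j : ℕ) : |dg P j| ≤ norm1 P := by
  unfold dg norm1
  refine (Finset.abs_sum_le_sum_abs _ _).trans ?_
  push_cast
  exact Finset.sum_le_sum_of_subset_of_nonneg (Finset.filter_subset _ _)
    fun _ _ _ => abs_nonneg _

lemma kapZ_eq {P : MvPolynomial (Fin 6) ℤ} (hP : P.IsHomogeneous 3) (b : ℕ) :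
    kapZ b P = ∑ j ∈ Finset.range 136, dg P j * (2 ^ b) ^ j := by
  unfold kapZ
  rw [← Finset.sum_fiberwise_of_maps_to (t := Finset.range 136) (g := wtm)
    (fun m hm => Finset.mem_range.2 (wtm_lt (degree_of_mem hP hm)))]
  refine Finset.sum_congr rfl fun j _ => ?_
  unfold dg
  rw [Finset.sum_mul]
  refine Finset.sum_congr rfl fun m hm => ?_
  rw [(Finset.mem_filter.1 hm).2]

lemma dg_wtm {P : MvPolynomial (Fin 6) ℤ} (hP : P.IsHomogeneous 3) {m : Fin 6 →₀ ℕ}
    (hm : m ∈ P.support) : dg P (wtm m) = P.coeff m := by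
  unfold dg
  rw [Finset.sum_eq_single m]
  · intro n hn hnm
    obtain ⟨h1, h2⟩ := Finset.mem_filter.1 hn
    exact absurd (wtm_inj (degree_of_mem hP h1) (degree_of_mem hP hm) h2) hnm
  · intro h
    exact (h (Finset.mem_filter.2 ⟨hm, rfl⟩)).elim

/-- a form of degree three with small coefficients whose packed value has no top bits has
nonnegative coefficients, and is positive at positive points unless it vanishes -/
theorem coeff_nonneg_of_kap {b : ℕ} (hb : 1 ≤ b) {P : MvPolynomial (Fin 6) ℤ}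
    (hP : P.IsHomogeneous 3) (hn : norm1 P < 2 ^ (b - 1)) {v : ℕ} (hv : v < modN b)
    (hk : (v : ZMod (modN b)) = kap b P) (ht : v &&& topMask b = 0) :
    (∀ m, 0 ≤ P.coeff m) ∧ (v ≠ 0 → P ≠ 0) := by
  have hB : (2 : ℤ) ^ b = 2 * 2 ^ (b - 1) := by
    rw [← pow_succ']
    congr 1
    omega
  have h1 : ((2 : ℤ) ^ b) ^ 136 ∣
      ∑ j ∈ Finset.range 136, ((v / (2 ^ b) ^ j % 2 ^ b : ℕ) : ℤ) * (2 ^ b) ^ j -
        ∑ j ∈ Finset.range 136, dg P j * (2 ^ b) ^ j := by
    rw [← kapZ_eq hP]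
    have h2 : ∑ j ∈ Finset.range 136, ((v / (2 ^ b) ^ j % 2 ^ b : ℕ) : ℤ) * (2 ^ b) ^ j =
        (v : ℤ) := by
      have h3 := sum_digits (2 ^ b) v 136
      have h4 : v % (2 ^ b) ^ 136 = v := by
        apply Nat.mod_eq_of_lt
        rw [← pow_mul, mul_comm b]
        exact hv
      rw [h4] at h3
      have h5 : ((∑ j ∈ Finset.range 136, (v / (2 ^ b) ^ j % 2 ^ b) * (2 ^ b) ^ j : ℕ) : ℤ) =
          (v : ℤ) := by rw [h3]
      rw [← h5]
      push_cast
      rfl
    rw [h2]
    rw [kap_eq] at hk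
    have h6 : (((v : ℤ)) : ZMod (modN b)) = (kapZ b P : ZMod (modN b)) := by
      rw [← hk]
      push_cast
      rfl
    have h7 := (ZMod.intCast_eq_intCast_iff_dvd_sub _ _ _).1 h6
    have h8 : ((modN b : ℕ) : ℤ) = ((2 : ℤ) ^ b) ^ 136 := by
      unfold modN
      push_cast
      rw [← pow_mul, mul_comm b]
    rw [h8] at h7
    have h9 := (dvd_neg).2 h7
    rwa [neg_sub] at h9
  have h2 := uniq_digits ((2 : ℤ) ^ b) 136 (fun j => ((v / (2 ^ b) ^ j % 2 ^ b : ℕ) : ℤ))
    (fun j => dg P j) (fun j hj => by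
      have h3 := digit_lt hb ht hj
      rw [pow_mul] at h3
      have h4 : ((v / (2 ^ b) ^ j % 2 ^ b : ℕ) : ℤ) < 2 ^ (b - 1) := by exact_mod_cast h3
      have h5 : (0 : ℤ) ≤ ((v / (2 ^ b) ^ j % 2 ^ b : ℕ) : ℤ) := Int.natCast_nonneg _
      show 2 * |((v / (2 ^ b) ^ j % 2 ^ b : ℕ) : ℤ)| < 2 ^ b
      rw [abs_of_nonneg h5, hB]
      linarith) (fun j _ => by
      have h3 := abs_dg_le P j
      have h4 : ((norm1 P : ℕ) : ℤ) < 2 ^ (b - 1) := by exact_mod_cast hn
      show 2 * |dg P j| < 2 ^ b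
      rw [hB]
      linarith) h1
  have h3 : ∀ j < 136, 0 ≤ dg P j := fun j hj => by
    rw [← h2 j hj]
    exact Int.natCast_nonneg _
  constructor
  · intro m
    by_cases hm : m ∈ P.support
    · rw [← dg_wtm hP hm]
      exact h3 _ (wtm_lt (degree_of_mem hP hm))
    · rw [notMem_support_iff.1 hm]
  · intro h0 hP0
    apply h0
    have h4 := sum_digits (2 ^ b) v 136
    have h5 : v % (2 ^ b) ^ 136 = v := by
      apply Nat.mod_eq_of_lt
      rw [← pow_mul, mul_comm b]
      exact hv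
    rw [← h5, ← h4]
    refine Finset.sum_eq_zero fun j hj => ?_
    have h6 := h2 j (Finset.mem_range.1 hj)
    have h7 : dg P j = 0 := by
      rw [hP0]
      simp [dg]
    rw [h7] at h6
    have h8 : v / (2 ^ b) ^ j % 2 ^ b = 0 := by exact_mod_cast h6
    rw [h8, zero_mul]

lemma aeval_pos {P : MvPolynomial (Fin 6) ℤ} (hP : ∀ m, 0 ≤ P.coeff m) (h0 : P ≠ 0)
    (y : Fin 6 → ℝ) (hy : ∀ i, 0 < y i) : 0 < aeval y P := by
  rw [aeval_def, eval₂_eq']
  apply Finset.sum_pos
  · intro m hm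
    have h1 : 0 < P.coeff m := lt_of_le_of_ne (hP m) (Ne.symm (mem_support_iff.1 hm))
    refine mul_pos ?_ (Finset.prod_pos fun i _ => pow_pos (hy i) _)
    have h2 : (0 : ℝ) < ((P.coeff m : ℤ) : ℝ) := by exact_mod_cast h1
    simpa using h2
  · exact Finset.nonempty_iff_ne_empty.2 fun h => h0 (support_eq_empty.1 h)

lemma aeval_nonneg {P : MvPolynomial (Fin 6) ℤ} (hP : ∀ m, 0 ≤ P.coeff m)
    (y : Fin 6 → ℝ) (hy : ∀ i, 0 ≤ y i) : 0 ≤ aeval y P := by
  rw [aeval_def, eval₂_eq']
  apply Finset.sum_nonneg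
  intro m _
  refine mul_nonneg ?_ (Finset.prod_nonneg fun i _ => pow_nonneg (hy i) _)
  have h2 : (0 : ℝ) ≤ ((P.coeff m : ℤ) : ℝ) := by exact_mod_cast hP m
  simpa using h2

/-- the test used by the certificates -/
theorem aeval_pos_of_kap {b : ℕ} (hb : 1 ≤ b) {P : MvPolynomial (Fin 6) ℤ}
    (hP : P.IsHomogeneous 3) (hn : norm1 P < 2 ^ (b - 1)) {v : ℕ} (hv : v < modN b)
    (hk : (v : ZMod (modN b)) = kap b P) (ht : v &&& topMask b = 0) (h0 : v ≠ 0)
    (y : Fin 6 → ℝ) (hy : ∀ i, 0 < y i) : 0 < aeval y P := by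
  obtain ⟨h1, h2⟩ := coeff_nonneg_of_kap hb hP hn hv hk ht
  exact aeval_pos h1 (h2 h0) y hy

theorem aeval_nonneg_of_kap {b : ℕ} (hb : 1 ≤ b) {P : MvPolynomial (Fin 6) ℤ}
    (hP : P.IsHomogeneous 3) (hn : norm1 P < 2 ^ (b - 1)) {v : ℕ} (hv : v < modN b)
    (hk : (v : ZMod (modN b)) = kap b P) (ht : v &&& topMask b = 0)
    (y : Fin 6 → ℝ) (hy : ∀ i, 0 ≤ y i) : 0 ≤ aeval y P :=
  aeval_nonneg (coeff_nonneg_of_kap hb hP hn hv hk ht).1 y hy

/-! arithmetic modulo `modN b` on natural numbers -/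

lemma and_cast (b x : ℕ) : ((x &&& (modN b - 1) : ℕ) : ZMod (modN b)) = x := by
  unfold modN
  rw [Nat.and_two_pow_sub_one_eq_mod]
  exact ZMod.natCast_mod x _

lemma and_lt (b x : ℕ) : x &&& (modN b - 1) < modN b := by
  unfold modN
  rw [Nat.and_two_pow_sub_one_eq_mod]
  exact Nat.mod_lt _ (by positivity)

lemma sub_cast {b d : ℕ} (hd : d ≤ modN b) : ((modN b - d : ℕ) : ZMod (modN b)) = -(d : ZMod (modN b)) := by
  rw [Nat.cast_sub hd, ZMod.natCast_self, zero_sub]

end Pool.Agent.Lib.EPS9
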