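import Pool.Agent.Lib.MP_c7e7f6_eps.Core
import Pool.Agent.Lib.MP_c7e7f6_eps.Kron

/-!
Soundness of the dense part of the certificates: the five point data of `Core`.
-/

set_option autoImplicit false
set_option linter.unusedVariables false
set_option linter.style.longLine false

namespace Pool.Agent.Lib.EPS9

/-- `x` represents `z` -/
def Cv (N x : ℕ) (z : ZMod N) : Prop := (x : ZMod N) = z

/-- `x < N` represents `z` -/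
def Rp (N x : ℕ) (z : ZMod N) : Prop := Cv N x z ∧ x < N

/-- `x < U` represents `z` -/
def Lt (N U x : ℕ) (z : ZMod N) : Prop := Cv N x z ∧ x < U

/-- `x ≤ n T` represents `z` -/
def Sm (N T n x : ℕ) (z : ZMod N) : Prop := Cv N x z ∧ x ≤ n * T

/-- the modulus, the mask and the square of the modulus -/
structure Ev (N M N2 : ℕ) : Prop where
  cast : ∀ x : ℕ, ((Nat.land x M : ℕ) : ZMod N) = x
  lt : ∀ x : ℕ, Nat.land x M < N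
  n2 : N2 = N * N

theorem Cv.congr {N x : ℕ} {z z' : ZMod N} (h : Cv N x z) (e : z = z') : Cv N x z' := e ▸ h

theorem Cv.add {N a b : ℕ} {x y : ZMod N} (h1 : Cv N a x) (h2 : Cv N b y) :
    Cv N (Nat.add a b) (x + y) := by
  unfold Cv at *
  rw [Nat.add_eq, Nat.cast_add, h1, h2]

theorem Cv.mul {N a b : ℕ} {x y : ZMod N} (h1 : Cv N a x) (h2 : Cv N b y) :
    Cv N (Nat.mul a b) (x * y) := by
  unfold Cv at *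
  rw [Nat.mul_eq, Nat.cast_mul, h1, h2]

theorem Cv.land {N M N2 a : ℕ} (E : Ev N M N2) {x : ZMod N} (h : Cv N a x) :
    Cv N (Nat.land a M) x := (E.cast a).trans h

theorem Cv.sub {N T n a K : ℕ} {x : ZMod N} (hK : (K : ZMod N) = 0) (h : Sm N T n a x)
    (hle : n * T ≤ K) : Cv N (Nat.sub K a) (-x) := by
  have h1 : (a : ZMod N) = x := h.1
  unfold Cv
  rw [Nat.sub_eq, Nat.cast_sub (h.2.trans hle), hK, h1, zero_sub]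

theorem Sm.lg {N U l g : ℕ} {x y : ZMod N} (hl : Lt N U l x) (hg : Rp N g y) :
    Sm N (U * N) 1 (Nat.mul l g) (x * y) := by
  refine ⟨hl.1.mul hg.1, ?_⟩
  rw [one_mul, Nat.mul_eq]
  exact Nat.mul_le_mul hl.2.le hg.2.le

theorem Sm.one {N g : ℕ} {y : ZMod N} (hg : Rp N g y) : Sm N N 1 g y := by
  refine ⟨hg.1, ?_⟩
  rw [one_mul]
  exact hg.2.le

theorem Sm.add {N T n m a b : ℕ} {x y : ZMod N} (h1 : Sm N T n a x) (h2 : Sm N T m b y) :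
    Sm N T (n + m) (Nat.add a b) (x + y) := by
  refine ⟨h1.1.add h2.1, ?_⟩
  rw [add_mul, Nat.add_eq]
  exact Nat.add_le_add h1.2 h2.2

theorem Ev.zero {N M N2 : ℕ} (E : Ev N M N2) : ((N2 : ℕ) : ZMod N) = 0 := by
  rw [E.n2, Nat.cast_mul, ZMod.natCast_self, zero_mul]

theorem Rp.gm {N M N2 a b c : ℕ} (E : Ev N M N2) {x y z : ZMod N} (ha : Cv N a x) (hb : Cv N b y)
    (hc : Rp N c z) : Rp N (Nat.land (Nat.add (Nat.add a b) (Nat.sub N c)) M) (x + y - z) := by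
  refine ⟨Cv.land E (Cv.congr ((ha.add hb).add (Cv.sub (ZMod.natCast_self N) (Sm.one hc) ?_)) ?_),
    E.lt _⟩
  · rw [one_mul]
  · ring

theorem Rp.dd {N a : ℕ} {x : ZMod N} (h : 2 * a < N) (ha : Cv N a x) :
    Rp N (Nat.mul 2 a) (2 * x) := by
  refine ⟨?_, h⟩
  have h1 : (a : ZMod N) = x := ha
  unfold Cv
  rw [Nat.mul_eq, Nat.cast_mul, h1]
  rfl

theorem Rp.pm {N M N2 a b c d : ℕ} (E : Ev N M N2) {x y z t : ZMod N} (ha : Rp N a x)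
    (hb : Rp N b y) (hc : Rp N c z) (hd : Rp N d t) :
    Rp N (Nat.land (Nat.add (Nat.mul a b) (Nat.sub N2 (Nat.mul c d))) M) (x * y - z * t) := by
  refine ⟨Cv.land E (Cv.congr ((ha.1.mul hb.1).add (Cv.sub E.zero
    (Sm.lg (U := N) ⟨hc.1, hc.2⟩ hd) ?_)) ?_), E.lt _⟩
  · rw [one_mul, E.n2]
  · ring

theorem Rp.mm {N M N2 a b c d e f : ℕ} (E : Ev N M N2) {x y z t u v : ZMod N} (ha : Rp N a x)
    (hb : Rp N b y) (hc : Rp N c z) (hd : Rp N d t) (he : Rp N e u) (hf : Rp N f v) :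
    Rp N (Nat.land (Nat.add (Nat.add (Nat.mul a b) (Nat.mul c d)) (Nat.sub N2 (Nat.mul e f))) M)
      (x * y + z * t - u * v) := by
  refine ⟨Cv.land E (Cv.congr (((ha.1.mul hb.1).add (hc.1.mul hd.1)).add (Cv.sub E.zero
    (Sm.lg (U := N) ⟨he.1, he.2⟩ hf) ?_)) ?_), E.lt _⟩
  · rw [one_mul, E.n2]
  · ring

/-- a determinant of size three -/
def det9 {R : Type*} [CommRing R] (a b c d e f g h i : R) : R :=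
  a * (e * i - f * h) - b * (d * i - f * g) + c * (d * h - e * g)

theorem aF_cv {N M N2 : ℕ} (E : Ev N M N2) {h a0 a1 a2 a3 vK vU0 vU1 vU2 vU3 vV vS00 vS01 vS02 vS03
  vS11 vS12 vS13 vS22 vS23 vS33 : ℕ} {zh za0 za1 za2 za3 yK yU0 yU1 yU2 yU3 yV yS00 yS01 yS02 yS03 yS11
  yS12 yS13 yS22 yS23 yS33 : ZMod N} (Hh : Cv N h zh) (Ha0 : Cv N a0 za0) (Ha1 : Cv N a1 za1) (Ha2 : Cv
  N a2 za2) (Ha3 : Cv N a3 za3) (HvK : Cv N vK yK) (HvU0 : Cv N vU0 yU0) (HvU1 : Cv N vU1 yU1) (HvU2 :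
  Cv N vU2 yU2) (HvU3 : Cv N vU3 yU3) (HvV : Cv N vV yV) (HvS00 : Cv N vS00 yS00) (HvS01 : Cv N vS01
  yS01) (HvS02 : Cv N vS02 yS02) (HvS03 : Cv N vS03 yS03) (HvS11 : Cv N vS11 yS11) (HvS12 : Cv N vS12
  yS12) (HvS13 : Cv N vS13 yS13) (HvS22 : Cv N vS22 yS22) (HvS23 : Cv N vS23 yS23) (HvS33 : Cv N vS33
  yS33) : Cv N (aF M h a0 a1 a2 a3 vK vU0 vU1 vU2 vU3 vV vS00 vS01 vS02 vS03 vS11 vS12 vS13 vS22 vS23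
  vS33) ((((yK + (zh * yV)) + ((za0 * yU0) + (za1 * yU1))) + (((za2 * yU2) + (za3 * yU3)) + (((za0 *
  za0) * yS00) + ((za0 * za1) * yS01)))) + (((((za0 * za2) * yS02) + ((za0 * za3) * yS03)) + (((za1 *
  za1) * yS11) + ((za1 * za2) * yS12))) + ((((za1 * za3) * yS13) + ((za2 * za2) * yS22)) + (((za2 *
  za3) * yS23) + ((za3 * za3) * yS33))))) :=
  (Cv.add (Cv.add (Cv.add (Cv.add HvK (Cv.mul Hh HvV)) (Cv.add (Cv.mul Ha0 HvU0) (Cv.mul Ha1 HvU1)))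
    (Cv.add (Cv.add (Cv.mul Ha2 HvU2) (Cv.mul Ha3 HvU3)) (Cv.add (Cv.mul (Cv.land E (Cv.mul Ha0 Ha0))
    HvS00) (Cv.mul (Cv.land E (Cv.mul Ha0 Ha1)) HvS01)))) (Cv.add (Cv.add (Cv.add (Cv.mul (Cv.land E
    (Cv.mul Ha0 Ha2)) HvS02) (Cv.mul (Cv.land E (Cv.mul Ha0 Ha3)) HvS03)) (Cv.add (Cv.mul (Cv.land E
    (Cv.mul Ha1 Ha1)) HvS11) (Cv.mul (Cv.land E (Cv.mul Ha1 Ha2)) HvS12))) (Cv.add (Cv.add (Cv.mul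
    (Cv.land E (Cv.mul Ha1 Ha3)) HvS13) (Cv.mul (Cv.land E (Cv.mul Ha2 Ha2)) HvS22)) (Cv.add (Cv.mul
    (Cv.land E (Cv.mul Ha2 Ha3)) HvS23) (Cv.mul (Cv.land E (Cv.mul Ha3 Ha3)) HvS33)))))

theorem vK_cv {N M N2 U KN : ℕ} (E : Ev N M N2) (hK0 : (KN : ZMod N) = 0) (hK : 16 * (U * N) ≤ KN) {w :
  ℕ → ZMod N} {o : ZMod N} {l0 l1 l3 l6 l10 l12 l15 l25 l28 l40 m0_0 m0_1 m0_3 m0_6 m1_1 m1_3 m1_6 m3_3
  m3_6 m6_6 cK : ℕ} {tm0_0 tm0_1 tm0_3 tm0_6 tm1_1 tm1_3 tm1_6 tm3_3 tm3_6 tm6_6 : ZMod N} (Hl0 : Lt N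
  U l0 (w 0 + o)) (Hl1 : Lt N U l1 (w 1 + o)) (Hl3 : Lt N U l3 (w 3 + o)) (Hl6 : Lt N U l6 (w 6 + o))
  (Hl10 : Lt N U l10 (w 10 + o)) (Hl12 : Lt N U l12 (w 12 + o)) (Hl15 : Lt N U l15 (w 15 + o)) (Hl25 :
  Lt N U l25 (w 25 + o)) (Hl28 : Lt N U l28 (w 28 + o)) (Hl40 : Lt N U l40 (w 40 + o)) (Hm0_0 : Rp N
  m0_0 tm0_0) (Hm0_1 : Rp N m0_1 tm0_1) (Hm0_3 : Rp N m0_3 tm0_3) (Hm0_6 : Rp N m0_6 tm0_6) (Hm1_1 : Rp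
  N m1_1 tm1_1) (Hm1_3 : Rp N m1_3 tm1_3) (Hm1_6 : Rp N m1_6 tm1_6) (Hm3_3 : Rp N m3_3 tm3_3) (Hm3_6 :
  Rp N m3_6 tm3_6) (Hm6_6 : Rp N m6_6 tm6_6) (HcK : Cv N cK (o * (0 - (((tm0_0 + tm0_1) + (tm0_3 +
  (tm0_6 + tm1_1))) + ((tm1_3 + tm1_6) + (tm3_3 + (tm3_6 + tm6_6))))))) : Cv N (Nat.land (Nat.add
  (Nat.add (Nat.add (Nat.add (Nat.mul l0 m0_0) (Nat.mul l1 m0_1)) (Nat.add (Nat.mul l3 m0_3) (Nat.add
  (Nat.mul l6 m0_6) (Nat.mul l10 m1_1)))) (Nat.add (Nat.add (Nat.mul l12 m1_3) (Nat.mul l15 m1_6))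
  (Nat.add (Nat.mul l25 m3_3) (Nat.add (Nat.mul l28 m3_6) (Nat.mul l40 m6_6))))) cK) M) (((((w 0 *
  tm0_0) + (w 1 * tm0_1)) + ((w 3 * tm0_3) + ((w 6 * tm0_6) + (w 10 * tm1_1)))) + (((w 12 * tm1_3) + (w
  15 * tm1_6)) + ((w 25 * tm3_3) + ((w 28 * tm3_6) + (w 40 * tm6_6)))))) :=
  (Cv.congr (Cv.land E (Cv.add (Cv.add (Cv.add (Cv.add (Cv.mul (Hl0).1 (Hm0_0).1) (Cv.mul (Hl1).1
    (Hm0_1).1)) (Cv.add (Cv.mul (Hl3).1 (Hm0_3).1) (Cv.add (Cv.mul (Hl6).1 (Hm0_6).1) (Cv.mul (Hl10).1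
    (Hm1_1).1)))) (Cv.add (Cv.add (Cv.mul (Hl12).1 (Hm1_3).1) (Cv.mul (Hl15).1 (Hm1_6).1)) (Cv.add
    (Cv.mul (Hl25).1 (Hm3_3).1) (Cv.add (Cv.mul (Hl28).1 (Hm3_6).1) (Cv.mul (Hl40).1 (Hm6_6).1)))))
    HcK)) (by ring))

theorem vU0_cv {N M N2 U KN : ℕ} (E : Ev N M N2) (hK0 : (KN : ZMod N) = 0) (hK : 16 * (U * N) ≤ KN) {w
  : ℕ → ZMod N} {o : ZMod N} {l2 l4 l5 l7 l8 l9 l11 l13 l14 l16 l17 l18 l26 l27 l29 l30 l31 p01_12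
  p02_12 p03_12 p12_12 p12_13 p12_23 p01_13 p02_13 p03_13 p13_13 p13_23 p02_23 p03_23 p23_23 cU0 : ℕ}
  {tp01_12 tp02_12 tp03_12 tp12_12 tp12_13 tp12_23 tp01_13 tp02_13 tp03_13 tp13_13 tp13_23 tp02_23
  tp03_23 tp23_23 : ZMod N} (Hl2 : Lt N U l2 (w 2 + o)) (Hl4 : Lt N U l4 (w 4 + o)) (Hl5 : Lt N U l5 (w
  5 + o)) (Hl7 : Lt N U l7 (w 7 + o)) (Hl8 : Lt N U l8 (w 8 + o)) (Hl9 : Lt N U l9 (w 9 + o)) (Hl11 :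
  Lt N U l11 (w 11 + o)) (Hl13 : Lt N U l13 (w 13 + o)) (Hl14 : Lt N U l14 (w 14 + o)) (Hl16 : Lt N U
  l16 (w 16 + o)) (Hl17 : Lt N U l17 (w 17 + o)) (Hl18 : Lt N U l18 (w 18 + o)) (Hl26 : Lt N U l26 (w
  26 + o)) (Hl27 : Lt N U l27 (w 27 + o)) (Hl29 : Lt N U l29 (w 29 + o)) (Hl30 : Lt N U l30 (w 30 + o))
  (Hl31 : Lt N U l31 (w 31 + o)) (Hp01_12 : Rp N p01_12 tp01_12) (Hp02_12 : Rp N p02_12 tp02_12)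
  (Hp03_12 : Rp N p03_12 tp03_12) (Hp12_12 : Rp N p12_12 tp12_12) (Hp12_13 : Rp N p12_13 tp12_13)
  (Hp12_23 : Rp N p12_23 tp12_23) (Hp01_13 : Rp N p01_13 tp01_13) (Hp02_13 : Rp N p02_13 tp02_13)
  (Hp03_13 : Rp N p03_13 tp03_13) (Hp13_13 : Rp N p13_13 tp13_13) (Hp13_23 : Rp N p13_23 tp13_23)
  (Hp02_23 : Rp N p02_23 tp02_23) (Hp03_23 : Rp N p03_23 tp03_23) (Hp23_23 : Rp N p23_23 tp23_23) (HcU0
  : Cv N cU0 (o * (0 - ((((tp01_12 + tp02_12) + (tp03_12 + tp12_12)) + ((tp12_13 + tp12_23) + (tp01_13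
  + tp02_13))) + (((tp03_13 + tp12_13) + (tp13_13 + tp13_23)) + ((tp02_23 + tp03_23) + (tp12_23 +
  (tp13_23 + tp23_23)))))))) : Cv N (Nat.land (Nat.add (Nat.add (Nat.add (Nat.add (Nat.add (Nat.mul l2
  p01_12) (Nat.mul l4 p02_12)) (Nat.add (Nat.mul l5 p03_12) (Nat.mul l7 p12_12))) (Nat.add (Nat.add
  (Nat.mul l8 p12_13) (Nat.mul l9 p12_23)) (Nat.add (Nat.mul l11 p01_13) (Nat.mul l13 p02_13))))
  (Nat.add (Nat.add (Nat.add (Nat.mul l14 p03_13) (Nat.mul l16 p12_13)) (Nat.add (Nat.mul l17 p13_13)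
  (Nat.mul l18 p13_23))) (Nat.add (Nat.add (Nat.mul l26 p02_23) (Nat.mul l27 p03_23)) (Nat.add (Nat.mul
  l29 p12_23) (Nat.add (Nat.mul l30 p13_23) (Nat.mul l31 p23_23)))))) cU0) M) ((((((w 2 * tp01_12) + (w
  4 * tp02_12)) + ((w 5 * tp03_12) + (w 7 * tp12_12))) + (((w 8 * tp12_13) + (w 9 * tp12_23)) + ((w 11
  * tp01_13) + (w 13 * tp02_13)))) + ((((w 14 * tp03_13) + (w 16 * tp12_13)) + ((w 17 * tp13_13) + (w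
  18 * tp13_23))) + (((w 26 * tp02_23) + (w 27 * tp03_23)) + ((w 29 * tp12_23) + ((w 30 * tp13_23) + (w
  31 * tp23_23))))))) :=
  (Cv.congr (Cv.land E (Cv.add (Cv.add (Cv.add (Cv.add (Cv.add (Cv.mul (Hl2).1 (Hp01_12).1) (Cv.mul
    (Hl4).1 (Hp02_12).1)) (Cv.add (Cv.mul (Hl5).1 (Hp03_12).1) (Cv.mul (Hl7).1 (Hp12_12).1))) (Cv.add
    (Cv.add (Cv.mul (Hl8).1 (Hp12_13).1) (Cv.mul (Hl9).1 (Hp12_23).1)) (Cv.add (Cv.mul (Hl11).1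
    (Hp01_13).1) (Cv.mul (Hl13).1 (Hp02_13).1)))) (Cv.add (Cv.add (Cv.add (Cv.mul (Hl14).1 (Hp03_13).1)
    (Cv.mul (Hl16).1 (Hp12_13).1)) (Cv.add (Cv.mul (Hl17).1 (Hp13_13).1) (Cv.mul (Hl18).1
    (Hp13_23).1))) (Cv.add (Cv.add (Cv.mul (Hl26).1 (Hp02_23).1) (Cv.mul (Hl27).1 (Hp03_23).1)) (Cv.add
    (Cv.mul (Hl29).1 (Hp12_23).1) (Cv.add (Cv.mul (Hl30).1 (Hp13_23).1) (Cv.mul (Hl31).1
    (Hp23_23).1)))))) HcU0)) (by ring))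

theorem vU1_cv {N M N2 U KN : ℕ} (E : Ev N M N2) (hK0 : (KN : ZMod N) = 0) (hK : 16 * (U * N) ≤ KN) {w
  : ℕ → ZMod N} {o : ZMod N} {l2 l4 l5 l7 l8 l9 l11 l13 l14 l16 l17 l18 l41 l42 l43 p01_02 p02_02
  p02_03 p02_12 p02_13 p02_23 p01_03 p03_03 p03_12 p03_13 p03_23 p12_23 p13_23 p23_23 cU1 : ℕ} {tp01_02
  tp02_02 tp02_03 tp02_12 tp02_13 tp02_23 tp01_03 tp03_03 tp03_12 tp03_13 tp03_23 tp12_23 tp13_23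
  tp23_23 : ZMod N} (Hl2 : Lt N U l2 (w 2 + o)) (Hl4 : Lt N U l4 (w 4 + o)) (Hl5 : Lt N U l5 (w 5 + o))
  (Hl7 : Lt N U l7 (w 7 + o)) (Hl8 : Lt N U l8 (w 8 + o)) (Hl9 : Lt N U l9 (w 9 + o)) (Hl11 : Lt N U
  l11 (w 11 + o)) (Hl13 : Lt N U l13 (w 13 + o)) (Hl14 : Lt N U l14 (w 14 + o)) (Hl16 : Lt N U l16 (w
  16 + o)) (Hl17 : Lt N U l17 (w 17 + o)) (Hl18 : Lt N U l18 (w 18 + o)) (Hl41 : Lt N U l41 (w 41 + o))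
  (Hl42 : Lt N U l42 (w 42 + o)) (Hl43 : Lt N U l43 (w 43 + o)) (Hp01_02 : Rp N p01_02 tp01_02)
  (Hp02_02 : Rp N p02_02 tp02_02) (Hp02_03 : Rp N p02_03 tp02_03) (Hp02_12 : Rp N p02_12 tp02_12)
  (Hp02_13 : Rp N p02_13 tp02_13) (Hp02_23 : Rp N p02_23 tp02_23) (Hp01_03 : Rp N p01_03 tp01_03)
  (Hp03_03 : Rp N p03_03 tp03_03) (Hp03_12 : Rp N p03_12 tp03_12) (Hp03_13 : Rp N p03_13 tp03_13)
  (Hp03_23 : Rp N p03_23 tp03_23) (Hp12_23 : Rp N p12_23 tp12_23) (Hp13_23 : Rp N p13_23 tp13_23)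
  (Hp23_23 : Rp N p23_23 tp23_23) (HcU1 : Cv N cU1 (o * ((((tp01_02 + (tp02_02 + tp02_03)) + (tp02_12 +
  (tp02_13 + tp02_23))) + ((tp01_03 + (tp02_03 + tp03_03)) + (tp03_12 + (tp03_13 + tp03_23)))) -
  (tp12_23 + (tp13_23 + tp23_23))))) : Cv N (Nat.land (Nat.add (Nat.add (Nat.add (Nat.mul l41 p12_23)
  (Nat.add (Nat.mul l42 p13_23) (Nat.mul l43 p23_23))) cU1) (Nat.sub KN (Nat.add (Nat.add (Nat.add
  (Nat.mul l2 p01_02) (Nat.add (Nat.mul l4 p02_02) (Nat.mul l5 p02_03))) (Nat.add (Nat.mul l7 p02_12)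
  (Nat.add (Nat.mul l8 p02_13) (Nat.mul l9 p02_23)))) (Nat.add (Nat.add (Nat.mul l11 p01_03) (Nat.add
  (Nat.mul l13 p02_03) (Nat.mul l14 p03_03))) (Nat.add (Nat.mul l16 p03_12) (Nat.add (Nat.mul l17
  p03_13) (Nat.mul l18 p03_23))))))) M) (((w 41 * tp12_23) + ((w 42 * tp13_23) + (w 43 * tp23_23))) -
  ((((w 2 * tp01_02) + ((w 4 * tp02_02) + (w 5 * tp02_03))) + ((w 7 * tp02_12) + ((w 8 * tp02_13) + (w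
  9 * tp02_23)))) + (((w 11 * tp01_03) + ((w 13 * tp02_03) + (w 14 * tp03_03))) + ((w 16 * tp03_12) +
  ((w 17 * tp03_13) + (w 18 * tp03_23)))))) :=
  (Cv.congr (Cv.land E (Cv.add (Cv.add (Cv.add (Cv.mul (Hl41).1 (Hp12_23).1) (Cv.add (Cv.mul (Hl42).1
    (Hp13_23).1) (Cv.mul (Hl43).1 (Hp23_23).1))) HcU1) (Cv.sub hK0 (Sm.add (Sm.add (Sm.add (Sm.lg Hl2
    Hp01_02) (Sm.add (Sm.lg Hl4 Hp02_02) (Sm.lg Hl5 Hp02_03))) (Sm.add (Sm.lg Hl7 Hp02_12) (Sm.add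
    (Sm.lg Hl8 Hp02_13) (Sm.lg Hl9 Hp02_23)))) (Sm.add (Sm.add (Sm.lg Hl11 Hp01_03) (Sm.add (Sm.lg Hl13
    Hp02_03) (Sm.lg Hl14 Hp03_03))) (Sm.add (Sm.lg Hl16 Hp03_12) (Sm.add (Sm.lg Hl17 Hp03_13) (Sm.lg
    Hl18 Hp03_23))))) (le_trans (Nat.mul_le_mul_right _ (by norm_num)) hK)))) (by ring))

theorem vU2_cv {N M N2 U KN : ℕ} (E : Ev N M N2) (hK0 : (KN : ZMod N) = 0) (hK : 16 * (U * N) ≤ KN) {w
  : ℕ → ZMod N} {o : ZMod N} {l2 l4 l5 l7 l8 l9 l26 l27 l29 l30 l31 l41 l42 l43 p01_01 p01_02 p01_03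
  p01_12 p01_13 p01_23 p02_03 p03_03 p03_12 p03_13 p03_23 p12_13 p13_13 p13_23 cU2 : ℕ} {tp01_01
  tp01_02 tp01_03 tp01_12 tp01_13 tp01_23 tp02_03 tp03_03 tp03_12 tp03_13 tp03_23 tp12_13 tp13_13
  tp13_23 : ZMod N} (Hl2 : Lt N U l2 (w 2 + o)) (Hl4 : Lt N U l4 (w 4 + o)) (Hl5 : Lt N U l5 (w 5 + o))
  (Hl7 : Lt N U l7 (w 7 + o)) (Hl8 : Lt N U l8 (w 8 + o)) (Hl9 : Lt N U l9 (w 9 + o)) (Hl26 : Lt N U
  l26 (w 26 + o)) (Hl27 : Lt N U l27 (w 27 + o)) (Hl29 : Lt N U l29 (w 29 + o)) (Hl30 : Lt N U l30 (w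
  30 + o)) (Hl31 : Lt N U l31 (w 31 + o)) (Hl41 : Lt N U l41 (w 41 + o)) (Hl42 : Lt N U l42 (w 42 + o))
  (Hl43 : Lt N U l43 (w 43 + o)) (Hp01_01 : Rp N p01_01 tp01_01) (Hp01_02 : Rp N p01_02 tp01_02)
  (Hp01_03 : Rp N p01_03 tp01_03) (Hp01_12 : Rp N p01_12 tp01_12) (Hp01_13 : Rp N p01_13 tp01_13)
  (Hp01_23 : Rp N p01_23 tp01_23) (Hp02_03 : Rp N p02_03 tp02_03) (Hp03_03 : Rp N p03_03 tp03_03)
  (Hp03_12 : Rp N p03_12 tp03_12) (Hp03_13 : Rp N p03_13 tp03_13) (Hp03_23 : Rp N p03_23 tp03_23)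
  (Hp12_13 : Rp N p12_13 tp12_13) (Hp13_13 : Rp N p13_13 tp13_13) (Hp13_23 : Rp N p13_23 tp13_23) (HcU2
  : Cv N cU2 (o * ((((tp02_03 + tp03_03) + (tp03_12 + tp03_13)) + ((tp03_23 + tp12_13) + (tp13_13 +
  tp13_23))) - ((tp01_01 + (tp01_02 + tp01_03)) + (tp01_12 + (tp01_13 + tp01_23)))))) : Cv N (Nat.land
  (Nat.add (Nat.add (Nat.add (Nat.add (Nat.mul l2 p01_01) (Nat.add (Nat.mul l4 p01_02) (Nat.mul l5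
  p01_03))) (Nat.add (Nat.mul l7 p01_12) (Nat.add (Nat.mul l8 p01_13) (Nat.mul l9 p01_23)))) cU2)
  (Nat.sub KN (Nat.add (Nat.add (Nat.add (Nat.mul l26 p02_03) (Nat.mul l27 p03_03)) (Nat.add (Nat.mul
  l29 p03_12) (Nat.mul l30 p03_13))) (Nat.add (Nat.add (Nat.mul l31 p03_23) (Nat.mul l41 p12_13))
  (Nat.add (Nat.mul l42 p13_13) (Nat.mul l43 p13_23)))))) M) ((((w 2 * tp01_01) + ((w 4 * tp01_02) + (w
  5 * tp01_03))) + ((w 7 * tp01_12) + ((w 8 * tp01_13) + (w 9 * tp01_23)))) - ((((w 26 * tp02_03) + (w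
  27 * tp03_03)) + ((w 29 * tp03_12) + (w 30 * tp03_13))) + (((w 31 * tp03_23) + (w 41 * tp12_13)) +
  ((w 42 * tp13_13) + (w 43 * tp13_23))))) :=
  (Cv.congr (Cv.land E (Cv.add (Cv.add (Cv.add (Cv.add (Cv.mul (Hl2).1 (Hp01_01).1) (Cv.add (Cv.mul
    (Hl4).1 (Hp01_02).1) (Cv.mul (Hl5).1 (Hp01_03).1))) (Cv.add (Cv.mul (Hl7).1 (Hp01_12).1) (Cv.add
    (Cv.mul (Hl8).1 (Hp01_13).1) (Cv.mul (Hl9).1 (Hp01_23).1)))) HcU2) (Cv.sub hK0 (Sm.add (Sm.add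
    (Sm.add (Sm.lg Hl26 Hp02_03) (Sm.lg Hl27 Hp03_03)) (Sm.add (Sm.lg Hl29 Hp03_12) (Sm.lg Hl30
    Hp03_13))) (Sm.add (Sm.add (Sm.lg Hl31 Hp03_23) (Sm.lg Hl41 Hp12_13)) (Sm.add (Sm.lg Hl42 Hp13_13)
    (Sm.lg Hl43 Hp13_23)))) (le_trans (Nat.mul_le_mul_right _ (by norm_num)) hK)))) (by ring))

theorem vU3_cv {N M N2 U KN : ℕ} (E : Ev N M N2) (hK0 : (KN : ZMod N) = 0) (hK : 16 * (U * N) ≤ KN) {w
  : ℕ → ZMod N} {o : ZMod N} {l11 l13 l14 l16 l17 l18 l26 l27 l29 l30 l31 l41 l42 l43 p01_01 p01_02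
  p01_03 p01_12 p01_13 p01_23 p02_02 p02_03 p02_12 p02_13 p02_23 p12_12 p12_13 p12_23 cU3 : ℕ} {tp01_01
  tp01_02 tp01_03 tp01_12 tp01_13 tp01_23 tp02_02 tp02_03 tp02_12 tp02_13 tp02_23 tp12_12 tp12_13
  tp12_23 : ZMod N} (Hl11 : Lt N U l11 (w 11 + o)) (Hl13 : Lt N U l13 (w 13 + o)) (Hl14 : Lt N U l14 (w
  14 + o)) (Hl16 : Lt N U l16 (w 16 + o)) (Hl17 : Lt N U l17 (w 17 + o)) (Hl18 : Lt N U l18 (w 18 + o))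
  (Hl26 : Lt N U l26 (w 26 + o)) (Hl27 : Lt N U l27 (w 27 + o)) (Hl29 : Lt N U l29 (w 29 + o)) (Hl30 :
  Lt N U l30 (w 30 + o)) (Hl31 : Lt N U l31 (w 31 + o)) (Hl41 : Lt N U l41 (w 41 + o)) (Hl42 : Lt N U
  l42 (w 42 + o)) (Hl43 : Lt N U l43 (w 43 + o)) (Hp01_01 : Rp N p01_01 tp01_01) (Hp01_02 : Rp N p01_02
  tp01_02) (Hp01_03 : Rp N p01_03 tp01_03) (Hp01_12 : Rp N p01_12 tp01_12) (Hp01_13 : Rp N p01_13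
  tp01_13) (Hp01_23 : Rp N p01_23 tp01_23) (Hp02_02 : Rp N p02_02 tp02_02) (Hp02_03 : Rp N p02_03
  tp02_03) (Hp02_12 : Rp N p02_12 tp02_12) (Hp02_13 : Rp N p02_13 tp02_13) (Hp02_23 : Rp N p02_23
  tp02_23) (Hp12_12 : Rp N p12_12 tp12_12) (Hp12_13 : Rp N p12_13 tp12_13) (Hp12_23 : Rp N p12_23
  tp12_23) (HcU3 : Cv N cU3 (o * (0 - (((tp01_01 + (tp01_02 + tp01_03)) + ((tp01_12 + tp01_13) +
  (tp01_23 + tp02_02))) + ((tp02_03 + (tp02_12 + tp02_13)) + ((tp02_23 + tp12_12) + (tp12_13 +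
  tp12_23))))))) : Cv N (Nat.land (Nat.add (Nat.add (Nat.add (Nat.add (Nat.mul l11 p01_01) (Nat.add
  (Nat.mul l13 p01_02) (Nat.mul l14 p01_03))) (Nat.add (Nat.add (Nat.mul l16 p01_12) (Nat.mul l17
  p01_13)) (Nat.add (Nat.mul l18 p01_23) (Nat.mul l26 p02_02)))) (Nat.add (Nat.add (Nat.mul l27 p02_03)
  (Nat.add (Nat.mul l29 p02_12) (Nat.mul l30 p02_13))) (Nat.add (Nat.add (Nat.mul l31 p02_23) (Nat.mul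
  l41 p12_12)) (Nat.add (Nat.mul l42 p12_13) (Nat.mul l43 p12_23))))) cU3) M) (((((w 11 * tp01_01) +
  ((w 13 * tp01_02) + (w 14 * tp01_03))) + (((w 16 * tp01_12) + (w 17 * tp01_13)) + ((w 18 * tp01_23) +
  (w 26 * tp02_02)))) + (((w 27 * tp02_03) + ((w 29 * tp02_12) + (w 30 * tp02_13))) + (((w 31 *
  tp02_23) + (w 41 * tp12_12)) + ((w 42 * tp12_13) + (w 43 * tp12_23)))))) :=
  (Cv.congr (Cv.land E (Cv.add (Cv.add (Cv.add (Cv.add (Cv.mul (Hl11).1 (Hp01_01).1) (Cv.add (Cv.mul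
    (Hl13).1 (Hp01_02).1) (Cv.mul (Hl14).1 (Hp01_03).1))) (Cv.add (Cv.add (Cv.mul (Hl16).1 (Hp01_12).1)
    (Cv.mul (Hl17).1 (Hp01_13).1)) (Cv.add (Cv.mul (Hl18).1 (Hp01_23).1) (Cv.mul (Hl26).1
    (Hp02_02).1)))) (Cv.add (Cv.add (Cv.mul (Hl27).1 (Hp02_03).1) (Cv.add (Cv.mul (Hl29).1 (Hp02_12).1)
    (Cv.mul (Hl30).1 (Hp02_13).1))) (Cv.add (Cv.add (Cv.mul (Hl31).1 (Hp02_23).1) (Cv.mul (Hl41).1
    (Hp12_12).1)) (Cv.add (Cv.mul (Hl42).1 (Hp12_13).1) (Cv.mul (Hl43).1 (Hp12_23).1))))) HcU3)) (by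
    ring))

theorem vV_cv {N M N2 U KN : ℕ} (E : Ev N M N2) (hK0 : (KN : ZMod N) = 0) (hK : 16 * (U * N) ≤ KN) {w :
  ℕ → ZMod N} {o : ZMod N} {l19 l20 l21 l22 l23 l24 l32 l33 l34 l35 l36 l37 l38 l39 l44 l45 l46 l47 l48
  l49 p01_01 p01_02 p01_03 p01_12 p01_13 p01_23 p02_02 p02_03 p02_12 p02_13 p02_23 p03_03 p03_13 p03_23
  p12_12 p12_13 p12_23 p13_13 p13_23 p23_23 cV : ℕ} {tp01_01 tp01_02 tp01_03 tp01_12 tp01_13 tp01_23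
  tp02_02 tp02_03 tp02_12 tp02_13 tp02_23 tp03_03 tp03_13 tp03_23 tp12_12 tp12_13 tp12_23 tp13_13
  tp13_23 tp23_23 : ZMod N} (Hl19 : Lt N U l19 (w 19 + o)) (Hl20 : Lt N U l20 (w 20 + o)) (Hl21 : Lt N
  U l21 (w 21 + o)) (Hl22 : Lt N U l22 (w 22 + o)) (Hl23 : Lt N U l23 (w 23 + o)) (Hl24 : Lt N U l24 (w
  24 + o)) (Hl32 : Lt N U l32 (w 32 + o)) (Hl33 : Lt N U l33 (w 33 + o)) (Hl34 : Lt N U l34 (w 34 + o))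
  (Hl35 : Lt N U l35 (w 35 + o)) (Hl36 : Lt N U l36 (w 36 + o)) (Hl37 : Lt N U l37 (w 37 + o)) (Hl38 :
  Lt N U l38 (w 38 + o)) (Hl39 : Lt N U l39 (w 39 + o)) (Hl44 : Lt N U l44 (w 44 + o)) (Hl45 : Lt N U
  l45 (w 45 + o)) (Hl46 : Lt N U l46 (w 46 + o)) (Hl47 : Lt N U l47 (w 47 + o)) (Hl48 : Lt N U l48 (w
  48 + o)) (Hl49 : Lt N U l49 (w 49 + o)) (Hp01_01 : Rp N p01_01 tp01_01) (Hp01_02 : Rp N p01_02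
  tp01_02) (Hp01_03 : Rp N p01_03 tp01_03) (Hp01_12 : Rp N p01_12 tp01_12) (Hp01_13 : Rp N p01_13
  tp01_13) (Hp01_23 : Rp N p01_23 tp01_23) (Hp02_02 : Rp N p02_02 tp02_02) (Hp02_03 : Rp N p02_03
  tp02_03) (Hp02_12 : Rp N p02_12 tp02_12) (Hp02_13 : Rp N p02_13 tp02_13) (Hp02_23 : Rp N p02_23
  tp02_23) (Hp03_03 : Rp N p03_03 tp03_03) (Hp03_13 : Rp N p03_13 tp03_13) (Hp03_23 : Rp N p03_23
  tp03_23) (Hp12_12 : Rp N p12_12 tp12_12) (Hp12_13 : Rp N p12_13 tp12_13) (Hp12_23 : Rp N p12_23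
  tp12_23) (Hp13_13 : Rp N p13_13 tp13_13) (Hp13_23 : Rp N p13_23 tp13_23) (Hp23_23 : Rp N p23_23
  tp23_23) (HcV : Cv N cV (o * (0 - ((((tp01_01 + tp01_02) + (tp01_03 + (tp01_12 + tp01_13))) +
  ((tp01_23 + tp02_02) + (tp02_03 + (tp02_12 + tp02_13)))) + (((tp02_23 + tp03_03) + (tp03_13 +
  (tp03_23 + tp12_12))) + ((tp12_13 + tp12_23) + (tp13_13 + (tp13_23 + tp23_23)))))))) : Cv N (Nat.land
  (Nat.add (Nat.add (Nat.add (Nat.add (Nat.add (Nat.mul l19 p01_01) (Nat.mul l20 p01_02)) (Nat.add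
  (Nat.mul l21 p01_03) (Nat.add (Nat.mul l22 p01_12) (Nat.mul l23 p01_13)))) (Nat.add (Nat.add (Nat.mul
  l24 p01_23) (Nat.mul l32 p02_02)) (Nat.add (Nat.mul l33 p02_03) (Nat.add (Nat.mul l34 p02_12)
  (Nat.mul l35 p02_13))))) (Nat.add (Nat.add (Nat.add (Nat.mul l36 p02_23) (Nat.mul l37 p03_03))
  (Nat.add (Nat.mul l38 p03_13) (Nat.add (Nat.mul l39 p03_23) (Nat.mul l44 p12_12)))) (Nat.add (Nat.add
  (Nat.mul l45 p12_13) (Nat.mul l46 p12_23)) (Nat.add (Nat.mul l47 p13_13) (Nat.add (Nat.mul l48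
  p13_23) (Nat.mul l49 p23_23)))))) cV) M) ((((((w 19 * tp01_01) + (w 20 * tp01_02)) + ((w 21 *
  tp01_03) + ((w 22 * tp01_12) + (w 23 * tp01_13)))) + (((w 24 * tp01_23) + (w 32 * tp02_02)) + ((w 33
  * tp02_03) + ((w 34 * tp02_12) + (w 35 * tp02_13))))) + ((((w 36 * tp02_23) + (w 37 * tp03_03)) + ((w
  38 * tp03_13) + ((w 39 * tp03_23) + (w 44 * tp12_12)))) + (((w 45 * tp12_13) + (w 46 * tp12_23)) +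
  ((w 47 * tp13_13) + ((w 48 * tp13_23) + (w 49 * tp23_23))))))) :=
  (Cv.congr (Cv.land E (Cv.add (Cv.add (Cv.add (Cv.add (Cv.add (Cv.mul (Hl19).1 (Hp01_01).1) (Cv.mul
    (Hl20).1 (Hp01_02).1)) (Cv.add (Cv.mul (Hl21).1 (Hp01_03).1) (Cv.add (Cv.mul (Hl22).1 (Hp01_12).1)
    (Cv.mul (Hl23).1 (Hp01_13).1)))) (Cv.add (Cv.add (Cv.mul (Hl24).1 (Hp01_23).1) (Cv.mul (Hl32).1
    (Hp02_02).1)) (Cv.add (Cv.mul (Hl33).1 (Hp02_03).1) (Cv.add (Cv.mul (Hl34).1 (Hp02_12).1) (Cv.mul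
    (Hl35).1 (Hp02_13).1))))) (Cv.add (Cv.add (Cv.add (Cv.mul (Hl36).1 (Hp02_23).1) (Cv.mul (Hl37).1
    (Hp03_03).1)) (Cv.add (Cv.mul (Hl38).1 (Hp03_13).1) (Cv.add (Cv.mul (Hl39).1 (Hp03_23).1) (Cv.mul
    (Hl44).1 (Hp12_12).1)))) (Cv.add (Cv.add (Cv.mul (Hl45).1 (Hp12_13).1) (Cv.mul (Hl46).1
    (Hp12_23).1)) (Cv.add (Cv.mul (Hl47).1 (Hp13_13).1) (Cv.add (Cv.mul (Hl48).1 (Hp13_23).1) (Cv.mul
    (Hl49).1 (Hp23_23).1)))))) HcV)) (by ring))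

theorem vS00_cv {N M N2 U KN : ℕ} (E : Ev N M N2) (hK0 : (KN : ZMod N) = 0) (hK : 16 * (U * N) ≤ KN) {w
  : ℕ → ZMod N} {o : ZMod N} {l19 l20 l21 l32 l33 l37 g11 g12 g13 g22 g23 g33 cS00 : ℕ} {tg11 tg12 tg13
  tg22 tg23 tg33 : ZMod N} (Hl19 : Lt N U l19 (w 19 + o)) (Hl20 : Lt N U l20 (w 20 + o)) (Hl21 : Lt N U
  l21 (w 21 + o)) (Hl32 : Lt N U l32 (w 32 + o)) (Hl33 : Lt N U l33 (w 33 + o)) (Hl37 : Lt N U l37 (w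
  37 + o)) (Hg11 : Rp N g11 tg11) (Hg12 : Rp N g12 tg12) (Hg13 : Rp N g13 tg13) (Hg22 : Rp N g22 tg22)
  (Hg23 : Rp N g23 tg23) (Hg33 : Rp N g33 tg33) (HcS00 : Cv N cS00 (o * (((tg11 + (tg12 + tg13)) +
  (tg22 + (tg23 + tg33)))))) : Cv N (Nat.land (Nat.add cS00 (Nat.sub KN (Nat.add (Nat.add (Nat.mul l19
  g11) (Nat.add (Nat.mul l20 g12) (Nat.mul l21 g13))) (Nat.add (Nat.mul l32 g22) (Nat.add (Nat.mul l33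
  g23) (Nat.mul l37 g33)))))) M) (0 - (((w 19 * tg11) + ((w 20 * tg12) + (w 21 * tg13))) + ((w 32 *
  tg22) + ((w 33 * tg23) + (w 37 * tg33))))) :=
  (Cv.congr (Cv.land E (Cv.add HcS00 (Cv.sub hK0 (Sm.add (Sm.add (Sm.lg Hl19 Hg11) (Sm.add (Sm.lg Hl20
    Hg12) (Sm.lg Hl21 Hg13))) (Sm.add (Sm.lg Hl32 Hg22) (Sm.add (Sm.lg Hl33 Hg23) (Sm.lg Hl37 Hg33))))
    (le_trans (Nat.mul_le_mul_right _ (by norm_num)) hK)))) (by ring))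

theorem vS01_cv {N M N2 U KN : ℕ} (E : Ev N M N2) (hK0 : (KN : ZMod N) = 0) (hK : 16 * (U * N) ≤ KN) {w
  : ℕ → ZMod N} {o : ZMod N} {l19 l20 l21 l22 l23 l34 l35 l38 g01 g02 g03 g12 g13 g22 g23 g33 cS01 : ℕ}
  {tg01 tg02 tg03 tg12 tg13 tg22 tg23 tg33 : ZMod N} (Hl19 : Lt N U l19 (w 19 + o)) (Hl20 : Lt N U l20
  (w 20 + o)) (Hl21 : Lt N U l21 (w 21 + o)) (Hl22 : Lt N U l22 (w 22 + o)) (Hl23 : Lt N U l23 (w 23 +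
  o)) (Hl34 : Lt N U l34 (w 34 + o)) (Hl35 : Lt N U l35 (w 35 + o)) (Hl38 : Lt N U l38 (w 38 + o))
  (Hg01 : Rp N g01 tg01) (Hg02 : Rp N g02 tg02) (Hg03 : Rp N g03 tg03) (Hg12 : Rp N g12 tg12) (Hg13 :
  Rp N g13 tg13) (Hg22 : Rp N g22 tg22) (Hg23 : Rp N g23 tg23) (Hg33 : Rp N g33 tg33) (HcS01 : Cv N
  cS01 (o * (((tg12 + tg13) + (tg22 + (tg23 + tg33))) - ((tg01 + tg01) + (tg02 + tg03))))) : Cv N
  (Nat.land (Nat.add (Nat.add (Nat.add (Nat.add (Nat.mul l19 g01) (Nat.mul l19 g01)) (Nat.add (Nat.mul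
  l20 g02) (Nat.mul l21 g03))) cS01) (Nat.sub KN (Nat.add (Nat.add (Nat.mul l22 g12) (Nat.mul l23 g13))
  (Nat.add (Nat.mul l34 g22) (Nat.add (Nat.mul l35 g23) (Nat.mul l38 g33)))))) M) ((((w 19 * tg01) + (w
  19 * tg01)) + ((w 20 * tg02) + (w 21 * tg03))) - (((w 22 * tg12) + (w 23 * tg13)) + ((w 34 * tg22) +
  ((w 35 * tg23) + (w 38 * tg33))))) :=
  (Cv.congr (Cv.land E (Cv.add (Cv.add (Cv.add (Cv.add (Cv.mul (Hl19).1 (Hg01).1) (Cv.mul (Hl19).1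
    (Hg01).1)) (Cv.add (Cv.mul (Hl20).1 (Hg02).1) (Cv.mul (Hl21).1 (Hg03).1))) HcS01) (Cv.sub hK0
    (Sm.add (Sm.add (Sm.lg Hl22 Hg12) (Sm.lg Hl23 Hg13)) (Sm.add (Sm.lg Hl34 Hg22) (Sm.add (Sm.lg Hl35
    Hg23) (Sm.lg Hl38 Hg33)))) (le_trans (Nat.mul_le_mul_right _ (by norm_num)) hK)))) (by ring))

theorem vS02_cv {N M N2 U KN : ℕ} (E : Ev N M N2) (hK0 : (KN : ZMod N) = 0) (hK : 16 * (U * N) ≤ KN) {w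
  : ℕ → ZMod N} {o : ZMod N} {l20 l22 l24 l32 l33 l34 l36 l39 g01 g11 g13 g02 g03 g12 g23 g33 cS02 : ℕ}
  {tg01 tg11 tg13 tg02 tg03 tg12 tg23 tg33 : ZMod N} (Hl20 : Lt N U l20 (w 20 + o)) (Hl22 : Lt N U l22
  (w 22 + o)) (Hl24 : Lt N U l24 (w 24 + o)) (Hl32 : Lt N U l32 (w 32 + o)) (Hl33 : Lt N U l33 (w 33 +
  o)) (Hl34 : Lt N U l34 (w 34 + o)) (Hl36 : Lt N U l36 (w 36 + o)) (Hl39 : Lt N U l39 (w 39 + o))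
  (Hg01 : Rp N g01 tg01) (Hg11 : Rp N g11 tg11) (Hg13 : Rp N g13 tg13) (Hg02 : Rp N g02 tg02) (Hg03 :
  Rp N g03 tg03) (Hg12 : Rp N g12 tg12) (Hg23 : Rp N g23 tg23) (Hg33 : Rp N g33 tg33) (HcS02 : Cv N
  cS02 (o * ((tg13 + (tg23 + tg33)) - ((tg01 + (tg11 + tg02)) + (tg02 + (tg03 + tg12)))))) : Cv N
  (Nat.land (Nat.add (Nat.add (Nat.add (Nat.add (Nat.mul l20 g01) (Nat.add (Nat.mul l22 g11) (Nat.mul
  l32 g02))) (Nat.add (Nat.mul l32 g02) (Nat.add (Nat.mul l33 g03) (Nat.mul l34 g12)))) cS02) (Nat.sub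
  KN (Nat.add (Nat.mul l24 g13) (Nat.add (Nat.mul l36 g23) (Nat.mul l39 g33))))) M) ((((w 20 * tg01) +
  ((w 22 * tg11) + (w 32 * tg02))) + ((w 32 * tg02) + ((w 33 * tg03) + (w 34 * tg12)))) - ((w 24 *
  tg13) + ((w 36 * tg23) + (w 39 * tg33)))) :=
  (Cv.congr (Cv.land E (Cv.add (Cv.add (Cv.add (Cv.add (Cv.mul (Hl20).1 (Hg01).1) (Cv.add (Cv.mul
    (Hl22).1 (Hg11).1) (Cv.mul (Hl32).1 (Hg02).1))) (Cv.add (Cv.mul (Hl32).1 (Hg02).1) (Cv.add (Cv.mul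
    (Hl33).1 (Hg03).1) (Cv.mul (Hl34).1 (Hg12).1)))) HcS02) (Cv.sub hK0 (Sm.add (Sm.lg Hl24 Hg13)
    (Sm.add (Sm.lg Hl36 Hg23) (Sm.lg Hl39 Hg33))) (le_trans (Nat.mul_le_mul_right _ (by norm_num))
    hK)))) (by ring))

theorem vS03_cv {N M N2 U KN : ℕ} (E : Ev N M N2) (hK0 : (KN : ZMod N) = 0) (hK : 16 * (U * N) ≤ KN) {w
  : ℕ → ZMod N} {o : ZMod N} {l21 l23 l24 l33 l35 l36 l37 l38 l39 g01 g11 g12 g02 g22 g03 g13 g23 cS03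
  : ℕ} {tg01 tg11 tg12 tg02 tg22 tg03 tg13 tg23 : ZMod N} (Hl21 : Lt N U l21 (w 21 + o)) (Hl23 : Lt N U
  l23 (w 23 + o)) (Hl24 : Lt N U l24 (w 24 + o)) (Hl33 : Lt N U l33 (w 33 + o)) (Hl35 : Lt N U l35 (w
  35 + o)) (Hl36 : Lt N U l36 (w 36 + o)) (Hl37 : Lt N U l37 (w 37 + o)) (Hl38 : Lt N U l38 (w 38 + o))
  (Hl39 : Lt N U l39 (w 39 + o)) (Hg01 : Rp N g01 tg01) (Hg11 : Rp N g11 tg11) (Hg12 : Rp N g12 tg12)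
  (Hg02 : Rp N g02 tg02) (Hg22 : Rp N g22 tg22) (Hg03 : Rp N g03 tg03) (Hg13 : Rp N g13 tg13) (Hg23 :
  Rp N g23 tg23) (HcS03 : Cv N cS03 (o * (0 - (((tg01 + tg11) + (tg12 + (tg02 + tg12))) + ((tg22 +
  tg03) + (tg03 + (tg13 + tg23))))))) : Cv N (Nat.land (Nat.add (Nat.add (Nat.add (Nat.add (Nat.mul l21
  g01) (Nat.mul l23 g11)) (Nat.add (Nat.mul l24 g12) (Nat.add (Nat.mul l33 g02) (Nat.mul l35 g12))))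
  (Nat.add (Nat.add (Nat.mul l36 g22) (Nat.mul l37 g03)) (Nat.add (Nat.mul l37 g03) (Nat.add (Nat.mul
  l38 g13) (Nat.mul l39 g23))))) cS03) M) (((((w 21 * tg01) + (w 23 * tg11)) + ((w 24 * tg12) + ((w 33
  * tg02) + (w 35 * tg12)))) + (((w 36 * tg22) + (w 37 * tg03)) + ((w 37 * tg03) + ((w 38 * tg13) + (w
  39 * tg23)))))) :=
  (Cv.congr (Cv.land E (Cv.add (Cv.add (Cv.add (Cv.add (Cv.mul (Hl21).1 (Hg01).1) (Cv.mul (Hl23).1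
    (Hg11).1)) (Cv.add (Cv.mul (Hl24).1 (Hg12).1) (Cv.add (Cv.mul (Hl33).1 (Hg02).1) (Cv.mul (Hl35).1
    (Hg12).1)))) (Cv.add (Cv.add (Cv.mul (Hl36).1 (Hg22).1) (Cv.mul (Hl37).1 (Hg03).1)) (Cv.add (Cv.mul
    (Hl37).1 (Hg03).1) (Cv.add (Cv.mul (Hl38).1 (Hg13).1) (Cv.mul (Hl39).1 (Hg23).1))))) HcS03)) (by
    ring))

theorem vS11_cv {N M N2 U KN : ℕ} (E : Ev N M N2) (hK0 : (KN : ZMod N) = 0) (hK : 16 * (U * N) ≤ KN) {w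
  : ℕ → ZMod N} {o : ZMod N} {l19 l22 l23 l44 l45 l47 g00 g02 g03 g22 g23 g33 cS11 : ℕ} {tg00 tg02 tg03
  tg22 tg23 tg33 : ZMod N} (Hl19 : Lt N U l19 (w 19 + o)) (Hl22 : Lt N U l22 (w 22 + o)) (Hl23 : Lt N U
  l23 (w 23 + o)) (Hl44 : Lt N U l44 (w 44 + o)) (Hl45 : Lt N U l45 (w 45 + o)) (Hl47 : Lt N U l47 (w
  47 + o)) (Hg00 : Rp N g00 tg00) (Hg02 : Rp N g02 tg02) (Hg03 : Rp N g03 tg03) (Hg22 : Rp N g22 tg22)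
  (Hg23 : Rp N g23 tg23) (Hg33 : Rp N g33 tg33) (HcS11 : Cv N cS11 (o * (((tg00 + tg22) + (tg23 +
  tg33)) - (tg02 + tg03)))) : Cv N (Nat.land (Nat.add (Nat.add (Nat.add (Nat.mul l22 g02) (Nat.mul l23
  g03)) cS11) (Nat.sub KN (Nat.add (Nat.add (Nat.mul l19 g00) (Nat.mul l44 g22)) (Nat.add (Nat.mul l45
  g23) (Nat.mul l47 g33))))) M) (((w 22 * tg02) + (w 23 * tg03)) - (((w 19 * tg00) + (w 44 * tg22)) +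
  ((w 45 * tg23) + (w 47 * tg33)))) :=
  (Cv.congr (Cv.land E (Cv.add (Cv.add (Cv.add (Cv.mul (Hl22).1 (Hg02).1) (Cv.mul (Hl23).1 (Hg03).1))
    HcS11) (Cv.sub hK0 (Sm.add (Sm.add (Sm.lg Hl19 Hg00) (Sm.lg Hl44 Hg22)) (Sm.add (Sm.lg Hl45 Hg23)
    (Sm.lg Hl47 Hg33))) (le_trans (Nat.mul_le_mul_right _ (by norm_num)) hK)))) (by ring))

theorem vS12_cv {N M N2 U KN : ℕ} (E : Ev N M N2) (hK0 : (KN : ZMod N) = 0) (hK : 16 * (U * N) ≤ KN) {w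
  : ℕ → ZMod N} {o : ZMod N} {l20 l22 l24 l34 l35 l44 l45 l46 l48 g00 g01 g03 g02 g12 g13 g23 g33 cS12
  : ℕ} {tg00 tg01 tg03 tg02 tg12 tg13 tg23 tg33 : ZMod N} (Hl20 : Lt N U l20 (w 20 + o)) (Hl22 : Lt N U
  l22 (w 22 + o)) (Hl24 : Lt N U l24 (w 24 + o)) (Hl34 : Lt N U l34 (w 34 + o)) (Hl35 : Lt N U l35 (w
  35 + o)) (Hl44 : Lt N U l44 (w 44 + o)) (Hl45 : Lt N U l45 (w 45 + o)) (Hl46 : Lt N U l46 (w 46 + o))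
  (Hl48 : Lt N U l48 (w 48 + o)) (Hg00 : Rp N g00 tg00) (Hg01 : Rp N g01 tg01) (Hg03 : Rp N g03 tg03)
  (Hg02 : Rp N g02 tg02) (Hg12 : Rp N g12 tg12) (Hg13 : Rp N g13 tg13) (Hg23 : Rp N g23 tg23) (Hg33 :
  Rp N g33 tg33) (HcS12 : Cv N cS12 (o * (((tg00 + tg01) + (tg23 + tg33)) - ((tg03 + (tg02 + tg03)) +
  (tg12 + (tg12 + tg13)))))) : Cv N (Nat.land (Nat.add (Nat.add (Nat.add (Nat.add (Nat.mul l24 g03)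
  (Nat.add (Nat.mul l34 g02) (Nat.mul l35 g03))) (Nat.add (Nat.mul l44 g12) (Nat.add (Nat.mul l44 g12)
  (Nat.mul l45 g13)))) cS12) (Nat.sub KN (Nat.add (Nat.add (Nat.mul l20 g00) (Nat.mul l22 g01))
  (Nat.add (Nat.mul l46 g23) (Nat.mul l48 g33))))) M) ((((w 24 * tg03) + ((w 34 * tg02) + (w 35 *
  tg03))) + ((w 44 * tg12) + ((w 44 * tg12) + (w 45 * tg13)))) - (((w 20 * tg00) + (w 22 * tg01)) + ((w
  46 * tg23) + (w 48 * tg33)))) :=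
  (Cv.congr (Cv.land E (Cv.add (Cv.add (Cv.add (Cv.add (Cv.mul (Hl24).1 (Hg03).1) (Cv.add (Cv.mul
    (Hl34).1 (Hg02).1) (Cv.mul (Hl35).1 (Hg03).1))) (Cv.add (Cv.mul (Hl44).1 (Hg12).1) (Cv.add (Cv.mul
    (Hl44).1 (Hg12).1) (Cv.mul (Hl45).1 (Hg13).1)))) HcS12) (Cv.sub hK0 (Sm.add (Sm.add (Sm.lg Hl20
    Hg00) (Sm.lg Hl22 Hg01)) (Sm.add (Sm.lg Hl46 Hg23) (Sm.lg Hl48 Hg33))) (le_trans
    (Nat.mul_le_mul_right _ (by norm_num)) hK)))) (by ring))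

theorem vS13_cv {N M N2 U KN : ℕ} (E : Ev N M N2) (hK0 : (KN : ZMod N) = 0) (hK : 16 * (U * N) ≤ KN) {w
  : ℕ → ZMod N} {o : ZMod N} {l21 l23 l24 l38 l45 l46 l47 l48 g00 g01 g02 g03 g12 g22 g13 g23 cS13 : ℕ}
  {tg00 tg01 tg02 tg03 tg12 tg22 tg13 tg23 : ZMod N} (Hl21 : Lt N U l21 (w 21 + o)) (Hl23 : Lt N U l23
  (w 23 + o)) (Hl24 : Lt N U l24 (w 24 + o)) (Hl38 : Lt N U l38 (w 38 + o)) (Hl45 : Lt N U l45 (w 45 +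
  o)) (Hl46 : Lt N U l46 (w 46 + o)) (Hl47 : Lt N U l47 (w 47 + o)) (Hl48 : Lt N U l48 (w 48 + o))
  (Hg00 : Rp N g00 tg00) (Hg01 : Rp N g01 tg01) (Hg02 : Rp N g02 tg02) (Hg03 : Rp N g03 tg03) (Hg12 :
  Rp N g12 tg12) (Hg22 : Rp N g22 tg22) (Hg13 : Rp N g13 tg13) (Hg23 : Rp N g23 tg23) (HcS13 : Cv N
  cS13 (o * ((tg00 + (tg01 + tg02)) - ((tg03 + (tg12 + tg22)) + (tg13 + (tg13 + tg23)))))) : Cv N
  (Nat.land (Nat.add (Nat.add (Nat.add (Nat.add (Nat.mul l38 g03) (Nat.add (Nat.mul l45 g12) (Nat.mul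
  l46 g22))) (Nat.add (Nat.mul l47 g13) (Nat.add (Nat.mul l47 g13) (Nat.mul l48 g23)))) cS13) (Nat.sub
  KN (Nat.add (Nat.mul l21 g00) (Nat.add (Nat.mul l23 g01) (Nat.mul l24 g02))))) M) ((((w 38 * tg03) +
  ((w 45 * tg12) + (w 46 * tg22))) + ((w 47 * tg13) + ((w 47 * tg13) + (w 48 * tg23)))) - ((w 21 *
  tg00) + ((w 23 * tg01) + (w 24 * tg02)))) :=
  (Cv.congr (Cv.land E (Cv.add (Cv.add (Cv.add (Cv.add (Cv.mul (Hl38).1 (Hg03).1) (Cv.add (Cv.mul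
    (Hl45).1 (Hg12).1) (Cv.mul (Hl46).1 (Hg22).1))) (Cv.add (Cv.mul (Hl47).1 (Hg13).1) (Cv.add (Cv.mul
    (Hl47).1 (Hg13).1) (Cv.mul (Hl48).1 (Hg23).1)))) HcS13) (Cv.sub hK0 (Sm.add (Sm.lg Hl21 Hg00)
    (Sm.add (Sm.lg Hl23 Hg01) (Sm.lg Hl24 Hg02))) (le_trans (Nat.mul_le_mul_right _ (by norm_num))
    hK)))) (by ring))

theorem vS22_cv {N M N2 U KN : ℕ} (E : Ev N M N2) (hK0 : (KN : ZMod N) = 0) (hK : 16 * (U * N) ≤ KN) {w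
  : ℕ → ZMod N} {o : ZMod N} {l32 l34 l36 l44 l46 l49 g00 g01 g03 g11 g13 g33 cS22 : ℕ} {tg00 tg01 tg03
  tg11 tg13 tg33 : ZMod N} (Hl32 : Lt N U l32 (w 32 + o)) (Hl34 : Lt N U l34 (w 34 + o)) (Hl36 : Lt N U
  l36 (w 36 + o)) (Hl44 : Lt N U l44 (w 44 + o)) (Hl46 : Lt N U l46 (w 46 + o)) (Hl49 : Lt N U l49 (w
  49 + o)) (Hg00 : Rp N g00 tg00) (Hg01 : Rp N g01 tg01) (Hg03 : Rp N g03 tg03) (Hg11 : Rp N g11 tg11)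
  (Hg13 : Rp N g13 tg13) (Hg33 : Rp N g33 tg33) (HcS22 : Cv N cS22 (o * (((tg00 + tg01) + (tg11 +
  tg33)) - (tg03 + tg13)))) : Cv N (Nat.land (Nat.add (Nat.add (Nat.add (Nat.mul l36 g03) (Nat.mul l46
  g13)) cS22) (Nat.sub KN (Nat.add (Nat.add (Nat.mul l32 g00) (Nat.mul l34 g01)) (Nat.add (Nat.mul l44
  g11) (Nat.mul l49 g33))))) M) (((w 36 * tg03) + (w 46 * tg13)) - (((w 32 * tg00) + (w 34 * tg01)) +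
  ((w 44 * tg11) + (w 49 * tg33)))) :=
  (Cv.congr (Cv.land E (Cv.add (Cv.add (Cv.add (Cv.mul (Hl36).1 (Hg03).1) (Cv.mul (Hl46).1 (Hg13).1))
    HcS22) (Cv.sub hK0 (Sm.add (Sm.add (Sm.lg Hl32 Hg00) (Sm.lg Hl34 Hg01)) (Sm.add (Sm.lg Hl44 Hg11)
    (Sm.lg Hl49 Hg33))) (le_trans (Nat.mul_le_mul_right _ (by norm_num)) hK)))) (by ring))

theorem vS23_cv {N M N2 U KN : ℕ} (E : Ev N M N2) (hK0 : (KN : ZMod N) = 0) (hK : 16 * (U * N) ≤ KN) {w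
  : ℕ → ZMod N} {o : ZMod N} {l33 l35 l36 l39 l45 l46 l48 l49 g00 g01 g02 g03 g11 g12 g13 g23 cS23 : ℕ}
  {tg00 tg01 tg02 tg03 tg11 tg12 tg13 tg23 : ZMod N} (Hl33 : Lt N U l33 (w 33 + o)) (Hl35 : Lt N U l35
  (w 35 + o)) (Hl36 : Lt N U l36 (w 36 + o)) (Hl39 : Lt N U l39 (w 39 + o)) (Hl45 : Lt N U l45 (w 45 +
  o)) (Hl46 : Lt N U l46 (w 46 + o)) (Hl48 : Lt N U l48 (w 48 + o)) (Hl49 : Lt N U l49 (w 49 + o))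
  (Hg00 : Rp N g00 tg00) (Hg01 : Rp N g01 tg01) (Hg02 : Rp N g02 tg02) (Hg03 : Rp N g03 tg03) (Hg11 :
  Rp N g11 tg11) (Hg12 : Rp N g12 tg12) (Hg13 : Rp N g13 tg13) (Hg23 : Rp N g23 tg23) (HcS23 : Cv N
  cS23 (o * (((tg00 + tg01) + (tg02 + (tg11 + tg12))) - ((tg03 + tg13) + (tg23 + tg23))))) : Cv N
  (Nat.land (Nat.add (Nat.add (Nat.add (Nat.add (Nat.mul l39 g03) (Nat.mul l48 g13)) (Nat.add (Nat.mul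
  l49 g23) (Nat.mul l49 g23))) cS23) (Nat.sub KN (Nat.add (Nat.add (Nat.mul l33 g00) (Nat.mul l35 g01))
  (Nat.add (Nat.mul l36 g02) (Nat.add (Nat.mul l45 g11) (Nat.mul l46 g12)))))) M) ((((w 39 * tg03) + (w
  48 * tg13)) + ((w 49 * tg23) + (w 49 * tg23))) - (((w 33 * tg00) + (w 35 * tg01)) + ((w 36 * tg02) +
  ((w 45 * tg11) + (w 46 * tg12))))) :=
  (Cv.congr (Cv.land E (Cv.add (Cv.add (Cv.add (Cv.add (Cv.mul (Hl39).1 (Hg03).1) (Cv.mul (Hl48).1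
    (Hg13).1)) (Cv.add (Cv.mul (Hl49).1 (Hg23).1) (Cv.mul (Hl49).1 (Hg23).1))) HcS23) (Cv.sub hK0
    (Sm.add (Sm.add (Sm.lg Hl33 Hg00) (Sm.lg Hl35 Hg01)) (Sm.add (Sm.lg Hl36 Hg02) (Sm.add (Sm.lg Hl45
    Hg11) (Sm.lg Hl46 Hg12)))) (le_trans (Nat.mul_le_mul_right _ (by norm_num)) hK)))) (by ring))

theorem vS33_cv {N M N2 U KN : ℕ} (E : Ev N M N2) (hK0 : (KN : ZMod N) = 0) (hK : 16 * (U * N) ≤ KN) {w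
  : ℕ → ZMod N} {o : ZMod N} {l37 l38 l39 l47 l48 l49 g00 g01 g02 g11 g12 g22 cS33 : ℕ} {tg00 tg01 tg02
  tg11 tg12 tg22 : ZMod N} (Hl37 : Lt N U l37 (w 37 + o)) (Hl38 : Lt N U l38 (w 38 + o)) (Hl39 : Lt N U
  l39 (w 39 + o)) (Hl47 : Lt N U l47 (w 47 + o)) (Hl48 : Lt N U l48 (w 48 + o)) (Hl49 : Lt N U l49 (w
  49 + o)) (Hg00 : Rp N g00 tg00) (Hg01 : Rp N g01 tg01) (Hg02 : Rp N g02 tg02) (Hg11 : Rp N g11 tg11)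
  (Hg12 : Rp N g12 tg12) (Hg22 : Rp N g22 tg22) (HcS33 : Cv N cS33 (o * (((tg00 + (tg01 + tg02)) +
  (tg11 + (tg12 + tg22)))))) : Cv N (Nat.land (Nat.add cS33 (Nat.sub KN (Nat.add (Nat.add (Nat.mul l37
  g00) (Nat.add (Nat.mul l38 g01) (Nat.mul l39 g02))) (Nat.add (Nat.mul l47 g11) (Nat.add (Nat.mul l48
  g12) (Nat.mul l49 g22)))))) M) (0 - (((w 37 * tg00) + ((w 38 * tg01) + (w 39 * tg02))) + ((w 47 *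
  tg11) + ((w 48 * tg12) + (w 49 * tg22))))) :=
  (Cv.congr (Cv.land E (Cv.add HcS33 (Cv.sub hK0 (Sm.add (Sm.add (Sm.lg Hl37 Hg00) (Sm.add (Sm.lg Hl38
    Hg01) (Sm.lg Hl39 Hg02))) (Sm.add (Sm.lg Hl47 Hg11) (Sm.add (Sm.lg Hl48 Hg12) (Sm.lg Hl49 Hg22))))
    (le_trans (Nat.mul_le_mul_right _ (by norm_num)) hK)))) (by ring))

theorem cK_cv {N M N2 KN : ℕ} (E : Ev N M N2) (hK0 : (KN : ZMod N) = 0) (hK1 : 32 * N ≤ KN) {off : ℕ}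
  {o : ZMod N} (Ho : Cv N off o) {m0_0 m0_1 m0_3 m0_6 m1_1 m1_3 m1_6 m3_3 m3_6 m6_6 : ℕ} {tm0_0 tm0_1
  tm0_3 tm0_6 tm1_1 tm1_3 tm1_6 tm3_3 tm3_6 tm6_6 : ZMod N} (Hm0_0 : Rp N m0_0 tm0_0) (Hm0_1 : Rp N
  m0_1 tm0_1) (Hm0_3 : Rp N m0_3 tm0_3) (Hm0_6 : Rp N m0_6 tm0_6) (Hm1_1 : Rp N m1_1 tm1_1) (Hm1_3 : Rp
  N m1_3 tm1_3) (Hm1_6 : Rp N m1_6 tm1_6) (Hm3_3 : Rp N m3_3 tm3_3) (Hm3_6 : Rp N m3_6 tm3_6) (Hm6_6 :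
  Rp N m6_6 tm6_6) : Cv N (Nat.land (Nat.mul off (Nat.sub KN (Nat.add (Nat.add (Nat.add m0_0 m0_1)
  (Nat.add m0_3 (Nat.add m0_6 m1_1))) (Nat.add (Nat.add m1_3 m1_6) (Nat.add m3_3 (Nat.add m3_6
  m6_6)))))) M) (o * (0 - (((tm0_0 + tm0_1) + (tm0_3 + (tm0_6 + tm1_1))) + ((tm1_3 + tm1_6) + (tm3_3 +
  (tm3_6 + tm6_6)))))) :=
  (Cv.congr (Cv.land E (Cv.mul Ho (Cv.sub hK0 (Sm.add (Sm.add (Sm.add (Sm.one Hm0_0) (Sm.one Hm0_1))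
    (Sm.add (Sm.one Hm0_3) (Sm.add (Sm.one Hm0_6) (Sm.one Hm1_1)))) (Sm.add (Sm.add (Sm.one Hm1_3)
    (Sm.one Hm1_6)) (Sm.add (Sm.one Hm3_3) (Sm.add (Sm.one Hm3_6) (Sm.one Hm6_6))))) (le_trans
    (Nat.mul_le_mul_right _ (by norm_num)) hK1)))) (by ring))

theorem cU0_cv {N M N2 KN : ℕ} (E : Ev N M N2) (hK0 : (KN : ZMod N) = 0) (hK1 : 32 * N ≤ KN) {off : ℕ}
  {o : ZMod N} (Ho : Cv N off o) {p01_12 p02_12 p03_12 p12_12 p12_13 p12_23 p01_13 p02_13 p03_13 p13_13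
  p13_23 p02_23 p03_23 p23_23 : ℕ} {tp01_12 tp02_12 tp03_12 tp12_12 tp12_13 tp12_23 tp01_13 tp02_13
  tp03_13 tp13_13 tp13_23 tp02_23 tp03_23 tp23_23 : ZMod N} (Hp01_12 : Rp N p01_12 tp01_12) (Hp02_12 :
  Rp N p02_12 tp02_12) (Hp03_12 : Rp N p03_12 tp03_12) (Hp12_12 : Rp N p12_12 tp12_12) (Hp12_13 : Rp N
  p12_13 tp12_13) (Hp12_23 : Rp N p12_23 tp12_23) (Hp01_13 : Rp N p01_13 tp01_13) (Hp02_13 : Rp N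
  p02_13 tp02_13) (Hp03_13 : Rp N p03_13 tp03_13) (Hp13_13 : Rp N p13_13 tp13_13) (Hp13_23 : Rp N
  p13_23 tp13_23) (Hp02_23 : Rp N p02_23 tp02_23) (Hp03_23 : Rp N p03_23 tp03_23) (Hp23_23 : Rp N
  p23_23 tp23_23) : Cv N (Nat.land (Nat.mul off (Nat.sub KN (Nat.add (Nat.add (Nat.add (Nat.add p01_12
  p02_12) (Nat.add p03_12 p12_12)) (Nat.add (Nat.add p12_13 p12_23) (Nat.add p01_13 p02_13))) (Nat.add
  (Nat.add (Nat.add p03_13 p12_13) (Nat.add p13_13 p13_23)) (Nat.add (Nat.add p02_23 p03_23) (Nat.add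
  p12_23 (Nat.add p13_23 p23_23))))))) M) (o * (0 - ((((tp01_12 + tp02_12) + (tp03_12 + tp12_12)) +
  ((tp12_13 + tp12_23) + (tp01_13 + tp02_13))) + (((tp03_13 + tp12_13) + (tp13_13 + tp13_23)) +
  ((tp02_23 + tp03_23) + (tp12_23 + (tp13_23 + tp23_23))))))) :=
  (Cv.congr (Cv.land E (Cv.mul Ho (Cv.sub hK0 (Sm.add (Sm.add (Sm.add (Sm.add (Sm.one Hp01_12) (Sm.one
    Hp02_12)) (Sm.add (Sm.one Hp03_12) (Sm.one Hp12_12))) (Sm.add (Sm.add (Sm.one Hp12_13) (Sm.one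
    Hp12_23)) (Sm.add (Sm.one Hp01_13) (Sm.one Hp02_13)))) (Sm.add (Sm.add (Sm.add (Sm.one Hp03_13)
    (Sm.one Hp12_13)) (Sm.add (Sm.one Hp13_13) (Sm.one Hp13_23))) (Sm.add (Sm.add (Sm.one Hp02_23)
    (Sm.one Hp03_23)) (Sm.add (Sm.one Hp12_23) (Sm.add (Sm.one Hp13_23) (Sm.one Hp23_23)))))) (le_trans
    (Nat.mul_le_mul_right _ (by norm_num)) hK1)))) (by ring))

theorem cU1_cv {N M N2 KN : ℕ} (E : Ev N M N2) (hK0 : (KN : ZMod N) = 0) (hK1 : 32 * N ≤ KN) {off : ℕ}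
  {o : ZMod N} (Ho : Cv N off o) {p01_02 p02_02 p02_03 p02_12 p02_13 p02_23 p01_03 p03_03 p03_12 p03_13
  p03_23 p12_23 p13_23 p23_23 : ℕ} {tp01_02 tp02_02 tp02_03 tp02_12 tp02_13 tp02_23 tp01_03 tp03_03
  tp03_12 tp03_13 tp03_23 tp12_23 tp13_23 tp23_23 : ZMod N} (Hp01_02 : Rp N p01_02 tp01_02) (Hp02_02 :
  Rp N p02_02 tp02_02) (Hp02_03 : Rp N p02_03 tp02_03) (Hp02_12 : Rp N p02_12 tp02_12) (Hp02_13 : Rp N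
  p02_13 tp02_13) (Hp02_23 : Rp N p02_23 tp02_23) (Hp01_03 : Rp N p01_03 tp01_03) (Hp03_03 : Rp N
  p03_03 tp03_03) (Hp03_12 : Rp N p03_12 tp03_12) (Hp03_13 : Rp N p03_13 tp03_13) (Hp03_23 : Rp N
  p03_23 tp03_23) (Hp12_23 : Rp N p12_23 tp12_23) (Hp13_23 : Rp N p13_23 tp13_23) (Hp23_23 : Rp N
  p23_23 tp23_23) : Cv N (Nat.land (Nat.mul off (Nat.add (Nat.sub KN (Nat.add p12_23 (Nat.add p13_23
  p23_23))) (Nat.add (Nat.add (Nat.add p01_02 (Nat.add p02_02 p02_03)) (Nat.add p02_12 (Nat.add p02_13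
  p02_23))) (Nat.add (Nat.add p01_03 (Nat.add p02_03 p03_03)) (Nat.add p03_12 (Nat.add p03_13
  p03_23)))))) M) (o * ((((tp01_02 + (tp02_02 + tp02_03)) + (tp02_12 + (tp02_13 + tp02_23))) +
  ((tp01_03 + (tp02_03 + tp03_03)) + (tp03_12 + (tp03_13 + tp03_23)))) - (tp12_23 + (tp13_23 +
  tp23_23)))) :=
  (Cv.congr (Cv.land E (Cv.mul Ho (Cv.add (Cv.sub hK0 (Sm.add (Sm.one Hp12_23) (Sm.add (Sm.one Hp13_23)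
    (Sm.one Hp23_23))) (le_trans (Nat.mul_le_mul_right _ (by norm_num)) hK1)) (Cv.add (Cv.add (Cv.add
    (Hp01_02).1 (Cv.add (Hp02_02).1 (Hp02_03).1)) (Cv.add (Hp02_12).1 (Cv.add (Hp02_13).1
    (Hp02_23).1))) (Cv.add (Cv.add (Hp01_03).1 (Cv.add (Hp02_03).1 (Hp03_03).1)) (Cv.add (Hp03_12).1
    (Cv.add (Hp03_13).1 (Hp03_23).1))))))) (by ring))

theorem cU2_cv {N M N2 KN : ℕ} (E : Ev N M N2) (hK0 : (KN : ZMod N) = 0) (hK1 : 32 * N ≤ KN) {off : ℕ}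
  {o : ZMod N} (Ho : Cv N off o) {p01_01 p01_02 p01_03 p01_12 p01_13 p01_23 p02_03 p03_03 p03_12 p03_13
  p03_23 p12_13 p13_13 p13_23 : ℕ} {tp01_01 tp01_02 tp01_03 tp01_12 tp01_13 tp01_23 tp02_03 tp03_03
  tp03_12 tp03_13 tp03_23 tp12_13 tp13_13 tp13_23 : ZMod N} (Hp01_01 : Rp N p01_01 tp01_01) (Hp01_02 :
  Rp N p01_02 tp01_02) (Hp01_03 : Rp N p01_03 tp01_03) (Hp01_12 : Rp N p01_12 tp01_12) (Hp01_13 : Rp N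
  p01_13 tp01_13) (Hp01_23 : Rp N p01_23 tp01_23) (Hp02_03 : Rp N p02_03 tp02_03) (Hp03_03 : Rp N
  p03_03 tp03_03) (Hp03_12 : Rp N p03_12 tp03_12) (Hp03_13 : Rp N p03_13 tp03_13) (Hp03_23 : Rp N
  p03_23 tp03_23) (Hp12_13 : Rp N p12_13 tp12_13) (Hp13_13 : Rp N p13_13 tp13_13) (Hp13_23 : Rp N
  p13_23 tp13_23) : Cv N (Nat.land (Nat.mul off (Nat.add (Nat.sub KN (Nat.add (Nat.add p01_01 (Nat.add
  p01_02 p01_03)) (Nat.add p01_12 (Nat.add p01_13 p01_23)))) (Nat.add (Nat.add (Nat.add p02_03 p03_03)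
  (Nat.add p03_12 p03_13)) (Nat.add (Nat.add p03_23 p12_13) (Nat.add p13_13 p13_23))))) M) (o *
  ((((tp02_03 + tp03_03) + (tp03_12 + tp03_13)) + ((tp03_23 + tp12_13) + (tp13_13 + tp13_23))) -
  ((tp01_01 + (tp01_02 + tp01_03)) + (tp01_12 + (tp01_13 + tp01_23))))) :=
  (Cv.congr (Cv.land E (Cv.mul Ho (Cv.add (Cv.sub hK0 (Sm.add (Sm.add (Sm.one Hp01_01) (Sm.add (Sm.one
    Hp01_02) (Sm.one Hp01_03))) (Sm.add (Sm.one Hp01_12) (Sm.add (Sm.one Hp01_13) (Sm.one Hp01_23))))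
    (le_trans (Nat.mul_le_mul_right _ (by norm_num)) hK1)) (Cv.add (Cv.add (Cv.add (Hp02_03).1
    (Hp03_03).1) (Cv.add (Hp03_12).1 (Hp03_13).1)) (Cv.add (Cv.add (Hp03_23).1 (Hp12_13).1) (Cv.add
    (Hp13_13).1 (Hp13_23).1)))))) (by ring))

theorem cU3_cv {N M N2 KN : ℕ} (E : Ev N M N2) (hK0 : (KN : ZMod N) = 0) (hK1 : 32 * N ≤ KN) {off : ℕ}
  {o : ZMod N} (Ho : Cv N off o) {p01_01 p01_02 p01_03 p01_12 p01_13 p01_23 p02_02 p02_03 p02_12 p02_13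
  p02_23 p12_12 p12_13 p12_23 : ℕ} {tp01_01 tp01_02 tp01_03 tp01_12 tp01_13 tp01_23 tp02_02 tp02_03
  tp02_12 tp02_13 tp02_23 tp12_12 tp12_13 tp12_23 : ZMod N} (Hp01_01 : Rp N p01_01 tp01_01) (Hp01_02 :
  Rp N p01_02 tp01_02) (Hp01_03 : Rp N p01_03 tp01_03) (Hp01_12 : Rp N p01_12 tp01_12) (Hp01_13 : Rp N
  p01_13 tp01_13) (Hp01_23 : Rp N p01_23 tp01_23) (Hp02_02 : Rp N p02_02 tp02_02) (Hp02_03 : Rp N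
  p02_03 tp02_03) (Hp02_12 : Rp N p02_12 tp02_12) (Hp02_13 : Rp N p02_13 tp02_13) (Hp02_23 : Rp N
  p02_23 tp02_23) (Hp12_12 : Rp N p12_12 tp12_12) (Hp12_13 : Rp N p12_13 tp12_13) (Hp12_23 : Rp N
  p12_23 tp12_23) : Cv N (Nat.land (Nat.mul off (Nat.sub KN (Nat.add (Nat.add (Nat.add p01_01 (Nat.add
  p01_02 p01_03)) (Nat.add (Nat.add p01_12 p01_13) (Nat.add p01_23 p02_02))) (Nat.add (Nat.add p02_03
  (Nat.add p02_12 p02_13)) (Nat.add (Nat.add p02_23 p12_12) (Nat.add p12_13 p12_23)))))) M) (o * (0 -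
  (((tp01_01 + (tp01_02 + tp01_03)) + ((tp01_12 + tp01_13) + (tp01_23 + tp02_02))) + ((tp02_03 +
  (tp02_12 + tp02_13)) + ((tp02_23 + tp12_12) + (tp12_13 + tp12_23)))))) :=
  (Cv.congr (Cv.land E (Cv.mul Ho (Cv.sub hK0 (Sm.add (Sm.add (Sm.add (Sm.one Hp01_01) (Sm.add (Sm.one
    Hp01_02) (Sm.one Hp01_03))) (Sm.add (Sm.add (Sm.one Hp01_12) (Sm.one Hp01_13)) (Sm.add (Sm.one
    Hp01_23) (Sm.one Hp02_02)))) (Sm.add (Sm.add (Sm.one Hp02_03) (Sm.add (Sm.one Hp02_12) (Sm.one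
    Hp02_13))) (Sm.add (Sm.add (Sm.one Hp02_23) (Sm.one Hp12_12)) (Sm.add (Sm.one Hp12_13) (Sm.one
    Hp12_23))))) (le_trans (Nat.mul_le_mul_right _ (by norm_num)) hK1)))) (by ring))

theorem cV_cv {N M N2 KN : ℕ} (E : Ev N M N2) (hK0 : (KN : ZMod N) = 0) (hK1 : 32 * N ≤ KN) {off : ℕ}
  {o : ZMod N} (Ho : Cv N off o) {p01_01 p01_02 p01_03 p01_12 p01_13 p01_23 p02_02 p02_03 p02_12 p02_13
  p02_23 p03_03 p03_13 p03_23 p12_12 p12_13 p12_23 p13_13 p13_23 p23_23 : ℕ} {tp01_01 tp01_02 tp01_03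
  tp01_12 tp01_13 tp01_23 tp02_02 tp02_03 tp02_12 tp02_13 tp02_23 tp03_03 tp03_13 tp03_23 tp12_12
  tp12_13 tp12_23 tp13_13 tp13_23 tp23_23 : ZMod N} (Hp01_01 : Rp N p01_01 tp01_01) (Hp01_02 : Rp N
  p01_02 tp01_02) (Hp01_03 : Rp N p01_03 tp01_03) (Hp01_12 : Rp N p01_12 tp01_12) (Hp01_13 : Rp N
  p01_13 tp01_13) (Hp01_23 : Rp N p01_23 tp01_23) (Hp02_02 : Rp N p02_02 tp02_02) (Hp02_03 : Rp N
  p02_03 tp02_03) (Hp02_12 : Rp N p02_12 tp02_12) (Hp02_13 : Rp N p02_13 tp02_13) (Hp02_23 : Rp N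
  p02_23 tp02_23) (Hp03_03 : Rp N p03_03 tp03_03) (Hp03_13 : Rp N p03_13 tp03_13) (Hp03_23 : Rp N
  p03_23 tp03_23) (Hp12_12 : Rp N p12_12 tp12_12) (Hp12_13 : Rp N p12_13 tp12_13) (Hp12_23 : Rp N
  p12_23 tp12_23) (Hp13_13 : Rp N p13_13 tp13_13) (Hp13_23 : Rp N p13_23 tp13_23) (Hp23_23 : Rp N
  p23_23 tp23_23) : Cv N (Nat.land (Nat.mul off (Nat.sub KN (Nat.add (Nat.add (Nat.add (Nat.add p01_01
  p01_02) (Nat.add p01_03 (Nat.add p01_12 p01_13))) (Nat.add (Nat.add p01_23 p02_02) (Nat.add p02_03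
  (Nat.add p02_12 p02_13)))) (Nat.add (Nat.add (Nat.add p02_23 p03_03) (Nat.add p03_13 (Nat.add p03_23
  p12_12))) (Nat.add (Nat.add p12_13 p12_23) (Nat.add p13_13 (Nat.add p13_23 p23_23))))))) M) (o * (0 -
  ((((tp01_01 + tp01_02) + (tp01_03 + (tp01_12 + tp01_13))) + ((tp01_23 + tp02_02) + (tp02_03 +
  (tp02_12 + tp02_13)))) + (((tp02_23 + tp03_03) + (tp03_13 + (tp03_23 + tp12_12))) + ((tp12_13 +
  tp12_23) + (tp13_13 + (tp13_23 + tp23_23))))))) :=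
  (Cv.congr (Cv.land E (Cv.mul Ho (Cv.sub hK0 (Sm.add (Sm.add (Sm.add (Sm.add (Sm.one Hp01_01) (Sm.one
    Hp01_02)) (Sm.add (Sm.one Hp01_03) (Sm.add (Sm.one Hp01_12) (Sm.one Hp01_13)))) (Sm.add (Sm.add
    (Sm.one Hp01_23) (Sm.one Hp02_02)) (Sm.add (Sm.one Hp02_03) (Sm.add (Sm.one Hp02_12) (Sm.one
    Hp02_13))))) (Sm.add (Sm.add (Sm.add (Sm.one Hp02_23) (Sm.one Hp03_03)) (Sm.add (Sm.one Hp03_13)
    (Sm.add (Sm.one Hp03_23) (Sm.one Hp12_12)))) (Sm.add (Sm.add (Sm.one Hp12_13) (Sm.one Hp12_23))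
    (Sm.add (Sm.one Hp13_13) (Sm.add (Sm.one Hp13_23) (Sm.one Hp23_23)))))) (le_trans
    (Nat.mul_le_mul_right _ (by norm_num)) hK1)))) (by ring))

theorem cS00_cv {N M N2 KN : ℕ} (E : Ev N M N2) (hK0 : (KN : ZMod N) = 0) (hK1 : 32 * N ≤ KN) {off : ℕ}
  {o : ZMod N} (Ho : Cv N off o) {g11 g12 g13 g22 g23 g33 : ℕ} {tg11 tg12 tg13 tg22 tg23 tg33 : ZMod N}
  (Hg11 : Rp N g11 tg11) (Hg12 : Rp N g12 tg12) (Hg13 : Rp N g13 tg13) (Hg22 : Rp N g22 tg22) (Hg23 :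
  Rp N g23 tg23) (Hg33 : Rp N g33 tg33) : Cv N (Nat.land (Nat.mul off (Nat.add (Nat.add g11 (Nat.add
  g12 g13)) (Nat.add g22 (Nat.add g23 g33)))) M) (o * (((tg11 + (tg12 + tg13)) + (tg22 + (tg23 +
  tg33))))) :=
  (Cv.congr (Cv.land E (Cv.mul Ho (Cv.add (Cv.add (Hg11).1 (Cv.add (Hg12).1 (Hg13).1)) (Cv.add (Hg22).1
    (Cv.add (Hg23).1 (Hg33).1))))) (by ring))

theorem cS01_cv {N M N2 KN : ℕ} (E : Ev N M N2) (hK0 : (KN : ZMod N) = 0) (hK1 : 32 * N ≤ KN) {off : ℕ}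
  {o : ZMod N} (Ho : Cv N off o) {g01 g02 g03 g12 g13 g22 g23 g33 : ℕ} {tg01 tg02 tg03 tg12 tg13 tg22
  tg23 tg33 : ZMod N} (Hg01 : Rp N g01 tg01) (Hg02 : Rp N g02 tg02) (Hg03 : Rp N g03 tg03) (Hg12 : Rp N
  g12 tg12) (Hg13 : Rp N g13 tg13) (Hg22 : Rp N g22 tg22) (Hg23 : Rp N g23 tg23) (Hg33 : Rp N g33 tg33)
  : Cv N (Nat.land (Nat.mul off (Nat.add (Nat.sub KN (Nat.add (Nat.add g01 g01) (Nat.add g02 g03)))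
  (Nat.add (Nat.add g12 g13) (Nat.add g22 (Nat.add g23 g33))))) M) (o * (((tg12 + tg13) + (tg22 + (tg23
  + tg33))) - ((tg01 + tg01) + (tg02 + tg03)))) :=
  (Cv.congr (Cv.land E (Cv.mul Ho (Cv.add (Cv.sub hK0 (Sm.add (Sm.add (Sm.one Hg01) (Sm.one Hg01))
    (Sm.add (Sm.one Hg02) (Sm.one Hg03))) (le_trans (Nat.mul_le_mul_right _ (by norm_num)) hK1))
    (Cv.add (Cv.add (Hg12).1 (Hg13).1) (Cv.add (Hg22).1 (Cv.add (Hg23).1 (Hg33).1)))))) (by ring))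

theorem cS02_cv {N M N2 KN : ℕ} (E : Ev N M N2) (hK0 : (KN : ZMod N) = 0) (hK1 : 32 * N ≤ KN) {off : ℕ}
  {o : ZMod N} (Ho : Cv N off o) {g01 g11 g13 g02 g03 g12 g23 g33 : ℕ} {tg01 tg11 tg13 tg02 tg03 tg12
  tg23 tg33 : ZMod N} (Hg01 : Rp N g01 tg01) (Hg11 : Rp N g11 tg11) (Hg13 : Rp N g13 tg13) (Hg02 : Rp N
  g02 tg02) (Hg03 : Rp N g03 tg03) (Hg12 : Rp N g12 tg12) (Hg23 : Rp N g23 tg23) (Hg33 : Rp N g33 tg33)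
  : Cv N (Nat.land (Nat.mul off (Nat.add (Nat.sub KN (Nat.add (Nat.add g01 (Nat.add g11 g02)) (Nat.add
  g02 (Nat.add g03 g12)))) (Nat.add g13 (Nat.add g23 g33)))) M) (o * ((tg13 + (tg23 + tg33)) - ((tg01 +
  (tg11 + tg02)) + (tg02 + (tg03 + tg12))))) :=
  (Cv.congr (Cv.land E (Cv.mul Ho (Cv.add (Cv.sub hK0 (Sm.add (Sm.add (Sm.one Hg01) (Sm.add (Sm.one
    Hg11) (Sm.one Hg02))) (Sm.add (Sm.one Hg02) (Sm.add (Sm.one Hg03) (Sm.one Hg12)))) (le_trans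
    (Nat.mul_le_mul_right _ (by norm_num)) hK1)) (Cv.add (Hg13).1 (Cv.add (Hg23).1 (Hg33).1))))) (by
    ring))

theorem cS03_cv {N M N2 KN : ℕ} (E : Ev N M N2) (hK0 : (KN : ZMod N) = 0) (hK1 : 32 * N ≤ KN) {off : ℕ}
  {o : ZMod N} (Ho : Cv N off o) {g01 g11 g12 g02 g22 g03 g13 g23 : ℕ} {tg01 tg11 tg12 tg02 tg22 tg03
  tg13 tg23 : ZMod N} (Hg01 : Rp N g01 tg01) (Hg11 : Rp N g11 tg11) (Hg12 : Rp N g12 tg12) (Hg02 : Rp N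
  g02 tg02) (Hg22 : Rp N g22 tg22) (Hg03 : Rp N g03 tg03) (Hg13 : Rp N g13 tg13) (Hg23 : Rp N g23 tg23)
  : Cv N (Nat.land (Nat.mul off (Nat.sub KN (Nat.add (Nat.add (Nat.add g01 g11) (Nat.add g12 (Nat.add
  g02 g12))) (Nat.add (Nat.add g22 g03) (Nat.add g03 (Nat.add g13 g23)))))) M) (o * (0 - (((tg01 +
  tg11) + (tg12 + (tg02 + tg12))) + ((tg22 + tg03) + (tg03 + (tg13 + tg23)))))) :=
  (Cv.congr (Cv.land E (Cv.mul Ho (Cv.sub hK0 (Sm.add (Sm.add (Sm.add (Sm.one Hg01) (Sm.one Hg11))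
    (Sm.add (Sm.one Hg12) (Sm.add (Sm.one Hg02) (Sm.one Hg12)))) (Sm.add (Sm.add (Sm.one Hg22) (Sm.one
    Hg03)) (Sm.add (Sm.one Hg03) (Sm.add (Sm.one Hg13) (Sm.one Hg23))))) (le_trans
    (Nat.mul_le_mul_right _ (by norm_num)) hK1)))) (by ring))

theorem cS11_cv {N M N2 KN : ℕ} (E : Ev N M N2) (hK0 : (KN : ZMod N) = 0) (hK1 : 32 * N ≤ KN) {off : ℕ}
  {o : ZMod N} (Ho : Cv N off o) {g00 g02 g03 g22 g23 g33 : ℕ} {tg00 tg02 tg03 tg22 tg23 tg33 : ZMod N}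
  (Hg00 : Rp N g00 tg00) (Hg02 : Rp N g02 tg02) (Hg03 : Rp N g03 tg03) (Hg22 : Rp N g22 tg22) (Hg23 :
  Rp N g23 tg23) (Hg33 : Rp N g33 tg33) : Cv N (Nat.land (Nat.mul off (Nat.add (Nat.sub KN (Nat.add g02
  g03)) (Nat.add (Nat.add g00 g22) (Nat.add g23 g33)))) M) (o * (((tg00 + tg22) + (tg23 + tg33)) -
  (tg02 + tg03))) :=
  (Cv.congr (Cv.land E (Cv.mul Ho (Cv.add (Cv.sub hK0 (Sm.add (Sm.one Hg02) (Sm.one Hg03)) (le_trans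
    (Nat.mul_le_mul_right _ (by norm_num)) hK1)) (Cv.add (Cv.add (Hg00).1 (Hg22).1) (Cv.add (Hg23).1
    (Hg33).1))))) (by ring))

theorem cS12_cv {N M N2 KN : ℕ} (E : Ev N M N2) (hK0 : (KN : ZMod N) = 0) (hK1 : 32 * N ≤ KN) {off : ℕ}
  {o : ZMod N} (Ho : Cv N off o) {g00 g01 g03 g02 g12 g13 g23 g33 : ℕ} {tg00 tg01 tg03 tg02 tg12 tg13
  tg23 tg33 : ZMod N} (Hg00 : Rp N g00 tg00) (Hg01 : Rp N g01 tg01) (Hg03 : Rp N g03 tg03) (Hg02 : Rp N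
  g02 tg02) (Hg12 : Rp N g12 tg12) (Hg13 : Rp N g13 tg13) (Hg23 : Rp N g23 tg23) (Hg33 : Rp N g33 tg33)
  : Cv N (Nat.land (Nat.mul off (Nat.add (Nat.sub KN (Nat.add (Nat.add g03 (Nat.add g02 g03)) (Nat.add
  g12 (Nat.add g12 g13)))) (Nat.add (Nat.add g00 g01) (Nat.add g23 g33)))) M) (o * (((tg00 + tg01) +
  (tg23 + tg33)) - ((tg03 + (tg02 + tg03)) + (tg12 + (tg12 + tg13))))) :=
  (Cv.congr (Cv.land E (Cv.mul Ho (Cv.add (Cv.sub hK0 (Sm.add (Sm.add (Sm.one Hg03) (Sm.add (Sm.one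
    Hg02) (Sm.one Hg03))) (Sm.add (Sm.one Hg12) (Sm.add (Sm.one Hg12) (Sm.one Hg13)))) (le_trans
    (Nat.mul_le_mul_right _ (by norm_num)) hK1)) (Cv.add (Cv.add (Hg00).1 (Hg01).1) (Cv.add (Hg23).1
    (Hg33).1))))) (by ring))

theorem cS13_cv {N M N2 KN : ℕ} (E : Ev N M N2) (hK0 : (KN : ZMod N) = 0) (hK1 : 32 * N ≤ KN) {off : ℕ}
  {o : ZMod N} (Ho : Cv N off o) {g00 g01 g02 g03 g12 g22 g13 g23 : ℕ} {tg00 tg01 tg02 tg03 tg12 tg22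
  tg13 tg23 : ZMod N} (Hg00 : Rp N g00 tg00) (Hg01 : Rp N g01 tg01) (Hg02 : Rp N g02 tg02) (Hg03 : Rp N
  g03 tg03) (Hg12 : Rp N g12 tg12) (Hg22 : Rp N g22 tg22) (Hg13 : Rp N g13 tg13) (Hg23 : Rp N g23 tg23)
  : Cv N (Nat.land (Nat.mul off (Nat.add (Nat.sub KN (Nat.add (Nat.add g03 (Nat.add g12 g22)) (Nat.add
  g13 (Nat.add g13 g23)))) (Nat.add g00 (Nat.add g01 g02)))) M) (o * ((tg00 + (tg01 + tg02)) - ((tg03 +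
  (tg12 + tg22)) + (tg13 + (tg13 + tg23))))) :=
  (Cv.congr (Cv.land E (Cv.mul Ho (Cv.add (Cv.sub hK0 (Sm.add (Sm.add (Sm.one Hg03) (Sm.add (Sm.one
    Hg12) (Sm.one Hg22))) (Sm.add (Sm.one Hg13) (Sm.add (Sm.one Hg13) (Sm.one Hg23)))) (le_trans
    (Nat.mul_le_mul_right _ (by norm_num)) hK1)) (Cv.add (Hg00).1 (Cv.add (Hg01).1 (Hg02).1))))) (by
    ring))

theorem cS22_cv {N M N2 KN : ℕ} (E : Ev N M N2) (hK0 : (KN : ZMod N) = 0) (hK1 : 32 * N ≤ KN) {off : ℕ}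
  {o : ZMod N} (Ho : Cv N off o) {g00 g01 g03 g11 g13 g33 : ℕ} {tg00 tg01 tg03 tg11 tg13 tg33 : ZMod N}
  (Hg00 : Rp N g00 tg00) (Hg01 : Rp N g01 tg01) (Hg03 : Rp N g03 tg03) (Hg11 : Rp N g11 tg11) (Hg13 :
  Rp N g13 tg13) (Hg33 : Rp N g33 tg33) : Cv N (Nat.land (Nat.mul off (Nat.add (Nat.sub KN (Nat.add g03
  g13)) (Nat.add (Nat.add g00 g01) (Nat.add g11 g33)))) M) (o * (((tg00 + tg01) + (tg11 + tg33)) -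
  (tg03 + tg13))) :=
  (Cv.congr (Cv.land E (Cv.mul Ho (Cv.add (Cv.sub hK0 (Sm.add (Sm.one Hg03) (Sm.one Hg13)) (le_trans
    (Nat.mul_le_mul_right _ (by norm_num)) hK1)) (Cv.add (Cv.add (Hg00).1 (Hg01).1) (Cv.add (Hg11).1
    (Hg33).1))))) (by ring))

theorem cS23_cv {N M N2 KN : ℕ} (E : Ev N M N2) (hK0 : (KN : ZMod N) = 0) (hK1 : 32 * N ≤ KN) {off : ℕ}
  {o : ZMod N} (Ho : Cv N off o) {g00 g01 g02 g03 g11 g12 g13 g23 : ℕ} {tg00 tg01 tg02 tg03 tg11 tg12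
  tg13 tg23 : ZMod N} (Hg00 : Rp N g00 tg00) (Hg01 : Rp N g01 tg01) (Hg02 : Rp N g02 tg02) (Hg03 : Rp N
  g03 tg03) (Hg11 : Rp N g11 tg11) (Hg12 : Rp N g12 tg12) (Hg13 : Rp N g13 tg13) (Hg23 : Rp N g23 tg23)
  : Cv N (Nat.land (Nat.mul off (Nat.add (Nat.sub KN (Nat.add (Nat.add g03 g13) (Nat.add g23 g23)))
  (Nat.add (Nat.add g00 g01) (Nat.add g02 (Nat.add g11 g12))))) M) (o * (((tg00 + tg01) + (tg02 + (tg11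
  + tg12))) - ((tg03 + tg13) + (tg23 + tg23)))) :=
  (Cv.congr (Cv.land E (Cv.mul Ho (Cv.add (Cv.sub hK0 (Sm.add (Sm.add (Sm.one Hg03) (Sm.one Hg13))
    (Sm.add (Sm.one Hg23) (Sm.one Hg23))) (le_trans (Nat.mul_le_mul_right _ (by norm_num)) hK1))
    (Cv.add (Cv.add (Hg00).1 (Hg01).1) (Cv.add (Hg02).1 (Cv.add (Hg11).1 (Hg12).1)))))) (by ring))

theorem cS33_cv {N M N2 KN : ℕ} (E : Ev N M N2) (hK0 : (KN : ZMod N) = 0) (hK1 : 32 * N ≤ KN) {off : ℕ}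
  {o : ZMod N} (Ho : Cv N off o) {g00 g01 g02 g11 g12 g22 : ℕ} {tg00 tg01 tg02 tg11 tg12 tg22 : ZMod N}
  (Hg00 : Rp N g00 tg00) (Hg01 : Rp N g01 tg01) (Hg02 : Rp N g02 tg02) (Hg11 : Rp N g11 tg11) (Hg12 :
  Rp N g12 tg12) (Hg22 : Rp N g22 tg22) : Cv N (Nat.land (Nat.mul off (Nat.add (Nat.add g00 (Nat.add
  g01 g02)) (Nat.add g11 (Nat.add g12 g22)))) M) (o * (((tg00 + (tg01 + tg02)) + (tg11 + (tg12 +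
  tg22))))) :=
  (Cv.congr (Cv.land E (Cv.mul Ho (Cv.add (Cv.add (Hg00).1 (Cv.add (Hg01).1 (Hg02).1)) (Cv.add (Hg11).1
    (Cv.add (Hg12).1 (Hg22).1))))) (by ring))

/-- the weighted sum of the fifty minors -/
def dsum {R : Type*} [CommRing R] (w : ℕ → R) (z00 z01 z02
  z03 z04 z11 z12 z13 z14 z22 z23 z24 z33 z34 z44 : R) : R :=
  ((((((w 0 * det9 z00 z01 z02 z01 z11 z12 z02 z12 z22) + ((w 1 * det9 z00 z01 z03 z01 z11 z13 z02 z12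
    z23) + (w 2 * det9 z00 z01 z04 z01 z11 z14 z02 z12 z24))) + ((w 3 * det9 z00 z02 z03 z01 z12 z13
    z02 z22 z23) + ((w 4 * det9 z00 z02 z04 z01 z12 z14 z02 z22 z24) + (w 5 * det9 z00 z03 z04 z01 z13
    z14 z02 z23 z24)))) + (((w 6 * det9 z01 z02 z03 z11 z12 z13 z12 z22 z23) + ((w 7 * det9 z01 z02 z04
    z11 z12 z14 z12 z22 z24) + (w 8 * det9 z01 z03 z04 z11 z13 z14 z12 z23 z24))) + ((w 9 * det9 z02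
    z03 z04 z12 z13 z14 z22 z23 z24) + ((w 10 * det9 z00 z01 z03 z01 z11 z13 z03 z13 z33) + (w 11 *
    det9 z00 z01 z04 z01 z11 z14 z03 z13 z34))))) + ((((w 12 * det9 z00 z02 z03 z01 z12 z13 z03 z23
    z33) + ((w 13 * det9 z00 z02 z04 z01 z12 z14 z03 z23 z34) + (w 14 * det9 z00 z03 z04 z01 z13 z14
    z03 z33 z34))) + ((w 15 * det9 z01 z02 z03 z11 z12 z13 z13 z23 z33) + ((w 16 * det9 z01 z02 z04 z11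
    z12 z14 z13 z23 z34) + (w 17 * det9 z01 z03 z04 z11 z13 z14 z13 z33 z34)))) + (((w 18 * det9 z02
    z03 z04 z12 z13 z14 z23 z33 z34) + ((w 19 * det9 z00 z01 z04 z01 z11 z14 z04 z14 z44) + (w 20 *
    det9 z00 z02 z04 z01 z12 z14 z04 z24 z44))) + (((w 21 * det9 z00 z03 z04 z01 z13 z14 z04 z34 z44) +
    (w 22 * det9 z01 z02 z04 z11 z12 z14 z14 z24 z44)) + ((w 23 * det9 z01 z03 z04 z11 z13 z14 z14 z34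
    z44) + (w 24 * det9 z02 z03 z04 z12 z13 z14 z24 z34 z44)))))) + (((((w 25 * det9 z00 z02 z03 z02
    z22 z23 z03 z23 z33) + ((w 26 * det9 z00 z02 z04 z02 z22 z24 z03 z23 z34) + (w 27 * det9 z00 z03
    z04 z02 z23 z24 z03 z33 z34))) + ((w 28 * det9 z01 z02 z03 z12 z22 z23 z13 z23 z33) + ((w 29 * det9
    z01 z02 z04 z12 z22 z24 z13 z23 z34) + (w 30 * det9 z01 z03 z04 z12 z23 z24 z13 z33 z34)))) + (((w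
    31 * det9 z02 z03 z04 z22 z23 z24 z23 z33 z34) + ((w 32 * det9 z00 z02 z04 z02 z22 z24 z04 z24 z44)
    + (w 33 * det9 z00 z03 z04 z02 z23 z24 z04 z34 z44))) + ((w 34 * det9 z01 z02 z04 z12 z22 z24 z14
    z24 z44) + ((w 35 * det9 z01 z03 z04 z12 z23 z24 z14 z34 z44) + (w 36 * det9 z02 z03 z04 z22 z23
    z24 z24 z34 z44))))) + ((((w 37 * det9 z00 z03 z04 z03 z33 z34 z04 z34 z44) + ((w 38 * det9 z01 z03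
    z04 z13 z33 z34 z14 z34 z44) + (w 39 * det9 z02 z03 z04 z23 z33 z34 z24 z34 z44))) + ((w 40 * det9
    z11 z12 z13 z12 z22 z23 z13 z23 z33) + ((w 41 * det9 z11 z12 z14 z12 z22 z24 z13 z23 z34) + (w 42 *
    det9 z11 z13 z14 z12 z23 z24 z13 z33 z34)))) + (((w 43 * det9 z12 z13 z14 z22 z23 z24 z23 z33 z34)
    + ((w 44 * det9 z11 z12 z14 z12 z22 z24 z14 z24 z44) + (w 45 * det9 z11 z13 z14 z12 z23 z24 z14 z34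
    z44))) + (((w 46 * det9 z12 z13 z14 z22 z23 z24 z24 z34 z44) + (w 47 * det9 z11 z13 z14 z13 z33 z34
    z14 z34 z44)) + ((w 48 * det9 z12 z13 z14 z23 z33 z34 z24 z34 z44) + (w 49 * det9 z22 z23 z24 z23
    z33 z34 z24 z34 z44)))))))

theorem dsum_eq {R : Type*} [CommRing R] (w : ℕ → R) (z00 z01 z02 z03 z04 z11 z12 z13 z14 z22 z23 z24
  z33 z34 z44 : R) : (((((((((w 0 * (z00 * (z11 * z22 - z12 * z12) + z02 * (z01 * z12 - z02 * z11) -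
  z01 * (z01 * z22 - z02 * z12))) + (w 1 * (z00 * (z11 * z23 - z13 * z12) + z03 * (z01 * z12 - z02 *
  z11) - z01 * (z01 * z23 - z02 * z13)))) + ((w 3 * (z00 * (z12 * z23 - z13 * z22) + z03 * (z01 * z22 -
  z02 * z12) - z02 * (z01 * z23 - z02 * z13))) + ((w 6 * (z01 * (z12 * z23 - z13 * z22) + z03 * (z11 *
  z22 - z12 * z12) - z02 * (z11 * z23 - z13 * z12))) + (w 10 * (z00 * (z11 * z33 - z13 * z13) + z03 *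
  (z01 * z13 - z03 * z11) - z01 * (z01 * z33 - z03 * z13)))))) + (((w 12 * (z00 * (z12 * z33 - z13 *
  z23) + z03 * (z01 * z23 - z03 * z12) - z02 * (z01 * z33 - z03 * z13))) + (w 15 * (z01 * (z12 * z33 -
  z13 * z23) + z03 * (z11 * z23 - z13 * z12) - z02 * (z11 * z33 - z13 * z13)))) + ((w 25 * (z00 * (z22
  * z33 - z23 * z23) + z03 * (z02 * z23 - z03 * z22) - z02 * (z02 * z33 - z03 * z23))) + ((w 28 * (z01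
  * (z22 * z33 - z23 * z23) + z03 * (z12 * z23 - z13 * z22) - z02 * (z12 * z33 - z13 * z23))) + (w 40 *
  (z11 * (z22 * z33 - z23 * z23) + z13 * (z12 * z23 - z13 * z22) - z12 * (z12 * z33 - z13 * z23))))))))
  + (z44 * ((((((w 19 * (z00 * z11 - z01 * z01)) + (w 20 * (z00 * z12 - z02 * z01))) + ((w 21 * (z00 *
  z13 - z03 * z01)) + ((w 22 * (z01 * z12 - z02 * z11)) + (w 23 * (z01 * z13 - z03 * z11))))) + (((w 24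
  * (z02 * z13 - z03 * z12)) + (w 32 * (z00 * z22 - z02 * z02))) + ((w 33 * (z00 * z23 - z03 * z02)) +
  ((w 34 * (z01 * z22 - z02 * z12)) + (w 35 * (z01 * z23 - z03 * z12)))))) + ((((w 36 * (z02 * z23 -
  z03 * z22)) + (w 37 * (z00 * z33 - z03 * z03))) + ((w 38 * (z01 * z33 - z03 * z13)) + ((w 39 * (z02 *
  z33 - z03 * z23)) + (w 44 * (z11 * z22 - z12 * z12))))) + (((w 45 * (z11 * z23 - z13 * z12)) + (w 46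
  * (z12 * z23 - z13 * z22))) + ((w 47 * (z11 * z33 - z13 * z13)) + ((w 48 * (z12 * z33 - z13 * z23)) +
  (w 49 * (z22 * z33 - z23 * z23)))))))))) + ((z04 * ((((((w 2 * (z01 * z12 - z02 * z11)) + (w 4 * (z01
  * z22 - z02 * z12))) + ((w 5 * (z01 * z23 - z02 * z13)) + (w 7 * (z11 * z22 - z12 * z12)))) + (((w 8
  * (z11 * z23 - z13 * z12)) + (w 9 * (z12 * z23 - z13 * z22))) + ((w 11 * (z01 * z13 - z03 * z11)) +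
  (w 13 * (z01 * z23 - z03 * z12))))) + ((((w 14 * (z01 * z33 - z03 * z13)) + (w 16 * (z11 * z23 - z13
  * z12))) + ((w 17 * (z11 * z33 - z13 * z13)) + (w 18 * (z12 * z33 - z13 * z23)))) + (((w 26 * (z02 *
  z23 - z03 * z22)) + (w 27 * (z02 * z33 - z03 * z23))) + ((w 29 * (z12 * z23 - z13 * z22)) + ((w 30 *
  (z12 * z33 - z13 * z23)) + (w 31 * (z22 * z33 - z23 * z23))))))))) + (z14 * (((w 41 * (z12 * z23 -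
  z13 * z22)) + ((w 42 * (z12 * z33 - z13 * z23)) + (w 43 * (z22 * z33 - z23 * z23)))) - ((((w 2 * (z00
  * z12 - z02 * z01)) + ((w 4 * (z00 * z22 - z02 * z02)) + (w 5 * (z00 * z23 - z03 * z02)))) + ((w 7 *
  (z01 * z22 - z02 * z12)) + ((w 8 * (z01 * z23 - z03 * z12)) + (w 9 * (z02 * z23 - z03 * z22))))) +
  (((w 11 * (z00 * z13 - z03 * z01)) + ((w 13 * (z00 * z23 - z03 * z02)) + (w 14 * (z00 * z33 - z03 *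
  z03)))) + ((w 16 * (z01 * z23 - z02 * z13)) + ((w 17 * (z01 * z33 - z03 * z13)) + (w 18 * (z02 * z33
  - z03 * z23)))))))))) + (((z24 * ((((w 2 * (z00 * z11 - z01 * z01)) + ((w 4 * (z00 * z12 - z02 *
  z01)) + (w 5 * (z00 * z13 - z03 * z01)))) + ((w 7 * (z01 * z12 - z02 * z11)) + ((w 8 * (z01 * z13 -
  z03 * z11)) + (w 9 * (z02 * z13 - z03 * z12))))) - ((((w 26 * (z00 * z23 - z03 * z02)) + (w 27 * (z00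
  * z33 - z03 * z03))) + ((w 29 * (z01 * z23 - z02 * z13)) + (w 30 * (z01 * z33 - z03 * z13)))) + (((w
  31 * (z02 * z33 - z03 * z23)) + (w 41 * (z11 * z23 - z13 * z12))) + ((w 42 * (z11 * z33 - z13 * z13))
  + (w 43 * (z12 * z33 - z13 * z23))))))) + (z34 * (((((w 11 * (z00 * z11 - z01 * z01)) + ((w 13 * (z00
  * z12 - z02 * z01)) + (w 14 * (z00 * z13 - z03 * z01)))) + (((w 16 * (z01 * z12 - z02 * z11)) + (w 17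
  * (z01 * z13 - z03 * z11))) + ((w 18 * (z02 * z13 - z03 * z12)) + (w 26 * (z00 * z22 - z02 * z02)))))
  + (((w 27 * (z00 * z23 - z03 * z02)) + ((w 29 * (z01 * z22 - z02 * z12)) + (w 30 * (z01 * z23 - z03 *
  z12)))) + (((w 31 * (z02 * z23 - z03 * z22)) + (w 41 * (z11 * z22 - z12 * z12))) + ((w 42 * (z11 *
  z23 - z13 * z12)) + (w 43 * (z12 * z23 - z13 * z22))))))))) + (((z04 * z04) * (0 - (((w 19 * z11) +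
  ((w 20 * z12) + (w 21 * z13))) + ((w 32 * z22) + ((w 33 * z23) + (w 37 * z33)))))) + ((z04 * z14) *
  ((((w 19 * z01) + (w 19 * z01)) + ((w 20 * z02) + (w 21 * z03))) - (((w 22 * z12) + (w 23 * z13)) +
  ((w 34 * z22) + ((w 35 * z23) + (w 38 * z33))))))))) + (((((z04 * z24) * ((((w 20 * z01) + ((w 22 *
  z11) + (w 32 * z02))) + ((w 32 * z02) + ((w 33 * z03) + (w 34 * z12)))) - ((w 24 * z13) + ((w 36 *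
  z23) + (w 39 * z33))))) + ((z04 * z34) * (((((w 21 * z01) + (w 23 * z11)) + ((w 24 * z12) + ((w 33 *
  z02) + (w 35 * z12)))) + (((w 36 * z22) + (w 37 * z03)) + ((w 37 * z03) + ((w 38 * z13) + (w 39 *
  z23)))))))) + (((z14 * z14) * (((w 22 * z02) + (w 23 * z03)) - (((w 19 * z00) + (w 44 * z22)) + ((w
  45 * z23) + (w 47 * z33))))) + ((z14 * z24) * ((((w 24 * z03) + ((w 34 * z02) + (w 35 * z03))) + ((w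
  44 * z12) + ((w 44 * z12) + (w 45 * z13)))) - (((w 20 * z00) + (w 22 * z01)) + ((w 46 * z23) + (w 48
  * z33))))))) + ((((z14 * z34) * ((((w 38 * z03) + ((w 45 * z12) + (w 46 * z22))) + ((w 47 * z13) +
  ((w 47 * z13) + (w 48 * z23)))) - ((w 21 * z00) + ((w 23 * z01) + (w 24 * z02))))) + ((z24 * z24) *
  (((w 36 * z03) + (w 46 * z13)) - (((w 32 * z00) + (w 34 * z01)) + ((w 44 * z11) + (w 49 * z33)))))) +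
  (((z24 * z34) * ((((w 39 * z03) + (w 48 * z13)) + ((w 49 * z23) + (w 49 * z23))) - (((w 33 * z00) +
  (w 35 * z01)) + ((w 36 * z02) + ((w 45 * z11) + (w 46 * z12)))))) + ((z34 * z34) * (0 - (((w 37 *
  z00) + ((w 38 * z01) + (w 39 * z02))) + ((w 47 * z11) + ((w 48 * z12) + (w 49 * z22)))))))))) = dsum
  w z00 z01 z02 z03 z04 z11 z12 z13 z14 z22 z23 z24 z33 z34 z44 := by
  unfold dsum det9
  ring

theorem aD_cv {N M N2 U KN : ℕ} (E : Ev N M N2) (hK0 : (KN : ZMod N) = 0) (hK : 16 * (U * N) ≤ KN) {w :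
  ℕ → ZMod N} {o : ZMod N} {g00 g01 g02 g03 g11 g12 g13 g22 g23 g33 p01_01 p01_02 p01_03 p01_12 p01_13
  p01_23 p02_02 p02_03 p02_12 p02_13 p02_23 p03_03 p03_12 p03_13 p03_23 p12_12 p12_13 p12_23 p13_13
  p13_23 p23_23 m0_0 m0_1 m0_3 m0_6 m1_1 m1_3 m1_6 m3_3 m3_6 m6_6 cK cU0 cU1 cU2 cU3 cV cS00 cS01 cS02
  cS03 cS11 cS12 cS13 cS22 cS23 cS33 h a0 a1 a2 a3 l0 l1 l2 l3 l4 l5 l6 l7 l8 l9 l10 l11 l12 l13 l14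
  l15 l16 l17 l18 l19 l20 l21 l22 l23 l24 l25 l26 l27 l28 l29 l30 l31 l32 l33 l34 l35 l36 l37 l38 l39
  l40 l41 l42 l43 l44 l45 l46 l47 l48 l49 : ℕ} {z00 z01 z02 z03 z04 z11 z12 z13 z14 z22 z23 z24 z33 z34
  z44 : ZMod N} (Hg00 : Rp N g00 z00) (Hg01 : Rp N g01 z01) (Hg02 : Rp N g02 z02) (Hg03 : Rp N g03 z03)
  (Hg11 : Rp N g11 z11) (Hg12 : Rp N g12 z12) (Hg13 : Rp N g13 z13) (Hg22 : Rp N g22 z22) (Hg23 : Rp N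
  g23 z23) (Hg33 : Rp N g33 z33) (Hp01_01 : Rp N p01_01 (z00 * z11 - z01 * z01)) (Hp01_02 : Rp N p01_02
  (z00 * z12 - z02 * z01)) (Hp01_03 : Rp N p01_03 (z00 * z13 - z03 * z01)) (Hp01_12 : Rp N p01_12 (z01
  * z12 - z02 * z11)) (Hp01_13 : Rp N p01_13 (z01 * z13 - z03 * z11)) (Hp01_23 : Rp N p01_23 (z02 * z13
  - z03 * z12)) (Hp02_02 : Rp N p02_02 (z00 * z22 - z02 * z02)) (Hp02_03 : Rp N p02_03 (z00 * z23 - z03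
  * z02)) (Hp02_12 : Rp N p02_12 (z01 * z22 - z02 * z12)) (Hp02_13 : Rp N p02_13 (z01 * z23 - z03 *
  z12)) (Hp02_23 : Rp N p02_23 (z02 * z23 - z03 * z22)) (Hp03_03 : Rp N p03_03 (z00 * z33 - z03 * z03))
  (Hp03_12 : Rp N p03_12 (z01 * z23 - z02 * z13)) (Hp03_13 : Rp N p03_13 (z01 * z33 - z03 * z13))
  (Hp03_23 : Rp N p03_23 (z02 * z33 - z03 * z23)) (Hp12_12 : Rp N p12_12 (z11 * z22 - z12 * z12))
  (Hp12_13 : Rp N p12_13 (z11 * z23 - z13 * z12)) (Hp12_23 : Rp N p12_23 (z12 * z23 - z13 * z22))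
  (Hp13_13 : Rp N p13_13 (z11 * z33 - z13 * z13)) (Hp13_23 : Rp N p13_23 (z12 * z33 - z13 * z23))
  (Hp23_23 : Rp N p23_23 (z22 * z33 - z23 * z23)) (Hm0_0 : Rp N m0_0 (z00 * (z11 * z22 - z12 * z12) +
  z02 * (z01 * z12 - z02 * z11) - z01 * (z01 * z22 - z02 * z12))) (Hm0_1 : Rp N m0_1 (z00 * (z11 * z23
  - z13 * z12) + z03 * (z01 * z12 - z02 * z11) - z01 * (z01 * z23 - z02 * z13))) (Hm0_3 : Rp N m0_3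
  (z00 * (z12 * z23 - z13 * z22) + z03 * (z01 * z22 - z02 * z12) - z02 * (z01 * z23 - z02 * z13)))
  (Hm0_6 : Rp N m0_6 (z01 * (z12 * z23 - z13 * z22) + z03 * (z11 * z22 - z12 * z12) - z02 * (z11 * z23
  - z13 * z12))) (Hm1_1 : Rp N m1_1 (z00 * (z11 * z33 - z13 * z13) + z03 * (z01 * z13 - z03 * z11) -
  z01 * (z01 * z33 - z03 * z13))) (Hm1_3 : Rp N m1_3 (z00 * (z12 * z33 - z13 * z23) + z03 * (z01 * z23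
  - z03 * z12) - z02 * (z01 * z33 - z03 * z13))) (Hm1_6 : Rp N m1_6 (z01 * (z12 * z33 - z13 * z23) +
  z03 * (z11 * z23 - z13 * z12) - z02 * (z11 * z33 - z13 * z13))) (Hm3_3 : Rp N m3_3 (z00 * (z22 * z33
  - z23 * z23) + z03 * (z02 * z23 - z03 * z22) - z02 * (z02 * z33 - z03 * z23))) (Hm3_6 : Rp N m3_6
  (z01 * (z22 * z33 - z23 * z23) + z03 * (z12 * z23 - z13 * z22) - z02 * (z12 * z33 - z13 * z23)))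
  (Hm6_6 : Rp N m6_6 (z11 * (z22 * z33 - z23 * z23) + z13 * (z12 * z23 - z13 * z22) - z12 * (z12 * z33
  - z13 * z23))) (HcK : Cv N cK (o * (0 - ((((z00 * (z11 * z22 - z12 * z12) + z02 * (z01 * z12 - z02 *
  z11) - z01 * (z01 * z22 - z02 * z12)) + (z00 * (z11 * z23 - z13 * z12) + z03 * (z01 * z12 - z02 *
  z11) - z01 * (z01 * z23 - z02 * z13))) + ((z00 * (z12 * z23 - z13 * z22) + z03 * (z01 * z22 - z02 *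
  z12) - z02 * (z01 * z23 - z02 * z13)) + ((z01 * (z12 * z23 - z13 * z22) + z03 * (z11 * z22 - z12 *
  z12) - z02 * (z11 * z23 - z13 * z12)) + (z00 * (z11 * z33 - z13 * z13) + z03 * (z01 * z13 - z03 *
  z11) - z01 * (z01 * z33 - z03 * z13))))) + (((z00 * (z12 * z33 - z13 * z23) + z03 * (z01 * z23 - z03
  * z12) - z02 * (z01 * z33 - z03 * z13)) + (z01 * (z12 * z33 - z13 * z23) + z03 * (z11 * z23 - z13 *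
  z12) - z02 * (z11 * z33 - z13 * z13))) + ((z00 * (z22 * z33 - z23 * z23) + z03 * (z02 * z23 - z03 *
  z22) - z02 * (z02 * z33 - z03 * z23)) + ((z01 * (z22 * z33 - z23 * z23) + z03 * (z12 * z23 - z13 *
  z22) - z02 * (z12 * z33 - z13 * z23)) + (z11 * (z22 * z33 - z23 * z23) + z13 * (z12 * z23 - z13 *
  z22) - z12 * (z12 * z33 - z13 * z23))))))))) (HcU0 : Cv N cU0 (o * (0 - (((((z01 * z12 - z02 * z11) +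
  (z01 * z22 - z02 * z12)) + ((z01 * z23 - z02 * z13) + (z11 * z22 - z12 * z12))) + (((z11 * z23 - z13
  * z12) + (z12 * z23 - z13 * z22)) + ((z01 * z13 - z03 * z11) + (z01 * z23 - z03 * z12)))) + ((((z01 *
  z33 - z03 * z13) + (z11 * z23 - z13 * z12)) + ((z11 * z33 - z13 * z13) + (z12 * z33 - z13 * z23))) +
  (((z02 * z23 - z03 * z22) + (z02 * z33 - z03 * z23)) + ((z12 * z23 - z13 * z22) + ((z12 * z33 - z13 *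
  z23) + (z22 * z33 - z23 * z23))))))))) (HcU1 : Cv N cU1 (o * (((((z00 * z12 - z02 * z01) + ((z00 *
  z22 - z02 * z02) + (z00 * z23 - z03 * z02))) + ((z01 * z22 - z02 * z12) + ((z01 * z23 - z03 * z12) +
  (z02 * z23 - z03 * z22)))) + (((z00 * z13 - z03 * z01) + ((z00 * z23 - z03 * z02) + (z00 * z33 - z03
  * z03))) + ((z01 * z23 - z02 * z13) + ((z01 * z33 - z03 * z13) + (z02 * z33 - z03 * z23))))) - ((z12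
  * z23 - z13 * z22) + ((z12 * z33 - z13 * z23) + (z22 * z33 - z23 * z23)))))) (HcU2 : Cv N cU2 (o *
  (((((z00 * z23 - z03 * z02) + (z00 * z33 - z03 * z03)) + ((z01 * z23 - z02 * z13) + (z01 * z33 - z03
  * z13))) + (((z02 * z33 - z03 * z23) + (z11 * z23 - z13 * z12)) + ((z11 * z33 - z13 * z13) + (z12 *
  z33 - z13 * z23)))) - (((z00 * z11 - z01 * z01) + ((z00 * z12 - z02 * z01) + (z00 * z13 - z03 *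
  z01))) + ((z01 * z12 - z02 * z11) + ((z01 * z13 - z03 * z11) + (z02 * z13 - z03 * z12))))))) (HcU3 :
  Cv N cU3 (o * (0 - ((((z00 * z11 - z01 * z01) + ((z00 * z12 - z02 * z01) + (z00 * z13 - z03 * z01)))
  + (((z01 * z12 - z02 * z11) + (z01 * z13 - z03 * z11)) + ((z02 * z13 - z03 * z12) + (z00 * z22 - z02
  * z02)))) + (((z00 * z23 - z03 * z02) + ((z01 * z22 - z02 * z12) + (z01 * z23 - z03 * z12))) + (((z02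
  * z23 - z03 * z22) + (z11 * z22 - z12 * z12)) + ((z11 * z23 - z13 * z12) + (z12 * z23 - z13 *
  z22)))))))) (HcV : Cv N cV (o * (0 - (((((z00 * z11 - z01 * z01) + (z00 * z12 - z02 * z01)) + ((z00 *
  z13 - z03 * z01) + ((z01 * z12 - z02 * z11) + (z01 * z13 - z03 * z11)))) + (((z02 * z13 - z03 * z12)
  + (z00 * z22 - z02 * z02)) + ((z00 * z23 - z03 * z02) + ((z01 * z22 - z02 * z12) + (z01 * z23 - z03 *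
  z12))))) + ((((z02 * z23 - z03 * z22) + (z00 * z33 - z03 * z03)) + ((z01 * z33 - z03 * z13) + ((z02 *
  z33 - z03 * z23) + (z11 * z22 - z12 * z12)))) + (((z11 * z23 - z13 * z12) + (z12 * z23 - z13 * z22))
  + ((z11 * z33 - z13 * z13) + ((z12 * z33 - z13 * z23) + (z22 * z33 - z23 * z23))))))))) (HcS00 : Cv N
  cS00 (o * (((z11 + (z12 + z13)) + (z22 + (z23 + z33)))))) (HcS01 : Cv N cS01 (o * (((z12 + z13) +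
  (z22 + (z23 + z33))) - ((z01 + z01) + (z02 + z03))))) (HcS02 : Cv N cS02 (o * ((z13 + (z23 + z33)) -
  ((z01 + (z11 + z02)) + (z02 + (z03 + z12)))))) (HcS03 : Cv N cS03 (o * (0 - (((z01 + z11) + (z12 +
  (z02 + z12))) + ((z22 + z03) + (z03 + (z13 + z23))))))) (HcS11 : Cv N cS11 (o * (((z00 + z22) + (z23
  + z33)) - (z02 + z03)))) (HcS12 : Cv N cS12 (o * (((z00 + z01) + (z23 + z33)) - ((z03 + (z02 + z03))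
  + (z12 + (z12 + z13)))))) (HcS13 : Cv N cS13 (o * ((z00 + (z01 + z02)) - ((z03 + (z12 + z22)) + (z13
  + (z13 + z23)))))) (HcS22 : Cv N cS22 (o * (((z00 + z01) + (z11 + z33)) - (z03 + z13)))) (HcS23 : Cv
  N cS23 (o * (((z00 + z01) + (z02 + (z11 + z12))) - ((z03 + z13) + (z23 + z23))))) (HcS33 : Cv N cS33
  (o * (((z00 + (z01 + z02)) + (z11 + (z12 + z22)))))) (Hh : Cv N h z44) (Ha0 : Cv N a0 z04) (Ha1 : Cv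
  N a1 z14) (Ha2 : Cv N a2 z24) (Ha3 : Cv N a3 z34) (Hl0 : Lt N U l0 (w 0 + o)) (Hl1 : Lt N U l1 (w 1 +
  o)) (Hl2 : Lt N U l2 (w 2 + o)) (Hl3 : Lt N U l3 (w 3 + o)) (Hl4 : Lt N U l4 (w 4 + o)) (Hl5 : Lt N U
  l5 (w 5 + o)) (Hl6 : Lt N U l6 (w 6 + o)) (Hl7 : Lt N U l7 (w 7 + o)) (Hl8 : Lt N U l8 (w 8 + o))
  (Hl9 : Lt N U l9 (w 9 + o)) (Hl10 : Lt N U l10 (w 10 + o)) (Hl11 : Lt N U l11 (w 11 + o)) (Hl12 : Lt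
  N U l12 (w 12 + o)) (Hl13 : Lt N U l13 (w 13 + o)) (Hl14 : Lt N U l14 (w 14 + o)) (Hl15 : Lt N U l15
  (w 15 + o)) (Hl16 : Lt N U l16 (w 16 + o)) (Hl17 : Lt N U l17 (w 17 + o)) (Hl18 : Lt N U l18 (w 18 +
  o)) (Hl19 : Lt N U l19 (w 19 + o)) (Hl20 : Lt N U l20 (w 20 + o)) (Hl21 : Lt N U l21 (w 21 + o))
  (Hl22 : Lt N U l22 (w 22 + o)) (Hl23 : Lt N U l23 (w 23 + o)) (Hl24 : Lt N U l24 (w 24 + o)) (Hl25 :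
  Lt N U l25 (w 25 + o)) (Hl26 : Lt N U l26 (w 26 + o)) (Hl27 : Lt N U l27 (w 27 + o)) (Hl28 : Lt N U
  l28 (w 28 + o)) (Hl29 : Lt N U l29 (w 29 + o)) (Hl30 : Lt N U l30 (w 30 + o)) (Hl31 : Lt N U l31 (w
  31 + o)) (Hl32 : Lt N U l32 (w 32 + o)) (Hl33 : Lt N U l33 (w 33 + o)) (Hl34 : Lt N U l34 (w 34 + o))
  (Hl35 : Lt N U l35 (w 35 + o)) (Hl36 : Lt N U l36 (w 36 + o)) (Hl37 : Lt N U l37 (w 37 + o)) (Hl38 :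
  Lt N U l38 (w 38 + o)) (Hl39 : Lt N U l39 (w 39 + o)) (Hl40 : Lt N U l40 (w 40 + o)) (Hl41 : Lt N U
  l41 (w 41 + o)) (Hl42 : Lt N U l42 (w 42 + o)) (Hl43 : Lt N U l43 (w 43 + o)) (Hl44 : Lt N U l44 (w
  44 + o)) (Hl45 : Lt N U l45 (w 45 + o)) (Hl46 : Lt N U l46 (w 46 + o)) (Hl47 : Lt N U l47 (w 47 + o))
  (Hl48 : Lt N U l48 (w 48 + o)) (Hl49 : Lt N U l49 (w 49 + o)) : Cv N (aD M KN g00 g01 g02 g03 g11 g12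
  g13 g22 g23 g33 p01_01 p01_02 p01_03 p01_12 p01_13 p01_23 p02_02 p02_03 p02_12 p02_13 p02_23 p03_03
  p03_12 p03_13 p03_23 p12_12 p12_13 p12_23 p13_13 p13_23 p23_23 m0_0 m0_1 m0_3 m0_6 m1_1 m1_3 m1_6
  m3_3 m3_6 m6_6 cK cU0 cU1 cU2 cU3 cV cS00 cS01 cS02 cS03 cS11 cS12 cS13 cS22 cS23 cS33 h a0 a1 a2 a3
  l0 l1 l2 l3 l4 l5 l6 l7 l8 l9 l10 l11 l12 l13 l14 l15 l16 l17 l18 l19 l20 l21 l22 l23 l24 l25 l26 l27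
  l28 l29 l30 l31 l32 l33 l34 l35 l36 l37 l38 l39 l40 l41 l42 l43 l44 l45 l46 l47 l48 l49) (dsum w z00
  z01 z02 z03 z04 z11 z12 z13 z14 z22 z23 z24 z33 z34 z44) :=
  (aF_cv E Hh Ha0 Ha1 Ha2 Ha3 (vK_cv E hK0 hK Hl0 Hl1 Hl3 Hl6 Hl10 Hl12 Hl15 Hl25 Hl28 Hl40 Hm0_0 Hm0_1
    Hm0_3 Hm0_6 Hm1_1 Hm1_3 Hm1_6 Hm3_3 Hm3_6 Hm6_6 HcK) (vU0_cv E hK0 hK Hl2 Hl4 Hl5 Hl7 Hl8 Hl9 Hl11
    Hl13 Hl14 Hl16 Hl17 Hl18 Hl26 Hl27 Hl29 Hl30 Hl31 Hp01_12 Hp02_12 Hp03_12 Hp12_12 Hp12_13 Hp12_23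
    Hp01_13 Hp02_13 Hp03_13 Hp13_13 Hp13_23 Hp02_23 Hp03_23 Hp23_23 HcU0) (vU1_cv E hK0 hK Hl2 Hl4 Hl5
    Hl7 Hl8 Hl9 Hl11 Hl13 Hl14 Hl16 Hl17 Hl18 Hl41 Hl42 Hl43 Hp01_02 Hp02_02 Hp02_03 Hp02_12 Hp02_13
    Hp02_23 Hp01_03 Hp03_03 Hp03_12 Hp03_13 Hp03_23 Hp12_23 Hp13_23 Hp23_23 HcU1) (vU2_cv E hK0 hK Hl2
    Hl4 Hl5 Hl7 Hl8 Hl9 Hl26 Hl27 Hl29 Hl30 Hl31 Hl41 Hl42 Hl43 Hp01_01 Hp01_02 Hp01_03 Hp01_12 Hp01_13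
    Hp01_23 Hp02_03 Hp03_03 Hp03_12 Hp03_13 Hp03_23 Hp12_13 Hp13_13 Hp13_23 HcU2) (vU3_cv E hK0 hK Hl11
    Hl13 Hl14 Hl16 Hl17 Hl18 Hl26 Hl27 Hl29 Hl30 Hl31 Hl41 Hl42 Hl43 Hp01_01 Hp01_02 Hp01_03 Hp01_12
    Hp01_13 Hp01_23 Hp02_02 Hp02_03 Hp02_12 Hp02_13 Hp02_23 Hp12_12 Hp12_13 Hp12_23 HcU3) (vV_cv E hK0
    hK Hl19 Hl20 Hl21 Hl22 Hl23 Hl24 Hl32 Hl33 Hl34 Hl35 Hl36 Hl37 Hl38 Hl39 Hl44 Hl45 Hl46 Hl47 Hl48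
    Hl49 Hp01_01 Hp01_02 Hp01_03 Hp01_12 Hp01_13 Hp01_23 Hp02_02 Hp02_03 Hp02_12 Hp02_13 Hp02_23
    Hp03_03 Hp03_13 Hp03_23 Hp12_12 Hp12_13 Hp12_23 Hp13_13 Hp13_23 Hp23_23 HcV) (vS00_cv E hK0 hK Hl19
    Hl20 Hl21 Hl32 Hl33 Hl37 Hg11 Hg12 Hg13 Hg22 Hg23 Hg33 HcS00) (vS01_cv E hK0 hK Hl19 Hl20 Hl21 Hl22
    Hl23 Hl34 Hl35 Hl38 Hg01 Hg02 Hg03 Hg12 Hg13 Hg22 Hg23 Hg33 HcS01) (vS02_cv E hK0 hK Hl20 Hl22 Hl24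
    Hl32 Hl33 Hl34 Hl36 Hl39 Hg01 Hg11 Hg13 Hg02 Hg03 Hg12 Hg23 Hg33 HcS02) (vS03_cv E hK0 hK Hl21 Hl23
    Hl24 Hl33 Hl35 Hl36 Hl37 Hl38 Hl39 Hg01 Hg11 Hg12 Hg02 Hg22 Hg03 Hg13 Hg23 HcS03) (vS11_cv E hK0 hK
    Hl19 Hl22 Hl23 Hl44 Hl45 Hl47 Hg00 Hg02 Hg03 Hg22 Hg23 Hg33 HcS11) (vS12_cv E hK0 hK Hl20 Hl22 Hl24
    Hl34 Hl35 Hl44 Hl45 Hl46 Hl48 Hg00 Hg01 Hg03 Hg02 Hg12 Hg13 Hg23 Hg33 HcS12) (vS13_cv E hK0 hK Hl21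
    Hl23 Hl24 Hl38 Hl45 Hl46 Hl47 Hl48 Hg00 Hg01 Hg02 Hg03 Hg12 Hg22 Hg13 Hg23 HcS13) (vS22_cv E hK0 hK
    Hl32 Hl34 Hl36 Hl44 Hl46 Hl49 Hg00 Hg01 Hg03 Hg11 Hg13 Hg33 HcS22) (vS23_cv E hK0 hK Hl33 Hl35 Hl36
    Hl39 Hl45 Hl46 Hl48 Hl49 Hg00 Hg01 Hg02 Hg03 Hg11 Hg12 Hg13 Hg23 HcS23) (vS33_cv E hK0 hK Hl37 Hl38
    Hl39 Hl47 Hl48 Hl49 Hg00 Hg01 Hg02 Hg11 Hg12 Hg22 HcS33)).congr (dsum_eq w z00 z01 z02 z03 z04 z11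
    z12 z13 z14 z22 z23 z24 z33 z34 z44)
theorem aL_cv {N M N2 U KN mu : ℕ} (E : Ev N M N2) (hK0 : (KN : ZMod N) = 0) (hK : 16 * (U * N) ≤ KN)
  {w : ℕ → ℕ → ZMod N} {o : ZMod N} {k1 k2 k3 k4 k5 k6 k7 k8 k9 k10 k11 k12 k13 k14 k15 k16 k17 k18 k19
  k20 k21 k22 k23 k24 k25 k26 k27 k28 k29 k30 k31 k32 k33 k34 k35 k36 k37 k38 k39 k40 k41 k42 k43 k44
  k45 k46 k47 k48 k49 : ℕ} {x01 x02 x03 x04 g00 g01 g02 g03 g11 g12 g13 g22 g23 g33 p01_01 p01_02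
  p01_03 p01_12 p01_13 p01_23 p02_02 p02_03 p02_12 p02_13 p02_23 p03_03 p03_12 p03_13 p03_23 p12_12
  p12_13 p12_23 p13_13 p13_23 p23_23 m0_0 m0_1 m0_3 m0_6 m1_1 m1_3 m1_6 m3_3 m3_6 m6_6 cK cU0 cU1 cU2
  cU3 cV cS00 cS01 cS02 cS03 cS11 cS12 cS13 cS22 cS23 cS33 : ℕ} {f01 f02 f03 f04 z00 z01 z02 z03 z11
  z12 z13 z22 z23 z33 : ZMod N} (Hd0 : ∀ lam : ℕ, Lt N U (Nat.land lam mu) (w lam 0 + o)) (Hd1 : ∀ lam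
  : ℕ, Lt N U (Nat.land (Nat.shiftRight lam k1) mu) (w lam 1 + o)) (Hd2 : ∀ lam : ℕ, Lt N U (Nat.land
  (Nat.shiftRight lam k2) mu) (w lam 2 + o)) (Hd3 : ∀ lam : ℕ, Lt N U (Nat.land (Nat.shiftRight lam k3)
  mu) (w lam 3 + o)) (Hd4 : ∀ lam : ℕ, Lt N U (Nat.land (Nat.shiftRight lam k4) mu) (w lam 4 + o)) (Hd5
  : ∀ lam : ℕ, Lt N U (Nat.land (Nat.shiftRight lam k5) mu) (w lam 5 + o)) (Hd6 : ∀ lam : ℕ, Lt N U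
  (Nat.land (Nat.shiftRight lam k6) mu) (w lam 6 + o)) (Hd7 : ∀ lam : ℕ, Lt N U (Nat.land
  (Nat.shiftRight lam k7) mu) (w lam 7 + o)) (Hd8 : ∀ lam : ℕ, Lt N U (Nat.land (Nat.shiftRight lam k8)
  mu) (w lam 8 + o)) (Hd9 : ∀ lam : ℕ, Lt N U (Nat.land (Nat.shiftRight lam k9) mu) (w lam 9 + o))
  (Hd10 : ∀ lam : ℕ, Lt N U (Nat.land (Nat.shiftRight lam k10) mu) (w lam 10 + o)) (Hd11 : ∀ lam : ℕ,
  Lt N U (Nat.land (Nat.shiftRight lam k11) mu) (w lam 11 + o)) (Hd12 : ∀ lam : ℕ, Lt N U (Nat.land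
  (Nat.shiftRight lam k12) mu) (w lam 12 + o)) (Hd13 : ∀ lam : ℕ, Lt N U (Nat.land (Nat.shiftRight lam
  k13) mu) (w lam 13 + o)) (Hd14 : ∀ lam : ℕ, Lt N U (Nat.land (Nat.shiftRight lam k14) mu) (w lam 14 +
  o)) (Hd15 : ∀ lam : ℕ, Lt N U (Nat.land (Nat.shiftRight lam k15) mu) (w lam 15 + o)) (Hd16 : ∀ lam :
  ℕ, Lt N U (Nat.land (Nat.shiftRight lam k16) mu) (w lam 16 + o)) (Hd17 : ∀ lam : ℕ, Lt N U (Nat.land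
  (Nat.shiftRight lam k17) mu) (w lam 17 + o)) (Hd18 : ∀ lam : ℕ, Lt N U (Nat.land (Nat.shiftRight lam
  k18) mu) (w lam 18 + o)) (Hd19 : ∀ lam : ℕ, Lt N U (Nat.land (Nat.shiftRight lam k19) mu) (w lam 19 +
  o)) (Hd20 : ∀ lam : ℕ, Lt N U (Nat.land (Nat.shiftRight lam k20) mu) (w lam 20 + o)) (Hd21 : ∀ lam :
  ℕ, Lt N U (Nat.land (Nat.shiftRight lam k21) mu) (w lam 21 + o)) (Hd22 : ∀ lam : ℕ, Lt N U (Nat.land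
  (Nat.shiftRight lam k22) mu) (w lam 22 + o)) (Hd23 : ∀ lam : ℕ, Lt N U (Nat.land (Nat.shiftRight lam
  k23) mu) (w lam 23 + o)) (Hd24 : ∀ lam : ℕ, Lt N U (Nat.land (Nat.shiftRight lam k24) mu) (w lam 24 +
  o)) (Hd25 : ∀ lam : ℕ, Lt N U (Nat.land (Nat.shiftRight lam k25) mu) (w lam 25 + o)) (Hd26 : ∀ lam :
  ℕ, Lt N U (Nat.land (Nat.shiftRight lam k26) mu) (w lam 26 + o)) (Hd27 : ∀ lam : ℕ, Lt N U (Nat.land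
  (Nat.shiftRight lam k27) mu) (w lam 27 + o)) (Hd28 : ∀ lam : ℕ, Lt N U (Nat.land (Nat.shiftRight lam
  k28) mu) (w lam 28 + o)) (Hd29 : ∀ lam : ℕ, Lt N U (Nat.land (Nat.shiftRight lam k29) mu) (w lam 29 +
  o)) (Hd30 : ∀ lam : ℕ, Lt N U (Nat.land (Nat.shiftRight lam k30) mu) (w lam 30 + o)) (Hd31 : ∀ lam :
  ℕ, Lt N U (Nat.land (Nat.shiftRight lam k31) mu) (w lam 31 + o)) (Hd32 : ∀ lam : ℕ, Lt N U (Nat.land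
  (Nat.shiftRight lam k32) mu) (w lam 32 + o)) (Hd33 : ∀ lam : ℕ, Lt N U (Nat.land (Nat.shiftRight lam
  k33) mu) (w lam 33 + o)) (Hd34 : ∀ lam : ℕ, Lt N U (Nat.land (Nat.shiftRight lam k34) mu) (w lam 34 +
  o)) (Hd35 : ∀ lam : ℕ, Lt N U (Nat.land (Nat.shiftRight lam k35) mu) (w lam 35 + o)) (Hd36 : ∀ lam :
  ℕ, Lt N U (Nat.land (Nat.shiftRight lam k36) mu) (w lam 36 + o)) (Hd37 : ∀ lam : ℕ, Lt N U (Nat.land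
  (Nat.shiftRight lam k37) mu) (w lam 37 + o)) (Hd38 : ∀ lam : ℕ, Lt N U (Nat.land (Nat.shiftRight lam
  k38) mu) (w lam 38 + o)) (Hd39 : ∀ lam : ℕ, Lt N U (Nat.land (Nat.shiftRight lam k39) mu) (w lam 39 +
  o)) (Hd40 : ∀ lam : ℕ, Lt N U (Nat.land (Nat.shiftRight lam k40) mu) (w lam 40 + o)) (Hd41 : ∀ lam :
  ℕ, Lt N U (Nat.land (Nat.shiftRight lam k41) mu) (w lam 41 + o)) (Hd42 : ∀ lam : ℕ, Lt N U (Nat.land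
  (Nat.shiftRight lam k42) mu) (w lam 42 + o)) (Hd43 : ∀ lam : ℕ, Lt N U (Nat.land (Nat.shiftRight lam
  k43) mu) (w lam 43 + o)) (Hd44 : ∀ lam : ℕ, Lt N U (Nat.land (Nat.shiftRight lam k44) mu) (w lam 44 +
  o)) (Hd45 : ∀ lam : ℕ, Lt N U (Nat.land (Nat.shiftRight lam k45) mu) (w lam 45 + o)) (Hd46 : ∀ lam :
  ℕ, Lt N U (Nat.land (Nat.shiftRight lam k46) mu) (w lam 46 + o)) (Hd47 : ∀ lam : ℕ, Lt N U (Nat.land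
  (Nat.shiftRight lam k47) mu) (w lam 47 + o)) (Hd48 : ∀ lam : ℕ, Lt N U (Nat.land (Nat.shiftRight lam
  k48) mu) (w lam 48 + o)) (Hd49 : ∀ lam : ℕ, Lt N U (Nat.land (Nat.shiftRight lam k49) mu) (w lam 49 +
  o)) (Hx01 : Cv N x01 f01) (Hx02 : Cv N x02 f02) (Hx03 : Cv N x03 f03) (Hx04 : Cv N x04 f04) (Hg00 :
  Rp N g00 z00) (Hg01 : Rp N g01 z01) (Hg02 : Rp N g02 z02) (Hg03 : Rp N g03 z03) (Hg11 : Rp N g11 z11)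
  (Hg12 : Rp N g12 z12) (Hg13 : Rp N g13 z13) (Hg22 : Rp N g22 z22) (Hg23 : Rp N g23 z23) (Hg33 : Rp N
  g33 z33) (Hp01_01 : Rp N p01_01 (z00 * z11 - z01 * z01)) (Hp01_02 : Rp N p01_02 (z00 * z12 - z02 *
  z01)) (Hp01_03 : Rp N p01_03 (z00 * z13 - z03 * z01)) (Hp01_12 : Rp N p01_12 (z01 * z12 - z02 * z11))
  (Hp01_13 : Rp N p01_13 (z01 * z13 - z03 * z11)) (Hp01_23 : Rp N p01_23 (z02 * z13 - z03 * z12))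
  (Hp02_02 : Rp N p02_02 (z00 * z22 - z02 * z02)) (Hp02_03 : Rp N p02_03 (z00 * z23 - z03 * z02))
  (Hp02_12 : Rp N p02_12 (z01 * z22 - z02 * z12)) (Hp02_13 : Rp N p02_13 (z01 * z23 - z03 * z12))
  (Hp02_23 : Rp N p02_23 (z02 * z23 - z03 * z22)) (Hp03_03 : Rp N p03_03 (z00 * z33 - z03 * z03))
  (Hp03_12 : Rp N p03_12 (z01 * z23 - z02 * z13)) (Hp03_13 : Rp N p03_13 (z01 * z33 - z03 * z13))
  (Hp03_23 : Rp N p03_23 (z02 * z33 - z03 * z23)) (Hp12_12 : Rp N p12_12 (z11 * z22 - z12 * z12))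
  (Hp12_13 : Rp N p12_13 (z11 * z23 - z13 * z12)) (Hp12_23 : Rp N p12_23 (z12 * z23 - z13 * z22))
  (Hp13_13 : Rp N p13_13 (z11 * z33 - z13 * z13)) (Hp13_23 : Rp N p13_23 (z12 * z33 - z13 * z23))
  (Hp23_23 : Rp N p23_23 (z22 * z33 - z23 * z23)) (Hm0_0 : Rp N m0_0 (z00 * (z11 * z22 - z12 * z12) +
  z02 * (z01 * z12 - z02 * z11) - z01 * (z01 * z22 - z02 * z12))) (Hm0_1 : Rp N m0_1 (z00 * (z11 * z23
  - z13 * z12) + z03 * (z01 * z12 - z02 * z11) - z01 * (z01 * z23 - z02 * z13))) (Hm0_3 : Rp N m0_3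
  (z00 * (z12 * z23 - z13 * z22) + z03 * (z01 * z22 - z02 * z12) - z02 * (z01 * z23 - z02 * z13)))
  (Hm0_6 : Rp N m0_6 (z01 * (z12 * z23 - z13 * z22) + z03 * (z11 * z22 - z12 * z12) - z02 * (z11 * z23
  - z13 * z12))) (Hm1_1 : Rp N m1_1 (z00 * (z11 * z33 - z13 * z13) + z03 * (z01 * z13 - z03 * z11) -
  z01 * (z01 * z33 - z03 * z13))) (Hm1_3 : Rp N m1_3 (z00 * (z12 * z33 - z13 * z23) + z03 * (z01 * z23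
  - z03 * z12) - z02 * (z01 * z33 - z03 * z13))) (Hm1_6 : Rp N m1_6 (z01 * (z12 * z33 - z13 * z23) +
  z03 * (z11 * z23 - z13 * z12) - z02 * (z11 * z33 - z13 * z13))) (Hm3_3 : Rp N m3_3 (z00 * (z22 * z33
  - z23 * z23) + z03 * (z02 * z23 - z03 * z22) - z02 * (z02 * z33 - z03 * z23))) (Hm3_6 : Rp N m3_6
  (z01 * (z22 * z33 - z23 * z23) + z03 * (z12 * z23 - z13 * z22) - z02 * (z12 * z33 - z13 * z23)))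
  (Hm6_6 : Rp N m6_6 (z11 * (z22 * z33 - z23 * z23) + z13 * (z12 * z23 - z13 * z22) - z12 * (z12 * z33
  - z13 * z23))) (HcK : Cv N cK (o * (0 - ((((z00 * (z11 * z22 - z12 * z12) + z02 * (z01 * z12 - z02 *
  z11) - z01 * (z01 * z22 - z02 * z12)) + (z00 * (z11 * z23 - z13 * z12) + z03 * (z01 * z12 - z02 *
  z11) - z01 * (z01 * z23 - z02 * z13))) + ((z00 * (z12 * z23 - z13 * z22) + z03 * (z01 * z22 - z02 *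
  z12) - z02 * (z01 * z23 - z02 * z13)) + ((z01 * (z12 * z23 - z13 * z22) + z03 * (z11 * z22 - z12 *
  z12) - z02 * (z11 * z23 - z13 * z12)) + (z00 * (z11 * z33 - z13 * z13) + z03 * (z01 * z13 - z03 *
  z11) - z01 * (z01 * z33 - z03 * z13))))) + (((z00 * (z12 * z33 - z13 * z23) + z03 * (z01 * z23 - z03
  * z12) - z02 * (z01 * z33 - z03 * z13)) + (z01 * (z12 * z33 - z13 * z23) + z03 * (z11 * z23 - z13 *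
  z12) - z02 * (z11 * z33 - z13 * z13))) + ((z00 * (z22 * z33 - z23 * z23) + z03 * (z02 * z23 - z03 *
  z22) - z02 * (z02 * z33 - z03 * z23)) + ((z01 * (z22 * z33 - z23 * z23) + z03 * (z12 * z23 - z13 *
  z22) - z02 * (z12 * z33 - z13 * z23)) + (z11 * (z22 * z33 - z23 * z23) + z13 * (z12 * z23 - z13 *
  z22) - z12 * (z12 * z33 - z13 * z23))))))))) (HcU0 : Cv N cU0 (o * (0 - (((((z01 * z12 - z02 * z11) +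
  (z01 * z22 - z02 * z12)) + ((z01 * z23 - z02 * z13) + (z11 * z22 - z12 * z12))) + (((z11 * z23 - z13
  * z12) + (z12 * z23 - z13 * z22)) + ((z01 * z13 - z03 * z11) + (z01 * z23 - z03 * z12)))) + ((((z01 *
  z33 - z03 * z13) + (z11 * z23 - z13 * z12)) + ((z11 * z33 - z13 * z13) + (z12 * z33 - z13 * z23))) +
  (((z02 * z23 - z03 * z22) + (z02 * z33 - z03 * z23)) + ((z12 * z23 - z13 * z22) + ((z12 * z33 - z13 *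
  z23) + (z22 * z33 - z23 * z23))))))))) (HcU1 : Cv N cU1 (o * (((((z00 * z12 - z02 * z01) + ((z00 *
  z22 - z02 * z02) + (z00 * z23 - z03 * z02))) + ((z01 * z22 - z02 * z12) + ((z01 * z23 - z03 * z12) +
  (z02 * z23 - z03 * z22)))) + (((z00 * z13 - z03 * z01) + ((z00 * z23 - z03 * z02) + (z00 * z33 - z03
  * z03))) + ((z01 * z23 - z02 * z13) + ((z01 * z33 - z03 * z13) + (z02 * z33 - z03 * z23))))) - ((z12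
  * z23 - z13 * z22) + ((z12 * z33 - z13 * z23) + (z22 * z33 - z23 * z23)))))) (HcU2 : Cv N cU2 (o *
  (((((z00 * z23 - z03 * z02) + (z00 * z33 - z03 * z03)) + ((z01 * z23 - z02 * z13) + (z01 * z33 - z03
  * z13))) + (((z02 * z33 - z03 * z23) + (z11 * z23 - z13 * z12)) + ((z11 * z33 - z13 * z13) + (z12 *
  z33 - z13 * z23)))) - (((z00 * z11 - z01 * z01) + ((z00 * z12 - z02 * z01) + (z00 * z13 - z03 *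
  z01))) + ((z01 * z12 - z02 * z11) + ((z01 * z13 - z03 * z11) + (z02 * z13 - z03 * z12))))))) (HcU3 :
  Cv N cU3 (o * (0 - ((((z00 * z11 - z01 * z01) + ((z00 * z12 - z02 * z01) + (z00 * z13 - z03 * z01)))
  + (((z01 * z12 - z02 * z11) + (z01 * z13 - z03 * z11)) + ((z02 * z13 - z03 * z12) + (z00 * z22 - z02
  * z02)))) + (((z00 * z23 - z03 * z02) + ((z01 * z22 - z02 * z12) + (z01 * z23 - z03 * z12))) + (((z02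
  * z23 - z03 * z22) + (z11 * z22 - z12 * z12)) + ((z11 * z23 - z13 * z12) + (z12 * z23 - z13 *
  z22)))))))) (HcV : Cv N cV (o * (0 - (((((z00 * z11 - z01 * z01) + (z00 * z12 - z02 * z01)) + ((z00 *
  z13 - z03 * z01) + ((z01 * z12 - z02 * z11) + (z01 * z13 - z03 * z11)))) + (((z02 * z13 - z03 * z12)
  + (z00 * z22 - z02 * z02)) + ((z00 * z23 - z03 * z02) + ((z01 * z22 - z02 * z12) + (z01 * z23 - z03 *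
  z12))))) + ((((z02 * z23 - z03 * z22) + (z00 * z33 - z03 * z03)) + ((z01 * z33 - z03 * z13) + ((z02 *
  z33 - z03 * z23) + (z11 * z22 - z12 * z12)))) + (((z11 * z23 - z13 * z12) + (z12 * z23 - z13 * z22))
  + ((z11 * z33 - z13 * z13) + ((z12 * z33 - z13 * z23) + (z22 * z33 - z23 * z23))))))))) (HcS00 : Cv N
  cS00 (o * (((z11 + (z12 + z13)) + (z22 + (z23 + z33)))))) (HcS01 : Cv N cS01 (o * (((z12 + z13) +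
  (z22 + (z23 + z33))) - ((z01 + z01) + (z02 + z03))))) (HcS02 : Cv N cS02 (o * ((z13 + (z23 + z33)) -
  ((z01 + (z11 + z02)) + (z02 + (z03 + z12)))))) (HcS03 : Cv N cS03 (o * (0 - (((z01 + z11) + (z12 +
  (z02 + z12))) + ((z22 + z03) + (z03 + (z13 + z23))))))) (HcS11 : Cv N cS11 (o * (((z00 + z22) + (z23
  + z33)) - (z02 + z03)))) (HcS12 : Cv N cS12 (o * (((z00 + z01) + (z23 + z33)) - ((z03 + (z02 + z03))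
  + (z12 + (z12 + z13)))))) (HcS13 : Cv N cS13 (o * ((z00 + (z01 + z02)) - ((z03 + (z12 + z22)) + (z13
  + (z13 + z23)))))) (HcS22 : Cv N cS22 (o * (((z00 + z01) + (z11 + z33)) - (z03 + z13)))) (HcS23 : Cv
  N cS23 (o * (((z00 + z01) + (z02 + (z11 + z12))) - ((z03 + z13) + (z23 + z23))))) (HcS33 : Cv N cS33
  (o * (((z00 + (z01 + z02)) + (z11 + (z12 + z22)))))) : ∀ (lam x05 x15 x25 x35 x45 : ℕ) (f05 f15 f25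
  f35 f45 : ZMod N), Cv N x05 f05 → Rp N x15 f15 → Rp N x25 f25 → Rp N x35 f35 → Rp N x45 f45 → Cv N
  (aL N M KN mu k1 k2 k3 k4 k5 k6 k7 k8 k9 k10 k11 k12 k13 k14 k15 k16 k17 k18 k19 k20 k21 k22 k23 k24
  k25 k26 k27 k28 k29 k30 k31 k32 k33 k34 k35 k36 k37 k38 k39 k40 k41 k42 k43 k44 k45 k46 k47 k48 k49
  x01 x02 x03 x04 g00 g01 g02 g03 g11 g12 g13 g22 g23 g33 p01_01 p01_02 p01_03 p01_12 p01_13 p01_23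
  p02_02 p02_03 p02_12 p02_13 p02_23 p03_03 p03_12 p03_13 p03_23 p12_12 p12_13 p12_23 p13_13 p13_23
  p23_23 m0_0 m0_1 m0_3 m0_6 m1_1 m1_3 m1_6 m3_3 m3_6 m6_6 cK cU0 cU1 cU2 cU3 cV cS00 cS01 cS02 cS03
  cS11 cS12 cS13 cS22 cS23 cS33 lam x05 x15 x25 x35 x45) (dsum (w lam) z00 z01 z02 z03 (f01 + f05 -
  f15) z11 z12 z13 (f02 + f05 - f25) z22 z23 (f03 + f05 - f35) z33 (f04 + f05 - f45) (2 * f05)) := by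
  intro lam x05 x15 x25 x35 x45 f05 f15 f25 f35 f45 H05 H15 H25 H35 H45
  exact aD_cv E hK0 hK Hg00 Hg01 Hg02 Hg03 Hg11 Hg12 Hg13 Hg22 Hg23 Hg33 Hp01_01 Hp01_02 Hp01_03
    Hp01_12 Hp01_13 Hp01_23 Hp02_02 Hp02_03 Hp02_12 Hp02_13 Hp02_23 Hp03_03 Hp03_12 Hp03_13 Hp03_23
    Hp12_12 Hp12_13 Hp12_23 Hp13_13 Hp13_23 Hp23_23 Hm0_0 Hm0_1 Hm0_3 Hm0_6 Hm1_1 Hm1_3 Hm1_6 Hm3_3
    Hm3_6 Hm6_6 HcK HcU0 HcU1 HcU2 HcU3 HcV HcS00 HcS01 HcS02 HcS03 HcS11 HcS12 HcS13 HcS22 HcS23 HcS33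
    (Cv.mul (by unfold Cv; norm_num) H05) (Rp.gm E Hx01 H05 H15).1 (Rp.gm E Hx02 H05 H25).1 (Rp.gm E
    Hx03 H05 H35).1 (Rp.gm E Hx04 H05 H45).1 (Hd0 lam) (Hd1 lam) (Hd2 lam) (Hd3 lam) (Hd4 lam) (Hd5
    lam) (Hd6 lam) (Hd7 lam) (Hd8 lam) (Hd9 lam) (Hd10 lam) (Hd11 lam) (Hd12 lam) (Hd13 lam) (Hd14 lam)
    (Hd15 lam) (Hd16 lam) (Hd17 lam) (Hd18 lam) (Hd19 lam) (Hd20 lam) (Hd21 lam) (Hd22 lam) (Hd23 lam)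
    (Hd24 lam) (Hd25 lam) (Hd26 lam) (Hd27 lam) (Hd28 lam) (Hd29 lam) (Hd30 lam) (Hd31 lam) (Hd32 lam)
    (Hd33 lam) (Hd34 lam) (Hd35 lam) (Hd36 lam) (Hd37 lam) (Hd38 lam) (Hd39 lam) (Hd40 lam) (Hd41 lam)
    (Hd42 lam) (Hd43 lam) (Hd44 lam) (Hd45 lam) (Hd46 lam) (Hd47 lam) (Hd48 lam) (Hd49 lam)

theorem aK4_cv {N M N2 U KN mu off : ℕ} (E : Ev N M N2) (hK0 : (KN : ZMod N) = 0) (hK : 16 * (U * N) ≤
  KN) (hK1 : 32 * N ≤ KN) {w : ℕ → ℕ → ZMod N} {o : ZMod N} (Ho : Cv N off o) {k1 k2 k3 k4 k5 k6 k7 k8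
  k9 k10 k11 k12 k13 k14 k15 k16 k17 k18 k19 k20 k21 k22 k23 k24 k25 k26 k27 k28 k29 k30 k31 k32 k33
  k34 k35 k36 k37 k38 k39 k40 k41 k42 k43 k44 k45 k46 k47 k48 k49 : ℕ} {x01 x02 x03 x04 g00 g01 g02 g03
  g11 g12 g13 g22 g23 g33 p01_01 p01_02 p01_03 p01_12 p01_13 p01_23 p02_02 p02_03 p02_12 p02_13 p02_23
  p03_03 p03_12 p03_13 p03_23 p12_12 p12_13 p12_23 p13_13 p13_23 p23_23 m0_0 m0_1 m0_3 m0_6 m1_1 m1_3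
  m1_6 m3_3 m3_6 m6_6 : ℕ} {f01 f02 f03 f04 z00 z01 z02 z03 z11 z12 z13 z22 z23 z33 : ZMod N} (Hd0 : ∀
  lam : ℕ, Lt N U (Nat.land lam mu) (w lam 0 + o)) (Hd1 : ∀ lam : ℕ, Lt N U (Nat.land (Nat.shiftRight
  lam k1) mu) (w lam 1 + o)) (Hd2 : ∀ lam : ℕ, Lt N U (Nat.land (Nat.shiftRight lam k2) mu) (w lam 2 +
  o)) (Hd3 : ∀ lam : ℕ, Lt N U (Nat.land (Nat.shiftRight lam k3) mu) (w lam 3 + o)) (Hd4 : ∀ lam : ℕ,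
  Lt N U (Nat.land (Nat.shiftRight lam k4) mu) (w lam 4 + o)) (Hd5 : ∀ lam : ℕ, Lt N U (Nat.land
  (Nat.shiftRight lam k5) mu) (w lam 5 + o)) (Hd6 : ∀ lam : ℕ, Lt N U (Nat.land (Nat.shiftRight lam k6)
  mu) (w lam 6 + o)) (Hd7 : ∀ lam : ℕ, Lt N U (Nat.land (Nat.shiftRight lam k7) mu) (w lam 7 + o)) (Hd8
  : ∀ lam : ℕ, Lt N U (Nat.land (Nat.shiftRight lam k8) mu) (w lam 8 + o)) (Hd9 : ∀ lam : ℕ, Lt N U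
  (Nat.land (Nat.shiftRight lam k9) mu) (w lam 9 + o)) (Hd10 : ∀ lam : ℕ, Lt N U (Nat.land
  (Nat.shiftRight lam k10) mu) (w lam 10 + o)) (Hd11 : ∀ lam : ℕ, Lt N U (Nat.land (Nat.shiftRight lam
  k11) mu) (w lam 11 + o)) (Hd12 : ∀ lam : ℕ, Lt N U (Nat.land (Nat.shiftRight lam k12) mu) (w lam 12 +
  o)) (Hd13 : ∀ lam : ℕ, Lt N U (Nat.land (Nat.shiftRight lam k13) mu) (w lam 13 + o)) (Hd14 : ∀ lam :
  ℕ, Lt N U (Nat.land (Nat.shiftRight lam k14) mu) (w lam 14 + o)) (Hd15 : ∀ lam : ℕ, Lt N U (Nat.land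
  (Nat.shiftRight lam k15) mu) (w lam 15 + o)) (Hd16 : ∀ lam : ℕ, Lt N U (Nat.land (Nat.shiftRight lam
  k16) mu) (w lam 16 + o)) (Hd17 : ∀ lam : ℕ, Lt N U (Nat.land (Nat.shiftRight lam k17) mu) (w lam 17 +
  o)) (Hd18 : ∀ lam : ℕ, Lt N U (Nat.land (Nat.shiftRight lam k18) mu) (w lam 18 + o)) (Hd19 : ∀ lam :
  ℕ, Lt N U (Nat.land (Nat.shiftRight lam k19) mu) (w lam 19 + o)) (Hd20 : ∀ lam : ℕ, Lt N U (Nat.land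
  (Nat.shiftRight lam k20) mu) (w lam 20 + o)) (Hd21 : ∀ lam : ℕ, Lt N U (Nat.land (Nat.shiftRight lam
  k21) mu) (w lam 21 + o)) (Hd22 : ∀ lam : ℕ, Lt N U (Nat.land (Nat.shiftRight lam k22) mu) (w lam 22 +
  o)) (Hd23 : ∀ lam : ℕ, Lt N U (Nat.land (Nat.shiftRight lam k23) mu) (w lam 23 + o)) (Hd24 : ∀ lam :
  ℕ, Lt N U (Nat.land (Nat.shiftRight lam k24) mu) (w lam 24 + o)) (Hd25 : ∀ lam : ℕ, Lt N U (Nat.land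
  (Nat.shiftRight lam k25) mu) (w lam 25 + o)) (Hd26 : ∀ lam : ℕ, Lt N U (Nat.land (Nat.shiftRight lam
  k26) mu) (w lam 26 + o)) (Hd27 : ∀ lam : ℕ, Lt N U (Nat.land (Nat.shiftRight lam k27) mu) (w lam 27 +
  o)) (Hd28 : ∀ lam : ℕ, Lt N U (Nat.land (Nat.shiftRight lam k28) mu) (w lam 28 + o)) (Hd29 : ∀ lam :
  ℕ, Lt N U (Nat.land (Nat.shiftRight lam k29) mu) (w lam 29 + o)) (Hd30 : ∀ lam : ℕ, Lt N U (Nat.land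
  (Nat.shiftRight lam k30) mu) (w lam 30 + o)) (Hd31 : ∀ lam : ℕ, Lt N U (Nat.land (Nat.shiftRight lam
  k31) mu) (w lam 31 + o)) (Hd32 : ∀ lam : ℕ, Lt N U (Nat.land (Nat.shiftRight lam k32) mu) (w lam 32 +
  o)) (Hd33 : ∀ lam : ℕ, Lt N U (Nat.land (Nat.shiftRight lam k33) mu) (w lam 33 + o)) (Hd34 : ∀ lam :
  ℕ, Lt N U (Nat.land (Nat.shiftRight lam k34) mu) (w lam 34 + o)) (Hd35 : ∀ lam : ℕ, Lt N U (Nat.land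
  (Nat.shiftRight lam k35) mu) (w lam 35 + o)) (Hd36 : ∀ lam : ℕ, Lt N U (Nat.land (Nat.shiftRight lam
  k36) mu) (w lam 36 + o)) (Hd37 : ∀ lam : ℕ, Lt N U (Nat.land (Nat.shiftRight lam k37) mu) (w lam 37 +
  o)) (Hd38 : ∀ lam : ℕ, Lt N U (Nat.land (Nat.shiftRight lam k38) mu) (w lam 38 + o)) (Hd39 : ∀ lam :
  ℕ, Lt N U (Nat.land (Nat.shiftRight lam k39) mu) (w lam 39 + o)) (Hd40 : ∀ lam : ℕ, Lt N U (Nat.land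
  (Nat.shiftRight lam k40) mu) (w lam 40 + o)) (Hd41 : ∀ lam : ℕ, Lt N U (Nat.land (Nat.shiftRight lam
  k41) mu) (w lam 41 + o)) (Hd42 : ∀ lam : ℕ, Lt N U (Nat.land (Nat.shiftRight lam k42) mu) (w lam 42 +
  o)) (Hd43 : ∀ lam : ℕ, Lt N U (Nat.land (Nat.shiftRight lam k43) mu) (w lam 43 + o)) (Hd44 : ∀ lam :
  ℕ, Lt N U (Nat.land (Nat.shiftRight lam k44) mu) (w lam 44 + o)) (Hd45 : ∀ lam : ℕ, Lt N U (Nat.land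
  (Nat.shiftRight lam k45) mu) (w lam 45 + o)) (Hd46 : ∀ lam : ℕ, Lt N U (Nat.land (Nat.shiftRight lam
  k46) mu) (w lam 46 + o)) (Hd47 : ∀ lam : ℕ, Lt N U (Nat.land (Nat.shiftRight lam k47) mu) (w lam 47 +
  o)) (Hd48 : ∀ lam : ℕ, Lt N U (Nat.land (Nat.shiftRight lam k48) mu) (w lam 48 + o)) (Hd49 : ∀ lam :
  ℕ, Lt N U (Nat.land (Nat.shiftRight lam k49) mu) (w lam 49 + o)) (Hx01 : Cv N x01 f01) (Hx02 : Cv N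
  x02 f02) (Hx03 : Cv N x03 f03) (Hx04 : Cv N x04 f04) (Hg00 : Rp N g00 z00) (Hg01 : Rp N g01 z01)
  (Hg02 : Rp N g02 z02) (Hg03 : Rp N g03 z03) (Hg11 : Rp N g11 z11) (Hg12 : Rp N g12 z12) (Hg13 : Rp N
  g13 z13) (Hg22 : Rp N g22 z22) (Hg23 : Rp N g23 z23) (Hg33 : Rp N g33 z33) (Hp01_01 : Rp N p01_01
  (z00 * z11 - z01 * z01)) (Hp01_02 : Rp N p01_02 (z00 * z12 - z02 * z01)) (Hp01_03 : Rp N p01_03 (z00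
  * z13 - z03 * z01)) (Hp01_12 : Rp N p01_12 (z01 * z12 - z02 * z11)) (Hp01_13 : Rp N p01_13 (z01 * z13
  - z03 * z11)) (Hp01_23 : Rp N p01_23 (z02 * z13 - z03 * z12)) (Hp02_02 : Rp N p02_02 (z00 * z22 - z02
  * z02)) (Hp02_03 : Rp N p02_03 (z00 * z23 - z03 * z02)) (Hp02_12 : Rp N p02_12 (z01 * z22 - z02 *
  z12)) (Hp02_13 : Rp N p02_13 (z01 * z23 - z03 * z12)) (Hp02_23 : Rp N p02_23 (z02 * z23 - z03 * z22))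
  (Hp03_03 : Rp N p03_03 (z00 * z33 - z03 * z03)) (Hp03_12 : Rp N p03_12 (z01 * z23 - z02 * z13))
  (Hp03_13 : Rp N p03_13 (z01 * z33 - z03 * z13)) (Hp03_23 : Rp N p03_23 (z02 * z33 - z03 * z23))
  (Hp12_12 : Rp N p12_12 (z11 * z22 - z12 * z12)) (Hp12_13 : Rp N p12_13 (z11 * z23 - z13 * z12))
  (Hp12_23 : Rp N p12_23 (z12 * z23 - z13 * z22)) (Hp13_13 : Rp N p13_13 (z11 * z33 - z13 * z13))
  (Hp13_23 : Rp N p13_23 (z12 * z33 - z13 * z23)) (Hp23_23 : Rp N p23_23 (z22 * z33 - z23 * z23))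
  (Hm0_0 : Rp N m0_0 (z00 * (z11 * z22 - z12 * z12) + z02 * (z01 * z12 - z02 * z11) - z01 * (z01 * z22
  - z02 * z12))) (Hm0_1 : Rp N m0_1 (z00 * (z11 * z23 - z13 * z12) + z03 * (z01 * z12 - z02 * z11) -
  z01 * (z01 * z23 - z02 * z13))) (Hm0_3 : Rp N m0_3 (z00 * (z12 * z23 - z13 * z22) + z03 * (z01 * z22
  - z02 * z12) - z02 * (z01 * z23 - z02 * z13))) (Hm0_6 : Rp N m0_6 (z01 * (z12 * z23 - z13 * z22) +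
  z03 * (z11 * z22 - z12 * z12) - z02 * (z11 * z23 - z13 * z12))) (Hm1_1 : Rp N m1_1 (z00 * (z11 * z33
  - z13 * z13) + z03 * (z01 * z13 - z03 * z11) - z01 * (z01 * z33 - z03 * z13))) (Hm1_3 : Rp N m1_3
  (z00 * (z12 * z33 - z13 * z23) + z03 * (z01 * z23 - z03 * z12) - z02 * (z01 * z33 - z03 * z13)))
  (Hm1_6 : Rp N m1_6 (z01 * (z12 * z33 - z13 * z23) + z03 * (z11 * z23 - z13 * z12) - z02 * (z11 * z33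
  - z13 * z13))) (Hm3_3 : Rp N m3_3 (z00 * (z22 * z33 - z23 * z23) + z03 * (z02 * z23 - z03 * z22) -
  z02 * (z02 * z33 - z03 * z23))) (Hm3_6 : Rp N m3_6 (z01 * (z22 * z33 - z23 * z23) + z03 * (z12 * z23
  - z13 * z22) - z02 * (z12 * z33 - z13 * z23))) (Hm6_6 : Rp N m6_6 (z11 * (z22 * z33 - z23 * z23) +
  z13 * (z12 * z23 - z13 * z22) - z12 * (z12 * z33 - z13 * z23))) {k : (ℕ → ℕ → ℕ → ℕ → ℕ → ℕ → ℕ) →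
  Bool} (h : aK4 k N M KN mu off k1 k2 k3 k4 k5 k6 k7 k8 k9 k10 k11 k12 k13 k14 k15 k16 k17 k18 k19 k20
  k21 k22 k23 k24 k25 k26 k27 k28 k29 k30 k31 k32 k33 k34 k35 k36 k37 k38 k39 k40 k41 k42 k43 k44 k45
  k46 k47 k48 k49 x01 x02 x03 x04 g00 g01 g02 g03 g11 g12 g13 g22 g23 g33 p01_01 p01_02 p01_03 p01_12
  p01_13 p01_23 p02_02 p02_03 p02_12 p02_13 p02_23 p03_03 p03_12 p03_13 p03_23 p12_12 p12_13 p12_23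
  p13_13 p13_23 p23_23 m0_0 m0_1 m0_3 m0_6 m1_1 m1_3 m1_6 m3_3 m3_6 m6_6 = true) : ∃ K : (ℕ → ℕ → ℕ → ℕ
  → ℕ → ℕ → ℕ), k K = true ∧ ∀ (lam x05 x15 x25 x35 x45 : ℕ) (f05 f15 f25 f35 f45 : ZMod N), Cv N x05
  f05 → Rp N x15 f15 → Rp N x25 f25 → Rp N x35 f35 → Rp N x45 f45 → Cv N (K lam x05 x15 x25 x35 x45)
  (dsum (w lam) z00 z01 z02 z03 (f01 + f05 - f15) z11 z12 z13 (f02 + f05 - f25) z22 z23 (f03 + f05 -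
  f35) z33 (f04 + f05 - f45) (2 * f05)) := by
  exact ⟨_, h, aL_cv E hK0 hK Hd0 Hd1 Hd2 Hd3 Hd4 Hd5 Hd6 Hd7 Hd8 Hd9 Hd10 Hd11 Hd12 Hd13 Hd14 Hd15
    Hd16 Hd17 Hd18 Hd19 Hd20 Hd21 Hd22 Hd23 Hd24 Hd25 Hd26 Hd27 Hd28 Hd29 Hd30 Hd31 Hd32 Hd33 Hd34 Hd35
    Hd36 Hd37 Hd38 Hd39 Hd40 Hd41 Hd42 Hd43 Hd44 Hd45 Hd46 Hd47 Hd48 Hd49 Hx01 Hx02 Hx03 Hx04 Hg00 Hg01
    Hg02 Hg03 Hg11 Hg12 Hg13 Hg22 Hg23 Hg33 Hp01_01 Hp01_02 Hp01_03 Hp01_12 Hp01_13 Hp01_23 Hp02_02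
    Hp02_03 Hp02_12 Hp02_13 Hp02_23 Hp03_03 Hp03_12 Hp03_13 Hp03_23 Hp12_12 Hp12_13 Hp12_23 Hp13_13
    Hp13_23 Hp23_23 Hm0_0 Hm0_1 Hm0_3 Hm0_6 Hm1_1 Hm1_3 Hm1_6 Hm3_3 Hm3_6 Hm6_6 (cK_cv E hK0 hK1 Ho
    Hm0_0 Hm0_1 Hm0_3 Hm0_6 Hm1_1 Hm1_3 Hm1_6 Hm3_3 Hm3_6 Hm6_6) (cU0_cv E hK0 hK1 Ho Hp01_12 Hp02_12
    Hp03_12 Hp12_12 Hp12_13 Hp12_23 Hp01_13 Hp02_13 Hp03_13 Hp13_13 Hp13_23 Hp02_23 Hp03_23 Hp23_23)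
    (cU1_cv E hK0 hK1 Ho Hp01_02 Hp02_02 Hp02_03 Hp02_12 Hp02_13 Hp02_23 Hp01_03 Hp03_03 Hp03_12
    Hp03_13 Hp03_23 Hp12_23 Hp13_23 Hp23_23) (cU2_cv E hK0 hK1 Ho Hp01_01 Hp01_02 Hp01_03 Hp01_12
    Hp01_13 Hp01_23 Hp02_03 Hp03_03 Hp03_12 Hp03_13 Hp03_23 Hp12_13 Hp13_13 Hp13_23) (cU3_cv E hK0 hK1
    Ho Hp01_01 Hp01_02 Hp01_03 Hp01_12 Hp01_13 Hp01_23 Hp02_02 Hp02_03 Hp02_12 Hp02_13 Hp02_23 Hp12_12
    Hp12_13 Hp12_23) (cV_cv E hK0 hK1 Ho Hp01_01 Hp01_02 Hp01_03 Hp01_12 Hp01_13 Hp01_23 Hp02_02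
    Hp02_03 Hp02_12 Hp02_13 Hp02_23 Hp03_03 Hp03_13 Hp03_23 Hp12_12 Hp12_13 Hp12_23 Hp13_13 Hp13_23
    Hp23_23) (cS00_cv E hK0 hK1 Ho Hg11 Hg12 Hg13 Hg22 Hg23 Hg33) (cS01_cv E hK0 hK1 Ho Hg01 Hg02 Hg03
    Hg12 Hg13 Hg22 Hg23 Hg33) (cS02_cv E hK0 hK1 Ho Hg01 Hg11 Hg13 Hg02 Hg03 Hg12 Hg23 Hg33) (cS03_cv E
    hK0 hK1 Ho Hg01 Hg11 Hg12 Hg02 Hg22 Hg03 Hg13 Hg23) (cS11_cv E hK0 hK1 Ho Hg00 Hg02 Hg03 Hg22 Hg23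
    Hg33) (cS12_cv E hK0 hK1 Ho Hg00 Hg01 Hg03 Hg02 Hg12 Hg13 Hg23 Hg33) (cS13_cv E hK0 hK1 Ho Hg00
    Hg01 Hg02 Hg03 Hg12 Hg22 Hg13 Hg23) (cS22_cv E hK0 hK1 Ho Hg00 Hg01 Hg03 Hg11 Hg13 Hg33) (cS23_cv E
    hK0 hK1 Ho Hg00 Hg01 Hg02 Hg03 Hg11 Hg12 Hg13 Hg23) (cS33_cv E hK0 hK1 Ho Hg00 Hg01 Hg02 Hg11 Hg12
    Hg22)⟩

theorem aK3_cv {N M N2 U KN mu off : ℕ} (E : Ev N M N2) (hK0 : (KN : ZMod N) = 0) (hK : 16 * (U * N) ≤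
  KN) (hK1 : 32 * N ≤ KN) {w : ℕ → ℕ → ZMod N} {o : ZMod N} (Ho : Cv N off o) {k1 k2 k3 k4 k5 k6 k7 k8
  k9 k10 k11 k12 k13 k14 k15 k16 k17 k18 k19 k20 k21 k22 k23 k24 k25 k26 k27 k28 k29 k30 k31 k32 k33
  k34 k35 k36 k37 k38 k39 k40 k41 k42 k43 k44 k45 k46 k47 k48 k49 : ℕ} {x01 x02 x03 x04 g00 g01 g02 g03
  g11 g12 g13 g22 g23 g33 p01_01 p01_02 p01_03 p01_12 p01_13 p01_23 p02_02 p02_03 p02_12 p02_13 p02_23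
  p03_03 p03_12 p03_13 p03_23 p12_12 p12_13 p12_23 p13_13 p13_23 p23_23 : ℕ} {f01 f02 f03 f04 z00 z01
  z02 z03 z11 z12 z13 z22 z23 z33 : ZMod N} (Hd0 : ∀ lam : ℕ, Lt N U (Nat.land lam mu) (w lam 0 + o))
  (Hd1 : ∀ lam : ℕ, Lt N U (Nat.land (Nat.shiftRight lam k1) mu) (w lam 1 + o)) (Hd2 : ∀ lam : ℕ, Lt N
  U (Nat.land (Nat.shiftRight lam k2) mu) (w lam 2 + o)) (Hd3 : ∀ lam : ℕ, Lt N U (Nat.land
  (Nat.shiftRight lam k3) mu) (w lam 3 + o)) (Hd4 : ∀ lam : ℕ, Lt N U (Nat.land (Nat.shiftRight lam k4)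
  mu) (w lam 4 + o)) (Hd5 : ∀ lam : ℕ, Lt N U (Nat.land (Nat.shiftRight lam k5) mu) (w lam 5 + o)) (Hd6
  : ∀ lam : ℕ, Lt N U (Nat.land (Nat.shiftRight lam k6) mu) (w lam 6 + o)) (Hd7 : ∀ lam : ℕ, Lt N U
  (Nat.land (Nat.shiftRight lam k7) mu) (w lam 7 + o)) (Hd8 : ∀ lam : ℕ, Lt N U (Nat.land
  (Nat.shiftRight lam k8) mu) (w lam 8 + o)) (Hd9 : ∀ lam : ℕ, Lt N U (Nat.land (Nat.shiftRight lam k9)
  mu) (w lam 9 + o)) (Hd10 : ∀ lam : ℕ, Lt N U (Nat.land (Nat.shiftRight lam k10) mu) (w lam 10 + o))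
  (Hd11 : ∀ lam : ℕ, Lt N U (Nat.land (Nat.shiftRight lam k11) mu) (w lam 11 + o)) (Hd12 : ∀ lam : ℕ,
  Lt N U (Nat.land (Nat.shiftRight lam k12) mu) (w lam 12 + o)) (Hd13 : ∀ lam : ℕ, Lt N U (Nat.land
  (Nat.shiftRight lam k13) mu) (w lam 13 + o)) (Hd14 : ∀ lam : ℕ, Lt N U (Nat.land (Nat.shiftRight lam
  k14) mu) (w lam 14 + o)) (Hd15 : ∀ lam : ℕ, Lt N U (Nat.land (Nat.shiftRight lam k15) mu) (w lam 15 +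
  o)) (Hd16 : ∀ lam : ℕ, Lt N U (Nat.land (Nat.shiftRight lam k16) mu) (w lam 16 + o)) (Hd17 : ∀ lam :
  ℕ, Lt N U (Nat.land (Nat.shiftRight lam k17) mu) (w lam 17 + o)) (Hd18 : ∀ lam : ℕ, Lt N U (Nat.land
  (Nat.shiftRight lam k18) mu) (w lam 18 + o)) (Hd19 : ∀ lam : ℕ, Lt N U (Nat.land (Nat.shiftRight lam
  k19) mu) (w lam 19 + o)) (Hd20 : ∀ lam : ℕ, Lt N U (Nat.land (Nat.shiftRight lam k20) mu) (w lam 20 +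
  o)) (Hd21 : ∀ lam : ℕ, Lt N U (Nat.land (Nat.shiftRight lam k21) mu) (w lam 21 + o)) (Hd22 : ∀ lam :
  ℕ, Lt N U (Nat.land (Nat.shiftRight lam k22) mu) (w lam 22 + o)) (Hd23 : ∀ lam : ℕ, Lt N U (Nat.land
  (Nat.shiftRight lam k23) mu) (w lam 23 + o)) (Hd24 : ∀ lam : ℕ, Lt N U (Nat.land (Nat.shiftRight lam
  k24) mu) (w lam 24 + o)) (Hd25 : ∀ lam : ℕ, Lt N U (Nat.land (Nat.shiftRight lam k25) mu) (w lam 25 +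
  o)) (Hd26 : ∀ lam : ℕ, Lt N U (Nat.land (Nat.shiftRight lam k26) mu) (w lam 26 + o)) (Hd27 : ∀ lam :
  ℕ, Lt N U (Nat.land (Nat.shiftRight lam k27) mu) (w lam 27 + o)) (Hd28 : ∀ lam : ℕ, Lt N U (Nat.land
  (Nat.shiftRight lam k28) mu) (w lam 28 + o)) (Hd29 : ∀ lam : ℕ, Lt N U (Nat.land (Nat.shiftRight lam
  k29) mu) (w lam 29 + o)) (Hd30 : ∀ lam : ℕ, Lt N U (Nat.land (Nat.shiftRight lam k30) mu) (w lam 30 +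
  o)) (Hd31 : ∀ lam : ℕ, Lt N U (Nat.land (Nat.shiftRight lam k31) mu) (w lam 31 + o)) (Hd32 : ∀ lam :
  ℕ, Lt N U (Nat.land (Nat.shiftRight lam k32) mu) (w lam 32 + o)) (Hd33 : ∀ lam : ℕ, Lt N U (Nat.land
  (Nat.shiftRight lam k33) mu) (w lam 33 + o)) (Hd34 : ∀ lam : ℕ, Lt N U (Nat.land (Nat.shiftRight lam
  k34) mu) (w lam 34 + o)) (Hd35 : ∀ lam : ℕ, Lt N U (Nat.land (Nat.shiftRight lam k35) mu) (w lam 35 +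
  o)) (Hd36 : ∀ lam : ℕ, Lt N U (Nat.land (Nat.shiftRight lam k36) mu) (w lam 36 + o)) (Hd37 : ∀ lam :
  ℕ, Lt N U (Nat.land (Nat.shiftRight lam k37) mu) (w lam 37 + o)) (Hd38 : ∀ lam : ℕ, Lt N U (Nat.land
  (Nat.shiftRight lam k38) mu) (w lam 38 + o)) (Hd39 : ∀ lam : ℕ, Lt N U (Nat.land (Nat.shiftRight lam
  k39) mu) (w lam 39 + o)) (Hd40 : ∀ lam : ℕ, Lt N U (Nat.land (Nat.shiftRight lam k40) mu) (w lam 40 +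
  o)) (Hd41 : ∀ lam : ℕ, Lt N U (Nat.land (Nat.shiftRight lam k41) mu) (w lam 41 + o)) (Hd42 : ∀ lam :
  ℕ, Lt N U (Nat.land (Nat.shiftRight lam k42) mu) (w lam 42 + o)) (Hd43 : ∀ lam : ℕ, Lt N U (Nat.land
  (Nat.shiftRight lam k43) mu) (w lam 43 + o)) (Hd44 : ∀ lam : ℕ, Lt N U (Nat.land (Nat.shiftRight lam
  k44) mu) (w lam 44 + o)) (Hd45 : ∀ lam : ℕ, Lt N U (Nat.land (Nat.shiftRight lam k45) mu) (w lam 45 +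
  o)) (Hd46 : ∀ lam : ℕ, Lt N U (Nat.land (Nat.shiftRight lam k46) mu) (w lam 46 + o)) (Hd47 : ∀ lam :
  ℕ, Lt N U (Nat.land (Nat.shiftRight lam k47) mu) (w lam 47 + o)) (Hd48 : ∀ lam : ℕ, Lt N U (Nat.land
  (Nat.shiftRight lam k48) mu) (w lam 48 + o)) (Hd49 : ∀ lam : ℕ, Lt N U (Nat.land (Nat.shiftRight lam
  k49) mu) (w lam 49 + o)) (Hx01 : Cv N x01 f01) (Hx02 : Cv N x02 f02) (Hx03 : Cv N x03 f03) (Hx04 : Cv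
  N x04 f04) (Hg00 : Rp N g00 z00) (Hg01 : Rp N g01 z01) (Hg02 : Rp N g02 z02) (Hg03 : Rp N g03 z03)
  (Hg11 : Rp N g11 z11) (Hg12 : Rp N g12 z12) (Hg13 : Rp N g13 z13) (Hg22 : Rp N g22 z22) (Hg23 : Rp N
  g23 z23) (Hg33 : Rp N g33 z33) (Hp01_01 : Rp N p01_01 (z00 * z11 - z01 * z01)) (Hp01_02 : Rp N p01_02
  (z00 * z12 - z02 * z01)) (Hp01_03 : Rp N p01_03 (z00 * z13 - z03 * z01)) (Hp01_12 : Rp N p01_12 (z01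
  * z12 - z02 * z11)) (Hp01_13 : Rp N p01_13 (z01 * z13 - z03 * z11)) (Hp01_23 : Rp N p01_23 (z02 * z13
  - z03 * z12)) (Hp02_02 : Rp N p02_02 (z00 * z22 - z02 * z02)) (Hp02_03 : Rp N p02_03 (z00 * z23 - z03
  * z02)) (Hp02_12 : Rp N p02_12 (z01 * z22 - z02 * z12)) (Hp02_13 : Rp N p02_13 (z01 * z23 - z03 *
  z12)) (Hp02_23 : Rp N p02_23 (z02 * z23 - z03 * z22)) (Hp03_03 : Rp N p03_03 (z00 * z33 - z03 * z03))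
  (Hp03_12 : Rp N p03_12 (z01 * z23 - z02 * z13)) (Hp03_13 : Rp N p03_13 (z01 * z33 - z03 * z13))
  (Hp03_23 : Rp N p03_23 (z02 * z33 - z03 * z23)) (Hp12_12 : Rp N p12_12 (z11 * z22 - z12 * z12))
  (Hp12_13 : Rp N p12_13 (z11 * z23 - z13 * z12)) (Hp12_23 : Rp N p12_23 (z12 * z23 - z13 * z22))
  (Hp13_13 : Rp N p13_13 (z11 * z33 - z13 * z13)) (Hp13_23 : Rp N p13_23 (z12 * z33 - z13 * z23))
  (Hp23_23 : Rp N p23_23 (z22 * z33 - z23 * z23)) {k : (ℕ → ℕ → ℕ → ℕ → ℕ → ℕ → ℕ) → Bool} (h : aK3 k N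
  M N2 KN mu off k1 k2 k3 k4 k5 k6 k7 k8 k9 k10 k11 k12 k13 k14 k15 k16 k17 k18 k19 k20 k21 k22 k23 k24
  k25 k26 k27 k28 k29 k30 k31 k32 k33 k34 k35 k36 k37 k38 k39 k40 k41 k42 k43 k44 k45 k46 k47 k48 k49
  x01 x02 x03 x04 g00 g01 g02 g03 g11 g12 g13 g22 g23 g33 p01_01 p01_02 p01_03 p01_12 p01_13 p01_23
  p02_02 p02_03 p02_12 p02_13 p02_23 p03_03 p03_12 p03_13 p03_23 p12_12 p12_13 p12_23 p13_13 p13_23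
  p23_23 = true) : ∃ K : (ℕ → ℕ → ℕ → ℕ → ℕ → ℕ → ℕ), k K = true ∧ ∀ (lam x05 x15 x25 x35 x45 : ℕ) (f05
  f15 f25 f35 f45 : ZMod N), Cv N x05 f05 → Rp N x15 f15 → Rp N x25 f25 → Rp N x35 f35 → Rp N x45 f45 →
  Cv N (K lam x05 x15 x25 x35 x45) (dsum (w lam) z00 z01 z02 z03 (f01 + f05 - f15) z11 z12 z13 (f02 +
  f05 - f25) z22 z23 (f03 + f05 - f35) z33 (f04 + f05 - f45) (2 * f05)) := by
  exact aK4_cv E hK0 hK hK1 Ho Hd0 Hd1 Hd2 Hd3 Hd4 Hd5 Hd6 Hd7 Hd8 Hd9 Hd10 Hd11 Hd12 Hd13 Hd14 Hd15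
    Hd16 Hd17 Hd18 Hd19 Hd20 Hd21 Hd22 Hd23 Hd24 Hd25 Hd26 Hd27 Hd28 Hd29 Hd30 Hd31 Hd32 Hd33 Hd34 Hd35
    Hd36 Hd37 Hd38 Hd39 Hd40 Hd41 Hd42 Hd43 Hd44 Hd45 Hd46 Hd47 Hd48 Hd49 Hx01 Hx02 Hx03 Hx04 Hg00 Hg01
    Hg02 Hg03 Hg11 Hg12 Hg13 Hg22 Hg23 Hg33 Hp01_01 Hp01_02 Hp01_03 Hp01_12 Hp01_13 Hp01_23 Hp02_02
    Hp02_03 Hp02_12 Hp02_13 Hp02_23 Hp03_03 Hp03_12 Hp03_13 Hp03_23 Hp12_12 Hp12_13 Hp12_23 Hp13_13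
    Hp13_23 Hp23_23 (Rp.mm E Hg00 Hp12_12 Hg02 Hp01_12 Hg01 Hp02_12) (Rp.mm E Hg00 Hp12_13 Hg03 Hp01_12
    Hg01 Hp03_12) (Rp.mm E Hg00 Hp12_23 Hg03 Hp02_12 Hg02 Hp03_12) (Rp.mm E Hg01 Hp12_23 Hg03 Hp12_12
    Hg02 Hp12_13) (Rp.mm E Hg00 Hp13_13 Hg03 Hp01_13 Hg01 Hp03_13) (Rp.mm E Hg00 Hp13_23 Hg03 Hp02_13
    Hg02 Hp03_13) (Rp.mm E Hg01 Hp13_23 Hg03 Hp12_13 Hg02 Hp13_13) (Rp.mm E Hg00 Hp23_23 Hg03 Hp02_23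
    Hg02 Hp03_23) (Rp.mm E Hg01 Hp23_23 Hg03 Hp12_23 Hg02 Hp13_23) (Rp.mm E Hg11 Hp23_23 Hg13 Hp12_23
    Hg12 Hp13_23) h

theorem aK2_cv {N M N2 U KN mu off : ℕ} (E : Ev N M N2) (hK0 : (KN : ZMod N) = 0) (hK : 16 * (U * N) ≤
  KN) (hK1 : 32 * N ≤ KN) {w : ℕ → ℕ → ZMod N} {o : ZMod N} (Ho : Cv N off o) {k1 k2 k3 k4 k5 k6 k7 k8
  k9 k10 k11 k12 k13 k14 k15 k16 k17 k18 k19 k20 k21 k22 k23 k24 k25 k26 k27 k28 k29 k30 k31 k32 k33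
  k34 k35 k36 k37 k38 k39 k40 k41 k42 k43 k44 k45 k46 k47 k48 k49 : ℕ} {x01 x02 x03 x04 g00 g01 g02 g03
  g11 g12 g13 g22 g23 g33 : ℕ} {f01 f02 f03 f04 z00 z01 z02 z03 z11 z12 z13 z22 z23 z33 : ZMod N} (Hd0
  : ∀ lam : ℕ, Lt N U (Nat.land lam mu) (w lam 0 + o)) (Hd1 : ∀ lam : ℕ, Lt N U (Nat.land
  (Nat.shiftRight lam k1) mu) (w lam 1 + o)) (Hd2 : ∀ lam : ℕ, Lt N U (Nat.land (Nat.shiftRight lam k2)
  mu) (w lam 2 + o)) (Hd3 : ∀ lam : ℕ, Lt N U (Nat.land (Nat.shiftRight lam k3) mu) (w lam 3 + o)) (Hd4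
  : ∀ lam : ℕ, Lt N U (Nat.land (Nat.shiftRight lam k4) mu) (w lam 4 + o)) (Hd5 : ∀ lam : ℕ, Lt N U
  (Nat.land (Nat.shiftRight lam k5) mu) (w lam 5 + o)) (Hd6 : ∀ lam : ℕ, Lt N U (Nat.land
  (Nat.shiftRight lam k6) mu) (w lam 6 + o)) (Hd7 : ∀ lam : ℕ, Lt N U (Nat.land (Nat.shiftRight lam k7)
  mu) (w lam 7 + o)) (Hd8 : ∀ lam : ℕ, Lt N U (Nat.land (Nat.shiftRight lam k8) mu) (w lam 8 + o)) (Hd9
  : ∀ lam : ℕ, Lt N U (Nat.land (Nat.shiftRight lam k9) mu) (w lam 9 + o)) (Hd10 : ∀ lam : ℕ, Lt N U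
  (Nat.land (Nat.shiftRight lam k10) mu) (w lam 10 + o)) (Hd11 : ∀ lam : ℕ, Lt N U (Nat.land
  (Nat.shiftRight lam k11) mu) (w lam 11 + o)) (Hd12 : ∀ lam : ℕ, Lt N U (Nat.land (Nat.shiftRight lam
  k12) mu) (w lam 12 + o)) (Hd13 : ∀ lam : ℕ, Lt N U (Nat.land (Nat.shiftRight lam k13) mu) (w lam 13 +
  o)) (Hd14 : ∀ lam : ℕ, Lt N U (Nat.land (Nat.shiftRight lam k14) mu) (w lam 14 + o)) (Hd15 : ∀ lam :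
  ℕ, Lt N U (Nat.land (Nat.shiftRight lam k15) mu) (w lam 15 + o)) (Hd16 : ∀ lam : ℕ, Lt N U (Nat.land
  (Nat.shiftRight lam k16) mu) (w lam 16 + o)) (Hd17 : ∀ lam : ℕ, Lt N U (Nat.land (Nat.shiftRight lam
  k17) mu) (w lam 17 + o)) (Hd18 : ∀ lam : ℕ, Lt N U (Nat.land (Nat.shiftRight lam k18) mu) (w lam 18 +
  o)) (Hd19 : ∀ lam : ℕ, Lt N U (Nat.land (Nat.shiftRight lam k19) mu) (w lam 19 + o)) (Hd20 : ∀ lam :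
  ℕ, Lt N U (Nat.land (Nat.shiftRight lam k20) mu) (w lam 20 + o)) (Hd21 : ∀ lam : ℕ, Lt N U (Nat.land
  (Nat.shiftRight lam k21) mu) (w lam 21 + o)) (Hd22 : ∀ lam : ℕ, Lt N U (Nat.land (Nat.shiftRight lam
  k22) mu) (w lam 22 + o)) (Hd23 : ∀ lam : ℕ, Lt N U (Nat.land (Nat.shiftRight lam k23) mu) (w lam 23 +
  o)) (Hd24 : ∀ lam : ℕ, Lt N U (Nat.land (Nat.shiftRight lam k24) mu) (w lam 24 + o)) (Hd25 : ∀ lam :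
  ℕ, Lt N U (Nat.land (Nat.shiftRight lam k25) mu) (w lam 25 + o)) (Hd26 : ∀ lam : ℕ, Lt N U (Nat.land
  (Nat.shiftRight lam k26) mu) (w lam 26 + o)) (Hd27 : ∀ lam : ℕ, Lt N U (Nat.land (Nat.shiftRight lam
  k27) mu) (w lam 27 + o)) (Hd28 : ∀ lam : ℕ, Lt N U (Nat.land (Nat.shiftRight lam k28) mu) (w lam 28 +
  o)) (Hd29 : ∀ lam : ℕ, Lt N U (Nat.land (Nat.shiftRight lam k29) mu) (w lam 29 + o)) (Hd30 : ∀ lam :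
  ℕ, Lt N U (Nat.land (Nat.shiftRight lam k30) mu) (w lam 30 + o)) (Hd31 : ∀ lam : ℕ, Lt N U (Nat.land
  (Nat.shiftRight lam k31) mu) (w lam 31 + o)) (Hd32 : ∀ lam : ℕ, Lt N U (Nat.land (Nat.shiftRight lam
  k32) mu) (w lam 32 + o)) (Hd33 : ∀ lam : ℕ, Lt N U (Nat.land (Nat.shiftRight lam k33) mu) (w lam 33 +
  o)) (Hd34 : ∀ lam : ℕ, Lt N U (Nat.land (Nat.shiftRight lam k34) mu) (w lam 34 + o)) (Hd35 : ∀ lam :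
  ℕ, Lt N U (Nat.land (Nat.shiftRight lam k35) mu) (w lam 35 + o)) (Hd36 : ∀ lam : ℕ, Lt N U (Nat.land
  (Nat.shiftRight lam k36) mu) (w lam 36 + o)) (Hd37 : ∀ lam : ℕ, Lt N U (Nat.land (Nat.shiftRight lam
  k37) mu) (w lam 37 + o)) (Hd38 : ∀ lam : ℕ, Lt N U (Nat.land (Nat.shiftRight lam k38) mu) (w lam 38 +
  o)) (Hd39 : ∀ lam : ℕ, Lt N U (Nat.land (Nat.shiftRight lam k39) mu) (w lam 39 + o)) (Hd40 : ∀ lam :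
  ℕ, Lt N U (Nat.land (Nat.shiftRight lam k40) mu) (w lam 40 + o)) (Hd41 : ∀ lam : ℕ, Lt N U (Nat.land
  (Nat.shiftRight lam k41) mu) (w lam 41 + o)) (Hd42 : ∀ lam : ℕ, Lt N U (Nat.land (Nat.shiftRight lam
  k42) mu) (w lam 42 + o)) (Hd43 : ∀ lam : ℕ, Lt N U (Nat.land (Nat.shiftRight lam k43) mu) (w lam 43 +
  o)) (Hd44 : ∀ lam : ℕ, Lt N U (Nat.land (Nat.shiftRight lam k44) mu) (w lam 44 + o)) (Hd45 : ∀ lam :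
  ℕ, Lt N U (Nat.land (Nat.shiftRight lam k45) mu) (w lam 45 + o)) (Hd46 : ∀ lam : ℕ, Lt N U (Nat.land
  (Nat.shiftRight lam k46) mu) (w lam 46 + o)) (Hd47 : ∀ lam : ℕ, Lt N U (Nat.land (Nat.shiftRight lam
  k47) mu) (w lam 47 + o)) (Hd48 : ∀ lam : ℕ, Lt N U (Nat.land (Nat.shiftRight lam k48) mu) (w lam 48 +
  o)) (Hd49 : ∀ lam : ℕ, Lt N U (Nat.land (Nat.shiftRight lam k49) mu) (w lam 49 + o)) (Hx01 : Cv N x01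
  f01) (Hx02 : Cv N x02 f02) (Hx03 : Cv N x03 f03) (Hx04 : Cv N x04 f04) (Hg00 : Rp N g00 z00) (Hg01 :
  Rp N g01 z01) (Hg02 : Rp N g02 z02) (Hg03 : Rp N g03 z03) (Hg11 : Rp N g11 z11) (Hg12 : Rp N g12 z12)
  (Hg13 : Rp N g13 z13) (Hg22 : Rp N g22 z22) (Hg23 : Rp N g23 z23) (Hg33 : Rp N g33 z33) {k : (ℕ → ℕ →
  ℕ → ℕ → ℕ → ℕ → ℕ) → Bool} (h : aK2 k N M N2 KN mu off k1 k2 k3 k4 k5 k6 k7 k8 k9 k10 k11 k12 k13 k14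
  k15 k16 k17 k18 k19 k20 k21 k22 k23 k24 k25 k26 k27 k28 k29 k30 k31 k32 k33 k34 k35 k36 k37 k38 k39
  k40 k41 k42 k43 k44 k45 k46 k47 k48 k49 x01 x02 x03 x04 g00 g01 g02 g03 g11 g12 g13 g22 g23 g33 =
  true) : ∃ K : (ℕ → ℕ → ℕ → ℕ → ℕ → ℕ → ℕ), k K = true ∧ ∀ (lam x05 x15 x25 x35 x45 : ℕ) (f05 f15 f25
  f35 f45 : ZMod N), Cv N x05 f05 → Rp N x15 f15 → Rp N x25 f25 → Rp N x35 f35 → Rp N x45 f45 → Cv N (K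
  lam x05 x15 x25 x35 x45) (dsum (w lam) z00 z01 z02 z03 (f01 + f05 - f15) z11 z12 z13 (f02 + f05 -
  f25) z22 z23 (f03 + f05 - f35) z33 (f04 + f05 - f45) (2 * f05)) := by
  exact aK3_cv E hK0 hK hK1 Ho Hd0 Hd1 Hd2 Hd3 Hd4 Hd5 Hd6 Hd7 Hd8 Hd9 Hd10 Hd11 Hd12 Hd13 Hd14 Hd15
    Hd16 Hd17 Hd18 Hd19 Hd20 Hd21 Hd22 Hd23 Hd24 Hd25 Hd26 Hd27 Hd28 Hd29 Hd30 Hd31 Hd32 Hd33 Hd34 Hd35
    Hd36 Hd37 Hd38 Hd39 Hd40 Hd41 Hd42 Hd43 Hd44 Hd45 Hd46 Hd47 Hd48 Hd49 Hx01 Hx02 Hx03 Hx04 Hg00 Hg01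
    Hg02 Hg03 Hg11 Hg12 Hg13 Hg22 Hg23 Hg33 (Rp.pm E Hg00 Hg11 Hg01 Hg01) (Rp.pm E Hg00 Hg12 Hg02 Hg01)
    (Rp.pm E Hg00 Hg13 Hg03 Hg01) (Rp.pm E Hg01 Hg12 Hg02 Hg11) (Rp.pm E Hg01 Hg13 Hg03 Hg11) (Rp.pm E
    Hg02 Hg13 Hg03 Hg12) (Rp.pm E Hg00 Hg22 Hg02 Hg02) (Rp.pm E Hg00 Hg23 Hg03 Hg02) (Rp.pm E Hg01 Hg22
    Hg02 Hg12) (Rp.pm E Hg01 Hg23 Hg03 Hg12) (Rp.pm E Hg02 Hg23 Hg03 Hg22) (Rp.pm E Hg00 Hg33 Hg03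
    Hg03) (Rp.pm E Hg01 Hg23 Hg02 Hg13) (Rp.pm E Hg01 Hg33 Hg03 Hg13) (Rp.pm E Hg02 Hg33 Hg03 Hg23)
    (Rp.pm E Hg11 Hg22 Hg12 Hg12) (Rp.pm E Hg11 Hg23 Hg13 Hg12) (Rp.pm E Hg12 Hg23 Hg13 Hg22) (Rp.pm E
    Hg11 Hg33 Hg13 Hg13) (Rp.pm E Hg12 Hg33 Hg13 Hg23) (Rp.pm E Hg22 Hg33 Hg23 Hg23) h

theorem aK_cv {N M N2 U KN mu off : ℕ} (E : Ev N M N2) (hK0 : (KN : ZMod N) = 0) (hK : 16 * (U * N) ≤
  KN) (hK1 : 32 * N ≤ KN) {w : ℕ → ℕ → ZMod N} {o : ZMod N} (Ho : Cv N off o) {k1 k2 k3 k4 k5 k6 k7 k8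
  k9 k10 k11 k12 k13 k14 k15 k16 k17 k18 k19 k20 k21 k22 k23 k24 k25 k26 k27 k28 k29 k30 k31 k32 k33
  k34 k35 k36 k37 k38 k39 k40 k41 k42 k43 k44 k45 k46 k47 k48 k49 : ℕ} {x01 x02 x12 x03 x13 x23 x04 x14
  x24 x34 : ℕ} {f01 f02 f12 f03 f13 f23 f04 f14 f24 f34 : ZMod N} (Hd0 : ∀ lam : ℕ, Lt N U (Nat.land
  lam mu) (w lam 0 + o)) (Hd1 : ∀ lam : ℕ, Lt N U (Nat.land (Nat.shiftRight lam k1) mu) (w lam 1 + o))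
  (Hd2 : ∀ lam : ℕ, Lt N U (Nat.land (Nat.shiftRight lam k2) mu) (w lam 2 + o)) (Hd3 : ∀ lam : ℕ, Lt N
  U (Nat.land (Nat.shiftRight lam k3) mu) (w lam 3 + o)) (Hd4 : ∀ lam : ℕ, Lt N U (Nat.land
  (Nat.shiftRight lam k4) mu) (w lam 4 + o)) (Hd5 : ∀ lam : ℕ, Lt N U (Nat.land (Nat.shiftRight lam k5)
  mu) (w lam 5 + o)) (Hd6 : ∀ lam : ℕ, Lt N U (Nat.land (Nat.shiftRight lam k6) mu) (w lam 6 + o)) (Hd7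
  : ∀ lam : ℕ, Lt N U (Nat.land (Nat.shiftRight lam k7) mu) (w lam 7 + o)) (Hd8 : ∀ lam : ℕ, Lt N U
  (Nat.land (Nat.shiftRight lam k8) mu) (w lam 8 + o)) (Hd9 : ∀ lam : ℕ, Lt N U (Nat.land
  (Nat.shiftRight lam k9) mu) (w lam 9 + o)) (Hd10 : ∀ lam : ℕ, Lt N U (Nat.land (Nat.shiftRight lam
  k10) mu) (w lam 10 + o)) (Hd11 : ∀ lam : ℕ, Lt N U (Nat.land (Nat.shiftRight lam k11) mu) (w lam 11 +
  o)) (Hd12 : ∀ lam : ℕ, Lt N U (Nat.land (Nat.shiftRight lam k12) mu) (w lam 12 + o)) (Hd13 : ∀ lam :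
  ℕ, Lt N U (Nat.land (Nat.shiftRight lam k13) mu) (w lam 13 + o)) (Hd14 : ∀ lam : ℕ, Lt N U (Nat.land
  (Nat.shiftRight lam k14) mu) (w lam 14 + o)) (Hd15 : ∀ lam : ℕ, Lt N U (Nat.land (Nat.shiftRight lam
  k15) mu) (w lam 15 + o)) (Hd16 : ∀ lam : ℕ, Lt N U (Nat.land (Nat.shiftRight lam k16) mu) (w lam 16 +
  o)) (Hd17 : ∀ lam : ℕ, Lt N U (Nat.land (Nat.shiftRight lam k17) mu) (w lam 17 + o)) (Hd18 : ∀ lam :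
  ℕ, Lt N U (Nat.land (Nat.shiftRight lam k18) mu) (w lam 18 + o)) (Hd19 : ∀ lam : ℕ, Lt N U (Nat.land
  (Nat.shiftRight lam k19) mu) (w lam 19 + o)) (Hd20 : ∀ lam : ℕ, Lt N U (Nat.land (Nat.shiftRight lam
  k20) mu) (w lam 20 + o)) (Hd21 : ∀ lam : ℕ, Lt N U (Nat.land (Nat.shiftRight lam k21) mu) (w lam 21 +
  o)) (Hd22 : ∀ lam : ℕ, Lt N U (Nat.land (Nat.shiftRight lam k22) mu) (w lam 22 + o)) (Hd23 : ∀ lam :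
  ℕ, Lt N U (Nat.land (Nat.shiftRight lam k23) mu) (w lam 23 + o)) (Hd24 : ∀ lam : ℕ, Lt N U (Nat.land
  (Nat.shiftRight lam k24) mu) (w lam 24 + o)) (Hd25 : ∀ lam : ℕ, Lt N U (Nat.land (Nat.shiftRight lam
  k25) mu) (w lam 25 + o)) (Hd26 : ∀ lam : ℕ, Lt N U (Nat.land (Nat.shiftRight lam k26) mu) (w lam 26 +
  o)) (Hd27 : ∀ lam : ℕ, Lt N U (Nat.land (Nat.shiftRight lam k27) mu) (w lam 27 + o)) (Hd28 : ∀ lam :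
  ℕ, Lt N U (Nat.land (Nat.shiftRight lam k28) mu) (w lam 28 + o)) (Hd29 : ∀ lam : ℕ, Lt N U (Nat.land
  (Nat.shiftRight lam k29) mu) (w lam 29 + o)) (Hd30 : ∀ lam : ℕ, Lt N U (Nat.land (Nat.shiftRight lam
  k30) mu) (w lam 30 + o)) (Hd31 : ∀ lam : ℕ, Lt N U (Nat.land (Nat.shiftRight lam k31) mu) (w lam 31 +
  o)) (Hd32 : ∀ lam : ℕ, Lt N U (Nat.land (Nat.shiftRight lam k32) mu) (w lam 32 + o)) (Hd33 : ∀ lam :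
  ℕ, Lt N U (Nat.land (Nat.shiftRight lam k33) mu) (w lam 33 + o)) (Hd34 : ∀ lam : ℕ, Lt N U (Nat.land
  (Nat.shiftRight lam k34) mu) (w lam 34 + o)) (Hd35 : ∀ lam : ℕ, Lt N U (Nat.land (Nat.shiftRight lam
  k35) mu) (w lam 35 + o)) (Hd36 : ∀ lam : ℕ, Lt N U (Nat.land (Nat.shiftRight lam k36) mu) (w lam 36 +
  o)) (Hd37 : ∀ lam : ℕ, Lt N U (Nat.land (Nat.shiftRight lam k37) mu) (w lam 37 + o)) (Hd38 : ∀ lam :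
  ℕ, Lt N U (Nat.land (Nat.shiftRight lam k38) mu) (w lam 38 + o)) (Hd39 : ∀ lam : ℕ, Lt N U (Nat.land
  (Nat.shiftRight lam k39) mu) (w lam 39 + o)) (Hd40 : ∀ lam : ℕ, Lt N U (Nat.land (Nat.shiftRight lam
  k40) mu) (w lam 40 + o)) (Hd41 : ∀ lam : ℕ, Lt N U (Nat.land (Nat.shiftRight lam k41) mu) (w lam 41 +
  o)) (Hd42 : ∀ lam : ℕ, Lt N U (Nat.land (Nat.shiftRight lam k42) mu) (w lam 42 + o)) (Hd43 : ∀ lam :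
  ℕ, Lt N U (Nat.land (Nat.shiftRight lam k43) mu) (w lam 43 + o)) (Hd44 : ∀ lam : ℕ, Lt N U (Nat.land
  (Nat.shiftRight lam k44) mu) (w lam 44 + o)) (Hd45 : ∀ lam : ℕ, Lt N U (Nat.land (Nat.shiftRight lam
  k45) mu) (w lam 45 + o)) (Hd46 : ∀ lam : ℕ, Lt N U (Nat.land (Nat.shiftRight lam k46) mu) (w lam 46 +
  o)) (Hd47 : ∀ lam : ℕ, Lt N U (Nat.land (Nat.shiftRight lam k47) mu) (w lam 47 + o)) (Hd48 : ∀ lam :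
  ℕ, Lt N U (Nat.land (Nat.shiftRight lam k48) mu) (w lam 48 + o)) (Hd49 : ∀ lam : ℕ, Lt N U (Nat.land
  (Nat.shiftRight lam k49) mu) (w lam 49 + o)) (Hx01 : Rp N x01 f01) (Hx02 : Rp N x02 f02) (Hx12 : Rp N
  x12 f12) (Hx03 : Rp N x03 f03) (Hx13 : Rp N x13 f13) (Hx23 : Rp N x23 f23) (Hx04 : Rp N x04 f04)
  (Hx14 : Rp N x14 f14) (Hx24 : Rp N x24 f24) (Hx34 : Rp N x34 f34) (hDx01 : 2 * x01 < N) (hDx02 : 2 *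
  x02 < N) (hDx03 : 2 * x03 < N) (hDx04 : 2 * x04 < N) {k : (ℕ → ℕ → ℕ → ℕ → ℕ → ℕ → ℕ) → Bool} (h : aK
  k N M N2 KN mu off k1 k2 k3 k4 k5 k6 k7 k8 k9 k10 k11 k12 k13 k14 k15 k16 k17 k18 k19 k20 k21 k22 k23
  k24 k25 k26 k27 k28 k29 k30 k31 k32 k33 k34 k35 k36 k37 k38 k39 k40 k41 k42 k43 k44 k45 k46 k47 k48
  k49 x01 x02 x12 x03 x13 x23 x04 x14 x24 x34 = true) : ∃ K : (ℕ → ℕ → ℕ → ℕ → ℕ → ℕ → ℕ), k K = true ∧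
  ∀ (lam x05 x15 x25 x35 x45 : ℕ) (f05 f15 f25 f35 f45 : ZMod N), Cv N x05 f05 → Rp N x15 f15 → Rp N
  x25 f25 → Rp N x35 f35 → Rp N x45 f45 → Cv N (K lam x05 x15 x25 x35 x45) (dsum (w lam) (2 * f01) (f01
  + f02 - f12) (f01 + f03 - f13) (f01 + f04 - f14) (f01 + f05 - f15) (2 * f02) (f02 + f03 - f23) (f02 +
  f04 - f24) (f02 + f05 - f25) (2 * f03) (f03 + f04 - f34) (f03 + f05 - f35) (2 * f04) (f04 + f05 -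
  f45) (2 * f05)) := by
  exact aK2_cv E hK0 hK hK1 Ho Hd0 Hd1 Hd2 Hd3 Hd4 Hd5 Hd6 Hd7 Hd8 Hd9 Hd10 Hd11 Hd12 Hd13 Hd14 Hd15
    Hd16 Hd17 Hd18 Hd19 Hd20 Hd21 Hd22 Hd23 Hd24 Hd25 Hd26 Hd27 Hd28 Hd29 Hd30 Hd31 Hd32 Hd33 Hd34 Hd35
    Hd36 Hd37 Hd38 Hd39 Hd40 Hd41 Hd42 Hd43 Hd44 Hd45 Hd46 Hd47 Hd48 Hd49 (Hx01).1 (Hx02).1 (Hx03).1
    (Hx04).1 (Rp.dd hDx01 (Hx01).1) (Rp.gm E (Hx01).1 (Hx02).1 Hx12) (Rp.gm E (Hx01).1 (Hx03).1 Hx13)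
    (Rp.gm E (Hx01).1 (Hx04).1 Hx14) (Rp.dd hDx02 (Hx02).1) (Rp.gm E (Hx02).1 (Hx03).1 Hx23) (Rp.gm E
    (Hx02).1 (Hx04).1 Hx24) (Rp.dd hDx03 (Hx03).1) (Rp.gm E (Hx03).1 (Hx04).1 Hx34) (Rp.dd hDx04
    (Hx04).1) h

end Pool.Agent.Lib.EPS9
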