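import Pool.Agent.Lib.MP_c7e7f6_eps.DenseA

/-!
Soundness of the dense part of the certificates: the six point data of `Core`.
-/

set_option autoImplicit false
set_option linter.unusedVariables false
set_option linter.style.longLine false

namespace Pool.Agent.Lib.EPS9

theorem tC_cv {N M N2 U KN mu off : ℕ} (E : Ev N M N2) (hK0 : (KN : ZMod N) = 0) (hK : 50 * N ≤ KN) {w
  : ℕ → ℕ → ZMod N} {o : ZMod N} (Ho : Cv N off o) {k1 k2 k3 k4 k5 k6 k7 k8 k9 k10 k11 k12 k13 k14 k15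
  k16 k17 k18 k19 k20 k21 k22 k23 k24 k25 k26 k27 k28 k29 k30 k31 k32 k33 k34 k35 k36 k37 k38 k39 k40
  k41 k42 k43 k44 k45 k46 k47 k48 k49 : ℕ} {m0_0 m0_1 m0_2 m0_3 m0_4 m0_5 m0_6 m0_7 m0_8 m0_9 m1_1 m1_2
  m1_3 m1_4 m1_5 m1_6 m1_7 m1_8 m1_9 m2_2 m2_4 m2_5 m2_7 m2_8 m2_9 m3_3 m3_4 m3_5 m3_6 m3_7 m3_8 m3_9
  m4_4 m4_5 m4_7 m4_8 m4_9 m5_5 m5_8 m5_9 m6_6 m6_7 m6_8 m6_9 m7_7 m7_8 m7_9 m8_8 m8_9 m9_9 : ℕ} {tm0_0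
  tm0_1 tm0_2 tm0_3 tm0_4 tm0_5 tm0_6 tm0_7 tm0_8 tm0_9 tm1_1 tm1_2 tm1_3 tm1_4 tm1_5 tm1_6 tm1_7 tm1_8
  tm1_9 tm2_2 tm2_4 tm2_5 tm2_7 tm2_8 tm2_9 tm3_3 tm3_4 tm3_5 tm3_6 tm3_7 tm3_8 tm3_9 tm4_4 tm4_5 tm4_7
  tm4_8 tm4_9 tm5_5 tm5_8 tm5_9 tm6_6 tm6_7 tm6_8 tm6_9 tm7_7 tm7_8 tm7_9 tm8_8 tm8_9 tm9_9 : ZMod N}
  (Hd0 : ∀ lam : ℕ, Lt N U (Nat.land lam mu) (w lam 0 + o)) (Hd1 : ∀ lam : ℕ, Lt N U (Nat.land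
  (Nat.shiftRight lam k1) mu) (w lam 1 + o)) (Hd2 : ∀ lam : ℕ, Lt N U (Nat.land (Nat.shiftRight lam k2)
  mu) (w lam 2 + o)) (Hd3 : ∀ lam : ℕ, Lt N U (Nat.land (Nat.shiftRight lam k3) mu) (w lam 3 + o)) (Hd4
  : ∀ lam : ℕ, Lt N U (Nat.land (Nat.shiftRight lam k4) mu) (w lam 4 + o)) (Hd5 : ∀ lam : ℕ, Lt N U
  (Nat.land (Nat.shiftRight lam k5) mu) (w lam 5 + o)) (Hd6 : ∀ lam : ℕ, Lt N U (Nat.land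
  (Nat.shiftRight lam k6) mu) (w lam 6 + o)) (Hd7 : ∀ lam : ℕ, Lt N U (Nat.land (Nat.shiftRight lam k7)
  mu) (w lam 7 + o)) (Hd8 : ∀ lam : ℕ, Lt N U (Nat.land (Nat.shiftRight lam k8) mu) (w lam 8 + o)) (Hd9
  : ∀ lam : ℕ, Lt N U (Nat.land (Nat.shiftRight lam k9) mu) (w lam 9 + o)) (Hd10 : ∀ lam : ℕ, Lt N U
  (Nat.land (Nat.shiftRight lam k10) mu) (w lam 10 + o)) (Hd11 : ∀ lam : ℕ, Lt N U (Nat.land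
  (Nat.shiftRight lam k11) mu) (w lam 11 + o)) (Hd12 : ∀ lam : ℕ, Lt N U (Nat.land (Nat.shiftRight lam
  k12) mu) (w lam 12 + o)) (Hd13 : ∀ lam : ℕ, Lt N U (Nat.land (Nat.shiftRight lam k13) mu) (w lam 13 +
  o)) (Hd14 : ∀ lam : ℕ, Lt N U (Nat.land (Nat.shiftRight lam k14) mu) (w lam 14 + o)) (Hd15 : ∀ lam :
  ℕ, Lt N U (Nat.land (Nat.shiftRight lam k15) mu) (w lam 15 + o)) (Hd16 : ∀ lam : ℕ, Lt N U (Nat.land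
  (Nat.shiftRight lam k16) mu) (w lam 16 + o)) (Hd17 : ∀ lam : ℕ, Lt N U (Nat.land (Nat.shiftRight lam
  k17) mu) (w lam 17 + o)) (Hd18 : ∀ lam : ℕ, Lt N U (Nat.land (Nat.shiftRight lam k18) mu) (w lam 18 +
  o)) (Hd19 : ∀ lam : ℕ, Lt N U (Nat.land (Nat.shiftRight lam k19) mu) (w lam 19 + o)) (Hd20 : ∀ lam :
  ℕ, Lt N U (Nat.land (Nat.shiftRight lam k20) mu) (w lam 20 + o)) (Hd21 : ∀ lam : ℕ, Lt N U (Nat.land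
  (Nat.shiftRight lam k21) mu) (w lam 21 + o)) (Hd22 : ∀ lam : ℕ, Lt N U (Nat.land (Nat.shiftRight lam
  k22) mu) (w lam 22 + o)) (Hd23 : ∀ lam : ℕ, Lt N U (Nat.land (Nat.shiftRight lam k23) mu) (w lam 23 +
  o)) (Hd24 : ∀ lam : ℕ, Lt N U (Nat.land (Nat.shiftRight lam k24) mu) (w lam 24 + o)) (Hd25 : ∀ lam :
  ℕ, Lt N U (Nat.land (Nat.shiftRight lam k25) mu) (w lam 25 + o)) (Hd26 : ∀ lam : ℕ, Lt N U (Nat.land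
  (Nat.shiftRight lam k26) mu) (w lam 26 + o)) (Hd27 : ∀ lam : ℕ, Lt N U (Nat.land (Nat.shiftRight lam
  k27) mu) (w lam 27 + o)) (Hd28 : ∀ lam : ℕ, Lt N U (Nat.land (Nat.shiftRight lam k28) mu) (w lam 28 +
  o)) (Hd29 : ∀ lam : ℕ, Lt N U (Nat.land (Nat.shiftRight lam k29) mu) (w lam 29 + o)) (Hd30 : ∀ lam :
  ℕ, Lt N U (Nat.land (Nat.shiftRight lam k30) mu) (w lam 30 + o)) (Hd31 : ∀ lam : ℕ, Lt N U (Nat.land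
  (Nat.shiftRight lam k31) mu) (w lam 31 + o)) (Hd32 : ∀ lam : ℕ, Lt N U (Nat.land (Nat.shiftRight lam
  k32) mu) (w lam 32 + o)) (Hd33 : ∀ lam : ℕ, Lt N U (Nat.land (Nat.shiftRight lam k33) mu) (w lam 33 +
  o)) (Hd34 : ∀ lam : ℕ, Lt N U (Nat.land (Nat.shiftRight lam k34) mu) (w lam 34 + o)) (Hd35 : ∀ lam :
  ℕ, Lt N U (Nat.land (Nat.shiftRight lam k35) mu) (w lam 35 + o)) (Hd36 : ∀ lam : ℕ, Lt N U (Nat.land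
  (Nat.shiftRight lam k36) mu) (w lam 36 + o)) (Hd37 : ∀ lam : ℕ, Lt N U (Nat.land (Nat.shiftRight lam
  k37) mu) (w lam 37 + o)) (Hd38 : ∀ lam : ℕ, Lt N U (Nat.land (Nat.shiftRight lam k38) mu) (w lam 38 +
  o)) (Hd39 : ∀ lam : ℕ, Lt N U (Nat.land (Nat.shiftRight lam k39) mu) (w lam 39 + o)) (Hd40 : ∀ lam :
  ℕ, Lt N U (Nat.land (Nat.shiftRight lam k40) mu) (w lam 40 + o)) (Hd41 : ∀ lam : ℕ, Lt N U (Nat.land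
  (Nat.shiftRight lam k41) mu) (w lam 41 + o)) (Hd42 : ∀ lam : ℕ, Lt N U (Nat.land (Nat.shiftRight lam
  k42) mu) (w lam 42 + o)) (Hd43 : ∀ lam : ℕ, Lt N U (Nat.land (Nat.shiftRight lam k43) mu) (w lam 43 +
  o)) (Hd44 : ∀ lam : ℕ, Lt N U (Nat.land (Nat.shiftRight lam k44) mu) (w lam 44 + o)) (Hd45 : ∀ lam :
  ℕ, Lt N U (Nat.land (Nat.shiftRight lam k45) mu) (w lam 45 + o)) (Hd46 : ∀ lam : ℕ, Lt N U (Nat.land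
  (Nat.shiftRight lam k46) mu) (w lam 46 + o)) (Hd47 : ∀ lam : ℕ, Lt N U (Nat.land (Nat.shiftRight lam
  k47) mu) (w lam 47 + o)) (Hd48 : ∀ lam : ℕ, Lt N U (Nat.land (Nat.shiftRight lam k48) mu) (w lam 48 +
  o)) (Hd49 : ∀ lam : ℕ, Lt N U (Nat.land (Nat.shiftRight lam k49) mu) (w lam 49 + o)) (Hm0_0 : Rp N
  m0_0 tm0_0) (Hm0_1 : Rp N m0_1 tm0_1) (Hm0_2 : Rp N m0_2 tm0_2) (Hm0_3 : Rp N m0_3 tm0_3) (Hm0_4 : Rp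
  N m0_4 tm0_4) (Hm0_5 : Rp N m0_5 tm0_5) (Hm0_6 : Rp N m0_6 tm0_6) (Hm0_7 : Rp N m0_7 tm0_7) (Hm0_8 :
  Rp N m0_8 tm0_8) (Hm0_9 : Rp N m0_9 tm0_9) (Hm1_1 : Rp N m1_1 tm1_1) (Hm1_2 : Rp N m1_2 tm1_2) (Hm1_3
  : Rp N m1_3 tm1_3) (Hm1_4 : Rp N m1_4 tm1_4) (Hm1_5 : Rp N m1_5 tm1_5) (Hm1_6 : Rp N m1_6 tm1_6)
  (Hm1_7 : Rp N m1_7 tm1_7) (Hm1_8 : Rp N m1_8 tm1_8) (Hm1_9 : Rp N m1_9 tm1_9) (Hm2_2 : Rp N m2_2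
  tm2_2) (Hm2_4 : Rp N m2_4 tm2_4) (Hm2_5 : Rp N m2_5 tm2_5) (Hm2_7 : Rp N m2_7 tm2_7) (Hm2_8 : Rp N
  m2_8 tm2_8) (Hm2_9 : Rp N m2_9 tm2_9) (Hm3_3 : Rp N m3_3 tm3_3) (Hm3_4 : Rp N m3_4 tm3_4) (Hm3_5 : Rp
  N m3_5 tm3_5) (Hm3_6 : Rp N m3_6 tm3_6) (Hm3_7 : Rp N m3_7 tm3_7) (Hm3_8 : Rp N m3_8 tm3_8) (Hm3_9 :
  Rp N m3_9 tm3_9) (Hm4_4 : Rp N m4_4 tm4_4) (Hm4_5 : Rp N m4_5 tm4_5) (Hm4_7 : Rp N m4_7 tm4_7) (Hm4_8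
  : Rp N m4_8 tm4_8) (Hm4_9 : Rp N m4_9 tm4_9) (Hm5_5 : Rp N m5_5 tm5_5) (Hm5_8 : Rp N m5_8 tm5_8)
  (Hm5_9 : Rp N m5_9 tm5_9) (Hm6_6 : Rp N m6_6 tm6_6) (Hm6_7 : Rp N m6_7 tm6_7) (Hm6_8 : Rp N m6_8
  tm6_8) (Hm6_9 : Rp N m6_9 tm6_9) (Hm7_7 : Rp N m7_7 tm7_7) (Hm7_8 : Rp N m7_8 tm7_8) (Hm7_9 : Rp N
  m7_9 tm7_9) (Hm8_8 : Rp N m8_8 tm8_8) (Hm8_9 : Rp N m8_9 tm8_9) (Hm9_9 : Rp N m9_9 tm9_9) {k : (ℕ →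
  ℕ) → Bool} (h : tC k KN mu off M k1 k2 k3 k4 k5 k6 k7 k8 k9 k10 k11 k12 k13 k14 k15 k16 k17 k18 k19
  k20 k21 k22 k23 k24 k25 k26 k27 k28 k29 k30 k31 k32 k33 k34 k35 k36 k37 k38 k39 k40 k41 k42 k43 k44
  k45 k46 k47 k48 k49 m0_0 m0_1 m0_2 m0_3 m0_4 m0_5 m0_6 m0_7 m0_8 m0_9 m1_1 m1_2 m1_3 m1_4 m1_5 m1_6
  m1_7 m1_8 m1_9 m2_2 m2_4 m2_5 m2_7 m2_8 m2_9 m3_3 m3_4 m3_5 m3_6 m3_7 m3_8 m3_9 m4_4 m4_5 m4_7 m4_8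
  m4_9 m5_5 m5_8 m5_9 m6_6 m6_7 m6_8 m6_9 m7_7 m7_8 m7_9 m8_8 m8_9 m9_9 = true) : ∃ K : ℕ → ℕ, k K =
  true ∧ ∀ lam : ℕ, Cv N (K lam)  (((((((w lam 0 * tm0_0) + ((w lam 1 * tm0_1) + (w lam 2 * tm0_2))) +
  ((w lam 3 * tm0_3) + ((w lam 4 * tm0_4) + (w lam 5 * tm0_5)))) + (((w lam 6 * tm0_6) + ((w lam 7 *
  tm0_7) + (w lam 8 * tm0_8))) + ((w lam 9 * tm0_9) + ((w lam 10 * tm1_1) + (w lam 11 * tm1_2))))) +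
  ((((w lam 12 * tm1_3) + ((w lam 13 * tm1_4) + (w lam 14 * tm1_5))) + ((w lam 15 * tm1_6) + ((w lam 16
  * tm1_7) + (w lam 17 * tm1_8)))) + (((w lam 18 * tm1_9) + ((w lam 19 * tm2_2) + (w lam 20 * tm2_4)))
  + (((w lam 21 * tm2_5) + (w lam 22 * tm2_7)) + ((w lam 23 * tm2_8) + (w lam 24 * tm2_9)))))) + (((((w
  lam 25 * tm3_3) + ((w lam 26 * tm3_4) + (w lam 27 * tm3_5))) + ((w lam 28 * tm3_6) + ((w lam 29 *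
  tm3_7) + (w lam 30 * tm3_8)))) + (((w lam 31 * tm3_9) + ((w lam 32 * tm4_4) + (w lam 33 * tm4_5))) +
  ((w lam 34 * tm4_7) + ((w lam 35 * tm4_8) + (w lam 36 * tm4_9))))) + ((((w lam 37 * tm5_5) + ((w lam
  38 * tm5_8) + (w lam 39 * tm5_9))) + ((w lam 40 * tm6_6) + ((w lam 41 * tm6_7) + (w lam 42 *
  tm6_8)))) + (((w lam 43 * tm6_9) + ((w lam 44 * tm7_7) + (w lam 45 * tm7_8))) + (((w lam 46 * tm7_9)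
  + (w lam 47 * tm8_8)) + ((w lam 48 * tm8_9) + (w lam 49 * tm9_9)))))))) := by
  exact ⟨_, h, fun lam => Cv.congr (Cv.add (Cv.add (Cv.add (Cv.add (Cv.add (Cv.add (Cv.mul (Hd0 lam).1
    Hm0_0.1) (Cv.add (Cv.mul (Hd1 lam).1 Hm0_1.1) (Cv.mul (Hd2 lam).1 Hm0_2.1))) (Cv.add (Cv.mul (Hd3
    lam).1 Hm0_3.1) (Cv.add (Cv.mul (Hd4 lam).1 Hm0_4.1) (Cv.mul (Hd5 lam).1 Hm0_5.1)))) (Cv.add
    (Cv.add (Cv.mul (Hd6 lam).1 Hm0_6.1) (Cv.add (Cv.mul (Hd7 lam).1 Hm0_7.1) (Cv.mul (Hd8 lam).1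
    Hm0_8.1))) (Cv.add (Cv.mul (Hd9 lam).1 Hm0_9.1) (Cv.add (Cv.mul (Hd10 lam).1 Hm1_1.1) (Cv.mul (Hd11
    lam).1 Hm1_2.1))))) (Cv.add (Cv.add (Cv.add (Cv.mul (Hd12 lam).1 Hm1_3.1) (Cv.add (Cv.mul (Hd13
    lam).1 Hm1_4.1) (Cv.mul (Hd14 lam).1 Hm1_5.1))) (Cv.add (Cv.mul (Hd15 lam).1 Hm1_6.1) (Cv.add
    (Cv.mul (Hd16 lam).1 Hm1_7.1) (Cv.mul (Hd17 lam).1 Hm1_8.1)))) (Cv.add (Cv.add (Cv.mul (Hd18 lam).1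
    Hm1_9.1) (Cv.add (Cv.mul (Hd19 lam).1 Hm2_2.1) (Cv.mul (Hd20 lam).1 Hm2_4.1))) (Cv.add (Cv.add
    (Cv.mul (Hd21 lam).1 Hm2_5.1) (Cv.mul (Hd22 lam).1 Hm2_7.1)) (Cv.add (Cv.mul (Hd23 lam).1 Hm2_8.1)
    (Cv.mul (Hd24 lam).1 Hm2_9.1)))))) (Cv.add (Cv.add (Cv.add (Cv.add (Cv.mul (Hd25 lam).1 Hm3_3.1)
    (Cv.add (Cv.mul (Hd26 lam).1 Hm3_4.1) (Cv.mul (Hd27 lam).1 Hm3_5.1))) (Cv.add (Cv.mul (Hd28 lam).1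
    Hm3_6.1) (Cv.add (Cv.mul (Hd29 lam).1 Hm3_7.1) (Cv.mul (Hd30 lam).1 Hm3_8.1)))) (Cv.add (Cv.add
    (Cv.mul (Hd31 lam).1 Hm3_9.1) (Cv.add (Cv.mul (Hd32 lam).1 Hm4_4.1) (Cv.mul (Hd33 lam).1 Hm4_5.1)))
    (Cv.add (Cv.mul (Hd34 lam).1 Hm4_7.1) (Cv.add (Cv.mul (Hd35 lam).1 Hm4_8.1) (Cv.mul (Hd36 lam).1
    Hm4_9.1))))) (Cv.add (Cv.add (Cv.add (Cv.mul (Hd37 lam).1 Hm5_5.1) (Cv.add (Cv.mul (Hd38 lam).1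
    Hm5_8.1) (Cv.mul (Hd39 lam).1 Hm5_9.1))) (Cv.add (Cv.mul (Hd40 lam).1 Hm6_6.1) (Cv.add (Cv.mul
    (Hd41 lam).1 Hm6_7.1) (Cv.mul (Hd42 lam).1 Hm6_8.1)))) (Cv.add (Cv.add (Cv.mul (Hd43 lam).1
    Hm6_9.1) (Cv.add (Cv.mul (Hd44 lam).1 Hm7_7.1) (Cv.mul (Hd45 lam).1 Hm7_8.1))) (Cv.add (Cv.add
    (Cv.mul (Hd46 lam).1 Hm7_9.1) (Cv.mul (Hd47 lam).1 Hm8_8.1)) (Cv.add (Cv.mul (Hd48 lam).1 Hm8_9.1)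
    (Cv.mul (Hd49 lam).1 Hm9_9.1))))))) (Cv.land E (Cv.mul Ho (Cv.sub hK0 (Sm.add (Sm.add (Sm.add
    (Sm.add (Sm.add (Sm.one Hm0_0) (Sm.add (Sm.one Hm0_1) (Sm.one Hm0_2))) (Sm.add (Sm.one Hm0_3)
    (Sm.add (Sm.one Hm0_4) (Sm.one Hm0_5)))) (Sm.add (Sm.add (Sm.one Hm0_6) (Sm.add (Sm.one Hm0_7)
    (Sm.one Hm0_8))) (Sm.add (Sm.one Hm0_9) (Sm.add (Sm.one Hm1_1) (Sm.one Hm1_2))))) (Sm.add (Sm.add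
    (Sm.add (Sm.one Hm1_3) (Sm.add (Sm.one Hm1_4) (Sm.one Hm1_5))) (Sm.add (Sm.one Hm1_6) (Sm.add
    (Sm.one Hm1_7) (Sm.one Hm1_8)))) (Sm.add (Sm.add (Sm.one Hm1_9) (Sm.add (Sm.one Hm2_2) (Sm.one
    Hm2_4))) (Sm.add (Sm.add (Sm.one Hm2_5) (Sm.one Hm2_7)) (Sm.add (Sm.one Hm2_8) (Sm.one Hm2_9))))))
    (Sm.add (Sm.add (Sm.add (Sm.add (Sm.one Hm3_3) (Sm.add (Sm.one Hm3_4) (Sm.one Hm3_5))) (Sm.add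
    (Sm.one Hm3_6) (Sm.add (Sm.one Hm3_7) (Sm.one Hm3_8)))) (Sm.add (Sm.add (Sm.one Hm3_9) (Sm.add
    (Sm.one Hm4_4) (Sm.one Hm4_5))) (Sm.add (Sm.one Hm4_7) (Sm.add (Sm.one Hm4_8) (Sm.one Hm4_9)))))
    (Sm.add (Sm.add (Sm.add (Sm.one Hm5_5) (Sm.add (Sm.one Hm5_8) (Sm.one Hm5_9))) (Sm.add (Sm.one
    Hm6_6) (Sm.add (Sm.one Hm6_7) (Sm.one Hm6_8)))) (Sm.add (Sm.add (Sm.one Hm6_9) (Sm.add (Sm.one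
    Hm7_7) (Sm.one Hm7_8))) (Sm.add (Sm.add (Sm.one Hm7_9) (Sm.one Hm8_8)) (Sm.add (Sm.one Hm8_9)
    (Sm.one Hm9_9))))))) (le_trans (Nat.mul_le_mul_right _ (by norm_num)) hK))))) (by ring)⟩

theorem dsum_eq2 {R : Type*} [CommRing R] (w : ℕ → R) (z00 z01 z02 z03 z04 z11 z12 z13 z14 z22 z23 z24
  z33 z34 z44 : R) : ((((((w 0 * (z00 * (z11 * z22 - z12 * z12) + z02 * (z01 * z12 - z02 * z11) - z01 *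
  (z01 * z22 - z02 * z12))) + ((w 1 * (z00 * (z11 * z23 - z13 * z12) + z03 * (z01 * z12 - z02 * z11) -
  z01 * (z01 * z23 - z02 * z13))) + (w 2 * (z00 * (z11 * z24 - z14 * z12) + z04 * (z01 * z12 - z02 *
  z11) - z01 * (z01 * z24 - z02 * z14))))) + ((w 3 * (z00 * (z12 * z23 - z13 * z22) + z03 * (z01 * z22
  - z02 * z12) - z02 * (z01 * z23 - z02 * z13))) + ((w 4 * (z00 * (z12 * z24 - z14 * z22) + z04 * (z01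
  * z22 - z02 * z12) - z02 * (z01 * z24 - z02 * z14))) + (w 5 * (z00 * (z13 * z24 - z14 * z23) + z04 *
  (z01 * z23 - z02 * z13) - z03 * (z01 * z24 - z02 * z14)))))) + (((w 6 * (z01 * (z12 * z23 - z13 *
  z22) + z03 * (z11 * z22 - z12 * z12) - z02 * (z11 * z23 - z13 * z12))) + ((w 7 * (z01 * (z12 * z24 -
  z14 * z22) + z04 * (z11 * z22 - z12 * z12) - z02 * (z11 * z24 - z14 * z12))) + (w 8 * (z01 * (z13 *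
  z24 - z14 * z23) + z04 * (z11 * z23 - z13 * z12) - z03 * (z11 * z24 - z14 * z12))))) + ((w 9 * (z02 *
  (z13 * z24 - z14 * z23) + z04 * (z12 * z23 - z13 * z22) - z03 * (z12 * z24 - z14 * z22))) + ((w 10 *
  (z00 * (z11 * z33 - z13 * z13) + z03 * (z01 * z13 - z03 * z11) - z01 * (z01 * z33 - z03 * z13))) + (w
  11 * (z00 * (z11 * z34 - z14 * z13) + z04 * (z01 * z13 - z03 * z11) - z01 * (z01 * z34 - z03 *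
  z14))))))) + ((((w 12 * (z00 * (z12 * z33 - z13 * z23) + z03 * (z01 * z23 - z03 * z12) - z02 * (z01 *
  z33 - z03 * z13))) + ((w 13 * (z00 * (z12 * z34 - z14 * z23) + z04 * (z01 * z23 - z03 * z12) - z02 *
  (z01 * z34 - z03 * z14))) + (w 14 * (z00 * (z13 * z34 - z14 * z33) + z04 * (z01 * z33 - z03 * z13) -
  z03 * (z01 * z34 - z03 * z14))))) + ((w 15 * (z01 * (z12 * z33 - z13 * z23) + z03 * (z11 * z23 - z13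
  * z12) - z02 * (z11 * z33 - z13 * z13))) + ((w 16 * (z01 * (z12 * z34 - z14 * z23) + z04 * (z11 * z23
  - z13 * z12) - z02 * (z11 * z34 - z14 * z13))) + (w 17 * (z01 * (z13 * z34 - z14 * z33) + z04 * (z11
  * z33 - z13 * z13) - z03 * (z11 * z34 - z14 * z13)))))) + (((w 18 * (z02 * (z13 * z34 - z14 * z33) +
  z04 * (z12 * z33 - z13 * z23) - z03 * (z12 * z34 - z14 * z23))) + ((w 19 * (z00 * (z11 * z44 - z14 *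
  z14) + z04 * (z01 * z14 - z04 * z11) - z01 * (z01 * z44 - z04 * z14))) + (w 20 * (z00 * (z12 * z44 -
  z14 * z24) + z04 * (z01 * z24 - z04 * z12) - z02 * (z01 * z44 - z04 * z14))))) + (((w 21 * (z00 *
  (z13 * z44 - z14 * z34) + z04 * (z01 * z34 - z04 * z13) - z03 * (z01 * z44 - z04 * z14))) + (w 22 *
  (z01 * (z12 * z44 - z14 * z24) + z04 * (z11 * z24 - z14 * z12) - z02 * (z11 * z44 - z14 * z14)))) +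
  ((w 23 * (z01 * (z13 * z44 - z14 * z34) + z04 * (z11 * z34 - z14 * z13) - z03 * (z11 * z44 - z14 *
  z14))) + (w 24 * (z02 * (z13 * z44 - z14 * z34) + z04 * (z12 * z34 - z13 * z24) - z03 * (z12 * z44 -
  z14 * z24)))))))) + (((((w 25 * (z00 * (z22 * z33 - z23 * z23) + z03 * (z02 * z23 - z03 * z22) - z02
  * (z02 * z33 - z03 * z23))) + ((w 26 * (z00 * (z22 * z34 - z24 * z23) + z04 * (z02 * z23 - z03 * z22)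
  - z02 * (z02 * z34 - z03 * z24))) + (w 27 * (z00 * (z23 * z34 - z24 * z33) + z04 * (z02 * z33 - z03 *
  z23) - z03 * (z02 * z34 - z03 * z24))))) + ((w 28 * (z01 * (z22 * z33 - z23 * z23) + z03 * (z12 * z23
  - z13 * z22) - z02 * (z12 * z33 - z13 * z23))) + ((w 29 * (z01 * (z22 * z34 - z24 * z23) + z04 * (z12
  * z23 - z13 * z22) - z02 * (z12 * z34 - z13 * z24))) + (w 30 * (z01 * (z23 * z34 - z24 * z33) + z04 *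
  (z12 * z33 - z13 * z23) - z03 * (z12 * z34 - z13 * z24)))))) + (((w 31 * (z02 * (z23 * z34 - z24 *
  z33) + z04 * (z22 * z33 - z23 * z23) - z03 * (z22 * z34 - z24 * z23))) + ((w 32 * (z00 * (z22 * z44 -
  z24 * z24) + z04 * (z02 * z24 - z04 * z22) - z02 * (z02 * z44 - z04 * z24))) + (w 33 * (z00 * (z23 *
  z44 - z24 * z34) + z04 * (z02 * z34 - z04 * z23) - z03 * (z02 * z44 - z04 * z24))))) + ((w 34 * (z01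
  * (z22 * z44 - z24 * z24) + z04 * (z12 * z24 - z14 * z22) - z02 * (z12 * z44 - z14 * z24))) + ((w 35
  * (z01 * (z23 * z44 - z24 * z34) + z04 * (z12 * z34 - z14 * z23) - z03 * (z12 * z44 - z14 * z24))) +
  (w 36 * (z02 * (z23 * z44 - z24 * z34) + z04 * (z22 * z34 - z24 * z23) - z03 * (z22 * z44 - z24 *
  z24))))))) + ((((w 37 * (z00 * (z33 * z44 - z34 * z34) + z04 * (z03 * z34 - z04 * z33) - z03 * (z03 *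
  z44 - z04 * z34))) + ((w 38 * (z01 * (z33 * z44 - z34 * z34) + z04 * (z13 * z34 - z14 * z33) - z03 *
  (z13 * z44 - z14 * z34))) + (w 39 * (z02 * (z33 * z44 - z34 * z34) + z04 * (z23 * z34 - z24 * z33) -
  z03 * (z23 * z44 - z24 * z34))))) + ((w 40 * (z11 * (z22 * z33 - z23 * z23) + z13 * (z12 * z23 - z13
  * z22) - z12 * (z12 * z33 - z13 * z23))) + ((w 41 * (z11 * (z22 * z34 - z24 * z23) + z14 * (z12 * z23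
  - z13 * z22) - z12 * (z12 * z34 - z13 * z24))) + (w 42 * (z11 * (z23 * z34 - z24 * z33) + z14 * (z12
  * z33 - z13 * z23) - z13 * (z12 * z34 - z13 * z24)))))) + (((w 43 * (z12 * (z23 * z34 - z24 * z33) +
  z14 * (z22 * z33 - z23 * z23) - z13 * (z22 * z34 - z24 * z23))) + ((w 44 * (z11 * (z22 * z44 - z24 *
  z24) + z14 * (z12 * z24 - z14 * z22) - z12 * (z12 * z44 - z14 * z24))) + (w 45 * (z11 * (z23 * z44 -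
  z24 * z34) + z14 * (z12 * z34 - z14 * z23) - z13 * (z12 * z44 - z14 * z24))))) + (((w 46 * (z12 *
  (z23 * z44 - z24 * z34) + z14 * (z22 * z34 - z24 * z23) - z13 * (z22 * z44 - z24 * z24))) + (w 47 *
  (z11 * (z33 * z44 - z34 * z34) + z14 * (z13 * z34 - z14 * z33) - z13 * (z13 * z44 - z14 * z34)))) +
  ((w 48 * (z12 * (z33 * z44 - z34 * z34) + z14 * (z23 * z34 - z24 * z33) - z13 * (z23 * z44 - z24 *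
  z34))) + (w 49 * (z22 * (z33 * z44 - z34 * z34) + z24 * (z23 * z34 - z24 * z33) - z23 * (z23 * z44 -
  z24 * z34))))))))) = dsum w z00 z01 z02 z03 z04 z11 z12 z13 z14 z22 z23 z24 z33 z34 z44 := by
  unfold dsum det9
  ring

theorem tB_cv {N M N2 U KN mu off : ℕ} (E : Ev N M N2) (hK0 : (KN : ZMod N) = 0) (hK : 50 * N ≤ KN) {w
  : ℕ → ℕ → ZMod N} {o : ZMod N} (Ho : Cv N off o) {k1 k2 k3 k4 k5 k6 k7 k8 k9 k10 k11 k12 k13 k14 k15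
  k16 k17 k18 k19 k20 k21 k22 k23 k24 k25 k26 k27 k28 k29 k30 k31 k32 k33 k34 k35 k36 k37 k38 k39 k40
  k41 k42 k43 k44 k45 k46 k47 k48 k49 : ℕ} {g00 g01 g02 g03 g04 g11 g12 g13 g14 g22 g23 g24 g33 g34 g44
  p01_12 p01_13 p01_14 p02_12 p02_13 p02_14 p02_23 p02_24 p03_12 p03_13 p03_14 p03_23 p03_24 p03_34
  p04_12 p04_13 p04_14 p04_23 p04_24 p04_34 p12_12 p12_13 p12_14 p12_23 p12_24 p12_34 p13_13 p13_14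
  p13_23 p13_24 p13_34 p14_14 p14_23 p14_24 p14_34 p23_23 p23_24 p23_34 p24_24 p24_34 p34_34 : ℕ} {z00
  z01 z02 z03 z04 z11 z12 z13 z14 z22 z23 z24 z33 z34 z44 : ZMod N} (Hd0 : ∀ lam : ℕ, Lt N U (Nat.land
  lam mu) (w lam 0 + o)) (Hd1 : ∀ lam : ℕ, Lt N U (Nat.land (Nat.shiftRight lam k1) mu) (w lam 1 + o))
  (Hd2 : ∀ lam : ℕ, Lt N U (Nat.land (Nat.shiftRight lam k2) mu) (w lam 2 + o)) (Hd3 : ∀ lam : ℕ, Lt N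
  U (Nat.land (Nat.shiftRight lam k3) mu) (w lam 3 + o)) (Hd4 : ∀ lam : ℕ, Lt N U (Nat.land
  (Nat.shiftRight lam k4) mu) (w lam 4 + o)) (Hd5 : ∀ lam : ℕ, Lt N U (Nat.land (Nat.shiftRight lam k5)
  mu) (w lam 5 + o)) (Hd6 : ∀ lam : ℕ, Lt N U (Nat.land (Nat.shiftRight lam k6) mu) (w lam 6 + o)) (Hd7
  : ∀ lam : ℕ, Lt N U (Nat.land (Nat.shiftRight lam k7) mu) (w lam 7 + o)) (Hd8 : ∀ lam : ℕ, Lt N U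
  (Nat.land (Nat.shiftRight lam k8) mu) (w lam 8 + o)) (Hd9 : ∀ lam : ℕ, Lt N U (Nat.land
  (Nat.shiftRight lam k9) mu) (w lam 9 + o)) (Hd10 : ∀ lam : ℕ, Lt N U (Nat.land (Nat.shiftRight lam
  k10) mu) (w lam 10 + o)) (Hd11 : ∀ lam : ℕ, Lt N U (Nat.land (Nat.shiftRight lam k11) mu) (w lam 11 +
  o)) (Hd12 : ∀ lam : ℕ, Lt N U (Nat.land (Nat.shiftRight lam k12) mu) (w lam 12 + o)) (Hd13 : ∀ lam :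
  ℕ, Lt N U (Nat.land (Nat.shiftRight lam k13) mu) (w lam 13 + o)) (Hd14 : ∀ lam : ℕ, Lt N U (Nat.land
  (Nat.shiftRight lam k14) mu) (w lam 14 + o)) (Hd15 : ∀ lam : ℕ, Lt N U (Nat.land (Nat.shiftRight lam
  k15) mu) (w lam 15 + o)) (Hd16 : ∀ lam : ℕ, Lt N U (Nat.land (Nat.shiftRight lam k16) mu) (w lam 16 +
  o)) (Hd17 : ∀ lam : ℕ, Lt N U (Nat.land (Nat.shiftRight lam k17) mu) (w lam 17 + o)) (Hd18 : ∀ lam :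
  ℕ, Lt N U (Nat.land (Nat.shiftRight lam k18) mu) (w lam 18 + o)) (Hd19 : ∀ lam : ℕ, Lt N U (Nat.land
  (Nat.shiftRight lam k19) mu) (w lam 19 + o)) (Hd20 : ∀ lam : ℕ, Lt N U (Nat.land (Nat.shiftRight lam
  k20) mu) (w lam 20 + o)) (Hd21 : ∀ lam : ℕ, Lt N U (Nat.land (Nat.shiftRight lam k21) mu) (w lam 21 +
  o)) (Hd22 : ∀ lam : ℕ, Lt N U (Nat.land (Nat.shiftRight lam k22) mu) (w lam 22 + o)) (Hd23 : ∀ lam :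
  ℕ, Lt N U (Nat.land (Nat.shiftRight lam k23) mu) (w lam 23 + o)) (Hd24 : ∀ lam : ℕ, Lt N U (Nat.land
  (Nat.shiftRight lam k24) mu) (w lam 24 + o)) (Hd25 : ∀ lam : ℕ, Lt N U (Nat.land (Nat.shiftRight lam
  k25) mu) (w lam 25 + o)) (Hd26 : ∀ lam : ℕ, Lt N U (Nat.land (Nat.shiftRight lam k26) mu) (w lam 26 +
  o)) (Hd27 : ∀ lam : ℕ, Lt N U (Nat.land (Nat.shiftRight lam k27) mu) (w lam 27 + o)) (Hd28 : ∀ lam :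
  ℕ, Lt N U (Nat.land (Nat.shiftRight lam k28) mu) (w lam 28 + o)) (Hd29 : ∀ lam : ℕ, Lt N U (Nat.land
  (Nat.shiftRight lam k29) mu) (w lam 29 + o)) (Hd30 : ∀ lam : ℕ, Lt N U (Nat.land (Nat.shiftRight lam
  k30) mu) (w lam 30 + o)) (Hd31 : ∀ lam : ℕ, Lt N U (Nat.land (Nat.shiftRight lam k31) mu) (w lam 31 +
  o)) (Hd32 : ∀ lam : ℕ, Lt N U (Nat.land (Nat.shiftRight lam k32) mu) (w lam 32 + o)) (Hd33 : ∀ lam :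
  ℕ, Lt N U (Nat.land (Nat.shiftRight lam k33) mu) (w lam 33 + o)) (Hd34 : ∀ lam : ℕ, Lt N U (Nat.land
  (Nat.shiftRight lam k34) mu) (w lam 34 + o)) (Hd35 : ∀ lam : ℕ, Lt N U (Nat.land (Nat.shiftRight lam
  k35) mu) (w lam 35 + o)) (Hd36 : ∀ lam : ℕ, Lt N U (Nat.land (Nat.shiftRight lam k36) mu) (w lam 36 +
  o)) (Hd37 : ∀ lam : ℕ, Lt N U (Nat.land (Nat.shiftRight lam k37) mu) (w lam 37 + o)) (Hd38 : ∀ lam :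
  ℕ, Lt N U (Nat.land (Nat.shiftRight lam k38) mu) (w lam 38 + o)) (Hd39 : ∀ lam : ℕ, Lt N U (Nat.land
  (Nat.shiftRight lam k39) mu) (w lam 39 + o)) (Hd40 : ∀ lam : ℕ, Lt N U (Nat.land (Nat.shiftRight lam
  k40) mu) (w lam 40 + o)) (Hd41 : ∀ lam : ℕ, Lt N U (Nat.land (Nat.shiftRight lam k41) mu) (w lam 41 +
  o)) (Hd42 : ∀ lam : ℕ, Lt N U (Nat.land (Nat.shiftRight lam k42) mu) (w lam 42 + o)) (Hd43 : ∀ lam :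
  ℕ, Lt N U (Nat.land (Nat.shiftRight lam k43) mu) (w lam 43 + o)) (Hd44 : ∀ lam : ℕ, Lt N U (Nat.land
  (Nat.shiftRight lam k44) mu) (w lam 44 + o)) (Hd45 : ∀ lam : ℕ, Lt N U (Nat.land (Nat.shiftRight lam
  k45) mu) (w lam 45 + o)) (Hd46 : ∀ lam : ℕ, Lt N U (Nat.land (Nat.shiftRight lam k46) mu) (w lam 46 +
  o)) (Hd47 : ∀ lam : ℕ, Lt N U (Nat.land (Nat.shiftRight lam k47) mu) (w lam 47 + o)) (Hd48 : ∀ lam :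
  ℕ, Lt N U (Nat.land (Nat.shiftRight lam k48) mu) (w lam 48 + o)) (Hd49 : ∀ lam : ℕ, Lt N U (Nat.land
  (Nat.shiftRight lam k49) mu) (w lam 49 + o)) (Hg00 : Rp N g00 z00) (Hg01 : Rp N g01 z01) (Hg02 : Rp N
  g02 z02) (Hg03 : Rp N g03 z03) (Hg04 : Rp N g04 z04) (Hg11 : Rp N g11 z11) (Hg12 : Rp N g12 z12)
  (Hg13 : Rp N g13 z13) (Hg14 : Rp N g14 z14) (Hg22 : Rp N g22 z22) (Hg23 : Rp N g23 z23) (Hg24 : Rp N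
  g24 z24) (Hg33 : Rp N g33 z33) (Hg34 : Rp N g34 z34) (Hg44 : Rp N g44 z44) (Hp01_12 : Rp N p01_12
  (z01 * z12 - z02 * z11)) (Hp01_13 : Rp N p01_13 (z01 * z13 - z03 * z11)) (Hp01_14 : Rp N p01_14 (z01
  * z14 - z04 * z11)) (Hp02_12 : Rp N p02_12 (z01 * z22 - z02 * z12)) (Hp02_13 : Rp N p02_13 (z01 * z23
  - z03 * z12)) (Hp02_14 : Rp N p02_14 (z01 * z24 - z04 * z12)) (Hp02_23 : Rp N p02_23 (z02 * z23 - z03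
  * z22)) (Hp02_24 : Rp N p02_24 (z02 * z24 - z04 * z22)) (Hp03_12 : Rp N p03_12 (z01 * z23 - z02 *
  z13)) (Hp03_13 : Rp N p03_13 (z01 * z33 - z03 * z13)) (Hp03_14 : Rp N p03_14 (z01 * z34 - z04 * z13))
  (Hp03_23 : Rp N p03_23 (z02 * z33 - z03 * z23)) (Hp03_24 : Rp N p03_24 (z02 * z34 - z04 * z23))
  (Hp03_34 : Rp N p03_34 (z03 * z34 - z04 * z33)) (Hp04_12 : Rp N p04_12 (z01 * z24 - z02 * z14))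
  (Hp04_13 : Rp N p04_13 (z01 * z34 - z03 * z14)) (Hp04_14 : Rp N p04_14 (z01 * z44 - z04 * z14))
  (Hp04_23 : Rp N p04_23 (z02 * z34 - z03 * z24)) (Hp04_24 : Rp N p04_24 (z02 * z44 - z04 * z24))
  (Hp04_34 : Rp N p04_34 (z03 * z44 - z04 * z34)) (Hp12_12 : Rp N p12_12 (z11 * z22 - z12 * z12))
  (Hp12_13 : Rp N p12_13 (z11 * z23 - z13 * z12)) (Hp12_14 : Rp N p12_14 (z11 * z24 - z14 * z12))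
  (Hp12_23 : Rp N p12_23 (z12 * z23 - z13 * z22)) (Hp12_24 : Rp N p12_24 (z12 * z24 - z14 * z22))
  (Hp12_34 : Rp N p12_34 (z13 * z24 - z14 * z23)) (Hp13_13 : Rp N p13_13 (z11 * z33 - z13 * z13))
  (Hp13_14 : Rp N p13_14 (z11 * z34 - z14 * z13)) (Hp13_23 : Rp N p13_23 (z12 * z33 - z13 * z23))
  (Hp13_24 : Rp N p13_24 (z12 * z34 - z14 * z23)) (Hp13_34 : Rp N p13_34 (z13 * z34 - z14 * z33))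
  (Hp14_14 : Rp N p14_14 (z11 * z44 - z14 * z14)) (Hp14_23 : Rp N p14_23 (z12 * z34 - z13 * z24))
  (Hp14_24 : Rp N p14_24 (z12 * z44 - z14 * z24)) (Hp14_34 : Rp N p14_34 (z13 * z44 - z14 * z34))
  (Hp23_23 : Rp N p23_23 (z22 * z33 - z23 * z23)) (Hp23_24 : Rp N p23_24 (z22 * z34 - z24 * z23))
  (Hp23_34 : Rp N p23_34 (z23 * z34 - z24 * z33)) (Hp24_24 : Rp N p24_24 (z22 * z44 - z24 * z24))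
  (Hp24_34 : Rp N p24_34 (z23 * z44 - z24 * z34)) (Hp34_34 : Rp N p34_34 (z33 * z44 - z34 * z34)) {k :
  (ℕ → ℕ) → Bool} (h : tB k M N2 KN mu off k1 k2 k3 k4 k5 k6 k7 k8 k9 k10 k11 k12 k13 k14 k15 k16 k17
  k18 k19 k20 k21 k22 k23 k24 k25 k26 k27 k28 k29 k30 k31 k32 k33 k34 k35 k36 k37 k38 k39 k40 k41 k42
  k43 k44 k45 k46 k47 k48 k49 g00 g01 g02 g03 g04 g11 g12 g13 g14 g22 g23 g24 g33 g34 g44 p01_12 p01_13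
  p01_14 p02_12 p02_13 p02_14 p02_23 p02_24 p03_12 p03_13 p03_14 p03_23 p03_24 p03_34 p04_12 p04_13
  p04_14 p04_23 p04_24 p04_34 p12_12 p12_13 p12_14 p12_23 p12_24 p12_34 p13_13 p13_14 p13_23 p13_24
  p13_34 p14_14 p14_23 p14_24 p14_34 p23_23 p23_24 p23_34 p24_24 p24_34 p34_34 = true) : ∃ K : ℕ → ℕ, k
  K = true ∧ ∀ lam : ℕ, Cv N (K lam)  (dsum (w lam) z00 z01 z02 z03 z04 z11 z12 z13 z14 z22 z23 z24 z33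
  z34 z44) := by
  obtain ⟨K, h1, h2⟩ := tC_cv E hK0 hK Ho Hd0 Hd1 Hd2 Hd3 Hd4 Hd5 Hd6 Hd7 Hd8 Hd9 Hd10 Hd11 Hd12 Hd13
    Hd14 Hd15 Hd16 Hd17 Hd18 Hd19 Hd20 Hd21 Hd22 Hd23 Hd24 Hd25 Hd26 Hd27 Hd28 Hd29 Hd30 Hd31 Hd32 Hd33
    Hd34 Hd35 Hd36 Hd37 Hd38 Hd39 Hd40 Hd41 Hd42 Hd43 Hd44 Hd45 Hd46 Hd47 Hd48 Hd49 (Rp.mm E Hg00
    Hp12_12 Hg02 Hp01_12 Hg01 Hp02_12) (Rp.mm E Hg00 Hp12_13 Hg03 Hp01_12 Hg01 Hp03_12) (Rp.mm E Hg00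
    Hp12_14 Hg04 Hp01_12 Hg01 Hp04_12) (Rp.mm E Hg00 Hp12_23 Hg03 Hp02_12 Hg02 Hp03_12) (Rp.mm E Hg00
    Hp12_24 Hg04 Hp02_12 Hg02 Hp04_12) (Rp.mm E Hg00 Hp12_34 Hg04 Hp03_12 Hg03 Hp04_12) (Rp.mm E Hg01
    Hp12_23 Hg03 Hp12_12 Hg02 Hp12_13) (Rp.mm E Hg01 Hp12_24 Hg04 Hp12_12 Hg02 Hp12_14) (Rp.mm E Hg01
    Hp12_34 Hg04 Hp12_13 Hg03 Hp12_14) (Rp.mm E Hg02 Hp12_34 Hg04 Hp12_23 Hg03 Hp12_24) (Rp.mm E Hg00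
    Hp13_13 Hg03 Hp01_13 Hg01 Hp03_13) (Rp.mm E Hg00 Hp13_14 Hg04 Hp01_13 Hg01 Hp04_13) (Rp.mm E Hg00
    Hp13_23 Hg03 Hp02_13 Hg02 Hp03_13) (Rp.mm E Hg00 Hp13_24 Hg04 Hp02_13 Hg02 Hp04_13) (Rp.mm E Hg00
    Hp13_34 Hg04 Hp03_13 Hg03 Hp04_13) (Rp.mm E Hg01 Hp13_23 Hg03 Hp12_13 Hg02 Hp13_13) (Rp.mm E Hg01
    Hp13_24 Hg04 Hp12_13 Hg02 Hp13_14) (Rp.mm E Hg01 Hp13_34 Hg04 Hp13_13 Hg03 Hp13_14) (Rp.mm E Hg02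
    Hp13_34 Hg04 Hp13_23 Hg03 Hp13_24) (Rp.mm E Hg00 Hp14_14 Hg04 Hp01_14 Hg01 Hp04_14) (Rp.mm E Hg00
    Hp14_24 Hg04 Hp02_14 Hg02 Hp04_14) (Rp.mm E Hg00 Hp14_34 Hg04 Hp03_14 Hg03 Hp04_14) (Rp.mm E Hg01
    Hp14_24 Hg04 Hp12_14 Hg02 Hp14_14) (Rp.mm E Hg01 Hp14_34 Hg04 Hp13_14 Hg03 Hp14_14) (Rp.mm E Hg02
    Hp14_34 Hg04 Hp14_23 Hg03 Hp14_24) (Rp.mm E Hg00 Hp23_23 Hg03 Hp02_23 Hg02 Hp03_23) (Rp.mm E Hg00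
    Hp23_24 Hg04 Hp02_23 Hg02 Hp04_23) (Rp.mm E Hg00 Hp23_34 Hg04 Hp03_23 Hg03 Hp04_23) (Rp.mm E Hg01
    Hp23_23 Hg03 Hp12_23 Hg02 Hp13_23) (Rp.mm E Hg01 Hp23_24 Hg04 Hp12_23 Hg02 Hp14_23) (Rp.mm E Hg01
    Hp23_34 Hg04 Hp13_23 Hg03 Hp14_23) (Rp.mm E Hg02 Hp23_34 Hg04 Hp23_23 Hg03 Hp23_24) (Rp.mm E Hg00
    Hp24_24 Hg04 Hp02_24 Hg02 Hp04_24) (Rp.mm E Hg00 Hp24_34 Hg04 Hp03_24 Hg03 Hp04_24) (Rp.mm E Hg01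
    Hp24_24 Hg04 Hp12_24 Hg02 Hp14_24) (Rp.mm E Hg01 Hp24_34 Hg04 Hp13_24 Hg03 Hp14_24) (Rp.mm E Hg02
    Hp24_34 Hg04 Hp23_24 Hg03 Hp24_24) (Rp.mm E Hg00 Hp34_34 Hg04 Hp03_34 Hg03 Hp04_34) (Rp.mm E Hg01
    Hp34_34 Hg04 Hp13_34 Hg03 Hp14_34) (Rp.mm E Hg02 Hp34_34 Hg04 Hp23_34 Hg03 Hp24_34) (Rp.mm E Hg11
    Hp23_23 Hg13 Hp12_23 Hg12 Hp13_23) (Rp.mm E Hg11 Hp23_24 Hg14 Hp12_23 Hg12 Hp14_23) (Rp.mm E Hg11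
    Hp23_34 Hg14 Hp13_23 Hg13 Hp14_23) (Rp.mm E Hg12 Hp23_34 Hg14 Hp23_23 Hg13 Hp23_24) (Rp.mm E Hg11
    Hp24_24 Hg14 Hp12_24 Hg12 Hp14_24) (Rp.mm E Hg11 Hp24_34 Hg14 Hp13_24 Hg13 Hp14_24) (Rp.mm E Hg12
    Hp24_34 Hg14 Hp23_24 Hg13 Hp24_24) (Rp.mm E Hg11 Hp34_34 Hg14 Hp13_34 Hg13 Hp14_34) (Rp.mm E Hg12
    Hp34_34 Hg14 Hp23_34 Hg13 Hp24_34) (Rp.mm E Hg22 Hp34_34 Hg24 Hp23_34 Hg23 Hp24_34) h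
  exact ⟨K, h1, fun lam => (h2 lam).congr (dsum_eq2 (w lam) z00 z01 z02 z03 z04 z11 z12 z13 z14 z22 z23 z24 z33 z34 z44)⟩

theorem tA_cv {N M N2 U KN mu off : ℕ} (E : Ev N M N2) (hK0 : (KN : ZMod N) = 0) (hK : 50 * N ≤ KN) {w
  : ℕ → ℕ → ZMod N} {o : ZMod N} (Ho : Cv N off o) {k1 k2 k3 k4 k5 k6 k7 k8 k9 k10 k11 k12 k13 k14 k15
  k16 k17 k18 k19 k20 k21 k22 k23 k24 k25 k26 k27 k28 k29 k30 k31 k32 k33 k34 k35 k36 k37 k38 k39 k40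
  k41 k42 k43 k44 k45 k46 k47 k48 k49 : ℕ} {g00 g01 g02 g03 g04 g11 g12 g13 g14 g22 g23 g24 g33 g34 g44
  : ℕ} {z00 z01 z02 z03 z04 z11 z12 z13 z14 z22 z23 z24 z33 z34 z44 : ZMod N} (Hd0 : ∀ lam : ℕ, Lt N U
  (Nat.land lam mu) (w lam 0 + o)) (Hd1 : ∀ lam : ℕ, Lt N U (Nat.land (Nat.shiftRight lam k1) mu) (w
  lam 1 + o)) (Hd2 : ∀ lam : ℕ, Lt N U (Nat.land (Nat.shiftRight lam k2) mu) (w lam 2 + o)) (Hd3 : ∀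
  lam : ℕ, Lt N U (Nat.land (Nat.shiftRight lam k3) mu) (w lam 3 + o)) (Hd4 : ∀ lam : ℕ, Lt N U
  (Nat.land (Nat.shiftRight lam k4) mu) (w lam 4 + o)) (Hd5 : ∀ lam : ℕ, Lt N U (Nat.land
  (Nat.shiftRight lam k5) mu) (w lam 5 + o)) (Hd6 : ∀ lam : ℕ, Lt N U (Nat.land (Nat.shiftRight lam k6)
  mu) (w lam 6 + o)) (Hd7 : ∀ lam : ℕ, Lt N U (Nat.land (Nat.shiftRight lam k7) mu) (w lam 7 + o)) (Hd8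
  : ∀ lam : ℕ, Lt N U (Nat.land (Nat.shiftRight lam k8) mu) (w lam 8 + o)) (Hd9 : ∀ lam : ℕ, Lt N U
  (Nat.land (Nat.shiftRight lam k9) mu) (w lam 9 + o)) (Hd10 : ∀ lam : ℕ, Lt N U (Nat.land
  (Nat.shiftRight lam k10) mu) (w lam 10 + o)) (Hd11 : ∀ lam : ℕ, Lt N U (Nat.land (Nat.shiftRight lam
  k11) mu) (w lam 11 + o)) (Hd12 : ∀ lam : ℕ, Lt N U (Nat.land (Nat.shiftRight lam k12) mu) (w lam 12 +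
  o)) (Hd13 : ∀ lam : ℕ, Lt N U (Nat.land (Nat.shiftRight lam k13) mu) (w lam 13 + o)) (Hd14 : ∀ lam :
  ℕ, Lt N U (Nat.land (Nat.shiftRight lam k14) mu) (w lam 14 + o)) (Hd15 : ∀ lam : ℕ, Lt N U (Nat.land
  (Nat.shiftRight lam k15) mu) (w lam 15 + o)) (Hd16 : ∀ lam : ℕ, Lt N U (Nat.land (Nat.shiftRight lam
  k16) mu) (w lam 16 + o)) (Hd17 : ∀ lam : ℕ, Lt N U (Nat.land (Nat.shiftRight lam k17) mu) (w lam 17 +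
  o)) (Hd18 : ∀ lam : ℕ, Lt N U (Nat.land (Nat.shiftRight lam k18) mu) (w lam 18 + o)) (Hd19 : ∀ lam :
  ℕ, Lt N U (Nat.land (Nat.shiftRight lam k19) mu) (w lam 19 + o)) (Hd20 : ∀ lam : ℕ, Lt N U (Nat.land
  (Nat.shiftRight lam k20) mu) (w lam 20 + o)) (Hd21 : ∀ lam : ℕ, Lt N U (Nat.land (Nat.shiftRight lam
  k21) mu) (w lam 21 + o)) (Hd22 : ∀ lam : ℕ, Lt N U (Nat.land (Nat.shiftRight lam k22) mu) (w lam 22 +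
  o)) (Hd23 : ∀ lam : ℕ, Lt N U (Nat.land (Nat.shiftRight lam k23) mu) (w lam 23 + o)) (Hd24 : ∀ lam :
  ℕ, Lt N U (Nat.land (Nat.shiftRight lam k24) mu) (w lam 24 + o)) (Hd25 : ∀ lam : ℕ, Lt N U (Nat.land
  (Nat.shiftRight lam k25) mu) (w lam 25 + o)) (Hd26 : ∀ lam : ℕ, Lt N U (Nat.land (Nat.shiftRight lam
  k26) mu) (w lam 26 + o)) (Hd27 : ∀ lam : ℕ, Lt N U (Nat.land (Nat.shiftRight lam k27) mu) (w lam 27 +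
  o)) (Hd28 : ∀ lam : ℕ, Lt N U (Nat.land (Nat.shiftRight lam k28) mu) (w lam 28 + o)) (Hd29 : ∀ lam :
  ℕ, Lt N U (Nat.land (Nat.shiftRight lam k29) mu) (w lam 29 + o)) (Hd30 : ∀ lam : ℕ, Lt N U (Nat.land
  (Nat.shiftRight lam k30) mu) (w lam 30 + o)) (Hd31 : ∀ lam : ℕ, Lt N U (Nat.land (Nat.shiftRight lam
  k31) mu) (w lam 31 + o)) (Hd32 : ∀ lam : ℕ, Lt N U (Nat.land (Nat.shiftRight lam k32) mu) (w lam 32 +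
  o)) (Hd33 : ∀ lam : ℕ, Lt N U (Nat.land (Nat.shiftRight lam k33) mu) (w lam 33 + o)) (Hd34 : ∀ lam :
  ℕ, Lt N U (Nat.land (Nat.shiftRight lam k34) mu) (w lam 34 + o)) (Hd35 : ∀ lam : ℕ, Lt N U (Nat.land
  (Nat.shiftRight lam k35) mu) (w lam 35 + o)) (Hd36 : ∀ lam : ℕ, Lt N U (Nat.land (Nat.shiftRight lam
  k36) mu) (w lam 36 + o)) (Hd37 : ∀ lam : ℕ, Lt N U (Nat.land (Nat.shiftRight lam k37) mu) (w lam 37 +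
  o)) (Hd38 : ∀ lam : ℕ, Lt N U (Nat.land (Nat.shiftRight lam k38) mu) (w lam 38 + o)) (Hd39 : ∀ lam :
  ℕ, Lt N U (Nat.land (Nat.shiftRight lam k39) mu) (w lam 39 + o)) (Hd40 : ∀ lam : ℕ, Lt N U (Nat.land
  (Nat.shiftRight lam k40) mu) (w lam 40 + o)) (Hd41 : ∀ lam : ℕ, Lt N U (Nat.land (Nat.shiftRight lam
  k41) mu) (w lam 41 + o)) (Hd42 : ∀ lam : ℕ, Lt N U (Nat.land (Nat.shiftRight lam k42) mu) (w lam 42 +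
  o)) (Hd43 : ∀ lam : ℕ, Lt N U (Nat.land (Nat.shiftRight lam k43) mu) (w lam 43 + o)) (Hd44 : ∀ lam :
  ℕ, Lt N U (Nat.land (Nat.shiftRight lam k44) mu) (w lam 44 + o)) (Hd45 : ∀ lam : ℕ, Lt N U (Nat.land
  (Nat.shiftRight lam k45) mu) (w lam 45 + o)) (Hd46 : ∀ lam : ℕ, Lt N U (Nat.land (Nat.shiftRight lam
  k46) mu) (w lam 46 + o)) (Hd47 : ∀ lam : ℕ, Lt N U (Nat.land (Nat.shiftRight lam k47) mu) (w lam 47 +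
  o)) (Hd48 : ∀ lam : ℕ, Lt N U (Nat.land (Nat.shiftRight lam k48) mu) (w lam 48 + o)) (Hd49 : ∀ lam :
  ℕ, Lt N U (Nat.land (Nat.shiftRight lam k49) mu) (w lam 49 + o)) (Hg00 : Rp N g00 z00) (Hg01 : Rp N
  g01 z01) (Hg02 : Rp N g02 z02) (Hg03 : Rp N g03 z03) (Hg04 : Rp N g04 z04) (Hg11 : Rp N g11 z11)
  (Hg12 : Rp N g12 z12) (Hg13 : Rp N g13 z13) (Hg14 : Rp N g14 z14) (Hg22 : Rp N g22 z22) (Hg23 : Rp N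
  g23 z23) (Hg24 : Rp N g24 z24) (Hg33 : Rp N g33 z33) (Hg34 : Rp N g34 z34) (Hg44 : Rp N g44 z44) {k :
  (ℕ → ℕ) → Bool} (h : tA k M N2 KN mu off k1 k2 k3 k4 k5 k6 k7 k8 k9 k10 k11 k12 k13 k14 k15 k16 k17
  k18 k19 k20 k21 k22 k23 k24 k25 k26 k27 k28 k29 k30 k31 k32 k33 k34 k35 k36 k37 k38 k39 k40 k41 k42
  k43 k44 k45 k46 k47 k48 k49 g00 g01 g02 g03 g04 g11 g12 g13 g14 g22 g23 g24 g33 g34 g44 = true) : ∃ K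
  : ℕ → ℕ, k K = true ∧ ∀ lam : ℕ, Cv N (K lam)  (dsum (w lam) z00 z01 z02 z03 z04 z11 z12 z13 z14 z22
  z23 z24 z33 z34 z44) := by
  exact tB_cv E hK0 hK Ho Hd0 Hd1 Hd2 Hd3 Hd4 Hd5 Hd6 Hd7 Hd8 Hd9 Hd10 Hd11 Hd12 Hd13 Hd14 Hd15 Hd16
    Hd17 Hd18 Hd19 Hd20 Hd21 Hd22 Hd23 Hd24 Hd25 Hd26 Hd27 Hd28 Hd29 Hd30 Hd31 Hd32 Hd33 Hd34 Hd35 Hd36
    Hd37 Hd38 Hd39 Hd40 Hd41 Hd42 Hd43 Hd44 Hd45 Hd46 Hd47 Hd48 Hd49 Hg00 Hg01 Hg02 Hg03 Hg04 Hg11 Hg12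
    Hg13 Hg14 Hg22 Hg23 Hg24 Hg33 Hg34 Hg44 (Rp.pm E Hg01 Hg12 Hg02 Hg11) (Rp.pm E Hg01 Hg13 Hg03 Hg11)
    (Rp.pm E Hg01 Hg14 Hg04 Hg11) (Rp.pm E Hg01 Hg22 Hg02 Hg12) (Rp.pm E Hg01 Hg23 Hg03 Hg12) (Rp.pm E
    Hg01 Hg24 Hg04 Hg12) (Rp.pm E Hg02 Hg23 Hg03 Hg22) (Rp.pm E Hg02 Hg24 Hg04 Hg22) (Rp.pm E Hg01 Hg23
    Hg02 Hg13) (Rp.pm E Hg01 Hg33 Hg03 Hg13) (Rp.pm E Hg01 Hg34 Hg04 Hg13) (Rp.pm E Hg02 Hg33 Hg03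
    Hg23) (Rp.pm E Hg02 Hg34 Hg04 Hg23) (Rp.pm E Hg03 Hg34 Hg04 Hg33) (Rp.pm E Hg01 Hg24 Hg02 Hg14)
    (Rp.pm E Hg01 Hg34 Hg03 Hg14) (Rp.pm E Hg01 Hg44 Hg04 Hg14) (Rp.pm E Hg02 Hg34 Hg03 Hg24) (Rp.pm E
    Hg02 Hg44 Hg04 Hg24) (Rp.pm E Hg03 Hg44 Hg04 Hg34) (Rp.pm E Hg11 Hg22 Hg12 Hg12) (Rp.pm E Hg11 Hg23
    Hg13 Hg12) (Rp.pm E Hg11 Hg24 Hg14 Hg12) (Rp.pm E Hg12 Hg23 Hg13 Hg22) (Rp.pm E Hg12 Hg24 Hg14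
    Hg22) (Rp.pm E Hg13 Hg24 Hg14 Hg23) (Rp.pm E Hg11 Hg33 Hg13 Hg13) (Rp.pm E Hg11 Hg34 Hg14 Hg13)
    (Rp.pm E Hg12 Hg33 Hg13 Hg23) (Rp.pm E Hg12 Hg34 Hg14 Hg23) (Rp.pm E Hg13 Hg34 Hg14 Hg33) (Rp.pm E
    Hg11 Hg44 Hg14 Hg14) (Rp.pm E Hg12 Hg34 Hg13 Hg24) (Rp.pm E Hg12 Hg44 Hg14 Hg24) (Rp.pm E Hg13 Hg44
    Hg14 Hg34) (Rp.pm E Hg22 Hg33 Hg23 Hg23) (Rp.pm E Hg22 Hg34 Hg24 Hg23) (Rp.pm E Hg23 Hg34 Hg24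
    Hg33) (Rp.pm E Hg22 Hg44 Hg24 Hg24) (Rp.pm E Hg23 Hg44 Hg24 Hg34) (Rp.pm E Hg33 Hg44 Hg34 Hg34) h

theorem tM_cv {N M N2 U KN mu off : ℕ} (E : Ev N M N2) (hK0 : (KN : ZMod N) = 0) (hK : 50 * N ≤ KN) {w
  : ℕ → ℕ → ZMod N} {o : ZMod N} (Ho : Cv N off o) {k1 k2 k3 k4 k5 k6 k7 k8 k9 k10 k11 k12 k13 k14 k15
  k16 k17 k18 k19 k20 k21 k22 k23 k24 k25 k26 k27 k28 k29 k30 k31 k32 k33 k34 k35 k36 k37 k38 k39 k40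
  k41 k42 k43 k44 k45 k46 k47 k48 k49 : ℕ} {x01 x02 x12 x03 x13 x23 x04 x14 x24 x34 x05 x15 x25 x35 x45
  : ℕ} {f01 f02 f12 f03 f13 f23 f04 f14 f24 f34 f05 f15 f25 f35 f45 : ZMod N} (Hd0 : ∀ lam : ℕ, Lt N U
  (Nat.land lam mu) (w lam 0 + o)) (Hd1 : ∀ lam : ℕ, Lt N U (Nat.land (Nat.shiftRight lam k1) mu) (w
  lam 1 + o)) (Hd2 : ∀ lam : ℕ, Lt N U (Nat.land (Nat.shiftRight lam k2) mu) (w lam 2 + o)) (Hd3 : ∀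
  lam : ℕ, Lt N U (Nat.land (Nat.shiftRight lam k3) mu) (w lam 3 + o)) (Hd4 : ∀ lam : ℕ, Lt N U
  (Nat.land (Nat.shiftRight lam k4) mu) (w lam 4 + o)) (Hd5 : ∀ lam : ℕ, Lt N U (Nat.land
  (Nat.shiftRight lam k5) mu) (w lam 5 + o)) (Hd6 : ∀ lam : ℕ, Lt N U (Nat.land (Nat.shiftRight lam k6)
  mu) (w lam 6 + o)) (Hd7 : ∀ lam : ℕ, Lt N U (Nat.land (Nat.shiftRight lam k7) mu) (w lam 7 + o)) (Hd8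
  : ∀ lam : ℕ, Lt N U (Nat.land (Nat.shiftRight lam k8) mu) (w lam 8 + o)) (Hd9 : ∀ lam : ℕ, Lt N U
  (Nat.land (Nat.shiftRight lam k9) mu) (w lam 9 + o)) (Hd10 : ∀ lam : ℕ, Lt N U (Nat.land
  (Nat.shiftRight lam k10) mu) (w lam 10 + o)) (Hd11 : ∀ lam : ℕ, Lt N U (Nat.land (Nat.shiftRight lam
  k11) mu) (w lam 11 + o)) (Hd12 : ∀ lam : ℕ, Lt N U (Nat.land (Nat.shiftRight lam k12) mu) (w lam 12 +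
  o)) (Hd13 : ∀ lam : ℕ, Lt N U (Nat.land (Nat.shiftRight lam k13) mu) (w lam 13 + o)) (Hd14 : ∀ lam :
  ℕ, Lt N U (Nat.land (Nat.shiftRight lam k14) mu) (w lam 14 + o)) (Hd15 : ∀ lam : ℕ, Lt N U (Nat.land
  (Nat.shiftRight lam k15) mu) (w lam 15 + o)) (Hd16 : ∀ lam : ℕ, Lt N U (Nat.land (Nat.shiftRight lam
  k16) mu) (w lam 16 + o)) (Hd17 : ∀ lam : ℕ, Lt N U (Nat.land (Nat.shiftRight lam k17) mu) (w lam 17 +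
  o)) (Hd18 : ∀ lam : ℕ, Lt N U (Nat.land (Nat.shiftRight lam k18) mu) (w lam 18 + o)) (Hd19 : ∀ lam :
  ℕ, Lt N U (Nat.land (Nat.shiftRight lam k19) mu) (w lam 19 + o)) (Hd20 : ∀ lam : ℕ, Lt N U (Nat.land
  (Nat.shiftRight lam k20) mu) (w lam 20 + o)) (Hd21 : ∀ lam : ℕ, Lt N U (Nat.land (Nat.shiftRight lam
  k21) mu) (w lam 21 + o)) (Hd22 : ∀ lam : ℕ, Lt N U (Nat.land (Nat.shiftRight lam k22) mu) (w lam 22 +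
  o)) (Hd23 : ∀ lam : ℕ, Lt N U (Nat.land (Nat.shiftRight lam k23) mu) (w lam 23 + o)) (Hd24 : ∀ lam :
  ℕ, Lt N U (Nat.land (Nat.shiftRight lam k24) mu) (w lam 24 + o)) (Hd25 : ∀ lam : ℕ, Lt N U (Nat.land
  (Nat.shiftRight lam k25) mu) (w lam 25 + o)) (Hd26 : ∀ lam : ℕ, Lt N U (Nat.land (Nat.shiftRight lam
  k26) mu) (w lam 26 + o)) (Hd27 : ∀ lam : ℕ, Lt N U (Nat.land (Nat.shiftRight lam k27) mu) (w lam 27 +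
  o)) (Hd28 : ∀ lam : ℕ, Lt N U (Nat.land (Nat.shiftRight lam k28) mu) (w lam 28 + o)) (Hd29 : ∀ lam :
  ℕ, Lt N U (Nat.land (Nat.shiftRight lam k29) mu) (w lam 29 + o)) (Hd30 : ∀ lam : ℕ, Lt N U (Nat.land
  (Nat.shiftRight lam k30) mu) (w lam 30 + o)) (Hd31 : ∀ lam : ℕ, Lt N U (Nat.land (Nat.shiftRight lam
  k31) mu) (w lam 31 + o)) (Hd32 : ∀ lam : ℕ, Lt N U (Nat.land (Nat.shiftRight lam k32) mu) (w lam 32 +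
  o)) (Hd33 : ∀ lam : ℕ, Lt N U (Nat.land (Nat.shiftRight lam k33) mu) (w lam 33 + o)) (Hd34 : ∀ lam :
  ℕ, Lt N U (Nat.land (Nat.shiftRight lam k34) mu) (w lam 34 + o)) (Hd35 : ∀ lam : ℕ, Lt N U (Nat.land
  (Nat.shiftRight lam k35) mu) (w lam 35 + o)) (Hd36 : ∀ lam : ℕ, Lt N U (Nat.land (Nat.shiftRight lam
  k36) mu) (w lam 36 + o)) (Hd37 : ∀ lam : ℕ, Lt N U (Nat.land (Nat.shiftRight lam k37) mu) (w lam 37 +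
  o)) (Hd38 : ∀ lam : ℕ, Lt N U (Nat.land (Nat.shiftRight lam k38) mu) (w lam 38 + o)) (Hd39 : ∀ lam :
  ℕ, Lt N U (Nat.land (Nat.shiftRight lam k39) mu) (w lam 39 + o)) (Hd40 : ∀ lam : ℕ, Lt N U (Nat.land
  (Nat.shiftRight lam k40) mu) (w lam 40 + o)) (Hd41 : ∀ lam : ℕ, Lt N U (Nat.land (Nat.shiftRight lam
  k41) mu) (w lam 41 + o)) (Hd42 : ∀ lam : ℕ, Lt N U (Nat.land (Nat.shiftRight lam k42) mu) (w lam 42 +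
  o)) (Hd43 : ∀ lam : ℕ, Lt N U (Nat.land (Nat.shiftRight lam k43) mu) (w lam 43 + o)) (Hd44 : ∀ lam :
  ℕ, Lt N U (Nat.land (Nat.shiftRight lam k44) mu) (w lam 44 + o)) (Hd45 : ∀ lam : ℕ, Lt N U (Nat.land
  (Nat.shiftRight lam k45) mu) (w lam 45 + o)) (Hd46 : ∀ lam : ℕ, Lt N U (Nat.land (Nat.shiftRight lam
  k46) mu) (w lam 46 + o)) (Hd47 : ∀ lam : ℕ, Lt N U (Nat.land (Nat.shiftRight lam k47) mu) (w lam 47 +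
  o)) (Hd48 : ∀ lam : ℕ, Lt N U (Nat.land (Nat.shiftRight lam k48) mu) (w lam 48 + o)) (Hd49 : ∀ lam :
  ℕ, Lt N U (Nat.land (Nat.shiftRight lam k49) mu) (w lam 49 + o)) (Hx01 : Rp N x01 f01) (Hx02 : Rp N
  x02 f02) (Hx12 : Rp N x12 f12) (Hx03 : Rp N x03 f03) (Hx13 : Rp N x13 f13) (Hx23 : Rp N x23 f23)
  (Hx04 : Rp N x04 f04) (Hx14 : Rp N x14 f14) (Hx24 : Rp N x24 f24) (Hx34 : Rp N x34 f34) (Hx05 : Rp N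
  x05 f05) (Hx15 : Rp N x15 f15) (Hx25 : Rp N x25 f25) (Hx35 : Rp N x35 f35) (Hx45 : Rp N x45 f45)
  (hDx01 : 2 * x01 < N) (hDx02 : 2 * x02 < N) (hDx03 : 2 * x03 < N) (hDx04 : 2 * x04 < N) (hDx05 : 2 *
  x05 < N) {k : (ℕ → ℕ) → Bool} (h : tM k N M N2 KN mu off k1 k2 k3 k4 k5 k6 k7 k8 k9 k10 k11 k12 k13
  k14 k15 k16 k17 k18 k19 k20 k21 k22 k23 k24 k25 k26 k27 k28 k29 k30 k31 k32 k33 k34 k35 k36 k37 k38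
  k39 k40 k41 k42 k43 k44 k45 k46 k47 k48 k49 x01 x02 x12 x03 x13 x23 x04 x14 x24 x34 x05 x15 x25 x35
  x45 = true) : ∃ K : ℕ → ℕ, k K = true ∧ ∀ lam : ℕ, Cv N (K lam)  (dsum (w lam) (2 * f01) (f01 + f02 -
  f12) (f01 + f03 - f13) (f01 + f04 - f14) (f01 + f05 - f15) (2 * f02) (f02 + f03 - f23) (f02 + f04 -
  f24) (f02 + f05 - f25) (2 * f03) (f03 + f04 - f34) (f03 + f05 - f35) (2 * f04) (f04 + f05 - f45) (2 *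
  f05)) := by
  exact tA_cv E hK0 hK Ho Hd0 Hd1 Hd2 Hd3 Hd4 Hd5 Hd6 Hd7 Hd8 Hd9 Hd10 Hd11 Hd12 Hd13 Hd14 Hd15 Hd16
    Hd17 Hd18 Hd19 Hd20 Hd21 Hd22 Hd23 Hd24 Hd25 Hd26 Hd27 Hd28 Hd29 Hd30 Hd31 Hd32 Hd33 Hd34 Hd35 Hd36
    Hd37 Hd38 Hd39 Hd40 Hd41 Hd42 Hd43 Hd44 Hd45 Hd46 Hd47 Hd48 Hd49 (Rp.dd hDx01 (Hx01).1) (Rp.gm E
    (Hx01).1 (Hx02).1 Hx12) (Rp.gm E (Hx01).1 (Hx03).1 Hx13) (Rp.gm E (Hx01).1 (Hx04).1 Hx14) (Rp.gm E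
    (Hx01).1 (Hx05).1 Hx15) (Rp.dd hDx02 (Hx02).1) (Rp.gm E (Hx02).1 (Hx03).1 Hx23) (Rp.gm E (Hx02).1
    (Hx04).1 Hx24) (Rp.gm E (Hx02).1 (Hx05).1 Hx25) (Rp.dd hDx03 (Hx03).1) (Rp.gm E (Hx03).1 (Hx04).1
    Hx34) (Rp.gm E (Hx03).1 (Hx05).1 Hx35) (Rp.dd hDx04 (Hx04).1) (Rp.gm E (Hx04).1 (Hx05).1 Hx45)
    (Rp.dd hDx05 (Hx05).1) h

end Pool.Agent.Lib.EPS9
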