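import Pool.Agent.Lib.MP_c7e7f6_eps.ExtWord

/-!
Extension of the colourings of six points: the three missing pairs are disjoint.
-/

set_option autoImplicit false
set_option linter.unusedVariables false

namespace Pool.Agent.Lib.EPS9

open Finset

/-- cases of a tag -/
theorem tgs {A : Bool} {F : ℕ → Bool → Bool} {n : ℕ}
    (h : Nat.rec (motive := fun _ => Bool) A F n = true) : A = true ∨ ∃ t b, F t b = true := by
  cases n with
  | zero => exact Or.inl h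
  | succ n => exact Or.inr ⟨n, _, h⟩

section

variable {KT : Kt} {RW NR : ℕ} {ι : Type} {D : ι → ι → ℝ} {x : Fin 6 → ℝ} {c : ι → ι → ℕ}

/-- `i` is the smallest number of a set of six points -/
def MinI (RW i : ℕ) (c : ι → ι → ℕ) : Prop := ∀ (p : Fin 6 → ι) (j : ℕ), Full c p → Iso RW j c p → i ≤ j

theorem MinI.mn {i : ℕ} (h : MinI RW i c) (f : ℕ → ι) (a : ℕ) (P : ι) : Mn RW i c f a P :=
  fun p' h1 _ _ j h2 => h p' j h1 h2

/-- the point `P` has the codes `v` and is not joined to the point number `a` -/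
structure AP (c : ι → ι → ℕ) (f : ℕ → ι) (P : ι) (a v : ℕ) : Prop where
  la : a < 6
  ne : ∀ b, b < 6 → P ≠ f b
  z : c P (f a) = 0
  nz : ∀ b, b < 6 → b ≠ a → c P (f b) ≠ 0
  vp : Vp c v 6 P f

theorem AP.vne {f : ℕ → ι} {P : ι} {a v : ℕ} (h : AP c f P a v) : a + 8 * v ≠ 0 := by
  intro h1
  have h2 : v = 0 := by omega
  have h3 := h.vp
  rw [h2] at h3
  rcases Nat.eq_zero_or_pos a with h4 | h4
  · apply h.nz 1 (by norm_num) (by omega)
    have := h3 1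
    rw [fld_zero', if_pos (by norm_num)] at this
    exact this.symm
  · apply h.nz 0 (by norm_num) (by omega)
    have := h3 0
    rw [fld_zero', if_pos (by norm_num)] at this
    exact this.symm

theorem AP.dec {f : ℕ → ι} {P : ι} {a v : ℕ} (h : AP c f P a v) {R : ℕ}
    (hR : R % 2 ^ 21 = a + 8 * v) : Nat.land R 7 = a ∧
      Nat.land (Nat.shiftRight R 3) (msk 18) = v :=
  ent_dec (n := 6) hR (by have := h.la; omega) h.vp.lt

theorem a1_sound (hE : EAll KT RW NR) (hNR : NR ≤ 16384) (hK0 : KT.lk 0 = 0) (hP : Pc D x c)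
    {w : ℕ} {f : ℕ → ι} (hw : Tb c w 6 f) (hf : Fu c f) {LT : ℕ → ℕ → Bool} (hLT : LTs LT c f)
    {i : ℕ} (hmin : MinI RW i c) {alts : ℕ} {t : Tr} (h : a1 KT LT i w alts t 0 = true) {P : ι}
    {a : ℕ} (ha : a < 6) (hne : ∀ b, b < 6 → P ≠ f b) (hz : c P (f a) = 0)
    (hnz : ∀ b, b < 6 → b ≠ a → c P (f b) ≠ 0) :
    ∃ m v, alts / 2 ^ (21 * m) % 2 ^ 21 = a + 8 * v ∧ AP c f P a v := by
  have h0 : cntr 6 (fun p l a => (fun q => cnd (Nat.beq (Nat.land (Nat.shiftRight q 90) 15)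
      (Nat.mul 3 a)) ((fun L => isZ L false (a1L LT i w alts (Nat.shiftRight q 90) a l L))
        (KT.lk (w10 w q)))) (pw p)) t 0 = true := h
  obtain ⟨p, l, h1⟩ := cntr_spec t 0 h0 a (Nat.zero_le _) ha
  obtain ⟨h2, h3⟩ := cnd_true (show cnd (Nat.beq (Nat.land (Nat.shiftRight (pw p) 90) 15)
    (Nat.mul 3 a)) (isZ (KT.lk (w10 w (pw p))) false (a1L LT i w alts (Nat.shiftRight (pw p) 90) a l
      (KT.lk (w10 w (pw p))))) = true from h1)
  obtain ⟨hL, h4⟩ := isZ_true h3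
  obtain ⟨τ, hτ⟩ := perm_of hK0 hP hw hL
  have h5 : τ 5 = a := by
    have h6 := Nat.eq_of_beq_eq_true h2
    rw [hτ.last] at h6
    have h7 : 3 * τ 5 = 3 * a := h6
    omega
  obtain ⟨k, j, hk, h6, hEnt⟩ := entry hE hNR hP hw hf hτ hL (P := P) (by rw [h5]; exact hnz)
  have h7 : lst 30 (fun p' _ L =>
      ((fun v => Nat.rec (Nat.ble (Nat.add (Nat.land (Nat.shiftRight L 15) 16383) 1) i)
          (fun t _ => Nat.rec (LT (addv w 6 v) (Nat.shiftRight p' 3))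
          (fun t _ => Nat.rec (Nat.beq
              (Nat.land (Nat.shiftRight alts (Nat.mul 21 (Nat.shiftRight p' 3))) (msk 21))
              (Nat.add a (Nat.mul 8 v)))
          (fun _ _ => smp (addv w 6 v) (Nat.shiftRight p' 3)) t) t) (Nat.land p' 7))
        (vecOf L (Nat.shiftRight (pw p) 90)) : Bool)) l (KT.lk (w10 w (pw p))) = true := h4
  obtain ⟨p', l', h8⟩ := lst_spec l _ h7 k h6
  have hvp := hEnt.vp (by rw [h5]; exact hz)
  have hT := rp_addv hP.sy (m := 6) (by norm_num) hw hvp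
  have hI : Ij (ups f 6 P) 7 := (hf.ij hP.sy).ups hne
  have h0f : ∀ a < 6, ups f 6 P a = f a := fun a ha => ups_ne f P (by omega)
  rcases tgs h8 with h9 | ⟨_, _, h9⟩
  · exfalso
    have h10 := Nat.le_of_ble_eq_true h9
    rw [hEnt.num] at h10
    have h11 := hmin _ _ hEnt.full hEnt.iso
    have h12 : j + 1 ≤ i := h10
    omega
  rcases tgs h9 with h9 | ⟨_, _, h9⟩
  · exact (hLT _ _ 7 _ h9 hT hI (by norm_num) h0f).elim
  rcases tgs h9 with h9 | ⟨_, _, h9⟩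
  · have h10 := Nat.eq_of_beq_eq_true h9
    refine ⟨Nat.shiftRight p' 3, _, ?_, ha, hne, hz, hnz, hvp⟩
    rw [← shr, ← msk_mod]
    exact h10
  · exact (smp_tb hP hT hI h9).elim

end

/-! ### Nine points -/

section

variable {KT : Kt} {RW NR : ℕ} {ι : Type} {D : ι → ι → ℝ} {x : Fin 6 → ℝ} {c : ι → ι → ℕ}

/-- three points, each joined to all points except one -/
structure CA (c : ι → ι → ℕ) (f : ℕ → ι) (P1 P2 P3 : ι) (k1 k2 k3 v1 v2 v3 : ℕ) : Prop where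
  A1 : AP c f P1 k1 v1
  A2 : AP c f P2 k2 v2
  A3 : AP c f P3 k3 v3
  d12 : c P2 P1 ≠ 0
  d13 : c P3 P1 ≠ 0
  d23 : c P3 P2 ≠ 0
  n12 : k1 ≠ k2
  n13 : k1 ≠ k3
  n23 : k2 ≠ k3

variable {w : ℕ} {f : ℕ → ι} {P1 P2 P3 : ι} {k1 k2 k3 v1 v2 v3 : ℕ}

theorem vp18 (hc : Sy c) {v : ℕ} {P Q : ι} (hv : Vp c v 6 P f) :
    Vp c (Nat.add v (Nat.shiftLeft (c P Q) 18)) 7 P (ups f 6 Q) := by
  have h := vp_snoc hc hv (Q := Q)
  rw [show (3 : ℕ) * 6 = 18 from rfl] at h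
  exact h

theorem vp21 (hc : Sy c) {v : ℕ} {P Q : ι} (hv : Vp c v 7 P f) :
    Vp c (Nat.add v (Nat.shiftLeft (c P Q) 21)) 8 P (ups f 7 Q) := by
  have h := vp_snoc hc hv (Q := Q)
  rw [show (3 : ℕ) * 7 = 21 from rfl] at h
  exact h

theorem CA.t7 (h : CA c f P1 P2 P3 k1 k2 k3 v1 v2 v3) (hc : Sy c) (hw : Tb c w 6 f) :
    Tb c (addv w 6 v1) 7 (ups f 6 P1) := rp_addv hc (by norm_num) hw h.A1.vp

theorem CA.t8 (h : CA c f P1 P2 P3 k1 k2 k3 v1 v2 v3) (hc : Sy c) (hw : Tb c w 6 f) :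
    Tb c (addv (addv w 6 v1) 7 (Nat.add v2 (Nat.shiftLeft (c P2 P1) 18))) 8
      (ups (ups f 6 P1) 7 P2) :=
  rp_addv hc (by norm_num) (h.t7 hc hw) (vp18 hc h.A2.vp)

theorem CA.t9 (h : CA c f P1 P2 P3 k1 k2 k3 v1 v2 v3) (hc : Sy c) (hw : Tb c w 6 f) :
    Tb c (addv (addv (addv w 6 v1) 7 (Nat.add v2 (Nat.shiftLeft (c P2 P1) 18))) 8
      (Nat.add v3 (Nat.add (Nat.shiftLeft (c P3 P1) 18) (Nat.shiftLeft (c P3 P2) 21)))) 9
      (ups (ups (ups f 6 P1) 7 P2) 8 P3) := by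
  refine rp_addv hc (by norm_num) (h.t8 hc hw) ?_
  have h1 := vp21 hc (vp18 hc h.A3.vp (Q := P1)) (Q := P2)
  have h2 : Nat.add v3 (Nat.add (Nat.shiftLeft (c P3 P1) 18) (Nat.shiftLeft (c P3 P2) 21))
      = Nat.add (Nat.add v3 (Nat.shiftLeft (c P3 P1) 18)) (Nat.shiftLeft (c P3 P2) 21) :=
    (Nat.add_assoc _ _ _).symm
  rw [h2]
  exact h1

theorem CA.i9 (h : CA c f P1 P2 P3 k1 k2 k3 v1 v2 v3) (hc : Sy c) (hf : Fu c f) :
    Ij (ups f 6 P1) 7 ∧ Ij (ups (ups f 6 P1) 7 P2) 8 ∧ Ij (ups (ups (ups f 6 P1) 7 P2) 8 P3) 9 := by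
  have n12 : P2 ≠ P1 := fun h1 => h.d12 (by rw [h1, hc.self])
  have n13 : P3 ≠ P1 := fun h1 => h.d13 (by rw [h1, hc.self])
  have n23 : P3 ≠ P2 := fun h1 => h.d23 (by rw [h1, hc.self])
  have h7 : Ij (ups f 6 P1) 7 := (hf.ij hc).ups h.A1.ne
  have h8 : Ij (ups (ups f 6 P1) 7 P2) 8 := by
    refine h7.ups fun i hi => ?_
    rcases Nat.lt_or_ge i 6 with h1 | h1
    · rw [ups_ne f P1 (by omega)]
      exact h.A2.ne i h1
    · have : i = 6 := by omega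
      rw [this, ups_self]
      exact n12
  refine ⟨h7, h8, h8.ups fun i hi => ?_⟩
  rcases Nat.lt_or_ge i 6 with h1 | h1
  · rw [ups_ne _ P2 (by omega), ups_ne f P1 (by omega)]
    exact h.A3.ne i h1
  · rcases Nat.lt_or_ge i 7 with h2 | h2
    · have : i = 6 := by omega
      rw [this, ups_ne _ P2 (by norm_num), ups_self]
      exact n13
    · have : i = 7 := by omega
      rw [this, ups_self]
      exact n23

theorem u6 (P1 P2 P3 : ι) {i : ℕ} (hi : i < 6) : ups (ups (ups f 6 P1) 7 P2) 8 P3 i = f i := by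
  rw [ups_ne _ P3 (by omega), ups_ne _ P2 (by omega), ups_ne f P1 (by omega)]

theorem u66 (P1 P2 P3 : ι) : ups (ups (ups f 6 P1) 7 P2) 8 P3 6 = P1 := by
  rw [ups_ne _ P3 (by omega), ups_ne _ P2 (by omega), ups_self]

theorem u67 (P1 P2 P3 : ι) : ups (ups (ups f 6 P1) 7 P2) 8 P3 7 = P2 := by
  rw [ups_ne _ P3 (by omega), ups_self]

/-- the multiplicities of the nine points -/
theorem qq_sum (f : ℕ → ι) (P1 P2 P3 : ι) (e : ℕ) : qq c (ups (ups (ups f 6 P1) 7 P2) 8 P3) 9 e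
    = qq c f 6 e + rr c f 6 P1 e + (rr c f 6 P2 e + if e = c P2 P1 then 1 else 0)
      + (rr c f 6 P3 e + (if e = c P3 P1 then 1 else 0) + if e = c P3 P2 then 1 else 0) := by
  set g := ups (ups (ups f 6 P1) 7 P2) 8 P3 with hg
  have g6 : g 6 = P1 := u66 P1 P2 P3
  have g7 : g 7 = P2 := u67 P1 P2 P3
  have g8 : g 8 = P3 := ups_self _ _ _
  have q9 : qq c g 9 e = qq c g 6 e + rr c g 6 (g 6) e + rr c g 7 (g 7) e + rr c g 8 (g 8) e := by
    rw [show (9 : ℕ) = 6 + 1 + 1 + 1 from rfl, qq_succ, qq_succ, qq_succ]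
  have r7 : ∀ P, rr c g 7 P e = rr c g 6 P e + if e = c P (g 6) then 1 else 0 := by
    intro P
    rw [show (7 : ℕ) = 6 + 1 from rfl, rr_succ]
  have r8 : ∀ P, rr c g 8 P e = rr c g 6 P e + (if e = c P (g 6) then 1 else 0)
      + if e = c P (g 7) then 1 else 0 := by
    intro P
    rw [show (8 : ℕ) = 6 + 1 + 1 from rfl, rr_succ, rr_succ]
  have k6 : ∀ i < 6, g i = f i := fun i hi => u6 P1 P2 P3 hi
  have q6 := qq_congr (c := c) k6 e
  have r6 := fun P => rr_congr (c := c) k6 P e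
  rw [q9, r7, r8, q6, r6, r6, r6, g6, g7, g8]

theorem CA.or9 (h : CA c f P1 P2 P3 k1 k2 k3 v1 v2 v3) (hP : Pc D x c)
    (hor : D (f k1) P1 = D (f k2) P2 ∨ D (f k1) P1 = D (f k3) P3 ∨ D (f k2) P2 = D (f k3) P3)
    (hw : Tb c w 6 f) (hf : Fu c f) {t : Tr}
    (ht : fin9 (addv (addv (addv w 6 v1) 7 (Nat.add v2 (Nat.shiftLeft (c P2 P1) 18))) 8
      (Nat.add v3 (Nat.add (Nat.shiftLeft (c P3 P1) 18) (Nat.shiftLeft (c P3 P2) 21))))
      (mk2 (3 * k1) 6) (mk2 (3 * k2) 7) (mk2 (3 * k3) 8) t = true) : False := by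
  have hc := hP.sy
  obtain ⟨_, _, I9⟩ := h.i9 hc hf
  have T9 := h.t9 hc hw
  have l1 := h.A1.la
  have l2 := h.A2.la
  have l3 := h.A3.la
  have g1 : ∀ {i : ℕ}, i < 6 → ups (ups (ups f 6 P1) 7 P2) 8 P3 i = f i := fun hi => u6 P1 P2 P3 hi
  have g6 : ups (ups (ups f 6 P1) 7 P2) 8 P3 6 = P1 := u66 P1 P2 P3
  have g7 : ups (ups (ups f 6 P1) 7 P2) 8 P3 7 = P2 := u67 P1 P2 P3
  have g8 : ups (ups (ups f 6 P1) 7 P2) 8 P3 8 = P3 := ups_self _ _ _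
  refine fin9_sound hP T9 I9 (a1 := k1) (b1 := 6) (a2 := k2) (b2 := 7) (a3 := k3) (b3 := 8)
    ⟨by omega, by norm_num, by omega, ?_⟩ ⟨by omega, by norm_num, by omega, ?_⟩
    ⟨by omega, by norm_num, by omega, ?_⟩ (by omega) (by omega) (by omega) ?_ ht
  · rw [g1 l1, g6, hc.symm]
    exact h.A1.z
  · rw [g1 l2, g7, hc.symm]
    exact h.A2.z
  · rw [g1 l3, g8, hc.symm]
    exact h.A3.z
  · rw [g1 l1, g1 l2, g1 l3, g6, g7, g8]
    exact hor

theorem nz_ups {a b : ℕ} {P Q : ι} (h : ∀ i, i < 6 → i ≠ b → c P (f i) ≠ 0) (hQ : c P Q ≠ 0) :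
    ∀ i, i < 6 → i ≠ b → c P (ups f a Q i) ≠ 0 := by
  intro i hi hb
  by_cases h1 : i = a
  · rw [h1, ups_self]
    exact hQ
  · rw [ups_ne f Q h1]
    exact h i hi hb

/-- a replacement is impossible -/
theorem nom_mul (hE : EAll KT RW NR) (hNR : NR ≤ 16384) (hK0 : KT.lk 0 = 0) (hP : Pc D x c)
    {i : ℕ} (hmin : MinI RW i c) {w k p v : ℕ} {f : ℕ → ι} (hw : Tb c w 6 f) (hf : Fu c f)
    (h : nom KT i w (3 * k) p v = true) {P : ι} (hPc : ∀ b, b < 6 → b ≠ k → c P (f b) ≠ 0)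
    (hv : Vp c v 6 P f) : False := by
  obtain ⟨a, ha, h1, h2⟩ := nom_sound hE hNR hK0 hP hw hf h
  have h3 : a = k := by omega
  subst h3
  exact h2 P hPc (fun b _ => hv b) (hmin.mn _ _ _)

theorem CA.a9s (h : CA c f P1 P2 P3 k1 k2 k3 v1 v2 v3) (hE : EAll KT RW NR) (hNR : NR ≤ 16384)
    (hK0 : KT.lk 0 = 0) (hP : Pc D x c) (hw : Tb c w 6 f) (hf : Fu c f) {LT : ℕ → ℕ → Bool}
    (hLT : LTs LT c f) {i : ℕ} (hmin : MinI RW i c)
    (hor : D (f k1) P1 = D (f k2) P2 ∨ D (f k1) P1 = D (f k3) P3 ∨ D (f k2) P2 = D (f k3) P3)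
    {p : ℕ} {l : Tr} (ha : a9 KT LT i w (3 * k1) v1 (3 * k2) v2 (3 * k3) v3 (c P2 P1) (c P3 P1)
      (c P3 P2) p l = true) : False := by
  have hc := hP.sy
  obtain ⟨_, _, I9⟩ := h.i9 hc hf
  have T9 := h.t9 hc hw
  have l1 := h.A1.la
  have l2 := h.A2.la
  have V31 := vp_sez hc l1 (fun i _ => h.A3.vp i) (Q := P1)
  have V32 := vp_sez hc l2 (fun i _ => h.A3.vp i) (Q := P2)
  have V21 := vp_sez hc l1 (fun i _ => h.A2.vp i) (Q := P1)
  have V312 := vp_sez hc l2 (fun i _ => V31 i) (Q := P2)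
  have T1 := rp_rep hc l1 hw (fun i _ => h.A1.vp i)
  have T2 := rp_rep hc l2 hw (fun i _ => h.A2.vp i)
  have T12 := rp_rep hc l2 T1 (fun i _ => V21 i)
  have F1 := hf.ups hc h.A1.nz
  have F2 := hf.ups hc h.A2.nz
  have F12 := F1.ups hc (nz_ups h.A2.nz h.d12)
  rcases tgs ha with ha | ⟨_, _, ha⟩
  · exact absurd ha Bool.false_ne_true
  rcases tgs ha with ha | ⟨_, _, ha⟩
  · exact hLT _ _ 9 _ ha T9 I9 (by norm_num) fun a ha => u6 P1 P2 P3 ha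
  rcases tgs ha with ha | ⟨_, _, ha⟩
  · exact absurd ha Bool.false_ne_true
  rcases tgs ha with ha | ⟨_, _, ha⟩
  · exact smp_tb hP T9 I9 ha
  rcases tgs ha with ha | ⟨_, _, ha⟩
  · exact nom_mul hE hNR hK0 hP hmin T1 F1 ha (nz_ups h.A3.nz h.d13) V31
  rcases tgs ha with ha | ⟨_, _, ha⟩
  · exact nom_mul hE hNR hK0 hP hmin T2 F2 ha (nz_ups h.A3.nz h.d23) V32
  rcases tgs ha with ha | ⟨_, _, ha⟩
  · exact nom_mul hE hNR hK0 hP hmin T12 F12 ha (nz_ups (nz_ups h.A3.nz h.d13) h.d23) V312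
  · exact h.or9 hP hor hw hf ha

end

end Pool.Agent.Lib.EPS9
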