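import Pool.Agent.Lib.MP_c7e7f6_eps.ExtA

/-!
Extension of the colourings of six points: the three missing pairs are disjoint, the search.
-/

set_option autoImplicit false
set_option linter.unusedVariables false

namespace Pool.Agent.Lib.EPS9

open Finset

section

variable {KT : Kt} {RW NR : ℕ} {ι : Type} {D : ι → ι → ℝ} {x : Fin 6 → ℝ} {c : ι → ι → ℕ}

variable {w : ℕ} {f : ℕ → ι} {P1 P2 P3 : ι} {k1 k2 k3 v1 v2 v3 : ℕ}

/-- the multiplicities without those of the third point -/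
def qm (c : ι → ι → ℕ) (f : ℕ → ι) (P1 P2 : ι) (e : ℕ) : ℕ :=
  qq c f 6 e + rr c f 6 P1 e + rr c f 6 P2 e + if e = c P2 P1 then 1 else 0

/-- the multiplicities of the nine points -/
def q9 (c : ι → ι → ℕ) (f : ℕ → ι) (P1 P2 P3 : ι) (e : ℕ) : ℕ :=
  qq c f 6 e + rr c f 6 P1 e + rr c f 6 P2 e + rr c f 6 P3 e + (if e = c P2 P1 then 1 else 0)
    + (if e = c P3 P1 then 1 else 0) + if e = c P3 P2 then 1 else 0

theorem CA.a3ds (h : CA c f P1 P2 P3 k1 k2 k3 v1 v2 v3) (hE : EAll KT RW NR) (hNR : NR ≤ 16384)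
    (hK0 : KT.lk 0 = 0) (hP : Pc D x c) (hw : Tb c w 6 f) (hf : Fu c f) {LT : ℕ → ℕ → Bool}
    (hLT : LTs LT c f) {i : ℕ} (hmin : MinI RW i c)
    (hor : D (f k1) P1 = D (f k2) P2 ∨ D (f k1) P1 = D (f k3) P3 ∨ D (f k2) P2 = D (f k3) P3)
    (hM : Mu (q9 c f P1 P2 P3)) {n : ℕ}
    (hn : Rc n 25 (fun e => qm c f P1 P2 e + rr c f 6 P3 e)) {t : Tr}
    (ha : a3d KT LT i w (3 * k1) v1 (3 * k2) v2 (3 * k3) v3 (c P2 P1) n t 1 = true) : False := by
  have hc := hP.sy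
  have h0 : cntr 7 (fun _ l d => (fun c' => exD (fun d23 p l => a9 KT LT i w (3 * k1) v1 (3 * k2) v2
    (3 * k3) v3 (c P2 P1) d d23 p l) c' (Nat.sub 504 (spw c')) 6 1 l) (Nat.add n (cu d))) t 1
      = true := ha
  have l13 := hc.le P3 P1
  have l23 := hc.le P3 P2
  have n13 := h.d13
  have n23 := h.d23
  obtain ⟨p, l, h1⟩ := cntr_spec t 1 h0 (c P3 P1) (by omega) (by omega)
  have h2 : Rc (Nat.add n (cu (c P3 P1))) 26 (fun e => qm c f P1 P2 e + rr c f 6 P3 e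
      + if e = c P3 P1 then 1 else 0) := hn.add (rc_cu hc P3 P1)
  obtain ⟨p', l', h3⟩ := exD_sound h2 (by norm_num) hM (δ := c P3 P2) (by omega) l23
    (fun e _ _ => by
      unfold qm q9
      ring) h1
  exact h.a9s hE hNR hK0 hP hw hf hLT hmin hor h3

theorem CA.a3s (h : CA c f P1 P2 P3 k1 k2 k3 v1 v2 v3) (hE : EAll KT RW NR) (hNR : NR ≤ 16384)
    (hK0 : KT.lk 0 = 0) (hP : Pc D x c) (hw : Tb c w 6 f) (hf : Fu c f) {LT : ℕ → ℕ → Bool}
    (hLT : LTs LT c f) {i : ℕ} (hmin : MinI RW i c)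
    (hor : D (f k1) P1 = D (f k2) P2 ∨ D (f k1) P1 = D (f k3) P3 ∨ D (f k2) P2 = D (f k3) P3)
    (hM : Mu (q9 c f P1 P2 P3)) {n : ℕ} (hn : Rc n 17 (qm c f P1 P2)) {t : Tr} {R m : ℕ}
    (hR : R / 2 ^ (21 * m) % 2 ^ 21 = k3 + 8 * v3)
    (ha : a3 KT LT i w (3 * k1) v1 (3 * k2) v2 (c P2 P1) n t R = true) : False := by
  have hc := hP.sy
  have h0 : lst 21 (fun p l R => ((fun s3 v3 => Nat.rec (brn (Nat.beq s3 (3 * k1)) true
      (Nat.beq s3 (3 * k2)))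
        (fun t _ => (fun c' => Nat.rec (Nat.ble 505 (spw c'))
          (fun _ _ => a3d KT LT i w (3 * k1) v1 (3 * k2) v2 s3 v3 (c P2 P1) c' l 1) t)
            (Nat.add n (cntv v3)))
        (Nat.land p 3))
        (Nat.mul 3 (Nat.land R 7)) (Nat.land (Nat.shiftRight R 3) (msk 18)) : Bool)) t R
          = true := ha
  obtain ⟨p, l, h1⟩ := lst_spec t _ h0 m (ne_of_mod hR h.A3.vne)
  obtain ⟨e1, e2⟩ := h.A3.dec hR
  rw [e1, e2] at h1
  have h2 : Rc (Nat.add n (cntv v3)) 25 (fun e => qm c f P1 P2 e + rr c f 6 P3 e) :=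
    hn.add (rc_vp h.A3.vp (by norm_num))
  rcases tgs h1 with h1 | ⟨_, _, h1⟩
  · rcases brn_true h1 with ⟨h3, _⟩ | ⟨_, h3⟩
    · have h4 : 3 * k3 = 3 * k1 := Nat.eq_of_beq_eq_true h3
      have := h.n13
      omega
    · have h4 : 3 * k3 = 3 * k2 := Nat.eq_of_beq_eq_true h3
      have := h.n23
      omega
  rcases tgs h1 with h1 | ⟨_, _, h1⟩
  · have h3 := Nat.le_of_ble_eq_true h1
    have h4 := spw_le h2 (by norm_num) hM (fun e _ _ => by
      unfold qm q9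
      omega)
    omega
  · exact h.a3ds hE hNR hK0 hP hw hf hLT hmin hor hM h2 h1

theorem CA.a2Ls (h : CA c f P1 P2 P3 k1 k2 k3 v1 v2 v3) (hE : EAll KT RW NR) (hNR : NR ≤ 16384)
    (hK0 : KT.lk 0 = 0) (hP : Pc D x c) (hw : Tb c w 6 f) (hf : Fu c f) {LT : ℕ → ℕ → Bool}
    (hLT : LTs LT c f) {i : ℕ} (hmin : MinI RW i c)
    (hor : D (f k1) P1 = D (f k2) P2 ∨ D (f k1) P1 = D (f k3) P3 ∨ D (f k2) P2 = D (f k3) P3)
    (hM : Mu (q9 c f P1 P2 P3)) {n : ℕ}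
    (hn : Rc n 16 (fun e => qq c f 6 e + rr c f 6 P1 e + rr c f 6 P2 e)) {t : Tr} {R m : ℕ}
    (hR : R / 2 ^ (21 * m) % 2 ^ 21 = k3 + 8 * v3) {p : ℕ}
    (hp : Nat.land (Nat.shiftRight (pw p) 90) 15 = 3 * k2)
    (hL : KT.lk (w10 (rep w (3 * k1) v1) (pw p)) ≠ 0)
    (ha : a2L KT LT i w (3 * k1) v1 (3 * k2) v2 n R (Nat.shiftRight (pw p) 90) t
      (KT.lk (w10 (rep w (3 * k1) v1) (pw p))) = true) : False := by
  have hc := hP.sy
  have l1 := h.A1.la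
  have l2 := h.A2.la
  have T1 := rp_rep hc l1 hw (fun i _ => h.A1.vp i)
  have F1 := hf.ups hc h.A1.nz
  obtain ⟨τ, hτ⟩ := perm_of hK0 hP T1 hL
  have h5 : τ 5 = k2 := by
    rw [hτ.last] at hp
    omega
  obtain ⟨k, j, hk, h6, hEnt⟩ := entry hE hNR hP T1 F1 hτ hL (P := P2) (by
    rw [h5]
    exact nz_ups h.A2.nz h.d12)
  have h0 : lst 30 (fun p' l L =>
      ((fun v => (fun d => Nat.rec (brn (Nat.beq (clz v (3 * k1)) (clz v2 (3 * k1)))
            (Nat.ble (Nat.add (Nat.land (Nat.shiftRight L 15) 16383) 1) i) true)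
          (fun t _ => Nat.rec
            (LT (addv (addv w 6 v1) 7 (Nat.add v2 (Nat.shiftLeft d 18))) (Nat.shiftRight p' 3))
          (fun t _ => Nat.rec (a3 KT LT i w (3 * k1) v1 (3 * k2) v2 d (Nat.add n (cu d)) l R)
          (fun _ _ => smp (addv (addv w 6 v1) 7 (Nat.add v2 (Nat.shiftLeft d 18)))
            (Nat.shiftRight p' 3)) t) t) (Nat.land p' 7))
        (Nat.land (Nat.shiftRight v (3 * k1)) 7)) (vecOf L (Nat.shiftRight (pw p) 90)) : Bool)) t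
      (KT.lk (w10 (rep w (3 * k1) v1) (pw p))) = true := ha
  obtain ⟨p', l', h8⟩ := lst_spec t _ h0 k h6
  have hd : Nat.land (Nat.shiftRight (vecOf (KT.lk (w10 (rep w (3 * k1) v1) (pw p))
      / 2 ^ (30 * k)) (Nat.shiftRight (pw p) 90)) (3 * k1)) 7 = c P2 P1 := by
    rw [land7_fld, hEnt.vec, if_pos ⟨l1, by rw [h5]; exact h.n12⟩, ups_self]
  beta_reduce at h8
  rw [hd] at h8
  obtain ⟨_, I8, _⟩ := h.i9 hc hf
  have T8 := h.t8 hc hw
  rcases tgs h8 with h9 | ⟨_, _, h9⟩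
  · rcases brn_true h9 with ⟨_, h10⟩ | ⟨h10, _⟩
    · have h11 := Nat.le_of_ble_eq_true h10
      rw [hEnt.num] at h11
      have h12 : j + 1 ≤ i := h11
      have h13 := hmin _ _ hEnt.full hEnt.iso
      omega
    · have h11 : clz (vecOf (KT.lk (w10 (rep w (3 * k1) v1) (pw p))
          / 2 ^ (30 * k)) (Nat.shiftRight (pw p) 90)) (3 * k1) = clz v2 (3 * k1) := by
        apply fld_ext
        intro s
        rw [fld_clz, fld_clz, hEnt.vec]
        by_cases h12 : s = k1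
        · rw [if_pos h12, if_pos h12]
        · rw [if_neg h12, if_neg h12, h.A2.vp s, ups_ne f P1 h12]
          by_cases h13 : s < 6
          · by_cases h14 : s = k2
            · rw [if_neg (fun h15 => h15.2 (by rw [h5]; exact h14)), if_pos h13, h14, h.A2.z]
            · rw [if_pos ⟨h13, by rw [h5]; exact h14⟩, if_pos h13]
          · rw [if_neg (fun h15 => h13 h15.1), if_neg h13]
      rw [h11, Nat.beq_refl] at h10
      exact absurd h10.symm Bool.false_ne_true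
  rcases tgs h9 with h9 | ⟨_, _, h9⟩
  · refine hLT _ _ 8 _ h9 T8 I8 (by norm_num) fun a ha => ?_
    rw [ups_ne _ P2 (by omega), ups_ne f P1 (by omega)]
  rcases tgs h9 with h9 | ⟨_, _, h9⟩
  · exact h.a3s hE hNR hK0 hP hw hf hLT hmin hor hM (hn.add (rc_cu hc P2 P1)) hR h9
  · exact smp_tb hP T8 I8 h9

theorem CA.a2s (h : CA c f P1 P2 P3 k1 k2 k3 v1 v2 v3) (hE : EAll KT RW NR) (hNR : NR ≤ 16384)
    (hK0 : KT.lk 0 = 0) (hP : Pc D x c) (hw : Tb c w 6 f) (hf : Fu c f) {LT : ℕ → ℕ → Bool}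
    (hLT : LTs LT c f) {i : ℕ} (hmin : MinI RW i c)
    (hor : D (f k1) P1 = D (f k2) P2 ∨ D (f k1) P1 = D (f k3) P3 ∨ D (f k2) P2 = D (f k3) P3)
    (hM : Mu (q9 c f P1 P2 P3)) {n : ℕ} (hn : Rc n 0 (qq c f 6)) {t : Tr} {alts m1 m2 m3 : ℕ}
    (h1 : alts / 2 ^ (21 * m1) % 2 ^ 21 = k1 + 8 * v1)
    (h2 : alts / 2 ^ (21 * m2) % 2 ^ 21 = k2 + 8 * v2)
    (h3 : alts / 2 ^ (21 * m3) % 2 ^ 21 = k3 + 8 * v3) (h12 : m1 < m2) (h23 : m2 < m3)
    (ha : a2 KT LT i w n t alts = true) : False := by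
  have hc := hP.sy
  have h0 : lst 21 (fun _ l R => ((fun s1 v1 => a2b KT LT i w s1 v1 (Nat.add n (cntv v1)) l
      (Nat.shiftRight R 21))
        (Nat.mul 3 (Nat.land R 7)) (Nat.land (Nat.shiftRight R 3) (msk 18)) : Bool)) t alts
          = true := ha
  obtain ⟨p, l, h4⟩ := lst_spec t _ h0 m1 (ne_of_mod h1 h.A1.vne)
  obtain ⟨e1, e2⟩ := h.A1.dec h1
  rw [e1, e2] at h4
  have h5 : lst 21 (fun p l R =>
      ((fun s2 v2 => isZ (Nat.land p 1) (Nat.beq s2 (3 * k1))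
        ((fun q => cnd (Nat.beq (Nat.land (Nat.shiftRight q 90) 15) s2)
          ((fun L => isZ L false (a2L KT LT i w (3 * k1) v1 s2 v2
              (Nat.add (Nat.add n (cntv v1)) (cntv v2))
              (Nat.shiftRight R 21) (Nat.shiftRight q 90) l L))
            (KT.lk (w10 (rep w (3 * k1) v1) q)))) (pw (Nat.shiftRight p 1))))
        (Nat.mul 3 (Nat.land R 7)) (Nat.land (Nat.shiftRight R 3) (msk 18)) : Bool)) l
      (Nat.shiftRight (alts / 2 ^ (21 * m1)) 21) = true := h4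
  obtain ⟨d, rfl⟩ : ∃ d, m2 = m1 + 1 + d := ⟨m2 - m1 - 1, by omega⟩
  obtain ⟨d', rfl⟩ : ∃ d', m3 = m1 + 1 + d + 1 + d' := ⟨m3 - (m1 + 1 + d) - 1, by omega⟩
  obtain ⟨p', l', h6⟩ := lst_spec l _ h5 d (by
    rw [div_shift]
    exact ne_of_mod h2 h.A2.vne)
  rw [div_shift] at h6
  obtain ⟨e3, e4⟩ := h.A2.dec h2
  rw [e3, e4] at h6
  rcases isZ_cases h6 with ⟨_, h7⟩ | ⟨_, h7⟩
  · have h8 : 3 * k2 = 3 * k1 := Nat.eq_of_beq_eq_true h7
    have := h.n12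
    omega
  · obtain ⟨h8, h9⟩ := cnd_true h7
    obtain ⟨h10, h11⟩ := isZ_true h9
    exact h.a2Ls hE hNR hK0 hP hw hf hLT hmin hor hM
      ((hn.add (rc_vp h.A1.vp (by norm_num))).add (rc_vp h.A2.vp (by norm_num)))
      (by rw [div_shift]; exact h3) (Nat.eq_of_beq_eq_true h8) h10 h11

end

end Pool.Agent.Lib.EPS9
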