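import Pool.Agent.Lib.MP_c7e7f6_eps.ExtWord

/-!
Extension of the colourings of six points: the checks for one word.
-/

set_option autoImplicit false
set_option linter.unusedVariables false

namespace Pool.Agent.Lib.EPS9

open Finset

theorem Mu.congr {M M' : ℕ → ℕ} (h : Mu M) (he : ∀ e, 1 ≤ e → e ≤ 6 → M e = M' e) : Mu M' := by
  have e1 := he 1 (by norm_num) (by norm_num)
  have e2 := he 2 (by norm_num) (by norm_num)
  have e3 := he 3 (by norm_num) (by norm_num)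
  have e4 := he 4 (by norm_num) (by norm_num)
  have e5 := he 5 (by norm_num) (by norm_num)
  have e6 := he 6 (by norm_num) (by norm_num)
  refine ⟨fun e h1 h6 => ?_, ?_, fun k hk => ?_⟩
  · rw [← he e h1 h6]
    exact h.le e h1 h6
  · rw [← e1, ← e2, ← e3, ← e4, ← e5, ← e6]
    exact h.pow
  · rw [← e1, ← e2, ← e3, ← e4, ← e5, ← e6]
    exact h.dom k hk

/-- the checks for the word number `i`, if the six points `p` have this colouring -/
theorem chkI_sound {KT : Kt} {RW i : ℕ} {ι : Type} {D : ι → ι → ℝ} {x : Fin 6 → ℝ}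
    {c : ι → ι → ℕ} (hP : Pc D x c) (hI : OkI KT RW i) {p : Fin 6 → ι} (hp : Full c p)
    (hiso : Iso RW i c p) :
    ∃ (alts ks pB : ℕ) (t1 t2 t3 t4 : Tr) (σ : Equiv.Perm (Fin 6)) (LT : ℕ → ℕ → Bool) (C : ℕ),
      Tb c (wT RW i) 6 (lab p σ) ∧ Fu c (lab p σ) ∧ Rc C 0 (qq c (lab p σ) 6) ∧
      LTs LT c (lab p σ) ∧ a1 KT LT i (wT RW i) alts t1 0 = true ∧
      a2 KT LT i (wT RW i) C t2 alts = true ∧ b1 KT LT i (wT RW i) ks pB t3 = true ∧
      bAll KT LT i (wT RW i) C t4 ks = true := by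
  obtain ⟨alts, ks, pB, t1, t2, t3, t4, h⟩ := hI
  obtain ⟨σ, h1, h2, h3⟩ := wT_tb hP.sy hiso
  have h4 := lab_fu hp σ
  have h' : withT (wT RW i) (fun K6 K8 K12 K24 =>
      (fun LT => cnd (a1 KT LT i (wT RW i) alts t1 0)
        (cnd (a2 KT LT i (wT RW i) (cntT (Nat.land (Nat.shiftRight RW (Nat.mul 45 i)) (msk 45))) t2
          alts) (cnd (b1 KT LT i (wT RW i) ks pB t3) (bAll KT LT i (wT RW i)
            (cntT (Nat.land (Nat.shiftRight RW (Nat.mul 45 i)) (msk 45))) t4 ks))))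
        (lTot K6 K8 K12 K24)) = true := h
  obtain ⟨LT, h5, h6⟩ := lt_of_withT (k := (fun LT => cnd (a1 KT LT i (wT RW i) alts t1 0)
        (cnd (a2 KT LT i (wT RW i) (cntT (Nat.land (Nat.shiftRight RW (Nat.mul 45 i)) (msk 45))) t2
          alts) (cnd (b1 KT LT i (wT RW i) ks pB t3) (bAll KT LT i (wT RW i)
            (cntT (Nat.land (Nat.shiftRight RW (Nat.mul 45 i)) (msk 45))) t4 ks))))) hP h1 h'
  obtain ⟨h7, h8⟩ := cnd_true h6
  obtain ⟨h9, h10⟩ := cnd_true h8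
  obtain ⟨h11, h12⟩ := cnd_true h10
  exact ⟨alts, ks, pB, t1, t2, t3, t4, σ, LT, _, h1, h4, rc_cntT hP.sy h4 h2 h3, h5, h7, h9, h11,
    h12⟩

/-- there are six points with known distances -/
theorem Nine.exists_full {D : Fin 9 → Fin 9 → ℝ} {x : Fin 6 → ℝ} {c : Fin 9 → Fin 9 → ℕ}
    (h : Nine D x c) : ∃ p : Fin 6 → Fin 9, Full c p := by
  let S : Finset (Fin 9) := ((univ : Finset (Fin 9 × Fin 9)).filter
    (fun p => p.1 < p.2 ∧ c p.1 p.2 = 0)).image Prod.fst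
  have hS : S.card ≤ 3 := card_image_le.trans h.zero.le
  have hC : 6 ≤ Sᶜ.card := by
    rw [card_compl, Fintype.card_fin]
    omega
  obtain ⟨T, hT, hT6⟩ := Finset.exists_subset_card_eq hC
  have hmem : ∀ a b, a ∈ T → b ∈ T → a < b → c a b ≠ 0 := by
    intro a b ha hb hab hz
    have h1 := Finset.mem_compl.1 (hT ha)
    exact h1 (Finset.mem_image.2 ⟨(a, b), Finset.mem_filter.2 ⟨mem_univ _, hab, hz⟩, rfl⟩)
  refine ⟨fun a => T.orderEmbOfFin hT6 a, (T.orderEmbOfFin hT6).injective, ?_⟩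
  intro a b hab
  have ha := T.orderEmbOfFin_mem hT6 a
  have hb := T.orderEmbOfFin_mem hT6 b
  rcases lt_or_gt_of_ne ((T.orderEmbOfFin hT6).injective.ne hab) with h1 | h1
  · exact hmem _ _ ha hb h1
  · rw [h.symm]
    exact hmem _ _ hb ha h1

/-- three more points -/
theorem ext9 {f : ℕ → Fin 9} (hf : Ij f 6) : ∃ P1 P2 P3 : Fin 9, (∀ b, b < 6 → P1 ≠ f b) ∧
    (∀ b, b < 6 → P2 ≠ f b) ∧ (∀ b, b < 6 → P3 ≠ f b) ∧ P1 ≠ P2 ∧ P1 ≠ P3 ∧ P2 ≠ P3 := by
  have h1 : ((range 6).image f).card = 6 := by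
    rw [Finset.card_image_of_injOn, Finset.card_range]
    intro i hi j hj hij
    exact hf i j (Finset.mem_range.1 hi) (Finset.mem_range.1 hj) hij
  have h2 : (((range 6).image f)ᶜ).card = 3 := by
    rw [card_compl, Fintype.card_fin, h1]
  obtain ⟨P1, P2, P3, h12, h13, h23, h3⟩ := Finset.card_eq_three.1 h2
  have h4 : ∀ P ∈ ((range 6).image f)ᶜ, ∀ b, b < 6 → P ≠ f b := by
    intro P hP b hb h5
    exact Finset.mem_compl.1 hP (Finset.mem_image.2 ⟨b, Finset.mem_range.2 hb, h5.symm⟩)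
  rw [h3] at h4
  exact ⟨P1, P2, P3, h4 P1 (by simp), h4 P2 (by simp), h4 P3 (by simp), h12, h13, h23⟩

end Pool.Agent.Lib.EPS9
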