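import Pool.Agent.Lib.MP_c7e7f6_eps.ExtA2
import Pool.Agent.Lib.MP_c7e7f6_eps.ExtI

/-!
Extension of the colourings of six points: the three missing pairs are disjoint, conclusion.
-/

set_option autoImplicit false
set_option linter.unusedVariables false

namespace Pool.Agent.Lib.EPS9

open Finset

theorem q9_eq {c : Fin 9 → Fin 9 → ℕ} (f : ℕ → Fin 9) (P1 P2 P3 : Fin 9) (e : ℕ) :
    qq c (ups (ups (ups f 6 P1) 7 P2) 8 P3) 9 e = q9 c f P1 P2 P3 e := by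
  rw [qq_sum]
  unfold q9
  ring

/-- every point has at most one missing partner -/
theorem deg_le {c : Fin 9 → Fin 9 → ℕ}
    (hm : ∀ i j k, i ≠ j → i ≠ k → c i j = 0 → c i k = 0 → j = k) {g : ℕ → Fin 9} {m : ℕ}
    (hg : Ij g m) (P : Fin 9) : rr (cz c) g m P 1 ≤ 1 := by
  unfold rr
  rw [← Finset.card_filter]
  apply Finset.card_le_one.2
  intro a ha b hb
  rw [Finset.mem_filter, Finset.mem_range] at ha hb
  have key : ∀ a, 1 = cz c P (g a) → P ≠ g a ∧ c P (g a) = 0 := by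
    intro a h
    unfold cz at h
    by_contra h1
    rw [if_neg h1] at h
    exact absurd h one_ne_zero
  obtain ⟨h1, h2⟩ := key a ha.2
  obtain ⟨h3, h4⟩ := key b hb.2
  exact hg a b ha.1 hb.1 (hm P _ _ h1 h3 h2 h4)

/-- a missing partner -/
theorem cz_ex {c : Fin 9 → Fin 9 → ℕ} {f : ℕ → Fin 9} {P : Fin 9}
    (h : rr (cz c) f 6 P 1 = 1) : ∃ a, a < 6 ∧ c P (f a) = 0 := by
  by_contra hcon
  push Not at hcon
  have h1 : rr (cz c) f 6 P 1 = 0 := by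
    unfold rr
    refine Finset.sum_eq_zero fun i hi => ?_
    have h2 := hcon i (Finset.mem_range.1 hi)
    have h5 : cz c P (f i) = 0 := by
      unfold cz
      rw [if_neg (fun h3 => h2 h3.2)]
    rw [h5, if_neg (by norm_num)]
  omega

theorem cz_full {c : Fin 9 → Fin 9 → ℕ} {f : ℕ → Fin 9} (hf : Fu c f) :
    qq (cz c) f 6 1 = 0 := by
  unfold qq rr
  refine Finset.sum_eq_zero fun j hj => Finset.sum_eq_zero fun i hi => ?_
  have hj' := Finset.mem_range.1 hj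
  have hi' := Finset.mem_range.1 hi
  have h2 := hf j i hj' (by omega) (by omega)
  have h5 : cz c (f j) (f i) = 0 := by
    unfold cz
    rw [if_neg (fun h3 => h2 h3.2)]
  rw [h5, if_neg (by norm_num)]

/-- everything needed for the three points -/
structure HA (D : Fin 9 → Fin 9 → ℝ) (c : Fin 9 → Fin 9 → ℕ) (f : ℕ → Fin 9) (alts : ℕ)
    (P1 P2 P3 : Fin 9) (k1 k2 k3 v1 v2 v3 m1 m2 m3 : ℕ) : Prop where
  ca : CA c f P1 P2 P3 k1 k2 k3 v1 v2 v3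
  e1 : alts / 2 ^ (21 * m1) % 2 ^ 21 = k1 + 8 * v1
  e2 : alts / 2 ^ (21 * m2) % 2 ^ 21 = k2 + 8 * v2
  e3 : alts / 2 ^ (21 * m3) % 2 ^ 21 = k3 + 8 * v3
  hor : D (f k1) P1 = D (f k2) P2 ∨ D (f k1) P1 = D (f k3) P3 ∨ D (f k2) P2 = D (f k3) P3

section

variable {D : Fin 9 → Fin 9 → ℝ} {c : Fin 9 → Fin 9 → ℕ} {f : ℕ → Fin 9} {alts : ℕ}
  {P1 P2 P3 : Fin 9} {k1 k2 k3 v1 v2 v3 m1 m2 m3 : ℕ}

theorem HA.s12 (h : HA D c f alts P1 P2 P3 k1 k2 k3 v1 v2 v3 m1 m2 m3) (hc : Sy c) :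
    HA D c f alts P2 P1 P3 k2 k1 k3 v2 v1 v3 m2 m1 m3 := by
  refine ⟨⟨h.ca.A2, h.ca.A1, h.ca.A3, ?_, h.ca.d23, h.ca.d13, h.ca.n12.symm, h.ca.n23, h.ca.n13⟩,
    h.e2, h.e1, h.e3, ?_⟩
  · rw [hc.symm]
    exact h.ca.d12
  · rcases h.hor with h1 | h1 | h1
    · exact Or.inl h1.symm
    · exact Or.inr (Or.inr h1)
    · exact Or.inr (Or.inl h1)

theorem HA.s23 (h : HA D c f alts P1 P2 P3 k1 k2 k3 v1 v2 v3 m1 m2 m3) (hc : Sy c) :
    HA D c f alts P1 P3 P2 k1 k3 k2 v1 v3 v2 m1 m3 m2 := by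
  refine ⟨⟨h.ca.A1, h.ca.A3, h.ca.A2, h.ca.d13, h.ca.d12, ?_, h.ca.n13, h.ca.n12,
    h.ca.n23.symm⟩, h.e1, h.e3, h.e2, ?_⟩
  · rw [hc.symm]
    exact h.ca.d23
  · rcases h.hor with h1 | h1 | h1
    · exact Or.inr (Or.inl h1)
    · exact Or.inl h1
    · exact Or.inr (Or.inr h1.symm)

theorem HA.m12 (h : HA D c f alts P1 P2 P3 k1 k2 k3 v1 v2 v3 m1 m2 m3) : m1 ≠ m2 := by
  intro h1
  have h2 := h.e1
  have h3 := h.e2
  rw [h1, h3] at h2
  have := h.ca.A1.la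
  have := h.ca.A2.la
  have := h.ca.n12
  omega

end

theorem searchA {KT : Kt} {RW NR : ℕ} (hE : EAll KT RW NR) (hNR : NR ≤ 16384)
    (hK0 : KT.lk 0 = 0) (hR : RAll RW NR) (hI : ∀ i < NR, OkI KT RW i)
    {D : Fin 9 → Fin 9 → ℝ} {x : Fin 6 → ℝ} {c : Fin 9 → Fin 9 → ℕ} (h : Nine D x c)
    (hm : ∀ i j k, i ≠ j → i ≠ k → c i j = 0 → c i k = 0 → j = k) : False := by
  classical
  have hc := h.sy
  obtain ⟨p0, hp0⟩ := h.exists_full
  obtain ⟨j0, hj0, hiso0⟩ := hR D x c p0 h.toPc hp0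
  have hex : ∃ i, ∃ p : Fin 6 → Fin 9, Full c p ∧ Iso RW i c p := ⟨j0, p0, hp0, hiso0⟩
  obtain ⟨p, hp, hiso⟩ := Nat.find_spec hex
  have hmin : MinI RW (Nat.find hex) c := fun p' j h1 h2 => Nat.find_min' hex ⟨p', h1, h2⟩
  have hi : Nat.find hex < NR := lt_of_le_of_lt (Nat.find_min' hex ⟨p0, hp0, hiso0⟩) hj0
  generalize Nat.find hex = i at *
  obtain ⟨alts, ks, pB, t1, t2, t3, t4, σ, LT, C, hw, hf, hC, hLT, ha1, ha2, _, _⟩ :=
    chkI_sound h.toPc (hI i hi) hp hiso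
  generalize lab p σ = f at *
  -- the other points
  obtain ⟨P1, P2, P3, n1, n2, n3, n12, n13, n23⟩ := ext9 (hf.ij hc)
  have mkg : ∀ {P1 P2 P3 : Fin 9}, (∀ b, b < 6 → P1 ≠ f b) → (∀ b, b < 6 → P2 ≠ f b) →
      P1 ≠ P2 → Ij (ups (ups f 6 P1) 7 P2) 8 := by
    intro P1 P2 P3 n1 n2 n12
    refine ((hf.ij hc).ups n1).ups fun i hi => ?_
    rcases Nat.lt_or_ge i 6 with h1 | h1
    · rw [ups_ne f P1 (by omega)]
      exact n2 i h1
    · have : i = 6 := by omega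
      rw [this, ups_self]
      exact n12.symm
  have I9 : Ij (ups (ups (ups f 6 P1) 7 P2) 8 P3) 9 := by
    refine (mkg (P3 := P3) n1 n2 n12).ups fun i hi => ?_
    rcases Nat.lt_or_ge i 6 with h1 | h1
    · rw [ups_ne _ P2 (by omega), ups_ne f P1 (by omega)]
      exact n3 i h1
    · rcases Nat.lt_or_ge i 7 with h2 | h2
      · have : i = 6 := by omega
        rw [this, ups_ne _ P2 (by norm_num), ups_self]
        exact n13.symm
      · have : i = 7 := by omega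
        rw [this, ups_self]
        exact n23.symm
  -- degrees
  have deg : ∀ {P Q R : Fin 9}, (∀ b, b < 6 → Q ≠ f b) → (∀ b, b < 6 → R ≠ f b) → Q ≠ R →
      rr (cz c) f 6 P 1 + (if 1 = cz c P Q then 1 else 0) + (if 1 = cz c P R then 1 else 0)
        ≤ 1 := by
    intro P Q R hQ hR' hQR
    have h1 := deg_le hm (mkg (P3 := P) hQ hR' hQR) P
    rw [show (8 : ℕ) = 6 + 1 + 1 from rfl, rr_succ, rr_succ,
      rr_congr (g := f) (fun i hi => by rw [ups_ne _ R (by omega), ups_ne f Q (by omega)]),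
      ups_ne _ R (by norm_num), ups_self, ups_self] at h1
    exact h1
  have d1 := deg (P := P1) n2 n3 n23
  have d2 := deg (P := P2) n1 n3 n13
  have d3 := deg (P := P3) n1 n2 n12
  have hs := h.cz3 I9
  rw [qq_sum, cz_full hf] at hs
  have zc := cz_sy hc
  rw [zc.symm P1 P2, zc.symm P1 P3] at d1
  rw [zc.symm P2 P3] at d2
  have A1 : rr (cz c) f 6 P1 1 = 1 := by omega
  have A2 : rr (cz c) f 6 P2 1 = 1 := by omega
  have A3 : rr (cz c) f 6 P3 1 = 1 := by omega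
  have z12 : (if 1 = cz c P2 P1 then 1 else 0) = 0 := by omega
  have z13 : (if 1 = cz c P3 P1 then 1 else 0) = 0 := by omega
  have z23 : (if 1 = cz c P3 P2 then 1 else 0) = 0 := by omega
  have nz : ∀ {P Q : Fin 9}, P ≠ Q → (if 1 = cz c P Q then 1 else 0) = 0 → c P Q ≠ 0 := by
    intro P Q hPQ hz h1
    unfold cz at hz
    rw [if_pos (show P ≠ Q ∧ c P Q = 0 from ⟨hPQ, h1⟩), if_pos rfl] at hz
    exact absurd hz one_ne_zero
  have c12 := nz n12.symm z12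
  have c13 := nz n13.symm z13
  have c23 := nz n23.symm z23
  obtain ⟨k1, lk1, zk1⟩ := cz_ex A1
  obtain ⟨k2, lk2, zk2⟩ := cz_ex A2
  obtain ⟨k3, lk3, zk3⟩ := cz_ex A3
  have nzk : ∀ {P : Fin 9} {k : ℕ}, k < 6 → (∀ b, b < 6 → P ≠ f b) → c P (f k) = 0 →
      ∀ b, b < 6 → b ≠ k → c P (f b) ≠ 0 := by
    intro P k hk hP hz b hb hbk h1
    exact hbk (hf.inj hc hb hk (hm P _ _ (hP b hb) (hP k hk) h1 hz))
  have kk : ∀ {P Q : Fin 9} {k l : ℕ}, k < 6 → (∀ b, b < 6 → P ≠ f b) →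
      (∀ b, b < 6 → Q ≠ f b) → P ≠ Q → c P (f k) = 0 → c Q (f l) = 0 → k ≠ l := by
    intro P Q k l hk hP hQ hPQ h1 h2 h3
    rw [← h3, hc.symm] at h2
    rw [hc.symm] at h1
    exact hPQ (hm (f k) P Q (hP k hk).symm (hQ k hk).symm h1 h2)
  have k12 := kk lk1 n1 n2 n12 zk1 zk2
  have k13 := kk lk1 n1 n3 n13 zk1 zk3
  have k23 := kk lk2 n2 n3 n23 zk2 zk3
  obtain ⟨m1, v1, e1, B1⟩ := a1_sound hE hNR hK0 h.toPc hw hf hLT hmin ha1 lk1 n1 zk1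
    (nzk lk1 n1 zk1)
  obtain ⟨m2, v2, e2, B2⟩ := a1_sound hE hNR hK0 h.toPc hw hf hLT hmin ha1 lk2 n2 zk2
    (nzk lk2 n2 zk2)
  obtain ⟨m3, v3, e3, B3⟩ := a1_sound hE hNR hK0 h.toPc hw hf hLT hmin ha1 lk3 n3 zk3
    (nzk lk3 n3 zk3)
  have hor := h.or (a := f k1) (b := P1) (a' := f k2) (b' := P2) (a'' := f k3) (b'' := P3)
    (n1 k1 lk1).symm (n2 k2 lk2).symm (n3 k3 lk3).symm (by rw [hc.symm]; exact zk1)
    (by rw [hc.symm]; exact zk2) (by rw [hc.symm]; exact zk3)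
    ⟨fun h1 => n12 h1.2, fun h1 => n2 k1 lk1 h1.1.symm⟩
    ⟨fun h1 => n13 h1.2, fun h1 => n3 k1 lk1 h1.1.symm⟩
    ⟨fun h1 => n23 h1.2, fun h1 => n3 k2 lk2 h1.1.symm⟩
  have H : HA D c f alts P1 P2 P3 k1 k2 k3 v1 v2 v3 m1 m2 m3 :=
    ⟨⟨B1, B2, B3, c12, c13, c23, k12, k13, k23⟩, e1, e2, e3, hor⟩
  have key : ∀ {P1 P2 P3 : Fin 9} {k1 k2 k3 v1 v2 v3 m1 m2 m3 : ℕ},
      HA D c f alts P1 P2 P3 k1 k2 k3 v1 v2 v3 m1 m2 m3 → m1 < m2 → m2 < m3 → False := by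
    intro P1 P2 P3 k1 k2 k3 v1 v2 v3 m1 m2 m3 H l12 l23
    obtain ⟨_, _, I⟩ := H.ca.i9 hc hf
    have hM : Mu (q9 c f P1 P2 P3) := h.mu.congr fun e he _ => by
      rw [← q9_eq, h.qq9 I he]
    exact H.ca.a2s hE hNR hK0 h.toPc hw hf hLT hmin H.hor hM hC H.e1 H.e2 H.e3 l12 l23 ha2
  have S12 := H.s12 hc
  have S23 := H.s23 hc
  have S13 := S12.s23 hc
  have S31 := S23.s12 hc
  have S321 := S13.s12 hc
  have q12 := H.m12
  have q13 := S23.m12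
  have q23 := S13.m12
  rcases Nat.lt_or_ge m1 m2 with a | a
  · rcases Nat.lt_or_ge m2 m3 with b | b
    · exact key H a b
    · rcases Nat.lt_or_ge m1 m3 with d | d
      · exact key S23 d (by omega)
      · exact key S31 (by omega) a
  · rcases Nat.lt_or_ge m1 m3 with b | b
    · exact key S12 (by omega) b
    · rcases Nat.lt_or_ge m2 m3 with d | d
      · exact key S13 d (by omega)
      · exact key S321 (by omega) (by omega)

end Pool.Agent.Lib.EPS9
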