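import Pool.Agent.Lib.MP_c7e7f6_eps.ExtA
import Pool.Agent.Lib.MP_c7e7f6_eps.ExtI

/-!
Extension of the colourings of six points: two points cover the missing pairs, seven and eight
points.
-/

set_option autoImplicit false
set_option linter.unusedVariables false

namespace Pool.Agent.Lib.EPS9

open Finset

section

variable {KT : Kt} {RW NR : ℕ} {ι : Type} {D : ι → ι → ℝ} {x : Fin 6 → ℝ} {c : ι → ι → ℕ}

/-- `i` is the smallest number of six points in a complete set of seven points -/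
def MinB (RW i : ℕ) (c : ι → ι → ℕ) : Prop :=
  ∀ (p : Fin 6 → ι) (j : ℕ), Full c p → (∃ Q, ∀ a, c Q (p a) ≠ 0) → Iso RW j c p → i ≤ j

theorem mnB {i : ℕ} (hmin : MinB RW i c) (hc : Sy c) {f : ℕ → ι} (hf : Fu c f) {P : ι}
    (hP : ∀ b, b < 6 → c P (f b) ≠ 0) (a : ℕ) (ha : a < 6) : Mn RW i c f a P := by
  intro p' h1 h2 h3 j h4
  refine hmin p' j h1 ⟨f a, fun t => ?_⟩ h4
  by_cases ht : t = 5
  · rw [ht, h2, hc.symm]
    exact hP a ha
  · obtain ⟨b, hb, hba, h5⟩ := h3 t ht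
    rw [h5]
    exact hf a b ha hb hba.symm

theorem Tb.congr {w m : ℕ} {f g : ℕ → ι} (h : Tb c w m f) (hfg : ∀ i < m, f i = g i) :
    Tb c w m g := by
  intro i j hj
  rw [h i j hj]
  by_cases h1 : i < m ∧ j < m
  · rw [if_pos h1, if_pos h1, hfg i h1.1, hfg j h1.2]
  · rw [if_neg h1, if_neg h1]

theorem Vp.congr {v m : ℕ} {P : ι} {f g : ℕ → ι} (h : Vp c v m P f) (hfg : ∀ i < m, f i = g i) :
    Vp c v m P g := by
  intro i
  rw [h i]
  by_cases h1 : i < m
  · rw [if_pos h1, if_pos h1, hfg i h1]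
  · rw [if_neg h1, if_neg h1]

theorem land15 {p : ℕ} {τ : ℕ → ℕ} (hτ : PW p τ) :
    Nat.land (Nat.shiftRight (pw p) 90) 15 = 3 * τ 5 := hτ.last

/-- a point joined to all six points -/
theorem core7 (hE : EAll KT RW NR) (hNR : NR ≤ 16384) (hK0 : KT.lk 0 = 0) (hP : Pc D x c)
    {w : ℕ} {f : ℕ → ι} (hw : Tb c w 6 f) (hf : Fu c f) {P : ι} {i : ℕ}
    (hPc : ∀ b, b < 6 → c P (f b) ≠ 0) (hmin : ∀ a, a < 6 → Mn RW i c f a P) {t : Tr} {p : ℕ}
    {Φ : Tr → ℕ → Bool} (hL : KT.lk (w10 w (pw p)) ≠ 0)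
    (h : lst 30 (fun p' l L => isZ (Nat.land p' 1)
      (Nat.ble (Nat.add (Nat.land (Nat.shiftRight L 15) 16383) 1) i) (Φ l L)) t
      (KT.lk (w10 w (pw p))) = true) :
    ∃ l E d, 1 ≤ d ∧ d ≤ 6 ∧ Φ l E = true ∧
      Vp c (Nat.add (vecOf E (Nat.shiftRight (pw p) 90))
        (Nat.shiftLeft d (Nat.land (Nat.shiftRight (pw p) 90) 15))) 6 P f := by
  have hc := hP.sy
  obtain ⟨τ, hτ⟩ := perm_of hK0 hP hw hL
  obtain ⟨k, j, hk, h6, hEnt⟩ := entry hE hNR hP hw hf hτ hL (P := P) (fun a ha _ => hPc a ha)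
  obtain ⟨p', l', h8⟩ := lst_spec t _ h k h6
  have h5 := hτ.lt 5 (by norm_num)
  have hne := hPc (τ 5) h5
  have hle := hc.le P (f (τ 5))
  rcases isZ_cases h8 with ⟨_, h9⟩ | ⟨_, h9⟩
  · exfalso
    have h10 := Nat.le_of_ble_eq_true h9
    rw [hEnt.num] at h10
    have h11 : j + 1 ≤ i := h10
    have := (hmin (τ 5) h5).of_ent hτ hEnt
    omega
  · refine ⟨l', _, c P (f (τ 5)), by omega, hle, h9, ?_⟩
    have h12 := fld_shlv (v := c P (f (τ 5))) (by omega) (τ 5)
    intro s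
    rw [land15 hτ]
    have h13 : fld (Nat.add (vecOf (KT.lk (w10 w (pw p)) / 2 ^ (30 * k)) (Nat.shiftRight (pw p) 90))
        (Nat.shiftLeft (c P (f (τ 5))) (3 * τ 5))) s
        = fld (vecOf (KT.lk (w10 w (pw p)) / 2 ^ (30 * k)) (Nat.shiftRight (pw p) 90)) s
          + fld (Nat.shiftLeft (c P (f (τ 5))) (3 * τ 5)) s := by
      refine fld_plus (fun s => ?_) s
      rw [hEnt.vec, h12]
      have := hc.le P (f s)
      split_ifs <;> omega
    rw [h13, hEnt.vec, h12]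
    by_cases h14 : s < 6
    · by_cases h15 : s = τ 5
      · rw [if_neg (fun h => h.2 h15), if_pos h15, if_pos h14, zero_add, h15]
      · rw [if_pos ⟨h14, h15⟩, if_neg h15, if_pos h14, add_zero]
    · rw [if_neg (fun h => h14 h.1), if_neg (by omega), if_neg h14]

theorem b1_sound (hE : EAll KT RW NR) (hNR : NR ≤ 16384) (hK0 : KT.lk 0 = 0) (hP : Pc D x c)
    {w : ℕ} {f : ℕ → ι} (hw : Tb c w 6 f) (hf : Fu c f) {LT : ℕ → ℕ → Bool} (hLT : LTs LT c f)
    {i : ℕ} (hmin : MinB RW i c) {ks p : ℕ} {t : Tr} (h : b1 KT LT i w ks p t = true) {P : ι}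
    (hPc : ∀ b, b < 6 → c P (f b) ≠ 0) :
    ∃ m v, ks / 2 ^ (18 * m) % 2 ^ 18 = v ∧ Vp c v 6 P f := by
  have hc := hP.sy
  have hmn := mnB hmin hc hf hPc
  obtain ⟨hL, h1⟩ := isZ_true (show isZ (KT.lk (w10 w (pw p))) false
    (b1L KT LT i w ks (Nat.shiftRight (pw p) 90) t (KT.lk (w10 w (pw p)))) = true from h)
  obtain ⟨l, E, d, d1, d6, h2, hv⟩ := core7 hE hNR hK0 hP hw hf hPc hmn
    (Φ := fun l L => b1d KT LT i w ks (vecOf L (Nat.shiftRight (pw p) 90))
      (Nat.land (Nat.shiftRight (pw p) 90) 15) l 1) hL h1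
  have h3 : cntr 7 (fun p' _ d =>
      ((fun v => Nat.rec false
          (fun t _ => Nat.rec (LT (addv w 6 v) (Nat.shiftRight p' 3))
          (fun t _ => Nat.rec
            (Nat.beq (Nat.land (Nat.shiftRight ks (Nat.mul 18 (Nat.shiftRight p' 3))) (msk 18)) v)
          (fun t _ => Nat.rec (smp (addv w 6 v) (Nat.shiftRight p' 3))
          (fun _ _ => nomA KT i w (Nat.shiftRight p' 3) v) t) t) t) (Nat.land p' 7))
        (Nat.add (vecOf E (Nat.shiftRight (pw p) 90))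
          (Nat.shiftLeft d (Nat.land (Nat.shiftRight (pw p) 90) 15))) : Bool)) l 1 = true := h2
  obtain ⟨p', l', h4⟩ := cntr_spec l 1 h3 d d1 (by omega)
  beta_reduce at h4
  generalize Nat.add (vecOf E (Nat.shiftRight (pw p) 90))
    (Nat.shiftLeft d (Nat.land (Nat.shiftRight (pw p) 90) 15)) = v at *
  have hT := rp_addv hc (m := 6) (by norm_num) hw hv
  have hne : ∀ b, b < 6 → P ≠ f b := fun b hb h5 => hPc b hb (by rw [h5, hc.self])
  have hI : Ij (ups f 6 P) 7 := (hf.ij hc).ups hne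
  rcases tgs h4 with h5 | ⟨_, _, h5⟩
  · exact absurd h5 Bool.false_ne_true
  rcases tgs h5 with h5 | ⟨_, _, h5⟩
  · exact (hLT _ _ 7 _ h5 hT hI (by norm_num) fun a ha => ups_ne f P (by omega)).elim
  rcases tgs h5 with h5 | ⟨_, _, h5⟩
  · have h6 := Nat.eq_of_beq_eq_true h5
    refine ⟨Nat.shiftRight p' 3, _, ?_, hv⟩
    rw [← shr, ← msk_mod]
    exact h6
  rcases tgs h5 with h5 | ⟨_, _, h5⟩
  · exact (smp_tb hP hT hI h5).elim
  · exact (nomA_sound hE hNR hK0 hP hw hf h5 hPc hv hmn).elim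

/-! ### Eight points, one missing pair -/

/-- the six points, the point number `z` is replaced by the seventh point -/
def sx (f : ℕ → ι) (P : ι) (z : ℕ) : ℕ → ι := ups (ups f 6 P) z P

theorem brnN_beq (a b x y : ℕ) : brnN (Nat.beq a b) x y = if a = b then x else y := by
  by_cases h : a = b
  · rw [if_pos h, h, Nat.beq_refl]
    rfl
  · rw [if_neg h]
    have h1 : Nat.beq a b = false := by
      rw [← Bool.not_eq_true]
      exact fun h2 => h (Nat.eq_of_beq_eq_true h2)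
    rw [h1]
    rfl

theorem tow_tb (hc : Sy c) {w v z : ℕ} {f : ℕ → ι} {P : ι} (hz : z < 7) (hw : Tb c w 6 f)
    (hv : Vp c v 6 P f) : Tb c (tow z w v) 6 (sx f P z) := by
  have h : tow z w v = if z = 6 then w else rep w (3 * z) v := brnN_beq _ _ _ _
  rw [h]
  unfold sx
  by_cases h6 : z = 6
  · rw [if_pos h6]
    refine hw.congr fun i hi => ?_
    rw [ups_ne _ P (by omega), ups_ne f P (by omega)]
  · rw [if_neg h6]
    refine (rp_rep hc (a := z) (by omega) hw (fun i _ => hv i)).congr fun i hi => ?_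
    by_cases h1 : i = z
    · rw [h1, ups_self, ups_self]
    · rw [ups_ne f P h1, ups_ne _ P h1, ups_ne f P (by omega)]

/-- seven points with known distances -/
def F7 (c : ι → ι → ℕ) (g : ℕ → ι) : Prop := ∀ a b, a < 7 → b < 7 → a ≠ b → c (g a) (g b) ≠ 0

theorem f7_ups (hc : Sy c) {f : ℕ → ι} (hf : Fu c f) {P : ι} (hP : ∀ b, b < 6 → c P (f b) ≠ 0) :
    F7 c (ups f 6 P) := by
  intro a b ha hb hab
  by_cases h1 : a = 6
  · rw [h1, ups_self, ups_ne f P (by omega)]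
    exact hP b (by omega)
  · rw [ups_ne f P h1]
    by_cases h2 : b = 6
    · rw [h2, ups_self, hc.symm]
      exact hP a (by omega)
    · rw [ups_ne f P h2]
      exact hf a b (by omega) (by omega) hab

theorem sx_fu (hc : Sy c) {f : ℕ → ι} (hf : Fu c f) {P : ι} (hP : ∀ b, b < 6 → c P (f b) ≠ 0)
    {z : ℕ} (hz : z < 7) : Fu c (sx f P z) := by
  have h7 := f7_ups hc hf hP
  intro a b ha hb hab
  unfold sx
  by_cases h1 : a = z
  · rw [h1, ups_self, ups_ne _ P (by omega)]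
    have := h7 6 b (by norm_num) (by omega) (by omega)
    rwa [ups_self] at this
  · rw [ups_ne _ P h1]
    by_cases h2 : b = z
    · rw [h2, ups_self]
      have := h7 a 6 (by omega) (by norm_num) (by omega)
      rwa [ups_self] at this
    · rw [ups_ne _ P h2]
      exact h7 a b (by omega) (by omega) hab

theorem sx_join {f : ℕ → ι} {P Q : ι} {z : ℕ} (hz : z < 7)
    {S : ℕ → Prop} (hQ : ∀ b, b < 7 → b ≠ z → S b → c Q (ups f 6 P b) ≠ 0)
    (h6 : z < 6 → S 6) : ∀ b, b < 6 → S b → c Q (sx f P z b) ≠ 0 := by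
  intro b hb hS
  unfold sx
  by_cases h1 : b = z
  · rw [h1, ups_self]
    have := hQ 6 (by norm_num) (by omega) (h6 (by omega))
    rwa [ups_self] at this
  · rw [ups_ne _ P h1]
    exact hQ b (by omega) h1 hS

theorem tov_vp (hc : Sy c) {u z : ℕ} {f : ℕ → ι} {P Q : ι} (hz : z < 7)
    (hu : Vp c u 6 Q (sx f P z)) (hQ : c Q (ups f 6 P z) = 0) :
    Vp c (tov z u) 7 Q (ups f 6 P) := by
  have h : tov z u = if z = 6 then u else clz u (3 * z)
      + Nat.shiftLeft (Nat.land (Nat.shiftRight u (3 * z)) 7) (3 * 6) := by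
    have : tov z u = if z = 6 then u else clz u (3 * z)
      + Nat.shiftLeft (Nat.land (Nat.shiftRight u (3 * z)) 7) 18 := brnN_beq _ _ _ _
    rw [this, show (3 : ℕ) * 6 = 18 from rfl]
  rw [h]
  by_cases h6 : z = 6
  · rw [if_pos h6]
    intro i
    rw [hu i]
    unfold sx
    rcases lt_trichotomy i 6 with h1 | h1 | h1
    · rw [if_pos h1, if_pos (by omega), ups_ne _ P (by omega)]
    · rw [if_neg (by omega), if_pos (by omega), h1]
      rw [h6] at hQ
      exact hQ.symm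
    · rw [if_neg (by omega), if_neg (by omega)]
  · rw [if_neg h6, land7_fld]
    have h2 := fld_shlv (fld_lt u z) 6
    have h3 : fld u z = c Q P := by
      rw [hu z, if_pos (by omega)]
      unfold sx
      rw [ups_self]
    intro i
    have h4 : fld (clz u (3 * z) + Nat.shiftLeft (fld u z) (3 * 6)) i
        = fld (clz u (3 * z)) i + fld (Nat.shiftLeft (fld u z) (3 * 6)) i := by
      refine fld_plus (fun i => ?_) i
      rw [fld_clz, h2, hu i]
      have := hc.le Q (sx f P z i)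
      have := fld_lt u z
      split_ifs <;> omega
    rw [h4, fld_clz, h2, hu i, h3]
    rcases lt_trichotomy i 6 with h1 | h1 | h1
    · by_cases h5 : i = z
      · rw [if_pos h5, if_neg (by omega), if_pos (by omega), h5, hQ]
      · rw [if_neg h5, if_pos h1, if_neg (by omega), if_pos (by omega)]
        unfold sx
        rw [ups_ne _ P h5, add_zero]
    · rw [if_neg (by omega), if_neg (by omega), if_pos h1, if_pos (by omega), h1, ups_self,
        zero_add]
    · rw [if_neg (by omega), if_neg (by omega), if_neg (by omega), if_neg (by omega)]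

/-- a point joined to all seven points except the point number `z` -/
structure AQ (c : ι → ι → ℕ) (g : ℕ → ι) (Q : ι) (z : ℕ) : Prop where
  la : z < 7
  ne : ∀ b, b < 7 → Q ≠ g b
  zr : c Q (g z) = 0
  nz : ∀ b, b < 7 → b ≠ z → c Q (g b) ≠ 0

theorem b2_sound (hE : EAll KT RW NR) (hNR : NR ≤ 16384) (hK0 : KT.lk 0 = 0) (hP : Pc D x c)
    {w : ℕ} {f : ℕ → ι} (hw : Tb c w 6 f) (hf : Fu c f) {LT : ℕ → ℕ → Bool} (hLT : LTs LT c f)
    {i : ℕ} (hmin : MinB RW i c) {P : ι} (hPc : ∀ b, b < 6 → c P (f b) ≠ 0) {v : ℕ}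
    (hv : Vp c v 6 P f) {us : ℕ} {t : Tr} (h : b2 KT LT i w v us t 0 = true) {Q : ι} {z : ℕ}
    (hQ : AQ c (ups f 6 P) Q z) :
    ∃ m u, us / 2 ^ (24 * m) % 2 ^ 24 = z + 8 * u ∧ Vp c u 7 Q (ups f 6 P) := by
  have hc := hP.sy
  have hne : ∀ b, b < 6 → P ≠ f b := fun b hb h5 => hPc b hb (by rw [h5, hc.self])
  have I7 : Ij (ups f 6 P) 7 := (hf.ij hc).ups hne
  have T7 := rp_addv hc (m := 6) (by norm_num) hw hv
  have T6 := tow_tb hc hQ.la hw hv
  have F6 := sx_fu hc hf hPc hQ.la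
  have hQc : ∀ b, b < 6 → c Q (sx f P z b) ≠ 0 := fun b hb =>
    sx_join (S := fun _ => True) hQ.la (fun b hb hbz _ => hQ.nz b hb hbz) (fun _ => trivial) b hb
      trivial
  have hmn := mnB hmin hc F6 hQc
  have h0 : cntr 7 (fun p l p0 =>
      ((fun w6 q => (fun L => isZ L false
          (b2L KT LT i (addv w 6 v) w6 us p0 (Nat.shiftRight q 90) l L)) (KT.lk (w10 w6 q)))
        (tow p0 w v) (pw p) : Bool)) t 0 = true := h
  obtain ⟨p, l, h1⟩ := cntr_spec t 0 h0 z (Nat.zero_le _) hQ.la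
  obtain ⟨hL, h2⟩ := isZ_true (show isZ (KT.lk (w10 (tow z w v) (pw p))) false
    (b2L KT LT i (addv w 6 v) (tow z w v) us z (Nat.shiftRight (pw p) 90) l
      (KT.lk (w10 (tow z w v) (pw p)))) = true from h1)
  obtain ⟨l1, E, d, d1, d6, h3, hu⟩ := core7 hE hNR hK0 hP T6 F6 hQc hmn
    (Φ := fun l L => b2d KT LT i (addv w 6 v) (tow z w v) us z
      (vecOf L (Nat.shiftRight (pw p) 90)) (Nat.land (Nat.shiftRight (pw p) 90) 15) l 1) hL h2
  have h4 : cntr 7 (fun p' _ d =>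
      ((fun zz => (fun u => Nat.rec false
          (fun t _ => Nat.rec (LT (addv (addv w 6 v) 7 u) (Nat.shiftRight p' 3))
          (fun t _ => Nat.rec
            (Nat.beq (Nat.land (Nat.shiftRight us (Nat.mul 24 (Nat.shiftRight p' 3))) (msk 24))
              (Nat.add z (Nat.mul 8 u)))
          (fun t _ => Nat.rec (smp (addv (addv w 6 v) 7 u) (Nat.shiftRight p' 3))
          (fun _ _ => nomA KT i (tow z w v) (Nat.shiftRight p' 3) zz) t) t) t) (Nat.land p' 7))
        (tov z zz)) (Nat.add (vecOf E (Nat.shiftRight (pw p) 90))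
          (Nat.shiftLeft d (Nat.land (Nat.shiftRight (pw p) 90) 15))) : Bool)) l1 1 = true := h3
  obtain ⟨p', l', h5⟩ := cntr_spec l1 1 h4 d d1 (by omega)
  beta_reduce at h5
  generalize Nat.add (vecOf E (Nat.shiftRight (pw p) 90))
    (Nat.shiftLeft d (Nat.land (Nat.shiftRight (pw p) 90) 15)) = zz at *
  have hu7 := tov_vp hc hQ.la hu hQ.zr
  have T8 := rp_addv hc (m := 7) (by norm_num) T7 hu7
  have I8 : Ij (ups (ups f 6 P) 7 Q) 8 := I7.ups hQ.ne
  rcases tgs h5 with h5 | ⟨_, _, h5⟩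
  · exact absurd h5 Bool.false_ne_true
  rcases tgs h5 with h5 | ⟨_, _, h5⟩
  · refine (hLT _ _ 8 _ h5 T8 I8 (by norm_num) fun a ha => ?_).elim
    rw [ups_ne _ Q (by omega), ups_ne f P (by omega)]
  rcases tgs h5 with h5 | ⟨_, _, h5⟩
  · have h6 := Nat.eq_of_beq_eq_true h5
    refine ⟨Nat.shiftRight p' 3, _, ?_, hu7⟩
    rw [← shr, ← msk_mod]
    exact h6
  rcases tgs h5 with h5 | ⟨_, _, h5⟩
  · exact (smp_tb hP T8 I8 h5).elim
  · exact (nomA_sound hE hNR hK0 hP T6 F6 h5 hQc hu hmn).elim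

end

end Pool.Agent.Lib.EPS9
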