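import Pool.Agent.Lib.MP_c7e7f6_eps.ExtB1

/-!
Extension of the colourings of six points: one of the last points is not joined to two points.
-/

set_option autoImplicit false
set_option linter.unusedVariables false

namespace Pool.Agent.Lib.EPS9

open Finset

/-- loop over the pairs -/
noncomputable def b4lp (Φ : ℕ → Tr → ℕ → ℕ → Bool) (t : Tr) : ℕ → ℕ → Bool :=
  Tr.rec (motive := fun _ => Nat → Nat → Bool) (fun x z => Nat.beq z 7)
    (fun p l _ _ hr x z => cnd (Φ p l x z)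
      (brn (Nat.ble (Nat.add x 2) z) (hr (Nat.add x 1) z) (hr 0 (Nat.add z 1)))) t

theorem b4lp_spec {Φ : ℕ → Tr → ℕ → ℕ → Bool} (t : Tr) : ∀ x z, x < z → b4lp Φ t x z = true →
    ∀ x' z', x' < z' → z' < 7 → (z < z' ∨ (z = z' ∧ x ≤ x')) → ∃ p l, Φ p l x' z' = true := by
  induction t with
  | z =>
    intro x z hxz h x' z' h1 h2 h3
    have h4 : z = 7 := Nat.eq_of_beq_eq_true h
    omega
  | n p l r ihl ihr =>
    intro x z hxz h x' z' h1 h2 h3
    obtain ⟨h4, h5⟩ := cnd_true (show cnd (Φ p l x z) (brn (Nat.ble (Nat.add x 2) z)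
      (b4lp Φ r (x + 1) z) (b4lp Φ r 0 (z + 1))) = true from h)
    by_cases h6 : x = x' ∧ z = z'
    · obtain ⟨rfl, rfl⟩ := h6
      exact ⟨p, l, h4⟩
    · rcases brn_true h5 with ⟨h7, h8⟩ | ⟨h7, h8⟩
      · have h9 : x + 2 ≤ z := Nat.le_of_ble_eq_true h7
        exact ihr _ _ (by omega) h8 x' z' h1 h2 (by omega)
      · have h9 : ¬ x + 2 ≤ z := by
          intro h10
          have h11 : Nat.ble (Nat.add x 2) z = true := Nat.ble_eq_true_of_le h10
          rw [h11] at h7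
          exact absurd h7 (by decide)
        exact ihr _ _ (by omega) h8 x' z' h1 h2 (by omega)

section

variable {KT : Kt} {RW NR : ℕ} {ι : Type} {D : ι → ι → ℝ} {x : Fin 6 → ℝ} {c : ι → ι → ℕ}

theorem LTs.congr {LT : ℕ → ℕ → Bool} {f g : ℕ → ι} (h : LTs LT c f) (hfg : ∀ a < 6, g a = f a) :
    LTs LT c g := fun w p n f' h1 h2 h3 h4 h5 => h w p n f' h1 h2 h3 h4
      fun a ha => (h5 a ha).trans (hfg a ha)

/-- the multiplicities of seven points and two more points -/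
theorem qq97 (g : ℕ → ι) (Q U : ι) (e : ℕ) : qq c (ups (ups g 7 Q) 8 U) 9 e
    = qq c g 7 e + rr c g 7 Q e + (rr c g 7 U e + if e = c U Q then 1 else 0) := by
  set g9 := ups (ups g 7 Q) 8 U with hg
  have g7 : g9 7 = Q := by rw [hg, ups_ne _ U (by norm_num), ups_self]
  have g8 : g9 8 = U := ups_self _ _ _
  have k7 : ∀ i < 7, g9 i = g i := fun i hi => by
    rw [hg, ups_ne _ U (by omega), ups_ne g Q (by omega)]
  have h9 : qq c g9 9 e = qq c g9 7 e + rr c g9 7 (g9 7) e + rr c g9 8 (g9 8) e := by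
    rw [show (9 : ℕ) = 7 + 1 + 1 from rfl, qq_succ, qq_succ]
  have r8 : rr c g9 8 (g9 8) e = rr c g9 7 (g9 8) e + if e = c (g9 8) (g9 7) then 1 else 0 := by
    rw [show rr c g9 8 (g9 8) e = rr c g9 (7 + 1) (g9 8) e from rfl, rr_succ]
  rw [h9, r8, qq_congr k7, rr_congr k7, rr_congr k7, g7, g8]

/-- entries of 24 bits -/
theorem dec24 {R z u : ℕ} {g : ℕ → ι} {Q : ι} (hR : R % 2 ^ 24 = z + 8 * u) (hz : z < 7)
    (hu : Vp c u 7 Q g) : Nat.land R 7 = z ∧ Nat.land (Nat.shiftRight R 3) (msk 21) = u :=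
  ent_dec (n := 7) hR (by omega) hu.lt

theorem ne24 {R z u : ℕ} {g : ℕ → ι} {Q : ι} (hR : R % 2 ^ 24 = z + 8 * u)
    (hQ : AQ c g Q z) (hu : Vp c u 7 Q g) : R ≠ 0 := by
  apply ne_of_mod hR
  intro h1
  have h2 : u = 0 := by omega
  have h3 : z = 0 := by omega
  have h4 := hu 1
  rw [h2, fld_zero', if_pos (by norm_num)] at h4
  exact hQ.nz 1 (by norm_num) (by omega) h4.symm

theorem ij9 {g : ℕ → ι} (I7 : Ij g 7) {Q U : ι} (hQ : ∀ b, b < 7 → Q ≠ g b)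
    (hU : ∀ b, b < 7 → U ≠ g b) (hne : U ≠ Q) : Ij (ups (ups g 7 Q) 8 U) 9 := by
  refine (I7.ups hQ).ups fun i hi => ?_
  rcases Nat.lt_or_ge i 7 with h1 | h1
  · rw [ups_ne g Q (by omega)]
    exact hU i h1
  · have : i = 7 := by omega
    rw [this, ups_self]
    exact hne

theorem b4u_sound (hP : Pc D x c) {LT : ℕ → ℕ → Bool} {g : ℕ → ι} (hLT : LTs LT c g) {w7 : ℕ}
    (T7 : Tb c w7 7 g) (I7 : Ij g 7) {Q U : ι} {p0 u m xx zz u1 us : ℕ} (A : AQ c g Q p0)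
    (V : Vp c u 7 Q g) (e : us / 2 ^ (24 * m) % 2 ^ 24 = p0 + 8 * u) (hxz : xx < zz) (hz7 : zz < 7)
    (zx : c U (g xx) = 0) (zz0 : c U (g zz) = 0) (hU : ∀ b, b < 7 → U ≠ g b)
    (V1 : Vp c u1 7 U g) (hUQ : c U Q ≠ 0)
    (hor : D (g p0) Q = D (g xx) U ∨ D (g p0) Q = D (g zz) U ∨ D (g xx) U = D (g zz) U) {n : ℕ}
    (hn : Rc n 16 (fun e => qq c g 7 e + rr c g 7 U e))
    (hM : Mu (qq c (ups (ups g 7 Q) 8 U) 9)) {t : Tr}
    (h : b4u LT w7 xx zz u1 n t us = true) : False := by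
  have hc := hP.sy
  have hne : U ≠ Q := fun h1 => hUQ (by rw [h1, hc.self])
  have I9 := ij9 I7 A.ne hU hne
  have T8 := rp_addv hc (m := 7) (by norm_num) T7 V
  have T9 := rp_addv hc (m := 8) (by norm_num) T8 (vp21 hc V1 (Q := Q))
  have h0 : lst 24 (fun _ l R => ((fun u2 => (fun c' => exD (fun d p l => (fun w9 => Nat.rec false
            (fun t _ => Nat.rec (LT w9 (Nat.shiftRight p 3))
            (fun t _ => Nat.rec false
            (fun t _ => Nat.rec (smp w9 (Nat.shiftRight p 3))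
            (fun _ _ => fin9 w9 (mk2 (Nat.mul 3 (Nat.land R 7)) 7) (mk2 (Nat.mul 3 xx) 8)
              (mk2 (Nat.mul 3 zz) 8) l) t) t) t) (Nat.land p 7))
          (addv (addv w7 7 u2) 8 (Nat.add u1 (Nat.shiftLeft d 21)))) c'
          (Nat.sub 504 (spw c')) 6 1 l) (Nat.add n (cntv u2)))
        (Nat.land (Nat.shiftRight R 3) (msk 21)) : Bool)) t us = true := h
  obtain ⟨p, l, h1⟩ := lst_spec t _ h0 m (ne24 e A V)
  obtain ⟨e1, e2⟩ := dec24 e A.la V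
  beta_reduce at h1
  rw [e1, e2] at h1
  have h2 : Rc (Nat.add n (cntv u)) 24 (fun e => qq c g 7 e + rr c g 7 U e + rr c g 7 Q e) :=
    hn.add (rc_vp V (by norm_num))
  have l1 := hc.le U Q
  obtain ⟨p', l', h3⟩ := exD_sound h2 (by norm_num) hM (δ := c U Q) (by omega) l1
    (fun e _ _ => by
      rw [qq97]
      ring) h1
  have hf6 : ∀ a < 6, ups (ups g 7 Q) 8 U a = g a := fun a ha => by
    rw [ups_ne _ U (by omega), ups_ne g Q (by omega)]
  rcases tgs h3 with h4 | ⟨_, _, h4⟩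
  · exact absurd h4 Bool.false_ne_true
  rcases tgs h4 with h4 | ⟨_, _, h4⟩
  · exact hLT _ _ 9 _ h4 T9 I9 (by norm_num) hf6
  rcases tgs h4 with h4 | ⟨_, _, h4⟩
  · exact absurd h4 Bool.false_ne_true
  rcases tgs h4 with h4 | ⟨_, _, h4⟩
  · exact smp_tb hP T9 I9 h4
  · have k7 : ∀ i, i < 7 → ups (ups g 7 Q) 8 U i = g i := fun i hi => by
      rw [ups_ne _ U (by omega), ups_ne g Q (by omega)]
    have g7 : ups (ups g 7 Q) 8 U 7 = Q := by rw [ups_ne _ U (by norm_num), ups_self]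
    have g8 : ups (ups g 7 Q) 8 U 8 = U := ups_self _ _ _
    have la := A.la
    refine fin9_sound hP T9 I9 (a1 := p0) (b1 := 7) (a2 := xx) (b2 := 8) (a3 := zz) (b3 := 8)
      ⟨by omega, by norm_num, by omega, ?_⟩ ⟨by omega, by norm_num, by omega, ?_⟩
      ⟨by omega, by norm_num, by omega, ?_⟩ (by omega) (by omega) (by omega) ?_ h4
    · rw [k7 p0 la, g7, hc.symm]
      exact A.zr
    · rw [k7 xx (by omega), g8, hc.symm]
      exact zx
    · rw [k7 zz hz7, g8, hc.symm]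
      exact zz0
    · rw [k7 p0 la, k7 xx (by omega), k7 zz hz7, g7, g8]
      exact hor

theorem b4_sound (hE : EAll KT RW NR) (hNR : NR ≤ 16384) (hK0 : KT.lk 0 = 0) (hP : Pc D x c)
    {w : ℕ} {f : ℕ → ι} (hw : Tb c w 6 f) (hf : Fu c f) {LT : ℕ → ℕ → Bool} (hLT : LTs LT c f)
    {P : ι} (hPc : ∀ b, b < 6 → c P (f b) ≠ 0) {v : ℕ}
    (hv : Vp c v 6 P f) {Q U : ι} {p0 u m xx zz us : ℕ} (A : AQ c (ups f 6 P) Q p0)
    (V : Vp c u 7 Q (ups f 6 P)) (e : us / 2 ^ (24 * m) % 2 ^ 24 = p0 + 8 * u) (hxz : xx < zz)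
    (hz7 : zz < 7) (zx : c U (ups f 6 P xx) = 0) (zz0 : c U (ups f 6 P zz) = 0)
    (hU : ∀ b, b < 7 → U ≠ ups f 6 P b)
    (nz : ∀ b, b < 7 → b ≠ zz → b ≠ xx → c U (ups f 6 P b) ≠ 0) (hUQ : c U Q ≠ 0)
    (hor : D (ups f 6 P p0) Q = D (ups f 6 P xx) U ∨ D (ups f 6 P p0) Q = D (ups f 6 P zz) U ∨
      D (ups f 6 P xx) U = D (ups f 6 P zz) U) {n : ℕ} (hn : Rc n 8 (qq c (ups f 6 P) 7))
    (hM : Mu (qq c (ups (ups (ups f 6 P) 7 Q) 8 U) 9)) {t : Tr}
    (h : b4 KT LT w v us n t 0 1 = true) : False := by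
  have hc := hP.sy
  have hne : ∀ b, b < 6 → P ≠ f b := fun b hb h5 => hPc b hb (by rw [h5, hc.self])
  have I7 : Ij (ups f 6 P) 7 := (hf.ij hc).ups hne
  have T7 := rp_addv hc (m := 6) (by norm_num) hw hv
  have T6 := tow_tb hc hz7 hw hv
  have F6 := sx_fu hc hf hPc hz7
  have h0 : b4lp (fun p l xx zz => ((fun w6 q => cnd (Nat.beq (Nat.land (Nat.shiftRight q 90) 15)
      (Nat.mul 3 xx))
          ((fun L => isZ L false (b4L LT (addv w 6 v) xx zz us n (Nat.shiftRight q 90) l L))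
            (KT.lk (w10 w6 q)))) (tow zz w v) (pw p) : Bool)) t 0 1 = true := h
  obtain ⟨p, l, h1⟩ := b4lp_spec t 0 1 (by norm_num) h0 xx zz hxz hz7 (by omega)
  obtain ⟨h2, h3⟩ := cnd_true (show cnd (Nat.beq (Nat.land (Nat.shiftRight (pw p) 90) 15)
      (Nat.mul 3 xx))
          (isZ (KT.lk (w10 (tow zz w v) (pw p))) false (b4L LT (addv w 6 v) xx zz us n
            (Nat.shiftRight (pw p) 90) l (KT.lk (w10 (tow zz w v) (pw p))))) = true from h1)
  obtain ⟨hL, h4⟩ := isZ_true h3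
  obtain ⟨τ, hτ⟩ := perm_of hK0 hP T6 hL
  have h5 : τ 5 = xx := by
    have h6 := Nat.eq_of_beq_eq_true h2
    rw [hτ.last] at h6
    have h7 : 3 * τ 5 = 3 * xx := h6
    omega
  have hj : ∀ b, b < 6 → b ≠ xx → c U (sx f P zz b) ≠ 0 := fun b hb hbx =>
    sx_join (S := fun b => b ≠ xx) hz7 (fun b hb hbz hbx => nz b hb hbz hbx) (fun _ => by omega)
      b hb hbx
  obtain ⟨k, j, hk, h6, hEnt⟩ := entry hE hNR hP T6 F6 hτ hL (P := U) (by rw [h5]; exact hj)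
  have h7 : lst 30 (fun _ l L => ((fun u1 => b4u LT (addv w 6 v) xx zz u1 (Nat.add n (cntv u1)) l us)
      (tov zz (vecOf L (Nat.shiftRight (pw p) 90))) : Bool)) l (KT.lk (w10 (tow zz w v) (pw p)))
        = true := h4
  obtain ⟨p', l', h8⟩ := lst_spec l _ h7 k h6
  have hu0 := hEnt.vp (by
    rw [h5]
    unfold sx
    rw [ups_ne _ P (by omega)]
    exact zx)
  have hu1 := tov_vp hc hz7 hu0 zz0
  exact b4u_sound hP (hLT.congr fun a ha => ups_ne f P (by omega)) T7 I7 A V e hxz hz7 zx zz0 hU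
    hu1 hUQ hor (hn.add (rc_vp hu1 (by norm_num))) hM h8

end

end Pool.Agent.Lib.EPS9
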