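import Pool.Agent.Lib.MP_c7e7f6_eps.ExtB4

/-!
Extension of the colourings of six points: complete sets of eight points.
-/

set_option autoImplicit false
set_option linter.unusedVariables false

namespace Pool.Agent.Lib.EPS9

open Finset

section

variable {KT : Kt} {RW NR : ℕ} {ι : Type} {D : ι → ι → ℝ} {x : Fin 6 → ℝ} {c : ι → ι → ℕ}

theorem Vp.ne0 {v : ℕ} {P : ι} {f : ℕ → ι} (hv : Vp c v 6 P f)
    (hP : ∀ b, b < 6 → c P (f b) ≠ 0) : v ≠ 0 := by
  intro h
  apply hP 0 (by norm_num)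
  have := hv 0
  rw [h, fld_zero', if_pos (by norm_num)] at this
  exact this.symm

theorem rc7 {C v : ℕ} {f : ℕ → ι} {P : ι} (hC : Rc C 0 (qq c f 6)) (hv : Vp c v 6 P f) :
    Rc (Nat.add C (cntv v)) 8 (qq c (ups f 6 P) 7) := by
  refine (hC.add (rc_vp hv (by norm_num))).congr fun e _ _ => ?_
  have h : qq c (ups f 6 P) 7 e = qq c (ups f 6 P) 6 e + rr c (ups f 6 P) 6 (ups f 6 P 6) e := by
    rw [show (7 : ℕ) = 6 + 1 from rfl, qq_succ]
  have k : ∀ i < 6, ups f 6 P i = f i := fun i hi => ups_ne f P (by omega)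
  rw [h, ups_self, qq_congr k, rr_congr k]

theorem bAll_spec {LT : ℕ → ℕ → Bool} {i w C : ℕ} (t : Tr) : ∀ R, bAll KT LT i w C t R = true →
    ∀ k, R / 2 ^ (18 * k) ≠ 0 → ∃ us t5 t2 t3 t4, bK KT LT i w
      (Nat.land (R / 2 ^ (18 * k)) (msk 18)) (R / 2 ^ (18 * k))
      (Nat.add C (cntv (Nat.land (R / 2 ^ (18 * k)) (msk 18)))) us t5 t2 t3 t4 = true := by
  intro R h k hk
  have h0 : lst 18 (fun us l R => (Tr.rec (motive := fun _ => Bool) false
        (fun _ t5 r _ _ => Tr.rec (motive := fun _ => Bool) false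
          (fun _ t2 r _ _ => Tr.rec (motive := fun _ => Bool) false
            (fun _ t3 r _ _ => Tr.rec (motive := fun _ => Bool) false
              (fun _ t4 _ _ _ => (fun v => bK KT LT i w v R (Nat.add C (cntv v)) us t5 t2 t3 t4)
                (Nat.land R (msk 18))) r) r) r) l : Bool)) t R = true := h
  obtain ⟨us, l, h1⟩ := lst_spec t _ h0 k hk
  cases l with
  | z => exact absurd (show false = true from h1) Bool.false_ne_true
  | n q1 t5 l1 =>
    cases l1 with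
    | z => exact absurd (show false = true from h1) Bool.false_ne_true
    | n q2 t2 l2 =>
      cases l2 with
      | z => exact absurd (show false = true from h1) Bool.false_ne_true
      | n q3 t3 l3 =>
        cases l3 with
        | z => exact absurd (show false = true from h1) Bool.false_ne_true
        | n q4 t4 l4 => exact ⟨us, t5, t2, t3, t4, h1⟩

/-- everything about the seventh point number `m` in the list `ks` -/
theorem bAll_at {LT : ℕ → ℕ → Bool} {i w C ks v m : ℕ} {t : Tr}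
    (h : bAll KT LT i w C t ks = true) (hv : ks / 2 ^ (18 * m) % 2 ^ 18 = v) (h0 : v ≠ 0) :
    ∃ us t5 t2 t3 t4, b5 KT LT i w v (Nat.add C (cntv v)) t5 (ks / 2 ^ (18 * m)) = true ∧
      b2 KT LT i w v us t2 0 = true ∧ b3 LT (addv w 6 v) (Nat.add C (cntv v)) t3 us = true ∧
      b4 KT LT w v us (Nat.add C (cntv v)) t4 0 1 = true := by
  obtain ⟨us, t5, t2, t3, t4, h1⟩ := bAll_spec t _ h m (ne_of_mod hv h0)
  rw [msk_mod, hv] at h1
  obtain ⟨h2, h3⟩ := cnd_true (show cnd (b5 KT LT i w v (Nat.add C (cntv v)) t5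
    (ks / 2 ^ (18 * m))) (cnd (b2 KT LT i w v us t2 0)
    (cnd (b3 LT (addv w 6 v) (Nat.add C (cntv v)) t3 us)
      (b4 KT LT w v us (Nat.add C (cntv v)) t4 0 1))) = true from h1)
  obtain ⟨h4, h5⟩ := cnd_true h3
  obtain ⟨h6, h7⟩ := cnd_true h5
  exact ⟨us, t5, t2, t3, t4, h2, h4, h6, h7⟩

theorem b5_sound (hE : EAll KT RW NR) (hNR : NR ≤ 16384) (hK0 : KT.lk 0 = 0) (hP : Pc D x c)
    {w : ℕ} {f : ℕ → ι} (hw : Tb c w 6 f) (hf : Fu c f) {LT : ℕ → ℕ → Bool} (hLT : LTs LT c f)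
    {i : ℕ} (hmin : MinB RW i c) {P Q : ι} (hPc : ∀ b, b < 6 → c P (f b) ≠ 0)
    (hQc : ∀ b, b < 6 → c Q (f b) ≠ 0) (hQP : c Q P ≠ 0) {v u ks m1 m2 : ℕ}
    (hv : Vp c v 6 P f) (hu : Vp c u 6 Q f) (e2 : ks / 2 ^ (18 * m2) % 2 ^ 18 = u)
    (h12 : m1 ≤ m2) {R : ι} {n : ℕ} (hn : Rc n 8 (qq c (ups f 6 P) 7))
    (hM : Mu (qq c (ups (ups (ups f 6 P) 7 Q) 8 R) 9)) {t : Tr}
    (h : b5 KT LT i w v n t (ks / 2 ^ (18 * m1)) = true) : False := by
  have hc := hP.sy
  have hne : ∀ b, b < 6 → P ≠ f b := fun b hb h5 => hPc b hb (by rw [h5, hc.self])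
  have hneQ : ∀ b, b < 6 → Q ≠ f b := fun b hb h5 => hQc b hb (by rw [h5, hc.self])
  have hne2 : Q ≠ P := fun h5 => hQP (by rw [h5, hc.self])
  have I7 : Ij (ups f 6 P) 7 := (hf.ij hc).ups hne
  have I8 : Ij (ups (ups f 6 P) 7 Q) 8 := by
    refine I7.ups fun b hb => ?_
    rcases Nat.lt_or_ge b 6 with h1 | h1
    · rw [ups_ne f P (by omega)]
      exact hneQ b h1
    · have : b = 6 := by omega
      rw [this, ups_self]
      exact hne2
  have T7 := rp_addv hc (m := 6) (by norm_num) hw hv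
  have T8 := rp_addv hc (m := 7) (by norm_num) T7 (vp18 hc hu (Q := P))
  have h0 : lst 18 (fun _ l R => ((fun u => b5d KT LT i w v u (Nat.add n (cntv u)) l 1)
      (Nat.land R (msk 18)) : Bool)) t (ks / 2 ^ (18 * m1)) = true := h
  obtain ⟨d, rfl⟩ : ∃ d, m2 = m1 + d := ⟨m2 - m1, by omega⟩
  have hdv : ks / 2 ^ (18 * m1) / 2 ^ (18 * d) = ks / 2 ^ (18 * (m1 + d)) := by
    rw [Nat.div_div_eq_div_mul, ← pow_add]
    congr 2
    ring
  obtain ⟨p, l, h1⟩ := lst_spec t _ h0 d (by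
    rw [hdv]
    exact ne_of_mod e2 (hu.ne0 hQc))
  beta_reduce at h1
  rw [hdv, msk_mod, e2] at h1
  have h2 : cntr 7 (fun p' _ d =>
      ((fun w8 => Nat.rec false
          (fun t _ => Nat.rec (LT w8 (Nat.shiftRight p' 3))
          (fun t _ => Nat.rec false
          (fun t _ => Nat.rec (smp w8 (Nat.shiftRight p' 3))
          (fun t _ => Nat.rec
            ((fun s => cnd (Nat.ble s 15) (nomA KT i (rep w s v) (Nat.shiftRight p' 6) (sez u s d)))
              (Nat.mul 3 (Nat.land (Nat.shiftRight p' 3) 7)))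
          (fun _ _ => dom (Nat.add (Nat.add n (cntv u)) (cu d)) (Nat.shiftRight p' 3)) t) t) t) t)
            (Nat.land p' 7))
        (addv (addv w 6 v) 7 (Nat.add u (Nat.shiftLeft d 18))) : Bool)) l 1 = true := h1
  have l1 := hc.le Q P
  obtain ⟨p', l', h3⟩ := cntr_spec l 1 h2 (c Q P) (by omega) (by omega)
  rcases tgs h3 with h4 | ⟨_, _, h4⟩
  · exact absurd h4 Bool.false_ne_true
  rcases tgs h4 with h4 | ⟨_, _, h4⟩
  · refine hLT _ _ 8 _ h4 T8 I8 (by norm_num) fun a ha => ?_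
    rw [ups_ne _ Q (by omega), ups_ne f P (by omega)]
  rcases tgs h4 with h4 | ⟨_, _, h4⟩
  · exact absurd h4 Bool.false_ne_true
  rcases tgs h4 with h4 | ⟨_, _, h4⟩
  · exact smp_tb hP T8 I8 h4
  rcases tgs h4 with h4 | ⟨_, _, h4⟩
  · obtain ⟨h5, h6⟩ := cnd_true (show cnd (Nat.ble (3 * Nat.land (Nat.shiftRight p' 3) 7) 15)
      (nomA KT i (rep w (3 * Nat.land (Nat.shiftRight p' 3) 7) v) (Nat.shiftRight p' 6)
        (sez u (3 * Nat.land (Nat.shiftRight p' 3) 7) (c Q P))) = true from h4)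
    have h7 := Nat.le_of_ble_eq_true h5
    generalize Nat.land (Nat.shiftRight p' 3) 7 = a at *
    have ha : a < 6 := by omega
    have T6 := rp_rep hc ha hw (fun i _ => hv i)
    have F6 := hf.ups hc (a := a) (P := P) (fun b hb _ => hPc b hb)
    have V6 := vp_sez hc ha (fun i _ => hu i) (Q := P)
    have hQ6 : ∀ b, b < 6 → c Q (ups f a P b) ≠ 0 := by
      intro b hb
      by_cases h8 : b = a
      · rw [h8, ups_self]
        exact hQP
      · rw [ups_ne f P h8]
        exact hQc b hb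
    exact nomA_sound hE hNR hK0 hP T6 F6 h6 hQ6 V6 (mnB hmin hc F6 hQ6)
  · have h5 : Rc (Nat.add (Nat.add n (cntv u)) (cu (c Q P))) 17 (fun e => qq c (ups f 6 P) 7 e
        + rr c f 6 Q e + if e = c Q P then 1 else 0) :=
      (hn.add (rc_vp hu (by norm_num))).add (rc_cu hc Q P)
    refine dom_sound h5 (by norm_num) hM (fun e _ _ => ?_) h4
    rw [qq97]
    have h6 : rr c (ups f 6 P) 7 Q e = rr c f 6 Q e + if e = c Q P then 1 else 0 := by
      have h7 : rr c (ups f 6 P) 7 Q e = rr c (ups f 6 P) 6 Q e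
          + if e = c Q (ups f 6 P 6) then 1 else 0 := rr_succ _ _ _ _
      rw [h7, ups_self, rr_congr fun i hi => ups_ne f P (by omega)]
    rw [h6]
    omega

end

end Pool.Agent.Lib.EPS9
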