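import Pool.Agent.Lib.MP_c7e7f6_eps.ExtB5
import Pool.Agent.Lib.MP_c7e7f6_eps.ExtA3

/-!
Extension of the colourings of six points: number of the missing partners of a point.
-/

set_option autoImplicit false
set_option linter.unusedVariables false

namespace Pool.Agent.Lib.EPS9

open Finset

section

variable {c : Fin 9 → Fin 9 → ℕ} {g : ℕ → Fin 9} {m : ℕ} {P : Fin 9}

theorem cz_iff (hP : ∀ b, b < m → P ≠ g b) {i : ℕ} (hi : i < m) :
    1 = cz c P (g i) ↔ c P (g i) = 0 := by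
  unfold cz
  constructor
  · intro h
    by_contra h1
    rw [if_neg (fun h2 => h1 h2.2)] at h
    exact absurd h one_ne_zero
  · intro h
    rw [if_pos ⟨hP i hi, h⟩]

theorem deg_card : rr (cz c) g m P 1 = ((range m).filter (fun i => 1 = cz c P (g i))).card := by
  unfold rr
  rw [← Finset.card_filter]

theorem deg0 (hP : ∀ b, b < m → P ≠ g b) (h : rr (cz c) g m P 1 = 0) :
    ∀ b, b < m → c P (g b) ≠ 0 := by
  rw [deg_card, Finset.card_eq_zero] at h
  intro b hb h1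
  have h2 : b ∈ (range m).filter (fun i => 1 = cz c P (g i)) :=
    Finset.mem_filter.2 ⟨Finset.mem_range.2 hb, (cz_iff hP hb).2 h1⟩
  rw [h] at h2
  exact absurd h2 (Finset.notMem_empty b)

theorem deg1 (hP : ∀ b, b < m → P ≠ g b) (h : rr (cz c) g m P 1 = 1) :
    ∃ z, z < m ∧ c P (g z) = 0 ∧ ∀ b, b < m → b ≠ z → c P (g b) ≠ 0 := by
  rw [deg_card, Finset.card_eq_one] at h
  obtain ⟨z, hz⟩ := h
  have hz1 : z ∈ (range m).filter (fun i => 1 = cz c P (g i)) := by
    rw [hz]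
    exact Finset.mem_singleton_self z
  rw [Finset.mem_filter, Finset.mem_range] at hz1
  refine ⟨z, hz1.1, (cz_iff hP hz1.1).1 hz1.2, fun b hb hbz h1 => hbz ?_⟩
  have h2 : b ∈ (range m).filter (fun i => 1 = cz c P (g i)) :=
    Finset.mem_filter.2 ⟨Finset.mem_range.2 hb, (cz_iff hP hb).2 h1⟩
  rw [hz] at h2
  exact Finset.mem_singleton.1 h2

theorem deg2 (hP : ∀ b, b < m → P ≠ g b) (h : rr (cz c) g m P 1 = 2) :
    ∃ xx zz, xx < zz ∧ zz < m ∧ c P (g xx) = 0 ∧ c P (g zz) = 0 ∧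
      ∀ b, b < m → b ≠ zz → b ≠ xx → c P (g b) ≠ 0 := by
  rw [deg_card, Finset.card_eq_two] at h
  obtain ⟨y, z, hyz, hz⟩ := h
  have hz1 : z ∈ (range m).filter (fun i => 1 = cz c P (g i)) := by
    rw [hz]
    simp
  have hy1 : y ∈ (range m).filter (fun i => 1 = cz c P (g i)) := by
    rw [hz]
    simp
  rw [Finset.mem_filter, Finset.mem_range] at hz1 hy1
  have z0 := (cz_iff hP hz1.1).1 hz1.2
  have y0 := (cz_iff hP hy1.1).1 hy1.2
  have key : ∀ b, b < m → b ≠ z → b ≠ y → c P (g b) ≠ 0 := by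
    intro b hb hbz hby h1
    have h2 : b ∈ (range m).filter (fun i => 1 = cz c P (g i)) :=
      Finset.mem_filter.2 ⟨Finset.mem_range.2 hb, (cz_iff hP hb).2 h1⟩
    rw [hz, Finset.mem_insert, Finset.mem_singleton] at h2
    rcases h2 with h2 | h2
    · exact hby h2
    · exact hbz h2
  rcases Nat.lt_or_ge y z with h3 | h3
  · exact ⟨y, z, h3, hz1.1, y0, z0, key⟩
  · exact ⟨z, y, by omega, hy1.1, z0, y0, fun b hb hby hbz => key b hb hbz hby⟩

/-- no missing pair among seven complete points -/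
theorem cz_full7 (hg : F7 c g) : qq (cz c) g 7 1 = 0 := by
  unfold qq rr
  refine Finset.sum_eq_zero fun j hj => Finset.sum_eq_zero fun i hi => ?_
  have hj' := Finset.mem_range.1 hj
  have hi' := Finset.mem_range.1 hi
  have h2 := hg j i hj' (by omega) (by omega)
  have h5 : cz c (g j) (g i) = 0 := by
    unfold cz
    rw [if_neg (fun h3 => h2 h3.2)]
  rw [h5, if_neg (by norm_num)]

end

/-- two more points -/
theorem ext97 {g : ℕ → Fin 9} (hg : Ij g 7) : ∃ Q1 Q2 : Fin 9, (∀ b, b < 7 → Q1 ≠ g b) ∧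
    (∀ b, b < 7 → Q2 ≠ g b) ∧ Q1 ≠ Q2 := by
  have h1 : ((range 7).image g).card = 7 := by
    rw [Finset.card_image_of_injOn, Finset.card_range]
    intro i hi j hj hij
    exact hg i j (Finset.mem_range.1 hi) (Finset.mem_range.1 hj) hij
  have h2 : (((range 7).image g)ᶜ).card = 2 := by
    rw [card_compl, Fintype.card_fin, h1]
  obtain ⟨Q1, Q2, h12, h3⟩ := Finset.card_eq_two.1 h2
  have h4 : ∀ P ∈ ((range 7).image g)ᶜ, ∀ b, b < 7 → P ≠ g b := by
    intro P hP b hb h5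
    exact Finset.mem_compl.1 hP (Finset.mem_image.2 ⟨b, Finset.mem_range.2 hb, h5.symm⟩)
  rw [h3] at h4
  exact ⟨Q1, Q2, h4 Q1 (by simp), h4 Q2 (by simp), h12⟩

/-- a complete set of seven points -/
theorem full7 {c : Fin 9 → Fin 9 → ℕ} (hc : Sy c) {u v : Fin 9} (huv : u ≠ v)
    (hm : ∀ i j, i ≠ j → c i j = 0 → i = u ∨ i = v ∨ j = u ∨ j = v) :
    ∃ (p : Fin 6 → Fin 9) (Q : Fin 9), Full c p ∧ ∀ a, c Q (p a) ≠ 0 := by
  have hC : (({u, v} : Finset (Fin 9))ᶜ).card = 7 := by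
    rw [card_compl, Fintype.card_fin, Finset.card_pair huv]
  set e := (({u, v} : Finset (Fin 9))ᶜ).orderEmbOfFin hC with he
  have hmem : ∀ a, e a ≠ u ∧ e a ≠ v := by
    intro a
    have h1 := Finset.mem_compl.1 ((({u, v} : Finset (Fin 9))ᶜ).orderEmbOfFin_mem hC a)
    rw [Finset.mem_insert, Finset.mem_singleton] at h1
    exact ⟨fun h => h1 (Or.inl h), fun h => h1 (Or.inr h)⟩
  have hn : ∀ a b, a ≠ b → c (e a) (e b) ≠ 0 := by
    intro a b hab h1
    rcases hm _ _ (e.injective.ne hab) h1 with h2 | h2 | h2 | h2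
    · exact (hmem a).1 h2
    · exact (hmem a).2 h2
    · exact (hmem b).1 h2
    · exact (hmem b).2 h2
  refine ⟨fun a => e (Fin.castSucc a), e (Fin.last 6), ⟨?_, ?_⟩, ?_⟩
  · intro a b hab
    exact Fin.castSucc_injective 6 (e.injective hab)
  · intro a b hab
    exact hn _ _ fun h => hab (Fin.castSucc_injective 6 h)
  · intro a
    exact hn _ _ (Fin.castSucc_lt_last a).ne'

end Pool.Agent.Lib.EPS9
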