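import Pool.Agent.Lib.MP_c7e7f6_eps.ExtB6

/-!
Extension of the colourings of six points: two points cover the missing pairs, conclusion.
-/

set_option autoImplicit false
set_option linter.unusedVariables false

namespace Pool.Agent.Lib.EPS9

open Finset

theorem b3_sound {ι : Type} {D : ι → ι → ℝ} {x : Fin 6 → ℝ} {c : ι → ι → ℕ} (hP : Pc D x c)
    {LT : ℕ → ℕ → Bool} {g : ℕ → ι} (hLT : LTs LT c g) {w7 : ℕ}
    (T7 : Tb c w7 7 g) (I7 : Ij g 7) {Q1 Q2 : ι} {p1 p2 u1 u2 m1 m2 us : ℕ} (A1 : AQ c g Q1 p1)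
    (A2 : AQ c g Q2 p2) (V1 : Vp c u1 7 Q1 g) (V2 : Vp c u2 7 Q2 g)
    (e1 : us / 2 ^ (24 * m1) % 2 ^ 24 = p1 + 8 * u1)
    (e2 : us / 2 ^ (24 * m2) % 2 ^ 24 = p2 + 8 * u2) (h12 : m1 ≤ m2) (hne : Q1 ≠ Q2)
    (hz : c Q2 Q1 = 0)
    (hor : D (g p1) Q1 = D (g p2) Q2 ∨ D (g p1) Q1 = D Q1 Q2 ∨ D (g p2) Q2 = D Q1 Q2) {n : ℕ}
    (hn : Rc n 8 (qq c g 7)) (hM : Mu (qq c (ups (ups g 7 Q1) 8 Q2) 9)) {t : Tr}
    (h : b3 LT w7 n t us = true) : False := by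
  have hc := hP.sy
  have I9 := ij9 I7 A1.ne A2.ne hne.symm
  have T8 := rp_addv hc (m := 7) (by norm_num) T7 V1
  have V2' : Vp c u2 8 Q2 (ups g 7 Q1) := by
    intro i
    rw [V2 i]
    rcases lt_trichotomy i 7 with h1 | h1 | h1
    · rw [if_pos h1, if_pos (by omega), ups_ne g Q1 (by omega)]
    · rw [if_neg (by omega), if_pos (by omega), h1, ups_self, hz]
    · rw [if_neg (by omega), if_neg (by omega)]
  have T9 := rp_addv hc (m := 8) (by norm_num) T8 V2'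
  have h0 : lst 24 (fun _ l R => ((fun e1 => b3b LT w7 e1 (Nat.add n (cntv (Nat.shiftRight e1 3)))
      l R) (Nat.land R (msk 24)) : Bool)) t us = true := h
  obtain ⟨p, l, h1⟩ := lst_spec t _ h0 m1 (ne24 e1 A1 V1)
  beta_reduce at h1
  have l1 := A1.la
  have l2 := A2.la
  rw [msk_mod, e1] at h1
  have d1 : Nat.shiftRight (p1 + 8 * u1) 3 = u1 := by
    rw [shr]
    omega
  rw [d1] at h1
  have d2 : Nat.land (p1 + 8 * u1) 7 = p1 := by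
    rw [land7]
    omega
  have h2 : lst 24 (fun p l R => ((fun u2 => (fun w9 => Nat.rec
          (brn (Nat.beq (spw (Nat.add (Nat.add n (cntv u1)) (cntv u2))) 504) false true)
          (fun t _ => Nat.rec (LT w9 (Nat.shiftRight p 3))
          (fun t _ => Nat.rec false
          (fun t _ => Nat.rec (smp w9 (Nat.shiftRight p 3))
          (fun _ _ => fin9 w9 (mk2 (Nat.mul 3 (Nat.land (p1 + 8 * u1) 7)) 7)
            (mk2 (Nat.mul 3 (Nat.land R 7)) 8) (mk2 21 8) l) t) t) t) (Nat.land p 7))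
        (addv (addv w7 7 (Nat.shiftRight (p1 + 8 * u1) 3)) 8 u2))
        (Nat.land (Nat.shiftRight R 3) (msk 21)) : Bool)) l (us / 2 ^ (24 * m1)) = true := h1
  obtain ⟨d, rfl⟩ : ∃ d, m2 = m1 + d := ⟨m2 - m1, by omega⟩
  have hdv : us / 2 ^ (24 * m1) / 2 ^ (24 * d) = us / 2 ^ (24 * (m1 + d)) := by
    rw [Nat.div_div_eq_div_mul, ← pow_add]
    congr 2
    ring
  obtain ⟨p', l', h3⟩ := lst_spec l _ h2 d (by
    rw [hdv]
    exact ne24 e2 A2 V2)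
  beta_reduce at h3
  rw [hdv] at h3
  obtain ⟨b1', b2'⟩ := dec24 e2 l2 V2
  rw [b1', b2', d1, d2] at h3
  have h4 : Rc (Nat.add (Nat.add n (cntv u1)) (cntv u2)) 24
      (fun e => qq c g 7 e + rr c g 7 Q1 e + rr c g 7 Q2 e) :=
    (hn.add (rc_vp V1 (by norm_num))).add (rc_vp V2 (by norm_num))
  rcases tgs h3 with h5 | ⟨_, _, h5⟩
  · have h6 := spw_504 h4 (by norm_num) hM (fun e he _ => by
      rw [qq97, hz, if_neg (by omega)]
      ring)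
    rcases brn_true h5 with ⟨_, h7⟩ | ⟨h7, _⟩
    · exact absurd h7 Bool.false_ne_true
    · rw [h6, Nat.beq_refl] at h7
      exact absurd h7.symm Bool.false_ne_true
  rcases tgs h5 with h5 | ⟨_, _, h5⟩
  · refine hLT _ _ 9 _ h5 T9 I9 (by norm_num) fun a ha => ?_
    rw [ups_ne _ Q2 (by omega), ups_ne g Q1 (by omega)]
  rcases tgs h5 with h5 | ⟨_, _, h5⟩
  · exact absurd h5 Bool.false_ne_true
  rcases tgs h5 with h5 | ⟨_, _, h5⟩
  · exact smp_tb hP T9 I9 h5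
  · have k7 : ∀ i, i < 7 → ups (ups g 7 Q1) 8 Q2 i = g i := fun i hi => by
      rw [ups_ne _ Q2 (by omega), ups_ne g Q1 (by omega)]
    have g7 : ups (ups g 7 Q1) 8 Q2 7 = Q1 := by rw [ups_ne _ Q2 (by norm_num), ups_self]
    have g8 : ups (ups g 7 Q1) 8 Q2 8 = Q2 := ups_self _ _ _
    refine fin9_sound hP T9 I9 (a1 := p1) (b1 := 7) (a2 := p2) (b2 := 8) (a3 := 7) (b3 := 8)
      ⟨by omega, by norm_num, by omega, ?_⟩ ⟨by omega, by norm_num, by omega, ?_⟩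
      ⟨by norm_num, by norm_num, by norm_num, ?_⟩ (by omega) (by omega) (by omega) ?_ h5
    · rw [k7 p1 l1, g7, hc.symm]
      exact A1.zr
    · rw [k7 p2 l2, g8, hc.symm]
      exact A2.zr
    · rw [g7, g8, hc.symm]
      exact hz
    · rw [k7 p1 l1, k7 p2 l2, g7, g8]
      exact hor

theorem searchB {KT : Kt} {RW NR : ℕ} (hE : EAll KT RW NR) (hNR : NR ≤ 16384)
    (hK0 : KT.lk 0 = 0) (hR : RAll RW NR) (hI : ∀ i < NR, OkI KT RW i)
    {D : Fin 9 → Fin 9 → ℝ} {x : Fin 6 → ℝ} {c : Fin 9 → Fin 9 → ℕ} (h : Nine D x c)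
    (u v : Fin 9) (huv : u ≠ v)
    (hm : ∀ i j, i ≠ j → c i j = 0 → i = u ∨ i = v ∨ j = u ∨ j = v) : False := by
  classical
  have hc := h.sy
  have hP := h.toPc
  obtain ⟨p0, Q0, hp0, hQ0⟩ := full7 hc huv hm
  obtain ⟨j0, hj0, hiso0⟩ := hR D x c p0 hP hp0
  have hex : ∃ i, ∃ p : Fin 6 → Fin 9, Full c p ∧ (∃ Q, ∀ a, c Q (p a) ≠ 0) ∧ Iso RW i c p :=
    ⟨j0, p0, hp0, ⟨Q0, hQ0⟩, hiso0⟩
  obtain ⟨p, hp, ⟨P, hPp⟩, hiso⟩ := Nat.find_spec hex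
  have hmin : MinB RW (Nat.find hex) c := fun p' j h1 h2 h3 =>
    Nat.find_min' hex ⟨p', h1, h2, h3⟩
  have hi : Nat.find hex < NR :=
    lt_of_le_of_lt (Nat.find_min' hex ⟨p0, hp0, ⟨Q0, hQ0⟩, hiso0⟩) hj0
  generalize Nat.find hex = i at *
  obtain ⟨alts, ks, pB, t1, t2, t3, t4, σ, LT, C, hw, hf, hC, hLT, _, _, hb1, hbA⟩ :=
    chkI_sound hP (hI i hi) hp hiso
  have hPc : ∀ b, b < 6 → c P (lab p σ b) ≠ 0 := fun b _ => hPp _
  generalize lab p σ = f at *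
  clear hPp
  have hne : ∀ b, b < 6 → P ≠ f b := fun b hb h5 => hPc b hb (by rw [h5, hc.self])
  have I7 : Ij (ups f 6 P) 7 := (hf.ij hc).ups hne
  have hF7 := f7_ups hc hf hPc
  obtain ⟨m0, v0, ev0, hv0⟩ := b1_sound hE hNR hK0 hP hw hf hLT hmin hb1 hPc
  have mu : ∀ {g : ℕ → Fin 9}, Ij g 9 → Mu (qq c g 9) := fun hg => h.mu.congr fun e he _ =>
    (h.qq9 hg he).symm
  -- eight complete points
  have aux8 : ∀ {P Q R : Fin 9} {v u m1 m2 : ℕ}, (∀ b, b < 6 → c P (f b) ≠ 0) →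
      (∀ b, b < 6 → c Q (f b) ≠ 0) → c Q P ≠ 0 → (∀ b, b < 6 → R ≠ f b) → R ≠ P → R ≠ Q →
      Vp c v 6 P f → Vp c u 6 Q f → ks / 2 ^ (18 * m1) % 2 ^ 18 = v →
      ks / 2 ^ (18 * m2) % 2 ^ 18 = u → m1 ≤ m2 → False := by
    intro P Q R v u m1 m2 hPc hQc hQP hR1 hR2 hR3 hv hu e1 e2 h12
    obtain ⟨us, s5, s2, s3, s4, h5, _, _, _⟩ := bAll_at hbA e1 (hv.ne0 hPc)
    have hneP : ∀ b, b < 6 → P ≠ f b := fun b hb h5 => hPc b hb (by rw [h5, hc.self])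
    have hneQ : ∀ b, b < 6 → Q ≠ f b := fun b hb h5 => hQc b hb (by rw [h5, hc.self])
    have hne2 : Q ≠ P := fun h5 => hQP (by rw [h5, hc.self])
    have J7 : Ij (ups f 6 P) 7 := (hf.ij hc).ups hneP
    have seven : ∀ {S : Fin 9}, (∀ b, b < 6 → S ≠ f b) → S ≠ P → ∀ b, b < 7 → S ≠ ups f 6 P b := by
      intro S h1 h2 b hb
      rcases Nat.lt_or_ge b 6 with h3 | h3
      · rw [ups_ne f P (by omega)]
        exact h1 b h3
      · have : b = 6 := by omega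
        rw [this, ups_self]
        exact h2
    exact b5_sound hE hNR hK0 hP hw hf hLT hmin hPc hQc hQP hv hu e2 h12 (rc7 hC hv)
      (mu (ij9 J7 (seven hneQ hne2) (seven hR1 hR2) hR3)) h5
  have key8 : ∀ {Q R : Fin 9}, (∀ b, b < 7 → Q ≠ ups f 6 P b) → (∀ b, b < 7 → R ≠ ups f 6 P b) →
      Q ≠ R → rr (cz c) (ups f 6 P) 7 Q 1 = 0 → False := by
    intro Q R hQ hR' hQR hd
    have hj := deg0 hQ hd
    have hQc : ∀ b, b < 6 → c Q (f b) ≠ 0 := by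
      intro b hb
      have := hj b (by omega)
      rwa [ups_ne f P (by omega)] at this
    have hQP : c Q P ≠ 0 := by
      have := hj 6 (by norm_num)
      rwa [ups_self] at this
    have hRf : ∀ b, b < 6 → R ≠ f b := by
      intro b hb
      have := hR' b (by omega)
      rwa [ups_ne f P (by omega)] at this
    have hRP : R ≠ P := by
      have := hR' 6 (by norm_num)
      rwa [ups_self] at this
    obtain ⟨m, w1, ew, hw1⟩ := b1_sound hE hNR hK0 hP hw hf hLT hmin hb1 hQc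
    rcases Nat.lt_or_ge m m0 with h1 | h1
    · exact aux8 hQc hPc (by rw [hc.symm]; exact hQP) hRf hQR.symm hRP hw1 hv0 ew ev0 h1.le
    · exact aux8 hPc hQc hQP hRf hRP hQR.symm hv0 hw1 ev0 ew h1
  -- the seventh point
  obtain ⟨us, s5, s2, s3, s4, _, k2, k3, k4⟩ := bAll_at hbA ev0 (hv0.ne0 hPc)
  have hn := rc7 hC hv0
  have T7 := rp_addv hc (m := 6) (by norm_num) hw hv0
  have hLT7 : LTs LT c (ups f 6 P) := hLT.congr fun a ha => ups_ne f P (by omega)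
  -- one missing partner
  have aq : ∀ {Q : Fin 9}, (∀ b, b < 7 → Q ≠ ups f 6 P b) →
      rr (cz c) (ups f 6 P) 7 Q 1 = 1 → ∃ z m u, AQ c (ups f 6 P) Q z ∧
        us / 2 ^ (24 * m) % 2 ^ 24 = z + 8 * u ∧ Vp c u 7 Q (ups f 6 P) := by
    intro Q hQ hd
    obtain ⟨z, hz, hz0, hzn⟩ := deg1 hQ hd
    have hA : AQ c (ups f 6 P) Q z := ⟨hz, hQ, hz0, hzn⟩
    obtain ⟨m, u, e, hu⟩ := b2_sound hE hNR hK0 hP hw hf hLT hmin hPc hv0 k2 hA
    exact ⟨z, m, u, hA, e, hu⟩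
  have key4 : ∀ {Q U : Fin 9}, (∀ b, b < 7 → Q ≠ ups f 6 P b) → (∀ b, b < 7 → U ≠ ups f 6 P b) →
      c U Q ≠ 0 → rr (cz c) (ups f 6 P) 7 Q 1 = 1 → rr (cz c) (ups f 6 P) 7 U 1 = 2 → False := by
    intro Q U hQ hU hUQ d1 d2
    have hne2 : U ≠ Q := fun h5 => hUQ (by rw [h5, hc.self])
    obtain ⟨z, m, u, hA, e, hu⟩ := aq hQ d1
    obtain ⟨xx, zz, hxz, hz7, zx, zz0, nz⟩ := deg2 hU d2
    have hor := h.or (a := ups f 6 P z) (b := Q) (a' := ups f 6 P xx) (b' := U)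
      (a'' := ups f 6 P zz) (b'' := U) (hQ z hA.la).symm (hU xx (by omega)).symm
      (hU zz hz7).symm (by rw [hc.symm]; exact hA.zr) (by rw [hc.symm]; exact zx)
      (by rw [hc.symm]; exact zz0)
      ⟨fun h1 => hne2 h1.2.symm, fun h1 => hU z hA.la h1.1.symm⟩
      ⟨fun h1 => hne2 h1.2.symm, fun h1 => hU z hA.la h1.1.symm⟩
      ⟨fun h1 => by
        have := I7 xx zz (by omega) hz7 h1.1
        omega, fun h1 => hU xx (by omega) h1.1.symm⟩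
    exact b4_sound hE hNR hK0 hP hw hf hLT hPc hv0 hA hu e hxz hz7 zx zz0 hU nz hUQ hor hn
      (mu (ij9 I7 hQ hU hne2)) k4
  have key3 : ∀ {Q1 Q2 : Fin 9} {z1 z2 m1 m2 u1 u2 : ℕ}, AQ c (ups f 6 P) Q1 z1 →
      AQ c (ups f 6 P) Q2 z2 → us / 2 ^ (24 * m1) % 2 ^ 24 = z1 + 8 * u1 →
      us / 2 ^ (24 * m2) % 2 ^ 24 = z2 + 8 * u2 → Vp c u1 7 Q1 (ups f 6 P) →
      Vp c u2 7 Q2 (ups f 6 P) → Q1 ≠ Q2 → c Q2 Q1 = 0 → m1 ≤ m2 → False := by
    intro Q1 Q2 z1 z2 m1 m2 u1 u2 A1 A2 e1 e2 V1 V2 n12 hz h12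
    have l1 := A1.la
    have l2 := A2.la
    have hor := h.or (a := ups f 6 P z1) (b := Q1) (a' := ups f 6 P z2) (b' := Q2)
      (a'' := Q1) (b'' := Q2) (A1.ne z1 l1).symm (A2.ne z2 l2).symm n12
      (by rw [hc.symm]; exact A1.zr) (by rw [hc.symm]; exact A2.zr) (by rw [hc.symm]; exact hz)
      ⟨fun h1 => n12 h1.2, fun h1 => A2.ne z1 l1 h1.1.symm⟩
      ⟨fun h1 => n12 h1.2, fun h1 => A2.ne z1 l1 h1.1.symm⟩
      ⟨fun h1 => A1.ne z2 l2 h1.1.symm, fun h1 => n12 h1.2.symm⟩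
    exact b3_sound hP hLT7 T7 I7 A1 A2 V1 V2 e1 e2 h12 n12 hz hor hn
      (mu (ij9 I7 A1.ne A2.ne n12.symm)) k3
  -- cases
  obtain ⟨Q1, Q2, n1, n2, n12⟩ := ext97 I7
  have hs := h.cz3 (ij9 I7 n1 n2 n12.symm)
  rw [qq97, cz_full7 hF7, zero_add] at hs
  have z01 : (if 1 = cz c Q2 Q1 then 1 else 0) ≤ 1 := by split_ifs <;> omega
  by_cases q1 : rr (cz c) (ups f 6 P) 7 Q1 1 = 0
  · exact key8 n1 n2 n12 q1
  by_cases q2 : rr (cz c) (ups f 6 P) 7 Q2 1 = 0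
  · exact key8 n2 n1 n12.symm q2
  by_cases q3 : 1 = cz c Q2 Q1
  · have hz : c Q2 Q1 = 0 := by
      unfold cz at q3
      by_contra h1
      rw [if_neg (fun h2 => h1 h2.2)] at q3
      exact absurd q3 one_ne_zero
    rw [if_pos q3] at hs
    obtain ⟨z1, m1, u1, A1, e1, V1⟩ := aq n1 (by omega)
    obtain ⟨z2, m2, u2, A2, e2, V2⟩ := aq n2 (by omega)
    rcases Nat.lt_or_ge m2 m1 with h1 | h1
    · exact key3 A2 A1 e2 e1 V2 V1 n12.symm (by rw [hc.symm]; exact hz) h1.le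
    · exact key3 A1 A2 e1 e2 V1 V2 n12 hz h1
  · rw [if_neg q3] at hs
    have hz : c Q2 Q1 ≠ 0 := by
      intro h1
      apply q3
      unfold cz
      rw [if_pos ⟨n12.symm, h1⟩]
    by_cases q4 : rr (cz c) (ups f 6 P) 7 Q1 1 = 1
    · exact key4 n1 n2 hz q4 (by omega)
    · exact key4 n2 n1 (by rw [hc.symm]; exact hz) (by omega) (by omega)

end Pool.Agent.Lib.EPS9
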