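import Pool.Agent.Lib.MP_c7e7f6_eps.Geo

/-!
Definitions: configurations with codes, nine points.
-/

set_option autoImplicit false

namespace Pool.Agent.Lib.EPS9

open Finset

/-- codes of the pairs: 0 unknown, `k + 1` for the distance `x k` -/
structure Pc {ι : Type*} (D : ι → ι → ℝ) (x : Fin 6 → ℝ) (c : ι → ι → ℕ) : Prop where
  geo : Geo D
  pos : ∀ k, 0 < x k
  mono : StrictMono x
  symm : ∀ i j, c i j = c j i
  self : ∀ i, c i i = 0
  le : ∀ i j, c i j ≤ 6
  eq : ∀ i j, i ≠ j → ∀ k : Fin 6, c i j = k + 1 → D i j = x k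

/-- six different points with known distances -/
def Full {ι : Type*} (c : ι → ι → ℕ) (p : Fin 6 → ι) : Prop :=
  Function.Injective p ∧ ∀ a b, a ≠ b → c (p a) (p b) ≠ 0

/-- nine points, three pairs have an unknown distance, the six known distances occur 3, …, 8 times,
among three different pairs with unknown distance two have the same distance -/
structure Nine (D : Fin 9 → Fin 9 → ℝ) (x : Fin 6 → ℝ) (c : Fin 9 → Fin 9 → ℕ) : Prop
    extends Pc D x c where
  cnt : ∃ π : Equiv.Perm (Fin 6), ∀ k : Fin 6,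
    ((univ : Finset (Fin 9 × Fin 9)).filter
      (fun p => p.1 < p.2 ∧ c p.1 p.2 = (k : ℕ) + 1)).card = (π k : ℕ) + 3
  zero : ((univ : Finset (Fin 9 × Fin 9)).filter (fun p => p.1 < p.2 ∧ c p.1 p.2 = 0)).card = 3
  mis : ∀ a b a' b' a'' b'' : Fin 9, a < b → a' < b' → a'' < b'' → c a b = 0 → c a' b' = 0 →
    c a'' b'' = 0 → (a, b) ≠ (a', b') → (a, b) ≠ (a'', b'') → (a', b') ≠ (a'', b'') →
    D a b = D a' b' ∨ D a b = D a'' b'' ∨ D a' b' = D a'' b''

end Pool.Agent.Lib.EPS9
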