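import Pool.Agent.Lib.MP_c7e7f6_eps.TreeCfg

/-!
Soundness of the search tree of `Core2`: every coloured configuration of six points is, after a
permutation of the points, one of the words of the table `RW`.
-/

set_option autoImplicit false
set_option linter.unusedVariables false

namespace Pool.Agent.Lib.EPS9

/-- a state that is treated completely by the kernel -/
def Ok6 (RW NR r : ℕ) : Prop := ∃ t, chk6 RW NR r t = true

/-- all states in the tree are treated -/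
def Rt.All (RW NR : ℕ) : Rt → Prop
  | .e r => Ok6 RW NR r
  | .b x y => x.All RW NR ∧ y.All RW NR

theorem Rt.get_ok {RW NR : ℕ} : ∀ (R : Rt), R.All RW NR → ∀ p, Ok6 RW NR (R.get p) := by
  intro R
  induction R with
  | e r =>
    intro h p
    exact h
  | b x y ihx ihy =>
    intro h p
    have h' : (Rt.b x y).get p
        = isZn (Nat.land p 1) (x.get (Nat.shiftRight p 1)) (y.get (Nat.shiftRight p 1)) := rfl
    rw [h']
    rcases Nat.eq_zero_or_pos (Nat.land p 1) with h1 | h1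
    · rw [h1]
      exact ihx h.1 _
    · rw [isZn_pos (by omega)]
      exact ihy h.2 _

theorem dfs_sound {RW NR m0 : ℕ} (hRW : ∀ j < NR, ∀ t < 15, went RW j t ≠ 0)
    (hbad : ∀ i < 237, ∃ k t, chkB i k t = true) {D : Fin 6 → Fin 6 → ℝ}
    {x : Fin 6 → ℝ} {c : Fin 6 → Fin 6 → Fin 6} (hcol : Col D x c) (hmin : ¬ Lower c)
    {LR : ℕ → ℕ → ℕ → ℕ → ℕ → Bool}
    (hLR : ∀ m p, m0 ≤ m → m ≤ 15 → LR m (Wt (rg (gq c 1)) m) (Sw (rg (gq c 1)) m)
      (nd (gq c 1) m) p = true → Concl RW NR c) (t : Tr) :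
    ∀ m cc, m0 ≤ m → m ≤ 14 → cc + 1 ≤ rg (gq c 1) m →
      dfs RW NR LR t m (Wt (rg (gq c 1)) m) (Sw (rg (gq c 1)) m) (nd (gq c 1) m) cc = true →
      Concl RW NR c := by
  have hc := hcol.symm
  induction t with
  | z =>
    intro m cc hm0 hm hcc h
    exfalso
    have h1 := rg_le (gq c 1) m
    have h2 := rg_le6 (gq c 1) m
    have h' : brn (Nat.ble (nd (gq c 1) m + 1) cc) true (Nat.ble 6 cc) = true := h
    rcases brn_true h' with ⟨h3, _⟩ | ⟨_, h3⟩
    · have := Nat.le_of_ble_eq_true h3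
      omega
    · have := Nat.le_of_ble_eq_true h3
      omega
  | n p l r ihl ihr =>
    intro m cc hm0 hm hcc h
    have h' : cnd ((fun m w s k => Nat.rec (motive := fun _ => Bool)
          (cnd (Nat.ble m 14) (dfs RW NR LR l m w s k 0))
          (fun t _ => Nat.rec (motive := fun _ => Bool) (LR m w s k (Nat.shiftRight p 3))
          (fun t _ => Nat.rec (motive := fun _ => Bool) (lexGo w m (pw (Nat.shiftRight p 3)) s 0 0)
          (fun t _ => Nat.rec (motive := fun _ => Bool)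
            (eq3 w (Nat.shiftRight EQT (Nat.mul 54 (Nat.shiftRight p 3))))
          (fun t _ => Nat.rec (motive := fun _ => Bool)
            (eqGo w 10 (pw (Nat.land (Nat.shiftRight p 3) 1023))
            (Nat.shiftRight BAD (Nat.mul 30 (Nat.shiftRight p 13))) 0 0)
          (fun _ _ => bb RW NR w k l idA 0) t) t) t) t) (Nat.land p 7))
        (Nat.add m 1) (Nat.add (Wt (rg (gq c 1)) m) (Nat.mul (em m) (Nat.add cc 1)))
        (Nat.add (Sw (rg (gq c 1)) m) (Nat.shiftLeft (Nat.add cc 1) (Nat.mul 3 m)))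
        (brnN (Nat.ble (nd (gq c 1) m) cc) (Nat.add cc 1) (nd (gq c 1) m)))
        (dfs RW NR LR r m (Wt (rg (gq c 1)) m) (Sw (rg (gq c 1)) m) (nd (gq c 1) m)
          (Nat.add cc 1)) = true := h
    obtain ⟨h1, h2⟩ := cnd_true h'
    rcases Nat.lt_or_ge (cc + 1) (rg (gq c 1) m) with h3 | h3
    · exact ihr m (cc + 1) hm0 hm h3 h2
    · have hr : rg (gq c 1) m = cc + 1 := by omega
      have eW : Nat.add (Wt (rg (gq c 1)) m) (Nat.mul (em m) (Nat.add cc 1))
          = Wt (rg (gq c 1)) (m + 1) := by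
        rw [Wt_succ, hr]
        rfl
      have eS : Nat.add (Sw (rg (gq c 1)) m) (Nat.shiftLeft (Nat.add cc 1) (Nat.mul 3 m))
          = Sw (rg (gq c 1)) (m + 1) := by
        rw [Sw_succ, hr, shl, Nat.mul_eq, pow_mul]
        norm_num
      have eK : brnN (Nat.ble (nd (gq c 1) m) cc) (Nat.add cc 1) (nd (gq c 1) m)
          = nd (gq c 1) (m + 1) := by
        rw [nd_succ, hr]
        rcases Nat.lt_or_ge cc (nd (gq c 1) m) with h4 | h4
        · have h5 : Nat.ble (nd (gq c 1) m) cc = false := by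
            rw [← Bool.not_eq_true]
            intro h6
            have := Nat.le_of_ble_eq_true h6
            omega
          rw [h5, max_eq_left (by omega)]
          rfl
        · rw [Nat.ble_eq_true_of_le h4, max_eq_right (by omega)]
          rfl
      rw [eW, eS, eK] at h1
      have hm1 : m + 1 ≤ 15 := by omega
      have h1' : (Nat.rec (motive := fun _ => Bool)
          (cnd (Nat.ble (m + 1) 14) (dfs RW NR LR l (m + 1) (Wt (rg (gq c 1)) (m + 1))
            (Sw (rg (gq c 1)) (m + 1)) (nd (gq c 1) (m + 1)) 0))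
          (fun t _ => Nat.rec (motive := fun _ => Bool) (LR (m + 1) (Wt (rg (gq c 1)) (m + 1))
            (Sw (rg (gq c 1)) (m + 1)) (nd (gq c 1) (m + 1)) (Nat.shiftRight p 3))
          (fun t _ => Nat.rec (motive := fun _ => Bool) (lexGo (Wt (rg (gq c 1)) (m + 1)) (m + 1)
            (pw (Nat.shiftRight p 3)) (Sw (rg (gq c 1)) (m + 1)) 0 0)
          (fun t _ => Nat.rec (motive := fun _ => Bool)
            (eq3 (Wt (rg (gq c 1)) (m + 1)) (Nat.shiftRight EQT (Nat.mul 54 (Nat.shiftRight p 3))))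
          (fun t _ => Nat.rec (motive := fun _ => Bool)
            (eqGo (Wt (rg (gq c 1)) (m + 1)) 10 (pw (Nat.land (Nat.shiftRight p 3) 1023))
            (Nat.shiftRight BAD (Nat.mul 30 (Nat.shiftRight p 13))) 0 0)
          (fun _ _ => bb RW NR (Wt (rg (gq c 1)) (m + 1)) (nd (gq c 1) (m + 1)) l idA 0)
          t) t) t) t) (Nat.land p 7) : Bool) = true := h1
      generalize Nat.land p 7 = tag at h1'
      rcases tag with _ | _ | _ | _ | _ | tag
      · obtain ⟨h4, h5⟩ := cnd_true h1'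
        have h6 : m + 1 ≤ 14 := Nat.le_of_ble_eq_true h4
        exact ihl (m + 1) 0 (by omega) h6 (rg_pos _ _) h5
      · exact hLR (m + 1) _ (by omega) hm1 h1'
      · exact (tag2 hc hmin hm1 h1').elim
      · obtain ⟨φ, hφ⟩ := ext_perm (gq c 1) 15
        exact (eq3_false (cf6 hcol hm1 hφ) _ h1').elim
      · exact (tag4 hbad hcol hm1 h1').elim
      · exact tag5 hRW hcol hm1 h1'

theorem agree_of {g : ℕ → Fin 6} {m m' : ℕ} (h10 : 10 ≤ m) (hm : m ≤ m') (hm' : m' ≤ 15) :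
    Agree 5 (Wt (rg g) m') (Wt (rg g) m) := by
  intro i hi j hj
  by_cases hij : i = j
  · subst hij
    rw [cl_Wt_zero (rg_lt8 g) hm' (by omega) (by omega),
      cl_Wt_zero (rg_lt8 g) (by omega) (by omega) (by omega)]
    · intro t ht
      obtain ⟨h1, h2⟩ := ei_lt (show t < 15 by omega)
      constructor <;> omega
    · intro t ht
      obtain ⟨h1, h2⟩ := ei_lt (show t < 15 by omega)
      constructor <;> omega
  · obtain ⟨t, ht, h1⟩ := pr_ex5 hi hj hij
    have h2 := cl_Wt (rg_lt8 g) (m := m) (by omega) (show t < m by omega)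
    have h3 := cl_Wt (rg_lt8 g) (m := m') (by omega) (show t < m' by omega)
    rcases h1 with ⟨h4, h5⟩ | ⟨h4, h5⟩
    · rw [h4, h5] at h2 h3
      rw [h2.1, h3.1]
    · rw [h4, h5] at h2 h3
      rw [h2.2, h3.2]

theorem ten_le {g : ℕ → Fin 6} {m : ℕ} (hm : m ≤ 15) (h : full5 (Wt (rg g) m) ≠ 0) : 10 ≤ m := by
  by_contra hlt
  apply full5_ne h 3 4 (by norm_num) (by norm_num)
  apply cl_Wt_zero (rg_lt8 g) hm (by norm_num) (by norm_num)
  intro t ht
  have ht10 : t < 9 := by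
    have h9 : ∀ t < 15, (ei t = 3 ∧ ej t = 4) ∨ (ei t = 4 ∧ ej t = 3) → t = 9 := by
      decide +kernel
    by_contra h1
    omega
  have h10 : ∀ t < 9, ¬ (ei t = 3 ∧ ej t = 4) ∧ ¬ (ei t = 4 ∧ ej t = 3) := by
    decide +kernel
  exact h10 t ht10

/-- the parts of a state -/
theorem st_eq {m k s : ℕ} (hm : m < 16) (hk : k < 8) :
    Nat.land (m + (16 * k + 128 * s)) 15 = m ∧
      Nat.land (Nat.shiftRight (m + (16 * k + 128 * s)) 4) 7 = k ∧
      Nat.shiftRight (m + (16 * k + 128 * s)) 7 = s := by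
  have h : Nat.land (m + (16 * k + 128 * s)) 15 = (m + (16 * k + 128 * s)) &&& (2 ^ 4 - 1) := rfl
  refine ⟨?_, ?_, ?_⟩
  · rw [h, Nat.and_two_pow_sub_one_eq_mod]
    omega
  · rw [land7, shr]
    omega
  · rw [shr]
    omega

theorem chk6_sound {RW NR : ℕ} (hRW : ∀ j < NR, ∀ t < 15, went RW j t ≠ 0)
    (hbad : ∀ i < 237, ∃ k t, chkB i k t = true) {D : Fin 6 → Fin 6 → ℝ}
    {x : Fin 6 → ℝ} {c : Fin 6 → Fin 6 → Fin 6} (hcol : Col D x c) (hmin : ¬ Lower c)
    {m : ℕ} (hm : m ≤ 14)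
    (h : Ok6 RW NR (m + (16 * nd (gq c 1) m + 128 * Sw (rg (gq c 1)) m))) : Concl RW NR c := by
  obtain ⟨t, ht⟩ := h
  have hk : nd (gq c 1) m < 8 := by
    have := nd_le6' (gq c 1) m
    omega
  obtain ⟨e1, e2, e3⟩ := st_eq (m := m) (k := nd (gq c 1) m) (s := Sw (rg (gq c 1)) m)
    (by omega) hk
  have h' : (fun m k s => (fun w => withK w (fun K6 K8 K10 K12 K14 K18 K24 =>
      dfs RW NR (fun _ w _ _ p => lRoot K6 K8 K10 K12 K14 K18 K24 w p) t m w s k 0))
    (wOf m 0 s 0))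
      (Nat.land (m + (16 * nd (gq c 1) m + 128 * Sw (rg (gq c 1)) m)) 15)
      (Nat.land (Nat.shiftRight (m + (16 * nd (gq c 1) m + 128 * Sw (rg (gq c 1)) m)) 4) 7)
      (Nat.shiftRight (m + (16 * nd (gq c 1) m + 128 * Sw (rg (gq c 1)) m)) 7) = true := ht
  rw [e1, e2, e3] at h'
  have h'' : withK (wOf m 0 (Sw (rg (gq c 1)) m) 0) (fun K6 K8 K10 K12 K14 K18 K24 =>
      dfs RW NR (fun _ w _ _ p => lRoot K6 K8 K10 K12 K14 K18 K24 w p) t m
        (wOf m 0 (Sw (rg (gq c 1)) m) 0) (Sw (rg (gq c 1)) m) (nd (gq c 1) m) 0) = true := h'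
  rw [wOf_zero, Wt_congr (Sw_fld (rg_lt8 (gq c 1)) m).1] at h''
  have h5 : full5 (Wt (rg (gq c 1)) m) ≠ 0 := (isZ_true h'').1
  have h10 := ten_le (show m ≤ 15 by omega) h5
  obtain ⟨K6, K8, K10, K12, K14, K18, K24, hd, hK⟩ := withK_sound h''
  obtain ⟨φ, hφ⟩ := ext_perm (gq c 1) 15
  refine dfs_sound (m0 := m) hRW hbad hcol hmin ?_ t m 0 le_rfl hm (rg_pos _ _) hd
  intro m' p hm' hm15 hl
  exact (hK _ p (agree_of h10 hm' hm15) hl 6 (Xf x φ) (fun d => x (φ d)) (cf6 hcol hm15 hφ)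
    (Xf_fo hcol.pos φ)).elim

theorem Col.perm {D : Fin 6 → Fin 6 → ℝ} {x : Fin 6 → ℝ} {c : Fin 6 → Fin 6 → Fin 6}
    (h : Col D x c) (σ : Equiv.Perm (Fin 6)) :
    Col (fun i j => D (σ i) (σ j)) x (fun i j => c (σ i) (σ j)) where
  geo := h.geo.comp σ.injective
  pos := h.pos
  mono := h.mono
  symm i j := h.symm _ _
  eq i j hij := h.eq _ _ (σ.injective.ne hij)

/-- a permutation with the smallest word -/
theorem exists_min (c : Fin 6 → Fin 6 → Fin 6) :
    ∃ σ : Equiv.Perm (Fin 6), ¬ Lower (fun i j => c (σ i) (σ j)) := by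
  obtain ⟨σ, hσ⟩ := Finite.exists_min
    (fun σ : Equiv.Perm (Fin 6) => toLex (fun t : Fin 15 => rg (gq c σ) t))
  refine ⟨σ, ?_⟩
  rintro ⟨τ, t, ht, h1, h2⟩
  have e : ∀ ρ : Equiv.Perm (Fin 6), gq (fun i j => c (σ i) (σ j)) ρ = gq c (σ * ρ) := by
    intro ρ
    rfl
  rw [e, e, mul_one] at h1 h2
  have h3 := hσ (σ * τ)
  apply not_lt.mpr h3
  refine ⟨⟨t, ht⟩, ?_, ?_⟩
  · intro u hu
    exact h1 u hu
  · exact h2

theorem R_of {RW NR : ℕ} {R : Rt} {t : Tr} (hbad : ∀ i < 237, ∃ k t, chkB i k t = true)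
    (hRW : ∀ j < NR, ∀ t < 15, went RW j t ≠ 0) (hall : R.All RW NR)
    (htop : chk0 RW NR R t = true) {D : Fin 6 → Fin 6 → ℝ} {x : Fin 6 → ℝ}
    {c : Fin 6 → Fin 6 → Fin 6} (h : Col D x c) :
    ∃ j < NR, ∃ σ : Equiv.Perm (Fin 6), ∀ t, ∀ ht : t < 15,
      ∀ a b : Fin 6, (a : ℕ) = ei t → (b : ℕ) = ej t →
        went RW j t = (c (σ a) (σ b) : ℕ) + 1 := by
  obtain ⟨σ, hσ⟩ := exists_min c
  have hcol := h.perm σ
  set c' : Fin 6 → Fin 6 → Fin 6 := fun i j => c (σ i) (σ j) with hc'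
  have hconcl : Concl RW NR c' := by
    have h0 : Wt (rg (gq c' 1)) 0 = 0 := rfl
    have h1 : Sw (rg (gq c' 1)) 0 = 0 := rfl
    have h2 : nd (gq c' 1) 0 = 0 := nd_zero _
    refine dfs_sound (m0 := 0) (LR := fun m w s k p => cnd (Nat.ble m 14) (Nat.beq (R.get p)
      (Nat.add m (Nat.add (Nat.mul 16 k) (Nat.mul 128 s))))) hRW hbad hcol hσ ?_ t 0 0 le_rfl
      (by norm_num) (rg_pos _ _) ?_
    · intro m p _ _ hl
      obtain ⟨h3, h4⟩ := cnd_true hl
      have h5 : R.get p = m + (16 * nd (gq c' 1) m + 128 * Sw (rg (gq c' 1)) m) :=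
        Nat.eq_of_beq_eq_true h4
      have h6 := R.get_ok hall p
      rw [h5] at h6
      exact chk6_sound hRW hbad hcol hσ (Nat.le_of_ble_eq_true h3) h6
    · rw [h0, h1, h2]
      exact htop
  obtain ⟨j, hj, τ, hτ⟩ := hconcl
  refine ⟨j, hj, τ.trans σ, ?_⟩
  intro t ht a b ha hb
  have e1 : a = pI t := Fin.ext (by rw [pI_val ht]; exact ha)
  have e2 : b = pJ t := Fin.ext (by rw [pJ_val ht]; exact hb)
  rw [hτ t ht, e1, e2]
  rfl

end Pool.Agent.Lib.EPS9
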