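import Pool.Agent.Lib.MP_c7e7f6_eps.Core3
import Pool.Agent.Lib.MP_c7e7f6_eps.Tree
import Pool.Agent.Lib.MP_c7e7f6_eps.ExtNine

/-!
Extension of the colourings of six points: definitions.
-/

set_option autoImplicit false

namespace Pool.Agent.Lib.EPS9

open Finset

/-- the six points have the colouring number `j` -/
def Iso {ι : Type*} (RW j : ℕ) (c : ι → ι → ℕ) (p : Fin 6 → ι) : Prop :=
  ∃ σ : Equiv.Perm (Fin 6), ∀ t, t < 15 → ∀ a b : Fin 6, (a : ℕ) = ei t → (b : ℕ) = ej t →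
    went RW j t = c (p (σ a)) (p (σ b))

/-- all colourings are in the table (from `R_of`) -/
def RAll (RW NR : ℕ) : Prop :=
  ∀ {ι : Type} (D : ι → ι → ℝ) (x : Fin 6 → ℝ) (c : ι → ι → ℕ) (p : Fin 6 → ι),
    Pc D x c → Full c p → ∃ j < NR, Iso RW j c p

/-- the ten codes of the first five points -/
def k10 {ι : Type*} (c : ι → ι → ℕ) (p : Fin 6 → ι) : ℕ :=
  ∑ t ∈ range 10, c (p (Fin.ofNat 6 (ei t))) (p (Fin.ofNat 6 (ej t))) * 8 ^ t

/-- the five codes of the sixth point -/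
def o5 {ι : Type*} (c : ι → ι → ℕ) (p : Fin 6 → ι) : ℕ :=
  ∑ t ∈ range 5, c (p (Fin.ofNat 6 t)) (p 5) * 8 ^ t

/-- the table of the colourings of five points is complete: the five codes and the number of the
colouring of the six points are in the list -/
def EAll (KT : Kt) (RW NR : ℕ) : Prop :=
  ∀ {ι : Type} (D : ι → ι → ℝ) (x : Fin 6 → ℝ) (c : ι → ι → ℕ) (p : Fin 6 → ι),
    Pc D x c → Full c p → KT.lk (k10 c p) ≠ 0 →
      ∃ j < NR, Iso RW j c p ∧
        memL (o5 c p + 32768 * j + 536870912) 64 (KT.lk (k10 c p)) = true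

/-- all nodes of the table pass the test `lexT` -/
def Kt.All : Kt → Prop
  | .e => True
  | .n K L l r => lexT K L T5 K = true ∧ l.All ∧ r.All

/-- all checks for the word number `i` -/
def OkI (KT : Kt) (RW i : ℕ) : Prop :=
  ∃ alts ks pB t1 t2 t3 t4, chkI KT RW i alts ks pB t1 t2 t3 t4 = true

end Pool.Agent.Lib.EPS9
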