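import Mathlib

/-!
Renaming of the values of a sequence by order of first occurrence.
-/

set_option autoImplicit false
set_option linter.unusedVariables false

namespace Pool.Agent.Lib.EPS9

section

variable {α β : Type*} [DecidableEq α] [DecidableEq β]

/-- first index with the value `g t` -/
def frs (g : ℕ → α) (t : ℕ) : ℕ := Nat.find (p := fun s => g s = g t) ⟨t, rfl⟩

/-- number of values among the first `m` -/
def nd (g : ℕ → α) (m : ℕ) : ℕ := ((Finset.range m).filter (fun s => ∀ u < s, g u ≠ g s)).card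

/-- renamed value -/
def rg (g : ℕ → α) (t : ℕ) : ℕ := nd g (frs g t) + 1

theorem frs_spec (g : ℕ → α) (t : ℕ) : g (frs g t) = g t :=
  Nat.find_spec (p := fun s => g s = g t) ⟨t, rfl⟩

theorem frs_le (g : ℕ → α) (t : ℕ) : frs g t ≤ t :=
  Nat.find_min' (p := fun s => g s = g t) ⟨t, rfl⟩ rfl

theorem frs_min {g : ℕ → α} {t u : ℕ} (h : u < frs g t) : g u ≠ g t :=
  Nat.find_min (p := fun s => g s = g t) ⟨t, rfl⟩ h

theorem frs_min' {g : ℕ → α} {t u : ℕ} (h : g u = g t) : frs g t ≤ u :=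
  Nat.find_min' (p := fun s => g s = g t) ⟨t, rfl⟩ h

theorem frs_congr {g : ℕ → α} {s t : ℕ} (h : g s = g t) : frs g s = frs g t :=
  le_antisymm (frs_min' ((frs_spec g t).trans h.symm)) (frs_min' ((frs_spec g s).trans h))

theorem frs_new {g : ℕ → α} {t : ℕ} (h : ∀ u < t, g u ≠ g t) : frs g t = t := by
  refine le_antisymm (frs_le g t) ?_
  by_contra h1
  exact h _ (not_le.mp h1) (frs_spec g t)

theorem frs_isNew (g : ℕ → α) (t : ℕ) : ∀ u < frs g t, g u ≠ g (frs g t) := by
  intro u hu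
  rw [frs_spec g t]
  exact frs_min hu

theorem nd_zero (g : ℕ → α) : nd g 0 = 0 := by
  unfold nd
  simp

theorem nd_succ_new {g : ℕ → α} {m : ℕ} (h : ∀ u < m, g u ≠ g m) : nd g (m + 1) = nd g m + 1 := by
  unfold nd
  rw [Finset.range_add_one, Finset.filter_insert, if_pos h, Finset.card_insert_of_notMem]
  simp

theorem nd_succ_old {g : ℕ → α} {m : ℕ} (h : ∃ u < m, g u = g m) : nd g (m + 1) = nd g m := by
  unfold nd
  rw [Finset.range_add_one, Finset.filter_insert, if_neg]
  intro h1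
  obtain ⟨u, hu, h2⟩ := h
  exact h1 u hu h2

theorem nd_mono (g : ℕ → α) {m n : ℕ} (h : m ≤ n) : nd g m ≤ nd g n := by
  unfold nd
  exact Finset.card_le_card (Finset.filter_subset_filter _ (Finset.range_subset_range.mpr h))

theorem rg_pos (g : ℕ → α) (t : ℕ) : 1 ≤ rg g t := Nat.le_add_left 1 _

theorem rg_congr' {g : ℕ → α} {s t : ℕ} (h : g s = g t) : rg g s = rg g t := by
  unfold rg
  rw [frs_congr h]

theorem rg_new {g : ℕ → α} {t : ℕ} (h : ∀ u < t, g u ≠ g t) : rg g t = nd g t + 1 := by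
  unfold rg
  rw [frs_new h]

theorem nd_frs (g : ℕ → α) (t : ℕ) : nd g (frs g t + 1) = rg g t :=
  nd_succ_new (frs_isNew g t)

theorem rg_old {g : ℕ → α} {t : ℕ} (h : ∃ u < t, g u = g t) : rg g t ≤ nd g t := by
  obtain ⟨u, hu, h1⟩ := h
  rw [← nd_frs]
  exact nd_mono g (lt_of_le_of_lt (frs_min' h1) hu)

theorem new_or_old (g : ℕ → α) (t : ℕ) : (∀ u < t, g u ≠ g t) ∨ (∃ u < t, g u = g t) := by
  by_cases h : ∃ u < t, g u = g t
  · exact Or.inr h
  · left
    push Not at h
    exact h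

theorem rg_le (g : ℕ → α) (t : ℕ) : rg g t ≤ nd g t + 1 := by
  rcases new_or_old g t with h | h
  · exact (rg_new h).le
  · exact (rg_old h).trans (Nat.le_succ _)

theorem nd_succ (g : ℕ → α) (t : ℕ) : nd g (t + 1) = max (nd g t) (rg g t) := by
  rcases new_or_old g t with h | h
  · rw [nd_succ_new h, rg_new h]
    omega
  · rw [nd_succ_old h, max_eq_left (rg_old h)]

theorem rg_le_nd {g : ℕ → α} {s m : ℕ} (h : s < m) : rg g s ≤ nd g m := by
  refine le_trans ?_ (nd_mono g (Nat.succ_le_of_lt h))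
  show rg g s ≤ nd g (s + 1)
  rw [nd_succ]
  exact le_max_right _ _

theorem rg_eq_iff (g : ℕ → α) (s t : ℕ) : rg g s = rg g t ↔ g s = g t := by
  constructor
  · intro h
    rcases lt_trichotomy (frs g s) (frs g t) with h1 | h1 | h1
    · have h2 : rg g s ≤ nd g (frs g t) := by
        rw [← nd_frs]
        exact nd_mono g h1
      have h3 : rg g t = nd g (frs g t) + 1 := rfl
      omega
    · rw [← frs_spec g s, ← frs_spec g t, h1]
    · have h2 : rg g t ≤ nd g (frs g s) := by
        rw [← nd_frs]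
        exact nd_mono g h1
      have h3 : rg g s = nd g (frs g s) + 1 := rfl
      omega
  · exact rg_congr'

theorem nd_le_card [Fintype α] (g : ℕ → α) (m : ℕ) : nd g m ≤ Fintype.card α := by
  unfold nd
  rw [← Finset.card_univ]
  refine Finset.card_le_card_of_injOn g (fun _ _ => Finset.mem_coe.mpr (Finset.mem_univ _)) ?_
  intro s hs t ht hst
  rw [Finset.mem_coe, Finset.mem_filter] at hs ht
  rcases lt_trichotomy s t with h | h | h
  · exact absurd hst (ht.2 s h)
  · exact h
  · exact absurd hst.symm (hs.2 t h)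

theorem rg_le_card [Fintype α] (g : ℕ → α) (t : ℕ) : rg g t ≤ Fintype.card α :=
  (rg_le_nd (Nat.lt_succ_self t)).trans (nd_le_card g _)

theorem exists_rg (g : ℕ → α) (m : ℕ) : ∀ v, 1 ≤ v → v ≤ nd g m → ∃ s < m, rg g s = v := by
  induction m with
  | zero =>
    intro v h1 h2
    rw [nd_zero] at h2
    omega
  | succ m ih =>
    intro v h1 h2
    rcases Nat.lt_or_ge (nd g m) v with h3 | h3
    · refine ⟨m, Nat.lt_succ_self m, ?_⟩
      have h4 := nd_succ g m
      have h5 := rg_le g m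
      omega
    · obtain ⟨s, hs, h4⟩ := ih v h1 h3
      exact ⟨s, by omega, h4⟩

theorem nd_congr {f : ℕ → α} {g : ℕ → β} {m : ℕ}
    (h : ∀ u < m, ∀ v < m, (f u = f v ↔ g u = g v)) : nd f m = nd g m := by
  unfold nd
  congr 1
  apply Finset.filter_congr
  intro s hs
  rw [Finset.mem_range] at hs
  constructor
  · intro h1 u hu h2
    exact h1 u hu ((h u (by omega) s hs).mpr h2)
  · intro h1 u hu h2
    exact h1 u hu ((h u (by omega) s hs).mp h2)

theorem rg_congr {f : ℕ → α} {g : ℕ → β} {t : ℕ}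
    (h : ∀ u ≤ t, ∀ v ≤ t, (f u = f v ↔ g u = g v)) : rg f t = rg g t := by
  have h1 : frs f t = frs g t := by
    apply le_antisymm
    · exact frs_min' ((h _ (frs_le g t) t le_rfl).mpr (frs_spec g t))
    · exact frs_min' ((h _ (frs_le f t) t le_rfl).mp (frs_spec f t))
  unfold rg
  rw [h1]
  congr 1
  have h2 := frs_le g t
  exact nd_congr fun u hu v hv => h u (by omega) v (by omega)

end

/-- the codes can be extended to a permutation -/
theorem ext_perm (g : ℕ → Fin 6) (m : ℕ) : ∃ φ : Equiv.Perm (Fin 6), ∀ t < m, ∀ d : Fin 6,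
    (d : ℕ) + 1 = rg g t → φ d = g t := by
  classical
  let s : Finset (Fin 6) := Finset.univ.filter (fun d => ∃ t < m, (d : ℕ) + 1 = rg g t)
  let f : Fin 6 → Fin 6 := fun d => if h : ∃ t < m, (d : ℕ) + 1 = rg g t then g h.choose else 0
  have hf : ∀ t < m, ∀ d : Fin 6, (d : ℕ) + 1 = rg g t → f d = g t := by
    intro t ht d hd
    have h : ∃ t < m, (d : ℕ) + 1 = rg g t := ⟨t, ht, hd⟩
    have h1 : f d = g h.choose := dif_pos h
    rw [h1, ← rg_eq_iff, ← h.choose_spec.2, hd]
  have hinj : Set.InjOn f s := by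
    intro d hd e he hde
    rw [Finset.mem_coe, Finset.mem_filter] at hd he
    obtain ⟨t, ht, h1⟩ := hd.2
    obtain ⟨u, hu, h2⟩ := he.2
    rw [hf t ht d h1, hf u hu e h2, ← rg_eq_iff, ← h1, ← h2] at hde
    exact Fin.ext (by omega)
  obtain ⟨e, he⟩ := Finset.exists_equiv_extend_of_card_eq (t := (Finset.univ : Finset (Fin 6)))
    (by simp) (Finset.subset_univ (s.image f)) hinj
  refine ⟨e.trans (Equiv.subtypeUnivEquiv (fun x => Finset.mem_univ x)), ?_⟩
  intro t ht d hd
  rw [← hf t ht d hd]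
  exact he d (by rw [Finset.mem_filter]; exact ⟨Finset.mem_univ _, t, ht, hd⟩)

end Pool.Agent.Lib.EPS9
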