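import Pool.Agent.Lib.MP_c7e7f6_eps.TreeSrv
import Pool.Agent.Lib.MP_c7e7f6_eps.TreeRgs

/-!
The tables of `Core2`: positions of the pairs, permutations, forbidden equalities.
-/

set_option autoImplicit false
set_option linter.unusedVariables false

namespace Pool.Agent.Lib.EPS9

/-- first endpoint of the pair number `t` -/
def ei (t : ℕ) : ℕ := [0, 0, 1, 0, 1, 2, 0, 1, 2, 3, 0, 1, 2, 3, 4].getD t 0

/-- second endpoint of the pair number `t` -/
def ej (t : ℕ) : ℕ := [1, 2, 2, 3, 3, 3, 4, 4, 4, 4, 5, 5, 5, 5, 5].getD t 0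

/-- entry number `t` of the word number `j` -/
def went (RW j t : ℕ) : ℕ := (RW >>> (45 * j + 3 * t)) &&& 7

/-- place of the pair number `t` -/
def pa (t : ℕ) : ℕ := 16 * ei t + ej t

/-- place of the reversed pair number `t` -/
def pb (t : ℕ) : ℕ := 16 * ej t + ei t

theorem ei_lt {t : ℕ} (ht : t < 15) : ei t < ej t ∧ ej t < 6 := by
  have h : ∀ t < 15, ei t < ej t ∧ ej t < 6 := by decide +kernel
  exact h t ht

theorem ei_lt5 {t : ℕ} (ht : t < 10) : ei t < ej t ∧ ej t < 5 := by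
  have h : ∀ t < 10, ei t < ej t ∧ ej t < 5 := by decide +kernel
  exact h t ht

theorem em_eq {t : ℕ} (ht : t < 15) : em t = 8 ^ pa t + 8 ^ pb t := by
  have h : ∀ t < 15, em t = 8 ^ pa t + 8 ^ pb t := by decide +kernel
  exact h t ht

/-- the pairs are numbered injectively -/
theorem pr_inj {s t : ℕ} (hs : s < 15) (ht : t < 15) (h1 : ei s = ei t) (h2 : ej s = ej t) :
    s = t := by
  have h : ∀ s < 15, ∀ t < 15, ei s = ei t → ej s = ej t → s = t := by decide +kernel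
  exact h s hs t ht h1 h2

/-- every pair has a number -/
theorem pr_ex {a b : ℕ} (ha : a < 6) (hb : b < 6) (hab : a ≠ b) :
    ∃ t < 15, (ei t = a ∧ ej t = b) ∨ (ei t = b ∧ ej t = a) := by
  have h : ∀ a < 6, ∀ b < 6, a ≠ b →
    ∃ t < 15, (ei t = a ∧ ej t = b) ∨ (ei t = b ∧ ej t = a) := by decide +kernel
  exact h a ha b hb hab

theorem pr_ex5 {a b : ℕ} (ha : a < 5) (hb : b < 5) (hab : a ≠ b) :
    ∃ t < 10, (ei t = a ∧ ej t = b) ∨ (ei t = b ∧ ej t = a) := by
  have h : ∀ a < 5, ∀ b < 5, a ≠ b →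
    ∃ t < 10, (ei t = a ∧ ej t = b) ∨ (ei t = b ∧ ej t = a) := by decide +kernel
  exact h a ha b hb hab

/-- table of the codes `r` of the first `m` pairs -/
def Wt (r : ℕ → ℕ) (m : ℕ) : ℕ := ∑ t ∈ Finset.range m, em t * r t

theorem Wt_succ (r : ℕ → ℕ) (m : ℕ) : Wt r (m + 1) = Wt r m + em m * r m := by
  unfold Wt
  rw [Finset.sum_range_succ]

theorem Wt_fld {r : ℕ → ℕ} (hr : ∀ t, r t < 8) (m : ℕ) : m ≤ 15 →
    (∀ t < m, fld (Wt r m) (pa t) = r t ∧ fld (Wt r m) (pb t) = r t) ∧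
    (∀ a, (∀ t < m, a ≠ pa t ∧ a ≠ pb t) → fld (Wt r m) a = 0) := by
  induction m with
  | zero =>
    intro _
    refine ⟨fun t ht => absurd ht (Nat.not_lt_zero t), fun a _ => ?_⟩
    unfold Wt fld
    simp
  | succ m ih =>
    intro hm
    obtain ⟨h1, h2⟩ := ih (by omega)
    have hm15 : m < 15 := by omega
    obtain ⟨hm1, hm2⟩ := ei_lt hm15
    have hne : ∀ t < m, (pa m ≠ pa t ∧ pa m ≠ pb t) ∧ (pb m ≠ pa t ∧ pb m ≠ pb t) := by
      intro t ht
      obtain ⟨ht1, ht2⟩ := ei_lt (show t < 15 by omega)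
      have h3 : ¬ (ei m = ei t ∧ ej m = ej t) := by
        intro h4
        have := pr_inj hm15 (show t < 15 by omega) h4.1 h4.2
        omega
      unfold pa pb
      refine ⟨⟨?_, ?_⟩, ?_, ?_⟩ <;> omega
    have e0 : Wt r (m + 1) = Wt r m + r m * 8 ^ pa m + r m * 8 ^ pb m := by
      rw [Wt_succ, em_eq hm15]
      ring
    have hab : pa m ≠ pb m := by
      unfold pa pb
      omega
    have z1 : fld (Wt r m) (pa m) = 0 := h2 _ fun t ht => (hne t ht).1
    have z2 : fld (Wt r m) (pb m) = 0 := h2 _ fun t ht => (hne t ht).2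
    have a1 := fld_add z1 (hr m)
    have a2 : ∀ i, fld (Wt r (m + 1)) i = if i = pb m then r m else
        if i = pa m then r m else fld (Wt r m) i := by
      intro i
      rw [e0, fld_add (by rw [a1, if_neg hab.symm]; exact z2) (hr m), a1]
    refine ⟨?_, ?_⟩
    · intro t ht
      rcases Nat.lt_or_ge t m with h3 | h3
      · obtain ⟨⟨b1, b2⟩, b3, b4⟩ := hne t h3
        obtain ⟨c1, c2⟩ := h1 t h3
        rw [a2, a2, if_neg b3.symm, if_neg b1.symm, if_neg b4.symm, if_neg b2.symm]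
        exact ⟨c1, c2⟩
      · have : t = m := by omega
        subst this
        rw [a2, a2, if_neg hab, if_pos rfl, if_pos rfl]
        exact ⟨rfl, rfl⟩
    · intro a ha
      obtain ⟨b1, b2⟩ := ha m (Nat.lt_succ_self m)
      rw [a2, if_neg b2, if_neg b1]
      exact h2 a fun t ht => ha t (by omega)

theorem cl_eq (w i j : ℕ) : cl w i j = fld w (16 * i + j) := by
  show Nat.land (Nat.shiftRight w (Nat.mul 3 (16 * i + j))) 7 = _
  rw [fld_eq]

theorem code_eq (w i j : ℕ) : code w (3 * (16 * i + j)) = cl w i j := by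
  rw [cl_eq]
  unfold code fld
  rw [pow_mul]
  norm_num

/-- the codes at the places -/
theorem cl_Wt {r : ℕ → ℕ} (hr : ∀ t, r t < 8) {m : ℕ} (hm : m ≤ 15) {t : ℕ} (ht : t < m) :
    cl (Wt r m) (ei t) (ej t) = r t ∧ cl (Wt r m) (ej t) (ei t) = r t := by
  rw [cl_eq, cl_eq]
  exact (Wt_fld hr m hm).1 t ht

theorem cl_Wt_zero {r : ℕ → ℕ} (hr : ∀ t, r t < 8) {m : ℕ} (hm : m ≤ 15) {i j : ℕ} (hi : i < 16)
    (hj : j < 16) (h : ∀ t < m, ¬ (ei t = i ∧ ej t = j) ∧ ¬ (ei t = j ∧ ej t = i)) :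
    cl (Wt r m) i j = 0 := by
  rw [cl_eq]
  refine (Wt_fld hr m hm).2 _ ?_
  intro t ht
  obtain ⟨h1, h2⟩ := ei_lt (show t < 15 by omega)
  obtain ⟨h3, h4⟩ := h t ht
  unfold pa pb
  constructor <;> omega

/-- a nonzero code belongs to a pair -/
theorem cl_Wt_ex {r : ℕ → ℕ} (hr : ∀ t, r t < 8) {m : ℕ} (hm : m ≤ 15) {i j : ℕ} (hi : i < 16)
    (hj : j < 16) (h : cl (Wt r m) i j ≠ 0) :
    ∃ t < m, ((ei t = i ∧ ej t = j) ∨ (ei t = j ∧ ej t = i)) ∧ cl (Wt r m) i j = r t := by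
  by_contra hcon
  push Not at hcon
  apply h
  apply cl_Wt_zero hr hm hi hj
  intro t ht
  constructor
  · rintro ⟨h1, h2⟩
    apply hcon t ht (Or.inl ⟨h1, h2⟩)
    rw [← h1, ← h2]
    exact (cl_Wt hr hm ht).1
  · rintro ⟨h1, h2⟩
    apply hcon t ht (Or.inr ⟨h1, h2⟩)
    rw [← h1, ← h2]
    exact (cl_Wt hr hm ht).2

theorem wOf_spec (fuel : ℕ) : ∀ (m s w : ℕ), wOf fuel m s w
    = w + ∑ t ∈ Finset.range fuel, em (m + t) * fld s t := by
  induction fuel with
  | zero =>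
    intro m s w
    rw [Finset.range_zero, Finset.sum_empty]
    rfl
  | succ n ih =>
    intro m s w
    have h : wOf (n + 1) m s w = wOf n (m + 1) (Nat.shiftRight s 3) (w + em m * Nat.land s 7) := rfl
    rw [h, ih, Finset.sum_range_succ', ← fld_zero, add_zero, add_assoc]
    congr 1
    rw [add_comm]
    congr 1
    refine Finset.sum_congr rfl fun t _ => ?_
    rw [fld_shr3, add_assoc, add_comm 1 t]

theorem wOf_zero (m s : ℕ) : wOf m 0 s 0 = Wt (fld s) m := by
  rw [wOf_spec, zero_add]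
  unfold Wt
  refine Finset.sum_congr rfl fun t _ => ?_
  rw [zero_add]

theorem Wt_congr {r r' : ℕ → ℕ} {m : ℕ} (h : ∀ t < m, r t = r' t) : Wt r m = Wt r' m := by
  unfold Wt
  refine Finset.sum_congr rfl fun t ht => ?_
  rw [h t (Finset.mem_range.mp ht)]

/-! ### The word -/

/-- word of the first `m` codes -/
def Sw (r : ℕ → ℕ) (m : ℕ) : ℕ := ∑ t ∈ Finset.range m, r t * 8 ^ t

theorem Sw_succ (r : ℕ → ℕ) (m : ℕ) : Sw r (m + 1) = Sw r m + r m * 8 ^ m := by
  unfold Sw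
  rw [Finset.sum_range_succ]

theorem Sw_fld {r : ℕ → ℕ} (hr : ∀ t, r t < 8) (m : ℕ) : (∀ t < m, fld (Sw r m) t = r t) ∧
    (∀ t, m ≤ t → fld (Sw r m) t = 0) := by
  induction m with
  | zero =>
    refine ⟨fun t ht => absurd ht (Nat.not_lt_zero t), fun a _ => ?_⟩
    unfold Sw fld
    simp
  | succ m ih =>
    have h := fld_add (ih.2 m le_rfl) (hr m)
    rw [Sw_succ]
    constructor
    · intro t ht
      rw [h]
      split_ifs with h1
      · rw [h1]
      · exact ih.1 t (by omega)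
    · intro t ht
      rw [h, if_neg (by omega)]
      exact ih.2 t (by omega)

/-! ### Permutations -/

/-- the permutation number `p` at `i` -/
def dP (p i : ℕ) : ℕ :=
  [fld9 (pw p) 0 / 48, fld9 (pw p) 0 / 3 % 16, fld9 (pw p) 1 / 3 % 16, fld9 (pw p) 3 / 3 % 16,
    fld9 (pw p) 6 / 3 % 16, fld9 (pw p) 10 / 3 % 16].getD i 0

/-- check of the permutation number `p` -/
def okP (p : ℕ) : Bool :=
  ((List.range 6).all fun i => decide (dP p i < 6) &&
    ((List.range 6).all fun j => decide (dP p i = dP p j → i = j))) &&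
  ((List.range 15).all fun t => decide (fld9 (pw p) t = 3 * (16 * dP p (ei t) + dP p (ej t))))

theorem okP_all : ((List.range 720).all okP) = true := by
  decide +kernel

theorem pw_perm {p : ℕ} (hp : p < 720) : ∃ τ : Equiv.Perm (Fin 6), ∀ t < 15, ∀ a b : Fin 6,
    (a : ℕ) = ei t → (b : ℕ) = ej t → fld9 (pw p) t = 3 * (16 * (τ a : ℕ) + (τ b : ℕ)) := by
  have h := okP_all
  rw [List.all_eq_true] at h
  have h1 := h p (List.mem_range.mpr hp)
  unfold okP at h1
  rw [Bool.and_eq_true, List.all_eq_true, List.all_eq_true] at h1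
  obtain ⟨h2, h3⟩ := h1
  have h4 : ∀ i < 6, dP p i < 6 ∧ ∀ j < 6, dP p i = dP p j → i = j := by
    intro i hi
    have h5 := h2 i (List.mem_range.mpr hi)
    rw [Bool.and_eq_true, List.all_eq_true, decide_eq_true_eq] at h5
    refine ⟨h5.1, fun j hj => ?_⟩
    have h6 := h5.2 j (List.mem_range.mpr hj)
    rwa [decide_eq_true_eq] at h6
  let f : Fin 6 → Fin 6 := fun i => ⟨dP p i, (h4 i i.2).1⟩
  have hf : Function.Injective f := by
    intro i j hij
    have := congrArg (fun x : Fin 6 => (x : ℕ)) hij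
    exact Fin.ext ((h4 i i.2).2 j j.2 this)
  refine ⟨Equiv.ofBijective f (Finite.injective_iff_bijective.mp hf), ?_⟩
  intro t ht a b ha hb
  have h5 := h3 t (List.mem_range.mpr ht)
  rw [decide_eq_true_eq] at h5
  rw [h5, ← ha, ← hb]
  rfl

theorem PT_lt : PT < 2 ^ (135 * 720) := by
  decide +kernel

theorem pw_ge {p : ℕ} (hp : 720 ≤ p) : pw p = 0 := by
  have h : pw p = Nat.land (Nat.shiftRight PT (135 * p)) (msk 135) := rfl
  rw [h, msk_mod, shr, Nat.div_eq_of_lt, Nat.zero_mod]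
  refine PT_lt.trans_le (Nat.pow_le_pow_right (by norm_num) ?_)
  omega

theorem fld9_zero (t : ℕ) : fld9 0 t = 0 := by
  unfold fld9
  rw [Nat.zero_div]

end Pool.Agent.Lib.EPS9
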