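import Pool.Agent.Lib.MP_c7e7f6_eps.Core3
import Pool.Agent.Lib.MP_c7e7f6_eps.TreePos

/-!
Digits to the base eight: sums, differences, shifts; tables and vectors of codes.
-/

set_option autoImplicit false
set_option linter.unusedVariables false

namespace Pool.Agent.Lib.EPS9

/-! ### Digits -/

theorem fld_sum {d : ℕ → ℕ} (hd : ∀ i, d i < 8) (n i : ℕ) :
    fld (∑ t ∈ Finset.range n, d t * 8 ^ t) i = if i < n then d i else 0 := by
  have h := Sw_fld hd n
  split_ifs with hi
  · exact h.1 i hi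
  · exact h.2 i (by omega)

theorem sum_fld {x n : ℕ} (h : x < 8 ^ n) : ∑ t ∈ Finset.range n, fld x t * 8 ^ t = x := by
  have h1 := sum_digits 8 x n
  rw [Nat.mod_eq_of_lt h] at h1
  exact h1

theorem exists_pow (x : ℕ) : ∃ n, x < 8 ^ n := ⟨x, Nat.lt_pow_self (by norm_num)⟩

theorem exists_pow2 (x y : ℕ) : ∃ n, x < 8 ^ n ∧ y < 8 ^ n := by
  obtain ⟨n, hn⟩ := exists_pow x
  obtain ⟨m, hm⟩ := exists_pow y
  exact ⟨max n m, hn.trans_le (Nat.pow_le_pow_right (by norm_num) (le_max_left _ _)),
    hm.trans_le (Nat.pow_le_pow_right (by norm_num) (le_max_right _ _))⟩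

theorem fld_ext {x y : ℕ} (h : ∀ i, fld x i = fld y i) : x = y := by
  obtain ⟨n, hx, hy⟩ := exists_pow2 x y
  rw [← sum_fld hx, ← sum_fld hy]
  exact Finset.sum_congr rfl fun t _ => by rw [h t]

theorem fld_plus {x y : ℕ} (h : ∀ i, fld x i + fld y i < 8) (i : ℕ) :
    fld (x + y) i = fld x i + fld y i := by
  obtain ⟨n, hx, hy⟩ := exists_pow2 x y
  have e : x + y = ∑ t ∈ Finset.range n, (fld x t + fld y t) * 8 ^ t := by
    conv_lhs => rw [← sum_fld hx, ← sum_fld hy]
    rw [← Finset.sum_add_distrib]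
    exact Finset.sum_congr rfl fun t _ => (add_mul _ _ _).symm
  rw [e, fld_sum (d := fun t => fld x t + fld y t) h]
  split_ifs with hi
  · rfl
  · rw [fld_of_lt hx (by omega), fld_of_lt hy (by omega)]

theorem fld_minus {x y : ℕ} (h : ∀ i, fld y i ≤ fld x i) (i : ℕ) :
    fld (x - y) i = fld x i - fld y i := by
  obtain ⟨n, hx, hy⟩ := exists_pow2 x y
  have e : x = y + ∑ t ∈ Finset.range n, (fld x t - fld y t) * 8 ^ t := by
    have e1 := sum_fld hx
    have e2 := sum_fld hy
    have e3 : ∑ t ∈ Finset.range n, fld y t * 8 ^ t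
        + ∑ t ∈ Finset.range n, (fld x t - fld y t) * 8 ^ t
        = ∑ t ∈ Finset.range n, fld x t * 8 ^ t := by
      rw [← Finset.sum_add_distrib]
      refine Finset.sum_congr rfl fun t _ => ?_
      rw [← add_mul]
      congr 1
      have := h t
      omega
    rw [e2, e1] at e3
    exact e3.symm
  have e2 : x - y = ∑ t ∈ Finset.range n, (fld x t - fld y t) * 8 ^ t := by omega
  rw [e2, fld_sum (d := fun t => fld x t - fld y t) (fun t => by
    show fld x t - fld y t < 8
    have := fld_lt x t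
    omega)]
  split_ifs with hi
  · rfl
  · rw [fld_of_lt hx (by omega), fld_of_lt hy (by omega)]

theorem fld_shl (x k i : ℕ) :
    fld (Nat.shiftLeft x (3 * k)) i = if i < k then 0 else fld x (i - k) := by
  rw [shl, pow_mul, show (2 : ℕ) ^ 3 = 8 by norm_num]
  have h := fld_lo 0 x (i := i) (k := k)
  split_ifs with hi
  · have := h hi
    rw [zero_add] at this
    rw [mul_comm, this]
    unfold fld
    rw [Nat.zero_div]
  · have h2 := fld_hi (lo := 0) (a := k) (by positivity) x (i - k)
    rw [zero_add, show k + (i - k) = i by omega] at h2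
    rw [mul_comm, h2]

theorem fld_shr (x k i : ℕ) : fld (Nat.shiftRight x (3 * k)) i = fld x (k + i) := by
  rw [shr, pow_mul, show (2 : ℕ) ^ 3 = 8 by norm_num, fld_div]

theorem fld_msk (x k i : ℕ) :
    fld (Nat.land x (msk (3 * k))) i = if i < k then fld x i else 0 := by
  rw [msk_mod, pow_mul, show (2 : ℕ) ^ 3 = 8 by norm_num]
  split_ifs with hi
  · exact fld_mod x k hi
  · exact fld_of_lt (Nat.mod_lt _ (by positivity)) (by omega)

theorem fld_small {v : ℕ} (hv : v < 8) (i : ℕ) : fld v i = if i = 0 then v else 0 := by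
  split_ifs with hi
  · rw [hi]
    unfold fld
    rw [pow_zero, Nat.div_one, Nat.mod_eq_of_lt hv]
  · exact fld_of_lt (k := 1) (by simpa using hv) (by omega)

theorem fld_shlv {v : ℕ} (hv : v < 8) (k i : ℕ) :
    fld (Nat.shiftLeft v (3 * k)) i = if i = k then v else 0 := by
  rw [fld_shl, fld_small hv]
  split_ifs with h1 h2 h3 h3 h3 <;> first | rfl | omega

theorem fld_zero' (i : ℕ) : fld 0 i = 0 := by
  unfold fld
  rw [Nat.zero_div]

/-- sparse sums -/
theorem fld_sparse {d p : ℕ → ℕ} (n : ℕ) : (∀ t < n, d t < 8) →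
    (∀ s < n, ∀ t < n, p s = p t → s = t) →
    (∀ t < n, fld (∑ t ∈ Finset.range n, d t * 8 ^ p t) (p t) = d t) ∧
    (∀ i, (∀ t < n, p t ≠ i) → fld (∑ t ∈ Finset.range n, d t * 8 ^ p t) i = 0) := by
  induction n with
  | zero =>
    intro _ _
    refine ⟨fun t ht => absurd ht (Nat.not_lt_zero t), fun i _ => ?_⟩
    rw [Finset.range_zero, Finset.sum_empty, fld_zero']
  | succ n ih =>
    intro hd hp
    obtain ⟨h1, h2⟩ := ih (fun t ht => hd t (by omega))
      (fun s hs t ht => hp s (by omega) t (by omega))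
    have h0 : fld (∑ t ∈ Finset.range n, d t * 8 ^ p t) (p n) = 0 := by
      apply h2
      intro t ht h3
      have := hp t (by omega) n (by omega) h3
      omega
    have h3 := fld_add h0 (hd n (by omega))
    rw [Finset.sum_range_succ]
    constructor
    · intro t ht
      rw [h3]
      rcases Nat.lt_or_ge t n with h4 | h4
      · rw [if_neg, h1 t h4]
        intro h5
        have := hp t (by omega) n (by omega) h5
        omega
      · have : t = n := by omega
        rw [this, if_pos rfl]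
    · intro i hi
      rw [h3, if_neg (hi n (by omega)).symm]
      exact h2 i fun t ht => hi t (by omega)

/-! ### The functions of `Core3` -/

theorem land7_fld (v t : ℕ) : Nat.land (Nat.shiftRight v (3 * t)) 7 = fld v t := fld_eq v t

theorem spr_eq (v : ℕ) : spr v = ∑ t ∈ Finset.range 8, fld v t * 8 ^ (16 * t) := by
  have e : ∀ t, fld v t * 8 ^ (16 * t) = Nat.shiftLeft (fld v t) (48 * t) := by
    intro t
    rw [shl, show 48 * t = 3 * (16 * t) by ring, pow_mul 2 3]
    norm_num
  rw [Finset.sum_congr rfl fun t _ => e t]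
  simp only [Finset.sum_range_succ, Finset.range_zero, Finset.sum_empty, ← fld_eq]
  show (Nat.land v 7 + Nat.shiftLeft (Nat.land (Nat.shiftRight v 3) 7) 48
    + (Nat.shiftLeft (Nat.land (Nat.shiftRight v 6) 7) 96
      + Nat.shiftLeft (Nat.land (Nat.shiftRight v 9) 7) 144))
    + ((Nat.shiftLeft (Nat.land (Nat.shiftRight v 12) 7) 192
      + Nat.shiftLeft (Nat.land (Nat.shiftRight v 15) 7) 240)
    + (Nat.shiftLeft (Nat.land (Nat.shiftRight v 18) 7) 288
      + Nat.shiftLeft (Nat.land (Nat.shiftRight v 21) 7) 336)) = _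
  have h0 : Nat.shiftLeft (Nat.land (Nat.shiftRight v (Nat.mul 3 0)) 7) (48 * 0)
      = Nat.land v 7 := rfl
  rw [h0]
  show _ = (0 + Nat.land v 7 + Nat.shiftLeft (Nat.land (Nat.shiftRight v 3) 7) 48
    + Nat.shiftLeft (Nat.land (Nat.shiftRight v 6) 7) 96
    + Nat.shiftLeft (Nat.land (Nat.shiftRight v 9) 7) 144
    + Nat.shiftLeft (Nat.land (Nat.shiftRight v 12) 7) 192
    + Nat.shiftLeft (Nat.land (Nat.shiftRight v 15) 7) 240
    + Nat.shiftLeft (Nat.land (Nat.shiftRight v 18) 7) 288
    + Nat.shiftLeft (Nat.land (Nat.shiftRight v 21) 7) 336)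
  ring

theorem fld_spr (v e : ℕ) :
    fld (spr v) e = if e % 16 = 0 ∧ e / 16 < 8 then fld v (e / 16) else 0 := by
  rw [spr_eq]
  obtain ⟨h1, h2⟩ := fld_sparse (d := fun t => fld v t) (p := fun t => 16 * t) 8
    (fun t _ => fld_lt v t) (fun s _ t _ h => by
      have : 16 * s = 16 * t := h
      omega)
  split_ifs with h
  · have := h1 (e / 16) h.2
    rwa [show 16 * (e / 16) = e by omega] at this
  · apply h2
    intro t ht
    show 16 * t ≠ e
    omega

theorem fld_clz (v a i : ℕ) : fld (clz v (3 * a)) i = if i = a then 0 else fld v i := by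
  have h : clz v (3 * a) = v - Nat.shiftLeft (fld v a) (3 * a) := by
    rw [← land7_fld]
    rfl
  have h1 := fld_shlv (fld_lt v a) a
  rw [h, fld_minus (fun i => by
    rw [h1]
    split_ifs with h2
    · rw [h2]
    · exact Nat.zero_le _), h1]
  split_ifs with h2
  · rw [h2, Nat.sub_self]
  · rw [Nat.sub_zero]

theorem fld_sez (v a : ℕ) {d : ℕ} (hd : d < 8) (i : ℕ) :
    fld (sez v (3 * a) d) i = if i = a then d else fld v i := by
  have h : sez v (3 * a) d = clz v (3 * a) + Nat.shiftLeft d (3 * a) := rfl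
  have h1 := fld_clz v a
  have h2 := fld_shlv hd a
  rw [h, fld_plus (fun i => by
    rw [h1, h2]
    have := fld_lt v i
    split_ifs <;> omega), h1, h2]
  split_ifs <;> simp

theorem fld_rowN (w a i : ℕ) :
    fld (rowN w (3 * a)) i = if i < 16 then fld w (16 * a + i) else 0 := by
  have h : rowN w (3 * a) = Nat.land (Nat.shiftRight w (16 * (3 * a))) (msk (3 * 16)) := rfl
  rw [h, fld_msk, show 16 * (3 * a) = 3 * (16 * a) by ring, fld_shr]

end Pool.Agent.Lib.EPS9
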