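import Pool.Agent.Lib.MP_c7e7f6_eps.ExtEnt

/-!
The table of the colourings of five points is complete (`EAll_of`).
-/

set_option autoImplicit false
set_option linter.unusedVariables false

namespace Pool.Agent.Lib.EPS9

open Finset

/-! ### The tests of the table -/

theorem Kt.all_of_ok (t : Kt) (h : t.ok = true) : t.All := by
  induction t with
  | e => trivial
  | n K L l r ihl ihr =>
    have h' : cnd (lexT K L T5 K) (cnd l.ok r.ok) = true := h
    obtain ⟨h1, h2⟩ := cnd_true h'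
    obtain ⟨h3, h4⟩ := cnd_true h2
    exact ⟨h1, ihl h3, ihr h4⟩

theorem EL.brnN_cases {c : Bool} {a b : ℕ} : (c = true ∧ brnN c a b = a) ∨ (c = false ∧ brnN c a b = b) := by
  cases c with
  | false => exact Or.inr ⟨rfl, rfl⟩
  | true => exact Or.inl ⟨rfl, rfl⟩

theorem EL.lk_lexT (t : Kt) (h : t.All) (K : ℕ) (h0 : t.lk K ≠ 0) :
    lexT K (t.lk K) T5 K = true := by
  induction t with
  | e => exact absurd rfl h0
  | n K' L l r ihl ihr =>
    have h1 : (Kt.n K' L l r).lk K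
        = brnN (Nat.beq K K') L (brnN (Nat.ble K K') (l.lk K) (r.lk K)) := rfl
    rw [h1] at h0 ⊢
    rcases EL.brnN_cases (c := Nat.beq K K') (a := L)
        (b := brnN (Nat.ble K K') (l.lk K) (r.lk K)) with ⟨h2, h3⟩ | ⟨h2, h3⟩
    · rw [h3]
      have h4 : K = K' := Nat.eq_of_beq_eq_true h2
      subst h4
      exact h.1
    · rw [h3] at h0 ⊢
      rcases EL.brnN_cases (c := Nat.ble K K') (a := l.lk K) (b := r.lk K) with ⟨_, h4⟩ | ⟨_, h4⟩
      · rw [h4] at h0 ⊢
        exact ihl h.2.1 h0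
      · rw [h4] at h0 ⊢
        exact ihr h.2.2 h0

theorem e1_spec {KT : Kt} {RW fuel j P : ℕ} (h : e1 KT RW fuel j P = true) :
    ∀ k < fuel, ∀ a < 6, ∃ p, e1a KT (wT RW (j + k)) (j + k) a p = true := by
  induction fuel generalizing j P with
  | zero =>
    intro k hk
    exact absurd hk (Nat.not_lt_zero k)
  | succ n ih =>
    have h' : cnd (cnd (e1a KT (wT RW j) j 0 (Nat.land P 1023))
        (cnd (e1a KT (wT RW j) j 1 (Nat.land (Nat.shiftRight P 10) 1023))
        (cnd (e1a KT (wT RW j) j 2 (Nat.land (Nat.shiftRight P 20) 1023))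
        (cnd (e1a KT (wT RW j) j 3 (Nat.land (Nat.shiftRight P 30) 1023))
        (cnd (e1a KT (wT RW j) j 4 (Nat.land (Nat.shiftRight P 40) 1023))
          (e1a KT (wT RW j) j 5 (Nat.land (Nat.shiftRight P 50) 1023)))))))
        (e1 KT RW n (Nat.add j 1) (Nat.shiftRight P 60)) = true := h
    obtain ⟨h1, h2⟩ := cnd_true h'
    intro k hk a ha
    rcases k with _ | k
    · obtain ⟨a0, h1⟩ := cnd_true h1
      obtain ⟨a1, h1⟩ := cnd_true h1
      obtain ⟨a2, h1⟩ := cnd_true h1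
      obtain ⟨a3, h1⟩ := cnd_true h1
      obtain ⟨a4, a5⟩ := cnd_true h1
      have ha' : a = 0 ∨ a = 1 ∨ a = 2 ∨ a = 3 ∨ a = 4 ∨ a = 5 := by omega
      rcases ha' with rfl | rfl | rfl | rfl | rfl | rfl
      · exact ⟨_, a0⟩
      · exact ⟨_, a1⟩
      · exact ⟨_, a2⟩
      · exact ⟨_, a3⟩
      · exact ⟨_, a4⟩
      · exact ⟨_, a5⟩
    · obtain ⟨p, hp⟩ := ih h2 k (by omega) a ha
      have e : Nat.add j 1 + k = j + (k + 1) := by
        show j + 1 + k = _
        omega
      rw [e] at hp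
      exact ⟨p, hp⟩

theorem RAll_of {RW NR : ℕ} {R : Rt} {t : Tr} (hbad : ∀ i < 237, ∃ k t, chkB i k t = true)
    (hRW : ∀ j < NR, ∀ t < 15, went RW j t ≠ 0) (hall : R.All RW NR)
    (htop : chk0 RW NR R t = true) : RAll RW NR := by
  intro ι D x c p hP hF
  have hlt : ∀ a b : Fin 6, c (p a) (p b) - 1 < 6 := by
    intro a b
    have := hP.le (p a) (p b)
    omega
  let c' : Fin 6 → Fin 6 → Fin 6 := fun a b => ⟨c (p a) (p b) - 1, hlt a b⟩
  have hc : Col (fun i j => D (p i) (p j)) x c' :=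
    { geo := hP.geo.comp hF.1
      pos := hP.pos
      mono := hP.mono
      symm := fun i j => by
        apply Fin.ext
        show c (p i) (p j) - 1 = c (p j) (p i) - 1
        rw [hP.symm]
      eq := fun i j hij => by
        apply hP.eq _ _ (hF.1.ne hij)
        show c (p i) (p j) = c (p i) (p j) - 1 + 1
        have := hF.2 i j hij
        omega }
  obtain ⟨j, hj, σ, hσ⟩ := R_of hbad hRW hall htop hc
  refine ⟨j, hj, σ, ?_⟩
  intro t ht a b ha hb
  rw [hσ t ht a b ha hb]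
  show c (p (σ a)) (p (σ b)) - 1 + 1 = _
  have hab : a ≠ b := by
    intro h1
    have := (ei_lt ht).1
    rw [← ha, ← hb, h1] at this
    omega
  have := hF.2 (σ a) (σ b) (σ.injective.ne hab)
  omega

/-! ### Paths in the tree of the relabelings -/

namespace EL

/-- the tree has the path `q` with the leaf `e` -/
noncomputable def pth (e : ℕ) (t : Tr) : List ℕ → Bool :=
  Tr.rec (motive := fun _ => List ℕ → Bool) (fun _ => false)
    (fun p _ _ hl hr q => List.rec (motive := fun _ => Bool) (brn (Nat.beq p e) true (hr []))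
      (fun a q' _ => brn (cnd (Nat.beq p a) (hl q')) true (hr (a :: q'))) q) t

/-- the word read along the path is larger, or it is the same and `Q` holds -/
def LexC (K : ℕ) (Q : Prop) : List ℕ → ℕ → Prop
  | [], _ => Q
  | a :: q, s => Nat.land s 7 < Nat.land (Nat.shiftRight K (Nat.shiftRight a 1)) 7 ∨
      (Nat.land (Nat.shiftRight K (Nat.shiftRight a 1)) 7 = Nat.land s 7 ∧
        LexC K Q q (Nat.shiftRight s 3))

theorem lexT_pth {K L e : ℕ} (he : Nat.land e 1 ≠ 0) (t : Tr) : ∀ (q : List ℕ) (s : ℕ),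
    (∀ a ∈ q, Nat.land a 1 = 0) → pth e t q = true → lexT K L t s = true →
      LexC K (clo L (Nat.shiftRight e 1) 64 L = true) q s := by
  induction t with
  | z =>
    intro q s _ h
    exact absurd (show false = true from h) Bool.false_ne_true
  | n p l r ihl ihr =>
    intro q s hq h1 h2
    have h3 : cnd (isZ (Nat.land p 1)
        (brn (Nat.ble (Nat.land (Nat.shiftRight K (Nat.shiftRight p 1)) 7) (Nat.land s 7))
          (cnd (Nat.beq (Nat.land (Nat.shiftRight K (Nat.shiftRight p 1)) 7) (Nat.land s 7))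
            (lexT K L l (Nat.shiftRight s 3))) true)
        (clo L (Nat.shiftRight p 1) 64 L)) (lexT K L r s) = true := h2
    obtain ⟨h4, h5⟩ := cnd_true h3
    rcases q with _ | ⟨a, q⟩
    · have h6 : brn (Nat.beq p e) true (pth e r []) = true := h1
      rcases brn_true h6 with ⟨h7, _⟩ | ⟨_, h7⟩
      · have h8 : p = e := Nat.eq_of_beq_eq_true h7
        subst h8
        rcases isZ_cases h4 with ⟨h9, _⟩ | ⟨_, h9⟩
        · exact absurd h9 he
        · exact h9
      · exact ihr [] s hq h7 h5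
    · have h6 : brn (cnd (Nat.beq p a) (pth e l q)) true (pth e r (a :: q)) = true := h1
      rcases brn_true h6 with ⟨h7, _⟩ | ⟨_, h7⟩
      · obtain ⟨h7, h8⟩ := cnd_true h7
        have h9 : p = a := Nat.eq_of_beq_eq_true h7
        subst h9
        rcases isZ_cases h4 with ⟨_, h9⟩ | ⟨h9, _⟩
        · rcases brn_true h9 with ⟨_, h10⟩ | ⟨h10, _⟩
          · obtain ⟨h11, h12⟩ := cnd_true h10
            exact Or.inr ⟨Nat.eq_of_beq_eq_true h11,
              ihl q _ (fun b hb => hq b (List.mem_cons_of_mem _ hb)) h8 h12⟩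
          · refine Or.inl ?_
            by_contra h11
            have h12 := Nat.ble_eq_true_of_le (Nat.le_of_not_lt h11)
            rw [h12] at h10
            exact absurd h10.symm Bool.false_ne_true
        · exact absurd (hq p List.mem_cons_self) h9
      · exact ihr (a :: q) s hq h7 h5

/-- number of the pair -/
def ix (a b : ℕ) : ℕ := if a < b then b * (b - 1) / 2 + a else a * (a - 1) / 2 + b

theorem ix_lt {a b : ℕ} (ha : a < 5) (hb : b < 5) (hab : a ≠ b) : ix a b < 10 ∧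
    ((ei (ix a b) = a ∧ ej (ix a b) = b) ∨ (ei (ix a b) = b ∧ ej (ix a b) = a)) := by
  have h : ∀ a < 5, ∀ b < 5, a ≠ b → ix a b < 10 ∧
    ((ei (ix a b) = a ∧ ej (ix a b) = b) ∨ (ei (ix a b) = b ∧ ej (ix a b) = a)) := by
    decide +kernel
  exact h a ha b hb hab

/-- nodes of a path -/
def nds (g : ℕ → ℕ) : ℕ → ℕ → List ℕ
  | 0, _ => []
  | n + 1, m => 6 * g m :: nds g n (m + 1)

/-- leaf of the map `β` -/
def lef (β : ℕ → ℕ) : ℕ :=
  2 * (3 * β 0 + 16 * (3 * β 1 + 16 * (3 * β 2 + 16 * (3 * β 3 + 16 * (3 * β 4))))) + 1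

/-- the map number `n` -/
def dg5 (n t : ℕ) : ℕ := n / 5 ^ t % 5

/-- the path of the map number `n`, if it is injective, is in the tree -/
noncomputable def okM (n : ℕ) : Bool :=
  brn ((List.range 5).all fun s => (List.range 5).all fun t =>
      Nat.beq s t || !(Nat.beq (dg5 n s) (dg5 n t)))
    (pth (lef (dg5 n)) T5 (nds (fun t => ix (dg5 n (ei t)) (dg5 n (ej t))) 10 0)) true

theorem okM_all : ((List.range 3125).all okM) = true := by
  decide +kernel

theorem exists_dg5 {β : ℕ → ℕ} (h1 : ∀ t, t < 5 → β t < 5) : ∃ n < 3125, ∀ t, t < 5 → dg5 n t = β t := by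
  have a0 := h1 0 (by norm_num)
  have a1 := h1 1 (by norm_num)
  have a2 := h1 2 (by norm_num)
  have a3 := h1 3 (by norm_num)
  have a4 := h1 4 (by norm_num)
  refine ⟨β 0 + 5 * β 1 + 25 * β 2 + 125 * β 3 + 625 * β 4, by omega, ?_⟩
  intro t ht
  unfold dg5
  have ht' : t = 0 ∨ t = 1 ∨ t = 2 ∨ t = 3 ∨ t = 4 := by omega
  rcases ht' with rfl | rfl | rfl | rfl | rfl
  · norm_num
    omega
  · norm_num
    omega
  · norm_num
    omega
  · norm_num
    omega
  · norm_num
    omega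

theorem nds_congr {g g' : ℕ → ℕ} (n : ℕ) : ∀ m, (∀ t, m ≤ t → t < m + n → g t = g' t) →
    nds g n m = nds g' n m := by
  induction n with
  | zero =>
    intro m _
    rfl
  | succ n ih =>
    intro m h
    show 6 * g m :: nds g n (m + 1) = 6 * g' m :: nds g' n (m + 1)
    rw [h m le_rfl (by omega), ih (m + 1) (fun t h1 h2 => h t (by omega) (by omega))]

theorem pth_of {β : ℕ → ℕ} (h1 : ∀ t, t < 5 → β t < 5)
    (h2 : ∀ s t, s < 5 → t < 5 → β s = β t → s = t) :
    pth (lef β) T5 (nds (fun t => ix (β (ei t)) (β (ej t))) 10 0) = true := by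
  obtain ⟨n, hn, hd⟩ := exists_dg5 h1
  have h3 := List.all_eq_true.mp okM_all n (List.mem_range.mpr hn)
  have e1 : lef (dg5 n) = lef β := by
    unfold lef
    rw [hd 0 (by norm_num), hd 1 (by norm_num), hd 2 (by norm_num), hd 3 (by norm_num),
      hd 4 (by norm_num)]
  have e2 : nds (fun t => ix (dg5 n (ei t)) (dg5 n (ej t))) 10 0
      = nds (fun t => ix (β (ei t)) (β (ej t))) 10 0 := by
    apply nds_congr
    intro t _ ht
    obtain ⟨h4, h5⟩ := ei_lt5 (show t < 10 by omega)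
    show ix (dg5 n (ei t)) (dg5 n (ej t)) = ix (β (ei t)) (β (ej t))
    rw [hd _ (by omega), hd _ h5]
  unfold okM at h3
  rw [e1, e2] at h3
  rcases brn_true h3 with ⟨_, h4⟩ | ⟨h4, _⟩
  · exact h4
  · exfalso
    have h5 : ((List.range 5).all fun s => (List.range 5).all fun t =>
      Nat.beq s t || !(Nat.beq (dg5 n s) (dg5 n t))) = true := by
      rw [List.all_eq_true]
      intro s hs
      rw [List.all_eq_true]
      intro t ht
      rw [List.mem_range] at hs ht
      by_cases hst : s = t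
      · rw [hst, Nat.beq_refl]
        rfl
      · rw [hd s hs, hd t ht]
        have h6 : Nat.beq (β s) (β t) = false := by
          rw [← Bool.not_eq_true]
          intro h7
          exact hst (h2 s t hs ht (Nat.eq_of_beq_eq_true h7))
        rw [h6]
        simp
    rw [h4] at h5
    exact Bool.false_ne_true h5

theorem lexC_nds {K : ℕ} {Q : Prop} {g : ℕ → ℕ} {S : ℕ} (n : ℕ) : ∀ m s,
    (∀ i, fld s i = fld S (m + i)) → LexC K Q (nds g n m) s →
      (∃ t, m ≤ t ∧ t < m + n ∧ (∀ u, m ≤ u → u < t → fld K (g u) = fld S u) ∧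
        fld S t < fld K (g t)) ∨
      ((∀ t, m ≤ t → t < m + n → fld K (g t) = fld S t) ∧ Q) := by
  induction n with
  | zero =>
    intro m s _ h
    exact Or.inr ⟨fun t h1 h2 => by omega, h⟩
  | succ n ih =>
    intro m s hs h
    have h1 : Nat.land s 7 < Nat.land (Nat.shiftRight K (Nat.shiftRight (6 * g m) 1)) 7 ∨
      (Nat.land (Nat.shiftRight K (Nat.shiftRight (6 * g m) 1)) 7 = Nat.land s 7 ∧
        LexC K Q (nds g n (m + 1)) (Nat.shiftRight s 3)) := h
    have e1 : Nat.shiftRight (6 * g m) 1 = 3 * g m := by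
      rw [shr]
      omega
    rw [e1, land7_fld, ← fld_zero, hs, add_zero] at h1
    rcases h1 with h1 | ⟨h1, h2⟩
    · exact Or.inl ⟨m, le_rfl, by omega, fun u _ _ => by omega, h1⟩
    · rcases ih (m + 1) _ (fun i => by
        rw [fld_shr3, hs]
        congr 1
        omega) h2 with ⟨t, h3, h4, h5, h6⟩ | ⟨h3, h4⟩
      · refine Or.inl ⟨t, by omega, by omega, ?_, h6⟩
        intro u hu1 hu2
        by_cases hu : u = m
        · rw [hu, h1]
        · exact h5 u (by omega) hu2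
      · refine Or.inr ⟨?_, h4⟩
        intro t ht1 ht2
        by_cases ht : t = m
        · rw [ht, h1]
        · exact h3 t (by omega) (by omega)

theorem nds_even (g : ℕ → ℕ) (n : ℕ) : ∀ m, ∀ a ∈ nds g n m, Nat.land a 1 = 0 := by
  induction n with
  | zero =>
    intro m a ha
    exact absurd ha List.not_mem_nil
  | succ n ih =>
    intro m a ha
    have ha' : a ∈ 6 * g m :: nds g n (m + 1) := ha
    rcases List.mem_cons.mp ha' with h | h
    · have e : Nat.land a 1 = a &&& (2 ^ 1 - 1) := rfl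
      rw [e, Nat.and_two_pow_sub_one_eq_mod, h]
      omega
    · exact ih (m + 1) a h

/-- comparison with a relabeling -/
theorem lex_of {K L : ℕ} (h : lexT K L T5 K = true) {β : ℕ → ℕ} (h1 : ∀ t, t < 5 → β t < 5)
    (h2 : ∀ s t, s < 5 → t < 5 → β s = β t → s = t) :
    (∃ t, t < 10 ∧ (∀ u, u < t → fld K (ix (β (ei u)) (β (ej u))) = fld K u) ∧
      fld K t < fld K (ix (β (ei t)) (β (ej t)))) ∨
    ((∀ t, t < 10 → fld K (ix (β (ei t)) (β (ej t))) = fld K t) ∧
      clo L (Nat.shiftRight (lef β) 1) 64 L = true) := by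
  have h3 := lexT_pth (e := lef β) (by
    have e : Nat.land (lef β) 1 = (lef β) &&& (2 ^ 1 - 1) := rfl
    rw [e, Nat.and_two_pow_sub_one_eq_mod]
    unfold lef
    omega) T5 _ K (nds_even _ 10 0) (pth_of h1 h2) h
  rcases lexC_nds (S := K) 10 0 K (fun i => by rw [zero_add]) h3 with ⟨t, _, h4, h5, h6⟩ | ⟨h4, h5⟩
  · exact Or.inl ⟨t, by omega, fun u hu => h5 u (Nat.zero_le u) hu, h6⟩
  · exact Or.inr ⟨fun t ht => h4 t (Nat.zero_le t) (by omega), h5⟩

/-- two keys that are relabelings of each other agree -/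
theorem keys_eq {K K' L L' : ℕ} (h : lexT K L T5 K = true) (h' : lexT K' L' T5 K' = true)
    {β β' : ℕ → ℕ} (h1 : ∀ t, t < 5 → β t < 5) (h2 : ∀ s t, s < 5 → t < 5 → β s = β t → s = t)
    (h1' : ∀ t, t < 5 → β' t < 5) (h2' : ∀ s t, s < 5 → t < 5 → β' s = β' t → s = t)
    (hK : ∀ t, t < 10 → fld K' t = fld K (ix (β (ei t)) (β (ej t))))
    (hK' : ∀ t, t < 10 → fld K t = fld K' (ix (β' (ei t)) (β' (ej t)))) :
    (∀ t, t < 10 → fld K t = fld K' t) ∧ clo L' (Nat.shiftRight (lef β') 1) 64 L' = true := by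
  rcases lex_of h h1 h2 with ⟨t, a1, a2, a3⟩ | ⟨a1, a2⟩
  · exfalso
    rw [← hK t a1] at a3
    have a2' : ∀ u, u < t → fld K' u = fld K u := fun u hu => by
      rw [hK u (by omega)]
      exact a2 u hu
    rcases lex_of h' h1' h2' with ⟨t', b1, b2, b3⟩ | ⟨b1, b2⟩
    · rw [← hK' t' b1] at b3
      have b2' : ∀ u, u < t' → fld K u = fld K' u := fun u hu => by
        rw [hK' u (by omega)]
        exact b2 u hu
      rcases lt_trichotomy t t' with h3 | h3 | h3
      · have := b2' t h3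
        omega
      · rw [h3] at a3
        omega
      · have := a2' t' h3
        omega
    · have := b1 t a1
      rw [← hK' t a1] at this
      omega
  · refine ⟨fun t ht => ?_, ?_⟩
    · rw [hK t ht, a1 t ht]
    · rcases lex_of h' h1' h2' with ⟨t', b1, b2, b3⟩ | ⟨b1, b2⟩
      · exfalso
        rw [← hK' t' b1, hK t' b1, a1 t' b1] at b3
        omega
      · exact b2

/-! ### Lists -/

theorem clo_spec {L p : ℕ} (fuel : ℕ) : ∀ R, clo L p fuel R = true →
    ∀ k, R / 2 ^ (30 * k) ≠ 0 → memL (prm p (R / 2 ^ (30 * k))) 64 L = true := by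
  induction fuel with
  | zero =>
    intro R h
    exact absurd (show false = true from h) Bool.false_ne_true
  | succ n ih =>
    intro R h k hk
    have h' : isZ R true (cnd (memL (prm p R) 64 L) (clo L p n (Nat.shiftRight R 30))) = true := h
    rcases isZ_cases h' with ⟨h1, _⟩ | ⟨_, h1⟩
    · rw [h1, Nat.zero_div] at hk
      exact absurd rfl hk
    · obtain ⟨h2, h3⟩ := cnd_true h1
      rcases k with _ | k
      · rw [mul_zero, pow_zero, Nat.div_one]
        exact h2
      · have e : Nat.shiftRight R 30 / 2 ^ (30 * k) = R / 2 ^ (30 * (k + 1)) := by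
          rw [shr, Nat.div_div_eq_div_mul, ← pow_add]
          congr 2
          ring
        rw [← e] at hk ⊢
        exact ih _ h3 k hk

theorem prm_eq {β : ℕ → ℕ} (h1 : ∀ t, t < 5 → β t < 5) (R : ℕ) :
    prm (Nat.shiftRight (lef β) 1) R
      = ∑ t ∈ range 5, fld R (β t) * 8 ^ t + R / 32768 % 32768 * 32768 := by
  have a0 := h1 0 (by norm_num)
  have a1 := h1 1 (by norm_num)
  have a2 := h1 2 (by norm_num)
  have a3 := h1 3 (by norm_num)
  have a4 := h1 4 (by norm_num)
  have hl : ∀ x, Nat.land x 15 = x % 16 := by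
    intro x
    have e : Nat.land x 15 = x &&& (2 ^ 4 - 1) := rfl
    rw [e, Nat.and_two_pow_sub_one_eq_mod]
  have hd : ∀ x y : ℕ, x < 5 → (3 * x + 16 * y) / 16 = y ∧ (3 * x + 16 * y) % 16 = 3 * x := by
    intro x y hx
    omega
  have m0 : Nat.shiftRight (lef β) 1
      = 3 * β 0 + 16 * (3 * β 1 + 16 * (3 * β 2 + 16 * (3 * β 3 + 16 * (3 * β 4)))) := by
    rw [shr]
    unfold lef
    omega
  have m4 : Nat.shiftRight (Nat.shiftRight (lef β) 1) 4
      = 3 * β 1 + 16 * (3 * β 2 + 16 * (3 * β 3 + 16 * (3 * β 4))) := by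
    rw [shr, m0, show (2 : ℕ) ^ 4 = 16 by norm_num]
    exact (hd _ _ a0).1
  have m8 : Nat.shiftRight (Nat.shiftRight (lef β) 1) 8
      = 3 * β 2 + 16 * (3 * β 3 + 16 * (3 * β 4)) := by
    rw [shr, show (2 : ℕ) ^ 8 = 2 ^ 4 * 16 by norm_num, ← Nat.div_div_eq_div_mul, ← shr, m4]
    exact (hd _ _ a1).1
  have m12 : Nat.shiftRight (Nat.shiftRight (lef β) 1) 12 = 3 * β 3 + 16 * (3 * β 4) := by
    rw [shr, show (2 : ℕ) ^ 12 = 2 ^ 8 * 16 by norm_num, ← Nat.div_div_eq_div_mul, ← shr, m8]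
    exact (hd _ _ a2).1
  have m16 : Nat.shiftRight (Nat.shiftRight (lef β) 1) 16 = 3 * β 4 := by
    rw [shr, show (2 : ℕ) ^ 16 = 2 ^ 12 * 16 by norm_num, ← Nat.div_div_eq_div_mul, ← shr, m12]
    exact (hd _ _ a3).1
  have e0 : Nat.land (Nat.shiftRight (lef β) 1) 15 = 3 * β 0 := by
    rw [hl, m0]
    exact (hd _ _ a0).2
  have e1 : Nat.land (Nat.shiftRight (Nat.shiftRight (lef β) 1) 4) 15 = 3 * β 1 := by
    rw [hl, m4]
    exact (hd _ _ a1).2
  have e2 : Nat.land (Nat.shiftRight (Nat.shiftRight (lef β) 1) 8) 15 = 3 * β 2 := by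
    rw [hl, m8]
    exact (hd _ _ a2).2
  have e3 : Nat.land (Nat.shiftRight (Nat.shiftRight (lef β) 1) 12) 15 = 3 * β 3 := by
    rw [hl, m12]
    exact (hd _ _ a3).2
  have e4 : Nat.land (Nat.shiftRight (Nat.shiftRight (lef β) 1) 16) 15 = 3 * β 4 := by
    rw [hl, m16]
    omega
  have e5 : Nat.land (Nat.shiftRight R 15) 32767 = R / 32768 % 32768 := by
    have e : Nat.land (Nat.shiftRight R 15) 32767
        = (Nat.shiftRight R 15) &&& (2 ^ 15 - 1) := rfl
    rw [e, Nat.and_two_pow_sub_one_eq_mod, shr, show (2 : ℕ) ^ 15 = 32768 by norm_num]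
  have e6 : prm (Nat.shiftRight (lef β) 1) R
      = (Nat.land (Nat.shiftRight R (Nat.land (Nat.shiftRight (lef β) 1) 15)) 7
      + (Nat.shiftLeft (Nat.land (Nat.shiftRight R (Nat.land
          (Nat.shiftRight (Nat.shiftRight (lef β) 1) 4) 15)) 7) 3
      + Nat.shiftLeft (Nat.land (Nat.shiftRight R (Nat.land
          (Nat.shiftRight (Nat.shiftRight (lef β) 1) 8) 15)) 7) 6))
      + (Nat.shiftLeft (Nat.land (Nat.shiftRight R (Nat.land
          (Nat.shiftRight (Nat.shiftRight (lef β) 1) 12) 15)) 7) 9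
      + (Nat.shiftLeft (Nat.land (Nat.shiftRight R (Nat.land
          (Nat.shiftRight (Nat.shiftRight (lef β) 1) 16) 15)) 7) 12
      + Nat.shiftLeft (Nat.land (Nat.shiftRight R 15) 32767) 15)) := rfl
  rw [e6, e0, e1, e2, e3, e4, e5, land7_fld, land7_fld, land7_fld, land7_fld, land7_fld,
    shl, shl, shl, shl, shl]
  simp only [Finset.sum_range_succ, Finset.range_zero, Finset.sum_empty]
  ring

/-! ### The table of a word -/

theorem went_fld (RW j : ℕ) {t : ℕ} (ht : t < 15) :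
    fld (Nat.land (Nat.shiftRight RW (Nat.mul 45 j)) (msk 45)) t = went RW j t := by
  have e1 : Nat.land (Nat.shiftRight RW (Nat.mul 45 j)) (msk 45)
      = Nat.land (Nat.shiftRight RW (3 * (15 * j))) (msk (3 * 15)) := by
    rw [show 3 * (15 * j) = 45 * j by ring]
    rfl
  have e2 : went RW j t = Nat.land (Nat.shiftRight RW (3 * (15 * j + t))) 7 := by
    rw [show 3 * (15 * j + t) = 45 * j + 3 * t by ring]
    rfl
  rw [e1, fld_msk, if_pos ht, fld_shr, e2, land7_fld]

theorem tb_wT {ι : Type} {c : ι → ι → ℕ} (hc : Sy c) {RW j : ℕ} {f : ℕ → ι}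
    (h : ∀ t, t < 15 → went RW j t = c (f (ei t)) (f (ej t))) : Tb c (wT RW j) 6 f := by
  set s := Nat.land (Nat.shiftRight RW (Nat.mul 45 j)) (msk 45) with hs
  have e1 : wT RW j = Wt (fld s) 15 := by
    rw [← wOf_zero]
    rfl
  obtain ⟨h1, h2⟩ := Wt_fld (fld_lt s) 15 le_rfl
  have h3 : ∀ t, t < 15 → fld s t = c (f (ei t)) (f (ej t)) := by
    intro t ht
    rw [hs, went_fld RW j ht, h t ht]
  intro i k hk
  rw [e1, cl_eq]
  by_cases h4 : i < 6 ∧ k < 6
  · rw [if_pos h4]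
    by_cases h5 : i = k
    · rw [h5, hc.self]
      apply h2
      intro t ht
      have := ei_lt ht
      unfold pa pb
      constructor <;> omega
    · obtain ⟨t, ht, h6⟩ := pr_ex h4.1 h4.2 h5
      obtain ⟨h7, h8⟩ := h1 t ht
      rcases h6 with ⟨h9, h10⟩ | ⟨h9, h10⟩
      · have e2 : 16 * i + k = pa t := by
          unfold pa
          rw [h9, h10]
        rw [e2, h7, h3 t ht, h9, h10]
      · have e2 : 16 * i + k = pb t := by
          unfold pb
          rw [h9, h10]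
        rw [e2, h8, h3 t ht, h9, h10, hc.symm]
  · rw [if_neg h4]
    apply h2
    intro t ht
    have := ei_lt ht
    unfold pa pb
    constructor <;> omega

end EL

open EL in
/-- the table of the colourings of five points is complete -/
theorem EAll_of {KT : Kt} {RW NR : ℕ} (hNR : NR < 16384) (hK0 : KT.lk 0 = 0) (hR : RAll RW NR)
    (h1 : ∀ j < NR, ∀ a < 6, ∃ p, e1a KT (wT RW j) j a p = true) (h2 : KT.All) :
    EAll KT RW NR := by
  intro ι D x c p hP hF hL
  obtain ⟨j, hj, σ, hσ⟩ := hR D x c p hP hF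
  refine ⟨j, hj, ⟨σ, hσ⟩, ?_⟩
  have hc := hP.sy
  have hofN : ∀ t, t < 6 → ((Fin.ofNat 6 t : Fin 6) : ℕ) = t := fun t ht =>
    Nat.mod_eq_of_lt (by omega)
  set F : ℕ → ι := fun i => p (Fin.ofNat 6 i) with hFd
  set f : ℕ → ι := fun i => p (σ (Fin.ofNat 6 i)) with hfd
  have hw : Tb c (wT RW j) 6 f := by
    apply tb_wT hc
    intro t ht
    obtain ⟨a1, a2⟩ := ei_lt ht
    exact hσ t ht _ _ (hofN _ (by omega)) (hofN _ a2)
  obtain ⟨pn, hpn⟩ := h1 j hj ((σ.symm 5 : Fin 6) : ℕ) (σ.symm 5).2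
  set w := wT RW j with hwd
  have h3 : cnd (Nat.beq (Nat.land (Nat.shiftRight (pw pn) 90) 15)
      (Nat.mul 3 ((σ.symm 5 : Fin 6) : ℕ)))
      (memL (Nat.add (w5 w (pw pn)) (Nat.add (Nat.mul 32768 j) 536870912)) 64
        (KT.lk (w10 w (pw pn)))) = true := hpn
  obtain ⟨h4, h5⟩ := cnd_true h3
  obtain ⟨k, hk, h6, h7⟩ := memL_spec 64 _ h5
  have hL' : KT.lk (w10 w (pw pn)) ≠ 0 := by
    intro h8
    rw [h8, Nat.zero_div] at h6
    exact h6 rfl
  obtain ⟨τ, hτ⟩ := perm_of hK0 hP hw hL'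
  have hτ5 : τ 5 = ((σ.symm 5 : Fin 6) : ℕ) := by
    have h8 : Nat.land (Nat.shiftRight (pw pn) 90) 15
        = Nat.mul 3 ((σ.symm 5 : Fin 6) : ℕ) := Nat.eq_of_beq_eq_true h4
    rw [hτ.last] at h8
    have h9 : 3 * τ 5 = 3 * ((σ.symm 5 : Fin 6) : ℕ) := h8
    omega
  -- the permutation of the five points
  set β : ℕ → ℕ := fun t => ((σ (Fin.ofNat 6 (τ t)) : Fin 6) : ℕ) with hβd
  have hfτ : ∀ t, f (τ t) = F (β t) := by
    intro t
    show p (σ (Fin.ofNat 6 (τ t))) = p (Fin.ofNat 6 (β t))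
    congr 1
    apply Fin.ext
    rw [hofN _ (Fin.is_lt _)]
  have hf5 : f (τ 5) = p 5 := by
    show p (σ (Fin.ofNat 6 (τ 5))) = p 5
    have h8 : (Fin.ofNat 6 (τ 5) : Fin 6) = σ.symm 5 := by
      apply Fin.ext
      rw [hofN _ (hτ.lt 5 (by norm_num)), hτ5]
    rw [h8, Equiv.apply_symm_apply]
  have b1 : ∀ t, t < 5 → β t < 5 := by
    intro t ht
    have h8 : β t < 6 := Fin.is_lt _
    by_contra h9
    have h10 : σ (Fin.ofNat 6 (τ t)) = 5 := by
      apply Fin.ext
      show β t = 5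
      omega
    have h11 : (Fin.ofNat 6 (τ t) : Fin 6) = σ.symm 5 := by
      rw [← h10, Equiv.symm_apply_apply]
    have h12 : τ t = τ 5 := by
      rw [hτ5, ← h11, hofN _ (hτ.lt t (by omega))]
    have := hτ.inj t 5 (by omega) (by norm_num) h12
    omega
  have b2 : ∀ s t, s < 5 → t < 5 → β s = β t → s = t := by
    intro s t hs ht h8
    have h9 : σ (Fin.ofNat 6 (τ s)) = σ (Fin.ofNat 6 (τ t)) := Fin.ext h8
    have h10 := congrArg Fin.val (σ.injective h9)
    rw [hofN _ (hτ.lt s (by omega)), hofN _ (hτ.lt t (by omega))] at h10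
    exact hτ.inj s t (by omega) (by omega) h10
  have b3 : ∀ b, b < 5 → ∃ t, t < 5 ∧ β t = b := by
    intro b hb
    obtain ⟨t, ht, h8⟩ := hτ.sur ((σ.symm (Fin.ofNat 6 b) : Fin 6) : ℕ) (Fin.is_lt _)
    have h9 : (Fin.ofNat 6 (τ t) : Fin 6) = σ.symm (Fin.ofNat 6 b) := by
      apply Fin.ext
      rw [hofN _ (hτ.lt t ht), h8]
    have h10 : β t = b := by
      show ((σ (Fin.ofNat 6 (τ t)) : Fin 6) : ℕ) = b
      rw [h9, Equiv.apply_symm_apply, hofN b (by omega)]
    refine ⟨t, ?_, h10⟩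
    by_contra h11
    have h12 : t = 5 := by omega
    rw [h12] at h10
    have h13 : (Fin.ofNat 6 (τ 5) : Fin 6) = σ.symm 5 := by
      apply Fin.ext
      rw [hofN _ (hτ.lt 5 (by norm_num)), hτ5]
    have h14 : β 5 = 5 := by
      show ((σ (Fin.ofNat 6 (τ 5)) : Fin 6) : ℕ) = 5
      rw [h13, Equiv.apply_symm_apply]
      rfl
    omega
  choose! β' hβ' using b3
  have b1' : ∀ t, t < 5 → β' t < 5 := fun t ht => (hβ' t ht).1
  have bb' : ∀ t, t < 5 → β (β' t) = t := fun t ht => (hβ' t ht).2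
  have b2' : ∀ s t, s < 5 → t < 5 → β' s = β' t → s = t := by
    intro s t hs ht h8
    rw [← bb' s hs, ← bb' t ht, h8]
  -- the keys
  have c8 : ∀ u v, c u v < 8 := fun u v => by
    have := hP.le u v
    omega
  have k1 : ∀ t, fld (k10 c p) t = if t < 10 then c (F (ei t)) (F (ej t)) else 0 := by
    intro t
    have e : k10 c p = ∑ t ∈ range 10, (fun t => c (F (ei t)) (F (ej t))) t * 8 ^ t := rfl
    rw [e, fld_sum (fun t => c8 _ _)]
  have k2 : ∀ t, fld (w10 w (pw pn)) t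
      = if t < 10 then c (F (β (ei t))) (F (β (ej t))) else 0 := by
    intro t
    have e : w10 w (pw pn)
        = ∑ t ∈ range 10, (fun t => c (F (β (ei t))) (F (β (ej t)))) t * 8 ^ t := by
      rw [w10_eq]
      refine Finset.sum_congr rfl fun s hs => ?_
      rw [Finset.mem_range] at hs
      rw [code_tb hw hτ (by omega), hfτ, hfτ]
    rw [e, fld_sum (fun t => c8 _ _)]
  have k3 : ∀ a b, a < 5 → b < 5 → a ≠ b → fld (k10 c p) (ix a b) = c (F a) (F b) := by
    intro a b ha hb hab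
    obtain ⟨h8, h9⟩ := ix_lt ha hb hab
    rw [k1, if_pos h8]
    rcases h9 with ⟨h9, h10⟩ | ⟨h9, h10⟩
    · rw [h9, h10]
    · rw [h9, h10, hP.symm]
  have k4 : ∀ a b, a < 5 → b < 5 → a ≠ b →
      fld (w10 w (pw pn)) (ix a b) = c (F (β a)) (F (β b)) := by
    intro a b ha hb hab
    obtain ⟨h8, h9⟩ := ix_lt ha hb hab
    rw [k2, if_pos h8]
    rcases h9 with ⟨h9, h10⟩ | ⟨h9, h10⟩
    · rw [h9, h10]
    · rw [h9, h10, hP.symm]
  obtain ⟨g1, g2⟩ := keys_eq (lk_lexT KT h2 _ hL) (lk_lexT KT h2 _ hL') b1 b2 b1' b2'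
    (fun t ht => by
      obtain ⟨a1, a2⟩ := ei_lt5 ht
      rw [k2, if_pos ht, k3 _ _ (b1 _ (by omega)) (b1 _ a2)]
      intro h8
      have := b2 _ _ (by omega) a2 h8
      omega)
    (fun t ht => by
      obtain ⟨a1, a2⟩ := ei_lt5 ht
      rw [k1, if_pos ht, k4 _ _ (b1' _ (by omega)) (b1' _ a2), bb' _ (by omega), bb' _ a2]
      intro h8
      have := b2' _ _ (by omega) a2 h8
      omega)
  have hKK : k10 c p = w10 w (pw pn) := by
    apply fld_ext
    intro t
    rcases Nat.lt_or_ge t 10 with ht | ht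
    · exact g1 t ht
    · rw [k1, k2, if_neg (by omega), if_neg (by omega)]
  rw [hKK]
  -- the entry
  have g3 := clo_spec 64 _ g2 k h6
  rw [prm_eq b1'] at g3
  set R := KT.lk (w10 w (pw pn)) / 2 ^ (30 * k) with hRd
  have h7' : R % 2 ^ 30 = w5 w (pw pn) + (32768 * j + 536870912) := h7
  have v1 : w5 w (pw pn) = ∑ t ∈ range 5, (fun t => c (F (β t)) (p 5)) t * 8 ^ t := by
    rw [w5_eq]
    refine Finset.sum_congr rfl fun s hs => ?_
    rw [Finset.mem_range] at hs
    obtain ⟨e1, e2⟩ := eij s hs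
    rw [code_tb hw hτ (by omega), e1, e2, hf5, hfτ]
  have v2 : w5 w (pw pn) < 32768 := by
    rw [v1]
    have h8 : ∀ t ∈ range 5, (fun t => c (F (β t)) (p 5)) t * 8 ^ t ≤ 6 * 8 ^ t := fun t _ =>
      Nat.mul_le_mul_right _ (hP.le _ _)
    have h9 := Finset.sum_le_sum h8
    have h10 : ∑ t ∈ range 5, 6 * 8 ^ t < 32768 := by decide
    exact lt_of_le_of_lt h9 h10
  have v3 : ∀ t, t < 5 → fld R t = c (F (β t)) (p 5) := by
    intro t ht
    have e1 : R % 8 ^ 5 = w5 w (pw pn) := by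
      rw [show (8 : ℕ) ^ 5 = 32768 by norm_num]
      omega
    rw [← fld_mod R 5 ht, e1, v1, fld_sum (fun t => c8 _ _), if_pos ht]
  have v4 : ∑ t ∈ range 5, fld R (β' t) * 8 ^ t = o5 c p := by
    unfold o5
    refine Finset.sum_congr rfl fun t ht => ?_
    rw [Finset.mem_range] at ht
    rw [v3 _ (b1' t ht), bb' t ht]
  have v5 : R / 32768 % 32768 * 32768 = 32768 * j + 536870912 := by
    omega
  rw [v4, v5, ← add_assoc] at g3
  exact g3

end Pool.Agent.Lib.EPS9
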