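import Pool.Agent.Lib.MP_c7e7f6_eps.S7Vals

/-!
Seven variables: soundness of the loops of the certificates.
-/

set_option autoImplicit false
set_option linter.unusedVariables false
set_option linter.style.longLine false

namespace Pool.Agent.Lib.EPS9.S7

open MvPolynomial

theorem l16 (x : ℕ) : Nat.land x 15 < 16 := Nat.lt_succ_of_le Nat.and_le_right

theorem isZ_true {n : ℕ} {a : Bool} (h : isZ n false a = true) : n ≠ 0 ∧ a = true := by
  cases n with
  | zero => exact absurd (show false = true from h) Bool.false_ne_true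
  | succ n => exact ⟨Nat.succ_ne_zero n, h⟩

theorem cnd_true {c a : Bool} (h : cnd c a = true) : c = true ∧ a = true := by
  cases c with
  | false => exact absurd (show false = true from h) Bool.false_ne_true
  | true => exact ⟨rfl, h⟩

theorem mul_ne {a b : ℕ} (h : Nat.mul a b ≠ 0) : a ≠ 0 ∧ b ≠ 0 := mul_ne_zero_iff.mp h

theorem okp_or {w r c : ℕ} (h : okp w r c = true) : cl w r c ≠ 0 ∨ r = c := by
  by_cases h0 : cl w r c = 0
  · right
    unfold okp isZ at h
    rw [h0] at h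
    exact Nat.eq_of_beq_eq_true h
  · exact Or.inl h0

section

variable {b nx n w : ℕ} {X : ℕ → ℝ} {y : Fin 7 → ℝ} {D : Fin n → Fin n → ℝ}

theorem othV_spec (h : Dat b nx n w X y D) {t sk sl v0 v1 v2 v3 v4 v5 v6 : ℕ} {k l : Fin 7}
    (hk : sk = b * kw k) (hl : sl = b * kw l) {κ : ℕ → ℕ → ℕ → Bool}
    (u0 : v0 < 16) (u1 : v1 < 16) (u2 : v2 < 16) (u3 : v3 < 16) (u4 : v4 < 16) (u5 : v5 < 16)
    (u6 : v6 < 16)
    (ho : othV t (modN b) (modN b - 1) (2 ^ (494 * b)) (xtab7 b) (83 * b) (mw b) w sk sl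
      v0 v1 v2 v3 v4 v5 v6 κ = true) :
    ∃ p q s, κ p q s = true ∧ Ok b nx y p q s := by
  rcases t with _ | _ | _ | t
  · obtain ⟨h1, h2⟩ := isZ_true ho
    obtain ⟨h3, h4⟩ := cnd_true h2
    obtain ⟨h5, h6⟩ := cnd_true h4
    obtain ⟨h7, h8⟩ := mul_ne h1
    obtain ⟨h9, h10⟩ := mul_ne h7
    obtain ⟨h11, h12⟩ := mul_ne h8
    have e1 : cl w v0 v2 = cl w v0 v3 := Nat.eq_of_beq_eq_true h3
    have e2 : cl w v1 v2 = cl w v1 v3 := Nat.eq_of_beq_eq_true h5
    obtain ⟨l0, l1, n1⟩ := h.lt (by assumption) (by assumption) h11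
    obtain ⟨l2, l3, n2⟩ := h.lt (by assumption) (by assumption) h12
    refine ⟨_, _, _, h6, ok_kite h.hb (h.val (by assumption) (by assumption) l0 l1 (Or.inl h11))
        (h.val (by assumption) (by assumption) l0 l2 (Or.inl h9))
      (h.val (by assumption) (by assumption) l1 l2 (Or.inl h10)) (h.val (by assumption)
          (by assumption) l2 l3 (Or.inl h12)) ?_ hk⟩
    exact h.hG.kite _ _ _ _ (by simpa using n1) (by simpa using n2) (h.eq (by assumption)
        (by assumption) (by assumption) (by assumption) l0 l2 l0 l3 h9 e1)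
      (h.eq (by assumption) (by assumption) (by assumption) (by assumption) l1 l2 l1 l3 h10 e2)
  · obtain ⟨h1, h2⟩ := isZ_true ho
    obtain ⟨h3, h4⟩ := cnd_true h2
    obtain ⟨h5, h6⟩ := cnd_true h4
    obtain ⟨h7, h8⟩ := mul_ne h1
    obtain ⟨h9, h10⟩ := mul_ne h7
    obtain ⟨h11, h12⟩ := mul_ne h8
    have e1 : cl w v0 v2 = cl w v1 v3 := Nat.eq_of_beq_eq_true h3
    have e2 : cl w v0 v3 = cl w v1 v2 := Nat.eq_of_beq_eq_true h5
    obtain ⟨l0, l1, n1⟩ := h.lt (by assumption) (by assumption) h11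
    obtain ⟨l2, l3, n2⟩ := h.lt (by assumption) (by assumption) h12
    obtain ⟨_, _, n3⟩ := h.lt (by assumption) (by assumption) h9
    obtain ⟨_, _, n4⟩ := h.lt (by assumption) (by assumption) h10
    obtain ⟨_, _, n5⟩ := h.lt (by assumption) (by assumption) (e1 ▸ h9)
    obtain ⟨_, _, n6⟩ := h.lt (by assumption) (by assumption) (e2 ▸ h10)
    refine ⟨_, _, _, h6, ok_para h.hb (h.val (by assumption) (by assumption) l0 l1 (Or.inl h11))
        (h.val (by assumption) (by assumption) l2 l3 (Or.inl h12))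
      (h.val (by assumption) (by assumption) l0 l2 (Or.inl h9)) (h.val (by assumption)
          (by assumption) l0 l3 (Or.inl h10)) ?_ hk hl⟩
    exact h.hG.para _ _ _ _ (by simpa using n1) (by simpa using n3) (by simpa using n4)
      (by simpa using n6) (by simpa using n5) (by simpa using n2) (h.eq (by assumption)
          (by assumption) (by assumption) (by assumption) l0 l2 l1 l3 h9 e1)
      (h.eq (by assumption) (by assumption) (by assumption) (by assumption) l0 l3 l1 l2 h10 e2)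
  · obtain ⟨h1, h2⟩ := isZ_true ho
    obtain ⟨h3, h4⟩ := cnd_true h2
    obtain ⟨h5, h6⟩ := cnd_true h4
    obtain ⟨h7, h8⟩ := mul_ne h1
    obtain ⟨h9, h10⟩ := mul_ne h7
    obtain ⟨h11, h12⟩ := mul_ne h8
    obtain ⟨h13, h14⟩ := isZ_true h6
    obtain ⟨h15, h16⟩ := mul_ne h13
    obtain ⟨h17, h18⟩ := mul_ne h15
    obtain ⟨h19, h20⟩ := mul_ne h16
    have e1 : cl w v0 v2 = cl w v1 v3 := Nat.eq_of_beq_eq_true h3
    have e2 : cl w v0 v3 = cl w v1 v2 := Nat.eq_of_beq_eq_true h5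
    obtain ⟨l0, l1, n1⟩ := h.lt (by assumption) (by assumption) h11
    obtain ⟨l2, l3, n2⟩ := h.lt (by assumption) (by assumption) h12
    obtain ⟨_, _, n3⟩ := h.lt (by assumption) (by assumption) h9
    obtain ⟨_, _, n4⟩ := h.lt (by assumption) (by assumption) h10
    obtain ⟨_, _, n5⟩ := h.lt (by assumption) (by assumption) (e1 ▸ h9)
    obtain ⟨_, _, n6⟩ := h.lt (by assumption) (by assumption) (e2 ▸ h10)
    obtain ⟨l4, _, _⟩ := h.lt (by assumption) (by assumption) h17
    refine ⟨_, _, _, h14, ok_paraP h.hb (h.val (by assumption) (by assumption) l4 l0 (Or.inl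
        h17)) (h.val (by assumption) (by assumption) l4 l1 (Or.inl h18))
      (h.val (by assumption) (by assumption) l4 l2 (Or.inl h19)) (h.val (by assumption)
          (by assumption) l4 l3 (Or.inl h20)) (h.val (by assumption) (by assumption) l2 l3
              (Or.inl h12))
      (h.val (by assumption) (by assumption) l0 l1 (Or.inl h11)) ?_ hk hl⟩
    exact h.hG.paraP _ _ _ _ _ (by simpa using n1) (by simpa using n3) (by simpa using n4)
      (by simpa using n6) (by simpa using n5) (by simpa using n2) (h.eq (by assumption)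
          (by assumption) (by assumption) (by assumption) l0 l2 l1 l3 h9 e1)
      (h.eq (by assumption) (by assumption) (by assumption) (by assumption) l0 l3 l1 l2 h10 e2)
  · obtain ⟨h1, h2⟩ := cnd_true ho
    obtain ⟨h3, h4⟩ := isZ_true h1
    obtain ⟨h5, h6⟩ := mul_ne h3
    obtain ⟨h7, h8⟩ := mul_ne h5
    obtain ⟨a1, a2⟩ := mul_ne h7
    obtain ⟨a3, a4⟩ := mul_ne h8
    obtain ⟨a5, a6⟩ := mul_ne h6
    obtain ⟨c1, h4⟩ := cnd_true h4
    obtain ⟨c2, h4⟩ := cnd_true h4
    obtain ⟨c3, h4⟩ := cnd_true h4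
    obtain ⟨c4, h4⟩ := cnd_true h4
    obtain ⟨c5, h4⟩ := cnd_true h4
    obtain ⟨c6, h4⟩ := cnd_true h4
    obtain ⟨c7, h4⟩ := cnd_true h4
    obtain ⟨c8, c9⟩ := cnd_true h4
    obtain ⟨l0, l1, _⟩ := h.lt (by assumption) (by assumption) a1
    obtain ⟨_, l2, _⟩ := h.lt (by assumption) (by assumption) a2
    obtain ⟨_, l3, _⟩ := h.lt (by assumption) (by assumption) a3
    obtain ⟨_, l4, _⟩ := h.lt (by assumption) (by assumption) a4
    obtain ⟨_, l5, _⟩ := h.lt (by assumption) (by assumption) a5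
    obtain ⟨_, l6, _⟩ := h.lt (by assumption) (by assumption) a6
    refine ⟨_, _, _, h2, ok_minor h.hb
      (x := ![xcode b w v0 v1, xcode b w v0 v2, xcode b w v0 v3])
      (y' := ![xcode b w v0 v4, xcode b w v0 v5, xcode b w v0 v6])
      (z := ![![xcode b w v1 v4, xcode b w v1 v5, xcode b w v1 v6],
        ![xcode b w v2 v4, xcode b w v2 v5, xcode b w v2 v6],
        ![xcode b w v3 v4, xcode b w v3 v5, xcode b w v3 v6]])
      (Px := ![lin (cl w v0 v1), lin (cl w v0 v2), lin (cl w v0 v3)])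
      (Py := ![lin (cl w v0 v4), lin (cl w v0 v5), lin (cl w v0 v6)])
      (Pz := ![![lin (cl w v1 v4), lin (cl w v1 v5), lin (cl w v1 v6)],
        ![lin (cl w v2 v4), lin (cl w v2 v5), lin (cl w v2 v6)],
        ![lin (cl w v3 v4), lin (cl w v3 v5), lin (cl w v3 v6)]])
      (vx := ![D ⟨v0, l0⟩ ⟨v1, l1⟩, D ⟨v0, l0⟩ ⟨v2, l2⟩, D ⟨v0, l0⟩ ⟨v3, l3⟩])
      (vy := ![D ⟨v0, l0⟩ ⟨v4, l4⟩, D ⟨v0, l0⟩ ⟨v5, l5⟩, D ⟨v0, l0⟩ ⟨v6, l6⟩])
      (vz := ![![D ⟨v1, l1⟩ ⟨v4, l4⟩, D ⟨v1, l1⟩ ⟨v5, l5⟩, D ⟨v1, l1⟩ ⟨v6, l6⟩],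
        ![D ⟨v2, l2⟩ ⟨v4, l4⟩, D ⟨v2, l2⟩ ⟨v5, l5⟩, D ⟨v2, l2⟩ ⟨v6, l6⟩],
        ![D ⟨v3, l3⟩ ⟨v4, l4⟩, D ⟨v3, l3⟩ ⟨v5, l5⟩, D ⟨v3, l3⟩ ⟨v6, l6⟩]]) ?_ ?_ ?_ ?_⟩
    · intro i
      fin_cases i
      · exact h.val (by assumption) (by assumption) l0 l1 (Or.inl a1)
      · exact h.val (by assumption) (by assumption) l0 l2 (Or.inl a2)
      · exact h.val (by assumption) (by assumption) l0 l3 (Or.inl a3)
    · intro i
      fin_cases i
      · exact h.val (by assumption) (by assumption) l0 l4 (Or.inl a4)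
      · exact h.val (by assumption) (by assumption) l0 l5 (Or.inl a5)
      · exact h.val (by assumption) (by assumption) l0 l6 (Or.inl a6)
    · intro i j
      fin_cases i <;> fin_cases j
      · exact h.val (by assumption) (by assumption) l1 l4 (okp_or c1)
      · exact h.val (by assumption) (by assumption) l1 l5 (okp_or c2)
      · exact h.val (by assumption) (by assumption) l1 l6 (okp_or c3)
      · exact h.val (by assumption) (by assumption) l2 l4 (okp_or c4)
      · exact h.val (by assumption) (by assumption) l2 l5 (okp_or c5)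
      · exact h.val (by assumption) (by assumption) l2 l6 (okp_or c6)
      · exact h.val (by assumption) (by assumption) l3 l4 (okp_or c7)
      · exact h.val (by assumption) (by assumption) l3 l5 (okp_or c8)
      · exact h.val (by assumption) (by assumption) l3 l6 (okp_or c9)
    · have := h.hG.minor ⟨v0, l0⟩ ![⟨v1, l1⟩, ⟨v2, l2⟩, ⟨v3, l3⟩] ![⟨v4, l4⟩, ⟨v5, l5⟩, ⟨v6, l6⟩]
      rw [← this]
      rfl

end

theorem topMaskN_eq {b : ℕ} (hb : 1 ≤ b) (n : ℕ) :
    topMaskN b n = 2 ^ (b - 1) * ∑ j ∈ Finset.range n, (2 ^ b) ^ j := by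
  induction n with
  | zero => simp [topMaskN]
  | succ n ih =>
    unfold topMaskN
    rw [ih, Finset.sum_range_succ, mul_add, ← pow_mul, ← pow_add, add_comm (b - 1), add_comm]

theorem topm_eq {b : ℕ} (hb : 1 ≤ b) : topm7 b = topMask b := by
  have h : topm7 b = 2 ^ (b - 1) * ((2 ^ (247 * b) - 1) / (2 ^ b - 1)) := rfl
  have h2 : 2 ≤ 2 ^ b := by
    calc 2 = 2 ^ 1 := rfl
      _ ≤ 2 ^ b := Nat.pow_le_pow_right (by norm_num) hb
  unfold topMask
  rw [h, topMaskN_eq hb, Nat.geomSum_eq h2, ← pow_mul, mul_comm b 247]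

theorem lpFin_sound {b u e nx st acc : ℕ} (hbu : b = u + 18 + e) (he : nx ^ 3 ≤ 2 ^ e)
    {y : Fin 7 → ℝ} (hy : ∀ i, 0 < y i) {P : MvPolynomial (Fin 7) ℤ}
    (h : lpFin7 b st acc = true) (hc : Cv (modN b) acc (kap b P))
    (hn : Nb P 3 (2 ^ u * (nx ^ 3 * (162 * 510)))) (h0 : aeval y P ≤ 0)
    (h1 : st ≠ 0 → aeval y P < 0) : False := by
  have hb : 1 ≤ b := by omega
  have hnorm : norm1 P < 2 ^ (b - 1) := by
    refine lt_of_le_of_lt hn.2 ?_
    have e1 : b - 1 = u + (17 + e) := by omega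
    rw [e1, pow_add, pow_add]
    refine Nat.mul_lt_mul_of_pos_left ?_ (by positivity)
    have e2 : 0 < 2 ^ e := by positivity
    omega
  have hcv : ((acc &&& (modN b - 1) : ℕ) : ZMod (modN b)) = kap b P := (and_cast b acc).trans hc
  unfold lpFin7 at h
  by_cases ht : Nat.land acc (topm7 b) = 0
  · have ht' : (acc &&& (modN b - 1)) &&& topMask b = 0 := by
      have e3 : acc &&& topMask b = 0 := by
        rw [← topm_eq hb]
        exact ht
      rw [Nat.and_assoc, Nat.and_comm (modN b - 1), ← Nat.and_assoc, e3, Nat.zero_and]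
    have hpos := aeval_nonneg_of_kap hb hn.1 hnorm (and_lt b acc) hcv ht' y (fun i => (hy i).le)
    rw [ht] at h
    change isZ st (isZ (Nat.land acc (Nat.sub (Nat.pow 2 (Nat.mul 247 b)) 1)) false true) true
      = true at h
    by_cases hst : st = 0
    · rw [hst] at h
      obtain ⟨h2, _⟩ := isZ_true (a := true) h
      have := aeval_pos_of_kap hb hn.1 hnorm (and_lt b acc) hcv ht' h2 y hy
      linarith
    · have := h1 hst
      linarith
  · obtain ⟨m, hm⟩ := Nat.exists_eq_succ_of_ne_zero ht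
    rw [hm] at h
    exact absurd h (by simp [isZ])

theorem nu_le (u x : ℕ) : 1 + Nat.land x (2 ^ u - 1) ≤ 2 ^ u := by
  have h : Nat.land x (2 ^ u - 1) = x &&& (2 ^ u - 1) := rfl
  rw [h, Nat.and_two_pow_sub_one_eq_mod]
  have := Nat.mod_lt x (show 0 < 2 ^ u by positivity)
  omega

theorem Nb.smul {P : MvPolynomial (Fin 7) ℤ} {d B ν V : ℕ} (h : Nb P d B) (hν : ν ≤ V) :
    Nb (C (ν : ℤ) * P) d (V * B) := by
  have := (Nb.const (ν : ℤ)).mul h
  rw [zero_add, Int.natAbs_natCast] at this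
  exact this.mono (Nat.mul_le_mul_right _ hν)

section

variable {b nx n w : ℕ} {X : ℕ → ℝ} {y : Fin 7 → ℝ} {D : Fin n → Fin n → ℝ}

theorem othLoop_sound (h : Dat b nx n w X y D) {u e st : ℕ} (hbu : b = u + 18 + e)
    (he : nx ^ 3 ≤ 2 ^ e) (m : ℕ) : ∀ (data acc j : ℕ) (P : MvPolynomial (Fin 7) ℤ),
    othLoop7 b u (2 ^ u - 1) (modN b) (modN b - 1) (2 ^ (494 * b)) (xtab7 b) (83 * b) (mw b) w st
      m data acc = true → j + m ≤ 510 → Cv (modN b) acc (kap b P) →
      Nb P 3 (2 ^ u * (nx ^ 3 * (162 * j))) → aeval y P ≤ 0 →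
      (st ≠ 0 → aeval y P < 0) → False := by
  induction m with
  | zero =>
    intro data acc j P ho hj hc hn h0 h1
    refine lpFin_sound hbu he h.hf.1 ho hc (hn.mono ?_) h0 h1
    exact Nat.mul_le_mul_left _ (Nat.mul_le_mul_left _ (by omega))
  | succ m ih =>
    intro data acc j P ho hj hc hn h0 h1
    have hk : ∀ x : ℕ, kwn7 b (Nat.land x 7) = b * kw (idx (Nat.land x 7)) :=
      fun x => kwn_eq b Nat.and_le_right
    have ho3 : othV (Nat.land data 3) (modN b) (modN b - 1) (2 ^ (494 * b)) (xtab7 b) (83 * b)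
        (mw b) w
        (kwn7 b (Nat.land (Nat.shiftRight data 3) 7)) (kwn7 b (Nat.land (Nat.shiftRight data 6) 7))
        (Nat.land (Nat.shiftRight data 9) 15)
        (Nat.land (Nat.shiftRight data 13) 15) (Nat.land (Nat.shiftRight data 17) 15)
        (Nat.land (Nat.shiftRight data 21) 15) (Nat.land (Nat.shiftRight data 25) 15)
        (Nat.land (Nat.shiftRight data 29) 15) (Nat.land (Nat.shiftRight data 33) 15)
        (fun p q s => othLoop7 b u (2 ^ u - 1) (modN b) (modN b - 1) (2 ^ (494 * b)) (xtab7 b)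
          (83 * b) (mw b) w st m (Nat.shiftRight data (Nat.add 37 u)) (Nat.add acc
          (Nat.shiftLeft (Nat.mul (Nat.add 1 (Nat.land (Nat.shiftRight data 37) (2 ^ u - 1)))
            (isZn (Nat.land (Nat.shiftRight data 2) 1)
              (Nat.add p (Nat.sub (Nat.mul 4 (2 ^ (494 * b))) q))
              (Nat.add q (Nat.sub (Nat.mul 4 (2 ^ (494 * b))) p)))) s))) = true := ho
    obtain ⟨p, q, s, hκ, hOk⟩ := othV_spec h (hk (Nat.shiftRight data 3))
      (hk (Nat.shiftRight data 6)) (l16 _) (l16 _) (l16 _) (l16 _) (l16 _) (l16 _) (l16 _) ho3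
    obtain ⟨Q, hQ1, hQ2, hQ3⟩ := hOk.ex
    have hN2 : ((2 ^ (494 * b) : ℕ) : ZMod (modN b)) = 0 := (ev_b b).zero
    -- the two signs
    have key : ∀ (ν : ℕ) (hνle : ν ≤ 2 ^ u) (p q : ℕ) (Q : MvPolynomial (Fin 7) ℤ),
        q ≤ 4 * 2 ^ (494 * b) →
        ((p : ZMod (modN b)) - q) * 2 ^ s = kap b Q → Nb Q 3 (162 * nx ^ 3) → aeval y Q = 0 →
        othLoop7 b u (2 ^ u - 1) (modN b) (modN b - 1) (2 ^ (494 * b)) (xtab7 b) (83 * b) (mw b) w
          st m (Nat.shiftRight data (Nat.add 37 u)) (Nat.add acc (Nat.shiftLeft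
          (Nat.mul ν (Nat.add p (Nat.sub (Nat.mul 4 (2 ^ (494 * b))) q))) s)) = true → False := by
      intro ν hνle p q Q hq hQ1 hQ2 hQ3 ho'
      refine ih _ _ (j + 1) (P + C (ν : ℤ) * Q) ho' (by omega) ?_ ?_ ?_ ?_
      · have e1 : (acc : ZMod (modN b)) = kap b P := hc
        have e2 : Nat.shiftLeft (Nat.mul ν (Nat.add p (Nat.sub (Nat.mul 4 (2 ^ (494 * b))) q))) s
            = ν * (p + (4 * 2 ^ (494 * b) - q)) * 2 ^ s := Nat.shiftLeft_eq _ _
        unfold Cv
        rw [e2, Nat.add_eq, Nat.cast_add, e1, map_add, map_mul, kap_C, ← hQ1, Nat.cast_mul,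
          Nat.cast_mul, Nat.cast_add, Nat.cast_sub hq, Nat.cast_mul, hN2]
        push_cast
        ring
      · refine Nb.mono (hn.add (hQ2.smul hνle)) (le_of_eq ?_)
        ring
      · rw [map_add, map_mul, hQ3, mul_zero, add_zero]
        exact h0
      · intro hst
        rw [map_add, map_mul, hQ3, mul_zero, add_zero]
        exact h1 hst
    have ho2 : othLoop7 b u (2 ^ u - 1) (modN b) (modN b - 1) (2 ^ (494 * b)) (xtab7 b) (83 * b)
        (mw b) w st m (Nat.shiftRight data (Nat.add 37 u)) (Nat.add acc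
        (Nat.shiftLeft (Nat.mul (Nat.add 1 (Nat.land (Nat.shiftRight data 37) (2 ^ u - 1)))
            (isZn (Nat.land (Nat.shiftRight data 2) 1)
              (Nat.add p (Nat.sub (Nat.mul 4 (2 ^ (494 * b))) q))
              (Nat.add q (Nat.sub (Nat.mul 4 (2 ^ (494 * b))) p)))) s)) = true := hκ
    rcases Nat.eq_zero_or_pos (Nat.land (Nat.shiftRight data 2) 1) with hb0 | hb0
    · rw [hb0] at ho2
      exact key _ (nu_le u _) p q Q hOk.hq hQ1 hQ2 hQ3 ho2
    · obtain ⟨m', hm'⟩ := Nat.exists_eq_succ_of_ne_zero hb0.ne'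
      rw [hm'] at ho2
      refine key _ (nu_le u _) q p (-Q) hOk.hp ?_ ⟨hQ2.1.neg, ?_⟩ ?_ ho2
      · rw [map_neg, ← hQ1]
        ring
      · rw [norm1_neg]
        exact hQ2.2
      · rw [map_neg, hQ3, neg_zero]

theorem triLoop_sound (h : Dat b nx n w X y D) {u e st no : ℕ} (hbu : b = u + 18 + e)
    (he : nx ^ 3 ≤ 2 ^ e) (m : ℕ) : ∀ (data acc j : ℕ) (P : MvPolynomial (Fin 7) ℤ),
    triLoop7 b u (2 ^ u - 1) (modN b) (modN b - 1) (2 ^ (494 * b)) (xtab7 b) (83 * b) (mw b) w st no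
      m data acc = true → j + m + no ≤ 510 → Cv (modN b) acc (kap b P) →
      Nb P 3 (2 ^ u * (nx ^ 3 * (162 * j))) → aeval y P ≤ 0 →
      (st ≠ 0 → m ≠ 0 ∨ aeval y P < 0) → False := by
  induction m with
  | zero =>
    intro data acc j P ho hj hc hn h0 h1
    exact othLoop_sound h hbu he no data acc j P ho (by omega) hc hn h0
      (fun hst => (h1 hst).resolve_left (fun h => h rfl))
  | succ m ih =>
    intro data acc j P ho hj hc hn h0 h1
    obtain ⟨h2, h3⟩ := isZ_true ho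
    obtain ⟨h4, h5⟩ := mul_ne h2
    obtain ⟨h6, h7⟩ := mul_ne h4
    set i := Nat.land data 15 with hi
    set j' := Nat.land (Nat.shiftRight data 4) 15 with hj'
    set k := Nat.land (Nat.shiftRight data 8) 15 with hk
    have ui : i < 16 := l16 _
    have uj : j' < 16 := l16 _
    have uk : k < 16 := l16 _
    obtain ⟨li, lj, nij⟩ := h.lt (by assumption) (by assumption) h6
    obtain ⟨_, lk, nik⟩ := h.lt (by assumption) (by assumption) h7
    obtain ⟨_, _, njk⟩ := h.lt (by assumption) (by assumption) h5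
    have Vp := h.val (by assumption) (by assumption) li lj (Or.inl h6)
    have Vq := h.val (by assumption) (by assumption) li lk (Or.inl h7)
    have Vr := h.val (by assumption) (by assumption) lj lk (Or.inl h5)
    have htri := h.hG.tri_pos ⟨i, li⟩ ⟨j', lj⟩ ⟨k, lk⟩ (by simpa using nij) (by simpa using nik)
      (by simpa using njk)
    set x := idx (Nat.land (Nat.shiftRight data 12) 7) with hx
    have hkx : kwn7 b (Nat.land (Nat.shiftRight data 12) 7) = b * kw x :=
      kwn_eq b Nat.and_le_right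
    set ν := 1 + Nat.land (Nat.shiftRight data 15) (2 ^ u - 1) with hν
    have hνle : ν ≤ 2 ^ u := nu_le u _
    have hν1 : 0 < ν := by omega
    have hN2 : ((2 ^ (494 * b) : ℕ) : ZMod (modN b)) = 0 := (ev_b b).zero
    set p := xcode b w i j' with hp
    set q := xcode b w i k with hq
    set r := xcode b w j' k with hr
    set P1 := lin (cl w i j') with hP1
    set P2 := lin (cl w i k) with hP2
    set P3 := lin (cl w j' k) with hP3
    set T := tri P1 P2 P3 * MvPolynomial.X x with hT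
    have hTev : 0 < aeval y T := by
      rw [hT, map_mul, aeval_X]
      refine mul_pos ?_ (h.hf.1 x)
      have e1 : aeval y (tri P1 P2 P3) = tri (D ⟨i, li⟩ ⟨j', lj⟩) (D ⟨i, li⟩ ⟨k, lk⟩)
          (D ⟨j', lj⟩ ⟨k, lk⟩) := by
        unfold tri
        simp only [map_mul, map_sub, map_add, map_pow, map_ofNat, Vp.ev, Vq.ev, Vr.ev]
      rw [e1]
      exact htri
    have hTnb : Nb T 3 (162 * nx ^ 3) := by
      have e1 : T = (2 * (P1 * P2 + P2 * P3 + P3 * P1) - P1 * P1 - P2 * P2 - P3 * P3)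
          * MvPolynomial.X x := by
        rw [hT]
        unfold tri
        ring
      rw [e1]
      refine Nb.mono (Nb.mul ((((((Vp.nb.mul Vq.nb).add (Vq.nb.mul Vr.nb)).add
        (Vr.nb.mul Vp.nb)).two_mul.sub (Vp.nb.mul Vp.nb)).sub (Vq.nb.mul Vq.nb)).sub
        (Vr.nb.mul Vr.nb)) (Nb.var x)) ?_
      have := pow_le23 nx
      have e2 : (2 * (nx * nx + nx * nx + nx * nx) + nx * nx + nx * nx + nx * nx) * 1
          = 9 * nx ^ 2 := by ring
      rw [e2]
      omega
    have ho2 : triLoop7 b u (2 ^ u - 1) (modN b) (modN b - 1) (2 ^ (494 * b)) (xtab7 b) (83 * b)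
        (mw b) w st no m (Nat.shiftRight data (Nat.add 15 u)) (Nat.add acc
          (Nat.shiftLeft (Nat.mul ν
            (Nat.add (Nat.add (Nat.add (Nat.mul p p) (Nat.mul q q)) (Nat.mul r r))
              (Nat.sub (2 ^ (494 * b)) (Nat.mul 2 (Nat.add (Nat.mul p (Nat.add q r)) (Nat.mul q r))))))
            (kwn7 b (Nat.land (Nat.shiftRight data 12) 7)))) = true := h3
    clear_value ν
    refine ih _ _ (j + 1) (P - C (ν : ℤ) * T) ho2 (by omega) ?_ ?_ ?_ ?_
    · have e1 : (acc : ZMod (modN b)) = kap b P := hc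
      have c1 : (p : ZMod (modN b)) = kap b P1 := Vp.cv
      have c2 : (q : ZMod (modN b)) = kap b P2 := Vq.cv
      have c3 : (r : ZMod (modN b)) = kap b P3 := Vr.cv
      have hle : 2 * (p * (q + r) + q * r) ≤ 2 ^ (494 * b) := by
        have hB := big h.hb
        have l1 : p < 2 ^ (83 * b) := Vp.lt
        have l2 : q < 2 ^ (83 * b) := Vq.lt
        have l3 : r < 2 ^ (83 * b) := Vr.lt
        generalize 2 ^ (83 * b) = T' at *
        have m1 : p * q ≤ T' * T' := Nat.mul_le_mul l1.le l2.le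
        have m2 : p * r ≤ T' * T' := Nat.mul_le_mul l1.le l3.le
        have m3 : q * r ≤ T' * T' := Nat.mul_le_mul l2.le l3.le
        rw [mul_add p]
        omega
      have e2 : Nat.shiftLeft (Nat.mul ν
            (Nat.add (Nat.add (Nat.add (Nat.mul p p) (Nat.mul q q)) (Nat.mul r r))
              (Nat.sub (2 ^ (494 * b)) (Nat.mul 2 (Nat.add (Nat.mul p (Nat.add q r)) (Nat.mul q r))))))
            (kwn7 b (Nat.land (Nat.shiftRight data 12) 7))
          = ν * (p * p + q * q + r * r + (2 ^ (494 * b) - 2 * (p * (q + r) + q * r)))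
            * 2 ^ (kwn7 b (Nat.land (Nat.shiftRight data 12) 7)) := Nat.shiftLeft_eq _ _
      unfold Cv
      rw [e2, Nat.add_eq, Nat.cast_add, e1, map_sub, map_mul, kap_C, Nat.cast_mul,
          Nat.cast_mul, Nat.cast_add, Nat.cast_sub hle, hN2, hT, map_mul, Nat.cast_pow]
      have e3 := kap_sum hkx
      rw [Nat.cast_ofNat, e3]
      push_cast
      rw [c1, c2, c3]
      unfold tri
      simp only [map_mul, map_sub, map_add, map_pow, kap_two]
      ring
    · refine Nb.mono (hn.sub (hTnb.smul hνle)) (le_of_eq ?_)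
      ring
    · rw [map_sub, map_mul, aeval_C]
      have hν0 : (0 : ℝ) < (algebraMap ℤ ℝ) (ν : ℤ) := by
        simp only [algebraMap_int_eq, Int.coe_castRingHom]
        exact_mod_cast hν1
      have := mul_pos hν0 hTev
      linarith
    · intro _
      right
      rw [map_sub, map_mul, aeval_C]
      have hν0 : (0 : ℝ) < (algebraMap ℤ ℝ) (ν : ℤ) := by
        simp only [algebraMap_int_eq, Int.coe_castRingHom]
        exact_mod_cast hν1
      have := mul_pos hν0 hTev
      linarith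

end

/-- the certificate check with parameters -/
noncomputable def ls7g (b u mu w p : Nat) : Bool :=
  triLoop7 b u mu (Nat.pow 2 (Nat.mul 247 b)) (Nat.sub (Nat.pow 2 (Nat.mul 247 b)) 1)
    (Nat.pow 2 (Nat.mul 494 b)) (xtab7 b) (Nat.mul 83 b)
    (Nat.sub (Nat.pow 2 (Nat.mul 83 b)) 1) w
    (Nat.land p 255) (Nat.land (Nat.shiftRight p 8) 255) (Nat.land p 255) (Nat.shiftRight p 16) 0

theorem ls7g_sound {b u w p n : ℕ} {X : ℕ → ℝ} (hb : b = u + 18)
    (h : ls7g b u (2 ^ u - 1) w p = true)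
    (hX : ∀ c, 1 ≤ c → c ≤ 7 → 0 < X c) (hc : Cf n w X) : False := by
  obtain ⟨D, hG, hD⟩ := hc
  have hdat : Dat b 1 n w X (fun a => X (a + 1)) D :=
    ⟨by omega, le_rfl, ⟨fun a => hX _ (by omega) (by omega), fun d hd => rfl⟩, hG, hD⟩
  have h1 : Nat.land p 255 ≤ 255 := Nat.and_le_right
  have h2 : Nat.land (Nat.shiftRight p 8) 255 ≤ 255 := Nat.and_le_right
  refine triLoop_sound hdat (u := u) (e := 0) (st := Nat.land p 255)
    (no := Nat.land (Nat.shiftRight p 8) 255) (by omega) (by norm_num)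
    (Nat.land p 255) (Nat.shiftRight p 16) 0 0 0 h (by omega) ?_ ?_ ?_ (fun hst => Or.inl hst)
  · show ((0 : ℕ) : ZMod (modN b)) = kap b 0
    rw [map_zero, Nat.cast_zero]
  · exact Nb.zero _ _
  · rw [map_zero]

end S7

/-- there are `n` points in general position whose squared distances are `X` of the codes in `w`,
seven codes -/
def Cf7 (n w : ℕ) (X : ℕ → ℝ) : Prop :=
  ∃ D : Fin n → Fin n → ℝ, Geo D ∧ ∀ i j : ℕ, i < 16 → j < 16 → cl w i j ≠ 0 → cl w i j ≤ 7 ∧
    ∃ (hi : i < n) (hj : j < n), i ≠ j ∧ D ⟨i, hi⟩ ⟨j, hj⟩ = X (cl w i j)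

theorem ls7_eq (w p : ℕ) : ls7 w p = S7.ls7g 42 24 16777215 w p := by
  unfold ls7 S7.ls7g
  generalize Nat.pow 2 (Nat.mul 247 42) = N1
  generalize Nat.pow 2 (Nat.mul 494 42) = N2
  generalize Nat.pow 2 (Nat.mul 83 42) = N3
  rfl

/-- the certificates in seven variables -/
theorem ls7_sound {w p n : ℕ} {X : ℕ → ℝ} (h : ls7 w p = true)
    (hX : ∀ c, 1 ≤ c → c ≤ 7 → 0 < X c) (hc : Cf7 n w X) : False := by
  have h2 : (16777215 : ℕ) = 2 ^ 24 - 1 := by norm_num
  rw [ls7_eq, h2] at h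
  exact S7.ls7g_sound (by norm_num) h hX hc

end Pool.Agent.Lib.EPS9
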