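import Pool.Agent.Lib.MP_c7e7f6_eps.ExtTab
import Pool.Agent.Lib.MP_c7e7f6_eps.ExtDefs
import Pool.Agent.Lib.MP_c7e7f6_eps.S7Loops

/-!
Extension of the colourings of six points: entries of the table of the colourings of five points.
-/

set_option autoImplicit false
set_option linter.unusedVariables false

namespace Pool.Agent.Lib.EPS9

open Finset

theorem Pc.sy {ι : Type} {D : ι → ι → ℝ} {x : Fin 6 → ℝ} {c : ι → ι → ℕ} (h : Pc D x c) : Sy c :=
  ⟨h.symm, h.self, h.le⟩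

/-! ### Permutations -/

/-- the permutation number `p` -/
structure PW (p : ℕ) (τ : ℕ → ℕ) : Prop where
  lt : ∀ a, a < 6 → τ a < 6
  inj : ∀ a b, a < 6 → b < 6 → τ a = τ b → a = b
  sur : ∀ b, b < 6 → ∃ a, a < 6 ∧ τ a = b
  pos : ∀ t, t < 15 → fld9 (pw p) t = 3 * (16 * τ (ei t) + τ (ej t))

theorem pw_PW {p : ℕ} (hp : p < 720) : ∃ τ, PW p τ := by
  obtain ⟨σ, hσ⟩ := pw_perm hp
  refine ⟨fun a => (σ ⟨a % 6, Nat.mod_lt _ (by norm_num)⟩ : ℕ), ?_, ?_, ?_, ?_⟩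
  · intro a ha
    exact Fin.is_lt _
  · intro a b ha hb h
    have h1 := σ.injective (Fin.ext h)
    have h2 := congrArg (fun t : Fin 6 => (t : ℕ)) h1
    simp only at h2
    omega
  · intro b hb
    refine ⟨σ.symm ⟨b, hb⟩, Fin.is_lt _, ?_⟩
    have h1 : (⟨(σ.symm ⟨b, hb⟩ : ℕ) % 6, Nat.mod_lt _ (by norm_num)⟩ : Fin 6)
        = σ.symm ⟨b, hb⟩ := Fin.ext (Nat.mod_eq_of_lt (Fin.is_lt _))
    show (σ ⟨(σ.symm ⟨b, hb⟩ : ℕ) % 6, _⟩ : ℕ) = b
    rw [h1, Equiv.apply_symm_apply]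
  · intro t ht
    obtain ⟨h1, h2⟩ := ei_lt ht
    exact hσ t ht ⟨ei t % 6, Nat.mod_lt _ (by norm_num)⟩ ⟨ej t % 6, Nat.mod_lt _ (by norm_num)⟩
      (Nat.mod_eq_of_lt (by omega)) (Nat.mod_eq_of_lt (by omega))

theorem eij (t : ℕ) (ht : t < 5) : ei (10 + t) = t ∧ ej (10 + t) = 5 := by
  interval_cases t <;> decide

theorem fld9_shr90 (q t : ℕ) : fld9 (Nat.shiftRight q 90) t = fld9 q (10 + t) :=
  fld9_shr' q 10 t

theorem PW.last {p : ℕ} {τ : ℕ → ℕ} (h : PW p τ) :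
    Nat.land (Nat.shiftRight (pw p) 90) 15 = 3 * τ 5 := by
  have h1 : Nat.land (Nat.shiftRight (pw p) 90) 15
      = (Nat.shiftRight (pw p) 90) &&& (2 ^ 4 - 1) := rfl
  have h2 := fld9_shr90 (pw p) 0
  have h3 := h.pos 10 (by norm_num)
  obtain ⟨e1, e2⟩ := eij 0 (by norm_num)
  rw [show (10 : ℕ) + 0 = 10 by norm_num] at h2 e1 e2
  rw [e1, e2] at h3
  rw [h3] at h2
  unfold fld9 at h2
  rw [pow_zero, Nat.div_one] at h2
  rw [h1, Nat.and_two_pow_sub_one_eq_mod]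
  have h4 := h.lt 5 (by norm_num)
  have h5 := h.lt 0 (by norm_num)
  omega

theorem vec_pos {p : ℕ} {τ : ℕ → ℕ} (h : PW p τ) {t : ℕ} (ht : t < 5) :
    Nat.shiftRight (Nat.land (Nat.shiftRight (Nat.shiftRight (pw p) 90) (9 * t)) 511) 4
      = 3 * τ t := by
  have h1 : Nat.land (Nat.shiftRight (Nat.shiftRight (pw p) 90) (9 * t)) 511
      = (Nat.shiftRight (Nat.shiftRight (pw p) 90) (9 * t)) &&& (2 ^ 9 - 1) := rfl
  have h2 : Nat.land (Nat.shiftRight (Nat.shiftRight (pw p) 90) (9 * t)) 511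
      = fld9 (pw p) (10 + t) := by
    rw [h1, Nat.and_two_pow_sub_one_eq_mod, ← fld9_shr90]
    unfold fld9
    rw [shr _ (9 * t), pow_mul]
    norm_num
  have h3 := h.pos (10 + t) (by omega)
  obtain ⟨e1, e2⟩ := eij t ht
  rw [e1, e2] at h3
  rw [h2, h3, shr]
  have h4 := h.lt 5 (by norm_num)
  have h5 := h.lt t (by omega)
  omega

theorem vecOf_eq {p : ℕ} {τ : ℕ → ℕ} (h : PW p τ) (o : ℕ) :
    vecOf o (Nat.shiftRight (pw p) 90) = ∑ t ∈ range 5, fld o t * 8 ^ τ t := by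
  have e : ∀ t, t < 5 → Nat.shiftLeft (Nat.land (Nat.shiftRight o (3 * t)) 7)
      (Nat.shiftRight (Nat.land (Nat.shiftRight (Nat.shiftRight (pw p) 90) (9 * t)) 511) 4)
      = fld o t * 8 ^ τ t := by
    intro t ht
    rw [vec_pos h ht, land7_fld, shl, pow_mul]
    norm_num
  have h0 : vecOf o (Nat.shiftRight (pw p) 90)
      = (Nat.shiftLeft (Nat.land (Nat.shiftRight o (3 * 0)) 7)
      (Nat.shiftRight (Nat.land (Nat.shiftRight (Nat.shiftRight (pw p) 90) (9 * 0)) 511) 4)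
      + Nat.shiftLeft (Nat.land (Nat.shiftRight o (3 * 1)) 7)
      (Nat.shiftRight (Nat.land (Nat.shiftRight (Nat.shiftRight (pw p) 90) (9 * 1)) 511) 4))
      + (Nat.shiftLeft (Nat.land (Nat.shiftRight o (3 * 2)) 7)
      (Nat.shiftRight (Nat.land (Nat.shiftRight (Nat.shiftRight (pw p) 90) (9 * 2)) 511) 4)
      + (Nat.shiftLeft (Nat.land (Nat.shiftRight o (3 * 3)) 7)
      (Nat.shiftRight (Nat.land (Nat.shiftRight (Nat.shiftRight (pw p) 90) (9 * 3)) 511) 4)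
      + Nat.shiftLeft (Nat.land (Nat.shiftRight o (3 * 4)) 7)
      (Nat.shiftRight (Nat.land (Nat.shiftRight (Nat.shiftRight (pw p) 90) (9 * 4)) 511) 4))) :=
    rfl
  rw [h0, e 0 (by norm_num), e 1 (by norm_num), e 2 (by norm_num), e 3 (by norm_num),
    e 4 (by norm_num)]
  simp only [Finset.sum_range_succ, Finset.range_zero, Finset.sum_empty]
  ring

/-- the digits of `vecOf` -/
theorem vecOf_fld {p : ℕ} {τ : ℕ → ℕ} (h : PW p τ) (o : ℕ) :
    (∀ t < 5, fld (vecOf o (Nat.shiftRight (pw p) 90)) (τ t) = fld o t) ∧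
    (∀ i, (∀ t < 5, τ t ≠ i) → fld (vecOf o (Nat.shiftRight (pw p) 90)) i = 0) := by
  rw [vecOf_eq h]
  exact fld_sparse (d := fun t => fld o t) (p := τ) 5 (fun t _ => fld_lt o t)
    (fun s hs t ht => h.inj s t (by omega) (by omega))

/-! ### Ten codes -/

theorem rwd_spec (w fuel : ℕ) : ∀ q t acc, rwd w fuel q t acc
    = acc + ∑ s ∈ range fuel, code w (fld9 q s) * 2 ^ (t + 3 * s) := by
  induction fuel with
  | zero =>
    intro q t acc
    rw [range_zero, sum_empty]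
    rfl
  | succ n ih =>
    intro q t acc
    have h : rwd w (n + 1) q t acc = rwd w n (Nat.shiftRight q 9) (t + 3)
        (acc + Nat.shiftLeft (at9 w q) t) := rfl
    rw [h, ih, Finset.sum_range_succ', at9_eq, shl, mul_zero, add_zero, add_assoc]
    congr 1
    rw [add_comm]
    congr 1
    refine Finset.sum_congr rfl fun s _ => ?_
    rw [fld9_shr]
    congr 2
    ring

theorem w10_eq (w q : ℕ) : w10 w q = ∑ s ∈ range 10, code w (fld9 q s) * 8 ^ s := by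
  have h : w10 w q = rwd w 10 q 0 0 := rfl
  rw [h, rwd_spec, zero_add]
  refine Finset.sum_congr rfl fun s _ => ?_
  rw [zero_add, pow_mul]
  norm_num

theorem w5_eq (w q : ℕ) : w5 w q = ∑ s ∈ range 5, code w (fld9 q (10 + s)) * 8 ^ s := by
  have h : w5 w q = rwd w 5 (Nat.shiftRight q 90) 0 0 := rfl
  rw [h, rwd_spec, zero_add]
  refine Finset.sum_congr rfl fun s _ => ?_
  rw [zero_add, pow_mul, fld9_shr90]
  norm_num

theorem w10_zero {p : ℕ} (hp : 720 ≤ p) {w : ℕ} (h0 : cl w 0 0 = 0) : w10 w (pw p) = 0 := by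
  rw [w10_eq, pw_ge hp]
  refine Finset.sum_eq_zero fun s _ => ?_
  have h1 := code_eq w 0 0
  rw [show 3 * (16 * 0 + 0) = 0 by norm_num, h0] at h1
  rw [fld9_zero, h1, zero_mul]

section

variable {ι : Type} {c : ι → ι → ℕ}

/-- the six points, the last one replaced by `P` -/
def nwp (f : ℕ → ι) (τ : ℕ → ℕ) (P : ι) (a : Fin 6) : ι := if (a : ℕ) = 5 then P else f (τ a)

theorem nwp_last (f : ℕ → ι) (τ : ℕ → ℕ) (P : ι) : nwp f τ P 5 = P := rfl

theorem nwp_of (f : ℕ → ι) (τ : ℕ → ℕ) (P : ι) {t : ℕ} (ht : t < 5) :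
    nwp f τ P (Fin.ofNat 6 t) = f (τ t) := by
  have h : ((Fin.ofNat 6 t : Fin 6) : ℕ) = t := Nat.mod_eq_of_lt (by omega)
  unfold nwp
  rw [h, if_neg (by omega)]

theorem code_tb {w : ℕ} {f : ℕ → ι} (hw : Tb c w 6 f) {p : ℕ} {τ : ℕ → ℕ} (h : PW p τ) {t : ℕ}
    (ht : t < 15) : code w (fld9 (pw p) t) = c (f (τ (ei t))) (f (τ (ej t))) := by
  obtain ⟨h1, h2⟩ := ei_lt ht
  have h3 := h.lt _ (show ei t < 6 by omega)
  have h4 := h.lt _ h2
  rw [h.pos t ht, code_eq, hw _ _ (by omega), if_pos ⟨h3, h4⟩]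

theorem w10_k10 {w : ℕ} {f : ℕ → ι} (hw : Tb c w 6 f) {p : ℕ} {τ : ℕ → ℕ} (h : PW p τ) (P : ι) :
    w10 w (pw p) = k10 c (nwp f τ P) := by
  rw [w10_eq]
  unfold k10
  refine Finset.sum_congr rfl fun t ht => ?_
  rw [Finset.mem_range] at ht
  obtain ⟨h1, h2⟩ := ei_lt5 ht
  rw [code_tb hw h (by omega), nwp_of f τ P (by omega), nwp_of f τ P (by omega)]

theorem o5_fld (hc : Sy c) (f : ℕ → ι) (τ : ℕ → ℕ) (P : ι) (t : ℕ) :
    fld (o5 c (nwp f τ P)) t = if t < 5 then c P (f (τ t)) else 0 := by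
  have h : o5 c (nwp f τ P) = ∑ t ∈ range 5, c P (f (τ t)) * 8 ^ t := by
    unfold o5
    refine Finset.sum_congr rfl fun t ht => ?_
    rw [Finset.mem_range] at ht
    rw [nwp_of f τ P ht, nwp_last, hc.symm]
  rw [h, fld_sum (d := fun t => c P (f (τ t))) (fun t => by
    show c P (f (τ t)) < 8
    have := hc.le P (f (τ t))
    omega)]

theorem o5_lt (hc : Sy c) (p : Fin 6 → ι) : o5 c p < 32768 := by
  have h : ∀ t ∈ range 5, c (p (Fin.ofNat 6 t)) (p 5) * 8 ^ t ≤ 6 * 8 ^ t := fun t _ =>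
    Nat.mul_le_mul_right _ (hc.le _ _)
  have h1 := Finset.sum_le_sum h
  have h2 : ∑ t ∈ range 5, 6 * 8 ^ t < 32768 := by decide
  exact lt_of_le_of_lt h1 h2

/-- six points with known distances -/
def Fu (c : ι → ι → ℕ) (f : ℕ → ι) : Prop := ∀ a b, a < 6 → b < 6 → a ≠ b → c (f a) (f b) ≠ 0

theorem Fu.inj (hc : Sy c) {f : ℕ → ι} (h : Fu c f) {a b : ℕ} (ha : a < 6) (hb : b < 6)
    (hab : f a = f b) : a = b := by
  by_contra hne
  apply h a b ha hb hne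
  rw [hab, hc.self]

theorem full_nwp (hc : Sy c) {f : ℕ → ι} (hf : Fu c f) {p : ℕ} {τ : ℕ → ℕ} (h : PW p τ) {P : ι}
    (hP : ∀ a, a < 6 → a ≠ τ 5 → c P (f a) ≠ 0) : Full c (nwp f τ P) := by
  have key : ∀ a b : Fin 6, a ≠ b → c (nwp f τ P a) (nwp f τ P b) ≠ 0 := by
    intro a b hab
    unfold nwp
    have hab' : (a : ℕ) ≠ b := fun h1 => hab (Fin.ext h1)
    have hτ : ∀ t : Fin 6, (t : ℕ) ≠ 5 → τ t ≠ τ 5 := fun t ht h1 =>
      ht (h.inj _ _ t.2 (by norm_num) h1)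
    by_cases h1 : (a : ℕ) = 5
    · have h2 : (b : ℕ) ≠ 5 := fun h3 => hab' (h1.trans h3.symm)
      rw [if_pos h1, if_neg h2]
      exact hP _ (h.lt _ b.2) (hτ b h2)
    · by_cases h2 : (b : ℕ) = 5
      · rw [if_neg h1, if_pos h2, hc.symm]
        exact hP _ (h.lt _ a.2) (hτ a h1)
      · rw [if_neg h1, if_neg h2]
        exact hf _ _ (h.lt _ a.2) (h.lt _ b.2) (fun h3 => hab' (h.inj _ _ a.2 b.2 h3))
  refine ⟨?_, key⟩
  intro a b hab
  by_contra hne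
  apply key a b hne
  rw [hab, hc.self]

end

/-! ### Lists -/

theorem memL_spec {x : ℕ} (fuel : ℕ) : ∀ L, memL x fuel L = true →
    ∃ k < fuel, L / 2 ^ (30 * k) ≠ 0 ∧ L / 2 ^ (30 * k) % 2 ^ 30 = x := by
  induction fuel with
  | zero =>
    intro L h
    exact absurd (show false = true from h) Bool.false_ne_true
  | succ n ih =>
    intro L h
    obtain ⟨h1, h2⟩ := isZ_true h
    rcases brn_true h2 with ⟨h3, _⟩ | ⟨_, h3⟩
    · refine ⟨0, Nat.succ_pos n, ?_, ?_⟩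
      · rw [mul_zero, pow_zero, Nat.div_one]
        exact h1
      · rw [mul_zero, pow_zero, Nat.div_one, ← msk_mod]
        exact Nat.eq_of_beq_eq_true h3
    · obtain ⟨k, hk, h4, h5⟩ := ih _ h3
      have e : Nat.shiftRight L 30 / 2 ^ (30 * k) = L / 2 ^ (30 * (k + 1)) := by
        rw [shr, Nat.div_div_eq_div_mul, ← pow_add]
        congr 2
        ring
      rw [e] at h4 h5
      exact ⟨k + 1, by omega, h4, h5⟩

/-- list with one node for each entry -/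
noncomputable def lst (sh : ℕ) (Φ : ℕ → Tr → ℕ → Bool) (t : Tr) : ℕ → Bool :=
  Tr.rec (motive := fun _ => Nat → Bool) (fun L => Nat.beq L 0)
    (fun p l _ _ hr L => isZ L false (cnd (Φ p l L) (hr (Nat.shiftRight L sh)))) t

theorem lst_spec {sh : ℕ} {Φ : ℕ → Tr → ℕ → Bool} (t : Tr) : ∀ L, lst sh Φ t L = true →
    ∀ k, L / 2 ^ (sh * k) ≠ 0 → ∃ p l, Φ p l (L / 2 ^ (sh * k)) = true := by
  induction t with
  | z =>
    intro L h k hk
    have h1 : L = 0 := Nat.eq_of_beq_eq_true h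
    rw [h1, Nat.zero_div] at hk
    exact absurd rfl hk
  | n p l r ihl ihr =>
    intro L h k hk
    obtain ⟨h1, h2⟩ := isZ_true h
    obtain ⟨h3, h4⟩ := cnd_true h2
    rcases k with _ | k
    · refine ⟨p, l, ?_⟩
      rw [mul_zero, pow_zero, Nat.div_one]
      exact h3
    · have e : Nat.shiftRight L sh / 2 ^ (sh * k) = L / 2 ^ (sh * (k + 1)) := by
        rw [shr, Nat.div_div_eq_div_mul, ← pow_add]
        congr 2
        ring
      obtain ⟨p', l', h5⟩ := ihr _ h4 k (by rw [e]; exact hk)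
      rw [e] at h5
      exact ⟨p', l', h5⟩

/-- one node for each number up to `e` -/
noncomputable def cntr (e : ℕ) (Φ : ℕ → Tr → ℕ → Bool) (t : Tr) : ℕ → Bool :=
  Tr.rec (motive := fun _ => Nat → Bool) (fun d => Nat.beq d e)
    (fun p l _ _ hr d => cnd (Φ p l d) (hr (Nat.add d 1))) t

theorem cntr_spec {e : ℕ} {Φ : ℕ → Tr → ℕ → Bool} (t : Tr) : ∀ d, cntr e Φ t d = true →
    ∀ d', d ≤ d' → d' < e → ∃ p l, Φ p l d' = true := by
  induction t with
  | z =>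
    intro d h d' h1 h2
    have : d = e := Nat.eq_of_beq_eq_true h
    omega
  | n p l r ihl ihr =>
    intro d h d' h1 h2
    obtain ⟨h3, h4⟩ := cnd_true h
    rcases Nat.lt_or_ge d d' with h5 | h5
    · exact ihr _ h4 d' h5 h2
    · have : d' = d := by omega
      subst this
      exact ⟨p, l, h3⟩

/-! ### Entries -/

section

variable {KT : Kt} {RW NR : ℕ} {ι : Type} {D : ι → ι → ℝ} {x : Fin 6 → ℝ} {c : ι → ι → ℕ}

/-- properties of an entry `E` for the new point `P` -/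
structure Ent (RW : ℕ) (c : ι → ι → ℕ) (f : ℕ → ι) (p : ℕ) (τ : ℕ → ℕ) (P : ι) (E j : ℕ) :
    Prop where
  iso : Iso RW j c (nwp f τ P)
  full : Full c (nwp f τ P)
  num : Nat.land (Nat.shiftRight E 15) 16383 = j
  vec : ∀ i, fld (vecOf E (Nat.shiftRight (pw p) 90)) i
    = if i < 6 ∧ i ≠ τ 5 then c P (f i) else 0

theorem entry (hE : EAll KT RW NR) (hNR : NR ≤ 16384) (hP : Pc D x c) {w : ℕ} {f : ℕ → ι}
    (hw : Tb c w 6 f) (hf : Fu c f) {p : ℕ} {τ : ℕ → ℕ} (hτ : PW p τ)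
    (hL : KT.lk (w10 w (pw p)) ≠ 0) {P : ι} (hPc : ∀ a, a < 6 → a ≠ τ 5 → c P (f a) ≠ 0) :
    ∃ k j, k < 64 ∧ KT.lk (w10 w (pw p)) / 2 ^ (30 * k) ≠ 0 ∧
      Ent RW c f p τ P (KT.lk (w10 w (pw p)) / 2 ^ (30 * k)) j := by
  have hc := hP.sy
  have hfull := full_nwp hc hf hτ hPc
  rw [w10_k10 hw hτ P] at hL ⊢
  obtain ⟨j, hj, h1, h2⟩ := hE D x c _ hP hfull hL
  obtain ⟨k, hk, h3, h4⟩ := memL_spec 64 _ h2
  refine ⟨k, j, hk, h3, h1, hfull, ?_, ?_⟩
  · have hE' : ∀ E : ℕ, Nat.land (Nat.shiftRight E 15) 16383 = E / 2 ^ 15 % 2 ^ 14 := by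
      intro E
      have : Nat.land (Nat.shiftRight E 15) 16383 = (Nat.shiftRight E 15) &&& (2 ^ 14 - 1) := rfl
      rw [this, Nat.and_two_pow_sub_one_eq_mod, shr]
    rw [hE']
    have h5 := o5_lt hc (nwp f τ P)
    generalize KT.lk (k10 c (nwp f τ P)) / 2 ^ (30 * k) = E at *
    omega
  · have h5 := o5_lt hc (nwp f τ P)
    have h6 := o5_fld hc f τ P
    generalize KT.lk (k10 c (nwp f τ P)) / 2 ^ (30 * k) = E at *
    have h7 : E % 8 ^ 5 = o5 c (nwp f τ P) := by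
      have : (8 : ℕ) ^ 5 = 32768 := by norm_num
      rw [this]
      omega
    have h8 : ∀ t < 5, fld E t = c P (f (τ t)) := by
      intro t ht
      rw [← fld_mod E 5 ht, h7, h6, if_pos ht]
    obtain ⟨v1, v2⟩ := vecOf_fld hτ E
    intro i
    by_cases hi : i < 6 ∧ i ≠ τ 5
    · rw [if_pos hi]
      obtain ⟨a, ha, rfl⟩ := hτ.sur i hi.1
      have ha5 : a < 5 := by
        rcases Nat.lt_or_ge a 5 with h9 | h9
        · exact h9
        · have : a = 5 := by omega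
          exact absurd (by rw [this]) hi.2
      rw [v1 a ha5, h8 a ha5]
    · rw [if_neg hi]
      apply v2
      intro t ht h9
      apply hi
      rw [← h9]
      refine ⟨hτ.lt t (by omega), fun h10 => ?_⟩
      have := hτ.inj t 5 (by omega) (by norm_num) h10
      omega

/-- from the lookup to the permutation -/
theorem perm_of (hK0 : KT.lk 0 = 0) {w : ℕ} {f : ℕ → ι} (hP : Pc D x c) (hw : Tb c w 6 f)
    {p : ℕ} (hL : KT.lk (w10 w (pw p)) ≠ 0) : ∃ τ, PW p τ := by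
  rcases Nat.lt_or_ge p 720 with hp | hp
  · exact pw_PW hp
  · exfalso
    apply hL
    rw [w10_zero hp, hK0]
    rw [hw 0 0 (by norm_num), if_pos ⟨by norm_num, by norm_num⟩, hP.self]

theorem nomL_spec {i q v : ℕ} (fuel : ℕ) : ∀ L, nomL i q v fuel L = true → ∀ k < fuel,
    L / 2 ^ (30 * k) ≠ 0 → vecOf (L / 2 ^ (30 * k)) q = v →
      Nat.land (Nat.shiftRight (L / 2 ^ (30 * k)) 15) 16383 + 1 ≤ i := by
  induction fuel with
  | zero =>
    intro L h
    exact absurd (show false = true from h) Bool.false_ne_true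
  | succ n ih =>
    intro L h k hk h0 hv
    rcases isZ_cases h with ⟨h1, _⟩ | ⟨_, h1⟩
    · rw [h1, Nat.zero_div] at h0
      exact absurd rfl h0
    · obtain ⟨h2, h3⟩ := cnd_true h1
      rcases k with _ | k
      · rw [mul_zero, pow_zero, Nat.div_one] at hv ⊢
        rcases brn_true h2 with ⟨_, h4⟩ | ⟨h4, _⟩
        · exact Nat.le_of_ble_eq_true h4
        · rw [hv, Nat.beq_refl] at h4
          exact absurd h4.symm Bool.false_ne_true
      · have e : Nat.shiftRight L 30 / 2 ^ (30 * k) = L / 2 ^ (30 * (k + 1)) := by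
          rw [shr, Nat.div_div_eq_div_mul, ← pow_add]
          congr 2
          ring
        rw [← e] at h0 hv ⊢
        exact ih _ h3 k (by omega) h0 hv

/-- `i` is at most the number of every admissible set of six points made of the points `f b`,
`b ≠ a`, and the point `P` -/
def Mn (RW i : ℕ) (c : ι → ι → ℕ) (f : ℕ → ι) (a : ℕ) (P : ι) : Prop :=
  ∀ p' : Fin 6 → ι, Full c p' → p' 5 = P → (∀ t : Fin 6, t ≠ 5 → ∃ b < 6, b ≠ a ∧ p' t = f b) →
    ∀ j, Iso RW j c p' → i ≤ j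

theorem Mn.of_ent {i : ℕ} {f : ℕ → ι} {p : ℕ} {τ : ℕ → ℕ} {P : ι} {E j : ℕ}
    (h : Mn RW i c f (τ 5) P) (hτ : PW p τ) (hE : Ent RW c f p τ P E j) : i ≤ j := by
  refine h _ hE.full rfl ?_ j hE.iso
  intro t ht
  have ht5 : (t : ℕ) ≠ 5 := fun h1 => ht (Fin.ext h1)
  refine ⟨τ t, hτ.lt _ t.2, fun h1 => ht5 (hτ.inj _ _ t.2 (by norm_num) h1), ?_⟩
  unfold nwp
  rw [if_neg ht5]

theorem nom_sound (hE : EAll KT RW NR) (hNR : NR ≤ 16384) (hK0 : KT.lk 0 = 0) (hP : Pc D x c)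
    {w : ℕ} {f : ℕ → ι} (hw : Tb c w 6 f) (hf : Fu c f) {i s p v : ℕ}
    (h : nom KT i w s p v = true) : ∃ a < 6, s = 3 * a ∧ ∀ P : ι,
      (∀ b, b < 6 → b ≠ a → c P (f b) ≠ 0) →
      (∀ b, b ≠ a → fld v b = if b < 6 then c P (f b) else 0) → Mn RW i c f a P → False := by
  obtain ⟨h1, h2⟩ := cnd_true (show cnd (Nat.beq (Nat.land (Nat.shiftRight (pw p) 90) 15) s)
    (isZ (KT.lk (w10 w (pw p))) false (nomL i (Nat.shiftRight (pw p) 90) (clz v s) 64
      (KT.lk (w10 w (pw p))))) = true from h)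
  obtain ⟨hL, h3⟩ := isZ_true h2
  obtain ⟨τ, hτ⟩ := perm_of hK0 hP hw hL
  have hs : s = 3 * τ 5 := by
    rw [← hτ.last]
    exact (Nat.eq_of_beq_eq_true h1).symm
  refine ⟨τ 5, hτ.lt 5 (by norm_num), hs, ?_⟩
  intro P hPc hv hmin
  obtain ⟨k, j, hk, h4, hEnt⟩ := entry hE hNR hP hw hf hτ hL hPc
  have h5 := nomL_spec 64 _ h3 k hk h4 (by
    apply fld_ext
    intro t
    rw [hEnt.vec, hs, fld_clz]
    by_cases ht : t = τ 5
    · rw [if_pos ht, if_neg (fun h6 => h6.2 ht)]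
    · rw [if_neg ht, hv t ht]
      by_cases h6 : t < 6
      · rw [if_pos h6, if_pos ⟨h6, ht⟩]
      · rw [if_neg h6, if_neg (fun h7 => h6 h7.1)])
  rw [hEnt.num] at h5
  have := hmin.of_ent hτ hEnt
  omega

theorem nomA_sound (hE : EAll KT RW NR) (hNR : NR ≤ 16384) (hK0 : KT.lk 0 = 0) (hP : Pc D x c)
    {w : ℕ} {f : ℕ → ι} (hw : Tb c w 6 f) (hf : Fu c f) {i p v : ℕ}
    (h : nomA KT i w p v = true) {P : ι} (hPc : ∀ b, b < 6 → c P (f b) ≠ 0)
    (hv : Vp c v 6 P f) (hmin : ∀ a, a < 6 → Mn RW i c f a P) : False := by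
  obtain ⟨a, ha, _, h1⟩ := nom_sound hE hNR hK0 hP hw hf h
  exact h1 P (fun b hb _ => hPc b hb) (fun b _ => hv b) (hmin a ha)

end

end Pool.Agent.Lib.EPS9
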