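import Pool.Agent.Lib.MP_c7e7f6_eps.ExtEnt

/-!
Extension of the colourings of six points: certificates for tables, forbidden equalities, the end
of the search.
-/

set_option autoImplicit false
set_option linter.unusedVariables false

namespace Pool.Agent.Lib.EPS9

open Finset

/-- value of a code -/
noncomputable def Xv (x : Fin 6 → ℝ) (n : ℕ) : ℝ :=
  if h : n ≠ 0 ∧ n ≤ 6 then x ⟨n - 1, by omega⟩ else 1

theorem Xv_pos {x : Fin 6 → ℝ} (hx : ∀ k, 0 < x k) (n : ℕ) : 0 < Xv x n := by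
  unfold Xv
  split_ifs
  · exact hx _
  · exact one_pos

theorem Xv_succ (x : Fin 6 → ℝ) {d : ℕ} (hd : d < 6) : Xv x (d + 1) = x ⟨d, hd⟩ := by
  unfold Xv
  rw [dif_pos ⟨by omega, by omega⟩]
  rfl

/-- the differences of the values -/
noncomputable def ydf (x : Fin 6 → ℝ) (a : Fin 6) : ℝ :=
  if h : (a : ℕ) = 0 then x 0 else x a - x ⟨a - 1, by omega⟩

theorem stA_bit : ∀ d < 6, ∀ a < 6, stA.testBit (6 * d + a) = decide (a ≤ d) := by
  decide +kernel

theorem fo_stA {x : Fin 6 → ℝ} (hx : ∀ k, 0 < x k) (hm : StrictMono x) :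
    Fo stA (ydf x) (Xv x) := by
  refine ⟨fun a => ?_, fun d hd => ?_⟩
  · unfold ydf
    split_ifs with h
    · exact hx 0
    · rw [sub_pos]
      apply hm
      rw [Fin.lt_def]
      show (a : ℕ) - 1 < a
      omega
  · rw [Xv_succ x hd]
    have h : ∀ a : Fin 6, (if stA.testBit (6 * d + a) then ydf x a else 0)
        = if (a : ℕ) ≤ d then ydf x a else 0 := by
      intro a
      rw [stA_bit d hd a a.2]
      simp
    rw [Finset.sum_congr rfl fun a _ => h a, Fin.sum_univ_six]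
    interval_cases d <;> simp [ydf]

section

variable {ι : Type} {D : ι → ι → ℝ} {x : Fin 6 → ℝ} {c : ι → ι → ℕ}

/-- the first `n` points are different -/
def Ij (f : ℕ → ι) (n : ℕ) : Prop := ∀ i j, i < n → j < n → f i = f j → i = j

theorem Ij.ups {f : ℕ → ι} {n : ℕ} (h : Ij f n) {P : ι} (hP : ∀ i, i < n → P ≠ f i) :
    Ij (ups f n P) (n + 1) := by
  intro i j hi hj hij
  rcases Nat.lt_or_ge i n with h1 | h1
  · rcases Nat.lt_or_ge j n with h2 | h2
    · rw [ups_ne f P (by omega), ups_ne f P (by omega)] at hij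
      exact h i j h1 h2 hij
    · have : j = n := by omega
      subst this
      rw [ups_ne f P (by omega), ups_self] at hij
      exact absurd hij.symm (hP i h1)
  · have : i = n := by omega
    subst this
    rcases Nat.lt_or_ge j i with h2 | h2
    · rw [ups_self, ups_ne f P (by omega)] at hij
      exact absurd hij (hP j h2)
    · omega

theorem Pc.val (hP : Pc D x c) {i j : ι} (h : c i j ≠ 0) : D i j = Xv x (c i j) := by
  have h6 := hP.le i j
  have hij : i ≠ j := by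
    rintro rfl
    exact h (hP.self i)
  unfold Xv
  rw [dif_pos ⟨h, h6⟩]
  refine hP.eq i j hij ⟨c i j - 1, by omega⟩ ?_
  show c i j = (c i j - 1) + 1
  omega

theorem cf_tb (hP : Pc D x c) {w m : ℕ} {f : ℕ → ι} (hw : Tb c w m f) (hf : Ij f m) :
    Cf m w (Xv x) := by
  refine ⟨fun i j => D (f i) (f j), hP.geo.comp (f := fun i : Fin m => f i) (fun i j hij =>
    Fin.ext (hf i j i.2 j.2 hij)), ?_⟩
  intro i j hi hj hne
  rw [hw i j hj] at hne ⊢
  by_cases h : i < m ∧ j < m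
  · rw [if_pos h] at hne ⊢
    refine ⟨hP.le _ _, h.1, h.2, ?_, hP.val hne⟩
    rintro rfl
    exact hne (hP.self _)
  · rw [if_neg h] at hne
    exact absurd rfl hne

theorem cf7_of {n w : ℕ} {X : ℕ → ℝ} (h : Cf n w X) : Cf7 n w X := by
  obtain ⟨D, hG, hD⟩ := h
  refine ⟨D, hG, fun i j hi hj hne => ?_⟩
  obtain ⟨h1, h2⟩ := hD i j hi hj hne
  exact ⟨by omega, h2⟩

theorem smp_sound {w p n : ℕ} {X : ℕ → ℝ} (hC : Cf7 n w X) (h : smp w p = true) : False := by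
  obtain ⟨D, hG, hD⟩ := hC
  have h' : (fun a b c d e => isZ (Nat.land p 1)
    (cnd (Nat.ble (Nat.add b 1) c) (cnd (Nat.ble (Nat.add c 1) d) (cnd (Nat.ble (Nat.add d 1) e)
      (isZ (cl w a b) false (cnd (Nat.beq (cl w a b) (cl w a c))
        (cnd (Nat.beq (cl w a b) (cl w a d)) (Nat.beq (cl w a b) (cl w a e))))))))
    (cnd (Nat.ble (Nat.add a 1) b) (cnd (Nat.ble (Nat.add c 1) d) (cnd (Nat.ble (Nat.add d 1) e)
      (isZ (Nat.mul (Nat.mul (cl w a c) (cl w a d)) (cl w a e)) false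
        (cnd (Nat.beq (cl w a c) (cl w b c))
          (cnd (Nat.beq (cl w a d) (cl w b d)) (Nat.beq (cl w a e) (cl w b e)))))))))
    (Nat.land (Nat.shiftRight p 1) 15) (Nat.land (Nat.shiftRight p 5) 15)
    (Nat.land (Nat.shiftRight p 9) 15) (Nat.land (Nat.shiftRight p 13) 15)
    (Nat.land (Nat.shiftRight p 17) 15) = true := h
  have ha := l16 (Nat.shiftRight p 1)
  have hb := l16 (Nat.shiftRight p 5)
  have hc := l16 (Nat.shiftRight p 9)
  have hd := l16 (Nat.shiftRight p 13)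
  have he := l16 (Nat.shiftRight p 17)
  generalize Nat.land (Nat.shiftRight p 1) 15 = a at *
  generalize Nat.land (Nat.shiftRight p 5) 15 = b at *
  generalize Nat.land (Nat.shiftRight p 9) 15 = c at *
  generalize Nat.land (Nat.shiftRight p 13) 15 = d at *
  generalize Nat.land (Nat.shiftRight p 17) 15 = e at *
  have fne : ∀ {u v : ℕ} (hu : u < n) (hv : v < n), u < v → (⟨u, hu⟩ : Fin n) ≠ ⟨v, hv⟩ := by
    intro u v hu hv huv h1
    have := congrArg (fun t : Fin n => (t : ℕ)) h1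
    simp only at this
    omega
  rcases isZ_cases h' with ⟨_, h1⟩ | ⟨_, h1⟩
  · obtain ⟨k1, h1⟩ := cnd_true h1
    obtain ⟨k2, h1⟩ := cnd_true h1
    obtain ⟨k3, h1⟩ := cnd_true h1
    obtain ⟨k4, h1⟩ := isZ_true h1
    obtain ⟨k5, h1⟩ := cnd_true h1
    obtain ⟨k6, h1⟩ := cnd_true h1
    have k1 : b + 1 ≤ c := Nat.le_of_ble_eq_true k1
    have k2 : c + 1 ≤ d := Nat.le_of_ble_eq_true k2
    have k3 : d + 1 ≤ e := Nat.le_of_ble_eq_true k3
    have e1 := Nat.eq_of_beq_eq_true k5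
    have e2 := Nat.eq_of_beq_eq_true k6
    have e3 := Nat.eq_of_beq_eq_true h1
    obtain ⟨_, ia, ib, _, d1⟩ := hD a b ha hb k4
    obtain ⟨_, _, ic, _, d2⟩ := hD a c ha hc (e1 ▸ k4)
    obtain ⟨_, _, id, _, d3⟩ := hD a d ha hd (e2 ▸ k4)
    obtain ⟨_, _, ie, _, d4⟩ := hD a e ha he (e3 ▸ k4)
    exact hG.star ⟨a, ia⟩ ⟨b, ib⟩ ⟨c, ic⟩ ⟨d, id⟩ ⟨e, ie⟩ (fne _ _ k1) (fne _ _ (by omega))
      (fne _ _ (by omega)) (fne _ _ k2) (fne _ _ (by omega)) (fne _ _ k3) ⟨by rw [d1, d2, e1], by rw [d1, d3, e2], by rw [d1, d4, e3]⟩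
  · obtain ⟨k1, h1⟩ := cnd_true h1
    obtain ⟨k2, h1⟩ := cnd_true h1
    obtain ⟨k3, h1⟩ := cnd_true h1
    obtain ⟨k4, h1⟩ := isZ_true h1
    obtain ⟨k5, h1⟩ := cnd_true h1
    obtain ⟨k6, h1⟩ := cnd_true h1
    obtain ⟨m1, m2⟩ := mul_ne k4
    obtain ⟨m3, m4⟩ := mul_ne m1
    have k1 : a + 1 ≤ b := Nat.le_of_ble_eq_true k1
    have k2 : c + 1 ≤ d := Nat.le_of_ble_eq_true k2
    have k3 : d + 1 ≤ e := Nat.le_of_ble_eq_true k3
    have e1 := Nat.eq_of_beq_eq_true k5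
    have e2 := Nat.eq_of_beq_eq_true k6
    have e3 := Nat.eq_of_beq_eq_true h1
    obtain ⟨_, ia, ic, _, d1⟩ := hD a c ha hc m3
    obtain ⟨_, _, id, _, d2⟩ := hD a d ha hd m4
    obtain ⟨_, _, ie, _, d3⟩ := hD a e ha he m2
    obtain ⟨_, ib, _, _, d4⟩ := hD b c hb hc (e1 ▸ m3)
    obtain ⟨_, _, _, _, d5⟩ := hD b d hb hd (e2 ▸ m4)
    obtain ⟨_, _, _, _, d6⟩ := hD b e hb he (e3 ▸ m2)
    exact hG.bis ⟨a, ia⟩ ⟨b, ib⟩ ⟨c, ic⟩ ⟨d, id⟩ ⟨e, ie⟩ (fne _ _ k1) (fne _ _ k2)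
      (fne _ _ (by omega)) (fne _ _ k3)
      ⟨by rw [d1, d4, e1], by rw [d2, d5, e2], by rw [d3, d6, e3]⟩

theorem smp_tb (hP : Pc D x c) {w m p : ℕ} {f : ℕ → ι} (hw : Tb c w m f) (hf : Ij f m)
    (h : smp w p = true) : False := smp_sound (cf7_of (cf_tb hP hw hf)) h

/-- the certificates `LT` refute tables which agree with `f0` on the first six points -/
def LTs (LT : ℕ → ℕ → Bool) (c : ι → ι → ℕ) (f0 : ℕ → ι) : Prop :=
  ∀ w p n f, LT w p = true → Tb c w n f → Ij f n → 6 ≤ n → (∀ a < 6, f a = f0 a) → False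

theorem lt_of_withT (hP : Pc D x c) {v : ℕ} {f0 : ℕ → ι} (hv : Tb c v 6 f0)
    {k : (ℕ → ℕ → Bool) → Bool}
    (h : withT v (fun K6 K8 K12 K24 => k (lTot K6 K8 K12 K24)) = true) :
    ∃ LT, LTs LT c f0 ∧ k LT = true := by
  obtain ⟨K6, K8, K12, K24, h1, h2⟩ := withT_sound h
  refine ⟨lTot K6 K8 K12 K24, ?_, h1⟩
  intro w p n f hl hw hf hn hff
  refine h2 w p ?_ hl n (Xv x) (ydf x) (cf_tb hP hw hf) (fo_stA hP.pos hP.mono)
  intro i hi j hj
  rw [hw i j (by omega), hv i j (by omega), if_pos ⟨by omega, by omega⟩, if_pos ⟨hi, hj⟩,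
    hff i hi, hff j hj]

/-! ### The end -/

theorem fld_add7 (l : List ℕ) : l.Nodup → ∀ w, (∀ e ∈ l, fld w e = 0) → ∀ i,
    fld (w + 7 * (l.map (fun e => 8 ^ e)).sum) i = if i ∈ l then 7 else fld w i := by
  induction l with
  | nil =>
    intro _ w _ i
    simp
  | cons a l ih =>
    intro hnd w hw i
    rw [List.nodup_cons] at hnd
    have h1 := fld_add (hw a List.mem_cons_self) (show 7 < 8 by norm_num)
    have e : w + 7 * ((a :: l).map (fun e => 8 ^ e)).sum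
        = (w + 7 * 8 ^ a) + 7 * (l.map (fun e => 8 ^ e)).sum := by
      rw [List.map_cons, List.sum_cons]
      ring
    rw [e, ih hnd.2 (w + 7 * 8 ^ a) (fun e he => by
      rw [h1, if_neg (show ¬ e = a from fun h2 => hnd.1 (h2 ▸ he))]
      exact hw e (List.mem_cons_of_mem _ he)) i, h1]
    by_cases h2 : i = a
    · rw [if_neg (show ¬ i ∈ l from fun h3 => hnd.1 (h2 ▸ h3)), if_pos h2, if_pos (by rw [h2]; exact
        List.mem_cons_self)]
    · rw [if_neg h2]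
      by_cases h3 : i ∈ l
      · rw [if_pos h3, if_pos (List.mem_cons_of_mem _ h3)]
      · rw [if_neg h3, if_neg]
        intro h4
        rcases List.mem_cons.1 h4 with h5 | h5
        · exact h2 h5
        · exact h3 h5

theorem cf7_add (hP : Pc D x c) {w : ℕ} {f : ℕ → ι} (hw : Tb c w 9 f) (hf : Ij f 9)
    {E : List ℕ} (hnd : E.Nodup) {z : ℝ} (hE : ∀ e ∈ E, e / 16 < 9 ∧ e % 16 < 9 ∧
      e / 16 ≠ e % 16 ∧ c (f (e / 16)) (f (e % 16)) = 0 ∧ D (f (e / 16)) (f (e % 16)) = z) :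
    Cf7 9 (w + 7 * (E.map (fun e => 8 ^ e)).sum) (fun n => if n = 7 then z else Xv x n) := by
  have hd := fld_add7 E hnd w (by
    intro e he
    obtain ⟨h1, h2, h3, h4, h5⟩ := hE e he
    rw [← e16 e, ← cl_eq, hw _ _ (Nat.mod_lt _ (by norm_num)), if_pos ⟨h1, h2⟩, h4])
  refine ⟨fun i j => D (f i) (f j), hP.geo.comp (f := fun i : Fin 9 => f i) (fun i j hij =>
    Fin.ext (hf i j i.2 j.2 hij)), ?_⟩
  intro i j hi hj hne
  rw [cl_eq, hd] at hne ⊢
  by_cases he : 16 * i + j ∈ E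
  · rw [if_pos he]
    obtain ⟨h1, h2, h3, h4, h5⟩ := hE _ he
    rw [show (16 * i + j) / 16 = i by omega, show (16 * i + j) % 16 = j by omega] at h3 h4 h5
    rw [show (16 * i + j) / 16 = i by omega] at h1
    rw [show (16 * i + j) % 16 = j by omega] at h2
    refine ⟨le_rfl, h1, h2, h3, ?_⟩
    show D (f i) (f j) = if (7 : ℕ) = 7 then z else Xv x 7
    rw [if_pos rfl]
    exact h5
  · rw [if_neg he, ← cl_eq, hw i j hj] at hne ⊢
    by_cases h : i < 9 ∧ j < 9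
    · rw [if_pos h] at hne ⊢
      have h6 := hP.le (f i) (f j)
      refine ⟨by omega, h.1, h.2, ?_, ?_⟩
      · rintro rfl
        exact hne (hP.self _)
      · show D (f i) (f j) = if c (f i) (f j) = 7 then z else Xv x (c (f i) (f j))
        rw [if_neg (by omega)]
        exact hP.val hne
    · rw [if_neg h] at hne
      exact absurd rfl hne

theorem isZn_cases (n a b : ℕ) : (n = 0 ∧ isZn n a b = a) ∨ (n ≠ 0 ∧ isZn n a b = b) := by
  cases n with
  | zero => exact Or.inl ⟨rfl, rfl⟩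
  | succ n => exact Or.inr ⟨Nat.succ_ne_zero n, rfl⟩

theorem fin1_sound (hP : Pc D x c) {w : ℕ} {f : ℕ → ι} (hw : Tb c w 9 f) (hf : Ij f 9)
    {A B : List ℕ} (hA : A.Nodup) (hB : B.Nodup) {z z' : ℝ} (hz : 0 < z) (hz' : 0 < z')
    (hEA : ∀ e ∈ A, e / 16 < 9 ∧ e % 16 < 9 ∧
      e / 16 ≠ e % 16 ∧ c (f (e / 16)) (f (e % 16)) = 0 ∧ D (f (e / 16)) (f (e % 16)) = z)
    (hEB : ∀ e ∈ B, e / 16 < 9 ∧ e % 16 < 9 ∧
      e / 16 ≠ e % 16 ∧ c (f (e / 16)) (f (e % 16)) = 0 ∧ D (f (e / 16)) (f (e % 16)) = z')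
    {p : ℕ} (h : fin1 w (A.map (fun e => 8 ^ e)).sum (B.map (fun e => 8 ^ e)).sum p = true) :
    False := by
  have h' : isZ (Nat.land (Nat.shiftRight p 1) 1)
    (ls7 (w + 7 * (isZn (Nat.land p 1) (B.map (fun e => 8 ^ e)).sum
      (A.map (fun e => 8 ^ e)).sum)) (Nat.shiftRight p 2))
    (smp (w + 7 * (isZn (Nat.land p 1) (B.map (fun e => 8 ^ e)).sum
      (A.map (fun e => 8 ^ e)).sum)) (Nat.shiftRight p 2)) = true := h
  have key : ∀ (E : List ℕ) (y : ℝ), 0 < y →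
      Cf7 9 (w + 7 * (E.map (fun e => 8 ^ e)).sum) (fun n => if n = 7 then y else Xv x n) →
      isZ (Nat.land (Nat.shiftRight p 1) 1)
        (ls7 (w + 7 * (E.map (fun e => 8 ^ e)).sum) (Nat.shiftRight p 2))
        (smp (w + 7 * (E.map (fun e => 8 ^ e)).sum) (Nat.shiftRight p 2)) = true → False := by
    intro E y hy hC h1
    rcases isZ_cases h1 with ⟨_, h2⟩ | ⟨_, h2⟩
    · refine ls7_sound h2 (fun d _ _ => ?_) hC
      show 0 < if d = 7 then y else Xv x d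
      split_ifs
      · exact hy
      · exact Xv_pos hP.pos d
    · exact smp_sound hC h2
  rcases isZn_cases (Nat.land p 1) (B.map (fun e => 8 ^ e)).sum (A.map (fun e => 8 ^ e)).sum
    with ⟨_, h1⟩ | ⟨_, h1⟩
  · rw [h1] at h'
    exact key B z' hz' (cf7_add hP hw hf hB hEB) h'
  · rw [h1] at h'
    exact key A z hz (cf7_add hP hw hf hA hEA) h'

/-- the places of a pair -/
def pl (a b : ℕ) : List ℕ := [16 * a + b, 16 * b + a]

theorem mk2_eq (a b : ℕ) : mk2 (3 * a) b = ((pl a b).map (fun e => 8 ^ e)).sum := by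
  have h : mk2 (3 * a) b = Nat.shiftLeft 1 (16 * (3 * a) + 3 * b)
      + Nat.shiftLeft 1 (48 * b + 3 * a) := rfl
  rw [h, shl, shl, show 16 * (3 * a) + 3 * b = 3 * (16 * a + b) by ring,
    show 48 * b + 3 * a = 3 * (16 * b + a) by ring, pow_mul, pow_mul, one_mul, one_mul]
  simp [pl]

theorem mk2_add (a b a' b' : ℕ) : Nat.add (mk2 (3 * a) b) (mk2 (3 * a') b')
    = ((pl a b ++ pl a' b').map (fun e => 8 ^ e)).sum := by
  rw [mk2_eq, mk2_eq, List.map_append, List.sum_append]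
  rfl

/-- a missing pair -/
structure Ms (D : ι → ι → ℝ) (c : ι → ι → ℕ) (f : ℕ → ι) (a b : ℕ) : Prop where
  la : a < 9
  lb : b < 9
  ne : a ≠ b
  zero : c (f a) (f b) = 0

theorem Ms.pl (hP : Pc D x c) {f : ℕ → ι} {a b : ℕ} (h : Ms D c f a b) {z : ℝ}
    (hz : D (f a) (f b) = z) : ∀ e ∈ pl a b, e / 16 < 9 ∧ e % 16 < 9 ∧
      e / 16 ≠ e % 16 ∧ c (f (e / 16)) (f (e % 16)) = 0 ∧ D (f (e / 16)) (f (e % 16)) = z := by
  obtain ⟨h1, h2, h3, h4⟩ := h
  intro e he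
  unfold EPS9.pl at he
  rw [List.mem_cons, List.mem_singleton] at he
  rcases he with rfl | rfl
  · rw [show (16 * a + b) / 16 = a by omega, show (16 * a + b) % 16 = b by omega]
    exact ⟨h1, h2, h3, h4, hz⟩
  · rw [show (16 * b + a) / 16 = b by omega, show (16 * b + a) % 16 = a by omega]
    refine ⟨h2, h1, h3.symm, ?_, ?_⟩
    · rw [hP.symm]
      exact h4
    · rw [hP.geo.symm]
      exact hz

theorem pl_nodup {a b : ℕ} (ha : a < 9) (hb : b < 9) (h : a ≠ b) : (pl a b).Nodup := by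
  unfold pl
  simp
  omega

theorem pl_nodup2 {a b a' b' : ℕ} (ha : a < 9) (hb : b < 9) (h : a ≠ b) (ha' : a' < 9)
    (hb' : b' < 9) (h' : a' ≠ b') (h1 : ¬ (a = a' ∧ b = b')) (h2 : ¬ (a = b' ∧ b = a')) :
    (pl a b ++ pl a' b').Nodup := by
  unfold pl
  simp
  omega

theorem fin9_sound (hP : Pc D x c) {w : ℕ} {f : ℕ → ι} (hw : Tb c w 9 f) (hf : Ij f 9)
    {a1 b1 a2 b2 a3 b3 : ℕ} (m1 : Ms D c f a1 b1) (m2 : Ms D c f a2 b2) (m3 : Ms D c f a3 b3)
    (n12 : ¬ (a1 = a2 ∧ b1 = b2) ∧ ¬ (a1 = b2 ∧ b1 = a2))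
    (n13 : ¬ (a1 = a3 ∧ b1 = b3) ∧ ¬ (a1 = b3 ∧ b1 = a3))
    (n23 : ¬ (a2 = a3 ∧ b2 = b3) ∧ ¬ (a2 = b3 ∧ b2 = a3))
    (hor : D (f a1) (f b1) = D (f a2) (f b2) ∨ D (f a1) (f b1) = D (f a3) (f b3) ∨
      D (f a2) (f b2) = D (f a3) (f b3)) {t : Tr}
    (h : fin9 w (mk2 (3 * a1) b1) (mk2 (3 * a2) b2) (mk2 (3 * a3) b3) t = true) : False := by
  have pos : ∀ {a b : ℕ}, Ms D c f a b → 0 < D (f a) (f b) := fun {a b} h =>
    hP.geo.pos _ _ (fun h1 => h.ne (hf a b h.la h.lb h1))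
  have key : ∀ {a b a' b' a'' b'' : ℕ} {p : ℕ}, Ms D c f a b → Ms D c f a' b' →
      Ms D c f a'' b'' → (¬ (a' = a'' ∧ b' = b'') ∧ ¬ (a' = b'' ∧ b' = a'')) →
      D (f a') (f b') = D (f a'') (f b'') →
      fin1 w (mk2 (3 * a) b) (Nat.add (mk2 (3 * a') b') (mk2 (3 * a'') b'')) p = true →
      False := by
    intro a b a' b' a'' b'' p k1 k2 k3 k4 k5 k6
    rw [mk2_eq, mk2_add] at k6
    refine fin1_sound hP hw hf (pl_nodup k1.la k1.lb k1.ne)
      (pl_nodup2 k2.la k2.lb k2.ne k3.la k3.lb k3.ne k4.1 k4.2) (pos k1) (pos k2)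
      (k1.pl hP rfl) ?_ k6
    intro e he
    rcases List.mem_append.1 he with he | he
    · exact k2.pl hP rfl e he
    · exact k3.pl hP k5.symm e he
  cases t with
  | z => exact absurd (show false = true from h) Bool.false_ne_true
  | n p l r =>
    obtain ⟨h1, h2⟩ := cnd_true h
    cases r with
    | z => exact absurd (show false = true from h2) Bool.false_ne_true
    | n p' l' r' =>
      obtain ⟨h3, h4⟩ := cnd_true h2
      cases r' with
      | z => exact absurd (show false = true from h4) Bool.false_ne_true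
      | n p'' l'' r'' =>
        rcases hor with h5 | h5 | h5
        · exact key m3 m1 m2 n12 h5 h4
        · exact key m2 m1 m3 n13 h5 h3
        · exact key m1 m2 m3 n23 h5 h1

end

end Pool.Agent.Lib.EPS9
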