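import Pool.Agent.Lib.MP_c7e7f6_eps.ExtLT

/-!
Extension of the colourings of six points: multiplicities.
-/

set_option autoImplicit false
set_option linter.unusedVariables false

namespace Pool.Agent.Lib.EPS9

open Finset

/-! ### Numbers with eight digits of five bits -/

/-- `n` counts `m e` codes `e`, `e = 1, …, 6`, and at most `z` codes `0` -/
def Rc (n z : ℕ) (m : ℕ → ℕ) : Prop :=
  ∃ a b, a ≤ z ∧ n = a + 32 * m 1 + 1024 * m 2 + 32768 * m 3 + 1048576 * m 4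
    + 33554432 * m 5 + 1073741824 * m 6 + 34359738368 * b

theorem Rc.add {n n' z z' : ℕ} {m m' : ℕ → ℕ} (h : Rc n z m) (h' : Rc n' z' m') :
    Rc (n + n') (z + z') (fun e => m e + m' e) := by
  obtain ⟨a, b, h1, h2⟩ := h
  obtain ⟨a', b', h3, h4⟩ := h'
  refine ⟨a + a', b + b', by omega, ?_⟩
  rw [h2, h4]
  ring

theorem Rc.congr {n z : ℕ} {m m' : ℕ → ℕ} (h : Rc n z m)
    (hm : ∀ e, 1 ≤ e → e ≤ 6 → m e = m' e) : Rc n z m' := by
  obtain ⟨a, b, h1, h2⟩ := h
  refine ⟨a, b, h1, ?_⟩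
  rw [h2, hm 1 (by norm_num) (by norm_num), hm 2 (by norm_num) (by norm_num),
    hm 3 (by norm_num) (by norm_num), hm 4 (by norm_num) (by norm_num),
    hm 5 (by norm_num) (by norm_num), hm 6 (by norm_num) (by norm_num)]

theorem Rc.mono {n z z' : ℕ} {m : ℕ → ℕ} (h : Rc n z m) (hz : z ≤ z') : Rc n z' m := by
  obtain ⟨a, b, h1, h2⟩ := h
  exact ⟨a, b, by omega, h2⟩

theorem cu_eq (d : ℕ) : cu d = 32 ^ d := by
  have h : cu d = Nat.shiftLeft 1 (5 * d) := rfl
  rw [h, shl, one_mul, pow_mul]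
  norm_num

theorem rc_pow {d : ℕ} (hd : d < 8) : Rc (32 ^ d) 1 (fun e => if e = d then 1 else 0) := by
  interval_cases d
  · exact ⟨1, 0, le_rfl, by norm_num⟩
  · exact ⟨0, 0, Nat.zero_le _, by norm_num⟩
  · exact ⟨0, 0, Nat.zero_le _, by norm_num⟩
  · exact ⟨0, 0, Nat.zero_le _, by norm_num⟩
  · exact ⟨0, 0, Nat.zero_le _, by norm_num⟩
  · exact ⟨0, 0, Nat.zero_le _, by norm_num⟩
  · exact ⟨0, 0, Nat.zero_le _, by norm_num⟩
  · exact ⟨0, 1, Nat.zero_le _, by norm_num⟩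

theorem rc_pow' {d : ℕ} (hd : d < 8) (h0 : d ≠ 0) :
    Rc (32 ^ d) 0 (fun e => if e = d then 1 else 0) := by
  interval_cases d
  · exact absurd rfl h0
  · exact ⟨0, 0, Nat.zero_le _, by norm_num⟩
  · exact ⟨0, 0, Nat.zero_le _, by norm_num⟩
  · exact ⟨0, 0, Nat.zero_le _, by norm_num⟩
  · exact ⟨0, 0, Nat.zero_le _, by norm_num⟩
  · exact ⟨0, 0, Nat.zero_le _, by norm_num⟩
  · exact ⟨0, 0, Nat.zero_le _, by norm_num⟩
  · exact ⟨0, 1, Nat.zero_le _, by norm_num⟩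

theorem rc_sum {h : ℕ → ℕ} {m : ℕ → ℕ → ℕ} {z : ℕ} (n : ℕ) : (∀ i < n, Rc (h i) z (m i)) →
    Rc (∑ i ∈ range n, h i) (n * z) (fun e => ∑ i ∈ range n, m i e) := by
  induction n with
  | zero =>
    intro _
    exact ⟨0, 0, Nat.zero_le _, by simp⟩
  | succ n ih =>
    intro hn
    have h1 := (ih fun i hi => hn i (by omega)).add (hn n (by omega))
    have h2 : n * z + z = (n + 1) * z := by ring
    rw [h2] at h1
    rw [Finset.sum_range_succ]
    exact h1.congr fun e _ _ => by rw [Finset.sum_range_succ]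

theorem cntv_eq (v : ℕ) : cntv v = ∑ i ∈ range 8, 32 ^ fld v i := by
  have e : ∀ t, 32 ^ fld v t = Nat.shiftLeft 1 (Nat.mul 5 (Nat.land (Nat.shiftRight v (3 * t)) 7)) := by
    intro t
    rw [land7_fld]
    exact (cu_eq _).symm
  rw [Finset.sum_congr rfl fun t _ => e t]
  simp only [Finset.sum_range_succ, Finset.range_zero, Finset.sum_empty]
  have h0 : Nat.shiftLeft 1 (Nat.mul 5 (Nat.land v 7))
      = Nat.shiftLeft 1 (Nat.mul 5 (Nat.land (Nat.shiftRight v (3 * 0)) 7)) := rfl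
  have h1 : cntv v = (Nat.shiftLeft 1 (Nat.mul 5 (Nat.land v 7))
      + Nat.shiftLeft 1 (Nat.mul 5 (Nat.land (Nat.shiftRight v (3 * 1)) 7))
      + (Nat.shiftLeft 1 (Nat.mul 5 (Nat.land (Nat.shiftRight v (3 * 2)) 7))
      + Nat.shiftLeft 1 (Nat.mul 5 (Nat.land (Nat.shiftRight v (3 * 3)) 7))))
      + ((Nat.shiftLeft 1 (Nat.mul 5 (Nat.land (Nat.shiftRight v (3 * 4)) 7))
      + Nat.shiftLeft 1 (Nat.mul 5 (Nat.land (Nat.shiftRight v (3 * 5)) 7)))
      + (Nat.shiftLeft 1 (Nat.mul 5 (Nat.land (Nat.shiftRight v (3 * 6)) 7))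
      + Nat.shiftLeft 1 (Nat.mul 5 (Nat.land (Nat.shiftRight v (3 * 7)) 7)))) := rfl
  rw [h1, h0]
  ring

theorem rc_cntv (v : ℕ) : Rc (cntv v) 8 (fun e => ∑ i ∈ range 8, if e = fld v i then 1 else 0) := by
  rw [cntv_eq]
  exact rc_sum 8 fun i _ => rc_pow (fld_lt v i)

theorem dig_eq {n z : ℕ} {m : ℕ → ℕ} (h : Rc n z m) (hz : z ≤ 31)
    (hm : ∀ e, 1 ≤ e → e ≤ 6 → m e ≤ 31) {e : ℕ} (h1 : 1 ≤ e) (h6 : e ≤ 6) :
    Nat.land (Nat.shiftRight n (5 * e)) 31 = m e := by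
  have h2 : Nat.land (Nat.shiftRight n (5 * e)) 31
      = (Nat.shiftRight n (5 * e)) &&& (2 ^ 5 - 1) := rfl
  rw [h2, Nat.and_two_pow_sub_one_eq_mod, shr]
  obtain ⟨a, b, h3, h4⟩ := h
  have m1 := hm 1 (by norm_num) (by norm_num)
  have m2 := hm 2 (by norm_num) (by norm_num)
  have m3 := hm 3 (by norm_num) (by norm_num)
  have m4 := hm 4 (by norm_num) (by norm_num)
  have m5 := hm 5 (by norm_num) (by norm_num)
  have m6 := hm 6 (by norm_num) (by norm_num)
  interval_cases e <;> norm_num <;> omega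

theorem spw_eq {n z : ℕ} {m : ℕ → ℕ} (h : Rc n z m) (hz : z ≤ 31)
    (hm : ∀ e, 1 ≤ e → e ≤ 6 → m e ≤ 31) :
    spw n = 2 ^ m 1 + 2 ^ m 2 + 2 ^ m 3 + 2 ^ m 4 + 2 ^ m 5 + 2 ^ m 6 := by
  have h1 : spw n = (Nat.shiftLeft 1 (Nat.land (Nat.shiftRight n (5 * 1)) 31)
    + (Nat.shiftLeft 1 (Nat.land (Nat.shiftRight n (5 * 2)) 31)
    + Nat.shiftLeft 1 (Nat.land (Nat.shiftRight n (5 * 3)) 31)))
    + (Nat.shiftLeft 1 (Nat.land (Nat.shiftRight n (5 * 4)) 31)
    + (Nat.shiftLeft 1 (Nat.land (Nat.shiftRight n (5 * 5)) 31)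
    + Nat.shiftLeft 1 (Nat.land (Nat.shiftRight n (5 * 6)) 31))) := rfl
  rw [h1, dig_eq h hz hm (by norm_num) (by norm_num), dig_eq h hz hm (by norm_num) (by norm_num),
    dig_eq h hz hm (by norm_num) (by norm_num), dig_eq h hz hm (by norm_num) (by norm_num),
    dig_eq h hz hm (by norm_num) (by norm_num), dig_eq h hz hm (by norm_num) (by norm_num)]
  simp only [shl, one_mul]
  ring

/-- the multiplicities are 3, …, 8 -/
structure Mu (M : ℕ → ℕ) : Prop where
  le : ∀ e, 1 ≤ e → e ≤ 6 → M e ≤ 8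
  pow : 2 ^ M 1 + 2 ^ M 2 + 2 ^ M 3 + 2 ^ M 4 + 2 ^ M 5 + 2 ^ M 6 = 504
  dom : ∀ h, h ≤ 9 → (if h ≤ M 1 then 1 else 0) + (if h ≤ M 2 then 1 else 0)
    + (if h ≤ M 3 then 1 else 0) + (if h ≤ M 4 then 1 else 0) + (if h ≤ M 5 then 1 else 0)
    + (if h ≤ M 6 then 1 else 0) ≤ 9 - h

theorem mu_of {M : ℕ → ℕ} (π : Equiv.Perm (Fin 6))
    (hM : ∀ k : Fin 6, M ((k : ℕ) + 1) = (π k : ℕ) + 3) : Mu M := by
  have h0 := hM 0
  have h1 := hM 1
  have h2 := hM 2
  have h3 := hM 3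
  have h4 := hM 4
  have h5 := hM 5
  rw [show ((0 : Fin 6) : ℕ) + 1 = 1 from rfl] at h0
  rw [show ((1 : Fin 6) : ℕ) + 1 = 2 from rfl] at h1
  rw [show ((2 : Fin 6) : ℕ) + 1 = 3 from rfl] at h2
  rw [show ((3 : Fin 6) : ℕ) + 1 = 4 from rfl] at h3
  rw [show ((4 : Fin 6) : ℕ) + 1 = 5 from rfl] at h4
  rw [show ((5 : Fin 6) : ℕ) + 1 = 6 from rfl] at h5
  refine ⟨?_, ?_, ?_⟩
  · intro e he1 he6
    have h6 := hM ⟨e - 1, by omega⟩
    have h7 := (π ⟨e - 1, by omega⟩).2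
    have h8 : ((⟨e - 1, by omega⟩ : Fin 6) : ℕ) + 1 = e := by
      show e - 1 + 1 = e
      omega
    rw [h8] at h6
    omega
  · have h6 := Equiv.sum_comp π (fun k : Fin 6 => 2 ^ ((k : ℕ) + 3))
    rw [Fin.sum_univ_six, Fin.sum_univ_six, ← h0, ← h1, ← h2, ← h3, ← h4, ← h5] at h6
    rw [h6]
    decide
  · intro h hh
    have h6 := Equiv.sum_comp π (fun k : Fin 6 => if h ≤ ((k : ℕ) + 3) then 1 else 0)
    rw [Fin.sum_univ_six, Fin.sum_univ_six, ← h0, ← h1, ← h2, ← h3, ← h4, ← h5] at h6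
    rw [h6]
    interval_cases h <;> decide

theorem spw_le {n z : ℕ} {m M : ℕ → ℕ} (h : Rc n z m) (hz : z ≤ 31) (hM : Mu M)
    (hm : ∀ e, 1 ≤ e → e ≤ 6 → m e ≤ M e) : spw n ≤ 504 := by
  rw [spw_eq h hz (fun e h1 h6 => by
    have := hm e h1 h6
    have := hM.le e h1 h6
    omega), ← hM.pow]
  have p : ∀ e, 1 ≤ e → e ≤ 6 → 2 ^ m e ≤ 2 ^ M e := fun e h1 h6 =>
    Nat.pow_le_pow_right (by norm_num) (hm e h1 h6)
  have p1 := p 1 (by norm_num) (by norm_num)
  have p2 := p 2 (by norm_num) (by norm_num)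
  have p3 := p 3 (by norm_num) (by norm_num)
  have p4 := p 4 (by norm_num) (by norm_num)
  have p5 := p 5 (by norm_num) (by norm_num)
  have p6 := p 6 (by norm_num) (by norm_num)
  omega

theorem spw_504 {n z : ℕ} {m M : ℕ → ℕ} (h : Rc n z m) (hz : z ≤ 31) (hM : Mu M)
    (hm : ∀ e, 1 ≤ e → e ≤ 6 → m e = M e) : spw n = 504 := by
  rw [spw_eq h hz (fun e h1 h6 => by
    have := hm e h1 h6
    have := hM.le e h1 h6
    omega), hm 1 (by norm_num) (by norm_num), hm 2 (by norm_num) (by norm_num),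
    hm 3 (by norm_num) (by norm_num), hm 4 (by norm_num) (by norm_num),
    hm 5 (by norm_num) (by norm_num), hm 6 (by norm_num) (by norm_num)]
  exact hM.pow

theorem exD_spec {chk : ℕ → ℕ → Tr → Bool} {c D : ℕ} (fuel : ℕ) : ∀ d t,
    exD chk c D fuel d t = true → ∀ δ, d ≤ δ → δ < d + fuel →
      Nat.shiftLeft 1 (Nat.land (Nat.shiftRight c (5 * δ)) 31) = D →
        ∃ p l, chk δ p l = true := by
  induction fuel with
  | zero =>
    intro d t _ δ h1 h2 _
    omega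
  | succ n ih =>
    intro d t h δ h1 h2 h3
    have h' : brn (Nat.beq (Nat.shiftLeft 1 (Nat.land (Nat.shiftRight c (Nat.mul 5 d)) 31)) D)
        (Tr.rec (motive := fun _ => Bool) false
          (fun p l r _ _ => cnd (chk d p l) (exD chk c D n (d + 1) r)) t)
        (exD chk c D n (d + 1) t) = true := h
    rcases brn_true h' with ⟨h4, h5⟩ | ⟨h4, h5⟩
    · cases t with
      | z => exact absurd (show false = true from h5) Bool.false_ne_true
      | n p l r =>
        obtain ⟨h6, h7⟩ := cnd_true (show cnd (chk d p l) (exD chk c D n (d + 1) r) = true from h5)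
        rcases Nat.lt_or_ge d δ with h8 | h8
        · exact ih _ _ h7 δ h8 (by omega) h3
        · have : δ = d := by omega
          subst this
          exact ⟨p, l, h6⟩
    · rcases Nat.lt_or_ge d δ with h8 | h8
      · exact ih _ _ h5 δ h8 (by omega) h3
      · have : δ = d := by omega
        subst this
        have h9 : Nat.beq (Nat.shiftLeft 1 (Nat.land (Nat.shiftRight c (Nat.mul 5 δ)) 31)) D
            = true := by
          have h10 : Nat.shiftLeft 1 (Nat.land (Nat.shiftRight c (Nat.mul 5 δ)) 31) = D := h3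
          rw [h10, Nat.beq_refl]
        rw [h9] at h4
        exact absurd h4.symm Bool.false_ne_true

theorem exD_sound {chk : ℕ → ℕ → Tr → Bool} {n z : ℕ} {m M : ℕ → ℕ} (h : Rc n z m) (hz : z ≤ 31)
    (hM : Mu M) {δ : ℕ} (h1 : 1 ≤ δ) (h6 : δ ≤ 6)
    (hm : ∀ e, 1 ≤ e → e ≤ 6 → m e + (if e = δ then 1 else 0) = M e) {t : Tr}
    (ht : exD chk n (Nat.sub 504 (spw n)) 6 1 t = true) : ∃ p l, chk δ p l = true := by
  have hm31 : ∀ e, 1 ≤ e → e ≤ 6 → m e ≤ 31 := by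
    intro e he1 he6
    have := hm e he1 he6
    have := hM.le e he1 he6
    omega
  refine exD_spec 6 1 t ht δ h1 (by omega) ?_
  rw [dig_eq h hz hm31 h1 h6, shl, one_mul]
  have e1 := spw_eq h hz hm31
  have e2 := hM.pow
  rw [← hm 1 (by norm_num) (by norm_num), ← hm 2 (by norm_num) (by norm_num),
    ← hm 3 (by norm_num) (by norm_num), ← hm 4 (by norm_num) (by norm_num),
    ← hm 5 (by norm_num) (by norm_num), ← hm 6 (by norm_num) (by norm_num)] at e2
  show 2 ^ m δ = 504 - spw n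
  rw [e1]
  interval_cases δ <;> norm_num [pow_succ] at e2 <;> omega

theorem brnN_le (h d : ℕ) : brnN (Nat.ble h d) 1 0 = if h ≤ d then 1 else 0 := by
  by_cases h1 : h ≤ d
  · rw [Nat.ble_eq_true_of_le h1, if_pos h1]
    rfl
  · have h2 : Nat.ble h d = false := by
      rw [← Bool.not_eq_true]
      exact fun h3 => h1 (Nat.le_of_ble_eq_true h3)
    rw [h2, if_neg h1]
    rfl

theorem dom_sound {n z h : ℕ} {m M : ℕ → ℕ} (hn : Rc n z m) (hz : z ≤ 31) (hM : Mu M)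
    (hm : ∀ e, 1 ≤ e → e ≤ 6 → m e ≤ M e) (hd : dom n h = true) : False := by
  have h' : cnd (Nat.ble h 9) (Nat.ble 10 (h +
    ((brnN (Nat.ble h (Nat.land (Nat.shiftRight n (5 * 1)) 31)) 1 0
    + (brnN (Nat.ble h (Nat.land (Nat.shiftRight n (5 * 2)) 31)) 1 0
    + brnN (Nat.ble h (Nat.land (Nat.shiftRight n (5 * 3)) 31)) 1 0))
    + (brnN (Nat.ble h (Nat.land (Nat.shiftRight n (5 * 4)) 31)) 1 0
    + (brnN (Nat.ble h (Nat.land (Nat.shiftRight n (5 * 5)) 31)) 1 0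
    + brnN (Nat.ble h (Nat.land (Nat.shiftRight n (5 * 6)) 31)) 1 0))))) = true := hd
  have hm31 : ∀ e, 1 ≤ e → e ≤ 6 → m e ≤ 31 := by
    intro e he1 he6
    have := hm e he1 he6
    have := hM.le e he1 he6
    omega
  obtain ⟨h1, h2⟩ := cnd_true h'
  have h1 := Nat.le_of_ble_eq_true h1
  have h2 := Nat.le_of_ble_eq_true h2
  rw [brnN_le, brnN_le, brnN_le, brnN_le, brnN_le, brnN_le,
    dig_eq hn hz hm31 (by norm_num) (by norm_num), dig_eq hn hz hm31 (by norm_num) (by norm_num),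
    dig_eq hn hz hm31 (by norm_num) (by norm_num), dig_eq hn hz hm31 (by norm_num) (by norm_num),
    dig_eq hn hz hm31 (by norm_num) (by norm_num), dig_eq hn hz hm31 (by norm_num) (by norm_num)]
    at h2
  have h3 := hM.dom h h1
  have p : ∀ e, 1 ≤ e → e ≤ 6 → (if h ≤ m e then 1 else 0) ≤ (if h ≤ M e then 1 else 0) := by
    intro e he1 he6
    have := hm e he1 he6
    split_ifs <;> omega
  have p1 := p 1 (by norm_num) (by norm_num)
  have p2 := p 2 (by norm_num) (by norm_num)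
  have p3 := p 3 (by norm_num) (by norm_num)
  have p4 := p 4 (by norm_num) (by norm_num)
  have p5 := p 5 (by norm_num) (by norm_num)
  have p6 := p 6 (by norm_num) (by norm_num)
  omega

/-! ### Counting the codes of the pairs -/

section

variable {ι : Type} {c : ι → ι → ℕ}

/-- number of the codes `e` of `P` and the first `m` points -/
def rr (c : ι → ι → ℕ) (f : ℕ → ι) (m : ℕ) (P : ι) (e : ℕ) : ℕ :=
  ∑ i ∈ range m, if e = c P (f i) then 1 else 0

/-- number of the codes `e` of the first `n` points -/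
def qq (c : ι → ι → ℕ) (f : ℕ → ι) (n e : ℕ) : ℕ := ∑ j ∈ range n, rr c f j (f j) e

theorem rr_succ (f : ℕ → ι) (m : ℕ) (P : ι) (e : ℕ) :
    rr c f (m + 1) P e = rr c f m P e + if e = c P (f m) then 1 else 0 := by
  unfold rr
  rw [Finset.sum_range_succ]

theorem qq_succ (f : ℕ → ι) (n e : ℕ) : qq c f (n + 1) e = qq c f n e + rr c f n (f n) e := by
  unfold qq
  rw [Finset.sum_range_succ]

theorem rr_congr {f g : ℕ → ι} {m : ℕ} (h : ∀ i < m, f i = g i) (P : ι) (e : ℕ) :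
    rr c f m P e = rr c g m P e := by
  unfold rr
  refine Finset.sum_congr rfl fun i hi => ?_
  rw [h i (Finset.mem_range.1 hi)]

theorem qq_congr {f g : ℕ → ι} {n : ℕ} (h : ∀ i < n, f i = g i) (e : ℕ) :
    qq c f n e = qq c g n e := by
  unfold qq
  refine Finset.sum_congr rfl fun j hj => ?_
  have hj' := Finset.mem_range.1 hj
  rw [h j hj', rr_congr (fun i hi => h i (by omega))]

theorem rc_vp {v m : ℕ} {P : ι} {f : ℕ → ι} (hv : Vp c v m P f) (hm : m ≤ 8) :
    Rc (cntv v) 8 (rr c f m P) := by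
  refine (rc_cntv v).congr fun e h1 _ => ?_
  unfold rr
  rw [← Finset.sum_subset (Finset.range_subset_range.2 hm)]
  · refine Finset.sum_congr rfl fun i hi => ?_
    rw [hv i, if_pos (Finset.mem_range.1 hi)]
  · intro i _ hi
    rw [hv i, if_neg (fun h2 => hi (Finset.mem_range.2 h2)), if_neg (by omega)]

theorem rc_cu (hc : Sy c) (P Q : ι) : Rc (cu (c P Q)) 1 (fun e => if e = c P Q then 1 else 0) := by
  rw [cu_eq]
  have := hc.le P Q
  exact rc_pow (by omega)

theorem sum15 (g : ℕ → ℕ → ℕ) : ∑ t ∈ range 15, g (ej t) (ei t)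
    = ∑ j ∈ range 6, ∑ i ∈ range j, g j i := by
  simp [Finset.sum_range_succ, ei, ej]
  ring

theorem rc_cntT (hc : Sy c) {f : ℕ → ι} (hf : Fu c f) {s : ℕ}
    (hs : ∀ t < 15, fld s t = c (f (ei t)) (f (ej t))) (h15 : fld s 15 = 0) :
    Rc (cntT s) 0 (qq c f 6) := by
  have e0 : ∑ i ∈ range 8, 32 ^ fld s i + ∑ i ∈ range 8, 32 ^ fld s (8 + i)
      = ∑ t ∈ range 15, 32 ^ fld s t + 1 := by
    simp only [Finset.sum_range_succ, Finset.range_zero, Finset.sum_empty]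
    norm_num [h15]
    ring
  have e1 : cntT s = ∑ t ∈ range 15, 32 ^ fld s t := by
    have h : cntT s = cntv (Nat.land s (msk (3 * 8))) + cntv (Nat.shiftRight s (3 * 8)) - 1 := rfl
    have a1 : ∑ i ∈ range 8, 32 ^ fld (Nat.land s (msk (3 * 8))) i
        = ∑ i ∈ range 8, 32 ^ fld s i := by
      refine Finset.sum_congr rfl fun i hi => ?_
      rw [fld_msk, if_pos (Finset.mem_range.1 hi)]
    have a2 : ∑ i ∈ range 8, 32 ^ fld (Nat.shiftRight s (3 * 8)) i
        = ∑ i ∈ range 8, 32 ^ fld s (8 + i) := by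
      refine Finset.sum_congr rfl fun i hi => ?_
      rw [fld_shr]
    rw [h, cntv_eq, cntv_eq, a1, a2, e0]
    rfl
  have h1 : Rc (cntT s) (15 * 0) (fun e => ∑ t ∈ range 15, if e = fld s t then 1 else 0) := by
    rw [e1]
    refine rc_sum 15 fun t ht => rc_pow' (fld_lt s t) ?_
    rw [hs t ht]
    obtain ⟨h2, h3⟩ := ei_lt ht
    exact hf _ _ (by omega) h3 (by omega)
  refine h1.congr fun e _ _ => ?_
  have h2 := sum15 (fun j i => if e = c (f j) (f i) then 1 else 0)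
  unfold qq rr
  rw [← h2]
  refine Finset.sum_congr rfl fun t ht => ?_
  rw [hs t (Finset.mem_range.1 ht), hc.symm]

theorem two_qq (hc : Sy c) (f : ℕ → ι) {e : ℕ} (he : 1 ≤ e) (n : ℕ) :
    2 * qq c f n e = ∑ i ∈ range n, ∑ j ∈ range n, if e = c (f i) (f j) then 1 else 0 := by
  induction n with
  | zero => rfl
  | succ n ih =>
    have h1 : ∑ i ∈ range (n + 1), ∑ j ∈ range (n + 1), (if e = c (f i) (f j) then 1 else 0)
        = (∑ i ∈ range n, ∑ j ∈ range n, if e = c (f i) (f j) then 1 else 0)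
          + rr c f n (f n) e + rr c f n (f n) e := by
      rw [Finset.sum_range_succ, Finset.sum_congr rfl fun i _ => Finset.sum_range_succ _ _,
        Finset.sum_add_distrib, Finset.sum_range_succ]
      have h2 : (if e = c (f n) (f n) then 1 else 0) = 0 := by
        rw [hc.self, if_neg (by omega)]
      have h3 : ∑ i ∈ range n, (if e = c (f i) (f n) then 1 else 0) = rr c f n (f n) e := by
        unfold rr
        exact Finset.sum_congr rfl fun i _ => by rw [hc.symm]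
      rw [h2, h3, add_zero]
      rfl
    rw [h1, ← ih, qq_succ]
    ring

end

theorem two_card {c : Fin 9 → Fin 9 → ℕ} (hc : Sy c) {e : ℕ} (he : 1 ≤ e) :
    2 * ((univ : Finset (Fin 9 × Fin 9)).filter (fun p => p.1 < p.2 ∧ c p.1 p.2 = e)).card
      = ∑ i, ∑ j, if e = c i j then 1 else 0 := by
  have h1 : ((univ : Finset (Fin 9 × Fin 9)).filter (fun p => p.1 < p.2 ∧ c p.1 p.2 = e)).card
      = ∑ i, ∑ j, if i < j ∧ c i j = e then 1 else 0 := by
    rw [Finset.card_filter, Fintype.sum_prod_type]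
  have h2 : ((univ : Finset (Fin 9 × Fin 9)).filter (fun p => p.1 < p.2 ∧ c p.1 p.2 = e)).card
      = ∑ i, ∑ j, if j < i ∧ c i j = e then 1 else 0 := by
    rw [h1, Finset.sum_comm]
    refine Finset.sum_congr rfl fun i _ => Finset.sum_congr rfl fun j _ => ?_
    rw [hc.symm]
  rw [two_mul]
  nth_rewrite 1 [h1]
  rw [h2, ← Finset.sum_add_distrib]
  refine Finset.sum_congr rfl fun i _ => ?_
  rw [← Finset.sum_add_distrib]
  refine Finset.sum_congr rfl fun j _ => ?_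
  rcases lt_trichotomy i j with h | h | h
  · by_cases h3 : c i j = e
    · rw [if_pos ⟨h, h3⟩, if_neg (fun h4 => absurd h4.1 (not_lt.2 h.le)), if_pos h3.symm]
    · rw [if_neg (fun h4 => h3 h4.2), if_neg (fun h4 => h3 h4.2), if_neg (fun h4 => h3 h4.symm)]
  · subst h
    rw [hc.self, if_neg (fun h4 => absurd h4.1 (lt_irrefl _)), if_neg (by omega)]
  · by_cases h3 : c i j = e
    · rw [if_neg (fun h4 => absurd h4.1 (not_lt.2 h.le)), if_pos ⟨h, h3⟩, if_pos h3.symm]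
    · rw [if_neg (fun h4 => h3 h4.2), if_neg (fun h4 => h3 h4.2), if_neg (fun h4 => h3 h4.symm)]

theorem qq_nine {c : Fin 9 → Fin 9 → ℕ} (hc : Sy c) {g : ℕ → Fin 9} (hg : Ij g 9) {e : ℕ}
    (he : 1 ≤ e) : qq c g 9 e
      = ((univ : Finset (Fin 9 × Fin 9)).filter (fun p => p.1 < p.2 ∧ c p.1 p.2 = e)).card := by
  have h1 := two_qq hc g he 9
  have h2 := two_card hc he
  have hb : Function.Bijective (fun i : Fin 9 => g i) :=
    Finite.injective_iff_bijective.1 fun i j hij => Fin.ext (hg i j i.2 j.2 hij)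
  have h3 : ∑ i ∈ range 9, ∑ j ∈ range 9, (if e = c (g i) (g j) then 1 else 0)
      = ∑ i : Fin 9, ∑ j : Fin 9, if e = c i j then 1 else 0 := by
    rw [Finset.sum_range]
    refine Eq.trans ?_ (Equiv.sum_comp (Equiv.ofBijective _ hb)
      (fun i => ∑ j : Fin 9, if e = c i j then 1 else 0))
    refine Finset.sum_congr rfl fun i _ => ?_
    rw [Finset.sum_range]
    exact Equiv.sum_comp (Equiv.ofBijective _ hb) (fun j => if e = c (g i) j then 1 else 0)
  omega

end Pool.Agent.Lib.EPS9
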