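import Pool.Agent.Lib.MP_c7e7f6_eps.Geo

/-!
From a point set to a colouring of the pairs of nine indices.
-/

set_option autoImplicit false

namespace Pool.Agent.Lib.EPS9

open Finset

lemma card_half (c : Fin 9 → Fin 9 → Fin 8) (hc : ∀ i j, c i j = c j i) (k : Fin 8) :
    ((univ : Finset (Fin 9 × Fin 9)).filter (fun p => p.1 ≠ p.2 ∧ c p.1 p.2 = k)).card =
      2 * ((univ : Finset (Fin 9 × Fin 9)).filter (fun p => p.1 < p.2 ∧ c p.1 p.2 = k)).card := by
  have hB : ((univ : Finset (Fin 9 × Fin 9)).filter (fun p => p.2 < p.1 ∧ c p.1 p.2 = k)).card =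
      ((univ : Finset (Fin 9 × Fin 9)).filter (fun p => p.1 < p.2 ∧ c p.1 p.2 = k)).card := by
    refine card_bij (fun p _ => p.swap) ?_ ?_ ?_
    · intro p hp
      rw [mem_filter] at hp ⊢
      exact ⟨mem_univ _, hp.2.1, by rw [Prod.fst_swap, Prod.snd_swap, hc]; exact hp.2.2⟩
    · intro p _ q _ h
      exact Prod.swap_injective h
    · intro p hp
      rw [mem_filter] at hp
      refine ⟨p.swap, ?_, Prod.swap_swap p⟩
      rw [mem_filter]
      exact ⟨mem_univ _, hp.2.1, by rw [Prod.fst_swap, Prod.snd_swap, hc]; exact hp.2.2⟩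
  have hC : ((univ : Finset (Fin 9 × Fin 9)).filter (fun p => p.1 ≠ p.2 ∧ c p.1 p.2 = k)) =
      ((univ : Finset (Fin 9 × Fin 9)).filter (fun p => p.1 < p.2 ∧ c p.1 p.2 = k)) ∪
      ((univ : Finset (Fin 9 × Fin 9)).filter (fun p => p.2 < p.1 ∧ c p.1 p.2 = k)) := by
    ext p
    simp only [mem_union, mem_filter, mem_univ, true_and]
    constructor
    · rintro ⟨h1, h2⟩
      rcases lt_or_gt_of_ne h1 with h | h
      · exact Or.inl ⟨h, h2⟩
      · exact Or.inr ⟨h, h2⟩
    · rintro (⟨h1, h2⟩ | ⟨h1, h2⟩)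
      · exact ⟨h1.ne, h2⟩
      · exact ⟨h1.ne', h2⟩
  rw [hC, card_union_of_disjoint, hB]
  · ring
  · rw [disjoint_left]
    intro p hp hq
    rw [mem_filter] at hp hq
    exact absurd hp.2.1 hq.2.1.not_gt

/-- the combinatorial and metric data of a point set as in the question -/
theorem top (H : ∃ S : Finset (EuclideanSpace ℝ (Fin 2)), S.card = 9 ∧
      (∀ a ∈ S, ∀ b ∈ S, ∀ c ∈ S, a ≠ b → a ≠ c → b ≠ c →
        ¬ Collinear ℝ ({a, b, c} : Set (EuclideanSpace ℝ (Fin 2)))) ∧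
      (∀ a ∈ S, ∀ b ∈ S, ∀ c ∈ S, ∀ d ∈ S,
        a ≠ b → a ≠ c → a ≠ d → b ≠ c → b ≠ d → c ≠ d →
        ¬ EuclideanGeometry.Concyclic ({a, b, c, d} : Set (EuclideanSpace ℝ (Fin 2)))) ∧
      ∃ f : Fin 8 → ℝ, ∀ i : Fin 8,
        (S.offDiag.filter (fun p => dist p.1 p.2 = f i)).card = 2 * (i.val + 1)) :
    ∃ (D : Fin 9 → Fin 9 → ℝ) (x : Fin 8 → ℝ) (c : Fin 9 → Fin 9 → Fin 8), Geo D ∧
      (∀ k, 0 < x k) ∧ Function.Injective x ∧ (∀ i j, c i j = c j i) ∧
      (∀ i j, i ≠ j → D i j = x (c i j)) ∧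
      ∀ k : Fin 8, ((univ : Finset (Fin 9 × Fin 9)).filter
        (fun p => p.1 < p.2 ∧ c p.1 p.2 = k)).card = (k : ℕ) + 1 := by
  obtain ⟨S, hS, hcol, hconc, f, hf⟩ := H
  let e : Fin 9 ≃ S := (S.equivFinOfCardEq hS).symm
  let P : Fin 9 → EuclideanSpace ℝ (Fin 2) := fun i => (e i : EuclideanSpace ℝ (Fin 2))
  have hPS : ∀ i, P i ∈ S := fun i => (e i).2
  have hinj : Function.Injective P := Subtype.val_injective.comp e.injective
  have hsurj : ∀ a ∈ S, ∃ i, P i = a := fun a ha => ⟨e.symm ⟨a, ha⟩, by simp [P]⟩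
  have hgeo : Geo (fun i j => dist (P i) (P j) ^ 2) := geo_of_points P hinj
    (fun i j k h1 h2 h3 => hcol _ (hPS i) _ (hPS j) _ (hPS k) (hinj.ne h1) (hinj.ne h2)
      (hinj.ne h3))
    (fun i j k l h1 h2 h3 h4 h5 h6 => hconc _ (hPS i) _ (hPS j) _ (hPS k) _ (hPS l) (hinj.ne h1)
      (hinj.ne h2) (hinj.ne h3) (hinj.ne h4) (hinj.ne h5) (hinj.ne h6))
  have hfinj : Function.Injective f := by
    intro i j hij
    have h1 := hf i
    rw [hij, hf j] at h1
    exact Fin.ext (by omega)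
  have hfpos : ∀ i, 0 < f i := by
    intro i
    have h1 : 0 < (S.offDiag.filter (fun p => dist p.1 p.2 = f i)).card := by
      rw [hf i]
      omega
    obtain ⟨p, hp⟩ := card_pos.1 h1
    rw [mem_filter, mem_offDiag] at hp
    rw [← hp.2]
    exact dist_pos.2 hp.1.2.2
  have hcov : ∀ p ∈ S.offDiag, ∃ i, dist p.1 p.2 = f i := by
    have h1 : (univ : Finset (Fin 8)).biUnion
        (fun i => S.offDiag.filter (fun p => dist p.1 p.2 = f i)) = S.offDiag := by
      apply eq_of_subset_of_card_le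
      · intro p hp
        rw [mem_biUnion] at hp
        obtain ⟨i, -, hi⟩ := hp
        exact (mem_filter.1 hi).1
      · rw [card_biUnion, offDiag_card, hS]
        · simp only [hf]
          decide
        · intro i _ j _ hij
          refine disjoint_left.2 ?_
          intro p hp hq
          rw [mem_filter] at hp hq
          exact hij (hfinj (hp.2.symm.trans hq.2))
    intro p hp
    rw [← h1, mem_biUnion] at hp
    obtain ⟨i, -, hi⟩ := hp
    exact ⟨i, (mem_filter.1 hi).2⟩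
  have hex : ∀ i j : Fin 9, ∃ k : Fin 8, i ≠ j → dist (P i) (P j) = f k := by
    intro i j
    by_cases hij : i = j
    · exact ⟨0, fun h => absurd hij h⟩
    · obtain ⟨k, hk⟩ := hcov (P i, P j) (mem_offDiag.2 ⟨hPS i, hPS j, hinj.ne hij⟩)
      exact ⟨k, fun _ => hk⟩
  choose c0 hc0 using hex
  let c : Fin 9 → Fin 9 → Fin 8 := fun i j => if i = j then 0 else c0 i j
  have hc : ∀ i j, i ≠ j → dist (P i) (P j) = f (c i j) := by
    intro i j hij
    show _ = f (if i = j then 0 else c0 i j)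
    rw [if_neg hij]
    exact hc0 i j hij
  have hcs : ∀ i j, c i j = c j i := by
    intro i j
    by_cases hij : i = j
    · rw [hij]
    · apply hfinj
      rw [← hc i j hij, ← hc j i (Ne.symm hij), dist_comm]
  refine ⟨fun i j => dist (P i) (P j) ^ 2, fun k => f k ^ 2, c, hgeo, fun k => pow_pos (hfpos k) 2,
    ?_, hcs, fun i j hij => congrArg (· ^ 2) (hc i j hij), ?_⟩
  · intro k l hkl
    dsimp only at hkl
    exact hfinj ((sq_eq_sq₀ (hfpos k).le (hfpos l).le).1 hkl)
  · intro k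
    have h1 := card_half c hcs k
    have h2 : ((univ : Finset (Fin 9 × Fin 9)).filter (fun p => p.1 ≠ p.2 ∧ c p.1 p.2 = k)).card =
        (S.offDiag.filter (fun p => dist p.1 p.2 = f k)).card := by
      refine card_bij (fun p _ => (P p.1, P p.2)) ?_ ?_ ?_
      · intro p hp
        rw [mem_filter] at hp
        rw [mem_filter, mem_offDiag]
        exact ⟨⟨hPS _, hPS _, hinj.ne hp.2.1⟩, by
          show dist (P p.1) (P p.2) = f k
          rw [hc _ _ hp.2.1, hp.2.2]⟩
      · intro p _ q _ h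
        exact Prod.ext (hinj (Prod.ext_iff.1 h).1) (hinj (Prod.ext_iff.1 h).2)
      · intro q hq
        rw [mem_filter, mem_offDiag] at hq
        obtain ⟨⟨h3, h4, h5⟩, h6⟩ := hq
        obtain ⟨i, hi⟩ := hsurj _ h3
        obtain ⟨j, hj⟩ := hsurj _ h4
        have hij : i ≠ j := by
          rintro rfl
          exact h5 (hi.symm.trans hj)
        refine ⟨(i, j), ?_, Prod.ext hi hj⟩
        rw [mem_filter]
        refine ⟨mem_univ _, hij, hfinj ?_⟩
        rw [← hc i j hij, hi, hj]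
        exact h6
    rw [h2, hf k] at h1
    omega

end Pool.Agent.Lib.EPS9
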