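import Pool.Agent.Lib.MP_c7e7f6_eps.ExtDig
import Pool.Agent.Lib.MP_c7e7f6_eps.Tree
import Pool.Agent.Lib.MP_c7e7f6_eps.RedTop

/-!
Tables of configurations: adding and replacing points.
-/

set_option autoImplicit false
set_option linter.unusedVariables false

namespace Pool.Agent.Lib.EPS9

/-- codes are symmetric, zero on the diagonal and at most six -/
structure Sy {ι : Type} (c : ι → ι → ℕ) : Prop where
  symm : ∀ i j, c i j = c j i
  self : ∀ i, c i i = 0
  le : ∀ i j, c i j ≤ 6

section

variable {ι : Type} {c : ι → ι → ℕ}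

/-- `w` is the table of the codes of the first `m` points of `f` -/
def Tb (c : ι → ι → ℕ) (w m : ℕ) (f : ℕ → ι) : Prop :=
  ∀ i j, j < 16 → cl w i j = if i < m ∧ j < m then c (f i) (f j) else 0

/-- `v` is the vector of the codes of `P` and the first `m` points of `f` -/
def Vp (c : ι → ι → ℕ) (v m : ℕ) (P : ι) (f : ℕ → ι) : Prop :=
  ∀ i, fld v i = if i < m then c P (f i) else 0

/-- change of one point -/
def ups (f : ℕ → ι) (a : ℕ) (P : ι) (i : ℕ) : ι := if i = a then P else f i

theorem ups_self (f : ℕ → ι) (a : ℕ) (P : ι) : ups f a P a = P := if_pos rfl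

theorem ups_ne (f : ℕ → ι) {a i : ℕ} (P : ι) (h : i ≠ a) : ups f a P i = f i := if_neg h

theorem fld_row (x a i j : ℕ) (hx : ∀ t, 16 ≤ t → fld x t = 0) (hj : j < 16) :
    fld (Nat.shiftLeft x (3 * (16 * a))) (16 * i + j) = if i = a then fld x j else 0 := by
  rw [fld_shl]
  rcases lt_trichotomy i a with h | h | h
  · rw [if_pos (by omega), if_neg (by omega)]
  · subst h
    rw [if_neg (by omega), if_pos rfl]
    congr 1
    omega
  · rw [if_neg (by omega), if_neg (by omega)]
    exact hx _ (by omega)

theorem fld_col (x : ℕ) {a : ℕ} (i : ℕ) {j : ℕ} (ha : a < 16) (hj : j < 16) :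
    fld (Nat.shiftLeft (spr x) (3 * a)) (16 * i + j)
      = if j = a ∧ i < 8 then fld x i else 0 := by
  rw [fld_shl, fld_spr]
  by_cases h : j = a
  · subst h
    rw [if_neg (by omega), show (16 * i + j - j) % 16 = 0 by omega,
      show (16 * i + j - j) / 16 = i by omega]
    simp
  · rw [if_neg (show ¬ (j = a ∧ i < 8) from fun h1 => h h1.1)]
    split_ifs with h1 h2
    · rfl
    · omega
    · rfl

theorem e16 (e : ℕ) : 16 * (e / 16) + e % 16 = e := by omega

theorem rp_addv (hc : Sy c) {w v m : ℕ} {P : ι} {f : ℕ → ι} (hm : m ≤ 8) (hw : Tb c w m f)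
    (hv : Vp c v m P f) : Tb c (addv w m v) (m + 1) (ups f m P) := by
  have h : addv w m v = w + Nat.shiftLeft (spr v) (3 * m) + Nat.shiftLeft v (3 * (16 * m)) := by
    rw [show 3 * (16 * m) = 48 * m by ring]
    rfl
  have hv16 : ∀ t, 16 ≤ t → fld v t = 0 := by
    intro t ht
    rw [hv, if_neg (by omega)]
  have A : ∀ i j, j < 16 → fld w (16 * i + j) = if i < m ∧ j < m then c (f i) (f j) else 0 := by
    intro i j hj
    rw [← cl_eq]
    exact hw i j hj
  have B : ∀ i j, j < 16 → fld (Nat.shiftLeft (spr v) (3 * m)) (16 * i + j)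
      = if j = m ∧ i < m then c P (f i) else 0 := by
    intro i j hj
    rw [fld_col v i (by omega) hj, hv]
    by_cases h1 : j = m
    · by_cases h2 : i < m
      · rw [if_pos ⟨h1, by omega⟩, if_pos h2, if_pos ⟨h1, h2⟩]
      · rw [if_neg h2, if_neg (show ¬ (j = m ∧ i < m) from fun h3 => h2 h3.2)]
        split_ifs <;> rfl
    · rw [if_neg (fun h3 => h1 h3.1), if_neg (fun h3 => h1 h3.1)]
  have C : ∀ i j, j < 16 → fld (Nat.shiftLeft v (3 * (16 * m))) (16 * i + j)
      = if i = m ∧ j < m then c P (f j) else 0 := by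
    intro i j hj
    rw [fld_row v m i j hv16 hj, hv]
    by_cases h1 : i = m
    · by_cases h2 : j < m
      · rw [if_pos h1, if_pos h2, if_pos ⟨h1, h2⟩]
      · rw [if_pos h1, if_neg h2, if_neg (fun h3 => h2 h3.2)]
    · rw [if_neg h1, if_neg (fun h3 => h1 h3.1)]
  have le := hc.le
  have AB : ∀ i j, j < 16 → fld (w + Nat.shiftLeft (spr v) (3 * m)) (16 * i + j)
      = (if i < m ∧ j < m then c (f i) (f j) else 0)
        + (if j = m ∧ i < m then c P (f i) else 0) := by
    intro i j hj
    rw [fld_plus, A i j hj, B i j hj]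
    intro e
    rw [← e16 e, A _ _ (Nat.mod_lt _ (by norm_num)), B _ _ (Nat.mod_lt _ (by norm_num))]
    have l1 := le (f (e / 16)) (f (e % 16))
    have l2 := le P (f (e / 16))
    split_ifs <;> omega
  intro i j hj
  rw [cl_eq, h, fld_plus, AB i j hj, C i j hj]
  · by_cases h1 : i < m
    · by_cases h2 : j < m
      · rw [if_pos ⟨h1, h2⟩, if_neg (by omega), if_neg (by omega), if_pos (by omega),
          ups_ne f P (by omega), ups_ne f P (by omega)]
        rfl
      · by_cases h3 : j = m
        · subst h3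
          rw [if_neg (by omega), if_pos ⟨rfl, h1⟩, if_neg (by omega), if_pos (by omega),
            ups_ne f P (by omega), ups_self, hc.symm]
          simp
        · rw [if_neg (by omega), if_neg (by omega), if_neg (by omega), if_neg (by omega)]
    · by_cases h4 : i = m
      · subst h4
        by_cases h2 : j < i
        · rw [if_neg (by omega), if_neg (by omega), if_pos ⟨rfl, h2⟩, if_pos (by omega),
            ups_self, ups_ne f P (by omega)]
          simp
        · by_cases h3 : j = i
          · subst h3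
            simp [ups_self, hc.self]
          · rw [if_neg (by omega), if_neg (by omega), if_neg (by omega), if_neg (by omega)]
      · rw [if_neg (by omega), if_neg (by omega), if_neg (by omega), if_neg (by omega)]
  · intro e
    rw [← e16 e, AB _ _ (Nat.mod_lt _ (by norm_num)), C _ _ (Nat.mod_lt _ (by norm_num))]
    have l1 := le (f (e / 16)) (f (e % 16))
    have l2 := le P (f (e / 16))
    have l3 := le P (f (e % 16))
    split_ifs <;> omega

theorem vp_snoc (hc : Sy c) {v m : ℕ} {P Q : ι} {f : ℕ → ι} (hv : Vp c v m P f) :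
    Vp c (v + Nat.shiftLeft (c P Q) (3 * m)) (m + 1) P (ups f m Q) := by
  have le := hc.le P Q
  have h1 := fld_shlv (v := c P Q) (by omega) m
  intro i
  rw [fld_plus, hv, h1]
  · rcases lt_trichotomy i m with h | h | h
    · rw [if_pos h, if_neg (by omega), if_pos (by omega), ups_ne f Q (by omega)]
      rfl
    · rw [if_neg (by omega), if_pos h, if_pos (by omega), h, ups_self, zero_add]
    · rw [if_neg (by omega), if_neg (by omega), if_neg (by omega)]
  · intro i
    rw [hv, h1]
    have l2 := hc.le P (f i)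
    split_ifs <;> omega

theorem rp_rep (hc : Sy c) {w v a : ℕ} {P : ι} {f : ℕ → ι} (ha : a < 6) (hw : Tb c w 6 f)
    (hv : ∀ i, i ≠ a → fld v i = if i < 6 then c P (f i) else 0) :
    Tb c (rep w (3 * a) v) 6 (ups f a P) := by
  set R := rowN w (3 * a) with hR
  set v' := clz v (3 * a) with hv'
  have h : rep w (3 * a) v = ((w - Nat.shiftLeft R (3 * (16 * a)))
      - Nat.shiftLeft (spr R) (3 * a)) + Nat.shiftLeft (spr v') (3 * a)
      + Nat.shiftLeft v' (3 * (16 * a)) := by
    rw [show 3 * (16 * a) = 16 * (3 * a) by ring]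
    rfl
  have le := hc.le
  have R1 : ∀ i, fld R i = if i < 6 then c (f a) (f i) else 0 := by
    intro i
    rw [hR, fld_rowN]
    split_ifs with h1 h2 h2
    · rw [← cl_eq, hw a i h1, if_pos ⟨ha, h2⟩]
    · rw [← cl_eq, hw a i h1, if_neg (fun h3 => h2 h3.2)]
    · omega
    · rfl
  have V1 : ∀ i, fld v' i = if i ≠ a ∧ i < 6 then c P (f i) else 0 := by
    intro i
    rw [hv', fld_clz]
    by_cases h1 : i = a
    · rw [if_pos h1, if_neg (fun h2 => h2.1 h1)]
    · rw [if_neg h1, hv i h1]
      by_cases h2 : i < 6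
      · rw [if_pos h2, if_pos ⟨h1, h2⟩]
      · rw [if_neg h2, if_neg (fun h3 => h2 h3.2)]
  have A : ∀ i j, j < 16 → fld w (16 * i + j) = if i < 6 ∧ j < 6 then c (f i) (f j) else 0 := by
    intro i j hj
    rw [← cl_eq]
    exact hw i j hj
  have X1 : ∀ i j, j < 16 → fld (Nat.shiftLeft R (3 * (16 * a))) (16 * i + j)
      = if i = a ∧ j < 6 then c (f a) (f j) else 0 := by
    intro i j hj
    rw [fld_row R a i j (fun t ht => by rw [R1, if_neg (by omega)]) hj, R1]
    split_ifs <;> first | rfl | omega
  have X2 : ∀ i j, j < 16 → fld (Nat.shiftLeft (spr R) (3 * a)) (16 * i + j)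
      = if j = a ∧ i < 6 then c (f a) (f i) else 0 := by
    intro i j hj
    rw [fld_col R i (by omega) hj, R1]
    split_ifs <;> first | rfl | omega
  have X3 : ∀ i j, j < 16 → fld (Nat.shiftLeft (spr v') (3 * a)) (16 * i + j)
      = if j = a ∧ i ≠ a ∧ i < 6 then c P (f i) else 0 := by
    intro i j hj
    rw [fld_col v' i (by omega) hj, V1]
    split_ifs <;> first | rfl | omega
  have X4 : ∀ i j, j < 16 → fld (Nat.shiftLeft v' (3 * (16 * a))) (16 * i + j)
      = if i = a ∧ j ≠ a ∧ j < 6 then c P (f j) else 0 := by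
    intro i j hj
    rw [fld_row v' a i j (fun t ht => by rw [V1, if_neg (by omega)]) hj, V1]
    split_ifs <;> first | rfl | omega
  have Y1 : ∀ i j, j < 16 → fld (w - Nat.shiftLeft R (3 * (16 * a))) (16 * i + j)
      = if i ≠ a ∧ i < 6 ∧ j < 6 then c (f i) (f j) else 0 := by
    intro i j hj
    rw [fld_minus, A i j hj, X1 i j hj]
    · by_cases h1 : i = a
      · subst h1
        split_ifs <;> omega
      · split_ifs <;> omega
    · intro e
      rw [← e16 e, A _ _ (Nat.mod_lt _ (by norm_num)), X1 _ _ (Nat.mod_lt _ (by norm_num))]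
      by_cases h1 : e / 16 = a
      · rw [h1]
        split_ifs <;> omega
      · split_ifs <;> omega
  have Y2 : ∀ i j, j < 16 → fld ((w - Nat.shiftLeft R (3 * (16 * a)))
      - Nat.shiftLeft (spr R) (3 * a)) (16 * i + j)
      = if i ≠ a ∧ j ≠ a ∧ i < 6 ∧ j < 6 then c (f i) (f j) else 0 := by
    have key : ∀ i j, j < 16 → (if j = a ∧ i < 6 then c (f a) (f i) else 0)
        ≤ (if i ≠ a ∧ i < 6 ∧ j < 6 then c (f i) (f j) else 0) := by
      intro i j hj
      by_cases h1 : j = a
      · subst h1
        by_cases h2 : i = j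
        · subst h2
          rw [hc.self]
          split_ifs <;> omega
        · rw [hc.symm (f j) (f i)]
          split_ifs <;> omega
      · rw [if_neg (fun h2 => h1 h2.1)]
        exact Nat.zero_le _
    intro i j hj
    rw [fld_minus, Y1 i j hj, X2 i j hj]
    · by_cases h1 : j = a
      · subst h1
        by_cases h2 : i = j
        · subst h2
          rw [hc.self]
          split_ifs <;> omega
        · rw [hc.symm (f j) (f i)]
          split_ifs <;> omega
      · split_ifs <;> omega
    · intro e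
      rw [← e16 e, Y1 _ _ (Nat.mod_lt _ (by norm_num)), X2 _ _ (Nat.mod_lt _ (by norm_num))]
      exact key _ _ (Nat.mod_lt _ (by norm_num))
  have Y3 : ∀ i j, j < 16 → fld ((w - Nat.shiftLeft R (3 * (16 * a)))
      - Nat.shiftLeft (spr R) (3 * a) + Nat.shiftLeft (spr v') (3 * a)) (16 * i + j)
      = (if i ≠ a ∧ j ≠ a ∧ i < 6 ∧ j < 6 then c (f i) (f j) else 0)
        + if j = a ∧ i ≠ a ∧ i < 6 then c P (f i) else 0 := by
    intro i j hj
    rw [fld_plus, Y2 i j hj, X3 i j hj]
    intro e
    rw [← e16 e, Y2 _ _ (Nat.mod_lt _ (by norm_num)), X3 _ _ (Nat.mod_lt _ (by norm_num))]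
    have l1 := le (f (e / 16)) (f (e % 16))
    have l2 := le P (f (e / 16))
    split_ifs <;> omega
  intro i j hj
  rw [cl_eq, h, fld_plus, Y3 i j hj, X4 i j hj]
  · by_cases h1 : i = a
    · subst h1
      by_cases h2 : j = i
      · subst h2
        rw [ups_self, hc.self P]
        split_ifs <;> omega
      · rw [ups_self, ups_ne f P h2]
        split_ifs <;> omega
    · rw [ups_ne f P h1]
      by_cases h2 : j = a
      · subst h2
        rw [ups_self, hc.symm (f i) P]
        split_ifs <;> omega
      · rw [ups_ne f P h2]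
        split_ifs <;> omega
  · intro e
    rw [← e16 e, Y3 _ _ (Nat.mod_lt _ (by norm_num)), X4 _ _ (Nat.mod_lt _ (by norm_num))]
    have l1 := le (f (e / 16)) (f (e % 16))
    have l2 := le P (f (e / 16))
    have l3 := le P (f (e % 16))
    split_ifs <;> omega

theorem vp_sez (hc : Sy c) {v m a : ℕ} {P Q : ι} {f : ℕ → ι} (ha : a < m)
    (hv : ∀ i, i ≠ a → fld v i = if i < m then c P (f i) else 0) :
    Vp c (sez v (3 * a) (c P Q)) m P (ups f a Q) := by
  intro i
  rw [fld_sez v a (by have := hc.le P Q; omega)]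
  by_cases h1 : i = a
  · subst h1
    rw [if_pos rfl, if_pos ha, ups_self]
  · rw [if_neg h1, hv i h1, ups_ne f Q h1]

end

end Pool.Agent.Lib.EPS9
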