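import Pool.Agent.Lib.MP_c7e7f6_eps.ExtMul

/-!
Extension of the colourings of six points: words, nine points, lists of entries.
-/

set_option autoImplicit false
set_option linter.unusedVariables false

namespace Pool.Agent.Lib.EPS9

open Finset

theorem chkR_spec {KT : Kt} {RW : ℕ} {t : Tr} {lo hi : ℕ} (h : chkR KT RW t lo hi = true) :
    ∀ i, lo ≤ i → i < hi → OkI KT RW i := by
  induction t generalizing lo with
  | z =>
    intro i h1 h2
    have h3 : lo = hi := Nat.eq_of_beq_eq_true h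
    omega
  | n alts l r ihl ihr =>
    intro i h1 h2
    obtain ⟨h3, h4⟩ := cnd_true (show cnd
      (Tr.rec (motive := fun _ => Bool) false
        (fun ks t1 r _ _ => Tr.rec (motive := fun _ => Bool) false
          (fun pB t2 r _ _ => Tr.rec (motive := fun _ => Bool) false
            (fun _ t3 r _ _ => Tr.rec (motive := fun _ => Bool) false
              (fun _ t4 _ _ _ => chkI KT RW lo alts ks pB t1 t2 t3 t4) r) r) r) l)
      (chkR KT RW r (lo + 1) hi) = true from h)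
    rcases Nat.lt_or_ge lo i with h5 | h5
    · exact ihr h4 i h5 h2
    · have h6 : i = lo := by omega
      subst h6
      cases l with
      | z => exact absurd (show false = true from h3) Bool.false_ne_true
      | n ks t1 l1 =>
        cases l1 with
        | z => exact absurd (show false = true from h3) Bool.false_ne_true
        | n pB t2 l2 =>
          cases l2 with
          | z => exact absurd (show false = true from h3) Bool.false_ne_true
          | n u3 t3 l3 =>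
            cases l3 with
            | z => exact absurd (show false = true from h3) Bool.false_ne_true
            | n u4 t4 l4 => exact ⟨alts, ks, pB, t1, t2, t3, t4, h3⟩

/-! ### The table of a word -/

/-- the codes of the word number `i` -/
theorem word_fld (RW i t : ℕ) : fld (Nat.land (Nat.shiftRight RW (Nat.mul 45 i)) (msk 45)) t
    = if t < 15 then went RW i t else 0 := by
  have h : Nat.land (Nat.shiftRight RW (Nat.mul 45 i)) (msk 45)
      = Nat.land (Nat.shiftRight RW (3 * (15 * i))) (msk (3 * 15)) := by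
    rw [show 3 * (15 * i) = 45 * i by ring]
    rfl
  rw [h, fld_msk, fld_shr, ← fld_eq]
  have h2 : Nat.mul 3 (15 * i + t) = 45 * i + 3 * t := by
    show 3 * (15 * i + t) = _
    ring
  rw [h2]
  rfl

section

variable {ι : Type} {c : ι → ι → ℕ}

/-- the labelled configuration -/
def lab (p : Fin 6 → ι) (σ : Equiv.Perm (Fin 6)) (a : ℕ) : ι :=
  p (σ ⟨a % 6, Nat.mod_lt _ (by norm_num)⟩)

theorem lab_fu {p : Fin 6 → ι} (hp : Full c p) (σ : Equiv.Perm (Fin 6)) : Fu c (lab p σ) := by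
  intro a b ha hb hab
  apply hp.2
  intro h
  have h1 := congrArg (fun t : Fin 6 => (t : ℕ)) (σ.injective h)
  simp only at h1
  omega

theorem lab_ex (p : Fin 6 → ι) (σ : Equiv.Perm (Fin 6)) (t : Fin 6) :
    ∃ a < 6, lab p σ a = p t := by
  refine ⟨σ.symm t, Fin.is_lt _, ?_⟩
  unfold lab
  congr 1
  have h1 : (⟨(σ.symm t : ℕ) % 6, Nat.mod_lt _ (by norm_num)⟩ : Fin 6) = σ.symm t :=
    Fin.ext (Nat.mod_eq_of_lt (Fin.is_lt _))
  rw [h1, Equiv.apply_symm_apply]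

theorem wT_tb (hc : Sy c) {RW i : ℕ} {p : Fin 6 → ι} (h : Iso RW i c p) :
    ∃ σ : Equiv.Perm (Fin 6), Tb c (wT RW i) 6 (lab p σ) ∧
      (∀ t < 15, fld (Nat.land (Nat.shiftRight RW (Nat.mul 45 i)) (msk 45)) t
        = c (lab p σ (ei t)) (lab p σ (ej t))) ∧
      fld (Nat.land (Nat.shiftRight RW (Nat.mul 45 i)) (msk 45)) 15 = 0 := by
  obtain ⟨σ, hσ⟩ := h
  have h1 : ∀ t < 15, fld (Nat.land (Nat.shiftRight RW (Nat.mul 45 i)) (msk 45)) t
      = c (lab p σ (ei t)) (lab p σ (ej t)) := by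
    intro t ht
    rw [word_fld, if_pos ht]
    obtain ⟨h2, h3⟩ := ei_lt ht
    exact hσ t ht _ _ (Nat.mod_eq_of_lt (by omega)) (Nat.mod_eq_of_lt h3)
  refine ⟨σ, ?_, h1, by rw [word_fld, if_neg (by norm_num)]⟩
  have h2 : wT RW i = Wt (fld (Nat.land (Nat.shiftRight RW (Nat.mul 45 i)) (msk 45))) 15 :=
    wOf_zero 15 _
  have h3 : ∀ t, fld (Nat.land (Nat.shiftRight RW (Nat.mul 45 i)) (msk 45)) t < 8 :=
    fun t => fld_lt _ t
  intro a b hb
  rw [h2]
  rcases Nat.lt_or_ge a 6 with ha | ha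
  · rcases Nat.lt_or_ge b 6 with hb6 | hb6
    · rw [if_pos ⟨ha, hb6⟩]
      by_cases hab : a = b
      · subst hab
        rw [hc.self]
        refine cl_Wt_zero h3 le_rfl (by omega) (by omega) fun t ht => ?_
        obtain ⟨h4, h5⟩ := ei_lt ht
        omega
      · obtain ⟨t, ht, h4 | h4⟩ := pr_ex ha hb6 hab
        · obtain ⟨e1, e2⟩ := h4
          rw [← e1, ← e2, (cl_Wt h3 le_rfl ht).1, h1 t ht]
        · obtain ⟨e1, e2⟩ := h4
          rw [← e1, ← e2, (cl_Wt h3 le_rfl ht).2, h1 t ht, hc.symm]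
    · rw [if_neg (by omega)]
      refine cl_Wt_zero h3 le_rfl (by omega) (by omega) fun t ht => ?_
      obtain ⟨h4, h5⟩ := ei_lt ht
      omega
  · rw [if_neg (by omega)]
    rw [cl_eq]
    refine (Wt_fld h3 15 le_rfl).2 _ fun t ht => ?_
    obtain ⟨h4, h5⟩ := ei_lt ht
    unfold pa pb
    constructor <;> omega

theorem Fu.ij (hc : Sy c) {f : ℕ → ι} (h : Fu c f) : Ij f 6 :=
  fun _ _ ha hb hab => h.inj hc ha hb hab

theorem Fu.ups (hc : Sy c) {f : ℕ → ι} (h : Fu c f) {a : ℕ} {P : ι}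
    (hP : ∀ b, b < 6 → b ≠ a → c P (f b) ≠ 0) : Fu c (ups f a P) := by
  intro i j hi hj hij
  by_cases h1 : i = a
  · subst h1
    rw [ups_self, ups_ne f P (Ne.symm hij)]
    exact hP j hj (Ne.symm hij)
  · rw [ups_ne f P h1]
    by_cases h2 : j = a
    · subst h2
      rw [ups_self, hc.symm]
      exact hP i hi h1
    · rw [ups_ne f P h2]
      exact h i j hi hj hij

/-! ### Vectors -/

theorem lt_of_fld {v n : ℕ} (h : ∀ i, n ≤ i → fld v i = 0) : v < 8 ^ n := by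
  have e : v = v % 8 ^ n := by
    apply fld_ext
    intro i
    rcases Nat.lt_or_ge i n with h1 | h1
    · rw [fld_mod v n h1]
    · rw [h i h1, fld_of_lt (Nat.mod_lt _ (by positivity)) h1]
  rw [e]
  exact Nat.mod_lt _ (by positivity)

theorem Vp.lt {v m : ℕ} {P : ι} {f : ℕ → ι} (h : Vp c v m P f) : v < 8 ^ m := by
  apply lt_of_fld
  intro i hi
  rw [h i, if_neg (by omega)]

/-- the codes of an entry, if the replaced point is not joined to the new point -/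
theorem Ent.vp {RW : ℕ} {f : ℕ → ι} {p : ℕ} {τ : ℕ → ℕ} {P : ι} {E j : ℕ}
    (h : Ent RW c f p τ P E j) (hz : c P (f (τ 5)) = 0) :
    Vp c (vecOf E (Nat.shiftRight (pw p) 90)) 6 P f := by
  intro i
  rw [h.vec]
  by_cases h1 : i < 6
  · by_cases h2 : i = τ 5
    · rw [if_neg (fun h3 => h3.2 h2), if_pos h1, h2, hz]
    · rw [if_pos ⟨h1, h2⟩, if_pos h1]
  · rw [if_neg (fun h3 => h1 h3.1), if_neg h1]

end

/-! ### Lists of entries of 21, 18, 24 bits -/

theorem div_shift (R s m k : ℕ) : Nat.shiftRight (R / 2 ^ (s * m)) s / 2 ^ (s * k)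
    = R / 2 ^ (s * (m + 1 + k)) := by
  rw [shr, Nat.div_div_eq_div_mul, Nat.div_div_eq_div_mul, ← pow_add, ← pow_add]
  congr 2
  ring

theorem land7_mod (R : ℕ) : Nat.land R 7 = R % 8 := land7 R

/-- an entry `a + 8 v` -/
theorem ent_dec {R a v n : ℕ} (h : R % 2 ^ (3 * n + 3) = a + 8 * v) (ha : a < 8) (hv : v < 8 ^ n) :
    Nat.land R 7 = a ∧ Nat.land (Nat.shiftRight R 3) (msk (3 * n)) = v := by
  have e1 : (2 : ℕ) ^ (3 * n + 3) = 8 * 8 ^ n := by
    rw [pow_add, pow_mul]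
    norm_num
    ring
  have e2 : (2 : ℕ) ^ (3 * n) = 8 ^ n := by
    rw [pow_mul]
    norm_num
  rw [e1] at h
  rw [land7, msk_mod, shr, e2]
  have h1 : R % 8 = (R % (8 * 8 ^ n)) % 8 := (Nat.mod_mul_right_mod R 8 (8 ^ n)).symm
  have h2 : R / 8 % 8 ^ n = R % (8 * 8 ^ n) / 8 := (Nat.mod_mul_right_div_self R 8 (8 ^ n)).symm
  constructor
  · rw [h1, h]
    omega
  · rw [show (2 : ℕ) ^ 3 = 8 by norm_num, h2, h]
    omega

theorem ne_of_mod {R m E : ℕ} (h : R % m = E) (hE : E ≠ 0) : R ≠ 0 := by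
  rintro rfl
  rw [Nat.zero_mod] at h
  exact hE h.symm

/-! ### The missing pairs -/

/-- the colouring of the missing pairs -/
def cz (c : Fin 9 → Fin 9 → ℕ) (a b : Fin 9) : ℕ := if a ≠ b ∧ c a b = 0 then 1 else 0

theorem cz_sy {c : Fin 9 → Fin 9 → ℕ} (hc : Sy c) : Sy (cz c) where
  symm i j := by
    unfold cz
    rw [hc.symm]
    by_cases h : i = j
    · rw [h]
    · have h' : j ≠ i := fun h1 => h h1.symm
      simp [h, h']
  self i := by
    unfold cz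
    rw [if_neg (fun h => h.1 rfl)]
  le i j := by
    unfold cz
    split_ifs <;> omega

theorem Nine.sy {D : Fin 9 → Fin 9 → ℝ} {x : Fin 6 → ℝ} {c : Fin 9 → Fin 9 → ℕ}
    (h : Nine D x c) : Sy c := h.toPc.sy

/-- the nine points have three missing pairs -/
theorem Nine.cz3 {D : Fin 9 → Fin 9 → ℝ} {x : Fin 6 → ℝ} {c : Fin 9 → Fin 9 → ℕ}
    (h : Nine D x c) {g : ℕ → Fin 9} (hg : Ij g 9) : qq (cz c) g 9 1 = 3 := by
  rw [qq_nine (cz_sy h.sy) hg le_rfl, ← h.zero]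
  congr 1
  ext p
  rw [Finset.mem_filter, Finset.mem_filter]
  refine and_congr_right fun _ => and_congr_right fun h1 => ?_
  unfold cz
  have h2 := h1.ne
  by_cases h3 : c p.1 p.2 = 0
  · rw [if_pos ⟨h2, h3⟩]
    simp [h3]
  · rw [if_neg (fun h4 => h3 h4.2)]
    simp [h3]

/-- the multiplicities of the nine points -/
def mul9 (c : Fin 9 → Fin 9 → ℕ) (e : ℕ) : ℕ :=
  ((univ : Finset (Fin 9 × Fin 9)).filter (fun p => p.1 < p.2 ∧ c p.1 p.2 = e)).card

theorem Nine.mu {D : Fin 9 → Fin 9 → ℝ} {x : Fin 6 → ℝ} {c : Fin 9 → Fin 9 → ℕ}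
    (h : Nine D x c) : Mu (mul9 c) := by
  obtain ⟨π, hπ⟩ := h.cnt
  exact mu_of π hπ

theorem Nine.qq9 {D : Fin 9 → Fin 9 → ℝ} {x : Fin 6 → ℝ} {c : Fin 9 → Fin 9 → ℕ}
    (h : Nine D x c) {g : ℕ → Fin 9} (hg : Ij g 9) {e : ℕ} (he : 1 ≤ e) :
    qq c g 9 e = mul9 c e := qq_nine h.sy hg he

/-- two of three different missing pairs have the same distance -/
theorem Nine.or {D : Fin 9 → Fin 9 → ℝ} {x : Fin 6 → ℝ} {c : Fin 9 → Fin 9 → ℕ}
    (h : Nine D x c) {a b a' b' a'' b'' : Fin 9} (h1 : a ≠ b) (h2 : a' ≠ b') (h3 : a'' ≠ b'')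
    (z1 : c a b = 0) (z2 : c a' b' = 0) (z3 : c a'' b'' = 0)
    (n12 : ¬ (a = a' ∧ b = b') ∧ ¬ (a = b' ∧ b = a'))
    (n13 : ¬ (a = a'' ∧ b = b'') ∧ ¬ (a = b'' ∧ b = a''))
    (n23 : ¬ (a' = a'' ∧ b' = b'') ∧ ¬ (a' = b'' ∧ b' = a'')) :
    D a b = D a' b' ∨ D a b = D a'' b'' ∨ D a' b' = D a'' b'' := by
  have hs := h.symm
  have hd := h.geo.symm
  -- ordered pairs
  have ord : ∀ {a b : Fin 9}, a ≠ b → c a b = 0 → ∃ u v, u < v ∧ c u v = 0 ∧ D u v = D a b ∧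
      ((u = a ∧ v = b) ∨ (u = b ∧ v = a)) := by
    intro a b hab hz
    rcases lt_or_gt_of_ne hab with h4 | h4
    · exact ⟨a, b, h4, hz, rfl, Or.inl ⟨rfl, rfl⟩⟩
    · exact ⟨b, a, h4, by rw [hs]; exact hz, hd b a, Or.inr ⟨rfl, rfl⟩⟩
  obtain ⟨u, v, o1, o2, o3, o4⟩ := ord h1 z1
  obtain ⟨u', v', o1', o2', o3', o4'⟩ := ord h2 z2
  obtain ⟨u'', v'', o1'', o2'', o3'', o4''⟩ := ord h3 z3
  rw [← o3, ← o3', ← o3'']
  refine h.mis u v u' v' u'' v'' o1 o1' o1'' o2 o2' o2'' ?_ ?_ ?_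
  · intro h5
    obtain ⟨h6, h7⟩ := Prod.mk.inj h5
    rcases o4 with ⟨p1, p2⟩ | ⟨p1, p2⟩ <;> rcases o4' with ⟨p3, p4⟩ | ⟨p3, p4⟩
    · exact n12.1 ⟨p1.symm.trans (h6.trans p3), p2.symm.trans (h7.trans p4)⟩
    · exact n12.2 ⟨p1.symm.trans (h6.trans p3), p2.symm.trans (h7.trans p4)⟩
    · exact n12.2 ⟨p2.symm.trans (h7.trans p4), p1.symm.trans (h6.trans p3)⟩
    · exact n12.1 ⟨p2.symm.trans (h7.trans p4), p1.symm.trans (h6.trans p3)⟩
  · intro h5
    obtain ⟨h6, h7⟩ := Prod.mk.inj h5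
    rcases o4 with ⟨p1, p2⟩ | ⟨p1, p2⟩ <;> rcases o4'' with ⟨p3, p4⟩ | ⟨p3, p4⟩
    · exact n13.1 ⟨p1.symm.trans (h6.trans p3), p2.symm.trans (h7.trans p4)⟩
    · exact n13.2 ⟨p1.symm.trans (h6.trans p3), p2.symm.trans (h7.trans p4)⟩
    · exact n13.2 ⟨p2.symm.trans (h7.trans p4), p1.symm.trans (h6.trans p3)⟩
    · exact n13.1 ⟨p2.symm.trans (h7.trans p4), p1.symm.trans (h6.trans p3)⟩
  · intro h5
    obtain ⟨h6, h7⟩ := Prod.mk.inj h5
    rcases o4' with ⟨p1, p2⟩ | ⟨p1, p2⟩ <;> rcases o4'' with ⟨p3, p4⟩ | ⟨p3, p4⟩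
    · exact n23.1 ⟨p1.symm.trans (h6.trans p3), p2.symm.trans (h7.trans p4)⟩
    · exact n23.2 ⟨p1.symm.trans (h6.trans p3), p2.symm.trans (h7.trans p4)⟩
    · exact n23.2 ⟨p2.symm.trans (h7.trans p4), p1.symm.trans (h6.trans p3)⟩
    · exact n23.1 ⟨p2.symm.trans (h7.trans p4), p1.symm.trans (h6.trans p3)⟩

end Pool.Agent.Lib.EPS9
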