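import Pool.Agent.Lib.MP_c7e7f6_eps.ExtNine

/-!
Task RED: from eight distances with multiplicities 1, ..., 8 to six known distances.
-/

set_option autoImplicit false

namespace Pool.Agent.Lib.EPS9

open Finset

namespace Red

/-- the ordered form of a pair -/
def od (i j : Fin 9) : Fin 9 × Fin 9 := if i < j then (i, j) else (j, i)

lemma od_lt {i j : Fin 9} (h : i ≠ j) : (od i j).1 < (od i j).2 := by
  unfold od
  split_ifs with h1
  · exact h1
  · exact lt_of_le_of_ne (not_lt.1 h1) h.symm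

lemma od_cases (i j : Fin 9) : od i j = (i, j) ∨ od i j = (j, i) := by
  unfold od
  split_ifs
  · exact Or.inl rfl
  · exact Or.inr rfl

lemma od_inj {i j k : Fin 9} (h : od i j = od i k) : j = k := by
  rcases od_cases i j with h1 | h1 <;> rcases od_cases i k with h2 | h2 <;> rw [h1, h2] at h
  · exact (Prod.mk.inj h).2
  · have := Prod.mk.inj h
    rw [this.2, ← this.1]
  · have := Prod.mk.inj h
    rw [this.1, this.2]
  · exact (Prod.mk.inj h).1

/-- the code of a colour -/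
def cd (τ : Equiv.Perm (Fin 6)) (k : Fin 8) : ℕ :=
  if h : (k : ℕ) < 2 then 0 else (τ.symm ⟨(k : ℕ) - 2, by omega⟩ : ℕ) + 1

lemma cd_zero {τ : Equiv.Perm (Fin 6)} {k : Fin 8} : cd τ k = 0 ↔ (k : ℕ) < 2 := by
  unfold cd
  split_ifs with h
  · exact ⟨fun _ => h, fun _ => rfl⟩
  · exact ⟨fun h1 => h1.elim, fun h1 => absurd h1 h⟩

lemma cd_succ {τ : Equiv.Perm (Fin 6)} {k : Fin 8} {l : Fin 6} :
    cd τ k = (l : ℕ) + 1 ↔ (k : ℕ) = (τ l : ℕ) + 2 := by
  unfold cd
  split_ifs with h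
  · exact ⟨fun h1 => h1.elim, fun h1 => by omega⟩
  · constructor
    · intro h1
      have h2 : τ.symm ⟨(k : ℕ) - 2, by omega⟩ = l := Fin.ext (Nat.succ_injective h1)
      rw [Equiv.symm_apply_eq] at h2
      have h3 := congrArg Fin.val h2
      simp only at h3
      omega
    · intro h1
      have h2 : (⟨(k : ℕ) - 2, by omega⟩ : Fin 6) = τ l := Fin.ext (by simp only; omega)
      rw [h2, Equiv.symm_apply_apply]

end Red

open Red

/-- task RED -/
theorem red {D : Fin 9 → Fin 9 → ℝ} {y : Fin 8 → ℝ} {c : Fin 9 → Fin 9 → Fin 8} (hg : Geo D)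
    (hy : ∀ k, 0 < y k) (hi : Function.Injective y) (hs : ∀ i j, c i j = c j i)
    (hD : ∀ i j, i ≠ j → D i j = y (c i j))
    (hc : ∀ k, ((univ : Finset (Fin 9 × Fin 9)).filter
      (fun p => p.1 < p.2 ∧ c p.1 p.2 = k)).card = (k : ℕ) + 1) :
    ∃ (x : Fin 6 → ℝ) (c' : Fin 9 → Fin 9 → ℕ), Nine D x c' ∧
      ((∀ i j k, i ≠ j → i ≠ k → c' i j = 0 → c' i k = 0 → j = k) ∨
        ∃ u v, u ≠ v ∧ ∀ i j, i ≠ j → c' i j = 0 → i = u ∨ i = v ∨ j = u ∨ j = v) := by
  obtain ⟨s, hsd⟩ : ∃ s : Fin 6 → ℝ, s = fun k : Fin 6 => y ⟨(k : ℕ) + 2, by omega⟩ := ⟨_, rfl⟩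
  obtain ⟨τ, hτ⟩ : ∃ τ : Equiv.Perm (Fin 6), StrictMono (s ∘ τ) := by
    refine ⟨Tuple.sort s, (Tuple.monotone_sort s).strictMono_of_injective ?_⟩
    refine Function.Injective.comp ?_ (Equiv.injective _)
    intro a b hab
    rw [hsd] at hab
    have h1 := congrArg Fin.val (hi hab)
    simp only at h1
    exact Fin.ext (by omega)
  have key : ∀ (k : Fin 8) (l : Fin 6), (k : ℕ) = (τ l : ℕ) + 2 → y k = s (τ l) := by
    intro k l h
    rw [hsd]
    congr 1
    exact Fin.ext h
  obtain ⟨c', hc'⟩ : ∃ c' : Fin 9 → Fin 9 → ℕ, ∀ i j, c' i j = if i = j then 0 else cd τ (c i j) :=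
    ⟨_, fun _ _ => rfl⟩
  have hne : ∀ i j, i ≠ j → c' i j = cd τ (c i j) := by
    intro i j h
    rw [hc', if_neg h]
  have hsym : ∀ i j, c' i j = c' j i := by
    intro i j
    rw [hc', hc', hs i j]
    by_cases h : i = j
    · rw [if_pos h, if_pos h.symm]
    · rw [if_neg h, if_neg (Ne.symm h)]
  -- the set of the pairs with code 0
  obtain ⟨Z, hZ⟩ : ∃ Z : Finset (Fin 9 × Fin 9),
      Z = (univ : Finset (Fin 9 × Fin 9)).filter (fun p => p.1 < p.2 ∧ c' p.1 p.2 = 0) := ⟨_, rfl⟩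
  have hZc : Z.card = 3 := by
    have h1 : Z = ((univ : Finset (Fin 9 × Fin 9)).filter (fun p => p.1 < p.2 ∧ c p.1 p.2 = 0)) ∪
        ((univ : Finset (Fin 9 × Fin 9)).filter (fun p => p.1 < p.2 ∧ c p.1 p.2 = 1)) := by
      ext p
      rw [hZ, mem_union, mem_filter, mem_filter, mem_filter]
      constructor
      · rintro ⟨h1, h2, h3⟩
        rw [hne _ _ h2.ne, cd_zero] at h3
        have h4 : (c p.1 p.2 : ℕ) = 0 ∨ (c p.1 p.2 : ℕ) = 1 := by omega
        rcases h4 with h4 | h4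
        · exact Or.inl ⟨h1, h2, Fin.ext h4⟩
        · exact Or.inr ⟨h1, h2, Fin.ext h4⟩
      · rintro (⟨h1, h2, h3⟩ | ⟨h1, h2, h3⟩)
        · refine ⟨h1, h2, ?_⟩
          rw [hne _ _ h2.ne, cd_zero, h3]
          decide
        · refine ⟨h1, h2, ?_⟩
          rw [hne _ _ h2.ne, cd_zero, h3]
          decide
    rw [h1, card_union_of_disjoint, hc, hc]
    · decide
    · rw [disjoint_left]
      intro p hp hq
      rw [mem_filter] at hp hq
      have h3 := hp.2.2.symm.trans hq.2.2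
      exact absurd h3 (by decide)
  have hmem : ∀ i j, i ≠ j → c' i j = 0 → od i j ∈ Z := by
    intro i j h h1
    rw [hZ, mem_filter]
    refine ⟨mem_univ _, od_lt h, ?_⟩
    rcases od_cases i j with h2 | h2
    · rw [h2]; exact h1
    · rw [h2]; exact (hsym j i).trans h1
  refine ⟨s ∘ τ, c', ⟨⟨hg, ?_, hτ, hsym, ?_, ?_, ?_⟩, ⟨τ, ?_⟩, ?_, ?_⟩, ?_⟩
  · intro k
    show 0 < s (τ k)
    rw [hsd]
    exact hy _
  · intro i
    rw [hc', if_pos rfl]
  · intro i j
    rw [hc']
    split_ifs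
    · omega
    · unfold cd
      split_ifs
      · omega
      · have h2 := (τ.symm ⟨(c i j : ℕ) - 2, by omega⟩).isLt
        omega
  · intro i j h k hk
    rw [hne i j h, cd_succ] at hk
    rw [hD i j h]
    exact key _ _ hk
  · intro k
    have hk : (τ k : ℕ) + 2 < 8 := by omega
    have h1 := hc ⟨(τ k : ℕ) + 2, hk⟩
    have h2 : (univ : Finset (Fin 9 × Fin 9)).filter (fun p => p.1 < p.2 ∧ c' p.1 p.2 = (k : ℕ) + 1)
        = (univ : Finset (Fin 9 × Fin 9)).filter (fun p => p.1 < p.2 ∧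
          c p.1 p.2 = ⟨(τ k : ℕ) + 2, hk⟩) := by
      ext p
      rw [mem_filter, mem_filter]
      refine and_congr_right fun _ => and_congr_right fun h => ?_
      rw [hne _ _ h.ne, cd_succ]
      exact ⟨fun h3 => Fin.ext h3, fun h3 => congrArg Fin.val h3⟩
    rw [h2, h1]
  · rw [← hZ]; exact hZc
  · intro a b a' b' a'' b'' h h' h'' z z' z'' _ _ _
    rw [hne _ _ h.ne, cd_zero] at z
    rw [hne _ _ h'.ne, cd_zero] at z'
    rw [hne _ _ h''.ne, cd_zero] at z''
    rw [hD _ _ h.ne, hD _ _ h'.ne, hD _ _ h''.ne]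
    have h3 : (c a b : ℕ) = c a' b' ∨ (c a b : ℕ) = c a'' b'' ∨ (c a' b' : ℕ) = c a'' b'' := by
      omega
    rcases h3 with h3 | h3 | h3
    · exact Or.inl (by rw [Fin.ext h3])
    · exact Or.inr (Or.inl (by rw [Fin.ext h3]))
    · exact Or.inr (Or.inr (by rw [Fin.ext h3]))
  · by_cases hfirst : ∀ i j k, i ≠ j → i ≠ k → c' i j = 0 → c' i k = 0 → j = k
    · exact Or.inl hfirst
    · right
      push Not at hfirst
      obtain ⟨i, j, k, hij, hik, h1, h2, hjk⟩ := hfirst
      have m1 := hmem i j hij h1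
      have m2 := hmem i k hik h2
      have hne12 : od i k ≠ od i j := fun h => hjk (od_inj h).symm
      have h3 : ((Z.erase (od i j)).erase (od i k)).card = 1 := by
        rw [card_erase_of_mem (mem_erase.2 ⟨hne12, m2⟩), card_erase_of_mem m1, hZc]
      obtain ⟨q, hq⟩ := card_eq_one.1 h3
      have hcov : ∀ a b, a ≠ b → c' a b = 0 → od a b = od i j ∨ od a b = od i k ∨ od a b = q := by
        intro a b hab h
        by_contra hcon
        push Not at hcon
        have h4 : od a b ∈ (Z.erase (od i j)).erase (od i k) :=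
          mem_erase.2 ⟨hcon.2.1, mem_erase.2 ⟨hcon.1, hmem a b hab h⟩⟩
        rw [hq, mem_singleton] at h4
        exact hcon.2.2 h4
      have hq1 : q.1 ≠ q.2 := by
        have h4 : q ∈ (Z.erase (od i j)).erase (od i k) := by rw [hq]; exact mem_singleton_self q
        have h5 := mem_of_mem_erase (mem_of_mem_erase h4)
        rw [hZ, mem_filter] at h5
        exact h5.2.1.ne
      obtain ⟨v, hv, hiv⟩ : ∃ v, (v = q.1 ∨ v = q.2) ∧ i ≠ v := by
        by_cases h4 : i = q.1
        · exact ⟨q.2, Or.inr rfl, fun h5 => hq1 (h4.symm.trans h5)⟩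
        · exact ⟨q.1, Or.inl rfl, h4⟩
      refine ⟨i, v, hiv, ?_⟩
      intro a b hab h
      rcases hcov a b hab h with h4 | h4 | h4
      · rcases od_cases a b with h5 | h5 <;> rcases od_cases i j with h6 | h6 <;>
          rw [h5, h6, Prod.mk.injEq] at h4
        · exact Or.inl h4.1
        · exact Or.inr (Or.inr (Or.inl h4.2))
        · exact Or.inr (Or.inr (Or.inl h4.1))
        · exact Or.inl h4.2
      · rcases od_cases a b with h5 | h5 <;> rcases od_cases i k with h6 | h6 <;>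
          rw [h5, h6, Prod.mk.injEq] at h4
        · exact Or.inl h4.1
        · exact Or.inr (Or.inr (Or.inl h4.2))
        · exact Or.inr (Or.inr (Or.inl h4.1))
        · exact Or.inl h4.2
      · rcases od_cases a b with h5 | h5
        · rw [h5] at h4
          rcases hv with h6 | h6
          · right; left; rw [h6, ← h4]
          · right; right; right; rw [h6, ← h4]
        · rw [h5] at h4
          rcases hv with h6 | h6
          · right; right; right; rw [h6, ← h4]
          · right; left; rw [h6, ← h4]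

end Pool.Agent.Lib.EPS9
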