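import Pool.Agent.Lib.MP_c7e7f6_eps.ExtB9
import Pool.Agent.Lib.MP_c7e7f6_eps.ExtEL
import Pool.Agent.Lib.MP_c7e7f6_eps.Red

/-!
Nine points: conclusion from the checks.
-/

set_option autoImplicit false

namespace Pool.Agent.Lib.EPS9

open Finset

/-- there are no nine points as in the question, if all checks succeed -/
theorem no_nine {KT : Kt} {RW NR : ℕ} {R : Rt} {t : Tr}
    (hbad : ∀ i < 237, ∃ k t, chkB i k t = true)
    (hRW : ∀ j < NR, ∀ t < 15, went RW j t ≠ 0) (hall : R.All RW NR)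
    (htop : chk0 RW NR R t = true) (hNR : NR < 16384) (hK0 : KT.lk 0 = 0)
    (h1 : ∀ j < NR, ∀ a < 6, ∃ p, e1a KT (wT RW j) j a p = true) (h2 : KT.All)
    (hI : ∀ i < NR, OkI KT RW i) :
    ¬ (∃ S : Finset (EuclideanSpace ℝ (Fin 2)), S.card = 9 ∧
      (∀ a ∈ S, ∀ b ∈ S, ∀ c ∈ S, a ≠ b → a ≠ c → b ≠ c →
        ¬ Collinear ℝ ({a, b, c} : Set (EuclideanSpace ℝ (Fin 2)))) ∧
      (∀ a ∈ S, ∀ b ∈ S, ∀ c ∈ S, ∀ d ∈ S,
        a ≠ b → a ≠ c → a ≠ d → b ≠ c → b ≠ d → c ≠ d →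
        ¬ EuclideanGeometry.Concyclic ({a, b, c, d} : Set (EuclideanSpace ℝ (Fin 2)))) ∧
      ∃ f : Fin 8 → ℝ, ∀ i : Fin 8,
        (S.offDiag.filter (fun p => dist p.1 p.2 = f i)).card = 2 * (i.val + 1)) := by
  intro H
  obtain ⟨D, y, c, hg, hy, hi, hs, hD, hc⟩ := top H
  obtain ⟨x, c', h9, hcase⟩ := red hg hy hi hs hD hc
  have hR : RAll RW NR := RAll_of hbad hRW hall htop
  have hE : EAll KT RW NR := EAll_of hNR hK0 hR h1 h2
  rcases hcase with hA | ⟨u, v, huv, hB⟩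
  · exact searchA hE hNR.le hK0 hR hI h9 hA
  · exact searchB hE hNR.le hK0 hR hI h9 u v huv hB

end Pool.Agent.Lib.EPS9
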