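import Mathlib

/-!
Digits to the base eight.
-/

set_option autoImplicit false
set_option linter.unusedVariables false

namespace Pool.Agent.Lib.EPS9

/-- digit number `i` of `x` to the base eight -/
def fld (x i : ℕ) : ℕ := x / 8 ^ i % 8

theorem fld_lt (x i : ℕ) : fld x i < 8 := Nat.mod_lt _ (by norm_num)

theorem land7 (x : ℕ) : Nat.land x 7 = x % 8 := by
  have h : Nat.land x 7 = x &&& (2 ^ 3 - 1) := rfl
  rw [h, Nat.and_two_pow_sub_one_eq_mod]

theorem shr (x s : ℕ) : Nat.shiftRight x s = x / 2 ^ s := Nat.shiftRight_eq_div_pow x s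

theorem shl (x s : ℕ) : Nat.shiftLeft x s = x * 2 ^ s := Nat.shiftLeft_eq x s

theorem fld_eq (x i : ℕ) : Nat.land (Nat.shiftRight x (Nat.mul 3 i)) 7 = fld x i := by
  rw [land7, shr]
  unfold fld
  rw [Nat.mul_eq, pow_mul]
  norm_num

theorem fld_zero (x : ℕ) : fld x 0 = Nat.land x 7 := by
  rw [land7]
  unfold fld
  rw [pow_zero, Nat.div_one]

theorem fld_div (x k i : ℕ) : fld (x / 8 ^ k) i = fld x (k + i) := by
  unfold fld
  rw [Nat.div_div_eq_div_mul, ← pow_add]

theorem fld_shr3 (x i : ℕ) : fld (Nat.shiftRight x 3) i = fld x (i + 1) := by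
  rw [shr, show (2 : ℕ) ^ 3 = 8 ^ 1 by norm_num, fld_div, add_comm]

theorem fld_lo (x z : ℕ) {i k : ℕ} (h : i < k) : fld (x + 8 ^ k * z) i = fld x i := by
  unfold fld
  obtain ⟨j, rfl⟩ := Nat.exists_eq_add_of_lt h
  have e : 8 ^ (i + j + 1) * z = 8 ^ i * (8 * (8 ^ j * z)) := by
    rw [pow_add, pow_add]
    ring
  rw [e, Nat.add_mul_div_left _ _ (by positivity), Nat.add_mul_mod_self_left]

theorem fld_hi {lo a : ℕ} (hlo : lo < 8 ^ a) (z i : ℕ) : fld (lo + 8 ^ a * z) (a + i) = fld z i := by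
  rw [← fld_div, Nat.add_mul_div_left _ _ (by positivity), Nat.div_eq_of_lt hlo, zero_add]

theorem fld_of_lt {x k : ℕ} (h : x < 8 ^ k) {i : ℕ} (hi : k ≤ i) : fld x i = 0 := by
  unfold fld
  rw [Nat.div_eq_of_lt (h.trans_le (Nat.pow_le_pow_right (by norm_num) hi))]

/-- adding a digit at a place with digit zero -/
theorem fld_add {x a v : ℕ} (hx : fld x a = 0) (hv : v < 8) (i : ℕ) :
    fld (x + v * 8 ^ a) i = if i = a then v else fld x i := by
  have h1 : x = x % 8 ^ a + 8 ^ a * (x / 8 ^ a) := (Nat.mod_add_div _ _).symm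
  have h2 : x / 8 ^ a = 8 * (x / 8 ^ a / 8) := by
    have := Nat.mod_add_div (x / 8 ^ a) 8
    unfold fld at hx
    omega
  set lo := x % 8 ^ a with hlo
  set hi := x / 8 ^ a / 8 with hhi
  have hlolt : lo < 8 ^ a := Nat.mod_lt _ (by positivity)
  have e1 : x = lo + 8 ^ a * (8 * hi) := by rw [← h2]; exact h1
  have e2 : x + v * 8 ^ a = lo + 8 ^ a * (v + 8 * hi) := by
    rw [e1]
    ring
  clear_value lo hi
  rcases lt_trichotomy i a with h | h | h
  · rw [if_neg (by omega), e2, fld_lo _ _ h, e1, fld_lo _ _ h]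
  · rw [if_pos h, e2, h]
    have := fld_hi hlolt (v + 8 * hi) 0
    rw [add_zero] at this
    rw [this]
    unfold fld
    rw [pow_zero, Nat.div_one]
    omega
  · rw [if_neg (by omega), e2, e1]
    obtain ⟨j, rfl⟩ := Nat.exists_eq_add_of_lt h
    rw [add_assoc a, fld_hi hlolt, fld_hi hlolt]
    have k1 := fld_hi (lo := v) (a := 1) (by simpa using hv) hi j
    have k2 := fld_hi (lo := 0) (a := 1) (by norm_num) hi j
    rw [pow_one, add_comm 1 j] at k1 k2
    rw [k1]
    rw [zero_add] at k2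
    rw [k2]

theorem fld_mod (x k : ℕ) {i : ℕ} (h : i < k) : fld (x % 8 ^ k) i = fld x i := by
  have h1 : x = x % 8 ^ k + 8 ^ k * (x / 8 ^ k) := (Nat.mod_add_div _ _).symm
  conv_rhs => rw [h1]
  rw [fld_lo _ _ h]

end Pool.Agent.Lib.EPS9
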