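import Pool.Agent.Lib.MP_c7e7f6_eps.Core3

/-!
The upper nodes of the table of colourings of five points.
-/

set_option autoImplicit false

namespace Pool.Agent.Lib.EPS9

theorem kn0 : lexT 242439305 0x2ec2bd8d T5 242439305 = true := by decide +kernel
theorem kn1 : lexT 366438753 0x2760ba59 T5 366438753 = true := by decide +kernel
theorem kn2 : lexT 332814681 0xb239b36ac026993a8130b66a75b461 T5 332814681 = true := by decide +kernel
theorem kn3 : lexT 483809050 0xcf5fb3b741c585a T5 483809050 = true := by decide +kernel
theorem kn4 : lexT 584739545 0x2cdfd723 T5 584739545 = true := by decide +kernel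
theorem kn5 : lexT 513090761 0xa6e96e529bac9948d9e9eba361275caed89d52357a74c T5 513090761 = true := by decide +kernel
theorem kn6 : lexT 383207697 0x2a06ea519d3b71aefc934d1 T5 383207697 = true := by decide +kernel
theorem kn7 : lexT 651610395 0x24b86cec T5 651610395 = true := by decide +kernel
theorem kn8 : lexT 769042697 0x20dc4513a31b12461502923 T5 769042697 = true := by decide +kernel
theorem kn9 : lexT 735233810 0xd6616a4b51fd5099cc54c466bf4319d40ea18659a166a T5 735233810 = true := by decide +kernel
theorem kn10 : lexT 863122057 0x234fad5d T5 863122057 = true := by decide +kernel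
theorem kn11 : lexT 899335826 0x2971470b T5 899335826 = true := by decide +kernel
theorem kn12 : lexT 882258569 0xc569a2ae4e6e352 T5 882258569 = true := by decide +kernel
theorem kn13 : lexT 833233545 0x8b66ddca2d7b572 T5 833233545 = true := by decide +kernel
theorem kn14 : lexT 632986313 0x270ca654 T5 632986313 = true := by decide +kernel

end Pool.Agent.Lib.EPS9
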