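import Pool.Agent.Lib.MP_c7e7f6_eps.Core4
import Pool.Agent.Lib.MP_c7e7f6_eps.TreePos
import Pool.Agent.Lib.MP_c7e7f6_eps.Loops

/-!
The codes in the word table are between 1 and 6.
-/

set_option autoImplicit false

namespace Pool.Agent.Lib.EPS9

theorem wok_succ (n s : ℕ) : wok (n + 1) s = brn (Nat.beq (Nat.land s 7) 0) false
    (cnd (Nat.ble (Nat.land s 7) 6) (wok n (Nat.shiftRight s 3))) := rfl

theorem rwok_succ (RW n j : ℕ) : rwok RW (n + 1) j =
    cnd (wok 15 (Nat.land (Nat.shiftRight RW (Nat.mul 45 j)) (msk 45))) (rwok RW n (Nat.add j 1)) := rfl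

theorem wok_spec : ∀ (n s : ℕ), wok n s = true → ∀ t < n, (s >>> (3 * t)) &&& 7 ≠ 0 ∧
    (s >>> (3 * t)) &&& 7 ≤ 6
  | 0, _, _, t, ht => absurd ht (by omega)
  | n + 1, s, h, t, ht => by
    rw [wok_succ] at h
    have e1 : Nat.beq (Nat.land s 7) 0 = false := by
      cases e : Nat.beq (Nat.land s 7) 0
      · rfl
      · rw [e] at h
        exact absurd (show false = true from h) Bool.false_ne_true
    rw [e1] at h
    obtain ⟨h3, h4⟩ := cnd_true (c := Nat.ble (Nat.land s 7) 6) h
    rcases t with _ | t
    · refine ⟨fun h5 => ?_, ?_⟩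
      · have : Nat.beq (Nat.land s 7) 0 = true := by
          have h6 : Nat.land s 7 = 0 := by simpa using h5
          rw [h6]
          rfl
        rw [e1] at this
        simp at this
      · have := Nat.le_of_ble_eq_true h3
        simpa using this
    · have := wok_spec n _ h4 t (by omega)
      have e2 : (Nat.shiftRight s 3) >>> (3 * t) = s >>> (3 * (t + 1)) := by
        change (s >>> 3) >>> (3 * t) = _
        rw [← Nat.shiftRight_add]
        congr 1
        ring
      rwa [e2] at this

theorem rwok_spec (RW : ℕ) : ∀ (n j : ℕ), rwok RW n j = true → ∀ i < n, ∀ t < 15,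
    went RW (j + i) t ≠ 0 ∧ went RW (j + i) t ≤ 6
  | 0, _, _, i, hi, _, _ => absurd hi (by omega)
  | n + 1, j, h, i, hi, t, ht => by
    rw [rwok_succ] at h
    obtain ⟨h1, h2⟩ := cnd_true h
    rcases i with _ | i
    · have h3 := wok_spec 15 _ h1 t ht
      have e : ((Nat.land (Nat.shiftRight RW (Nat.mul 45 j)) (msk 45)) >>> (3 * t)) &&& 7 =
          went RW (j + 0) t := by
        change (((RW >>> (45 * j)) &&& (2 ^ 45 - 1)) >>> (3 * t)) &&& 7 = (RW >>> (45 * (j + 0) + 3 * t)) &&& 7
        rw [add_zero]
        apply Nat.eq_of_testBit_eq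
        intro q
        rw [Nat.testBit_and, Nat.testBit_shiftRight, Nat.testBit_and, Nat.testBit_shiftRight,
          Nat.testBit_and, Nat.testBit_shiftRight, Nat.testBit_two_pow_sub_one]
        by_cases hq : q < 3
        · rw [decide_eq_true (show 3 * t + q < 45 by omega)]
          simp only [Bool.and_true]
          rw [show 45 * j + (3 * t + q) = 45 * j + 3 * t + q by ring]
        · have : Nat.testBit 7 q = false := by
            apply Nat.testBit_lt_two_pow
            calc 7 < 2 ^ 3 := by norm_num
              _ ≤ 2 ^ q := Nat.pow_le_pow_right (by norm_num) (by omega)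
          rw [this]
          simp
      rwa [e] at h3
    · have := rwok_spec RW n _ h2 i (by omega) t ht
      have e : Nat.add j 1 + i = j + (i + 1) := by
        change j + 1 + i = _
        ring
      rwa [e] at this

end Pool.Agent.Lib.EPS9
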