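import Pool.Agent.Lib.MP_c7e7f6_eps.D6_0
import Pool.Agent.Lib.MP_c7e7f6_eps.D6_1
import Pool.Agent.Lib.MP_c7e7f6_eps.D6_2
import Pool.Agent.Lib.MP_c7e7f6_eps.D6_3
import Pool.Agent.Lib.MP_c7e7f6_eps.D6_4
import Pool.Agent.Lib.MP_c7e7f6_eps.D6_5
import Pool.Agent.Lib.MP_c7e7f6_eps.D6_6
import Pool.Agent.Lib.MP_c7e7f6_eps.D6_7
import Pool.Agent.Lib.MP_c7e7f6_eps.D6_8
import Pool.Agent.Lib.MP_c7e7f6_eps.D6_9
import Pool.Agent.Lib.MP_c7e7f6_eps.D6_10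
import Pool.Agent.Lib.MP_c7e7f6_eps.D6_11
import Pool.Agent.Lib.MP_c7e7f6_eps.D6_12
import Pool.Agent.Lib.MP_c7e7f6_eps.D6_13
import Pool.Agent.Lib.MP_c7e7f6_eps.D6_14
import Pool.Agent.Lib.MP_c7e7f6_eps.D6_15
import Pool.Agent.Lib.MP_c7e7f6_eps.D6_16
import Pool.Agent.Lib.MP_c7e7f6_eps.D6_17
import Pool.Agent.Lib.MP_c7e7f6_eps.D6_18
import Pool.Agent.Lib.MP_c7e7f6_eps.D6_19
import Pool.Agent.Lib.MP_c7e7f6_eps.D6_20
import Pool.Agent.Lib.MP_c7e7f6_eps.D6_21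
import Pool.Agent.Lib.MP_c7e7f6_eps.D6_22
import Pool.Agent.Lib.MP_c7e7f6_eps.D6_23
import Pool.Agent.Lib.MP_c7e7f6_eps.D6_24
import Pool.Agent.Lib.MP_c7e7f6_eps.D6_25
import Pool.Agent.Lib.MP_c7e7f6_eps.D6_26
import Pool.Agent.Lib.MP_c7e7f6_eps.D6_27
import Pool.Agent.Lib.MP_c7e7f6_eps.D6_28
import Pool.Agent.Lib.MP_c7e7f6_eps.D6_29
import Pool.Agent.Lib.MP_c7e7f6_eps.D6_30
import Pool.Agent.Lib.MP_c7e7f6_eps.D6_31
import Pool.Agent.Lib.MP_c7e7f6_eps.D6_32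
import Pool.Agent.Lib.MP_c7e7f6_eps.D6_33
import Pool.Agent.Lib.MP_c7e7f6_eps.D6_34
import Pool.Agent.Lib.MP_c7e7f6_eps.D6_35
import Pool.Agent.Lib.MP_c7e7f6_eps.D6_36
import Pool.Agent.Lib.MP_c7e7f6_eps.D6_37
import Pool.Agent.Lib.MP_c7e7f6_eps.D6_38
import Pool.Agent.Lib.MP_c7e7f6_eps.D6_39
import Pool.Agent.Lib.MP_c7e7f6_eps.D6_40
import Pool.Agent.Lib.MP_c7e7f6_eps.D6_41
import Pool.Agent.Lib.MP_c7e7f6_eps.D6_42
import Pool.Agent.Lib.MP_c7e7f6_eps.D6_43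
import Pool.Agent.Lib.MP_c7e7f6_eps.D6_44
import Pool.Agent.Lib.MP_c7e7f6_eps.D6_45
import Pool.Agent.Lib.MP_c7e7f6_eps.D6_46
import Pool.Agent.Lib.MP_c7e7f6_eps.D6_47
import Pool.Agent.Lib.MP_c7e7f6_eps.D6_48
import Pool.Agent.Lib.MP_c7e7f6_eps.D6_49
import Pool.Agent.Lib.MP_c7e7f6_eps.D6_50
import Pool.Agent.Lib.MP_c7e7f6_eps.D6_51
import Pool.Agent.Lib.MP_c7e7f6_eps.D6_52
import Pool.Agent.Lib.MP_c7e7f6_eps.D6_53
import Pool.Agent.Lib.MP_c7e7f6_eps.D6_54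
import Pool.Agent.Lib.MP_c7e7f6_eps.D6_55
import Pool.Agent.Lib.MP_c7e7f6_eps.D6_56
import Pool.Agent.Lib.MP_c7e7f6_eps.D6_57
import Pool.Agent.Lib.MP_c7e7f6_eps.D6_58
import Pool.Agent.Lib.MP_c7e7f6_eps.D6_59
import Pool.Agent.Lib.MP_c7e7f6_eps.D6_60
import Pool.Agent.Lib.MP_c7e7f6_eps.D6_61
import Pool.Agent.Lib.MP_c7e7f6_eps.D6_62
import Pool.Agent.Lib.MP_c7e7f6_eps.D6_63
import Pool.Agent.Lib.MP_c7e7f6_eps.D6_64
import Pool.Agent.Lib.MP_c7e7f6_eps.D6_65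
import Pool.Agent.Lib.MP_c7e7f6_eps.D6_66
import Pool.Agent.Lib.MP_c7e7f6_eps.D6_67
import Pool.Agent.Lib.MP_c7e7f6_eps.D6_68
import Pool.Agent.Lib.MP_c7e7f6_eps.D6_69
import Pool.Agent.Lib.MP_c7e7f6_eps.D6_70
import Pool.Agent.Lib.MP_c7e7f6_eps.D6_71
import Pool.Agent.Lib.MP_c7e7f6_eps.D6_72
import Pool.Agent.Lib.MP_c7e7f6_eps.D6_73
import Pool.Agent.Lib.MP_c7e7f6_eps.D6_74
import Pool.Agent.Lib.MP_c7e7f6_eps.D6_75
import Pool.Agent.Lib.MP_c7e7f6_eps.D6_76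
import Pool.Agent.Lib.MP_c7e7f6_eps.D6_77
import Pool.Agent.Lib.MP_c7e7f6_eps.D6_78
import Pool.Agent.Lib.MP_c7e7f6_eps.D6_79
import Pool.Agent.Lib.MP_c7e7f6_eps.D6_80
import Pool.Agent.Lib.MP_c7e7f6_eps.D6_81
import Pool.Agent.Lib.MP_c7e7f6_eps.D6_82
import Pool.Agent.Lib.MP_c7e7f6_eps.D6_83
import Pool.Agent.Lib.MP_c7e7f6_eps.D6_84
import Pool.Agent.Lib.MP_c7e7f6_eps.D6_85
import Pool.Agent.Lib.MP_c7e7f6_eps.D6_86
import Pool.Agent.Lib.MP_c7e7f6_eps.D6_87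
import Pool.Agent.Lib.MP_c7e7f6_eps.D6_88
import Pool.Agent.Lib.MP_c7e7f6_eps.D6_89
import Pool.Agent.Lib.MP_c7e7f6_eps.D6_90
import Pool.Agent.Lib.MP_c7e7f6_eps.D6_91
import Pool.Agent.Lib.MP_c7e7f6_eps.D6_92
import Pool.Agent.Lib.MP_c7e7f6_eps.D6_93
import Pool.Agent.Lib.MP_c7e7f6_eps.D6_94
import Pool.Agent.Lib.MP_c7e7f6_eps.D6_95
import Pool.Agent.Lib.MP_c7e7f6_eps.D6_96
import Pool.Agent.Lib.MP_c7e7f6_eps.D6_97
import Pool.Agent.Lib.MP_c7e7f6_eps.D6_98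
import Pool.Agent.Lib.MP_c7e7f6_eps.D6_99
import Pool.Agent.Lib.MP_c7e7f6_eps.D6_100
import Pool.Agent.Lib.MP_c7e7f6_eps.D6_101
import Pool.Agent.Lib.MP_c7e7f6_eps.D6_102
import Pool.Agent.Lib.MP_c7e7f6_eps.D6_103
import Pool.Agent.Lib.MP_c7e7f6_eps.D6_104
import Pool.Agent.Lib.MP_c7e7f6_eps.D6_105
import Pool.Agent.Lib.MP_c7e7f6_eps.D6_106
import Pool.Agent.Lib.MP_c7e7f6_eps.D6_107
import Pool.Agent.Lib.MP_c7e7f6_eps.D6_108
import Pool.Agent.Lib.MP_c7e7f6_eps.D6_109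
import Pool.Agent.Lib.MP_c7e7f6_eps.D6_110
import Pool.Agent.Lib.MP_c7e7f6_eps.D6_111
import Pool.Agent.Lib.MP_c7e7f6_eps.D6_112
import Pool.Agent.Lib.MP_c7e7f6_eps.D6_113

/-!
The top of the search tree.
-/

set_option autoImplicit false

namespace Pool.Agent.Lib.EPS9

open Tr

/-- all states that are treated separately -/
def R6 : Rt := (.b (.b (.b (.b (.b (.b r6_0 (.b r6_1 r6_2)) (.b (.b r6_3 r6_4) (.b r6_5 r6_6)))
 (.b (.b r6_7 (.b r6_8 r6_9)) (.b (.b r6_10 r6_11) (.b r6_12 r6_13)))) (.b (.b (.b r6_14 (.b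
 r6_15 r6_16)) (.b (.b r6_17 r6_18) (.b r6_19 r6_20))) (.b (.b r6_21 (.b r6_22 r6_23)) (.b (.b
 r6_24 r6_25) (.b r6_26 r6_27))))) (.b (.b (.b (.b r6_28 (.b r6_29 r6_30)) (.b (.b r6_31 r6_32)
 (.b r6_33 r6_34))) (.b (.b r6_35 (.b r6_36 r6_37)) (.b (.b r6_38 r6_39) (.b r6_40 r6_41)))) (.b
 (.b (.b r6_42 (.b r6_43 r6_44)) (.b (.b r6_45 r6_46) (.b r6_47 r6_48))) (.b (.b (.b r6_49
 r6_50) (.b r6_51 r6_52)) (.b (.b r6_53 r6_54) (.b r6_55 r6_56)))))) (.b (.b (.b (.b (.b r6_57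
 (.b r6_58 r6_59)) (.b (.b r6_60 r6_61) (.b r6_62 r6_63))) (.b (.b r6_64 (.b r6_65 r6_66)) (.b
 (.b r6_67 r6_68) (.b r6_69 r6_70)))) (.b (.b (.b r6_71 (.b r6_72 r6_73)) (.b (.b r6_74 r6_75)
 (.b r6_76 r6_77))) (.b (.b r6_78 (.b r6_79 r6_80)) (.b (.b r6_81 r6_82) (.b r6_83 r6_84)))))
 (.b (.b (.b (.b r6_85 (.b r6_86 r6_87)) (.b (.b r6_88 r6_89) (.b r6_90 r6_91))) (.b (.b r6_92
 (.b r6_93 r6_94)) (.b (.b r6_95 r6_96) (.b r6_97 r6_98)))) (.b (.b (.b r6_99 (.b r6_100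
 r6_101)) (.b (.b r6_102 r6_103) (.b r6_104 r6_105))) (.b (.b (.b r6_106 r6_107) (.b r6_108
 r6_109)) (.b (.b r6_110 r6_111) (.b r6_112 r6_113)))))))

theorem all6 : R6.Chk RW NR := ⟨⟨⟨⟨⟨⟨a6_0, ⟨a6_1, a6_2⟩⟩, ⟨⟨a6_3, a6_4⟩, ⟨a6_5, a6_6⟩⟩⟩, ⟨⟨a6_7,
 ⟨a6_8, a6_9⟩⟩, ⟨⟨a6_10, a6_11⟩, ⟨a6_12, a6_13⟩⟩⟩⟩, ⟨⟨⟨a6_14, ⟨a6_15, a6_16⟩⟩, ⟨⟨a6_17, a6_18⟩,
 ⟨a6_19, a6_20⟩⟩⟩, ⟨⟨a6_21, ⟨a6_22, a6_23⟩⟩, ⟨⟨a6_24, a6_25⟩, ⟨a6_26, a6_27⟩⟩⟩⟩⟩, ⟨⟨⟨⟨a6_28,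
 ⟨a6_29, a6_30⟩⟩, ⟨⟨a6_31, a6_32⟩, ⟨a6_33, a6_34⟩⟩⟩, ⟨⟨a6_35, ⟨a6_36, a6_37⟩⟩, ⟨⟨a6_38, a6_39⟩,
 ⟨a6_40, a6_41⟩⟩⟩⟩, ⟨⟨⟨a6_42, ⟨a6_43, a6_44⟩⟩, ⟨⟨a6_45, a6_46⟩, ⟨a6_47, a6_48⟩⟩⟩, ⟨⟨⟨a6_49,
 a6_50⟩, ⟨a6_51, a6_52⟩⟩, ⟨⟨a6_53, a6_54⟩, ⟨a6_55, a6_56⟩⟩⟩⟩⟩⟩, ⟨⟨⟨⟨⟨a6_57, ⟨a6_58, a6_59⟩⟩,
 ⟨⟨a6_60, a6_61⟩, ⟨a6_62, a6_63⟩⟩⟩, ⟨⟨a6_64, ⟨a6_65, a6_66⟩⟩, ⟨⟨a6_67, a6_68⟩, ⟨a6_69,
 a6_70⟩⟩⟩⟩, ⟨⟨⟨a6_71, ⟨a6_72, a6_73⟩⟩, ⟨⟨a6_74, a6_75⟩, ⟨a6_76, a6_77⟩⟩⟩, ⟨⟨a6_78, ⟨a6_79,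
 a6_80⟩⟩, ⟨⟨a6_81, a6_82⟩, ⟨a6_83, a6_84⟩⟩⟩⟩⟩, ⟨⟨⟨⟨a6_85, ⟨a6_86, a6_87⟩⟩, ⟨⟨a6_88, a6_89⟩,
 ⟨a6_90, a6_91⟩⟩⟩, ⟨⟨a6_92, ⟨a6_93, a6_94⟩⟩, ⟨⟨a6_95, a6_96⟩, ⟨a6_97, a6_98⟩⟩⟩⟩, ⟨⟨⟨a6_99,
 ⟨a6_100, a6_101⟩⟩, ⟨⟨a6_102, a6_103⟩, ⟨a6_104, a6_105⟩⟩⟩, ⟨⟨⟨a6_106, a6_107⟩, ⟨a6_108,
 a6_109⟩⟩, ⟨⟨a6_110, a6_111⟩, ⟨a6_112, a6_113⟩⟩⟩⟩⟩⟩⟩

theorem top6 : ∃ t, chk0 RW NR R6 t = true := ⟨(n 0 (n 0 (n 0 (n 0 (n 0 (n 723 z (n 0 (n 35 z (n
 0 (n 75 z (n 267 z (n 0 (n 0 (n 555 z (n 4 z (n 8196 z (n 16388 z z)))) (n 0 (n 50 z (n 555 z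
 (n 24580 z (n 0 (n 27 z (n 1 z (n 0 (n 67 z (n 16385 z (n 259 z (n 8193 z (n 24577 z z))))) (n
 0 (n 67 z (n 4097 z (n 20481 z (n 259 z (n 12289 z z))))) (n 0 (n 67 z (n 28673 z (n 2049 z (n
 18433 z (n 259 z (n 10241 z z)))))) z))))) z)))) (n 0 (n 50 z (n 50 z (n 555 z (n 0 (n 27 z (n
 26625 z (n 0 (n 67 z (n 6145 z (n 259 z (n 22529 z (n 14337 z z))))) (n 30721 z (n 0 (n 67 z (n
 63489 z (n 1025 z (n 17409 z (n 259 z (n 9217 z z)))))) z))))) z)))) (n 0 (n 50 z (n 50 z (n 50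
 z (n 555 z (n 0 (n 27 z (n 25601 z (n 0 (n 67 z (n 5121 z (n 259 z (n 0 (n 21505 z (n 13313 z
 (n 29697 z (n 62465 z (n 3073 z (n 19457 z z)))))) (n 50 z (n 11265 z z)))))) (n 0 (n 67 z (n
 27649 z (n 7169 z (n 259 z (n 23553 z (n 0 (n 15361 z (n 31745 z (n 64513 z (n 513 z (n 16897 z
 (n 8705 z z)))))) z)))))) (n 50 z (n 0 (n 67 z (n 25089 z (n 4609 z (n 0 (n 20993 z (n 12801 z
 (n 29185 z (n 61953 z (n 2561 z (n 18945 z z)))))) (n 50 z (n 259 z z)))))) z)))))) z)))))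
 z)))) z))) (n 0 (n 75 z (n 962 z (n 267 z (n 0 (n 0 (n 555 z (n 0 (n 27 z (n 10 z (n 10753 z (n
 27137 z (n 6657 z z))))) (n 32772 z (n 962 z (n 0 (n 27 z (n 10 z (n 23041 z (n 0 (n 67 z (n
 970 z (n 14849 z (n 259 z (n 31233 z (n 64001 z z)))))) (n 1537 z (n 0 (n 67 z (n 970 z (n 962
 z (n 962 z (n 962 z (n 259 z z)))))) z)))))) z))))) (n 0 (n 50 z (n 555 z (n 0 (n 27 z (n 10 z
 (n 17921 z (n 9729 z (n 0 (n 67 z (n 970 z (n 26113 z (n 5633 z (n 259 z (n 22017 z z))))))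
 z))))) (n 962 z (n 0 (n 27 z (n 10 z (n 13825 z (n 0 (n 67 z (n 970 z (n 30209 z (n 259 z (n
 62977 z (n 3585 z z)))))) (n 19969 z (n 0 (n 67 z (n 970 z (n 962 z (n 962 z (n 962 z (n 259 z
 z)))))) z)))))) z))))) (n 0 (n 50 z (n 50 z (n 555 z (n 40964 z (n 0 (n 27 z (n 10 z (n 11777 z
 (n 0 (n 67 z (n 970 z (n 28161 z (n 259 z (n 7681 z (n 24065 z z)))))) (n 15873 z (n 32257 z
 z)))))) z))))) (n 962 z (n 0 (n 50 z (n 50 z (n 50 z (n 50 z (n 555 z (n 65025 z z)))))) z)))))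
 z)))) z))) z)) (n 0 (n 194 z (n 0 (n 35 z (n 0 (n 0 (n 427 z (n 0 (n 747 z (n 49156 z (n 57348
 z z))) (n 0 (n 747 z (n 65540 z (n 73732 z (n 0 (n 27 z (n 0 (n 59 z (n 257 z (n 33025 z (n
 16641 z (n 49409 z z))))) (n 0 (n 59 z (n 114945 z (n 8449 z (n 41217 z (n 106753 z z))))) (n 0
 (n 59 z (n 24833 z (n 57601 z (n 123137 z (n 4353 z z))))) (n 0 (n 59 z (n 37121 z (n 20737 z
 (n 53505 z (n 119041 z (n 12545 z z)))))) z))))) z)))) z))) (n 0 (n 194 z (n 427 z (n 0 (n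
 81924 z (n 0 (n 27 z (n 45313 z (n 0 (n 110849 z (n 0 (n 0 (n 123084 z (n 123 z (n 131276 z (n
 139468 z z)))) (n 419 z (n 0 (n 180236 z (n 123 z (n 196620 z (n 0 (n 4138 z (n 179 z (n 308772
 z (n 656348 z (n 656348 z z))))) z)))) (n 0 (n 0 (n 1482 z (n 179 z (n 672732 z (n 680924 z (n
 689116 z z))))) (n 123 z (n 213004 z (n 0 (n 4138 z (n 179 z (n 672732 z (n 680924 z (n 689116
 z z))))) (n 0 (n 4138 z (n 179 z (n 672732 z (n 680924 z (n 689116 z (n 689116 z z)))))) z)))))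
 z)))) (n 251 z (n 0 (n 28929 z (n 61697 z (n 127233 z (n 419 z (n 0 (n 2305 z (n 123 z (n 35073
 z (n 443 z (n 18689 z (n 51457 z z)))))) z))))) z)))) (n 0 (n 116993 z (n 10497 z (n 0 (n 43265
 z (n 108801 z (n 419 z (n 26881 z (n 0 (n 59649 z (n 123 z (n 443 z (n 125185 z (n 6401 z (n
 39169 z z)))))) z))))) (n 251 z (n 0 (n 22785 z (n 55553 z (n 0 (n 121089 z (n 123 z (n 14593 z
 (n 47361 z (n 443 z (n 112897 z z)))))) (n 30977 z (n 419 z (n 0 (n 63745 z (n 123 z (n 129281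
 z (n 1281 z (n 443 z (n 34049 z z)))))) z)))))) z))))) z)))) (n 90116 z (n 98308 z z)))) z)))
 (n 0 (n 194 z (n 194 z (n 427 z (n 0 (n 106500 z (n 114692 z (n 0 (n 27 z (n 17665 z (n 0 (n
 50433 z (n 115969 z (n 9473 z (n 42241 z (n 107777 z z))))) (n 0 (n 25857 z (n 58625 z (n
 124161 z (n 5377 z (n 0 (n 38145 z (n 21761 z (n 54529 z (n 120065 z (n 419 z (n 13569 z
 z)))))) z))))) (n 0 (n 46337 z (n 111873 z (n 29953 z (n 62721 z (n 128257 z (n 0 (n 3329 z (n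
 36097 z (n 19713 z (n 52481 z (n 118017 z (n 419 z z)))))) z)))))) z))))) (n 194 z (n 0 (n 27 z
 (n 11521 z (n 0 (n 44289 z (n 109825 z (n 27905 z (n 0 (n 60673 z (n 126209 z (n 7425 z (n 419
 z (n 40193 z (n 105729 z z)))))) (n 23809 z (n 0 (n 56577 z (n 122113 z (n 15617 z (n 48385 z
 (n 113921 z (n 419 z z)))))) z)))))) (n 194 z (n 0 (n 32001 z (n 64769 z (n 130305 z (n 769 z
 (n 33537 z (n 0 (n 194 z (n 194 z (n 194 z (n 194 z (n 194 z (n 419 z z)))))) z)))))) (n 0 (n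
 17153 z (n 49921 z (n 8961 z (n 41729 z (n 25345 z (n 0 (n 194 z (n 194 z (n 194 z (n 194 z (n
 194 z (n 419 z z)))))) z)))))) z)))))) z))))) z)))) z))) (n 0 (n 0 (n 427 z (n 0 (n 122884 z (n
 3378 z (n 131076 z (n 139268 z z)))) (n 0 (n 147460 z (n 155652 z (n 978 z (n 0 (n 27 z (n 10 z
 (n 58113 z (n 4865 z (n 37633 z z))))) z)))) (n 0 (n 0 (n 27 z (n 10 z (n 21249 z (n 0 (n 59 z
 (n 54017 z (n 13057 z (n 45825 z (n 29441 z z))))) (n 0 (n 59 z (n 62209 z (n 127745 z (n 2817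
 z (n 35585 z (n 19201 z z)))))) z))))) (n 163844 z (n 0 (n 27 z (n 10 z (n 0 (n 59 z (n 51969 z
 (n 11009 z (n 43777 z (n 27393 z z))))) (n 0 (n 59 z (n 60161 z (n 6913 z (n 39681 z (n 23297 z
 z))))) (n 0 (n 59 z (n 56065 z (n 15105 z (n 47873 z (n 31489 z (n 0 (n 64257 z (n 129793 z (n
 1793 z (n 34561 z (n 18177 z (n 419 z z)))))) z)))))) z))))) (n 172036 z (n 0 (n 27 z (n 10 z
 (n 0 (n 59 z (n 50945 z (n 9985 z (n 42753 z (n 26369 z (n 59137 z z)))))) (n 0 (n 59 z (n 5889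
 z (n 38657 z (n 22273 z (n 55041 z (n 14081 z z)))))) (n 0 (n 59 z (n 46849 z (n 30465 z (n
 63233 z (n 128769 z (n 3841 z z)))))) (n 0 (n 59 z (n 36609 z (n 0 (n 0 (n 202 z (n 202 z (n
 202 z (n 202 z (n 202 z (n 202 z z)))))) (n 20225 z (n 419 z (n 52993 z (n 12033 z (n 44801 z
 z)))))) (n 28417 z (n 61185 z (n 7937 z z)))))) z)))))) z))))) z)))) (n 0 (n 194 z (n 427 z (n
 0 (n 180228 z (n 188420 z (n 196612 z (n 0 (n 27 z (n 10 z (n 0 (n 10 z (n 40705 z (n 24321 z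
 (n 57089 z (n 16129 z z))))) (n 0 (n 10 z (n 48897 z (n 32513 z (n 65281 z (n 130817 z z)))))
 (n 0 (n 10 z (n 129 z (n 32897 z (n 16513 z (n 49281 z (n 8321 z z)))))) z))))) z)))) (n 0 (n 0
 (n 27 z (n 10 z (n 41089 z (n 0 (n 10 z (n 24705 z (n 57473 z (n 4225 z (n 36993 z z))))) (n 0
 (n 10 z (n 20609 z (n 53377 z (n 12417 z (n 45185 z (n 28801 z z)))))) z))))) (n 204804 z (n
 212996 z (n 0 (n 27 z (n 10 z (n 61569 z (n 2177 z (n 0 (n 10 z (n 34945 z (n 18561 z (n 51329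
 z (n 10369 z (n 43137 z z)))))) z))))) (n 0 (n 27 z (n 10 z (n 0 (n 10 z (n 26753 z (n 59521 z
 (n 6273 z (n 39041 z (n 22657 z z)))))) (n 0 (n 10 z (n 55425 z (n 0 (n 202 z (n 14465 z (n 419
 z (n 47233 z (n 30849 z (n 63617 z z)))))) (n 1153 z (n 33921 z (n 17537 z z)))))) (n 0 (n 10 z
 (n 50305 z (n 9345 z (n 42113 z (n 25729 z (n 58497 z z)))))) (n 0 (n 10 z (n 5249 z (n 38017 z
 (n 21633 z (n 54401 z (n 13441 z z)))))) z)))))) z))))) z)))) (n 0 (n 194 z (n 194 z (n 427 z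
 (n 0 (n 0 (n 27 z (n 10 z (n 46209 z (n 29825 z (n 0 (n 10 z (n 10 z (n 62593 z (n 3201 z (n
 251 z (n 35969 z z)))))) z))))) (n 221188 z (n 229380 z (n 0 (n 27 z (n 10 z (n 19585 z (n
 52353 z (n 0 (n 10 z (n 10 z (n 11393 z (n 44161 z (n 251 z (n 27777 z z)))))) z))))) (n 0 (n
 27 z (n 10 z (n 0 (n 10 z (n 10 z (n 251 z (n 60545 z (n 7297 z (n 40065 z z)))))) (n 0 (n 10 z
 (n 10 z (n 23681 z (n 251 z (n 56449 z (n 15489 z z)))))) (n 0 (n 10 z (n 10 z (n 48257 z (n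
 31873 z (n 251 z (n 64641 z z)))))) (n 0 (n 10 z (n 10 z (n 641 z (n 33409 z (n 17025 z (n 251
 z z)))))) z)))))) z))))) z)))) (n 0 (n 194 z (n 194 z (n 194 z (n 427 z (n 0 (n 0 (n 27 z (n 10
 z (n 49793 z (n 0 (n 10 z (n 10 z (n 8833 z (n 10 z (n 0 (n 202 z (n 202 z (n 41601 z (n 202 z
 (n 419 z (n 25217 z z)))))) (n 57985 z z)))))) (n 194 z (n 0 (n 10 z (n 10 z (n 123521 z (n
 4737 z (n 37505 z (n 10 z z)))))) z)))))) (n 0 (n 27 z (n 10 z (n 21121 z (n 0 (n 10 z (n 10 z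
 (n 53889 z (n 10 z (n 12929 z (n 45697 z z)))))) (n 194 z (n 29313 z z)))))) (n 0 (n 27 z (n 10
 z (n 62081 z (n 0 (n 10 z (n 10 z (n 127617 z (n 10 z (n 2689 z (n 35457 z z)))))) (n 194 z (n
 19073 z z)))))) (n 0 (n 27 z (n 10 z (n 51841 z (n 10881 z (n 43649 z (n 27265 z z)))))) (n 194
 z (n 60033 z z)))))) z))))) z)))) z))) (n 0 (n 35 z (n 0 (n 0 (n 1170 z (n 978 z (n 0 (n 747 z
 (n 237572 z (n 245764 z (n 253956 z z)))) (n 0 (n 747 z (n 262148 z (n 270340 z (n 978 z (n 0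
 (n 27 z (n 0 (n 59 z (n 125569 z (n 6785 z (n 39553 z (n 23169 z (n 55937 z z)))))) (n 0 (n 59
 z (n 978 z (n 121473 z (n 14977 z (n 47745 z (n 31361 z z)))))) (n 0 (n 59 z (n 978 z (n 64129
 z (n 978 z (n 129665 z (n 0 (n 1665 z (n 34433 z (n 18049 z (n 50817 z (n 9857 z (n 42625 z
 z)))))) z)))))) (n 26241 z (n 59009 z z)))))) z))))) z)))) (n 0 (n 1938 z (n 0 (n 278532 z (n
 195 z (n 286724 z (n 0 (n 27 z (n 124545 z (n 5761 z (n 0 (n 38529 z (n 22145 z (n 54913 z (n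
 251 z (n 13953 z z))))) (n 0 (n 46721 z (n 30337 z (n 63105 z (n 128641 z (n 251 z (n 3713 z
 z)))))) z))))) z)))) (n 0 (n 294916 z (n 4130 z (n 303108 z (n 311300 z z)))) (n 0 (n 319492 z
 (n 4130 z (n 327684 z (n 0 (n 27 z (n 36481 z (n 0 (n 20097 z (n 52865 z (n 251 z (n 11905 z (n
 44673 z z))))) (n 0 (n 28289 z (n 61057 z (n 126593 z (n 251 z (n 7809 z z))))) (n 0 (n 40577 z
 (n 24193 z (n 56961 z (n 122497 z (n 251 z (n 0 (n 16001 z (n 48769 z (n 32385 z (n 65153 z (n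
 130689 z (n 385 z z)))))) z)))))) z))))) (n 0 (n 27 z (n 0 (n 10 z (n 251 z (n 33153 z (n 98689
 z (n 16769 z (n 0 (n 49537 z (n 115073 z (n 8577 z (n 41345 z (n 106881 z (n 24961 z z))))))
 z)))))) (n 0 (n 90497 z (n 57729 z (n 251 z (n 123265 z (n 4481 z (n 37249 z z)))))) (n 0 (n
 102785 z (n 20865 z (n 0 (n 53633 z (n 119169 z (n 12673 z (n 45441 z (n 110977 z (n 29057 z
 z)))))) (n 251 z (n 94593 z (n 0 (n 61825 z (n 127361 z (n 2433 z (n 35201 z (n 100737 z (n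
 18817 z z)))))) z)))))) (n 0 (n 51585 z (n 117121 z (n 0 (n 10625 z (n 43393 z (n 108929 z (n
 27009 z (n 92545 z (n 59777 z z)))))) (n 0 (n 125313 z (n 6529 z (n 39297 z (n 104833 z (n
 22913 z (n 55681 z z)))))) (n 251 z (n 0 (n 121217 z (n 14721 z (n 47489 z (n 113025 z (n 31105
 z (n 96641 z z)))))) z)))))) (n 0 (n 63873 z (n 0 (n 129409 z (n 1409 z (n 34177 z (n 99713 z
 (n 17793 z (n 50561 z z)))))) (n 0 (n 116097 z (n 9601 z (n 42369 z (n 107905 z (n 25985 z (n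
 91521 z z)))))) (n 0 (n 58753 z (n 124289 z (n 5505 z (n 38273 z (n 103809 z (n 21889 z z))))))
 (n 0 (n 54657 z (n 120193 z (n 13697 z (n 46465 z (n 112001 z (n 30081 z z)))))) (n 251 z
 z)))))) z)))))) z))))) z)))) (n 0 (n 0 (n 335876 z (n 344068 z (n 2130 z (n 0 (n 27 z (n 0 (n
 10 z (n 10 z (n 95617 z (n 62849 z (n 0 (n 99 z (n 1946 z (n 0 (n 475148 z (n 483340 z (n 0 (n
 2130 z (n 852724 z (n 2130 z (n 501852 z (n 493660 z (n 501852 z z)))))) (n 499724 z (n 491532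
 z (n 499724 z z)))))) (n 128385 z (n 0 (n 507916 z (n 3457 z (n 36225 z (n 101761 z (n 516108 z
 (n 19841 z z)))))) (n 0 (n 52609 z (n 118145 z (n 11649 z (n 44417 z (n 109953 z (n 28033 z
 z)))))) z)))))) z))))) (n 0 (n 93569 z (n 60801 z (n 126337 z (n 7553 z (n 0 (n 99 z (n 40321 z
 (n 202 z (n 105857 z (n 23937 z (n 0 (n 89473 z (n 56705 z (n 122241 z (n 15745 z (n 48513 z (n
 114049 z z)))))) z)))))) z))))) (n 0 (n 32129 z (n 97665 z (n 64897 z (n 0 (n 99 z (n 2130 z (n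
 2130 z (n 130433 z (n 0 (n 897 z (n 33665 z (n 99201 z (n 17281 z (n 82817 z (n 50049 z z))))))
 z))))) (n 0 (n 99 z (n 2130 z (n 2130 z (n 115585 z (n 0 (n 9089 z (n 41857 z (n 107393 z (n
 25473 z (n 606220 z (n 91009 z z)))))) (n 0 (n 58241 z (n 123777 z (n 4993 z (n 37761 z (n
 103297 z (n 21377 z z)))))) z)))))) z))))) (n 0 (n 86913 z (n 0 (n 99 z (n 2130 z (n 2130 z (n
 2130 z (n 0 (n 54145 z (n 573452 z (n 119681 z (n 13185 z (n 78721 z (n 45953 z z)))))) (n 0 (n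
 111489 z (n 581644 z (n 29569 z (n 95105 z (n 62337 z (n 127873 z z)))))) z)))))) (n 0 (n 99 z
 (n 2130 z (n 2138 z (n 2130 z (n 2130 z (n 2130 z z)))))) (n 0 (n 99 z (n 2130 z (n 2130 z (n
 2130 z (n 2945 z (n 35713 z z)))))) (n 0 (n 99 z (n 2130 z (n 2130 z (n 2130 z (n 101249 z (n 0
 (n 19329 z (n 84865 z (n 52097 z (n 117633 z (n 11137 z (n 43905 z z)))))) z)))))) (n 0 (n 99 z
 (n 2130 z (n 2130 z (n 2130 z (n 0 (n 109441 z (n 27521 z (n 93057 z (n 60289 z (n 125825 z (n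
 7041 z z)))))) (n 2130 z z)))))) z)))))) z))))) z)))) (n 0 (n 803 z (n 352260 z (n 360452 z (n
 368644 z z)))) (n 0 (n 376836 z (n 385028 z (n 393220 z (n 401412 z z)))) (n 0 (n 409604 z (n
 417796 z (n 425988 z (n 0 (n 27 z (n 39809 z (n 0 (n 105345 z (n 23425 z (n 88961 z (n 56193 z
 (n 121729 z z))))) (n 0 (n 15233 z (n 80769 z (n 48001 z (n 113537 z (n 31617 z z))))) (n 0 (n
 97153 z (n 64385 z (n 129921 z (n 1921 z (n 34689 z (n 0 (n 100225 z (n 18305 z (n 83841 z (n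
 51073 z (n 116609 z (n 10113 z z)))))) z)))))) z))))) (n 0 (n 27 z (n 0 (n 10 z (n 10 z (n
 42881 z (n 108417 z (n 26497 z (n 0 (n 92033 z (n 59265 z (n 124801 z (n 6017 z (n 38785 z (n
 104321 z z)))))) z)))))) (n 0 (n 22401 z (n 87937 z (n 55169 z (n 0 (n 202 z (n 120705 z (n 202
 z (n 14209 z (n 79745 z (n 46977 z z)))))) (n 112513 z (n 0 (n 202 z (n 30593 z (n 202 z (n
 96129 z (n 63361 z (n 128897 z z)))))) z)))))) (n 0 (n 3969 z (n 0 (n 0 (n 524492 z (n 0 (n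
 1962 z (n 1962 z (n 499 z (n 1962 z (n 1962 z (n 1962 z z)))))) (n 532684 z (n 534436 z (n 0 (n
 1962 z (n 1962 z (n 1962 z (n 1962 z (n 1962 z (n 1962 z z)))))) (n 0 (n 1962 z (n 1962 z (n
 1962 z (n 1962 z (n 1962 z (n 1962 z z)))))) z)))))) (n 36737 z (n 102273 z (n 20353 z (n 85889
 z (n 53121 z z)))))) (n 118657 z (n 0 (n 1954 z (n 12161 z (n 77697 z (n 44929 z (n 110465 z (n
 28545 z z)))))) (n 0 (n 94081 z (n 61313 z (n 126849 z (n 8065 z (n 40833 z (n 106369 z z))))))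
 (n 0 (n 24449 z (n 89985 z (n 57217 z (n 122753 z (n 16257 z (n 81793 z z)))))) z)))))) (n 0 (n
 49025 z (n 0 (n 114561 z (n 32641 z (n 98177 z (n 65409 z (n 130945 z (n 65 z z)))))) (n 16449
 z (n 0 (n 49217 z (n 8257 z (n 24641 z (n 57409 z (n 4161 z (n 20545 z z)))))) (n 0 (n 1954 z
 (n 53313 z (n 12353 z (n 28737 z (n 61505 z (n 2113 z z)))))) (n 0 (n 18497 z (n 51265 z (n
 10305 z (n 26689 z (n 0 (n 59457 z (n 6209 z (n 22593 z (n 55361 z (n 14401 z (n 30785 z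
 z)))))) (n 63553 z z)))))) z)))))) (n 0 (n 0 (n 1186 z (n 1089 z (n 17473 z (n 50241 z (n 9281
 z (n 994 z z)))))) (n 0 (n 25665 z (n 58433 z (n 5185 z (n 21569 z (n 54337 z (n 13377 z
 z)))))) (n 0 (n 29761 z (n 62529 z (n 3137 z (n 19521 z (n 52289 z (n 11329 z z)))))) (n 0 (n
 27713 z (n 60481 z (n 7233 z (n 23617 z (n 56385 z (n 15425 z z)))))) (n 0 (n 31809 z (n 64577
 z (n 577 z (n 16961 z (n 49729 z (n 8769 z z)))))) (n 0 (n 1954 z (n 25153 z (n 57921 z (n 4673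
 z (n 21057 z (n 53825 z z)))))) z)))))) z)))))) z))))) z)))) (n 0 (n 0 (n 434180 z (n 442372 z
 (n 0 (n 27 z (n 12865 z (n 0 (n 29249 z (n 62017 z (n 2625 z (n 19009 z (n 51777 z z))))) (n 0
 (n 10817 z (n 27201 z (n 59969 z (n 6721 z (n 23105 z z))))) (n 0 (n 55873 z (n 14913 z (n
 31297 z (n 64065 z (n 1601 z (n 0 (n 99 z (n 17985 z (n 50753 z (n 9793 z (n 26177 z (n 58945 z
 z)))))) z)))))) z))))) (n 450564 z (n 0 (n 27 z (n 0 (n 10 z (n 10 z (n 10 z (n 5697 z (n 22081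
 z (n 0 (n 99 z (n 1946 z (n 54849 z (n 13889 z (n 30273 z (n 63041 z z)))))) z)))))) (n 0 (n
 3649 z (n 20033 z (n 52801 z (n 11841 z (n 28225 z (n 60993 z z)))))) (n 0 (n 7745 z (n 24129 z
 (n 56897 z (n 15937 z (n 48705 z (n 0 (n 99 z (n 1946 z (n 32321 z (n 65089 z (n 321 z (n 33089
 z z)))))) z)))))) (n 0 (n 16705 z (n 49473 z (n 0 (n 99 z (n 115009 z (n 8513 z (n 41281 z (n
 106817 z (n 24897 z z)))))) (n 57665 z (n 0 (n 99 z (n 123201 z (n 4417 z (n 37185 z (n 20801 z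
 (n 53569 z z)))))) (n 0 (n 99 z (n 119105 z (n 12609 z (n 45377 z (n 110913 z (n 28993 z
 z)))))) z)))))) (n 0 (n 61761 z (n 0 (n 99 z (n 127297 z (n 2369 z (n 2138 z (n 35137 z (n
 18753 z z)))))) (n 0 (n 99 z (n 51521 z (n 117057 z (n 10561 z (n 43329 z (n 108865 z z))))))
 (n 0 (n 99 z (n 26945 z (n 59713 z (n 2138 z (n 125249 z (n 6465 z z)))))) (n 0 (n 99 z (n
 39233 z (n 104769 z (n 22849 z (n 55617 z (n 121153 z z)))))) (n 0 (n 99 z (n 14657 z (n 47425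
 z (n 112961 z (n 31041 z (n 63809 z z)))))) z)))))) z)))))) z))))) (n 0 (n 458756 z (n 466948 z
 (n 0 (n 27 z (n 129345 z (n 0 (n 0 (n 1186 z (n 202 z (n 283 z (n 202 z (n 202 z z))))) (n 1345
 z (n 34113 z (n 17729 z (n 50497 z z))))) (n 0 (n 116033 z (n 9537 z (n 42305 z (n 107841 z (n
 25921 z z))))) (n 0 (n 58689 z (n 0 (n 124225 z (n 5441 z (n 38209 z (n 21825 z (n 283 z (n
 54593 z z)))))) (n 120129 z (n 0 (n 13633 z (n 46401 z (n 111937 z (n 30017 z (n 283 z (n 62785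
 z z)))))) (n 128321 z (n 0 (n 3393 z (n 36161 z (n 19777 z (n 52545 z (n 283 z (n 118081 z
 z)))))) z)))))) z))))) (n 0 (n 27 z (n 11585 z (n 0 (n 0 (n 1186 z (n 202 z (n 283 z (n 202 z
 (n 202 z z))))) (n 0 (n 202 z (n 202 z (n 283 z (n 0 (n 475340 z (n 443 z (n 483532 z (n 491724
 z (n 499916 z z))))) (n 0 (n 475340 z (n 443 z (n 483532 z (n 499916 z (n 491724 z (n 499916 z
 z)))))) z))))) (n 44353 z (n 109889 z (n 27969 z z))))) (n 0 (n 60737 z (n 126273 z (n 7489 z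
 (n 40257 z (n 105793 z z))))) (n 0 (n 23873 z (n 56641 z (n 122177 z (n 15681 z (n 48449 z (n
 113985 z z)))))) z))))) (n 0 (n 27 z (n 0 (n 10 z (n 10 z (n 10 z (n 32065 z (n 64833 z (n
 130369 z z)))))) (n 0 (n 0 (n 1186 z (n 202 z (n 283 z (n 202 z (n 202 z (n 202 z z)))))) (n
 833 z (n 33601 z (n 17217 z (n 49985 z (n 115521 z z)))))) (n 0 (n 9025 z (n 41793 z (n 25409 z
 (n 58177 z (n 123713 z (n 4929 z z)))))) (n 0 (n 37697 z (n 21313 z (n 54081 z (n 119617 z (n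
 13121 z (n 45889 z z)))))) (n 0 (n 111425 z (n 0 (n 29505 z (n 62273 z (n 127809 z (n 2881 z (n
 35649 z (n 283 z z)))))) (n 19265 z (n 0 (n 52033 z (n 117569 z (n 11073 z (n 43841 z (n 109377
 z (n 283 z z)))))) (n 27457 z (n 60225 z z)))))) z)))))) z))))) (n 0 (n 475140 z (n 483332 z (n
 0 (n 27 z (n 0 (n 10 z (n 10 z (n 10 z (n 125761 z (n 0 (n 10 z (n 10 z (n 0 (n 10 z (n 10 z (n
 539 z (n 499724 z (n 491532 z (n 499724 z z)))))) (n 6977 z (n 0 (n 507916 z (n 39745 z (n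
 23361 z (n 56129 z (n 539 z (n 121665 z z)))))) (n 0 (n 15169 z (n 47937 z (n 113473 z (n 31553
 z (n 64321 z (n 539 z z)))))) z)))))) z))))) (n 0 (n 0 (n 1186 z (n 202 z (n 994 z (n 1194 z (n
 202 z z))))) (n 129857 z (n 0 (n 1954 z (n 202 z (n 202 z (n 202 z (n 202 z z))))) (n 1857 z (n
 0 (n 202 z (n 202 z (n 202 z (n 34625 z (n 18241 z (n 51009 z z)))))) z))))) (n 0 (n 116545 z
 (n 10049 z (n 42817 z (n 26433 z (n 0 (n 59201 z (n 124737 z (n 5953 z (n 38721 z (n 0 (n 22337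
 z (n 55105 z (n 120641 z (n 14145 z (n 539 z (n 46913 z z)))))) (n 0 (n 112449 z (n 30529 z (n
 63297 z (n 128833 z (n 3905 z (n 539 z z)))))) z)))))) z))))) (n 0 (n 0 (n 1186 z (n 1186 z (n
 36673 z (n 20289 z (n 994 z (n 53057 z z)))))) (n 0 (n 118593 z (n 12097 z (n 44865 z (n 110401
 z (n 0 (n 28481 z (n 573452 z (n 61249 z (n 126785 z (n 539 z (n 8001 z z)))))) (n 0 (n 40769 z
 (n 581644 z (n 24385 z (n 57153 z (n 122689 z (n 539 z z)))))) z)))))) (n 0 (n 2146 z (n 16193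
 z (n 48961 z (n 114497 z (n 32577 z (n 65345 z z)))))) (n 0 (n 130881 z (n 193 z (n 32961 z (n
 16577 z (n 49345 z (n 0 (n 114881 z (n 8385 z (n 41153 z (n 24769 z (n 57537 z (n 539 z z))))))
 z)))))) (n 0 (n 1954 z (n 123073 z (n 0 (n 0 (n 2434 z (n 2434 z (n 2626 z (n 2434 z (n 2434 z
 (n 2434 z z)))))) (n 4289 z (n 539 z (n 37057 z (n 20673 z (n 53441 z z)))))) (n 118977 z (n
 12481 z (n 0 (n 45249 z (n 110785 z (n 28865 z (n 61633 z (n 127169 z (n 539 z z)))))) z))))))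
 (n 0 (n 2241 z (n 35009 z (n 18625 z (n 0 (n 51393 z (n 116929 z (n 10433 z (n 539 z (n 43201 z
 (n 26817 z z)))))) (n 0 (n 59585 z (n 125121 z (n 6337 z (n 39105 z (n 539 z (n 22721 z z))))))
 (n 0 (n 55489 z (n 121025 z (n 14529 z (n 47297 z (n 112833 z (n 539 z z)))))) z)))))) z))))))
 z))))) (n 491524 z (n 499716 z z))))) (n 0 (n 507908 z (n 0 (n 27 z (n 30913 z (n 63681 z (n 0
 (n 0 (n 411 z (n 1002 z (n 1002 z (n 994 z (n 1002 z z))))) (n 129217 z (n 1217 z (n 33985 z (n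
 17601 z z))))) (n 0 (n 50369 z (n 115905 z (n 9409 z (n 42177 z (n 25793 z (n 0 (n 58561 z (n
 124097 z (n 5313 z (n 38081 z (n 21697 z (n 411 z z)))))) z)))))) z))))) (n 0 (n 27 z (n 54465
 z (n 120001 z (n 0 (n 0 (n 411 z (n 1002 z (n 1002 z (n 994 z (n 1002 z z))))) (n 13505 z (n
 46273 z (n 111809 z (n 29889 z z))))) (n 0 (n 62657 z (n 128193 z (n 3265 z (n 36033 z (n 19649
 z (n 0 (n 52417 z (n 117953 z (n 11457 z (n 44225 z (n 109761 z (n 411 z z)))))) z)))))) z)))))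
 (n 516100 z (n 0 (n 27 z (n 27841 z (n 0 (n 0 (n 411 z (n 202 z (n 994 z (n 1194 z (n 202 z (n
 202 z z)))))) (n 0 (n 202 z (n 411 z (n 202 z (n 202 z (n 202 z (n 202 z z)))))) (n 0 (n 1954 z
 (n 202 z (n 411 z (n 202 z (n 202 z (n 202 z z)))))) (n 60609 z (n 126145 z (n 7361 z z))))))
 (n 0 (n 0 (n 411 z (n 1002 z (n 1002 z (n 994 z (n 1002 z (n 1002 z z)))))) (n 40129 z (n 23745
 z (n 56513 z (n 122049 z (n 0 (n 1962 z (n 15553 z (n 48321 z (n 113857 z (n 31937 z (n 411 z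
 z)))))) z)))))) (n 0 (n 64705 z (n 130241 z (n 705 z (n 33473 z (n 17089 z (n 0 (n 49857 z (n
 115393 z (n 8897 z (n 41665 z (n 25281 z (n 411 z z)))))) z)))))) (n 0 (n 58049 z (n 0 (n
 123585 z (n 411 z (n 4801 z (n 0 (n 0 (n 665692 z (n 673884 z (n 690268 z (n 4722 z (n 690268 z
 (n 682076 z z)))))) (n 581644 z (n 0 (n 665692 z (n 673884 z (n 690268 z (n 4722 z (n 690268 z
 (n 682076 z z)))))) (n 0 (n 665692 z (n 673884 z (n 690268 z (n 4722 z (n 690268 z (n 682076 z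
 z)))))) (n 0 (n 665692 z (n 673884 z (n 690268 z (n 4722 z (n 690268 z (n 682076 z z)))))) (n 0
 (n 665692 z (n 673884 z (n 690268 z (n 4722 z (n 690268 z (n 682076 z z)))))) z)))))) (n 37569
 z (n 21185 z z)))))) (n 53953 z (n 119489 z (n 0 (n 12993 z (n 45761 z (n 111297 z (n 29377 z
 (n 411 z (n 62145 z z)))))) (n 127681 z z)))))) z)))))) z))))) (n 0 (n 0 (n 27 z (n 2753 z (n 0
 (n 0 (n 1186 z (n 202 z (n 994 z (n 202 z (n 202 z (n 202 z z)))))) (n 0 (n 202 z (n 202 z (n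
 202 z (n 202 z (n 202 z (n 202 z z)))))) (n 0 (n 1954 z (n 202 z (n 202 z (n 202 z (n 202 z (n
 202 z z)))))) (n 35521 z (n 19137 z (n 51905 z z)))))) (n 0 (n 117441 z (n 0 (n 0 (n 524492 z
 (n 0 (n 763 z (n 5122 z (n 666780 z (n 499 z (n 591788 z (n 666780 z z)))))) (n 532684 z (n
 534436 z (n 0 (n 763 z (n 1507740 z (n 835 z (n 1515932 z (n 591788 z (n 1532316 z z)))))) (n 0
 (n 763 z (n 1507740 z (n 1532316 z (n 1515932 z (n 591788 z (n 1524124 z z)))))) z)))))) (n 0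
 (n 548876 z (n 557068 z (n 0 (n 763 z (n 763052 z (n 1524124 z (n 771244 z (n 1532316 z (n
 1532316 z z)))))) (n 0 (n 763 z (n 763052 z (n 1466780 z (n 771244 z (n 1466780 z (n 1466780 z
 z)))))) (n 0 (n 763 z (n 763052 z (n 1532316 z (n 771244 z (n 1524124 z (n 1532316 z z)))))) (n
 0 (n 763 z (n 763052 z (n 1532316 z (n 771244 z (n 1532316 z (n 1524124 z z)))))) z)))))) (n 0
 (n 0 (n 659 z (n 945572 z (n 1149892 z (n 1044068 z (n 1149892 z (n 1149892 z z)))))) (n 565260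
 z (n 565452 z (n 0 (n 659 z (n 1356852 z (n 1466780 z (n 1045908 z (n 1466780 z (n 1466780 z
 z)))))) (n 0 (n 659 z (n 1507740 z (n 1532316 z (n 1515932 z (n 1524124 z (n 1532316 z z))))))
 (n 0 (n 659 z (n 1507740 z (n 1532316 z (n 1515932 z (n 1532316 z (n 1524124 z z)))))) z))))))
 (n 0 (n 0 (n 763 z (n 770284 z (n 1149892 z (n 762092 z (n 1149892 z (n 1149892 z z)))))) (n
 573452 z (n 0 (n 763 z (n 770284 z (n 1524124 z (n 762092 z (n 1532316 z (n 1532316 z z))))))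
 (n 0 (n 763 z (n 770284 z (n 1466780 z (n 211 z (n 1466780 z (n 1466780 z z)))))) (n 0 (n 763 z
 (n 770284 z (n 1532316 z (n 762092 z (n 1524124 z (n 1532316 z z)))))) (n 0 (n 763 z (n 770284
 z (n 1532316 z (n 762092 z (n 1532316 z (n 1524124 z z)))))) z)))))) (n 0 (n 0 (n 763 z (n
 837532 z (n 845724 z (n 837548 z (n 829340 z (n 845724 z z)))))) (n 581644 z (n 0 (n 763 z (n
 837532 z (n 845724 z (n 837548 z (n 829340 z (n 845724 z z)))))) (n 0 (n 763 z (n 837532 z (n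
 845724 z (n 837548 z (n 829340 z (n 845724 z z)))))) (n 0 (n 763 z (n 837532 z (n 845724 z (n
 837548 z (n 829340 z (n 845724 z z)))))) (n 0 (n 763 z (n 837532 z (n 845724 z (n 837548 z (n
 829340 z (n 845724 z z)))))) z)))))) (n 0 (n 0 (n 763 z (n 945572 z (n 1149892 z (n 1044068 z
 (n 1149892 z (n 1149892 z z)))))) (n 581644 z (n 0 (n 763 z (n 1507740 z (n 1524124 z (n
 1515932 z (n 1532316 z (n 1532316 z z)))))) (n 0 (n 763 z (n 1356852 z (n 1466780 z (n 1045908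
 z (n 1466780 z (n 1466780 z z)))))) (n 0 (n 763 z (n 1507740 z (n 1532316 z (n 1515932 z (n
 1524124 z (n 1532316 z z)))))) (n 0 (n 763 z (n 1507740 z (n 1532316 z (n 1515932 z (n 1532316
 z (n 1524124 z z)))))) z)))))) z)))))) (n 10945 z (n 43713 z (n 109249 z (n 0 (n 27329 z (n
 60097 z (n 125633 z (n 6849 z (n 39617 z (n 23233 z z)))))) z)))))) (n 0 (n 56001 z (n 0 (n
 1962 z (n 121537 z (n 15041 z (n 47809 z (n 0 (n 0 (n 3602 z (n 673708 z (n 690092 z (n 681900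
 z (n 5338 z (n 690092 z z)))))) (n 573452 z (n 0 (n 665516 z (n 673708 z (n 690092 z (n 681900
 z (n 5666 z (n 690092 z z)))))) (n 0 (n 665516 z (n 673708 z (n 690092 z (n 681900 z (n 5666 z
 (n 690092 z z)))))) (n 0 (n 665516 z (n 673708 z (n 690092 z (n 681900 z (n 211 z (n 690092 z
 z)))))) (n 0 (n 665516 z (n 673708 z (n 690092 z (n 681900 z (n 5666 z (n 690092 z z))))))
 z)))))) (n 113345 z z)))))) (n 0 (n 2146 z (n 31425 z (n 64193 z (n 129729 z (n 1729 z (n 34497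
 z z)))))) (n 18113 z (n 50881 z (n 0 (n 116417 z (n 9921 z (n 42689 z (n 108225 z (n 26305 z (n
 59073 z z)))))) z)))))) (n 0 (n 124609 z (n 5825 z (n 0 (n 2146 z (n 38593 z (n 22209 z (n
 54977 z (n 120513 z (n 14017 z z)))))) (n 0 (n 46785 z (n 112321 z (n 30401 z (n 63169 z (n
 128705 z (n 3777 z z)))))) (n 0 (n 36545 z (n 20161 z (n 52929 z (n 118465 z (n 11969 z (n
 44737 z z)))))) (n 0 (n 1954 z (n 110273 z (n 28353 z (n 61121 z (n 126657 z (n 7873 z z))))))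
 z)))))) z)))))) (n 0 (n 27 z (n 40641 z (n 0 (n 0 (n 1186 z (n 202 z (n 994 z (n 202 z (n 202 z
 (n 202 z z)))))) (n 0 (n 202 z (n 202 z (n 202 z (n 202 z (n 202 z (n 202 z z)))))) (n 0 (n
 1954 z (n 202 z (n 202 z (n 202 z (n 202 z (n 202 z z)))))) (n 24257 z (n 57025 z (n 122561 z
 z)))))) (n 0 (n 16065 z (n 48833 z (n 114369 z (n 32449 z (n 0 (n 2154 z (n 65217 z (n 130753 z
 (n 449 z (n 0 (n 0 (n 665708 z (n 682092 z (n 690284 z (n 673900 z (n 5682 z (n 690284 z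
 z)))))) (n 0 (n 665708 z (n 4754 z (n 690284 z (n 673900 z (n 5682 z (n 690284 z z)))))) (n 0
 (n 665708 z (n 682092 z (n 690284 z (n 673900 z (n 5682 z (n 690284 z z)))))) (n 0 (n 665708 z
 (n 682092 z (n 690284 z (n 673900 z (n 5682 z (n 690284 z z)))))) (n 606220 z (n 0 (n 665708 z
 (n 682092 z (n 690284 z (n 673900 z (n 5682 z (n 690284 z z)))))) z)))))) (n 33217 z z)))))) (n
 0 (n 16833 z (n 49601 z (n 115137 z (n 8641 z (n 41409 z (n 106945 z z)))))) z)))))) (n 0 (n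
 25025 z (n 57793 z (n 0 (n 2146 z (n 123329 z (n 4545 z (n 37313 z (n 20929 z (n 53697 z
 z)))))) (n 119233 z (n 12737 z (n 0 (n 45505 z (n 111041 z (n 29121 z (n 61889 z (n 127425 z (n
 2497 z z)))))) z)))))) (n 0 (n 35265 z (n 0 (n 18881 z (n 51649 z (n 117185 z (n 10689 z (n
 43457 z (n 108993 z z)))))) (n 0 (n 2146 z (n 27073 z (n 59841 z (n 125377 z (n 6593 z (n 39361
 z z)))))) (n 0 (n 104897 z (n 22977 z (n 55745 z (n 121281 z (n 14785 z (n 47553 z z)))))) (n 0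
 (n 113089 z (n 31169 z (n 63937 z (n 129473 z (n 1473 z (n 34241 z z)))))) (n 17857 z z))))))
 z)))))) (n 0 (n 27 z (n 50625 z (n 116161 z (n 0 (n 9665 z (n 42433 z (n 107969 z (n 26049 z (n
 0 (n 2154 z (n 58817 z (n 124353 z (n 5569 z (n 0 (n 0 (n 665708 z (n 682092 z (n 690284 z (n
 673900 z (n 5354 z (n 690284 z z)))))) (n 0 (n 665708 z (n 682092 z (n 690284 z (n 673900 z (n
 5682 z (n 690284 z z)))))) (n 0 (n 665708 z (n 682092 z (n 3634 z (n 673900 z (n 5682 z (n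
 690284 z z)))))) (n 0 (n 665708 z (n 682092 z (n 690284 z (n 673900 z (n 5682 z (n 690284 z
 z)))))) (n 606220 z (n 0 (n 665708 z (n 682092 z (n 690284 z (n 673900 z (n 5682 z (n 690284 z
 z)))))) z)))))) (n 38337 z z)))))) (n 0 (n 103873 z (n 21953 z (n 54721 z (n 120257 z (n 13761
 z (n 46529 z z)))))) z)))))) (n 0 (n 112065 z (n 30145 z (n 62913 z (n 128449 z (n 0 (n 1954 z
 (n 3521 z (n 36289 z (n 19905 z (n 52673 z (n 118209 z z)))))) (n 0 (n 11713 z (n 44481 z (n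
 110017 z (n 28097 z (n 60865 z (n 126401 z z)))))) z)))))) (n 0 (n 7617 z (n 0 (n 40385 z (n
 105921 z (n 24001 z (n 56769 z (n 122305 z (n 15809 z z)))))) (n 48577 z (n 0 (n 114113 z (n
 32193 z (n 64961 z (n 130497 z (n 961 z (n 33729 z z)))))) (n 0 (n 99265 z (n 17345 z (n 50113
 z (n 115649 z (n 9153 z (n 41921 z z)))))) (n 0 (n 1954 z (n 107457 z (n 25537 z (n 58305 z (n
 123841 z (n 5057 z z)))))) z)))))) z)))))) (n 0 (n 27 z (n 37825 z (n 103361 z (n 0 (n 21441 z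
 (n 54209 z (n 119745 z (n 13249 z (n 46017 z (n 0 (n 111553 z (n 29633 z (n 62401 z (n 127937 z
 (n 3009 z (n 35777 z z)))))) z)))))) (n 0 (n 101313 z (n 0 (n 1962 z (n 19393 z (n 52161 z (n
 117697 z (n 0 (n 0 (n 665516 z (n 673708 z (n 690092 z (n 681900 z (n 5666 z (n 690092 z
 z)))))) (n 443 z (n 0 (n 665516 z (n 673708 z (n 690092 z (n 681900 z (n 5666 z (n 690092 z
 z)))))) (n 0 (n 665516 z (n 673708 z (n 690092 z (n 4578 z (n 5666 z (n 690092 z z)))))) (n 0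
 (n 665516 z (n 673708 z (n 690092 z (n 681900 z (n 211 z (n 690092 z z)))))) (n 0 (n 665516 z
 (n 673708 z (n 690092 z (n 681900 z (n 5666 z (n 690092 z z)))))) z)))))) (n 11201 z z)))))) (n
 43969 z (n 109505 z (n 27585 z (n 0 (n 60353 z (n 125889 z (n 7105 z (n 39873 z (n 105409 z (n
 23489 z z)))))) z)))))) (n 0 (n 56257 z (n 0 (n 121793 z (n 15297 z (n 48065 z (n 113601 z (n
 31681 z (n 64449 z z)))))) (n 0 (n 2146 z (n 129985 z (n 1985 z (n 34753 z (n 100289 z (n 18369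
 z z)))))) (n 0 (n 51137 z (n 116673 z (n 10177 z (n 42945 z (n 108481 z (n 26561 z z)))))) (n 0
 (n 59329 z (n 124865 z (n 6081 z (n 38849 z (n 104385 z (n 22465 z z)))))) (n 55233 z z))))))
 z)))))) (n 0 (n 27 z (n 120769 z (n 14273 z (n 0 (n 47041 z (n 112577 z (n 0 (n 2146 z (n 30657
 z (n 63425 z (n 128961 z (n 4033 z (n 36801 z z)))))) (n 102337 z (n 0 (n 2154 z (n 20417 z (n
 53185 z (n 118721 z (n 0 (n 0 (n 665708 z (n 682092 z (n 690284 z (n 673900 z (n 5354 z (n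
 690284 z z)))))) (n 0 (n 665708 z (n 682092 z (n 690284 z (n 673900 z (n 5682 z (n 690284 z
 z)))))) (n 0 (n 665708 z (n 682092 z (n 690284 z (n 673900 z (n 4402 z (n 690284 z z)))))) (n 0
 (n 665708 z (n 827 z (n 690284 z (n 673900 z (n 4746 z (n 690284 z z)))))) (n 539 z (n 0 (n
 665708 z (n 682092 z (n 690284 z (n 673900 z (n 5682 z (n 690284 z z)))))) z)))))) (n 12225 z
 z)))))) (n 0 (n 44993 z (n 110529 z (n 28609 z (n 61377 z (n 126913 z (n 8129 z z)))))) z))))))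
 (n 0 (n 40897 z (n 106433 z (n 24513 z (n 57281 z (n 122817 z (n 16321 z z)))))) (n 0 (n 49089
 z (n 114625 z (n 0 (n 2146 z (n 32705 z (n 65473 z (n 131009 z (n 33 z (n 16417 z z)))))) (n
 8225 z (n 24609 z (n 0 (n 1954 z (n 57377 z (n 4129 z (n 20513 z (n 53281 z (n 12321 z z))))))
 z)))))) z)))))) (n 0 (n 27 z (n 28705 z (n 61473 z (n 0 (n 2081 z (n 18465 z (n 0 (n 2146 z (n
 51233 z (n 10273 z (n 26657 z (n 59425 z (n 6177 z z)))))) (n 22561 z (n 0 (n 2154 z (n 0 (n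
 55329 z (n 14369 z (n 30753 z (n 63521 z (n 1057 z (n 17441 z z)))))) (n 9249 z (n 25633 z (n 0
 (n 0 (n 665708 z (n 682092 z (n 690284 z (n 673900 z (n 5682 z (n 690284 z z)))))) (n 0 (n
 665708 z (n 682092 z (n 690284 z (n 673900 z (n 5682 z (n 690284 z z)))))) (n 0 (n 665708 z (n
 682092 z (n 690284 z (n 673900 z (n 5682 z (n 690284 z z)))))) (n 0 (n 665708 z (n 682092 z (n
 690284 z (n 673900 z (n 5682 z (n 690284 z z)))))) (n 606220 z (n 0 (n 665708 z (n 682092 z (n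
 690284 z (n 673900 z (n 5682 z (n 690284 z z)))))) z)))))) (n 58401 z z)))))) (n 0 (n 5153 z (n
 21537 z (n 54305 z (n 13345 z (n 29729 z (n 62497 z z)))))) z)))))) (n 0 (n 3105 z (n 0 (n 1962
 z (n 19489 z (n 52257 z (n 0 (n 11297 z (n 581644 z (n 27681 z (n 60449 z (n 7201 z (n 23585 z
 z)))))) (n 0 (n 0 (n 665516 z (n 673708 z (n 690092 z (n 681900 z (n 5666 z (n 690092 z z))))))
 (n 573452 z (n 0 (n 665516 z (n 673708 z (n 690092 z (n 681900 z (n 5666 z (n 690092 z z))))))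
 (n 0 (n 665516 z (n 673708 z (n 690092 z (n 681900 z (n 5666 z (n 690092 z z)))))) (n 0 (n
 665516 z (n 673708 z (n 690092 z (n 681900 z (n 211 z (n 690092 z z)))))) (n 0 (n 665516 z (n
 673708 z (n 690092 z (n 681900 z (n 5666 z (n 690092 z z)))))) z)))))) (n 56353 z z)))))) (n 0
 (n 2146 z (n 15393 z (n 31777 z (n 64545 z (n 545 z (n 16929 z z)))))) (n 8737 z (n 25121 z (n
 0 (n 57889 z (n 4641 z (n 21025 z (n 53793 z (n 12833 z (n 29217 z z)))))) z)))))) (n 0 (n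
 61985 z (n 0 (n 2593 z (n 18977 z (n 51745 z (n 10785 z (n 27169 z (n 59937 z z)))))) (n 0 (n
 2146 z (n 6689 z (n 23073 z (n 55841 z (n 14881 z (n 31265 z z)))))) (n 0 (n 64033 z (n 1569 z
 (n 17953 z (n 50721 z (n 9761 z (n 26145 z z)))))) (n 0 (n 58913 z (n 5665 z (n 22049 z (n
 54817 z (n 13857 z (n 30241 z z)))))) (n 63009 z z)))))) z)))))) z)))))) z))))) z)))) (n 194 z
 (n 0 (n 0 (n 1170 z (n 978 z (n 0 (n 524292 z (n 532484 z (n 0 (n 27 z (n 10 z (n 10 z (n 0 (n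
 59 z (n 3617 z (n 986 z (n 986 z (n 0 (n 20001 z (n 52769 z (n 11809 z (n 28193 z (n 0 (n 60961
 z (n 7713 z (n 24097 z (n 56865 z (n 539 z (n 15905 z z)))))) (n 0 (n 32289 z (n 65057 z (n 289
 z (n 33057 z (n 16673 z (n 539 z z)))))) z)))))) z))))) (n 0 (n 59 z (n 978 z (n 986 z (n 986 z
 (n 0 (n 1954 z (n 49441 z (n 8481 z (n 978 z (n 41249 z (n 24865 z z)))))) (n 0 (n 57633 z (n
 123169 z (n 4385 z (n 978 z (n 0 (n 37153 z (n 20769 z (n 53537 z (n 12577 z (n 539 z (n 45345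
 z z)))))) (n 978 z z)))))) z)))))) z))))) (n 978 z (n 0 (n 27 z (n 10 z (n 10 z (n 0 (n 59 z (n
 28961 z (n 986 z (n 986 z (n 61729 z (n 127265 z z)))))) (n 0 (n 59 z (n 978 z (n 986 z (n 986
 z (n 2337 z (n 0 (n 35105 z (n 18721 z (n 51489 z (n 10529 z (n 43297 z (n 26913 z z))))))
 z)))))) (n 59681 z z)))))) z))))) (n 978 z (n 0 (n 0 (n 27 z (n 10 z (n 10 z (n 0 (n 59 z (n
 125217 z (n 6433 z (n 986 z (n 986 z (n 39201 z z)))))) (n 0 (n 59 z (n 978 z (n 22817 z (n 986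
 z (n 986 z (n 0 (n 1962 z (n 55585 z (n 14625 z (n 47393 z (n 31009 z (n 63777 z z))))))
 z)))))) (n 129313 z z)))))) (n 0 (n 27 z (n 10 z (n 10 z (n 0 (n 59 z (n 1313 z (n 34081 z (n
 986 z (n 986 z (n 17697 z z)))))) (n 0 (n 59 z (n 50465 z (n 9505 z (n 986 z (n 986 z (n 42273
 z z)))))) (n 0 (n 59 z (n 25889 z (n 0 (n 1954 z (n 58657 z (n 124193 z (n 5409 z (n 38177 z (n
 21793 z z)))))) (n 986 z (n 986 z (n 54561 z z)))))) z)))))) (n 540676 z (n 978 z (n 978 z (n 0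
 (n 27 z (n 10 z (n 10 z (n 0 (n 59 z (n 13601 z (n 46369 z (n 986 z (n 986 z (n 29985 z z))))))
 (n 0 (n 59 z (n 978 z (n 62753 z (n 986 z (n 986 z (n 0 (n 1962 z (n 128289 z (n 3361 z (n
 36129 z (n 19745 z (n 52513 z z)))))) z)))))) (n 11553 z z)))))) z)))))) z))))) (n 0 (n 194 z
 (n 0 (n 548868 z (n 557060 z (n 0 (n 27 z (n 10 z (n 10 z (n 0 (n 10 z (n 44321 z (n 27937 z (n
 60705 z (n 126241 z z))))) (n 0 (n 10 z (n 7457 z (n 40225 z (n 23841 z (n 56609 z (n 15649 z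
 z)))))) z))))) (n 0 (n 27 z (n 10 z (n 10 z (n 0 (n 10 z (n 48417 z (n 32033 z (n 64801 z (n
 130337 z z))))) (n 0 (n 10 z (n 801 z (n 33569 z (n 17185 z (n 49953 z (n 0 (n 202 z (n 8993 z
 (n 41761 z (n 25377 z (n 58145 z (n 411 z z)))))) z)))))) z))))) (n 0 (n 27 z (n 10 z (n 10 z
 (n 0 (n 10 z (n 4897 z (n 37665 z (n 21281 z (n 54049 z (n 0 (n 202 z (n 13089 z (n 45857 z (n
 29473 z (n 62241 z (n 411 z z)))))) z)))))) (n 0 (n 10 z (n 2849 z (n 35617 z (n 19233 z (n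
 52001 z (n 11041 z z)))))) (n 0 (n 10 z (n 43809 z (n 27425 z (n 60193 z (n 6945 z (n 39713 z
 z)))))) z)))))) z))))) (n 0 (n 0 (n 27 z (n 10 z (n 10 z (n 23329 z (n 0 (n 10 z (n 56097 z (n
 15137 z (n 47905 z (n 31521 z (n 64289 z z)))))) z))))) (n 565252 z (n 194 z (n 0 (n 27 z (n 10
 z (n 10 z (n 1825 z (n 0 (n 10 z (n 34593 z (n 18209 z (n 50977 z (n 10017 z (n 42785 z z))))))
 z))))) (n 0 (n 27 z (n 10 z (n 10 z (n 0 (n 10 z (n 26401 z (n 59169 z (n 5921 z (n 38689 z (n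
 22305 z z)))))) (n 0 (n 10 z (n 55073 z (n 14113 z (n 46881 z (n 30497 z (n 63265 z z)))))) (n
 0 (n 10 z (n 3873 z (n 36641 z (n 20257 z (n 53025 z (n 12065 z z)))))) z)))))) z))))) (n 0 (n
 0 (n 27 z (n 10 z (n 10 z (n 44833 z (n 0 (n 10 z (n 28449 z (n 61217 z (n 7969 z (n 40737 z (n
 24353 z z)))))) z))))) (n 573444 z (n 0 (n 27 z (n 10 z (n 10 z (n 57121 z (n 0 (n 10 z (n
 16161 z (n 48929 z (n 32545 z (n 65313 z (n 130849 z z)))))) z))))) (n 0 (n 27 z (n 10 z (n 10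
 z (n 161 z (n 0 (n 10 z (n 32929 z (n 16545 z (n 49313 z (n 114849 z (n 8353 z z)))))) z)))))
 (n 0 (n 27 z (n 10 z (n 10 z (n 0 (n 10 z (n 41121 z (n 24737 z (n 0 (n 1954 z (n 0 (n 598220 z
 (n 0 (n 819 z (n 630828 z (n 639020 z (n 4002 z (n 639020 z (n 639020 z z)))))) (n 0 (n 819 z
 (n 630828 z (n 639020 z (n 4002 z (n 639020 z (n 639020 z z)))))) (n 0 (n 819 z (n 630828 z (n
 639020 z (n 219 z (n 639020 z (n 639020 z z)))))) (n 0 (n 819 z (n 630828 z (n 639020 z (n 4002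
 z (n 639020 z (n 639020 z z)))))) (n 0 (n 819 z (n 630828 z (n 639020 z (n 4002 z (n 639020 z
 (n 639020 z z)))))) z)))))) (n 0 (n 202 z (n 202 z (n 202 z (n 202 z (n 0 (n 696364 z (n 704732
 z (n 202 z (n 4626 z (n 712748 z (n 712748 z z)))))) (n 0 (n 696364 z (n 704732 z (n 202 z (n
 4626 z (n 712748 z (n 202 z z)))))) z)))))) (n 283 z (n 0 (n 0 (n 696364 z (n 704732 z (n
 712748 z (n 4010 z (n 704556 z (n 712748 z z)))))) (n 0 (n 696364 z (n 704732 z (n 712748 z (n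
 4010 z (n 704556 z (n 712748 z z)))))) (n 0 (n 696364 z (n 704732 z (n 712748 z (n 4010 z (n
 704556 z (n 712748 z z)))))) (n 0 (n 696364 z (n 704732 z (n 835 z (n 219 z (n 704556 z (n
 712748 z z)))))) (n 0 (n 696364 z (n 704732 z (n 712748 z (n 4010 z (n 5554 z (n 712748 z
 z)))))) (n 0 (n 696364 z (n 704732 z (n 712748 z (n 4010 z (n 704556 z (n 712748 z z))))))
 z)))))) (n 0 (n 0 (n 696364 z (n 704732 z (n 712748 z (n 4954 z (n 712748 z (n 704556 z z))))))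
 (n 0 (n 696364 z (n 704732 z (n 712748 z (n 4954 z (n 712748 z (n 704556 z z)))))) (n 0 (n
 696364 z (n 704732 z (n 712748 z (n 4626 z (n 712748 z (n 704556 z z)))))) (n 0 (n 696364 z (n
 704732 z (n 712748 z (n 219 z (n 712748 z (n 704556 z z)))))) (n 0 (n 696364 z (n 704732 z (n
 712748 z (n 4626 z (n 712748 z (n 704556 z z)))))) (n 0 (n 696364 z (n 704732 z (n 712748 z (n
 4626 z (n 712748 z (n 704556 z z)))))) z)))))) z)))))) (n 57505 z (n 123041 z z)))))) (n 0 (n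
 10 z (n 4257 z (n 37025 z (n 20641 z (n 53409 z (n 118945 z z)))))) (n 0 (n 10 z (n 12449 z (n
 45217 z (n 110753 z (n 28833 z (n 61601 z z)))))) z)))))) z))))) (n 0 (n 0 (n 27 z (n 10 z (n
 10 z (n 0 (n 10 z (n 127137 z (n 2209 z (n 34977 z (n 18593 z (n 51361 z z)))))) (n 0 (n 10 z
 (n 116897 z (n 10401 z (n 0 (n 1962 z (n 43169 z (n 108705 z (n 26785 z (n 0 (n 0 (n 3802 z (n
 681900 z (n 690092 z (n 673708 z (n 5330 z (n 690092 z z)))))) (n 0 (n 665516 z (n 681900 z (n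
 690092 z (n 673708 z (n 5330 z (n 690092 z z)))))) (n 0 (n 665516 z (n 681900 z (n 690092 z (n
 673708 z (n 5330 z (n 690092 z z)))))) (n 0 (n 665516 z (n 681900 z (n 690092 z (n 673708 z (n
 5330 z (n 690092 z z)))))) (n 0 (n 665516 z (n 681900 z (n 690092 z (n 673708 z (n 211 z (n
 690092 z z)))))) (n 0 (n 665516 z (n 681900 z (n 690092 z (n 673708 z (n 5330 z (n 690092 z
 z)))))) z)))))) (n 59553 z z)))))) (n 125089 z (n 0 (n 1962 z (n 6305 z (n 39073 z (n 22689 z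
 (n 55457 z (n 120993 z z)))))) z)))))) (n 0 (n 10 z (n 14497 z (n 0 (n 1954 z (n 47265 z (n 202
 z (n 112801 z (n 30881 z (n 63649 z z)))))) (n 0 (n 202 z (n 129185 z (n 1185 z (n 33953 z (n
 17569 z (n 50337 z z)))))) (n 0 (n 1962 z (n 115873 z (n 9377 z (n 42145 z (n 107681 z (n 25761
 z z)))))) (n 58529 z z)))))) z)))))) (n 581636 z (n 0 (n 27 z (n 10 z (n 10 z (n 0 (n 10 z (n
 124065 z (n 5281 z (n 38049 z (n 21665 z (n 0 (n 202 z (n 54433 z (n 119969 z (n 13473 z (n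
 46241 z (n 111777 z z)))))) z)))))) (n 0 (n 10 z (n 29857 z (n 62625 z (n 0 (n 1962 z (n 0 (n
 128161 z (n 3233 z (n 36001 z (n 19617 z (n 52385 z (n 117921 z z)))))) (n 11425 z (n 44193 z
 (n 0 (n 0 (n 665516 z (n 681900 z (n 690092 z (n 673708 z (n 5330 z (n 690092 z z)))))) (n 0 (n
 665516 z (n 681900 z (n 690092 z (n 673708 z (n 5330 z (n 690092 z z)))))) (n 0 (n 665516 z (n
 681900 z (n 3634 z (n 673708 z (n 5330 z (n 690092 z z)))))) (n 0 (n 665516 z (n 681900 z (n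
 690092 z (n 673708 z (n 5330 z (n 690092 z z)))))) (n 0 (n 665516 z (n 681900 z (n 690092 z (n
 673708 z (n 211 z (n 690092 z z)))))) (n 0 (n 665516 z (n 681900 z (n 690092 z (n 673708 z (n
 5330 z (n 690092 z z)))))) z)))))) (n 109729 z z)))))) (n 27809 z (n 0 (n 1962 z (n 60577 z (n
 126113 z (n 7329 z (n 40097 z (n 23713 z z)))))) z)))))) (n 0 (n 10 z (n 56481 z (n 122017 z (n
 0 (n 202 z (n 15521 z (n 48289 z (n 113825 z (n 31905 z (n 64673 z z)))))) (n 130209 z (n 673 z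
 z)))))) z)))))) (n 0 (n 27 z (n 10 z (n 10 z (n 0 (n 10 z (n 33441 z (n 17057 z (n 49825 z (n
 8865 z (n 41633 z z)))))) (n 0 (n 10 z (n 25249 z (n 58017 z (n 0 (n 1962 z (n 0 (n 123553 z (n
 4769 z (n 37537 z (n 21153 z (n 53921 z (n 12961 z z)))))) (n 45729 z (n 29345 z (n 0 (n 0 (n
 665516 z (n 681900 z (n 690092 z (n 673708 z (n 5330 z (n 690092 z z)))))) (n 0 (n 665516 z (n
 827 z (n 690092 z (n 673708 z (n 5330 z (n 690092 z z)))))) (n 0 (n 665516 z (n 681900 z (n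
 690092 z (n 673708 z (n 5330 z (n 690092 z z)))))) (n 0 (n 665516 z (n 681900 z (n 690092 z (n
 5538 z (n 5330 z (n 690092 z z)))))) (n 0 (n 665516 z (n 681900 z (n 690092 z (n 673708 z (n
 211 z (n 690092 z z)))))) (n 0 (n 665516 z (n 681900 z (n 690092 z (n 673708 z (n 5330 z (n
 690092 z z)))))) z)))))) (n 62113 z z)))))) (n 127649 z (n 2721 z z)))))) (n 0 (n 10 z (n 35489
 z (n 19105 z (n 0 (n 202 z (n 51873 z (n 10913 z (n 43681 z (n 27297 z (n 60065 z z)))))) (n 0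
 (n 1962 z (n 125601 z (n 6817 z (n 39585 z (n 23201 z (n 55969 z z)))))) (n 121505 z z))))))
 z)))))) (n 0 (n 27 z (n 10 z (n 10 z (n 0 (n 10 z (n 0 (n 202 z (n 10 z (n 10 z (n 10 z (n 715
 z (n 0 (n 10 z (n 10 z (n 10 z (n 10 z (n 707 z (n 539 z z)))))) z)))))) (n 15009 z (n 47777 z
 (n 31393 z (n 64161 z z)))))) (n 0 (n 10 z (n 129697 z (n 1697 z (n 34465 z (n 18081 z (n 50849
 z z)))))) (n 0 (n 10 z (n 9889 z (n 42657 z (n 26273 z (n 59041 z (n 124577 z z)))))) z))))))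
 (n 0 (n 27 z (n 10 z (n 10 z (n 0 (n 10 z (n 5793 z (n 38561 z (n 22177 z (n 54945 z (n 120481
 z z)))))) (n 0 (n 10 z (n 13985 z (n 46753 z (n 0 (n 1962 z (n 0 (n 30369 z (n 63137 z (n
 128673 z (n 3745 z (n 36513 z (n 20129 z z)))))) (n 52897 z (n 11937 z (n 0 (n 0 (n 665516 z (n
 681900 z (n 690092 z (n 673708 z (n 5330 z (n 690092 z z)))))) (n 0 (n 665516 z (n 681900 z (n
 690092 z (n 673708 z (n 5330 z (n 690092 z z)))))) (n 0 (n 665516 z (n 681900 z (n 690092 z (n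
 673708 z (n 5330 z (n 690092 z z)))))) (n 0 (n 665516 z (n 681900 z (n 690092 z (n 673708 z (n
 5330 z (n 690092 z z)))))) (n 0 (n 665516 z (n 681900 z (n 690092 z (n 673708 z (n 211 z (n
 690092 z z)))))) (n 0 (n 665516 z (n 681900 z (n 690092 z (n 673708 z (n 5330 z (n 690092 z
 z)))))) z)))))) (n 44705 z z)))))) (n 28321 z (n 61089 z z)))))) (n 0 (n 10 z (n 126625 z (n
 7841 z (n 40609 z (n 0 (n 1962 z (n 24225 z (n 56993 z (n 122529 z (n 16033 z (n 48801 z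
 z)))))) (n 32417 z z)))))) z)))))) z)))))) z))))) (n 0 (n 1938 z (n 0 (n 803 z (n 0 (n 27 z (n
 10 z (n 10 z (n 65185 z (n 0 (n 10 z (n 10 z (n 130721 z (n 417 z (n 33185 z (n 16801 z z))))))
 z))))) (n 194 z (n 589828 z (n 0 (n 27 z (n 10 z (n 10 z (n 0 (n 10 z (n 10 z (n 49569 z (n
 8609 z (n 41377 z (n 24993 z z)))))) (n 0 (n 10 z (n 10 z (n 57761 z (n 0 (n 202 z (n 194 z (n
 202 z (n 4513 z (n 37281 z (n 20897 z z)))))) (n 53665 z (n 12705 z z)))))) (n 0 (n 10 z (n 10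
 z (n 45473 z (n 29089 z (n 61857 z (n 2465 z z)))))) z)))))) z))))) (n 194 z (n 0 (n 598020 z
 (n 0 (n 27 z (n 10 z (n 10 z (n 35233 z (n 0 (n 10 z (n 10 z (n 18849 z (n 51617 z (n 10657 z
 (n 43425 z z)))))) z))))) (n 0 (n 27 z (n 10 z (n 10 z (n 27041 z (n 0 (n 10 z (n 10 z (n 59809
 z (n 6561 z (n 39329 z (n 22945 z z)))))) z))))) (n 0 (n 27 z (n 10 z (n 10 z (n 55713 z (n 0
 (n 10 z (n 10 z (n 14753 z (n 47521 z (n 31137 z (n 63905 z z)))))) z))))) (n 0 (n 27 z (n 10 z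
 (n 10 z (n 129441 z (n 0 (n 10 z (n 10 z (n 1441 z (n 34209 z (n 17825 z (n 50593 z z)))))) (n
 0 (n 10 z (n 10 z (n 9633 z (n 42401 z (n 26017 z (n 58785 z z)))))) z)))))) z))))) (n 0 (n 0
 (n 27 z (n 10 z (n 10 z (n 0 (n 10 z (n 10 z (n 5537 z (n 38305 z (n 21921 z (n 54689 z z))))))
 (n 0 (n 10 z (n 10 z (n 13729 z (n 46497 z (n 30113 z (n 62881 z z)))))) (n 0 (n 10 z (n 10 z
 (n 3489 z (n 36257 z (n 0 (n 1962 z (n 19873 z (n 202 z (n 52641 z (n 11681 z (n 44449 z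
 z)))))) (n 0 (n 1954 z (n 202 z (n 202 z (n 28065 z (n 60833 z (n 7585 z z)))))) z))))))
 z)))))) (n 0 (n 27 z (n 10 z (n 10 z (n 0 (n 10 z (n 10 z (n 40353 z (n 23969 z (n 56737 z (n
 15777 z z)))))) (n 0 (n 10 z (n 10 z (n 48545 z (n 32161 z (n 64929 z (n 130465 z z)))))) (n 0
 (n 10 z (n 10 z (n 929 z (n 0 (n 202 z (n 17313 z (n 202 z (n 50081 z (n 9121 z (n 41889 z
 z)))))) (n 25505 z (n 58273 z z)))))) z)))))) (n 0 (n 27 z (n 10 z (n 10 z (n 0 (n 10 z (n 10 z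
 (n 5025 z (n 37793 z (n 21409 z (n 54177 z z)))))) (n 0 (n 10 z (n 10 z (n 13217 z (n 45985 z
 (n 29601 z (n 62369 z z)))))) (n 0 (n 10 z (n 10 z (n 2977 z (n 35745 z (n 19361 z (n 52129 z
 z)))))) z)))))) (n 0 (n 27 z (n 10 z (n 10 z (n 11169 z (n 0 (n 10 z (n 10 z (n 43937 z (n
 27553 z (n 60321 z (n 0 (n 1962 z (n 7073 z (n 202 z (n 39841 z (n 23457 z (n 56225 z z))))))
 z)))))) (n 0 (n 10 z (n 10 z (n 15265 z (n 48033 z (n 31649 z (n 64417 z z)))))) z)))))) (n 0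
 (n 27 z (n 10 z (n 10 z (n 1953 z (n 0 (n 10 z (n 10 z (n 34721 z (n 18337 z (n 51105 z (n
 10145 z z)))))) (n 0 (n 10 z (n 10 z (n 42913 z (n 26529 z (n 59297 z (n 6049 z z)))))) z))))))
 (n 0 (n 27 z (n 10 z (n 10 z (n 0 (n 10 z (n 10 z (n 38817 z (n 22433 z (n 55201 z (n 14241 z
 z)))))) (n 0 (n 10 z (n 10 z (n 47009 z (n 30625 z (n 63393 z (n 4001 z z)))))) (n 0 (n 10 z (n
 10 z (n 36769 z (n 20385 z (n 53153 z (n 12193 z z)))))) z)))))) z)))))) z))))) (n 0 (n 1938 z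
 (n 194 z (n 194 z (n 0 (n 44961 z (n 28577 z (n 194 z (n 195 z (n 61345 z z))))) (n 0 (n 0 (n
 27 z (n 10 z (n 10 z (n 8097 z (n 40865 z (n 24481 z z)))))) (n 0 (n 27 z (n 10 z (n 10 z (n
 57249 z (n 16289 z (n 0 (n 10 z (n 10 z (n 10 z (n 49057 z (n 32673 z (n 251 z z)))))) z))))))
 (n 0 (n 27 z (n 10 z (n 10 z (n 65441 z (n 97 z (n 16481 z z)))))) (n 8289 z (n 24673 z (n 4193
 z z)))))) z))))) (n 0 (n 194 z (n 194 z (n 194 z (n 194 z (n 0 (n 20577 z (n 12385 z (n 194 z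
 (n 28769 z (n 606212 z (n 61537 z z)))))) (n 0 (n 0 (n 27 z (n 10 z (n 10 z (n 0 (n 10 z (n 10
 z (n 10 z (n 10 z (n 0 (n 202 z (n 202 z (n 202 z (n 202 z (n 10 z (n 715 z z)))))) (n 0 (n
 1962 z (n 202 z (n 202 z (n 202 z (n 0 (n 0 (n 819 z (n 843804 z (n 194 z (n 827420 z (n 835612
 z (n 10 z z)))))) (n 0 (n 819 z (n 843804 z (n 843804 z (n 827420 z (n 835612 z (n 835628 z
 z)))))) (n 194 z (n 0 (n 819 z (n 843804 z (n 194 z (n 4978 z (n 835612 z (n 194 z z)))))) (n 0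
 (n 819 z (n 843804 z (n 843804 z (n 827420 z (n 835612 z (n 835628 z z)))))) (n 194 z z))))))
 (n 10 z z)))))) z)))))) (n 0 (n 10 z (n 10 z (n 10 z (n 0 (n 202 z (n 202 z (n 202 z (n 10 z (n
 202 z (n 0 (n 0 (n 763 z (n 845724 z (n 845724 z (n 837532 z (n 10 z (n 829340 z z)))))) (n 0
 (n 763 z (n 845724 z (n 845724 z (n 837532 z (n 837548 z (n 829340 z z)))))) (n 0 (n 763 z (n
 845724 z (n 845724 z (n 837532 z (n 837548 z (n 829340 z z)))))) (n 0 (n 763 z (n 845724 z (n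
 845724 z (n 837532 z (n 837548 z (n 829340 z z)))))) (n 0 (n 763 z (n 845724 z (n 845724 z (n
 837532 z (n 837548 z (n 829340 z z)))))) (n 0 (n 763 z (n 845724 z (n 845724 z (n 837532 z (n
 837548 z (n 5362 z z)))))) z)))))) z)))))) (n 10 z (n 0 (n 1962 z (n 202 z (n 202 z (n 0 (n
 2145 z (n 18529 z (n 10337 z (n 26721 z (n 6241 z (n 22625 z z)))))) (n 202 z (n 10 z z))))))
 z)))))) (n 194 z z)))))) (n 0 (n 27 z (n 10 z (n 10 z (n 0 (n 10 z (n 10 z (n 10 z (n 10 z (n 0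
 (n 202 z (n 202 z (n 202 z (n 202 z (n 10 z (n 715 z z)))))) (n 0 (n 1962 z (n 202 z (n 202 z
 (n 202 z (n 0 (n 10 z (n 0 (n 819 z (n 3626 z (n 843804 z (n 827420 z (n 835612 z (n 10 z
 z)))))) (n 0 (n 819 z (n 843804 z (n 202 z (n 827420 z (n 835612 z (n 835628 z z)))))) (n 0 (n
 819 z (n 843804 z (n 843804 z (n 4978 z (n 835612 z (n 835628 z z)))))) (n 0 (n 819 z (n 843804
 z (n 843804 z (n 827420 z (n 835612 z (n 835628 z z)))))) (n 0 (n 819 z (n 843804 z (n 843804 z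
 (n 827420 z (n 835612 z (n 835628 z z)))))) z)))))) (n 10 z z)))))) z)))))) (n 0 (n 10 z (n 10
 z (n 10 z (n 0 (n 202 z (n 202 z (n 202 z (n 10 z (n 202 z (n 0 (n 10 z (n 0 (n 763 z (n 3618 z
 (n 845724 z (n 837532 z (n 10 z (n 829340 z z)))))) (n 0 (n 763 z (n 845724 z (n 845724 z (n
 837532 z (n 837548 z (n 829340 z z)))))) (n 0 (n 763 z (n 845724 z (n 845724 z (n 837532 z (n
 837548 z (n 829340 z z)))))) (n 0 (n 763 z (n 845724 z (n 845724 z (n 837532 z (n 837548 z (n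
 829340 z z)))))) (n 0 (n 763 z (n 845724 z (n 845724 z (n 837532 z (n 837548 z (n 829340 z
 z)))))) z)))))) z)))))) (n 10 z (n 0 (n 1962 z (n 202 z (n 202 z (n 0 (n 10 z (n 14433 z (n
 30817 z (n 63585 z (n 1121 z (n 17505 z z)))))) (n 202 z (n 10 z z)))))) z)))))) (n 9313 z
 z)))))) (n 194 z (n 25697 z (n 5217 z (n 194 z z)))))) z)))))) z))))) z)))) z))) z)) (n 0 (n
 962 z (n 0 (n 1922 z (n 0 (n 18 z (n 0 (n 978 z (n 267 z (n 0 (n 1938 z (n 299 z (n 427 z (n 0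
 (n 614404 z (n 155 z (n 622596 z (n 194 z (n 0 (n 34 z (n 21601 z (n 0 (n 994 z (n 13409 z (n
 259 z (n 29793 z (n 62561 z (n 3169 z z)))))) (n 194 z (n 19553 z (n 11361 z z)))))) z)))))
 z)))) z))) (n 0 (n 978 z (n 962 z (n 267 z (n 0 (n 1938 z (n 1922 z (n 299 z (n 427 z (n 0 (n
 27745 z (n 155 z (n 0 (n 34 z (n 10 z (n 60513 z (n 7265 z (n 194 z (n 23649 z z)))))) (n 962 z
 (n 194 z (n 15457 z z)))))) z))))) z)))) z))) (n 0 (n 18 z (n 0 (n 978 z (n 267 z (n 0 (n 1938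
 z (n 0 (n 803 z (n 2978 z (n 630788 z (n 638980 z z)))) (n 0 (n 647172 z (n 2978 z (n 4338 z (n
 655364 z z)))) (n 0 (n 663556 z (n 2978 z (n 671748 z (n 679940 z (n 688132 z z))))) z)))) (n 0
 (n 1938 z (n 0 (n 696324 z (n 2978 z (n 704516 z (n 210 z (n 712708 z z))))) (n 0 (n 720900 z
 (n 2978 z (n 0 (n 34 z (n 31841 z (n 0 (n 994 z (n 970 z (n 259 z (n 64609 z (n 609 z z))))) (n
 0 (n 994 z (n 16993 z (n 8801 z (n 259 z (n 0 (n 1954 z (n 25185 z (n 2434 z (n 4705 z (n 21089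
 z (n 12897 z z)))))) z))))) (n 0 (n 994 z (n 29281 z (n 62049 z (n 2657 z (n 259 z (n 19041 z
 z)))))) z))))) (n 729092 z (n 737284 z z))))) (n 0 (n 0 (n 34 z (n 10849 z (n 0 (n 994 z (n 970
 z (n 259 z (n 27233 z (n 6753 z z))))) (n 0 (n 994 z (n 0 (n 1954 z (n 411 z (n 970 z (n 1962 z
 (n 0 (n 0 (n 763 z (n 771228 z (n 1362780 z (n 763036 z (n 1362780 z (n 1362780 z z)))))) (n
 3218 z (n 0 (n 763 z (n 771228 z (n 1556972 z (n 763036 z (n 1581548 z (n 1581548 z z)))))) (n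
 0 (n 763 z (n 771228 z (n 1461084 z (n 763036 z (n 1461084 z (n 1461084 z z)))))) (n 754636 z
 (n 0 (n 763 z (n 771228 z (n 1581548 z (n 763036 z (n 1581548 z (n 1556972 z z)))))) z))))))
 z))))) (n 23137 z (n 259 z (n 14945 z z))))) (n 0 (n 994 z (n 31329 z (n 64097 z (n 1633 z (n
 259 z (n 18017 z z)))))) z))))) (n 2978 z (n 0 (n 34 z (n 9825 z (n 26209 z (n 5729 z (n 0 (n
 994 z (n 22113 z (n 13921 z (n 30305 z (n 259 z (n 63073 z z)))))) z))))) (n 745476 z (n 0 (n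
 34 z (n 3681 z (n 0 (n 994 z (n 970 z (n 259 z (n 20065 z (n 11873 z (n 28257 z z)))))) (n 0 (n
 994 z (n 61025 z (n 7777 z (n 259 z (n 24161 z (n 15969 z z)))))) (n 0 (n 994 z (n 32353 z (n
 65121 z (n 353 z (n 259 z (n 33121 z z)))))) (n 0 (n 994 z (n 16737 z (n 49505 z (n 115041 z (n
 8545 z (n 259 z z)))))) z)))))) z))))) (n 0 (n 0 (n 34 z (n 41313 z (n 0 (n 994 z (n 970 z (n
 259 z (n 24929 z (n 0 (n 1954 z (n 57697 z (n 1954 z (n 123233 z (n 4449 z (n 37217 z z))))))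
 (n 0 (n 1954 z (n 20833 z (n 1954 z (n 53601 z (n 119137 z (n 12641 z z)))))) z)))))) (n 0 (n
 994 z (n 0 (n 1954 z (n 970 z (n 970 z (n 970 z (n 0 (n 0 (n 763 z (n 837532 z (n 845724 z (n
 837548 z (n 829340 z (n 845724 z z)))))) (n 3218 z (n 0 (n 763 z (n 837532 z (n 845724 z (n
 837548 z (n 829340 z (n 845724 z z)))))) (n 0 (n 763 z (n 837532 z (n 845724 z (n 837548 z (n
 829340 z (n 845724 z z)))))) (n 754636 z (n 0 (n 763 z (n 837532 z (n 845724 z (n 837548 z (n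
 829340 z (n 845724 z z)))))) z)))))) (n 0 (n 0 (n 763 z (n 1346396 z (n 1362780 z (n 1354588 z
 (n 1362780 z (n 970 z z)))))) (n 3218 z (n 0 (n 763 z (n 1483244 z (n 1556972 z (n 1511996 z (n
 1581548 z (n 1581548 z z)))))) (n 0 (n 763 z (n 1348660 z (n 1461084 z (n 947060 z (n 1461084 z
 (n 1461084 z z)))))) (n 0 (n 763 z (n 1483244 z (n 1581548 z (n 1511996 z (n 1556972 z (n
 1581548 z z)))))) (n 754636 z z)))))) z)))))) (n 45409 z (n 259 z (n 110945 z (n 29025 z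
 z)))))) (n 0 (n 994 z (n 61793 z (n 0 (n 1954 z (n 127329 z (n 2146 z (n 2401 z (n 35169 z (n
 18785 z z)))))) (n 51553 z (n 259 z (n 117089 z z)))))) (n 0 (n 994 z (n 10593 z (n 43361 z (n
 26977 z (n 0 (n 1954 z (n 59745 z (n 125281 z (n 6497 z (n 39265 z (n 22881 z z)))))) (n 259 z
 z)))))) z)))))) (n 2978 z (n 0 (n 34 z (n 55649 z (n 0 (n 994 z (n 970 z (n 259 z (n 121185 z
 (n 14689 z (n 47457 z z)))))) (n 0 (n 994 z (n 112993 z (n 31073 z (n 259 z (n 0 (n 1954 z (n 0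
 (n 802828 z (n 63841 z (n 129377 z (n 1377 z (n 34145 z (n 17761 z z)))))) (n 50529 z (n 116065
 z (n 2154 z (n 9569 z z)))))) (n 0 (n 1954 z (n 42337 z (n 25953 z (n 58721 z (n 124257 z (n
 5473 z z)))))) z)))))) (n 0 (n 994 z (n 38241 z (n 21857 z (n 54625 z (n 259 z (n 120161 z
 z)))))) (n 0 (n 994 z (n 13665 z (n 46433 z (n 0 (n 1954 z (n 111969 z (n 30049 z (n 62817 z (n
 128353 z (n 3425 z z)))))) (n 0 (n 1954 z (n 36193 z (n 19809 z (n 52577 z (n 118113 z (n 11617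
 z z)))))) (n 259 z z)))))) z)))))) (n 0 (n 34 z (n 44385 z (n 0 (n 994 z (n 970 z (n 259 z (n
 109921 z (n 28001 z (n 60769 z z)))))) (n 0 (n 994 z (n 126305 z (n 7521 z (n 259 z (n 0 (n
 1954 z (n 40289 z (n 23905 z (n 56673 z (n 2154 z (n 122209 z z)))))) (n 0 (n 1954 z (n 15713 z
 (n 48481 z (n 114017 z (n 32097 z (n 64865 z z)))))) z)))))) (n 0 (n 994 z (n 130401 z (n 865 z
 (n 33633 z (n 259 z (n 0 (n 1954 z (n 17249 z (n 50017 z (n 9057 z (n 41825 z (n 25441 z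
 z)))))) z)))))) (n 0 (n 994 z (n 58209 z (n 123745 z (n 4961 z (n 0 (n 1954 z (n 37729 z (n
 21345 z (n 54113 z (n 119649 z (n 13153 z z)))))) (n 259 z z)))))) z)))))) (n 753668 z (n 0 (n
 34 z (n 45921 z (n 0 (n 994 z (n 970 z (n 259 z (n 29537 z (n 62305 z (n 127841 z z)))))) (n 0
 (n 994 z (n 2913 z (n 35681 z (n 259 z (n 0 (n 1954 z (n 19297 z (n 52065 z (n 11105 z (n 2154
 z (n 43873 z z)))))) (n 0 (n 1954 z (n 27489 z (n 60257 z (n 125793 z (n 7009 z (n 39777 z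
 z)))))) z)))))) (n 0 (n 994 z (n 23393 z (n 56161 z (n 121697 z (n 259 z (n 0 (n 1954 z (n
 15201 z (n 47969 z (n 31585 z (n 64353 z (n 129889 z z)))))) z)))))) (n 0 (n 994 z (n 1889 z (n
 34657 z (n 18273 z (n 0 (n 1954 z (n 51041 z (n 10081 z (n 42849 z (n 26465 z (n 59233 z
 z)))))) (n 259 z z)))))) z)))))) z)))))) z))))) z)))) (n 0 (n 978 z (n 962 z (n 267 z (n 0 (n
 1938 z (n 0 (n 771 z (n 761860 z (n 770052 z (n 0 (n 34 z (n 10 z (n 124769 z (n 5985 z (n 0 (n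
 994 z (n 970 z (n 38753 z (n 22369 z (n 259 z (n 0 (n 1954 z (n 55137 z (n 120673 z (n 14177 z
 (n 46945 z (n 30561 z z)))))) z)))))) z))))) (n 0 (n 34 z (n 10 z (n 0 (n 994 z (n 970 z (n 259
 z (n 63329 z (n 128865 z (n 3937 z z)))))) (n 0 (n 994 z (n 970 z (n 36705 z (n 259 z (n 20321
 z (n 0 (n 1954 z (n 53089 z (n 12129 z (n 44897 z (n 28513 z (n 61281 z z)))))) z)))))) (n 0 (n
 994 z (n 970 z (n 126817 z (n 8033 z (n 259 z (n 40801 z z)))))) (n 0 (n 994 z (n 970 z (n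
 24417 z (n 57185 z (n 122721 z (n 259 z z)))))) z)))))) z))))) (n 1938 z (n 0 (n 778244 z (n
 786436 z (n 794628 z (n 2130 z (n 0 (n 34 z (n 10 z (n 16225 z (n 48993 z (n 32609 z (n 65377 z
 z)))))) z))))) (n 0 (n 0 (n 34 z (n 10 z (n 130913 z (n 0 (n 994 z (n 970 z (n 225 z (n 259 z
 (n 0 (n 1954 z (n 32993 z (n 16609 z (n 1962 z (n 2154 z (n 49377 z z)))))) (n 8417 z z))))))
 (n 0 (n 994 z (n 970 z (n 41185 z (n 24801 z (n 259 z (n 57569 z z)))))) (n 0 (n 994 z (n 970 z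
 (n 4321 z (n 37089 z (n 20705 z (n 259 z z)))))) z)))))) (n 0 (n 34 z (n 10 z (n 53473 z (n 0
 (n 994 z (n 970 z (n 12513 z (n 259 z (n 45281 z (n 0 (n 1954 z (n 28897 z (n 61665 z (n 2273 z
 (n 35041 z (n 18657 z z)))))) z)))))) (n 0 (n 994 z (n 970 z (n 0 (n 1954 z (n 970 z (n 2146 z
 (n 51425 z (n 1962 z (n 10465 z z)))))) (n 43233 z (n 259 z (n 26849 z z)))))) (n 0 (n 994 z (n
 970 z (n 59617 z (n 6369 z (n 39137 z (n 259 z z)))))) z)))))) (n 0 (n 34 z (n 10 z (n 22753 z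
 (n 0 (n 994 z (n 970 z (n 55521 z (n 259 z (n 0 (n 1954 z (n 14561 z (n 47329 z (n 1962 z (n
 2154 z (n 30945 z z)))))) (n 63713 z z)))))) (n 0 (n 994 z (n 970 z (n 1249 z (n 34017 z (n 259
 z (n 17633 z z)))))) (n 0 (n 994 z (n 970 z (n 50401 z (n 9441 z (n 42209 z (n 259 z z))))))
 z)))))) (n 0 (n 34 z (n 10 z (n 25825 z (n 0 (n 994 z (n 970 z (n 58593 z (n 259 z (n 5345 z (n
 38113 z z)))))) (n 0 (n 994 z (n 970 z (n 21729 z (n 54497 z (n 259 z (n 13537 z z)))))) (n 0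
 (n 994 z (n 970 z (n 46305 z (n 29921 z (n 62689 z (n 259 z z)))))) z)))))) (n 0 (n 34 z (n 10
 z (n 3297 z (n 0 (n 994 z (n 970 z (n 36065 z (n 259 z (n 0 (n 1954 z (n 19681 z (n 52449 z (n
 1962 z (n 2154 z (n 11489 z z)))))) (n 44257 z z)))))) (n 0 (n 994 z (n 970 z (n 27873 z (n
 60641 z (n 259 z (n 7393 z z)))))) (n 0 (n 994 z (n 970 z (n 40161 z (n 23777 z (n 0 (n 1954 z
 (n 56545 z (n 15585 z (n 48353 z (n 2154 z (n 31969 z z)))))) (n 259 z z)))))) z)))))) (n 0 (n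
 34 z (n 10 z (n 64737 z (n 0 (n 994 z (n 970 z (n 130273 z (n 259 z (n 0 (n 1954 z (n 737 z (n
 0 (n 17121 z (n 49889 z (n 811020 z (n 8929 z (n 41697 z (n 25313 z z)))))) (n 1962 z (n 2154 z
 (n 58081 z z)))))) (n 0 (n 1954 z (n 4833 z (n 37601 z (n 21217 z (n 53985 z (n 13025 z z))))))
 z)))))) (n 0 (n 994 z (n 970 z (n 45793 z (n 29409 z (n 259 z (n 62177 z z)))))) (n 0 (n 994 z
 (n 970 z (n 2785 z (n 35553 z (n 19169 z (n 259 z z)))))) z)))))) z)))))) z))))) z)))) (n 0 (n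
 978 z (n 962 z (n 962 z (n 267 z (n 0 (n 1938 z (n 0 (n 802820 z (n 0 (n 34 z (n 10 z (n 10 z
 (n 51937 z (n 10977 z (n 0 (n 994 z (n 970 z (n 970 z (n 962 z (n 962 z (n 259 z z))))))
 z)))))) (n 0 (n 34 z (n 10 z (n 10 z (n 0 (n 994 z (n 970 z (n 970 z (n 259 z (n 43745 z (n
 27361 z z)))))) (n 0 (n 994 z (n 970 z (n 970 z (n 60129 z (n 259 z (n 6881 z z)))))) (n 0 (n
 994 z (n 970 z (n 970 z (n 962 z (n 962 z (n 259 z z)))))) z)))))) (n 0 (n 34 z (n 10 z (n 10 z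
 (n 39649 z (n 23265 z (n 0 (n 994 z (n 970 z (n 970 z (n 56033 z (n 15073 z (n 259 z z))))))
 z)))))) (n 962 z (n 0 (n 34 z (n 10 z (n 10 z (n 47841 z (n 31457 z (n 0 (n 994 z (n 970 z (n
 970 z (n 962 z (n 962 z (n 259 z z)))))) z)))))) z)))))) (n 0 (n 0 (n 34 z (n 10 z (n 10 z (n
 64225 z (n 1761 z (n 0 (n 994 z (n 970 z (n 970 z (n 962 z (n 962 z (n 259 z z)))))) z)))))) (n
 34529 z (n 811012 z (n 0 (n 34 z (n 10 z (n 10 z (n 18145 z (n 50913 z (n 9953 z z)))))) (n 962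
 z (n 42721 z z)))))) (n 0 (n 0 (n 34 z (n 10 z (n 10 z (n 218 z (n 218 z (n 0 (n 994 z (n 970 z
 (n 970 z (n 0 (n 1954 z (n 10 z (n 10 z (n 1946 z (n 1946 z (n 283 z z)))))) (n 0 (n 1954 z (n
 10 z (n 10 z (n 1946 z (n 1194 z (n 283 z z)))))) (n 259 z z)))))) z)))))) (n 819204 z (n 0 (n
 34 z (n 10 z (n 10 z (n 218 z (n 218 z (n 0 (n 994 z (n 970 z (n 970 z (n 0 (n 1954 z (n 10 z
 (n 10 z (n 1946 z (n 1946 z (n 283 z z)))))) (n 0 (n 1954 z (n 10 z (n 10 z (n 1946 z (n 1194 z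
 (n 283 z z)))))) (n 259 z z)))))) z)))))) (n 210 z (n 210 z (n 0 (n 34 z (n 10 z (n 10 z (n 218
 z (n 218 z (n 0 (n 994 z (n 970 z (n 970 z (n 0 (n 1954 z (n 10 z (n 10 z (n 1946 z (n 1946 z
 (n 283 z z)))))) (n 0 (n 1954 z (n 10 z (n 10 z (n 1946 z (n 1194 z (n 283 z z)))))) (n 259 z
 z)))))) z)))))) z)))))) (n 962 z (n 0 (n 0 (n 34 z (n 10 z (n 10 z (n 0 (n 994 z (n 970 z (n
 970 z (n 259 z (n 0 (n 1954 z (n 10 z (n 10 z (n 234 z (n 1194 z (n 715 z z)))))) (n 0 (n 1954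
 z (n 10 z (n 10 z (n 234 z (n 0 (n 0 (n 819 z (n 843804 z (n 843804 z (n 4642 z (n 835612 z (n
 10 z z)))))) (n 0 (n 819 z (n 843804 z (n 843804 z (n 946 z (n 835612 z (n 835628 z z)))))) (n
 0 (n 819 z (n 843804 z (n 843804 z (n 827420 z (n 835612 z (n 835628 z z)))))) (n 0 (n 819 z (n
 843804 z (n 843804 z (n 4978 z (n 835612 z (n 835628 z z)))))) (n 0 (n 819 z (n 843804 z (n
 843804 z (n 827420 z (n 835612 z (n 835628 z z)))))) (n 0 (n 819 z (n 843804 z (n 843804 z (n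
 827420 z (n 835612 z (n 835628 z z)))))) z)))))) (n 2154 z z)))))) z)))))) (n 0 (n 994 z (n 970
 z (n 970 z (n 0 (n 1954 z (n 10 z (n 10 z (n 1194 z (n 234 z (n 0 (n 0 (n 763 z (n 845724 z (n
 845724 z (n 837532 z (n 10 z (n 4738 z z)))))) (n 0 (n 763 z (n 845724 z (n 845724 z (n 837532
 z (n 962 z (n 829340 z z)))))) (n 0 (n 763 z (n 845724 z (n 845724 z (n 837532 z (n 962 z (n
 2866 z z)))))) (n 0 (n 763 z (n 845724 z (n 845724 z (n 837532 z (n 837548 z (n 829340 z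
 z)))))) (n 962 z (n 0 (n 763 z (n 845724 z (n 845724 z (n 837532 z (n 962 z (n 5362 z z))))))
 z)))))) z)))))) (n 259 z (n 0 (n 1954 z (n 10 z (n 10 z (n 0 (n 26337 z (n 59105 z (n 5857 z (n
 38625 z (n 22241 z (n 55009 z z)))))) (n 1962 z (n 1194 z z)))))) z)))))) (n 0 (n 994 z (n 970
 z (n 970 z (n 962 z (n 962 z (n 259 z z)))))) z)))))) (n 14049 z (n 0 (n 34 z (n 10 z (n 10 z
 (n 0 (n 994 z (n 970 z (n 970 z (n 259 z (n 0 (n 1954 z (n 10 z (n 10 z (n 234 z (n 1194 z (n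
 715 z z)))))) (n 0 (n 1954 z (n 10 z (n 10 z (n 234 z (n 0 (n 10 z (n 10 z (n 0 (n 819 z (n
 843804 z (n 3634 z (n 4650 z (n 835612 z (n 10 z z)))))) (n 0 (n 819 z (n 843804 z (n 843804 z
 (n 4978 z (n 835612 z (n 835628 z z)))))) (n 0 (n 819 z (n 843804 z (n 843804 z (n 827420 z (n
 835612 z (n 835628 z z)))))) (n 0 (n 819 z (n 843804 z (n 843804 z (n 827420 z (n 835612 z (n
 835628 z z)))))) z)))))) (n 2154 z z)))))) z)))))) (n 0 (n 994 z (n 970 z (n 970 z (n 0 (n 1954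
 z (n 10 z (n 10 z (n 1194 z (n 234 z (n 0 (n 10 z (n 10 z (n 0 (n 763 z (n 845724 z (n 3634 z
 (n 837532 z (n 10 z (n 2674 z z)))))) (n 0 (n 763 z (n 845724 z (n 845724 z (n 837532 z (n
 837548 z (n 4402 z z)))))) (n 962 z (n 0 (n 763 z (n 845724 z (n 845724 z (n 837532 z (n 962 z
 (n 5362 z z)))))) z)))))) z)))))) (n 259 z (n 0 (n 1954 z (n 10 z (n 10 z (n 0 (n 10 z (n 10 z
 (n 46817 z (n 30433 z (n 63201 z (n 3809 z z)))))) (n 1962 z (n 1194 z z)))))) z)))))) (n 0 (n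
 994 z (n 970 z (n 970 z (n 962 z (n 962 z (n 259 z z)))))) z)))))) (n 36577 z (n 962 z (n 20193
 z z)))))) z)))))) z))))) z)))) z))) (n 0 (n 1922 z (n 194 z (n 1154 z (n 0 (n 18 z (n 0 (n 978
 z (n 18 z (n 0 (n 1938 z (n 210 z (n 1170 z (n 651 z (n 0 (n 0 (n 34 z (n 52961 z (n 12001 z (n
 0 (n 994 z (n 962 z (n 962 z (n 34 z (n 44769 z (n 28385 z z)))))) (n 18 z (n 0 (n 994 z (n 962
 z (n 962 z (n 962 z (n 962 z (n 34 z z)))))) z)))))) (n 3458 z (n 3506 z (n 0 (n 34 z (n 61153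
 z (n 0 (n 994 z (n 0 (n 1954 z (n 1186 z (n 226 z (n 0 (n 755 z (n 837516 z (n 962 z (n 3442 z
 (n 845708 z (n 845708 z z)))))) (n 0 (n 755 z (n 0 (n 763 z (n 643 z (n 837548 z (n 845724 z (n
 2674 z (n 845724 z z)))))) (n 962 z (n 0 (n 763 z (n 837532 z (n 962 z (n 643 z (n 2674 z (n
 845724 z z)))))) (n 0 (n 763 z (n 837532 z (n 962 z (n 845724 z (n 643 z (n 845724 z z)))))) (n
 0 (n 763 z (n 837532 z (n 962 z (n 845724 z (n 2674 z (n 643 z z)))))) z)))))) (n 0 (n 755 z (n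
 0 (n 763 z (n 643 z (n 1430844 z (n 1601100 z (n 1609292 z (n 1609292 z z)))))) (n 962 z (n 0
 (n 763 z (n 1602060 z (n 962 z (n 643 z (n 1892868 z (n 1892868 z z)))))) (n 0 (n 763 z (n
 1610252 z (n 962 z (n 1893060 z (n 643 z (n 1901036 z z)))))) (n 0 (n 763 z (n 1610252 z (n 962
 z (n 1893060 z (n 1901036 z (n 643 z z)))))) z)))))) z)))))) (n 34 z (n 7905 z (n 40673 z (n
 24289 z z)))))) (n 57057 z (n 16097 z (n 0 (n 994 z (n 962 z (n 962 z (n 962 z (n 962 z (n 34 z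
 z)))))) z)))))) (n 18 z (n 0 (n 34 z (n 48865 z (n 0 (n 994 z (n 0 (n 1954 z (n 1186 z (n 226 z
 (n 0 (n 755 z (n 837516 z (n 962 z (n 829324 z (n 845708 z (n 845708 z z)))))) (n 18 z (n 0 (n
 755 z (n 0 (n 763 z (n 643 z (n 1430844 z (n 1609292 z (n 1609292 z (n 1601100 z z)))))) (n 962
 z (n 0 (n 763 z (n 18 z (n 18 z (n 643 z (n 1901036 z (n 1893060 z z)))))) (n 0 (n 763 z (n 18
 z (n 18 z (n 835 z (n 643 z (n 1893060 z z)))))) (n 0 (n 763 z (n 18 z (n 18 z (n 18 z (n 18 z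
 (n 643 z z)))))) z)))))) z)))))) (n 34 z (n 0 (n 1954 z (n 0 (n 876556 z (n 32481 z (n 65249 z
 (n 481 z (n 33249 z (n 16865 z z)))))) (n 226 z (n 1186 z (n 49633 z (n 115169 z z)))))) (n 18
 z (n 8673 z z)))))) (n 0 (n 994 z (n 962 z (n 962 z (n 34 z (n 41441 z (n 106977 z z)))))) (n
 18 z (n 0 (n 994 z (n 962 z (n 962 z (n 962 z (n 962 z (n 34 z z)))))) z)))))) z)))))) z)))))
 (n 0 (n 1938 z (n 210 z (n 0 (n 803 z (n 827396 z (n 835588 z (n 18 z (n 843780 z z))))) (n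
 1170 z (n 0 (n 851972 z (n 0 (n 34 z (n 514 z (n 0 (n 994 z (n 25057 z (n 34 z (n 57825 z (n
 123361 z (n 4577 z z)))))) (n 37345 z (n 210 z (n 102881 z z)))))) (n 860164 z (n 868356 z (n
 210 z (n 0 (n 34 z (n 20961 z (n 0 (n 994 z (n 53729 z (n 34 z (n 119265 z (n 12769 z (n 45537
 z z)))))) (n 111073 z (n 210 z (n 29153 z z)))))) z)))))) z))))) (n 0 (n 1938 z (n 210 z (n 18
 z (n 194 z (n 1170 z (n 0 (n 0 (n 34 z (n 0 (n 994 z (n 34 z (n 10 z (n 10 z (n 26 z (n 26 z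
 z)))))) (n 0 (n 994 z (n 61921 z (n 34 z (n 0 (n 1954 z (n 0 (n 876556 z (n 127457 z (n 2529 z
 (n 35297 z (n 18913 z (n 51681 z z)))))) (n 226 z (n 1186 z (n 117217 z (n 10721 z z)))))) (n 0
 (n 1954 z (n 1002 z (n 226 z (n 1930 z (n 1186 z (n 1178 z z)))))) (n 43489 z z)))))) (n 194 z
 (n 18 z (n 18 z z)))))) (n 109025 z (n 0 (n 34 z (n 0 (n 994 z (n 34 z (n 10 z (n 10 z (n 26 z
 (n 26 z z)))))) (n 0 (n 994 z (n 27105 z (n 34 z (n 0 (n 1954 z (n 0 (n 876556 z (n 59873 z (n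
 125409 z (n 6625 z (n 39393 z (n 104929 z z)))))) (n 226 z (n 1186 z (n 23009 z (n 55777 z
 z)))))) (n 0 (n 1954 z (n 1002 z (n 226 z (n 1930 z (n 1186 z (n 1178 z z)))))) (n 121313 z
 z)))))) (n 0 (n 994 z (n 0 (n 1954 z (n 1186 z (n 0 (n 876580 z (n 14817 z (n 47585 z (n 113121
 z (n 31201 z (n 63969 z z)))))) (n 226 z (n 129505 z (n 1962 z z)))))) (n 970 z (n 34 z (n 1505
 z (n 34273 z z)))))) (n 0 (n 994 z (n 17889 z (n 0 (n 1954 z (n 994 z (n 1186 z (n 1162 z (n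
 226 z (n 1946 z z)))))) (n 50657 z (n 34 z (n 0 (n 1954 z (n 0 (n 116193 z (n 9697 z (n 42465 z
 (n 108001 z (n 26081 z (n 58849 z z)))))) (n 124385 z (n 5601 z (n 226 z (n 1186 z z))))))
 z)))))) (n 0 (n 994 z (n 0 (n 1954 z (n 1186 z (n 38369 z (n 1954 z (n 0 (n 103905 z (n 21985 z
 (n 54753 z (n 120289 z (n 13793 z (n 46561 z z)))))) (n 226 z z)))))) (n 112097 z (n 30177 z (n
 986 z (n 34 z z)))))) z)))))) (n 194 z (n 18 z (n 18 z z)))))) z)))))) z))))) (n 0 (n 978 z (n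
 0 (n 1938 z (n 1170 z (n 210 z (n 1922 z (n 0 (n 747 z (n 0 (n 34 z (n 10 z (n 26 z (n 62945 z
 (n 128481 z (n 0 (n 994 z (n 986 z (n 970 z (n 978 z (n 978 z (n 34 z z)))))) z)))))) (n 18 z
 (n 0 (n 34 z (n 10 z (n 26 z (n 3553 z (n 36321 z (n 0 (n 994 z (n 986 z (n 970 z (n 962 z (n
 962 z (n 34 z z)))))) z)))))) (n 18 z (n 19937 z z)))))) z))))) (n 18 z (n 0 (n 1938 z (n 0 (n
 876548 z (n 0 (n 34 z (n 10 z (n 26 z (n 0 (n 994 z (n 52705 z (n 970 z (n 34 z (n 0 (n 1954 z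
 (n 1946 z (n 118241 z (n 226 z (n 1186 z (n 0 (n 11745 z (n 44513 z (n 110049 z (n 28129 z (n
 60897 z (n 126433 z z)))))) z)))))) z))))) (n 7649 z z))))) (n 210 z (n 978 z (n 0 (n 34 z (n
 10 z (n 26 z (n 0 (n 994 z (n 40417 z (n 970 z (n 34 z (n 0 (n 1954 z (n 1946 z (n 210 z (n 226
 z (n 1186 z (n 0 (n 105953 z (n 24033 z (n 56801 z (n 122337 z (n 15841 z (n 48609 z z))))))
 z)))))) (n 0 (n 1954 z (n 1946 z (n 210 z (n 226 z (n 210 z (n 1186 z z)))))) z)))))) (n 0 (n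
 994 z (n 978 z (n 970 z (n 986 z (n 34 z (n 0 (n 1954 z (n 1946 z (n 1922 z (n 1930 z (n 226 z
 (n 1186 z z)))))) z)))))) (n 0 (n 994 z (n 978 z (n 970 z (n 986 z (n 978 z (n 34 z z))))))
 z)))))) z))))) (n 210 z (n 1170 z (n 0 (n 884740 z (n 0 (n 34 z (n 10 z (n 26 z (n 0 (n 994 z
 (n 114145 z (n 970 z (n 34 z (n 32225 z (n 64993 z z)))))) (n 130529 z (n 993 z z)))))) (n 0 (n
 34 z (n 10 z (n 26 z (n 33761 z (n 0 (n 994 z (n 17377 z (n 970 z (n 986 z (n 34 z (n 50145 z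
 z)))))) (n 115681 z z)))))) (n 2130 z (n 2130 z (n 9185 z z)))))) z))))) (n 0 (n 1938 z (n 978
 z (n 210 z (n 1922 z (n 1170 z (n 0 (n 0 (n 34 z (n 10 z (n 26 z (n 0 (n 994 z (n 970 z (n 970
 z (n 34 z (n 986 z (n 0 (n 1954 z (n 202 z (n 202 z (n 226 z (n 1178 z (n 1186 z z))))))
 z)))))) (n 0 (n 994 z (n 0 (n 1954 z (n 1186 z (n 34 z (n 1930 z (n 226 z (n 1946 z z)))))) (n
 970 z (n 0 (n 1954 z (n 226 z (n 1002 z (n 1186 z (n 226 z (n 1946 z z)))))) (n 34 z (n 26 z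
 z)))))) (n 0 (n 994 z (n 978 z (n 970 z (n 0 (n 1954 z (n 226 z (n 218 z (n 1186 z (n 218 z (n
 226 z z)))))) (n 986 z (n 34 z z)))))) z)))))) (n 0 (n 34 z (n 10 z (n 26 z (n 0 (n 994 z (n
 970 z (n 970 z (n 34 z (n 986 z (n 0 (n 1954 z (n 202 z (n 202 z (n 226 z (n 1178 z (n 1186 z
 z)))))) z)))))) (n 0 (n 994 z (n 0 (n 1954 z (n 1186 z (n 34 z (n 1930 z (n 226 z (n 1946 z
 z)))))) (n 970 z (n 0 (n 1954 z (n 226 z (n 1002 z (n 1186 z (n 226 z (n 1946 z z)))))) (n 34 z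
 (n 26 z z)))))) (n 0 (n 994 z (n 0 (n 1954 z (n 1186 z (n 34 z (n 1930 z (n 218 z (n 226 z
 z)))))) (n 970 z (n 0 (n 1954 z (n 226 z (n 218 z (n 1186 z (n 218 z (n 226 z z)))))) (n 986 z
 (n 34 z z)))))) z)))))) (n 0 (n 34 z (n 10 z (n 26 z (n 0 (n 994 z (n 970 z (n 970 z (n 34 z (n
 986 z (n 0 (n 1954 z (n 202 z (n 202 z (n 226 z (n 1178 z (n 1186 z z)))))) z)))))) (n 0 (n 994
 z (n 0 (n 1954 z (n 1186 z (n 34 z (n 1930 z (n 226 z (n 1946 z z)))))) (n 970 z (n 0 (n 1954 z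
 (n 226 z (n 1002 z (n 1186 z (n 226 z (n 1946 z z)))))) (n 34 z (n 26 z z)))))) (n 0 (n 994 z
 (n 978 z (n 970 z (n 0 (n 1954 z (n 226 z (n 218 z (n 1186 z (n 218 z (n 226 z z)))))) (n 986 z
 (n 34 z z)))))) z)))))) (n 0 (n 34 z (n 10 z (n 26 z (n 0 (n 994 z (n 970 z (n 970 z (n 34 z (n
 986 z (n 0 (n 1954 z (n 202 z (n 202 z (n 226 z (n 1178 z (n 1186 z z)))))) z)))))) (n 0 (n 994
 z (n 0 (n 1954 z (n 1186 z (n 34 z (n 1930 z (n 226 z (n 1946 z z)))))) (n 970 z (n 0 (n 1954 z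
 (n 226 z (n 1002 z (n 1186 z (n 226 z (n 1946 z z)))))) (n 34 z (n 26 z z)))))) (n 0 (n 994 z
 (n 0 (n 1954 z (n 1186 z (n 34 z (n 1930 z (n 218 z (n 226 z z)))))) (n 970 z (n 0 (n 1954 z (n
 226 z (n 218 z (n 1186 z (n 218 z (n 226 z z)))))) (n 986 z (n 34 z z)))))) z)))))) (n 978 z (n
 978 z z)))))) z)))))) z))))) (n 194 z (n 0 (n 978 z (n 962 z (n 962 z (n 962 z (n 18 z (n 0 (n
 1938 z (n 18 z (n 978 z (n 1922 z (n 210 z (n 1170 z z)))))) z)))))) z))))) z)))) z))) z)) (n 0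
 (n 0 (n 50 z (n 0 (n 242 z (n 1202 z (n 0 (n 35 z (n 0 (n 0 (n 731 z (n 0 (n 747 z (n 555 z (n
 892932 z (n 901124 z z)))) (n 0 (n 747 z (n 50 z (n 555 z (n 909316 z z)))) (n 0 (n 747 z (n 50
 z (n 50 z (n 555 z (n 917508 z z))))) z)))) (n 0 (n 0 (n 555 z (n 1442 z (n 925700 z (n 933892
 z z)))) (n 1250 z (n 0 (n 50 z (n 1442 z (n 555 z (n 0 (n 27 z (n 0 (n 10 z (n 43 z (n 41953 z
 (n 107489 z (n 25569 z z))))) (n 0 (n 58337 z (n 43 z (n 123873 z (n 5089 z (n 37857 z z)))))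
 (n 0 (n 103393 z (n 43 z (n 21473 z (n 54241 z (n 0 (n 119777 z (n 13281 z (n 46049 z (n 111585
 z (n 29665 z (n 62433 z z)))))) z))))) (n 0 (n 127969 z (n 43 z (n 3041 z (n 35809 z (n 0 (n
 101345 z (n 19425 z (n 52193 z (n 117729 z (n 11233 z (n 44001 z z)))))) (n 0 (n 109537 z (n
 27617 z (n 60385 z (n 125921 z (n 7137 z (n 39905 z z)))))) z)))))) z))))) z)))) (n 0 (n 50 z
 (n 1442 z (n 50 z (n 555 z (n 0 (n 27 z (n 0 (n 10 z (n 43 z (n 105441 z (n 23521 z (n 50 z (n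
 56289 z z)))))) (n 0 (n 121825 z (n 43 z (n 15329 z (n 48097 z (n 50 z (n 113633 z z)))))) (n 0
 (n 31713 z (n 43 z (n 0 (n 64481 z (n 130017 z (n 2017 z (n 34785 z (n 18401 z (n 51169 z
 z)))))) (n 0 (n 116705 z (n 0 (n 0 (n 787 z (n 819 z (n 1598724 z (n 5570 z (n 1598724 z (n
 1598724 z z)))))) (n 547 z (n 0 (n 787 z (n 819 z (n 1598724 z (n 5570 z (n 1598724 z (n
 1598724 z z)))))) (n 1037012 z (n 0 (n 787 z (n 819 z (n 1598724 z (n 5570 z (n 3602 z (n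
 1598724 z z)))))) (n 0 (n 787 z (n 819 z (n 1598724 z (n 5570 z (n 1598724 z (n 1598724 z
 z)))))) z)))))) (n 10209 z (n 42977 z (n 108513 z (n 26593 z z)))))) (n 59361 z (n 0 (n 124897
 z (n 6113 z (n 38881 z (n 104417 z (n 22497 z (n 55265 z z)))))) z)))))) (n 50 z (n 0 (n 120801
 z (n 43 z (n 14305 z (n 0 (n 47073 z (n 112609 z (n 30689 z (n 63457 z (n 128993 z (n 4065 z
 z)))))) (n 50 z (n 36833 z z)))))) z)))))) z))))) z)))) (n 0 (n 0 (n 555 z (n 942084 z (n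
 950276 z (n 958468 z z)))) (n 0 (n 50 z (n 555 z (n 966660 z (n 0 (n 27 z (n 0 (n 10 z (n 10 z
 (n 102369 z (n 20449 z (n 53217 z z))))) (n 0 (n 118753 z (n 12257 z (n 45025 z (n 110561 z (n
 28641 z z))))) (n 0 (n 61409 z (n 126945 z (n 8161 z (n 40929 z (n 106465 z z))))) (n 0 (n 0 (n
 24545 z (n 57313 z (n 122849 z (n 16353 z (n 49121 z (n 114657 z z)))))) (n 32737 z (n 65505 z
 (n 131041 z (n 17 z (n 0 (n 16401 z (n 49169 z (n 8209 z (n 24593 z (n 57361 z (n 4113 z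
 z)))))) z)))))) z))))) z)))) (n 0 (n 50 z (n 50 z (n 555 z (n 0 (n 27 z (n 0 (n 10 z (n 10 z (n
 20497 z (n 53265 z (n 12305 z z))))) (n 0 (n 45073 z (n 28689 z (n 61457 z (n 2065 z (n 18449 z
 z))))) (n 0 (n 51217 z (n 10257 z (n 26641 z (n 59409 z (n 6161 z z))))) (n 0 (n 22545 z (n
 55313 z (n 14353 z (n 0 (n 47121 z (n 30737 z (n 63505 z (n 411 z (n 1041 z (n 17425 z z))))))
 (n 0 (n 50193 z (n 9233 z (n 25617 z (n 58385 z (n 411 z (n 5137 z z)))))) (n 0 (n 21521 z (n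
 54289 z (n 13329 z (n 46097 z (n 29713 z (n 411 z z)))))) z)))))) z))))) z)))) (n 0 (n 50 z (n
 50 z (n 50 z (n 555 z (n 0 (n 27 z (n 0 (n 10 z (n 10 z (n 62481 z (n 0 (n 3089 z (n 19473 z (n
 52241 z (n 11281 z (n 27665 z (n 60433 z z)))))) (n 50 z (n 7185 z z)))))) (n 0 (n 23569 z (n
 56337 z (n 15377 z (n 48145 z (n 50 z (n 31761 z z)))))) (n 0 (n 64529 z (n 529 z (n 16913 z (n
 0 (n 49681 z (n 8721 z (n 25105 z (n 57873 z (n 4625 z (n 21009 z z)))))) (n 0 (n 53777 z (n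
 12817 z (n 45585 z (n 29201 z (n 61969 z (n 2577 z z)))))) (n 0 (n 18961 z (n 51729 z (n 10769
 z (n 27153 z (n 59921 z (n 6673 z z)))))) z)))))) (n 50 z (n 0 (n 23057 z (n 55825 z (n 14865 z
 (n 0 (n 47633 z (n 31249 z (n 64017 z (n 1553 z (n 17937 z (n 50705 z z)))))) (n 50 z (n 9745 z
 z)))))) z)))))) z))))) z)))) (n 0 (n 0 (n 555 z (n 0 (n 27 z (n 26129 z (n 0 (n 58897 z (n 5649
 z (n 22033 z (n 54801 z (n 13841 z z))))) (n 0 (n 46609 z (n 0 (n 0 (n 547 z (n 1490 z (n 0 (n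
 595 z (n 2530 z (n 1148932 z (n 1043108 z (n 1148932 z z))))) (n 0 (n 763 z (n 827 z (n 1148932
 z (n 5602 z (n 1148932 z z))))) (n 0 (n 763 z (n 2530 z (n 1148932 z (n 1043108 z (n 1148932 z
 (n 1148932 z z)))))) z))))) (n 1298 z (n 0 (n 0 (n 763 z (n 659 z (n 1523932 z (n 1515740 z (n
 1532124 z z))))) (n 1490 z (n 547 z (n 0 (n 763 z (n 659 z (n 1523932 z (n 5602 z (n 1532124 z
 z))))) (n 0 (n 763 z (n 659 z (n 1523932 z (n 1515740 z (n 1532124 z (n 1532124 z z))))))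
 z))))) (n 0 (n 0 (n 763 z (n 1356836 z (n 1466588 z (n 1045716 z (n 1466588 z z))))) (n 1490 z
 (n 0 (n 595 z (n 1356836 z (n 1466588 z (n 1045716 z (n 1466588 z z))))) (n 547 z (n 0 (n 763 z
 (n 1356836 z (n 1466588 z (n 1045716 z (n 1466588 z (n 1466588 z z)))))) z))))) (n 0 (n 0 (n
 763 z (n 1507548 z (n 1532124 z (n 1515740 z (n 1523932 z (n 1532124 z z)))))) (n 1490 z (n 0
 (n 595 z (n 1507548 z (n 1532124 z (n 1515740 z (n 1523932 z (n 1532124 z z)))))) (n 0 (n 763 z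
 (n 827 z (n 1532124 z (n 5602 z (n 1523932 z (n 1532124 z z)))))) (n 547 z (n 0 (n 763 z (n
 1507548 z (n 1532124 z (n 1515740 z (n 1523932 z (n 1532124 z z)))))) z)))))) z))))) (n 30225 z
 (n 62993 z (n 0 (n 3601 z (n 19985 z (n 52753 z (n 11793 z (n 28177 z (n 60945 z z)))))) z)))))
 (n 0 (n 7697 z (n 24081 z (n 0 (n 56849 z (n 15889 z (n 48657 z (n 32273 z (n 65041 z (n 273 z
 z)))))) (n 33041 z (n 98577 z (n 0 (n 16657 z (n 49425 z (n 114961 z (n 8465 z (n 41233 z (n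
 106769 z z)))))) z)))))) z))))) (n 974852 z (n 983044 z (n 0 (n 27 z (n 0 (n 10 z (n 10 z (n 10
 z (n 24849 z (n 0 (n 0 (n 547 z (n 10 z (n 10 z (n 0 (n 2642 z (n 827 z (n 2050 z (n 2050 z (n
 2050 z (n 2050 z z)))))) (n 699 z (n 0 (n 2642 z (n 722 z (n 2050 z (n 2050 z (n 2050 z (n 2050
 z z)))))) z)))))) (n 90385 z (n 57617 z (n 123153 z (n 4369 z (n 37137 z z)))))) (n 102673 z
 z)))))) (n 0 (n 0 (n 0 (n 395 z (n 991244 z (n 999436 z (n 1007628 z (n 1007628 z (n 1007628 z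
 z)))))) (n 20753 z (n 53521 z (n 0 (n 1007676 z (n 0 (n 1484780 z (n 819 z (n 1558508 z (n
 1512004 z (n 1583084 z (n 1583084 z z)))))) (n 0 (n 1484780 z (n 819 z (n 1558508 z (n 1512004
 z (n 1583084 z (n 1583084 z z)))))) (n 547 z (n 0 (n 1484780 z (n 819 z (n 1558508 z (n 1512004
 z (n 3602 z (n 1583084 z z)))))) (n 0 (n 1484780 z (n 819 z (n 1558508 z (n 1512004 z (n
 1583084 z (n 1583084 z z)))))) z)))))) (n 119057 z (n 12561 z z)))))) (n 45329 z (n 110865 z (n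
 28945 z (n 0 (n 94481 z (n 61713 z (n 127249 z (n 2321 z (n 35089 z (n 100625 z z)))))) (n 0 (n
 18705 z (n 51473 z (n 117009 z (n 10513 z (n 43281 z (n 108817 z z)))))) z)))))) (n 0 (n 26897
 z (n 0 (n 0 (n 547 z (n 1490 z (n 0 (n 595 z (n 2530 z (n 1148932 z (n 1043108 z (n 1148932 z
 (n 1148932 z z)))))) (n 0 (n 763 z (n 2530 z (n 1148932 z (n 1043108 z (n 1148932 z (n 1148932
 z z)))))) (n 0 (n 763 z (n 2530 z (n 1148932 z (n 1043108 z (n 3602 z (n 1148932 z z)))))) (n 0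
 (n 763 z (n 2530 z (n 1148932 z (n 1043108 z (n 1148932 z (n 1148932 z z)))))) z)))))) (n 1298
 z (n 0 (n 0 (n 763 z (n 1507548 z (n 1523932 z (n 1515740 z (n 659 z (n 1532124 z z)))))) (n
 1490 z (n 547 z (n 0 (n 763 z (n 1507548 z (n 1523932 z (n 1515740 z (n 659 z (n 1532124 z
 z)))))) (n 0 (n 763 z (n 1507548 z (n 1523932 z (n 1515740 z (n 659 z (n 1532124 z z)))))) (n 0
 (n 763 z (n 1507548 z (n 1523932 z (n 1515740 z (n 659 z (n 1532124 z z)))))) z)))))) (n 0 (n 0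
 (n 763 z (n 1356836 z (n 1466588 z (n 1045716 z (n 1466588 z (n 1466588 z z)))))) (n 1490 z (n
 0 (n 595 z (n 1356836 z (n 1466588 z (n 1045716 z (n 1466588 z (n 1466588 z z)))))) (n 547 z (n
 0 (n 763 z (n 1356836 z (n 1466588 z (n 1045716 z (n 3602 z (n 1466588 z z)))))) (n 0 (n 763 z
 (n 1356836 z (n 1466588 z (n 1045716 z (n 1466588 z (n 1466588 z z)))))) z)))))) (n 0 (n 0 (n
 763 z (n 1507548 z (n 835 z (n 1515740 z (n 1523932 z (n 1532124 z z)))))) (n 1490 z (n 0 (n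
 595 z (n 1507548 z (n 1532124 z (n 1515740 z (n 1523932 z (n 1532124 z z)))))) (n 0 (n 763 z (n
 1507548 z (n 1532124 z (n 1515740 z (n 1523932 z (n 1532124 z z)))))) (n 547 z (n 0 (n 763 z (n
 1507548 z (n 1532124 z (n 1515740 z (n 1523932 z (n 1532124 z z)))))) z)))))) (n 0 (n 0 (n 763
 z (n 1507548 z (n 1532124 z (n 1515740 z (n 1532124 z (n 1523932 z z)))))) (n 1490 z (n 0 (n
 595 z (n 1507548 z (n 1532124 z (n 1515740 z (n 1532124 z (n 1523932 z z)))))) (n 0 (n 763 z (n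
 1507548 z (n 1532124 z (n 1515740 z (n 1532124 z (n 1523932 z z)))))) (n 0 (n 763 z (n 1507548
 z (n 1532124 z (n 1515740 z (n 3602 z (n 1523932 z z)))))) (n 547 z z)))))) z)))))) (n 92433 z
 (n 59665 z (n 0 (n 125201 z (n 6417 z (n 39185 z (n 104721 z (n 22801 z (n 55569 z z)))))) (n 0
 (n 121105 z (n 14609 z (n 47377 z (n 112913 z (n 30993 z (n 96529 z z)))))) z)))))) (n 0 (n
 63761 z (n 0 (n 129297 z (n 1298 z (n 1297 z (n 34065 z (n 99601 z (n 17681 z z)))))) (n 0 (n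
 50449 z (n 115985 z (n 9489 z (n 42257 z (n 107793 z (n 25873 z z)))))) (n 91409 z (n 58641 z
 (n 0 (n 124177 z (n 5393 z (n 38161 z (n 103697 z (n 21777 z (n 54545 z z)))))) z)))))) (n 0 (n
 120081 z (n 13585 z (n 0 (n 46353 z (n 111889 z (n 29969 z (n 95505 z (n 62737 z (n 128273 z
 z)))))) (n 3345 z (n 0 (n 36113 z (n 101649 z (n 19729 z (n 52497 z (n 118033 z (n 11537 z
 z)))))) (n 44305 z z)))))) z)))))) z))))) (n 0 (n 50 z (n 555 z (n 0 (n 27 z (n 109841 z (n 0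
 (n 27921 z (n 93457 z (n 60689 z (n 126225 z (n 7441 z z))))) (n 0 (n 40209 z (n 105745 z (n
 23825 z (n 89361 z (n 0 (n 56593 z (n 122129 z (n 15633 z (n 48401 z (n 113937 z (n 32017 z
 z)))))) z))))) (n 0 (n 0 (n 97553 z (n 64785 z (n 130321 z (n 785 z (n 33553 z (n 99089 z
 z)))))) (n 17169 z (n 49937 z (n 115473 z (n 8977 z (n 0 (n 41745 z (n 107281 z (n 25361 z (n
 58129 z (n 123665 z (n 4881 z z)))))) z)))))) z))))) (n 0 (n 27 z (n 37649 z (n 0 (n 103185 z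
 (n 21265 z (n 54033 z (n 119569 z (n 13073 z z))))) (n 0 (n 45841 z (n 111377 z (n 29457 z (n
 94993 z (n 62225 z z))))) (n 0 (n 127761 z (n 2833 z (n 35601 z (n 101137 z (n 19217 z (n 0 (n
 51985 z (n 117521 z (n 11025 z (n 43793 z (n 109329 z (n 27409 z z)))))) z)))))) z))))) (n 0 (n
 27 z (n 0 (n 10 z (n 10 z (n 10 z (n 92945 z (n 60177 z (n 125713 z z)))))) (n 0 (n 6929 z (n
 39697 z (n 105233 z (n 23313 z (n 0 (n 56081 z (n 121617 z (n 15121 z (n 47889 z (n 113425 z (n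
 31505 z z)))))) (n 0 (n 97041 z (n 64273 z (n 129809 z (n 1809 z (n 34577 z (n 100113 z z))))))
 z)))))) (n 0 (n 18193 z (n 50961 z (n 116497 z (n 10001 z (n 0 (n 42769 z (n 108305 z (n 26385
 z (n 59153 z (n 124689 z (n 5905 z z)))))) (n 0 (n 38673 z (n 104209 z (n 22289 z (n 55057 z (n
 120593 z (n 14097 z z)))))) z)))))) (n 0 (n 46865 z (n 112401 z (n 0 (n 30481 z (n 96017 z (n
 63249 z (n 128785 z (n 3857 z (n 36625 z z)))))) (n 102161 z (n 20241 z (n 0 (n 53009 z (n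
 118545 z (n 12049 z (n 44817 z (n 110353 z (n 28433 z z)))))) z)))))) (n 0 (n 0 (n 93969 z (n
 61201 z (n 126737 z (n 7953 z (n 40721 z (n 106257 z z)))))) (n 24337 z (n 0 (n 57105 z (n
 122641 z (n 16145 z (n 48913 z (n 114449 z (n 32529 z z)))))) (n 0 (n 98065 z (n 65297 z (n
 130833 z (n 145 z (n 32913 z (n 16529 z z)))))) (n 0 (n 49297 z (n 114833 z (n 8337 z (n 41105
 z (n 24721 z (n 57489 z z)))))) (n 123025 z z)))))) z)))))) z))))) (n 0 (n 50 z (n 50 z (n 555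
 z (n 0 (n 27 z (n 4241 z (n 0 (n 37009 z (n 20625 z (n 53393 z (n 118929 z (n 12433 z z))))) (n
 0 (n 45201 z (n 28817 z (n 61585 z (n 127121 z (n 2193 z z))))) (n 0 (n 34961 z (n 18577 z (n
 51345 z (n 116881 z (n 10385 z (n 0 (n 43153 z (n 26769 z (n 59537 z (n 125073 z (n 6289 z (n
 39057 z z)))))) z)))))) z))))) (n 0 (n 27 z (n 0 (n 10 z (n 10 z (n 10 z (n 22673 z (n 55441 z
 (n 120977 z z)))))) (n 0 (n 14481 z (n 47249 z (n 112785 z (n 30865 z (n 63633 z (n 129169 z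
 z)))))) (n 0 (n 1169 z (n 33937 z (n 17553 z (n 50321 z (n 0 (n 115857 z (n 9361 z (n 42129 z
 (n 25745 z (n 58513 z (n 124049 z z)))))) (n 0 (n 5265 z (n 38033 z (n 21649 z (n 54417 z (n
 119953 z (n 13457 z z)))))) z)))))) (n 0 (n 46225 z (n 29841 z (n 62609 z (n 128145 z (n 0 (n
 3217 z (n 35985 z (n 19601 z (n 52369 z (n 117905 z (n 11409 z z)))))) (n 0 (n 44177 z (n 27793
 z (n 60561 z (n 126097 z (n 7313 z (n 40081 z z)))))) z)))))) (n 0 (n 0 (n 23697 z (n 56465 z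
 (n 122001 z (n 15505 z (n 48273 z (n 113809 z z)))))) (n 31889 z (n 64657 z (n 130193 z (n 0 (n
 657 z (n 33425 z (n 17041 z (n 49809 z (n 8849 z (n 41617 z z)))))) (n 0 (n 25233 z (n 58001 z
 (n 123537 z (n 4753 z (n 37521 z (n 21137 z z)))))) z)))))) z)))))) z))))) (n 0 (n 50 z (n 50 z
 (n 50 z (n 555 z (n 0 (n 27 z (n 53905 z (n 0 (n 12945 z (n 45713 z (n 29329 z (n 62097 z (n
 127633 z (n 2705 z z)))))) (n 0 (n 35473 z (n 19089 z (n 51857 z (n 10897 z (n 43665 z (n 27281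
 z z)))))) (n 0 (n 60049 z (n 125585 z (n 6801 z (n 39569 z (n 23185 z (n 0 (n 55953 z (n 121489
 z (n 14993 z (n 47761 z (n 31377 z (n 411 z z)))))) z)))))) (n 0 (n 0 (n 411 z (n 64145 z (n
 129681 z (n 1681 z (n 34449 z (n 18065 z z)))))) (n 50833 z (n 9873 z (n 42641 z (n 0 (n 26257
 z (n 59025 z (n 124561 z (n 5777 z (n 411 z (n 38545 z z)))))) (n 22161 z z)))))) z))))))
 z))))) (n 0 (n 50 z (n 50 z (n 50 z (n 50 z (n 555 z (n 0 (n 27 z (n 54929 z (n 0 (n 120465 z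
 (n 13969 z (n 46737 z (n 30353 z (n 0 (n 63121 z (n 128657 z (n 3729 z (n 36497 z (n 20113 z (n
 52881 z z)))))) (n 50 z z)))))) (n 0 (n 11921 z (n 44689 z (n 28305 z (n 61073 z (n 0 (n 126609
 z (n 7825 z (n 40593 z (n 24209 z (n 56977 z (n 122513 z z)))))) (n 50 z z)))))) (n 0 (n 16017
 z (n 48785 z (n 0 (n 32401 z (n 65169 z (n 130705 z (n 401 z (n 33169 z (n 98705 z z)))))) (n
 16785 z (n 0 (n 82321 z (n 49553 z (n 115089 z (n 8593 z (n 74129 z (n 41361 z z)))))) (n 0 (n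
 106897 z (n 24977 z (n 90513 z (n 57745 z (n 123281 z (n 4497 z z)))))) z)))))) (n 50 z z))))))
 z)))))) z))))) z)))) (n 0 (n 0 (n 0 (n 363 z (n 991236 z (n 999428 z (n 1007620 z z)))) (n 0 (n
 50 z (n 555 z (n 1015812 z (n 0 (n 27 z (n 10 z (n 0 (n 37265 z (n 102801 z (n 20881 z (n 86417
 z (n 53649 z z))))) (n 0 (n 119185 z (n 12689 z (n 78225 z (n 45457 z (n 0 (n 110993 z (n 29073
 z (n 94609 z (n 61841 z (n 127377 z (n 2449 z z)))))) z))))) (n 0 (n 35217 z (n 100753 z (n 0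
 (n 18833 z (n 84369 z (n 51601 z (n 117137 z (n 10641 z (n 76177 z z)))))) (n 0 (n 43409 z (n
 108945 z (n 27025 z (n 92561 z (n 59793 z (n 125329 z z)))))) (n 0 (n 6545 z (n 39313 z (n
 104849 z (n 22929 z (n 88465 z (n 55697 z z)))))) (n 0 (n 121233 z (n 14737 z (n 80273 z (n
 47505 z (n 113041 z (n 31121 z z)))))) z)))))) z))))) z)))) (n 0 (n 50 z (n 50 z (n 555 z (n 0
 (n 27 z (n 10 z (n 0 (n 96657 z (n 63889 z (n 129425 z (n 1425 z (n 34193 z z))))) (n 0 (n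
 99729 z (n 17809 z (n 83345 z (n 50577 z (n 0 (n 116113 z (n 9617 z (n 75153 z (n 42385 z (n
 107921 z (n 26001 z z)))))) z))))) (n 0 (n 91537 z (n 58769 z (n 0 (n 124305 z (n 5521 z (n
 38289 z (n 103825 z (n 21905 z (n 87441 z z)))))) (n 54673 z (n 120209 z (n 0 (n 13713 z (n
 79249 z (n 46481 z (n 112017 z (n 30097 z (n 95633 z z)))))) z)))))) z))))) z)))) (n 0 (n 50 z
 (n 50 z (n 50 z (n 555 z (n 0 (n 27 z (n 10 z (n 0 (n 62865 z (n 128401 z (n 3473 z (n 0 (n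
 36241 z (n 101777 z (n 19857 z (n 85393 z (n 52625 z (n 118161 z z)))))) (n 50 z (n 11665 z
 z)))))) (n 0 (n 0 (n 77201 z (n 44433 z (n 109969 z (n 28049 z (n 93585 z (n 60817 z z)))))) (n
 0 (n 126353 z (n 1298 z (n 0 (n 0 (n 787 z (n 1836076 z (n 1552916 z (n 1577572 z (n 659 z (n
 1844268 z z)))))) (n 1490 z (n 547 z (n 0 (n 787 z (n 1836076 z (n 1552916 z (n 1577572 z (n
 659 z (n 1844268 z z)))))) (n 0 (n 787 z (n 1836076 z (n 1552916 z (n 1577572 z (n 659 z (n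
 1844268 z z)))))) (n 0 (n 787 z (n 1836076 z (n 1552916 z (n 1577572 z (n 659 z (n 1844268 z
 z)))))) z)))))) (n 7569 z (n 40337 z (n 105873 z z)))))) (n 0 (n 23953 z (n 89489 z (n 56721 z
 (n 122257 z (n 15761 z (n 81297 z z)))))) (n 0 (n 48529 z (n 114065 z (n 32145 z (n 97681 z (n
 64913 z (n 130449 z z)))))) (n 0 (n 913 z (n 33681 z (n 17297 z (n 50065 z (n 115601 z (n 9105
 z z)))))) (n 0 (n 41873 z (n 25489 z (n 58257 z (n 123793 z (n 5009 z (n 37777 z z))))))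
 z)))))) (n 50 z (n 0 (n 21393 z (n 54161 z (n 119697 z (n 0 (n 13201 z (n 45969 z (n 111505 z
 (n 29585 z (n 62353 z (n 127889 z z)))))) (n 50 z (n 2961 z z)))))) z)))))) z))))) z)))) (n 0
 (n 0 (n 555 z (n 1442 z (n 1024004 z (n 0 (n 27 z (n 10 z (n 35729 z (n 0 (n 19345 z (n 43 z (n
 52113 z (n 117649 z (n 11153 z z))))) (n 0 (n 43921 z (n 43 z (n 27537 z (n 60305 z (n 125841 z
 (n 0 (n 7057 z (n 39825 z (n 23441 z (n 56209 z (n 121745 z (n 15249 z z)))))) z)))))) z)))))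
 z)))) (n 1250 z (n 0 (n 50 z (n 1442 z (n 555 z (n 1032196 z z)))) (n 0 (n 50 z (n 1442 z (n 50
 z (n 555 z (n 0 (n 27 z (n 10 z (n 0 (n 10 z (n 43 z (n 48017 z (n 0 (n 113553 z (n 31633 z (n
 64401 z (n 129937 z (n 1937 z (n 34705 z z)))))) (n 50 z (n 18321 z z)))))) (n 0 (n 51089 z (n
 43 z (n 116625 z (n 10129 z (n 42897 z (n 0 (n 26513 z (n 59281 z (n 124817 z (n 6033 z (n
 38801 z (n 22417 z z)))))) z)))))) (n 50 z (n 0 (n 55185 z (n 43 z (n 120721 z (n 0 (n 14225 z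
 (n 46993 z (n 112529 z (n 30609 z (n 63377 z (n 128913 z z)))))) (n 50 z (n 3985 z z))))))
 z)))))) z))))) z)))) (n 0 (n 0 (n 555 z (n 1040388 z (n 3858 z (n 1048580 z z)))) (n 0 (n 50 z
 (n 555 z (n 3858 z (n 1056772 z z)))) (n 0 (n 3842 z (n 3842 z (n 195 z (n 0 (n 27 z (n 10 z (n
 36753 z (n 0 (n 20369 z (n 53137 z (n 118673 z (n 12177 z (n 44945 z z))))) (n 0 (n 110481 z (n
 28561 z (n 61329 z (n 126865 z (n 8081 z (n 40849 z z)))))) z))))) z)))) (n 0 (n 50 z (n 50 z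
 (n 50 z (n 555 z (n 0 (n 27 z (n 10 z (n 0 (n 10 z (n 10 z (n 24465 z (n 0 (n 57233 z (n 122769
 z (n 16273 z (n 49041 z (n 114577 z (n 32657 z z)))))) (n 50 z (n 65425 z z)))))) (n 0 (n
 130961 z (n 81 z (n 16465 z (n 8273 z (n 0 (n 24657 z (n 57425 z (n 4177 z (n 20561 z (n 53329
 z (n 12369 z z)))))) (n 0 (n 28753 z (n 61521 z (n 2129 z (n 18513 z (n 10321 z (n 26705 z
 z)))))) z)))))) (n 50 z (n 0 (n 59473 z (n 6225 z (n 22609 z (n 0 (n 55377 z (n 14417 z (n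
 30801 z (n 63569 z (n 1105 z (n 17489 z z)))))) (n 50 z (n 9297 z z)))))) z)))))) z))))) z))))
 (n 0 (n 0 (n 555 z (n 0 (n 27 z (n 10 z (n 25681 z (n 0 (n 58449 z (n 5201 z (n 21585 z (n
 54353 z (n 13393 z z))))) (n 0 (n 29777 z (n 62545 z (n 3153 z (n 19537 z (n 11345 z (n 0 (n
 27729 z (n 60497 z (n 7249 z (n 23633 z (n 56401 z (n 15441 z z)))))) z)))))) z))))) (n 1064964
 z (n 1073156 z (n 0 (n 27 z (n 10 z (n 0 (n 10 z (n 10 z (n 10 z (n 31825 z (n 0 (n 0 (n 547 z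
 (n 10 z (n 10 z (n 0 (n 2642 z (n 827 z (n 722 z (n 2058 z (n 2058 z (n 2058 z z)))))) (n 699 z
 (n 0 (n 2642 z (n 2058 z (n 722 z (n 2058 z (n 2058 z (n 2058 z z)))))) z)))))) (n 64593 z (n
 593 z (n 16977 z (n 8785 z (n 25169 z z)))))) (n 57937 z z)))))) (n 0 (n 0 (n 4689 z (n 21073 z
 (n 53841 z (n 12881 z (n 29265 z (n 62033 z z)))))) (n 0 (n 2641 z (n 1298 z (n 19025 z (n
 10833 z (n 27217 z (n 59985 z z)))))) (n 6737 z (n 23121 z (n 0 (n 55889 z (n 14929 z (n 31313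
 z (n 64081 z (n 1617 z (n 18001 z z)))))) (n 0 (n 9809 z (n 26193 z (n 58961 z (n 5713 z (n
 22097 z (n 54865 z z)))))) z)))))) (n 0 (n 13905 z (n 30289 z (n 63057 z (n 3665 z (n 20049 z
 (n 11857 z z)))))) (n 0 (n 0 (n 28241 z (n 61009 z (n 7761 z (n 24145 z (n 56913 z (n 15953 z
 z)))))) (n 32337 z (n 0 (n 65105 z (n 337 z (n 33105 z (n 16721 z (n 49489 z (n 115025 z
 z)))))) (n 0 (n 8529 z (n 41297 z (n 106833 z (n 24913 z (n 57681 z (n 123217 z z)))))) (n 0 (n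
 4433 z (n 37201 z (n 102737 z (n 20817 z (n 53585 z (n 119121 z z)))))) (n 12625 z z))))))
 z)))))) z))))) (n 0 (n 50 z (n 555 z (n 0 (n 27 z (n 10 z (n 45393 z (n 0 (n 110929 z (n 29009
 z (n 61777 z (n 127313 z (n 0 (n 2385 z (n 35153 z (n 100689 z (n 18769 z (n 51537 z (n 117073
 z z)))))) z))))) (n 0 (n 10577 z (n 43345 z (n 108881 z (n 26961 z (n 59729 z (n 0 (n 125265 z
 (n 6481 z (n 39249 z (n 104785 z (n 22865 z (n 55633 z z)))))) z)))))) z))))) (n 0 (n 27 z (n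
 10 z (n 121169 z (n 0 (n 14673 z (n 47441 z (n 112977 z (n 31057 z (n 63825 z z))))) (n 0 (n
 129361 z (n 1361 z (n 34129 z (n 99665 z (n 17745 z (n 0 (n 50513 z (n 116049 z (n 9553 z (n
 42321 z (n 107857 z (n 25937 z z)))))) z)))))) z))))) (n 0 (n 27 z (n 10 z (n 0 (n 10 z (n 10 z
 (n 10 z (n 58705 z (n 124241 z (n 5457 z z)))))) (n 0 (n 38225 z (n 103761 z (n 21841 z (n
 54609 z (n 0 (n 120145 z (n 13649 z (n 46417 z (n 111953 z (n 30033 z (n 62801 z z)))))) (n 0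
 (n 128337 z (n 3409 z (n 36177 z (n 101713 z (n 19793 z (n 52561 z z)))))) z)))))) (n 0 (n 0 (n
 118097 z (n 11601 z (n 44369 z (n 109905 z (n 27985 z (n 60753 z z)))))) (n 126289 z (n 7505 z
 (n 40273 z (n 105809 z (n 0 (n 23889 z (n 56657 z (n 122193 z (n 15697 z (n 48465 z (n 114001 z
 z)))))) z)))))) (n 0 (n 0 (n 32081 z (n 64849 z (n 130385 z (n 849 z (n 33617 z (n 17233 z
 z)))))) (n 50001 z (n 0 (n 115537 z (n 9041 z (n 41809 z (n 107345 z (n 25425 z (n 58193 z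
 z)))))) (n 0 (n 123729 z (n 4945 z (n 37713 z (n 21329 z (n 54097 z (n 119633 z z)))))) (n 0 (n
 13137 z (n 45905 z (n 111441 z (n 29521 z (n 62289 z (n 127825 z z)))))) (n 0 (n 2897 z (n
 35665 z (n 19281 z (n 52049 z (n 117585 z (n 11089 z z)))))) z)))))) z)))))) z))))) (n 0 (n 50
 z (n 50 z (n 555 z (n 0 (n 27 z (n 10 z (n 43857 z (n 0 (n 109393 z (n 27473 z (n 60241 z (n
 125777 z (n 6993 z z))))) (n 0 (n 39761 z (n 105297 z (n 23377 z (n 56145 z (n 121681 z (n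
 15185 z z)))))) z))))) (n 0 (n 27 z (n 10 z (n 0 (n 10 z (n 10 z (n 10 z (n 47953 z (n 113489 z
 (n 31569 z z)))))) (n 0 (n 64337 z (n 129873 z (n 1873 z (n 34641 z (n 18257 z (n 0 (n 51025 z
 (n 116561 z (n 10065 z (n 42833 z (n 108369 z (n 26449 z z)))))) z)))))) (n 0 (n 59217 z (n
 124753 z (n 5969 z (n 0 (n 38737 z (n 22353 z (n 55121 z (n 120657 z (n 14161 z (n 46929 z
 z)))))) (n 112465 z (n 0 (n 30545 z (n 63313 z (n 128849 z (n 3921 z (n 36689 z (n 20305 z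
 z)))))) z)))))) (n 0 (n 0 (n 53073 z (n 118609 z (n 12113 z (n 44881 z (n 110417 z (n 28497 z
 z)))))) (n 61265 z (n 126801 z (n 8017 z (n 0 (n 40785 z (n 106321 z (n 24401 z (n 57169 z (n
 122705 z (n 16209 z z)))))) (n 48977 z z)))))) z)))))) z))))) (n 0 (n 50 z (n 50 z (n 50 z (n
 555 z (n 0 (n 27 z (n 10 z (n 114513 z (n 0 (n 32593 z (n 65361 z (n 130897 z (n 209 z (n 32977
 z (n 16593 z z)))))) (n 0 (n 49361 z (n 114897 z (n 0 (n 8401 z (n 41169 z (n 411 z (n 24785 z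
 (n 57553 z (n 123089 z z)))))) (n 4305 z (n 37073 z (n 20689 z z)))))) (n 0 (n 53457 z (n
 118993 z (n 12497 z (n 45265 z (n 0 (n 28881 z (n 61649 z (n 127185 z (n 2257 z (n 411 z (n
 35025 z z)))))) (n 18641 z z)))))) z)))))) z))))) (n 0 (n 50 z (n 50 z (n 50 z (n 50 z (n 555 z
 (n 0 (n 27 z (n 10 z (n 51409 z (n 0 (n 116945 z (n 10449 z (n 43217 z (n 26833 z (n 0 (n 59601
 z (n 125137 z (n 6353 z (n 39121 z (n 22737 z (n 55505 z z)))))) (n 50 z z)))))) (n 0 (n 0 (n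
 121041 z (n 14545 z (n 47313 z (n 30929 z (n 63697 z (n 129233 z z)))))) (n 1233 z (n 0 (n
 34001 z (n 17617 z (n 50385 z (n 115921 z (n 9425 z (n 42193 z z)))))) (n 25809 z (n 0 (n 58577
 z (n 124113 z (n 5329 z (n 38097 z (n 21713 z (n 54481 z z)))))) (n 0 (n 120017 z (n 13521 z (n
 46289 z (n 29905 z (n 62673 z (n 128209 z z)))))) z)))))) (n 50 z z)))))) z)))))) z))))) z))))
 (n 0 (n 0 (n 0 (n 363 z (n 0 (n 27 z (n 10 z (n 10 z (n 0 (n 3281 z (n 36049 z (n 19665 z (n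
 52433 z (n 117969 z z))))) (n 0 (n 11473 z (n 44241 z (n 27857 z (n 60625 z (n 126161 z (n 7377
 z z)))))) z))))) (n 1081348 z (n 0 (n 27 z (n 10 z (n 10 z (n 0 (n 40145 z (n 23761 z (n 56529
 z (n 122065 z (n 15569 z z))))) (n 0 (n 48337 z (n 113873 z (n 31953 z (n 64721 z (n 130257 z
 (n 721 z z)))))) z))))) (n 0 (n 27 z (n 10 z (n 10 z (n 0 (n 33489 z (n 17105 z (n 49873 z (n
 115409 z (n 8913 z (n 41681 z z)))))) (n 0 (n 107217 z (n 25297 z (n 0 (n 58065 z (n 123601 z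
 (n 411 z (n 4817 z (n 37585 z (n 103121 z z)))))) (n 21201 z (n 53969 z (n 119505 z z)))))) (n
 0 (n 13009 z (n 45777 z (n 111313 z (n 29393 z (n 62161 z (n 127697 z z)))))) z)))))) z))))) (n
 0 (n 50 z (n 555 z (n 0 (n 27 z (n 10 z (n 10 z (n 0 (n 2769 z (n 35537 z (n 101073 z (n 19153
 z (n 51921 z z))))) (n 0 (n 117457 z (n 10961 z (n 43729 z (n 0 (n 109265 z (n 27345 z (n 60113
 z (n 125649 z (n 6865 z (n 39633 z z)))))) (n 105169 z (n 0 (n 23249 z (n 56017 z (n 121553 z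
 (n 15057 z (n 47825 z (n 113361 z z)))))) z)))))) z))))) (n 1089540 z (n 0 (n 27 z (n 10 z (n
 10 z (n 0 (n 31441 z (n 64209 z (n 129745 z (n 1745 z (n 0 (n 34513 z (n 18129 z (n 50897 z (n
 116433 z (n 9937 z (n 42705 z z)))))) (n 108241 z z)))))) (n 0 (n 26321 z (n 59089 z (n 0 (n
 124625 z (n 5841 z (n 38609 z (n 104145 z (n 22225 z (n 54993 z z)))))) (n 120529 z (n 14033 z
 (n 0 (n 46801 z (n 112337 z (n 30417 z (n 63185 z (n 128721 z (n 3793 z z)))))) z)))))) (n 0 (n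
 36561 z (n 102097 z (n 0 (n 20177 z (n 52945 z (n 118481 z (n 11985 z (n 44753 z (n 110289 z
 z)))))) (n 0 (n 28369 z (n 61137 z (n 126673 z (n 7889 z (n 40657 z (n 106193 z z)))))) (n 0 (n
 24273 z (n 57041 z (n 122577 z (n 16081 z (n 48849 z (n 114385 z z)))))) (n 32465 z z))))))
 z)))))) z))))) (n 0 (n 50 z (n 50 z (n 555 z (n 0 (n 27 z (n 10 z (n 10 z (n 0 (n 0 (n 10 z (n
 10 z (n 715 z (n 0 (n 58 z (n 58 z (n 0 (n 1682 z (n 1090 z (n 835 z (n 722 z (n 1098 z z)))))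
 (n 547 z (n 0 (n 1682 z (n 1090 z (n 1098 z (n 722 z (n 1098 z (n 1098 z z)))))) z))))) (n 0 (n
 58 z (n 58 z (n 0 (n 1682 z (n 1090 z (n 1098 z (n 722 z (n 1098 z (n 1098 z z)))))) (n 707 z
 (n 547 z (n 0 (n 1682 z (n 1090 z (n 1098 z (n 722 z (n 1098 z (n 1098 z z)))))) z)))))) z)))))
 (n 65233 z (n 130769 z (n 465 z (n 0 (n 33233 z (n 98769 z (n 16849 z (n 49617 z (n 115153 z (n
 8657 z z)))))) z))))) (n 0 (n 41425 z (n 106961 z (n 25041 z (n 57809 z (n 123345 z (n 0 (n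
 4561 z (n 37329 z (n 102865 z (n 20945 z (n 53713 z (n 119249 z z)))))) z)))))) z))))) (n 0 (n
 27 z (n 10 z (n 10 z (n 0 (n 12753 z (n 45521 z (n 0 (n 111057 z (n 29137 z (n 94673 z (n 61905
 z (n 127441 z (n 2513 z z)))))) (n 35281 z (n 0 (n 0 (n 547 z (n 100817 z (n 18897 z (n 51665 z
 (n 117201 z (n 10705 z z)))))) (n 43473 z (n 109009 z (n 27089 z (n 92625 z (n 59857 z z))))))
 (n 125393 z z)))))) (n 0 (n 6609 z (n 39377 z (n 104913 z (n 22993 z (n 0 (n 55761 z (n 121297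
 z (n 14801 z (n 47569 z (n 113105 z (n 31185 z z)))))) (n 0 (n 96721 z (n 63953 z (n 129489 z
 (n 1489 z (n 34257 z (n 99793 z z)))))) z)))))) (n 0 (n 17873 z (n 50641 z (n 0 (n 116177 z (n
 9681 z (n 42449 z (n 107985 z (n 26065 z (n 91601 z z)))))) (n 0 (n 58833 z (n 124369 z (n 5585
 z (n 38353 z (n 103889 z (n 21969 z z)))))) (n 0 (n 54737 z (n 120273 z (n 13777 z (n 46545 z
 (n 112081 z (n 30161 z z)))))) (n 95697 z z)))))) z)))))) z))))) (n 0 (n 50 z (n 50 z (n 50 z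
 (n 555 z (n 0 (n 27 z (n 10 z (n 10 z (n 0 (n 0 (n 10 z (n 10 z (n 10 z (n 715 z (n 0 (n 58 z
 (n 58 z (n 58 z (n 0 (n 1682 z (n 1090 z (n 835 z (n 722 z (n 1090 z (n 1090 z z)))))) (n 547 z
 (n 0 (n 1682 z (n 1090 z (n 1090 z (n 722 z (n 1090 z (n 1090 z z)))))) z)))))) (n 0 (n 58 z (n
 58 z (n 58 z (n 0 (n 1682 z (n 1090 z (n 1090 z (n 722 z (n 1090 z (n 1090 z z)))))) (n 707 z
 (n 547 z z)))))) z)))))) (n 62929 z (n 128465 z (n 3537 z (n 0 (n 36305 z (n 101841 z (n 19921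
 z (n 52689 z (n 118225 z (n 11729 z z)))))) (n 44497 z z)))))) (n 0 (n 110033 z (n 28113 z (n
 93649 z (n 60881 z (n 126417 z (n 0 (n 7633 z (n 40401 z (n 105937 z (n 24017 z (n 56785 z (n
 122321 z z)))))) z)))))) (n 0 (n 15825 z (n 48593 z (n 0 (n 114129 z (n 32209 z (n 97745 z (n
 64977 z (n 130513 z (n 977 z z)))))) (n 33745 z (n 0 (n 99281 z (n 17361 z (n 50129 z (n 115665
 z (n 9169 z (n 41937 z z)))))) (n 107473 z z)))))) z)))))) z))))) (n 0 (n 50 z (n 50 z (n 50 z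
 (n 50 z (n 555 z (n 0 (n 27 z (n 10 z (n 10 z (n 0 (n 0 (n 10 z (n 10 z (n 10 z (n 10 z (n 715
 z (n 0 (n 58 z (n 58 z (n 58 z (n 58 z (n 0 (n 1682 z (n 1090 z (n 835 z (n 722 z (n 1090 z (n
 1098 z z)))))) (n 547 z z)))))) z)))))) (n 25553 z (n 58321 z (n 123857 z (n 0 (n 5073 z (n
 37841 z (n 103377 z (n 21457 z (n 54225 z (n 119761 z z)))))) (n 50 z z)))))) (n 0 (n 13265 z
 (n 46033 z (n 0 (n 111569 z (n 29649 z (n 95185 z (n 62417 z (n 127953 z (n 3025 z z)))))) (n 0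
 (n 35793 z (n 101329 z (n 19409 z (n 52177 z (n 117713 z (n 11217 z z)))))) (n 0 (n 43985 z (n
 109521 z (n 27601 z (n 93137 z (n 60369 z (n 125905 z z)))))) (n 0 (n 7121 z (n 39889 z (n
 105425 z (n 23505 z (n 56273 z (n 121809 z z)))))) z)))))) (n 50 z z)))))) z)))))) z))))) (n 0
 (n 0 (n 555 z (n 1442 z (n 1410 z (n 0 (n 27 z (n 10 z (n 10 z (n 0 (n 10 z (n 43 z (n 15313 z
 (n 48081 z (n 113617 z z))))) (n 0 (n 10 z (n 43 z (n 31697 z (n 97233 z (n 64465 z (n 0 (n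
 130001 z (n 2001 z (n 34769 z (n 100305 z (n 18385 z (n 51153 z z)))))) z)))))) z))))) (n 0 (n
 27 z (n 10 z (n 10 z (n 0 (n 10 z (n 43 z (n 116689 z (n 10193 z (n 42961 z (n 108497 z z))))))
 (n 0 (n 10 z (n 43 z (n 0 (n 26577 z (n 92113 z (n 59345 z (n 124881 z (n 6097 z (n 38865 z
 z)))))) (n 104401 z (n 22481 z (n 0 (n 55249 z (n 120785 z (n 14289 z (n 47057 z (n 112593 z (n
 30673 z z)))))) z)))))) (n 0 (n 10 z (n 43 z (n 0 (n 96209 z (n 63441 z (n 128977 z (n 4049 z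
 (n 36817 z (n 102353 z z)))))) (n 0 (n 20433 z (n 53201 z (n 118737 z (n 12241 z (n 45009 z (n
 110545 z z)))))) (n 0 (n 28625 z (n 94161 z (n 61393 z (n 126929 z (n 8145 z (n 40913 z z))))))
 (n 0 (n 106449 z (n 24529 z (n 57297 z (n 122833 z (n 16337 z (n 49105 z z)))))) z))))))
 z)))))) z))))) (n 1250 z (n 0 (n 1218 z (n 1442 z (n 555 z (n 0 (n 27 z (n 10 z (n 10 z (n
 114641 z (n 0 (n 10 z (n 43 z (n 1226 z (n 1226 z (n 32721 z (n 98257 z z)))))) z))))) (n 0 (n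
 27 z (n 10 z (n 10 z (n 65489 z (n 0 (n 10 z (n 43 z (n 1226 z (n 131025 z (n 1226 z (n 0 (n 49
 z (n 1226 z (n 16433 z (n 8241 z (n 24625 z (n 57393 z z)))))) z)))))) (n 0 (n 10 z (n 43 z (n
 1226 z (n 4145 z (n 1226 z (n 20529 z z)))))) z)))))) z))))) (n 0 (n 50 z (n 1442 z (n 50 z (n
 555 z (n 0 (n 27 z (n 10 z (n 10 z (n 0 (n 10 z (n 43 z (n 12337 z (n 28721 z (n 0 (n 61489 z
 (n 2097 z (n 18481 z (n 10289 z (n 26673 z (n 59441 z z)))))) (n 6193 z z)))))) (n 0 (n 10 z (n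
 43 z (n 22577 z (n 55345 z (n 14385 z (n 0 (n 30769 z (n 63537 z (n 1073 z (n 17457 z (n 9265 z
 (n 25649 z z)))))) z)))))) (n 0 (n 10 z (n 43 z (n 0 (n 58417 z (n 5169 z (n 21553 z (n 13361 z
 (n 29745 z (n 62513 z z)))))) (n 3121 z (n 0 (n 19505 z (n 11313 z (n 27697 z (n 60465 z (n
 7217 z (n 23601 z z)))))) (n 0 (n 56369 z (n 15409 z (n 31793 z (n 64561 z (n 561 z (n 0 (n
 4802 z (n 4802 z (n 4802 z (n 4802 z (n 4802 z (n 235 z z)))))) z)))))) z)))))) z)))))) z)))))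
 (n 0 (n 50 z (n 1442 z (n 50 z (n 50 z (n 555 z (n 0 (n 27 z (n 10 z (n 10 z (n 0 (n 10 z (n 43
 z (n 16945 z (n 8753 z (n 0 (n 25137 z (n 57905 z (n 4657 z (n 21041 z (n 12849 z (n 29233 z
 z)))))) (n 50 z z)))))) (n 0 (n 10 z (n 43 z (n 0 (n 62001 z (n 2609 z (n 18993 z (n 10801 z (n
 27185 z (n 59953 z z)))))) (n 6705 z (n 23089 z (n 0 (n 55857 z (n 14897 z (n 31281 z (n 64049
 z (n 1585 z (n 17969 z z)))))) z)))))) (n 50 z z)))))) z)))))) z))))) (n 0 (n 0 (n 555 z (n 0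
 (n 27 z (n 10 z (n 10 z (n 9777 z (n 0 (n 10 z (n 10 z (n 26161 z (n 58929 z (n 5681 z (n 0 (n
 22065 z (n 54833 z (n 13873 z (n 30257 z (n 63025 z (n 3633 z z)))))) z)))))) z))))) (n 0 (n 27
 z (n 10 z (n 10 z (n 20017 z (n 0 (n 10 z (n 10 z (n 11825 z (n 28209 z (n 60977 z (n 7729 z
 z)))))) z))))) (n 0 (n 27 z (n 10 z (n 10 z (n 0 (n 10 z (n 10 z (n 24113 z (n 56881 z (n 15921
 z z))))) (n 0 (n 10 z (n 10 z (n 32305 z (n 65073 z (n 305 z (n 0 (n 33073 z (n 16689 z (n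
 49457 z (n 114993 z (n 8497 z (n 41265 z z)))))) z)))))) z))))) (n 0 (n 27 z (n 10 z (n 10 z (n
 0 (n 10 z (n 10 z (n 24881 z (n 57649 z (n 0 (n 0 (n 547 z (n 0 (n 2642 z (n 2050 z (n 2058 z
 (n 722 z (n 2050 z (n 2050 z z)))))) (n 0 (n 2642 z (n 827 z (n 2058 z (n 722 z (n 2050 z (n
 2050 z z)))))) (n 0 (n 2642 z (n 2050 z (n 2058 z (n 722 z (n 2050 z (n 2050 z z)))))) (n 699 z
 (n 0 (n 2642 z (n 2050 z (n 2058 z (n 722 z (n 2050 z (n 2050 z z)))))) z)))))) (n 123185 z (n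
 4401 z (n 37169 z (n 20785 z (n 53553 z z)))))) (n 0 (n 0 (n 547 z (n 0 (n 2642 z (n 2050 z (n
 2058 z (n 722 z (n 2050 z (n 2050 z z)))))) (n 0 (n 2642 z (n 2050 z (n 2058 z (n 722 z (n 2050
 z (n 2050 z z)))))) (n 0 (n 2642 z (n 2050 z (n 2058 z (n 722 z (n 2050 z (n 2050 z z)))))) (n
 699 z (n 0 (n 2642 z (n 2050 z (n 2058 z (n 722 z (n 2050 z (n 2050 z z)))))) z)))))) (n 119089
 z (n 12593 z (n 45361 z (n 28977 z (n 61745 z z)))))) z)))))) (n 0 (n 10 z (n 10 z (n 127281 z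
 (n 2353 z (n 35121 z (n 0 (n 18737 z (n 51505 z (n 117041 z (n 10545 z (n 43313 z (n 26929 z
 z)))))) z)))))) (n 0 (n 10 z (n 10 z (n 59697 z (n 0 (n 125233 z (n 6449 z (n 39217 z (n 22833
 z (n 55601 z (n 121137 z z)))))) (n 0 (n 14641 z (n 47409 z (n 31025 z (n 63793 z (n 129329 z
 (n 1329 z z)))))) (n 34097 z z)))))) z)))))) z))))) (n 0 (n 50 z (n 555 z (n 1097732 z (n 0 (n
 27 z (n 10 z (n 10 z (n 17713 z (n 0 (n 10 z (n 10 z (n 50481 z (n 116017 z (n 9521 z (n 0 (n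
 42289 z (n 25905 z (n 58673 z (n 124209 z (n 5425 z (n 38193 z z)))))) z)))))) z))))) (n 0 (n
 27 z (n 10 z (n 10 z (n 0 (n 10 z (n 10 z (n 21809 z (n 54577 z (n 0 (n 120113 z (n 13617 z (n
 46385 z (n 30001 z (n 62769 z (n 128305 z z)))))) (n 3377 z z)))))) (n 0 (n 10 z (n 10 z (n
 36145 z (n 19761 z (n 52529 z (n 118065 z z)))))) (n 0 (n 10 z (n 10 z (n 11569 z (n 44337 z (n
 27953 z (n 60721 z z)))))) z)))))) z))))) (n 0 (n 50 z (n 50 z (n 555 z (n 0 (n 27 z (n 10 z (n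
 10 z (n 0 (n 10 z (n 10 z (n 126257 z (n 7473 z (n 40241 z z))))) (n 0 (n 10 z (n 10 z (n 23857
 z (n 56625 z (n 122161 z (n 15665 z z)))))) z))))) (n 0 (n 27 z (n 10 z (n 10 z (n 0 (n 10 z (n
 10 z (n 48433 z (n 113969 z (n 0 (n 32049 z (n 64817 z (n 130353 z (n 817 z (n 411 z (n 33585 z
 z)))))) (n 99121 z z)))))) (n 0 (n 10 z (n 10 z (n 17201 z (n 49969 z (n 115505 z (n 9009 z
 z)))))) (n 0 (n 10 z (n 10 z (n 41777 z (n 0 (n 107313 z (n 25393 z (n 58161 z (n 411 z (n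
 123697 z (n 4913 z z)))))) (n 37681 z (n 103217 z z)))))) z)))))) z))))) (n 0 (n 50 z (n 50 z
 (n 50 z (n 555 z (n 0 (n 27 z (n 10 z (n 10 z (n 0 (n 10 z (n 10 z (n 21297 z (n 0 (n 54065 z
 (n 119601 z (n 13105 z (n 0 (n 4802 z (n 4802 z (n 4802 z (n 235 z (n 699 z (n 4802 z z))))))
 (n 45873 z (n 111409 z z)))))) (n 0 (n 29489 z (n 95025 z (n 0 (n 62257 z (n 127793 z (n 547 z
 (n 2865 z (n 35633 z (n 101169 z z)))))) (n 19249 z (n 52017 z (n 117553 z z)))))) (n 11057 z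
 z)))))) (n 0 (n 10 z (n 10 z (n 43825 z (n 109361 z (n 27441 z (n 0 (n 60209 z (n 125745 z (n
 6961 z (n 39729 z (n 105265 z (n 23345 z z)))))) z)))))) (n 0 (n 10 z (n 10 z (n 56113 z (n
 121649 z (n 0 (n 15153 z (n 47921 z (n 113457 z (n 31537 z (n 97073 z (n 64305 z z)))))) (n
 129841 z z)))))) z)))))) z))))) (n 0 (n 50 z (n 50 z (n 50 z (n 50 z (n 555 z (n 0 (n 27 z (n
 10 z (n 10 z (n 0 (n 10 z (n 10 z (n 1841 z (n 34609 z (n 0 (n 100145 z (n 18225 z (n 50993 z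
 (n 116529 z (n 10033 z (n 42801 z z)))))) (n 50 z z)))))) (n 0 (n 10 z (n 10 z (n 108337 z (n 0
 (n 26417 z (n 59185 z (n 124721 z (n 5937 z (n 38705 z (n 104241 z z)))))) (n 0 (n 22321 z (n
 55089 z (n 120625 z (n 14129 z (n 0 (n 4802 z (n 4802 z (n 4802 z (n 4802 z (n 235 z (n 4802 z
 z)))))) (n 46897 z z)))))) (n 0 (n 112433 z (n 30513 z (n 96049 z (n 63281 z (n 128817 z (n
 3889 z z)))))) z)))))) (n 50 z z)))))) z)))))) z))))) (n 0 (n 0 (n 555 z (n 0 (n 27 z (n 10 z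
 (n 10 z (n 36657 z (n 0 (n 10 z (n 10 z (n 10 z (n 102193 z (n 20273 z (n 0 (n 53041 z (n
 118577 z (n 12081 z (n 44849 z (n 110385 z (n 28465 z z)))))) z)))))) z))))) (n 0 (n 27 z (n 10
 z (n 10 z (n 61233 z (n 0 (n 10 z (n 10 z (n 10 z (n 126769 z (n 7985 z (n 0 (n 40753 z (n
 106289 z (n 24369 z (n 57137 z (n 122673 z (n 16177 z z)))))) z)))))) z))))) (n 3858 z (n 0 (n
 27 z (n 10 z (n 10 z (n 0 (n 10 z (n 10 z (n 10 z (n 48945 z (n 0 (n 0 (n 547 z (n 0 (n 2642 z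
 (n 2050 z (n 2058 z (n 722 z (n 2050 z (n 2050 z z)))))) (n 0 (n 2642 z (n 2050 z (n 2058 z (n
 722 z (n 2050 z (n 2050 z z)))))) (n 0 (n 2642 z (n 827 z (n 2058 z (n 722 z (n 2050 z (n 2050
 z z)))))) (n 699 z (n 0 (n 2642 z (n 2050 z (n 2058 z (n 722 z (n 2050 z (n 2050 z z))))))
 z)))))) (n 114481 z (n 32561 z (n 98097 z (n 65329 z (n 130865 z z)))))) (n 177 z z)))))) (n 0
 (n 10 z (n 10 z (n 10 z (n 32945 z (n 98481 z (n 0 (n 16561 z (n 49329 z (n 114865 z (n 8369 z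
 (n 41137 z (n 106673 z z)))))) z)))))) (n 0 (n 10 z (n 10 z (n 10 z (n 24753 z (n 0 (n 57521 z
 (n 123057 z (n 4273 z (n 37041 z (n 102577 z (n 20657 z z)))))) (n 53425 z z)))))) z))))))
 z))))) (n 0 (n 50 z (n 555 z (n 0 (n 27 z (n 10 z (n 10 z (n 118961 z (n 0 (n 10 z (n 10 z (n
 10 z (n 12465 z (n 45233 z (n 0 (n 110769 z (n 28849 z (n 94385 z (n 61617 z (n 127153 z (n
 2225 z z)))))) z)))))) z))))) (n 3858 z (n 0 (n 27 z (n 10 z (n 10 z (n 0 (n 10 z (n 10 z (n 10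
 z (n 34993 z (n 100529 z (n 18609 z z)))))) (n 0 (n 10 z (n 10 z (n 10 z (n 51377 z (n 116913 z
 (n 0 (n 10417 z (n 43185 z (n 108721 z (n 0 (n 26801 z (n 59569 z (n 125105 z (n 547 z (n 6321
 z (n 39089 z z)))))) (n 104625 z (n 22705 z z)))))) z)))))) (n 0 (n 10 z (n 10 z (n 10 z (n
 55473 z (n 0 (n 121009 z (n 14513 z (n 47281 z (n 112817 z (n 30897 z (n 96433 z z)))))) (n
 63665 z z)))))) z)))))) z))))) (n 0 (n 50 z (n 50 z (n 555 z (n 3858 z (n 0 (n 27 z (n 10 z (n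
 10 z (n 0 (n 10 z (n 10 z (n 10 z (n 129201 z (n 0 (n 1201 z (n 33969 z (n 99505 z (n 17585 z
 (n 50353 z (n 115889 z z)))))) (n 9393 z z)))))) (n 0 (n 10 z (n 10 z (n 10 z (n 42161 z (n
 107697 z (n 0 (n 25777 z (n 58545 z (n 124081 z (n 5297 z (n 38065 z (n 103601 z z))))))
 z)))))) (n 0 (n 10 z (n 10 z (n 10 z (n 21681 z (n 0 (n 54449 z (n 119985 z (n 13489 z (n 46257
 z (n 111793 z (n 29873 z z)))))) (n 95409 z z)))))) z)))))) z))))) (n 0 (n 3842 z (n 3842 z (n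
 3842 z (n 195 z (n 3842 z z))))) (n 0 (n 50 z (n 50 z (n 50 z (n 3858 z (n 555 z (n 0 (n 27 z
 (n 10 z (n 10 z (n 0 (n 10 z (n 10 z (n 10 z (n 62641 z (n 0 (n 128177 z (n 3249 z (n 36017 z
 (n 101553 z (n 19633 z (n 52401 z z)))))) (n 50 z z)))))) (n 0 (n 10 z (n 10 z (n 10 z (n
 117937 z (n 11441 z (n 0 (n 44209 z (n 109745 z (n 27825 z (n 93361 z (n 60593 z (n 126129 z
 z)))))) z)))))) (n 50 z z)))))) z)))))) z))))) (n 0 (n 0 (n 555 z (n 0 (n 27 z (n 10 z (n 10 z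
 (n 0 (n 10 z (n 10 z (n 10 z (n 10 z (n 7345 z (n 40113 z z)))))) (n 0 (n 10 z (n 10 z (n 10 z
 (n 105649 z (n 10 z (n 0 (n 23729 z (n 56497 z (n 122033 z (n 15537 z (n 48305 z (n 113841 z
 z)))))) z)))))) (n 0 (n 10 z (n 10 z (n 10 z (n 0 (n 31921 z (n 97457 z (n 64689 z (n 130225 z
 (n 689 z (n 33457 z z)))))) (n 17073 z (n 10 z z)))))) z)))))) (n 0 (n 27 z (n 10 z (n 10 z (n
 0 (n 10 z (n 10 z (n 10 z (n 10 z (n 49841 z (n 8881 z z)))))) (n 0 (n 10 z (n 10 z (n 10 z (n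
 41649 z (n 10 z (n 0 (n 25265 z (n 58033 z (n 4785 z (n 37553 z (n 21169 z (n 53937 z z))))))
 z)))))) (n 0 (n 10 z (n 10 z (n 10 z (n 0 (n 12977 z (n 45745 z (n 29361 z (n 62129 z (n 2737 z
 (n 35505 z z)))))) (n 19121 z (n 10 z z)))))) z)))))) (n 0 (n 27 z (n 10 z (n 10 z (n 0 (n 10 z
 (n 10 z (n 10 z (n 10 z (n 51889 z (n 10929 z z)))))) (n 0 (n 10 z (n 10 z (n 10 z (n 43697 z
 (n 10 z (n 0 (n 27313 z (n 60081 z (n 6833 z (n 39601 z (n 23217 z (n 55985 z z)))))) z))))))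
 (n 0 (n 10 z (n 10 z (n 10 z (n 15025 z (n 47793 z (n 10 z z)))))) z)))))) (n 0 (n 27 z (n 10 z
 (n 10 z (n 31409 z (n 64177 z (n 0 (n 10 z (n 10 z (n 10 z (n 129713 z (n 1713 z (n 10 z
 z)))))) z)))))) (n 0 (n 27 z (n 10 z (n 10 z (n 0 (n 10 z (n 10 z (n 10 z (n 10 z (n 34481 z (n
 0 (n 0 (n 547 z (n 10 z (n 10 z (n 10 z (n 0 (n 2642 z (n 827 z (n 2058 z (n 722 z (n 2050 z (n
 2050 z z)))))) (n 699 z z)))))) (n 18097 z (n 50865 z (n 9905 z (n 0 (n 42673 z (n 26289 z (n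
 59057 z (n 5809 z (n 547 z (n 38577 z z)))))) (n 22193 z z)))))) z)))))) (n 0 (n 10 z (n 10 z
 (n 10 z (n 54961 z (n 10 z (n 14001 z z)))))) (n 0 (n 10 z (n 10 z (n 10 z (n 46769 z (n 30385
 z (n 10 z z)))))) z)))))) z)))))) (n 0 (n 50 z (n 555 z (n 0 (n 27 z (n 10 z (n 10 z (n 63153 z
 (n 0 (n 10 z (n 10 z (n 10 z (n 128689 z (n 10 z (n 3761 z z)))))) (n 0 (n 10 z (n 10 z (n 10 z
 (n 36529 z (n 20145 z (n 10 z z)))))) z)))))) (n 0 (n 27 z (n 10 z (n 10 z (n 52913 z (n 11953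
 z (n 44721 z z)))))) (n 0 (n 27 z (n 10 z (n 10 z (n 28337 z (n 61105 z (n 7857 z z)))))) (n 0
 (n 27 z (n 10 z (n 10 z (n 0 (n 10 z (n 10 z (n 10 z (n 10 z (n 40625 z (n 0 (n 10 z (n 24241 z
 (n 57009 z (n 16049 z (n 48817 z (n 32433 z z)))))) z)))))) (n 65201 z (n 130737 z z))))))
 z)))))) (n 0 (n 50 z (n 50 z (n 555 z (n 0 (n 27 z (n 10 z (n 10 z (n 433 z (n 33201 z (n 16817
 z z)))))) (n 0 (n 27 z (n 10 z (n 10 z (n 49585 z (n 115121 z (n 8625 z z)))))) (n 0 (n 27 z (n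
 10 z (n 10 z (n 0 (n 10 z (n 10 z (n 10 z (n 10 z (n 41393 z (n 0 (n 10 z (n 10 z (n 106929 z
 (n 25009 z (n 0 (n 58 z (n 58 z (n 57777 z (n 123313 z (n 547 z (n 4529 z z)))))) (n 37297 z
 z)))))) z)))))) (n 20913 z (n 53681 z z)))))) z)))))) (n 0 (n 50 z (n 50 z (n 50 z (n 555 z (n
 119217 z (n 12721 z z)))))) (n 0 (n 50 z (n 50 z (n 50 z (n 50 z (n 555 z (n 45489 z z)))))) (n
 0 (n 50 z (n 50 z (n 50 z (n 50 z (n 50 z (n 555 z z)))))) z)))))) z))))) z)))) z))) (n 0 (n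
 242 z (n 194 z (n 386 z (n 0 (n 35 z (n 0 (n 0 (n 731 z (n 0 (n 1105924 z (n 3906 z (n 1114116
 z (n 1122308 z (n 1130500 z z))))) (n 0 (n 1138692 z (n 1146884 z (n 1155076 z (n 0 (n 27 z (n
 0 (n 1090 z (n 111025 z (n 29105 z (n 61873 z (n 127409 z z))))) (n 0 (n 2481 z (n 35249 z (n
 18865 z (n 51633 z (n 117169 z z))))) (n 0 (n 10673 z (n 43441 z (n 108977 z (n 27057 z (n 0 (n
 59825 z (n 125361 z (n 6577 z (n 39345 z (n 104881 z (n 22961 z z)))))) z))))) (n 0 (n 55729 z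
 (n 121265 z (n 14769 z (n 0 (n 47537 z (n 113073 z (n 31153 z (n 63921 z (n 129457 z (n 1457 z
 z)))))) (n 34225 z (n 0 (n 17841 z (n 50609 z (n 116145 z (n 9649 z (n 42417 z (n 107953 z
 z)))))) z)))))) z))))) (n 0 (n 27 z (n 0 (n 1090 z (n 26033 z (n 58801 z (n 124337 z (n 5553 z
 (n 38321 z z)))))) (n 0 (n 21937 z (n 54705 z (n 120241 z (n 13745 z (n 0 (n 46513 z (n 0 (n 0
 (n 787 z (n 1507356 z (n 827 z (n 1531932 z (n 1523740 z (n 1531932 z z)))))) (n 0 (n 787 z (n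
 1507356 z (n 1515548 z (n 1531932 z (n 1523740 z (n 1531932 z z)))))) (n 0 (n 499 z (n 1507356
 z (n 5522 z (n 1531932 z (n 1523740 z (n 1531932 z z)))))) (n 0 (n 787 z (n 1507356 z (n
 1515548 z (n 1531932 z (n 1523740 z (n 1531932 z z)))))) (n 0 (n 787 z (n 1507356 z (n 1515548
 z (n 1531932 z (n 3602 z (n 1531932 z z)))))) (n 0 (n 787 z (n 1507356 z (n 1515548 z (n
 1531932 z (n 1523740 z (n 1531932 z z)))))) z)))))) (n 112049 z (n 30129 z (n 62897 z (n 128433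
 z z)))))) (n 3505 z z)))))) (n 0 (n 0 (n 0 (n 395 z (n 250 z (n 1163516 z (n 250 z (n 1179900 z
 (n 1179900 z z)))))) (n 36273 z (n 0 (n 442 z (n 1196284 z (n 0 (n 1682 z (n 1570 z (n 2642 z
 (n 1762 z (n 1188932 z (n 1188932 z z)))))) (n 0 (n 1682 z (n 1570 z (n 2642 z (n 1762 z (n
 1188932 z (n 1188932 z z)))))) (n 691 z (n 0 (n 1682 z (n 1570 z (n 2642 z (n 1762 z (n 1188932
 z (n 1188932 z z)))))) z)))))) (n 19889 z (n 52657 z (n 118193 z z)))))) (n 11697 z (n 44465 z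
 (n 110001 z (n 0 (n 28081 z (n 60849 z (n 126385 z (n 7601 z (n 40369 z (n 105905 z z)))))) (n
 0 (n 23985 z (n 56753 z (n 122289 z (n 15793 z (n 48561 z (n 114097 z z)))))) z)))))) (n 0 (n
 32177 z (n 64945 z (n 130481 z (n 0 (n 945 z (n 33713 z (n 17329 z (n 50097 z (n 115633 z (n
 9137 z z)))))) (n 0 (n 41905 z (n 107441 z (n 25521 z (n 58289 z (n 4802 z (n 123825 z z))))))
 (n 0 (n 5041 z (n 37809 z (n 21425 z (n 54193 z (n 119729 z (n 13233 z z)))))) z)))))) (n 0 (n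
 46001 z (n 111537 z (n 29617 z (n 0 (n 62385 z (n 127921 z (n 2993 z (n 35761 z (n 19377 z (n
 52145 z z)))))) (n 0 (n 117681 z (n 11185 z (n 43953 z (n 109489 z (n 27569 z (n 60337 z
 z)))))) (n 125873 z z)))))) z)))))) z))))) (n 0 (n 1163268 z (n 0 (n 27 z (n 0 (n 1090 z (n
 7089 z (n 39857 z (n 105393 z (n 0 (n 0 (n 1179852 z (n 0 (n 795 z (n 722 z (n 1417244 z (n
 1409052 z (n 1409260 z (n 1417244 z z)))))) (n 0 (n 1400860 z (n 722 z (n 1417244 z (n 1409052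
 z (n 1409260 z (n 1417244 z z)))))) (n 0 (n 1400860 z (n 722 z (n 1417244 z (n 1409052 z (n
 1409260 z (n 1417244 z z)))))) (n 1188044 z (n 0 (n 1400860 z (n 722 z (n 1417244 z (n 1409052
 z (n 1409260 z (n 1417244 z z)))))) z)))))) (n 23473 z (n 56241 z (n 121777 z (n 15281 z (n
 48049 z z)))))) z))))) (n 0 (n 113585 z (n 31665 z (n 64433 z (n 129969 z (n 0 (n 1969 z (n
 34737 z (n 18353 z (n 51121 z (n 116657 z (n 10161 z z)))))) z))))) (n 0 (n 0 (n 0 (n 395 z (n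
 250 z (n 250 z (n 250 z (n 1179900 z z))))) (n 0 (n 442 z (n 0 (n 787 z (n 3602 z (n 1090 z (n
 1762 z (n 1090 z z))))) (n 0 (n 499 z (n 1570 z (n 1090 z (n 1762 z (n 1090 z z))))) (n 0 (n
 787 z (n 1570 z (n 1090 z (n 835 z (n 1090 z z))))) (n 0 (n 787 z (n 1570 z (n 1090 z (n 1762 z
 (n 1090 z (n 1090 z z)))))) z))))) (n 0 (n 442 z (n 1196284 z (n 0 (n 1682 z (n 1570 z (n 5314
 z (n 1762 z (n 1090 z z))))) (n 0 (n 1682 z (n 1570 z (n 1090 z (n 1762 z (n 1090 z z))))) (n 0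
 (n 1682 z (n 1570 z (n 1090 z (n 1762 z (n 1090 z (n 1090 z z)))))) z))))) (n 0 (n 442 z (n 691
 z (n 0 (n 1682 z (n 1570 z (n 2818 z (n 2642 z (n 1090 z z))))) (n 2450 z (n 0 (n 1682 z (n
 1570 z (n 1090 z (n 2642 z (n 2818 z (n 1090 z z)))))) z))))) (n 0 (n 1180092 z (n 0 (n 1682 z
 (n 3602 z (n 1090 z (n 1762 z (n 1090 z (n 1090 z z)))))) (n 0 (n 1682 z (n 1570 z (n 1090 z (n
 1762 z (n 1090 z (n 1090 z z)))))) (n 0 (n 1682 z (n 1570 z (n 1090 z (n 1762 z (n 1090 z (n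
 1090 z z)))))) (n 0 (n 1682 z (n 1570 z (n 1090 z (n 1762 z (n 5314 z (n 1090 z z)))))) (n 0 (n
 1682 z (n 1570 z (n 1090 z (n 1762 z (n 1090 z (n 1090 z z)))))) z)))))) z))))) (n 42929 z (n
 108465 z (n 26545 z (n 59313 z z))))) (n 0 (n 124849 z (n 0 (n 6065 z (n 1298 z (n 38833 z (n
 104369 z (n 22449 z (n 55217 z z)))))) (n 120753 z (n 14257 z (n 47025 z (n 0 (n 112561 z (n
 30641 z (n 63409 z (n 128945 z (n 4017 z (n 36785 z z)))))) z)))))) z))))) (n 1171460 z (n 2402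
 z (n 0 (n 27 z (n 0 (n 1090 z (n 20401 z (n 53169 z (n 118705 z (n 12209 z (n 44977 z z))))))
 (n 0 (n 110513 z (n 28593 z (n 61361 z (n 126897 z (n 0 (n 8113 z (n 40881 z (n 106417 z (n
 24497 z (n 57265 z (n 122801 z z)))))) (n 16305 z z)))))) (n 0 (n 0 (n 0 (n 395 z (n 250 z (n
 250 z (n 250 z (n 1179900 z (n 1179900 z z)))))) (n 0 (n 442 z (n 0 (n 787 z (n 1570 z (n 1090
 z (n 1762 z (n 1090 z (n 1090 z z)))))) (n 0 (n 499 z (n 1570 z (n 1090 z (n 1762 z (n 1090 z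
 (n 1090 z z)))))) (n 0 (n 787 z (n 1570 z (n 1090 z (n 1762 z (n 1090 z (n 1090 z z)))))) (n 0
 (n 787 z (n 1570 z (n 1090 z (n 1762 z (n 3602 z (n 1090 z z)))))) (n 0 (n 787 z (n 1570 z (n
 1090 z (n 1762 z (n 1090 z (n 1090 z z)))))) z)))))) (n 0 (n 442 z (n 1196284 z (n 0 (n 1682 z
 (n 1570 z (n 5314 z (n 1762 z (n 1090 z (n 1090 z z)))))) (n 0 (n 1682 z (n 1570 z (n 1090 z (n
 1762 z (n 1090 z (n 1090 z z)))))) (n 0 (n 1682 z (n 1570 z (n 1090 z (n 1762 z (n 3602 z (n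
 1090 z z)))))) (n 0 (n 1682 z (n 1570 z (n 1090 z (n 1762 z (n 1090 z (n 1090 z z)))))) z))))))
 (n 0 (n 442 z (n 0 (n 1682 z (n 1570 z (n 1090 z (n 2642 z (n 2626 z (n 1090 z z)))))) (n 0 (n
 1682 z (n 1570 z (n 2818 z (n 2642 z (n 2626 z (n 1090 z z)))))) (n 2450 z (n 691 z (n 0 (n
 1682 z (n 1570 z (n 1090 z (n 2642 z (n 2626 z (n 2818 z z)))))) z)))))) (n 0 (n 1180092 z (n 0
 (n 1682 z (n 1570 z (n 1090 z (n 1762 z (n 1090 z (n 1090 z z)))))) (n 0 (n 1682 z (n 1570 z (n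
 1090 z (n 1762 z (n 1090 z (n 1090 z z)))))) (n 0 (n 1682 z (n 1570 z (n 1090 z (n 835 z (n
 1090 z (n 1090 z z)))))) (n 0 (n 1682 z (n 1570 z (n 1090 z (n 1762 z (n 3602 z (n 1090 z
 z)))))) (n 0 (n 1682 z (n 1570 z (n 1090 z (n 1762 z (n 1090 z (n 1090 z z)))))) z)))))) (n 0
 (n 1180092 z (n 0 (n 1682 z (n 1570 z (n 1090 z (n 1762 z (n 1090 z (n 1090 z z)))))) (n 0 (n
 1682 z (n 1570 z (n 1090 z (n 1762 z (n 1090 z (n 1090 z z)))))) (n 0 (n 1682 z (n 1570 z (n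
 1090 z (n 1762 z (n 1090 z (n 1090 z z)))))) (n 0 (n 1682 z (n 1570 z (n 1090 z (n 1762 z (n
 3602 z (n 1090 z z)))))) (n 0 (n 1682 z (n 1570 z (n 1090 z (n 1762 z (n 1090 z (n 5314 z
 z)))))) z)))))) z)))))) (n 49073 z (n 114609 z (n 32689 z (n 65457 z (n 130993 z z)))))) (n 0
 (n 113 z (n 32881 z (n 16497 z (n 49265 z (n 8305 z (n 0 (n 41073 z (n 24689 z (n 57457 z (n
 4209 z (n 36977 z (n 20593 z z)))))) z)))))) (n 0 (n 53361 z (n 12401 z (n 45169 z (n 28785 z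
 (n 0 (n 61553 z (n 2161 z (n 34929 z (n 18545 z (n 51313 z (n 10353 z z)))))) (n 43121 z
 z)))))) z)))))) z))))) (n 0 (n 1179652 z (n 0 (n 27 z (n 0 (n 1090 z (n 26737 z (n 59505 z (n
 6257 z (n 39025 z (n 0 (n 0 (n 202 z (n 0 (n 795 z (n 722 z (n 1417244 z (n 202 z (n 1409052 z
 (n 202 z z)))))) (n 0 (n 1400860 z (n 722 z (n 1417244 z (n 1417244 z (n 1409052 z (n 1409260 z
 z)))))) (n 0 (n 1400860 z (n 722 z (n 1417244 z (n 1417244 z (n 1409052 z (n 1409260 z z))))))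
 (n 0 (n 1400860 z (n 722 z (n 1417244 z (n 1417244 z (n 1409052 z (n 1409260 z z)))))) (n
 1188044 z z)))))) (n 22641 z (n 55409 z (n 14449 z (n 47217 z (n 30833 z z)))))) z)))))) (n 0
 (n 63601 z (n 0 (n 1137 z (n 1298 z (n 33905 z (n 17521 z (n 50289 z (n 9329 z z)))))) (n 42097
 z (n 25713 z (n 58481 z (n 0 (n 5233 z (n 38001 z (n 21617 z (n 54385 z (n 13425 z (n 46193 z
 z)))))) z)))))) (n 0 (n 29809 z (n 62577 z (n 3185 z (n 35953 z (n 19569 z (n 52337 z z))))))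
 (n 0 (n 0 (n 0 (n 395 z (n 0 (n 1682 z (n 387 z (n 1090 z (n 1090 z (n 1762 z (n 1090 z z))))))
 (n 0 (n 1682 z (n 387 z (n 1090 z (n 1090 z (n 1762 z (n 1090 z z)))))) (n 0 (n 1682 z (n 387 z
 (n 1090 z (n 1090 z (n 1762 z (n 1090 z z)))))) (n 0 (n 1682 z (n 387 z (n 1090 z (n 1090 z (n
 1762 z (n 1090 z z)))))) (n 0 (n 1682 z (n 387 z (n 1090 z (n 1090 z (n 1762 z (n 1090 z
 z)))))) z)))))) (n 0 (n 0 (n 787 z (n 379 z (n 1090 z (n 1090 z (n 1762 z (n 1090 z z)))))) (n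
 0 (n 787 z (n 3602 z (n 1090 z (n 1090 z (n 1762 z (n 1090 z z)))))) (n 0 (n 499 z (n 1570 z (n
 1090 z (n 1090 z (n 1762 z (n 1090 z z)))))) (n 0 (n 787 z (n 1570 z (n 1090 z (n 1090 z (n
 1762 z (n 1090 z z)))))) (n 0 (n 787 z (n 1570 z (n 1090 z (n 835 z (n 1762 z (n 1090 z z))))))
 (n 0 (n 787 z (n 1570 z (n 1090 z (n 1090 z (n 1762 z (n 1090 z z)))))) z)))))) (n 0 (n 0 (n
 1682 z (n 379 z (n 1090 z (n 1090 z (n 1762 z (n 1090 z z)))))) (n 0 (n 1682 z (n 3602 z (n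
 1090 z (n 1090 z (n 1762 z (n 1090 z z)))))) (n 0 (n 1682 z (n 1570 z (n 1090 z (n 1090 z (n
 1762 z (n 1090 z z)))))) (n 0 (n 1682 z (n 1570 z (n 1090 z (n 1090 z (n 1762 z (n 1090 z
 z)))))) (n 0 (n 1682 z (n 1570 z (n 1090 z (n 1090 z (n 1762 z (n 1090 z z)))))) (n 0 (n 1682 z
 (n 1570 z (n 1090 z (n 1090 z (n 1762 z (n 1090 z z)))))) z)))))) (n 0 (n 0 (n 1682 z (n 379 z
 (n 1090 z (n 1090 z (n 1762 z (n 1090 z z)))))) (n 0 (n 1682 z (n 3602 z (n 1090 z (n 1090 z (n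
 1762 z (n 1090 z z)))))) (n 0 (n 1682 z (n 1570 z (n 1090 z (n 1090 z (n 1762 z (n 1090 z
 z)))))) (n 2450 z (n 0 (n 1682 z (n 1570 z (n 1090 z (n 1090 z (n 1762 z (n 1090 z z)))))) (n 0
 (n 1682 z (n 1570 z (n 1090 z (n 1090 z (n 1762 z (n 1090 z z)))))) z)))))) (n 0 (n 0 (n 1682 z
 (n 379 z (n 1090 z (n 1090 z (n 2642 z (n 1090 z z)))))) (n 691 z (n 0 (n 1682 z (n 1570 z (n
 1090 z (n 1090 z (n 2642 z (n 1090 z z)))))) (n 0 (n 1682 z (n 1570 z (n 1090 z (n 1090 z (n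
 2642 z (n 1090 z z)))))) (n 4866 z (n 0 (n 1682 z (n 1570 z (n 1090 z (n 1090 z (n 2642 z (n
 1090 z z)))))) z)))))) (n 0 (n 0 (n 1682 z (n 379 z (n 1090 z (n 1090 z (n 1762 z (n 1090 z
 z)))))) (n 0 (n 1682 z (n 3602 z (n 1090 z (n 1090 z (n 1762 z (n 1090 z z)))))) (n 0 (n 1682 z
 (n 1570 z (n 1090 z (n 1090 z (n 1762 z (n 1090 z z)))))) (n 0 (n 1682 z (n 1570 z (n 1090 z (n
 1090 z (n 1762 z (n 1090 z z)))))) (n 0 (n 1682 z (n 1570 z (n 1090 z (n 1090 z (n 1762 z (n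
 1090 z z)))))) (n 0 (n 1682 z (n 1570 z (n 1090 z (n 1090 z (n 1762 z (n 1090 z z)))))) z))))))
 z)))))) (n 11377 z (n 44145 z (n 27761 z (n 60529 z (n 7281 z z)))))) (n 0 (n 40049 z (n 0 (n
 23665 z (n 1298 z (n 56433 z (n 15473 z (n 48241 z (n 31857 z z)))))) (n 64625 z (n 0 (n 625 z
 (n 33393 z (n 17009 z (n 49777 z (n 8817 z (n 41585 z z)))))) (n 25201 z (n 57969 z z))))))
 z)))))) (n 0 (n 27 z (n 0 (n 1090 z (n 123505 z (n 4721 z (n 37489 z (n 21105 z (n 53873 z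
 z)))))) (n 0 (n 0 (n 0 (n 395 z (n 58 z (n 3202 z (n 58 z (n 58 z (n 58 z z)))))) (n 0 (n 755 z
 (n 58 z (n 3202 z (n 58 z (n 0 (n 1682 z (n 1570 z (n 1762 z (n 1090 z (n 1090 z (n 1090 z
 z)))))) (n 0 (n 1682 z (n 1570 z (n 1762 z (n 1090 z (n 1090 z (n 1146 z z)))))) z)))))) (n 0
 (n 755 z (n 58 z (n 3202 z (n 58 z (n 58 z (n 58 z z)))))) (n 0 (n 755 z (n 58 z (n 3202 z (n
 2450 z (n 0 (n 1682 z (n 1570 z (n 1762 z (n 1146 z (n 1090 z (n 1146 z z)))))) (n 0 (n 1682 z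
 (n 1570 z (n 1762 z (n 1146 z (n 1090 z (n 1146 z z)))))) z)))))) (n 0 (n 755 z (n 58 z (n 691
 z (n 58 z (n 1187900 z (n 0 (n 1682 z (n 1570 z (n 1762 z (n 1146 z (n 2642 z (n 1146 z z))))))
 z)))))) (n 0 (n 755 z (n 58 z (n 3202 z (n 58 z (n 0 (n 1682 z (n 1570 z (n 1762 z (n 1146 z (n
 1090 z (n 1146 z z)))))) (n 1187900 z z)))))) z)))))) (n 12913 z (n 45681 z (n 0 (n 29297 z (n
 62065 z (n 127601 z (n 2673 z (n 35441 z (n 19057 z z)))))) (n 51825 z (n 0 (n 10865 z (n 43633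
 z (n 27249 z (n 60017 z (n 125553 z (n 6769 z z)))))) z)))))) (n 0 (n 39537 z (n 23153 z (n 0
 (n 55921 z (n 14961 z (n 47729 z (n 31345 z (n 64113 z (n 129649 z z)))))) (n 1649 z (n 34417 z
 (n 0 (n 18033 z (n 50801 z (n 9841 z (n 42609 z (n 26225 z (n 58993 z z)))))) z)))))) (n 0 (n 0
 (n 0 (n 395 z (n 0 (n 1682 z (n 387 z (n 1090 z (n 1090 z (n 1762 z (n 1090 z z)))))) (n 3202 z
 (n 0 (n 1682 z (n 387 z (n 1090 z (n 1090 z (n 1762 z (n 1090 z z)))))) (n 0 (n 1682 z (n 387 z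
 (n 1090 z (n 1090 z (n 1762 z (n 1090 z z)))))) (n 0 (n 1682 z (n 387 z (n 1090 z (n 1090 z (n
 1762 z (n 1090 z z)))))) z)))))) (n 0 (n 0 (n 787 z (n 379 z (n 1090 z (n 1090 z (n 1762 z (n
 1090 z z)))))) (n 0 (n 787 z (n 1570 z (n 1090 z (n 1090 z (n 1762 z (n 1090 z z)))))) (n 3202
 z (n 0 (n 787 z (n 1570 z (n 1090 z (n 1090 z (n 1762 z (n 1090 z z)))))) (n 0 (n 787 z (n 1570
 z (n 1090 z (n 1090 z (n 1762 z (n 1090 z z)))))) (n 0 (n 787 z (n 1570 z (n 1090 z (n 1090 z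
 (n 1762 z (n 1090 z z)))))) z)))))) (n 0 (n 0 (n 1682 z (n 379 z (n 1090 z (n 1090 z (n 1762 z
 (n 1090 z z)))))) (n 0 (n 1682 z (n 1570 z (n 1090 z (n 1090 z (n 1762 z (n 1090 z z)))))) (n
 3202 z (n 0 (n 1682 z (n 1570 z (n 1090 z (n 1090 z (n 1762 z (n 1090 z z)))))) (n 0 (n 1682 z
 (n 1570 z (n 1090 z (n 835 z (n 1762 z (n 1090 z z)))))) (n 0 (n 1682 z (n 1570 z (n 1090 z (n
 1090 z (n 1762 z (n 1090 z z)))))) z)))))) (n 0 (n 0 (n 1682 z (n 379 z (n 1090 z (n 1090 z (n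
 1762 z (n 1090 z z)))))) (n 0 (n 1682 z (n 1570 z (n 1090 z (n 1090 z (n 1762 z (n 1090 z
 z)))))) (n 3202 z (n 2450 z (n 0 (n 1682 z (n 1570 z (n 1090 z (n 1090 z (n 1762 z (n 1090 z
 z)))))) (n 0 (n 1682 z (n 1570 z (n 1090 z (n 1090 z (n 1762 z (n 1090 z z)))))) z)))))) (n 0
 (n 0 (n 1682 z (n 379 z (n 1090 z (n 1090 z (n 2642 z (n 1090 z z)))))) (n 0 (n 1682 z (n 1570
 z (n 1090 z (n 1090 z (n 2642 z (n 1090 z z)))))) (n 691 z (n 0 (n 1682 z (n 1570 z (n 1090 z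
 (n 1090 z (n 2642 z (n 1090 z z)))))) (n 4866 z (n 0 (n 1682 z (n 1570 z (n 1090 z (n 1090 z (n
 2642 z (n 1090 z z)))))) z)))))) (n 0 (n 0 (n 1682 z (n 379 z (n 1090 z (n 1090 z (n 1762 z (n
 1090 z z)))))) (n 0 (n 1682 z (n 1570 z (n 1090 z (n 1090 z (n 1762 z (n 1090 z z)))))) (n 3202
 z (n 0 (n 1682 z (n 1570 z (n 1090 z (n 1090 z (n 1762 z (n 1090 z z)))))) (n 0 (n 1682 z (n
 1570 z (n 1090 z (n 1090 z (n 1762 z (n 1090 z z)))))) (n 0 (n 1682 z (n 1570 z (n 1090 z (n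
 1090 z (n 1762 z (n 1090 z z)))))) z)))))) z)))))) (n 124529 z (n 5745 z (n 38513 z (n 22129 z
 (n 54897 z z)))))) (n 0 (n 13937 z (n 46705 z (n 0 (n 30321 z (n 63089 z (n 128625 z (n 3697 z
 (n 36465 z (n 20081 z z)))))) (n 0 (n 52849 z (n 11889 z (n 44657 z (n 28273 z (n 61041 z (n
 126577 z z)))))) (n 7793 z (n 40561 z z)))))) z)))))) (n 0 (n 27 z (n 0 (n 1090 z (n 24177 z (n
 56945 z (n 122481 z (n 15985 z (n 48753 z z)))))) (n 0 (n 32369 z (n 65137 z (n 130673 z (n 0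
 (n 369 z (n 33137 z (n 16753 z (n 49521 z (n 8561 z (n 41329 z z)))))) (n 24945 z (n 57713 z
 z)))))) (n 0 (n 4465 z (n 37233 z (n 20849 z (n 53617 z (n 12657 z (n 45425 z z)))))) (n 0 (n 0
 (n 0 (n 395 z (n 0 (n 1682 z (n 387 z (n 1090 z (n 1090 z (n 1762 z (n 1090 z z)))))) (n 0 (n
 1682 z (n 387 z (n 1090 z (n 1090 z (n 1762 z (n 1090 z z)))))) (n 0 (n 1682 z (n 387 z (n 1090
 z (n 3602 z (n 1762 z (n 1090 z z)))))) (n 0 (n 1682 z (n 387 z (n 1090 z (n 1090 z (n 1762 z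
 (n 1090 z z)))))) (n 0 (n 1682 z (n 387 z (n 1090 z (n 1090 z (n 1762 z (n 1090 z z))))))
 z)))))) (n 0 (n 0 (n 787 z (n 379 z (n 1090 z (n 1090 z (n 1762 z (n 1090 z z)))))) (n 0 (n 787
 z (n 1570 z (n 1090 z (n 1090 z (n 1762 z (n 1090 z z)))))) (n 0 (n 499 z (n 1570 z (n 1090 z
 (n 1090 z (n 1762 z (n 1090 z z)))))) (n 0 (n 787 z (n 1570 z (n 1090 z (n 3602 z (n 1762 z (n
 1090 z z)))))) (n 0 (n 787 z (n 1570 z (n 1090 z (n 1090 z (n 1762 z (n 1090 z z)))))) (n 0 (n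
 787 z (n 1570 z (n 1090 z (n 1090 z (n 1762 z (n 1090 z z)))))) z)))))) (n 0 (n 0 (n 1682 z (n
 379 z (n 1090 z (n 1090 z (n 1762 z (n 1090 z z)))))) (n 0 (n 1682 z (n 1570 z (n 1090 z (n
 1090 z (n 1762 z (n 1090 z z)))))) (n 0 (n 1682 z (n 1570 z (n 5506 z (n 1090 z (n 1762 z (n
 1090 z z)))))) (n 0 (n 1682 z (n 1570 z (n 3778 z (n 3602 z (n 1762 z (n 1090 z z)))))) (n 0 (n
 1682 z (n 1570 z (n 1090 z (n 1090 z (n 1762 z (n 1090 z z)))))) (n 0 (n 1682 z (n 1570 z (n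
 1090 z (n 1090 z (n 1762 z (n 1090 z z)))))) z)))))) (n 0 (n 0 (n 1682 z (n 379 z (n 1090 z (n
 1090 z (n 1762 z (n 1090 z z)))))) (n 0 (n 1682 z (n 1570 z (n 1090 z (n 1090 z (n 1762 z (n
 1090 z z)))))) (n 0 (n 1682 z (n 1570 z (n 1090 z (n 1090 z (n 1762 z (n 1090 z z)))))) (n 2450
 z (n 0 (n 1682 z (n 1570 z (n 1090 z (n 835 z (n 1762 z (n 1090 z z)))))) (n 0 (n 1682 z (n
 1570 z (n 1090 z (n 1090 z (n 1762 z (n 1090 z z)))))) z)))))) (n 0 (n 0 (n 1682 z (n 379 z (n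
 1090 z (n 1090 z (n 2642 z (n 1090 z z)))))) (n 0 (n 1682 z (n 1570 z (n 1090 z (n 1090 z (n
 2642 z (n 1090 z z)))))) (n 0 (n 1682 z (n 1570 z (n 1090 z (n 1090 z (n 2642 z (n 1090 z
 z)))))) (n 691 z (n 4866 z (n 0 (n 1682 z (n 1570 z (n 1090 z (n 1090 z (n 2642 z (n 1090 z
 z)))))) z)))))) (n 0 (n 0 (n 1682 z (n 379 z (n 1090 z (n 1090 z (n 1762 z (n 1090 z z)))))) (n
 0 (n 1682 z (n 1570 z (n 1090 z (n 1090 z (n 1762 z (n 1090 z z)))))) (n 0 (n 1682 z (n 1570 z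
 (n 1090 z (n 1090 z (n 1762 z (n 1090 z z)))))) (n 0 (n 1682 z (n 1570 z (n 1090 z (n 3602 z (n
 1762 z (n 3778 z z)))))) (n 0 (n 1682 z (n 1570 z (n 1090 z (n 1090 z (n 1762 z (n 1090 z
 z)))))) (n 0 (n 1682 z (n 1570 z (n 1090 z (n 1090 z (n 1762 z (n 5506 z z)))))) z))))))
 z)))))) (n 29041 z (n 61809 z (n 127345 z (n 2417 z (n 35185 z z)))))) (n 0 (n 18801 z (n 51569
 z (n 10609 z (n 0 (n 43377 z (n 26993 z (n 59761 z (n 6513 z (n 39281 z (n 22897 z z)))))) (n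
 55665 z (n 14705 z z)))))) z)))))) (n 1187844 z (n 0 (n 27 z (n 0 (n 1090 z (n 47473 z (n 31089
 z (n 0 (n 202 z (n 63857 z (n 129393 z (n 1393 z (n 34161 z (n 17777 z z)))))) (n 50545 z (n
 9585 z z)))))) (n 0 (n 0 (n 0 (n 395 z (n 58 z (n 58 z (n 58 z (n 58 z (n 58 z z)))))) (n 0 (n
 755 z (n 58 z (n 58 z (n 58 z (n 58 z (n 58 z z)))))) (n 0 (n 755 z (n 58 z (n 4866 z (n 58 z
 (n 58 z (n 58 z z)))))) (n 0 (n 755 z (n 58 z (n 58 z (n 2450 z (n 58 z (n 58 z z)))))) (n 0 (n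
 755 z (n 58 z (n 58 z (n 58 z (n 58 z (n 691 z z)))))) (n 0 (n 755 z (n 58 z (n 58 z (n 58 z (n
 0 (n 1682 z (n 1570 z (n 1762 z (n 835 z (n 1090 z (n 1090 z z)))))) (n 58 z z)))))) z)))))) (n
 42353 z (n 25969 z (n 0 (n 58737 z (n 5489 z (n 38257 z (n 21873 z (n 54641 z (n 13681 z
 z)))))) (n 46449 z (n 0 (n 0 (n 394 z (n 30065 z (n 62833 z (n 128369 z (n 3441 z (n 36209 z
 z)))))) (n 19825 z (n 52593 z (n 11633 z (n 44401 z (n 28017 z z)))))) z)))))) (n 0 (n 60785 z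
 (n 7537 z (n 40305 z (n 23921 z (n 56689 z (n 0 (n 0 (n 779 z (n 250 z (n 250 z (n 250 z (n 250
 z (n 250 z z)))))) (n 15729 z (n 48497 z (n 32113 z (n 64881 z (n 130417 z z)))))) z)))))) (n 0
 (n 0 (n 0 (n 395 z (n 0 (n 1682 z (n 387 z (n 1090 z (n 1090 z (n 1762 z (n 1090 z z)))))) (n 0
 (n 1682 z (n 387 z (n 1090 z (n 1090 z (n 1762 z (n 1090 z z)))))) (n 0 (n 1682 z (n 387 z (n
 1090 z (n 1090 z (n 1762 z (n 1090 z z)))))) (n 0 (n 1682 z (n 387 z (n 1090 z (n 1090 z (n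
 1762 z (n 1090 z z)))))) (n 0 (n 1682 z (n 387 z (n 1090 z (n 1090 z (n 1762 z (n 3602 z
 z)))))) z)))))) (n 0 (n 0 (n 787 z (n 379 z (n 1090 z (n 1090 z (n 1762 z (n 1090 z z)))))) (n
 0 (n 787 z (n 1570 z (n 1090 z (n 1090 z (n 1762 z (n 1090 z z)))))) (n 0 (n 499 z (n 1570 z (n
 1090 z (n 1090 z (n 1762 z (n 1090 z z)))))) (n 0 (n 787 z (n 1570 z (n 1090 z (n 1090 z (n
 1762 z (n 1090 z z)))))) (n 0 (n 787 z (n 1570 z (n 1090 z (n 1090 z (n 1762 z (n 1090 z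
 z)))))) (n 0 (n 787 z (n 1570 z (n 1090 z (n 1090 z (n 1762 z (n 3602 z z)))))) z)))))) (n 0 (n
 0 (n 1682 z (n 379 z (n 1090 z (n 1090 z (n 1762 z (n 1090 z z)))))) (n 0 (n 1682 z (n 1570 z
 (n 1090 z (n 1090 z (n 1762 z (n 1090 z z)))))) (n 0 (n 1682 z (n 1570 z (n 1090 z (n 1090 z (n
 1762 z (n 1090 z z)))))) (n 0 (n 1682 z (n 1570 z (n 1090 z (n 1090 z (n 1762 z (n 1090 z
 z)))))) (n 0 (n 1682 z (n 1570 z (n 1090 z (n 1090 z (n 1762 z (n 1090 z z)))))) (n 0 (n 1682 z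
 (n 1570 z (n 1090 z (n 1090 z (n 1762 z (n 3602 z z)))))) z)))))) (n 0 (n 0 (n 1682 z (n 379 z
 (n 1090 z (n 1090 z (n 1762 z (n 1090 z z)))))) (n 0 (n 1682 z (n 1570 z (n 1090 z (n 1090 z (n
 1762 z (n 1090 z z)))))) (n 0 (n 1682 z (n 1570 z (n 1090 z (n 1090 z (n 1762 z (n 1090 z
 z)))))) (n 2450 z (n 0 (n 1682 z (n 1570 z (n 1090 z (n 1090 z (n 1762 z (n 1090 z z)))))) (n 0
 (n 1682 z (n 1570 z (n 1090 z (n 1090 z (n 1762 z (n 3602 z z)))))) z)))))) (n 0 (n 0 (n 1682 z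
 (n 379 z (n 1090 z (n 1090 z (n 2642 z (n 1090 z z)))))) (n 0 (n 1682 z (n 1570 z (n 1090 z (n
 1090 z (n 2642 z (n 1090 z z)))))) (n 0 (n 1682 z (n 1570 z (n 1090 z (n 1090 z (n 2642 z (n
 1090 z z)))))) (n 0 (n 1682 z (n 1570 z (n 1090 z (n 1090 z (n 2642 z (n 1090 z z)))))) (n 4866
 z (n 691 z z)))))) (n 0 (n 0 (n 1682 z (n 379 z (n 1090 z (n 1090 z (n 1762 z (n 1090 z z))))))
 (n 0 (n 1682 z (n 1570 z (n 1090 z (n 1090 z (n 1762 z (n 1090 z z)))))) (n 0 (n 1682 z (n 1570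
 z (n 1090 z (n 1090 z (n 1762 z (n 1090 z z)))))) (n 0 (n 1682 z (n 1570 z (n 1090 z (n 1090 z
 (n 1762 z (n 1090 z z)))))) (n 0 (n 1682 z (n 1570 z (n 1090 z (n 835 z (n 1762 z (n 1090 z
 z)))))) (n 0 (n 1682 z (n 1570 z (n 1090 z (n 1090 z (n 1762 z (n 3602 z z)))))) z))))))
 z)))))) (n 881 z (n 33649 z (n 99185 z (n 17265 z (n 0 (n 50033 z (n 0 (n 0 (n 787 z (n 1507356
 z (n 827 z (n 1531932 z (n 1515548 z (n 1523740 z z)))))) (n 0 (n 787 z (n 5698 z (n 1531932 z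
 (n 1531932 z (n 1515548 z (n 1523740 z z)))))) (n 0 (n 499 z (n 1507356 z (n 1531932 z (n
 1531932 z (n 1515548 z (n 1523740 z z)))))) (n 0 (n 787 z (n 1507356 z (n 1531932 z (n 1531932
 z (n 1515548 z (n 1523740 z z)))))) (n 0 (n 787 z (n 1507356 z (n 1531932 z (n 1531932 z (n
 5610 z (n 1523740 z z)))))) (n 0 (n 787 z (n 1507356 z (n 1531932 z (n 1531932 z (n 1515548 z
 (n 3602 z z)))))) z)))))) (n 115569 z (n 9073 z (n 41841 z (n 107377 z z)))))) z)))))) (n 0 (n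
 25457 z (n 58225 z (n 123761 z (n 0 (n 4977 z (n 37745 z (n 103281 z (n 21361 z (n 54129 z (n
 119665 z z)))))) (n 0 (n 0 (n 0 (n 5554 z (n 371 z (n 1582124 z (n 1582124 z (n 1512052 z (n
 1557548 z z)))))) (n 0 (n 795 z (n 819 z (n 1582124 z (n 1582124 z (n 1512052 z (n 1557548 z
 z)))))) (n 0 (n 1483820 z (n 819 z (n 1582124 z (n 1582124 z (n 1512052 z (n 1557548 z z))))))
 (n 0 (n 1483820 z (n 819 z (n 1582124 z (n 1582124 z (n 1512052 z (n 1557548 z z)))))) (n 0 (n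
 1483820 z (n 819 z (n 1582124 z (n 1582124 z (n 5658 z (n 1557548 z z)))))) (n 0 (n 1483820 z
 (n 819 z (n 1582124 z (n 1582124 z (n 1512052 z (n 3602 z z)))))) z)))))) (n 13169 z (n 45937 z
 (n 111473 z (n 29553 z (n 62321 z z)))))) (n 0 (n 127857 z (n 2929 z (n 35697 z (n 101233 z (n
 19313 z (n 4802 z z)))))) z)))))) z)))))) z)))))) z))))) (n 0 (n 194 z (n 1250 z (n 0 (n 0 (n
 27 z (n 0 (n 10 z (n 52081 z (n 117617 z (n 11121 z (n 43889 z z))))) (n 0 (n 58 z (n 109425 z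
 (n 27505 z (n 60273 z (n 0 (n 125809 z (n 7025 z (n 39793 z (n 105329 z (n 23409 z (n 56177 z
 z)))))) z))))) (n 0 (n 121713 z (n 15217 z (n 47985 z (n 113521 z (n 0 (n 250 z (n 31601 z (n
 97137 z (n 64369 z (n 129905 z (n 1905 z z)))))) z))))) (n 0 (n 0 (n 34673 z (n 100209 z (n
 18289 z (n 51057 z (n 116593 z (n 10097 z z)))))) (n 42865 z (n 108401 z (n 0 (n 26481 z (n
 59249 z (n 124785 z (n 6001 z (n 38769 z (n 104305 z z)))))) (n 22385 z (n 0 (n 55153 z (n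
 120689 z (n 14193 z (n 46961 z (n 112497 z (n 30577 z z)))))) z)))))) z))))) (n 3858 z (n 0 (n
 27 z (n 63345 z (n 128881 z (n 0 (n 3953 z (n 36721 z (n 102257 z (n 20337 z (n 53105 z z)))))
 (n 0 (n 118641 z (n 12145 z (n 44913 z (n 110449 z (n 28529 z (n 0 (n 61297 z (n 126833 z (n
 8049 z (n 40817 z (n 106353 z (n 24433 z z)))))) z)))))) z))))) (n 0 (n 27 z (n 0 (n 10 z (n
 57201 z (n 122737 z (n 16241 z (n 49009 z z))))) (n 0 (n 58 z (n 114545 z (n 32625 z (n 98161 z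
 (n 0 (n 65393 z (n 130929 z (n 241 z (n 33009 z (n 16625 z (n 49393 z z)))))) z))))) (n 0 (n
 114929 z (n 8433 z (n 41201 z (n 106737 z (n 24817 z z))))) (n 0 (n 57585 z (n 123121 z (n 4337
 z (n 37105 z (n 102641 z (n 0 (n 20721 z (n 53489 z (n 119025 z (n 12529 z (n 45297 z (n 110833
 z z)))))) z)))))) z))))) (n 0 (n 27 z (n 0 (n 10 z (n 28913 z (n 61681 z (n 127217 z (n 2289 z
 (n 35057 z z)))))) (n 0 (n 58 z (n 18673 z (n 51441 z (n 0 (n 116977 z (n 10481 z (n 43249 z (n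
 108785 z (n 26865 z (n 59633 z z)))))) (n 125169 z (n 0 (n 6385 z (n 39153 z (n 104689 z (n
 22769 z (n 55537 z (n 121073 z z)))))) z)))))) (n 0 (n 14577 z (n 47345 z (n 112881 z (n 30961
 z (n 63729 z (n 0 (n 250 z (n 129265 z (n 1265 z (n 34033 z (n 17649 z (n 50417 z z))))))
 z)))))) (n 0 (n 115953 z (n 9457 z (n 42225 z (n 0 (n 107761 z (n 25841 z (n 58609 z (n 124145
 z (n 5361 z (n 38129 z z)))))) (n 103665 z (n 0 (n 21745 z (n 54513 z (n 120049 z (n 13553 z (n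
 46321 z (n 111857 z z)))))) z)))))) (n 0 (n 0 (n 29937 z (n 62705 z (n 128241 z (n 3313 z (n
 36081 z (n 101617 z z)))))) (n 19697 z (n 52465 z (n 0 (n 118001 z (n 11505 z (n 44273 z (n
 109809 z (n 27889 z (n 60657 z z)))))) (n 0 (n 126193 z (n 7409 z (n 40177 z (n 105713 z (n
 23793 z (n 56561 z z)))))) (n 122097 z z)))))) z)))))) z))))) (n 0 (n 0 (n 27 z (n 0 (n 10 z (n
 15601 z (n 48369 z (n 113905 z (n 31985 z z))))) (n 0 (n 58 z (n 64753 z (n 130289 z (n 753 z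
 (n 33521 z z))))) (n 0 (n 17137 z (n 49905 z (n 115441 z (n 8945 z (n 41713 z z))))) (n 0 (n
 107249 z (n 25329 z (n 58097 z (n 0 (n 123633 z (n 4849 z (n 37617 z (n 21233 z (n 54001 z (n
 119537 z z)))))) (n 13041 z (n 0 (n 45809 z (n 111345 z (n 29425 z (n 62193 z (n 127729 z (n
 2801 z z)))))) z)))))) z))))) (n 3858 z (n 0 (n 27 z (n 0 (n 10 z (n 35569 z (n 19185 z (n
 51953 z (n 117489 z z))))) (n 0 (n 58 z (n 10993 z (n 43761 z (n 109297 z (n 27377 z z))))) (n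
 0 (n 60145 z (n 125681 z (n 6897 z (n 39665 z (n 105201 z z))))) (n 0 (n 23281 z (n 56049 z (n
 0 (n 121585 z (n 15089 z (n 47857 z (n 113393 z (n 31473 z (n 64241 z z)))))) (n 0 (n 129777 z
 (n 1777 z (n 34545 z (n 18161 z (n 50929 z (n 116465 z z)))))) (n 9969 z (n 0 (n 42737 z (n
 108273 z (n 26353 z (n 59121 z (n 124657 z (n 5873 z z)))))) z)))))) z))))) (n 2402 z (n 0 (n
 27 z (n 0 (n 10 z (n 38641 z (n 22257 z (n 55025 z (n 120561 z (n 14065 z z)))))) (n 0 (n 58 z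
 (n 46833 z (n 112369 z (n 30449 z (n 63217 z (n 0 (n 128753 z (n 3825 z (n 36593 z (n 20209 z
 (n 52977 z (n 118513 z z)))))) z)))))) (n 0 (n 12017 z (n 44785 z (n 110321 z (n 28401 z (n
 61169 z (n 126705 z z)))))) (n 0 (n 7921 z (n 40689 z (n 106225 z (n 24305 z (n 57073 z (n 0 (n
 122609 z (n 16113 z (n 48881 z (n 114417 z (n 32497 z (n 65265 z z)))))) z)))))) (n 0 (n 130801
 z (n 497 z (n 0 (n 33265 z (n 16881 z (n 49649 z (n 115185 z (n 8689 z (n 41457 z z)))))) (n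
 106993 z (n 0 (n 25073 z (n 57841 z (n 123377 z (n 4593 z (n 37361 z (n 20977 z z)))))) (n
 53745 z z)))))) z)))))) z))))) (n 0 (n 0 (n 27 z (n 0 (n 10 z (n 119281 z (n 0 (n 202 z (n 202
 z (n 12785 z (n 45553 z (n 111089 z (n 0 (n 3010 z (n 29169 z (n 1490 z (n 61937 z (n 127473 z
 (n 2545 z z)))))) z)))))) (n 35313 z (n 18929 z (n 0 (n 202 z (n 51697 z (n 117233 z (n 10737 z
 (n 43505 z (n 109041 z z)))))) z)))))) (n 0 (n 58 z (n 27121 z (n 59889 z (n 125425 z (n 6641 z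
 (n 39409 z z)))))) (n 0 (n 0 (n 250 z (n 104945 z (n 23025 z (n 0 (n 442 z (n 250 z (n 250 z (n
 2450 z (n 250 z (n 250 z z)))))) (n 0 (n 442 z (n 55793 z (n 121329 z (n 14833 z (n 47601 z (n
 113137 z z)))))) (n 31217 z z)))))) (n 63985 z (n 129521 z (n 1521 z (n 34289 z (n 0 (n 250 z
 (n 17905 z (n 50673 z (n 116209 z (n 9713 z (n 42481 z z)))))) z)))))) (n 0 (n 108017 z (n
 26097 z (n 58865 z (n 0 (n 124401 z (n 5617 z (n 38385 z (n 103921 z (n 22001 z (n 54769 z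
 z)))))) (n 120305 z (n 0 (n 13809 z (n 46577 z (n 112113 z (n 30193 z (n 62961 z (n 128497 z
 z)))))) z)))))) (n 0 (n 0 (n 3569 z (n 36337 z (n 19953 z (n 52721 z (n 118257 z (n 11761 z
 z)))))) (n 44529 z (n 110065 z (n 0 (n 28145 z (n 60913 z (n 126449 z (n 7665 z (n 40433 z (n
 105969 z z)))))) (n 0 (n 24049 z (n 56817 z (n 122353 z (n 15857 z (n 48625 z (n 114161 z
 z)))))) (n 32241 z z)))))) z)))))) (n 3858 z (n 0 (n 27 z (n 0 (n 10 z (n 65009 z (n 130545 z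
 (n 1009 z (n 33777 z (n 17393 z z)))))) (n 0 (n 58 z (n 50161 z (n 115697 z (n 9201 z (n 41969
 z (n 107505 z z)))))) (n 0 (n 25585 z (n 58353 z (n 123889 z (n 5105 z (n 37873 z (n 21489 z
 z)))))) (n 0 (n 54257 z (n 119793 z (n 13297 z (n 0 (n 46065 z (n 111601 z (n 29681 z (n 62449
 z (n 127985 z (n 3057 z z)))))) (n 35825 z (n 0 (n 19441 z (n 52209 z (n 117745 z (n 11249 z (n
 44017 z (n 109553 z z)))))) z)))))) (n 0 (n 0 (n 27633 z (n 60401 z (n 125937 z (n 7153 z (n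
 39921 z (n 105457 z z)))))) (n 23537 z (n 56305 z (n 0 (n 121841 z (n 15345 z (n 48113 z (n
 113649 z (n 31729 z (n 64497 z z)))))) (n 0 (n 130033 z (n 2033 z (n 34801 z (n 18417 z (n
 51185 z (n 116721 z z)))))) (n 10225 z z)))))) z)))))) (n 0 (n 27 z (n 0 (n 10 z (n 42993 z (n
 108529 z (n 26609 z (n 59377 z (n 124913 z z)))))) (n 0 (n 58 z (n 6129 z (n 38897 z (n 104433
 z (n 22513 z (n 0 (n 55281 z (n 120817 z (n 14321 z (n 47089 z (n 112625 z (n 30705 z z))))))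
 z)))))) (n 0 (n 63473 z (n 129009 z (n 4081 z (n 36849 z (n 20465 z (n 53233 z z)))))) (n 0 (n
 118769 z (n 12273 z (n 45041 z (n 110577 z (n 28657 z (n 0 (n 61425 z (n 126961 z (n 8177 z (n
 40945 z (n 106481 z (n 24561 z z)))))) z)))))) (n 0 (n 0 (n 57329 z (n 122865 z (n 16369 z (n
 49137 z (n 114673 z (n 32753 z z)))))) (n 65521 z (n 131057 z (n 9 z (n 16393 z (n 8201 z
 z)))))) z)))))) (n 0 (n 27 z (n 0 (n 10 z (n 0 (n 202 z (n 1298 z (n 10 z (n 10 z (n 715 z (n 0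
 (n 10 z (n 4818 z (n 10 z (n 10 z (n 707 z (n 539 z z)))))) z)))))) (n 24585 z (n 4105 z (n
 20489 z (n 12297 z z)))))) (n 0 (n 58 z (n 28681 z (n 2057 z (n 18441 z (n 10249 z (n 26633 z
 z)))))) (n 0 (n 6153 z (n 22537 z (n 14345 z (n 30729 z (n 1033 z (n 0 (n 250 z (n 17417 z (n
 9225 z (n 25609 z (n 5129 z (n 21513 z z)))))) z)))))) (n 0 (n 13321 z (n 29705 z (n 3081 z (n
 19465 z (n 11273 z (n 27657 z z)))))) (n 0 (n 7177 z (n 23561 z (n 15369 z (n 0 (n 31753 z (n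
 64521 z (n 521 z (n 16905 z (n 8713 z (n 25097 z z)))))) (n 4617 z (n 21001 z z)))))) z))))))
 (n 0 (n 27 z (n 0 (n 10 z (n 12809 z (n 29193 z (n 2569 z (n 18953 z (n 10761 z z)))))) (n 0 (n
 58 z (n 27145 z (n 6665 z (n 23049 z (n 14857 z (n 31241 z z)))))) (n 0 (n 64009 z (n 1545 z (n
 17929 z (n 9737 z (n 26121 z (n 5641 z z)))))) (n 0 (n 22025 z (n 13833 z (n 30217 z (n 0 (n
 3593 z (n 19977 z (n 11785 z (n 28169 z (n 7689 z (n 24073 z z)))))) (n 15881 z (n 0 (n 32265 z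
 (n 65033 z (n 265 z (n 33033 z (n 16649 z (n 49417 z z)))))) z)))))) (n 0 (n 114953 z (n 8457 z
 (n 41225 z (n 0 (n 24841 z (n 57609 z (n 123145 z (n 4361 z (n 37129 z (n 20745 z z)))))) (n 0
 (n 53513 z (n 119049 z (n 12553 z (n 45321 z (n 110857 z (n 28937 z z)))))) (n 61705 z z))))))
 z)))))) z)))))) z))))) (n 0 (n 194 z (n 194 z (n 0 (n 0 (n 27 z (n 127241 z (n 0 (n 58 z (n
 2313 z (n 58 z (n 35081 z (n 18697 z z))))) (n 0 (n 51465 z (n 117001 z (n 0 (n 250 z (n 0 (n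
 1474 z (n 0 (n 1666 z (n 1858 z (n 1682 z (n 1474 z (n 1474 z z))))) (n 1490 z (n 442 z (n 0 (n
 1666 z (n 1474 z (n 1682 z (n 1474 z (n 1858 z (n 1474 z z)))))) z))))) (n 411 z (n 250 z (n 0
 (n 1474 z (n 0 (n 1666 z (n 1858 z (n 1682 z (n 1474 z (n 1474 z (n 1474 z z)))))) (n 1490 z (n
 442 z (n 0 (n 1666 z (n 1474 z (n 1682 z (n 1474 z (n 1858 z (n 1474 z z)))))) (n 0 (n 1666 z
 (n 1474 z (n 1682 z (n 1474 z (n 1474 z (n 1858 z z)))))) z)))))) z))))) (n 10505 z (n 43273 z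
 z))))) (n 0 (n 108809 z (n 26889 z (n 0 (n 0 (n 1474 z (n 0 (n 1666 z (n 1858 z (n 1682 z (n
 1474 z (n 1474 z (n 1474 z z)))))) (n 1490 z (n 0 (n 1666 z (n 1474 z (n 1682 z (n 1858 z (n
 1474 z (n 1474 z z)))))) (n 0 (n 1666 z (n 1474 z (n 1682 z (n 1474 z (n 1858 z (n 1474 z
 z)))))) (n 0 (n 1666 z (n 1474 z (n 1682 z (n 1474 z (n 1474 z (n 1858 z z)))))) z)))))) (n 0
 (n 1474 z (n 0 (n 1666 z (n 1858 z (n 1682 z (n 1474 z (n 1474 z (n 1474 z z)))))) (n 1490 z (n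
 0 (n 1666 z (n 1474 z (n 1682 z (n 1858 z (n 1474 z (n 1474 z z)))))) (n 0 (n 1666 z (n 1474 z
 (n 1682 z (n 1474 z (n 1858 z (n 1474 z z)))))) (n 0 (n 1666 z (n 1474 z (n 1682 z (n 1474 z (n
 1474 z (n 1858 z z)))))) z)))))) (n 411 z (n 0 (n 1474 z (n 0 (n 659 z (n 1858 z (n 1682 z (n
 1474 z (n 1474 z (n 1474 z z)))))) (n 1490 z (n 2450 z (n 0 (n 659 z (n 1474 z (n 1682 z (n
 1474 z (n 1858 z (n 1474 z z)))))) (n 0 (n 659 z (n 1474 z (n 1682 z (n 1474 z (n 1474 z (n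
 1858 z z)))))) z)))))) (n 0 (n 1474 z (n 0 (n 1666 z (n 1858 z (n 1682 z (n 1474 z (n 1474 z (n
 1474 z z)))))) (n 1490 z (n 0 (n 1666 z (n 1474 z (n 1682 z (n 1858 z (n 1474 z (n 1474 z
 z)))))) (n 4866 z (n 0 (n 1666 z (n 1474 z (n 1682 z (n 1474 z (n 1474 z (n 1858 z z))))))
 z)))))) (n 0 (n 1474 z (n 0 (n 1666 z (n 1858 z (n 1682 z (n 1474 z (n 1474 z (n 1474 z z))))))
 (n 1490 z (n 0 (n 1666 z (n 1474 z (n 1682 z (n 1858 z (n 1474 z (n 1474 z z)))))) (n 0 (n 1666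
 z (n 1474 z (n 1682 z (n 1474 z (n 1858 z (n 1474 z z)))))) (n 0 (n 1666 z (n 1474 z (n 1682 z
 (n 1474 z (n 1474 z (n 1858 z z)))))) z)))))) z)))))) (n 0 (n 59657 z (n 125193 z (n 6409 z (n
 411 z (n 39177 z (n 22793 z z)))))) (n 55561 z (n 0 (n 121097 z (n 14601 z (n 47369 z (n 112905
 z (n 30985 z (n 411 z z)))))) z)))))) z))))) (n 0 (n 27 z (n 63753 z (n 129289 z (n 1289 z (n 0
 (n 34057 z (n 17673 z (n 0 (n 0 (n 0 (n 1858 z (n 371 z (n 1682 z (n 1522 z (n 1522 z (n 1522 z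
 z)))))) (n 1474 z (n 1490 z (n 0 (n 1674 z (n 1666 z (n 1682 z (n 1858 z (n 1674 z (n 1674 z
 z)))))) (n 0 (n 1674 z (n 1666 z (n 1682 z (n 1674 z (n 1858 z (n 1674 z z)))))) (n 0 (n 1674 z
 (n 1666 z (n 1682 z (n 1674 z (n 1674 z (n 1858 z z)))))) z)))))) (n 0 (n 0 (n 1858 z (n 1666 z
 (n 1682 z (n 1522 z (n 1522 z (n 1522 z z)))))) (n 1474 z (n 1490 z (n 0 (n 1674 z (n 1666 z (n
 1682 z (n 1858 z (n 1674 z (n 1674 z z)))))) (n 0 (n 1674 z (n 1666 z (n 1682 z (n 1674 z (n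
 1858 z (n 1674 z z)))))) (n 0 (n 1674 z (n 1666 z (n 1682 z (n 1674 z (n 1674 z (n 1858 z
 z)))))) z)))))) (n 411 z (n 0 (n 0 (n 1858 z (n 659 z (n 1682 z (n 1522 z (n 1522 z (n 1522 z
 z)))))) (n 1474 z (n 1490 z (n 2450 z (n 0 (n 1674 z (n 659 z (n 1682 z (n 1674 z (n 1858 z (n
 1674 z z)))))) (n 0 (n 1674 z (n 659 z (n 1682 z (n 1674 z (n 1674 z (n 1858 z z)))))) z))))))
 (n 0 (n 0 (n 1858 z (n 1666 z (n 1682 z (n 1522 z (n 1522 z (n 1522 z z)))))) (n 1474 z (n 1490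
 z (n 0 (n 1674 z (n 1666 z (n 1682 z (n 1858 z (n 1674 z (n 1674 z z)))))) (n 4866 z (n 0 (n
 1674 z (n 1666 z (n 1682 z (n 1674 z (n 1674 z (n 1858 z z)))))) z)))))) (n 0 (n 0 (n 1858 z (n
 1666 z (n 1682 z (n 1522 z (n 1522 z (n 1522 z z)))))) (n 1474 z (n 1490 z (n 0 (n 1674 z (n
 1666 z (n 1682 z (n 1858 z (n 1674 z (n 1674 z z)))))) (n 0 (n 1674 z (n 1666 z (n 1682 z (n
 1674 z (n 1858 z (n 1674 z z)))))) (n 0 (n 1674 z (n 1666 z (n 1682 z (n 1674 z (n 1674 z (n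
 1858 z z)))))) z)))))) z)))))) (n 50441 z (n 115977 z (n 9481 z z)))))) z))))) (n 1442 z (n 0
 (n 27 z (n 42249 z (n 0 (n 58 z (n 107785 z (n 58 z (n 25865 z (n 58633 z z))))) (n 0 (n 124169
 z (n 5385 z (n 38153 z (n 21769 z (n 54537 z z))))) (n 0 (n 0 (n 411 z (n 120073 z (n 13577 z
 (n 46345 z (n 111881 z (n 29961 z z)))))) (n 62729 z (n 128265 z (n 0 (n 3337 z (n 36105 z (n
 19721 z (n 411 z (n 52489 z (n 118025 z z)))))) (n 0 (n 11529 z (n 44297 z (n 109833 z (n 27913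
 z (n 411 z (n 60681 z z)))))) (n 0 (n 126217 z (n 7433 z (n 40201 z (n 23817 z (n 56585 z (n
 411 z z)))))) z)))))) z))))) (n 0 (n 27 z (n 0 (n 10 z (n 10 z (n 122121 z (n 15625 z (n 48393
 z (n 113929 z z)))))) (n 0 (n 58 z (n 32009 z (n 58 z (n 64777 z (n 130313 z (n 777 z z))))))
 (n 0 (n 33545 z (n 17161 z (n 49929 z (n 115465 z (n 8969 z (n 41737 z z)))))) (n 0 (n 107273 z
 (n 25353 z (n 58121 z (n 0 (n 123657 z (n 4873 z (n 37641 z (n 411 z (n 21257 z (n 54025 z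
 z)))))) (n 119561 z (n 13065 z z)))))) (n 0 (n 0 (n 411 z (n 45833 z (n 111369 z (n 29449 z (n
 62217 z (n 127753 z z)))))) (n 2825 z (n 35593 z (n 0 (n 19209 z (n 51977 z (n 117513 z (n 411
 z (n 11017 z (n 43785 z z)))))) (n 0 (n 109321 z (n 27401 z (n 60169 z (n 125705 z (n 411 z (n
 6921 z z)))))) (n 0 (n 39689 z (n 23305 z (n 56073 z (n 121609 z (n 15113 z (n 411 z z))))))
 z)))))) z)))))) z))))) (n 0 (n 0 (n 27 z (n 47881 z (n 0 (n 58 z (n 113417 z (n 58 z (n 31497 z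
 (n 64265 z z))))) (n 194 z (n 0 (n 129801 z (n 1801 z (n 0 (n 194 z (n 194 z (n 0 (n 1474 z (n
 0 (n 1666 z (n 627 z (n 1682 z (n 1474 z (n 1474 z (n 1474 z z)))))) (n 1490 z (n 0 (n 1666 z
 (n 1474 z (n 1682 z (n 627 z (n 1474 z (n 1474 z z)))))) (n 0 (n 1666 z (n 1474 z (n 1682 z (n
 1474 z (n 627 z (n 1474 z z)))))) (n 0 (n 1666 z (n 1474 z (n 1682 z (n 1474 z (n 1474 z (n 627
 z z)))))) z)))))) (n 0 (n 691 z (n 0 (n 659 z (n 627 z (n 1682 z (n 2642 z (n 1474 z (n 1474 z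
 z)))))) (n 1490 z (n 2450 z (n 0 (n 659 z (n 1474 z (n 1682 z (n 2642 z (n 627 z (n 1474 z
 z)))))) (n 0 (n 659 z (n 1474 z (n 1682 z (n 2642 z (n 1474 z (n 627 z z)))))) z)))))) (n 0 (n
 1474 z (n 0 (n 1666 z (n 627 z (n 1682 z (n 1474 z (n 1474 z (n 1474 z z)))))) (n 1490 z (n 0
 (n 1666 z (n 1474 z (n 1682 z (n 627 z (n 1474 z (n 1474 z z)))))) (n 4866 z (n 0 (n 1666 z (n
 1474 z (n 1682 z (n 1474 z (n 1474 z (n 627 z z)))))) z)))))) (n 0 (n 1474 z (n 0 (n 1666 z (n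
 627 z (n 1682 z (n 1474 z (n 1474 z (n 1474 z z)))))) (n 1490 z (n 0 (n 1666 z (n 1474 z (n
 1682 z (n 627 z (n 1474 z (n 1474 z z)))))) (n 0 (n 1666 z (n 1474 z (n 1682 z (n 1474 z (n 627
 z (n 1474 z z)))))) (n 0 (n 1666 z (n 1474 z (n 1682 z (n 1474 z (n 1474 z (n 627 z z))))))
 z)))))) z)))))) (n 34569 z (n 18185 z (n 50953 z z)))))) z))))) (n 0 (n 27 z (n 116489 z (n 0
 (n 58 z (n 9993 z (n 58 z (n 42761 z (n 108297 z z))))) (n 194 z (n 0 (n 26377 z (n 59145 z (n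
 124681 z (n 5897 z (n 38665 z (n 22281 z z)))))) z))))) (n 1442 z (n 2402 z (n 0 (n 27 z (n
 55049 z (n 0 (n 58 z (n 120585 z (n 58 z (n 14089 z (n 46857 z (n 0 (n 112393 z (n 30473 z (n
 63241 z (n 128777 z (n 3849 z (n 36617 z z)))))) z)))))) (n 194 z (n 0 (n 20233 z (n 53001 z (n
 118537 z (n 12041 z (n 44809 z (n 110345 z z)))))) (n 0 (n 0 (n 28425 z (n 61193 z (n 126729 z
 (n 7945 z (n 40713 z (n 24329 z z)))))) (n 57097 z (n 122633 z (n 16137 z (n 48905 z (n 0 (n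
 194 z (n 194 z (n 194 z (n 194 z (n 194 z (n 4802 z z)))))) z)))))) z)))))) z))))) (n 0 (n 0 (n
 27 z (n 0 (n 10 z (n 10 z (n 0 (n 202 z (n 202 z (n 10 z (n 10 z (n 715 z (n 0 (n 707 z (n 0 (n
 1666 z (n 722 z (n 1682 z (n 1474 z (n 1474 z (n 1474 z z)))))) (n 1490 z (n 0 (n 1666 z (n 722
 z (n 1682 z (n 1858 z (n 1474 z (n 1474 z z)))))) (n 0 (n 1666 z (n 722 z (n 1682 z (n 1474 z
 (n 1858 z (n 1474 z z)))))) (n 0 (n 1666 z (n 722 z (n 1682 z (n 1474 z (n 1474 z (n 1858 z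
 z)))))) z)))))) z)))))) (n 114441 z (n 32521 z (n 65289 z z)))))) (n 0 (n 58 z (n 130825 z (n
 58 z (n 137 z (n 0 (n 32905 z (n 16521 z (n 49289 z (n 114825 z (n 8329 z (n 41097 z z)))))) (n
 0 (n 106633 z (n 24713 z (n 57481 z (n 123017 z (n 4233 z (n 37001 z z)))))) z)))))) (n 0 (n 0
 (n 250 z (n 0 (n 442 z (n 250 z (n 250 z (n 442 z (n 250 z (n 250 z z)))))) (n 102537 z (n 250
 z (n 20617 z (n 53385 z z)))))) (n 118921 z (n 0 (n 250 z (n 0 (n 1474 z (n 250 z (n 1490 z (n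
 442 z (n 0 (n 1666 z (n 1474 z (n 1682 z (n 1474 z (n 1858 z (n 1474 z z)))))) (n 0 (n 1666 z
 (n 1474 z (n 1682 z (n 1474 z (n 1474 z (n 1858 z z)))))) z)))))) (n 0 (n 1474 z (n 0 (n 1666 z
 (n 1858 z (n 1682 z (n 1474 z (n 1474 z (n 1474 z z)))))) (n 1490 z (n 442 z (n 0 (n 1666 z (n
 1474 z (n 1682 z (n 1474 z (n 1858 z (n 1474 z z)))))) (n 0 (n 1666 z (n 1474 z (n 1682 z (n
 1474 z (n 1474 z (n 1858 z z)))))) z)))))) (n 250 z (n 0 (n 691 z (n 0 (n 1666 z (n 1858 z (n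
 1682 z (n 1474 z (n 2642 z (n 1474 z z)))))) (n 1490 z (n 442 z (n 0 (n 1666 z (n 1474 z (n
 1682 z (n 1474 z (n 2642 z (n 1474 z z)))))) (n 0 (n 1666 z (n 1474 z (n 1682 z (n 1474 z (n
 2642 z (n 1858 z z)))))) z)))))) (n 0 (n 1474 z (n 0 (n 1666 z (n 1858 z (n 1682 z (n 1474 z (n
 1474 z (n 1474 z z)))))) (n 1490 z (n 442 z (n 0 (n 1666 z (n 1474 z (n 1682 z (n 1474 z (n
 1858 z (n 1474 z z)))))) (n 0 (n 1666 z (n 1474 z (n 1682 z (n 1474 z (n 1474 z (n 1858 z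
 z)))))) z)))))) z)))))) (n 12425 z (n 45193 z (n 110729 z z)))))) (n 0 (n 0 (n 28809 z (n 61577
 z (n 127113 z (n 2185 z (n 34953 z (n 100489 z z)))))) (n 0 (n 18569 z (n 1298 z (n 51337 z (n
 116873 z (n 10377 z (n 43145 z z)))))) (n 0 (n 0 (n 1474 z (n 0 (n 1666 z (n 1858 z (n 1682 z
 (n 1474 z (n 1474 z (n 1474 z z)))))) (n 1490 z (n 0 (n 1666 z (n 1474 z (n 1682 z (n 1858 z (n
 1474 z (n 1474 z z)))))) (n 0 (n 1666 z (n 1474 z (n 1682 z (n 835 z (n 1858 z (n 1474 z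
 z)))))) (n 0 (n 1666 z (n 1474 z (n 1682 z (n 1474 z (n 1474 z (n 1858 z z)))))) z)))))) (n 0
 (n 1474 z (n 0 (n 787 z (n 1858 z (n 1682 z (n 1474 z (n 1474 z (n 1474 z z)))))) (n 1490 z (n
 0 (n 787 z (n 1474 z (n 1682 z (n 1858 z (n 1474 z (n 1474 z z)))))) (n 0 (n 787 z (n 1474 z (n
 1682 z (n 1474 z (n 1858 z (n 1474 z z)))))) (n 0 (n 787 z (n 1474 z (n 1682 z (n 1474 z (n
 1474 z (n 1858 z z)))))) z)))))) (n 0 (n 1474 z (n 0 (n 1666 z (n 1858 z (n 1682 z (n 1474 z (n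
 1474 z (n 1474 z z)))))) (n 1490 z (n 0 (n 1666 z (n 1474 z (n 1682 z (n 1858 z (n 1474 z (n
 1474 z z)))))) (n 0 (n 1666 z (n 1474 z (n 1682 z (n 1474 z (n 1858 z (n 1474 z z)))))) (n 0 (n
 1666 z (n 1474 z (n 1682 z (n 1474 z (n 1474 z (n 1858 z z)))))) z)))))) (n 0 (n 1474 z (n 0 (n
 659 z (n 1858 z (n 1682 z (n 1474 z (n 1474 z (n 1474 z z)))))) (n 1490 z (n 2450 z (n 0 (n 659
 z (n 1474 z (n 1682 z (n 1474 z (n 1858 z (n 1474 z z)))))) (n 0 (n 659 z (n 1474 z (n 1682 z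
 (n 1474 z (n 1474 z (n 1858 z z)))))) z)))))) (n 0 (n 691 z (n 0 (n 1666 z (n 1858 z (n 1682 z
 (n 1474 z (n 2642 z (n 1474 z z)))))) (n 1490 z (n 0 (n 1666 z (n 1474 z (n 1682 z (n 1858 z (n
 2642 z (n 1474 z z)))))) (n 4866 z (n 0 (n 1666 z (n 1474 z (n 1682 z (n 1474 z (n 2642 z (n
 1858 z z)))))) z)))))) (n 0 (n 1474 z (n 0 (n 1666 z (n 1858 z (n 1682 z (n 1474 z (n 1474 z (n
 1474 z z)))))) (n 1490 z (n 0 (n 1666 z (n 1474 z (n 1682 z (n 1858 z (n 1474 z (n 1474 z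
 z)))))) (n 0 (n 1666 z (n 1474 z (n 1682 z (n 1474 z (n 1858 z (n 1474 z z)))))) (n 0 (n 1666 z
 (n 1474 z (n 1682 z (n 1474 z (n 1474 z (n 1858 z z)))))) z)))))) z)))))) (n 0 (n 108681 z (n
 26761 z (n 59529 z (n 125065 z (n 6281 z (n 39049 z z)))))) (n 104585 z (n 0 (n 22665 z (n
 55433 z (n 120969 z (n 14473 z (n 47241 z (n 112777 z z)))))) z)))))) (n 0 (n 0 (n 30857 z (n
 63625 z (n 129161 z (n 1161 z (n 33929 z (n 99465 z z)))))) (n 0 (n 17545 z (n 1298 z (n 50313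
 z (n 115849 z (n 9353 z (n 42121 z z)))))) (n 0 (n 0 (n 1474 z (n 0 (n 1666 z (n 1858 z (n 1682
 z (n 1474 z (n 1474 z (n 1474 z z)))))) (n 1490 z (n 0 (n 1666 z (n 1474 z (n 1682 z (n 1858 z
 (n 1474 z (n 1474 z z)))))) (n 0 (n 1666 z (n 1474 z (n 1682 z (n 835 z (n 1858 z (n 1474 z
 z)))))) (n 0 (n 1666 z (n 1474 z (n 1682 z (n 1474 z (n 1474 z (n 1858 z z)))))) z)))))) (n 0
 (n 1474 z (n 0 (n 1666 z (n 1858 z (n 1682 z (n 1474 z (n 1474 z (n 1474 z z)))))) (n 1490 z (n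
 0 (n 1666 z (n 1474 z (n 1682 z (n 1858 z (n 1474 z (n 1474 z z)))))) (n 0 (n 1666 z (n 1474 z
 (n 1682 z (n 1474 z (n 1858 z (n 1474 z z)))))) (n 0 (n 1666 z (n 1474 z (n 1682 z (n 1474 z (n
 1474 z (n 1858 z z)))))) z)))))) (n 0 (n 1474 z (n 0 (n 1666 z (n 1858 z (n 1682 z (n 1474 z (n
 1474 z (n 1474 z z)))))) (n 1490 z (n 0 (n 1666 z (n 1474 z (n 1682 z (n 1858 z (n 1474 z (n
 1474 z z)))))) (n 0 (n 1666 z (n 1474 z (n 1682 z (n 1474 z (n 1858 z (n 1474 z z)))))) (n 0 (n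
 1666 z (n 1474 z (n 1682 z (n 1474 z (n 1474 z (n 1858 z z)))))) z)))))) (n 0 (n 1474 z (n 0 (n
 659 z (n 1858 z (n 1682 z (n 1474 z (n 1474 z (n 1474 z z)))))) (n 1490 z (n 2450 z (n 0 (n 659
 z (n 1474 z (n 1682 z (n 1474 z (n 1858 z (n 1474 z z)))))) (n 0 (n 659 z (n 1474 z (n 1682 z
 (n 1474 z (n 1474 z (n 1858 z z)))))) z)))))) (n 0 (n 691 z (n 0 (n 1666 z (n 1858 z (n 1682 z
 (n 1474 z (n 2642 z (n 1474 z z)))))) (n 1490 z (n 0 (n 1666 z (n 1474 z (n 1682 z (n 1858 z (n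
 2642 z (n 1474 z z)))))) (n 0 (n 1666 z (n 1474 z (n 1682 z (n 1474 z (n 2642 z (n 1474 z
 z)))))) (n 0 (n 1666 z (n 1474 z (n 1682 z (n 1474 z (n 2642 z (n 1858 z z)))))) z)))))) (n 0
 (n 1474 z (n 0 (n 1666 z (n 1858 z (n 1682 z (n 1474 z (n 1474 z (n 1474 z z)))))) (n 1490 z (n
 0 (n 1666 z (n 1474 z (n 1682 z (n 1858 z (n 1474 z (n 1474 z z)))))) (n 0 (n 1666 z (n 1474 z
 (n 1682 z (n 1474 z (n 1858 z (n 1474 z z)))))) (n 4866 z z)))))) z)))))) (n 0 (n 107657 z (n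
 25737 z (n 58505 z (n 124041 z (n 5257 z (n 38025 z z)))))) (n 0 (n 103561 z (n 21641 z (n
 54409 z (n 119945 z (n 13449 z (n 46217 z z)))))) (n 0 (n 111753 z (n 29833 z (n 62601 z (n
 128137 z (n 3209 z (n 4802 z z)))))) z)))))) z)))))) (n 0 (n 27 z (n 0 (n 10 z (n 10 z (n 35977
 z (n 101513 z (n 19593 z (n 52361 z z)))))) (n 0 (n 58 z (n 117897 z (n 58 z (n 11401 z (n
 44169 z (n 109705 z z)))))) (n 0 (n 27785 z (n 60553 z (n 126089 z (n 7305 z (n 40073 z (n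
 105609 z z)))))) (n 0 (n 0 (n 23689 z (n 56457 z (n 121993 z (n 15497 z (n 48265 z (n 113801 z
 z)))))) (n 31881 z (n 64649 z (n 0 (n 130185 z (n 649 z (n 33417 z (n 17033 z (n 49801 z (n
 115337 z z)))))) (n 8841 z (n 0 (n 41609 z (n 107145 z (n 25225 z (n 57993 z (n 123529 z (n
 4745 z z)))))) z)))))) (n 0 (n 0 (n 37513 z (n 103049 z (n 21129 z (n 53897 z (n 119433 z (n
 12937 z z)))))) (n 0 (n 45705 z (n 1298 z (n 111241 z (n 29321 z (n 62089 z (n 127625 z z))))))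
 (n 2697 z (n 0 (n 35465 z (n 19081 z (n 51849 z (n 117385 z (n 10889 z (n 43657 z z)))))) (n 0
 (n 109193 z (n 27273 z (n 60041 z (n 125577 z (n 6793 z (n 39561 z z)))))) (n 105097 z z))))))
 z)))))) (n 1442 z (n 0 (n 27 z (n 0 (n 10 z (n 10 z (n 23177 z (n 55945 z (n 121481 z (n 14985
 z z)))))) (n 0 (n 58 z (n 47753 z (n 58 z (n 113289 z (n 31369 z (n 64137 z z)))))) (n 0 (n
 129673 z (n 1673 z (n 34441 z (n 18057 z (n 50825 z (n 116361 z z)))))) (n 0 (n 9865 z (n 42633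
 z (n 108169 z (n 26249 z (n 59017 z (n 0 (n 124553 z (n 5769 z (n 38537 z (n 104073 z (n 22153
 z (n 54921 z z)))))) z)))))) (n 0 (n 0 (n 120457 z (n 13961 z (n 46729 z (n 112265 z (n 30345 z
 (n 63113 z z)))))) (n 128649 z (n 3721 z (n 0 (n 36489 z (n 102025 z (n 20105 z (n 52873 z (n
 118409 z (n 11913 z z)))))) (n 0 (n 44681 z (n 110217 z (n 28297 z (n 61065 z (n 126601 z (n
 7817 z z)))))) (n 0 (n 40585 z (n 106121 z (n 24201 z (n 56969 z (n 122505 z (n 4802 z z))))))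
 z)))))) z)))))) (n 0 (n 27 z (n 16009 z (n 0 (n 58 z (n 48777 z (n 58 z (n 114313 z (n 32393 z
 (n 65161 z z)))))) (n 0 (n 130697 z (n 393 z (n 33161 z (n 16777 z (n 49545 z (n 115081 z
 z)))))) (n 0 (n 8585 z (n 41353 z (n 24969 z (n 57737 z (n 123273 z (n 4489 z z)))))) (n 0 (n 0
 (n 37257 z (n 20873 z (n 53641 z (n 119177 z (n 12681 z (n 45449 z z)))))) (n 29065 z (n 61833
 z (n 127369 z (n 2441 z (n 0 (n 35209 z (n 18825 z (n 51593 z (n 117129 z (n 10633 z (n 4802 z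
 z)))))) z)))))) z)))))) (n 0 (n 27 z (n 0 (n 10 z (n 10 z (n 43401 z (n 27017 z (n 59785 z (n
 125321 z z)))))) (n 0 (n 58 z (n 6537 z (n 58 z (n 39305 z (n 22921 z (n 55689 z z)))))) (n 0
 (n 121225 z (n 14729 z (n 47497 z (n 31113 z (n 63881 z (n 129417 z z)))))) (n 0 (n 0 (n 1417 z
 (n 34185 z (n 17801 z (n 50569 z (n 116105 z (n 9609 z z)))))) (n 42377 z (n 25993 z (n 0 (n
 58761 z (n 124297 z (n 5513 z (n 38281 z (n 21897 z (n 54665 z z)))))) (n 0 (n 120201 z (n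
 13705 z (n 46473 z (n 30089 z (n 4802 z (n 62857 z z)))))) (n 0 (n 128393 z (n 3465 z (n 36233
 z (n 19849 z (n 52617 z (n 118153 z z)))))) z)))))) (n 0 (n 11657 z (n 44425 z (n 28041 z (n 0
 (n 60809 z (n 126345 z (n 7561 z (n 40329 z (n 23945 z (n 56713 z z)))))) (n 0 (n 122249 z (n
 15753 z (n 48521 z (n 114057 z (n 32137 z (n 64905 z z)))))) (n 130441 z z)))))) z))))))
 z)))))) z))))) (n 0 (n 194 z (n 194 z (n 0 (n 1196036 z (n 803 z (n 0 (n 27 z (n 905 z (n 33673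
 z (n 99209 z (n 0 (n 17289 z (n 50057 z (n 115593 z (n 9097 z (n 41865 z (n 107401 z z))))))
 z))))) (n 194 z (n 0 (n 27 z (n 25481 z (n 0 (n 58 z (n 58 z (n 58 z (n 58249 z (n 123785 z (n
 5001 z z)))))) (n 194 z (n 0 (n 0 (n 37769 z (n 103305 z (n 21385 z (n 54153 z (n 119689 z (n
 13193 z z)))))) (n 45961 z (n 111497 z (n 29577 z (n 62345 z (n 127881 z z)))))) (n 0 (n 0 (n
 2953 z (n 35721 z (n 101257 z (n 19337 z (n 52105 z (n 117641 z z)))))) (n 11145 z (n 43913 z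
 (n 109449 z (n 27529 z (n 0 (n 194 z (n 194 z (n 194 z (n 194 z (n 194 z (n 4802 z z))))))
 z)))))) z)))))) z))))) (n 194 z (n 0 (n 0 (n 27 z (n 0 (n 10 z (n 10 z (n 10 z (n 60297 z (n
 125833 z (n 7049 z z)))))) (n 0 (n 58 z (n 58 z (n 58 z (n 39817 z (n 0 (n 105353 z (n 23433 z
 (n 56201 z (n 121737 z (n 15241 z (n 48009 z z)))))) (n 0 (n 113545 z (n 31625 z (n 97161 z (n
 64393 z (n 129929 z (n 1929 z z)))))) z)))))) (n 0 (n 34697 z (n 100233 z (n 18313 z (n 51081 z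
 (n 116617 z (n 10121 z z)))))) (n 0 (n 0 (n 42889 z (n 108425 z (n 26505 z (n 59273 z (n 124809
 z (n 6025 z z)))))) (n 0 (n 38793 z (n 1298 z (n 104329 z (n 22409 z (n 55177 z (n 120713 z
 z)))))) (n 0 (n 14217 z (n 46985 z (n 112521 z (n 30601 z (n 96137 z (n 63369 z z)))))) (n 0 (n
 128905 z (n 3977 z (n 36745 z (n 102281 z (n 20361 z (n 53129 z z)))))) (n 118665 z (n 0 (n
 12169 z (n 44937 z (n 110473 z (n 28553 z (n 61321 z (n 126857 z z)))))) z)))))) (n 0 (n 0 (n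
 8073 z (n 40841 z (n 106377 z (n 24457 z (n 57225 z (n 122761 z z)))))) (n 0 (n 16265 z (n 1298
 z (n 49033 z (n 114569 z (n 32649 z (n 98185 z z)))))) (n 0 (n 65417 z (n 130953 z (n 73 z (n
 16457 z (n 8265 z (n 24649 z z)))))) (n 0 (n 4169 z (n 20553 z (n 12361 z (n 28745 z (n 61513 z
 (n 2121 z z)))))) (n 0 (n 18505 z (n 10313 z (n 26697 z (n 59465 z (n 6217 z (n 22601 z z))))))
 (n 0 (n 14409 z (n 30793 z (n 63561 z (n 1097 z (n 17481 z (n 4802 z z)))))) z)))))) z)))))) (n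
 0 (n 27 z (n 9289 z (n 25673 z (n 5193 z (n 0 (n 21577 z (n 13385 z (n 29769 z (n 62537 z (n
 3145 z (n 19529 z z)))))) (n 0 (n 0 (n 11337 z (n 27721 z (n 60489 z (n 7241 z (n 23625 z (n
 15433 z z)))))) (n 31817 z (n 64585 z (n 585 z (n 16969 z (n 8777 z z)))))) z)))))) (n 0 (n 27
 z (n 25161 z (n 0 (n 58 z (n 58 z (n 58 z (n 4681 z (n 21065 z (n 12873 z z)))))) (n 0 (n 29257
 z (n 62025 z (n 2633 z (n 19017 z (n 10825 z (n 27209 z z)))))) (n 0 (n 0 (n 59977 z (n 6729 z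
 (n 23113 z (n 14921 z (n 31305 z (n 64073 z z)))))) (n 1609 z (n 0 (n 17993 z (n 9801 z (n
 26185 z (n 58953 z (n 5705 z (n 22089 z z)))))) (n 13897 z (n 30281 z (n 0 (n 63049 z (n 3657 z
 (n 20041 z (n 11849 z (n 28233 z (n 61001 z z)))))) z)))))) (n 0 (n 0 (n 7753 z (n 24137 z (n
 15945 z (n 32329 z (n 65097 z (n 329 z z)))))) (n 16713 z (n 0 (n 49481 z (n 8521 z (n 24905 z
 (n 57673 z (n 4425 z (n 20809 z z)))))) (n 53577 z (n 0 (n 12617 z (n 45385 z (n 29001 z (n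
 61769 z (n 2377 z (n 18761 z z)))))) (n 0 (n 51529 z (n 10569 z (n 43337 z (n 26953 z (n 59721
 z (n 4802 z z)))))) z)))))) z)))))) (n 0 (n 27 z (n 6473 z (n 22857 z (n 55625 z (n 0 (n 14665
 z (n 47433 z (n 31049 z (n 63817 z (n 1353 z (n 17737 z z)))))) (n 0 (n 50505 z (n 9545 z (n
 25929 z (n 58697 z (n 5449 z (n 21833 z z)))))) z)))))) (n 0 (n 27 z (n 54601 z (n 13641 z (n
 46409 z (n 0 (n 30025 z (n 62793 z (n 3401 z (n 19785 z (n 52553 z (n 11593 z z)))))) (n 0 (n 0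
 (n 44361 z (n 27977 z (n 60745 z (n 7497 z (n 23881 z (n 56649 z z)))))) (n 15689 z (n 48457 z
 (n 32073 z (n 64841 z (n 841 z z)))))) z)))))) (n 0 (n 27 z (n 33609 z (n 0 (n 58 z (n 58 z (n
 58 z (n 17225 z (n 49993 z (n 115529 z z)))))) (n 9033 z (n 0 (n 0 (n 41801 z (n 25417 z (n
 58185 z (n 123721 z (n 4937 z (n 37705 z z)))))) (n 0 (n 21321 z (n 1298 z (n 54089 z (n 119625
 z (n 13129 z (n 45897 z z)))))) (n 0 (n 111433 z (n 29513 z (n 62281 z (n 127817 z (n 2889 z (n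
 35657 z z)))))) (n 0 (n 19273 z (n 52041 z (n 117577 z (n 11081 z (n 43849 z (n 27465 z z))))))
 (n 60233 z (n 0 (n 125769 z (n 6985 z (n 39753 z (n 23369 z (n 56137 z (n 121673 z z))))))
 z)))))) (n 0 (n 0 (n 15177 z (n 47945 z (n 113481 z (n 31561 z (n 64329 z (n 129865 z z))))))
 (n 0 (n 1865 z (n 1298 z (n 34633 z (n 18249 z (n 51017 z (n 116553 z z)))))) (n 0 (n 10057 z
 (n 42825 z (n 26441 z (n 59209 z (n 124745 z (n 5961 z z)))))) (n 0 (n 38729 z (n 22345 z (n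
 55113 z (n 120649 z (n 14153 z (n 46921 z z)))))) (n 0 (n 112457 z (n 30537 z (n 63305 z (n
 128841 z (n 3913 z (n 36681 z z)))))) (n 20297 z z)))))) z)))))) z)))))) z))))) (n 0 (n 194 z
 (n 194 z (n 194 z (n 194 z (n 0 (n 0 (n 27 z (n 53065 z (n 0 (n 58 z (n 58 z (n 58 z (n 58 z (n
 118601 z (n 12105 z z)))))) (n 194 z (n 0 (n 44873 z (n 110409 z (n 28489 z (n 61257 z (n
 126793 z (n 0 (n 194 z (n 194 z (n 194 z (n 194 z (n 194 z (n 411 z z)))))) z)))))) (n 0 (n 0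
 (n 411 z (n 8009 z (n 40777 z (n 24393 z (n 57161 z (n 122697 z z)))))) (n 16201 z (n 48969 z
 (n 114505 z (n 32585 z (n 0 (n 194 z (n 194 z (n 194 z (n 194 z (n 194 z (n 411 z z))))))
 z)))))) z)))))) (n 0 (n 27 z (n 65353 z (n 130889 z (n 194 z (n 0 (n 201 z (n 32969 z (n 16585
 z (n 49353 z (n 8393 z (n 0 (n 194 z (n 194 z (n 194 z (n 194 z (n 194 z (n 411 z z))))))
 z)))))) (n 0 (n 41161 z (n 24777 z (n 57545 z (n 4297 z (n 37065 z (n 0 (n 194 z (n 194 z (n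
 194 z (n 194 z (n 194 z (n 411 z z)))))) z)))))) z)))))) (n 0 (n 27 z (n 20681 z (n 0 (n 58 z
 (n 58 z (n 58 z (n 58 z (n 53449 z (n 12489 z z)))))) (n 45257 z (n 0 (n 28873 z (n 61641 z (n
 2249 z (n 35017 z (n 18633 z (n 51401 z z)))))) (n 0 (n 10441 z (n 43209 z (n 26825 z (n 59593
 z (n 6345 z (n 39113 z z)))))) z)))))) (n 194 z (n 1204228 z (n 0 (n 27 z (n 22729 z (n 55497 z
 (n 194 z (n 0 (n 14537 z (n 47305 z (n 30921 z (n 63689 z (n 129225 z (n 0 (n 194 z (n 194 z (n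
 194 z (n 194 z (n 194 z (n 411 z z)))))) z)))))) (n 0 (n 1225 z (n 33993 z (n 17609 z (n 50377
 z (n 9417 z (n 0 (n 194 z (n 194 z (n 194 z (n 194 z (n 194 z (n 411 z z)))))) z)))))) z))))))
 z)))))) (n 0 (n 0 (n 27 z (n 42185 z (n 25801 z (n 194 z (n 0 (n 0 (n 58569 z (n 5321 z (n
 38089 z (n 21705 z (n 54473 z (n 13513 z z)))))) (n 46281 z (n 0 (n 29897 z (n 62665 z (n
 128201 z (n 3273 z (n 36041 z (n 19657 z z)))))) (n 0 (n 52425 z (n 11465 z (n 44233 z (n 27849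
 z (n 60617 z (n 7369 z z)))))) (n 0 (n 40137 z (n 23753 z (n 56521 z (n 15561 z (n 4802 z (n
 48329 z z)))))) (n 0 (n 31945 z (n 64713 z (n 130249 z (n 713 z (n 33481 z (n 17097 z z))))))
 z)))))) (n 194 z z)))))) (n 0 (n 27 z (n 49865 z (n 115401 z (n 194 z (n 0 (n 0 (n 8905 z (n
 41673 z (n 107209 z (n 25289 z (n 58057 z (n 123593 z z)))))) (n 4809 z (n 37577 z (n 0 (n
 21193 z (n 53961 z (n 119497 z (n 13001 z (n 45769 z (n 111305 z z)))))) (n 29385 z (n 0 (n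
 62153 z (n 127689 z (n 2761 z (n 35529 z (n 19145 z (n 51913 z z)))))) z)))))) (n 194 z z))))))
 (n 0 (n 27 z (n 117449 z (n 10953 z (n 43721 z (n 0 (n 0 (n 109257 z (n 27337 z (n 60105 z (n
 125641 z (n 6857 z (n 39625 z z)))))) (n 105161 z (n 0 (n 23241 z (n 56009 z (n 121545 z (n
 15049 z (n 47817 z (n 113353 z z)))))) (n 0 (n 31433 z (n 64201 z (n 129737 z (n 1737 z (n
 34505 z (n 18121 z z)))))) (n 50889 z (n 0 (n 116425 z (n 9929 z (n 42697 z (n 108233 z (n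
 26313 z (n 59081 z z)))))) z)))))) (n 0 (n 0 (n 124617 z (n 5833 z (n 38601 z (n 22217 z (n
 54985 z (n 120521 z z)))))) (n 14025 z (n 0 (n 46793 z (n 112329 z (n 30409 z (n 63177 z (n
 128713 z (n 3785 z z)))))) (n 0 (n 36553 z (n 20169 z (n 52937 z (n 118473 z (n 11977 z (n
 44745 z z)))))) (n 110281 z (n 28361 z z)))))) z)))))) (n 194 z (n 0 (n 27 z (n 0 (n 10 z (n 10
 z (n 10 z (n 10 z (n 0 (n 202 z (n 202 z (n 202 z (n 202 z (n 10 z (n 715 z z)))))) (n 0 (n 202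
 z (n 202 z (n 202 z (n 202 z (n 0 (n 10 z (n 10 z (n 10 z (n 10 z (n 0 (n 1753116 z (n 819 z (n
 1642020 z (n 202 z (n 3602 z (n 1479284 z z)))))) (n 443 z z)))))) (n 10 z z)))))) z)))))) (n
 61129 z (n 0 (n 0 (n 250 z (n 250 z (n 250 z (n 250 z (n 0 (n 443 z (n 442 z (n 442 z (n 442 z
 (n 250 z (n 250 z z)))))) (n 0 (n 443 z (n 442 z (n 442 z (n 442 z (n 250 z (n 250 z z))))))
 z)))))) (n 0 (n 250 z (n 1298 z (n 250 z (n 250 z (n 0 (n 442 z (n 443 z (n 442 z (n 442 z (n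
 250 z (n 250 z z)))))) (n 0 (n 442 z (n 443 z (n 442 z (n 442 z (n 250 z (n 250 z z))))))
 z)))))) (n 0 (n 250 z (n 250 z (n 250 z (n 250 z (n 0 (n 442 z (n 442 z (n 443 z (n 442 z (n
 250 z (n 250 z z)))))) (n 0 (n 442 z (n 442 z (n 443 z (n 442 z (n 250 z (n 250 z z))))))
 z)))))) (n 0 (n 250 z (n 250 z (n 250 z (n 4802 z (n 0 (n 442 z (n 442 z (n 442 z (n 443 z (n
 250 z (n 250 z z)))))) (n 0 (n 442 z (n 442 z (n 442 z (n 443 z (n 250 z (n 250 z z))))))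
 z)))))) (n 0 (n 250 z (n 250 z (n 250 z (n 250 z (n 0 (n 442 z (n 442 z (n 442 z (n 442 z (n
 443 z (n 250 z z)))))) (n 0 (n 442 z (n 442 z (n 442 z (n 442 z (n 443 z (n 250 z z))))))
 z)))))) (n 0 (n 250 z (n 250 z (n 250 z (n 250 z (n 0 (n 442 z (n 442 z (n 442 z (n 442 z (n
 250 z (n 443 z z)))))) (n 0 (n 442 z (n 442 z (n 442 z (n 442 z (n 250 z (n 443 z z))))))
 z)))))) z)))))) (n 0 (n 126665 z (n 7881 z (n 40649 z (n 106185 z (n 24265 z (n 57033 z z))))))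
 (n 0 (n 122569 z (n 16073 z (n 48841 z (n 0 (n 114377 z (n 32457 z (n 65225 z (n 130761 z (n
 457 z (n 33225 z z)))))) (n 16841 z (n 49609 z z)))))) z)))))) (n 194 z z)))))) z)))))) z)))))
 (n 50 z (n 194 z (n 0 (n 0 (n 0 (n 363 z (n 0 (n 27 z (n 10 z (n 10 z (n 10 z (n 0 (n 1090 z (n
 115145 z (n 8649 z (n 41417 z (n 25033 z (n 0 (n 2050 z (n 194 z (n 194 z (n 194 z (n 194 z (n
 411 z z)))))) z)))))) (n 0 (n 57801 z (n 123337 z (n 4553 z (n 37321 z (n 20937 z (n 0 (n 194 z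
 (n 194 z (n 194 z (n 194 z (n 194 z (n 411 z z)))))) z)))))) z)))))) (n 0 (n 27 z (n 10 z (n 10
 z (n 10 z (n 0 (n 1090 z (n 53705 z (n 119241 z (n 12745 z (n 45513 z (n 29129 z z)))))) (n 0
 (n 61897 z (n 127433 z (n 2505 z (n 35273 z (n 18889 z (n 51657 z z)))))) z)))))) (n 194 z (n 0
 (n 27 z (n 10 z (n 10 z (n 10 z (n 0 (n 1090 z (n 117193 z (n 10697 z (n 43465 z (n 27081 z (n
 0 (n 2050 z (n 194 z (n 194 z (n 194 z (n 194 z (n 411 z z)))))) z)))))) (n 0 (n 59849 z (n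
 125385 z (n 6601 z (n 39369 z (n 22985 z (n 0 (n 194 z (n 194 z (n 194 z (n 194 z (n 194 z (n
 411 z z)))))) z)))))) z)))))) (n 0 (n 27 z (n 10 z (n 10 z (n 10 z (n 0 (n 1090 z (n 55753 z (n
 121289 z (n 14793 z (n 47561 z (n 0 (n 2050 z (n 194 z (n 194 z (n 194 z (n 194 z (n 411 z
 z)))))) z)))))) (n 0 (n 31177 z (n 63945 z (n 129481 z (n 1481 z (n 34249 z (n 0 (n 194 z (n
 194 z (n 194 z (n 194 z (n 194 z (n 411 z z)))))) z)))))) z)))))) z)))))) (n 0 (n 50 z (n 0 (n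
 27 z (n 10 z (n 10 z (n 10 z (n 0 (n 1090 z (n 17865 z (n 50633 z (n 116169 z (n 9673 z (n
 42441 z z)))))) (n 0 (n 26057 z (n 58825 z (n 0 (n 124361 z (n 0 (n 0 (n 2578 z (n 2642 z (n
 2770 z (n 2242 z (n 2242 z (n 2242 z z)))))) (n 539 z (n 1490 z (n 0 (n 2578 z (n 2642 z (n
 2770 z (n 2242 z (n 2242 z (n 2242 z z)))))) (n 0 (n 2578 z (n 2642 z (n 2770 z (n 2242 z (n
 2242 z (n 2242 z z)))))) (n 0 (n 2578 z (n 2642 z (n 2770 z (n 2242 z (n 2242 z (n 2242 z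
 z)))))) z)))))) (n 5577 z (n 38345 z (n 21961 z (n 54729 z z)))))) (n 0 (n 120265 z (n 0 (n 0
 (n 2578 z (n 2642 z (n 2242 z (n 2770 z (n 2242 z (n 2242 z z)))))) (n 539 z (n 0 (n 499 z (n
 2642 z (n 2242 z (n 2770 z (n 2242 z (n 2242 z z)))))) (n 0 (n 2578 z (n 2642 z (n 2242 z (n
 2770 z (n 2242 z (n 2242 z z)))))) (n 0 (n 2578 z (n 2642 z (n 2242 z (n 2770 z (n 2242 z (n
 2242 z z)))))) (n 0 (n 2578 z (n 2642 z (n 2242 z (n 2770 z (n 2242 z (n 2242 z z)))))) z))))))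
 (n 13769 z (n 46537 z (n 30153 z (n 62921 z z)))))) (n 128457 z (n 3529 z z)))))) z)))))) (n 0
 (n 27 z (n 10 z (n 10 z (n 10 z (n 36297 z (n 0 (n 19913 z (n 52681 z (n 50 z (n 118217 z (n
 11721 z (n 44489 z z)))))) z)))))) (n 0 (n 27 z (n 10 z (n 10 z (n 10 z (n 0 (n 1090 z (n 28105
 z (n 60873 z (n 126409 z (n 7625 z (n 40393 z z)))))) (n 0 (n 24009 z (n 0 (n 56777 z (n 1298 z
 (n 122313 z (n 15817 z (n 48585 z (n 32201 z z)))))) (n 64969 z (n 130505 z (n 969 z (n 17353 z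
 z)))))) z)))))) (n 0 (n 27 z (n 10 z (n 10 z (n 10 z (n 0 (n 1090 z (n 50121 z (n 9161 z (n
 41929 z (n 25545 z (n 58313 z z)))))) (n 0 (n 5065 z (n 21449 z (n 54217 z (n 13257 z (n 46025
 z (n 29641 z z)))))) z)))))) (n 0 (n 27 z (n 10 z (n 10 z (n 10 z (n 0 (n 1090 z (n 62409 z (n
 3017 z (n 19401 z (n 52169 z (n 11209 z z)))))) (n 0 (n 43977 z (n 0 (n 27593 z (n 1298 z (n
 60361 z (n 7113 z (n 39881 z (n 23497 z z)))))) (n 56265 z (n 0 (n 15305 z (n 0 (n 0 (n 2578 z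
 (n 2642 z (n 2242 z (n 2770 z (n 2242 z (n 2242 z z)))))) (n 0 (n 2578 z (n 2642 z (n 2242 z (n
 2770 z (n 2242 z (n 2242 z z)))))) (n 0 (n 499 z (n 2642 z (n 2242 z (n 2770 z (n 2242 z (n
 2242 z z)))))) (n 0 (n 2578 z (n 2642 z (n 2242 z (n 2770 z (n 2242 z (n 2242 z z)))))) (n 0 (n
 795 z (n 2642 z (n 2242 z (n 2770 z (n 2242 z (n 2242 z z)))))) (n 0 (n 2578 z (n 2642 z (n
 2242 z (n 2770 z (n 2242 z (n 3602 z z)))))) z)))))) (n 48073 z (n 31689 z (n 64457 z (n 1993 z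
 z)))))) (n 18377 z (n 51145 z z)))))) z)))))) z)))))) (n 0 (n 50 z (n 0 (n 27 z (n 10 z (n 10 z
 (n 10 z (n 0 (n 1090 z (n 10185 z (n 50 z (n 42953 z (n 26569 z (n 59337 z z)))))) (n 0 (n 6089
 z (n 22473 z (n 50 z (n 55241 z (n 14281 z (n 47049 z z)))))) z)))))) (n 50 z (n 0 (n 27 z (n
 10 z (n 10 z (n 10 z (n 0 (n 1090 z (n 30665 z (n 63433 z (n 4041 z (n 20425 z (n 53193 z
 z)))))) (n 0 (n 12233 z (n 45001 z (n 28617 z (n 61385 z (n 0 (n 8137 z (n 40905 z (n 24521 z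
 (n 57289 z (n 16329 z (n 49097 z z)))))) (n 32713 z z)))))) z)))))) (n 0 (n 27 z (n 10 z (n 10
 z (n 10 z (n 0 (n 1090 z (n 65481 z (n 41 z (n 16425 z (n 8233 z (n 0 (n 24617 z (n 4137 z (n
 20521 z (n 12329 z (n 28713 z (n 61481 z z)))))) z)))))) (n 0 (n 0 (n 10 z (n 10 z (n 0 (n 58 z
 (n 10 z (n 58 z (n 10 z (n 691 z (n 0 (n 1682 z (n 1090 z (n 2642 z (n 1098 z (n 1570 z (n 1762
 z z)))))) z)))))) (n 0 (n 58 z (n 58 z (n 58 z (n 2450 z (n 0 (n 1682 z (n 1090 z (n 1098 z (n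
 1098 z (n 3602 z (n 1762 z z)))))) (n 0 (n 1682 z (n 1090 z (n 1098 z (n 1098 z (n 1570 z (n
 1762 z z)))))) z)))))) (n 0 (n 58 z (n 0 (n 1682 z (n 1090 z (n 1098 z (n 1098 z (n 1570 z (n
 1762 z z)))))) (n 58 z (n 0 (n 1682 z (n 1090 z (n 1098 z (n 1098 z (n 1570 z (n 1762 z z))))))
 (n 0 (n 1682 z (n 1090 z (n 1098 z (n 1098 z (n 3602 z (n 1762 z z)))))) (n 0 (n 1682 z (n 1090
 z (n 1098 z (n 1098 z (n 1570 z (n 1762 z z)))))) z)))))) (n 0 (n 58 z (n 0 (n 1682 z (n 1090 z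
 (n 1098 z (n 1098 z (n 1570 z (n 1762 z z)))))) (n 58 z (n 0 (n 1682 z (n 1090 z (n 1098 z (n
 1098 z (n 1570 z (n 1762 z z)))))) (n 0 (n 1682 z (n 1090 z (n 1098 z (n 1098 z (n 3602 z (n
 1762 z z)))))) (n 4866 z z)))))) z)))))) (n 0 (n 202 z (n 1298 z (n 2089 z (n 18473 z (n 10281
 z (n 26665 z z)))))) (n 59433 z (n 0 (n 6185 z (n 22569 z (n 14377 z (n 30761 z (n 63529 z (n
 1065 z z)))))) (n 0 (n 17449 z (n 9257 z (n 25641 z (n 5161 z (n 21545 z (n 13353 z z)))))) (n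
 29737 z z)))))) z)))))) (n 0 (n 27 z (n 10 z (n 10 z (n 10 z (n 0 (n 1090 z (n 62505 z (n 3113
 z (n 19497 z (n 11305 z (n 27689 z z)))))) (n 0 (n 60457 z (n 7209 z (n 23593 z (n 0 (n 15401 z
 (n 31785 z (n 64553 z (n 553 z (n 16937 z (n 8745 z z)))))) (n 0 (n 25129 z (n 4649 z (n 21033
 z (n 12841 z (n 29225 z (n 61993 z z)))))) (n 2601 z z)))))) z)))))) z)))))) (n 0 (n 50 z (n 50
 z (n 50 z (n 2402 z (n 0 (n 27 z (n 10 z (n 10 z (n 10 z (n 0 (n 1090 z (n 18985 z (n 10793 z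
 (n 27177 z (n 59945 z (n 0 (n 6697 z (n 23081 z (n 14889 z (n 31273 z (n 64041 z (n 1577 z
 z)))))) z)))))) (n 0 (n 0 (n 10 z (n 10 z (n 10 z (n 0 (n 58 z (n 58 z (n 58 z (n 2450 z (n 691
 z (n 0 (n 1682 z (n 1090 z (n 1098 z (n 2642 z (n 1570 z (n 1762 z z)))))) z)))))) (n 0 (n 58 z
 (n 58 z (n 58 z (n 0 (n 1682 z (n 1090 z (n 1098 z (n 835 z (n 1570 z (n 1762 z z)))))) (n 0 (n
 1682 z (n 1090 z (n 1098 z (n 1098 z (n 3602 z (n 1762 z z)))))) (n 0 (n 1682 z (n 1090 z (n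
 1098 z (n 1098 z (n 1570 z (n 1762 z z)))))) z)))))) (n 0 (n 58 z (n 58 z (n 58 z (n 0 (n 1682
 z (n 1090 z (n 1098 z (n 1098 z (n 1570 z (n 1762 z z)))))) (n 0 (n 1682 z (n 1090 z (n 1098 z
 (n 1098 z (n 3602 z (n 1762 z z)))))) (n 4866 z z)))))) z)))))) (n 17961 z (n 9769 z (n 26153 z
 (n 58921 z (n 5673 z z)))))) z)))))) (n 0 (n 27 z (n 10 z (n 10 z (n 10 z (n 0 (n 1090 z (n
 22057 z (n 13865 z (n 30249 z (n 0 (n 63017 z (n 3625 z (n 20009 z (n 0 (n 442 z (n 0 (n 2434 z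
 (n 2818 z (n 2442 z (n 2642 z (n 722 z (n 2626 z z)))))) (n 0 (n 2434 z (n 2442 z (n 2818 z (n
 2642 z (n 722 z (n 2626 z z)))))) (n 2450 z (n 4818 z (n 699 z z)))))) (n 4802 z (n 11817 z
 z)))))) (n 28201 z z)))))) (n 0 (n 0 (n 10 z (n 10 z (n 10 z (n 0 (n 58 z (n 58 z (n 58 z (n
 2450 z (n 0 (n 795 z (n 1090 z (n 1098 z (n 2642 z (n 1570 z (n 1762 z z)))))) (n 691 z z))))))
 (n 0 (n 58 z (n 58 z (n 58 z (n 0 (n 1682 z (n 1090 z (n 1098 z (n 1098 z (n 1570 z (n 1762 z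
 z)))))) (n 0 (n 795 z (n 1090 z (n 1098 z (n 1098 z (n 1570 z (n 1762 z z)))))) (n 0 (n 1682 z
 (n 1090 z (n 1098 z (n 1098 z (n 1570 z (n 3602 z z)))))) z)))))) (n 0 (n 58 z (n 58 z (n 58 z
 (n 58 z (n 0 (n 795 z (n 1090 z (n 1098 z (n 1098 z (n 1570 z (n 1762 z z)))))) (n 4866 z
 z)))))) z)))))) (n 60969 z (n 7721 z (n 24105 z (n 0 (n 15913 z (n 32297 z (n 65065 z (n 297 z
 (n 33065 z (n 16681 z z)))))) (n 49449 z z)))))) z)))))) z)))))) (n 0 (n 50 z (n 50 z (n 50 z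
 (n 50 z (n 3906 z (n 0 (n 27 z (n 10 z (n 10 z (n 10 z (n 0 (n 1090 z (n 8489 z (n 41257 z (n
 24873 z (n 57641 z (n 4393 z z)))))) (n 0 (n 0 (n 10 z (n 10 z (n 10 z (n 10 z (n 0 (n 58 z (n
 58 z (n 58 z (n 58 z (n 0 (n 795 z (n 1090 z (n 1098 z (n 1090 z (n 2642 z (n 1762 z z)))))) (n
 691 z z)))))) (n 0 (n 58 z (n 58 z (n 58 z (n 58 z (n 0 (n 795 z (n 1090 z (n 1098 z (n 835 z
 (n 1570 z (n 1762 z z)))))) (n 4866 z z)))))) z)))))) (n 37161 z (n 20777 z (n 53545 z (n 12585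
 z (n 45353 z z)))))) z)))))) z)))))) (n 0 (n 50 z (n 50 z (n 50 z (n 50 z (n 50 z (n 0 (n 27 z
 (n 10 z (n 10 z (n 10 z (n 28969 z (n 0 (n 0 (n 10 z (n 10 z (n 10 z (n 10 z (n 0 (n 58 z (n 58
 z (n 58 z (n 58 z (n 539 z (n 58 z z)))))) (n 10 z z)))))) (n 61737 z (n 50 z (n 127273 z (n
 2345 z (n 35113 z z)))))) z)))))) z)))))) z)))))) (n 0 (n 194 z (n 1250 z (n 0 (n 386 z (n 0 (n
 27 z (n 10 z (n 10 z (n 10 z (n 0 (n 10 z (n 0 (n 202 z (n 1298 z (n 715 z (n 0 (n 394 z (n 443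
 z (n 0 (n 1282 z (n 1682 z (n 1618 z (n 1810 z (n 722 z (n 1290 z z)))))) (n 2450 z (n 0 (n
 1282 z (n 1682 z (n 1618 z (n 1810 z (n 722 z (n 1290 z z)))))) (n 0 (n 1282 z (n 1682 z (n
 1618 z (n 1810 z (n 722 z (n 1290 z z)))))) z)))))) (n 0 (n 394 z (n 443 z (n 0 (n 1282 z (n
 1682 z (n 1618 z (n 1290 z (n 722 z (n 1290 z z)))))) (n 0 (n 1282 z (n 1682 z (n 595 z (n 1290
 z (n 722 z (n 1290 z z)))))) (n 4866 z (n 0 (n 1282 z (n 1682 z (n 1618 z (n 1290 z (n 722 z (n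
 1290 z z)))))) z)))))) (n 0 (n 394 z (n 443 z (n 0 (n 1282 z (n 1682 z (n 1618 z (n 1290 z (n
 722 z (n 1810 z z)))))) (n 0 (n 1282 z (n 1682 z (n 595 z (n 1290 z (n 722 z (n 1810 z z))))))
 (n 0 (n 1282 z (n 1682 z (n 1618 z (n 1290 z (n 722 z (n 1810 z z)))))) (n 0 (n 1282 z (n 1682
 z (n 1618 z (n 1290 z (n 722 z (n 1810 z z)))))) z)))))) z)))))) (n 18729 z (n 51497 z (n 10537
 z (n 43305 z z)))))) (n 0 (n 10 z (n 0 (n 202 z (n 1298 z (n 1282 z (n 0 (n 394 z (n 443 z (n 0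
 (n 1282 z (n 1682 z (n 1618 z (n 1810 z (n 1290 z (n 1290 z z)))))) (n 2450 z (n 0 (n 1282 z (n
 1682 z (n 1618 z (n 1810 z (n 1290 z (n 1290 z z)))))) (n 0 (n 1282 z (n 1682 z (n 1618 z (n
 1810 z (n 1290 z (n 1290 z z)))))) z)))))) (n 0 (n 394 z (n 443 z (n 0 (n 1282 z (n 1682 z (n
 1618 z (n 1290 z (n 1810 z (n 1290 z z)))))) (n 0 (n 1282 z (n 1682 z (n 595 z (n 1290 z (n
 1810 z (n 1290 z z)))))) (n 0 (n 1282 z (n 1682 z (n 1618 z (n 1290 z (n 1810 z (n 1290 z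
 z)))))) (n 0 (n 1282 z (n 1682 z (n 1618 z (n 1290 z (n 1810 z (n 1290 z z)))))) z)))))) (n 0
 (n 394 z (n 443 z (n 0 (n 1282 z (n 1682 z (n 1618 z (n 1290 z (n 1290 z (n 1810 z z)))))) (n 0
 (n 1282 z (n 1682 z (n 595 z (n 1290 z (n 1290 z (n 1810 z z)))))) (n 0 (n 1282 z (n 1682 z (n
 1618 z (n 1290 z (n 1290 z (n 1810 z z)))))) (n 4866 z z)))))) z)))))) (n 26921 z (n 59689 z (n
 6441 z (n 39209 z z)))))) z)))))) (n 0 (n 27 z (n 10 z (n 10 z (n 10 z (n 0 (n 10 z (n 0 (n 202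
 z (n 1298 z (n 715 z (n 0 (n 394 z (n 0 (n 1282 z (n 1682 z (n 1618 z (n 1810 z (n 722 z (n
 1290 z z)))))) (n 707 z (n 539 z (n 0 (n 1282 z (n 1682 z (n 1618 z (n 1810 z (n 722 z (n 1290
 z z)))))) (n 0 (n 1282 z (n 1682 z (n 1618 z (n 1810 z (n 722 z (n 1290 z z)))))) z)))))) (n 0
 (n 394 z (n 0 (n 1282 z (n 1682 z (n 1618 z (n 1290 z (n 722 z (n 1290 z z)))))) (n 707 z (n 0
 (n 1282 z (n 1682 z (n 595 z (n 1290 z (n 722 z (n 1290 z z)))))) (n 539 z (n 0 (n 1282 z (n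
 1682 z (n 1618 z (n 1290 z (n 722 z (n 1290 z z)))))) z)))))) (n 0 (n 394 z (n 0 (n 1282 z (n
 1682 z (n 1618 z (n 1290 z (n 722 z (n 1810 z z)))))) (n 707 z (n 0 (n 1282 z (n 1682 z (n 595
 z (n 1290 z (n 722 z (n 1810 z z)))))) (n 0 (n 1282 z (n 1682 z (n 1618 z (n 1290 z (n 722 z (n
 1810 z z)))))) (n 539 z z)))))) z)))))) (n 22825 z (n 55593 z (n 14633 z (n 47401 z z)))))) (n
 0 (n 10 z (n 0 (n 202 z (n 1298 z (n 1282 z (n 0 (n 394 z (n 0 (n 1282 z (n 1682 z (n 1618 z (n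
 1810 z (n 1290 z (n 1290 z z)))))) (n 3202 z (n 539 z (n 0 (n 1282 z (n 1682 z (n 1618 z (n
 1810 z (n 1290 z (n 1290 z z)))))) (n 0 (n 1282 z (n 1682 z (n 1618 z (n 1810 z (n 1290 z (n
 1290 z z)))))) z)))))) (n 0 (n 394 z (n 0 (n 1282 z (n 1682 z (n 1618 z (n 1290 z (n 1810 z (n
 1290 z z)))))) (n 3202 z (n 0 (n 1282 z (n 1682 z (n 595 z (n 1290 z (n 1810 z (n 1290 z
 z)))))) (n 539 z (n 0 (n 1282 z (n 1682 z (n 1618 z (n 1290 z (n 1810 z (n 1290 z z))))))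
 z)))))) (n 0 (n 394 z (n 0 (n 1282 z (n 1682 z (n 1618 z (n 1290 z (n 1290 z (n 1810 z z))))))
 (n 3202 z (n 0 (n 1282 z (n 1682 z (n 595 z (n 1290 z (n 1290 z (n 1810 z z)))))) (n 0 (n 1282
 z (n 1682 z (n 1618 z (n 1290 z (n 1290 z (n 1810 z z)))))) (n 539 z z)))))) z)))))) (n 31017 z
 (n 63785 z (n 129321 z (n 1321 z z)))))) z)))))) (n 0 (n 27 z (n 10 z (n 10 z (n 10 z (n 34089
 z (n 17705 z z)))))) (n 0 (n 27 z (n 10 z (n 10 z (n 10 z (n 0 (n 10 z (n 0 (n 202 z (n 1298 z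
 (n 715 z (n 0 (n 394 z (n 250 z (n 0 (n 1282 z (n 1682 z (n 1618 z (n 1810 z (n 722 z (n 1290 z
 z)))))) (n 2450 z (n 707 z (n 0 (n 1282 z (n 1682 z (n 1618 z (n 1810 z (n 722 z (n 1290 z
 z)))))) z)))))) (n 0 (n 394 z (n 0 (n 1282 z (n 1682 z (n 1618 z (n 1290 z (n 722 z (n 1290 z
 z)))))) (n 0 (n 1282 z (n 1682 z (n 1618 z (n 835 z (n 722 z (n 1290 z z)))))) (n 0 (n 1282 z
 (n 1682 z (n 595 z (n 1290 z (n 722 z (n 1290 z z)))))) (n 707 z (n 0 (n 1282 z (n 1682 z (n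
 1618 z (n 1290 z (n 722 z (n 1290 z z)))))) z)))))) (n 0 (n 394 z (n 0 (n 1282 z (n 1682 z (n
 1618 z (n 1290 z (n 722 z (n 1810 z z)))))) (n 0 (n 1282 z (n 1682 z (n 1618 z (n 1290 z (n 722
 z (n 1810 z z)))))) (n 0 (n 1282 z (n 1682 z (n 595 z (n 1290 z (n 722 z (n 1810 z z)))))) (n
 707 z (n 0 (n 1282 z (n 1682 z (n 1618 z (n 1290 z (n 722 z (n 1810 z z)))))) z)))))) z))))))
 (n 50473 z (n 9513 z (n 42281 z (n 25897 z z)))))) (n 0 (n 10 z (n 0 (n 202 z (n 1298 z (n 1282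
 z (n 0 (n 394 z (n 250 z (n 0 (n 1282 z (n 1682 z (n 1618 z (n 1810 z (n 1290 z (n 1290 z
 z)))))) (n 2450 z (n 0 (n 1282 z (n 1682 z (n 1618 z (n 1810 z (n 3602 z (n 1290 z z)))))) (n 0
 (n 1282 z (n 1682 z (n 1618 z (n 1810 z (n 4642 z (n 5602 z z)))))) z)))))) (n 0 (n 394 z (n 0
 (n 1282 z (n 1682 z (n 1618 z (n 1290 z (n 1810 z (n 1290 z z)))))) (n 0 (n 1282 z (n 1682 z (n
 1618 z (n 835 z (n 1810 z (n 1290 z z)))))) (n 0 (n 1282 z (n 1682 z (n 595 z (n 1290 z (n 1810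
 z (n 1290 z z)))))) (n 0 (n 1282 z (n 1682 z (n 1618 z (n 1290 z (n 3602 z (n 1290 z z)))))) (n
 0 (n 1282 z (n 1682 z (n 1618 z (n 1290 z (n 1810 z (n 5602 z z)))))) z)))))) (n 0 (n 394 z (n
 0 (n 1282 z (n 1682 z (n 1618 z (n 1290 z (n 1290 z (n 1810 z z)))))) (n 0 (n 1282 z (n 1682 z
 (n 1618 z (n 1290 z (n 1290 z (n 1810 z z)))))) (n 0 (n 1282 z (n 1682 z (n 595 z (n 1290 z (n
 1290 z (n 1810 z z)))))) (n 0 (n 1282 z (n 1682 z (n 1618 z (n 1290 z (n 3602 z (n 1810 z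
 z)))))) (n 4866 z z)))))) z)))))) (n 58665 z (n 5417 z (n 38185 z (n 21801 z z)))))) z)))))) (n
 0 (n 27 z (n 10 z (n 10 z (n 10 z (n 0 (n 10 z (n 0 (n 202 z (n 1298 z (n 715 z (n 0 (n 394 z
 (n 250 z (n 0 (n 1282 z (n 1682 z (n 1618 z (n 1810 z (n 722 z (n 1290 z z)))))) (n 2450 z (n 0
 (n 1282 z (n 1682 z (n 1618 z (n 1810 z (n 722 z (n 1290 z z)))))) (n 707 z z)))))) (n 0 (n 394
 z (n 0 (n 1282 z (n 1682 z (n 1618 z (n 1290 z (n 722 z (n 1290 z z)))))) (n 0 (n 1282 z (n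
 1682 z (n 1618 z (n 1290 z (n 722 z (n 1290 z z)))))) (n 0 (n 1282 z (n 1682 z (n 595 z (n 1290
 z (n 722 z (n 1290 z z)))))) (n 4866 z (n 707 z z)))))) (n 0 (n 394 z (n 0 (n 1282 z (n 1682 z
 (n 1618 z (n 1290 z (n 722 z (n 1810 z z)))))) (n 0 (n 1282 z (n 1682 z (n 1618 z (n 835 z (n
 722 z (n 1810 z z)))))) (n 0 (n 1282 z (n 1682 z (n 595 z (n 1290 z (n 722 z (n 1810 z z))))))
 (n 0 (n 1282 z (n 1682 z (n 1618 z (n 1290 z (n 722 z (n 1810 z z)))))) (n 707 z z))))))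
 z)))))) (n 54569 z (n 13609 z (n 46377 z (n 29993 z z)))))) (n 0 (n 10 z (n 0 (n 202 z (n 1298
 z (n 1282 z (n 0 (n 394 z (n 250 z (n 0 (n 1282 z (n 1682 z (n 1618 z (n 1810 z (n 1290 z (n
 1290 z z)))))) (n 2450 z (n 0 (n 795 z (n 1682 z (n 1618 z (n 1810 z (n 1290 z (n 1290 z
 z)))))) (n 0 (n 1282 z (n 1682 z (n 1618 z (n 1810 z (n 1290 z (n 3602 z z)))))) z)))))) (n 0
 (n 394 z (n 0 (n 1282 z (n 1682 z (n 1618 z (n 1290 z (n 1810 z (n 1290 z z)))))) (n 0 (n 1282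
 z (n 1682 z (n 1618 z (n 1290 z (n 1810 z (n 1290 z z)))))) (n 0 (n 1282 z (n 1682 z (n 595 z
 (n 1290 z (n 1810 z (n 1290 z z)))))) (n 0 (n 795 z (n 1682 z (n 1618 z (n 1290 z (n 1810 z (n
 1290 z z)))))) (n 0 (n 1282 z (n 1682 z (n 1618 z (n 1290 z (n 1810 z (n 3602 z z)))))) z))))))
 (n 0 (n 394 z (n 0 (n 1282 z (n 1682 z (n 1618 z (n 1290 z (n 1290 z (n 1810 z z)))))) (n 0 (n
 1282 z (n 1682 z (n 1618 z (n 835 z (n 1290 z (n 1810 z z)))))) (n 0 (n 1282 z (n 1682 z (n 595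
 z (n 1290 z (n 1290 z (n 1810 z z)))))) (n 0 (n 795 z (n 1682 z (n 1618 z (n 1290 z (n 1290 z
 (n 1810 z z)))))) (n 4866 z z)))))) z)))))) (n 62761 z (n 128297 z (n 0 (n 202 z (n 3369 z (n
 36137 z (n 19753 z (n 52521 z (n 11561 z z)))))) (n 44329 z z)))))) z)))))) z)))))) (n 0 (n 386
 z (n 242 z (n 0 (n 27 z (n 10 z (n 10 z (n 10 z (n 27945 z (n 60713 z z)))))) (n 2402 z (n 0 (n
 27 z (n 10 z (n 10 z (n 10 z (n 0 (n 10 z (n 0 (n 202 z (n 1298 z (n 10 z (n 715 z (n 0 (n 394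
 z (n 0 (n 1282 z (n 1682 z (n 1290 z (n 1618 z (n 722 z (n 1818 z z)))))) (n 0 (n 1282 z (n
 1682 z (n 1290 z (n 1618 z (n 722 z (n 1290 z z)))))) (n 0 (n 1282 z (n 1682 z (n 1290 z (n 595
 z (n 722 z (n 1290 z z)))))) (n 707 z (n 0 (n 1282 z (n 1682 z (n 1290 z (n 1618 z (n 722 z (n
 1290 z z)))))) z)))))) (n 0 (n 394 z (n 0 (n 1282 z (n 1682 z (n 1290 z (n 1618 z (n 722 z (n
 1810 z z)))))) (n 0 (n 1282 z (n 1682 z (n 1290 z (n 1618 z (n 722 z (n 1810 z z)))))) (n 0 (n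
 1282 z (n 1682 z (n 1290 z (n 595 z (n 722 z (n 1810 z z)))))) (n 707 z (n 0 (n 1282 z (n 1682
 z (n 1290 z (n 1618 z (n 722 z (n 1810 z z)))))) z)))))) z)))))) (n 126249 z (n 7465 z (n 40233
 z (n 23849 z z)))))) (n 0 (n 10 z (n 56617 z (n 15657 z (n 48425 z (n 32041 z (n 64809 z
 z)))))) z)))))) (n 0 (n 27 z (n 10 z (n 10 z (n 10 z (n 130345 z (n 0 (n 10 z (n 0 (n 202 z (n
 1298 z (n 10 z (n 1282 z (n 0 (n 394 z (n 0 (n 1282 z (n 1682 z (n 1290 z (n 1618 z (n 1810 z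
 (n 1818 z z)))))) (n 0 (n 1282 z (n 1682 z (n 1290 z (n 1618 z (n 1810 z (n 1890 z z)))))) (n 0
 (n 1282 z (n 1682 z (n 1290 z (n 595 z (n 1810 z (n 1706 z z)))))) (n 0 (n 795 z (n 1682 z (n
 1290 z (n 1618 z (n 1810 z (n 1890 z z)))))) (n 0 (n 1282 z (n 1682 z (n 1290 z (n 1618 z (n
 1810 z (n 3602 z z)))))) z)))))) (n 0 (n 394 z (n 0 (n 1282 z (n 1682 z (n 1290 z (n 1618 z (n
 1818 z (n 1810 z z)))))) (n 394 z (n 0 (n 1282 z (n 1682 z (n 1290 z (n 595 z (n 1290 z (n 1810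
 z z)))))) (n 0 (n 795 z (n 1682 z (n 1290 z (n 1618 z (n 1290 z (n 1810 z z)))))) (n 4866 z
 z)))))) z)))))) (n 809 z (n 17193 z (n 49961 z (n 9001 z z)))))) z)))))) z)))))) (n 0 (n 386 z
 (n 0 (n 27 z (n 10 z (n 10 z (n 10 z (n 25385 z (n 58153 z z)))))) (n 386 z (n 0 (n 27 z (n 10
 z (n 10 z (n 10 z (n 4905 z (n 21289 z z)))))) (n 3906 z (n 0 (n 27 z (n 10 z (n 10 z (n 10 z
 (n 54057 z (n 13097 z z)))))) z)))))) (n 0 (n 386 z (n 0 (n 27 z (n 10 z (n 10 z (n 10 z (n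
 45865 z (n 29481 z z)))))) (n 386 z (n 62249 z (n 2857 z (n 19241 z z)))))) z)))))) (n 50 z (n
 0 (n 194 z (n 194 z (n 0 (n 386 z (n 803 z (n 386 z (n 386 z (n 52009 z (n 11049 z z)))))) (n
 194 z (n 0 (n 386 z (n 50 z (n 386 z (n 386 z (n 3906 z (n 27433 z z)))))) (n 0 (n 386 z (n 50
 z (n 386 z (n 386 z (n 50 z (n 60201 z z)))))) z)))))) (n 0 (n 194 z (n 194 z (n 194 z (n 194 z
 (n 3842 z (n 0 (n 386 z (n 386 z (n 386 z (n 386 z (n 3858 z (n 0 (n 27 z (n 10 z (n 10 z (n 10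
 z (n 0 (n 10 z (n 10 z (n 10 z (n 10 z (n 0 (n 202 z (n 202 z (n 202 z (n 202 z (n 4802 z (n
 715 z z)))))) (n 0 (n 202 z (n 202 z (n 202 z (n 202 z (n 0 (n 394 z (n 394 z (n 394 z (n 394 z
 (n 539 z (n 0 (n 1360596 z (n 819 z (n 1578324 z (n 202 z (n 722 z (n 3602 z z)))))) z)))))) (n
 0 (n 394 z (n 394 z (n 394 z (n 394 z (n 50 z (n 539 z z)))))) z)))))) z)))))) (n 0 (n 10 z (n
 10 z (n 10 z (n 10 z (n 0 (n 202 z (n 202 z (n 202 z (n 202 z (n 0 (n 394 z (n 394 z (n 394 z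
 (n 394 z (n 539 z (n 0 (n 787 z (n 1561556 z (n 1746612 z (n 442 z (n 1682 z (n 3602 z z))))))
 z)))))) (n 0 (n 394 z (n 394 z (n 394 z (n 394 z (n 50 z (n 539 z z)))))) z)))))) (n 0 (n 202 z
 (n 202 z (n 202 z (n 202 z (n 0 (n 394 z (n 394 z (n 394 z (n 394 z (n 539 z (n 4818 z z))))))
 (n 4802 z z)))))) z)))))) z)))))) z)))))) z)))))) (n 0 (n 194 z (n 194 z (n 194 z (n 194 z (n
 194 z (n 0 (n 386 z (n 386 z (n 386 z (n 386 z (n 386 z (n 1212420 z z)))))) z)))))) z))))))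
 z))))) z)))) z))) (n 0 (n 0 (n 723 z (n 0 (n 18 z (n 0 (n 1026 z (n 0 (n 0 (n 1220612 z (n 803
 z (n 1228804 z z))) (n 1250 z (n 0 (n 1010 z (n 482 z (n 1236996 z (n 1245188 z z)))) z))) (n 0
 (n 0 (n 498 z (n 482 z (n 1253380 z (n 1261572 z z)))) (n 2178 z (n 0 (n 3266 z (n 482 z (n
 4098 z (n 1269764 z z)))) (n 0 (n 3266 z (n 482 z (n 1277956 z (n 1286148 z (n 1294340 z z)))))
 z)))) z))) (n 0 (n 1026 z (n 1010 z (n 0 (n 2354 z (n 2178 z (n 3842 z (n 0 (n 3266 z (n 2946 z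
 (n 3858 z (n 1302532 z (n 1310724 z z))))) z)))) (n 0 (n 2354 z (n 2178 z (n 0 (n 3266 z (n
 2946 z (n 3906 z (n 1318916 z (n 1327108 z z))))) (n 0 (n 3266 z (n 2946 z (n 2354 z (n 4098 z
 (n 2354 z z))))) (n 0 (n 3266 z (n 2946 z (n 1010 z (n 1010 z (n 2354 z (n 1335300 z z))))))
 z))))) z)))) z))) (n 0 (n 18 z (n 0 (n 1026 z (n 0 (n 210 z (n 1250 z (n 0 (n 674 z (n 482 z (n
 2402 z (n 0 (n 34 z (n 514 z (n 6953 z (n 0 (n 1042 z (n 1282 z (n 23337 z (n 56105 z (n 15145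
 z z))))) (n 0 (n 1042 z (n 1282 z (n 47913 z (n 31529 z (n 64297 z (n 1833 z z)))))) z)))))
 z)))) (n 0 (n 674 z (n 482 z (n 1010 z (n 0 (n 34 z (n 514 z (n 18217 z (n 50985 z (n 10025 z
 z))))) (n 0 (n 34 z (n 514 z (n 0 (n 1042 z (n 1282 z (n 26409 z (n 59177 z (n 5929 z (n 22313
 z z)))))) (n 0 (n 1042 z (n 1282 z (n 1010 z (n 55081 z (n 14121 z (n 46889 z z)))))) (n 0 (n
 1042 z (n 1282 z (n 1010 z (n 30505 z (n 1010 z (n 63273 z z)))))) (n 3881 z z)))))) z)))))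
 z)))) (n 0 (n 0 (n 1343492 z (n 803 z (n 1351684 z (n 1359876 z z)))) (n 0 (n 1368068 z (n 482
 z (n 1376260 z (n 0 (n 34 z (n 514 z (n 0 (n 1042 z (n 20265 z (n 53033 z (n 12073 z (n 44841 z
 z))))) (n 0 (n 1042 z (n 28457 z (n 61225 z (n 7977 z (n 24361 z z))))) (n 0 (n 1042 z (n 57129
 z (n 16169 z (n 48937 z (n 32553 z (n 65321 z z)))))) z))))) z)))) (n 0 (n 1384452 z (n 482 z
 (n 2402 z (n 0 (n 34 z (n 514 z (n 169 z (n 16553 z (n 0 (n 1042 z (n 49321 z (n 8361 z (n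
 41129 z (n 24745 z (n 57513 z z)))))) z))))) z)))) (n 0 (n 1392644 z (n 482 z (n 0 (n 34 z (n
 514 z (n 4265 z (n 0 (n 1042 z (n 20649 z (n 53417 z (n 12457 z (n 45225 z z))))) (n 0 (n 1042
 z (n 28841 z (n 61609 z (n 2217 z (n 18601 z (n 51369 z z)))))) z))))) (n 0 (n 34 z (n 514 z (n
 0 (n 1042 z (n 10409 z (n 43177 z (n 26793 z (n 59561 z z))))) (n 0 (n 1042 z (n 6313 z (n
 22697 z (n 55465 z (n 14505 z z))))) (n 0 (n 1042 z (n 47273 z (n 30889 z (n 63657 z (n 1193 z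
 (n 17577 z z)))))) z))))) (n 0 (n 34 z (n 514 z (n 0 (n 1042 z (n 50345 z (n 9385 z (n 42153 z
 (n 25769 z (n 58537 z z)))))) (n 0 (n 1042 z (n 5289 z (n 21673 z (n 54441 z (n 13481 z (n 0 (n
 46249 z (n 29865 z (n 62633 z (n 3241 z (n 19625 z (n 52393 z z)))))) z)))))) (n 0 (n 1042 z (n
 11433 z (n 44201 z (n 27817 z (n 60585 z (n 0 (n 7337 z (n 40105 z (n 23721 z (n 56489 z (n
 15529 z (n 48297 z z)))))) z)))))) (n 0 (n 1042 z (n 31913 z (n 64681 z (n 0 (n 681 z (n 33449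
 z (n 17065 z (n 49833 z (n 8873 z (n 41641 z z)))))) (n 25257 z (n 58025 z z)))))) z))))))
 z))))) z)))) (n 0 (n 0 (n 1400836 z (n 482 z (n 1409028 z (n 210 z (n 1417220 z z))))) (n 0 (n
 1425412 z (n 482 z (n 0 (n 34 z (n 514 z (n 4777 z (n 0 (n 1042 z (n 37545 z (n 21161 z (n
 53929 z (n 12969 z z))))) (n 0 (n 1042 z (n 45737 z (n 29353 z (n 62121 z (n 127657 z (n 2729 z
 z)))))) z))))) (n 1433604 z (n 0 (n 34 z (n 514 z (n 0 (n 1042 z (n 1018 z (n 35497 z (n 19113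
 z (n 51881 z (n 10921 z z)))))) (n 0 (n 1042 z (n 43689 z (n 27305 z (n 60073 z (n 6825 z (n 0
 (n 39593 z (n 2242 z (n 23209 z (n 55977 z (n 15017 z (n 47785 z z)))))) z)))))) (n 0 (n 1042 z
 (n 31401 z (n 64169 z (n 129705 z (n 1705 z (n 34473 z z)))))) (n 0 (n 1042 z (n 18089 z (n
 50857 z (n 0 (n 9897 z (n 2242 z (n 42665 z (n 26281 z (n 59049 z (n 5801 z z)))))) (n 38569 z
 (n 22185 z z)))))) z)))))) z))))) (n 0 (n 0 (n 34 z (n 514 z (n 54953 z (n 0 (n 1042 z (n 13993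
 z (n 46761 z (n 30377 z (n 63145 z z))))) (n 0 (n 1042 z (n 128681 z (n 3753 z (n 36521 z (n
 20137 z (n 52905 z z)))))) z))))) (n 482 z (n 2402 z (n 1441796 z (n 0 (n 34 z (n 514 z (n 0 (n
 1042 z (n 1018 z (n 11945 z (n 44713 z (n 28329 z (n 61097 z z)))))) (n 0 (n 1042 z (n 7849 z
 (n 40617 z (n 24233 z (n 0 (n 57001 z (n 16041 z (n 2434 z (n 48809 z (n 32425 z (n 65193 z
 z)))))) (n 130729 z z)))))) (n 0 (n 1042 z (n 425 z (n 16809 z (n 0 (n 49577 z (n 8617 z (n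
 2434 z (n 41385 z (n 25001 z (n 57769 z z)))))) (n 4521 z (n 0 (n 20905 z (n 53673 z (n 2434 z
 (n 12713 z (n 45481 z (n 29097 z z)))))) z)))))) (n 0 (n 1042 z (n 61865 z (n 2473 z (n 18857 z
 (n 51625 z (n 10665 z z)))))) z)))))) z))))) (n 0 (n 0 (n 34 z (n 514 z (n 43433 z (n 0 (n 1042
 z (n 27049 z (n 59817 z (n 6569 z (n 39337 z z))))) (n 0 (n 1042 z (n 22953 z (n 55721 z (n
 14761 z (n 47529 z (n 31145 z z)))))) z))))) (n 482 z (n 1449988 z (n 4098 z (n 0 (n 34 z (n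
 514 z (n 0 (n 1042 z (n 1018 z (n 63913 z (n 1449 z (n 17833 z (n 50601 z z)))))) (n 0 (n 1042
 z (n 9641 z (n 42409 z (n 26025 z (n 58793 z (n 5545 z z)))))) (n 0 (n 1042 z (n 21929 z (n
 54697 z (n 13737 z (n 46505 z (n 30121 z z)))))) (n 0 (n 1042 z (n 62889 z (n 3497 z (n 19881 z
 (n 52649 z (n 11689 z z)))))) z)))))) z))))) (n 0 (n 0 (n 34 z (n 514 z (n 0 (n 1042 z (n 1018
 z (n 44457 z (n 28073 z (n 60841 z (n 7593 z z)))))) (n 0 (n 1042 z (n 40361 z (n 23977 z (n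
 56745 z (n 15785 z (n 48553 z z)))))) (n 0 (n 1042 z (n 32169 z (n 64937 z (n 937 z (n 17321 z
 (n 50089 z z)))))) (n 0 (n 1042 z (n 9129 z (n 25513 z (n 58281 z (n 5033 z (n 21417 z z))))))
 z)))))) (n 482 z (n 0 (n 34 z (n 514 z (n 0 (n 1042 z (n 1018 z (n 54185 z (n 13225 z (n 29609
 z (n 62377 z z)))))) (n 0 (n 1042 z (n 2985 z (n 19369 z (n 52137 z (n 11177 z (n 27561 z
 z)))))) (n 0 (n 1042 z (n 60329 z (n 7081 z (n 23465 z (n 56233 z (n 0 (n 15273 z (n 31657 z (n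
 64425 z (n 1961 z (n 18345 z (n 51113 z z)))))) z)))))) (n 0 (n 1042 z (n 10153 z (n 26537 z (n
 59305 z (n 6057 z (n 22441 z z)))))) z)))))) (n 0 (n 34 z (n 514 z (n 0 (n 1042 z (n 1018 z (n
 55209 z (n 14249 z (n 30633 z (n 63401 z z)))))) (n 0 (n 1042 z (n 4009 z (n 20393 z (n 53161 z
 (n 12201 z (n 28585 z z)))))) (n 0 (n 1042 z (n 61353 z (n 8105 z (n 24489 z (n 57257 z (n
 16297 z z)))))) (n 0 (n 1042 z (n 32681 z (n 65449 z (n 105 z (n 16489 z (n 8297 z z))))))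
 z)))))) (n 0 (n 34 z (n 514 z (n 0 (n 1042 z (n 1018 z (n 24681 z (n 4201 z (n 20585 z (n 12393
 z z)))))) (n 0 (n 1042 z (n 28777 z (n 61545 z (n 2153 z (n 18537 z (n 10345 z z)))))) (n 0 (n
 1042 z (n 26729 z (n 6249 z (n 22633 z (n 14441 z (n 0 (n 30825 z (n 63593 z (n 1129 z (n 17513
 z (n 9321 z (n 25705 z z)))))) z)))))) (n 0 (n 1042 z (n 5225 z (n 21609 z (n 13417 z (n 29801
 z (n 62569 z z)))))) z)))))) (n 0 (n 34 z (n 514 z (n 0 (n 1042 z (n 1018 z (n 3177 z (n 19561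
 z (n 11369 z (n 27753 z z)))))) (n 0 (n 1042 z (n 60521 z (n 7273 z (n 23657 z (n 0 (n 15465 z
 (n 31849 z (n 64617 z (n 617 z (n 17001 z (n 8809 z z)))))) (n 0 (n 25193 z (n 4713 z (n 21097
 z (n 12905 z (n 29289 z (n 62057 z z)))))) z)))))) (n 0 (n 1042 z (n 2665 z (n 0 (n 0 (n
 1483772 z (n 811 z (n 1511092 z (n 1582076 z (n 1557500 z (n 1582076 z z)))))) (n 19049 z (n
 10857 z (n 27241 z (n 6761 z (n 23145 z z)))))) (n 14953 z (n 0 (n 31337 z (n 64105 z (n 1641 z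
 (n 18025 z (n 4802 z (n 9833 z z)))))) (n 0 (n 26217 z (n 5737 z (n 22121 z (n 13929 z (n 30313
 z (n 63081 z z)))))) z)))))) (n 0 (n 1042 z (n 3689 z (n 0 (n 0 (n 1483772 z (n 811 z (n
 1511092 z (n 1582076 z (n 1582076 z (n 1557500 z z)))))) (n 20073 z (n 11881 z (n 28265 z (n
 61033 z (n 7785 z z)))))) (n 24169 z (n 0 (n 15977 z (n 32361 z (n 65129 z (n 361 z (n 16745 z
 (n 49513 z z)))))) (n 8553 z z)))))) z)))))) z)))))) z))))) z)))) (n 0 (n 1026 z (n 1010 z (n 0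
 (n 0 (n 4322 z (n 803 z (n 3858 z (n 1458180 z z)))) (n 0 (n 771 z (n 4338 z (n 3858 z (n
 1466372 z z)))) (n 3842 z (n 0 (n 1010 z (n 1010 z (n 3858 z (n 1474564 z (n 0 (n 34 z (n 10 z
 (n 0 (n 1042 z (n 1018 z (n 41321 z (n 24937 z (n 57705 z (n 4457 z z)))))) (n 0 (n 1042 z (n
 1018 z (n 1010 z (n 37225 z (n 20841 z (n 0 (n 53609 z (n 12649 z (n 45417 z (n 29033 z (n
 61801 z (n 2409 z z)))))) z)))))) (n 0 (n 1042 z (n 1018 z (n 1010 z (n 35177 z (n 1010 z (n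
 18793 z z)))))) (n 51561 z z)))))) z))))) z)))) (n 0 (n 0 (n 1482756 z (n 1490948 z (n 0 (n 34
 z (n 10 z (n 10601 z (n 43369 z (n 0 (n 1042 z (n 1018 z (n 26985 z (n 59753 z (n 6505 z (n
 39273 z z)))))) z))))) (n 1499140 z (n 0 (n 34 z (n 10 z (n 0 (n 1042 z (n 1018 z (n 10 z (n
 22889 z (n 55657 z (n 14697 z z)))))) (n 0 (n 1042 z (n 1018 z (n 47465 z (n 31081 z (n 0 (n
 2050 z (n 63849 z (n 1385 z (n 34153 z (n 17769 z (n 50537 z z)))))) (n 9577 z z)))))) (n 0 (n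
 1042 z (n 1018 z (n 42345 z (n 25961 z (n 58729 z (n 5481 z z)))))) (n 0 (n 1042 z (n 1018 z (n
 38249 z (n 21865 z (n 54633 z (n 13673 z z)))))) z)))))) z))))) (n 0 (n 771 z (n 1507332 z (n
 1515524 z (n 1523716 z (n 1531908 z z))))) (n 0 (n 2594 z (n 1540100 z (n 2402 z (n 1548292 z
 (n 0 (n 34 z (n 10 z (n 46441 z (n 0 (n 1042 z (n 1018 z (n 30057 z (n 62825 z (n 3433 z (n 0
 (n 36201 z (n 19817 z (n 2434 z (n 52585 z (n 11625 z (n 44393 z z)))))) z)))))) (n 0 (n 1042 z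
 (n 1018 z (n 28009 z (n 60777 z (n 7529 z (n 40297 z z)))))) (n 0 (n 1042 z (n 1018 z (n 23913
 z (n 56681 z (n 15721 z (n 48489 z z)))))) z)))))) z))))) (n 0 (n 1556484 z (n 1564676 z (n
 1572868 z (n 4098 z (n 0 (n 34 z (n 10 z (n 32105 z (n 0 (n 1042 z (n 1018 z (n 64873 z (n 873
 z (n 17257 z (n 50025 z z)))))) (n 0 (n 1042 z (n 1018 z (n 9065 z (n 25449 z (n 58217 z (n
 4969 z z)))))) (n 0 (n 1042 z (n 1018 z (n 21353 z (n 54121 z (n 13161 z (n 29545 z z))))))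
 z)))))) z))))) (n 0 (n 1581060 z (n 0 (n 34 z (n 10 z (n 62313 z (n 0 (n 1042 z (n 1018 z (n
 2921 z (n 19305 z (n 52073 z (n 11113 z z)))))) (n 0 (n 1042 z (n 1018 z (n 27497 z (n 60265 z
 (n 7017 z (n 23401 z z)))))) (n 0 (n 1042 z (n 1018 z (n 56169 z (n 15209 z (n 47977 z (n 31593
 z z)))))) z)))))) (n 0 (n 34 z (n 10 z (n 64361 z (n 0 (n 1042 z (n 1018 z (n 1897 z (n 18281 z
 (n 51049 z (n 0 (n 10089 z (n 26473 z (n 59241 z (n 5993 z (n 22377 z (n 55145 z z))))))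
 z)))))) (n 0 (n 1042 z (n 1018 z (n 14185 z (n 46953 z (n 30569 z (n 63337 z z)))))) (n 0 (n
 1042 z (n 1018 z (n 3945 z (n 20329 z (n 53097 z (n 12137 z z)))))) z)))))) (n 0 (n 34 z (n 10
 z (n 28521 z (n 0 (n 1042 z (n 1018 z (n 61289 z (n 8041 z (n 24425 z (n 57193 z z)))))) (n 0
 (n 1042 z (n 1018 z (n 16233 z (n 49001 z (n 32617 z (n 65385 z z)))))) (n 0 (n 1042 z (n 1018
 z (n 233 z (n 33001 z (n 0 (n 16617 z (n 49385 z (n 8425 z (n 41193 z (n 24809 z (n 57577 z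
 z)))))) (n 4329 z z)))))) z)))))) (n 0 (n 34 z (n 10 z (n 37097 z (n 0 (n 1042 z (n 1018 z (n
 20713 z (n 53481 z (n 0 (n 12521 z (n 45289 z (n 28905 z (n 61673 z (n 2281 z (n 35049 z
 z)))))) (n 18665 z z)))))) (n 0 (n 1042 z (n 1018 z (n 51433 z (n 10473 z (n 43241 z (n 26857 z
 z)))))) (n 0 (n 1042 z (n 1018 z (n 59625 z (n 6377 z (n 39145 z (n 22761 z z)))))) z)))))) (n
 0 (n 34 z (n 10 z (n 55529 z (n 0 (n 1042 z (n 1018 z (n 14569 z (n 47337 z (n 30953 z (n 0 (n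
 63721 z (n 129257 z (n 0 (n 1257 z (n 34025 z (n 2450 z (n 17641 z (n 50409 z (n 9449 z z))))))
 (n 42217 z (n 25833 z (n 58601 z z)))))) z)))))) (n 0 (n 1042 z (n 1018 z (n 5353 z (n 38121 z
 (n 21737 z (n 54505 z z)))))) (n 0 (n 1042 z (n 1018 z (n 13545 z (n 46313 z (n 29929 z (n 0 (n
 62697 z (n 128233 z (n 3305 z (n 36073 z (n 19689 z (n 4802 z z)))))) z)))))) z)))))) z))))))
 z))))) z)))) (n 0 (n 1026 z (n 1010 z (n 1010 z (n 0 (n 0 (n 1589252 z (n 1597444 z (n 0 (n 34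
 z (n 10 z (n 10 z (n 52457 z (n 0 (n 1042 z (n 1018 z (n 1018 z (n 11497 z (n 44265 z (n 27881
 z z)))))) z))))) (n 3858 z (n 0 (n 34 z (n 10 z (n 10 z (n 0 (n 1042 z (n 1018 z (n 1018 z (n
 60649 z (n 7401 z (n 40169 z z)))))) (n 0 (n 1042 z (n 1018 z (n 1018 z (n 23785 z (n 56553 z
 (n 15593 z z)))))) (n 0 (n 1042 z (n 1018 z (n 1018 z (n 48361 z (n 31977 z (n 64745 z z))))))
 z)))))) z))))) (n 0 (n 1010 z (n 130281 z (n 0 (n 34 z (n 10 z (n 10 z (n 745 z (n 0 (n 1042 z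
 (n 1018 z (n 1018 z (n 17129 z (n 49897 z (n 8937 z z)))))) z))))) (n 3858 z (n 0 (n 34 z (n 10
 z (n 10 z (n 0 (n 1042 z (n 1018 z (n 1018 z (n 25321 z (n 58089 z (n 4841 z z)))))) (n 0 (n
 1042 z (n 1018 z (n 1018 z (n 21225 z (n 53993 z (n 13033 z z)))))) (n 0 (n 1042 z (n 1018 z (n
 1018 z (n 29417 z (n 62185 z (n 2793 z z)))))) z)))))) z))))) (n 0 (n 1010 z (n 1010 z (n 2402
 z (n 3858 z (n 0 (n 34 z (n 10 z (n 10 z (n 0 (n 1042 z (n 1018 z (n 1018 z (n 19177 z (n 51945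
 z (n 10985 z z)))))) (n 0 (n 1042 z (n 1018 z (n 1018 z (n 27369 z (n 60137 z (n 6889 z z))))))
 (n 0 (n 1042 z (n 1018 z (n 1018 z (n 23273 z (n 56041 z (n 15081 z z)))))) z)))))) z))))) (n
 3842 z (n 0 (n 1010 z (n 1010 z (n 1010 z (n 3858 z (n 0 (n 34 z (n 10 z (n 10 z (n 47849 z (n
 31465 z (n 64233 z z)))))) (n 0 (n 34 z (n 10 z (n 10 z (n 0 (n 1042 z (n 1018 z (n 1018 z (n
 1769 z (n 18153 z (n 0 (n 50921 z (n 9961 z (n 26345 z (n 59113 z (n 5865 z (n 22249 z z))))))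
 z)))))) (n 55017 z (n 14057 z z)))))) z)))))) z))))) (n 0 (n 0 (n 0 (n 34 z (n 10 z (n 10 z (n
 46825 z (n 30441 z (n 0 (n 1042 z (n 1018 z (n 1018 z (n 1010 z (n 1010 z (n 10 z z))))))
 z)))))) (n 1605636 z (n 0 (n 34 z (n 10 z (n 10 z (n 63209 z (n 3817 z (n 20201 z z)))))) (n 0
 (n 34 z (n 10 z (n 10 z (n 52969 z (n 0 (n 1042 z (n 1018 z (n 1018 z (n 12009 z (n 10 z (n
 28393 z z)))))) (n 0 (n 1042 z (n 1018 z (n 1018 z (n 61161 z (n 7913 z (n 10 z z)))))) z))))))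
 (n 0 (n 34 z (n 10 z (n 10 z (n 24297 z (n 57065 z (n 0 (n 1042 z (n 1018 z (n 1018 z (n 16105
 z (n 48873 z (n 10 z z)))))) z)))))) (n 0 (n 34 z (n 10 z (n 10 z (n 32489 z (n 0 (n 1042 z (n
 1018 z (n 1018 z (n 65257 z (n 10 z (n 0 (n 2050 z (n 489 z (n 33257 z (n 0 (n 16873 z (n 49641
 z (n 115177 z (n 8681 z (n 41449 z (n 25065 z z)))))) (n 57833 z (n 123369 z z)))))) z)))))) (n
 4585 z z)))))) z)))))) (n 0 (n 1010 z (n 37353 z (n 0 (n 34 z (n 10 z (n 10 z (n 20969 z (n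
 53737 z (n 119273 z z)))))) (n 1613828 z (n 1622020 z (n 0 (n 34 z (n 10 z (n 10 z (n 12777 z
 (n 0 (n 1042 z (n 1018 z (n 1018 z (n 45545 z (n 10 z (n 0 (n 10 z (n 2242 z (n 29161 z (n 0 (n
 1018 z (n 61929 z (n 127465 z (n 2537 z (n 35305 z (n 18921 z z)))))) (n 51689 z (n 117225 z
 z)))))) z)))))) (n 10729 z z)))))) z)))))) (n 0 (n 1010 z (n 1010 z (n 2402 z (n 0 (n 34 z (n
 10 z (n 10 z (n 43497 z (n 27113 z (n 59881 z z)))))) (n 125417 z (n 0 (n 34 z (n 10 z (n 10 z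
 (n 6633 z (n 0 (n 1042 z (n 1018 z (n 1018 z (n 39401 z (n 10 z (n 0 (n 10 z (n 10 z (n 2434 z
 (n 23017 z (n 55785 z (n 121321 z z)))))) z)))))) (n 14825 z z)))))) z)))))) (n 0 (n 1010 z (n
 1010 z (n 1010 z (n 3906 z (n 1630212 z (n 47593 z z)))))) (n 0 (n 1010 z (n 1010 z (n 1010 z
 (n 1638404 z (n 4098 z (n 31209 z z)))))) (n 0 (n 1010 z (n 1010 z (n 1010 z (n 1010 z (n 1010
 z (n 63977 z z)))))) z)))))) z))))) z)))) z))) (n 0 (n 194 z (n 1202 z (n 0 (n 18 z (n 0 (n 18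
 z (n 1218 z (n 0 (n 210 z (n 1218 z (n 0 (n 482 z (n 482 z (n 2402 z (n 0 (n 34 z (n 514 z (n
 129513 z (n 1513 z (n 0 (n 34281 z (n 1234 z (n 17897 z (n 50665 z (n 116201 z (n 9705 z
 z)))))) z))))) z)))) (n 0 (n 482 z (n 482 z (n 1646596 z (n 0 (n 34 z (n 514 z (n 0 (n 42473 z
 (n 1234 z (n 26089 z (n 58857 z (n 124393 z z))))) (n 0 (n 5609 z (n 1234 z (n 38377 z (n 21993
 z (n 54761 z z))))) (n 0 (n 120297 z (n 1234 z (n 13801 z (n 46569 z (n 30185 z (n 0 (n 62953 z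
 (n 128489 z (n 3561 z (n 36329 z (n 19945 z (n 52713 z z)))))) z)))))) z))))) (n 0 (n 34 z (n
 514 z (n 0 (n 118249 z (n 1234 z (n 11753 z (n 44521 z (n 28137 z (n 0 (n 60905 z (n 126441 z
 (n 7657 z (n 40425 z (n 24041 z (n 56809 z z)))))) z)))))) (n 0 (n 122345 z (n 1234 z (n 15849
 z (n 48617 z (n 0 (n 32233 z (n 65001 z (n 130537 z (n 1001 z (n 33769 z (n 17385 z z)))))) (n
 0 (n 50153 z (n 115689 z (n 9193 z (n 41961 z (n 25577 z (n 58345 z z)))))) z)))))) (n 0 (n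
 123881 z (n 1234 z (n 5097 z (n 0 (n 37865 z (n 21481 z (n 54249 z (n 119785 z (n 13289 z (n
 46057 z z)))))) (n 29673 z (n 0 (n 62441 z (n 127977 z (n 3049 z (n 35817 z (n 19433 z (n 52201
 z z)))))) z)))))) (n 0 (n 0 (n 117737 z (n 11241 z (n 44009 z (n 27625 z (n 60393 z (n 125929 z
 z)))))) (n 1234 z (n 7145 z (n 0 (n 39913 z (n 23529 z (n 56297 z (n 121833 z (n 15337 z (n
 48105 z z)))))) (n 0 (n 31721 z (n 64489 z (n 130025 z (n 2025 z (n 34793 z (n 18409 z z))))))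
 (n 51177 z z)))))) z)))))) z))))) z)))) (n 0 (n 210 z (n 0 (n 482 z (n 482 z (n 1654788 z (n
 210 z (n 0 (n 34 z (n 514 z (n 0 (n 116713 z (n 1234 z (n 10217 z (n 42985 z (n 26601 z (n
 59369 z z)))))) (n 210 z (n 0 (n 124905 z (n 1234 z (n 6121 z (n 38889 z (n 22505 z (n 55273 z
 z)))))) (n 0 (n 120809 z (n 1234 z (n 14313 z (n 47081 z (n 30697 z (n 0 (n 210 z (n 2242 z (n
 210 z (n 210 z (n 210 z (n 4802 z z)))))) z)))))) z)))))) z))))) (n 0 (n 482 z (n 482 z (n 2402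
 z (n 0 (n 34 z (n 514 z (n 63465 z (n 129001 z (n 0 (n 4073 z (n 1234 z (n 36841 z (n 20457 z
 (n 53225 z (n 118761 z z)))))) z))))) (n 0 (n 34 z (n 514 z (n 0 (n 12265 z (n 1234 z (n 45033
 z (n 28649 z (n 61417 z (n 126953 z z)))))) (n 0 (n 8169 z (n 1234 z (n 40937 z (n 24553 z (n
 57321 z (n 122857 z z)))))) (n 0 (n 16361 z (n 1234 z (n 49129 z (n 32745 z (n 65513 z (n
 131049 z z)))))) (n 0 (n 25 z (n 1234 z (n 8217 z (n 24601 z (n 4121 z (n 20505 z z))))))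
 z)))))) z))))) (n 0 (n 482 z (n 482 z (n 0 (n 34 z (n 514 z (n 0 (n 12313 z (n 1234 z (n 28697
 z (n 2073 z (n 18457 z z))))) (n 0 (n 10265 z (n 1234 z (n 26649 z (n 6169 z (n 22553 z z)))))
 (n 0 (n 14361 z (n 1234 z (n 30745 z (n 1049 z (n 9241 z (n 25625 z z)))))) z))))) (n 4098 z (n
 0 (n 34 z (n 514 z (n 0 (n 5145 z (n 1234 z (n 21529 z (n 13337 z (n 29721 z (n 3097 z z))))))
 (n 0 (n 19481 z (n 1234 z (n 11289 z (n 27673 z (n 7193 z (n 23577 z z)))))) (n 0 (n 15385 z (n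
 1234 z (n 31769 z (n 537 z (n 8729 z (n 25113 z z)))))) (n 0 (n 4633 z (n 1234 z (n 21017 z (n
 12825 z (n 29209 z (n 2585 z z)))))) z)))))) z))))) (n 0 (n 482 z (n 482 z (n 0 (n 34 z (n 514
 z (n 0 (n 18969 z (n 1234 z (n 10777 z (n 27161 z (n 6681 z (n 23065 z z)))))) (n 0 (n 14873 z
 (n 1234 z (n 31257 z (n 1561 z (n 17945 z (n 9753 z z)))))) (n 0 (n 0 (n 26137 z (n 5657 z (n
 22041 z (n 13849 z (n 30233 z (n 3609 z z)))))) (n 1234 z (n 19993 z (n 11801 z (n 28185 z (n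
 7705 z z)))))) (n 0 (n 24089 z (n 1234 z (n 0 (n 15897 z (n 1234 z (n 32281 z (n 281 z (n 16665
 z (n 49433 z z)))))) (n 8473 z (n 24857 z (n 57625 z z)))))) z)))))) (n 0 (n 34 z (n 514 z (n 0
 (n 4377 z (n 1234 z (n 20761 z (n 53529 z (n 12569 z (n 45337 z z)))))) (n 0 (n 28953 z (n 1234
 z (n 61721 z (n 2329 z (n 18713 z (n 51481 z z)))))) (n 0 (n 10521 z (n 1234 z (n 43289 z (n
 26905 z (n 59673 z (n 6425 z z)))))) (n 0 (n 22809 z (n 1234 z (n 55577 z (n 14617 z (n 47385 z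
 (n 31001 z z)))))) z)))))) (n 0 (n 34 z (n 514 z (n 0 (n 63769 z (n 1234 z (n 1305 z (n 17689 z
 (n 50457 z (n 9497 z z)))))) (n 0 (n 25881 z (n 1234 z (n 58649 z (n 5401 z (n 21785 z (n 54553
 z z)))))) (n 0 (n 13593 z (n 1234 z (n 46361 z (n 29977 z (n 62745 z (n 3353 z z)))))) (n 0 (n
 19737 z (n 1234 z (n 52505 z (n 11545 z (n 44313 z (n 27929 z z)))))) z)))))) (n 0 (n 34 z (n
 514 z (n 0 (n 60697 z (n 1234 z (n 7449 z (n 23833 z (n 56601 z (n 0 (n 15641 z (n 48409 z (n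
 32025 z (n 64793 z (n 793 z (n 17177 z z)))))) z)))))) (n 0 (n 49945 z (n 1234 z (n 8985 z (n
 41753 z (n 25369 z (n 58137 z z)))))) (n 0 (n 4889 z (n 1234 z (n 0 (n 21273 z (n 1234 z (n
 54041 z (n 13081 z (n 45849 z (n 29465 z z)))))) (n 62233 z (n 2841 z (n 19225 z z)))))) (n 0
 (n 51993 z (n 1234 z (n 0 (n 11033 z (n 1234 z (n 43801 z (n 27417 z (n 60185 z (n 6937 z
 z)))))) (n 39705 z (n 0 (n 23321 z (n 56089 z (n 15129 z (n 47897 z (n 31513 z (n 64281 z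
 z)))))) (n 1817 z z)))))) z)))))) z)))))) z))))) z)))) (n 0 (n 0 (n 0 (n 4098 z (n 363 z (n
 1662980 z (n 0 (n 34 z (n 10 z (n 18201 z (n 50969 z (n 0 (n 1090 z (n 1234 z (n 10009 z (n
 42777 z (n 26393 z (n 59161 z z)))))) z))))) z)))) (n 0 (n 771 z (n 2898 z (n 3554 z (n 1671172
 z z)))) (n 0 (n 2594 z (n 2898 z (n 2402 z (n 0 (n 34 z (n 10 z (n 5913 z (n 22297 z (n 0 (n
 1090 z (n 1234 z (n 55065 z (n 14105 z (n 46873 z (n 30489 z z)))))) z))))) z)))) (n 0 (n 3090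
 z (n 2898 z (n 0 (n 34 z (n 10 z (n 63257 z (n 0 (n 1090 z (n 1234 z (n 3865 z (n 20249 z (n
 53017 z z))))) (n 0 (n 1090 z (n 1234 z (n 12057 z (n 44825 z (n 28441 z (n 61209 z z))))))
 z))))) (n 0 (n 34 z (n 10 z (n 7961 z (n 40729 z (n 0 (n 1090 z (n 1234 z (n 24345 z (n 57113 z
 (n 16153 z (n 48921 z z)))))) z))))) (n 0 (n 34 z (n 10 z (n 0 (n 1090 z (n 1234 z (n 32537 z
 (n 65305 z (n 153 z (n 32921 z z)))))) (n 0 (n 1090 z (n 1234 z (n 16537 z (n 49305 z (n 8345 z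
 (n 0 (n 41113 z (n 24729 z (n 57497 z (n 4249 z (n 37017 z (n 20633 z z)))))) z)))))) (n 0 (n
 1090 z (n 1234 z (n 53401 z (n 0 (n 12441 z (n 45209 z (n 28825 z (n 61593 z (n 127129 z (n
 2201 z z)))))) (n 34969 z (n 0 (n 18585 z (n 51353 z (n 10393 z (n 43161 z (n 26777 z (n 59545
 z z)))))) z)))))) (n 0 (n 1090 z (n 1234 z (n 6297 z (n 0 (n 39065 z (n 22681 z (n 55449 z (n
 14489 z (n 47257 z (n 30873 z z)))))) (n 0 (n 63641 z (n 129177 z (n 1177 z (n 33945 z (n 17561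
 z (n 50329 z z)))))) (n 9369 z z)))))) z)))))) z))))) z)))) (n 1218 z (n 0 (n 0 (n 2514 z (n
 2898 z (n 3858 z (n 0 (n 34 z (n 10 z (n 42137 z (n 25753 z (n 0 (n 58521 z (n 1234 z (n 5273 z
 (n 38041 z (n 243 z (n 21657 z z)))))) z))))) z)))) (n 1218 z (n 3842 z (n 0 (n 0 (n 34 z (n 10
 z (n 54425 z (n 13465 z (n 0 (n 46233 z (n 1234 z (n 29849 z (n 62617 z (n 243 z (n 128153 z
 z)))))) z))))) (n 2898 z (n 3858 z (n 0 (n 34 z (n 10 z (n 3225 z (n 35993 z (n 0 (n 19609 z (n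
 1234 z (n 52377 z (n 11417 z (n 243 z (n 44185 z z)))))) z))))) (n 0 (n 34 z (n 10 z (n 0 (n 10
 z (n 1234 z (n 243 z (n 27801 z (n 60569 z (n 7321 z z)))))) (n 0 (n 40089 z (n 1234 z (n 23705
 z (n 243 z (n 56473 z (n 15513 z z)))))) (n 0 (n 48281 z (n 1234 z (n 31897 z (n 64665 z (n 243
 z (n 130201 z z)))))) (n 0 (n 665 z (n 1234 z (n 17049 z (n 8857 z (n 25241 z (n 243 z z))))))
 z)))))) z))))) z)))) (n 0 (n 0 (n 2514 z (n 2898 z (n 0 (n 34 z (n 10 z (n 58009 z (n 4761 z (n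
 21145 z z))))) (n 0 (n 34 z (n 10 z (n 53913 z (n 12953 z (n 0 (n 29337 z (n 1234 z (n 62105 z
 (n 2713 z (n 19097 z (n 51865 z z)))))) z))))) (n 0 (n 34 z (n 10 z (n 10905 z (n 0 (n 27289 z
 (n 1234 z (n 60057 z (n 6809 z (n 23193 z (n 0 (n 2050 z (n 55961 z (n 15001 z (n 31385 z (n
 64153 z (n 1689 z z)))))) z)))))) (n 0 (n 18073 z (n 1234 z (n 50841 z (n 9881 z (n 26265 z (n
 59033 z z)))))) (n 0 (n 5785 z (n 1234 z (n 22169 z (n 54937 z (n 13977 z (n 30361 z z))))))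
 z)))))) z))))) (n 0 (n 771 z (n 2898 z (n 3554 z (n 1679364 z (n 0 (n 34 z (n 10 z (n 63129 z
 (n 0 (n 3737 z (n 1234 z (n 20121 z (n 52889 z (n 11929 z (n 28313 z z)))))) (n 0 (n 61081 z (n
 1234 z (n 7833 z (n 24217 z (n 56985 z (n 16025 z z)))))) (n 0 (n 32409 z (n 1234 z (n 65177 z
 (n 409 z (n 16793 z (n 49561 z z)))))) z)))))) z))))) (n 0 (n 2594 z (n 2898 z (n 2402 z (n 0
 (n 34 z (n 10 z (n 8601 z (n 24985 z (n 0 (n 57753 z (n 1234 z (n 4505 z (n 20889 z (n 53657 z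
 (n 12697 z z)))))) z))))) (n 0 (n 34 z (n 10 z (n 45465 z (n 0 (n 29081 z (n 1234 z (n 61849 z
 (n 2457 z (n 18841 z (n 51609 z z)))))) (n 0 (n 10649 z (n 1234 z (n 43417 z (n 27033 z (n
 59801 z (n 6553 z z)))))) (n 0 (n 22937 z (n 1234 z (n 55705 z (n 14745 z (n 47513 z (n 31129 z
 z)))))) z)))))) z))))) (n 0 (n 1687556 z (n 2898 z (n 0 (n 34 z (n 10 z (n 63897 z (n 1433 z (n
 0 (n 17817 z (n 1234 z (n 50585 z (n 9625 z (n 26009 z (n 58777 z z)))))) z))))) (n 4098 z (n 0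
 (n 34 z (n 10 z (n 5529 z (n 0 (n 21913 z (n 1234 z (n 54681 z (n 13721 z (n 46489 z (n 30105 z
 z)))))) (n 0 (n 62873 z (n 1234 z (n 3481 z (n 19865 z (n 52633 z (n 11673 z z)))))) (n 0 (n
 44441 z (n 1234 z (n 28057 z (n 60825 z (n 7577 z (n 23961 z z)))))) z)))))) z))))) (n 0 (n 0
 (n 34 z (n 10 z (n 56729 z (n 0 (n 15769 z (n 1234 z (n 48537 z (n 32153 z (n 64921 z (n 921 z
 z)))))) (n 0 (n 17305 z (n 1234 z (n 50073 z (n 9113 z (n 25497 z (n 58265 z z)))))) (n 0 (n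
 5017 z (n 1234 z (n 21401 z (n 54169 z (n 13209 z (n 45977 z z)))))) z)))))) (n 2898 z (n 0 (n
 34 z (n 10 z (n 29593 z (n 0 (n 62361 z (n 1234 z (n 2969 z (n 19353 z (n 52121 z (n 11161 z
 z)))))) (n 0 (n 27545 z (n 1234 z (n 60313 z (n 7065 z (n 23449 z (n 56217 z z)))))) (n 0 (n
 15257 z (n 1234 z (n 48025 z (n 31641 z (n 64409 z (n 1945 z z)))))) z)))))) (n 0 (n 34 z (n 10
 z (n 18329 z (n 0 (n 51097 z (n 1234 z (n 10137 z (n 26521 z (n 59289 z (n 6041 z z)))))) (n 0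
 (n 22425 z (n 1234 z (n 55193 z (n 14233 z (n 47001 z (n 30617 z z)))))) (n 0 (n 63385 z (n
 1234 z (n 3993 z (n 20377 z (n 53145 z (n 12185 z z)))))) z)))))) (n 0 (n 34 z (n 10 z (n 28569
 z (n 0 (n 61337 z (n 1234 z (n 8089 z (n 24473 z (n 57241 z (n 16281 z z)))))) (n 0 (n 49049 z
 (n 1234 z (n 32665 z (n 65433 z (n 89 z (n 16473 z z)))))) (n 0 (n 8281 z (n 1234 z (n 24665 z
 (n 4185 z (n 20569 z (n 12377 z z)))))) z)))))) (n 0 (n 34 z (n 10 z (n 28761 z (n 0 (n 61529 z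
 (n 1234 z (n 2137 z (n 18521 z (n 0 (n 10329 z (n 26713 z (n 6233 z (n 22617 z (n 14425 z (n
 30809 z z)))))) (n 0 (n 63577 z (n 1113 z (n 17497 z (n 9305 z (n 25689 z (n 5209 z z))))))
 z)))))) (n 0 (n 21593 z (n 1234 z (n 0 (n 13401 z (n 1234 z (n 29785 z (n 62553 z (n 3161 z (n
 19545 z z)))))) (n 11353 z (n 27737 z (n 7257 z z)))))) (n 0 (n 23641 z (n 1234 z (n 15449 z (n
 31833 z (n 0 (n 64601 z (n 601 z (n 16985 z (n 8793 z (n 25177 z (n 4697 z z)))))) (n 21081 z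
 z)))))) z)))))) z)))))) z))))) z)))) (n 0 (n 0 (n 0 (n 4098 z (n 363 z (n 1695748 z (n 0 (n 34
 z (n 10 z (n 10 z (n 12889 z (n 0 (n 1090 z (n 1234 z (n 29273 z (n 62041 z (n 2649 z (n 19033
 z z)))))) z))))) (n 0 (n 34 z (n 10 z (n 10 z (n 0 (n 1090 z (n 1234 z (n 10841 z (n 27225 z (n
 6745 z (n 23129 z z)))))) (n 0 (n 1090 z (n 1234 z (n 14937 z (n 31321 z (n 64089 z (n 1625 z
 z)))))) (n 0 (n 1090 z (n 1234 z (n 18009 z (n 9817 z (n 26201 z (n 5721 z z)))))) z))))))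
 z))))) (n 0 (n 1703940 z (n 2898 z (n 3378 z (n 0 (n 34 z (n 10 z (n 10 z (n 22105 z (n 0 (n
 1090 z (n 1234 z (n 13913 z (n 30297 z (n 63065 z (n 3673 z z)))))) z))))) (n 0 (n 34 z (n 10 z
 (n 10 z (n 0 (n 1090 z (n 1234 z (n 20057 z (n 11865 z (n 28249 z (n 61017 z z)))))) (n 0 (n
 1090 z (n 1234 z (n 7769 z (n 24153 z (n 15961 z (n 32345 z z)))))) (n 0 (n 1090 z (n 1234 z (n
 65113 z (n 345 z (n 16729 z (n 49497 z z)))))) z)))))) z))))) (n 0 (n 3090 z (n 2898 z (n 2402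
 z (n 0 (n 34 z (n 10 z (n 10 z (n 8537 z (n 0 (n 1090 z (n 1234 z (n 41305 z (n 24921 z (n
 57689 z (n 4441 z z)))))) z))))) (n 0 (n 34 z (n 10 z (n 10 z (n 0 (n 1090 z (n 1234 z (n 37209
 z (n 20825 z (n 53593 z (n 12633 z z)))))) (n 0 (n 1090 z (n 1234 z (n 45401 z (n 29017 z (n
 61785 z (n 2393 z z)))))) (n 0 (n 1090 z (n 1234 z (n 18777 z (n 51545 z (n 0 (n 10585 z (n
 43353 z (n 2434 z (n 26969 z (n 59737 z (n 6489 z z)))))) (n 39257 z z)))))) z)))))) z))))) (n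
 0 (n 3890 z (n 2898 z (n 1712132 z (n 3906 z (n 0 (n 34 z (n 10 z (n 10 z (n 22873 z (n 0 (n
 1090 z (n 1234 z (n 55641 z (n 14681 z (n 47449 z (n 31065 z z)))))) (n 0 (n 1090 z (n 1234 z
 (n 63833 z (n 1369 z (n 17753 z (n 50521 z z)))))) z)))))) z))))) (n 0 (n 3090 z (n 2898 z (n 0
 (n 34 z (n 10 z (n 10 z (n 0 (n 1090 z (n 1234 z (n 9561 z (n 42329 z (n 25945 z (n 58713 z
 z)))))) (n 0 (n 1090 z (n 1234 z (n 5465 z (n 38233 z (n 21849 z (n 0 (n 54617 z (n 13657 z (n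
 46425 z (n 30041 z (n 62809 z (n 3417 z z)))))) z)))))) (n 0 (n 1090 z (n 1234 z (n 36185 z (n
 19801 z (n 52569 z (n 11609 z z)))))) z)))))) (n 0 (n 34 z (n 10 z (n 10 z (n 0 (n 1090 z (n
 1234 z (n 44377 z (n 27993 z (n 60761 z (n 7513 z z)))))) (n 0 (n 1090 z (n 1234 z (n 40281 z
 (n 23897 z (n 56665 z (n 15705 z z)))))) (n 0 (n 1090 z (n 1234 z (n 48473 z (n 32089 z (n
 64857 z (n 857 z z)))))) z)))))) (n 0 (n 34 z (n 10 z (n 10 z (n 17241 z (n 0 (n 1090 z (n 1234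
 z (n 50009 z (n 9049 z (n 41817 z (n 25433 z z)))))) (n 0 (n 1090 z (n 1234 z (n 58201 z (n
 4953 z (n 37721 z (n 21337 z z)))))) z)))))) (n 0 (n 34 z (n 10 z (n 10 z (n 0 (n 1090 z (n
 1234 z (n 54105 z (n 13145 z (n 45913 z (n 29529 z z)))))) (n 0 (n 1090 z (n 1234 z (n 62297 z
 (n 2905 z (n 35673 z (n 19289 z z)))))) (n 0 (n 1090 z (n 1234 z (n 52057 z (n 11097 z (n 43865
 z (n 27481 z z)))))) z)))))) z)))))) z))))) (n 1218 z (n 0 (n 0 (n 0 (n 34 z (n 10 z (n 10 z (n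
 60249 z (n 0 (n 10 z (n 1234 z (n 7001 z (n 39769 z (n 23385 z (n 56153 z z)))))) z))))) (n
 2898 z (n 1410 z (n 0 (n 34 z (n 10 z (n 10 z (n 15193 z (n 0 (n 10 z (n 1234 z (n 47961 z (n
 31577 z (n 64345 z (n 1881 z z)))))) z))))) (n 0 (n 34 z (n 10 z (n 10 z (n 0 (n 10 z (n 1234 z
 (n 34649 z (n 18265 z (n 51033 z (n 10073 z z)))))) (n 0 (n 10 z (n 1234 z (n 42841 z (n 26457
 z (n 0 (n 2050 z (n 59225 z (n 5977 z (n 38745 z (n 4802 z (n 22361 z z)))))) (n 0 (n 2050 z (n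
 55129 z (n 14169 z (n 46937 z (n 30553 z (n 63321 z z)))))) z)))))) (n 0 (n 10 z (n 1234 z (n
 3929 z (n 0 (n 2050 z (n 36697 z (n 20313 z (n 53081 z (n 12121 z (n 44889 z z)))))) (n 0 (n
 2050 z (n 28505 z (n 61273 z (n 8025 z (n 40793 z (n 24409 z z)))))) (n 57177 z z)))))) z))))))
 z))))) (n 1218 z (n 0 (n 1218 z (n 2898 z (n 2402 z (n 16217 z (n 0 (n 34 z (n 10 z (n 10 z (n
 48985 z (n 32601 z (n 65369 z z)))))) z))))) (n 0 (n 1720324 z (n 2898 z (n 1410 z (n 3906 z (n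
 0 (n 34 z (n 10 z (n 10 z (n 217 z (n 0 (n 10 z (n 1234 z (n 16601 z (n 49369 z (n 8409 z (n
 24793 z z)))))) (n 0 (n 10 z (n 1234 z (n 57561 z (n 4313 z (n 20697 z (n 53465 z z))))))
 z)))))) z))))) (n 0 (n 0 (n 34 z (n 10 z (n 10 z (n 0 (n 10 z (n 1234 z (n 12505 z (n 45273 z
 (n 28889 z (n 61657 z z)))))) (n 0 (n 10 z (n 1234 z (n 2265 z (n 18649 z (n 0 (n 0 (n 4802 z
 (n 2914 z (n 4802 z (n 4802 z (n 4818 z (n 4802 z z)))))) (n 51417 z (n 10457 z (n 26841 z (n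
 4802 z (n 59609 z z)))))) (n 6361 z z)))))) (n 0 (n 10 z (n 1234 z (n 22745 z (n 55513 z (n 0
 (n 14553 z (n 47321 z (n 30937 z (n 63705 z (n 1241 z (n 17625 z z)))))) (n 50393 z z))))))
 z)))))) (n 2898 z (n 1410 z (n 0 (n 34 z (n 10 z (n 10 z (n 0 (n 10 z (n 1234 z (n 9433 z (n
 25817 z (n 58585 z (n 5337 z z)))))) (n 0 (n 10 z (n 1234 z (n 21721 z (n 54489 z (n 13529 z (n
 46297 z z)))))) (n 0 (n 10 z (n 1234 z (n 29913 z (n 62681 z (n 3289 z (n 19673 z z))))))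
 z)))))) (n 0 (n 34 z (n 10 z (n 10 z (n 52441 z (n 11481 z (n 0 (n 10 z (n 1234 z (n 44249 z (n
 27865 z (n 60633 z (n 7385 z z)))))) z)))))) (n 0 (n 34 z (n 10 z (n 10 z (n 0 (n 10 z (n 1234
 z (n 23769 z (n 56537 z (n 15577 z (n 48345 z z)))))) (n 0 (n 10 z (n 1234 z (n 31961 z (n
 64729 z (n 729 z (n 17113 z z)))))) (n 0 (n 10 z (n 1234 z (n 8921 z (n 25305 z (n 4825 z (n
 21209 z z)))))) z)))))) z)))))) z))))) (n 0 (n 0 (n 3842 z (n 2898 z (n 3842 z (n 3858 z (n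
 3842 z z))))) (n 0 (n 0 (n 34 z (n 10 z (n 10 z (n 13017 z (n 29401 z z))))) (n 2898 z (n 3378
 z (n 3858 z (n 0 (n 34 z (n 10 z (n 10 z (n 62169 z (n 2777 z (n 19161 z z)))))) z))))) (n 0 (n
 0 (n 34 z (n 10 z (n 10 z (n 10969 z (n 27353 z z))))) (n 2898 z (n 2402 z (n 3858 z (n 0 (n 34
 z (n 10 z (n 10 z (n 6873 z (n 23257 z (n 15065 z z)))))) z))))) (n 3842 z (n 0 (n 0 (n 34 z (n
 10 z (n 10 z (n 31449 z (n 0 (n 10 z (n 1234 z (n 10 z (n 64217 z (n 243 z (n 1753 z z)))))) (n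
 18137 z z)))))) (n 2898 z (n 0 (n 34 z (n 10 z (n 10 z (n 9945 z (n 26329 z (n 5849 z z))))))
 (n 3858 z (n 0 (n 34 z (n 10 z (n 10 z (n 22233 z (n 14041 z (n 30425 z z)))))) (n 0 (n 34 z (n
 10 z (n 10 z (n 63193 z (n 0 (n 10 z (n 1234 z (n 10 z (n 3801 z (n 243 z (n 20185 z z)))))) (n
 11993 z z)))))) z)))))) z))))) (n 0 (n 0 (n 0 (n 34 z (n 10 z (n 10 z (n 28377 z (n 7897 z (n
 24281 z z)))))) (n 2898 z (n 0 (n 34 z (n 10 z (n 10 z (n 16089 z (n 32473 z (n 0 (n 10 z (n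
 1234 z (n 10 z (n 65241 z (n 473 z (n 10 z z)))))) z)))))) (n 0 (n 34 z (n 10 z (n 10 z (n
 16857 z (n 8665 z (n 25049 z z)))))) (n 0 (n 34 z (n 10 z (n 10 z (n 57817 z (n 4569 z (n 20953
 z z)))))) (n 0 (n 34 z (n 10 z (n 10 z (n 12761 z (n 29145 z (n 61913 z z)))))) z)))))) (n 0 (n
 0 (n 34 z (n 10 z (n 10 z (n 2521 z (n 18905 z (n 10713 z z)))))) (n 2898 z (n 3378 z (n 0 (n
 34 z (n 10 z (n 10 z (n 27097 z (n 59865 z (n 6617 z z)))))) (n 23001 z (n 0 (n 34 z (n 10 z (n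
 10 z (n 14809 z (n 31193 z (n 63961 z z)))))) z)))))) (n 0 (n 0 (n 34 z (n 10 z (n 10 z (n 1497
 z (n 17881 z (n 0 (n 10 z (n 1234 z (n 10 z (n 9689 z (n 26073 z (n 10 z z)))))) z)))))) (n
 2898 z (n 2402 z (n 0 (n 34 z (n 10 z (n 10 z (n 58841 z (n 5593 z (n 21977 z z)))))) (n 0 (n
 34 z (n 10 z (n 10 z (n 13785 z (n 30169 z (n 62937 z z)))))) (n 0 (n 34 z (n 10 z (n 10 z (n
 3545 z (n 19929 z (n 11737 z z)))))) z)))))) (n 0 (n 0 (n 34 z (n 10 z (n 10 z (n 28121 z (n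
 60889 z (n 7641 z z)))))) (n 2898 z (n 24025 z (n 3906 z (n 15833 z (n 32217 z z)))))) (n 0 (n
 64985 z (n 2898 z (n 985 z (n 33753 z (n 4098 z (n 17369 z z)))))) (n 0 (n 50137 z (n 2898 z (n
 115673 z (n 9177 z (n 41945 z (n 0 (n 34 z (n 10 z (n 10 z (n 0 (n 10 z (n 1234 z (n 10 z (n 10
 z (n 0 (n 10 z (n 10 z (n 10 z (n 10 z (n 10 z (n 715 z z)))))) (n 0 (n 10 z (n 10 z (n 10 z (n
 10 z (n 0 (n 10 z (n 2914 z (n 10 z (n 10 z (n 531 z (n 10 z z)))))) (n 10 z z)))))) z)))))) (n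
 0 (n 10 z (n 1234 z (n 10 z (n 0 (n 10 z (n 10 z (n 10 z (n 10 z (n 10 z (n 0 (n 10 z (n 2914 z
 (n 10 z (n 10 z (n 10 z (n 531 z z)))))) z)))))) (n 10 z (n 0 (n 10 z (n 10 z (n 10 z (n 0 (n
 10 z (n 2914 z (n 10 z (n 531 z (n 10 z (n 10 z z)))))) (n 10 z (n 10 z z)))))) z)))))) (n 0 (n
 10 z (n 1234 z (n 10 z (n 0 (n 10 z (n 10 z (n 10 z (n 10 z (n 0 (n 10 z (n 2914 z (n 10 z (n
 10 z (n 531 z (n 10 z z)))))) (n 10 z z)))))) (n 0 (n 10 z (n 10 z (n 10 z (n 0 (n 10 z (n 2914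
 z (n 10 z (n 531 z (n 10 z (n 10 z z)))))) (n 10 z (n 10 z z)))))) (n 10 z z)))))) z))))))
 z)))))) z)))))) z))))) z)))) z))) (n 0 (n 194 z (n 194 z (n 0 (n 18 z (n 0 (n 18 z (n 18 z (n 0
 (n 210 z (n 210 z (n 427 z (n 0 (n 1728516 z (n 482 z (n 1442 z (n 4530 z (n 0 (n 34 z (n 514 z
 (n 0 (n 25561 z (n 0 (n 1298 z (n 419 z (n 1314 z (n 0 (n 755 z (n 3154 z (n 3154 z (n 0 (n 763
 z (n 2850 z (n 2866 z (n 643 z (n 4786 z (n 1901036 z z)))))) (n 0 (n 763 z (n 2850 z (n 3618 z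
 (n 2642 z (n 643 z (n 1892868 z z)))))) (n 0 (n 763 z (n 2850 z (n 4658 z (n 2642 z (n 1893060
 z (n 643 z z)))))) z)))))) (n 0 (n 755 z (n 3154 z (n 3154 z (n 0 (n 763 z (n 4610 z (n 835 z
 (n 643 z (n 4786 z (n 1901036 z z)))))) (n 0 (n 763 z (n 3602 z (n 3618 z (n 4738 z (n 643 z (n
 1892868 z z)))))) (n 0 (n 763 z (n 4610 z (n 4658 z (n 1901036 z (n 1893060 z (n 643 z z))))))
 z)))))) (n 0 (n 755 z (n 3154 z (n 3154 z (n 0 (n 763 z (n 4610 z (n 4658 z (n 643 z (n 1893060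
 z (n 1901036 z z)))))) (n 0 (n 763 z (n 3602 z (n 3618 z (n 1892868 z (n 643 z (n 1892868 z
 z)))))) (n 0 (n 763 z (n 4610 z (n 4658 z (n 1901036 z (n 1893060 z (n 643 z z)))))) z))))))
 z)))))) (n 1474 z (n 58329 z (n 123865 z (n 5081 z z)))))) (n 0 (n 37849 z (n 21465 z (n 1474 z
 (n 54233 z (n 119769 z (n 13273 z z)))))) (n 0 (n 46041 z (n 29657 z (n 1474 z (n 62425 z (n
 127961 z (n 3033 z z)))))) (n 0 (n 35801 z (n 19417 z (n 1474 z (n 52185 z (n 117721 z (n 11225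
 z z)))))) z)))))) z))))) z)))) (n 0 (n 210 z (n 210 z (n 194 z (n 427 z (n 0 (n 0 (n 34 z (n
 514 z (n 0 (n 43993 z (n 27609 z (n 60377 z (n 125913 z (n 7129 z (n 0 (n 194 z (n 194 z (n 194
 z (n 194 z (n 194 z (n 419 z z)))))) z)))))) (n 0 (n 39897 z (n 23513 z (n 56281 z (n 121817 z
 (n 15321 z (n 48089 z z)))))) (n 194 z (n 0 (n 31705 z (n 64473 z (n 130009 z (n 2009 z (n
 34777 z (n 0 (n 4802 z (n 194 z (n 194 z (n 194 z (n 194 z (n 419 z z)))))) z)))))) z)))))) (n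
 482 z (n 3138 z (n 0 (n 34 z (n 514 z (n 0 (n 18393 z (n 51161 z (n 116697 z (n 10201 z (n
 42969 z (n 26585 z z)))))) (n 0 (n 59353 z (n 124889 z (n 6105 z (n 38873 z (n 22489 z (n 55257
 z z)))))) (n 0 (n 120793 z (n 14297 z (n 47065 z (n 30681 z (n 63449 z (n 128985 z z)))))) (n 0
 (n 4057 z (n 36825 z (n 20441 z (n 53209 z (n 118745 z (n 12249 z z)))))) z)))))) (n 194 z (n 0
 (n 34 z (n 514 z (n 45017 z (n 0 (n 28633 z (n 61401 z (n 126937 z (n 8153 z (n 0 (n 40921 z (n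
 24537 z (n 57305 z (n 122841 z (n 419 z (n 16345 z z)))))) (n 49113 z z)))))) (n 194 z (n 32729
 z z)))))) z)))))) z))))) z)))) (n 0 (n 0 (n 427 z (n 2210 z (n 3890 z (n 0 (n 1554 z (n 2978 z
 (n 3138 z (n 0 (n 34 z (n 10 z (n 65497 z (n 131033 z (n 0 (n 1090 z (n 57 z (n 16441 z (n 8249
 z (n 24633 z (n 57401 z z)))))) z))))) (n 0 (n 34 z (n 10 z (n 0 (n 1090 z (n 4153 z (n 1090 z
 (n 20537 z (n 12345 z (n 28729 z z)))))) (n 0 (n 1090 z (n 61497 z (n 2105 z (n 18489 z (n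
 10297 z (n 26681 z z)))))) (n 0 (n 1090 z (n 59449 z (n 6201 z (n 22585 z (n 14393 z (n 30777 z
 z)))))) (n 0 (n 1090 z (n 63545 z (n 1081 z (n 17465 z (n 9273 z (n 25657 z z)))))) z))))))
 z))))) z)))) (n 0 (n 1250 z (n 427 z (n 1266 z (n 0 (n 747 z (n 3138 z (n 3138 z (n 0 (n 34 z
 (n 10 z (n 58425 z (n 5177 z (n 0 (n 21561 z (n 1282 z (n 13369 z (n 29753 z (n 62521 z (n 3129
 z z)))))) z))))) (n 0 (n 34 z (n 10 z (n 19513 z (n 0 (n 11321 z (n 1282 z (n 27705 z (n 60473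
 z (n 7225 z (n 23609 z z)))))) (n 0 (n 15417 z (n 1282 z (n 31801 z (n 64569 z (n 569 z (n
 16953 z z)))))) (n 0 (n 8761 z (n 1282 z (n 25145 z (n 57913 z (n 4665 z (n 21049 z z))))))
 z)))))) z))))) z)))) (n 0 (n 3842 z (n 2226 z (n 427 z (n 0 (n 1634 z (n 1458 z (n 1442 z (n
 4530 z (n 0 (n 34 z (n 10 z (n 12857 z (n 0 (n 29241 z (n 62009 z (n 1474 z (n 2617 z (n 19001
 z (n 10809 z z)))))) (n 0 (n 27193 z (n 59961 z (n 1474 z (n 6713 z (n 23097 z (n 14905 z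
 z)))))) (n 0 (n 31289 z (n 64057 z (n 1474 z (n 1593 z (n 17977 z (n 9785 z z)))))) z))))))
 z))))) z)))) (n 0 (n 194 z (n 194 z (n 194 z (n 427 z (n 0 (n 1736708 z (n 3122 z (n 3138 z (n
 0 (n 34 z (n 10 z (n 26169 z (n 0 (n 58937 z (n 5689 z (n 22073 z (n 13881 z (n 30265 z (n
 63033 z z)))))) (n 0 (n 3641 z (n 20025 z (n 11833 z (n 28217 z (n 60985 z (n 7737 z z)))))) (n
 0 (n 24121 z (n 15929 z (n 32313 z (n 65081 z (n 313 z (n 33081 z z)))))) z)))))) (n 194 z (n 0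
 (n 34 z (n 10 z (n 16697 z (n 0 (n 49465 z (n 8505 z (n 41273 z (n 24889 z (n 57657 z (n 4409 z
 z)))))) (n 194 z (n 0 (n 37177 z (n 20793 z (n 53561 z (n 12601 z (n 45369 z (n 0 (n 4802 z (n
 194 z (n 194 z (n 194 z (n 194 z (n 419 z z)))))) z)))))) z)))))) z)))))) z))))) z)))) (n 0 (n
 0 (n 427 z (n 2210 z (n 0 (n 4482 z (n 2418 z (n 2402 z (n 1744900 z (n 0 (n 34 z (n 10 z (n 10
 z (n 28985 z (n 61753 z (n 2361 z z)))))) z))))) (n 3890 z (n 0 (n 3122 z (n 3122 z (n 3138 z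
 (n 0 (n 34 z (n 10 z (n 10 z (n 35129 z (n 0 (n 1090 z (n 18745 z (n 51513 z (n 10553 z (n
 43321 z (n 26937 z z)))))) (n 59705 z z)))))) (n 0 (n 34 z (n 10 z (n 10 z (n 6457 z (n 39225 z
 (n 22841 z z)))))) (n 0 (n 34 z (n 10 z (n 10 z (n 55609 z (n 14649 z (n 47417 z z))))))
 z)))))) z))))) (n 0 (n 1250 z (n 427 z (n 1266 z (n 0 (n 3122 z (n 3138 z (n 3138 z (n 3906 z
 (n 31033 z z))))) (n 0 (n 3122 z (n 3138 z (n 3138 z (n 63801 z (n 3122 z (n 1337 z z))))))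
 z))))) (n 0 (n 194 z (n 2226 z (n 427 z (n 0 (n 3122 z (n 1458 z (n 1442 z (n 3906 z (n 3122 z
 z))))) (n 0 (n 3122 z (n 1458 z (n 1442 z (n 3122 z (n 4530 z (n 3122 z z)))))) z))))) (n 0 (n
 3842 z (n 194 z (n 194 z (n 427 z (n 0 (n 3122 z (n 3122 z (n 3138 z (n 3858 z (n 34105 z (n
 17721 z z)))))) z))))) (n 0 (n 194 z (n 194 z (n 194 z (n 194 z (n 427 z (n 0 (n 3122 z (n 3122
 z (n 3138 z (n 50489 z (n 3122 z (n 3314 z z)))))) z)))))) z))))) z)))) (n 0 (n 18 z (n 0 (n 18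
 z (n 18 z (n 0 (n 210 z (n 210 z (n 18 z (n 651 z (n 0 (n 482 z (n 482 z (n 1442 z (n 0 (n 34 z
 (n 514 z (n 0 (n 9529 z (n 0 (n 1298 z (n 1298 z (n 0 (n 755 z (n 1794 z (n 4866 z (n 3394 z (n
 0 (n 763 z (n 1810 z (n 4882 z (n 3586 z (n 643 z (n 1901036 z z)))))) (n 0 (n 763 z (n 1810 z
 (n 4882 z (n 1893060 z (n 1330 z (n 643 z z)))))) z)))))) (n 0 (n 755 z (n 2802 z (n 3698 z (n
 2450 z (n 2482 z (n 0 (n 763 z (n 4610 z (n 4658 z (n 1893060 z (n 4402 z (n 643 z z))))))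
 z)))))) (n 0 (n 755 z (n 3650 z (n 3698 z (n 3394 z (n 3394 z (n 0 (n 763 z (n 2850 z (n 4658 z
 (n 2674 z (n 2642 z (n 643 z z)))))) z)))))) (n 0 (n 755 z (n 3650 z (n 3698 z (n 3394 z (n 0
 (n 763 z (n 4610 z (n 4658 z (n 3586 z (n 643 z (n 3394 z z)))))) (n 0 (n 763 z (n 4610 z (n
 4658 z (n 5506 z (n 1901036 z (n 643 z z)))))) z)))))) z)))))) (n 1474 z (n 42297 z (n 25913 z
 (n 58681 z z)))))) (n 0 (n 5433 z (n 38201 z (n 1474 z (n 21817 z (n 54585 z (n 13625 z z))))))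
 (n 0 (n 46393 z (n 30009 z (n 1474 z (n 62777 z (n 3385 z (n 36153 z z)))))) (n 0 (n 19769 z (n
 52537 z (n 1474 z (n 11577 z (n 44345 z (n 27961 z z)))))) z)))))) (n 18 z (n 0 (n 34 z (n 514
 z (n 60729 z (n 0 (n 7481 z (n 40249 z (n 1474 z (n 23865 z (n 56633 z (n 15673 z z)))))) (n 18
 z (n 48441 z z)))))) z)))))) z))))) (n 0 (n 210 z (n 210 z (n 0 (n 1753092 z (n 803 z (n 3522 z
 (n 3570 z (n 0 (n 34 z (n 514 z (n 0 (n 32057 z (n 64825 z (n 825 z (n 33593 z (n 17209 z (n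
 49977 z z)))))) (n 18 z (n 9017 z (n 41785 z z)))))) z))))) (n 18 z (n 0 (n 1761284 z (n 482 z
 (n 0 (n 34 z (n 514 z (n 0 (n 25401 z (n 58169 z (n 123705 z (n 4921 z (n 37689 z (n 21305 z
 z)))))) (n 0 (n 54073 z (n 13113 z (n 45881 z (n 29497 z (n 62265 z (n 127801 z z)))))) (n 0 (n
 2873 z (n 35641 z (n 19257 z (n 52025 z (n 11065 z (n 43833 z z)))))) (n 0 (n 27449 z (n 60217
 z (n 125753 z (n 6969 z (n 39737 z (n 23353 z z)))))) z)))))) (n 0 (n 34 z (n 514 z (n 0 (n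
 56121 z (n 15161 z (n 47929 z (n 31545 z (n 64313 z (n 129849 z z)))))) (n 1849 z (n 210 z (n 0
 (n 34617 z (n 18233 z (n 51001 z (n 10041 z (n 42809 z (n 0 (n 4802 z (n 210 z (n 210 z (n 210
 z (n 210 z (n 4802 z z)))))) z)))))) z)))))) (n 210 z (n 0 (n 34 z (n 514 z (n 0 (n 26425 z (n
 59193 z (n 124729 z (n 5945 z (n 0 (n 38713 z (n 22329 z (n 55097 z (n 14137 z (n 46905 z (n
 30521 z z)))))) (n 0 (n 63289 z (n 128825 z (n 3897 z (n 36665 z (n 20281 z (n 53049 z z))))))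
 z)))))) (n 0 (n 12089 z (n 44857 z (n 28473 z (n 61241 z (n 126777 z (n 7993 z z)))))) (n 210 z
 (n 0 (n 40761 z (n 24377 z (n 57145 z (n 16185 z (n 48953 z (n 0 (n 4802 z (n 210 z (n 210 z (n
 210 z (n 210 z (n 4802 z z)))))) z)))))) z)))))) z)))))) z))))) (n 0 (n 210 z (n 210 z (n 18 z
 (n 194 z (n 18 z (n 0 (n 0 (n 34 z (n 514 z (n 0 (n 32569 z (n 65337 z (n 130873 z (n 185 z (n
 16569 z (n 49337 z z)))))) (n 194 z (n 18 z (n 18 z z)))))) (n 482 z (n 0 (n 34 z (n 514 z (n 0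
 (n 8377 z (n 41145 z (n 24761 z (n 57529 z (n 4281 z (n 37049 z z)))))) (n 0 (n 20665 z (n
 53433 z (n 12473 z (n 45241 z (n 28857 z (n 61625 z z)))))) (n 0 (n 2233 z (n 35001 z (n 18617
 z (n 51385 z (n 10425 z (n 43193 z z)))))) (n 0 (n 26809 z (n 59577 z (n 6329 z (n 39097 z (n
 22713 z (n 55481 z z)))))) z)))))) (n 194 z (n 18 z (n 18 z z)))))) z)))))) z))))) (n 0 (n 0 (n
 0 (n 4098 z (n 363 z (n 1554 z (n 1769476 z (n 0 (n 34 z (n 10 z (n 0 (n 1090 z (n 14521 z (n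
 1090 z (n 47289 z (n 30905 z (n 63673 z z)))))) (n 1209 z (n 33977 z (n 17593 z z)))))) z)))))
 (n 2210 z (n 3890 z (n 0 (n 1554 z (n 1074 z (n 1554 z (n 2402 z (n 0 (n 34 z (n 10 z (n 0 (n
 1090 z (n 50361 z (n 1090 z (n 9401 z (n 42169 z (n 25785 z z)))))) (n 0 (n 1090 z (n 58553 z
 (n 1082 z (n 5305 z (n 38073 z (n 21689 z z)))))) (n 0 (n 1090 z (n 54457 z (n 1082 z (n 13497
 z (n 46265 z (n 29881 z z)))))) (n 0 (n 1090 z (n 62649 z (n 1082 z (n 3257 z (n 36025 z (n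
 19641 z z)))))) z)))))) z))))) (n 0 (n 1554 z (n 1074 z (n 1554 z (n 0 (n 34 z (n 10 z (n 0 (n
 1090 z (n 52409 z (n 1090 z (n 11449 z (n 44217 z (n 27833 z z)))))) (n 0 (n 1090 z (n 1074 z
 (n 1082 z (n 60601 z (n 7353 z (n 40121 z z)))))) (n 0 (n 1090 z (n 1074 z (n 1082 z (n 1074 z
 (n 23737 z (n 56505 z z)))))) (n 15545 z z)))))) (n 1074 z (n 0 (n 34 z (n 10 z (n 0 (n 1090 z
 (n 48313 z (n 1090 z (n 31929 z (n 64697 z (n 697 z z)))))) (n 0 (n 1090 z (n 1074 z (n 1082 z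
 (n 17081 z (n 49849 z (n 8889 z z)))))) (n 0 (n 1090 z (n 1074 z (n 1082 z (n 41657 z (n 25273
 z (n 1074 z z)))))) (n 58041 z z)))))) z)))))) z))))) (n 0 (n 1250 z (n 1250 z (n 0 (n 747 z (n
 1602 z (n 3906 z (n 1266 z (n 0 (n 34 z (n 10 z (n 4793 z (n 0 (n 21177 z (n 1282 z (n 1274 z
 (n 53945 z (n 12985 z (n 45753 z z)))))) (n 0 (n 29369 z (n 1282 z (n 1274 z (n 62137 z (n 2745
 z (n 19129 z z)))))) (n 0 (n 51897 z (n 1282 z (n 1274 z (n 10937 z (n 43705 z (n 27321 z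
 z)))))) z)))))) z))))) (n 0 (n 747 z (n 2610 z (n 3506 z (n 2402 z (n 0 (n 34 z (n 10 z (n
 60089 z (n 0 (n 6841 z (n 1282 z (n 39609 z (n 23225 z (n 55993 z (n 15033 z z)))))) (n 0 (n
 47801 z (n 1282 z (n 31417 z (n 64185 z (n 1721 z (n 18105 z z)))))) (n 0 (n 50873 z (n 1282 z
 (n 9913 z (n 42681 z (n 26297 z (n 59065 z z)))))) z)))))) z))))) (n 0 (n 747 z (n 3458 z (n
 3506 z (n 0 (n 34 z (n 10 z (n 5817 z (n 22201 z (n 0 (n 54969 z (n 1282 z (n 14009 z (n 46777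
 z (n 30393 z (n 63161 z z)))))) (n 0 (n 3769 z (n 1282 z (n 20153 z (n 52921 z (n 11961 z (n
 44729 z z)))))) z)))))) (n 0 (n 34 z (n 10 z (n 28345 z (n 0 (n 61113 z (n 1282 z (n 7865 z (n
 40633 z (n 24249 z (n 57017 z z)))))) (n 16057 z (n 0 (n 48825 z (n 1282 z (n 32441 z (n 0 (n
 65209 z (n 441 z (n 16825 z (n 49593 z (n 8633 z (n 41401 z z)))))) (n 25017 z (n 57785 z
 z)))))) z)))))) (n 0 (n 34 z (n 10 z (n 4537 z (n 0 (n 37305 z (n 1282 z (n 20921 z (n 53689 z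
 (n 12729 z (n 45497 z z)))))) (n 0 (n 29113 z (n 1282 z (n 61881 z (n 2489 z (n 35257 z (n
 18873 z z)))))) (n 0 (n 51641 z (n 1282 z (n 10681 z (n 43449 z (n 27065 z (n 59833 z z))))))
 z)))))) z)))))) z))))) (n 0 (n 3842 z (n 0 (n 1634 z (n 1650 z (n 1442 z (n 6585 z (n 0 (n 34 z
 (n 10 z (n 0 (n 1138 z (n 10 z (n 1474 z (n 39353 z (n 22969 z (n 55737 z z)))))) (n 0 (n 14777
 z (n 0 (n 1298 z (n 1298 z (n 1330 z (n 47545 z (n 31161 z (n 63929 z z)))))) (n 1474 z (n 1465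
 z (n 34233 z (n 17849 z z)))))) (n 0 (n 50617 z (n 9657 z (n 1474 z (n 42425 z (n 26041 z (n
 58809 z z)))))) (n 0 (n 5561 z (n 38329 z (n 1474 z (n 21945 z (n 54713 z (n 13753 z z))))))
 z)))))) z))))) (n 3842 z (n 0 (n 1634 z (n 3458 z (n 1442 z (n 2402 z (n 0 (n 34 z (n 10 z (n
 46521 z (n 30137 z (n 0 (n 62905 z (n 3513 z (n 1474 z (n 36281 z (n 19897 z (n 52665 z z))))))
 (n 11705 z z)))))) z))))) (n 0 (n 1634 z (n 3458 z (n 1442 z (n 0 (n 34 z (n 10 z (n 44473 z (n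
 28089 z (n 0 (n 60857 z (n 7609 z (n 1474 z (n 40377 z (n 23993 z (n 56761 z z)))))) (n 0 (n
 15801 z (n 48569 z (n 1474 z (n 32185 z (n 0 (n 64953 z (n 953 z (n 33721 z (n 17337 z (n 50105
 z (n 115641 z z)))))) (n 9145 z z)))))) z)))))) (n 0 (n 34 z (n 10 z (n 41913 z (n 0 (n 0 (n
 202 z (n 2258 z (n 25529 z (n 4850 z (n 58297 z (n 123833 z z)))))) (n 5049 z (n 1474 z (n
 37817 z (n 21433 z (n 54201 z z)))))) (n 0 (n 119737 z (n 13241 z (n 1474 z (n 46009 z (n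
 111545 z (n 29625 z z)))))) (n 0 (n 62393 z (n 127929 z (n 1474 z (n 3001 z (n 35769 z (n 19385
 z z)))))) z)))))) (n 0 (n 34 z (n 10 z (n 0 (n 1138 z (n 10 z (n 1474 z (n 52153 z (n 117689 z
 (n 11193 z z)))))) (n 0 (n 43961 z (n 27577 z (n 1474 z (n 60345 z (n 125881 z (n 7097 z
 z)))))) (n 0 (n 39865 z (n 23481 z (n 1474 z (n 56249 z (n 121785 z (n 15289 z z)))))) (n 0 (n
 48057 z (n 113593 z (n 1474 z (n 31673 z (n 0 (n 64441 z (n 129977 z (n 1977 z (n 34745 z (n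
 18361 z (n 51129 z z)))))) (n 116665 z z)))))) z)))))) z)))))) z))))) (n 0 (n 0 (n 1777668 z (n
 0 (n 34 z (n 10 z (n 10169 z (n 42937 z (n 0 (n 26553 z (n 59321 z (n 124857 z (n 6073 z (n
 38841 z (n 22457 z z)))))) z))))) (n 0 (n 34 z (n 10 z (n 55225 z (n 120761 z (n 0 (n 14265 z
 (n 47033 z (n 112569 z (n 30649 z (n 63417 z (n 128953 z z)))))) z))))) (n 4130 z (n 0 (n 34 z
 (n 10 z (n 0 (n 10 z (n 10 z (n 10 z (n 4025 z (n 36793 z (n 20409 z z)))))) (n 0 (n 53177 z (n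
 118713 z (n 12217 z (n 44985 z (n 28601 z (n 61369 z z)))))) (n 0 (n 126905 z (n 8121 z (n
 40889 z (n 24505 z (n 57273 z (n 0 (n 2050 z (n 122809 z (n 16313 z (n 49081 z (n 114617 z (n
 32697 z z)))))) z)))))) (n 0 (n 65465 z (n 131001 z (n 121 z (n 32889 z (n 0 (n 2050 z (n 16505
 z (n 49273 z (n 8313 z (n 41081 z (n 24697 z z)))))) (n 57465 z z)))))) z)))))) z))))) (n 0 (n
 1785860 z (n 2562 z (n 2226 z (n 2562 z (n 0 (n 34 z (n 10 z (n 0 (n 10 z (n 10 z (n 10 z (n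
 4217 z (n 36985 z (n 20601 z z)))))) (n 0 (n 53369 z (n 12409 z (n 45177 z (n 28793 z (n 61561
 z (n 127097 z z)))))) (n 0 (n 2169 z (n 34937 z (n 18553 z (n 51321 z (n 10361 z (n 43129 z
 z)))))) (n 0 (n 26745 z (n 59513 z (n 6265 z (n 39033 z (n 0 (n 22649 z (n 2242 z (n 55417 z (n
 2234 z (n 14457 z (n 47225 z z)))))) (n 30841 z z)))))) z)))))) z))))) (n 0 (n 4242 z (n 803 z
 (n 3906 z (n 3570 z (n 0 (n 34 z (n 10 z (n 63609 z (n 129145 z (n 0 (n 1145 z (n 33913 z (n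
 17529 z (n 50297 z (n 9337 z (n 42105 z z)))))) (n 0 (n 25721 z (n 58489 z (n 5241 z (n 38009 z
 (n 21625 z (n 54393 z z)))))) z)))))) z))))) (n 0 (n 2402 z (n 2610 z (n 3522 z (n 2402 z (n 0
 (n 34 z (n 10 z (n 13433 z (n 46201 z (n 0 (n 29817 z (n 62585 z (n 128121 z (n 3193 z (n 35961
 z (n 19577 z z)))))) (n 0 (n 52345 z (n 11385 z (n 44153 z (n 27769 z (n 60537 z (n 126073 z
 z)))))) z)))))) z))))) (n 0 (n 0 (n 34 z (n 10 z (n 7289 z (n 0 (n 40057 z (n 23673 z (n 0 (n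
 202 z (n 202 z (n 202 z (n 202 z (n 0 (n 0 (n 763 z (n 1834 z (n 3810 z (n 4658 z (n 2642 z (n
 1795884 z z)))))) (n 0 (n 763 z (n 1863268 z (n 4610 z (n 4658 z (n 2642 z (n 1877468 z z))))))
 (n 1490 z (n 0 (n 763 z (n 1522 z (n 1858 z (n 4930 z (n 2642 z (n 1795572 z z)))))) (n 0 (n
 763 z (n 5482 z (n 4610 z (n 2866 z (n 2642 z (n 1934836 z z)))))) (n 0 (n 763 z (n 1918452 z
 (n 4610 z (n 4658 z (n 2642 z (n 1877828 z z)))))) z)))))) (n 0 (n 0 (n 763 z (n 1834 z (n 3810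
 z (n 4658 z (n 1795884 z (n 1795884 z z)))))) (n 0 (n 763 z (n 1863268 z (n 4610 z (n 4658 z (n
 1877468 z (n 1877468 z z)))))) (n 1490 z (n 0 (n 763 z (n 1522 z (n 1858 z (n 4930 z (n 1795572
 z (n 1795572 z z)))))) (n 0 (n 763 z (n 1918452 z (n 4610 z (n 4658 z (n 1877828 z (n 1934836 z
 z)))))) (n 0 (n 763 z (n 1918452 z (n 4610 z (n 4658 z (n 1934836 z (n 5314 z z)))))) z))))))
 z)))))) (n 56441 z (n 15481 z (n 48249 z z)))))) (n 0 (n 31865 z (n 64633 z (n 130169 z (n 633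
 z (n 17017 z (n 49785 z z)))))) (n 0 (n 8825 z (n 41593 z (n 25209 z (n 57977 z (n 4729 z (n
 21113 z z)))))) z)))))) (n 0 (n 34 z (n 10 z (n 53881 z (n 12921 z (n 45689 z (n 0 (n 29305 z
 (n 62073 z (n 2681 z (n 19065 z (n 51833 z (n 10873 z z)))))) z)))))) (n 0 (n 34 z (n 10 z (n
 43641 z (n 27257 z (n 0 (n 60025 z (n 6777 z (n 39545 z (n 23161 z (n 55929 z (n 14969 z
 z)))))) (n 0 (n 47737 z (n 31353 z (n 64121 z (n 1657 z (n 18041 z (n 50809 z z)))))) z))))))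
 (n 0 (n 34 z (n 10 z (n 9849 z (n 42617 z (n 0 (n 26233 z (n 59001 z (n 5753 z (n 22137 z (n
 54905 z (n 13945 z z)))))) (n 0 (n 46713 z (n 30329 z (n 63097 z (n 3705 z (n 20089 z (n 52857
 z z)))))) z)))))) (n 0 (n 34 z (n 10 z (n 11897 z (n 44665 z (n 0 (n 28281 z (n 61049 z (n 7801
 z (n 40569 z (n 24185 z (n 56953 z z)))))) (n 15993 z z)))))) (n 0 (n 34 z (n 10 z (n 48761 z
 (n 32377 z (n 0 (n 65145 z (n 377 z (n 16761 z (n 49529 z (n 8569 z (n 41337 z z)))))) (n 0 (n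
 24953 z (n 57721 z (n 4473 z (n 37241 z (n 20857 z (n 53625 z z)))))) z)))))) z)))))) z))))) (n
 0 (n 0 (n 0 (n 34 z (n 10 z (n 12665 z (n 0 (n 45433 z (n 29049 z (n 61817 z (n 2425 z (n 18809
 z (n 51577 z z)))))) (n 10617 z (n 43385 z z)))))) (n 0 (n 34 z (n 10 z (n 27001 z (n 59769 z
 (n 6521 z (n 39289 z z)))))) (n 0 (n 34 z (n 10 z (n 22905 z (n 55673 z (n 0 (n 14713 z (n
 47481 z (n 31097 z (n 63865 z (n 1401 z (n 17785 z z)))))) (n 0 (n 50553 z (n 9593 z (n 42361 z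
 (n 25977 z (n 58745 z (n 5497 z z)))))) z)))))) (n 0 (n 34 z (n 10 z (n 38265 z (n 21881 z (n 0
 (n 54649 z (n 13689 z (n 46457 z (n 30073 z (n 62841 z (n 3449 z z)))))) (n 0 (n 36217 z (n
 19833 z (n 52601 z (n 11641 z (n 44409 z (n 28025 z z)))))) z)))))) (n 4130 z (n 0 (n 34 z (n
 10 z (n 60793 z (n 7545 z (n 0 (n 40313 z (n 23929 z (n 56697 z (n 15737 z (n 48505 z (n 32121
 z z)))))) (n 0 (n 64889 z (n 889 z (n 33657 z (n 17273 z (n 50041 z (n 9081 z z)))))) z))))))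
 z)))))) (n 0 (n 1794052 z (n 0 (n 34 z (n 10 z (n 41849 z (n 25465 z (n 58233 z (n 0 (n 123769
 z (n 4985 z (n 37753 z (n 21369 z (n 54137 z (n 119673 z z)))))) z)))))) (n 0 (n 34 z (n 10 z
 (n 13177 z (n 45945 z (n 0 (n 29561 z (n 62329 z (n 0 (n 0 (n 1490 z (n 0 (n 763 z (n 4450 z (n
 371 z (n 4442 z (n 4210 z (n 1845276 z z)))))) (n 1490 z (n 0 (n 763 z (n 3962 z (n 467 z (n
 5538 z (n 4210 z (n 1845276 z z)))))) (n 1522 z (n 0 (n 763 z (n 3962 z (n 467 z (n 1845276 z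
 (n 4210 z (n 5538 z z)))))) z)))))) (n 2242 z (n 0 (n 1490 z (n 1842 z (n 1490 z (n 3762 z (n
 1522 z (n 0 (n 763 z (n 5266 z (n 467 z (n 1867996 z (n 4210 z (n 5538 z z)))))) z)))))) (n 0
 (n 0 (n 763 z (n 3962 z (n 467 z (n 4442 z (n 4210 z (n 1834 z z)))))) (n 1506 z (n 1490 z (n
 2450 z (n 1522 z (n 0 (n 763 z (n 3962 z (n 467 z (n 1884380 z (n 4210 z (n 5538 z z))))))
 z)))))) (n 0 (n 0 (n 763 z (n 2578 z (n 467 z (n 2586 z (n 4882 z (n 1834 z z)))))) (n 0 (n 763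
 z (n 2578 z (n 467 z (n 1850 z (n 4882 z (n 1850 z z)))))) (n 1490 z (n 0 (n 763 z (n 2578 z (n
 467 z (n 5538 z (n 4882 z (n 1804820 z z)))))) (n 4866 z (n 0 (n 763 z (n 2578 z (n 467 z (n
 2586 z (n 4882 z (n 5538 z z)))))) z)))))) (n 0 (n 0 (n 763 z (n 3962 z (n 467 z (n 4442 z (n
 4210 z (n 1834 z z)))))) (n 0 (n 763 z (n 4450 z (n 467 z (n 4442 z (n 4210 z (n 1884380 z
 z)))))) (n 1490 z (n 0 (n 763 z (n 3962 z (n 467 z (n 5538 z (n 4210 z (n 1884380 z z)))))) (n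
 1522 z (n 0 (n 763 z (n 3962 z (n 467 z (n 5514 z (n 4210 z (n 5314 z z)))))) z)))))) z))))))
 (n 127865 z (n 2937 z (n 35705 z z)))))) (n 19321 z z)))))) (n 0 (n 34 z (n 10 z (n 52089 z (n
 117625 z (n 11129 z (n 43897 z z)))))) (n 0 (n 34 z (n 10 z (n 27513 z (n 60281 z (n 0 (n
 125817 z (n 7033 z (n 39801 z (n 23417 z (n 56185 z (n 121721 z z)))))) (n 0 (n 15225 z (n
 47993 z (n 31609 z (n 64377 z (n 129913 z (n 1913 z z)))))) z)))))) (n 0 (n 34 z (n 10 z (n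
 34681 z (n 18297 z (n 0 (n 51065 z (n 10105 z (n 42873 z (n 26489 z (n 59257 z (n 124793 z
 z)))))) (n 0 (n 6009 z (n 38777 z (n 22393 z (n 55161 z (n 120697 z (n 14201 z z)))))) z))))))
 z)))))) (n 0 (n 0 (n 34 z (n 10 z (n 46969 z (n 30585 z (n 63353 z (n 128889 z z)))))) (n 0 (n
 34 z (n 10 z (n 3961 z (n 36729 z (n 20345 z (n 0 (n 53113 z (n 118649 z (n 12153 z (n 44921 z
 (n 28537 z (n 61305 z z)))))) z)))))) (n 3906 z (n 3378 z (n 4130 z (n 0 (n 34 z (n 10 z (n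
 126841 z (n 8057 z (n 40825 z (n 0 (n 24441 z (n 57209 z (n 122745 z (n 16249 z (n 49017 z (n
 32633 z z)))))) z)))))) z)))))) (n 0 (n 2402 z (n 0 (n 34 z (n 10 z (n 65401 z (n 130937 z (n
 249 z (n 16633 z z)))))) (n 0 (n 34 z (n 10 z (n 49401 z (n 8441 z (n 24825 z (n 57593 z
 z)))))) (n 2402 z (n 0 (n 34 z (n 10 z (n 4345 z (n 20729 z (n 53497 z (n 12537 z z)))))) (n 0
 (n 34 z (n 10 z (n 28921 z (n 61689 z (n 2297 z (n 18681 z z)))))) z)))))) (n 0 (n 0 (n 34 z (n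
 10 z (n 51449 z (n 10489 z (n 26873 z (n 59641 z z)))))) (n 6393 z (n 0 (n 34 z (n 10 z (n
 22777 z (n 55545 z (n 14585 z (n 30969 z z)))))) (n 0 (n 34 z (n 10 z (n 63737 z (n 1273 z (n
 17657 z (n 50425 z z)))))) (n 4098 z (n 9465 z z)))))) (n 0 (n 0 (n 34 z (n 10 z (n 25849 z (n
 58617 z (n 5369 z (n 21753 z z)))))) (n 54521 z (n 0 (n 34 z (n 10 z (n 0 (n 10 z (n 10 z (n 10
 z (n 10 z (n 0 (n 10 z (n 10 z (n 10 z (n 10 z (n 10 z (n 715 z z)))))) (n 0 (n 10 z (n 10 z (n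
 10 z (n 10 z (n 0 (n 10 z (n 3058 z (n 3202 z (n 0 (n 722 z (n 819 z (n 722 z (n 5714 z (n 4674
 z (n 4722 z z)))))) (n 0 (n 722 z (n 819 z (n 722 z (n 3546 z (n 5314 z (n 4722 z z)))))) (n 0
 (n 722 z (n 819 z (n 722 z (n 1881436 z (n 4674 z (n 5122 z z)))))) z)))))) (n 10 z z))))))
 z)))))) (n 13561 z (n 29945 z (n 62713 z z)))))) (n 0 (n 34 z (n 10 z (n 0 (n 10 z (n 10 z (n
 10 z (n 10 z (n 0 (n 10 z (n 10 z (n 10 z (n 10 z (n 10 z (n 715 z z)))))) (n 0 (n 10 z (n 10 z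
 (n 10 z (n 10 z (n 0 (n 10 z (n 10 z (n 10 z (n 3394 z (n 0 (n 722 z (n 819 z (n 722 z (n 5506
 z (n 5314 z (n 4722 z z)))))) (n 0 (n 722 z (n 819 z (n 722 z (n 3586 z (n 4674 z (n 5122 z
 z)))))) z)))))) (n 10 z z)))))) z)))))) (n 3321 z (n 19705 z (n 0 (n 0 (n 52473 z (n 2258 z (n
 11513 z (n 27897 z (n 60665 z (n 4850 z z)))))) (n 7417 z (n 23801 z (n 56569 z (n 15609 z (n
 31993 z z)))))) z)))))) (n 64761 z (n 761 z z)))))) z)))))) z))))) (n 194 z (n 0 (n 0 (n 0 (n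
 4098 z (n 363 z (n 0 (n 34 z (n 10 z (n 10 z (n 10 z (n 17145 z (n 8953 z z)))))) (n 194 z (n
 25337 z (n 58105 z z)))))) (n 2210 z (n 0 (n 4857 z (n 21241 z (n 0 (n 34 z (n 10 z (n 10 z (n
 10 z (n 13049 z (n 0 (n 1090 z (n 29433 z (n 62201 z (n 2809 z (n 19193 z (n 11001 z z))))))
 z)))))) (n 3378 z (n 0 (n 34 z (n 10 z (n 10 z (n 10 z (n 27385 z (n 60153 z z)))))) (n 6905 z
 z)))))) (n 0 (n 2402 z (n 2418 z (n 0 (n 34 z (n 10 z (n 10 z (n 10 z (n 0 (n 1090 z (n 23289 z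
 (n 15097 z (n 31481 z (n 1090 z (n 64249 z z)))))) (n 0 (n 1090 z (n 1785 z (n 18169 z (n 9977
 z (n 26361 z (n 59129 z z)))))) z)))))) (n 2402 z (n 0 (n 34 z (n 10 z (n 10 z (n 10 z (n 5881
 z (n 22265 z z)))))) (n 14073 z z)))))) (n 3890 z (n 0 (n 30457 z (n 63225 z (n 3833 z (n 20217
 z (n 12025 z (n 28409 z z)))))) z)))))) (n 0 (n 1250 z (n 1250 z (n 0 (n 1266 z (n 1602 z (n
 1602 z (n 1266 z (n 3938 z (n 61177 z z)))))) (n 0 (n 2402 z (n 2610 z (n 7929 z (n 2402 z (n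
 24313 z (n 57081 z z)))))) (n 0 (n 3906 z (n 16121 z (n 3170 z (n 32505 z (n 3906 z (n 65273 z
 z)))))) (n 0 (n 505 z (n 16889 z (n 49657 z (n 8697 z (n 41465 z (n 25081 z z)))))) z)))))) (n
 0 (n 194 z (n 194 z (n 0 (n 1442 z (n 1650 z (n 1442 z (n 3570 z (n 57849 z (n 4601 z z))))))
 (n 0 (n 1442 z (n 1458 z (n 1442 z (n 2402 z (n 37369 z (n 20985 z z)))))) (n 0 (n 1442 z (n
 1458 z (n 1442 z (n 53753 z (n 3906 z (n 12793 z z)))))) (n 0 (n 1442 z (n 1458 z (n 1442 z (n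
 45561 z (n 29177 z (n 61945 z z)))))) z)))))) (n 0 (n 194 z (n 194 z (n 0 (n 2553 z (n 803 z (n
 3522 z (n 3570 z (n 18937 z (n 51705 z z)))))) (n 194 z (n 0 (n 3906 z (n 1802244 z (n 3186 z
 (n 10745 z (n 3906 z (n 43513 z z)))))) (n 0 (n 27129 z (n 59897 z (n 3186 z (n 6649 z (n 39417
 z (n 0 (n 34 z (n 10 z (n 10 z (n 10 z (n 0 (n 10 z (n 10 z (n 10 z (n 0 (n 202 z (n 202 z (n
 10 z (n 202 z (n 10 z (n 715 z z)))))) (n 0 (n 4802 z (n 202 z (n 202 z (n 202 z (n 4802 z (n 0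
 (n 4818 z (n 0 (n 914 z (n 946 z (n 4346 z (n 2674 z (n 722 z (n 2642 z z)))))) (n 0 (n 914 z
 (n 2666 z (n 5746 z (n 2674 z (n 722 z (n 2642 z z)))))) (n 3442 z (n 4818 z (n 699 z z))))))
 z)))))) (n 0 (n 202 z (n 202 z (n 0 (n 202 z (n 202 z (n 202 z (n 3426 z (n 202 z (n 0 (n 722 z
 (n 754 z (n 3810 z (n 3634 z (n 722 z (n 3602 z z)))))) z)))))) (n 202 z (n 0 (n 4866 z (n 0 (n
 930 z (n 946 z (n 4346 z (n 4194 z (n 722 z (n 4354 z z)))))) (n 0 (n 930 z (n 3250 z (n 3730 z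
 (n 3250 z (n 722 z (n 4354 z z)))))) (n 0 (n 930 z (n 4346 z (n 827 z (n 4546 z (n 722 z (n
 4354 z z)))))) (n 4866 z (n 0 (n 930 z (n 754 z (n 3810 z (n 3634 z (n 722 z (n 3602 z z))))))
 z)))))) (n 0 (n 0 (n 5746 z (n 2850 z (n 4346 z (n 2674 z (n 722 z (n 2642 z z)))))) (n 0 (n
 738 z (n 946 z (n 4346 z (n 2674 z (n 722 z (n 2642 z z)))))) (n 0 (n 738 z (n 2850 z (n 3730 z
 (n 2674 z (n 722 z (n 2642 z z)))))) (n 3442 z (n 0 (n 738 z (n 946 z (n 4346 z (n 2674 z (n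
 722 z (n 2642 z z)))))) (n 699 z z)))))) z)))))) z)))))) (n 0 (n 10 z (n 10 z (n 10 z (n 0 (n
 202 z (n 202 z (n 10 z (n 202 z (n 0 (n 10 z (n 10 z (n 3234 z (n 10 z (n 0 (n 787 z (n 795 z
 (n 4346 z (n 1682 z (n 5314 z (n 4354 z z)))))) (n 10 z z)))))) (n 10 z z)))))) (n 0 (n 202 z
 (n 202 z (n 0 (n 202 z (n 202 z (n 202 z (n 3426 z (n 0 (n 1933356 z (n 795 z (n 4346 z (n 4178
 z (n 5122 z (n 4354 z z)))))) (n 202 z z)))))) (n 202 z (n 0 (n 0 (n 787 z (n 4346 z (n 4346 z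
 (n 4178 z (n 5074 z (n 4354 z z)))))) (n 0 (n 787 z (n 3682 z (n 3058 z (n 3066 z (n 5074 z (n
 4354 z z)))))) (n 0 (n 787 z (n 4346 z (n 4346 z (n 4178 z (n 5074 z (n 4354 z z)))))) (n 0 (n
 787 z (n 4346 z (n 4346 z (n 4546 z (n 5074 z (n 4354 z z)))))) (n 5058 z (n 0 (n 787 z (n 3794
 z (n 3626 z (n 3634 z (n 5074 z (n 3602 z z)))))) z)))))) (n 0 (n 4866 z (n 0 (n 2834 z (n 3682
 z (n 3058 z (n 2674 z (n 4626 z (n 2642 z z)))))) (n 0 (n 2834 z (n 2666 z (n 5746 z (n 2674 z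
 (n 4626 z (n 2642 z z)))))) (n 3442 z (n 0 (n 2834 z (n 795 z (n 4346 z (n 2674 z (n 5122 z (n
 2642 z z)))))) (n 4866 z z)))))) z)))))) (n 0 (n 4802 z (n 202 z (n 202 z (n 202 z (n 0 (n 4818
 z (n 0 (n 787 z (n 3682 z (n 3058 z (n 3066 z (n 4626 z (n 4354 z z)))))) (n 0 (n 787 z (n 3250
 z (n 3730 z (n 3250 z (n 4626 z (n 4354 z z)))))) (n 0 (n 787 z (n 4346 z (n 827 z (n 4546 z (n
 4626 z (n 4354 z z)))))) (n 0 (n 787 z (n 795 z (n 4346 z (n 4354 z (n 5314 z (n 4354 z z))))))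
 (n 4818 z z)))))) (n 4802 z z)))))) z)))))) z)))))) z)))))) z)))))) (n 0 (n 3842 z (n 194 z (n
 194 z (n 194 z (n 3842 z (n 0 (n 3858 z (n 23033 z (n 55801 z (n 14841 z (n 3858 z (n 47609 z
 z)))))) z)))))) (n 0 (n 194 z (n 194 z (n 194 z (n 194 z (n 194 z (n 0 (n 0 (n 34 z (n 10 z (n
 10 z (n 10 z (n 0 (n 10 z (n 10 z (n 10 z (n 10 z (n 10 z (n 0 (n 202 z (n 2290 z (n 202 z (n
 202 z (n 202 z (n 411 z z)))))) z)))))) (n 0 (n 10 z (n 10 z (n 10 z (n 10 z (n 0 (n 202 z (n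
 202 z (n 202 z (n 202 z (n 411 z (n 202 z z)))))) (n 10 z z)))))) z)))))) (n 0 (n 34 z (n 10 z
 (n 10 z (n 10 z (n 0 (n 10 z (n 10 z (n 10 z (n 10 z (n 10 z (n 0 (n 202 z (n 2290 z (n 202 z
 (n 202 z (n 202 z (n 411 z z)))))) z)))))) (n 0 (n 10 z (n 10 z (n 10 z (n 10 z (n 0 (n 202 z
 (n 202 z (n 202 z (n 202 z (n 411 z (n 202 z z)))))) (n 10 z z)))))) z)))))) (n 0 (n 34 z (n 10
 z (n 10 z (n 10 z (n 0 (n 10 z (n 10 z (n 10 z (n 10 z (n 10 z (n 0 (n 202 z (n 2290 z (n 202 z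
 (n 202 z (n 202 z (n 411 z z)))))) z)))))) (n 0 (n 10 z (n 10 z (n 10 z (n 10 z (n 0 (n 202 z
 (n 202 z (n 202 z (n 202 z (n 411 z (n 202 z z)))))) (n 10 z z)))))) z)))))) (n 194 z (n 0 (n
 34 z (n 10 z (n 10 z (n 10 z (n 0 (n 10 z (n 10 z (n 10 z (n 10 z (n 10 z (n 0 (n 202 z (n 2290
 z (n 202 z (n 202 z (n 202 z (n 411 z z)))))) z)))))) (n 0 (n 10 z (n 10 z (n 10 z (n 10 z (n 0
 (n 202 z (n 202 z (n 202 z (n 202 z (n 411 z (n 202 z z)))))) (n 10 z z)))))) z)))))) (n 4098 z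
 z)))))) z)))))) z)))))) z))))) z)))) z))) (n 0 (n 0 (n 0 (n 18 z (n 18 z (n 0 (n 1026 z (n 0 (n
 1250 z (n 427 z (n 1986 z (n 0 (n 482 z (n 3138 z (n 331 z (n 1810436 z (n 31225 z z))))) z))))
 (n 1026 z (n 0 (n 1986 z (n 194 z (n 1986 z (n 427 z (n 0 (n 482 z (n 3138 z (n 331 z (n 0 (n
 34 z (n 34 z (n 514 z (n 514 z (n 63993 z (n 1529 z z)))))) (n 194 z (n 17913 z z)))))) z)))))
 z)))) (n 0 (n 1026 z (n 1010 z (n 1026 z (n 0 (n 1986 z (n 1970 z (n 1986 z (n 427 z (n 0 (n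
 3138 z (n 3138 z (n 3122 z (n 331 z (n 1818628 z (n 0 (n 34 z (n 34 z (n 10 z (n 0 (n 1042 z (n
 1018 z (n 1042 z (n 0 (n 2002 z (n 1978 z (n 2002 z (n 419 z (n 715 z (n 0 (n 3154 z (n 3154 z
 (n 3130 z (n 323 z (n 0 (n 763 z (n 1698 z (n 754 z (n 722 z (n 4402 z (n 4594 z z)))))) (n 707
 z z)))))) z)))))) (n 0 (n 2002 z (n 2290 z (n 2002 z (n 0 (n 3154 z (n 3154 z (n 3130 z (n 323
 z (n 202 z (n 0 (n 722 z (n 819 z (n 754 z (n 722 z (n 4370 z (n 3602 z z)))))) z)))))) (n 419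
 z (n 0 (n 3154 z (n 3154 z (n 3130 z (n 323 z (n 0 (n 835 z (n 1843924 z (n 754 z (n 722 z (n
 4402 z (n 4594 z z)))))) (n 0 (n 722 z (n 1843924 z (n 754 z (n 722 z (n 4402 z (n 3602 z
 z)))))) z)))))) z)))))) (n 0 (n 2002 z (n 1978 z (n 2002 z (n 0 (n 3154 z (n 3154 z (n 3130 z
 (n 323 z (n 0 (n 722 z (n 1852116 z (n 754 z (n 722 z (n 4370 z (n 4594 z z)))))) (n 202 z
 z)))))) (n 0 (n 3154 z (n 3154 z (n 3130 z (n 323 z (n 0 (n 722 z (n 2658 z (n 754 z (n 722 z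
 (n 2642 z (n 4594 z z)))))) (n 699 z z)))))) (n 419 z z)))))) z)))))) (n 0 (n 1042 z (n 1018 z
 (n 1042 z (n 1010 z (n 0 (n 2002 z (n 2290 z (n 2002 z (n 0 (n 3154 z (n 3154 z (n 3130 z (n 10
 z (n 323 z (n 0 (n 787 z (n 819 z (n 3602 z (n 3874 z (n 4370 z (n 3602 z z)))))) z)))))) (n
 419 z (n 0 (n 3154 z (n 3154 z (n 3130 z (n 0 (n 3874 z (n 1871628 z (n 1018 z (n 3874 z (n
 4402 z (n 4562 z z)))))) (n 323 z (n 10 z z)))))) z)))))) (n 0 (n 2002 z (n 1978 z (n 2002 z (n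
 0 (n 3154 z (n 3154 z (n 3130 z (n 0 (n 787 z (n 1879820 z (n 1010 z (n 3874 z (n 4370 z (n
 4562 z z)))))) (n 323 z (n 3130 z z)))))) (n 0 (n 3154 z (n 3154 z (n 3130 z (n 1978 z (n 323 z
 (n 202 z z)))))) (n 419 z z)))))) z)))))) (n 0 (n 1042 z (n 1018 z (n 1042 z (n 1010 z (n 0 (n
 2002 z (n 2290 z (n 2002 z (n 0 (n 3154 z (n 3154 z (n 3058 z (n 0 (n 3874 z (n 819 z (n 795 z
 (n 3874 z (n 4370 z (n 4562 z z)))))) (n 0 (n 3874 z (n 819 z (n 1888220 z (n 3874 z (n 4370 z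
 (n 4594 z z)))))) (n 323 z z)))))) (n 419 z (n 0 (n 3154 z (n 3154 z (n 3058 z (n 1010 z (n 202
 z (n 323 z z)))))) z)))))) (n 1010 z z)))))) z)))))) z)))))) z))))) (n 0 (n 1986 z (n 1970 z (n
 1986 z (n 194 z (n 427 z (n 0 (n 3138 z (n 3138 z (n 3122 z (n 331 z (n 1346 z (n 2306 z
 z)))))) z)))))) z))))) z)))) (n 2162 z (n 2930 z (n 0 (n 18 z (n 18 z (n 0 (n 1026 z (n 0 (n
 1250 z (n 1250 z (n 0 (n 482 z (n 1826820 z (n 482 z (n 3362 z (n 50681 z z))))) (n 0 (n 482 z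
 (n 2418 z (n 482 z (n 2402 z (n 9721 z z))))) (n 0 (n 482 z (n 1010 z (n 482 z (n 1010 z (n
 42489 z (n 26105 z z)))))) z))))) (n 1026 z (n 0 (n 0 (n 482 z (n 803 z (n 482 z (n 3378 z (n
 58873 z z))))) (n 2226 z (n 0 (n 482 z (n 1835012 z (n 482 z (n 3362 z (n 5625 z z))))) (n 0 (n
 482 z (n 2418 z (n 482 z (n 2402 z (n 38393 z z))))) (n 0 (n 482 z (n 1843204 z (n 482 z (n
 22009 z (n 4338 z (n 54777 z z)))))) z))))) (n 0 (n 0 (n 482 z (n 1851396 z (n 482 z (n 3378 z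
 (n 4146 z (n 13817 z z)))))) (n 0 (n 482 z (n 46585 z (n 482 z (n 30201 z (n 62969 z (n 3577 z
 z)))))) (n 0 (n 482 z (n 36345 z (n 482 z (n 3362 z (n 690 z (n 19961 z z)))))) (n 0 (n 482 z
 (n 2418 z (n 482 z (n 2402 z (n 52729 z (n 11769 z z)))))) (n 0 (n 482 z (n 4098 z (n 482 z (n
 44537 z (n 4098 z (n 28153 z z)))))) (n 0 (n 482 z (n 60921 z (n 482 z (n 7673 z (n 40441 z (n
 24057 z z)))))) z)))))) z))))) (n 0 (n 1026 z (n 1010 z (n 1026 z (n 0 (n 2034 z (n 2226 z (n 0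
 (n 771 z (n 1859588 z (n 2994 z (n 3362 z (n 56825 z z))))) (n 3842 z (n 0 (n 3186 z (n 1010 z
 (n 2994 z (n 3858 z (n 4322 z (n 15865 z z)))))) z))))) (n 0 (n 2034 z (n 0 (n 48633 z (n 4322
 z (n 2994 z (n 0 (n 34 z (n 34 z (n 10 z (n 0 (n 1042 z (n 1018 z (n 1042 z (n 10 z (n 0 (n
 2082 z (n 715 z (n 0 (n 779 z (n 3394 z (n 3042 z (n 315 z (n 0 (n 722 z (n 1698 z (n 754 z (n
 722 z (n 1682 z (n 1906 z z)))))) (n 0 (n 722 z (n 1698 z (n 754 z (n 722 z (n 1682 z (n 5522 z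
 z)))))) z)))))) (n 0 (n 2450 z (n 2466 z (n 3042 z (n 315 z (n 5202 z (n 0 (n 722 z (n 1698 z
 (n 754 z (n 722 z (n 1682 z (n 5522 z z)))))) z)))))) (n 2242 z (n 0 (n 1386 z (n 3394 z (n
 3042 z (n 315 z (n 0 (n 722 z (n 1698 z (n 754 z (n 722 z (n 1682 z (n 1906 z z)))))) (n 5282 z
 z)))))) z)))))) (n 0 (n 2082 z (n 2242 z (n 0 (n 779 z (n 3394 z (n 3042 z (n 315 z (n 0 (n 722
 z (n 3978 z (n 754 z (n 722 z (n 5522 z (n 5170 z z)))))) (n 0 (n 722 z (n 3978 z (n 754 z (n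
 722 z (n 3970 z (n 5122 z z)))))) z)))))) (n 0 (n 2450 z (n 2466 z (n 3042 z (n 315 z (n 0 (n
 722 z (n 4370 z (n 754 z (n 722 z (n 5522 z (n 5170 z z)))))) (n 5202 z z)))))) (n 2242 z (n 0
 (n 3218 z (n 3394 z (n 3042 z (n 315 z (n 0 (n 722 z (n 5074 z (n 754 z (n 722 z (n 5522 z (n
 5074 z z)))))) (n 5058 z z)))))) z)))))) z)))))) (n 0 (n 1042 z (n 1018 z (n 1042 z (n 0 (n
 2074 z (n 2242 z (n 0 (n 3234 z (n 3394 z (n 5298 z (n 3394 z (n 315 z (n 0 (n 763 z (n 4442 z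
 (n 3970 z (n 3970 z (n 4178 z (n 5538 z z)))))) z)))))) (n 0 (n 2450 z (n 2466 z (n 2810 z (n
 2450 z (n 315 z (n 2810 z z)))))) (n 2242 z (n 0 (n 3234 z (n 3394 z (n 3562 z (n 3394 z (n 315
 z (n 5298 z z)))))) z)))))) (n 0 (n 4802 z (n 2242 z (n 0 (n 4818 z (n 3394 z (n 3562 z (n 3394
 z (n 315 z (n 0 (n 1682 z (n 1698 z (n 3970 z (n 3970 z (n 1682 z (n 1882 z z)))))) z)))))) (n
 0 (n 2450 z (n 2466 z (n 3562 z (n 2450 z (n 315 z (n 0 (n 1682 z (n 1698 z (n 3970 z (n 3970 z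
 (n 1682 z (n 5554 z z)))))) z)))))) (n 2242 z (n 0 (n 4818 z (n 3394 z (n 3562 z (n 3394 z (n
 315 z (n 0 (n 1682 z (n 1698 z (n 3970 z (n 3970 z (n 1682 z (n 5314 z z)))))) z)))))) z))))))
 (n 0 (n 2074 z (n 2242 z (n 0 (n 3554 z (n 3394 z (n 3562 z (n 3394 z (n 315 z (n 0 (n 5122 z
 (n 4442 z (n 3970 z (n 3970 z (n 4666 z (n 5122 z z)))))) z)))))) (n 0 (n 2450 z (n 2466 z (n
 3562 z (n 2450 z (n 315 z (n 0 (n 5122 z (n 4370 z (n 3970 z (n 3970 z (n 4962 z (n 5122 z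
 z)))))) z)))))) (n 2242 z (n 0 (n 3554 z (n 3394 z (n 3562 z (n 3394 z (n 315 z (n 5058 z
 z)))))) z)))))) z)))))) (n 0 (n 1042 z (n 1018 z (n 1042 z (n 0 (n 2074 z (n 2242 z (n 0 (n
 3234 z (n 3394 z (n 5298 z (n 3394 z (n 3554 z (n 315 z z)))))) (n 0 (n 2450 z (n 2466 z (n
 2810 z (n 2450 z (n 2810 z (n 315 z z)))))) (n 2242 z (n 0 (n 3234 z (n 3394 z (n 3562 z (n
 3394 z (n 3554 z (n 315 z z)))))) z)))))) (n 0 (n 2074 z (n 2242 z (n 0 (n 1386 z (n 3394 z (n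
 3562 z (n 3394 z (n 3554 z (n 315 z z)))))) (n 0 (n 2450 z (n 2466 z (n 3562 z (n 2450 z (n
 3554 z (n 315 z z)))))) (n 2242 z (n 0 (n 4866 z (n 3394 z (n 3562 z (n 3394 z (n 3554 z (n 315
 z z)))))) z)))))) (n 0 (n 4802 z (n 2242 z (n 0 (n 4818 z (n 3394 z (n 3562 z (n 3394 z (n 3554
 z (n 315 z z)))))) (n 0 (n 2450 z (n 2466 z (n 3562 z (n 2450 z (n 3554 z (n 315 z z)))))) (n
 2242 z (n 4802 z z)))))) z)))))) z)))))) (n 32249 z (n 65017 z z)))))) (n 0 (n 771 z (n 1017 z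
 (n 2994 z (n 3362 z (n 9209 z (n 25593 z z)))))) (n 0 (n 2402 z (n 2418 z (n 2994 z (n 2402 z
 (n 4242 z (n 5113 z z)))))) (n 0 (n 3170 z (n 4098 z (n 2994 z (n 4434 z (n 4098 z (n 13305 z
 z)))))) (n 0 (n 29689 z (n 3065 z (n 2994 z (n 11257 z (n 27641 z (n 4322 z z)))))) z))))))
 z))))) (n 0 (n 1026 z (n 1010 z (n 1026 z (n 1010 z (n 0 (n 3842 z (n 0 (n 3858 z (n 2562 z (n
 0 (n 34 z (n 34 z (n 10 z (n 10 z (n 0 (n 1042 z (n 1018 z (n 1042 z (n 1018 z (n 0 (n 4802 z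
 (n 715 z (n 0 (n 4818 z (n 0 (n 763 z (n 1698 z (n 754 z (n 835 z (n 722 z (n 722 z z)))))) (n
 707 z (n 3410 z (n 3010 z (n 0 (n 763 z (n 1698 z (n 754 z (n 722 z (n 722 z (n 5554 z z))))))
 z)))))) (n 0 (n 2450 z (n 2466 z (n 707 z (n 2450 z (n 3010 z (n 0 (n 763 z (n 1698 z (n 754 z
 (n 722 z (n 722 z (n 722 z z)))))) z)))))) (n 2242 z (n 0 (n 4818 z (n 1010 z (n 707 z (n 1010
 z (n 3010 z (n 0 (n 763 z (n 1698 z (n 754 z (n 5314 z (n 722 z (n 5314 z z)))))) z))))))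
 z)))))) (n 0 (n 234 z (n 2242 z (n 0 (n 1386 z (n 0 (n 722 z (n 4402 z (n 754 z (n 835 z (n 722
 z (n 5138 z z)))))) (n 3010 z (n 3410 z (n 3010 z (n 0 (n 722 z (n 4402 z (n 754 z (n 722 z (n
 722 z (n 5122 z z)))))) z)))))) (n 0 (n 2450 z (n 2466 z (n 3010 z (n 2450 z (n 3010 z (n 0 (n
 722 z (n 722 z (n 754 z (n 722 z (n 722 z (n 5122 z z)))))) z)))))) (n 2242 z (n 0 (n 1386 z (n
 5058 z (n 3010 z (n 0 (n 722 z (n 5074 z (n 754 z (n 722 z (n 722 z (n 5074 z z)))))) (n 3010 z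
 (n 5058 z z)))))) z)))))) z)))))) (n 0 (n 1042 z (n 1018 z (n 1042 z (n 1018 z (n 1010 z (n 0
 (n 4802 z (n 2242 z (n 0 (n 4818 z (n 0 (n 3874 z (n 4402 z (n 4594 z (n 835 z (n 3874 z (n
 4834 z z)))))) (n 3010 z (n 3410 z (n 3010 z (n 4818 z z)))))) (n 0 (n 2450 z (n 2466 z (n 3010
 z (n 2450 z (n 3010 z (n 4818 z z)))))) (n 2242 z (n 4802 z z)))))) z)))))) z)))))) (n 0 (n 34
 z (n 34 z (n 10 z (n 10 z (n 0 (n 1042 z (n 1018 z (n 1042 z (n 1018 z (n 0 (n 4802 z (n 715 z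
 (n 0 (n 4818 z (n 3394 z (n 3666 z (n 707 z (n 4818 z (n 0 (n 763 z (n 1698 z (n 754 z (n 722 z
 (n 722 z (n 722 z z)))))) z)))))) (n 0 (n 2450 z (n 2466 z (n 0 (n 763 z (n 1698 z (n 754 z (n
 722 z (n 722 z (n 722 z z)))))) (n 707 z (n 4818 z (n 0 (n 763 z (n 1698 z (n 754 z (n 722 z (n
 722 z (n 5554 z z)))))) z)))))) (n 2242 z (n 0 (n 4818 z (n 3394 z (n 0 (n 763 z (n 1698 z (n
 754 z (n 722 z (n 722 z (n 722 z z)))))) (n 707 z (n 4818 z (n 0 (n 763 z (n 1698 z (n 754 z (n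
 5314 z (n 722 z (n 5314 z z)))))) z)))))) z)))))) (n 0 (n 234 z (n 2242 z (n 0 (n 1386 z (n
 3394 z (n 3666 z (n 3394 z (n 4914 z (n 0 (n 722 z (n 722 z (n 754 z (n 722 z (n 722 z (n 5122
 z z)))))) z)))))) (n 0 (n 2450 z (n 2466 z (n 0 (n 722 z (n 4402 z (n 754 z (n 2482 z (n 722 z
 (n 5138 z z)))))) (n 2450 z (n 0 (n 722 z (n 4402 z (n 754 z (n 4562 z (n 722 z (n 5138 z
 z)))))) (n 0 (n 722 z (n 4402 z (n 754 z (n 2482 z (n 722 z (n 5122 z z)))))) z)))))) (n 2242 z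
 (n 0 (n 1386 z (n 3394 z (n 0 (n 722 z (n 5074 z (n 754 z (n 722 z (n 722 z (n 5074 z z))))))
 (n 3394 z (n 0 (n 722 z (n 5074 z (n 754 z (n 4562 z (n 722 z (n 5074 z z)))))) (n 5058 z
 z)))))) z)))))) z)))))) (n 0 (n 1042 z (n 1018 z (n 1042 z (n 1018 z (n 0 (n 234 z (n 2242 z (n
 0 (n 1386 z (n 3394 z (n 3666 z (n 3394 z (n 0 (n 1682 z (n 1698 z (n 1690 z (n 4562 z (n 1682
 z (n 4946 z z)))))) (n 4914 z z)))))) (n 0 (n 2450 z (n 2466 z (n 0 (n 1682 z (n 1698 z (n 5554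
 z (n 2482 z (n 1682 z (n 4946 z z)))))) (n 2450 z (n 0 (n 1682 z (n 1698 z (n 1690 z (n 4562 z
 (n 1682 z (n 4946 z z)))))) (n 0 (n 1682 z (n 1698 z (n 4930 z (n 2482 z (n 1682 z (n 4930 z
 z)))))) z)))))) (n 2242 z (n 0 (n 4866 z (n 3394 z (n 0 (n 1682 z (n 1698 z (n 1690 z (n 1690 z
 (n 1682 z (n 4882 z z)))))) (n 3394 z (n 0 (n 1682 z (n 1698 z (n 1690 z (n 4562 z (n 1682 z (n
 4882 z z)))))) (n 4866 z z)))))) z)))))) (n 0 (n 4802 z (n 2242 z (n 0 (n 4818 z (n 3394 z (n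
 3666 z (n 3394 z (n 0 (n 3874 z (n 4386 z (n 1872796 z (n 4562 z (n 3874 z (n 4834 z z)))))) (n
 4818 z z)))))) (n 0 (n 2450 z (n 2466 z (n 0 (n 3874 z (n 4402 z (n 5554 z (n 2482 z (n 3874 z
 (n 4834 z z)))))) (n 2450 z (n 0 (n 3874 z (n 4402 z (n 2490 z (n 4562 z (n 3874 z (n 4834 z
 z)))))) (n 4818 z z)))))) (n 2242 z (n 4802 z z)))))) z)))))) z)))))) (n 3858 z (n 7161 z
 z)))))) (n 0 (n 3858 z (n 0 (n 34 z (n 34 z (n 10 z (n 10 z (n 0 (n 1042 z (n 1018 z (n 1042 z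
 (n 1018 z (n 0 (n 4802 z (n 10 z (n 715 z (n 0 (n 2450 z (n 707 z (n 2482 z (n 2450 z (n 4818 z
 (n 0 (n 763 z (n 1698 z (n 754 z (n 722 z (n 722 z (n 722 z z)))))) z)))))) (n 4802 z (n 0 (n
 4818 z (n 707 z (n 1018 z (n 1010 z (n 4818 z (n 0 (n 763 z (n 1698 z (n 754 z (n 5314 z (n 722
 z (n 5314 z z)))))) z)))))) z)))))) (n 0 (n 234 z (n 0 (n 1386 z (n 2754 z (n 0 (n 722 z (n
 4594 z (n 754 z (n 835 z (n 722 z (n 5138 z z)))))) (n 3442 z (n 0 (n 722 z (n 4562 z (n 754 z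
 (n 722 z (n 722 z (n 5138 z z)))))) (n 0 (n 722 z (n 722 z (n 754 z (n 722 z (n 722 z (n 5122 z
 z)))))) z)))))) (n 0 (n 1386 z (n 699 z (n 3666 z (n 3410 z (n 4914 z (n 0 (n 722 z (n 2658 z
 (n 2642 z (n 2674 z (n 722 z (n 5122 z z)))))) z)))))) (n 0 (n 2450 z (n 2466 z (n 2482 z (n
 2450 z (n 0 (n 722 z (n 4562 z (n 754 z (n 722 z (n 722 z (n 5138 z z)))))) (n 0 (n 722 z (n
 722 z (n 754 z (n 722 z (n 722 z (n 5122 z z)))))) z)))))) (n 0 (n 4866 z (n 0 (n 722 z (n 3602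
 z (n 754 z (n 3634 z (n 722 z (n 5138 z z)))))) (n 0 (n 722 z (n 4594 z (n 754 z (n 722 z (n
 722 z (n 5138 z z)))))) (n 0 (n 722 z (n 722 z (n 754 z (n 722 z (n 722 z (n 5138 z z)))))) (n
 4866 z (n 0 (n 722 z (n 722 z (n 754 z (n 722 z (n 722 z (n 5122 z z)))))) z)))))) (n 0 (n 1386
 z (n 5058 z (n 0 (n 722 z (n 4594 z (n 754 z (n 722 z (n 722 z (n 5074 z z)))))) (n 0 (n 722 z
 (n 5074 z (n 754 z (n 722 z (n 722 z (n 5074 z z)))))) (n 0 (n 722 z (n 4562 z (n 754 z (n 722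
 z (n 722 z (n 5074 z z)))))) (n 5058 z z)))))) z)))))) z)))))) (n 0 (n 1042 z (n 1018 z (n 1042
 z (n 1018 z (n 1010 z (n 0 (n 4802 z (n 10 z (n 0 (n 4818 z (n 0 (n 2642 z (n 3602 z (n 2642 z
 (n 2674 z (n 3874 z (n 4834 z z)))))) (n 3666 z (n 3410 z (n 0 (n 2642 z (n 2658 z (n 2642 z (n
 2674 z (n 3874 z (n 4834 z z)))))) (n 4818 z z)))))) (n 0 (n 2450 z (n 2466 z (n 2482 z (n 2450
 z (n 0 (n 3874 z (n 4562 z (n 1872796 z (n 2826 z (n 3874 z (n 4834 z z)))))) (n 4818 z z))))))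
 (n 0 (n 4818 z (n 1010 z (n 1018 z (n 1010 z (n 0 (n 3874 z (n 4562 z (n 4370 z (n 5314 z (n
 3874 z (n 4834 z z)))))) (n 4818 z z)))))) (n 4802 z z)))))) z)))))) z)))))) (n 3474 z (n 3362
 z (n 3858 z (n 23545 z z)))))) (n 0 (n 2402 z (n 2418 z (n 1010 z (n 2402 z (n 3858 z (n 0 (n
 34 z (n 34 z (n 10 z (n 10 z (n 0 (n 1042 z (n 1018 z (n 1042 z (n 1018 z (n 0 (n 4802 z (n 10
 z (n 10 z (n 715 z (n 4802 z (n 2434 z z)))))) (n 0 (n 234 z (n 0 (n 3250 z (n 2754 z (n 0 (n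
 722 z (n 722 z (n 754 z (n 722 z (n 722 z (n 5138 z z)))))) (n 0 (n 722 z (n 5362 z (n 754 z (n
 5538 z (n 722 z (n 4594 z z)))))) (n 0 (n 827 z (n 722 z (n 754 z (n 722 z (n 722 z (n 4562 z
 z)))))) (n 0 (n 722 z (n 722 z (n 754 z (n 3634 z (n 722 z (n 3602 z z)))))) z)))))) (n 0 (n
 3250 z (n 0 (n 722 z (n 5538 z (n 754 z (n 722 z (n 722 z (n 5138 z z)))))) (n 3666 z (n 3410 z
 (n 4914 z (n 0 (n 722 z (n 722 z (n 754 z (n 3634 z (n 722 z (n 3602 z z)))))) z)))))) (n 2434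
 z (n 0 (n 3250 z (n 0 (n 722 z (n 5538 z (n 754 z (n 4370 z (n 722 z (n 5138 z z)))))) (n 0 (n
 722 z (n 722 z (n 754 z (n 4370 z (n 722 z (n 5138 z z)))))) (n 0 (n 722 z (n 722 z (n 754 z (n
 4370 z (n 722 z (n 4594 z z)))))) (n 4866 z (n 0 (n 722 z (n 722 z (n 754 z (n 3634 z (n 722 z
 (n 3602 z z)))))) z)))))) (n 2434 z z)))))) z)))))) (n 0 (n 1042 z (n 1018 z (n 1042 z (n 1018
 z (n 0 (n 234 z (n 0 (n 1386 z (n 2754 z (n 3058 z (n 0 (n 1682 z (n 1698 z (n 1690 z (n 5522 z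
 (n 1682 z (n 4594 z z)))))) (n 0 (n 1682 z (n 1698 z (n 795 z (n 1690 z (n 1682 z (n 4562 z
 z)))))) (n 0 (n 1682 z (n 1698 z (n 3602 z (n 3634 z (n 1682 z (n 3602 z z)))))) z)))))) (n 0
 (n 1386 z (n 0 (n 1682 z (n 1698 z (n 1690 z (n 1690 z (n 1682 z (n 4946 z z)))))) (n 3058 z (n
 3410 z (n 0 (n 1682 z (n 1698 z (n 795 z (n 1690 z (n 1682 z (n 4562 z z)))))) (n 4914 z
 z)))))) (n 2434 z (n 0 (n 1386 z (n 5058 z (n 3058 z (n 0 (n 1682 z (n 1698 z (n 1690 z (n 4370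
 z (n 1682 z (n 4594 z z)))))) (n 5058 z (n 0 (n 1682 z (n 1698 z (n 3602 z (n 3634 z (n 1682 z
 (n 3602 z z)))))) z)))))) (n 2434 z z)))))) (n 0 (n 4802 z (n 10 z (n 10 z (n 2434 z (n 0 (n
 3250 z (n 1018 z (n 3058 z (n 0 (n 3874 z (n 2442 z (n 3442 z (n 4370 z (n 3874 z (n 4594 z
 z)))))) (n 0 (n 827 z (n 1872588 z (n 795 z (n 4370 z (n 3874 z (n 4562 z z)))))) (n 4818 z
 z)))))) (n 2434 z z)))))) z)))))) z)))))) z)))))) (n 3842 z (n 0 (n 3858 z (n 1010 z (n 1010 z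
 (n 1010 z (n 3858 z (n 0 (n 34 z (n 34 z (n 10 z (n 10 z (n 0 (n 1042 z (n 1018 z (n 1042 z (n
 1018 z (n 0 (n 4802 z (n 10 z (n 10 z (n 10 z (n 4802 z (n 715 z z)))))) (n 0 (n 234 z (n 2290
 z (n 0 (n 3250 z (n 0 (n 722 z (n 5538 z (n 754 z (n 4354 z (n 722 z (n 4354 z z)))))) (n 3666
 z (n 3410 z (n 4914 z (n 0 (n 722 z (n 722 z (n 754 z (n 3634 z (n 722 z (n 3602 z z))))))
 z)))))) (n 0 (n 2450 z (n 2466 z (n 0 (n 722 z (n 722 z (n 754 z (n 4354 z (n 722 z (n 4354 z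
 z)))))) (n 2450 z (n 0 (n 827 z (n 722 z (n 754 z (n 4354 z (n 722 z (n 4354 z z)))))) (n 2482
 z z)))))) (n 0 (n 3250 z (n 0 (n 722 z (n 819 z (n 754 z (n 4354 z (n 722 z (n 4354 z z))))))
 (n 0 (n 722 z (n 819 z (n 754 z (n 4354 z (n 722 z (n 4354 z z)))))) (n 0 (n 722 z (n 819 z (n
 754 z (n 4354 z (n 722 z (n 4354 z z)))))) (n 4866 z (n 0 (n 722 z (n 819 z (n 754 z (n 3634 z
 (n 722 z (n 3602 z z)))))) z)))))) (n 0 (n 3250 z (n 5058 z (n 0 (n 722 z (n 2658 z (n 754 z (n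
 2674 z (n 722 z (n 2642 z z)))))) (n 3442 z (n 0 (n 827 z (n 2658 z (n 754 z (n 2674 z (n 722 z
 (n 2642 z z)))))) (n 699 z z)))))) z)))))) z)))))) (n 0 (n 1042 z (n 1018 z (n 1042 z (n 1018 z
 (n 1010 z (n 0 (n 2098 z (n 2290 z (n 10 z (n 10 z (n 0 (n 3250 z (n 1018 z (n 3058 z (n 1018 z
 (n 0 (n 787 z (n 819 z (n 795 z (n 4354 z (n 3874 z (n 4354 z z)))))) (n 4818 z z)))))) (n 4802
 z z)))))) z)))))) z)))))) z)))))) z)))))) (n 0 (n 0 (n 0 (n 34 z (n 34 z (n 10 z (n 10 z (n 218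
 z (n 218 z z)))))) (n 0 (n 34 z (n 34 z (n 10 z (n 10 z (n 218 z (n 218 z z)))))) (n 0 (n 34 z
 (n 34 z (n 10 z (n 10 z (n 218 z (n 218 z z)))))) (n 3378 z (n 210 z (n 4146 z z)))))) (n 0 (n
 1010 z (n 2562 z (n 0 (n 34 z (n 34 z (n 10 z (n 10 z (n 0 (n 1042 z (n 1018 z (n 1042 z (n
 1018 z (n 10 z (n 0 (n 234 z (n 715 z (n 0 (n 1386 z (n 0 (n 722 z (n 1698 z (n 754 z (n 835 z
 (n 722 z (n 1682 z z)))))) (n 707 z (n 3410 z (n 3010 z (n 0 (n 722 z (n 1698 z (n 754 z (n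
 1906 z (n 722 z (n 1682 z z)))))) z)))))) (n 0 (n 2450 z (n 2466 z (n 707 z (n 2450 z (n 3010 z
 (n 0 (n 722 z (n 1698 z (n 754 z (n 1906 z (n 722 z (n 1682 z z)))))) z)))))) (n 0 (n 4866 z (n
 1010 z (n 707 z (n 1010 z (n 3010 z (n 0 (n 722 z (n 1698 z (n 754 z (n 930 z (n 722 z (n 1682
 z z)))))) z)))))) (n 2242 z z)))))) z)))))) (n 0 (n 1042 z (n 1018 z (n 1042 z (n 1018 z (n 0
 (n 234 z (n 2242 z (n 0 (n 1386 z (n 0 (n 763 z (n 4402 z (n 4594 z (n 835 z (n 3986 z (n 4178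
 z z)))))) (n 3010 z (n 3410 z (n 3010 z (n 4914 z z)))))) (n 0 (n 2450 z (n 2466 z (n 3010 z (n
 2450 z (n 3010 z (n 0 (n 763 z (n 2586 z (n 4578 z (n 2826 z (n 3986 z (n 4178 z z))))))
 z)))))) (n 0 (n 1386 z (n 5058 z (n 3010 z (n 1010 z (n 3010 z (n 0 (n 763 z (n 4370 z (n 4578
 z (n 1867996 z (n 3986 z (n 4178 z z)))))) z)))))) (n 2242 z z)))))) (n 10 z z)))))) z)))))) (n
 0 (n 34 z (n 34 z (n 10 z (n 10 z (n 0 (n 1042 z (n 1018 z (n 1042 z (n 1018 z (n 10 z (n 0 (n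
 234 z (n 715 z (n 0 (n 1386 z (n 3394 z (n 3666 z (n 707 z (n 4914 z (n 0 (n 722 z (n 1698 z (n
 754 z (n 4578 z (n 722 z (n 1682 z z)))))) z)))))) (n 0 (n 2450 z (n 2466 z (n 0 (n 722 z (n
 1698 z (n 754 z (n 2482 z (n 722 z (n 1682 z z)))))) (n 707 z (n 0 (n 722 z (n 1698 z (n 754 z
 (n 4562 z (n 722 z (n 1682 z z)))))) (n 0 (n 722 z (n 1698 z (n 754 z (n 4578 z (n 722 z (n
 1682 z z)))))) z)))))) (n 0 (n 4866 z (n 3394 z (n 0 (n 722 z (n 1698 z (n 754 z (n 930 z (n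
 722 z (n 1682 z z)))))) (n 707 z (n 4866 z (n 0 (n 722 z (n 1698 z (n 754 z (n 4578 z (n 722 z
 (n 1682 z z)))))) z)))))) (n 2242 z z)))))) z)))))) (n 0 (n 1042 z (n 1018 z (n 1042 z (n 1018
 z (n 0 (n 234 z (n 2242 z (n 0 (n 1386 z (n 3394 z (n 3666 z (n 3394 z (n 0 (n 763 z (n 4386 z
 (n 1884380 z (n 4562 z (n 3986 z (n 4178 z z)))))) (n 4914 z z)))))) (n 0 (n 2450 z (n 2466 z
 (n 0 (n 763 z (n 4402 z (n 5554 z (n 2482 z (n 3986 z (n 4178 z z)))))) (n 2450 z (n 0 (n 763 z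
 (n 4402 z (n 2490 z (n 4562 z (n 3986 z (n 4178 z z)))))) (n 0 (n 763 z (n 4402 z (n 4930 z (n
 4578 z (n 3986 z (n 4178 z z)))))) z)))))) (n 0 (n 1386 z (n 3394 z (n 0 (n 763 z (n 4370 z (n
 3690 z (n 3586 z (n 3986 z (n 4178 z z)))))) (n 3394 z (n 5058 z (n 0 (n 763 z (n 4370 z (n
 4930 z (n 4578 z (n 3986 z (n 4178 z z)))))) z)))))) (n 2242 z z)))))) (n 10 z z)))))) z))))))
 (n 15353 z (n 31737 z z)))))) (n 0 (n 1010 z (n 2041 z (n 3474 z (n 3362 z (n 3954 z (n 10233 z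
 z)))))) (n 0 (n 2402 z (n 2418 z (n 1010 z (n 2402 z (n 0 (n 34 z (n 34 z (n 10 z (n 10 z (n 0
 (n 1042 z (n 1018 z (n 1042 z (n 1018 z (n 10 z (n 0 (n 234 z (n 10 z (n 10 z (n 715 z (n 2434
 z (n 0 (n 1386 z (n 5058 z (n 3058 z (n 0 (n 722 z (n 1698 z (n 754 z (n 4386 z (n 722 z (n
 1682 z z)))))) (n 315 z (n 5058 z z)))))) z)))))) z)))))) (n 0 (n 1042 z (n 1018 z (n 1042 z (n
 1018 z (n 0 (n 234 z (n 10 z (n 10 z (n 2434 z (n 2434 z (n 0 (n 3250 z (n 1018 z (n 1018 z (n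
 0 (n 763 z (n 2442 z (n 3970 z (n 4386 z (n 3970 z (n 4178 z z)))))) (n 0 (n 763 z (n 4450 z (n
 3602 z (n 3634 z (n 3602 z (n 4178 z z)))))) (n 315 z z)))))) z)))))) (n 10 z z)))))) z))))))
 (n 0 (n 34 z (n 34 z (n 10 z (n 10 z (n 0 (n 1042 z (n 1018 z (n 1042 z (n 1018 z (n 10 z (n 0
 (n 234 z (n 10 z (n 10 z (n 715 z (n 0 (n 3250 z (n 1018 z (n 1018 z (n 0 (n 722 z (n 1698 z (n
 754 z (n 4370 z (n 722 z (n 1682 z z)))))) (n 4866 z (n 707 z z)))))) (n 2434 z z)))))) z))))))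
 (n 0 (n 1042 z (n 1018 z (n 1042 z (n 1018 z (n 0 (n 234 z (n 10 z (n 10 z (n 2434 z (n 0 (n
 1386 z (n 5058 z (n 3058 z (n 1018 z (n 5058 z (n 0 (n 763 z (n 5074 z (n 3602 z (n 3634 z (n
 3986 z (n 3602 z z)))))) z)))))) (n 2434 z z)))))) (n 10 z z)))))) z)))))) z)))))) (n 0 (n 3906
 z (n 1010 z (n 1010 z (n 1010 z (n 3906 z (n 0 (n 34 z (n 34 z (n 10 z (n 10 z (n 0 (n 1042 z
 (n 1018 z (n 1042 z (n 1018 z (n 10 z (n 0 (n 2098 z (n 10 z (n 10 z (n 10 z (n 715 z (n 0 (n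
 3250 z (n 5058 z (n 1018 z (n 3442 z (n 0 (n 722 z (n 1698 z (n 754 z (n 835 z (n 722 z (n 1682
 z z)))))) (n 707 z z)))))) z)))))) z)))))) (n 0 (n 1042 z (n 1018 z (n 1042 z (n 1018 z (n 0 (n
 234 z (n 2290 z (n 10 z (n 10 z (n 0 (n 1386 z (n 5058 z (n 3058 z (n 1018 z (n 5058 z (n 0 (n
 763 z (n 2658 z (n 3602 z (n 2674 z (n 2642 z (n 3602 z z)))))) z)))))) (n 0 (n 4866 z (n 1018
 z (n 3058 z (n 3442 z (n 0 (n 763 z (n 819 z (n 795 z (n 835 z (n 3922 z (n 4162 z z)))))) (n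
 4866 z z)))))) z)))))) (n 10 z z)))))) z)))))) z)))))) (n 0 (n 1010 z (n 4098 z (n 1010 z (n
 1010 z (n 0 (n 34 z (n 34 z (n 10 z (n 10 z (n 0 (n 1042 z (n 1018 z (n 1042 z (n 1018 z (n 10
 z (n 0 (n 234 z (n 2290 z (n 10 z (n 10 z (n 10 z (n 411 z z)))))) z)))))) (n 0 (n 1042 z (n
 1018 z (n 1042 z (n 1018 z (n 0 (n 2098 z (n 10 z (n 10 z (n 10 z (n 411 z (n 10 z z)))))) (n
 10 z z)))))) z)))))) (n 4098 z z)))))) z)))))) z)))))) z))))) z)))) (n 0 (n 1202 z (n 1202 z (n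
 0 (n 18 z (n 18 z (n 0 (n 18 z (n 1218 z (n 1218 z (n 0 (n 2034 z (n 1218 z (n 0 (n 771 z (n
 2418 z (n 482 z (n 498 z (n 498 z z))))) (n 0 (n 482 z (n 4098 z (n 482 z (n 4098 z (n 498 z
 z))))) (n 0 (n 482 z (n 498 z (n 482 z (n 498 z (n 4322 z (n 498 z z)))))) z))))) z)))) (n 0 (n
 18 z (n 1218 z (n 1218 z (n 0 (n 3842 z (n 1218 z (n 0 (n 2402 z (n 2418 z (n 2402 z (n 3858 z
 (n 2402 z z))))) (n 3842 z (n 0 (n 2946 z (n 1410 z (n 2946 z (n 3858 z (n 0 (n 34 z (n 34 z (n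
 10 z (n 0 (n 1138 z (n 1234 z (n 1234 z (n 0 (n 4802 z (n 1234 z (n 10 z (n 4802 z (n 715 z (n
 0 (n 2962 z (n 1426 z (n 2962 z (n 4818 z (n 707 z (n 531 z z)))))) z)))))) (n 0 (n 226 z (n
 2290 z (n 0 (n 2450 z (n 2466 z (n 531 z (n 4914 z (n 2482 z (n 2450 z z)))))) (n 0 (n 2962 z
 (n 3250 z (n 2962 z (n 531 z (n 0 (n 722 z (n 819 z (n 754 z (n 722 z (n 3602 z (n 722 z
 z)))))) (n 0 (n 722 z (n 819 z (n 754 z (n 722 z (n 4354 z (n 5538 z z)))))) z)))))) (n 0 (n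
 2962 z (n 3250 z (n 2962 z (n 0 (n 722 z (n 827 z (n 754 z (n 722 z (n 2642 z (n 722 z z))))))
 (n 531 z (n 0 (n 722 z (n 2658 z (n 754 z (n 722 z (n 2642 z (n 5538 z z)))))) z)))))) (n 0 (n
 2962 z (n 3250 z (n 2962 z (n 0 (n 722 z (n 827 z (n 754 z (n 722 z (n 4354 z (n 5346 z z))))))
 (n 0 (n 722 z (n 3618 z (n 754 z (n 722 z (n 3602 z (n 5346 z z)))))) (n 531 z z)))))) z))))))
 (n 0 (n 226 z (n 1234 z (n 0 (n 2450 z (n 2466 z (n 531 z (n 4914 z (n 2482 z (n 2450 z z))))))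
 (n 0 (n 2962 z (n 1426 z (n 2962 z (n 531 z (n 0 (n 722 z (n 3618 z (n 754 z (n 722 z (n 3602 z
 (n 5138 z z)))))) (n 0 (n 722 z (n 5122 z (n 754 z (n 722 z (n 4354 z (n 5122 z z)))))) z))))))
 (n 0 (n 2962 z (n 1426 z (n 2962 z (n 0 (n 722 z (n 2658 z (n 754 z (n 722 z (n 2642 z (n 5138
 z z)))))) (n 531 z (n 0 (n 722 z (n 2658 z (n 754 z (n 722 z (n 2642 z (n 5122 z z))))))
 z)))))) (n 0 (n 2962 z (n 5058 z (n 2962 z (n 0 (n 722 z (n 5074 z (n 754 z (n 722 z (n 4354 z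
 (n 5074 z z)))))) (n 0 (n 722 z (n 3618 z (n 754 z (n 722 z (n 3602 z (n 5074 z z)))))) (n 531
 z z)))))) z)))))) z)))))) (n 0 (n 34 z (n 1234 z (n 1234 z (n 0 (n 2098 z (n 1234 z (n 0 (n
 2450 z (n 2466 z (n 531 z (n 2450 z (n 2482 z (n 2450 z z)))))) (n 0 (n 2962 z (n 5058 z (n
 2962 z (n 531 z (n 2938 z (n 0 (n 787 z (n 1698 z (n 4354 z (n 1682 z (n 4354 z (n 5522 z
 z)))))) z)))))) (n 0 (n 2962 z (n 1426 z (n 2962 z (n 1402 z (n 531 z (n 0 (n 1682 z (n 1698 z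
 (n 2674 z (n 1682 z (n 2642 z (n 5522 z z)))))) z)))))) (n 0 (n 2962 z (n 1426 z (n 2962 z (n 0
 (n 1682 z (n 1698 z (n 795 z (n 1682 z (n 4354 z (n 5330 z z)))))) (n 0 (n 1682 z (n 1698 z (n
 3602 z (n 1682 z (n 3602 z (n 5330 z z)))))) (n 531 z z)))))) z)))))) (n 0 (n 2098 z (n 2290 z
 (n 10 z (n 0 (n 2962 z (n 3250 z (n 2962 z (n 531 z (n 4818 z (n 0 (n 787 z (n 819 z (n 4354 z
 (n 3874 z (n 4354 z (n 5522 z z)))))) z)))))) (n 4802 z (n 0 (n 2962 z (n 3250 z (n 2962 z (n 0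
 (n 3874 z (n 827 z (n 795 z (n 3874 z (n 4354 z (n 5330 z z)))))) (n 4818 z (n 531 z z))))))
 z)))))) (n 0 (n 2098 z (n 1234 z (n 0 (n 2450 z (n 2466 z (n 531 z (n 2450 z (n 2482 z (n 2450
 z z)))))) (n 0 (n 2962 z (n 1426 z (n 2962 z (n 531 z (n 0 (n 787 z (n 3618 z (n 3602 z (n 3874
 z (n 3602 z (n 5154 z z)))))) (n 0 (n 787 z (n 5122 z (n 4354 z (n 3874 z (n 4354 z (n 5122 z
 z)))))) z)))))) (n 0 (n 2962 z (n 1426 z (n 2962 z (n 0 (n 2642 z (n 2658 z (n 795 z (n 3874 z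
 (n 2642 z (n 5170 z z)))))) (n 531 z (n 0 (n 2642 z (n 2658 z (n 2674 z (n 3874 z (n 2642 z (n
 5122 z z)))))) z)))))) (n 0 (n 2962 z (n 5058 z (n 2962 z (n 0 (n 3874 z (n 5074 z (n 795 z (n
 3874 z (n 4354 z (n 5074 z z)))))) (n 2938 z (n 531 z z)))))) z)))))) z)))))) (n 0 (n 34 z (n
 1234 z (n 1234 z (n 0 (n 226 z (n 1234 z (n 0 (n 2450 z (n 2466 z (n 531 z (n 2450 z (n 2482 z
 (n 4914 z z)))))) (n 0 (n 2962 z (n 5058 z (n 2962 z (n 531 z (n 0 (n 1682 z (n 1698 z (n 3602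
 z (n 1682 z (n 3602 z (n 4946 z z)))))) (n 0 (n 1682 z (n 1698 z (n 4354 z (n 1682 z (n 4354 z
 (n 4930 z z)))))) z)))))) (n 0 (n 2962 z (n 1426 z (n 2962 z (n 0 (n 1682 z (n 1698 z (n 2674 z
 (n 1682 z (n 2642 z (n 4946 z z)))))) (n 531 z (n 0 (n 1682 z (n 1698 z (n 2674 z (n 1682 z (n
 2642 z (n 4930 z z)))))) z)))))) (n 0 (n 2962 z (n 1426 z (n 2962 z (n 1402 z (n 0 (n 1682 z (n
 1698 z (n 3602 z (n 1682 z (n 3602 z (n 4882 z z)))))) (n 531 z z)))))) z)))))) (n 0 (n 226 z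
 (n 2290 z (n 0 (n 2450 z (n 2466 z (n 531 z (n 2450 z (n 2482 z (n 4914 z z)))))) (n 0 (n 2962
 z (n 3250 z (n 2962 z (n 531 z (n 0 (n 3874 z (n 819 z (n 3602 z (n 3874 z (n 3602 z (n 4962 z
 z)))))) (n 0 (n 3874 z (n 819 z (n 4354 z (n 3874 z (n 4354 z (n 4930 z z)))))) z)))))) (n 0 (n
 2962 z (n 3250 z (n 2962 z (n 0 (n 2642 z (n 827 z (n 2674 z (n 3874 z (n 2642 z (n 4978 z
 z)))))) (n 531 z (n 2938 z z)))))) (n 0 (n 2962 z (n 3250 z (n 2962 z (n 0 (n 3874 z (n 827 z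
 (n 4354 z (n 3874 z (n 4354 z (n 4882 z z)))))) (n 1402 z (n 531 z z)))))) z)))))) (n 0 (n 4802
 z (n 1234 z (n 10 z (n 0 (n 2962 z (n 1426 z (n 2962 z (n 531 z (n 0 (n 3874 z (n 3618 z (n
 3602 z (n 3874 z (n 3602 z (n 4834 z z)))))) (n 4818 z z)))))) (n 0 (n 2962 z (n 1426 z (n 2962
 z (n 0 (n 2642 z (n 2658 z (n 2674 z (n 3874 z (n 2642 z (n 4834 z z)))))) (n 531 z (n 4818 z
 z)))))) (n 4802 z z)))))) z)))))) z)))))) (n 0 (n 34 z (n 34 z (n 10 z (n 0 (n 1138 z (n 1234 z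
 (n 1234 z (n 0 (n 4802 z (n 1234 z (n 10 z (n 4802 z (n 715 z (n 0 (n 2962 z (n 1426 z (n 2962
 z (n 4818 z (n 0 (n 763 z (n 1698 z (n 835 z (n 722 z (n 4402 z (n 4594 z z)))))) (n 707 z
 z)))))) z)))))) (n 0 (n 226 z (n 2290 z (n 0 (n 2450 z (n 2466 z (n 2450 z (n 4914 z (n 2482 z
 (n 2450 z z)))))) (n 0 (n 2962 z (n 1426 z (n 2962 z (n 4866 z (n 1402 z (n 0 (n 722 z (n 819 z
 (n 754 z (n 722 z (n 4370 z (n 3602 z z)))))) z)))))) (n 0 (n 2962 z (n 5058 z (n 2962 z (n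
 2938 z (n 5058 z (n 699 z z)))))) (n 0 (n 2962 z (n 1426 z (n 2962 z (n 0 (n 722 z (n 722 z (n
 754 z (n 722 z (n 4402 z (n 4562 z z)))))) (n 0 (n 722 z (n 5122 z (n 835 z (n 722 z (n 4402 z
 (n 4594 z z)))))) (n 0 (n 722 z (n 3618 z (n 754 z (n 722 z (n 4402 z (n 3602 z z)))))) z))))))
 z)))))) (n 0 (n 226 z (n 1234 z (n 0 (n 2450 z (n 2466 z (n 2450 z (n 4914 z (n 2482 z (n 2450
 z z)))))) (n 0 (n 2962 z (n 3250 z (n 2962 z (n 4866 z (n 0 (n 722 z (n 722 z (n 754 z (n 722 z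
 (n 4370 z (n 4594 z z)))))) (n 1402 z z)))))) (n 0 (n 2962 z (n 3250 z (n 2962 z (n 0 (n 722 z
 (n 827 z (n 754 z (n 722 z (n 2642 z (n 4562 z z)))))) (n 0 (n 722 z (n 2658 z (n 754 z (n 722
 z (n 2642 z (n 4594 z z)))))) (n 699 z z)))))) (n 0 (n 2962 z (n 3250 z (n 2962 z (n 2938 z (n
 0 (n 722 z (n 5074 z (n 835 z (n 722 z (n 4402 z (n 4594 z z)))))) (n 5058 z z)))))) z))))))
 z)))))) (n 0 (n 34 z (n 1234 z (n 1234 z (n 0 (n 2098 z (n 1234 z (n 0 (n 2450 z (n 2466 z (n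
 2450 z (n 2450 z (n 2482 z (n 2450 z z)))))) (n 0 (n 2962 z (n 5058 z (n 2962 z (n 5058 z (n
 2938 z (n 0 (n 787 z (n 1698 z (n 3602 z (n 1682 z (n 4370 z (n 3602 z z)))))) z)))))) (n 0 (n
 2962 z (n 1426 z (n 2962 z (n 1402 z (n 4866 z (n 691 z z)))))) (n 0 (n 2962 z (n 1426 z (n
 2962 z (n 1402 z (n 0 (n 1682 z (n 1698 z (n 835 z (n 1682 z (n 4402 z (n 4594 z z)))))) (n 0
 (n 1682 z (n 1698 z (n 3602 z (n 1682 z (n 4402 z (n 3602 z z)))))) z)))))) z)))))) (n 0 (n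
 2098 z (n 2290 z (n 10 z (n 0 (n 2962 z (n 1426 z (n 2962 z (n 10 z (n 4818 z (n 0 (n 787 z (n
 819 z (n 3602 z (n 3874 z (n 4370 z (n 3602 z z)))))) z)))))) (n 4802 z (n 0 (n 2962 z (n 1426
 z (n 2962 z (n 0 (n 3874 z (n 1871628 z (n 1919884 z (n 3874 z (n 4402 z (n 4562 z z)))))) (n
 4818 z (n 10 z z)))))) z)))))) (n 0 (n 2098 z (n 1234 z (n 0 (n 2450 z (n 2466 z (n 2450 z (n
 2450 z (n 2482 z (n 2450 z z)))))) (n 0 (n 2962 z (n 3250 z (n 2962 z (n 0 (n 787 z (n 827 z (n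
 5314 z (n 3874 z (n 4370 z (n 4562 z z)))))) (n 0 (n 787 z (n 1879820 z (n 4930 z (n 3874 z (n
 4370 z (n 4594 z z)))))) (n 1402 z z)))))) (n 0 (n 2962 z (n 3250 z (n 2962 z (n 0 (n 2642 z (n
 827 z (n 2674 z (n 3874 z (n 2642 z (n 4562 z z)))))) (n 4866 z (n 1402 z z)))))) (n 0 (n 2962
 z (n 3250 z (n 2962 z (n 0 (n 3874 z (n 827 z (n 1937180 z (n 3874 z (n 4402 z (n 4562 z
 z)))))) (n 2938 z (n 5058 z z)))))) z)))))) z)))))) (n 0 (n 34 z (n 1234 z (n 1234 z (n 0 (n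
 226 z (n 1234 z (n 0 (n 2450 z (n 2466 z (n 2450 z (n 2450 z (n 2482 z (n 4914 z z)))))) (n 0
 (n 2962 z (n 5058 z (n 2962 z (n 5058 z (n 0 (n 1682 z (n 1698 z (n 1682 z (n 1682 z (n 4370 z
 (n 4594 z z)))))) (n 2938 z z)))))) (n 0 (n 2962 z (n 1426 z (n 2962 z (n 1402 z (n 0 (n 1682 z
 (n 1698 z (n 2674 z (n 1682 z (n 2642 z (n 4594 z z)))))) (n 691 z z)))))) (n 0 (n 2962 z (n
 1426 z (n 2962 z (n 1402 z (n 0 (n 1682 z (n 1698 z (n 835 z (n 1682 z (n 4402 z (n 4594 z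
 z)))))) (n 4866 z z)))))) z)))))) (n 0 (n 226 z (n 2290 z (n 0 (n 2450 z (n 2466 z (n 2450 z (n
 2450 z (n 2482 z (n 4914 z z)))))) (n 0 (n 2962 z (n 1426 z (n 2962 z (n 0 (n 3874 z (n 819 z
 (n 795 z (n 3874 z (n 4370 z (n 4562 z z)))))) (n 1402 z (n 2938 z z)))))) (n 0 (n 2962 z (n
 5058 z (n 2962 z (n 0 (n 2642 z (n 2658 z (n 795 z (n 3874 z (n 2642 z (n 4562 z z)))))) (n
 5058 z (n 2938 z z)))))) (n 0 (n 2962 z (n 1426 z (n 2962 z (n 0 (n 3874 z (n 1888012 z (n 795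
 z (n 3874 z (n 4402 z (n 4562 z z)))))) (n 1402 z (n 4866 z z)))))) z)))))) (n 0 (n 4802 z (n
 1234 z (n 10 z (n 0 (n 2962 z (n 3250 z (n 2962 z (n 10 z (n 10 z (n 4818 z z)))))) (n 0 (n
 2962 z (n 3250 z (n 2962 z (n 0 (n 2642 z (n 827 z (n 795 z (n 3874 z (n 2642 z (n 4562 z
 z)))))) (n 10 z (n 4818 z z)))))) (n 4802 z z)))))) z)))))) z)))))) z)))))) z))))) (n 0 (n 210
 z (n 1218 z (n 0 (n 2402 z (n 2418 z (n 2402 z (n 3954 z (n 2402 z (n 2402 z z)))))) (n 0 (n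
 2946 z (n 1410 z (n 2946 z (n 3906 z (n 1394 z (n 0 (n 34 z (n 34 z (n 10 z (n 0 (n 34 z (n
 1234 z (n 1234 z (n 10 z (n 0 (n 2098 z (n 1234 z (n 10 z (n 275 z (n 0 (n 2962 z (n 5058 z (n
 2962 z (n 2938 z (n 5058 z (n 707 z z)))))) (n 0 (n 2962 z (n 1426 z (n 2962 z (n 2938 z (n
 1402 z (n 707 z z)))))) z)))))) (n 0 (n 2098 z (n 1234 z (n 10 z (n 275 z (n 0 (n 2962 z (n
 3250 z (n 2962 z (n 2938 z (n 0 (n 722 z (n 827 z (n 754 z (n 722 z (n 4210 z (n 4578 z z))))))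
 (n 1402 z z)))))) (n 0 (n 2962 z (n 3250 z (n 2962 z (n 2938 z (n 0 (n 722 z (n 827 z (n 754 z
 (n 722 z (n 4210 z (n 4578 z z)))))) (n 5058 z z)))))) z)))))) z)))))) (n 0 (n 1138 z (n 1234 z
 (n 1234 z (n 0 (n 226 z (n 2290 z (n 10 z (n 0 (n 2962 z (n 5058 z (n 2962 z (n 5058 z (n 2938
 z (n 0 (n 763 z (n 2658 z (n 2674 z (n 2642 z (n 4178 z (n 3602 z z)))))) z)))))) (n 275 z (n 0
 (n 2962 z (n 1426 z (n 2962 z (n 1402 z (n 2938 z (n 2938 z z)))))) z)))))) (n 10 z (n 0 (n 226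
 z (n 1234 z (n 10 z (n 0 (n 2962 z (n 3250 z (n 2962 z (n 0 (n 2642 z (n 2658 z (n 2674 z (n
 2642 z (n 4210 z (n 4562 z z)))))) (n 2938 z (n 1402 z z)))))) (n 275 z (n 0 (n 2962 z (n 3250
 z (n 2962 z (n 0 (n 3922 z (n 5074 z (n 835 z (n 3922 z (n 4210 z (n 4562 z z)))))) (n 2938 z
 (n 5058 z z)))))) z)))))) z)))))) (n 0 (n 34 z (n 1234 z (n 1234 z (n 0 (n 226 z (n 2290 z (n
 10 z (n 0 (n 2962 z (n 5058 z (n 2962 z (n 5058 z (n 1402 z (n 2938 z z)))))) (n 0 (n 2962 z (n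
 1426 z (n 2962 z (n 1402 z (n 2938 z (n 2938 z z)))))) (n 275 z z)))))) (n 0 (n 226 z (n 1234 z
 (n 10 z (n 0 (n 2962 z (n 1426 z (n 2962 z (n 2938 z (n 1402 z (n 691 z z)))))) (n 0 (n 2962 z
 (n 5058 z (n 2962 z (n 1402 z (n 5058 z (n 2938 z z)))))) (n 275 z z)))))) (n 10 z z))))))
 z)))))) z)))))) (n 0 (n 2946 z (n 4098 z (n 2946 z (n 2930 z (n 4098 z (n 1394 z z)))))) (n 0
 (n 2946 z (n 1410 z (n 2946 z (n 2930 z (n 1394 z (n 1394 z z)))))) z)))))) z))))) z)))) (n 0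
 (n 18 z (n 18 z (n 0 (n 18 z (n 1218 z (n 0 (n 3842 z (n 1218 z (n 3842 z (n 0 (n 482 z (n 2418
 z (n 482 z (n 2402 z (n 674 z z))))) (n 0 (n 482 z (n 3170 z (n 482 z (n 674 z (n 674 z (n 674
 z z)))))) z))))) (n 1218 z (n 0 (n 210 z (n 1218 z (n 0 (n 482 z (n 690 z (n 482 z (n 3362 z (n
 690 z (n 690 z z)))))) (n 0 (n 482 z (n 2418 z (n 482 z (n 2402 z (n 1218 z (n 0 (n 34 z (n 34
 z (n 514 z (n 0 (n 34 z (n 1234 z (n 0 (n 2082 z (n 1234 z (n 0 (n 779 z (n 3218 z (n 3042 z (n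
 3410 z (n 1867788 z (n 1867788 z z)))))) (n 2434 z (n 0 (n 1875980 z (n 3218 z (n 3042 z (n
 4898 z (n 5282 z (n 0 (n 1916972 z (n 3618 z (n 3602 z (n 3634 z (n 4178 z (n 635 z z))))))
 z)))))) (n 2434 z z)))))) (n 1234 z (n 0 (n 2082 z (n 1234 z (n 0 (n 779 z (n 1426 z (n 3042 z
 (n 3410 z (n 1226 z (n 0 (n 787 z (n 1698 z (n 3602 z (n 3634 z (n 1682 z (n 635 z z))))))
 z)))))) (n 2434 z (n 1226 z (n 2434 z z)))))) (n 0 (n 2082 z (n 1234 z (n 0 (n 779 z (n 3250 z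
 (n 3042 z (n 3410 z (n 0 (n 787 z (n 827 z (n 4002 z (n 4370 z (n 635 z (n 4578 z z)))))) (n
 1884172 z z)))))) (n 2434 z (n 0 (n 0 (n 635 z (n 1877196 z (n 4002 z (n 4386 z (n 4210 z (n
 5154 z z)))))) (n 3250 z (n 3042 z (n 2434 z (n 5282 z (n 0 (n 3810 z (n 3618 z (n 3602 z (n
 3634 z (n 4210 z (n 635 z z)))))) z)))))) (n 2434 z z)))))) z)))))) (n 0 (n 1138 z (n 1234 z (n
 0 (n 226 z (n 1234 z (n 0 (n 1892364 z (n 3218 z (n 5058 z (n 3410 z (n 4898 z (n 0 (n 763 z (n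
 3618 z (n 3602 z (n 3634 z (n 4178 z (n 635 z z)))))) z)))))) (n 2434 z (n 0 (n 4866 z (n 3218
 z (n 514 z (n 2434 z (n 4866 z (n 0 (n 763 z (n 3618 z (n 3602 z (n 3634 z (n 4178 z (n 635 z
 z)))))) z)))))) (n 2434 z z)))))) (n 1234 z (n 0 (n 4802 z (n 1234 z (n 0 (n 4818 z (n 1426 z
 (n 514 z (n 3410 z (n 4818 z (n 0 (n 1682 z (n 1698 z (n 3602 z (n 3634 z (n 1682 z (n 635 z
 z)))))) z)))))) (n 2434 z (n 4802 z (n 2434 z z)))))) (n 0 (n 226 z (n 1234 z (n 0 (n 0 (n 635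
 z (n 1925636 z (n 3986 z (n 4370 z (n 4210 z (n 5138 z z)))))) (n 3250 z (n 514 z (n 3410 z (n
 4914 z (n 0 (n 3810 z (n 3618 z (n 3602 z (n 3634 z (n 4210 z (n 635 z z)))))) z)))))) (n 2434
 z (n 0 (n 4866 z (n 3250 z (n 514 z (n 2434 z (n 4866 z (n 0 (n 4882 z (n 3618 z (n 3602 z (n
 3634 z (n 4210 z (n 635 z z)))))) z)))))) (n 2434 z z)))))) z)))))) (n 514 z z)))))) z)))))) (n
 0 (n 482 z (n 4098 z (n 482 z (n 1410 z (n 4098 z (n 0 (n 34 z (n 34 z (n 514 z (n 0 (n 34 z (n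
 1234 z (n 0 (n 2082 z (n 1234 z (n 411 z (n 0 (n 2450 z (n 2466 z (n 3042 z (n 2450 z (n 2482 z
 (n 2786 z z)))))) (n 0 (n 1875980 z (n 3218 z (n 3042 z (n 4898 z (n 5282 z (n 0 (n 2642 z (n
 2658 z (n 3602 z (n 2674 z (n 2642 z (n 3602 z z)))))) z)))))) (n 0 (n 1875980 z (n 3218 z (n
 3042 z (n 3442 z (n 0 (n 1925628 z (n 4114 z (n 5170 z (n 835 z (n 4114 z (n 4578 z z)))))) (n
 5282 z z)))))) z)))))) (n 1234 z (n 0 (n 2082 z (n 2290 z (n 0 (n 779 z (n 1426 z (n 3042 z (n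
 3410 z (n 1884172 z (n 0 (n 1682 z (n 1698 z (n 3602 z (n 3634 z (n 1682 z (n 3602 z z))))))
 z)))))) (n 0 (n 2450 z (n 2466 z (n 3042 z (n 2450 z (n 2482 z (n 2786 z z)))))) (n 411 z (n 0
 (n 0 (n 1682 z (n 1698 z (n 706 z (n 1698 z (n 1682 z (n 5346 z z)))))) (n 1426 z (n 3042 z (n
 3442 z (n 0 (n 1682 z (n 1698 z (n 706 z (n 835 z (n 1682 z (n 4578 z z)))))) (n 5282 z z))))))
 z)))))) (n 0 (n 2082 z (n 1234 z (n 0 (n 779 z (n 3250 z (n 3042 z (n 3410 z (n 0 (n 1917436 z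
 (n 827 z (n 5362 z (n 4962 z (n 4114 z (n 4578 z z)))))) (n 1884172 z z)))))) (n 0 (n 2450 z (n
 2466 z (n 3042 z (n 2450 z (n 2482 z (n 2786 z z)))))) (n 0 (n 0 (n 2642 z (n 2658 z (n 706 z
 (n 2674 z (n 2642 z (n 5154 z z)))))) (n 3250 z (n 3042 z (n 3746 z (n 5282 z (n 0 (n 2642 z (n
 2658 z (n 3602 z (n 2674 z (n 2642 z (n 3602 z z)))))) z)))))) (n 411 z z)))))) z)))))) (n 0 (n
 1138 z (n 1234 z (n 0 (n 2098 z (n 1234 z (n 411 z (n 0 (n 2450 z (n 2466 z (n 514 z (n 2450 z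
 (n 2482 z (n 0 (n 763 z (n 3618 z (n 3602 z (n 3634 z (n 4114 z (n 3602 z z)))))) z)))))) (n 0
 (n 4866 z (n 3218 z (n 514 z (n 0 (n 763 z (n 2658 z (n 3986 z (n 2674 z (n 2642 z (n 2658 z
 z)))))) (n 4866 z (n 0 (n 763 z (n 2658 z (n 3602 z (n 2674 z (n 2642 z (n 3602 z z))))))
 z)))))) (n 0 (n 0 (n 763 z (n 4114 z (n 3986 z (n 1933828 z (n 4114 z (n 5330 z z)))))) (n 3218
 z (n 514 z (n 3442 z (n 4898 z (n 0 (n 763 z (n 3618 z (n 3602 z (n 3634 z (n 4114 z (n 3602 z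
 z)))))) z)))))) z)))))) (n 1234 z (n 0 (n 2098 z (n 2290 z (n 0 (n 4818 z (n 1426 z (n 514 z (n
 3410 z (n 4818 z (n 0 (n 787 z (n 1698 z (n 3602 z (n 3634 z (n 1682 z (n 3602 z z))))))
 z)))))) (n 0 (n 2450 z (n 2466 z (n 514 z (n 2450 z (n 2482 z (n 1242 z z)))))) (n 411 z (n 0
 (n 4818 z (n 1426 z (n 514 z (n 3442 z (n 4818 z (n 4802 z z)))))) z)))))) (n 0 (n 2098 z (n
 1234 z (n 0 (n 0 (n 787 z (n 4114 z (n 3986 z (n 1917452 z (n 4114 z (n 5138 z z)))))) (n 3250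
 z (n 514 z (n 3410 z (n 4914 z (n 0 (n 787 z (n 3618 z (n 3602 z (n 3634 z (n 4114 z (n 3602 z
 z)))))) z)))))) (n 0 (n 2450 z (n 2466 z (n 514 z (n 2450 z (n 2482 z (n 1234 z z)))))) (n 0 (n
 4866 z (n 3250 z (n 514 z (n 0 (n 2642 z (n 2658 z (n 3986 z (n 2674 z (n 2642 z (n 5138 z
 z)))))) (n 4866 z (n 0 (n 2642 z (n 2658 z (n 3602 z (n 2674 z (n 2642 z (n 3602 z z))))))
 z)))))) (n 411 z z)))))) z)))))) (n 514 z z)))))) z)))))) (n 0 (n 482 z (n 1410 z (n 482 z (n 0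
 (n 34 z (n 34 z (n 514 z (n 514 z (n 0 (n 1138 z (n 1234 z (n 0 (n 226 z (n 1234 z (n 0 (n
 1892364 z (n 3218 z (n 5058 z (n 3394 z (n 4898 z (n 3394 z z)))))) (n 0 (n 2450 z (n 2466 z (n
 514 z (n 2450 z (n 4898 z (n 2482 z z)))))) (n 0 (n 4866 z (n 3218 z (n 514 z (n 3394 z (n 4866
 z (n 3394 z z)))))) (n 0 (n 0 (n 763 z (n 2658 z (n 3986 z (n 2674 z (n 4178 z (n 2642 z
 z)))))) (n 3218 z (n 514 z (n 3394 z (n 4898 z (n 3394 z z)))))) z)))))) (n 1234 z (n 0 (n 4802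
 z (n 1234 z (n 0 (n 4818 z (n 1426 z (n 514 z (n 3394 z (n 4818 z (n 3394 z z)))))) (n 0 (n
 2450 z (n 2466 z (n 514 z (n 2450 z (n 4818 z (n 2482 z z)))))) (n 4802 z (n 0 (n 4818 z (n
 1426 z (n 514 z (n 691 z (n 4818 z (n 3394 z z)))))) z)))))) (n 0 (n 226 z (n 2290 z (n 0 (n 0
 (n 1916956 z (n 1925148 z (n 3986 z (n 3586 z (n 4194 z (n 4370 z z)))))) (n 1426 z (n 514 z (n
 3394 z (n 4914 z (n 3394 z z)))))) (n 0 (n 2450 z (n 2466 z (n 514 z (n 2450 z (n 2482 z (n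
 2482 z z)))))) (n 0 (n 4866 z (n 1426 z (n 514 z (n 3394 z (n 4866 z (n 3394 z z)))))) (n 0 (n
 0 (n 2642 z (n 2658 z (n 3986 z (n 2674 z (n 4194 z (n 2642 z z)))))) (n 5058 z (n 514 z (n
 3394 z (n 5058 z (n 3394 z z)))))) z)))))) z)))))) (n 0 (n 34 z (n 1234 z (n 0 (n 2098 z (n
 1234 z (n 0 (n 1892364 z (n 3218 z (n 5058 z (n 3394 z (n 0 (n 787 z (n 5074 z (n 4002 z (n
 4578 z (n 4178 z (n 4370 z z)))))) (n 3394 z z)))))) (n 0 (n 2450 z (n 2466 z (n 514 z (n 2450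
 z (n 2482 z (n 2482 z z)))))) (n 0 (n 0 (n 1916972 z (n 1925164 z (n 4002 z (n 3586 z (n 4178 z
 (n 4386 z z)))))) (n 3218 z (n 514 z (n 3394 z (n 0 (n 1916972 z (n 1925164 z (n 4002 z (n 4578
 z (n 4178 z (n 4386 z z)))))) (n 3394 z z)))))) (n 0 (n 4866 z (n 3218 z (n 514 z (n 3394 z (n
 0 (n 2642 z (n 2658 z (n 4002 z (n 2674 z (n 4178 z (n 2642 z z)))))) (n 3394 z z)))))) z))))))
 (n 1234 z (n 0 (n 2098 z (n 1234 z (n 0 (n 0 (n 787 z (n 1698 z (n 4002 z (n 3586 z (n 1682 z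
 (n 4370 z z)))))) (n 1426 z (n 514 z (n 3394 z (n 1418 z (n 3394 z z)))))) (n 0 (n 2450 z (n
 2466 z (n 514 z (n 2450 z (n 2482 z (n 2482 z z)))))) (n 0 (n 1418 z (n 5058 z (n 514 z (n 3394
 z (n 5058 z (n 3394 z z)))))) (n 0 (n 4866 z (n 1426 z (n 514 z (n 691 z (n 1418 z (n 3394 z
 z)))))) z)))))) (n 0 (n 2098 z (n 2290 z (n 0 (n 4818 z (n 1426 z (n 514 z (n 3394 z (n 0 (n
 787 z (n 1880780 z (n 4002 z (n 4578 z (n 4194 z (n 4370 z z)))))) (n 3394 z z)))))) (n 0 (n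
 2450 z (n 2466 z (n 514 z (n 2450 z (n 2482 z (n 2482 z z)))))) (n 0 (n 4818 z (n 1426 z (n 514
 z (n 3394 z (n 4802 z (n 3394 z z)))))) (n 4802 z z)))))) z)))))) z)))))) (n 674 z (n 0 (n 34 z
 (n 34 z (n 514 z (n 0 (n 34 z (n 1234 z (n 0 (n 2082 z (n 1234 z (n 0 (n 779 z (n 3218 z (n 531
 z (n 3410 z (n 1867788 z (n 1867788 z z)))))) (n 0 (n 2450 z (n 2466 z (n 3042 z (n 531 z (n
 2786 z (n 2482 z z)))))) (n 0 (n 1875980 z (n 3218 z (n 3042 z (n 4898 z (n 531 z (n 0 (n 3634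
 z (n 3618 z (n 3602 z (n 3634 z (n 4178 z (n 3602 z z)))))) z)))))) (n 0 (n 1875980 z (n 3218 z
 (n 3042 z (n 3442 z (n 0 (n 2642 z (n 2658 z (n 5170 z (n 2674 z (n 4178 z (n 2642 z z)))))) (n
 531 z z)))))) z)))))) (n 1234 z (n 0 (n 2082 z (n 1234 z (n 0 (n 779 z (n 1426 z (n 531 z (n
 3410 z (n 1884172 z (n 0 (n 1682 z (n 1698 z (n 3602 z (n 3634 z (n 1682 z (n 3602 z z))))))
 z)))))) (n 0 (n 2450 z (n 2466 z (n 3042 z (n 531 z (n 2786 z (n 2482 z z)))))) (n 0 (n 1872836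
 z (n 5058 z (n 3042 z (n 3746 z (n 531 z (n 0 (n 1682 z (n 1698 z (n 3602 z (n 3634 z (n 1682 z
 (n 3602 z z)))))) z)))))) (n 0 (n 0 (n 1682 z (n 1698 z (n 706 z (n 2674 z (n 1682 z (n 2642 z
 z)))))) (n 1426 z (n 3042 z (n 3442 z (n 0 (n 1682 z (n 1698 z (n 706 z (n 2674 z (n 1682 z (n
 2642 z z)))))) (n 531 z z)))))) z)))))) (n 0 (n 2082 z (n 2290 z (n 0 (n 779 z (n 3250 z (n 531
 z (n 3410 z (n 0 (n 690 z (n 827 z (n 5346 z (n 4354 z (n 4194 z (n 4354 z z)))))) (n 1884172 z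
 z)))))) (n 0 (n 2450 z (n 2466 z (n 3042 z (n 531 z (n 2786 z (n 2482 z z)))))) (n 0 (n 0 (n
 5538 z (n 819 z (n 706 z (n 4354 z (n 4194 z (n 4354 z z)))))) (n 3250 z (n 3042 z (n 3746 z (n
 531 z (n 0 (n 3634 z (n 819 z (n 3602 z (n 3634 z (n 4194 z (n 3602 z z)))))) z)))))) (n 0 (n
 1872836 z (n 3250 z (n 3042 z (n 3442 z (n 0 (n 2642 z (n 827 z (n 706 z (n 2674 z (n 4194 z (n
 2642 z z)))))) (n 531 z z)))))) z)))))) z)))))) (n 0 (n 1138 z (n 1234 z (n 0 (n 226 z (n 1234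
 z (n 0 (n 1892364 z (n 3218 z (n 531 z (n 3410 z (n 4898 z (n 0 (n 763 z (n 3618 z (n 3602 z (n
 3634 z (n 4178 z (n 3602 z z)))))) z)))))) (n 0 (n 2450 z (n 2466 z (n 514 z (n 531 z (n 4898 z
 (n 2482 z z)))))) (n 0 (n 4866 z (n 3218 z (n 514 z (n 0 (n 763 z (n 1880828 z (n 3986 z (n
 4354 z (n 4178 z (n 4354 z z)))))) (n 531 z (n 0 (n 763 z (n 3618 z (n 3602 z (n 3634 z (n 4178
 z (n 3602 z z)))))) z)))))) (n 0 (n 0 (n 763 z (n 2658 z (n 3986 z (n 2674 z (n 4178 z (n 2642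
 z z)))))) (n 3218 z (n 514 z (n 3442 z (n 4898 z (n 531 z z)))))) z)))))) (n 1234 z (n 0 (n
 4802 z (n 1234 z (n 0 (n 4818 z (n 1426 z (n 531 z (n 3410 z (n 4818 z (n 0 (n 1682 z (n 1698 z
 (n 3602 z (n 3634 z (n 1682 z (n 3602 z z)))))) z)))))) (n 0 (n 2450 z (n 2466 z (n 514 z (n
 531 z (n 4818 z (n 2482 z z)))))) (n 4802 z (n 0 (n 4818 z (n 1426 z (n 514 z (n 3442 z (n 4818
 z (n 531 z z)))))) z)))))) (n 0 (n 226 z (n 2290 z (n 0 (n 0 (n 5538 z (n 1925148 z (n 3986 z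
 (n 4354 z (n 4194 z (n 4354 z z)))))) (n 3250 z (n 531 z (n 3410 z (n 4914 z (n 0 (n 3634 z (n
 3618 z (n 3602 z (n 3634 z (n 4194 z (n 3602 z z)))))) z)))))) (n 0 (n 2450 z (n 2466 z (n 514
 z (n 531 z (n 0 (n 690 z (n 827 z (n 3986 z (n 4354 z (n 4194 z (n 4354 z z)))))) (n 2482 z
 z)))))) (n 0 (n 4866 z (n 3250 z (n 514 z (n 0 (n 4882 z (n 819 z (n 3986 z (n 4354 z (n 4194 z
 (n 4354 z z)))))) (n 531 z (n 4850 z z)))))) (n 0 (n 0 (n 2642 z (n 2658 z (n 3986 z (n 2674 z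
 (n 4194 z (n 2642 z z)))))) (n 3250 z (n 514 z (n 3442 z (n 5058 z (n 531 z z)))))) z))))))
 z)))))) (n 514 z z)))))) z)))))) z)))))) z))))) (n 0 (n 18 z (n 1218 z (n 0 (n 2034 z (n 1218 z
 (n 0 (n 771 z (n 3170 z (n 2994 z (n 3362 z (n 1867780 z z))))) (n 0 (n 2402 z (n 2418 z (n
 2994 z (n 2402 z (n 2594 z z))))) (n 0 (n 1875972 z (n 3170 z (n 2994 z (n 3938 z (n 4322 z (n
 26617 z z)))))) z))))) (n 1218 z (n 0 (n 2034 z (n 1218 z (n 0 (n 771 z (n 1410 z (n 2994 z (n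
 3362 z (n 1884164 z (n 6137 z z)))))) (n 0 (n 2402 z (n 2418 z (n 2994 z (n 2402 z (n 2594 z (n
 2594 z z)))))) (n 0 (n 4098 z (n 4098 z (n 2994 z (n 3554 z (n 4098 z (n 0 (n 34 z (n 34 z (n
 10 z (n 0 (n 34 z (n 1234 z (n 10 z (n 1234 z (n 0 (n 2082 z (n 2290 z (n 10 z (n 10 z (n 411 z
 (n 0 (n 0 (n 722 z (n 1698 z (n 754 z (n 722 z (n 1682 z (n 5346 z z)))))) (n 1426 z (n 3042 z
 (n 3442 z (n 0 (n 722 z (n 1698 z (n 754 z (n 835 z (n 1682 z (n 4578 z z)))))) (n 707 z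
 z)))))) z)))))) (n 0 (n 2082 z (n 1234 z (n 10 z (n 10 z (n 0 (n 0 (n 722 z (n 2658 z (n 754 z
 (n 722 z (n 2642 z (n 5154 z z)))))) (n 3250 z (n 3042 z (n 3746 z (n 5282 z (n 699 z z))))))
 (n 411 z z)))))) z)))))) (n 0 (n 1138 z (n 1234 z (n 0 (n 2098 z (n 1234 z (n 411 z (n 0 (n
 2450 z (n 2466 z (n 3650 z (n 2450 z (n 2482 z (n 0 (n 787 z (n 3618 z (n 3602 z (n 3634 z (n
 4114 z (n 3602 z z)))))) z)))))) (n 0 (n 4866 z (n 3218 z (n 3650 z (n 1434 z (n 4866 z (n 0 (n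
 2642 z (n 2658 z (n 3602 z (n 2674 z (n 2642 z (n 3602 z z)))))) z)))))) (n 0 (n 0 (n 5554 z (n
 4114 z (n 5138 z (n 3986 z (n 4114 z (n 5330 z z)))))) (n 3218 z (n 3650 z (n 3442 z (n 4898 z
 (n 0 (n 3826 z (n 3618 z (n 3602 z (n 3634 z (n 4114 z (n 3602 z z)))))) z)))))) z)))))) (n
 1234 z (n 0 (n 2098 z (n 2290 z (n 0 (n 4818 z (n 1426 z (n 3666 z (n 3410 z (n 4818 z (n 0 (n
 1682 z (n 1698 z (n 3602 z (n 3634 z (n 1682 z (n 3602 z z)))))) z)))))) (n 0 (n 2450 z (n 2466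
 z (n 1242 z (n 2450 z (n 2482 z (n 1242 z z)))))) (n 411 z (n 0 (n 4818 z (n 1426 z (n 0 (n
 1682 z (n 1698 z (n 5554 z (n 3986 z (n 1682 z (n 5330 z z)))))) (n 3442 z (n 4818 z (n 4802 z
 z)))))) z)))))) (n 0 (n 2098 z (n 1234 z (n 0 (n 0 (n 5538 z (n 4114 z (n 5330 z (n 3986 z (n
 4114 z (n 5138 z z)))))) (n 3250 z (n 3666 z (n 3410 z (n 4914 z (n 0 (n 3810 z (n 3618 z (n
 3602 z (n 3634 z (n 4114 z (n 3602 z z)))))) z)))))) (n 0 (n 2450 z (n 2466 z (n 0 (n 787 z (n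
 4114 z (n 5538 z (n 3986 z (n 4114 z (n 5138 z z)))))) (n 2450 z (n 2482 z (n 1234 z z)))))) (n
 0 (n 4866 z (n 3250 z (n 0 (n 2642 z (n 2658 z (n 5538 z (n 2674 z (n 2642 z (n 5138 z z))))))
 (n 1434 z (n 4866 z (n 4850 z z)))))) (n 411 z z)))))) z)))))) (n 0 (n 34 z (n 1234 z (n 0 (n
 226 z (n 1234 z (n 411 z (n 0 (n 2450 z (n 2466 z (n 3058 z (n 2450 z (n 2482 z (n 4898 z
 z)))))) (n 0 (n 0 (n 2642 z (n 2658 z (n 5154 z (n 2674 z (n 2642 z (n 2658 z z)))))) (n 3218 z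
 (n 3058 z (n 1434 z (n 0 (n 2642 z (n 2658 z (n 5154 z (n 2674 z (n 2642 z (n 4578 z z)))))) (n
 4898 z z)))))) (n 0 (n 4866 z (n 3218 z (n 3058 z (n 3442 z (n 0 (n 4882 z (n 4114 z (n 5170 z
 (n 835 z (n 4114 z (n 4578 z z)))))) (n 4866 z z)))))) z)))))) (n 1234 z (n 0 (n 226 z (n 2290
 z (n 0 (n 0 (n 1682 z (n 1698 z (n 5346 z (n 4018 z (n 1682 z (n 1698 z z)))))) (n 1426 z (n
 3058 z (n 3410 z (n 0 (n 1682 z (n 1698 z (n 5346 z (n 4018 z (n 1682 z (n 4578 z z)))))) (n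
 4914 z z)))))) (n 0 (n 2450 z (n 2466 z (n 3058 z (n 2450 z (n 2482 z (n 1242 z z)))))) (n 411
 z (n 0 (n 4866 z (n 1426 z (n 3058 z (n 3442 z (n 4850 z (n 4866 z z)))))) z)))))) (n 0 (n 4802
 z (n 1234 z (n 0 (n 4818 z (n 3250 z (n 3058 z (n 3410 z (n 0 (n 4834 z (n 827 z (n 5362 z (n
 4018 z (n 4114 z (n 4578 z z)))))) (n 4818 z z)))))) (n 0 (n 2450 z (n 2466 z (n 3058 z (n 2450
 z (n 2482 z (n 4818 z z)))))) (n 0 (n 4818 z (n 3250 z (n 3058 z (n 1434 z (n 4802 z (n 4818 z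
 z)))))) (n 411 z z)))))) z)))))) z)))))) z)))))) (n 0 (n 22521 z (n 1410 z (n 2994 z (n 3554 z
 (n 14329 z (n 4322 z z)))))) z)))))) z))))) (n 0 (n 18 z (n 1218 z (n 0 (n 210 z (n 1218 z (n 0
 (n 1892356 z (n 3170 z (n 4098 z (n 3362 z (n 3938 z (n 0 (n 34 z (n 34 z (n 10 z (n 10 z (n 0
 (n 34 z (n 1234 z (n 0 (n 226 z (n 2290 z (n 411 z (n 0 (n 2450 z (n 2466 z (n 2482 z (n 2450 z
 (n 4898 z (n 707 z z)))))) (n 0 (n 4866 z (n 3218 z (n 3650 z (n 1434 z (n 4866 z (n 707 z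
 z)))))) (n 0 (n 0 (n 722 z (n 1698 z (n 1682 z (n 1698 z (n 722 z (n 5346 z z)))))) (n 3218 z
 (n 3650 z (n 3442 z (n 4898 z (n 707 z z)))))) z)))))) (n 1234 z (n 0 (n 4802 z (n 1234 z (n 0
 (n 4818 z (n 1426 z (n 3666 z (n 3410 z (n 4818 z (n 699 z z)))))) (n 0 (n 2450 z (n 2466 z (n
 2482 z (n 2450 z (n 4818 z (n 0 (n 722 z (n 3618 z (n 754 z (n 3634 z (n 722 z (n 3602 z
 z)))))) z)))))) (n 411 z (n 0 (n 4818 z (n 1426 z (n 0 (n 722 z (n 4114 z (n 754 z (n 835 z (n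
 722 z (n 4578 z z)))))) (n 3442 z (n 4818 z (n 4802 z z)))))) z)))))) (n 0 (n 226 z (n 1234 z
 (n 0 (n 0 (n 722 z (n 2658 z (n 2642 z (n 2674 z (n 722 z (n 5154 z z)))))) (n 3250 z (n 3666 z
 (n 3410 z (n 4914 z (n 699 z z)))))) (n 0 (n 2450 z (n 2466 z (n 2482 z (n 2450 z (n 2794 z (n
 1234 z z)))))) (n 0 (n 4866 z (n 3250 z (n 0 (n 722 z (n 827 z (n 754 z (n 930 z (n 722 z (n
 4578 z z)))))) (n 0 (n 722 z (n 4114 z (n 754 z (n 5538 z (n 722 z (n 930 z z)))))) (n 4866 z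
 (n 4850 z z)))))) (n 411 z z)))))) z)))))) (n 0 (n 34 z (n 1234 z (n 0 (n 226 z (n 2290 z (n
 411 z (n 0 (n 2450 z (n 2466 z (n 2482 z (n 2450 z (n 1242 z (n 4898 z z)))))) (n 0 (n 0 (n
 1682 z (n 1698 z (n 1682 z (n 1698 z (n 4018 z (n 4962 z z)))))) (n 3218 z (n 3058 z (n 1434 z
 (n 0 (n 1682 z (n 1698 z (n 795 z (n 5314 z (n 4018 z (n 4562 z z)))))) (n 4898 z z)))))) (n 0
 (n 4866 z (n 3218 z (n 3058 z (n 3442 z (n 0 (n 1682 z (n 1698 z (n 795 z (n 1698 z (n 4018 z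
 (n 4562 z z)))))) (n 4866 z z)))))) z)))))) (n 1234 z (n 0 (n 226 z (n 1234 z (n 0 (n 0 (n 2642
 z (n 2658 z (n 2642 z (n 2674 z (n 4018 z (n 4946 z z)))))) (n 1426 z (n 3058 z (n 3410 z (n 0
 (n 2642 z (n 2658 z (n 795 z (n 2674 z (n 4018 z (n 4562 z z)))))) (n 4914 z z)))))) (n 0 (n
 2450 z (n 2466 z (n 2482 z (n 2450 z (n 1234 z (n 2794 z z)))))) (n 411 z (n 0 (n 4866 z (n
 1426 z (n 3058 z (n 3442 z (n 4850 z (n 4866 z z)))))) z)))))) (n 0 (n 4802 z (n 1234 z (n 0 (n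
 4818 z (n 3250 z (n 3058 z (n 3410 z (n 0 (n 2642 z (n 2658 z (n 795 z (n 2674 z (n 4018 z (n
 4562 z z)))))) (n 4818 z z)))))) (n 0 (n 2450 z (n 2466 z (n 2482 z (n 2450 z (n 0 (n 4834 z (n
 4114 z (n 795 z (n 2818 z (n 4018 z (n 4562 z z)))))) (n 4818 z z)))))) (n 0 (n 4818 z (n 3250
 z (n 3058 z (n 0 (n 4834 z (n 4114 z (n 4114 z (n 5522 z (n 4018 z (n 4834 z z)))))) (n 4802 z
 (n 4818 z z)))))) (n 411 z z)))))) z)))))) z)))))) z)))))) (n 0 (n 2402 z (n 2418 z (n 3458 z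
 (n 2402 z (n 3938 z (n 30713 z z)))))) (n 0 (n 3906 z (n 3170 z (n 3458 z (n 0 (n 34 z (n 34 z
 (n 10 z (n 10 z (n 0 (n 34 z (n 1234 z (n 1418 z (n 1234 z (n 1418 z (n 0 (n 2098 z (n 1234 z
 (n 0 (n 3562 z (n 1426 z (n 3666 z (n 3394 z (n 3394 z (n 0 (n 722 z (n 5122 z (n 754 z (n 738
 z (n 722 z (n 5122 z z)))))) z)))))) (n 0 (n 2450 z (n 2466 z (n 2482 z (n 2450 z (n 2482 z (n
 2482 z z)))))) (n 0 (n 4866 z (n 1426 z (n 3562 z (n 699 z (n 3394 z (n 4850 z z)))))) (n 0 (n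
 3562 z (n 5058 z (n 3562 z (n 3394 z (n 3394 z (n 5058 z z)))))) z)))))) z)))))) (n 0 (n 34 z
 (n 1234 z (n 1418 z (n 1234 z (n 1418 z (n 0 (n 4802 z (n 1234 z (n 0 (n 4818 z (n 1426 z (n
 3666 z (n 3394 z (n 3394 z (n 4818 z z)))))) (n 0 (n 2450 z (n 2466 z (n 2482 z (n 2450 z (n
 2482 z (n 4818 z z)))))) (n 0 (n 4818 z (n 1426 z (n 3562 z (n 3394 z (n 3394 z (n 4818 z
 z)))))) (n 4802 z z)))))) z)))))) z)))))) (n 3906 z (n 0 (n 34 z (n 34 z (n 10 z (n 10 z (n 0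
 (n 34 z (n 1234 z (n 0 (n 2098 z (n 1234 z (n 10 z (n 10 z (n 715 z (n 0 (n 0 (n 722 z (n 1698
 z (n 1682 z (n 738 z (n 722 z (n 5330 z z)))))) (n 3218 z (n 3650 z (n 3442 z (n 4898 z (n 707
 z z)))))) z)))))) (n 1234 z (n 0 (n 2098 z (n 2290 z (n 0 (n 4818 z (n 1426 z (n 3666 z (n 3410
 z (n 4818 z (n 4802 z z)))))) (n 0 (n 2450 z (n 2466 z (n 1242 z (n 2450 z (n 2482 z (n 1242 z
 z)))))) (n 4802 z (n 0 (n 4818 z (n 1426 z (n 0 (n 722 z (n 738 z (n 754 z (n 738 z (n 722 z (n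
 4578 z z)))))) (n 3442 z (n 4818 z (n 4802 z z)))))) z)))))) (n 0 (n 2098 z (n 1234 z (n 0 (n 0
 (n 722 z (n 738 z (n 754 z (n 738 z (n 722 z (n 5154 z z)))))) (n 3250 z (n 3666 z (n 3410 z (n
 4914 z (n 0 (n 722 z (n 3618 z (n 754 z (n 3634 z (n 722 z (n 3602 z z)))))) z)))))) (n 0 (n
 2450 z (n 2466 z (n 1242 z (n 2450 z (n 2482 z (n 1234 z z)))))) (n 0 (n 4866 z (n 3250 z (n 0
 (n 787 z (n 827 z (n 754 z (n 2674 z (n 722 z (n 4578 z z)))))) (n 1434 z (n 4866 z (n 699 z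
 z)))))) (n 0 (n 5058 z (n 3250 z (n 0 (n 722 z (n 827 z (n 754 z (n 738 z (n 722 z (n 4578 z
 z)))))) (n 3442 z (n 5058 z (n 5058 z z)))))) z)))))) z)))))) (n 0 (n 34 z (n 1234 z (n 0 (n
 226 z (n 1234 z (n 10 z (n 10 z (n 0 (n 0 (n 1682 z (n 1698 z (n 1682 z (n 2674 z (n 2642 z (n
 4962 z z)))))) (n 3218 z (n 3058 z (n 1434 z (n 0 (n 1682 z (n 1698 z (n 795 z (n 2674 z (n
 2642 z (n 4562 z z)))))) (n 691 z z)))))) (n 0 (n 4866 z (n 3218 z (n 3058 z (n 3442 z (n 0 (n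
 1682 z (n 1698 z (n 795 z (n 835 z (n 3922 z (n 4562 z z)))))) (n 4866 z z)))))) z)))))) (n
 1234 z (n 0 (n 226 z (n 2290 z (n 0 (n 0 (n 3922 z (n 819 z (n 4178 z (n 1929052 z (n 3922 z (n
 4946 z z)))))) (n 1426 z (n 3058 z (n 3410 z (n 0 (n 3922 z (n 819 z (n 795 z (n 5114 z (n 3922
 z (n 4562 z z)))))) (n 4914 z z)))))) (n 0 (n 2450 z (n 2466 z (n 3058 z (n 2450 z (n 2482 z (n
 1242 z z)))))) (n 0 (n 5058 z (n 5058 z (n 3058 z (n 1426 z (n 5058 z (n 5058 z z)))))) (n 0 (n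
 4866 z (n 1426 z (n 3058 z (n 3442 z (n 4850 z (n 4866 z z)))))) z)))))) (n 0 (n 4802 z (n 1234
 z (n 0 (n 4818 z (n 3250 z (n 3058 z (n 3410 z (n 4802 z (n 4818 z z)))))) (n 0 (n 2450 z (n
 2466 z (n 3058 z (n 2450 z (n 2482 z (n 4818 z z)))))) (n 0 (n 4818 z (n 3250 z (n 3058 z (n
 1434 z (n 4802 z (n 4818 z z)))))) (n 4802 z z)))))) z)))))) z)))))) z)))))) (n 0 (n 0 (n 34 z
 (n 34 z (n 10 z (n 10 z (n 0 (n 34 z (n 1234 z (n 0 (n 226 z (n 1234 z (n 10 z (n 10 z (n 10 z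
 (n 715 z z)))))) (n 1234 z (n 0 (n 4802 z (n 1234 z (n 0 (n 4818 z (n 1426 z (n 3666 z (n 3410
 z (n 4818 z (n 4802 z z)))))) (n 0 (n 2450 z (n 2466 z (n 1242 z (n 2450 z (n 4818 z (n 2482 z
 z)))))) (n 4802 z (n 0 (n 699 z (n 1426 z (n 3658 z (n 0 (n 722 z (n 2658 z (n 754 z (n 2674 z
 (n 722 z (n 2642 z z)))))) (n 4818 z (n 4802 z z)))))) z)))))) (n 0 (n 226 z (n 2290 z (n 0 (n
 0 (n 3602 z (n 819 z (n 754 z (n 3634 z (n 722 z (n 4386 z z)))))) (n 1426 z (n 3666 z (n 3410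
 z (n 4914 z (n 0 (n 722 z (n 819 z (n 754 z (n 5114 z (n 722 z (n 4386 z z)))))) z)))))) (n 0
 (n 2450 z (n 2466 z (n 1242 z (n 2450 z (n 0 (n 722 z (n 946 z (n 754 z (n 5346 z (n 722 z (n
 946 z z)))))) (n 2482 z z)))))) (n 0 (n 4866 z (n 1426 z (n 3674 z (n 3754 z (n 4866 z (n 4850
 z z)))))) (n 0 (n 699 z (n 5058 z (n 0 (n 722 z (n 2658 z (n 754 z (n 2674 z (n 722 z (n 2642 z
 z)))))) (n 1426 z (n 5058 z (n 5058 z z)))))) z)))))) z)))))) (n 0 (n 34 z (n 1234 z (n 0 (n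
 2098 z (n 1234 z (n 10 z (n 10 z (n 0 (n 0 (n 787 z (n 1698 z (n 1682 z (n 3634 z (n 4002 z (n
 4370 z z)))))) (n 3218 z (n 3650 z (n 1434 z (n 0 (n 787 z (n 1698 z (n 1682 z (n 5314 z (n
 4002 z (n 4370 z z)))))) (n 4898 z z)))))) (n 10 z z)))))) (n 1234 z (n 0 (n 2098 z (n 1234 z
 (n 0 (n 0 (n 3602 z (n 3618 z (n 3602 z (n 3634 z (n 4002 z (n 4386 z z)))))) (n 1426 z (n 3666
 z (n 3410 z (n 0 (n 4562 z (n 5122 z (n 4178 z (n 5114 z (n 4002 z (n 4386 z z)))))) (n 4914 z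
 z)))))) (n 0 (n 2450 z (n 2466 z (n 1242 z (n 2450 z (n 1234 z (n 2482 z z)))))) (n 0 (n 5058 z
 (n 5058 z (n 0 (n 787 z (n 5074 z (n 4178 z (n 5066 z (n 4002 z (n 4370 z z)))))) (n 1426 z (n
 5058 z (n 5058 z z)))))) (n 0 (n 4866 z (n 1426 z (n 3674 z (n 3754 z (n 4850 z (n 4866 z
 z)))))) z)))))) (n 0 (n 2098 z (n 2290 z (n 0 (n 4818 z (n 1426 z (n 3666 z (n 3410 z (n 4802 z
 (n 4818 z z)))))) (n 0 (n 2450 z (n 2466 z (n 1242 z (n 2450 z (n 0 (n 4562 z (n 4810 z (n 4194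
 z (n 5330 z (n 4002 z (n 4834 z z)))))) (n 2482 z z)))))) (n 0 (n 4818 z (n 1426 z (n 3658 z (n
 0 (n 787 z (n 4810 z (n 4194 z (n 3778 z (n 4002 z (n 4370 z z)))))) (n 4802 z (n 4818 z
 z)))))) (n 4802 z z)))))) z)))))) z)))))) (n 3170 z (n 3458 z (n 1410 z (n 3938 z (n 0 (n 34 z
 (n 34 z (n 10 z (n 10 z (n 0 (n 34 z (n 1234 z (n 0 (n 226 z (n 1234 z (n 10 z (n 10 z (n 10 z
 (n 715 z z)))))) (n 1234 z (n 0 (n 4802 z (n 1234 z (n 0 (n 4818 z (n 1426 z (n 531 z (n 3410 z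
 (n 4818 z (n 4802 z z)))))) (n 0 (n 2450 z (n 2466 z (n 1242 z (n 531 z (n 4818 z (n 2482 z
 z)))))) (n 4802 z (n 0 (n 4818 z (n 1426 z (n 0 (n 722 z (n 2658 z (n 754 z (n 2674 z (n 722 z
 (n 2642 z z)))))) (n 3442 z (n 4818 z (n 531 z z)))))) z)))))) (n 0 (n 226 z (n 2290 z (n 0 (n
 0 (n 722 z (n 819 z (n 754 z (n 4354 z (n 722 z (n 4354 z z)))))) (n 3250 z (n 531 z (n 3410 z
 (n 4914 z (n 0 (n 722 z (n 819 z (n 754 z (n 3634 z (n 722 z (n 3602 z z)))))) z)))))) (n 0 (n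
 2450 z (n 2466 z (n 1242 z (n 531 z (n 1242 z (n 2482 z z)))))) (n 0 (n 4866 z (n 3250 z (n 0
 (n 722 z (n 827 z (n 754 z (n 4354 z (n 722 z (n 4354 z z)))))) (n 1434 z (n 531 z (n 4850 z
 z)))))) (n 0 (n 5058 z (n 3250 z (n 0 (n 722 z (n 827 z (n 754 z (n 2674 z (n 722 z (n 2642 z
 z)))))) (n 3442 z (n 5058 z (n 531 z z)))))) z)))))) z)))))) (n 0 (n 34 z (n 1234 z (n 0 (n
 2098 z (n 1234 z (n 10 z (n 10 z (n 0 (n 10 z (n 3218 z (n 3058 z (n 1434 z (n 531 z (n 4898 z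
 z)))))) (n 10 z z)))))) (n 1234 z (n 0 (n 2098 z (n 1234 z (n 0 (n 0 (n 5522 z (n 1925164 z (n
 4178 z (n 4354 z (n 4002 z (n 4354 z z)))))) (n 1426 z (n 531 z (n 3410 z (n 0 (n 1916972 z (n
 5122 z (n 795 z (n 4354 z (n 4002 z (n 4354 z z)))))) (n 4914 z z)))))) (n 0 (n 2450 z (n 2466
 z (n 3058 z (n 531 z (n 1234 z (n 2482 z z)))))) (n 0 (n 5058 z (n 5058 z (n 3058 z (n 1426 z
 (n 531 z (n 5058 z z)))))) (n 0 (n 4866 z (n 1426 z (n 3058 z (n 3442 z (n 4850 z (n 531 z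
 z)))))) z)))))) (n 0 (n 2098 z (n 2290 z (n 0 (n 4818 z (n 3250 z (n 531 z (n 3410 z (n 4802 z
 (n 4818 z z)))))) (n 0 (n 2450 z (n 2466 z (n 3058 z (n 531 z (n 1242 z (n 2482 z z)))))) (n 0
 (n 4818 z (n 3250 z (n 3058 z (n 1434 z (n 531 z (n 4818 z z)))))) (n 4802 z z)))))) z))))))
 z)))))) z)))))) z)))))) (n 1218 z (n 0 (n 3842 z (n 1218 z (n 0 (n 3858 z (n 1410 z (n 3474 z
 (n 3362 z (n 3858 z (n 3842 z z)))))) (n 0 (n 2402 z (n 2418 z (n 0 (n 34 z (n 34 z (n 10 z (n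
 10 z (n 0 (n 1138 z (n 1234 z (n 1226 z (n 1234 z (n 1226 z (n 0 (n 226 z (n 1234 z (n 2434 z
 (n 2434 z (n 2410 z (n 0 (n 3466 z (n 5058 z (n 3010 z (n 2434 z (n 3010 z (n 5058 z z))))))
 z)))))) z)))))) (n 0 (n 34 z (n 1234 z (n 1226 z (n 1234 z (n 1226 z (n 0 (n 4802 z (n 1234 z
 (n 2434 z (n 2434 z (n 2410 z (n 4802 z z)))))) z)))))) z)))))) (n 2402 z (n 3858 z (n 0 (n 34
 z (n 34 z (n 10 z (n 10 z (n 0 (n 1138 z (n 1234 z (n 10 z (n 1234 z (n 1226 z (n 1226 z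
 z)))))) (n 0 (n 34 z (n 1234 z (n 10 z (n 1234 z (n 1226 z (n 1226 z z)))))) z)))))) z)))))) (n
 3842 z (n 0 (n 3858 z (n 1410 z (n 3842 z (n 0 (n 34 z (n 34 z (n 10 z (n 10 z (n 0 (n 1138 z
 (n 1234 z (n 10 z (n 1234 z (n 1418 z (n 1418 z z)))))) (n 0 (n 34 z (n 1234 z (n 10 z (n 1234
 z (n 1418 z (n 1418 z z)))))) z)))))) (n 3858 z (n 3842 z z)))))) z)))))) (n 0 (n 210 z (n 1218
 z (n 0 (n 0 (n 34 z (n 34 z (n 10 z (n 10 z (n 0 (n 34 z (n 1234 z (n 10 z (n 1234 z (n 10 z (n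
 0 (n 226 z (n 1234 z (n 715 z (n 0 (n 707 z (n 2466 z (n 2482 z (n 2450 z (n 1242 z (n 1234 z
 z)))))) (n 0 (n 707 z (n 1426 z (n 3674 z (n 1434 z (n 4866 z (n 4850 z z)))))) (n 0 (n 707 z
 (n 5058 z (n 0 (n 722 z (n 1698 z (n 754 z (n 1890 z (n 722 z (n 1682 z z)))))) (n 1426 z (n
 5058 z (n 5058 z z)))))) z)))))) z)))))) (n 0 (n 1138 z (n 1234 z (n 10 z (n 1234 z (n 0 (n 226
 z (n 1234 z (n 0 (n 0 (n 763 z (n 2658 z (n 2642 z (n 2674 z (n 3986 z (n 4178 z z)))))) (n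
 1426 z (n 3666 z (n 3410 z (n 0 (n 763 z (n 2658 z (n 2642 z (n 2674 z (n 3986 z (n 4178 z
 z)))))) (n 4914 z z)))))) (n 0 (n 2450 z (n 2466 z (n 2482 z (n 2450 z (n 1234 z (n 1242 z
 z)))))) (n 0 (n 5058 z (n 5058 z (n 0 (n 763 z (n 5074 z (n 4370 z (n 5066 z (n 3986 z (n 4178
 z z)))))) (n 1426 z (n 5058 z (n 5058 z z)))))) (n 0 (n 4866 z (n 1426 z (n 3674 z (n 1434 z (n
 4850 z (n 4866 z z)))))) z)))))) (n 10 z z)))))) z)))))) (n 1410 z (n 3474 z (n 3362 z (n 3954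
 z (n 0 (n 34 z (n 34 z (n 10 z (n 10 z (n 0 (n 34 z (n 1234 z (n 10 z (n 1234 z (n 10 z (n 0 (n
 226 z (n 1234 z (n 715 z (n 0 (n 2450 z (n 2466 z (n 2482 z (n 2450 z (n 1242 z (n 707 z
 z)))))) (n 0 (n 4866 z (n 3250 z (n 4850 z (n 1434 z (n 4866 z (n 707 z z)))))) (n 0 (n 5058 z
 (n 3250 z (n 0 (n 722 z (n 1698 z (n 754 z (n 835 z (n 722 z (n 1682 z z)))))) (n 3442 z (n
 5058 z (n 707 z z)))))) z)))))) z)))))) (n 0 (n 1138 z (n 1234 z (n 10 z (n 1234 z (n 0 (n 226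
 z (n 1234 z (n 0 (n 10 z (n 1426 z (n 3058 z (n 3410 z (n 0 (n 763 z (n 2658 z (n 795 z (n 2674
 z (n 3986 z (n 4162 z z)))))) (n 4914 z z)))))) (n 0 (n 2450 z (n 2466 z (n 2482 z (n 2450 z (n
 1234 z (n 1242 z z)))))) (n 0 (n 5058 z (n 5058 z (n 3058 z (n 1426 z (n 5058 z (n 5058 z
 z)))))) (n 0 (n 4866 z (n 1426 z (n 3058 z (n 3442 z (n 4850 z (n 4866 z z)))))) z)))))) (n 10
 z z)))))) z)))))) z)))))) (n 0 (n 2402 z (n 2418 z (n 1218 z (n 2402 z (n 1218 z (n 1218 z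
 z)))))) (n 0 (n 3906 z (n 1410 z (n 3890 z (n 0 (n 34 z (n 34 z (n 10 z (n 10 z (n 0 (n 34 z (n
 1234 z (n 10 z (n 1234 z (n 1418 z (n 1418 z z)))))) (n 0 (n 1138 z (n 1234 z (n 10 z (n 1234 z
 (n 1418 z (n 1418 z z)))))) z)))))) (n 3906 z (n 3890 z z)))))) (n 0 (n 4098 z (n 4098 z (n 0
 (n 34 z (n 34 z (n 10 z (n 10 z (n 0 (n 34 z (n 1234 z (n 10 z (n 1234 z (n 10 z (n 0 (n 226 z
 (n 2290 z (n 10 z (n 10 z (n 10 z (n 411 z z)))))) z)))))) (n 0 (n 1138 z (n 1234 z (n 10 z (n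
 1234 z (n 0 (n 2098 z (n 1234 z (n 10 z (n 10 z (n 411 z (n 10 z z)))))) (n 10 z z))))))
 z)))))) (n 1410 z (n 4098 z (n 4098 z z)))))) z)))))) z)))))) z))))) z)))) (n 0 (n 2882 z (n
 194 z (n 2882 z (n 2882 z z)))) (n 0 (n 194 z (n 194 z (n 194 z (n 0 (n 18 z (n 18 z (n 0 (n 18
 z (n 18 z (n 18 z (n 0 (n 210 z (n 2226 z (n 210 z (n 427 z (n 0 (n 482 z (n 1458 z (n 482 z (n
 1442 z (n 4338 z (n 1458 z z)))))) z))))) (n 0 (n 210 z (n 210 z (n 210 z (n 194 z (n 427 z (n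
 0 (n 482 z (n 3138 z (n 482 z (n 3138 z (n 674 z (n 690 z z)))))) z)))))) z))))) (n 0 (n 1074 z
 (n 18 z (n 0 (n 2034 z (n 210 z (n 427 z (n 210 z (n 0 (n 747 z (n 3138 z (n 2978 z (n 3138 z
 (n 4322 z (n 4089 z z)))))) z))))) (n 18 z (n 0 (n 2034 z (n 210 z (n 194 z (n 210 z (n 427 z
 (n 0 (n 1900548 z (n 3138 z (n 2978 z (n 3138 z (n 4130 z (n 4322 z z)))))) z)))))) z))))) (n 0
 (n 18 z (n 18 z (n 0 (n 210 z (n 210 z (n 427 z (n 0 (n 2402 z (n 2418 z (n 4146 z (n 2402 z (n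
 3938 z (n 2418 z z)))))) (n 210 z (n 0 (n 3122 z (n 3138 z (n 3138 z (n 3138 z (n 3938 z (n
 3330 z z)))))) z)))))) (n 0 (n 210 z (n 2226 z (n 194 z (n 427 z (n 210 z (n 0 (n 1442 z (n
 1458 z (n 1442 z (n 1442 z (n 1458 z (n 4338 z z)))))) z)))))) (n 18 z (n 0 (n 210 z (n 210 z
 (n 194 z (n 194 z (n 210 z (n 427 z z)))))) z)))))) z))))) (n 0 (n 18 z (n 18 z (n 0 (n 18 z (n
 18 z (n 18 z (n 0 (n 210 z (n 210 z (n 210 z (n 18 z (n 651 z (n 0 (n 482 z (n 1458 z (n 482 z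
 (n 1442 z (n 498 z (n 690 z z)))))) z)))))) (n 0 (n 210 z (n 2226 z (n 210 z (n 0 (n 482 z (n
 803 z (n 482 z (n 3186 z (n 3378 z (n 0 (n 34 z (n 34 z (n 514 z (n 0 (n 1122 z (n 34 z (n 0 (n
 2098 z (n 226 z (n 34 z (n 226 z (n 0 (n 755 z (n 2466 z (n 3026 z (n 2482 z (n 2450 z (n 514 z
 z)))))) (n 0 (n 755 z (n 0 (n 1933356 z (n 5554 z (n 4002 z (n 4402 z (n 4178 z (n 5330 z
 z)))))) (n 3026 z (n 3218 z (n 3442 z (n 514 z z)))))) z)))))) (n 34 z (n 0 (n 2098 z (n 2274 z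
 (n 210 z (n 226 z (n 34 z (n 0 (n 482 z (n 0 (n 1682 z (n 1698 z (n 4002 z (n 1714 z (n 1682 z
 (n 5330 z z)))))) (n 3026 z (n 3234 z (n 3442 z (n 5298 z z)))))) z)))))) (n 0 (n 2098 z (n 226
 z (n 210 z (n 226 z (n 210 z (n 34 z z)))))) z)))))) (n 18 z (n 514 z z)))))) z)))))) (n 18 z
 (n 0 (n 482 z (n 1908740 z (n 482 z (n 3186 z (n 498 z (n 4338 z z)))))) z)))))) (n 0 (n 210 z
 (n 210 z (n 210 z (n 18 z (n 194 z (n 18 z z)))))) z)))))) (n 0 (n 1074 z (n 18 z (n 0 (n 210 z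
 (n 210 z (n 18 z (n 210 z (n 0 (n 747 z (n 2418 z (n 2978 z (n 3170 z (n 2402 z (n 0 (n 34 z (n
 34 z (n 10 z (n 26 z (n 0 (n 34 z (n 34 z (n 0 (n 2082 z (n 226 z (n 34 z (n 0 (n 1916964 z (n
 1925156 z (n 3042 z (n 3218 z (n 3426 z (n 2434 z z)))))) (n 2434 z (n 2434 z z)))))) (n 18 z
 (n 34 z (n 0 (n 2082 z (n 226 z (n 0 (n 779 z (n 0 (n 1935724 z (n 5538 z (n 4210 z (n 4002 z
 (n 4386 z (n 5154 z z)))))) (n 3042 z (n 3250 z (n 3410 z (n 2434 z z)))))) (n 18 z (n 2434 z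
 (n 2434 z z)))))) z)))))) (n 0 (n 34 z (n 34 z (n 0 (n 226 z (n 226 z (n 34 z (n 0 (n 0 (n 1682
 z (n 1698 z (n 1682 z (n 1714 z (n 4370 z (n 4962 z z)))))) (n 0 (n 1682 z (n 1698 z (n 1682 z
 (n 1714 z (n 4370 z (n 4962 z z)))))) (n 3058 z (n 3218 z (n 3426 z (n 4898 z z)))))) (n 2434 z
 (n 2434 z z)))))) (n 18 z (n 0 (n 226 z (n 2274 z (n 0 (n 0 (n 5522 z (n 819 z (n 4194 z (n
 4018 z (n 4386 z (n 2626 z z)))))) (n 0 (n 1935756 z (n 819 z (n 4194 z (n 4018 z (n 4386 z (n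
 2626 z z)))))) (n 3058 z (n 3234 z (n 3410 z (n 4914 z z)))))) (n 18 z (n 2434 z (n 2434 z
 z)))))) (n 34 z z)))))) z)))))) z)))))) (n 0 (n 747 z (n 12281 z (n 2978 z (n 3170 z (n 28665 z
 (n 18 z z)))))) z)))))) (n 18 z (n 0 (n 210 z (n 2226 z (n 0 (n 1916932 z (n 1925124 z (n 2978
 z (n 3186 z (n 3362 z (n 8185 z z)))))) (n 210 z (n 18 z (n 0 (n 0 (n 34 z (n 34 z (n 10 z (n
 26 z (n 0 (n 1138 z (n 34 z (n 0 (n 2082 z (n 226 z (n 34 z (n 34 z (n 226 z (n 0 (n 1933348 z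
 (n 0 (n 2642 z (n 2658 z (n 5138 z (n 3986 z (n 2674 z (n 2642 z z)))))) (n 3042 z (n 3218 z (n
 4898 z (n 5282 z z)))))) z)))))) (n 26 z (n 34 z (n 0 (n 2082 z (n 2290 z (n 202 z (n 26 z (n
 226 z (n 34 z z)))))) z)))))) (n 0 (n 34 z (n 34 z (n 0 (n 2098 z (n 226 z (n 34 z (n 218 z (n
 0 (n 2450 z (n 2466 z (n 2450 z (n 3218 z (n 2450 z (n 2482 z z)))))) (n 226 z z)))))) (n 0 (n
 2098 z (n 226 z (n 0 (n 1490 z (n 1506 z (n 1490 z (n 1490 z (n 1522 z (n 4914 z z)))))) (n 34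
 z (n 42 z (n 226 z z)))))) (n 0 (n 2098 z (n 2274 z (n 0 (n 226 z (n 0 (n 1682 z (n 1698 z (n
 5330 z (n 1714 z (n 1682 z (n 1698 z z)))))) (n 5298 z (n 3234 z (n 3410 z (n 4914 z z)))))) (n
 218 z (n 34 z (n 226 z z)))))) (n 34 z z)))))) z)))))) (n 0 (n 34 z (n 34 z (n 10 z (n 26 z (n
 0 (n 1138 z (n 34 z (n 0 (n 2082 z (n 226 z (n 34 z (n 34 z (n 226 z (n 0 (n 1933348 z (n 0 (n
 2642 z (n 3602 z (n 3602 z (n 3618 z (n 2674 z (n 2642 z z)))))) (n 3042 z (n 3218 z (n 4898 z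
 (n 5282 z z)))))) z)))))) (n 26 z (n 34 z (n 0 (n 2082 z (n 2290 z (n 202 z (n 26 z (n 226 z (n
 34 z z)))))) z)))))) (n 0 (n 34 z (n 34 z (n 0 (n 2098 z (n 226 z (n 34 z (n 218 z (n 0 (n 2450
 z (n 2466 z (n 2450 z (n 3218 z (n 2450 z (n 2482 z z)))))) (n 226 z z)))))) (n 0 (n 2098 z (n
 226 z (n 0 (n 1490 z (n 1506 z (n 1490 z (n 1490 z (n 1522 z (n 4914 z z)))))) (n 34 z (n 42 z
 (n 226 z z)))))) (n 0 (n 2098 z (n 2274 z (n 0 (n 226 z (n 226 z (n 5298 z (n 3234 z (n 3410 z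
 (n 4914 z z)))))) (n 218 z (n 34 z (n 226 z z)))))) (n 34 z z)))))) z)))))) (n 2978 z (n 3186 z
 (n 4130 z (n 4338 z z)))))) z)))))) (n 0 (n 210 z (n 210 z (n 0 (n 1933316 z (n 24569 z (n 2978
 z (n 3954 z (n 3362 z (n 4130 z z)))))) (n 210 z (n 0 (n 2402 z (n 2418 z (n 2978 z (n 2418 z
 (n 2402 z (n 4130 z z)))))) (n 18 z z)))))) z)))))) (n 194 z (n 0 (n 18 z (n 18 z (n 0 (n 210 z
 (n 210 z (n 18 z (n 18 z (n 18 z (n 210 z z)))))) (n 0 (n 210 z (n 210 z (n 18 z (n 18 z (n 0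
 (n 1442 z (n 1458 z (n 1442 z (n 1442 z (n 2402 z (n 1634 z z)))))) (n 210 z z)))))) (n 0 (n
 210 z (n 2226 z (n 18 z (n 0 (n 0 (n 34 z (n 34 z (n 10 z (n 10 z (n 10 z (n 26 z z)))))) (n
 803 z (n 2978 z (n 3186 z (n 3378 z (n 3938 z z)))))) (n 18 z (n 210 z z)))))) (n 18 z z))))))
 z)))))) z))))) z)))) z))) z)) (n 0 (n 962 z (n 1922 z (n 0 (n 50 z (n 242 z (n 0 (n 1010 z (n 0
 (n 723 z (n 1970 z (n 2162 z (n 0 (n 98 z (n 290 z (n 482 z (n 0 (n 1058 z (n 1442 z (n 1250 z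
 (n 3842 z (n 0 (n 0 (n 4322 z (n 3170 z (n 2978 z (n 3362 z (n 4130 z (n 16377 z z)))))) (n
 2018 z (n 2210 z (n 2402 z (n 4082 z (n 0 (n 50 z (n 3170 z (n 2978 z (n 3362 z (n 4130 z (n
 4322 z z)))))) z)))))) z))))) (n 0 (n 1058 z (n 1442 z (n 1250 z (n 962 z (n 3842 z (n 0 (n
 2306 z (n 2018 z (n 2210 z (n 2402 z (n 3890 z (n 4082 z z)))))) z)))))) z))))) z)))) (n 1202 z
 (n 0 (n 194 z (n 1970 z (n 2162 z (n 3122 z (n 0 (n 98 z (n 290 z (n 482 z (n 0 (n 1058 z (n 0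
 (n 578 z (n 2018 z (n 2210 z (n 3890 z (n 2402 z (n 0 (n 402 z (n 4130 z (n 2978 z (n 3170 z (n
 3362 z (n 4322 z z)))))) z)))))) (n 1250 z (n 1442 z (n 0 (n 0 (n 4322 z (n 32761 z (n 2978 z
 (n 3170 z (n 3362 z (n 0 (n 146 z (n 338 z (n 530 z (n 722 z (n 0 (n 1106 z (n 0 (n 2642 z (n
 2066 z (n 2258 z (n 0 (n 146 z (n 5090 z (n 3026 z (n 3218 z (n 3410 z (n 3602 z z)))))) (n
 2450 z (n 0 (n 2434 z (n 5090 z (n 3026 z (n 3218 z (n 3410 z (n 3602 z z)))))) z)))))) (n 1298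
 z (n 1490 z (n 1682 z (n 0 (n 2642 z (n 2066 z (n 2258 z (n 0 (n 1490 z (n 466 z (n 3026 z (n
 3218 z (n 3410 z (n 3602 z z)))))) (n 2450 z (n 5042 z z)))))) z)))))) (n 0 (n 1106 z (n 0 (n
 2642 z (n 2066 z (n 2258 z (n 2130 z (n 2450 z (n 4850 z z)))))) (n 1298 z (n 1490 z (n 1682 z
 (n 4802 z z)))))) z)))))) z)))))) (n 2018 z (n 2210 z (n 3890 z (n 2402 z (n 0 (n 402 z (n 402
 z (n 2978 z (n 3170 z (n 3362 z (n 4322 z z)))))) z)))))) (n 0 (n 1970 z (n 2018 z (n 2210 z (n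
 3890 z (n 2402 z (n 4082 z z)))))) z)))))) (n 194 z (n 0 (n 1058 z (n 1010 z (n 1250 z (n 1442
 z (n 1010 z (n 3842 z z)))))) z)))))) z))))) z)))) (n 0 (n 1010 z (n 50 z (n 1202 z (n 2882 z
 (n 0 (n 242 z (n 1970 z (n 2162 z (n 2930 z (n 3122 z (n 0 (n 98 z (n 290 z (n 18 z (n 482 z (n
 66 z (n 258 z z)))))) z)))))) z))))) z)))) z))) z)) z), by decide +kernel⟩

theorem rwok0 : rwok RW NR 0 = true := by decide +kernel

end Pool.Agent.Lib.EPS9
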