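import Pool.Agent.Lib.MP_c7e7f6_eps.Final
import Pool.Agent.Lib.MP_c7e7f6_eps.Bad
import Pool.Agent.Lib.MP_c7e7f6_eps.Top6
import Pool.Agent.Lib.MP_c7e7f6_eps.RwSpec
import Pool.Agent.Lib.MP_c7e7f6_eps.KtTop
import Pool.Agent.Lib.MP_c7e7f6_eps.E1_0
import Pool.Agent.Lib.MP_c7e7f6_eps.E1_1
import Pool.Agent.Lib.MP_c7e7f6_eps.E1_2
import Pool.Agent.Lib.MP_c7e7f6_eps.E1_3
import Pool.Agent.Lib.MP_c7e7f6_eps.E1_4
import Pool.Agent.Lib.MP_c7e7f6_eps.E1_5
import Pool.Agent.Lib.MP_c7e7f6_eps.E1_6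
import Pool.Agent.Lib.MP_c7e7f6_eps.E1_7
import Pool.Agent.Lib.MP_c7e7f6_eps.E1_8
import Pool.Agent.Lib.MP_c7e7f6_eps.E1_9
import Pool.Agent.Lib.MP_c7e7f6_eps.E1_10
import Pool.Agent.Lib.MP_c7e7f6_eps.E1_11
import Pool.Agent.Lib.MP_c7e7f6_eps.D7_0
import Pool.Agent.Lib.MP_c7e7f6_eps.D7_1
import Pool.Agent.Lib.MP_c7e7f6_eps.D7_2
import Pool.Agent.Lib.MP_c7e7f6_eps.D7_3
import Pool.Agent.Lib.MP_c7e7f6_eps.D7_4
import Pool.Agent.Lib.MP_c7e7f6_eps.D7_5
import Pool.Agent.Lib.MP_c7e7f6_eps.D7_6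
import Pool.Agent.Lib.MP_c7e7f6_eps.D7_7
import Pool.Agent.Lib.MP_c7e7f6_eps.D7_8
import Pool.Agent.Lib.MP_c7e7f6_eps.D7_9
import Pool.Agent.Lib.MP_c7e7f6_eps.D7_10
import Pool.Agent.Lib.MP_c7e7f6_eps.D7_11
import Pool.Agent.Lib.MP_c7e7f6_eps.D7_12
import Pool.Agent.Lib.MP_c7e7f6_eps.D7_13
import Pool.Agent.Lib.MP_c7e7f6_eps.D7_14
import Pool.Agent.Lib.MP_c7e7f6_eps.D7_15
import Pool.Agent.Lib.MP_c7e7f6_eps.D7_16
import Pool.Agent.Lib.MP_c7e7f6_eps.D7_17
import Pool.Agent.Lib.MP_c7e7f6_eps.D7_18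
import Pool.Agent.Lib.MP_c7e7f6_eps.D7_19
import Pool.Agent.Lib.MP_c7e7f6_eps.D7_20
import Pool.Agent.Lib.MP_c7e7f6_eps.D7_21
import Pool.Agent.Lib.MP_c7e7f6_eps.D7_22
import Pool.Agent.Lib.MP_c7e7f6_eps.D7_23
import Pool.Agent.Lib.MP_c7e7f6_eps.D7_24
import Pool.Agent.Lib.MP_c7e7f6_eps.D7_25
import Pool.Agent.Lib.MP_c7e7f6_eps.D7_26
import Pool.Agent.Lib.MP_c7e7f6_eps.D7_27
import Pool.Agent.Lib.MP_c7e7f6_eps.D7_28
import Pool.Agent.Lib.MP_c7e7f6_eps.D7_29
import Pool.Agent.Lib.MP_c7e7f6_eps.D7_30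
import Pool.Agent.Lib.MP_c7e7f6_eps.D7_31
import Pool.Agent.Lib.MP_c7e7f6_eps.D7_32
import Pool.Agent.Lib.MP_c7e7f6_eps.D7_33
import Pool.Agent.Lib.MP_c7e7f6_eps.D7_34
import Pool.Agent.Lib.MP_c7e7f6_eps.D7_35
import Pool.Agent.Lib.MP_c7e7f6_eps.D7_36
import Pool.Agent.Lib.MP_c7e7f6_eps.D7_37
import Pool.Agent.Lib.MP_c7e7f6_eps.D7_38
import Pool.Agent.Lib.MP_c7e7f6_eps.D7_39
import Pool.Agent.Lib.MP_c7e7f6_eps.D7_40
import Pool.Agent.Lib.MP_c7e7f6_eps.D7_41
import Pool.Agent.Lib.MP_c7e7f6_eps.D7_42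
import Pool.Agent.Lib.MP_c7e7f6_eps.D7_43
import Pool.Agent.Lib.MP_c7e7f6_eps.D7_44
import Pool.Agent.Lib.MP_c7e7f6_eps.D7_45
import Pool.Agent.Lib.MP_c7e7f6_eps.D7_46
import Pool.Agent.Lib.MP_c7e7f6_eps.D7_47
import Pool.Agent.Lib.MP_c7e7f6_eps.D7_48
import Pool.Agent.Lib.MP_c7e7f6_eps.D7_49
import Pool.Agent.Lib.MP_c7e7f6_eps.D7_50
import Pool.Agent.Lib.MP_c7e7f6_eps.D7_51
import Pool.Agent.Lib.MP_c7e7f6_eps.D7_52
import Pool.Agent.Lib.MP_c7e7f6_eps.D7_53
import Pool.Agent.Lib.MP_c7e7f6_eps.D7_54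
import Pool.Agent.Lib.MP_c7e7f6_eps.D7_55
import Pool.Agent.Lib.MP_c7e7f6_eps.D7_56
import Pool.Agent.Lib.MP_c7e7f6_eps.D7_57
import Pool.Agent.Lib.MP_c7e7f6_eps.D7_58
import Pool.Agent.Lib.MP_c7e7f6_eps.D7_59
import Pool.Agent.Lib.MP_c7e7f6_eps.D7_60
import Pool.Agent.Lib.MP_c7e7f6_eps.D7_61
import Pool.Agent.Lib.MP_c7e7f6_eps.D7_62
import Pool.Agent.Lib.MP_c7e7f6_eps.D7_63
import Pool.Agent.Lib.MP_c7e7f6_eps.D7_64
import Pool.Agent.Lib.MP_c7e7f6_eps.D7_65
import Pool.Agent.Lib.MP_c7e7f6_eps.D7_66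
import Pool.Agent.Lib.MP_c7e7f6_eps.D7_67
import Pool.Agent.Lib.MP_c7e7f6_eps.D7_68
import Pool.Agent.Lib.MP_c7e7f6_eps.D7_69
import Pool.Agent.Lib.MP_c7e7f6_eps.D7_70
import Pool.Agent.Lib.MP_c7e7f6_eps.D7_71
import Pool.Agent.Lib.MP_c7e7f6_eps.D7_72
import Pool.Agent.Lib.MP_c7e7f6_eps.D7_73
import Pool.Agent.Lib.MP_c7e7f6_eps.D7_74
import Pool.Agent.Lib.MP_c7e7f6_eps.D7_75
import Pool.Agent.Lib.MP_c7e7f6_eps.D7_76
import Pool.Agent.Lib.MP_c7e7f6_eps.D7_77
import Pool.Agent.Lib.MP_c7e7f6_eps.D7_78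
import Pool.Agent.Lib.MP_c7e7f6_eps.D7_79

/-!
Erdős point sets on nine points do not exist.
-/

set_option autoImplicit false

namespace Pool.Agent.Lib.EPS9

theorem ktAll : KT.All := ⟨kn14, ⟨kn6, ⟨kn2, ⟨kn0, Kt.all_of_ok _ kt0_ok, Kt.all_of_ok _ kt1_ok⟩, ⟨kn1, Kt.all_of_ok _ kt2_ok, Kt.all_of_ok _ kt3_ok⟩⟩, ⟨kn5, ⟨kn3, Kt.all_of_ok _ kt4_ok, Kt.all_of_ok _ kt5_ok⟩, ⟨kn4, Kt.all_of_ok _ kt6_ok, Kt.all_of_ok _ kt7_ok⟩⟩⟩, ⟨kn13, ⟨kn9, ⟨kn7, Kt.all_of_ok _ kt8_ok, Kt.all_of_ok _ kt9_ok⟩, ⟨kn8, Kt.all_of_ok _ kt10_ok, Kt.all_of_ok _ kt11_ok⟩⟩, ⟨kn12, ⟨kn10, Kt.all_of_ok _ kt12_ok, Kt.all_of_ok _ kt13_ok⟩, ⟨kn11, Kt.all_of_ok _ kt14_ok, Kt.all_of_ok _ kt15_ok⟩⟩⟩⟩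

theorem chk_all (RW NR : ℕ) : ∀ R : Rt, R.Chk RW NR → R.All RW NR
  | .e _, h => h
  | .b x y, h => ⟨chk_all RW NR x h.1, chk_all RW NR y h.2⟩

theorem rgOk_spec {T : Kt} {RW : ℕ} : ∀ (l : List ℕ) (a : ℕ), RgOk T RW (a :: l) →
    ∀ i, a ≤ i → i < (a :: l).getLast (by simp) → OkI T RW i
  | [], a, _, i, h1, h2 => by
    simp at h2
    omega
  | b :: l, a, h, i, h1, h2 => by
    obtain ⟨⟨t, ht⟩, h'⟩ := h
    by_cases hb : i < b
    · exact chkR_spec ht i h1 hb
    · refine rgOk_spec l b h' i (by omega) ?_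
      simpa using h2

theorem words : ∀ j < NR, ∀ t < 15, went RW j t ≠ 0 ∧ went RW j t ≤ 6 := fun j hj t ht => by
  have := rwok_spec RW NR 0 rwok0 j hj t ht
  rwa [Nat.zero_add] at this

theorem e1All : ∀ j < NR, ∀ a < 6, ∃ p, e1a KT (wT RW j) j a p = true := by
  intro j hj
  have hj : j < 11729 := hj
  by_cases h0 : j < 1000
  · obtain ⟨P, hP⟩ := e1_0
    have := e1_spec hP (j - 0) (by omega)
    rwa [show 0 + (j - 0) = j by omega] at this
  by_cases h1 : j < 2000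
  · obtain ⟨P, hP⟩ := e1_1
    have := e1_spec hP (j - 1000) (by omega)
    rwa [show 1000 + (j - 1000) = j by omega] at this
  by_cases h2 : j < 3000
  · obtain ⟨P, hP⟩ := e1_2
    have := e1_spec hP (j - 2000) (by omega)
    rwa [show 2000 + (j - 2000) = j by omega] at this
  by_cases h3 : j < 4000
  · obtain ⟨P, hP⟩ := e1_3
    have := e1_spec hP (j - 3000) (by omega)
    rwa [show 3000 + (j - 3000) = j by omega] at this
  by_cases h4 : j < 5000
  · obtain ⟨P, hP⟩ := e1_4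
    have := e1_spec hP (j - 4000) (by omega)
    rwa [show 4000 + (j - 4000) = j by omega] at this
  by_cases h5 : j < 6000
  · obtain ⟨P, hP⟩ := e1_5
    have := e1_spec hP (j - 5000) (by omega)
    rwa [show 5000 + (j - 5000) = j by omega] at this
  by_cases h6 : j < 7000
  · obtain ⟨P, hP⟩ := e1_6
    have := e1_spec hP (j - 6000) (by omega)
    rwa [show 6000 + (j - 6000) = j by omega] at this
  by_cases h7 : j < 8000
  · obtain ⟨P, hP⟩ := e1_7
    have := e1_spec hP (j - 7000) (by omega)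
    rwa [show 7000 + (j - 7000) = j by omega] at this
  by_cases h8 : j < 9000
  · obtain ⟨P, hP⟩ := e1_8
    have := e1_spec hP (j - 8000) (by omega)
    rwa [show 8000 + (j - 8000) = j by omega] at this
  by_cases h9 : j < 10000
  · obtain ⟨P, hP⟩ := e1_9
    have := e1_spec hP (j - 9000) (by omega)
    rwa [show 9000 + (j - 9000) = j by omega] at this
  by_cases h10 : j < 11000
  · obtain ⟨P, hP⟩ := e1_10
    have := e1_spec hP (j - 10000) (by omega)
    rwa [show 10000 + (j - 10000) = j by omega] at this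
  obtain ⟨P, hP⟩ := e1_11
  have := e1_spec hP (j - 11000) (by omega)
  rwa [show 11000 + (j - 11000) = j by omega] at this

theorem okAll : ∀ i < NR, OkI KT RW i := by
  intro i hi
  have hi : i < 11729 := hi
  by_cases h0 : i < 196
  · exact rgOk_spec _ _ g7_0 i (by omega) (by simpa using h0)
  by_cases h1 : i < 392
  · exact rgOk_spec _ _ g7_1 i (by omega) (by simpa using h1)
  by_cases h2 : i < 588
  · exact rgOk_spec _ _ g7_2 i (by omega) (by simpa using h2)
  by_cases h3 : i < 784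
  · exact rgOk_spec _ _ g7_3 i (by omega) (by simpa using h3)
  by_cases h4 : i < 980
  · exact rgOk_spec _ _ g7_4 i (by omega) (by simpa using h4)
  by_cases h5 : i < 1176
  · exact rgOk_spec _ _ g7_5 i (by omega) (by simpa using h5)
  by_cases h6 : i < 1372
  · exact rgOk_spec _ _ g7_6 i (by omega) (by simpa using h6)
  by_cases h7 : i < 1568
  · exact rgOk_spec _ _ g7_7 i (by omega) (by simpa using h7)
  by_cases h8 : i < 1764
  · exact rgOk_spec _ _ g7_8 i (by omega) (by simpa using h8)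
  by_cases h9 : i < 1960
  · exact rgOk_spec _ _ g7_9 i (by omega) (by simpa using h9)
  by_cases h10 : i < 2156
  · exact rgOk_spec _ _ g7_10 i (by omega) (by simpa using h10)
  by_cases h11 : i < 2352
  · exact rgOk_spec _ _ g7_11 i (by omega) (by simpa using h11)
  by_cases h12 : i < 2548
  · exact rgOk_spec _ _ g7_12 i (by omega) (by simpa using h12)
  by_cases h13 : i < 2744
  · exact rgOk_spec _ _ g7_13 i (by omega) (by simpa using h13)
  by_cases h14 : i < 2940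
  · exact rgOk_spec _ _ g7_14 i (by omega) (by simpa using h14)
  by_cases h15 : i < 3136
  · exact rgOk_spec _ _ g7_15 i (by omega) (by simpa using h15)
  by_cases h16 : i < 3332
  · exact rgOk_spec _ _ g7_16 i (by omega) (by simpa using h16)
  by_cases h17 : i < 3528
  · exact rgOk_spec _ _ g7_17 i (by omega) (by simpa using h17)
  by_cases h18 : i < 3724
  · exact rgOk_spec _ _ g7_18 i (by omega) (by simpa using h18)
  by_cases h19 : i < 3920
  · exact rgOk_spec _ _ g7_19 i (by omega) (by simpa using h19)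
  by_cases h20 : i < 4116
  · exact rgOk_spec _ _ g7_20 i (by omega) (by simpa using h20)
  by_cases h21 : i < 4312
  · exact rgOk_spec _ _ g7_21 i (by omega) (by simpa using h21)
  by_cases h22 : i < 4508
  · exact rgOk_spec _ _ g7_22 i (by omega) (by simpa using h22)
  by_cases h23 : i < 4704
  · exact rgOk_spec _ _ g7_23 i (by omega) (by simpa using h23)
  by_cases h24 : i < 4900
  · exact rgOk_spec _ _ g7_24 i (by omega) (by simpa using h24)
  by_cases h25 : i < 5096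
  · exact rgOk_spec _ _ g7_25 i (by omega) (by simpa using h25)
  by_cases h26 : i < 5292
  · exact rgOk_spec _ _ g7_26 i (by omega) (by simpa using h26)
  by_cases h27 : i < 5488
  · exact rgOk_spec _ _ g7_27 i (by omega) (by simpa using h27)
  by_cases h28 : i < 5684
  · exact rgOk_spec _ _ g7_28 i (by omega) (by simpa using h28)
  by_cases h29 : i < 5880
  · exact rgOk_spec _ _ g7_29 i (by omega) (by simpa using h29)
  by_cases h30 : i < 6076
  · exact rgOk_spec _ _ g7_30 i (by omega) (by simpa using h30)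
  by_cases h31 : i < 6272
  · exact rgOk_spec _ _ g7_31 i (by omega) (by simpa using h31)
  by_cases h32 : i < 6468
  · exact rgOk_spec _ _ g7_32 i (by omega) (by simpa using h32)
  by_cases h33 : i < 6664
  · exact rgOk_spec _ _ g7_33 i (by omega) (by simpa using h33)
  by_cases h34 : i < 6860
  · exact rgOk_spec _ _ g7_34 i (by omega) (by simpa using h34)
  by_cases h35 : i < 7056
  · exact rgOk_spec _ _ g7_35 i (by omega) (by simpa using h35)
  by_cases h36 : i < 7252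
  · exact rgOk_spec _ _ g7_36 i (by omega) (by simpa using h36)
  by_cases h37 : i < 7448
  · exact rgOk_spec _ _ g7_37 i (by omega) (by simpa using h37)
  by_cases h38 : i < 7644
  · exact rgOk_spec _ _ g7_38 i (by omega) (by simpa using h38)
  by_cases h39 : i < 7840
  · exact rgOk_spec _ _ g7_39 i (by omega) (by simpa using h39)
  by_cases h40 : i < 8036
  · exact rgOk_spec _ _ g7_40 i (by omega) (by simpa using h40)
  by_cases h41 : i < 8232
  · exact rgOk_spec _ _ g7_41 i (by omega) (by simpa using h41)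
  by_cases h42 : i < 8428
  · exact rgOk_spec _ _ g7_42 i (by omega) (by simpa using h42)
  by_cases h43 : i < 8624
  · exact rgOk_spec _ _ g7_43 i (by omega) (by simpa using h43)
  by_cases h44 : i < 8820
  · exact rgOk_spec _ _ g7_44 i (by omega) (by simpa using h44)
  by_cases h45 : i < 9016
  · exact rgOk_spec _ _ g7_45 i (by omega) (by simpa using h45)
  by_cases h46 : i < 9212
  · exact rgOk_spec _ _ g7_46 i (by omega) (by simpa using h46)
  by_cases h47 : i < 9408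
  · exact rgOk_spec _ _ g7_47 i (by omega) (by simpa using h47)
  by_cases h48 : i < 9604
  · exact rgOk_spec _ _ g7_48 i (by omega) (by simpa using h48)
  by_cases h49 : i < 9800
  · exact rgOk_spec _ _ g7_49 i (by omega) (by simpa using h49)
  by_cases h50 : i < 9996
  · exact rgOk_spec _ _ g7_50 i (by omega) (by simpa using h50)
  by_cases h51 : i < 10192
  · exact rgOk_spec _ _ g7_51 i (by omega) (by simpa using h51)
  by_cases h52 : i < 10276
  · exact rgOk_spec _ _ g7_52 i (by omega) (by simpa using h52)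
  by_cases h53 : i < 10386
  · exact rgOk_spec _ _ g7_53 i (by omega) (by simpa using h53)
  by_cases h54 : i < 10436
  · exact rgOk_spec _ _ g7_54 i (by omega) (by simpa using h54)
  by_cases h55 : i < 10536
  · exact rgOk_spec _ _ g7_55 i (by omega) (by simpa using h55)
  by_cases h56 : i < 10589
  · exact rgOk_spec _ _ g7_56 i (by omega) (by simpa using h56)
  by_cases h57 : i < 10658
  · exact rgOk_spec _ _ g7_57 i (by omega) (by simpa using h57)
  by_cases h58 : i < 10716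
  · exact rgOk_spec _ _ g7_58 i (by omega) (by simpa using h58)
  by_cases h59 : i < 10765
  · exact rgOk_spec _ _ g7_59 i (by omega) (by simpa using h59)
  by_cases h60 : i < 10825
  · exact rgOk_spec _ _ g7_60 i (by omega) (by simpa using h60)
  by_cases h61 : i < 10865
  · exact rgOk_spec _ _ g7_61 i (by omega) (by simpa using h61)
  by_cases h62 : i < 10931
  · exact rgOk_spec _ _ g7_62 i (by omega) (by simpa using h62)
  by_cases h63 : i < 10976
  · exact rgOk_spec _ _ g7_63 i (by omega) (by simpa using h63)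
  by_cases h64 : i < 11007
  · exact rgOk_spec _ _ g7_64 i (by omega) (by simpa using h64)
  by_cases h65 : i < 11042
  · exact rgOk_spec _ _ g7_65 i (by omega) (by simpa using h65)
  by_cases h66 : i < 11084
  · exact rgOk_spec _ _ g7_66 i (by omega) (by simpa using h66)
  by_cases h67 : i < 11143
  · exact rgOk_spec _ _ g7_67 i (by omega) (by simpa using h67)
  by_cases h68 : i < 11202
  · exact rgOk_spec _ _ g7_68 i (by omega) (by simpa using h68)
  by_cases h69 : i < 11259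
  · exact rgOk_spec _ _ g7_69 i (by omega) (by simpa using h69)
  by_cases h70 : i < 11306
  · exact rgOk_spec _ _ g7_70 i (by omega) (by simpa using h70)
  by_cases h71 : i < 11351
  · exact rgOk_spec _ _ g7_71 i (by omega) (by simpa using h71)
  by_cases h72 : i < 11369
  · exact rgOk_spec _ _ g7_72 i (by omega) (by simpa using h72)
  by_cases h73 : i < 11414
  · exact rgOk_spec _ _ g7_73 i (by omega) (by simpa using h73)
  by_cases h74 : i < 11451
  · exact rgOk_spec _ _ g7_74 i (by omega) (by simpa using h74)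
  by_cases h75 : i < 11509
  · exact rgOk_spec _ _ g7_75 i (by omega) (by simpa using h75)
  by_cases h76 : i < 11553
  · exact rgOk_spec _ _ g7_76 i (by omega) (by simpa using h76)
  by_cases h77 : i < 11616
  · exact rgOk_spec _ _ g7_77 i (by omega) (by simpa using h77)
  by_cases h78 : i < 11678
  · exact rgOk_spec _ _ g7_78 i (by omega) (by simpa using h78)
  exact rgOk_spec _ _ g7_79 i (by omega) (by simpa using hi)

theorem lk0 : KT.lk 0 = 0 := by decide +kernel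

/-- there is no Erdős point set on nine points -/
theorem final :
    ¬ (∃ S : Finset (EuclideanSpace ℝ (Fin 2)), S.card = 9 ∧
      (∀ a ∈ S, ∀ b ∈ S, ∀ c ∈ S, a ≠ b → a ≠ c → b ≠ c →
        ¬ Collinear ℝ ({a, b, c} : Set (EuclideanSpace ℝ (Fin 2)))) ∧
      (∀ a ∈ S, ∀ b ∈ S, ∀ c ∈ S, ∀ d ∈ S,
        a ≠ b → a ≠ c → a ≠ d → b ≠ c → b ≠ d → c ≠ d →
        ¬ EuclideanGeometry.Concyclic ({a, b, c, d} : Set (EuclideanSpace ℝ (Fin 2)))) ∧
      ∃ f : Fin 8 → ℝ, ∀ i : Fin 8,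
        (S.offDiag.filter (fun p => dist p.1 p.2 = f i)).card = 2 * (i.val + 1)) := by
  obtain ⟨t, ht⟩ := top6
  exact no_nine bad_all (fun j hj t ht => (words j hj t ht).1) (chk_all RW NR R6 all6) ht (by decide)
    lk0 e1All ktAll okAll

end Pool.Agent.Lib.EPS9
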