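import Pool.Agent.Lib.MP_c7e7f6_eps.Dense

/-!
The dense part of the certificates for all modes.
-/

set_option autoImplicit false
set_option linter.unusedVariables false
set_option linter.style.longLine false

namespace Pool.Agent.Lib.EPS9

/-- digit number `t` of `lam` -/
def dgt (u lam t : ℕ) : ℕ := Nat.land (Nat.shiftRight lam (u * t)) (2 ^ u - 1)

/-- the weights -/
def wz (u lam t : ℕ) : ℤ := (dgt u lam t : ℤ) - ((2 ^ (u - 1) : ℕ) : ℤ)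

theorem dgt_lt (u lam t : ℕ) : dgt u lam t < 2 ^ u := by
  unfold dgt
  have h : Nat.land (Nat.shiftRight lam (u * t)) (2 ^ u - 1)
      = (Nat.shiftRight lam (u * t)) &&& (2 ^ u - 1) := rfl
  rw [h, Nat.and_two_pow_sub_one_eq_mod]
  exact Nat.mod_lt _ (by positivity)

theorem wz_natAbs {u : ℕ} (hu : 1 ≤ u) (lam t : ℕ) : (wz u lam t).natAbs ≤ 2 ^ (u - 1) := by
  have h1 := dgt_lt u lam t
  have h2 : 2 ^ u = 2 * 2 ^ (u - 1) := by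
    rw [← pow_succ']
    congr 1
    omega
  unfold wz
  omega

theorem dg_lt {N u : ℕ} (hu : 1 ≤ u) (t : ℕ) (lam : ℕ) :
    Lt N (2 ^ u) (Nat.land (Nat.shiftRight lam (u * t)) (2 ^ u - 1))
      (((wz u lam t : ℤ) : ZMod N) + ((2 ^ (u - 1) : ℕ) : ZMod N)) := by
  refine ⟨?_, dgt_lt u lam t⟩
  show ((dgt u lam t : ℕ) : ZMod N) = _
  unfold wz
  push_cast
  ring

theorem dg_lt0 {N u : ℕ} (hu : 1 ≤ u) (lam : ℕ) :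
    Lt N (2 ^ u) (Nat.land lam (2 ^ u - 1))
      (((wz u lam 0 : ℤ) : ZMod N) + ((2 ^ (u - 1) : ℕ) : ZMod N)) :=
  dg_lt hu 0 lam

theorem ev_b (b : ℕ) : Ev (modN b) (modN b - 1) (2 ^ (272 * b)) where
  cast x := and_cast b x
  lt x := and_lt b x
  n2 := by
    unfold modN
    rw [← pow_add]
    congr 1
    ring

theorem kn_zero (b c : ℕ) : ((2 ^ (136 * b + c) : ℕ) : ZMod (modN b)) = 0 := by
  rw [pow_add]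
  show ((modN b * 2 ^ c : ℕ) : ZMod (modN b)) = 0
  rw [Nat.cast_mul, ZMod.natCast_self, zero_mul]

theorem kn_16 (b u : ℕ) : 16 * (2 ^ u * modN b) ≤ 2 ^ (136 * b + (u + 4)) := by
  unfold modN
  apply le_of_eq
  rw [pow_add, pow_add]
  ring

theorem kn_32 {b u : ℕ} (hu : 1 ≤ u) : 32 * modN b ≤ 2 ^ (136 * b + (u + 4)) := by
  unfold modN
  have h1 : 2 ^ (136 * b + 5) ≤ 2 ^ (136 * b + (u + 4)) :=
    Nat.pow_le_pow_right (by norm_num) (by omega)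
  refine le_trans (le_of_eq ?_) h1
  rw [pow_add]
  ring

theorem kn_50 (b : ℕ) : 50 * modN b ≤ 2 ^ (136 * b + 6) := by
  unfold modN
  rw [pow_add]
  have : 0 < 2 ^ (136 * b) := by positivity
  omega

theorem lt_modN {b x : ℕ} (hb : 1 ≤ b) (hx : x < 2 ^ (46 * b)) : 2 * x < modN b := by
  unfold modN
  have h1 : 2 ^ (46 * b + 1) ≤ 2 ^ (136 * b) := Nat.pow_le_pow_right (by norm_num) (by omega)
  rw [pow_succ] at h1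
  omega

theorem rp_x {b : ℕ} (hb : 1 ≤ b) {x : ℕ → ℕ → ℕ} (hx : ∀ i j, x i j < 2 ^ (46 * b)) (i j : ℕ) :
    Rp (modN b) (x i j) ((x i j : ℕ) : ZMod (modN b)) := by
  refine ⟨rfl, ?_⟩
  have := lt_modN hb (hx i j)
  omega

theorem dbl_x {b : ℕ} (hb : 1 ≤ b) {x : ℕ → ℕ → ℕ} (hx : ∀ i j, x i j < 2 ^ (46 * b)) (i j : ℕ) :
    2 * x i j < modN b := lt_modN hb (hx i j)

/-- the five point data `K` for the values `x` -/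
def KP (b u : ℕ) (x : ℕ → ℕ → ℕ) (K : ℕ → ℕ → ℕ → ℕ → ℕ → ℕ → ℕ) : Prop :=
  ∀ (lam : ℕ) (y : ℕ → ℕ → ℕ), (∀ i j, i < j → j < 5 → y i j = x i j) →
    (∀ i j, y i j < 2 ^ (46 * b)) →
    Cv (modN b) (K lam (y 0 5) (y 1 5) (y 2 5) (y 3 5) (y 4 5))
      (dsumf (fun t => ((wz u lam t : ℤ) : ZMod (modN b))) (fun i j => ((y i j : ℕ) : ZMod (modN b))))

/-- the six point data `K` for the values `x` -/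
def TP (b u : ℕ) (x : ℕ → ℕ → ℕ) (K : ℕ → ℕ) : Prop :=
  ∀ lam : ℕ, Cv (modN b) (K lam)
      (dsumf (fun t => ((wz u lam t : ℤ) : ZMod (modN b))) (fun i j => ((x i j : ℕ) : ZMod (modN b))))

theorem aKu_cv {b u : ℕ} (hb : 1 ≤ b) (hu : 1 ≤ u) {x : ℕ → ℕ → ℕ} (hx : ∀ i j, x i j < 2 ^ (46 * b))
  {k : (ℕ → ℕ → ℕ → ℕ → ℕ → ℕ → ℕ) → Bool} (h : aK k (modN b) (modN b - 1) (2 ^ (272 * b)) (2 ^ (136 *
  b + (u + 4))) (2 ^ u - 1) (2 ^ (u - 1)) (u * 1) (u * 2) (u * 3) (u * 4) (u * 5) (u * 6) (u * 7) (u *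
  8) (u * 9) (u * 10) (u * 11) (u * 12) (u * 13) (u * 14) (u * 15) (u * 16) (u * 17) (u * 18) (u * 19)
  (u * 20) (u * 21) (u * 22) (u * 23) (u * 24) (u * 25) (u * 26) (u * 27) (u * 28) (u * 29) (u * 30) (u
  * 31) (u * 32) (u * 33) (u * 34) (u * 35) (u * 36) (u * 37) (u * 38) (u * 39) (u * 40) (u * 41) (u *
  42) (u * 43) (u * 44) (u * 45) (u * 46) (u * 47) (u * 48) (u * 49) (x 0 1) (x 0 2) (x 1 2) (x 0 3) (x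
  1 3) (x 2 3) (x 0 4) (x 1 4) (x 2 4) (x 3 4) = true) : ∃ K, k K = true ∧ KP b u x K := by
  obtain ⟨K, h1, h2⟩ := aK_cv (U := 2 ^ u) (w := fun lam t => ((wz u lam t : ℤ) : ZMod (modN b))) (o :=
    ((2 ^ (u - 1) : ℕ) : ZMod (modN b))) (ev_b b) (kn_zero b _) (kn_16 b u) (kn_32 hu) rfl (dg_lt0 hu)
    (dg_lt hu 1) (dg_lt hu 2) (dg_lt hu 3) (dg_lt hu 4) (dg_lt hu 5) (dg_lt hu 6) (dg_lt hu 7) (dg_lt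
    hu 8) (dg_lt hu 9) (dg_lt hu 10) (dg_lt hu 11) (dg_lt hu 12) (dg_lt hu 13) (dg_lt hu 14) (dg_lt hu
    15) (dg_lt hu 16) (dg_lt hu 17) (dg_lt hu 18) (dg_lt hu 19) (dg_lt hu 20) (dg_lt hu 21) (dg_lt hu
    22) (dg_lt hu 23) (dg_lt hu 24) (dg_lt hu 25) (dg_lt hu 26) (dg_lt hu 27) (dg_lt hu 28) (dg_lt hu
    29) (dg_lt hu 30) (dg_lt hu 31) (dg_lt hu 32) (dg_lt hu 33) (dg_lt hu 34) (dg_lt hu 35) (dg_lt hu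
    36) (dg_lt hu 37) (dg_lt hu 38) (dg_lt hu 39) (dg_lt hu 40) (dg_lt hu 41) (dg_lt hu 42) (dg_lt hu
    43) (dg_lt hu 44) (dg_lt hu 45) (dg_lt hu 46) (dg_lt hu 47) (dg_lt hu 48) (dg_lt hu 49) (rp_x hb hx
    0 1) (rp_x hb hx 0 2) (rp_x hb hx 1 2) (rp_x hb hx 0 3) (rp_x hb hx 1 3) (rp_x hb hx 2 3) (rp_x hb
    hx 0 4) (rp_x hb hx 1 4) (rp_x hb hx 2 4) (rp_x hb hx 3 4) (dbl_x hb hx 0 1) (dbl_x hb hx 0 2)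
    (dbl_x hb hx 0 3) (dbl_x hb hx 0 4) h
  refine ⟨K, h1, fun lam y hy hyb => ?_⟩
  have h3 := h2 lam (y 0 5) (y 1 5) (y 2 5) (y 3 5) (y 4 5) _ _ _ _ _ rfl (rp_x hb hyb 1 5)
    (rp_x hb hyb 2 5) (rp_x hb hyb 3 5) (rp_x hb hyb 4 5)
  rw [← hy 0 1 (by omega) (by omega), ← hy 0 2 (by omega) (by omega),
    ← hy 1 2 (by omega) (by omega), ← hy 0 3 (by omega) (by omega),
    ← hy 1 3 (by omega) (by omega), ← hy 2 3 (by omega) (by omega),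
    ← hy 0 4 (by omega) (by omega), ← hy 1 4 (by omega) (by omega),
    ← hy 2 4 (by omega) (by omega), ← hy 3 4 (by omega) (by omega)] at h3
  exact h3

theorem tMu_cv {b u : ℕ} (hb : 1 ≤ b) (hu : 1 ≤ u) {x : ℕ → ℕ → ℕ} (hx : ∀ i j, x i j < 2 ^ (46 * b))
  {k : (ℕ → ℕ) → Bool} (h : tM k (modN b) (modN b - 1) (2 ^ (272 * b)) (2 ^ (136 * b + 6)) (2 ^ u - 1)
  (2 ^ (u - 1)) (u * 1) (u * 2) (u * 3) (u * 4) (u * 5) (u * 6) (u * 7) (u * 8) (u * 9) (u * 10) (u *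
  11) (u * 12) (u * 13) (u * 14) (u * 15) (u * 16) (u * 17) (u * 18) (u * 19) (u * 20) (u * 21) (u *
  22) (u * 23) (u * 24) (u * 25) (u * 26) (u * 27) (u * 28) (u * 29) (u * 30) (u * 31) (u * 32) (u *
  33) (u * 34) (u * 35) (u * 36) (u * 37) (u * 38) (u * 39) (u * 40) (u * 41) (u * 42) (u * 43) (u *
  44) (u * 45) (u * 46) (u * 47) (u * 48) (u * 49) (x 0 1) (x 0 2) (x 1 2) (x 0 3) (x 1 3) (x 2 3) (x 0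
  4) (x 1 4) (x 2 4) (x 3 4) (x 0 5) (x 1 5) (x 2 5) (x 3 5) (x 4 5) = true) : ∃ K, k K = true ∧ TP b u
  x K := by
  obtain ⟨K, h1, h2⟩ := tM_cv (U := 2 ^ u) (w := fun lam t => ((wz u lam t : ℤ) : ZMod (modN b))) (o :=
    ((2 ^ (u - 1) : ℕ) : ZMod (modN b))) (ev_b b) (kn_zero b _) (kn_50 b) rfl (dg_lt0 hu) (dg_lt hu 1)
    (dg_lt hu 2) (dg_lt hu 3) (dg_lt hu 4) (dg_lt hu 5) (dg_lt hu 6) (dg_lt hu 7) (dg_lt hu 8) (dg_lt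
    hu 9) (dg_lt hu 10) (dg_lt hu 11) (dg_lt hu 12) (dg_lt hu 13) (dg_lt hu 14) (dg_lt hu 15) (dg_lt hu
    16) (dg_lt hu 17) (dg_lt hu 18) (dg_lt hu 19) (dg_lt hu 20) (dg_lt hu 21) (dg_lt hu 22) (dg_lt hu
    23) (dg_lt hu 24) (dg_lt hu 25) (dg_lt hu 26) (dg_lt hu 27) (dg_lt hu 28) (dg_lt hu 29) (dg_lt hu
    30) (dg_lt hu 31) (dg_lt hu 32) (dg_lt hu 33) (dg_lt hu 34) (dg_lt hu 35) (dg_lt hu 36) (dg_lt hu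
    37) (dg_lt hu 38) (dg_lt hu 39) (dg_lt hu 40) (dg_lt hu 41) (dg_lt hu 42) (dg_lt hu 43) (dg_lt hu
    44) (dg_lt hu 45) (dg_lt hu 46) (dg_lt hu 47) (dg_lt hu 48) (dg_lt hu 49) (rp_x hb hx 0 1) (rp_x hb
    hx 0 2) (rp_x hb hx 1 2) (rp_x hb hx 0 3) (rp_x hb hx 1 3) (rp_x hb hx 2 3) (rp_x hb hx 0 4) (rp_x
    hb hx 1 4) (rp_x hb hx 2 4) (rp_x hb hx 3 4) (rp_x hb hx 0 5) (rp_x hb hx 1 5) (rp_x hb hx 2 5)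
    (rp_x hb hx 3 5) (rp_x hb hx 4 5) (dbl_x hb hx 0 1) (dbl_x hb hx 0 2) (dbl_x hb hx 0 3) (dbl_x hb
    hx 0 4) (dbl_x hb hx 0 5) h
  exact ⟨K, h1, fun lam => h2 lam⟩

theorem aK6_cv {b : ℕ} (hb : 1 ≤ b) {x : ℕ → ℕ → ℕ} (hx : ∀ i j, x i j < 2 ^ (46 * b)) {k : (ℕ → ℕ → ℕ
  → ℕ → ℕ → ℕ → ℕ) → Bool} (h : aK6 k b (x 0 1) (x 0 2) (x 1 2) (x 0 3) (x 1 3) (x 2 3) (x 0 4) (x 1 4)
  (x 2 4) (x 3 4) = true) : ∃ K, k K = true ∧ KP b 6 x K :=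
  aKu_cv (u := 6) hb (by norm_num) hx h

theorem aK8_cv {b : ℕ} (hb : 1 ≤ b) {x : ℕ → ℕ → ℕ} (hx : ∀ i j, x i j < 2 ^ (46 * b)) {k : (ℕ → ℕ → ℕ
  → ℕ → ℕ → ℕ → ℕ) → Bool} (h : aK8 k b (x 0 1) (x 0 2) (x 1 2) (x 0 3) (x 1 3) (x 2 3) (x 0 4) (x 1 4)
  (x 2 4) (x 3 4) = true) : ∃ K, k K = true ∧ KP b 8 x K :=
  aKu_cv (u := 8) hb (by norm_num) hx h

theorem aK10_cv {b : ℕ} (hb : 1 ≤ b) {x : ℕ → ℕ → ℕ} (hx : ∀ i j, x i j < 2 ^ (46 * b)) {k : (ℕ → ℕ → ℕ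
  → ℕ → ℕ → ℕ → ℕ) → Bool} (h : aK10 k b (x 0 1) (x 0 2) (x 1 2) (x 0 3) (x 1 3) (x 2 3) (x 0 4) (x 1
  4) (x 2 4) (x 3 4) = true) : ∃ K, k K = true ∧ KP b 10 x K :=
  aKu_cv (u := 10) hb (by norm_num) hx h

theorem aK12_cv {b : ℕ} (hb : 1 ≤ b) {x : ℕ → ℕ → ℕ} (hx : ∀ i j, x i j < 2 ^ (46 * b)) {k : (ℕ → ℕ → ℕ
  → ℕ → ℕ → ℕ → ℕ) → Bool} (h : aK12 k b (x 0 1) (x 0 2) (x 1 2) (x 0 3) (x 1 3) (x 2 3) (x 0 4) (x 1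
  4) (x 2 4) (x 3 4) = true) : ∃ K, k K = true ∧ KP b 12 x K :=
  aKu_cv (u := 12) hb (by norm_num) hx h

theorem aK14_cv {b : ℕ} (hb : 1 ≤ b) {x : ℕ → ℕ → ℕ} (hx : ∀ i j, x i j < 2 ^ (46 * b)) {k : (ℕ → ℕ → ℕ
  → ℕ → ℕ → ℕ → ℕ) → Bool} (h : aK14 k b (x 0 1) (x 0 2) (x 1 2) (x 0 3) (x 1 3) (x 2 3) (x 0 4) (x 1
  4) (x 2 4) (x 3 4) = true) : ∃ K, k K = true ∧ KP b 14 x K :=
  aKu_cv (u := 14) hb (by norm_num) hx h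

theorem aK18_cv {b : ℕ} (hb : 1 ≤ b) {x : ℕ → ℕ → ℕ} (hx : ∀ i j, x i j < 2 ^ (46 * b)) {k : (ℕ → ℕ → ℕ
  → ℕ → ℕ → ℕ → ℕ) → Bool} (h : aK18 k b (x 0 1) (x 0 2) (x 1 2) (x 0 3) (x 1 3) (x 2 3) (x 0 4) (x 1
  4) (x 2 4) (x 3 4) = true) : ∃ K, k K = true ∧ KP b 18 x K :=
  aKu_cv (u := 18) hb (by norm_num) hx h

theorem aK24_cv {b : ℕ} (hb : 1 ≤ b) {x : ℕ → ℕ → ℕ} (hx : ∀ i j, x i j < 2 ^ (46 * b)) {k : (ℕ → ℕ → ℕ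
  → ℕ → ℕ → ℕ → ℕ) → Bool} (h : aK24 k b (x 0 1) (x 0 2) (x 1 2) (x 0 3) (x 1 3) (x 2 3) (x 0 4) (x 1
  4) (x 2 4) (x 3 4) = true) : ∃ K, k K = true ∧ KP b 24 x K :=
  aKu_cv (u := 24) hb (by norm_num) hx h

theorem tM6_cv {b : ℕ} (hb : 1 ≤ b) {x : ℕ → ℕ → ℕ} (hx : ∀ i j, x i j < 2 ^ (46 * b)) {k : (ℕ → ℕ) →
  Bool} (h : tM6 k b (x 0 1) (x 0 2) (x 1 2) (x 0 3) (x 1 3) (x 2 3) (x 0 4) (x 1 4) (x 2 4) (x 3 4) (x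
  0 5) (x 1 5) (x 2 5) (x 3 5) (x 4 5) = true) : ∃ K, k K = true ∧ TP b 6 x K :=
  tMu_cv (u := 6) hb (by norm_num) hx h

theorem tM8_cv {b : ℕ} (hb : 1 ≤ b) {x : ℕ → ℕ → ℕ} (hx : ∀ i j, x i j < 2 ^ (46 * b)) {k : (ℕ → ℕ) →
  Bool} (h : tM8 k b (x 0 1) (x 0 2) (x 1 2) (x 0 3) (x 1 3) (x 2 3) (x 0 4) (x 1 4) (x 2 4) (x 3 4) (x
  0 5) (x 1 5) (x 2 5) (x 3 5) (x 4 5) = true) : ∃ K, k K = true ∧ TP b 8 x K :=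
  tMu_cv (u := 8) hb (by norm_num) hx h

theorem tM12_cv {b : ℕ} (hb : 1 ≤ b) {x : ℕ → ℕ → ℕ} (hx : ∀ i j, x i j < 2 ^ (46 * b)) {k : (ℕ → ℕ) →
  Bool} (h : tM12 k b (x 0 1) (x 0 2) (x 1 2) (x 0 3) (x 1 3) (x 2 3) (x 0 4) (x 1 4) (x 2 4) (x 3 4)
  (x 0 5) (x 1 5) (x 2 5) (x 3 5) (x 4 5) = true) : ∃ K, k K = true ∧ TP b 12 x K :=
  tMu_cv (u := 12) hb (by norm_num) hx h

theorem tM24_cv {b : ℕ} (hb : 1 ≤ b) {x : ℕ → ℕ → ℕ} (hx : ∀ i j, x i j < 2 ^ (46 * b)) {k : (ℕ → ℕ) →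
  Bool} (h : tM24 k b (x 0 1) (x 0 2) (x 1 2) (x 0 3) (x 1 3) (x 2 3) (x 0 4) (x 1 4) (x 2 4) (x 3 4)
  (x 0 5) (x 1 5) (x 2 5) (x 3 5) (x 4 5) = true) : ∃ K, k K = true ∧ TP b 24 x K :=
  tMu_cv (u := 24) hb (by norm_num) hx h

end Pool.Agent.Lib.EPS9
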