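import Pool.Agent.Lib.MP_c7e7f6_eps.Core7
import Pool.Agent.Lib.MP_c7e7f6_eps.DenseA
import Pool.Agent.Lib.MP_c7e7f6_eps.Geo
import Pool.Agent.Lib.MP_c7e7f6_eps.S7Kron

/-!
Seven variables: norm and degree, the packed table of the values of the codes.
-/

set_option autoImplicit false
set_option linter.unusedVariables false
set_option linter.style.longLine false

namespace Pool.Agent.Lib.EPS9.S7

open MvPolynomial

/-- `P` is homogeneous of degree `d` and the sum of the absolute values of its coefficients is at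
most `B` -/
def Nb (P : MvPolynomial (Fin 7) ℤ) (d B : ℕ) : Prop := P.IsHomogeneous d ∧ norm1 P ≤ B

theorem Nb.mono {P : MvPolynomial (Fin 7) ℤ} {d B C : ℕ} (h : Nb P d B) (hBC : B ≤ C) : Nb P d C :=
  ⟨h.1, h.2.trans hBC⟩

theorem Nb.add {P Q : MvPolynomial (Fin 7) ℤ} {d B C : ℕ} (h : Nb P d B) (h' : Nb Q d C) :
    Nb (P + Q) d (B + C) :=
  ⟨h.1.add h'.1, (norm1_add_le _ _).trans (Nat.add_le_add h.2 h'.2)⟩

theorem Nb.sub {P Q : MvPolynomial (Fin 7) ℤ} {d B C : ℕ} (h : Nb P d B) (h' : Nb Q d C) :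
    Nb (P - Q) d (B + C) :=
  ⟨h.1.sub h'.1, (norm1_sub_le _ _).trans (Nat.add_le_add h.2 h'.2)⟩

theorem Nb.mul {P Q : MvPolynomial (Fin 7) ℤ} {d e B C : ℕ} (h : Nb P d B) (h' : Nb Q e C) :
    Nb (P * Q) (d + e) (B * C) :=
  ⟨h.1.mul h'.1, (norm1_mul_le _ _).trans (Nat.mul_le_mul h.2 h'.2)⟩

theorem Nb.const (c : ℤ) : Nb (C c) 0 c.natAbs := ⟨isHomogeneous_C _ _, (norm1_C c).le⟩

theorem Nb.zero (d B : ℕ) : Nb 0 d B := ⟨isHomogeneous_zero _ _ _, by rw [norm1_zero]; omega⟩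

theorem Nb.var (i : Fin 7) : Nb (X i) 1 1 := ⟨isHomogeneous_X _ _, (norm1_X i).le⟩

theorem Nb.two_mul {P : MvPolynomial (Fin 7) ℤ} {d B : ℕ} (h : Nb P d B) : Nb (2 * P) d (2 * B) := by
  rw [_root_.two_mul, _root_.two_mul]
  exact h.add h

theorem Nb.det9 {m : ℕ} {a b c d e f g h i : MvPolynomial (Fin 7) ℤ} (ha : Nb a 1 m) (hb : Nb b 1 m)
    (hc : Nb c 1 m) (hd : Nb d 1 m) (he : Nb e 1 m) (hf : Nb f 1 m) (hg : Nb g 1 m)
    (hh : Nb h 1 m) (hi : Nb i 1 m) : Nb (EPS9.det9 a b c d e f g h i) 3 (6 * m ^ 3) := by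
  refine Nb.mono (Nb.add (Nb.sub (ha.mul ((he.mul hi).sub (hf.mul hh)))
    (hb.mul ((hd.mul hi).sub (hf.mul hg)))) (hc.mul ((hd.mul hh).sub (he.mul hg)))) (le_of_eq ?_)
  ring

theorem Nb.leaf {c B : ℕ} {w P : MvPolynomial (Fin 7) ℤ} (hw : Nb w 0 c) (hP : Nb P 3 B) :
    Nb (w * P) 3 (c * B) := by
  have := hw.mul hP
  rwa [zero_add] at this

theorem ev_b (b : ℕ) : Ev (modN b) (modN b - 1) (2 ^ (494 * b)) where
  cast x := and_cast b x
  lt x := and_lt b x
  n2 := by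
    unfold modN
    rw [← pow_add]
    congr 1
    ring

theorem lt_modN {b x : ℕ} (hb : 1 ≤ b) (hx : x < 2 ^ (83 * b)) : 2 * x < modN b := by
  unfold modN
  have h1 : 2 ^ (83 * b + 1) ≤ 2 ^ (247 * b) := Nat.pow_le_pow_right (by norm_num) (by omega)
  rw [pow_succ] at h1
  omega

/-- the variable of the code `c` -/
noncomputable def lin (c : ℕ) : MvPolynomial (Fin 7) ℤ :=
  if h : c ≠ 0 ∧ c ≤ 7 then X ⟨c - 1, by omega⟩ else 0

/-- the value of a row -/
def rowv (b d : ℕ) : ℕ := if h : d < 7 then 2 ^ (b * kw ⟨d, h⟩) else 0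

/-- the variable of an index -/
def idx (k : ℕ) : Fin 7 := if h : k < 7 then ⟨k, h⟩ else 0

/-- the mask of a table entry -/
def mw (b : ℕ) : ℕ := 2 ^ (83 * b) - 1

theorem kwn_eq (b : ℕ) {k : ℕ} (hk : k ≤ 7) : kwn7 b k = b * kw (idx k) := by
  show b * (Nat.land (Nat.shiftRight 363335816167552 (Nat.mul 7 k)) 127) = _
  congr 1
  interval_cases k <;> rfl

theorem kwn_fin (b : ℕ) {d : ℕ} (hd : d < 7) : 2 ^ kwn7 b d = rowv b d := by
  rw [kwn_eq b (by omega)]
  unfold idx rowv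
  rw [dif_pos hd, dif_pos hd]

theorem xtab_eq (b : ℕ) : xtab7 b = 0 + 2 ^ (83 * b) * (rowv b 0 + 2 ^ (83 * b) *
    (rowv b 1 + 2 ^ (83 * b) * (rowv b 2 + 2 ^ (83 * b) * (rowv b 3 + 2 ^ (83 * b) *
    (rowv b 4 + 2 ^ (83 * b) * (rowv b 5 + 2 ^ (83 * b) * (rowv b 6 + 2 ^ (83 * b) * 0))))))) := by
  have h : xtab7 b = ((2 ^ (83 * b * 1 + kwn7 b 0) + 2 ^ (83 * b * 2 + kwn7 b 1)) +
      (2 ^ (83 * b * 3 + kwn7 b 2) + 2 ^ (83 * b * 4 + kwn7 b 3))) +
      ((2 ^ (83 * b * 5 + kwn7 b 4) + 2 ^ (83 * b * 6 + kwn7 b 5)) +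
      2 ^ (83 * b * 7 + kwn7 b 6)) := rfl
  rw [h]
  simp only [pow_add, pow_mul _ (83 * b)]
  rw [kwn_fin b (by norm_num : 0 < 7), kwn_fin b (by norm_num : 1 < 7),
    kwn_fin b (by norm_num : 2 < 7), kwn_fin b (by norm_num : 3 < 7),
    kwn_fin b (by norm_num : 4 < 7), kwn_fin b (by norm_num : 5 < 7),
    kwn_fin b (by norm_num : 6 < 7)]
  ring

theorem rowv_lt {b : ℕ} (hb : 1 ≤ b) (d : ℕ) : rowv b d < 2 ^ (83 * b) := by
  unfold rowv
  split_ifs with h
  · apply Nat.pow_lt_pow_right (by norm_num)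
    have h1 := kw_le ⟨d, h⟩
    have h2 : b * kw ⟨d, h⟩ ≤ b * 82 := Nat.mul_le_mul_left _ h1
    omega
  · positivity

theorem step_div {B r q : ℕ} (hr : r < B) : (r + B * q) / B = q := by
  rw [Nat.add_mul_div_left _ _ (by omega), Nat.div_eq_of_lt hr, zero_add]

theorem step_mod {B r q : ℕ} (hr : r < B) : (r + B * q) % B = r := by
  rw [Nat.add_mul_mod_self_left, Nat.mod_eq_of_lt hr]

theorem field_eq {b : ℕ} (hb : 1 ≤ b) {c : ℕ} (hc : c ≤ 7) :
    xc (xtab7 b) (83 * b) (mw b) c = if c = 0 then 0 else rowv b (c - 1) := by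
  have h : xc (xtab7 b) (83 * b) (mw b) c
      = (xtab7 b >>> (83 * b * c)) &&& (2 ^ (83 * b) - 1) := rfl
  rw [h, Nat.and_two_pow_sub_one_eq_mod, Nat.shiftRight_eq_div_pow, pow_mul, xtab_eq]
  have h0 : 0 < 2 ^ (83 * b) := by positivity
  have hr := rowv_lt hb
  generalize 2 ^ (83 * b) = B at *
  have key : ∀ x m : ℕ, x / B ^ (m + 1) = x / B / B ^ m := by
    intro x m
    rw [Nat.div_div_eq_div_mul, pow_succ']
  interval_cases c
  · rw [if_pos rfl, pow_zero, Nat.div_one, step_mod h0]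
  · rw [if_neg (by omega), key, step_div h0, pow_zero, Nat.div_one, step_mod (hr _)]
  · rw [if_neg (by omega), key, step_div h0, key, step_div (hr _), pow_zero, Nat.div_one,
      step_mod (hr _)]
  · rw [if_neg (by omega), key, step_div h0, key, step_div (hr _), key, step_div (hr _),
      pow_zero, Nat.div_one, step_mod (hr _)]
  · rw [if_neg (by omega), key, step_div h0, key, step_div (hr _), key, step_div (hr _),
      key, step_div (hr _), pow_zero, Nat.div_one, step_mod (hr _)]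
  · rw [if_neg (by omega), key, step_div h0, key, step_div (hr _), key, step_div (hr _),
      key, step_div (hr _), key, step_div (hr _), pow_zero, Nat.div_one, step_mod (hr _)]
  · rw [if_neg (by omega), key, step_div h0, key, step_div (hr _), key, step_div (hr _),
      key, step_div (hr _), key, step_div (hr _), key, step_div (hr _), pow_zero, Nat.div_one,
      step_mod (hr _)]
  · rw [if_neg (by omega), key, step_div h0, key, step_div (hr _), key, step_div (hr _),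
      key, step_div (hr _), key, step_div (hr _), key, step_div (hr _), key, step_div (hr _),
      pow_zero, Nat.div_one, step_mod (hr _)]

theorem xc_lt (b XT c : ℕ) : xc XT (83 * b) (mw b) c < 2 ^ (83 * b) := by
  have h : xc XT (83 * b) (mw b) c
      = (XT >>> (83 * b * c)) &&& (2 ^ (83 * b) - 1) := rfl
  rw [h, Nat.and_two_pow_sub_one_eq_mod]
  exact Nat.mod_lt _ (by positivity)

theorem kap_lin (b : ℕ) {c : ℕ} (hc : c ≤ 7) : kap b (lin c)
    = ((if c = 0 then 0 else rowv b (c - 1) : ℕ) : ZMod (modN b)) := by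
  unfold lin
  by_cases h : c = 0
  · rw [dif_neg (by omega), if_pos h, map_zero, Nat.cast_zero]
  · rw [dif_pos ⟨h, hc⟩, if_neg h, kap_X]
    unfold rowv
    rw [dif_pos (show c - 1 < 7 by omega)]
    push_cast
    rfl

theorem xc_cv {b : ℕ} (hb : 1 ≤ b) {c : ℕ} (hc : c ≤ 7) :
    Cv (modN b) (xc (xtab7 b) (83 * b) (mw b) c) (kap b (lin c)) := by
  unfold Cv
  rw [kap_lin b hc, field_eq hb hc]

theorem lin_hom (c : ℕ) : (lin c).IsHomogeneous 1 := by
  unfold lin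
  split_ifs
  · exact isHomogeneous_X _ _
  · exact isHomogeneous_zero _ _ _

theorem lin_nb {nx : ℕ} (hn : 1 ≤ nx) (c : ℕ) : Nb (lin c) 1 nx := by
  refine ⟨lin_hom c, ?_⟩
  unfold lin
  split_ifs with h
  · rw [norm1_X]
    exact hn
  · rw [norm1_zero]
    exact Nat.zero_le _

end Pool.Agent.Lib.EPS9.S7
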