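import Pool.Agent.Lib.MP_c7e7f6_eps.Loops

/-!
Soundness of the certificate checks of `Core`.
-/

set_option autoImplicit false
set_option linter.unusedVariables false
set_option linter.style.longLine false

namespace Pool.Agent.Lib.EPS9

open MvPolynomial

section

variable {b A nx n w : ℕ} {X : ℕ → ℝ} {y : Fin 6 → ℝ} {D : Fin n → Fin n → ℝ}

theorem dense_sound (h : Dat b A nx n w X y D) {u : ℕ} (hu : 1 ≤ u) (lam : ℕ)
    (hne : ∀ i j, i < j → j < 6 → cl w i j ≠ 0) : ∃ P : MvPolynomial (Fin 6) ℤ,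
    kap b P = dsumf (fun t => ((wz u lam t : ℤ) : ZMod (modN b)))
      (fun i j => ((xv b (xtab b A) w i j : ℕ) : ZMod (modN b))) ∧
    Nb P 3 (2 ^ u * (nx ^ 3 * 4050)) ∧ aeval y P = 0 := by
  refine ⟨dsumf (fun t => C (wz u lam t)) (fun i j => lin A (cl w i j)), ?_, ?_, ?_⟩
  · rw [map_dsumf]
    congr 1
    · funext t
      rw [kap_C]
    · funext i j
      exact (xc_cv h.hb A (cl_le w i j)).symm
  · refine (dsumf_nb (c := 2 ^ (u - 1)) (n := nx)
      (fun t => (Nb.const _).mono (wz_natAbs hu lam t)) (fun i j _ _ => lin_nb h.hw _)).mono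
      (le_of_eq ?_)
    have e : 2 ^ u = 2 * 2 ^ (u - 1) := by
      rw [← pow_succ']
      congr 1
      omega
    rw [e]
    ring
  · have e1 : aeval y (dsumf (fun t => C (wz u lam t)) (fun i j => lin A (cl w i j)))
        = (aeval y).toRingHom (dsumf (fun t => C (wz u lam t)) (fun i j => lin A (cl w i j))) := rfl
    rw [e1, map_dsumf]
    have h5 : 5 < n := (h.lt (by omega) (by omega) (hne 0 5 (by omega) (by omega))).2.1
    let f : Fin 6 → Fin n := fun i => ⟨i, by omega⟩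
    have hinj : Function.Injective f := by
      intro i j hij
      have := congrArg (fun t : Fin n => (t : ℕ)) hij
      exact Fin.ext this
    refine dsumf_zero (h.hG.comp hinj) _ ?_
    intro i j hi hj
    exact (h.val (by omega) (by omega) (lt_trans hi (lt_of_lt_of_le hj h5)) (lt_of_lt_of_le hj h5)
      (Or.inl (hne i j hi hj))).ev

theorem full5_ne {w : ℕ} (h : full5 w ≠ 0) : ∀ i j, i < j → j < 5 → cl w i j ≠ 0 := by
  obtain ⟨h1, h2⟩ := mul_ne h
  obtain ⟨h3, h4⟩ := mul_ne h1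
  obtain ⟨h5, h6⟩ := mul_ne h2
  obtain ⟨a1, a2⟩ := mul_ne h3
  obtain ⟨a3, a4⟩ := mul_ne h4
  obtain ⟨h7, h8⟩ := mul_ne h5
  obtain ⟨a5, a6⟩ := mul_ne h7
  obtain ⟨a7, a8⟩ := mul_ne h8
  obtain ⟨a9, a10⟩ := mul_ne h6
  intro i j hi hj
  interval_cases j <;> interval_cases i
  exacts [a1, a2, a3, a4, a5, a6, a7, a8, a9, a10]

theorem full6_ne {w : ℕ} (h : full6 w ≠ 0) : ∀ i, i < 5 → cl w i 5 ≠ 0 := by
  obtain ⟨h1, a5⟩ := mul_ne h
  obtain ⟨h3, h4⟩ := mul_ne h1
  obtain ⟨a1, a2⟩ := mul_ne h3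
  obtain ⟨a3, a4⟩ := mul_ne h4
  intro i hi
  interval_cases i
  exacts [a1, a2, a3, a4, a5]

theorem full_ne {w : ℕ} (h : full5 w ≠ 0) (h' : full6 w ≠ 0) :
    ∀ i j, i < j → j < 6 → cl w i j ≠ 0 := by
  intro i j hi hj
  rcases Nat.lt_or_ge j 5 with h5 | h5
  · exact full5_ne h i j hi h5
  · have : j = 5 := by omega
    subst this
    exact full6_ne h' i hi

theorem xv_lt (b XT w i j : ℕ) : xv b XT w i j < 2 ^ (46 * b) := xc_lt b XT _

theorem lf_sound (h : Dat b A nx n w X y D) {u e : ℕ} (hu : 1 ≤ u) (hbu : b = u + 15 + e)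
    (he : nx ^ 3 ≤ 2 ^ e) {x : ℕ → ℕ → ℕ} {K : ℕ → ℕ → ℕ → ℕ → ℕ → ℕ → ℕ} (hK : KP b u x K)
    (hx : ∀ i j, i < j → j < 5 → xv b (xtab b A) w i j = x i j) (h5 : full5 w ≠ 0) {p : ℕ}
    (hl : lf b u K (xtab b A) w p = true) : False := by
  obtain ⟨h6, hr⟩ := isZ_true hl
  have hne := full_ne h5 h6
  obtain ⟨P, hP1, hP2, hP3⟩ := dense_sound h hu (Nat.shiftRight p 10) hne
  refine rest_sound h hbu he hr ?_ hP2 hP3
  rw [hP1]
  exact hK (Nat.shiftRight p 10) (xv b (xtab b A) w) hx (xv_lt b _ w)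

theorem dsumf_congr {R : Type*} [CommRing R] {w : ℕ → R} {f g : ℕ → ℕ → R}
    (h : ∀ i j, i < j → j < 6 → f i j = g i j) : dsumf w f = dsumf w g := by
  unfold dsumf
  rw [h 0 1 (by omega) (by omega), h 0 2 (by omega) (by omega), h 0 3 (by omega) (by omega),
    h 0 4 (by omega) (by omega), h 0 5 (by omega) (by omega), h 1 2 (by omega) (by omega),
    h 1 3 (by omega) (by omega), h 1 4 (by omega) (by omega), h 1 5 (by omega) (by omega),
    h 2 3 (by omega) (by omega), h 2 4 (by omega) (by omega), h 2 5 (by omega) (by omega),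
    h 3 4 (by omega) (by omega), h 3 5 (by omega) (by omega), h 4 5 (by omega) (by omega)]

theorem lg_sound (h : Dat b A nx n w X y D) {u e : ℕ} (hu : 1 ≤ u) (hbu : b = u + 15 + e)
    (he : nx ^ 3 ≤ 2 ^ e) {x : ℕ → ℕ → ℕ} {K : ℕ → ℕ} (hK : TP b u x K)
    (hx : ∀ i j, i < j → j < 6 → x i j = xv b (xtab b A) w i j) (h5 : full5 w ≠ 0)
    (h6 : full6 w ≠ 0) {p : ℕ} (hl : lg b u K (xtab b A) w p = true) : False := by
  have hne := full_ne h5 h6
  obtain ⟨P, hP1, hP2, hP3⟩ := dense_sound h hu (Nat.shiftRight p 10) hne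
  refine rest_sound h hbu he hl ?_ hP2 hP3
  rw [hP1]
  have := hK (Nat.shiftRight p 10)
  refine this.congr (dsumf_congr fun i j hi hj => ?_)
  rw [hx i j hi hj]

theorem ls_sound (h : Dat b A nx n w X y D) {u e : ℕ} (hbu : b = u + 15 + e)
    (he : nx ^ 3 ≤ 2 ^ e) {p : ℕ} (hl : ls b u (xtab b A) w p = true) : False := by
  refine rest_sound h hbu he (P := 0) hl ?_ (Nb.zero _ _) (map_zero _)
  rw [map_zero]
  exact Nat.cast_zero

end

theorem wide_idA : Wide idA 1 := by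
  unfold Wide idA
  decide

theorem wide_stA : Wide stA 6 := by
  intro d _
  exact (Finset.card_le_univ _).trans (by simp)

theorem Agree.full5 {w v : ℕ} (h : Agree 5 w v) : full5 w = full5 v := by
  unfold EPS9.full5
  rw [h 0 (by omega) 1 (by omega), h 0 (by omega) 2 (by omega), h 1 (by omega) 2 (by omega),
    h 0 (by omega) 3 (by omega), h 1 (by omega) 3 (by omega), h 2 (by omega) 3 (by omega),
    h 0 (by omega) 4 (by omega), h 1 (by omega) 4 (by omega), h 2 (by omega) 4 (by omega),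
    h 3 (by omega) 4 (by omega)]

theorem Agree.full6 {w v : ℕ} (h : Agree 6 w v) : full6 w = full6 v := by
  unfold EPS9.full6
  rw [h 0 (by omega) 5 (by omega), h 1 (by omega) 5 (by omega), h 2 (by omega) 5 (by omega),
    h 3 (by omega) 5 (by omega), h 4 (by omega) 5 (by omega)]

theorem Agree.xv {w v m : ℕ} (h : Agree m w v) (b XT : ℕ) :
    ∀ i j, i < j → j < m → xv b XT w i j = xv b XT v i j := by
  intro i j hi hj
  unfold EPS9.xv
  rw [h i (by omega) j hj]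

theorem withK_sound {v : ℕ} {k : (Nat → Nat → Nat → Nat → Nat → Nat → Nat) →
      (Nat → Nat → Nat → Nat → Nat → Nat → Nat) → (Nat → Nat → Nat → Nat → Nat → Nat → Nat) →
      (Nat → Nat → Nat → Nat → Nat → Nat → Nat) → (Nat → Nat → Nat → Nat → Nat → Nat → Nat) →
      (Nat → Nat → Nat → Nat → Nat → Nat → Nat) → (Nat → Nat → Nat → Nat → Nat → Nat → Nat) → Bool}
    (h : withK v k = true) :
    ∃ K6 K8 K10 K12 K14 K18 K24, k K6 K8 K10 K12 K14 K18 K24 = true ∧
      ∀ w p, Agree 5 w v → lRoot K6 K8 K10 K12 K14 K18 K24 w p = true →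
        ∀ n X y, Cf n w X → Fo idA y X → False := by
  obtain ⟨h5, h⟩ := isZ_true h
  obtain ⟨K6, h, c6⟩ := aK6_cv (x := xv 21 (xtab 21 idA) v) (by norm_num) (xv_lt _ _ _) h
  obtain ⟨K8, h, c8⟩ := aK8_cv (x := xv 23 (xtab 23 idA) v) (by norm_num) (xv_lt _ _ _) h
  obtain ⟨K10, h, c10⟩ := aK10_cv (x := xv 25 (xtab 25 idA) v) (by norm_num) (xv_lt _ _ _) h
  obtain ⟨K12, h, c12⟩ := aK12_cv (x := xv 27 (xtab 27 idA) v) (by norm_num) (xv_lt _ _ _) h
  obtain ⟨K14, h, c14⟩ := aK14_cv (x := xv 29 (xtab 29 idA) v) (by norm_num) (xv_lt _ _ _) h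
  obtain ⟨K18, h, c18⟩ := aK18_cv (x := xv 33 (xtab 33 idA) v) (by norm_num) (xv_lt _ _ _) h
  obtain ⟨K24, h, c24⟩ := aK24_cv (x := xv 39 (xtab 39 idA) v) (by norm_num) (xv_lt _ _ _) h
  refine ⟨K6, K8, K10, K12, K14, K18, K24, h, ?_⟩
  intro w p hA hl n X y hC hF
  obtain ⟨D, hG, hD⟩ := hC
  have hdat : ∀ b, 1 ≤ b → Dat b idA 1 n w X y D := fun b hb => ⟨hb, wide_idA, hF, hG, hD⟩
  have hw5 : full5 w ≠ 0 := by rwa [hA.full5]
  unfold lRoot at hl
  generalize Nat.land p 7 = m at hl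
  rcases m with _ | _ | _ | _ | _ | _ | _ | m
  · exact lf_sound (hdat 21 (by norm_num)) (by norm_num) (e := 0) (by norm_num) (by norm_num) c6
      (hA.xv _ _) hw5 hl
  · exact lf_sound (hdat 23 (by norm_num)) (by norm_num) (e := 0) (by norm_num) (by norm_num) c8
      (hA.xv _ _) hw5 hl
  · exact lf_sound (hdat 25 (by norm_num)) (by norm_num) (e := 0) (by norm_num) (by norm_num) c10
      (hA.xv _ _) hw5 hl
  · exact lf_sound (hdat 27 (by norm_num)) (by norm_num) (e := 0) (by norm_num) (by norm_num) c12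
      (hA.xv _ _) hw5 hl
  · exact lf_sound (hdat 29 (by norm_num)) (by norm_num) (e := 0) (by norm_num) (by norm_num) c14
      (hA.xv _ _) hw5 hl
  · exact lf_sound (hdat 33 (by norm_num)) (by norm_num) (e := 0) (by norm_num) (by norm_num) c18
      (hA.xv _ _) hw5 hl
  · exact lf_sound (hdat 39 (by norm_num)) (by norm_num) (e := 0) (by norm_num) (by norm_num) c24
      (hA.xv _ _) hw5 hl
  · exact ls_sound (hdat 39 (by norm_num)) (u := 24) (e := 0) (by norm_num) (by norm_num) hl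

theorem lChain_sound {A e w p nx : ℕ} (h : lChain A e w p = true) (hw : Wide A nx)
    (he : nx ^ 3 ≤ 2 ^ e) {n : ℕ} {X : ℕ → ℝ} {y : Fin 6 → ℝ} (hc : Cf n w X) (hf : Fo A y X) :
    False := by
  obtain ⟨h5, h⟩ := isZ_true h
  obtain ⟨D, hG, hD⟩ := hc
  have hdat : ∀ b, 1 ≤ b → Dat b A nx n w X y D := fun b hb => ⟨hb, hw, hf, hG, hD⟩
  generalize Nat.land p 7 = m at h
  rcases m with _ | _ | _ | _ | _ | _ | _ | m
  · obtain ⟨K, h, c⟩ := aK6_cv (b := 21 + e) (x := xv (21 + e) (xtab (21 + e) A) w) (by omega)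
      (xv_lt _ _ _) h
    exact lf_sound (hdat _ (by omega)) (by norm_num) (e := e) (by omega) he c
      (fun _ _ _ _ => rfl) h5 h
  · obtain ⟨K, h, c⟩ := aK8_cv (b := 23 + e) (x := xv (23 + e) (xtab (23 + e) A) w) (by omega)
      (xv_lt _ _ _) h
    exact lf_sound (hdat _ (by omega)) (by norm_num) (e := e) (by omega) he c
      (fun _ _ _ _ => rfl) h5 h
  · obtain ⟨K, h, c⟩ := aK10_cv (b := 25 + e) (x := xv (25 + e) (xtab (25 + e) A) w) (by omega)
      (xv_lt _ _ _) h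
    exact lf_sound (hdat _ (by omega)) (by norm_num) (e := e) (by omega) he c
      (fun _ _ _ _ => rfl) h5 h
  · obtain ⟨K, h, c⟩ := aK12_cv (b := 27 + e) (x := xv (27 + e) (xtab (27 + e) A) w) (by omega)
      (xv_lt _ _ _) h
    exact lf_sound (hdat _ (by omega)) (by norm_num) (e := e) (by omega) he c
      (fun _ _ _ _ => rfl) h5 h
  · obtain ⟨K, h, c⟩ := aK14_cv (b := 29 + e) (x := xv (29 + e) (xtab (29 + e) A) w) (by omega)
      (xv_lt _ _ _) h
    exact lf_sound (hdat _ (by omega)) (by norm_num) (e := e) (by omega) he c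
      (fun _ _ _ _ => rfl) h5 h
  · obtain ⟨K, h, c⟩ := aK18_cv (b := 33 + e) (x := xv (33 + e) (xtab (33 + e) A) w) (by omega)
      (xv_lt _ _ _) h
    exact lf_sound (hdat _ (by omega)) (by norm_num) (e := e) (by omega) he c
      (fun _ _ _ _ => rfl) h5 h
  · obtain ⟨K, h, c⟩ := aK24_cv (b := 39 + e) (x := xv (39 + e) (xtab (39 + e) A) w) (by omega)
      (xv_lt _ _ _) h
    exact lf_sound (hdat _ (by omega)) (by norm_num) (e := e) (by omega) he c
      (fun _ _ _ _ => rfl) h5 h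
  · exact ls_sound (hdat (39 + e) (by omega)) (u := 24) (e := e) (by omega) he h

theorem withT_sound {v : ℕ} {k : (Nat → Nat) → (Nat → Nat) → (Nat → Nat) → (Nat → Nat) → Bool}
    (h : withT v k = true) :
    ∃ K6 K8 K12 K24, k K6 K8 K12 K24 = true ∧
      ∀ w p, Agree 6 w v → lTot K6 K8 K12 K24 w p = true →
        ∀ n X y, Cf n w X → Fo stA y X → False := by
  obtain ⟨h5, h⟩ := isZ_true h
  obtain ⟨h5, h6⟩ := mul_ne h5
  obtain ⟨K6, h, c6⟩ := tM6_cv (x := xv 29 (xtab 29 stA) v) (by norm_num) (xv_lt _ _ _) h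
  obtain ⟨K8, h, c8⟩ := tM8_cv (x := xv 31 (xtab 31 stA) v) (by norm_num) (xv_lt _ _ _) h
  obtain ⟨K12, h, c12⟩ := tM12_cv (x := xv 35 (xtab 35 stA) v) (by norm_num) (xv_lt _ _ _) h
  obtain ⟨K24, h, c24⟩ := tM24_cv (x := xv 47 (xtab 47 stA) v) (by norm_num) (xv_lt _ _ _) h
  refine ⟨K6, K8, K12, K24, h, ?_⟩
  intro w p hA hl n X y hC hF
  obtain ⟨D, hG, hD⟩ := hC
  have hdat : ∀ b, 1 ≤ b → Dat b stA 6 n w X y D := fun b hb => ⟨hb, wide_stA, hF, hG, hD⟩
  have hA5 : Agree 5 w v := fun i hi j hj => hA i (by omega) j (by omega)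
  have hw5 : full5 w ≠ 0 := by rwa [hA5.full5]
  have hw6 : full6 w ≠ 0 := by rwa [hA.full6]
  have hx : ∀ b XT i j, i < j → j < 6 → xv b XT v i j = xv b XT w i j :=
    fun b XT i j hi hj => (hA.xv b XT i j hi hj).symm
  unfold lTot at hl
  generalize Nat.land p 7 = m at hl
  rcases m with _ | _ | _ | _ | m
  · exact lg_sound (hdat 29 (by norm_num)) (by norm_num) (e := 8) (by norm_num) (by norm_num) c6
      (hx _ _) hw5 hw6 hl
  · exact lg_sound (hdat 31 (by norm_num)) (by norm_num) (e := 8) (by norm_num) (by norm_num) c8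
      (hx _ _) hw5 hw6 hl
  · exact lg_sound (hdat 35 (by norm_num)) (by norm_num) (e := 8) (by norm_num) (by norm_num) c12
      (hx _ _) hw5 hw6 hl
  · exact lg_sound (hdat 47 (by norm_num)) (by norm_num) (e := 8) (by norm_num) (by norm_num) c24
      (hx _ _) hw5 hw6 hl
  · exact ls_sound (hdat 47 (by norm_num)) (u := 24) (e := 8) (by norm_num) (by norm_num) hl

end Pool.Agent.Lib.EPS9
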