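import Pool.Agent.Lib.MP_c7e7f6_eps.Modes

/-!
The packed table of the linear forms of the codes.
-/

set_option autoImplicit false
set_option linter.unusedVariables false
set_option linter.style.longLine false

namespace Pool.Agent.Lib.EPS9

open MvPolynomial

/-- the linear form of the code `c` -/
noncomputable def lin (A c : ℕ) : MvPolynomial (Fin 6) ℤ :=
  if c = 0 ∨ 6 < c then 0 else ∑ a : Fin 6, if A.testBit (6 * (c - 1) + a) then X a else 0

/-- the value of a row -/
def rowv (b A d : ℕ) : ℕ := ∑ a : Fin 6, if A.testBit (6 * d + a) then 2 ^ (b * kw a) else 0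

/-- the variable of an index -/
def idx (k : ℕ) : Fin 6 := if h : k < 6 then ⟨k, h⟩ else 0

theorem kwn_eq (b : ℕ) {k : ℕ} (hk : k ≤ 7) : kwn b k = b * kw (idx k) := by
  show b * (Nat.land (Nat.shiftRight 49029886080 (Nat.mul 6 k)) 63) = _
  congr 1
  interval_cases k <;> rfl

theorem kwn_fin (b : ℕ) (a : Fin 6) : kwn b a = b * kw a := by
  rw [kwn_eq b (by have := a.2; omega)]
  congr 2
  unfold idx
  rw [dif_pos a.2]

theorem bit_eq (A i : ℕ) : Nat.land (Nat.shiftRight A i) 1 = if A.testBit i then 1 else 0 := by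
  have h : Nat.land (Nat.shiftRight A i) 1 = (A >>> i) &&& 1 := rfl
  rw [h, Nat.and_one_is_mod, Nat.shiftRight_eq_div_pow, Nat.testBit_eq_decide_div_mod_eq]
  have h2 : A / 2 ^ i % 2 < 2 := Nat.mod_lt _ (by norm_num)
  by_cases h3 : A / 2 ^ i % 2 = 1
  · simp [h3]
  · have h4 : A / 2 ^ i % 2 = 0 := by omega
    simp [h4]

theorem xe_eq (b A d : ℕ) (a : Fin 6) : xe b A d a
    = (if A.testBit (6 * d + a) then 2 ^ (b * kw a) else 0) * (2 ^ (46 * b)) ^ (d + 1) := by
  have h : xe b A d a = (Nat.land (Nat.shiftRight A (6 * d + a)) 1) <<<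
      (46 * b * (d + 1) + kwn b a) := rfl
  rw [h, bit_eq, kwn_fin, Nat.shiftLeft_eq, pow_add, ← pow_mul]
  split_ifs <;> ring

theorem xr_eq (b A d : ℕ) : xr b A d = rowv b A d * (2 ^ (46 * b)) ^ (d + 1) := by
  have h : xr b A d = (xe b A d (0 : Fin 6) + xe b A d (1 : Fin 6)
    + (xe b A d (2 : Fin 6) + xe b A d (3 : Fin 6)))
    + (xe b A d (4 : Fin 6) + xe b A d (5 : Fin 6)) := rfl
  rw [h, xe_eq, xe_eq, xe_eq, xe_eq, xe_eq, xe_eq]
  unfold rowv
  rw [Fin.sum_univ_six]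
  ring

theorem xtab_eq (b A : ℕ) : xtab b A = 0 + 2 ^ (46 * b) * (rowv b A 0 + 2 ^ (46 * b) *
    (rowv b A 1 + 2 ^ (46 * b) * (rowv b A 2 + 2 ^ (46 * b) * (rowv b A 3 + 2 ^ (46 * b) *
    (rowv b A 4 + 2 ^ (46 * b) * (rowv b A 5 + 2 ^ (46 * b) * 0)))))) := by
  have h : xtab b A = (xr b A 0 + xr b A 1 + (xr b A 2 + xr b A 3)) + (xr b A 4 + xr b A 5) := rfl
  rw [h, xr_eq, xr_eq, xr_eq, xr_eq, xr_eq, xr_eq]
  ring

theorem rowv_lt {b : ℕ} (hb : 1 ≤ b) (A d : ℕ) : rowv b A d < 2 ^ (46 * b) := by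
  have h1 : rowv b A d ≤ ∑ a : Fin 6, 2 ^ (b * kw a) := by
    unfold rowv
    refine Finset.sum_le_sum fun a _ => ?_
    split_ifs
    · exact le_rfl
    · exact Nat.zero_le _
  rw [Fin.sum_univ_six] at h1
  have e : ∀ a : Fin 6, kw a = ![0, 2, 11, 26, 42, 45] a := fun a => rfl
  simp only [e] at h1
  simp only [Matrix.cons_val] at h1
  have h2 : 2 ^ (46 * b) = 2 ^ b * (2 ^ (3 * b) * 2 ^ (42 * b)) := by
    rw [← pow_add, ← pow_add]
    congr 1
    ring
  have h3 : 2 ^ (b * 45) = 2 ^ (3 * b) * 2 ^ (42 * b) := by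
    rw [← pow_add]
    congr 1
    ring
  have h4 : 2 ^ (b * 42) = 2 ^ (42 * b) := by rw [mul_comm]
  have m1 : 2 ^ (b * 0) ≤ 2 ^ (42 * b) := Nat.pow_le_pow_right (by norm_num) (by omega)
  have m2 : 2 ^ (b * 2) ≤ 2 ^ (42 * b) := Nat.pow_le_pow_right (by norm_num) (by omega)
  have m3 : 2 ^ (b * 11) ≤ 2 ^ (42 * b) := Nat.pow_le_pow_right (by norm_num) (by omega)
  have m4 : 2 ^ (b * 26) ≤ 2 ^ (42 * b) := Nat.pow_le_pow_right (by norm_num) (by omega)
  have m5 : 2 ≤ 2 ^ b := by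
    calc 2 = 2 ^ 1 := rfl
      _ ≤ 2 ^ b := Nat.pow_le_pow_right (by norm_num) hb
  have m6 : 8 ≤ 2 ^ (3 * b) := by
    calc 8 = 2 ^ 3 := rfl
      _ ≤ 2 ^ (3 * b) := Nat.pow_le_pow_right (by norm_num) (by omega)
  have m7 : 0 < 2 ^ (42 * b) := by positivity
  rw [h2]
  generalize 2 ^ (42 * b) = T at *
  generalize 2 ^ (3 * b) = S at *
  generalize 2 ^ b = R at *
  have m8 : 8 * T ≤ S * T := Nat.mul_le_mul_right _ m6
  have m9 : 2 * (S * T) ≤ R * (S * T) := Nat.mul_le_mul_right _ m5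
  omega

theorem step_div {B r q : ℕ} (hr : r < B) : (r + B * q) / B = q := by
  rw [Nat.add_mul_div_left _ _ (by omega), Nat.div_eq_of_lt hr, zero_add]

theorem step_mod {B r q : ℕ} (hr : r < B) : (r + B * q) % B = r := by
  rw [Nat.add_mul_mod_self_left, Nat.mod_eq_of_lt hr]

theorem field_eq {b : ℕ} (hb : 1 ≤ b) (A : ℕ) {c : ℕ} (hc : c ≤ 7) :
    xc (xtab b A) (46 * b) (mw b) c = if c = 0 ∨ 6 < c then 0 else rowv b A (c - 1) := by
  have h : xc (xtab b A) (46 * b) (mw b) c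
      = (xtab b A >>> (46 * b * c)) &&& (2 ^ (46 * b) - 1) := rfl
  rw [h, Nat.and_two_pow_sub_one_eq_mod, Nat.shiftRight_eq_div_pow, pow_mul, xtab_eq]
  have h0 : 0 < 2 ^ (46 * b) := by positivity
  have hr := rowv_lt hb A
  generalize 2 ^ (46 * b) = B at *
  have key : ∀ x m : ℕ, x / B ^ (m + 1) = x / B / B ^ m := by
    intro x m
    rw [Nat.div_div_eq_div_mul, pow_succ']
  interval_cases c
  · rw [if_pos (Or.inl rfl), pow_zero, Nat.div_one, step_mod h0]
  · rw [if_neg (by omega), key, step_div h0, pow_zero, Nat.div_one, step_mod (hr _)]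
  · rw [if_neg (by omega), key, step_div h0, key, step_div (hr _), pow_zero, Nat.div_one,
      step_mod (hr _)]
  · rw [if_neg (by omega), key, step_div h0, key, step_div (hr _), key, step_div (hr _),
      pow_zero, Nat.div_one, step_mod (hr _)]
  · rw [if_neg (by omega), key, step_div h0, key, step_div (hr _), key, step_div (hr _),
      key, step_div (hr _), pow_zero, Nat.div_one, step_mod (hr _)]
  · rw [if_neg (by omega), key, step_div h0, key, step_div (hr _), key, step_div (hr _),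
      key, step_div (hr _), key, step_div (hr _), pow_zero, Nat.div_one, step_mod (hr _)]
  · rw [if_neg (by omega), key, step_div h0, key, step_div (hr _), key, step_div (hr _),
      key, step_div (hr _), key, step_div (hr _), key, step_div (hr _), pow_zero, Nat.div_one,
      step_mod (hr _)]
  · rw [if_pos (Or.inr (by omega)), key, step_div h0, key, step_div (hr _), key, step_div (hr _),
      key, step_div (hr _), key, step_div (hr _), key, step_div (hr _), key, step_div (hr _),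
      pow_zero, Nat.div_one, Nat.zero_mod]

theorem xc_lt (b XT c : ℕ) : xc XT (46 * b) (mw b) c < 2 ^ (46 * b) := by
  have h : xc XT (46 * b) (mw b) c
      = (XT >>> (46 * b * c)) &&& (2 ^ (46 * b) - 1) := rfl
  rw [h, Nat.and_two_pow_sub_one_eq_mod]
  exact Nat.mod_lt _ (by positivity)

theorem kap_lin (b A c : ℕ) : kap b (lin A c)
    = ((if c = 0 ∨ 6 < c then 0 else rowv b A (c - 1) : ℕ) : ZMod (modN b)) := by
  unfold lin
  split_ifs with h
  · rw [map_zero, Nat.cast_zero]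
  · unfold rowv
    rw [map_sum, Nat.cast_sum]
    refine Finset.sum_congr rfl fun a _ => ?_
    split_ifs
    · rw [kap_X]
      push_cast
      rfl
    · rw [map_zero, Nat.cast_zero]

theorem xc_cv {b : ℕ} (hb : 1 ≤ b) (A : ℕ) {c : ℕ} (hc : c ≤ 7) :
    Cv (modN b) (xc (xtab b A) (46 * b) (mw b) c) (kap b (lin A c)) := by
  unfold Cv
  rw [kap_lin, field_eq hb A hc]

theorem lin_hom (A c : ℕ) : (lin A c).IsHomogeneous 1 := by
  unfold lin
  split_ifs
  · exact isHomogeneous_zero _ _ _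
  · refine IsHomogeneous.sum _ _ _ fun a _ => ?_
    split_ifs
    · exact isHomogeneous_X _ _
    · exact isHomogeneous_zero _ _ _

end Pool.Agent.Lib.EPS9
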