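import Pool.Agent.Lib.MP_c7e7f6_eps.Core2
import Pool.Agent.Lib.MP_c7e7f6_eps.Sound
import Pool.Agent.Lib.MP_c7e7f6_eps.Fld

/-!
Soundness of the tree of comparisons of `Core2`.
-/

set_option autoImplicit false
set_option linter.unusedVariables false

namespace Pool.Agent.Lib.EPS9

/-! ### Rows -/

theorem brn_true {c a b : Bool} (h : brn c a b = true) : (c = true ∧ a = true) ∨ (c = false ∧ b = true) := by
  cases c with
  | false => exact Or.inr ⟨rfl, h⟩
  | true => exact Or.inl ⟨rfl, h⟩

theorem isZ_cases {n : ℕ} {a b : Bool} (h : isZ n a b = true) :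
    (n = 0 ∧ a = true) ∨ (n ≠ 0 ∧ b = true) := by
  cases n with
  | zero => exact Or.inl ⟨rfl, h⟩
  | succ n => exact Or.inr ⟨Nat.succ_ne_zero n, h⟩

theorem row_testBit (A a i : ℕ) : (row A a).testBit i = (decide (i < 6) && A.testBit (6 * a + i)) := by
  have h : row A a = (A >>> (6 * a)) &&& (2 ^ 6 - 1) := rfl
  rw [h, Nat.testBit_and, Nat.testBit_shiftRight, Nat.testBit_two_pow_sub_one, Bool.and_comm]

theorem row_lt (A a : ℕ) : row A a < 64 := by
  have h : row A a = (A >>> (6 * a)) &&& (2 ^ 6 - 1) := rfl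
  rw [h, Nat.and_two_pow_sub_one_eq_mod]
  exact Nat.mod_lt _ (by norm_num)

theorem COL_testBit (n : ℕ) : COL.testBit n = decide (n < 36 ∧ 6 ∣ n) := by
  by_cases h : n < 36
  · interval_cases n <;> decide
  · rw [Nat.testBit_lt_two_pow]
    · simp [h]
    · exact lt_of_lt_of_le (b := 2 ^ 31) (by decide)
        (Nat.pow_le_pow_right (by norm_num) (by omega))

/-- the facts checked by `sib` -/
theorem sib_spec {A a b : ℕ} (h : sib A a b = true) :
    a < b ∧ b < 6 ∧ A.testBit (6 * a + a) = true ∧ A.testBit (6 * b + b) = true ∧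
    (∀ i < 6, i ≠ a → i ≠ b → A.testBit (6 * a + i) = A.testBit (6 * b + i)) ∧
    (∀ d < 6, ¬ (A.testBit (6 * d + a) = true ∧ A.testBit (6 * d + b) = true)) := by
  obtain ⟨h1, h⟩ := cnd_true h
  obtain ⟨h2, h⟩ := cnd_true h
  obtain ⟨h3, h⟩ := isZ_true h
  obtain ⟨h4, h⟩ := isZ_true h
  have hab : a < b := Nat.le_of_ble_eq_true h1
  have e1 : Nat.xor (row A a) (2 ^ a) = Nat.xor (row A b) (2 ^ b) := Nat.eq_of_beq_eq_true h2
  have bit : ∀ c, Nat.land (row A c) (2 ^ c) ≠ 0 → c < 6 ∧ A.testBit (6 * c + c) = true := by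
    intro c hc
    have hc' : (row A c) &&& 2 ^ c ≠ 0 := hc
    rw [Nat.and_two_pow] at hc'
    have h5 : (row A c).testBit c = true := by
      by_contra h6
      rw [Bool.not_eq_true] at h6
      rw [h6] at hc'
      simp at hc'
    rw [row_testBit, Bool.and_eq_true, decide_eq_true_eq] at h5
    exact h5
  obtain ⟨ha6, hA⟩ := bit a h3
  obtain ⟨hb6, hB⟩ := bit b h4
  refine ⟨hab, hb6, hA, hB, ?_, ?_⟩
  · intro i hi hia hib
    have h5 : (Nat.xor (row A a) (2 ^ a)).testBit i = (Nat.xor (row A b) (2 ^ b)).testBit i := by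
      rw [e1]
    have e2 : ∀ c, i ≠ c → (Nat.xor (row A c) (2 ^ c)).testBit i = A.testBit (6 * c + i) := by
      intro c hc
      have e3 : Nat.xor (row A c) (2 ^ c) = (row A c) ^^^ 2 ^ c := rfl
      rw [e3, Nat.testBit_xor, row_testBit, Nat.testBit_two_pow_of_ne (Ne.symm hc)]
      simp [hi]
    rw [e2 a hia, e2 b hib] at h5
    exact h5
  · intro d hd ⟨h5, h6⟩
    rcases isZ_cases h with ⟨h7, _⟩ | ⟨_, h7⟩
    · have e3 : (Nat.land (Nat.shiftRight A a) (Nat.land (Nat.shiftRight A b) COL)).testBit (6 * d)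
          = true := by
        have e4 : Nat.land (Nat.shiftRight A a) (Nat.land (Nat.shiftRight A b) COL)
            = (A >>> a) &&& ((A >>> b) &&& COL) := rfl
        rw [e4, Nat.testBit_and, Nat.testBit_and, Nat.testBit_shiftRight, Nat.testBit_shiftRight,
          COL_testBit, add_comm a, add_comm b, h5, h6]
        simp
        omega
      rw [h7, Nat.zero_testBit] at e3
      exact Bool.false_ne_true e3
    · exact Bool.false_ne_true h7

theorem upA_testBit {A a b d i : ℕ} (ha : a < 6) (hd : d < 6) (hi : i < 6) :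
    (upA A a b).testBit (6 * d + i)
      = (A.testBit (6 * d + i) || (decide (i = a) && A.testBit (6 * d + b))) := by
  have h : upA A a b = A ||| (((A >>> b) &&& COL) <<< a) := rfl
  rw [h, Nat.testBit_or, Nat.testBit_shiftLeft, Nat.testBit_and, Nat.testBit_shiftRight,
    COL_testBit]
  by_cases hia : i = a
  · subst hia
    have e1 : b + (6 * d + i - i) = 6 * d + b := by omega
    have e2 : 6 * d + i - i = 6 * d := by omega
    rw [e1, e2]
    have e3 : decide (6 * d < 36 ∧ 6 ∣ 6 * d) = true := by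
      rw [decide_eq_true_eq]
      exact ⟨by omega, dvd_mul_right _ _⟩
    rw [e3]
    simp
  · have e3 : (decide (6 * d + i ≥ a) && (A.testBit (b + (6 * d + i - a)) &&
        decide (6 * d + i - a < 36 ∧ 6 ∣ 6 * d + i - a))) = false := by
      rw [Bool.and_eq_false_iff]
      by_cases h1 : 6 * d + i ≥ a
      · right
        rw [Bool.and_eq_false_iff]
        right
        rw [decide_eq_false_iff_not]
        omega
      · left
        rw [decide_eq_false_iff_not]
        exact h1
    rw [e3]
    simp [hia]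

/-- the step of the comparison -/
theorem Fo.split {A a b : ℕ} {y : Fin 6 → ℝ} {X : ℕ → ℝ} (hF : Fo A y X) (ha : a < 6) (hb : b < 6)
    (hab : a ≠ b) (hA : A.testBit (6 * a + a) = true) (hB : A.testBit (6 * b + b) = true)
    (hE : ∀ i < 6, i ≠ a → i ≠ b → A.testBit (6 * a + i) = A.testBit (6 * b + i))
    (hN : ∀ d < 6, ¬ (A.testBit (6 * d + a) = true ∧ A.testBit (6 * d + b) = true))
    (hlt : X (a + 1) < X (b + 1)) :
    Fo (upA A a b) (Function.update y ⟨b, hb⟩ (y ⟨b, hb⟩ - y ⟨a, ha⟩)) X := by
  have hyab : y ⟨a, ha⟩ < y ⟨b, hb⟩ := by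
    have e1 : X (b + 1) - X (a + 1) = y ⟨b, hb⟩ - y ⟨a, ha⟩ := by
      rw [hF.2 a ha, hF.2 b hb, ← Finset.sum_sub_distrib]
      have e2 : ∀ i : Fin 6, ((if A.testBit (6 * b + i) then y i else 0) -
          (if A.testBit (6 * a + i) then y i else 0)) =
          (if i = ⟨b, hb⟩ then y ⟨b, hb⟩ else 0) - (if i = ⟨a, ha⟩ then y ⟨a, ha⟩ else 0) := by
        intro i
        by_cases hia : (i : ℕ) = a
        · have hi : i = ⟨a, ha⟩ := Fin.ext hia
          subst hi
          have h1 : A.testBit (6 * b + a) = false := by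
            by_contra h2
            rw [Bool.not_eq_false] at h2
            exact hN b hb ⟨h2, hB⟩
          have h3 : (⟨a, ha⟩ : Fin 6) ≠ ⟨b, hb⟩ := fun h => hab (by simpa using h)
          simp [h1, hA, h3]
        · by_cases hib : (i : ℕ) = b
          · have hi : i = ⟨b, hb⟩ := Fin.ext hib
            subst hi
            have h1 : A.testBit (6 * a + b) = false := by
              by_contra h2
              rw [Bool.not_eq_false] at h2
              exact hN a ha ⟨hA, h2⟩
            have h3 : (⟨b, hb⟩ : Fin 6) ≠ ⟨a, ha⟩ := fun h => hab (by simpa using h.symm)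
            simp [h1, hB, h3]
          · have h3 : i ≠ ⟨a, ha⟩ := fun h => hia (by rw [h])
            have h4 : i ≠ ⟨b, hb⟩ := fun h => hib (by rw [h])
            rw [hE i i.2 hia hib]
            simp [h3, h4]
      rw [Finset.sum_congr rfl fun i _ => e2 i, Finset.sum_sub_distrib, Finset.sum_ite_eq',
        Finset.sum_ite_eq']
      simp
    linarith
  refine ⟨?_, ?_⟩
  · intro i
    by_cases h : i = ⟨b, hb⟩
    · subst h
      rw [Function.update_self]
      linarith
    · rw [Function.update_of_ne h]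
      exact hF.1 i
  · intro d hd
    rw [hF.2 d hd]
    have hne : (⟨a, ha⟩ : Fin 6) ≠ ⟨b, hb⟩ := fun h => hab (by simpa using h)
    by_cases hdb : A.testBit (6 * d + b) = true
    · have hda : A.testBit (6 * d + a) = false := by
        by_contra h2
        rw [Bool.not_eq_false] at h2
        exact hN d hd ⟨h2, hdb⟩
      have e2 : ∀ i : Fin 6, (if (upA A a b).testBit (6 * d + i) then
          Function.update y ⟨b, hb⟩ (y ⟨b, hb⟩ - y ⟨a, ha⟩) i else 0) =
          (if A.testBit (6 * d + i) then y i else 0) +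
          ((if i = ⟨a, ha⟩ then y ⟨a, ha⟩ else 0) - (if i = ⟨b, hb⟩ then y ⟨a, ha⟩ else 0)) := by
        intro i
        rw [upA_testBit ha hd i.2, hdb]
        by_cases hi : i = ⟨a, ha⟩
        · subst hi
          simp [hda, Function.update_of_ne hne, hne]
        · by_cases hi' : i = ⟨b, hb⟩
          · subst hi'
            have h5 : ¬ (b = a) := fun h => hab h.symm
            simp [hdb, h5, hi]
            ring
          · have h5 : ¬ ((i : ℕ) = a) := fun h => hi (Fin.ext h)
            simp [Function.update_of_ne hi', hi, hi', h5]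
      rw [Finset.sum_congr rfl fun i _ => e2 i, Finset.sum_add_distrib, Finset.sum_sub_distrib,
        Finset.sum_ite_eq', Finset.sum_ite_eq']
      simp
    · rw [Bool.not_eq_true] at hdb
      refine Finset.sum_congr rfl fun i _ => ?_
      rw [upA_testBit ha hd i.2, hdb]
      by_cases hi' : i = ⟨b, hb⟩
      · subst hi'
        simp [hdb]
      · simp [Function.update_of_ne hi']

theorem wide_up {A a b nx : ℕ} (ha : a < 6) (h : Wide A nx) : Wide (upA A a b) (nx + 1) := by
  intro d hd
  have h1 : (Finset.univ.filter (fun i : Fin 6 => (upA A a b).testBit (6 * d + i)))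
      ⊆ insert ⟨a, ha⟩ (Finset.univ.filter (fun i : Fin 6 => A.testBit (6 * d + i))) := by
    intro i hi
    rw [Finset.mem_filter] at hi
    rw [Finset.mem_insert, Finset.mem_filter]
    have h2 := hi.2
    rw [upA_testBit ha hd i.2, Bool.or_eq_true, Bool.and_eq_true, decide_eq_true_eq] at h2
    rcases h2 with h2 | h2
    · exact Or.inr ⟨Finset.mem_univ _, h2⟩
    · exact Or.inl (Fin.ext h2.1)
  refine (Finset.card_le_card h1).trans ((Finset.card_insert_le _ _).trans ?_)
  exact Nat.add_le_add_right (h d hd) 1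

theorem wide_min {A nx : ℕ} (h : Wide A nx) : Wide A (min nx 6) := by
  intro d hd
  refine le_min (h d hd) ?_
  exact (Finset.card_le_univ _).trans (by simp)

theorem eb_spec {d : ℕ} (hd : d ≤ 15) : (min (d + 1) 6) ^ 3 ≤ 2 ^ eb d := by
  interval_cases d <;> decide

/-! ### The final order -/

/-- the rows of consecutive entries are nested -/
theorem nest_spec {A : ℕ} (fuel : ℕ) : ∀ {q : ℕ}, nest A fuel q = true → ∀ i < fuel,
    Nat.land (row A (fld q i)) (row A (fld q (i + 1))) = row A (fld q i) ∧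
      row A (fld q i) ≠ row A (fld q (i + 1)) := by
  induction fuel with
  | zero =>
    intro q _ i hi
    omega
  | succ n ih =>
    intro q h i hi
    obtain ⟨h1, h2⟩ := cnd_true h
    rcases i with _ | i
    · rw [fld_zero, zero_add, ← fld_eq q 1]
      refine ⟨Nat.eq_of_beq_eq_true h1, ?_⟩
      rcases brn_true h2 with ⟨_, h4⟩ | ⟨h3, _⟩
      · exact absurd h4 Bool.false_ne_true
      · intro h5
        have h6 : Nat.beq (row A (Nat.land q 7)) (row A (Nat.land (Nat.shiftRight q 3) 7))
            = true := by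
          have h7 : row A (Nat.land q 7) = row A (Nat.land (Nat.shiftRight q 3) 7) := h5
          rw [← h7]
          exact Nat.beq_refl _
        rw [h3] at h6
        exact Bool.false_ne_true h6
    · rcases brn_true h2 with ⟨_, h4⟩ | ⟨_, h4⟩
      · exact absurd h4 Bool.false_ne_true
      · have := ih h4 i (by omega)
        rwa [fld_shr3, fld_shr3] at this

/-- strictly nested rows -/
def Sub (A a b : ℕ) : Prop :=
  (∀ i < 6, A.testBit (6 * a + i) = true → A.testBit (6 * b + i) = true) ∧
    ∃ i < 6, A.testBit (6 * a + i) = false ∧ A.testBit (6 * b + i) = true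

theorem sub_of {A a b : ℕ} (h1 : Nat.land (row A a) (row A b) = row A a)
    (h2 : row A a ≠ row A b) : Sub A a b := by
  have h1' : (row A a) &&& (row A b) = row A a := h1
  have key : ∀ i < 6, A.testBit (6 * a + i) = true → A.testBit (6 * b + i) = true := by
    intro i hi h3
    have h4 : ((row A a) &&& (row A b)).testBit i = true := by
      rw [h1', row_testBit, h3]
      simp [hi]
    rw [Nat.testBit_and, Bool.and_eq_true, row_testBit, row_testBit, Bool.and_eq_true,
      Bool.and_eq_true] at h4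
    exact h4.2.2
  refine ⟨key, ?_⟩
  by_contra hcon
  push Not at hcon
  apply h2
  apply Nat.eq_of_testBit_eq
  intro i
  rw [row_testBit, row_testBit]
  by_cases hi : i < 6
  · have e := hcon i hi
    congr 1
    by_cases h3 : A.testBit (6 * a + i) = true
    · rw [h3, key i hi h3]
    · rw [Bool.not_eq_true] at h3
      have := e h3
      rw [h3]
      rw [ne_eq, Bool.not_eq_true] at this
      exact this.symm
  · simp [hi]

theorem Sub.trans {A a b c : ℕ} (h : Sub A a b) (h' : Sub A b c) : Sub A a c := by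
  refine ⟨fun i hi h1 => h'.1 i hi (h.1 i hi h1), ?_⟩
  obtain ⟨i, hi, h1, h2⟩ := h.2
  exact ⟨i, hi, h1, h'.1 i hi h2⟩

theorem Sub.ne {A a b : ℕ} (h : Sub A a b) : a ≠ b := by
  rintro rfl
  obtain ⟨i, _, h1, h2⟩ := h.2
  rw [h1] at h2
  exact Bool.false_ne_true h2

theorem Sub.lt {A a b : ℕ} {y : Fin 6 → ℝ} {X : ℕ → ℝ} (hF : Fo A y X) (ha : a < 6) (hb : b < 6)
    (h : Sub A a b) : X (a + 1) < X (b + 1) := by
  rw [hF.2 a ha, hF.2 b hb]
  apply Finset.sum_lt_sum
  · intro i _
    by_cases h1 : A.testBit (6 * a + i) = true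
    · rw [if_pos h1, if_pos (h.1 i i.2 h1)]
    · rw [if_neg h1]
      split_ifs
      · exact (hF.1 i).le
      · exact le_rfl
  · obtain ⟨i, hi, h1, h2⟩ := h.2
    refine ⟨⟨i, hi⟩, Finset.mem_univ _, ?_⟩
    show (if A.testBit (6 * a + i) = true then y ⟨i, hi⟩ else 0)
      < if A.testBit (6 * b + i) = true then y ⟨i, hi⟩ else 0
    rw [h1, h2]
    simpa using hF.1 ⟨i, hi⟩

theorem nest_sub {A fuel q : ℕ} (h : nest A fuel q = true) : ∀ j i, i < j → j ≤ fuel →
    Sub A (fld q i) (fld q j) := by
  intro j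
  induction j with
  | zero =>
    intro i hi
    omega
  | succ j ih =>
    intro i hi hj
    have h1 := nest_spec fuel h j (by omega)
    have h2 := sub_of h1.1 h1.2
    rcases Nat.lt_or_ge i j with h3 | h3
    · exact (ih i h3 (by omega)).trans h2
    · have : i = j := by omega
      rw [this]
      exact h2

/-- the list of the increasing maps -/
def embL (k : ℕ) : ℕ := Nat.land (Nat.shiftRight EMB (Nat.mul 380 k)) (msk 380)

theorem bb_sound {RW NR w k n : ℕ} {X : ℕ → ℝ} (hC : Cf n w X)
    (hinj : ∀ a b, a < 6 → b < 6 → X (a + 1) = X (b + 1) → a = b) (t : Tr) :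
    ∀ (A d : ℕ) (y : Fin 6 → ℝ), bb RW NR w k t A d = true → d ≤ 15 → Fo A y X → Wide A (d + 1) →
    ∃ (q : ℕ) (l : Tr), (∀ j i, i < j → j ≤ k - 1 → fld q i ≠ fld q j) ∧
      (∀ j i, i < j → j ≤ k - 1 → fld q i < 6 → fld q j < 6 →
        X (fld q i + 1) < X (fld q j + 1)) ∧ srvL RW NR w k q l (embL k) = true := by
  induction t with
  | z =>
    intro A d y h
    exact absurd (show false = true from h) Bool.false_ne_true
  | n p l r ihl ihr =>
    intro A d y h hd hF hW
    have h' : (Nat.rec (motive := fun _ => Bool)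
        ((fun a b => cnd (Nat.ble d 14) (cnd (sib A a b)
            (cnd (bb RW NR w k l (upA A a b) (Nat.add d 1))
              (bb RW NR w k r (upA A b a) (Nat.add d 1)))))
          (Nat.land (Nat.shiftRight p 2) 7) (Nat.land (Nat.shiftRight p 5) 7))
        (fun t _ => Nat.rec (motive := fun _ => Bool) (lChain A (eb d) w (Nat.shiftRight p 2))
          (fun _ _ => cnd (nest A (Nat.sub k 1) (Nat.shiftRight p 2))
            (srvL RW NR w k (Nat.shiftRight p 2) l
              (Nat.land (Nat.shiftRight EMB (Nat.mul 380 k)) (msk 380)))) t)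
        (Nat.land p 3) : Bool) = true := h
    generalize Nat.land p 3 = tag at h'
    rcases tag with _ | _ | tag
    · obtain ⟨h1, h2⟩ := cnd_true h'
      obtain ⟨h3, h4⟩ := cnd_true h2
      obtain ⟨h5, h6⟩ := cnd_true h4
      have hd14 : d ≤ 14 := Nat.le_of_ble_eq_true h1
      set a := Nat.land (Nat.shiftRight p 2) 7 with ha
      set b := Nat.land (Nat.shiftRight p 5) 7 with hb
      obtain ⟨hab, hb6, hA, hB, hE, hN⟩ := sib_spec h3
      have ha6 : a < 6 := by omega
      rcases lt_trichotomy (X (a + 1)) (X (b + 1)) with hlt | heq | hgt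
      · exact ihl (upA A a b) (d + 1) _ h5 (by omega) (hF.split ha6 hb6 hab.ne hA hB hE hN hlt)
          (wide_up ha6 hW)
      · exact absurd (hinj a b ha6 hb6 heq) hab.ne
      · exact ihr (upA A b a) (d + 1) _ h6 (by omega)
          (hF.split hb6 ha6 hab.ne' hB hA (fun i hi h7 h8 => (hE i hi h8 h7).symm)
            (fun d hd h7 => hN d hd ⟨h7.2, h7.1⟩) hgt) (wide_up hb6 hW)
    · exact (lChain_sound h' (wide_min hW) (eb_spec hd) hC hF).elim
    · obtain ⟨h1, h2⟩ := cnd_true h'
      refine ⟨Nat.shiftRight p 2, l, fun j i hij hj => (nest_sub h1 j i hij hj).ne,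
        fun j i hij hj hi6 hj6 => (nest_sub h1 j i hij hj).lt hF hi6 hj6, h2⟩

end Pool.Agent.Lib.EPS9
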