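import Pool.Agent.Lib.MP_c7e7f6_eps.TreeGo

/-!
Colourings of the pairs of six points and the tags of the search tree.
-/

set_option autoImplicit false
set_option linter.unusedVariables false

namespace Pool.Agent.Lib.EPS9

/-- colours of a configuration: `D` takes the values `x`, `x` is increasing and positive -/
structure Col {ι : Type*} (D : ι → ι → ℝ) (x : Fin 6 → ℝ) (c : ι → ι → Fin 6) : Prop where
  geo : Geo D
  pos : ∀ k, 0 < x k
  mono : StrictMono x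
  symm : ∀ i j, c i j = c j i
  eq : ∀ i j, i ≠ j → D i j = x (c i j)

/-- first point of the pair number `t` -/
def pI (t : ℕ) : Fin 6 := ⟨ei t % 6, Nat.mod_lt _ (by norm_num)⟩

/-- second point of the pair number `t` -/
def pJ (t : ℕ) : Fin 6 := ⟨ej t % 6, Nat.mod_lt _ (by norm_num)⟩

theorem pI_val {t : ℕ} (ht : t < 15) : (pI t : ℕ) = ei t := by
  obtain ⟨h1, h2⟩ := ei_lt ht
  exact Nat.mod_eq_of_lt (by omega)

theorem pJ_val {t : ℕ} (ht : t < 15) : (pJ t : ℕ) = ej t := by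
  obtain ⟨h1, h2⟩ := ei_lt ht
  exact Nat.mod_eq_of_lt (by omega)

theorem pIJ_ne {t : ℕ} (ht : t < 15) : pI t ≠ pJ t := by
  intro h
  have h1 := congrArg (fun a : Fin 6 => (a : ℕ)) h
  rw [pI_val ht, pJ_val ht] at h1
  have := (ei_lt ht).1
  omega

/-- colours of the permuted pairs -/
def gq (c : Fin 6 → Fin 6 → Fin 6) (τ : Equiv.Perm (Fin 6)) (t : ℕ) : Fin 6 :=
  c (τ (pI t)) (τ (pJ t))

/-- value of the code `n` -/
def Xf (x : Fin 6 → ℝ) (φ : Equiv.Perm (Fin 6)) (n : ℕ) : ℝ :=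
  x (φ ⟨(n - 1) % 6, Nat.mod_lt _ (by norm_num)⟩)

theorem Xf_succ (x : Fin 6 → ℝ) (φ : Equiv.Perm (Fin 6)) {d : ℕ} (hd : d < 6) :
    Xf x φ (d + 1) = x (φ ⟨d, hd⟩) := by
  unfold Xf
  congr 2
  apply Fin.ext
  exact Nat.mod_eq_of_lt (by simpa using hd)

theorem idA_testBit : ∀ d < 6, ∀ a < 6, idA.testBit (6 * d + a) = decide (d = a) := by
  decide +kernel

theorem Xf_fo {x : Fin 6 → ℝ} (hx : ∀ k, 0 < x k) (φ : Equiv.Perm (Fin 6)) :
    Fo idA (fun d => x (φ d)) (Xf x φ) := by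
  refine ⟨fun a => hx _, fun d hd => ?_⟩
  rw [Xf_succ x φ hd]
  have h : ∀ a : Fin 6, (if idA.testBit (6 * d + a) then x (φ a) else 0)
      = if (⟨d, hd⟩ : Fin 6) = a then x (φ a) else 0 := by
    intro a
    rw [idA_testBit d hd a a.2]
    by_cases h1 : (⟨d, hd⟩ : Fin 6) = a
    · rw [if_pos h1, if_pos]
      rw [← h1]
      simp
    · rw [if_neg h1, if_neg]
      rw [decide_eq_true_eq]
      exact fun h2 => h1 (Fin.ext h2)
  rw [Finset.sum_congr rfl fun a _ => h a, Finset.sum_ite_eq]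
  simp

theorem Xf_inj {x : Fin 6 → ℝ} (hx : StrictMono x) (φ : Equiv.Perm (Fin 6)) :
    ∀ a b, a < 6 → b < 6 → Xf x φ (a + 1) = Xf x φ (b + 1) → a = b := by
  intro a b ha hb h
  rw [Xf_succ x φ ha, Xf_succ x φ hb] at h
  have h1 := φ.injective (hx.injective h)
  simpa using h1

theorem rg_le6 (g : ℕ → Fin 6) (t : ℕ) : rg g t ≤ 6 := by
  have := rg_le_card g t
  simpa using this

theorem nd_le6' (g : ℕ → Fin 6) (t : ℕ) : nd g t ≤ 6 := by
  have := nd_le_card g t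
  simpa using this

theorem rg_lt8 (g : ℕ → Fin 6) (t : ℕ) : rg g t < 8 := by
  have := rg_le6 g t
  omega

/-- the value of the code of the pair number `t` -/
theorem Xf_rg {x : Fin 6 → ℝ} {g : ℕ → Fin 6} {φ : Equiv.Perm (Fin 6)} {N : ℕ}
    (hφ : ∀ t < N, ∀ d : Fin 6, (d : ℕ) + 1 = rg g t → φ d = g t) {t : ℕ} (ht : t < N) :
    Xf x φ (rg g t) = x (g t) := by
  have h1 := rg_pos g t
  have h2 := rg_le6 g t
  have h3 : rg g t - 1 < 6 := by omega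
  have h4 := Xf_succ x φ h3
  have h5 : rg g t - 1 + 1 = rg g t := by omega
  rw [h5] at h4
  rw [h4, hφ t ht ⟨rg g t - 1, h3⟩ h5]

theorem cf_of {n : ℕ} {D : Fin n → Fin n → ℝ} (hG : Geo D) {x : Fin 6 → ℝ} {g : ℕ → Fin 6}
    {m : ℕ} (hm : m ≤ 15) (hmn : ∀ t < m, ej t < n)
    (hD : ∀ t < m, ∀ a b : Fin n, (a : ℕ) = ei t → (b : ℕ) = ej t → D a b = x (g t))
    {φ : Equiv.Perm (Fin 6)} (hφ : ∀ t < m, ∀ d : Fin 6, (d : ℕ) + 1 = rg g t → φ d = g t) :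
    Cf n (Wt (rg g) m) (Xf x φ) := by
  refine ⟨D, hG, ?_⟩
  intro i j hi hj hne
  obtain ⟨t, ht, h1, h2⟩ := cl_Wt_ex (rg_lt8 g) hm hi hj hne
  obtain ⟨h3, h4⟩ := ei_lt (show t < 15 by omega)
  have h5 := hmn t ht
  rw [h2, Xf_rg hφ ht]
  refine ⟨rg_le6 g t, ?_⟩
  rcases h1 with ⟨rfl, rfl⟩ | ⟨rfl, rfl⟩
  · exact ⟨by omega, by omega, by omega, hD t ht _ _ rfl rfl⟩
  · refine ⟨by omega, by omega, by omega, ?_⟩
    rw [hG.symm]
    exact hD t ht _ _ rfl rfl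

/-! ### Permuted pairs -/

section

variable {c : Fin 6 → Fin 6 → Fin 6} {τ : Equiv.Perm (Fin 6)} {p m : ℕ}

theorem known_of (hc : ∀ i j, c i j = c j i) (hm : m ≤ 15)
    (hτ : ∀ t < 15, ∀ a b : Fin 6, (a : ℕ) = ei t → (b : ℕ) = ej t →
      fld9 (pw p) t = 3 * (16 * (τ a : ℕ) + (τ b : ℕ))) {t : ℕ} (ht : t < 15)
    (hne : cds (Wt (rg (gq c 1)) m) (pw p) t ≠ 0) :
    ∃ s < m, cds (Wt (rg (gq c 1)) m) (pw p) t = rg (gq c 1) s ∧ gq c 1 s = gq c τ t := by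
  have h1 : cds (Wt (rg (gq c 1)) m) (pw p) t
      = cl (Wt (rg (gq c 1)) m) (τ (pI t) : ℕ) (τ (pJ t) : ℕ) := by
    unfold cds
    rw [hτ t ht (pI t) (pJ t) (pI_val ht) (pJ_val ht), code_eq]
  rw [h1] at hne ⊢
  obtain ⟨s, hs, h2, h3⟩ := cl_Wt_ex (rg_lt8 (gq c 1)) hm (by omega) (by omega) hne
  refine ⟨s, hs, h3, ?_⟩
  have hs15 : s < 15 := by omega
  show c (pI s) (pJ s) = c (τ (pI t)) (τ (pJ t))
  rcases h2 with ⟨h4, h5⟩ | ⟨h4, h5⟩
  · have e1 : pI s = τ (pI t) := Fin.ext (by rw [pI_val hs15, h4])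
    have e2 : pJ s = τ (pJ t) := Fin.ext (by rw [pJ_val hs15, h5])
    rw [e1, e2]
  · have e1 : pI s = τ (pJ t) := Fin.ext (by rw [pI_val hs15, h4])
    have e2 : pJ s = τ (pI t) := Fin.ext (by rw [pJ_val hs15, h5])
    rw [e1, e2, hc]

theorem cds_le6 (hc : ∀ i j, c i j = c j i) (hm : m ≤ 15)
    (hτ : ∀ t < 15, ∀ a b : Fin 6, (a : ℕ) = ei t → (b : ℕ) = ej t →
      fld9 (pw p) t = 3 * (16 * (τ a : ℕ) + (τ b : ℕ))) :
    ∀ t < 15, cds (Wt (rg (gq c 1)) m) (pw p) t ≤ 6 := by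
  intro t ht
  by_cases h : cds (Wt (rg (gq c 1)) m) (pw p) t = 0
  · rw [h]
    exact Nat.zero_le _
  · obtain ⟨s, _, h1, _⟩ := known_of hc hm hτ ht h
    rw [h1]
    exact rg_le6 _ _

theorem rg_cds (hc : ∀ i j, c i j = c j i) (hm : m ≤ 15)
    (hτ : ∀ t < 15, ∀ a b : Fin 6, (a : ℕ) = ei t → (b : ℕ) = ej t →
      fld9 (pw p) t = 3 * (16 * (τ a : ℕ) + (τ b : ℕ))) {t : ℕ} (ht : t < 15)
    (hne : ∀ u ≤ t, cds (Wt (rg (gq c 1)) m) (pw p) u ≠ 0) :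
    rg (cds (Wt (rg (gq c 1)) m) (pw p)) t = rg (gq c τ) t := by
  apply rg_congr
  intro u hu v hv
  obtain ⟨s, _, h1, h2⟩ := known_of hc hm hτ (by omega) (hne u hu)
  obtain ⟨s', _, h3, h4⟩ := known_of hc hm hτ (by omega) (hne v hv)
  rw [h1, h3, rg_eq_iff, h2, h4]

end

theorem code_zero_zero {r : ℕ → ℕ} (hr : ∀ t, r t < 8) {m : ℕ} (hm : m ≤ 15) :
    code (Wt r m) 0 = 0 := by
  have h := code_eq (Wt r m) 0 0
  rw [show 3 * (16 * 0 + 0) = 0 by norm_num] at h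
  rw [h]
  apply cl_Wt_zero hr hm (by norm_num) (by norm_num)
  intro t ht
  obtain ⟨h1, h2⟩ := ei_lt (show t < 15 by omega)
  constructor <;> omega

theorem cds_ge {r : ℕ → ℕ} (hr : ∀ t, r t < 8) {m : ℕ} (hm : m ≤ 15) {p : ℕ} (hp : 720 ≤ p)
    (t : ℕ) : cds (Wt r m) (pw p) t = 0 := by
  unfold cds
  rw [pw_ge hp, fld9_zero]
  exact code_zero_zero hr hm

/-- a permutation gives a smaller word -/
def Lower (c : Fin 6 → Fin 6 → Fin 6) : Prop := ∃ τ : Equiv.Perm (Fin 6), ∃ t < 15,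
  (∀ u < t, rg (gq c τ) u = rg (gq c 1) u) ∧ rg (gq c τ) t < rg (gq c 1) t

theorem tag2 {c : Fin 6 → Fin 6 → Fin 6} (hc : ∀ i j, c i j = c j i) (hmin : ¬ Lower c)
    {m p : ℕ} (hm : m ≤ 15)
    (h : lexGo (Wt (rg (gq c 1)) m) m (pw p) (Sw (rg (gq c 1)) m) 0 0 = true) : False := by
  rcases Nat.lt_or_ge p 720 with hp | hp
  · obtain ⟨τ, hτ⟩ := pw_perm hp
    obtain ⟨t, ht, h1, h2, h3⟩ := lexGo_spec (w := Wt (rg (gq c 1)) m) (q0 := pw p)
      (s0 := Sw (rg (gq c 1)) m) (N := m)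
      (fun u hu => cds_le6 hc hm hτ u (by omega)) m 0 (pw p) (Sw (rg (gq c 1)) m) 0 0 (by omega)
      (fun u => by rw [zero_add]) (fun u => by rw [zero_add])
      (fun u hu => absurd hu (Nat.not_lt_zero u)) (inv_zero _) h
    have h4 : ∀ u ≤ t, cds (Wt (rg (gq c 1)) m) (pw p) u ≠ 0 := by
      intro u hu
      rcases Nat.lt_or_ge u t with h5 | h5
      · exact (h1 u h5).1
      · have : u = t := by omega
        rw [this]
        exact h2
    have hS := (Sw_fld (rg_lt8 (gq c 1)) m).1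
    apply hmin
    refine ⟨τ, t, by omega, ?_, ?_⟩
    · intro u hu
      rw [← rg_cds hc hm hτ (by omega) (fun v hv => h4 v (by omega)), (h1 u hu).2,
        hS u (by omega)]
    · rw [← rg_cds hc hm hτ (by omega) h4, ← hS t ht]
      exact h3
  · obtain ⟨t, ht, h1, h2, h3⟩ := lexGo_spec (w := Wt (rg (gq c 1)) m) (q0 := pw p)
      (s0 := Sw (rg (gq c 1)) m) (N := m)
      (fun u _ => by rw [cds_ge (rg_lt8 _) hm hp]; exact Nat.zero_le _)
      m 0 (pw p) (Sw (rg (gq c 1)) m) 0 0 (by omega)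
      (fun u => by rw [zero_add]) (fun u => by rw [zero_add])
      (fun u hu => absurd hu (Nat.not_lt_zero u)) (inv_zero _) h
    exact h2 (cds_ge (rg_lt8 _) hm hp t)

theorem BAD_lt : BAD / 2 ^ (30 * 237) = 0 := by
  decide +kernel

theorem div_zero_of {B a i : ℕ} (h : B / 2 ^ (30 * a) = 0) (hi : a ≤ i) :
    B / 2 ^ (30 * i) = 0 := by
  have h1 : B < 2 ^ (30 * a) := by
    rcases Nat.lt_or_ge B (2 ^ (30 * a)) with h2 | h2
    · exact h2
    · have := Nat.div_pos h2 (by positivity)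
      omega
  exact Nat.div_eq_of_lt (h1.trans_le (Nat.pow_le_pow_right (by norm_num) (by omega)))

theorem chkB_spec {i k : ℕ} {t : Tr} (h : chkB i k t = true) :
    k ≤ 6 ∧ bb 0 0 (wOf 10 0 (Nat.shiftRight BAD (Nat.mul 30 i)) 0) k t idA 0 = true := by
  obtain ⟨h1, h2⟩ := cnd_true h
  exact ⟨Nat.le_of_ble_eq_true h1, h2⟩

theorem tag4 (hbad : ∀ i < 237, ∃ k t, chkB i k t = true) {D : Fin 6 → Fin 6 → ℝ}
    {x : Fin 6 → ℝ} {c : Fin 6 → Fin 6 → Fin 6} (hcol : Col D x c) {m p i : ℕ} (hm : m ≤ 15)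
    (h : eqGo (Wt (rg (gq c 1)) m) 10 (pw p) (Nat.shiftRight BAD (Nat.mul 30 i)) 0 0 = true) :
    False := by
  have hc := hcol.symm
  rcases Nat.lt_or_ge p 720 with hp | hp
  · obtain ⟨τ, hτ⟩ := pw_perm hp
    have h1 := eqGo_spec (w := Wt (rg (gq c 1)) m) (q0 := pw p)
      (s0 := Nat.shiftRight BAD (Nat.mul 30 i)) (N := 10)
      (fun u hu => cds_le6 hc hm hτ u (by omega)) 10 0 (pw p) _ 0 0 rfl
      (fun u => by rw [zero_add]) (fun u => by rw [zero_add])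
      (fun u hu => absurd hu (Nat.not_lt_zero u)) (inv_zero _) h
    have h2 : ∀ t < 10, fld (Nat.shiftRight BAD (Nat.mul 30 i)) t = rg (gq c τ) t := by
      intro t ht
      rw [← (h1 t ht).2]
      exact rg_cds hc hm hτ (by omega) (fun u hu => (h1 u (by omega)).1)
    rcases Nat.lt_or_ge i 237 with hi | hi
    · obtain ⟨k, l, hk⟩ := hbad i hi
      obtain ⟨hk6, hb⟩ := chkB_spec hk
      rw [wOf_zero, Wt_congr h2] at hb
      obtain ⟨φ, hφ⟩ := ext_perm (gq c τ) 10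
      let f : Fin 5 → Fin 6 := fun a => τ ⟨a, by omega⟩
      have hf : Function.Injective f := by
        intro a b hab
        have h3 := τ.injective hab
        apply Fin.ext
        simpa using h3
      have hC : Cf 5 (Wt (rg (gq c τ)) 10) (Xf x φ) := by
        refine cf_of (hcol.geo.comp hf) (by norm_num) (fun t ht => (ei_lt5 ht).2) ?_ hφ
        intro t ht a b ha hb'
        have ht15 : t < 15 := by omega
        have e1 : (⟨a, by omega⟩ : Fin 6) = pI t := Fin.ext (by rw [pI_val ht15]; exact ha)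
        have e2 : (⟨b, by omega⟩ : Fin 6) = pJ t := Fin.ext (by rw [pJ_val ht15]; exact hb')
        show D (τ ⟨a, _⟩) (τ ⟨b, _⟩) = x (gq c τ t)
        rw [e1, e2, hcol.eq _ _ (τ.injective.ne (pIJ_ne ht15))]
        rfl
      obtain ⟨Q, hQ1, hQ2, hQ3⟩ := bb_main hC hk6 (Xf_inj hcol.mono φ) (Xf_fo hcol.pos φ) hb
      obtain ⟨M, _, _, j, hj, _⟩ := hQ3 (fun i => i + 1) (fun i hi => by
        show 1 ≤ i + 1 ∧ i + 1 ≤ 6
        omega) (fun j i hij hj => by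
        show i + 1 < j + 1
        omega)
      exact absurd hj (Nat.not_lt_zero j)
    · have h3 := h2 0 (by norm_num)
      have h4 : Nat.shiftRight BAD (Nat.mul 30 i) = 0 := by
        have h5 : Nat.shiftRight BAD (Nat.mul 30 i) = BAD / 2 ^ (30 * i) := shr _ _
        rw [h5]
        exact div_zero_of BAD_lt hi
      rw [h4] at h3
      have h5 : fld 0 0 = 0 := by
        unfold fld
        rw [Nat.zero_div]
      have h6 := rg_pos (gq c τ) 0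
      omega
  · have h1 := eqGo_spec (w := Wt (rg (gq c 1)) m) (q0 := pw p)
      (s0 := Nat.shiftRight BAD (Nat.mul 30 i)) (N := 10)
      (fun u _ => by rw [cds_ge (rg_lt8 _) hm hp]; exact Nat.zero_le _) 10 0 (pw p) _ 0 0 rfl
      (fun u => by rw [zero_add]) (fun u => by rw [zero_add])
      (fun u hu => absurd hu (Nat.not_lt_zero u)) (inv_zero _) h
    exact (h1 0 (by norm_num)).1 (cds_ge (rg_lt8 _) hm hp 0)

/-- the configuration itself -/
theorem cf6 {D : Fin 6 → Fin 6 → ℝ} {x : Fin 6 → ℝ} {c : Fin 6 → Fin 6 → Fin 6}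
    (hcol : Col D x c) {m : ℕ} (hm : m ≤ 15) {φ : Equiv.Perm (Fin 6)}
    (hφ : ∀ t < 15, ∀ d : Fin 6, (d : ℕ) + 1 = rg (gq c 1) t → φ d = gq c 1 t) :
    Cf 6 (Wt (rg (gq c 1)) m) (Xf x φ) := by
  refine cf_of hcol.geo hm (fun t ht => (ei_lt (show t < 15 by omega)).2) ?_
    (fun t ht => hφ t (by omega))
  intro t ht a b ha hb
  have ht15 : t < 15 := by omega
  have e1 : a = pI t := Fin.ext (by rw [pI_val ht15]; exact ha)
  have e2 : b = pJ t := Fin.ext (by rw [pJ_val ht15]; exact hb)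
  rw [e1, e2, hcol.eq _ _ (pIJ_ne ht15)]
  rfl

/-- the conclusion for the configuration `c` -/
def Concl (RW NR : ℕ) (c : Fin 6 → Fin 6 → Fin 6) : Prop :=
  ∃ j < NR, ∃ τ : Equiv.Perm (Fin 6), ∀ t < 15, went RW j t = (gq c τ t : ℕ) + 1

theorem gen {RW m k : ℕ} {c : Fin 6 → Fin 6 → Fin 6} (hc : ∀ i j, c i j = c j i) (hm : m ≤ 15)
    {Q : ℕ → ℕ} {M j p : ℕ} (hj : ∀ t < 15, went RW j t ≠ 0)
    (hM : ∀ a, (∀ i < k, 1 + Q i ≠ a) → fld M a = 0)
    (hw : ∀ t < 15, fld M (cds (Wt (rg (gq c 1)) m) (pw p) t) = went RW j t) :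
    ∃ τ : Equiv.Perm (Fin 6), ∀ t < 15, ∃ s < m,
      cds (Wt (rg (gq c 1)) m) (pw p) t = rg (gq c 1) s ∧ gq c 1 s = gq c τ t ∧
        ∃ i < k, 1 + Q i = rg (gq c 1) s := by
  have h1 : ∀ t < 15, ∃ i < k, 1 + Q i = cds (Wt (rg (gq c 1)) m) (pw p) t := by
    intro t ht
    by_contra hcon
    push Not at hcon
    have := hM _ hcon
    rw [hw t ht] at this
    exact hj t ht this
  have h2 : ∀ t < 15, cds (Wt (rg (gq c 1)) m) (pw p) t ≠ 0 := by
    intro t ht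
    obtain ⟨i, _, hi⟩ := h1 t ht
    omega
  rcases Nat.lt_or_ge p 720 with hp | hp
  · obtain ⟨τ, hτ⟩ := pw_perm hp
    refine ⟨τ, fun t ht => ?_⟩
    obtain ⟨s, hs, h3, h4⟩ := known_of hc hm hτ ht (h2 t ht)
    obtain ⟨i, hi, h5⟩ := h1 t ht
    exact ⟨s, hs, h3, h4, i, hi, h5.trans h3⟩
  · exact absurd (cds_ge (rg_lt8 _) hm hp 0) (h2 0 (by norm_num))

theorem tag5 {RW NR : ℕ} (hRW : ∀ j < NR, ∀ t < 15, went RW j t ≠ 0) {D : Fin 6 → Fin 6 → ℝ}
    {x : Fin 6 → ℝ} {c : Fin 6 → Fin 6 → Fin 6} (hcol : Col D x c) {m : ℕ} (hm : m ≤ 15) {l : Tr}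
    (h : bb RW NR (Wt (rg (gq c 1)) m) (nd (gq c 1) m) l idA 0 = true) : Concl RW NR c := by
  have hc := hcol.symm
  obtain ⟨φ, hφ⟩ := ext_perm (gq c 1) 15
  obtain ⟨Q, hQ1, hQ2, hQ3⟩ := bb_main (cf6 hcol hm hφ) (nd_le6' _ _) (Xf_inj hcol.mono φ)
    (Xf_fo hcol.pos φ) h
  set k := nd (gq c 1) m with hk
  have hk6 : k ≤ 6 := nd_le6' _ _
  have hQlt : ∀ i < k, Q i < k := by
    obtain ⟨M, _, hM2, j, hj, π, hπ, hw⟩ := hQ3 (fun i => i + 1) (fun i hi => by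
        show 1 ≤ i + 1 ∧ i + 1 ≤ 6
        omega) (fun j i hij hj => by
        show i + 1 < j + 1
        omega)
    obtain ⟨τ, hτ⟩ := gen hc hm (hRW j hj) hM2 hw
    have hsurj : ∀ v < k, ∃ i < k, Q i = v := by
      intro v hv
      obtain ⟨s, hs, h1⟩ := exists_rg (gq c 1) m (v + 1) (by omega) (by omega)
      have hs15 : s < 15 := by omega
      have hab : τ.symm (pI s) ≠ τ.symm (pJ s) := τ.symm.injective.ne (pIJ_ne hs15)
      obtain ⟨t, ht, h2⟩ := pr_ex (τ.symm (pI s)).2 (τ.symm (pJ s)).2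
        (fun h3 => hab (Fin.ext h3))
      obtain ⟨s', hs', h3, h4, i, hi, h5⟩ := hτ t ht
      have h6 : gq c τ t = gq c 1 s := by
        show c (τ (pI t)) (τ (pJ t)) = c (pI s) (pJ s)
        rcases h2 with ⟨h7, h8⟩ | ⟨h7, h8⟩
        · have e1 : pI t = τ.symm (pI s) := Fin.ext (by rw [pI_val ht, h7])
          have e2 : pJ t = τ.symm (pJ s) := Fin.ext (by rw [pJ_val ht, h8])
          rw [e1, e2, Equiv.apply_symm_apply, Equiv.apply_symm_apply]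
        · have e1 : pI t = τ.symm (pJ s) := Fin.ext (by rw [pI_val ht, h7])
          have e2 : pJ t = τ.symm (pI s) := Fin.ext (by rw [pJ_val ht, h8])
          rw [e1, e2, Equiv.apply_symm_apply, Equiv.apply_symm_apply, hc]
      have h7 : rg (gq c 1) s' = rg (gq c 1) s := rg_congr' (h4.trans h6)
      exact ⟨i, hi, by omega⟩
    have hsub : Finset.range k ⊆ (Finset.range k).image Q := by
      intro v hv
      rw [Finset.mem_image]
      obtain ⟨i, hi, h1⟩ := hsurj v (Finset.mem_range.mp hv)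
      exact ⟨i, Finset.mem_range.mpr hi, h1⟩
    have heq : Finset.range k = (Finset.range k).image Q :=
      Finset.eq_of_subset_of_card_le hsub Finset.card_image_le
    intro i hi
    rw [← Finset.mem_range, heq]
    exact Finset.mem_image_of_mem Q (Finset.mem_range.mpr hi)
  have hQ6 : ∀ i < k, Q i < 6 := fun i hi => lt_of_lt_of_le (hQlt i hi) hk6
  let e : ℕ → ℕ := fun i => (φ ⟨Q i % 6, Nat.mod_lt _ (by norm_num)⟩ : ℕ) + 1
  have he : ∀ i (hi : i < k), e i = (φ ⟨Q i, hQ6 i hi⟩ : ℕ) + 1 := by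
    intro i hi
    show (φ ⟨Q i % 6, _⟩ : ℕ) + 1 = (φ ⟨Q i, _⟩ : ℕ) + 1
    congr 3
    apply Fin.ext
    exact Nat.mod_eq_of_lt (hQ6 i hi)
  obtain ⟨M, hM1, hM2, j, hj, π, hπ, hw⟩ := hQ3 e (fun i hi => by
      have : (φ ⟨Q i % 6, Nat.mod_lt _ (by norm_num)⟩ : ℕ) < 6 := Fin.is_lt _
      show 1 ≤ (φ ⟨Q i % 6, _⟩ : ℕ) + 1 ∧ (φ ⟨Q i % 6, _⟩ : ℕ) + 1 ≤ 6
      omega) (fun j i hij hj => by
      have hi : i < k := by omega
      rw [he j hj, he i hi]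
      have h1 := hQ2 j i hij hj (hQ6 i hi) (hQ6 j hj)
      rw [Xf_succ x φ (hQ6 i hi), Xf_succ x φ (hQ6 j hj), hcol.mono.lt_iff_lt, Fin.lt_def] at h1
      omega)
  obtain ⟨τ, hτ⟩ := gen hc hm (hRW j hj) hM2 hw
  refine ⟨j, hj, τ, fun t ht => ?_⟩
  obtain ⟨s, hs, h1, h2, i, hi, h3⟩ := hτ t ht
  have h4 : went RW j t = fld M (cds (Wt (rg (gq c 1)) m) (pw π) t) := (hw t ht).symm
  rw [h4, h1, ← h3, hM1 i hi, he i hi, ← h2]
  congr 2
  exact hφ s (by omega) _ (by rw [← h3]; exact add_comm _ _)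

end Pool.Agent.Lib.EPS9
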