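import Pool.Agent.Lib.MP_c7e7f6_eps.TreePos

/-!
The forbidden equalities of `Core2`: stars, bisectors and tetrahedra with equal opposite edges.
-/

set_option autoImplicit false
set_option linter.unusedVariables false

namespace Pool.Agent.Lib.EPS9

theorem eq1_spec {w e : ℕ} (h : eq1 w e = true) :
    code w (fld9 e 0) ≠ 0 ∧ code w (fld9 e 0) = code w (fld9 e 1) := by
  have h' : isZ (at9 w e) false (Nat.beq (at9 w e) (at9 w (Nat.shiftRight e 9))) = true := h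
  obtain ⟨h1, h2⟩ := isZ_true h'
  have h3 := Nat.eq_of_beq_eq_true h2
  rw [at9_eq] at h1
  rw [at9_eq, at9_eq, fld9_shr] at h3
  exact ⟨h1, h3⟩

theorem fld9_shr' (q k t : ℕ) : fld9 (Nat.shiftRight q (9 * k)) t = fld9 q (k + t) := by
  unfold fld9
  rw [shr, pow_mul, show (2 : ℕ) ^ 9 = 512 by norm_num, Nat.div_div_eq_div_mul, ← pow_add]

theorem eq3_spec {w e : ℕ} (h : eq3 w e = true) :
    (code w (fld9 e 0) ≠ 0 ∧ code w (fld9 e 0) = code w (fld9 e 1)) ∧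
    (code w (fld9 e 2) ≠ 0 ∧ code w (fld9 e 2) = code w (fld9 e 3)) ∧
    (code w (fld9 e 4) ≠ 0 ∧ code w (fld9 e 4) = code w (fld9 e 5)) := by
  obtain ⟨h1, h⟩ := cnd_true h
  obtain ⟨h2, h3⟩ := cnd_true h
  have h2' := eq1_spec h2
  have h3' := eq1_spec h3
  rw [show (18 : ℕ) = 9 * 2 by norm_num, fld9_shr', fld9_shr'] at h2'
  rw [show (36 : ℕ) = 9 * 4 by norm_num, fld9_shr', fld9_shr'] at h3'
  exact ⟨eq1_spec h1, h2', h3'⟩

/-- first point -/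
def eA (e l : ℕ) : ℕ := fld9 e l / 48

/-- second point -/
def eB (e l : ℕ) : ℕ := fld9 e l / 3 % 16

/-- three equal distances from a point -/
def isStar (e : ℕ) : Prop := eA e 1 = eA e 0 ∧ eA e 2 = eA e 0 ∧ eA e 3 = eA e 0 ∧
  eA e 4 = eA e 0 ∧ eA e 5 = eA e 0 ∧ eB e 2 = eB e 0 ∧ eB e 4 = eB e 0 ∧
  eB e 0 ≠ eB e 1 ∧ eB e 0 ≠ eB e 3 ∧ eB e 0 ≠ eB e 5 ∧ eB e 1 ≠ eB e 3 ∧ eB e 1 ≠ eB e 5 ∧
  eB e 3 ≠ eB e 5

/-- three points on a bisector -/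
def isBis (e : ℕ) : Prop := eA e 2 = eA e 0 ∧ eA e 4 = eA e 0 ∧ eA e 3 = eA e 1 ∧
  eA e 5 = eA e 1 ∧ eB e 1 = eB e 0 ∧ eB e 3 = eB e 2 ∧ eB e 5 = eB e 4 ∧ eA e 0 ≠ eA e 1 ∧
  eB e 0 ≠ eB e 2 ∧ eB e 0 ≠ eB e 4 ∧ eB e 2 ≠ eB e 4

/-- opposite edges are equal -/
def isTet (e : ℕ) : Prop := eA e 2 = eA e 0 ∧ eA e 4 = eA e 0 ∧ eB e 2 = eA e 1 ∧
  eB e 4 = eB e 1 ∧ eA e 3 = eB e 0 ∧ eB e 3 = eB e 1 ∧ eA e 5 = eB e 0 ∧ eB e 5 = eA e 1 ∧
  eA e 0 ≠ eB e 0 ∧ eA e 0 ≠ eA e 1 ∧ eA e 0 ≠ eB e 1 ∧ eB e 0 ≠ eA e 1 ∧ eB e 0 ≠ eB e 1 ∧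
  eA e 1 ≠ eB e 1

instance (e : ℕ) : Decidable (isStar e) := by unfold isStar; infer_instance
instance (e : ℕ) : Decidable (isBis e) := by unfold isBis; infer_instance
instance (e : ℕ) : Decidable (isTet e) := by unfold isTet; infer_instance

/-- check of a triple of equalities -/
def okE (e : ℕ) : Bool :=
  ((List.range 6).all fun l => decide (fld9 e l = 3 * (16 * eA e l + eB e l) ∧ eA e l < 6)) &&
  decide (isStar e ∨ isBis e ∨ isTet e)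

theorem okE_all : ((List.range 105).all fun i => okE (EQT / 2 ^ (54 * i))) = true := by
  decide +kernel

theorem EQT_lt : EQT / 2 ^ (54 * 105) = 0 := by
  decide +kernel

theorem eq3_false {w : ℕ} {X : ℕ → ℝ} (hC : Cf 6 w X) (i : ℕ)
    (h : eq3 w (Nat.shiftRight EQT (Nat.mul 54 i)) = true) : False := by
  obtain ⟨D, hG, hD⟩ := hC
  have h0 : Nat.shiftRight EQT (Nat.mul 54 i) = EQT / 2 ^ (54 * i) := shr _ _
  rw [h0] at h
  obtain ⟨⟨z0, e0⟩, ⟨z1, e1⟩, ⟨z2, e2⟩⟩ := eq3_spec h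
  rcases Nat.lt_or_ge i 105 with hi | hi
  · have hc := okE_all
    rw [List.all_eq_true] at hc
    have hc1 := hc i (List.mem_range.mpr hi)
    set e := EQT / 2 ^ (54 * i) with he
    clear_value e
    unfold okE at hc1
    rw [Bool.and_eq_true, List.all_eq_true, decide_eq_true_eq] at hc1
    obtain ⟨hp, hs⟩ := hc1
    have hp' : ∀ l < 6, fld9 e l = 3 * (16 * eA e l + eB e l) ∧ eA e l < 6 := by
      intro l hl
      have := hp l (List.mem_range.mpr hl)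
      rwa [decide_eq_true_eq] at this
    have hcode : ∀ l < 6, code w (fld9 e l) ≠ 0 → ∃ (ha : eA e l < 6) (hb : eB e l < 6),
        D ⟨eA e l, ha⟩ ⟨eB e l, hb⟩ = X (code w (fld9 e l)) := by
      intro l hl hne
      obtain ⟨h1, h2⟩ := hp' l hl
      rw [h1, code_eq] at hne ⊢
      obtain ⟨_, h3, h4, _, h5⟩ := hD (eA e l) (eB e l) (by omega)
        (Nat.mod_lt _ (by norm_num)) hne
      exact ⟨h3, h4, h5⟩
    obtain ⟨a0, b0, d0⟩ := hcode 0 (by norm_num) z0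
    obtain ⟨a1, b1, d1⟩ := hcode 1 (by norm_num) (e0 ▸ z0)
    obtain ⟨a2, b2, d2⟩ := hcode 2 (by norm_num) z1
    obtain ⟨a3, b3, d3⟩ := hcode 3 (by norm_num) (e1 ▸ z1)
    obtain ⟨a4, b4, d4⟩ := hcode 4 (by norm_num) z2
    obtain ⟨a5, b5, d5⟩ := hcode 5 (by norm_num) (e2 ▸ z2)
    have E0 : D ⟨eA e 0, a0⟩ ⟨eB e 0, b0⟩ = D ⟨eA e 1, a1⟩ ⟨eB e 1, b1⟩ := by rw [d0, d1, e0]
    have E1 : D ⟨eA e 2, a2⟩ ⟨eB e 2, b2⟩ = D ⟨eA e 3, a3⟩ ⟨eB e 3, b3⟩ := by rw [d2, d3, e1]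
    have E2 : D ⟨eA e 4, a4⟩ ⟨eB e 4, b4⟩ = D ⟨eA e 5, a5⟩ ⟨eB e 5, b5⟩ := by rw [d4, d5, e2]
    clear d0 d1 d2 d3 d4 d5 hcode hp' hp
    have fne : ∀ {a b : ℕ} (ha : a < 6) (hb : b < 6), a ≠ b → (⟨a, ha⟩ : Fin 6) ≠ ⟨b, hb⟩ := by
      intro a b ha hb hab h'
      exact hab (by simpa using h')
    rcases hs with hs | hs | hs
    · obtain ⟨s1, s2, s3, s4, s5, s6, s7, n1, n2, n3, n4, n5, n6⟩ := hs
      refine hG.star ⟨eA e 0, a0⟩ ⟨eB e 0, b0⟩ ⟨eB e 1, b1⟩ ⟨eB e 3, b3⟩ ⟨eB e 5, b5⟩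
        (fne _ _ n1) (fne _ _ n2) (fne _ _ n3) (fne _ _ n4) (fne _ _ n5) (fne _ _ n6) ⟨?_, ?_, ?_⟩
      · rw [E0]
        simp only [s1]
      · have : D ⟨eA e 0, a0⟩ ⟨eB e 0, b0⟩ = D ⟨eA e 2, a2⟩ ⟨eB e 2, b2⟩ := by
          simp only [s2, s6]
        rw [this, E1]
        simp only [s3]
      · have : D ⟨eA e 0, a0⟩ ⟨eB e 0, b0⟩ = D ⟨eA e 4, a4⟩ ⟨eB e 4, b4⟩ := by
          simp only [s4, s7]
        rw [this, E2]
        simp only [s5]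
    · obtain ⟨s1, s2, s3, s4, s5, s6, s7, n1, n2, n3, n4⟩ := hs
      refine hG.bis ⟨eA e 0, a0⟩ ⟨eA e 1, a1⟩ ⟨eB e 0, b0⟩ ⟨eB e 2, b2⟩ ⟨eB e 4, b4⟩
        (fne _ _ n1) (fne _ _ n2) (fne _ _ n3) (fne _ _ n4) ⟨?_, ?_, ?_⟩
      · rw [E0]
        simp only [s5]
      · have : D ⟨eA e 0, a0⟩ ⟨eB e 2, b2⟩ = D ⟨eA e 2, a2⟩ ⟨eB e 2, b2⟩ := by
          simp only [s1]
        rw [this, E1]
        simp only [s3, s6]
      · have : D ⟨eA e 0, a0⟩ ⟨eB e 4, b4⟩ = D ⟨eA e 4, a4⟩ ⟨eB e 4, b4⟩ := by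
          simp only [s2]
        rw [this, E2]
        simp only [s4, s7]
    · obtain ⟨s1, s2, s3, s4, s5, s6, s7, s8, n1, n2, n3, n4, n5, n6⟩ := hs
      set A : Fin 6 := ⟨eA e 0, a0⟩ with hA
      set B : Fin 6 := ⟨eB e 0, b0⟩ with hB
      set C : Fin 6 := ⟨eA e 1, a1⟩ with hC
      set E : Fin 6 := ⟨eB e 1, b1⟩ with hE
      have F1 : D A C = D B E := by
        have t1 : D A C = D ⟨eA e 2, a2⟩ ⟨eB e 2, b2⟩ := by
          simp only [hA, hC, s1, s3]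
        have t2 : D B E = D ⟨eA e 3, a3⟩ ⟨eB e 3, b3⟩ := by
          simp only [hB, hE, s5, s6]
        rw [t1, t2, E1]
      have F2 : D A E = D B C := by
        have t1 : D A E = D ⟨eA e 4, a4⟩ ⟨eB e 4, b4⟩ := by
          simp only [hA, hE, s2, s4]
        have t2 : D B C = D ⟨eA e 5, a5⟩ ⟨eB e 5, b5⟩ := by
          simp only [hB, hC, s7, s8]
        rw [t1, t2, E2]
      have m1 : A ≠ B := fne _ _ n1
      have m2 : A ≠ C := fne _ _ n2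
      have m3 : A ≠ E := fne _ _ n3
      have m4 : B ≠ C := fne _ _ n4
      have m5 : B ≠ E := fne _ _ n5
      have m6 : C ≠ E := fne _ _ n6
      have p1 := hG.para A B C E m1 m2 m3 m4 m5 m6 F1 F2
      have p2 := hG.para A C B E m2 m1 m3 m4.symm m6 m5 E0 (by rw [hG.symm C B]; exact F2)
      have p3 := hG.pos A E m3
      rw [hG.symm B E] at F1
      have q1 : D C E = D A B := E0.symm
      have q2 : D B E = D A C := by rw [hG.symm B E]; exact F1.symm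
      rw [q1] at p1
      rw [q2] at p2
      linarith
  · have h1 : EQT / 2 ^ (54 * i) = 0 := by
      have h2 : EQT / 2 ^ (54 * i) = EQT / 2 ^ (54 * 105) / 2 ^ (54 * (i - 105)) := by
        rw [Nat.div_div_eq_div_mul, ← pow_add]
        congr 2
        omega
      rw [h2, EQT_lt, Nat.zero_div]
    rw [h1, fld9_zero] at z0
    have h3 : code w 0 = cl w 0 0 := by
      have := code_eq w 0 0
      simpa using this
    rw [h3] at z0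
    obtain ⟨_, _, _, h4, _⟩ := hD 0 0 (by norm_num) (by norm_num) z0
    exact h4 rfl

end Pool.Agent.Lib.EPS9
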