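import Pool.Agent.Lib.MP_c7e7f6_eps.TreeEqt

/-!
The comparisons `lexGo` and `eqGo` of `Core2`.
-/

set_option autoImplicit false
set_option linter.unusedVariables false

namespace Pool.Agent.Lib.EPS9

/-- state of the renaming before the entry number `t` -/
def Inv (A : ℕ → ℕ) (t M k : ℕ) : Prop :=
  k = nd A t ∧ (∀ s < t, fld M (A s) = rg A s) ∧ (∀ v, (∀ s < t, A s ≠ v) → fld M v = 0)

theorem inv_zero (A : ℕ → ℕ) : Inv A 0 0 0 := by
  refine ⟨(nd_zero A).symm, fun s hs => absurd hs (Nat.not_lt_zero s), fun v _ => ?_⟩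
  unfold fld
  rw [Nat.zero_div]

theorem isZn_pos {n a b : ℕ} (h : n ≠ 0) : isZn n a b = b := by
  cases n with
  | zero => exact absurd rfl h
  | succ n => rfl

theorem isZn_zero (a b : ℕ) : isZn 0 a b = a := rfl

theorem nd_le6 {A : ℕ → ℕ} {t : ℕ} (h : ∀ u < t, A u ≠ 0 ∧ A u ≤ 6) : nd A t ≤ 6 := by
  have h1 : nd A t ≤ (Finset.Icc 1 6).card := by
    unfold nd
    refine Finset.card_le_card_of_injOn A ?_ ?_
    · intro s hs
      rw [Finset.mem_coe, Finset.mem_filter, Finset.mem_range] at hs
      have := h s hs.1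
      rw [Finset.mem_coe, Finset.mem_Icc]
      omega
    · intro s hs t ht hst
      rw [Finset.mem_coe, Finset.mem_filter] at hs ht
      rcases lt_trichotomy s t with h | h | h
      · exact absurd hst (ht.2 s h)
      · exact h
      · exact absurd hst.symm (hs.2 t h)
  simpa using h1

theorem inv_step {A : ℕ → ℕ} {t M k : ℕ} (h : Inv A t M k) (hk : k ≤ 6) :
    ren M (A t) k = rg A t ∧ Inv A (t + 1) (renM M (A t) k) (renK M (A t) k) := by
  obtain ⟨h1, h2, h3⟩ := h
  rcases new_or_old A t with hn | ho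
  · have e0 : rv M (A t) = 0 := by
      rw [rv_eq]
      exact h3 _ hn
    have e1 : ren M (A t) k = k + 1 := by
      unfold ren
      rw [e0]
      rfl
    have e2 : renM M (A t) k = M + (k + 1) * 8 ^ A t := by
      unfold renM
      rw [e0, isZn_zero, shl, Nat.mul_eq, Nat.add_eq, Nat.add_eq, pow_mul]
      norm_num
    have e3 : renK M (A t) k = k + 1 := by
      unfold renK
      rw [e0]
      rfl
    have e4 := rg_new hn
    have hM := fld_add (v := k + 1) (h3 _ hn) (by omega)
    rw [e1, e2, e3]
    refine ⟨by omega, ?_, ?_, ?_⟩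
    · rw [nd_succ_new hn]
      omega
    · intro s hs
      rw [hM]
      rcases Nat.lt_or_ge s t with h5 | h5
      · rw [if_neg (hn s h5)]
        exact h2 s h5
      · have : s = t := by omega
        rw [this, if_pos rfl]
        omega
    · intro v hv
      rw [hM, if_neg (hv t (Nat.lt_succ_self t)).symm]
      exact h3 v fun s hs => hv s (by omega)
  · obtain ⟨s, hs, hst⟩ := ho
    have e : rv M (A t) = rg A t := by
      rw [rv_eq, ← hst, h2 s hs]
      exact rg_congr' hst
    have e0 : rv M (A t) ≠ 0 := by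
      rw [e]
      have := rg_pos A t
      omega
    have e1 : ren M (A t) k = rg A t := by
      unfold ren
      rw [isZn_pos e0, e]
    have e2 : renM M (A t) k = M := by
      unfold renM
      rw [isZn_pos e0]
    have e3 : renK M (A t) k = k := by
      unfold renK
      rw [isZn_pos e0]
    rw [e1, e2, e3]
    refine ⟨rfl, ?_, ?_, ?_⟩
    · rw [nd_succ_old ⟨s, hs, hst⟩, h1]
    · intro u hu
      rcases Nat.lt_or_ge u t with h5 | h5
      · exact h2 u h5
      · have : u = t := by omega
        rw [this, ← rv_eq, e]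
    · intro v hv
      exact h3 v fun s hs => hv s (by omega)

/-- codes of the permuted pairs -/
def cds (w q : ℕ) (t : ℕ) : ℕ := code w (fld9 q t)

theorem lexGo_spec {w q0 s0 N : ℕ} (hA : ∀ u < N, cds w q0 u ≤ 6) (fuel : ℕ) :
    ∀ t q s M k, t + fuel ≤ N → (∀ u, fld9 q u = fld9 q0 (t + u)) →
      (∀ u, fld s u = fld s0 (t + u)) →
      (∀ u < t, cds w q0 u ≠ 0 ∧ rg (cds w q0) u = fld s0 u) → Inv (cds w q0) t M k →
      lexGo w fuel q s M k = true →
      ∃ t' < N, (∀ u < t', cds w q0 u ≠ 0 ∧ rg (cds w q0) u = fld s0 u) ∧ cds w q0 t' ≠ 0 ∧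
        rg (cds w q0) t' < fld s0 t' := by
  induction fuel with
  | zero =>
    intro t q s M k _ _ _ _ _ h
    exact absurd (show false = true from h) Bool.false_ne_true
  | succ n ih =>
    intro t q s M k hN hq hs hlt hI h
    have e0 : at9 w q = cds w q0 t := by
      rw [at9_eq, hq 0, add_zero]
      rfl
    have es : Nat.land s 7 = fld s0 t := by
      rw [← fld_zero, hs 0, add_zero]
    have h' : isZ (at9 w q) false (brn (Nat.ble (Nat.land s 7) (ren M (at9 w q) k))
          (brn (Nat.beq (ren M (at9 w q) k) (Nat.land s 7))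
            (lexGo w n (Nat.shiftRight q 9) (Nat.shiftRight s 3) (renM M (at9 w q) k)
              (renK M (at9 w q) k)) false)
          true) = true := h
    rw [e0, es] at h'
    obtain ⟨h1, h2⟩ := isZ_true h'
    have hk : k ≤ 6 := by
      rw [hI.1]
      exact nd_le6 fun u hu => ⟨(hlt u hu).1, hA u (by omega)⟩
    obtain ⟨g1, g2⟩ := inv_step hI hk
    rcases brn_true h2 with ⟨_, h3⟩ | ⟨h3, _⟩
    · rcases brn_true h3 with ⟨h4, h5⟩ | ⟨_, h4⟩
      · have h6 := Nat.eq_of_beq_eq_true h4
        refine ih (t + 1) _ _ _ _ (by omega) ?_ ?_ ?_ g2 h5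
        · intro u
          rw [fld9_shr, hq]
          congr 1
          omega
        · intro u
          rw [fld_shr3, hs]
          congr 1
          omega
        · intro u hu
          rcases Nat.lt_or_ge u t with h7 | h7
          · exact hlt u h7
          · have : u = t := by omega
            rw [this]
            exact ⟨h1, by rw [← g1, h6]⟩
      · exact absurd h4 Bool.false_ne_true
    · refine ⟨t, by omega, hlt, h1, ?_⟩
      rw [← g1]
      by_contra h4
      rw [Nat.ble_eq_true_of_le (not_lt.mp h4)] at h3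
      exact Bool.false_ne_true h3.symm

theorem eqGo_spec {w q0 s0 N : ℕ} (hA : ∀ u < N, cds w q0 u ≤ 6) (fuel : ℕ) :
    ∀ t q s M k, t + fuel = N → (∀ u, fld9 q u = fld9 q0 (t + u)) →
      (∀ u, fld s u = fld s0 (t + u)) →
      (∀ u < t, cds w q0 u ≠ 0 ∧ rg (cds w q0) u = fld s0 u) → Inv (cds w q0) t M k →
      eqGo w fuel q s M k = true →
      (∀ u < N, cds w q0 u ≠ 0 ∧ rg (cds w q0) u = fld s0 u) := by
  induction fuel with
  | zero =>
    intro t q s M k hN _ _ hlt _ _
    rw [← hN]
    exact hlt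
  | succ n ih =>
    intro t q s M k hN hq hs hlt hI h
    have e0 : at9 w q = cds w q0 t := by
      rw [at9_eq, hq 0, add_zero]
      rfl
    have es : Nat.land s 7 = fld s0 t := by
      rw [← fld_zero, hs 0, add_zero]
    have h' : isZ (at9 w q) false (cnd (Nat.beq (ren M (at9 w q) k) (Nat.land s 7))
            (eqGo w n (Nat.shiftRight q 9) (Nat.shiftRight s 3) (renM M (at9 w q) k)
              (renK M (at9 w q) k))) = true := h
    rw [e0, es] at h'
    obtain ⟨h1, h2⟩ := isZ_true h'
    have hk : k ≤ 6 := by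
      rw [hI.1]
      exact nd_le6 fun u hu => ⟨(hlt u hu).1, hA u (by omega)⟩
    obtain ⟨g1, g2⟩ := inv_step hI hk
    obtain ⟨h4, h5⟩ := cnd_true h2
    have h6 := Nat.eq_of_beq_eq_true h4
    refine ih (t + 1) _ _ _ _ (by omega) ?_ ?_ ?_ g2 h5
    · intro u
      rw [fld9_shr, hq]
      congr 1
      omega
    · intro u
      rw [fld_shr3, hs]
      congr 1
      omega
    · intro u hu
      rcases Nat.lt_or_ge u t with h7 | h7
      · exact hlt u h7
      · have : u = t := by omega
        rw [this]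
        exact ⟨h1, by rw [← g1, h6]⟩

end Pool.Agent.Lib.EPS9
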