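import Pool.Agent.Lib.MP_c7e7f6_eps.TreeBB

/-!
Soundness of the survivors of the tree of comparisons of `Core2`.
-/

set_option autoImplicit false
set_option linter.unusedVariables false

namespace Pool.Agent.Lib.EPS9

/-- digit number `t` of `q` to the base `512` -/
def fld9 (q t : ℕ) : ℕ := q / 512 ^ t % 512

/-- code at the bit position `P` -/
def code (w P : ℕ) : ℕ := w / 2 ^ P % 8

theorem at9_eq (w q : ℕ) : at9 w q = code w (fld9 q 0) := by
  have h : at9 w q = Nat.land (Nat.shiftRight w (q &&& (2 ^ 9 - 1))) 7 := rfl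
  rw [h, land7, shr, Nat.and_two_pow_sub_one_eq_mod]
  unfold code fld9
  rw [pow_zero, Nat.div_one]

theorem fld9_shr (q t : ℕ) : fld9 (Nat.shiftRight q 9) t = fld9 q (t + 1) := by
  unfold fld9
  rw [shr, show (2 : ℕ) ^ 9 = 512 by norm_num, Nat.div_div_eq_div_mul, ← pow_succ']

theorem rv_eq (M a : ℕ) : rv M a = fld M a := fld_eq M a

theorem went_eq (RW j t : ℕ) : (RW >>> (45 * j + 3 * t)) &&& 7 = fld RW (15 * j + t) := by
  rw [← fld_eq]
  show (RW >>> (45 * j + 3 * t)) &&& 7 = (RW >>> (3 * (15 * j + t))) &&& 7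
  congr 2
  ring

theorem wGo_spec {w M : ℕ} (fuel : ℕ) : ∀ {q v : ℕ}, wGo w M fuel q v = true → ∀ t < fuel,
    fld M (code w (fld9 q t)) = fld v t := by
  induction fuel with
  | zero =>
    intro q v _ t ht
    omega
  | succ n ih =>
    intro q v h t ht
    obtain ⟨h1, h2⟩ := cnd_true h
    rcases t with _ | t
    · rw [← at9_eq, ← rv_eq, fld_zero]
      exact Nat.eq_of_beq_eq_true h1
    · have := ih h2 t (by omega)
      rwa [fld9_shr, fld_shr3] at this

theorem mpe_spec (k : ℕ) : ∀ (q e M : ℕ), (∀ j i, i < j → j < k → fld q i ≠ fld q j) →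
    (∀ i < k, fld M (1 + fld q i) = 0) →
    (∀ i < k, fld (mpe k q e M) (1 + fld q i) = fld e i) ∧
      (∀ a, (∀ i < k, 1 + fld q i ≠ a) → fld (mpe k q e M) a = fld M a) := by
  induction k with
  | zero =>
    intro q e M _ _
    exact ⟨fun i hi => absurd hi (Nat.not_lt_zero i), fun a _ => rfl⟩
  | succ k ih =>
    intro q e M hd hM
    have e1 : mpe (k + 1) q e M = mpe k (Nat.shiftRight q 3) (Nat.shiftRight e 3)
        (M + fld e 0 * 8 ^ (1 + fld q 0)) := by
      have h : mpe (k + 1) q e M = mpe k (Nat.shiftRight q 3) (Nat.shiftRight e 3)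
        (Nat.add M (Nat.shiftLeft (Nat.land e 7) (Nat.mul 3 (Nat.add 1 (Nat.land q 7))))) := rfl
      rw [h, shl, ← fld_zero, ← fld_zero, Nat.mul_eq, Nat.add_eq, pow_mul]
      rfl
    have hM0 := hM 0 (by omega)
    have hadd := fld_add hM0 (fld_lt e 0)
    obtain ⟨h1, h2⟩ := ih (Nat.shiftRight q 3) (Nat.shiftRight e 3)
      (M + fld e 0 * 8 ^ (1 + fld q 0)) (fun j i hij hj => by
        rw [fld_shr3, fld_shr3]
        exact hd _ _ (by omega) (by omega)) (fun i hi => by
        rw [fld_shr3, hadd, if_neg]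
        · exact hM _ (by omega)
        · have := hd (i + 1) 0 (by omega) (by omega)
          omega)
    rw [e1]
    constructor
    · intro i hi
      rcases i with _ | i
      · rw [h2, hadd, if_pos rfl]
        intro i hi'
        rw [fld_shr3]
        have := hd (i + 1) 0 (by omega) (by omega)
        omega
      · have := h1 i (by omega)
        rwa [fld_shr3, fld_shr3] at this
    · intro a ha
      rw [h2, hadd, if_neg]
      · exact (ha 0 (by omega)).symm
      · intro i hi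
        rw [fld_shr3]
        exact ha (i + 1) (by omega)

theorem srvL_spec {RW NR w k q : ℕ} (l : Tr) : ∀ {E : ℕ}, srvL RW NR w k q l E = true →
    ∀ i, E / 2 ^ (19 * i) ≠ 0 → ∃ p, Nat.shiftRight p 10 + 1 ≤ NR ∧
      wGo w (mpe k q (E / 2 ^ (19 * i)) 0) 15 (pw (Nat.land p 1023))
        (Nat.land (Nat.shiftRight RW (Nat.mul 45 (Nat.shiftRight p 10))) (msk 45)) = true := by
  induction l with
  | z =>
    intro E h i hi
    have h0 : E = 0 := Nat.eq_of_beq_eq_true h
    rw [h0, Nat.zero_div] at hi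
    exact absurd rfl hi
  | n p l r ihl ihr =>
    intro E h i hi
    obtain ⟨h0, h⟩ := isZ_true h
    obtain ⟨h1, h⟩ := cnd_true h
    obtain ⟨h2, h3⟩ := cnd_true h
    rcases i with _ | i
    · refine ⟨p, Nat.le_of_ble_eq_true h1, ?_⟩
      rw [mul_zero, pow_zero, Nat.div_one]
      exact h2
    · have e1 : Nat.shiftRight E 19 / 2 ^ (19 * i) = E / 2 ^ (19 * (i + 1)) := by
        rw [shr, Nat.div_div_eq_div_mul, ← pow_add]
        congr 2
        ring
      have := ihr h3 i (by rw [e1]; exact hi)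
      rwa [e1] at this

/-- the increasing maps -/
def incs : ℕ → ℕ → List ℕ
  | 0, _ => [0]
  | k + 1, a => (List.range 7).flatMap fun v =>
      if a < v then (incs k v).map (fun e => v + 8 * e) else []

theorem mem_incs (k : ℕ) : ∀ (a : ℕ) (e : ℕ → ℕ), (∀ i < k, a < e i ∧ e i ≤ 6) →
    (∀ j i, i < j → j < k → e i < e j) → ∃ E ∈ incs k a, ∀ i < k, fld E i = e i := by
  induction k with
  | zero =>
    intro a e _ _
    exact ⟨0, List.mem_singleton.mpr rfl, fun i hi => absurd hi (Nat.not_lt_zero i)⟩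
  | succ k ih =>
    intro a e h1 h2
    obtain ⟨E, hE, hE2⟩ := ih (e 0) (fun i => e (i + 1))
      (fun i hi => ⟨h2 _ _ (by omega) (by omega), (h1 _ (by omega)).2⟩)
      (fun j i hij hj => h2 _ _ (by omega) (by omega))
    obtain ⟨h3, h4⟩ := h1 0 (by omega)
    refine ⟨e 0 + 8 * E, ?_, ?_⟩
    · unfold incs
      rw [List.mem_flatMap]
      refine ⟨e 0, List.mem_range.mpr (by omega), ?_⟩
      rw [if_pos h3, List.mem_map]
      exact ⟨E, hE, rfl⟩
    · intro i hi
      rcases i with _ | i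
      · rw [fld_zero, land7]
        omega
      · have := fld_hi (lo := e 0) (a := 1) (by omega) E i
        rw [pow_one, add_comm 1 i] at this
        rw [this]
        exact hE2 i (by omega)

/-- the check of the list of the increasing maps -/
theorem emb_check : ((List.range 7).all fun k => (incs k 0).all fun E => (List.range 20).any fun i =>
    (! Nat.beq (embL k / 2 ^ (19 * i)) 0) && Nat.beq (embL k / 2 ^ (19 * i) % 8 ^ k) E) = true := by
  decide +kernel

theorem emb_spec {k : ℕ} (hk : k ≤ 6) (e : ℕ → ℕ) (h1 : ∀ i < k, 1 ≤ e i ∧ e i ≤ 6)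
    (h2 : ∀ j i, i < j → j < k → e i < e j) : ∃ i, embL k / 2 ^ (19 * i) ≠ 0 ∧
      ∀ j < k, fld (embL k / 2 ^ (19 * i)) j = e j := by
  obtain ⟨E, hE, hE2⟩ := mem_incs k 0 e h1 h2
  have h := emb_check
  rw [List.all_eq_true] at h
  have h3 := h k (List.mem_range.mpr (by omega))
  rw [List.all_eq_true] at h3
  have h4 := h3 E hE
  rw [List.any_eq_true] at h4
  obtain ⟨i, _, h5⟩ := h4
  rw [Bool.and_eq_true] at h5
  refine ⟨i, ?_, ?_⟩
  · intro h0
    rw [h0] at h5
    simp at h5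
  · intro j hj
    rw [← hE2 j hj, ← Nat.eq_of_beq_eq_true h5.2, fld_mod _ _ hj]

theorem msk_mod (x n : ℕ) : Nat.land x (msk n) = x % 2 ^ n := by
  have h : Nat.land x (msk n) = x &&& (2 ^ n - 1) := rfl
  rw [h, Nat.and_two_pow_sub_one_eq_mod]

theorem bb_main {RW NR w k n : ℕ} {X : ℕ → ℝ} (hC : Cf n w X) (hk : k ≤ 6)
    (hinj : ∀ a b, a < 6 → b < 6 → X (a + 1) = X (b + 1) → a = b) {t : Tr} {y : Fin 6 → ℝ}
    (hF : Fo idA y X) (h : bb RW NR w k t idA 0 = true) :
    ∃ Q : ℕ → ℕ, (∀ j i, i < j → j < k → Q i ≠ Q j) ∧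
      (∀ j i, i < j → j < k → Q i < 6 → Q j < 6 → X (Q i + 1) < X (Q j + 1)) ∧
      ∀ e : ℕ → ℕ, (∀ i < k, 1 ≤ e i ∧ e i ≤ 6) → (∀ j i, i < j → j < k → e i < e j) →
        ∃ M, (∀ i < k, fld M (1 + Q i) = e i) ∧
          (∀ a, (∀ i < k, 1 + Q i ≠ a) → fld M a = 0) ∧
          ∃ j < NR, ∃ π < 1024, ∀ t < 15, fld M (code w (fld9 (pw π) t))
            = (RW >>> (45 * j + 3 * t)) &&& 7 := by
  obtain ⟨q, l, h1, h2, h3⟩ := bb_sound hC hinj t idA 0 y h (by omega) hF wide_idA
  refine ⟨fld q, fun j i hij hj => h1 j i hij (by omega),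
    fun j i hij hj => h2 j i hij (by omega), ?_⟩
  intro e he1 he2
  obtain ⟨i, hi, hi2⟩ := emb_spec hk e he1 he2
  obtain ⟨p, hp1, hp2⟩ := srvL_spec l h3 i hi
  have h0 : ∀ a, fld 0 a = 0 := by
    intro a
    unfold fld
    rw [Nat.zero_div]
  obtain ⟨h4, h5⟩ := mpe_spec k q (embL k / 2 ^ (19 * i)) 0
    (fun j i hij hj => h1 j i hij (by omega)) (fun i _ => h0 _)
  refine ⟨_, fun j hj => (h4 j hj).trans (hi2 j hj), fun a ha => (h5 a ha).trans (h0 a),
    Nat.shiftRight p 10, hp1, Nat.land p 1023, ?_, ?_⟩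
  · exact Nat.lt_succ_of_le Nat.and_le_right
  · intro t ht
    rw [wGo_spec 15 hp2 t ht, msk_mod, went_eq, show (2 : ℕ) ^ 45 = 8 ^ 15 by norm_num,
      fld_mod _ _ ht, shr, Nat.mul_eq, pow_mul, show (2 : ℕ) ^ 45 = 8 ^ 15 by norm_num, ← pow_mul,
      fld_div]

end Pool.Agent.Lib.EPS9
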