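import Pool.Agent.Lib.MP_c7e7f6_eps.Tab

/-!
Values of the codes, and the equations of the certificates.
-/

set_option autoImplicit false
set_option linter.unusedVariables false
set_option linter.style.longLine false

namespace Pool.Agent.Lib.EPS9

open MvPolynomial

/-- there are `n` points in general position whose squared distances are `X` of the codes in `w` -/
def Cf (n w : ℕ) (X : ℕ → ℝ) : Prop :=
  ∃ D : Fin n → Fin n → ℝ, Geo D ∧ ∀ i j : ℕ, i < 16 → j < 16 → cl w i j ≠ 0 → cl w i j ≤ 6 ∧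
    ∃ (hi : i < n) (hj : j < n), i ≠ j ∧ D ⟨i, hi⟩ ⟨j, hj⟩ = X (cl w i j)

/-- the values of the codes are the sums of the variables prescribed by the rows of `A` -/
def Fo (A : ℕ) (y : Fin 6 → ℝ) (X : ℕ → ℝ) : Prop :=
  (∀ a, 0 < y a) ∧ ∀ d < 6, X (d + 1) = ∑ a : Fin 6, if A.testBit (6 * d + a) then y a else 0

/-- every row of `A` has at most `nx` bits -/
def Wide (A nx : ℕ) : Prop :=
  ∀ d < 6, (Finset.univ.filter (fun a : Fin 6 => A.testBit (6 * d + a))).card ≤ nx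

/-- `w` and `v` agree on the first `m` points -/
def Agree (m w v : ℕ) : Prop := ∀ i < m, ∀ j < m, cl w i j = cl v i j

theorem lin_nb {A nx : ℕ} (hw : Wide A nx) (c : ℕ) : Nb (lin A c) 1 nx := by
  refine ⟨lin_hom A c, ?_⟩
  unfold lin
  split_ifs with h
  · rw [norm1_zero]
    exact Nat.zero_le _
  · refine (norm1_sum_le _ _).trans ?_
    refine le_trans (le_of_eq ?_) (hw (c - 1) (by omega))
    rw [Finset.card_filter]
    refine Finset.sum_congr rfl fun a _ => ?_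
    split_ifs <;> simp

theorem aeval_lin {A : ℕ} {y : Fin 6 → ℝ} {X : ℕ → ℝ} (hf : Fo A y X) {c : ℕ} (h0 : c ≠ 0)
    (h6 : c ≤ 6) : aeval y (lin A c) = X c := by
  unfold lin
  rw [if_neg (by omega), map_sum]
  have h := hf.2 (c - 1) (by omega)
  rw [show c - 1 + 1 = c by omega] at h
  rw [h]
  refine Finset.sum_congr rfl fun a _ => ?_
  split_ifs
  · rw [aeval_X]
  · rw [map_zero]

/-- the number `x` represents the linear form `P` with value `r` -/
structure Vl (b nx : ℕ) (y : Fin 6 → ℝ) (x : ℕ) (P : MvPolynomial (Fin 6) ℤ) (r : ℝ) : Prop where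
  cv : Cv (modN b) x (kap b P)
  lt : x < 2 ^ (46 * b)
  nb : Nb P 1 nx
  ev : aeval y P = r

/-- the data of a table and a forest -/
structure Dat (b A nx n w : ℕ) (X : ℕ → ℝ) (y : Fin 6 → ℝ) (D : Fin n → Fin n → ℝ) : Prop where
  hb : 1 ≤ b
  hw : Wide A nx
  hf : Fo A y X
  hG : Geo D
  hD : ∀ i j : ℕ, i < 16 → j < 16 → cl w i j ≠ 0 → cl w i j ≤ 6 ∧
    ∃ (hi : i < n) (hj : j < n), i ≠ j ∧ D ⟨i, hi⟩ ⟨j, hj⟩ = X (cl w i j)

theorem cl_le (w i j : ℕ) : cl w i j ≤ 7 := Nat.and_le_right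

/-- the number of a code -/
abbrev xcode (b A w i j : ℕ) : ℕ := xc (xtab b A) (46 * b) (mw b) (cl w i j)

section

variable {b A nx n w : ℕ} {X : ℕ → ℝ} {y : Fin 6 → ℝ} {D : Fin n → Fin n → ℝ}

theorem Dat.lt (h : Dat b A nx n w X y D) {i j : ℕ} (ui : i < 16) (uj : j < 16)
    (hc : cl w i j ≠ 0) : i < n ∧ j < n ∧ i ≠ j := by
  obtain ⟨_, hi, hj, h1, _⟩ := h.hD i j ui uj hc
  exact ⟨hi, hj, h1⟩

theorem Dat.val (h : Dat b A nx n w X y D) {i j : ℕ} (ui : i < 16) (uj : j < 16) (hi : i < n)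
    (hj : j < n) (hc : cl w i j ≠ 0 ∨ i = j) :
    Vl b nx y (xcode b A w i j) (lin A (cl w i j)) (D ⟨i, hi⟩ ⟨j, hj⟩) := by
  refine ⟨xc_cv h.hb A (cl_le w i j), xc_lt b _ _, lin_nb h.hw _, ?_⟩
  by_cases h0 : cl w i j = 0
  · have hij : i = j := hc.resolve_left (fun h1 => h1 h0)
    subst hij
    rw [h0, h.hG.self]
    unfold lin
    rw [if_pos (Or.inl rfl), map_zero]
  · obtain ⟨h6, _, _, _, h1⟩ := h.hD i j ui uj h0
    rw [h1]
    exact aeval_lin h.hf h0 h6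

/-- the equal codes have equal values -/
theorem Dat.eq (h : Dat b A nx n w X y D) {i j k l : ℕ} (ui : i < 16) (uj : j < 16)
    (uk : k < 16) (ul : l < 16) (hi : i < n) (hj : j < n) (hk : k < n)
    (hl : l < n) (hc : cl w i j ≠ 0) (he : cl w i j = cl w k l) :
    D ⟨i, hi⟩ ⟨j, hj⟩ = D ⟨k, hk⟩ ⟨l, hl⟩ := by
  obtain ⟨_, _, _, _, h1⟩ := h.hD i j ui uj hc
  obtain ⟨_, _, _, _, h2⟩ := h.hD k l uk ul (he ▸ hc)
  rw [h1, h2, he]

end

/-- an equation of degree three, as a difference `p - q` times a power of two -/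
structure Ok (b nx : ℕ) (y : Fin 6 → ℝ) (p q s : ℕ) : Prop where
  hp : p ≤ 4 * 2 ^ (272 * b)
  hq : q ≤ 4 * 2 ^ (272 * b)
  ex : ∃ Q : MvPolynomial (Fin 6) ℤ, ((p : ZMod (modN b)) - q) * 2 ^ s = kap b Q ∧
    Nb Q 3 (162 * nx ^ 3) ∧ aeval y Q = 0

theorem big {b : ℕ} (hb : 1 ≤ b) : 8 * (2 ^ (46 * b) * 2 ^ (46 * b)) ≤ 2 ^ (272 * b) := by
  have h : (8 : ℕ) * (2 ^ (46 * b) * 2 ^ (46 * b)) = 2 ^ (92 * b + 3) := by
    rw [← pow_add, pow_add _ (92 * b) 3, ← two_mul]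
    ring
  rw [h]
  exact Nat.pow_le_pow_right (by norm_num) (by omega)

theorem pow_le3 (n : ℕ) : n ≤ n ^ 3 := Nat.le_self_pow (by norm_num) n

theorem pow_le23 (n : ℕ) : n ^ 2 ≤ n ^ 3 := by
  rcases Nat.eq_zero_or_pos n with rfl | h
  · norm_num
  · exact Nat.pow_le_pow_right h (by norm_num)

theorem kap_two (b : ℕ) : kap b 2 = 2 := map_ofNat _ 2

/-- `p` represents a form -/
theorem kap_sum {b : ℕ} {s : ℕ} {k : Fin 6} (hs : s = b * kw k) : (2 : ZMod (modN b)) ^ s = kap b (X k) := by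
  rw [kap_X, hs]

section

variable {b nx : ℕ} {y : Fin 6 → ℝ}

theorem ok_kite (hb : 1 ≤ b) {s p q r : ℕ} {S P Q R : MvPolynomial (Fin 6) ℤ}
    {vs vp vq vr : ℝ} (hs : Vl b nx y s S vs) (hp : Vl b nx y p P vp) (hq : Vl b nx y q Q vq)
    (hr : Vl b nx y r R vr) (h : tri vs vp vq = vs * vr) {k : Fin 6} {sk : ℕ} (hk : sk = b * kw k) :
    Ok b nx y (2 * (s * (p + q) + p * q)) (s * (s + r) + p * p + q * q) sk := by
  have hB := big hb
  have h1 := hs.lt
  have h2 := hp.lt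
  have h3 := hq.lt
  have h4 := hr.lt
  refine ⟨?_, ?_, (tri S P Q - S * R) * X k, ?_, ?_, ?_⟩
  · generalize 2 ^ (46 * b) = T at *
    have e1 : s * p ≤ T * T := Nat.mul_le_mul h1.le h2.le
    have e2 : s * q ≤ T * T := Nat.mul_le_mul h1.le h3.le
    have e3 : p * q ≤ T * T := Nat.mul_le_mul h2.le h3.le
    rw [mul_add s]
    omega
  · generalize 2 ^ (46 * b) = T at *
    have e1 : s * s ≤ T * T := Nat.mul_le_mul h1.le h1.le
    have e2 : s * r ≤ T * T := Nat.mul_le_mul h1.le h4.le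
    have e3 : p * p ≤ T * T := Nat.mul_le_mul h2.le h2.le
    have e4 : q * q ≤ T * T := Nat.mul_le_mul h3.le h3.le
    rw [mul_add s]
    omega
  · have c1 : (s : ZMod (modN b)) = kap b S := hs.cv
    have c2 : (p : ZMod (modN b)) = kap b P := hp.cv
    have c3 : (q : ZMod (modN b)) = kap b Q := hq.cv
    have c4 : (r : ZMod (modN b)) = kap b R := hr.cv
    rw [kap_sum hk]
    push_cast
    rw [c1, c2, c3, c4]
    unfold tri
    simp only [map_mul, map_sub, map_add, map_pow, kap_two]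
    ring
  · have n1 := hs.nb
    have n2 := hp.nb
    have n3 := hq.nb
    have n4 := hr.nb
    have e : (tri S P Q - S * R) * X k
        = (2 * (S * P + P * Q + Q * S) - S * S - P * P - Q * Q - S * R) * X k := by
      unfold tri
      ring
    rw [e]
    refine Nb.mono (Nb.mul (((((((n1.mul n2).add (n2.mul n3)).add (n3.mul n1)).two_mul.sub
      (n1.mul n1)).sub (n2.mul n2)).sub (n3.mul n3)).sub (n1.mul n4)) (Nb.var k)) ?_
    have := pow_le23 nx
    have e2 : (2 * (nx * nx + nx * nx + nx * nx) + nx * nx + nx * nx + nx * nx + nx * nx) * 1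
        = 10 * nx ^ 2 := by ring
    rw [e2]
    omega
  · rw [map_mul, map_sub]
    have e : aeval y (tri S P Q) = tri vs vp vq := by
      unfold tri
      simp only [map_mul, map_sub, map_add, map_pow, map_ofNat, hs.ev, hp.ev, hq.ev]
    rw [e, map_mul, hs.ev, hr.ev, h, sub_self, zero_mul]

theorem ok_para (hb : 1 ≤ b) {p q r s : ℕ} {P Q R S : MvPolynomial (Fin 6) ℤ}
    {vp vq vr vs : ℝ} (hp : Vl b nx y p P vp) (hq : Vl b nx y q Q vq)
    (hr : Vl b nx y r R vr) (hs : Vl b nx y s S vs) (h : vp + vq = 2 * (vr + vs))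
    {k l : Fin 6} {sk sl : ℕ} (hk : sk = b * kw k) (hl : sl = b * kw l) :
    Ok b nx y (p + q) (2 * (r + s)) (sk + sl) := by
  have hB := big hb
  have h1 := hs.lt
  have h2 := hp.lt
  have h3 := hq.lt
  have h4 := hr.lt
  have hT : 2 ^ (46 * b) ≤ 2 ^ (46 * b) * 2 ^ (46 * b) := Nat.le_mul_of_pos_left _ (by positivity)
  refine ⟨by omega, by omega, (P + Q - 2 * (R + S)) * X k * X l, ?_, ?_, ?_⟩
  · have c1 : (s : ZMod (modN b)) = kap b S := hs.cv
    have c2 : (p : ZMod (modN b)) = kap b P := hp.cv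
    have c3 : (q : ZMod (modN b)) = kap b Q := hq.cv
    have c4 : (r : ZMod (modN b)) = kap b R := hr.cv
    rw [pow_add, kap_sum hk, kap_sum hl]
    push_cast
    rw [c1, c2, c3, c4]
    simp only [map_mul, map_sub, map_add, kap_two]
    ring
  · refine Nb.mono (Nb.mul (Nb.mul ((hp.nb.add hq.nb).sub (hr.nb.add hs.nb).two_mul) (Nb.var k))
      (Nb.var l)) ?_
    have := pow_le3 nx
    omega
  · simp only [map_mul, map_sub, map_add, map_ofNat, hp.ev, hq.ev, hr.ev, hs.ev]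
    rw [h, sub_self, zero_mul, zero_mul]

theorem ok_paraP (hb : 1 ≤ b) {p1 p2 p3 p4 s t : ℕ} {P1 P2 P3 P4 S T : MvPolynomial (Fin 6) ℤ}
    {v1 v2 v3 v4 vs vt : ℝ} (h1 : Vl b nx y p1 P1 v1) (h2 : Vl b nx y p2 P2 v2)
    (h3 : Vl b nx y p3 P3 v3) (h4 : Vl b nx y p4 P4 v4) (hs : Vl b nx y s S vs)
    (ht : Vl b nx y t T vt)
    (h : 2 * (v1 + v2 - v3 - v4) = vt - vs) {k l : Fin 6} {sk sl : ℕ} (hk : sk = b * kw k)
    (hl : sl = b * kw l) :
    Ok b nx y (2 * (p1 + p2) + s) (2 * (p3 + p4) + t) (sk + sl) := by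
  have hB := big hb
  have l1 := h1.lt
  have l2 := h2.lt
  have l3 := h3.lt
  have l4 := h4.lt
  have l5 := hs.lt
  have l6 := ht.lt
  have hT : 2 ^ (46 * b) ≤ 2 ^ (46 * b) * 2 ^ (46 * b) := Nat.le_mul_of_pos_left _ (by positivity)
  refine ⟨by omega, by omega, ((2 * (P1 + P2) + S) - (2 * (P3 + P4) + T)) * X k * X l, ?_, ?_, ?_⟩
  · have c1 : (p1 : ZMod (modN b)) = kap b P1 := h1.cv
    have c2 : (p2 : ZMod (modN b)) = kap b P2 := h2.cv
    have c3 : (p3 : ZMod (modN b)) = kap b P3 := h3.cv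
    have c4 : (p4 : ZMod (modN b)) = kap b P4 := h4.cv
    have c5 : (s : ZMod (modN b)) = kap b S := hs.cv
    have c6 : (t : ZMod (modN b)) = kap b T := ht.cv
    rw [pow_add, kap_sum hk, kap_sum hl]
    push_cast
    rw [c1, c2, c3, c4, c5, c6]
    simp only [map_mul, map_sub, map_add, kap_two]
    ring
  · refine Nb.mono (Nb.mul (Nb.mul (((h1.nb.add h2.nb).two_mul.add hs.nb).sub
      ((h3.nb.add h4.nb).two_mul.add ht.nb)) (Nb.var k)) (Nb.var l)) ?_
    have := pow_le3 nx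
    omega
  · simp only [map_mul, map_sub, map_add, map_ofNat, h1.ev, h2.ev, h3.ev, h4.ev, hs.ev, ht.ev]
    have e : 2 * (v1 + v2) + vs - (2 * (v3 + v4) + vt) = 0 := by linarith
    rw [e, zero_mul, zero_mul]

theorem Vl.rp (hb : 1 ≤ b) {x : ℕ} {P : MvPolynomial (Fin 6) ℤ} {v : ℝ} (h : Vl b nx y x P v) :
    Rp (modN b) x (kap b P) := by
  refine ⟨h.cv, ?_⟩
  have := lt_modN hb h.lt
  omega

theorem kap_gm {S P Q : MvPolynomial (Fin 6) ℤ} :
    kap b S + kap b P - kap b Q = kap b (S + P - Q) := by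
  rw [map_sub, map_add]

theorem ok_minor (hb : 1 ≤ b) {x y' : Fin 3 → ℕ} {z : Fin 3 → Fin 3 → ℕ}
    {Px Py : Fin 3 → MvPolynomial (Fin 6) ℤ} {Pz : Fin 3 → Fin 3 → MvPolynomial (Fin 6) ℤ}
    {vx vy : Fin 3 → ℝ} {vz : Fin 3 → Fin 3 → ℝ}
    (hx : ∀ i, Vl b nx y (x i) (Px i) (vx i)) (hy : ∀ i, Vl b nx y (y' i) (Py i) (vy i))
    (hz : ∀ i j, Vl b nx y (z i j) (Pz i j) (vz i j))
    (h : det3 (fun i j => vx i + vy j - vz i j) = 0) :
    Ok b nx y (m3 (2 ^ (272 * b)) (g2 (modN b) (modN b - 1) (x 0) (y' 0) (z 0 0))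
      (m2 (2 ^ (272 * b)) (modN b - 1) (g2 (modN b) (modN b - 1) (x 1) (y' 1) (z 1 1))
        (g2 (modN b) (modN b - 1) (x 2) (y' 2) (z 2 2))
        (g2 (modN b) (modN b - 1) (x 1) (y' 2) (z 1 2))
        (g2 (modN b) (modN b - 1) (x 2) (y' 1) (z 2 1)))
      (g2 (modN b) (modN b - 1) (x 0) (y' 1) (z 0 1))
      (m2 (2 ^ (272 * b)) (modN b - 1) (g2 (modN b) (modN b - 1) (x 1) (y' 0) (z 1 0))
        (g2 (modN b) (modN b - 1) (x 2) (y' 2) (z 2 2))
        (g2 (modN b) (modN b - 1) (x 1) (y' 2) (z 1 2))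
        (g2 (modN b) (modN b - 1) (x 2) (y' 0) (z 2 0)))
      (g2 (modN b) (modN b - 1) (x 0) (y' 2) (z 0 2))
      (m2 (2 ^ (272 * b)) (modN b - 1) (g2 (modN b) (modN b - 1) (x 1) (y' 0) (z 1 0))
        (g2 (modN b) (modN b - 1) (x 2) (y' 1) (z 2 1))
        (g2 (modN b) (modN b - 1) (x 1) (y' 1) (z 1 1))
        (g2 (modN b) (modN b - 1) (x 2) (y' 0) (z 2 0)))) 0 0 := by
  have E := ev_b b
  have g : ∀ i j, Rp (modN b) (g2 (modN b) (modN b - 1) (x i) (y' j) (z i j))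
      (kap b (Px i + Py j - Pz i j)) := by
    intro i j
    rw [← kap_gm]
    exact Rp.gm E (hx i).cv (hy j).cv ((hz i j).rp hb)
  have m : ∀ i j k l, Rp (modN b) (m2 (2 ^ (272 * b)) (modN b - 1)
      (g2 (modN b) (modN b - 1) (x i) (y' j) (z i j))
      (g2 (modN b) (modN b - 1) (x k) (y' l) (z k l))
      (g2 (modN b) (modN b - 1) (x i) (y' l) (z i l))
      (g2 (modN b) (modN b - 1) (x k) (y' j) (z k j)))
      (kap b (Px i + Py j - Pz i j) * kap b (Px k + Py l - Pz k l)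
        - kap b (Px i + Py l - Pz i l) * kap b (Px k + Py j - Pz k j)) := by
    intro i j k l
    exact Rp.pm E (g i j) (g k l) (g i l) (g k j)
  have m' : ∀ i j k l, Rp (modN b) (m2 (2 ^ (272 * b)) (modN b - 1)
      (g2 (modN b) (modN b - 1) (x i) (y' j) (z i j))
      (g2 (modN b) (modN b - 1) (x k) (y' l) (z k l))
      (g2 (modN b) (modN b - 1) (x i) (y' l) (z i l))
      (g2 (modN b) (modN b - 1) (x k) (y' j) (z k j)))
      (kap b ((Px i + Py j - Pz i j) * (Px k + Py l - Pz k l)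
        - (Px i + Py l - Pz i l) * (Px k + Py j - Pz k j))) := by
    intro i j k l
    rw [map_sub, map_mul, map_mul]
    exact m i j k l
  have hN2 : 2 ^ (272 * b) = modN b * modN b := E.n2
  refine ⟨?_, Nat.zero_le _, det3 (fun i j => Px i + Py j - Pz i j), ?_, ?_, ?_⟩
  · have l1 : ∀ a p : ℕ, a < modN b → p < modN b → a * p ≤ 2 ^ (272 * b) := by
      intro a p ha hp
      rw [hN2]
      exact Nat.mul_le_mul ha.le hp.le
    have k1 := l1 _ _ (g 0 0).2 (m 1 1 2 2).2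
    have k2 := l1 _ _ (g 0 2).2 (m 1 0 2 1).2
    simp only [m3, Nat.add_eq, Nat.mul_eq, Nat.sub_eq]
    omega
  · rw [pow_zero, mul_one, Nat.cast_zero, sub_zero]
    have k1 := (Cv.add (Cv.add (Cv.mul (g 0 0).1 (m' 1 1 2 2).1) (Cv.mul (g 0 2).1 (m' 1 0 2 1).1))
      (Cv.sub E.zero (Sm.lg (U := modN b) (g 0 1) (m' 1 0 2 2))
        (by rw [one_mul, E.n2])))
    refine Eq.trans k1 ?_
    unfold det3
    simp only [map_add, map_sub, map_mul]
    ring
  · have n1 : ∀ i j, Nb (Px i + Py j - Pz i j) 1 (3 * nx) := fun i j =>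
      (((hx i).nb.add (hy j).nb).sub (hz i j).nb).mono (by omega)
    have := Nb.det9 (n1 0 0) (n1 0 1) (n1 0 2) (n1 1 0) (n1 1 1) (n1 1 2) (n1 2 0) (n1 2 1) (n1 2 2)
    refine Nb.mono (P := det3 (fun i j => Px i + Py j - Pz i j)) this (le_of_eq ?_)
    ring
  · rw [← h]
    unfold det3
    simp only [map_add, map_sub, map_mul, (hx _).ev, (hy _).ev, (hz _ _).ev]

end

end Pool.Agent.Lib.EPS9
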